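import Mathlib

/-! The parts of this file: H17.Montel, H17BP.Surf, H68.KR.HZ. -/

section

/-!
# Limits of bounded holomorphic functions along an ultrafilter
-/

open Topology Filter

namespace Pool.Agent.H17

attribute [-instance] ProperSMul.toContinuousSMul

variable {E : Type} [NormedAddCommGroup E] [NormedSpace ℂ E] [ProperSpace E] [CompleteSpace E]

omit [ProperSpace E] [CompleteSpace E] in
/-- A bounded holomorphic function is Lipschitz on smaller discs. -/
lemma lipschitz_of_bounded {F : ℂ → E} {a : ℂ} {r B : ℝ}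
    (hF : DifferentiableOn ℂ F (Metric.ball a r)) (hB : ∀ z ∈ Metric.ball a r, ‖F z‖ ≤ B)
    {z₀ : ℂ} {ρ : ℝ} (hρ : 0 < ρ) (hz₀ : Metric.ball z₀ (2 * ρ) ⊆ Metric.ball a r)
    {z w : ℂ} (hz : z ∈ Metric.ball z₀ ρ) (hw : w ∈ Metric.ball z₀ ρ) :
    ‖F w - F z‖ ≤ B / (ρ / 2) * ‖w - z‖ := by
  have hsub : ∀ y ∈ Metric.ball z₀ ρ, Metric.closedBall y (ρ / 2) ⊆ Metric.ball a r := by
    intro y hy x hx
    apply hz₀
    rw [Metric.mem_ball] at hy ⊢
    rw [Metric.mem_closedBall] at hx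
    calc dist x z₀ ≤ dist x y + dist y z₀ := dist_triangle _ _ _
      _ < 2 * ρ := by linarith
  refine Convex.norm_image_sub_le_of_norm_deriv_le (s := Metric.ball z₀ ρ) ?_ ?_
    (convex_ball z₀ ρ) hz hw
  · intro y hy
    have h1 : y ∈ Metric.ball a r := hsub y hy (Metric.mem_closedBall_self (by positivity))
    exact (hF y h1).differentiableAt (Metric.isOpen_ball.mem_nhds h1)
  · intro y hy
    refine Complex.norm_deriv_le_of_forall_mem_sphere_norm_le (by positivity) ?_ ?_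
    · apply DifferentiableOn.diffContOnCl
      refine hF.mono ?_
      exact (Metric.closure_ball_subset_closedBall).trans (hsub y hy)
    · intro x hx
      exact hB x (hsub y hy (Metric.sphere_subset_closedBall hx))

/-- **Montel's theorem along an ultrafilter.** -/
theorem montel_ultrafilter {κ : Type*} (𝒰 : Ultrafilter κ) {F : κ → ℂ → E} {a : ℂ} {r B : ℝ}
    (h1 : ∀ᶠ k in (𝒰 : Filter κ), DifferentiableOn ℂ (F k) (Metric.ball a r))
    (h2 : ∀ᶠ k in (𝒰 : Filter κ), ∀ z ∈ Metric.ball a r, ‖F k z‖ ≤ B) :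
    ∃ h : ℂ → E, DifferentiableOn ℂ h (Metric.ball a r) ∧
      TendstoLocallyUniformlyOn F h (𝒰 : Filter κ) (Metric.ball a r) := by
  classical
  have hlim : ∀ z, ∃ l : E, z ∈ Metric.ball a r → Tendsto (fun k => F k z) (𝒰 : Filter κ) (𝓝 l) := by
    intro z
    by_cases hz : z ∈ Metric.ball a r
    · have h3 : ∀ᶠ k in (𝒰 : Filter κ), F k z ∈ Metric.closedBall (0 : E) B := by
        filter_upwards [h2] with k hk
        rw [mem_closedBall_zero_iff]
        exact hk z hz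
      obtain ⟨l, -, hl⟩ := (isCompact_closedBall (0 : E) B).ultrafilter_le_nhds
        (𝒰.map fun k => F k z) (by
          rw [le_principal_iff]
          exact h3)
      exact ⟨l, fun _ => hl⟩
    · exact ⟨0, fun h => absurd h hz⟩
  choose h hh using hlim
  have hconv : TendstoLocallyUniformlyOn F h (𝒰 : Filter κ) (Metric.ball a r) := by
    rw [Metric.tendstoLocallyUniformlyOn_iff]
    intro ε hε z₀ hz₀
    have hrz : dist z₀ a < r := hz₀
    set ρ : ℝ := (r - dist z₀ a) / 2 with hρ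
    have hρpos : 0 < ρ := by rw [hρ]; linarith
    have hsub : Metric.ball z₀ (2 * ρ) ⊆ Metric.ball a r := by
      apply Metric.ball_subset_ball'
      rw [hρ]
      linarith
    set L : ℝ := |B| / (ρ / 2) + 1 with hL
    have hLpos : 0 < L := by positivity
    set η : ℝ := min ρ (ε / (4 * L)) with hη
    have hηpos : 0 < η := by positivity
    have hηρ : η ≤ ρ := min_le_left _ _
    have hηε : L * η ≤ ε / 4 := by
      have : η ≤ ε / (4 * L) := min_le_right _ _
      calc L * η ≤ L * (ε / (4 * L)) := by gcongr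
        _ = ε / 4 := by field_simp
    have hlip : ∀ᶠ k in (𝒰 : Filter κ), ∀ z ∈ Metric.ball z₀ η, ‖F k z - F k z₀‖ ≤ ε / 4 := by
      filter_upwards [h1, h2] with k hk1 hk2 z hz
      have h3 := lipschitz_of_bounded hk1 hk2 hρpos hsub (Metric.mem_ball_self hρpos)
        (Metric.ball_subset_ball hηρ hz)
      have h4 : ‖z - z₀‖ ≤ η := by
        rw [← dist_eq_norm]
        exact (Metric.mem_ball.mp hz).le
      calc ‖F k z - F k z₀‖ ≤ B / (ρ / 2) * ‖z - z₀‖ := h3
        _ ≤ L * η := by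
          have h5 : B / (ρ / 2) ≤ L := by
            have : B / (ρ / 2) ≤ |B| / (ρ / 2) := by
              gcongr
              exact le_abs_self B
            linarith
          calc B / (ρ / 2) * ‖z - z₀‖ ≤ L * ‖z - z₀‖ := by gcongr
            _ ≤ L * η := by gcongr
        _ ≤ ε / 4 := hηε
    refine ⟨Metric.ball z₀ η, mem_nhdsWithin_of_mem_nhds (Metric.ball_mem_nhds z₀ hηpos), ?_⟩
    have hlimlip : ∀ z ∈ Metric.ball z₀ η, ‖h z - h z₀‖ ≤ ε / 4 := by
      intro z hz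
      have hza : z ∈ Metric.ball a r := hsub (Metric.ball_subset_ball (by linarith) hz)
      have h3 : Tendsto (fun k => ‖F k z - F k z₀‖) (𝒰 : Filter κ) (𝓝 ‖h z - h z₀‖) :=
        ((hh z hza).sub (hh z₀ hz₀)).norm
      exact le_of_tendsto h3 (hlip.mono fun k hk => hk z hz)
    have hz₀lim : ∀ᶠ k in (𝒰 : Filter κ), ‖F k z₀ - h z₀‖ < ε / 4 := by
      have h3 := hh z₀ hz₀
      rw [Metric.tendsto_nhds] at h3
      filter_upwards [h3 (ε / 4) (by positivity)] with k hk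
      rwa [dist_eq_norm] at hk
    filter_upwards [hlip, hz₀lim] with k hk1 hk2 z hz
    rw [dist_eq_norm]
    have e : h z - F k z = (h z - h z₀) - (F k z₀ - h z₀) - (F k z - F k z₀) := by abel
    rw [e]
    calc ‖(h z - h z₀) - (F k z₀ - h z₀) - (F k z - F k z₀)‖
        ≤ ‖(h z - h z₀) - (F k z₀ - h z₀)‖ + ‖F k z - F k z₀‖ := norm_sub_le _ _
      _ ≤ ‖h z - h z₀‖ + ‖F k z₀ - h z₀‖ + ‖F k z - F k z₀‖ := by
        gcongr
        exact norm_sub_le _ _
      _ < ε := by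
        have := hlimlip z hz
        have := hk1 z hz
        linarith
  refine ⟨h, ?_, hconv⟩
  exact hconv.differentiableOn h1 Metric.isOpen_ball

end Pool.Agent.H17

end

section

/-!
# Smooth closed surfaces in a projective space, in terms of their cones

`V` is a finite dimensional complex normed space; a closed subset of `ℙ(V)` is given by its cone `X ⊆ V ∖ {0}`.
-/

open Topology Filter

noncomputable section

namespace Pool.Agent.H17BP

attribute [-instance] ProperSMul.toContinuousSMul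

variable {V : Type} [NormedAddCommGroup V] [NormedSpace ℂ V]

/-- The germ `σ : (ℂ², 0) → X` parametrises the surface given by the cone `X`, with the inverse `τ`. -/
structure IsChart (X : Set V) (σ : ℂ × ℂ → V) (τ : V → ℂ × ℂ) : Prop where
  σ_an : AnalyticAt ℂ σ 0
  σ_mem : ∀ᶠ p in 𝓝 (0 : ℂ × ℂ), σ p ∈ X
  ne : σ 0 ≠ 0
  τ_an : AnalyticAt ℂ τ (σ 0)
  left : ∀ᶠ p in 𝓝 (0 : ℂ × ℂ), τ (σ p) = p
  right : ∀ᶠ y in 𝓝 (σ 0), y ∈ X → ∃ c : ℂ, c ≠ 0 ∧ y = c • σ (τ y)
  inv : ∀ᶠ p in 𝓝 (σ 0, (1 : ℂ)), τ (p.2 • p.1) = τ p.1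

/-- `X` is the cone of a smooth closed surface in `ℙ(V)`. -/
structure Surface (X : Set V) : Prop where
  zero : (0 : V) ∉ X
  smul : ∀ x ∈ X, ∀ c : ℂ, c ≠ 0 → c • x ∈ X
  closed : ∀ x ∈ closure X, x ≠ 0 → x ∈ X
  chart : ∀ x ∈ X, ∃ σ τ, IsChart X σ τ ∧ σ 0 = x

/-- The tangent vectors of the cone `X` at `x`. -/
def Tan (X : Set V) (x : V) : Set V :=
  {v | ∃ γ : ℂ → V, AnalyticAt ℂ γ 0 ∧ (∀ᶠ z in 𝓝 (0 : ℂ), γ z ∈ X) ∧ γ 0 = x ∧ deriv γ 0 = v}

/-- `Ω` is a holomorphic section of `m K_X - j H`. -/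
structure IsForm (X : Set V) (m j : ℕ) (Ω : V → V → V → ℂ) : Prop where
  add_smul : ∀ x ∈ X, ∀ v ∈ Tan X x, ∀ w ∈ Tan X x, ∀ a b : ℂ, Ω x (v + a • x) (w + b • x) = Ω x v w
  det : ∀ x ∈ X, ∀ v ∈ Tan X x, ∀ w ∈ Tan X x, ∀ a b c d : ℂ,
    Ω x (a • v + b • w) (c • v + d • w) = (a * d - b * c) ^ m * Ω x v w
  scale : ∀ x ∈ X, ∀ v ∈ Tan X x, ∀ w ∈ Tan X x, ∀ c : ℂ, c ≠ 0 →
    c ^ j * Ω (c • x) (c • v) (c • w) = Ω x v w
  analytic : ∀ (φ : ℂ × ℂ → V) (p : ℂ × ℂ), AnalyticAt ℂ φ p → (∀ᶠ y in 𝓝 p, φ y ∈ X) →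
    AnalyticAt ℂ (fun y => Ω (φ y) (fderiv ℂ φ y (1, 0)) (fderiv ℂ φ y (0, 1))) p

/-- The form `Ω` has no zeros outside `B`. -/
def NoZeros (X B : Set V) (Ω : V → V → V → ℂ) : Prop :=
  ∀ x ∈ X, x ∉ B → ∀ v ∈ Tan X x, ∀ w ∈ Tan X x, LinearIndependent ℂ ![x, v, w] → Ω x v w ≠ 0

/-- The subset `B` of the surface `X` is given near `σ 0` by the equation `g = 0`. -/
def LocalEq (B : Set V) (σ : ℂ × ℂ → V) (g : ℂ × ℂ → ℂ) : Prop :=
  AnalyticAt ℂ g 0 ∧ ∀ᶠ p in 𝓝 (0 : ℂ × ℂ), (σ p ∈ B ↔ g p = 0)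

/-- `B` is a curve in `X` with at most nodes. -/
def NodalAt (X B : Set V) (x : V) : Prop :=
  ∃ σ τ, IsChart X σ τ ∧ σ 0 = x ∧ ((∀ᶠ p in 𝓝 (0 : ℂ × ℂ), σ p ∉ B) ∨
    (∀ᶠ p in 𝓝 (0 : ℂ × ℂ), (σ p ∈ B ↔ p.1 = 0)) ∨
    ∀ᶠ p in 𝓝 (0 : ℂ × ℂ), (σ p ∈ B ↔ p.1 * p.2 = 0))

end Pool.Agent.H17BP

end
end

section

/-!
# KR HZ: homogenisation with respect to a variable

`hmz l n G = ∑_{d ≤ n} X_l^(n-d) G_d`, `G_d` the homogeneous component.

Proofs.
* `hmz_isHomogeneous`: `X_l^(n-d)` has degree `n - d`, `G_d` degree `d` (`homogeneousComponent_isHomogeneous`,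
  `isHomogeneous_X_pow`, `IsHomogeneous.mul`, `IsHomogeneous.sum`).
* `eval₂_of_isHomogeneous`: `Q (c y) = c^d Q (y)`: expand `eval₂_eq`, for every monomial in the support the sum of the
  exponents is `d` (compare the proof in `Pt.lean`).
* `eval₂_hmz`: for every `d`: `G_d (y) = y_l^d G_d (y / y_l)`, so `y_l^(n-d) G_d (y) = y_l^n G_d (y / y_l)` (`d ≤ n`), and
  `∑_{d ≤ n} G_d = G` (`sum_homogeneousComponent`, the components of degree `> totalDegree` vanish).
-/

set_option autoImplicit false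

open MvPolynomial

noncomputable section

namespace Pool.Agent.H68.KR

attribute [-instance] ProperSMul.toContinuousSMul

variable {m : ℕ}

/-- The homogenisation of `G` in degree `n` with respect to the variable `X l`. -/
def hmz (l : Fin m) (n : ℕ) (G : MvPolynomial (Fin m) ℂ) : MvPolynomial (Fin m) ℂ :=
  ∑ d ∈ Finset.range (n + 1), X l ^ (n - d) * homogeneousComponent d G

theorem hmz_isHomogeneous (l : Fin m) (n : ℕ) (G : MvPolynomial (Fin m) ℂ) :
    (hmz l n G).IsHomogeneous n := by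
  unfold hmz
  apply MvPolynomial.IsHomogeneous.sum
  intro d hd
  have h1 : d ≤ n := Nat.lt_succ_iff.1 (Finset.mem_range.1 hd)
  have h2 := (MvPolynomial.isHomogeneous_X_pow (R := ℂ) l (n - d)).mul
    (MvPolynomial.homogeneousComponent_isHomogeneous d G)
  rwa [Nat.sub_add_cancel h1] at h2

/-- Scaling of a homogeneous polynomial. -/
theorem eval₂_of_isHomogeneous {F : Type} [Field F] (ι : ℂ →+* F) {d : ℕ} {Q : MvPolynomial (Fin m) ℂ}
    (hQ : Q.IsHomogeneous d) (c : F) (y : Fin m → F) :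
    eval₂ ι (fun i => c * y i) Q = c ^ d * eval₂ ι y Q := by
  rw [eval₂_eq, eval₂_eq, Finset.mul_sum]
  refine Finset.sum_congr rfl fun m hm => ?_
  have h5 : ∑ i ∈ m.support, m i = d := by
    have := hQ (mem_support_iff.1 hm)
    rw [Finsupp.weight_apply, Finsupp.sum] at this
    simpa using this
  simp only [mul_pow, Finset.prod_mul_distrib]
  rw [Finset.prod_pow_eq_pow_sum, h5]
  ring

theorem eval₂_hmz {F : Type} [Field F] (ι : ℂ →+* F) {l : Fin m} {n : ℕ} {G : MvPolynomial (Fin m) ℂ}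
    (hn : G.totalDegree ≤ n) {y : Fin m → F} (hy : y l ≠ 0) :
    eval₂ ι y (hmz l n G) = y l ^ n * eval₂ ι (fun i => y i / y l) G := by
  have h1 : G = ∑ d ∈ Finset.range (n + 1), homogeneousComponent d G := by
    conv_lhs => rw [← MvPolynomial.sum_homogeneousComponent G]
    apply Finset.sum_subset
    · intro d hd
      rw [Finset.mem_range] at hd ⊢
      omega
    · intro d _ hd
      apply MvPolynomial.homogeneousComponent_eq_zero
      rw [Finset.mem_range] at hd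
      omega
  have h2 : eval₂ ι (fun i => y i / y l) G =
      ∑ d ∈ Finset.range (n + 1), eval₂ ι (fun i => y i / y l) (homogeneousComponent d G) := by
    conv_lhs => rw [h1]
    exact MvPolynomial.eval₂_sum _ _ _ _
  have h3 : eval₂ ι y (hmz l n G) =
      ∑ d ∈ Finset.range (n + 1), eval₂ ι y (X l ^ (n - d) * homogeneousComponent d G) :=
    MvPolynomial.eval₂_sum _ _ _ _
  rw [h2, h3, Finset.mul_sum]
  refine Finset.sum_congr rfl fun d hd => ?_
  have h4 : d ≤ n := Nat.lt_succ_iff.1 (Finset.mem_range.1 hd)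
  have h5 := eval₂_of_isHomogeneous ι (MvPolynomial.homogeneousComponent_isHomogeneous d G) (y l)
    (fun i => y i / y l)
  have h6 : (fun i => y l * (y i / y l)) = y := by
    funext i
    field_simp
  rw [h6] at h5
  rw [eval₂_mul, eval₂_pow, eval₂_X, h5, ← mul_assoc, ← pow_add, Nat.sub_add_cancel h4]

end Pool.Agent.H68.KR

end
end
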