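import Mathlib

/-! The parts of this file: H6.LU.Riem, H87.LU.Defs, H87.LU.Lim. -/

section

/-!
# LU Riem: the removable singularity theorem in two variables

A bounded analytic function on a bidisc minus the axis `p.2 = 0` extends to an analytic function (double Cauchy integral; the first part is from `H62/EL/Prm.lean`).
-/

set_option autoImplicit false

open Topology Filter Metric

namespace Pool.Agent.H6.LU

attribute [-instance] ProperSMul.toContinuousSMul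

private theorem riem_pi : (0 : ℝ) ≤ 2 * Real.pi := by positivity

/-- the parameter interval of the circle -/
private abbrev RiemT : Type := Set.Icc (0 : ℝ) (2 * Real.pi)

private noncomputable def riemP (θ : ℝ) : RiemT := Set.projIcc 0 (2 * Real.pi) riem_pi θ

private theorem riemP_cont : Continuous riemP := continuous_projIcc (h := riem_pi)

private theorem riemP_of_mem {θ : ℝ} (h : θ ∈ Set.uIcc 0 (2 * Real.pi)) : ((riemP θ : RiemT) : ℝ) = θ := by
  rw [Set.uIcc_of_le riem_pi] at h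
  rw [riemP, Set.projIcc_of_mem riem_pi h]

private theorem riem_cont2 (f : C(RiemT × RiemT, ℂ)) : Continuous fun x : ℝ × ℝ => f (riemP x.1, riemP x.2) :=
  f.continuous.comp ((riemP_cont.comp continuous_fst).prodMk (riemP_cont.comp continuous_snd))

private theorem riem_cont_in (f : C(RiemT × RiemT, ℂ)) (θ : ℝ) : Continuous fun φ : ℝ => f (riemP θ, riemP φ) :=
  (riem_cont2 f).comp (continuous_const.prodMk continuous_id)

private theorem riem_cont_out (f : C(RiemT × RiemT, ℂ)) :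
    Continuous fun θ : ℝ => ∫ φ in (0 : ℝ)..(2 * Real.pi), f (riemP θ, riemP φ) :=
  intervalIntegral.continuous_parametric_intervalIntegral_of_continuous' (f := fun θ φ : ℝ => f (riemP θ, riemP φ))
    (riem_cont2 f) _ _

/-- the double integral as a continuous functional -/
private noncomputable def riemJ : C(RiemT × RiemT, ℂ) →L[ℂ] ℂ :=
  LinearMap.mkContinuous
    { toFun := fun f => ∫ θ in (0 : ℝ)..(2 * Real.pi), ∫ φ in (0 : ℝ)..(2 * Real.pi), f (riemP θ, riemP φ)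
      map_add' := by
        intro f g
        rw [← intervalIntegral.integral_add ((riem_cont_out f).intervalIntegrable _ _)
          ((riem_cont_out g).intervalIntegrable _ _)]
        congr 1
        funext θ
        rw [← intervalIntegral.integral_add ((riem_cont_in f θ).intervalIntegrable _ _)
          ((riem_cont_in g θ).intervalIntegrable _ _)]
        rfl
      map_smul' := by
        intro c f
        simp only [ContinuousMap.coe_smul, Pi.smul_apply, intervalIntegral.integral_smul, RingHom.id_apply] }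
    ((2 * Real.pi) * (2 * Real.pi)) (by
      intro f
      have h1 : ∀ θ : ℝ, ‖∫ φ in (0 : ℝ)..(2 * Real.pi), f (riemP θ, riemP φ)‖ ≤ ‖f‖ * (2 * Real.pi) := by
        intro θ
        have h2 := intervalIntegral.norm_integral_le_of_norm_le_const (a := 0) (b := 2 * Real.pi) (C := ‖f‖)
          (f := fun φ => f (riemP θ, riemP φ)) (fun φ _ => f.norm_coe_le_norm _)
        rwa [sub_zero, abs_of_nonneg riem_pi] at h2
      have h2 := intervalIntegral.norm_integral_le_of_norm_le_const (a := 0) (b := 2 * Real.pi)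
        (C := ‖f‖ * (2 * Real.pi))
        (f := fun θ => ∫ φ in (0 : ℝ)..(2 * Real.pi), f (riemP θ, riemP φ)) (fun θ _ => h1 θ)
      rw [sub_zero, abs_of_nonneg riem_pi] at h2
      refine h2.trans (le_of_eq ?_)
      ring)

private theorem riemJ_apply (f : C(RiemT × RiemT, ℂ)) :
    riemJ f = ∫ θ in (0 : ℝ)..(2 * Real.pi), ∫ φ in (0 : ℝ)..(2 * Real.pi), f (riemP θ, riemP φ) := rfl

private theorem riem_unit {Q : Type} [TopologicalSpace Q] (G : C(Q, ℂ)) {s : ℂ} (h : ∀ q, G q ≠ s) :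
    IsUnit (G - s • (1 : C(Q, ℂ))) := by
  rw [ContinuousMap.isUnit_iff_forall_ne_zero]
  intro q hq
  apply h q
  have h1 : (G - s • (1 : C(Q, ℂ))) q = G q - s := by simp
  rw [h1, sub_eq_zero] at hq
  exact hq

private theorem riem_inv_apply {Q : Type} [TopologicalSpace Q] (G : C(Q, ℂ)) {s : ℂ} (h : ∀ q, G q ≠ s) (q : Q) :
    (Ring.inverse (G - s • (1 : C(Q, ℂ)))) q = (G q - s)⁻¹ := by
  have h1 := Ring.mul_inverse_cancel _ (riem_unit G h)
  have h2 := congrArg (fun f : C(Q, ℂ) => f q) h1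
  have h3 : (G q - s) * (Ring.inverse (G - s • (1 : C(Q, ℂ)))) q = 1 := by
    simpa using h2
  exact (eq_inv_of_mul_eq_one_right h3)

private theorem riem_inv_an {Q : Type} [TopologicalSpace Q] [CompactSpace Q] (G : C(Q, ℂ)) {s : ℂ} (h : ∀ q, G q ≠ s) :
    AnalyticAt ℂ (fun s : ℂ => Ring.inverse (G - s • (1 : C(Q, ℂ)))) s := by
  obtain ⟨u, hu⟩ := riem_unit G h
  have h1 : AnalyticAt ℂ (Ring.inverse : C(Q, ℂ) → C(Q, ℂ)) (G - s • (1 : C(Q, ℂ))) := by
    rw [← hu]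
    exact analyticAt_inverse u
  have h2 : AnalyticAt ℂ (fun s : ℂ => G - s • (1 : C(Q, ℂ))) s :=
    analyticAt_const.sub (analyticAt_id.smul analyticAt_const)
  exact AnalyticAt.fun_comp (g := (Ring.inverse : C(Q, ℂ) → C(Q, ℂ))) (f := fun s : ℂ => G - s • (1 : C(Q, ℂ))) h1 h2

theorem riem_ball {R r : ℝ} (hr : 0 < r) (hrR : r < R) {a : ℂ × ℂ → ℂ}
    (ha : ∀ p ∈ ball (0 : ℂ × ℂ) R, p.2 ≠ 0 → AnalyticAt ℂ a p) {C : ℝ} (hC : ∀ p ∈ ball (0 : ℂ × ℂ) R, p.2 ≠ 0 → ‖a p‖ ≤ C) :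
    ∃ g : ℂ × ℂ → ℂ, (∀ p ∈ ball (0 : ℂ × ℂ) r, AnalyticAt ℂ g p) ∧ ∀ p ∈ ball (0 : ℂ × ℂ) r, p.2 ≠ 0 → g p = a p := by
  have hmem : ∀ s t : ℂ, ‖s‖ ≤ r → ‖t‖ ≤ r → (s, t) ∈ ball (0 : ℂ × ℂ) R := by
    intro s t hs ht
    rw [mem_ball_zero_iff, Prod.norm_def]
    exact (max_le hs ht).trans_lt hrR
  have hγn : ∀ θ : ℝ, ‖circleMap 0 r θ‖ = r := by
    intro θ
    rw [norm_circleMap_zero, abs_of_pos hr]
  have hac : ContinuousOn a {p | p ∈ ball (0 : ℂ × ℂ) R ∧ p.2 ≠ 0} := fun p hp => (ha p hp.1 hp.2).continuousAt.continuousWithinAt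
  set γ : ℝ → ℂ := circleMap 0 r with hγ
  have hγ0 : ∀ θ, γ θ ≠ 0 := by
    intro θ h0
    have h1 := hγn θ
    rw [h0, norm_zero] at h1
    linarith
  have hγc : Continuous γ := continuous_circleMap 0 r
  set γ' : ℝ → ℂ := fun θ => γ θ * Complex.I with hγ'
  have hγ'c : Continuous γ' := hγc.mul continuous_const
  have hTc1 : Continuous fun q : RiemT × RiemT => γ (q.1 : ℝ) := hγc.comp (continuous_subtype_val.comp continuous_fst)
  have hTc2 : Continuous fun q : RiemT × RiemT => γ (q.2 : ℝ) := hγc.comp (continuous_subtype_val.comp continuous_snd)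
  have hWc : Continuous fun q : RiemT × RiemT => (2 * Real.pi * Complex.I)⁻¹ * (2 * Real.pi * Complex.I)⁻¹ *
      (γ' (q.1 : ℝ) * γ' (q.2 : ℝ)) * a (γ (q.1 : ℝ), γ (q.2 : ℝ)) := by
    refine (continuous_const.mul ((hγ'c.comp (continuous_subtype_val.comp continuous_fst)).mul
      (hγ'c.comp (continuous_subtype_val.comp continuous_snd)))).mul ?_
    refine hac.comp_continuous (hTc1.prodMk hTc2) fun q => ?_
    exact ⟨hmem _ _ (hγn _).le (hγn _).le, hγ0 _⟩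
  let W : C(RiemT × RiemT, ℂ) := ⟨_, hWc⟩
  let G1 : C(RiemT × RiemT, ℂ) := ⟨_, hTc1⟩
  let G2 : C(RiemT × RiemT, ℂ) := ⟨_, hTc2⟩
  have hG1 : ∀ s : ℂ, ‖s‖ < r → ∀ q, G1 q ≠ s := by
    intro s hs q hq
    have h1 : ‖G1 q‖ = r := hγn _
    rw [hq] at h1
    linarith
  have hG2 : ∀ s : ℂ, ‖s‖ < r → ∀ q, G2 q ≠ s := by
    intro s hs q hq
    have h1 : ‖G2 q‖ = r := hγn _
    rw [hq] at h1
    linarith
  let K1 : ℂ → C(RiemT × RiemT, ℂ) := fun s => Ring.inverse (G1 - s • (1 : C(RiemT × RiemT, ℂ)))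
  let K2 : ℂ → C(RiemT × RiemT, ℂ) := fun s => Ring.inverse (G2 - s • (1 : C(RiemT × RiemT, ℂ)))
  have hK1 : ∀ s : ℂ, ‖s‖ < r → AnalyticAt ℂ K1 s := fun s hs => riem_inv_an G1 (hG1 s hs)
  have hK2 : ∀ s : ℂ, ‖s‖ < r → AnalyticAt ℂ K2 s := fun s hs => riem_inv_an G2 (hG2 s hs)
  have key : ∀ s t : ℂ, ‖s‖ < r → ‖t‖ < r → t ≠ 0 → riemJ (W * K1 s * K2 t) = a (s, t) := by
    intro s t hs ht ht0
    have hin : ∀ u : ℂ, ‖u‖ ≤ r →
        ∫ φ in (0 : ℝ)..(2 * Real.pi), γ' φ * ((γ φ - t)⁻¹ * a (u, γ φ)) = (2 * Real.pi * Complex.I) * a (u, t) := by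
      intro u hu
      -- removable singularity at `0`
      have hR : 0 < R := hr.trans hrR
      have hd : DifferentiableOn ℂ (fun z => a (u, z)) (ball 0 R \ {0}) := by
        intro z hz
        have hz1 : ‖z‖ < R := by simpa using hz.1
        have h2 := (ha (u, z) (by
          rw [mem_ball_zero_iff, Prod.norm_def]
          exact max_lt (lt_of_le_of_lt hu hrR) hz1) hz.2).differentiableAt
        exact (h2.comp z ((differentiableAt_const u).prodMk differentiableAt_id)).differentiableWithinAt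
      have hb : BddAbove (norm ∘ (fun z => a (u, z)) '' (ball 0 R \ {0})) := by
        refine ⟨C, ?_⟩
        rintro _ ⟨z, hz, rfl⟩
        have hz1 : ‖z‖ < R := by simpa using hz.1
        exact hC (u, z) (by
          rw [mem_ball_zero_iff, Prod.norm_def]
          exact max_lt (lt_of_le_of_lt hu hrR) hz1) hz.2
      have h1 := Complex.differentiableOn_update_limUnder_of_bddAbove (ball_mem_nhds (0 : ℂ) hR) hd hb
      set f := Function.update (fun z => a (u, z)) 0 (limUnder (𝓝[≠] (0 : ℂ)) fun z => a (u, z)) with hf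
      have hfa : ∀ z, z ≠ 0 → f z = a (u, z) := fun z hz => by rw [hf, Function.update_of_ne hz]
      have h2 : DifferentiableOn ℂ f (closedBall 0 r) := h1.mono (closedBall_subset_ball hrR)
      have h3 := h2.circleIntegral_sub_inv_smul (w := t) (by simpa using ht)
      rw [circleIntegral, hfa t ht0] at h3
      rw [← smul_eq_mul (2 * Real.pi * Complex.I), ← h3]
      apply intervalIntegral.integral_congr
      intro φ _
      simp only [deriv_circleMap, smul_eq_mul]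
      rw [hfa _ (hγ0 φ)]
    have hout : ∫ θ in (0 : ℝ)..(2 * Real.pi), γ' θ * ((γ θ - s)⁻¹ * a (γ θ, t)) =
        (2 * Real.pi * Complex.I) * a (s, t) := by
      have h1 : DifferentiableOn ℂ (fun z => a (z, t)) (closedBall 0 r) := by
        intro z hz
        have h2 := (ha (z, t) (hmem z t (by simpa using hz) ht.le) ht0).differentiableAt
        exact (h2.comp z (differentiableAt_id.prodMk (differentiableAt_const t))).differentiableWithinAt
      have h3 := h1.circleIntegral_sub_inv_smul (w := s) (by simpa using hs)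
      rw [circleIntegral] at h3
      simpa only [deriv_circleMap, smul_eq_mul] using h3
    have hpi : (2 * Real.pi * Complex.I : ℂ) ≠ 0 := Complex.two_pi_I_ne_zero
    rw [riemJ_apply]
    have e1 : ∀ θ ∈ Set.uIcc (0 : ℝ) (2 * Real.pi),
        (∫ φ in (0 : ℝ)..(2 * Real.pi), (W * K1 s * K2 t) (riemP θ, riemP φ)) =
        (2 * Real.pi * Complex.I)⁻¹ * (γ' θ * ((γ θ - s)⁻¹ * a (γ θ, t))) := by
      intro θ hθ
      have e2 : (∫ φ in (0 : ℝ)..(2 * Real.pi), (W * K1 s * K2 t) (riemP θ, riemP φ)) =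
          ∫ φ in (0 : ℝ)..(2 * Real.pi), ((2 * Real.pi * Complex.I)⁻¹ * (2 * Real.pi * Complex.I)⁻¹ *
            (γ' θ * (γ θ - s)⁻¹)) * (γ' φ * ((γ φ - t)⁻¹ * a (γ θ, γ φ))) := by
        apply intervalIntegral.integral_congr
        intro φ hφ
        have e3 : (W * K1 s * K2 t) (riemP θ, riemP φ) =
            W (riemP θ, riemP φ) * (K1 s (riemP θ, riemP φ)) * (K2 t (riemP θ, riemP φ)) := rfl
        have e4 : K1 s (riemP θ, riemP φ) = (γ θ - s)⁻¹ := by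
          have h1 := riem_inv_apply G1 (hG1 s hs) (riemP θ, riemP φ)
          have h2 : G1 (riemP θ, riemP φ) = γ θ := by
            change γ ((riemP θ : RiemT) : ℝ) = γ θ
            rw [riemP_of_mem hθ]
          rw [h2] at h1
          exact h1
        have e5 : K2 t (riemP θ, riemP φ) = (γ φ - t)⁻¹ := by
          have h1 := riem_inv_apply G2 (hG2 t ht) (riemP θ, riemP φ)
          have h2 : G2 (riemP θ, riemP φ) = γ φ := by
            change γ ((riemP φ : RiemT) : ℝ) = γ φ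
            rw [riemP_of_mem hφ]
          rw [h2] at h1
          exact h1
        have e6 : W (riemP θ, riemP φ) = (2 * Real.pi * Complex.I)⁻¹ * (2 * Real.pi * Complex.I)⁻¹ *
            (γ' θ * γ' φ) * a (γ θ, γ φ) := by
          change (2 * Real.pi * Complex.I)⁻¹ * (2 * Real.pi * Complex.I)⁻¹ *
            (γ' ((riemP θ : RiemT) : ℝ) * γ' ((riemP φ : RiemT) : ℝ)) *
              a (γ ((riemP θ : RiemT) : ℝ), γ ((riemP φ : RiemT) : ℝ)) = _
          rw [riemP_of_mem hθ, riemP_of_mem hφ]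
        simp only [e3, e4, e5, e6]
        ring
      rw [e2, intervalIntegral.integral_const_mul, hin _ (hγn θ).le]
      field_simp
    rw [intervalIntegral.integral_congr e1, intervalIntegral.integral_const_mul, hout]
    field_simp
  refine ⟨fun p => riemJ (W * K1 p.1 * K2 p.2), ?_, ?_⟩
  · intro p hp
    rw [mem_ball_zero_iff, Prod.norm_def, max_lt_iff] at hp
    have h1 : AnalyticAt ℂ (fun p : ℂ × ℂ => K1 p.1) p := (hK1 p.1 hp.1).comp analyticAt_fst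
    have h2 : AnalyticAt ℂ (fun p : ℂ × ℂ => K2 p.2) p := (hK2 p.2 hp.2).comp analyticAt_snd
    exact (riemJ.analyticAt _).comp ((analyticAt_const.mul h1).mul h2)
  · intro p hp hp0
    rw [mem_ball_zero_iff, Prod.norm_def, max_lt_iff] at hp
    exact key p.1 p.2 hp.1 hp.2 hp0

/-- bounded analytic functions extend over the axis `p.2 = 0` -/
theorem riem_ext {a : ℂ × ℂ → ℂ} (ha : ∀ᶠ p in 𝓝 (0 : ℂ × ℂ), p.2 ≠ 0 → AnalyticAt ℂ a p) {C : ℝ}
    (hC : ∀ᶠ p in 𝓝 (0 : ℂ × ℂ), p.2 ≠ 0 → ‖a p‖ ≤ C) :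
    ∃ g : ℂ × ℂ → ℂ, AnalyticAt ℂ g 0 ∧ ∀ᶠ p in 𝓝 (0 : ℂ × ℂ), p.2 ≠ 0 → g p = a p := by
  obtain ⟨R, hR, h⟩ := Metric.eventually_nhds_iff_ball.1 (ha.and hC)
  obtain ⟨g, hg1, hg2⟩ := riem_ball (r := R / 2) (by positivity) (by linarith) (fun p hp => (h p hp).1) (fun p hp => (h p hp).2)
  refine ⟨g, hg1 0 (mem_ball_self (by positivity)), ?_⟩
  filter_upwards [ball_mem_nhds (0 : ℂ × ℂ) (by positivity : 0 < R / 2)] with p hp
  exact hg2 p hp

end Pool.Agent.H6.LU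

end

section

/-!
# LU Defs: the abstract dynamical situation over `ℂ^*` (project LOG-U)

`u = exp z`, `z ∈ ℂ`.  `S Ω` is a family of maps `Ω \ B → Y` (maps `ℂ → Y` whose values outside `Ω` and on `B` do not matter): limits of holomorphic sections over
(neighbourhoods of compact subsets of) `Ω`.  `B` is a discrete set (bad values), contained in the strip `|Re z| < W`, invariant under `z ↦ z + i p`.  Everything is
invariant under the translation by `i p` (`p = 2 π m`).  `II z y y'` is the integral of `alpha / dz` from `y` to `y'` along a short path in the fibre over `z`;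
`Zr z y`: the form vanishes at the point `y` of the fibre over `z`.  Nothing is said about the ends `|Re z| > W` except in `J`: the function `J` exists on balls.
-/

set_option autoImplicit false

open Topology Filter Metric

namespace Pool.Agent.H87.LU

attribute [-instance] ProperSMul.toContinuousSMul

/-- the points of distance at least `δ` from `B` -/
def Gd (B : Set ℂ) (δ : ℝ) : Set ℂ := {z | ∀ b ∈ B, δ ≤ ‖z - b‖}

/-- the half plane `{ρ < σ Im z}`, `σ = ±1` -/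
def HP (σ ρ : ℝ) : Set ℂ := {z | ρ < σ * z.im}

/-- the domain translated by `- i p l` -/
def Sh (p : ℝ) (l : ℤ) (Ω : Set ℂ) : Set ℂ := {z | z + p * l * Complex.I ∈ Ω}

/-- The abstract situation.  All domains are open and convex. -/
structure UDyn {Y : Type} [MetricSpace Y] (K : Set Y) (p : ℝ) (B : Set ℂ) (δ W : ℝ) (S : Set ℂ → Set (ℂ → Y))
    (Zr : ℂ → Y → Prop) (II : ℂ → Y → Y → ℂ) : Prop where
  compact : IsCompact K
  p_pos : 0 < p
  δ_pos : 0 < δ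
  W_pos : 0 < W
  B_inv : ∀ b ∈ B, ∀ l : ℤ, b + p * l * Complex.I ∈ B
  B_sep : ∀ b ∈ B, ∀ b' ∈ B, b ≠ b' → 8 * δ ≤ ‖b - b'‖
  B_re : ∀ b ∈ B, |b.re| + 4 * δ ≤ W
  anti : ∀ Ω Ω' : Set ℂ, IsOpen Ω → Convex ℝ Ω → IsOpen Ω' → Convex ℝ Ω' → Ω' ⊆ Ω → S Ω ⊆ S Ω'
  mem : ∀ Ω : Set ℂ, IsOpen Ω → Convex ℝ Ω → ∀ f ∈ S Ω, ∀ z ∈ Ω, z ∉ B → f z ∈ K
  lip : ∀ δ' R : ℝ, 0 < δ' → ∃ L : ℝ, 0 < L ∧ ∀ Ω : Set ℂ, IsOpen Ω → Convex ℝ Ω → ∀ f ∈ S Ω, ∀ z ∈ Gd B δ', |z.re| ≤ R → closedBall z δ' ⊆ Ω →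
    ∀ w ∈ closedBall z (δ' / 2), dist (f z) (f w) ≤ L * ‖z - w‖
  trans : ∀ Ω : Set ℂ, IsOpen Ω → Convex ℝ Ω → ∀ f ∈ S Ω, ∀ l : ℤ, (fun z => f (z + p * l * Complex.I)) ∈ S (Sh p l Ω)
  lim : ∀ (𝒰 : Ultrafilter ℕ) (Ω : ℕ → Set ℂ) (F : ℕ → ℂ → Y) (f : ℂ → Y), (∀ n, IsOpen (Ω n) ∧ Convex ℝ (Ω n)) →
    (∀ R : ℝ, ∀ᶠ n in (𝒰 : Filter ℕ), ball 0 R ⊆ Ω n) → (∀ᶠ n in (𝒰 : Filter ℕ), F n ∈ S (Ω n)) →
    (∀ z, z ∉ B → Tendsto (fun n => F n z) 𝒰 (𝓝 (f z))) → f ∈ S Set.univ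
  uniq : ∀ Ω : Set ℂ, IsOpen Ω → Convex ℝ Ω → ∀ f ∈ S Ω, ∀ g ∈ S Ω, ∀ z₀ ∈ Ω, z₀ ∉ B → (∃ᶠ z in 𝓝[≠] z₀, f z = g z) → ∀ z ∈ Ω, z ∉ B → f z = g z
  Z_inv : ∀ z y, Zr (z + p * Complex.I) y ↔ Zr z y
  Z_lim : ∀ (𝒰 : Ultrafilter ℕ) (Ω : ℕ → Set ℂ) (F : ℕ → ℂ → Y), ∀ f ∈ S Set.univ, (∀ n, IsOpen (Ω n) ∧ Convex ℝ (Ω n)) →
    (∀ R : ℝ, ∀ᶠ n in (𝒰 : Filter ℕ), ball 0 R ⊆ Ω n) → (∀ᶠ n in (𝒰 : Filter ℕ), F n ∈ S (Ω n)) →
    (∀ z, z ∉ B → Tendsto (fun n => F n z) 𝒰 (𝓝 (f z))) → ∀ z ∈ Gd B (2 * δ), |z.re| ≤ W → (∀ᶠ n in (𝒰 : Filter ℕ), Zr z (F n z)) → Zr z (f z)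
  II_inv : ∀ z y y', II (z + p * Complex.I) y y' = II z y y'
  near : ∀ (𝒰 : Ultrafilter ℕ) (Ω : ℕ → Set ℂ) (F G : ℕ → ℂ → Y) (w : ℕ → ℂ), ∀ f ∈ S Set.univ, (∀ n, IsOpen (Ω n) ∧ Convex ℝ (Ω n)) →
    (∀ R : ℝ, ∀ᶠ n in (𝒰 : Filter ℕ), ball 0 R ⊆ Ω n) → (∀ᶠ n in (𝒰 : Filter ℕ), F n ∈ S (Ω n) ∧ G n ∈ S (Ω n)) →
    (∀ z, z ∉ B → Tendsto (fun n => F n z) 𝒰 (𝓝 (f z))) → (∀ z, z ∉ B → Tendsto (fun n => G n z) 𝒰 (𝓝 (f z))) →
    ∀ z ∈ Gd B (2 * δ), |z.re| ≤ W → Tendsto w 𝒰 (𝓝 z) →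
    (∀ᶠ n in (𝒰 : Filter ℕ), w n ∈ Gd B (2 * δ) ∧ |(w n).re| ≤ W ∧ F n (w n) ≠ G n (w n) ∧ II (w n) (F n (w n)) (G n (w n)) = 0) → Zr z (f z)
  iso : ∀ e ∈ S Set.univ, (∀ z ∈ Gd B (2 * δ), |z.re| ≤ W → Zr z (e z)) → ∃ (z₀ : ℂ) (r ε : ℝ), 0 < r ∧ 0 < ε ∧
    ball z₀ r ⊆ Gd B (2 * δ) ∩ {z | |z.re| ≤ W} ∧
    ∀ Ω : Set ℂ, IsOpen Ω → Convex ℝ Ω → ball z₀ r ⊆ Ω → ∀ g ∈ S Ω, ∀ z ∈ ball z₀ r, dist (g z) (e z) < ε → (II z (e z) (g z) = 0 ∨ Zr z (g z)) → g z = e z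
  J : ∃ (ε₀ r₁ C : ℝ) (k : ℕ) (a : ℂ), 0 < ε₀ ∧ 0 < r₁ ∧ 0 ≤ C ∧ ∀ (c : ℂ) (R : ℝ), c.re = 0 → r₁ < R → ∀ f ∈ S (ball c R), ∀ g ∈ S (ball c R),
    (∀ z ∈ ball c R, z ∈ Gd B δ → |z.re| ≤ W → dist (f z) (g z) ≤ ε₀) →
    ∃ J : ℂ → ℂ, DifferentiableOn ℂ J (ball c (R - r₁)) ∧ (∀ z ∈ ball c (R - r₁), ‖J z‖ ≤ C * (1 + R) ^ k) ∧
      (∀ z ∈ ball c (R - r₁), z ∈ Gd B (2 * δ) → |z.re| < W → J z = II z (f z) (g z)) ∧
      ∀ l : ℤ, a + p * l * Complex.I ∈ ball c (R - r₁) → J (a + p * l * Complex.I) = 0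

variable {Y : Type} [MetricSpace Y] {K : Set Y} {p : ℝ} {B : Set ℂ} {δ W : ℝ} {S : Set ℂ → Set (ℂ → Y)}
    {Zr : ℂ → Y → Prop} {II : ℂ → Y → Y → ℂ}

/-- the members of `S` over `ℂ` inside `Zr` -/
def ZS {Y : Type} (B : Set ℂ) (δ W : ℝ) (S : Set ℂ → Set (ℂ → Y)) (Zr : ℂ → Y → Prop) : Set (ℂ → Y) :=
  {e | e ∈ S Set.univ ∧ ∀ z ∈ Gd B (2 * δ), |z.re| ≤ W → Zr z (e z)}

/-- the two maps agree on `Ω \ B` -/
def AgO {Y : Type} (B Ω : Set ℂ) (f g : ℂ → Y) : Prop := ∀ z ∈ Ω, z ∉ B → f z = g z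

end Pool.Agent.H87.LU

end

section

/-!
# LU Lim: the sets `Gd`, limits (port of EL DyA, DyL)
-/

set_option autoImplicit false

open Topology Filter Metric

namespace Pool.Agent.H87.LU

attribute [-instance] ProperSMul.toContinuousSMul

variable {Y : Type} [MetricSpace Y] {K : Set Y} {p : ℝ} {B : Set ℂ} {δ W : ℝ} {S : Set ℂ → Set (ℂ → Y)}
    {Zr : ℂ → Y → Prop} {II : ℂ → Y → Y → ℂ}

theorem gd_mono {δ₁ δ₂ : ℝ} (h : δ₁ ≤ δ₂) : Gd B δ₂ ⊆ Gd B δ₁ :=
  fun _ hz b hb => h.trans (hz b hb)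

theorem gd_notMem {δ' : ℝ} (h : 0 < δ') {z : ℂ} (hz : z ∈ Gd B δ') : z ∉ B := by
  intro hzB
  have h1 := hz z hzB
  rw [sub_self, norm_zero] at h1
  linarith

theorem isClosed_gd (δ' : ℝ) : IsClosed (Gd B δ') := by
  have h1 : Gd B δ' = ⋂ b ∈ B, {z : ℂ | δ' ≤ ‖z - b‖} := by
    ext z
    simp only [Set.mem_iInter]
    exact Iff.rfl
  rw [h1]
  refine isClosed_biInter fun b _ => ?_
  exact isClosed_le continuous_const (continuous_id.sub continuous_const).norm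

theorem UDyn.mem_add (h : UDyn K p B δ W S Zr II) {b : ℂ} (l : ℤ) : b + p * l * Complex.I ∈ B ↔ b ∈ B := by
  constructor
  · intro hb
    have h1 := h.B_inv _ hb (-l)
    have h2 : b + p * l * Complex.I + p * ((-l : ℤ) : ℂ) * Complex.I = b := by
      push_cast
      ring
    rwa [h2] at h1
  · exact fun hb => h.B_inv b hb l

theorem UDyn.gd_add (h : UDyn K p B δ W S Zr II) (δ' : ℝ) {z : ℂ} (l : ℤ) : z + p * l * Complex.I ∈ Gd B δ' ↔ z ∈ Gd B δ' := by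
  constructor
  · intro hz b hb
    have h1 := hz (b + p * l * Complex.I) (h.B_inv b hb l)
    rwa [add_sub_add_right_eq_sub] at h1
  · intro hz b hb
    have h1 := hz (b + p * ((-l : ℤ) : ℂ) * Complex.I) (h.B_inv b hb (-l))
    have h2 : z - (b + p * ((-l : ℤ) : ℂ) * Complex.I) = z + p * l * Complex.I - b := by
      push_cast
      ring
    rwa [h2] at h1

theorem add_re (p : ℝ) (l : ℤ) (z : ℂ) : (z + p * l * Complex.I).re = z.re := by simp

theorem add_im (p : ℝ) (l : ℤ) (z : ℂ) : (z + p * l * Complex.I).im = z.im + p * l := by simp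

/-- the other bad points are far away -/
theorem UDyn.far (h : UDyn K p B δ W S Zr II) {z b b' : ℂ} {r : ℝ} (hb : b ∈ B) (hb' : b' ∈ B) (hne : b' ≠ b) (hr : ‖z - b‖ < r) :
    8 * δ - r < ‖z - b'‖ := by
  have h1 := h.B_sep b' hb' b hb hne
  have h2 : b' - b = (z - b) - (z - b') := by ring
  rw [h2] at h1
  have h3 := norm_sub_le (z - b) (z - b')
  linarith

theorem UDyn.exists_gd (h : UDyn K p B δ W S Zr II) {z : ℂ} (hz : z ∉ B) : ∃ δ' : ℝ, 0 < δ' ∧ z ∈ Gd B δ' := by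
  have hδ := h.δ_pos
  by_cases h1 : ∃ b ∈ B, ‖z - b‖ < 2 * δ
  · obtain ⟨b, hb, hb2⟩ := h1
    have hpos : 0 < ‖z - b‖ := by
      rw [norm_pos_iff, sub_ne_zero]
      rintro rfl
      exact hz hb
    refine ⟨min (2 * δ) ‖z - b‖, lt_min (by linarith) hpos, ?_⟩
    intro b' hb'
    by_cases hbb : b' = b
    · rw [hbb]
      exact min_le_right _ _
    · have h2 := h.far hb hb' hbb hb2
      exact (min_le_left _ _).trans (by linarith)
  · push Not at h1
    exact ⟨2 * δ, by linarith, h1⟩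

/-- a point in the strip is an accumulation point of the good points in the strip -/
theorem UDyn.perfect (h : UDyn K p B δ W S Zr II) {z : ℂ} (hz : z ∈ Gd B (2 * δ)) (hzW : |z.re| ≤ W) :
    ∃ᶠ w in 𝓝[≠] z, w ∈ Gd B (2 * δ) ∧ |w.re| < W := by
  have hδ := h.δ_pos
  by_cases h1 : ∃ b ∈ B, ‖z - b‖ < 3 * δ
  · obtain ⟨b, hb, hb3⟩ := h1
    have hzb : z ≠ b := by
      rintro rfl
      exact gd_notMem (by linarith) hz hb
    have hzb' : z - b ≠ 0 := sub_ne_zero.2 hzb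
    have htend : Tendsto (fun s : ℝ => z + (s : ℂ) * (z - b)) (𝓝[>] 0) (𝓝[≠] z) := by
      refine tendsto_nhdsWithin_iff.2 ⟨?_, ?_⟩
      · have hc : Continuous (fun s : ℝ => z + (s : ℂ) * (z - b)) := by fun_prop
        have h2 := hc.tendsto 0
        simp only [Complex.ofReal_zero, zero_mul, add_zero] at h2
        exact h2.mono_left nhdsWithin_le_nhds
      · filter_upwards [self_mem_nhdsWithin] with s hs
        have hs' : (0 : ℝ) < s := hs
        show z + (s : ℂ) * (z - b) ≠ z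
        intro heq
        have h3 : (s : ℂ) * (z - b) = 0 := by
          rwa [add_eq_left] at heq
        rcases mul_eq_zero.1 h3 with h4 | h4
        · exact hs'.ne' (Complex.ofReal_eq_zero.1 h4)
        · exact hzb' h4
    refine htend.frequently (Eventually.frequently ?_)
    have h5 : ∀ᶠ s : ℝ in 𝓝[>] 0, s < 1 / 4 := nhdsWithin_le_nhds (Iio_mem_nhds (by norm_num))
    filter_upwards [self_mem_nhdsWithin, h5] with s hs hs1
    have hs' : (0 : ℝ) < s := hs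
    have hnorm : ‖(s : ℂ) * (z - b)‖ = s * ‖z - b‖ := by
      rw [norm_mul, Complex.norm_real, Real.norm_of_nonneg hs'.le]
    refine ⟨?_, ?_⟩
    · intro b' hb'
      by_cases hbb : b' = b
      · rw [hbb]
        have h6 : z + (s : ℂ) * (z - b) - b = ((1 + s : ℝ) : ℂ) * (z - b) := by
          push_cast
          ring
        rw [h6, norm_mul, Complex.norm_real, Real.norm_of_nonneg (by linarith)]
        have h7 := hz b hb
        nlinarith [norm_nonneg (z - b)]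
      · have h6 := h.far hb hb' hbb hb3
        have h7 : z - b' = (z + (s : ℂ) * (z - b) - b') - (s : ℂ) * (z - b) := by ring
        rw [h7] at h6
        have h8 := norm_sub_le (z + (s : ℂ) * (z - b) - b') ((s : ℂ) * (z - b))
        rw [hnorm] at h8
        have h9 : s * ‖z - b‖ ≤ 1 * (3 * δ) :=
          mul_le_mul (by linarith) hb3.le (norm_nonneg _) zero_le_one
        linarith
    · have h6 : (z + (s : ℂ) * (z - b)).re = b.re + (1 + s) * (z - b).re := by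
        simp
        ring
      have h7 : |(z - b).re| ≤ 3 * δ := (Complex.abs_re_le_norm _).trans hb3.le
      rw [h6]
      have h8 := h.B_re b hb
      calc |b.re + (1 + s) * (z - b).re| ≤ |b.re| + |(1 + s) * (z - b).re| := abs_add_le _ _
        _ = |b.re| + (1 + s) * |(z - b).re| := by rw [abs_mul, abs_of_pos (by linarith : (0 : ℝ) < 1 + s)]
        _ ≤ |b.re| + (1 + 1 / 4) * (3 * δ) := by
          have : (1 + s) * |(z - b).re| ≤ (1 + 1 / 4) * (3 * δ) := mul_le_mul (by linarith) h7 (abs_nonneg _) (by norm_num)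
          linarith
        _ < W := by linarith
  · push Not at h1
    have hW := h.W_pos
    -- move towards the imaginary axis
    obtain ⟨e, he⟩ : ∃ e : ℝ, (e = 1 ∨ e = -1) ∧ ∀ s : ℝ, 0 < s → s < W → |z.re + e * s| < W := by
      rcases le_total 0 z.re with h2 | h2
      · refine ⟨-1, Or.inr rfl, fun s hs hsW => ?_⟩
        rw [abs_of_nonneg h2] at hzW
        rw [abs_lt]
        constructor <;> linarith
      · refine ⟨1, Or.inl rfl, fun s hs hsW => ?_⟩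
        rw [abs_of_nonpos h2] at hzW
        rw [abs_lt]
        constructor <;> linarith
    have hen : ‖(e : ℂ)‖ = 1 := by
      rcases he.1 with h2 | h2 <;> simp [h2]
    have htend : Tendsto (fun s : ℝ => z + (e : ℂ) * (s : ℂ)) (𝓝[>] 0) (𝓝[≠] z) := by
      refine tendsto_nhdsWithin_iff.2 ⟨?_, ?_⟩
      · have hc : Continuous (fun s : ℝ => z + (e : ℂ) * (s : ℂ)) := by fun_prop
        have h2 := hc.tendsto 0
        simp only [Complex.ofReal_zero, mul_zero, add_zero] at h2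
        exact h2.mono_left nhdsWithin_le_nhds
      · filter_upwards [self_mem_nhdsWithin] with s hs
        have hs' : (0 : ℝ) < s := hs
        show z + (e : ℂ) * (s : ℂ) ≠ z
        intro heq
        have h3 : (e : ℂ) * (s : ℂ) = 0 := by
          rwa [add_eq_left] at heq
        rcases mul_eq_zero.1 h3 with h4 | h4
        · rw [h4, norm_zero] at hen
          exact one_ne_zero hen.symm
        · exact hs'.ne' (Complex.ofReal_eq_zero.1 h4)
    refine htend.frequently (Eventually.frequently ?_)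
    have h5 : ∀ᶠ s : ℝ in 𝓝[>] 0, s < min δ W := nhdsWithin_le_nhds (Iio_mem_nhds (lt_min hδ hW))
    filter_upwards [self_mem_nhdsWithin, h5] with s hs hs1
    have hs' : (0 : ℝ) < s := hs
    refine ⟨?_, ?_⟩
    · intro b hb
      have h2 := h1 b hb
      have h3 : z - b = (z + (e : ℂ) * (s : ℂ) - b) - (e : ℂ) * (s : ℂ) := by ring
      rw [h3] at h2
      have h4 := norm_sub_le (z + (e : ℂ) * (s : ℂ) - b) ((e : ℂ) * (s : ℂ))
      rw [norm_mul, hen, one_mul, Complex.norm_real, Real.norm_of_nonneg hs'.le] at h4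
      have h5 := hs1.trans_le (min_le_left _ _)
      linarith
    · have h6 : (z + (e : ℂ) * (s : ℂ)).re = z.re + e * s := by simp
      rw [h6]
      exact he.2 s hs' (hs1.trans_le (min_le_right _ _))

/-- a point to the right of all bad points -/
theorem UDyn.right_mem (h : UDyn K p B δ W S Zr II) {z : ℂ} (hz : W - 2 * δ ≤ z.re) : z ∈ Gd B (2 * δ) := by
  intro b hb
  have h1 := h.B_re b hb
  have h2 : |(z - b).re| ≤ ‖z - b‖ := Complex.abs_re_le_norm _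
  have h3 : (z - b).re = z.re - b.re := Complex.sub_re _ _
  have h4 := le_abs_self (z - b).re
  have h5 := le_abs_self b.re
  linarith

/-! ## limits -/

theorem UDyn.exists_lim (h : UDyn K p B δ W S Zr II) (𝒰 : Ultrafilter ℕ) {Ω : ℕ → Set ℂ} (F : ℕ → ℂ → Y) (hΩ : ∀ n, IsOpen (Ω n) ∧ Convex ℝ (Ω n))
    (hex : ∀ R : ℝ, ∀ᶠ n in (𝒰 : Filter ℕ), ball 0 R ⊆ Ω n) (hF : ∀ᶠ n in (𝒰 : Filter ℕ), F n ∈ S (Ω n)) :
    ∃ f ∈ S Set.univ, ∀ z, z ∉ B → Tendsto (fun n => F n z) 𝒰 (𝓝 (f z)) := by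
  have key : ∀ z, ∃ y : Y, z ∉ B → Tendsto (fun n => F n z) 𝒰 (𝓝 y) := by
    intro z
    by_cases hz : z ∈ B
    · exact ⟨F 0 z, fun h' => absurd hz h'⟩
    · have h1 : ((𝒰.map fun n => F n z : Ultrafilter Y) : Filter Y) ≤ 𝓟 K := by
        rw [Filter.le_principal_iff]
        show ∀ᶠ n in (𝒰 : Filter ℕ), F n z ∈ K
        filter_upwards [hF, hex (‖z‖ + 1)] with n hn hn2
        exact h.mem _ (hΩ n).1 (hΩ n).2 _ hn z (hn2 (by rw [mem_ball_zero_iff]; linarith)) hz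
      obtain ⟨y, _, hy⟩ := h.compact.ultrafilter_le_nhds _ h1
      exact ⟨y, fun _ => hy⟩
  choose f hf using key
  exact ⟨f, h.lim 𝒰 Ω F f hΩ hex hF hf, hf⟩

theorem UDyn.unif (h : UDyn K p B δ W S Zr II) (𝒰 : Ultrafilter ℕ) {Ω : ℕ → Set ℂ} (F : ℕ → ℂ → Y) (hΩ : ∀ n, IsOpen (Ω n) ∧ Convex ℝ (Ω n))
    (hex : ∀ R : ℝ, ∀ᶠ n in (𝒰 : Filter ℕ), ball 0 R ⊆ Ω n) (hF : ∀ᶠ n in (𝒰 : Filter ℕ), F n ∈ S (Ω n))
    {f : ℂ → Y} (hfS : f ∈ S Set.univ) (hf : ∀ z, z ∉ B → Tendsto (fun n => F n z) 𝒰 (𝓝 (f z))) {δ' : ℝ} (hδ' : 0 < δ') (R ε : ℝ)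
    (hε : 0 < ε) : ∀ᶠ n in (𝒰 : Filter ℕ), ∀ z ∈ Gd B δ', ‖z‖ ≤ R → dist (F n z) (f z) < ε := by
  obtain ⟨L, hL, hlip⟩ := h.lip δ' R hδ'
  have hcpt : IsCompact (Gd B δ' ∩ closedBall (0 : ℂ) R) := (isCompact_closedBall 0 R).inter_left (isClosed_gd δ')
  obtain ⟨s, hs⟩ : ∃ s : ℝ, s = min (δ' / 2) (ε / (4 * L)) := ⟨_, rfl⟩
  have hs0 : 0 < s := by
    rw [hs]
    exact lt_min (by positivity) (by positivity)
  have hs1 : s ≤ δ' / 2 := by rw [hs]; exact min_le_left _ _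
  have hs2 : L * s ≤ ε / 4 := by
    have h1 : s ≤ ε / (4 * L) := by rw [hs]; exact min_le_right _ _
    calc L * s ≤ L * (ε / (4 * L)) := mul_le_mul_of_nonneg_left h1 hL.le
      _ = ε / 4 := by field_simp
  obtain ⟨t, htC, htf, hcov⟩ := hcpt.finite_cover_balls hs0
  have hev : ∀ᶠ n in (𝒰 : Filter ℕ), ∀ x ∈ t, dist (F n x) (f x) < ε / 4 := by
    rw [Filter.eventually_all_finite htf]
    intro x hx
    have h1 := hf x (gd_notMem hδ' (htC hx).1)
    exact (tendsto_iff_dist_tendsto_zero.mp h1).eventually_lt_const (by positivity)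
  filter_upwards [hF, hev, hex (R + δ' + 1)] with n hn hn2 hn3 z hz hzR
  have hzC : z ∈ Gd B δ' ∩ closedBall (0 : ℂ) R := ⟨hz, by rwa [mem_closedBall, dist_zero_right]⟩
  obtain ⟨x, hx, hzx⟩ := Set.mem_iUnion₂.mp (hcov hzC)
  have hxz : ‖x - z‖ < s := by
    rw [mem_ball, dist_comm, dist_eq_norm] at hzx
    exact hzx
  have hzx' : z ∈ closedBall x (δ' / 2) := by
    rw [mem_closedBall, dist_comm, dist_eq_norm]
    linarith
  have hxR : ‖x‖ ≤ R := by
    have := (htC hx).2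
    rwa [mem_closedBall, dist_zero_right] at this
  have hxre : |x.re| ≤ R := (Complex.abs_re_le_norm x).trans hxR
  have hxb : closedBall x δ' ⊆ ball 0 (R + δ' + 1) := by
    intro w hw
    rw [mem_closedBall, dist_eq_norm] at hw
    rw [mem_ball_zero_iff]
    have h4 : w = (w - x) + x := by ring
    calc ‖w‖ = ‖(w - x) + x‖ := by rw [← h4]
      _ ≤ ‖w - x‖ + ‖x‖ := norm_add_le _ _
      _ < R + δ' + 1 := by linarith
  have h1 := hlip (Ω n) (hΩ n).1 (hΩ n).2 (F n) hn x (htC hx).1 hxre (hxb.trans hn3) z hzx'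
  have h2 := hlip Set.univ isOpen_univ convex_univ f hfS x (htC hx).1 hxre (Set.subset_univ _) z hzx'
  have h3 := hn2 x hx
  have h4 : L * ‖x - z‖ ≤ ε / 4 := (mul_le_mul_of_nonneg_left hxz.le hL.le).trans hs2
  have h5 := dist_triangle4 (F n z) (F n x) (f x) (f z)
  rw [dist_comm (F n z) (F n x)] at h5
  linarith

theorem UDyn.tendsto_along (h : UDyn K p B δ W S Zr II) (𝒰 : Ultrafilter ℕ) {Ω : ℕ → Set ℂ} (F : ℕ → ℂ → Y)
    (hΩ : ∀ n, IsOpen (Ω n) ∧ Convex ℝ (Ω n)) (hex : ∀ R : ℝ, ∀ᶠ n in (𝒰 : Filter ℕ), ball 0 R ⊆ Ω n) (hF : ∀ᶠ n in (𝒰 : Filter ℕ), F n ∈ S (Ω n))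
    {f : ℂ → Y} (hf : ∀ z, z ∉ B → Tendsto (fun n => F n z) 𝒰 (𝓝 (f z))) {w : ℕ → ℂ} {z : ℂ} (hz : z ∉ B)
    (hw : Tendsto w 𝒰 (𝓝 z)) : Tendsto (fun n => F n (w n)) 𝒰 (𝓝 (f z)) := by
  obtain ⟨δ', hδ', hzδ⟩ := h.exists_gd hz
  obtain ⟨L, hL, hlip⟩ := h.lip δ' |z.re| hδ'
  rw [tendsto_iff_dist_tendsto_zero]
  have h1 : Tendsto (fun n => L * dist z (w n) + dist (F n z) (f z)) 𝒰 (𝓝 (L * 0 + 0)) := by
    refine Tendsto.add (Tendsto.const_mul L ?_) (tendsto_iff_dist_tendsto_zero.mp (hf z hz))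
    have h2 := tendsto_iff_dist_tendsto_zero.mp hw
    simp only [dist_comm z]
    exact h2
  rw [mul_zero, add_zero] at h1
  refine squeeze_zero' (Eventually.of_forall fun _ => dist_nonneg) ?_ h1
  have h2 : ∀ᶠ n in (𝒰 : Filter ℕ), w n ∈ closedBall z (δ' / 2) :=
    hw.eventually (closedBall_mem_nhds z (by positivity))
  filter_upwards [hF, h2, hex (‖z‖ + δ' + 1)] with n hn hn2 hn3
  have hzb : closedBall z δ' ⊆ ball 0 (‖z‖ + δ' + 1) := by
    intro w hw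
    rw [mem_closedBall, dist_eq_norm] at hw
    rw [mem_ball_zero_iff]
    have h4 : w = (w - z) + z := by ring
    calc ‖w‖ = ‖(w - z) + z‖ := by rw [← h4]
      _ ≤ ‖w - z‖ + ‖z‖ := norm_add_le _ _
      _ < ‖z‖ + δ' + 1 := by linarith
  have h3 := hlip (Ω n) (hΩ n).1 (hΩ n).2 (F n) hn z hzδ le_rfl (hzb.trans hn3) (w n) hn2
  rw [← dist_eq_norm] at h3
  have h4 := dist_triangle_left (F n (w n)) (f z) (F n z)
  linarith

/-- two different members of `S` differ at good points near any good point -/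
theorem UDyn.exists_ne (h : UDyn K p B δ W S Zr II) {Ω : Set ℂ} (hΩ : IsOpen Ω) (hΩc : Convex ℝ Ω) {f g : ℂ → Y} (hf : f ∈ S Ω) (hg : g ∈ S Ω)
    (hne : ¬ AgO B Ω f g) {z : ℂ} (hzΩ : z ∈ Ω) (hz : z ∈ Gd B (2 * δ)) (hzW : |z.re| ≤ W) {ε : ℝ} (hε : 0 < ε) :
    ∃ w ∈ Gd B (2 * δ), |w.re| < W ∧ ‖w - z‖ < ε ∧ f w ≠ g w := by
  by_contra hcon
  push Not at hcon
  apply hne
  refine h.uniq Ω hΩ hΩc f hf g hg z hzΩ (gd_notMem (by linarith [h.δ_pos]) hz) ?_
  have h1 : ∀ᶠ w in 𝓝[≠] z, ‖w - z‖ < ε := by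
    have h2 : ∀ᶠ w in 𝓝 z, ‖w - z‖ < ε := by
      filter_upwards [ball_mem_nhds z hε] with w hw
      rwa [mem_ball, dist_eq_norm] at hw
    exact h2.filter_mono nhdsWithin_le_nhds
  refine ((h.perfect hz hzW).and_eventually h1).mono ?_
  rintro w ⟨⟨hw1, hw2⟩, hw3⟩
  exact hcon w hw1 hw2 hw3

theorem isOpen_sh {p : ℝ} {l : ℤ} {Ω : Set ℂ} (h : IsOpen Ω) : IsOpen (Sh p l Ω) := by
  have hc : Continuous fun z : ℂ => z + p * l * Complex.I := by fun_prop
  exact h.preimage hc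

theorem convex_sh {p : ℝ} {l : ℤ} {Ω : Set ℂ} (h : Convex ℝ Ω) : Convex ℝ (Sh p l Ω) := by
  have h1 : Sh p l Ω = (fun z => z + p * l * Complex.I) ⁻¹' Ω := rfl
  rw [h1]
  exact h.translate_preimage_left _

theorem sh_univ {p : ℝ} {l : ℤ} : Sh p l Set.univ = Set.univ := rfl

theorem isOpen_HP (σ ρ : ℝ) : IsOpen (HP σ ρ) := by
  unfold HP
  exact isOpen_lt continuous_const (by fun_prop)

theorem convex_HP (σ ρ : ℝ) : Convex ℝ (HP σ ρ) := by
  have h1 : IsLinearMap ℝ fun z : ℂ => σ * z.im := by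
    constructor
    · intro x y
      simp [mul_add]
    · intro c x
      simp
      ring
  exact convex_halfSpace_gt h1 ρ

/-- a vertical translation by a multiple of the period which brings `y` near `0` -/
theorem UDyn.exists_int (h : UDyn K p B δ W S Zr II) (y : ℝ) : ∃ l : ℤ, |y - p * l| ≤ p := by
  refine ⟨⌊y / p⌋, ?_⟩
  have hp := h.p_pos
  have h1 := Int.floor_le (y / p)
  have h2 := Int.lt_floor_add_one (y / p)
  rw [le_div_iff₀ hp] at h1
  rw [div_lt_iff₀ hp] at h2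
  rw [abs_of_nonneg (by nlinarith)]
  nlinarith

end Pool.Agent.H87.LU

end
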