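import Mathlib

/-! The parts of this file: EG.LE.Har, H17.WeightedVar, H24.AnalyticGrowth. -/

section

/-!
# EG LE Har: the Harnack inequality

Proof (helper41):
Let a = H c, Re a > 0.  phi z := (H z - a) / (H z + conj a) is holomorphic on the ball (Re (H z + conj a) > 0), maps it to the unit disc (‖w - a‖ < ‖w + conj a‖ for Re w, Re a > 0), phi c = 0.
Schwarz lemma (Complex.norm_le_norm_of_mapsTo_ball_self / dist_le_mul_div_dist, applied on ball c r): ‖phi z‖ ≤ s := ‖z - c‖ / r < 1.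
So ‖H z - a‖ ≤ s ‖H z + conj a‖.  Write H z = x + i y', a = x0 + i y0: (x - x0)^2 + (y' - y0)^2 ≤ s^2 ((x + x0)^2 + (y' - y0)^2), hence (x - x0)^2 ≤ s^2 (x + x0)^2 (s < 1), so
x0 - x ≤ s (x + x0), x ≥ x0 (1 - s) / (1 + s).
-/

set_option autoImplicit false

open Topology Filter Metric Set

namespace Pool.Agent.EG.LE

attribute [-instance] ProperSMul.toContinuousSMul

theorem harnack {H : ℂ → ℂ} {c : ℂ} {r : ℝ} (hr : 0 < r) (hH : DifferentiableOn ℂ H (ball c r)) (hpos : ∀ z ∈ ball c r, 0 < (H z).re) {z : ℂ}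
    (hz : z ∈ ball c r) : (H c).re * ((r - ‖z - c‖) / (r + ‖z - c‖)) ≤ (H z).re := by
  have hcb : c ∈ ball c r := mem_ball_self hr
  have hx0 := hpos c hcb
  have hden : ∀ w ∈ ball c r, H w + (starRingEnd ℂ) (H c) ≠ 0 := by
    intro w hw h0
    have h1 := congrArg Complex.re h0
    simp only [Complex.add_re, Complex.conj_re, Complex.zero_re] at h1
    have := hpos w hw
    linarith
  have hd : DifferentiableOn ℂ (fun w => (H w - H c) / (H w + (starRingEnd ℂ) (H c))) (ball c r) :=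
    (hH.sub_const _).div (hH.add_const _) hden
  have hsq : ∀ w, Complex.normSq (H w + (starRingEnd ℂ) (H c)) - Complex.normSq (H w - H c) =
      4 * (H w).re * (H c).re := by
    intro w
    rw [Complex.normSq_apply, Complex.normSq_apply]
    simp only [Complex.add_re, Complex.conj_re, Complex.sub_re, Complex.sub_im, Complex.add_im,
      Complex.conj_im]
    ring
  have hm : MapsTo (fun w => (H w - H c) / (H w + (starRingEnd ℂ) (H c))) (ball c r)
      (closedBall ((H c - H c) / (H c + (starRingEnd ℂ) (H c))) 1) := by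
    intro w hw
    rw [sub_self, zero_div, mem_closedBall, dist_zero_right, norm_div]
    have h1 : ‖H w - H c‖ ≤ ‖H w + (starRingEnd ℂ) (H c)‖ := by
      rw [← abs_norm (H w - H c), ← abs_norm (H w + (starRingEnd ℂ) (H c)), ← sq_le_sq,
        ← Complex.normSq_eq_norm_sq, ← Complex.normSq_eq_norm_sq]
      have h2 := hsq w
      have h3 := mul_pos (hpos w hw) hx0
      nlinarith
    exact div_le_one_of_le₀ h1 (norm_nonneg _)
  have hS := Complex.dist_le_div_mul_dist_of_mapsTo_ball hd hm hz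
  simp only [sub_self, zero_div, dist_zero_right, norm_div] at hS
  rw [dist_eq_norm] at hS
  set t := ‖z - c‖ with ht
  have ht0 : 0 ≤ t := norm_nonneg _
  have htr : t < r := by
    rw [mem_ball, dist_eq_norm] at hz
    exact hz
  have hzp := hpos z hz
  have hnp : 0 < ‖H z + (starRingEnd ℂ) (H c)‖ := norm_pos_iff.2 (hden z hz)
  rw [div_le_iff₀ hnp] at hS
  have hS2 : r * ‖H z - H c‖ ≤ t * ‖H z + (starRingEnd ℂ) (H c)‖ := by
    have h1 := mul_le_mul_of_nonneg_left hS hr.le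
    have h2 : r * (1 / r * t * ‖H z + (starRingEnd ℂ) (H c)‖) =
        t * ‖H z + (starRingEnd ℂ) (H c)‖ := by
      field_simp
    linarith
  have hS3 : r ^ 2 * Complex.normSq (H z - H c) ≤
      t ^ 2 * Complex.normSq (H z + (starRingEnd ℂ) (H c)) := by
    rw [Complex.normSq_eq_norm_sq, Complex.normSq_eq_norm_sq, ← mul_pow, ← mul_pow]
    exact pow_le_pow_left₀ (by positivity) hS2 2
  rw [Complex.normSq_apply, Complex.normSq_apply] at hS3
  simp only [Complex.add_re, Complex.conj_re, Complex.sub_re, Complex.sub_im, Complex.add_im,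
    Complex.conj_im] at hS3
  set x := (H z).re
  set x0 := (H c).re
  set y := (H z).im
  set y0 := (H c).im
  have hS4 : (r * (x0 - x)) ^ 2 ≤ (t * (x + x0)) ^ 2 := by
    have h1 : 0 ≤ (r ^ 2 - t ^ 2) * (y - y0) ^ 2 := by
      apply mul_nonneg _ (sq_nonneg _)
      nlinarith
    nlinarith
  have hS5 : r * (x0 - x) ≤ t * (x + x0) :=
    (abs_le_of_sq_le_sq' hS4 (by positivity)).2
  rw [← mul_div_assoc, div_le_iff₀ (by linarith)]
  nlinarith

end Pool.Agent.EG.LE

end

section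

/-!
# Weighted variance of complex numbers
-/

open Complex ComplexConjugate

namespace Pool.Agent.H17

attribute [-instance] ProperSMul.toContinuousSMul

variable {ι : Type} [Fintype ι]

/-- The variance of the complex numbers `x i` with weights `w i / ∑ w`. -/
noncomputable def wVar (w : ι → ℝ) (x : ι → ℂ) : ℝ :=
  ((∑ i, w i * ‖x i‖ ^ 2) * (∑ i, w i) - ‖∑ i, (w i : ℂ) * x i‖ ^ 2) / (∑ i, w i) ^ 2

lemma norm_sub_sq_expand (a b : ℂ) : ‖a - b‖ ^ 2 = ‖a‖ ^ 2 - 2 * (a * conj b).re + ‖b‖ ^ 2 := by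
  rw [Complex.sq_norm, Complex.sq_norm, Complex.sq_norm, Complex.normSq_sub]
  ring

lemma wVar_identity (w : ι → ℝ) (x : ι → ℂ) (c : ℂ) :
    (∑ i, w i * ‖x i - c‖ ^ 2) * (∑ i, w i) =
      ((∑ i, w i * ‖x i‖ ^ 2) * (∑ i, w i) - ‖∑ i, (w i : ℂ) * x i‖ ^ 2) +
        ‖∑ i, (w i : ℂ) * x i - (∑ i, w i : ℝ) * c‖ ^ 2 := by
  have h1 : ∑ i, w i * ‖x i - c‖ ^ 2 = ∑ i, w i * ‖x i‖ ^ 2 -
      2 * ((∑ i, (w i : ℂ) * x i) * conj c).re + (∑ i, w i) * ‖c‖ ^ 2 := by
    rw [Finset.sum_mul, Complex.re_sum, Finset.mul_sum, Finset.sum_mul, ← Finset.sum_sub_distrib,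
      ← Finset.sum_add_distrib]
    refine Finset.sum_congr rfl fun i _ => ?_
    rw [norm_sub_sq_expand]
    have : ((w i : ℂ) * x i * conj c).re = w i * (x i * conj c).re := by
      rw [mul_assoc, Complex.re_ofReal_mul]
    rw [this]
    ring
  rw [h1, norm_sub_sq_expand, norm_mul, Complex.norm_real]
  have h2 : ((∑ i, (w i : ℂ) * x i) * conj ((∑ i, w i : ℝ) * c)).re =
      (∑ i, w i) * ((∑ i, (w i : ℂ) * x i) * conj c).re := by
    rw [map_mul, Complex.conj_ofReal, ← Complex.re_ofReal_mul]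
    congr 1
    ring
  have h3 : ‖(∑ i, w i : ℝ)‖ ^ 2 = (∑ i, w i) ^ 2 := by
    rw [Real.norm_eq_abs, sq_abs]
  rw [h2, mul_pow, h3]
  ring

lemma wVar_eq {w : ι → ℝ} (x : ι → ℂ) (hw : (∑ i, w i) ≠ 0) :
    wVar w x = (∑ i, w i * ‖x i - (∑ i, (w i : ℂ) * x i) / (∑ i, w i : ℝ)‖ ^ 2) / (∑ i, w i) := by
  have h1 := wVar_identity w x ((∑ i, (w i : ℂ) * x i) / (∑ i, w i : ℝ))
  have hw' : ((∑ i, w i : ℝ) : ℂ) ≠ 0 := by exact_mod_cast hw
  rw [mul_div_cancel₀ _ hw', sub_self] at h1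
  simp only [norm_zero] at h1
  unfold wVar
  rw [div_eq_div_iff (pow_ne_zero 2 hw) hw]
  linear_combination -(∑ i, w i) * h1

lemma wVar_nonneg {w : ι → ℝ} (x : ι → ℂ) (hw0 : ∀ i, 0 ≤ w i) (hw : 0 < ∑ i, w i) :
    0 ≤ wVar w x := by
  rw [wVar_eq x hw.ne']
  apply div_nonneg (Finset.sum_nonneg fun i _ => mul_nonneg (hw0 i) (sq_nonneg _)) hw.le

end Pool.Agent.H17

end

section

set_option autoImplicit false

/-!
# Growth of analytic functions in terms of zeros of the real part on the sides of a rectangle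
-/

namespace Pool.Agent.H24.Growth

attribute [-instance] ProperSMul.toContinuousSMul

open Complex Set Metric Filter Topology

/-- An analytic logarithm on a convex open set. -/
lemma exists_log {U : Set ℂ} (hUo : IsOpen U) (hUc : Convex ℝ U) (hUn : U.Nonempty) {k : ℂ → ℂ}
    (hk : DifferentiableOn ℂ k U) (hk0 : ∀ w ∈ U, k w ≠ 0) :
    ∃ G : ℂ → ℂ, DifferentiableOn ℂ G U ∧ ∀ w ∈ U, exp (G w) = k w := by
  have hsc : IsSimplyConnected U := by
    have := hUc.contractibleSpace hUn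
    exact SimplyConnectedSpace.ofContractible U
  obtain ⟨G, hGc, hGe⟩ := Complex.exists_continuousOn_eqOn_exp_comp hsc hUo hk.continuousOn
    (by rintro ⟨w, hw, h0⟩; exact hk0 w hw h0)
  refine ⟨G, ?_, fun w hw => hGe hw⟩
  intro w0 hw0
  apply DifferentiableAt.differentiableWithinAt
  have hkd : DifferentiableAt ℂ k w0 := (hk w0 hw0).differentiableAt (hUo.mem_nhds hw0)
  have hGca : ContinuousAt G w0 := hGc.continuousAt (hUo.mem_nhds hw0)
  have hev : G =ᶠ[𝓝 w0] fun w => G w0 + log (k w / k w0) := by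
    have h1 : ∀ᶠ w in 𝓝 w0, w ∈ U := hUo.mem_nhds hw0
    have h2 : ∀ᶠ w in 𝓝 w0, ‖G w - G w0‖ < Real.pi := by
      have : Tendsto (fun w => ‖G w - G w0‖) (𝓝 w0) (𝓝 ‖G w0 - G w0‖) :=
        (hGca.sub continuousAt_const).norm
      rw [sub_self, norm_zero] at this
      exact this.eventually (gt_mem_nhds Real.pi_pos)
    filter_upwards [h1, h2] with w hw hw2
    have e1 : k w / k w0 = exp (G w - G w0) := by
      rw [Complex.exp_sub]
      have e2 : exp (G w) = k w := hGe hw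
      have e3 : exp (G w0) = k w0 := hGe hw0
      rw [e2, e3]
    have h3 : |(G w - G w0).im| < Real.pi := (abs_im_le_norm _).trans_lt hw2
    rw [e1, Complex.log_exp (by linarith [(abs_lt.mp h3).1]) (abs_lt.mp h3).2.le]
    ring
  refine DifferentiableAt.congr_of_eventuallyEq ?_ hev
  apply DifferentiableAt.const_add
  apply DifferentiableAt.clog (hkd.div_const _)
  rw [div_self (hk0 w0 hw0)]
  exact one_mem_slitPlane

end Pool.Agent.H24.Growth

end
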