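import Pool.Agent.H94.CB.M07
import Pool.Agent.H94.CB.M156
import Pool.Agent.H94.CB.M16
import Pool.Agent.H94.CB.M186
import Pool.Agent.H94.CB.M188

/-! The parts of this file: EG.LE.Gro, H13.LU.Ext, H13.LU.Logs, H13.LU.Quad, H4.LU.Ext, H41.LR.Dep, H41.LR.Gr, H41.LR.Map, H87.LR.LimB, H41.LR.Br, H87.LU.HDefs, H87.LV.Uniq, H97.LU.Inv. -/

section

/-!
# EG LE Gro: growth of - log |y| (a function which avoids 0 and is Lipschitz where it is small)

Proof (helper41), T := T1 > 0, v z := - log ‖y z‖, C4 := max C3 (log 4), C := 4 C4 / delta1 + C4 + log 2 (or anything bigger).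
G := {z in A ∩ closedBall c R | Re z ≤ -T, ‖y z‖ ≤ 1/2}.  G is compact: if z_n in G, z_n -> z, then z in ball z_n delta1 ⊆ A for some n (hA), y is continuous at z.  v ≥ log 2 > 0 on G.
If z in A, z in closedBall c (R - 1), Re z ≤ -T and ‖y z‖ > 1/2 then v z ≤ log 2.  Otherwise z in G.  Let d z := R - ‖z - c‖ ≥ 0 on G, zs a maximum point of v * d^3 on G.
Claim: v zs * (d zs)^3 ≤ (4 C4 / delta1 + C4) (1 + R) R^3.  This implies v z ≤ v z * (d z)^3 ≤ C (1 + R)^4 (d z ≥ 1).
Let ds := d zs; if ds = 0 clear; suppose ds > 0.  Let rs := sup {r in [0, ds] | ball zs r ⊆ G} (contains 0; the supremum is attained: ball zs rs ⊆ G).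
Case rs = ds: Re w ≤ -T on ball zs ds, so ds ≤ - Re zs - T, hence ‖zs - c‖ ≥ - Re zs > ds (Re c = 0, T > 0).  z' := zs + (ds / 2) * (c - zs) / ‖c - zs‖: in ball zs ds ⊆ G, d z' = ds + ds / 2.
 On ball zs ds the function y has no zeros: y = exp g with g holomorphic (DifferentiableOn.exists_log or the primitive of y'/y on a ball), H := - g, Re H = v > 0; Harnack with ‖z' - zs‖ = ds / 2:
 v z' ≥ v zs / 3, so v z' (d z')^3 ≥ (27/8) / 3 * v zs ds^3 > v zs ds^3: contradiction to the maximum.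
Case rs < ds: there are w_n not in G with ‖w_n - zs‖ < rs + 1/n, a limit z1 with ‖z1 - zs‖ ≤ rs; z1 in G (closure of ball zs rs, or z1 = zs if rs = 0; if ‖z1 - zs‖ < rs then w_n in G for large n).
 ‖z1 - c‖ < R.  If Re z1 < -T and ‖y z1‖ < 1/2 then G is a neighbourhood of z1 (A open, y continuous): contradiction.  So every w in ball z1 delta1 with Re w ≤ -T, w in closedBall c R has v w ≤ C4:
 ball z1 delta1 ⊆ A by hA; if Re z1 = -T: hs; if ‖y z1‖ = 1/2: ‖y w‖ ≥ 1/4 by hA.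
 If rs < delta1 then zs is such a point: v zs ≤ C4.  If rs ≥ delta1: z2 := z1 + (delta1 / 2) (zs - z1) / ‖zs - z1‖ is in ball zs rs ⊆ G (‖z2 - zs‖ = ‖z1 - zs‖ - delta1 / 2, here ‖z1 - zs‖ = rs because
 ball zs rs ⊆ interior G) and v z2 ≤ C4; Harnack on ball zs rs: v z2 ≥ v zs * (delta1 / 2) / (2 rs), v zs ≤ 4 rs C4 / delta1 ≤ 4 R C4 / delta1.
-/

set_option autoImplicit false

open Topology Filter Metric Set

namespace Pool.Agent.EG.LE

attribute [-instance] ProperSMul.toContinuousSMul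

/-- a holomorphic logarithm on a ball -/
private theorem Gro_log {f : ℂ → ℂ} {t₁ : ℂ} {r₀ : ℝ} (hf : DifferentiableOn ℂ f (ball t₁ r₀)) (h0 : ∀ t ∈ ball t₁ r₀, f t ≠ 0) :
    ∃ g : ℂ → ℂ, DifferentiableOn ℂ g (ball t₁ r₀) ∧ ∀ t ∈ ball t₁ r₀, f t = Complex.exp (g t) := by
  rcases le_or_gt r₀ 0 with hr | hr
  · refine ⟨fun _ => 0, ?_, ?_⟩
    · rw [ball_eq_empty.2 hr]
      exact differentiableOn_empty
    · rw [ball_eq_empty.2 hr]
      intro t ht
      exact absurd ht (notMem_empty t)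
  have hd : DifferentiableOn ℂ (fun t => deriv f t / f t) (ball t₁ r₀) := (hf.deriv isOpen_ball).div hf h0
  obtain ⟨G, hG⟩ := hd.isExactOn_ball
  have ht₁ : t₁ ∈ ball t₁ r₀ := mem_ball_self hr
  set c : ℂ := Complex.log (f t₁) - G t₁ with hc
  refine ⟨fun t => G t + c, fun t ht => ((hG t ht).differentiableAt.add_const c).differentiableWithinAt, fun t ht => ?_⟩
  have hd2 : DifferentiableOn ℂ (fun t => f t * Complex.exp (-(G t + c))) (ball t₁ r₀) := by
    refine hf.mul (DifferentiableOn.cexp ?_)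
    intro t ht
    exact ((hG t ht).differentiableAt.add_const c).neg.differentiableWithinAt
  have hderiv : ∀ t ∈ ball t₁ r₀, HasDerivAt (fun t => f t * Complex.exp (-(G t + c))) 0 t := by
    intro t ht
    have h1 : HasDerivAt f (deriv f t) t := (hf.differentiableAt (isOpen_ball.mem_nhds ht)).hasDerivAt
    have h2 : HasDerivAt (fun t => Complex.exp (-(G t + c))) (Complex.exp (-(G t + c)) * (-(deriv f t / f t))) t :=
      ((hG t ht).add_const c).neg.cexp
    have h3 := h1.mul h2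
    refine h3.congr_deriv ?_
    have h4 := h0 t ht
    field_simp
    ring
  have hconst := (convex_ball t₁ r₀).is_const_of_fderivWithin_eq_zero (𝕜 := ℂ) hd2 (fun t ht => by
    rw [fderivWithin_of_isOpen isOpen_ball ht]
    have h1 := (hderiv t ht).hasFDerivAt.fderiv
    rw [h1]
    ext
    simp) ht ht₁
  have h5 : f t₁ * Complex.exp (-(G t₁ + c)) = 1 := by
    rw [hc, add_sub_cancel, Complex.exp_neg, Complex.exp_log (h0 t₁ ht₁), mul_inv_cancel₀ (h0 t₁ ht₁)]
  rw [h5, Complex.exp_neg, mul_inv_eq_iff_eq_mul₀ (Complex.exp_ne_zero _), one_mul] at hconst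
  exact hconst

/-- Harnack for `- log ‖y‖` -/
private theorem Gro_har {y : ℂ → ℂ} {c : ℂ} {r : ℝ} (hr : 0 < r) (hy : DifferentiableOn ℂ y (ball c r))
    (h0 : ∀ z ∈ ball c r, y z ≠ 0) (h1 : ∀ z ∈ ball c r, ‖y z‖ ≤ 1 / 2) {z : ℂ} (hz : z ∈ ball c r) :
    (-Real.log ‖y c‖) * ((r - ‖z - c‖) / (r + ‖z - c‖)) ≤ -Real.log ‖y z‖ := by
  obtain ⟨g, hg, hexp⟩ := Gro_log hy h0
  have hre : ∀ w ∈ ball c r, (-g w).re = -Real.log ‖y w‖ := by
    intro w hw
    rw [hexp w hw, Complex.norm_exp, Real.log_exp, Complex.neg_re]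
  have hlog : ∀ w ∈ ball c r, 0 < -Real.log ‖y w‖ := by
    intro w hw
    have h2 : Real.log ‖y w‖ < 0 := Real.log_neg (norm_pos_iff.2 (h0 w hw)) (by linarith [h1 w hw])
    linarith
  have key := harnack (H := fun w => -g w) hr hg.neg (fun w hw => by rw [hre w hw]; exact hlog w hw) hz
  rw [hre z hz, hre c (mem_ball_self hr)] at key
  exact key

/-- the good set is compact -/
private theorem Gro_compact {δ₁ : ℝ} (hδ : 0 < δ₁) {c : ℂ} {R T : ℝ} {A : Set ℂ} {y : ℂ → ℂ} (hA : IsOpen A)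
    (hy : DifferentiableOn ℂ y A)
    (hb : ∀ z ∈ A, ‖y z‖ ≤ 1 / 2 → z ∈ closedBall c R → z.re ≤ -T → ball z δ₁ ⊆ A) :
    IsCompact {z : ℂ | z ∈ A ∧ ‖y z‖ ≤ 1 / 2 ∧ z ∈ closedBall c R ∧ z.re ≤ -T} := by
  refine (isCompact_closedBall c R).of_isClosed_subset ?_ fun z hz => hz.2.2.1
  refine isClosed_of_closure_subset fun z hz => ?_
  obtain ⟨z', hz', hd⟩ := Metric.mem_closure_iff.1 hz δ₁ hδ
  have hzA : z ∈ A := hb z' hz'.1 hz'.2.1 hz'.2.2.1 hz'.2.2.2 hd
  obtain ⟨u, hu, hlim⟩ := mem_closure_iff_seq_limit.1 hz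
  have hcont : ContinuousAt y z := (hy.differentiableAt (hA.mem_nhds hzA)).continuousAt
  refine ⟨hzA, ?_, ?_, ?_⟩
  · exact le_of_tendsto' ((continuous_norm.continuousAt.comp hcont).tendsto.comp hlim) fun n => (hu n).2.1
  · exact isClosed_closedBall.mem_of_tendsto hlim (Eventually.of_forall fun n => (hu n).2.2.1)
  · exact le_of_tendsto' ((Complex.continuous_re.tendsto z).comp hlim) fun n => (hu n).2.2.2

theorem growth {δ₁ C₃ : ℝ} (hδ : 0 < δ₁) (hδ1 : δ₁ ≤ 1) (hC : 0 ≤ C₃) : ∃ C : ℝ, 0 ≤ C ∧ ∀ (c : ℂ) (R T : ℝ) (A : Set ℂ) (y : ℂ → ℂ), c.re = 0 → 0 < T → IsOpen A →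
    DifferentiableOn ℂ y A → (∀ z ∈ A, y z ≠ 0) →
    (∀ z ∈ A, ‖y z‖ ≤ 1 / 2 → z ∈ closedBall c R → z.re ≤ -T → ball z δ₁ ⊆ A ∧ ∀ w ∈ ball z δ₁, ‖y w - y z‖ ≤ 1 / 4) →
    (∀ z ∈ A, z ∈ closedBall c R → -T - δ₁ ≤ z.re → z.re ≤ -T → -Real.log ‖y z‖ ≤ C₃) →
    ∀ z ∈ A, z ∈ closedBall c (R - 1) → z.re ≤ -T → -Real.log ‖y z‖ ≤ C * (1 + R) ^ 4 := by
  obtain ⟨C4, hC4⟩ : ∃ C4, C4 = max C₃ (Real.log 4) := ⟨_, rfl⟩
  have hC43 : C₃ ≤ C4 := by rw [hC4]; exact le_max_left _ _
  have hC44 : Real.log 4 ≤ C4 := by rw [hC4]; exact le_max_right _ _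
  have hC40 : 0 ≤ C4 := hC.trans hC43
  have hlog2 : 0 < Real.log 2 := Real.log_pos (by norm_num)
  have hlog2' : -Real.log (1 / 2 : ℝ) = Real.log 2 := by
    rw [one_div, Real.log_inv, neg_neg]
  have hlog4' : -Real.log (1 / 4 : ℝ) = Real.log 4 := by
    rw [one_div, Real.log_inv, neg_neg]
  refine ⟨4 * C4 / δ₁ + C4 + Real.log 2, by positivity, ?_⟩
  intro c R T A y hc hT hA hy hy0 hball hstrip z hzA hzR hzT
  have hR1 : 1 ≤ R := by
    have := (dist_nonneg (x := z) (y := c)).trans (mem_closedBall.1 hzR)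
    linarith
  have hR4 : 1 ≤ (1 + R) ^ 4 := one_le_pow₀ (by linarith)
  have hE0 : 0 ≤ 4 * C4 / δ₁ + C4 := by positivity
  have hzR' : z ∈ closedBall c R := closedBall_subset_closedBall (by linarith) hzR
  rcases lt_or_ge (1 / 2) ‖y z‖ with hyz | hyz
  · have h1 : -Real.log ‖y z‖ ≤ Real.log 2 := by
      rw [← hlog2']
      have := Real.log_le_log (by norm_num) hyz.le
      linarith
    have h2 : Real.log 2 * 1 ≤ (4 * C4 / δ₁ + C4 + Real.log 2) * (1 + R) ^ 4 :=
      mul_le_mul (by linarith) hR4 zero_le_one (by positivity)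
    linarith
  -- the good set
  obtain ⟨G, hG⟩ : ∃ G : Set ℂ, G = {z : ℂ | z ∈ A ∧ ‖y z‖ ≤ 1 / 2 ∧ z ∈ closedBall c R ∧ z.re ≤ -T} := ⟨_, rfl⟩
  have hGc : IsCompact G := by
    rw [hG]
    exact Gro_compact hδ hA hy fun w h1 h2 h3 h4 => (hball w h1 h2 h3 h4).1
  have hGA : ∀ w ∈ G, w ∈ A ∧ ‖y w‖ ≤ 1 / 2 ∧ w ∈ closedBall c R ∧ w.re ≤ -T := by
    intro w hw
    rw [hG] at hw
    exact hw
  have hzG : z ∈ G := by
    rw [hG]
    exact ⟨hzA, hyz, hzR', hzT⟩
  have hv0 : ∀ w ∈ G, 0 < -Real.log ‖y w‖ := by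
    intro w hw
    obtain ⟨h1, h2, -, -⟩ := hGA w hw
    have h3 : Real.log ‖y w‖ < 0 := Real.log_neg (norm_pos_iff.2 (hy0 w h1)) (by linarith)
    linarith
  have hd0 : ∀ w ∈ G, 0 ≤ R - ‖w - c‖ := by
    intro w hw
    have h1 := mem_closedBall.1 (hGA w hw).2.2.1
    rw [dist_eq_norm] at h1
    linarith
  have hcont : ContinuousOn (fun w => -Real.log ‖y w‖ * (R - ‖w - c‖) ^ 3) G := by
    refine ContinuousOn.mul (ContinuousOn.neg (ContinuousOn.log ?_ ?_)) (Continuous.continuousOn (by fun_prop))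
    · exact (hy.continuousOn.mono fun w hw => (hGA w hw).1).norm
    · exact fun w hw => (norm_pos_iff.2 (hy0 w (hGA w hw).1)).ne'
  obtain ⟨zs, hzs, hmax⟩ := hGc.exists_isMaxOn ⟨z, hzG⟩ hcont
  have hmax : ∀ w ∈ G, -Real.log ‖y w‖ * (R - ‖w - c‖) ^ 3 ≤ -Real.log ‖y zs‖ * (R - ‖zs - c‖) ^ 3 :=
    fun w hw => hmax hw
  obtain ⟨vs, hvs⟩ : ∃ vs, vs = -Real.log ‖y zs‖ := ⟨_, rfl⟩
  obtain ⟨ds, hds⟩ : ∃ ds, ds = R - ‖zs - c‖ := ⟨_, rfl⟩
  rw [← hvs, ← hds] at hmax
  have hvs0 : 0 < vs := by rw [hvs]; exact hv0 zs hzs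
  have hds0 : 0 ≤ ds := by rw [hds]; exact hd0 zs hzs
  have hdsR : ds ≤ R := by rw [hds]; linarith [norm_nonneg (zs - c)]
  have hds3 : ds ^ 3 ≤ R ^ 3 := pow_le_pow_left₀ hds0 hdsR 3
  have claim : vs * ds ^ 3 ≤ (4 * C4 / δ₁ + C4) * ((1 + R) * R ^ 3) := by
    have hR3 : 0 ≤ R ^ 3 := by positivity
    have hbd1 : ∀ v : ℝ, v ≤ C4 → v * ds ^ 3 ≤ (4 * C4 / δ₁ + C4) * ((1 + R) * R ^ 3) := by
      intro v hv
      calc v * ds ^ 3 ≤ C4 * ds ^ 3 := mul_le_mul_of_nonneg_right hv (by positivity)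
        _ ≤ C4 * R ^ 3 := mul_le_mul_of_nonneg_left hds3 hC40
        _ ≤ (4 * C4 / δ₁ + C4) * ((1 + R) * R ^ 3) := by
            refine mul_le_mul ?_ ?_ hR3 hE0
            · have : 0 ≤ 4 * C4 / δ₁ := by positivity
              linarith
            · have : 0 ≤ R * R ^ 3 := by positivity
              linarith
    rcases eq_or_lt_of_le hds0 with hds00 | hdspos
    · rw [← hds00]
      have : 0 ≤ (4 * C4 / δ₁ + C4) * ((1 + R) * R ^ 3) := by positivity
      linarith
    have hGne : (Gᶜ).Nonempty := by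
      obtain ⟨x, hx⟩ := (hGc.isBounded.subset_closedBall (0 : ℂ)).elim fun r hr =>
        (⟨((|r| + 1 : ℝ) : ℂ), fun h => by
          have h1 := hr h
          rw [mem_closedBall, dist_zero_right, Complex.norm_real, Real.norm_eq_abs, abs_of_nonneg (by positivity)] at h1
          linarith [le_abs_self r]⟩ : ∃ x, x ∉ G)
      exact ⟨x, hx⟩
    obtain ⟨ρ, hρ⟩ : ∃ ρ, ρ = infDist zs Gᶜ := ⟨_, rfl⟩
    have hρ0 : 0 ≤ ρ := by rw [hρ]; exact infDist_nonneg
    have hρG : ball zs ρ ⊆ G := by rw [hρ]; exact ball_infDist_compl_subset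
    have hharn : ∀ r : ℝ, 0 < r → r ≤ ρ → ∀ w ∈ ball zs r,
        vs * ((r - ‖w - zs‖) / (r + ‖w - zs‖)) ≤ -Real.log ‖y w‖ := by
      intro r hr hrρ w hw
      have hsub : ball zs r ⊆ G := (ball_subset_ball hrρ).trans hρG
      rw [hvs]
      exact Gro_har hr (hy.mono fun x hx => (hGA x (hsub hx)).1) (fun x hx => hy0 x (hGA x (hsub hx)).1)
        (fun x hx => (hGA x (hsub hx)).2.1) hw
    rcases le_or_gt ds ρ with hcase | hcase
    · -- the ball reaches the boundary
      exfalso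
      have hsub : ball zs ds ⊆ G := (ball_subset_ball hcase).trans hρG
      have h1 : ds ≤ -zs.re - T := by
        by_contra hcon
        push Not at hcon
        have h2 : 0 ≤ -zs.re - T := by
          have := (hGA zs hzs).2.2.2
          linarith
        obtain ⟨t, ht1, ht2⟩ := exists_between hcon
        have h3 : zs + (t : ℂ) ∈ ball zs ds := by
          rw [mem_ball, dist_eq_norm, add_sub_cancel_left, Complex.norm_real, Real.norm_eq_abs, abs_of_nonneg (by linarith)]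
          exact ht2
        have h4 := (hGA _ (hsub h3)).2.2.2
        rw [Complex.add_re, Complex.ofReal_re] at h4
        linarith
      have h2 : -zs.re ≤ ‖zs - c‖ := by
        have h3 := Complex.abs_re_le_norm (zs - c)
        rw [Complex.sub_re, hc, sub_zero] at h3
        linarith [neg_abs_le zs.re]
      obtain ⟨a, ha⟩ : ∃ a, a = ‖zs - c‖ := ⟨_, rfl⟩
      rw [← ha] at h2
      have ha0 : ds < a := by linarith
      have hapos : 0 < a := by linarith
      obtain ⟨z', hz'⟩ : ∃ z', z' = zs + (((ds / 2) / a : ℝ) : ℂ) * (c - zs) := ⟨_, rfl⟩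
      have hn1 : ‖z' - zs‖ = ds / 2 := by
        rw [hz', add_sub_cancel_left, norm_mul, Complex.norm_real, Real.norm_eq_abs, abs_of_nonneg (by positivity),
          norm_sub_rev, ← ha]
        field_simp
      have hn2 : ‖z' - c‖ = a - ds / 2 := by
        have h3 : z' - c = ((1 - (ds / 2) / a : ℝ) : ℂ) * (zs - c) := by
          rw [hz']
          push_cast
          ring
        rw [h3, norm_mul, Complex.norm_real, Real.norm_eq_abs, abs_of_nonneg, ← ha]
        · field_simp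
        · rw [sub_nonneg, div_le_one hapos]
          linarith
      have hz'b : z' ∈ ball zs ds := by
        rw [mem_ball, dist_eq_norm, hn1]
        linarith
      have h3 := hharn ds hdspos hcase z' hz'b
      have h4 := hmax z' (hsub hz'b)
      rw [hn1] at h3
      rw [hn2] at h4
      have h5 : (ds - ds / 2) / (ds + ds / 2) = 1 / 3 := by
        field_simp
        ring
      have h6 : R - (a - ds / 2) = 3 / 2 * ds := by
        rw [hds, ← ha]
        ring
      rw [h5] at h3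
      rw [h6] at h4
      have h7 : 0 < vs * ds ^ 3 := by positivity
      have h8 : vs * (1 / 3) * (3 / 2 * ds) ^ 3 ≤ -Real.log ‖y z'‖ * (3 / 2 * ds) ^ 3 :=
        mul_le_mul_of_nonneg_right h3 (by positivity)
      have h9 : vs * (1 / 3) * (3 / 2 * ds) ^ 3 = 9 / 8 * (vs * ds ^ 3) := by ring
      linarith
    · -- an obstruction inside
      obtain ⟨z1, hz1, hdz1⟩ := isClosed_closure.exists_infDist_eq_dist hGne.closure zs
      rw [infDist_closure, ← hρ] at hdz1
      have hz1G : z1 ∈ G := by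
        rcases eq_or_lt_of_le hρ0 with h | h
        · rw [← h] at hdz1
          rw [← dist_eq_zero.1 hdz1.symm]
          exact hzs
        · have h1 : closure (ball zs ρ) ⊆ G := closure_minimal hρG hGc.isClosed
          rw [closure_ball zs h.ne'] at h1
          apply h1
          rw [mem_closedBall, dist_comm]
          exact hdz1.symm.le
      obtain ⟨hz1A, hz1y, hz1R, hz1T⟩ := hGA z1 hz1G
      have hz1c : ‖z1 - c‖ < R := by
        have h1 : z1 - c = (z1 - zs) + (zs - c) := by ring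
        have h2 : ‖z1 - zs‖ = ρ := by rw [← dist_eq_norm, dist_comm]; exact hdz1.symm
        calc ‖z1 - c‖ ≤ ‖z1 - zs‖ + ‖zs - c‖ := by rw [h1]; exact norm_add_le _ _
          _ < ds + ‖zs - c‖ := by rw [h2]; linarith
          _ = R := by rw [hds]; ring
      have hcontz1 : ContinuousAt y z1 := (hy.differentiableAt (hA.mem_nhds hz1A)).continuousAt
      have hor : z1.re = -T ∨ ‖y z1‖ = 1 / 2 := by
        by_contra hcon
        push Not at hcon
        obtain ⟨h1, h2⟩ := hcon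
        have h3 : z1.re < -T := lt_of_le_of_ne hz1T h1
        have h4 : ‖y z1‖ < 1 / 2 := lt_of_le_of_ne hz1y h2
        have h5 : G ∈ 𝓝 z1 := by
          have e1 : ∀ᶠ w in 𝓝 z1, w ∈ A := hA.mem_nhds hz1A
          have e2 : ∀ᶠ w in 𝓝 z1, ‖y w‖ < 1 / 2 := hcontz1.norm.eventually (gt_mem_nhds h4)
          have e3 : ∀ᶠ w in 𝓝 z1, w.re < -T := Complex.continuous_re.continuousAt.eventually (gt_mem_nhds h3)
          have e4 : ∀ᶠ w in 𝓝 z1, w ∈ ball c R :=
            isOpen_ball.mem_nhds (by rw [mem_ball, dist_eq_norm]; exact hz1c)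
          filter_upwards [e1, e2, e3, e4] with w w1 w2 w3 w4
          rw [hG]
          exact ⟨w1, w2.le, ball_subset_closedBall w4, w3.le⟩
        have h6 : z1 ∈ interior G := mem_interior_iff_mem_nhds.2 h5
        rw [closure_compl] at hz1
        exact hz1 h6
      obtain ⟨hbA, hbd⟩ := hball z1 hz1A hz1y hz1R hz1T
      have hK : ∀ w ∈ ball z1 δ₁, w ∈ closedBall c R → w.re ≤ -T → -Real.log ‖y w‖ ≤ C4 := by
        intro w hw hwR hwT
        rcases hor with h | h
        · have h1 : -T - δ₁ ≤ w.re := by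
            have h2 := Complex.abs_re_le_norm (w - z1)
            rw [mem_ball, dist_eq_norm] at hw
            rw [Complex.sub_re, h] at h2
            have h3 := (abs_le.1 (h2.trans hw.le)).1
            linarith
          exact (hstrip w (hbA hw) hwR h1 hwT).trans hC43
        · have h1 : 1 / 4 ≤ ‖y w‖ := by
            have h2 := hbd w hw
            have h3 : ‖y z1‖ ≤ ‖y w‖ + ‖y w - y z1‖ := by
              have h4 : y z1 = y w - (y w - y z1) := by ring
              calc ‖y z1‖ = ‖y w - (y w - y z1)‖ := by rw [← h4]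
                _ ≤ _ := norm_sub_le _ _
            rw [h] at h3
            linarith
          have h2 := Real.log_le_log (by norm_num) h1
          linarith
      rcases lt_or_ge ρ δ₁ with h | h
      · apply hbd1
        rw [hvs]
        refine hK zs ?_ (hGA zs hzs).2.2.1 (hGA zs hzs).2.2.2
        rw [mem_ball, ← hdz1]
        exact h
      · have hρpos : 0 < ρ := by linarith
        obtain ⟨z2, hz2⟩ : ∃ z2, z2 = z1 + (((δ₁ / 2) / ρ : ℝ) : ℂ) * (zs - z1) := ⟨_, rfl⟩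
        have hn0 : ‖zs - z1‖ = ρ := by rw [← dist_eq_norm]; exact hdz1.symm
        have hn1 : ‖z2 - z1‖ = δ₁ / 2 := by
          rw [hz2, add_sub_cancel_left, norm_mul, Complex.norm_real, Real.norm_eq_abs, abs_of_nonneg (by positivity), hn0]
          field_simp
        have hn2 : ‖z2 - zs‖ = ρ - δ₁ / 2 := by
          have h3 : z2 - zs = ((1 - (δ₁ / 2) / ρ : ℝ) : ℂ) * (z1 - zs) := by
            rw [hz2]
            push_cast
            ring
          rw [h3, norm_mul, Complex.norm_real, Real.norm_eq_abs, abs_of_nonneg, norm_sub_rev, hn0]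
          · field_simp
          · rw [sub_nonneg, div_le_one hρpos]
            linarith
        have hz2b : z2 ∈ ball zs ρ := by
          rw [mem_ball, dist_eq_norm, hn2]
          linarith
        have hz2G := hGA z2 (hρG hz2b)
        have h3 := hK z2 (by rw [mem_ball, dist_eq_norm, hn1]; linarith) hz2G.2.2.1 hz2G.2.2.2
        have h4 := hharn ρ hρpos le_rfl z2 hz2b
        rw [hn2] at h4
        have h5 : δ₁ / (4 * ρ) ≤ (ρ - (ρ - δ₁ / 2)) / (ρ + (ρ - δ₁ / 2)) := by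
          rw [div_le_div_iff₀ (by positivity) (by linarith)]
          have e1 : (ρ - (ρ - δ₁ / 2)) * (4 * ρ) - δ₁ * (ρ + (ρ - δ₁ / 2)) = δ₁ * δ₁ / 2 := by ring
          have e2 : 0 ≤ δ₁ * δ₁ / 2 := by positivity
          linarith
        have h6 : vs * (δ₁ / (4 * ρ)) ≤ C4 := (mul_le_mul_of_nonneg_left h5 hvs0.le).trans (h4.trans h3)
        have h7 : vs ≤ 4 * C4 / δ₁ * ρ := by
          have h8 : vs = vs * (δ₁ / (4 * ρ)) * (4 * ρ / δ₁) := by field_simp
          rw [h8]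
          calc vs * (δ₁ / (4 * ρ)) * (4 * ρ / δ₁) ≤ C4 * (4 * ρ / δ₁) :=
                mul_le_mul_of_nonneg_right h6 (by positivity)
            _ = 4 * C4 / δ₁ * ρ := by ring
        have h8 : vs ≤ 4 * C4 / δ₁ * (1 + R) := h7.trans (mul_le_mul_of_nonneg_left (by linarith) (by positivity))
        calc vs * ds ^ 3 ≤ 4 * C4 / δ₁ * (1 + R) * ds ^ 3 := mul_le_mul_of_nonneg_right h8 (by positivity)
          _ ≤ 4 * C4 / δ₁ * (1 + R) * R ^ 3 := mul_le_mul_of_nonneg_left hds3 (by positivity)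
          _ = 4 * C4 / δ₁ * ((1 + R) * R ^ 3) := by ring
          _ ≤ (4 * C4 / δ₁ + C4) * ((1 + R) * R ^ 3) :=
              mul_le_mul_of_nonneg_right (by linarith) (by positivity)
  -- the conclusion
  have h1 := hmax z hzG
  have h2 : 1 ≤ R - ‖z - c‖ := by
    have h3 := mem_closedBall.1 hzR
    rw [dist_eq_norm] at h3
    linarith
  have h3 : -Real.log ‖y z‖ * 1 ≤ -Real.log ‖y z‖ * (R - ‖z - c‖) ^ 3 :=
    mul_le_mul_of_nonneg_left (one_le_pow₀ h2) (hv0 z hzG).le
  have h4 : (1 + R) * R ^ 3 ≤ (1 + R) ^ 4 := by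
    have h5 : R ^ 3 ≤ (1 + R) ^ 3 := pow_le_pow_left₀ (by linarith) (by linarith) 3
    calc (1 + R) * R ^ 3 ≤ (1 + R) * (1 + R) ^ 3 := mul_le_mul_of_nonneg_left h5 (by linarith)
      _ = (1 + R) ^ 4 := by ring
  have h5 : (4 * C4 / δ₁ + C4) * ((1 + R) * R ^ 3) ≤ (4 * C4 / δ₁ + C4 + Real.log 2) * (1 + R) ^ 4 :=
    mul_le_mul (by linarith) h4 (by positivity) (by positivity)
  linarith

end Pool.Agent.EG.LE

end

section

/-!
# LU Ext: limits of functions without zeros off a discrete set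

`E n` is holomorphic and has no zeros on the disc of radius `n + 1`, and converges locally uniformly off a closed discrete set to a function without zeros.
By the maximum principle (for `E n` and `1 / E n`) the sequence converges locally uniformly on `ℂ` to an entire function without zeros.
-/

set_option autoImplicit false

open Topology Filter Metric

namespace Pool.Agent.H13.LU

attribute [-instance] ProperSMul.toContinuousSMul

theorem unif_of_local {l : Filter ℕ} {E : ℕ → ℂ → ℂ} {e : ℂ → ℂ} {K : Set ℂ} (hK : IsCompact K)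
    (h : ∀ z ∈ K, ∃ r : ℝ, 0 < r ∧ TendstoUniformlyOn E e l (closedBall z r)) : TendstoUniformlyOn E e l K := by
  rw [← tendstoLocallyUniformlyOn_iff_tendstoUniformlyOn_of_compact hK]
  intro u hu z hz
  obtain ⟨r, hr, h1⟩ := h z hz
  exact ⟨closedBall z r, mem_nhdsWithin_of_mem_nhds (closedBall_mem_nhds z hr), h1 u hu⟩

theorem inv_unif {l : Filter ℕ} {E : ℕ → ℂ → ℂ} {e : ℂ → ℂ} {S : Set ℂ} {m : ℝ} (hm : 0 < m) (he : ∀ z ∈ S, m ≤ ‖e z‖)
    (h : TendstoUniformlyOn E e l S) : TendstoUniformlyOn (fun n z => (E n z)⁻¹) (fun z => (e z)⁻¹) l S := by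
  rw [Metric.tendstoUniformlyOn_iff] at h ⊢
  intro ε hε
  have h1 := h (min (m / 2) (ε * m ^ 2 / 2)) (by positivity)
  filter_upwards [h1] with n hn z hz
  have h2 := hn z hz
  rw [dist_eq_norm] at h2 ⊢
  have h3 : ‖e z - E n z‖ < m / 2 := lt_of_lt_of_le h2 (min_le_left _ _)
  have h4 : ‖e z - E n z‖ < ε * m ^ 2 / 2 := lt_of_lt_of_le h2 (min_le_right _ _)
  have h5 := he z hz
  have h6 : m / 2 < ‖E n z‖ := by
    have := norm_sub_norm_le (e z) (E n z)
    linarith
  have he0 : e z ≠ 0 := by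
    rintro h0
    rw [h0, norm_zero] at h5
    linarith
  have hE0 : E n z ≠ 0 := by
    rintro h0
    rw [h0, norm_zero] at h6
    linarith
  have h7 : (e z)⁻¹ - (E n z)⁻¹ = (E n z - e z) / (e z * E n z) := by
    field_simp
  rw [h7, norm_div, norm_mul, norm_sub_rev, div_lt_iff₀ (by positivity)]
  have h8 : m * (m / 2) ≤ ‖e z‖ * ‖E n z‖ := mul_le_mul h5 h6.le (by positivity) (by positivity)
  calc ‖e z - E n z‖ < ε * m ^ 2 / 2 := h4
    _ = ε * (m * (m / 2)) := by ring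
    _ ≤ ε * (‖e z‖ * ‖E n z‖) := mul_le_mul_of_nonneg_left h8 hε.le

/-- maximum principle: uniform Cauchy sequences on the circle are uniform Cauchy sequences on the disc -/
theorem cauchy_disc {l : Filter ℕ} {E : ℕ → ℂ → ℂ} {z₀ : ℂ} {r : ℝ} (hr : 0 < r)
    (hE : ∀ᶠ n in l, DifferentiableOn ℂ (E n) (closedBall z₀ r)) (h : UniformCauchySeqOn E l (sphere z₀ r)) :
    UniformCauchySeqOn E l (closedBall z₀ r) := by
  intro u hu
  obtain ⟨ε, hε, hεu⟩ := Metric.mem_uniformity_dist.1 hu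
  have h1 := h _ (Metric.dist_mem_uniformity (half_pos hε))
  have h2 : ∀ᶠ m in l ×ˢ l, DifferentiableOn ℂ (E m.1) (closedBall z₀ r) ∧ DifferentiableOn ℂ (E m.2) (closedBall z₀ r) := hE.prod_mk hE
  filter_upwards [h1, h2] with m hm1 hm2 z hz
  apply hεu
  have hd : DiffContOnCl ℂ (fun w => E m.1 w - E m.2 w) (ball z₀ r) := by
    apply DifferentiableOn.diffContOnCl
    rw [closure_ball z₀ hr.ne']
    exact hm2.1.sub hm2.2
  have h3 : ‖E m.1 z - E m.2 z‖ ≤ ε / 2 := by
    refine Complex.norm_le_of_forall_mem_frontier_norm_le (U := ball z₀ r) isBounded_ball hd ?_ ?_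
    · intro w hw
      rw [frontier_ball z₀ hr.ne'] at hw
      have h4 := hm1 w hw
      change dist (E m.1 w) (E m.2 w) < ε / 2 at h4
      rw [dist_eq_norm] at h4
      exact h4.le
    · rw [closure_ball z₀ hr.ne']
      exact hz
  rw [dist_eq_norm]
  linarith

/-- **Limits of functions without zeros.** -/
theorem exists_limit {l : Filter ℕ} [l.NeBot] (hl : l ≤ atTop) {E : ℕ → ℂ → ℂ} {e : ℂ → ℂ} {Z : Set ℂ} (hZ : ∀ z, ∃ r : ℝ, 0 < r ∧ ∀ w ∈ closedBall z r, w ≠ z → w ∉ Z)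
    (hE : ∀ n : ℕ, DifferentiableOn ℂ (E n) (ball 0 (n + 1))) (hE0 : ∀ n : ℕ, ∀ z ∈ ball (0 : ℂ) (n + 1), E n z ≠ 0)
    (hlim : ∀ z, z ∉ Z → ∃ r : ℝ, 0 < r ∧ TendstoUniformlyOn E e l (closedBall z r)) (he0 : ∀ z, z ∉ Z → e z ≠ 0) :
    ∃ g : ℂ → ℂ, Differentiable ℂ g ∧ (∀ z, g z ≠ 0) ∧ (∀ z, z ∉ Z → g z = e z) ∧
      ∀ R : ℝ, TendstoUniformlyOn E g l (closedBall 0 R) := by
  -- eventually a disc is in the domain
  have hdom : ∀ R : ℝ, ∀ᶠ n : ℕ in l, closedBall (0 : ℂ) R ⊆ ball 0 (n + 1) := by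
    intro R
    obtain ⟨n₀, hn₀⟩ := exists_nat_gt R
    filter_upwards [hl (eventually_ge_atTop n₀)] with n hn z hz
    rw [mem_closedBall_zero_iff] at hz
    rw [mem_ball_zero_iff]
    have : (n₀ : ℝ) ≤ n := by exact_mod_cast hn
    linarith
  have hdom' : ∀ (z₀ : ℂ) (r : ℝ), ∀ᶠ n : ℕ in l, closedBall z₀ r ⊆ ball 0 (n + 1) := by
    intro z₀ r
    filter_upwards [hdom (‖z₀‖ + r)] with n hn z hz
    apply hn
    rw [mem_closedBall_zero_iff]
    rw [mem_closedBall, dist_eq_norm] at hz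
    have := norm_sub_norm_le z z₀
    linarith
  have key : ∀ z₀ : ℂ, ∃ r : ℝ, 0 < r ∧ UniformCauchySeqOn E l (closedBall z₀ r) ∧
      UniformCauchySeqOn (fun n z => (E n z)⁻¹) l (closedBall z₀ r) := by
    intro z₀
    obtain ⟨r, hr, hrZ⟩ := hZ z₀
    have hsZ : ∀ w ∈ sphere z₀ r, w ∉ Z := by
      intro w hw
      refine hrZ w (sphere_subset_closedBall hw) ?_
      rintro rfl
      rw [mem_sphere, dist_self] at hw
      exact hr.ne hw
    have h1 : TendstoUniformlyOn E e l (sphere z₀ r) :=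
      unif_of_local (isCompact_sphere z₀ r) fun z hz => hlim z (hsZ z hz)
    have hcE : ∀ᶠ n in l, ContinuousOn (E n) (sphere z₀ r) := by
      filter_upwards [hdom' z₀ r] with n hn
      exact (hE n).continuousOn.mono (sphere_subset_closedBall.trans hn)
    have hc : ContinuousOn e (sphere z₀ r) := h1.continuousOn hcE.frequently
    obtain ⟨m, hm, hme⟩ : ∃ m : ℝ, 0 < m ∧ ∀ z ∈ sphere z₀ r, m ≤ ‖e z‖ := by
      have hne : (sphere z₀ r).Nonempty := NormedSpace.sphere_nonempty.2 hr.le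
      obtain ⟨w, hw, hwm⟩ := (isCompact_sphere z₀ r).exists_isMinOn hne hc.norm
      exact ⟨‖e w‖, norm_pos_iff.2 (he0 w (hsZ w hw)), fun z hz => hwm hz⟩
    refine ⟨r, hr, cauchy_disc hr ?_ h1.uniformCauchySeqOn, cauchy_disc hr ?_ (inv_unif hm hme h1).uniformCauchySeqOn⟩
    · filter_upwards [hdom' z₀ r] with n hn
      exact (hE n).mono hn
    · filter_upwards [hdom' z₀ r] with n hn
      exact ((hE n).mono hn).inv fun z hz => hE0 n z (hn hz)
  -- the pointwise limits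
  have hpt : ∀ z, ∃ g : ℂ, Tendsto (fun n => E n z) l (𝓝 g) := by
    intro z
    obtain ⟨r, hr, h1, -⟩ := key z
    exact cauchy_map_iff_exists_tendsto.1 (h1.cauchy_map (mem_closedBall_self hr.le))
  have hpt' : ∀ z, ∃ g : ℂ, Tendsto (fun n => (E n z)⁻¹) l (𝓝 g) := by
    intro z
    obtain ⟨r, hr, -, h1⟩ := key z
    exact cauchy_map_iff_exists_tendsto.1 (h1.cauchy_map (mem_closedBall_self hr.le))
  choose g hg using hpt
  choose g' hg' using hpt'
  have hloc : ∀ z₀ : ℂ, ∃ r : ℝ, 0 < r ∧ TendstoUniformlyOn E g l (closedBall z₀ r) := by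
    intro z₀
    obtain ⟨r, hr, h1, -⟩ := key z₀
    exact ⟨r, hr, h1.tendstoUniformlyOn_of_tendsto fun z _ => hg z⟩
  refine ⟨g, ?_, ?_, ?_, ?_⟩
  · intro z₀
    obtain ⟨r, hr, h1⟩ := hloc z₀
    have h2 : TendstoLocallyUniformlyOn E g l (ball z₀ r) := (h1.mono ball_subset_closedBall).tendstoLocallyUniformlyOn
    have h3 : ∀ᶠ n in l, DifferentiableOn ℂ (E n) (ball z₀ r) := by
      filter_upwards [hdom' z₀ r] with n hn
      exact (hE n).mono (ball_subset_closedBall.trans hn)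
    exact (h2.differentiableOn h3 isOpen_ball).differentiableAt (ball_mem_nhds z₀ hr)
  · intro z h0
    have h1 : Tendsto (fun n => E n z * (E n z)⁻¹) l (𝓝 (g z * g' z)) := (hg z).mul (hg' z)
    have h2 : Tendsto (fun n => E n z * (E n z)⁻¹) l (𝓝 1) := by
      apply tendsto_const_nhds.congr'
      filter_upwards [hdom' z 1] with n hn
      rw [mul_inv_cancel₀ (hE0 n z (hn (mem_closedBall_self zero_le_one)))]
    have h3 := tendsto_nhds_unique h1 h2
    rw [h0, zero_mul] at h3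
    exact zero_ne_one h3
  · intro z hz
    obtain ⟨r, hr, h1⟩ := hlim z hz
    exact tendsto_nhds_unique (hg z) (h1.tendsto_at (mem_closedBall_self hr.le))
  · exact fun R => unif_of_local (isCompact_closedBall 0 R) fun z _ => hloc z

end Pool.Agent.H13.LU

end

section

/-!
# LU Logs: convergence of logarithms

If `E n` has no zeros on the disc of radius `n + 1` and converges locally uniformly to `exp φ`, then there are holomorphic logarithms `Φ n` of `E n` which converge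
locally uniformly to `φ`.
-/

set_option autoImplicit false

open Topology Filter Metric

namespace Pool.Agent.H13.LU

attribute [-instance] ProperSMul.toContinuousSMul

/-- A holomorphic logarithm on a convex open set. -/
theorem exists_log {U : Set ℂ} (hUo : IsOpen U) (hUc : Convex ℝ U) (hUn : U.Nonempty) {k : ℂ → ℂ}
    (hk : DifferentiableOn ℂ k U) (hk0 : ∀ w ∈ U, k w ≠ 0) :
    ∃ G : ℂ → ℂ, DifferentiableOn ℂ G U ∧ ∀ w ∈ U, Complex.exp (G w) = k w := by
  have hsc : IsSimplyConnected U := by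
    have := hUc.contractibleSpace hUn
    exact SimplyConnectedSpace.ofContractible U
  obtain ⟨G, hGc, hGe⟩ := Complex.exists_continuousOn_eqOn_exp_comp hsc hUo hk.continuousOn
    (by rintro ⟨w, hw, h0⟩; exact hk0 w hw h0)
  refine ⟨G, ?_, fun w hw => hGe hw⟩
  intro w0 hw0
  apply DifferentiableAt.differentiableWithinAt
  have hkd : DifferentiableAt ℂ k w0 := (hk w0 hw0).differentiableAt (hUo.mem_nhds hw0)
  have hGca : ContinuousAt G w0 := hGc.continuousAt (hUo.mem_nhds hw0)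
  have hev : G =ᶠ[𝓝 w0] fun w => G w0 + Complex.log (k w / k w0) := by
    have h1 : ∀ᶠ w in 𝓝 w0, w ∈ U := hUo.mem_nhds hw0
    have h2 : ∀ᶠ w in 𝓝 w0, ‖G w - G w0‖ < Real.pi := by
      have : Tendsto (fun w => ‖G w - G w0‖) (𝓝 w0) (𝓝 ‖G w0 - G w0‖) :=
        (hGca.sub continuousAt_const).norm
      rw [sub_self, norm_zero] at this
      exact this.eventually (gt_mem_nhds Real.pi_pos)
    filter_upwards [h1, h2] with w hw hw2
    have e1 : k w / k w0 = Complex.exp (G w - G w0) := by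
      rw [Complex.exp_sub]
      have e2 : Complex.exp (G w) = k w := hGe hw
      have e3 : Complex.exp (G w0) = k w0 := hGe hw0
      rw [e2, e3]
    have h3 : |(G w - G w0).im| < Real.pi := (Complex.abs_im_le_norm _).trans_lt hw2
    rw [e1, Complex.log_exp (by linarith [(abs_lt.mp h3).1]) (abs_lt.mp h3).2.le]
    ring
  refine DifferentiableAt.congr_of_eventuallyEq ?_ hev
  apply DifferentiableAt.const_add
  apply DifferentiableAt.clog (hkd.div_const _)
  rw [div_self (hk0 w0 hw0)]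
  exact Complex.one_mem_slitPlane

/-- a function with values in `2 π i ℤ` is constant -/
theorem const_of_exp_eq_one {U : Set ℂ} (hUo : IsOpen U) (hUc : Convex ℝ U) {d : ℂ → ℂ} (hd : DifferentiableOn ℂ d U)
    (h1 : ∀ w ∈ U, Complex.exp (d w) = 1) {x y : ℂ} (hx : x ∈ U) (hy : y ∈ U) : d x = d y := by
  refine hUo.is_const_of_deriv_eq_zero hUc.isPreconnected hd ?_ hx hy
  intro w hw
  have hdw : DifferentiableAt ℂ d w := (hd w hw).differentiableAt (hUo.mem_nhds hw)
  have h2 : HasDerivAt (fun z => Complex.exp (d z)) (Complex.exp (d w) * deriv d w) w := hdw.hasDerivAt.cexp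
  have h3 : HasDerivAt (fun z => Complex.exp (d z)) 0 w := by
    apply (hasDerivAt_const w (1 : ℂ)).congr_of_eventuallyEq
    filter_upwards [hUo.mem_nhds hw] with z hz using h1 z hz
  have h4 := h2.unique h3
  rw [h1 w hw, one_mul] at h4
  exact h4

/-- **Convergence of logarithms.** -/
theorem exists_logs {l : Filter ℕ} (hl : l ≤ atTop) {E : ℕ → ℂ → ℂ} {φ : ℂ → ℂ} (hφ : Differentiable ℂ φ)
    (hE : ∀ n : ℕ, DifferentiableOn ℂ (E n) (ball 0 (n + 1))) (hE0 : ∀ n : ℕ, ∀ z ∈ ball (0 : ℂ) (n + 1), E n z ≠ 0)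
    (hlim : ∀ R : ℝ, TendstoUniformlyOn E (fun z => Complex.exp (φ z)) l (closedBall 0 R)) :
    ∃ Φ : ℕ → ℂ → ℂ, (∀ n : ℕ, DifferentiableOn ℂ (Φ n) (ball 0 (n + 1))) ∧
      (∀ n : ℕ, ∀ z ∈ ball (0 : ℂ) (n + 1), Complex.exp (Φ n z) = E n z) ∧
      ∀ R : ℝ, TendstoUniformlyOn Φ φ l (closedBall 0 R) := by
  have h0m : ∀ n : ℕ, (0 : ℂ) ∈ ball (0 : ℂ) (n + 1) := fun n => mem_ball_self (by positivity)
  have hex : ∀ n : ℕ, ∃ G : ℂ → ℂ, DifferentiableOn ℂ G (ball 0 (n + 1)) ∧ ∀ w ∈ ball (0 : ℂ) (n + 1), Complex.exp (G w) = E n w :=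
    fun n => exists_log isOpen_ball (convex_ball _ _) ⟨0, h0m n⟩ (hE n) (hE0 n)
  choose G hG hGe using hex
  refine ⟨fun n z => G n z - G n 0 + (φ 0 + Complex.log (E n 0 * Complex.exp (-φ 0))), fun n => ?_, fun n z hz => ?_, fun R => ?_⟩
  · exact ((hG n).sub_const _).add_const _
  · have h1 : E n 0 * Complex.exp (-φ 0) ≠ 0 := mul_ne_zero (hE0 n 0 (h0m n)) (Complex.exp_ne_zero _)
    rw [Complex.exp_add, Complex.exp_sub, Complex.exp_add, Complex.exp_log h1, hGe n z hz, hGe n 0 (h0m n), Complex.exp_neg]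
    have h2 := Complex.exp_ne_zero (φ 0)
    have h3 := hE0 n 0 (h0m n)
    field_simp
  · -- on a larger disc
    set R' : ℝ := |R| + 1 with hR'
    have hR'0 : 0 < R' := by positivity
    have hRR' : R < R' := by
      have := le_abs_self R
      linarith
    obtain ⟨M, hM⟩ : ∃ M : ℝ, ∀ z ∈ closedBall (0 : ℂ) R', ‖Complex.exp (-φ z)‖ ≤ M :=
      (isCompact_closedBall (0 : ℂ) R').exists_bound_of_continuousOn (Complex.continuous_exp.comp hφ.continuous.neg).continuousOn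
    have hM1 : 0 < |M| + 1 := by positivity
    rw [Metric.tendstoUniformlyOn_iff]
    intro ε hε
    have h1 := Metric.tendstoUniformlyOn_iff.1 (hlim R') (min (1 / 2) (ε / 2) / (|M| + 1)) (by positivity)
    obtain ⟨n₀, hn₀⟩ := exists_nat_gt R'
    filter_upwards [h1, hl (eventually_ge_atTop n₀)] with n hn hn' z hz
    have hn1 : R' < n + 1 := by
      have : (n₀ : ℝ) ≤ n := by exact_mod_cast hn'
      linarith
    have hsub : ball (0 : ℂ) R' ⊆ ball 0 (n + 1) := ball_subset_ball hn1.le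
    -- the quotient is close to one
    have hq : ∀ w ∈ closedBall (0 : ℂ) R', ‖E n w * Complex.exp (-φ w) - 1‖ < min (1 / 2) (ε / 2) := by
      intro w hw
      have h2 := hn w hw
      rw [dist_eq_norm] at h2
      have h3 : E n w * Complex.exp (-φ w) - 1 = (E n w - Complex.exp (φ w)) * Complex.exp (-φ w) := by
        rw [sub_mul, ← Complex.exp_add, add_neg_cancel, Complex.exp_zero]
      rw [h3, norm_mul, norm_sub_rev]
      rw [lt_div_iff₀ hM1] at h2
      refine lt_of_le_of_lt (mul_le_mul_of_nonneg_left ((hM w hw).trans ((le_abs_self M).trans (by linarith))) (norm_nonneg _)) h2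
    have hq' : ∀ w ∈ closedBall (0 : ℂ) R', E n w * Complex.exp (-φ w) ∈ Complex.slitPlane := by
      intro w hw
      have h2 : ‖E n w * Complex.exp (-φ w) - 1‖ < 1 := (hq w hw).trans_le ((min_le_left _ _).trans (by norm_num))
      have h3 := Complex.mem_slitPlane_of_norm_lt_one h2
      rwa [add_sub_cancel] at h3
    -- the difference
    set d : ℂ → ℂ := fun w => (G n w - G n 0 + (φ 0 + Complex.log (E n 0 * Complex.exp (-φ 0)))) - φ w -
      Complex.log (E n w * Complex.exp (-φ w)) with hd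
    have hdd : DifferentiableOn ℂ d (ball 0 R') := by
      have h2 : DifferentiableOn ℂ (fun w => E n w * Complex.exp (-φ w)) (ball 0 R') :=
        ((hE n).mono hsub).mul (hφ.neg.cexp).differentiableOn
      refine DifferentiableOn.sub (DifferentiableOn.sub ?_ hφ.differentiableOn) ?_
      · exact (((hG n).mono hsub).sub_const _).add_const _
      · exact h2.clog fun w hw => hq' w (ball_subset_closedBall hw)
    have hde : ∀ w ∈ ball (0 : ℂ) R', Complex.exp (d w) = 1 := by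
      intro w hw
      have h2 : E n w * Complex.exp (-φ w) ≠ 0 := mul_ne_zero (hE0 n w (hsub hw)) (Complex.exp_ne_zero _)
      have h1 : E n 0 * Complex.exp (-φ 0) ≠ 0 := mul_ne_zero (hE0 n 0 (h0m n)) (Complex.exp_ne_zero _)
      rw [hd]
      simp only
      rw [Complex.exp_sub, Complex.exp_sub, Complex.exp_add, Complex.exp_sub, Complex.exp_add, Complex.exp_log h1, Complex.exp_log h2,
        hGe n w (hsub hw), hGe n 0 (h0m n), Complex.exp_neg, Complex.exp_neg]
      have h4 := Complex.exp_ne_zero (φ 0)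
      have h5 := Complex.exp_ne_zero (φ w)
      have h6 := hE0 n 0 (h0m n)
      have h7 := hE0 n w (hsub hw)
      field_simp
    have hzR : z ∈ ball (0 : ℂ) R' := by
      rw [mem_closedBall_zero_iff] at hz
      rw [mem_ball_zero_iff]
      linarith
    have hd0 : d z = d 0 := const_of_exp_eq_one isOpen_ball (convex_ball _ _) hdd hde hzR (mem_ball_self hR'0)
    have hd00 : d 0 = 0 := by
      rw [hd]
      simp only
      ring
    rw [hd00] at hd0
    have h5 : G n z - G n 0 + (φ 0 + Complex.log (E n 0 * Complex.exp (-φ 0))) - φ z = Complex.log (E n z * Complex.exp (-φ z)) := by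
      rw [hd] at hd0
      simp only at hd0
      exact sub_eq_zero.1 hd0
    rw [dist_eq_norm, norm_sub_rev, h5]
    have h6 := hq z (ball_subset_closedBall hzR)
    have h7 : ‖E n z * Complex.exp (-φ z) - 1‖ ≤ 1 / 2 := h6.le.trans (min_le_left _ _)
    have h8 := Complex.norm_log_one_add_half_le_self h7
    rw [add_sub_cancel] at h8
    have h9 : ‖E n z * Complex.exp (-φ z) - 1‖ < ε / 2 := h6.trans_le (min_le_right _ _)
    calc ‖Complex.log (E n z * Complex.exp (-φ z))‖ ≤ 3 / 2 * ‖E n z * Complex.exp (-φ z) - 1‖ := h8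
      _ < 3 / 2 * (ε / 2) := by linarith
      _ < ε := by linarith

end Pool.Agent.H13.LU

end

section

/-!
# LU Quad: an entire function whose real part has quadratic mean growth is a polynomial of degree at most two
-/

set_option autoImplicit false

open Topology Filter Metric

namespace Pool.Agent.H13.LU

attribute [-instance] ProperSMul.toContinuousSMul

/-- The Taylor coefficient as a mean value. -/
theorem coeff_eq {φ : ℂ → ℂ} {R : ℝ} (hR : R ≠ 0) (k : ℕ) :
    (cauchyPowerSeries φ 0 R k fun _ => 1) = Real.circleAverage (fun z => (z⁻¹) ^ k * φ z) 0 R := by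
  rw [cauchyPowerSeries_apply, Real.circleAverage_eq_circleIntegral hR]
  simp only [sub_zero, one_div, smul_eq_mul]
  congr 2
  ext z
  ring

theorem norm_circleAverage_le {g : ℂ → ℂ} {R : ℝ} : ‖Real.circleAverage g 0 R‖ ≤ Real.circleAverage (fun z => ‖g z‖) 0 R := by
  rw [Real.circleAverage_def, Real.circleAverage_def, norm_smul, smul_eq_mul, Real.norm_of_nonneg (by positivity)]
  apply mul_le_mul_of_nonneg_left _ (by positivity)
  exact intervalIntegral.norm_integral_le_integral_norm (by positivity)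

theorem average_conj {φ : ℂ → ℂ} (hφ : Differentiable ℂ φ) {R : ℝ} (hR : 0 < R) {k : ℕ} (hk : 1 ≤ k) :
    Real.circleAverage (fun z => (z⁻¹) ^ k * (starRingEnd ℂ) (φ z)) 0 R = 0 := by
  have h1 : Real.circleAverage (fun z => z ^ k * φ z) 0 R = 0 := by
    have hd : Differentiable ℂ fun z => z ^ k * φ z := (differentiable_id.pow k).mul hφ
    have h2 := DiffContOnCl.circleAverage (f := fun z => z ^ k * φ z) (c := 0) (R := R) hd.diffContOnCl
    rw [h2]
    simp [show k ≠ 0 by omega]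
  have h2 : Real.circleAverage (fun z => (starRingEnd ℂ) (((R : ℂ) ^ (2 * k))⁻¹ * (z ^ k * φ z))) 0 R = 0 := by
    have hc : CircleIntegrable (fun z => ((R : ℂ) ^ (2 * k))⁻¹ * (z ^ k * φ z)) 0 R := by
      apply ContinuousOn.circleIntegrable'
      exact (continuous_const.mul ((continuous_id.pow k).mul hφ.continuous)).continuousOn
    have h3 := ContinuousLinearMap.circleAverage_comp_comm (c := 0) (R := R) (f := fun z => ((R : ℂ) ^ (2 * k))⁻¹ * (z ^ k * φ z))
      (Complex.conjCLE : ℂ →L[ℝ] ℂ) hc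
    have h4 : ((Complex.conjCLE : ℂ →L[ℝ] ℂ) ∘ fun z => ((R : ℂ) ^ (2 * k))⁻¹ * (z ^ k * φ z)) =
        fun z => (starRingEnd ℂ) (((R : ℂ) ^ (2 * k))⁻¹ * (z ^ k * φ z)) := by
      ext z
      rfl
    rw [h4] at h3
    rw [h3]
    have h5 : Real.circleAverage (fun z => ((R : ℂ) ^ (2 * k))⁻¹ * (z ^ k * φ z)) 0 R = 0 := by
      have h6 := Real.circleAverage_fun_smul (a := ((R : ℂ) ^ (2 * k))⁻¹) (f := fun z => z ^ k * φ z) (c := 0) (R := R)
      simp only [smul_eq_mul] at h6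
      rw [h6, h1, mul_zero]
    rw [h5, map_zero]
  refine Eq.trans (Real.circleAverage_congr_sphere ?_) h2
  intro z hz
  rw [abs_of_pos hR, mem_sphere_zero_iff_norm] at hz
  have hz0 : z ≠ 0 := by
    rintro rfl
    rw [norm_zero] at hz
    exact hR.ne hz
  have hR0 : (R : ℂ) ≠ 0 := by exact_mod_cast hR.ne'
  have hzz : (starRingEnd ℂ) z = (R : ℂ) ^ 2 * z⁻¹ := by
    rw [eq_mul_inv_iff_mul_eq₀ hz0, mul_comm, Complex.mul_conj, Complex.normSq_eq_norm_sq, hz]
    push_cast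
    ring
  simp only [map_mul, map_pow, map_inv₀, Complex.conj_ofReal]
  rw [hzz, mul_pow, ← pow_mul]
  field_simp

/-- **Entire functions with real part of quadratic mean growth.** -/
theorem quadratic_of_mean {φ : ℂ → ℂ} (hφ : Differentiable ℂ φ) {A : ℝ}
    (hA : ∀ r : ℝ, 1 ≤ r → Real.circleAverage (fun z => |(φ z).re|) 0 r ≤ A * (1 + r ^ 2)) :
    ∃ a b c : ℂ, ∀ z, φ z = a * z ^ 2 + b * z + c := by
  have hp : HasFPowerSeriesOnBall φ (cauchyPowerSeries φ 0 ((1 : NNReal) : ℝ)) 0 ⊤ :=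
    hφ.hasFPowerSeriesOnBall (R := 1) 0 one_pos
  set p := cauchyPowerSeries φ 0 ((1 : NNReal) : ℝ) with hpdef
  have hcont : Continuous φ := hφ.continuous
  have hzero : ∀ k : ℕ, 3 ≤ k → (p k fun _ => 1) = 0 := by
    intro k hk
    have hbd : ∀ R : ℝ, 1 ≤ R → ‖p k fun _ => 1‖ ≤ 4 * |A| / R := by
      intro R hR
      have hR0 : (0:ℝ) < R := by linarith
      have hq : HasFPowerSeriesOnBall φ (cauchyPowerSeries φ 0 ((⟨R, hR0.le⟩ : NNReal) : ℝ)) 0 ⊤ :=
        hφ.hasFPowerSeriesOnBall (R := ⟨R, hR0.le⟩) 0 hR0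
      have heq : p = cauchyPowerSeries φ 0 R :=
        hp.hasFPowerSeriesAt.eq_formalMultilinearSeries hq.hasFPowerSeriesAt
      have hsph : ∀ z ∈ sphere (0 : ℂ) |R|, z ≠ 0 := by
        rintro z hz rfl
        rw [mem_sphere_zero_iff_norm, norm_zero] at hz
        rw [eq_comm, abs_eq_zero] at hz
        exact hR0.ne' hz
      have hi1 : CircleIntegrable (fun z => (z⁻¹) ^ k * φ z) 0 R := by
        apply ContinuousOn.circleIntegrable'
        exact ((continuousOn_id.inv₀ hsph).pow k).mul hcont.continuousOn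
      have hi2 : CircleIntegrable (fun z => (z⁻¹) ^ k * (starRingEnd ℂ) (φ z)) 0 R := by
        apply ContinuousOn.circleIntegrable'
        exact ((continuousOn_id.inv₀ hsph).pow k).mul (Complex.continuous_conj.comp hcont).continuousOn
      have h1 : Real.circleAverage (fun z => (z⁻¹) ^ k * φ z) 0 R =
          Real.circleAverage (fun z => (z⁻¹) ^ k * φ z + (z⁻¹) ^ k * (starRingEnd ℂ) (φ z)) 0 R := by
        rw [Real.circleAverage_fun_add hi1 hi2, average_conj hφ hR0 (by omega), add_zero]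
      have h2 : Real.circleAverage (fun z => ‖(z⁻¹) ^ k * φ z + (z⁻¹) ^ k * (starRingEnd ℂ) (φ z)‖) 0 R =
          (2 * (R⁻¹) ^ k) * Real.circleAverage (fun z => |(φ z).re|) 0 R := by
        have h3 := Real.circleAverage_fun_smul (a := (2 * (R⁻¹) ^ k : ℝ)) (f := fun z => |(φ z).re|) (c := 0) (R := R)
        simp only [smul_eq_mul] at h3
        rw [← h3]
        apply Real.circleAverage_congr_sphere
        intro z hz
        rw [abs_of_pos hR0, mem_sphere_zero_iff_norm] at hz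
        simp only
        rw [← mul_add, Complex.add_conj, norm_mul, norm_pow, norm_inv, hz]
        rw [show ((2 * (φ z).re : ℝ) : ℂ) = ((2 * (φ z).re : ℝ) : ℂ) from rfl, Complex.norm_real, Real.norm_eq_abs, abs_mul, abs_two]
        ring
      rw [heq, coeff_eq hR0.ne', h1]
      refine norm_circleAverage_le.trans ?_
      rw [h2]
      have h4 := hA R hR
      have h5 : (R⁻¹) ^ k ≤ (R⁻¹) ^ 3 := pow_le_pow_of_le_one (by positivity) (inv_le_one_of_one_le₀ hR) hk
      have h6 : A * (1 + R ^ 2) ≤ |A| * (2 * R ^ 2) := by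
        have h9 : (1:ℝ) + R ^ 2 ≤ 2 * R ^ 2 := by nlinarith
        calc A * (1 + R ^ 2) ≤ |A| * (1 + R ^ 2) := mul_le_mul_of_nonneg_right (le_abs_self A) (by positivity)
          _ ≤ |A| * (2 * R ^ 2) := mul_le_mul_of_nonneg_left h9 (abs_nonneg A)
      calc (2 * (R⁻¹) ^ k) * Real.circleAverage (fun z => |(φ z).re|) 0 R ≤ (2 * (R⁻¹) ^ k) * (|A| * (2 * R ^ 2)) :=
            mul_le_mul_of_nonneg_left (h4.trans h6) (by positivity)
        _ ≤ (2 * (R⁻¹) ^ 3) * (|A| * (2 * R ^ 2)) := by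
            apply mul_le_mul_of_nonneg_right _ (by positivity)
            linarith
        _ = 4 * |A| / R := by
            field_simp
            ring
    have h0 : ‖p k fun _ => 1‖ ≤ 0 := by
      have ht : Tendsto (fun R : ℝ => 4 * |A| / R) atTop (𝓝 0) := tendsto_const_nhds.div_atTop tendsto_id
      exact ge_of_tendsto ht ((eventually_ge_atTop 1).mono fun R hR => hbd R hR)
    exact norm_le_zero_iff.mp h0
  have happ : ∀ (n : ℕ) (z : ℂ), (p n fun _ => z) = z ^ n * (p n fun _ => 1) := by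
    intro n z
    have := (p n).map_smul_univ (fun _ => z) (fun _ => (1:ℂ))
    simp only [smul_eq_mul, mul_one, Finset.prod_const, Finset.card_univ, Fintype.card_fin] at this
    exact this
  refine ⟨p 2 fun _ => 1, p 1 fun _ => 1, p 0 fun _ => 1, fun z => ?_⟩
  have hs := hp.hasSum (y := z) (by simp)
  rw [zero_add] at hs
  have hs2 : HasSum (fun n : ℕ => p n fun _ => z) (∑ n ∈ Finset.range 3, p n fun _ => z) := by
    apply hasSum_sum_of_ne_finset_zero
    intro n hn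
    have : 3 ≤ n := by
      rw [Finset.mem_range, not_lt] at hn
      exact hn
    rw [happ, hzero n this, mul_zero]
  rw [hs.unique hs2, Finset.sum_range_succ, Finset.sum_range_succ, Finset.sum_range_one, happ 0, happ 1, happ 2]
  ring

end Pool.Agent.H13.LU

end

section

/-!
# LU Ext: the sections which come from limit curves are entire

* `exists_entire`: local extension gives a global extension.
* `extend_at`: extension at a value `φ z₁`, `φ' z₁ ≠ 0`.
* `section_entire`: if `f (φ z) = J z` with `J` entire and `f` periodic, then `f` extends.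
-/

set_option autoImplicit false

open Topology Filter MvPolynomial Metric

noncomputable section

namespace Pool.Agent.H4.LU

attribute [-instance] ProperSMul.toContinuousSMul

open Pool.Agent.H17 (PN VanishesAt HolomorphicInto)

variable {M N : ℕ}

/-- Local extensions give an extension. -/
theorem exists_entire {B : Set ℂ} (hBc : IsClosed B) (hBd : ∀ b, ∀ᶠ w in 𝓝[≠] b, w ∉ B) {f : ℂ → PN M} (hf : HolomorphicInto f Bᶜ)
    (h : ∀ b ∈ B, ∃ g : ℂ → PN M, (∃ r > 0, HolomorphicInto g (ball b r)) ∧ ∀ᶠ w in 𝓝[≠] b, f w = g w) :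
    ∃ f' : ℂ → PN M, HolomorphicInto f' Set.univ ∧ ∀ z, z ∉ B → f' z = f z := by
  classical
  choose g hg hgf using h
  refine ⟨fun z => if hz : z ∈ B then g z hz z else f z, fun z _ => ?_, fun z hz => by simp [hz]⟩
  by_cases hz : z ∈ B
  · obtain ⟨r, hr, hgr⟩ := hg z hz
    obtain ⟨φ, hφ, hφe⟩ := hgr z (mem_ball_self hr)
    refine ⟨φ, hφ, ?_⟩
    have h1 := eventually_nhdsWithin_iff.1 (hgf z hz)
    have h2 := eventually_nhdsWithin_iff.1 (hBd z)
    filter_upwards [hφe, h1, h2] with w h3 h4 h5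
    obtain ⟨h6, h7⟩ := h3
    refine ⟨h6, ?_⟩
    by_cases hwz : w = z
    · subst hwz
      simp only [hz, dite_true]
      exact h7
    · have h8 : w ∉ B := h5 hwz
      simp only [h8, dite_false]
      rw [h4 hwz]
      exact h7
  · obtain ⟨φ, hφ, hφe⟩ := hf z hz
    refine ⟨φ, hφ, ?_⟩
    filter_upwards [hφe, hBc.isOpen_compl.mem_nhds hz] with w h3 h4
    obtain ⟨h6, h7⟩ := h3
    refine ⟨h6, ?_⟩
    simp only [show w ∉ B from h4, dite_false]
    exact h7

/-- Extension at a point `b = φ z₁ - c'`, `φ' z₁ ≠ 0`. -/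
theorem extend_at {f J : ℂ → PN M} (hJ : HolomorphicInto J Set.univ) {φ : ℂ → ℂ} {z₁ b c' : ℂ} (hφ : AnalyticAt ℂ φ z₁) (hφ' : deriv φ z₁ ≠ 0)
    (hb : φ z₁ = b + c') (h : ∀ᶠ z in 𝓝[≠] z₁, J z = f (φ z)) (hper : ∀ᶠ w in 𝓝[≠] b, f (w + c') = f w) :
    ∃ g : ℂ → PN M, (∃ r > 0, HolomorphicInto g (ball b r)) ∧ ∀ᶠ w in 𝓝[≠] b, f w = g w := by
  -- the local inverse
  obtain ⟨ψ, hψ, hψ0, hψφ⟩ : ∃ ψ : ℂ → ℂ, AnalyticAt ℂ ψ (φ z₁) ∧ ψ (φ z₁) = z₁ ∧ ∀ᶠ w in 𝓝 (φ z₁), φ (ψ w) = w := by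
    have hd : HasStrictDerivAt φ (deriv φ z₁) z₁ := hφ.hasStrictDerivAt
    have hcd : ContDiffAt ℂ 1 φ z₁ := hφ.contDiffAt
    let f' : ℂ ≃L[ℂ] ℂ := ContinuousLinearEquiv.unitsEquivAut ℂ (Units.mk0 _ hφ')
    have hfd : HasFDerivAt φ (f' : ℂ →L[ℂ] ℂ) z₁ := hd.hasDerivAt.hasFDerivAt_equiv hφ'
    refine ⟨hcd.localInverse hfd one_ne_zero, ?_, ?_, ?_⟩
    · have h1 : ContDiffAt ℂ 1 (hcd.localInverse hfd one_ne_zero) (φ z₁) := hcd.to_localInverse hfd one_ne_zero
      have h2 : ∀ᶠ w in 𝓝 (φ z₁), DifferentiableAt ℂ (hcd.localInverse hfd one_ne_zero) w := by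
        filter_upwards [h1.eventually (by simp)] with w hw
        exact hw.differentiableAt one_ne_zero
      exact Complex.analyticAt_iff_eventually_differentiableAt.2 h2
    · exact hcd.localInverse_apply_image hfd one_ne_zero
    · exact (hcd.hasStrictFDerivAt' hfd one_ne_zero).eventually_right_inverse
  have hτ : AnalyticAt ℂ (fun w => ψ (w + c')) b := by
    have h1 : AnalyticAt ℂ (fun w : ℂ => w + c') b := analyticAt_id.add analyticAt_const
    exact AnalyticAt.comp (g := ψ) (f := fun w : ℂ => w + c') (by rw [← hb]; exact hψ) h1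
  refine ⟨fun w => J (ψ (w + c')), ?_, ?_⟩
  · obtain ⟨Φ, hΦ, hΦe⟩ := hJ z₁ (Set.mem_univ _)
    have hτ0 : ψ (b + c') = z₁ := by rw [← hb, hψ0]
    obtain ⟨r₁, hr₁, h1⟩ := Metric.eventually_nhds_iff_ball.1 (hΦ.eventually_analyticAt.and hΦe)
    have hτc : Tendsto (fun w => ψ (w + c')) (𝓝 b) (𝓝 z₁) := by
      have := hτ.continuousAt.tendsto
      rwa [hτ0] at this
    obtain ⟨r, hr, h2⟩ := Metric.eventually_nhds_iff_ball.1 (hτ.eventually_analyticAt.and (hτc.eventually (isOpen_ball.mem_nhds (mem_ball_self hr₁))))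
    refine ⟨r, hr, fun w hw => ⟨fun w => Φ (ψ (w + c')), ?_, ?_⟩⟩
    · exact AnalyticAt.comp (g := Φ) (f := fun w => ψ (w + c')) (h1 _ (h2 w hw).2).1 (h2 w hw).1
    · filter_upwards [isOpen_ball.mem_nhds hw] with w' hw'
      exact (h1 _ (h2 w' hw').2).2
  · have h1 : Tendsto (fun w => ψ (w + c')) (𝓝[≠] b) (𝓝[≠] z₁) := by
      rw [tendsto_nhdsWithin_iff]
      refine ⟨?_, ?_⟩
      · have := hτ.continuousAt.tendsto
        rw [← hb, hψ0] at this
        exact this.mono_left nhdsWithin_le_nhds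
      · have h2 : Tendsto (fun w : ℂ => w + c') (𝓝 b) (𝓝 (φ z₁)) := by
          rw [hb]
          exact (continuous_id.add continuous_const).tendsto b
        rw [eventually_nhdsWithin_iff]
        filter_upwards [h2.eventually hψφ] with w h3 h4 h5
        have h5' : ψ (w + c') = z₁ := h5
        rw [h5', hb] at h3
        exact h4 (add_right_cancel h3).symm
    have h2 : Tendsto (fun w : ℂ => w + c') (𝓝[≠] b) (𝓝 (φ z₁)) := by
      rw [hb]
      exact ((continuous_id.add continuous_const).tendsto b).mono_left nhdsWithin_le_nhds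
    filter_upwards [h1.eventually h, h2.eventually hψφ, hper] with w h3 h4 h5
    rw [h3, h4, h5]

/-- A periodic map `f` with isolated singularities extends to all of `ℂ` if `f (φ z)` extends. -/
theorem section_entire {B : Set ℂ} (hBc : IsClosed B) (hBd : ∀ b, ∀ᶠ w in 𝓝[≠] b, w ∉ B) {f : ℂ → PN M} (hf : HolomorphicInto f Bᶜ)
    {c : ℂ} (hper : ∀ k : ℤ, ∀ z, z ∉ B → f (z + k * c) = f z) {φ : ℂ → ℂ} (hφ : ∀ z, AnalyticAt ℂ φ z)
    (hsurj : ∀ b, ∃ (k : ℤ) (z₁ : ℂ), φ z₁ = b + k * c ∧ deriv φ z₁ ≠ 0) {J : ℂ → PN M} (hJ : HolomorphicInto J Set.univ)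
    (h : ∀ z, φ z ∉ B → J z = f (φ z)) : ∃ f' : ℂ → PN M, HolomorphicInto f' Set.univ ∧ ∀ z, z ∉ B → f' z = f z := by
  refine exists_entire hBc hBd hf fun b hb => ?_
  obtain ⟨k, z₁, hz₁, hz₁'⟩ := hsurj b
  refine extend_at hJ (hφ z₁) hz₁' hz₁ ?_ ?_
  · have h1 : Tendsto φ (𝓝[≠] z₁) (𝓝[≠] (φ z₁)) := by
      rw [tendsto_nhdsWithin_iff]
      refine ⟨(hφ z₁).continuousAt.tendsto.mono_left nhdsWithin_le_nhds, ?_⟩
      exact (hφ z₁).hasStrictDerivAt.hasDerivAt.eventually_ne hz₁'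
    filter_upwards [h1.eventually (hBd (φ z₁))] with z hz
    exact h z hz
  · filter_upwards [hBd b] with w hw
    exact hper k w hw

/-- polynomials of degree one or two -/
theorem surj_of_quadratic {a b c₀ c : ℂ} (hab : a ≠ 0 ∨ b ≠ 0) (hc : c ≠ 0) (w : ℂ) :
    ∃ (k : ℤ) (z₁ : ℂ), a * z₁ ^ 2 + b * z₁ + c₀ = w + k * c ∧ deriv (fun z : ℂ => a * z ^ 2 + b * z + c₀) z₁ ≠ 0 := by
  have hd : ∀ z : ℂ, deriv (fun z : ℂ => a * z ^ 2 + b * z + c₀) z = 2 * a * z + b := by
    intro z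
    have h1 : HasDerivAt (fun z : ℂ => a * z ^ 2 + b * z + c₀) (a * (2 * z) + b * 1) z := by
      have h2 := ((hasDerivAt_pow 2 z).const_mul a).add ((hasDerivAt_id z).const_mul b)
      have h3 := h2.add_const c₀
      simpa using h3
    rw [h1.deriv]
    ring
  by_cases ha : a = 0
  · subst ha
    have hb : b ≠ 0 := by simpa using hab
    refine ⟨0, (w - c₀) / b, ?_, ?_⟩
    · have h1 : b * ((w - c₀) / b) = w - c₀ := mul_div_cancel₀ _ hb
      rw [h1]
      push_cast
      ring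
    · rw [hd]
      simpa using hb
  · -- the critical value
    have hkey : ∀ w : ℂ, w ≠ c₀ - b ^ 2 / (4 * a) → ∃ z₁ : ℂ, a * z₁ ^ 2 + b * z₁ + c₀ = w ∧ 2 * a * z₁ + b ≠ 0 := by
      intro w hw
      obtain ⟨s, hs⟩ := IsAlgClosed.exists_pow_nat_eq (b ^ 2 - 4 * a * (c₀ - w)) (by norm_num : 0 < 2)
      have hs0 : s ≠ 0 := by
        rintro rfl
        apply hw
        have h4 : (4 * a) ≠ 0 := mul_ne_zero (by norm_num) ha
        field_simp
        linear_combination -hs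
      refine ⟨(s - b) / (2 * a), ?_, ?_⟩
      · field_simp
        linear_combination hs
      · field_simp
        simpa using hs0
    by_cases hw : w = c₀ - b ^ 2 / (4 * a)
    · obtain ⟨z₁, h1, h2⟩ := hkey (w + (1 : ℤ) * c) (by
        rw [← hw]
        simpa using hc)
      exact ⟨1, z₁, h1, by rw [hd]; exact h2⟩
    · obtain ⟨z₁, h1, h2⟩ := hkey w hw
      exact ⟨0, z₁, by simpa using h1, by rw [hd]; exact h2⟩

end Pool.Agent.H4.LU

end
end

section

/-!
# LR Dep: algebraic dependence of `t ^ k` and `P (t) / Q (t)`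
-/

set_option autoImplicit false

open Polynomial

noncomputable section

namespace Pool.Agent.H41.LR

attribute [-instance] ProperSMul.toContinuousSMul

/-- `t ^ k` and `P / Q` are algebraically dependent. -/
theorem exists_dep (P Q : ℂ[X]) {k : ℕ} (hk : 0 < k) : ∃ Φ : MvPolynomial (Fin 2) ℂ, Φ ≠ 0 ∧
    ∀ t : ℂ, Q.eval t ≠ 0 → MvPolynomial.eval ![t ^ k, P.eval t / Q.eval t] Φ = 0 := by
  classical
  set D : ℕ := max P.natDegree Q.natDegree with hD
  set A : ℕ := k * D + 1 with hA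
  set n : ℕ := k * A + k * D + 1 with hn
  -- the monomials
  let m : Fin (A + 1) × Fin (k + 1) → ℂ[X] := fun ij => X ^ (k * ij.1.1) * P ^ ij.2.1 * Q ^ (k - ij.2.1)
  have hm : ∀ ij, m ij ∈ degreeLT ℂ n := by
    intro ij
    rw [mem_degreeLT]
    refine (degree_le_natDegree).trans_lt ?_
    rw [Nat.cast_withBot, Nat.cast_withBot, WithBot.coe_lt_coe]
    have h1 : (m ij).natDegree ≤ k * ij.1.1 + ij.2.1 * P.natDegree + (k - ij.2.1) * Q.natDegree := by
      refine natDegree_mul_le.trans (add_le_add (natDegree_mul_le.trans (add_le_add ?_ natDegree_pow_le)) natDegree_pow_le)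
      rw [natDegree_X_pow]
    have h2 : ij.1.1 ≤ A := Nat.lt_succ_iff.1 ij.1.2
    have h3 : ij.2.1 ≤ k := Nat.lt_succ_iff.1 ij.2.2
    have h4 : ij.2.1 * P.natDegree + (k - ij.2.1) * Q.natDegree ≤ k * D := by
      calc ij.2.1 * P.natDegree + (k - ij.2.1) * Q.natDegree ≤ ij.2.1 * D + (k - ij.2.1) * D :=
            add_le_add (Nat.mul_le_mul_left _ (le_max_left _ _)) (Nat.mul_le_mul_left _ (le_max_right _ _))
        _ = k * D := by rw [← add_mul, Nat.add_sub_of_le h3]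
    have h5 : k * ij.1.1 ≤ k * A := Nat.mul_le_mul_left _ h2
    omega
  let L : (Fin (A + 1) × Fin (k + 1) → ℂ) →ₗ[ℂ] degreeLT ℂ n :=
    { toFun := fun c => ∑ ij, c ij • ⟨m ij, hm ij⟩
      map_add' := by
        intro c c'
        rw [← Finset.sum_add_distrib]
        exact Finset.sum_congr rfl fun ij _ => add_smul _ _ _
      map_smul' := by
        intro a c
        rw [RingHom.id_apply, Finset.smul_sum]
        exact Finset.sum_congr rfl fun ij _ => by rw [Pi.smul_apply, smul_smul, smul_eq_mul] }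
  have hrank : Module.finrank ℂ (degreeLT ℂ n) = n := by
    rw [LinearEquiv.finrank_eq (degreeLTEquiv ℂ n), Module.finrank_fin_fun]
  have hlt : Module.finrank ℂ (degreeLT ℂ n) < Module.finrank ℂ (Fin (A + 1) × Fin (k + 1) → ℂ) := by
    rw [hrank, Module.finrank_fintype_fun_eq_card, Fintype.card_prod, Fintype.card_fin, Fintype.card_fin]
    have h1 : (A + 1) * (k + 1) = A * k + A + k + 1 := by ring
    rw [h1, hn, mul_comm k A]
    omega
  have : FiniteDimensional ℂ (degreeLT ℂ n) := Module.Finite.equiv (degreeLTEquiv ℂ n).symm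
  have hker : LinearMap.ker L ≠ ⊥ := LinearMap.ker_ne_bot_of_finrank_lt hlt
  obtain ⟨c, hc, hc0⟩ := (Submodule.ne_bot_iff _).1 hker
  rw [LinearMap.mem_ker] at hc
  have hc' : ∑ ij, c ij • m ij = 0 := by
    have h1 := congrArg (Subtype.val) hc
    have h2 : ((∑ ij, c ij • (⟨m ij, hm ij⟩ : degreeLT ℂ n) : degreeLT ℂ n) : ℂ[X]) = 0 := h1
    rw [AddSubmonoidClass.coe_finsetSum] at h2
    exact h2
  -- the polynomial
  let e : Fin (A + 1) × Fin (k + 1) → (Fin 2 →₀ ℕ) := fun ij => Finsupp.single 0 ij.1.1 + Finsupp.single 1 ij.2.1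
  have he : Function.Injective e := by
    intro x y hxy
    have h0 := DFunLike.congr_fun hxy 0
    have h1 := DFunLike.congr_fun hxy 1
    simp only [e, Finsupp.coe_add, Pi.add_apply, Finsupp.single_eq_same] at h0 h1
    rw [Finsupp.single_eq_of_ne (by decide), Finsupp.single_eq_of_ne (by decide)] at h0 h1
    refine Prod.ext (Fin.ext ?_) (Fin.ext ?_)
    · simpa using h0
    · simpa using h1
  refine ⟨∑ ij, MvPolynomial.monomial (e ij) (c ij), ?_, ?_⟩
  · intro h0
    apply hc0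
    funext ij
    have h1 := congrArg (MvPolynomial.coeff (e ij)) h0
    rw [MvPolynomial.coeff_sum, MvPolynomial.coeff_zero, Finset.sum_eq_single ij] at h1
    · rwa [MvPolynomial.coeff_monomial, if_pos rfl] at h1
    · intro x _ hx
      rw [MvPolynomial.coeff_monomial, if_neg (fun h => hx (he h))]
    · intro h
      exact absurd (Finset.mem_univ _) h
  · intro t ht
    have h1 := congrArg (Polynomial.eval t) hc'
    rw [Polynomial.eval_finsetSum, Polynomial.eval_zero] at h1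
    have h2 : MvPolynomial.eval ![t ^ k, P.eval t / Q.eval t] (∑ ij, MvPolynomial.monomial (e ij) (c ij)) * (Q.eval t) ^ k = 0 := by
      rw [map_sum, Finset.sum_mul, ← h1]
      refine Finset.sum_congr rfl fun ij _ => ?_
      have h3 : ij.2.1 ≤ k := Nat.lt_succ_iff.1 ij.2.2
      obtain ⟨d, hd⟩ := Nat.exists_eq_add_of_le h3
      rw [MvPolynomial.eval_monomial, Polynomial.eval_smul, smul_eq_mul]
      simp only [m, e, Polynomial.eval_mul, Polynomial.eval_pow, Polynomial.eval_X]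
      rw [Finsupp.prod_add_index' (by simp) (by intro a b c; exact pow_add _ _ _), Finsupp.prod_single_index (by simp),
        Finsupp.prod_single_index (by simp)]
      simp only [Matrix.cons_val_zero, Matrix.cons_val_one, Matrix.cons_val_fin_one]
      have h4 : k - ij.2.1 = d := by omega
      have h5 : (Q.eval t) ^ k = (Q.eval t) ^ ij.2.1 * (Q.eval t) ^ d := by
        rw [← pow_add, ← hd]
      rw [h4, h5, div_pow, ← pow_mul]
      field_simp
    exact (mul_eq_zero.1 h2).resolve_right (pow_ne_zero _ ht)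

end Pool.Agent.H41.LR

end
end

section

/-!
# LR Gr: growth of `log |P (exp z)|`; separation of the bad points
-/

set_option autoImplicit false

open Topology Filter Metric Polynomial

noncomputable section

namespace Pool.Agent.H41.LR

attribute [-instance] ProperSMul.toContinuousSMul

theorem log_bound {x c : ℝ} (h1 : Real.exp (-c) ≤ x) (h2 : x ≤ Real.exp c) : |Real.log x| ≤ c := by
  have hx : 0 < x := (Real.exp_pos _).trans_le h1
  rw [abs_le]
  constructor
  · have h3 := Real.log_le_log (Real.exp_pos _) h1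
    rwa [Real.log_exp] at h3
  · have h3 := Real.log_le_log hx h2
    rwa [Real.log_exp] at h3

/-- one linear factor -/
theorem lin_grow (r : ℂ) {W₀ : ℝ} (hW₀ : 0 ≤ W₀) (hr : r ≠ 0 → |Real.log ‖r‖| + 1 ≤ W₀) {z : ℂ} (hz : W₀ ≤ |z.re|) :
    |Real.log ‖Complex.exp z - r‖| ≤ (W₀ + 2) * (1 + ‖z‖) := by
  have hzr : |z.re| ≤ ‖z‖ := Complex.abs_re_le_norm z
  have hz0 : 0 ≤ ‖z‖ := norm_nonneg z
  by_cases h0 : r = 0
  · rw [h0, sub_zero, Complex.norm_exp, Real.log_exp]
    nlinarith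
  have hr' := hr h0
  have hr0 : 0 < ‖r‖ := norm_pos_iff.2 h0
  set l : ℝ := Real.log ‖r‖ with hl
  have hlr : ‖r‖ = Real.exp l := (Real.exp_log hr0).symm
  have he2 : (2 : ℝ) ≤ Real.exp 1 := by
    have := Real.add_one_le_exp (1 : ℝ)
    linarith
  have hem : Real.exp (-1) ≤ 1 / 2 := by
    rw [Real.exp_neg, one_div]
    exact inv_anti₀ two_pos he2
  have hup : ‖Complex.exp z - r‖ ≤ ‖Complex.exp z‖ + ‖r‖ := norm_sub_le _ _
  have hlo1 : ‖Complex.exp z‖ - ‖r‖ ≤ ‖Complex.exp z - r‖ := norm_sub_norm_le _ _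
  have hlo2 : ‖r‖ - ‖Complex.exp z‖ ≤ ‖Complex.exp z - r‖ := by
    rw [norm_sub_rev]
    exact norm_sub_norm_le _ _
  rw [Complex.norm_exp, hlr] at hup hlo1 hlo2
  have hl1 := le_abs_self l
  have hl2 := neg_le_abs l
  have hcW : W₀ + 2 + |z.re| ≤ (W₀ + 2) * (1 + ‖z‖) := by nlinarith
  refine le_trans (log_bound ?_ ?_) hcW
  · -- lower bound
    rcases le_total 0 z.re with h1 | h1
    · rw [abs_of_nonneg h1] at hz ⊢
      -- `exp l ≤ exp (z.re - 1)`
      have h2 : Real.exp l ≤ Real.exp (z.re - 1) := Real.exp_le_exp.2 (by linarith)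
      have h3 : Real.exp (z.re - 1) = Real.exp z.re * Real.exp (-1) := by rw [← Real.exp_add]; ring_nf
      have h4 : 0 < Real.exp z.re := Real.exp_pos _
      have h5 : Real.exp z.re / 2 ≤ ‖Complex.exp z - r‖ := by nlinarith
      have h6 : Real.exp (-(W₀ + 2 + z.re)) ≤ Real.exp (z.re - 1) := Real.exp_le_exp.2 (by linarith)
      have h7 : Real.exp (z.re - 1) ≤ Real.exp z.re / 2 := by
        rw [h3]
        nlinarith
      linarith
    · rw [abs_of_nonpos h1] at hz ⊢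
      have h2 : Real.exp z.re ≤ Real.exp (l - 1) := Real.exp_le_exp.2 (by linarith)
      have h3 : Real.exp (l - 1) = Real.exp l * Real.exp (-1) := by rw [← Real.exp_add]; ring_nf
      have h4 : 0 < Real.exp l := Real.exp_pos _
      have h5 : Real.exp l / 2 ≤ ‖Complex.exp z - r‖ := by nlinarith
      have h6 : Real.exp (-(W₀ + 2 + -z.re)) ≤ Real.exp (l - 1) := Real.exp_le_exp.2 (by linarith)
      have h7 : Real.exp (l - 1) ≤ Real.exp l / 2 := by
        rw [h3]
        nlinarith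
      linarith
  · have hm : Real.exp z.re ≤ Real.exp (W₀ + 1 + |z.re|) := Real.exp_le_exp.2 (by linarith [le_abs_self z.re])
    have hm2 : Real.exp l ≤ Real.exp (W₀ + 1 + |z.re|) := Real.exp_le_exp.2 (by linarith [abs_nonneg z.re])
    have h3 : Real.exp (W₀ + 2 + |z.re|) = Real.exp (W₀ + 1 + |z.re|) * Real.exp 1 := by rw [← Real.exp_add]; ring_nf
    have h4 : 0 < Real.exp (W₀ + 1 + |z.re|) := Real.exp_pos _
    rw [h3]
    nlinarith

/-- a polynomial -/
theorem poly_grow {W₀ : ℝ} (hW₀ : 0 ≤ W₀) (n : ℕ) : ∀ P : ℂ[X], P.natDegree = n → P ≠ 0 → (∀ r, P.IsRoot r → r ≠ 0 → |Real.log ‖r‖| + 1 ≤ W₀) →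
    ∃ M : ℝ, 0 ≤ M ∧ ∀ z : ℂ, W₀ ≤ |z.re| → P.eval (Complex.exp z) ≠ 0 → |Real.log ‖P.eval (Complex.exp z)‖| ≤ M * (1 + ‖z‖) := by
  induction n with
  | zero =>
    intro P hP hP0 _
    rw [Polynomial.natDegree_eq_zero] at hP
    obtain ⟨a, rfl⟩ := hP
    refine ⟨|Real.log ‖a‖|, abs_nonneg _, fun z _ _ => ?_⟩
    rw [eval_C]
    have h1 : 0 ≤ ‖z‖ := norm_nonneg z
    nlinarith [abs_nonneg (Real.log ‖a‖)]
  | succ n ih =>
    intro P hP hP0 hroot
    have hdeg : P.degree ≠ 0 := by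
      rw [Polynomial.degree_eq_natDegree hP0, hP]
      exact_mod_cast n.succ_ne_zero
    obtain ⟨r, hr⟩ := IsAlgClosed.exists_root P hdeg
    obtain ⟨Q, hQ⟩ := Polynomial.dvd_iff_isRoot.2 hr
    have hQ0 : Q ≠ 0 := by
      intro h
      rw [h, mul_zero] at hQ
      exact hP0 hQ
    have hQd : Q.natDegree = n := by
      have h1 : P.natDegree = 1 + Q.natDegree := by
        rw [hQ, Polynomial.natDegree_mul (Polynomial.X_sub_C_ne_zero r) hQ0, Polynomial.natDegree_X_sub_C]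
      omega
    obtain ⟨M, hM, h1⟩ := ih Q hQd hQ0 (by
      intro s hs hs0
      refine hroot s ?_ hs0
      rw [hQ]
      exact Polynomial.IsRoot.def.2 (by rw [eval_mul, hs.eq_zero, mul_zero]))
    refine ⟨W₀ + 2 + M, by linarith, fun z hz hne => ?_⟩
    have h2 : P.eval (Complex.exp z) = (Complex.exp z - r) * Q.eval (Complex.exp z) := by
      rw [hQ, eval_mul, eval_sub, eval_X, eval_C]
    rw [h2] at hne ⊢
    obtain ⟨h3, h4⟩ := mul_ne_zero_iff.1 hne
    rw [norm_mul, Real.log_mul (norm_ne_zero_iff.2 h3) (norm_ne_zero_iff.2 h4)]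
    have h5 := lin_grow r hW₀ (fun h0 => hroot r hr h0) hz
    have h6 := h1 z hz h4
    calc |Real.log ‖Complex.exp z - r‖ + Real.log ‖Q.eval (Complex.exp z)‖| ≤ |Real.log ‖Complex.exp z - r‖| + |Real.log ‖Q.eval (Complex.exp z)‖| :=
          abs_add_le _ _
      _ ≤ (W₀ + 2) * (1 + ‖z‖) + M * (1 + ‖z‖) := add_le_add h5 h6
      _ = (W₀ + 2 + M) * (1 + ‖z‖) := by ring

/-- separation of the bad points -/
theorem exists_sep {B₁ : Set ℂ} (hB : B₁.Finite) : ∃ δ : ℝ, 0 < δ ∧ δ ≤ 1 / 8 ∧ ∀ b b' : ℂ, Complex.exp b ∈ B₁ → Complex.exp b' ∈ B₁ → b ≠ b' → 8 * δ ≤ ‖b - b'‖ := by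
  -- a bound and a separation constant of the finite set
  obtain ⟨M, hM0, hM⟩ : ∃ M : ℝ, 0 < M ∧ ∀ x ∈ B₁, ‖x‖ ≤ M := by
    obtain ⟨M, hM⟩ := hB.isBounded.exists_norm_le
    exact ⟨|M| + 1, by positivity, fun x hx => (hM x hx).trans (by linarith [le_abs_self M])⟩
  obtain ⟨η, hη0, hη⟩ : ∃ η : ℝ, 0 < η ∧ ∀ x ∈ B₁, ∀ y ∈ B₁, x ≠ y → η ≤ ‖x - y‖ := by
    have h1 : ((fun q : ℂ × ℂ => ‖q.1 - q.2‖) '' {q | q.1 ∈ B₁ ∧ q.2 ∈ B₁ ∧ q.1 ≠ q.2}).Finite := by
      refine Set.Finite.image _ ((hB.prod hB).subset ?_)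
      rintro q ⟨h1, h2, -⟩
      exact ⟨h1, h2⟩
    rcases ((fun q : ℂ × ℂ => ‖q.1 - q.2‖) '' {q | q.1 ∈ B₁ ∧ q.2 ∈ B₁ ∧ q.1 ≠ q.2}).eq_empty_or_nonempty with he | hn
    · refine ⟨1, one_pos, fun x hx y hy hxy => ?_⟩
      exfalso
      have h2 : ‖x - y‖ ∈ ((fun q : ℂ × ℂ => ‖q.1 - q.2‖) '' {q | q.1 ∈ B₁ ∧ q.2 ∈ B₁ ∧ q.1 ≠ q.2}) := ⟨(x, y), ⟨hx, hy, hxy⟩, rfl⟩
      rw [he] at h2
      exact h2
    · obtain ⟨m, hm, hmin⟩ := h1.exists_minimal hn
      obtain ⟨q, ⟨hq1, hq2, hq3⟩, rfl⟩ := hm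
      refine ⟨‖q.1 - q.2‖, norm_pos_iff.2 (sub_ne_zero.2 hq3), fun x hx y hy hxy => ?_⟩
      have h2 : ‖x - y‖ ∈ ((fun q : ℂ × ℂ => ‖q.1 - q.2‖) '' {q | q.1 ∈ B₁ ∧ q.2 ∈ B₁ ∧ q.1 ≠ q.2}) := ⟨(x, y), ⟨hx, hy, hxy⟩, rfl⟩
      rcases le_total ‖q.1 - q.2‖ ‖x - y‖ with h3 | h3
      · exact h3
      · exact hmin h2 h3
  refine ⟨min (1 / 8) (η / (16 * M)), by positivity, min_le_left _ _, fun b b' hb hb' hne => ?_⟩
  have hδ1 : 8 * min (1 / 8) (η / (16 * M)) ≤ 1 := by
    have := min_le_left (1 / 8) (η / (16 * M))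
    linarith
  have hδ2 : 8 * min (1 / 8) (η / (16 * M)) ≤ η / (2 * M) := by
    have h1 := min_le_right (1 / 8) (η / (16 * M))
    have h2 : 8 * (η / (16 * M)) = η / (2 * M) := by
      field_simp
      ring
    linarith
  by_contra hlt
  push Not at hlt
  have h1 : ‖b - b'‖ ≤ 1 := by linarith
  by_cases he : Complex.exp b = Complex.exp b'
  · obtain ⟨n, hn⟩ := Complex.exp_eq_exp_iff_exists_int.1 he
    have hn0 : n ≠ 0 := by
      intro h0
      apply hne
      rw [hn, h0]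
      simp
    have h2 : b - b' = n * (2 * Real.pi * Complex.I) := by
      rw [hn]
      ring
    have h3 : ‖b - b'‖ = |(n : ℝ)| * (2 * Real.pi) := by
      rw [h2, norm_mul, norm_mul, Complex.norm_I, mul_one, norm_mul, Complex.norm_real, Real.norm_eq_abs, abs_of_pos Real.pi_pos]
      congr 1
      · rw [← Complex.ofReal_intCast, Complex.norm_real, Real.norm_eq_abs]
      · simp
    have h4 : (1 : ℝ) ≤ |(n : ℝ)| := by
      rw [← Int.cast_abs]
      exact_mod_cast Int.one_le_abs hn0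
    have h5 := Real.pi_gt_three
    rw [h3] at h1
    nlinarith
  · have h2 := hη _ hb _ hb' he
    have h3 : Complex.exp b - Complex.exp b' = Complex.exp b' * (Complex.exp (b - b') - 1) := by
      rw [mul_sub, ← Complex.exp_add, add_sub_cancel, mul_one]
    rw [h3, norm_mul] at h2
    have h4 := Complex.norm_exp_sub_one_le h1
    have h5 := hM _ hb'
    have h6 : ‖Complex.exp b'‖ * ‖Complex.exp (b - b') - 1‖ ≤ M * (2 * ‖b - b'‖) :=
      mul_le_mul h5 h4 (norm_nonneg _) hM0.le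
    have h7 : ‖b - b'‖ < η / (2 * M) := by linarith
    rw [lt_div_iff₀ (by positivity)] at h7
    nlinarith

/-- real parts of the bad points -/
theorem exists_re {B₁ : Set ℂ} (hB : B₁.Finite) : ∃ W : ℝ, 0 < W ∧ ∀ b : ℂ, Complex.exp b ∈ B₁ → |b.re| ≤ W := by
  have h1 : ((fun x : ℂ => |Real.log ‖x‖|) '' B₁).Finite := hB.image _
  obtain ⟨W, hW⟩ := h1.bddAbove
  refine ⟨|W| + 1, by positivity, fun b hb => ?_⟩
  have h2 := hW ⟨_, hb, rfl⟩
  have h3 : |Real.log ‖Complex.exp b‖| ≤ W := h2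
  rw [Complex.norm_exp, Real.log_exp] at h3
  linarith [le_abs_self W]

end Pool.Agent.H41.LR

end
end

section

/-!
# LR Map: meromorphic functions as holomorphic maps into the projective line
-/

set_option autoImplicit false

open Topology Filter Metric

noncomputable section

namespace Pool.Agent.H41.LR

attribute [-instance] ProperSMul.toContinuousSMul

open Pool.Agent.H17 (PN VanishesAt HolomorphicInto)

theorem vne (x : ℂ) : (![1, x] : Fin 2 → ℂ) ≠ 0 := fun h => one_ne_zero (congrFun h 0)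

/-- the point `[1 : x]` -/
def aff (x : ℂ) : PN 1 := Projectivization.mk ℂ ![1, x] (vne x)

theorem mk_eq {u v : Fin 2 → ℂ} (hu : u ≠ 0) (hv : v ≠ 0) (h : u 0 * v 1 = u 1 * v 0) :
    Projectivization.mk ℂ u hu = Projectivization.mk ℂ v hv := by
  rw [Projectivization.mk_eq_mk_iff']
  by_cases h0 : v 0 = 0
  · have h1 : v 1 ≠ 0 := by
      intro h1
      apply hv
      funext i
      fin_cases i
      · exact h0
      · exact h1
    refine ⟨u 1 / v 1, ?_⟩
    funext i
    fin_cases i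
    · show u 1 / v 1 * v 0 = u 0
      rw [h0, mul_zero] at h
      rw [h0, mul_zero]
      exact ((mul_eq_zero.1 h).resolve_right h1).symm
    · show u 1 / v 1 * v 1 = u 1
      field_simp
  · refine ⟨u 0 / v 0, ?_⟩
    funext i
    fin_cases i
    · show u 0 / v 0 * v 0 = u 0
      field_simp
    · show u 0 / v 0 * v 1 = u 1
      rw [div_mul_eq_mul_div, div_eq_iff h0]
      exact h

theorem eq_of_mk {u v : Fin 2 → ℂ} (hu : u ≠ 0) (hv : v ≠ 0)
    (h : Projectivization.mk ℂ u hu = Projectivization.mk ℂ v hv) : u 0 * v 1 = u 1 * v 0 := by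
  rw [Projectivization.mk_eq_mk_iff'] at h
  obtain ⟨a, rfl⟩ := h
  show a * v 0 * v 1 = a * v 1 * v 0
  ring

/-- A local lift of a meromorphic function. -/
theorem local_lift {f : ℂ → ℂ} {z₀ : ℂ} (hf : MeromorphicAt f z₀) : ∃ φ : ℂ → Fin 2 → ℂ, AnalyticAt ℂ φ z₀ ∧ φ z₀ ≠ 0 ∧
    ∀ᶠ w in 𝓝[≠] z₀, φ w 0 * f w = φ w 1 := by
  by_cases h : meromorphicOrderAt f z₀ = ⊤
  · refine ⟨fun _ => ![1, 0], analyticAt_const, vne 0, ?_⟩
    filter_upwards [meromorphicOrderAt_eq_top_iff.1 h] with w hw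
    show 1 * f w = 0
    rw [hw, mul_zero]
  · obtain ⟨n, hn⟩ := WithTop.ne_top_iff_exists.1 h
    obtain ⟨g, hg, hg0, he⟩ := (meromorphicOrderAt_eq_int_iff hf).1 hn.symm
    have hz : AnalyticAt ℂ (fun z : ℂ => z - z₀) z₀ := analyticAt_id.sub analyticAt_const
    rcases le_total 0 n with h0 | h0
    · obtain ⟨k, rfl⟩ := Int.eq_ofNat_of_zero_le h0
      refine ⟨fun w => ![1, (w - z₀) ^ k * g w], ?_, vne _, ?_⟩
      · rw [analyticAt_pi_iff]
        intro i
        fin_cases i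
        · exact analyticAt_const
        · exact (hz.pow k).mul hg
      · filter_upwards [he] with w hw
        show 1 * f w = (w - z₀) ^ k * g w
        rw [hw, one_mul, smul_eq_mul]
        rfl
    · obtain ⟨k, hk⟩ := Int.eq_ofNat_of_zero_le (neg_nonneg.2 h0)
      have hn' : n = -(k : ℤ) := by rw [← hk, neg_neg]
      subst hn'
      refine ⟨fun w => ![(w - z₀) ^ k, g w], ?_, ?_, ?_⟩
      · rw [analyticAt_pi_iff]
        intro i
        fin_cases i
        · exact hz.pow k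
        · exact hg
      · intro h1
        exact hg0 (congrFun h1 1)
      · have hne : ∀ᶠ w in 𝓝[≠] z₀, w ≠ z₀ := self_mem_nhdsWithin
        filter_upwards [he, hne] with w hw hwz
        show (w - z₀) ^ k * f w = g w
        rw [hw, smul_eq_mul, ← mul_assoc]
        have h2 : (w - z₀) ^ k * (w - z₀) ^ (-(k : ℤ)) = 1 := by
          rw [zpow_neg, zpow_natCast]
          exact mul_inv_cancel₀ (pow_ne_zero _ (sub_ne_zero.2 hwz))
        rw [h2, one_mul]

/-- **Meromorphic functions are holomorphic maps into the projective line.** -/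
theorem exists_map {f : ℂ → ℂ} (hf : ∀ z, MeromorphicAt f z) : ∃ F : ℂ → PN 1, HolomorphicInto F Set.univ ∧
    (∀ z, AnalyticAt ℂ f z → F z = aff (f z)) := by
  choose φ hφ hφ0 he using fun z => local_lift (hf z)
  set F : ℂ → PN 1 := fun z => Projectivization.mk ℂ (φ z z) (hφ0 z) with hF
  have hA : ∀ z, AnalyticAt ℂ f z → F z = aff (f z) := by
    intro z hz
    refine mk_eq _ _ ?_
    show φ z z 0 * f z = φ z z 1 * 1
    rw [mul_one]
    have h0 : ContinuousAt (fun w => φ z w 0 * f w) z := by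
      have h1 : ContinuousAt (fun w => φ z w 0) z := ((analyticAt_pi_iff).1 (hφ z) 0).continuousAt
      exact h1.mul hz.continuousAt
    have h1 : ContinuousAt (fun w => φ z w 1) z := ((analyticAt_pi_iff).1 (hφ z) 1).continuousAt
    have h2 : Tendsto (fun w => φ z w 0 * f w) (𝓝[≠] z) (𝓝 (φ z z 0 * f z)) := h0.tendsto.mono_left nhdsWithin_le_nhds
    have h3 : Tendsto (fun w => φ z w 1) (𝓝[≠] z) (𝓝 (φ z z 1)) := h1.tendsto.mono_left nhdsWithin_le_nhds
    exact tendsto_nhds_unique h2 (h3.congr' ((he z).mono fun w hw => hw.symm))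
  refine ⟨F, ?_, hA⟩
  intro z _
  refine ⟨φ z, hφ z, ?_⟩
  have h1 : ∀ᶠ w in 𝓝[≠] z, ∃ h : φ z w ≠ 0, F w = Projectivization.mk ℂ (φ z w) h := by
    have h2 : ∀ᶠ w in 𝓝[≠] z, φ z w ≠ 0 := ((hφ z).continuousAt.eventually_ne (hφ0 z)).filter_mono nhdsWithin_le_nhds
    filter_upwards [(hf z).eventually_analyticAt, he z, h2] with w h3 h4 h5
    refine ⟨h5, ?_⟩
    rw [hA w h3]
    refine mk_eq _ _ ?_
    show 1 * φ z w 1 = f w * φ z w 0
    rw [one_mul, mul_comm, h4]
  have h2 : ∃ h : φ z z ≠ 0, F z = Projectivization.mk ℂ (φ z z) h := ⟨hφ0 z, rfl⟩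
  have h3 := eventually_nhdsWithin_iff.1 h1
  filter_upwards [h3] with w hw
  by_cases hwz : w = z
  · rw [hwz]
    exact h2
  · exact hw hwz

end Pool.Agent.H41.LR

end
end

section

/-!
# LR LimB: limits of meromorphic functions at a point which is the only zero or pole
-/

set_option autoImplicit false

open Topology Filter Metric

namespace Pool.Agent.H62.LR

attribute [-instance] ProperSMul.toContinuousSMul

/-- a meromorphic function without zeros and poles outside the centre is a power times a function without zeros -/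
theorem factor {X : ℂ → ℂ} {b : ℂ} {r : ℝ} (hr : 0 < r) (hmer : MeromorphicAt X b)
    (hX : ∀ z ∈ closedBall b r, z ≠ b → AnalyticAt ℂ X z ∧ X z ≠ 0) :
    ∃ (k : ℤ) (h : ℂ → ℂ), (∀ z ∈ closedBall b r, AnalyticAt ℂ h z ∧ h z ≠ 0) ∧ ∀ z, z ≠ b → X z = (z - b) ^ k * h z := by
  have hev : ∀ᶠ z in 𝓝[≠] b, X z ≠ 0 := by
    rw [eventually_nhdsWithin_iff]
    filter_upwards [closedBall_mem_nhds b hr] with z hz hzb
    exact (hX z hz hzb).2
  obtain ⟨g, hg, hgb, heq⟩ := (meromorphicOrderAt_ne_top_iff hmer).1 ((meromorphicOrderAt_ne_top_iff_eventually_ne_zero hmer).2 hev)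
  set k : ℤ := (meromorphicOrderAt X b).untop₀ with hk
  obtain ⟨h, hhb, hhz⟩ : ∃ h : ℂ → ℂ, h b = g b ∧ ∀ z, z ≠ b → h z = (z - b) ^ (-k) * X z :=
    ⟨fun z => if z = b then g b else (z - b) ^ (-k) * X z, if_pos rfl, fun z hz => if_neg hz⟩
  refine ⟨k, h, ?_, ?_⟩
  · intro z hz
    by_cases hzb : z = b
    · rw [hzb, hhb]
      refine ⟨hg.congr ?_, hgb⟩
      have heq' : ∀ᶠ w in 𝓝 b, w ∈ ({b}ᶜ : Set ℂ) → X w = (w - b) ^ k • g w := eventually_nhdsWithin_iff.1 heq
      filter_upwards [heq'] with w hw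
      by_cases hwb : w = b
      · rw [hwb, hhb]
      · rw [hhz w hwb, hw hwb, smul_eq_mul, ← mul_assoc, ← zpow_add₀ (sub_ne_zero.2 hwb), neg_add_cancel, zpow_zero, one_mul]
    · have hz0 := sub_ne_zero.2 hzb
      have h1 : AnalyticAt ℂ (fun w => (w - b) ^ (-k) * X w) z :=
        ((analyticAt_id.sub analyticAt_const).zpow hz0).mul (hX z hz hzb).1
      refine ⟨h1.congr ?_, ?_⟩
      · filter_upwards [isOpen_compl_singleton.mem_nhds hzb] with w hw
        exact (hhz w hw).symm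
      · rw [hhz z hzb]
        exact mul_ne_zero (zpow_ne_zero _ hz0) (hX z hz hzb).2
  · intro z hzb
    rw [hhz z hzb, ← mul_assoc, ← zpow_add₀ (sub_ne_zero.2 hzb), add_neg_cancel, zpow_zero, one_mul]

/-- the maximum principle -/
theorem max_pr {h : ℂ → ℂ} {b : ℂ} {r C : ℝ} (hr : 0 < r) (hh : ∀ z ∈ closedBall b r, AnalyticAt ℂ h z) (hC : ∀ z, ‖z - b‖ = r → ‖h z‖ ≤ C) :
    ∀ z ∈ closedBall b r, ‖h z‖ ≤ C := by
  intro z hz
  have hd : DiffContOnCl ℂ h (ball b r) := by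
    apply DifferentiableOn.diffContOnCl
    rw [closure_ball b hr.ne']
    exact fun w hw => (hh w hw).differentiableAt.differentiableWithinAt
  refine Complex.norm_le_of_forall_mem_frontier_norm_le isBounded_ball hd (fun w hw => ?_) ?_
  · rw [frontier_ball b hr.ne', mem_sphere, dist_eq_norm] at hw
    exact hC w hw
  · rwa [closure_ball b hr.ne']

/-- the bounds for the exponent and for the factor -/
theorem factor_bound {h : ℂ → ℂ} {k : ℤ} {b : ℂ} {r M : ℝ} (hr : 0 < r) (hh : ∀ z ∈ closedBall b r, AnalyticAt ℂ h z ∧ h z ≠ 0)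
    (hM : ∀ z, r / 2 ≤ ‖z - b‖ → ‖z - b‖ ≤ r → ‖(z - b) ^ k * h z‖ ≤ M ∧ ‖(z - b) ^ k * h z‖⁻¹ ≤ M) :
    (2 : ℝ) ^ k ≤ M ^ 2 ∧ (2 : ℝ) ^ (-k) ≤ M ^ 2 ∧ ∀ z ∈ closedBall b r, ‖h z‖ ≤ M * r ^ (-k) ∧ ‖(h z)⁻¹‖ ≤ M * r ^ k := by
  have hn : ∀ z, ‖(z - b) ^ k * h z‖ = ‖z - b‖ ^ k * ‖h z‖ := by
    intro z
    rw [norm_mul, norm_zpow]
  have h1 : ∀ z ∈ closedBall b r, ‖h z‖ ≤ M * r ^ (-k) := by
    refine max_pr hr (fun z hz => (hh z hz).1) fun z hz => ?_
    have h2 := (hM z (by linarith) hz.le).1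
    rw [hn, hz] at h2
    rw [zpow_neg, ← div_eq_mul_inv, le_div_iff₀ (zpow_pos hr k), mul_comm]
    exact h2
  have h2 : ∀ z ∈ closedBall b r, ‖(h z)⁻¹‖ ≤ M * r ^ k := by
    refine max_pr hr (fun z hz => (hh z hz).1.inv (hh z hz).2) fun z hz => ?_
    have h3 := (hM z (by linarith) hz.le).2
    rw [hn, hz, mul_inv, inv_mul_le_iff₀ (zpow_pos hr k)] at h3
    rw [norm_inv, mul_comm]
    exact h3
  obtain ⟨z, hz⟩ : ∃ z : ℂ, ‖z - b‖ = r / 2 := by
    refine ⟨b + (r / 2 : ℝ), ?_⟩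
    rw [add_sub_cancel_left, Complex.norm_real, Real.norm_of_nonneg (by positivity)]
  have hzc : z ∈ closedBall b r := by
    rw [mem_closedBall, dist_eq_norm, hz]
    linarith
  have hz0 : 0 < ‖h z‖ := norm_pos_iff.2 (hh z hzc).2
  have h3 := hM z hz.ge (by linarith)
  rw [hn, hz] at h3
  have hr2 : (0 : ℝ) < (r / 2) ^ k := zpow_pos (by positivity) k
  have hrk : (0 : ℝ) < r ^ k := zpow_pos hr k
  have hM0 : 0 ≤ M := le_trans (by positivity) h3.1
  have hdiv : (r / 2) ^ k = r ^ k / 2 ^ k := div_zpow r 2 k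
  have h2k : (0 : ℝ) < 2 ^ k := zpow_pos two_pos k
  refine ⟨?_, ?_, fun w hw => ⟨h1 w hw, h2 w hw⟩⟩
  · -- `1 / M ≤ (r / 2) ^ k ‖h z‖ ≤ (r / 2) ^ k M r ^ (- k) = M / 2 ^ k`
    have h4 : (r / 2) ^ k * ‖h z‖ ≤ M / 2 ^ k := by
      calc (r / 2) ^ k * ‖h z‖ ≤ (r / 2) ^ k * (M * r ^ (-k)) := mul_le_mul_of_nonneg_left (h1 z hzc) hr2.le
        _ = M / 2 ^ k := by
          rw [hdiv, zpow_neg]
          field_simp
    have h5 : 1 ≤ M * ((r / 2) ^ k * ‖h z‖) := by
      have h6 := mul_le_mul_of_nonneg_right h3.2 (show 0 ≤ (r / 2) ^ k * ‖h z‖ by positivity)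
      rwa [inv_mul_cancel₀ (by positivity)] at h6
    have h6 : 1 ≤ M * (M / 2 ^ k) := h5.trans (mul_le_mul_of_nonneg_left h4 hM0)
    rw [← mul_div_assoc, le_div_iff₀ h2k, one_mul] at h6
    linarith [sq M]
  · have h4 : ((r / 2) ^ k * ‖h z‖)⁻¹ ≤ M * 2 ^ k := by
      have h5 := h2 z hzc
      rw [norm_inv] at h5
      calc ((r / 2) ^ k * ‖h z‖)⁻¹ = ((r / 2) ^ k)⁻¹ * ‖h z‖⁻¹ := by rw [mul_inv]
        _ ≤ ((r / 2) ^ k)⁻¹ * (M * r ^ k) := mul_le_mul_of_nonneg_left h5 (by positivity)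
        _ = M * 2 ^ k := by
          rw [hdiv]
          field_simp
    have h5 : 1 ≤ M * 2 ^ k * ((r / 2) ^ k * ‖h z‖) := by
      have h6 := mul_le_mul_of_nonneg_right h4 (show 0 ≤ (r / 2) ^ k * ‖h z‖ by positivity)
      rwa [inv_mul_cancel₀ (by positivity)] at h6
    have h6 : 1 ≤ M * 2 ^ k * M := h5.trans (mul_le_mul_of_nonneg_left h3.1 (by positivity))
    rw [zpow_neg, inv_le_iff_one_le_mul₀ h2k]
    linarith [show M * 2 ^ k * M = M ^ 2 * 2 ^ k by ring]

theorem finite_exp (C : ℝ) : {k : ℤ | (2 : ℝ) ^ k ≤ C ∧ (2 : ℝ) ^ (-k) ≤ C}.Finite := by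
  obtain ⟨N, hN⟩ := pow_unbounded_of_one_lt C (show (1 : ℝ) < 2 by norm_num)
  have key : ∀ k : ℤ, (2 : ℝ) ^ k ≤ C → k ≤ N := by
    intro k hk
    by_contra h1
    push Not at h1
    have h2 : (2 : ℝ) ^ (N : ℤ) ≤ 2 ^ k := zpow_le_zpow_right₀ (by norm_num) h1.le
    rw [zpow_natCast] at h2
    linarith
  refine (Set.finite_Icc (-(N : ℤ)) N).subset ?_
  rintro k ⟨h1, h2⟩
  have h3 := key k h1
  have h4 := key (-k) h2
  exact ⟨by linarith, h3⟩

/-- the limit at a point which is the only zero or pole -/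
theorem lim_at (𝒰 : Ultrafilter ℕ) {X : ℕ → ℂ → ℂ} {b : ℂ} {r M : ℝ} (hr : 0 < r)
    (hX : ∀ᶠ n in (𝒰 : Filter ℕ), MeromorphicAt (X n) b ∧ ∀ z ∈ closedBall b r, z ≠ b → AnalyticAt ℂ (X n) z ∧ X n z ≠ 0) {f : ℂ → ℂ}
    (hf : ∀ z ∈ ball b r, z ≠ b → Tendsto (fun n => X n z) 𝒰 (𝓝 (f z)))
    (hM : ∀ᶠ n in (𝒰 : Filter ℕ), ∀ z, r / 2 ≤ ‖z - b‖ → ‖z - b‖ ≤ r → ‖X n z‖ ≤ M ∧ ‖X n z‖⁻¹ ≤ M) :
    ∃ (k : ℤ) (h : ℂ → ℂ), AnalyticAt ℂ h b ∧ h b ≠ 0 ∧ (∀ z ∈ ball b r, z ≠ b → f z = (z - b) ^ k * h z) ∧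
      (k = 0 → ∀ A : Set ℂ, A.Finite → (∀ᶠ n in (𝒰 : Filter ℕ), ∀ a, Tendsto (X n) (𝓝[≠] b) (𝓝 a) → a ∈ A) → h b ∈ A) := by
  have key : ∀ n, ∃ (k : ℤ) (h : ℂ → ℂ), (MeromorphicAt (X n) b ∧ ∀ z ∈ closedBall b r, z ≠ b → AnalyticAt ℂ (X n) z ∧ X n z ≠ 0) →
      (∀ z ∈ closedBall b r, AnalyticAt ℂ h z ∧ h z ≠ 0) ∧ ∀ z, z ≠ b → X n z = (z - b) ^ k * h z := by
    intro n
    by_cases h1 : MeromorphicAt (X n) b ∧ ∀ z ∈ closedBall b r, z ≠ b → AnalyticAt ℂ (X n) z ∧ X n z ≠ 0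
    · obtain ⟨k, h, hk⟩ := factor hr h1.1 h1.2
      exact ⟨k, h, fun _ => hk⟩
    · exact ⟨0, X n, fun h2 => absurd h2 h1⟩
  choose k h hkh using key
  have hne : ∀ z, r / 2 ≤ ‖z - b‖ → z ≠ b := by
    rintro z hz rfl
    rw [sub_self, norm_zero] at hz
    linarith
  have hall : ∀ᶠ n in (𝒰 : Filter ℕ), ((∀ z ∈ closedBall b r, AnalyticAt ℂ (h n) z ∧ h n z ≠ 0) ∧ ∀ z, z ≠ b → X n z = (z - b) ^ (k n) * h n z) ∧
      (2 : ℝ) ^ (k n) ≤ M ^ 2 ∧ (2 : ℝ) ^ (-(k n)) ≤ M ^ 2 ∧ ∀ z ∈ closedBall b r, ‖h n z‖ ≤ M * r ^ (-(k n)) ∧ ‖(h n z)⁻¹‖ ≤ M * r ^ (k n) := by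
    filter_upwards [hX, hM] with n hn hn2
    have h1 := hkh n hn
    refine ⟨h1, factor_bound hr h1.1 fun z hz hz2 => ?_⟩
    have h2 := hn2 z hz hz2
    rwa [h1.2 z (hne z hz)] at h2
  obtain ⟨k₀, _, hk₀⟩ := (Ultrafilter.eventually_exists_mem_iff (f := 𝒰) (P := fun k₀ n => k n = k₀) (finite_exp (M ^ 2))).1
    (hall.mono fun n hn => ⟨k n, ⟨hn.2.1, hn.2.2.1⟩, rfl⟩)
  obtain ⟨h₁, hh₁, hc₁⟩ := Pool.Agent.H17.montel_ultrafilter 𝒰 (F := h) (a := b) (r := r) (B := M * r ^ (-k₀))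
    (by
      filter_upwards [hall] with n hn
      exact fun z hz => (hn.1.1 z (ball_subset_closedBall hz)).1.differentiableAt.differentiableWithinAt)
    (by
      filter_upwards [hall, hk₀] with n hn hn2 z hz
      have h1 := (hn.2.2.2 z (ball_subset_closedBall hz)).1
      rwa [hn2] at h1)
  obtain ⟨h₂, hh₂, hc₂⟩ := Pool.Agent.H17.montel_ultrafilter 𝒰 (F := fun n z => (h n z)⁻¹) (a := b) (r := r) (B := M * r ^ k₀)
    (by
      filter_upwards [hall] with n hn
      exact fun z hz => ((hn.1.1 z (ball_subset_closedBall hz)).1.inv (hn.1.1 z (ball_subset_closedBall hz)).2).differentiableAt.differentiableWithinAt)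
    (by
      filter_upwards [hall, hk₀] with n hn hn2 z hz
      have h1 := (hn.2.2.2 z (ball_subset_closedBall hz)).2
      rwa [hn2] at h1)
  have hbb : b ∈ ball b r := mem_ball_self hr
  have hprod : h₁ b * h₂ b = 1 := by
    have h1 : Tendsto (fun n => h n b * (h n b)⁻¹) 𝒰 (𝓝 (h₁ b * h₂ b)) := (hc₁.tendsto_at hbb).mul (hc₂.tendsto_at hbb)
    have h2 : Tendsto (fun n => h n b * (h n b)⁻¹) 𝒰 (𝓝 1) := by
      refine tendsto_const_nhds.congr' ?_
      filter_upwards [hall] with n hn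
      exact (mul_inv_cancel₀ (hn.1.1 b (mem_closedBall_self hr.le)).2).symm
    exact tendsto_nhds_unique h1 h2
  refine ⟨k₀, h₁, hh₁.analyticAt (isOpen_ball.mem_nhds hbb), fun h1 => ?_, fun z hz hzb => ?_, fun hk0 A hA hXA => ?_⟩
  · rw [h1, zero_mul] at hprod
    exact one_ne_zero hprod.symm
  · have h1 : Tendsto (fun n => X n z) 𝒰 (𝓝 ((z - b) ^ k₀ * h₁ z)) := by
      refine ((hc₁.tendsto_at hz).const_mul ((z - b) ^ k₀)).congr' ?_
      filter_upwards [hall, hk₀] with n hn hn2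
      rw [hn.1.2 z hzb, hn2]
    exact tendsto_nhds_unique (hf z hz hzb) h1
  · refine hA.isClosed.mem_of_tendsto (hc₁.tendsto_at hbb) ?_
    filter_upwards [hall, hk₀, hXA] with n hn hn2 hn3
    refine hn3 _ ?_
    have h1 : Tendsto (h n) (𝓝[≠] b) (𝓝 (h n b)) := (hn.1.1 b (mem_closedBall_self hr.le)).1.continuousAt.continuousWithinAt
    refine h1.congr' ?_
    filter_upwards [self_mem_nhdsWithin] with z hz
    rw [hn.1.2 z hz, hn2, hk0, zpow_zero, one_mul]

/-- the values of the limit -/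
theorem val_at {f h : ℂ → ℂ} {b a : ℂ} {r : ℝ} {k : ℤ} (hr : 0 < r) (hh : AnalyticAt ℂ h b) (hb : h b ≠ 0)
    (hf : ∀ z ∈ ball b r, z ≠ b → f z = (z - b) ^ k * h z) (ha : Tendsto f (𝓝[≠] b) (𝓝 a)) : 0 ≤ k ∧ (0 < k → a = 0) ∧ (k = 0 → a = h b) := by
  have hev : ∀ᶠ z in 𝓝[≠] b, z ≠ b ∧ f z = (z - b) ^ k * h z := by
    rw [eventually_nhdsWithin_iff]
    filter_upwards [ball_mem_nhds b hr] with z hz hzb
    exact ⟨hzb, hf z hz hzb⟩
  have hhc : Tendsto h (𝓝[≠] b) (𝓝 (h b)) := hh.continuousAt.continuousWithinAt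
  have hid : ∀ m : ℕ, m ≠ 0 → Tendsto (fun z : ℂ => (z - b) ^ m) (𝓝[≠] b) (𝓝 0) := by
    intro m hm
    have h1 : ContinuousAt (fun z : ℂ => (z - b) ^ m) b := by fun_prop
    have h2 : Tendsto (fun z : ℂ => (z - b) ^ m) (𝓝[≠] b) (𝓝 ((b - b) ^ m)) := h1.continuousWithinAt
    rwa [sub_self, zero_pow hm] at h2
  refine ⟨?_, fun hk => ?_, fun hk => ?_⟩
  · by_contra hk
    push Not at hk
    obtain ⟨m, hm⟩ : ∃ m : ℕ, k = -(m : ℤ) := ⟨k.natAbs, by omega⟩
    have hm0 : m ≠ 0 := by omega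
    have h1 : Tendsto h (𝓝[≠] b) (𝓝 (0 * a)) := by
      refine ((hid m hm0).mul ha).congr' ?_
      filter_upwards [hev] with z hz
      have h2 : (z - b) ^ m ≠ 0 := pow_ne_zero _ (sub_ne_zero.2 hz.1)
      rw [hz.2, hm, zpow_neg, zpow_natCast, ← mul_assoc, mul_inv_cancel₀ h2, one_mul]
    rw [zero_mul] at h1
    exact hb (tendsto_nhds_unique hhc h1)
  · obtain ⟨m, hm⟩ : ∃ m : ℕ, k = (m : ℤ) := ⟨k.natAbs, by omega⟩
    have hm0 : m ≠ 0 := by omega
    have h1 : Tendsto f (𝓝[≠] b) (𝓝 (0 * h b)) := by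
      refine ((hid m hm0).mul hhc).congr' ?_
      filter_upwards [hev] with z hz
      rw [hz.2, hm, zpow_natCast]
    rw [zero_mul] at h1
    exact tendsto_nhds_unique ha h1
  · have h1 : Tendsto f (𝓝[≠] b) (𝓝 (h b)) := by
      refine hhc.congr' ?_
      filter_upwards [hev] with z hz
      rw [hz.2, hk, zpow_zero, one_mul]
    exact tendsto_nhds_unique ha h1

end Pool.Agent.H62.LR

end

section

/-!
# LR Br: a branch of the inverse of a quadratic polynomial on a half plane; the complement of the bad points is connected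
-/

set_option autoImplicit false

open Topology Filter Metric

noncomputable section

namespace Pool.Agent.H41.LR

attribute [-instance] ProperSMul.toContinuousSMul

open Pool.Agent.H87.LU (HP)

theorem isOpen_HP1 (ρ : ℝ) : IsOpen (HP 1 ρ) := by
  have h1 : HP 1 ρ = {z : ℂ | ρ < 1 * z.im} := rfl
  rw [h1]
  exact isOpen_lt continuous_const (continuous_const.mul Complex.continuous_im)

/-- a branch of the inverse function -/
theorem exists_branch {a b c : ℂ} (hab : a ≠ 0 ∨ b ≠ 0) : ∃ (ρ : ℝ) (ψ : ℂ → ℂ), DifferentiableOn ℂ ψ (HP 1 ρ) ∧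
    ∀ ζ ∈ HP 1 ρ, a * ψ ζ ^ 2 + b * ψ ζ + c = ζ := by
  by_cases ha : a = 0
  · subst ha
    have hb : b ≠ 0 := hab.resolve_left (fun h => h rfl)
    refine ⟨0, fun ζ => (ζ - c) / b, ((differentiable_id.sub_const c).div_const b).differentiableOn, fun ζ _ => ?_⟩
    show 0 * ((ζ - c) / b) ^ 2 + b * ((ζ - c) / b) + c = ζ
    rw [mul_div_cancel₀ _ hb]
    ring
  · obtain ⟨α, hα⟩ : ∃ α : ℂ, α * α = a := by
      obtain ⟨α, hα⟩ := IsAlgClosed.exists_eq_mul_self a
      exact ⟨α, hα.symm⟩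
    have hα0 : α ≠ 0 := by
      intro h
      rw [h, mul_zero] at hα
      exact ha hα.symm
    set d : ℂ := c - b ^ 2 / (4 * a) with hd
    have hsl : ∀ ζ ∈ HP 1 d.im, ζ - d ∈ Complex.slitPlane := by
      intro ζ hζ
      have h1 : d.im < 1 * ζ.im := hζ
      rw [Complex.mem_slitPlane_iff]
      right
      rw [Complex.sub_im]
      intro h2
      linarith
    refine ⟨d.im, fun ζ => -b / (2 * a) + Complex.exp (Complex.log (ζ - d) / 2) / α, ?_, ?_⟩
    · intro ζ hζ
      have h1 : DifferentiableAt ℂ (fun ζ => Complex.log (ζ - d)) ζ := (differentiableAt_id.sub_const d).clog (hsl ζ hζ)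
      exact (((h1.div_const 2).cexp.div_const α).const_add (-b / (2 * a))).differentiableWithinAt
    · intro ζ hζ
      set s : ℂ := Complex.exp (Complex.log (ζ - d) / 2) with hs
      have h2 : s * s = ζ - d := by
        rw [hs, ← Complex.exp_add, add_halves, Complex.exp_log (Complex.slitPlane_ne_zero (hsl ζ hζ))]
      show a * (-b / (2 * a) + s / α) ^ 2 + b * (-b / (2 * a) + s / α) + c = ζ
      have h3 : a * (s / α) ^ 2 = s * s := by
        rw [← hα]
        field_simp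
      have h4 : a * (-b / (2 * a) + s / α) ^ 2 + b * (-b / (2 * a) + s / α) + c = a * (s / α) ^ 2 + (c - b ^ 2 / (4 * a)) := by
        field_simp
        ring
      rw [h4, h3, h2, ← hd]
      ring

theorem countable_bad {B₀ : Set ℂ} (hB₀ : B₀.Finite) : {z : ℂ | Complex.exp z ∈ B₀}.Countable := by
  have h1 : {z : ℂ | Complex.exp z ∈ B₀} ⊆ ⋃ b ∈ B₀, ⋃ n : ℤ, {Complex.log b + n * (2 * Real.pi * Complex.I)} := by
    intro z hz
    simp only [Set.mem_iUnion]
    refine ⟨Complex.exp z, hz, ?_⟩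
    have h2 : Complex.exp z = Complex.exp (Complex.log (Complex.exp z)) := (Complex.exp_log (Complex.exp_ne_zero z)).symm
    obtain ⟨n, hn⟩ := Complex.exp_eq_exp_iff_exists_int.1 h2
    exact ⟨n, hn⟩
  refine Set.Countable.mono h1 (hB₀.countable.biUnion fun b _ => Set.countable_iUnion fun n => Set.countable_singleton _)

/-- the preimage of a countable set under a nonconstant polynomial of degree at most two is countable -/
theorem countable_quad {a b c : ℂ} (hab : a ≠ 0 ∨ b ≠ 0) {T : Set ℂ} (hT : T.Countable) : {z : ℂ | a * z ^ 2 + b * z + c ∈ T}.Countable := by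
  have h1 : {z : ℂ | a * z ^ 2 + b * z + c ∈ T} ⊆ ⋃ t ∈ T, {z : ℂ | a * z ^ 2 + b * z + c = t} := by
    intro z hz
    simp only [Set.mem_iUnion]
    exact ⟨_, hz, rfl⟩
  refine Set.Countable.mono h1 (hT.biUnion fun t _ => Set.Finite.countable ?_)
  set P : Polynomial ℂ := Polynomial.C a * Polynomial.X ^ 2 + Polynomial.C b * Polynomial.X + Polynomial.C (c - t) with hP
  have hP0 : P ≠ 0 := by
    intro h
    have h2 : P.coeff 2 = a := by
      rw [hP]
      simp [Polynomial.coeff_X, Polynomial.coeff_C]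
    have h3 : P.coeff 1 = b := by
      rw [hP]
      simp [Polynomial.coeff_X, Polynomial.coeff_C]
    rw [h, Polynomial.coeff_zero] at h2 h3
    rcases hab with h4 | h4
    · exact h4 h2.symm
    · exact h4 h3.symm
  refine (P.rootSet_finite ℂ).subset ?_
  intro z hz
  rw [Polynomial.mem_rootSet]
  refine ⟨hP0, ?_⟩
  rw [hP]
  simp only [map_add, map_mul, map_pow, Polynomial.aeval_C, Polynomial.aeval_X, Algebra.algebraMap_self, RingHom.id_apply, map_sub]
  have h2 : a * z ^ 2 + b * z + c = t := hz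
  linear_combination h2

/-- the complement of a countable closed set -/
theorem preconn_of_countable {T : Set ℂ} (hT : T.Countable) : IsPreconnected Tᶜ :=
  (hT.isPathConnected_compl_of_one_lt_rank (by rw [Complex.rank_real_complex]; norm_num)).isConnected.isPreconnected

theorem dense_of_countable {T : Set ℂ} (hT : T.Countable) : Dense Tᶜ := hT.dense_compl ℂ

end Pool.Agent.H41.LR

end
end

section

/-!
# LU HDefs: the abstract situation with the statement on half planes as a field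

`HDyn`: the elementary fields of `UDyn` and `half`: two members of `S (HP σ ρ)` which are close in the strip are equal.
-/

set_option autoImplicit false

open Topology Filter Metric

namespace Pool.Agent.H87.LU

attribute [-instance] ProperSMul.toContinuousSMul

/-- The abstract situation, with the statement on half planes. -/
structure HDyn {Y : Type} [MetricSpace Y] (K : Set Y) (p : ℝ) (B : Set ℂ) (δ W : ℝ) (S : Set ℂ → Set (ℂ → Y)) : Prop where
  compact : IsCompact K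
  p_pos : 0 < p
  δ_pos : 0 < δ
  W_pos : 0 < W
  B_inv : ∀ b ∈ B, ∀ l : ℤ, b + p * l * Complex.I ∈ B
  B_sep : ∀ b ∈ B, ∀ b' ∈ B, b ≠ b' → 8 * δ ≤ ‖b - b'‖
  B_re : ∀ b ∈ B, |b.re| + 4 * δ ≤ W
  anti : ∀ Ω Ω' : Set ℂ, IsOpen Ω → Convex ℝ Ω → IsOpen Ω' → Convex ℝ Ω' → Ω' ⊆ Ω → S Ω ⊆ S Ω'
  mem : ∀ Ω : Set ℂ, IsOpen Ω → Convex ℝ Ω → ∀ f ∈ S Ω, ∀ z ∈ Ω, z ∉ B → f z ∈ K
  lip : ∀ δ' R : ℝ, 0 < δ' → ∃ L : ℝ, 0 < L ∧ ∀ Ω : Set ℂ, IsOpen Ω → Convex ℝ Ω → ∀ f ∈ S Ω, ∀ z ∈ Gd B δ', |z.re| ≤ R → closedBall z δ' ⊆ Ω →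
    ∀ w ∈ closedBall z (δ' / 2), dist (f z) (f w) ≤ L * ‖z - w‖
  trans : ∀ Ω : Set ℂ, IsOpen Ω → Convex ℝ Ω → ∀ f ∈ S Ω, ∀ l : ℤ, (fun z => f (z + p * l * Complex.I)) ∈ S (Sh p l Ω)
  lim : ∀ (𝒰 : Ultrafilter ℕ) (Ω : ℕ → Set ℂ) (F : ℕ → ℂ → Y) (f : ℂ → Y), (∀ n, IsOpen (Ω n) ∧ Convex ℝ (Ω n)) →
    (∀ R : ℝ, ∀ᶠ n in (𝒰 : Filter ℕ), ball 0 R ⊆ Ω n) → (∀ᶠ n in (𝒰 : Filter ℕ), F n ∈ S (Ω n)) →
    (∀ z, z ∉ B → Tendsto (fun n => F n z) 𝒰 (𝓝 (f z))) → f ∈ S Set.univ
  uniq : ∀ Ω : Set ℂ, IsOpen Ω → Convex ℝ Ω → ∀ f ∈ S Ω, ∀ g ∈ S Ω, ∀ z₀ ∈ Ω, z₀ ∉ B → (∃ᶠ z in 𝓝[≠] z₀, f z = g z) → ∀ z ∈ Ω, z ∉ B → f z = g z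
  half : ∃ ε : ℝ, 0 < ε ∧ ∀ σ ρ : ℝ, (σ = 1 ∨ σ = -1) → ∀ f ∈ S (HP σ ρ), ∀ g ∈ S (HP σ ρ),
    (∀ z ∈ HP σ ρ, z ∈ Gd B δ → |z.re| ≤ W → dist (f z) (g z) ≤ ε) → AgO B (HP σ ρ) f g

variable {Y : Type} [MetricSpace Y] {K : Set Y} {p : ℝ} {B : Set ℂ} {δ W : ℝ} {S : Set ℂ → Set (ℂ → Y)}
    {Zr : ℂ → Y → Prop} {II : ℂ → Y → Y → ℂ}

end Pool.Agent.H87.LU

end

section

/-!
# LV Uniq: identity theorem for the limits of sections over a connected open set

`ident`: two maps on a connected open set which satisfy the local identity theorem outside a closed discrete set `B` satisfy the global one outside `B`.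
`SLift`: local lifts of the members of `SO`.  `so_uniq`.
-/

set_option autoImplicit false

open Topology Filter Metric

namespace Pool.Agent.H87.LV

attribute [-instance] ProperSMul.toContinuousSMul

open Pool.Agent.H36.BP (EN)
open Pool.Agent.H62.EF (MN pr)
open Pool.Agent.H62.EL (Gd BadSet)

/-- the punctured disc is connected -/
theorem preconnected_punct (z : ℂ) (r : ℝ) : IsPreconnected (ball z r \ {z}) := by
  have h1 : IsPreconnected (Set.Ioo (0 : ℝ) r ×ˢ (Set.univ : Set ℝ)) := isPreconnected_Ioo.prod isPreconnected_univ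
  have hc : Continuous fun p : ℝ × ℝ => z + (p.1 : ℂ) * Complex.exp (p.2 * Complex.I) := by fun_prop
  have h2 := h1.image _ hc.continuousOn
  have h3 : (fun p : ℝ × ℝ => z + (p.1 : ℂ) * Complex.exp (p.2 * Complex.I)) '' (Set.Ioo (0 : ℝ) r ×ˢ (Set.univ : Set ℝ)) = ball z r \ {z} := by
    ext w
    constructor
    · rintro ⟨p, ⟨⟨hp1, hp2⟩, -⟩, rfl⟩
      have hn : ‖(p.1 : ℂ) * Complex.exp (p.2 * Complex.I)‖ = p.1 := by
        rw [norm_mul, Complex.norm_exp_ofReal_mul_I, mul_one, Complex.norm_real, Real.norm_of_nonneg hp1.le]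
      refine ⟨?_, ?_⟩
      · rw [mem_ball, dist_eq_norm, add_sub_cancel_left, hn]
        exact hp2
      · intro h
        have h4 : (p.1 : ℂ) * Complex.exp (p.2 * Complex.I) = 0 := by
          have h5 : z + (p.1 : ℂ) * Complex.exp (p.2 * Complex.I) = z := h
          rwa [add_eq_left] at h5
        rw [h4, norm_zero] at hn
        exact hp1.ne hn
    · rintro ⟨hw, hwz⟩
      have hne : w - z ≠ 0 := sub_ne_zero.2 hwz
      refine ⟨(‖w - z‖, Complex.arg (w - z)), ⟨⟨norm_pos_iff.2 hne, ?_⟩, Set.mem_univ _⟩, ?_⟩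
      · rw [mem_ball, dist_eq_norm] at hw
        exact hw
      · show z + (‖w - z‖ : ℂ) * Complex.exp (Complex.arg (w - z) * Complex.I) = w
        rw [Complex.norm_mul_exp_arg_mul_I]
        ring
  rwa [h3] at h2

variable {N : ℕ} {X D : Set (EN N)} {Λ : AddSubgroup ℂ} {u : EN N → ℂ} {B : Set ℂ} {δ : ℝ}

theorem badSet_disc (hB : BadSet B Λ δ) (z : ℂ) : ∀ᶠ w in 𝓝[≠] z, w ∉ B := by
  have hδ := hB.pos
  rw [eventually_nhdsWithin_iff]
  by_cases h : ∃ b ∈ B, ‖b - z‖ < 4 * δ ∧ b ≠ z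
  · obtain ⟨b, hb, hbz, hne⟩ := h
    have hpos : 0 < ‖b - z‖ := norm_pos_iff.2 (sub_ne_zero.2 hne)
    filter_upwards [ball_mem_nhds z (lt_min hpos (by linarith : 0 < 4 * δ))] with w hw hwz hwB
    rw [mem_ball, dist_eq_norm] at hw
    have h1 := hw.trans_le (min_le_left _ _)
    have h2 := hw.trans_le (min_le_right _ _)
    have h3 : b ≠ w := by
      rintro rfl
      exact lt_irrefl _ h1
    have h4 := hB.sep b hb w hwB h3
    have h5 : b - w = (b - z) - (w - z) := by ring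
    rw [h5] at h4
    have h6 := norm_sub_le (b - z) (w - z)
    linarith
  · push Not at h
    filter_upwards [ball_mem_nhds z (by linarith : 0 < 4 * δ)] with w hw hwz hwB
    rw [mem_ball, dist_eq_norm] at hw
    exact hwz (h w hwB hw)

end Pool.Agent.H87.LV

end

section

/-!
# Local inverses of maps close to the identity

If `θ n → id` locally uniformly on an open set `Ω` of the complex plane and the maps `θ n` are
eventually holomorphic near every compact subset, then for every compact `K ⊆ Ω` and `ε > 0`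
eventually there is a holomorphic right inverse of `θ n` on a neighbourhood of `K`,
`ε`-close to the identity.
-/

set_option autoImplicit false

open Filter Topology Metric Set

namespace Pool.Agent.H97.LU

attribute [-instance] ProperSMul.toContinuousSMul

theorem exists_inverse {ι : Type*} {l : Filter ι} {Ω : Set ℂ} (hΩ : IsOpen Ω)
    {θ : ι → ℂ → ℂ} (hθ : TendstoLocallyUniformlyOn θ id l Ω)
    (hd : ∀ K : Set ℂ, K ⊆ Ω → IsCompact K → ∀ᶠ n in l, ∀ z ∈ K, DifferentiableAt ℂ (θ n) z)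
    {K : Set ℂ} (hK : IsCompact K) (hKΩ : K ⊆ Ω) {ε : ℝ} (hε : 0 < ε) :
    ∀ᶠ n in l, ∃ (W : Set ℂ) (κ : ℂ → ℂ), IsOpen W ∧ K ⊆ W ∧ DifferentiableOn ℂ κ W ∧
      ∀ w ∈ W, θ n (κ w) = w ∧ ‖κ w - w‖ < ε := by
  obtain ⟨r, hr0, hrΩ⟩ := hK.exists_cthickening_subset_open hΩ hKΩ
  obtain ⟨δ, hδ0, hδr, hδε⟩ : ∃ δ : ℝ, 0 < δ ∧ 5 * δ ≤ r ∧ δ < ε := by
    refine ⟨min (r / 5) (ε / 2), lt_min (by positivity) (by positivity), ?_, ?_⟩
    · have := min_le_left (r / 5) (ε / 2); linarith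
    · have := min_le_right (r / 5) (ε / 2); linarith
  set K5 : Set ℂ := cthickening (5 * δ) K with hK5
  have hK5c : IsCompact K5 := hK.cthickening
  have hK5Ω : K5 ⊆ Ω := (cthickening_mono hδr K).trans hrΩ
  have hu : TendstoUniformlyOn θ id l K5 := by
    rw [tendstoLocallyUniformlyOn_iff_forall_isCompact hΩ] at hθ
    exact hθ K5 hK5Ω hK5c
  have h1 : ∀ᶠ n in l, ∀ z ∈ K5, dist (id z) (θ n z) < δ / 2 := by
    rw [Metric.tendstoUniformlyOn_iff] at hu
    exact hu (δ / 2) (by positivity)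
  filter_upwards [h1, hd K5 hK5Ω hK5c] with n hn hdn
  -- the error `h`
  set h : ℂ → ℂ := fun z => θ n z - z with hh
  have hhb : ∀ z ∈ K5, ‖h z‖ ≤ δ / 2 := by
    intro z hz
    have := hn z hz
    rw [id, dist_comm, dist_eq_norm] at this
    exact this.le
  have hhd : ∀ z ∈ K5, DifferentiableAt ℂ h z := fun z hz => (hdn z hz).sub differentiableAt_id
  -- membership in `K5`
  have hmem : ∀ w ∈ thickening δ K, ∀ z, dist z w ≤ 3 * δ → z ∈ K5 := by
    intro w hw z hz
    obtain ⟨k, hk, hkw⟩ := mem_thickening_iff.1 hw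
    apply mem_cthickening_of_dist_le z k _ K hk
    calc dist z k ≤ dist z w + dist w k := dist_triangle _ _ _
      _ ≤ 5 * δ := by linarith
  have hderiv : ∀ w ∈ thickening δ K, ∀ z ∈ closedBall w (2 * δ), ‖deriv h z‖ ≤ 1 / 2 := by
    intro w hw z hz
    have hsub : ∀ y ∈ closedBall z δ, y ∈ K5 := by
      intro y hy
      apply hmem w hw y
      calc dist y w ≤ dist y z + dist z w := dist_triangle _ _ _
        _ ≤ 3 * δ := by
          have h1 := mem_closedBall.1 hy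
          have h2 := mem_closedBall.1 hz
          linarith
    have hdc : DiffContOnCl ℂ h (ball z δ) := by
      apply DifferentiableOn.diffContOnCl
      intro y hy
      apply (hhd y (hsub y _)).differentiableWithinAt
      exact closure_ball_subset_closedBall hy
    have := Complex.norm_deriv_le_of_forall_mem_sphere_norm_le hδ0 hdc (C := δ / 2)
      (fun y hy => hhb y (hsub y (sphere_subset_closedBall hy)))
    calc ‖deriv h z‖ ≤ δ / 2 / δ := this
      _ = 1 / 2 := by field_simp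
  have hlip : ∀ w ∈ thickening δ K, ∀ x ∈ closedBall w (2 * δ), ∀ y ∈ closedBall w (2 * δ),
      ‖h y - h x‖ ≤ 1 / 2 * ‖y - x‖ := by
    intro w hw x hx y hy
    refine Convex.norm_image_sub_le_of_norm_deriv_le (𝕜 := ℂ) (fun z hz => ?_)
      (hderiv w hw) (convex_closedBall w (2 * δ)) hx hy
    apply hhd z (hmem w hw z _)
    have := mem_closedBall.1 hz
    linarith
  -- fixed points
  have hfix : ∀ w ∈ thickening δ K, ∃ z, ‖z - w‖ ≤ δ ∧ θ n z = w := by
    intro w hw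
    have hmaps : MapsTo (fun z => w - h z) (closedBall w δ) (closedBall w δ) := by
      intro z hz
      rw [mem_closedBall, dist_eq_norm]
      have hz5 : z ∈ K5 := hmem w hw z (by have := mem_closedBall.1 hz; linarith)
      have := hhb z hz5
      have e : w - h z - w = - h z := by ring
      rw [e, norm_neg]
      linarith
    have hcon : ContractingWith (1 / 2 : NNReal)
        (hmaps.restrict (fun z => w - h z) (closedBall w δ) (closedBall w δ)) := by
      refine ⟨by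
        rw [← NNReal.coe_lt_coe]
        norm_num, ?_⟩
      refine LipschitzWith.of_dist_le_mul fun x y => ?_
      have hx : (x : ℂ) ∈ closedBall w (2 * δ) :=
        closedBall_subset_closedBall (by linarith) x.2
      have hy : (y : ℂ) ∈ closedBall w (2 * δ) :=
        closedBall_subset_closedBall (by linarith) y.2
      have := hlip w hw x hx y hy
      rw [Subtype.dist_eq, Subtype.dist_eq]
      simp only [MapsTo.val_restrict_apply, dist_eq_norm]
      have e : (w - h (x : ℂ)) - (w - h (y : ℂ)) = h (y : ℂ) - h (x : ℂ) := by ring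
      rw [e]
      have e2 : ‖(x : ℂ) - y‖ = ‖(y : ℂ) - x‖ := norm_sub_rev _ _
      rw [e2]
      simpa using this
    obtain ⟨z, hz, hzf, -⟩ := ContractingWith.exists_fixedPoint' (s := closedBall w δ)
      isClosed_closedBall.isComplete hmaps hcon (x := w) (mem_closedBall_self hδ0.le)
      (edist_ne_top _ _)
    refine ⟨z, ?_, ?_⟩
    · have := mem_closedBall.1 hz
      rwa [dist_eq_norm] at this
    · have hz' : w - h z = z := hzf
      have : h z = θ n z - z := rfl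
      rw [this] at hz'
      linear_combination -hz'
  choose! κ hκ1 hκ2 using hfix
  refine ⟨thickening δ K, κ, isOpen_thickening, self_subset_thickening hδ0 K, ?_, ?_⟩
  · intro w hw
    apply DifferentiableAt.differentiableWithinAt
    -- continuity of `κ`
    have hev : ∀ᶠ w' in 𝓝 w, w' ∈ thickening δ K ∧ dist w' w ≤ δ := by
      filter_upwards [isOpen_thickening.mem_nhds hw, closedBall_mem_nhds w hδ0] with w' h1 h2
      exact ⟨h1, mem_closedBall.1 h2⟩
    have hle : ∀ᶠ w' in 𝓝 w, ‖κ w' - κ w‖ ≤ 2 * ‖w' - w‖ := by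
      filter_upwards [hev] with w' hw'
      have hx : κ w ∈ closedBall w (2 * δ) := by
        rw [mem_closedBall, dist_eq_norm]
        have := hκ1 w hw
        linarith
      have hy : κ w' ∈ closedBall w (2 * δ) := by
        rw [mem_closedBall]
        have h1 : dist (κ w') w' ≤ δ := by
          rw [dist_eq_norm]; exact hκ1 w' hw'.1
        calc dist (κ w') w ≤ dist (κ w') w' + dist w' w := dist_triangle _ _ _
          _ ≤ 2 * δ := by linarith [hw'.2]
      have h3 := hlip w hw _ hx _ hy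
      have e1 : h (κ w') = w' - κ w' := by
        show θ n (κ w') - κ w' = _
        rw [hκ2 w' hw'.1]
      have e2 : h (κ w) = w - κ w := by
        show θ n (κ w) - κ w = _
        rw [hκ2 w hw]
      rw [e1, e2] at h3
      have e3 : κ w' - κ w = (w' - w) - ((w' - κ w') - (w - κ w)) := by ring
      have h4 : ‖κ w' - κ w‖ ≤ ‖w' - w‖ + ‖(w' - κ w') - (w - κ w)‖ := by
        conv_lhs => rw [e3]
        exact norm_sub_le _ _
      linarith
    have hcont : ContinuousAt κ w := by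
      rw [ContinuousAt, tendsto_iff_norm_sub_tendsto_zero]
      refine squeeze_zero' (Eventually.of_forall fun _ => norm_nonneg _) hle ?_
      have h5 : Tendsto (fun w' : ℂ => ‖w' - w‖) (𝓝 w) (𝓝 0) := by
        have h : Continuous (fun w' : ℂ => ‖w' - w‖) := by fun_prop
        simpa using h.tendsto w
      simpa using h5.const_mul 2
    have hκK : κ w ∈ closedBall w (2 * δ) := by
      rw [mem_closedBall, dist_eq_norm]
      have := hκ1 w hw
      linarith
    have hκ5 : κ w ∈ K5 := hmem w hw _ (by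
      have := mem_closedBall.1 hκK
      linarith)
    have hD : HasDerivAt (θ n) (deriv (θ n) (κ w)) (κ w) := (hdn _ hκ5).hasDerivAt
    have hne : deriv (θ n) (κ w) ≠ 0 := by
      intro h0
      have h6 : deriv h (κ w) = -1 := by
        have : HasDerivAt h (deriv (θ n) (κ w) - 1) (κ w) := hD.sub (hasDerivAt_id _)
        rw [this.deriv, h0]
        ring
      have h7 := hderiv w hw _ hκK
      rw [h6, norm_neg, norm_one] at h7
      linarith
    have hleft : ∀ᶠ w' in 𝓝 w, θ n (κ w') = w' := by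
      filter_upwards [hev] with w' hw'
      exact hκ2 w' hw'.1
    exact (hD.of_local_left_inverse hcont hne hleft).differentiableAt
  · intro w hw
    exact ⟨hκ2 w hw, lt_of_le_of_lt (hκ1 w hw) hδε⟩

end Pool.Agent.H97.LU

end
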