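import Mathlib

/-! The parts of this file: H14.PP.Defs_1, H36.BP.Defs_1. -/

section

/-!
# Project BP, metric half: definitions

`X` is the cone (without `0`) over a compact surface in `ℙ^N`, `K ⊆ X` the cone over the complement
of a curve (`K = X` in the compact case), `T` the cone over the total curve: it contains `X \ K`,
and `K ∩ T` is the exceptional set.
-/

open Topology Filter Metric

namespace Pool.Agent.H14.PP

attribute [-instance] ProperSMul.toContinuousSMul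

variable {N : ℕ}

/-- The reduced equation of `X \ K` in a chart. -/
def gD (d : Bool × Bool) (p : ℂ × ℂ) : ℂ :=
  (if d.1 = true then p.1 else 1) * (if d.2 = true then p.2 else 1)

/-- The parameters of the metric near `T`. -/
structure Par where
  ε : ℝ
  κ : ℝ
  K : ℝ
  M : ℝ
  e : ℝ

/-- The function measuring the distance to `T` in a chart. -/
noncomputable def small (nd : Bool) (p : ℂ × ℂ) : ℝ := if nd = true then ‖p.1‖ * ‖p.2‖ else ‖p.1‖

/-- The matrix `(l, b; c, m)` of the derivative of a change of charts, at a point with first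
coordinate `s`, where the first new coordinate is `u`, is `C`-controlled. -/
def TE (C : ℝ) (s u l b c m : ℂ) : Prop :=
  ‖b‖ ≤ C * ‖s‖ ∧ ‖c‖ ≤ C ∧ |‖u‖ - ‖l‖ * ‖s‖| ≤ C * ‖s‖ ^ 2 ∧ C⁻¹ ≤ ‖l‖ ∧ ‖l‖ ≤ C ∧ C⁻¹ ≤ ‖m‖ ∧
    ‖m‖ ≤ C

/-- The conditions on the parameters for the comparison of the pieces of two charts. -/
structure DomPar (C : ℝ) (P : Par) : Prop where
  ε_pos : 0 < P.ε
  ε_le : P.ε ≤ 1
  κ_pos : 0 < P.κ
  κ_le : P.κ ≤ 1 / 4
  κ_log : P.κ * Real.log C ≤ P.ε / 8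
  K_pos : 0 < P.K
  K_ge : 16 * C ^ 4 * Real.exp 2 ≤ Real.exp (3 * P.K / 4)
  M_ge : 1 ≤ P.M
  e_pos : 0 < P.e
  e_log : P.e * Real.log (1 + P.M) ≤ P.ε / 16

/-- The condition on the parameters for the convexity. -/
structure ConvPar (P : Par) : Prop where
  ε_pos : 0 < P.ε
  ε_le : P.ε ≤ 1
  κ_pos : 0 < P.κ
  κ_le : P.κ ≤ 1 / 4
  K_pos : 0 < P.K
  M_ge : 1 ≤ P.M
  e_pos : 0 < P.e
  e_log : P.e * Real.log (1 + P.M) ≤ P.ε / 16
  main : P.K ≤ P.e * P.M * P.κ ^ 2 * (Real.exp (-P.K - 1) / 2) ^ 2 / 4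

/-- The Jacobian determinant. -/
noncomputable def jac (τ : ℂ × ℂ → ℂ × ℂ) (p : ℂ × ℂ) : ℂ :=
  (fderiv ℂ τ p (1, 0)).1 * (fderiv ℂ τ p (0, 1)).2 -
    (fderiv ℂ τ p (0, 1)).1 * (fderiv ℂ τ p (1, 0)).2

/-- `TE` for a map at a point. -/
def TEmap (C : ℝ) (τ : ℂ × ℂ → ℂ × ℂ) (p : ℂ × ℂ) : Prop :=
  TE C p.1 (τ p).1 (fderiv ℂ τ p (1, 0)).1 (fderiv ℂ τ p (0, 1)).1 (fderiv ℂ τ p (1, 0)).2
    (fderiv ℂ τ p (0, 1)).2

section metric

variable {W : Type*} [NormedAddCommGroup W] [InnerProductSpace ℂ W]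

end metric

end Pool.Agent.H14.PP

end

section

/-!
# Project BP (MP_64ff02_ag): definitions for the function theory half

`Sub u z₀ c`: `u z₀ > 0` and `log u` has Laplacian at least `4 c` at `z₀` in the sense of lower supports: for every `c' < c` there is a
holomorphic `h` near `z₀` with `|h z₀| = u z₀` and `|h z| exp(c' |z - z₀|²) ≤ u z` near `z₀`.

The ambient space is `E = EN N = ℂ^(N+1)` with the Euclidean norm.  `wd x v = |x ∧ v|`, `fs x v = |x ∧ v|/|x|²` is the Fubini-Study length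
of the vector `v` at `[x]`.  A subset of projective space is described by its cone `K` (without `0`).  `mt G F z = G (F z) (F' z)`.
-/

set_option autoImplicit false

namespace Pool.Agent.H36.BP

attribute [-instance] ProperSMul.toContinuousSMul

open Filter Topology

/-- lower support of exponent `c` at `z₀` -/
def Sub (u : ℂ → ℝ) (z₀ : ℂ) (c : ℝ) : Prop :=
  0 < u z₀ ∧ ∀ c' : ℝ, c' < c → ∃ h : ℂ → ℂ, AnalyticAt ℂ h z₀ ∧ ‖h z₀‖ = u z₀ ∧
    ∀ᶠ z in 𝓝 z₀, ‖h z‖ * Real.exp (c' * ‖z - z₀‖ ^ 2) ≤ u z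

variable {N : ℕ}

end Pool.Agent.H36.BP

end
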