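import Pool.Agent.H94.CB.H36.BP.Defs
import Pool.Agent.H94.CB.M01

/-! The parts of this file: H36.BP.Defs_2, H36.BP.GermChart, H36.BP.WdA. -/

section

/-!
# Project BP (MP_64ff02_ag): definitions for the function theory half

`Sub u z₀ c`: `u z₀ > 0` and `log u` has Laplacian at least `4 c` at `z₀` in the sense of lower supports: for every `c' < c` there is a
holomorphic `h` near `z₀` with `|h z₀| = u z₀` and `|h z| exp(c' |z - z₀|²) ≤ u z` near `z₀`.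

The ambient space is `E = EN N = ℂ^(N+1)` with the Euclidean norm.  `wd x v = |x ∧ v|`, `fs x v = |x ∧ v|/|x|²` is the Fubini-Study length
of the vector `v` at `[x]`.  A subset of projective space is described by its cone `K` (without `0`).  `mt G F z = G (F z) (F' z)`.
-/

set_option autoImplicit false

namespace Pool.Agent.H36.BP

attribute [-instance] ProperSMul.toContinuousSMul

open Filter Topology

variable {N : ℕ}

/-- `F` is a holomorphic curve in the cone `K` over the set `U` -/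
def Curve (K : Set (EN N)) (U : Set ℂ) (F : ℂ → EN N) : Prop :=
  DifferentiableOn ℂ F U ∧ ∀ z ∈ U, F z ∈ K

/-- the length of `F'` -/
noncomputable def mt (G : EN N → EN N → ℝ) (F : ℂ → EN N) (z : ℂ) : ℝ := G (F z) (deriv F z)

/-- the properties of the metric `G` on the cone `K` (of a projective surface, or of the complement of a curve in it) with exceptional cone `B`;
`ρ` measures the distance to `B`.  `rel_open`, `hur`, `lim` are automatic if `K` is closed, see `Cl.lean`; `hur` follows from Hurwitz' theorem if `K` is the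
set of points of a closed cone where a homogeneous polynomial does not vanish (`ClP.lean`). -/
structure MetricData (K B : Set (EN N)) (G : EN N → EN N → ℝ) (ρ : EN N → ℝ) (M : ℕ) (c₀ C : ℝ) : Prop where
  ne : ∀ x ∈ K, x ≠ 0
  smul : ∀ x ∈ K, ∀ c : ℂ, c ≠ 0 → c • x ∈ K
  c₀_pos : 0 < c₀
  C_nonneg : 0 ≤ C
  nonneg : ∀ x ∈ K, ∀ v, 0 ≤ G x v
  usc : ∀ x ∈ K, ∀ v, ∀ a : ℝ, G x v < a → ∀ᶠ p in 𝓝 (x, v), p.1 ∈ K → G p.1 p.2 < a
  inv : ∀ x ∈ K, ∀ v (c a : ℂ), c ≠ 0 → G (c • x) (c • v + a • x) = G x v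
  hom : ∀ x ∈ K, ∀ v (c : ℂ), G x (c • v) = ‖c‖ * G x v
  zero : ∀ (F : ℂ → EN N) (z₀ : ℂ), AnalyticAt ℂ F z₀ → (∀ᶠ z in 𝓝 z₀, F z ∈ K ∧ F z ∈ B) → mt G F z₀ = 0
  sub : ∀ (F : ℂ → EN N) (z₀ : ℂ), AnalyticAt ℂ F z₀ → (∀ᶠ z in 𝓝 z₀, F z ∈ K) → 0 < mt G F z₀ →
    Sub (fun z => mt G F z * ‖F z‖ ^ (-c₀)) z₀ (-(C * mt G F z₀ ^ 2))
  ρ_nonneg : ∀ x ∈ K, 0 ≤ ρ x
  lower : ∀ x ∈ K, ∀ v, ρ x ^ M * fs x v ≤ G x v
  ρ_zero : ∀ (F : ℂ → EN N) (z₀ : ℂ), AnalyticAt ℂ F z₀ → (∀ᶠ z in 𝓝 z₀, F z ∈ K) →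
    (∃ᶠ z in 𝓝[≠] z₀, ρ (F z) = 0) → ∀ᶠ z in 𝓝 z₀, F z ∈ B
  rel_open : ∀ x ∈ K, ∀ᶠ y in 𝓝 x, y ∈ closure K → y ∈ K
  hur : ∀ (l : Filter ℕ), l.NeBot → ∀ (F : ℕ → ℂ → EN N) (H : ℂ → EN N) (k : ℕ) (z₀ : ℂ) (s : ℝ), 0 < s →
    (∀ᶠ n in l, Curve K (Metric.ball z₀ s) (F n)) → DifferentiableOn ℂ H (Metric.ball z₀ s) →
    TendstoLocallyUniformlyOn F (fun z => (z - z₀) ^ k • H z) l (Metric.ball z₀ s) → H z₀ ≠ 0 → H z₀ ∉ K → ∀ᶠ z in 𝓝 z₀, H z ∉ K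
  lim : ∀ (l : Filter ℕ), l.NeBot → ∀ (F : ℕ → ℂ → EN N) (H : ℂ → EN N) (z₀ : ℂ) (s : ℝ), 0 < s →
    (∀ᶠ n in l, Curve K (Metric.ball z₀ s) (F n)) → TendstoLocallyUniformlyOn F H l (Metric.ball z₀ s) → H z₀ ≠ 0 →
    (∀ z ∈ Metric.ball z₀ s, H z ∉ K) → ∀ ε : ℝ, 0 < ε → ∀ᶠ n in l, mt G (F n) z₀ < ε

/-- every entire curve in `K` which is not constant as a map into projective space lies in `B` -/
def BrodyMod (K B : Set (EN N)) : Prop :=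
  ∀ F : ℂ → EN N, Differentiable ℂ F → (∀ z, F z ∈ K) → (∃ z w, ∀ c : ℂ, F z ≠ c • F w) → ∀ z, F z ∈ B

end Pool.Agent.H36.BP

end

section

/-!
# BP GermChart: from germ-level charts to charts on the bidisc of radius 2

Let `ℓ` be a linear form with `ℓ (σ 0) = 1`, `σ₁ p = (ℓ (σ p))⁻¹ • σ p`, `σ' p = σ₁ (r p)` for a small `r`, `U = {x : ℓ x ≠ 0, x/ℓ x ∈ W₀, |τ (x/ℓ x)| < 2r}`, `q x = τ (x/ℓ x)/r`.
-/

set_option autoImplicit false

namespace Pool.Agent.H36.BP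

attribute [-instance] ProperSMul.toContinuousSMul

open Filter Topology Metric

variable {N : ℕ}

/-- germ-level charts -/
structure IsGermChart (X : Set (EN N)) (σ : ℂ × ℂ → EN N) (τ : EN N → ℂ × ℂ) : Prop where
  σ_an : AnalyticAt ℂ σ 0
  σ_mem : ∀ᶠ p in 𝓝 (0 : ℂ × ℂ), σ p ∈ X
  τ_an : AnalyticAt ℂ τ (σ 0)
  left : ∀ᶠ p in 𝓝 (0 : ℂ × ℂ), τ (σ p) = p
  right : ∀ᶠ y in 𝓝 (σ 0), y ∈ X → ∃ c : ℂ, c ≠ 0 ∧ y = c • σ (τ y)
  inv : ∀ᶠ z in 𝓝 (σ 0, (1 : ℂ)), τ (z.2 • z.1) = τ z.1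

end Pool.Agent.H36.BP

end

section

/-!
# BP WdA: the wedge norm

`wd x v = |x ∧ v|`, square root of the Gram determinant.  `gram_proj` : for orthonormal `a, b` the determinant of the projections is at most the
Gram determinant: with `x = Px + x'`, `v = Pv + v'` (orthogonal decomposition along the span of `a, b`), `A = |Px|²`, `B = |Pv|²`, `C = ⟨Px,Pv⟩`,
`(A + a')(B + b') - |C + c'|² ≥ AB - |C|²` because `a'b' ≥ |c'|²` and `A b' + a' B ≥ 2 (A B a' b')^(1/2) ≥ 2 |C||c'|`; and `AB - |C|² = |det|²`.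
`wd_norming` : for `x, v` with `wd x v > 0` take `a = x/|x|`, `b` = normalised component of `v` orthogonal to `x`.
-/

set_option autoImplicit false

namespace Pool.Agent.H36.BP

attribute [-instance] ProperSMul.toContinuousSMul

open Filter Topology Metric

variable {N : ℕ}

theorem le_of_sq_le_sq' {a b : ℝ} (h : a ^ 2 ≤ b ^ 2) (hb : 0 ≤ b) : a ≤ b :=
  abs_le_of_sq_le_sq' h hb |>.2

theorem WdA_rad (x v : EN N) : 0 ≤ ‖x‖ ^ 2 * ‖v‖ ^ 2 - ‖inner ℂ x v‖ ^ 2 := by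
  have h := norm_inner_le_norm (𝕜 := ℂ) x v
  have h2 : ‖inner ℂ x v‖ ^ 2 ≤ (‖x‖ * ‖v‖) ^ 2 := pow_le_pow_left₀ (norm_nonneg _) h 2
  rw [mul_pow] at h2
  linarith

theorem wd_nonneg (x v : EN N) : 0 ≤ wd x v := by
  exact Real.sqrt_nonneg _

/-- Cauchy-Schwarz -/
theorem wd_sq (x v : EN N) : wd x v ^ 2 = ‖x‖ ^ 2 * ‖v‖ ^ 2 - ‖inner ℂ x v‖ ^ 2 := by
  unfold wd
  rw [Real.sq_sqrt (WdA_rad x v)]

theorem wd_le (x v : EN N) : wd x v ≤ ‖x‖ * ‖v‖ := by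
  have h := wd_sq x v
  have h2 : wd x v ^ 2 ≤ (‖x‖ * ‖v‖) ^ 2 := by
    rw [mul_pow]
    nlinarith [sq_nonneg ‖inner ℂ x v‖]
  exact le_of_sq_le_sq' h2 (by positivity)

theorem wd_cont : Continuous (fun p : EN N × EN N => wd p.1 p.2) := by
  unfold wd
  have h1 : Continuous (fun p : EN N × EN N => (inner ℂ p.1 p.2 : ℂ)) := continuous_fst.inner continuous_snd
  exact Real.continuous_sqrt.comp (((continuous_fst.norm.pow 2).mul (continuous_snd.norm.pow 2)).sub (h1.norm.pow 2))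

end Pool.Agent.H36.BP

end
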