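import Pool.Agent.H94.CB.H14.PP.Defs
import Pool.Agent.H94.CB.H62.EF.Defs
import Pool.Agent.H94.CB.M05

/-! The parts of this file: H62.EF.Defs_2, H62.EF.PrA. -/

section

/-!
# EF Defs: surfaces with a holomorphic map to an elliptic curve

`X` is the cone (without `0`) of a smooth projective surface, in `EN N = ℂ^(N+1)` with the Euclidean norm.  The map to `ℂ / Λ` is
given by a function `u : EN N → ℂ` which is holomorphic modulo `Λ`.  `pr x` is the orthogonal projection to the line of `x`, a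
matrix: in this way the projective space is a compact subset of a Euclidean space.
-/

set_option autoImplicit false

open Topology Filter Metric

namespace Pool.Agent.H62.EF

attribute [-instance] ProperSMul.toContinuousSMul

open Pool.Agent.H36.BP (EN fs wd)
open Pool.Agent.H14.PP (IsCone Chart Form Tan)

variable {N : ℕ}

/-- `u` is a holomorphic map from the surface to `ℂ / Λ` -/
structure TorusMap (X : Set (EN N)) (Λ : AddSubgroup ℂ) (u : EN N → ℂ) : Prop where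
  smul : ∀ x ∈ X, ∀ c : ℂ, c ≠ 0 → u (c • x) - u x ∈ Λ
  loc : ∀ x ∈ X, ∃ v : EN N → ℂ, AnalyticAt ℂ v x ∧ ∀ᶠ y in 𝓝 x, y ∈ X → u y - v y ∈ Λ

/-- `X` is smooth: there are charts -/
def Charts (X : Set (EN N)) : Prop := ∀ x ∈ X, ∃ χ : Chart X, x ∈ χ.U ∧ χ.q x = 0

/-- a vector in the kernel of the derivative of `υ` at `p` -/
noncomputable def grd (υ : ℂ × ℂ → ℂ) (p : ℂ × ℂ) : ℂ × ℂ := (-(fderiv ℂ υ p (0, 1)), fderiv ℂ υ p (1, 0))

/-- `v` is a tangent vector of the cone `X` at `x` with `du (v) = c` -/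
def DU (X : Set (EN N)) (Λ : AddSubgroup ℂ) (u : EN N → ℂ) (x v : EN N) (c : ℂ) : Prop :=
  ∃ (γ : ℂ → EN N) (D : ℂ → ℂ), AnalyticAt ℂ γ 0 ∧ (∀ᶠ z in 𝓝 (0 : ℂ), γ z ∈ X) ∧ γ 0 = x ∧ deriv γ 0 = v ∧ AnalyticAt ℂ D 0 ∧
    (∀ᶠ z in 𝓝 (0 : ℂ), u (γ z) - D z ∈ Λ) ∧ deriv D 0 = c

/-- `t` is the length at `x` of the form `Ω` (a section of `M K - H`), evaluated on vertical vectors -/
def TfAt {X : Set (EN N)} {M : ℕ} (Λ : AddSubgroup ℂ) (u : EN N → ℂ) (Ω : Form X M 1) (x : EN N) (t : ℝ) : Prop :=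
  ∃ v w : EN N, DU X Λ u x v 0 ∧ DU X Λ u x w 1 ∧ 0 < wd x v ∧ t = ‖Ω.toFun x v w‖ * ‖x‖ ^ (1 + 2 * M) / wd x v ^ M

/-- a local lift of `u` in the chart `χ`, without critical points, on the ball of radius `s` -/
structure Adm {X : Set (EN N)} (Λ : AddSubgroup ℂ) (u : EN N → ℂ) (χ : Chart X) (υ : ℂ × ℂ → ℂ) (s : ℝ) : Prop where
  pos : 0 < s
  lt : s < 2
  an : ∀ p ∈ ball (0 : ℂ × ℂ) s, AnalyticAt ℂ υ p
  lift : ∀ p ∈ ball (0 : ℂ × ℂ) s, u (χ.σ p) - υ p ∈ Λ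
  ne : ∀ p ∈ ball (0 : ℂ × ℂ) s, fderiv ℂ υ p ≠ 0

end Pool.Agent.H62.EF

end

section

/-!
# EF PrA: the projection matrix of a line

`pr x = x x^* / ‖x‖²`.  For `x ≠ 0`, `y ≠ 0`: `‖pr x‖ = 1`, `⟨pr x, pr y⟩ = ‖⟨x, y⟩‖² / (‖x‖² ‖y‖²)` (`∑_{i,j} conj (x i conj (x j)) y i conj (y j)`),
so `‖pr x - pr y‖² = 2 - 2 ‖⟨x, y⟩‖² / (‖x‖² ‖y‖²) = 2 (wd x y)² / (‖x‖² ‖y‖²)` (`wd x y ^ 2 = ‖x‖² ‖y‖² - ‖⟨x, y⟩‖²`, the radicand is
nonnegative by Cauchy-Schwarz).  `pr_eq_iff`: `wd x y = 0` iff `x` is a multiple of `y` (equality in Cauchy-Schwarz, or the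
lemmas of `H36/BP/WdA.lean`).
`isCompact_pr`: `pr '' X = pr '' (X ∩ sphere 0 1)` (`smul_mem`), and `X ∩ sphere 0 1` is compact (`IsCone.closed`).
`nm_close`: `‖(‖x₀‖² / ⟨x₀, x⟩) • x - x₀‖² = ‖x₀‖² (wd x₀ x)² / ‖⟨x₀, x⟩‖²`: the vector `(‖x₀‖² / ⟨x₀, x⟩) • x - x₀` is orthogonal to
`x₀`; and `(wd x₀ x)² = ‖x₀‖² ‖x‖² ‖pr x - pr x₀‖² / 2`, `‖⟨x₀, x⟩‖² = ‖x₀‖² ‖x‖² (1 - ‖pr x - pr x₀‖² / 2)`.
(`inner ℂ x₀ x` is linear in `x`.)
-/

set_option autoImplicit false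

open Topology Filter Metric

namespace Pool.Agent.H62.EF

attribute [-instance] ProperSMul.toContinuousSMul

open Pool.Agent.H36.BP (EN fs wd)

variable {N : ℕ}

theorem wd_sq (x y : EN N) : wd x y ^ 2 = ‖x‖ ^ 2 * ‖y‖ ^ 2 - ‖inner ℂ x y‖ ^ 2 := by
  exact Pool.Agent.H36.BP.wd_sq x y

private theorem inner_sum (x y : EN N) : (inner ℂ x y : ℂ) = ∑ i, (starRingEnd ℂ) (x i) * y i := by
  rw [PiLp.inner_apply]
  refine Finset.sum_congr rfl fun i _ => ?_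
  rw [RCLike.inner_apply]
  ring

theorem sq_ne {x : EN N} (hx : x ≠ 0) : ((‖x‖ ^ 2 : ℝ) : ℂ) ≠ 0 := by
  have : ‖x‖ ≠ 0 := norm_ne_zero_iff.mpr hx
  exact_mod_cast pow_ne_zero 2 this

private theorem inner_pr (x y : EN N) : (inner ℂ (pr x) (pr y) : ℂ) =
    ((‖(inner ℂ x y : ℂ)‖ ^ 2 / (‖x‖ ^ 2 * ‖y‖ ^ 2) : ℝ) : ℂ) := by
  have h1 : ((‖(inner ℂ x y : ℂ)‖ ^ 2 : ℝ) : ℂ) = (inner ℂ x y : ℂ) * (starRingEnd ℂ) (inner ℂ x y : ℂ) := by
    rw [Complex.mul_conj']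
    push_cast
    rfl
  have h2 : (inner ℂ (pr x) (pr y) : ℂ) = ∑ p : Fin (N + 1) × Fin (N + 1),
      ((starRingEnd ℂ) (x p.1) * y p.1) * (x p.2 * (starRingEnd ℂ) (y p.2)) /
        (((‖x‖ ^ 2 : ℝ) : ℂ) * ((‖y‖ ^ 2 : ℝ) : ℂ)) := by
    rw [PiLp.inner_apply]
    refine Finset.sum_congr rfl fun p _ => ?_
    rw [RCLike.inner_apply]
    simp only [pr, map_div₀, map_mul, Complex.conj_conj, Complex.conj_ofReal]
    rw [div_mul_div_comm]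
    congr 1
    · ring
    · ring
  rw [h2, ← Finset.sum_div, Fintype.sum_prod_type]
  have h3 : ∑ i : Fin (N + 1), ∑ j : Fin (N + 1), ((starRingEnd ℂ) (x i) * y i) * (x j * (starRingEnd ℂ) (y j)) =
      (inner ℂ x y : ℂ) * (starRingEnd ℂ) (inner ℂ x y : ℂ) := by
    rw [inner_sum, map_sum, Finset.sum_mul_sum]
    refine Finset.sum_congr rfl fun i _ => Finset.sum_congr rfl fun j _ => ?_
    rw [map_mul, Complex.conj_conj]
  rw [h3, ← h1]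
  push_cast
  rfl

theorem norm_pr {x : EN N} (hx : x ≠ 0) : ‖pr x‖ = 1 := by
  have h0 : ‖x‖ ≠ 0 := norm_ne_zero_iff.mpr hx
  have h1 : ‖pr x‖ ^ 2 = 1 := by
    rw [← inner_self_eq_norm_sq (𝕜 := ℂ), inner_pr, inner_self_eq_norm_sq_to_K]
    simp only [Complex.coe_algebraMap, norm_pow, Complex.norm_real, norm_norm, RCLike.re_to_complex, Complex.ofReal_re]
    field_simp
  have h2 : 0 ≤ ‖pr x‖ := norm_nonneg _
  nlinarith [h1, h2]

theorem dist_pr_sq {x y : EN N} (hx : x ≠ 0) (hy : y ≠ 0) :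
    ‖pr x - pr y‖ ^ 2 = 2 * (wd x y ^ 2 / (‖x‖ ^ 2 * ‖y‖ ^ 2)) := by
  have h0 : ‖x‖ ≠ 0 := norm_ne_zero_iff.mpr hx
  have h0' : ‖y‖ ≠ 0 := norm_ne_zero_iff.mpr hy
  rw [norm_sub_sq (𝕜 := ℂ), inner_pr, norm_pr hx, norm_pr hy, wd_sq]
  simp only [RCLike.re_to_complex, Complex.ofReal_re]
  field_simp
  ring

theorem dist_pr {x y : EN N} (hx : x ≠ 0) (hy : y ≠ 0) :
    dist (pr x) (pr y) = Real.sqrt 2 * (wd x y / (‖x‖ * ‖y‖)) := by
  have h1 : 0 ≤ wd x y := Real.sqrt_nonneg _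
  have h2 : 0 ≤ Real.sqrt 2 * (wd x y / (‖x‖ * ‖y‖)) := by positivity
  have h3 : dist (pr x) (pr y) ^ 2 = (Real.sqrt 2 * (wd x y / (‖x‖ * ‖y‖))) ^ 2 := by
    rw [dist_eq_norm, dist_pr_sq hx hy, mul_pow, Real.sq_sqrt (by norm_num), div_pow, mul_pow]
  exact (pow_left_inj₀ dist_nonneg h2 two_ne_zero).mp h3

theorem continuousAt_pr {x : EN N} (hx : x ≠ 0) : ContinuousAt pr x := by
  have h1 : ContinuousAt (fun x : EN N => fun i : Fin (N + 1) × Fin (N + 1) =>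
      x i.1 * (starRingEnd ℂ) (x i.2) / ((‖x‖ ^ 2 : ℝ) : ℂ)) x := by
    refine continuousAt_pi.mpr fun i => ?_
    refine ContinuousAt.div ?_ ?_ (sq_ne hx)
    · refine ContinuousAt.mul ?_ ?_
      · exact (PiLp.continuous_apply 2 _ i.1).continuousAt
      · exact Complex.continuous_conj.continuousAt.comp (PiLp.continuous_apply 2 _ i.2).continuousAt
    · exact Complex.continuous_ofReal.continuousAt.comp (continuous_norm.pow 2).continuousAt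
  exact (PiLp.continuous_toLp 2 _).continuousAt.comp h1

end Pool.Agent.H62.EF

end
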