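import Pool.Agent.H94.CB.M01

/-! The parts of this file: EG.RL.Defs, EG.RL.Cell, EG.RL.Prim, EG.RL.LinkH. -/

section

/-!
# EG RL Defs: cells of a log surface near a fibre

A log surface near the fibre over `0` of a function `u`, described by charts `s i` on the bidisc of radius `2`, in which `u` is `k x ^ a y ^ b`,
`1 ≤ a`, `b` an integer.  The charts are of two types.

* `ex i = false`: then `b i = 0`; the frame of the 2-forms is `dx / x ∧ dy`; the cell `(i, μ)` is `(t, h) ↦ (μ exp (t / a), h)`.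
* `ex i = true`: the curve `y = 0` is removed; the frame of the 2-forms is `dx / x ∧ dy / y`; the cell `(i, μ)` is
  `(t, h) ↦ (μ exp ((t - b h) / a), exp h)`.  If `1 ≤ b` (a node of the fibre) then the chart with the two coordinates exchanged is also in the family;
  `b = 0`: a point of a horizontal component of the boundary; `b < 0`: a base point, where a component of the fibre over `∞` passes.

Here `k μ ^ a = 1` and `u = exp t`.  `g i t` is the coefficient of the 2-form `α` in the frame; in all cases `α = (g / a) dt ∧ dh` (`phi = g / a`).  The form may depend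
on the choice of the logarithm `t` of `u` (a form on a covering).  The chart is injective up to the rotations `(ζ x, ζ⁻¹ y)`, `ζ ^ orb = 1` (`orb = 1`, or
`ex = true`, `a = b`: quotient singularities at the nodes).
-/

set_option autoImplicit false

open Topology Filter Metric Set

namespace Pool.Agent.EG.RL

attribute [-instance] ProperSMul.toContinuousSMul

open Pool.Agent.H14.PP (jac)

/-- the charts -/
structure Atl (ι Y : Type) where
  /-- the parametrization -/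
  s : ι → ℂ × ℂ → Y
  /-- the type of the chart -/
  ex : ι → Bool
  /-- the first exponent -/
  a : ι → ℕ
  /-- the second exponent -/
  b : ι → ℤ
  /-- the constant -/
  k : ι → ℂ
  /-- the coefficient of the form -/
  g : ι → ℂ → ℂ × ℂ → ℂ

variable {ι Y : Type}

/-- the function `u` in a chart -/
noncomputable def Atl.u (M : Atl ι Y) (i : ι) (p : ℂ × ℂ) : ℂ := M.k i * p.1 ^ M.a i * p.2 ^ M.b i

/-- the frame of the 2-forms in the chart is `dx ∧ dy` divided by this function -/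
def Atl.L (M : Atl ι Y) (i : ι) (p : ℂ × ℂ) : ℂ := p.1 * (if M.ex i = true then p.2 else 1)

/-- the central part of the bidisc -/
def Cen (p : ℂ × ℂ) : Prop := ‖p.1‖ < 1 / 2 ∧ ‖p.2‖ < 1

/-- the rotations of the bidisc -/
noncomputable def rot (ζ : ℂ) (p : ℂ × ℂ) : ℂ × ℂ := (ζ * p.1, ζ⁻¹ * p.2)

/-- `j` is the chart `i` with the coordinates exchanged -/
def Atl.Sw (M : Atl ι Y) (i j : ι) : Prop :=
  M.ex i = true ∧ M.ex j = true ∧ 1 ≤ M.b i ∧ (M.a j : ℤ) = M.b i ∧ M.b j = M.a i ∧ M.k j = M.k i ∧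
    ∀ p ∈ ball (0 : ℂ × ℂ) 2, M.L j p ≠ 0 → M.s j p = M.s i p.swap ∧ ∀ t, Complex.exp t = M.u j p → M.g j t p = -M.g i t p.swap

/-- the change of coordinates `τ` from the chart `j` to the chart `i`, from `q` to `p`, away from the points `y = 0` of the charts with `ex = true` -/
def Atl.Rg (M : Atl ι Y) (η : ℝ) (i j : ι) (p q : ℂ × ℂ) : Prop :=
  ∃ τ : ℂ × ℂ → ℂ × ℂ, τ q = p ∧
    (∀ x ∈ ball q η, AnalyticAt ℂ τ x ∧ τ x ∈ ball p (1 / 4) ∧ (x.1 ≠ 0 → M.s j x = M.s i (τ x) ∧ M.u i (τ x) = M.u j x ∧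
      ∀ t, Complex.exp t = M.u j x → M.g j t x * M.L i (τ x) = M.g i t (τ x) * jac τ x * M.L j x)) ∧
    (M.ex i = true → 1 / 2 ≤ ‖p.2‖) ∧ (M.ex j = true → 1 / 2 ≤ ‖q.2‖) ∧ ‖q.1‖ ≤ η / 4

/-- the log surface near the fibre over `0` -/
structure Model (ι Y : Type) extends Atl ι Y where
  /-- the radius of the disc -/
  ρ : ℝ
  /-- the size of the overlaps -/
  η : ℝ
  /-- the order of the quotient singularity -/
  orb : ι → ℕ
  ρ_pos : 0 < ρ
  ρ_le : ∀ i, ρ ≤ ‖k i‖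
  η_pos : 0 < η
  η_le : η ≤ 1 / 4
  a_pos : ∀ i, 1 ≤ a i
  b_ex : ∀ i, ex i = false → b i = 0
  orb_pos : ∀ i, 1 ≤ orb i
  orb_eq : ∀ i, orb i = 1 ∨ ex i = true
  inj : ∀ i p q, p ∈ ball (0 : ℂ × ℂ) 2 → q ∈ ball (0 : ℂ × ℂ) 2 → toAtl.L i p ≠ 0 → toAtl.L i q ≠ 0 → s i p = s i q →
    ∃ ζ : ℂ, ζ ^ orb i = 1 ∧ q = rot ζ p
  rot_eq : ∀ i (ζ : ℂ), ζ ^ orb i = 1 → ∀ p ∈ ball (0 : ℂ × ℂ) 2, toAtl.L i p ≠ 0 →
    s i (rot ζ p) = s i p ∧ ∀ t, Complex.exp t = toAtl.u i p → g i t (rot ζ p) = g i t p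
  g_an : ∀ i, ∀ p ∈ ball (0 : ℂ × ℂ) 2, toAtl.L i p ≠ 0 → ∀ t : ℂ × ℂ → ℂ, AnalyticAt ℂ t p → (∀ᶠ q in 𝓝 p, Complex.exp (t q) = toAtl.u i q) →
    AnalyticAt ℂ (fun q => g i (t q) q) p
  trans : ∀ i j p q, Cen p → Cen q → s i p = s j q → toAtl.L i p ≠ 0 → toAtl.L j q ≠ 0 → ‖toAtl.u i p‖ < ρ →
    i = j ∨ toAtl.Sw i j ∨ toAtl.Rg η i j p q

/-- the second coordinate as a function of `h` -/
noncomputable def yb (e : Bool) (h : ℂ) : ℂ := if e = true then Complex.exp h else h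

/-- the cell `(i, μ)` -/
noncomputable def Atl.X (M : Atl ι Y) (i : ι) (μ t h : ℂ) : ℂ × ℂ :=
  (μ * Complex.exp ((t - M.b i * h) / M.a i), yb (M.ex i) h)

/-- the density of the form `α / dt` in the cell -/
noncomputable def Atl.phi (M : Atl ι Y) (i : ι) (μ t h : ℂ) : ℂ := M.g i t (M.X i μ t h) / M.a i

/-- its primitive with respect to `h` -/
noncomputable def Atl.P (M : Atl ι Y) (i : ι) (μ t h : ℂ) : ℂ := h * ∫ r in (0 : ℝ)..1, M.phi i μ t (r * h)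

/-- a strip which is unbounded to the left -/
def Strip (t₀ : ℂ) (ε : ℝ) : Set ℂ := {t | t.re < t₀.re + ε ∧ |t.im - t₀.im| < ε}

/-- near `t₀` the curve `f` (a function of `t`) is the curve `h` in the cell `(i, μ)` -/
def Dat (M : Model ι Y) (f : ℂ → Y) (i : ι) (μ : ℂ) (h : ℂ → ℂ) (t₀ : ℂ) : Prop :=
  M.k i * μ ^ M.a i = 1 ∧ AnalyticAt ℂ h t₀ ∧ Cen (M.X i μ t₀ (h t₀)) ∧ ∀ᶠ t in 𝓝 t₀, f t = M.s i (M.X i μ t (h t))

/-- the densities are bounded by `C₀ |u| ^ κ` -/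
def Bphi (M : Model ι Y) (C₀ κ : ℝ) : Prop :=
  ∀ i μ t h, M.k i * μ ^ M.a i = 1 → M.X i μ t h ∈ ball (0 : ℂ × ℂ) 2 → ‖Complex.exp t‖ < M.ρ → ‖M.phi i μ t h‖ ≤ C₀ * Real.exp (κ * t.re)

/-- the cells are linked at `t₀`: the difference of the primitives extends to the strip of width `ε` to the left of `t₀`, with linear growth -/
def LinkQ (M : Model ι Y) (κ : ℝ) (i : ι) (μ : ℂ) (j : ι) (ν : ℂ) (t₀ h₀ h₁ : ℂ) (ε C : ℝ) : Prop :=
  ∃ D : ℂ → ℂ, DifferentiableOn ℂ D (Strip t₀ ε) ∧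
    (∀ t ∈ Strip t₀ ε, ‖D t‖ ≤ C * Real.exp (κ * t.re) * (1 + ‖t - t₀‖ + ‖h₀‖ + ‖h₁‖)) ∧
    ∀ hi hj : ℂ → ℂ, AnalyticAt ℂ hi t₀ → AnalyticAt ℂ hj t₀ → hi t₀ = h₀ → hj t₀ = h₁ →
      (∀ᶠ t in 𝓝 t₀, M.s i (M.X i μ t (hi t)) = M.s j (M.X j ν t (hj t))) →
      ∀ᶠ t in 𝓝 t₀, M.P i μ t (hi t) - M.P j ν t (hj t) = D t

end Pool.Agent.EG.RL

end

section

/-!
# EG RL Cell: elementary properties of the cells
-/

set_option autoImplicit false

open Topology Filter Metric Set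

namespace Pool.Agent.EG.RL

attribute [-instance] ProperSMul.toContinuousSMul

open Pool.Agent.H14.PP (jac)

variable {ι Y : Type}

/-- membership in the bidisc -/
theorem mem_bi {p : ℂ × ℂ} : p ∈ ball (0 : ℂ × ℂ) 2 ↔ ‖p.1‖ < 2 ∧ ‖p.2‖ < 2 := by
  rw [mem_ball_zero_iff, Prod.norm_def, max_lt_iff]

theorem cen_ball {p : ℂ × ℂ} (hp : Cen p) : p ∈ ball (0 : ℂ × ℂ) 2 := by
  rw [mem_bi]
  exact ⟨by linarith [hp.1], by linarith [hp.2]⟩

theorem yb_true {h : ℂ} : yb true h = Complex.exp h := if_pos rfl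

theorem yb_false {h : ℂ} : yb false h = h := if_neg (by simp)

/-- the derivative of `yb` -/
noncomputable def yb' (e : Bool) (h : ℂ) : ℂ := if e = true then Complex.exp h else 1

theorem yb_hasDerivAt (e : Bool) (h : ℂ) : HasDerivAt (yb e) (yb' e h) h := by
  cases e with
  | false =>
    have h1 : yb false = fun h => h := by
      funext h
      exact yb_false
    rw [h1, yb', if_neg (by simp)]
    exact hasDerivAt_id h
  | true =>
    have h1 : yb true = Complex.exp := by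
      funext h
      exact yb_true
    rw [h1, yb', if_pos rfl]
    exact Complex.hasDerivAt_exp h

theorem yb_an (e : Bool) (h : ℂ) : AnalyticAt ℂ (yb e) h := by
  cases e with
  | false =>
    have h1 : yb false = fun h => h := by
      funext h
      exact yb_false
    rw [h1]
    exact analyticAt_id
  | true =>
    have h1 : yb true = Complex.exp := by
      funext h
      exact yb_true
    rw [h1]
    exact analyticAt_cexp

theorem k_ne (M : Model ι Y) (i : ι) : M.k i ≠ 0 := by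
  have h1 := M.ρ_le i
  have h2 := M.ρ_pos
  exact norm_pos_iff.1 (h2.trans_le h1)

theorem mu_ne (M : Model ι Y) {i : ι} {μ : ℂ} (hμ : M.k i * μ ^ M.a i = 1) : μ ≠ 0 := by
  rintro rfl
  have h1 := M.a_pos i
  rw [zero_pow (by omega), mul_zero] at hμ
  exact zero_ne_one hμ

theorem a_ne (M : Model ι Y) (i : ι) : (M.a i : ℂ) ≠ 0 := Nat.cast_ne_zero.2 (by have := M.a_pos i; omega)

theorem X_fst_ne (M : Model ι Y) {i : ι} {μ : ℂ} (hμ : M.k i * μ ^ M.a i = 1) (t h : ℂ) : (M.X i μ t h).1 ≠ 0 :=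
  mul_ne_zero (mu_ne M hμ) (Complex.exp_ne_zero _)

/-- the log frame of a chart does not vanish on the cells -/
theorem L_X (M : Model ι Y) (i : ι) (μ t h : ℂ) : M.L i (M.X i μ t h) = (M.X i μ t h).1 * yb' (M.ex i) h := by
  unfold Atl.L yb'
  by_cases he : M.ex i = true
  · rw [if_pos he, if_pos he]
    have h1 : (M.X i μ t h).2 = yb (M.ex i) h := rfl
    rw [h1, he, yb_true]
  · rw [if_neg he, if_neg he]

theorem yb'_ne (e : Bool) (h : ℂ) : yb' e h ≠ 0 := by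
  unfold yb'
  split_ifs
  · exact Complex.exp_ne_zero _
  · exact one_ne_zero

theorem L_X_ne (M : Model ι Y) {i : ι} {μ : ℂ} (hμ : M.k i * μ ^ M.a i = 1) (t h : ℂ) : M.L i (M.X i μ t h) ≠ 0 := by
  rw [L_X]
  exact mul_ne_zero (X_fst_ne M hμ t h) (yb'_ne _ _)

theorem u_X (M : Model ι Y) {i : ι} {μ : ℂ} (hμ : M.k i * μ ^ M.a i = 1) (t h : ℂ) : M.u i (M.X i μ t h) = Complex.exp t := by
  have ha := a_ne M i
  have h1 : Complex.exp ((t - M.b i * h) / M.a i) ^ M.a i = Complex.exp (t - M.b i * h) := by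
    rw [← Complex.exp_nat_mul, mul_div_cancel₀ _ ha]
  have h2 : yb (M.ex i) h ^ M.b i = Complex.exp (M.b i * h) := by
    by_cases he : M.ex i = true
    · rw [he, yb_true, ← Complex.exp_int_mul]
    · have h3 := M.b_ex i (by simpa using he)
      rw [h3]
      simp
  change M.k i * (μ * Complex.exp ((t - M.b i * h) / M.a i)) ^ M.a i * yb (M.ex i) h ^ M.b i = _
  rw [h2, mul_pow, h1, ← mul_assoc, hμ, one_mul, ← Complex.exp_add]
  congr 1
  ring

theorem X_an (M : Model ι Y) (i : ι) (μ : ℂ) (p : ℂ × ℂ) : AnalyticAt ℂ (fun p : ℂ × ℂ => M.X i μ p.1 p.2) p := by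
  have h1 : AnalyticAt ℂ (fun p : ℂ × ℂ => μ * Complex.exp ((p.1 - M.b i * p.2) / M.a i)) p := by
    refine analyticAt_const.mul ?_
    refine AnalyticAt.cexp ?_
    exact (analyticAt_fst.sub (analyticAt_const.mul analyticAt_snd)).div_const
  have h2 : AnalyticAt ℂ (fun p : ℂ × ℂ => yb (M.ex i) p.2) p :=
    (yb_an (M.ex i) p.2).fun_comp analyticAt_snd
  exact h1.prod h2

/-- `t` as a local function of the point of the cell -/
theorem local_t (M : Model ι Y) {i : ι} {μ : ℂ} (hμ : M.k i * μ ^ M.a i = 1) (t₀ h₀ : ℂ) :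
    ∃ T : ℂ × ℂ → ℂ, AnalyticAt ℂ T (M.X i μ t₀ h₀) ∧ (∀ᶠ q in 𝓝 (M.X i μ t₀ h₀), Complex.exp (T q) = M.u i q) ∧
      ∀ᶠ p in 𝓝 ((t₀, h₀) : ℂ × ℂ), T (M.X i μ p.1 p.2) = p.1 := by
  have hu := u_X M hμ t₀ h₀
  have hE := Complex.exp_ne_zero t₀
  have hL := L_X_ne M hμ t₀ h₀
  set x := M.X i μ t₀ h₀ with hx
  have hua : AnalyticAt ℂ (fun q : ℂ × ℂ => M.u i q) x := by
    unfold Atl.u
    refine (analyticAt_const.mul (analyticAt_fst.pow _)).mul ?_
    by_cases h2 : x.2 = 0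
    · have hb : M.b i = 0 := by
        by_contra hb
        have h3 : M.ex i = true := by
          by_contra h4
          exact hb (M.b_ex i (by simpa using h4))
        unfold Atl.L at hL
        rw [if_pos h3, h2, mul_zero] at hL
        exact hL rfl
      rw [hb]
      simp only [zpow_zero]
      exact analyticAt_const
    · exact analyticAt_snd.zpow h2
  have hdiv : AnalyticAt ℂ (fun q : ℂ × ℂ => M.u i q / Complex.exp t₀) x := hua.div analyticAt_const hE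
  have h1 : M.u i x / Complex.exp t₀ = 1 := by rw [hu, div_self hE]
  refine ⟨fun q => t₀ + Complex.log (M.u i q / Complex.exp t₀), ?_, ?_, ?_⟩
  · refine analyticAt_const.add (hdiv.clog ?_)
    rw [h1]
    exact Complex.one_mem_slitPlane
  · have h2 : ∀ᶠ q in 𝓝 x, M.u i q / Complex.exp t₀ ≠ 0 := hdiv.continuousAt.eventually_ne (by rw [h1]; exact one_ne_zero)
    filter_upwards [h2] with q hq
    rw [Complex.exp_add, Complex.exp_log hq, mul_div_cancel₀ _ hE]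
  · have h2 : ∀ᶠ p : ℂ × ℂ in 𝓝 (t₀, h₀), |(p.1 - t₀).im| < Real.pi := by
      have hc : ContinuousAt (fun p : ℂ × ℂ => |(p.1 - t₀).im|) (t₀, h₀) := by fun_prop
      exact hc.eventually_lt continuousAt_const (by simp [Real.pi_pos])
    filter_upwards [h2] with p hp
    rw [u_X M hμ, ← Complex.exp_sub, Complex.log_exp]
    · ring
    · exact (abs_lt.1 hp).1
    · exact (abs_lt.1 hp).2.le

theorem phi_an (M : Model ι Y) {i : ι} {μ : ℂ} (hμ : M.k i * μ ^ M.a i = 1) {p : ℂ × ℂ} (hp : M.X i μ p.1 p.2 ∈ ball (0 : ℂ × ℂ) 2) :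
    AnalyticAt ℂ (fun p : ℂ × ℂ => M.phi i μ p.1 p.2) p := by
  have h1 := X_an M i μ p
  obtain ⟨T, hT, hTe, hTX⟩ := local_t M hμ p.1 p.2
  have h2 : AnalyticAt ℂ (fun q : ℂ × ℂ => M.g i (T q) q) (M.X i μ p.1 p.2) := M.g_an i _ hp (L_X_ne M hμ _ _) T hT hTe
  have h3 : AnalyticAt ℂ (fun q : ℂ × ℂ => M.g i (T (M.X i μ q.1 q.2)) (M.X i μ q.1 q.2)) p :=
    AnalyticAt.fun_comp (g := fun q : ℂ × ℂ => M.g i (T q) q) (f := fun q : ℂ × ℂ => M.X i μ q.1 q.2) h2 h1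
  refine AnalyticAt.congr (f := fun q : ℂ × ℂ => M.g i (T (M.X i μ q.1 q.2)) (M.X i μ q.1 q.2) / (M.a i : ℂ)) h3.div_const ?_
  filter_upwards [hTX] with q hq
  show M.g i (T (M.X i μ q.1 q.2)) (M.X i μ q.1 q.2) / M.a i = M.phi i μ q.1 q.2
  rw [hq]
  rfl

theorem jac_X (M : Model ι Y) (i : ι) (μ : ℂ) (p : ℂ × ℂ) :
    jac (fun p : ℂ × ℂ => M.X i μ p.1 p.2) p = M.L i (M.X i μ p.1 p.2) / M.a i := by
  have h1 : HasFDerivAt (fun p : ℂ × ℂ => μ * Complex.exp ((p.1 - M.b i * p.2) * (M.a i : ℂ)⁻¹))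
      (μ • (Complex.exp ((p.1 - M.b i * p.2) * (M.a i : ℂ)⁻¹) •
        ((M.a i : ℂ)⁻¹ • (ContinuousLinearMap.fst ℂ ℂ ℂ - (M.b i : ℂ) • ContinuousLinearMap.snd ℂ ℂ ℂ)))) p :=
    (((hasFDerivAt_fst.sub (hasFDerivAt_snd.const_mul (M.b i : ℂ))).mul_const
      ((M.a i : ℂ)⁻¹)).cexp.const_mul μ)
  have h2 : HasFDerivAt (fun p : ℂ × ℂ => yb (M.ex i) p.2)
      (yb' (M.ex i) p.2 • ContinuousLinearMap.snd ℂ ℂ ℂ) p :=
    (yb_hasDerivAt (M.ex i) p.2).comp_hasFDerivAt p hasFDerivAt_snd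
  have h3 : (fun p : ℂ × ℂ => M.X i μ p.1 p.2) = fun p : ℂ × ℂ =>
      (μ * Complex.exp ((p.1 - M.b i * p.2) * (M.a i : ℂ)⁻¹), yb (M.ex i) p.2) := by
    funext p
    rw [← div_eq_mul_inv]
    rfl
  have h4 := (h1.prodMk h2).fderiv
  rw [L_X, jac, h3, h4]
  simp only [ContinuousLinearMap.prod_apply, smul_apply, sub_apply, ContinuousLinearMap.coe_fst',
    ContinuousLinearMap.coe_snd', smul_eq_mul]
  change _ = μ * Complex.exp ((p.1 - M.b i * p.2) / M.a i) * yb' (M.ex i) p.2 / M.a i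
  rw [div_eq_mul_inv (p.1 - M.b i * p.2)]
  ring

theorem X_norm (M : Model ι Y) (i : ι) (μ t g : ℂ) : ‖(M.X i μ t g).1‖ =
    ‖μ‖ * Real.exp (t.re / M.a i) * Real.exp (-(M.b i * g.re / M.a i)) := by
  change ‖μ * Complex.exp ((t - M.b i * g) / M.a i)‖ = _
  have h1 : ((t - M.b i * g) / M.a i).re = t.re / M.a i + -(M.b i * g.re / M.a i) := by
    rw [Complex.div_natCast_re, Complex.sub_re, Complex.mul_re, Complex.intCast_re,
      Complex.intCast_im, zero_mul, sub_zero]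
    ring
  rw [norm_mul, Complex.norm_exp, mul_assoc, ← Real.exp_add, h1]

/-- the slices of the cells are star shaped -/
theorem X_slice (M : Model ι Y) {i : ι} {μ t h : ℂ} (hμ : M.k i * μ ^ M.a i = 1) (ht : ‖Complex.exp t‖ < M.ρ)
    (hX : M.X i μ t h ∈ ball (0 : ℂ × ℂ) 2) {r : ℝ} (hr : r ∈ Icc (0 : ℝ) 1) : M.X i μ t (r * h) ∈ ball (0 : ℂ × ℂ) 2 := by
  obtain ⟨hr0, hr1⟩ := hr
  rw [mem_bi] at hX ⊢
  obtain ⟨h1, h2⟩ := hX
  have ha : 0 < (M.a i : ℝ) := Nat.cast_pos.2 (M.a_pos i)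
  have hexp : ∀ c : ℝ, Real.exp (r * c) ≤ max 1 (Real.exp c) := by
    intro c
    rcases le_total c 0 with hc | hc
    · refine le_max_of_le_left ?_
      rw [Real.exp_le_one_iff]
      exact mul_nonpos_of_nonneg_of_nonpos hr0 hc
    · refine le_max_of_le_right (Real.exp_le_exp.2 ?_)
      nlinarith
  have hnorm := X_norm M i μ t
  have hA : ‖μ‖ * Real.exp (t.re / M.a i) < 1 := by
    by_contra hcon
    push Not at hcon
    have h3 : (1 : ℝ) ≤ (‖μ‖ * Real.exp (t.re / M.a i)) ^ M.a i := one_le_pow₀ hcon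
    have h4 : (‖μ‖ * Real.exp (t.re / M.a i)) ^ M.a i = ‖μ‖ ^ M.a i * ‖Complex.exp t‖ := by
      rw [mul_pow, ← Real.exp_nat_mul, mul_div_cancel₀ _ ha.ne', Complex.norm_exp]
    have h5 : ‖M.k i‖ * ‖μ‖ ^ M.a i = 1 := by
      rw [← norm_pow, ← norm_mul, hμ, norm_one]
    have h6 : ‖Complex.exp t‖ < ‖M.k i‖ := ht.trans_le (M.ρ_le i)
    have h7 : 0 < ‖μ‖ ^ M.a i := by
      by_contra h8
      push Not at h8
      nlinarith [norm_nonneg (M.k i)]
    rw [h4] at h3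
    nlinarith
  have hA0 : 0 ≤ ‖μ‖ * Real.exp (t.re / M.a i) := by positivity
  constructor
  · rw [hnorm] at h1 ⊢
    have h3 : -(M.b i * ((r : ℂ) * h).re / M.a i) = r * -(M.b i * h.re / M.a i) := by
      rw [Complex.re_ofReal_mul]
      ring
    rw [h3]
    have h4 := hexp (-(M.b i * h.re / M.a i))
    refine (mul_le_mul_of_nonneg_left h4 hA0).trans_lt ?_
    rw [mul_max_of_nonneg _ _ hA0]
    refine max_lt ?_ h1
    linarith
  · change ‖yb (M.ex i) h‖ < 2 at h2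
    change ‖yb (M.ex i) (r * h)‖ < 2
    unfold yb at h2 ⊢
    split_ifs at h2 ⊢ with hb
    · rw [Complex.norm_exp] at h2 ⊢
      rw [Complex.re_ofReal_mul]
      refine (hexp _).trans_lt (max_lt ?_ h2)
      norm_num
    · rw [norm_mul, Complex.norm_real, Real.norm_of_nonneg hr0]
      nlinarith [norm_nonneg h]

theorem yb_inj (e : Bool) (h₀ : ℂ) : ∀ h ∈ ball h₀ 1, ∀ h' ∈ ball h₀ 1, yb e h = yb e h' → h = h' := by
  intro h hh h' hh' heq
  unfold yb at heq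
  split_ifs at heq with hb
  · obtain ⟨n, hn⟩ := Complex.exp_eq_exp_iff_exists_int.1 heq
    have h1 : ‖h - h'‖ < 2 := by
      rw [mem_ball, dist_eq_norm] at hh hh'
      calc ‖h - h'‖ = ‖(h - h₀) - (h' - h₀)‖ := by
            congr 1
            ring
        _ ≤ ‖h - h₀‖ + ‖h' - h₀‖ := norm_sub_le _ _
        _ < 2 := by linarith
    have h2 : h - h' = n * (2 * Real.pi * Complex.I) := by
      rw [hn]
      ring
    rw [h2, norm_mul, norm_mul, norm_mul, Complex.norm_I, mul_one, Complex.norm_intCast,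
      Complex.norm_real, Real.norm_of_nonneg Real.pi_pos.le] at h1
    have h3 : (n : ℝ) = 0 := by
      by_contra h4
      have h5 : (1 : ℝ) ≤ |(n : ℝ)| := by
        have h6 : n ≠ 0 := by exact_mod_cast h4
        exact_mod_cast Int.one_le_abs h6
      have h7 : ‖(2 : ℂ)‖ = 2 := by norm_num
      rw [h7] at h1
      nlinarith [Real.pi_gt_three]
    have h8 : n = 0 := by exact_mod_cast h3
    rw [hn, h8]
    simp
  · exact heq

theorem rot_one (p : ℂ × ℂ) : rot 1 p = p := by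
  unfold rot
  rw [one_mul, inv_one, one_mul]

theorem orb_ne_zero {n : ℕ} (hn : 1 ≤ n) {ζ : ℂ} (hζ : ζ ^ n = 1) : ζ ≠ 0 := by
  rintro rfl
  rw [zero_pow (by omega)] at hζ
  exact zero_ne_one hζ

theorem orb_norm {n : ℕ} (hn : 1 ≤ n) {ζ : ℂ} (hζ : ζ ^ n = 1) : ‖ζ‖ = 1 := Complex.norm_eq_one_of_pow_eq_one hζ (by omega)

theorem rot_norm {n : ℕ} (hn : 1 ≤ n) {ζ : ℂ} (hζ : ζ ^ n = 1) (p : ℂ × ℂ) : ‖(rot ζ p).1‖ = ‖p.1‖ ∧ ‖(rot ζ p).2‖ = ‖p.2‖ := by
  unfold rot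
  rw [norm_mul, norm_mul, norm_inv, orb_norm hn hζ, inv_one, one_mul, one_mul]
  exact ⟨rfl, rfl⟩

/-- a root of unity near `1` -/
theorem root_isolated {n : ℕ} (hn : 1 ≤ n) : ∃ δ : ℝ, 0 < δ ∧ ∀ ζ : ℂ, ζ ^ n = 1 → ‖ζ - 1‖ < δ → ζ = 1 := by
  have hfin : ({z : ℂ | z ^ n = 1} : Set ℂ).Finite := by
    have h : ({z : ℂ | z ^ n = 1} : Set ℂ) ⊆ ((Polynomial.nthRoots n (1 : ℂ)).toFinset : Set ℂ) := by
      intro z hz
      simp only [Set.mem_ofPred_eq] at hz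
      simp only [Finset.mem_coe, Multiset.mem_toFinset]
      exact (Polynomial.mem_nthRoots (by omega)).2 hz
    exact (Finset.finite_toSet _).subset h
  have h1 : (({z : ℂ | z ^ n = 1} \ {1})ᶜ : Set ℂ) ∈ 𝓝 (1 : ℂ) :=
    (hfin.subset Set.sdiff_subset).isClosed.isOpen_compl.mem_nhds (by simp)
  obtain ⟨δ, hδ, hb⟩ := Metric.mem_nhds_iff.1 h1
  refine ⟨δ, hδ, fun ζ hζ h2 => ?_⟩
  by_contra h3
  exact hb (by rw [mem_ball, dist_eq_norm]; exact h2) ⟨hζ, h3⟩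

end Pool.Agent.EG.RL

end

section

/-!
# EG RL Prim: the primitive in a cell

Proof (helper41):
P_deriv: fixed t; phi(t, r h) is analytic in h near h uniformly in r in [0,1] (X_slice + openness + compactness of [0,1]);
d/dh (h int phi(t, r h) dr) = int (phi(t, r h) + r h phi'(t, r h)) dr = int_0^1 d/dr (r phi(t, r h)) dr = phi(t,h)  (d/dr along the real segment, FTC).
P_an: phi(t, r h(t)) is analytic in t on a ball (uniform in r), jointly continuous; integral of holomorphic functions is holomorphic (hasDerivAt_integral_of_dominated_loc_of_deriv_le,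
derivative bounded on a smaller ball by continuity/compactness).
-/

set_option autoImplicit false

open Topology Filter Metric Set

namespace Pool.Agent.EG.RL

attribute [-instance] ProperSMul.toContinuousSMul

variable {ι Y : Type}

/-- the parameters near `z₀` for which the integrand is analytic along the whole segment -/
private theorem prim_tube {G : ℂ × ℂ → ℂ} {z₀ : ℂ} (hG : ∀ r ∈ Icc (0 : ℝ) 1, AnalyticAt ℂ G (z₀, (r : ℂ))) :
    ∃ ε : ℝ, 0 < ε ∧ ∀ z ∈ ball z₀ ε, ∀ r ∈ Icc (0 : ℝ) 1, AnalyticAt ℂ G (z, (r : ℂ)) := by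
  have hcont : Continuous (fun p : ℂ × ℝ => ((p.1, (p.2 : ℂ)) : ℂ × ℂ)) := by fun_prop
  have hopen : IsOpen ((fun p : ℂ × ℝ => ((p.1, (p.2 : ℂ)) : ℂ × ℂ)) ⁻¹' {x | AnalyticAt ℂ G x}) :=
    (isOpen_analyticAt ℂ G).preimage hcont
  obtain ⟨u, v, hu, -, hsu, htv, huv⟩ := generalized_tube_lemma (isCompact_singleton (x := z₀)) (isCompact_Icc (a := (0 : ℝ)) (b := 1)) hopen
    (by
      rintro ⟨z, r⟩ ⟨hz, hr⟩
      rw [mem_singleton_iff] at hz
      simp only at hz hr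
      subst hz
      exact hG r hr)
  obtain ⟨ε, hε, hball⟩ := Metric.isOpen_iff.1 hu z₀ (hsu rfl)
  exact ⟨ε, hε, fun z hz r hr => huv (mk_mem_prod (hball hz) (htv hr))⟩

private theorem prim_line {G : ℂ × ℂ → ℂ} {z s : ℂ} (h : AnalyticAt ℂ G (z, s)) :
    HasDerivAt (fun z => G (z, s)) (fderiv ℂ G (z, s) (1, 0)) z := by
  have h1 : HasDerivAt (fun z : ℂ => ((z, s) : ℂ × ℂ)) ((1, 0) : ℂ × ℂ) z := (hasDerivAt_id z).prodMk (hasDerivAt_const z s)
  exact h.differentiableAt.hasFDerivAt.comp_hasDerivAt z h1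

/-- differentiation under the integral sign -/
private theorem prim_int {G : ℂ × ℂ → ℂ} {z₀ : ℂ} (hG : ∀ r ∈ Icc (0 : ℝ) 1, AnalyticAt ℂ G (z₀, (r : ℂ))) :
    HasDerivAt (fun z => ∫ r in (0 : ℝ)..1, G (z, (r : ℂ))) (∫ r in (0 : ℝ)..1, fderiv ℂ G (z₀, (r : ℂ)) (1, 0)) z₀ := by
  obtain ⟨ε, hε, hball⟩ := prim_tube hG
  have hsub : ∀ z ∈ closedBall z₀ (ε / 2), z ∈ ball z₀ ε := fun z hz => by
    rw [mem_closedBall] at hz
    rw [mem_ball]
    linarith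
  have hIoc : ∀ r : ℝ, r ∈ Set.uIoc (0 : ℝ) 1 → r ∈ Icc (0 : ℝ) 1 := fun r hr => by
    rw [Set.uIoc_of_le zero_le_one] at hr
    exact ⟨hr.1.le, hr.2⟩
  have hc : ContinuousOn (fun p : ℂ × ℝ => fderiv ℂ G (p.1, (p.2 : ℂ)) (1, 0)) (closedBall z₀ (ε / 2) ×ˢ Icc (0 : ℝ) 1) := by
    rintro ⟨z, r⟩ ⟨hz, hr⟩
    have h1 : ContinuousAt (fderiv ℂ G) (z, (r : ℂ)) := (hball z (hsub z hz) r hr).fderiv.continuousAt
    have h2 : ContinuousAt (fun p : ℂ × ℝ => ((p.1, (p.2 : ℂ)) : ℂ × ℂ)) (z, r) := by fun_prop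
    have h3 : ContinuousAt (fun p : ℂ × ℝ => fderiv ℂ G (p.1, (p.2 : ℂ))) (z, r) := ContinuousAt.comp (f := fun p : ℂ × ℝ => ((p.1, (p.2 : ℂ)) : ℂ × ℂ)) h1 h2
    exact (h3.clm_apply continuousAt_const).continuousWithinAt
  obtain ⟨C, hC⟩ := ((isCompact_closedBall z₀ (ε / 2)).prod (isCompact_Icc (a := (0 : ℝ)) (b := 1))).exists_bound_of_continuousOn hc
  have hcG : ∀ z ∈ ball z₀ ε, ContinuousOn (fun r : ℝ => G (z, (r : ℂ))) (Icc (0 : ℝ) 1) := fun z hz r hr => by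
    have h1 : ContinuousAt G (z, (r : ℂ)) := (hball z hz r hr).continuousAt
    have h2 : ContinuousAt (fun r : ℝ => ((z, (r : ℂ)) : ℂ × ℂ)) r := by fun_prop
    exact (ContinuousAt.comp (f := fun r : ℝ => ((z, (r : ℂ)) : ℂ × ℂ)) h1 h2).continuousWithinAt
  have hcG' : ContinuousOn (fun r : ℝ => fderiv ℂ G (z₀, (r : ℂ)) (1, 0)) (Icc (0 : ℝ) 1) := by
    have h2 : ContinuousOn (fun r : ℝ => ((z₀, r) : ℂ × ℝ)) (Icc (0 : ℝ) 1) := by fun_prop
    exact hc.comp h2 (fun r hr => mk_mem_prod (mem_closedBall_self (by positivity)) hr)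
  have hint : ∀ f : ℝ → ℂ, ContinuousOn f (Icc (0 : ℝ) 1) → IntervalIntegrable f MeasureTheory.volume 0 1 := fun f hf => by
    apply ContinuousOn.intervalIntegrable
    rwa [Set.uIcc_of_le zero_le_one]
  refine (intervalIntegral.hasDerivAt_integral_of_dominated_loc_of_deriv_le (F := fun z (r : ℝ) => G (z, (r : ℂ))) (F' := fun z (r : ℝ) => fderiv ℂ G (z, (r : ℂ)) (1, 0))
    (bound := fun _ => C) (s := ball z₀ (ε / 2)) (ball_mem_nhds z₀ (by positivity)) ?_ (hint _ (hcG z₀ (mem_ball_self hε))) ?_ ?_ intervalIntegrable_const ?_).2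
  · filter_upwards [ball_mem_nhds z₀ hε] with z hz
    exact (hint _ (hcG z hz)).aestronglyMeasurable_restrict_uIoc
  · exact (hint _ hcG').aestronglyMeasurable_restrict_uIoc
  · refine Eventually.of_forall fun r hr z hz => ?_
    exact hC (z, r) (mk_mem_prod (ball_subset_closedBall hz) (hIoc r hr))
  · refine Eventually.of_forall fun r hr z hz => ?_
    exact prim_line (hball z (hsub z (ball_subset_closedBall hz)) r (hIoc r hr))

private theorem prim_int_an {G : ℂ × ℂ → ℂ} {z₀ : ℂ} (hG : ∀ r ∈ Icc (0 : ℝ) 1, AnalyticAt ℂ G (z₀, (r : ℂ))) :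
    AnalyticAt ℂ (fun z => ∫ r in (0 : ℝ)..1, G (z, (r : ℂ))) z₀ := by
  obtain ⟨ε, hε, hball⟩ := prim_tube hG
  have h : DifferentiableOn ℂ (fun z => ∫ r in (0 : ℝ)..1, G (z, (r : ℂ))) (ball z₀ ε) := fun z hz =>
    (prim_int (hball z hz)).differentiableAt.differentiableWithinAt
  exact h.analyticAt (ball_mem_nhds z₀ hε)

theorem P_deriv (M : Model ι Y) {i : ι} {μ t h : ℂ} (hμ : M.k i * μ ^ M.a i = 1) (ht : ‖Complex.exp t‖ < M.ρ)
    (hX : M.X i μ t h ∈ ball (0 : ℂ × ℂ) 2) : HasDerivAt (fun h => M.P i μ t h) (M.phi i μ t h) h := by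
  have hphi : ∀ r ∈ Icc (0 : ℝ) 1, AnalyticAt ℂ (fun y : ℂ => M.phi i μ t y) (r * h) := fun r hr => by
    have h1 := phi_an M (i := i) (μ := μ) hμ (p := (t, (r : ℂ) * h)) (X_slice M hμ ht hX hr)
    have h2 : AnalyticAt ℂ (fun y : ℂ => ((t, y) : ℂ × ℂ)) ((r : ℂ) * h) := by fun_prop
    exact AnalyticAt.fun_comp (f := fun y : ℂ => ((t, y) : ℂ × ℂ)) h1 h2
  set G : ℂ × ℂ → ℂ := fun p => M.phi i μ t (p.2 * p.1) with hGdef
  have hG : ∀ r ∈ Icc (0 : ℝ) 1, AnalyticAt ℂ G (h, (r : ℂ)) := fun r hr => by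
    have h2 : AnalyticAt ℂ (fun p : ℂ × ℂ => p.2 * p.1) (h, (r : ℂ)) := analyticAt_snd.mul analyticAt_fst
    exact AnalyticAt.fun_comp (g := fun y : ℂ => M.phi i μ t y) (f := fun p : ℂ × ℂ => p.2 * p.1) (hphi r hr) h2
  have hJ := prim_int hG
  have hP : HasDerivAt (fun h => M.P i μ t h)
      (1 * (∫ r in (0 : ℝ)..1, G (h, (r : ℂ))) + h * ∫ r in (0 : ℝ)..1, fderiv ℂ G (h, (r : ℂ)) (1, 0)) h := (hasDerivAt_id h).mul hJ
  have hψ : ∀ r ∈ Icc (0 : ℝ) 1, HasDerivAt (fun r : ℝ => (r : ℂ) * G (h, (r : ℂ))) (G (h, (r : ℂ)) + h * fderiv ℂ G (h, (r : ℂ)) (1, 0)) r := fun r hr => by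
    have h1 : fderiv ℂ G (h, (r : ℂ)) (1, 0) = deriv (fun y : ℂ => M.phi i μ t y) (r * h) * r := by
      have h2 := prim_line (hG r hr)
      have h3 : HasDerivAt (fun z : ℂ => G (z, (r : ℂ))) (deriv (fun y : ℂ => M.phi i μ t y) (r * h) * r) h := by
        have h4 : HasDerivAt (fun z : ℂ => (r : ℂ) * z) (r : ℂ) h := by simpa using (hasDerivAt_id h).const_mul (r : ℂ)
        exact HasDerivAt.comp h (h₂ := fun y : ℂ => M.phi i μ t y) (hphi r hr).differentiableAt.hasDerivAt h4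
      exact h2.unique h3
    have h5 : HasDerivAt (fun s : ℂ => s * G (h, s)) (1 * G (h, (r : ℂ)) + (r : ℂ) * (deriv (fun y : ℂ => M.phi i μ t y) (r * h) * h)) (r : ℂ) := by
      have h4 : HasDerivAt (fun z : ℂ => z * h) h (r : ℂ) := by simpa using (hasDerivAt_id (r : ℂ)).mul_const h
      exact (hasDerivAt_id (r : ℂ)).mul (HasDerivAt.comp (r : ℂ) (h₂ := fun y : ℂ => M.phi i μ t y) (hphi r hr).differentiableAt.hasDerivAt h4)
    have h6 := h5.comp_ofReal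
    refine h6.congr_deriv ?_
    rw [h1]
    ring
  have hcont : ∀ r ∈ Icc (0 : ℝ) 1, ContinuousAt (fun r : ℝ => G (h, (r : ℂ))) r ∧ ContinuousAt (fun r : ℝ => fderiv ℂ G (h, (r : ℂ)) (1, 0)) r := fun r hr => by
    have h2 : ContinuousAt (fun r : ℝ => ((h, (r : ℂ)) : ℂ × ℂ)) r := by fun_prop
    refine ⟨ContinuousAt.comp (f := fun r : ℝ => ((h, (r : ℂ)) : ℂ × ℂ)) (hG r hr).continuousAt h2, ?_⟩
    exact (ContinuousAt.comp (f := fun r : ℝ => ((h, (r : ℂ)) : ℂ × ℂ)) (hG r hr).fderiv.continuousAt h2).clm_apply continuousAt_const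
  have hi1 : IntervalIntegrable (fun r : ℝ => G (h, (r : ℂ))) MeasureTheory.volume 0 1 := by
    apply ContinuousOn.intervalIntegrable
    rw [Set.uIcc_of_le zero_le_one]
    exact fun r hr => (hcont r hr).1.continuousWithinAt
  have hi2 : IntervalIntegrable (fun r : ℝ => fderiv ℂ G (h, (r : ℂ)) (1, 0)) MeasureTheory.volume 0 1 := by
    apply ContinuousOn.intervalIntegrable
    rw [Set.uIcc_of_le zero_le_one]
    exact fun r hr => (hcont r hr).2.continuousWithinAt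
  have hFTC := intervalIntegral.integral_eq_sub_of_hasDerivAt (a := (0 : ℝ)) (b := 1) (f := fun r : ℝ => (r : ℂ) * G (h, (r : ℂ)))
    (f' := fun r : ℝ => G (h, (r : ℂ)) + h * fderiv ℂ G (h, (r : ℂ)) (1, 0)) (by rw [Set.uIcc_of_le zero_le_one]; exact hψ) (hi1.add (hi2.const_mul h))
  rw [intervalIntegral.integral_add hi1 (hi2.const_mul h), intervalIntegral.integral_const_mul] at hFTC
  refine hP.congr_deriv ?_
  rw [one_mul, hFTC]
  simp [hGdef]

theorem P_an (M : Model ι Y) {i : ι} {μ t₀ : ℂ} {h : ℂ → ℂ} (hμ : M.k i * μ ^ M.a i = 1) (ht : ‖Complex.exp t₀‖ < M.ρ)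
    (hh : AnalyticAt ℂ h t₀) (hX : M.X i μ t₀ (h t₀) ∈ ball (0 : ℂ × ℂ) 2) : AnalyticAt ℂ (fun t => M.P i μ t (h t)) t₀ := by
  set G : ℂ × ℂ → ℂ := fun p => M.phi i μ p.1 (p.2 * h p.1) with hGdef
  have hG : ∀ r ∈ Icc (0 : ℝ) 1, AnalyticAt ℂ G (t₀, (r : ℂ)) := fun r hr => by
    have h1 := phi_an M (i := i) (μ := μ) hμ (p := (t₀, (r : ℂ) * h t₀)) (X_slice M hμ ht hX hr)
    have h2 : AnalyticAt ℂ (fun p : ℂ × ℂ => h p.1) (t₀, (r : ℂ)) := AnalyticAt.fun_comp (g := h) (f := fun p : ℂ × ℂ => p.1) hh analyticAt_fst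
    have h3 : AnalyticAt ℂ (fun p : ℂ × ℂ => ((p.1, p.2 * h p.1) : ℂ × ℂ)) (t₀, (r : ℂ)) := by
      have h4 : AnalyticAt ℂ (fun p : ℂ × ℂ => p.1) (t₀, (r : ℂ)) := analyticAt_fst
      have h5 : AnalyticAt ℂ (fun p : ℂ × ℂ => p.2) (t₀, (r : ℂ)) := analyticAt_snd
      exact h4.prod (h5.mul h2)
    exact AnalyticAt.fun_comp (g := fun p : ℂ × ℂ => M.phi i μ p.1 p.2) (f := fun p : ℂ × ℂ => ((p.1, p.2 * h p.1) : ℂ × ℂ)) h1 h3
  exact hh.mul (prim_int_an hG)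

theorem P_le {M : Model ι Y} {C₀ κ : ℝ} (hB : Bphi M C₀ κ) {i : ι} {μ t h : ℂ} (hμ : M.k i * μ ^ M.a i = 1)
    (hX : M.X i μ t h ∈ ball (0 : ℂ × ℂ) 2) (ht : ‖Complex.exp t‖ < M.ρ) : ‖M.P i μ t h‖ ≤ C₀ * Real.exp (κ * t.re) * ‖h‖ := by
  unfold Atl.P
  rw [norm_mul, mul_comm]
  refine mul_le_mul_of_nonneg_right ?_ (norm_nonneg _)
  have h1 : ‖∫ r in (0 : ℝ)..1, M.phi i μ t (r * h)‖ ≤ C₀ * Real.exp (κ * t.re) * |1 - 0| := by
    refine intervalIntegral.norm_integral_le_of_norm_le_const fun r hr => ?_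
    rw [uIoc_of_le zero_le_one] at hr
    exact hB i μ t (r * h) hμ (X_slice M hμ ht hX ⟨hr.1.le, hr.2⟩) ht
  simpa using h1

end Pool.Agent.EG.RL

end

section

/-!
# EG RL LinkH: cells are linked if the change of coordinates extends to the left
-/

set_option autoImplicit false

open Topology Filter Metric Set

namespace Pool.Agent.EG.RL

attribute [-instance] ProperSMul.toContinuousSMul

open Pool.Agent.H14.PP (jac)

variable {ι Y : Type}

private theorem LinkH_jac_comp {σ τ : ℂ × ℂ → ℂ × ℂ} {p : ℂ × ℂ} (hτ : DifferentiableAt ℂ τ (σ p)) (hσ : DifferentiableAt ℂ σ p) :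
    jac (fun q => τ (σ q)) p = jac τ (σ p) * jac σ p := by
  have h1 : fderiv ℂ (fun q => τ (σ q)) p = (fderiv ℂ τ (σ p)).comp (fderiv ℂ σ p) := fderiv_comp p hτ hσ
  have key : ∀ (A : ℂ × ℂ →L[ℂ] ℂ × ℂ) (v : ℂ × ℂ), A v = (v.1 * (A (1, 0)).1 + v.2 * (A (0, 1)).1, v.1 * (A (1, 0)).2 + v.2 * (A (0, 1)).2) := by
    intro A v
    have hv : v = v.1 • (1, 0) + v.2 • ((0, 1) : ℂ × ℂ) := by
      ext <;> simp
    conv_lhs => rw [hv, map_add, map_smul, map_smul]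
    ext <;> simp
  unfold jac
  rw [h1]
  simp only [ContinuousLinearMap.comp_apply]
  rw [key (fderiv ℂ τ (σ p)) (fderiv ℂ σ p (1, 0)), key (fderiv ℂ τ (σ p)) (fderiv ℂ σ p (0, 1))]
  ring

private theorem LinkH_jac_G {H : ℂ → ℂ → ℂ} {t h : ℂ} (hH : DifferentiableAt ℂ (fun p : ℂ × ℂ => H p.1 p.2) (t, h)) :
    jac (fun p : ℂ × ℂ => (p.1, H p.1 p.2)) (t, h) = deriv (fun h => H t h) h := by
  have h1 : HasFDerivAt (fun p : ℂ × ℂ => (p.1, H p.1 p.2))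
      ((ContinuousLinearMap.fst ℂ ℂ ℂ).prod (fderiv ℂ (fun p : ℂ × ℂ => H p.1 p.2) (t, h))) (t, h) :=
    hasFDerivAt_fst.prodMk hH.hasFDerivAt
  have h2 : HasDerivAt (fun h => H t h) (fderiv ℂ (fun p : ℂ × ℂ => H p.1 p.2) (t, h) (0, 1)) h := by
    have h3 : HasDerivAt (fun h : ℂ => ((t, h) : ℂ × ℂ)) (0, 1) h := (hasDerivAt_const h t).prodMk (hasDerivAt_id h)
    exact hH.hasFDerivAt.comp_hasDerivAt h h3
  unfold jac
  rw [h1.fderiv, h2.deriv]
  simp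

private theorem LinkH_exp {t t₀ : ℂ} {ε ρ : ℝ} (he : Real.exp (t₀.re + ε) ≤ ρ) (ht : t ∈ Strip t₀ ε) : ‖Complex.exp t‖ < ρ := by
  rw [Complex.norm_exp]
  exact (Real.exp_lt_exp.2 ht.1).trans_le he

private theorem LinkH_open (t₀ : ℂ) (ε : ℝ) : IsOpen (Strip t₀ ε) := by
  have h1 : IsOpen {t : ℂ | t.re < t₀.re + ε} := isOpen_lt Complex.continuous_re continuous_const
  have h2 : IsOpen {t : ℂ | |t.im - t₀.im| < ε} := isOpen_lt ((Complex.continuous_im.sub continuous_const).abs) continuous_const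
  exact h1.inter h2

private theorem LinkH_mem (t₀ : ℂ) {ε : ℝ} (hε : 0 < ε) : t₀ ∈ Strip t₀ ε := by
  refine ⟨by linarith, ?_⟩
  rw [sub_self, abs_zero]
  exact hε

theorem link_of (M : Model ι Y) {C₀ κ : ℝ} (hC₀ : 0 ≤ C₀) (hB : Bphi M C₀ κ) {i j : ι} {μ ν t₀ h₀ h₁ : ℂ} {ε : ℝ} {H : ℂ → ℂ → ℂ}
    {τ : ℂ × ℂ → ℂ × ℂ} (hμ : M.k i * μ ^ M.a i = 1) (hν : M.k j * ν ^ M.a j = 1) (hε : 0 < ε) (he : Real.exp (t₀.re + ε) ≤ M.ρ)
    (hH : ∀ t ∈ Strip t₀ ε, ∀ h ∈ ball h₁ ε, AnalyticAt ℂ (fun p : ℂ × ℂ => H p.1 p.2) (t, h))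
    (hH₀ : H t₀ h₁ = h₀) (hC : ∀ t ∈ Strip t₀ ε, ‖H t h₁‖ ≤ 2 * (1 + ‖t - t₀‖ + ‖h₀‖))
    (hX : ∀ t ∈ Strip t₀ ε, ∀ h ∈ ball h₁ ε, M.X j ν t h ∈ ball (0 : ℂ × ℂ) 2 ∧ τ (M.X j ν t h) ∈ ball (0 : ℂ × ℂ) 2 ∧
      AnalyticAt ℂ τ (M.X j ν t h) ∧ M.s j (M.X j ν t h) = M.s i (τ (M.X j ν t h)) ∧
      M.g j t (M.X j ν t h) * M.L i (τ (M.X j ν t h)) = M.g i t (τ (M.X j ν t h)) * jac τ (M.X j ν t h) * M.L j (M.X j ν t h) ∧
      M.X i μ t (H t h) = τ (M.X j ν t h)) :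
    LinkQ M κ i μ j ν t₀ h₀ h₁ ε (2 * C₀) := by
  have hopen := LinkH_open t₀ ε
  have ht₀ := LinkH_mem t₀ hε
  have hh₁ : h₁ ∈ ball h₁ ε := mem_ball_self hε
  -- the derivative with respect to `h`
  have hder : ∀ t ∈ Strip t₀ ε, ∀ h ∈ ball h₁ ε, HasDerivAt (fun h => M.P i μ t (H t h) - M.P j ν t h) 0 h := by
    intro t ht h hh
    obtain ⟨hb1, hb2, hτ, -, hw, hXH⟩ := hX t ht h hh
    have hexp := LinkH_exp he ht
    have hHa := hH t ht h hh
    have hHd : DifferentiableAt ℂ (fun p : ℂ × ℂ => H p.1 p.2) (t, h) := hHa.differentiableAt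
    have hHh : HasDerivAt (fun h => H t h) (deriv (fun h => H t h) h) h := by
      have h3 : DifferentiableAt ℂ (fun h : ℂ => ((t, h) : ℂ × ℂ)) h := (differentiableAt_const t).prodMk differentiableAt_id
      have h4 : DifferentiableAt ℂ (fun h => H t h) h :=
        DifferentiableAt.comp (f := fun h : ℂ => ((t, h) : ℂ × ℂ)) (g := fun p : ℂ × ℂ => H p.1 p.2) h hHd h3
      exact h4.hasDerivAt
    have hPi : HasDerivAt (fun h => M.P i μ t h) (M.phi i μ t (H t h)) (H t h) := by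
      refine P_deriv M hμ hexp ?_
      rw [hXH]
      exact hb2
    have hPj : HasDerivAt (fun h => M.P j ν t h) (M.phi j ν t h) h := P_deriv M hν hexp hb1
    have hcomp : HasDerivAt (fun h => M.P i μ t (H t h)) (M.phi i μ t (H t h) * deriv (fun h => H t h) h) h := hPi.comp h hHh
    have hsub := hcomp.sub hPj
    -- the chain rule for the Jacobians
    have hG : DifferentiableAt ℂ (fun p : ℂ × ℂ => (p.1, H p.1 p.2)) (t, h) := differentiableAt_fst.prodMk hHd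
    have hXi : DifferentiableAt ℂ (fun p : ℂ × ℂ => M.X i μ p.1 p.2) ((fun p : ℂ × ℂ => (p.1, H p.1 p.2)) (t, h)) :=
      (X_an M i μ _).differentiableAt
    have hXj : DifferentiableAt ℂ (fun p : ℂ × ℂ => M.X j ν p.1 p.2) (t, h) := (X_an M j ν _).differentiableAt
    have e1 : jac (fun q : ℂ × ℂ => (fun p : ℂ × ℂ => M.X i μ p.1 p.2) ((fun p : ℂ × ℂ => (p.1, H p.1 p.2)) q)) (t, h) =
        jac (fun p : ℂ × ℂ => M.X i μ p.1 p.2) (t, H t h) * jac (fun p : ℂ × ℂ => (p.1, H p.1 p.2)) (t, h) :=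
      LinkH_jac_comp (σ := fun p : ℂ × ℂ => (p.1, H p.1 p.2)) (τ := fun p : ℂ × ℂ => M.X i μ p.1 p.2) (p := (t, h)) hXi hG
    have e2 : jac (fun q : ℂ × ℂ => τ ((fun p : ℂ × ℂ => M.X j ν p.1 p.2) q)) (t, h) =
        jac τ (M.X j ν t h) * jac (fun p : ℂ × ℂ => M.X j ν p.1 p.2) (t, h) :=
      LinkH_jac_comp (σ := fun p : ℂ × ℂ => M.X j ν p.1 p.2) (τ := τ) (p := (t, h)) hτ.differentiableAt hXj
    have e3 : (fun q : ℂ × ℂ => (fun p : ℂ × ℂ => M.X i μ p.1 p.2) ((fun p : ℂ × ℂ => (p.1, H p.1 p.2)) q)) =ᶠ[𝓝 (t, h)]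
        (fun q : ℂ × ℂ => τ ((fun p : ℂ × ℂ => M.X j ν p.1 p.2) q)) := by
      have hn : Strip t₀ ε ×ˢ ball h₁ ε ∈ 𝓝 ((t, h) : ℂ × ℂ) := prod_mem_nhds (hopen.mem_nhds ht) (isOpen_ball.mem_nhds hh)
      filter_upwards [hn] with q hq
      exact (hX q.1 hq.1 q.2 hq.2).2.2.2.2.2
    have e4 : jac (fun q : ℂ × ℂ => (fun p : ℂ × ℂ => M.X i μ p.1 p.2) ((fun p : ℂ × ℂ => (p.1, H p.1 p.2)) q)) (t, h) =
        jac (fun q : ℂ × ℂ => τ ((fun p : ℂ × ℂ => M.X j ν p.1 p.2) q)) (t, h) := by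
      unfold jac
      rw [e3.fderiv_eq]
    rw [e1, e2, LinkH_jac_G hHd, jac_X, jac_X] at e4
    have hzero : M.phi i μ t (H t h) * deriv (fun h => H t h) h - M.phi j ν t h = 0 := by
      unfold Atl.phi
      simp only at e4
      have hL := L_X_ne M hμ t (H t h)
      rw [hXH] at e4 hL ⊢
      have hai := a_ne M i
      have haj := a_ne M j
      field_simp at e4
      rw [div_mul_eq_mul_div, sub_eq_zero, div_eq_div_iff hai haj]
      refine mul_left_cancel₀ hL ?_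
      linear_combination (M.g i t (τ (M.X j ν t h))) * e4 - M.a i * hw
    rw [hzero] at hsub
    exact hsub
  have hconst : ∀ t ∈ Strip t₀ ε, ∀ h ∈ ball h₁ ε, M.P i μ t (H t h) - M.P j ν t h = M.P i μ t (H t h₁) - M.P j ν t h₁ := by
    intro t ht h hh
    exact isOpen_ball.is_const_of_deriv_eq_zero (convex_ball h₁ ε).isPreconnected
      (fun x hx => (hder t ht x hx).differentiableAt.differentiableWithinAt) (fun x hx => (hder t ht x hx).deriv) hh hh₁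
  refine ⟨fun t => M.P i μ t (H t h₁) - M.P j ν t h₁, ?_, ?_, ?_⟩
  · intro t ht
    obtain ⟨hb1, hb2, -, -, -, hXH⟩ := hX t ht h₁ hh₁
    have hexp := LinkH_exp he ht
    have h1 : AnalyticAt ℂ (fun p : ℂ × ℂ => H p.1 p.2) (t, h₁) := hH t ht h₁ hh₁
    have h3 : AnalyticAt ℂ (fun t : ℂ => ((t, h₁) : ℂ × ℂ)) t := analyticAt_id.prod analyticAt_const
    have h4 : AnalyticAt ℂ (fun t => H t h₁) t :=
      AnalyticAt.fun_comp (f := fun t : ℂ => ((t, h₁) : ℂ × ℂ)) (g := fun p : ℂ × ℂ => H p.1 p.2) h1 h3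
    exact ((P_an M hμ hexp h4 (by rw [hXH]; exact hb2)).sub
      (P_an M hν hexp (analyticAt_const (v := h₁)) hb1)).differentiableAt.differentiableWithinAt
  · intro t ht
    obtain ⟨hb1, hb2, -, -, -, hXH⟩ := hX t ht h₁ hh₁
    have hexp := LinkH_exp he ht
    have h1 : ‖M.P i μ t (H t h₁)‖ ≤ C₀ * Real.exp (κ * t.re) * ‖H t h₁‖ := P_le hB hμ (by rw [hXH]; exact hb2) hexp
    have h2 : ‖M.P j ν t h₁‖ ≤ C₀ * Real.exp (κ * t.re) * ‖h₁‖ := P_le hB hν hb1 hexp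
    have h0 : 0 ≤ C₀ * Real.exp (κ * t.re) := mul_nonneg hC₀ (Real.exp_pos _).le
    have h3 := mul_le_mul_of_nonneg_left (hC t ht) h0
    have h4 := norm_sub_le (M.P i μ t (H t h₁)) (M.P j ν t h₁)
    have h5 : 0 ≤ C₀ * Real.exp (κ * t.re) * ‖h₁‖ := mul_nonneg h0 (norm_nonneg _)
    nlinarith
  · intro hi hj hia hja hi0 hj0 hs
    have hinj := yb_inj (M.ex i) h₀
    obtain ⟨d, hd, hroot⟩ := root_isolated (M.orb_pos i)
    obtain ⟨δ, hδ, hexpd⟩ : ∃ δ : ℝ, 0 < δ ∧ ∀ w : ℂ, ‖w‖ < 2 * δ → ‖Complex.exp w - 1‖ < d := by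
      have h1 : ContinuousAt (fun w : ℂ => ‖Complex.exp w - 1‖) 0 := by fun_prop
      have h2 : ∀ᶠ w in 𝓝 (0 : ℂ), ‖Complex.exp w - 1‖ < d :=
        h1.eventually_lt continuousAt_const (by simpa using hd)
      obtain ⟨δ, hδ, h3⟩ := Metric.eventually_nhds_iff.1 h2
      refine ⟨δ / 2, by positivity, fun w hw => h3 ?_⟩
      rw [dist_zero_right]
      linarith
    have hX0 : M.X i μ t₀ h₀ ∈ ball (0 : ℂ × ℂ) 2 := by
      obtain ⟨-, hb2, -, -, -, hXH⟩ := hX t₀ ht₀ h₁ hh₁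
      rw [hH₀] at hXH
      rw [hXH]
      exact hb2
    have c1 : ContinuousAt (fun t => M.X i μ t (hi t)) t₀ := by
      have h1 : ContinuousAt (fun p : ℂ × ℂ => M.X i μ p.1 p.2) (t₀, hi t₀) := (X_an M i μ _).continuousAt
      exact ContinuousAt.comp (f := fun t : ℂ => ((t, hi t) : ℂ × ℂ)) (g := fun p : ℂ × ℂ => M.X i μ p.1 p.2) h1
        (continuousAt_id.prodMk hia.continuousAt)
    have c2 : ContinuousAt (fun t => H t (hj t)) t₀ := by
      have h1 : ContinuousAt (fun p : ℂ × ℂ => H p.1 p.2) (t₀, hj t₀) := by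
        rw [hj0]
        exact (hH t₀ ht₀ h₁ hh₁).continuousAt
      exact ContinuousAt.comp (f := fun t : ℂ => ((t, hj t) : ℂ × ℂ)) (g := fun p : ℂ × ℂ => H p.1 p.2) h1
        (continuousAt_id.prodMk hja.continuousAt)
    have v1 : ∀ᶠ t in 𝓝 t₀, M.X i μ t (hi t) ∈ ball (0 : ℂ × ℂ) 2 := by
      refine c1.eventually_mem (isOpen_ball.mem_nhds ?_)
      rw [hi0]
      exact hX0
    have v2 : ∀ᶠ t in 𝓝 t₀, H t (hj t) ∈ ball h₀ (min 1 δ) := by
      refine c2.eventually_mem (isOpen_ball.mem_nhds ?_)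
      rw [hj0, hH₀]
      exact mem_ball_self (lt_min one_pos hδ)
    have v3 : ∀ᶠ t in 𝓝 t₀, hi t ∈ ball h₀ (min 1 δ) := by
      refine hia.continuousAt.eventually_mem (isOpen_ball.mem_nhds ?_)
      rw [hi0]
      exact mem_ball_self (lt_min one_pos hδ)
    have v4 : ∀ᶠ t in 𝓝 t₀, hj t ∈ ball h₁ ε := by
      refine hja.continuousAt.eventually_mem (isOpen_ball.mem_nhds ?_)
      rw [hj0]
      exact hh₁
    have v5 : ∀ᶠ t in 𝓝 t₀, t ∈ Strip t₀ ε := hopen.mem_nhds ht₀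
    filter_upwards [v1, v2, v3, v4, v5, hs] with t w1 w2 w3 w4 w5 w6
    obtain ⟨-, hb2, -, hsj, -, hXH⟩ := hX t w5 (hj t) w4
    have e1 : M.s i (M.X i μ t (hi t)) = M.s i (M.X i μ t (H t (hj t))) := by
      rw [w6, hsj, hXH]
    have hb3 : M.X i μ t (H t (hj t)) ∈ ball (0 : ℂ × ℂ) 2 := by
      rw [hXH]
      exact hb2
    obtain ⟨ζ, hζ, e2⟩ := M.inj i _ _ w1 hb3 (L_X_ne M hμ _ _) (L_X_ne M hμ _ _) e1
    have hζ1 : ζ = 1 := by
      rcases M.orb_eq i with ho | he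
      · rw [ho, pow_one] at hζ
        exact hζ
      · refine hroot ζ hζ ?_
        have e3 : yb (M.ex i) (H t (hj t)) = ζ⁻¹ * yb (M.ex i) (hi t) := congrArg Prod.snd e2
        rw [he, yb_true, yb_true] at e3
        have hζ0 := orb_ne_zero (M.orb_pos i) hζ
        have e5 : ζ = Complex.exp (hi t - H t (hj t)) := by
          rw [Complex.exp_sub, e3]
          field_simp
        rw [e5]
        refine hexpd _ ?_
        have e6 : ‖hi t - h₀‖ < δ := by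
          rw [← dist_eq_norm]
          exact (mem_ball.1 w3).trans_le (min_le_right _ _)
        have e7 : ‖H t (hj t) - h₀‖ < δ := by
          rw [← dist_eq_norm]
          exact (mem_ball.1 w2).trans_le (min_le_right _ _)
        calc ‖hi t - H t (hj t)‖ = ‖(hi t - h₀) - (H t (hj t) - h₀)‖ := by ring_nf
          _ ≤ ‖hi t - h₀‖ + ‖H t (hj t) - h₀‖ := norm_sub_le _ _
          _ < 2 * δ := by linarith
    rw [hζ1, rot_one] at e2
    have e3 : yb (M.ex i) (hi t) = yb (M.ex i) (H t (hj t)) := congrArg Prod.snd e2.symm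
    have e4 : hi t = H t (hj t) := hinj _ (ball_subset_ball (min_le_left _ _) w3) _ (ball_subset_ball (min_le_left _ _) w2) e3
    rw [e4]
    exact hconst t w5 (hj t) w4

end Pool.Agent.EG.RL

end
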