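import Pool.Agent.H94.CB.H18.LU.Oc
import Pool.Agent.H94.CB.H62.EL.Defs
import Pool.Agent.H94.CB.M193

/-! The parts of this file: EG.LE.Defs, H18.LU.Defs. -/

section

/-!
# EG LE Defs: the left end of a log surface over `ℂ^*`

`Xb` is the cone over a projective surface, `U ⊆ V ⊆ Xb` are cones over open subsets (the sections are in `U`, the 2-form `α` is holomorphic on `V`),
`exp ∘ u` is a unit on `V` (`Λ = 2 π i ℤ`), `D ⊆ Xb` is the cone over the fibre over `0`.  Every point of `D` is the centre of a chart (`IsEndT`), in which `exp ∘ u` is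
`p.1 * p.2 ^ b`, `b ≤ 1`; if `ex = true` (`eu = true`) then `V` (`U`) is the complement of both axes, otherwise the complement of the axis `p.1 = 0`.  If `b = 1` (a node of the
fibre) then the chart may be the quotient by the rotations `(ζ p.1, ζ⁻¹ p.2)`, `ζ ^ k = 1`.
-/

set_option autoImplicit false

open Topology Filter Metric Set

namespace Pool.Agent.EG.LE

attribute [-instance] ProperSMul.toContinuousSMul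

open Pool.Agent.H36.BP (EN fs wd)
open Pool.Agent.H14.PP (IsCone Tan jac)
open Pool.Agent.H62.EF (MN pr)
open Pool.Agent.H62.EL (TForm)
open Pool.Agent.EG.RL (rot)

variable {N : ℕ}

/-- the equation of the boundary (without multiplicities) in a chart -/
def Lp (ex : Bool) (p : ℂ × ℂ) : ℂ := p.1 * (if ex = true then p.2 else 1)

/-- the coefficient of the form in the parametrization `σ` -/
noncomputable def cf {V : Set (EN N)} {Λ : AddSubgroup ℂ} {u : EN N → ℂ} (α : TForm V Λ u) (σ : ℂ × ℂ → EN N) (t : ℂ) (p : ℂ × ℂ) : ℂ :=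
  α.toFun t (σ p) (fderiv ℂ σ p (1, 0)) (fderiv ℂ σ p (0, 1))

/-- the type of a chart -/
structure Typ where
  /-- `V` is the complement of both axes -/
  ex : Bool
  /-- `U` is the complement of both axes -/
  eu : Bool
  /-- the exponent -/
  b : ℕ
  /-- the order of the quotient -/
  k : ℕ
  ex_eu : ex = true → eu = true
  b_le : b ≤ 1
  b_ex : b = 1 → ex = true
  k_pos : 1 ≤ k
  k_eq : k = 1 ∨ b = 1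

/-- the point `x₀` is the centre of a chart of type `T` -/
def IsEndT (Xb V U : Set (EN N)) {Λ : AddSubgroup ℂ} {u : EN N → ℂ} (α : TForm V Λ u) (T : Typ) (x₀ : EN N) : Prop :=
  ∃ (σ : ℂ × ℂ → EN N) (τ : EN N → ℂ × ℂ), AnalyticAt ℂ σ 0 ∧ AnalyticAt ℂ τ x₀ ∧ σ 0 = x₀ ∧
    (∀ᶠ q in 𝓝 ((1, 0) : ℂ × ℂ × ℂ), τ (q.1 • σ q.2) = (q.2.1 ^ T.k, q.2.2 ^ T.k)) ∧
    (∀ᶠ p in 𝓝 (0 : ℂ × ℂ), σ p ∈ Xb ∧ (σ p ∈ V ↔ p.1 ≠ 0 ∧ (T.ex = true → p.2 ≠ 0)) ∧ (σ p ∈ U ↔ p.1 ≠ 0 ∧ (T.eu = true → p.2 ≠ 0)) ∧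
      (σ p ∈ V → Complex.exp (u (σ p)) = p.1 * p.2 ^ T.b)) ∧
    (∀ W ∈ 𝓝 (0 : ℂ × ℂ), ∀ᶠ y in 𝓝 x₀, y ∈ Xb → ∃ p ∈ W, ∃ c : ℂ, c ≠ 0 ∧ y = c • σ p) ∧
    (∀ ζ : ℂ, ζ ^ T.k = 1 → ∀ᶠ p in 𝓝 (0 : ℂ × ℂ), ∃ c : ℂ, c ≠ 0 ∧ σ (rot ζ p) = c • σ p) ∧
    ∃ C : ℝ, ∀ᶠ p in 𝓝 (0 : ℂ × ℂ), Lp T.ex p ≠ 0 → ∀ t : ℂ, Complex.exp t = p.1 * p.2 ^ T.b → ‖Lp T.ex p * cf α σ t p‖ ≤ C

/-- the data near the left end -/
structure EndData (Xb V U D : Set (EN N)) (Λ : AddSubgroup ℂ) (u : EN N → ℂ) (α : TForm V Λ u) : Prop where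
  cone : IsCone Xb
  lat : ∀ w : ℂ, w ∈ Λ ↔ Complex.exp w = 1
  V_sub : V ⊆ Xb
  U_sub : U ⊆ V
  V_smul : ∀ x ∈ V, ∀ c : ℂ, c ≠ 0 → c • x ∈ V
  U_smul : ∀ x ∈ U, ∀ c : ℂ, c ≠ 0 → c • x ∈ U
  V_open : ∀ x ∈ V, ∀ᶠ y in 𝓝 x, y ∈ Xb → y ∈ V
  u_smul : ∀ x ∈ V, ∀ c : ℂ, c ≠ 0 → u (c • x) - u x ∈ Λ
  u_loc : ∀ x ∈ V, ∃ v : EN N → ℂ, AnalyticAt ℂ v x ∧ ∀ᶠ y in 𝓝 x, y ∈ V → u y - v y ∈ Λ
  D_sub : D ⊆ Xb
  D_smul : ∀ x ∈ D, ∀ c : ℂ, c ≠ 0 → c • x ∈ D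
  D_char : ∀ x ∈ Xb, x ∉ D → ∃ c : ℝ, 0 < c ∧ ∀ᶠ y in 𝓝 x, y ∈ V → c ≤ ‖Complex.exp (u y)‖
  D_end : ∀ x ∈ D, ∃ T : Typ, IsEndT Xb V U α T x
  D_fin : (pr '' {x | x ∈ D ∧ ¬ ∃ T : Typ, T.ex = false ∧ IsEndT Xb V U α T x}).Finite
  hyp : ∃ R : Set (EN N), (∀ x ∈ D, x ∈ R ∨ ∃ T : Typ, T.eu = true ∧ IsEndT Xb V U α T x) ∧
    ∀ F : ℂ → EN N, Differentiable ℂ F → (∀ z, F z ∈ R) → ∀ z w, ∃ c : ℂ, F z = c • F w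

/-- the holomorphic sections over `Ω` -/
def SecOn (U : Set (EN N)) (Λ : AddSubgroup ℂ) (u : EN N → ℂ) (Ω : Set ℂ) (F : ℂ → EN N) : Prop :=
  DifferentiableOn ℂ F Ω ∧ ∀ z ∈ Ω, F z ∈ U ∧ u (F z) - z ∈ Λ

/-- the holomorphic sections over `Ω`, in projective space -/
def TT (U : Set (EN N)) (Λ : AddSubgroup ℂ) (u : EN N → ℂ) (Ω : Set ℂ) : Set (ℂ → MN N) :=
  {f | ∃ F : ℂ → EN N, SecOn U Λ u Ω F ∧ ∀ z ∈ Ω, f z = pr (F z)}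

/-- `II` is the integral of `α / dz` along short paths in the fibres, from one section to another one, for `W₀ ≤ Re z ≤ W₁` -/
def HasII {V : Set (EN N)} (U : Set (EN N)) {Λ : AddSubgroup ℂ} {u : EN N → ℂ} (α : TForm V Λ u) (II : ℂ → MN N → MN N → ℂ) (r₂ W₀ W₁ : ℝ) : Prop :=
  ∃ ε₁ : ℝ, 0 < ε₁ ∧ ∀ (z w₀ w₁ : ℂ) (Φ : ℂ × ℂ → EN N) (f g : ℂ → EN N), W₀ ≤ z.re → z.re ≤ W₁ →
    SecOn U Λ u (ball z r₂) f → SecOn U Λ u (ball z r₂) g → pr (f z) = pr (Φ (z, w₀)) → pr (g z) = pr (Φ (z, w₁)) →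
    (∀ θ ∈ Icc (0 : ℝ) 1, AnalyticAt ℂ Φ (z, w₀ + θ * (w₁ - w₀)) ∧ ∀ᶠ q in 𝓝 (z, w₀ + θ * (w₁ - w₀)), Φ q ∈ V ∧ u (Φ q) - q.1 ∈ Λ) →
    (∀ θ ∈ Icc (0 : ℝ) 1, dist (pr (Φ (z, w₀ + θ * (w₁ - w₀)))) (pr (Φ (z, w₀))) ≤ ε₁) →
    II z (pr (Φ (z, w₀))) (pr (Φ (z, w₁))) = ∫ θ in (0 : ℝ)..1, (w₁ - w₀) * cf α Φ z (z, w₀ + θ * (w₁ - w₀))

/-- the small central part of the bidisc -/
def CenS (p : ℂ × ℂ) : Prop := ‖p.1‖ < 3 / 8 ∧ ‖p.2‖ < 7 / 8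

/-- a chart near the fibre over `0`, on the bidisc of radius `3` -/
structure LCh (Xb V U : Set (EN N)) {Λ : AddSubgroup ℂ} {u : EN N → ℂ} (α : TForm V Λ u) extends Typ where
  /-- the parametrization -/
  s : ℂ × ℂ → EN N
  /-- the powers of the coordinates -/
  q : EN N → ℂ × ℂ
  /-- the domain -/
  W : Set (EN N)
  /-- the constant -/
  κ : ℂ
  κ_ne : κ ≠ 0
  isOpen_W : IsOpen W
  smul_W : ∀ x ∈ W, ∀ c : ℂ, c ≠ 0 → c • x ∈ W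
  q_an : ∀ x ∈ W, AnalyticAt ℂ q x
  q_smul : ∀ x ∈ W, ∀ c : ℂ, c ≠ 0 → q (c • x) = q x
  s_an : ∀ p ∈ ball (0 : ℂ × ℂ) 3, AnalyticAt ℂ s p
  s_mem : ∀ p ∈ ball (0 : ℂ × ℂ) 3, s p ∈ Xb ∧ s p ∈ W ∧ q (s p) = (p.1 ^ k, p.2 ^ k)
  s_V : ∀ p ∈ ball (0 : ℂ × ℂ) 3, (s p ∈ V ↔ p.1 ≠ 0 ∧ (ex = true → p.2 ≠ 0))
  s_U : ∀ p ∈ ball (0 : ℂ × ℂ) 3, (s p ∈ U ↔ p.1 ≠ 0 ∧ (eu = true → p.2 ≠ 0))
  s_u : ∀ p ∈ ball (0 : ℂ × ℂ) 3, s p ∈ V → Complex.exp (u (s p)) = κ * p.1 * p.2 ^ b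
  surj : ∀ x ∈ Xb, x ∈ W → ∃ p ∈ ball (0 : ℂ × ℂ) 3, ∃ c : ℂ, c ≠ 0 ∧ x = c • s p
  s_rot : ∀ ζ : ℂ, ζ ^ k = 1 → ∀ p ∈ ball (0 : ℂ × ℂ) 3, ∃ c : ℂ, c ≠ 0 ∧ s (rot ζ p) = c • s p
  bd : ∃ C : ℝ, ∀ p ∈ ball (0 : ℂ × ℂ) 3, Lp ex p ≠ 0 → ∀ t : ℂ, Complex.exp t = κ * p.1 * p.2 ^ b → ‖Lp ex p * cf α s t p‖ ≤ C

variable {Xb V U D : Set (EN N)} {Λ : AddSubgroup ℂ} {u : EN N → ℂ} {α : TForm V Λ u}

/-- `x` is a point of the chart with coordinates in `A` -/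
def LCh.Pt (c : LCh Xb V U α) (A : Set (ℂ × ℂ)) (x : EN N) : Prop := ∃ p ∈ A, ∃ a : ℂ, a ≠ 0 ∧ x = a • c.s p

/-- the central part, for nodes in both directions -/
def CenB (b : ℕ) : Set (ℂ × ℂ) := {p | CenS p ∨ b = 1 ∧ CenS p.swap}

/-- a finite family of charts which covers a neighbourhood of the fibre over `0` -/
structure LFam (Xb V U D : Set (EN N)) {Λ : AddSubgroup ℂ} {u : EN N → ℂ} (α : TForm V Λ u) (κ : Type) where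
  /-- the charts -/
  c : κ → LCh Xb V U α
  fin : Finite κ
  sep : ∀ i j, i ≠ j → (c i).ex = true → ∀ p : ℂ × ℂ, ‖p.1‖ ≤ 1 / 2 → ‖p.2‖ ≤ 1 / 2 → (c i).s p ∉ (c j).W
  cov : ∀ x ∈ D, ∃ i, (c i).Pt (CenB (c i).b) x

end Pool.Agent.EG.LE

end

section

/-!
# LU Defs: surfaces with boundary over `ℂ / Λ`, `Λ` a discrete group

`X` is the cone (without `0`) over a smooth surface, `u` a holomorphic map to `ℂ / Λ`, where `Λ` is a discrete subgroup of `ℂ` (a lattice, or `2 π i ℤ`); `X` is closed over the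
parts `{z | dist (z, Λ) ≤ R}` of the base.  `D ⊆ X` is the boundary (a closed curve), `P ⊆ D` the part where the `2`-form has poles, open and closed in `D`.
`B` is the set of the bad values (discrete, invariant).  Over the values which are not bad `D` is the graph of local sections (`HorAt` with exponent `1`).
The form is a `TForm (X \ P) Λ u` (EL Defs), with logarithmic poles along `P` (`LogP`).
-/

set_option autoImplicit false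

open Topology Filter Metric

namespace Pool.Agent.H18.LU

attribute [-instance] ProperSMul.toContinuousSMul

open Pool.Agent.H36.BP (EN fs wd IsGermChart)
open Pool.Agent.H14.PP (IsCone Chart Tan CurveAt)
open Pool.Agent.H62.EF (Lat MN pr TorusMap Sec Charts DU)
open Pool.Agent.H62.EL (Gd Ag BadSet IsNC TForm)

variable {N : ℕ}

/-- near `z` the curve `F` is a section in `X \ D` -/
def SecAt (X D : Set (EN N)) (Λ : AddSubgroup ℂ) (u : EN N → ℂ) (F : ℂ → EN N) (z : ℂ) : Prop :=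
  AnalyticAt ℂ F z ∧ ∀ᶠ w in 𝓝 z, F w ∈ X ∧ F w ∉ D ∧ u (F w) - w ∈ Λ

/-- the limits of the sections over (neighbourhoods of the compact subsets of) `Ω`, locally uniformly outside `B` -/
def SO (X D : Set (EN N)) (Λ : AddSubgroup ℂ) (u : EN N → ℂ) (B : Set ℂ) (Ω : Set ℂ) : Set (ℂ → MN N) :=
  {f | ∀ K : Set ℂ, K ⊆ Ω → IsCompact K → ∀ δ' ε : ℝ, 0 < δ' → 0 < ε →
    ∃ F : ℂ → EN N, (∀ z ∈ K, SecAt X D Λ u F z) ∧ ∀ z ∈ K, z ∈ Gd B δ' → dist (pr (F z)) (f z) < ε}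

/-- the points of distance at most `R` from `Λ` -/
def Nb (Λ : AddSubgroup ℂ) (R : ℝ) : Set ℂ := {z | ∃ l ∈ Λ, ‖z - l‖ ≤ R}

/-- the part of `X` over `Nb Λ R` -/
def part (X : Set (EN N)) (Λ : AddSubgroup ℂ) (u : EN N → ℂ) (R : ℝ) : Set (EN N) := {x | x ∈ X ∧ u x ∈ Nb Λ R}

/-- in suitable local coordinates `s`, `t` at `x` the map `u` is `b + s ^ i` and `D` is `{t = 0}` -/
def HorAt (X : Set (EN N)) (Λ : AddSubgroup ℂ) (u : EN N → ℂ) (D : Set (EN N)) (x : EN N) (b : ℂ) (i : ℕ) : Prop :=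
  ∃ (σ : ℂ × ℂ → EN N) (τ : EN N → ℂ × ℂ), IsGermChart X σ τ ∧ σ 0 = x ∧ (∀ᶠ p in 𝓝 (0 : ℂ × ℂ), u (σ p) - (b + p.1 ^ i) ∈ Λ) ∧
    ∀ᶠ p in 𝓝 (0 : ℂ × ℂ), σ p ∈ D ↔ p.2 = 0

/-- the part of the geometric data which does not speak about the bad fibres -/
structure LFib (X D : Set (EN N)) (Λ Γ : AddSubgroup ℂ) (u : EN N → ℂ) (B : Set ℂ) (δ : ℝ) : Prop where
  cone : OCone X
  closed : ∀ R : ℝ, IsClosed (insert 0 (part X Λ u R))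
  charts : Charts X
  tor : TorusMap X Λ u
  dsc : Dsc Λ
  le : Γ ≤ Λ
  cof : ∃ R : ℝ, 0 < R ∧ ∀ l ∈ Λ, ∃ l' ∈ Γ, ‖l - l'‖ ≤ R
  bad : BadSet B Λ δ
  zero : ∀ b ∈ B, 4 * δ ≤ ‖b‖
  D_sub : D ⊆ X
  D_smul : ∀ x ∈ D, ∀ c : ℂ, c ≠ 0 → c • x ∈ D
  D_closed : ∀ x ∈ X, x ∉ D → ∀ᶠ y in 𝓝 x, y ∉ D
  hor : ∀ x ∈ D, (∀ b ∈ B, u x - b ∉ Λ) → HorAt X Λ u D x (u x) 1
  fib : ∀ F : ℂ → EN N, Differentiable ℂ F → (∀ z, F z ∈ X ∧ F z ∉ D) → (∀ z w, u (F z) - u (F w) ∈ Λ) →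
    (∃ z w, ∀ c : ℂ, F z ≠ c • F w) → ∃ b ∈ B, u (F 0) - b ∈ Λ

/-- the geometric data -/
structure LData (X D P : Set (EN N)) (Λ Γ : AddSubgroup ℂ) (u : EN N → ℂ) (B : Set ℂ) (δ : ℝ) : Prop extends LFib X D Λ Γ u B δ where
  P_sub : P ⊆ D
  P_smul : ∀ x ∈ P, ∀ c : ℂ, c ≠ 0 → c • x ∈ P
  P_closed : ∀ x ∈ X, x ∉ P → ∀ᶠ y in 𝓝 x, y ∉ P
  P_open : ∀ x ∈ P, ∀ᶠ y in 𝓝 x, y ∈ D → y ∈ P
  horP : ∀ b ∈ B, ∀ x ∈ P, u x - b ∈ Λ → ∃ i : ℕ, 1 ≤ i ∧ HorAt X Λ u P x b i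
  nc : ∀ b ∈ B, ∀ x ∈ X, x ∉ P → u x - b ∈ Λ → IsNC X Λ u x b
  noP : ∀ F : ℂ → EN N, Differentiable ℂ F → (∀ z, F z ∈ P) → (∀ z, u (F z) - z ∈ Λ) → False

variable {X P : Set (EN N)} {Λ : AddSubgroup ℂ} {u : EN N → ℂ}

/-- the form has at most logarithmic poles along `P`: in local coordinates `s`, `t` with `P = {t = 0}` its coefficient is `g / t`, `g` holomorphic -/
def LogP (α : TForm (X \ P) Λ u) : Prop :=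
  ∀ (σ : ℂ × ℂ → EN N) (τ : EN N → ℂ × ℂ) (υ : ℂ × ℂ → ℂ), IsGermChart X σ τ → (∀ᶠ p in 𝓝 (0 : ℂ × ℂ), σ p ∈ P ↔ p.2 = 0) →
    AnalyticAt ℂ υ 0 → (∀ᶠ p in 𝓝 (0 : ℂ × ℂ), u (σ p) - υ p ∈ Λ) →
    ∃ g : ℂ × ℂ → ℂ, AnalyticAt ℂ g 0 ∧ ∀ᶠ p in 𝓝 (0 : ℂ × ℂ), p.2 ≠ 0 →
      p.2 * α.toFun (υ p) (σ p) (fderiv ℂ σ p (1, 0)) (fderiv ℂ σ p (0, 1)) = g p

end Pool.Agent.H18.LU

end
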