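import Pool.Agent.H94.CB.M18
import Pool.Agent.H94.CB.M194

/-! The parts of this file: EG.RL.Bd, EG.RL.Sec, H18.LU.BaseDefs, H18.LU.HoDef, H18.LU.OChN. -/

section

/-!
# EG RL Bd: bounds for the densities

Ends: the coefficients `g` are bounded, `κ = 0`.  Holes: the form is holomorphic across the fibre, so `g = O (x)` (`b = 0`), `g = O (x y)` (`1 ≤ b`), `κ > 0`.
-/

set_option autoImplicit false

open Topology Filter Metric Set

namespace Pool.Agent.EG.RL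

attribute [-instance] ProperSMul.toContinuousSMul

variable {ι Y : Type}

theorem bphi_end (M : Model ι Y) [Finite ι] (hg : ∀ i, ∃ C : ℝ, ∀ p ∈ ball (0 : ℂ × ℂ) 2, M.L i p ≠ 0 → ∀ t, Complex.exp t = M.u i p → ‖M.g i t p‖ ≤ C) :
    ∃ C₀ : ℝ, 0 ≤ C₀ ∧ Bphi M C₀ 0 := by
  choose C hC using hg
  obtain ⟨B, hB⟩ := (Set.finite_range C).bddAbove
  refine ⟨max B 0, le_max_right _ _, fun i μ t h hμ hX _ => ?_⟩
  rw [zero_mul, Real.exp_zero, mul_one]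
  unfold Atl.phi
  rw [norm_div, Complex.norm_natCast]
  have ha : (1 : ℝ) ≤ M.a i := by exact_mod_cast M.a_pos i
  calc ‖M.g i t (M.X i μ t h)‖ / M.a i ≤ ‖M.g i t (M.X i μ t h)‖ := div_le_self (norm_nonneg _) ha
    _ ≤ C i := hC i _ hX (L_X_ne M hμ t h) t (u_X M hμ t h).symm
    _ ≤ B := hB ⟨i, rfl⟩
    _ ≤ _ := le_max_left _ _

/-- the product of the coordinates is small -/
private theorem bd_key {x y K T : ℝ} {a b : ℕ} (ha : 1 ≤ a) (hx0 : 0 ≤ x) (hx : x < 2) (hy0 : 0 ≤ y) (hy : y < 2) (hK : 0 < K)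
    (hu : K * x ^ a * y ^ b = Real.exp T) : x * y / 4 ≤ max 1 (1 / K) * Real.exp (1 / (max a b : ℕ) * T) := by
  set m : ℕ := max a b with hm
  have hm1 : 1 ≤ m := ha.trans (le_max_left _ _)
  set m₀ : ℝ := max 1 (1 / K) with hm₀
  have hm₀1 : 1 ≤ m₀ := le_max_left _ _
  have hR : 0 ≤ m₀ * Real.exp (1 / m * T) := by positivity
  refine le_of_pow_le_pow_left₀ (n := m) (by omega) hR ?_
  have h1 : (m₀ * Real.exp (1 / m * T)) ^ m = m₀ ^ m * Real.exp T := by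
    rw [mul_pow, ← Real.exp_nat_mul]
    congr 2
    field_simp
  have h2 : m₀ ≤ m₀ ^ m := le_self_pow₀ hm₀1 (by omega)
  have h3 : x ^ a * y ^ b ≤ m₀ * Real.exp T := by
    have h4 : x ^ a * y ^ b = 1 / K * Real.exp T := by
      rw [← hu]
      field_simp
    rw [h4]
    exact mul_le_mul_of_nonneg_right (le_max_right _ _) (Real.exp_pos _).le
  rw [h1]
  refine le_trans ?_ (h3.trans (mul_le_mul_of_nonneg_right h2 (Real.exp_pos _).le))
  have hxa : (x / 2) ^ m ≤ (x / 2) ^ a := pow_le_pow_of_le_one (by positivity) (by linarith) (le_max_left _ _)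
  have hxb : (x / 2) ^ a ≤ x ^ a := pow_le_pow_left₀ (by positivity) (by linarith) _
  have hya : (y / 2) ^ m ≤ (y / 2) ^ b := pow_le_pow_of_le_one (by positivity) (by linarith) (le_max_right _ _)
  have hyb : (y / 2) ^ b ≤ y ^ b := pow_le_pow_left₀ (by positivity) (by linarith) _
  have h6 : (x * y / 4) ^ m = (x / 2) ^ m * (y / 2) ^ m := by
    rw [← mul_pow]
    congr 1
    ring
  rw [h6]
  exact mul_le_mul (hxa.trans hxb) (hya.trans hyb) (by positivity) (by positivity)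

theorem bphi_hole (M : Model ι Y) [Finite ι] (hb : ∀ i, 0 ≤ M.b i)
    (hg : ∀ i, ∃ C : ℝ, ∀ p ∈ ball (0 : ℂ × ℂ) 2, M.L i p ≠ 0 → ∀ t, Complex.exp t = M.u i p →
      ‖M.g i t p‖ ≤ C * (‖p.1‖ * (if M.b i = 0 then 1 else ‖p.2‖))) :
    ∃ C₀ κ : ℝ, 0 ≤ C₀ ∧ 0 < κ ∧ Bphi M C₀ κ := by
  choose C hC using hg
  obtain ⟨B, hB⟩ := (Set.finite_range C).bddAbove
  obtain ⟨A, hA⟩ := (Set.finite_range fun i => max (M.a i) (M.b i).toNat).bddAbove
  obtain ⟨K, hK⟩ := (Set.finite_range fun i => max 1 (1 / ‖M.k i‖)).bddAbove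
  have hρ := M.ρ_pos
  refine ⟨4 * max B 0 * max K 0 * (1 + M.ρ), 1 / (A + 1), by positivity, by positivity, fun i μ t h hμ hX ht => ?_⟩
  have hk : 0 < ‖M.k i‖ := norm_pos_iff.2 (k_ne M i)
  have hX' := hX
  rw [mem_bi] at hX'
  obtain ⟨hx, hy⟩ := hX'
  have hu := congrArg norm (u_X M hμ t h)
  rw [Complex.norm_exp] at hu
  set m : ℕ := max (M.a i) (M.b i).toNat with hm
  have hm1 : 1 ≤ m := (M.a_pos i).trans (le_max_left _ _)
  have hmA : m ≤ A := hA ⟨i, rfl⟩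
  have hKi : max 1 (1 / ‖M.k i‖) ≤ K := hK ⟨i, rfl⟩
  -- the estimate with the exponent `1 / m`
  have key : ‖(M.X i μ t h).1‖ * (if M.b i = 0 then 1 else ‖(M.X i μ t h).2‖) ≤
      4 * (max 1 (1 / ‖M.k i‖) * Real.exp (1 / m * t.re)) := by
    change ‖M.k i * (M.X i μ t h).1 ^ M.a i * (M.X i μ t h).2 ^ M.b i‖ = _ at hu
    rw [norm_mul, norm_mul, norm_pow, norm_zpow] at hu
    by_cases hb0 : M.b i = 0
    · rw [if_pos hb0]
      rw [hb0, zpow_zero, mul_one] at hu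
      have h1 := bd_key (x := ‖(M.X i μ t h).1‖) (y := 1) (b := (M.b i).toNat) (M.a_pos i) (norm_nonneg _) hx zero_le_one (by norm_num) hk
        (by rw [one_pow, mul_one]; exact hu)
      rw [mul_one] at h1 ⊢
      linarith
    · rw [if_neg hb0]
      have h2 : ((M.b i).toNat : ℤ) = M.b i := Int.toNat_of_nonneg (hb i)
      have h1 := bd_key (x := ‖(M.X i μ t h).1‖) (y := ‖(M.X i μ t h).2‖) (b := (M.b i).toNat) (M.a_pos i) (norm_nonneg _) hx (norm_nonneg _) hy hk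
        (by rw [← zpow_natCast ‖(M.X i μ t h).2‖, h2]; exact hu)
      linarith
  have hT : t.re < Real.log (1 + M.ρ) := by
    rw [Real.lt_log_iff_exp_lt (by linarith), ← Complex.norm_exp]
    linarith
  have hL : 0 ≤ Real.log (1 + M.ρ) := Real.log_nonneg (by linarith)
  have hm1' : (1 : ℝ) ≤ m := by exact_mod_cast hm1
  have hmA' : (m : ℝ) ≤ A := by exact_mod_cast hmA
  have hexp : Real.exp (1 / m * t.re) ≤ (1 + M.ρ) * Real.exp (1 / (A + 1) * t.re) := by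
    have h1 : 1 / (m : ℝ) * t.re ≤ Real.log (1 + M.ρ) + 1 / (A + 1) * t.re := by
      have h2 : 0 ≤ 1 / (m : ℝ) - 1 / (A + 1) := by
        rw [sub_nonneg]
        exact one_div_le_one_div_of_le (by linarith) (by linarith)
      have h3 : 1 / (m : ℝ) - 1 / (A + 1) ≤ 1 := by
        have h4 : 1 / (m : ℝ) ≤ 1 := by
          rw [div_le_one (by linarith)]
          exact hm1'
        have h5 : 0 < 1 / ((A : ℝ) + 1) := by positivity
        linarith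
      have h4 : (1 / (m : ℝ) - 1 / (A + 1)) * t.re ≤ (1 / (m : ℝ) - 1 / (A + 1)) * Real.log (1 + M.ρ) :=
        mul_le_mul_of_nonneg_left hT.le h2
      have h5 : (1 / (m : ℝ) - 1 / (A + 1)) * Real.log (1 + M.ρ) ≤ 1 * Real.log (1 + M.ρ) := mul_le_mul_of_nonneg_right h3 hL
      linarith
    calc Real.exp (1 / m * t.re) ≤ Real.exp (Real.log (1 + M.ρ) + 1 / (A + 1) * t.re) := Real.exp_le_exp.2 h1
      _ = _ := by rw [Real.exp_add, Real.exp_log (by linarith)]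
  unfold Atl.phi
  rw [norm_div, Complex.norm_natCast]
  have ha : (1 : ℝ) ≤ M.a i := by exact_mod_cast M.a_pos i
  have hi0 : 0 ≤ ‖(M.X i μ t h).1‖ * (if M.b i = 0 then 1 else ‖(M.X i μ t h).2‖) := by
    refine mul_nonneg (norm_nonneg _) ?_
    split_ifs
    · exact zero_le_one
    · exact norm_nonneg _
  calc ‖M.g i t (M.X i μ t h)‖ / M.a i ≤ ‖M.g i t (M.X i μ t h)‖ := div_le_self (norm_nonneg _) ha
    _ ≤ C i * (‖(M.X i μ t h).1‖ * (if M.b i = 0 then 1 else ‖(M.X i μ t h).2‖)) :=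
        hC i _ hX (L_X_ne M hμ t h) t (u_X M hμ t h).symm
    _ ≤ max B 0 * (‖(M.X i μ t h).1‖ * (if M.b i = 0 then 1 else ‖(M.X i μ t h).2‖)) :=
        mul_le_mul_of_nonneg_right ((hB ⟨i, rfl⟩).trans (le_max_left _ _)) hi0
    _ ≤ max B 0 * (4 * (max K 0 * ((1 + M.ρ) * Real.exp (1 / (A + 1) * t.re)))) := by
        refine mul_le_mul_of_nonneg_left (key.trans ?_) (le_max_right _ _)
        refine mul_le_mul_of_nonneg_left ?_ (by norm_num)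
        exact mul_le_mul (hKi.trans (le_max_left _ _)) hexp (Real.exp_pos _).le (le_max_right _ _)
    _ = _ := by ring

end Pool.Agent.EG.RL

end

section

/-!
# EG RL Sec: a section is locally a curve in a cell

`z = exp t`.  The points `y = 0` of the charts with `ex = true`, `b ≤ 0` (horizontal boundary, base points) are excluded.
-/

set_option autoImplicit false

open Topology Filter Metric Set

namespace Pool.Agent.EG.RL

attribute [-instance] ProperSMul.toContinuousSMul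

variable {ι Y : Type}

/-- `p` is not a point of the horizontal boundary -/
def Atl.Ok (M : Atl ι Y) (i : ι) (p : ℂ × ℂ) : Prop := M.ex i = true → M.b i ≤ 0 → p.2 ≠ 0

/-- `f` is a holomorphic section near `z₀` -/
def Atl.Hol (M : Atl ι Y) (f : ℂ → Y) (z₀ : ℂ) : Prop :=
  ∀ i p, p ∈ ball (0 : ℂ × ℂ) 2 → M.Ok i p → f z₀ = M.s i p →
    ∃ P : ℂ → ℂ × ℂ, AnalyticAt ℂ P z₀ ∧ P z₀ = p ∧ ∀ᶠ z in 𝓝 z₀, f z = M.s i (P z) ∧ M.u i (P z) = z

/-- the point `f z₀` is a central point of some chart -/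
def Atl.Cov (M : Atl ι Y) (f : ℂ → Y) (z₀ : ℂ) : Prop := ∃ i p, Cen p ∧ M.Ok i p ∧ f z₀ = M.s i p

theorem cen_open : IsOpen {p : ℂ × ℂ | Cen p} := by
  unfold Cen
  exact (isOpen_lt continuous_fst.norm continuous_const).inter
    (isOpen_lt continuous_snd.norm continuous_const)

/-- a root of unity near `1` is `1` -/
theorem root_near {a : ℕ} (ha : 1 ≤ a) {ζ : ℂ → ℂ} {t₀ : ℂ} (hc : ContinuousAt ζ t₀) (h1 : ζ t₀ = 1)
    (h : ∀ᶠ t in 𝓝 t₀, ζ t ^ a = 1) : ∀ᶠ t in 𝓝 t₀, ζ t = 1 := by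
  have h2 : ContinuousAt (fun t => ∑ j ∈ Finset.range a, ζ t ^ j) t₀ :=
    tendsto_finsetSum _ fun j _ => hc.pow j
  have h3 : ∑ j ∈ Finset.range a, ζ t₀ ^ j ≠ 0 := by
    simp only [h1, one_pow, Finset.sum_const, Finset.card_range, nsmul_eq_mul, mul_one]
    exact Nat.cast_ne_zero.mpr (by omega)
  filter_upwards [h, h2.eventually_ne h3] with t ht ht2
  have h4 := geom_sum_mul (ζ t) a
  rw [ht, sub_self] at h4
  exact sub_eq_zero.mp ((mul_eq_zero.mp h4).resolve_left ht2)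

/-- the coordinate `h` -/
theorem exists_h (e : Bool) {g : ℂ → ℂ} {t₀ : ℂ} (hg : AnalyticAt ℂ g t₀) (hb : e = true → g t₀ ≠ 0) :
    ∃ h : ℂ → ℂ, AnalyticAt ℂ h t₀ ∧ ∀ᶠ t in 𝓝 t₀, yb e (h t) = g t := by
  cases e with
  | false =>
    exact ⟨g, hg, Eventually.of_forall fun t => yb_false⟩
  | true =>
    have hg0 := hb rfl
    have h1 : AnalyticAt ℂ (fun t => g t / g t₀) t₀ := hg.div analyticAt_const hg0
    have h2 : g t₀ / g t₀ = 1 := div_self hg0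
    have h3 : AnalyticAt ℂ (fun t => Complex.log (g t₀) + Complex.log (g t / g t₀)) t₀ := by
      refine analyticAt_const.add (AnalyticAt.clog h1 ?_)
      show g t₀ / g t₀ ∈ Complex.slitPlane
      rw [h2]
      exact Complex.one_mem_slitPlane
    refine ⟨_, h3, ?_⟩
    have h4 : ∀ᶠ t in 𝓝 t₀, g t ≠ 0 := hg.continuousAt.eventually_ne hg0
    filter_upwards [h4] with t ht
    rw [yb_true, Complex.exp_add, Complex.exp_log hg0, Complex.exp_log (div_ne_zero ht hg0), mul_div_cancel₀ _ hg0]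

/-- a curve in the surface is locally a curve in a cell: version for a curve `p` in a chart, `u (p t) = exp t` -/
theorem exists_cell_of (M : Model ι Y) {i : ι} {p : ℂ → ℂ × ℂ} {t₀ : ℂ} (hp : AnalyticAt ℂ p t₀) (hL : M.L i (p t₀) ≠ 0)
    (hu : ∀ᶠ t in 𝓝 t₀, M.u i (p t) = Complex.exp t) :
    ∃ (μ : ℂ) (h : ℂ → ℂ), M.k i * μ ^ M.a i = 1 ∧ AnalyticAt ℂ h t₀ ∧ ∀ᶠ t in 𝓝 t₀, M.X i μ t (h t) = p t := by
  have ha := M.a_pos i
  have ha0 := a_ne M i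
  have hk := k_ne M i
  have hQ1 : AnalyticAt ℂ (fun t => (p t).1) t₀ := AnalyticAt.comp analyticAt_fst hp
  have hQ2 : AnalyticAt ℂ (fun t => (p t).2) t₀ := AnalyticAt.comp analyticAt_snd hp
  have hp1 : (p t₀).1 ≠ 0 := left_ne_zero_of_mul hL
  have hp2 : M.ex i = true → (p t₀).2 ≠ 0 := by
    intro he
    unfold Atl.L at hL
    rw [if_pos he] at hL
    exact right_ne_zero_of_mul hL
  obtain ⟨h, hh, hhe⟩ := exists_h (M.ex i) hQ2 hp2
  have hhb : ∀ᶠ t in 𝓝 t₀, Complex.exp (M.b i * h t) = (p t).2 ^ M.b i := by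
    filter_upwards [hhe] with t ht
    by_cases he : M.ex i = true
    · rw [he, yb_true] at ht
      rw [← ht, Complex.exp_int_mul]
    · rw [M.b_ex i (by simpa using he)]
      simp
  have hu0 := hu.self_of_nhds
  have hpw : ∀ x : ℂ, Complex.exp (x / M.a i) ^ M.a i = Complex.exp x := by
    intro x
    rw [← Complex.exp_nat_mul, mul_div_cancel₀ _ ha0]
  obtain ⟨μ, hμd⟩ : ∃ μ : ℂ, μ = (p t₀).1 * Complex.exp (-((t₀ - M.b i * h t₀) / M.a i)) := ⟨_, rfl⟩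
  have hμa : M.k i * μ ^ M.a i = 1 := by
    rw [hμd, mul_pow, ← neg_div, hpw, neg_sub, Complex.exp_sub, hhb.self_of_nhds]
    have h1 : M.k i * (p t₀).1 ^ M.a i * (p t₀).2 ^ M.b i = Complex.exp t₀ := hu0
    rw [← mul_assoc, mul_div_assoc', h1, div_self (Complex.exp_ne_zero t₀)]
  have hx0 : μ * Complex.exp ((t₀ - M.b i * h t₀) / M.a i) = (p t₀).1 := by
    rw [hμd, mul_assoc, ← Complex.exp_add, neg_add_cancel, Complex.exp_zero, mul_one]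
  have hca : ContinuousAt (fun t => μ * Complex.exp ((t - M.b i * h t) / M.a i)) t₀ :=
    continuousAt_const.mul (ContinuousAt.cexp ((continuousAt_id.sub
      (continuousAt_const.mul hh.continuousAt)).div_const _))
  have hζ : ∀ᶠ t in 𝓝 t₀, μ * Complex.exp ((t - M.b i * h t) / M.a i) / (p t).1 = 1 := by
    refine root_near ha (hca.div hQ1.continuousAt hp1) ?_ ?_
    · show μ * Complex.exp ((t₀ - M.b i * h t₀) / M.a i) / (p t₀).1 = 1
      rw [hx0, div_self hp1]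
    · filter_upwards [hu, hhb] with t h1 h2
      have h3 : M.k i * (p t).1 ^ M.a i * (p t).2 ^ M.b i = Complex.exp t := h1
      have h4 := Complex.exp_ne_zero t
      have h5 : (p t).1 ^ M.a i ≠ 0 := by
        intro h
        rw [h, mul_zero, zero_mul] at h3
        exact h4 h3.symm
      have h6 : (p t).2 ^ M.b i ≠ 0 := by
        intro h
        rw [h, mul_zero] at h3
        exact h4 h3.symm
      have h7 : Complex.exp t / (p t).2 ^ M.b i = M.k i * (p t).1 ^ M.a i :=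
        (div_eq_iff h6).mpr h3.symm
      rw [div_pow, div_eq_one_iff_eq h5, mul_pow, hpw, Complex.exp_sub, h2, h7, mul_left_comm,
        ← mul_assoc, hμa, one_mul]
  refine ⟨μ, h, hμa, hh, ?_⟩
  have h6 : ∀ᶠ t in 𝓝 t₀, (p t).1 ≠ 0 := hQ1.continuousAt.eventually_ne hp1
  filter_upwards [hζ, hhe, h6] with t h1 h2 h3
  exact Prod.ext ((div_eq_one_iff_eq h3).mp h1) h2

theorem exists_dat (M : Model ι Y) {f : ℂ → Y} {t₀ : ℂ} (hf : M.Hol f (Complex.exp t₀)) (hc : M.Cov f (Complex.exp t₀)) :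
    ∃ i μ h, Dat M (fun t => f (Complex.exp t)) i μ h t₀ := by
  obtain ⟨i, p, hp, hok, hfp⟩ := hc
  obtain ⟨P, hPa, hP0, hPe⟩ := hf i p (cen_ball hp) hok hfp
  have hu : M.k i * p.1 ^ M.a i * p.2 ^ M.b i = Complex.exp t₀ := by
    have := hPe.self_of_nhds.2
    rw [hP0] at this
    exact this
  have ha := M.a_pos i
  have hE := Complex.exp_ne_zero t₀
  have hp1 : p.1 ≠ 0 := by
    intro h
    rw [h, zero_pow (by omega), mul_zero, zero_mul] at hu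
    exact hE hu.symm
  have hL : M.L i p ≠ 0 := by
    unfold Atl.L
    split_ifs with he
    · refine mul_ne_zero hp1 ?_
      by_cases hb : M.b i ≤ 0
      · exact hok he hb
      · intro h
        rw [h, zero_zpow _ (by omega), mul_zero] at hu
        exact hE hu.symm
    · rw [mul_one]
      exact hp1
  have hQ : AnalyticAt ℂ (fun t => P (Complex.exp t)) t₀ := hPa.fun_comp (Complex.differentiable_exp.analyticAt t₀)
  have hPt : ∀ᶠ t in 𝓝 t₀, f (Complex.exp t) = M.s i (P (Complex.exp t)) ∧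
      M.u i (P (Complex.exp t)) = Complex.exp t := (Complex.continuous_exp.tendsto t₀).eventually hPe
  obtain ⟨μ, h, hμ, hh, hX⟩ := exists_cell_of M (i := i) hQ (by rw [hP0]; exact hL) (hPt.mono fun t ht => ht.2)
  refine ⟨i, μ, h, hμ, hh, ?_, ?_⟩
  · rw [hX.self_of_nhds, hP0]
    exact hp
  · filter_upwards [hX, hPt] with t h1 h2
    rw [h1]
    exact h2.1

theorem dat_eventually (M : Model ι Y) {f : ℂ → Y} {i : ι} {μ t₀ : ℂ} {h : ℂ → ℂ} (hd : Dat M f i μ h t₀) :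
    ∀ᶠ t in 𝓝 t₀, Dat M f i μ h t := by
  obtain ⟨h1, h2, h3, h4⟩ := hd
  have hc : ContinuousAt (fun t => M.X i μ t (h t)) t₀ := by
    have h5 : ContinuousAt (fun t => (t, h t)) t₀ := continuousAt_id.prodMk h2.continuousAt
    exact ContinuousAt.comp (f := fun t => (t, h t)) (g := fun p : ℂ × ℂ => M.X i μ p.1 p.2)
      (X_an M i μ (t₀, h t₀)).continuousAt h5
  have h5 : ∀ᶠ t in 𝓝 t₀, Cen (M.X i μ t (h t)) := hc.eventually (cen_open.mem_nhds h3)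
  filter_upwards [h2.eventually_analyticAt, h5, eventually_eventually_nhds.mpr h4] with t e1 e2 e3
  exact ⟨h1, e1, e2, e3⟩

end Pool.Agent.EG.RL

end

section

/-!
# LU BaseDefs: the data with the whole boundary `D`; the part `P` with poles; the limit sections

`LBase`: like `LData`, but the form lives on `X \ D` and all the points of `D` have adapted coordinates (`u = c + s ^ i`, `D = {t = 0}`).  `exists_P`: `P` is the part of `D`
where the residue of the form is not `0`.  `EBase` is the compact case (`Λ` a lattice).  `LSec`: the entire sections of `X` which are limits, outside a closed discrete set, of sections of `X \ D` over larger and larger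
discs.
-/

set_option autoImplicit false

open Topology Filter Metric

namespace Pool.Agent.H18.LU

attribute [-instance] ProperSMul.toContinuousSMul

open Pool.Agent.H36.BP (EN fs wd IsGermChart)
open Pool.Agent.H14.PP (IsCone Chart Tan CurveAt)
open Pool.Agent.H62.EF (Lat MN pr TorusMap Sec Charts DU)
open Pool.Agent.H62.EL (Gd Ag BadSet IsNC TForm Per VanZero Thin)

variable {N : ℕ}

/-- the geometric data, all of `D` -/
structure LBase (X D : Set (EN N)) (Λ Γ : AddSubgroup ℂ) (u : EN N → ℂ) (B : Set ℂ) (δ : ℝ) : Prop extends LFib X D Λ Γ u B δ where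
  horB : ∀ b ∈ B, ∀ x ∈ D, u x - b ∈ Λ → ∃ i : ℕ, 1 ≤ i ∧ HorAt X Λ u D x b i
  nc : ∀ b ∈ B, ∀ x ∈ X, x ∉ D → u x - b ∈ Λ → IsNC X Λ u x b

/-- the geometric data in the compact case -/
structure EBase (X D : Set (EN N)) (Λ Γ : AddSubgroup ℂ) (u : EN N → ℂ) (B : Set ℂ) (δ : ℝ) : Prop where
  cone : IsCone X
  charts : Charts X
  tor : TorusMap X Λ u
  lat : Lat Λ
  latΓ : Lat Γ
  le : Γ ≤ Λ
  bad : BadSet B Λ δ
  zero : ∀ b ∈ B, 4 * δ ≤ ‖b‖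
  D_sub : D ⊆ X
  D_smul : ∀ x ∈ D, ∀ c : ℂ, c ≠ 0 → c • x ∈ D
  D_closed : ∀ x ∈ X, x ∉ D → ∀ᶠ y in 𝓝 x, y ∉ D
  hor : ∀ x ∈ D, (∀ b ∈ B, u x - b ∉ Λ) → HorAt X Λ u D x (u x) 1
  horB : ∀ b ∈ B, ∀ x ∈ D, u x - b ∈ Λ → ∃ i : ℕ, 1 ≤ i ∧ HorAt X Λ u D x b i
  nc : ∀ b ∈ B, ∀ x ∈ X, x ∉ D → u x - b ∈ Λ → IsNC X Λ u x b
  fib : ∀ F : ℂ → EN N, Differentiable ℂ F → (∀ z, F z ∈ X ∧ F z ∉ D) → (∀ z w, u (F z) - u (F w) ∈ Λ) →
    (∃ z w, ∀ c : ℂ, F z ≠ c • F w) → ∃ b ∈ B, u (F 0) - b ∈ Λ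

variable {X D : Set (EN N)} {Λ Γ : AddSubgroup ℂ} {u : EN N → ℂ} {B : Set ℂ} {δ : ℝ}

/-- The residue of the form along every entire section `F` in `D` is a bounded function: in coordinates `s`, `t` at `F z₀` with `D = {t = 0}`, `u = z₀ + s` the
coefficient of the form (for the lift `z₀ + s` of `u`) is `g / t`, and `‖g 0‖ ≤ C`. -/
def ResBd (α : TForm (X \ D) Λ u) : Prop :=
  ∀ F : ℂ → EN N, Differentiable ℂ F → (∀ z, F z ∈ D) → (∀ z, u (F z) - z ∈ Λ) → ∃ C : ℝ, ∀ (z₀ : ℂ) (σ : ℂ × ℂ → EN N) (τ : EN N → ℂ × ℂ),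
    IsGermChart X σ τ → σ 0 = F z₀ → (∀ᶠ p in 𝓝 (0 : ℂ × ℂ), σ p ∈ D ↔ p.2 = 0) → (∀ᶠ p in 𝓝 (0 : ℂ × ℂ), u (σ p) - (z₀ + p.1) ∈ Λ) →
    ∃ g : ℂ × ℂ → ℂ, AnalyticAt ℂ g 0 ∧ ‖g 0‖ ≤ C ∧ ∀ᶠ p in 𝓝 (0 : ℂ × ℂ), p.2 ≠ 0 →
      p.2 * α.toFun (z₀ + p.1) (σ p) (fderiv ℂ σ p (1, 0)) (fderiv ℂ σ p (0, 1)) = g p

/-- entire sections of `X` which are limits, outside a closed discrete set `Z`, of sections of `X \ D` over larger and larger discs -/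
def LSec (X D : Set (EN N)) (Λ : AddSubgroup ℂ) (u : EN N → ℂ) : Set (ℂ → MN N) :=
  {f | (∃ F ∈ Sec X Λ u, ∀ z, pr (F z) = f z) ∧ ∃ Z : Set ℂ, IsClosed Z ∧ (∀ z, ∀ᶠ w in 𝓝[≠] z, w ∉ Z) ∧
    ∀ R ε : ℝ, 0 < ε → ∀ K : Set ℂ, IsCompact K → (∀ z ∈ K, z ∉ Z) →
      ∃ G : ℂ → EN N, (∀ z ∈ closedBall (0 : ℂ) R, SecAt X D Λ u G z) ∧ ∀ z ∈ K, ‖z‖ ≤ R → dist (pr (G z)) (f z) < ε}

end Pool.Agent.H18.LU

end

section

/-!
# LU HoDef: charts near a bad fibre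

`HCh`, `HOk`: a chart in which `u = b + ρ x ^ a y ^ c`, `1 ≤ a`; `P` is `{y = 0}` if `hor = true` (then `c = 0`) and does not meet the chart otherwise.  `HFam`: a finite family of such charts near the fibre over `b`.
The special charts (`hor = true` or `1 ≤ c`) have centres which are far from the other charts.  `Hole`: the model in the sense of `EG/RL`.
-/

set_option autoImplicit false

open Topology Filter Metric

namespace Pool.Agent.H18.LU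

attribute [-instance] ProperSMul.toContinuousSMul

open Pool.Agent.H36.BP (EN fs wd IsGermChart)
open Pool.Agent.H14.PP (IsCone Chart Tan CurveAt)
open Pool.Agent.H62.EF (Lat MN pr TorusMap Sec Charts DU)
open Pool.Agent.H62.EL (Gd Ag BadSet IsNC TForm Mon mo)
open Pool.Agent.EG.RL (Model Atl Cen Bphi)

variable {N : ℕ} {X P : Set (EN N)} {Λ : AddSubgroup ℂ} {u : EN N → ℂ}

/-- a chart with constants -/
structure HCh (X : Set (EN N)) where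
  /-- the chart -/
  χ : Chart X
  /-- constant -/
  ρ : ℝ
  /-- exponent -/
  a : ℕ
  /-- exponent -/
  c : ℕ
  /-- `P` meets the chart -/
  hor : Bool

/-- the chart is special: a node of the fibre, or a point of `P` -/
def HCh.Sp (S : HCh X) : Prop := S.hor = true ∨ 1 ≤ S.c

/-- the chart is adapted to the fibre over `b` and to `P` -/
structure HOk (P : Set (EN N)) (Λ : AddSubgroup ℂ) (u : EN N → ℂ) (b : ℂ) (η : ℝ) (S : HCh X) : Prop where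
  mon : Mon Λ u S.χ b S.ρ S.a S.c
  a_pos : 1 ≤ S.a
  hor_c : S.hor = true → S.c = 0
  P_iff : ∀ p ∈ ball (0 : ℂ × ℂ) 2, S.χ.σ p ∈ P ↔ S.hor = true ∧ p.2 = 0
  small : ∀ p ∈ ball (0 : ℂ × ℂ) 2, ‖mo b S.ρ S.a S.c p - b‖ < η

/-- the form is bounded in the chart (up to the pole at `P`) -/
def HBd (α : TForm (X \ P) Λ u) (b : ℂ) (S : HCh X) : Prop :=
  ∃ C : ℝ, ∀ p ∈ ball (0 : ℂ × ℂ) 2, S.χ.σ p ∉ P → ‖(if S.hor = true then p.2 else 1) *
    α.toFun (mo b S.ρ S.a S.c p) (S.χ.σ p) (fderiv ℂ S.χ.σ p (1, 0)) (fderiv ℂ S.χ.σ p (0, 1))‖ ≤ C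

/-- the small central part of the bidisc -/
def CenS (p : ℂ × ℂ) : Prop := ‖p.1‖ < 3 / 8 ∧ ‖p.2‖ < 7 / 8

/-- a family of charts near the fibre over `b` -/
structure HFam (P : Set (EN N)) (Λ : AddSubgroup ℂ) (u : EN N → ℂ) (b : ℂ) (η : ℝ) (κ : Type) (c : κ → HCh X) : Prop where
  ok : ∀ k, HOk P Λ u b η (c k)
  inj : ∀ l ∈ Λ, ‖l‖ < 2 * η → l = 0
  sep : ∀ i j, i ≠ j → (c i).Sp → ∀ p : ℂ × ℂ, ‖p.1‖ ≤ 1 / 2 → ‖p.2‖ ≤ 1 / 2 → (c i).χ.σ p ∉ (c j).χ.U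
  cov : ∃ s : ℝ, 0 < s ∧ ∀ z ∈ ball b s, ∀ x ∈ X, u x - z ∈ Λ → ∃ k, x ∈ (c k).χ.U ∧
    (CenS ((c k).χ.q x) ∨ 1 ≤ (c k).c ∧ CenS ((c k).χ.q x).swap)

/-- the chart with the coordinates exchanged -/
noncomputable def swp (χ : Chart X) : Chart X where
  σ := fun p => χ.σ p.swap
  U := χ.U
  q := fun x => (χ.q x).swap
  isOpen_U := χ.isOpen_U
  smul_U := χ.smul_U
  σ_an := fun p hp => by
    have h1 : p.swap ∈ ball (0 : ℂ × ℂ) 2 := by
      rw [mem_ball_zero_iff, Prod.norm_def] at hp ⊢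
      rw [max_comm]
      exact hp
    have h2 : AnalyticAt ℂ (fun p : ℂ × ℂ => p.swap) p := analyticAt_snd.prod analyticAt_fst
    exact AnalyticAt.comp' (χ.σ_an _ h1) h2
  q_an := fun x hx => by
    have h1 := χ.q_an x hx
    have h2 : AnalyticAt ℂ (fun p : ℂ × ℂ => p.swap) (χ.q x) := analyticAt_snd.prod analyticAt_fst
    exact AnalyticAt.comp' h2 h1
  q_smul := fun x hx c hc => by rw [χ.q_smul x hx c hc]
  σ_mem := fun p hp => by
    have h1 : p.swap ∈ ball (0 : ℂ × ℂ) 2 := by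
      rw [mem_ball_zero_iff, Prod.norm_def] at hp ⊢
      rw [max_comm]
      exact hp
    obtain ⟨h2, h3, h4⟩ := χ.σ_mem _ h1
    exact ⟨h2, h3, by rw [h4, Prod.swap_swap]⟩
  surj := fun x hx hU => by
    obtain ⟨h1, c, hc, h2⟩ := χ.surj x hx hU
    refine ⟨?_, c, hc, ?_⟩
    · rw [mem_ball_zero_iff, Prod.norm_def] at h1 ⊢
      rw [max_comm]
      exact h1
    · rw [Prod.swap_swap]
      exact h2

/-- the model of the surface near the fibre over `b`, and the form -/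
structure Hole (X P : Set (EN N)) (Λ : AddSubgroup ℂ) (u : EN N → ℂ) (b : ℂ) (α : TForm (X \ P) Λ u) where
  /-- the index set -/
  ι : Type
  fin : Finite ι
  /-- the model -/
  M : Model ι (MN N)
  /-- the charts -/
  χ : ι → Chart X
  /-- constant -/
  C₀ : ℝ
  /-- exponent -/
  κ : ℝ
  /-- radius of injectivity -/
  η : ℝ
  C₀_nonneg : 0 ≤ C₀
  κ_pos : 0 < κ
  s_eq : ∀ i p, M.s i p = pr ((χ i).σ p)
  b_nonneg : ∀ i, 0 ≤ M.b i
  u_eq : ∀ i, ∀ p ∈ ball (0 : ℂ × ℂ) 2, u ((χ i).σ p) - (b + M.u i p) ∈ Λ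
  inj : ∀ l ∈ Λ, ‖l‖ < 2 * η → l = 0
  small : ∀ i, ∀ p ∈ ball (0 : ℂ × ℂ) 2, ‖M.u i p‖ < η
  ρ_le : M.ρ ≤ η
  P_iff : ∀ i, ∀ p ∈ ball (0 : ℂ × ℂ) 2, (χ i).σ p ∈ P ↔ M.ex i = true ∧ M.b i = 0 ∧ p.2 = 0
  g_eq : ∀ i (t : ℂ), ∀ p ∈ ball (0 : ℂ × ℂ) 2, M.L i p ≠ 0 → Complex.exp t = M.u i p →
    M.g i t p = M.L i p * α.toFun (b + Complex.exp t) ((χ i).σ p) (fderiv ℂ (χ i).σ p (1, 0)) (fderiv ℂ (χ i).σ p (0, 1))
  cov : ∀ z ∈ ball b M.ρ, ∀ x ∈ X, u x - z ∈ Λ → ∃ i, x ∈ (χ i).U ∧ CenS ((χ i).q x)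
  bphi : Bphi M C₀ κ

end Pool.Agent.H18.LU

end

section

/-!
# (Copy for open cones and discrete groups, see `Oc`.) EL ChN: small charts

`exists_small_chart`: the proof of `Pool.Agent.H62.EF.exists_chart_of_germ` (`H62/EF/ChEx.lean`; copy it): there `χ.σ p` is a multiple of
`σ (r • p)` for `‖p‖ < 2`, where `r = R / 2` and `R` is any small radius: take `R < η`.

`exists_small_chart'`: moreover all points of the chart are near `σ 0` in the projective space: `p ↦ pr (σ p)` is continuous at `0`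
(`continuousAt_pr`, `σ 0 ≠ 0`), `pr (a • σ (r • p)) = pr (σ (r • p))` (`pr_smul`).

`exists_nc_chart`: `σ, τ, i, j` from `IsNC`; `u (χ.σ p) = u (a • σ (r p))`, which is `u (σ (r p))` modulo `Λ` (`TorusMap.smul`), which is
`b + (r s)^i (r t)^j = b + r^(i+j) s^i t^j`: `ρ = r^(i+j)`; `‖ρ s^i t^j‖ = ‖(r s)^i (r t)^j‖ < η` for `r` small (continuity at `0`, `i + j > 0`).
-/

set_option autoImplicit false

open Topology Filter Metric

namespace Pool.Agent.H18.LU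

attribute [-instance] ProperSMul.toContinuousSMul

open Pool.Agent.H62.EL

open Pool.Agent.H36.BP (EN fs wd IsGermChart)
open Pool.Agent.H14.PP (Chart Tan CurveAt)
open Pool.Agent.H62.EF (MN pr TorusMap Sec Charts DU)

variable {N : ℕ} {X : Set (EN N)} {Λ : AddSubgroup ℂ} {u : EN N → ℂ}

theorem exists_small_chartO (hX : OCone X) {σ : ℂ × ℂ → EN N} {τ : EN N → ℂ × ℂ} (h : IsGermChart X σ τ) {η : ℝ} (hη : 0 < η) :
    ∃ (χ : Chart X) (r : ℝ), 0 < r ∧ σ 0 ∈ χ.U ∧ χ.q (σ 0) = 0 ∧ ∀ p ∈ ball (0 : ℂ × ℂ) 2, ‖(r : ℂ) • p‖ < η ∧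
      dist (pr (χ.σ p)) (pr (σ 0)) < η ∧ ∃ a : ℂ, a ≠ 0 ∧ χ.σ p = a • σ ((r : ℂ) • p) := by
  have hσ0 : σ 0 ≠ 0 := by
    intro h0
    have h1 := h.σ_mem.self_of_nhds
    rw [h0] at h1
    exact hX.zero_notMem h1
  -- the linear form
  obtain ⟨ℓ, hℓ⟩ : ∃ ℓ : EN N →L[ℂ] ℂ, ℓ (σ 0) = 1 := by
    have hne : inner ℂ (σ 0) (σ 0) ≠ (0 : ℂ) := inner_self_ne_zero.mpr hσ0
    refine ⟨(inner ℂ (σ 0) (σ 0) : ℂ)⁻¹ • innerSL ℂ (σ 0), ?_⟩
    simp only [_root_.smul_apply, innerSL_apply_apply, smul_eq_mul]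
    exact inv_mul_cancel₀ hne
  -- the normalised parametrisation
  have hℓσ : ContinuousAt (fun p => ℓ (σ p)) 0 := ℓ.continuous.continuousAt.comp h.σ_an.continuousAt
  have hℓne : ∀ᶠ p in 𝓝 (0 : ℂ × ℂ), ℓ (σ p) ≠ 0 := hℓσ.eventually_ne (by rw [hℓ]; exact one_ne_zero)
  have hinvσ : ∀ᶠ p in 𝓝 (0 : ℂ × ℂ), τ ((ℓ (σ p))⁻¹ • σ p) = τ (σ p) := by
    have hc : Tendsto (fun p => (σ p, (ℓ (σ p))⁻¹)) (𝓝 (0 : ℂ × ℂ)) (𝓝 (σ 0, (1 : ℂ))) := by
      have h1 : Tendsto (fun p => (ℓ (σ p))⁻¹) (𝓝 (0 : ℂ × ℂ)) (𝓝 (ℓ (σ 0))⁻¹) := hℓσ.inv₀ (by rw [hℓ]; exact one_ne_zero)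
      rw [hℓ, inv_one] at h1
      exact h.σ_an.continuousAt.prodMk_nhds h1
    exact hc.eventually h.inv
  -- the neighbourhood W₀
  have hW : ∀ᶠ y in 𝓝 (σ 0), AnalyticAt ℂ τ y ∧ (y ∈ X → ∃ c : ℂ, c ≠ 0 ∧ y = c • σ (τ y)) := h.τ_an.eventually_analyticAt.and h.right
  obtain ⟨W₀, hW₀s, hW₀o, hW₀m⟩ := _root_.eventually_nhds_iff.mp hW
  have hσ₁ : Tendsto (fun p => (ℓ (σ p))⁻¹ • σ p) (𝓝 (0 : ℂ × ℂ)) (𝓝 (σ 0)) := by
    have h1 : Tendsto (fun p => (ℓ (σ p))⁻¹) (𝓝 (0 : ℂ × ℂ)) (𝓝 (ℓ (σ 0))⁻¹) := hℓσ.inv₀ (by rw [hℓ]; exact one_ne_zero)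
    have h2 := h1.smul h.σ_an.continuousAt
    rwa [hℓ, inv_one, one_smul] at h2
  have hσ₁W : ∀ᶠ p in 𝓝 (0 : ℂ × ℂ), (ℓ (σ p))⁻¹ • σ p ∈ W₀ := hσ₁.eventually (hW₀o.mem_nhds hW₀m)
  have hprσ : ∀ᶠ p in 𝓝 (0 : ℂ × ℂ), dist (pr (σ p)) (pr (σ 0)) < η := by
    have h1 : ContinuousAt (fun p => pr (σ p)) 0 :=
      ContinuousAt.comp (f := σ) (Pool.Agent.H62.EF.continuousAt_pr hσ0) h.σ_an.continuousAt
    exact h1.eventually (Metric.ball_mem_nhds _ hη)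
  obtain ⟨R₀, hR₀, hall₀⟩ := Metric.eventually_nhds_iff_ball.mp
    ((((((h.σ_an.eventually_analyticAt.and h.σ_mem).and h.left).and hℓne).and hinvσ).and hσ₁W).and hprσ)
  obtain ⟨R, hR, hRη, hall, hprb⟩ : ∃ R : ℝ, 0 < R ∧ R ≤ η ∧ (∀ p ∈ ball (0 : ℂ × ℂ) R,
      (((((AnalyticAt ℂ σ p ∧ σ p ∈ X) ∧ τ (σ p) = p) ∧ ℓ (σ p) ≠ 0) ∧ τ ((ℓ (σ p))⁻¹ • σ p) = τ (σ p)) ∧
        (ℓ (σ p))⁻¹ • σ p ∈ W₀)) ∧ ∀ p ∈ ball (0 : ℂ × ℂ) R, dist (pr (σ p)) (pr (σ 0)) < η :=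
    ⟨min R₀ η, lt_min hR₀ hη, min_le_right _ _, fun p hp => (hall₀ p (ball_subset_ball (min_le_left _ _) hp)).1,
      fun p hp => (hall₀ p (ball_subset_ball (min_le_left _ _) hp)).2⟩
  set r : ℝ := R / 2 with hr
  have hr0 : 0 < r := by rw [hr]; positivity
  have hrC : (r : ℂ) ≠ 0 := by exact_mod_cast hr0.ne'
  have hball : ∀ p ∈ ball (0 : ℂ × ℂ) 2, (r : ℂ) • p ∈ ball (0 : ℂ × ℂ) R := by
    intro p hp
    rw [mem_ball_zero_iff] at hp ⊢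
    rw [norm_smul, Complex.norm_real, Real.norm_of_nonneg hr0.le, hr]
    nlinarith
  have hτσ : ∀ p ∈ ball (0 : ℂ × ℂ) R, τ ((ℓ (σ p))⁻¹ • σ p) = p := by
    intro p hp
    rw [(hall p hp).1.2, (hall p hp).1.1.1.2]
  set U : Set (EN N) := {x | ℓ x ≠ 0 ∧ (ℓ x)⁻¹ • x ∈ W₀ ∧ ‖τ ((ℓ x)⁻¹ • x)‖ < R} with hU
  have hmaps : ∀ x : EN N, ℓ x ≠ 0 → ∀ c : ℂ, c ≠ 0 → (ℓ (c • x))⁻¹ • (c • x) = (ℓ x)⁻¹ • x := by
    intro x hx c hc
    rw [map_smul, smul_eq_mul, smul_smul, mul_inv, mul_comm c⁻¹, mul_assoc, inv_mul_cancel₀ hc, mul_one]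
  have han1 : ∀ x : EN N, ℓ x ≠ 0 → AnalyticAt ℂ (fun y : EN N => (ℓ y)⁻¹ • y) x := by
    intro x hx
    exact ((ℓ.analyticAt x).inv hx).smul analyticAt_id
  have hanq : ∀ x ∈ U, AnalyticAt ℂ (fun y : EN N => τ ((ℓ y)⁻¹ • y)) x := by
    intro x hx
    exact AnalyticAt.fun_comp (hW₀s _ hx.2.1).1 (han1 x hx.1)
  have hUopen : IsOpen U := by
    rw [isOpen_iff_mem_nhds]
    intro x hx
    have h1 : ∀ᶠ y in 𝓝 x, ℓ y ≠ 0 := ℓ.continuous.continuousAt.eventually_ne hx.1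
    have h2 : ∀ᶠ y in 𝓝 x, (ℓ y)⁻¹ • y ∈ W₀ := (han1 x hx.1).continuousAt.eventually (hW₀o.mem_nhds hx.2.1)
    have h3 : ∀ᶠ y in 𝓝 x, ‖τ ((ℓ y)⁻¹ • y)‖ < R := (hanq x hx).continuousAt.norm.eventually_lt_const hx.2.2
    filter_upwards [h1, h2, h3] with y h4 h5 h6
    exact ⟨h4, h5, h6⟩
  let χ : Chart X :=
    { σ := fun p => (ℓ (σ ((r : ℂ) • p)))⁻¹ • σ ((r : ℂ) • p)
      U := U
      q := fun x => (r : ℂ)⁻¹ • τ ((ℓ x)⁻¹ • x)
      isOpen_U := hUopen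
      smul_U := by
        rintro x ⟨h1, h2, h3⟩ c hc
        refine ⟨?_, ?_, ?_⟩
        · rw [map_smul, smul_eq_mul]
          exact mul_ne_zero hc h1
        · rw [hmaps x h1 c hc]; exact h2
        · rw [hmaps x h1 c hc]; exact h3
      σ_an := by
        intro p hp
        have h1 := (hall _ (hball p hp)).1.1.1.1.1
        have h2 : AnalyticAt ℂ (fun p : ℂ × ℂ => σ ((r : ℂ) • p)) p :=
          AnalyticAt.fun_comp h1 (analyticAt_const.fun_smul analyticAt_id)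
        have h3 : AnalyticAt ℂ (fun p : ℂ × ℂ => ℓ (σ ((r : ℂ) • p))) p := (ℓ.analyticAt _).fun_comp h2
        exact (h3.inv (hall _ (hball p hp)).1.1.2).smul h2
      q_an := by
        intro x hx
        exact analyticAt_const.fun_smul (hanq x hx)
      q_smul := by
        rintro x ⟨h1, h2, h3⟩ c hc
        show (r : ℂ)⁻¹ • τ ((ℓ (c • x))⁻¹ • (c • x)) = _
        rw [hmaps x h1 c hc]
      σ_mem := by
        intro p hp
        have hb := hball p hp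
        have hh := hall _ hb
        have hne := hh.1.1.2
        have h1 : ℓ ((ℓ (σ ((r : ℂ) • p)))⁻¹ • σ ((r : ℂ) • p)) = 1 := by
          rw [map_smul, smul_eq_mul, inv_mul_cancel₀ hne]
        have h2 : τ ((ℓ (σ ((r : ℂ) • p)))⁻¹ • σ ((r : ℂ) • p)) = (r : ℂ) • p := hτσ _ hb
        refine ⟨hX.smul_mem _ hh.1.1.1.1.2 _ (inv_ne_zero hne), ⟨?_, ?_, ?_⟩, ?_⟩
        · rw [h1]; exact one_ne_zero
        · rw [h1, inv_one, one_smul]; exact hh.2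
        · rw [h1, inv_one, one_smul, h2]
          exact mem_ball_zero_iff.mp hb
        · show (r : ℂ)⁻¹ • τ ((ℓ ((ℓ (σ ((r : ℂ) • p)))⁻¹ • σ ((r : ℂ) • p)))⁻¹ • ((ℓ (σ ((r : ℂ) • p)))⁻¹ • σ ((r : ℂ) • p))) = p
          rw [h1, inv_one, one_smul, h2, smul_smul, inv_mul_cancel₀ hrC, one_smul]
      surj := by
        rintro x hxX ⟨h1, h2, h3⟩
        have hyX : (ℓ x)⁻¹ • x ∈ X := hX.smul_mem _ hxX _ (inv_ne_zero h1)
        obtain ⟨c, hc0, hc⟩ := (hW₀s _ h2).2 hyX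
        have hτb : τ ((ℓ x)⁻¹ • x) ∈ ball (0 : ℂ × ℂ) R := mem_ball_zero_iff.mpr h3
        have hrq : (r : ℂ) • ((r : ℂ)⁻¹ • τ ((ℓ x)⁻¹ • x)) = τ ((ℓ x)⁻¹ • x) := by
          rw [smul_smul, mul_inv_cancel₀ hrC, one_smul]
        refine ⟨?_, ?_⟩
        · show (r : ℂ)⁻¹ • τ ((ℓ x)⁻¹ • x) ∈ ball (0 : ℂ × ℂ) 2
          rw [mem_ball_zero_iff, norm_smul, norm_inv, Complex.norm_real, Real.norm_of_nonneg hr0.le, inv_mul_lt_iff₀ hr0, hr]
          linarith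
        · refine ⟨ℓ x * c * ℓ (σ (τ ((ℓ x)⁻¹ • x))), ?_, ?_⟩
          · exact mul_ne_zero (mul_ne_zero h1 hc0) (hall _ hτb).1.1.2
          · show x = (ℓ x * c * ℓ (σ (τ ((ℓ x)⁻¹ • x)))) •
              ((ℓ (σ ((r : ℂ) • ((r : ℂ)⁻¹ • τ ((ℓ x)⁻¹ • x)))))⁻¹ • σ ((r : ℂ) • ((r : ℂ)⁻¹ • τ ((ℓ x)⁻¹ • x))))
            rw [hrq, smul_smul, mul_assoc, mul_inv_cancel₀ (hall _ hτb).1.1.2, mul_one, mul_smul, ← hc, smul_smul, mul_inv_cancel₀ h1, one_smul] }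
  have h0b : (0 : ℂ × ℂ) ∈ ball (0 : ℂ × ℂ) R := mem_ball_self hR
  have hτ0 : τ (σ 0) = 0 := (hall 0 h0b).1.1.1.2
  refine ⟨χ, r, hr0, ⟨?_, ?_, ?_⟩, ?_, ?_⟩
  · rw [hℓ]; exact one_ne_zero
  · rw [hℓ, inv_one, one_smul]; exact hW₀m
  · rw [hℓ, inv_one, one_smul, hτ0, norm_zero]; exact hR
  · show (r : ℂ)⁻¹ • τ ((ℓ (σ 0))⁻¹ • σ 0) = 0
    rw [hℓ, inv_one, one_smul, hτ0, smul_zero]
  · intro p hp
    have hb := hball p hp
    have hne := (hall _ hb).1.1.2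
    refine ⟨(mem_ball_zero_iff.mp hb).trans_le hRη, ?_, (ℓ (σ ((r : ℂ) • p)))⁻¹, inv_ne_zero hne, rfl⟩
    show dist (pr ((ℓ (σ ((r : ℂ) • p)))⁻¹ • σ ((r : ℂ) • p))) (pr (σ 0)) < η
    rw [Pool.Agent.H62.EF.pr_smul _ (inv_ne_zero hne)]
    exact hprb _ hb

theorem exists_nc_chartO (hX : OCone X) (hu : TorusMap X Λ u) {x : EN N} {b : ℂ} (h : IsNC X Λ u x b) {η : ℝ} (hη : 0 < η) :
    ∃ (χ : Chart X) (ρ : ℝ) (i j : ℕ), x ∈ χ.U ∧ χ.q x = 0 ∧ Mon Λ u χ b ρ i j ∧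
      ∀ p ∈ ball (0 : ℂ × ℂ) 2, dist (pr (χ.σ p)) (pr x) < η ∧ ‖mo b ρ i j p - b‖ < η := by
  obtain ⟨σ, τ, i, j, hg, hσ0, hij, hev⟩ := h
  have hmono : ∀ᶠ p in 𝓝 (0 : ℂ × ℂ), ‖p.1 ^ i * p.2 ^ j‖ < η := by
    have hc : Continuous fun p : ℂ × ℂ => p.1 ^ i * p.2 ^ j := (continuous_fst.pow i).mul (continuous_snd.pow j)
    have h1 : Tendsto (fun p : ℂ × ℂ => ‖p.1 ^ i * p.2 ^ j‖) (𝓝 0) (𝓝 ‖(0 : ℂ × ℂ).1 ^ i * (0 : ℂ × ℂ).2 ^ j‖) :=
      hc.norm.continuousAt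
    have h0 : ‖(0 : ℂ × ℂ).1 ^ i * (0 : ℂ × ℂ).2 ^ j‖ = 0 := by
      rw [norm_eq_zero]
      show (0 : ℂ) ^ i * (0 : ℂ) ^ j = 0
      rw [← pow_add, zero_pow (by omega)]
    rw [h0] at h1
    exact h1.eventually_lt_const hη
  obtain ⟨η', hη', hall⟩ := Metric.eventually_nhds_iff_ball.mp ((hev.and hmono).and hg.σ_mem)
  obtain ⟨χ, r, hr, hU, hq, hch⟩ := exists_small_chartO hX hg (lt_min hη' hη)
  have hrij : (0 : ℝ) < r ^ (i + j) := pow_pos hr _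
  have hkey : ∀ p : ℂ × ℂ, ((r ^ (i + j) : ℝ) : ℂ) * (p.1 ^ i * p.2 ^ j) = ((r : ℂ) • p).1 ^ i * ((r : ℂ) • p).2 ^ j := by
    intro p
    have h1 : ((r : ℂ) • p).1 = (r : ℂ) * p.1 := rfl
    have h2 : ((r : ℂ) • p).2 = (r : ℂ) * p.2 := rfl
    rw [h1, h2]
    push_cast
    ring
  have hb : ∀ p ∈ ball (0 : ℂ × ℂ) 2, (r : ℂ) • p ∈ ball (0 : ℂ × ℂ) η' := fun p hp =>
    mem_ball_zero_iff.mpr ((hch p hp).1.trans_le (min_le_left _ _))
  refine ⟨χ, r ^ (i + j), i, j, hσ0 ▸ hU, hσ0 ▸ hq, ⟨hrij, hij, ?_⟩, ?_⟩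
  · intro p hp
    obtain ⟨-, -, a, ha, hap⟩ := hch p hp
    have h1 := hall _ (hb p hp)
    have h2 := hu.smul _ h1.2 a ha
    rw [hap]
    unfold mo
    rw [hkey p]
    have h3 := Λ.add_mem h2 h1.1.1
    convert h3 using 1
    ring
  · intro p hp
    obtain ⟨-, h1, -⟩ := hch p hp
    refine ⟨?_, ?_⟩
    · rw [← hσ0]
      exact h1.trans_le (min_le_right _ _)
    · unfold mo
      rw [hkey p, add_sub_cancel_left]
      exact (hall _ (hb p hp)).1.2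

end Pool.Agent.H18.LU

end
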