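import Pool.Agent.H94.CB.H18.LU.Oc
import Pool.Agent.H94.CB.M17
import Pool.Agent.H94.CB.M193

/-! The parts of this file: EG.RL.LeftA, EG.RL.Glue, EG.RL.Main, H18.LU.ODul. -/

section

/-!
# EG RL LeftA: functions which extend to the left

Proof (helper41):
add/neg/sub: smaller of the two eps (Strip is monotone), R := min, delta/2.  left_glue: eps' small with [t1, t2] +- eps' (rectangle) in ball c delta and eps' <= eps;
L' t := if t.re < t1.re then L t else F t.  On {Re t < t1.re + eps', |Im t - y| < eps'} L' = L (identity theorem on the convex rectangle |Re t - t1.re| < eps', |Im t - y| < eps':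
L = F there, AnalyticOnNhd.eqOn_of_preconnected_of_eventuallyEq); on {Re t > t1.re - eps', ..., Re t < t2.re + eps'} L' = F; both are open and cover Strip t2 eps'.
-/

set_option autoImplicit false

open Topology Filter Metric Set

namespace Pool.Agent.EG.RL

attribute [-instance] ProperSMul.toContinuousSMul

/-- `M` is holomorphic on a strip to the left of `t₀`, and `M t * exp t → 0` -/
def Left (M : ℂ → ℂ) (t₀ : ℂ) : Prop :=
  ∃ ε : ℝ, 0 < ε ∧ DifferentiableOn ℂ M (Strip t₀ ε) ∧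
    ∀ δ : ℝ, 0 < δ → ∃ R : ℝ, ∀ t ∈ Strip t₀ ε, t.re < R → ‖M t * Complex.exp t‖ < δ

private theorem leftA_mono {t₀ : ℂ} {ε ε' : ℝ} (h : ε' ≤ ε) : Strip t₀ ε' ⊆ Strip t₀ ε :=
  fun _ ht => ⟨ht.1.trans_le (by linarith), ht.2.trans_le h⟩

private theorem leftA_open (t₀ : ℂ) (ε : ℝ) : IsOpen (Strip t₀ ε) := by
  have h1 : IsOpen {t : ℂ | t.re < t₀.re + ε} := isOpen_lt Complex.continuous_re continuous_const
  have h2 : IsOpen {t : ℂ | |t.im - t₀.im| < ε} :=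
    isOpen_lt (Complex.continuous_im.sub continuous_const).abs continuous_const
  exact h1.inter h2

theorem Left.add {L₁ L₂ : ℂ → ℂ} {t₀ : ℂ} (h₁ : Left L₁ t₀) (h₂ : Left L₂ t₀) : Left (fun t => L₁ t + L₂ t) t₀ := by
  obtain ⟨ε₁, hε₁, hd₁, hb₁⟩ := h₁
  obtain ⟨ε₂, hε₂, hd₂, hb₂⟩ := h₂
  refine ⟨min ε₁ ε₂, lt_min hε₁ hε₂, (hd₁.mono (leftA_mono (min_le_left _ _))).add
    (hd₂.mono (leftA_mono (min_le_right _ _))), fun δ hδ => ?_⟩
  obtain ⟨R₁, hR₁⟩ := hb₁ (δ / 2) (by linarith)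
  obtain ⟨R₂, hR₂⟩ := hb₂ (δ / 2) (by linarith)
  refine ⟨min R₁ R₂, fun t ht htR => ?_⟩
  have h1 := hR₁ t (leftA_mono (min_le_left _ _) ht) (htR.trans_le (min_le_left _ _))
  have h2 := hR₂ t (leftA_mono (min_le_right _ _) ht) (htR.trans_le (min_le_right _ _))
  rw [add_mul]
  calc ‖L₁ t * Complex.exp t + L₂ t * Complex.exp t‖ ≤ ‖L₁ t * Complex.exp t‖ + ‖L₂ t * Complex.exp t‖ := norm_add_le _ _
    _ < δ := by linarith

theorem Left.neg {L₁ : ℂ → ℂ} {t₀ : ℂ} (h₁ : Left L₁ t₀) : Left (fun t => -L₁ t) t₀ := by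
  obtain ⟨ε₁, hε₁, hd₁, hb₁⟩ := h₁
  refine ⟨ε₁, hε₁, hd₁.neg, fun δ hδ => ?_⟩
  obtain ⟨R₁, hR₁⟩ := hb₁ δ hδ
  refine ⟨R₁, fun t ht htR => ?_⟩
  rw [neg_mul, norm_neg]
  exact hR₁ t ht htR

theorem Left.sub {L₁ L₂ : ℂ → ℂ} {t₀ : ℂ} (h₁ : Left L₁ t₀) (h₂ : Left L₂ t₀) : Left (fun t => L₁ t - L₂ t) t₀ := by
  simpa only [sub_eq_add_neg] using h₁.add h₂.neg

private theorem leftA_rect {t₁ t₂ c t : ℂ} {δ ε : ℝ} (him : t₂.im = t₁.im) (h₁ : ‖t₁ - c‖ + 2 * ε ≤ δ)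
    (h₂ : ‖t₂ - c‖ + 2 * ε ≤ δ) (ht1 : t₁.re - ε < t.re) (ht2 : t.re < t₂.re + ε)
    (ht3 : |t.im - t₁.im| < ε) (hre : t₁.re ≤ t₂.re) : t ∈ ball c δ := by
  rw [mem_ball, dist_eq_norm]
  have hε : 0 < ε := (abs_nonneg _).trans_lt ht3
  set x : ℝ := max t₁.re (min t₂.re t.re) with hx
  have hx1 : t₁.re ≤ x := le_max_left _ _
  have hx2 : x ≤ t₂.re := max_le hre (min_le_left _ _)
  have hxt : |t.re - x| ≤ ε := by
    rw [abs_le]
    constructor
    · have : x ≤ max t₁.re t.re := max_le_max le_rfl (min_le_right _ _)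
      have h5 : max t₁.re t.re ≤ t.re + ε := max_le (by linarith) (by linarith)
      linarith
    · have : min t₂.re t.re ≤ x := le_max_right _ _
      have h5 : t.re - ε ≤ min t₂.re t.re := le_min (by linarith) (by linarith)
      linarith
  set s : ℂ := ⟨x, t₁.im⟩ with hs
  have hst : ‖t - s‖ < 2 * ε := by
    have h5 := Complex.norm_le_abs_re_add_abs_im (t - s)
    have h6 : |(t - s).re| ≤ ε := by simpa [hs] using hxt
    have h7 : |(t - s).im| < ε := by simpa [hs] using ht3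
    linarith
  have hsc : ‖s - c‖ ≤ max ‖t₁ - c‖ ‖t₂ - c‖ := by
    have hsq : ∀ w : ℂ, ‖w - c‖ ^ 2 = (w.re - c.re) ^ 2 + (w.im - c.im) ^ 2 := by
      intro w
      rw [← Complex.normSq_eq_norm_sq, Complex.normSq_apply]
      simp only [Complex.sub_re, Complex.sub_im]
      ring
    rcases le_total c.re x with h5 | h5
    · refine le_max_of_le_right ?_
      refine (sq_le_sq₀ (norm_nonneg _) (norm_nonneg _)).1 ?_
      rw [hsq, hsq, him]
      simp only [hs]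
      nlinarith
    · refine le_max_of_le_left ?_
      refine (sq_le_sq₀ (norm_nonneg _) (norm_nonneg _)).1 ?_
      rw [hsq, hsq]
      simp only [hs]
      nlinarith
  have h5 : ‖t - c‖ ≤ ‖t - s‖ + ‖s - c‖ := by
    have := norm_add_le (t - s) (s - c)
    rwa [sub_add_sub_cancel] at this
  have h6 : max ‖t₁ - c‖ ‖t₂ - c‖ ≤ δ - 2 * ε := max_le (by linarith) (by linarith)
  linarith

/-- `L` extends to the left of `t₁`, `F` is holomorphic on a disc which contains `t₁` and `t₂`, and `L = F` near `t₁` -/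
theorem left_glue {L F : ℂ → ℂ} {t₁ t₂ c : ℂ} {δ : ℝ} (hL : Left L t₁) (him : t₂.im = t₁.im) (hre : t₁.re ≤ t₂.re)
    (hF : DifferentiableOn ℂ F (ball c δ)) (h₁ : t₁ ∈ ball c δ) (h₂ : t₂ ∈ ball c δ) (heq : ∀ᶠ t in 𝓝 t₁, L t = F t) :
    ∃ L' : ℂ → ℂ, Left L' t₂ ∧ ∀ᶠ t in 𝓝 t₂, L' t = F t := by
  classical
  obtain ⟨ε, hε, hLd, hLb⟩ := hL
  rw [mem_ball, dist_eq_norm] at h₁ h₂
  obtain ⟨ε', hε', hεε, hε1, hε2⟩ : ∃ ε' : ℝ, 0 < ε' ∧ ε' ≤ ε ∧ ‖t₁ - c‖ + 2 * ε' ≤ δ ∧ ‖t₂ - c‖ + 2 * ε' ≤ δ := by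
    refine ⟨min ε (min ((δ - ‖t₁ - c‖) / 2) ((δ - ‖t₂ - c‖) / 2)), lt_min hε (lt_min (by linarith) (by linarith)),
      min_le_left _ _, ?_, ?_⟩
    · have : min ε (min ((δ - ‖t₁ - c‖) / 2) ((δ - ‖t₂ - c‖) / 2)) ≤ (δ - ‖t₁ - c‖) / 2 :=
        (min_le_right _ _).trans (min_le_left _ _)
      linarith
    · have : min ε (min ((δ - ‖t₁ - c‖) / 2) ((δ - ‖t₂ - c‖) / 2)) ≤ (δ - ‖t₂ - c‖) / 2 :=
        (min_le_right _ _).trans (min_le_right _ _)
      linarith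
  -- the identity theorem near `t₁`
  have hLF : ∀ t : ℂ, t₁.re - ε' < t.re → t.re < t₁.re + ε' → |t.im - t₁.im| < ε' → L t = F t := by
    set U : Set ℂ := Complex.re ⁻¹' Ioo (t₁.re - ε') (t₁.re + ε') ∩ Complex.im ⁻¹' Ioo (t₁.im - ε') (t₁.im + ε') with hU
    have hUo : IsOpen U := (isOpen_Ioo.preimage Complex.continuous_re).inter (isOpen_Ioo.preimage Complex.continuous_im)
    have hUc : Convex ℝ U :=
      ((convex_Ioo _ _).linear_preimage Complex.reLm).inter ((convex_Ioo _ _).linear_preimage Complex.imLm)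
    have h1 : DifferentiableOn ℂ L U := by
      refine hLd.mono fun t ht => ⟨?_, ?_⟩
      · have := ht.1.2
        linarith
      · have h2 := ht.2.1
        have h3 := ht.2.2
        rw [abs_lt]
        constructor <;> linarith
    have h2 : DifferentiableOn ℂ F U := by
      refine hF.mono fun t ht => leftA_rect him hε1 hε2 ht.1.1 (ht.1.2.trans_le (by linarith)) ?_ hre
      have h2 := ht.2.1
      have h3 := ht.2.2
      rw [abs_lt]
      constructor <;> linarith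
    have h3 : EqOn L F U := (h1.analyticOnNhd hUo).eqOn_of_preconnected_of_eventuallyEq (h2.analyticOnNhd hUo)
      hUc.isPreconnected ⟨⟨by linarith, by linarith⟩, ⟨by linarith, by linarith⟩⟩ heq
    intro t h4 h5 h6
    rw [abs_lt] at h6
    exact h3 ⟨⟨h4, h5⟩, ⟨by linarith, by linarith⟩⟩
  set L' : ℂ → ℂ := fun t => if t.re < t₁.re then L t else F t with hL'
  have hright : ∀ t : ℂ, t₁.re ≤ t.re → t.re < t₂.re + ε' → |t.im - t₁.im| < ε' → ∀ᶠ w in 𝓝 t, L' w = F w := by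
    intro t h4 h5 h6
    have e1 : ∀ᶠ w in 𝓝 t, t₁.re - ε' < w.re :=
      Complex.continuous_re.continuousAt.eventually (lt_mem_nhds (by linarith))
    have e3 : ∀ᶠ w in 𝓝 t, |w.im - t₁.im| < ε' :=
      (Complex.continuous_im.sub continuous_const).abs.continuousAt.eventually (gt_mem_nhds h6)
    filter_upwards [e1, e3] with w w1 w3
    by_cases hw : w.re < t₁.re
    · simp only [hL', if_pos hw]
      exact hLF w w1 (by linarith) w3
    · simp only [hL', if_neg hw]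
  refine ⟨L', ⟨ε', hε', ?_, ?_⟩, hright t₂ hre (by linarith) (by rw [him, sub_self, abs_zero]; exact hε')⟩
  · intro t ht
    have ht1 := ht.1
    have ht2 : |t.im - t₁.im| < ε' := by
      have := ht.2
      rwa [him] at this
    refine DifferentiableAt.differentiableWithinAt ?_
    by_cases hw : t.re < t₁.re
    · have e1 : ∀ᶠ w in 𝓝 t, L' w = L w := by
        filter_upwards [Complex.continuous_re.continuousAt.eventually (gt_mem_nhds hw)] with w hw'
        simp only [hL', if_pos hw']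
      have h3 : DifferentiableAt ℂ L t :=
        (hLd t ⟨by linarith, ht2.trans_le hεε⟩).differentiableAt ((leftA_open t₁ ε).mem_nhds ⟨by linarith, ht2.trans_le hεε⟩)
      exact h3.congr_of_eventuallyEq e1
    · push Not at hw
      have hb : t ∈ ball c δ := leftA_rect him hε1 hε2 (by linarith) ht1 ht2 hre
      exact ((hF t hb).differentiableAt (isOpen_ball.mem_nhds hb)).congr_of_eventuallyEq (hright t hw ht1 ht2)
  · intro d hd
    obtain ⟨R, hR⟩ := hLb d hd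
    refine ⟨min R t₁.re, fun t ht htR => ?_⟩
    have h3 : t.re < t₁.re := htR.trans_le (min_le_right _ _)
    have ht2 : |t.im - t₁.im| < ε' := by
      have := ht.2
      rwa [him] at this
    simp only [hL', if_pos h3]
    exact hR t ⟨by linarith, ht2.trans_le hεε⟩ (htR.trans_le (min_le_left _ _))

end Pool.Agent.EG.RL

end

section

/-!
# EG RL Glue: extension to the disc

Proof (helper41):
glue: for each y in [-pi, pi] strip with L_y, eps_y, and L_y = A(exp t) for |t - (log r + i y)| < eps_y (shrink).  Finitely many y_k cover [-pi,pi]; R := r exp(min eps_k / 2).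
B z := L_k (t) for any k, t with exp t = z, t in Strip(log r + i y_k, eps_k): independent of the choice (identity theorem: L_k(t) and L_l(t + 2 pi i n) agree near the line Re t = log r, where
both are A(exp t), on the convex intersection of the two strips).  B is holomorphic on 0 < |z| < R, z B(z) -> 0: removable singularity (Complex.differentiableOn_update_limUnder_of_isLittleO),
B = A near |z| = r.
-/

set_option autoImplicit false

open Topology Filter Metric Set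

namespace Pool.Agent.EG.RL

attribute [-instance] ProperSMul.toContinuousSMul

private theorem Glue_isOpen_Strip (t₀ : ℂ) (ε : ℝ) : IsOpen (Strip t₀ ε) :=
  (isOpen_lt Complex.continuous_re continuous_const).inter
    (isOpen_lt (Complex.continuous_im.sub continuous_const).abs continuous_const)

private theorem Glue_Strip_mono {l y y' ε ε' : ℝ} (hε : ε ≤ ε') (hy : |y - y'| ≤ ε' - ε) :
    Strip ⟨l, y⟩ ε ⊆ Strip ⟨l, y'⟩ ε' := by
  rintro t ⟨h1, h2⟩
  refine ⟨lt_of_lt_of_le h1 (add_le_add_right hε _), ?_⟩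
  have h3 : t.im - y' = (t.im - y) + (y - y') := by ring
  change |t.im - y'| < ε'
  rw [h3]
  have h4 : |t.im - y| < ε := h2
  exact lt_of_le_of_lt (abs_add_le _ _) (by linarith)

/-- the uniform version -/
private theorem Glue_unif {A : ℂ → ℂ} {r : ℝ}
    (h : ∀ t₀ : ℂ, t₀.re = Real.log r → ∃ L : ℂ → ℂ, Left L t₀ ∧ ∀ᶠ t in 𝓝 t₀, L t = A (Complex.exp t))
    (s : Set ℝ) (hs : IsCompact s) :
    ∃ (ε : ℝ) (Lf : ℝ → ℂ → ℂ), 0 < ε ∧
      (∀ y ∈ s, DifferentiableOn ℂ (Lf y) (Strip ⟨Real.log r, y⟩ ε)) ∧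
      (∀ y ∈ s, ∀ t ∈ Strip ⟨Real.log r, y⟩ ε, Real.log r - ε < t.re → Lf y t = A (Complex.exp t)) ∧
      ∀ δ : ℝ, 0 < δ → ∃ R : ℝ, ∀ y ∈ s, ∀ t ∈ Strip ⟨Real.log r, y⟩ ε, t.re < R →
        ‖Lf y t * Complex.exp t‖ < δ := by
  classical
  refine hs.induction_on (p := fun s => ∃ (ε : ℝ) (Lf : ℝ → ℂ → ℂ), 0 < ε ∧
      (∀ y ∈ s, DifferentiableOn ℂ (Lf y) (Strip ⟨Real.log r, y⟩ ε)) ∧
      (∀ y ∈ s, ∀ t ∈ Strip ⟨Real.log r, y⟩ ε, Real.log r - ε < t.re → Lf y t = A (Complex.exp t)) ∧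
      ∀ δ : ℝ, 0 < δ → ∃ R : ℝ, ∀ y ∈ s, ∀ t ∈ Strip ⟨Real.log r, y⟩ ε, t.re < R →
        ‖Lf y t * Complex.exp t‖ < δ) ?_ ?_ ?_ ?_
  · exact ⟨1, fun _ _ => 0, one_pos, fun y hy => absurd hy (Set.notMem_empty y),
      fun y hy => absurd hy (Set.notMem_empty y), fun δ _ => ⟨0, fun y hy =>
        absurd hy (Set.notMem_empty y)⟩⟩
  · rintro s t hst ⟨ε, Lf, h0, h1, h2, h3⟩
    refine ⟨ε, Lf, h0, fun y hy => h1 y (hst hy), fun y hy => h2 y (hst hy), fun δ hδ => ?_⟩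
    obtain ⟨R, hR⟩ := h3 δ hδ
    exact ⟨R, fun y hy => hR y (hst hy)⟩
  · rintro s t ⟨ε, Lf, h0, h1, h2, h3⟩ ⟨ε', Lf', h0', h1', h2', h3'⟩
    have hm1 : ∀ y, Strip ⟨Real.log r, y⟩ (min ε ε') ⊆ Strip ⟨Real.log r, y⟩ ε := fun y =>
      Glue_Strip_mono (min_le_left _ _) (by rw [sub_self, abs_zero]; linarith [min_le_left ε ε'])
    have hm2 : ∀ y, Strip ⟨Real.log r, y⟩ (min ε ε') ⊆ Strip ⟨Real.log r, y⟩ ε' := fun y =>
      Glue_Strip_mono (min_le_right _ _) (by rw [sub_self, abs_zero]; linarith [min_le_right ε ε'])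
    refine ⟨min ε ε', fun y => if y ∈ s then Lf y else Lf' y, lt_min h0 h0', ?_, ?_, ?_⟩
    · intro y hy
      by_cases hys : y ∈ s
      · simp only [if_pos hys]
        exact (h1 y hys).mono (hm1 y)
      · simp only [if_neg hys]
        exact (h1' y (hy.resolve_left hys)).mono (hm2 y)
    · intro y hy u hu hre
      by_cases hys : y ∈ s
      · simp only [if_pos hys]
        exact h2 y hys u (hm1 y hu) (by linarith [min_le_left ε ε'])
      · simp only [if_neg hys]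
        exact h2' y (hy.resolve_left hys) u (hm2 y hu) (by linarith [min_le_right ε ε'])
    · intro δ hδ
      obtain ⟨R, hR⟩ := h3 δ hδ
      obtain ⟨R', hR'⟩ := h3' δ hδ
      refine ⟨min R R', fun y hy u hu hre => ?_⟩
      by_cases hys : y ∈ s
      · simp only [if_pos hys]
        exact hR y hys u (hm1 y hu) (lt_of_lt_of_le hre (min_le_left _ _))
      · simp only [if_neg hys]
        exact hR' y (hy.resolve_left hys) u (hm2 y hu) (lt_of_lt_of_le hre (min_le_right _ _))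
  · intro x _
    obtain ⟨L, ⟨ε, hε, hd, hg⟩, hA⟩ := h ⟨Real.log r, x⟩ rfl
    obtain ⟨ε', hε', hA'⟩ := Metric.eventually_nhds_iff.1 hA
    have hm0 : 0 < min (ε / 2) (ε' / 4) := lt_min (by linarith) (by linarith)
    have hma : min (ε / 2) (ε' / 4) ≤ ε / 2 := min_le_left _ _
    have hmb : min (ε / 2) (ε' / 4) ≤ ε' / 4 := min_le_right _ _
    refine ⟨Metric.ball x (min (ε / 2) (ε' / 4)), mem_nhdsWithin_of_mem_nhds
      (Metric.ball_mem_nhds x hm0), min (ε / 2) (ε' / 4), fun _ => L, hm0, ?_, ?_, ?_⟩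
    · intro y hy
      rw [Metric.mem_ball, Real.dist_eq] at hy
      exact hd.mono (Glue_Strip_mono (by linarith) (by linarith))
    · intro y hy t ht hre
      rw [Metric.mem_ball, Real.dist_eq] at hy
      apply hA'
      have ht1 : t.re < Real.log r + min (ε / 2) (ε' / 4) := ht.1
      have ht2 : |t.im - y| < min (ε / 2) (ε' / 4) := ht.2
      rw [Complex.dist_eq]
      have h1 : |(t - (⟨Real.log r, x⟩ : ℂ)).re| ≤ ε' / 4 := by
        rw [Complex.sub_re, abs_le]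
        constructor
        · change -(ε' / 4) ≤ t.re - Real.log r
          linarith
        · change t.re - Real.log r ≤ ε' / 4
          linarith
      have h2 : |(t - (⟨Real.log r, x⟩ : ℂ)).im| ≤ ε' / 4 + ε' / 4 := by
        rw [Complex.sub_im]
        have h3 : t.im - x = (t.im - y) + (y - x) := by ring
        change |t.im - x| ≤ _
        rw [h3]
        exact (abs_add_le _ _).trans (by linarith)
      exact lt_of_le_of_lt (Complex.norm_le_abs_re_add_abs_im _) (by linarith)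
    · intro δ hδ
      obtain ⟨R, hR⟩ := hg δ hδ
      refine ⟨R, fun y hy t ht hre => hR t ?_ hre⟩
      rw [Metric.mem_ball, Real.dist_eq] at hy
      exact Glue_Strip_mono (by linarith) (by linarith) ht

/-- independence of the choices -/
private theorem Glue_indep {A L₁ L₂ : ℂ → ℂ} {l y y' ε : ℝ} (hε : 0 < ε)
    (hd₁ : DifferentiableOn ℂ L₁ (Strip ⟨l, y⟩ ε))
    (hA₁ : ∀ t ∈ Strip ⟨l, y⟩ ε, l - ε < t.re → L₁ t = A (Complex.exp t))
    (hd₂ : DifferentiableOn ℂ L₂ (Strip ⟨l, y'⟩ ε))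
    (hA₂ : ∀ t ∈ Strip ⟨l, y'⟩ ε, l - ε < t.re → L₂ t = A (Complex.exp t))
    (n : ℤ) (t : ℂ) (ht : t ∈ Strip ⟨l, y⟩ ε) (ht' : t + n * (2 * Real.pi * Complex.I) ∈ Strip ⟨l, y'⟩ ε) :
    L₁ t = L₂ (t + n * (2 * Real.pi * Complex.I)) := by
  set c : ℂ := n * (2 * Real.pi * Complex.I) with hc
  have hcre : c.re = 0 := by rw [hc]; simp
  have hexp : ∀ u : ℂ, Complex.exp (u + c) = Complex.exp u := by
    intro u
    rw [Complex.exp_add, hc, Complex.exp_int_mul_two_pi_mul_I, mul_one]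
  let U : Set ℂ := {u | u ∈ Strip ⟨l, y⟩ ε ∧ u + c ∈ Strip ⟨l, y'⟩ ε}
  have hUo : IsOpen U := (Glue_isOpen_Strip _ _).inter
    ((Glue_isOpen_Strip ⟨l, y'⟩ ε).preimage (continuous_id.add continuous_const))
  have hUe : U = {u : ℂ | u.re < l + ε} ∩ ({u : ℂ | max (y - ε) (y' - ε - c.im) < u.im} ∩
      {u : ℂ | u.im < min (y + ε) (y' + ε - c.im)}) := by
    ext u
    simp only [U, Strip, Set.mem_ofPred_eq, Set.mem_inter_iff, Complex.add_re, Complex.add_im, hcre,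
      add_zero, abs_lt, max_lt_iff, lt_min_iff]
    constructor
    · rintro ⟨⟨h1, h2, h3⟩, ⟨_, h5, h6⟩⟩
      exact ⟨h1, ⟨by linarith, by linarith⟩, by linarith, by linarith⟩
    · rintro ⟨h1, ⟨h2, h3⟩, h4, h5⟩
      exact ⟨⟨h1, by linarith, by linarith⟩, h1, by linarith, by linarith⟩
  have hUc : IsPreconnected U := by
    rw [hUe]
    exact ((convex_halfSpace_re_lt _).inter ((convex_halfSpace_im_gt _).inter
      (convex_halfSpace_im_lt _))).isPreconnected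
  have ha₁ : AnalyticOnNhd ℂ L₁ U :=
    (hd₁.mono fun u hu => hu.1).analyticOnNhd hUo
  have ha₂ : AnalyticOnNhd ℂ (fun u => L₂ (u + c)) U := by
    refine DifferentiableOn.analyticOnNhd ?_ hUo
    exact hd₂.comp (differentiableOn_id.add_const c) fun u hu => hu.2
  have htU : t ∈ U := ⟨ht, ht'⟩
  let t₁ : ℂ := ⟨l, t.im⟩
  have ht₁ : t₁ ∈ U := by
    refine ⟨⟨?_, ht.2⟩, ⟨?_, ?_⟩⟩
    · change l < l + ε
      linarith
    · rw [Complex.add_re, hcre]
      change l + 0 < l + ε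
      linarith
    · have h5 := ht'.2
      rw [Complex.add_im] at h5 ⊢
      exact h5
  have hev : L₁ =ᶠ[𝓝 t₁] fun u => L₂ (u + c) := by
    have h6 : U ∩ {u : ℂ | l - ε < u.re} ∈ 𝓝 t₁ := by
      refine (hUo.inter (isOpen_lt continuous_const Complex.continuous_re)).mem_nhds ⟨ht₁, ?_⟩
      change l - ε < l
      linarith
    filter_upwards [h6] with u hu
    have h7 : l - ε < (u + c).re := by
      rw [Complex.add_re, hcre, add_zero]
      exact hu.2
    rw [hA₁ u hu.1.1 hu.2, hA₂ (u + c) hu.1.2 h7, hexp]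
  exact ha₁.eqOn_of_preconnected_of_eventuallyEq ha₂ hUc ht₁ hev htU

theorem glue {A : ℂ → ℂ} {r : ℝ} (hr : 0 < r)
    (h : ∀ t₀ : ℂ, t₀.re = Real.log r → ∃ L : ℂ → ℂ, Left L t₀ ∧ ∀ᶠ t in 𝓝 t₀, L t = A (Complex.exp t)) :
    ∃ (B : ℂ → ℂ) (R : ℝ), r < R ∧ DifferentiableOn ℂ B (ball 0 R) ∧ ∀ z : ℂ, ‖z‖ = r → ∀ᶠ w in 𝓝 z, B w = A w := by
  classical
  obtain ⟨ε, Lf, hε, hd, hA, hg⟩ := Glue_unif h (Set.Icc (-Real.pi) Real.pi) isCompact_Icc
  have harg : ∀ z : ℂ, Complex.arg z ∈ Set.Icc (-Real.pi) Real.pi := fun z =>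
    ⟨(Complex.neg_pi_lt_arg z).le, Complex.arg_le_pi z⟩
  have hlog : ∀ z : ℂ, z ≠ 0 → ‖z‖ < r * Real.exp ε →
      Complex.log z ∈ Strip ⟨Real.log r, Complex.arg z⟩ ε := by
    intro z hz hzR
    refine ⟨?_, ?_⟩
    · rw [Complex.log_re]
      change Real.log ‖z‖ < Real.log r + ε
      have h1 : Real.log (r * Real.exp ε) = Real.log r + ε := by
        rw [Real.log_mul hr.ne' (Real.exp_pos ε).ne', Real.log_exp]
      rw [← h1]
      exact Real.log_lt_log (norm_pos_iff.2 hz) hzR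
    · rw [Complex.log_im]
      change |Complex.arg z - Complex.arg z| < ε
      rw [sub_self, abs_zero]
      exact hε
  let B : ℂ → ℂ := fun z => Lf (Complex.arg z) (Complex.log z)
  -- near a point `z₀ ≠ 0`
  have hloc : ∀ z₀ : ℂ, z₀ ≠ 0 → ‖z₀‖ < r * Real.exp ε → DifferentiableAt ℂ B z₀ := by
    intro z₀ hz₀ hzR
    let ℓ : ℂ → ℂ := fun w => Complex.log (w / z₀) + Complex.log z₀
    have hℓd : DifferentiableAt ℂ ℓ z₀ := by
      refine DifferentiableAt.add_const _ ?_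
      refine DifferentiableAt.clog (differentiableAt_id.div_const z₀) ?_
      rw [div_self hz₀]
      exact Complex.one_mem_slitPlane
    have hℓ0 : ℓ z₀ = Complex.log z₀ := by
      change Complex.log (z₀ / z₀) + Complex.log z₀ = Complex.log z₀
      rw [div_self hz₀, Complex.log_one, zero_add]
    have hmem : ℓ z₀ ∈ Strip ⟨Real.log r, Complex.arg z₀⟩ ε := by
      rw [hℓ0]
      exact hlog z₀ hz₀ hzR
    have hLd : DifferentiableAt ℂ (Lf (Complex.arg z₀)) (ℓ z₀) :=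
      (hd _ (harg z₀)).differentiableAt ((Glue_isOpen_Strip _ _).mem_nhds hmem)
    have hev : B =ᶠ[𝓝 z₀] fun w => Lf (Complex.arg z₀) (ℓ w) := by
      have e1 : ∀ᶠ w in 𝓝 z₀, ℓ w ∈ Strip ⟨Real.log r, Complex.arg z₀⟩ ε :=
        hℓd.continuousAt.eventually ((Glue_isOpen_Strip _ _).mem_nhds hmem)
      have e2 : ∀ᶠ w in 𝓝 z₀, w ≠ 0 := isOpen_ne.mem_nhds hz₀
      have e3 : ∀ᶠ w in 𝓝 z₀, ‖w‖ < r * Real.exp ε :=
        continuous_norm.continuousAt.eventually (gt_mem_nhds hzR)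
      filter_upwards [e1, e2, e3] with w hw1 hw2 hw3
      have hexpℓ : Complex.exp (ℓ w) = w := by
        change Complex.exp (Complex.log (w / z₀) + Complex.log z₀) = w
        rw [Complex.exp_add, Complex.exp_log (div_ne_zero hw2 hz₀), Complex.exp_log hz₀,
          div_mul_cancel₀ _ hz₀]
      have hexpl : Complex.exp (ℓ w) = Complex.exp (Complex.log w) := by
        rw [hexpℓ, Complex.exp_log hw2]
      obtain ⟨n, hn⟩ := Complex.exp_eq_exp_iff_exists_int.1 hexpl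
      have hw4 := hlog w hw2 hw3
      have h5 : Complex.log w + n * (2 * Real.pi * Complex.I) ∈
          Strip ⟨Real.log r, Complex.arg z₀⟩ ε := by
        rw [← hn]
        exact hw1
      have h6 := Glue_indep hε (hd _ (harg w)) (hA _ (harg w)) (hd _ (harg z₀)) (hA _ (harg z₀)) n
        (Complex.log w) hw4 h5
      change Lf (Complex.arg w) (Complex.log w) = Lf (Complex.arg z₀) (ℓ w)
      rw [h6, ← hn]
    refine DifferentiableAt.congr_of_eventuallyEq ?_ hev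
    exact hLd.comp z₀ hℓd
  have hR : r < r * Real.exp ε := by
    have : 1 < Real.exp ε := Real.one_lt_exp_iff.2 hε
    nlinarith
  have hd' : DifferentiableOn ℂ B (ball 0 (r * Real.exp ε) \ {0}) := by
    rintro z ⟨hz1, hz2⟩
    exact (hloc z hz2 (mem_ball_zero_iff.1 hz1)).differentiableWithinAt
  -- growth at `0`
  have hR0 : 0 < r * Real.exp ε := mul_pos hr (Real.exp_pos ε)
  have ho : (fun z => B z - B 0) =o[𝓝[≠] (0 : ℂ)] fun z => (z - 0)⁻¹ := by
    rw [Asymptotics.isLittleO_iff]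
    intro c hc
    obtain ⟨R₁, hR₁⟩ := hg (c / 2) (by linarith)
    have e1 : ∀ᶠ z in 𝓝[≠] (0 : ℂ), z ≠ 0 := eventually_mem_nhdsWithin
    have e2 : ∀ᶠ z in 𝓝[≠] (0 : ℂ), ‖z‖ < min (r * Real.exp ε) (Real.exp R₁) := by
      refine mem_nhdsWithin_of_mem_nhds ?_
      exact continuous_norm.continuousAt.eventually
        (gt_mem_nhds (show ‖(0 : ℂ)‖ < min (r * Real.exp ε) (Real.exp R₁) from by
          rw [norm_zero]; exact lt_min hR0 (Real.exp_pos _)))
    have e3 : ∀ᶠ z in 𝓝[≠] (0 : ℂ), ‖z‖ * ‖B 0‖ < c / 2 := by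
      refine mem_nhdsWithin_of_mem_nhds ?_
      have h7 : Continuous fun z : ℂ => ‖z‖ * ‖B 0‖ := continuous_norm.mul continuous_const
      exact h7.continuousAt.eventually (gt_mem_nhds (show ‖(0 : ℂ)‖ * ‖B 0‖ < c / 2 from by
        rw [norm_zero, zero_mul]; linarith))
    filter_upwards [e1, e2, e3] with z hz1 hz2 hz3
    have hz4 := hlog z hz1 (lt_of_lt_of_le hz2 (min_le_left _ _))
    have hz5 : (Complex.log z).re < R₁ := by
      rw [Complex.log_re]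
      have := Real.log_lt_log (norm_pos_iff.2 hz1) (lt_of_lt_of_le hz2 (min_le_right _ _))
      rwa [Real.log_exp] at this
    have hz6 := hR₁ _ (harg z) _ hz4 hz5
    rw [Complex.exp_log hz1] at hz6
    have hz7 : ‖B z‖ * ‖z‖ < c / 2 := by
      rw [← norm_mul]
      exact hz6
    rw [sub_zero, norm_inv]
    have hzp : 0 < ‖z‖ := norm_pos_iff.2 hz1
    rw [← div_eq_mul_inv, le_div_iff₀ hzp]
    calc ‖B z - B 0‖ * ‖z‖ ≤ (‖B z‖ + ‖B 0‖) * ‖z‖ :=
          mul_le_mul_of_nonneg_right (norm_sub_le _ _) hzp.le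
      _ = ‖B z‖ * ‖z‖ + ‖z‖ * ‖B 0‖ := by ring
      _ ≤ c := by linarith
  have hfin := Complex.differentiableOn_update_limUnder_of_isLittleO
    (Metric.ball_mem_nhds (0 : ℂ) hR0) hd' ho
  refine ⟨Function.update B 0 (limUnder (𝓝[≠] 0) B), r * Real.exp ε, hR, hfin, ?_⟩
  intro z hz
  have hz0 : z ≠ 0 := norm_pos_iff.1 (by rw [hz]; exact hr)
  have hlo : r * Real.exp (-ε) < r := by
    have : Real.exp (-ε) < 1 := by
      rw [← Real.exp_zero]
      exact Real.exp_lt_exp.2 (by linarith)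
    nlinarith
  have e1 : ∀ᶠ w in 𝓝 z, w ≠ 0 := isOpen_ne.mem_nhds hz0
  have e2 : ∀ᶠ w in 𝓝 z, ‖w‖ < r * Real.exp ε :=
    continuous_norm.continuousAt.eventually (gt_mem_nhds (show ‖z‖ < r * Real.exp ε from hz.trans_lt hR))
  have e3 : ∀ᶠ w in 𝓝 z, r * Real.exp (-ε) < ‖w‖ :=
    continuous_norm.continuousAt.eventually (lt_mem_nhds (show r * Real.exp (-ε) < ‖z‖ from hlo.trans_eq hz.symm))
  filter_upwards [e1, e2, e3] with w hw1 hw2 hw3
  rw [Function.update_of_ne hw1]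
  change Lf (Complex.arg w) (Complex.log w) = A w
  have hw4 : Real.log r - ε < (Complex.log w).re := by
    rw [Complex.log_re]
    have h8 : Real.log (r * Real.exp (-ε)) = Real.log r - ε := by
      rw [Real.log_mul hr.ne' (Real.exp_pos _).ne', Real.log_exp]
      ring
    rw [← h8]
    exact Real.log_lt_log (mul_pos hr (Real.exp_pos _)) hw3
  rw [hA _ (harg w) _ (hlog w hw1 hw2) hw4, Complex.exp_log hw1]

end Pool.Agent.EG.RL

end

section

/-!
# EG RL Main: continuation along a ray, and the extension theorem (holes)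

`z = exp t` is a coordinate near a bad value, `f`, `g` are sections near `z = 0` (holomorphic also at `0`, they avoid the horizontal boundary).
`A z` is the integral of `α / dz` from `f z` to `g z`, so `exp t * A (exp t) = P t (h_g t) - P t (h_f t)` if `f` and `g` are in the same cell (`Start`).  Then `A` extends to
the disc (`rl`).
-/

set_option autoImplicit false

open Topology Filter Metric Set

namespace Pool.Agent.EG.RL

attribute [-instance] ProperSMul.toContinuousSMul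

variable {ι Y : Type}

/-- the start: near `t₀` the function `A` is the integral from `f` to `g` in one cell -/
def Start (M : Model ι Y) (f g : ℂ → Y) (A : ℂ → ℂ) (t₀ : ℂ) : Prop :=
  ∃ (i : ι) (μ : ℂ) (hf hg : ℂ → ℂ), Dat M (fun t => f (Complex.exp t)) i μ hf t₀ ∧ Dat M (fun t => g (Complex.exp t)) i μ hg t₀ ∧
    ∀ᶠ t in 𝓝 t₀, A (Complex.exp t) * Complex.exp t = M.P i μ t (hg t) - M.P i μ t (hf t)

/-- the germ of the integral from `f` to `g` extends to the left -/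
def Ext (M : Model ι Y) (f g : ℂ → Y) (t₀ : ℂ) : Prop :=
  ∀ i μ hf j ν hg, Dat M (fun t => f (Complex.exp t)) i μ hf t₀ → Dat M (fun t => g (Complex.exp t)) j ν hg t₀ →
    ∃ L : ℂ → ℂ, Left L t₀ ∧ ∀ᶠ t in 𝓝 t₀, L t = (M.P j ν t (hg t) - M.P i μ t (hf t)) / Complex.exp t

/-- a real induction -/
theorem real_ind {E : ℝ → Prop} {x₁ x₀ : ℝ} (hx : x₁ ≤ x₀) (h₁ : E x₁)
    (hs : ∀ x ∈ Icc x₁ x₀, ∃ δ : ℝ, 0 < δ ∧ ∀ y ∈ Icc x₁ x₀, ∀ z ∈ Icc x₁ x₀, |y - x| < δ → |z - x| < δ → y ≤ z → E y → E z) :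
    E x₀ := by
  set S : Set ℝ := {x | x ∈ Icc x₁ x₀ ∧ E x} with hS
  have hne : S.Nonempty := ⟨x₁, ⟨le_rfl, hx⟩, h₁⟩
  have hbd : BddAbove S := ⟨x₀, fun x hx => hx.1.2⟩
  set c := sSup S with hc
  have hcI : c ∈ Icc x₁ x₀ := ⟨le_csSup hbd ⟨⟨le_rfl, hx⟩, h₁⟩, csSup_le hne fun x hx => hx.1.2⟩
  obtain ⟨δ, hδ, h2⟩ := hs c hcI
  obtain ⟨y, hyS, hy⟩ := exists_lt_of_lt_csSup hne (show c - δ < sSup S by rw [← hc]; linarith)
  have hyc : y ≤ c := le_csSup hbd hyS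
  have h3 : |y - c| < δ := by rw [abs_lt]; constructor <;> linarith
  set z := min x₀ (c + δ / 2) with hz
  have hzI : z ∈ Icc x₁ x₀ := ⟨le_min hx (by linarith [hcI.1]), min_le_left _ _⟩
  have hcz : c ≤ z := le_min hcI.2 (by linarith)
  have hz2 : z ≤ c + δ / 2 := min_le_right _ _
  have h4 : |z - c| < δ := by rw [abs_lt]; constructor <;> linarith
  have h5 : E z := h2 y hyS.1 z hzI h3 h4 (hyc.trans hcz) hyS.2
  have h6 : z ≤ c := le_csSup hbd ⟨hzI, h5⟩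
  have h7 : x₀ ≤ c := by
    by_contra h8
    push Not at h8
    rcases le_total x₀ (c + δ / 2) with h9 | h9
    · rw [hz, min_eq_left h9] at h6
      linarith
    · rw [hz, min_eq_right h9] at h6
      linarith
  have h8 : z = x₀ := le_antisymm hzI.2 (h7.trans hcz)
  rw [← h8]
  exact h5

end Pool.Agent.EG.RL

end

section

/-!
# (Copy for open cones and discrete groups, see `Oc`.) EF DUl: the derivative of `u`

* `chart_imm`: let `x = χ.σ p`, `v = dσ_p e`, `wd x v = 0`, so `v = a • x` (`x ≠ 0` because `0 ∉ X`).  `χ.q (χ.σ p') = p'` near `p` gives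
  `dq_x (dσ_p e) = e`; `χ.q (c • x) = χ.q x` for `c ≠ 0` gives `dq_x x = 0`.  So `e = dq_x v = a dq_x x = 0`.
* `key`: let `v` be a local lift of `u` at `x` (`TorusMap.loc`), `γ`, `D` as in `DU`: `D - v ∘ γ` is continuous near `0` with values in `Λ`
  (`u (γ z) - v (γ z) ∈ Λ`), so constant near `0`, `D' 0 = dv_x (γ' 0)`.  `DU.unique` follows.
* `DU.of_chart`: `γ z = χ.σ (p + z e)`, `D z = υ (p + z e)`.
* `DU.chart`: near `0`, `γ z ∈ X ∩ χ.U`, `π z = χ.q (γ z)` is analytic with `π 0 = p`, and `γ z = a z • χ.σ (π z)` with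
  `a z ≠ 0` (`surj`); `a` is analytic (e.g. `a z = ⟨χ.σ p, γ z⟩ / ⟨χ.σ p, χ.σ (π z)⟩`, near `0`), `a 0 = 1` (`γ 0 = χ.σ p ≠ 0`); so
  `v = γ' 0 = dσ_p (π' 0) + a' 0 • χ.σ p`, and `u (γ z) - υ (π z) ∈ Λ` near `0` (`smul`, `lift`), so `D - υ ∘ π` is constant near `0` and
  `c = dυ_p (π' 0)`.
* `DU.smul`: `c • γ`.
* `DU.of_sec`: `γ z = F (z₀ + z)`, `D z = z₀ + z`.
* `exists_adm`: take the chart `χ` at `x` (`χ.q x = 0`, `x = a • χ.σ 0` with `a ≠ 0`), `v` a local lift of `u` at `χ.σ 0 ∈ X`, `υ = v ∘ χ.σ`, analytic at `0`, and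
  `u (χ.σ p) - υ p ∈ Λ` near `0`.  `DU (χ.σ 0) (a⁻¹ • w) c` (`DU.smul`); as in `DU.chart` `c = dυ_0 (π' 0)`, so `dυ_0 ≠ 0` and
  `dυ_p ≠ 0` near `0`.  Choose `s < 2` small.
-/

set_option autoImplicit false

open Topology Filter Metric

namespace Pool.Agent.H18.LU

attribute [-instance] ProperSMul.toContinuousSMul

open Pool.Agent.H62.EF

open Pool.Agent.H36.BP (EN fs wd)
open Pool.Agent.H14.PP (Chart Form Tan)

variable {N : ℕ} {X : Set (EN N)} {Λ : AddSubgroup ℂ} {u : EN N → ℂ}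

private lemma near_const (hΛ : Dsc Λ) {E : ℂ → ℂ} (hE : ContinuousAt E 0) (h : ∀ᶠ z in 𝓝 (0 : ℂ), E z ∈ Λ) :
    ∀ᶠ z in 𝓝 (0 : ℂ), E z = E 0 := by
  obtain ⟨δ, hδ, hd⟩ := hΛ.discrete
  have h0 : E 0 ∈ Λ := h.self_of_nhds
  have h1 : ∀ᶠ z in 𝓝 (0 : ℂ), ‖E z - E 0‖ < δ := by
    have h2 : Tendsto (fun z => ‖E z - E 0‖) (𝓝 (0 : ℂ)) (𝓝 ‖E 0 - E 0‖) :=
      ((hE.sub continuousAt_const).norm).tendsto
    rw [sub_self, norm_zero] at h2
    exact h2.eventually_lt_const hδ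
  filter_upwards [h, h1] with z hz hz1
  exact sub_eq_zero.1 (hd _ (Λ.sub_mem hz h0) hz1)

private lemma near_deriv (hΛ : Dsc Λ) {D B : ℂ → ℂ} (hD : AnalyticAt ℂ D 0) (hB : AnalyticAt ℂ B 0)
    (h : ∀ᶠ z in 𝓝 (0 : ℂ), D z - B z ∈ Λ) : deriv D 0 = deriv B 0 := by
  have h1 := near_const hΛ (E := fun z => D z - B z) (hD.continuousAt.sub hB.continuousAt) h
  have h2 : deriv (fun z => D z - B z) 0 = 0 := by
    have h3 : (fun z => D z - B z) =ᶠ[𝓝 (0 : ℂ)] fun _ => D 0 - B 0 := h1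
    rw [h3.deriv_eq, deriv_const]
  have h4 : deriv (fun z => D z - B z) 0 = deriv D 0 - deriv B 0 :=
    deriv_fun_sub hD.differentiableAt hB.differentiableAt
  rw [h4] at h2
  exact sub_eq_zero.1 h2

private lemma chart_gen (hX : OCone X) (hu : TorusMap X Λ u) (hΛ : Dsc Λ) {χ : Chart X} {υ : ℂ × ℂ → ℂ}
    {p : ℂ × ℂ} (hp : p ∈ ball (0 : ℂ × ℂ) 2) (hυ : AnalyticAt ℂ υ p)
    (hl : ∀ᶠ p' in 𝓝 p, u (χ.σ p') - υ p' ∈ Λ) {v : EN N} {c : ℂ} (hv : DU X Λ u (χ.σ p) v c) :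
    ∃ (e : ℂ × ℂ) (a : ℂ), v = fderiv ℂ χ.σ p e + a • χ.σ p ∧ fderiv ℂ υ p e = c := by
  obtain ⟨γ, D, h1, h2, h3, h4, h5, h6, h7⟩ := hv
  have hm := χ.σ_mem p hp
  have hx0 : χ.σ p ≠ 0 := fun h => hX.zero_notMem (h ▸ hm.1)
  have hγc : Tendsto γ (𝓝 (0 : ℂ)) (𝓝 (χ.σ p)) := by
    have h8 := h1.continuousAt.tendsto
    rwa [h3] at h8
  have hU : ∀ᶠ z in 𝓝 (0 : ℂ), γ z ∈ χ.U := hγc.eventually (χ.isOpen_U.mem_nhds hm.2.1)
  have hqa : AnalyticAt ℂ χ.q (γ 0) := by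
    rw [h3]
    exact χ.q_an _ hm.2.1
  obtain ⟨π, hπ⟩ : ∃ π : ℂ → ℂ × ℂ, π = fun z => χ.q (γ z) := ⟨_, rfl⟩
  have hπa : AnalyticAt ℂ π 0 := by
    rw [hπ]
    exact AnalyticAt.fun_comp hqa h1
  have hπ0 : π 0 = p := by
    rw [hπ]
    change χ.q (γ 0) = p
    rw [h3]
    exact hm.2.2
  have hσa : AnalyticAt ℂ χ.σ (π 0) := by
    rw [hπ0]
    exact χ.σ_an p hp
  have hσπ : AnalyticAt ℂ (fun z => χ.σ (π z)) 0 := AnalyticAt.fun_comp hσa hπa
  have hπc : Tendsto π (𝓝 (0 : ℂ)) (𝓝 p) := by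
    have h8 := hπa.continuousAt.tendsto
    rwa [hπ0] at h8
  have hsj : ∀ᶠ z in 𝓝 (0 : ℂ), ∃ a : ℂ, a ≠ 0 ∧ γ z = a • χ.σ (π z) := by
    filter_upwards [h2, hU] with z hz hz1
    rw [hπ]
    exact (χ.surj _ hz hz1).2
  -- the factor
  obtain ⟨L, hL⟩ : ∃ L : EN N →L[ℂ] ℂ, L = innerSL ℂ (χ.σ p) := ⟨_, rfl⟩
  have hL0 : L (χ.σ p) ≠ 0 := by
    rw [hL, innerSL_apply_apply]
    exact inner_self_ne_zero.2 hx0
  have hnum : AnalyticAt ℂ (fun z => L (γ z)) 0 := AnalyticAt.fun_comp (L.analyticAt (γ 0)) h1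
  have hden : AnalyticAt ℂ (fun z => L (χ.σ (π z))) 0 := AnalyticAt.fun_comp (g := L) (f := fun z => χ.σ (π z)) (L.analyticAt (χ.σ (π 0))) hσπ
  have hden0 : L (χ.σ (π 0)) ≠ 0 := by
    rw [hπ0]
    exact hL0
  obtain ⟨A, hA⟩ : ∃ A : ℂ → ℂ, A = fun z => L (γ z) / L (χ.σ (π z)) := ⟨_, rfl⟩
  have hAa : AnalyticAt ℂ A 0 := by
    rw [hA]
    exact hnum.fun_div hden hden0
  have hA0 : A 0 = 1 := by
    rw [hA]
    change L (γ 0) / L (χ.σ (π 0)) = 1
    rw [h3, hπ0]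
    exact div_self hL0
  have hdne : ∀ᶠ z in 𝓝 (0 : ℂ), L (χ.σ (π z)) ≠ 0 := hden.continuousAt.eventually_ne hden0
  have hAe : γ =ᶠ[𝓝 (0 : ℂ)] fun z => A z • χ.σ (π z) := by
    filter_upwards [hsj, hdne] with z hz hz1
    obtain ⟨a, ha, hza⟩ := hz
    have h8 : A z = a := by
      rw [hA]
      change L (γ z) / L (χ.σ (π z)) = a
      rw [hza, map_smul, smul_eq_mul, mul_div_assoc, div_self hz1, mul_one]
    rw [h8]
    exact hza
  have hσd : HasDerivAt (fun z => χ.σ (π z)) (fderiv ℂ χ.σ p (deriv π 0)) 0 := by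
    have h8 := hσa.differentiableAt.hasFDerivAt.comp_hasDerivAt (0 : ℂ) hπa.differentiableAt.hasDerivAt
    rw [hπ0] at h8
    exact h8
  have hder : deriv γ 0 = A 0 • fderiv ℂ χ.σ p (deriv π 0) + deriv A 0 • χ.σ (π 0) := by
    rw [hAe.deriv_eq]
    exact (hAa.differentiableAt.hasDerivAt.fun_smul hσd).deriv
  refine ⟨deriv π 0, deriv A 0, ?_, ?_⟩
  · rw [← h4, hder, hA0, one_smul, hπ0]
  · have hυ' : AnalyticAt ℂ υ (π 0) := by
      rw [hπ0]
      exact hυ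
    have hB : AnalyticAt ℂ (fun z => υ (π z)) 0 := AnalyticAt.fun_comp hυ' hπa
    have hmem : ∀ᶠ z in 𝓝 (0 : ℂ), D z - υ (π z) ∈ Λ := by
      filter_upwards [hsj, h6, hπc.eventually hl, hπc.eventually (isOpen_ball.mem_nhds hp)] with z hz hz1 hz2 hz3
      obtain ⟨a, ha, hza⟩ := hz
      have h8 := hu.smul _ (χ.σ_mem _ hz3).1 a ha
      rw [← hza] at h8
      have h9 := Λ.add_mem (Λ.sub_mem h8 hz1) hz2
      have h10 : u (γ z) - u (χ.σ (π z)) - (u (γ z) - D z) + (u (χ.σ (π z)) - υ (π z)) = D z - υ (π z) := by ring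
      rwa [h10] at h9
    rw [← h7, near_deriv hΛ h5 hB hmem]
    have h8 := hυ'.differentiableAt.hasFDerivAt.comp_hasDerivAt (0 : ℂ) hπa.differentiableAt.hasDerivAt
    rw [hπ0] at h8
    exact h8.deriv.symm

theorem _root_.Pool.Agent.H62.EF.DU.smulO (hX : OCone X) (hu : TorusMap X Λ u) {x v : EN N} {d : ℂ} (h : DU X Λ u x v d) {c : ℂ} (hc : c ≠ 0) :
    DU X Λ u (c • x) (c • v) d := by
  obtain ⟨γ, D, h1, h2, h3, h4, h5, h6, h7⟩ := h
  refine ⟨fun z => c • γ z, D, analyticAt_const.fun_smul h1, ?_, ?_, ?_, h5, ?_, h7⟩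
  · filter_upwards [h2] with z hz
    exact hX.smul_mem _ hz c hc
  · change c • γ 0 = c • x
    rw [h3]
  · rw [← h4]
    exact (h1.differentiableAt.hasDerivAt.const_smul c).deriv
  · filter_upwards [h2, h6] with z hz hz1
    have h8 := Λ.add_mem (hu.smul _ hz c hc) hz1
    have h9 : u (c • γ z) - u (γ z) + (u (γ z) - D z) = u (c • γ z) - D z := by ring
    rwa [h9] at h8

theorem exists_admO (hX : OCone X) (hch : Charts X) (hu : TorusMap X Λ u) (hΛ : Dsc Λ) {x w : EN N} (hx : x ∈ X) {c : ℂ}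
    (hc : c ≠ 0) (hw : DU X Λ u x w c) :
    ∃ (χ : Chart X) (υ : ℂ × ℂ → ℂ) (s : ℝ), x ∈ χ.U ∧ χ.q x = 0 ∧ Adm Λ u χ υ s := by
  obtain ⟨χ, hxU, hq⟩ := hch x hx
  obtain ⟨-, a, ha, hxa⟩ := χ.surj x hx hxU
  rw [hq] at hxa
  have h02 : (0 : ℂ × ℂ) ∈ ball (0 : ℂ × ℂ) 2 := mem_ball_self two_pos
  have hm := χ.σ_mem 0 h02
  have hDU : DU X Λ u (χ.σ 0) (a⁻¹ • w) c := by
    have h1 := DU.smulO hX hu hw (inv_ne_zero ha)
    have h2 : a⁻¹ • x = χ.σ 0 := by
      rw [hxa, smul_smul, inv_mul_cancel₀ ha, one_smul]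
    rwa [h2] at h1
  obtain ⟨v, hv, hvl⟩ := hu.loc (χ.σ 0) hm.1
  have hσa : AnalyticAt ℂ χ.σ 0 := χ.σ_an 0 h02
  have hυ : AnalyticAt ℂ (fun p => v (χ.σ p)) 0 := AnalyticAt.fun_comp hv hσa
  have hb2 : ∀ᶠ p in 𝓝 (0 : ℂ × ℂ), p ∈ ball (0 : ℂ × ℂ) 2 := isOpen_ball.mem_nhds h02
  have hl : ∀ᶠ p in 𝓝 (0 : ℂ × ℂ), u (χ.σ p) - v (χ.σ p) ∈ Λ := by
    filter_upwards [hσa.continuousAt.tendsto.eventually hvl, hb2] with p hp hp2
    exact hp (χ.σ_mem p hp2).1
  obtain ⟨e, b, -, hec⟩ := chart_gen hX hu hΛ h02 hυ hl hDU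
  have hd0 : fderiv ℂ (fun p => v (χ.σ p)) 0 ≠ 0 := by
    intro h0
    rw [h0] at hec
    exact hc hec.symm
  have hdn : ∀ᶠ p in 𝓝 (0 : ℂ × ℂ), fderiv ℂ (fun p => v (χ.σ p)) p ≠ 0 :=
    hυ.fderiv.continuousAt.eventually_ne hd0
  obtain ⟨r, hr, hrb⟩ := Metric.eventually_nhds_iff_ball.1 ((hυ.eventually_analyticAt.and hl).and hdn)
  refine ⟨χ, fun p => v (χ.σ p), min r 1, hxU, hq, lt_min hr one_pos, (min_le_right _ _).trans_lt one_lt_two, ?_, ?_, ?_⟩
  · intro p hp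
    exact (hrb p (ball_subset_ball (min_le_left _ _) hp)).1.1
  · intro p hp
    exact (hrb p (ball_subset_ball (min_le_left _ _) hp)).1.2
  · intro p hp
    exact (hrb p (ball_subset_ball (min_le_left _ _) hp)).2

end Pool.Agent.H18.LU

end
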