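import Pool.Agent.H94.CB.M19

/-! The parts of this file: H17BP.Div, H17BP.ChartC, H17BP.DBlow, H17BP.SmoothF, H17BP.NF, H17BP.NFBlow, H17BP.StepN. -/

section

/-!
# Division of an analytic function by a coordinate

`f : ℂ × ℂ → E` analytic at `0`, `f (0, y) = 0` for small `y`: then `f x = x.1 • g x` near `0` with `g` analytic
at `0`.

Proof.  Let `HasFPowerSeriesOnBall f p 0 r`.  The function `y ↦ f (0, y)` has the power series
`p.compContinuousLinearMap (inr)`, so (uniqueness in one variable, `HasFPowerSeriesAt.eq_zero` or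
`HasFPowerSeriesAt.apply_eq_zero`) `p n (fun _ => (0, y)) = 0` for all `n, y`.  Let `π w = (0, w.2)`, `e = (1, 0)`.
For `w = (x, y)` telescoping in the arguments gives
`p (n+1) (w, …, w) = p (n+1) (w, …, w) - p (n+1) (π w, …, π w)
  = ∑_{k ≤ n} x • p (n+1) (π w, …, π w [k times], e, w, …, w)` because `w - π w = x e`.
Define `q n (v_1, …, v_n) = ∑_{k ≤ n} p (n+1) (π v_1, …, π v_k, e, v_{k+1}, …, v_n)`; then
`‖q n‖ ≤ (n+1) ‖p (n+1)‖ C ^ (n+1)` with a constant `C` for `‖π‖, ‖e‖`, so `q` has positive radius and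
`g x = ∑ q n (x, …, x)` is analytic at `0` and `f x = x.1 • g x`.

Other possible proofs are fine: e.g. as a parameter integral, or one first proves
`HasFPowerSeriesAt` for `∑ a_{ij} x^i y^j` with `‖a_{ij}‖ ≤ C r^(-i-j)`; or (shorter) use the mean value form
`g x = ∫ t in 0..1, fderiv ℂ f (t x.1, x.2) (1, 0)`: on a small ball the power series of `fderiv f` (evaluated at
`(1,0)`) is composed with the linear map `(t x.1, x.2)` and integrated term by term: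
`q n = ∫ t in 0..1, (p' n).compContinuousLinearMap (L_t)` (Bochner integral of continuous multilinear maps),
`‖q n‖ ≤ sup ‖p' n‖ C ^ n`, and `HasFPowerSeriesOnBall` for `g` by `intervalIntegral` of a uniformly convergent
series (`hasSum_integral_of_summable_norm` / `tendstoUniformlyOn`), and `f x - f (0, x.2) = x.1 • g x` is the
fundamental theorem of calculus along the segment.
-/

open Topology Filter

noncomputable section

namespace Pool.Agent.H17BP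

attribute [-instance] ProperSMul.toContinuousSMul

variable {E : Type} [NormedAddCommGroup E] [NormedSpace ℂ E] [CompleteSpace E]

/-- the linear map `(x, y) ↦ (t x, y)` -/
private def Div_L (t : ℝ) : ℂ × ℂ →L[ℂ] ℂ × ℂ :=
  ((t : ℂ) • ContinuousLinearMap.fst ℂ ℂ ℂ).prod (ContinuousLinearMap.snd ℂ ℂ ℂ)

private theorem Div_L_apply (t : ℝ) (w : ℂ × ℂ) : Div_L t w = ((t : ℂ) * w.1, w.2) := rfl

private theorem Div_L_eq (t : ℝ) : Div_L t =
    (t : ℂ) • ((ContinuousLinearMap.fst ℂ ℂ ℂ).prod (0 : ℂ × ℂ →L[ℂ] ℂ)) +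
      (0 : ℂ × ℂ →L[ℂ] ℂ).prod (ContinuousLinearMap.snd ℂ ℂ ℂ) := by
  apply ContinuousLinearMap.ext
  intro w
  rw [Div_L_apply]
  apply Prod.ext
  · simp
  · simp

private theorem Div_L_cont : Continuous Div_L := by
  have h : Div_L = fun t : ℝ =>
      (t : ℂ) • ((ContinuousLinearMap.fst ℂ ℂ ℂ).prod (0 : ℂ × ℂ →L[ℂ] ℂ)) +
      (0 : ℂ × ℂ →L[ℂ] ℂ).prod (ContinuousLinearMap.snd ℂ ℂ ℂ) := funext Div_L_eq
  rw [h]
  exact (Complex.continuous_ofReal.smul continuous_const).add continuous_const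

private theorem Div_norm_L_apply {t : ℝ} (h0 : 0 ≤ t) (h1 : t ≤ 1) (w : ℂ × ℂ) :
    ‖Div_L t w‖ ≤ ‖w‖ := by
  rw [Div_L_apply, Prod.norm_def, Prod.norm_def]
  refine max_le_max ?_ le_rfl
  rw [norm_mul, Complex.norm_real, Real.norm_of_nonneg h0]
  exact mul_le_of_le_one_left (norm_nonneg _) h1

private theorem Div_norm_L {t : ℝ} (h0 : 0 ≤ t) (h1 : t ≤ 1) : ‖Div_L t‖ ≤ 1 := by
  refine ContinuousLinearMap.opNorm_le_bound _ zero_le_one fun w => ?_
  rw [one_mul]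
  exact Div_norm_L_apply h0 h1 w

/-- the `n`-th term after composition with `Div_L t` -/
private def Div_A {n : ℕ} (P : ContinuousMultilinearMap ℂ (fun _ : Fin n => ℂ × ℂ) E) (t : ℝ) :
    ContinuousMultilinearMap ℂ (fun _ : Fin n => ℂ × ℂ) E :=
  P.compContinuousLinearMap (fun _ => Div_L t)

omit [CompleteSpace E] in
private theorem Div_A_cont {n : ℕ}
    (P : ContinuousMultilinearMap ℂ (fun _ : Fin n => ℂ × ℂ) E) : Continuous (Div_A P) := by
  have h : Div_A P = fun t => P.compContinuousLinearMapLRight (E := fun _ : Fin n => ℂ × ℂ)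
      (fun _ => Div_L t) := rfl
  rw [h]
  exact (P.compContinuousLinearMapLRight (E := fun _ : Fin n => ℂ × ℂ)).cont.comp
    (continuous_pi fun _ => Div_L_cont)

omit [CompleteSpace E] in
private theorem Div_norm_A {n : ℕ} (P : ContinuousMultilinearMap ℂ (fun _ : Fin n => ℂ × ℂ) E)
    {t : ℝ} (h0 : 0 ≤ t) (h1 : t ≤ 1) : ‖Div_A P t‖ ≤ ‖P‖ := by
  refine (ContinuousMultilinearMap.norm_compContinuousLinearMap_le _ _).trans ?_
  refine mul_le_of_le_one_right (norm_nonneg _) ?_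
  exact Finset.prod_le_one (fun _ _ => norm_nonneg _) fun _ _ => Div_norm_L h0 h1

/-- the series of the quotient -/
private def Div_q (Q : FormalMultilinearSeries ℂ (ℂ × ℂ) E) : FormalMultilinearSeries ℂ (ℂ × ℂ) E :=
  fun n => ∫ t in (0 : ℝ)..1, Div_A (Q n) t

omit [CompleteSpace E] in
private theorem Div_norm_q (Q : FormalMultilinearSeries ℂ (ℂ × ℂ) E) (n : ℕ) :
    ‖Div_q Q n‖ ≤ ‖Q n‖ := by
  have h := intervalIntegral.norm_integral_le_of_norm_le_const (a := (0 : ℝ)) (b := 1)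
    (f := Div_A (Q n)) (C := ‖Q n‖) (fun t ht => by
      rw [Set.uIoc_of_le zero_le_one] at ht
      exact Div_norm_A (Q n) ht.1.le ht.2)
  rw [sub_zero, abs_one, mul_one] at h
  exact h

private theorem Div_q_apply (Q : FormalMultilinearSeries ℂ (ℂ × ℂ) E) (n : ℕ) (w : ℂ × ℂ) :
    Div_q Q n (fun _ => w) = ∫ t in (0 : ℝ)..1, Q n (fun _ => Div_L t w) := by
  have h := (ContinuousMultilinearMap.apply ℂ (fun _ : Fin n => ℂ × ℂ) E
    (fun _ => w)).intervalIntegral_comp_comm (a := (0 : ℝ)) (b := 1) (μ := MeasureTheory.volume)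
    (f := Div_A (Q n)) ((Div_A_cont (Q n)).intervalIntegrable 0 1)
  exact h.symm

/-- the sum of the series of the quotient is the parameter integral -/
private theorem Div_sum {D : ℂ × ℂ → E} {Q : FormalMultilinearSeries ℂ (ℂ × ℂ) E} {r : ENNReal}
    (hQ : HasFPowerSeriesOnBall D Q 0 r) {w : ℂ × ℂ} (hw : w ∈ Metric.eball (0 : ℂ × ℂ) r) :
    HasSum (fun n => Div_q Q n (fun _ => w)) (∫ t in (0 : ℝ)..1, D (Div_L t w)) := by
  have hwr : (‖w‖₊ : ENNReal) < Q.radius := by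
    have h1 : (‖w‖₊ : ENNReal) < r := by
      have := Metric.mem_eball.1 hw
      rwa [edist_zero_right] at this
    exact lt_of_lt_of_le h1 hQ.r_le
  have hsum : Summable fun n => ‖Q n‖ * (‖w‖₊ : ℝ) ^ n := Q.summable_norm_mul_pow hwr
  simp only [Div_q_apply]
  refine intervalIntegral.hasSum_integral_of_dominated_convergence
    (fun n _ => ‖Q n‖ * (‖w‖₊ : ℝ) ^ n) ?_ ?_ ?_ ?_ ?_
  · intro n
    have hc : Continuous fun t : ℝ => Q n (fun _ => Div_L t w) := by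
      refine (Q n).cont.comp (continuous_pi fun _ => ?_)
      exact Div_L_cont.clm_apply continuous_const
    exact hc.aestronglyMeasurable
  · intro n
    refine Filter.Eventually.of_forall fun t ht => ?_
    rw [Set.uIoc_of_le zero_le_one] at ht
    refine ((Q n).le_opNorm _).trans ?_
    refine mul_le_mul_of_nonneg_left ?_ (norm_nonneg _)
    rw [Finset.prod_const, Finset.card_univ, Fintype.card_fin, coe_nnnorm]
    exact pow_le_pow_left₀ (norm_nonneg _) (Div_norm_L_apply ht.1.le ht.2 w) n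
  · exact Filter.Eventually.of_forall fun t _ => hsum
  · exact intervalIntegrable_const
  · refine Filter.Eventually.of_forall fun t ht => ?_
    rw [Set.uIoc_of_le zero_le_one] at ht
    have hm : Div_L t w ∈ Metric.eball (0 : ℂ × ℂ) r := by
      rw [Metric.mem_eball, edist_zero_right] at hw ⊢
      refine lt_of_le_of_lt ?_ hw
      rw [← ofReal_norm, ← ofReal_norm]
      exact ENNReal.ofReal_le_ofReal (Div_norm_L_apply ht.1.le ht.2 w)
    have h := hQ.hasSum hm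
    rw [zero_add] at h
    exact h

theorem exists_div_x {f : ℂ × ℂ → E} (hf : AnalyticAt ℂ f 0) (h : ∀ᶠ y in 𝓝 (0 : ℂ), f (0, y) = 0) :
    ∃ g : ℂ × ℂ → E, AnalyticAt ℂ g 0 ∧ ∀ᶠ x in 𝓝 (0 : ℂ × ℂ), f x = x.1 • g x := by
  obtain ⟨p, r, hp⟩ := hf
  have hD := (ContinuousLinearMap.apply ℂ E ((1 : ℂ), (0 : ℂ))).comp_hasFPowerSeriesOnBall hp.fderiv
  set Q : FormalMultilinearSeries ℂ (ℂ × ℂ) E :=
    (ContinuousLinearMap.apply ℂ E ((1 : ℂ), (0 : ℂ))).compFormalMultilinearSeries p.derivSeries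
    with hQdef
  set D : ℂ × ℂ → E := (ContinuousLinearMap.apply ℂ E ((1 : ℂ), (0 : ℂ))) ∘ fderiv ℂ f with hDdef
  have hrad : Q.radius ≤ (Div_q Q).radius := FormalMultilinearSeries.radius_le_of_le (Div_norm_q Q)
  have hpos : 0 < (Div_q Q).radius := lt_of_lt_of_le (lt_of_lt_of_le hD.r_pos hD.r_le) hrad
  have hg := (Div_q Q).hasFPowerSeriesOnBall hpos
  refine ⟨(Div_q Q).sum, hg.analyticAt, ?_⟩
  have h2 : ∀ᶠ w in 𝓝 (0 : ℂ × ℂ), f (0, w.2) = 0 := by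
    have h3 : Tendsto (fun w : ℂ × ℂ => w.2) (𝓝 (0 : ℂ × ℂ)) (𝓝 (0 : ℂ)) :=
      continuous_snd.tendsto' _ _ rfl
    exact h3.eventually h
  filter_upwards [Metric.eball_mem_nhds (0 : ℂ × ℂ) hp.r_pos, h2] with w hw hw0
  have hball : ∀ t ∈ Set.uIcc (0 : ℝ) 1, Div_L t w ∈ Metric.eball (0 : ℂ × ℂ) r := by
    intro t ht
    rw [Set.uIcc_of_le zero_le_one] at ht
    rw [Metric.mem_eball, edist_zero_right] at hw ⊢
    refine lt_of_le_of_lt ?_ hw
    rw [← ofReal_norm, ← ofReal_norm]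
    exact ENNReal.ofReal_le_ofReal (Div_norm_L_apply ht.1 ht.2 w)
  have hsum : (Div_q Q).sum w = ∫ t in (0 : ℝ)..1, D (Div_L t w) :=
    (Div_sum hD hw).tsum_eq
  have hderiv : ∀ t ∈ Set.uIcc (0 : ℝ) 1,
      HasDerivAt (fun t : ℝ => f (Div_L t w)) (w.1 • D (Div_L t w)) t := by
    intro t ht
    have e1 : HasFDerivAt f (fderiv ℂ f (Div_L t w)) (Div_L t w) :=
      (hp.analyticAt_of_mem (hball t ht)).differentiableAt.hasFDerivAt
    have e2 : HasDerivAt (fun t : ℝ => Div_L t w) ((w.1, 0) : ℂ × ℂ) t := by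
      have e3 : HasDerivAt (fun t : ℝ => (t : ℂ) * w.1) (1 * w.1) t :=
        (Complex.ofRealCLM.hasDerivAt (x := t)).mul_const w.1
      rw [one_mul] at e3
      exact e3.prodMk (hasDerivAt_const t w.2)
    have e4 := (e1.restrictScalars ℝ).comp_hasDerivAt t e2
    have e5 : ((fderiv ℂ f (Div_L t w)).restrictScalars ℝ) ((w.1, 0) : ℂ × ℂ) =
        w.1 • D (Div_L t w) := by
      have e6 : ((w.1, 0) : ℂ × ℂ) = w.1 • ((1 : ℂ), (0 : ℂ)) := by
        rw [Prod.smul_mk, smul_eq_mul, smul_eq_mul, mul_one, mul_zero]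
      rw [ContinuousLinearMap.coe_restrictScalars', e6, map_smul]
      rfl
    rw [e5] at e4
    exact e4
  have hcont : ContinuousOn (fun t : ℝ => w.1 • D (Div_L t w)) (Set.uIcc 0 1) := by
    refine ContinuousOn.const_smul ?_ _
    refine hD.continuousOn.comp ?_ hball
    exact (Div_L_cont.clm_apply continuous_const).continuousOn
  have hftc := intervalIntegral.integral_eq_sub_of_hasDerivAt hderiv hcont.intervalIntegrable
  rw [intervalIntegral.integral_smul] at hftc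
  rw [hsum, hftc]
  have e7 : Div_L 1 w = w := by
    rw [Div_L_apply, Complex.ofReal_one, one_mul]
  have e8 : Div_L 0 w = (0, w.2) := by
    rw [Div_L_apply, Complex.ofReal_zero, zero_mul]
  rw [e7, e8, hw0, sub_zero]

/-- The same with the second variable (apply `exists_div_x` to `f ∘ Prod.swap`). -/
theorem exists_div_y {f : ℂ × ℂ → E} (hf : AnalyticAt ℂ f 0) (h : ∀ᶠ x in 𝓝 (0 : ℂ), f (x, 0) = 0) :
    ∃ g : ℂ × ℂ → E, AnalyticAt ℂ g 0 ∧ ∀ᶠ x in 𝓝 (0 : ℂ × ℂ), f x = x.2 • g x := by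
  have hs : AnalyticAt ℂ (fun w : ℂ × ℂ => (w.2, w.1)) 0 := analyticAt_snd.prod analyticAt_fst
  have hf' : AnalyticAt ℂ (fun w : ℂ × ℂ => f (w.2, w.1)) 0 := by
    refine AnalyticAt.fun_comp (g := f) (f := fun w : ℂ × ℂ => (w.2, w.1)) ?_ hs
    exact hf
  obtain ⟨g, hg, hfg⟩ := exists_div_x (f := fun w : ℂ × ℂ => f (w.2, w.1)) hf' h
  refine ⟨fun w => g (w.2, w.1), ?_, ?_⟩
  · refine AnalyticAt.fun_comp (g := g) (f := fun w : ℂ × ℂ => (w.2, w.1)) ?_ hs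
    exact hg
  · have ht : Tendsto (fun w : ℂ × ℂ => (w.2, w.1)) (𝓝 (0 : ℂ × ℂ)) (𝓝 (0 : ℂ × ℂ)) :=
      (continuous_snd.prodMk continuous_fst).tendsto' _ _ rfl
    exact ht.eventually hfg

end Pool.Agent.H17BP

end
end

section

/-!
# The charts of the blow-up, up to coordinate changes

Proof of `bchart_class`.  By definition `β = θ₁ ∘ bl 0 ∘ θ₂`; it is enough to write `θ₁ ∘ bl 0` as `bl c ∘ θ'` or
`blInf ∘ θ'` (then compose with `θ₂`).  Let `θ₁ = (A, B)`, so `A 0 = B 0 = 0` and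
`d := dx A 0 * dy B 0 - dy A 0 * dx B 0 ≠ 0` (`coord_iff`).  The functions `A (x, x w)`, `B (x, x w)` vanish for
`x = 0`, so (`exists_div_x`) they are `x A₁(x, w)`, `x B₁(x, w)`, and by differentiating in `x` at `x = 0`:
`A₁ (0, w) = dx A 0 + w dy A 0`, `B₁ (0, w) = dx B 0 + w dy B 0`.
If `A₁ 0 ≠ 0`: `c = B₁ 0 / A₁ 0`, `θ' = (x A₁, B₁ / A₁ - c)`: `bl c θ' = (x A₁, x A₁ (B₁ / A₁)) = θ₁ (x, x w)`, and
`θ'` is `Bihol` by `coord_iff`: its derivative matrix at `0` is `((A₁ 0, 0), (*, d / (A₁ 0)²))`.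
If `A₁ 0 = dx A 0 = 0`: `B₁ 0 = dx B 0 ≠ 0`, `θ' = (A₁ / B₁, x B₁)`, `blInf θ' = (x A₁, x B₁)`, determinant
`- (dy A 0 / B₁ 0) * B₁ 0 = - dy A 0 ≠ 0`.
-/

open Topology Filter

noncomputable section

namespace Pool.Agent.H17BP

attribute [-instance] ProperSMul.toContinuousSMul

private theorem ChartC_derX {f : ℂ × ℂ → ℂ} (hf : AnalyticAt ℂ f 0) :
    HasDerivAt (fun t : ℂ => f (t, 0)) (dx f 0) 0 := by
  have h1 : HasDerivAt (fun t : ℂ => (t, (0 : ℂ))) ((1 : ℂ), (0 : ℂ)) 0 :=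
    (hasDerivAt_id (0 : ℂ)).prodMk (hasDerivAt_const (0 : ℂ) (0 : ℂ))
  have h2 : HasFDerivAt f (fderiv ℂ f 0) ((fun t : ℂ => (t, (0 : ℂ))) 0) := hf.differentiableAt.hasFDerivAt
  exact HasFDerivAt.comp_hasDerivAt (f := fun t : ℂ => (t, (0 : ℂ))) (0 : ℂ) h2 h1

private theorem ChartC_derY {f : ℂ × ℂ → ℂ} (hf : AnalyticAt ℂ f 0) :
    HasDerivAt (fun w : ℂ => f (0, w)) (dy f 0) 0 := by
  have h1 : HasDerivAt (fun w : ℂ => ((0 : ℂ), w)) ((0 : ℂ), (1 : ℂ)) 0 :=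
    (hasDerivAt_const (0 : ℂ) (0 : ℂ)).prodMk (hasDerivAt_id (0 : ℂ))
  have h2 : HasFDerivAt f (fderiv ℂ f 0) ((fun w : ℂ => ((0 : ℂ), w)) 0) := hf.differentiableAt.hasFDerivAt
  exact HasFDerivAt.comp_hasDerivAt (f := fun w : ℂ => ((0 : ℂ), w)) (0 : ℂ) h2 h1

/-- the strict transform of a function in the chart `bl 0` -/
private theorem ChartC_div {A : ℂ × ℂ → ℂ} (hA : AnalyticAt ℂ A 0) (hA0 : A 0 = 0) :
    ∃ A₁ : ℂ × ℂ → ℂ, AnalyticAt ℂ A₁ 0 ∧ (∀ᶠ x in 𝓝 (0 : ℂ × ℂ), A (bl 0 x) = x.1 * A₁ x) ∧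
      ∀ᶠ w in 𝓝 (0 : ℂ), A₁ (0, w) = dx A 0 + w * dy A 0 := by
  have hcomp : AnalyticAt ℂ (fun x => A (bl 0 x)) 0 := by
    have h1 : AnalyticAt ℂ A (bl 0 0) := by rw [bl_zero]; exact hA
    exact h1.comp (analyticAt_bl 0 0)
  obtain ⟨A₁, h1, h2⟩ := exists_div_x hcomp (Eventually.of_forall fun y => by
    change A (bl 0 (0, y)) = 0
    have : bl 0 ((0 : ℂ), y) = 0 := by
      unfold bl
      simp
    rw [this, hA0])
  refine ⟨A₁, h1, h2, ?_⟩
  have hc : Tendsto (fun w : ℂ => ((0 : ℂ), w)) (𝓝 0) (𝓝 (0 : ℂ × ℂ)) := by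
    have : Continuous (fun w : ℂ => ((0 : ℂ), w)) := by fun_prop
    exact this.tendsto' 0 0 rfl
  have h3 := hc.eventually h2.eventually_nhds
  have h4 := hc.eventually h1.eventually_analyticAt
  filter_upwards [h3, h4] with w hw3 hw4
  -- two derivatives in `t`
  have hc' : Tendsto (fun t : ℂ => (t, w)) (𝓝 0) (𝓝 ((0 : ℂ), w)) := by
    have : Continuous (fun t : ℂ => (t, w)) := by fun_prop
    exact this.tendsto' 0 _ rfl
  have h5 := hc'.eventually hw3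
  have hd1 : HasDerivAt (fun t : ℂ => A₁ (t, w)) (fderiv ℂ A₁ (0, w) (1, 0)) 0 := by
    have h6 : HasDerivAt (fun t : ℂ => (t, w)) ((1 : ℂ), (0 : ℂ)) 0 :=
      (hasDerivAt_id (0 : ℂ)).prodMk (hasDerivAt_const (0 : ℂ) w)
    have h7 : HasFDerivAt A₁ (fderiv ℂ A₁ (0, w)) ((fun t : ℂ => (t, w)) 0) := hw4.differentiableAt.hasFDerivAt
    exact HasFDerivAt.comp_hasDerivAt (f := fun t : ℂ => (t, w)) (0 : ℂ) h7 h6
  have hd2 : HasDerivAt (fun t : ℂ => t * A₁ (t, w)) (A₁ (0, w)) 0 := by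
    have h8 : HasDerivAt (fun t : ℂ => t * A₁ (t, w)) (1 * A₁ (0, w) + 0 * fderiv ℂ A₁ (0, w) (1, 0)) 0 :=
      (hasDerivAt_id (0 : ℂ)).mul hd1
    rwa [one_mul, zero_mul, add_zero] at h8
  have hd3 : HasDerivAt (fun t : ℂ => A (bl 0 (t, w))) (A₁ (0, w)) 0 := by
    refine hd2.congr_of_eventuallyEq ?_
    filter_upwards [h5] with t ht
    exact ht
  have hd4 : HasDerivAt (fun t : ℂ => A (bl 0 (t, w))) (fderiv ℂ A 0 (1, w)) 0 := by
    have h6 : HasDerivAt (fun t : ℂ => bl 0 (t, w)) ((1 : ℂ), w) 0 := by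
      have h7 : HasDerivAt (fun t : ℂ => t * (0 + w)) (1 * (0 + w)) 0 := (hasDerivAt_id (0 : ℂ)).mul_const (0 + w)
      have h8 : HasDerivAt (fun t : ℂ => (t, t * (0 + w))) ((1 : ℂ), 1 * (0 + w)) 0 :=
        (hasDerivAt_id (0 : ℂ)).prodMk h7
      have h9 : ((1 : ℂ), w) = ((1 : ℂ), 1 * (0 + w)) := by rw [one_mul, zero_add]
      rw [h9]
      exact h8
    have h7 : HasFDerivAt A (fderiv ℂ A 0) ((fun t : ℂ => bl 0 (t, w)) 0) := by
      have h8 : bl 0 ((0 : ℂ), w) = 0 := by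
        unfold bl
        simp
      change HasFDerivAt A (fderiv ℂ A 0) (bl 0 ((0 : ℂ), w))
      rw [h8]
      exact hA.differentiableAt.hasFDerivAt
    exact HasFDerivAt.comp_hasDerivAt (f := fun t : ℂ => bl 0 (t, w)) (0 : ℂ) h7 h6
  rw [hd3.unique hd4]
  have h9 : ((1 : ℂ), w) = (1, 0) + w • ((0 : ℂ), (1 : ℂ)) := by
    ext <;> simp
  rw [h9, map_add, map_smul]
  rfl

private theorem ChartC_core {θ₁ : ℂ × ℂ → ℂ × ℂ} (h : Bihol θ₁) : ∃ θ : ℂ × ℂ → ℂ × ℂ, Bihol θ ∧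
    ((∃ c : ℂ, ∀ᶠ x in 𝓝 0, θ₁ (bl 0 x) = bl c (θ x)) ∨ ∀ᶠ x in 𝓝 0, θ₁ (bl 0 x) = blInf (θ x)) := by
  have hco : Coord (fun x => (θ₁ x).1) (fun x => (θ₁ x).2) := h
  obtain ⟨hA, hB, hA0, hB0⟩ := hco.parts
  have hd := (coord_iff hA hB hA0 hB0).1 hco
  obtain ⟨A₁, a1, a2, a3⟩ := ChartC_div hA hA0
  obtain ⟨B₁, b1, b2, b3⟩ := ChartC_div hB hB0
  generalize hpa : dx (fun x => (θ₁ x).1) 0 = pa at *
  generalize hqa : dy (fun x => (θ₁ x).1) 0 = qa at *
  generalize hpb : dx (fun x => (θ₁ x).2) 0 = pb at *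
  generalize hqb : dy (fun x => (θ₁ x).2) 0 = qb at *
  have a4 : A₁ 0 = pa := by
    have := a3.self_of_nhds
    rwa [zero_mul, add_zero] at this
  have b4 : B₁ 0 = pb := by
    have := b3.self_of_nhds
    rwa [zero_mul, add_zero] at this
  -- the derivative of an affine function
  have haff : ∀ p q : ℂ, HasDerivAt (fun w : ℂ => p + w * q) q 0 := by
    intro p q
    have := ((hasDerivAt_id (0 : ℂ)).mul_const q).const_add p
    simpa using this
  -- the derivative of a product with `x`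
  have hprod : ∀ {C : ℂ × ℂ → ℂ}, AnalyticAt ℂ C 0 → dx (fun x => x.1 * C x) 0 = C 0 ∧ dy (fun x => x.1 * C x) 0 = 0 := by
    intro C hC
    have hS : AnalyticAt ℂ (fun x : ℂ × ℂ => x.1 * C x) 0 := analyticAt_fst.mul hC
    constructor
    · refine (ChartC_derX hS).unique ?_
      have h1 := (hasDerivAt_id (0 : ℂ)).mul (ChartC_derX hC)
      have h2 : (1 : ℂ) * C (0, 0) + id (0 : ℂ) * dx C 0 = C 0 := by
        rw [one_mul, id, zero_mul, add_zero]
        rfl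
      rw [← h2]
      exact h1
    · refine (ChartC_derY hS).unique ?_
      have h1 : (fun w : ℂ => ((0 : ℂ), w).1 * C (0, w)) = fun _ => 0 := by
        funext w
        simp
      rw [h1]
      exact hasDerivAt_const _ _
  by_cases hz : pa = 0
  · -- the point at infinity
    have hpb0 : pb ≠ 0 := by
      intro h0
      apply hd
      rw [hz, h0]
      ring
    have hqa0 : qa ≠ 0 := by
      intro h0
      apply hd
      rw [hz, h0]
      ring
    have hB1 : B₁ 0 ≠ 0 := by rw [b4]; exact hpb0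
    have hS : AnalyticAt ℂ (fun x => A₁ x / B₁ x) 0 := a1.div b1 hB1
    have hT : AnalyticAt ℂ (fun x : ℂ × ℂ => x.1 * B₁ x) 0 := analyticAt_fst.mul b1
    have hSy : dy (fun x => A₁ x / B₁ x) 0 = qa / pb := by
      refine (ChartC_derY hS).unique ?_
      have h1 := (haff pa qa).div (haff pb qb) (by simpa using hpb0)
      have h2 : HasDerivAt (fun w : ℂ => (pa + w * qa) / (pb + w * qb)) (qa / pb) 0 := by
        refine h1.congr_deriv ?_
        rw [hz]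
        simp only [zero_mul, add_zero, sub_zero]
        field_simp
      refine h2.congr_of_eventuallyEq ?_
      filter_upwards [a3, b3] with w hwa hwb
      rw [hwa, hwb]
    have hθ : Coord (fun x => A₁ x / B₁ x) (fun x : ℂ × ℂ => x.1 * B₁ x) := by
      rw [coord_iff hS hT (by rw [a4, hz, zero_div]) (by simp)]
      rw [(hprod b1).2, (hprod b1).1, hSy, b4]
      intro h0
      apply hqa0
      field_simp at h0
      simpa using h0
    refine ⟨fun x => (A₁ x / B₁ x, x.1 * B₁ x), hθ, Or.inr ?_⟩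
    filter_upwards [a2, b2, b1.continuousAt.eventually_ne hB1] with x h1 h2 h3
    unfold blInf
    ext
    · change (θ₁ (bl 0 x)).1 = A₁ x / B₁ x * (x.1 * B₁ x)
      rw [h1]
      field_simp
    · exact h2
  · -- a finite point
    have hA1 : A₁ 0 ≠ 0 := by rw [a4]; exact hz
    have hS : AnalyticAt ℂ (fun x : ℂ × ℂ => x.1 * A₁ x) 0 := analyticAt_fst.mul a1
    have hT : AnalyticAt ℂ (fun x => B₁ x / A₁ x - pb / pa) 0 := (b1.div a1 hA1).sub analyticAt_const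
    have hTy : dy (fun x => B₁ x / A₁ x - pb / pa) 0 = (pa * qb - qa * pb) / pa ^ 2 := by
      refine (ChartC_derY hT).unique ?_
      have h1 := ((haff pb qb).div (haff pa qa) (by simpa using hz)).sub_const (pb / pa)
      have h2 : HasDerivAt (fun w : ℂ => (pb + w * qb) / (pa + w * qa) - pb / pa) ((pa * qb - qa * pb) / pa ^ 2) 0 := by
        refine h1.congr_deriv ?_
        simp only [zero_mul, add_zero]
        ring
      refine h2.congr_of_eventuallyEq ?_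
      filter_upwards [a3, b3] with w hwa hwb
      rw [hwa, hwb]
    have hθ : Coord (fun x : ℂ × ℂ => x.1 * A₁ x) (fun x => B₁ x / A₁ x - pb / pa) := by
      rw [coord_iff hS hT (by simp) (by rw [a4, b4, sub_self])]
      rw [(hprod a1).1, (hprod a1).2, hTy, a4, zero_mul, sub_zero]
      exact mul_ne_zero hz (div_ne_zero hd (pow_ne_zero 2 hz))
    refine ⟨fun x => (x.1 * A₁ x, B₁ x / A₁ x - pb / pa), hθ, Or.inl ⟨pb / pa, ?_⟩⟩
    filter_upwards [a2, b2, a1.continuousAt.eventually_ne hA1] with x h1 h2 h3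
    unfold bl at *
    ext
    · exact h1
    · change (θ₁ (x.1, x.1 * (0 + x.2))).2 = x.1 * A₁ x * (pb / pa + (B₁ x / A₁ x - pb / pa))
      rw [h2]
      field_simp
      ring

theorem bchart_class {β : ℂ × ℂ → ℂ × ℂ} (h : BChart β) : ∃ θ : ℂ × ℂ → ℂ × ℂ, Bihol θ ∧
    ((∃ c : ℂ, ∀ᶠ x in 𝓝 0, β x = bl c (θ x)) ∨ ∀ᶠ x in 𝓝 0, β x = blInf (θ x)) := by
  obtain ⟨θ₁, θ₂, h1, h2, h3⟩ := h
  obtain ⟨θ, h4, h5⟩ := ChartC_core h1
  refine ⟨θ ∘ θ₂, h4.comp h2, ?_⟩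
  rcases h5 with ⟨c, h5⟩ | h5
  · refine Or.inl ⟨c, ?_⟩
    filter_upwards [h3, h2.tendsto.eventually h5] with x hx hx'
    rw [hx, hx']
    rfl
  · refine Or.inr ?_
    filter_upwards [h3, h2.tendsto.eventually h5] with x hx hx'
    rw [hx, hx']
    rfl

/-- `bl c = (linear map) ∘ bl 0`, `blInf = swap ∘ bl 0 ∘ swap`. -/
theorem bchart_bl (c : ℂ) : BChart (bl c) := by
  refine ⟨fun x => (x.1, x.2 + c * x.1), fun x => x, ?_, Bihol.id, Eventually.of_forall fun x => ?_⟩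
  · refine ⟨?_, by simp, fun x => (x.1, x.2 - c * x.1), ?_, by simp, Eventually.of_forall fun x => by simp,
      Eventually.of_forall fun x => by simp⟩
    · exact analyticAt_fst.prod (analyticAt_snd.add (analyticAt_const.mul analyticAt_fst))
    · exact analyticAt_fst.prod (analyticAt_snd.sub (analyticAt_const.mul analyticAt_fst))
  · unfold bl
    ext
    · rfl
    · simp only
      ring

theorem bchart_blInf : BChart blInf := by
  have hsw : Bihol (fun x : ℂ × ℂ => (x.2, x.1)) :=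
    ⟨analyticAt_snd.prod analyticAt_fst, rfl, fun x => (x.2, x.1), analyticAt_snd.prod analyticAt_fst, rfl,
      Eventually.of_forall fun _ => rfl, Eventually.of_forall fun _ => rfl⟩
  refine ⟨fun x => (x.2, x.1), fun x => (x.2, x.1), hsw, hsw, Eventually.of_forall fun x => ?_⟩
  unfold bl blInf
  ext
  · simp only
    ring
  · rfl

end Pool.Agent.H17BP

end
end

section

/-!
# The exceptional curves in the charts of the blow-up

Let `D₁, D₂` be local coordinates.  `D₁ ∘ bl c = x E₁`, `D₂ ∘ bl c = x E₂` (`exists_div_x`), with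
`E_i (0, w) = dx D_i 0 + (c + w) dy D_i 0`, so `E_i 0 = dx D_i 0 + c dy D_i 0` and `dy E_i 0 = dy D_i 0`.  Not both
`E_i 0` vanish and if `E_1 0 = 0` then `dy D_1 0 ≠ 0` (otherwise also `dx D_1 0 = 0`), so `(x, E₁)` are local
coordinates (`coord_iff`: `dx x = 1, dy x = 0`, determinant `dy E₁ 0 ≠ 0`).  So:
* `E₁ 0 ≠ 0`, `E₂ 0 ≠ 0`: take `D = x.2`, `b' = 0`, `u = E₁ ^ a E₂ ^ b`;
* `E₁ 0 = 0`: `D = E₁`, `b' = a`, `u = E₂ ^ b`;
* `E₂ 0 = 0`: `D = E₂`, `b' = b`, `u = E₁ ^ a`.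
For `blInf` use `blInf = swap ∘ bl 0 ∘ swap` and the coordinates `D_i ∘ swap`.
-/

open Topology Filter

noncomputable section

namespace Pool.Agent.H17BP

attribute [-instance] ProperSMul.toContinuousSMul

private theorem DBlow_lin (D : ℂ × ℂ → ℂ) (k : ℂ) :
    fderiv ℂ D 0 (1, k) = dx D 0 + k * dy D 0 := by
  have h1 : ((1, k) : ℂ × ℂ) = (1, 0) + k • ((0, 1) : ℂ × ℂ) := by
    ext <;> simp
  rw [h1, map_add, map_smul, smul_eq_mul]
  rfl

private theorem DBlow_div {D : ℂ × ℂ → ℂ} (hD : AnalyticAt ℂ D 0) (hD0 : D 0 = 0) (c : ℂ) :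
    ∃ E : ℂ × ℂ → ℂ, AnalyticAt ℂ E 0 ∧ (∀ᶠ x in 𝓝 (0 : ℂ × ℂ), D (bl c x) = x.1 * E x) ∧
      E 0 = dx D 0 + c * dy D 0 ∧ dy E 0 = dy D 0 := by
  have hbl0 : ∀ y : ℂ, bl c (0, y) = 0 := by
    intro y
    simp [bl]
  have hf : AnalyticAt ℂ (fun x => D (bl c x)) 0 := by
    have h1 : AnalyticAt ℂ D (bl c 0) := by rw [bl_zero]; exact hD
    exact h1.comp (analyticAt_bl c 0)
  obtain ⟨E, hE, hfE⟩ := exists_div_x hf (Eventually.of_forall fun y => by
    change D (bl c (0, y)) = 0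
    rw [hbl0, hD0])
  have hfE' : ∀ᶠ x in 𝓝 (0 : ℂ × ℂ), D (bl c x) = x.1 * E x := hfE
  have hcur : Tendsto (fun w : ℂ => ((0, w) : ℂ × ℂ)) (𝓝 0) (𝓝 0) := by
    have : Continuous fun w : ℂ => ((0, w) : ℂ × ℂ) := by fun_prop
    exact this.tendsto' 0 0 rfl
  have hline : ∀ᶠ w in 𝓝 (0 : ℂ), E (0, w) = dx D 0 + (c + w) * dy D 0 := by
    filter_upwards [hcur.eventually hfE'.eventually_nhds, hcur.eventually hE.eventually_analyticAt]
      with w h1 h2
    -- the derivative of `t ↦ D (bl c (t, w))` at `0`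
    have hγ : HasDerivAt (fun t : ℂ => bl c (t, w)) (1, c + w) 0 := by
      have h3 : HasDerivAt (fun t : ℂ => t) 1 (0 : ℂ) := hasDerivAt_id 0
      have h4 : HasDerivAt (fun t : ℂ => t * (c + w)) (c + w) (0 : ℂ) := by
        simpa using h3.mul_const (c + w)
      exact h3.prodMk h4
    have hD1 : HasFDerivAt D (fderiv ℂ D 0) (bl c (0, w)) := by
      rw [hbl0]
      exact hD.differentiableAt.hasFDerivAt
    have h5 : HasDerivAt (fun t : ℂ => D (bl c (t, w))) (fderiv ℂ D 0 (1, c + w)) 0 :=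
      hD1.comp_hasDerivAt (0 : ℂ) hγ
    -- the derivative of `t ↦ t * E (t, w)`
    have hδ : HasDerivAt (fun t : ℂ => ((t, w) : ℂ × ℂ)) (1, 0) 0 :=
      (hasDerivAt_id 0).prodMk (hasDerivAt_const (0 : ℂ) w)
    have h6 : HasDerivAt (fun t : ℂ => E (t, w)) (fderiv ℂ E (0, w) (1, 0)) 0 :=
      (h2.differentiableAt.hasFDerivAt).comp_hasDerivAt (0 : ℂ) hδ
    have h7 : HasDerivAt (fun t : ℂ => t * E (t, w)) (1 * E (0, w) + 0 * fderiv ℂ E (0, w) (1, 0)) 0 :=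
      (hasDerivAt_id (0 : ℂ)).mul h6
    have h8 : (fun t : ℂ => t * E (t, w)) =ᶠ[𝓝 0] fun t : ℂ => D (bl c (t, w)) := by
      have h9 : Tendsto (fun t : ℂ => ((t, w) : ℂ × ℂ)) (𝓝 0) (𝓝 (0, w)) := by
        have : Continuous fun t : ℂ => ((t, w) : ℂ × ℂ) := by fun_prop
        exact this.tendsto' 0 (0, w) rfl
      filter_upwards [h9.eventually h1] with t ht
      exact ht.symm
    have h10 := (h5.congr_of_eventuallyEq h8).unique h7
    rw [DBlow_lin] at h10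
    rw [h10]
    ring
  refine ⟨E, hE, hfE', ?_, ?_⟩
  · have h1 : E (0, 0) = dx D 0 + (c + 0) * dy D 0 := hline.self_of_nhds
    rw [add_zero] at h1
    exact h1
  · have hδ : HasDerivAt (fun t : ℂ => ((0, t) : ℂ × ℂ)) (0, 1) 0 :=
      (hasDerivAt_const (0 : ℂ) 0).prodMk (hasDerivAt_id 0)
    have h1 : HasDerivAt (fun t : ℂ => E (0, t)) (fderiv ℂ E 0 (0, 1)) 0 :=
      (hE.differentiableAt.hasFDerivAt (x := ((0, 0) : ℂ × ℂ))).comp_hasDerivAt (0 : ℂ) hδ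
    have h2 : HasDerivAt (fun t : ℂ => dx D 0 + (c + t) * dy D 0) (dy D 0) 0 := by
      have h3 := (((hasDerivAt_id (0 : ℂ)).const_add c).mul_const (dy D 0)).const_add (dx D 0)
      simpa using h3
    have h4 : (fun t : ℂ => dx D 0 + (c + t) * dy D 0) =ᶠ[𝓝 0] fun t : ℂ => E (0, t) :=
      hline.mono fun t ht => ht.symm
    exact (h1.congr_of_eventuallyEq h4).unique h2

private theorem DBlow_fst : dx (fun x : ℂ × ℂ => x.1) 0 = 1 ∧ dy (fun x : ℂ × ℂ => x.1) 0 = 0 := by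
  constructor
  · unfold dx
    rw [show (fun x : ℂ × ℂ => x.1) = Prod.fst from rfl, fderiv_fst]
    rfl
  · unfold dy
    rw [show (fun x : ℂ × ℂ => x.1) = Prod.fst from rfl, fderiv_fst]
    rfl

private theorem DBlow_coord {E : ℂ × ℂ → ℂ} (hE : AnalyticAt ℂ E 0) (h0 : E 0 = 0) (h1 : dy E 0 ≠ 0) :
    Coord (fun x => x.1) E := by
  rw [coord_iff analyticAt_fst hE rfl h0, DBlow_fst.1, DBlow_fst.2, one_mul, zero_mul, sub_zero]
  exact h1

theorem mono_bl {D₁ D₂ : ℂ × ℂ → ℂ} (h : Coord D₁ D₂) (a b : ℕ) (c : ℂ) :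
    ∃ (D : ℂ × ℂ → ℂ) (b' : ℕ) (u : ℂ × ℂ → ℂ), Coord (fun x => x.1) D ∧ AnalyticAt ℂ u 0 ∧ u 0 ≠ 0 ∧
      ∀ᶠ x in 𝓝 (0 : ℂ × ℂ), D₁ (bl c x) ^ a * D₂ (bl c x) ^ b = x.1 ^ (a + b) * D x ^ b' * u x := by
  obtain ⟨hA1, hA2, hz1, hz2⟩ := h.parts
  have hdet := (coord_iff hA1 hA2 hz1 hz2).1 h
  obtain ⟨E₁, hE1, hf1, hv1, hd1⟩ := DBlow_div hA1 hz1 c
  obtain ⟨E₂, hE2, hf2, hv2, hd2⟩ := DBlow_div hA2 hz2 c
  by_cases h1 : E₁ 0 = 0
  · have hy1 : dy D₁ 0 ≠ 0 := by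
      intro h3
      apply hdet
      rw [h1, h3, mul_zero, add_zero] at hv1
      rw [← hv1, h3]
      ring
    have h2 : E₂ 0 ≠ 0 := by
      intro h3
      apply hdet
      rw [h1] at hv1
      rw [h3] at hv2
      linear_combination (-(dy D₂ 0)) * hv1 + dy D₁ 0 * hv2
    refine ⟨E₁, a, fun x => E₂ x ^ b, DBlow_coord hE1 h1 (by rw [hd1]; exact hy1), hE2.pow b,
      pow_ne_zero _ h2, ?_⟩
    filter_upwards [hf1, hf2] with x hx1 hx2
    rw [hx1, hx2]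
    ring
  · by_cases h2 : E₂ 0 = 0
    · have hy2 : dy D₂ 0 ≠ 0 := by
        intro h3
        apply hdet
        rw [h2, h3, mul_zero, add_zero] at hv2
        rw [← hv2, h3]
        ring
      refine ⟨E₂, b, fun x => E₁ x ^ a, DBlow_coord hE2 h2 (by rw [hd2]; exact hy2), hE1.pow a,
        pow_ne_zero _ h1, ?_⟩
      filter_upwards [hf1, hf2] with x hx1 hx2
      rw [hx1, hx2]
      ring
    · refine ⟨fun x => x.2, 0, fun x => E₁ x ^ a * E₂ x ^ b, coord_fst_snd, (hE1.pow a).mul (hE2.pow b),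
        mul_ne_zero (pow_ne_zero _ h1) (pow_ne_zero _ h2), ?_⟩
      filter_upwards [hf1, hf2] with x hx1 hx2
      rw [hx1, hx2]
      ring

private theorem DBlow_swap : Bihol (Prod.swap : ℂ × ℂ → ℂ × ℂ) := by
  have h : AnalyticAt ℂ (Prod.swap : ℂ × ℂ → ℂ × ℂ) 0 := by
    change AnalyticAt ℂ (fun x : ℂ × ℂ => (x.2, x.1)) 0
    exact analyticAt_snd.prod analyticAt_fst
  exact ⟨h, rfl, Prod.swap, h, rfl, Eventually.of_forall fun x => Prod.swap_swap x,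
    Eventually.of_forall fun x => Prod.swap_swap x⟩

theorem mono_blInf {D₁ D₂ : ℂ × ℂ → ℂ} (h : Coord D₁ D₂) (a b : ℕ) :
    ∃ (D : ℂ × ℂ → ℂ) (b' : ℕ) (u : ℂ × ℂ → ℂ), Coord (fun x => x.2) D ∧ AnalyticAt ℂ u 0 ∧ u 0 ≠ 0 ∧
      ∀ᶠ x in 𝓝 (0 : ℂ × ℂ), D₁ (blInf x) ^ a * D₂ (blInf x) ^ b = x.2 ^ (a + b) * D x ^ b' * u x := by
  have hc : Coord (D₁ ∘ Prod.swap) (D₂ ∘ Prod.swap) := Bihol.comp h DBlow_swap
  obtain ⟨D, b', u, h1, h2, h3, h4⟩ := mono_bl hc a b 0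
  refine ⟨D ∘ Prod.swap, b', u ∘ Prod.swap, Bihol.comp h1 DBlow_swap, ?_, h3, ?_⟩
  · have h5 : AnalyticAt ℂ u (Prod.swap (0 : ℂ × ℂ)) := h2
    exact h5.comp DBlow_swap.an
  · filter_upwards [DBlow_swap.tendsto.eventually h4] with x hx
    have h6 : Prod.swap (bl 0 (Prod.swap x)) = blInf x := by
      unfold bl blInf
      simp [mul_comm]
    simp only [Function.comp_apply, h6] at hx ⊢
    exact hx

end Pool.Agent.H17BP

end
end

section

/-!
# The implicit function theorem for a smooth germ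

`F 0 = 0`, `dx F 0 ≠ 0`.  `(F, y)` are local coordinates (`coord_iff`), let `(X(z, y), y')` be the inverse germ: the
second component of the inverse is `y`, so with `ψ y = X (0, y)`: `F (ψ y, y) = 0` for small `y`, `ψ 0 = 0`, `ψ`
analytic.  Then `F (x + ψ y, y)` vanishes at `x = 0`, so `F (x + ψ y, y) = x u'(x, y)` (`exists_div_x`), hence
`F (x, y) = (x - ψ y) u (x, y)` with `u (x, y) = u' (x - ψ y, y)`, and `u 0 = dx F 0 ≠ 0` (differentiate in `x`).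
If `ψ = 0` near `0`: first case; otherwise `ψ y = y ^ k v y` with `k ≥ 1`, `v 0 ≠ 0`
(`AnalyticAt.exists_eventuallyEq_pow_smul_nonzero_iff`).
`exists_root`: the same for `dy F 0 ≠ 0`: `F (x, ρ x) = 0`.
-/

open Topology Filter

noncomputable section

namespace Pool.Agent.H17BP

attribute [-instance] ProperSMul.toContinuousSMul

private theorem SmoothF_root {F : ℂ × ℂ → ℂ} (hF : AnalyticAt ℂ F 0) (h0 : F 0 = 0) (h1 : dx F 0 ≠ 0) :
    ∃ ψ : ℂ → ℂ, AnalyticAt ℂ ψ 0 ∧ ψ 0 = 0 ∧ ∀ᶠ y in 𝓝 (0 : ℂ), F (ψ y, y) = 0 := by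
  have hT : AnalyticAt ℂ (fun x : ℂ × ℂ => x.2) 0 := analyticAt_snd
  have hd : HasFDerivAt (fun x : ℂ × ℂ => x.2) (ContinuousLinearMap.snd ℂ ℂ ℂ) 0 := hasFDerivAt_snd
  have hc : Coord F (fun x => x.2) := by
    rw [coord_iff hF hT h0 rfl]
    have e1 : dx (fun x : ℂ × ℂ => x.2) 0 = 0 := by
      unfold dx; rw [hd.fderiv]; simp
    have e2 : dy (fun x : ℂ × ℂ => x.2) 0 = 1 := by
      unfold dy; rw [hd.fderiv]; simp
    rw [e1, e2, mul_one, mul_zero, sub_zero]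
    exact h1
  obtain ⟨θ', hθ, -, h4⟩ := Bihol.exists_inv hc
  have hline : AnalyticAt ℂ (fun y : ℂ => ((0 : ℂ), y)) 0 := analyticAt_const.prod analyticAt_id
  have hline0 : (fun y : ℂ => ((0 : ℂ), y)) 0 = 0 := rfl
  have hline2 : Tendsto (fun y : ℂ => ((0 : ℂ), y)) (𝓝 0) (𝓝 0) := hline.continuousAt.tendsto
  refine ⟨fun y => (θ' (0, y)).1, ?_, ?_, ?_⟩
  · have h5 : AnalyticAt ℂ θ' ((fun y : ℂ => ((0 : ℂ), y)) 0) := hθ.an
    have h6 := AnalyticAt.comp (g := θ') (f := fun y : ℂ => ((0 : ℂ), y)) h5 hline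
    exact analyticAt_fst.comp h6
  · show (θ' (0, 0)).1 = 0
    have : θ' (0, 0) = 0 := hθ.zero
    rw [this]; rfl
  · filter_upwards [hline2.eventually h4] with y hy
    have h7 := congrArg Prod.fst hy
    have h8 := congrArg Prod.snd hy
    simp only at h7 h8
    have h9 : ((θ' (0, y)).1, y) = θ' (0, y) := Prod.ext rfl h8.symm
    rw [h9]
    exact h7

theorem smooth_normal {F : ℂ × ℂ → ℂ} (hF : AnalyticAt ℂ F 0) (h0 : F 0 = 0) (h1 : dx F 0 ≠ 0) :
    ∃ u : ℂ × ℂ → ℂ, AnalyticAt ℂ u 0 ∧ u 0 ≠ 0 ∧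
      ((∀ᶠ x in 𝓝 (0 : ℂ × ℂ), F x = x.1 * u x) ∨
        ∃ (k : ℕ) (v : ℂ → ℂ), AnalyticAt ℂ v 0 ∧ v 0 ≠ 0 ∧
          ∀ᶠ x in 𝓝 (0 : ℂ × ℂ), F x = (x.1 - x.2 ^ (k + 1) * v x.2) * u x) := by
  obtain ⟨ψ, hψ, hψ0, hroot⟩ := SmoothF_root hF h0 h1
  have hψ2 : AnalyticAt ℂ (fun x : ℂ × ℂ => ψ x.2) 0 := by
    have h2 : AnalyticAt ℂ ψ ((fun x : ℂ × ℂ => x.2) 0) := hψ
    exact AnalyticAt.comp (g := ψ) (f := fun x : ℂ × ℂ => x.2) h2 analyticAt_snd
  have hp : AnalyticAt ℂ (fun x : ℂ × ℂ => (x.1 + ψ x.2, x.2)) 0 := (analyticAt_fst.add hψ2).prod analyticAt_snd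
  have hm : AnalyticAt ℂ (fun x : ℂ × ℂ => (x.1 - ψ x.2, x.2)) 0 := (analyticAt_fst.sub hψ2).prod analyticAt_snd
  have hp0 : (fun x : ℂ × ℂ => (x.1 + ψ x.2, x.2)) 0 = 0 := by
    simp [hψ0]
  have hm0 : (fun x : ℂ × ℂ => (x.1 - ψ x.2, x.2)) 0 = 0 := by
    simp [hψ0]
  have hmt : Tendsto (fun x : ℂ × ℂ => (x.1 - ψ x.2, x.2)) (𝓝 0) (𝓝 0) := by
    have h2 := hm.continuousAt.tendsto
    have e : ((0 : ℂ × ℂ).1 - ψ (0 : ℂ × ℂ).2, (0 : ℂ × ℂ).2) = 0 := hm0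
    rwa [e] at h2
  have hF1 : AnalyticAt ℂ (fun x : ℂ × ℂ => F (x.1 + ψ x.2, x.2)) 0 := by
    have h2 : AnalyticAt ℂ F ((fun x : ℂ × ℂ => (x.1 + ψ x.2, x.2)) 0) := by rw [hp0]; exact hF
    exact AnalyticAt.comp (g := F) (f := fun x : ℂ × ℂ => (x.1 + ψ x.2, x.2)) h2 hp
  obtain ⟨g, hg, hgF⟩ := exists_div_x hF1 (by
    filter_upwards [hroot] with y hy
    simpa using hy)
  have hu : AnalyticAt ℂ (fun x : ℂ × ℂ => g (x.1 - ψ x.2, x.2)) 0 := by
    have h2 : AnalyticAt ℂ g ((fun x : ℂ × ℂ => (x.1 - ψ x.2, x.2)) 0) := by rw [hm0]; exact hg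
    exact AnalyticAt.comp (g := g) (f := fun x : ℂ × ℂ => (x.1 - ψ x.2, x.2)) h2 hm
  have hFu : ∀ᶠ x in 𝓝 (0 : ℂ × ℂ), F x = (x.1 - ψ x.2) * g (x.1 - ψ x.2, x.2) := by
    filter_upwards [hmt.eventually hgF] with x hx
    simpa using hx
  have hu0 : g ((0 : ℂ × ℂ).1 - ψ (0 : ℂ × ℂ).2, (0 : ℂ × ℂ).2) ≠ 0 := by
    intro hcon
    apply h1
    have hline : AnalyticAt ℂ (fun t : ℂ => (t, (0 : ℂ))) 0 := analyticAt_id.prod analyticAt_const
    have hline0 : (fun t : ℂ => (t, (0 : ℂ))) 0 = 0 := rfl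
    have hline2 : Tendsto (fun t : ℂ => (t, (0 : ℂ))) (𝓝 0) (𝓝 0) := hline.continuousAt.tendsto
    have hld : HasDerivAt (fun t : ℂ => (t, (0 : ℂ))) ((1 : ℂ), (0 : ℂ)) 0 :=
      (hasDerivAt_id (0 : ℂ)).prodMk (hasDerivAt_const (0 : ℂ) (0 : ℂ))
    have e1 : HasDerivAt (fun t : ℂ => F (t, 0)) (dx F 0) 0 := by
      have h2 : HasFDerivAt F (fderiv ℂ F 0) ((fun t : ℂ => (t, (0 : ℂ))) 0) := hF.differentiableAt.hasFDerivAt
      exact h2.comp_hasDerivAt (f := fun t : ℂ => (t, (0 : ℂ))) 0 hld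
    have e2 : HasDerivAt (fun t : ℂ => (t - ψ 0) * g (t - ψ 0, 0)) 0 0 := by
      have h3 : DifferentiableAt ℂ (fun t : ℂ => g (t - ψ 0, 0)) 0 := by
        have h4 : AnalyticAt ℂ (fun x : ℂ × ℂ => g (x.1 - ψ x.2, x.2)) ((fun t : ℂ => (t, (0 : ℂ))) 0) := hu
        exact (AnalyticAt.comp (g := fun x : ℂ × ℂ => g (x.1 - ψ x.2, x.2)) (f := fun t : ℂ => (t, (0 : ℂ))) h4
          hline).differentiableAt
      have h5 := ((hasDerivAt_id (0 : ℂ)).sub_const (ψ 0)).mul h3.hasDerivAt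
      have h6 : g ((0 : ℂ) - ψ 0, 0) = 0 := hcon
      have h7 : HasDerivAt (fun t : ℂ => (t - ψ 0) * g (t - ψ 0, 0))
        (1 * g ((0 : ℂ) - ψ 0, 0) + ((0 : ℂ) - ψ 0) * deriv (fun t : ℂ => g (t - ψ 0, 0)) 0) 0 := h5
      have h8 : 1 * g ((0 : ℂ) - ψ 0, 0) + ((0 : ℂ) - ψ 0) * deriv (fun t : ℂ => g (t - ψ 0, 0)) 0 = 0 := by
        rw [h6, hψ0]; ring
      rw [h8] at h7
      exact h7
    have e3 : (fun t : ℂ => F (t, 0)) =ᶠ[𝓝 0] fun t : ℂ => (t - ψ 0) * g (t - ψ 0, 0) := hline2.eventually hFu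
    exact e1.unique (e2.congr_of_eventuallyEq e3)
  refine ⟨fun x => g (x.1 - ψ x.2, x.2), hu, hu0, ?_⟩
  have hsnd : Tendsto (fun x : ℂ × ℂ => x.2) (𝓝 0) (𝓝 0) := continuous_snd.tendsto (0 : ℂ × ℂ)
  by_cases hz : ∀ᶠ y in 𝓝 (0 : ℂ), ψ y = 0
  · left
    filter_upwards [hFu, hsnd.eventually hz] with x hx hy
    rw [hx, hy, sub_zero]
  · right
    obtain ⟨n, v, hv, hv0, hev⟩ := hψ.exists_eventuallyEq_pow_smul_nonzero_iff.2 hz
    cases n with
    | zero =>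
      exfalso
      have := hev.self_of_nhds
      rw [hψ0] at this
      simp at this
      exact hv0 this.symm
    | succ k =>
      refine ⟨k, v, hv, hv0, ?_⟩
      filter_upwards [hFu, hsnd.eventually hev] with x hx hy
      rw [sub_zero, smul_eq_mul] at hy
      rw [← hy]
      exact hx

theorem exists_root {F : ℂ × ℂ → ℂ} (hF : AnalyticAt ℂ F 0) (h0 : F 0 = 0) (h1 : dy F 0 ≠ 0) :
    ∃ ρ : ℂ → ℂ, AnalyticAt ℂ ρ 0 ∧ ρ 0 = 0 ∧ ∀ᶠ x in 𝓝 (0 : ℂ), F (x, ρ x) = 0 := by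
  have hs : AnalyticAt ℂ (fun x : ℂ × ℂ => (x.2, x.1)) 0 := analyticAt_snd.prod analyticAt_fst
  have hs0 : (fun x : ℂ × ℂ => (x.2, x.1)) 0 = 0 := rfl
  have hF' : AnalyticAt ℂ (fun x : ℂ × ℂ => F (x.2, x.1)) 0 := by
    have h2 : AnalyticAt ℂ F ((fun x : ℂ × ℂ => (x.2, x.1)) 0) := by rw [hs0]; exact hF
    exact AnalyticAt.comp (g := F) (f := fun x : ℂ × ℂ => (x.2, x.1)) h2 hs
  have hd : dx (fun x : ℂ × ℂ => F (x.2, x.1)) 0 = dy F 0 := by
    have h3 : HasFDerivAt (fun x : ℂ × ℂ => (x.2, x.1))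
        ((ContinuousLinearMap.snd ℂ ℂ ℂ).prod (ContinuousLinearMap.fst ℂ ℂ ℂ)) 0 :=
      hasFDerivAt_snd.prodMk hasFDerivAt_fst
    have h4 : HasFDerivAt F (fderiv ℂ F 0) ((fun x : ℂ × ℂ => (x.2, x.1)) 0) := hF.differentiableAt.hasFDerivAt
    have h5 := h4.comp (0 : ℂ × ℂ) h3
    unfold dx dy
    have h6 : fderiv ℂ (fun x : ℂ × ℂ => F (x.2, x.1)) 0 = (fderiv ℂ F 0).comp
        ((ContinuousLinearMap.snd ℂ ℂ ℂ).prod (ContinuousLinearMap.fst ℂ ℂ ℂ)) := h5.fderiv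
    rw [h6]
    simp
  obtain ⟨ψ, h2, h3, h4⟩ := SmoothF_root hF' h0 (by rw [hd]; exact h1)
  exact ⟨ψ, h2, h3, h4⟩

end Pool.Agent.H17BP

end
end

section

/-!
# The normal form of a germ of order `k + 1` in the second variable

`IsNF k c W`: `W = ∑_{j < k} c_j(x) y^j + y^(k+1) U` with `U` a unit (no term `y^k`).

`exists_taylor`: induction on `m`: `φ (x, y) - φ (x, 0)` is divisible by `y` (`exists_div_y`), `c_0 x = φ (x, 0)`.

`exists_nf`.  Let `φ (0, y)` have order `k + 1` at `y = 0`.  Let `G = dy (dy … φ)` (`k` times), analytic at `0`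
(`analyticAt_dy`).  The restriction of `G` to `x = 0` is the `k`-th derivative of `y ↦ φ (0, y)`, so `G 0 = 0` and
`dy G 0 = (k+1)-th derivative = (k+1)! * (leading coefficient) ≠ 0`.  `exists_root`: `G (x, ρ x) = 0`, `ρ 0 = 0`.
Let `φ' (x, y) = φ (x, y + ρ x)`; `∂_y^k φ' (x, 0) = G (x, ρ x) = 0`.  `exists_taylor` with `m = k + 1` for `φ'`:
`φ' = ∑_{j ≤ k} c_j(x) y^j + y^(k+1) U`, and `k! c_k(x) = ∂_y^k φ' (x, 0) = 0`, so `c_k = 0` near `0`.
`c_j 0 = 0` for `j < k` and `U 0 ≠ 0` because `φ' (0, y) = φ (0, y)` (as `ρ 0 = 0`) has order exactly `k + 1`.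
(One can avoid iterated derivatives: apply `exists_taylor` to `Φ (x, s, …)`; any proof is fine. A possible one:
write `φ = ∑_{j ≤ k} a_j(x) y^j + y^(k+1) V`, and note that the coefficient of `y^k` of `φ (x, y + s)` is
`A (x, s) = ∑_j a_j(x) C(j,k) s^(j-k) + …` — it is an analytic function of `(x, s)` with `A (0, 0) = 0` and
`∂_s A (0, 0) = (k+1) V(0, 0) ≠ 0`.)
-/

open Topology Filter

noncomputable section

namespace Pool.Agent.H17BP

attribute [-instance] ProperSMul.toContinuousSMul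

/-- `W = ∑_{j < k} c_j(x) y^j + y^(k+1) U`, the `c_j` vanish at `0`, `U` is a unit. -/
def IsNF (k : ℕ) (c : ℕ → ℂ → ℂ) (W : ℂ × ℂ → ℂ) : Prop :=
  (∀ j < k, AnalyticAt ℂ (c j) 0 ∧ c j 0 = 0) ∧ ∃ U : ℂ × ℂ → ℂ, AnalyticAt ℂ U 0 ∧ U 0 ≠ 0 ∧
    ∀ᶠ x in 𝓝 (0 : ℂ × ℂ), W x = ∑ j ∈ Finset.range k, c j x.1 * x.2 ^ j + x.2 ^ (k + 1) * U x

theorem exists_taylor (m : ℕ) : ∀ {φ : ℂ × ℂ → ℂ}, AnalyticAt ℂ φ 0 → ∃ (c : ℕ → ℂ → ℂ) (U : ℂ × ℂ → ℂ),
    (∀ j, AnalyticAt ℂ (c j) 0) ∧ AnalyticAt ℂ U 0 ∧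
      ∀ᶠ x in 𝓝 (0 : ℂ × ℂ), φ x = ∑ j ∈ Finset.range m, c j x.1 * x.2 ^ j + x.2 ^ m * U x := by
  induction m with
  | zero =>
    intro φ hφ
    refine ⟨fun _ _ => 0, φ, fun _ => analyticAt_const, hφ, Eventually.of_forall fun x => ?_⟩
    rw [Finset.sum_range_zero, pow_zero, one_mul, zero_add]
  | succ m ih =>
    intro φ hφ
    obtain ⟨c, U, hc, hU, he⟩ := ih hφ
    have hU0 : AnalyticAt ℂ (fun x : ℂ => U (x, 0)) 0 := by
      have h1 : AnalyticAt ℂ (fun x : ℂ => (x, (0 : ℂ))) 0 := analyticAt_id.prod analyticAt_const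
      exact AnalyticAt.comp_of_eq (g := U) (f := fun x : ℂ => (x, (0 : ℂ))) hU h1 rfl
    have hU1 : AnalyticAt ℂ (fun z : ℂ × ℂ => U (z.1, 0)) 0 := by
      have h2 : AnalyticAt ℂ (fun x : ℂ => U (x, 0)) ((fun z : ℂ × ℂ => z.1) 0) := hU0
      exact h2.comp analyticAt_fst
    obtain ⟨g, hg, hge⟩ := exists_div_y (f := fun z : ℂ × ℂ => U z - U (z.1, 0)) (hU.sub hU1)
      (Eventually.of_forall fun x => sub_self _)
    refine ⟨fun j => if j = m then fun x => U (x, 0) else c j, g, ?_, hg, ?_⟩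
    · intro j
      dsimp only
      split_ifs
      · exact hU0
      · exact hc j
    · filter_upwards [he, hge] with z hz hz'
      rw [hz, Finset.sum_range_succ]
      have e1 : ∑ j ∈ Finset.range m, (if j = m then fun x => U (x, 0) else c j) z.1 * z.2 ^ j =
          ∑ j ∈ Finset.range m, c j z.1 * z.2 ^ j := by
        refine Finset.sum_congr rfl fun j hj => ?_
        rw [if_neg (Finset.mem_range.1 hj).ne]
      rw [e1, if_pos rfl]
      have e2 : U z = U (z.1, 0) + z.2 * g z := by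
        rw [smul_eq_mul] at hz'
        linear_combination hz'
      rw [e2]
      ring

/-- The `n`-th derivative at `0` reads off the coefficient. -/
private theorem NF_coef (n : ℕ) : ∀ (c : ℕ → ℂ) (v h : ℂ → ℂ), AnalyticAt ℂ v 0 →
    (∀ᶠ y in 𝓝 (0 : ℂ), h y = ∑ j ∈ Finset.range n, c j * y ^ j + y ^ n * v y) →
    iteratedDeriv n h 0 = (n.factorial : ℂ) * v 0 := by
  induction n with
  | zero =>
    intro c v h _ he
    have h1 := he.self_of_nhds
    rw [Finset.sum_range_zero, pow_zero, one_mul, zero_add] at h1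
    rw [iteratedDeriv_zero, Nat.factorial_zero, Nat.cast_one, one_mul]
    exact h1
  | succ n ih =>
    intro c v h hv he
    rw [iteratedDeriv_succ']
    have hw : AnalyticAt ℂ (fun y => ((n + 1 : ℕ) : ℂ) * v y + y * deriv v y) 0 :=
      (analyticAt_const.mul hv).add (analyticAt_id.mul hv.deriv)
    have key := ih (fun j => ((j + 1 : ℕ) : ℂ) * c (j + 1)) (fun y => ((n + 1 : ℕ) : ℂ) * v y + y * deriv v y)
      (deriv h) hw ?_
    · rw [key]
      simp only [zero_mul, add_zero]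
      rw [Nat.factorial_succ]
      push_cast
      ring
    · filter_upwards [he.eventually_nhds, hv.eventually_analyticAt] with y hy hvy
      have hd : HasDerivAt (fun y => ∑ j ∈ Finset.range (n + 1), c j * y ^ j + y ^ (n + 1) * v y)
          (∑ j ∈ Finset.range (n + 1), c j * ((j : ℂ) * y ^ (j - 1)) +
            (((n + 1 : ℕ) : ℂ) * y ^ (n + 1 - 1) * v y + y ^ (n + 1) * deriv v y)) y := by
        refine HasDerivAt.add ?_ ?_
        · refine HasDerivAt.fun_sum fun j _ => ?_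
          exact (hasDerivAt_pow j y).const_mul (c j)
        · exact (hasDerivAt_pow (n + 1) y).mul hvy.differentiableAt.hasDerivAt
      have hd' : deriv h y = _ := (Filter.EventuallyEq.deriv_eq (f₁ := h) hy).trans hd.deriv
      rw [hd', Finset.sum_range_succ', Nat.cast_zero, zero_mul, mul_zero, add_zero, Nat.add_sub_cancel]
      have e1 : ∑ j ∈ Finset.range n, c (j + 1) * (((j + 1 : ℕ) : ℂ) * y ^ (j + 1 - 1)) =
          ∑ j ∈ Finset.range n, ((j + 1 : ℕ) : ℂ) * c (j + 1) * y ^ j := by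
        refine Finset.sum_congr rfl fun j _ => ?_
        rw [Nat.add_sub_cancel]
        ring
      rw [e1]
      ring

private theorem NF_coef' (m j : ℕ) (hj : j < m) (c : ℕ → ℂ) (u h : ℂ → ℂ) (hu : AnalyticAt ℂ u 0)
    (he : ∀ᶠ y in 𝓝 (0 : ℂ), h y = ∑ i ∈ Finset.range m, c i * y ^ i + y ^ m * u y) :
    iteratedDeriv j h 0 = (j.factorial : ℂ) * c j := by
  obtain ⟨t, rfl⟩ : ∃ t, m = j + (t + 1) := ⟨m - j - 1, by omega⟩
  have hv : AnalyticAt ℂ (fun y => ∑ i ∈ Finset.range (t + 1), c (j + i) * y ^ i + y ^ (t + 1) * u y) 0 := by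
    refine AnalyticAt.add ?_ ((analyticAt_id.pow (t + 1)).mul hu)
    exact Finset.analyticAt_fun_sum _ fun i _ => analyticAt_const.mul (analyticAt_id.pow i)
  have key := NF_coef j c (fun y => ∑ i ∈ Finset.range (t + 1), c (j + i) * y ^ i + y ^ (t + 1) * u y) h hv ?_
  · rw [key]
    congr 1
    rw [zero_pow (Nat.succ_ne_zero t), zero_mul, add_zero, Finset.sum_range_succ', pow_zero, mul_one, add_zero]
    rw [Finset.sum_eq_zero (fun i _ => by rw [zero_pow (Nat.succ_ne_zero i), mul_zero]), zero_add]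
  · filter_upwards [he] with y hy
    have e1 : ∑ i ∈ Finset.range (t + 1), c (j + i) * y ^ (j + i) =
        y ^ j * ∑ i ∈ Finset.range (t + 1), c (j + i) * y ^ i := by
      rw [Finset.mul_sum]
      refine Finset.sum_congr rfl fun i _ => ?_
      rw [pow_add]
      ring
    rw [hy, Finset.sum_range_add, e1, pow_add]
    ring

private theorem NF_iter_an (n : ℕ) : ∀ {f : ℂ × ℂ → ℂ} {z : ℂ × ℂ}, AnalyticAt ℂ f z → AnalyticAt ℂ (dy^[n] f) z := by
  induction n with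
  | zero => intro f z h; exact h
  | succ n ih =>
    intro f z h
    rw [Function.iterate_succ_apply']
    exact analyticAt_dy (ih h)

private theorem NF_deriv {f : ℂ × ℂ → ℂ} {x y : ℂ} (h : AnalyticAt ℂ f (x, y)) :
    deriv (fun t : ℂ => f (x, t)) y = dy f (x, y) := by
  have h1 : HasFDerivAt f (fderiv ℂ f (x, y)) (x, y) := h.differentiableAt.hasFDerivAt
  have h2 : HasDerivAt (fun t : ℂ => (x, t)) ((0 : ℂ), (1 : ℂ)) y :=
    (hasDerivAt_const y x).prodMk (hasDerivAt_id y)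
  have h3 : HasDerivAt (fun t : ℂ => f (x, t)) (fderiv ℂ f (x, y) ((0 : ℂ), (1 : ℂ))) y :=
    HasFDerivAt.comp_hasDerivAt y h1 h2
  exact h3.deriv

private theorem NF_iter (n : ℕ) : ∀ {f : ℂ × ℂ → ℂ} {x y : ℂ}, AnalyticAt ℂ f (x, y) →
    iteratedDeriv n (fun t : ℂ => f (x, t)) y = (dy^[n] f) (x, y) := by
  induction n with
  | zero => intro f x y _; rw [iteratedDeriv_zero]; rfl
  | succ n ih =>
    intro f x y h
    rw [iteratedDeriv_succ, Function.iterate_succ_apply', ← NF_deriv (NF_iter_an n h)]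
    refine Filter.EventuallyEq.deriv_eq ?_
    have ht : Tendsto (fun t : ℂ => (x, t)) (𝓝 y) (𝓝 (x, y)) :=
      (continuous_const.prodMk continuous_id).tendsto y
    filter_upwards [ht.eventually h.eventually_analyticAt] with t ht'
    exact ih ht'

theorem exists_nf {k : ℕ} {φ : ℂ × ℂ → ℂ} (hφ : AnalyticAt ℂ φ 0)
    (ho : analyticOrderAt (fun y : ℂ => φ (0, y)) 0 = ((k + 1 : ℕ) : ℕ∞)) :
    ∃ ρ : ℂ → ℂ, AnalyticAt ℂ ρ 0 ∧ ρ 0 = 0 ∧ ∃ c : ℕ → ℂ → ℂ,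
      IsNF k c (fun x => φ (x.1, x.2 + ρ x.1)) := by
  have hφ' : AnalyticAt ℂ φ ((0 : ℂ), (0 : ℂ)) := hφ
  have hw : AnalyticAt ℂ (fun y : ℂ => φ (0, y)) 0 := by
    have h1 : AnalyticAt ℂ (fun y : ℂ => ((0 : ℂ), y)) 0 := analyticAt_const.prod analyticAt_id
    have h2 : AnalyticAt ℂ φ ((fun y : ℂ => ((0 : ℂ), y)) 0) := hφ
    exact h2.comp h1
  obtain ⟨g, hg, hg0, hge⟩ := hw.analyticOrderAt_eq_natCast.1 ho
  have hge' : ∀ᶠ y in 𝓝 (0 : ℂ), φ (0, y) = ∑ j ∈ Finset.range (k + 1), (fun _ : ℕ => (0 : ℂ)) j * y ^ j +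
      y ^ (k + 1) * g y := by
    filter_upwards [hge] with y hy
    rw [hy, sub_zero, smul_eq_mul, Finset.sum_eq_zero (fun j _ => zero_mul _), zero_add]
  have hd1 : iteratedDeriv (k + 1) (fun y : ℂ => φ (0, y)) 0 ≠ 0 := by
    rw [NF_coef (k + 1) (fun _ => 0) g _ hg hge']
    exact mul_ne_zero (by exact_mod_cast (Nat.factorial_ne_zero _)) hg0
  have hd0 : ∀ j < k + 1, iteratedDeriv j (fun y : ℂ => φ (0, y)) 0 = 0 := by
    intro j hj
    rw [NF_coef' (k + 1) j hj (fun _ => 0) g _ hg hge', mul_zero]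
  have hG0 : (dy^[k] φ) 0 = 0 := by
    have h := NF_iter k hφ'
    rw [hd0 k (Nat.lt_succ_self k)] at h
    exact h.symm
  have hG1 : dy (dy^[k] φ) 0 ≠ 0 := by
    have h := NF_iter (k + 1) hφ'
    rw [Function.iterate_succ_apply'] at h
    intro h'
    exact hd1 (h.trans h')
  obtain ⟨ρ, hρ, hρ0, hρe⟩ := exists_root (NF_iter_an k hφ) hG0 hG1
  have hψ : AnalyticAt ℂ (fun x : ℂ × ℂ => φ (x.1, x.2 + ρ x.1)) 0 := by
    have h1 : AnalyticAt ℂ (fun x : ℂ × ℂ => ρ x.1) 0 := by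
      have h2 : AnalyticAt ℂ ρ ((fun z : ℂ × ℂ => z.1) 0) := hρ
      exact h2.comp analyticAt_fst
    have h3 : AnalyticAt ℂ (fun x : ℂ × ℂ => (x.1, x.2 + ρ x.1)) 0 :=
      analyticAt_fst.prod (analyticAt_snd.add h1)
    refine AnalyticAt.comp_of_eq (g := φ) (f := fun x : ℂ × ℂ => (x.1, x.2 + ρ x.1)) hφ h3 ?_
    simp [hρ0]
  obtain ⟨c, U, hc, hU, he⟩ := exists_taylor (k + 1) hψ
  -- slices
  have hslice : ∀ᶠ x in 𝓝 (0 : ℂ), ∀ᶠ y in 𝓝 (0 : ℂ), φ (x, y + ρ x) =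
      ∑ j ∈ Finset.range (k + 1), c j x * y ^ j + y ^ (k + 1) * U (x, y) := by
    have he' : ∀ᶠ z in 𝓝 ((0 : ℂ), (0 : ℂ)), φ (z.1, z.2 + ρ z.1) =
      ∑ j ∈ Finset.range (k + 1), c j z.1 * z.2 ^ j + z.2 ^ (k + 1) * U z := he
    exact he'.curry_nhds
  have hUs : ∀ᶠ x in 𝓝 (0 : ℂ), AnalyticAt ℂ (fun y : ℂ => U (x, y)) 0 := by
    have ht : Tendsto (fun x : ℂ => (x, (0 : ℂ))) (𝓝 0) (𝓝 ((0 : ℂ), (0 : ℂ))) :=
      (continuous_id.prodMk continuous_const).tendsto 0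
    have hU' : AnalyticAt ℂ U ((0 : ℂ), (0 : ℂ)) := hU
    filter_upwards [ht.eventually hU'.eventually_analyticAt] with x hx
    have h1 : AnalyticAt ℂ (fun y : ℂ => (x, y)) 0 := analyticAt_const.prod analyticAt_id
    have h2 : AnalyticAt ℂ U ((fun y : ℂ => (x, y)) 0) := hx
    exact h2.comp h1
  have hφs : ∀ᶠ x in 𝓝 (0 : ℂ), AnalyticAt ℂ φ (x, ρ x) := by
    have ht : Tendsto (fun x : ℂ => (x, ρ x)) (𝓝 0) (𝓝 ((0 : ℂ), (0 : ℂ))) := by
      have := (continuousAt_id (x := (0 : ℂ))).prodMk hρ.continuousAt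
      have h2 := this.tendsto
      simp only [id_eq, hρ0] at h2
      exact h2
    exact ht.eventually hφ'.eventually_analyticAt
  have hck : ∀ᶠ x in 𝓝 (0 : ℂ), c k x = 0 := by
    filter_upwards [hslice, hUs, hφs, hρe] with x h1 h2 h3 h4
    have h5 := NF_coef' (k + 1) k (Nat.lt_succ_self k) (fun j => c j x) (fun y => U (x, y))
      (fun y => φ (x, y + ρ x)) h2 h1
    have h6 : iteratedDeriv k (fun y => φ (x, y + ρ x)) 0 = 0 := by
      rw [iteratedDeriv_comp_add_const k (fun y => φ (x, y)) (ρ x)]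
      dsimp only
      rw [zero_add, NF_iter k h3]
      exact h4
    rw [h6] at h5
    have h7 := h5.symm
    rcases mul_eq_zero.1 h7 with h8 | h8
    · exact absurd h8 (by exact_mod_cast (Nat.factorial_ne_zero _))
    · exact h8
  have hs0 := hslice.self_of_nhds
  have hU0a := hUs.self_of_nhds
  rw [hρ0] at hs0
  simp only [add_zero] at hs0
  refine ⟨ρ, hρ, hρ0, c, ?_, U, hU, ?_, ?_⟩
  · intro j hj
    refine ⟨hc j, ?_⟩
    have h5 := NF_coef' (k + 1) j (by omega) (fun j => c j 0) (fun y => U (0, y)) (fun y => φ (0, y)) hU0a hs0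
    rw [hd0 j (by omega)] at h5
    rcases mul_eq_zero.1 h5.symm with h8 | h8
    · exact absurd h8 (by exact_mod_cast (Nat.factorial_ne_zero _))
    · exact h8
  · have h5 := NF_coef (k + 1) (fun j => c j 0) (fun y => U (0, y)) (fun y => φ (0, y)) hU0a hs0
    intro h6
    apply hd1
    rw [h5]
    have h7 : U ((0 : ℂ), (0 : ℂ)) = 0 := h6
    rw [h7, mul_zero]
  · have hf : Tendsto (fun z : ℂ × ℂ => z.1) (𝓝 0) (𝓝 (0 : ℂ)) := continuous_fst.tendsto _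
    filter_upwards [he, hf.eventually hck] with z hz hz'
    rw [hz, Finset.sum_range_succ, hz', zero_mul, add_zero]

end Pool.Agent.H17BP

end
end

section

/-!
# The blow-up of a germ in normal form of multiplicity `k + 1`

`c_j x = x^(k+1-j) c'_j x` near `0` (order at least `k+1-j`; `AnalyticAt` order lemmas, `natCast_le_analyticOrderAt`),
`γ_j = c'_j 0`, `U0 = U 0`.
`W (x, x (c0+w)) = ∑_j x^(k+1-j) c'_j(x) x^j (c0+w)^j + x^(k+1) (c0+w)^(k+1) U(x, x(c0+w))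
 = x^(k+1) ψ`, `ψ (x, w) = ∑_j c'_j(x) (c0+w)^j + (c0+w)^(k+1) U (x, x (c0+w))`; `ψ (0, w) = ∑ γ_j (c0+w)^j + U0 (c0+w)^(k+1)`
(here `U (0, 0) = U0`).  For `c0 = 0` and all `γ_j = 0`: `ψ = ∑ c'_j(x) w^j + w^(k+1) U(x, x w)`: `IsNF k c' ψ`.
`W (x y, y) = ∑_j (x y)^(k+1-j) c'_j(x y) y^j + y^(k+1) U(x y, y) = y^(k+1) ψ`,
`ψ = ∑_j x^(k+1-j) c'_j(x y) + U(x y, y)`, `ψ 0 = U0 ≠ 0` since `k + 1 - j ≥ 1`.
-/

open Topology Filter

noncomputable section

namespace Pool.Agent.H17BP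

attribute [-instance] ProperSMul.toContinuousSMul

theorem nf_blow {k : ℕ} {c : ℕ → ℂ → ℂ} {W : ℂ × ℂ → ℂ} (h : IsNF k c W)
    (ho : ∀ j < k, ((k + 1 - j : ℕ) : ℕ∞) ≤ analyticOrderAt (c j) 0) :
    ∃ (γ : ℕ → ℂ) (U₀ : ℂ) (c' : ℕ → ℂ → ℂ), U₀ ≠ 0 ∧
      (∀ j < k, AnalyticAt ℂ (c' j) 0 ∧ c' j 0 = γ j ∧
        ∀ᶠ x in 𝓝 (0 : ℂ), c j x = x ^ (k + 1 - j) * c' j x) ∧
      (∀ c₀ : ℂ, ∃ ψ : ℂ × ℂ → ℂ, AnalyticAt ℂ ψ 0 ∧
        (∀ᶠ x in 𝓝 (0 : ℂ × ℂ), W (bl c₀ x) = x.1 ^ (k + 1) * ψ x) ∧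
        (∀ᶠ w in 𝓝 (0 : ℂ), ψ (0, w) =
          ∑ j ∈ Finset.range k, γ j * (c₀ + w) ^ j + U₀ * (c₀ + w) ^ (k + 1)) ∧
        (c₀ = 0 → (∀ j < k, γ j = 0) → IsNF k c' ψ)) ∧
      ∃ ψ : ℂ × ℂ → ℂ, AnalyticAt ℂ ψ 0 ∧ ψ 0 ≠ 0 ∧
        ∀ᶠ x in 𝓝 (0 : ℂ × ℂ), W (blInf x) = x.2 ^ (k + 1) * ψ x := by
  obtain ⟨hc, U, hU, hU0, hW⟩ := h
  have hex : ∀ j, ∃ g : ℂ → ℂ, j < k → AnalyticAt ℂ g 0 ∧
      ∀ᶠ x in 𝓝 (0 : ℂ), c j x = x ^ (k + 1 - j) * g x := by
    intro j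
    by_cases hj : j < k
    · obtain ⟨g, hg, hgx⟩ := (natCast_le_analyticOrderAt (hc j hj).1).1 (ho j hj)
      refine ⟨g, fun _ => ⟨hg, ?_⟩⟩
      filter_upwards [hgx] with x hx
      rw [hx, sub_zero, smul_eq_mul]
    · exact ⟨0, fun h => absurd h hj⟩
  choose c' hc' using hex
  have hfst : Tendsto (fun x : ℂ × ℂ => x.1) (𝓝 0) (𝓝 0) := continuous_fst.tendsto' _ _ rfl
  have hprod : Tendsto (fun x : ℂ × ℂ => x.1 * x.2) (𝓝 0) (𝓝 0) :=
    (continuous_fst.mul continuous_snd).tendsto' _ _ (by simp)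
  have hall : ∀ᶠ x in 𝓝 (0 : ℂ), ∀ j ∈ Finset.range k, c j x = x ^ (k + 1 - j) * c' j x := by
    rw [Filter.eventually_all_finset]
    intro j hj
    exact (hc' j (Finset.mem_range.1 hj)).2
  have hbl : ∀ c₀ : ℂ, Tendsto (bl c₀) (𝓝 0) (𝓝 0) := by
    intro c₀
    have := (analyticAt_bl c₀ 0).continuousAt.tendsto
    rwa [bl_zero] at this
  have hblInf : Tendsto blInf (𝓝 0) (𝓝 0) := by
    have := (analyticAt_blInf 0).continuousAt.tendsto
    rwa [blInf_zero] at this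
  refine ⟨fun j => c' j 0, U 0, c', hU0, ?_, ?_, ?_⟩
  · intro j hj
    exact ⟨(hc' j hj).1, rfl, (hc' j hj).2⟩
  · intro c₀
    refine ⟨fun x => ∑ j ∈ Finset.range k, c' j x.1 * (c₀ + x.2) ^ j + (c₀ + x.2) ^ (k + 1) * U (bl c₀ x),
      ?_, ?_, ?_, ?_⟩
    · have h1 : AnalyticAt ℂ (fun x : ℂ × ℂ => ∑ j ∈ Finset.range k, c' j x.1 * (c₀ + x.2) ^ j) 0 := by
        refine Finset.analyticAt_fun_sum _ fun j hj => ?_
        have h2 : AnalyticAt ℂ (fun x : ℂ × ℂ => c' j x.1) 0 := by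
          have h3 : AnalyticAt ℂ (c' j) ((0 : ℂ × ℂ).1) := (hc' j (Finset.mem_range.1 hj)).1
          exact AnalyticAt.comp (g := c' j) (f := fun x : ℂ × ℂ => x.1) h3 analyticAt_fst
        exact h2.mul ((analyticAt_const.add analyticAt_snd).pow j)
      have h4 : AnalyticAt ℂ (fun x : ℂ × ℂ => U (bl c₀ x)) 0 := by
        have h5 : AnalyticAt ℂ U (bl c₀ 0) := by rw [bl_zero]; exact hU
        exact AnalyticAt.comp (g := U) (f := bl c₀) h5 (analyticAt_bl c₀ 0)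
      exact h1.add (((analyticAt_const.add analyticAt_snd).pow (k + 1)).mul h4)
    · filter_upwards [(hbl c₀).eventually hW, hfst.eventually hall] with x hx hx'
      rw [hx]
      show ∑ j ∈ Finset.range k, c j x.1 * (x.1 * (c₀ + x.2)) ^ j + (x.1 * (c₀ + x.2)) ^ (k + 1) * U (bl c₀ x) =
        x.1 ^ (k + 1) * (∑ j ∈ Finset.range k, c' j x.1 * (c₀ + x.2) ^ j + (c₀ + x.2) ^ (k + 1) * U (bl c₀ x))
      rw [mul_add (x.1 ^ (k + 1)), Finset.mul_sum]
      congr 1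
      · refine Finset.sum_congr rfl fun j hj => ?_
        have hj' := Finset.mem_range.1 hj
        rw [hx' j hj, mul_pow]
        have h6 : x.1 ^ (k + 1) = x.1 ^ (k + 1 - j) * x.1 ^ j := by
          rw [← pow_add]
          congr 1
          omega
        rw [h6]
        ring
      · rw [mul_pow]
        ring
    · refine Eventually.of_forall fun w => ?_
      have h7 : bl c₀ ((0 : ℂ), w) = 0 := by
        simp [bl]
      show ∑ j ∈ Finset.range k, c' j 0 * (c₀ + w) ^ j + (c₀ + w) ^ (k + 1) * U (bl c₀ (0, w)) = _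
      rw [h7]
      ring
    · rintro rfl hγ
      refine ⟨fun j hj => ⟨(hc' j hj).1, hγ j hj⟩, fun x => U (bl 0 x), ?_, ?_, ?_⟩
      · have h5 : AnalyticAt ℂ U (bl 0 0) := by rw [bl_zero]; exact hU
        exact AnalyticAt.comp (g := U) (f := bl 0) h5 (analyticAt_bl 0 0)
      · show U (bl 0 0) ≠ 0
        rw [bl_zero]
        exact hU0
      · refine Eventually.of_forall fun x => ?_
        show ∑ j ∈ Finset.range k, c' j x.1 * (0 + x.2) ^ j + (0 + x.2) ^ (k + 1) * U (bl 0 x) = _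
        rw [zero_add]
  · refine ⟨fun x => ∑ j ∈ Finset.range k, x.1 ^ (k + 1 - j) * c' j (x.1 * x.2) + U (blInf x), ?_, ?_, ?_⟩
    · have h1 : AnalyticAt ℂ (fun x : ℂ × ℂ => ∑ j ∈ Finset.range k, x.1 ^ (k + 1 - j) * c' j (x.1 * x.2)) 0 := by
        refine Finset.analyticAt_fun_sum _ fun j hj => ?_
        have h2 : AnalyticAt ℂ (fun x : ℂ × ℂ => c' j (x.1 * x.2)) 0 := by
          have h3 : AnalyticAt ℂ (c' j) ((fun x : ℂ × ℂ => x.1 * x.2) 0) := by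
            have h4 : (fun x : ℂ × ℂ => x.1 * x.2) 0 = 0 := by simp
            rw [h4]
            exact (hc' j (Finset.mem_range.1 hj)).1
          exact AnalyticAt.comp (g := c' j) (f := fun x : ℂ × ℂ => x.1 * x.2) h3
            (analyticAt_fst.mul analyticAt_snd)
        exact (analyticAt_fst.pow _).mul h2
      have h4 : AnalyticAt ℂ (fun x : ℂ × ℂ => U (blInf x)) 0 := by
        have h5 : AnalyticAt ℂ U (blInf 0) := by rw [blInf_zero]; exact hU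
        exact AnalyticAt.comp (g := U) (f := blInf) h5 (analyticAt_blInf 0)
      exact h1.add h4
    · show ∑ j ∈ Finset.range k, (0 : ℂ) ^ (k + 1 - j) * c' j ((0 : ℂ) * (0 : ℂ)) + U (blInf 0) ≠ 0
      rw [blInf_zero, Finset.sum_eq_zero, zero_add]
      · exact hU0
      · intro j hj
        have hj' := Finset.mem_range.1 hj
        rw [zero_pow (by omega), zero_mul]
    · filter_upwards [hblInf.eventually hW, hprod.eventually hall] with x hx hx'
      rw [hx]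
      show ∑ j ∈ Finset.range k, c j (x.1 * x.2) * x.2 ^ j + x.2 ^ (k + 1) * U (blInf x) =
        x.2 ^ (k + 1) * (∑ j ∈ Finset.range k, x.1 ^ (k + 1 - j) * c' j (x.1 * x.2) + U (blInf x))
      rw [mul_add, Finset.mul_sum]
      congr 1
      refine Finset.sum_congr rfl fun j hj => ?_
      have hj' := Finset.mem_range.1 hj
      rw [hx' j hj, mul_pow]
      have h6 : x.2 ^ (k + 1) = x.2 ^ (k + 1 - j) * x.2 ^ j := by
        rw [← pow_add]
        congr 1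
        omega
      rw [h6]
      ring

end Pool.Agent.H17BP

end
end

section

/-!
# One blow-up

`resN_succ`: by `bchart_class` every chart is `bl c ∘ θ` or `blInf ∘ θ`; use `ResN.comp`, `ResN.congr`.
`uniform`: take the maximum `n` of the finitely many depths (`Set.Finite`, `Finset.sup`), `ResN.mono_le`,
`ResN.of_mono`, then `resN_succ`.
-/

open Topology Filter

noncomputable section

namespace Pool.Agent.H17BP

attribute [-instance] ProperSMul.toContinuousSMul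

theorem resN_succ {n : ℕ} {g : ℂ × ℂ → ℂ} (h : ∀ c, ResN n (g ∘ bl c)) (h' : ResN n (g ∘ blInf)) :
    ResN (n + 1) g := by
  refine Or.inr fun β hβ => ?_
  obtain ⟨θ, hθ, hc⟩ := bchart_class hβ
  rcases hc with ⟨c, hc⟩ | hc
  · refine ((h c).comp hθ).congr ?_
    filter_upwards [hc] with x hx
    simp only [Function.comp_apply]
    rw [hx]
  · refine (h'.comp hθ).congr ?_
    filter_upwards [hc] with x hx
    simp only [Function.comp_apply]
    rw [hx]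

theorem uniform {g : ℂ × ℂ → ℂ} {S : Set ℂ} (hS : S.Finite) (h1 : ∀ c ∉ S, Mono (g ∘ bl c))
    (h2 : ∀ c ∈ S, ∃ n, ResN n (g ∘ bl c)) (h3 : ∃ n, ResN n (g ∘ blInf)) : ∃ n, ResN n g := by
  obtain ⟨m, hm⟩ := h3
  choose! f hf using h2
  refine ⟨max m (hS.toFinset.sup f) + 1, resN_succ (fun c => ?_) (hm.mono_le (le_max_left _ _))⟩
  by_cases hc : c ∈ S
  · exact (hf c hc).mono_le (le_trans (Finset.le_sup (f := f) (hS.mem_toFinset.mpr hc))
      (le_max_right _ _))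
  · exact ResN.of_mono (h1 c hc) _

end Pool.Agent.H17BP

end
end
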