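import Pool.Agent.H94.CB.M159
import Pool.Agent.H94.CB.M195
import Pool.Agent.H94.CB.M205
import Pool.Agent.H94.CB.M206
import Pool.Agent.H94.CB.M65

/-! The parts of this file: H18.LU.OStC, H86.LU.Bx, H86.LU.Q, H86.LU.Rs, H86.LU.Sc. -/

section

/-!
# (Copy for open cones and discrete groups, see `Oc`.) EL StC: straight charts

Let `DU X Λ u x w 1`.  By `exists_adm` (EF DUl) there are a chart `χ₀` with `x ∈ χ₀.U`, `χ₀.q x = 0` and an analytic lift `υ` of `u` in it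
with `fderiv ℂ υ 0 ≠ 0`; `x = a • χ₀.σ 0`.  Choose a linear form `l` on `ℂ × ℂ` such that `Φ p = (υ p - υ 0, l p)` has an invertible derivative at `0`;
inverse function theorem (analytic): `Θ` analytic at `0`, `Θ 0 = 0`, `Φ (Θ p) = p` and `Θ (Φ p) = p` near `0`.  Germ chart:
`σ = a • χ₀.σ ∘ Θ`, `τ = Φ ∘ χ₀.q` (near `x`; `χ₀.q` is scale invariant, so `inv` is clear; `left`: `χ₀.q (a • χ₀.σ (Θ p)) = Θ p`;
`right`: `y ∈ X` near `x`: `y = c • χ₀.σ (χ₀.q y)`).  `u (σ p) = υ (Θ p) = υ 0 + p.1` and `υ 0 = u (χ₀.σ 0) = u x = z` modulo `Λ`.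
So `IsGermChart X σ τ`, `σ 0 = x`, `u (σ p) - (z + p.1) ∈ Λ`: apply `exists_nc_chart` (proof) with `i = 1`, `j = 0`
(`IsNC X Λ u x z` with these exponents; to keep the exponents repeat its proof from `exists_small_chart`: `ρ = r`).

`exists_str_of_lift`: a section `F` (or a holomorphic curve `Ψ` near `z₀` with `u (Ψ z) = z`) has `DU X Λ u (Ψ z₀) (deriv Ψ z₀) 1`.
-/

set_option autoImplicit false

open Topology Filter Metric

namespace Pool.Agent.H18.LU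

attribute [-instance] ProperSMul.toContinuousSMul

open Pool.Agent.H62.EL

open Pool.Agent.H36.BP (EN fs wd IsGermChart)
open Pool.Agent.H14.PP (Chart Tan CurveAt)
open Pool.Agent.H62.EF (MN pr TorusMap Sec Charts DU)

variable {N : ℕ} {X : Set (EN N)} {Λ : AddSubgroup ℂ} {u : EN N → ℂ}

private lemma StC_inj {L : ℂ × ℂ →L[ℂ] ℂ} (hL : L ≠ 0) :
    ∃ l : ℂ × ℂ →L[ℂ] ℂ, ∀ v, L v = 0 → l v = 0 → v = 0 := by
  have hdec : ∀ v : ℂ × ℂ, L v = v.1 * L (1, 0) + v.2 * L (0, 1) := by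
    intro v
    have h1 : v = v.1 • ((1, 0) : ℂ × ℂ) + v.2 • ((0, 1) : ℂ × ℂ) := by
      ext <;> simp
    conv_lhs => rw [h1]
    rw [map_add, map_smul, map_smul, smul_eq_mul, smul_eq_mul]
  by_cases h1 : L (1, 0) = 0
  · have h2 : L (0, 1) ≠ 0 := by
      intro h2
      apply hL
      ext
      · simpa using h1
      · simpa using h2
    refine ⟨ContinuousLinearMap.fst ℂ ℂ ℂ, fun v hv hl => ?_⟩
    have h3 : v.1 = 0 := hl
    rw [hdec v, h3, zero_mul, zero_add] at hv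
    have h4 : v.2 = 0 := (mul_eq_zero.1 hv).resolve_right h2
    exact Prod.ext h3 h4
  · refine ⟨ContinuousLinearMap.snd ℂ ℂ ℂ, fun v hv hl => ?_⟩
    have h3 : v.2 = 0 := hl
    rw [hdec v, h3, zero_mul, add_zero] at hv
    have h4 : v.1 = 0 := (mul_eq_zero.1 hv).resolve_right h1
    exact Prod.ext h4 h3

private lemma StC_germ (hX : OCone X) (hu : TorusMap X Λ u) {x : EN N} (hx : x ∈ X) (χ₀ : Chart X) (hxU : x ∈ χ₀.U)
    (hq : χ₀.q x = 0) {υ : ℂ × ℂ → ℂ} (hυ : AnalyticAt ℂ υ 0) (hυl : ∀ᶠ p in 𝓝 (0 : ℂ × ℂ), u (χ₀.σ p) - υ p ∈ Λ)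
    (hd : fderiv ℂ υ 0 ≠ 0) {z : ℂ} (hz : u x - z ∈ Λ) :
    ∃ (σ : ℂ × ℂ → EN N) (τ : EN N → ℂ × ℂ), IsGermChart X σ τ ∧ σ 0 = x ∧
      ∀ᶠ p in 𝓝 (0 : ℂ × ℂ), u (σ p) - (z + p.1) ∈ Λ := by
  obtain ⟨-, a, ha, hxa⟩ := χ₀.surj x hx hxU
  rw [hq] at hxa
  have h02 : (0 : ℂ × ℂ) ∈ ball (0 : ℂ × ℂ) 2 := mem_ball_self two_pos
  have hm0 := χ₀.σ_mem 0 h02
  obtain ⟨l, hl⟩ := StC_inj hd
  set Φ : ℂ × ℂ → ℂ × ℂ := fun p => (υ p - υ 0, l p) with hΦ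
  have hΦ0 : Φ 0 = 0 := by
    rw [hΦ]
    simp
  have hΦa : AnalyticAt ℂ Φ 0 := (hυ.sub analyticAt_const).prod (l.analyticAt 0)
  have hΦd : ∀ v, fderiv ℂ Φ 0 v = (fderiv ℂ υ 0 v, l v) := by
    intro v
    have h1 : HasFDerivAt Φ ((fderiv ℂ υ 0).prod l) 0 :=
      (hυ.differentiableAt.hasFDerivAt.sub_const (υ 0)).prodMk l.hasFDerivAt
    rw [h1.fderiv]
    rfl
  obtain ⟨Θ, hΘa, hΘl, hΘr, hΘ0⟩ := Pool.Agent.H62.BU.local_inverse hΦa (by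
    intro v hv
    rw [hΦd v] at hv
    exact hl v (congrArg Prod.fst hv) (congrArg Prod.snd hv))
  rw [hΦ0] at hΘa hΘr hΘ0
  have hΘc : Tendsto Θ (𝓝 (0 : ℂ × ℂ)) (𝓝 (0 : ℂ × ℂ)) := by
    have h1 := hΘa.continuousAt.tendsto
    rwa [hΘ0] at h1
  have hb2 : ∀ᶠ p in 𝓝 (0 : ℂ × ℂ), Θ p ∈ ball (0 : ℂ × ℂ) 2 := hΘc.eventually (isOpen_ball.mem_nhds h02)
  set σ : ℂ × ℂ → EN N := fun p => a • χ₀.σ (Θ p) with hσ
  set τ : EN N → ℂ × ℂ := fun y => Φ (χ₀.q y) with hτ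
  have hσ0 : σ 0 = x := by
    rw [hσ]
    simp only
    rw [hΘ0, ← hxa]
  have hqc : Tendsto χ₀.q (𝓝 x) (𝓝 (0 : ℂ × ℂ)) := by
    have h1 := (χ₀.q_an x hxU).continuousAt.tendsto
    rwa [hq] at h1
  have hU : ∀ᶠ y in 𝓝 x, y ∈ χ₀.U := χ₀.isOpen_U.mem_nhds hxU
  have hmem : ∀ᶠ p in 𝓝 (0 : ℂ × ℂ), σ p ∈ X := by
    filter_upwards [hb2] with p hp
    exact hX.smul_mem _ (χ₀.σ_mem _ hp).1 _ ha
  refine ⟨σ, τ, ⟨?_, hmem, ?_, ?_, ?_, ?_⟩, hσ0, ?_⟩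
  · have h1 : AnalyticAt ℂ (fun p => χ₀.σ (Θ p)) 0 := by
      have h2 : AnalyticAt ℂ χ₀.σ (Θ 0) := by
        rw [hΘ0]
        exact χ₀.σ_an 0 h02
      exact AnalyticAt.fun_comp h2 hΘa
    exact analyticAt_const.fun_smul h1
  · rw [hσ0]
    have h2 : AnalyticAt ℂ Φ (χ₀.q x) := by
      rw [hq]
      exact hΦa
    exact AnalyticAt.fun_comp h2 (χ₀.q_an x hxU)
  · filter_upwards [hb2, hΘr] with p hp hp2
    have h1 := χ₀.σ_mem _ hp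
    rw [hτ, hσ]
    simp only
    rw [χ₀.q_smul _ h1.2.1 a ha, h1.2.2, hp2]
  · rw [hσ0]
    filter_upwards [hU, hqc.eventually hΘl] with y hy hy2 hyX
    obtain ⟨-, c, hc, hyc⟩ := χ₀.surj y hyX hy
    refine ⟨c * a⁻¹, mul_ne_zero hc (inv_ne_zero ha), ?_⟩
    rw [hτ, hσ]
    simp only
    rw [hy2, smul_smul, mul_assoc, inv_mul_cancel₀ ha, mul_one]
    exact hyc
  · rw [hσ0]
    have h1 : ∀ᶠ w in 𝓝 (x, (1 : ℂ)), w.1 ∈ χ₀.U := continuousAt_fst.tendsto.eventually hU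
    have h20 : ∀ᶠ c in 𝓝 (1 : ℂ), c ≠ 0 := eventually_ne_nhds one_ne_zero
    have h2 : ∀ᶠ w in 𝓝 (x, (1 : ℂ)), w.2 ≠ 0 := by
      have h21 : Tendsto (Prod.snd : EN N × ℂ → ℂ) (𝓝 (x, (1 : ℂ))) (𝓝 1) := continuousAt_snd
      exact h21.eventually h20
    filter_upwards [h1, h2] with w hw1 hw2
    rw [hτ]
    simp only
    rw [χ₀.q_smul _ hw1 _ hw2]
  · have hυ0 : υ 0 - z ∈ Λ := by
      have h1 := hυl.self_of_nhds
      have h2 := hu.smul (χ₀.σ 0) hm0.1 a ha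
      rw [← hxa] at h2
      have h3 := Λ.sub_mem hz (Λ.add_mem h2 h1)
      have h4 : u x - z - (u x - u (χ₀.σ 0) + (u (χ₀.σ 0) - υ 0)) = υ 0 - z := by ring
      rwa [h4] at h3
    filter_upwards [hb2, hΘr, hΘc.eventually hυl] with p hp hp2 hp3
    have h1 := hu.smul (χ₀.σ (Θ p)) (χ₀.σ_mem _ hp).1 a ha
    have h2 : υ (Θ p) - υ 0 = p.1 := congrArg Prod.fst hp2
    have h3 := Λ.add_mem (Λ.add_mem h1 hp3) hυ0
    have h4 : u (a • χ₀.σ (Θ p)) - u (χ₀.σ (Θ p)) + (u (χ₀.σ (Θ p)) - υ (Θ p)) + (υ 0 - z) = u (σ p) - (z + p.1) := by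
      rw [← h2, hσ]
      ring
    rwa [h4] at h3

theorem exists_str_chartO (hX : OCone X) (hch : Charts X) (hu : TorusMap X Λ u) (hΛ : Dsc Λ) {x w : EN N} (hx : x ∈ X)
    (hw : DU X Λ u x w 1) {z : ℂ} (hz : u x - z ∈ Λ) {η : ℝ} (hη : 0 < η) :
    ∃ (χ : Chart X) (ρ : ℝ), x ∈ χ.U ∧ χ.q x = 0 ∧ Mon Λ u χ z ρ 1 0 ∧
      ∀ p ∈ ball (0 : ℂ × ℂ) 2, dist (pr (χ.σ p)) (pr x) < η ∧ ‖mo z ρ 1 0 p - z‖ < η := by
  obtain ⟨χ₀, υ, s, hxU, hq, hadm⟩ := exists_admO hX hch hu hΛ hx one_ne_zero hw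
  have h0s : (0 : ℂ × ℂ) ∈ ball (0 : ℂ × ℂ) s := mem_ball_self hadm.pos
  have hυl : ∀ᶠ p in 𝓝 (0 : ℂ × ℂ), u (χ₀.σ p) - υ p ∈ Λ := by
    filter_upwards [isOpen_ball.mem_nhds h0s] with p hp
    exact hadm.lift p hp
  obtain ⟨σ, τ, hG, hσ0, hσl⟩ := StC_germ hX hu hx χ₀ hxU hq (hadm.an 0 h0s) hυl (hadm.ne 0 h0s) hz
  obtain ⟨η', hη', hall⟩ := Metric.eventually_nhds_iff_ball.1 (hG.σ_mem.and hσl)
  obtain ⟨χ, r, hr, hσU, hq0, hχ⟩ := exists_small_chartO hX hG (lt_min hη hη')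
  rw [hσ0] at hσU hq0
  have hmo : ∀ p : ℂ × ℂ, mo z r 1 0 p = z + (r : ℂ) * p.1 := by
    intro p
    rw [mo, pow_one, pow_zero, mul_one]
  refine ⟨χ, r, hσU, hq0, ⟨hr, by norm_num, fun p hp => ?_⟩, fun p hp => ⟨?_, ?_⟩⟩
  · obtain ⟨h1, -, b, hb, h3⟩ := hχ p hp
    have h4 := hall ((r : ℂ) • p) (mem_ball_zero_iff.2 (h1.trans_le (min_le_right _ _)))
    have h5 := Λ.add_mem (hu.smul _ h4.1 b hb) h4.2
    have h6 : u (b • σ ((r : ℂ) • p)) - u (σ ((r : ℂ) • p)) + (u (σ ((r : ℂ) • p)) - (z + ((r : ℂ) • p).1)) =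
        u (χ.σ p) - mo z r 1 0 p := by
      rw [h3, hmo, Prod.smul_fst, smul_eq_mul]
      ring
    rwa [h6] at h5
  · have h2 := (hχ p hp).2.1
    rw [hσ0] at h2
    exact h2.trans_le (min_le_left _ _)
  · rw [hmo, add_sub_cancel_left]
    have h1 := (hχ p hp).1
    have h2 : ‖(r : ℂ) * p.1‖ ≤ ‖(r : ℂ) • p‖ := norm_fst_le ((r : ℂ) • p)
    exact h2.trans_lt (h1.trans_le (min_le_left _ _))

theorem exists_str_of_liftO (hX : OCone X) (hch : Charts X) (hu : TorusMap X Λ u) (hΛ : Dsc Λ) {Ψ : ℂ → EN N} {z₀ : ℂ} {r : ℝ}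
    (hr : 0 < r) (hΨ : DifferentiableOn ℂ Ψ (ball z₀ r)) (hΨX : ∀ z ∈ ball z₀ r, Ψ z ∈ X ∧ u (Ψ z) - z ∈ Λ) {η : ℝ} (hη : 0 < η) :
    ∃ (χ : Chart X) (ρ : ℝ), Ψ z₀ ∈ χ.U ∧ χ.q (Ψ z₀) = 0 ∧ Mon Λ u χ z₀ ρ 1 0 ∧
      ∀ p ∈ ball (0 : ℂ × ℂ) 2, dist (pr (χ.σ p)) (pr (Ψ z₀)) < η ∧ ‖mo z₀ ρ 1 0 p - z₀‖ < η := by
  have h0 : ball z₀ r ∈ 𝓝 z₀ := ball_mem_nhds z₀ hr
  have hΨa : AnalyticAt ℂ Ψ z₀ := hΨ.analyticAt h0
  have hm := hΨX z₀ (mem_ball_self hr)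
  have hc : Tendsto (fun z : ℂ => z₀ + z) (𝓝 0) (𝓝 z₀) := by
    have h1 : ContinuousAt (fun z : ℂ => z₀ + z) 0 := by fun_prop
    have h2 := h1.tendsto
    rwa [add_zero] at h2
  have hev : ∀ᶠ z in 𝓝 (0 : ℂ), z₀ + z ∈ ball z₀ r := hc.eventually h0
  have hl : AnalyticAt ℂ (fun z : ℂ => z₀ + z) 0 := analyticAt_const.add analyticAt_id
  have hDU : DU X Λ u (Ψ z₀) (deriv Ψ z₀) 1 := by
    refine ⟨fun z => Ψ (z₀ + z), fun z => z₀ + z, ?_, ?_, ?_, ?_, hl, ?_, ?_⟩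
    · have h1 : AnalyticAt ℂ Ψ ((fun z : ℂ => z₀ + z) 0) := by
        simp only [add_zero]
        exact hΨa
      exact AnalyticAt.fun_comp h1 hl
    · filter_upwards [hev] with z hz
      exact (hΨX _ hz).1
    · simp only [add_zero]
    · rw [deriv_comp_const_add, add_zero]
    · filter_upwards [hev] with z hz
      exact (hΨX _ hz).2
    · rw [deriv_const_add, deriv_id'']
  exact exists_str_chartO hX hch hu hΛ hm.1 hDU hm.2 hη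

end Pool.Agent.H18.LU

end

section

/-!
# LU Bx: forms with logarithmic poles in a chart
-/

set_option autoImplicit false

open Topology Filter Metric

namespace Pool.Agent.H86.LU

attribute [-instance] ProperSMul.toContinuousSMul

open Pool.Agent.H36.BP (EN fs wd IsGermChart)
open Pool.Agent.H14.PP (IsCone Chart Tan CurveAt)
open Pool.Agent.H62.EF (Lat MN pr TorusMap Sec Charts DU det2)
open Pool.Agent.H62.EL (TForm Per VanZero Thin tc)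
open Pool.Agent.H18.LU (OCone Dsc LogP HorAt)

variable {N : ℕ} {X D : Set (EN N)} {Λ : AddSubgroup ℂ} {u : EN N → ℂ}

/-- translation of a germ chart -/
theorem germ_shift {σ : ℂ × ℂ → EN N} {τ : EN N → ℂ × ℂ} (h : IsGermChart X σ τ) :
    ∀ᶠ p in 𝓝 (0 : ℂ × ℂ), IsGermChart X (fun q => σ (p + q)) (fun y => τ y - p) := by
  have hc : Tendsto (fun p : ℂ × ℂ => (σ p, (1 : ℂ))) (𝓝 0) (𝓝 (σ 0, (1 : ℂ))) :=
    h.σ_an.continuousAt.tendsto.prodMk_nhds tendsto_const_nhds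
  filter_upwards [h.σ_an.eventually_analyticAt, h.σ_mem.eventually_nhds, h.σ_an.continuousAt.eventually h.τ_an.eventually_analyticAt,
    h.left.eventually_nhds, h.σ_an.continuousAt.eventually h.right.eventually_nhds, hc.eventually h.inv.eventually_nhds] with p h1 h2 h3 h4 h5 h6
  have ht : Tendsto (fun q : ℂ × ℂ => p + q) (𝓝 0) (𝓝 p) := by
    have : ContinuousAt (fun q : ℂ × ℂ => p + q) 0 := by fun_prop
    have h7 := this.tendsto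
    rwa [add_zero] at h7
  refine ⟨?_, ht.eventually h2, ?_, ?_, ?_, ?_⟩
  · have h8 : AnalyticAt ℂ (fun q : ℂ × ℂ => p + q) 0 := by fun_prop
    exact AnalyticAt.comp (g := σ) (f := fun q : ℂ × ℂ => p + q) (by rw [add_zero]; exact h1) h8
  · rw [add_zero]
    exact h3.sub analyticAt_const
  · filter_upwards [ht.eventually h4] with q hq
    rw [hq]
    simp
  · rw [add_zero]
    filter_upwards [h5] with y hy hyX
    obtain ⟨c, hc, hyc⟩ := hy hyX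
    refine ⟨c, hc, ?_⟩
    rw [add_sub_cancel]
    exact hyc
  · rw [add_zero]
    filter_upwards [h6] with z hz
    rw [hz]

/-- scaling of a germ chart -/
theorem germ_smul (hX : OCone X) {σ : ℂ × ℂ → EN N} {τ : EN N → ℂ × ℂ} (h : IsGermChart X σ τ) {c : ℂ} (hc : c ≠ 0) :
    IsGermChart X (fun q => c • σ q) (fun y => τ (c⁻¹ • y)) := by
  have hm : AnalyticAt ℂ (fun y : EN N => c⁻¹ • y) (c • σ 0) := analyticAt_const.fun_smul analyticAt_id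
  have hmx : c⁻¹ • (c • σ 0) = σ 0 := by rw [smul_smul, inv_mul_cancel₀ hc, one_smul]
  have ht : Tendsto (fun y : EN N => c⁻¹ • y) (𝓝 (c • σ 0)) (𝓝 (σ 0)) := by
    have := hm.continuousAt.tendsto
    simp only [hmx] at this
    exact this
  refine ⟨analyticAt_const.fun_smul h.σ_an, ?_, ?_, ?_, ?_, ?_⟩
  · filter_upwards [h.σ_mem] with q hq
    exact hX.smul_mem _ hq c hc
  · exact AnalyticAt.comp (g := τ) (f := fun y : EN N => c⁻¹ • y) (by rw [hmx]; exact h.τ_an) hm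
  · filter_upwards [h.left] with q hq
    rw [smul_smul, inv_mul_cancel₀ hc, one_smul, hq]
  · filter_upwards [ht.eventually h.right] with y hy hyX
    obtain ⟨b, hb, hyb⟩ := hy (hX.smul_mem _ hyX c⁻¹ (inv_ne_zero hc))
    refine ⟨b, hb, ?_⟩
    have e : y = c • (c⁻¹ • y) := by rw [smul_smul, mul_inv_cancel₀ hc, one_smul]
    conv_lhs => rw [e, hyb]
    rw [smul_smul, smul_smul, mul_comm]
  · have ht2 : Tendsto (fun z : EN N × ℂ => (c⁻¹ • z.1, z.2)) (𝓝 (c • σ 0, (1 : ℂ))) (𝓝 (σ 0, (1 : ℂ))) := by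
      have h1 : Tendsto (fun z : EN N × ℂ => c⁻¹ • z.1) (𝓝 (c • σ 0, (1 : ℂ))) (𝓝 (σ 0)) := ht.comp continuousAt_fst
      exact h1.prodMk_nhds continuousAt_snd
    filter_upwards [ht2.eventually h.inv] with z hz
    have e : c⁻¹ • z.2 • z.1 = z.2 • c⁻¹ • z.1 := by rw [smul_smul, smul_smul, mul_comm]
    rw [e]
    exact hz

theorem fderiv_shift {E : Type*} [NormedAddCommGroup E] [NormedSpace ℂ E] {f : ℂ × ℂ → E} (p q : ℂ × ℂ) :
    fderiv ℂ (fun q => f (p + q)) q = fderiv ℂ f (p + q) := by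
  rw [fderiv_comp_add_left]

theorem fderiv_csmul {σ : ℂ × ℂ → EN N} {q : ℂ × ℂ} (h : AnalyticAt ℂ σ q) (c : ℂ) (v : ℂ × ℂ) :
    fderiv ℂ (fun q => c • σ q) q v = c • fderiv ℂ σ q v := by
  have h1 : HasFDerivAt (fun q => c • σ q) (c • fderiv ℂ σ q) q := h.differentiableAt.hasFDerivAt.const_smul c
  rw [h1.fderiv]
  rfl

/-- the coefficient of the form for the lift `υ` -/
noncomputable def cf {Y : Set (EN N)} (α : TForm Y Λ u) (σ : ℂ × ℂ → EN N) (υ : ℂ × ℂ → ℂ) (p : ℂ × ℂ) : ℂ :=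
  α.toFun (υ p) (σ p) (fderiv ℂ σ p (1, 0)) (fderiv ℂ σ p (0, 1))

/-- a chart on the bidisc of radius `r` in which `D` is the axis `t = 0` -/
structure Bx (X D : Set (EN N)) (Λ : AddSubgroup ℂ) (u : EN N → ℂ) (σ : ℂ × ℂ → EN N) (τ : EN N → ℂ × ℂ) (υ : ℂ × ℂ → ℂ) (r : ℝ) : Prop where
  pos : 0 < r
  germ : ∀ p ∈ ball (0 : ℂ × ℂ) r, IsGermChart X (fun q => σ (p + q)) (fun y => τ y - p)
  σ_an : ∀ p ∈ ball (0 : ℂ × ℂ) r, AnalyticAt ℂ σ p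
  mem : ∀ p ∈ ball (0 : ℂ × ℂ) r, σ p ∈ X
  D_iff : ∀ p ∈ ball (0 : ℂ × ℂ) r, σ p ∈ D ↔ p.2 = 0
  υ_an : ∀ p ∈ ball (0 : ℂ × ℂ) r, AnalyticAt ℂ υ p
  lift : ∀ p ∈ ball (0 : ℂ × ℂ) r, u (σ p) - υ p ∈ Λ

theorem exists_bx {σ : ℂ × ℂ → EN N} {τ : EN N → ℂ × ℂ} {υ : ℂ × ℂ → ℂ} (h : IsGermChart X σ τ)
    (hD : ∀ᶠ p in 𝓝 (0 : ℂ × ℂ), σ p ∈ D ↔ p.2 = 0) (hυ : AnalyticAt ℂ υ 0) (hl : ∀ᶠ p in 𝓝 (0 : ℂ × ℂ), u (σ p) - υ p ∈ Λ) :
    ∃ r : ℝ, Bx X D Λ u σ τ υ r := by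
  obtain ⟨r, hr, h1⟩ := Metric.eventually_nhds_iff_ball.1
    ((germ_shift h).and (h.σ_an.eventually_analyticAt.and (h.σ_mem.and (hD.and (hυ.eventually_analyticAt.and hl)))))
  exact ⟨r, hr, fun p hp => (h1 p hp).1, fun p hp => (h1 p hp).2.1, fun p hp => (h1 p hp).2.2.1, fun p hp => (h1 p hp).2.2.2.1,
    fun p hp => (h1 p hp).2.2.2.2.1, fun p hp => (h1 p hp).2.2.2.2.2⟩

variable {σ : ℂ × ℂ → EN N} {τ : EN N → ℂ × ℂ} {υ : ℂ × ℂ → ℂ} {r : ℝ}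

theorem Bx.near (b : Bx X D Λ u σ τ υ r) {p : ℂ × ℂ} (hp : p ∈ ball (0 : ℂ × ℂ) r) : ∀ᶠ q in 𝓝 (0 : ℂ × ℂ), p + q ∈ ball (0 : ℂ × ℂ) r := by
  have ht : Tendsto (fun q : ℂ × ℂ => p + q) (𝓝 0) (𝓝 p) := by
    have : ContinuousAt (fun q : ℂ × ℂ => p + q) 0 := by fun_prop
    have h7 := this.tendsto
    rwa [add_zero] at h7
  exact ht.eventually (isOpen_ball.mem_nhds hp)

/-- the coefficient of a form with logarithmic poles, for all lifts, is `G / t` with `G` holomorphic on a bidisc which does not depend on the lift -/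
theorem Bx.num (hcl : ∀ x ∈ X, x ∉ D → ∀ᶠ y in 𝓝 x, y ∉ D) {α : TForm (X \ D) Λ u} (hlog : LogP α) (b : Bx X D Λ u σ τ υ r) {l : ℂ} (hl : l ∈ Λ) :
    ∃ G : ℂ × ℂ → ℂ, (∀ p ∈ ball (0 : ℂ × ℂ) r, AnalyticAt ℂ G p) ∧
      ∀ p ∈ ball (0 : ℂ × ℂ) r, p.2 ≠ 0 → p.2 * cf α σ (fun q => υ q + l) p = G p := by
  classical
  set a : ℂ × ℂ → ℂ := cf α σ (fun q => υ q + l) with ha
  set G : ℂ × ℂ → ℂ := fun p => if p.2 = 0 then limUnder (𝓝[≠] (0 : ℂ)) (fun t => t * a (p.1, t)) else p.2 * a p with hG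
  have hG1 : ∀ p : ℂ × ℂ, p.2 ≠ 0 → G p = p.2 * a p := fun p hp => if_neg hp
  refine ⟨G, ?_, fun p _ hp => (hG1 p hp).symm⟩
  intro p hp
  by_cases hp2 : p.2 = 0
  · -- the shifted chart
    have hs := b.germ p hp
    have hD : ∀ᶠ q in 𝓝 (0 : ℂ × ℂ), σ (p + q) ∈ D ↔ q.2 = 0 := by
      filter_upwards [b.near hp] with q hq
      rw [b.D_iff _ hq, Prod.snd_add, hp2, zero_add]
    have hυ : AnalyticAt ℂ (fun q => υ (p + q) + l) 0 := by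
      have h8 : AnalyticAt ℂ (fun q : ℂ × ℂ => p + q) 0 := by fun_prop
      exact (AnalyticAt.comp (g := υ) (f := fun q : ℂ × ℂ => p + q) (by rw [add_zero]; exact b.υ_an p hp) h8).add analyticAt_const
    have hlf : ∀ᶠ q in 𝓝 (0 : ℂ × ℂ), u (σ (p + q)) - (υ (p + q) + l) ∈ Λ := by
      filter_upwards [b.near hp] with q hq
      have h9 := Λ.sub_mem (b.lift _ hq) hl
      have e : u (σ (p + q)) - υ (p + q) - l = u (σ (p + q)) - (υ (p + q) + l) := by ring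
      rwa [e] at h9
    obtain ⟨g, hg, hge⟩ := hlog _ _ _ hs hD hυ hlf
    have hge2 : ∀ᶠ q in 𝓝 (0 : ℂ × ℂ), q.2 ≠ 0 → q.2 * a (p + q) = g q := by
      filter_upwards [hge] with q hq hq2
      have := hq hq2
      rw [fderiv_shift] at this
      exact this
    have hback : Tendsto (fun y : ℂ × ℂ => y - p) (𝓝 p) (𝓝 0) := by
      have : ContinuousAt (fun y : ℂ × ℂ => y - p) p := by fun_prop
      have h7 := this.tendsto
      rwa [sub_self] at h7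
    have hgan : AnalyticAt ℂ (fun y => g (y - p)) p := by
      have h8 : AnalyticAt ℂ (fun y : ℂ × ℂ => y - p) p := by fun_prop
      exact AnalyticAt.comp (g := g) (f := fun y : ℂ × ℂ => y - p) (by rw [sub_self]; exact hg) h8
    refine hgan.congr ?_
    have h3 := hback.eventually (hge2.eventually_nhds.and hg.eventually_analyticAt)
    filter_upwards [h3] with y hy
    obtain ⟨hy1, hy2⟩ := hy
    by_cases hy0 : y.2 = 0
    · have e : G y = limUnder (𝓝[≠] (0 : ℂ)) (fun t => t * a (y.1, t)) := if_pos hy0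
      rw [e]
      symm
      apply Tendsto.limUnder_eq
      -- the curve `t ↦ y - p + (0, t)`
      have hct : ContinuousAt (fun t : ℂ => y - p + ((0 : ℂ), t)) 0 := by fun_prop
      have e0 : y - p + ((0 : ℂ), (0 : ℂ)) = y - p := by
        have : ((0 : ℂ), (0 : ℂ)) = (0 : ℂ × ℂ) := rfl
        rw [this, add_zero]
      have hct2 : Tendsto (fun t : ℂ => y - p + ((0 : ℂ), t)) (𝓝 0) (𝓝 (y - p)) := by
        have := hct.tendsto
        rwa [e0] at this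
      have h4 : Tendsto (fun t : ℂ => g (y - p + ((0 : ℂ), t))) (𝓝 0) (𝓝 (g (y - p))) := hy2.continuousAt.tendsto.comp hct2
      refine (h4.mono_left nhdsWithin_le_nhds).congr' ?_
      have h5 := hct2.eventually hy1
      filter_upwards [nhdsWithin_le_nhds h5, self_mem_nhdsWithin] with t ht ht0
      have h6 : (y - p + ((0 : ℂ), t)).2 = t := by
        rw [Prod.snd_add, Prod.snd_sub, hy0, hp2]
        simp
      have h7 := ht (by rw [h6]; exact ht0)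
      rw [h6] at h7
      have h8 : p + (y - p + ((0 : ℂ), t)) = (y.1, t) := by
        apply Prod.ext
        · simp
        · rw [Prod.snd_add, h6, hp2, zero_add]
      rw [h8] at h7
      exact h7.symm
    · rw [hG1 y hy0]
      have h6 : (y - p).2 = y.2 := by rw [Prod.snd_sub, hp2, sub_zero]
      have h7 := hy1.self_of_nhds (by rw [h6]; exact hy0)
      rw [h6, add_sub_cancel] at h7
      exact h7.symm
  · have h1 : ∀ᶠ q in 𝓝 p, q.2 ≠ 0 := continuousAt_snd.eventually_ne hp2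
    have h2 : ∀ᶠ q in 𝓝 p, q ∈ ball (0 : ℂ × ℂ) r := isOpen_ball.mem_nhds hp
    have h3 : AnalyticAt ℂ a p := by
      refine α.analytic σ (fun q => υ q + l) p (b.σ_an p hp) ((b.υ_an p hp).add analyticAt_const) ?_
      filter_upwards [h1, h2] with q hq1 hq2
      refine ⟨⟨b.mem q hq2, fun h4 => hq1 ((b.D_iff q hq2).1 h4)⟩, ?_⟩
      have h9 := Λ.sub_mem (b.lift _ hq2) hl
      have e : u (σ q) - υ q - l = u (σ q) - (υ q + l) := by ring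
      rwa [e] at h9
    have h4 : AnalyticAt ℂ (fun q : ℂ × ℂ => q.2 * a q) p := analyticAt_snd.mul h3
    refine h4.congr ?_
    filter_upwards [h1] with q hq
    exact (hG1 q hq).symm

/-- if the form extends near `x`, the numerator vanishes on `D` -/
theorem num_zero_of_ld (hX : OCone X) (hΛ : Dsc Λ) {α : TForm (X \ D) Λ u} (h : IsGermChart X σ τ)
    (hD : ∀ᶠ p in 𝓝 (0 : ℂ × ℂ), σ p ∈ D ↔ p.2 = 0) (hυ : AnalyticAt ℂ υ 0) (hl : ∀ᶠ p in 𝓝 (0 : ℂ × ℂ), u (σ p) - υ p ∈ Λ)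
    {g : ℂ × ℂ → ℂ} (hg : AnalyticAt ℂ g 0) (hge : ∀ᶠ p in 𝓝 (0 : ℂ × ℂ), p.2 ≠ 0 → p.2 * cf α σ υ p = g p)
    {τ' : EN N → ℂ × ℂ} {V G : EN N → ℂ} (hLd : Ld α (σ 0) τ' V G) (hV : V (σ 0) = υ 0) : ∀ᶠ s in 𝓝 (0 : ℂ), g (s, 0) = 0 := by
  have hσc := h.σ_an.continuousAt
  have hVe : ∀ᶠ p in 𝓝 (0 : ℂ × ℂ), V (σ p) = υ p := by
    have hVan : AnalyticAt ℂ (fun p => V (σ p)) 0 := AnalyticAt.comp (g := V) (f := σ) hLd.V_an h.σ_an
    have h3 := dsc_eq hΛ (f := fun p => V (σ p) - υ p) (hVan.continuousAt.sub hυ.continuousAt)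
      (by show V (σ 0) - υ 0 = 0; rw [hV, sub_self])
    filter_upwards [h3, hl, hσc.eventually hLd.lift, h.σ_mem] with p h4 h5 h6 h7
    have h8 := Λ.sub_mem h5 (h6 h7)
    have e : u (σ p) - υ p - (u (σ p) - V (σ p)) = V (σ p) - υ p := by ring
    rw [e] at h8
    exact sub_eq_zero.1 (h4 h8)
  -- the continuous function which is the coefficient
  set c : ℂ × ℂ → ℂ := fun p => G (σ p) * det2 (fderiv ℂ τ' (σ p) (fderiv ℂ σ p (1, 0))) (fderiv ℂ τ' (σ p) (fderiv ℂ σ p (0, 1))) with hc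
  have hcc : ∀ᶠ p in 𝓝 (0 : ℂ × ℂ), ContinuousAt c p := by
    filter_upwards [hσc.eventually hLd.near, h.σ_an.eventually_analyticAt] with p h4 h5
    have h6 := det2_cont (v := fderiv ℂ σ p (1, 0)) (w := fderiv ℂ σ p (0, 1)) h4.τ_an h4.G_an
    have h7 : ContinuousAt (fun p : ℂ × ℂ => (σ p, fderiv ℂ σ p (1, 0), fderiv ℂ σ p (0, 1))) p := by
      have h8 : ContinuousAt (fderiv ℂ σ) p := h5.fderiv.continuousAt
      exact h5.continuousAt.prodMk ((h8.clm_apply continuousAt_const).prodMk (h8.clm_apply continuousAt_const))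
    exact ContinuousAt.comp (g := fun t : EN N × EN N × EN N => G t.1 * det2 (fderiv ℂ τ' t.1 t.2.1) (fderiv ℂ τ' t.1 t.2.2))
      (f := fun p : ℂ × ℂ => (σ p, fderiv ℂ σ p (1, 0), fderiv ℂ σ p (0, 1))) h6 h7
  have hev : ∀ᶠ p in 𝓝 (0 : ℂ × ℂ), p.2 ≠ 0 → p.2 * c p = g p := by
    filter_upwards [hge, hVe, hσc.eventually hLd.eq, h.σ_mem.eventually_nhds, h.σ_an.eventually_analyticAt, hD] with p h4 h5 h6 h7 h8 h9 hp
    have hm : σ p ∈ X := h7.self_of_nhds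
    have hnd : σ p ∉ D := fun h10 => hp (h9.1 h10)
    have ht : ∀ e : ℂ × ℂ, Tan X (σ p) (fderiv ℂ σ p e) := by
      intro e
      have := tan_param hX h8 h7 e 0
      rwa [zero_smul, add_zero] at this
    have e1 := h6 hm hnd _ _ (ht (1, 0)) (ht (0, 1))
    rw [h5] at e1
    rw [← h4 hp]
    show p.2 * (G (σ p) * _) = p.2 * α.toFun (υ p) (σ p) _ _
    rw [e1]
  have hs : Tendsto (fun s : ℂ => ((s, 0) : ℂ × ℂ)) (𝓝 0) (𝓝 0) := by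
    have h1 : Continuous fun s : ℂ => ((s, 0) : ℂ × ℂ) := by fun_prop
    exact h1.tendsto' 0 0 rfl
  filter_upwards [hs.eventually (hcc.and (hev.eventually_nhds.and hg.eventually_analyticAt))] with s hs1
  obtain ⟨h4, h5, h6⟩ := hs1
  have hct : Tendsto (fun t : ℂ => ((s, t) : ℂ × ℂ)) (𝓝 0) (𝓝 (s, 0)) := by
    have h1 : Continuous fun t : ℂ => ((s, t) : ℂ × ℂ) := by fun_prop
    exact h1.tendsto 0
  have hl1 : Tendsto (fun t : ℂ => g (s, t)) (𝓝[≠] 0) (𝓝 (g (s, 0))) :=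
    (h6.continuousAt.tendsto.comp hct).mono_left nhdsWithin_le_nhds
  have hl2 : Tendsto (fun t : ℂ => t * c (s, t)) (𝓝[≠] 0) (𝓝 (0 * c (s, 0))) := by
    have h7 : Tendsto (fun t : ℂ => t * c (s, t)) (𝓝 0) (𝓝 (0 * c (s, 0))) := tendsto_id.mul (h4.tendsto.comp hct)
    exact h7.mono_left nhdsWithin_le_nhds
  rw [zero_mul] at hl2
  refine tendsto_nhds_unique (hl1.congr' ?_) hl2
  filter_upwards [nhdsWithin_le_nhds (hct.eventually h5), self_mem_nhdsWithin] with t h8 h9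
  exact (h8 h9).symm

/-- if the numerator vanishes on `D`, the coefficient extends -/
theorem coef_of_num_zero {α : TForm (X \ D) Λ u} (hD : ∀ᶠ p in 𝓝 (0 : ℂ × ℂ), σ p ∈ D ↔ p.2 = 0)
    {g : ℂ × ℂ → ℂ} (hg : AnalyticAt ℂ g 0) (hge : ∀ᶠ p in 𝓝 (0 : ℂ × ℂ), p.2 ≠ 0 → p.2 * cf α σ υ p = g p)
    (h0 : ∀ᶠ s in 𝓝 (0 : ℂ), g (s, 0) = 0) : ∃ h : ℂ × ℂ → ℂ, AnalyticAt ℂ h 0 ∧ ∀ᶠ p in 𝓝 (0 : ℂ × ℂ), σ p ∉ D → cf α σ υ p = h p := by
  obtain ⟨h, hh, hgh⟩ := Pool.Agent.H17BP.exists_div_y hg h0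
  refine ⟨h, hh, ?_⟩
  filter_upwards [hge, hgh, hD] with p h1 h2 h3 h4
  have hp : p.2 ≠ 0 := fun h5 => h4 (h3.2 h5)
  have h6 := h1 hp
  rw [h2, smul_eq_mul] at h6
  exact mul_left_cancel₀ hp h6

end Pool.Agent.H86.LU

end

section

/-!
# LU Q: the part of `D` where the residue vanishes is open and closed in `D`
-/

set_option autoImplicit false

open Topology Filter Metric

namespace Pool.Agent.H86.LU

attribute [-instance] ProperSMul.toContinuousSMul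

open Pool.Agent.H36.BP (EN fs wd IsGermChart)
open Pool.Agent.H14.PP (IsCone Chart Tan CurveAt)
open Pool.Agent.H62.EF (Lat MN pr TorusMap Sec Charts DU det2)
open Pool.Agent.H62.EL (TForm Per VanZero Thin tc)
open Pool.Agent.H18.LU (OCone Dsc LogP HorAt)

variable {N : ℕ} {X D : Set (EN N)} {Λ : AddSubgroup ℂ} {u : EN N → ℂ}

/-- the form extends near `x`, for the lift `z` -/
def Exd (α : TForm (X \ D) Λ u) (x : EN N) (z : ℂ) : Prop :=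
  ∃ (τ : EN N → ℂ × ℂ) (V G : EN N → ℂ), Ld α x τ V G ∧ V x = z

/-- the part of `D` where the residue vanishes -/
def QQ (α : TForm (X \ D) Λ u) : Set (EN N) := {x | x ∈ D ∧ ∀ z, u x - z ∈ Λ → Exd α x z}

theorem Exd.smul (hX : OCone X) (hu : TorusMap X Λ u) (hs : ∀ x ∈ D, ∀ c : ℂ, c ≠ 0 → c • x ∈ D)
    (hcl : ∀ x ∈ X, x ∉ D → ∀ᶠ y in 𝓝 x, y ∉ D) {α : TForm (X \ D) Λ u} {x : EN N} {z : ℂ} (h : Exd α x z) {c : ℂ} (hc : c ≠ 0) :
    Exd α (c • x) z := by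
  obtain ⟨τ, V, G, h1, h2⟩ := h
  refine ⟨_, _, _, h1.smul hX hu hs hcl hc, ?_⟩
  show V (c⁻¹ • (c • x)) = z
  rw [smul_smul, inv_mul_cancel₀ hc, one_smul, h2]

theorem QQ_smul (hX : OCone X) (hu : TorusMap X Λ u) (hsub : D ⊆ X) (hs : ∀ x ∈ D, ∀ c : ℂ, c ≠ 0 → c • x ∈ D)
    (hcl : ∀ x ∈ X, x ∉ D → ∀ᶠ y in 𝓝 x, y ∉ D) {α : TForm (X \ D) Λ u} {x : EN N} (hx : x ∈ QQ α) {c : ℂ} (hc : c ≠ 0) :
    c • x ∈ QQ α := by
  refine ⟨hs x hx.1 c hc, fun z hz => (hx.2 z ?_).smul hX hu hs hcl hc⟩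
  have h1 := Λ.sub_mem hz (hu.smul x (hsub hx.1) c hc)
  have e : u (c • x) - z - (u (c • x) - u x) = u x - z := by ring
  rwa [e] at h1

variable {σ : ℂ × ℂ → EN N} {τ : EN N → ℂ × ℂ} {υ : ℂ × ℂ → ℂ} {r : ℝ}

theorem Bx.shift_D (b : Bx X D Λ u σ τ υ r) {p : ℂ × ℂ} (hp : p ∈ ball (0 : ℂ × ℂ) r) (hp2 : p.2 = 0) :
    ∀ᶠ q in 𝓝 (0 : ℂ × ℂ), σ (p + q) ∈ D ↔ q.2 = 0 := by
  filter_upwards [b.near hp] with q hq
  rw [b.D_iff _ hq, Prod.snd_add, hp2, zero_add]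

theorem Bx.shift_υ (b : Bx X D Λ u σ τ υ r) {p : ℂ × ℂ} (hp : p ∈ ball (0 : ℂ × ℂ) r) (l : ℂ) :
    AnalyticAt ℂ (fun q => υ (p + q) + l) 0 := by
  have h8 : AnalyticAt ℂ (fun q : ℂ × ℂ => p + q) 0 := by fun_prop
  exact (AnalyticAt.comp (g := υ) (f := fun q : ℂ × ℂ => p + q) (by rw [add_zero]; exact b.υ_an p hp) h8).add analyticAt_const

theorem Bx.shift_lift (b : Bx X D Λ u σ τ υ r) {p : ℂ × ℂ} (hp : p ∈ ball (0 : ℂ × ℂ) r) {l : ℂ} (hl : l ∈ Λ) :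
    ∀ᶠ q in 𝓝 (0 : ℂ × ℂ), u (σ (p + q)) - (υ (p + q) + l) ∈ Λ := by
  filter_upwards [b.near hp] with q hq
  have h9 := Λ.sub_mem (b.lift _ hq) hl
  have e : u (σ (p + q)) - υ (p + q) - l = u (σ (p + q)) - (υ (p + q) + l) := by ring
  rwa [e] at h9

theorem shift_an {G : ℂ × ℂ → ℂ} {p : ℂ × ℂ} (h : AnalyticAt ℂ G p) : AnalyticAt ℂ (fun q => G (p + q)) 0 := by
  have h8 : AnalyticAt ℂ (fun q : ℂ × ℂ => p + q) 0 := by fun_prop
  exact AnalyticAt.comp (g := G) (f := fun q : ℂ × ℂ => p + q) (by rw [add_zero]; exact h) h8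

theorem Bx.shift_eq (b : Bx X D Λ u σ τ υ r) {α : TForm (X \ D) Λ u} {p : ℂ × ℂ} (hp : p ∈ ball (0 : ℂ × ℂ) r) (hp2 : p.2 = 0) {l : ℂ}
    {G : ℂ × ℂ → ℂ} (hG : ∀ q ∈ ball (0 : ℂ × ℂ) r, q.2 ≠ 0 → q.2 * cf α σ (fun q => υ q + l) q = G q) :
    ∀ᶠ q in 𝓝 (0 : ℂ × ℂ), q.2 ≠ 0 → q.2 * cf α (fun q => σ (p + q)) (fun q => υ (p + q) + l) q = G (p + q) := by
  filter_upwards [b.near hp] with q hq hq2
  have e : (p + q).2 = q.2 := by rw [Prod.snd_add, hp2, zero_add]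
  have h1 := hG _ hq (by rw [e]; exact hq2)
  rw [e] at h1
  rw [← h1]
  show q.2 * α.toFun (υ (p + q) + l) (σ (p + q)) (fderiv ℂ (fun q => σ (p + q)) q (1, 0)) (fderiv ℂ (fun q => σ (p + q)) q (0, 1)) = _
  rw [fderiv_shift]
  rfl

theorem Bx.zero_of_exd (hX : OCone X) (hΛ : Dsc Λ) {α : TForm (X \ D) Λ u} (b : Bx X D Λ u σ τ υ r) {l : ℂ} (hl : l ∈ Λ)
    {G : ℂ × ℂ → ℂ} (hGa : ∀ p ∈ ball (0 : ℂ × ℂ) r, AnalyticAt ℂ G p)
    (hG : ∀ q ∈ ball (0 : ℂ × ℂ) r, q.2 ≠ 0 → q.2 * cf α σ (fun q => υ q + l) q = G q)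
    {p : ℂ × ℂ} (hp : p ∈ ball (0 : ℂ × ℂ) r) (hp2 : p.2 = 0) (h : Exd α (σ p) (υ p + l)) : ∀ᶠ s in 𝓝 p.1, G (s, 0) = 0 := by
  obtain ⟨τ', V, G', h1, h2⟩ := h
  have h3 := num_zero_of_ld (α := α) hX hΛ (b.germ p hp) (b.shift_D hp hp2) (b.shift_υ hp l) (b.shift_lift hp hl) (shift_an (hGa p hp))
    (b.shift_eq hp hp2 hG) (τ' := τ') (V := V) (G := G') (by simp only [add_zero]; exact h1) (by simp only [add_zero]; exact h2)
  have ht : Tendsto (fun s : ℂ => s - p.1) (𝓝 p.1) (𝓝 0) := by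
    have : ContinuousAt (fun s : ℂ => s - p.1) p.1 := by fun_prop
    have h7 := this.tendsto
    rwa [sub_self] at h7
  filter_upwards [ht.eventually h3] with s hs
  have e : p + ((s - p.1, 0) : ℂ × ℂ) = (s, 0) := by
    apply Prod.ext
    · simp
    · rw [Prod.snd_add, hp2]
      simp
  rw [e] at hs
  exact hs

theorem Bx.exd_of_zero (hX : OCone X) (hu : TorusMap X Λ u) (hs : ∀ x ∈ D, ∀ c : ℂ, c ≠ 0 → c • x ∈ D)
    (hcl : ∀ x ∈ X, x ∉ D → ∀ᶠ y in 𝓝 x, y ∉ D) {α : TForm (X \ D) Λ u} (b : Bx X D Λ u σ τ υ r) {l : ℂ} (hl : l ∈ Λ)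
    {G : ℂ × ℂ → ℂ} (hGa : ∀ p ∈ ball (0 : ℂ × ℂ) r, AnalyticAt ℂ G p)
    (hG : ∀ q ∈ ball (0 : ℂ × ℂ) r, q.2 ≠ 0 → q.2 * cf α σ (fun q => υ q + l) q = G q)
    {p : ℂ × ℂ} (hp : p ∈ ball (0 : ℂ × ℂ) r) (hp2 : p.2 = 0) (h : ∀ᶠ s in 𝓝 p.1, G (s, 0) = 0) : Exd α (σ p) (υ p + l) := by
  have h3 : ∀ᶠ s in 𝓝 (0 : ℂ), G (p + ((s, 0) : ℂ × ℂ)) = 0 := by
    have ht : Tendsto (fun s : ℂ => p.1 + s) (𝓝 0) (𝓝 p.1) := by
      have : ContinuousAt (fun s : ℂ => p.1 + s) 0 := by fun_prop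
      have h7 := this.tendsto
      rwa [add_zero] at h7
    filter_upwards [ht.eventually h] with s hs
    have e : p + ((s, 0) : ℂ × ℂ) = (p.1 + s, 0) := by
      apply Prod.ext
      · simp
      · rw [Prod.snd_add, hp2]
        simp
    rw [e]
    exact hs
  obtain ⟨g, hg, hge⟩ := coef_of_num_zero (α := α) (υ := fun q => υ (p + q) + l) (b.shift_D hp hp2) (shift_an (hGa p hp)) (b.shift_eq hp hp2 hG) h3
  have h4 := ld_of_germ hX hu hs hcl α (b.germ p hp) (b.shift_υ hp l) (b.shift_lift hp hl) hg hge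
  simp only [add_zero] at h4
  refine ⟨_, _, _, h4, ?_⟩
  have h5 : τ (σ p) - p = 0 := by
    have h6 := (b.germ p hp).left.self_of_nhds
    simp only [add_zero] at h6
    exact h6
  show υ (p + (τ (σ p) - p)) + l = υ p + l
  rw [h5, add_zero]

/-- points of `D` near the centre of the chart -/
theorem Bx.cover (hsD : ∀ x ∈ D, ∀ c : ℂ, c ≠ 0 → c • x ∈ D) (hsub : D ⊆ X) (b : Bx X D Λ u σ τ υ r) :
    ∀ᶠ y in 𝓝 (σ 0), y ∈ D → ∃ (c s : ℂ), c ≠ 0 ∧ ‖s‖ < r ∧ y = c • σ (s, 0) ∧ (τ y = (s, 0)) := by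
  have h0 := b.germ 0 (mem_ball_self b.pos)
  have hr := h0.right
  have hτ0 : τ (σ 0) = 0 := by
    have h6 := h0.left.self_of_nhds
    simp only [add_zero, sub_zero] at h6
    exact h6
  have hτa : AnalyticAt ℂ τ (σ 0) := by
    have h6 := h0.τ_an
    simp only [add_zero, sub_zero] at h6
    exact h6
  have hτc : Tendsto τ (𝓝 (σ 0)) (𝓝 0) := by
    have := hτa.continuousAt.tendsto
    rwa [hτ0] at this
  simp only [add_zero, zero_add, sub_zero] at hr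
  filter_upwards [hr, hτc.eventually (isOpen_ball.mem_nhds (mem_ball_self b.pos))] with y h1 h2 hy
  obtain ⟨c, hc, hyc⟩ := h1 (hsub hy)
  have h3 : σ (τ y) ∈ D := by
    have h4 := hsD y hy c⁻¹ (inv_ne_zero hc)
    rw [hyc, smul_smul, inv_mul_cancel₀ hc, one_smul] at h4
    exact h4
  have h4 := (b.D_iff _ h2).1 h3
  have h5 : τ y = ((τ y).1, 0) := Prod.ext rfl h4
  refine ⟨c, (τ y).1, hc, ?_, ?_, h5⟩
  · have h6 : τ y ∈ ball (0 : ℂ × ℂ) r := h2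
    rw [mem_ball_zero_iff] at h6
    exact (norm_fst_le _).trans_lt h6
  · rw [← h5]
    exact hyc

theorem mem_ball_s0 {s : ℂ} (hs : ‖s‖ < r) : ((s, 0) : ℂ × ℂ) ∈ ball (0 : ℂ × ℂ) r := by
  rw [mem_ball_zero_iff, Prod.norm_def]
  simp only [norm_zero]
  exact max_lt hs ((norm_nonneg s).trans_lt hs)

theorem slice_an {G : ℂ × ℂ → ℂ} (hGa : ∀ p ∈ ball (0 : ℂ × ℂ) r, AnalyticAt ℂ G p) {s : ℂ} (hs : ‖s‖ < r) :
    AnalyticAt ℂ (fun s : ℂ => G (s, 0)) s := by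
  have h1 : AnalyticAt ℂ (fun s : ℂ => ((s, 0) : ℂ × ℂ)) s := analyticAt_id.prod analyticAt_const
  exact AnalyticAt.comp (g := G) (f := fun s : ℂ => ((s, 0) : ℂ × ℂ)) (hGa _ (mem_ball_s0 hs)) h1

/-- a point of `D` with a chart on a bidisc -/
theorem exists_bx_at {x : EN N} {b : ℂ} {i : ℕ} (h : HorAt X Λ u D x b i) :
    ∃ (σ : ℂ × ℂ → EN N) (τ : EN N → ℂ × ℂ) (r : ℝ), Bx X D Λ u σ τ (fun p => b + p.1 ^ i) r ∧ σ 0 = x ∧ IsGermChart X σ τ := by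
  obtain ⟨σ, τ, h1, h2, h3, h4⟩ := h
  obtain ⟨r, hr⟩ := exists_bx h1 h4 (υ := fun p => b + p.1 ^ i) (analyticAt_const.add (analyticAt_fst.pow i)) h3
  exact ⟨σ, τ, r, hr, h2, h1⟩

theorem QQ_open (hX : OCone X) (hu : TorusMap X Λ u) (hΛ : Dsc Λ) (hsub : D ⊆ X) (hs : ∀ x ∈ D, ∀ c : ℂ, c ≠ 0 → c • x ∈ D)
    (hcl : ∀ x ∈ X, x ∉ D → ∀ᶠ y in 𝓝 x, y ∉ D) (hh : ∀ x ∈ D, ∃ (b : ℂ) (i : ℕ), HorAt X Λ u D x b i) {α : TForm (X \ D) Λ u}
    (hlog : LogP α) {x : EN N} (hx : x ∈ QQ α) : ∀ᶠ y in 𝓝 x, y ∈ D → y ∈ QQ α := by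
  obtain ⟨b, i, hb⟩ := hh x hx.1
  obtain ⟨σ, τ, r, B, h2, -⟩ := exists_bx_at hb
  have hcov := B.cover hs hsub
  rw [h2] at hcov
  filter_upwards [hcov] with y hy hyD
  obtain ⟨c, s, hc, hsr, hyc, -⟩ := hy hyD
  rw [hyc]
  refine QQ_smul hX hu hsub hs hcl ?_ hc
  have hm := mem_ball_s0 hsr
  refine ⟨(B.D_iff _ hm).2 rfl, fun z hz => ?_⟩
  set l : ℂ := z - (b + s ^ i) with hl
  have hlm : l ∈ Λ := by
    have h3 := Λ.sub_mem (B.lift _ hm) hz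
    have e : u (σ (s, 0)) - (b + s ^ i) - (u (σ (s, 0)) - z) = l := by rw [hl]; ring
    rwa [e] at h3
  obtain ⟨G, hGa, hG⟩ := B.num hcl hlog hlm
  have hz0 := hx.2 (b + (0 : ℂ) ^ i + l) (by
    have h3 := Λ.sub_mem (B.lift 0 (mem_ball_self B.pos)) hlm
    rw [h2] at h3
    have e : u x - (b + (0 : ℂ × ℂ).1 ^ i) - l = u x - (b + (0 : ℂ) ^ i + l) := by simp; ring
    rwa [e] at h3)
  have h3 := B.zero_of_exd hX hΛ hlm hGa hG (mem_ball_self B.pos) rfl (by rw [h2]; exact hz0)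
  have h4 : ∀ s' : ℂ, ‖s'‖ < r → G (s', 0) = 0 := by
    have ha : AnalyticOnNhd ℂ (fun s : ℂ => G (s, 0)) (ball 0 r) := fun s' hs' => slice_an hGa (by simpa using hs')
    have h5 := ha.eqOn_zero_of_preconnected_of_eventuallyEq_zero (convex_ball (0 : ℂ) r).isPreconnected (mem_ball_self B.pos) h3
    intro s' hs'
    exact h5 (by simpa using hs')
  have h5 : ∀ᶠ s' in 𝓝 s, G (s', 0) = 0 := by
    have h6 : ∀ᶠ s' in 𝓝 s, ‖s'‖ < r := continuous_norm.continuousAt.eventually_lt_const hsr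
    exact h6.mono h4
  have h6 := B.exd_of_zero hX hu hs hcl hlm hGa hG hm rfl h5
  have e : b + ((s, 0) : ℂ × ℂ).1 ^ i + l = z := by rw [hl]; ring
  rwa [e] at h6

theorem QQ_closed (hX : OCone X) (hu : TorusMap X Λ u) (hΛ : Dsc Λ) (hsub : D ⊆ X) (hs : ∀ x ∈ D, ∀ c : ℂ, c ≠ 0 → c • x ∈ D)
    (hcl : ∀ x ∈ X, x ∉ D → ∀ᶠ y in 𝓝 x, y ∉ D) (hh : ∀ x ∈ D, ∃ (b : ℂ) (i : ℕ), HorAt X Λ u D x b i) {α : TForm (X \ D) Λ u}
    (hlog : LogP α) {x : EN N} (hxD : x ∈ D) (hx : x ∉ QQ α) : ∀ᶠ y in 𝓝 x, y ∈ D → y ∉ QQ α := by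
  obtain ⟨b, i, hb⟩ := hh x hxD
  obtain ⟨σ, τ, r, B, h2, -⟩ := exists_bx_at hb
  have hcov := B.cover hs hsub
  rw [h2] at hcov
  have h3 : ∃ z, u x - z ∈ Λ ∧ ¬ Exd α x z := by
    by_contra h4
    push Not at h4
    exact hx ⟨hxD, fun z hz => h4 z hz⟩
  obtain ⟨z, hz, hne⟩ := h3
  set l : ℂ := z - (b + (0 : ℂ) ^ i) with hl
  have hlm : l ∈ Λ := by
    have h3 := B.lift 0 (mem_ball_self B.pos)
    rw [h2] at h3
    have h4 := Λ.sub_mem h3 hz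
    have e : u x - (b + (0 : ℂ × ℂ).1 ^ i) - (u x - z) = l := by rw [hl]; simp
    rwa [e] at h4
  obtain ⟨G, hGa, hG⟩ := B.num hcl hlog hlm
  have hG0 : AnalyticAt ℂ (fun s : ℂ => G (s, 0)) 0 := slice_an hGa (by rw [norm_zero]; exact B.pos)
  have h5 : ∀ᶠ s in 𝓝[≠] (0 : ℂ), G (s, 0) ≠ 0 := by
    rcases hG0.eventually_eq_zero_or_eventually_ne_zero with h6 | h6
    · exfalso
      apply hne
      have h7 := B.exd_of_zero hX hu hs hcl hlm hGa hG (mem_ball_self B.pos) rfl h6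
      rw [h2] at h7
      have e : b + (0 : ℂ × ℂ).1 ^ i + l = z := by rw [hl]; simp
      rwa [e] at h7
    · exact h6
  have hτ0 : τ (σ 0) = 0 := by
    have h6 := (B.germ 0 (mem_ball_self B.pos)).left.self_of_nhds
    simp only [add_zero, sub_zero] at h6
    exact h6
  have hτa : AnalyticAt ℂ τ (σ 0) := by
    have h6 := (B.germ 0 (mem_ball_self B.pos)).τ_an
    simp only [add_zero, sub_zero] at h6
    exact h6
  have hτc : Tendsto (fun y => (τ y).1) (𝓝 x) (𝓝 0) := by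
    have h6 : ContinuousAt (fun y => (τ y).1) (σ 0) := hτa.continuousAt.fst
    have h7 := h6.tendsto
    rw [hτ0, h2] at h7
    exact h7
  rw [eventually_nhdsWithin_iff] at h5
  filter_upwards [hcov, hτc.eventually h5] with y hy hy5 hyD hyQ
  obtain ⟨c, s, hc, hsr, hyc, hτy⟩ := hy hyD
  rw [hτy] at hy5
  have hm := mem_ball_s0 hsr
  have h6 : σ (s, 0) ∈ QQ α := by
    have h7 := QQ_smul hX hu hsub hs hcl hyQ (inv_ne_zero hc)
    rwa [hyc, smul_smul, inv_mul_cancel₀ hc, one_smul] at h7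
  by_cases hs0 : s = 0
  · apply hx
    rw [← h2]
    rw [hs0] at h6
    exact h6
  · have h7 := h6.2 (b + s ^ i + l) (by
      have h8 := Λ.sub_mem (B.lift _ hm) hlm
      have e : u (σ (s, 0)) - (b + ((s, 0) : ℂ × ℂ).1 ^ i) - l = u (σ (s, 0)) - (b + s ^ i + l) := by ring
      rwa [e] at h8)
    have h8 := B.zero_of_exd hX hΛ hlm hGa hG hm rfl h7
    exact hy5 hs0 h8.self_of_nhds

end Pool.Agent.H86.LU

end

section

/-!
# LU Rs: residues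
-/

set_option autoImplicit false

open Topology Filter Metric

namespace Pool.Agent.H86.LU

attribute [-instance] ProperSMul.toContinuousSMul

open Pool.Agent.H36.BP (EN fs wd IsGermChart)
open Pool.Agent.H14.PP (IsCone Chart Tan CurveAt)
open Pool.Agent.H62.EF (Lat MN pr TorusMap Sec Charts DU det2)
open Pool.Agent.H62.EL (TForm Per VanZero Thin tc)
open Pool.Agent.H18.LU (OCone Dsc LogP HorAt)

variable {N : ℕ} {X D : Set (EN N)} {Λ : AddSubgroup ℂ} {u : EN N → ℂ}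

theorem germ_lift (hu : TorusMap X Λ u) {σ : ℂ × ℂ → EN N} {τ : EN N → ℂ × ℂ} (h : IsGermChart X σ τ) {υ : ℂ × ℂ → ℂ}
    (hl : ∀ᶠ p in 𝓝 (0 : ℂ × ℂ), u (σ p) - υ p ∈ Λ) : ∀ᶠ y in 𝓝 (σ 0), y ∈ X → u y - υ (τ y) ∈ Λ := by
  have hτ0 : τ (σ 0) = 0 := h.left.self_of_nhds
  have hτc : Tendsto τ (𝓝 (σ 0)) (𝓝 0) := by
    have := h.τ_an.continuousAt.tendsto
    rwa [hτ0] at this
  filter_upwards [h.right, hτc.eventually hl, hτc.eventually h.σ_mem] with y h1 h2 h3 hy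
  obtain ⟨c, hc, hyc⟩ := h1 hy
  have h4 := hu.smul _ h3 c hc
  rw [← hyc] at h4
  have h5 := Λ.add_mem h4 h2
  have e : u y - u (σ (τ y)) + (u (σ (τ y)) - υ (τ y)) = u y - υ (τ y) := by ring
  rwa [e] at h5

/-- the form near the centre of a germ chart -/
theorem germ_form (hX : OCone X) (hu : TorusMap X Λ u) (hs : ∀ x ∈ D, ∀ c : ℂ, c ≠ 0 → c • x ∈ D)
    (hcl : ∀ x ∈ X, x ∉ D → ∀ᶠ y in 𝓝 x, y ∉ D) (α : TForm (X \ D) Λ u) {σ : ℂ × ℂ → EN N} {τ : EN N → ℂ × ℂ}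
    (h : IsGermChart X σ τ) {υ : ℂ × ℂ → ℂ} (hl : ∀ᶠ p in 𝓝 (0 : ℂ × ℂ), u (σ p) - υ p ∈ Λ) :
    ∀ᶠ y in 𝓝 (σ 0), y ∈ X → y ∉ D → σ (τ y) ∉ D ∧ ∀ v w, Tan X y v → Tan X y w →
      α.toFun (υ (τ y)) y v w = cf α σ υ (τ y) * det2 (fderiv ℂ τ y v) (fderiv ℂ τ y w) := by
  have hτ0 : τ (σ 0) = 0 := h.left.self_of_nhds
  have hτc : Tendsto τ (𝓝 (σ 0)) (𝓝 0) := by
    have := h.τ_an.continuousAt.tendsto
    rwa [hτ0] at this
  have hY := ocone_sdiff hX hs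
  filter_upwards [germ_tan hX h, germ_lift hu h hl, hτc.eventually h.σ_mem.eventually_nhds, hτc.eventually h.σ_an.eventually_analyticAt,
    hτc.eventually hl] with y h1 h2 h4 h5 h6 hy hy0
  obtain ⟨c, hc, hyc, h7⟩ := h1 hy
  set p : ℂ × ℂ := τ y with hp
  have hσX : σ p ∈ X := h4.self_of_nhds
  have hσD : σ p ∉ D := fun h8 => hy0 (hyc ▸ hs _ h8 c hc)
  refine ⟨hσD, fun v w hv hw => ?_⟩
  obtain ⟨b₁, hb₁⟩ := h7 v hv
  obtain ⟨b₂, hb₂⟩ := h7 w hw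
  have hmem : ∀ᶠ q in 𝓝 p, σ q ∈ X \ D := by
    filter_upwards [h4, h5.continuousAt.eventually (hcl _ hσX hσD)] with q h9 h10
    exact ⟨h9, h10⟩
  have htA : ∀ A : ℂ × ℂ, Tan (X \ D) (σ p) (fderiv ℂ σ p A) := by
    intro A
    have := tan_param hY h5 hmem A 0
    rwa [zero_smul, add_zero] at this
  have hu1 : u y - υ p ∈ Λ := h2 hy
  have e1 := α.add_smul (υ p) y ⟨hy, hy0⟩ hu1 (c • fderiv ℂ σ p (fderiv ℂ τ y v)) (c • fderiv ℂ σ p (fderiv ℂ τ y w))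
    (by have := tan_smul hY (htA (fderiv ℂ τ y v)) hc; rwa [← hyc] at this)
    (by have := tan_smul hY (htA (fderiv ℂ τ y w)) hc; rwa [← hyc] at this) b₁ b₂
  rw [← hb₁, ← hb₂] at e1
  have e2 := α.scale (υ p) (σ p) ⟨hσX, hσD⟩ h6 (fderiv ℂ σ p (fderiv ℂ τ y v)) (fderiv ℂ σ p (fderiv ℂ τ y w))
    (htA _) (htA _) c hc
  rw [← hyc] at e2
  have e3 := α.det (υ p) (σ p) ⟨hσX, hσD⟩ h6 _ _ (htA (1, 0)) (htA (0, 1)) (fderiv ℂ τ y v).1 (fderiv ℂ τ y v).2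
    (fderiv ℂ τ y w).1 (fderiv ℂ τ y w).2
  rw [← pair_eq, ← pair_eq] at e3
  rw [e1, e2, e3]
  show _ = cf α σ υ p * ((fderiv ℂ τ y v).1 * (fderiv ℂ τ y w).2 - (fderiv ℂ τ y v).2 * (fderiv ℂ τ y w).1)
  show _ * α.toFun (υ p) (σ p) (fderiv ℂ σ p (1, 0)) (fderiv ℂ σ p (0, 1)) = _
  rw [mul_comm]
  rfl

/-- the residue of the form at the point `x` of `D`, for the lift `z` -/
def RA (α : TForm (X \ D) Λ u) (x : EN N) (z ρ : ℂ) : Prop :=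
  ∃ (σ : ℂ × ℂ → EN N) (τ : EN N → ℂ × ℂ) (g : ℂ × ℂ → ℂ), IsGermChart X σ τ ∧ σ 0 = x ∧ (∀ᶠ p in 𝓝 (0 : ℂ × ℂ), σ p ∈ D ↔ p.2 = 0) ∧
    (∀ᶠ p in 𝓝 (0 : ℂ × ℂ), u (σ p) - (z + p.1) ∈ Λ) ∧ AnalyticAt ℂ g 0 ∧
    (∀ᶠ p in 𝓝 (0 : ℂ × ℂ), p.2 ≠ 0 → p.2 * cf α σ (fun p => z + p.1) p = g p) ∧ g 0 = ρ

theorem RA.unique (hX : OCone X) (hu : TorusMap X Λ u) (hΛ : Dsc Λ) (hs : ∀ x ∈ D, ∀ c : ℂ, c ≠ 0 → c • x ∈ D)
    (hcl : ∀ x ∈ X, x ∉ D → ∀ᶠ y in 𝓝 x, y ∉ D) {α : TForm (X \ D) Λ u} {x : EN N} {z ρ ρ' : ℂ} (h : RA α x z ρ) (h' : RA α x z ρ') :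
    ρ = ρ' := by
  obtain ⟨σ, τ, g, hc, h0, hD, hl, hg, hge, hρ⟩ := h
  obtain ⟨σ', τ', g', hc', h0', hD', hl', hg', hge', hρ'⟩ := h'
  have hxX : x ∈ X := by rw [← h0]; exact hc.σ_mem.self_of_nhds
  have hτ0 : τ x = 0 := by rw [← h0]; exact hc.left.self_of_nhds
  have hτ0' : τ' x = 0 := by rw [← h0']; exact hc'.left.self_of_nhds
  have hτa' : AnalyticAt ℂ τ' (σ 0) := by
    have := hc'.τ_an
    rwa [h0', ← h0] at this
  set θ : ℂ × ℂ → ℂ × ℂ := fun p => τ' (σ p) with hθ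
  have hθa : AnalyticAt ℂ θ 0 := AnalyticAt.comp (g := τ') (f := σ) hτa' hc.σ_an
  have hθ0 : θ 0 = 0 := by show τ' (σ 0) = 0; rw [h0, hτ0']
  have hθc : Tendsto θ (𝓝 0) (𝓝 0) := by
    have := hθa.continuousAt.tendsto
    rwa [hθ0] at this
  have hσc : Tendsto σ (𝓝 0) (𝓝 x) := by
    have := hc.σ_an.continuousAt.tendsto
    rwa [h0] at this
  -- the first coordinates agree
  have hlift' := germ_lift hu hc' hl'
  rw [h0'] at hlift'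
  have hfst : ∀ᶠ p in 𝓝 (0 : ℂ × ℂ), (θ p).1 = p.1 := by
    have h3 := dsc_eq hΛ (f := fun p : ℂ × ℂ => (θ p).1 - p.1) (hθa.continuousAt.fst.sub continuousAt_fst)
      (by show (θ 0).1 - (0 : ℂ × ℂ).1 = 0; rw [hθ0, sub_self])
    filter_upwards [h3, hl, hσc.eventually hlift', hc.σ_mem] with p h4 h5 h6 h7
    have h8 := Λ.sub_mem h5 (h6 h7)
    have e : u (σ p) - (z + p.1) - (u (σ p) - (z + (τ' (σ p)).1)) = (θ p).1 - p.1 := by show _ = (τ' (σ p)).1 - p.1; ring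
    rw [e] at h8
    exact sub_eq_zero.1 (h4 h8)
  set J : ℂ × ℂ → ℂ := fun p => det2 (fderiv ℂ θ p (1, 0)) (fderiv ℂ θ p (0, 1)) with hJ
  have hform := germ_form hX hu hs hcl α hc' hl'
  rw [h0'] at hform
  have key : ∀ᶠ p in 𝓝 (0 : ℂ × ℂ), p.2 ≠ 0 → (θ p).2 * g p = p.2 * (g' (θ p) * J p) := by
    have hτaE : ∀ᶠ y in 𝓝 x, AnalyticAt ℂ τ' y := by
      have := hc'.τ_an.eventually_analyticAt
      rwa [h0'] at this
    filter_upwards [hge, hθc.eventually hge', hfst, hσc.eventually hform, hD, hc.σ_mem.eventually_nhds, hc.σ_an.eventually_analyticAt,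
      hσc.eventually hτaE, hθc.eventually hD'] with p h1 h2 h3 h4 h5 h6 h7 h8 h9 hp
    have hmX : σ p ∈ X := h6.self_of_nhds
    have hmD : σ p ∉ D := fun h10 => hp (h5.1 h10)
    obtain ⟨h10, h11⟩ := h4 hmX hmD
    have hθ2 : (θ p).2 ≠ 0 := fun h12 => h10 (h9.2 h12)
    have ht : ∀ e : ℂ × ℂ, Tan X (σ p) (fderiv ℂ σ p e) := by
      intro e
      have := tan_param hX h7 h6 e 0
      rwa [zero_smul, add_zero] at this
    have h13 := h11 _ _ (ht (1, 0)) (ht (0, 1))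
    have h14 : ∀ e : ℂ × ℂ, fderiv ℂ θ p e = fderiv ℂ τ' (σ p) (fderiv ℂ σ p e) := by
      intro e
      have h15 : HasFDerivAt τ' (fderiv ℂ τ' (σ p)) (σ p) := h8.differentiableAt.hasFDerivAt
      have h16 : HasFDerivAt σ (fderiv ℂ σ p) p := h7.differentiableAt.hasFDerivAt
      have h17 : fderiv ℂ θ p = (fderiv ℂ τ' (σ p)).comp (fderiv ℂ σ p) := (h15.comp p h16).fderiv
      rw [h17]
      rfl
    have h18 : cf α σ (fun p => z + p.1) p = cf α σ' (fun p => z + p.1) (θ p) * J p := by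
      show α.toFun (z + p.1) (σ p) (fderiv ℂ σ p (1, 0)) (fderiv ℂ σ p (0, 1)) = _ * det2 (fderiv ℂ θ p (1, 0)) (fderiv ℂ θ p (0, 1))
      rw [h14, h14, ← h13]
      show _ = α.toFun (z + (θ p).1) _ _ _
      rw [h3]
    rw [← h1 hp, ← h2 hθ2, h18]
    ring
  -- derivatives at `0`
  have hJc : ContinuousAt J 0 := by
    have h1 : ContinuousAt (fderiv ℂ θ) 0 := hθa.fderiv.continuousAt
    have h2 : ContinuousAt (fun p => fderiv ℂ θ p (1, 0)) 0 := h1.clm_apply continuousAt_const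
    have h3 : ContinuousAt (fun p => fderiv ℂ θ p (0, 1)) 0 := h1.clm_apply continuousAt_const
    show ContinuousAt (fun p => (fderiv ℂ θ p (1, 0)).1 * (fderiv ℂ θ p (0, 1)).2 - (fderiv ℂ θ p (1, 0)).2 * (fderiv ℂ θ p (0, 1)).1) 0
    exact ((h2.fst).mul h3.snd).sub (h2.snd.mul h3.fst)
  have hf1 : ∀ e : ℂ × ℂ, (fderiv ℂ θ 0 e).1 = e.1 := by
    intro e
    have h1 : HasFDerivAt (fun p => (θ p).1) ((ContinuousLinearMap.fst ℂ ℂ ℂ).comp (fderiv ℂ θ 0)) 0 :=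
      hθa.differentiableAt.hasFDerivAt.fst
    have h2 : HasFDerivAt (fun p : ℂ × ℂ => p.1) (ContinuousLinearMap.fst ℂ ℂ ℂ) 0 := hasFDerivAt_fst
    have h3 : HasFDerivAt (fun p => (θ p).1) (ContinuousLinearMap.fst ℂ ℂ ℂ) 0 := h2.congr_of_eventuallyEq hfst
    have h4 := h1.unique h3
    have h5 := congrArg (fun L : (ℂ × ℂ) →L[ℂ] ℂ => L e) h4
    exact h5
  set e : ℂ := (fderiv ℂ θ 0 (0, 1)).2 with he
  have hJ0 : J 0 = e := by
    show (fderiv ℂ θ 0 (1, 0)).1 * (fderiv ℂ θ 0 (0, 1)).2 - (fderiv ℂ θ 0 (1, 0)).2 * (fderiv ℂ θ 0 (0, 1)).1 = e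
    rw [hf1, hf1, he]
    simp
  have he0 : e ≠ 0 := by
    intro he0
    have h1 : fderiv ℂ θ 0 (0, 1) = 0 := Prod.ext (by rw [hf1]; rfl) he0
    have h2 : fderiv ℂ θ 0 = (fderiv ℂ τ' (σ 0)).comp (fderiv ℂ σ 0) :=
      (HasFDerivAt.comp (g := τ') (f := σ) (0 : ℂ × ℂ) hτa'.differentiableAt.hasFDerivAt hc.σ_an.differentiableAt.hasFDerivAt).fderiv
    have h3 : fderiv ℂ τ' x (fderiv ℂ σ 0 (0, 1)) = 0 := by
      rw [h2, h0] at h1
      exact h1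
    have h4 := (germ_tan hX hc').self_of_nhds (by rw [h0']; exact hxX)
    rw [h0'] at h4
    obtain ⟨c, -, -, h5⟩ := h4
    have ht : Tan X x (fderiv ℂ σ 0 (0, 1)) := by
      have := tan_param hX hc.σ_an hc.σ_mem (0, 1) 0
      rwa [zero_smul, add_zero, h0] at this
    obtain ⟨b, hb⟩ := h5 _ ht
    rw [h3, map_zero, smul_zero, zero_add] at hb
    have h6 : fderiv ℂ τ x (fderiv ℂ σ 0 (0, 1)) = (0, 1) := by
      have hτa : AnalyticAt ℂ τ (σ 0) := hc.τ_an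
      have h7 : HasFDerivAt (fun p => τ (σ p)) ((fderiv ℂ τ (σ 0)).comp (fderiv ℂ σ 0)) 0 :=
        HasFDerivAt.comp (g := τ) (f := σ) (0 : ℂ × ℂ) hτa.differentiableAt.hasFDerivAt hc.σ_an.differentiableAt.hasFDerivAt
      have h8 : HasFDerivAt (fun p => τ (σ p)) (ContinuousLinearMap.id ℂ (ℂ × ℂ)) 0 := (hasFDerivAt_id 0).congr_of_eventuallyEq hc.left
      have h9 := congrArg (fun L : (ℂ × ℂ) →L[ℂ] (ℂ × ℂ) => L (0, 1)) (h7.unique h8)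
      rw [h0] at h9
      exact h9
    rw [hb, map_smul] at h6
    have h7 := (germ_rad hc).self_of_nhds
    rw [h0] at h7
    rw [h7, smul_zero] at h6
    have h8 := congrArg Prod.snd h6
    exact zero_ne_one h8
  -- the limit
  have hct : Tendsto (fun t : ℂ => ((0, t) : ℂ × ℂ)) (𝓝 0) (𝓝 0) := by
    have h1 : Continuous fun t : ℂ => ((0, t) : ℂ × ℂ) := by fun_prop
    exact h1.tendsto' 0 0 rfl
  have hq : Tendsto (fun t : ℂ => (θ (0, t)).2 / t) (𝓝[≠] 0) (𝓝 e) := by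
    have h1 : HasDerivAt (fun t : ℂ => ((0, t) : ℂ × ℂ)) (0, 1) 0 := (hasDerivAt_const (0 : ℂ) (0 : ℂ)).prodMk (hasDerivAt_id 0)
    have h2 : HasFDerivAt θ (fderiv ℂ θ 0) ((0, 0) : ℂ × ℂ) := hθa.differentiableAt.hasFDerivAt
    have h3 : HasDerivAt (fun t : ℂ => θ (0, t)) (fderiv ℂ θ 0 (0, 1)) 0 := h2.comp_hasDerivAt (0 : ℂ) h1
    have h4 : HasDerivAt (fun t : ℂ => (θ (0, t)).2) e 0 := h3.snd
    have h5 := h4.tendsto_slope_zero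
    refine h5.congr' ?_
    filter_upwards with t
    have h6 : (θ (0, (0 : ℂ))).2 = 0 := by
      show (θ 0).2 = 0
      rw [hθ0]
      rfl
    rw [h6, zero_add, sub_zero, smul_eq_mul, mul_comm, div_eq_mul_inv]
  have hL1 : Tendsto (fun t : ℂ => (θ (0, t)).2 / t * g (0, t)) (𝓝[≠] 0) (𝓝 (e * g 0)) := by
    have h1 : Tendsto (fun t : ℂ => g (0, t)) (𝓝 0) (𝓝 (g 0)) := hg.continuousAt.tendsto.comp hct
    exact hq.mul (h1.mono_left nhdsWithin_le_nhds)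
  have hL2 : Tendsto (fun t : ℂ => g' (θ (0, t)) * J (0, t)) (𝓝[≠] 0) (𝓝 (g' 0 * e)) := by
    have h1 : Tendsto (fun t : ℂ => g' (θ (0, t))) (𝓝 0) (𝓝 (g' 0)) := hg'.continuousAt.tendsto.comp (hθc.comp hct)
    have h2 : Tendsto (fun t : ℂ => J (0, t)) (𝓝 0) (𝓝 e) := by
      rw [← hJ0]
      exact hJc.tendsto.comp hct
    exact (h1.mul h2).mono_left nhdsWithin_le_nhds
  have h5 : e * g 0 = g' 0 * e := by
    refine tendsto_nhds_unique (hL1.congr' ?_) hL2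
    filter_upwards [nhdsWithin_le_nhds (hct.eventually key), self_mem_nhdsWithin] with t h6 h7
    have h8 : t ≠ 0 := h7
    have h9 := h6 h8
    have h10 : (θ (0, t)).2 * g (0, t) = t * (g' (θ (0, t)) * J (0, t)) := h9
    rw [div_mul_eq_mul_div, h10, mul_div_cancel_left₀ _ h8]
  rw [← hρ, ← hρ']
  have h6 : e * g 0 = e * g' 0 := by rw [h5, mul_comm]
  exact mul_left_cancel₀ he0 h6

end Pool.Agent.H86.LU

end

section

/-!
# LU Sc: residues along sections in `D`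
-/

set_option autoImplicit false

open Topology Filter Metric

namespace Pool.Agent.H86.LU

attribute [-instance] ProperSMul.toContinuousSMul

open Pool.Agent.H36.BP (EN fs wd IsGermChart)
open Pool.Agent.H14.PP (IsCone Chart Tan CurveAt)
open Pool.Agent.H62.EF (Lat MN pr TorusMap Sec Charts DU det2)
open Pool.Agent.H62.EL (TForm Per VanZero Thin tc)
open Pool.Agent.H18.LU (OCone Dsc LogP HorAt ResBd)

variable {N : ℕ} {X D : Set (EN N)} {Λ : AddSubgroup ℂ} {u : EN N → ℂ}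

/-- the coefficient does not change when the chart is multiplied by a constant -/
theorem cf_smul (hX : OCone X) (hs : ∀ x ∈ D, ∀ c : ℂ, c ≠ 0 → c • x ∈ D) (hcl : ∀ x ∈ X, x ∉ D → ∀ᶠ y in 𝓝 x, y ∉ D)
    (α : TForm (X \ D) Λ u) {σ : ℂ × ℂ → EN N} {υ : ℂ × ℂ → ℂ} {p : ℂ × ℂ} (hσ : AnalyticAt ℂ σ p) (hm : ∀ᶠ q in 𝓝 p, σ q ∈ X)
    (hD : σ p ∉ D) (hl : u (σ p) - υ p ∈ Λ) {c : ℂ} (hc : c ≠ 0) : cf α (fun q => c • σ q) υ p = cf α σ υ p := by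
  have hY := ocone_sdiff hX hs
  have hmX : σ p ∈ X := hm.self_of_nhds
  have hmem : ∀ᶠ q in 𝓝 p, σ q ∈ X \ D := by
    filter_upwards [hm, hσ.continuousAt.eventually (hcl _ hmX hD)] with q h9 h10
    exact ⟨h9, h10⟩
  have htA : ∀ A : ℂ × ℂ, Tan (X \ D) (σ p) (fderiv ℂ σ p A) := by
    intro A
    have := tan_param hY hσ hmem A 0
    rwa [zero_smul, add_zero] at this
  show α.toFun (υ p) (c • σ p) (fderiv ℂ (fun q => c • σ q) p (1, 0)) (fderiv ℂ (fun q => c • σ q) p (0, 1)) = _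
  rw [fderiv_csmul hσ, fderiv_csmul hσ]
  exact α.scale (υ p) (σ p) ⟨hmX, hD⟩ hl _ _ (htA (1, 0)) (htA (0, 1)) c hc

theorem RA.smul (hX : OCone X) (hu : TorusMap X Λ u) (hs : ∀ x ∈ D, ∀ c : ℂ, c ≠ 0 → c • x ∈ D)
    (hcl : ∀ x ∈ X, x ∉ D → ∀ᶠ y in 𝓝 x, y ∉ D) {α : TForm (X \ D) Λ u} {x : EN N} {z ρ : ℂ} (h : RA α x z ρ) {c : ℂ} (hc : c ≠ 0) :
    RA α (c • x) z ρ := by
  obtain ⟨σ, τ, g, h1, h0, hD, hl, hg, hge, hρ⟩ := h
  refine ⟨fun q => c • σ q, fun y => τ (c⁻¹ • y), g, germ_smul hX h1 hc, by rw [← h0], ?_, ?_, hg, ?_, hρ⟩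
  · filter_upwards [hD] with p hp
    rw [← hp]
    constructor
    · intro h2
      have h3 := hs _ h2 c⁻¹ (inv_ne_zero hc)
      rwa [smul_smul, inv_mul_cancel₀ hc, one_smul] at h3
    · intro h2
      exact hs _ h2 c hc
  · filter_upwards [hl, h1.σ_mem] with p h2 h3
    have h4 := Λ.add_mem (hu.smul _ h3 c hc) h2
    have e : u (c • σ p) - u (σ p) + (u (σ p) - (z + p.1)) = u (c • σ p) - (z + p.1) := by ring
    rwa [e] at h4
  · filter_upwards [hge, h1.σ_an.eventually_analyticAt, h1.σ_mem.eventually_nhds, hD, hl] with p h2 h3 h4 h5 h6 h7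
    rw [cf_smul hX hs hcl α h3 h4 (fun h8 => h7 (h5.1 h8)) h6 hc]
    exact h2 h7

/-- the residues in a chart with `u = z₀ + s` -/
theorem RA.of_bx {α : TForm (X \ D) Λ u} {σ : ℂ × ℂ → EN N} {τ : EN N → ℂ × ℂ} {z₀ : ℂ} {r : ℝ}
    (b : Bx X D Λ u σ τ (fun p => z₀ + p.1) r) {l : ℂ} (hl : l ∈ Λ) {G : ℂ × ℂ → ℂ} (hGa : ∀ p ∈ ball (0 : ℂ × ℂ) r, AnalyticAt ℂ G p)
    (hG : ∀ q ∈ ball (0 : ℂ × ℂ) r, q.2 ≠ 0 → q.2 * cf α σ (fun q => z₀ + q.1 + l) q = G q) {s : ℂ} (hs : ‖s‖ < r) :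
    RA α (σ (s, 0)) (z₀ + s + l) (G (s, 0)) := by
  have hp := mem_ball_s0 hs
  refine ⟨_, _, fun q => G ((s, 0) + q), b.germ _ hp, ?_, b.shift_D hp rfl, ?_, shift_an (hGa _ hp), ?_, ?_⟩
  · show σ ((s, 0) + 0) = σ (s, 0)
    rw [add_zero]
  · filter_upwards [b.shift_lift hp hl] with q hq
    have e : z₀ + ((s, 0) + q : ℂ × ℂ).1 + l = z₀ + s + l + q.1 := by rw [Prod.fst_add]; ring
    rw [e] at hq
    exact hq
  · have h1 := b.shift_eq (α := α) hp rfl hG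
    have e : (fun q : ℂ × ℂ => z₀ + ((s, 0) + q : ℂ × ℂ).1 + l) = fun q => z₀ + s + l + q.1 := by
      funext q
      rw [Prod.fst_add]
      ring
    simp only [e] at h1
    exact h1
  · show G ((s, 0) + 0) = G (s, 0)
    rw [add_zero]

/-- sections in `D`: `F z = c • σ (z - z₀, 0)` in a chart with `u = z₀ + s` -/
theorem sec_near (hu : TorusMap X Λ u) (hΛ : Dsc Λ) (hsub : D ⊆ X) (hs : ∀ x ∈ D, ∀ c : ℂ, c ≠ 0 → c • x ∈ D)
    {F : ℂ → EN N} (hF : Differentiable ℂ F) (hFD : ∀ z, F z ∈ D) (hFu : ∀ z, u (F z) - z ∈ Λ)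
    {σ : ℂ × ℂ → EN N} {τ : EN N → ℂ × ℂ} {z₀ : ℂ} {r : ℝ} (b : Bx X D Λ u σ τ (fun p => z₀ + p.1) r) (h0 : σ 0 = F z₀) :
    ∀ᶠ z in 𝓝 z₀, ‖z - z₀‖ < r ∧ ∃ c : ℂ, c ≠ 0 ∧ F z = c • σ (z - z₀, 0) := by
  have hcov := b.cover hs hsub
  rw [h0] at hcov
  have hFc : Tendsto F (𝓝 z₀) (𝓝 (F z₀)) := hF.continuous.continuousAt
  have hτ0 : τ (F z₀) = 0 := by
    have h6 := (b.germ 0 (mem_ball_self b.pos)).left.self_of_nhds
    simp only [add_zero, sub_zero] at h6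
    rw [h0] at h6
    exact h6
  have hτa : AnalyticAt ℂ τ (F z₀) := by
    have h6 := (b.germ 0 (mem_ball_self b.pos)).τ_an
    simp only [add_zero, sub_zero] at h6
    rw [h0] at h6
    exact h6
  have hc : ContinuousAt (fun z => (τ (F z)).1 - (z - z₀)) z₀ := by
    have h1 : ContinuousAt (fun z => τ (F z)) z₀ := ContinuousAt.comp (g := τ) (f := F) hτa.continuousAt hF.continuous.continuousAt
    have h2 : ContinuousAt (fun z : ℂ => z - z₀) z₀ := by fun_prop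
    exact h1.fst.sub h2
  have h1 := dsc_eq hΛ hc (by show (τ (F z₀)).1 - (z₀ - z₀) = 0; rw [hτ0]; simp)
  have h2 : ∀ᶠ z in 𝓝 z₀, ‖z - z₀‖ < r := by
    have : ContinuousAt (fun z : ℂ => ‖z - z₀‖) z₀ := by fun_prop
    exact this.eventually_lt_const (by simp [b.pos])
  filter_upwards [h1, hFc.eventually hcov, h2] with z h3 h4 h5
  obtain ⟨c, s, hc, hsr, hyc, hτy⟩ := h4 (hFD z)
  refine ⟨h5, c, hc, ?_⟩
  rw [hτy] at h3
  have h6 : (s - (z - z₀) : ℂ) ∈ Λ := by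
    have hm := mem_ball_s0 hsr
    have h7 := b.lift _ hm
    have h8 := hu.smul _ (b.mem _ hm) c hc
    rw [← hyc] at h8
    have h9 := hFu z
    have h10 := Λ.sub_mem h9 (Λ.add_mem h8 h7)
    have e : u (F z) - z - (u (F z) - u (σ (s, 0)) + (u (σ (s, 0)) - (z₀ + ((s, 0) : ℂ × ℂ).1))) = s - (z - z₀) := by ring
    rwa [e] at h10
  have h7 : s = z - z₀ := sub_eq_zero.1 (h3 h6)
  rw [← h7]
  exact hyc

/-- at the points of a section in `D` there are charts with `u = z₀ + s` -/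
theorem sec_chart (hu : TorusMap X Λ u) (hΛ : Dsc Λ) (hsub : D ⊆ X) (hs : ∀ x ∈ D, ∀ c : ℂ, c ≠ 0 → c • x ∈ D)
    (hh : ∀ x ∈ D, ∃ (b : ℂ) (i : ℕ), 1 ≤ i ∧ HorAt X Λ u D x b i)
    {F : ℂ → EN N} (hF : Differentiable ℂ F) (hFD : ∀ z, F z ∈ D) (hFu : ∀ z, u (F z) - z ∈ Λ) (z₀ : ℂ) :
    ∃ (σ : ℂ × ℂ → EN N) (τ : EN N → ℂ × ℂ) (r : ℝ), Bx X D Λ u σ τ (fun p => z₀ + p.1) r ∧ σ 0 = F z₀ ∧ IsGermChart X σ τ := by
  obtain ⟨b, i, hi, hb⟩ := hh (F z₀) (hFD z₀)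
  obtain ⟨σ, τ, r, B, h0, hg⟩ := exists_bx_at hb
  have hcov := B.cover hs hsub
  rw [h0] at hcov
  have hFc : Tendsto F (𝓝 z₀) (𝓝 (F z₀)) := hF.continuous.continuousAt
  have hτ0 : τ (F z₀) = 0 := by
    have h6 := hg.left.self_of_nhds
    rwa [h0] at h6
  have hτa : AnalyticAt ℂ τ (F z₀) := by
    have h6 := hg.τ_an
    rwa [h0] at h6
  have hbz : b - z₀ ∈ Λ := by
    have h1 := B.lift 0 (mem_ball_self B.pos)
    rw [h0] at h1
    have h2 := Λ.sub_mem (hFu z₀) h1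
    have e : u (F z₀) - z₀ - (u (F z₀) - (b + (0 : ℂ × ℂ).1 ^ i)) = b - z₀ := by
      have : (0 : ℂ × ℂ).1 ^ i = 0 := by
        show (0 : ℂ) ^ i = 0
        exact zero_pow (by omega)
      rw [this]
      ring
    rwa [e] at h2
  have hτF : AnalyticAt ℂ (fun z => τ (F z)) z₀ := AnalyticAt.comp (g := τ) (f := F) hτa (hF.analyticAt z₀)
  have hsan : AnalyticAt ℂ (fun z => (τ (F z)).1) z₀ := AnalyticAt.comp (g := Prod.fst) (f := fun z => τ (F z)) analyticAt_fst hτF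
  have hs0 : (τ (F z₀)).1 = 0 := by rw [hτ0]; rfl
  have hpow : ∀ᶠ z in 𝓝 z₀, (τ (F z)).1 ^ i = z - z₀ := by
    have hc : ContinuousAt (fun z => (τ (F z)).1 ^ i - (z - z₀)) z₀ := by
      have h2 : ContinuousAt (fun z : ℂ => z - z₀) z₀ := by fun_prop
      exact (hsan.continuousAt.pow i).sub h2
    have h1 := dsc_eq hΛ hc (by show (τ (F z₀)).1 ^ i - (z₀ - z₀) = 0; rw [hs0, zero_pow (by omega)]; simp)
    filter_upwards [h1, hFc.eventually hcov] with z h3 h4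
    obtain ⟨c, s, hc, hsr, hyc, hτy⟩ := h4 (hFD z)
    rw [hτy] at h3 ⊢
    have h6 : (s ^ i - (z - z₀) : ℂ) ∈ Λ := by
      have hm := mem_ball_s0 hsr
      have h7 := B.lift _ hm
      have h8 := hu.smul _ (B.mem _ hm) c hc
      rw [← hyc] at h8
      have h10 := Λ.sub_mem (Λ.sub_mem (hFu z) (Λ.add_mem h8 h7)) hbz
      have e : u (F z) - z - (u (F z) - u (σ (s, 0)) + (u (σ (s, 0)) - (b + ((s, 0) : ℂ × ℂ).1 ^ i))) - (b - z₀) = s ^ i - (z - z₀) := by ring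
      rwa [e] at h10
    exact sub_eq_zero.1 (h3 h6)
  have hi1 : i = 1 := by
    by_contra hne
    have h1 : HasDerivAt (fun z => (τ (F z)).1 ^ i) (i * (τ (F z₀)).1 ^ (i - 1) * deriv (fun z => (τ (F z)).1) z₀) z₀ :=
      hsan.differentiableAt.hasDerivAt.pow i
    have h2 : HasDerivAt (fun z : ℂ => z - z₀) 1 z₀ := (hasDerivAt_id z₀).sub_const z₀
    have h3 := h1.unique (h2.congr_of_eventuallyEq hpow)
    rw [hs0, zero_pow (by omega), mul_zero, zero_mul] at h3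
    exact zero_ne_one h3
  subst hi1
  refine ⟨σ, τ, r, ⟨B.pos, B.germ, B.σ_an, B.mem, B.D_iff, fun p _ => analyticAt_const.add analyticAt_fst, ?_⟩, h0, hg⟩
  intro p hp
  have h1 := Λ.add_mem (B.lift p hp) hbz
  have e : u (σ p) - (b + p.1 ^ 1) + (b - z₀) = u (σ p) - (z₀ + p.1) := by ring
  rwa [e] at h1

/-- the residues along a section are an entire function -/
theorem res_fun (hX : OCone X) (hu : TorusMap X Λ u) (hΛ : Dsc Λ) (hsub : D ⊆ X) (hs : ∀ x ∈ D, ∀ c : ℂ, c ≠ 0 → c • x ∈ D)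
    (hcl : ∀ x ∈ X, x ∉ D → ∀ᶠ y in 𝓝 x, y ∉ D) (hh : ∀ x ∈ D, ∃ (b : ℂ) (i : ℕ), 1 ≤ i ∧ HorAt X Λ u D x b i)
    {α : TForm (X \ D) Λ u} (hlog : LogP α) {F : ℂ → EN N} (hF : Differentiable ℂ F) (hFD : ∀ z, F z ∈ D) (hFu : ∀ z, u (F z) - z ∈ Λ) :
    ∃ ρ : ℂ → ℂ, Differentiable ℂ ρ ∧ ∀ z, RA α (F z) z (ρ z) := by
  have h1 : ∀ z₀, ∃ (σ : ℂ × ℂ → EN N) (τ : EN N → ℂ × ℂ) (r : ℝ) (G : ℂ × ℂ → ℂ), Bx X D Λ u σ τ (fun p => z₀ + p.1) r ∧ σ 0 = F z₀ ∧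
      (∀ p ∈ ball (0 : ℂ × ℂ) r, AnalyticAt ℂ G p) ∧
      ∀ q ∈ ball (0 : ℂ × ℂ) r, q.2 ≠ 0 → q.2 * cf α σ (fun q => z₀ + q.1 + 0) q = G q := by
    intro z₀
    obtain ⟨σ, τ, r, B, h0, -⟩ := sec_chart hu hΛ hsub hs hh hF hFD hFu z₀
    obtain ⟨G, h2, h3⟩ := B.num hcl hlog Λ.zero_mem
    exact ⟨σ, τ, r, G, B, h0, h2, h3⟩
  choose σ τ r G B h0 hGa hG using h1
  have hRA : ∀ z₀ s : ℂ, ‖s‖ < r z₀ → RA α (σ z₀ (s, 0)) (z₀ + s) (G z₀ (s, 0)) := by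
    intro z₀ s hs
    have := RA.of_bx (B z₀) Λ.zero_mem (hGa z₀) (hG z₀) hs
    rwa [add_zero] at this
  have hR0 : ∀ z, RA α (F z) z (G z 0) := by
    intro z
    have := hRA z 0 (by rw [norm_zero]; exact (B z).pos)
    rw [add_zero] at this
    have e : ((0, 0) : ℂ × ℂ) = 0 := rfl
    rw [e, h0] at this
    exact this
  refine ⟨fun z => G z 0, ?_, hR0⟩
  intro z₀
  have h2 := sec_near hu hΛ hsub hs hF hFD hFu (B z₀) (h0 z₀)
  have h3 : ∀ᶠ z in 𝓝 z₀, G z 0 = G z₀ (z - z₀, 0) := by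
    filter_upwards [h2] with z hz
    obtain ⟨h4, c, hc, h5⟩ := hz
    have h6 := (hRA z₀ (z - z₀) h4).smul hX hu hs hcl hc
    rw [← h5, add_sub_cancel] at h6
    exact RA.unique hX hu hΛ hs hcl (hR0 z) h6
  have h4 : DifferentiableAt ℂ (fun z => G z₀ (z - z₀, 0)) z₀ := by
    have h5 : AnalyticAt ℂ (fun z : ℂ => ((z - z₀, 0) : ℂ × ℂ)) z₀ := (analyticAt_id.sub analyticAt_const).prod analyticAt_const
    have h6 : AnalyticAt ℂ (fun z => G z₀ (z - z₀, 0)) z₀ :=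
      AnalyticAt.comp (g := G z₀) (f := fun z : ℂ => ((z - z₀, 0) : ℂ × ℂ)) (by
        rw [sub_self]
        exact hGa z₀ _ (mem_ball_self (B z₀).pos)) h5
    exact h6.differentiableAt
  exact h4.congr_of_eventuallyEq h3

theorem sec_shift {F : ℂ → EN N} (hF : Differentiable ℂ F) (hFD : ∀ z, F z ∈ D) (hFu : ∀ z, u (F z) - z ∈ Λ) {l : ℂ} (hl : l ∈ Λ) :
    Differentiable ℂ (fun z => F (z - l)) ∧ (∀ z, F (z - l) ∈ D) ∧ ∀ z, u (F (z - l)) - z ∈ Λ := by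
  refine ⟨hF.comp (differentiable_id.sub_const l), fun z => hFD _, fun z => ?_⟩
  have h1 := Λ.sub_mem (hFu (z - l)) hl
  have e : u (F (z - l)) - (z - l) - l = u (F (z - l)) - z := by ring
  rwa [e] at h1

/-- all the residues along a section vanish -/
theorem res_zero (hX : OCone X) (hu : TorusMap X Λ u) (hΛ : Dsc Λ) (hsub : D ⊆ X) (hs : ∀ x ∈ D, ∀ c : ℂ, c ≠ 0 → c • x ∈ D)
    (hcl : ∀ x ∈ X, x ∉ D → ∀ᶠ y in 𝓝 x, y ∉ D) (hh : ∀ x ∈ D, ∃ (b : ℂ) (i : ℕ), 1 ≤ i ∧ HorAt X Λ u D x b i)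
    {α : TForm (X \ D) Λ u} (hlog : LogP α) (hres : ResBd α) (hvan : VanZero α)
    {F : ℂ → EN N} (hF : Differentiable ℂ F) (hFD : ∀ z, F z ∈ D) (hFu : ∀ z, u (F z) - z ∈ Λ) (z : ℂ) : RA α (F z) z 0 := by
  obtain ⟨ρ, hρ, hRA⟩ := res_fun hX hu hΛ hsub hs hcl hh hlog hF hFD hFu
  obtain ⟨C, hC⟩ := hres F hF hFD hFu
  have hbd : ∀ z, ‖ρ z‖ ≤ C := by
    intro z
    obtain ⟨σ, τ, g, h1, h2, h3, h4, h5, h6, h7⟩ := hRA z
    obtain ⟨g', h8, h9, h10⟩ := hC z σ τ h1 h2 h3 h4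
    have h11 : RA α (F z) z (g' 0) := ⟨σ, τ, g', h1, h2, h3, h4, h8, h10, rfl⟩
    rw [RA.unique hX hu hΛ hs hcl (hRA z) h11]
    exact h9
  have hb : Bornology.IsBounded (Set.range ρ) := by
    rw [isBounded_iff_forall_norm_le]
    refine ⟨C, ?_⟩
    rintro _ ⟨z, rfl⟩
    exact hbd z
  have h0 : ρ 0 = 0 := by
    obtain ⟨σ, τ, g, h1, h2, h3, h4, h5, h6, h7⟩ := hRA 0
    rw [← h7]
    have hct : Tendsto (fun t : ℂ => ((0, t) : ℂ × ℂ)) (𝓝 0) (𝓝 0) := by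
      have h1 : Continuous fun t : ℂ => ((0, t) : ℂ × ℂ) := by fun_prop
      exact h1.tendsto' 0 0 rfl
    have hL1 : Tendsto (fun t : ℂ => g (0, t)) (𝓝[≠] 0) (𝓝 (g 0)) := (h5.continuousAt.tendsto.comp hct).mono_left nhdsWithin_le_nhds
    have hY := ocone_sdiff hX hs
    refine tendsto_nhds_unique (hL1.congr' ?_) tendsto_const_nhds
    filter_upwards [nhdsWithin_le_nhds (hct.eventually (h6.and (h3.and (h4.and (h1.σ_mem.eventually_nhds.and h1.σ_an.eventually_analyticAt))))),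
      self_mem_nhdsWithin] with t h8 h9
    obtain ⟨h10, h11, h12, h13, h14⟩ := h8
    have ht : t ≠ 0 := h9
    have hmX : σ (0, t) ∈ X := h13.self_of_nhds
    have hmD : σ (0, t) ∉ D := fun h15 => ht (h11.1 h15)
    have hmem : ∀ᶠ q in 𝓝 ((0, t) : ℂ × ℂ), σ q ∈ X \ D := by
      filter_upwards [h13, h14.continuousAt.eventually (hcl _ hmX hmD)] with q h9 h10
      exact ⟨h9, h10⟩
    have htA : ∀ A : ℂ × ℂ, Tan (X \ D) (σ (0, t)) (fderiv ℂ σ (0, t) A) := by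
      intro A
      have := tan_param hY h14 hmem A 0
      rwa [zero_smul, add_zero] at this
    have hu0 : u (σ (0, t)) ∈ Λ := by
      have e : u (σ (0, t)) - (0 + ((0, t) : ℂ × ℂ).1) = u (σ (0, t)) := by simp
      rwa [e] at h12
    have h16 := hvan (σ (0, t)) ⟨hmX, hmD⟩ hu0 _ _ (htA (1, 0)) (htA (0, 1))
    have h17 : cf α σ (fun p => 0 + p.1) (0, t) = 0 := by
      show α.toFun (0 + ((0, t) : ℂ × ℂ).1) (σ (0, t)) _ _ = 0
      have e : (0 + ((0, t) : ℂ × ℂ).1 : ℂ) = 0 := by simp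
      rw [e]
      exact h16
    rw [← h10 ht, h17, mul_zero]
  have h1 : ρ z = 0 := by rw [hρ.apply_eq_apply_of_bounded hb z 0, h0]
  have h2 := hRA z
  rwa [h1] at h2

/-- points of sections in `D` belong to `QQ` -/
theorem sec_QQ (hX : OCone X) (hu : TorusMap X Λ u) (hΛ : Dsc Λ) (hsub : D ⊆ X) (hs : ∀ x ∈ D, ∀ c : ℂ, c ≠ 0 → c • x ∈ D)
    (hcl : ∀ x ∈ X, x ∉ D → ∀ᶠ y in 𝓝 x, y ∉ D) (hh : ∀ x ∈ D, ∃ (b : ℂ) (i : ℕ), 1 ≤ i ∧ HorAt X Λ u D x b i)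
    {α : TForm (X \ D) Λ u} (hlog : LogP α) (hres : ResBd α) (hvan : VanZero α)
    {F : ℂ → EN N} (hF : Differentiable ℂ F) (hFD : ∀ z, F z ∈ D) (hFu : ∀ z, u (F z) - z ∈ Λ) : F 0 ∈ QQ α := by
  refine ⟨hFD 0, fun l hl => ?_⟩
  have hlm : l ∈ Λ := by
    have h1 := Λ.sub_mem (hFu 0) hl
    have e : u (F 0) - 0 - (u (F 0) - l) = l := by ring
    rwa [e] at h1
  obtain ⟨σ, τ, r, B, h0, -⟩ := sec_chart hu hΛ hsub hs hh hF hFD hFu 0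
  obtain ⟨G, hGa, hG⟩ := B.num hcl hlog hlm
  obtain ⟨h1, h2, h3⟩ := sec_shift hF hFD hFu hlm
  have h4 := sec_near hu hΛ hsub hs hF hFD hFu B h0
  have h5 : ∀ᶠ s in 𝓝 (0 : ℂ), G (s, 0) = 0 := by
    filter_upwards [h4] with s hs'
    obtain ⟨h6, c, hc, h7⟩ := hs'
    rw [sub_zero] at h6 h7
    have h8 := res_zero hX hu hΛ hsub hs hcl hh hlog hres hvan h1 h2 h3 (s + l)
    simp only [add_sub_cancel_right] at h8
    have h9 := (RA.of_bx B hlm hGa hG h6).smul hX hu hs hcl hc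
    rw [← h7, zero_add] at h9
    exact RA.unique hX hu hΛ hs hcl h9 h8
  have h6 := B.exd_of_zero hX hu hs hcl hlm hGa hG (mem_ball_self B.pos) rfl h5
  rw [h0] at h6
  have e : (0 : ℂ) + (0 : ℂ × ℂ).1 + l = l := by simp
  rwa [e] at h6

end Pool.Agent.H86.LU

end
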