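import Pool.Agent.H94.CB.M204
import Pool.Agent.H94.CB.M207

/-! The parts of this file: EG.LE.CellS, EG.LE.GrowA, H6.LU.Rb. -/

section

/-!
# EG LE CellS: a section in one chart is a curve in the cell

Proof (helper41; formalised by helper35): c := F.ch x, k := c.k, b := c.b, sw := x.1.2.  For z in the ball f z = a • c.s (swp sw p), so f z in c.W (s_mem, smul_W) and c.q (f z) = ((swp sw p).1 ^ k, (swp sw p).2 ^ k) (q_smul, s_mem).
Q z := (swp sw (c.q (f z))).2 = p.2 ^ k: differentiable on the ball (q_an, f differentiable on the open ball).  f z in V, so sS x p in V (V_smul), Lp ex p ≠ 0 (sS_V), exp z = exp (u (f z)) = exp (u (sS x p))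
(u_smul, lat) = κ p.1 p.2 ^ b (sS_u, atl_u).
ex = false: then b = 0 (b_ex, b_le), k = 1 (k_eq), sw = false (x.2); g := Q, g z = p.2, XX_eq: XX x z (g z) = (κ⁻¹ exp z, p.2) = p.
ex = true: p.2 ≠ 0, Q z ≠ 0.  There is G differentiable on the ball with exp (G z) = Q z (for instance a primitive of Q'/Q on a ball: DifferentiableOn.isExactOn_ball or Complex.exists ... log; the same
was done in several modules: search for `exp (G` / `exists_log`), g := G / k + 2 π i m / k with m such that |Im (g z₀)| ≤ π (round).  Then exp (g z) ^ k = Q z = p.2 ^ k, zeta := p.2 / exp (g z), zeta ^ k = 1,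
XX x z (g z) = (κ⁻¹ exp (z - b g), exp g) = rot zeta p: rot zeta p = (zeta p.1, zeta⁻¹ p.2), zeta⁻¹ p.2 = exp g; first coordinate: b = 1: κ p.1 p.2 = exp z gives zeta p.1 = κ⁻¹ exp z / exp g;
b = 0: k = 1 (k_eq), zeta = 1, p.1 = κ⁻¹ exp z.
CenS (rot zeta p): ‖zeta‖ = 1 (RL rot_norm).  f z = a • sS x p and sS x (rot zeta p) = c' • sS x p (s_rot for swp sw p, with zeta⁻¹ if sw = true: swp (rot zeta p) = rot zeta⁻¹ (swp p)), so
f z = (a / c') • sS x (rot zeta p).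
-/

set_option autoImplicit false

open Topology Filter Metric Set

namespace Pool.Agent.EG.LE

attribute [-instance] ProperSMul.toContinuousSMul

open Pool.Agent.H36.BP (EN fs wd)
open Pool.Agent.H14.PP (IsCone Tan jac)
open Pool.Agent.H62.EF (MN pr)
open Pool.Agent.H62.EL (TForm)
open Pool.Agent.EG.RL (rot Cen Model Bphi)

variable {N : ℕ} {Xb V U D : Set (EN N)} {Λ : AddSubgroup ℂ} {u : EN N → ℂ} {α : TForm V Λ u} {κ : Type}

/-- a holomorphic logarithm on a ball -/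
private theorem CellS_log {f : ℂ → ℂ} {t₁ : ℂ} {r₀ : ℝ} (hr : 0 < r₀) (hf : DifferentiableOn ℂ f (ball t₁ r₀)) (h0 : ∀ t ∈ ball t₁ r₀, f t ≠ 0) :
    ∃ g : ℂ → ℂ, DifferentiableOn ℂ g (ball t₁ r₀) ∧ ∀ t ∈ ball t₁ r₀, f t = Complex.exp (g t) := by
  have hd : DifferentiableOn ℂ (fun t => deriv f t / f t) (ball t₁ r₀) := (hf.deriv isOpen_ball).div hf h0
  obtain ⟨G, hG⟩ := hd.isExactOn_ball
  have ht₁ : t₁ ∈ ball t₁ r₀ := mem_ball_self hr
  set c : ℂ := Complex.log (f t₁) - G t₁ with hc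
  refine ⟨fun t => G t + c, fun t ht => ((hG t ht).differentiableAt.add_const c).differentiableWithinAt, fun t ht => ?_⟩
  have hd2 : DifferentiableOn ℂ (fun t => f t * Complex.exp (-(G t + c))) (ball t₁ r₀) := by
    refine hf.mul (DifferentiableOn.cexp ?_)
    intro t ht
    exact ((hG t ht).differentiableAt.add_const c).neg.differentiableWithinAt
  have hderiv : ∀ t ∈ ball t₁ r₀, HasDerivAt (fun t => f t * Complex.exp (-(G t + c))) 0 t := by
    intro t ht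
    have h1 : HasDerivAt f (deriv f t) t := (hf.differentiableAt (isOpen_ball.mem_nhds ht)).hasDerivAt
    have h2 : HasDerivAt (fun t => Complex.exp (-(G t + c))) (Complex.exp (-(G t + c)) * (-(deriv f t / f t))) t :=
      ((hG t ht).add_const c).neg.cexp
    have h3 := h1.mul h2
    refine h3.congr_deriv ?_
    have h4 := h0 t ht
    field_simp
    ring
  have hconst := (convex_ball t₁ r₀).is_const_of_fderivWithin_eq_zero (𝕜 := ℂ) hd2 (fun t ht => by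
    rw [fderivWithin_of_isOpen isOpen_ball ht]
    have h1 := (hderiv t ht).hasFDerivAt.fderiv
    rw [h1]
    ext
    simp) ht ht₁
  have h5 : f t₁ * Complex.exp (-(G t₁ + c)) = 1 := by
    rw [hc, add_sub_cancel, Complex.exp_neg, Complex.exp_log (h0 t₁ ht₁), mul_inv_cancel₀ (h0 t₁ ht₁)]
  rw [h5, Complex.exp_neg, mul_inv_eq_iff_eq_mul₀ (Complex.exp_ne_zero _), one_mul] at hconst
  exact hconst

/-- a branch with small imaginary part at the centre -/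
private theorem CellS_branch {f : ℂ → ℂ} {t₁ : ℂ} {r₀ : ℝ} (hr : 0 < r₀) (hf : DifferentiableOn ℂ f (ball t₁ r₀)) (h0 : ∀ t ∈ ball t₁ r₀, f t ≠ 0)
    {k : ℕ} (hk : 1 ≤ k) :
    ∃ g : ℂ → ℂ, DifferentiableOn ℂ g (ball t₁ r₀) ∧ |(g t₁).im| ≤ Real.pi ∧ ∀ t ∈ ball t₁ r₀, Complex.exp (g t) ^ k = f t := by
  obtain ⟨G, hG, hGe⟩ := CellS_log hr hf h0
  have hk0 : (k : ℂ) ≠ 0 := by
    have : k ≠ 0 := by omega
    exact_mod_cast this
  have hkr : (1 : ℝ) ≤ k := by exact_mod_cast hk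
  set m : ℤ := -round ((G t₁).im / (2 * Real.pi)) with hm
  refine ⟨fun t => (G t + m * (2 * Real.pi * Complex.I)) / k, (hG.add_const _).div_const _, ?_, fun t ht => ?_⟩
  · have h1 : ((G t₁ + m * (2 * Real.pi * Complex.I)) / k).im = ((G t₁).im + m * (2 * Real.pi)) / k := by
      have h2 : (k : ℂ) = ((k : ℝ) : ℂ) := by norm_cast
      rw [h2, Complex.div_ofReal_im]
      congr 1
      have h3 : ((m : ℂ) * (2 * Real.pi * Complex.I)) = (((m : ℝ) * (2 * Real.pi) : ℝ) : ℂ) * Complex.I := by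
        push_cast
        ring
      rw [h3, Complex.add_im, Complex.im_ofReal_mul, Complex.I_im, mul_one]
    show |((G t₁ + m * (2 * Real.pi * Complex.I)) / k).im| ≤ Real.pi
    rw [h1, abs_div, abs_of_pos (lt_of_lt_of_le one_pos hkr)]
    have hpi := Real.pi_pos
    have h4 := abs_sub_round ((G t₁).im / (2 * Real.pi))
    have h5 : (G t₁).im + m * (2 * Real.pi) = ((G t₁).im / (2 * Real.pi) - round ((G t₁).im / (2 * Real.pi))) * (2 * Real.pi) := by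
      rw [hm]
      push_cast
      field_simp
      ring
    rw [h5, abs_mul, abs_of_pos (by positivity : (0 : ℝ) < 2 * Real.pi), div_le_iff₀ (by linarith)]
    nlinarith
  · show Complex.exp ((G t + m * (2 * Real.pi * Complex.I)) / k) ^ k = f t
    rw [← Complex.exp_nat_mul, mul_div_cancel₀ _ hk0, Complex.exp_add, Complex.exp_int_mul_two_pi_mul_I, mul_one]
    exact (hGe t ht).symm

private theorem CellS_swp_rot (sw : Bool) (ζ : ℂ) (p : ℂ × ℂ) :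
    swp sw (rot ζ p) = rot (if sw = true then ζ⁻¹ else ζ) (swp sw p) := by
  unfold swp rot
  split_ifs
  · simp
  · rfl

private theorem CellS_pow {sw : Bool} {ζ : ℂ} {k : ℕ} (hζ : ζ ^ k = 1) : (if sw = true then ζ⁻¹ else ζ) ^ k = 1 := by
  split_ifs
  · rw [inv_pow, hζ, inv_one]
  · exact hζ

theorem exists_cell (h : EndData Xb V U D Λ u α) (F : LFam Xb V U D α κ) (x : Ix F) {z₀ : ℂ} {R : ℝ} (hR : 0 < R) {f : ℂ → EN N}
    (hf : DifferentiableOn ℂ f (ball z₀ R)) (hV : ∀ z ∈ ball z₀ R, f z ∈ V ∧ u (f z) - z ∈ Λ)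
    (hp : ∀ z ∈ ball z₀ R, ∃ p, CenS p ∧ ∃ a : ℂ, a ≠ 0 ∧ f z = a • F.sS x p) :
    ∃ g : ℂ → ℂ, DifferentiableOn ℂ g (ball z₀ R) ∧ ((F.ch x).ex = true → |(g z₀).im| ≤ Real.pi) ∧
      ∀ z ∈ ball z₀ R, CenS (F.XX x z (g z)) ∧ ∃ a : ℂ, a ≠ 0 ∧ f z = a • F.Phi x z (g z) := by
  choose! p hp1 a ha hfa using hp
  have hκ := (F.ch x).κ_ne
  have hk := (F.ch x).k_pos
  have hb3 : ∀ z ∈ ball z₀ R, p z ∈ ball (0 : ℂ × ℂ) 3 := by
    intro z hz
    rw [mem_ball_zero_iff, Prod.norm_def, max_lt_iff]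
    have h1 := hp1 z hz
    exact ⟨by linarith [h1.1], by linarith [h1.2]⟩
  have hsV : ∀ z ∈ ball z₀ R, F.sS x (p z) ∈ V := by
    intro z hz
    have h1 := h.V_smul _ (hV z hz).1 (a z)⁻¹ (inv_ne_zero (ha z hz))
    rwa [hfa z hz, smul_smul, inv_mul_cancel₀ (ha z hz), one_smul] at h1
  have hL : ∀ z ∈ ball z₀ R, Lp (F.ch x).ex (p z) ≠ 0 := fun z hz => (sS_V F x (hb3 z hz)).1 (hsV z hz)
  have hexp : ∀ z ∈ ball z₀ R, (F.ch x).κ * (p z).1 * (p z).2 ^ (F.ch x).b = Complex.exp z := by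
    intro z hz
    have h1 := sS_u F x (hb3 z hz) (hsV z hz)
    rw [atl_u] at h1
    have h2 := (h.lat _).1 (hV z hz).2
    have h3 := (h.lat _).1 (h.u_smul _ (hsV z hz) (a z) (ha z hz))
    rw [← hfa z hz] at h3
    rw [Complex.exp_sub, div_eq_one_iff_eq (Complex.exp_ne_zero _)] at h2 h3
    rw [← h1, ← h3, h2]
  have hmem : ∀ z ∈ ball z₀ R, f z ∈ (F.ch x).W ∧ (F.ch x).q (f z) = ((swp x.1.2 (p z)).1 ^ (F.ch x).k, (swp x.1.2 (p z)).2 ^ (F.ch x).k) := by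
    intro z hz
    have h1 := (F.ch x).s_mem _ (swp_ball x.1.2 (hb3 z hz))
    have h2 : f z = a z • (F.ch x).s (swp x.1.2 (p z)) := hfa z hz
    rw [h2]
    exact ⟨(F.ch x).smul_W _ h1.2.1 _ (ha z hz), by rw [(F.ch x).q_smul _ h1.2.1 _ (ha z hz), h1.2.2]⟩
  obtain ⟨Q, hQd, hQ⟩ : ∃ Q : ℂ → ℂ, DifferentiableOn ℂ Q (ball z₀ R) ∧ ∀ z ∈ ball z₀ R, Q z = (p z).2 ^ (F.ch x).k := by
    have hqd : DifferentiableOn ℂ (fun z => (F.ch x).q (f z)) (ball z₀ R) := by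
      intro z hz
      have h1 := ((F.ch x).q_an _ (hmem z hz).1).differentiableAt
      have h2 := hf.differentiableAt (isOpen_ball.mem_nhds hz)
      exact (DifferentiableAt.comp (g := (F.ch x).q) z h1 h2).differentiableWithinAt
    by_cases hs : x.1.2 = true
    · refine ⟨fun z => ((F.ch x).q (f z)).1, fun z hz => (hqd z hz).fst, fun z hz => ?_⟩
      have h1 := (hmem z hz).2
      rw [hs] at h1
      show ((F.ch x).q (f z)).1 = _
      rw [h1]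
      rfl
    · refine ⟨fun z => ((F.ch x).q (f z)).2, fun z hz => (hqd z hz).snd, fun z hz => ?_⟩
      have h1 := (hmem z hz).2
      have hs' : x.1.2 = false := by simpa using hs
      rw [hs'] at h1
      show ((F.ch x).q (f z)).2 = _
      rw [h1]
      rfl
  by_cases he : (F.ch x).ex = true
  · have hne : ∀ z ∈ ball z₀ R, (p z).1 ≠ 0 ∧ (p z).2 ≠ 0 := by
      intro z hz
      have h1 := hL z hz
      unfold Lp at h1
      rw [if_pos he, mul_ne_zero_iff] at h1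
      exact h1
    obtain ⟨g, hgd, hgi, hge⟩ := CellS_branch hR hQd (fun z hz => by rw [hQ z hz]; exact pow_ne_zero _ (hne z hz).2) hk
    refine ⟨g, hgd, fun _ => hgi, fun z hz => ?_⟩
    have hE := Complex.exp_ne_zero (g z)
    have h2 := (hne z hz).2
    have hζ : ((p z).2 / Complex.exp (g z)) ^ (F.ch x).k = 1 := by
      rw [div_pow, hge z hz, hQ z hz, div_self (pow_ne_zero _ h2)]
    have hXX : F.XX x z (g z) = rot ((p z).2 / Complex.exp (g z)) (p z) := by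
      rw [XX_eq, if_pos he]
      unfold rot
      refine Prod.ext ?_ ?_
      · show (F.ch x).κ⁻¹ * Complex.exp (z - (F.ch x).b * g z) = (p z).2 / Complex.exp (g z) * (p z).1
        have h3 := hexp z hz
        rcases (F.ch x).k_eq with hk1 | hb1
        · rw [hk1, pow_one] at hζ
          rw [hζ, one_mul]
          rcases Nat.eq_zero_or_pos (F.ch x).b with hb | hb
          · rw [hb, pow_zero, mul_one] at h3
            rw [hb, Nat.cast_zero, zero_mul, sub_zero, ← h3, inv_mul_cancel_left₀ hκ]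
          · have hb1 : (F.ch x).b = 1 := le_antisymm (F.ch x).b_le hb
            rw [hb1, pow_one] at h3
            rw [div_eq_one_iff_eq hE] at hζ
            rw [hb1, Nat.cast_one, one_mul, Complex.exp_sub, ← h3, ← hζ]
            field_simp
        · rw [hb1, pow_one] at h3
          rw [hb1, Nat.cast_one, one_mul, Complex.exp_sub, ← h3]
          field_simp
      · show Complex.exp (g z) = ((p z).2 / Complex.exp (g z))⁻¹ * (p z).2
        field_simp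
    have hn := Pool.Agent.EG.RL.rot_norm hk hζ (p z)
    refine ⟨?_, ?_⟩
    · rw [hXX]
      have h4 := hp1 z hz
      exact ⟨by rw [hn.1]; exact h4.1, by rw [hn.2]; exact h4.2⟩
    · obtain ⟨c', hc', hs⟩ := (F.ch x).s_rot _ (CellS_pow (sw := x.1.2) hζ) _ (swp_ball x.1.2 (hb3 z hz))
      rw [← CellS_swp_rot, ← hXX] at hs
      refine ⟨a z * c'⁻¹, mul_ne_zero (ha z hz) (inv_ne_zero hc'), ?_⟩
      have h5 : F.Phi x z (g z) = c' • F.sS x (p z) := hs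
      rw [h5, smul_smul, mul_assoc, inv_mul_cancel₀ hc', mul_one]
      exact hfa z hz
  · have hb : (F.ch x).b = 0 := by
      have h1 := (F.ch x).b_le
      have h2 : (F.ch x).b ≠ 1 := fun h3 => he ((F.ch x).b_ex h3)
      omega
    have hk1 : (F.ch x).k = 1 := by
      rcases (F.ch x).k_eq with h1 | h1
      · exact h1
      · omega
    refine ⟨Q, hQd, fun h1 => absurd h1 he, fun z hz => ?_⟩
    have hXX : F.XX x z (Q z) = p z := by
      have h3 := hexp z hz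
      rw [hb, pow_zero, mul_one] at h3
      rw [XX_eq, if_neg he, hb, Nat.cast_zero, zero_mul, sub_zero, ← h3, inv_mul_cancel_left₀ hκ, hQ z hz, hk1, pow_one]
    unfold LFam.Phi
    rw [hXX]
    exact ⟨hp1 z hz, a z, ha z hz, hfa z hz⟩

end Pool.Agent.EG.LE

end

section

/-!
# EG LE GrowA: the values of the sections near the seam

Proof (helper41):
away_low: for every x with ex = true the set K x := {p in closedBall 0 1 | pr (sS x p) in 𝒦} is compact (p ↦ pr (sS x p) is continuous on closedBall 0 1, 𝒦 closed), on it sS x p is in V (pr (sS x p) = pr y with y in V;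
V_smul, both ≠ 0), so p.2 ≠ 0 (sS_V), hence ‖p.2‖ ≥ c x > 0 on K x (if K x is empty take c x = 1).  Finitely many x.
-/

set_option autoImplicit false

open Topology Filter Metric Set

namespace Pool.Agent.EG.LE

attribute [-instance] ProperSMul.toContinuousSMul

open Pool.Agent.H36.BP (EN fs wd)
open Pool.Agent.H14.PP (IsCone Tan jac)
open Pool.Agent.H62.EF (MN pr)
open Pool.Agent.H62.EL (TForm)
open Pool.Agent.EG.RL (rot Cen Model Bphi)

variable {N : ℕ} {Xb V U D : Set (EN N)} {Λ : AddSubgroup ℂ} {u : EN N → ℂ} {α : TForm V Λ u} {κ : Type}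

/-- near `Re z = - T₁` the sections over balls of radius `r₂` stay in a compact part of `V` -/
def Away (V U : Set (EN N)) (Λ : AddSubgroup ℂ) (u : EN N → ℂ) (T₁ r₂ : ℝ) : Prop :=
  ∃ 𝒦 : Set (MN N), IsCompact 𝒦 ∧ 𝒦 ⊆ pr '' V ∧ ∀ (z : ℂ) (f : ℂ → EN N), -T₁ - 10 ≤ z.re → z.re ≤ -T₁ → SecOn U Λ u (ball z r₂) f → pr (f z) ∈ 𝒦

private theorem GrowA_one (h : EndData Xb V U D Λ u α) (F : LFam Xb V U D α κ) {𝒦 : Set (MN N)} (hK : IsCompact 𝒦) (hKV : 𝒦 ⊆ pr '' V)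
    (x : Ix F) (hx : (F.ch x).ex = true) :
    ∃ c : ℝ, 0 < c ∧ ∀ p : ℂ × ℂ, p ∈ closedBall (0 : ℂ × ℂ) 1 → pr (F.sS x p) ∈ 𝒦 → c ≤ ‖p.2‖ := by
  have h3 : ∀ p ∈ closedBall (0 : ℂ × ℂ) 1, p ∈ ball (0 : ℂ × ℂ) 3 := fun p hp => closedBall_subset_ball (by norm_num) hp
  have hne : ∀ p ∈ closedBall (0 : ℂ × ℂ) 1, F.sS x p ≠ 0 := fun p hp h0 => h.cone.zero_notMem (h0 ▸ sS_Xb F x (h3 p hp))
  have hcont : ContinuousOn (fun p => pr (F.sS x p)) (closedBall (0 : ℂ × ℂ) 1) := fun p hp => by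
    refine ContinuousAt.continuousWithinAt ?_
    exact ContinuousAt.comp (g := pr) (f := F.sS x) (Pool.Agent.H62.EF.continuousAt_pr (hne p hp)) (sS_an F x (h3 p hp)).continuousAt
  have hcl : IsClosed (closedBall (0 : ℂ × ℂ) 1 ∩ (fun p => pr (F.sS x p)) ⁻¹' 𝒦) :=
    hcont.preimage_isClosed_of_isClosed isClosed_closedBall hK.isClosed
  have hcomp : IsCompact (closedBall (0 : ℂ × ℂ) 1 ∩ (fun p => pr (F.sS x p)) ⁻¹' 𝒦) :=
    (isCompact_closedBall (0 : ℂ × ℂ) 1).of_isClosed_subset hcl inter_subset_left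
  have hp2 : ∀ p ∈ closedBall (0 : ℂ × ℂ) 1, pr (F.sS x p) ∈ 𝒦 → p.2 ≠ 0 := by
    intro p hp hpK
    obtain ⟨y, hyV, hy⟩ := hKV hpK
    have hy0 : y ≠ 0 := fun h0 => h.cone.zero_notMem (h0 ▸ h.V_sub hyV)
    obtain ⟨c, hc, hcy⟩ := (Pool.Agent.H62.EF.pr_eq_iff (hne p hp) hy0).1 hy.symm
    have hV : F.sS x p ∈ V := by
      rw [hcy]
      exact h.V_smul y hyV c hc
    have hL := (sS_V F x (h3 p hp)).1 hV
    unfold Lp at hL
    rw [if_pos hx] at hL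
    exact right_ne_zero_of_mul hL
  rcases (closedBall (0 : ℂ × ℂ) 1 ∩ (fun p => pr (F.sS x p)) ⁻¹' 𝒦).eq_empty_or_nonempty with hem | hnem
  · refine ⟨1, one_pos, fun p hp hpK => ?_⟩
    have : p ∈ (∅ : Set (ℂ × ℂ)) := hem ▸ ⟨hp, hpK⟩
    exact absurd this (Set.notMem_empty p)
  · obtain ⟨p₀, hp₀, hmin⟩ := hcomp.exists_isMinOn hnem (f := fun p : ℂ × ℂ => ‖p.2‖) continuous_snd.norm.continuousOn
    refine ⟨‖p₀.2‖, norm_pos_iff.2 (hp2 p₀ hp₀.1 hp₀.2), fun p hp hpK => ?_⟩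
    exact hmin ⟨hp, hpK⟩

theorem away_low (h : EndData Xb V U D Λ u α) (F : LFam Xb V U D α κ) {𝒦 : Set (MN N)} (hK : IsCompact 𝒦) (hKV : 𝒦 ⊆ pr '' V) :
    ∃ c₀ : ℝ, 0 < c₀ ∧ ∀ (x : Ix F) (p : ℂ × ℂ), (F.ch x).ex = true → p ∈ closedBall (0 : ℂ × ℂ) 1 → pr (F.sS x p) ∈ 𝒦 → c₀ ≤ ‖p.2‖ := by
  have hall : ∀ x : Ix F, ∃ c : ℝ, 0 < c ∧ ((F.ch x).ex = true → ∀ p : ℂ × ℂ, p ∈ closedBall (0 : ℂ × ℂ) 1 → pr (F.sS x p) ∈ 𝒦 → c ≤ ‖p.2‖) := by
    intro x
    by_cases hx : (F.ch x).ex = true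
    · obtain ⟨c, hc, hc'⟩ := GrowA_one h F hK hKV x hx
      exact ⟨c, hc, fun _ => hc'⟩
    · exact ⟨1, one_pos, fun hx' => absurd hx' hx⟩
  choose c hc hc' using hall
  obtain ⟨B, hB⟩ := (Set.finite_range (fun x : Ix F => (c x)⁻¹)).bddAbove
  have hB1 : 0 < max B 1 := lt_max_of_lt_right one_pos
  refine ⟨(max B 1)⁻¹, inv_pos.2 hB1, fun x p hx hp hpK => ?_⟩
  have h1 : (c x)⁻¹ ≤ max B 1 := (hB ⟨x, rfl⟩).trans (le_max_left _ _)
  have h2 : (max B 1)⁻¹ ≤ c x := (inv_le_comm₀ (hc x) hB1).1 h1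
  exact h2.trans (hc' x hx p hp hpK)

end Pool.Agent.EG.LE

end

section

/-!
# LU Rb: residues near the ends, general lemmas
-/

set_option autoImplicit false

open Topology Filter Metric

noncomputable section

namespace Pool.Agent.H6.LU

attribute [-instance] ProperSMul.toContinuousSMul

open Pool.Agent.H36.BP (EN IsGermChart)
open Pool.Agent.H18.LU (OCone Dsc LogP)
open Pool.Agent.H62.EF (TorusMap)
open Pool.Agent.H62.EL (TForm)
open Pool.Agent.H14.PP (jac)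
open Pool.Agent.H86.LU (RA germ_shift)
open Pool.Agent.EG.LE (cf cf_change)

variable {M : ℕ}

/-- change of coordinates in a germ chart -/
theorem germ_comp {X : Set (EN M)} {σ : ℂ × ℂ → EN M} {τ : EN M → ℂ × ℂ} (h : IsGermChart X σ τ) {φ ψ : ℂ × ℂ → ℂ × ℂ}
    (hφ : AnalyticAt ℂ φ 0) (hψ : AnalyticAt ℂ ψ 0) (h0 : φ 0 = 0) (h1 : ∀ᶠ p in 𝓝 (0 : ℂ × ℂ), ψ (φ p) = p)
    (h2 : ∀ᶠ p in 𝓝 (0 : ℂ × ℂ), φ (ψ p) = p) : IsGermChart X (fun p => σ (φ p)) (fun y => ψ (τ y)) := by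
  have hφt : Tendsto φ (𝓝 0) (𝓝 0) := by
    have := hφ.continuousAt.tendsto
    rwa [h0] at this
  have hτ0 : τ (σ 0) = 0 := h.left.self_of_nhds
  have hτt : Tendsto τ (𝓝 (σ 0)) (𝓝 0) := by
    have := h.τ_an.continuousAt.tendsto
    rwa [hτ0] at this
  refine ⟨AnalyticAt.comp (g := σ) (f := φ) (by rw [h0]; exact h.σ_an) hφ, hφt.eventually h.σ_mem, ?_, ?_, ?_, ?_⟩
  · show AnalyticAt ℂ (fun y => ψ (τ y)) (σ (φ 0))
    rw [h0]
    exact AnalyticAt.comp (g := ψ) (f := τ) (by rw [hτ0]; exact hψ) h.τ_an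
  · filter_upwards [hφt.eventually h.left, h1] with p hp1 hp2
    rw [hp1, hp2]
  · show ∀ᶠ y in 𝓝 (σ (φ 0)), y ∈ X → ∃ c : ℂ, c ≠ 0 ∧ y = c • σ (φ (ψ (τ y)))
    rw [h0]
    filter_upwards [h.right, hτt.eventually h2] with y hy1 hy2 hy
    rw [hy2]
    exact hy1 hy
  · show ∀ᶠ z in 𝓝 (σ (φ 0), (1 : ℂ)), ψ (τ (z.2 • z.1)) = ψ (τ z.1)
    rw [h0]
    filter_upwards [h.inv] with z hz
    rw [hz]

/-- a germ chart of an open part -/
theorem germ_open {K X : Set (EN M)} (hXK : X ⊆ K) {σ : ℂ × ℂ → EN M} {τ : EN M → ℂ × ℂ} (h : IsGermChart K σ τ)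
    (hm : ∀ᶠ p in 𝓝 (0 : ℂ × ℂ), σ p ∈ X) : IsGermChart X σ τ :=
  ⟨h.σ_an, hm, h.τ_an, h.left, h.right.mono fun _ hy hyX => hy (hXK hyX), h.inv⟩

/-- the coordinate change `(s, t) ↦ (p₁ (exp (ε s) - 1), t)` -/
def ph (p₁ ε : ℂ) (q : ℂ × ℂ) : ℂ × ℂ := (p₁ * (Complex.exp (ε * q.1) - 1), q.2)

/-- its inverse -/
def ps (p₁ ε : ℂ) (q : ℂ × ℂ) : ℂ × ℂ := (ε * Complex.log (1 + q.1 / p₁), q.2)

theorem ph_an (p₁ ε : ℂ) (q : ℂ × ℂ) : AnalyticAt ℂ (ph p₁ ε) q := by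
  have h1 : AnalyticAt ℂ (fun q : ℂ × ℂ => ε * q.1) q := analyticAt_const.mul analyticAt_fst
  exact (analyticAt_const.mul (h1.cexp.sub analyticAt_const)).prod analyticAt_snd

theorem ps_an (p₁ ε : ℂ) : AnalyticAt ℂ (ps p₁ ε) 0 := by
  have h1 : AnalyticAt ℂ (fun q : ℂ × ℂ => 1 + q.1 / p₁) 0 := analyticAt_const.add (analyticAt_fst.div_const)
  have h2 : AnalyticAt ℂ (fun q : ℂ × ℂ => Complex.log (1 + q.1 / p₁)) 0 := h1.clog (by simp)
  exact (analyticAt_const.mul h2).prod analyticAt_snd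

theorem ph_zero (p₁ ε : ℂ) : ph p₁ ε 0 = 0 := by
  unfold ph
  simp

theorem ph_jac (p₁ ε : ℂ) (q : ℂ × ℂ) : jac (ph p₁ ε) q = p₁ * (ε * Complex.exp (ε * q.1)) := by
  have h1 : HasFDerivAt (fun q : ℂ × ℂ => p₁ * (Complex.exp (ε * q.1) - 1)) (p₁ • (Complex.exp (ε * q.1) • (ε • ContinuousLinearMap.fst ℂ ℂ ℂ))) q := by
    have h2 : HasFDerivAt (fun q : ℂ × ℂ => ε * q.1) (ε • ContinuousLinearMap.fst ℂ ℂ ℂ) q := hasFDerivAt_fst.const_mul ε
    exact (h2.cexp.sub_const 1).const_mul p₁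
  have h3 : HasFDerivAt (ph p₁ ε) ((p₁ • (Complex.exp (ε * q.1) • (ε • ContinuousLinearMap.fst ℂ ℂ ℂ))).prod (ContinuousLinearMap.snd ℂ ℂ ℂ)) q :=
    h1.prodMk hasFDerivAt_snd
  unfold jac
  rw [h3.fderiv]
  simp
  left
  ring

theorem ps_ph {p₁ ε : ℂ} (hp : p₁ ≠ 0) (hε : ε = 1 ∨ ε = -1) : ∀ᶠ q in 𝓝 (0 : ℂ × ℂ), ps p₁ ε (ph p₁ ε q) = q := by
  have h1 : ∀ᶠ q in 𝓝 (0 : ℂ × ℂ), |(ε * q.1).im| < Real.pi := by
    have h2 : ContinuousAt (fun q : ℂ × ℂ => |(ε * q.1).im|) 0 := by fun_prop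
    refine h2.eventually_lt_const ?_
    simp [Real.pi_pos]
  filter_upwards [h1] with q hq
  unfold ps ph
  rw [abs_lt] at hq
  have h2 : (1 : ℂ) + p₁ * (Complex.exp (ε * q.1) - 1) / p₁ = Complex.exp (ε * q.1) := by
    rw [mul_div_cancel_left₀ _ hp]
    ring
  simp only [h2]
  rw [Complex.log_exp hq.1 hq.2.le]
  have h3 : ε * (ε * q.1) = q.1 := by
    rcases hε with rfl | rfl <;> ring
  rw [h3]

theorem ph_ps {p₁ ε : ℂ} (hp : p₁ ≠ 0) (hε : ε = 1 ∨ ε = -1) : ∀ᶠ q in 𝓝 (0 : ℂ × ℂ), ph p₁ ε (ps p₁ ε q) = q := by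
  have h1 : ∀ᶠ q in 𝓝 (0 : ℂ × ℂ), 1 + q.1 / p₁ ≠ 0 := by
    have h2 : ContinuousAt (fun q : ℂ × ℂ => 1 + q.1 / p₁) 0 := by fun_prop
    exact h2.eventually_ne (by simp)
  filter_upwards [h1] with q hq
  unfold ps ph
  simp only
  have h3 : ε * (ε * Complex.log (1 + q.1 / p₁)) = Complex.log (1 + q.1 / p₁) := by
    rcases hε with rfl | rfl <;> ring
  rw [h3, Complex.exp_log hq, add_sub_cancel_left, mul_div_cancel₀ _ hp]

/-- the residues near an end of the boundary curve -/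
theorem end_res {K X D : Set (EN M)} {Λ : AddSubgroup ℂ} {u : EN M → ℂ} (hX : OCone X) (hu : TorusMap X Λ u) (hΛ : Dsc Λ)
    (hs : ∀ x ∈ D, ∀ c : ℂ, c ≠ 0 → c • x ∈ D) (hcl : ∀ x ∈ X, x ∉ D → ∀ᶠ y in 𝓝 x, y ∉ D) (hsub : D ⊆ X)
    {α : TForm (X \ D) Λ u} (hlog : LogP α) (hexp : ∀ w, w ∈ Λ ↔ Complex.exp w = 1) (hXK : X ⊆ K)
    {σ : ℂ × ℂ → EN M} {τ : EN M → ℂ × ℂ} (hg : IsGermChart K σ τ) {ε : ℂ} (hε : ε = 1 ∨ ε = -1) {κ : ℂ}
    (hform : ∀ᶠ p in 𝓝 (0 : ℂ × ℂ), p.1 ≠ 0 → σ p ∈ X ∧ (σ p ∈ D ↔ p.2 = 0) ∧ Complex.exp (ε * u (σ p)) = κ * p.1)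
    (hax : ∀ᶠ p in 𝓝 (0 : ℂ × ℂ), p.1 = 0 → σ p ∉ X) {C : ℝ}
    (hC : ∀ᶠ p in 𝓝 (0 : ℂ × ℂ), p.1 ≠ 0 → p.2 ≠ 0 → ∀ t : ℂ, u (σ p) - t ∈ Λ → ‖p.1 * p.2 * cf α σ t p‖ ≤ C) :
    ∀ᶠ y in 𝓝 (σ 0), y ∈ D → ∀ z ρ, u y - z ∈ Λ → RA α y z ρ → ‖ρ‖ ≤ C := by
  have hτ0 : τ (σ 0) = 0 := hg.left.self_of_nhds
  have hτt : Tendsto τ (𝓝 (σ 0)) (𝓝 0) := by
    have := hg.τ_an.continuousAt.tendsto
    rwa [hτ0] at this
  filter_upwards [hg.right, hτt.eventually (germ_shift hg), hτt.eventually hform.eventually_nhds, hτt.eventually hax,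
    hτt.eventually hC.eventually_nhds, hτt.eventually hg.σ_an.eventually_analyticAt.eventually_nhds] with y h1 h2 h3 h4 h5 h6 hyD z ρ hz hρ
  obtain ⟨c, hc, hyc⟩ := h1 (hXK (hsub hyD))
  set p : ℂ × ℂ := τ y with hpdef
  have hpX : σ p ∈ X := by
    have h7 := hX.smul_mem _ (hsub hyD) c⁻¹ (inv_ne_zero hc)
    rwa [hyc, smul_smul, inv_mul_cancel₀ hc, one_smul] at h7
  have hp1 : p.1 ≠ 0 := fun h7 => h4 h7 hpX
  have hpD : σ p ∈ D := by
    have h7 := hs _ hyD c⁻¹ (inv_ne_zero hc)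
    rwa [hyc, smul_smul, inv_mul_cancel₀ hc, one_smul] at h7
  obtain ⟨-, h8, h9⟩ := h3.self_of_nhds hp1
  have hp2 : p.2 = 0 := h8.1 hpD
  -- the new chart
  set φ : ℂ × ℂ → ℂ × ℂ := ph p.1 ε with hφ
  have hφa : ∀ q, AnalyticAt ℂ φ q := ph_an p.1 ε
  have hφ0 : φ 0 = 0 := ph_zero p.1 ε
  have hφt : Tendsto (fun q => p + φ q) (𝓝 0) (𝓝 p) := by
    have h10 : ContinuousAt (fun q => p + φ q) 0 := continuousAt_const.add (hφa 0).continuousAt
    have h11 := h10.tendsto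
    simp only [hφ0, add_zero] at h11
    exact h11
  have hφ1 : ∀ q, (p + φ q).1 = p.1 * Complex.exp (ε * q.1) := by
    intro q
    show p.1 + p.1 * (Complex.exp (ε * q.1) - 1) = _
    ring
  have hφ2 : ∀ q, (p + φ q).2 = q.2 := by
    intro q
    show p.2 + q.2 = _
    rw [hp2, zero_add]
  have hφn : ∀ q, (p + φ q).1 ≠ 0 := by
    intro q
    rw [hφ1]
    exact mul_ne_zero hp1 (Complex.exp_ne_zero _)
  have hg' : IsGermChart K (fun q => σ (p + φ q)) (fun y => ps p.1 ε (τ y - p)) :=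
    germ_comp h2 (hφa 0) (ps_an _ _) hφ0 (ps_ph hp1 hε) (ph_ps hp1 hε)
  have hmX : ∀ᶠ q in 𝓝 (0 : ℂ × ℂ), σ (p + φ q) ∈ X := by
    filter_upwards [hφt.eventually h3] with q hq
    exact (hq (hφn q)).1
  have hgX := germ_open hXK hg' hmX
  have hD' : ∀ᶠ q in 𝓝 (0 : ℂ × ℂ), σ (p + φ q) ∈ D ↔ q.2 = 0 := by
    filter_upwards [hφt.eventually h3] with q hq
    rw [(hq (hφn q)).2.1, hφ2]
  have hup : u (σ p) - z ∈ Λ := by
    have h10 := hu.smul _ hpX c hc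
    rw [← hyc] at h10
    have h11 := Λ.sub_mem hz h10
    have e : u y - z - (u y - u (σ p)) = u (σ p) - z := by ring
    rwa [e] at h11
  have hlift : ∀ᶠ q in 𝓝 (0 : ℂ × ℂ), u (σ (p + φ q)) - (z + q.1) ∈ Λ := by
    filter_upwards [hφt.eventually h3] with q hq
    obtain ⟨-, -, h10⟩ := hq (hφn q)
    rw [hφ1, ← mul_assoc, ← h9, ← Complex.exp_add] at h10
    have h11 : Complex.exp (ε * (u (σ (p + φ q)) - u (σ p) - q.1)) = 1 := by
      have e : ε * (u (σ (p + φ q)) - u (σ p) - q.1) = ε * u (σ (p + φ q)) - (ε * u (σ p) + ε * q.1) := by ring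
      rw [e, Complex.exp_sub, h10, div_self (Complex.exp_ne_zero _)]
    have h12 : u (σ (p + φ q)) - u (σ p) - q.1 ∈ Λ := by
      rcases hε with rfl | rfl
      · rw [one_mul] at h11
        exact (hexp _).2 h11
      · have h13 := (hexp _).2 h11
        have h14 := Λ.neg_mem h13
        have e : -(-1 * (u (σ (p + φ q)) - u (σ p) - q.1)) = u (σ (p + φ q)) - u (σ p) - q.1 := by ring
        rwa [e] at h14
    have h13 := Λ.add_mem h12 hup
    have e : u (σ (p + φ q)) - u (σ p) - q.1 + (u (σ p) - z) = u (σ (p + φ q)) - (z + q.1) := by ring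
    rwa [e] at h13
  obtain ⟨g, hga, hge⟩ := hlog _ _ (fun q => z + q.1) hgX hD' (analyticAt_const.add analyticAt_fst) hlift
  have hbd : ∀ᶠ q in 𝓝 (0 : ℂ × ℂ), q.2 ≠ 0 → ‖g q‖ ≤ C := by
    filter_upwards [hge, hlift, hφt.eventually h5, hφt.eventually h6, hφt.eventually h3.eventually_nhds] with q h10 h11 h12 h13 h14 hq2
    have h15 : ∀ᶠ q' in 𝓝 q, (p + φ q').2 ≠ 0 := by
      have h16 : ContinuousAt (fun q' : ℂ × ℂ => (p + φ q').2) q := (continuousAt_const.add (hφa q).continuousAt).snd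
      exact h16.eventually_ne (by rw [hφ2]; exact hq2)
    have hVe : ∀ᶠ y in 𝓝 (p + φ q), σ y ∈ X \ D := by
      have h16 : ∀ᶠ y in 𝓝 (p + φ q), y.2 ≠ 0 := continuousAt_snd.eventually_ne (by rw [hφ2]; exact hq2)
      have h17 : ∀ᶠ y in 𝓝 (p + φ q), y.1 ≠ 0 := continuousAt_fst.eventually_ne (hφn q)
      filter_upwards [h14, h16, h17] with y hy1 hy2 hy3
      obtain ⟨h18, h19, -⟩ := hy1 hy3
      exact ⟨h18, fun h20 => hy2 (h19.1 h20)⟩
    have hσq : AnalyticAt ℂ σ (p + φ q) := h13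
    have hψa : AnalyticAt ℂ (fun q' => p + φ q') q := analyticAt_const.add (hφa q)
    have h16 := cf_change (α := α) (t := z + q.1) (V := X \ D) (fun h => hX.zero_notMem h.1)
      (fun x hx c hc => ⟨hX.smul_mem _ hx.1 c hc, fun h => hx.2 (by
        have h17 := hs _ h c⁻¹ (inv_ne_zero hc)
        rwa [smul_smul, inv_mul_cancel₀ hc, one_smul] at h17)⟩) (φ := fun q => σ (p + φ q)) (ψ := σ) (τ := fun q' => p + φ q') (p := q)
      (AnalyticAt.comp (g := σ) (f := fun q' => p + φ q') hσq hψa) hσq hψa hVe h11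
      (Eventually.of_forall fun y => ⟨1, one_ne_zero, (one_smul _ _).symm⟩)
    have h17 : jac (fun q' => p + φ q') q = p.1 * (ε * Complex.exp (ε * q.1)) := by
      have h18 : fderiv ℂ (fun q' => p + φ q') q = fderiv ℂ φ q := by rw [fderiv_const_add]
      have h19 := ph_jac p.1 ε q
      unfold jac at h19 ⊢
      rw [h18]
      exact h19
    have h18 := h12 (hφn q) (by rw [hφ2]; exact hq2) _ h11
    rw [← h10 hq2]
    show ‖q.2 * cf α (fun q => σ (p + φ q)) (z + q.1) q‖ ≤ C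
    rw [h16, h17]
    calc ‖q.2 * (cf α σ (z + q.1) (p + φ q) * (p.1 * (ε * Complex.exp (ε * q.1))))‖
        = ‖ε‖ * ‖(p + φ q).1 * (p + φ q).2 * cf α σ (z + q.1) (p + φ q)‖ := by
          rw [hφ1, hφ2, ← norm_mul]
          congr 1
          ring
      _ ≤ 1 * C := by
          have h19 : ‖ε‖ = 1 := by rcases hε with rfl | rfl <;> simp
          rw [h19]
          gcongr
      _ = C := one_mul C
  have hg0 : ‖g 0‖ ≤ C := by
    have hct : Tendsto (fun t : ℂ => ((0, t) : ℂ × ℂ)) (𝓝 0) (𝓝 0) := by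
      have h1 : Continuous fun t : ℂ => ((0, t) : ℂ × ℂ) := by fun_prop
      exact h1.tendsto' 0 0 rfl
    have h10 : Tendsto (fun t : ℂ => ‖g (0, t)‖) (𝓝[≠] 0) (𝓝 ‖g 0‖) := ((hga.continuousAt.tendsto.comp hct).norm).mono_left nhdsWithin_le_nhds
    refine le_of_tendsto h10 ?_
    filter_upwards [nhdsWithin_le_nhds (hct.eventually hbd), self_mem_nhdsWithin] with t ht1 ht2
    exact ht1 ht2
  have hRA : RA α (σ p) z (g 0) := by
    refine ⟨_, _, g, hgX, ?_, hD', hlift, hga, hge, rfl⟩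
    show σ (p + φ 0) = σ p
    rw [hφ0, add_zero]
  have hRA' := hRA.smul hX hu hs hcl hc
  rw [← hyc] at hRA'
  rw [RA.unique hX hu hΛ hs hcl hρ hRA']
  exact hg0

end Pool.Agent.H6.LU

end
end
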