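import Mathlib

/-! The parts of this file: H17.EntireRing, H62.BU.Surf. -/

section

/-!
# The ring of entire functions
-/

open Polynomial Topology Filter

namespace Pool.Agent.H17

attribute [-instance] ProperSMul.toContinuousSMul

/-- The algebra of entire functions. -/
def entire : Subalgebra ℂ (ℂ → ℂ) where
  carrier := {f | Differentiable ℂ f}
  mul_mem' hf hg := hf.mul hg
  add_mem' hf hg := hf.add hg
  algebraMap_mem' c := differentiable_const c

/-- Entire functions. -/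
abbrev EntFun : Type := ↥entire

namespace EntFun

lemma analyticAt (f : EntFun) (z : ℂ) : AnalyticAt ℂ (f : ℂ → ℂ) z := f.2.analyticAt z

@[ext] lemma ext' {f g : EntFun} (h : ∀ z, (f : ℂ → ℂ) z = (g : ℂ → ℂ) z) : f = g :=
  Subtype.ext (funext h)

/-- Evaluation at a point. -/
def ev (z : ℂ) : EntFun →+* ℂ := (Pi.evalRingHom (fun _ : ℂ => ℂ) z).comp entire.subtype

@[simp] lemma ev_apply (z : ℂ) (f : EntFun) : ev z f = (f : ℂ → ℂ) z := rfl

@[simp] lemma coe_algebraMap (c z : ℂ) : ((algebraMap ℂ EntFun c : EntFun) : ℂ → ℂ) z = c := rfl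

open Differential

/-- The coordinate function centred at `s`. -/
def coord (s : ℂ) : EntFun := ⟨fun z => z - s, by
  change Differentiable ℂ fun z : ℂ => z - s
  fun_prop⟩

@[simp] lemma coord_apply (s z : ℂ) : ((coord s : EntFun) : ℂ → ℂ) z = z - s := rfl

lemma order_mul (f g : EntFun) (s : ℂ) : analyticOrderAt ((f * g : EntFun) : ℂ → ℂ) s =
    analyticOrderAt (f : ℂ → ℂ) s + analyticOrderAt (g : ℂ → ℂ) s :=
  analyticOrderAt_mul (f.analyticAt s) (g.analyticAt s)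

lemma order_pow (f : EntFun) (n : ℕ) (s : ℂ) : analyticOrderAt ((f ^ n : EntFun) : ℂ → ℂ) s =
    n * analyticOrderAt (f : ℂ → ℂ) s := by
  have h : ((f ^ n : EntFun) : ℂ → ℂ) = (f : ℂ → ℂ) ^ n := rfl
  rw [h, analyticOrderAt_pow (f.analyticAt s), nsmul_eq_mul]

lemma order_prod {ι : Type*} (S : Finset ι) (f : ι → EntFun) (s : ℂ) :
    analyticOrderAt ((∏ i ∈ S, f i : EntFun) : ℂ → ℂ) s =
      ∑ i ∈ S, analyticOrderAt ((f i : EntFun) : ℂ → ℂ) s := by
  classical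
  induction S using Finset.induction_on with
  | empty =>
    rw [Finset.prod_empty, Finset.sum_empty, analyticOrderAt_eq_zero]
    right
    simp
  | insert a S ha ih => rw [Finset.prod_insert ha, Finset.sum_insert ha, order_mul, ih]

lemma order_eq_zero_iff (f : EntFun) (s : ℂ) :
    analyticOrderAt (f : ℂ → ℂ) s = 0 ↔ (f : ℂ → ℂ) s ≠ 0 :=
  (f.analyticAt s).analyticOrderAt_eq_zero

lemma order_coord (s : ℂ) : analyticOrderAt ((coord s : EntFun) : ℂ → ℂ) s = 1 :=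
  analyticOrderAt_id_sub_const_self

end EntFun

open EntFun

end Pool.Agent.H17

end

section

/-!
# BU: surfaces through their cones (germ level), copy of the definitions of note 2276
-/

set_option autoImplicit false

namespace Pool.Agent.H62.BU

attribute [-instance] ProperSMul.toContinuousSMul

open Filter Topology

variable {V : Type*} [NormedAddCommGroup V] [NormedSpace ℂ V]

/-- `σ` is a local parametrization of the surface with cone `X` near `σ 0`, `τ` the chart (homogeneous of degree `0`) -/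
structure IsChart (X : Set V) (σ : ℂ × ℂ → V) (τ : V → ℂ × ℂ) : Prop where
  σ_an : AnalyticAt ℂ σ 0
  σ_mem : ∀ᶠ p in 𝓝 (0 : ℂ × ℂ), σ p ∈ X
  ne : σ 0 ≠ 0
  τ_an : AnalyticAt ℂ τ (σ 0)
  left : ∀ᶠ p in 𝓝 (0 : ℂ × ℂ), τ (σ p) = p
  right : ∀ᶠ y in 𝓝 (σ 0), y ∈ X → ∃ c : ℂ, c ≠ 0 ∧ y = c • σ (τ y)
  inv : ∀ᶠ p in 𝓝 (σ 0, (1 : ℂ)), τ (p.2 • p.1) = τ p.1

/-- `X` is the cone (without `0`) over a compact complex surface -/
structure Surface (X : Set V) : Prop where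
  zero : (0 : V) ∉ X
  smul : ∀ x ∈ X, ∀ c : ℂ, c ≠ 0 → c • x ∈ X
  closed : ∀ x ∈ closure X, x ≠ 0 → x ∈ X
  chart : ∀ x ∈ X, ∃ σ τ, IsChart X σ τ ∧ σ 0 = x

/-- tangent vectors of `X` at `x` -/
def Tan (X : Set V) (x v : V) : Prop :=
  ∃ γ : ℂ → V, AnalyticAt ℂ γ 0 ∧ (∀ᶠ z in 𝓝 (0 : ℂ), γ z ∈ X) ∧ γ 0 = x ∧ deriv γ 0 = v

/-- sections of `m K (-j)` -/
structure IsForm (X : Set V) (m j : ℕ) (Ω : V → V → V → ℂ) : Prop where
  add_smul : ∀ x ∈ X, ∀ v w, Tan X x v → Tan X x w → ∀ a b : ℂ, Ω x (v + a • x) (w + b • x) = Ω x v w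
  det : ∀ x ∈ X, ∀ v w, Tan X x v → Tan X x w → ∀ a b c d : ℂ,
    Ω x (a • v + b • w) (c • v + d • w) = (a * d - b * c) ^ m * Ω x v w
  scale : ∀ x ∈ X, ∀ v w, Tan X x v → Tan X x w → ∀ c : ℂ, c ≠ 0 → c ^ j * Ω (c • x) (c • v) (c • w) = Ω x v w
  analytic : ∀ (φ : ℂ × ℂ → V) (p : ℂ × ℂ), AnalyticAt ℂ φ p → (∀ᶠ y in 𝓝 p, φ y ∈ X) →
    AnalyticAt ℂ (fun y => Ω (φ y) (fderiv ℂ φ y (1, 0)) (fderiv ℂ φ y (0, 1))) p

end Pool.Agent.H62.BU

end
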