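import Pool.Agent.H94.CB.M01
import Pool.Agent.H94.CB.M10

/-! The parts of this file: H14.PP.Dom, H14.PP.DomN, H17.AhlforsGlobal, H17.EntireRing_1. -/

section

/-!
# BPm Dom: comparison of the pieces of two charts

Let `C ≥ 1`, `P` with `DomPar C P`. There is `r > 0` such that: for `‖s‖ ≤ r`, `‖t‖ = 1`,
`TE C s u l b c m`, `‖w‖ ≤ 1/2`, (`nd' = true → C⁻¹ ≤ ‖w‖`), `0 < A'`, `A = ‖l m - b c‖ A'`,
`u' = l s' + b t'`, `w' = c s' + m t'`: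
`A * max (pN nd P s t s') (pT nd P s t t') < A' * max (pN nd' P u w u') (pT nd' P u w w')`
if the left side is positive.

Write `N' = pN nd' P u w u'`, `T' = pT nd' P u w w'`, `K, ε, κ` the parameters, `x = ‖s‖`; `O(x^θ)`
stands for a constant depending on `C, P` times `x^θ`.
From `DomN`: `‖u'‖ ≤ C exp (ε + K/4) N'`, `‖u‖^(1-κ) ‖w'‖ ≤ exp (5ε/16) T'`, and
`‖u‖ ≥ x/(2C)`, so `x^(1-κ) ≤ (2C)^(1-κ) ‖u‖^(1-κ) ≤ 2C ‖u‖^(1-κ)`, hence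
`x ‖w'‖ = x^κ x^(1-κ) ‖w'‖ ≤ 2 C x^κ exp (5ε/16) T'`.
1. Normal piece: `A pN ≤ 2C^2 A' ‖s'‖ exp (ε/16 - K)` and
   `‖s'‖ ≤ 2C ‖u'‖ + 2C^3 x ‖w'‖ ≤ 2 C^2 exp (ε + K/4) N' + 4 C^4 x^κ exp (5ε/16) T'`, so
   `A pN ≤ A' (4 C^4 exp (17ε/16 - 3K/4) N' + O(x^κ) T') ≤ A' (N'/4 + O(x^κ) T')`
   by `K_ge` (`16 C^4 e^2 ≤ exp (3K/4)`, `ε ≤ 1`).
2. Tangential piece: `A pT ≤ A' (‖l‖‖m‖ + C^2 x) x^(1-κ) ‖t'‖ exp (-15ε/16)`.
   `‖l‖ ‖m‖ x^(1-κ) ‖t'‖ ≤ ‖l‖ x^(1-κ) (‖w'‖ + C ‖s'‖)`,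
   `‖l‖ x^(1-κ) = ‖l‖^κ (‖l‖ x)^(1-κ) ≤ exp (ε/8) (1 - C^2 x)^(-1) ‖u‖^(1-κ)`
   (`‖l‖^κ ≤ C^κ ≤ exp (ε/8)` by `κ_log`; `‖l‖ x ≤ ‖u‖/(1 - C^2 x)`, `comp_u`).
   So `A pT ≤ A' (exp (-15ε/16 + ε/8 + 5ε/16) (1 + O(x)) T' + O(x^(1-κ)) N' + O(x) T')
   ≤ A' ((exp (-ε/2) + O(x^(1-κ))) T' + O(x^(1-κ)) N')` (`‖s'‖` from step 1, `‖t'‖ ≤ C (‖w'‖ + C‖s'‖)`).
With `m' = max N' T'`: both are at most `A' m' θ`, `θ < 1`, if `x ≤ r` is small enough; and `m' > 0`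
since the left side is positive.
-/

open Topology Filter Metric

namespace Pool.Agent.H14.PP

attribute [-instance] ProperSMul.toContinuousSMul

/-- the small numbers of the proof -/
theorem Dom_small {C : ℝ} (hC : 1 ≤ C) {P : Par} (hP : DomPar C P) (E1 E5 : ℝ) :
    ∃ r : ℝ, 0 < r ∧ r ≤ 1 ∧ ∀ x : ℝ, 0 ≤ x → x ≤ r → C ^ 2 * x ≤ 1 / 2 ∧ x ≤ 1 / (2 * C ^ 4) ∧
      P.K * (4 * C ^ 2 * x ^ 2) ≤ P.ε / 16 ∧ 24 * C ^ 6 * x ^ P.κ ≤ 1 / 4 ∧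
      Real.exp (-(P.ε / 2)) * (1 - C ^ 2 * x)⁻¹ + 2 * C ^ 4 * x * E5 +
        2 * C ^ 4 * x ^ (1 - P.κ) * (2 * C ^ 2 * E1 + 4 * C ^ 4 * x ^ P.κ * E5) < 1 := by
  have hC0 : 0 < C := by linarith
  have hε := hP.ε_pos
  have hκ := hP.κ_pos
  have hκ1 : 0 < 1 - P.κ := by linarith [hP.κ_le]
  have ck : Continuous fun x : ℝ => x ^ P.κ := Real.continuous_rpow_const hκ.le
  have ck1 : Continuous fun x : ℝ => x ^ (1 - P.κ) := Real.continuous_rpow_const hκ1.le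
  have h1 : ∀ᶠ x in 𝓝 (0 : ℝ), C ^ 2 * x < 1 / 2 := by
    have hc : Continuous fun x : ℝ => C ^ 2 * x := by fun_prop
    exact hc.continuousAt.eventually (gt_mem_nhds (by norm_num))
  have h2 : ∀ᶠ x in 𝓝 (0 : ℝ), x < 1 / (2 * C ^ 4) := gt_mem_nhds (by positivity)
  have h3 : ∀ᶠ x in 𝓝 (0 : ℝ), P.K * (4 * C ^ 2 * x ^ 2) < P.ε / 16 := by
    have hc : Continuous fun x : ℝ => P.K * (4 * C ^ 2 * x ^ 2) := by fun_prop
    refine hc.continuousAt.eventually (gt_mem_nhds ?_)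
    simp only [ne_eq, OfNat.ofNat_ne_zero, not_false_eq_true, zero_pow, mul_zero]
    positivity
  have h4 : ∀ᶠ x in 𝓝 (0 : ℝ), 24 * C ^ 6 * x ^ P.κ < 1 / 4 := by
    have hc : Continuous fun x : ℝ => 24 * C ^ 6 * x ^ P.κ := by fun_prop
    refine hc.continuousAt.eventually (gt_mem_nhds ?_)
    simp only [Real.zero_rpow hκ.ne', mul_zero]
    norm_num
  have h5 : ∀ᶠ x in 𝓝 (0 : ℝ), Real.exp (-(P.ε / 2)) * (1 - C ^ 2 * x)⁻¹ + 2 * C ^ 4 * x * E5 +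
        2 * C ^ 4 * x ^ (1 - P.κ) * (2 * C ^ 2 * E1 + 4 * C ^ 4 * x ^ P.κ * E5) < 1 := by
    have hc0 : ContinuousAt (fun x : ℝ => (1 - C ^ 2 * x)⁻¹) 0 := by
      refine ContinuousAt.inv₀ (by fun_prop) ?_
      norm_num
    have hc : ContinuousAt (fun x : ℝ => Real.exp (-(P.ε / 2)) * (1 - C ^ 2 * x)⁻¹ + 2 * C ^ 4 * x * E5 +
        2 * C ^ 4 * x ^ (1 - P.κ) * (2 * C ^ 2 * E1 + 4 * C ^ 4 * x ^ P.κ * E5)) 0 := by
      refine ContinuousAt.add (ContinuousAt.add (continuousAt_const.mul hc0) (by fun_prop)) ?_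
      exact Continuous.continuousAt (by fun_prop)
    refine hc.eventually (gt_mem_nhds ?_)
    simp only [Real.zero_rpow hκ.ne', Real.zero_rpow hκ1.ne', mul_zero, zero_mul, sub_zero, inv_one, mul_one, add_zero]
    rw [Real.exp_lt_one_iff]
    linarith
  obtain ⟨δ, hδ, hball⟩ := Metric.eventually_nhds_iff.1 (h1.and (h2.and (h3.and (h4.and h5))))
  refine ⟨min (δ / 2) 1, by positivity, min_le_right _ _, fun x hx0 hx => ?_⟩
  have hxd : dist x 0 < δ := by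
    rw [Real.dist_eq, sub_zero, abs_of_nonneg hx0]
    linarith [hx.trans (min_le_left _ _)]
  obtain ⟨k1, k2, k3, k4, k5⟩ := hball hxd
  exact ⟨k1.le, k2.le, k3.le, k4.le, k5⟩

end Pool.Agent.H14.PP

end

section

/-!
# BPm DomN: comparison of the pieces of two charts, first estimates

Notation: `u' = l s' + b t'`, `w' = c s' + m t'` (the new components of the vector), `TE C s u l b c m`.

`comp_s`: `‖s'‖ ≤ 2 C ‖u'‖ + 2 C^3 ‖s‖ ‖w'‖` if `‖s‖ ≤ 1/(2C^4)`. Proof: `l s' = u' - b t'`, so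
`‖s'‖ ≤ C ‖u'‖ + C^2 ‖s‖ ‖t'‖`; `m t' = w' - c s'`, so `‖t'‖ ≤ C ‖w'‖ + C^2 ‖s'‖`. Insert:
`‖s'‖ ≤ C ‖u'‖ + C^3 ‖s‖‖w'‖ + C^4 ‖s‖ ‖s'‖`, and `C^4 ‖s‖ ≤ 1/2`.
`comp_t`: `‖m‖ ‖t'‖ ≤ ‖w'‖ + C ‖s'‖`.
`comp_u`: `‖l‖ ‖s‖ (1 - C^2 ‖s‖) ≤ ‖u‖ ≤ ‖l‖ ‖s‖ (1 + C^2 ‖s‖)` (from
`|‖u‖ - ‖l‖‖s‖| ≤ C ‖s‖^2` and `C⁻¹ ≤ ‖l‖`).
`comp_J`: `‖l m - b c‖ ≤ ‖l‖ ‖m‖ + C^2 ‖s‖ ≤ 2 C^2` for `‖s‖ ≤ 1`.
-/

open Topology Filter Metric

namespace Pool.Agent.H14.PP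

attribute [-instance] ProperSMul.toContinuousSMul

lemma DomN_exp {P : Par} {C : ℝ} (hP : DomPar C P) {x : ℝ} (hx0 : 0 ≤ x) (hx : x ≤ 1) :
    (1 + P.M * x ^ (2 * P.κ)) ^ P.e ≤ Real.exp (P.ε / 16) := by
  have hM := hP.M_ge
  have h1 : x ^ (2 * P.κ) ≤ 1 := Real.rpow_le_one hx0 hx (by linarith [hP.κ_pos])
  have h0 : 0 ≤ x ^ (2 * P.κ) := Real.rpow_nonneg hx0 _
  have h2 : 1 + P.M * x ^ (2 * P.κ) ≤ 1 + P.M := by nlinarith
  have h3 : (0 : ℝ) ≤ 1 + P.M * x ^ (2 * P.κ) := by positivity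
  calc (1 + P.M * x ^ (2 * P.κ)) ^ P.e ≤ (1 + P.M) ^ P.e :=
        Real.rpow_le_rpow h3 h2 hP.e_pos.le
    _ = Real.exp (P.e * Real.log (1 + P.M)) := by
        rw [Real.rpow_def_of_pos (by linarith), mul_comm]
    _ ≤ Real.exp (P.ε / 16) := Real.exp_le_exp.mpr hP.e_log

lemma DomN_one {P : Par} {C : ℝ} (hP : DomPar C P) {x : ℝ} (hx0 : 0 ≤ x) :
    1 ≤ (1 + P.M * x ^ (2 * P.κ)) ^ P.e := by
  have hM := hP.M_ge
  have h0 : 0 ≤ x ^ (2 * P.κ) := Real.rpow_nonneg hx0 _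
  have h1 : 0 ≤ P.M * x ^ (2 * P.κ) := mul_nonneg (by linarith) h0
  exact Real.one_le_rpow (by linarith) hP.e_pos.le

theorem comp_s {C : ℝ} (hC : 1 ≤ C) {s u l b c m s' t' : ℂ} (hT : TE C s u l b c m)
    (hs : ‖s‖ ≤ 1 / (2 * C ^ 4)) :
    ‖s'‖ ≤ 2 * C * ‖l * s' + b * t'‖ + 2 * C ^ 3 * ‖s‖ * ‖c * s' + m * t'‖ := by
  obtain ⟨hb, hc, -, hl, -, hm, -⟩ := hT
  have hC0 : (0 : ℝ) < C := by linarith
  set U := ‖l * s' + b * t'‖ with hU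
  set V := ‖c * s' + m * t'‖ with hV
  have e1 : ‖l‖ * ‖s'‖ ≤ U + ‖b‖ * ‖t'‖ := by
    rw [← norm_mul, ← norm_mul]
    calc ‖l * s'‖ = ‖(l * s' + b * t') - b * t'‖ := by ring_nf
      _ ≤ _ := norm_sub_le _ _
  have e2 : ‖m‖ * ‖t'‖ ≤ V + ‖c‖ * ‖s'‖ := by
    rw [← norm_mul, ← norm_mul]
    calc ‖m * t'‖ = ‖(c * s' + m * t') - c * s'‖ := by ring_nf
      _ ≤ _ := norm_sub_le _ _
  have hs0 := norm_nonneg s
  have hs'0 := norm_nonneg s'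
  have ht'0 := norm_nonneg t'
  have hU0 : 0 ≤ U := norm_nonneg _
  have hV0 : 0 ≤ V := norm_nonneg _
  have f1 : ‖s'‖ ≤ C * U + C ^ 2 * ‖s‖ * ‖t'‖ := by
    have h1 : C⁻¹ * ‖s'‖ ≤ U + C * ‖s‖ * ‖t'‖ := by
      calc C⁻¹ * ‖s'‖ ≤ ‖l‖ * ‖s'‖ := mul_le_mul_of_nonneg_right hl hs'0
        _ ≤ _ := e1
        _ ≤ _ := by
          have := mul_le_mul_of_nonneg_right hb ht'0
          linarith
    have h2 : C * (C⁻¹ * ‖s'‖) ≤ C * (U + C * ‖s‖ * ‖t'‖) := mul_le_mul_of_nonneg_left h1 hC0.le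
    rw [← mul_assoc, mul_inv_cancel₀ hC0.ne', one_mul] at h2
    calc ‖s'‖ ≤ _ := h2
      _ = _ := by ring
  have f2 : ‖t'‖ ≤ C * V + C ^ 2 * ‖s'‖ := by
    have h1 : C⁻¹ * ‖t'‖ ≤ V + C * ‖s'‖ := by
      calc C⁻¹ * ‖t'‖ ≤ ‖m‖ * ‖t'‖ := mul_le_mul_of_nonneg_right hm ht'0
        _ ≤ _ := e2
        _ ≤ _ := by
          have := mul_le_mul_of_nonneg_right hc hs'0
          linarith
    have h2 : C * (C⁻¹ * ‖t'‖) ≤ C * (V + C * ‖s'‖) := mul_le_mul_of_nonneg_left h1 hC0.le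
    rw [← mul_assoc, mul_inv_cancel₀ hC0.ne', one_mul] at h2
    calc ‖t'‖ ≤ _ := h2
      _ = _ := by ring
  have f3 : C ^ 2 * ‖s‖ * ‖t'‖ ≤ C ^ 2 * ‖s‖ * (C * V + C ^ 2 * ‖s'‖) :=
    mul_le_mul_of_nonneg_left f2 (by positivity)
  have f4 : C ^ 4 * ‖s‖ ≤ 1 / 2 := by
    have h4 : (0 : ℝ) < C ^ 4 := by positivity
    calc C ^ 4 * ‖s‖ ≤ C ^ 4 * (1 / (2 * C ^ 4)) := mul_le_mul_of_nonneg_left hs h4.le
      _ = 1 / 2 := by field_simp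
  have f5 : C ^ 4 * ‖s‖ * ‖s'‖ ≤ 1 / 2 * ‖s'‖ := mul_le_mul_of_nonneg_right f4 hs'0
  nlinarith [f1, f3, f5]

theorem comp_t {C : ℝ} {s u l b c m s' t' : ℂ} (hT : TE C s u l b c m) :
    ‖m‖ * ‖t'‖ ≤ ‖c * s' + m * t'‖ + C * ‖s'‖ := by
  obtain ⟨hb, hc, -, hl, -, hm, -⟩ := hT
  have e2 : ‖m‖ * ‖t'‖ ≤ ‖c * s' + m * t'‖ + ‖c‖ * ‖s'‖ := by
    rw [← norm_mul, ← norm_mul]
    calc ‖m * t'‖ = ‖(c * s' + m * t') - c * s'‖ := by ring_nf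
      _ ≤ _ := norm_sub_le _ _
  have := mul_le_mul_of_nonneg_right hc (norm_nonneg s')
  linarith

theorem comp_u {C : ℝ} (hC : 1 ≤ C) {s u l b c m : ℂ} (hT : TE C s u l b c m) :
    ‖l‖ * ‖s‖ * (1 - C ^ 2 * ‖s‖) ≤ ‖u‖ ∧ ‖u‖ ≤ ‖l‖ * ‖s‖ * (1 + C ^ 2 * ‖s‖) := by
  obtain ⟨-, -, hu, hl, -, -, -⟩ := hT
  have hC0 : (0 : ℝ) < C := by linarith
  have hs0 := norm_nonneg s
  have h1 : C * ‖s‖ ^ 2 ≤ ‖l‖ * ‖s‖ * (C ^ 2 * ‖s‖) := by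
    have h2 : C⁻¹ * (C ^ 2 * ‖s‖ ^ 2) ≤ ‖l‖ * (C ^ 2 * ‖s‖ ^ 2) :=
      mul_le_mul_of_nonneg_right hl (by positivity)
    have h3 : C⁻¹ * (C ^ 2 * ‖s‖ ^ 2) = C * ‖s‖ ^ 2 := by field_simp
    rw [h3] at h2
    calc C * ‖s‖ ^ 2 ≤ _ := h2
      _ = _ := by ring
  obtain ⟨h4, h5⟩ := abs_le.mp hu
  constructor <;> nlinarith

theorem comp_J {C : ℝ} (hC : 1 ≤ C) {s u l b c m : ℂ} (hT : TE C s u l b c m) :
    ‖l * m - b * c‖ ≤ ‖l‖ * ‖m‖ + C ^ 2 * ‖s‖ := by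
  obtain ⟨hb, hc, -, hl, -, hm, -⟩ := hT
  have hC0 : (0 : ℝ) < C := by linarith
  have h1 : ‖b‖ * ‖c‖ ≤ C * ‖s‖ * C :=
    mul_le_mul hb hc (norm_nonneg _) (by positivity)
  calc ‖l * m - b * c‖ ≤ ‖l * m‖ + ‖b * c‖ := norm_sub_le _ _
    _ = ‖l‖ * ‖m‖ + ‖b‖ * ‖c‖ := by rw [norm_mul, norm_mul]
    _ ≤ _ := by nlinarith

end Pool.Agent.H14.PP

end

section

/-!
# A vanishing theorem of Ahlfors–Schwarz type

`r i` are entire functions (without identically vanishing ones), `U = ∑ |r i|`, and `V` is the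
variance of the logarithmic derivatives `r i' / r i` with weights `|r i| / U`.  If an entire
function `g` satisfies `|g|^2 U^a ≤ C ∏ |r i| V^ρ` with `a > 0`, and `V` is locally bounded, then
`g = 0`.
-/

open Topology Filter Complex

namespace Pool.Agent.H17

attribute [-instance] ProperSMul.toContinuousSMul

/-- A holomorphic logarithm near a point where the function does not vanish. -/
lemma exists_local_log {f : ℂ → ℂ} {z₀ : ℂ} (hf : AnalyticAt ℂ f z₀) (h0 : f z₀ ≠ 0) :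
    ∃ L : ℂ → ℂ, AnalyticAt ℂ L z₀ ∧ (∀ᶠ z in 𝓝 z₀, f z = Complex.exp (L z)) ∧
      deriv L z₀ = deriv f z₀ / f z₀ := by
  have h1 : AnalyticAt ℂ (fun z => Complex.log (f z / f z₀) + Complex.log (f z₀)) z₀ := by
    refine AnalyticAt.add (AnalyticAt.clog ?_ ?_) analyticAt_const
    · exact hf.div analyticAt_const h0
    · rw [div_self h0]
      exact Complex.one_mem_slitPlane
  have h2 : ∀ᶠ z in 𝓝 z₀, f z = Complex.exp (Complex.log (f z / f z₀) + Complex.log (f z₀)) := by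
    filter_upwards [hf.continuousAt.eventually_ne h0] with z hz
    rw [Complex.exp_add, Complex.exp_log (div_ne_zero hz h0), Complex.exp_log h0,
      div_mul_cancel₀ _ h0]
  refine ⟨_, h1, h2, ?_⟩
  have h3 : deriv f z₀ = deriv (fun z => Complex.exp
      (Complex.log (f z / f z₀) + Complex.log (f z₀))) z₀ :=
    Filter.EventuallyEq.deriv_eq h2
  have h4 := (h1.differentiableAt.hasDerivAt.cexp).deriv
  rw [h4] at h3
  have h5 : Complex.exp (Complex.log (f z₀ / f z₀) + Complex.log (f z₀)) = f z₀ :=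
    h2.self_of_nhds.symm
  rw [h5] at h3
  rw [h3]
  field_simp

section

variable {ι : Type} [Fintype ι]

/-- Zeros of a nonzero entire function are isolated. -/
lemma eventually_ne_zero_of_entire {f : ℂ → ℂ} (hf : Differentiable ℂ f) (h0 : ∃ z, f z ≠ 0)
    (s : ℂ) : ∀ᶠ z in 𝓝[≠] s, f z ≠ 0 := by
  rcases (hf.analyticAt s).eventually_eq_zero_or_eventually_ne_zero with h | h
  · exfalso
    obtain ⟨z, hz⟩ := h0
    have hana : AnalyticOnNhd ℂ f Set.univ := fun z _ => hf.analyticAt z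
    exact hz (hana.eqOn_zero_of_preconnected_of_eventuallyEq_zero isPreconnected_univ
      (Set.mem_univ s) h (Set.mem_univ z))
  · exact h

lemma le_of_forall_pow_mul_le {x y P Q : ℝ} (hP : 0 < P) (hy : 0 ≤ y)
    (h : ∀ k : ℕ, 0 < k → x ^ k * P ≤ y ^ k * Q) : x ≤ y := by
  by_contra hxy
  push Not at hxy
  have hx : 0 < x := hy.trans_lt hxy
  have h1 : Tendsto (fun k : ℕ => (y / x) ^ k * Q) atTop (𝓝 (0 * Q)) := by
    apply Tendsto.mul_const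
    exact tendsto_pow_atTop_nhds_zero_of_lt_one (by positivity) ((div_lt_one hx).mpr hxy)
  have h2 : ∀ᶠ k : ℕ in atTop, P ≤ (y / x) ^ k * Q := by
    filter_upwards [eventually_gt_atTop 0] with k hk
    have h3 := h k hk
    rw [div_pow, div_mul_eq_mul_div, le_div_iff₀ (by positivity), mul_comm P]
    exact h3
  have h3 := ge_of_tendsto h1 h2
  rw [zero_mul] at h3
  linarith

end

end Pool.Agent.H17

end

section

/-!
# The ring of entire functions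
-/

open Polynomial Topology Filter

namespace Pool.Agent.H17

attribute [-instance] ProperSMul.toContinuousSMul

namespace EntFun

lemma diff (f : EntFun) : Differentiable ℂ (f : ℂ → ℂ) := f.2

lemma ne_zero_iff (f : EntFun) : f ≠ 0 ↔ ∃ z, (f : ℂ → ℂ) z ≠ 0 := by
  constructor
  · intro h
    by_contra h1
    push Not at h1
    exact h (ext' fun z => by simpa using h1 z)
  · rintro ⟨z, hz⟩ rfl
    exact hz rfl

instance : Nontrivial EntFun := ⟨⟨0, 1, fun h => by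
  have := congrArg (fun f : EntFun => (f : ℂ → ℂ) 0) h
  simp at this⟩⟩

instance : NoZeroDivisors EntFun := ⟨by
  intro f g hfg
  by_contra h
  push Not at h
  have h1 := eventually_ne_zero_of_entire f.2 ((ne_zero_iff f).mp h.1) 0
  have h2 := eventually_ne_zero_of_entire g.2 ((ne_zero_iff g).mp h.2) 0
  obtain ⟨z, hz1, hz2⟩ := (h1.and h2).exists
  have h3 : (f * g : EntFun).1 z = 0 := by rw [hfg]; rfl
  have h4 : (f : ℂ → ℂ) z * (g : ℂ → ℂ) z = 0 := h3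
  rcases mul_eq_zero.mp h4 with h | h
  · exact hz1 h
  · exact hz2 h⟩

instance : IsDomain EntFun := NoZeroDivisors.to_isDomain _

@[simp] lemma ev_algebraMap (z c : ℂ) : ev z (algebraMap ℂ EntFun c) = c := rfl

open Differential

lemma coord_ne_zero (s : ℂ) : coord s ≠ 0 := (ne_zero_iff _).mpr ⟨s + 1, by simp⟩

/-- Division by the coordinate function. -/
lemma exists_coord_mul {f : EntFun} {s : ℂ} (h : (f : ℂ → ℂ) s = 0) : ∃ g, f = coord s * g := by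
  refine ⟨⟨dslope (f : ℂ → ℂ) s, ?_⟩, ?_⟩
  · intro z
    have h1 : DifferentiableOn ℂ (dslope (f : ℂ → ℂ) s) Set.univ :=
      (Complex.differentiableOn_dslope Filter.univ_mem).mpr f.diff.differentiableOn
    exact (h1 z (Set.mem_univ z)).differentiableAt Filter.univ_mem
  · ext z
    have h2 := sub_smul_dslope (f : ℂ → ℂ) s z
    rw [h, sub_zero, smul_eq_mul] at h2
    exact h2.symm

/-- The order of a nonzero entire function is finite. -/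
lemma order_ne_top {f : EntFun} (hf : f ≠ 0) (s : ℂ) : analyticOrderAt (f : ℂ → ℂ) s ≠ ⊤ := by
  intro h
  rw [analyticOrderAt_eq_top] at h
  have h1 := eventually_ne_zero_of_entire f.2 ((ne_zero_iff f).mp hf) s
  obtain ⟨z, hz1, hz2⟩ := ((h.filter_mono nhdsWithin_le_nhds).and h1).exists
  exact hz2 hz1

end EntFun

open EntFun

end Pool.Agent.H17

end
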