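import Pool.Agent.H94.CB.M07
import Pool.Agent.H94.CB.M10

/-! The parts of this file: H17.Weierstrass, H17.GlobalLift, H62.BU.Alg, H62.BU.Ch. -/

section

/-!
# Weierstrass' theorem: entire functions with prescribed zeros
-/

open Topology Filter

namespace Pool.Agent.H17

attribute [-instance] ProperSMul.toContinuousSMul

open EntFun

/-- The Taylor polynomial of the logarithm, as an entire function. -/
lemma differentiable_logTaylor (n : ℕ) : Differentiable ℂ (Complex.logTaylor n) := by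
  have h : Complex.logTaylor n =
      fun z : ℂ => ∑ j ∈ Finset.range n, (-1 : ℂ) ^ (j + 1) * z ^ j / (j : ℂ) := rfl
  rw [h]
  fun_prop

/-- `1 - z / s`. -/
noncomputable def linFac (s : ℂ) : EntFun := ⟨fun z => 1 - z / s, by
  change Differentiable ℂ fun z : ℂ => 1 - z / s
  fun_prop⟩

/-- The exponential factor. -/
noncomputable def expFac (m : ℕ) (s : ℂ) : EntFun :=
  ⟨fun z => Complex.exp (-Complex.logTaylor (m + 1) (-(z / s))), by
    change Differentiable ℂ fun z : ℂ => Complex.exp (-Complex.logTaylor (m + 1) (-(z / s)))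
    have h := differentiable_logTaylor (m + 1)
    fun_prop⟩

lemma linFac_apply (s z : ℂ) : ((linFac s : EntFun) : ℂ → ℂ) z = 1 - z / s := rfl

lemma expFac_apply (m : ℕ) (s z : ℂ) : ((expFac m s : EntFun) : ℂ → ℂ) z =
    Complex.exp (-Complex.logTaylor (m + 1) (-(z / s))) := rfl

lemma order_coord_of_ne {s z : ℂ} (h : s ≠ z) :
    analyticOrderAt ((coord s : EntFun) : ℂ → ℂ) z = 0 := by
  rw [order_eq_zero_iff, coord_apply]
  exact sub_ne_zero.mpr h.symm

lemma linFac_eq {s : ℂ} (hs : s ≠ 0) : linFac s = algebraMap ℂ EntFun (-s⁻¹) * coord s := by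
  ext z
  have h1 : ((algebraMap ℂ EntFun (-s⁻¹) * coord s : EntFun) : ℂ → ℂ) z = -s⁻¹ * (z - s) := rfl
  rw [h1, linFac_apply]
  field_simp
  ring

lemma order_algebraMap {c : ℂ} (hc : c ≠ 0) (z : ℂ) :
    analyticOrderAt ((algebraMap ℂ EntFun c : EntFun) : ℂ → ℂ) z = 0 := by
  rw [order_eq_zero_iff, coe_algebraMap]
  exact hc

lemma order_linFac {s : ℂ} (hs : s ≠ 0) (z : ℂ) :
    analyticOrderAt ((linFac s : EntFun) : ℂ → ℂ) z = if s = z then 1 else 0 := by
  rw [linFac_eq hs, order_mul, order_algebraMap (by simpa using hs), zero_add]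
  split_ifs with h
  · rw [h, order_coord]
  · exact order_coord_of_ne h

lemma order_expFac (m : ℕ) (s z : ℂ) :
    analyticOrderAt ((expFac m s : EntFun) : ℂ → ℂ) z = 0 := by
  rw [order_eq_zero_iff, expFac_apply]
  exact Complex.exp_ne_zero _

/-- The elementary estimate. -/
lemma norm_log_sub_logTaylor_le_half {u : ℂ} (hu : ‖u‖ ≤ 1 / 2) (m : ℕ) :
    ‖Complex.log (1 + u) - Complex.logTaylor (m + 1) u‖ ≤ (1 / 2) ^ m := by
  refine (Complex.norm_log_sub_logTaylor_le m (by linarith)).trans ?_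
  have h0 := norm_nonneg u
  have h1 : ‖u‖ ^ (m + 1) ≤ (1 / 2) ^ (m + 1) := by gcongr
  have h2 : (1 - ‖u‖)⁻¹ ≤ 2 := by
    rw [inv_le_comm₀ (by linarith) (by norm_num)]
    linarith
  have h3 : 0 ≤ (1 - ‖u‖)⁻¹ := by
    rw [inv_nonneg]
    linarith
  calc ‖u‖ ^ (m + 1) * (1 - ‖u‖)⁻¹ / (m + 1) ≤ (1 / 2) ^ (m + 1) * 2 / 1 := by
        gcongr
        · have : (0 : ℝ) ≤ m := by positivity
          linarith
    _ = (1 / 2) ^ m := by rw [pow_succ]; ring

section

variable (D : ℂ → ℕ) (hD : ∀ R : ℝ, {z ∈ Metric.closedBall (0 : ℂ) R | D z ≠ 0}.Finite)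

open scoped Classical in
/-- The zeros with `k ≤ |s| < k + 1`. -/
noncomputable def shell (k : ℕ) : Finset ℂ :=
  (hD (k + 1)).toFinset.filter fun s => (k : ℝ) ≤ ‖s‖ ∧ ‖s‖ < k + 1

lemma mem_shell {k : ℕ} {s : ℂ} :
    s ∈ shell D hD k ↔ D s ≠ 0 ∧ (k : ℝ) ≤ ‖s‖ ∧ ‖s‖ < k + 1 := by
  unfold shell
  rw [Finset.mem_filter, Set.Finite.mem_toFinset]
  constructor
  · rintro ⟨h1, h2⟩
    exact ⟨h1.2, h2⟩
  · rintro ⟨h1, h2⟩
    exact ⟨⟨by rw [mem_closedBall_zero_iff]; exact h2.2.le, h1⟩, h2⟩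

/-- The number of zeros in a shell. -/
noncomputable def shellCard (k : ℕ) : ℕ := ∑ s ∈ shell D hD k, D s

/-- The partial product over a shell. -/
noncomputable def shellProd (k : ℕ) : EntFun :=
  if k = 0 then ∏ s ∈ shell D hD k, coord s ^ D s
  else ∏ s ∈ shell D hD k, (linFac s * expFac (k + shellCard D hD k) s) ^ D s

/-- The logarithm of the partial product over a shell. -/
noncomputable def shellLog (k : ℕ) (z : ℂ) : ℂ :=
  ∑ s ∈ shell D hD k, (D s : ℂ) * (Complex.log (1 + -(z / s)) -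
    Complex.logTaylor (k + shellCard D hD k + 1) (-(z / s)))

lemma shell_ne_zero {k : ℕ} (hk : k ≠ 0) {s : ℂ} (hs : s ∈ shell D hD k) : s ≠ 0 := by
  rintro rfl
  have h := ((mem_shell D hD).mp hs).2.1
  rw [norm_zero] at h
  have : (k : ℝ) ≤ 0 := h
  exact hk (by exact_mod_cast le_antisymm (by exact_mod_cast this) (Nat.zero_le k))

lemma norm_div_le_half {k : ℕ} (hk : k ≠ 0) {s : ℂ} (hs : s ∈ shell D hD k) {z : ℂ}
    (hz : ‖z‖ < k / 2) : ‖-(z / s)‖ ≤ 1 / 2 := by
  have h := ((mem_shell D hD).mp hs).2.1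
  have hkpos : (0 : ℝ) < k := by positivity
  rw [norm_neg, norm_div, div_le_iff₀ (hkpos.trans_le h)]
  linarith

lemma exp_shellLog {k : ℕ} (hk : k ≠ 0) {z : ℂ} (hz : ‖z‖ < k / 2) :
    Complex.exp (shellLog D hD k z) = ((shellProd D hD k : EntFun) : ℂ → ℂ) z := by
  unfold shellLog shellProd
  rw [if_neg hk, Complex.exp_sum]
  have h1 : ((∏ s ∈ shell D hD k, (linFac s * expFac (k + shellCard D hD k) s) ^ D s : EntFun) :
      ℂ → ℂ) z = ev z (∏ s ∈ shell D hD k, (linFac s * expFac (k + shellCard D hD k) s) ^ D s) := rfl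
  rw [h1, map_prod]
  refine Finset.prod_congr rfl fun s hs => ?_
  rw [map_pow, map_mul, ev_apply, ev_apply, linFac_apply, expFac_apply, Complex.exp_nat_mul,
    Complex.exp_sub, Complex.exp_log, Complex.exp_neg]
  · rfl
  · have h2 := norm_div_le_half D hD hk hs hz
    intro h3
    have h4 : -(z / s) = -1 := by linear_combination h3
    rw [h4] at h2
    norm_num at h2

lemma norm_shellLog_le {k : ℕ} (hk : k ≠ 0) {z : ℂ} (hz : ‖z‖ < k / 2) :
    ‖shellLog D hD k z‖ ≤ (1 / 2) ^ k := by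
  unfold shellLog
  refine (norm_sum_le _ _).trans ?_
  have h1 : ∀ s ∈ shell D hD k, ‖(D s : ℂ) * (Complex.log (1 + -(z / s)) -
      Complex.logTaylor (k + shellCard D hD k + 1) (-(z / s)))‖ ≤
      D s * (1 / 2) ^ (k + shellCard D hD k) := by
    intro s hs
    rw [norm_mul, Complex.norm_natCast]
    gcongr
    exact norm_log_sub_logTaylor_le_half (norm_div_le_half D hD hk hs hz) _
  refine (Finset.sum_le_sum h1).trans ?_
  rw [← Finset.sum_mul]
  have h2 : (∑ s ∈ shell D hD k, (D s : ℝ)) = (shellCard D hD k : ℝ) := by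
    unfold shellCard
    push_cast
    rfl
  rw [h2, pow_add]
  have h3 : (shellCard D hD k : ℝ) ≤ 2 ^ shellCard D hD k := by
    exact_mod_cast Nat.lt_two_pow_self.le
  have h4 : (shellCard D hD k : ℝ) * (1 / 2) ^ shellCard D hD k ≤ 1 := by
    rw [one_div, inv_pow, ← div_eq_mul_inv, div_le_one (by positivity)]
    exact h3
  calc (shellCard D hD k : ℝ) * ((1 / 2) ^ k * (1 / 2) ^ shellCard D hD k)
      = ((shellCard D hD k : ℝ) * (1 / 2) ^ shellCard D hD k) * (1 / 2) ^ k := by ring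
    _ ≤ 1 * (1 / 2) ^ k := by gcongr
    _ = _ := one_mul _

lemma differentiableOn_shellLog {k : ℕ} (hk : k ≠ 0) :
    DifferentiableOn ℂ (shellLog D hD k) (Metric.ball 0 (k / 2)) := by
  intro z hz
  rw [mem_ball_zero_iff] at hz
  apply DifferentiableAt.differentiableWithinAt
  unfold shellLog
  refine DifferentiableAt.fun_sum fun s hs => ?_
  refine DifferentiableAt.const_mul ?_ _
  have h1 : DifferentiableAt ℂ (fun z : ℂ => 1 + -(z / s)) z := by fun_prop
  have h2 : DifferentiableAt ℂ (fun z : ℂ => -(z / s)) z := by fun_prop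
  refine DifferentiableAt.sub ?_ ?_
  · refine h1.clog ?_
    apply Complex.mem_slitPlane_of_norm_lt_one
    have := norm_div_le_half D hD hk hs hz
    linarith
  · exact (differentiable_logTaylor _ _).comp z h2

/-- The partial products. -/
noncomputable def partProd (K : ℕ) : EntFun := ∏ k ∈ Finset.range K, shellProd D hD k

/-- The remainder. -/
noncomputable def remLog (K : ℕ) (z : ℂ) : ℂ := ∑' k, shellLog D hD (K + k) z

lemma remLog_bound {K : ℕ} (hK : K ≠ 0) (k : ℕ) {z : ℂ} (hz : z ∈ Metric.ball (0 : ℂ) (K / 2)) :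
    ‖shellLog D hD (K + k) z‖ ≤ (1 / 2) ^ k := by
  rw [mem_ball_zero_iff] at hz
  refine (norm_shellLog_le D hD (by omega) (hz.trans_le ?_)).trans ?_
  · push_cast
    have : (0 : ℝ) ≤ k := by positivity
    linarith
  · exact pow_le_pow_of_le_one (by norm_num) (by norm_num) (by omega)

lemma summable_half : Summable fun k : ℕ => (1 / 2 : ℝ) ^ k :=
  summable_geometric_of_lt_one (by norm_num) (by norm_num)

lemma differentiableOn_remLog {K : ℕ} (hK : K ≠ 0) :
    DifferentiableOn ℂ (remLog D hD K) (Metric.ball 0 (K / 2)) := by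
  refine Complex.differentiableOn_tsum_of_summable_norm summable_half (fun k => ?_)
    Metric.isOpen_ball (fun k z hz => remLog_bound D hD hK k hz)
  refine (differentiableOn_shellLog D hD (k := K + k) (by omega)).mono ?_
  apply Metric.ball_subset_ball
  push_cast
  have : (0 : ℝ) ≤ k := by positivity
  linarith

lemma tendsto_partProd {K : ℕ} (hK : K ≠ 0) {z : ℂ} (hz : z ∈ Metric.ball (0 : ℂ) (K / 2)) :
    Tendsto (fun m => ((partProd D hD m : EntFun) : ℂ → ℂ) z) atTop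
      (𝓝 (((partProd D hD K : EntFun) : ℂ → ℂ) z * Complex.exp (remLog D hD K z))) := by
  have hsum : Summable fun k => shellLog D hD (K + k) z :=
    Summable.of_norm_bounded summable_half fun k => remLog_bound D hD hK k hz
  have h1 := hsum.hasSum.tendsto_sum_nat
  have h2 : Tendsto (fun m => ((partProd D hD K : EntFun) : ℂ → ℂ) z *
      Complex.exp (∑ k ∈ Finset.range m, shellLog D hD (K + k) z)) atTop
      (𝓝 (((partProd D hD K : EntFun) : ℂ → ℂ) z * Complex.exp (remLog D hD K z))) :=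
    (h1.cexp).const_mul _
  have h3 : ∀ m, ((partProd D hD (m + K) : EntFun) : ℂ → ℂ) z =
      ((partProd D hD K : EntFun) : ℂ → ℂ) z *
      Complex.exp (∑ k ∈ Finset.range m, shellLog D hD (K + k) z) := by
    intro m
    rw [mem_ball_zero_iff] at hz
    have h4 : partProd D hD (m + K) = partProd D hD K *
        ∏ k ∈ Finset.range m, shellProd D hD (K + k) := by
      unfold partProd
      rw [add_comm m K, Finset.prod_range_add]
    rw [h4, Complex.exp_sum]
    have h5 : ((partProd D hD K * ∏ k ∈ Finset.range m, shellProd D hD (K + k) : EntFun) :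
        ℂ → ℂ) z = ((partProd D hD K : EntFun) : ℂ → ℂ) z *
        ev z (∏ k ∈ Finset.range m, shellProd D hD (K + k)) := rfl
    rw [h5, map_prod]
    congr 1
    refine Finset.prod_congr rfl fun k _ => ?_
    rw [exp_shellLog D hD (by omega)]
    · rfl
    · refine hz.trans_le ?_
      push_cast
      have : (0 : ℝ) ≤ k := by positivity
      linarith
  rw [← tendsto_add_atTop_iff_nat K]
  exact h2.congr fun m => (h3 m).symm

include hD in
/-- **Weierstrass' theorem.** -/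
theorem exists_entire_with_orders : ∃ w : EntFun, ∀ z, analyticOrderAt (w : ℂ → ℂ) z = D z := by
  classical
  set Kz : ℂ → ℕ := fun z => ⌈2 * ‖z‖⌉₊ + 1 with hKz
  have hKz0 : ∀ z, Kz z ≠ 0 := fun z => by simp [hKz]
  have hKzball : ∀ z, z ∈ Metric.ball (0 : ℂ) (Kz z / 2) := by
    intro z
    rw [mem_ball_zero_iff, hKz]
    push_cast
    have := Nat.le_ceil (2 * ‖z‖)
    linarith
  set w : ℂ → ℂ := fun z => ((partProd D hD (Kz z) : EntFun) : ℂ → ℂ) z *
    Complex.exp (remLog D hD (Kz z) z) with hw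
  have hweq : ∀ (K : ℕ), K ≠ 0 → ∀ z ∈ Metric.ball (0 : ℂ) (K / 2),
      w z = ((partProd D hD K : EntFun) : ℂ → ℂ) z * Complex.exp (remLog D hD K z) := by
    intro K hK z hz
    exact tendsto_nhds_unique (tendsto_partProd D hD (hKz0 z) (hKzball z))
      (tendsto_partProd D hD hK hz)
  have hlocal : ∀ z, w =ᶠ[𝓝 z] fun y => ((partProd D hD (Kz z) : EntFun) : ℂ → ℂ) y *
      Complex.exp (remLog D hD (Kz z) y) := by
    intro z
    filter_upwards [Metric.isOpen_ball.mem_nhds (hKzball z)] with y hy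
    exact hweq (Kz z) (hKz0 z) y hy
  have hremAn : ∀ z, AnalyticAt ℂ (remLog D hD (Kz z)) z := fun z =>
    (differentiableOn_remLog D hD (hKz0 z)).analyticAt
      (Metric.isOpen_ball.mem_nhds (hKzball z))
  have hexpAn : ∀ z, AnalyticAt ℂ (fun y => Complex.exp (remLog D hD (Kz z) y)) z := fun z =>
    (hremAn z).cexp
  have hwdiff : Differentiable ℂ w := by
    intro z
    have h1 := (((partProd D hD (Kz z)).analyticAt z).mul (hexpAn z)).differentiableAt
    exact (hlocal z).differentiableAt_iff.mpr h1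
  refine ⟨⟨w, hwdiff⟩, fun z => ?_⟩
  change analyticOrderAt w z = D z
  rw [analyticOrderAt_congr (hlocal z)]
  have h1 : analyticOrderAt (fun y => ((partProd D hD (Kz z) : EntFun) : ℂ → ℂ) y *
      Complex.exp (remLog D hD (Kz z) y)) z =
      analyticOrderAt ((partProd D hD (Kz z) : EntFun) : ℂ → ℂ) z +
        analyticOrderAt (fun y => Complex.exp (remLog D hD (Kz z) y)) z :=
    analyticOrderAt_mul ((partProd D hD (Kz z)).analyticAt z) (hexpAn z)
  have h2 : analyticOrderAt (fun y => Complex.exp (remLog D hD (Kz z) y)) z = 0 := by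
    rw [(hexpAn z).analyticOrderAt_eq_zero]
    exact Complex.exp_ne_zero _
  rw [h1, h2, add_zero]
  have h3 : ∀ k, analyticOrderAt ((shellProd D hD k : EntFun) : ℂ → ℂ) z =
      if z ∈ shell D hD k then (D z : ℕ∞) else 0 := by
    intro k
    unfold shellProd
    split_ifs with hk hz hz
    · rw [order_prod, Finset.sum_eq_single z]
      · rw [order_pow, order_coord, mul_one]
      · intro s _ hs
        rw [order_pow, order_coord_of_ne hs, mul_zero]
      · intro h
        exact absurd hz h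
    · rw [order_prod, Finset.sum_eq_zero]
      intro s hs
      rw [order_pow, order_coord_of_ne, mul_zero]
      rintro rfl
      exact hz hs
    · rw [order_prod, Finset.sum_eq_single z]
      · rw [order_pow, order_mul, order_expFac, order_linFac (shell_ne_zero D hD hk hz),
          if_pos rfl, add_zero, mul_one]
      · intro s hs' hs
        rw [order_pow, order_mul, order_expFac, order_linFac (shell_ne_zero D hD hk hs'),
          if_neg hs, add_zero, mul_zero]
      · intro h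
        exact absurd hz h
    · rw [order_prod, Finset.sum_eq_zero]
      intro s hs
      rw [order_pow, order_mul, order_expFac, order_linFac (shell_ne_zero D hD hk hs),
        if_neg, add_zero, mul_zero]
      rintro rfl
      exact hz hs
  unfold partProd
  rw [order_prod, Finset.sum_congr rfl fun k _ => h3 k]
  by_cases hDz : D z = 0
  · rw [hDz, Finset.sum_eq_zero]
    · rfl
    · intro k _
      rw [if_neg]
      intro h
      exact ((mem_shell D hD).mp h).1 hDz
  · rw [Finset.sum_eq_single ⌊‖z‖⌋₊]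
    · rw [if_pos]
      exact (mem_shell D hD).mpr ⟨hDz, Nat.floor_le (norm_nonneg z), Nat.lt_floor_add_one _⟩
    · intro k _ hk
      rw [if_neg]
      intro h
      obtain ⟨-, h1, h2⟩ := (mem_shell D hD).mp h
      apply hk
      exact ((Nat.floor_eq_iff (norm_nonneg z)).mpr ⟨h1, h2⟩).symm
    · intro h
      exfalso
      apply h
      rw [Finset.mem_range]
      have h5 : ⌊‖z‖⌋₊ ≤ ⌈2 * ‖z‖⌉₊ := by
        refine (Nat.floor_le_ceil _).trans (Nat.ceil_mono ?_)
        have := norm_nonneg z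
        linarith
      simp only [hKz]
      omega

end

end Pool.Agent.H17

end

section

/-!
# Global lifts of entire curves in projective space
-/

open Topology Filter

namespace Pool.Agent.H17

attribute [-instance] ProperSMul.toContinuousSMul

open EntFun

/-- Two vectors representing the same point are proportional. -/
lemma mk_eq_mk_cross {N : ℕ} {v w : Fin (N + 1) → ℂ} {hv : v ≠ 0} {hw : w ≠ 0}
    (h : Projectivization.mk ℂ v hv = Projectivization.mk ℂ w hw) :
    ∃ c : ℂ, c ≠ 0 ∧ ∀ j, v j = c * w j := by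
  obtain ⟨a, ha⟩ := (Projectivization.mk_eq_mk_iff ℂ v w hv hw).mp h
  refine ⟨(a : ℂ), a.ne_zero, fun j => ?_⟩
  rw [← ha]
  rfl

/-- If `f` is analytic and `g` is analytic of the same finite order, then `f / g` is analytic and
does not vanish. -/
lemma exists_unit_quotient {f g : ℂ → ℂ} {z₀ : ℂ} (hf : AnalyticAt ℂ f z₀) (hg : AnalyticAt ℂ g z₀)
    {n : ℕ} (hfn : analyticOrderAt f z₀ = n) (hgn : analyticOrderAt g z₀ = n) :
    ∃ q : ℂ → ℂ, AnalyticAt ℂ q z₀ ∧ q z₀ ≠ 0 ∧ ∀ᶠ z in 𝓝 z₀, f z = q z * g z := by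
  obtain ⟨u, hu, hu0, hfu⟩ := hf.analyticOrderAt_eq_natCast.mp hfn
  obtain ⟨v, hv, hv0, hgv⟩ := hg.analyticOrderAt_eq_natCast.mp hgn
  refine ⟨fun z => u z / v z, hu.div hv hv0, div_ne_zero hu0 hv0, ?_⟩
  filter_upwards [hfu, hgv, hv.continuousAt.eventually_ne hv0] with z h1 h2 h3
  rw [h1, h2, smul_eq_mul, smul_eq_mul]
  field_simp

/-- **Global lifts.** Every holomorphic map `ℂ → ℙ^N` is given by entire functions without common
zeros. -/
theorem exists_global_lift {N : ℕ} {f : ℂ → PN N} (hf : HolomorphicInto f Set.univ) :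
    ∃ x : Fin (N + 1) → EntFun, ∀ z, ∃ h : (fun j => (x j : ℂ → ℂ) z) ≠ 0,
      f z = Projectivization.mk ℂ _ h := by
  classical
  choose φ hφa hφe using fun z₀ => hf z₀ (Set.mem_univ _)
  have hφj : ∀ z₀ j, AnalyticAt ℂ (fun z => φ z₀ z j) z₀ := fun z₀ j =>
    (analyticAt_pi_iff.mp (hφa z₀)) j
  -- comparison of lifts
  have hcmp : ∀ z₀, ∀ᶠ z in 𝓝 z₀, ∃ c : ℂ, c ≠ 0 ∧ ∀ j, φ z₀ z j = c * φ z z j := by
    intro z₀
    filter_upwards [hφe z₀] with z hz
    obtain ⟨h1, h2⟩ := hz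
    obtain ⟨h3, h4⟩ := (hφe z).self_of_nhds
    exact mk_eq_mk_cross (h2.symm.trans h4)
  have hφ0 : ∀ z₀, φ z₀ z₀ ≠ 0 := fun z₀ => (hφe z₀).self_of_nhds.1
  obtain ⟨j₀, hj₀⟩ : ∃ j₀, φ 0 0 j₀ ≠ 0 := by
    by_contra h
    push Not at h
    exact hφ0 0 (funext h)
  -- the coordinate `j₀` does not vanish identically near any point
  set A : Set ℂ := {z₀ | ∀ᶠ z in 𝓝 z₀, φ z₀ z j₀ = 0} with hA
  have hAopen : IsOpen A := by
    rw [isOpen_iff_mem_nhds]
    intro z₀ hz₀
    have h1 : ∀ᶠ z in 𝓝 z₀, φ z z j₀ = 0 := by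
      filter_upwards [hz₀, hcmp z₀] with z h1 h2
      obtain ⟨c, hc, h3⟩ := h2
      have := h3 j₀
      rw [h1] at this
      exact (mul_eq_zero.mp this.symm).resolve_left hc
    filter_upwards [h1.eventually_nhds] with z₁ h2
    filter_upwards [h2, hcmp z₁] with z h3 h4
    obtain ⟨c, hc, h5⟩ := h4
    rw [h5, h3, mul_zero]
  have hAclosed : IsClosed A := by
    rw [← isOpen_compl_iff, isOpen_iff_mem_nhds]
    intro z₀ hz₀
    have h1 : ∀ᶠ z in 𝓝[≠] z₀, φ z₀ z j₀ ≠ 0 := by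
      rcases (hφj z₀ j₀).eventually_eq_zero_or_eventually_ne_zero with h | h
      · exact absurd h hz₀
      · exact h
    have h2 : ∀ᶠ z in 𝓝 z₀, z ≠ z₀ → z ∈ Aᶜ := by
      have h3 := eventually_nhdsWithin_iff.mp h1
      filter_upwards [h3, hcmp z₀] with z h4 h5 hne
      obtain ⟨c, hc, h6⟩ := h5
      intro h7
      have h7' : ∀ᶠ y in 𝓝 z, φ z y j₀ = 0 := h7
      have h8 : φ z z j₀ = 0 := h7'.self_of_nhds
      apply h4 hne
      rw [h6, h8, mul_zero]
    filter_upwards [h2] with z h3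
    by_cases hz : z = z₀
    · rw [hz]; exact hz₀
    · exact h3 hz
  have hAempty : A = ∅ := by
    rcases isClopen_iff.mp ⟨hAclosed, hAopen⟩ with h | h
    · exact h
    · exfalso
      have h0 : (0 : ℂ) ∈ A := by rw [h]; trivial
      have h0' : ∀ᶠ y in 𝓝 (0 : ℂ), φ 0 y j₀ = 0 := h0
      exact hj₀ h0'.self_of_nhds
  have hne : ∀ z₀, ∀ᶠ z in 𝓝[≠] z₀, φ z₀ z j₀ ≠ 0 := by
    intro z₀
    rcases (hφj z₀ j₀).eventually_eq_zero_or_eventually_ne_zero with h | h
    · have : z₀ ∈ A := h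
      rw [hAempty] at this
      exact absurd this (Set.notMem_empty _)
    · exact h
  have hfin : ∀ z₀, analyticOrderAt (fun z => φ z₀ z j₀) z₀ ≠ ⊤ := by
    intro z₀ h
    rw [analyticOrderAt_eq_top] at h
    have : z₀ ∈ A := h
    rw [hAempty] at this
    exact absurd this (Set.notMem_empty _)
  set D : ℂ → ℕ := fun z => analyticOrderNatAt (fun y => φ z y j₀) z with hD
  have hDord : ∀ z, analyticOrderAt (fun y => φ z y j₀) z = D z := fun z =>
    (Nat.cast_analyticOrderNatAt (hfin z)).symm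
  have hDfin : ∀ R : ℝ, {z ∈ Metric.closedBall (0 : ℂ) R | D z ≠ 0}.Finite := by
    intro R
    by_contra hinf
    obtain ⟨y, -, hy⟩ := Set.Infinite.exists_accPt_of_subset_isCompact hinf
      (isCompact_closedBall (0 : ℂ) R) (fun z hz => hz.1)
    rw [accPt_iff_frequently_nhdsNE] at hy
    obtain ⟨z, hz1, hz2, hz3⟩ := (hy.and_eventually ((hne y).and
      ((hcmp y).filter_mono nhdsWithin_le_nhds))).exists
    obtain ⟨c, hc, h4⟩ := hz3
    apply hz1.2
    have h5 : φ z z j₀ ≠ 0 := by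
      intro h
      apply hz2
      rw [h4, h, mul_zero]
    have h6 := hDord z
    rw [(hφj z j₀).analyticOrderAt_eq_zero.mpr h5] at h6
    exact_mod_cast h6.symm
  obtain ⟨w, hw⟩ := exists_entire_with_orders D hDfin
  choose q hqa hq0 hqe using fun z₀ => exists_unit_quotient (w.analyticAt z₀) (hφj z₀ j₀) (hw z₀)
    (hDord z₀)
  set X : Fin (N + 1) → ℂ → ℂ := fun j z => q z z * φ z z j with hX
  have hXloc : ∀ z₀ j, X j =ᶠ[𝓝 z₀] fun z => q z₀ z * φ z₀ z j := by
    intro z₀ j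
    have h1 := eventually_nhdsWithin_iff.mp (hne z₀)
    filter_upwards [h1, hcmp z₀, hqe z₀] with z h2 h3 h4
    by_cases hz : z = z₀
    · rw [hz]
    · obtain ⟨c, hc, h5⟩ := h3
      have h6 := h2 hz
      have h7 : (w : ℂ → ℂ) z = q z z * φ z z j₀ := (hqe z).self_of_nhds
      have h8 : φ z z j₀ ≠ 0 := by
        intro h
        apply h6
        rw [h5, h, mul_zero]
      have h9 : q z₀ z * c = q z z := by
        apply mul_right_cancel₀ h8
        rw [← h7, h4, h5]
        ring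
      simp only [hX]
      rw [h5, ← h9]
      ring
  have hXdiff : ∀ j, Differentiable ℂ (X j) := by
    intro j z₀
    exact (hXloc z₀ j).differentiableAt_iff.mpr ((hqa z₀).mul (hφj z₀ j)).differentiableAt
  refine ⟨fun j => ⟨X j, hXdiff j⟩, fun z => ?_⟩
  obtain ⟨h1, h2⟩ := (hφe z).self_of_nhds
  have h3 : (fun j => X j z) = q z z • φ z z := by
    funext j
    rfl
  have h4 : (fun j => X j z) ≠ 0 := by
    rw [h3]
    exact smul_ne_zero (hq0 z) h1
  refine ⟨h4, ?_⟩
  rw [h2, Projectivization.mk_eq_mk_iff]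
  refine ⟨(Units.mk0 (q z z) (hq0 z))⁻¹, ?_⟩
  change (Units.mk0 (q z z) (hq0 z))⁻¹ • (fun j => X j z) = φ z z
  rw [h3, Units.smul_def, smul_smul]
  simp [hq0 z]

end Pool.Agent.H17

end

section

/-!
# BU Alg: the blow-up as a set, algebraic identities
-/

set_option autoImplicit false

namespace Pool.Agent.H62.BU

attribute [-instance] ProperSMul.toContinuousSMul

open Filter Topology

variable {V : Type*} [NormedAddCommGroup V] [NormedSpace ℂ V] {ι : Type*} [Fintype ι]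

/-- the quadratic map of the blow-up -/
noncomputable def phi (l : ι → V →L[ℂ] ℂ) (x : V) : ι → V := fun b => l b x • x

/-- the part of the blow-up off the exceptional curve -/
def dense (l : ι → V →L[ℂ] ℂ) (X : Set V) : Set (ι → V) :=
  {y | ∃ x ∈ X, (∃ b, l b x ≠ 0) ∧ ∃ c : ℂ, c ≠ 0 ∧ y = c • phi l x}

/-- the blow-up -/
def blow (l : ι → V →L[ℂ] ℂ) (X : Set V) : Set (ι → V) := {y | y ∈ closure (dense l X) ∧ y ≠ 0}

/-- the total transform -/
def total (l : ι → V →L[ℂ] ℂ) (X B : Set V) : Set (ι → V) := {y | y ∈ blow l X ∧ ∀ b, y b ≠ 0 → y b ∈ B}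

variable {l : ι → V →L[ℂ] ℂ} {X : Set V}

theorem phi_ne {x : V} (h : ∃ b, l b x ≠ 0) : phi l x ≠ 0 := by
  obtain ⟨b, hb⟩ := h
  intro h0
  have h1 : l b x • x = 0 := congrFun h0 b
  rcases smul_eq_zero.mp h1 with h2 | h2
  · exact hb h2
  · rw [h2, map_zero] at hb
    exact hb rfl

theorem phi_smul (c : ℂ) (x : V) : phi l (c • x) = c ^ 2 • phi l x := by
  funext b
  simp only [phi, map_smul, smul_eq_mul, Pi.smul_apply, smul_smul]
  ring_nf

theorem dense_sub : dense l X ⊆ blow l X := by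
  rintro y ⟨x, hx, hb, c, hc, rfl⟩
  exact ⟨subset_closure ⟨x, hx, hb, c, hc, rfl⟩, smul_ne_zero hc (phi_ne hb)⟩

theorem phi_mem_dense {x : V} (hx : x ∈ X) (h : ∃ b, l b x ≠ 0) : phi l x ∈ dense l X :=
  ⟨x, hx, h, 1, one_ne_zero, (one_smul _ _).symm⟩

theorem dense_smul {y : ι → V} (hy : y ∈ dense l X) {c : ℂ} (hc : c ≠ 0) : c • y ∈ dense l X := by
  obtain ⟨x, hx, hb, a, ha, rfl⟩ := hy
  exact ⟨x, hx, hb, c * a, mul_ne_zero hc ha, by rw [smul_smul]⟩

theorem blow_zero : (0 : ι → V) ∉ blow l X := fun h => h.2 rfl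

theorem blow_smul (y : ι → V) (hy : y ∈ blow l X) (c : ℂ) (hc : c ≠ 0) : c • y ∈ blow l X := by
  refine ⟨?_, smul_ne_zero hc hy.2⟩
  have h1 : Continuous fun y : ι → V => c • y := continuous_const_smul c
  have h2 : Set.MapsTo (fun y : ι → V => c • y) (dense l X) (dense l X) := fun y hy => dense_smul hy hc
  exact h2.closure h1 hy.1

theorem blow_closed (y : ι → V) (hy : y ∈ closure (blow l X)) (h0 : y ≠ 0) : y ∈ blow l X := by
  refine ⟨?_, h0⟩
  have h1 : blow l X ⊆ closure (dense l X) := fun z hz => hz.1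
  have h2 := closure_mono h1 hy
  rwa [closure_closure] at h2

/-- closed relations extend from the dense part -/
theorem blow_ind {P : (ι → V) → Prop} (hP : IsClosed {y | P y}) (h : ∀ y ∈ dense l X, P y) {y : ι → V}
    (hy : y ∈ blow l X) : P y :=
  (hP.closure_subset_iff.mpr (fun z hz => h z hz)) hy.1

theorem symm (y : ι → V) (hy : y ∈ blow l X) (b b' : ι) : l b (y b') = l b' (y b) := by
  refine blow_ind (P := fun y => l b (y b') = l b' (y b)) ?_ ?_ hy
  · exact isClosed_eq ((l b).continuous.comp (continuous_apply b')) ((l b').continuous.comp (continuous_apply b))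
  · rintro _ ⟨x, hx, hb, c, hc, rfl⟩
    simp only [phi, Pi.smul_apply, map_smul, smul_eq_mul]
    ring

theorem prop (y : ι → V) (hy : y ∈ blow l X) (Λ : V →L[ℂ] ℂ) (b b' : ι) : Λ (y b) • y b' = Λ (y b') • y b := by
  refine blow_ind (P := fun y => Λ (y b) • y b' = Λ (y b') • y b) ?_ ?_ hy
  · exact isClosed_eq ((Λ.continuous.comp (continuous_apply b)).smul (continuous_apply b'))
      ((Λ.continuous.comp (continuous_apply b')).smul (continuous_apply b))
  · rintro _ ⟨x, hx, hb, c, hc, rfl⟩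
    simp only [phi, Pi.smul_apply, map_smul, smul_eq_mul, smul_smul]
    ring_nf

theorem comp_mem (hX : Surface X) (y : ι → V) (hy : y ∈ blow l X) {b : ι} (hb : y b ≠ 0) : y b ∈ X := by
  have h1 : y b ∈ closure (insert 0 X) := by
    have h2 : Set.MapsTo (fun y : ι → V => y b) (dense l X) (insert 0 X) := by
      rintro _ ⟨x, hx, -, c, hc, rfl⟩
      show c • l b x • x ∈ insert 0 X
      rw [smul_smul]
      by_cases h3 : c * l b x = 0
      · rw [h3, zero_smul]
        exact Set.mem_insert _ _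
      · exact Set.mem_insert_of_mem _ (hX.smul x hx _ h3)
    exact h2.closure (continuous_apply b) hy.1
  rw [Set.insert_eq, closure_union, closure_singleton, Set.mem_union, Set.mem_singleton_iff] at h1
  rcases h1 with h1 | h1
  · exact absurd h1 hb
  · exact hX.closed _ h1 hb

theorem ne_of_ne (y : ι → V) (hy : y ∈ blow l X) {b b' : ι} (hb : y b ≠ 0) (hb' : l b' (y b) ≠ 0) : l b (y b) ≠ 0 := by
  have h1 := prop y hy (l b') b b'
  have h2 := symm y hy b b'
  have h3 : y b' ≠ 0 := by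
    intro h0
    rw [h0, map_zero] at h2
    exact hb' h2.symm
  intro h0
  have h4 := prop y hy (l b) b b'
  rw [h0, zero_smul, h2] at h4
  exact (smul_ne_zero hb' hb) h4.symm

theorem eq_phi (y : ι → V) (hy : y ∈ blow l X) {b b' : ι} (hb : y b ≠ 0) (hb' : l b' (y b) ≠ 0) :
    y = (l b (y b))⁻¹ • phi l (y b) := by
  have h1 := ne_of_ne y hy hb hb'
  funext c
  have h2 := prop y hy (l b) b c
  rw [symm y hy b c] at h2
  simp only [phi, Pi.smul_apply]
  rw [← h2, smul_smul, inv_mul_cancel₀ h1, one_smul]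

theorem mem_dense_of_ne (hX : Surface X) (y : ι → V) (hy : y ∈ blow l X) {b b' : ι} (hb : y b ≠ 0)
    (hb' : l b' (y b) ≠ 0) : y ∈ dense l X := by
  rw [eq_phi y hy hb hb']
  exact dense_smul (phi_mem_dense (comp_mem hX y hy hb) ⟨b', hb'⟩) (inv_ne_zero (ne_of_ne y hy hb hb'))

theorem exists_ne (y : ι → V) (hy : y ∈ blow l X) : ∃ b, y b ≠ 0 := by
  by_contra h
  push Not at h
  exact hy.2 (funext h)

/-- the components are proportional -/
theorem comp_smul (y : ι → V) (hy : y ∈ blow l X) {b : ι} (hb : y b ≠ 0) (b' : ι) :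
    ∃ c : ℂ, y b' = c • y b := by
  obtain ⟨Λ, hΛ⟩ := exists_dual_vector ℂ (y b) (norm_ne_zero_iff.mpr hb)
  have h1 : (Λ (y b)) ≠ 0 := by
    rw [hΛ.2]
    simpa using hb
  have h2 := prop y hy Λ b b'
  refine ⟨(Λ (y b))⁻¹ * Λ (y b'), ?_⟩
  rw [mul_smul, ← h2, smul_smul, inv_mul_cancel₀ h1, one_smul]

end Pool.Agent.H62.BU

end

section

/-!
# BU Ch: operations with charts, charts of the blow-up from the dense part

* `scale`: `σ' = a σ`, `τ' y = τ (a⁻¹ y)`.
* `comp_linear`: `σ' = σ ∘ e`, `τ' = e⁻¹ ∘ τ`.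
* `deriv_left`: differentiate `left` at `0`: `Dτ(σ 0) (Dσ(0) w) = w`.
* `deriv_self`: differentiate `c ↦ τ (c • σ 0)` at `c = 1`: it is constant near `1` by `inv` (put `y = σ 0`).
* `indep`: apply `Dτ(σ 0)` to `Dσ(0) w = c • σ 0`.
* `isChart_of_dense`: choose `Λ` with `Λ (σ1 0) ≠ 0` (`exists_dual_vector`).  There is an open neighbourhood `U` of `σ1 0` on which `τ1` and `y ↦ σ1 (τ1 y)` are
  continuous (`AnalyticAt.eventually_analyticAt`) and `hright` holds.  For `y ∈ U ∩ dense`: `Λ(σ1(τ1 y)) • y = Λ(y) • σ1(τ1 y)`; by continuity this holds for `y ∈ U ∩ closure dense`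
  (`y ∈ closure dense`, `U` open: `mem_closure_iff_frequently`; the limit of two functions which are equal frequently... use `ContinuousAt` and `tendsto_nhds_unique_of_frequently_eq`).
  Near `σ1 0` also `Λ (σ1 (τ1 y)) ≠ 0` and `Λ y ≠ 0`, so `c = Λ y / Λ (σ1 (τ1 y))`.  (`τ1 (σ1 0) = 0` by `hleft.self_of_nhds`.)
-/

set_option autoImplicit false

namespace Pool.Agent.H62.BU

attribute [-instance] ProperSMul.toContinuousSMul

open Filter Topology

variable {V : Type*} [NormedAddCommGroup V] [NormedSpace ℂ V] {ι : Type*} [Fintype ι]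
variable {l : ι → V →L[ℂ] ℂ} {X : Set V} {σ : ℂ × ℂ → V} {τ : V → ℂ × ℂ}

theorem IsChart.scale (h : IsChart X σ τ) (hX : ∀ x ∈ X, ∀ c : ℂ, c ≠ 0 → c • x ∈ X) {a : ℂ} (ha : a ≠ 0) :
    IsChart X (fun p => a • σ p) (fun y => τ (a⁻¹ • y)) := by
  have hs : a⁻¹ • (a • σ 0) = σ 0 := by rw [smul_smul, inv_mul_cancel₀ ha, one_smul]
  have htend : Tendsto (fun y : V => a⁻¹ • y) (𝓝 (a • σ 0)) (𝓝 (σ 0)) := by
    have h1 : Tendsto (fun y : V => a⁻¹ • y) (𝓝 (a • σ 0)) (𝓝 (a⁻¹ • (a • σ 0))) :=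
      (continuous_const_smul a⁻¹).tendsto _
    rwa [hs] at h1
  refine ⟨analyticAt_const.smul h.σ_an, ?_, smul_ne_zero ha h.ne, ?_, ?_, ?_, ?_⟩
  · filter_upwards [h.σ_mem] with p hp
    exact hX _ hp a ha
  · have h1 : AnalyticAt ℂ τ ((fun y : V => a⁻¹ • y) (a • σ 0)) := by
      simp only [hs]
      exact h.τ_an
    exact h1.comp (analyticAt_const.smul analyticAt_id)
  · filter_upwards [h.left] with p hp
    rw [smul_smul, inv_mul_cancel₀ ha, one_smul]
    exact hp
  · filter_upwards [htend.eventually h.right] with y hy hyX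
    obtain ⟨c, hc, hc2⟩ := hy (hX y hyX a⁻¹ (inv_ne_zero ha))
    refine ⟨c, hc, ?_⟩
    rw [smul_comm, ← hc2, smul_smul, mul_inv_cancel₀ ha, one_smul]
  · have h1 : Tendsto (fun p : V × ℂ => (a⁻¹ • p.1, p.2)) (𝓝 (a • σ 0, (1 : ℂ))) (𝓝 (σ 0, (1 : ℂ))) := by
      rw [nhds_prod_eq, nhds_prod_eq]
      exact (htend.comp tendsto_fst).prodMk tendsto_snd
    filter_upwards [h1.eventually h.inv] with p hp
    rw [smul_comm]
    exact hp

theorem IsChart.comp_linear (h : IsChart X σ τ) (e : (ℂ × ℂ) ≃L[ℂ] (ℂ × ℂ)) :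
    IsChart X (fun p => σ (e p)) (fun y => e.symm (τ y)) := by
  have he : Tendsto (fun p : ℂ × ℂ => e p) (𝓝 0) (𝓝 0) := by
    have h1 : Tendsto (fun p : ℂ × ℂ => e p) (𝓝 0) (𝓝 (e 0)) := e.continuous.tendsto 0
    rwa [map_zero] at h1
  have h0 : σ (e 0) = σ 0 := by rw [map_zero]
  refine ⟨?_, ?_, ?_, ?_, ?_, ?_, ?_⟩
  · have h1 : AnalyticAt ℂ σ (e 0) := by rw [map_zero]; exact h.σ_an
    exact h1.comp (e.toContinuousLinearMap.analyticAt 0)
  · exact he.eventually h.σ_mem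
  · rw [h0]; exact h.ne
  · rw [h0]
    exact (e.symm.toContinuousLinearMap.analyticAt _).comp h.τ_an
  · filter_upwards [he.eventually h.left] with p hp
    rw [hp, ContinuousLinearEquiv.symm_apply_apply]
  · rw [h0]
    filter_upwards [h.right] with y hy hyX
    obtain ⟨c, hc, hc2⟩ := hy hyX
    exact ⟨c, hc, by rw [ContinuousLinearEquiv.apply_symm_apply]; exact hc2⟩
  · rw [h0]
    filter_upwards [h.inv] with p hp
    rw [hp]

theorem IsChart.deriv_left (h : IsChart X σ τ) (w : ℂ × ℂ) : fderiv ℂ τ (σ 0) (fderiv ℂ σ 0 w) = w := by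
  have h1 : HasFDerivAt σ (fderiv ℂ σ 0) 0 := h.σ_an.differentiableAt.hasFDerivAt
  have h2 : HasFDerivAt τ (fderiv ℂ τ (σ 0)) (σ 0) := h.τ_an.differentiableAt.hasFDerivAt
  have h3 := h2.comp (0 : ℂ × ℂ) h1
  have h4 : HasFDerivAt (τ ∘ σ) (ContinuousLinearMap.id ℂ (ℂ × ℂ)) 0 := by
    refine (hasFDerivAt_id (0 : ℂ × ℂ)).congr_of_eventuallyEq ?_
    filter_upwards [h.left] with p hp
    exact hp
  have h5 := h3.unique h4
  have h6 := congrArg (fun L : (ℂ × ℂ) →L[ℂ] (ℂ × ℂ) => L w) h5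
  simpa using h6

theorem IsChart.deriv_self (h : IsChart X σ τ) : fderiv ℂ τ (σ 0) (σ 0) = 0 := by
  have h1 : HasDerivAt (fun c : ℂ => c • σ 0) (σ 0) 1 := by
    have := (hasDerivAt_id (1 : ℂ)).smul_const (σ 0)
    simpa using this
  have h2 : HasFDerivAt τ (fderiv ℂ τ (σ 0)) ((1 : ℂ) • σ 0) := by
    rw [one_smul]; exact h.τ_an.differentiableAt.hasFDerivAt
  have h3 := h2.comp_hasDerivAt (1 : ℂ) h1
  have h4 : HasDerivAt (τ ∘ fun c : ℂ => c • σ 0) 0 1 := by
    refine (hasDerivAt_const (1 : ℂ) (τ (σ 0))).congr_of_eventuallyEq ?_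
    have h5 : Tendsto (fun c : ℂ => (σ 0, c)) (𝓝 1) (𝓝 (σ 0, (1 : ℂ))) := by
      rw [nhds_prod_eq]
      exact tendsto_const_nhds.prodMk tendsto_id
    filter_upwards [h5.eventually h.inv] with c hc
    exact hc
  exact h3.unique h4

theorem IsChart.indep (h : IsChart X σ τ) {w : ℂ × ℂ} {c : ℂ} (hw : fderiv ℂ σ 0 w = c • σ 0) : w = 0 := by
  rw [← h.deriv_left w, hw, map_smul, h.deriv_self, smul_zero]

theorem isChart_of_dense {σ1 : ℂ × ℂ → ι → V} {τ1 : (ι → V) → ℂ × ℂ} (hσ : AnalyticAt ℂ σ1 0)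
    (hmem : ∀ᶠ p in 𝓝 (0 : ℂ × ℂ), σ1 p ∈ blow l X) (hτ : AnalyticAt ℂ τ1 (σ1 0))
    (hleft : ∀ᶠ p in 𝓝 (0 : ℂ × ℂ), τ1 (σ1 p) = p)
    (hright : ∀ᶠ y in 𝓝 (σ1 0), y ∈ dense l X → ∃ c : ℂ, y = c • σ1 (τ1 y))
    (hinv : ∀ᶠ p in 𝓝 (σ1 0, (1 : ℂ)), τ1 (p.2 • p.1) = τ1 p.1) : IsChart (blow l X) σ1 τ1 := by
  have hne : σ1 0 ≠ 0 := (hmem.self_of_nhds).2
  refine ⟨hσ, hmem, hne, hτ, hleft, ?_, hinv⟩
  obtain ⟨Λ, hΛ⟩ := exists_dual_vector ℂ (σ1 0) (norm_ne_zero_iff.mpr hne)
  have hΛ0 : Λ (σ1 0) ≠ 0 := by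
    rw [hΛ.2]
    simpa using hne
  have h00 : τ1 (σ1 0) = 0 := hleft.self_of_nhds
  have hτt : Tendsto τ1 (𝓝 (σ1 0)) (𝓝 0) := by
    have := hτ.continuousAt
    unfold ContinuousAt at this
    rwa [h00] at this
  have hc1 : ∀ᶠ y in 𝓝 (σ1 0), ContinuousAt τ1 y := hτ.eventually_continuousAt
  have hc2 : ∀ᶠ y in 𝓝 (σ1 0), ContinuousAt σ1 (τ1 y) := hτt.eventually hσ.eventually_continuousAt
  have hst : Tendsto (fun y => σ1 (τ1 y)) (𝓝 (σ1 0)) (𝓝 (σ1 0)) := by
    have h1 : Tendsto σ1 (𝓝 0) (𝓝 (σ1 0)) := hσ.continuousAt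
    exact h1.comp hτt
  have hn1 : ∀ᶠ y in 𝓝 (σ1 0), Λ (σ1 (τ1 y)) ≠ 0 := by
    have h1 : Tendsto (fun y => Λ (σ1 (τ1 y))) (𝓝 (σ1 0)) (𝓝 (Λ (σ1 0))) :=
      (Λ.continuous.tendsto _).comp hst
    exact h1.eventually_ne hΛ0
  have hn2 : ∀ᶠ y in 𝓝 (σ1 0), Λ y ≠ 0 := (Λ.continuous.tendsto _).eventually_ne hΛ0
  filter_upwards [hc1, hc2, hn1, hn2, eventually_eventually_nhds.mpr hright] with y h1 h2 h3 h4 h5 hy
  have hF : ContinuousAt (fun z => Λ (σ1 (τ1 z)) • z - Λ z • σ1 (τ1 z)) y := by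
    have e1 : ContinuousAt (fun z => σ1 (τ1 z)) y := ContinuousAt.comp' h2 h1
    have e2 : ContinuousAt (fun z => Λ (σ1 (τ1 z))) y := Λ.continuous.continuousAt.comp' e1
    exact (e2.smul continuousAt_id).sub (Λ.continuous.continuousAt.smul e1)
  have hfr : ∃ᶠ z in 𝓝 y, Λ (σ1 (τ1 z)) • z - Λ z • σ1 (τ1 z) ∈ ({0} : Set (ι → V)) := by
    have e1 := mem_closure_iff_frequently.mp hy.1
    refine (e1.and_eventually h5).mono ?_
    rintro z ⟨hz1, hz2⟩
    obtain ⟨c, hc⟩ := hz2 hz1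
    rw [Set.mem_singleton_iff, sub_eq_zero]
    have e2 : Λ z = c * Λ (σ1 (τ1 z)) := by
      conv_lhs => rw [hc]
      rw [map_smul, smul_eq_mul]
    rw [e2, mul_comm c, mul_smul, ← hc]
  have hy0 := (isClosed_singleton (x := (0 : ι → V))).mem_of_frequently_of_tendsto hfr hF
  rw [Set.mem_singleton_iff, sub_eq_zero] at hy0
  refine ⟨Λ y / Λ (σ1 (τ1 y)), div_ne_zero h4 h3, ?_⟩
  rw [div_eq_inv_mul, mul_smul, ← hy0, smul_smul, inv_mul_cancel₀ h3, one_smul]

end Pool.Agent.H62.BU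

end
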