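import Pool.Agent.H94.CB.M17

/-! The parts of this file: H62.EF.PrA_1, H62.EF.TorA. -/

section

/-!
# EF PrA: the projection matrix of a line

`pr x = x x^* / ‖x‖²`.  For `x ≠ 0`, `y ≠ 0`: `‖pr x‖ = 1`, `⟨pr x, pr y⟩ = ‖⟨x, y⟩‖² / (‖x‖² ‖y‖²)` (`∑_{i,j} conj (x i conj (x j)) y i conj (y j)`),
so `‖pr x - pr y‖² = 2 - 2 ‖⟨x, y⟩‖² / (‖x‖² ‖y‖²) = 2 (wd x y)² / (‖x‖² ‖y‖²)` (`wd x y ^ 2 = ‖x‖² ‖y‖² - ‖⟨x, y⟩‖²`, the radicand is
nonnegative by Cauchy-Schwarz).  `pr_eq_iff`: `wd x y = 0` iff `x` is a multiple of `y` (equality in Cauchy-Schwarz, or the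
lemmas of `H36/BP/WdA.lean`).
`isCompact_pr`: `pr '' X = pr '' (X ∩ sphere 0 1)` (`smul_mem`), and `X ∩ sphere 0 1` is compact (`IsCone.closed`).
`nm_close`: `‖(‖x₀‖² / ⟨x₀, x⟩) • x - x₀‖² = ‖x₀‖² (wd x₀ x)² / ‖⟨x₀, x⟩‖²`: the vector `(‖x₀‖² / ⟨x₀, x⟩) • x - x₀` is orthogonal to
`x₀`; and `(wd x₀ x)² = ‖x₀‖² ‖x‖² ‖pr x - pr x₀‖² / 2`, `‖⟨x₀, x⟩‖² = ‖x₀‖² ‖x‖² (1 - ‖pr x - pr x₀‖² / 2)`.
(`inner ℂ x₀ x` is linear in `x`.)
-/

set_option autoImplicit false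

open Topology Filter Metric

namespace Pool.Agent.H62.EF

attribute [-instance] ProperSMul.toContinuousSMul

open Pool.Agent.H36.BP (EN fs wd)
open Pool.Agent.H14.PP (IsCone)

variable {N : ℕ}

theorem pr_smul (x : EN N) {c : ℂ} (hc : c ≠ 0) : pr (c • x) = pr x := by
  have h1 : c * (starRingEnd ℂ) c = ((‖c‖ ^ 2 : ℝ) : ℂ) := by
    rw [Complex.mul_conj']
    push_cast
    rfl
  have h2 : ((‖c‖ ^ 2 : ℝ) : ℂ) ≠ 0 := by
    have : ‖c‖ ≠ 0 := norm_ne_zero_iff.mpr hc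
    exact_mod_cast pow_ne_zero 2 this
  unfold pr
  congr 1
  funext i
  have h3 : ((‖c • x‖ ^ 2 : ℝ) : ℂ) = ((‖c‖ ^ 2 : ℝ) : ℂ) * ((‖x‖ ^ 2 : ℝ) : ℂ) := by
    rw [norm_smul, mul_pow]
    push_cast
    rfl
  have h4 : (c • x) i.1 * (starRingEnd ℂ) ((c • x) i.2) =
      ((‖c‖ ^ 2 : ℝ) : ℂ) * (x i.1 * (starRingEnd ℂ) (x i.2)) := by
    rw [← h1]
    simp only [PiLp.smul_apply, smul_eq_mul, map_mul]
    ring
  rw [h3, h4, mul_div_mul_left _ _ h2]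

/-- the scalar product in terms of the distance -/
theorem norm_inner_sq {x y : EN N} (hx : x ≠ 0) (hy : y ≠ 0) :
    ‖inner ℂ x y‖ ^ 2 = ‖x‖ ^ 2 * ‖y‖ ^ 2 * (1 - dist (pr x) (pr y) ^ 2 / 2) := by
  have h0 : ‖x‖ ≠ 0 := norm_ne_zero_iff.mpr hx
  have h0' : ‖y‖ ≠ 0 := norm_ne_zero_iff.mpr hy
  rw [dist_eq_norm, dist_pr_sq hx hy, wd_sq]
  field_simp
  ring

theorem pr_eq_iff {x y : EN N} (hx : x ≠ 0) (hy : y ≠ 0) : pr x = pr y ↔ ∃ c : ℂ, c ≠ 0 ∧ x = c • y := by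
  constructor
  · intro h
    have h1 := norm_inner_sq hy hx
    rw [h, dist_self] at h1
    have h2 : ‖(inner ℂ y x : ℂ)‖ ^ 2 = (‖y‖ * ‖x‖) ^ 2 := by
      rw [h1]
      ring
    have h3 : ‖(inner ℂ y x : ℂ)‖ = ‖y‖ * ‖x‖ :=
      (pow_left_inj₀ (norm_nonneg _) (by positivity) two_ne_zero).mp h2
    exact (norm_inner_eq_norm_iff hy hx).mp h3
  · rintro ⟨c, hc, rfl⟩
    exact pr_smul y hc

theorem isCompact_pr {X : Set (EN N)} (hX : IsCone X) : IsCompact (pr '' X) := by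
  have h1 : X ∩ sphere (0 : EN N) 1 = (insert 0 X) ∩ sphere (0 : EN N) 1 := by
    ext x
    constructor
    · rintro ⟨hx, hs⟩
      exact ⟨Set.mem_insert_of_mem _ hx, hs⟩
    · rintro ⟨hx, hs⟩
      refine ⟨?_, hs⟩
      rcases hx with rfl | hx
      · simp at hs
      · exact hx
  have h2 : IsCompact (X ∩ sphere (0 : EN N) 1) := by
    rw [h1]
    exact (isCompact_sphere (0 : EN N) 1).inter_left hX.closed
  have h3 : pr '' X = pr '' (X ∩ sphere (0 : EN N) 1) := by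
    ext p
    constructor
    · rintro ⟨x, hx, rfl⟩
      have hx0 : x ≠ 0 := fun h => hX.zero_notMem (h ▸ hx)
      have hn : ‖x‖ ≠ 0 := norm_ne_zero_iff.mpr hx0
      have hc : (((‖x‖⁻¹ : ℝ)) : ℂ) ≠ 0 := by
        exact_mod_cast inv_ne_zero hn
      refine ⟨(((‖x‖⁻¹ : ℝ)) : ℂ) • x, ⟨hX.smul_mem x hx _ hc, ?_⟩, pr_smul x hc⟩
      rw [mem_sphere_zero_iff_norm, norm_smul, Complex.norm_real, norm_inv, norm_norm]
      exact inv_mul_cancel₀ hn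
    · rintro ⟨x, hx, rfl⟩
      exact ⟨x, hx.1, rfl⟩
  rw [h3]
  refine h2.image_of_continuousOn fun x hx => ?_
  have hx0 : x ≠ 0 := fun h => hX.zero_notMem (h ▸ hx.1)
  exact (continuousAt_pr hx0).continuousWithinAt

/-- the representative of the line of `x` in the affine space `⟨x₀, x⟩ = ‖x₀‖²` -/
noncomputable def nm (x₀ x : EN N) : EN N := (((‖x₀‖ ^ 2 : ℝ) : ℂ) / inner ℂ x₀ x) • x

theorem nm_close {x₀ : EN N} (hx₀ : x₀ ≠ 0) {ε : ℝ} (hε : 0 < ε) :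
    ∃ δ : ℝ, 0 < δ ∧ ∀ x : EN N, x ≠ 0 → dist (pr x) (pr x₀) < δ → inner ℂ x₀ x ≠ (0 : ℂ) ∧ ‖nm x₀ x - x₀‖ < ε := by
  have hn : 0 < ‖x₀‖ := norm_pos_iff.mpr hx₀
  refine ⟨min 1 (ε / ‖x₀‖), lt_min one_pos (div_pos hε hn), fun x hx hd => ?_⟩
  have hx' : 0 < ‖x‖ := norm_pos_iff.mpr hx
  have hd1 : dist (pr x) (pr x₀) < 1 := lt_of_lt_of_le hd (min_le_left _ _)
  have hd2 : ‖x₀‖ * dist (pr x) (pr x₀) < ε := by
    have := lt_of_lt_of_le hd (min_le_right _ _)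
    rw [lt_div_iff₀ hn] at this
    linarith
  have hi := norm_inner_sq hx₀ hx
  rw [dist_comm] at hi
  set d := dist (pr x) (pr x₀) with hdd
  have hd0 : 0 ≤ d := dist_nonneg
  have hq : 0 < 1 - d ^ 2 / 2 := by nlinarith
  have hi0 : 0 < ‖(inner ℂ x₀ x : ℂ)‖ ^ 2 := by
    rw [hi]
    positivity
  have hne : (inner ℂ x₀ x : ℂ) ≠ 0 := by
    intro h
    rw [h] at hi0
    simp at hi0
  refine ⟨hne, ?_⟩
  have hc0 : (starRingEnd ℂ) (inner ℂ x₀ x : ℂ) ≠ 0 := by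
    intro h
    exact hne ((map_eq_zero _).mp h)
  have h1 : (inner ℂ (nm x₀ x) x₀ : ℂ) = ((‖x₀‖ ^ 2 : ℝ) : ℂ) := by
    unfold nm
    rw [inner_smul_left, map_div₀, Complex.conj_ofReal, ← inner_conj_symm x x₀, div_mul_cancel₀ _ hc0]
  have h2 : ‖nm x₀ x‖ ^ 2 = ‖x₀‖ ^ 2 / (1 - d ^ 2 / 2) := by
    unfold nm
    rw [norm_smul, norm_div, Complex.norm_real, mul_pow, div_pow, hi, Real.norm_of_nonneg (by positivity)]
    field_simp
  have h3 : ‖nm x₀ x - x₀‖ ^ 2 ≤ (‖x₀‖ * d) ^ 2 := by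
    rw [norm_sub_sq (𝕜 := ℂ), h1, h2]
    simp only [RCLike.re_to_complex, Complex.ofReal_re]
    have h4 : ‖x₀‖ ^ 2 / (1 - d ^ 2 / 2) - 2 * ‖x₀‖ ^ 2 + ‖x₀‖ ^ 2 = ‖x₀‖ ^ 2 * ((d ^ 2 / 2) / (1 - d ^ 2 / 2)) := by
      have hdq : d ^ 2 / 2 = 1 - (1 - d ^ 2 / 2) := by ring
      generalize 1 - d ^ 2 / 2 = q at hq hdq ⊢
      rw [hdq]
      have hq' : q ≠ 0 := hq.ne'
      field_simp
      ring
    rw [h4, mul_pow]
    refine mul_le_mul_of_nonneg_left ?_ (by positivity)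
    rw [div_le_iff₀ hq]
    have h6 : d ^ 2 ≤ 1 := by nlinarith
    have h7 : (1 : ℝ) / 2 ≤ 1 - d ^ 2 / 2 := by linarith
    nlinarith [mul_le_mul_of_nonneg_left h7 (sq_nonneg d)]
  have h5 : ‖nm x₀ x - x₀‖ ≤ ‖x₀‖ * d := abs_le_of_sq_le_sq' h3 (by positivity) |>.2
  linarith

/-- a neighbourhood of a point of the cone which is a cone contains the points with near projection -/
theorem near_of_pr {x₀ : EN N} (hx₀ : x₀ ≠ 0) {U : Set (EN N)} (hU : U ∈ 𝓝 x₀) :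
    ∃ δ : ℝ, 0 < δ ∧ ∀ x : EN N, x ≠ 0 → dist (pr x) (pr x₀) < δ → ∃ c : ℂ, c ≠ 0 ∧ c • x ∈ U := by
  obtain ⟨ε, hε, hb⟩ := Metric.mem_nhds_iff.mp hU
  obtain ⟨δ, hδ, h⟩ := nm_close hx₀ hε
  refine ⟨δ, hδ, fun x hx hd => ?_⟩
  obtain ⟨h1, h2⟩ := h x hx hd
  refine ⟨((‖x₀‖ ^ 2 : ℝ) : ℂ) / inner ℂ x₀ x, div_ne_zero (sq_ne hx₀) h1, hb ?_⟩
  rw [mem_ball, dist_eq_norm]
  exact h2

end Pool.Agent.H62.EF

end

section

/-!
# EF TorA: the map to the torus is uniformly continuous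

`Lat.const`: a continuous function on a preconnected set with values in the discrete group `Λ` is constant (near every point it is
constant because two different elements of `Λ` have distance at least `δ`; `IsPreconnected.constant_of_mapsTo` or a direct argument).
`Lat.mem_of_close`: if `a` has distance `< ε` to `Λ` for every `ε > 0` then `a ∈ Λ` (two such elements for `ε < δ / 2` agree).
`TorusMap.unif`: otherwise there are `x n, y n ∈ X` with `dist (pr (x n)) (pr (y n)) → 0` and `‖u (x n) - u (y n) - l‖ ≥ ε` for all `l ∈ Λ`.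
Multiply `x n` by a constant: `‖x n‖ = 1` (`u` changes by an element of `Λ`); along an ultrafilter `x n → x`, `‖x‖ = 1`, `x ∈ X`
(`IsCone.closed`); `pr (y n) → pr x`, so `y' n = nm x (y n) → x` (`nm_close`), `y' n ∈ X`, `u (y' n) - u (y n) ∈ Λ`.  With the local lift `v`
at `x`: `u (x n) - v (x n) ∈ Λ`, `u (y' n) - v (y' n) ∈ Λ` and `v (x n) - v (y' n) → 0`.  Contradiction.
-/

set_option autoImplicit false

open Topology Filter Metric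

namespace Pool.Agent.H62.EF

attribute [-instance] ProperSMul.toContinuousSMul

open Pool.Agent.H36.BP (EN fs wd)
open Pool.Agent.H14.PP (IsCone)

variable {N : ℕ} {X : Set (EN N)} {Λ : AddSubgroup ℂ} {u : EN N → ℂ}

theorem Lat.const (hΛ : Lat Λ) {U : Set ℂ} (hU : IsPreconnected U) {E : ℂ → ℂ} (hE : ContinuousOn E U) (h : ∀ z ∈ U, E z ∈ Λ) :
    ∀ z ∈ U, ∀ w ∈ U, E z = E w := by
  obtain ⟨δ, hδ, hd⟩ := hΛ.discrete
  have hdisc : DiscreteTopology (Λ : Set ℂ) := by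
    refine DiscreteTopology.of_forall_le_dist hδ ?_
    intro a b hab
    by_contra hlt
    push Not at hlt
    apply hab
    have h1 : ‖(a : ℂ) - b‖ < δ := by rw [← dist_eq_norm]; exact hlt
    have h2 := hd _ (Λ.sub_mem a.2 b.2) h1
    exact Subtype.ext (sub_eq_zero.1 h2)
  intro z hz w hw
  exact hU.constant_of_mapsTo (T := (Λ : Set ℂ)) ⟨hdisc⟩ hE (fun x hx => h x hx) hz hw

theorem Lat.mem_of_close (hΛ : Lat Λ) {a : ℂ} (h : ∀ ε : ℝ, 0 < ε → ∃ l ∈ Λ, ‖a - l‖ < ε) : a ∈ Λ := by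
  obtain ⟨δ, hδ, hd⟩ := hΛ.discrete
  obtain ⟨l₀, hl₀, h0⟩ := h (δ / 2) (by positivity)
  have key : a = l₀ := by
    by_contra hne
    have hpos : 0 < ‖a - l₀‖ := norm_pos_iff.2 (sub_ne_zero.2 hne)
    obtain ⟨l, hl, h1⟩ := h (min ‖a - l₀‖ (δ / 2)) (lt_min hpos (by positivity))
    have h2 : ‖l - l₀‖ < δ := by
      have h3 : l - l₀ = (a - l₀) - (a - l) := by ring
      rw [h3]
      have h4 := norm_sub_le (a - l₀) (a - l)
      have h5 := lt_of_lt_of_le h1 (min_le_right _ _)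
      linarith
    have h6 : l = l₀ := sub_eq_zero.1 (hd _ (Λ.sub_mem hl hl₀) h2)
    subst h6
    exact absurd (lt_of_lt_of_le h1 (min_le_left _ _)) (lt_irrefl _)
  rw [key]
  exact hl₀

theorem TorusMap.unif (hX : IsCone X) (hu : TorusMap X Λ u) {ε : ℝ} (hε : 0 < ε) :
    ∃ δ : ℝ, 0 < δ ∧ ∀ x ∈ X, ∀ y ∈ X, dist (pr x) (pr y) < δ → ∃ l ∈ Λ, ‖u x - u y - l‖ < ε := by
  by_contra hcon
  push Not at hcon
  have hcon' : ∀ n : ℕ, ∃ x ∈ X, ∃ y ∈ X, dist (pr x) (pr y) < 1 / ((n : ℝ) + 1) ∧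
      ∀ l ∈ Λ, ε ≤ ‖u x - u y - l‖ := fun n => hcon _ (by positivity)
  choose x hx y hy hxy hno using hcon'
  have hx0 : ∀ n, x n ≠ 0 := fun n h0 => hX.zero_notMem (h0 ▸ hx n)
  have hy0 : ∀ n, y n ≠ 0 := fun n h0 => hX.zero_notMem (h0 ▸ hy n)
  have hc0 : ∀ n, (((‖x n‖)⁻¹ : ℝ) : ℂ) ≠ 0 := fun n => by
    exact_mod_cast inv_ne_zero (norm_ne_zero_iff.2 (hx0 n))
  set x' : ℕ → EN N := fun n => (((‖x n‖)⁻¹ : ℝ) : ℂ) • x n with hx'
  have hx'X : ∀ n, x' n ∈ X := fun n => hX.smul_mem _ (hx n) _ (hc0 n)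
  have hx'1 : ∀ n, ‖x' n‖ = 1 := fun n => by
    simp only [hx']
    rw [norm_smul, Complex.norm_real, Real.norm_eq_abs, abs_of_nonneg (inv_nonneg.2 (norm_nonneg _))]
    exact inv_mul_cancel₀ (norm_ne_zero_iff.2 (hx0 n))
  have hKc : IsCompact (insert 0 X ∩ sphere (0 : EN N) 1) :=
    (isCompact_sphere (0 : EN N) 1).inter_left hX.closed
  obtain ⟨a, ha, φ, hφ, hlim⟩ := hKc.tendsto_subseq (x := x')
    (fun n => ⟨Set.mem_insert_of_mem _ (hx'X n), by simpa using hx'1 n⟩)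
  have ha1 : ‖a‖ = 1 := by simpa using ha.2
  have ha0 : a ≠ 0 := fun h0 => by simp [h0] at ha1
  have haX : a ∈ X := by
    rcases ha.1 with h0 | h0
    · exact absurd h0 ha0
    · exact h0
  obtain ⟨v, hv, hvu⟩ := hu.loc a haX
  have hvc : ∀ᶠ z in 𝓝 a, ‖v z - v a‖ < ε / 2 := by
    have := Metric.tendsto_nhds.1 hv.continuousAt (ε / 2) (by positivity)
    simpa [dist_eq_norm] using this
  obtain ⟨r, hr, hball⟩ := Metric.eventually_nhds_iff.1 (hvu.and hvc)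
  obtain ⟨δ, hδ, hnm⟩ := nm_close ha0 hr
  have e1 : ∀ᶠ n in atTop, dist (x' (φ n)) a < r := Metric.tendsto_nhds.1 hlim r hr
  have hpr : Tendsto (fun n => pr (x' (φ n))) atTop (𝓝 (pr a)) :=
    (continuousAt_pr ha0).tendsto.comp hlim
  have e2 : ∀ᶠ n in atTop, dist (pr (x' (φ n))) (pr a) < δ / 2 :=
    Metric.tendsto_nhds.1 hpr (δ / 2) (by positivity)
  have hz : Tendsto (fun n : ℕ => 1 / ((φ n : ℝ) + 1)) atTop (𝓝 0) :=
    (tendsto_one_div_add_atTop_nhds_zero_nat (𝕜 := ℝ)).comp hφ.tendsto_atTop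
  have e3 : ∀ᶠ n in atTop, 1 / ((φ n : ℝ) + 1) < δ / 2 := hz.eventually_lt_const (by positivity)
  obtain ⟨n, h1, h2, h3⟩ := (e1.and (e2.and e3)).exists
  have h4 : dist (pr (y (φ n))) (pr a) < δ := by
    have h5 := dist_triangle (pr (y (φ n))) (pr (x (φ n))) (pr a)
    have h6 := hxy (φ n)
    rw [dist_comm] at h6
    have h7 : pr (x' (φ n)) = pr (x (φ n)) := pr_smul _ (hc0 _)
    rw [h7] at h2
    linarith
  obtain ⟨h8, h9⟩ := hnm _ (hy0 (φ n)) h4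
  have hc : (((‖a‖ ^ 2 : ℝ) : ℂ) / inner ℂ a (y (φ n))) ≠ 0 := by
    refine div_ne_zero ?_ h8
    rw [ha1]
    norm_num
  have hyX : nm a (y (φ n)) ∈ X := hX.smul_mem _ (hy _) _ hc
  have hyd : dist (nm a (y (φ n))) a < r := by rw [dist_eq_norm]; exact h9
  obtain ⟨b1, b2⟩ := hball h1
  obtain ⟨b3, b4⟩ := hball hyd
  have m1 := b1 (hx'X _)
  have m2 := b3 hyX
  have m3 : u (x' (φ n)) - u (x (φ n)) ∈ Λ := hu.smul _ (hx _) _ (hc0 _)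
  have m4 : u (nm a (y (φ n))) - u (y (φ n)) ∈ Λ := hu.smul _ (hy _) _ hc
  have hl : -(u (x' (φ n)) - u (x (φ n))) + (u (x' (φ n)) - v (x' (φ n))) -
      (u (nm a (y (φ n))) - v (nm a (y (φ n)))) + (u (nm a (y (φ n))) - u (y (φ n))) ∈ Λ :=
    Λ.add_mem (Λ.sub_mem (Λ.add_mem (Λ.neg_mem m3) m1) m2) m4
  have h10 := hno (φ n) _ hl
  have h11 : u (x (φ n)) - u (y (φ n)) - (-(u (x' (φ n)) - u (x (φ n))) + (u (x' (φ n)) - v (x' (φ n))) -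
      (u (nm a (y (φ n))) - v (nm a (y (φ n)))) + (u (nm a (y (φ n))) - u (y (φ n)))) =
      (v (x' (φ n)) - v a) - (v (nm a (y (φ n))) - v a) := by ring
  rw [h11] at h10
  have h12 := norm_sub_le (v (x' (φ n)) - v a) (v (nm a (y (φ n))) - v a)
  linarith

end Pool.Agent.H62.EF

end
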