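import Pool.Agent.H94.CB.M18
import Pool.Agent.H94.CB.M194

/-! The parts of this file: EG.LE.Frm, H18.LU.OTc, H18.LU.OUn. -/

section

/-!
# EG LE Frm: the coefficient of the form in two parametrizations

Proof (helper41):
cf_change: near p: phi y = c y • psi (tau y), c y ≠ 0 (no regularity of c is assumed; it is analytic: fix a coordinate m with (psi (tau p)) m ≠ 0, c y = phi y m / psi (tau y) m near p).
fderiv phi p v = c p • fderiv psi (tau p) (fderiv tau p v) + (c' v) • psi (tau p).  With fderiv tau p (1,0) = (a, b), fderiv tau p (0,1) = (d, e): fderiv psi (tau p) of them is a combination of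
the two partial derivatives of psi; all are tangent vectors (Tan V x v: curves y ↦ psi (tau p + y v), eventually in V).  TForm.add_smul, scale, det; jac tau p = a e - b d.
-/

set_option autoImplicit false

open Topology Filter Metric Set

namespace Pool.Agent.EG.LE

attribute [-instance] ProperSMul.toContinuousSMul

open Pool.Agent.H36.BP (EN fs wd)
open Pool.Agent.H14.PP (IsCone Tan jac)
open Pool.Agent.H62.EF (MN pr)
open Pool.Agent.H62.EL (TForm)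
open Pool.Agent.EG.RL (rot)

variable {N : ℕ} {V : Set (EN N)} {Λ : AddSubgroup ℂ} {u : EN N → ℂ} {α : TForm V Λ u}

/-- tangent vectors from a parametrization -/
private theorem Frm_tan (hsm : ∀ x ∈ V, ∀ c : ℂ, c ≠ 0 → c • x ∈ V) {ψ : ℂ × ℂ → EN N} {q : ℂ × ℂ} (hψ : AnalyticAt ℂ ψ q)
    (hV : ∀ᶠ y in 𝓝 q, ψ y ∈ V) (w : ℂ × ℂ) (s : ℂ) : Tan V (ψ q) (fderiv ℂ ψ q w + s • ψ q) := by
  have hl : AnalyticAt ℂ (fun z : ℂ => q + z • w) 0 := by fun_prop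
  have hl0 : q + (0 : ℂ) • w = q := by rw [zero_smul, add_zero]
  have hψl : AnalyticAt ℂ (fun z : ℂ => ψ (q + z • w)) 0 := by
    have h1 : AnalyticAt ℂ ψ ((fun z : ℂ => q + z • w) 0) := by
      show AnalyticAt ℂ ψ (q + (0 : ℂ) • w)
      rw [hl0]
      exact hψ
    exact h1.comp (f := fun z : ℂ => q + z • w) hl
  refine ⟨fun z => (1 + s * z) • ψ (q + z • w), ⟨?_, ?_⟩, ?_, ?_⟩
  · exact (by fun_prop : AnalyticAt ℂ (fun z : ℂ => 1 + s * z) 0).smul hψl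
  · have h1 : Tendsto (fun z : ℂ => q + z • w) (𝓝 0) (𝓝 q) := by
      have := hl.continuousAt.tendsto
      rwa [hl0] at this
    have h2 : ∀ᶠ z : ℂ in 𝓝 0, 1 + s * z ≠ 0 := by
      have hc : ContinuousAt (fun z : ℂ => 1 + s * z) 0 := by fun_prop
      apply hc.eventually_ne
      simp
    filter_upwards [h1.eventually hV, h2] with z hz1 hz2
    exact hsm _ hz1 _ hz2
  · simp
  · have h1 : HasDerivAt (fun z : ℂ => 1 + s * z) s 0 := by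
      have := ((hasDerivAt_id (0 : ℂ)).const_mul s).const_add 1
      simpa using this
    have h2 : HasDerivAt (fun z : ℂ => q + z • w) w 0 := by
      have := ((hasDerivAt_id (0 : ℂ)).smul_const w).const_add q
      simpa using this
    have h3 : HasDerivAt (fun z : ℂ => ψ (q + z • w)) (fderiv ℂ ψ q w) 0 := by
      have h4 : HasFDerivAt ψ (fderiv ℂ ψ q) (q + (0 : ℂ) • w) := by
        rw [hl0]
        exact hψ.differentiableAt.hasFDerivAt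
      exact h4.comp_hasDerivAt (0 : ℂ) h2
    have h5 := (h1.smul h3).deriv
    have h6 : (fun z : ℂ => (1 + s * z) • ψ (q + z • w)) = (fun z : ℂ => 1 + s * z) • fun z : ℂ => ψ (q + z • w) := rfl
    rw [h6, h5]
    simp

/-- the derivative of `φ = c • (ψ ∘ τ)` -/
private theorem Frm_fderiv {φ ψ : ℂ × ℂ → EN N} {τ : ℂ × ℂ → ℂ × ℂ} {p : ℂ × ℂ}
    (hφ : AnalyticAt ℂ φ p) (hψ : AnalyticAt ℂ ψ (τ p)) (hτ : AnalyticAt ℂ τ p) (hne : ψ (τ p) ≠ 0)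
    (he : ∀ᶠ y in 𝓝 p, ∃ c : ℂ, c ≠ 0 ∧ φ y = c • ψ (τ y)) {c₀ : ℂ} (hc₀ : φ p = c₀ • ψ (τ p)) (v : ℂ × ℂ) :
    ∃ s : ℂ, fderiv ℂ φ p v = c₀ • fderiv ℂ ψ (τ p) (fderiv ℂ τ p v) + s • ψ (τ p) := by
  have hψτ : AnalyticAt ℂ (fun y => ψ (τ y)) p := hψ.comp hτ
  obtain ⟨m, hm⟩ : ∃ m, (ψ (τ p)).ofLp m ≠ 0 := by
    by_contra hcon
    push Not at hcon
    apply hne
    ext i
    rw [hcon i]
    rfl
  have hnum : AnalyticAt ℂ (fun y => (φ y).ofLp m) p := ((EuclideanSpace.proj (𝕜 := ℂ) m : EN N →L[ℂ] ℂ).analyticAt _).comp hφ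
  have hden : AnalyticAt ℂ (fun y => (ψ (τ y)).ofLp m) p :=
    ((EuclideanSpace.proj (𝕜 := ℂ) m : EN N →L[ℂ] ℂ).analyticAt _).comp hψτ
  have hc : AnalyticAt ℂ (fun y => (φ y).ofLp m / (ψ (τ y)).ofLp m) p := hnum.div hden hm
  have hev : φ =ᶠ[𝓝 p] fun y => ((φ y).ofLp m / (ψ (τ y)).ofLp m) • ψ (τ y) := by
    filter_upwards [he, hden.continuousAt.eventually_ne hm] with y hy1 hy2
    obtain ⟨c, -, hcy⟩ := hy1
    have h1 : (φ y).ofLp m = c * (ψ (τ y)).ofLp m := by rw [hcy]; rfl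
    rw [h1, mul_div_assoc, div_self hy2, mul_one]
    exact hcy
  have hcp : (φ p).ofLp m / (ψ (τ p)).ofLp m = c₀ := by
    have h1 : (φ p).ofLp m = c₀ * (ψ (τ p)).ofLp m := by rw [hc₀]; rfl
    rw [h1, mul_div_assoc, div_self hm, mul_one]
  have hf1 : HasFDerivAt (fun y => ψ (τ y)) ((fderiv ℂ ψ (τ p)).comp (fderiv ℂ τ p)) p :=
    hψ.differentiableAt.hasFDerivAt.comp p hτ.differentiableAt.hasFDerivAt
  have hf2 := hc.differentiableAt.hasFDerivAt.smul hf1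
  have hf3 := hf2.congr_of_eventuallyEq hev
  rw [hf3.fderiv]
  refine ⟨fderiv ℂ (fun y => (φ y).ofLp m / (ψ (τ y)).ofLp m) p v, ?_⟩
  simp only [_root_.add_apply, _root_.smul_apply, ContinuousLinearMap.smulRight_apply,
    ContinuousLinearMap.comp_apply, hcp]

theorem cf_change (h0 : (0 : EN N) ∉ V) (hsm : ∀ x ∈ V, ∀ c : ℂ, c ≠ 0 → c • x ∈ V) {φ ψ : ℂ × ℂ → EN N} {τ : ℂ × ℂ → ℂ × ℂ} {p : ℂ × ℂ}
    {t : ℂ} (hφ : AnalyticAt ℂ φ p) (hψ : AnalyticAt ℂ ψ (τ p)) (hτ : AnalyticAt ℂ τ p) (hV : ∀ᶠ y in 𝓝 (τ p), ψ y ∈ V)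
    (hu : u (ψ (τ p)) - t ∈ Λ) (he : ∀ᶠ y in 𝓝 p, ∃ c : ℂ, c ≠ 0 ∧ φ y = c • ψ (τ y)) : cf α φ t p = cf α ψ t (τ p) * jac τ p := by
  have hx : ψ (τ p) ∈ V := hV.self_of_nhds
  have hne : ψ (τ p) ≠ 0 := fun h => h0 (h ▸ hx)
  obtain ⟨c₀, hc₀, hc₀e⟩ := he.self_of_nhds
  obtain ⟨s₁, hs₁⟩ := Frm_fderiv hφ hψ hτ hne he hc₀e (1, 0)
  obtain ⟨s₂, hs₂⟩ := Frm_fderiv hφ hψ hτ hne he hc₀e (0, 1)
  have hlin : ∀ w : ℂ × ℂ, fderiv ℂ ψ (τ p) w = w.1 • fderiv ℂ ψ (τ p) (1, 0) + w.2 • fderiv ℂ ψ (τ p) (0, 1) := by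
    intro w
    have h1 : w = w.1 • ((1 : ℂ), (0 : ℂ)) + w.2 • ((0 : ℂ), (1 : ℂ)) := by
      ext <;> simp
    conv_lhs => rw [h1]
    rw [map_add, map_smul, map_smul]
  have htan : ∀ (w : ℂ × ℂ) (s : ℂ), Tan V (ψ (τ p)) (fderiv ℂ ψ (τ p) w + s • ψ (τ p)) := Frm_tan hsm hψ hV
  have htan0 : ∀ w : ℂ × ℂ, Tan V (ψ (τ p)) (fderiv ℂ ψ (τ p) w) := by
    intro w
    have := htan w 0
    rwa [zero_smul, add_zero] at this
  have hv : ∀ (s : ℂ) (w : EN N), c₀ • w + s • ψ (τ p) = c₀ • (w + (s / c₀) • ψ (τ p)) := by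
    intro s w
    rw [smul_add, smul_smul, mul_div_cancel₀ _ hc₀]
  unfold cf
  rw [hs₁, hs₂, hc₀e, hv, hv, α.scale t _ hx hu _ _ (htan _ _) (htan _ _) c₀ hc₀,
    α.add_smul t _ hx hu _ _ (htan0 _) (htan0 _), hlin (fderiv ℂ τ p (1, 0)), hlin (fderiv ℂ τ p (0, 1)),
    α.det t _ hx hu _ _ (htan0 _) (htan0 _)]
  unfold jac
  ring

end Pool.Agent.EG.LE

end

section

/-!
# (Copy for open cones and discrete groups, see `Oc`.) EL Tc: coefficients of forms in charts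

`tc_an`: `TForm.analytic` with `φ = χ.σ` (`χ.σ_mem`: `χ.σ y ∈ X` for `y ∈ ball 0 2`).

`tc_trans` (compare `FormTrans_lift`, `FormTrans_coef` in `H14/PP/FormTrans.lean`): near `p` we have `χ'.σ y = c y • χ.σ (τ y)`, `τ y = χ.q (χ'.σ y)`,
with `c` analytic, `c ≠ 0` (`Chart.surj`; `c` is analytic because for a linear form `ℓ` with `ℓ (χ.σ (τ p)) ≠ 0`: `c y = ℓ (χ'.σ y) / ℓ (χ.σ (τ y))`).
So `∂_e χ'.σ = c • Dχ.σ (τ p) (Dτ p e) + (∂_e c) • χ.σ (τ p)`.  With `x = χ'.σ p = c • χ.σ (τ p)`: by `add_smul` (multiples of `x`), `scale`, `det`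
(`Dτ e_1 = (τ_1)_1 e_1 + (τ_2)_1 e_2` ...), `toFun z x ∂₁ ∂₂ = jac τ p * toFun z (χ.σ (τ p)) (∂₁ χ.σ) (∂₂ χ.σ)`, where `z = υ' p = υ (τ p)`.
The vectors `Dχ.σ e` are tangent (`Chart.tan`, or directly: the curve `ξ ↦ χ.σ (q + ξ e)`).

`exists_prim`: `exists_prim_snd` with `R = 2`, `a = tc α χ (mo c ρ i j)` (`mo` is a polynomial).

`zr_iff`: `→`: if `x ∈ X`, `pr x = pr (χ.σ p)`, then `x = a • χ.σ p`; use `scale`.  `←`: `x = χ.σ p`; every tangent vector at `χ.σ p` is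
`a • ∂₁ + b • ∂₂ + c • x` (a curve `F` in `X` near `χ.σ p` is `F ξ = a ξ • χ.σ (χ.q (F ξ))`, see `Chart.curve`), so by `add_smul` and `det` the form is
`(det) * tc = 0`.
-/

set_option autoImplicit false

open Topology Filter Metric

namespace Pool.Agent.H18.LU

attribute [-instance] ProperSMul.toContinuousSMul

open Pool.Agent.H62.EL

open Pool.Agent.H36.BP (EN fs wd IsGermChart)
open Pool.Agent.H14.PP (Chart Tan CurveAt jac)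
open Pool.Agent.H62.EF (MN pr TorusMap Sec Charts DU)

variable {N : ℕ} {X : Set (EN N)} {Λ : AddSubgroup ℂ} {u : EN N → ℂ}

private theorem Tc_open (hX : OCone X) : Pool.Agent.H14.PP.IsOpenPart X X :=
  ⟨subset_rfl, hX.smul_mem, fun _ _ => Eventually.of_forall fun _ h => h⟩

private theorem Tc_tan_smul (hX : OCone X) {x v : EN N} (h : Tan X x v) {c : ℂ} (hc : c ≠ 0) :
    Tan X (c • x) (c • v) := by
  obtain ⟨F, hF, hF0, hFd⟩ := h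
  refine ⟨fun z => c • F z, ⟨AnalyticAt.fun_smul analyticAt_const hF.1, ?_⟩, ?_, ?_⟩
  · filter_upwards [hF.2] with z hz
    exact hX.smul_mem _ hz c hc
  · show c • F 0 = c • x
    rw [hF0]
  · have h1 : HasDerivAt (fun z => c • F z) (c • deriv F 0) 0 :=
      hF.1.differentiableAt.hasDerivAt.const_smul c
    rw [h1.deriv, hFd]

/-- The lift: `χ.σ y = c y • χ'.σ (τ y)` near `p`, with `c` differentiable at `p`. -/
private theorem Tc_lift (hX : OCone X) (χ χ' : Chart X) {p : ℂ × ℂ}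
    (hp : p ∈ ball (0 : ℂ × ℂ) 2) (hU : χ.σ p ∈ χ'.U) :
    ∃ (c : ℂ) (c' : (ℂ × ℂ) →L[ℂ] ℂ), c ≠ 0 ∧ χ'.q (χ.σ p) ∈ ball (0 : ℂ × ℂ) 2 ∧
      χ.σ p = c • χ'.σ (χ'.q (χ.σ p)) ∧
      ∀ w : ℂ × ℂ, fderiv ℂ χ.σ p w =
        c • fderiv ℂ χ'.σ (χ'.q (χ.σ p)) (fderiv ℂ (fun y => χ'.q (χ.σ y)) p w) +
          c' w • χ'.σ (χ'.q (χ.σ p)) := by
  obtain ⟨hτ, c0, hc0, hx⟩ := χ'.surj (χ.σ p) (χ.σ_mem p hp).1 hU
  set x' : EN N := χ'.σ (χ'.q (χ.σ p)) with hx'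
  have hx'0 : x' ≠ 0 := χ'.sigma_ne_zeroO hX hτ
  have hin : inner ℂ x' x' ≠ 0 := by
    rw [Ne, inner_self_eq_zero]
    exact hx'0
  have hτan : AnalyticAt ℂ (fun y => χ'.q (χ.σ y)) p :=
    AnalyticAt.comp (g := χ'.q) (f := χ.σ) (χ'.q_an _ hU) (χ.σ_an p hp)
  have hσ'an : AnalyticAt ℂ (fun y => χ'.σ (χ'.q (χ.σ y))) p :=
    AnalyticAt.comp (g := χ'.σ) (f := fun y => χ'.q (χ.σ y)) (χ'.σ_an _ hτ) hτan
  have hnum : AnalyticAt ℂ (fun y => innerSL ℂ x' (χ.σ y)) p :=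
    AnalyticAt.comp (g := fun v => innerSL ℂ x' v) (f := χ.σ)
      ((innerSL ℂ x').analyticAt _) (χ.σ_an p hp)
  have hden : AnalyticAt ℂ (fun y => innerSL ℂ x' (χ'.σ (χ'.q (χ.σ y)))) p :=
    AnalyticAt.comp (g := fun v => innerSL ℂ x' v) (f := fun y => χ'.σ (χ'.q (χ.σ y)))
      ((innerSL ℂ x').analyticAt _) hσ'an
  have hden0 : innerSL ℂ x' (χ'.σ (χ'.q (χ.σ p))) ≠ 0 := by
    rw [← hx', innerSL_apply_apply]
    exact hin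
  let C : ℂ × ℂ → ℂ := fun y => innerSL ℂ x' (χ.σ y) / innerSL ℂ x' (χ'.σ (χ'.q (χ.σ y)))
  have hC : AnalyticAt ℂ C p := hnum.div hden hden0
  have hCp : C p = c0 := by
    show innerSL ℂ x' (χ.σ p) / innerSL ℂ x' (χ'.σ (χ'.q (χ.σ p))) = c0
    rw [div_eq_iff hden0]
    conv_lhs => rw [hx]
    rw [map_smul, smul_eq_mul]
  have hev : ∀ᶠ y in 𝓝 p, χ.σ y = C y • χ'.σ (χ'.q (χ.σ y)) := by
    have h1 : ∀ᶠ y in 𝓝 p, y ∈ ball (0 : ℂ × ℂ) 2 := isOpen_ball.mem_nhds hp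
    have h2 : ∀ᶠ y in 𝓝 p, χ.σ y ∈ χ'.U :=
      (χ.σ_an p hp).continuousAt.eventually (χ'.isOpen_U.mem_nhds hU)
    have h3 : ∀ᶠ y in 𝓝 p, innerSL ℂ x' (χ'.σ (χ'.q (χ.σ y))) ≠ 0 :=
      hden.continuousAt.eventually_ne hden0
    filter_upwards [h1, h2, h3] with y hy1 hy2 hy3
    obtain ⟨-, b, hb, hxb⟩ := χ'.surj (χ.σ y) (χ.σ_mem y hy1).1 hy2
    have h4 : C y = b := by
      show innerSL ℂ x' (χ.σ y) / innerSL ℂ x' (χ'.σ (χ'.q (χ.σ y))) = b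
      rw [div_eq_iff hy3]
      conv_lhs => rw [hxb]
      rw [map_smul, smul_eq_mul]
    rw [h4]
    exact hxb
  refine ⟨c0, fderiv ℂ C p, hc0, hτ, hx, fun w => ?_⟩
  have hD1 : HasFDerivAt (fun y => χ'.σ (χ'.q (χ.σ y)))
      ((fderiv ℂ χ'.σ (χ'.q (χ.σ p))).comp (fderiv ℂ (fun y => χ'.q (χ.σ y)) p)) p :=
    HasFDerivAt.comp (g := χ'.σ) (f := fun y => χ'.q (χ.σ y)) p
      (χ'.σ_an _ hτ).differentiableAt.hasFDerivAt hτan.differentiableAt.hasFDerivAt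
  have hD2 : HasFDerivAt (fun y => C y • χ'.σ (χ'.q (χ.σ y)))
      (C p • ((fderiv ℂ χ'.σ (χ'.q (χ.σ p))).comp (fderiv ℂ (fun y => χ'.q (χ.σ y)) p)) +
        (fderiv ℂ C p).smulRight (χ'.σ (χ'.q (χ.σ p)))) p :=
    hC.differentiableAt.hasFDerivAt.smul hD1
  have hD3 : HasFDerivAt χ.σ
      (C p • ((fderiv ℂ χ'.σ (χ'.q (χ.σ p))).comp (fderiv ℂ (fun y => χ'.q (χ.σ y)) p)) +
        (fderiv ℂ C p).smulRight (χ'.σ (χ'.q (χ.σ p)))) p :=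
    hD2.congr_of_eventuallyEq hev
  rw [hD3.fderiv, hCp]
  rfl

private theorem Tc_pair (L : (ℂ × ℂ) →L[ℂ] EN N) (w : ℂ × ℂ) :
    L w = w.1 • L (1, 0) + w.2 • L (0, 1) := by
  rw [← map_smul, ← map_smul, ← map_add]
  congr 1
  ext
  · simp
  · simp

private theorem Tc_val (hX : OCone X) (α : TForm X Λ u) (χ : Chart X) {p : ℂ × ℂ} {z : ℂ}
    (hp : p ∈ ball (0 : ℂ × ℂ) 2) (hl : u (χ.σ p) - z ∈ Λ) (A B : ℂ × ℂ) :
    α.toFun z (χ.σ p) (fderiv ℂ χ.σ p A) (fderiv ℂ χ.σ p B) =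
      (A.1 * B.2 - A.2 * B.1) * α.toFun z (χ.σ p) (fderiv ℂ χ.σ p (1, 0)) (fderiv ℂ χ.σ p (0, 1)) := by
  have hx := (χ.σ_mem p hp).1
  have h3 := α.det z (χ.σ p) hx hl _ _ (χ.tan (Tc_open hX) hp hx (1, 0)) (χ.tan (Tc_open hX) hp hx (0, 1))
    A.1 A.2 B.1 B.2
  rw [← Tc_pair, ← Tc_pair] at h3
  exact h3

/-- every tangent vector at `χ.σ p` is `Dσ m + b σ` -/
private theorem Tc_tan (hX : OCone X) (χ : Chart X) {p : ℂ × ℂ} (hp : p ∈ ball (0 : ℂ × ℂ) 2) {v : EN N}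
    (hv : Tan X (χ.σ p) v) : ∃ (m : ℂ × ℂ) (b : ℂ), v = fderiv ℂ χ.σ p m + b • χ.σ p := by
  obtain ⟨F, hF, hF0, hFd⟩ := hv
  have hm := χ.σ_mem p hp
  have hU : F 0 ∈ χ.U := by rw [hF0]; exact hm.2.1
  obtain ⟨h1, -, c, hc, hc0, hev⟩ := χ.curveO hX hF hU
  have hq0 : χ.q (F 0) = p := by rw [hF0]; exact hm.2.2
  have hc1 : c 0 = 1 := by
    have h2 := hev.self_of_nhds.2
    rw [hq0, hF0] at h2
    have h3 : (c 0 - 1) • χ.σ p = 0 := by rw [sub_smul, one_smul, ← h2, sub_self]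
    have h4 := (smul_eq_zero.1 h3).resolve_right (χ.sigma_ne_zeroO hX hp)
    exact sub_eq_zero.1 h4
  refine ⟨deriv (fun z => χ.q (F z)) 0, deriv c 0, ?_⟩
  have hσ : HasFDerivAt χ.σ (fderiv ℂ χ.σ p) (χ.q (F 0)) := by
    rw [hq0]
    exact (χ.σ_an p hp).differentiableAt.hasFDerivAt
  have hD1 : HasDerivAt (fun z => χ.σ (χ.q (F z))) (fderiv ℂ χ.σ p (deriv (fun z => χ.q (F z)) 0)) 0 :=
    hσ.comp_hasDerivAt (0 : ℂ) h1.differentiableAt.hasDerivAt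
  have hD2 : HasDerivAt (fun z => c z • χ.σ (χ.q (F z)))
      (c 0 • fderiv ℂ χ.σ p (deriv (fun z => χ.q (F z)) 0) + deriv c 0 • χ.σ (χ.q (F 0))) 0 :=
    hc.differentiableAt.hasDerivAt.smul hD1
  have hD3 : HasDerivAt F (c 0 • fderiv ℂ χ.σ p (deriv (fun z => χ.q (F z)) 0) + deriv c 0 • χ.σ (χ.q (F 0))) 0 :=
    hD2.congr_of_eventuallyEq (hev.mono fun z hz => hz.2)
  rw [← hFd, hD3.deriv, hc1, one_smul, hq0]

theorem tc_transO (hX : OCone X) (hu : TorusMap X Λ u) (α : TForm X Λ u) (χ χ' : Chart X) {υ υ' : ℂ × ℂ → ℂ} {p : ℂ × ℂ}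
    (hp : p ∈ ball (0 : ℂ × ℂ) 2) (hU : χ'.σ p ∈ χ.U) (hl : u (χ'.σ p) - υ' p ∈ Λ) (he : υ (χ.q (χ'.σ p)) = υ' p) :
    tc α χ' υ' p = tc α χ υ (χ.q (χ'.σ p)) * jac (fun y => χ.q (χ'.σ y)) p := by
  obtain ⟨c, c', hc, hτ, hx, hD⟩ := Tc_lift hX χ' χ hp hU
  have hx'X : χ.σ (χ.q (χ'.σ p)) ∈ X := (χ.σ_mem _ hτ).1
  set x' : EN N := χ.σ (χ.q (χ'.σ p)) with hx'
  set A : ℂ × ℂ := fderiv ℂ (fun y => χ.q (χ'.σ y)) p (1, 0) with hA
  set B : ℂ × ℂ := fderiv ℂ (fun y => χ.q (χ'.σ y)) p (0, 1) with hB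
  have htA : Tan X x' (fderiv ℂ χ.σ (χ.q (χ'.σ p)) A) := χ.tan (Tc_open hX) hτ hx'X A
  have htB : Tan X x' (fderiv ℂ χ.σ (χ.q (χ'.σ p)) B) := χ.tan (Tc_open hX) hτ hx'X B
  have hV : fderiv ℂ χ'.σ p (1, 0) =
      c • fderiv ℂ χ.σ (χ.q (χ'.σ p)) A + (c' (1, 0) * c⁻¹) • (c • x') := by
    rw [hD (1, 0), smul_smul, mul_assoc, inv_mul_cancel₀ hc, mul_one]
  have hW : fderiv ℂ χ'.σ p (0, 1) =
      c • fderiv ℂ χ.σ (χ.q (χ'.σ p)) B + (c' (0, 1) * c⁻¹) • (c • x') := by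
    rw [hD (0, 1), smul_smul, mul_assoc, inv_mul_cancel₀ hc, mul_one]
  have hcx : c • x' ∈ X := hX.smul_mem _ hx'X c hc
  have hl1 : u (c • x') - υ' p ∈ Λ := by rw [← hx]; exact hl
  have hl2 : u x' - υ' p ∈ Λ := by
    have h := Λ.sub_mem hl1 (hu.smul x' hx'X c hc)
    have e : u (c • x') - υ' p - (u (c • x') - u x') = u x' - υ' p := by ring
    rwa [e] at h
  have h1 := α.add_smul (υ' p) (c • x') hcx hl1 _ _ (Tc_tan_smul hX htA hc) (Tc_tan_smul hX htB hc)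
    (c' (1, 0) * c⁻¹) (c' (0, 1) * c⁻¹)
  have h2 := α.scale (υ' p) x' hx'X hl2 _ _ htA htB c hc
  have h3 := Tc_val hX α χ hτ (z := υ' p) hl2 A B
  have h4 : tc α χ' υ' p = α.toFun (υ' p) (c • x') (c • fderiv ℂ χ.σ (χ.q (χ'.σ p)) A)
      (c • fderiv ℂ χ.σ (χ.q (χ'.σ p)) B) := by
    rw [← h1, ← hV, ← hW, ← hx]
    rfl
  rw [h4, h2, h3]
  have h5 : jac (fun y => χ.q (χ'.σ y)) p = A.1 * B.2 - A.2 * B.1 := by
    show A.1 * B.2 - B.1 * A.2 = _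
    ring
  rw [h5, mul_comm]
  congr 1
  show _ = α.toFun (υ (χ.q (χ'.σ p))) _ _ _
  rw [he]

theorem mo_an (b : ℂ) (ρ : ℝ) (i j : ℕ) (p : ℂ × ℂ) : AnalyticAt ℂ (mo b ρ i j) p := by
  show AnalyticAt ℂ (fun p : ℂ × ℂ => b + ρ * (p.1 ^ i * p.2 ^ j)) p
  exact analyticAt_const.add (analyticAt_const.mul ((analyticAt_fst.pow i).mul (analyticAt_snd.pow j)))

theorem zr_iffO (hX : OCone X) (hu : TorusMap X Λ u) (α : TForm X Λ u) (χ : Chart X) {υ : ℂ × ℂ → ℂ} {p : ℂ × ℂ}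
    (hp : p ∈ ball (0 : ℂ × ℂ) 2) (hl : u (χ.σ p) - υ p ∈ Λ) : Zr α (υ p) (pr (χ.σ p)) ↔ tc α χ υ p = 0 := by
  have hm := χ.σ_mem p hp
  constructor
  · rintro ⟨x, hx, hpr, hz, h0⟩
    obtain ⟨c, hc, rfl⟩ := (Pool.Agent.H62.EF.pr_eq_iff
      (OCone.ne_zero hX hx) (χ.sigma_ne_zeroO hX hp)).1 hpr
    have ht1 := χ.tan (Tc_open hX) hp hm.1 (1, 0)
    have ht2 := χ.tan (Tc_open hX) hp hm.1 (0, 1)
    have h1 := h0 _ _ (Tc_tan_smul hX ht1 hc) (Tc_tan_smul hX ht2 hc)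
    rw [α.scale (υ p) (χ.σ p) hm.1 hl _ _ ht1 ht2 c hc] at h1
    exact h1
  · intro h0
    refine ⟨χ.σ p, hm.1, rfl, hl, ?_⟩
    intro v w hv hw
    obtain ⟨m₁, b₁, rfl⟩ := Tc_tan hX χ hp hv
    obtain ⟨m₂, b₂, rfl⟩ := Tc_tan hX χ hp hw
    rw [α.add_smul (υ p) (χ.σ p) hm.1 hl _ _ (χ.tan (Tc_open hX) hp hm.1 m₁) (χ.tan (Tc_open hX) hp hm.1 m₂),
      Tc_val hX α χ hp hl]
    have h1 : α.toFun (υ p) (χ.σ p) (fderiv ℂ χ.σ p (1, 0)) (fderiv ℂ χ.σ p (0, 1)) = 0 := h0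
    rw [h1, mul_zero]

end Pool.Agent.H18.LU

end

section

/-!
# (Copy for open cones and discrete groups, see `Oc`.) EL Un: the integral along short paths in the fibres

`cap_mem`: `Cap` at `(z₀, y₀)` of radius `r`: `x ∈ X` over `z ∈ closedBall z₀ r` with `dist (pr x) y₀ ≤ r`.

`IRel.eq_cap`: let `χ', c', ρ', A', p, p'` be from `IRel`; `v = (A' p' - A' p) / ρ'`.  Let `γ θ = χ'.σ (p + θ (p' - p))`, `θ ∈ [0, 1]`: points of `X`; the first coordinate of `p + θ (p' - p)` is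
constant, `u (γ θ) - z ∈ Λ` (`Mon.lift`, `mo c' ρ' 1 0 (p + θ (p' - p)) = c' + ρ' p.1 = z`), `dist (pr (γ θ)) y₀ ≤ ε + dist y y₀ ≤ r`.  By `Cap` `γ θ ∈ χ.U`, `τ = χ.q ∘ χ'.σ` is analytic near
these points, with values in `closedBall 0 1`, and `c + ρ (τ ..).1 = z`.  Near each point `p_θ = p + θ (p' - p)` we even have `c + ρ (τ y).1 = c' + ρ' y.1` [only at `p_θ` known from `Cap`;
for the derivative: for `y` near `p_θ` with `c' + ρ' y.1 ∈ closedBall z₀ r` the point `χ'.σ y` may leave the ball of radius `r`; use instead: both sides are analytic near `p_θ`, equal at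
`p_θ`, and their difference is in `Λ` (`Mon.lift` of both charts, `τ y ∈ ball 0 2` by `Chart.surj`), which is discrete, so it is `0` near `p_θ`].  So `ρ ∂₁ τ₁ = ρ'`, `∂₂ τ₁ = 0` at `p_θ`, and
`tc_trans` (`υ = mo c ρ 1 0`, `υ' = mo c' ρ' 1 0`): `tc' (p_θ) = tc (τ p_θ) (∂₁τ₁ ∂₂τ₂) = tc (τ p_θ) (ρ' / ρ) ∂₂τ₂`.  Hence the functions `θ ↦ A' (p_θ) / ρ'` and `θ ↦ A (τ p_θ) / ρ` have the
same derivative on `[0, 1]`: `tc' (p_θ) (p'.2 - p.2) / ρ'` and `(∂₂A) (τ p_θ) ∂₂τ₂ (p'.2 - p.2) / ρ` (`(p' - p).1 = 0` and `∂₂ τ₁ = 0`).  So `v = (A (τ p') - A (τ p)) / ρ`, and `τ p = χ.q x`, because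
`χ'.σ p` and `x` are proportional (`pr` equal, `pr_eq_iff`, `q_smul`); same for `p'`, `x'`.

`II_eq`: `II = h.choose`, which satisfies `IRel`.
`IRel.mulPow`: the same chart and points, `A₁ q = (mo c ρ 1 0 q - b)^n * A q` (`mo c ρ 1 0 q` does not depend on `q.2`, so `∂₂ A₁ = (mo - b)^n ∂₂ A`, and `tc (α.mulPow b n) = (mo - b)^n tc α`); at
`p, p'`: `mo = z`.
`II_mulPow`: if there is `v` with `IRel α ε z y y' v` then both sides are the unique values (`eq_cap` for the two forms with the primitives `A`, `A₁`).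
-/

set_option autoImplicit false

open Topology Filter Metric

namespace Pool.Agent.H18.LU

attribute [-instance] ProperSMul.toContinuousSMul

open Pool.Agent.H62.EL

open Pool.Agent.H36.BP (EN fs wd IsGermChart)
open Pool.Agent.H14.PP (Chart Tan CurveAt jac)
open Pool.Agent.H62.EF (MN pr TorusMap Sec Charts DU)

variable {N : ℕ} {X : Set (EN N)} {Λ : AddSubgroup ℂ} {u : EN N → ℂ}

/-- The point of the segment. -/
private noncomputable def Un_P (p p' : ℂ × ℂ) (t : ℂ) : ℂ × ℂ := p + t • (p' - p)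

private theorem Un_mo (c : ℂ) (ρ : ℝ) (p : ℂ × ℂ) : mo c ρ 1 0 p = c + ρ * p.1 := by
  simp [mo]

private theorem Un_P_mem {p p' : ℂ × ℂ} (hp : p ∈ ball (0 : ℂ × ℂ) 2) (hp' : p' ∈ ball (0 : ℂ × ℂ) 2) {θ : ℝ} (hθ : θ ∈ Set.Icc (0 : ℝ) 1) :
    Un_P p p' (θ : ℂ) ∈ ball (0 : ℂ × ℂ) 2 := by
  have hc : Convex ℝ (ball (0 : ℂ × ℂ) 2) := convex_ball _ _
  have h1 := hc.add_smul_sub_mem hp hp' hθ
  have h2 : Un_P p p' (θ : ℂ) = p + θ • (p' - p) := by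
    unfold Un_P
    congr 1
  rwa [h2]

private theorem Un_vert (L : ℂ × ℂ →L[ℂ] ℂ) (d : ℂ × ℂ) (hd : d.1 = 0) : L d = d.2 * L (0, 1) := by
  have h1 : d = d.2 • ((0, 1) : ℂ × ℂ) := by
    ext
    · simp [hd]
    · simp
  conv_lhs => rw [h1]
  rw [map_smul, smul_eq_mul]

/-- The change of charts along the segment. -/
private theorem Un_trans (hX : OCone X) (hu : TorusMap X Λ u) (hΛ : Dsc Λ) {χ χ' : Chart X} {c c' : ℂ} {ρ ρ' : ℝ}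
    (hm : Mon Λ u χ c ρ 1 0) (hm' : Mon Λ u χ' c' ρ' 1 0) {q : ℂ × ℂ} (hq : q ∈ ball (0 : ℂ × ℂ) 2) (hU : χ'.σ q ∈ χ.U)
    (he : c + ρ * (χ.q (χ'.σ q)).1 = c' + ρ' * q.1) :
    ∀ᶠ y in 𝓝 q, c + ρ * (χ.q (χ'.σ y)).1 = c' + ρ' * y.1 := by
  obtain ⟨δ, hδ, hdisc⟩ := hΛ.discrete
  have hσ : ContinuousAt χ'.σ q := (χ'.σ_an q hq).continuousAt
  have hτ : ContinuousAt (fun y => χ.q (χ'.σ y)) q := (χ.q_an _ hU).continuousAt.comp hσ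
  have hτ1 : ContinuousAt (fun y => (χ.q (χ'.σ y)).1) q := continuous_fst.continuousAt.comp hτ
  have hcont : ContinuousAt (fun y : ℂ × ℂ => c + ρ * (χ.q (χ'.σ y)).1 - (c' + ρ' * y.1)) q := by
    refine (continuousAt_const.add (continuousAt_const.mul hτ1)).sub ?_
    exact continuousAt_const.add (continuousAt_const.mul continuous_fst.continuousAt)
  have hsmall : ∀ᶠ y in 𝓝 q, ‖c + ρ * (χ.q (χ'.σ y)).1 - (c' + ρ' * y.1)‖ < δ := by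
    have h1 := hcont.norm
    have h2 : ‖c + ρ * (χ.q (χ'.σ q)).1 - (c' + ρ' * q.1)‖ < δ := by
      rw [he, sub_self, norm_zero]
      exact hδ
    exact h1.eventually_lt_const h2
  filter_upwards [hsmall, isOpen_ball.mem_nhds hq, hσ (χ.isOpen_U.mem_nhds hU)] with y h1 h2 h3
  have hyX := (χ'.σ_mem y h2).1
  obtain ⟨hb, a, ha, hay⟩ := χ.surj _ hyX h3
  have h4 := hm'.lift y h2
  have h5 := hm.lift _ hb
  have h6 : u (χ'.σ y) - u (χ.σ (χ.q (χ'.σ y))) ∈ Λ := by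
    have := hu.smul _ (χ.σ_mem _ hb).1 a ha
    rwa [← hay] at this
  rw [Un_mo] at h4 h5
  have h7 : c + ρ * (χ.q (χ'.σ y)).1 - (c' + ρ' * y.1) ∈ Λ := by
    have h8 := Λ.sub_mem (Λ.sub_mem h4 h6) h5
    convert h8 using 1
    ring
  exact sub_eq_zero.mp (hdisc _ h7 h1)

/-- The derivatives of the two primitives agree. -/
private theorem Un_deriv (hX : OCone X) (hu : TorusMap X Λ u) (hΛ : Dsc Λ) (α : TForm X Λ u) {χ χ' : Chart X} {c c' : ℂ} {ρ ρ' : ℝ}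
    (hm : Mon Λ u χ c ρ 1 0) (hm' : Mon Λ u χ' c' ρ' 1 0) {A A' : ℂ × ℂ → ℂ} (hA : IsPrim α χ (mo c ρ 1 0) A)
    (hA' : IsPrim α χ' (mo c' ρ' 1 0) A') {q : ℂ × ℂ} (hq : q ∈ ball (0 : ℂ × ℂ) 2) (hU : χ'.σ q ∈ χ.U)
    (he : c + ρ * (χ.q (χ'.σ q)).1 = c' + ρ' * q.1) {d : ℂ × ℂ} (hd : d.1 = 0) :
    HasFDerivAt (fun y => A (χ.q (χ'.σ y))) (fderiv ℂ (fun y => A (χ.q (χ'.σ y))) q) q ∧
      fderiv ℂ A' q d / ρ' = fderiv ℂ (fun y => A (χ.q (χ'.σ y))) q d / ρ := by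
  have hρ : (ρ : ℂ) ≠ 0 := by exact_mod_cast hm.pos.ne'
  have hρ' : (ρ' : ℂ) ≠ 0 := by exact_mod_cast hm'.pos.ne'
  have hσ : HasFDerivAt χ'.σ (fderiv ℂ χ'.σ q) q := (χ'.σ_an q hq).differentiableAt.hasFDerivAt
  have hb : χ.q (χ'.σ q) ∈ ball (0 : ℂ × ℂ) 2 := (χ.surj _ (χ'.σ_mem q hq).1 hU).1
  have hτ : HasFDerivAt (fun y => χ.q (χ'.σ y)) (fderiv ℂ (fun y => χ.q (χ'.σ y)) q) q :=
    ((χ.q_an _ hU).differentiableAt.comp q (χ'.σ_an q hq).differentiableAt).hasFDerivAt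
  have hAd : HasFDerivAt A (fderiv ℂ A (χ.q (χ'.σ q))) (χ.q (χ'.σ q)) := (hA.an _ hb).differentiableAt.hasFDerivAt
  have hcomp : HasFDerivAt (fun y => A (χ.q (χ'.σ y))) ((fderiv ℂ A (χ.q (χ'.σ q))).comp (fderiv ℂ (fun y => χ.q (χ'.σ y)) q)) q :=
    hAd.comp q hτ
  set D := fderiv ℂ (fun y => χ.q (χ'.σ y)) q with hD
  have hfst : ∀ w : ℂ × ℂ, ρ * (D w).1 = ρ' * w.1 := by
    intro w
    have h1 := Un_trans hX hu hΛ hm hm' hq hU he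
    have h2 : HasFDerivAt (fun y : ℂ × ℂ => c + ρ * (χ.q (χ'.σ y)).1)
        ((ρ : ℂ) • ((ContinuousLinearMap.fst ℂ ℂ ℂ).comp D)) q := by
      have h3 : HasFDerivAt (fun y => (χ.q (χ'.σ y)).1) ((ContinuousLinearMap.fst ℂ ℂ ℂ).comp D) q :=
        (ContinuousLinearMap.fst ℂ ℂ ℂ).hasFDerivAt.comp q hτ
      exact (h3.const_mul (ρ : ℂ)).const_add c
    have h4 : HasFDerivAt (fun y : ℂ × ℂ => c' + ρ' * y.1) ((ρ' : ℂ) • (ContinuousLinearMap.fst ℂ ℂ ℂ)) q :=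
      ((ContinuousLinearMap.fst ℂ ℂ ℂ).hasFDerivAt.const_mul (ρ' : ℂ)).const_add c'
    have h5 : HasFDerivAt (fun y : ℂ × ℂ => c + ρ * (χ.q (χ'.σ y)).1) ((ρ' : ℂ) • (ContinuousLinearMap.fst ℂ ℂ ℂ)) q :=
      h4.congr_of_eventuallyEq h1
    have h6 := h2.unique h5
    have h7 := congrArg (fun L : ℂ × ℂ →L[ℂ] ℂ => L w) h6
    simpa using h7
  have hDd : (D d).1 = 0 := by
    have h1 := hfst d
    rw [hd, mul_zero] at h1
    exact (mul_eq_zero.mp h1).resolve_left hρ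
  have hD01 : (D (0, 1)).1 = 0 := by
    have h1 := hfst (0, 1)
    simp only [mul_zero] at h1
    exact (mul_eq_zero.mp h1).resolve_left hρ
  have hD10 : (D (1, 0)).1 = ρ' / ρ := by
    have h1 := hfst (1, 0)
    simp only [mul_one] at h1
    field_simp
    rw [← h1]
    ring
  have hD2 : (D d).2 = d.2 * (D (0, 1)).2 := by
    have h1 := Un_vert ((ContinuousLinearMap.snd ℂ ℂ ℂ).comp D) d hd
    simpa using h1
  have htc := tc_transO hX hu α χ χ' (υ := mo c ρ 1 0) (υ' := mo c' ρ' 1 0) hq hU (hm'.lift q hq)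
    (by rw [Un_mo, Un_mo]; exact he)
  have hjac : jac (fun y => χ.q (χ'.σ y)) q = ρ' / ρ * (D (0, 1)).2 := by
    unfold jac
    rw [← hD, hD10, hD01]
    ring
  refine ⟨by rw [hcomp.fderiv]; exact hcomp, ?_⟩
  rw [hcomp.fderiv, ContinuousLinearMap.comp_apply, Un_vert _ _ hDd, hA.der _ hb, hD2, Un_vert _ _ hd, hA'.der _ hq, htc, hjac]
  field_simp

theorem _root_.Pool.Agent.H62.EL.IRel.eq_capO (hX : OCone X) (hu : TorusMap X Λ u) (hΛ : Dsc Λ) {α : TForm X Λ u} {ε : ℝ} {z v : ℂ} {y y' : MN N}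
    (h : IRel α ε z y y' v) {χ : Chart X} {c : ℂ} {ρ : ℝ} {z₀ : ℂ} {y₀ : MN N} {r : ℝ} (hc : Cap Λ u χ c ρ z₀ y₀ r)
    {A : ℂ × ℂ → ℂ} (hA : IsPrim α χ (mo c ρ 1 0) A) (hz : z ∈ closedBall z₀ r) (hy : dist y y₀ + ε ≤ r) {x x' : EN N}
    (hx : x ∈ X) (hx' : x' ∈ X) (hxy : pr x = y) (hxy' : pr x' = y') : v = (A (χ.q x') - A (χ.q x)) / ρ := by
  obtain ⟨χ', c', ρ', A', p, p', hm', hA', hp, hp', hpz, hpz', hpy, hpy', hseg, hv⟩ := h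
  have hm := hc.mon
  have hρ : (ρ : ℂ) ≠ 0 := by exact_mod_cast hm.pos.ne'
  have hρ' : (ρ' : ℂ) ≠ 0 := by exact_mod_cast hm'.pos.ne'
  have hd : (p' - p).1 = 0 := by
    have h1 : (ρ' : ℂ) * (p'.1 - p.1) = 0 := by linear_combination hpz' - hpz
    exact (mul_eq_zero.mp h1).resolve_left hρ'
  have hP1 : ∀ t : ℂ, (Un_P p p' t).1 = p.1 := by
    intro t
    have h1 : (Un_P p p' t).1 = p.1 + t * (p' - p).1 := rfl
    rw [h1, hd, mul_zero, add_zero]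
  have hcap : ∀ θ ∈ Set.Icc (0 : ℝ) 1, χ'.σ (Un_P p p' (θ : ℂ)) ∈ χ.U ∧
      c + ρ * (χ.q (χ'.σ (Un_P p p' (θ : ℂ)))).1 = c' + ρ' * (Un_P p p' (θ : ℂ)).1 := by
    intro θ hθ
    have hb := Un_P_mem hp hp' hθ
    have h1 : u (χ'.σ (Un_P p p' (θ : ℂ))) - z ∈ Λ := by
      have h2 := hm'.lift _ hb
      rwa [Un_mo, hP1, hpz] at h2
    have h2 : dist (pr (χ'.σ (Un_P p p' (θ : ℂ)))) y₀ ≤ r := by
      have h3 : dist (pr (χ'.σ (Un_P p p' (θ : ℂ)))) y ≤ ε := hseg θ hθ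
      linarith [dist_triangle (pr (χ'.σ (Un_P p p' (θ : ℂ)))) y y₀]
    obtain ⟨h3, _, h4⟩ := hc.cap z hz _ (χ'.σ_mem _ hb).1 h1 h2
    exact ⟨h3, by rw [h4, hP1, hpz]⟩
  set f : ℝ → ℂ := fun θ => A' (Un_P p p' (θ : ℂ)) / ρ' - A (χ.q (χ'.σ (Un_P p p' (θ : ℂ)))) / ρ with hf
  have hder : ∀ θ ∈ Set.Icc (0 : ℝ) 1, HasDerivAt f 0 θ := by
    intro θ hθ
    have hb := Un_P_mem hp hp' hθ
    obtain ⟨h1, h2⟩ := Un_deriv hX hu hΛ α hm hm' hA hA' hb (hcap θ hθ).1 (hcap θ hθ).2 hd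
    have hPd : HasDerivAt (fun t : ℂ => Un_P p p' t) (p' - p) (θ : ℂ) := by
      have h3 := ((hasDerivAt_id (θ : ℂ)).smul_const (p' - p)).const_add p
      rw [one_smul] at h3
      exact h3
    have h4 : HasDerivAt (fun t : ℂ => A' (Un_P p p' t)) (fderiv ℂ A' (Un_P p p' (θ : ℂ)) (p' - p)) (θ : ℂ) :=
      (hA'.an _ hb).differentiableAt.hasFDerivAt.comp_hasDerivAt (θ : ℂ) hPd
    have h5 : HasDerivAt (fun t : ℂ => A (χ.q (χ'.σ (Un_P p p' t))))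
        (fderiv ℂ (fun y => A (χ.q (χ'.σ y))) (Un_P p p' (θ : ℂ)) (p' - p)) (θ : ℂ) :=
      h1.comp_hasDerivAt (θ : ℂ) hPd
    have h6 := ((h4.div_const (ρ' : ℂ)).sub (h5.div_const (ρ : ℂ))).comp_ofReal
    rw [h2, sub_self] at h6
    exact h6
  have hconst := constant_of_has_deriv_right_zero (f := f) (a := 0) (b := 1)
    (fun θ hθ => (hder θ hθ).continuousAt.continuousWithinAt)
    (fun θ hθ => (hder θ ⟨hθ.1, hθ.2.le⟩).hasDerivWithinAt) 1 ⟨zero_le_one, le_rfl⟩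
  have hP0 : Un_P p p' ((0 : ℝ) : ℂ) = p := by
    unfold Un_P
    simp
  have hP1' : Un_P p p' ((1 : ℝ) : ℂ) = p' := by
    unfold Un_P
    simp
  have hX0 : ∀ w ∈ X, w ≠ 0 := fun w hw h => hX.zero_notMem (h ▸ hw)
  have hq : χ.q x = χ.q (χ'.σ p) := by
    have hU := (hcap 0 ⟨le_rfl, zero_le_one⟩).1
    rw [hP0] at hU
    obtain ⟨a, ha, hax⟩ := (Pool.Agent.H62.EF.pr_eq_iff (hX0 x hx) (hX0 _ (χ'.σ_mem p hp).1)).mp (hxy.trans hpy.symm)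
    rw [hax]
    exact χ.q_smul _ hU a ha
  have hq' : χ.q x' = χ.q (χ'.σ p') := by
    have hU := (hcap 1 ⟨zero_le_one, le_rfl⟩).1
    rw [hP1'] at hU
    obtain ⟨a, ha, hax⟩ := (Pool.Agent.H62.EF.pr_eq_iff (hX0 x' hx') (hX0 _ (χ'.σ_mem p' hp').1)).mp (hxy'.trans hpy'.symm)
    rw [hax]
    exact χ.q_smul _ hU a ha
  simp only [hf] at hconst
  rw [hP0, hP1'] at hconst
  rw [hv, hq, hq']
  rw [sub_div, sub_div]
  linear_combination hconst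

theorem II_eqO (hX : OCone X) (hu : TorusMap X Λ u) (hΛ : Dsc Λ) {α : TForm X Λ u} {ε : ℝ} {z : ℂ} {y y' : MN N}
    (h : ∃ v, IRel α ε z y y' v) {χ : Chart X} {c : ℂ} {ρ : ℝ} {z₀ : ℂ} {y₀ : MN N} {r : ℝ} (hc : Cap Λ u χ c ρ z₀ y₀ r)
    {A : ℂ × ℂ → ℂ} (hA : IsPrim α χ (mo c ρ 1 0) A) (hz : z ∈ closedBall z₀ r) (hy : dist y y₀ + ε ≤ r) {x x' : EN N}
    (hx : x ∈ X) (hx' : x' ∈ X) (hxy : pr x = y) (hxy' : pr x' = y') : II α ε z y y' = (A (χ.q x') - A (χ.q x)) / ρ := by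
  have h1 : II α ε z y y' = h.choose := by
    unfold II
    rw [dif_pos h]
  rw [h1]
  exact IRel.eq_capO hX hu hΛ h.choose_spec hc hA hz hy hx hx' hxy hxy'

end Pool.Agent.H18.LU

end
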