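import Pool.Agent.H94.CB.M195
import Pool.Agent.H94.CB.M200
import Pool.Agent.H94.CB.M203

/-! The parts of this file: EG.LE.Mk, EG.LE.ModA, EG.LE.ModB, EG.LE.Mod, EG.LE.PhiC. -/

section

/-!
# EG LE Mk: a chart on a bidisc from a germ of a chart

Proof (helper41):
l y := inner x0 y / ‖x0‖^2 (linear, l x0 = 1).  sigma' p := (l (sigma p))⁻¹ • sigma p, analytic near 0, l (sigma' p) = 1, sigma' 0 = x0.  y in Xb near x0 with l y = 1 is sigma' p, p small
(openness), and tau (sigma' p) = p^k (the pair ((l sigma p)⁻¹, p) is near (1, 0)).  Choose R1 > 0 such that all eventual properties (tau, V, U, exp u, rotations for the finitely many zeta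
with zeta^k = 1, the bound, analyticity of sigma') hold for p in ball 0 R1, an open neighbourhood O1 ⊆ interior O of x0 on which tau is analytic and such that every y in Xb ∩ O1 is c • sigma p with
p in ball 0 R1 and tau y = p^k if l y = 1; then r > 0 with 3 r < R1 and sigma' (ball 0 (3r)) ⊆ O1.
s p := sigma' (r • p), q y := (r^k)⁻¹ • tau ((l y)⁻¹ • y) (componentwise), W := {y | l y ≠ 0, (l y)⁻¹ • y ∈ O1, ‖(q y).1‖ < 3^k, ‖(q y).2‖ < 3^k}, κ := r^(1+b).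
The bound: Lp ex p * cf (s) t p = (Lp ex (r p) * cf sigma' t (r p)) up to the factor r^2 / r^(1 or 2) (chain rule), and cf sigma' = (l sigma)⁻² ... : sigma' = c(p) • sigma p: cf alpha sigma' t p = cf alpha sigma t p
(TForm.scale, add_smul: fderiv (c • sigma) v = c • fderiv sigma v + (c' v) • sigma), see Frm.cf_change with tau = id.
W is open: l, tau, q are continuous there.  surj: y in Xb ∩ W: (l y)⁻¹ • y = sigma' p with p in ball 0 R1, p^k = tau(..), so ‖p.i‖ < 3 r, p = r • p'.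
-/

set_option autoImplicit false

open Topology Filter Metric Set

namespace Pool.Agent.EG.LE

attribute [-instance] ProperSMul.toContinuousSMul

open Pool.Agent.H36.BP (EN fs wd)
open Pool.Agent.H14.PP (IsCone Tan jac)
open Pool.Agent.H62.EF (MN pr)
open Pool.Agent.H62.EL (TForm)
open Pool.Agent.EG.RL (rot)

variable {N : ℕ} {Xb V U D : Set (EN N)} {Λ : AddSubgroup ℂ} {u : EN N → ℂ} {α : TForm V Λ u}

/-- the linear form with `l x₀ = 1` -/
private theorem Mk_lin {x₀ : EN N} (hx : x₀ ≠ 0) : ∃ l : EN N →L[ℂ] ℂ, l x₀ = 1 := by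
  refine ⟨((‖x₀‖ : ℂ) ^ 2)⁻¹ • innerSL ℂ x₀, ?_⟩
  rw [smul_apply, innerSL_apply_apply, inner_self_eq_norm_sq_to_K, smul_eq_mul]
  have h1 : (‖x₀‖ : ℂ) ^ 2 ≠ 0 := pow_ne_zero 2 (by exact_mod_cast norm_ne_zero_iff.mpr hx)
  exact inv_mul_cancel₀ h1

private theorem Mk_norm {l : EN N →L[ℂ] ℂ} {c : ℂ} (hc : c ≠ 0) (x : EN N) :
    (l (c • x))⁻¹ • (c • x) = (l x)⁻¹ • x := by
  rw [map_smul, smul_eq_mul, mul_inv, smul_smul, mul_comm c⁻¹, mul_assoc, inv_mul_cancel₀ hc, mul_one]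

private theorem Mk_rat {Xb V U D : Set (EN N)} {Λ : AddSubgroup ℂ} {u : EN N → ℂ} {α : TForm V Λ u}
    (h : EndData Xb V U D Λ u α) {x : EN N} (hx : x ∈ V) {c : ℂ} (hc : c ≠ 0) :
    Complex.exp (u (c • x)) = Complex.exp (u x) := by
  have h1 := (h.lat _).mp (h.u_smul x hx c hc)
  rw [Complex.exp_sub, div_eq_one_iff_eq (Complex.exp_ne_zero _)] at h1
  exact h1

private theorem Mk_jac (r : ℂ) (p : ℂ × ℂ) : jac (fun y : ℂ × ℂ => r • y) p = r ^ 2 := by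
  have h1 : fderiv ℂ (fun y : ℂ × ℂ => r • y) p = r • ContinuousLinearMap.id ℂ (ℂ × ℂ) :=
    (r • ContinuousLinearMap.id ℂ (ℂ × ℂ)).hasFDerivAt.fderiv
  rw [jac, h1]
  simp
  ring

private theorem Mk_rot (ζ r : ℂ) (p : ℂ × ℂ) : r • rot ζ p = rot ζ (r • p) := by
  refine Prod.ext ?_ ?_
  · change r * (ζ * p.1) = ζ * (r * p.1)
    ring
  · change r * (ζ⁻¹ * p.2) = ζ⁻¹ * (r * p.2)
    ring

theorem mk_ch (h : EndData Xb V U D Λ u α) {x₀ : EN N} (hx : x₀ ∈ D) {T : Typ} (hT : IsEndT Xb V U α T x₀) {O : Set (EN N)}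
    (hO : O ∈ 𝓝 x₀) : ∃ c : LCh Xb V U α, c.toTyp = T ∧ c.Pt {0} x₀ ∧ ∀ x ∈ c.W, ∃ a : ℂ, a ≠ 0 ∧ a • x ∈ O := by
  obtain ⟨σ, τ, hσ, hτ, hσ0, hτσ, hev, hopen, hrot, C, hC⟩ := hT
  have hx₀ : x₀ ≠ 0 := by
    rintro rfl
    exact h.cone.zero_notMem (h.D_sub hx)
  obtain ⟨l, hl⟩ := Mk_lin hx₀
  -- the normalised parametrization
  set σ' : ℂ × ℂ → EN N := fun p => (l (σ p))⁻¹ • σ p with hσ'
  have hlσ : AnalyticAt ℂ (fun p => l (σ p)) 0 := (l.analyticAt _).comp hσ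
  have hlσ0 : l (σ 0) = 1 := by rw [hσ0, hl]
  have hσ'0 : σ' 0 = x₀ := by
    change (l (σ 0))⁻¹ • σ 0 = x₀
    rw [hlσ0, inv_one, one_smul, hσ0]
  have e2 : ∀ᶠ p in 𝓝 (0 : ℂ × ℂ), l (σ p) ≠ 0 := by
    refine hlσ.continuousAt.eventually_ne ?_
    rw [hlσ0]
    exact one_ne_zero
  have e3 : ∀ᶠ p in 𝓝 (0 : ℂ × ℂ), τ (σ' p) = (p.1 ^ T.k, p.2 ^ T.k) := by
    have hc : ContinuousAt (fun p : ℂ × ℂ => ((l (σ p))⁻¹, p)) 0 := by
      refine (hlσ.continuousAt.inv₀ ?_).prodMk continuousAt_id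
      rw [hlσ0]
      exact one_ne_zero
    have hc0 : Tendsto (fun p : ℂ × ℂ => ((l (σ p))⁻¹, p)) (𝓝 0) (𝓝 ((1, 0) : ℂ × ℂ × ℂ)) := by
      have h1 : ((l (σ 0))⁻¹, (0 : ℂ × ℂ)) = ((1, 0) : ℂ × ℂ × ℂ) := by rw [hlσ0, inv_one]
      rw [← h1]
      exact hc
    exact hc0.eventually hτσ
  have e5 : ∀ᶠ p in 𝓝 (0 : ℂ × ℂ), ∀ ζ : ℂ, ζ ^ T.k = 1 → ∃ c : ℂ, c ≠ 0 ∧ σ (rot ζ p) = c • σ p := by
    have hfin : {ζ : ℂ | ζ ^ T.k = 1}.Finite := by
      have h1 : {ζ : ℂ | ζ ^ T.k = 1} ⊆ ((Polynomial.nthRoots T.k (1 : ℂ)).toFinset : Set ℂ) := by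
        intro ζ hζ
        rw [Finset.mem_coe, Multiset.mem_toFinset, Polynomial.mem_nthRoots T.k_pos]
        exact hζ
      exact (Finset.finite_toSet _).subset h1
    exact (hfin.eventually_all (p := fun ζ p => ∃ c : ℂ, c ≠ 0 ∧ σ (rot ζ p) = c • σ p)).mpr
      (fun ζ hζ => hrot ζ hζ)
  obtain ⟨R₁, hR₁, hgood⟩ := Metric.eventually_nhds_iff_ball.mp
    ((hσ.eventually_analyticAt.and e2).and ((e3.and hev).and (e5.and hC)))
  -- the neighbourhood
  have hOev : ∀ᶠ y in 𝓝 x₀, y ∈ O ∧ AnalyticAt ℂ τ y ∧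
      (y ∈ Xb → ∃ p ∈ ball (0 : ℂ × ℂ) R₁, ∃ c : ℂ, c ≠ 0 ∧ y = c • σ p) :=
    Filter.Eventually.and hO (hτ.eventually_analyticAt.and (hopen _ (ball_mem_nhds _ hR₁)))
  obtain ⟨O₁, hO₁s, hO₁o, hO₁x⟩ := _root_.mem_nhds_iff.mp hOev
  have hkey : ∀ y ∈ O₁, y ∈ Xb → l y = 1 → ∃ p ∈ ball (0 : ℂ × ℂ) R₁, y = σ' p := by
    intro y hy hyX hly
    obtain ⟨p, hp, c, hc, hyc⟩ := (hO₁s hy).2.2 hyX
    refine ⟨p, hp, ?_⟩
    have h1 := Mk_norm (l := l) hc (σ p)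
    rw [← hyc, hly, inv_one, one_smul] at h1
    exact h1
  have hσ'c : ContinuousAt σ' 0 := by
    refine (hlσ.continuousAt.inv₀ ?_).smul hσ.continuousAt
    rw [hlσ0]
    exact one_ne_zero
  obtain ⟨R₂, hR₂, hR₂s⟩ := Metric.eventually_nhds_iff_ball.mp
    (hσ'c.eventually (hO₁o.mem_nhds (by rw [hσ'0]; exact hO₁x)))
  obtain ⟨r, hr0, hr1, hr2⟩ : ∃ r : ℝ, 0 < r ∧ 3 * r ≤ R₁ ∧ 3 * r ≤ R₂ := by
    refine ⟨min R₁ R₂ / 3, by positivity, ?_, ?_⟩
    · have := min_le_left R₁ R₂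
      linarith
    · have := min_le_right R₁ R₂
      linarith
  have hrc : (r : ℂ) ≠ 0 := by exact_mod_cast hr0.ne'
  have hrk : ((r : ℂ) ^ T.k) ≠ 0 := pow_ne_zero _ hrc
  have hrn : ‖(r : ℂ)‖ = r := by rw [Complex.norm_real, Real.norm_of_nonneg hr0.le]
  have hball : ∀ p ∈ ball (0 : ℂ × ℂ) 3, ‖(r : ℂ) • p‖ < 3 * r := by
    intro p hp
    rw [mem_ball_zero_iff] at hp
    rw [norm_smul, hrn, mul_comm]
    exact mul_lt_mul_of_pos_right hp hr0
  have hb1 : ∀ p ∈ ball (0 : ℂ × ℂ) 3, (r : ℂ) • p ∈ ball (0 : ℂ × ℂ) R₁ := by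
    intro p hp
    rw [mem_ball_zero_iff]
    exact (hball p hp).trans_le hr1
  have hb2 : ∀ p ∈ ball (0 : ℂ × ℂ) 3, σ' ((r : ℂ) • p) ∈ O₁ := by
    intro p hp
    refine hR₂s _ ?_
    rw [mem_ball_zero_iff]
    exact (hball p hp).trans_le hr2
  have hσ'an : ∀ p ∈ ball (0 : ℂ × ℂ) R₁, AnalyticAt ℂ σ' p := by
    intro p hp
    obtain ⟨⟨g1, g2⟩, -⟩ := hgood p hp
    exact (((l.analyticAt _).comp g1).inv g2).smul g1
  have hsm : ∀ p : ℂ × ℂ, AnalyticAt ℂ (fun p : ℂ × ℂ => (r : ℂ) • p) p :=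
    fun p => ((r : ℂ) • ContinuousLinearMap.id ℂ (ℂ × ℂ)).analyticAt p
  set q : EN N → ℂ × ℂ := fun y => ((((r : ℂ) ^ T.k)⁻¹) • τ ((l y)⁻¹ • y)) with hq
  set W : Set (EN N) := {y | l y ≠ 0 ∧ (l y)⁻¹ • y ∈ O₁ ∧ ‖(q y).1‖ < 3 ^ T.k ∧ ‖(q y).2‖ < 3 ^ T.k} with hW
  have hnan : ∀ y, l y ≠ 0 → AnalyticAt ℂ (fun y => (l y)⁻¹ • y) y := by
    intro y hy
    exact ((l.analyticAt _).inv hy).smul analyticAt_id
  have hqan : ∀ y, l y ≠ 0 → (l y)⁻¹ • y ∈ O₁ → AnalyticAt ℂ q y := by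
    intro y hy hy1
    have h1 : AnalyticAt ℂ (fun y => τ ((l y)⁻¹ • y)) y :=
      AnalyticAt.comp (g := τ) (hO₁s hy1).2.1 (hnan y hy)
    exact AnalyticAt.comp (g := fun w : ℂ × ℂ => (((r : ℂ) ^ T.k)⁻¹) • w)
      (f := fun y => τ ((l y)⁻¹ • y))
      (((((r : ℂ) ^ T.k)⁻¹) • ContinuousLinearMap.id ℂ (ℂ × ℂ)).analyticAt _) h1
  have hqs : ∀ x, ∀ c : ℂ, c ≠ 0 → q (c • x) = q x := by
    intro x c hc
    change _ • τ ((l (c • x))⁻¹ • (c • x)) = _ • τ ((l x)⁻¹ • x)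
    rw [Mk_norm hc]
  have hls : ∀ p ∈ ball (0 : ℂ × ℂ) R₁, l (σ' p) = 1 := by
    intro p hp
    obtain ⟨⟨-, g2⟩, -⟩ := hgood p hp
    change l ((l (σ p))⁻¹ • σ p) = 1
    rw [map_smul, smul_eq_mul, inv_mul_cancel₀ g2]
  have hqσ : ∀ p ∈ ball (0 : ℂ × ℂ) R₁, q (σ' p) = (((r : ℂ) ^ T.k)⁻¹) • (p.1 ^ T.k, p.2 ^ T.k) := by
    intro p hp
    obtain ⟨-, ⟨g3, -⟩, -⟩ := hgood p hp
    change _ • τ ((l (σ' p))⁻¹ • σ' p) = _
    rw [hls p hp, inv_one, one_smul, g3]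
  have hqs' : ∀ p ∈ ball (0 : ℂ × ℂ) 3, q (σ' ((r : ℂ) • p)) = (p.1 ^ T.k, p.2 ^ T.k) := by
    intro p hp
    rw [hqσ _ (hb1 p hp)]
    refine Prod.ext ?_ ?_
    · change ((r : ℂ) ^ T.k)⁻¹ * ((r : ℂ) * p.1) ^ T.k = p.1 ^ T.k
      rw [mul_pow, inv_mul_cancel_left₀ hrk]
    · change ((r : ℂ) ^ T.k)⁻¹ * ((r : ℂ) * p.2) ^ T.k = p.2 ^ T.k
      rw [mul_pow, inv_mul_cancel_left₀ hrk]
  have hk0 : T.k ≠ 0 := by
    have := T.k_pos
    omega
  have hco : ∀ p ∈ ball (0 : ℂ × ℂ) 3, ‖p.1‖ < 3 ∧ ‖p.2‖ < 3 := by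
    intro p hp
    rw [mem_ball_zero_iff] at hp
    exact ⟨(norm_fst_le p).trans_lt hp, (norm_snd_le p).trans_lt hp⟩
  have hVs : ∀ x, ∀ c : ℂ, c ≠ 0 → (c • x ∈ V ↔ x ∈ V) := by
    intro x c hc
    refine ⟨fun hcx => ?_, fun hx => h.V_smul x hx c hc⟩
    have h1 := h.V_smul _ hcx c⁻¹ (inv_ne_zero hc)
    rwa [smul_smul, inv_mul_cancel₀ hc, one_smul] at h1
  have hUs : ∀ x, ∀ c : ℂ, c ≠ 0 → (c • x ∈ U ↔ x ∈ U) := by
    intro x c hc
    refine ⟨fun hcx => ?_, fun hx => h.U_smul x hx c hc⟩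
    have h1 := h.U_smul _ hcx c⁻¹ (inv_ne_zero hc)
    rwa [smul_smul, inv_mul_cancel₀ hc, one_smul] at h1
  have hr1ne : ∀ z : ℂ, (r : ℂ) * z ≠ 0 ↔ z ≠ 0 := by
    intro z
    rw [Ne, mul_eq_zero, not_or]
    exact ⟨fun h => h.2, fun h => ⟨hrc, h⟩⟩
  have hexp : ∀ p ∈ ball (0 : ℂ × ℂ) 3, σ ((r : ℂ) • p) ∈ V →
      Complex.exp (u (σ ((r : ℂ) • p))) = (r : ℂ) ^ (1 + T.b) * p.1 * p.2 ^ T.b := by
    intro p hp hpV
    obtain ⟨-, ⟨-, -, -, -, g4⟩, -⟩ := hgood _ (hb1 p hp)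
    rw [g4 hpV]
    change (r : ℂ) * p.1 * ((r : ℂ) * p.2) ^ T.b = _
    rw [mul_pow, pow_add, pow_one]
    ring
  let c : LCh Xb V U α :=
    { toTyp := T
      s := fun p => σ' ((r : ℂ) • p)
      q := q
      W := W
      κ := (r : ℂ) ^ (1 + T.b)
      κ_ne := pow_ne_zero _ hrc
      isOpen_W := by
        rw [isOpen_iff_mem_nhds]
        rintro y ⟨h1, h2, h3, h4⟩
        have c1 : ContinuousAt l y := l.continuous.continuousAt
        have c2 := (hnan y h1).continuousAt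
        have c3 := (hqan y h1 h2).continuousAt
        filter_upwards [c1.eventually_ne h1, c2.eventually (hO₁o.mem_nhds h2),
          (continuous_norm.continuousAt.comp (continuousAt_fst.comp c3)).eventually_lt
            continuousAt_const h3,
          (continuous_norm.continuousAt.comp (continuousAt_snd.comp c3)).eventually_lt
            continuousAt_const h4] with z z1 z2 z3 z4
        exact ⟨z1, z2, z3, z4⟩
      smul_W := by
        rintro x ⟨h1, h2, h3, h4⟩ c hc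
        refine ⟨?_, ?_, ?_, ?_⟩
        · rw [map_smul, smul_eq_mul]
          exact mul_ne_zero hc h1
        · rw [Mk_norm hc]
          exact h2
        · rw [hqs x c hc]
          exact h3
        · rw [hqs x c hc]
          exact h4
      q_an := fun x hx => hqan x hx.1 hx.2.1
      q_smul := fun x _ c hc => hqs x c hc
      s_an := by
        intro p hp
        exact AnalyticAt.comp (g := σ') (f := fun p : ℂ × ℂ => (r : ℂ) • p) (hσ'an _ (hb1 p hp))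
          (hsm p)
      s_mem := by
        intro p hp
        obtain ⟨⟨g1, g2⟩, ⟨g3, g4, -⟩, -⟩ := hgood _ (hb1 p hp)
        refine ⟨h.cone.smul_mem _ g4 _ (inv_ne_zero g2), ⟨?_, ?_, ?_, ?_⟩, hqs' p hp⟩
        · rw [hls _ (hb1 p hp)]
          exact one_ne_zero
        · rw [hls _ (hb1 p hp), inv_one, one_smul]
          exact hb2 p hp
        · rw [hqs' p hp]
          change ‖p.1 ^ T.k‖ < 3 ^ T.k
          rw [norm_pow]
          exact pow_lt_pow_left₀ (hco p hp).1 (norm_nonneg _) hk0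
        · rw [hqs' p hp]
          change ‖p.2 ^ T.k‖ < 3 ^ T.k
          rw [norm_pow]
          exact pow_lt_pow_left₀ (hco p hp).2 (norm_nonneg _) hk0
      s_V := by
        intro p hp
        obtain ⟨⟨g1, g2⟩, ⟨-, -, g4, -⟩, -⟩ := hgood _ (hb1 p hp)
        change (l (σ ((r : ℂ) • p)))⁻¹ • σ ((r : ℂ) • p) ∈ V ↔ _
        rw [hVs _ _ (inv_ne_zero g2), g4]
        change (r : ℂ) * p.1 ≠ 0 ∧ (T.ex = true → (r : ℂ) * p.2 ≠ 0) ↔ _
        rw [hr1ne, hr1ne]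
      s_U := by
        intro p hp
        obtain ⟨⟨g1, g2⟩, ⟨-, -, -, g4, -⟩, -⟩ := hgood _ (hb1 p hp)
        change (l (σ ((r : ℂ) • p)))⁻¹ • σ ((r : ℂ) • p) ∈ U ↔ _
        rw [hUs _ _ (inv_ne_zero g2), g4]
        change (r : ℂ) * p.1 ≠ 0 ∧ (T.eu = true → (r : ℂ) * p.2 ≠ 0) ↔ _
        rw [hr1ne, hr1ne]
      s_u := by
        intro p hp hpV
        obtain ⟨⟨g1, g2⟩, -⟩ := hgood _ (hb1 p hp)
        have hpV' : σ ((r : ℂ) • p) ∈ V := (hVs _ _ (inv_ne_zero g2)).mp hpV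
        change Complex.exp (u ((l (σ ((r : ℂ) • p)))⁻¹ • σ ((r : ℂ) • p))) = _
        rw [Mk_rat h hpV' (inv_ne_zero g2), hexp p hp hpV']
      surj := by
        rintro x hxX ⟨h1, h2, h3, h4⟩
        have hyX : (l x)⁻¹ • x ∈ Xb := h.cone.smul_mem _ hxX _ (inv_ne_zero h1)
        have hly : l ((l x)⁻¹ • x) = 1 := by rw [map_smul, smul_eq_mul, inv_mul_cancel₀ h1]
        obtain ⟨p, hp, hyp⟩ := hkey _ h2 hyX hly
        have hqx : q x = (((r : ℂ) ^ T.k)⁻¹) • (p.1 ^ T.k, p.2 ^ T.k) := by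
          rw [← hqσ p hp, ← hyp, hqs x _ (inv_ne_zero h1)]
        have hbd : ∀ z : ℂ, ‖((r : ℂ) ^ T.k)⁻¹ * z ^ T.k‖ < 3 ^ T.k → ‖(r : ℂ)⁻¹ * z‖ < 3 := by
          intro z hz
          rw [← inv_pow, ← mul_pow, norm_pow] at hz
          exact lt_of_pow_lt_pow_left₀ _ (by norm_num) hz
        refine ⟨(r : ℂ)⁻¹ • p, ?_, l x, h1, ?_⟩
        · rw [mem_ball_zero_iff, Prod.norm_def, max_lt_iff]
          rw [hqx] at h3 h4
          exact ⟨hbd _ h3, hbd _ h4⟩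
        · have h5 : (r : ℂ) • ((r : ℂ)⁻¹ • p) = p := by
            rw [smul_smul, mul_inv_cancel₀ hrc, one_smul]
          change x = l x • σ' ((r : ℂ) • ((r : ℂ)⁻¹ • p))
          rw [h5, ← hyp, smul_smul, mul_inv_cancel₀ h1, one_smul]
      s_rot := by
        intro ζ hζ p hp
        obtain ⟨-, -, g5, -⟩ := hgood _ (hb1 p hp)
        obtain ⟨c, hc, hcs⟩ := g5 ζ hζ
        refine ⟨1, one_ne_zero, ?_⟩
        change (l (σ ((r : ℂ) • rot ζ p)))⁻¹ • σ ((r : ℂ) • rot ζ p) = (1 : ℂ) • σ' ((r : ℂ) • p)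
        rw [Mk_rot, hcs, Mk_norm hc, one_smul]
      bd := by
        refine ⟨|C| * (1 + r), ?_⟩
        intro p hp hL t ht
        have hLr : Lp T.ex ((r : ℂ) • p) = (if T.ex = true then (r : ℂ) ^ 2 else r) * Lp T.ex p := by
          by_cases hex : T.ex = true
          · rw [Lp, Lp, if_pos hex, if_pos hex, if_pos hex]
            change (r : ℂ) * p.1 * ((r : ℂ) * p.2) = _
            ring
          · rw [Lp, Lp, if_neg hex, if_neg hex, if_neg hex]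
            change (r : ℂ) * p.1 * 1 = _
            ring
        have hLr0 : Lp T.ex ((r : ℂ) • p) ≠ 0 := by
          rw [hLr]
          refine mul_ne_zero ?_ hL
          split_ifs
          · exact pow_ne_zero 2 hrc
          · exact hrc
        have hLV : ∀ y : ℂ × ℂ, Lp T.ex y ≠ 0 → y.1 ≠ 0 ∧ (T.ex = true → y.2 ≠ 0) := by
          intro y hy
          rw [Lp] at hy
          refine ⟨left_ne_zero_of_mul hy, fun hex => ?_⟩
          have := right_ne_zero_of_mul hy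
          rwa [if_pos hex] at this
        obtain ⟨⟨g1, g2⟩, ⟨-, -, g4, -⟩, -, g6⟩ := hgood _ (hb1 p hp)
        have hpV : σ ((r : ℂ) • p) ∈ V := g4.mpr (hLV _ hLr0)
        have hLc : Continuous (fun y : ℂ × ℂ => Lp T.ex y) := by
          by_cases hex : T.ex = true
          · simp only [Lp, if_pos hex]
            exact continuous_fst.mul continuous_snd
          · simp only [Lp, if_neg hex]
            exact continuous_fst.mul continuous_const
        have hVe : ∀ᶠ y in 𝓝 ((r : ℂ) • p), σ y ∈ V := by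
          filter_upwards [isOpen_ball.mem_nhds (hb1 p hp),
            hLc.continuousAt.eventually_ne hLr0] with y hy1 hy2
          obtain ⟨-, ⟨-, -, g4', -⟩, -⟩ := hgood y hy1
          exact g4'.mpr (hLV y hy2)
        have h0V : (0 : EN N) ∉ V := fun h0 => h.cone.zero_notMem (h.V_sub h0)
        have hut : u (σ ((r : ℂ) • p)) - t ∈ Λ := by
          rw [h.lat, Complex.exp_sub, hexp p hp hpV, ht, div_self]
          rw [← ht]
          exact Complex.exp_ne_zero t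
        have hch := cf_change (α := α) (φ := fun p => σ' ((r : ℂ) • p)) (ψ := σ)
          (τ := fun y => (r : ℂ) • y) (p := p) (t := t) h0V h.V_smul
          (AnalyticAt.comp (g := σ') (f := fun p : ℂ × ℂ => (r : ℂ) • p) (hσ'an _ (hb1 p hp))
            (hsm p)) g1 (hsm p) hVe hut (by
            filter_upwards [isOpen_ball.mem_nhds hp] with y hy
            obtain ⟨⟨-, g2'⟩, -⟩ := hgood _ (hb1 y hy)
            exact ⟨_, inv_ne_zero g2', rfl⟩)
        rw [hch, Mk_jac]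
        have hexpt : Complex.exp t = ((r : ℂ) • p).1 * ((r : ℂ) • p).2 ^ T.b := by
          rw [ht]
          change _ = (r : ℂ) * p.1 * ((r : ℂ) * p.2) ^ T.b
          rw [mul_pow, pow_add, pow_one]
          ring
        have hb := g6 hLr0 t hexpt
        rw [hLr] at hb
        have hC0 : 0 ≤ |C| := abs_nonneg C
        have hb' := hb.trans (le_abs_self C)
        by_cases hex : T.ex = true
        · rw [if_pos hex] at hb'
          have e1 : Lp T.ex p * (cf α σ t ((r : ℂ) • p) * (r : ℂ) ^ 2)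
              = (r : ℂ) ^ 2 * Lp T.ex p * cf α σ t ((r : ℂ) • p) := by ring
          rw [e1]
          nlinarith
        · rw [if_neg hex] at hb'
          have e1 : Lp T.ex p * (cf α σ t ((r : ℂ) • p) * (r : ℂ) ^ 2)
              = ((r : ℂ) * Lp T.ex p * cf α σ t ((r : ℂ) • p)) * r := by ring
          rw [e1, norm_mul, hrn]
          nlinarith [norm_nonneg ((r : ℂ) * Lp T.ex p * cf α σ t ((r : ℂ) • p))] }
  refine ⟨c, rfl, ⟨0, rfl, 1, one_ne_zero, ?_⟩, fun x hx => ⟨(l x)⁻¹, inv_ne_zero hx.1, (hO₁s hx.2.1).1⟩⟩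
  change x₀ = (1 : ℂ) • σ' ((r : ℂ) • (0 : ℂ × ℂ))
  rw [smul_zero, one_smul, hσ'0]

end Pool.Agent.EG.LE

end

section

/-!
# EG LE ModA: the atlas of a family, properties of one chart

Proof (helper41):
atl_inj: pr (sS x p) = pr (sS x q) gives sS x q = a • sS x p (pr determines the line, both ≠ 0); fib for swp p, swp q: swp q = rot zeta (swp p); exchange back: q = rot zeta⁻¹ p if sw = true.
atl_rot: s_rot for swp p (with zeta⁻¹ if sw = true): pr equal.  The coefficient: near p, sS x (rot zeta p') = c(p') • sS x p' (p' near p); cf_change with phi = fun p' => sS x (rot zeta p'),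
psi = sS x, tau = id: cf phi t p = cf (sS x) t p; and cf_change with psi = sS x, tau = rot zeta (equality phi p' = 1 • psi (tau p')), jac (rot zeta) = 1: cf phi t p = cf (sS x) t (rot zeta p).
Lp ex (rot zeta p) = Lp ex p if ex = true; if ex = false then b = 0, k = 1, zeta = 1.
atl_gan: TForm.analytic with phi = sS x, upsilon = t: near p the points sS x q are in V (Lp ≠ 0 is open), exp (u (sS x q)) = u x q = exp (t q) (sS_u), so u (sS x q) - t q in Lambda (lat).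
atl_bd: LCh.bd; for sw = true: cf (sS x) t p = - cf s t p.swap (cf_change with tau = swap, jac = -1), Lp true p = Lp true p.swap.
atl_sw: the exchanged chart: sS (i, true) p = sS (i, false) p.swap.
-/

set_option autoImplicit false

open Topology Filter Metric Set

namespace Pool.Agent.EG.LE

attribute [-instance] ProperSMul.toContinuousSMul

open Pool.Agent.H36.BP (EN fs wd)
open Pool.Agent.H14.PP (IsCone Tan jac)
open Pool.Agent.H62.EF (MN pr)
open Pool.Agent.H62.EL (TForm)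
open Pool.Agent.EG.RL (rot)

variable {N : ℕ} {Xb V U D : Set (EN N)} {Λ : AddSubgroup ℂ} {u : EN N → ℂ} {α : TForm V Λ u} {κ : Type}

private theorem ModA_zero (h : EndData Xb V U D Λ u α) : (0 : EN N) ∉ V := fun h0 => h.cone.zero_notMem (h.V_sub h0)

private theorem ModA_norm {ζ : ℂ} {k : ℕ} (hk : 1 ≤ k) (hζ : ζ ^ k = 1) : ‖ζ‖ = 1 :=
  Complex.norm_eq_one_of_pow_eq_one hζ (by omega)

private theorem ModA_rot_ball {ζ : ℂ} (h1 : ‖ζ‖ = 1) {p : ℂ × ℂ} {r : ℝ} (hp : p ∈ ball (0 : ℂ × ℂ) r) : rot ζ p ∈ ball (0 : ℂ × ℂ) r := by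
  rw [mem_ball_zero_iff, Prod.norm_def] at hp ⊢
  unfold rot
  simp only [norm_mul, norm_inv, h1, inv_one, one_mul]
  exact hp

private theorem ModA_ball {p : ℂ × ℂ} (hp : p ∈ ball (0 : ℂ × ℂ) 2) : p ∈ ball (0 : ℂ × ℂ) 3 :=
  ball_subset_ball (by norm_num) hp

private theorem ModA_swp_rot (sw : Bool) (ζ : ℂ) (p : ℂ × ℂ) :
    swp sw (rot ζ p) = rot (if sw = true then ζ⁻¹ else ζ) (swp sw p) := by
  unfold swp rot
  split_ifs
  · simp
  · rfl

private theorem ModA_swp_swp (sw : Bool) (p : ℂ × ℂ) : swp sw (swp sw p) = p := by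
  unfold swp
  split_ifs
  · simp
  · rfl

private theorem ModA_pow {sw : Bool} {ζ : ℂ} {k : ℕ} (hζ : ζ ^ k = 1) : (if sw = true then ζ⁻¹ else ζ) ^ k = 1 := by
  split_ifs
  · rw [inv_pow, hζ, inv_one]
  · exact hζ

private theorem ModA_swp_an (sw : Bool) (p : ℂ × ℂ) : AnalyticAt ℂ (swp sw) p := by
  unfold swp
  split_ifs
  · exact analyticAt_snd.prod analyticAt_fst
  · exact analyticAt_id

private theorem ModA_an (F : LFam Xb V U D α κ) (x : Ix F) {p : ℂ × ℂ} (hp : p ∈ ball (0 : ℂ × ℂ) 3) : AnalyticAt ℂ (F.sS x) p := by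
  have h1 := (F.ch x).s_an _ (swp_ball x.1.2 hp)
  exact h1.fun_comp (ModA_swp_an x.1.2 p)

private theorem ModA_Lp_an (e : Bool) (p : ℂ × ℂ) : AnalyticAt ℂ (Lp e) p := by
  unfold Lp
  split_ifs
  · exact analyticAt_fst.mul analyticAt_snd
  · exact analyticAt_fst.mul analyticAt_const

private theorem ModA_near (F : LFam Xb V U D α κ) (x : Ix F) {p : ℂ × ℂ} (hp : p ∈ ball (0 : ℂ × ℂ) 3) (hL : Lp (F.ch x).ex p ≠ 0) :
    ∀ᶠ y in 𝓝 p, y ∈ ball (0 : ℂ × ℂ) 3 ∧ Lp (F.ch x).ex y ≠ 0 := by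
  filter_upwards [isOpen_ball.mem_nhds hp, (ModA_Lp_an (F.ch x).ex p).continuousAt.eventually_ne hL] with y h1 h2
  exact ⟨h1, h2⟩

private theorem ModA_V (F : LFam Xb V U D α κ) (x : Ix F) {p : ℂ × ℂ} (hp : p ∈ ball (0 : ℂ × ℂ) 3) (hL : Lp (F.ch x).ex p ≠ 0) :
    ∀ᶠ y in 𝓝 p, F.sS x y ∈ V := by
  filter_upwards [ModA_near F x hp hL] with y hy
  exact (sS_V F x hy.1).2 hy.2

private theorem ModA_lat (h : EndData Xb V U D Λ u α) (F : LFam Xb V U D α κ) (x : Ix F) {p : ℂ × ℂ} (hp : p ∈ ball (0 : ℂ × ℂ) 3)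
    (hL : Lp (F.ch x).ex p ≠ 0) {t : ℂ} (ht : Complex.exp t = F.atl.u x p) : u (F.sS x p) - t ∈ Λ := by
  rw [h.lat, Complex.exp_sub, sS_u F x hp ((sS_V F x hp).2 hL), ht, div_self]
  rw [← ht]
  exact Complex.exp_ne_zero t

private theorem ModA_jac_swap (p : ℂ × ℂ) : jac Prod.swap p = -1 := by
  have h1 : HasFDerivAt (Prod.swap : ℂ × ℂ → ℂ × ℂ)
      ((ContinuousLinearMap.snd ℂ ℂ ℂ).prod (ContinuousLinearMap.fst ℂ ℂ ℂ)) p :=
    (hasFDerivAt_snd (𝕜 := ℂ) (p := p)).prodMk (hasFDerivAt_fst (𝕜 := ℂ) (p := p))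
  unfold jac
  rw [h1.fderiv]
  simp

private theorem ModA_jac_id (p : ℂ × ℂ) : jac (fun q => q) p = 1 := by
  unfold jac
  rw [fderiv_fun_id]
  simp

private theorem ModA_jac_rot {ζ : ℂ} (hζ : ζ ≠ 0) (p : ℂ × ℂ) : jac (rot ζ) p = 1 := by
  have h1 : HasFDerivAt (rot ζ)
      ((ζ • ContinuousLinearMap.fst ℂ ℂ ℂ).prod (ζ⁻¹ • ContinuousLinearMap.snd ℂ ℂ ℂ)) p :=
    ((hasFDerivAt_fst (𝕜 := ℂ) (p := p)).const_mul ζ).prodMk ((hasFDerivAt_snd (𝕜 := ℂ) (p := p)).const_mul ζ⁻¹)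
  unfold jac
  rw [h1.fderiv]
  simp [hζ]

private theorem ModA_rot_an (ζ : ℂ) (p : ℂ × ℂ) : AnalyticAt ℂ (rot ζ) p :=
  (analyticAt_const.mul analyticAt_fst).prod (analyticAt_const.mul analyticAt_snd)

private theorem ModA_swap_an (p : ℂ × ℂ) : AnalyticAt ℂ (Prod.swap : ℂ × ℂ → ℂ × ℂ) p :=
  analyticAt_snd.prod analyticAt_fst

private theorem ModA_cf_swap (h : EndData Xb V U D Λ u α) {φ ψ : ℂ × ℂ → EN N} {p : ℂ × ℂ} {t : ℂ} (hφ : AnalyticAt ℂ φ p)
    (hψ : AnalyticAt ℂ ψ p.swap) (hV : ∀ᶠ y in 𝓝 p.swap, ψ y ∈ V) (hu : u (ψ p.swap) - t ∈ Λ) (he : ∀ y, φ y = ψ y.swap) :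
    cf α φ t p = -cf α ψ t p.swap := by
  have h1 := cf_change (α := α) (ModA_zero h) h.V_smul hφ hψ (ModA_swap_an p) hV hu
    (Eventually.of_forall fun y => ⟨1, one_ne_zero, by rw [one_smul, he]⟩)
  rw [h1, ModA_jac_swap, mul_neg, mul_one]

private theorem ModA_Lp_swap {e : Bool} (he : e = true) (p : ℂ × ℂ) : Lp e p.swap = Lp e p := by
  unfold Lp
  rw [if_pos he, if_pos he, Prod.fst_swap, Prod.snd_swap, mul_comm]

private theorem ModA_u_swap {F : LFam Xb V U D α κ} {x : Ix F} (hb : (F.ch x).b = 1) (p : ℂ × ℂ) :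
    F.atl.u x p.swap = F.atl.u x p := by
  rw [atl_u, atl_u, hb, pow_one, pow_one, Prod.fst_swap, Prod.snd_swap]
  ring

private theorem ModA_swap_ball {p : ℂ × ℂ} {r : ℝ} (hp : p ∈ ball (0 : ℂ × ℂ) r) : p.swap ∈ ball (0 : ℂ × ℂ) r :=
  swp_ball true hp

theorem atl_inj (h : EndData Xb V U D Λ u α) (F : LFam Xb V U D α κ) (x : Ix F) {p q : ℂ × ℂ} (hp : p ∈ ball (0 : ℂ × ℂ) 2)
    (hq : q ∈ ball (0 : ℂ × ℂ) 2) (he : F.atl.s x p = F.atl.s x q) : ∃ ζ : ℂ, ζ ^ (F.ch x).k = 1 ∧ q = rot ζ p := by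
  have hp' := swp_ball x.1.2 (ModA_ball hp)
  have hq' := swp_ball x.1.2 (ModA_ball hq)
  have h1 : pr ((F.ch x).s (swp x.1.2 q)) = pr ((F.ch x).s (swp x.1.2 p)) := he.symm
  obtain ⟨c, hc, hcc⟩ := (Pool.Agent.H62.EF.pr_eq_iff (s_ne h (F.ch x) hq') (s_ne h (F.ch x) hp')).1 h1
  obtain ⟨ζ, hζ, h2⟩ := fib h (F.ch x) hq' hp' hc hcc
  refine ⟨if x.1.2 = true then ζ⁻¹ else ζ, ModA_pow hζ, ?_⟩
  have h3 : q = swp x.1.2 (rot ζ (swp x.1.2 p)) := by rw [← h2, ModA_swp_swp]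
  rw [h3, ModA_swp_rot, ModA_swp_swp]

theorem atl_rot (h : EndData Xb V U D Λ u α) (F : LFam Xb V U D α κ) (x : Ix F) {ζ : ℂ} (hζ : ζ ^ (F.ch x).k = 1) {p : ℂ × ℂ}
    (hp : p ∈ ball (0 : ℂ × ℂ) 2) (hL : F.atl.L x p ≠ 0) :
    F.atl.s x (rot ζ p) = F.atl.s x p ∧ ∀ t, Complex.exp t = F.atl.u x p → F.atl.g x t (rot ζ p) = F.atl.g x t p := by
  have hL' : Lp (F.ch x).ex p ≠ 0 := hL
  have hn := ModA_norm (F.ch x).k_pos hζ
  have hζ0 : ζ ≠ 0 := by
    intro h0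
    rw [h0, norm_zero] at hn
    exact zero_ne_one hn
  have hp3 := ModA_ball hp
  have hr3 := ModA_rot_ball hn hp3
  have hrot : ∀ y ∈ ball (0 : ℂ × ℂ) 3, ∃ c : ℂ, c ≠ 0 ∧ F.sS x (rot ζ y) = c • F.sS x y := by
    intro y hy
    obtain ⟨c, hc, hcc⟩ := (F.ch x).s_rot _ (ModA_pow (sw := x.1.2) hζ) _ (swp_ball x.1.2 hy)
    refine ⟨c, hc, ?_⟩
    unfold LFam.sS
    rw [ModA_swp_rot, hcc]
  constructor
  · obtain ⟨c, hc, hcc⟩ := hrot p hp3
    show pr (F.sS x (rot ζ p)) = pr (F.sS x p)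
    rw [hcc, Pool.Agent.H62.EF.pr_smul _ hc]
  intro t ht
  rcases (F.ch x).k_eq with hk | hb
  · have hk' : (F.ch x).k = 1 := hk
    rw [hk', pow_one] at hζ
    subst hζ
    have h1 : rot 1 p = p := by
      unfold rot
      simp
    rw [h1]
  have hb' : (F.ch x).b = 1 := hb
  have hex : (F.ch x).ex = true := (F.ch x).b_ex hb'
  have hLr : Lp (F.ch x).ex (rot ζ p) = Lp (F.ch x).ex p := by
    unfold Lp rot
    rw [if_pos hex, if_pos hex]
    field_simp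
  have hur : F.atl.u x (rot ζ p) = F.atl.u x p := by
    rw [atl_u, atl_u, hb', pow_one, pow_one]
    unfold rot
    field_simp
  have hLr' : Lp (F.ch x).ex (rot ζ p) ≠ 0 := by rw [hLr]; exact hL'
  have hφ : AnalyticAt ℂ (fun y => F.sS x (rot ζ y)) p := (ModA_an F x hr3).fun_comp (ModA_rot_an ζ p)
  have h1 := cf_change (α := α) (φ := fun y => F.sS x (rot ζ y)) (ψ := F.sS x) (τ := fun q => q) (p := p) (t := t)
    (ModA_zero h) h.V_smul hφ (ModA_an F x hp3) analyticAt_id (ModA_V F x hp3 hL') (ModA_lat h F x hp3 hL' ht)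
    (by
      filter_upwards [isOpen_ball.mem_nhds hp3] with y hy
      exact hrot y hy)
  have h2 := cf_change (α := α) (φ := fun y => F.sS x (rot ζ y)) (ψ := F.sS x) (τ := rot ζ) (p := p) (t := t)
    (ModA_zero h) h.V_smul hφ (ModA_an F x hr3) (ModA_rot_an ζ p) (ModA_V F x hr3 hLr')
    (ModA_lat h F x hr3 hLr' (by rw [ht, hur]))
    (Eventually.of_forall fun y => ⟨1, one_ne_zero, by rw [one_smul]⟩)
  rw [ModA_jac_id, mul_one] at h1
  rw [ModA_jac_rot hζ0, mul_one] at h2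
  show Lp (F.ch x).ex (rot ζ p) * cf α (F.sS x) t (rot ζ p) = Lp (F.ch x).ex p * cf α (F.sS x) t p
  rw [hLr, ← h2, h1]

theorem atl_gan (h : EndData Xb V U D Λ u α) (F : LFam Xb V U D α κ) (x : Ix F) {p : ℂ × ℂ} (hp : p ∈ ball (0 : ℂ × ℂ) 2)
    (hL : F.atl.L x p ≠ 0) {t : ℂ × ℂ → ℂ} (ht : AnalyticAt ℂ t p) (he : ∀ᶠ q in 𝓝 p, Complex.exp (t q) = F.atl.u x q) :
    AnalyticAt ℂ (fun q => F.atl.g x (t q) q) p := by
  have hL' : Lp (F.ch x).ex p ≠ 0 := hL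
  have hp3 := ModA_ball hp
  have h1 := α.analytic (F.sS x) t p (ModA_an F x hp3) ht (by
    filter_upwards [ModA_near F x hp3 hL', he] with y hy hy'
    exact ⟨(sS_V F x hy.1).2 hy.2, ModA_lat h F x hy.1 hy.2 hy'⟩)
  exact (ModA_Lp_an (F.ch x).ex p).mul h1

theorem atl_bd (h : EndData Xb V U D Λ u α) (F : LFam Xb V U D α κ) (x : Ix F) :
    ∃ C : ℝ, ∀ p ∈ ball (0 : ℂ × ℂ) 2, F.atl.L x p ≠ 0 → ∀ t, Complex.exp t = F.atl.u x p → ‖F.atl.g x t p‖ ≤ C := by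
  obtain ⟨C, hC⟩ := (F.ch x).bd
  refine ⟨C, fun p hp hL t ht => ?_⟩
  have hL' : Lp (F.ch x).ex p ≠ 0 := hL
  have hp3 := ModA_ball hp
  show ‖Lp (F.ch x).ex p * cf α (F.sS x) t p‖ ≤ C
  by_cases hs : x.1.2 = true
  · have hb : (F.ch x).b = 1 := x.2 hs
    have hex : (F.ch x).ex = true := (F.ch x).b_ex hb
    have hsS : ∀ y, F.sS x y = (F.ch x).s y.swap := by
      intro y
      unfold LFam.sS swp
      rw [if_pos hs]
    have hps := ModA_swap_ball hp3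
    have hLs : Lp (F.ch x).ex p.swap ≠ 0 := by rw [ModA_Lp_swap hex]; exact hL'
    have hus : Complex.exp t = (F.ch x).κ * p.swap.1 * p.swap.2 ^ (F.ch x).b := by
      rw [← atl_u, ModA_u_swap hb, ht]
    have h1 : cf α (F.sS x) t p = -cf α (F.ch x).s t p.swap := by
      refine ModA_cf_swap h (ModA_an F x hp3) ((F.ch x).s_an _ hps) ?_ ?_ hsS
      · filter_upwards [ModA_near F x hps hLs] with y hy
        have hy2 := hy.2
        unfold Lp at hy2
        rw [if_pos hex, mul_ne_zero_iff] at hy2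
        exact ((F.ch x).s_V y hy.1).2 ⟨hy2.1, fun _ => hy2.2⟩
      · rw [← hsS]
        exact ModA_lat h F x hp3 hL' ht
    rw [h1, mul_neg, norm_neg, ← ModA_Lp_swap hex]
    exact hC _ hps hLs t hus
  · have hsS : F.sS x = (F.ch x).s := by
      funext y
      unfold LFam.sS swp
      rw [if_neg hs]
    rw [hsS]
    exact hC p hp3 hL' t (by rw [← atl_u, ht])

theorem atl_sw (h : EndData Xb V U D Λ u α) (F : LFam Xb V U D α κ) {x y : Ix F} (hxy : x.1.1 = y.1.1) (hne : x.1.2 ≠ y.1.2) :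
    F.atl.Sw x y := by
  have hc : F.ch x = F.ch y := by
    unfold LFam.ch
    rw [hxy]
  have hb : (F.ch x).b = 1 := by
    by_cases hs : x.1.2 = true
    · exact x.2 hs
    · have hs' : y.1.2 = true := by
        revert hne hs
        cases x.1.2 <;> cases y.1.2 <;> simp
      rw [hc]
      exact y.2 hs'
  have hex : (F.ch x).ex = true := (F.ch x).b_ex hb
  have hex' : (F.ch y).ex = true := by rw [← hc]; exact hex
  have hb' : (F.ch y).b = 1 := by rw [← hc]; exact hb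
  have hsS : ∀ p, F.sS y p = F.sS x p.swap := by
    intro p
    unfold LFam.sS swp
    rw [hc]
    revert hne
    cases x.1.2 <;> cases y.1.2 <;> simp
  refine ⟨hex, hex', ?_, ?_, ?_, ?_, ?_⟩
  · show (1 : ℤ) ≤ ((F.ch x).b : ℤ)
    rw [hb]
    norm_num
  · show ((1 : ℕ) : ℤ) = ((F.ch x).b : ℤ)
    rw [hb]
  · show ((F.ch y).b : ℤ) = ((1 : ℕ) : ℤ)
    rw [hb']
  · show (F.ch y).κ = (F.ch x).κ
    rw [hc]
  intro p hp hL
  have hL' : Lp (F.ch y).ex p ≠ 0 := hL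
  have hp3 := ModA_ball hp
  have hps := ModA_swap_ball hp3
  have hLs : Lp (F.ch x).ex p.swap ≠ 0 := by
    rw [ModA_Lp_swap hex, hc]
    exact hL'
  refine ⟨?_, fun t ht => ?_⟩
  · show pr (F.sS y p) = pr (F.sS x p.swap)
    rw [hsS]
  · have hu' : Complex.exp t = F.atl.u x p.swap := by
      rw [ModA_u_swap hb, ht, atl_u, atl_u, hc]
    have h1 := ModA_cf_swap h (ModA_an F y hp3) (ModA_an F x hps) (ModA_V F x hps hLs) (ModA_lat h F x hps hLs hu') hsS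
    show Lp (F.ch y).ex p * cf α (F.sS y) t p = -(Lp (F.ch x).ex p.swap * cf α (F.sS x) t p.swap)
    rw [h1, ModA_Lp_swap hex, hc, mul_neg]

end Pool.Agent.EG.LE

end

section

/-!
# EG LE ModB: changes of charts

Proof (helper41): for x, y with x.1.1 ≠ y.1.1 (write i, j for the two charts, kappa_i etc.).  Let p, q be central, pr (sS x p) = pr (sS y q), Lp ≠ 0 for both, ‖u x p‖ < rho.
eps0: pt_close for the chart i with epsilon = 1/64, radius 1 (closedBall 0 1 contains swp p, p central): delta_i.  eta <= 1/4 such that ‖x' - q'‖ < 2 eta, x', q' in closedBall 0 2 imply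
dist (pr (s_j x')) (pr (s_j q')) < delta_i (uniform continuity on the compact set closedBall 0 2) for all i, j (finitely many; eta := minimum), and eta <= 1 / 64.
exp u agrees: u x p = u y q =: v (both sides exp u of points of V on the same line: sS_u, u_smul, lat).
If ex_i = true then ‖p.2‖ ≥ 1/2: otherwise ‖p.1‖, ‖p.2‖ ≤ 1/2 and sep says s_i (swp p) is not in W_j, but it is a multiple of s_j (swp q) in W_j (smul_W).  In the same way ‖q.2‖ ≥ 1/2 if ex_j = true.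
‖q.1‖ ≤ eta / 4: ‖v‖ = ‖kappa_j‖ ‖q.1‖ ‖q.2‖^b_j < rho, b_j = 1 implies ex_j = true; so rho := min over i of (min 1 ‖kappa_i‖) * eta / 8 is small enough (also rho <= ‖kappa_i‖).
tau: write sw for the exchange flag of x, k = k_i, b = b_i, and (Q1, Q2)(x') := swp (q_i (sS y x')), so for x' near q: sS y x' in W_i and Q2 (x') = (second coordinate)^k.
 ex_i = true: T2 x' := p.2 * exp (log (Q2 x' / p.2 ^ k) / k), T1 x' := kappa_j x'.1 x'.2^b_j / (kappa_i T2 x' ^ b); ex_i = false (k = 1, b = 0, sw = false): T2 := Q2, T1 := kappa_j x'.1 x'.2^b_j / kappa_i.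
 tau := (T1, T2).  For x' in ball q eta: by pt_close (for the point swp p, X = sS y x', dist small) sS y x' = a • s_i p'', ‖p'' - swp p‖ ≤ 1/64 (if p'' is near swp p: Q2 x' = (second coordinate of swp p'')^k
 is near p.2^k: Q2 / p.2^k = (1 + small)^k with ‖small‖ ≤ 1/32, so the k-th root chosen by log is the second coordinate of swp p'' itself: log ((1+s)^k) = k log (1+s) requires care: (1+s)^k may wind; use instead
 continuity: both x' ↦ T2 x' and x' ↦ (second coordinate of swp p'') ... simpler: define T2 x' := p.2 * (1 + S x') where S is obtained by the local inverse: the map s ↦ (1+s)^k is injective on ‖s‖ ≤ 1/(4k)?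
 Choose therefore epsilon = 1 / (64 k_i) in pt_close: then ‖s‖ ≤ 1 / (32 k), ‖k log (1 + s)‖ ≤ 1/16 < pi, so log ((1+s)^k) = k log (1+s) and T2 x' = p.2 (1 + s) is the second coordinate of swp p''.)
 Then T1 x' is the first coordinate of swp p'' if x'.1 ≠ 0 (exp u: kappa_i p''.1 p''.2^b = kappa_j x'.1 x'.2^b_j; all points in V because Lp (x') ≠ 0: x'.1 ≠ 0 and ‖x'.2‖ ≥ 1/2 - eta if ex_j = true) and in general
 ‖T1 x'‖ ≤ small (‖x'.1‖ ≤ 2 eta), so tau x' in ball p (1/4); analytic: q_i, sS y analytic, log on the slit plane (Q2 / p.2^k near 1).  tau q = p: p'' for x' = q can be taken = swp p up to rot; T2 q = p.2 because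
 Q2 q = p.2^k, log 1 = 0; T1 q = v / (kappa_i p.2^b) = p.1.
 M.s: pr (sS y x') = pr (sS x (tau x')).  u: by definition of T1 (b = 0 or 1).  g: cf_change with phi = sS y, psi = sS x, tau at x' (the equality up to scalars holds near x' because x'.1 ≠ 0 is open).
-/

set_option autoImplicit false

open Topology Filter Metric Set

namespace Pool.Agent.EG.LE

attribute [-instance] ProperSMul.toContinuousSMul

open Pool.Agent.H36.BP (EN fs wd)
open Pool.Agent.H14.PP (IsCone Tan jac)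
open Pool.Agent.H62.EF (MN pr)
open Pool.Agent.H62.EL (TForm)
open Pool.Agent.EG.RL (rot Cen)

variable {N : ℕ} {Xb V U D : Set (EN N)} {Λ : AddSubgroup ℂ} {u : EN N → ℂ} {α : TForm V Λ u} {κ : Type}

/-- the root of order `k` near `a` -/
private theorem ModB_root {k : ℕ} (hk : 1 ≤ k) {a P : ℂ} (ha : 1 / 2 ≤ ‖a‖) (hP : ‖P - a‖ ≤ 1 / (64 * (k : ℝ))) :
    P ^ k / a ^ k ∈ Complex.slitPlane ∧ a * Complex.exp (Complex.log (P ^ k / a ^ k) / k) = P := by
  have hk0 : (0 : ℝ) < k := by exact_mod_cast hk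
  have hk0' : (k : ℂ) ≠ 0 := by exact_mod_cast (by omega : k ≠ 0)
  have hk1 : (1 : ℝ) ≤ k := by exact_mod_cast hk
  have ha0 : a ≠ 0 := norm_pos_iff.1 (by linarith)
  obtain ⟨s, hs⟩ : ∃ s : ℂ, s = (P - a) / a := ⟨_, rfl⟩
  have hPs : P = a * (1 + s) := by
    rw [hs, mul_add, mul_div_cancel₀ _ ha0]
    ring
  have hsn : ‖s‖ ≤ 1 / (32 * (k : ℝ)) := by
    rw [hs, norm_div, div_le_iff₀ (by linarith)]
    calc ‖P - a‖ ≤ 1 / (64 * (k : ℝ)) := hP
      _ = 1 / (32 * (k : ℝ)) * (1 / 2) := by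
          field_simp
          norm_num
      _ ≤ 1 / (32 * (k : ℝ)) * ‖a‖ := mul_le_mul_of_nonneg_left ha (by positivity)
  have hs32 : ‖s‖ ≤ 1 / 32 := hsn.trans (one_div_le_one_div_of_le (by norm_num) (by linarith))
  have h1s : 1 + s ≠ 0 := by
    intro h
    have h2 : s = -1 := by linear_combination h
    rw [h2, norm_neg, norm_one] at hs32
    norm_num at hs32
  obtain ⟨z, hz⟩ : ∃ z : ℂ, z = (k : ℂ) * Complex.log (1 + s) := ⟨_, rfl⟩
  have hzn : ‖z‖ ≤ 3 / 64 := by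
    rw [hz, norm_mul, Complex.norm_natCast]
    have h2 := Complex.norm_log_one_add_half_le_self (z := s) (by linarith)
    calc (k : ℝ) * ‖Complex.log (1 + s)‖ ≤ k * (3 / 2 * (1 / (32 * (k : ℝ)))) := by
          refine mul_le_mul_of_nonneg_left (h2.trans ?_) hk0.le
          exact mul_le_mul_of_nonneg_left hsn (by norm_num)
      _ = 3 / 64 := by
          field_simp
          norm_num
  have hexp : Complex.exp z = (1 + s) ^ k := by rw [hz, Complex.exp_nat_mul, Complex.exp_log h1s]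
  have hq : P ^ k / a ^ k = Complex.exp z := by
    rw [hPs, mul_pow, mul_div_cancel_left₀ _ (pow_ne_zero _ ha0), hexp]
  have him : |z.im| ≤ 3 / 64 := (Complex.abs_im_le_norm z).trans hzn
  rw [abs_le] at him
  have hpi := Real.pi_gt_three
  rw [hq]
  constructor
  · rw [Complex.mem_slitPlane_iff]
    left
    rw [Complex.exp_re]
    exact mul_pos (Real.exp_pos _) (Real.cos_pos_of_mem_Ioo ⟨by linarith [him.1], by linarith [him.2]⟩)
  · rw [Complex.log_exp (by linarith [him.1]) (by linarith [him.2]), hz, mul_div_cancel_left₀ _ hk0', Complex.exp_log h1s, hPs]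

/-- the root of order `k` near `a`, or the identity -/
private noncomputable def ModB_rt (e : Bool) (k : ℕ) (a w : ℂ) : ℂ :=
  if e = true then a * Complex.exp (Complex.log (w / a ^ k) / k) else w

private theorem ModB_rt_spec {e : Bool} {k : ℕ} (hk : 1 ≤ k) (hk1 : e ≠ true → k = 1) {a P : ℂ} (ha : e = true → 1 / 2 ≤ ‖a‖)
    (hP : ‖P - a‖ ≤ 1 / (64 * (k : ℝ))) : ModB_rt e k a (P ^ k) = P ∧ AnalyticAt ℂ (ModB_rt e k a) (P ^ k) := by
  by_cases he : e = true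
  · obtain ⟨h1, h2⟩ := ModB_root hk (ha he) hP
    have ha0 : a ≠ 0 := norm_pos_iff.1 (by linarith [ha he])
    have hk0' : (k : ℂ) ≠ 0 := by exact_mod_cast (by omega : k ≠ 0)
    have h3 : ModB_rt e k a = fun w : ℂ => a * Complex.exp (Complex.log (w / a ^ k) / k) := by
      funext w
      unfold ModB_rt
      rw [if_pos he]
    rw [h3]
    refine ⟨h2, ?_⟩
    have h4 : AnalyticAt ℂ (fun w : ℂ => w / a ^ k) (P ^ k) := analyticAt_id.div analyticAt_const (pow_ne_zero _ ha0)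
    exact analyticAt_const.mul ((h4.clog h1).div analyticAt_const hk0').cexp
  · have h3 : ModB_rt e k a = fun w : ℂ => w := by
      funext w
      unfold ModB_rt
      rw [if_neg he]
    rw [h3, hk1 he, pow_one]
    exact ⟨rfl, analyticAt_id⟩

private theorem ModB_swp_swp (sw : Bool) (p : ℂ × ℂ) : swp sw (swp sw p) = p := by
  unfold swp
  split_ifs <;> rfl

private theorem ModB_swp_norm (sw : Bool) (v w : ℂ × ℂ) : ‖swp sw v - w‖ = ‖v - swp sw w‖ := by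
  unfold swp
  split_ifs
  · rw [Prod.norm_def, Prod.norm_def, max_comm]
    rfl
  · rfl

private theorem ModB_swp_an (sw : Bool) (p : ℂ × ℂ) : AnalyticAt ℂ (swp sw) p := by
  cases sw
  · have h1 : swp false = fun p : ℂ × ℂ => p := rfl
    rw [h1]
    exact analyticAt_id
  · have h1 : swp true = fun p : ℂ × ℂ => (p.2, p.1) := rfl
    rw [h1]
    exact analyticAt_snd.prod analyticAt_fst

private theorem ModB_an (F : LFam Xb V U D α κ) (x : Ix F) {p : ℂ × ℂ} (hp : p ∈ ball (0 : ℂ × ℂ) 3) : AnalyticAt ℂ (F.sS x) p := by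
  have h1 : AnalyticAt ℂ (F.ch x).s (swp x.1.2 p) := (F.ch x).s_an _ (swp_ball _ hp)
  exact h1.comp (ModB_swp_an x.1.2 p)

private theorem ModB_q (F : LFam Xb V U D α κ) (x : Ix F) {P : ℂ × ℂ} (hP : P ∈ ball (0 : ℂ × ℂ) 3) :
    F.sS x P ∈ Xb ∧ F.sS x P ∈ (F.ch x).W ∧ swp x.1.2 ((F.ch x).q (F.sS x P)) = (P.1 ^ (F.ch x).k, P.2 ^ (F.ch x).k) := by
  obtain ⟨h1, h2, h3⟩ := (F.ch x).s_mem _ (swp_ball x.1.2 hP)
  refine ⟨h1, h2, ?_⟩
  unfold LFam.sS
  rw [h3]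
  unfold swp
  split_ifs <;> rfl

private theorem ModB_exp_u (h : EndData Xb V U D Λ u α) {x y : EN N} (hx : x ∈ V) {a : ℂ} (ha : a ≠ 0) (hy : y = a • x) :
    y ∈ V ∧ Complex.exp (u y) = Complex.exp (u x) := by
  rw [hy]
  refine ⟨h.V_smul x hx a ha, ?_⟩
  have h1 := (h.lat _).1 (h.u_smul x hx a ha)
  rw [Complex.exp_sub, div_eq_one_iff_eq (Complex.exp_ne_zero _)] at h1
  exact h1

private theorem ModB_u (h : EndData Xb V U D Λ u α) (F : LFam Xb V U D α κ) (x y : Ix F) {P x' : ℂ × ℂ} (hx' : x' ∈ ball (0 : ℂ × ℂ) 3)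
    (hP : P ∈ ball (0 : ℂ × ℂ) 3) {a : ℂ} (ha : a ≠ 0) (he : F.sS y x' = a • F.sS x P) (hP2 : (F.ch x).ex = true → P.2 ≠ 0)
    (hx2 : (F.ch y).ex = true → x'.2 ≠ 0) : F.atl.u x P = F.atl.u y x' := by
  have he' : F.sS x P = a⁻¹ • F.sS y x' := by rw [he, smul_smul, inv_mul_cancel₀ ha, one_smul]
  by_cases hV : F.sS y x' ∈ V
  · obtain ⟨h1, h2⟩ := ModB_exp_u h hV (inv_ne_zero ha) he'
    rw [← sS_u F x hP h1, ← sS_u F y hx' hV, h2]
  · have hV' : F.sS x P ∉ V := fun h1 => hV (ModB_exp_u h h1 ha he).1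
    rw [sS_V F y hx', not_not] at hV
    rw [sS_V F x hP, not_not] at hV'
    have h1 : x'.1 = 0 := by
      unfold Lp at hV
      rcases mul_eq_zero.1 hV with h2 | h2
      · exact h2
      · split_ifs at h2 with h3
        · exact absurd h2 (hx2 h3)
        · exact absurd h2 one_ne_zero
    have h4 : P.1 = 0 := by
      unfold Lp at hV'
      rcases mul_eq_zero.1 hV' with h2 | h2
      · exact h2
      · split_ifs at h2 with h3
        · exact absurd h2 (hP2 h3)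
        · exact absurd h2 one_ne_zero
    rw [atl_u, atl_u, h1, h4, mul_zero, mul_zero, zero_mul, zero_mul]

/-- the change of coordinates -/
private noncomputable def ModB_tau (F : LFam Xb V U D α κ) (x y : Ix F) (p x' : ℂ × ℂ) : ℂ × ℂ :=
  (F.atl.u y x' / ((F.ch x).κ * ModB_rt (F.ch x).ex (F.ch x).k p.2 (swp x.1.2 ((F.ch x).q (F.sS y x'))).2 ^ (F.ch x).b),
    ModB_rt (F.ch x).ex (F.ch x).k p.2 (swp x.1.2 ((F.ch x).q (F.sS y x'))).2)

private theorem ModB_tau_spec (h : EndData Xb V U D Λ u α) (F : LFam Xb V U D α κ) (x y : Ix F) {p P x' : ℂ × ℂ}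
    (hx' : x' ∈ ball (0 : ℂ × ℂ) 3) (hP : P ∈ ball (0 : ℂ × ℂ) 3) {a : ℂ} (ha : a ≠ 0) (he : F.sS y x' = a • F.sS x P)
    (hPp : ‖P - p‖ ≤ 1 / (64 * ((F.ch x).k : ℝ))) (hex : (F.ch x).ex = true → 1 / 2 ≤ ‖p.2‖) (hx2 : (F.ch y).ex = true → x'.2 ≠ 0) :
    ModB_tau F x y p x' = P ∧ AnalyticAt ℂ (ModB_tau F x y p) x' ∧ F.atl.u x P = F.atl.u y x' := by
  have hk := (F.ch x).k_pos
  have hk1 : (1 : ℝ) ≤ ((F.ch x).k : ℝ) := by exact_mod_cast hk
  have hP2p : ‖P.2 - p.2‖ ≤ 1 / (64 * ((F.ch x).k : ℝ)) := (norm_snd_le (P - p)).trans hPp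
  have h64 : 1 / (64 * ((F.ch x).k : ℝ)) ≤ 1 / 64 := one_div_le_one_div_of_le (by norm_num) (by linarith)
  have hP2 : (F.ch x).ex = true → P.2 ≠ 0 := by
    intro h1 h2
    have h3 := hex h1
    rw [h2, zero_sub, norm_neg] at hP2p
    linarith
  have hkk : (F.ch x).ex ≠ true → (F.ch x).k = 1 := by
    intro h1
    rcases (F.ch x).k_eq with h2 | h2
    · exact h2
    · exact absurd ((F.ch x).b_ex h2) h1
  obtain ⟨hr1, hr2⟩ := ModB_rt_spec hk hkk hex hP2p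
  obtain ⟨-, hW, hq⟩ := ModB_q F x hP
  have hqa : (swp x.1.2 ((F.ch x).q (F.sS y x'))).2 = P.2 ^ (F.ch x).k := by
    rw [he, (F.ch x).q_smul _ hW a ha, hq]
  have hPb : P.2 ^ (F.ch x).b ≠ 0 := by
    have h1 := (F.ch x).b_le
    rcases Nat.eq_zero_or_pos (F.ch x).b with h2 | h2
    · rw [h2, pow_zero]
      exact one_ne_zero
    · exact pow_ne_zero _ (hP2 ((F.ch x).b_ex (by omega)))
  have hu := ModB_u h F x y hx' hP ha he hP2 hx2
  refine ⟨?_, ?_, hu⟩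
  · unfold ModB_tau
    rw [hqa, hr1, ← hu, atl_u]
    refine Prod.ext ?_ rfl
    show (F.ch x).κ * P.1 * P.2 ^ (F.ch x).b / ((F.ch x).κ * P.2 ^ (F.ch x).b) = P.1
    have h1 := (F.ch x).κ_ne
    field_simp
  · have h1 : AnalyticAt ℂ (fun z => (swp x.1.2 ((F.ch x).q (F.sS y z))).2) x' := by
      have h2 : F.sS y x' ∈ (F.ch x).W := by
        rw [he]
        exact (F.ch x).smul_W _ hW a ha
      have h3 : AnalyticAt ℂ (fun z => (F.ch x).q (F.sS y z)) x' := ((F.ch x).q_an _ h2).comp (ModB_an F y hx')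
      have h4 : AnalyticAt ℂ (fun z => swp x.1.2 ((F.ch x).q (F.sS y z))) x' := (ModB_swp_an x.1.2 _).comp h3
      exact analyticAt_snd.comp h4
    have h5 : AnalyticAt ℂ (fun z => ModB_rt (F.ch x).ex (F.ch x).k p.2 (swp x.1.2 ((F.ch x).q (F.sS y z))).2) x' := by
      have h6 : AnalyticAt ℂ (ModB_rt (F.ch x).ex (F.ch x).k p.2) ((fun z => (swp x.1.2 ((F.ch x).q (F.sS y z))).2) x') := by
        show AnalyticAt ℂ (ModB_rt (F.ch x).ex (F.ch x).k p.2) ((swp x.1.2 ((F.ch x).q (F.sS y x'))).2)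
        rw [hqa]
        exact hr2
      exact AnalyticAt.comp (g := ModB_rt (F.ch x).ex (F.ch x).k p.2) (f := fun z => (swp x.1.2 ((F.ch x).q (F.sS y z))).2) h6 h1
    have h7 : AnalyticAt ℂ (fun z => F.atl.u y z) x' := by
      have h8 : (fun z => F.atl.u y z) = fun z : ℂ × ℂ => (F.ch y).κ * z.1 * z.2 ^ (F.ch y).b := by
        funext z
        exact atl_u F y z
      rw [h8]
      exact (analyticAt_const.mul analyticAt_fst).mul (analyticAt_snd.pow _)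
    have h9 : AnalyticAt ℂ (fun z => (F.ch x).κ * ModB_rt (F.ch x).ex (F.ch x).k p.2 (swp x.1.2 ((F.ch x).q (F.sS y z))).2 ^ (F.ch x).b) x' :=
      analyticAt_const.mul (h5.pow _)
    refine (h7.div h9 ?_).prod h5
    rw [hqa, hr1]
    exact mul_ne_zero (F.ch x).κ_ne hPb

/-- a positive lower bound -/
private theorem ModB_min {ι : Type} [Finite ι] (f : ι → ℝ) (hf : ∀ i, 0 < f i) {b : ℝ} (hb : 0 < b) : ∃ η : ℝ, 0 < η ∧ η ≤ b ∧ ∀ i, η ≤ f i := by
  have h1 : ∀ᶠ η : ℝ in 𝓝[>] 0, ∀ i, η ≤ f i := by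
    rw [eventually_all]
    intro i
    filter_upwards [Ioo_mem_nhdsGT (hf i)] with η hη
    exact hη.2.le
  have h2 : ∀ᶠ η : ℝ in 𝓝[>] 0, 0 < η ∧ η ≤ b := by
    filter_upwards [Ioo_mem_nhdsGT hb] with η hη
    exact ⟨hη.1, hη.2.le⟩
  obtain ⟨η, h3, h4⟩ := (h1.and h2).exists
  exact ⟨η, h4.1, h4.2, h3⟩

theorem atl_trans (h : EndData Xb V U D Λ u α) (F : LFam Xb V U D α κ) : ∃ ρ η : ℝ, 0 < ρ ∧ (∀ x : Ix F, ρ ≤ ‖(F.ch x).κ‖) ∧ 0 < η ∧ η ≤ 1 / 4 ∧
    ∀ (x y : Ix F) (p q : ℂ × ℂ), x.1.1 ≠ y.1.1 → Cen p → Cen q → F.atl.s x p = F.atl.s y q → F.atl.L x p ≠ 0 → F.atl.L y q ≠ 0 →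
      ‖F.atl.u x p‖ < ρ → F.atl.Rg η x y p q := by
  have hkpos : ∀ x : Ix F, (0 : ℝ) < ((F.ch x).k : ℝ) := fun x => by exact_mod_cast (F.ch x).k_pos
  choose δ hδ hδ' using fun x : Ix F => pt_close h (F.ch x) (ε := 1 / (64 * ((F.ch x).k : ℝ)))
    (div_pos one_pos (mul_pos (by norm_num) (hkpos x))) (r := 1) (by norm_num)
  have hcont : ∀ y : Ix F, UniformContinuousOn (fun z => pr (F.sS y z)) (closedBall (0 : ℂ × ℂ) 2) := by
    intro y
    apply (isCompact_closedBall _ _).uniformContinuousOn_of_continuous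
    intro z hz
    have hz3 : z ∈ ball (0 : ℂ × ℂ) 3 := closedBall_subset_ball (by norm_num) hz
    have h1 : F.sS y z ≠ 0 := s_ne h (F.ch y) (swp_ball _ hz3)
    exact ((Pool.Agent.H62.EF.continuousAt_pr h1).comp (ModB_an F y hz3).continuousAt).continuousWithinAt
  choose θ hθ hθ' using fun z : Ix F × Ix F => Metric.uniformContinuousOn_iff.1 (hcont z.2) (δ z.1) (hδ z.1)
  obtain ⟨η, hη, hη64, hηθ⟩ := ModB_min θ hθ (b := 1 / 64) (by norm_num)
  have hκpos : ∀ x : Ix F, 0 < ‖(F.ch x).κ‖ := fun x => norm_pos_iff.2 (F.ch x).κ_ne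
  obtain ⟨ρ, hρ, -, hρκ⟩ := ModB_min (fun x : Ix F => ‖(F.ch x).κ‖ * (η / 8)) (fun x => mul_pos (hκpos x) (by linarith)) (b := 1) one_pos
  refine ⟨ρ, η, hρ, fun x => (hρκ x).trans ?_, hη, by linarith, ?_⟩
  · have h1 := hκpos x
    nlinarith
  intro x y p q hxy hp hq he hLp hLq hu
  have hCen : ∀ r : ℂ × ℂ, Cen r → ‖r‖ ≤ 1 := by
    intro r hr
    rw [Prod.norm_def]
    exact max_le (by linarith [hr.1]) hr.2.le
  have hp3 : p ∈ ball (0 : ℂ × ℂ) 3 := by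
    rw [mem_ball_zero_iff]
    linarith [hCen p hp]
  have hq3 : q ∈ ball (0 : ℂ × ℂ) 3 := by
    rw [mem_ball_zero_iff]
    linarith [hCen q hq]
  have hpne : F.sS x p ≠ 0 := s_ne h (F.ch x) (swp_ball _ hp3)
  have hqne : F.sS y q ≠ 0 := s_ne h (F.ch y) (swp_ball _ hq3)
  have hpr : pr (F.sS x p) = pr (F.sS y q) := he
  obtain ⟨a, ha, hae⟩ := (Pool.Agent.H62.EF.pr_eq_iff hqne hpne).1 hpr.symm
  have hae' : F.sS x p = a⁻¹ • F.sS y q := by rw [hae, smul_smul, inv_mul_cancel₀ ha, one_smul]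
  have hswp : ∀ (sw : Bool) (r : ℂ × ℂ), ‖r.1‖ ≤ 1 / 2 → ‖r.2‖ ≤ 1 / 2 → ‖(swp sw r).1‖ ≤ 1 / 2 ∧ ‖(swp sw r).2‖ ≤ 1 / 2 := by
    intro sw r h1 h2
    unfold swp
    split_ifs
    · exact ⟨h2, h1⟩
    · exact ⟨h1, h2⟩
  have hexp : (F.ch x).ex = true → 1 / 2 ≤ ‖p.2‖ := by
    intro h1
    by_contra h2
    push Not at h2
    obtain ⟨h3, h4⟩ := hswp x.1.2 p hp.1.le h2.le
    refine F.sep x.1.1 y.1.1 hxy h1 (swp x.1.2 p) h3 h4 ?_
    have h5 : F.sS x p ∈ (F.ch y).W := by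
      rw [hae']
      exact (F.ch y).smul_W _ (ModB_q F y hq3).2.1 _ (inv_ne_zero ha)
    exact h5
  have hexq : (F.ch y).ex = true → 1 / 2 ≤ ‖q.2‖ := by
    intro h1
    by_contra h2
    push Not at h2
    obtain ⟨h3, h4⟩ := hswp y.1.2 q hq.1.le h2.le
    refine F.sep y.1.1 x.1.1 (Ne.symm hxy) h1 (swp y.1.2 q) h3 h4 ?_
    have h5 : F.sS y q ∈ (F.ch x).W := by
      rw [hae]
      exact (F.ch x).smul_W _ (ModB_q F x hp3).2.1 _ ha
    exact h5
  have hq2 : (F.ch y).ex = true → q.2 ≠ 0 := by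
    intro h1 h2
    have h3 := hexq h1
    rw [h2, norm_zero] at h3
    norm_num at h3
  have hp2 : (F.ch x).ex = true → p.2 ≠ 0 := by
    intro h1 h2
    have h3 := hexp h1
    rw [h2, norm_zero] at h3
    norm_num at h3
  have huu : F.atl.u x p = F.atl.u y q := ModB_u h F x y hq3 hp3 ha hae hp2 hq2
  have hq1 : ‖q.1‖ ≤ η / 4 := by
    rw [huu, atl_u, norm_mul, norm_mul, norm_pow] at hu
    have h1 : 1 / 2 ≤ ‖q.2‖ ^ (F.ch y).b := by
      have h2 := (F.ch y).b_le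
      rcases Nat.eq_zero_or_pos (F.ch y).b with h3 | h3
      · rw [h3, pow_zero]
        norm_num
      · have h4 : (F.ch y).b = 1 := by omega
        rw [h4, pow_one]
        exact hexq ((F.ch y).b_ex h4)
    have h5 := hκpos y
    have h6 : ‖(F.ch y).κ‖ * ‖q.1‖ * (1 / 2) < ‖(F.ch y).κ‖ * (η / 8) :=
      (mul_le_mul_of_nonneg_left h1 (by positivity)).trans_lt (hu.trans_le (hρκ y))
    have h7 : ‖(F.ch y).κ‖ * (‖q.1‖ * (1 / 2)) < ‖(F.ch y).κ‖ * (η / 8) := by rwa [← mul_assoc]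
    have h8 := lt_of_mul_lt_mul_left h7 h5.le
    linarith
  -- the points near `q`
  have key : ∀ x' ∈ ball q η, x' ∈ ball (0 : ℂ × ℂ) 3 ∧ ((F.ch y).ex = true → x'.2 ≠ 0) ∧
      ∃ P ∈ ball (0 : ℂ × ℂ) 3, ‖P - p‖ ≤ 1 / (64 * ((F.ch x).k : ℝ)) ∧ ∃ c : ℂ, c ≠ 0 ∧ F.sS y x' = c • F.sS x P := by
    intro x' hx'
    have hd : ‖x' - q‖ < η := by rwa [mem_ball, dist_eq_norm] at hx'
    have hx'n : ‖x'‖ ≤ 2 := by
      have h1 := norm_add_le (x' - q) q
      rw [sub_add_cancel] at h1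
      linarith [hCen q hq]
    have hx'3 : x' ∈ ball (0 : ℂ × ℂ) 3 := by
      rw [mem_ball_zero_iff]
      linarith
    refine ⟨hx'3, ?_, ?_⟩
    · intro h1 h2
      have h3 := hexq h1
      have h4 : ‖x'.2 - q.2‖ ≤ ‖x' - q‖ := norm_snd_le (x' - q)
      rw [h2, zero_sub, norm_neg] at h4
      linarith
    · have h1 : dist (pr (F.sS y x')) (pr (F.sS y q)) < δ x := by
        refine hθ' (x, y) x' (by rw [mem_closedBall_zero_iff]; exact hx'n) q (by rw [mem_closedBall_zero_iff]; linarith [hCen q hq]) ?_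
        rw [dist_eq_norm]
        exact hd.trans_le (hηθ (x, y))
      rw [← hpr] at h1
      have h2 : swp x.1.2 p ∈ closedBall (0 : ℂ × ℂ) 1 := by
        rw [mem_closedBall_zero_iff]
        have h3 := ModB_swp_norm x.1.2 p 0
        have h4 : swp x.1.2 (0 : ℂ × ℂ) = 0 := by
          unfold swp
          split_ifs <;> rfl
        rw [h4, sub_zero, sub_zero] at h3
        rw [h3]
        exact hCen p hp
      obtain ⟨-, p'', hp'', hpp, c, hc, hxc⟩ := hδ' x (swp x.1.2 p) h2 (F.sS y x') (ModB_q F y hx'3).1 h1.le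
      refine ⟨swp x.1.2 p'', swp_ball _ hp'', ?_, c, hc, ?_⟩
      · rw [ModB_swp_norm]
        exact hpp
      · unfold LFam.sS at hxc ⊢
        rw [ModB_swp_swp]
        exact hxc
  refine ⟨ModB_tau F x y p, ?_, ?_, hexp, hexq, hq1⟩
  · refine (ModB_tau_spec h F x y hq3 hp3 ha hae ?_ hexp hq2).1
    rw [sub_self, norm_zero]
    exact (div_pos one_pos (mul_pos (by norm_num) (hkpos x))).le
  intro x' hx'
  obtain ⟨hx'3, hx'2, P, hP3, hPp, c, hc, hxc⟩ := key x' hx'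
  obtain ⟨ht1, ht2, ht3⟩ := ModB_tau_spec h F x y hx'3 hP3 hc hxc hPp hexp hx'2
  refine ⟨ht2, ?_, ?_⟩
  · rw [ht1, mem_ball, dist_eq_norm]
    have hk1 : (1 : ℝ) ≤ ((F.ch x).k : ℝ) := by exact_mod_cast (F.ch x).k_pos
    have h64 : 1 / (64 * ((F.ch x).k : ℝ)) ≤ 1 / 64 := one_div_le_one_div_of_le (by norm_num) (by linarith)
    linarith
  intro hx1
  have hLx' : Lp (F.ch y).ex x' ≠ 0 := by
    unfold Lp
    split_ifs with h1
    · exact mul_ne_zero hx1 (hx'2 h1)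
    · exact mul_ne_zero hx1 one_ne_zero
  have hVy : F.sS y x' ∈ V := (sS_V F y hx'3).2 hLx'
  have hxc' : F.sS x P = c⁻¹ • F.sS y x' := by rw [hxc, smul_smul, inv_mul_cancel₀ hc, one_smul]
  have hVP : F.sS x P ∈ V := (ModB_exp_u h hVy (inv_ne_zero hc) hxc').1
  refine ⟨?_, by rw [ht1]; exact ht3, ?_⟩
  · show pr (F.sS y x') = pr (F.sS x (ModB_tau F x y p x'))
    rw [ht1, hxc, Pool.Agent.H62.EF.pr_smul _ hc]
  intro t ht
  show Lp (F.ch y).ex x' * cf α (F.sS y) t x' * Lp (F.ch x).ex (ModB_tau F x y p x') =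
    Lp (F.ch x).ex (ModB_tau F x y p x') * cf α (F.sS x) t (ModB_tau F x y p x') * jac (ModB_tau F x y p) x' * Lp (F.ch y).ex x'
  have hcf : cf α (F.sS y) t x' = cf α (F.sS x) t (ModB_tau F x y p x') * jac (ModB_tau F x y p) x' := by
    refine cf_change (fun h0 => h.cone.zero_notMem (h.V_sub h0)) h.V_smul (ModB_an F y hx'3) ?_ ht2 ?_ ?_ ?_
    · rw [ht1]
      exact ModB_an F x hP3
    · rw [ht1]
      have h1 := (ModB_an F x hP3).continuousAt.eventually (h.V_open _ hVP)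
      filter_upwards [h1, isOpen_ball.mem_nhds hP3] with z hz1 hz2
      exact hz1 (ModB_q F x hz2).1
    · rw [ht1, h.lat, Complex.exp_sub, sS_u F x hP3 hVP, ht3, ht]
      exact div_self (by rw [← ht]; exact Complex.exp_ne_zero t)
    · filter_upwards [isOpen_ball.mem_nhds hx'] with z hz
      obtain ⟨hz3, hz2, P', hP3', hPp', c', hc', hzc'⟩ := key z hz
      refine ⟨c', hc', ?_⟩
      rw [(ModB_tau_spec h F x y hz3 hP3' hc' hzc' hPp' hexp hz2).1]
      exact hzc'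
  rw [hcf]
  ring

end Pool.Agent.EG.LE

end

section

/-!
# EG LE Mod: the model of a family
-/

set_option autoImplicit false

open Topology Filter Metric Set

namespace Pool.Agent.EG.LE

attribute [-instance] ProperSMul.toContinuousSMul

open Pool.Agent.H36.BP (EN fs wd)
open Pool.Agent.H14.PP (IsCone Tan jac)
open Pool.Agent.H62.EF (MN pr)
open Pool.Agent.H62.EL (TForm)
open Pool.Agent.EG.RL (rot Cen Model Bphi)

variable {N : ℕ} {Xb V U D : Set (EN N)} {Λ : AddSubgroup ℂ} {u : EN N → ℂ} {α : TForm V Λ u} {κ : Type}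

theorem exists_model (h : EndData Xb V U D Λ u α) (F : LFam Xb V U D α κ) : ∃ M : Model (Ix F) (MN N), M.toAtl = F.atl := by
  obtain ⟨ρ, η, hρ, hρκ, hη, hη4, htr⟩ := atl_trans h F
  refine ⟨{ toAtl := F.atl, ρ := ρ, η := η, orb := fun x => (F.ch x).k, ρ_pos := hρ, ρ_le := hρκ, η_pos := hη, η_le := hη4, a_pos := fun _ => le_rfl,
            b_ex := ?_, orb_pos := fun x => (F.ch x).k_pos, orb_eq := ?_, inj := ?_, rot_eq := ?_, g_an := ?_, trans := ?_ }, rfl⟩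
  · intro x hx
    show ((F.ch x).b : ℤ) = 0
    have h1 := (F.ch x).b_le
    have h2 : (F.ch x).b ≠ 1 := fun hb => by
      have h3 := (F.ch x).b_ex hb
      have h4 : (F.ch x).ex = false := hx
      rw [h3] at h4
      exact absurd h4 (by simp)
    have h3 : (F.ch x).b = 0 := by omega
    rw [h3]
    rfl
  · intro x
    rcases (F.ch x).k_eq with h1 | h1
    · exact Or.inl h1
    · exact Or.inr ((F.ch x).b_ex h1)
  · intro x p q hp hq _ _ he
    exact atl_inj h F x hp hq he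
  · intro x ζ hζ p hp hL
    exact atl_rot h F x hζ hp hL
  · intro x p hp hL t ht he
    exact atl_gan h F x hp hL ht he
  · intro x y p q hp hq he hLp hLq hu
    by_cases h1 : x.1.1 = y.1.1
    · by_cases h2 : x.1.2 = y.1.2
      · exact Or.inl (Subtype.ext (Prod.ext h1 h2))
      · exact Or.inr (Or.inl (atl_sw h F h1 h2))
    · exact Or.inr (Or.inr (htr x y p q h1 hp hq he hLp hLq hu))

theorem bphi (h : EndData Xb V U D Λ u α) (F : LFam Xb V U D α κ) {M : Model (Ix F) (MN N)} (hM : M.toAtl = F.atl) :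
    ∃ C₀ : ℝ, 0 ≤ C₀ ∧ Bphi M C₀ 0 := by
  refine Pool.Agent.EG.RL.bphi_end M fun x => ?_
  rw [hM]
  exact atl_bd h F x

end Pool.Agent.EG.LE

end

section

/-!
# EG LE PhiC: the parametrization of a cell
-/

set_option autoImplicit false

open Topology Filter Metric Set

namespace Pool.Agent.EG.LE

attribute [-instance] ProperSMul.toContinuousSMul

open Pool.Agent.H36.BP (EN fs wd)
open Pool.Agent.H14.PP (IsCone Tan jac)
open Pool.Agent.H62.EF (MN pr)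
open Pool.Agent.H62.EL (TForm)
open Pool.Agent.EG.RL (rot Cen Model Bphi)

variable {N : ℕ} {Xb V U D : Set (EN N)} {Λ : AddSubgroup ℂ} {u : EN N → ℂ} {α : TForm V Λ u} {κ : Type}

/-- the coordinates of a point of the cell -/
noncomputable def LFam.XX (F : LFam Xb V U D α κ) (x : Ix F) (t w : ℂ) : ℂ × ℂ := F.atl.X x (F.ch x).κ⁻¹ t w

/-- the parametrization of the cell -/
noncomputable def LFam.Phi (F : LFam Xb V U D α κ) (x : Ix F) (t w : ℂ) : EN N := F.sS x (F.XX x t w)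

/-- the density -/
noncomputable def LFam.phi (F : LFam Xb V U D α κ) (x : Ix F) (t w : ℂ) : ℂ := F.atl.phi x (F.ch x).κ⁻¹ t w

/-- its primitive -/
noncomputable def LFam.PP (F : LFam Xb V U D α κ) (x : Ix F) (t w : ℂ) : ℂ := F.atl.P x (F.ch x).κ⁻¹ t w

theorem k_mu (F : LFam Xb V U D α κ) (x : Ix F) : F.atl.k x * (F.ch x).κ⁻¹ ^ F.atl.a x = 1 := by
  show (F.ch x).κ * (F.ch x).κ⁻¹ ^ 1 = 1
  rw [pow_one, mul_inv_cancel₀ (F.ch x).κ_ne]

theorem XX_eq (F : LFam Xb V U D α κ) (x : Ix F) (t w : ℂ) :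
    F.XX x t w = ((F.ch x).κ⁻¹ * Complex.exp (t - (F.ch x).b * w), if (F.ch x).ex = true then Complex.exp w else w) := by
  show ((F.ch x).κ⁻¹ * Complex.exp ((t - (((F.ch x).b : ℤ) : ℂ) * w) / ((1 : ℕ) : ℂ)), Pool.Agent.EG.RL.yb (F.ch x).ex w) = _
  rw [Nat.cast_one, div_one, Int.cast_natCast]
  rfl

theorem XX_an (h : EndData Xb V U D Λ u α) (F : LFam Xb V U D α κ) (x : Ix F) (q : ℂ × ℂ) : AnalyticAt ℂ (fun q : ℂ × ℂ => F.XX x q.1 q.2) q := by
  obtain ⟨M, hM⟩ := exists_model h F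
  have h1 := Pool.Agent.EG.RL.X_an M x (F.ch x).κ⁻¹ q
  rw [hM] at h1
  exact h1

theorem XX_L (h : EndData Xb V U D Λ u α) (F : LFam Xb V U D α κ) (x : Ix F) (t w : ℂ) : Lp (F.ch x).ex (F.XX x t w) ≠ 0 := by
  obtain ⟨M, hM⟩ := exists_model h F
  have h0 := k_mu F x
  rw [← hM] at h0
  have h1 := Pool.Agent.EG.RL.L_X_ne M h0 t w
  rw [hM] at h1
  exact h1

theorem XX_u (h : EndData Xb V U D Λ u α) (F : LFam Xb V U D α κ) (x : Ix F) (t w : ℂ) :
    (F.ch x).κ * (F.XX x t w).1 * (F.XX x t w).2 ^ (F.ch x).b = Complex.exp t := by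
  obtain ⟨M, hM⟩ := exists_model h F
  have h0 := k_mu F x
  rw [← hM] at h0
  have h1 := Pool.Agent.EG.RL.u_X M h0 t w
  rw [hM, atl_u] at h1
  exact h1

theorem ball23 {p : ℂ × ℂ} (hp : p ∈ ball (0 : ℂ × ℂ) 2) : p ∈ ball (0 : ℂ × ℂ) 3 := ball_subset_ball (by norm_num) hp

theorem sS_an (F : LFam Xb V U D α κ) (x : Ix F) {p : ℂ × ℂ} (hp : p ∈ ball (0 : ℂ × ℂ) 3) : AnalyticAt ℂ (F.sS x) p := by
  have h1 := (F.ch x).s_an _ (swp_ball x.1.2 hp)
  have h2 : AnalyticAt ℂ (swp x.1.2) p := by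
    unfold swp
    by_cases hs : x.1.2 = true
    · rw [hs]
      simp only [if_true]
      exact analyticAt_snd.prod analyticAt_fst
    · have hs' : x.1.2 = false := by simpa using hs
      rw [hs']
      simp only [Bool.false_eq_true, if_false]
      exact analyticAt_id
  exact AnalyticAt.fun_comp (g := (F.ch x).s) (f := swp x.1.2) h1 h2

theorem sS_Xb (F : LFam Xb V U D α κ) (x : Ix F) {p : ℂ × ℂ} (hp : p ∈ ball (0 : ℂ × ℂ) 3) : F.sS x p ∈ Xb :=
  ((F.ch x).s_mem _ (swp_ball x.1.2 hp)).1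

theorem Phi_an (h : EndData Xb V U D Λ u α) (F : LFam Xb V U D α κ) (x : Ix F) {q : ℂ × ℂ} (hX : F.XX x q.1 q.2 ∈ ball (0 : ℂ × ℂ) 2) :
    AnalyticAt ℂ (fun q : ℂ × ℂ => F.Phi x q.1 q.2) q :=
  AnalyticAt.fun_comp (g := F.sS x) (f := fun q : ℂ × ℂ => F.XX x q.1 q.2) (sS_an F x (ball23 hX)) (XX_an h F x q)

theorem Phi_V (h : EndData Xb V U D Λ u α) (F : LFam Xb V U D α κ) (x : Ix F) {t w : ℂ} (hX : F.XX x t w ∈ ball (0 : ℂ × ℂ) 2) :
    F.Phi x t w ∈ V ∧ u (F.Phi x t w) - t ∈ Λ := by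
  have h1 : F.Phi x t w ∈ V := (sS_V F x (ball23 hX)).2 (XX_L h F x t w)
  refine ⟨h1, ?_⟩
  rw [h.lat, Complex.exp_sub]
  have h2 := sS_u F x (ball23 hX) h1
  rw [atl_u, XX_u h F x] at h2
  have h3 : Complex.exp (u (F.Phi x t w)) = Complex.exp t := h2
  rw [h3, div_self (Complex.exp_ne_zero _)]

theorem Phi_V_ev (h : EndData Xb V U D Λ u α) (F : LFam Xb V U D α κ) (x : Ix F) {q₀ : ℂ × ℂ} (hX : F.XX x q₀.1 q₀.2 ∈ ball (0 : ℂ × ℂ) 2) :
    ∀ᶠ q in 𝓝 q₀, F.Phi x q.1 q.2 ∈ V ∧ u (F.Phi x q.1 q.2) - q.1 ∈ Λ := by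
  have h1 := (XX_an h F x q₀).continuousAt
  have h2 := h1.eventually_mem (isOpen_ball.mem_nhds hX)
  filter_upwards [h2] with q hq
  exact Phi_V h F x hq

/-- the coefficient of the form in the parametrization of the cell -/
theorem cf_cell (h : EndData Xb V U D Λ u α) (F : LFam Xb V U D α κ) (x : Ix F) {t w : ℂ} (hX : F.XX x t w ∈ ball (0 : ℂ × ℂ) 2) :
    cf α (fun q : ℂ × ℂ => F.Phi x q.1 q.2) t (t, w) = F.phi x t w := by
  obtain ⟨M, hM⟩ := exists_model h F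
  have h0 : (0 : EN N) ∉ V := fun h0 => h.cone.zero_notMem (h.V_sub h0)
  have hX3 := ball23 hX
  have hψV : ∀ᶠ y in 𝓝 (F.XX x t w), F.sS x y ∈ V := by
    have h1 : ContinuousAt (fun p : ℂ × ℂ => Lp (F.ch x).ex p) (F.XX x t w) := by
      unfold Lp
      split_ifs <;> fun_prop
    filter_upwards [isOpen_ball.mem_nhds hX3, h1.eventually_ne (XX_L h F x t w)] with y hy hL
    exact (sS_V F x hy).2 hL
  have hcf := cf_change (α := α) h0 h.V_smul (φ := fun q : ℂ × ℂ => F.Phi x q.1 q.2) (ψ := F.sS x) (τ := fun q : ℂ × ℂ => F.XX x q.1 q.2)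
    (p := (t, w)) (t := t) (Phi_an h F x hX) (sS_an F x hX3) (XX_an h F x (t, w)) hψV (Phi_V h F x hX).2
    (Eventually.of_forall fun y => ⟨1, one_ne_zero, (one_smul _ _).symm⟩)
  rw [hcf]
  have hj := Pool.Agent.EG.RL.jac_X M x (F.ch x).κ⁻¹ (t, w)
  rw [hM] at hj
  have hj' : jac (fun q : ℂ × ℂ => F.XX x q.1 q.2) (t, w) = Lp (F.ch x).ex (F.XX x t w) / ((1 : ℕ) : ℂ) := hj
  rw [hj', Nat.cast_one, div_one]
  show _ = (Lp (F.ch x).ex (F.XX x t w) * cf α (F.sS x) t (F.XX x t w)) / ((1 : ℕ) : ℂ)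
  rw [Nat.cast_one, div_one, mul_comm]

end Pool.Agent.EG.LE

end
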