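import Pool.Agent.H94.CB.H36.BP.WdA_2
import Pool.Agent.H94.CB.H62.EF.LimL
import Pool.Agent.H94.CB.H62.Log.Hurwitz
import Pool.Agent.H94.CB.M204

/-! The parts of this file: EG.LE.Lim, EG.LE.Der. -/

section

/-!
# EG LE Lim: limits of curves near the fibre over `0` are constant

Proof (helper41):
lim_const: H62.EF.limit_curves (X := Xb) gives the entire curve G in Xb, pr (F n z) -> pr (G z), the convergence of fs, and for every z0 lifts phi n -> psi (locally uniformly on ball z0 r),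
psi z = c • G z.  G z in D for all z (tendsto_D: pr (F n z) -> pr (G z), F n z in U ⊆ V, ‖exp u‖ -> 0).  Show: G is projectively constant.
(A) if a • G z is in the set R of h.hyp for all z and all a ≠ 0: h.hyp.
(B) otherwise there are z0, a such that a • G z0 in D has a chart of type eu = true.
 Chart ch := mk_ch for x0 (O := univ): x0 = a • ch.s 0, so ch.q x0 = 0.  For z near z0 (ball z0 r'): psi z in W, phi n z in W for large n uniformly on a smaller closed ball (W open, uniform convergence on compacts);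
 Q n z := ch.q (phi n z) -> Q z := ch.q (psi z) uniformly near z0 (q continuous on a compact neighbourhood; TendstoLocallyUniformlyOn.comp / uniform continuity on a compact ball around x0).
 phi n z = c • F n z in U (U_smul) and in W, so it is a • s p (surj) with s p in U: p.1 ≠ 0, p.2 ≠ 0 (eu = true), and Q n z = (p.1^k, p.2^k) has nonzero components.
 Hurwitz (for both components): Q has a component identically 0 near z0 or without zeros; Q z0 = 0, so Q = 0 near z0.  (A Hurwitz theorem for sequences / ultrafilters is in Pool/Agent (search for hurwitz), or use the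
 argument principle free version: if Q.1 is not identically 0 near z0 then it is ≥ m > 0 in norm on a circle around z0, and 1 / (Q n).1 is holomorphic inside with norm ≤ 2 / m on the circle, so by the
 maximum principle ‖(Q n z0).1‖ ≥ m / 2, contradiction to (Q n z0).1 -> 0.)
 So psi z = a • s p with p^k = 0, p = 0, for z near z0: psi z is a multiple of s 0.  Hence G z is a multiple of G z0 for z near z0; by the identity theorem (the 2x2 minors G z i * G z0 j - G z j * G z0 i are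
 entire and vanish near z0) for all z.
So G z = c z • G 0 for all z, x0 := G 0 in D; pr (F n z) -> pr (G z) = pr (G 0); fs (G z) (deriv G z) = 0 because G z and deriv G z are proportional (c is differentiable: fs measures the component of the
derivative orthogonal to G z; use H36.BP: wd x v = 0 iff v is a multiple of x; or the Lipschitz/derivative characterisation of fs by pr).
lim_unif: fs ≤ L on ball 0 (rho n) gives dist (pr (F n z)) (pr (F n w)) ≤ C L ‖z - w‖ (pr_lipschitz, see H62/EL/Zl sec_lip_gd), choose a finite net of closedBall 0 R.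
-/

set_option autoImplicit false

open Topology Filter Metric Set

namespace Pool.Agent.EG.LE

attribute [-instance] ProperSMul.toContinuousSMul

open Pool.Agent.H36.BP (EN fs wd)
open Pool.Agent.H14.PP (IsCone Tan jac)
open Pool.Agent.H62.EF (MN pr)
open Pool.Agent.H62.EL (TForm)

variable {N : ℕ} {Xb V U D : Set (EN N)} {Λ : AddSubgroup ℂ} {u : EN N → ℂ} {α : TForm V Λ u}

open Pool.Agent.H62.EF (limit_curves pr_smul pr_eq_iff pr_lipschitz)

private theorem Lim_ne (h : EndData Xb V U D Λ u α) {x : EN N} (hx : x ∈ Xb) : x ≠ 0 := by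
  rintro rfl
  exact h.cone.zero_notMem hx

private theorem Lim_ball (𝒰 : Ultrafilter ℕ) {ρ : ℕ → ℝ} (hρ : Tendsto ρ 𝒰 atTop) (R : ℝ) :
    ∀ᶠ n in (𝒰 : Filter ℕ), closedBall (0 : ℂ) R ⊆ ball 0 (ρ n) := by
  filter_upwards [hρ.eventually_gt_atTop R] with n hn
  exact closedBall_subset_ball hn

/-- uniformity on compact discs -/
private theorem Lim_ev (𝒰 : Ultrafilter ℕ) {φ : ℕ → ℂ → EN N} {ψ : ℂ → EN N} {z₀ : ℂ} {r : ℝ} {W : Set (EN N)} (hW : IsOpen W)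
    (hψ : ∀ z ∈ closedBall z₀ r, ψ z ∈ W)
    (hconv : ∀ (z : ℕ → ℂ) (z₁ : ℂ), z₁ ∈ closedBall z₀ r → Tendsto z (𝒰 : Filter ℕ) (𝓝 z₁) →
      Tendsto (fun n => φ n (z n)) (𝒰 : Filter ℕ) (𝓝 (ψ z₁))) :
    ∀ᶠ n in (𝒰 : Filter ℕ), ∀ z ∈ closedBall z₀ r, φ n z ∈ W := by
  by_contra hcon
  rw [← Ultrafilter.eventually_not] at hcon
  push Not at hcon
  choose! w hw using fun (k : ℕ) (h : ∃ z ∈ closedBall z₀ r, φ k z ∉ W) => h
  have hw1 : ∀ᶠ k in (𝒰 : Filter ℕ), w k ∈ closedBall z₀ r := hcon.mono fun k hk => (hw k hk).1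
  have hw2 : ∀ᶠ k in (𝒰 : Filter ℕ), φ k (w k) ∉ W := hcon.mono fun k hk => (hw k hk).2
  obtain ⟨z', hz'mem, hz'⟩ : ∃ z' ∈ closedBall z₀ r, Tendsto w (𝒰 : Filter ℕ) (𝓝 z') := by
    obtain ⟨l, hl1, hl2⟩ := (isCompact_closedBall z₀ r).ultrafilter_le_nhds (𝒰.map w) (by
      rw [le_principal_iff]
      exact hw1)
    exact ⟨l, hl1, hl2⟩
  have h1 := (hconv w z' hz'mem hz').eventually (hW.mem_nhds (hψ z' hz'mem))
  obtain ⟨k, hk1, hk2⟩ := (h1.and hw2).exists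
  exact hk2 hk1

/-- a curve which is locally constant in projective space is constant -/
private theorem Lim_id {G : ℂ → EN N} (hG : Differentiable ℂ G) (h0 : ∀ z, G z ≠ 0) {z₀ : ℂ} {r : ℝ} (hr : 0 < r)
    (hloc : ∀ z ∈ ball z₀ r, ∃ c : ℂ, G z = c • G z₀) : ∀ z, ∃ c : ℂ, c ≠ 0 ∧ G z = c • G z₀ := by
  have hco : ∀ i, Differentiable ℂ (fun z => G z i) := fun i z =>
    ((EuclideanSpace.proj (𝕜 := ℂ) i : EN N →L[ℂ] ℂ).differentiableAt).comp z (hG z)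
  have hmin : ∀ i j z, G z i * G z₀ j - G z j * G z₀ i = 0 := by
    intro i j z
    have hd : Differentiable ℂ (fun z => G z i * G z₀ j - G z j * G z₀ i) :=
      ((hco i).mul_const _).sub ((hco j).mul_const _)
    have h1 : AnalyticOnNhd ℂ (fun z => G z i * G z₀ j - G z j * G z₀ i) Set.univ := fun z _ => hd.analyticAt z
    have h2 : AnalyticOnNhd ℂ (fun _ : ℂ => (0 : ℂ)) Set.univ := fun z _ => analyticAt_const
    have h3 := AnalyticOnNhd.eq_of_eventuallyEq (𝕜 := ℂ) h1 h2 (z₀ := z₀) (by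
      filter_upwards [isOpen_ball.mem_nhds (mem_ball_self hr)] with w hw
      obtain ⟨c, hc⟩ := hloc w hw
      rw [hc]
      simp only [PiLp.smul_apply, smul_eq_mul]
      ring)
    exact congrFun h3 z
  obtain ⟨j, hj⟩ : ∃ j, G z₀ j ≠ 0 := by
    by_contra hcon
    push Not at hcon
    apply h0 z₀
    ext j
    exact hcon j
  intro z
  have h1 : G z = (G z j / G z₀ j) • G z₀ := by
    ext i
    have := hmin i j z
    simp only [PiLp.smul_apply, smul_eq_mul]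
    field_simp
    linear_combination this
  refine ⟨G z j / G z₀ j, ?_, h1⟩
  intro h2
  rw [h2, zero_smul] at h1
  exact h0 z h1

private theorem Lim_const (h : EndData Xb V U D Λ u α) {L : ℝ} (𝒰 : Ultrafilter ℕ) (F : ℕ → ℂ → EN N) (ρ : ℕ → ℝ)
    (hρ : Tendsto ρ 𝒰 atTop) (hF : ∀ᶠ n in (𝒰 : Filter ℕ), DifferentiableOn ℂ (F n) (ball 0 (ρ n)) ∧
      ∀ z ∈ ball (0 : ℂ) (ρ n), F n z ∈ U ∧ fs (F n z) (deriv (F n) z) ≤ L)
    {G : ℂ → EN N} (hG : Differentiable ℂ G) (hGX : ∀ z, G z ∈ Xb) (hGD : ∀ z, G z ∈ D)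
    (hloc : ∀ z₀, ∃ (r : ℝ) (φ : ℕ → ℂ → EN N) (ψ : ℂ → EN N), 0 < r ∧
        (∀ᶠ n in (𝒰 : Filter ℕ), DifferentiableOn ℂ (φ n) (ball z₀ r) ∧ ∀ z ∈ ball z₀ r, ∃ c : ℂ, c ≠ 0 ∧ φ n z = c • F n z) ∧
        DifferentiableOn ℂ ψ (ball z₀ r) ∧ (∀ z ∈ ball z₀ r, ∃ c : ℂ, c ≠ 0 ∧ ψ z = c • G z) ∧
        TendstoLocallyUniformlyOn φ ψ 𝒰 (ball z₀ r)) :
    ∀ z, ∃ c : ℂ, c ≠ 0 ∧ G z = c • G 0 := by
  have hG0 : ∀ z, G z ≠ 0 := fun z => Lim_ne h (hGX z)
  obtain ⟨RR, hRD, hRc⟩ := h.hyp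
  by_cases hA : ∀ z (a : ℂ), a ≠ 0 → a • G z ∈ RR
  · intro z
    obtain ⟨c, hc⟩ := hRc G hG (fun z => by
      have := hA z 1 one_ne_zero
      rwa [one_smul] at this) z 0
    refine ⟨c, ?_, hc⟩
    rintro rfl
    rw [zero_smul] at hc
    exact hG0 z hc
  · push Not at hA
    obtain ⟨z₀, a, ha, hnr⟩ := hA
    have hx0 : a • G z₀ ∈ D := h.D_smul _ (hGD z₀) a ha
    obtain ⟨T, hTeu, hT⟩ := (hRD _ hx0).resolve_left hnr
    obtain ⟨ch, hchT, ⟨p₀, hp₀, b, hb, hx0b⟩, -⟩ := mk_ch h hx0 hT (O := Set.univ) Filter.univ_mem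
    rw [mem_singleton_iff] at hp₀
    subst hp₀
    have heu : ch.eu = true := by
      rw [← hTeu, ← hchT]
    have h03 : (0 : ℂ × ℂ) ∈ ball (0 : ℂ × ℂ) 3 := mem_ball_self (by norm_num)
    have hk : ch.k ≠ 0 := (lt_of_lt_of_le Nat.zero_lt_one ch.k_pos).ne'
    obtain ⟨-, hs0W, hqs0⟩ := ch.s_mem 0 h03
    obtain ⟨r, φ, ψ, hr, hφ, hψd, hψG, hconv⟩ := hloc z₀
    have hz₀ : z₀ ∈ ball z₀ r := mem_ball_self hr
    obtain ⟨c₀, hc₀, hψ0⟩ := hψG z₀ hz₀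
    have hψs : ψ z₀ = (c₀ * a⁻¹ * b) • ch.s 0 := by
      rw [hψ0, mul_smul, ← hx0b, mul_smul, smul_smul a⁻¹ a, inv_mul_cancel₀ ha, one_smul]
    have hcab : c₀ * a⁻¹ * b ≠ 0 := mul_ne_zero (mul_ne_zero hc₀ (inv_ne_zero ha)) hb
    have hψW : ψ z₀ ∈ ch.W := by
      rw [hψs]
      exact ch.smul_W _ hs0W _ hcab
    have hqψ0 : ch.q (ψ z₀) = 0 := by
      rw [hψs, ch.q_smul _ hs0W _ hcab, hqs0]
      simp [hk]
    -- the radius
    obtain ⟨r', hr', hr'r, hψr'⟩ : ∃ r' : ℝ, 0 < r' ∧ closedBall z₀ r' ⊆ ball z₀ r ∧ ∀ z ∈ closedBall z₀ r', ψ z ∈ ch.W := by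
      have h1 : ∀ᶠ z in 𝓝 z₀, ψ z ∈ ch.W :=
        (hψd.continuousOn.continuousAt (isOpen_ball.mem_nhds hz₀)).eventually (ch.isOpen_W.mem_nhds hψW)
      obtain ⟨s, hs, hs'⟩ := Metric.eventually_nhds_iff_ball.1 (h1.and (isOpen_ball.mem_nhds hz₀))
      refine ⟨s / 2, by positivity, fun z hz => (hs' z (closedBall_subset_ball (by linarith) hz)).2,
        fun z hz => (hs' z (closedBall_subset_ball (by linarith) hz)).1⟩
    have hcv : ∀ (z : ℕ → ℂ) (z₁ : ℂ), z₁ ∈ closedBall z₀ r' → Tendsto z (𝒰 : Filter ℕ) (𝓝 z₁) →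
        Tendsto (fun n => φ n (z n)) (𝒰 : Filter ℕ) (𝓝 (ψ z₁)) := by
      intro z z₁ hz₁ hz
      have hz₁' := hr'r hz₁
      have h1 : ∀ᶠ n in (𝒰 : Filter ℕ), z n ∈ ball z₀ r := hz.eventually (isOpen_ball.mem_nhds hz₁')
      refine hconv.tendsto_comp (hψd.continuousOn z₁ hz₁') hz₁' ?_
      rw [tendsto_nhdsWithin_iff]
      exact ⟨hz, h1⟩
    have hev := Lim_ev 𝒰 ch.isOpen_W hψr' hcv
    have hsub : ∀ᶠ n in (𝒰 : Filter ℕ), closedBall z₀ r' ⊆ ball 0 (ρ n) := by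
      filter_upwards [hρ.eventually_gt_atTop (‖z₀‖ + r')] with k hk z hz
      rw [mem_ball_zero_iff]
      rw [mem_closedBall_iff_norm] at hz
      have := norm_add_le (z - z₀) z₀
      rw [sub_add_cancel] at this
      linarith
    have hd : ∀ᶠ n in (𝒰 : Filter ℕ), DifferentiableOn ℂ (fun z => ch.q (φ n z)) (ball z₀ r') := by
      filter_upwards [hφ, hev] with n hn1 hn2 z hz
      have hz' := ball_subset_closedBall hz
      have h1 : DifferentiableAt ℂ ch.q (φ n z) := (ch.q_an _ (hn2 z hz')).differentiableAt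
      have h2 : DifferentiableAt ℂ (φ n) z :=
        (hn1.1 z (hr'r hz')).differentiableAt (isOpen_ball.mem_nhds (hr'r hz'))
      exact (h1.comp z h2).differentiableWithinAt
    have hne : ∀ᶠ n in (𝒰 : Filter ℕ), ∀ z ∈ ball z₀ r', (ch.q (φ n z)).1 ≠ 0 ∧ (ch.q (φ n z)).2 ≠ 0 := by
      filter_upwards [hφ, hev, hF, hsub] with n hn1 hn2 hn3 hn4 z hz
      have hz' := ball_subset_closedBall hz
      obtain ⟨c, hc, hcF⟩ := hn1.2 z (hr'r hz')
      have hFU := (hn3.2 z (hn4 hz')).1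
      have hφU : φ n z ∈ U := by
        rw [hcF]
        exact h.U_smul _ hFU c hc
      obtain ⟨p, hp, e, he, hpe⟩ := ch.surj _ (h.V_sub (h.U_sub hφU)) (hn2 z hz')
      obtain ⟨-, hsW, hqs⟩ := ch.s_mem p hp
      have hsU : ch.s p ∈ U := by
        have h1 : ch.s p = e⁻¹ • φ n z := by
          rw [hpe, smul_smul, inv_mul_cancel₀ he, one_smul]
        rw [h1]
        exact h.U_smul _ hφU _ (inv_ne_zero he)
      obtain ⟨hp1, hp2⟩ := (ch.s_U p hp).1 hsU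
      rw [hpe, ch.q_smul _ hsW _ he, hqs]
      exact ⟨pow_ne_zero _ hp1, pow_ne_zero _ (hp2 heu)⟩
    have hdψ : DifferentiableOn ℂ (fun z => ch.q (ψ z)) (ball z₀ r') := by
      intro z hz
      have hz' := ball_subset_closedBall hz
      have h1 : DifferentiableAt ℂ ch.q (ψ z) := (ch.q_an _ (hψr' z hz')).differentiableAt
      have h2 : DifferentiableAt ℂ ψ z :=
        (hψd z (hr'r hz')).differentiableAt (isOpen_ball.mem_nhds (hr'r hz'))
      exact (h1.comp z h2).differentiableWithinAt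
    have hcq : ∀ (z : ℕ → ℂ) (z₁ : ℂ), z₁ ∈ ball z₀ r' → Tendsto z (𝒰 : Filter ℕ) (𝓝 z₁) →
        Tendsto (fun n => ch.q (φ n (z n))) (𝒰 : Filter ℕ) (𝓝 (ch.q (ψ z₁))) := by
      intro z z₁ hz₁ hz
      have hz₁' := ball_subset_closedBall hz₁
      have h1 : ContinuousAt ch.q (ψ z₁) := (ch.q_an _ (hψr' z₁ hz₁')).continuousAt
      exact h1.tendsto.comp (hcv z z₁ hz₁' hz)
    have hz₀' : z₀ ∈ ball z₀ r' := mem_ball_self hr'
    have hs : ∀ z ∈ ball z₀ r', (ch.q (ψ z)).1 = 0 := by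
      rcases Pool.Agent.H62.Log.hurwitz 𝒰 (φ := fun n z => (ch.q (φ n z)).1) (ψ := fun z => (ch.q (ψ z)).1)
        (hd.mono fun k hk => hk.fst) (hne.mono fun k hk z hz => (hk z hz).1) hdψ.fst
        (fun z z₁ h1 h2 => (continuous_fst.tendsto _).comp (hcq z z₁ h1 h2)) with h1 | h1
      · exact h1
      · exact absurd (by rw [hqψ0]; rfl) (h1 z₀ hz₀')
    have ht : ∀ z ∈ ball z₀ r', (ch.q (ψ z)).2 = 0 := by
      rcases Pool.Agent.H62.Log.hurwitz 𝒰 (φ := fun n z => (ch.q (φ n z)).2) (ψ := fun z => (ch.q (ψ z)).2)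
        (hd.mono fun k hk => hk.snd) (hne.mono fun k hk z hz => (hk z hz).2) hdψ.snd
        (fun z z₁ h1 h2 => (continuous_snd.tendsto _).comp (hcq z z₁ h1 h2)) with h1 | h1
      · exact h1
      · exact absurd (by rw [hqψ0]; rfl) (h1 z₀ hz₀')
    have hloc' : ∀ z ∈ ball z₀ r', ∃ c : ℂ, G z = c • G z₀ := by
      intro z hz
      have hz' := ball_subset_closedBall hz
      obtain ⟨c, hc, hcG⟩ := hψG z (hr'r hz')
      have hψX : ψ z ∈ Xb := by
        rw [hcG]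
        exact h.cone.smul_mem _ (hGX z) c hc
      obtain ⟨p, hp, e, he, hpe⟩ := ch.surj _ hψX (hψr' z hz')
      obtain ⟨-, hsW, hqs⟩ := ch.s_mem p hp
      have hq := hs z hz
      have hq' := ht z hz
      rw [hpe, ch.q_smul _ hsW _ he, hqs] at hq hq'
      have hp0 : p = 0 := Prod.ext (pow_eq_zero_iff hk |>.1 hq) (pow_eq_zero_iff hk |>.1 hq')
      subst hp0
      have h1 : ch.s 0 = (c₀ * a⁻¹ * b)⁻¹ • c₀ • G z₀ := by
        rw [← hψ0, hψs, smul_smul, inv_mul_cancel₀ hcab, one_smul]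
      refine ⟨c⁻¹ * e * (c₀ * a⁻¹ * b)⁻¹ * c₀, ?_⟩
      have h2 : G z = c⁻¹ • ψ z := by
        rw [hcG, smul_smul, inv_mul_cancel₀ hc, one_smul]
      rw [h2, hpe, h1]
      simp only [smul_smul]
      congr 1
      ring
    have hall := Lim_id hG hG0 hr' hloc'
    intro z
    obtain ⟨c, hc, h1⟩ := hall z
    obtain ⟨e, he, h2⟩ := hall 0
    refine ⟨c * e⁻¹, mul_ne_zero hc (inv_ne_zero he), ?_⟩
    rw [h1, h2, smul_smul, mul_assoc, inv_mul_cancel₀ he, mul_one]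

private theorem Lim_fs {G : ℂ → EN N} (hG : Differentiable ℂ G) (h0 : ∀ z, G z ≠ 0)
    (hc : ∀ z, ∃ c : ℂ, c ≠ 0 ∧ G z = c • G 0) (z : ℂ) : fs (G z) (deriv G z) = 0 := by
  obtain ⟨j, hj⟩ : ∃ j, G 0 j ≠ 0 := by
    by_contra hcon
    push Not at hcon
    apply h0 0
    ext j
    exact hcon j
  have hco : Differentiable ℂ (fun z => G z j) := fun z =>
    ((EuclideanSpace.proj (𝕜 := ℂ) j : EN N →L[ℂ] ℂ).differentiableAt).comp z (hG z)
  have h1 : G = fun z => (G z j / G 0 j) • G 0 := by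
    funext w
    obtain ⟨c, -, hc'⟩ := hc w
    have h2 : G w j / G 0 j = c := by
      rw [hc']
      simp only [PiLp.smul_apply, smul_eq_mul]
      field_simp
    rw [h2]
    exact hc'
  have h2 : deriv G z = (deriv (fun z => G z j / G 0 j) z) • G 0 := by
    conv_lhs => rw [h1]
    have h3 : HasDerivAt (fun z => G z j / G 0 j) (deriv (fun z => G z j / G 0 j) z) z :=
      ((hco z).div_const _).hasDerivAt
    exact (h3.smul_const (G 0)).deriv
  obtain ⟨c, hc0, hc'⟩ := hc z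
  have h4 : wd (G z) (deriv G z) = 0 := by
    rw [Pool.Agent.H36.BP.wd_eq_zero (h0 z)]
    refine ⟨deriv (fun z => G z j / G 0 j) z * c⁻¹, ?_⟩
    rw [h2, hc', smul_smul, mul_assoc, inv_mul_cancel₀ hc0, mul_one]
  unfold fs
  rw [h4, zero_div]

theorem lim_const (h : EndData Xb V U D Λ u α) {L : ℝ} (hL : 0 < L) (𝒰 : Ultrafilter ℕ) (F : ℕ → ℂ → EN N) (ρ : ℕ → ℝ)
    (hρ : Tendsto ρ 𝒰 atTop) (hF : ∀ᶠ n in (𝒰 : Filter ℕ), DifferentiableOn ℂ (F n) (ball 0 (ρ n)) ∧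
      ∀ z ∈ ball (0 : ℂ) (ρ n), F n z ∈ U ∧ fs (F n z) (deriv (F n) z) ≤ L)
    (he : ∀ z, Tendsto (fun n => ‖Complex.exp (u (F n z))‖) 𝒰 (𝓝 0)) :
    ∃ x₀ ∈ D, (∀ z, Tendsto (fun n => pr (F n z)) 𝒰 (𝓝 (pr x₀))) ∧ ∀ z, Tendsto (fun n => fs (F n z) (deriv (F n) z)) 𝒰 (𝓝 0) := by
  obtain ⟨G, hG, hGX, hpr, hfs, hloc⟩ := limit_curves h.cone hL 𝒰 F ρ hρ
    (hF.mono fun n hn => ⟨hn.1, fun z hz => ⟨h.V_sub (h.U_sub (hn.2 z hz).1), (hn.2 z hz).2⟩⟩)
  have hG0 : ∀ z, G z ≠ 0 := fun z => Lim_ne h (hGX z)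
  have hGD : ∀ z, G z ∈ D := by
    intro z
    refine tendsto_D h (hG0 z) 𝒰 (fun n => F n z) ?_ (hpr z) (he z)
    filter_upwards [hF, Lim_ball 𝒰 hρ ‖z‖] with n hn1 hn2
    exact h.U_sub (hn1.2 z (hn2 (by simp))).1
  have hcst := Lim_const h 𝒰 F ρ hρ hF hG hGX hGD hloc
  refine ⟨G 0, hGD 0, fun z => ?_, fun z => ?_⟩
  · obtain ⟨c, hc, h1⟩ := hcst z
    have h2 := hpr z
    rwa [h1, pr_smul _ hc] at h2
  · have h1 := hfs z
    rwa [Lim_fs hG hG0 hcst z] at h1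

theorem lim_unif (hX : IsCone Xb) {L : ℝ} (hL : 0 < L) (𝒰 : Ultrafilter ℕ) (F : ℕ → ℂ → EN N) (ρ : ℕ → ℝ)
    (hρ : Tendsto ρ 𝒰 atTop) (hF : ∀ᶠ n in (𝒰 : Filter ℕ), DifferentiableOn ℂ (F n) (ball 0 (ρ n)) ∧
      ∀ z ∈ ball (0 : ℂ) (ρ n), F n z ∈ Xb ∧ fs (F n z) (deriv (F n) z) ≤ L) {x₀ : EN N}
    (hx : ∀ z, Tendsto (fun n => pr (F n z)) 𝒰 (𝓝 (pr x₀))) (R ε : ℝ) (hε : 0 < ε) :
    ∀ᶠ n in (𝒰 : Filter ℕ), ∀ z ∈ closedBall (0 : ℂ) R, dist (pr (F n z)) (pr x₀) < ε := by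
  obtain ⟨δ, hδ, hδε⟩ : ∃ δ : ℝ, 0 < δ ∧ 2 * L * δ ≤ ε / 2 := by
    refine ⟨ε / (4 * L), by positivity, le_of_eq ?_⟩
    field_simp
    norm_num
  obtain ⟨t, -, htf, ht⟩ := (isCompact_closedBall (0 : ℂ) R).finite_cover_balls hδ
  have h1 : ∀ᶠ n in (𝒰 : Filter ℕ), ∀ w ∈ t, dist (pr (F n w)) (pr x₀) < ε / 2 := by
    rw [Filter.eventually_all_finite htf]
    intro w _
    exact (Metric.tendsto_nhds.1 (hx w)) (ε / 2) (by positivity)
  obtain ⟨R', hR'⟩ : ∃ R' : ℝ, ∀ w ∈ t, ‖w‖ ≤ R' := by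
    obtain ⟨R', h2⟩ := htf.isBounded.exists_norm_le
    exact ⟨R', h2⟩
  filter_upwards [hF, h1, Lim_ball 𝒰 hρ R, Lim_ball 𝒰 hρ R'] with n hn1 hn2 hn3 hn4 z hz
  have h3 := ht hz
  simp only [mem_iUnion, mem_ball, exists_prop] at h3
  obtain ⟨w, hwt, hzw⟩ := h3
  have h4 := pr_lipschitz isOpen_ball (convex_ball (0 : ℂ) (ρ n)) hn1.1
    (fun v hv h0 => hX.zero_notMem (h0 ▸ (hn1.2 v hv).1)) (fun v hv => (hn1.2 v hv).2) z (hn3 hz) w
    (hn4 (by rw [mem_closedBall_zero_iff]; exact hR' w hwt))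
  have h5 := hn2 w hwt
  rw [dist_eq_norm] at hzw
  have h6 : 2 * L * ‖z - w‖ ≤ 2 * L * δ := by gcongr
  have h7 := dist_triangle (pr (F n z)) (pr (F n w)) (pr x₀)
  linarith

end Pool.Agent.EG.LE

end

section

/-!
# EG LE Der: derivatives of the sections in the ends

Proof (helper41):
resc: the rescaling lemma (copy of rescale_fs_half in H62/EL/Zl.lean, for a curve on the unit disc only).
der_bound: suppose not: for every n there are z n with Re (z n) ≤ -n and F n, SecOn on ball (z n) 1, with fs > 4 (n + 1).  resc for ζ ↦ F n (z n + ζ) gives w n, a n with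
G n ζ := F n (z n + w n + ζ / a n), fs (G n 0) (deriv (G n) 0) = 1, fs ≤ 2 on ball 0 (n + 1), G n is defined there (‖w n‖ ≤ 1/2, (n+1) / a n < 1/4).
‖exp (u (G n ζ))‖ = exp (Re (z n + w n + ζ / a n)) ≤ exp (-n + 1) (u (F z) - z in Lambda, lat) -> 0.  lim_const (𝒰 := hyperfilter ℕ, L = 2, ρ n = n + 1): fs (G n 0) (..) -> 0, but it is 1.
der_small: suppose not for some ε, R: for every n there are z n, Re (z n) ≤ -n - ..., F n SecOn on ball (z n) (n + 2), and a point w in closedBall (z n) R with fs ≥ ε or dist (pr (F n w)) (pr (F n (z n))) ≥ ε.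
By der_bound fs (F n) ≤ L on ball (z n) (n + 1) intersected with {Re ≤ -X0}: choose Re (z n) ≤ -2 n - 2 - X0, so that the whole ball is there.  lim_const, lim_unif for ζ ↦ F n (z n + ζ) on ball 0 n:
dist (pr (F n (z n + ζ))) (pr x0) < ε / 2 on closedBall 0 R: contradiction for the distance; for fs at the points w n = z n + ζ n: translate by ζ n as well (F n (z n + ζ n + ζ)), so fs at 0 -> 0.
-/

set_option autoImplicit false

open Topology Filter Metric Set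

namespace Pool.Agent.EG.LE

attribute [-instance] ProperSMul.toContinuousSMul

open Pool.Agent.H36.BP (EN fs wd)
open Pool.Agent.H14.PP (IsCone Tan jac)
open Pool.Agent.H62.EF (MN pr)
open Pool.Agent.H62.EL (TForm)

variable {N : ℕ} {Xb V U D : Set (EN N)} {Λ : AddSubgroup ℂ} {u : EN N → ℂ} {α : TForm V Λ u}

theorem resc {F : ℂ → EN N} (hF : DifferentiableOn ℂ F (ball 0 1)) (h0 : ∀ z ∈ ball (0 : ℂ) 1, F z ≠ 0) (n : ℕ)
    (hbig : 4 * ((n : ℝ) + 1) < fs (F 0) (deriv F 0)) :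
    ∃ (z₀ : ℂ) (a : ℝ), ‖z₀‖ ≤ 1 / 2 ∧ 4 * ((n : ℝ) + 1) < a ∧ fs (F z₀) (deriv (fun ζ => F (z₀ + ((a⁻¹ : ℝ) : ℂ) * ζ)) 0) = 1 ∧
      ∀ ζ ∈ ball (0 : ℂ) (n + 1), ‖z₀ + ((a⁻¹ : ℝ) : ℂ) * ζ‖ < 1 ∧
        fs (F (z₀ + ((a⁻¹ : ℝ) : ℂ) * ζ)) (deriv (fun ζ => F (z₀ + ((a⁻¹ : ℝ) : ℂ) * ζ)) ζ) ≤ 2 := by
  have hn : (0 : ℝ) ≤ n := Nat.cast_nonneg n
  have hsub : closedBall (0 : ℂ) (1 / 2) ⊆ ball (0 : ℂ) 1 := closedBall_subset_ball (by norm_num)
  have hFc : ContinuousOn F (closedBall (0 : ℂ) (1 / 2)) := hF.continuousOn.mono hsub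
  have hF'c : ContinuousOn (deriv F) (closedBall (0 : ℂ) (1 / 2)) := (hF.deriv isOpen_ball).continuousOn.mono hsub
  have hgc : ContinuousOn (fun z : ℂ => fs (F z) (deriv F z)) (closedBall (0 : ℂ) (1 / 2)) := by
    unfold fs
    refine (Pool.Agent.H36.BP.wd_cont.comp_continuousOn (hFc.prodMk hF'c)).div (hFc.norm.pow 2) ?_
    intro z hz
    exact pow_ne_zero 2 (norm_ne_zero_iff.mpr (h0 z (hsub hz)))
  set g : ℂ → ℝ := fun z => fs (F z) (deriv F z) * (1 / 2 - ‖z‖) with hg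
  have hgc' : ContinuousOn g (closedBall (0 : ℂ) (1 / 2)) := hgc.mul (continuous_const.sub continuous_norm).continuousOn
  obtain ⟨z₀, hz₀, hmax⟩ := (isCompact_closedBall (0 : ℂ) (1 / 2)).exists_isMaxOn ⟨0, by simp⟩ hgc'
  have hz₀n : ‖z₀‖ ≤ 1 / 2 := by simpa using hz₀
  have hg0z : g 0 ≤ g z₀ := hmax (by simp : (0 : ℂ) ∈ closedBall (0 : ℂ) (1 / 2))
  have hg0 : g 0 = fs (F 0) (deriv F 0) / 2 := by simp only [hg, norm_zero]; ring
  have hm : 2 * ((n : ℝ) + 1) < g z₀ := by rw [hg0] at hg0z; linarith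
  set d : ℝ := 1 / 2 - ‖z₀‖ with hd
  have hd0 : 0 ≤ d := by rw [hd]; linarith
  set a : ℝ := fs (F z₀) (deriv F z₀) with ha
  have ha0 : 0 ≤ a := Pool.Agent.H36.BP.fs_nonneg _ _
  have hgz : g z₀ = a * d := rfl
  have hpos : 0 < a * d := by rw [← hgz]; linarith
  have hapos : 0 < a := by
    rcases ha0.lt_or_eq with h | h
    · exact h
    · rw [← h] at hpos; simp at hpos
  have hdpos : 0 < d := by
    rcases hd0.lt_or_eq with h | h
    · exact h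
    · rw [← h] at hpos; simp at hpos
  have hd2 : d ≤ 1 / 2 := by rw [hd]; linarith [norm_nonneg z₀]
  have haL : 4 * ((n : ℝ) + 1) < a := by
    have h1 : a * d ≤ a * (1 / 2) := mul_le_mul_of_nonneg_left hd2 ha0
    rw [hgz] at hm
    linarith
  set φ : ℂ → ℂ := fun ζ => z₀ + ((a⁻¹ : ℝ) : ℂ) * ζ with hφ
  have hφd : ∀ ζ, HasDerivAt φ ((a⁻¹ : ℝ) : ℂ) ζ := by
    intro ζ
    have := ((hasDerivAt_id ζ).const_mul ((a⁻¹ : ℝ) : ℂ)).const_add z₀
    simpa [hφ] using this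
  have hkey : ∀ ζ ∈ ball (0 : ℂ) (n + 1), ‖φ ζ‖ ≤ 1 / 2 - d / 2 := by
    intro ζ hζ
    have hζn : ‖ζ‖ < n + 1 := by simpa using hζ
    have h1 : ‖φ ζ‖ ≤ ‖z₀‖ + a⁻¹ * ‖ζ‖ := by
      calc ‖φ ζ‖ ≤ ‖z₀‖ + ‖((a⁻¹ : ℝ) : ℂ) * ζ‖ := norm_add_le _ _
        _ = ‖z₀‖ + a⁻¹ * ‖ζ‖ := by
          rw [norm_mul, Complex.norm_real, Real.norm_of_nonneg (by positivity)]
    have h2 : a⁻¹ * ‖ζ‖ ≤ d / 2 := by
      rw [inv_mul_le_iff₀ hapos]
      rw [hgz] at hm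
      linarith
    have h3 : ‖z₀‖ = 1 / 2 - d := by rw [hd]; ring
    linarith
  have hball : ∀ ζ ∈ ball (0 : ℂ) (n + 1), φ ζ ∈ closedBall (0 : ℂ) (1 / 2) := by
    intro ζ hζ
    have := hkey ζ hζ
    rw [mem_closedBall_zero_iff]
    linarith
  have hder : ∀ ζ, φ ζ ∈ closedBall (0 : ℂ) (1 / 2) → deriv (fun ζ => F (φ ζ)) ζ = ((a⁻¹ : ℝ) : ℂ) • deriv F (φ ζ) := by
    intro ζ hζ
    exact ((hF.differentiableAt (isOpen_ball.mem_nhds (hsub hζ))).hasDerivAt.scomp ζ (hφd ζ)).deriv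
  have hfs : ∀ ζ, φ ζ ∈ closedBall (0 : ℂ) (1 / 2) → fs (F (φ ζ)) (deriv (fun ζ => F (φ ζ)) ζ) = a⁻¹ * fs (F (φ ζ)) (deriv F (φ ζ)) := by
    intro ζ hζ
    rw [hder ζ hζ, Pool.Agent.H36.BP.fs_smul_right, Complex.norm_real, Real.norm_of_nonneg (by positivity)]
  have hφ0 : φ 0 = z₀ := by simp [hφ]
  refine ⟨z₀, a, hz₀n, haL, ?_, ?_⟩
  · have h1 := hfs 0 (by rw [hφ0]; exact hz₀)
    rw [hφ0, ← ha, inv_mul_cancel₀ hapos.ne'] at h1
    exact h1
  · intro ζ hζ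
    refine ⟨?_, ?_⟩
    · have h1 : ‖φ ζ‖ ≤ 1 / 2 - d / 2 := hkey ζ hζ
      have h2 : ‖z₀ + ((a⁻¹ : ℝ) : ℂ) * ζ‖ ≤ 1 / 2 - d / 2 := h1
      linarith
    change fs (F (φ ζ)) (deriv (fun ζ => F (φ ζ)) ζ) ≤ 2
    rw [hfs ζ (hball ζ hζ)]
    have h1 : g (φ ζ) ≤ g z₀ := hmax (hball ζ hζ)
    have h2 := hkey ζ hζ
    have h3 : fs (F (φ ζ)) (deriv F (φ ζ)) * (1 / 2 - ‖φ ζ‖) ≤ a * d := h1
    have h4 : 0 ≤ fs (F (φ ζ)) (deriv F (φ ζ)) := Pool.Agent.H36.BP.fs_nonneg _ _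
    have h5 : fs (F (φ ζ)) (deriv F (φ ζ)) * (d / 2) ≤ a * d :=
      le_trans (mul_le_mul_of_nonneg_left (by linarith) h4) h3
    have h6 : fs (F (φ ζ)) (deriv F (φ ζ)) ≤ 2 * a := by
      by_contra hc
      push Not at hc
      have : 2 * a * (d / 2) < fs (F (φ ζ)) (deriv F (φ ζ)) * (d / 2) := mul_lt_mul_of_pos_right hc (by linarith)
      linarith
    rw [inv_mul_le_iff₀ hapos]
    linarith

private theorem der_ne_zero (h : EndData Xb V U D Λ u α) {x : EN N} (hx : x ∈ U) : x ≠ 0 := by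
  intro h0
  exact h.cone.zero_notMem (h0 ▸ h.V_sub (h.U_sub hx))

/-- the exponential of the value of `u` on a section -/
private theorem der_exp (h : EndData Xb V U D Λ u α) {x : EN N} {z : ℂ} (hx : u x - z ∈ Λ) :
    ‖Complex.exp (u x)‖ = Real.exp z.re := by
  have h1 : Complex.exp (u x - z) = 1 := (h.lat _).mp hx
  have h2 : Complex.exp (u x) = Complex.exp z := by
    have : u x = (u x - z) + z := by ring
    rw [this, Complex.exp_add, h1, one_mul]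
  rw [h2, Complex.norm_exp]

/-- if `‖exp (u (G n z))‖` is at most `exp (1 - n)` for large `n` then it tends to zero -/
private theorem der_tends {g : ℕ → ℝ} (hg0 : ∀ n, 0 ≤ g n) (hg : ∀ᶠ n in (hyperfilter ℕ : Filter ℕ), g n ≤ Real.exp (1 - (n : ℝ))) :
    Tendsto g (hyperfilter ℕ) (𝓝 0) := by
  have h1 : Tendsto (fun n : ℕ => Real.exp (1 - (n : ℝ))) atTop (𝓝 0) := by
    refine Real.tendsto_exp_atBot.comp ?_
    have h2 : Tendsto (fun n : ℕ => -(n : ℝ)) atTop atBot := tendsto_neg_atTop_atBot.comp tendsto_natCast_atTop_atTop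
    exact (tendsto_atBot_add_const_left _ 1 h2).congr fun n => by ring
  have h3 : Tendsto (fun n : ℕ => Real.exp (1 - (n : ℝ))) (hyperfilter ℕ) (𝓝 0) := h1.mono_left Nat.hyperfilter_le_atTop
  exact tendsto_of_tendsto_of_tendsto_of_le_of_le' tendsto_const_nhds h3 (Eventually.of_forall hg0) hg

private theorem der_rho (c : ℝ) : Tendsto (fun n : ℕ => (n : ℝ) + c) (hyperfilter ℕ) atTop :=
  (tendsto_atTop_add_const_right _ c tendsto_natCast_atTop_atTop).mono_left Nat.hyperfilter_le_atTop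

private theorem der_ev (p : ℕ → Prop) (c : ℝ) (hp : ∀ n : ℕ, c ≤ (n : ℝ) → p n) : ∀ᶠ n in (hyperfilter ℕ : Filter ℕ), p n := by
  have h1 : ∀ᶠ n : ℕ in atTop, c ≤ (n : ℝ) := tendsto_natCast_atTop_atTop.eventually_ge_atTop c
  exact (h1.mono hp).filter_mono Nat.hyperfilter_le_atTop

theorem der_bound (h : EndData Xb V U D Λ u α) : ∃ L X₀ : ℝ, 0 < L ∧ ∀ (z₀ : ℂ) (F : ℂ → EN N), z₀.re ≤ -X₀ → SecOn U Λ u (ball z₀ 1) F →
    fs (F z₀) (deriv F z₀) ≤ L := by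
  by_contra hcon
  push Not at hcon
  have hbig : ∀ n : ℕ, ∃ (z : ℂ) (F : ℂ → EN N), z.re ≤ -(n : ℝ) ∧ SecOn U Λ u (ball z 1) F ∧ 4 * ((n : ℝ) + 1) < fs (F z) (deriv F z) :=
    fun n => hcon _ n (by positivity)
  choose z F hz hF hb using hbig
  have hmem : ∀ (n : ℕ) (v : ℂ), ‖v‖ < 1 → z n + v ∈ ball (z n) 1 := by
    intro n v hv
    simpa [mem_ball, dist_eq_norm] using hv
  have hres : ∀ n : ℕ, ∃ (w : ℂ) (a : ℝ), ‖w‖ ≤ 1 / 2 ∧ 4 * ((n : ℝ) + 1) < a ∧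
      fs (F n (z n + w)) (deriv (fun ζ => F n (z n + (w + ((a⁻¹ : ℝ) : ℂ) * ζ))) 0) = 1 ∧
      ∀ ζ ∈ ball (0 : ℂ) (n + 1), ‖w + ((a⁻¹ : ℝ) : ℂ) * ζ‖ < 1 ∧
        fs (F n (z n + (w + ((a⁻¹ : ℝ) : ℂ) * ζ))) (deriv (fun ζ => F n (z n + (w + ((a⁻¹ : ℝ) : ℂ) * ζ))) ζ) ≤ 2 := by
    intro n
    have hd : DifferentiableOn ℂ (fun ζ => F n (z n + ζ)) (ball 0 1) := by
      refine (hF n).1.comp (by fun_prop) ?_
      intro ζ hζ
      exact hmem n ζ (by simpa using hζ)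
    refine resc hd ?_ n ?_
    · intro ζ hζ
      exact der_ne_zero h ((hF n).2 _ (hmem n ζ (by simpa using hζ))).1
    · have h1 : deriv (fun ζ => F n (z n + ζ)) 0 = deriv (F n) (z n) := by
        rw [deriv_comp_const_add, add_zero]
      rw [h1, add_zero]
      exact hb n
  choose w a hw ha h1 h2 using hres
  have hre : ∀ (n : ℕ) (v : ℂ), ‖v‖ < 1 → (z n + v).re ≤ 1 - (n : ℝ) := by
    intro n v hv
    have h3 := hz n
    have h4 : v.re ≤ ‖v‖ := Complex.re_le_norm v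
    rw [Complex.add_re]
    linarith
  obtain ⟨x₀, -, -, hlim⟩ := lim_const h (L := 2) two_pos (hyperfilter ℕ)
    (fun n ζ => F n (z n + (w n + (((a n)⁻¹ : ℝ) : ℂ) * ζ))) (fun n => (n : ℝ) + 1) (der_rho 1)
    (Eventually.of_forall fun n => ⟨by
      refine (hF n).1.comp (by fun_prop) ?_
      intro ζ hζ
      exact hmem n _ (h2 n ζ hζ).1, fun ζ hζ => ⟨((hF n).2 _ (hmem n _ (h2 n ζ hζ).1)).1, (h2 n ζ hζ).2⟩⟩)
    (by
      intro ζ
      refine der_tends (fun n => norm_nonneg _) (der_ev _ ‖ζ‖ fun n hn => ?_)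
      have hζ : ζ ∈ ball (0 : ℂ) (n + 1) := by
        rw [mem_ball_zero_iff]; linarith
      have h3 := h2 n ζ hζ
      rw [der_exp h ((hF n).2 _ (hmem n _ h3.1)).2]
      exact Real.exp_le_exp.mpr (hre n _ h3.1))
  have h3 := hlim 0
  have h4 : (fun n : ℕ => fs (F n (z n + (w n + (((a n)⁻¹ : ℝ) : ℂ) * 0)))
      (deriv (fun ζ => F n (z n + (w n + (((a n)⁻¹ : ℝ) : ℂ) * ζ))) 0)) = fun _ => (1 : ℝ) := by
    funext n
    rw [mul_zero, add_zero]
    exact h1 n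
  rw [h4] at h3
  have h5 : (1 : ℝ) = 0 := tendsto_nhds_unique tendsto_const_nhds h3
  exact one_ne_zero h5

theorem der_small (h : EndData Xb V U D Λ u α) (R ε : ℝ) (hε : 0 < ε) : ∃ r X₀ : ℝ, 0 < r ∧ R < r ∧ ∀ (z₀ : ℂ) (F : ℂ → EN N), z₀.re ≤ -X₀ →
    SecOn U Λ u (ball z₀ r) F → ∀ z ∈ closedBall z₀ R, fs (F z) (deriv F z) < ε ∧ dist (pr (F z)) (pr (F z₀)) < ε := by
  obtain ⟨L, X₀, hL, hbd⟩ := der_bound h
  by_contra hcon
  push Not at hcon
  have hbig : ∀ n : ℕ, ∃ (z : ℂ) (F : ℂ → EN N), z.re ≤ -(2 * (n : ℝ) + 2 + |X₀| + |R|) ∧ SecOn U Λ u (ball z ((n : ℝ) + 2 + |R|)) F ∧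
      ∃ w ∈ closedBall z R, fs (F w) (deriv F w) < ε → ε ≤ dist (pr (F w)) (pr (F z)) :=
    fun n => hcon ((n : ℝ) + 2 + |R|) _ (by positivity) (by
      have := le_abs_self R
      have h2 : (0 : ℝ) ≤ n := Nat.cast_nonneg n
      linarith)
  choose z F hz hF w hw hb using hbig
  have hX0 := neg_abs_le X₀
  have hX1 := le_abs_self X₀
  have hR0 := abs_nonneg R
  have hR1 := le_abs_self R
  -- the bound of the derivatives on the ball of radius `n + 1 + |R|`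
  have hbd' : ∀ (n : ℕ) (v : ℂ), ‖v‖ < (n : ℝ) + 1 + |R| → fs (F n (z n + v)) (deriv (F n) (z n + v)) ≤ L := by
    intro n v hv
    have h1 : (z n + v).re ≤ -X₀ := by
      have h3 := hz n
      have h4 : v.re ≤ ‖v‖ := Complex.re_le_norm v
      have h5 : (0 : ℝ) ≤ n := Nat.cast_nonneg n
      rw [Complex.add_re]
      linarith
    refine hbd _ _ h1 ⟨(hF n).1.mono ?_, fun y hy => (hF n).2 y ?_⟩
    · refine ball_subset_ball' ?_
      rw [dist_eq_norm, add_sub_cancel_left]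
      linarith
    · refine ball_subset_ball' ?_ hy
      rw [dist_eq_norm, add_sub_cancel_left]
      linarith
  -- the limit of the translates of `F n`
  have hkey : ∀ v : ℕ → ℂ, (∀ n, ‖v n‖ ≤ |R|) → ∃ x₀ ∈ D, (∀ ζ, Tendsto (fun n => pr (F n (z n + (v n + ζ)))) (hyperfilter ℕ) (𝓝 (pr x₀))) ∧
      (∀ ζ, Tendsto (fun n => fs (F n (z n + (v n + ζ))) (deriv (fun ζ => F n (z n + (v n + ζ))) ζ)) (hyperfilter ℕ) (𝓝 0)) ∧
      ∀ S δ : ℝ, 0 < δ → ∀ᶠ n in (hyperfilter ℕ : Filter ℕ), ∀ ζ ∈ closedBall (0 : ℂ) S, dist (pr (F n (z n + (v n + ζ)))) (pr x₀) < δ := by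
    intro v hv
    have hdiff : ∀ n : ℕ, DifferentiableOn ℂ (fun ζ => F n (z n + (v n + ζ))) (ball 0 ((n : ℝ) + 1)) := by
      intro n
      refine (hF n).1.comp (by fun_prop) ?_
      intro ζ hζ
      have h1 : ‖ζ‖ < (n : ℝ) + 1 := by simpa using hζ
      have h2 : ‖v n + ζ‖ ≤ ‖v n‖ + ‖ζ‖ := norm_add_le _ _
      have h3 := hv n
      rw [mem_ball, dist_eq_norm, add_sub_cancel_left]
      linarith
    have hder : ∀ (n : ℕ) (ζ : ℂ), deriv (fun ζ => F n (z n + (v n + ζ))) ζ = deriv (F n) (z n + (v n + ζ)) := by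
      intro n ζ
      rw [deriv_comp_const_add (f := fun ζ => F n (z n + ζ)), deriv_comp_const_add]
    have hlen : ∀ (n : ℕ) (ζ : ℂ), ζ ∈ ball (0 : ℂ) ((n : ℝ) + 1) → ‖v n + ζ‖ < (n : ℝ) + 1 + |R| := by
      intro n ζ hζ
      have h1 : ‖ζ‖ < (n : ℝ) + 1 := by simpa using hζ
      have h2 : ‖v n + ζ‖ ≤ ‖v n‖ + ‖ζ‖ := norm_add_le _ _
      have h3 := hv n
      linarith
    have hU : ∀ (n : ℕ) (ζ : ℂ), ζ ∈ ball (0 : ℂ) ((n : ℝ) + 1) → z n + (v n + ζ) ∈ ball (z n) ((n : ℝ) + 2 + |R|) := by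
      intro n ζ hζ
      have h1 := hlen n ζ hζ
      rw [mem_ball, dist_eq_norm, add_sub_cancel_left]
      linarith
    have hfs : ∀ (n : ℕ) (ζ : ℂ), ζ ∈ ball (0 : ℂ) ((n : ℝ) + 1) →
        fs (F n (z n + (v n + ζ))) (deriv (fun ζ => F n (z n + (v n + ζ))) ζ) ≤ L := by
      intro n ζ hζ
      rw [hder]
      exact hbd' n _ (hlen n ζ hζ)
    obtain ⟨x₀, hx₀, hpr, hfs0⟩ := lim_const h hL (hyperfilter ℕ) (fun n ζ => F n (z n + (v n + ζ))) (fun n => (n : ℝ) + 1) (der_rho 1)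
      (Eventually.of_forall fun n => ⟨hdiff n, fun ζ hζ => ⟨((hF n).2 _ (hU n ζ hζ)).1, hfs n ζ hζ⟩⟩)
      (by
        intro ζ
        refine der_tends (fun n => norm_nonneg _) (der_ev _ ‖ζ‖ fun n hn => ?_)
        have hζ : ζ ∈ ball (0 : ℂ) ((n : ℝ) + 1) := by
          rw [mem_ball_zero_iff]; linarith
        rw [der_exp h ((hF n).2 _ (hU n ζ hζ)).2]
        refine Real.exp_le_exp.mpr ?_
        have h3 := hz n
        have h4 : (v n + ζ).re ≤ ‖v n + ζ‖ := Complex.re_le_norm _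
        have h5 := hlen n ζ hζ
        have h6 : (0 : ℝ) ≤ n := Nat.cast_nonneg n
        have h7 : 0 ≤ |X₀| := abs_nonneg X₀
        rw [Complex.add_re]
        linarith)
    refine ⟨x₀, hx₀, hpr, hfs0, fun S δ hδ => ?_⟩
    exact lim_unif h.cone hL (hyperfilter ℕ) (fun n ζ => F n (z n + (v n + ζ))) (fun n => (n : ℝ) + 1) (der_rho 1)
      (Eventually.of_forall fun n => ⟨hdiff n, fun ζ hζ => ⟨h.V_sub (h.U_sub ((hF n).2 _ (hU n ζ hζ)).1), hfs n ζ hζ⟩⟩) hpr S δ hδ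
  have hwR : ∀ n, ‖w n - z n‖ ≤ |R| := by
    intro n
    have h1 := hw n
    rw [mem_closedBall, dist_eq_norm] at h1
    linarith
  obtain ⟨x₀, -, -, -, hun⟩ := hkey (fun _ => 0) (fun n => by simp)
  obtain ⟨x₁, -, -, hfs1, -⟩ := hkey (fun n => w n - z n) hwR
  have e1 : ∀ᶠ n in (hyperfilter ℕ : Filter ℕ), fs (F n (w n)) (deriv (F n) (w n)) < ε := by
    have h1 := (hfs1 0).eventually_lt_const hε
    refine h1.mono fun n hn => ?_
    have h2 : z n + (w n - z n + 0) = w n := by ring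
    have h3 : deriv (fun ζ => F n (z n + (w n - z n + ζ))) 0 = deriv (F n) (w n) := by
      rw [deriv_comp_const_add (f := fun ζ => F n (z n + ζ)), deriv_comp_const_add, h2]
    rw [h3, h2] at hn
    exact hn
  have e2 : ∀ᶠ n in (hyperfilter ℕ : Filter ℕ), dist (pr (F n (w n))) (pr (F n (z n))) < ε := by
    refine (hun |R| (ε / 2) (half_pos hε)).mono fun n hn => ?_
    have h1 := hn (w n - z n) (by rw [mem_closedBall_zero_iff]; exact hwR n)
    have h2 := hn 0 (by rw [mem_closedBall_zero_iff, norm_zero]; exact hR0)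
    have h3 : z n + (0 + (w n - z n)) = w n := by ring
    have h4 : z n + ((0 : ℂ) + 0) = z n := by ring
    rw [h3] at h1
    rw [h4] at h2
    calc dist (pr (F n (w n))) (pr (F n (z n))) ≤ dist (pr (F n (w n))) (pr x₀) + dist (pr (F n (z n))) (pr x₀) := dist_triangle_right _ _ _
      _ < ε / 2 + ε / 2 := add_lt_add h1 h2
      _ = ε := add_halves ε
  obtain ⟨n, hn1, hn2⟩ := (e1.and e2).exists
  exact absurd hn2 (not_lt.mpr (hb n hn1))

end Pool.Agent.EG.LE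

end
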