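import Pool.Agent.H94.CB.M05
import Pool.Agent.H94.CB.M16
import Pool.Agent.H94.CB.M19

/-! The parts of this file: H17BP.Model, H17BP.ChLem, H17BP.ResS, H36.BP.WdA_1. -/

section

/-!
# Holomorphic curves in a closed surface, the induction hypothesis

Holomorphic maps into `ℙ(V)` are given by functions with values in `V ∖ {0}`, which are not required to be
continuous, see `HolP`.
-/

open Topology Filter

noncomputable section

namespace Pool.Agent.H17BP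

attribute [-instance] ProperSMul.toContinuousSMul

variable {V : Type} [NormedAddCommGroup V] [NormedSpace ℂ V]

/-- The two vectors are proportional. -/
def Pr (x y : V) : Prop := ∃ c : ℂ, c ≠ 0 ∧ x = c • y

/-- The function `f` is, near `z₀`, proportional to a holomorphic function without zeros, that is, `f` defines a
holomorphic map to `ℙ(V)`. -/
def HolP (f : ℂ → V) (z₀ : ℂ) : Prop :=
  ∃ F : ℂ → V, AnalyticAt ℂ F z₀ ∧ F z₀ ≠ 0 ∧ ∀ᶠ z in 𝓝 z₀, Pr (f z) (F z)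

/-- Every holomorphic map from `ℂ` to the projective set with the cone `X` which is not a map into `B` is
constant. -/
def Brody (X B : Set V) : Prop :=
  ∀ f : ℂ → V, (∀ z, HolP f z) → (∀ z, f z ∈ X) → (∃ z, f z ∉ B) → ∀ z w, Pr (f z) (f w)

/-- Every holomorphic map from a punctured disc to the projective set with the cone `X` which is not a map into
`B` extends to the disc. -/
def Picard (X B : Set V) : Prop :=
  ∀ r : ℝ, 0 < r → ∀ f : ℂ → V, (∀ z : ℂ, z ≠ 0 → ‖z‖ < r → HolP f z ∧ f z ∈ X) →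
    (∃ z : ℂ, z ≠ 0 ∧ ‖z‖ < r ∧ f z ∉ B) →
    ∃ F : ℂ → V, AnalyticAt ℂ F 0 ∧ F 0 ≠ 0 ∧ ∀ᶠ z in 𝓝[≠] (0 : ℂ), Pr (f z) (F z)

/-- The subset `B` of `X` is the set of the common zeros of the forms `Q i` of degree `D`, and near every point
it is the set of the zeros of one of these forms. -/
structure Eqs (X B : Set V) {κ : Type} (Q : κ → V → ℂ) (D : ℕ) : Prop where
  pos : 1 ≤ D
  an : ∀ i x, AnalyticAt ℂ (Q i) x
  smul : ∀ i (c : ℂ) x, Q i (c • x) = c ^ D * Q i x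
  mem_iff : ∀ x, x ∈ B ↔ x ∈ X ∧ ∀ i, Q i x = 0
  gen : ∀ x ∈ X, ∃ i, ∀ᶠ y in 𝓝 x, y ∈ X → Q i y = 0 → y ∈ B

/-- At the point `x` the curve `B` has a local equation which becomes a monomial after at most `n` blow-ups over
every point. -/
def ResAt (X B : Set V) (x : V) (n : ℕ) : Prop :=
  ∃ σ τ g, IsChart X σ τ ∧ σ 0 = x ∧ LocalEq B σ g ∧ ResN n g

end Pool.Agent.H17BP

end
end

section

/-!
# Charts of a surface: nearby points, scaling, coordinate changes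

* `IsChart.near`: all conditions hold for `p` near `0`: `AnalyticAt.eventually_analyticAt`, `eventually_eventually_nhds`, and
  `p ↦ σ p`, `p ↦ (σ p, 1)` are continuous at `0`.  (`τ (σ (p + x)) - p = x`; `σ (p + (τ y - p)) = σ (τ y)`.)
* `IsChart.scale`: `y ↦ a⁻¹ • y` is continuous; `a⁻¹ • (c • y) = c • (a⁻¹ • y)`.
* `IsChart.comp`: `σ₁ = σ ∘ θ`, `τ₁ = θ' ∘ τ`; `σ₁ 0 = σ 0`, `τ (σ 0) = 0` (`left.self_of_nhds`), so `τ y → 0` for `y → σ 0`.
  `right`: `y = c • σ (τ y) = c • σ (θ (θ' (τ y)))`.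
* `IsChart.trans`: `σ' 0 = a • σ 0`, `θ p = τ (a⁻¹ • σ' p)`, `θ' p = τ' (a • σ p)`.  `Pr (σ' p) (σ (θ p))`: `h.right` at
  `y = a⁻¹ • σ' p`.  `θ (θ' p) = p`: by `h'.right` at `y = a • σ p`: `a • σ p = c • σ' (θ' p)` with `c → 1` for `p → 0`: choose
  a continuous linear form `Λ` with `Λ (σ 0) ≠ 0` (`exists_dual_vector`), `c = Λ (a • σ p) / Λ (σ' (θ' p))`; so
  `a⁻¹ • σ' (θ' p) = c⁻¹ • σ p` and `τ (c⁻¹ • σ p) = τ (σ p) = p` by `h.inv` and `h.left`.  `θ' (θ p) = p` by symmetry (it is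
  the same statement with the roles of the two charts exchanged: prove it as an auxiliary lemma).
-/

open Topology Filter

noncomputable section

namespace Pool.Agent.H17BP

attribute [-instance] ProperSMul.toContinuousSMul

variable {V : Type} [NormedAddCommGroup V] [NormedSpace ℂ V] {X : Set V} {σ σ' : ℂ × ℂ → V} {τ τ' : V → ℂ × ℂ}

theorem Pr.refl (x : V) : Pr x x := ⟨1, one_ne_zero, (one_smul _ _).symm⟩

theorem Pr.symm {x y : V} (h : Pr x y) : Pr y x := by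
  obtain ⟨c, hc, rfl⟩ := h
  exact ⟨c⁻¹, inv_ne_zero hc, by rw [smul_smul, inv_mul_cancel₀ hc, one_smul]⟩

theorem Pr.trans {x y z : V} (h : Pr x y) (h' : Pr y z) : Pr x z := by
  obtain ⟨c, hc, rfl⟩ := h
  obtain ⟨d, hd, rfl⟩ := h'
  exact ⟨c * d, mul_ne_zero hc hd, by rw [smul_smul]⟩

private theorem chLem_add (p : ℂ × ℂ) : Tendsto (fun x : ℂ × ℂ => p + x) (𝓝 0) (𝓝 p) := by
  have := (continuous_const_add p).tendsto (0 : ℂ × ℂ)
  rwa [add_zero] at this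

theorem IsChart.near [FiniteDimensional ℂ V] (h : IsChart X σ τ) :
    ∀ᶠ p in 𝓝 (0 : ℂ × ℂ), IsChart X (fun x => σ (p + x)) (fun y => τ y - p) := by
  have : CompleteSpace V := FiniteDimensional.complete ℂ V
  have hσ : Tendsto σ (𝓝 0) (𝓝 (σ 0)) := h.σ_an.continuousAt.tendsto
  have hσ1 : Tendsto (fun p => (σ p, (1 : ℂ))) (𝓝 0) (𝓝 (σ 0, (1 : ℂ))) := hσ.prodMk_nhds tendsto_const_nhds
  filter_upwards [h.σ_an.eventually_analyticAt, h.σ_mem.eventually_nhds, h.σ_an.continuousAt.eventually_ne h.ne,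
    hσ.eventually h.τ_an.eventually_analyticAt, h.left.eventually_nhds, hσ.eventually h.right.eventually_nhds,
    hσ1.eventually h.inv.eventually_nhds] with p h1 h2 h3 h4 h5 h6 h7
  have e0 : p + 0 = p := add_zero p
  refine ⟨?_, ?_, ?_, ?_, ?_, ?_, ?_⟩
  · refine AnalyticAt.comp (g := σ) (f := fun x : ℂ × ℂ => p + x) ?_ (analyticAt_const.add analyticAt_id)
    rw [e0]
    exact h1
  · exact (chLem_add p).eventually h2
  · simp only [e0]
    exact h3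
  · simp only [e0]
    exact h4.sub analyticAt_const
  · filter_upwards [(chLem_add p).eventually h5] with x hx
    rw [hx, add_sub_cancel_left]
  · simp only [e0]
    filter_upwards [h6] with y hy hyX
    obtain ⟨c, hc, hy2⟩ := hy hyX
    refine ⟨c, hc, ?_⟩
    rw [add_sub_cancel]
    exact hy2
  · simp only [e0]
    filter_upwards [h7] with y hy
    rw [hy]

theorem IsChart.scale (h : IsChart X σ τ) (hX : ∀ x ∈ X, ∀ c : ℂ, c ≠ 0 → c • x ∈ X) {a : ℂ} (ha : a ≠ 0) :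
    IsChart X (fun p => a • σ p) (fun y => τ (a⁻¹ • y)) := by
  have e1 : a⁻¹ • (a • σ 0) = σ 0 := by rw [smul_smul, inv_mul_cancel₀ ha, one_smul]
  have e2 : Tendsto (fun y : V => a⁻¹ • y) (𝓝 (a • σ 0)) (𝓝 (σ 0)) := by
    have := (continuous_const_smul a⁻¹).tendsto (a • σ 0)
    rwa [e1] at this
  refine ⟨h.σ_an.const_smul (c := a), ?_, smul_ne_zero ha h.ne, ?_, ?_, ?_, ?_⟩
  · filter_upwards [h.σ_mem] with p hp
    exact hX _ hp _ ha
  · refine AnalyticAt.comp (g := τ) (f := fun y : V => a⁻¹ • y) ?_ (analyticAt_id.const_smul (c := a⁻¹))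
    rw [e1]
    exact h.τ_an
  · filter_upwards [h.left] with p hp
    rw [smul_smul, inv_mul_cancel₀ ha, one_smul, hp]
  · filter_upwards [e2.eventually h.right] with y hy hyX
    obtain ⟨c, hc, hy2⟩ := hy (hX _ hyX _ (inv_ne_zero ha))
    refine ⟨c, hc, ?_⟩
    rw [smul_comm, ← hy2, smul_smul, mul_inv_cancel₀ ha, one_smul]
  · have e3 : Tendsto (fun p : V × ℂ => (a⁻¹ • p.1, p.2)) (𝓝 (a • σ 0, (1 : ℂ))) (𝓝 (σ 0, (1 : ℂ))) := by
      have e4 : Continuous fun p : V × ℂ => (a⁻¹ • p.1, p.2) := (continuous_fst.const_smul a⁻¹).prodMk continuous_snd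
      have := e4.tendsto (a • σ 0, (1 : ℂ))
      simpa only [e1] using this
    filter_upwards [e3.eventually h.inv] with p hp
    rw [smul_comm]
    exact hp

theorem IsChart.comp (h : IsChart X σ τ) {θ θ' : ℂ × ℂ → ℂ × ℂ} (hθ : Bihol θ) (hθ' : Bihol θ')
    (h1 : ∀ᶠ x in 𝓝 0, θ' (θ x) = x) (h2 : ∀ᶠ x in 𝓝 0, θ (θ' x) = x) :
    IsChart X (fun x => σ (θ x)) (fun y => θ' (τ y)) := by
  have hτ0 : τ (σ 0) = 0 := h.left.self_of_nhds
  have hτ : Tendsto τ (𝓝 (σ 0)) (𝓝 0) := by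
    have := h.τ_an.continuousAt.tendsto
    rwa [hτ0] at this
  refine ⟨?_, hθ.tendsto.eventually h.σ_mem, ?_, ?_, ?_, ?_, ?_⟩
  · refine AnalyticAt.comp (g := σ) (f := θ) ?_ hθ.an
    rw [hθ.zero]
    exact h.σ_an
  · simp only [hθ.zero]
    exact h.ne
  · simp only [hθ.zero]
    refine AnalyticAt.comp (g := θ') (f := τ) ?_ h.τ_an
    rw [hτ0]
    exact hθ'.an
  · filter_upwards [hθ.tendsto.eventually h.left, h1] with x hx hx1
    rw [hx, hx1]
  · simp only [hθ.zero]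
    filter_upwards [h.right, hτ.eventually h2] with y hy hy2 hyX
    obtain ⟨c, hc, hy3⟩ := hy hyX
    refine ⟨c, hc, ?_⟩
    rw [hy2]
    exact hy3
  · simp only [hθ.zero]
    filter_upwards [h.inv] with p hp
    rw [hp]

private theorem chLem_dual {x : V} (hx : x ≠ 0) : ∃ Λ : V →L[ℂ] ℂ, Λ x ≠ 0 := by
  obtain ⟨Λ, hΛ⟩ := exists_dual_vector ℂ x (norm_ne_zero_iff.mpr hx)
  refine ⟨Λ, ?_⟩
  rw [hΛ.2]
  simpa using hx

private theorem chLem_trans (h : IsChart X σ τ) (h' : IsChart X σ' τ') (h0 : σ' 0 = σ 0) :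
    ∀ᶠ p in 𝓝 (0 : ℂ × ℂ), τ (σ' (τ' (σ p))) = p := by
  obtain ⟨Λ, hΛ⟩ := chLem_dual h.ne
  have hσ : Tendsto σ (𝓝 0) (𝓝 (σ 0)) := h.σ_an.continuousAt.tendsto
  have hσ' : Tendsto σ' (𝓝 0) (𝓝 (σ 0)) := by
    have := h'.σ_an.continuousAt.tendsto
    rwa [h0] at this
  have hτ' : Tendsto τ' (𝓝 (σ 0)) (𝓝 0) := by
    have := h'.τ_an.continuousAt.tendsto
    rwa [h'.left.self_of_nhds, h0] at this
  have hθ' : Tendsto (fun p => σ' (τ' (σ p))) (𝓝 0) (𝓝 (σ 0)) := hσ'.comp (hτ'.comp hσ)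
  have h1 : Tendsto (fun p => Λ (σ p)) (𝓝 0) (𝓝 (Λ (σ 0))) := (Λ.continuous.tendsto _).comp hσ
  have h2 : Tendsto (fun p => Λ (σ' (τ' (σ p)))) (𝓝 0) (𝓝 (Λ (σ 0))) := (Λ.continuous.tendsto _).comp hθ'
  have h3 : Tendsto (fun p => (σ p, Λ (σ' (τ' (σ p))) / Λ (σ p))) (𝓝 0) (𝓝 (σ 0, (1 : ℂ))) := by
    have := h2.div h1 hΛ
    rw [div_self hΛ] at this
    exact hσ.prodMk_nhds this
  have h4 : ∀ᶠ y in 𝓝 (σ 0), y ∈ X → ∃ c : ℂ, c ≠ 0 ∧ y = c • σ' (τ' y) := by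
    rw [← h0]
    exact h'.right
  filter_upwards [hσ.eventually h4, h.σ_mem, h3.eventually h.inv, h.left, h1.eventually_ne hΛ, h2.eventually_ne hΛ]
    with p g1 g2 g3 g4 g5 g6
  obtain ⟨c, hc, g7⟩ := g1 g2
  have g8 : Λ (σ p) = c * Λ (σ' (τ' (σ p))) := by
    conv_lhs => rw [g7]
    rw [map_smul, smul_eq_mul]
  have g9 : Λ (σ' (τ' (σ p))) / Λ (σ p) = c⁻¹ := by
    rw [div_eq_iff g5, g8, ← mul_assoc, inv_mul_cancel₀ hc, one_mul]
  have g10 : σ' (τ' (σ p)) = c⁻¹ • σ p := by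
    have := congrArg (fun v => c⁻¹ • v) g7
    simp only [smul_smul, inv_mul_cancel₀ hc, one_smul] at this
    exact this.symm
  simp only [g9] at g3
  rw [g10, g3, g4]

/-- Two charts at the same point differ by a local biholomorphism and factors. -/
theorem IsChart.trans (hX : ∀ x ∈ X, ∀ c : ℂ, c ≠ 0 → c • x ∈ X) (h : IsChart X σ τ) (h' : IsChart X σ' τ')
    (h0 : Pr (σ' 0) (σ 0)) : ∃ θ : ℂ × ℂ → ℂ × ℂ, Bihol θ ∧ ∀ᶠ p in 𝓝 (0 : ℂ × ℂ), Pr (σ' p) (σ (θ p)) := by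
  obtain ⟨a, ha, h0⟩ := h0
  have hs := h.scale hX ha
  have h1 := chLem_trans hs h' h0
  have h2 := chLem_trans h' hs h0.symm
  have hσ' : Tendsto σ' (𝓝 0) (𝓝 (a • σ 0)) := by
    have := h'.σ_an.continuousAt.tendsto
    rwa [h0] at this
  have ht0 : τ (a⁻¹ • σ' 0) = 0 := by
    have := hs.left.self_of_nhds
    rw [h0]
    exact this
  have ht0' : τ' (a • σ 0) = 0 := by
    have := h'.left.self_of_nhds
    rwa [h0] at this
  refine ⟨fun p => τ (a⁻¹ • σ' p), ⟨?_, ht0, fun p => τ' (a • σ p), ?_, ht0', h2, h1⟩, ?_⟩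
  · refine AnalyticAt.comp (g := fun y => τ (a⁻¹ • y)) (f := σ') ?_ h'.σ_an
    rw [h0]
    exact hs.τ_an
  · refine AnalyticAt.comp (g := τ') (f := fun p => a • σ p) ?_ hs.σ_an
    rw [← h0]
    exact h'.τ_an
  · filter_upwards [hσ'.eventually hs.right, h'.σ_mem] with p h3 h4
    obtain ⟨c, hc, h5⟩ := h3 h4
    refine ⟨c * a, mul_ne_zero hc ha, ?_⟩
    rw [mul_smul]
    exact h5

end Pool.Agent.H17BP

end
end

section

/-!
# The resolution number at a point of the surface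

* `ResAt.chart`: let `σ, τ, g` be as in `ResAt`; `σ' p = c • σ (θ p)`, `c ≠ 0` near `0` (`IsChart.trans`).  As `B` is a cone,
  `σ' p ∈ B ↔ σ (θ p) ∈ B ↔ g (θ p) = 0`: `g ∘ θ` is a local equation, `ResN.comp`.
* `ResAt.pr`: `IsChart.scale` of the chart (the value at `0` is `a • x = y`) and `ResAt.chart`.
* `ResAt.near`: for `y ∈ X` near `x`: `y = c • σ (τ y)`, `p = τ y` near `0` (`τ x = 0`); `p ≠ 0` because `y` is not proportional
  to `x = σ 0`.  `IsChart.near`: `x ↦ σ (p + x)` is a chart at `σ p`, `g (p + ·)` a local equation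
  (`eventually_eventually_nhds`), `Mono` by `ResN.near`.  So `ResAt X B (σ p) 0`, then `ResAt.pr`.
* `exists_resAt`: choose a chart `σ` at `x` (`Surface.chart`) and `i` (`Eqs.gen`); `g p = Q i (σ p)` is analytic at `0`, and for
  `p` near `0`: `σ p ∈ B ↔ g p = 0` (`mem_iff`, `gen`); `g` does not vanish identically near `0` by `thin`; `exists_resN`.
* `ResAt.of_notMem`: `x ∉ B`: with `i` and `g` as before, `g 0 = Q i x ≠ 0` (otherwise `x ∈ B` by `gen`,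
  `self_of_nhds`), so `Mono g` with `a = b = 0`.
* `ResAt.nodal`: `g = S^a T^b u`.  Let `θ = (S, T)`, `θ'` the inverse germ; the chart `σ ∘ θ'` (`IsChart.comp`), in
  which `B` is given by `g (θ' x) = x.1^a x.2^b u(θ' x) = 0`.  If `a = b = 0`: not in `B` near `0`; `b = 0`, `a ≠ 0`: `x.1 = 0`;
  `a ≠ 0`, `b ≠ 0`: `x.1 x.2 = 0`; `a = 0`, `b ≠ 0`: exchange `S`, `T` (`Coord.symm`).
-/

open Topology Filter

noncomputable section

namespace Pool.Agent.H17BP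

attribute [-instance] ProperSMul.toContinuousSMul

variable {V : Type} [NormedAddCommGroup V] [NormedSpace ℂ V] {X B : Set V} {σ' : ℂ × ℂ → V} {τ' : V → ℂ × ℂ}
  {x y : V} {n k : ℕ}

theorem ResS_pr_mem (hB : ∀ x ∈ B, ∀ c : ℂ, c ≠ 0 → c • x ∈ B) (h : Pr x y) : x ∈ B ↔ y ∈ B := by
  obtain ⟨c, hc, rfl⟩ := h
  refine ⟨fun h1 => ?_, fun h1 => hB _ h1 c hc⟩
  have h2 := hB _ h1 c⁻¹ (inv_ne_zero hc)
  rwa [smul_smul, inv_mul_cancel₀ hc, one_smul] at h2

theorem ResAt.pr (hX : ∀ x ∈ X, ∀ c : ℂ, c ≠ 0 → c • x ∈ X) (hB : ∀ x ∈ B, ∀ c : ℂ, c ≠ 0 → c • x ∈ B)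
    (h : ResAt X B x n) (hy : Pr y x) : ResAt X B y n := by
  obtain ⟨σ, τ, g, hc, hx, hg, hr⟩ := h
  obtain ⟨a, ha, rfl⟩ := hy
  refine ⟨fun p => a • σ p, fun y => τ (a⁻¹ • y), g, hc.scale hX ha, ?_, ⟨hg.1, ?_⟩, hr⟩
  · show a • σ 0 = a • x
    rw [hx]
  · filter_upwards [hg.2] with p hp
    rw [ResS_pr_mem hB (⟨a, ha, rfl⟩ : Pr (a • σ p) (σ p))]
    exact hp

end Pool.Agent.H17BP

end
end

section

/-!
# BP WdA: the wedge norm

`wd x v = |x ∧ v|`, square root of the Gram determinant.  `gram_proj` : for orthonormal `a, b` the determinant of the projections is at most the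
Gram determinant: with `x = Px + x'`, `v = Pv + v'` (orthogonal decomposition along the span of `a, b`), `A = |Px|²`, `B = |Pv|²`, `C = ⟨Px,Pv⟩`,
`(A + a')(B + b') - |C + c'|² ≥ AB - |C|²` because `a'b' ≥ |c'|²` and `A b' + a' B ≥ 2 (A B a' b')^(1/2) ≥ 2 |C||c'|`; and `AB - |C|² = |det|²`.
`wd_norming` : for `x, v` with `wd x v > 0` take `a = x/|x|`, `b` = normalised component of `v` orthogonal to `x`.
-/

set_option autoImplicit false

namespace Pool.Agent.H36.BP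

attribute [-instance] ProperSMul.toContinuousSMul

open Filter Topology Metric

variable {N : ℕ}

theorem WdA_nn (x : EN N) : (inner ℂ x x : ℂ) = ((‖x‖ : ℝ) : ℂ) ^ 2 := by
  exact inner_self_eq_norm_sq_to_K x

private theorem WdA_symm (x v : EN N) : (inner ℂ x v : ℂ) * inner ℂ v x = (((‖inner ℂ x v‖ : ℝ)) : ℂ) ^ 2 := by
  rw [← inner_conj_symm v x]
  exact Complex.mul_conj' _

/-- the square of the wedge norm as a complex Gram determinant -/
private theorem WdA_gram (x v : EN N) : (((wd x v : ℝ)) : ℂ) ^ 2 =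
    (inner ℂ x x : ℂ) * inner ℂ v v - (inner ℂ x v : ℂ) * inner ℂ v x := by
  have h := wd_sq x v
  have h2 : (((wd x v ^ 2 : ℝ)) : ℂ) = ((‖x‖ ^ 2 * ‖v‖ ^ 2 - ‖inner ℂ x v‖ ^ 2 : ℝ) : ℂ) := by
    rw [h]
  rw [WdA_nn, WdA_nn, WdA_symm]
  push_cast at h2
  exact h2

theorem wd_inv (x v : EN N) (c a : ℂ) : wd (c • x) (c • v + a • x) = ‖c‖ ^ 2 * wd x v := by
  have h1 := WdA_gram (c • x) (c • v + a • x)
  have h2 := WdA_gram x v
  have hc : (starRingEnd ℂ) c * c = (((‖c‖ : ℝ)) : ℂ) ^ 2 := Complex.conj_mul' c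
  have h3 : (((wd (c • x) (c • v + a • x) : ℝ)) : ℂ) ^ 2 = (((‖c‖ ^ 2 * wd x v : ℝ)) : ℂ) ^ 2 := by
    rw [h1]
    push_cast
    rw [mul_pow, h2, ← hc]
    simp only [inner_add_left, inner_add_right, inner_smul_left, inner_smul_right]
    ring
  have h4 : wd (c • x) (c • v + a • x) ^ 2 = (‖c‖ ^ 2 * wd x v) ^ 2 := by
    exact_mod_cast h3
  have h5 : 0 ≤ ‖c‖ ^ 2 * wd x v := mul_nonneg (by positivity) (wd_nonneg x v)
  exact (pow_left_inj₀ (wd_nonneg _ _) h5 two_ne_zero).mp h4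

theorem wd_smul_right (x v : EN N) (c : ℂ) : wd x (c • v) = ‖c‖ * wd x v := by
  have h1 := WdA_gram x (c • v)
  have h2 := WdA_gram x v
  have hc : (starRingEnd ℂ) c * c = (((‖c‖ : ℝ)) : ℂ) ^ 2 := Complex.conj_mul' c
  have h3 : (((wd x (c • v) : ℝ)) : ℂ) ^ 2 = (((‖c‖ * wd x v : ℝ)) : ℂ) ^ 2 := by
    rw [h1]
    push_cast
    rw [mul_pow, h2, ← hc]
    simp only [inner_smul_left, inner_smul_right]
    ring
  have h4 : wd x (c • v) ^ 2 = (‖c‖ * wd x v) ^ 2 := by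
    exact_mod_cast h3
  have h5 : 0 ≤ ‖c‖ * wd x v := mul_nonneg (by positivity) (wd_nonneg x v)
  exact (pow_left_inj₀ (wd_nonneg _ _) h5 two_ne_zero).mp h4

theorem fs_nonneg (x v : EN N) : 0 ≤ fs x v := by
  exact div_nonneg (wd_nonneg x v) (by positivity)

theorem fs_inv {x : EN N} (hx : x ≠ 0) (v : EN N) {c : ℂ} (hc : c ≠ 0) (a : ℂ) : fs (c • x) (c • v + a • x) = fs x v := by
  unfold fs
  rw [wd_inv, norm_smul]
  have hc' : ‖c‖ ≠ 0 := norm_ne_zero_iff.mpr hc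
  have hx' : ‖x‖ ≠ 0 := norm_ne_zero_iff.mpr hx
  field_simp

theorem fs_smul_right (x v : EN N) (c : ℂ) : fs x (c • v) = ‖c‖ * fs x v := by
  unfold fs
  rw [wd_smul_right, mul_div_assoc]

end Pool.Agent.H36.BP

end
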