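import Mathlib

/-! The parts of this file: H17.EntireCurves, H23.Fano. -/

section

/-!
# Holomorphic maps into complex projective space and hyperbolicity notions

Conventions used by the hand-ins of this seat for quasi-projective subsets of `ℙ^N(ℂ)`.
-/

open MvPolynomial Topology

namespace Pool.Agent.H17

/-- Complex projective space `ℙ^N(ℂ)`, as the set of lines in `ℂ^(N+1)`. -/
abbrev PN (N : ℕ) : Type := Projectivization ℂ (Fin (N + 1) → ℂ)

/-- The polynomial `P` vanishes at the point `x` of `ℙ^N`.  For homogeneous `P` this does not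
depend on the chosen representative vector. -/
def VanishesAt {N : ℕ} (P : MvPolynomial (Fin (N + 1)) ℂ) (x : PN N) : Prop :=
  eval x.rep P = 0

/-- `f` is holomorphic on the (open) set `U ⊆ ℂ` as a map into `ℙ^N`: near every point of `U` it
is given by holomorphic homogeneous coordinates without common zero. -/
def HolomorphicInto {N : ℕ} (f : ℂ → PN N) (U : Set ℂ) : Prop :=
  ∀ z₀ ∈ U, ∃ φ : ℂ → Fin (N + 1) → ℂ, AnalyticAt ℂ φ z₀ ∧
    ∀ᶠ z in 𝓝 z₀, ∃ h : φ z ≠ 0, f z = Projectivization.mk ℂ (φ z) h

/-- `Ξ` is a Zariski closed subset of the subset `X` of `ℙ^N`. -/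
def ZariskiClosedIn {N : ℕ} (X Ξ : Set (PN N)) : Prop :=
  ∃ S : Set (MvPolynomial (Fin (N + 1)) ℂ), (∀ P ∈ S, ∃ n, P.IsHomogeneous n) ∧
    Ξ = {x | x ∈ X ∧ ∀ P ∈ S, VanishesAt P x}

/-- `X` is pseudo Brody hyperbolic: there is a Zariski closed proper subset `Ξ` of `X` that
contains the image of every non-constant holomorphic map `ℂ → X`. -/
def PseudoBrodyHyperbolic {N : ℕ} (X : Set (PN N)) : Prop :=
  ∃ Ξ : Set (PN N), ZariskiClosedIn X Ξ ∧ Ξ ≠ X ∧
    ∀ f : ℂ → PN N, HolomorphicInto f Set.univ → (∀ z, f z ∈ X) → (∃ z w, f z ≠ f w) →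
      ∀ z, f z ∈ Ξ

/-- The punctured open unit disc. -/
def puncturedDisc : Set ℂ := Metric.ball 0 1 \ {0}

/-- `X` is pseudo Picard hyperbolic: there is a Zariski closed proper subset `Ξ` of `X` such that
every holomorphic map from the punctured unit disc to `X` whose image is not contained in `Ξ`
extends to a holomorphic map from the unit disc to `ℙ^N` (and hence to the closure of `X`). -/
def PseudoPicardHyperbolic {N : ℕ} (X : Set (PN N)) : Prop :=
  ∃ Ξ : Set (PN N), ZariskiClosedIn X Ξ ∧ Ξ ≠ X ∧
    ∀ f : ℂ → PN N, HolomorphicInto f puncturedDisc → (∀ z ∈ puncturedDisc, f z ∈ X) →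
      (∃ z ∈ puncturedDisc, f z ∉ Ξ) →
      ∃ g : ℂ → PN N, HolomorphicInto g (Metric.ball 0 1) ∧ ∀ z ∈ puncturedDisc, g z = f z

end Pool.Agent.H17

end

section

/-!
# K-semistability of Fano varieties over the complex numbers: definitions

Smooth projective varieties with ample anticanonical divisor, pluri-anticanonical sections,
prime divisors over a variety, log discrepancies, the invariant `S`, and the valuative criterion
of Fujita and Li.
-/

open AlgebraicGeometry CategoryTheory MeasureTheory Filter
open scoped ENNReal

noncomputable section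

namespace Pool.Agent.H23.Fano

/-! ## Rational differential forms of a function field -/

/-- The `n`-th exterior power of a vector space. -/
def ExtPow (K V : Type) [Field K] [AddCommGroup V] [Module K V] (n : ℕ) : Type := ⋀[K]^n V

section ExtPow

variable (K V : Type) [Field K] [AddCommGroup V] [Module K V] (n : ℕ)

instance : AddCommGroup (ExtPow K V n) := (inferInstance : AddCommGroup (⋀[K]^n V))

instance : Module K (ExtPow K V n) := (inferInstance : Module K (⋀[K]^n V))

/-- The element `v₁ ∧ ⋯ ∧ vₙ` of the exterior power. -/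
def ExtPow.wedge (v : Fin n → V) : ExtPow K V n := exteriorPower.ιMulti K n v

end ExtPow

section FunctionField

variable (K : Type) [Field K] [Algebra ℂ K]

/-- The `K`-vector space `Ω_{K/ℂ}` of rational differentials. -/
def Diff : Type := Ω[K⁄ℂ]

instance : AddCommGroup (Diff K) := (inferInstance : AddCommGroup Ω[K⁄ℂ])

instance : Module K (Diff K) := (inferInstance : Module K Ω[K⁄ℂ])

variable {K} in
/-- The differential `d f`. -/
def d (f : K) : Diff K := KaehlerDifferential.D ℂ K f

variable (n : ℕ)

/-- Rational `n`-forms of the function field `K` over `ℂ`: the `K`-vector space `⋀ⁿ Ω_{K/ℂ}`. -/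
def Form : Type := ExtPow K (Diff K) n

instance : AddCommGroup (Form K n) := (inferInstance : AddCommGroup (ExtPow K (Diff K) n))

instance : Module K (Form K n) := (inferInstance : Module K (ExtPow K (Diff K) n))

variable {K n}

/-- The rational form `c • da₁ ∧ ⋯ ∧ daₙ`. -/
def Form.mk (c : K) (a : Fin n → K) : Form K n := c • ExtPow.wedge K (Diff K) n fun i => d (a i)

variable (n)

/-- The regular `n`-forms of a `ℂ`-subalgebra `A` of `K`, that is the image of
`⋀ⁿ Ω_{A/ℂ}` in `⋀ⁿ Ω_{K/ℂ}`: all finite sums of forms `c • da₁ ∧ ⋯ ∧ daₙ` with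
`c, a₁, …, aₙ ∈ A`. -/
def regularForms (A : Set K) : AddSubgroup (Form K n) :=
  AddSubgroup.closure {ω | ∃ (c : K) (a : Fin n → K), c ∈ A ∧ (∀ i, a i ∈ A) ∧ ω = Form.mk c a}

variable {ι : Type} (O : ι → Set K)

/-- Let `O x`, `x : ι`, be the local rings of a smooth variety `X` of dimension `n` with function
field `K`. A rational section of `-m K_X` is a function `φ` on rational `n`-forms with
`φ (g • ω) = g ^ m * φ ω`; it is regular at `x` if it takes the regular `n`-forms at `x` to
`O x`. This is the space `H⁰(X, -m K_X)` of everywhere regular sections. -/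
def antiSections (m : ℕ) : Set (Form K n → K) :=
  {φ | (∀ (g : K) (ω : Form K n), φ (g • ω) = g ^ m * φ ω) ∧
    ∀ x, ∀ ω ∈ regularForms n (O x), φ ω ∈ O x}

variable (K) in
/-- A prime divisor over a variety of dimension `n` with function field `K`, given by its order
function: a discrete valuation of `K`, normalised to have value group `ℤ`, trivial on `ℂ`, whose
residue field has transcendence degree `n - 1` over `ℂ` (that is, there are `n - 1` elements of
the valuation ring whose residue classes are algebraically independent over `ℂ`). -/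
structure PrimeDivisorOver where
  /-- the order of vanishing along the divisor -/
  ord : AddValuation K (WithTop ℤ)
  ord_const : ∀ c : ℂ, 0 ≤ ord (algebraMap ℂ K c)
  exists_uniformizer : ∃ t : K, ord t = 1
  residue_trdeg : ∃ s : Fin (n - 1) → K, (∀ i, 0 ≤ ord (s i)) ∧
    ∀ p : MvPolynomial (Fin (n - 1)) ℂ, p ≠ 0 → ord (MvPolynomial.aeval s p) = 0

variable {n}

/-- The local ring of the generic point of a prime divisor over `X`. -/
def PrimeDivisorOver.localRing (E : PrimeDivisorOver K n) : Set K := {f | 0 ≤ E.ord f}

variable (n)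

variable {n}

/-- The section `φ` of `-m K_X` generates the sheaf of sections at `x`. -/
def Generates (φ : Form K n → K) (x : ι) : Prop :=
  ∃ ω ∈ regularForms n (O x), φ ω ≠ 0 ∧ (φ ω)⁻¹ ∈ O x

end FunctionField

/-! ## Varieties -/

section Scheme

/-- The function field of an integral scheme. -/
def FunField (X : Scheme.{0}) [IsIntegral X] : Type := X.functionField

instance (X : Scheme.{0}) [IsIntegral X] : Field (FunField X) :=
  (inferInstance : Field X.functionField)

variable {X : Scheme.{0}} (s : X ⟶ Spec (.of ℂ)) [IsIntegral X]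

/-- The function field of a complex variety as a `ℂ`-algebra: a complex number is sent to the
germ at the generic point of the corresponding global function. -/
@[reducible]
def constAlgebra : Algebra ℂ (FunField X) :=
  RingHom.toAlgebra ((Scheme.ΓSpecIso (.of ℂ)).inv ≫ s.appTop ≫
    X.presheaf.germ ⊤ (genericPoint X) (TopologicalSpace.Opens.mem_top _)).hom

variable (X) in
/-- The local ring of a complex variety at a point, as a subring of the function field. -/
def localRing (x : X) : Set (FunField X) :=
  Set.range (algebraMap (X.presheaf.stalk x) X.functionField)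

/-- `-K_X` is ample: every point of `X` has an open affine neighbourhood of the form
`X_φ = {y | φ generates the sheaf of sections of -m K_X at y}` with `m ≥ 1` and
`φ ∈ H⁰(X, -m K_X)`. -/
def AntiAmple (n : ℕ) : Prop :=
  letI := constAlgebra s
  ∀ x : X, ∃ m : ℕ, 1 ≤ m ∧ ∃ φ ∈ antiSections n (localRing X) m, ∃ U : X.Opens,
    IsAffineOpen U ∧ x ∈ U ∧ ∀ y : X, y ∈ U ↔ Generates (localRing X) φ y

end Scheme

/-- A Fano variety of dimension `n` over `ℂ`: a smooth projective variety of dimension `n` with
ample anticanonical divisor. -/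
structure FanoVariety (n : ℕ) where
  /-- the underlying scheme -/
  X : Scheme.{0}
  /-- the structure morphism -/
  str : X ⟶ Spec (.of ℂ)
  [integral : IsIntegral X]
  proper : IsProper str
  smooth : SmoothOfRelativeDimension n str
  ample : AntiAmple str n


end Pool.Agent.H23.Fano

end
end
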