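import Pool.Agent.H94.CB.H36.BP.Defs
import Pool.Agent.H94.CB.M01
import Pool.Agent.H94.CB.M07
import Pool.Agent.H94.CB.M16

/-! The parts of this file: H14.PP.Params, H23.Omega, H36.BP.ExtE, H68.KR.FT. -/

section

/-!
# BPm Params: choice of the parameters

Given `C ≥ 1`, `ε₁ > 0`, `κ₁ > 0`: `ε = min ε₁ 1`; `κ = min (min (1/4) κ₁) (ε/(8 (1 + log C)))`; `K > 0` with
`16 C^4 e^2 ≤ exp (3K/4)`; then `M ≥ 1` so large that with `e = ε/(16 log (1 + M))`:
`K ≤ e M κ^2 (exp (-K-1)/2)^2/4`, possible because `M/log (1+M) → ∞`.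
-/

open Topology Filter Metric

namespace Pool.Agent.H14.PP

attribute [-instance] ProperSMul.toContinuousSMul

theorem exists_params {C ε₁ κ₁ : ℝ} (hC : 1 ≤ C) (hε₁ : 0 < ε₁) (hκ₁ : 0 < κ₁) :
    ∃ P : Par, P.ε ≤ ε₁ ∧ P.κ ≤ κ₁ ∧ DomPar C P ∧ ConvPar P := by
  have hC0 : 0 < C := by linarith
  have hlogC : 0 ≤ Real.log C := Real.log_nonneg hC
  obtain ⟨ε, hε, hε1, hεε₁⟩ : ∃ ε : ℝ, 0 < ε ∧ ε ≤ 1 ∧ ε ≤ ε₁ :=
    ⟨min ε₁ 1, lt_min hε₁ one_pos, min_le_right _ _, min_le_left _ _⟩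
  obtain ⟨κ, hκ, hκ4, hκκ₁, hκC⟩ : ∃ κ : ℝ, 0 < κ ∧ κ ≤ 1 / 4 ∧ κ ≤ κ₁ ∧ κ ≤ ε / (8 * (1 + Real.log C)) := by
    have h1 : 0 < ε / (8 * (1 + Real.log C)) := by positivity
    refine ⟨min (min (1 / 4) κ₁) (ε / (8 * (1 + Real.log C))), ?_, ?_, ?_, ?_⟩
    · exact lt_min (lt_min (by norm_num) hκ₁) h1
    · exact (min_le_left _ _).trans (min_le_left _ _)
    · exact (min_le_left _ _).trans (min_le_right _ _)
    · exact min_le_right _ _
  have hκlog : κ * Real.log C ≤ ε / 8 := by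
    have h1 : 0 < 8 * (1 + Real.log C) := by positivity
    rw [le_div_iff₀ h1] at hκC
    have h2 : 0 ≤ κ := hκ.le
    nlinarith
  obtain ⟨K, hK, hKe⟩ : ∃ K : ℝ, 0 < K ∧ 16 * C ^ 4 * Real.exp 2 ≤ Real.exp (3 * K / 4) := by
    have h1 : 1 < 16 * C ^ 4 * Real.exp 2 := by
      have h2 : 1 ≤ C ^ 4 := one_le_pow₀ hC
      have h3 : 1 ≤ Real.exp 2 := Real.one_le_exp (by norm_num)
      nlinarith [mul_le_mul h2 h3 zero_le_one (by positivity)]
    have h2 : 0 < Real.log (16 * C ^ 4 * Real.exp 2) := Real.log_pos h1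
    refine ⟨4 / 3 * Real.log (16 * C ^ 4 * Real.exp 2), by positivity, ?_⟩
    have h3 : 3 * (4 / 3 * Real.log (16 * C ^ 4 * Real.exp 2)) / 4 = Real.log (16 * C ^ 4 * Real.exp 2) := by
      ring
    rw [h3, Real.exp_log (by linarith)]
  have hc : 0 < ε * κ ^ 2 * (Real.exp (-K - 1) / 2) ^ 2 / (64 * K) := by positivity
  obtain ⟨M, hM, hlogM⟩ : ∃ M : ℝ, 1 ≤ M ∧
      Real.log (1 + M) ≤ ε * κ ^ 2 * (Real.exp (-K - 1) / 2) ^ 2 / (64 * K) * M := by
    have h := Real.isLittleO_log_id_atTop.def (half_pos hc)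
    obtain ⟨x, hx, hx2⟩ := (h.and (eventually_ge_atTop (2 : ℝ))).exists
    refine ⟨x - 1, by linarith, ?_⟩
    have e1 : 1 + (x - 1) = x := by ring
    rw [e1]
    have e2 : |Real.log x| ≤ ε * κ ^ 2 * (Real.exp (-K - 1) / 2) ^ 2 / (64 * K) / 2 * |x| := by
      simpa only [Real.norm_eq_abs, id_eq] using hx
    rw [abs_of_nonneg (by linarith : (0 : ℝ) ≤ x)] at e2
    have e3 := (le_abs_self _).trans e2
    have e4 : ε * κ ^ 2 * (Real.exp (-K - 1) / 2) ^ 2 / (64 * K) / 2 * x ≤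
        ε * κ ^ 2 * (Real.exp (-K - 1) / 2) ^ 2 / (64 * K) * (x - 1) := by
      have e5 : x / 2 ≤ x - 1 := by linarith
      have e6 := mul_le_mul_of_nonneg_left e5 hc.le
      calc _ = ε * κ ^ 2 * (Real.exp (-K - 1) / 2) ^ 2 / (64 * K) * (x / 2) := by ring
        _ ≤ _ := e6
    exact e3.trans e4
  have hlog0 : 0 < Real.log (1 + M) := Real.log_pos (by linarith)
  have hlogne : Real.log (1 + M) ≠ 0 := hlog0.ne'
  have he : ε / (16 * Real.log (1 + M)) * Real.log (1 + M) = ε / 16 := by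
    field_simp
  have hmain : K ≤ ε / (16 * Real.log (1 + M)) * M * κ ^ 2 * (Real.exp (-K - 1) / 2) ^ 2 / 4 := by
    have h1 : Real.log (1 + M) * (64 * K) ≤ ε * κ ^ 2 * (Real.exp (-K - 1) / 2) ^ 2 * M := by
      have h2 := mul_le_mul_of_nonneg_right hlogM (by positivity : (0 : ℝ) ≤ 64 * K)
      calc Real.log (1 + M) * (64 * K) ≤ _ := h2
        _ = ε * κ ^ 2 * (Real.exp (-K - 1) / 2) ^ 2 * M := by
          field_simp
    have h3 : ε / (16 * Real.log (1 + M)) * M * κ ^ 2 * (Real.exp (-K - 1) / 2) ^ 2 / 4 =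
        ε * κ ^ 2 * (Real.exp (-K - 1) / 2) ^ 2 * M / (64 * Real.log (1 + M)) := by
      field_simp
      norm_num
    rw [h3, le_div_iff₀ (by positivity)]
    calc K * (64 * Real.log (1 + M)) = Real.log (1 + M) * (64 * K) := by ring
      _ ≤ _ := h1
  have hepos : 0 < ε / (16 * Real.log (1 + M)) := by positivity
  refine ⟨⟨ε, κ, K, M, ε / (16 * Real.log (1 + M))⟩, hεε₁, hκκ₁, ?_, ?_⟩
  · exact ⟨hε, hε1, hκ, hκ4, hκlog, hK, hKe, hM, hepos, he.le⟩
  · exact ⟨hε, hε1, hκ, hκ4, hK, hM, hepos, he.le, hmain⟩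

end Pool.Agent.H14.PP

end

section

set_option linter.style.haveILetI false

noncomputable section

namespace Pool.Agent.H23

attribute [-instance] ProperSMul.toContinuousSMul

open scoped TensorProduct

variable {K : Type*} [Field K] [Algebra ℂ K]

lemma exists_poly_of_basis {σ : Type*} {g : σ → K} (hg : IsTranscendenceBasis ℂ g) (a : K) :
    ∃ F : Polynomial (MvPolynomial σ ℂ), F ≠ 0 ∧
      F.eval₂ (MvPolynomial.aeval g).toRingHom a = 0 := by
  have h1 := hg.isAlgebraic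
  obtain ⟨p, hp, hpa⟩ := h1.isAlgebraic a
  let e : Algebra.adjoin ℂ (Set.range g) →+* MvPolynomial σ ℂ :=
    (hg.1.aevalEquiv.symm : Algebra.adjoin ℂ (Set.range g) →+* MvPolynomial σ ℂ)
  have he : (MvPolynomial.aeval g).toRingHom.comp e =
      algebraMap (Algebra.adjoin ℂ (Set.range g)) K := by
    ext x
    have h2 := hg.1.algebraMap_aevalEquiv (hg.1.aevalEquiv.symm x)
    rw [AlgEquiv.apply_symm_apply] at h2
    exact h2.symm
  refine ⟨p.map e, ?_, ?_⟩
  · rwa [Ne, Polynomial.map_eq_zero_iff]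
    exact hg.1.aevalEquiv.symm.injective
  · rw [Polynomial.eval₂_map, he]
    exact hpa

/-- For a transcendence basis `g` of `K/ℂ`, the differentials `dg i` form a basis of `Ω_{K/ℂ}`. -/
theorem exists_basis_kaehler {σ : Type*} {g : σ → K} (hg : IsTranscendenceBasis ℂ g) :
    ∃ b : Module.Basis σ K Ω[K⁄ℂ], ∀ i, b i = KaehlerDifferential.D ℂ K (g i) := by
  classical
  letI alg1 : Algebra (MvPolynomial σ ℂ) K := (MvPolynomial.aeval g).toRingHom.toAlgebra
  have hmap : ∀ r, algebraMap (MvPolynomial σ ℂ) K r = MvPolynomial.aeval g r := fun _ => rfl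
  haveI : FaithfulSMul (MvPolynomial σ ℂ) K := by
    rw [faithfulSMul_iff_algebraMap_injective]
    exact hg.1
  haveI : IsScalarTower ℂ (MvPolynomial σ ℂ) K := by
    apply IsScalarTower.of_algebraMap_eq
    intro c
    rw [hmap, MvPolynomial.algebraMap_eq, MvPolynomial.aeval_C]
  letI alg2 : Algebra (FractionRing (MvPolynomial σ ℂ)) K := FractionRing.liftAlgebra _ K
  haveI : IsScalarTower (MvPolynomial σ ℂ) (FractionRing (MvPolynomial σ ℂ)) K :=
    inferInstance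
  haveI : Algebra.IsAlgebraic (MvPolynomial σ ℂ) K := by
    refine ⟨fun a => ?_⟩
    obtain ⟨F, h1, h2⟩ := exists_poly_of_basis hg a
    exact ⟨F, h1, h2⟩
  haveI : Algebra.IsAlgebraic (FractionRing (MvPolynomial σ ℂ)) K :=
    (IsFractionRing.comap_isAlgebraic_iff (A := (MvPolynomial σ ℂ))).1 this
  haveI : CharZero (FractionRing (MvPolynomial σ ℂ)) :=
    algebraRat.charZero _
  haveI : Algebra.IsSeparable (FractionRing (MvPolynomial σ ℂ)) K := inferInstance
  haveI : Algebra.FormallyEtale (MvPolynomial σ ℂ) (FractionRing (MvPolynomial σ ℂ)) :=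
    Algebra.FormallyEtale.of_isLocalization (nonZeroDivisors _)
  haveI : Algebra.FormallyEtale (FractionRing (MvPolynomial σ ℂ)) K :=
    Algebra.FormallyEtale.of_isSeparable _ K
  haveI : Algebra.FormallyEtale (MvPolynomial σ ℂ) K :=
    Algebra.FormallyEtale.comp _ (FractionRing (MvPolynomial σ ℂ)) _
  let e := KaehlerDifferential.tensorKaehlerEquivOfFormallyEtale ℂ (MvPolynomial σ ℂ) K
  let b := ((KaehlerDifferential.mvPolynomialBasis ℂ σ).baseChange K).map e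
  refine ⟨b, fun i => ?_⟩
  simp only [b, Module.Basis.map_apply, Module.Basis.baseChange_apply,
    KaehlerDifferential.mvPolynomialBasis_apply]
  rw [KaehlerDifferential.tensorKaehlerEquivOfFormallyEtale_apply]
  rw [KaehlerDifferential.mapBaseChange_tmul, one_smul, KaehlerDifferential.map_D, hmap,
    MvPolynomial.aeval_X]

end Pool.Agent.H23

end
end

section

/-!
# BP ExtE: the limit at the puncture

For `r = |z₁|/(n+2)` take `θ_n`; `F_n = θ_n F` is bounded by `A` for `|z₁|/(n+2) ≤ |z| ≤ r₁`, `|F_n z₁| ≥ c`.  Along `hyperfilter ℕ` the pointwise limits `H z` exist for `0 < |z| < r₁` (bounded in a finite dimensional space), and by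
`montel_ultrafilter` on small discs (`TendstoLocallyUniformlyOn` implies pointwise convergence, so the local limits are `H`) `H` is holomorphic on `0 < |z| < r₁`, `|H z| ≤ A`, `|H z₁| ≥ c`, and `H z` is a multiple of `F z` (closed line).
`H` is bounded, so it extends to a holomorphic `P` on `|z| < r₁` (`Complex.differentiableOn_update_limUnder_of_bddAbove`, for vector valued functions), `P z₁ ≠ 0`, so `P` does not vanish identically near `0` (identity theorem on the disc),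
`P z = z^k Q z`, `Q 0 ≠ 0` (`AnalyticAt.exists_eventuallyEq_pow_smul_nonzero_iff`), `Q z ≠ 0` near `0` and `Q z` is a multiple of `F z`.
-/

set_option autoImplicit false

namespace Pool.Agent.H36.BP

attribute [-instance] ProperSMul.toContinuousSMul

open Filter Topology Metric

variable {N : ℕ}

theorem puncture_limit {F : ℂ → EN N} (hF : DifferentiableOn ℂ F (ball 0 1 \ {0})) (hF0 : ∀ z ∈ ball (0 : ℂ) 1 \ {0}, F z ≠ 0) {r₁ c A : ℝ} {z₁ : ℂ}
    (hc : 0 < c) (hz1 : 0 < ‖z₁‖) (hz2 : ‖z₁‖ < r₁) (hr1 : r₁ < 1)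
    (h : ∀ r : ℝ, 0 < r → r < ‖z₁‖ → ∃ θ : ℂ → ℂ, DifferentiableOn ℂ θ {0}ᶜ ∧
      (∀ z : ℂ, r ≤ ‖z‖ → ‖z‖ ≤ r₁ → ‖θ z • F z‖ ≤ A) ∧ c ≤ ‖θ z₁ • F z₁‖) :
    ∃ Q : ℂ → EN N, AnalyticAt ℂ Q 0 ∧ Q 0 ≠ 0 ∧ ∀ᶠ z in 𝓝[≠] (0 : ℂ), ∃ k : ℂ, k ≠ 0 ∧ Q z = k • F z := by
  classical
  have hr : ∀ n : ℕ, 0 < ‖z₁‖ / ((n : ℝ) + 2) ∧ ‖z₁‖ / ((n : ℝ) + 2) < ‖z₁‖ := by
    intro n
    have hn : (0 : ℝ) ≤ n := Nat.cast_nonneg n
    refine ⟨by positivity, ?_⟩
    rw [div_lt_iff₀ (by positivity)]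
    nlinarith
  choose θ hθd hθb hθc using fun n : ℕ => h (‖z₁‖ / ((n : ℝ) + 2)) (hr n).1 (hr n).2
  set 𝒰 : Ultrafilter ℕ := hyperfilter ℕ with h𝒰
  have h𝒰l : (𝒰 : Filter ℕ) ≤ atTop := by
    rw [← Nat.cofinite_eq_atTop]
    exact hyperfilter_le_cofinite
  have hsmall : ∀ δ : ℝ, 0 < δ → ∀ᶠ n : ℕ in (𝒰 : Filter ℕ), ‖z₁‖ / ((n : ℝ) + 2) ≤ δ := by
    intro δ hδ
    apply h𝒰l
    have ht : Tendsto (fun n : ℕ => ‖z₁‖ / ((n : ℝ) + 2)) atTop (𝓝 0) :=
      Tendsto.div_atTop tendsto_const_nhds (tendsto_natCast_atTop_atTop.atTop_add tendsto_const_nhds)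
    exact (ht.eventually_lt_const hδ).mono fun _ h => h.le
  set Fn : ℕ → ℂ → EN N := fun n z => θ n z • F z with hFn
  -- local discs
  have hloc : ∀ z : ℂ, z ≠ 0 → ‖z‖ < r₁ → ∃ (s : ℝ) (g : ℂ → EN N), 0 < s ∧ ball z s ⊆ ball 0 r₁ \ {0} ∧
      DifferentiableOn ℂ g (ball z s) ∧ ∀ w ∈ ball z s, Tendsto (fun n => Fn n w) (𝒰 : Filter ℕ) (𝓝 (g w)) := by
    intro z hz hzr
    have hzp : 0 < ‖z‖ := norm_pos_iff.mpr hz
    set s : ℝ := min (‖z‖ / 2) (r₁ - ‖z‖) with hs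
    have hs0 : 0 < s := lt_min (by positivity) (by linarith)
    have hw1 : ∀ w ∈ ball z s, ‖z‖ / 2 ≤ ‖w‖ ∧ ‖w‖ < r₁ := by
      intro w hw
      have h1 : ‖w - z‖ < s := by rwa [mem_ball, dist_eq_norm] at hw
      have h2 : s ≤ ‖z‖ / 2 := min_le_left _ _
      have h3 : s ≤ r₁ - ‖z‖ := min_le_right _ _
      have h4 : ‖z‖ ≤ ‖w‖ + ‖w - z‖ := by
        have := norm_sub_le w (w - z)
        simpa using this
      have h5 : ‖w‖ ≤ ‖z‖ + ‖w - z‖ := by
        have := norm_add_le z (w - z)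
        simpa using this
      constructor <;> linarith
    have hsub : ball z s ⊆ ball 0 r₁ \ {0} := by
      intro w hw
      have := hw1 w hw
      refine ⟨by simpa using this.2, ?_⟩
      rintro rfl
      have h1 := this.1
      rw [norm_zero] at h1
      linarith
    have hsub1 : ball z s ⊆ ball 0 1 \ {0} := fun w hw =>
      ⟨ball_subset_ball hr1.le (hsub hw).1, (hsub hw).2⟩
    obtain ⟨g, hg1, hg2⟩ := Pool.Agent.H17.montel_ultrafilter (E := EN N) 𝒰 (F := Fn) (a := z) (r := s) (B := A)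
      (by
        refine Eventually.of_forall fun n => ?_
        refine DifferentiableOn.smul ((hθd n).mono ?_) (hF.mono hsub1)
        intro w hw
        exact (hsub hw).2)
      (by
        filter_upwards [hsmall (‖z‖ / 2) (by positivity)] with n hn w hw
        exact hθb n w (hn.trans (hw1 w hw).1) (hw1 w hw).2.le)
    exact ⟨s, g, hs0, hsub, hg1, fun w hw => hg2.tendsto_at hw⟩
  -- the limit
  have hlim : ∀ z : ℂ, ∃ l : EN N, z ≠ 0 → ‖z‖ < r₁ → Tendsto (fun n => Fn n z) (𝒰 : Filter ℕ) (𝓝 l) := by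
    intro z
    by_cases hz : z ≠ 0 ∧ ‖z‖ < r₁
    · obtain ⟨s, g, hs, -, -, hg⟩ := hloc z hz.1 hz.2
      exact ⟨g z, fun _ _ => hg z (mem_ball_self hs)⟩
    · exact ⟨0, fun h1 h2 => absurd ⟨h1, h2⟩ hz⟩
  choose H hH using hlim
  have hHd : DifferentiableOn ℂ H (ball 0 r₁ \ {0}) := by
    intro z hz
    have hz0 : z ≠ 0 := hz.2
    have hzr : ‖z‖ < r₁ := by simpa using hz.1
    obtain ⟨s, g, hs, hsub, hgd, hg⟩ := hloc z hz0 hzr
    have heq : H =ᶠ[𝓝 z] g := by
      filter_upwards [ball_mem_nhds z hs] with w hw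
      have hw' := hsub hw
      exact tendsto_nhds_unique (hH w hw'.2 (by simpa using hw'.1)) (hg w hw)
    have : DifferentiableAt ℂ g z := (hgd z (mem_ball_self hs)).differentiableAt (ball_mem_nhds z hs)
    exact (this.congr_of_eventuallyEq heq).differentiableWithinAt
  have hHb : ∀ z ∈ ball (0 : ℂ) r₁ \ {0}, ‖H z‖ ≤ A := by
    intro z hz
    have hz0 : z ≠ 0 := hz.2
    have hzr : ‖z‖ < r₁ := by simpa using hz.1
    refine le_of_tendsto (hH z hz0 hzr).norm ?_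
    filter_upwards [hsmall ‖z‖ (norm_pos_iff.mpr hz0)] with n hn
    exact hθb n z hn hzr.le
  have hz10 : z₁ ≠ 0 := norm_pos_iff.mp hz1
  have hHc : c ≤ ‖H z₁‖ := ge_of_tendsto (hH z₁ hz10 hz2).norm (Eventually.of_forall fun n => hθc n)
  have hHs : ∀ z ∈ ball (0 : ℂ) r₁ \ {0}, ∃ a : ℂ, H z = a • F z := by
    intro z hz
    have hz0 : z ≠ 0 := hz.2
    have hzr : ‖z‖ < r₁ := by simpa using hz.1
    have hcl : IsClosed ((Submodule.span ℂ {F z} : Submodule ℂ (EN N)) : Set (EN N)) :=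
      Submodule.closed_of_finiteDimensional _
    have hmem : H z ∈ (Submodule.span ℂ {F z} : Submodule ℂ (EN N)) :=
      hcl.mem_of_tendsto (hH z hz0 hzr) (Eventually.of_forall fun n =>
        Submodule.smul_mem _ _ (Submodule.mem_span_singleton_self _))
    obtain ⟨a, ha⟩ := Submodule.mem_span_singleton.mp hmem
    exact ⟨a, ha.symm⟩
  have hr0 : 0 < r₁ := hz1.trans hz2
  -- the extension
  set P : ℂ → EN N := Function.update H 0 (limUnder (𝓝[≠] 0) H) with hP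
  have hPd : DifferentiableOn ℂ P (ball 0 r₁) := by
    refine Complex.differentiableOn_update_limUnder_of_bddAbove (ball_mem_nhds 0 hr0) hHd ?_
    refine ⟨A, ?_⟩
    rintro _ ⟨z, hz, rfl⟩
    exact hHb z hz
  have hPH : ∀ z : ℂ, z ≠ 0 → P z = H z := fun z hz => Function.update_of_ne hz _ _
  have hPa : AnalyticOnNhd ℂ P (ball 0 r₁) := hPd.analyticOnNhd isOpen_ball
  have hP0 : ¬ ∀ᶠ z in 𝓝 (0 : ℂ), P z = 0 := by
    intro hev
    have h1 := hPa.eqOn_zero_of_preconnected_of_eventuallyEq_zero (convex_ball (0 : ℂ) r₁).isPreconnected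
      (mem_ball_self hr0) hev
    have h2 : P z₁ = 0 := h1 (by simpa using hz2)
    rw [hPH z₁ hz10] at h2
    rw [h2, norm_zero] at hHc
    linarith
  obtain ⟨k, Q, hQa, hQ0, hQ⟩ := (hPa 0 (mem_ball_self hr0)).exists_eventuallyEq_pow_smul_nonzero_iff.mpr hP0
  refine ⟨Q, hQa, hQ0, ?_⟩
  have hQne : ∀ᶠ z in 𝓝 (0 : ℂ), Q z ≠ 0 := hQa.continuousAt.eventually_ne hQ0
  rw [eventually_nhdsWithin_iff]
  filter_upwards [hQ, hQne, ball_mem_nhds (0 : ℂ) hr0] with z hz1 hz2 hz3 hz4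
  have hz0 : z ≠ 0 := hz4
  obtain ⟨a, ha⟩ := hHs z ⟨hz3, hz4⟩
  rw [hPH z hz0, sub_zero] at hz1
  have hzk : z ^ k ≠ 0 := pow_ne_zero _ hz0
  have he : Q z = ((z ^ k)⁻¹ * a) • F z := by
    rw [mul_smul, ← ha, hz1, smul_smul, inv_mul_cancel₀ hzk, one_smul]
  refine ⟨(z ^ k)⁻¹ * a, ?_, he⟩
  intro h0
  rw [h0, zero_smul] at he
  exact hz2 he

end Pool.Agent.H36.BP

end

section

/-!
# KR FT: top forms

Let `b` be the basis of `Ω[K⁄ℂ]` with `b i = d (a i)` (`Pool.Agent.H23.exists_basis_kaehler`).  `⋀[K]^2 Ω` is spanned by the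
elements `ιMulti v` (`exteriorPower.ιMulti_span`), and `ιMulti v = b.det v • ιMulti b` for `v : Fin 2 → Ω` (two
alternating maps which agree on the basis, `Module.Basis.ext_alternating`; the right hand side is an alternating map of
`v`, e.g. `(b.det).smulRight`-like; or expand `v 0`, `v 1` in the basis by hand).  So every element is `W • ιMulti b`,
which is `Form.mk W a` (unfold `Form`, `ExtPow`, `Form.mk`, `ExtPow.wedge`, `d`).
-/

set_option autoImplicit false

open Pool.Agent.H23.Fano (Form)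

noncomputable section

namespace Pool.Agent.H68.KR

attribute [-instance] ProperSMul.toContinuousSMul

private theorem FT_ext_smul {K V : Type} [Field K] [AddCommGroup V] [Module K V] {n : ℕ}
    (b : Module.Basis (Fin n) K V) (v : Fin n → V) :
    exteriorPower.ιMulti K n v = b.det v • exteriorPower.ιMulti K n b := by
  have h : exteriorPower.ιMulti K n (M := V) =
      ((LinearMap.toSpanSingleton K (⋀[K]^n V) (exteriorPower.ιMulti K n b)).compAlternatingMap
        b.det) := by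
    refine Module.Basis.ext_alternating b fun i hi => ?_
    let σ : Equiv.Perm (Fin n) := Equiv.ofBijective i (Finite.injective_iff_bijective.1 hi)
    change exteriorPower.ιMulti K n (b ∘ σ) = _
    change _ = (LinearMap.toSpanSingleton K (⋀[K]^n V) (exteriorPower.ιMulti K n b))
      (b.det (b ∘ σ))
    rw [AlternatingMap.map_perm, AlternatingMap.map_perm, b.det_self,
      LinearMap.toSpanSingleton_apply]
    rcases Int.units_eq_one_or (Equiv.Perm.sign σ) with h1 | h1 <;> simp [h1]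
  have h2 := congrArg (fun f => f v) h
  simpa using h2

private theorem FT_exists_smul {K V : Type} [Field K] [AddCommGroup V] [Module K V] {n : ℕ}
    (b : Module.Basis (Fin n) K V) (ω : ⋀[K]^n V) :
    ∃ W : K, ω = W • exteriorPower.ιMulti K n b := by
  have h : ω ∈ Submodule.span K (Set.range (exteriorPower.ιMulti K n (M := V))) := by
    rw [exteriorPower.ιMulti_span]
    exact Submodule.mem_top
  induction h using Submodule.span_induction with
  | mem x hx =>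
    obtain ⟨v, rfl⟩ := hx
    exact ⟨b.det v, FT_ext_smul b v⟩
  | zero => exact ⟨0, by simp⟩
  | add x y hx hy h1 h2 =>
    obtain ⟨W1, h1⟩ := h1
    obtain ⟨W2, h2⟩ := h2
    exact ⟨W1 + W2, by rw [h1, h2, add_smul]⟩
  | smul c x hx h1 =>
    obtain ⟨W1, h1⟩ := h1
    exact ⟨c * W1, by rw [h1, mul_smul]⟩

private theorem FT_exists_form {K : Type} [Field K] [Algebra ℂ K] {a : Fin 2 → K}
    (b : Module.Basis (Fin 2) K Ω[K⁄ℂ]) (hb : ∀ i, b i = KaehlerDifferential.D ℂ K (a i))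
    (ω : Form K 2) : ∃ W : K, ω = Form.mk W a := by
  obtain ⟨W, hW⟩ := FT_exists_smul b (show ⋀[K]^2 Ω[K⁄ℂ] from ω)
  refine ⟨W, ?_⟩
  have h1 : (b : Fin 2 → Ω[K⁄ℂ]) = fun i => KaehlerDifferential.D ℂ K (a i) := funext hb
  rw [h1] at hW
  exact hW

theorem exists_form_mk {K : Type} [Field K] [Algebra ℂ K] {a : Fin 2 → K}
    (ha : IsTranscendenceBasis ℂ a) (ω : Form K 2) : ∃ W : K, ω = Form.mk W a := by
  obtain ⟨b, hb⟩ := Pool.Agent.H23.exists_basis_kaehler ha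
  exact FT_exists_form b hb ω

end Pool.Agent.H68.KR

end
end
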