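import Pool.Agent.H94.CB.M05
import Pool.Agent.H94.CB.M07
import Pool.Agent.H94.CB.M10
import Pool.Agent.H94.CB.M16

/-! The parts of this file: H13.CV.EllB, H17BP.Same, H17R.Defs, H36.BPL.Aff, H36.BPL.Defs, H62.BU.FormB, H62.BU.Main. -/

section

/-!
# CV EllB: the Weierstrass normal form

`normal_form`: `v₁ = v - (a u + b) / 2`: `v₁² = c u³ + (d + a² / 4) u² + (e + a b / 2) u + (f + b² / 4)`.  Let `s` with `c s³ = 4` (`IsAlgClosed`), `r = - (d + a² / 4) / (3 c)`, `u₁ = (u - r) / s`: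
`v₁² = 4 u₁³ - α u₁ - β` for some `α, β`.  `ℂ(u₁, v₁) = ℂ(u, v)`, `ℂ(u₁) = ℂ(u)`, `v₁ ∉ ℂ(u)`.
`singular_rational`: let `α³ = 27 β²`.  There is `ρ` with `12 ρ² = α`, `- 8 ρ³ = β` (take `ρ² = α / 12`; then `(8 ρ³)² = α³ / 27 = β²`, change the sign of `ρ` if necessary).  Then
`4 u³ - α u - β = 4 (u - ρ)² (u + 2 ρ)`.  `u ≠ ρ` (`u` is transcendental).  `t = v / (u - ρ)`: `t² = 4 (u + 2 ρ)`, so `u = t² / 4 - 2 ρ ∈ ℂ(t)` and `v = t (u - ρ) ∈ ℂ(t)`.
-/

set_option autoImplicit false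

noncomputable section

namespace Pool.Agent.H13.CV

attribute [-instance] ProperSMul.toContinuousSMul

variable {K : Type} [Field K] [Algebra ℂ K]

theorem normal_form {u v : K} {c a d b e f : ℂ} (hc : c ≠ 0)
    (h : v ^ 2 = algebraMap ℂ K c * u ^ 3 + algebraMap ℂ K a * (u * v) + algebraMap ℂ K d * u ^ 2 + algebraMap ℂ K b * v +
      algebraMap ℂ K e * u + algebraMap ℂ K f) (hu : Transcendental ℂ u) (huv : IntermediateField.adjoin ℂ {u, v} = ⊤) (hvu : v ∉ IntermediateField.adjoin ℂ {u}) :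
    ∃ (u' v' : K) (α β : ℂ), v' ^ 2 = 4 * u' ^ 3 - algebraMap ℂ K α * u' - algebraMap ℂ K β ∧ Transcendental ℂ u' ∧
      IntermediateField.adjoin ℂ {u', v'} = ⊤ ∧ v' ∉ IntermediateField.adjoin ℂ {u'} := by
  obtain ⟨s, hs⟩ := IsAlgClosed.exists_pow_nat_eq (4 / c) (n := 3) (by norm_num)
  have hs0 : s ≠ 0 := by
    rintro rfl
    have : (4 : ℂ) / c ≠ 0 := div_ne_zero (by norm_num) hc
    apply this
    rw [← hs]
    norm_num
  have hcs : c * s ^ 3 = 4 := by
    rw [hs]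
    field_simp
  set r : ℂ := -(d + a ^ 2 / 4) / (3 * c) with hr
  have hr' : 3 * c * r = -(d + a ^ 2 / 4) := by
    rw [hr]
    field_simp
  haveI : CharZero K := charZero_of_injective_algebraMap (algebraMap ℂ K).injective
  set C := algebraMap ℂ K with hC
  have c2 : C 2 = 2 := map_ofNat C 2
  have c3 : C 3 = 3 := map_ofNat C 3
  have c4 : C 4 = 4 := map_ofNat C 4
  have hCs0 : C s ≠ 0 := by
    rw [hC]
    exact (map_ne_zero (algebraMap ℂ K)).2 hs0
  have hcsK : C c * C s ^ 3 = 4 := by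
    rw [← map_pow, ← map_mul, hcs]
    exact map_ofNat C 4
  have hrK : 3 * C c * C r = -(C d + C a ^ 2 / 4) := by
    have := congrArg C hr'
    simpa [c2, c3, c4] using this
  set u' : K := (u - C r) / C s with hu'
  have hu2 : u = C s * u' + C r := by
    rw [hu']
    field_simp
    ring
  set v' : K := v - (C a * u + C b) / 2 with hv'
  have hv2 : v = v' + (C a * u + C b) / 2 := by
    rw [hv']
    ring
  have hmem : ∀ (L : IntermediateField ℂ K) (z : ℂ), C z ∈ L := fun L z => L.algebraMap_mem z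
  have h2mem : ∀ (L : IntermediateField ℂ K), (2 : K) ∈ L := fun L => by
    have := hmem L 2
    rwa [hC, map_ofNat] at this
  have hvu2 : ∀ L : IntermediateField ℂ K, u ∈ L → v' ∈ L → v ∈ L := fun L h1 h2 => by
    rw [hv2]
    exact L.add_mem h2 (L.div_mem (L.add_mem (L.mul_mem (hmem L a) h1) (hmem L b)) (h2mem L))
  have huL : ∀ L : IntermediateField ℂ K, u' ∈ L → u ∈ L := fun L h1 => by
    rw [hu2]
    exact L.add_mem (L.mul_mem (hmem L s) h1) (hmem L r)
  refine ⟨u', v', 3 * c * s * r ^ 2 - (e + a * b / 2) * s,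
    -(c * r ^ 3 + (d + a ^ 2 / 4) * r ^ 2 + (e + a * b / 2) * r + (f + b ^ 2 / 4)), ?_, ?_, ?_, ?_⟩
  · have e1 : v' ^ 2 = C c * u ^ 3 + (C d + C a ^ 2 / 4) * u ^ 2 + (C e + C a * C b / 2) * u + (C f + C b ^ 2 / 4) := by
      rw [hv']
      linear_combination h
    have e2 : C (3 * c * s * r ^ 2 - (e + a * b / 2) * s) = 3 * C c * C s * C r ^ 2 - (C e + C a * C b / 2) * C s := by
      simp [c2, c3]
    have e3 : C (-(c * r ^ 3 + (d + a ^ 2 / 4) * r ^ 2 + (e + a * b / 2) * r + (f + b ^ 2 / 4))) =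
        -(C c * C r ^ 3 + (C d + C a ^ 2 / 4) * C r ^ 2 + (C e + C a * C b / 2) * C r + (C f + C b ^ 2 / 4)) := by
      simp [c2, c4]
    rw [e2, e3, e1, hu2]
    linear_combination u' ^ 3 * hcsK + (C s ^ 2 * u' ^ 2 + 2 * C s * C r * u') * hrK
  · intro hal
    apply hu
    rw [hu2]
    exact ((isAlgebraic_algebraMap s).mul hal).add (isAlgebraic_algebraMap r)
  · rw [eq_top_iff, ← huv, IntermediateField.adjoin_le_iff]
    have m1 : u' ∈ IntermediateField.adjoin ℂ {u', v'} := IntermediateField.subset_adjoin ℂ _ (by simp)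
    have m2 : v' ∈ IntermediateField.adjoin ℂ {u', v'} := IntermediateField.subset_adjoin ℂ _ (by simp)
    rintro z hz
    rcases hz with rfl | hz
    · exact huL _ m1
    · rw [Set.mem_singleton_iff] at hz
      rw [hz]
      exact hvu2 _ (huL _ m1) m2
  · intro hv3
    apply hvu
    have m1 : u ∈ IntermediateField.adjoin ℂ {u} := IntermediateField.mem_adjoin_simple_self ℂ u
    have m2 : u' ∈ IntermediateField.adjoin ℂ {u} := by
      rw [hu']
      exact div_mem (sub_mem m1 (hmem _ r)) (hmem _ s)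
    have m3 : IntermediateField.adjoin ℂ {u'} ≤ IntermediateField.adjoin ℂ {u} := by
      rw [IntermediateField.adjoin_simple_le_iff]
      exact m2
    exact hvu2 _ m1 (m3 hv3)

theorem singular_rational {u v : K} {α β : ℂ} (h : v ^ 2 = 4 * u ^ 3 - algebraMap ℂ K α * u - algebraMap ℂ K β) (hu : Transcendental ℂ u)
    (huv : IntermediateField.adjoin ℂ {u, v} = ⊤) (hd : α ^ 3 = 27 * β ^ 2) : ∃ t : K, IntermediateField.adjoin ℂ {t} = ⊤ := by
  obtain ⟨ρ, h1, h2⟩ : ∃ ρ : ℂ, 12 * ρ ^ 2 = α ∧ -8 * ρ ^ 3 = β := by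
    obtain ⟨ρ, hρ⟩ := IsAlgClosed.exists_pow_nat_eq (α / 12) (n := 2) (by norm_num)
    have h12 : 12 * ρ ^ 2 = α := by
      rw [hρ]
      ring
    have h3 : (8 * ρ ^ 3 - β) * (8 * ρ ^ 3 + β) = 0 := by
      have : 27 * ((8 * ρ ^ 3 - β) * (8 * ρ ^ 3 + β)) = 0 := by
        have e : α ^ 3 = (12 * ρ ^ 2) ^ 3 := by rw [h12]
        rw [hd] at e
        linear_combination -e
      exact (mul_eq_zero.1 this).resolve_left (by norm_num)
    rcases mul_eq_zero.1 h3 with h4 | h4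
    · exact ⟨-ρ, by linear_combination h12, by linear_combination h4⟩
    · exact ⟨ρ, h12, by linear_combination -h4⟩
  haveI : CharZero K := charZero_of_injective_algebraMap (algebraMap ℂ K).injective
  set C := algebraMap ℂ K with hC
  have c12 : C 12 = 12 := map_ofNat C 12
  have c8 : C 8 = 8 := map_ofNat C 8
  have e1 : C α = 12 * C ρ ^ 2 := by
    rw [← h1]
    simp [c12]
  have e2 : C β = -8 * C ρ ^ 3 := by
    rw [← h2]
    simp [c8]
  have hne : u - C ρ ≠ 0 := by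
    intro h0
    apply hu
    rw [sub_eq_zero.1 h0]
    exact isAlgebraic_algebraMap ρ
  set t : K := v / (u - C ρ) with ht
  have hvt : v = t * (u - C ρ) := by
    rw [ht]
    field_simp
  have ht2 : t ^ 2 = 4 * (u + 2 * C ρ) := by
    have h5 : (u - C ρ) ^ 2 * (t ^ 2 - 4 * (u + 2 * C ρ)) = 0 := by
      rw [e1, e2, hvt] at h
      linear_combination h
    exact sub_eq_zero.1 ((mul_eq_zero.1 h5).resolve_left (pow_ne_zero 2 hne))
  have hut : u = t ^ 2 / 4 - 2 * C ρ := by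
    rw [ht2]
    ring
  refine ⟨t, ?_⟩
  rw [eq_top_iff, ← huv, IntermediateField.adjoin_le_iff]
  have m1 : t ∈ IntermediateField.adjoin ℂ {t} := IntermediateField.mem_adjoin_simple_self ℂ t
  have hmem : ∀ z : ℂ, C z ∈ IntermediateField.adjoin ℂ {t} := fun z => (IntermediateField.adjoin ℂ {t}).algebraMap_mem z
  have m4 : (4 : K) ∈ IntermediateField.adjoin ℂ {t} := by
    have := hmem 4
    rwa [hC, map_ofNat] at this
  have m2 : (2 : K) ∈ IntermediateField.adjoin ℂ {t} := by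
    have := hmem 2
    rwa [hC, map_ofNat] at this
  have mu : u ∈ IntermediateField.adjoin ℂ {t} := by
    rw [hut]
    exact sub_mem (div_mem (pow_mem m1 2) m4) (mul_mem m2 (hmem ρ))
  have mv : v ∈ IntermediateField.adjoin ℂ {t} := by
    rw [hvt]
    exact mul_mem m1 (sub_mem mu (hmem ρ))
  rintro z hz
  rcases hz with rfl | hz
  · exact mu
  · rw [Set.mem_singleton_iff] at hz
    rw [hz]
    exact mv

end Pool.Agent.H13.CV

end
end

section

/-!
# The same exceptional set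

If holomorphic maps from the punctured disc to a surface extend, unless they are maps into a hypersurface, then they
extend unless they are maps into the set which contains the entire curves.
-/

open Topology Filter MvPolynomial

noncomputable section

namespace Pool.Agent.H17BP

attribute [-instance] ProperSMul.toContinuousSMul

open Pool.Agent.H17 (PN VanishesAt ZariskiClosedIn HolomorphicInto puncturedDisc)

variable {N : ℕ} {P : Ideal (MvPolynomial (Fin (N + 1)) ℂ)}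

theorem isPreconnected_puncturedDisc : IsPreconnected puncturedDisc := by
  have h : puncturedDisc = Complex.exp '' {z : ℂ | z.re < 0} := by
    ext z
    constructor
    · rintro ⟨h1, h2⟩
      have h3 : z ≠ 0 := h2
      refine ⟨Complex.log z, ?_, Complex.exp_log h3⟩
      rw [mem_ball_zero_iff] at h1
      change (Complex.log z).re < 0
      rw [Complex.log_re]
      exact Real.log_neg (norm_pos_iff.mpr h3) h1
    · rintro ⟨w, hw, rfl⟩
      refine ⟨?_, Complex.exp_ne_zero w⟩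
      rw [mem_ball_zero_iff, Complex.norm_exp]
      have h1 := Real.exp_lt_exp.mpr hw
      rwa [Real.exp_zero] at h1
  rw [h]
  exact (convex_halfSpace_re_lt 0).isPreconnected.image Complex.exp Complex.continuous_exp.continuousOn

end Pool.Agent.H17BP

end
end

section

/-!
# Varieties with a relation between forms: definitions

Locally closed subvarieties of `ℙ^N`, relations between forms on them, and the four properties of
the Green–Griffiths–Lang conjecture with a given exceptional set.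
-/

open MvPolynomial Topology Filter
open Pool.Agent.H17 (PN VanishesAt ZariskiClosedIn HolomorphicInto puncturedDisc)

noncomputable section

namespace Pool.Agent.H17R

attribute [-instance] ProperSMul.toContinuousSMul

variable {N : ℕ}

/-- The points of the zero locus of the homogeneous ideal `P` at which none of the forms `H m`
vanishes. -/
def openVar (P : Ideal (MvPolynomial (Fin (N + 1)) ℂ)) {b : ℕ}
    (H : Fin b → MvPolynomial (Fin (N + 1)) ℂ) : Set (PN N) :=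
  {x | (∀ Q ∈ P, ∀ n, Q.IsHomogeneous n → VanishesAt Q x) ∧ ∀ m, ¬ VanishesAt (H m) x}

end Pool.Agent.H17R

end
end

section

/-!
# BPL Aff: open parts which are proper over an affine variety

`AffProper X K Φ`: the functions `Φ : K → ℂ^M` (of degree `0`) are holomorphic along curves and tend to infinity at the points of `X \ K`.
-/

set_option autoImplicit false

namespace Pool.Agent.H36.BPL

attribute [-instance] ProperSMul.toContinuousSMul

open Filter Topology Metric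
open Pool.Agent.H36.BP (EN Curve)

/-- `Φ` is a proper map on the open part `K` of the closed cone `X` -/
structure AffProper {V : Type} [NormedAddCommGroup V] [NormedSpace ℂ V] {M : ℕ} (X K : Set V) (Φ : V → Fin M → ℂ) : Prop where
  smul : ∀ x ∈ K, ∀ c : ℂ, c ≠ 0 → Φ (c • x) = Φ x
  cont : ContinuousOn Φ K
  hol : ∀ (F : ℂ → V) (z₀ : ℂ), AnalyticAt ℂ F z₀ → (∀ᶠ z in 𝓝 z₀, F z ∈ K) → AnalyticAt ℂ (fun z => Φ (F z)) z₀
  proper : ∀ x ∈ X, x ∉ K → ∀ R : ℝ, ∀ᶠ y in 𝓝 x, y ∈ K → R < ‖Φ y‖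
  iso : ∀ (F : ℂ → V) (z₀ : ℂ), AnalyticAt ℂ F z₀ → (∀ᶠ z in 𝓝 z₀, F z ∈ X) → (∀ᶠ z in 𝓝 z₀, F z ∉ K) ∨ ∀ᶠ z in 𝓝[≠] z₀, F z ∈ K

variable {N : ℕ}

theorem hur_of_affProper {X K : Set (EN N)} {M : ℕ} {Φ : EN N → Fin M → ℂ} (hX : ∀ x ∈ closure K, x ≠ 0 → x ∈ X)
    (hsm : ∀ x ∈ K, ∀ c : ℂ, c ≠ 0 → c • x ∈ K) (h : AffProper X K Φ) :
    ∀ (l : Filter ℕ), l.NeBot → ∀ (F : ℕ → ℂ → EN N) (H : ℂ → EN N) (k : ℕ) (z₀ : ℂ) (s : ℝ), 0 < s →
    (∀ᶠ n in l, Curve K (Metric.ball z₀ s) (F n)) → DifferentiableOn ℂ H (Metric.ball z₀ s) →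
    TendstoLocallyUniformlyOn F (fun z => (z - z₀) ^ k • H z) l (Metric.ball z₀ s) → H z₀ ≠ 0 → H z₀ ∉ K → ∀ᶠ z in 𝓝 z₀, H z ∉ K := by
  intro l hl F H k z₀ s hs hF hH hlim h0 hK
  have hHa : AnalyticAt ℂ H z₀ := hH.analyticAt (isOpen_ball.mem_nhds (mem_ball_self hs))
  have hsmK : ∀ (x : EN N) (c : ℂ), c ≠ 0 → (c • x ∈ K ↔ x ∈ K) := by
    intro x c hc
    constructor
    · intro h1
      have h2 := hsm _ h1 c⁻¹ (inv_ne_zero hc)
      rwa [smul_smul, inv_mul_cancel₀ hc, one_smul] at h2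
    · intro h1
      exact hsm _ h1 c hc
  -- near `z₀` the curve `H` is in `X`
  have hcl : ∀ z ∈ ball z₀ s, z ≠ z₀ → (z - z₀) ^ k • H z ∈ closure K := by
    intro z hz _
    have h1 : Tendsto (fun n => F n z) l (𝓝 ((z - z₀) ^ k • H z)) := hlim.tendsto_at hz
    refine mem_closure_of_tendsto h1 ?_
    filter_upwards [hF] with n hn
    exact hn.2 z hz
  have hne : ∀ᶠ z in 𝓝 z₀, H z ≠ 0 := hHa.continuousAt.eventually_ne h0
  have hclK : ∀ (x : EN N) (c : ℂ), c ≠ 0 → c • x ∈ closure K → x ∈ closure K := by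
    intro x c hc hx
    have h1 : Continuous (fun y : EN N => c⁻¹ • y) := continuous_const_smul _
    have h2 := map_mem_closure h1 hx (fun y hy => hsm y hy c⁻¹ (inv_ne_zero hc))
    simpa [smul_smul, inv_mul_cancel₀ hc] using h2
  have hclH : ∀ᶠ z in 𝓝 z₀, H z ∈ closure K := by
    have h1 : ∀ᶠ z in 𝓝[≠] z₀, H z ∈ closure K := by
      rw [eventually_nhdsWithin_iff]
      filter_upwards [isOpen_ball.mem_nhds (mem_ball_self hs)] with z hz hzne
      exact hclK _ _ (pow_ne_zero k (sub_ne_zero.mpr hzne)) (hcl z hz hzne)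
    have h2 : H z₀ ∈ closure K := by
      have h3 : Tendsto H (𝓝[≠] z₀) (𝓝 (H z₀)) := hHa.continuousAt.tendsto.mono_left nhdsWithin_le_nhds
      exact isClosed_closure.mem_of_tendsto h3 h1
    have h4 := eventually_nhdsWithin_iff.mp h1
    filter_upwards [h4] with z hz
    by_cases hz0 : z = z₀
    · rw [hz0]; exact h2
    · exact hz hz0
  have hHX : ∀ᶠ z in 𝓝 z₀, H z ∈ X := by
    filter_upwards [hclH, hne] with z h1 h2
    exact hX _ h1 h2
  rcases h.iso H z₀ hHa hHX with h1 | h1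
  · exact h1
  exfalso
  -- a small closed disc
  have hball : ∀ᶠ z in 𝓝 z₀, z ∈ ball z₀ s := isOpen_ball.mem_nhds (mem_ball_self hs)
  obtain ⟨r₀, hr₀, hr₀K⟩ := Metric.eventually_nhds_iff_ball.mp ((eventually_nhdsWithin_iff.mp h1).and hball)
  set r : ℝ := r₀ / 2 with hr
  have hr0 : 0 < r := by rw [hr]; positivity
  have hrlt : r < r₀ := by rw [hr]; linarith
  have hcb : closedBall z₀ r ⊆ ball z₀ r₀ := closedBall_subset_ball hrlt
  have hKr : ∀ z ∈ closedBall z₀ r, z ≠ z₀ → H z ∈ K := fun z hz hne => (hr₀K z (hcb hz)).1 hne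
  have hsr : closedBall z₀ r ⊆ ball z₀ s := fun z hz => (hr₀K z (hcb hz)).2
  -- a uniform bound on the circle
  have hpt : ∀ w ∈ sphere z₀ r, ∃ t ∈ 𝓝 w, ∃ C : ℝ, ∀ᶠ n in l, ∀ z ∈ t, ‖Φ (F n z)‖ ≤ C := by
    intro w hw
    have hwcb : w ∈ closedBall z₀ r := sphere_subset_closedBall hw
    have hwne : w ≠ z₀ := by
      rintro rfl
      rw [mem_sphere, dist_self] at hw
      linarith
    have hws : w ∈ ball z₀ s := hsr hwcb
    have hxK : (w - z₀) ^ k • H w ∈ K := hsm _ (hKr w hwcb hwne) _ (pow_ne_zero k (sub_ne_zero.mpr hwne))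
    have hc : ∀ᶠ y in 𝓝 ((w - z₀) ^ k • H w), y ∈ K → ‖Φ y‖ < ‖Φ ((w - z₀) ^ k • H w)‖ + 1 := by
      have h2 := (h.cont _ hxK).norm.eventually_lt_const (show ‖Φ ((w - z₀) ^ k • H w)‖ < ‖Φ ((w - z₀) ^ k • H w)‖ + 1 by linarith)
      exact eventually_nhdsWithin_iff.mp h2
    obtain ⟨δ, hδ, hδc⟩ := Metric.eventually_nhds_iff.mp hc
    have hGc : ContinuousAt (fun z => (z - z₀) ^ k • H z) w :=
      (((continuous_id.sub continuous_const).pow k).continuousAt).smul
        ((hH.differentiableAt (isOpen_ball.mem_nhds hws)).continuousAt)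
    have hG : ∀ᶠ z in 𝓝 w, dist ((z - z₀) ^ k • H z) ((w - z₀) ^ k • H w) < δ / 2 :=
      Metric.tendsto_nhds.mp hGc (δ / 2) (by positivity)
    obtain ⟨t, ht, htn⟩ := (Metric.tendstoLocallyUniformlyOn_iff.mp hlim) (δ / 2) (by positivity) w hws
    rw [isOpen_ball.nhdsWithin_eq hws] at ht
    refine ⟨t ∩ ({z | dist ((z - z₀) ^ k • H z) ((w - z₀) ^ k • H w) < δ / 2} ∩ ball z₀ s),
      inter_mem ht (inter_mem hG (isOpen_ball.mem_nhds hws)), ‖Φ ((w - z₀) ^ k • H w)‖ + 1, ?_⟩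
    filter_upwards [htn, hF] with n hn1 hn2
    rintro z ⟨hz1, hz2, hz3⟩
    have h3 : dist (F n z) ((w - z₀) ^ k • H w) < δ := by
      have h4 := hn1 z hz1
      rw [dist_comm] at h4
      have h5 : dist ((z - z₀) ^ k • H z) ((w - z₀) ^ k • H w) < δ / 2 := hz2
      calc dist (F n z) ((w - z₀) ^ k • H w) ≤ dist (F n z) ((z - z₀) ^ k • H z) + dist ((z - z₀) ^ k • H z) ((w - z₀) ^ k • H w) :=
            dist_triangle _ _ _
        _ < δ := by linarith
    exact (hδc h3 (hn2.2 z hz3)).le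
  obtain ⟨C, hC⟩ : ∃ C : ℝ, ∀ᶠ n in l, ∀ z ∈ sphere z₀ r, ‖Φ (F n z)‖ ≤ C := by
    refine (isCompact_sphere z₀ r).induction_on (p := fun S => ∃ C : ℝ, ∀ᶠ n in l, ∀ z ∈ S, ‖Φ (F n z)‖ ≤ C) ?_ ?_ ?_ ?_
    · exact ⟨0, Filter.Eventually.of_forall fun n z hz => absurd hz (Set.notMem_empty z)⟩
    · rintro S T hST ⟨C, hC⟩
      exact ⟨C, hC.mono fun n hn z hz => hn z (hST hz)⟩
    · rintro S T ⟨C, hC⟩ ⟨C', hC'⟩
      refine ⟨max C C', ?_⟩
      filter_upwards [hC, hC'] with n h1 h2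
      rintro z (hz | hz)
      · exact (h1 z hz).trans (le_max_left _ _)
      · exact (h2 z hz).trans (le_max_right _ _)
    · intro w hw
      obtain ⟨t, ht, C, hC⟩ := hpt w hw
      exact ⟨t, mem_nhdsWithin_of_mem_nhds ht, C, hC⟩
  -- the bound inside
  have hin : ∀ᶠ n in l, ∀ z ∈ ball z₀ r, ‖Φ (F n z)‖ ≤ C := by
    filter_upwards [hC, hF] with n h1 h2
    intro z hz
    have hd : DifferentiableOn ℂ (fun z => Φ (F n z)) (ball z₀ s) := by
      intro w hw
      have hFa : AnalyticAt ℂ (F n) w := h2.1.analyticAt (isOpen_ball.mem_nhds hw)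
      have hFK : ∀ᶠ z in 𝓝 w, F n z ∈ K := by
        filter_upwards [isOpen_ball.mem_nhds hw] with z hz
        exact h2.2 z hz
      exact (h.hol _ w hFa hFK).differentiableAt.differentiableWithinAt
    have hdc : DiffContOnCl ℂ (fun z => Φ (F n z)) (ball z₀ r) := by
      refine DifferentiableOn.diffContOnCl ?_
      rw [closure_ball z₀ hr0.ne']
      exact hd.mono hsr
    refine Complex.norm_le_of_forall_mem_frontier_norm_le isBounded_ball hdc (fun w hw => ?_) (subset_closure hz)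
    rw [frontier_ball z₀ hr0.ne'] at hw
    exact h1 w hw
  -- the bound for the limit
  have hlimC : ∀ z ∈ ball z₀ r, z ≠ z₀ → ‖Φ (H z)‖ ≤ C := by
    intro z hz hzne
    have hzs : z ∈ ball z₀ s := hsr (ball_subset_closedBall hz)
    have hzK : H z ∈ K := hKr z (ball_subset_closedBall hz) hzne
    have hcne : (z - z₀) ^ k ≠ 0 := pow_ne_zero k (sub_ne_zero.mpr hzne)
    have hxK : (z - z₀) ^ k • H z ∈ K := hsm _ hzK _ hcne
    have h2 : Tendsto (fun n => F n z) l (𝓝[K] ((z - z₀) ^ k • H z)) := by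
      refine tendsto_nhdsWithin_iff.mpr ⟨hlim.tendsto_at hzs, ?_⟩
      filter_upwards [hF] with n hn
      exact hn.2 z hzs
    have h3 : Tendsto (fun n => ‖Φ (F n z)‖) l (𝓝 ‖Φ ((z - z₀) ^ k • H z)‖) := ((h.cont _ hxK).tendsto.comp h2).norm
    rw [h.smul _ hzK _ hcne] at h3
    refine le_of_tendsto h3 ?_
    filter_upwards [hin] with n hn
    exact hn z hz
  have hprop := h.proper (H z₀) (hHX.self_of_nhds) hK C
  have h4 : ∀ᶠ z in 𝓝[≠] z₀, H z ∈ K → C < ‖Φ (H z)‖ := (hHa.continuousAt.eventually hprop).filter_mono nhdsWithin_le_nhds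
  have h5 : ∀ᶠ z in 𝓝[≠] z₀, z ∈ ball z₀ r := (show ∀ᶠ z in 𝓝 z₀, z ∈ ball z₀ r from ball_mem_nhds z₀ hr0).filter_mono nhdsWithin_le_nhds
  obtain ⟨z, hz1, hz2, hz3, hz4⟩ := ((h4.and (h1.and h5)).and self_mem_nhdsWithin).exists.imp fun z hz => (⟨hz.1.1, hz.1.2.1, hz.1.2.2, hz.2⟩ : (H z ∈ K → C < ‖Φ (H z)‖) ∧ H z ∈ K ∧ z ∈ ball z₀ r ∧ z ∈ ({z₀} : Set ℂ)ᶜ)
  have h6 := hz1 hz2
  have h7 := hlimC z hz3 hz4
  linarith

end Pool.Agent.H36.BPL

end

section

/-!
# BPL: open surfaces in projective spaces, in terms of their cones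

`X` is the cone of a smooth closed surface, `K` the cone over the complement of a curve `D` in it.
-/

set_option autoImplicit false

namespace Pool.Agent.H36.BPL

attribute [-instance] ProperSMul.toContinuousSMul

open Filter Topology Metric
open Pool.Agent.H17BP (Surface IsChart IsForm NoZeros NodalAt)

variable {V : Type} [NormedAddCommGroup V] [NormedSpace ℂ V]

/-- `K` is the complement in `X` of a curve which is locally given by one equation. -/
structure OpenPart (X K : Set V) : Prop where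
  sub : K ⊆ X
  smul : ∀ x ∈ K, ∀ c : ℂ, c ≠ 0 → c • x ∈ K
  eqn : ∀ x ∈ X, ∃ h : V → ℂ, AnalyticAt ℂ h x ∧ ∀ᶠ y in 𝓝 x, y ∈ X → (y ∉ K ↔ h y = 0)

/-- `g` is holomorphic near `p` and vanishes on the preimage of `X ∖ K` under `φ` -/
def VanOff (K : Set V) (φ : ℂ × ℂ → V) (p : ℂ × ℂ) (g : ℂ × ℂ → ℂ) : Prop :=
  AnalyticAt ℂ g p ∧ ∀ᶠ y in 𝓝 p, φ y ∉ K → g y = 0

/-- The form `Ω` on `K` has poles of order at most `e` along `X ∖ K`: the pull back of `Ω` to `ℂ²` becomes holomorphic when it is multiplied with `e`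
functions which vanish on the preimage of `X ∖ K`. -/
def PoleLE (X K : Set V) (e : ℕ) (Ω : V → V → V → ℂ) : Prop :=
  ∀ (φ : ℂ × ℂ → V) (p : ℂ × ℂ), AnalyticAt ℂ φ p → (∀ᶠ y in 𝓝 p, φ y ∈ X) → ∀ G : List (ℂ × ℂ → ℂ), G.length = e →
    (∀ g ∈ G, VanOff K φ p g) → ∃ b : ℂ × ℂ → ℂ, AnalyticAt ℂ b p ∧
      ∀ᶠ y in 𝓝 p, φ y ∈ K → b y = (G.map fun g => g y).prod * Ω (φ y) (fderiv ℂ φ y (1, 0)) (fderiv ℂ φ y (0, 1))

/-- The curve `T ⊇ X ∖ K` is smooth or has a node at `x`, and `X ∖ K` is a union of branches of `T`. -/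
def PairNodalAt (X K T : Set V) (x : V) : Prop :=
  ∃ σ τ, IsChart X σ τ ∧ σ 0 = x ∧ ∃ (nd : Bool) (d : Bool × Bool),
    (∀ᶠ p in 𝓝 (0 : ℂ × ℂ), (σ p ∈ T ↔ p.1 = 0 ∨ (nd = true ∧ p.2 = 0))) ∧
    (∀ᶠ p in 𝓝 (0 : ℂ × ℂ), (σ p ∉ K ↔ (d.1 = true ∧ p.1 = 0) ∨ (d.2 = true ∧ p.2 = 0))) ∧ (d.2 = true → nd = true)

theorem OpenPart.rel {X K : Set V} (h : OpenPart X K) : ∀ x ∈ K, ∀ᶠ y in 𝓝 x, y ∈ X → y ∈ K := by
  intro x hx
  obtain ⟨g, hg, he⟩ := h.eqn x (h.sub hx)
  have h1 : g x ≠ 0 := fun h0 => ((he.self_of_nhds (h.sub hx)).mpr h0) hx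
  filter_upwards [he, hg.continuousAt.eventually_ne h1] with y hy hy2 hyX
  by_contra h2
  exact hy2 ((hy hyX).mp h2)

theorem PoleLE.pow {X K : Set V} {e : ℕ} {Ω : V → V → V → ℂ} (h : PoleLE X K e Ω) {φ : ℂ × ℂ → V} {p : ℂ × ℂ} (hφ : AnalyticAt ℂ φ p)
    (hX : ∀ᶠ y in 𝓝 p, φ y ∈ X) {g : ℂ × ℂ → ℂ} (hg : AnalyticAt ℂ g p) (hg0 : ∀ᶠ y in 𝓝 p, φ y ∉ K → g y = 0) :
    ∃ b : ℂ × ℂ → ℂ, AnalyticAt ℂ b p ∧
      ∀ᶠ y in 𝓝 p, φ y ∈ K → b y = g y ^ e * Ω (φ y) (fderiv ℂ φ y (1, 0)) (fderiv ℂ φ y (0, 1)) := by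
  obtain ⟨b, hb, hbe⟩ := h φ p hφ hX (List.replicate e g) (List.length_replicate ..) (fun g' hg' => by
    rw [List.eq_of_mem_replicate hg']
    exact ⟨hg, hg0⟩)
  refine ⟨b, hb, ?_⟩
  filter_upwards [hbe] with y hy hyK
  rw [hy hyK, List.map_replicate, List.prod_replicate]

/-- the product of holomorphic functions is holomorphic -/
theorem analyticAt_listProd {p : ℂ × ℂ} {G : List (ℂ × ℂ → ℂ)} (h : ∀ g ∈ G, AnalyticAt ℂ g p) :
    AnalyticAt ℂ (fun y => (G.map fun g => g y).prod) p := by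
  induction G with
  | nil => simpa using analyticAt_const
  | cons g G ih =>
    have h1 : (fun y => ((g :: G).map fun g => g y).prod) = fun y => g y * (G.map fun g => g y).prod := by
      funext y
      simp
    rw [h1]
    exact (h g (by simp)).mul (ih fun g' hg' => h g' (by simp [hg']))

theorem PoleLE.mono {X K : Set V} {e e' : ℕ} (he : e ≤ e') {Ω : V → V → V → ℂ} (h : PoleLE X K e Ω) : PoleLE X K e' Ω := by
  intro φ p hφ hX G hG hGg
  obtain ⟨b, hb, hbe⟩ := h φ p hφ hX (G.take e) (by rw [List.length_take]; omega) (fun g hg => hGg g (List.mem_of_mem_take hg))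
  refine ⟨fun y => ((G.drop e).map fun g => g y).prod * b y, (analyticAt_listProd fun g hg => (hGg g (List.mem_of_mem_drop hg)).1).mul hb, ?_⟩
  filter_upwards [hbe] with y hy hyK
  rw [hy hyK]
  have h1 : (G.map fun g => g y).prod = ((G.take e).map fun g => g y).prod * ((G.drop e).map fun g => g y).prod := by
    rw [← List.prod_append, ← List.map_append, List.take_append_drop]
  rw [h1]
  ring

theorem AffProper.closed (X : Set V) (hX : ∀ x ∈ X, ∀ c : ℂ, c ≠ 0 → c • x ∈ X) : AffProper X X (fun _ : V => (0 : Fin 0 → ℂ)) where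
  smul _ _ _ _ := rfl
  cont := continuousOn_const
  hol _ _ _ _ := analyticAt_const
  proper x hx hxK := absurd hx hxK
  iso F z₀ _ hF := Or.inr (hF.filter_mono nhdsWithin_le_nhds)

/-- powers of a form with logarithmic poles, multiplied by a homogeneous function which vanishes on `X ∖ K` -/
theorem PoleLE.pow_mul {X K : Set V} {M k : ℕ} (hM : 1 ≤ M) (hk : 1 ≤ k) {Ω : V → V → V → ℂ} (h : PoleLE X K M Ω) {H : V → ℂ}
    (hH : ∀ x, AnalyticAt ℂ H x) (hH0 : ∀ x ∈ X, x ∉ K → H x = 0) : PoleLE X K (M * k - 1) (fun x v w => H x * Ω x v w ^ k) := by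
  -- the `k`-th power
  have key : ∀ k : ℕ, ∀ (φ : ℂ × ℂ → V) (p : ℂ × ℂ), AnalyticAt ℂ φ p → (∀ᶠ y in 𝓝 p, φ y ∈ X) → ∀ G : List (ℂ × ℂ → ℂ), G.length = M * k →
      (∀ g ∈ G, VanOff K φ p g) → ∃ b : ℂ × ℂ → ℂ, AnalyticAt ℂ b p ∧
      ∀ᶠ y in 𝓝 p, φ y ∈ K → b y = (G.map fun g => g y).prod * Ω (φ y) (fderiv ℂ φ y (1, 0)) (fderiv ℂ φ y (0, 1)) ^ k := by
    intro k
    induction k with
    | zero =>
      intro φ p _ _ G hG _
      obtain rfl := List.eq_nil_of_length_eq_zero (by simpa using hG)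
      exact ⟨fun _ => 1, analyticAt_const, Filter.Eventually.of_forall fun y _ => by simp⟩
    | succ k ih =>
      intro φ p hφ hX G hG hGg
      obtain ⟨b, hb, hbe⟩ := h φ p hφ hX (G.take M) (by rw [List.length_take, hG]; simp [Nat.mul_succ]) (fun g hg => hGg g (List.mem_of_mem_take hg))
      obtain ⟨b', hb', hbe'⟩ := ih φ p hφ hX (G.drop M) (by rw [List.length_drop, hG]; simp [Nat.mul_succ]) (fun g hg => hGg g (List.mem_of_mem_drop hg))
      refine ⟨fun y => b y * b' y, hb.mul hb', ?_⟩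
      filter_upwards [hbe, hbe'] with y hy hy' hyK
      rw [hy hyK, hy' hyK]
      have h1 : (G.map fun g => g y).prod = ((G.take M).map fun g => g y).prod * ((G.drop M).map fun g => g y).prod := by
        rw [← List.prod_append, ← List.map_append, List.take_append_drop]
      rw [h1]
      ring
  intro φ p hφ hX G hG hGg
  have hHφ : AnalyticAt ℂ (fun y => H (φ y)) p := (hH _).comp hφ
  have hMk : 1 ≤ M * k := Nat.mul_pos hM hk
  obtain ⟨b, hb, hbe⟩ := key k φ p hφ hX ((fun y => H (φ y)) :: G) (by rw [List.length_cons, hG]; omega) (fun g hg => by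
    rcases List.mem_cons.mp hg with rfl | hg
    · exact ⟨hHφ, hX.mono fun y hy hyK => hH0 _ hy hyK⟩
    · exact hGg g hg)
  refine ⟨b, hb, ?_⟩
  filter_upwards [hbe] with y hy hyK
  rw [hy hyK, List.map_cons, List.prod_cons]
  ring

theorem isForm_pow_mul {K : Set V} {m j d k : ℕ} (hd : d ≤ j * k) {Ω : V → V → V → ℂ} (h : IsForm K m j Ω) {H : V → ℂ}
    (hH : ∀ x, AnalyticAt ℂ H x) (hHs : ∀ (c : ℂ) (x : V), H (c • x) = c ^ d * H x) (hsK : ∀ x ∈ K, ∀ c : ℂ, c ≠ 0 → c • x ∈ K) :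
    IsForm K (m * k) (j * k - d) (fun x v w => H x * Ω x v w ^ k) where
  add_smul x hx v hv w hw a b := by simp only [h.add_smul x hx v hv w hw a b]
  det x hx v hv w hw a b c d := by
    simp only [h.det x hx v hv w hw a b c d]
    ring
  scale x hx v hv w hw c hc := by
    have h1 := h.scale x hx v hv w hw c hc
    simp only [hHs]
    rw [← h1]
    obtain ⟨e, he⟩ := Nat.exists_eq_add_of_le hd
    have h2 : j * k - d = e := by omega
    rw [h2]
    have h3 : (c ^ j) ^ k = c ^ d * c ^ e := by rw [← pow_mul, he, pow_add]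
    calc c ^ e * (c ^ d * H x * Ω (c • x) (c • v) (c • w) ^ k) = H x * ((c ^ d * c ^ e) * Ω (c • x) (c • v) (c • w) ^ k) := by ring
      _ = H x * ((c ^ j) ^ k * Ω (c • x) (c • v) (c • w) ^ k) := by rw [h3]
      _ = _ := by rw [← mul_pow]
  analytic φ p hφ hφK := ((hH _).comp hφ).mul ((h.analytic φ p hφ hφK).pow k)

end Pool.Agent.H36.BPL

end

section

/-!
# BU FormB: the pull back of a form to the blow-up

`Om y v w = l_b(y_b)^j Ω(y_b)(v_b, w_b)²` for any `b` with `y_b ≠ 0` (the value does not depend on `b`: `om_eq`).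

`om_eq`: let `b`, `b'` be two such indices, `y b' = c • y b`, `c ≠ 0`; `l_(b')(y_(b')) = c² l_b (y_b)` (`symm`: `l_(b')(y_(b')) = c l_(b')(y_b) = c l_b (y_(b'))`);
`v b' = c • v b + μ • y b` (`tan_rel`), so `Ω(y_(b'))(v_(b'), w_(b')) = Ω(c y_b)(c v_b + μ y_b, c w_b + μ' y_b) = Ω (c y_b)(c v_b, c w_b)` (`add_smul` at the point `c y_b`: `μ y_b = (μ/c) (c y_b)`; `c v_b` is tangent at `c y_b`)
`= c^(-j) Ω(y_b)(v_b, w_b)` (`scale`).  Squares and the factor `c^(2j)` cancel.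

`isForm_om`: `add_smul`, `det` (the square gives `(ad-bc)^(2m)`), `scale`: `c^j` from `l_b(c y_b)^j = c^j l_b(y_b)^j` and `c^(-2j)` from the square: total `c^(-j)`; note that `Tan` of `y` passes to `c y` and to linear combinations only through `tan_comp`
(use the same `b` on both sides: `(c • y) b ≠ 0`).
`analytic`: near `p` the component `b` with `φ p b ≠ 0` works: `om_eq` for the tangent vectors `fderiv φ y (1,0)`, `fderiv φ y (0,1)` of `blow` at `φ y` (`tan_fderiv`), then `hΩ.analytic` for `y ↦ φ y b`, whose derivative is `(fderiv φ y w) b`.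
`noZero_om`: `y ∉ total`, so `y b ∉ B` for the `b` with `y b ≠ 0`... (if `y b ∈ B` for one such `b` then for all, `comp_smul` and the cone property of `B`); `q ∈ B`, so `y b` is not a multiple of `q`, some `l b' (y b) ≠ 0`, hence
`l_b (y_b) ≠ 0` (`ne_of_ne`), and `indep_off`, `NoZeroOff` for `Ω`.
-/

set_option autoImplicit false

namespace Pool.Agent.H62.BU

attribute [-instance] ProperSMul.toContinuousSMul

open Filter Topology

variable {V : Type*} [NormedAddCommGroup V] [NormedSpace ℂ V] {ι : Type*} [Fintype ι]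
variable {l : ι → V →L[ℂ] ℂ} {X : Set V} {σ : ℂ × ℂ → V} {τ : V → ℂ × ℂ}

open Classical in
/-- the pull back -/
noncomputable def om (l : ι → V →L[ℂ] ℂ) (j : ℕ) (Ω : V → V → V → ℂ) (y v w : ι → V) : ℂ :=
  if h : ∃ b, y b ≠ 0 then l h.choose (y h.choose) ^ j * Ω (y h.choose) (v h.choose) (w h.choose) ^ 2 else 0

theorem tan_fderiv {φ : ℂ × ℂ → V} {p : ℂ × ℂ} (hφ : AnalyticAt ℂ φ p) (h : ∀ᶠ y in 𝓝 p, φ y ∈ X) (w : ℂ × ℂ) :
    Tan X (φ p) (fderiv ℂ φ p w) := by
  have e0 : p + (0 : ℂ) • w = p := by rw [zero_smul, add_zero]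
  have hlin : AnalyticAt ℂ (fun z : ℂ => p + z • w) 0 :=
    analyticAt_const.add (analyticAt_id.smul analyticAt_const)
  have ht : Tendsto (fun z : ℂ => p + z • w) (𝓝 0) (𝓝 p) := by
    have h1 : Tendsto (fun z : ℂ => p + z • w) (𝓝 0) (𝓝 (p + (0 : ℂ) • w)) := hlin.continuousAt
    rwa [e0] at h1
  refine ⟨fun z => φ (p + z • w), ?_, ht.eventually h, by simp only [e0], ?_⟩
  · have h1 : AnalyticAt ℂ φ (p + (0 : ℂ) • w) := by rw [e0]; exact hφ
    exact AnalyticAt.comp (g := φ) (f := fun z : ℂ => p + z • w) h1 hlin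
  · have h1 : HasFDerivAt φ (fderiv ℂ φ p) (p + (0 : ℂ) • w) := by
      rw [e0]; exact hφ.differentiableAt.hasFDerivAt
    have h2 : HasDerivAt (fun z : ℂ => p + z • w) w 0 := by
      have h3 := ((hasDerivAt_id (0 : ℂ)).smul_const w).const_add p
      simpa using h3
    exact (h1.comp_hasDerivAt (0 : ℂ) h2).deriv

end Pool.Agent.H62.BU

end

section

/-!
# BU Main: the blow-up of a surface at a point, in terms of the definitions of `H17BP.Surf`
-/

set_option autoImplicit false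

namespace Pool.Agent.H62.BU

attribute [-instance] ProperSMul.toContinuousSMul

open Filter Topology

variable {V : Type} [NormedAddCommGroup V] [NormedSpace ℂ V] {ι : Type} [Fintype ι] {l : ι → V →L[ℂ] ℂ} {X B : Set V} {q : V}

theorem toChart {X : Set V} {σ : ℂ × ℂ → V} {τ : V → ℂ × ℂ} (h : Pool.Agent.H17BP.IsChart X σ τ) : IsChart X σ τ :=
  ⟨h.σ_an, h.σ_mem, h.ne, h.τ_an, h.left, h.right, h.inv⟩

theorem toSurface {X : Set V} (h : Pool.Agent.H17BP.Surface X) : Surface X :=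
  ⟨h.zero, h.smul, h.closed, fun x hx => by
    obtain ⟨σ, τ, h1, h2⟩ := h.chart x hx
    exact ⟨σ, τ, toChart h1, h2⟩⟩

theorem toForm {X : Set V} {m j : ℕ} {Ω : V → V → V → ℂ} (h : Pool.Agent.H17BP.IsForm X m j Ω) : IsForm X m j Ω :=
  ⟨fun x hx v w hv hw => h.add_smul x hx v hv w hw, fun x hx v w hv hw => h.det x hx v hv w hw,
    fun x hx v w hv hw => h.scale x hx v hv w hw, h.analytic⟩

theorem ofForm {X : Set V} {m j : ℕ} {Ω : V → V → V → ℂ} (h : IsForm X m j Ω) : Pool.Agent.H17BP.IsForm X m j Ω :=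
  ⟨fun x hx v hv w hw => h.add_smul x hx v w hv hw, fun x hx v hv w hw => h.det x hx v w hv hw,
    fun x hx v hv w hw => h.scale x hx v w hv hw, h.analytic⟩

end Pool.Agent.H62.BU

end
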