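import Pool.Agent.H94.CB.H36.BP.Defs

/-! The parts of this file: H13.SM.Null, H17BP.Nodal, H23.Defs, H36.BP.OrdDefs, H36.BPL.Start, H92.GT.Homogenize. -/

section

/-!
# The zero set of an analytic function is a null set

PROOF.  `h` is analytic on a ball of radius `r` around `0` (`AnalyticAt.eventually_analyticAt`; sup norm,
the ball is convex), and since it is not eventually `0` there is `v` with `‖v‖ < r / 2`, `h v ≠ 0`;
`v ≠ 0` since `h 0 = 0`.  By continuity there is `0 < δ ≤ r / 2` with `h (p + v) ≠ 0` for `‖p‖ < δ`.  Take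
`W = Metric.ball 0 δ`, `Z' = {x ∈ W | h x = 0}`, measurable since `W \ Z' = {x ∈ W | h x ≠ 0}` is open.
By `MeasureTheory.ae_mem_of_ae_add_linearMap_mem` for `L : ℂ →ₗ[ℝ] (Fin n → ℂ)`, `t ↦ t • v`, and
`s = Z'ᶜ`, it is enough that for every `y` the set `{t : ℂ | y + t • v ∈ Z'}` is null.  If it is not
empty, let `p = y + t₀ • v ∈ Z'`; the set is the translate by `t₀` of a subset of
`{s ∈ D | h (p + s • v) = 0}`, `D = {s : ℂ | ‖p + s • v‖ < r}`.  `D` is open and convex, contains `0` and
`1`, and `g s = h (p + s • v)` is analytic on `D` with `g 1 ≠ 0`.  So the zeros of `g` in `D` are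
isolated (`AnalyticOnNhd.eqOn_zero_of_preconnected_of_frequently_eq_zero`,
`AnalyticAt.eventually_eq_zero_or_eventually_ne_zero`) and the zero set is null: it is codiscrete in `D`
(`AnalyticOnNhd.preimage_zero_mem_codiscreteWithin` or similar) and
`MeasureTheory.ae_restrict_le_codiscreteWithin`; or it is countable.
-/

open Topology MeasureTheory

noncomputable section

namespace Pool.Agent.H13.SM

attribute [-instance] ProperSMul.toContinuousSMul

private theorem Null_line {n : ℕ} {h : (Fin n → ℂ) → ℂ} {r : ℝ} {v p : Fin n → ℂ}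
    (hball : ∀ y ∈ Metric.ball (0 : Fin n → ℂ) r, AnalyticAt ℂ h y)
    (hpv : p + v ∈ Metric.ball (0 : Fin n → ℂ) r) (hv : h (p + v) ≠ 0) :
    ∀ᵐ s : ℂ, p + s • v ∈ Metric.ball (0 : Fin n → ℂ) r → h (p + s • v) ≠ 0 := by
  have hline : Continuous fun s : ℂ => p + s • v :=
    continuous_const.add (continuous_id.smul continuous_const)
  have hDo : IsOpen {s : ℂ | p + s • v ∈ Metric.ball (0 : Fin n → ℂ) r} :=
    Metric.isOpen_ball.preimage hline
  have hDc : Convex ℝ {s : ℂ | p + s • v ∈ Metric.ball (0 : Fin n → ℂ) r} := by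
    intro x hx y hy a b ha hb hab
    have h1 := (convex_ball (0 : Fin n → ℂ) r) hx hy ha hb hab
    have h2 : a • (p + x • v) + b • (p + y • v) = p + (a • x + b • y) • v := by
      have h3 : (a + b) • p = p := by rw [hab, one_smul]
      calc a • (p + x • v) + b • (p + y • v) = (a + b) • p + (a • x + b • y) • v := by
            rw [smul_add, smul_add, add_smul, add_smul, smul_assoc, smul_assoc]
            abel
        _ = _ := by rw [h3]
    rw [h2] at h1
    exact h1
  have hg : AnalyticOnNhd ℂ (fun s : ℂ => h (p + s • v))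
      {s : ℂ | p + s • v ∈ Metric.ball (0 : Fin n → ℂ) r} := by
    intro s hs
    have h1 : AnalyticAt ℂ (fun s : ℂ => p + s • v) s :=
      analyticAt_const.add (analyticAt_id.smul analyticAt_const)
    exact AnalyticAt.comp (g := h) (f := fun s : ℂ => p + s • v) (hball _ hs) h1
  have h1D : (1 : ℂ) ∈ {s : ℂ | p + s • v ∈ Metric.ball (0 : Fin n → ℂ) r} := by
    show p + (1 : ℂ) • v ∈ Metric.ball (0 : Fin n → ℂ) r
    rw [one_smul]
    exact hpv
  rcases hg.eqOn_zero_or_eventually_ne_zero_of_preconnected hDc.isPreconnected with h2 | h2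
  · exfalso
    have h3 := h2 h1D
    apply hv
    simpa using h3
  · have h3 := ae_restrict_le_codiscreteWithin (μ := (volume : Measure ℂ)) hDo.measurableSet h2
    exact (ae_restrict_iff' hDo.measurableSet).1 h3

theorem exists_null {n : ℕ} {h : (Fin n → ℂ) → ℂ} (hh : AnalyticAt ℂ h 0) (h0 : h 0 = 0)
    (hne : ¬ ∀ᶠ u in 𝓝 0, h u = 0) :
    ∃ W ∈ 𝓝 (0 : Fin n → ℂ), volume {u | u ∈ W ∧ h u = 0} = 0 := by
  obtain ⟨r, hr, hball⟩ := Metric.eventually_nhds_iff_ball.1 hh.eventually_analyticAt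
  have hex : ∃ v ∈ Metric.ball (0 : Fin n → ℂ) (r / 2), h v ≠ 0 := by
    by_contra hcon
    push Not at hcon
    exact hne (Filter.mem_of_superset (Metric.ball_mem_nhds 0 (half_pos hr)) fun u hu => hcon u hu)
  obtain ⟨v, hvr, hv⟩ := hex
  have hvr' : v ∈ Metric.ball (0 : Fin n → ℂ) r := Metric.ball_subset_ball (by linarith) hvr
  have hcont : ContinuousAt (fun p : Fin n → ℂ => h (p + v)) 0 := by
    have h1 : ContinuousAt h ((0 : Fin n → ℂ) + v) := by
      rw [zero_add]
      exact (hball v hvr').continuousAt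
    exact ContinuousAt.comp (g := h) (f := fun p : Fin n → ℂ => p + v) h1
      (continuousAt_id.add continuousAt_const)
  have hev : ∀ᶠ p in 𝓝 (0 : Fin n → ℂ), h (p + v) ≠ 0 := hcont.eventually_ne (by rwa [zero_add])
  obtain ⟨δ0, hδ0, hδ⟩ := Metric.eventually_nhds_iff_ball.1 hev
  have hδpos : 0 < min δ0 (r / 2) := lt_min hδ0 (half_pos hr)
  have hsub : Metric.ball (0 : Fin n → ℂ) (min δ0 (r / 2)) ⊆ Metric.ball 0 r :=
    Metric.ball_subset_ball ((min_le_right _ _).trans (by linarith))
  refine ⟨Metric.ball 0 (min δ0 (r / 2)), Metric.ball_mem_nhds 0 hδpos, ?_⟩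
  have hZm : MeasurableSet {u : Fin n → ℂ | u ∈ Metric.ball (0 : Fin n → ℂ) (min δ0 (r / 2)) ∧ h u = 0} := by
    have hc : ContinuousOn h (Metric.ball (0 : Fin n → ℂ) (min δ0 (r / 2))) :=
      fun u hu => (hball u (hsub hu)).continuousAt.continuousWithinAt
    have ho : IsOpen (Metric.ball (0 : Fin n → ℂ) (min δ0 (r / 2)) ∩ h ⁻¹' {0}ᶜ) :=
      hc.isOpen_inter_preimage Metric.isOpen_ball isOpen_compl_singleton
    have he : {u : Fin n → ℂ | u ∈ Metric.ball (0 : Fin n → ℂ) (min δ0 (r / 2)) ∧ h u = 0} =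
        Metric.ball (0 : Fin n → ℂ) (min δ0 (r / 2)) \
          (Metric.ball (0 : Fin n → ℂ) (min δ0 (r / 2)) ∩ h ⁻¹' {0}ᶜ) := by
      ext u
      constructor
      · rintro ⟨h1, h2⟩
        exact ⟨h1, fun h3 => h3.2 h2⟩
      · rintro ⟨h1, h2⟩
        refine ⟨h1, ?_⟩
        by_contra h3
        exact h2 ⟨h1, h3⟩
    rw [he]
    exact Metric.isOpen_ball.measurableSet.diff ho.measurableSet
  have key : ∀ᵐ y : Fin n → ℂ, y ∈ {u : Fin n → ℂ | u ∈ Metric.ball (0 : Fin n → ℂ) (min δ0 (r / 2)) ∧ h u = 0}ᶜ := by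
    refine ae_mem_of_ae_add_linearMap_mem (LinearMap.toSpanSingleton ℂ (Fin n → ℂ) v) volume volume
      hZm.compl fun y => ?_
    by_cases hy : ∃ t0 : ℂ, y + t0 • v ∈ {u : Fin n → ℂ | u ∈ Metric.ball (0 : Fin n → ℂ) (min δ0 (r / 2)) ∧ h u = 0}
    · obtain ⟨t0, hp1, -⟩ := hy
      have hp2 : ‖y + t0 • v‖ < min δ0 (r / 2) := by simpa using hp1
      have hpv : (y + t0 • v) + v ∈ Metric.ball (0 : Fin n → ℂ) r := by
        rw [mem_ball_zero_iff]
        have h1 := norm_add_le (y + t0 • v) v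
        have h2 : ‖v‖ < r / 2 := by simpa using hvr
        have h3 : min δ0 (r / 2) ≤ r / 2 := min_le_right _ _
        linarith
      have hne1 : h ((y + t0 • v) + v) ≠ 0 :=
        hδ _ (Metric.ball_subset_ball (min_le_left _ _) hp1)
      have h1 := Null_line hball hpv hne1
      have h2 := (measurePreserving_sub_right (volume : Measure ℂ) t0).quasiMeasurePreserving.ae h1
      filter_upwards [h2] with t ht hZ
      have h3 : y + t0 • v + (t - t0) • v = y + t • v := by
        rw [sub_smul]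
        abel
      rw [h3] at ht
      have h4 : y + (LinearMap.toSpanSingleton ℂ (Fin n → ℂ) v) t = y + t • v := by
        rw [LinearMap.toSpanSingleton_apply]
      rw [h4] at hZ
      exact ht (hsub hZ.1) hZ.2
    · refine Filter.Eventually.of_forall fun t hZ => hy ⟨t, ?_⟩
      have h4 : y + (LinearMap.toSpanSingleton ℂ (Fin n → ℂ) v) t = y + t • v := by
        rw [LinearMap.toSpanSingleton_apply]
      rw [h4] at hZ
      exact hZ
  have h5 := mem_ae_iff.1 key
  have h6 : {y : Fin n → ℂ | y ∈ {u : Fin n → ℂ | u ∈ Metric.ball (0 : Fin n → ℂ) (min δ0 (r / 2)) ∧ h u = 0}ᶜ}ᶜ =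
      {u : Fin n → ℂ | u ∈ Metric.ball (0 : Fin n → ℂ) (min δ0 (r / 2)) ∧ h u = 0} :=
    compl_compl _
  rw [h6] at h5
  exact h5

end Pool.Agent.H13.SM

end
end

section

/-!
# The nodal case
-/

open Topology Filter

noncomputable section

namespace Pool.Agent.H17BP

attribute [-instance] ProperSMul.toContinuousSMul

variable {V : Type} [NormedAddCommGroup V] [NormedSpace ℂ V]

/-- the family of equations as one function -/
def Nodal_Q {κ : Type} [Fintype κ] (Q : κ → V → ℂ) (x : V) : EuclideanSpace ℂ κ := WithLp.toLp 2 fun i => Q i x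

end Pool.Agent.H17BP

end
end

section

/-!
# K-semistability of Fano varieties over the complex numbers: definitions

Smooth projective varieties with ample anticanonical divisor, pluri-anticanonical sections,
prime divisors over a variety, log discrepancies, the invariant `S`, and the valuative criterion
of Fujita and Li.
-/

open AlgebraicGeometry CategoryTheory MeasureTheory Filter
open scoped ENNReal

noncomputable section

namespace Pool.Agent.H23

attribute [-instance] ProperSMul.toContinuousSMul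

/-! ## Birational algebra in a function field -/

section FunctionField

variable (K : Type) [Field K] [Algebra ℂ K] (n : ℕ)

/-- Rational `n`-forms of the function field `K` over `ℂ`: the `K`-vector space `⋀ⁿ Ω_{K/ℂ}`. -/
abbrev RatForm : Type := ⋀[K]^n Ω[K⁄ℂ]

variable {K}

/-- The regular `n`-forms of a `ℂ`-subalgebra `A` of `K`, that is the image of
`⋀ⁿ Ω_{A/ℂ}` in `⋀ⁿ Ω_{K/ℂ}`: all finite sums of forms `c da₁ ∧ ⋯ ∧ daₙ` with
`c, a₁, …, aₙ ∈ A`. -/
def regularForms (A : Subalgebra ℂ K) : AddSubgroup (RatForm K n) :=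
  AddSubgroup.closure {ω | ∃ (c : K) (a : Fin n → K), c ∈ A ∧ (∀ i, a i ∈ A) ∧
    ω = c • exteriorPower.ιMulti K n (fun i => KaehlerDifferential.D ℂ K (a i))}

variable {ι : Type} (O : ι → Subalgebra ℂ K)

/-- Let `O x`, `x : ι`, be the local rings of a smooth variety `X` of dimension `n` with function
field `K`. A rational section of `-m K_X` is a function `φ` on rational `n`-forms with
`φ (g • ω) = g ^ m * φ ω`; it is regular at `x` if it takes the regular `n`-forms at `x` to
`O x`. This is the space `H⁰(X, -m K_X)` of everywhere regular sections. -/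
def antiSections (m : ℕ) : Submodule ℂ (RatForm K n → K) where
  carrier := {φ | (∀ (g : K) (ω : RatForm K n), φ (g • ω) = g ^ m * φ ω) ∧
    ∀ x, ∀ ω ∈ regularForms n (O x), φ ω ∈ O x}
  add_mem' := by
    rintro φ ψ ⟨h1, h2⟩ ⟨h3, h4⟩
    refine ⟨fun g ω => ?_, fun x ω hω => ?_⟩
    · simp only [Pi.add_apply, h1, h3, mul_add]
    · exact (O x).add_mem (h2 x ω hω) (h4 x ω hω)
  zero_mem' := ⟨fun g ω => by simp, fun x ω _ => (O x).zero_mem⟩
  smul_mem' := by
    rintro c φ ⟨h1, h2⟩
    refine ⟨fun g ω => ?_, fun x ω hω => ?_⟩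
    · simp only [Pi.smul_apply, h1, mul_smul_comm]
    · exact (O x).smul_mem (h2 x ω hω) c

/-- The valuation ring of a valuation which is trivial on `ℂ`. -/
def valRing (v : AddValuation K (WithTop ℤ)) (hv : ∀ c : ℂ, 0 ≤ v (algebraMap ℂ K c)) :
    Subalgebra ℂ K where
  carrier := {f | 0 ≤ v f}
  mul_mem' := fun {a b} ha hb => by
    simp only [Set.mem_ofPred_eq, AddValuation.map_mul] at *
    exact add_nonneg ha hb
  add_mem' := fun {a b} ha hb => by
    simp only [Set.mem_ofPred_eq] at *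
    exact le_trans (le_min ha hb) (v.map_add a b)
  algebraMap_mem' := hv

variable (K) in
/-- A prime divisor over a variety of dimension `n` with function field `K`, given by its order
function: a discrete valuation of `K`, normalised to have value group `ℤ`, trivial on `ℂ`, whose
residue field has transcendence degree `n - 1` over `ℂ` (that is, there are `n - 1` elements of
the valuation ring whose residue classes are algebraically independent over `ℂ`). -/
structure PrimeDivisorOver where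
  /-- the order of vanishing along the divisor -/
  ord : AddValuation K (WithTop ℤ)
  ord_const : ∀ c : ℂ, 0 ≤ ord (algebraMap ℂ K c)
  exists_uniformizer : ∃ t : K, ord t = 1
  residue_trdeg : ∃ s : Fin (n - 1) → K, (∀ i, 0 ≤ ord (s i)) ∧
    ∀ p : MvPolynomial (Fin (n - 1)) ℂ, p ≠ 0 → ord (MvPolynomial.aeval s p) = 0

variable {n}

variable (n)

end FunctionField

/-! ## Varieties -/

section Scheme

variable {X : Scheme.{0}} (s : X ⟶ Spec (.of ℂ)) [IsIntegral X]

/-- The function field of a complex variety is a `ℂ`-algebra. -/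
@[reducible]
def functionFieldAlgebra : Algebra ℂ X.functionField :=
  RingHom.toAlgebra ((Scheme.ΓSpecIso (.of ℂ)).inv ≫ s.appTop ≫
    X.presheaf.germ ⊤ (genericPoint X) (TopologicalSpace.Opens.mem_top _)).hom

/-- The local ring of a complex variety at a point, as a subalgebra of the function field. -/
def localRingAt (x : X) :
    letI := functionFieldAlgebra s
    Subalgebra ℂ X.functionField :=
  letI := functionFieldAlgebra s
  { (algebraMap (X.presheaf.stalk x) X.functionField).range with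
    algebraMap_mem' := fun c => by
      refine ⟨((Scheme.ΓSpecIso (.of ℂ)).inv ≫ s.appTop ≫
        X.presheaf.germ ⊤ x (TopologicalSpace.Opens.mem_top _)).hom c, ?_⟩
      change (((Scheme.ΓSpecIso (.of ℂ)).inv ≫ s.appTop ≫
        X.presheaf.germ ⊤ x (TopologicalSpace.Opens.mem_top _)) ≫
          X.presheaf.stalkSpecializes ((genericPoint_spec X).specializes trivial)).hom c =
        ((Scheme.ΓSpecIso (.of ℂ)).inv ≫ s.appTop ≫
          X.presheaf.germ ⊤ (genericPoint X) (TopologicalSpace.Opens.mem_top _)).hom c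
      rw [Category.assoc, Category.assoc, X.presheaf.germ_stalkSpecializes] }

/-- `-K_X` is ample: every point of `X` has an open affine neighbourhood of the form
`X_φ = {y | φ generates the sheaf of sections of -m K_X at y}` with `m ≥ 1` and
`φ ∈ H⁰(X, -m K_X)`. -/
def AntiAmple (n : ℕ) : Prop :=
  letI := functionFieldAlgebra s
  ∀ x : X, ∃ m : ℕ, 1 ≤ m ∧ ∃ φ ∈ antiSections n (localRingAt s) m, ∃ U : X.Opens,
    IsAffineOpen U ∧ x ∈ U ∧ ∀ y : X, y ∈ U ↔
      ∃ ω ∈ regularForms n (localRingAt s y), φ ω ≠ 0 ∧ (φ ω)⁻¹ ∈ localRingAt s y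

end Scheme

/-- A Fano variety of dimension `n` over `ℂ`: a smooth projective variety of dimension `n` with
ample anticanonical divisor. -/
structure FanoVariety (n : ℕ) where
  /-- the underlying scheme -/
  X : Scheme.{0}
  /-- the structure morphism -/
  str : X ⟶ Spec (.of ℂ)
  [integral : IsIntegral X]
  proper : IsProper str
  smooth : SmoothOfRelativeDimension n str
  ample : AntiAmple str n


end Pool.Agent.H23

end
end

section

/-!
# BP OrdDefs: entire curves of order at most two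

The characteristic function of an entire curve `f` in `ℙ(V)` is `T_f(r) = inf (-log |F 0|)` over the holomorphic lifts `F` of `f` to the disc of radius `r` (zeros allowed) with
`|F| ≤ 1`.  `OrdTwo f`: `T_f(r) ≤ C (1 + r²)` for all `r > 0`.
-/

set_option autoImplicit false

namespace Pool.Agent.H36.BP

attribute [-instance] ProperSMul.toContinuousSMul

open Metric

/-- `f` is an entire curve in `ℙ(V)` of order at most two and of finite type: `T_f(r) ≤ C₀ (1 + r²)` -/
def OrdTwo {V : Type} [NormedAddCommGroup V] [NormedSpace ℂ V] (f : ℂ → V) : Prop :=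
  ∃ C₀ : ℝ, ∀ r : ℝ, 0 < r → ∃ F : ℂ → V, DifferentiableOn ℂ F (ball 0 r) ∧ (∀ z ∈ ball (0 : ℂ) r, ‖F z‖ ≤ 1) ∧
    Real.exp (-(C₀ * (1 + r ^ 2))) ≤ ‖F 0‖ ∧ ∀ z ∈ ball (0 : ℂ) r, F z = 0 ∨ ∃ c : ℂ, c ≠ 0 ∧ f z = c • F z

/-- every entire curve of order at most two in `K` which is not constant as a map into projective space lies in `B` -/
def BrodyMod2 {N : ℕ} (K B : Set (EN N)) : Prop :=
  ∀ F : ℂ → EN N, Differentiable ℂ F → (∀ z, F z ∈ K) → (∃ z w, ∀ c : ℂ, F z ≠ c • F w) → OrdTwo F → ∀ z, F z ∈ B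

theorem OrdTwo.congr {V : Type} [NormedAddCommGroup V] [NormedSpace ℂ V] {f g : ℂ → V} (h : OrdTwo f) (hfg : ∀ z, ∃ c : ℂ, c ≠ 0 ∧ g z = c • f z) :
    OrdTwo g := by
  obtain ⟨C₀, h⟩ := h
  refine ⟨C₀, fun r hr => ?_⟩
  obtain ⟨F, h1, h2, h3, h4⟩ := h r hr
  refine ⟨F, h1, h2, h3, fun z hz => ?_⟩
  rcases h4 z hz with h5 | ⟨c, hc, h5⟩
  · exact Or.inl h5
  · obtain ⟨c', hc', h6⟩ := hfg z
    exact Or.inr ⟨c' * c, mul_ne_zero hc' hc, by rw [h6, h5, smul_smul]⟩

/-- the image under a linear map which does not decrease the norm of the normalised lifts at `0` too much -/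
theorem OrdTwo.map {V W : Type} [NormedAddCommGroup V] [NormedSpace ℂ V] [NormedAddCommGroup W] [NormedSpace ℂ W] (L : V →L[ℂ] W) {f : ℂ → V} (h : OrdTwo f)
    {c : ℝ} (hc : 0 < c) (hL : ∀ x, c * ‖x‖ ≤ ‖L x‖) : OrdTwo fun z => L (f z) := by
  obtain ⟨C₀, h⟩ := h
  set M : ℝ := max ‖L‖ 1 with hM
  have hM1 : 1 ≤ M := le_max_right _ _
  have hM0 : 0 < M := lt_of_lt_of_le one_pos hM1
  refine ⟨max C₀ 0 + |Real.log (c / M)|, fun r hr => ?_⟩
  obtain ⟨F, h1, h2, h3, h4⟩ := h r hr
  have hMc : (M : ℂ) ≠ 0 := by exact_mod_cast hM0.ne'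
  refine ⟨fun z => (M : ℂ)⁻¹ • L (F z), ?_, ?_, ?_, ?_⟩
  · exact (L.differentiable.comp_differentiableOn h1).const_smul _
  · intro z hz
    rw [norm_smul, norm_inv, Complex.norm_real, Real.norm_of_nonneg hM0.le, inv_mul_le_iff₀ hM0, mul_one]
    calc ‖L (F z)‖ ≤ ‖L‖ * ‖F z‖ := L.le_opNorm _
      _ ≤ M * 1 := mul_le_mul (le_max_left _ _) (h2 z hz) (norm_nonneg _) hM0.le
      _ = M := mul_one _
  · rw [norm_smul, norm_inv, Complex.norm_real, Real.norm_of_nonneg hM0.le]
    have hcM : 0 < c / M := div_pos hc hM0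
    have h5 : Real.exp (-((max C₀ 0 + |Real.log (c / M)|) * (1 + r ^ 2))) ≤ (c / M) * Real.exp (-(C₀ * (1 + r ^ 2))) := by
      conv_rhs => rw [← Real.exp_log hcM, ← Real.exp_add]
      apply Real.exp_le_exp.mpr
      have h6 : C₀ * (1 + r ^ 2) ≤ max C₀ 0 * (1 + r ^ 2) := mul_le_mul_of_nonneg_right (le_max_left _ _) (by positivity)
      have h7 : |Real.log (c / M)| * 1 ≤ |Real.log (c / M)| * (1 + r ^ 2) := mul_le_mul_of_nonneg_left (by nlinarith [sq_nonneg r]) (abs_nonneg _)
      have h8 := neg_abs_le (Real.log (c / M))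
      nlinarith
    refine h5.trans ?_
    calc c / M * Real.exp (-(C₀ * (1 + r ^ 2))) ≤ c / M * ‖F 0‖ := mul_le_mul_of_nonneg_left h3 hcM.le
      _ = M⁻¹ * (c * ‖F 0‖) := by rw [div_eq_inv_mul]; ring
      _ ≤ M⁻¹ * ‖L (F 0)‖ := mul_le_mul_of_nonneg_left (hL _) (inv_nonneg.mpr hM0.le)
  · intro z hz
    rcases h4 z hz with h5 | ⟨k, hk, h5⟩
    · left
      simp only
      rw [h5, map_zero, smul_zero]
    · right
      refine ⟨k * M, mul_ne_zero hk hMc, ?_⟩
      simp only
      rw [h5, map_smul, smul_smul, mul_assoc, mul_inv_cancel₀ hMc, mul_one]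

/-- linear isomorphisms preserve the order -/
theorem OrdTwo.equiv {V W : Type} [NormedAddCommGroup V] [NormedSpace ℂ V] [NormedAddCommGroup W] [NormedSpace ℂ W] (L : V ≃L[ℂ] W) {f : ℂ → V} (h : OrdTwo f) :
    OrdTwo fun z => L (f z) := by
  set M : ℝ := max ‖(L.symm : W →L[ℂ] V)‖ 1 with hM
  have hM0 : 0 < M := lt_of_lt_of_le one_pos (le_max_right _ _)
  refine h.map (L : V →L[ℂ] W) (c := M⁻¹) (inv_pos.mpr hM0) fun x => ?_
  rw [inv_mul_le_iff₀ hM0]
  have h1 := (L.symm : W →L[ℂ] V).le_opNorm (L x)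
  have h2 : (L.symm : W →L[ℂ] V) (L x) = x := L.symm_apply_apply x
  rw [h2] at h1
  exact h1.trans (mul_le_mul_of_nonneg_right (le_max_left _ _) (norm_nonneg _))

end Pool.Agent.H36.BP

end

section

/-!
# BPL Start: from the extension theorem for models to complements of hypersurface sections

`P` is the ideal of a smooth closed surface in `ℙ^N`, `H m` are forms (`b` of them, `b = 0` is the closed case) and
`coneK P H` is the cone over the complement of the hypersurfaces `H m = 0`.
-/

set_option autoImplicit false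

open Topology Filter MvPolynomial

noncomputable section

namespace Pool.Agent.H36.BPL

attribute [-instance] ProperSMul.toContinuousSMul

variable {N : ℕ} {P : Ideal (MvPolynomial (Fin (N + 1)) ℂ)} {b : ℕ} {H : Fin b → MvPolynomial (Fin (N + 1)) ℂ}

theorem analyticAt_form (Q : MvPolynomial (Fin (N + 1)) ℂ) (x : Fin (N + 1) → ℂ) :
    AnalyticAt ℂ (fun y : Fin (N + 1) → ℂ => eval y Q) x := by
  have h : ∀ i : Fin (N + 1), AnalyticAt ℂ (fun y : Fin (N + 1) → ℂ => y i) x := fun i =>
    (ContinuousLinearMap.proj (R := ℂ) (φ := fun _ : Fin (N + 1) => ℂ) i).analyticAt x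
  have := AnalyticAt.aeval_mvPolynomial (𝕜 := ℂ) h Q
  simpa [MvPolynomial.aeval_eq_eval] using this

end Pool.Agent.H36.BPL

end
end

section

/-!
# Homogenisation
-/

open MvPolynomial

noncomputable section

namespace Pool.Agent.H92.GT

attribute [-instance] ProperSMul.toContinuousSMul

variable {r : ℕ}

/-- The homogenised polynomial. -/
def hmg {B : Type} [CommRing B] [Algebra ℂ B] (p : MvPolynomial (Fin r) ℂ) (A : Fin (r + 1) → B) :
    B :=
  ∑ m ∈ p.support, algebraMap ℂ B (p.coeff m) *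
    (A 0 ^ (p.totalDegree - ∑ i, m i) * ∏ i : Fin r, A (Fin.succ i) ^ m i)

lemma map_hmg {B B' : Type} [CommRing B] [Algebra ℂ B] [CommRing B'] [Algebra ℂ B']
    (f : B →ₐ[ℂ] B') (p : MvPolynomial (Fin r) ℂ) (A : Fin (r + 1) → B) :
    f (hmg p A) = hmg p fun i => f (A i) := by
  unfold hmg
  rw [map_sum]
  refine Finset.sum_congr rfl fun m _ => ?_
  rw [map_mul, map_mul, map_pow, map_prod, AlgHom.commutes]
  congr 2
  exact Finset.prod_congr rfl fun i _ => map_pow _ _ _

lemma hmg_eq {K : Type} [Field K] [Algebra ℂ K] (p : MvPolynomial (Fin r) ℂ)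
    {A : Fin (r + 1) → K} (h : A 0 ≠ 0) :
    hmg p A = A 0 ^ p.totalDegree * aeval (fun i : Fin r => A (Fin.succ i) / A 0) p := by
  unfold hmg
  rw [aeval_def, eval₂_eq', Finset.mul_sum]
  refine Finset.sum_congr rfl fun m hm => ?_
  have h1 : ∑ i, m i ≤ p.totalDegree := by
    have h2 := le_totalDegree hm
    rwa [Finsupp.sum_fintype _ _ (fun _ => rfl)] at h2
  have h3 : A 0 ^ p.totalDegree = A 0 ^ (p.totalDegree - ∑ i, m i) * A 0 ^ (∑ i, m i) := by
    rw [← pow_add, Nat.sub_add_cancel h1]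
  have h4 : ∏ i : Fin r, (A (Fin.succ i) / A 0) ^ m i =
      (∏ i : Fin r, A (Fin.succ i) ^ m i) / A 0 ^ (∑ i, m i) := by
    rw [Finset.prod_congr rfl fun i _ => div_pow (A (Fin.succ i)) (A 0) (m i),
      Finset.prod_div_distrib, Finset.prod_pow_eq_pow_sum]
  rw [h3, h4]
  field_simp

lemma hmg_isWeightedHomogeneous {σ : Type} {w : σ → ℕ} {d : ℕ} (p : MvPolynomial (Fin r) ℂ)
    {A : Fin (r + 1) → MvPolynomial σ ℂ} (hA : ∀ i, IsWeightedHomogeneous w (A i) d) :
    IsWeightedHomogeneous w (hmg p A) (p.totalDegree * d) := by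
  unfold hmg
  refine IsWeightedHomogeneous.sum _ _ _ fun m hm => ?_
  have h1 : ∑ i, m i ≤ p.totalDegree := by
    have h2 := le_totalDegree hm
    rwa [Finsupp.sum_fintype _ _ (fun _ => rfl)] at h2
  have h2 := (isWeightedHomogeneous_C w (p.coeff m)).mul
    (((hA 0).pow (p.totalDegree - ∑ i, m i)).mul
      (IsWeightedHomogeneous.prod Finset.univ (fun i : Fin r => A (Fin.succ i) ^ m i)
        (fun i => m i * d) fun i _ => by
          have h3 := (hA (Fin.succ i)).pow (m i)
          rwa [smul_eq_mul] at h3))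
  have h3 : 0 + ((p.totalDegree - ∑ i, m i) • d + ∑ i : Fin r, m i * d) = p.totalDegree * d := by
    rw [zero_add, smul_eq_mul, ← Finset.sum_mul, ← add_mul, Nat.sub_add_cancel h1]
  rw [h3] at h2
  exact h2

end Pool.Agent.H92.GT

end
end
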