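import Mathlib

/-! The parts of this file: H13.SM.Inv, H17BP.RootP, H23.LogDer, H62.BP.MinMod, H92.GT.Index. -/

section

/-!
# The implicit function theorem for polynomials, with coordinates as parameters

PROOF.  The gradients `g j = fun i => eval w (pderiv i (f j))` are linearly independent in `ι → ℂ`,
`j : Fin c`.  Extend them by standard basis vectors to a basis: with `s = Set.range g`,
`t = s ∪ Set.range (fun i => Pi.single i 1)` take `s ⊆ B ⊆ t` linearly independent with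
`t ⊆ span B` (`exists_linearIndependent_extension`), so `B` is a basis of `ι → ℂ`, `|B| = c + n`, and
`B \ s` consists of `n` standard basis vectors `Pi.single (I k) 1`.
Let `Φ y = (fun j => eval y (f j), fun k => y (I k) - w (I k))`.  It is analytic, `Φ w = 0` and its
derivative at `w`, `v ↦ (∑ i, g j i * v i, v (I k))`, is injective: if it kills `v` then
`∑ i, u i * v i = 0` for all `u ∈ B`, hence for all `u`, so `v = 0`.  By dimension it is a linear
equivalence.  Let `Ψ` be the local inverse (`HasStrictFDerivAt.toOpenPartialHomeomorph`), analytic at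
`0` (`OpenPartialHomeomorph.hasFPowerSeriesAt_symm` / `analyticAt_symm`); `σ u = Ψ (0, u)`.
-/

open MvPolynomial Topology

noncomputable section

namespace Pool.Agent.H13.SM

attribute [-instance] ProperSMul.toContinuousSMul

/-- The derivative of the evaluation map of a polynomial. -/
theorem Inv_hasFDerivAt_eval {ι : Type} [Fintype ι] (p : MvPolynomial ι ℂ) (w : ι → ℂ) :
    HasFDerivAt (fun y : ι → ℂ => eval y p)
      (∑ i, eval w (pderiv i p) • (ContinuousLinearMap.proj i : (ι → ℂ) →L[ℂ] ℂ)) w := by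
  classical
  induction p using MvPolynomial.induction_on with
  | C a =>
    have h := hasFDerivAt_const (𝕜 := ℂ) a w
    have h2 : HasFDerivAt (fun y : ι → ℂ => eval y (C a : MvPolynomial ι ℂ)) (0 : (ι → ℂ) →L[ℂ] ℂ) w := by
      simpa using h
    refine h2.congr_fderiv ?_
    ext v
    simp
  | add p q hp hq =>
    have h := hp.add hq
    have h2 : (fun y : ι → ℂ => eval y (p + q)) = (fun y => eval y p) + fun y => eval y q := by
      funext y
      exact map_add _ _ _
    rw [h2]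
    refine h.congr_fderiv ?_
    ext v
    simp [Finset.sum_add_distrib, add_mul]
  | mul_X p n hp =>
    have h1 : HasFDerivAt (fun y : ι → ℂ => y n)
        (ContinuousLinearMap.proj n : (ι → ℂ) →L[ℂ] ℂ) w := hasFDerivAt_apply n w
    have h := hp.mul h1
    have h2 : (fun y : ι → ℂ => eval y (p * X n)) = (fun y => eval y p) * fun y => y n := by
      funext y
      simp only [map_mul, eval_X, Pi.mul_apply]
    rw [h2]
    refine h.congr_fderiv ?_
    ext v
    simp only [Derivation.leibniz, pderiv_X, smul_eq_mul, map_add, map_mul, eval_X,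
      FunLike.coe_add, FunLike.coe_smul, Pi.add_apply, Pi.smul_apply, ContinuousLinearMap.proj_apply,
      sum_apply, add_mul]
    rw [Finset.sum_add_distrib]
    congr 1
    · rw [Finset.sum_eq_single n]
      · simp
      · intro b _ hb
        simp [hb.symm]
      · intro h; exact absurd (Finset.mem_univ n) h
    · rw [Finset.mul_sum]
      exact Finset.sum_congr rfl fun i _ => by ring

/-- Completion of independent vectors by standard basis vectors. -/
theorem Inv_exists_coords {ι : Type} [Fintype ι] {c n : ℕ} (hcn : c + n = Fintype.card ι)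
    {g : Fin c → ι → ℂ} (hli : LinearIndependent ℂ g) :
    ∃ I : Fin n → ι, ∀ v : ι → ℂ, (∀ j, ∑ i, g j i * v i = 0) → (∀ k, v (I k) = 0) → v = 0 := by
  classical
  set S : Submodule ℂ (ι → ℂ) := Submodule.span ℂ (Set.range g) with hS
  have hfS : Module.finrank ℂ S = c := by
    rw [hS, finrank_span_eq_card hli, Fintype.card_fin]
  have hfW : Module.finrank ℂ ((ι → ℂ) ⧸ S) = n := by
    have h := Submodule.finrank_quotient_add_finrank S
    rw [hfS, Module.finrank_fintype_fun_eq_card] at h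
    omega
  let q : ι → (ι → ℂ) ⧸ S := fun i => S.mkQ (Pi.single i 1)
  have hspan : Submodule.span ℂ (Set.range q) = ⊤ := by
    have h1 : Set.range q = S.mkQ '' Set.range (fun i : ι => (Pi.single i (1 : ℂ) : ι → ℂ)) := by
      rw [← Set.range_comp]; rfl
    rw [h1, Submodule.span_image]
    have h2 : Submodule.span ℂ (Set.range (fun i : ι => (Pi.single i (1 : ℂ) : ι → ℂ))) = ⊤ := by
      have := (Pi.basisFun ℂ ι).span_eq
      convert this using 2
      ext i
      simp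
    rw [h2, Submodule.map_top, Submodule.range_mkQ]
  obtain ⟨κ, a, ha, hsp, hlin⟩ := exists_linearIndependent' ℂ q
  have hb := Module.Basis.mk hlin (by rw [hsp, hspan])
  have : Finite κ := Finite.of_injective a ha
  have : Fintype κ := Fintype.ofFinite κ
  have hcard : Fintype.card κ = n := by
    rw [← hfW, Module.finrank_eq_card_basis hb]
  let e : Fin n ≃ κ := (Fintype.equivFinOfCardEq hcard).symm
  refine ⟨fun k => a (e k), fun v hv1 hv2 => ?_⟩
  -- the functional
  let φ : (ι → ℂ) →ₗ[ℂ] ℂ := ∑ i, v i • (LinearMap.proj i : (ι → ℂ) →ₗ[ℂ] ℂ)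
  have hφ : ∀ u : ι → ℂ, φ u = ∑ i, v i * u i := by
    intro u
    simp [φ]
  have hφS : S ≤ LinearMap.ker φ := by
    rw [hS, Submodule.span_le]
    rintro _ ⟨j, rfl⟩
    rw [SetLike.mem_coe, LinearMap.mem_ker, hφ, ← hv1 j]
    exact Finset.sum_congr rfl fun i _ => mul_comm _ _
  let ψ : ((ι → ℂ) ⧸ S) →ₗ[ℂ] ℂ := S.liftQ φ hφS
  have hψ : ∀ u, ψ (S.mkQ u) = φ u := fun u => by simp [ψ]
  have hψ0 : ψ = 0 := by
    apply LinearMap.ext_on_range (v := q ∘ a)
    · rw [hsp, hspan]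
    · intro k
      obtain ⟨k', rfl⟩ := e.surjective k
      show ψ (S.mkQ (Pi.single (a (e k')) 1)) = 0
      rw [hψ, hφ, Finset.sum_eq_single (a (e k'))]
      · rw [hv2 k', zero_mul]
      · intro b _ hb
        rw [Pi.single_eq_of_ne hb, mul_zero]
      · intro h; exact absurd (Finset.mem_univ _) h
  ext i
  have h3 : φ (Pi.single i 1) = 0 := by rw [← hψ, hψ0]; rfl
  rw [hφ, Finset.sum_eq_single i] at h3
  · simpa using h3
  · intro b _ hb
    rw [Pi.single_eq_of_ne hb, mul_zero]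
  · intro h; exact absurd (Finset.mem_univ _) h

theorem exists_implicit {ι : Type} [Fintype ι] {c n : ℕ} (hcn : c + n = Fintype.card ι)
    {f : Fin c → MvPolynomial ι ℂ} {w : ι → ℂ} (hf : ∀ j, eval w (f j) = 0)
    (hli : LinearIndependent ℂ fun (j : Fin c) (i : ι) => eval w (pderiv i (f j))) :
    ∃ (I : Fin n → ι) (σ : (Fin n → ℂ) → ι → ℂ), AnalyticAt ℂ σ 0 ∧ σ 0 = w ∧
      (∀ᶠ u in 𝓝 0, (∀ j, eval (σ u) (f j) = 0) ∧ ∀ k, σ u (I k) = w (I k) + u k) ∧
      ∀ᶠ y in 𝓝 w, (∀ j, eval y (f j) = 0) → y = σ (fun k => y (I k) - w (I k)) := by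
  classical
  obtain ⟨I, hI⟩ := Inv_exists_coords hcn hli
  let Φ : (ι → ℂ) → (Fin c → ℂ) × (Fin n → ℂ) :=
    fun y => (fun j => eval y (f j), fun k => y (I k) - w (I k))
  have hΦan : AnalyticAt ℂ Φ w := by
    apply AnalyticAt.prod
    · rw [analyticAt_pi_iff]
      intro j
      exact AnalyticOnNhd.eval_mvPolynomial (f j) w (Set.mem_univ _)
    · rw [analyticAt_pi_iff]
      intro k
      exact ((ContinuousLinearMap.proj (I k) : (ι → ℂ) →L[ℂ] ℂ).analyticAt w).sub analyticAt_const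
  have hΦw : Φ w = 0 := by
    apply Prod.ext
    · funext j; exact hf j
    · funext k; exact sub_self _
  let L : (ι → ℂ) →L[ℂ] (Fin c → ℂ) × (Fin n → ℂ) :=
    (ContinuousLinearMap.pi fun j => ∑ i, eval w (pderiv i (f j)) •
      (ContinuousLinearMap.proj i : (ι → ℂ) →L[ℂ] ℂ)).prod
      (ContinuousLinearMap.pi fun k => (ContinuousLinearMap.proj (I k) : (ι → ℂ) →L[ℂ] ℂ))
  have hL : HasFDerivAt Φ L w := by
    apply HasFDerivAt.prodMk
    · rw [hasFDerivAt_pi]
      intro j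
      exact Inv_hasFDerivAt_eval (f j) w
    · rw [hasFDerivAt_pi]
      intro k
      exact (hasFDerivAt_apply (I k) w).sub_const _
  have hLinj : Function.Injective (L : (ι → ℂ) →ₗ[ℂ] (Fin c → ℂ) × (Fin n → ℂ)) := by
    rw [injective_iff_map_eq_zero]
    intro v hv
    apply hI v
    · intro j
      have h1 := congrFun (congrArg Prod.fst hv) j
      simpa [L] using h1
    · intro k
      have h1 := congrFun (congrArg Prod.snd hv) k
      simpa [L] using h1
  have hdim : Module.finrank ℂ (ι → ℂ) = Module.finrank ℂ ((Fin c → ℂ) × (Fin n → ℂ)) := by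
    rw [Module.finrank_prod, Module.finrank_fintype_fun_eq_card, Module.finrank_fintype_fun_eq_card,
      Module.finrank_fintype_fun_eq_card, Fintype.card_fin, Fintype.card_fin, hcn]
  let Le : (ι → ℂ) ≃ₗ[ℂ] (Fin c → ℂ) × (Fin n → ℂ) :=
    LinearEquiv.ofInjectiveOfFinrankEq (L : (ι → ℂ) →ₗ[ℂ] (Fin c → ℂ) × (Fin n → ℂ)) hLinj hdim
  let Lc : (ι → ℂ) ≃L[ℂ] (Fin c → ℂ) × (Fin n → ℂ) := Le.toContinuousLinearEquiv
  have hLc : (Lc : (ι → ℂ) →L[ℂ] (Fin c → ℂ) × (Fin n → ℂ)) = L := by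
    ext1 v; rfl
  have hL' : HasFDerivAt Φ (Lc : (ι → ℂ) →L[ℂ] (Fin c → ℂ) × (Fin n → ℂ)) w := by
    rw [hLc]; exact hL
  have hcd : ContDiffAt ℂ ⊤ Φ w := hΦan.contDiffAt
  have hs := hcd.hasStrictFDerivAt' hL' (by simp)
  let Ψ := hs.localInverse Φ Lc w
  have hΨan : AnalyticAt ℂ Ψ 0 := by
    have h1 : ContDiffAt ℂ ⊤ (hcd.localInverse hL' (by simp)) (Φ w) := hcd.to_localInverse hL' (by simp)
    rw [hΦw] at h1
    have h2 := contDiffWithinAt_omega_iff_analyticWithinAt.1 (contDiffWithinAt_univ.2 h1)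
    exact analyticWithinAt_univ.1 h2
  have hright : ∀ᶠ y in 𝓝 (0 : (Fin c → ℂ) × (Fin n → ℂ)), Φ (Ψ y) = y := by
    have := hs.eventually_right_inverse
    rwa [hΦw] at this
  have hleft : ∀ᶠ y in 𝓝 w, Ψ (Φ y) = y := hs.eventually_left_inverse
  have hΨ0 : Ψ 0 = w := by
    have := hleft.self_of_nhds
    rwa [hΦw] at this
  have hemb : AnalyticAt ℂ (fun u : Fin n → ℂ => ((0 : Fin c → ℂ), u)) 0 :=
    analyticAt_const.prod analyticAt_id
  have hcont : Filter.Tendsto (fun u : Fin n → ℂ => ((0 : Fin c → ℂ), u)) (𝓝 0) (𝓝 0) := by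
    have := hemb.continuousAt
    exact this
  refine ⟨I, fun u => Ψ (0, u), ?_, hΨ0, ?_, ?_⟩
  · exact AnalyticAt.comp (g := Ψ) (f := fun u : Fin n → ℂ => ((0 : Fin c → ℂ), u)) hΨan hemb
  · filter_upwards [hcont.eventually hright] with u hu
    constructor
    · intro j
      exact congrFun (congrArg Prod.fst hu) j
    · intro k
      have := congrFun (congrArg Prod.snd hu) k
      have h' : Ψ (0, u) (I k) - w (I k) = u k := this
      rw [← h']; ring
  · filter_upwards [hleft] with y hy hy0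
    rw [← hy]
    congr 1
    show Φ y = (0, fun k => Ψ (Φ y) (I k) - w (I k))
    rw [hy]
    apply Prod.ext
    · funext j; exact hy0 j
    · rfl

end Pool.Agent.H13.SM

end
end

section

/-!
# Polynomials without the second coefficient

`P = ∑_{j < k} γ_j X^j + U₀ X^(k+1)`, `U₀ ≠ 0`: no term `X^k`.
`order_root`: if `w ↦ P(c₀ + w)` had order `≥ k + 1` at `0`, all derivatives of `P` of order `≤ k` would vanish at
`c₀`, so `P = U₀ (X - c₀)^(k+1)` (degree `k+1`); its coefficient of `X^k` is `- (k+1) U₀ c₀ = 0`, so `c₀ = 0` and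
`P = U₀ X^(k+1)`, `γ = 0`, a contradiction.  (Use `Polynomial.taylor c₀ P`: `P(c₀ + w) = ∑ (taylor c₀ P).coeff i w^i`,
order `≥ k+1` gives `(taylor c₀ P).coeff i = 0` for `i ≤ k`.)
-/

open Topology Filter

noncomputable section

namespace Pool.Agent.H17BP

attribute [-instance] ProperSMul.toContinuousSMul

open Polynomial in
private def RootP_poly (k : ℕ) (γ : ℕ → ℂ) (U₀ : ℂ) : ℂ[X] :=
  ∑ j ∈ Finset.range k, C (γ j) * X ^ j + C U₀ * X ^ (k + 1)

private theorem RootP_eval (k : ℕ) (γ : ℕ → ℂ) (U₀ x : ℂ) :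
    (RootP_poly k γ U₀).eval x = ∑ j ∈ Finset.range k, γ j * x ^ j + U₀ * x ^ (k + 1) := by
  simp [RootP_poly, Polynomial.eval_finsetSum]

private theorem RootP_coeff_lt {k : ℕ} (γ : ℕ → ℂ) (U₀ : ℂ) {j : ℕ} (hj : j < k) :
    (RootP_poly k γ U₀).coeff j = γ j := by
  simp only [RootP_poly, Polynomial.coeff_add, Polynomial.finsetSum_coeff, Polynomial.coeff_C_mul, Polynomial.coeff_X_pow]
  rw [Finset.sum_eq_single j]
  · have : j ≠ k + 1 := by omega
    simp [this]
  · intro b _ hb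
    simp [hb.symm]
  · intro h
    exact absurd (Finset.mem_range.2 hj) h

private theorem RootP_coeff_ge {k : ℕ} (γ : ℕ → ℂ) (U₀ : ℂ) {j : ℕ} (hj : k ≤ j) :
    (RootP_poly k γ U₀).coeff j = if j = k + 1 then U₀ else 0 := by
  simp only [RootP_poly, Polynomial.coeff_add, Polynomial.finsetSum_coeff, Polynomial.coeff_C_mul, Polynomial.coeff_X_pow]
  rw [Finset.sum_eq_zero]
  · simp
  · intro b hb
    have : j ≠ b := by
      have := Finset.mem_range.1 hb
      omega
    simp [this]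

private theorem RootP_ne {k : ℕ} {γ : ℕ → ℂ} {U₀ : ℂ} (hU : U₀ ≠ 0) : RootP_poly k γ U₀ ≠ 0 := by
  intro h
  have h1 := RootP_coeff_ge γ U₀ (j := k + 1) (k := k) (by omega)
  rw [h] at h1
  simp at h1
  exact hU h1.symm

private theorem RootP_natDegree (k : ℕ) (γ : ℕ → ℂ) (U₀ : ℂ) : (RootP_poly k γ U₀).natDegree ≤ k + 1 := by
  rw [Polynomial.natDegree_le_iff_coeff_eq_zero]
  intro j hj
  rw [RootP_coeff_ge γ U₀ (by omega)]
  have : j ≠ k + 1 := by omega
  simp [this]

private theorem RootP_cXC (r : ℂ) (n k : ℕ) :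
    ((Polynomial.X - Polynomial.C r : Polynomial ℂ) ^ n).coeff k = (-r) ^ (n - k) * (n.choose k : ℂ) := by
  rw [sub_eq_add_neg, ← Polynomial.C_neg, Polynomial.coeff_X_add_C_pow]

private theorem RootP_mult {k : ℕ} {γ : ℕ → ℂ} {U₀ : ℂ} (hU : U₀ ≠ 0) (hγ : ∃ j < k, γ j ≠ 0) (c₀ : ℂ) :
    (RootP_poly k γ U₀).rootMultiplicity c₀ ≤ k := by
  by_contra hlt
  push Not at hlt
  have h1 : (Polynomial.X - Polynomial.C c₀) ^ (k + 1) ∣ RootP_poly k γ U₀ :=
    (Polynomial.le_rootMultiplicity_iff (RootP_ne hU)).1 hlt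
  obtain ⟨R, hR⟩ := h1
  have hm : ((Polynomial.X - Polynomial.C c₀ : Polynomial ℂ) ^ (k + 1)).Monic := (Polynomial.monic_X_sub_C c₀).pow _
  have hR0 : R ≠ 0 := by
    rintro rfl
    rw [mul_zero] at hR
    exact RootP_ne hU hR
  have hd : (RootP_poly k γ U₀).natDegree = (k + 1) + R.natDegree := by
    rw [hR, hm.natDegree_mul' hR0, Polynomial.natDegree_pow, Polynomial.natDegree_X_sub_C, mul_one]
  have hd' := RootP_natDegree k γ U₀
  have hRd : R.natDegree = 0 := by omega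
  have hRC : R = Polynomial.C (R.coeff 0) := Polynomial.eq_C_of_natDegree_eq_zero hRd
  have hr0 : R.coeff 0 ≠ 0 := by
    intro h
    rw [h, Polynomial.C_0] at hRC
    exact hR0 hRC
  rw [hRC] at hR
  have hk := RootP_coeff_ge γ U₀ (le_refl k)
  have hkk : k ≠ k + 1 := by omega
  rw [hR, Polynomial.coeff_mul_C, RootP_cXC, if_neg hkk] at hk
  have hc : c₀ = 0 := by
    have e1 : k + 1 - k = 1 := by omega
    rw [e1, pow_one, Nat.choose_succ_self_right] at hk
    have h5 : ((k + 1 : ℕ) : ℂ) ≠ 0 := by exact_mod_cast Nat.succ_ne_zero k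
    have h6 : -c₀ * ((k + 1 : ℕ) : ℂ) = 0 := by
      rcases mul_eq_zero.1 hk with h | h
      · exact h
      · exact absurd h hr0
    rcases mul_eq_zero.1 h6 with h | h
    · exact neg_eq_zero.1 h
    · exact absurd h h5
  obtain ⟨j, hj, hγj⟩ := hγ
  have h7 := RootP_coeff_lt γ U₀ hj
  rw [hR, Polynomial.coeff_mul_C, hc, Polynomial.C_0, sub_zero, Polynomial.coeff_X_pow] at h7
  have hjk : j ≠ k + 1 := by omega
  rw [if_neg hjk, zero_mul] at h7
  exact hγj h7.symm

theorem order_root {k : ℕ} {γ : ℕ → ℂ} {U₀ : ℂ} (hU : U₀ ≠ 0) (hγ : ∃ j < k, γ j ≠ 0) (c₀ : ℂ) :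
    analyticOrderAt (fun w : ℂ => ∑ j ∈ Finset.range k, γ j * (c₀ + w) ^ j + U₀ * (c₀ + w) ^ (k + 1)) 0 ≤
      (k : ℕ∞) := by
  set P := RootP_poly k γ U₀ with hP
  obtain ⟨R, hR1, hR2⟩ := Polynomial.exists_eq_pow_rootMultiplicity_mul_and_not_dvd P (RootP_ne hU) c₀
  have hR0 : R.eval c₀ ≠ 0 := by
    intro h
    exact hR2 (Polynomial.dvd_iff_isRoot.2 h)
  have hf : (fun w : ℂ => ∑ j ∈ Finset.range k, γ j * (c₀ + w) ^ j + U₀ * (c₀ + w) ^ (k + 1)) =
      fun w : ℂ => P.eval (c₀ + w) := by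
    funext w
    rw [hP, RootP_eval]
  rw [hf]
  have han : AnalyticAt ℂ (fun w : ℂ => P.eval (c₀ + w)) 0 := by
    have h1 : Differentiable ℂ (fun w : ℂ => P.eval (c₀ + w)) := by
      intro w
      exact (P.differentiable (c₀ + w)).comp w ((differentiableAt_const c₀).add differentiableAt_id)
    exact h1.analyticAt 0
  have hRan : AnalyticAt ℂ (fun w : ℂ => R.eval (c₀ + w)) 0 := by
    have h1 : Differentiable ℂ (fun w : ℂ => R.eval (c₀ + w)) := by
      intro w
      exact (R.differentiable (c₀ + w)).comp w ((differentiableAt_const c₀).add differentiableAt_id)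
    exact h1.analyticAt 0
  have hord : analyticOrderAt (fun w : ℂ => P.eval (c₀ + w)) 0 = (P.rootMultiplicity c₀ : ℕ) := by
    rw [han.analyticOrderAt_eq_natCast]
    refine ⟨fun w => R.eval (c₀ + w), hRan, ?_, ?_⟩
    · simpa using hR0
    · refine Eventually.of_forall fun w => ?_
      show P.eval (c₀ + w) = (w - 0) ^ P.rootMultiplicity c₀ • R.eval (c₀ + w)
      conv_lhs => rw [hR1]
      simp
  rw [hord]
  exact_mod_cast RootP_mult hU hγ c₀

theorem finite_roots {k : ℕ} {γ : ℕ → ℂ} {U₀ : ℂ} (hU : U₀ ≠ 0) :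
    {c₀ : ℂ | ∑ j ∈ Finset.range k, γ j * c₀ ^ j + U₀ * c₀ ^ (k + 1) = 0}.Finite := by
  refine (Polynomial.finite_setOfPred_isRoot (RootP_ne (k := k) (γ := γ) hU)).subset ?_
  intro c₀ hc
  show (RootP_poly k γ U₀).eval c₀ = 0
  rw [RootP_eval]
  exact hc

end Pool.Agent.H17BP

end
end

section

open Polynomial

set_option linter.style.haveILetI false

noncomputable section

namespace Pool.Agent.H23

attribute [-instance] ProperSMul.toContinuousSMul

variable {K : Type*} [Field K] [Algebra ℂ K] (v : AddValuation K (WithTop ℤ))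

/-! ### elementary facts on discrete valuations -/

omit [Algebra ℂ K] in
lemma exists_int {f : K} (h : f ≠ 0) : ∃ k : ℤ, v f = k := by
  have := (v.ne_top_iff).2 h
  exact ⟨(v f).untop this, by simp⟩

lemma one_le_of_pos {a : WithTop ℤ} (h : 0 < a) : 1 ≤ a := by
  induction a using WithTop.recTopCoe with
  | top => exact le_top
  | coe a =>
    have : (0 : ℤ) < a := by exact_mod_cast h
    exact_mod_cast this

section poly

variable {σ : Type*} (s : σ → K) (t : K)

/-- evaluation `ℂ[s][t] → K` -/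
def ev : (MvPolynomial σ ℂ)[X] →+* K :=
  Polynomial.eval₂RingHom (MvPolynomial.aeval s).toRingHom t

lemma ev_C (p : MvPolynomial σ ℂ) : ev s t (C p) = MvPolynomial.aeval s p := by
  simp [ev]

lemma ev_X : ev s t X = t := by simp [ev]

lemma ev_decomp (q : (MvPolynomial σ ℂ)[X]) :
    ev s t q = ev s t q.divX * t + MvPolynomial.aeval s (q.coeff 0) := by
  conv_lhs => rw [← Polynomial.divX_mul_X_add q]
  rw [map_add, map_mul, ev_X, ev_C]

variable {s t} (hs : ∀ p : MvPolynomial σ ℂ, p ≠ 0 → v (MvPolynomial.aeval s p) = 0)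
  (ht : v t = 1)

include hs in
lemma val_aeval_nonneg (p : MvPolynomial σ ℂ) : 0 ≤ v (MvPolynomial.aeval s p) := by
  by_cases h : p = 0
  · simp [h]
  · rw [hs p h]

include hs ht in
lemma val_ev_nonneg (q : (MvPolynomial σ ℂ)[X]) : 0 ≤ v (ev s t q) := by
  induction q using Polynomial.induction_on' with
  | add p q hp hq =>
    rw [map_add]
    exact v.map_le_add hp hq
  | monomial n a =>
    rw [← Polynomial.C_mul_X_pow_eq_monomial, map_mul, map_pow, ev_X, ev_C, v.map_mul, v.map_pow, ht]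
    have := val_aeval_nonneg v hs a
    exact add_nonneg this (by simp)

include hs ht in
lemma val_ev_sub (q : (MvPolynomial σ ℂ)[X]) :
    1 ≤ v (ev s t q - MvPolynomial.aeval s (q.coeff 0)) := by
  rw [ev_decomp, add_sub_cancel_right, v.map_mul, ht]
  exact le_add_of_nonneg_left (val_ev_nonneg v hs ht _)

include hs ht in
lemma val_ev_eq_zero {q : (MvPolynomial σ ℂ)[X]} (hq : q.coeff 0 ≠ 0) : v (ev s t q) = 0 := by
  have h1 := val_ev_sub v hs ht q
  have h2 : ev s t q = MvPolynomial.aeval s (q.coeff 0) +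
    (ev s t q - MvPolynomial.aeval s (q.coeff 0)) := by ring
  rw [h2, v.map_add_eq_of_lt_left, hs _ hq]
  rw [hs _ hq]
  exact lt_of_lt_of_le (by norm_num) h1

include hs ht in
lemma ev_injective : Function.Injective (ev s t) := by
  rw [injective_iff_map_eq_zero]
  intro q hq
  by_contra hne
  obtain ⟨n, q', h1, h2⟩ := WfDvdMonoid.max_power_factor hne (Polynomial.prime_X (R := MvPolynomial σ ℂ)).irreducible
  have h3 : q'.coeff 0 ≠ 0 := fun h => h1 (Polynomial.X_dvd_iff.2 h)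
  have h4 := val_ev_eq_zero v hs ht h3
  have ht0 : t ≠ 0 := by
    rintro rfl
    simp at ht
  rw [h2, map_mul, map_pow, ev_X] at hq
  rcases mul_eq_zero.1 hq with h | h
  · exact pow_ne_zero n ht0 h
  · rw [h] at h4; simp at h4

end poly

/-! ### algebraic elements -/

section alg

variable {σ : Type*} {s : σ → K} {t : K}
  (hs : ∀ p : MvPolynomial σ ℂ, p ≠ 0 → v (MvPolynomial.aeval s p) = 0)
  (ht : v t = 1)

/-- an element which is algebraic over `ℂ[s,t]` satisfies an equation one of whose coefficients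
is a unit at `v` -/
lemma exists_primitive {f : K} {F : (MvPolynomial σ ℂ)[X][X]} (hF : F ≠ 0)
    (hFf : F.eval₂ (ev s t) f = 0) (ht0 : t ≠ 0) :
    ∃ G : (MvPolynomial σ ℂ)[X][X], G.eval₂ (ev s t) f = 0 ∧ ∃ i, (G.coeff i).coeff 0 ≠ 0 := by
  obtain ⟨n, G, h1, h2⟩ := WfDvdMonoid.max_power_factor hF
    (Polynomial.prime_C_iff.2 (Polynomial.prime_X (R := MvPolynomial σ ℂ))).irreducible
  refine ⟨G, ?_, ?_⟩
  · rw [h2, eval₂_mul, eval₂_pow, eval₂_C, ev_X] at hFf
    rcases mul_eq_zero.1 hFf with h | h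
    · exact absurd h (pow_ne_zero n ht0)
    · exact h
  · by_contra hcon
    push Not at hcon
    apply h1
    rw [Polynomial.C_dvd_iff_dvd_coeff]
    intro i
    exact Polynomial.X_dvd_iff.2 (hcon i)

include hs ht in
/-- reduction of the equation modulo `t` -/
lemma exists_red {f : K} (hf : 0 ≤ v f) {F : (MvPolynomial σ ℂ)[X][X]} (hF : F ≠ 0)
    (hFf : F.eval₂ (ev s t) f = 0) :
    ∃ G : (MvPolynomial σ ℂ)[X], G ≠ 0 ∧ 1 ≤ v (G.eval₂ (MvPolynomial.aeval s).toRingHom f) := by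
  have ht0 : t ≠ 0 := by
    rintro rfl
    simp at ht
  obtain ⟨G, hG1, i, hG2⟩ := exists_primitive hF hFf ht0
  refine ⟨G.map (Polynomial.constantCoeff), ?_, ?_⟩
  · intro h
    apply hG2
    have := congrArg (fun q => q.coeff i) h
    simpa using this
  · have h3 : (G.map (Polynomial.constantCoeff)).eval₂ (MvPolynomial.aeval s).toRingHom f =
        - ∑ e ∈ G.support, (ev s t (G.coeff e) - MvPolynomial.aeval s ((G.coeff e).coeff 0)) * f ^ e := by
      have h4 : G.eval₂ (ev s t) f = ∑ e ∈ G.support, (ev s t (G.coeff e)) * f ^ e := by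
        rw [eval₂_eq_sum, Polynomial.sum_def]
      rw [Polynomial.eval₂_map, eval₂_eq_sum, Polynomial.sum_def]
      simp only [sub_mul, Finset.sum_sub_distrib]
      rw [← h4, hG1]
      simp
    rw [h3, v.map_neg]
    apply v.map_le_sum
    intro e _
    rw [v.map_mul, v.map_pow]
    exact le_trans (val_ev_sub v hs ht _) (le_add_of_nonneg_right (nsmul_nonneg hf _))

lemma eval2_nonneg (hs : ∀ p : MvPolynomial σ ℂ, 0 ≤ v (MvPolynomial.aeval s p))
    {f : K} (hf : 0 ≤ v f) (G : (MvPolynomial σ ℂ)[X]) :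
    0 ≤ v (G.eval₂ (MvPolynomial.aeval s).toRingHom f) := by
  rw [eval₂_eq_sum, Polynomial.sum_def]
  apply v.map_le_sum
  intro e _
  rw [v.map_mul, v.map_pow]
  exact add_nonneg (hs _) (nsmul_nonneg hf _)

include hs ht in
/-- a separable equation modulo `t` -/
lemma exists_sep {f : K} (hf : 0 ≤ v f) {F : (MvPolynomial σ ℂ)[X][X]} (hF : F ≠ 0)
    (hFf : F.eval₂ (ev s t) f = 0) :
    ∃ G : (MvPolynomial σ ℂ)[X], 1 ≤ v (G.eval₂ (MvPolynomial.aeval s).toRingHom f) ∧
      v (G.derivative.eval₂ (MvPolynomial.aeval s).toRingHom f) = 0 := by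
  classical
  have hex := exists_red v hs ht hf hF hFf
  have hex' : ∃ d : ℕ, ∃ G : (MvPolynomial σ ℂ)[X], G.natDegree = d ∧ G ≠ 0 ∧
      1 ≤ v (G.eval₂ (MvPolynomial.aeval s).toRingHom f) := by
    obtain ⟨G, h⟩ := hex
    exact ⟨_, G, rfl, h⟩
  obtain ⟨G, h1, h2, h3⟩ := Nat.find_spec hex'
  refine ⟨G, h3, ?_⟩
  have hdeg : G.natDegree ≠ 0 := by
    intro h0
    rw [Polynomial.eq_C_of_natDegree_eq_zero h0] at h3 h2
    rw [eval₂_C] at h3
    have h4 : G.coeff 0 ≠ 0 := by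
      intro h; apply h2; rw [h]; simp
    have h5 := hs _ h4
    change 1 ≤ v (MvPolynomial.aeval s (G.coeff 0)) at h3
    rw [h5] at h3
    exact absurd h3 (by norm_num)
  have hder : G.derivative ≠ 0 := by
    intro h
    exact hdeg (Polynomial.derivative_eq_zero.1 h)
  have hlt : G.derivative.natDegree < G.natDegree := Polynomial.natDegree_derivative_lt hdeg
  have hmin := Nat.find_min hex' (m := G.derivative.natDegree) (by rw [← h1]; exact hlt)
  have h6 : ¬ (1 ≤ v (G.derivative.eval₂ (MvPolynomial.aeval s).toRingHom f)) := fun h =>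
    hmin ⟨_, rfl, hder, h⟩
  have h7 := eval2_nonneg v (val_aeval_nonneg v hs) hf G.derivative
  rcases h7.lt_or_eq with h | h
  · exact absurd (one_le_of_pos h) h6
  · exact h.symm

end alg

/-! ### elements of the valuation ring are fractions of integral elements -/

section horner

variable {R : Type*} [CommRing R] [Algebra R K]

omit [Algebra ℂ K] in
lemma horner_aux (hB : ∀ b ∈ integralClosure R K, 0 ≤ v b) {f : K} (hf : 0 ≤ v f) :
    ∀ (d : ℕ) (G : (integralClosure R K)[X]), G.natDegree ≤ d → aeval f G = 0 →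
      (∃ i, v (G.coeff i : K) = 0) →
      ∃ b ∈ integralClosure R K, ∃ c ∈ integralClosure R K, v c = 0 ∧ f * c = b := by
  intro d
  induction d with
  | zero =>
    intro G hd h0 hi
    obtain ⟨i, hi⟩ := hi
    rw [Polynomial.eq_C_of_natDegree_eq_zero (Nat.le_zero.1 hd)] at h0 hi
    rw [aeval_C] at h0
    rcases Nat.eq_zero_or_pos i with rfl | hpos
    · rw [Polynomial.coeff_C_zero] at hi
      change ((G.coeff 0 : K)) = 0 at h0
      rw [h0] at hi
      simp at hi
    · rw [Polynomial.coeff_C_of_ne_zero (by omega)] at hi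
      simp at hi
  | succ d ih =>
    intro G hd' h0 hi
    rcases hd'.lt_or_eq with hd' | hd
    · exact ih G (by omega) h0 hi
    have hint : IsIntegral R (f * (G.leadingCoeff : K)) := by
      have h1 := isIntegral_leadingCoeff_smul G f h0
      have h2 := isIntegral_trans (R := R) _ h1
      rwa [Algebra.smul_def, mul_comm] at h2
    by_cases hlc : v (G.leadingCoeff : K) = 0
    · exact ⟨_, hint, G.leadingCoeff, G.leadingCoeff.2, hlc, rfl⟩
    · have hlc' : 0 < v (G.leadingCoeff : K) :=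
        lt_of_le_of_ne (hB _ G.leadingCoeff.2) (Ne.symm hlc)
      set a : integralClosure R K := ⟨f * (G.leadingCoeff : K), hint⟩ with ha
      set G' : (integralClosure R K)[X] := G.eraseLead + C a * X ^ d with hG'
      have hdeg : G'.natDegree ≤ d := by
        rw [hG']
        refine (Polynomial.natDegree_add_le _ _).trans (max_le ?_ ?_)
        · exact (eraseLead_natDegree_le G).trans (by omega)
        · exact natDegree_C_mul_X_pow_le _ _
      have h0' : aeval f G' = 0 := by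
        have h1 : G = G.eraseLead + C G.leadingCoeff * X ^ (d + 1) := by
          rw [← hd, Polynomial.eraseLead_add_C_mul_X_pow]
        have h2 := h0
        rw [h1, map_add, map_mul, aeval_C, map_pow, aeval_X] at h2
        rw [hG', map_add, map_mul, aeval_C, map_pow, aeval_X]
        rw [← h2]
        congr 1
        change (f * (G.leadingCoeff : K)) * f ^ d = (G.leadingCoeff : K) * f ^ (d + 1)
        ring
      have hi' : ∃ i, v (G'.coeff i : K) = 0 := by
        obtain ⟨i, hi⟩ := hi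
        refine ⟨i, ?_⟩
        have hne : i ≠ G.natDegree := by
          rintro rfl
          exact hlc hi
        rw [hG', coeff_add, eraseLead_coeff_of_ne i hne, coeff_C_mul, coeff_X_pow]
        by_cases hid : i = d
        · subst hid
          simp only [if_true, mul_one]
          push_cast
          rw [ha, v.map_add_eq_of_lt_left]
          · exact hi
          · rw [hi, v.map_mul]
            exact lt_of_lt_of_le hlc' (le_add_of_nonneg_left hf)
        · simpa [hid] using hi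
      exact ih G' hdeg h0' hi'

omit [Algebra ℂ K] in
lemma val_nonneg_of_isIntegral (hR : ∀ r : R, 0 ≤ v (algebraMap R K r)) {b : K}
    (hb : IsIntegral R b) : 0 ≤ v b := by
  obtain ⟨p, hp, hpb⟩ := hb
  by_contra hcon
  push Not at hcon
  have hb0 : b ≠ 0 := by
    rintro rfl
    simp at hcon
  obtain ⟨k, hk⟩ := exists_int v hb0
  rw [hk] at hcon
  have hk0 : k < 0 := by exact_mod_cast hcon
  rw [Polynomial.eval₂_eq_sum_range, Finset.sum_range_succ, hp.coeff_natDegree, map_one, one_mul,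
    add_comm, add_eq_zero_iff_eq_neg] at hpb
  have hsm : ∀ i : ℕ, i • (k : WithTop ℤ) = ((i * k : ℤ) : WithTop ℤ) := by
    intro i
    rw [← WithTop.coe_nsmul, nsmul_eq_mul]
  have h1 : v (b ^ p.natDegree) = ((p.natDegree * k : ℤ) : WithTop ℤ) := by
    rw [v.map_pow, hk, hsm]
  have h2 : (((p.natDegree - 1) * k : ℤ) : WithTop ℤ) ≤ v (b ^ p.natDegree) := by
    rw [hpb, v.map_neg]
    apply v.map_le_sum
    intro i hi
    rw [v.map_mul, v.map_pow, hk]
    have h3 : (((p.natDegree - 1) * k : ℤ) : WithTop ℤ) ≤ i • (k : WithTop ℤ) := by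
      rw [hsm]
      have h5 : (i : ℤ) ≤ p.natDegree - 1 := by
        have := Finset.mem_range.1 hi
        omega
      exact WithTop.coe_le_coe.2 (by nlinarith)
    exact le_trans h3 (le_add_of_nonneg_left (hR _))
  rw [h1] at h2
  have h6 : ((p.natDegree - 1) * k : ℤ) ≤ p.natDegree * k := WithTop.coe_le_coe.1 h2
  nlinarith

end horner

/-! ### the main result -/

section main

variable {σ : Type*} {s : σ → K} {t : K}

lemma der_ev_nonneg
    (hs : ∀ p : MvPolynomial σ ℂ, p ≠ 0 → v (MvPolynomial.aeval s p) = 0)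
    (ht : v t = 1)
    (D : Derivation ℂ K K) (hDt : 0 ≤ v (D t)) (hDs : ∀ i, 0 ≤ v (D (s i)))
    (q : (MvPolynomial σ ℂ)[X]) : 0 ≤ v (D (ev s t q)) := by
  have h0 : ∀ p : MvPolynomial σ ℂ, 0 ≤ v (D (MvPolynomial.aeval s p)) := by
    intro p
    induction p using MvPolynomial.induction_on with
    | C a =>
      rw [MvPolynomial.aeval_C, D.map_algebraMap]
      simp
    | add p q hp hq =>
      rw [map_add, map_add]
      exact v.map_le_add hp hq
    | mul_X p i hp =>
      rw [map_mul, MvPolynomial.aeval_X, D.leibniz, smul_eq_mul, smul_eq_mul]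
      apply v.map_le_add
      · rw [v.map_mul]
        exact add_nonneg (val_aeval_nonneg v hs _) (hDs i)
      · rw [v.map_mul]
        have : 0 ≤ v (s i) := by
          have := val_aeval_nonneg v hs (MvPolynomial.X i)
          rwa [MvPolynomial.aeval_X] at this
        exact add_nonneg this hp
  induction q using Polynomial.induction_on' with
  | add p q hp hq =>
    rw [map_add, map_add]
    exact v.map_le_add hp hq
  | monomial n a =>
    have hDtn : 0 ≤ v (D (t ^ n)) := by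
      rw [D.leibniz_pow, nsmul_eq_mul, smul_eq_mul, v.map_mul, v.map_mul, v.map_pow, ht]
      have h1 : 0 ≤ v ((n : K)) := by
        have := val_aeval_nonneg v hs (n : MvPolynomial σ ℂ)
        simpa using this
      exact add_nonneg h1 (add_nonneg (by simp) hDt)
    rw [← Polynomial.C_mul_X_pow_eq_monomial, map_mul, map_pow, ev_X, ev_C, D.leibniz,
      smul_eq_mul, smul_eq_mul]
    apply v.map_le_add
    · rw [v.map_mul]
      exact add_nonneg (val_aeval_nonneg v hs _) hDtn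
    · rw [v.map_mul, v.map_pow, ht]
      exact add_nonneg (by simp) (h0 _)

/-- The loss of a derivation on the valuation ring is bounded. -/
lemma exists_bound [Algebra.EssFiniteType ℂ K]
    (hs : ∀ p : MvPolynomial σ ℂ, p ≠ 0 → v (MvPolynomial.aeval s p) = 0)
    (ht : v t = 1)
    [Finite σ]
    (halg : ∀ f : K, ∃ F : (MvPolynomial σ ℂ)[X][X], F ≠ 0 ∧ F.eval₂ (ev s t) f = 0)
    (D : Derivation ℂ K K) (hDt : 0 ≤ v (D t)) (hDs : ∀ i, 0 ≤ v (D (s i))) :
    ∃ ℓ : ℕ, ∀ f, 0 ≤ v f → ((-(ℓ : ℤ) : ℤ) : WithTop ℤ) ≤ v (D f) := by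
  classical
  letI alg1 : Algebra (MvPolynomial σ ℂ)[X] K := (ev s t).toAlgebra
  have hmap : ∀ r, algebraMap (MvPolynomial σ ℂ)[X] K r = ev s t r := fun _ => rfl
  haveI : FaithfulSMul (MvPolynomial σ ℂ)[X] K := by
    rw [faithfulSMul_iff_algebraMap_injective]
    exact ev_injective v hs ht
  haveI : IsScalarTower ℂ (MvPolynomial σ ℂ)[X] K := by
    apply IsScalarTower.of_algebraMap_eq
    intro c
    rw [hmap, Polynomial.algebraMap_apply, ev_C, MvPolynomial.algebraMap_eq, MvPolynomial.aeval_C]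
  letI alg2 : Algebra (FractionRing (MvPolynomial σ ℂ)[X]) K := FractionRing.liftAlgebra _ K
  haveI : IsScalarTower (MvPolynomial σ ℂ)[X] (FractionRing (MvPolynomial σ ℂ)[X]) K :=
    inferInstance
  haveI : IsScalarTower ℂ (FractionRing (MvPolynomial σ ℂ)[X]) K := by
    apply IsScalarTower.of_algebraMap_eq
    intro c
    rw [IsScalarTower.algebraMap_apply ℂ (MvPolynomial σ ℂ)[X] K,
      IsScalarTower.algebraMap_apply ℂ (MvPolynomial σ ℂ)[X] (FractionRing (MvPolynomial σ ℂ)[X]),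
      ← IsScalarTower.algebraMap_apply (MvPolynomial σ ℂ)[X]
        (FractionRing (MvPolynomial σ ℂ)[X]) K]
  haveI : Algebra.EssFiniteType (FractionRing (MvPolynomial σ ℂ)[X]) K :=
    Algebra.EssFiniteType.of_comp ℂ _ K
  haveI : Algebra.IsAlgebraic (MvPolynomial σ ℂ)[X] K := ⟨fun f => by
    obtain ⟨F, h1, h2⟩ := halg f
    exact ⟨F, h1, h2⟩⟩
  haveI : Algebra.IsAlgebraic (FractionRing (MvPolynomial σ ℂ)[X]) K :=
    (IsFractionRing.comap_isAlgebraic_iff (A := (MvPolynomial σ ℂ)[X])).1 this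
  haveI : Module.Finite (FractionRing (MvPolynomial σ ℂ)[X]) K :=
    Algebra.finite_of_essFiniteType_of_isAlgebraic
  haveI : CharZero (FractionRing (MvPolynomial σ ℂ)[X]) :=
    algebraRat.charZero _
  haveI : Algebra.IsSeparable (FractionRing (MvPolynomial σ ℂ)[X]) K := inferInstance
  haveI : Module.Finite (MvPolynomial σ ℂ)[X] (integralClosure (MvPolynomial σ ℂ)[X] K) :=
    IsIntegralClosure.finite (A := (MvPolynomial σ ℂ)[X])
      (K := (FractionRing (MvPolynomial σ ℂ)[X])) (L := K)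
      (C := (integralClosure (MvPolynomial σ ℂ)[X] K))
  obtain ⟨S, hS⟩ := Module.Finite.fg_top (R := (MvPolynomial σ ℂ)[X])
    (M := (integralClosure (MvPolynomial σ ℂ)[X] K))
  have hint : ∀ b ∈ integralClosure (MvPolynomial σ ℂ)[X] K, 0 ≤ v b := fun b hb =>
    val_nonneg_of_isIntegral v (fun r => val_ev_nonneg v hs ht r) hb
  -- a bound on generators
  have hbd : ∀ x : K, ∃ ℓ : ℕ, ((-(ℓ : ℤ) : ℤ) : WithTop ℤ) ≤ v x := by
    intro x
    by_cases hx : x = 0
    · exact ⟨0, by simp [hx]⟩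
    · obtain ⟨k, hk⟩ := exists_int v hx
      refine ⟨k.natAbs, ?_⟩
      rw [hk]
      exact WithTop.coe_le_coe.2 (by omega)
  choose! bd hbd using hbd
  set ℓ : ℕ := S.sup (fun x => bd (D (x : K))) with hℓ
  have hℓS : ∀ x ∈ S, ((-(ℓ : ℤ) : ℤ) : WithTop ℤ) ≤ v (D (x : K)) := by
    intro x hx
    refine le_trans ?_ (hbd _)
    have : bd (D (x : K)) ≤ ℓ := Finset.le_sup
      (f := fun x : integralClosure (MvPolynomial σ ℂ)[X] K => bd (D (x : K))) hx
    exact WithTop.coe_le_coe.2 (by omega)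
  have hℓ0 : ((-(ℓ : ℤ) : ℤ) : WithTop ℤ) ≤ 0 := by
    exact_mod_cast (show (-(ℓ : ℤ) : ℤ) ≤ 0 by omega)
  have hB : ∀ b : integralClosure (MvPolynomial σ ℂ)[X] K,
      ((-(ℓ : ℤ) : ℤ) : WithTop ℤ) ≤ v (D (b : K)) := by
    intro b
    have hb : b ∈ Submodule.span (MvPolynomial σ ℂ)[X] (S : Set (integralClosure (MvPolynomial σ ℂ)[X] K)) := by
      rw [hS]; trivial
    induction hb using Submodule.span_induction with
    | mem x hx => exact hℓS x hx
    | zero => simp
    | add x y _ _ hx hy =>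
      push_cast
      rw [map_add]
      exact v.map_le_add hx hy
    | smul r x _ hx =>
      have h1 : ((r • x : integralClosure (MvPolynomial σ ℂ)[X] K) : K) = ev s t r * (x : K) := by
        rw [Subalgebra.coe_smul, Algebra.smul_def]; rfl
      rw [h1, D.leibniz, smul_eq_mul, smul_eq_mul]
      apply v.map_le_add
      · rw [v.map_mul]
        exact le_trans hx (le_add_of_nonneg_left (val_ev_nonneg v hs ht r))
      · rw [v.map_mul]
        exact le_trans hℓ0 (add_nonneg (hint _ x.2) (der_ev_nonneg v hs ht D hDt hDs r))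
  refine ⟨ℓ, fun f hf => ?_⟩
  have ht0 : t ≠ 0 := by
    rintro rfl
    simp at ht
  obtain ⟨F, hF, hFf⟩ := halg f
  obtain ⟨G, hG1, i, hG2⟩ := exists_primitive hF hFf ht0
  obtain ⟨b, hb, c, hc, hvc, hfc⟩ := horner_aux (R := (MvPolynomial σ ℂ)[X]) v hint hf _
    (G.map (algebraMap (MvPolynomial σ ℂ)[X] (integralClosure (MvPolynomial σ ℂ)[X] K))) le_rfl
    (by
      rw [aeval_map_algebraMap]
      exact hG1)
    ⟨i, by
      rw [coeff_map]
      exact val_ev_eq_zero v hs ht hG2⟩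
  have hc0 : c ≠ 0 := by
    rintro rfl
    simp at hvc
  have h1 : D b = f * D c + c * D f := by
    rw [← hfc, D.leibniz, smul_eq_mul, smul_eq_mul]
  have h2 : c * D f = D b - f * D c := by rw [h1]; ring
  have h3 : v (D f) = v (D b - f * D c) := by
    rw [← h2, v.map_mul, hvc, zero_add]
  rw [h3]
  apply v.map_le_sub (hB ⟨b, hb⟩)
  rw [v.map_mul]
  exact le_trans (hB ⟨c, hc⟩) (le_add_of_nonneg_left hf)

lemma der_eval2 (D : Derivation ℂ K K) (hD : ∀ p : MvPolynomial σ ℂ, 0 ≤ v (D (MvPolynomial.aeval s p)))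
    {f : K} (hf : 0 ≤ v f) (G : (MvPolynomial σ ℂ)[X]) :
    ∃ r : K, 0 ≤ v r ∧ D (G.eval₂ (MvPolynomial.aeval s).toRingHom f) =
      r + G.derivative.eval₂ (MvPolynomial.aeval s).toRingHom f * D f := by
  induction G using Polynomial.induction_on' with
  | add p q hp hq =>
    obtain ⟨r, hr, h1⟩ := hp
    obtain ⟨r', hr', h2⟩ := hq
    refine ⟨r + r', v.map_le_add hr hr', ?_⟩
    rw [eval₂_add, map_add, h1, h2, derivative_add, eval₂_add]
    ring
  | monomial n a =>
    refine ⟨f ^ n * D (MvPolynomial.aeval s a), ?_, ?_⟩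
    · rw [v.map_mul, v.map_pow]
      exact add_nonneg (nsmul_nonneg hf _) (hD a)
    · rw [eval₂_monomial, derivative_monomial, eval₂_monomial, D.leibniz, D.leibniz_pow]
      change _ + _ = _ + (MvPolynomial.aeval s (a * (n : MvPolynomial σ ℂ))) * f ^ (n - 1) * D f
      rw [map_mul, map_natCast]
      change (MvPolynomial.aeval s a) • n • f ^ (n - 1) • D f + f ^ n • D (MvPolynomial.aeval s a) = _
      simp only [nsmul_eq_mul, smul_eq_mul]
      ring

/-- **Derivations preserve divisorial valuation rings.** If the discrete valuation `v` of a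
finitely generated field `K` over `ℂ` has uniformizer `t`, the elements `s` have algebraically
independent residues, and `K` is algebraic over `ℂ(s,t)`, then a derivation which sends `t` and
`s` into the valuation ring preserves the valuation ring. -/
theorem der_nonneg [Algebra.EssFiniteType ℂ K]
    (hs : ∀ p : MvPolynomial σ ℂ, p ≠ 0 → v (MvPolynomial.aeval s p) = 0)
    (ht : v t = 1) [Finite σ]
    (halg : ∀ f : K, ∃ F : (MvPolynomial σ ℂ)[X][X], F ≠ 0 ∧ F.eval₂ (ev s t) f = 0)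
    (D : Derivation ℂ K K) (hDt : 0 ≤ v (D t)) (hDs : ∀ i, 0 ≤ v (D (s i))) :
    ∀ f, 0 ≤ v f → 0 ≤ v (D f) := by
  classical
  have hex := exists_bound v hs ht halg D hDt hDs
  have hmin := fun m => Nat.find_min hex (m := m)
  obtain hspec := Nat.find_spec hex
  set ℓ := Nat.find hex with hℓ
  have ht0 : t ≠ 0 := by
    rintro rfl
    simp at ht
  have hDa : ∀ p : MvPolynomial σ ℂ, 0 ≤ v (D (MvPolynomial.aeval s p)) := by
    intro p
    have := der_ev_nonneg v hs ht D hDt hDs (C p)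
    rwa [ev_C] at this
  rcases Nat.eq_zero_or_pos ℓ with h0 | hpos
  · intro f hf
    have := hspec f hf
    rw [h0] at this
    simpa using this
  · exfalso
    refine hmin (ℓ - 1) (by omega) (fun f hf => ?_)
    have hle : ((-((ℓ - 1 : ℕ) : ℤ) : ℤ) : WithTop ℤ) ≤ 0 :=
      WithTop.coe_le_coe.2 (show (-((ℓ - 1 : ℕ) : ℤ) : ℤ) ≤ 0 by omega)
    obtain ⟨F, hF, hFf⟩ := halg f
    obtain ⟨G, hG1, hG2⟩ := exists_sep v hs ht hf hF hFf
    obtain ⟨r, hr, hDG⟩ := der_eval2 v D hDa hf G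
    set g := G.eval₂ (MvPolynomial.aeval s).toRingHom f with hg
    set g' := G.derivative.eval₂ (MvPolynomial.aeval s).toRingHom f with hg'
    have hh : 0 ≤ v (g / t) := by
      rw [v.map_div, ht]
      induction hx : v g using WithTop.recTopCoe with
      | top => simp
      | coe a =>
        rw [hx] at hG1
        have : (1 : ℤ) ≤ a := by exact_mod_cast hG1
        have h2 : ((a : WithTop ℤ) - 1) = ((a - 1 : ℤ) : WithTop ℤ) := by
          push_cast; rfl
        rw [h2]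
        exact_mod_cast (show (0 : ℤ) ≤ a - 1 by omega)
    have h1 : g = t * (g / t) := by field_simp
    have h2 : ((-((ℓ - 1 : ℕ) : ℤ) : ℤ) : WithTop ℤ) ≤ v (D g) := by
      rw [h1, D.leibniz, smul_eq_mul, smul_eq_mul]
      apply v.map_le_add
      · rw [v.map_mul, ht]
        have h3 := hspec _ hh
        have h4 : ((-((ℓ - 1 : ℕ) : ℤ) : ℤ) : WithTop ℤ) = 1 + ((-(ℓ : ℤ) : ℤ) : WithTop ℤ) := by
          have : (-((ℓ - 1 : ℕ) : ℤ) : ℤ) = 1 + (-(ℓ : ℤ)) := by omega
          rw [this]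
          push_cast
          rfl
        rw [h4]
        exact add_le_add le_rfl h3
      · rw [v.map_mul]
        exact le_trans hle (add_nonneg hh hDt)
    have h5 : g' * D f = D g - r := by rw [hDG]; ring
    have h6 : v (D f) = v (D g - r) := by
      rw [← h5, v.map_mul, hG2, zero_add]
    rw [h6]
    exact v.map_le_sub h2 (le_trans hle hr)

end main

end Pool.Agent.H23

end
end

section

/-!
# Lower bounds for holomorphic functions of two variables whose zeros lie on the axes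

`min_mod`: the minimum principle for a function with a zero of order at most `n` at the origin and no other
zeros.  `lower_smooth`: if `a (s, t) ≠ 0` for `s ≠ 0` then `c ‖s‖ ^ k ≤ ‖a (s, t)‖` on the closed
bidisc.  `lower_node`: if `a (s, t) ≠ 0` for `s ≠ 0`, `t ≠ 0` then
`c (‖s‖ ‖t‖) ^ k ≤ ‖a (s, t)‖`.  `upper_smooth`, `upper_node`: upper bounds for functions vanishing on
the axes.
-/

set_option autoImplicit false

open Filter Topology Metric

noncomputable section

namespace Pool.Agent.H62.BP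

attribute [-instance] ProperSMul.toContinuousSMul

/-- The minimum principle. -/
theorem min_principle {f : ℂ → ℂ} {z₀ : ℂ} {r c : ℝ} (hr : 0 < r) (hc : 0 < c)
    (hf : ∀ z, ‖z - z₀‖ ≤ r → AnalyticAt ℂ f z) (h0 : ∀ z, ‖z - z₀‖ ≤ r → f z ≠ 0)
    (h1 : ∀ z, ‖z - z₀‖ = r → c ≤ ‖f z‖) {z : ℂ} (hz : ‖z - z₀‖ ≤ r) : c ≤ ‖f z‖ := by
  have hcl : closure (ball z₀ r) = closedBall z₀ r := closure_ball z₀ hr.ne'
  have hfr : frontier (ball z₀ r) = sphere z₀ r := frontier_ball z₀ hr.ne'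
  have hmem : ∀ w, w ∈ closedBall z₀ r ↔ ‖w - z₀‖ ≤ r := fun w => by
    rw [mem_closedBall, dist_eq_norm]
  have hd : DiffContOnCl ℂ (fun w => (f w)⁻¹) (ball z₀ r) := by
    apply DifferentiableOn.diffContOnCl
    rw [hcl]
    intro w hw
    exact ((hf w ((hmem w).mp hw)).inv (h0 w ((hmem w).mp hw))).differentiableAt.differentiableWithinAt
  have h2 := Complex.norm_le_of_forall_mem_frontier_norm_le (C := c⁻¹) isBounded_ball hd
    (by
      intro w hw
      rw [hfr, mem_sphere, dist_eq_norm] at hw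
      rw [norm_inv]
      exact inv_anti₀ hc (h1 w hw)) (z := z) (by rw [hcl, hmem]; exact hz)
  rw [norm_inv] at h2
  exact (inv_le_inv₀ (norm_pos_iff.mpr (h0 z hz)) hc).mp h2

/-- The minimum principle for functions with a zero at the origin. -/
theorem min_mod {f : ℂ → ℂ} {c : ℝ} (hc : 0 < c) {n : ℕ}
    (hf : ∀ z, ‖z‖ ≤ 1 → AnalyticAt ℂ f z) (h0 : ∀ z, ‖z‖ ≤ 1 → z ≠ 0 → f z ≠ 0)
    (h1 : ∀ z, ‖z‖ = 1 → c ≤ ‖f z‖) (hn : analyticOrderAt f 0 ≤ n) {z : ℂ} (hz : ‖z‖ ≤ 1) :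
    c * ‖z‖ ^ n ≤ ‖f z‖ := by
  classical
  have hfa := hf 0 (by rw [norm_zero]; exact zero_le_one)
  obtain ⟨m, hm⟩ : ∃ m : ℕ, analyticOrderAt f 0 = m :=
    ENat.ne_top_iff_exists.mp (ne_top_of_le_ne_top (ENat.natCast_ne_top n) hn) |>.imp fun _ h => h.symm
  have hmn : m ≤ n := by
    rw [hm] at hn
    exact_mod_cast hn
  obtain ⟨g, hg, hg0, hfg⟩ := hfa.analyticOrderAt_eq_natCast.mp hm
  obtain ⟨G, hG⟩ : ∃ G : ℂ → ℂ, ∀ z, G z = if z = 0 then g 0 else f z / z ^ m := ⟨_, fun z => rfl⟩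
  have hG0 : G =ᶠ[𝓝 0] g := by
    filter_upwards [hfg] with w hw
    rw [hG]
    split_ifs with h2
    · rw [h2]
    · rw [hw, sub_zero, smul_eq_mul, mul_div_cancel_left₀ _ (pow_ne_zero m h2)]
  have hGa : ∀ w, ‖w‖ ≤ 1 → AnalyticAt ℂ G w := by
    intro w hw
    by_cases h2 : w = 0
    · rw [h2]
      exact hg.congr hG0.symm
    · have h3 : AnalyticAt ℂ (fun z => f z / z ^ m) w :=
        (hf w hw).div (analyticAt_id.pow m) (pow_ne_zero m h2)
      refine h3.congr ?_
      filter_upwards [isOpen_compl_singleton.mem_nhds (show w ∈ ({0}ᶜ : Set ℂ) from h2)] with x hx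
      have hx0 : x ≠ 0 := hx
      rw [hG, if_neg hx0]
  have hGn : ∀ w, ‖w‖ ≤ 1 → G w ≠ 0 := by
    intro w hw
    rw [hG]
    split_ifs with h2
    · exact hg0
    · exact div_ne_zero (h0 w hw h2) (pow_ne_zero m h2)
  have hG1 : ∀ w, ‖w‖ = 1 → c ≤ ‖G w‖ := by
    intro w hw
    have h2 : w ≠ 0 := by
      rintro rfl
      rw [norm_zero] at hw
      exact zero_ne_one hw
    rw [hG, if_neg h2, norm_div, norm_pow, hw, one_pow, div_one]
    exact h1 w hw
  have h2 : c ≤ ‖G z‖ := min_principle (z₀ := 0) one_pos hc (by simpa using hGa)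
    (by simpa using hGn) (by simpa using hG1) (by simpa using hz)
  by_cases hz0 : z = 0
  · subst hz0
    rcases Nat.eq_zero_or_pos n with h3 | h3
    · have h4 : m = 0 := by omega
      have h5 : f 0 = G 0 := by
        have h6 := hfg.self_of_nhds
        rw [hG, if_pos rfl, h6, h4, pow_zero, one_smul]
      rw [h3, pow_zero, mul_one, h5]
      exact h2
    · rw [norm_zero, zero_pow h3.ne', mul_zero]
      exact norm_nonneg _
  · have h3 : f z = z ^ m * G z := by
      rw [hG, if_neg hz0, mul_div_cancel₀ _ (pow_ne_zero m hz0)]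
    rw [h3, norm_mul, norm_pow, mul_comm c]
    refine mul_le_mul ?_ h2 hc.le (by positivity)
    exact pow_le_pow_of_le_one (norm_nonneg z) hz hmn

/-! ### Two variables -/

/-- The derivative in the direction of the first variable. -/
def Ds (a : ℂ × ℂ → ℂ) (p : ℂ × ℂ) : ℂ := fderiv ℂ a p (1, 0)

theorem Ds_analytic {a : ℂ × ℂ → ℂ} {p : ℂ × ℂ} (h : AnalyticAt ℂ a p) :
    AnalyticAt ℂ (Ds a) p :=
  AnalyticAt.fun_comp (g := fun L : ℂ × ℂ →L[ℂ] ℂ => L (1, 0)) (f := fderiv ℂ a)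
    ((ContinuousLinearMap.apply ℂ ℂ ((1, 0) : ℂ × ℂ)).analyticAt _) h.fderiv

theorem deriv_slice {a : ℂ × ℂ → ℂ} {s t : ℂ} (h : AnalyticAt ℂ a (s, t)) :
    deriv (fun s' => a (s', t)) s = Ds a (s, t) := by
  have h1 : HasDerivAt (fun s' : ℂ => (s', t)) (1, 0) s :=
    (hasDerivAt_id s).prodMk (hasDerivAt_const s t)
  exact (h.differentiableAt.hasFDerivAt.comp_hasDerivAt s h1).deriv

theorem iter_analytic {a : ℂ × ℂ → ℂ} {p : ℂ × ℂ} (h : AnalyticAt ℂ a p) (i : ℕ) :
    AnalyticAt ℂ (Ds^[i] a) p := by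
  induction i with
  | zero => exact h
  | succ i ih =>
    rw [Function.iterate_succ_apply']
    exact Ds_analytic ih

theorem slice_analytic {a : ℂ × ℂ → ℂ} {s t : ℂ} (h : AnalyticAt ℂ a (s, t)) :
    AnalyticAt ℂ (fun s' => a (s', t)) s :=
  AnalyticAt.fun_comp (g := a) (f := fun s' => (s', t)) h (analyticAt_id.prod analyticAt_const)

theorem iter_slice {a : ℂ × ℂ → ℂ} (i : ℕ) : ∀ {s t : ℂ}, AnalyticAt ℂ a (s, t) →
    iteratedDeriv i (fun s' => a (s', t)) s = (Ds^[i] a) (s, t) := by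
  induction i with
  | zero =>
    intro s t _
    rw [iteratedDeriv_zero, Function.iterate_zero, id]
  | succ i ih =>
    intro s t h
    have h1 : ∀ᶠ s' in 𝓝 s, AnalyticAt ℂ a (s', t) :=
      (Continuous.prodMk continuous_id continuous_const).continuousAt.eventually
        h.eventually_analyticAt
    have h2 : iteratedDeriv i (fun s' => a (s', t)) =ᶠ[𝓝 s] fun s' => (Ds^[i] a) (s', t) := by
      filter_upwards [h1] with s' hs'
      exact ih hs'
    rw [iteratedDeriv_succ, h2.deriv_eq, deriv_slice (iter_analytic h i),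
      Function.iterate_succ_apply']

theorem order_le_of_ne {a : ℂ × ℂ → ℂ} {t : ℂ} (h : AnalyticAt ℂ a (0, t)) {n : ℕ}
    (hn : (Ds^[n] a) (0, t) ≠ 0) : analyticOrderAt (fun s => a (s, t)) 0 ≤ n := by
  by_contra hcon
  push Not at hcon
  have h1 : ((n + 1 : ℕ) : ℕ∞) ≤ analyticOrderAt (fun s => a (s, t)) 0 := by
    push_cast
    exact Order.add_one_le_of_lt hcon
  rw [natCast_le_analyticOrderAt_iff_iteratedDeriv_eq_zero (slice_analytic h)] at h1
  have h2 := h1 n (Nat.lt_succ_self n)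
  rw [iter_slice n h] at h2
  exact hn h2

theorem exists_ne_of_order {a : ℂ × ℂ → ℂ} {t : ℂ} (h : AnalyticAt ℂ a (0, t))
    (hfin : analyticOrderAt (fun s => a (s, t)) 0 ≠ ⊤) : ∃ n : ℕ, (Ds^[n] a) (0, t) ≠ 0 := by
  obtain ⟨m, hm⟩ := ENat.ne_top_iff_exists.mp hfin
  by_contra hcon
  push Not at hcon
  have h1 : ((m + 1 : ℕ) : ℕ∞) ≤ analyticOrderAt (fun s => a (s, t)) 0 := by
    rw [natCast_le_analyticOrderAt_iff_iteratedDeriv_eq_zero (slice_analytic h)]
    intro i _
    rw [iter_slice i h]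
    exact hcon i
  rw [← hm] at h1
  have h2 : m + 1 ≤ m := by exact_mod_cast h1
  omega

/-- a function without zeros in a punctured neighbourhood has finite order -/
theorem order_ne_top {f : ℂ → ℂ} {r : ℝ} (hr : 0 < r)
    (h : ∀ s, s ≠ 0 → ‖s‖ < r → f s ≠ 0) : analyticOrderAt f 0 ≠ ⊤ := by
  intro h1
  rw [analyticOrderAt_eq_top] at h1
  have h2 : ∀ᶠ s in 𝓝[≠] (0 : ℂ), f s = 0 := h1.filter_mono nhdsWithin_le_nhds
  have h3 : ∀ᶠ s in 𝓝[≠] (0 : ℂ), f s ≠ 0 := by
    filter_upwards [self_mem_nhdsWithin, mem_nhdsWithin_of_mem_nhds (ball_mem_nhds (0 : ℂ) hr)]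
      with s hs hs'
    rw [mem_ball_zero_iff] at hs'
    exact h s hs hs'
  obtain ⟨s, h4, h5⟩ := (h2.and h3).exists
  exact h5 h4

/-- The orders of the slices are bounded on compact sets of parameters. -/
theorem order_bound {a : ℂ × ℂ → ℂ} {T : Set ℂ} (hT : IsCompact T)
    (ha : ∀ t ∈ T, AnalyticAt ℂ a (0, t))
    (hfin : ∀ t ∈ T, analyticOrderAt (fun s => a (s, t)) 0 ≠ ⊤) :
    ∃ n : ℕ, ∀ t ∈ T, analyticOrderAt (fun s => a (s, t)) 0 ≤ n := by
  have h1 : ∀ t ∈ T, ∃ n : ℕ, (Ds^[n] a) (0, t) ≠ 0 := fun t ht =>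
    exists_ne_of_order (ha t ht) (hfin t ht)
  choose! n hn using h1
  have hU : ∀ t ∈ T, {t' | AnalyticAt ℂ a (0, t') ∧ (Ds^[n t] a) (0, t') ≠ 0} ∈ 𝓝 t := by
    intro t ht
    have hc : ContinuousAt (fun t' : ℂ => ((0 : ℂ), t')) t :=
      (Continuous.prodMk continuous_const continuous_id).continuousAt
    have h2 : ∀ᶠ t' in 𝓝 t, AnalyticAt ℂ a (0, t') :=
      hc.eventually (ha t ht).eventually_analyticAt
    have h3 : ∀ᶠ t' in 𝓝 t, (Ds^[n t] a) (0, t') ≠ 0 :=
      hc.eventually ((iter_analytic (ha t ht) (n t)).continuousAt.eventually_ne (hn t ht))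
    exact h2.and h3
  obtain ⟨F, hF, hcov⟩ := hT.elim_nhds_subcover _ hU
  refine ⟨F.sup n, fun t ht => ?_⟩
  have h2 := hcov ht
  rw [Set.mem_iUnion₂] at h2
  obtain ⟨t', ht', h3, h4⟩ := h2
  refine (order_le_of_ne h3 h4).trans ?_
  exact_mod_cast Finset.le_sup ht'

/-- A positive lower bound on a compact set. -/
theorem exists_lower {X : Type*} [TopologicalSpace X] {K : Set X} (hK : IsCompact K) {f : X → ℂ}
    (hf : ∀ x ∈ K, ContinuousAt f x) (h0 : ∀ x ∈ K, f x ≠ 0) :
    ∃ c : ℝ, 0 < c ∧ ∀ x ∈ K, c ≤ ‖f x‖ := by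
  rcases K.eq_empty_or_nonempty with h | h
  · exact ⟨1, one_pos, fun x hx => by rw [h] at hx; exact hx.elim⟩
  · obtain ⟨x, hx, hmin⟩ := hK.exists_isMinOn h
      (fun x hx => (hf x hx).norm.continuousWithinAt)
    exact ⟨‖f x‖, norm_pos_iff.mpr (h0 x hx), fun y hy => hmin hy⟩

/-- The lower bound for the slices with parameters in a compact set. -/
theorem lower_param {a : ℂ × ℂ → ℂ} {T : Set ℂ} (hT : IsCompact T)
    (ha : ∀ s t, ‖s‖ ≤ 1 → t ∈ T → AnalyticAt ℂ a (s, t))
    (h0 : ∀ s t, ‖s‖ ≤ 1 → t ∈ T → s ≠ 0 → a (s, t) ≠ 0) :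
    ∃ (c : ℝ) (k : ℕ), 0 < c ∧ ∀ s t, ‖s‖ ≤ 1 → t ∈ T → c * ‖s‖ ^ k ≤ ‖a (s, t)‖ := by
  have h01 : ‖(0 : ℂ)‖ ≤ 1 := by rw [norm_zero]; exact zero_le_one
  obtain ⟨k, hk⟩ := order_bound hT (fun t ht => ha 0 t h01 ht)
    (fun t ht => order_ne_top one_pos fun s hs hs' => h0 s t hs'.le ht hs)
  obtain ⟨c, hc, hcK⟩ := exists_lower (f := a) ((isCompact_sphere (0 : ℂ) 1).prod hT)
    (by
      rintro ⟨s, t⟩ ⟨hs, ht⟩
      have hs' : ‖s‖ = 1 := by simpa using hs
      exact (ha s t hs'.le ht).continuousAt)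
    (by
      rintro ⟨s, t⟩ ⟨hs, ht⟩
      have hs' : ‖s‖ = 1 := by simpa using hs
      have hs0 : s ≠ 0 := by
        rintro rfl
        rw [norm_zero] at hs'
        exact zero_ne_one hs'
      exact h0 s t hs'.le ht hs0)
  refine ⟨c, k, hc, fun s t hs ht => ?_⟩
  exact min_mod (f := fun s => a (s, t)) hc (fun z hz => slice_analytic (ha z t hz ht))
    (fun z hz hz0 => h0 z t hz ht hz0)
    (fun z hz => hcK (z, t) ⟨by simpa using hz, ht⟩) (hk t ht) hs

/-- Zeros on one axis. -/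
theorem lower_smooth {a : ℂ × ℂ → ℂ} (ha : ∀ s t, ‖s‖ ≤ 1 → ‖t‖ ≤ 1 → AnalyticAt ℂ a (s, t))
    (h0 : ∀ s t, ‖s‖ ≤ 1 → ‖t‖ ≤ 1 → s ≠ 0 → a (s, t) ≠ 0) :
    ∃ (c : ℝ) (k : ℕ), 0 < c ∧ ∀ s t, ‖s‖ ≤ 1 → ‖t‖ ≤ 1 → c * ‖s‖ ^ k ≤ ‖a (s, t)‖ := by
  obtain ⟨c, k, hc, h⟩ := lower_param (isCompact_closedBall (0 : ℂ) 1)
    (fun s t hs ht => ha s t hs (by simpa using ht))
    (fun s t hs ht hs0 => h0 s t hs (by simpa using ht) hs0)
  exact ⟨c, k, hc, fun s t hs ht => h s t hs (by simpa using ht)⟩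

theorem swap_analytic {a : ℂ × ℂ → ℂ} {s t : ℂ} (h : AnalyticAt ℂ a (s, t)) :
    AnalyticAt ℂ (fun p : ℂ × ℂ => a (p.2, p.1)) (t, s) :=
  AnalyticAt.fun_comp (g := a) (f := fun p : ℂ × ℂ => (p.2, p.1)) h (analyticAt_snd.prod analyticAt_fst)

/-- The order at the origin from a lower bound. -/
theorem order_le_of_lower {f : ℂ → ℂ} (hf : AnalyticAt ℂ f 0) {c : ℝ} (hc : 0 < c) {k : ℕ}
    (h : ∀ᶠ s in 𝓝[≠] (0 : ℂ), c * ‖s‖ ^ k ≤ ‖f s‖) : analyticOrderAt f 0 ≤ k := by
  by_contra hcon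
  push Not at hcon
  have h1 : ((k + 1 : ℕ) : ℕ∞) ≤ analyticOrderAt f 0 := by
    push_cast
    exact Order.add_one_le_of_lt hcon
  obtain ⟨g, hg, hfg⟩ := (natCast_le_analyticOrderAt hf).mp h1
  have h2 : ∀ᶠ s in 𝓝[≠] (0 : ℂ), c ≤ ‖s * g s‖ := by
    filter_upwards [h, hfg.filter_mono nhdsWithin_le_nhds, self_mem_nhdsWithin] with s h3 h4 h5
    have h6 : 0 < ‖s‖ ^ k := pow_pos (norm_pos_iff.mpr h5) k
    rw [h4, sub_zero, smul_eq_mul, pow_succ, mul_assoc, norm_mul, norm_pow, mul_comm c] at h3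
    exact le_of_mul_le_mul_left h3 h6
  have h3 : Tendsto (fun s => ‖s * g s‖) (𝓝[≠] (0 : ℂ)) (𝓝 ‖(0 : ℂ) * g 0‖) :=
    ((continuousAt_id.mul hg.continuousAt).norm).tendsto.mono_left nhdsWithin_le_nhds
  have h4 := ge_of_tendsto h3 h2
  rw [zero_mul, norm_zero] at h4
  linarith

/-- The orders of the slices off a node are bounded. -/
theorem order_node {a : ℂ × ℂ → ℂ} (ha : ∀ s t, ‖s‖ < 2 → ‖t‖ < 2 → AnalyticAt ℂ a (s, t))
    (h0 : ∀ s t, ‖s‖ < 2 → ‖t‖ < 2 → s ≠ 0 → t ≠ 0 → a (s, t) ≠ 0) :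
    ∃ k : ℕ, ∀ t, t ≠ 0 → ‖t‖ < 2 → analyticOrderAt (fun s => a (s, t)) 0 ≤ k := by
  have h02 : ‖(0 : ℂ)‖ < 2 := by rw [norm_zero]; exact two_pos
  have h12 : ‖(1 : ℂ)‖ < 2 := by rw [norm_one]; exact one_lt_two
  obtain ⟨k, hk⟩ := exists_ne_of_order (ha 0 1 h02 h12)
    (order_ne_top two_pos fun s hs hs' => h0 s 1 hs' h12 hs one_ne_zero)
  refine ⟨k, fun t₀ ht₀ ht₀2 => ?_⟩
  -- the derivative of order `k` has isolated zeros
  have hD : AnalyticOnNhd ℂ (fun t => (Ds^[k] a) (0, t)) (ball 0 2) := by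
    intro t ht
    rw [mem_ball_zero_iff] at ht
    exact AnalyticAt.fun_comp (g := Ds^[k] a) (f := fun t' => ((0 : ℂ), t'))
      (iter_analytic (ha 0 t h02 ht) k) (analyticAt_const.prod analyticAt_id)
  have hDne : ∀ᶠ t in 𝓝[≠] t₀, (Ds^[k] a) (0, t) ≠ 0 := by
    rcases hD.eqOn_zero_or_eventually_ne_zero_of_preconnected (convex_ball 0 2).isPreconnected
      with h1 | h1
    · exfalso
      exact hk (h1 (by rw [mem_ball_zero_iff]; exact h12))
    · rw [Filter.eventually_iff, mem_codiscreteWithin] at h1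
      have h2 := h1 t₀ (by rw [mem_ball_zero_iff]; exact ht₀2)
      have h3 : ball (0 : ℂ) 2 ∈ 𝓝[≠] t₀ := mem_nhdsWithin_of_mem_nhds
        (isOpen_ball.mem_nhds (by rw [mem_ball_zero_iff]; exact ht₀2))
      rw [disjoint_principal_right] at h2
      filter_upwards [h2, h3] with t h4 h5
      by_contra h6
      exact h4 ⟨h5, fun h7 => h7 h6⟩
  -- a small circle around `t₀`
  obtain ⟨r, hr, hr1, hr2, hr3⟩ : ∃ r : ℝ, 0 < r ∧ (∀ t, ‖t - t₀‖ ≤ r → ‖t‖ < 2) ∧
      (∀ t, ‖t - t₀‖ ≤ r → t ≠ 0) ∧ ∀ t, ‖t - t₀‖ = r → (Ds^[k] a) (0, t) ≠ 0 := by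
    have h1 : ∀ᶠ t in 𝓝 t₀, ‖t‖ < 2 ∧ t ≠ 0 ∧ (t ≠ t₀ → (Ds^[k] a) (0, t) ≠ 0) := by
      have h2 : ∀ᶠ t in 𝓝 t₀, t ≠ 0 :=
        isOpen_compl_singleton.mem_nhds (show t₀ ∈ ({0}ᶜ : Set ℂ) from ht₀)
      exact (continuous_norm.continuousAt.eventually_lt continuousAt_const ht₀2).and
        (h2.and (eventually_nhdsWithin_iff.mp hDne))
    obtain ⟨ε, hε, hball⟩ := Metric.eventually_nhds_iff.mp h1
    have h2 : ∀ t, ‖t - t₀‖ ≤ ε / 2 → dist t t₀ < ε := by
      intro t ht
      rw [dist_eq_norm]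
      linarith
    refine ⟨ε / 2, half_pos hε, fun t ht => (hball (h2 t ht)).1, fun t ht => (hball (h2 t ht)).2.1,
      fun t ht => (hball (h2 t ht.le)).2.2 ?_⟩
    rintro rfl
    rw [sub_self, norm_zero] at ht
    linarith
  have hcirc : IsCompact {t : ℂ | ‖t - t₀‖ = r} := by
    have h1 : {t : ℂ | ‖t - t₀‖ = r} = sphere t₀ r := by
      ext t
      rw [mem_sphere, dist_eq_norm]
      rfl
    rw [h1]
    exact isCompact_sphere t₀ r
  obtain ⟨c, hc, hcK⟩ := exists_lower (f := a) ((isCompact_sphere (0 : ℂ) 1).prod hcirc)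
    (by
      rintro ⟨s, t⟩ ⟨hs, ht⟩
      have hs' : ‖s‖ = 1 := by simpa using hs
      exact (ha s t (by rw [hs']; exact one_lt_two) (hr1 t (le_of_eq ht))).continuousAt)
    (by
      rintro ⟨s, t⟩ ⟨hs, ht⟩
      have hs' : ‖s‖ = 1 := by simpa using hs
      have hs0 : s ≠ 0 := by
        rintro rfl
        rw [norm_zero] at hs'
        exact zero_ne_one hs'
      exact h0 s t (by rw [hs']; exact one_lt_two) (hr1 t (le_of_eq ht)) hs0 (hr2 t (le_of_eq ht)))
  have hlt : ∀ s : ℂ, ‖s‖ ≤ 1 → ‖s‖ < 2 := fun s hs => hs.trans_lt one_lt_two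
  -- on the circle
  have h1 : ∀ s t, ‖s‖ ≤ 1 → ‖t - t₀‖ = r → c * ‖s‖ ^ k ≤ ‖a (s, t)‖ := by
    intro s t hs ht
    exact min_mod (f := fun s => a (s, t)) hc
      (fun z hz => slice_analytic (ha z t (hlt z hz) (hr1 t ht.le)))
      (fun z hz hz0 => h0 z t (hlt z hz) (hr1 t ht.le) hz0 (hr2 t ht.le))
      (fun z hz => hcK (z, t) ⟨by simpa using hz, ht⟩)
      (order_le_of_ne (ha 0 t h02 (hr1 t ht.le)) (hr3 t ht)) hs
  -- at the centre
  have h2 : ∀ s, ‖s‖ ≤ 1 → s ≠ 0 → c * ‖s‖ ^ k ≤ ‖a (s, t₀)‖ := by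
    intro s hs hs0
    refine min_principle (f := fun t => a (s, t)) (z₀ := t₀) hr
      (mul_pos hc (pow_pos (norm_pos_iff.mpr hs0) k)) (fun t ht => ?_)
      (fun t ht => h0 s t (hlt s hs) (hr1 t ht) hs0 (hr2 t ht)) (fun t ht => h1 s t hs ht) ?_
    · exact AnalyticAt.fun_comp (g := a) (f := fun t' => (s, t')) (ha s t (hlt s hs) (hr1 t ht))
        (analyticAt_const.prod analyticAt_id)
    · rw [sub_self, norm_zero]
      exact hr.le
  refine order_le_of_lower (slice_analytic (ha 0 t₀ h02 ht₀2)) hc ?_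
  filter_upwards [self_mem_nhdsWithin, mem_nhdsWithin_of_mem_nhds (ball_mem_nhds (0 : ℂ) one_pos)]
    with s hs hs'
  rw [mem_ball_zero_iff] at hs'
  exact h2 s hs'.le hs

/-- Zeros on two axes. -/
theorem lower_node {a : ℂ × ℂ → ℂ} (ha : ∀ s t, ‖s‖ < 2 → ‖t‖ < 2 → AnalyticAt ℂ a (s, t))
    (h0 : ∀ s t, ‖s‖ < 2 → ‖t‖ < 2 → s ≠ 0 → t ≠ 0 → a (s, t) ≠ 0) :
    ∃ (c : ℝ) (k : ℕ), 0 < c ∧ 1 ≤ k ∧ ∀ s t, ‖s‖ ≤ 1 → ‖t‖ ≤ 1 →
      c * (‖s‖ * ‖t‖) ^ k ≤ ‖a (s, t)‖ := by
  have hlt : ∀ s : ℂ, ‖s‖ ≤ 1 → ‖s‖ < 2 := fun s hs => hs.trans_lt one_lt_two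
  obtain ⟨k, hk⟩ := order_node ha h0
  have hsph : ∀ s : ℂ, s ∈ sphere (0 : ℂ) 1 → ‖s‖ = 1 := fun s hs => by simpa using hs
  have hne : ∀ s : ℂ, ‖s‖ = 1 → s ≠ 0 := by
    rintro s hs rfl
    rw [norm_zero] at hs
    exact zero_ne_one hs
  obtain ⟨c, l, hc, hl⟩ := lower_param (a := fun p : ℂ × ℂ => a (p.2, p.1))
    (isCompact_sphere (0 : ℂ) 1)
    (fun t s ht hs => swap_analytic (ha s t (hlt s (hsph s hs).le) (hlt t ht)))
    (fun t s ht hs ht0 => h0 s t (hlt s (hsph s hs).le) (hlt t ht) (hne s (hsph s hs)) ht0)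
  refine ⟨c, max k l + 1, hc, Nat.le_add_left _ _, fun s t hs ht => ?_⟩
  by_cases hs0 : s = 0
  · rw [hs0, norm_zero, zero_mul, zero_pow (Nat.succ_ne_zero _), mul_zero]
    exact norm_nonneg _
  by_cases ht0 : t = 0
  · rw [ht0, norm_zero, mul_zero, zero_pow (Nat.succ_ne_zero _), mul_zero]
    exact norm_nonneg _
  have h1 : c * ‖t‖ ^ l * ‖s‖ ^ k ≤ ‖a (s, t)‖ :=
    min_mod (f := fun s => a (s, t)) (mul_pos hc (pow_pos (norm_pos_iff.mpr ht0) l))
      (fun z hz => slice_analytic (ha z t (hlt z hz) (hlt t ht)))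
      (fun z hz hz0 => h0 z t (hlt z hz) (hlt t ht) hz0 ht0)
      (fun z hz => hl t z ht (by simpa using hz)) (hk t ht0 (hlt t ht)) hs
  refine le_trans ?_ h1
  rw [mul_pow, mul_assoc, mul_comm (‖t‖ ^ l)]
  refine mul_le_mul_of_nonneg_left (mul_le_mul ?_ ?_ (by positivity) (by positivity)) hc.le
  · exact pow_le_pow_of_le_one (norm_nonneg s) hs (by omega)
  · exact pow_le_pow_of_le_one (norm_nonneg t) ht (by omega)

/-! ### Upper bounds -/

end Pool.Agent.H62.BP

end
end

section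

/-!
# Transcendence bases among the coordinates
-/

noncomputable section

namespace Pool.Agent.H92.GT

attribute [-instance] ProperSMul.toContinuousSMul

open scoped IntermediateField.algebraAdjoinAdjoin in
/-- If `K` is algebraic over `ℂ(x)` there is a transcendence basis among the coordinates. -/
theorem exists_index {K : Type} [Field K] [Algebra ℂ K] {k n : ℕ} {x : Fin n → K}
    (halg : Algebra.IsAlgebraic (IntermediateField.adjoin ℂ (Set.range x)) K) {z : Fin k → K}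
    (hz : IsTranscendenceBasis ℂ z) :
    ∃ J : Fin k → Fin n, IsTranscendenceBasis ℂ fun i => x (J i) := by
  have h1 : Algebra.IsAlgebraic (Algebra.adjoin ℂ (Set.range x)) K :=
    (IsFractionRing.comap_isAlgebraic_iff (A := Algebra.adjoin ℂ (Set.range x))
      (K := IntermediateField.adjoin ℂ (Set.range x)) (C := K)).mpr halg
  obtain ⟨u, hu, hub⟩ := exists_isTranscendenceBasis_subset (R := ℂ) (Set.range x)
  have h2 := hub.cardinalMk_eq hz
  rw [Cardinal.mk_fin] at h2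
  have h3 : Finite u := by
    rw [← Cardinal.lt_aleph0_iff_finite, h2]
    exact Cardinal.natCast_lt_aleph0
  have h4 : Nat.card u = k := by
    rw [Nat.card, h2]
    simp
  let eqv : Fin k ≃ u := (finCongr h4.symm).trans (Finite.equivFin u).symm
  choose J hJ using fun i : Fin k => hu (eqv i).2
  refine ⟨J, ?_⟩
  have h5 : (fun i => x (J i)) = (Subtype.val : u → K) ∘ eqv := funext hJ
  rw [h5, isTranscendenceBasis_equiv]
  exact hub

end Pool.Agent.H92.GT

end
end
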