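import Pool.Agent.H94.CB.M08
import Pool.Agent.H94.CB.M20
import Pool.Agent.H94.CB.M44
import Pool.Agent.H94.CB.M47
import Pool.Agent.H94.CB.M52
import Pool.Agent.H94.CB.M53

/-! The parts of this file: H17BP.FinS, H23.Forms, H36.BPL.Pair, H17BP.Final, H17BP.SameK. -/

section

/-!
# Isolated points of a closed surface

`X ∩ sphere 0 1` is compact (`V` is finite dimensional, hence proper; `X ∩ sphere 0 1` is closed by `Surface.closed`).  Every
`x` in it has an open neighbourhood `U x` on which `y ∈ X → ¬ Pr y x → R y`; finitely many of them, `x ∈ F`, cover it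
(`IsCompact.elim_nhds_subcover`).  Let `x ∈ X`; `x ≠ 0`; `y = (‖x‖⁻¹ : ℂ) • x ∈ X` has norm `1`, so it is in `U q`, `q ∈ F`:
`Pr y q`, hence `Pr x q`, or `R y`, hence `R x` by `hR`.
-/

open Topology Filter

noncomputable section

namespace Pool.Agent.H17BP

attribute [-instance] ProperSMul.toContinuousSMul

variable {V : Type} [NormedAddCommGroup V] [NormedSpace ℂ V]

theorem exists_finset_of_isolated [FiniteDimensional ℂ V] {X : Set V} (hX : Surface X) {R : V → Prop}
    (hR : ∀ x y, Pr x y → R y → R x) (h : ∀ x ∈ X, ∀ᶠ y in 𝓝 x, y ∈ X → ¬ Pr y x → R y) :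
    ∃ F : Finset V, (∀ q ∈ F, q ∈ X) ∧ ∀ x ∈ X, R x ∨ ∃ q ∈ F, Pr x q := by
  have : ProperSpace V := FiniteDimensional.proper ℂ V
  have hcl : IsClosed (X ∩ Metric.sphere (0 : V) 1) := by
    refine isClosed_of_closure_subset fun y hy => ?_
    have h1 : y ∈ Metric.sphere (0 : V) 1 := by
      have := closure_mono Set.inter_subset_right hy
      rwa [Metric.isClosed_sphere.closure_eq] at this
    have h2 : y ∈ closure X := closure_mono Set.inter_subset_left hy
    refine ⟨hX.closed y h2 ?_, h1⟩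
    rintro rfl
    simp at h1
  have hK : IsCompact (X ∩ Metric.sphere (0 : V) 1) :=
    (isCompact_sphere (0 : V) 1).of_isClosed_subset hcl Set.inter_subset_right
  obtain ⟨F, hF, hcov⟩ := hK.elim_nhds_subcover (fun x => {y | y ∈ X → ¬ Pr y x → R y}) fun x hx => h x hx.1
  refine ⟨F, fun q hq => (hF q hq).1, fun x hx => ?_⟩
  have hx0 : x ≠ 0 := fun h0 => hX.zero (h0 ▸ hx)
  have hn : ((‖x‖⁻¹ : ℝ) : ℂ) ≠ 0 := by
    exact_mod_cast inv_ne_zero (norm_ne_zero_iff.2 hx0)
  have hy : ((‖x‖⁻¹ : ℝ) : ℂ) • x ∈ X := hX.smul x hx _ hn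
  have hy1 : ((‖x‖⁻¹ : ℝ) : ℂ) • x ∈ Metric.sphere (0 : V) 1 := by
    rw [mem_sphere_zero_iff_norm, norm_smul, Complex.norm_real, norm_inv, norm_norm,
      inv_mul_cancel₀ (norm_ne_zero_iff.2 hx0)]
  have hxy : Pr x (((‖x‖⁻¹ : ℝ) : ℂ) • x) := Pr.symm ⟨_, hn, rfl⟩
  obtain ⟨q, hq, hyq⟩ := Set.mem_iUnion₂.1 (hcov ⟨hy, hy1⟩)
  by_cases hP : Pr (((‖x‖⁻¹ : ℝ) : ℂ) • x) q
  · exact Or.inr ⟨q, hq, hxy.trans hP⟩
  · exact Or.inl (hR _ _ hxy (hyq hy hP))

end Pool.Agent.H17BP

end
end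

section

set_option linter.style.haveILetI false

noncomputable section

namespace Pool.Agent.H23

attribute [-instance] ProperSMul.toContinuousSMul

section top

variable {K : Type*} [Field K] {M : Type*} [AddCommGroup M] [Module K M] {n : ℕ}
  (b : Module.Basis (Fin n) K M)

lemma ιMulti_eq (v : Fin n → M) :
    exteriorPower.ιMulti K n v = b.det v • exteriorPower.ιMulti K n (fun i => b i) := by
  have h : (exteriorPower.ιMulti K n : M [⋀^Fin n]→ₗ[K] ⋀[K]^n M) =
      (LinearMap.toSpanSingleton K (⋀[K]^n M) (exteriorPower.ιMulti K n (fun i => b i))).compAlternatingMap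
        b.det := by
    apply Module.Basis.ext_alternating b
    intro σ hσ
    have hbij : Function.Bijective σ := (Finite.injective_iff_bijective).1 hσ
    let e : Equiv.Perm (Fin n) := Equiv.ofBijective σ hbij
    have h1 : (fun i => b (σ i)) = (fun i => b i) ∘ e := rfl
    rw [h1, AlternatingMap.map_perm, LinearMap.compAlternatingMap_apply, AlternatingMap.map_perm,
      Module.Basis.det_self]
    simp
  conv_lhs => rw [h]
  rw [LinearMap.compAlternatingMap_apply, LinearMap.toSpanSingleton_apply]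

/-- coordinate of a top form -/
def fc : (⋀[K]^n M) →ₗ[K] K := exteriorPower.alternatingMapLinearEquiv b.det

lemma fc_ιMulti (v : Fin n → M) : fc b (exteriorPower.ιMulti K n v) = b.det v := by
  rw [fc, exteriorPower.alternatingMapLinearEquiv_apply_ιMulti]

lemma fc_self : fc b (exteriorPower.ιMulti K n (fun i => b i)) = 1 := by
  rw [fc_ιMulti]
  exact b.det_self

lemma eq_fc_smul (ω : ⋀[K]^n M) : ω = fc b ω • exteriorPower.ιMulti K n (fun i => b i) := by
  have hω : ω ∈ Submodule.span K (Set.range (exteriorPower.ιMulti K n (M := M))) := by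
    rw [exteriorPower.ιMulti_span]; trivial
  induction hω using Submodule.span_induction with
  | mem x hx =>
    obtain ⟨v, rfl⟩ := hx
    rw [fc_ιMulti]
    exact ιMulti_eq b v
  | zero => simp
  | add x y _ _ hx hy =>
    rw [map_add, add_smul, ← hx, ← hy]
  | smul c x _ hx =>
    rw [map_smul, smul_assoc, ← hx]

end top

section coords

variable {K : Type} [Field K] [Algebra ℂ K] {n : ℕ}

/-- the derivation dual to a basis of differentials -/
def dualDer {σ : Type*} (b : Module.Basis σ K Ω[K⁄ℂ]) (i : σ) : Derivation ℂ K K :=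
  (b.coord i).compDer (KaehlerDifferential.D ℂ K)

lemma dualDer_apply {σ : Type*} (b : Module.Basis σ K Ω[K⁄ℂ]) (i : σ) (f : K) :
    dualDer b i f = b.repr (KaehlerDifferential.D ℂ K f) i := rfl

lemma dualDer_coord {σ : Type*} [DecidableEq σ] (b : Module.Basis σ K Ω[K⁄ℂ]) {a : σ → K}
    (hb : ∀ i, b i = KaehlerDifferential.D ℂ K (a i)) (i j : σ) :
    dualDer b i (a j) = if i = j then 1 else 0 := by
  rw [dualDer_apply, ← hb, Module.Basis.repr_self, Finsupp.single_apply]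
  simp [eq_comm]

lemma det_mem (O : Subalgebra ℂ K) (A : Matrix (Fin n) (Fin n) K) (hA : ∀ i j, A i j ∈ O) :
    A.det ∈ O := by
  rw [Matrix.det_apply']
  apply sum_mem
  intro σ _
  exact O.mul_mem (intCast_mem O _) (O.prod_mem fun i _ => hA _ _)

/-- The regular forms of a ring with coordinates. -/
lemma mem_regularForms_iff (O : Subalgebra ℂ K) (b : Module.Basis (Fin n) K Ω[K⁄ℂ]) {a : Fin n → K}
    (hb : ∀ i, b i = KaehlerDifferential.D ℂ K (a i)) (ha : ∀ i, a i ∈ O)
    (hD : ∀ i, ∀ f ∈ O, dualDer b i f ∈ O) (ω : RatForm K n) :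
    ω ∈ regularForms n O ↔ fc b ω ∈ O := by
  constructor
  · intro h
    induction h using AddSubgroup.closure_induction with
    | mem x hx =>
      obtain ⟨c, a', hc, ha', rfl⟩ := hx
      rw [map_smul, fc_ιMulti, smul_eq_mul]
      apply O.mul_mem hc
      rw [Module.Basis.det_apply]
      apply det_mem
      intro i j
      exact hD i _ (ha' j)
    | zero => simp
    | add x y _ _ hx hy =>
      rw [map_add]
      exact O.add_mem hx hy
    | neg x _ hx =>
      rw [map_neg]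
      exact O.neg_mem hx
  · intro h
    apply AddSubgroup.subset_closure
    refine ⟨fc b ω, a, h, ha, ?_⟩
    conv_lhs => rw [eq_fc_smul b ω]
    simp only [hb]

end coords

section primeDivisor

variable {K : Type} [Field K] [Algebra ℂ K]

lemma aeval_cons {k : ℕ} (s : Fin k → K) (t : K) (p : MvPolynomial (Fin (k + 1)) ℂ) :
    MvPolynomial.aeval (Fin.cons t s : Fin (k + 1) → K) p =
      ev s t (MvPolynomial.finSuccEquiv ℂ k p) := by
  induction p using MvPolynomial.induction_on with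
  | C a =>
    rw [MvPolynomial.aeval_C, MvPolynomial.finSuccEquiv_apply, MvPolynomial.eval₂Hom_C]
    change _ = ev s t (Polynomial.C (MvPolynomial.C a))
    rw [ev_C, MvPolynomial.aeval_C]
  | add p q hp hq => rw [map_add, hp, hq, map_add, map_add]
  | mul_X p i hp =>
    rw [map_mul, hp, map_mul, map_mul, MvPolynomial.aeval_X]
    congr 1
    refine Fin.cases ?_ (fun j => ?_) i
    · rw [Fin.cons_zero, MvPolynomial.finSuccEquiv_X_zero, ev_X]
    · rw [Fin.cons_succ, MvPolynomial.finSuccEquiv_X_succ, ev_C, MvPolynomial.aeval_X]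

/-- Coordinates adapted to a prime divisor. -/
theorem exists_divisorCoords [Algebra.EssFiniteType ℂ K] {k : ℕ} {z : Fin (k + 1) → K}
    (hz : IsTranscendenceBasis ℂ z) (E : PrimeDivisorOver K (k + 1)) :
    ∃ (g : Fin (k + 1) → K) (b : Module.Basis (Fin (k + 1)) K Ω[K⁄ℂ]),
      (∀ i, b i = KaehlerDifferential.D ℂ K (g i)) ∧ E.ord (g 0) = 1 ∧ (∀ i, 0 ≤ E.ord (g i)) ∧
      (∀ i f, 0 ≤ E.ord f → 0 ≤ E.ord (dualDer b i f)) := by
  obtain ⟨t, ht⟩ := E.exists_uniformizer
  obtain ⟨s, hs0, hs⟩ := E.residue_trdeg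
  change Fin k → K at s
  change ∀ i : Fin k, 0 ≤ E.ord (s i) at hs0
  change ∀ p : MvPolynomial (Fin k) ℂ, p ≠ 0 → E.ord (MvPolynomial.aeval s p) = 0 at hs
  set g : Fin (k + 1) → K := Fin.cons t s with hg
  have hind : AlgebraicIndependent ℂ g := by
    rw [algebraicIndependent_iff_injective_aeval]
    have h1 : (MvPolynomial.aeval g : MvPolynomial (Fin (k + 1)) ℂ → K) =
        ev s t ∘ MvPolynomial.finSuccEquiv ℂ k := by
      funext p
      exact aeval_cons s t p
    rw [h1]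
    exact (ev_injective E.ord hs ht).comp (MvPolynomial.finSuccEquiv ℂ k).injective
  have hbasis : IsTranscendenceBasis ℂ g := by
    apply hind.isTranscendenceBasis_of_trdeg_le_of_finite
    rw [← hz.cardinalMk_eq_trdeg]
  obtain ⟨b, hb⟩ := exists_basis_kaehler hbasis
  refine ⟨g, b, hb, ht, ?_, ?_⟩
  · intro i
    refine Fin.cases ?_ (fun j => ?_) i
    · rw [hg, Fin.cons_zero, ht]; norm_num
    · rw [hg, Fin.cons_succ]; exact hs0 j
  · intro i
    apply der_nonneg E.ord hs ht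
    · intro f
      obtain ⟨F, h1, h2⟩ := exists_poly_of_basis hbasis f
      refine ⟨F.map (MvPolynomial.finSuccEquiv ℂ k).toRingEquiv.toRingHom, ?_, ?_⟩
      · rwa [Ne, Polynomial.map_eq_zero_iff]
        exact (MvPolynomial.finSuccEquiv ℂ k).injective
      · rw [Polynomial.eval₂_map]
        have h3 : (ev s t).comp (MvPolynomial.finSuccEquiv ℂ k).toRingEquiv.toRingHom =
            (MvPolynomial.aeval g).toRingHom :=
          RingHom.ext fun p => (aeval_cons s t p).symm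
        rw [h3]
        exact h2
    · have := dualDer_coord b hb i 0
      rw [hg, Fin.cons_zero] at this
      rw [this]
      split_ifs <;> simp
    · intro j
      have := dualDer_coord b hb i j.succ
      rw [hg, Fin.cons_succ] at this
      rw [this]
      split_ifs <;> simp

end primeDivisor

end Pool.Agent.H23

end
end

section

/-!
# BPL Pair: an analytic subset of a nodal curve given by one equation is a union of branches
-/

set_option autoImplicit false

namespace Pool.Agent.H36.BPL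

attribute [-instance] ProperSMul.toContinuousSMul

open Filter Topology Metric
open Pool.Agent.H17BP (Surface IsChart IsForm NoZeros NodalAt)

variable {V : Type} [NormedAddCommGroup V] [NormedSpace ℂ V]

/-- a zero of an analytic function of two variables is not isolated -/
theorem freq_zero {g : ℂ × ℂ → ℂ} (hg : AnalyticAt ℂ g 0) (h0 : g 0 = 0) : ∃ᶠ p in 𝓝[≠] (0 : ℂ × ℂ), g p = 0 := by
  by_contra hcon
  rw [not_frequently, eventually_nhdsWithin_iff] at hcon
  obtain ⟨r₀, hr₀, hr₀g⟩ := Metric.eventually_nhds_iff_ball.mp (hcon.and hg.eventually_analyticAt)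
  set r : ℝ := r₀ / 2 with hr
  have hr0 : 0 < r := by rw [hr]; positivity
  have hrlt : r < r₀ := by rw [hr]; linarith
  have hmem : ∀ s t : ℂ, ‖s‖ ≤ r → ‖t‖ ≤ r → (s, t) ∈ ball (0 : ℂ × ℂ) r₀ := by
    intro s t hs ht
    rw [mem_ball_zero_iff, Prod.norm_def]
    exact (max_le hs ht).trans_lt hrlt
  have hne : ∀ s t : ℂ, ‖s‖ ≤ r → ‖t‖ ≤ r → (s, t) ≠ (0 : ℂ × ℂ) → g (s, t) ≠ 0 := fun s t hs ht hst => (hr₀g _ (hmem s t hs ht)).1 hst
  have hcont : ContinuousOn g (ball (0 : ℂ × ℂ) r₀) := fun p hp => (hr₀g p hp).2.continuousAt.continuousWithinAt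
  -- a lower bound on the compact set
  have hcomp : IsCompact (closedBall (0 : ℂ) r ×ˢ sphere (0 : ℂ) r) := (isCompact_closedBall _ _).prod (isCompact_sphere _ _)
  have hnon : (closedBall (0 : ℂ) r ×ˢ sphere (0 : ℂ) r).Nonempty := by
    refine ⟨(0, (r : ℂ)), ?_, ?_⟩
    · exact mem_closedBall_self hr0.le
    · rw [mem_sphere_zero_iff_norm, Complex.norm_real, Real.norm_of_nonneg hr0.le]
  obtain ⟨p₀, hp₀, hp₀m⟩ := hcomp.exists_isMinOn hnon (f := fun p => ‖g p‖) (by
    refine (hcont.mono ?_).norm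
    rintro ⟨s, t⟩ ⟨hs, ht⟩
    exact hmem s t (by simpa using hs) (by rw [mem_sphere_zero_iff_norm] at ht; exact ht.le))
  obtain ⟨s₀, t₀⟩ := p₀
  set c : ℝ := ‖g (s₀, t₀)‖ with hc
  have ht₀ : ‖t₀‖ = r := by
    have := hp₀.2
    rwa [mem_sphere_zero_iff_norm] at this
  have hc0 : 0 < c := by
    rw [hc, norm_pos_iff]
    refine hne s₀ t₀ (by simpa using hp₀.1) ht₀.le ?_
    intro h
    have h1 : t₀ = 0 := congrArg Prod.snd h
    rw [h1, norm_zero] at ht₀
    exact hr0.ne ht₀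
  have hlow : ∀ s : ℂ, s ≠ 0 → ‖s‖ ≤ r → c ≤ ‖g (s, 0)‖ := by
    intro s hs0 hs
    have hga : ∀ t : ℂ, ‖t‖ ≤ r → DifferentiableAt ℂ (fun t => (g (s, t))⁻¹) t := by
      intro t ht
      have h1 : AnalyticAt ℂ g (s, t) := (hr₀g _ (hmem s t hs ht)).2
      have h2 : AnalyticAt ℂ (fun t : ℂ => g (s, t)) t := AnalyticAt.comp (g := g) (f := fun t : ℂ => (s, t)) h1 (analyticAt_const.prod analyticAt_id)
      refine h2.differentiableAt.inv (hne s t hs ht ?_)
      intro h
      exact hs0 (congrArg Prod.fst h)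
    have hd : DiffContOnCl ℂ (fun t => (g (s, t))⁻¹) (ball 0 r) := by
      refine DifferentiableOn.diffContOnCl ?_
      rw [closure_ball _ hr0.ne']
      intro t ht
      exact (hga t (by simpa using ht)).differentiableWithinAt
    have h3 := Complex.norm_le_of_forall_mem_frontier_norm_le isBounded_ball hd (C := c⁻¹) (fun t ht => by
      rw [frontier_ball _ hr0.ne', mem_sphere_zero_iff_norm] at ht
      rw [norm_inv]
      have h4 : c ≤ ‖g (s, t)‖ := hp₀m ⟨by simpa using hs, by rw [mem_sphere_zero_iff_norm]; exact ht⟩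
      gcongr) (subset_closure (mem_ball_self hr0))
    rw [norm_inv] at h3
    have h5 : 0 < ‖g (s, 0)‖ := norm_pos_iff.mpr (hne s 0 hs (by rw [norm_zero]; exact hr0.le) fun h => hs0 (congrArg Prod.fst h))
    exact (inv_le_inv₀ h5 hc0).mp h3
  -- the limit
  have h6 : Tendsto (fun s : ℂ => ‖g (s, 0)‖) (𝓝[≠] 0) (𝓝 0) := by
    have h7 : ContinuousAt (fun s : ℂ => ‖g (s, 0)‖) 0 := by
      have h8 : ContinuousAt (fun s : ℂ => (s, (0 : ℂ))) 0 := (continuous_id.prodMk continuous_const).continuousAt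
      exact (ContinuousAt.comp (g := g) (f := fun s : ℂ => (s, (0 : ℂ))) hg.continuousAt h8).norm
    have h9 := h7.tendsto
    have h10 : ‖g ((0 : ℂ), 0)‖ = 0 := by
      rw [show ((0 : ℂ), (0 : ℂ)) = (0 : ℂ × ℂ) from rfl, h0, norm_zero]
    rw [h10] at h9
    exact h9.mono_left nhdsWithin_le_nhds
  have h11 : ∀ᶠ s : ℂ in 𝓝[≠] 0, c ≤ ‖g (s, 0)‖ := by
    rw [eventually_nhdsWithin_iff]
    have h12 : ∀ᶠ s : ℂ in 𝓝 0, s ∈ ball (0 : ℂ) r := ball_mem_nhds _ hr0
    filter_upwards [h12] with s hs hs0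
    exact hlow s hs0 (by rw [mem_ball_zero_iff] at hs; exact hs.le)
  exact absurd (ge_of_tendsto h6 h11) (not_le.mpr hc0)

/-- the restriction of a function of two variables to an axis -/
theorem axis_dich {g : ℂ × ℂ → ℂ} (hg : AnalyticAt ℂ g 0) {γ : ℂ → ℂ × ℂ} (hγ : AnalyticAt ℂ γ 0) (h0 : γ 0 = 0) :
    (∀ᶠ t in 𝓝 (0 : ℂ), g (γ t) = 0) ∨ ∀ᶠ t in 𝓝 (0 : ℂ), t ≠ 0 → g (γ t) ≠ 0 := by
  have h1 : AnalyticAt ℂ (fun t => g (γ t)) 0 := AnalyticAt.comp (g := g) (f := γ) (by rw [h0]; exact hg) hγ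
  rcases h1.eventually_eq_zero_or_eventually_ne_zero with h | h
  · exact Or.inl h
  · exact Or.inr (eventually_nhdsWithin_iff.mp h)

theorem pairNodal_of_nodal {X K T : Set V} (hK : OpenPart X K) (hKT : ∀ x ∈ X, x ∉ K → x ∈ T) {x : V} (hx : x ∈ X) (hxT : x ∈ T) (hn : NodalAt X T x) :
    PairNodalAt X K T x := by
  obtain ⟨σ, τ, hc, hσ0, hcase⟩ := hn
  obtain ⟨h, hh, hhe⟩ := hK.eqn x hx
  set g : ℂ × ℂ → ℂ := fun p => h (σ p) with hgdef
  have hσt : Tendsto σ (𝓝 0) (𝓝 x) := by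
    have := hc.σ_an.continuousAt.tendsto
    rwa [hσ0] at this
  have hg : AnalyticAt ℂ g 0 := AnalyticAt.comp (g := h) (f := σ) (by rw [hσ0]; exact hh) hc.σ_an
  have hgK : ∀ᶠ p in 𝓝 (0 : ℂ × ℂ), (σ p ∉ K ↔ g p = 0) := by
    filter_upwards [hσt.eventually hhe, hc.σ_mem] with p h1 h2
    exact h1 h2
  have hgT : ∀ᶠ p in 𝓝 (0 : ℂ × ℂ), g p = 0 → σ p ∈ T := by
    filter_upwards [hgK, hc.σ_mem] with p h1 h2 h3
    exact hKT _ h2 (h1.mpr h3)
  have hA1 := axis_dich hg (γ := fun t => (0, t)) (analyticAt_const.prod analyticAt_id) rfl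
  have hA2 := axis_dich hg (γ := fun s => (s, 0)) (analyticAt_id.prod analyticAt_const) rfl
  have hsnd : Tendsto (fun p : ℂ × ℂ => p.2) (𝓝 0) (𝓝 0) := continuous_snd.tendsto 0
  have hfst : Tendsto (fun p : ℂ × ℂ => p.1) (𝓝 0) (𝓝 0) := continuous_fst.tendsto 0
  -- `g 0 = 0` and no zero near `0` except `0` is impossible
  have hiso : (∀ᶠ p in 𝓝 (0 : ℂ × ℂ), p ≠ 0 → g p ≠ 0) → g 0 ≠ 0 := by
    intro h1 h2
    obtain ⟨p, hp1, hp2⟩ := ((freq_zero hg h2).and_eventually (eventually_nhdsWithin_iff.mpr h1)).exists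
    exact hp2 hp1
  have hno : (∀ᶠ p in 𝓝 (0 : ℂ × ℂ), p ≠ 0 → g p ≠ 0) → ∀ᶠ p in 𝓝 (0 : ℂ × ℂ), σ p ∈ K := by
    intro h1
    have h2 := hiso h1
    filter_upwards [h1, hgK] with p h3 h4
    by_contra h5
    have h6 := h4.mp h5
    by_cases h7 : p = 0
    · rw [h7] at h6
      exact h2 h6
    · exact h3 h7 h6
  rcases hcase with h1 | h1 | h1
  · exact absurd (hσ0 ▸ hxT) h1.self_of_nhds
  · -- smooth
    have hTt : ∀ᶠ p in 𝓝 (0 : ℂ × ℂ), (σ p ∈ T ↔ p.1 = 0 ∨ (false = true ∧ p.2 = 0)) := by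
      filter_upwards [h1] with p hp
      rw [hp]
      simp
    rcases hA1 with h2 | h2
    · refine ⟨σ, τ, hc, hσ0, false, (true, false), hTt, ?_, by simp⟩
      filter_upwards [hgK, hgT, hsnd.eventually h2, h1] with p e1 e2 e3 e4
      rw [e1]
      constructor
      · intro e5
        exact Or.inl ⟨rfl, e4.mp (e2 e5)⟩
      · rintro (⟨-, e5⟩ | ⟨e5, -⟩)
        · have e6 : p = (0, p.2) := Prod.ext e5 rfl
          rw [e6]
          exact e3
        · simp at e5
    · refine ⟨σ, τ, hc, hσ0, false, (false, false), hTt, ?_, by simp⟩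
      have h3 : ∀ᶠ p in 𝓝 (0 : ℂ × ℂ), p ≠ 0 → g p ≠ 0 := by
        filter_upwards [hgT, hsnd.eventually h2, h1] with p e2 e3 e4 e5 e6
        have e7 : p.1 = 0 := e4.mp (e2 e6)
        have e8 : p = (0, p.2) := Prod.ext e7 rfl
        refine e3 ?_ (by rw [← e8]; exact e6)
        intro e9
        exact e5 (Prod.ext e7 e9)
      filter_upwards [hno h3] with p e1
      simp [e1]
  · -- node
    have hTt : ∀ᶠ p in 𝓝 (0 : ℂ × ℂ), (σ p ∈ T ↔ p.1 = 0 ∨ (true = true ∧ p.2 = 0)) := by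
      filter_upwards [h1] with p hp
      rw [hp]
      simp
    have hz : ∀ᶠ p in 𝓝 (0 : ℂ × ℂ), g p = 0 → p.1 = 0 ∨ p.2 = 0 := by
      filter_upwards [hgT, h1] with p e1 e2 e3
      have := e2.mp (e1 e3)
      simpa using this
    rcases hA1 with h2 | h2 <;> rcases hA2 with h3 | h3
    · refine ⟨σ, τ, hc, hσ0, true, (true, true), hTt, ?_, by simp⟩
      filter_upwards [hgK, hz, hsnd.eventually h2, hfst.eventually h3] with p e1 e2 e3 e4
      rw [e1]
      constructor
      · intro e5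
        rcases e2 e5 with e6 | e6
        · exact Or.inl ⟨rfl, e6⟩
        · exact Or.inr ⟨rfl, e6⟩
      · rintro (⟨-, e5⟩ | ⟨-, e5⟩)
        · have e6 : p = (0, p.2) := Prod.ext e5 rfl
          rw [e6]
          exact e3
        · have e6 : p = (p.1, 0) := Prod.ext rfl e5
          rw [e6]
          exact e4
    · refine ⟨σ, τ, hc, hσ0, true, (true, false), hTt, ?_, by simp⟩
      have h0 : g 0 = 0 := h2.self_of_nhds
      filter_upwards [hgK, hz, hsnd.eventually h2, hfst.eventually h3] with p e1 e2 e3 e4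
      rw [e1]
      constructor
      · intro e5
        rcases e2 e5 with e6 | e6
        · exact Or.inl ⟨rfl, e6⟩
        · by_cases e7 : p.1 = 0
          · exact Or.inl ⟨rfl, e7⟩
          · exfalso
            have e8 : p = (p.1, 0) := Prod.ext rfl e6
            exact e4 e7 (by rw [← e8]; exact e5)
      · rintro (⟨-, e5⟩ | ⟨e5, -⟩)
        · have e6 : p = (0, p.2) := Prod.ext e5 rfl
          rw [e6]
          exact e3
        · simp at e5
    · refine ⟨σ, τ, hc, hσ0, true, (false, true), hTt, ?_, by simp⟩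
      filter_upwards [hgK, hz, hsnd.eventually h2, hfst.eventually h3] with p e1 e2 e3 e4
      rw [e1]
      constructor
      · intro e5
        rcases e2 e5 with e6 | e6
        · by_cases e7 : p.2 = 0
          · exact Or.inr ⟨rfl, e7⟩
          · exfalso
            have e8 : p = (0, p.2) := Prod.ext e6 rfl
            exact e3 e7 (by rw [← e8]; exact e5)
        · exact Or.inr ⟨rfl, e6⟩
      · rintro (⟨e5, -⟩ | ⟨-, e5⟩)
        · simp at e5
        · have e6 : p = (p.1, 0) := Prod.ext rfl e5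
          rw [e6]
          exact e4
    · refine ⟨σ, τ, hc, hσ0, true, (false, false), hTt, ?_, by simp⟩
      have h4 : ∀ᶠ p in 𝓝 (0 : ℂ × ℂ), p ≠ 0 → g p ≠ 0 := by
        filter_upwards [hz, hsnd.eventually h2, hfst.eventually h3] with p e1 e2 e3 e4 e5
        rcases e1 e5 with e6 | e6
        · have e7 : p = (0, p.2) := Prod.ext e6 rfl
          refine e2 (fun e8 => e4 (Prod.ext e6 e8)) (by rw [← e7]; exact e5)
        · have e7 : p = (p.1, 0) := Prod.ext rfl e6
          refine e3 (fun e8 => e4 (Prod.ext e8 e6)) (by rw [← e7]; exact e5)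
      filter_upwards [hno h4] with p e1
      simp [e1]

end Pool.Agent.H36.BPL

end

section

/-!
# From the extension theorem for models to projective surfaces
-/

open Topology Filter MvPolynomial

noncomputable section

namespace Pool.Agent.H17BP

attribute [-instance] ProperSMul.toContinuousSMul

open Pool.Agent.H17 (PN VanishesAt ZariskiClosedIn HolomorphicInto puncturedDisc PseudoBrodyHyperbolic PseudoPicardHyperbolic)
open Pool.Agent.H62.FC (Homog)
open Pool.Agent.H17R (openVar)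

variable {N : ℕ} {P : Ideal (MvPolynomial (Fin (N + 1)) ℂ)}

/-- The affine cone of the projective variety, without the vertex. -/
def cone (P : Ideal (MvPolynomial (Fin (N + 1)) ℂ)) : Set (Fin (N + 1) → ℂ) :=
  {x | x ≠ 0 ∧ ∀ Q ∈ P, eval x Q = 0}

/-- The projective variety. -/
abbrev variety (P : Ideal (MvPolynomial (Fin (N + 1)) ℂ)) : Set (PN N) :=
  openVar P (Fin.elim0 : Fin 0 → MvPolynomial (Fin (N + 1)) ℂ)

theorem rep_mk_fin {x : Fin (N + 1) → ℂ} (hx : x ≠ 0) :
    ∃ a : ℂ, a ≠ 0 ∧ (Projectivization.mk ℂ x hx).rep = a • x := by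
  obtain ⟨a, ha⟩ := Projectivization.exists_smul_eq_mk_rep ℂ x hx
  exact ⟨a, a.ne_zero, by rw [← ha]; rfl⟩

theorem eval_smul_form {d : ℕ} {Q : MvPolynomial (Fin (N + 1)) ℂ} (hQ : Q.IsHomogeneous d) (c : ℂ)
    (x : Fin (N + 1) → ℂ) : eval (c • x) Q = c ^ d * eval x Q := by
  rw [MvPolynomial.eval_eq', MvPolynomial.eval_eq', Finset.mul_sum]
  apply Finset.sum_congr rfl
  intro m hm
  have hdeg : ∑ i, m i = d := by
    have := hQ (MvPolynomial.mem_support_iff.1 hm)
    rw [Finsupp.weight_apply] at this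
    simpa [Finsupp.sum_fintype] using this
  have h1 : ∏ i, (c • x) i ^ m i = c ^ d * ∏ i, x i ^ m i := by
    rw [← hdeg, ← Finset.prod_pow_eq_pow_sum, ← Finset.prod_mul_distrib]
    exact Finset.prod_congr rfl fun i _ => by simp [mul_pow]
  rw [h1]
  ring

theorem rep_mem_cone (hP : Homog P) {x : PN N} : x.rep ∈ cone P ↔ x ∈ variety P := by
  constructor
  · rintro ⟨-, h2⟩
    exact ⟨fun Q hQ n _ => h2 Q hQ, fun m => m.elim0⟩
  · rintro ⟨h1, -⟩
    refine ⟨x.rep_nonzero, fun Q hQ => ?_⟩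
    rw [← MvPolynomial.sum_homogeneousComponent Q, map_sum]
    exact Finset.sum_eq_zero fun i _ => h1 _ (hP Q hQ i) i (homogeneousComponent_isHomogeneous i Q)

theorem mk_mem_variety (hP : Homog P) {x : Fin (N + 1) → ℂ} (hx : x ≠ 0)
    (hX : ∀ x ∈ cone P, ∀ c : ℂ, c ≠ 0 → c • x ∈ cone P) :
    Projectivization.mk ℂ x hx ∈ variety P ↔ x ∈ cone P := by
  rw [← rep_mem_cone hP]
  obtain ⟨a, ha, h⟩ := rep_mk_fin hx
  rw [h]
  constructor
  · intro h1
    have h2 := hX _ h1 a⁻¹ (inv_ne_zero ha)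
    rwa [smul_smul, inv_mul_cancel₀ ha, one_smul] at h2
  · intro h1
    exact hX _ h1 a ha

theorem vanishesAt_mk {d : ℕ} {Q : MvPolynomial (Fin (N + 1)) ℂ} (hQ : Q.IsHomogeneous d)
    {x : Fin (N + 1) → ℂ} (hx : x ≠ 0) : VanishesAt Q (Projectivization.mk ℂ x hx) ↔ eval x Q = 0 := by
  obtain ⟨a, ha, h⟩ := rep_mk_fin hx
  unfold VanishesAt
  rw [h, eval_smul_form hQ, mul_eq_zero]
  exact ⟨fun h => h.resolve_left (pow_ne_zero _ ha), Or.inr⟩

theorem holP_rep {f : ℂ → PN N} {U : Set ℂ} (hf : HolomorphicInto f U) {z₀ : ℂ} (hz : z₀ ∈ U) :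
    HolP (fun z => (f z).rep) z₀ := by
  obtain ⟨φ, hφ, he⟩ := hf z₀ hz
  refine ⟨φ, hφ, he.self_of_nhds.1, ?_⟩
  filter_upwards [he] with z hz'
  obtain ⟨h1, h2⟩ := hz'
  obtain ⟨a, ha, h3⟩ := rep_mk_fin h1
  exact ⟨a, ha, by rw [h2, h3]⟩

theorem Pr.mk_eq {x y : Fin (N + 1) → ℂ} (h : Pr x y) (hx : x ≠ 0) (hy : y ≠ 0) :
    Projectivization.mk ℂ x hx = Projectivization.mk ℂ y hy := by
  obtain ⟨c, hc, h⟩ := h
  rw [Projectivization.mk_eq_mk_iff']
  exact ⟨c, h.symm⟩

end Pool.Agent.H17BP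

end
end

section

/-!
# The same exceptional set, for complements of hypersurface sections
-/

open Topology Filter MvPolynomial

noncomputable section

namespace Pool.Agent.H17BP

attribute [-instance] ProperSMul.toContinuousSMul

open Pool.Agent.H17 (PN VanishesAt ZariskiClosedIn HolomorphicInto puncturedDisc)
open Pool.Agent.H17LG.Variety (FunField)
open Pool.Agent.H62.FC (Homog)
open Pool.Agent.H17R (openVar)

variable {N : ℕ} {P I : Ideal (MvPolynomial (Fin (N + 1)) ℂ)} {b : ℕ} {H : Fin b → MvPolynomial (Fin (N + 1)) ℂ}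
  {e : Fin b → ℕ}

theorem cone_smul' (hP : Homog P) : ∀ x ∈ cone P, ∀ c : ℂ, c ≠ 0 → c • x ∈ cone P := by
  intro x hx c hc
  refine ⟨smul_ne_zero hc hx.1, fun Q hQ => ?_⟩
  rw [← MvPolynomial.sum_homogeneousComponent Q, map_sum]
  refine Finset.sum_eq_zero fun i _ => ?_
  rw [eval_smul_form (homogeneousComponent_isHomogeneous i Q), hx.2 _ (hP Q hQ i), mul_zero]

theorem cone_closed : ∀ x ∈ closure (cone P), x ≠ 0 → x ∈ cone P := by
  intro x hx h0
  refine ⟨h0, fun Q hQ => ?_⟩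
  have h1 : IsClosed {y : Fin (N + 1) → ℂ | eval y Q = 0} :=
    isClosed_eq (MvPolynomial.continuous_eval Q) continuous_const
  have h2 : cone P ⊆ {y : Fin (N + 1) → ℂ | eval y Q = 0} := fun y hy => hy.2 Q hQ
  exact h1.closure_subset_iff.2 h2 hx

/-- Extension of a holomorphic map from the punctured disc to the projective space. -/
theorem extend_of_picard {K B : Set (Fin (N + 1) → ℂ)} (hpic : Picard K B) {f : ℂ → PN N}
    (hf : HolomorphicInto f puncturedDisc) (hfK : ∀ z ∈ puncturedDisc, (f z).rep ∈ K)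
    (hfB : ∃ z ∈ puncturedDisc, (f z).rep ∉ B) :
    ∃ g : ℂ → PN N, HolomorphicInto g (Metric.ball 0 1) ∧ ∀ z ∈ puncturedDisc, g z = f z := by
  classical
  obtain ⟨z₁, hz₁, hz₁B⟩ := hfB
  have hball : ∀ z : ℂ, z ≠ 0 → ‖z‖ < 1 → z ∈ puncturedDisc := fun z h0 h1 => ⟨by simpa using h1, h0⟩
  have hball' : ∀ z ∈ puncturedDisc, z ≠ 0 ∧ ‖z‖ < 1 := fun z hz => ⟨hz.2, by simpa using hz.1⟩
  obtain ⟨F, hF, hF0, he⟩ := hpic 1 one_pos (fun z => (f z).rep)
    (fun z h0 h1 => ⟨holP_rep hf (hball z h0 h1), hfK z (hball z h0 h1)⟩)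
    ⟨z₁, (hball' z₁ hz₁).1, (hball' z₁ hz₁).2, hz₁B⟩
  refine ⟨fun z => if z = 0 then Projectivization.mk ℂ (F 0) hF0 else f z, ?_, ?_⟩
  · intro z₀ hz₀
    by_cases h0 : z₀ = 0
    · subst h0
      refine ⟨F, hF, ?_⟩
      rw [eventually_nhdsWithin_iff] at he
      filter_upwards [he, hF.continuousAt.eventually_ne hF0] with z h1 h2
      refine ⟨h2, ?_⟩
      by_cases h3 : z = 0
      · subst h3
        rw [if_pos rfl]
      · rw [if_neg h3, ← (h1 h3).mk_eq (f z).rep_nonzero h2, Projectivization.mk_rep]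
    · obtain ⟨φ, hφ, hφe⟩ := hf z₀ ⟨hz₀, h0⟩
      refine ⟨φ, hφ, ?_⟩
      filter_upwards [hφe, isOpen_compl_singleton.mem_nhds (show z₀ ∈ ({0} : Set ℂ)ᶜ from h0)] with z h1 h2
      obtain ⟨h3, h4⟩ := h1
      have h5 : z ≠ 0 := h2
      exact ⟨h3, by rw [if_neg h5, h4]⟩
  · intro z hz
    exact if_neg hz.2

end Pool.Agent.H17BP

end
end
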