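import Pool.Agent.H94.CB.M02
import Pool.Agent.H94.CB.M08

/-! The parts of this file: H92.GT.ProjPoint, H17R.Point. -/

section

/-!
# The generic point of a closed subvariety of projective space
-/

open MvPolynomial
open Pool.Agent.H17GT (coordFun functionField)

noncomputable section

namespace Pool.Agent.H92.GT.Proj

attribute [-instance] ProperSMul.toContinuousSMul

variable {N : ℕ}

lemma aeval_scale {K : Type} [Field K] [Algebra ℂ K] {G : MvPolynomial (Fin (N + 1)) ℂ} {n : ℕ}
    (hG : G.IsHomogeneous n) (c : K) (x : Fin (N + 1) → K) :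
    aeval (fun i => c * x i) G = c ^ n * aeval x G := by
  rw [aeval_def, aeval_def, eval₂_eq, eval₂_eq, Finset.mul_sum]
  refine Finset.sum_congr rfl fun m hm => ?_
  have h5 : ∑ i ∈ m.support, m i = n := by
    have := hG (mem_support_iff.1 hm)
    rw [Finsupp.weight_apply, Finsupp.sum] at this
    simpa using this
  simp only [mul_pow, Finset.prod_mul_distrib]
  rw [Finset.prod_pow_eq_pow_sum, h5]
  ring

lemma aeval_coordFun_eq_zero_iff (P : Ideal (MvPolynomial (Fin (N + 1)) ℂ)) [P.IsPrime]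
    (G : MvPolynomial (Fin (N + 1)) ℂ) : aeval (coordFun P) G = 0 ↔ G ∈ P := by
  have h7 : aeval (coordFun P) G =
      algebraMap (MvPolynomial (Fin (N + 1)) ℂ ⧸ P)
        (FractionRing (MvPolynomial (Fin (N + 1)) ℂ ⧸ P)) (Ideal.Quotient.mk P G) := by
    have h8 : (aeval (coordFun P) : MvPolynomial (Fin (N + 1)) ℂ →ₐ[ℂ] _) =
        (IsScalarTower.toAlgHom ℂ (MvPolynomial (Fin (N + 1)) ℂ ⧸ P)
          (FractionRing (MvPolynomial (Fin (N + 1)) ℂ ⧸ P))).comp (Ideal.Quotient.mkₐ ℂ P) := by
      apply MvPolynomial.algHom_ext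
      intro i
      rw [aeval_X]
      rfl
    rw [h8]
    rfl
  rw [h7, ← Ideal.Quotient.eq_zero_iff_mem]
  exact map_eq_zero_iff _ (IsFractionRing.injective (MvPolynomial (Fin (N + 1)) ℂ ⧸ P)
    (FractionRing (MvPolynomial (Fin (N + 1)) ℂ ⧸ P)))

/-- The generic point, normalised at a coordinate. -/
theorem proj_point (P : Ideal (MvPolynomial (Fin (N + 1)) ℂ)) [P.IsPrime] {j₀ : Fin (N + 1)}
    (hj₀ : coordFun P j₀ ≠ 0) :
    ∃ x : Fin (N + 1) → functionField P, x j₀ = 1 ∧
      IntermediateField.adjoin ℂ (Set.range x) = ⊤ ∧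
      ∀ (n : ℕ) (G : MvPolynomial (Fin (N + 1)) ℂ), G.IsHomogeneous n →
        (aeval x G = 0 ↔ G ∈ P) := by
  classical
  have hmem : ∀ i, coordFun P i / coordFun P j₀ ∈ functionField P := fun i =>
    IntermediateField.subset_adjoin _ _ ⟨i, j₀, rfl⟩
  set x : Fin (N + 1) → functionField P := fun i => ⟨coordFun P i / coordFun P j₀, hmem i⟩ with hx
  have hx1 : x j₀ = 1 := by
    apply Subtype.ext
    rw [hx]
    exact div_self hj₀
  have hratio : ∀ i j, ((x i / x j : functionField P) :
      FractionRing (MvPolynomial (Fin (N + 1)) ℂ ⧸ P)) = coordFun P i / coordFun P j := by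
    intro i j
    have h1 : ((x i / x j : functionField P) :
      FractionRing (MvPolynomial (Fin (N + 1)) ℂ ⧸ P)) =
        (coordFun P i / coordFun P j₀) / (coordFun P j / coordFun P j₀) := by
      rw [hx]
      rfl
    rw [h1, div_div_div_cancel_right₀ hj₀]
  have hgen : IntermediateField.adjoin ℂ {y | ∃ i j, y = x i / x j} = ⊤ := by
    rw [← IntermediateField.lift_inj, IntermediateField.lift_adjoin, IntermediateField.lift_top]
    conv_rhs => rw [functionField]
    congr 1
    ext y
    constructor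
    · rintro ⟨y', ⟨i, j, rfl⟩, rfl⟩
      exact ⟨i, j, hratio i j⟩
    · rintro ⟨i, j, rfl⟩
      exact ⟨x i / x j, ⟨i, j, rfl⟩, hratio i j⟩
  refine ⟨x, hx1, ?_, ?_⟩
  · rw [eq_top_iff, ← hgen, IntermediateField.adjoin_le_iff]
    rintro y ⟨i, j, rfl⟩
    exact div_mem (IntermediateField.subset_adjoin _ _ ⟨i, rfl⟩)
      (IntermediateField.subset_adjoin _ _ ⟨j, rfl⟩)
  · intro n G hG
    have h1 : ((aeval x G : functionField P) : FractionRing (MvPolynomial (Fin (N + 1)) ℂ ⧸ P)) =
        aeval (fun i => (coordFun P j₀)⁻¹ * coordFun P i) G := by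
      have h3 : ((functionField P).val (aeval x G)) =
          aeval (fun i => (functionField P).val (x i)) G := by
        rw [← MvPolynomial.comp_aeval]
        rfl
      change (functionField P).val (aeval x G) = _
      rw [h3]
      congr 2
      funext i
      change coordFun P i / coordFun P j₀ = _
      rw [div_eq_inv_mul]
    rw [aeval_scale hG] at h1
    rw [← aeval_coordFun_eq_zero_iff]
    constructor
    · intro h0
      rw [h0] at h1
      exact (mul_eq_zero.1 h1.symm).resolve_left (pow_ne_zero _ (inv_ne_zero hj₀))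
    · intro h0
      apply Subtype.ext
      rw [h1, h0, mul_zero]
      rfl

/-- Some coordinate does not vanish. -/
lemma exists_coordFun_ne_zero (P : Ideal (MvPolynomial (Fin (N + 1)) ℂ)) [P.IsPrime] {k : ℕ}
    (z : Fin (k + 1) → functionField P) (hz : IsTranscendenceBasis ℂ z) :
    ∃ j, coordFun P j ≠ 0 := by
  by_contra hcon
  push Not at hcon
  have h1 : functionField P = ⊥ := by
    rw [functionField, IntermediateField.adjoin_eq_bot_iff]
    rintro y ⟨i, j, rfl⟩
    rw [hcon i, zero_div]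
    exact zero_mem _
  have h2 := hz.1.transcendental 0
  apply h2
  have h3 : ((z 0 : functionField P) : FractionRing (MvPolynomial (Fin (N + 1)) ℂ ⧸ P)) ∈
      (⊥ : IntermediateField ℂ (FractionRing (MvPolynomial (Fin (N + 1)) ℂ ⧸ P))) := by
    rw [← h1]
    exact (z 0).2
  obtain ⟨a, ha⟩ := IntermediateField.mem_bot.1 h3
  have h4 : z 0 = algebraMap ℂ (functionField P) a := by
    apply Subtype.ext
    rw [← ha]
    rfl
  rw [h4]
  exact isAlgebraic_algebraMap a

end Pool.Agent.H92.GT.Proj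

end
end

section

/-!
# The generic point and the centre of a prime divisor

The generic point of the variety given by `P` in the affine coordinates `x i / x i₀` is
`fun i => ratio P i i₀`.

PROOFS.  `ratio_point`: as `Pool.Agent.H92.GT.Proj.proj_point` (the point constructed there is
`fun i => ratio P i i₀`).
`ratio_change`: `ratio P i i₀ = ratio P i₁ i₀ * ratio P i i₁`, then `aeval_scale`.
`exists_center`: among the `i` with `ratio P i i₀ ≠ 0` choose `i₁` with `E.ord (ratio P i i₀)`
minimal.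
`ord_forms`: `X i₁ ^ n ≡ ∑ j, c j * A j` modulo `P` (`exists_degree_bound`), evaluate at
`ratio P · i₁` (`ratio P i₁ i₁ = 1`): `1 = ∑ j, c j (..) * A j (..)`; if all `A j (..)` had positive
order then `0 = ord 1 > 0`.
-/

open MvPolynomial
open Pool.Agent.H17GT (coordFun functionField)
open Pool.Agent.H17LG.Variety (FunField ratio)
open Pool.Agent.H23.Fano (PrimeDivisorOver)

noncomputable section

namespace Pool.Agent.H17R

attribute [-instance] ProperSMul.toContinuousSMul

variable {N : ℕ} {P : Ideal (MvPolynomial (Fin (N + 1)) ℂ)}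

/-- The value of `Q` at the generic point, in the affine coordinates `x i / x i₀`. -/
def gen (P : Ideal (MvPolynomial (Fin (N + 1)) ℂ)) [P.IsPrime] (i₀ : Fin (N + 1))
    (Q : MvPolynomial (Fin (N + 1)) ℂ) : FunField P :=
  aeval (fun i => ratio P i i₀) Q

theorem ratio_self [P.IsPrime] {i₀ : Fin (N + 1)} (h : coordFun P i₀ ≠ 0) : ratio P i₀ i₀ = 1 := by
  apply Subtype.ext
  exact div_self h

theorem adjoin_ratio [P.IsPrime] {i₀ : Fin (N + 1)} (h : coordFun P i₀ ≠ 0) :
    IntermediateField.adjoin ℂ (Set.range fun i => ratio P i i₀) = ⊤ := by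
  classical
  set x : Fin (N + 1) → functionField P := fun i => ratio P i i₀ with hx
  have hratio : ∀ i j, ((x i / x j : functionField P) :
      FractionRing (MvPolynomial (Fin (N + 1)) ℂ ⧸ P)) = coordFun P i / coordFun P j := by
    intro i j
    have h1 : ((x i / x j : functionField P) :
      FractionRing (MvPolynomial (Fin (N + 1)) ℂ ⧸ P)) =
        (coordFun P i / coordFun P i₀) / (coordFun P j / coordFun P i₀) := by
      rw [hx]
      rfl
    rw [h1, div_div_div_cancel_right₀ h]
  have hgen : IntermediateField.adjoin ℂ {y | ∃ i j, y = x i / x j} = ⊤ := by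
    rw [← IntermediateField.lift_inj, IntermediateField.lift_adjoin, IntermediateField.lift_top]
    conv_rhs => rw [functionField]
    congr 1
    ext y
    constructor
    · rintro ⟨y', ⟨i, j, rfl⟩, rfl⟩
      exact ⟨i, j, hratio i j⟩
    · rintro ⟨i, j, rfl⟩
      exact ⟨x i / x j, ⟨i, j, rfl⟩, hratio i j⟩
  change IntermediateField.adjoin ℂ (Set.range x) = ⊤
  rw [eq_top_iff, ← hgen, IntermediateField.adjoin_le_iff]
  rintro y ⟨i, j, rfl⟩
  exact div_mem (IntermediateField.subset_adjoin _ _ ⟨i, rfl⟩)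
    (IntermediateField.subset_adjoin _ _ ⟨j, rfl⟩)

theorem gen_eq_zero_iff [P.IsPrime] {i₀ : Fin (N + 1)} (h : coordFun P i₀ ≠ 0) {n : ℕ}
    {Q : MvPolynomial (Fin (N + 1)) ℂ} (hQ : Q.IsHomogeneous n) : gen P i₀ Q = 0 ↔ Q ∈ P := by
  set x : Fin (N + 1) → functionField P := fun i => ratio P i i₀ with hx
  have h0 : gen P i₀ Q = (aeval x Q : functionField P) := rfl
  have h1 : ((aeval x Q : functionField P) : FractionRing (MvPolynomial (Fin (N + 1)) ℂ ⧸ P)) =
      aeval (fun i => (coordFun P i₀)⁻¹ * coordFun P i) Q := by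
    have h3 : ((functionField P).val (aeval x Q)) =
        aeval (fun i => (functionField P).val (x i)) Q := by
      rw [← MvPolynomial.comp_aeval]
      rfl
    change (functionField P).val (aeval x Q) = _
    rw [h3]
    congr 2
    funext i
    change coordFun P i / coordFun P i₀ = _
    rw [div_eq_inv_mul]
  rw [Pool.Agent.H92.GT.Proj.aeval_scale hQ] at h1
  rw [← Pool.Agent.H92.GT.Proj.aeval_coordFun_eq_zero_iff, h0]
  constructor
  · intro h2
    have h3 : ((aeval x Q : functionField P) :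
        FractionRing (MvPolynomial (Fin (N + 1)) ℂ ⧸ P)) = 0 := by
      rw [show (aeval x Q : functionField P) = 0 from h2]
      rfl
    rw [h3] at h1
    exact (mul_eq_zero.1 h1.symm).resolve_left (pow_ne_zero _ (inv_ne_zero h))
  · intro h2
    apply Subtype.ext
    rw [h1, h2, mul_zero]
    rfl

theorem ratio_ne_zero_iff [P.IsPrime] {i i₀ : Fin (N + 1)} (h : coordFun P i₀ ≠ 0) :
    ratio P i i₀ ≠ 0 ↔ coordFun P i ≠ 0 := by
  have h1 : ratio P i i₀ = 0 ↔ coordFun P i / coordFun P i₀ = 0 :=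
    ⟨fun h2 => congrArg Subtype.val h2, fun h2 => Subtype.ext h2⟩
  rw [Ne, h1, div_eq_zero_iff, not_or]
  exact ⟨fun h2 => h2.1, fun h2 => ⟨h2, h⟩⟩

private theorem ratio_change [P.IsPrime] {i i₀ i₁ : Fin (N + 1)} (h₁ : coordFun P i₁ ≠ 0) :
    ratio P i i₀ = ratio P i₁ i₀ * ratio P i i₁ := by
  apply Subtype.ext
  change coordFun P i / coordFun P i₀ =
    coordFun P i₁ / coordFun P i₀ * (coordFun P i / coordFun P i₁)
  rw [div_mul_div_comm, mul_comm (coordFun P i₁) (coordFun P i), mul_div_mul_right _ _ h₁]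

theorem gen_change [P.IsPrime] {i₀ i₁ : Fin (N + 1)} (h₁ : coordFun P i₁ ≠ 0) {n : ℕ}
    {Q : MvPolynomial (Fin (N + 1)) ℂ} (hQ : Q.IsHomogeneous n) :
    gen P i₀ Q = ratio P i₁ i₀ ^ n * gen P i₁ Q := by
  unfold gen
  rw [← Pool.Agent.H92.GT.Proj.aeval_scale hQ]
  congr 2
  funext i
  exact ratio_change h₁

theorem coordFun_ne_zero_iff [P.IsPrime] {i : Fin (N + 1)} : coordFun P i ≠ 0 ↔ X i ∉ P := by
  rw [Ne, not_iff_not, ← Pool.Agent.H92.GT.Proj.aeval_coordFun_eq_zero_iff, aeval_X]

theorem exists_center [P.IsPrime] {w : ℕ} (E : PrimeDivisorOver (FunField P) w)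
    {i₀ : Fin (N + 1)} (h : coordFun P i₀ ≠ 0) :
    ∃ i₁, coordFun P i₁ ≠ 0 ∧ ∀ i, 0 ≤ E.ord (ratio P i i₁) := by
  obtain ⟨i₁, -, h1⟩ := Finset.exists_min_image Finset.univ (fun i => E.ord (ratio P i i₀))
    Finset.univ_nonempty
  have h2 : E.ord (ratio P i₁ i₀) ≤ 0 := by
    have h3 := h1 i₀ (Finset.mem_univ _)
    rwa [ratio_self h, E.ord.map_one] at h3
  have h3 : E.ord (ratio P i₁ i₀) ≠ ⊤ := ne_top_of_le_ne_top WithTop.zero_ne_top h2
  have h4 : coordFun P i₁ ≠ 0 := by
    rw [← ratio_ne_zero_iff h]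
    intro h5
    rw [h5, E.ord.map_zero] at h3
    exact h3 rfl
  refine ⟨i₁, h4, fun i => ?_⟩
  have h5 := h1 i (Finset.mem_univ _)
  rw [ratio_change (i := i) h4, E.ord.map_mul] at h5
  exact (WithTop.add_le_add_iff_left h3).1 (by rwa [add_zero])

/-- The forms have non-negative orders at the centre. -/
theorem ord_gen_nonneg [P.IsPrime] {w : ℕ} (E : PrimeDivisorOver (FunField P) w)
    {i₁ : Fin (N + 1)} (h : ∀ i, 0 ≤ E.ord (ratio P i i₁)) (Q : MvPolynomial (Fin (N + 1)) ℂ) :
    0 ≤ E.ord (gen P i₁ Q) := by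
  unfold gen
  induction Q using MvPolynomial.induction_on with
  | C a =>
    rw [aeval_C]
    exact E.ord_const a
  | add p q hp hq =>
    rw [map_add]
    exact (le_min hp hq).trans (E.ord.map_add _ _)
  | mul_X p i hp =>
    rw [map_mul, aeval_X, E.ord.map_mul]
    exact add_nonneg hp (h i)

end Pool.Agent.H17R

end
end
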