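import Pool.Agent.H94.CB.EG.LE.SeamA
import Pool.Agent.H94.CB.H36.LB.PNDefs
import Pool.Agent.H94.CB.M189
import Pool.Agent.H94.CB.M208
import Pool.Agent.H94.CB.M209
import Pool.Agent.H94.CB.M64
import Pool.Agent.H94.CB.M93

/-! The parts of this file: EG.LE.Seam, EG.LE.CellC, H13.LU.Grow, H13.LU.PhCore. -/

section

/-!
# EG LE Seam: the seam of the end and the middle part
-/

set_option autoImplicit false

open Topology Filter Metric Set

namespace Pool.Agent.EG.LE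

attribute [-instance] ProperSMul.toContinuousSMul

open Pool.Agent.H36.BP (EN fs wd)
open Pool.Agent.H14.PP (IsCone Tan jac)
open Pool.Agent.H62.EF (MN pr)
open Pool.Agent.H62.EL (TForm)
open Pool.Agent.EG.RL (rot Cen Model Bphi)

variable {N : ℕ} {Xb V U D : Set (EN N)} {Λ : AddSubgroup ℂ} {u : EN N → ℂ} {α : TForm V Λ u} {κ : Type}

/-- the integral of the density is the difference of the primitives -/
theorem seam_int (h : EndData Xb V U D Λ u α) (F : LFam Xb V U D α κ) {M : Model (Ix F) (MN N)} (hM : M.toAtl = F.atl) (x : Ix F)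
    {t w₀ w₁ : ℂ} (ht : ‖Complex.exp t‖ < M.ρ) (hX : ∀ θ ∈ Icc (0 : ℝ) 1, F.XX x t (w₀ + θ * (w₁ - w₀)) ∈ ball (0 : ℂ × ℂ) 2) :
    (∫ θ in (0 : ℝ)..1, (w₁ - w₀) * cf α (fun q : ℂ × ℂ => F.Phi x q.1 q.2) t (t, w₀ + θ * (w₁ - w₀))) = F.PP x t w₁ - F.PP x t w₀ := by
  have hk := k_mu F x
  rw [← hM] at hk
  have hder : ∀ θ ∈ Icc (0 : ℝ) 1, HasDerivAt (fun θ : ℝ => F.PP x t (w₀ + θ * (w₁ - w₀)))
      ((w₁ - w₀) * F.phi x t (w₀ + θ * (w₁ - w₀))) θ := by
    intro θ hθ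
    have h1 : M.X x (F.ch x).κ⁻¹ t (w₀ + θ * (w₁ - w₀)) ∈ ball (0 : ℂ × ℂ) 2 := by
      rw [hM]
      exact hX θ hθ
    have h2 := Pool.Agent.EG.RL.P_deriv M hk ht h1
    rw [hM] at h2
    have h3 : HasDerivAt (fun θ : ℝ => w₀ + (θ : ℂ) * (w₁ - w₀)) (w₁ - w₀) θ := by
      have h4 : HasDerivAt (fun θ : ℝ => (θ : ℂ)) 1 θ := Complex.ofRealCLM.hasDerivAt
      have h5 := (h4.mul_const (w₁ - w₀)).const_add w₀
      rwa [one_mul] at h5
    have h6 := HasDerivAt.comp (𝕜 := ℝ) (𝕜' := ℂ) (h := fun θ : ℝ => w₀ + (θ : ℂ) * (w₁ - w₀)) θ h2 h3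
    have h7 : F.atl.phi x (F.ch x).κ⁻¹ t (w₀ + θ * (w₁ - w₀)) * (w₁ - w₀) = (w₁ - w₀) * F.phi x t (w₀ + θ * (w₁ - w₀)) := by
      rw [mul_comm]
      rfl
    rw [h7] at h6
    exact h6
  have hcont : ContinuousOn (fun θ : ℝ => (w₁ - w₀) * F.phi x t (w₀ + θ * (w₁ - w₀))) (Icc 0 1) := by
    intro θ hθ
    have h1 : M.X x (F.ch x).κ⁻¹ (t, w₀ + (θ : ℂ) * (w₁ - w₀)).1 (t, w₀ + (θ : ℂ) * (w₁ - w₀)).2 ∈ ball (0 : ℂ × ℂ) 2 := by
      rw [hM]
      exact hX θ hθ
    have h2 := (Pool.Agent.EG.RL.phi_an M hk h1).continuousAt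
    rw [hM] at h2
    have h3 : ContinuousAt (fun θ : ℝ => ((t, w₀ + (θ : ℂ) * (w₁ - w₀)) : ℂ × ℂ)) θ := by fun_prop
    have h4 : ContinuousAt (fun θ : ℝ => F.phi x t (w₀ + θ * (w₁ - w₀))) θ :=
      ContinuousAt.comp (g := fun p : ℂ × ℂ => F.atl.phi x (F.ch x).κ⁻¹ p.1 p.2) (f := fun θ : ℝ => ((t, w₀ + (θ : ℂ) * (w₁ - w₀)) : ℂ × ℂ)) h2 h3
    exact (continuousAt_const.mul h4).continuousWithinAt
  have h1 : (∫ θ in (0 : ℝ)..1, (w₁ - w₀) * cf α (fun q : ℂ × ℂ => F.Phi x q.1 q.2) t (t, w₀ + θ * (w₁ - w₀))) =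
      ∫ θ in (0 : ℝ)..1, (w₁ - w₀) * F.phi x t (w₀ + θ * (w₁ - w₀)) := by
    refine intervalIntegral.integral_congr fun θ hθ => ?_
    rw [uIcc_of_le zero_le_one] at hθ
    show (w₁ - w₀) * _ = (w₁ - w₀) * _
    rw [cf_cell h F x (hX θ hθ)]
  rw [h1, intervalIntegral.integral_eq_sub_of_hasDerivAt (f := fun θ : ℝ => F.PP x t (w₀ + θ * (w₁ - w₀)))]
  · simp only [Complex.ofReal_one, one_mul, add_sub_cancel, Complex.ofReal_zero, zero_mul, add_zero]
  · intro θ hθ
    rw [uIcc_of_le zero_le_one] at hθ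
    exact hder θ hθ
  · exact (hcont.mono (by rw [uIcc_of_le zero_le_one])).intervalIntegrable

theorem seam (h : EndData Xb V U D Λ u α) (F : LFam Xb V U D α κ) {M : Model (Ix F) (MN N)} (hM : M.toAtl = F.atl)
    {II : ℂ → MN N → MN N → ℂ} {T₁ r₂ : ℝ} (hII : HasII U α II r₂ (-T₁ - 10) (-T₁)) (hA : Away V U Λ u T₁ r₂) (hρ : Real.exp (-T₁) < M.ρ) :
    ∃ ε' : ℝ, 0 < ε' ∧ ∀ (t₁ : ℂ) (x : Ix F) (w : ℂ → ℂ) (f g : ℂ → EN N) (r₁ : ℝ), r₂ + 4 ≤ r₁ → 4 ≤ r₁ → -T₁ - 6 ≤ t₁.re → t₁.re ≤ -T₁ - 4 →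
      SecOn U Λ u (ball t₁ r₁) f → SecOn U Λ u (ball t₁ r₁) g → DifferentiableOn ℂ w (ball t₁ 4) →
      (∀ t ∈ ball t₁ 4, CenS (F.XX x t (w t)) ∧ pr (f t) = pr (F.Phi x t (w t))) → (∀ t ∈ ball t₁ 4, dist (pr (f t)) (pr (g t)) ≤ ε') →
      ∃ w' : ℂ → ℂ, DifferentiableOn ℂ w' (ball t₁ 4) ∧ ∀ t ∈ ball t₁ 4, Cen (F.XX x t (w' t)) ∧ pr (g t) = pr (F.Phi x t (w' t)) ∧
        ‖w' t‖ ≤ ‖w t‖ + 1 ∧ II t (pr (f t)) (pr (g t)) = F.PP x t (w' t) - F.PP x t (w t) := by
  obtain ⟨ε₁, hε₁, hII⟩ := hII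
  obtain ⟨𝒦, hK, hKV, hA⟩ := hA
  obtain ⟨c₀, hc₀, hlow⟩ := away_low h F hK hKV
  obtain ⟨ε', hε', hpt⟩ := seam_pt h F hc₀ hε₁
  refine ⟨ε', hε', fun t₁ x w f g r₁ hr hr4 ht1 ht2 hf hg hw hfw hd => ?_⟩
  have hre : ∀ t ∈ ball t₁ 4, -T₁ - 10 ≤ t.re ∧ t.re ≤ -T₁ := fun t ht => by
    rw [mem_ball, dist_eq_norm] at ht
    have h1 := (Complex.abs_re_le_norm (t - t₁)).trans_lt ht
    rw [Complex.sub_re, abs_lt] at h1
    exact ⟨by linarith [h1.1], by linarith [h1.2]⟩
  have hball : ∀ t ∈ ball t₁ 4, ball t r₂ ⊆ ball t₁ r₁ := fun t ht => by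
    rw [mem_ball] at ht
    exact ball_subset_ball' (by linarith)
  have hmem : ∀ t ∈ ball t₁ 4, t ∈ ball t₁ r₁ := fun t ht => ball_subset_ball hr4 ht
  have hsec : ∀ t ∈ ball t₁ 4, ∀ f' : ℂ → EN N, SecOn U Λ u (ball t₁ r₁) f' → pr (f' t) ∈ 𝒦 := fun t ht f' hf' =>
    hA t f' (hre t ht).1 (hre t ht).2 ⟨hf'.1.mono (hball t ht), fun s hs => hf'.2 s (hball t ht hs)⟩
  have key : ∀ t ∈ ball t₁ 4, _ := fun t ht => hpt x t (w t) (g t) (hfw t ht).1 (fun hex => by
    refine hlow x _ hex ?_ ?_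
    · rw [mem_closedBall_zero_iff, Prod.norm_def, max_le_iff]
      exact ⟨by linarith [(hfw t ht).1.1], by linarith [(hfw t ht).1.2]⟩
    · have h1 := hsec t ht f hf
      rw [(hfw t ht).2] at h1
      exact h1) (h.U_sub (hg.2 t (hmem t ht)).1) (hg.2 t (hmem t ht)).2 (by
    rw [← (hfw t ht).2]
    exact hd t ht)
  refine ⟨fun t => F.nx x (w t) (g t), ?_, fun t ht => ?_⟩
  · intro t ht
    have hgd : DifferentiableAt ℂ g t := (hg.1.mono (ball_subset_ball hr4)).differentiableAt (isOpen_ball.mem_nhds ht)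
    have hwd : DifferentiableAt ℂ w t := hw.differentiableAt (isOpen_ball.mem_nhds ht)
    have hq : DifferentiableAt ℂ (fun t => (F.ch x).q (g t)) t :=
      DifferentiableAt.fun_comp' t ((F.ch x).q_an _ (key t ht).1).differentiableAt hgd
    have hq2 : DifferentiableAt ℂ (fun t => (swp x.1.2 ((F.ch x).q (g t))).2) t := by
      unfold swp
      by_cases hs : x.1.2 = true
      · simp only [hs, if_true]
        exact hq.fst
      · have hs' : x.1.2 = false := by simpa using hs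
        simp only [hs', Bool.false_eq_true, if_false]
        exact hq.snd
    refine DifferentiableAt.differentiableWithinAt ?_
    unfold LFam.nx
    by_cases hex : (F.ch x).ex = true
    · simp only [hex, if_true]
      have h1 := (key t ht).2.1 hex
      have h2 : (swp x.1.2 ((F.ch x).q (g t))).2 / Complex.exp ((F.ch x).k * w t) ∈ Complex.slitPlane := by
        left
        have h3 := (Complex.abs_re_le_norm _).trans_lt h1
        rw [Complex.sub_re, Complex.one_re, abs_lt] at h3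
        linarith [h3.1]
      have h4 : DifferentiableAt ℂ (fun t => (swp x.1.2 ((F.ch x).q (g t))).2 / Complex.exp ((F.ch x).k * w t)) t :=
        hq2.div ((hwd.const_mul _).cexp) (Complex.exp_ne_zero _)
      exact hwd.add ((h4.clog h2).div_const _)
    · simp only [hex, Bool.false_eq_true, if_false]
      exact hq2
  · obtain ⟨_, _, h3, ⟨a, ha, hya⟩, h5, h6⟩ := key t ht
    have hpr : pr (g t) = pr (F.Phi x t (F.nx x (w t) (g t))) := (congrArg pr hya).trans (Pool.Agent.H62.EF.pr_smul _ ha)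
    refine ⟨h3, hpr, h5, ?_⟩
    have ht' : ‖Complex.exp t‖ < M.ρ := by
      rw [Complex.norm_exp]
      exact (Real.exp_le_exp.2 (hre t ht).2).trans_lt hρ
    have h7 := hII t (w t) (F.nx x (w t) (g t)) (fun q : ℂ × ℂ => F.Phi x q.1 q.2) f g (hre t ht).1 (hre t ht).2
      ⟨hf.1.mono (hball t ht), fun s hs => hf.2 s (hball t ht hs)⟩ ⟨hg.1.mono (hball t ht), fun s hs => hg.2 s (hball t ht hs)⟩ (hfw t ht).2 hpr
      (fun θ hθ => ⟨Phi_an h F x (q := (t, w t + θ * (F.nx x (w t) (g t) - w t))) (h6 θ hθ).1,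
        Phi_V_ev h F x (q₀ := (t, w t + θ * (F.nx x (w t) (g t) - w t))) (h6 θ hθ).1⟩)
      (fun θ hθ => (h6 θ hθ).2)
    rw [seam_int h F hM x ht' fun θ hθ => (h6 θ hθ).1] at h7
    rw [(hfw t ht).2, hpr]
    exact h7

end Pool.Agent.EG.LE

end

section

/-!
# EG LE CellC: a section is in one chart over large balls in the end

Proof (helper41):
Suppose not: for every n there are z n with Re (z n) ≤ - 2 n - 2 - X0 and F n, SecOn on ball (z n) (n + R + 2), such that no x works on ball (z n) R.  der_bound: fs ≤ L on ball (z n) n.  lim_const for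
ζ ↦ F n (z n + ζ) (ρ n = n): x0 in D, pr (F n (z n + ζ)) -> pr x0, uniformly on closedBall 0 R (lim_unif).  F.cov x0: x0 = a • (c i).s p with CenS p (x := (i, false)) or b = 1 and CenS p.swap (x := (i, true)).
{p | CenS p} is open: pt_open for A := {p | CenS (swp sw p)} ∩ ball 0 3: all y in Xb near x0 are in Pt A; in terms of pr: there is ε > 0 such that y in Xb, dist (pr y) (pr x0) < ε imply Pt A y
(pr y near pr x0 implies that a multiple of y is near x0; pt_smul; continuity / openness of pr: by contradiction with a compactness argument on the sphere, or Pool.Agent.H62.EF lemmas on pr).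
So for 𝒰-almost all n the index x works on ball (z n) R: contradiction.
pt_pr_nhds: the statement on pr neighbourhoods used above.
-/

set_option autoImplicit false

open Topology Filter Metric Set

namespace Pool.Agent.EG.LE

attribute [-instance] ProperSMul.toContinuousSMul

open Pool.Agent.H36.BP (EN fs wd)
open Pool.Agent.H14.PP (IsCone Tan jac)
open Pool.Agent.H62.EF (MN pr)
open Pool.Agent.H62.EL (TForm)

variable {N : ℕ} {Xb V U D : Set (EN N)} {Λ : AddSubgroup ℂ} {u : EN N → ℂ} {α : TForm V Λ u} {κ : Type}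

private theorem cellC_cenS_ball {p : ℂ × ℂ} (hp : CenS p) : p ∈ ball (0 : ℂ × ℂ) 3 := by
  rw [mem_ball_zero_iff, Prod.norm_def, max_lt_iff]
  exact ⟨by linarith [hp.1], by linarith [hp.2]⟩

private theorem cellC_isOpen_cenS : IsOpen {p : ℂ × ℂ | CenS p} := by
  have h1 : IsOpen {p : ℂ × ℂ | ‖p.1‖ < 3 / 8} := isOpen_lt continuous_fst.norm continuous_const
  have h2 : IsOpen {p : ℂ × ℂ | ‖p.2‖ < 7 / 8} := isOpen_lt continuous_snd.norm continuous_const
  exact h1.inter h2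

theorem pt_pr_nhds (h : EndData Xb V U D Λ u α) (c : LCh Xb V U α) {A : Set (ℂ × ℂ)} (hA : IsOpen A) (hA3 : A ⊆ ball 0 3) {x : EN N}
    (hx : c.Pt A x) : ∃ ε : ℝ, 0 < ε ∧ ∀ y ∈ Xb, dist (pr y) (pr x) < ε → c.Pt A y := by
  obtain ⟨p₀, hp₀, a₀, ha₀, hxa⟩ := hx
  obtain ⟨ε', hε', hball⟩ := Metric.isOpen_iff.1 hA p₀ hp₀
  have hp3 : ‖p₀‖ < 3 := by
    have := hA3 hp₀
    rwa [mem_ball_zero_iff] at this
  obtain ⟨δ, hδ, hcl⟩ := pt_close h c (half_pos hε') hp3
  have hprx : pr x = pr (c.s p₀) := by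
    rw [hxa, Pool.Agent.H62.EF.pr_smul _ ha₀]
  refine ⟨δ, hδ, fun y hy hyd => ?_⟩
  rw [hprx] at hyd
  obtain ⟨-, p', hp', hpp, a, ha, hya⟩ := hcl p₀ (by rw [mem_closedBall_zero_iff]) y hy hyd.le
  refine ⟨p', hball ?_, a, ha, hya⟩
  rw [mem_ball, dist_eq_norm]
  linarith

theorem cell_chart (h : EndData Xb V U D Λ u α) (F : LFam Xb V U D α κ) (R : ℝ) (hR : 0 < R) : ∃ r X₀ : ℝ, R < r ∧
    ∀ (z₀ : ℂ) (f : ℂ → EN N), z₀.re ≤ -X₀ → SecOn U Λ u (ball z₀ r) f →
      ∃ x : Ix F, ∀ z ∈ ball z₀ R, ∃ p, CenS p ∧ ∃ a : ℂ, a ≠ 0 ∧ f z = a • F.sS x p := by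
  by_contra hcon
  push Not at hcon
  have hds : ∀ n : ℕ, ∃ r X₀ : ℝ, 0 < r ∧ R < r ∧ ∀ (z₀ : ℂ) (F : ℂ → EN N), z₀.re ≤ -X₀ →
      SecOn U Λ u (ball z₀ r) F → ∀ z ∈ closedBall z₀ R, fs (F z) (deriv F z) < 1 / ((n : ℝ) + 1) ∧
        dist (pr (F z)) (pr (F z₀)) < 1 / ((n : ℝ) + 1) := fun n => der_small h R _ (by positivity)
  choose r X₀ hr hRr hsm using hds
  have hz : ∀ n : ℕ, ∃ (z₀ : ℂ) (f : ℂ → EN N), z₀.re ≤ -(max (X₀ n) n) ∧ SecOn U Λ u (ball z₀ (r n)) f ∧
      ∀ x : Ix F, ∃ z ∈ ball z₀ R, ∀ p, CenS p → ∀ a : ℂ, a ≠ 0 → f z ≠ a • F.sS x p := by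
    intro n
    obtain ⟨z₀, f, h1, h2, h3⟩ := hcon (r n) (max (X₀ n) n) (hRr n)
    exact ⟨z₀, f, h1, h2, h3⟩
  choose z f hzre hsec hno using hz
  have hU : ∀ n, ∀ w ∈ ball (z n) (r n), f n w ∈ U := fun n w hw => ((hsec n).2 w hw).1
  have hcen : ∀ n, z n ∈ ball (z n) (r n) := fun n => mem_ball_self (hr n)
  let 𝒰 : Ultrafilter ℕ := Filter.hyperfilter ℕ
  have h𝒰 : (𝒰 : Filter ℕ) ≤ atTop := by
    rw [← Nat.cofinite_eq_atTop]
    exact Filter.hyperfilter_le_cofinite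
  -- the limit point
  obtain ⟨q, ⟨x₀, hx₀, hq⟩, hlim⟩ := (Pool.Agent.H62.EF.isCompact_pr h.cone).ultrafilter_le_nhds
    (𝒰.map fun n => pr (f n (z n))) (by
      rw [Filter.le_principal_iff]
      refine Filter.mem_map.2 (Filter.univ_mem' fun n => ?_)
      exact ⟨f n (z n), h.V_sub (h.U_sub (hU n _ (hcen n))), rfl⟩)
  have hlim' : Tendsto (fun n => pr (f n (z n))) 𝒰 (𝓝 (pr x₀)) := by
    rw [hq]
    exact hlim
  have hx0 : x₀ ≠ 0 := fun e => h.cone.zero_notMem (e ▸ hx₀)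
  have hexp : ∀ n, ‖Complex.exp (u (f n (z n)))‖ ≤ Real.exp (-(n : ℝ)) := by
    intro n
    have h1 := (h.lat _).1 ((hsec n).2 _ (hcen n)).2
    have h2 : Complex.exp (u (f n (z n))) = Complex.exp (z n) := by
      have h3 : u (f n (z n)) = (u (f n (z n)) - z n) + z n := by ring
      rw [h3, Complex.exp_add, h1, one_mul]
    rw [h2, Complex.norm_exp]
    refine Real.exp_le_exp.2 ((hzre n).trans ?_)
    exact neg_le_neg (le_max_right _ _)
  have he : Tendsto (fun n => ‖Complex.exp (u (f n (z n)))‖) 𝒰 (𝓝 0) := by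
    have h1 : Tendsto (fun n : ℕ => Real.exp (-(n : ℝ))) atTop (𝓝 0) :=
      Real.tendsto_exp_neg_atTop_nhds_zero.comp tendsto_natCast_atTop_atTop
    exact squeeze_zero (fun n => norm_nonneg _) hexp (h1.mono_left h𝒰)
  have hD : x₀ ∈ D := tendsto_D h hx0 𝒰 (fun n => f n (z n))
    (Filter.Eventually.of_forall fun n => h.U_sub (hU n _ (hcen n))) hlim' he
  -- the points near the limit point are in one chart
  have hkey : ∀ ε : ℝ, 0 < ε → ∃ n, ∀ w ∈ ball (z n) R, f n w ∈ Xb ∧ dist (pr (f n w)) (pr x₀) < ε := by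
    intro ε hε
    have e1 : ∀ᶠ n in (𝒰 : Filter ℕ), dist (pr (f n (z n))) (pr x₀) < ε / 2 :=
      (Metric.tendsto_nhds.1 hlim') _ (half_pos hε)
    have e2 : ∀ᶠ n : ℕ in (𝒰 : Filter ℕ), 1 / ((n : ℝ) + 1) < ε / 2 := by
      have h1 : Tendsto (fun n : ℕ => 1 / ((n : ℝ) + 1)) atTop (𝓝 0) := tendsto_one_div_add_atTop_nhds_zero_nat
      exact (h1.mono_left h𝒰).eventually (gt_mem_nhds (half_pos hε))
    obtain ⟨n, h1, h2⟩ := (e1.and e2).exists
    refine ⟨n, fun w hw => ⟨h.V_sub (h.U_sub (hU n w (ball_subset_ball (hRr n).le hw))), ?_⟩⟩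
    have h3 := (hsm n (z n) (f n) ((hzre n).trans (neg_le_neg (le_max_left _ _))) (hsec n) w (ball_subset_closedBall hw)).2
    have h4 := dist_triangle (pr (f n w)) (pr (f n (z n))) (pr x₀)
    linarith
  obtain ⟨i, p, hp, a, ha, hxa⟩ := F.cov x₀ hD
  rcases hp with hp | ⟨hb, hp⟩
  · obtain ⟨ε, hε, hnear⟩ := pt_pr_nhds h (F.c i) cellC_isOpen_cenS (fun p hp => cellC_cenS_ball hp) (x := x₀)
      ⟨p, hp, a, ha, hxa⟩
    obtain ⟨n, hn⟩ := hkey ε hε
    obtain ⟨w, hw, hw'⟩ := hno n ⟨(i, false), fun e => absurd e (by simp)⟩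
    obtain ⟨p', hp', a', ha', hwa⟩ := hnear (f n w) (hn w hw).1 (hn w hw).2
    exact hw' p' hp' a' ha' hwa
  · have hop : IsOpen {p : ℂ × ℂ | CenS p.swap} := cellC_isOpen_cenS.preimage continuous_swap
    have hsub : {p : ℂ × ℂ | CenS p.swap} ⊆ ball (0 : ℂ × ℂ) 3 := by
      intro p hp
      have h1 := cellC_cenS_ball hp
      rw [mem_ball_zero_iff, Prod.norm_def, max_lt_iff] at h1 ⊢
      exact ⟨h1.2, h1.1⟩
    obtain ⟨ε, hε, hnear⟩ := pt_pr_nhds h (F.c i) hop hsub (x := x₀) ⟨p, hp, a, ha, hxa⟩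
    obtain ⟨n, hn⟩ := hkey ε hε
    obtain ⟨w, hw, hw'⟩ := hno n ⟨(i, true), fun _ => hb⟩
    obtain ⟨p', hp', a', ha', hwa⟩ := hnear (f n w) (hn w hw).1 (hn w hw).2
    refine hw' p'.swap hp' a' ha' ?_
    have h5 : F.sS ⟨(i, true), fun _ => hb⟩ p'.swap = (F.c i).s p' := by
      unfold LFam.sS LFam.ch swp
      simp
    rw [h5]
    exact hwa

end Pool.Agent.EG.LE

end

section

/-!
# LU Grow: units of entire curves of order two

Let `F` be an entire curve of order two and `E` an entire function without zeros with `E Q(F) = P(F)` for two forms `P, Q` of the same degree.  Then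
`E` is the exponential of a polynomial of degree at most two.
-/

set_option autoImplicit false

open Topology Filter Metric MvPolynomial

namespace Pool.Agent.H13.LU

attribute [-instance] ProperSMul.toContinuousSMul

theorem log_lower {b : ℂ → ℂ} (hb : Differentiable ℂ b) :
    ∃ C : ℝ, ∀ r : ℝ, 1 ≤ r → C ≤ Real.circleAverage (fun z => Real.log ‖b z‖) 0 r := by
  refine ⟨Real.log ‖meromorphicTrailingCoeffAt b 0‖, fun r hr => ?_⟩
  have hr0 : (0 : ℝ) < r := by linarith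
  have hrr : |r| = r := abs_of_pos hr0
  have h1 : AnalyticOnNhd ℂ b (closedBall 0 |r|) := fun z _ => hb.analyticAt z
  rw [h1.meromorphicOn.circleAverage_log_norm hr0.ne']
  have hdiv : ∀ u, (0 : ℝ) ≤ MeromorphicOn.divisor b (closedBall 0 |r|) u := by
    intro u
    have h4 : (0 : ℤ) ≤ MeromorphicOn.divisor b (closedBall 0 |r|) u := (MeromorphicOn.AnalyticOnNhd.divisor_nonneg h1) u
    exact_mod_cast h4
  have h3 : 0 ≤ ∑ᶠ u, MeromorphicOn.divisor b (closedBall 0 |r|) u * Real.log (r * ‖0 - u‖⁻¹) := by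
    refine finsum_nonneg fun u => ?_
    by_cases hu : u ∈ closedBall (0 : ℂ) |r|
    · refine mul_nonneg (hdiv u) ?_
      by_cases hu0 : u = 0
      · simp [hu0]
      · apply Real.log_nonneg
        have h6 : 0 < ‖0 - u‖ := by simpa using hu0
        rw [← div_eq_mul_inv, le_div_iff₀ h6, one_mul]
        rw [mem_closedBall, dist_zero_right, hrr] at hu
        simpa using hu
    · have : MeromorphicOn.divisor b (closedBall 0 |r|) u = 0 := by
        exact Function.locallyFinsuppWithin.apply_eq_zero_of_notMem _ hu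
      rw [this]
      simp
  have h5 : 0 ≤ (MeromorphicOn.divisor b (closedBall 0 |r|) 0 : ℝ) * Real.log r := mul_nonneg (hdiv 0) (Real.log_nonneg hr)
  linarith

/-- forms are bounded by powers of the norm -/
theorem form_bound {N D : ℕ} {Q : MvPolynomial (Fin (N + 1)) ℂ} (hQ : Q.IsHomogeneous D) :
    ∃ B : ℝ, 0 < B ∧ ∀ x : Fin (N + 1) → ℂ, x ≠ 0 → ‖eval x Q‖ ≤ B * ‖x‖ ^ D := by
  obtain ⟨B, hB, h⟩ := Pool.Agent.H17EF.exists_bound Q
  refine ⟨B, hB, fun x hx => ?_⟩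
  have hn : 0 < ‖x‖ := norm_pos_iff.2 hx
  have hn' : ((‖x‖ : ℝ) : ℂ) ≠ 0 := by exact_mod_cast hn.ne'
  have h1 := h (((‖x‖ : ℝ) : ℂ)⁻¹ • x) (by
    rw [norm_smul, norm_inv, Complex.norm_real, Real.norm_of_nonneg hn.le, inv_mul_cancel₀ hn.ne'])
  rw [Pool.Agent.H17EF.eval_smul_form hQ, norm_mul, norm_pow, norm_inv, Complex.norm_real, Real.norm_of_nonneg hn.le, inv_pow,
    inv_mul_le_iff₀ (by positivity)] at h1
  linarith

/-- **Units of curves of order two.** -/
theorem growth {N : ℕ} {F : ℂ → Fin (N + 1) → ℂ} (hF : Differentiable ℂ F) (hF0 : ∀ z, F z ≠ 0) {A : ℝ}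
    (hA : ∀ r : ℝ, 0 < r → Real.circleAverage (fun z => Real.log ‖F z‖) 0 r ≤ A * (1 + r ^ 2))
    {D : ℕ} {P Q : MvPolynomial (Fin (N + 1)) ℂ} (hP : P.IsHomogeneous D) (hQ : Q.IsHomogeneous D)
    {φ : ℂ → ℂ} (hφ : Differentiable ℂ φ) (h : ∀ z, Complex.exp (φ z) * eval (F z) Q = eval (F z) P)
    (hne : ∃ z, eval (F z) Q ≠ 0) : ∃ a b c : ℂ, ∀ z, φ z = a * z ^ 2 + b * z + c := by
  obtain ⟨B₁, hB₁, h₁⟩ := form_bound hP
  obtain ⟨B₂, hB₂, h₂⟩ := form_bound hQ
  set M : ℝ := max B₁ B₂ with hM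
  have hM0 : 0 < M := lt_of_lt_of_le hB₁ (le_max_left _ _)
  set b : ℂ → ℂ := fun z => eval (F z) Q with hbdef
  have hban : ∀ z, AnalyticAt ℂ b z := fun z => Pool.Agent.H17EF.analyticAt_eval (hF.analyticAt z) Q
  have hb : Differentiable ℂ b := fun z => (hban z).differentiableAt
  obtain ⟨C, hC⟩ := log_lower hb
  have hlogF : Continuous fun z => Real.log ‖F z‖ := by
    apply Continuous.log hF.continuous.norm
    exact fun z => norm_ne_zero_iff.2 (hF0 z)
  have hre : Continuous fun z => (φ z).re := Complex.continuous_re.comp hφ.continuous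
  -- the pointwise estimate
  have hpt : ∀ z, b z ≠ 0 → max 0 (φ z).re ≤ Real.log M + D * Real.log ‖F z‖ - Real.log ‖b z‖ := by
    intro z hz
    have hFz : 0 < ‖F z‖ := norm_pos_iff.2 (hF0 z)
    have hbz : 0 < ‖b z‖ := norm_pos_iff.2 hz
    have e1 : Real.log (M * ‖F z‖ ^ D) = Real.log M + D * Real.log ‖F z‖ := by
      rw [Real.log_mul hM0.ne' (by positivity), Real.log_pow]
    have e2 : Real.log ‖b z‖ ≤ Real.log M + D * Real.log ‖F z‖ := by
      rw [← e1]
      apply Real.log_le_log hbz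
      refine (h₂ (F z) (hF0 z)).trans ?_
      exact mul_le_mul_of_nonneg_right (le_max_right _ _) (by positivity)
    have e3 : (φ z).re + Real.log ‖b z‖ ≤ Real.log M + D * Real.log ‖F z‖ := by
      have h3 : (φ z).re + Real.log ‖b z‖ = Real.log ‖eval (F z) P‖ := by
        rw [← h z, norm_mul, Real.log_mul (norm_ne_zero_iff.2 (Complex.exp_ne_zero _)) hbz.ne', Complex.norm_exp, Real.log_exp]
      rw [h3, ← e1]
      apply Real.log_le_log
      · rw [norm_pos_iff, ← h z]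
        exact mul_ne_zero (Complex.exp_ne_zero _) hz
      · refine (h₁ (F z) (hF0 z)).trans ?_
        exact mul_le_mul_of_nonneg_right (le_max_left _ _) (by positivity)
    rcases max_cases 0 (φ z).re with ⟨h3, -⟩ | ⟨h3, -⟩ <;> rw [h3] <;> linarith
  apply quadratic_of_mean hφ (A := 2 * (|Real.log M| + D * |A| + |C|) + |(φ 0).re|)
  intro r hr
  have hr0 : (0 : ℝ) < r := by linarith
  have hsub : sphere (0 : ℂ) |r| ⊆ closedBall 0 r := by
    rw [abs_of_pos hr0]
    exact sphere_subset_closedBall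
  -- the function without exceptional points
  set f₁ : ℂ → ℝ := fun z => if b z = 0 then Real.log M + D * Real.log ‖F z‖ - max 0 (φ z).re else Real.log ‖b z‖ with hf₁
  have hcod : (fun z => Real.log ‖b z‖) =ᶠ[codiscreteWithin (sphere (0 : ℂ) |r|)] f₁ := by
    obtain ⟨z₀, hz₀⟩ := hne
    have h1 : ∀ᶠ z in codiscreteWithin (Set.univ : Set ℂ), b z ≠ 0 := by
      have hbun : AnalyticOnNhd ℂ b Set.univ := fun z _ => hban z
      have h2 : b ⁻¹' {0}ᶜ ∈ codiscreteWithin (Set.univ : Set ℂ) :=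
        hbun.preimage_zero_mem_codiscreteWithin (x := z₀) hz₀ (Set.mem_univ _) isConnected_univ
      exact h2
    have h3 : ∀ᶠ z in codiscreteWithin (sphere (0 : ℂ) |r|), b z ≠ 0 := (codiscreteWithin_mono (Set.subset_univ _)) h1
    filter_upwards [h3] with z hz
    rw [hf₁]
    simp [hz]
  have hint : CircleIntegrable (fun z => Real.log ‖b z‖) 0 r := by
    have h1 : AnalyticOnNhd ℂ b (sphere 0 |r|) := fun z _ => hban z
    exact h1.meromorphicOn.circleIntegrable_log_norm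
  have hint₁ : CircleIntegrable f₁ 0 r := hint.congr_codiscreteWithin hcod
  have havg : Real.circleAverage (fun z => Real.log ‖b z‖) 0 r = Real.circleAverage f₁ 0 r :=
    Real.circleAverage_congr_codiscreteWithin hcod hr0.ne'
  have hi1 : CircleIntegrable (fun z => Real.log M + D * Real.log ‖F z‖) 0 r := by
    apply ContinuousOn.circleIntegrable'
    exact (continuous_const.add (continuous_const.mul hlogF)).continuousOn
  have hi2 : CircleIntegrable (fun z => max 0 (φ z).re) 0 r := by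
    apply ContinuousOn.circleIntegrable'
    exact (continuous_const.max hre).continuousOn
  have hi3 : CircleIntegrable (fun z => (φ z).re) 0 r := by
    apply ContinuousOn.circleIntegrable'
    exact hre.continuousOn
  have hle : Real.circleAverage (fun z => max 0 (φ z).re) 0 r ≤
      Real.circleAverage (fun z => (Real.log M + D * Real.log ‖F z‖) - f₁ z) 0 r := by
    refine Real.circleAverage_mono hi2 (hi1.sub hint₁) fun z _ => ?_
    by_cases hz : b z = 0
    · simp only [hf₁, hz, if_true]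
      linarith
    · simp only [hf₁, hz, if_false]
      exact hpt z hz
  rw [Real.circleAverage_fun_sub hi1 hint₁, ← havg] at hle
  have hF' : Real.circleAverage (fun z => Real.log M + D * Real.log ‖F z‖) 0 r =
      Real.log M + D * Real.circleAverage (fun z => Real.log ‖F z‖) 0 r := by
    rw [Real.circleAverage_fun_add, Real.circleAverage_const]
    · have h3 := Real.circleAverage_fun_smul (a := (D : ℝ)) (f := fun z => Real.log ‖F z‖) (c := 0) (R := r)
      simp only [smul_eq_mul] at h3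
      rw [h3]
    · exact ContinuousOn.circleIntegrable' continuousOn_const
    · exact ContinuousOn.circleIntegrable' (continuous_const.mul hlogF).continuousOn
  rw [hF'] at hle
  have hmean : Real.circleAverage (fun z => (φ z).re) 0 r = (φ 0).re := by
    have hc : CircleIntegrable φ 0 r := ContinuousOn.circleIntegrable' hφ.continuous.continuousOn
    have h3 := ContinuousLinearMap.circleAverage_comp_comm (c := 0) (R := r) (f := φ) Complex.reCLM hc
    have h4 : (Complex.reCLM ∘ φ) = fun z => (φ z).re := by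
      ext z
      rfl
    rw [h4] at h3
    rw [h3, DiffContOnCl.circleAverage (f := φ) (c := 0) (R := r) hφ.diffContOnCl]
    rfl
  have habs : Real.circleAverage (fun z => |(φ z).re|) 0 r =
      2 * Real.circleAverage (fun z => max 0 (φ z).re) 0 r - (φ 0).re := by
    rw [← hmean]
    have h3 := Real.circleAverage_fun_smul (a := (2 : ℝ)) (f := fun z => max 0 (φ z).re) (c := 0) (R := r)
    simp only [smul_eq_mul] at h3
    rw [← h3, ← Real.circleAverage_fun_sub _ hi3]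
    · congr 1
      ext z
      rcases le_total 0 (φ z).re with h5 | h5
      · rw [abs_of_nonneg h5, max_eq_right h5]
        ring
      · rw [abs_of_nonpos h5, max_eq_left h5]
        ring
    · exact ContinuousOn.circleIntegrable' (continuous_const.mul (continuous_const.max hre)).continuousOn
  have h6 := hA r hr0
  have h7 := hC r hr
  have h8 : (D : ℝ) * Real.circleAverage (fun z => Real.log ‖F z‖) 0 r ≤ D * (|A| * (1 + r ^ 2)) := by
    apply mul_le_mul_of_nonneg_left _ (by positivity)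
    refine h6.trans (mul_le_mul_of_nonneg_right (le_abs_self A) (by positivity))
  have h9 : (1 : ℝ) ≤ 1 + r ^ 2 := by nlinarith
  have h10 : Real.log M ≤ |Real.log M| * (1 + r ^ 2) := by
    calc Real.log M ≤ |Real.log M| * 1 := by rw [mul_one]; exact le_abs_self _
      _ ≤ _ := mul_le_mul_of_nonneg_left h9 (abs_nonneg _)
  have h11 : -C ≤ |C| * (1 + r ^ 2) := by
    calc -C ≤ |C| * 1 := by rw [mul_one]; exact neg_le_abs _
      _ ≤ _ := mul_le_mul_of_nonneg_left h9 (abs_nonneg _)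
  have h12 : -(φ 0).re ≤ |(φ 0).re| * (1 + r ^ 2) := by
    calc -(φ 0).re ≤ |(φ 0).re| * 1 := by rw [mul_one]; exact neg_le_abs _
      _ ≤ _ := mul_le_mul_of_nonneg_left h9 (abs_nonneg _)
  rw [habs]
  have h13 : (2 * (|Real.log M| + D * |A| + |C|) + |(φ 0).re|) * (1 + r ^ 2) =
      2 * (|Real.log M| * (1 + r ^ 2) + D * (|A| * (1 + r ^ 2)) + |C| * (1 + r ^ 2)) + |(φ 0).re| * (1 + r ^ 2) := by
    ring
  rw [h13]
  linarith

end Pool.Agent.H13.LU

end

section

/-!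
# LU PhCore: units along limits of discs of order two

`f` is the limit of the discs `F n` in `U`, with `T_f(r) = O(r²)`; `e` is a unit of `U` which is a rational function.  Then
`e ∘ F n = exp (φ n)`, and `φ n → φ` locally uniformly on `ℂ`, where `φ` is a polynomial of degree at most two with `e ∘ f = exp φ`.
-/

set_option autoImplicit false

open Topology Filter Metric MvPolynomial

namespace Pool.Agent.H13.LU

attribute [-instance] ProperSMul.toContinuousSMul

open Pool.Agent.H17 (PN VanishesAt HolomorphicInto vanishesAt_mk_iff)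
open Pool.Agent.H36.LB (ConvPN IsLimitPN)
open Pool.Agent.H13.OT (OrderTwo)

variable {N : ℕ}

theorem closedBall_unif {l : Filter ℕ} {E : ℕ → ℂ → ℂ} {e : ℂ → ℂ} {z : ℂ} {r : ℝ} (hr : 0 < r) (h : TendstoLocallyUniformlyOn E e l (ball z r)) :
    ∃ r' : ℝ, 0 < r' ∧ TendstoUniformlyOn E e l (closedBall z r') := by
  refine ⟨r / 2, by positivity, ?_⟩
  exact (tendstoLocallyUniformlyOn_iff_tendstoUniformlyOn_of_compact (isCompact_closedBall z (r / 2))).1
    (h.mono (closedBall_subset_ball (by linarith)))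

/-- **Phases.** -/
theorem phases_core {U : Set (PN N)} {l : Filter ℕ} {F : ℕ → ℂ → PN N} {f : ℂ → PN N} (hl : IsLimitPN U l F f) (hord : OrderTwo f) {e : PN N → ℂ}
    (hE : ∀ n : ℕ, DifferentiableOn ℂ (fun z => e (F n z)) (ball 0 (n + 1)))
    (hE0 : ∀ n : ℕ, ∀ z ∈ ball (0 : ℂ) (n + 1), e (F n z) ≠ 0)
    (hconv : ∀ z, ConvPN l F f z → ∃ r : ℝ, 0 < r ∧ TendstoLocallyUniformlyOn (fun n z => e (F n z)) (fun z => e (f z)) l (ball z r))
    (he0 : ∀ z, ConvPN l F f z → e (f z) ≠ 0)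
    {D : ℕ} {A B : MvPolynomial (Fin (N + 1)) ℂ} (hA : A.IsHomogeneous D) (hB : B.IsHomogeneous D)
    (hAB : ∀ z, ConvPN l F f z → e (f z) * eval (f z).rep B = eval (f z).rep A) (hv : ∃ z, ¬ VanishesAt B (f z)) :
    ∃ (a b c : ℂ) (φn : ℕ → ℂ → ℂ), (∀ n : ℕ, DifferentiableOn ℂ (φn n) (ball 0 (n + 1))) ∧
      (∀ n : ℕ, ∀ z ∈ ball (0 : ℂ) (n + 1), Complex.exp (φn n z) = e (F n z)) ∧
      (∀ R : ℝ, TendstoUniformlyOn φn (fun z => a * z ^ 2 + b * z + c) l (closedBall 0 R)) ∧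
      ∀ z, ConvPN l F f z → e (f z) = Complex.exp (a * z ^ 2 + b * z + c) := by
  haveI := hl.neBot
  -- the exceptional set
  have hZ : ∀ z : ℂ, ∃ r : ℝ, 0 < r ∧ ∀ w ∈ closedBall z r, w ≠ z → w ∉ {w | ¬ ConvPN l F f w} := by
    intro z
    have h1 := hl.conv z
    rw [eventually_nhdsWithin_iff] at h1
    obtain ⟨r, hr, hrb⟩ := Metric.eventually_nhds_iff_ball.1 h1
    refine ⟨r / 2, by positivity, fun w hw hwz hcon => hcon (hrb w ?_ hwz)⟩
    exact closedBall_subset_ball (by linarith) hw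
  obtain ⟨g, hg, hg0, hge, hgl⟩ := exists_limit hl.le_atTop hZ hE hE0
    (fun z hz => by
      obtain ⟨r, hr, h1⟩ := hconv z (not_not.1 hz)
      exact closedBall_unif hr h1)
    (fun z hz => he0 z (not_not.1 hz))
  -- the logarithm
  obtain ⟨φ, hφ, hφg⟩ := exists_log (U := Set.univ) isOpen_univ convex_univ Set.univ_nonempty hg.differentiableOn (fun w _ => hg0 w)
  have hφd : Differentiable ℂ φ := differentiableOn_univ.1 hφ
  have hφg' : ∀ z, Complex.exp (φ z) = g z := fun z => hφg z (Set.mem_univ z)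
  -- the lift
  obtain ⟨F₀, C, hF₀, hF₀f, hC⟩ := hord
  have hF₀0 : ∀ z, F₀ z ≠ 0 := fun z => (hF₀f z).1
  have hmk : ∀ z, f z = Projectivization.mk ℂ (F₀ z) (hF₀0 z) := fun z => (hF₀f z).2
  have hrel : ∀ z, ConvPN l F f z → Complex.exp (φ z) * eval (F₀ z) B = eval (F₀ z) A := by
    intro z hz
    obtain ⟨c, hc⟩ := Projectivization.exists_smul_eq_mk_rep ℂ (F₀ z) (hF₀0 z)
    have h1 := hAB z hz
    have hc' : (f z).rep = (c : ℂ) • F₀ z := by
      rw [hmk z, ← hc]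
      rfl
    rw [hc', Pool.Agent.H17BP.eval_smul_form hA, Pool.Agent.H17BP.eval_smul_form hB] at h1
    have hcD : (c : ℂ) ^ D ≠ 0 := pow_ne_zero _ c.ne_zero
    rw [hφg', hge z (not_not.2 hz)]
    have h2 : (c : ℂ) ^ D * (e (f z) * eval (F₀ z) B) = (c : ℂ) ^ D * eval (F₀ z) A := by
      rw [← h1]
      ring
    exact mul_left_cancel₀ hcD h2
  have hcA : Continuous fun z => eval (F₀ z) A := (MvPolynomial.continuous_eval A).comp hF₀.continuous
  have hcB : Continuous fun z => eval (F₀ z) B := (MvPolynomial.continuous_eval B).comp hF₀.continuous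
  have hrel' : ∀ z, Complex.exp (φ z) * eval (F₀ z) B = eval (F₀ z) A := by
    intro z
    have h1 : ∀ᶠ w in 𝓝[≠] z, Complex.exp (φ w) * eval (F₀ w) B = eval (F₀ w) A := (hl.conv z).mono fun w hw => hrel w hw
    have h2 : Tendsto (fun w => Complex.exp (φ w) * eval (F₀ w) B) (𝓝[≠] z) (𝓝 (Complex.exp (φ z) * eval (F₀ z) B)) :=
      ((hφd.continuous.cexp.mul hcB).tendsto z).mono_left nhdsWithin_le_nhds
    have h3 : Tendsto (fun w => eval (F₀ w) A) (𝓝[≠] z) (𝓝 (eval (F₀ z) A)) := (hcA.tendsto z).mono_left nhdsWithin_le_nhds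
    exact tendsto_nhds_unique (h2.congr' h1) h3
  have hne : ∃ z, eval (F₀ z) B ≠ 0 := by
    obtain ⟨z, hz⟩ := hv
    refine ⟨z, fun h0 => hz ?_⟩
    rw [hmk z]
    exact (vanishesAt_mk_iff hB _ _).2 h0
  obtain ⟨a, b, c, habc⟩ := growth hF₀ hF₀0 hC hA hB hφd hrel' hne
  have hfun : φ = fun z => a * z ^ 2 + b * z + c := funext habc
  have hlim : ∀ R : ℝ, TendstoUniformlyOn (fun n z => e (F n z)) (fun z => Complex.exp (φ z)) l (closedBall 0 R) := by
    intro R
    have h1 := hgl R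
    have h2 : (fun z => Complex.exp (φ z)) = g := funext hφg'
    rw [h2]
    exact h1
  obtain ⟨φn, h1, h2, h3⟩ := exists_logs hl.le_atTop hφd hE hE0 hlim
  refine ⟨a, b, c, φn, h1, h2, fun R => ?_, fun z hz => ?_⟩
  · rw [← hfun]
    exact h3 R
  · rw [← habc z, hφg', hge z (not_not.2 hz)]

end Pool.Agent.H13.LU

end
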