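import Pool.Agent.H94.CB.M11
import Pool.Agent.H94.CB.M186
import Pool.Agent.H94.CB.M20

/-! The parts of this file: H6.LU.Tr, H62.LR.Hole, H87.LR.Ident, H62.LR.Defs, H87.LU.GlueB. -/

section

/-!
# LU Tr: the transition between two germ charts with the same centre
-/

set_option autoImplicit false

open Topology Filter Metric

noncomputable section

namespace Pool.Agent.H6.LU

attribute [-instance] ProperSMul.toContinuousSMul

open Pool.Agent.H36.BP (EN IsGermChart)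
open Pool.Agent.H14.PP (jac)

variable {M : ℕ} {X : Set (EN M)}

theorem germ_tau {σ : ℂ × ℂ → EN M} {τ : EN M → ℂ × ℂ} (h : IsGermChart X σ τ) : τ (σ 0) = 0 := h.left.self_of_nhds

theorem sigma_td {σ : ℂ × ℂ → EN M} {τ : EN M → ℂ × ℂ} (h : IsGermChart X σ τ) : Tendsto σ (𝓝 0) (𝓝 (σ 0)) := h.σ_an.continuousAt.tendsto

/-- The transition map. -/
theorem transition {σ σ₁ : ℂ × ℂ → EN M} {τ τ₁ : EN M → ℂ × ℂ} (h : IsGermChart X σ τ) (h₁ : IsGermChart X σ₁ τ₁) (h0 : σ 0 = σ₁ 0)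
    (hne : σ 0 ≠ 0) :
    AnalyticAt ℂ (fun p => τ₁ (σ p)) 0 ∧ τ₁ (σ 0) = 0 ∧ (∀ᶠ p in 𝓝 (0 : ℂ × ℂ), ∃ c : ℂ, c ≠ 0 ∧ σ p = c • σ₁ (τ₁ (σ p))) ∧
      jac (fun p => τ₁ (σ p)) 0 ≠ 0 := by
  have hψ0 : τ₁ (σ 0) = 0 := by rw [h0]; exact germ_tau h₁
  have hψ : AnalyticAt ℂ (fun p => τ₁ (σ p)) 0 := AnalyticAt.comp (g := τ₁) (f := σ) (by rw [h0]; exact h₁.τ_an) h.σ_an
  have hψt : Tendsto (fun p => τ₁ (σ p)) (𝓝 0) (𝓝 0) := by
    have := hψ.continuousAt.tendsto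
    rwa [hψ0] at this
  have hσ := sigma_td h
  have hright : ∀ᶠ p in 𝓝 (0 : ℂ × ℂ), ∃ c : ℂ, c ≠ 0 ∧ σ p = c • σ₁ (τ₁ (σ p)) := by
    have h2 := h₁.right
    rw [← h0] at h2
    filter_upwards [hσ.eventually h2, h.σ_mem] with p hp hp2
    exact hp hp2
  -- the scalar is near `1`
  obtain ⟨ℓ, hℓ⟩ : ∃ ℓ : EN M →L[ℂ] ℂ, ℓ (σ 0) = 1 := by
    have hne' : inner ℂ (σ 0) (σ 0) ≠ (0 : ℂ) := inner_self_ne_zero.mpr hne
    refine ⟨(inner ℂ (σ 0) (σ 0) : ℂ)⁻¹ • innerSL ℂ (σ 0), ?_⟩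
    simp only [_root_.smul_apply, innerSL_apply_apply, smul_eq_mul]
    exact inv_mul_cancel₀ hne'
  have hσψ : Tendsto (fun p => σ₁ (τ₁ (σ p))) (𝓝 0) (𝓝 (σ₁ 0)) := (sigma_td h₁).comp hψt
  have hsc : Tendsto (fun p => ℓ (σ₁ (τ₁ (σ p))) / ℓ (σ p)) (𝓝 0) (𝓝 1) := by
    have h2 : Tendsto (fun p => ℓ (σ₁ (τ₁ (σ p)))) (𝓝 0) (𝓝 1) := by
      have h3 := (ℓ.continuous.tendsto (σ₁ 0)).comp hσψ
      rwa [← h0, hℓ] at h3
    have h3 : Tendsto (fun p => ℓ (σ p)) (𝓝 0) (𝓝 1) := by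
      have h4 := (ℓ.continuous.tendsto (σ 0)).comp hσ
      rwa [hℓ] at h4
    have h4 := h2.div h3 one_ne_zero
    rwa [div_one] at h4
  have hinv : ∀ᶠ p in 𝓝 (0 : ℂ × ℂ), τ ((ℓ (σ₁ (τ₁ (σ p))) / ℓ (σ p)) • σ p) = τ (σ p) :=
    (hσ.prodMk_nhds hsc).eventually h.inv
  have hℓne : ∀ᶠ p in 𝓝 (0 : ℂ × ℂ), ℓ (σ p) ≠ 0 := by
    have h4 := (ℓ.continuous.tendsto (σ 0)).comp hσ
    rw [hℓ] at h4
    exact h4.eventually_ne one_ne_zero
  have hid : ∀ᶠ p in 𝓝 (0 : ℂ × ℂ), τ (σ₁ (τ₁ (σ p))) = p := by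
    filter_upwards [hright, hinv, hℓne, h.left] with p ⟨c, hc, hp1⟩ hp2 hp3 hp4
    have h5 : (ℓ (σ₁ (τ₁ (σ p))) / ℓ (σ p)) • σ p = σ₁ (τ₁ (σ p)) := by
      have h6 : ℓ (σ p) = c * ℓ (σ₁ (τ₁ (σ p))) := by
        conv_lhs => rw [hp1]
        rw [map_smul, smul_eq_mul]
      have h7 : ℓ (σ₁ (τ₁ (σ p))) ≠ 0 := by
        intro h8
        rw [h8, mul_zero] at h6
        exact hp3 h6
      conv_lhs => rw [h6]
      have h8 : ℓ (σ₁ (τ₁ (σ p))) / (c * ℓ (σ₁ (τ₁ (σ p)))) = c⁻¹ := by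
        field_simp
      rw [h8]
      conv_lhs => rw [hp1]
      rw [smul_smul, inv_mul_cancel₀ hc, one_smul]
    rw [← h5, hp2, hp4]
  refine ⟨hψ, hψ0, hright, ?_⟩
  -- the chain rule
  have hχ : AnalyticAt ℂ (fun q => τ (σ₁ q)) (τ₁ (σ 0)) := by
    rw [hψ0]
    exact AnalyticAt.comp (g := τ) (f := σ₁) (by rw [← h0]; exact h.τ_an) h₁.σ_an
  have hcomp : HasFDerivAt (fun p => τ (σ₁ (τ₁ (σ p)))) ((fderiv ℂ (fun q => τ (σ₁ q)) (τ₁ (σ 0))).comp (fderiv ℂ (fun p => τ₁ (σ p)) 0)) 0 :=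
    HasFDerivAt.comp (g := fun q => τ (σ₁ q)) (0 : ℂ × ℂ) hχ.differentiableAt.hasFDerivAt hψ.differentiableAt.hasFDerivAt
  have hid' : HasFDerivAt (fun p => τ (σ₁ (τ₁ (σ p)))) (ContinuousLinearMap.id ℂ (ℂ × ℂ)) 0 :=
    (hasFDerivAt_id (0 : ℂ × ℂ)).congr_of_eventuallyEq (by filter_upwards [hid] with p hp using hp)
  have heq := hcomp.unique hid'
  have hinj : ∀ v : ℂ × ℂ, fderiv ℂ (fun p => τ₁ (σ p)) 0 v = 0 → v = 0 := by
    intro v hv
    have h2 := congrArg (fun L : (ℂ × ℂ) →L[ℂ] (ℂ × ℂ) => L v) heq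
    simp only [ContinuousLinearMap.comp_apply, ContinuousLinearMap.id_apply] at h2
    rw [hv, map_zero] at h2
    exact h2.symm
  intro hj
  set L := fderiv ℂ (fun p => τ₁ (σ p)) 0 with hL
  have hLw : ∀ a b : ℂ, L (a, b) = a • L (1, 0) + b • L (0, 1) := by
    intro a b
    rw [← map_smul, ← map_smul, ← map_add]
    congr 1
    ext
    · simp
    · simp
  have hj' : (L (1, 0)).1 * (L (0, 1)).2 - (L (0, 1)).1 * (L (1, 0)).2 = 0 := hj
  -- the two columns are dependent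
  by_cases h2 : (L (0, 1)).2 = 0 ∧ (L (1, 0)).2 = 0
  · have h3 := hinj ((L (0, 1)).1, -(L (1, 0)).1) (by
      rw [hLw]
      ext
      · simp only [Prod.fst_add, Prod.smul_fst, smul_eq_mul, Prod.fst_zero]
        ring
      · simp only [Prod.snd_add, Prod.smul_snd, smul_eq_mul, Prod.snd_zero, h2.1, h2.2, mul_zero, add_zero])
    have h4 : (L (0, 1)).1 = 0 := congrArg Prod.fst h3
    have h5 := hinj (0, 1) (Prod.ext h4 h2.1)
    exact one_ne_zero (congrArg Prod.snd h5)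
  · have h3 := hinj ((L (0, 1)).2, -(L (1, 0)).2) (by
      rw [hLw]
      ext
      · simp only [Prod.fst_add, Prod.smul_fst, smul_eq_mul, Prod.fst_zero]
        linear_combination hj'
      · simp only [Prod.snd_add, Prod.smul_snd, smul_eq_mul, Prod.snd_zero]
        ring)
    apply h2
    refine ⟨congrArg Prod.fst h3, ?_⟩
    have h4 : -(L (1, 0)).2 = 0 := congrArg Prod.snd h3
    exact neg_eq_zero.1 h4

/-- If the second coordinate of `ψ` vanishes on the axis `p.2 = 0`, and the jacobian is not zero, then `p.2` is bounded by a multiple of the second coordinate of `ψ`. -/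
theorem snd_le {ψ : ℂ × ℂ → ℂ × ℂ} (hψ : AnalyticAt ℂ ψ 0) (hj : jac ψ 0 ≠ 0) (h0 : ∀ᶠ p in 𝓝 (0 : ℂ × ℂ), p.2 = 0 → (ψ p).2 = 0) :
    ∃ C : ℝ, 0 < C ∧ ∀ᶠ p in 𝓝 (0 : ℂ × ℂ), ‖p.2‖ ≤ C * ‖(ψ p).2‖ := by
  set L := fderiv ℂ ψ 0 with hL
  have hd : HasFDerivAt ψ L 0 := hψ.differentiableAt.hasFDerivAt
  -- the derivative along the axis
  have h1 : (L (1, 0)).2 = 0 := by
    have h2 : HasDerivAt (fun s : ℂ => (ψ (s, 0)).2) (L (1, 0)).2 0 := by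
      have h3 : HasDerivAt (fun s : ℂ => ((s, 0) : ℂ × ℂ)) (1, 0) 0 := (hasDerivAt_id (0 : ℂ)).prodMk (hasDerivAt_const _ _)
      have h4 : HasDerivAt (fun s : ℂ => ψ (s, 0)) (L (1, 0)) 0 :=
        HasFDerivAt.comp_hasDerivAt (f := fun s : ℂ => ((s, 0) : ℂ × ℂ)) (0 : ℂ) hd h3
      exact (ContinuousLinearMap.snd ℂ ℂ ℂ).hasFDerivAt.comp_hasDerivAt (0 : ℂ) h4
    have h3 : (fun s : ℂ => (ψ (s, 0)).2) =ᶠ[𝓝 0] fun _ => 0 := by
      have hc : Tendsto (fun s : ℂ => ((s, 0) : ℂ × ℂ)) (𝓝 0) (𝓝 0) := by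
        have hc : Continuous fun s : ℂ => ((s, 0) : ℂ × ℂ) := by fun_prop
        exact hc.tendsto 0
      filter_upwards [hc.eventually h0] with s hs
      exact hs rfl
    exact (h2.congr_of_eventuallyEq h3.symm).unique (hasDerivAt_const _ _)
  have h2 : (L (0, 1)).2 ≠ 0 := by
    intro h2
    apply hj
    show (L (1, 0)).1 * (L (0, 1)).2 - (L (0, 1)).1 * (L (1, 0)).2 = 0
    rw [h1, h2, mul_zero, mul_zero, sub_zero]
  set κ := ‖(L (0, 1)).2‖ with hκ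
  have hκ0 : 0 < κ := norm_pos_iff.2 h2
  have hs : HasStrictFDerivAt ψ L 0 := hψ.hasStrictFDerivAt
  have h3 := hs.isLittleO.def (show 0 < κ / 2 by positivity)
  have hc : Tendsto (fun p : ℂ × ℂ => (p, ((p.1, 0) : ℂ × ℂ))) (𝓝 0) (𝓝 ((0 : ℂ × ℂ), (0 : ℂ × ℂ))) := by
    have hc : Continuous fun p : ℂ × ℂ => (p, ((p.1, 0) : ℂ × ℂ)) := by fun_prop
    exact hc.tendsto 0
  have hc2 : Tendsto (fun p : ℂ × ℂ => ((p.1, 0) : ℂ × ℂ)) (𝓝 0) (𝓝 (0 : ℂ × ℂ)) := by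
    have hc : Continuous fun p : ℂ × ℂ => ((p.1, 0) : ℂ × ℂ) := by fun_prop
    exact hc.tendsto 0
  refine ⟨2 / κ, by positivity, ?_⟩
  filter_upwards [hc.eventually h3, hc2.eventually h0] with p hp hp0
  have h4 : p - (p.1, 0) = (0, p.2) := by
    ext
    · simp
    · simp
  rw [h4] at hp
  have h5 : ‖((0 : ℂ), p.2)‖ = ‖p.2‖ := by
    rw [Prod.norm_def]
    simp
  rw [h5] at hp
  have h6 : L (0, p.2) = p.2 • L (0, 1) := by
    rw [← map_smul]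
    congr 1
    ext
    · simp
    · simp
  have h7 := (norm_snd_le _).trans hp
  rw [h6] at h7
  simp only [Prod.snd_sub, Prod.smul_snd, smul_eq_mul, hp0 rfl, sub_zero] at h7
  have h8 : ‖p.2 * (L (0, 1)).2‖ = κ * ‖p.2‖ := by rw [norm_mul, mul_comm]
  have h9 : κ * ‖p.2‖ ≤ ‖(ψ p).2‖ + κ / 2 * ‖p.2‖ := by
    rw [← h8]
    have := norm_sub_norm_le (p.2 * (L (0, 1)).2) ((ψ p).2)
    have h10 : ‖p.2 * (L (0, 1)).2 - (ψ p).2‖ = ‖(ψ p).2 - p.2 * (L (0, 1)).2‖ := norm_sub_rev _ _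
    rw [h10] at this
    linarith
  rw [div_mul_eq_mul_div, le_div_iff₀ hκ0]
  linarith

end Pool.Agent.H6.LU

end
end

section

/-!
# LR Hole: functions near `1` on an annulus around their only possible zero or pole

* `exists_form`: `Q = (z - b)^m G`, `G` holomorphic without zeros.
* `hole`: a meromorphic function near `1` on an annulus, without zeros and poles outside the centre, is near `1` in the disc.
-/

set_option autoImplicit false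

open Topology Filter Metric

noncomputable section

namespace Pool.Agent.H62.LR

attribute [-instance] ProperSMul.toContinuousSMul

theorem exists_form {Q : ℂ → ℂ} {b : ℂ} {R : ℝ} (hR : 0 < R) (hQ : ∀ z ∈ ball b R, z ≠ b → AnalyticAt ℂ Q z ∧ Q z ≠ 0)
    (hQb : MeromorphicAt Q b) : ∃ (m : ℤ) (G : ℂ → ℂ), DifferentiableOn ℂ G (ball b R) ∧ (∀ z ∈ ball b R, G z ≠ 0) ∧
      ∀ z ∈ ball b R, z ≠ b → Q z = (z - b) ^ m * G z := by
  have hne : ∀ᶠ z in 𝓝[≠] b, Q z ≠ 0 := by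
    rw [eventually_nhdsWithin_iff]
    filter_upwards [ball_mem_nhds b hR] with z hz hzb using (hQ z hz hzb).2
  have htop := (meromorphicOrderAt_ne_top_iff_eventually_ne_zero hQb).2 hne
  obtain ⟨g, hg, hg0, hgQ⟩ := (meromorphicOrderAt_ne_top_iff hQb).1 htop
  set m : ℤ := (meromorphicOrderAt Q b).untop₀ with hm
  set G : ℂ → ℂ := fun z => if z = b then g b else (z - b) ^ (-m) * Q z with hG
  have hGb : G b = g b := if_pos rfl
  have hGne : ∀ z, z ≠ b → G z = (z - b) ^ (-m) * Q z := fun z hz => if_neg hz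
  have hGg : G =ᶠ[𝓝 b] g := by
    filter_upwards [eventually_nhdsWithin_iff.1 hgQ] with z hz
    by_cases hzb : z = b
    · rw [hzb, hGb]
    · rw [hGne z hzb, hz hzb, smul_eq_mul, ← mul_assoc, ← zpow_add₀ (sub_ne_zero.2 hzb), neg_add_cancel, zpow_zero, one_mul]
  refine ⟨m, G, fun z hz => ?_, fun z hz => ?_, fun z hz hzb => ?_⟩
  · by_cases hzb : z = b
    · rw [hzb]
      exact (hGg.differentiableAt_iff.2 hg.differentiableAt).differentiableWithinAt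
    · have h1 : G =ᶠ[𝓝 z] fun w => (w - b) ^ (-m) * Q w := by
        filter_upwards [isOpen_ne.mem_nhds hzb] with w hw using hGne w hw
      have h2 : DifferentiableAt ℂ (fun w => (w - b) ^ (-m) * Q w) z := by
        refine DifferentiableAt.mul ?_ (hQ z hz hzb).1.differentiableAt
        exact (differentiableAt_id.sub_const b).zpow (Or.inl (sub_ne_zero.2 hzb))
      exact (h1.differentiableAt_iff.2 h2).differentiableWithinAt
  · by_cases hzb : z = b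
    · rw [hzb, hGb]
      exact hg0
    · rw [hGne z hzb]
      exact mul_ne_zero (zpow_ne_zero _ (sub_ne_zero.2 hzb)) (hQ z hz hzb).2
  · rw [hGne z hzb, ← mul_assoc, ← zpow_add₀ (sub_ne_zero.2 hzb), add_neg_cancel, zpow_zero, one_mul]

private theorem no_order {G : ℂ → ℂ} {b : ℂ} {δ c : ℝ} (hδ : 0 < δ) (hc : 0 < c) (hG : DifferentiableOn ℂ G (ball b (4 * δ))) {m : ℕ} (hm : 1 ≤ m)
    (h1 : ∀ z, ‖z - b‖ = δ → c / δ ^ m ≤ ‖G z‖) (h2 : ∀ z, ‖z - b‖ = 7 / 2 * δ → ‖G z‖ ≤ 3 * c / (7 / 2 * δ) ^ m) : False := by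
  have hz1 : ‖(b + (δ : ℂ)) - b‖ = δ := by
    rw [add_sub_cancel_left, Complex.norm_real, Real.norm_of_nonneg hδ.le]
  have h3 := h1 _ hz1
  have hd : DiffContOnCl ℂ G (ball b (7 / 2 * δ)) := by
    refine DifferentiableOn.diffContOnCl ?_
    rw [closure_ball _ (by positivity)]
    exact hG.mono (closedBall_subset_ball (by linarith))
  have h4 : ‖G (b + (δ : ℂ))‖ ≤ 3 * c / (7 / 2 * δ) ^ m := by
    refine Complex.norm_le_of_forall_mem_frontier_norm_le isBounded_ball hd (fun w hw => ?_) (z := b + (δ : ℂ)) ?_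
    · rw [frontier_ball _ (by positivity), mem_sphere, dist_eq_norm] at hw
      exact h2 w hw
    · rw [closure_ball _ (by positivity), mem_closedBall, dist_eq_norm, hz1]
      linarith
  have h5 := h3.trans h4
  rw [div_le_div_iff₀ (by positivity) (by positivity), mul_pow] at h5
  have h6 : (7 / 2 : ℝ) ^ 1 ≤ (7 / 2 : ℝ) ^ m := pow_le_pow_right₀ (by norm_num) hm
  have h7 : 0 < c * δ ^ m := by positivity
  nlinarith

/-- A meromorphic function near `1` on an annulus, without zeros and poles outside the centre, is near `1` in the disc. -/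
theorem hole {Q : ℂ → ℂ} {b : ℂ} {δ ε : ℝ} (hδ : 0 < δ) (hε : ε ≤ 1 / 2) (hQ : ∀ z ∈ ball b (4 * δ), z ≠ b → AnalyticAt ℂ Q z ∧ Q z ≠ 0)
    (hQb : MeromorphicAt Q b) (hε' : ∀ z, δ ≤ ‖z - b‖ → ‖z - b‖ < 4 * δ → ‖Q z - 1‖ ≤ ε) :
    ∃ H : ℂ → ℂ, DifferentiableOn ℂ H (ball b (4 * δ)) ∧ (∀ z ∈ ball b (4 * δ), z ≠ b → H z = Q z) ∧ ∀ z ∈ ball b (4 * δ), ‖H z - 1‖ ≤ ε := by
  obtain ⟨m, G, hG, hG0, hGQ⟩ := exists_form (by positivity) hQ hQb
  have hlow : ∀ z, δ ≤ ‖z - b‖ → ‖z - b‖ < 4 * δ → 1 / 2 ≤ ‖Q z‖ ∧ ‖Q z‖ ≤ 3 / 2 := by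
    intro z h1 h2
    have h3 := hε' z h1 h2
    have h4 : ‖Q z‖ ≤ ‖Q z - 1‖ + 1 := by
      have := norm_add_le (Q z - 1) 1
      rwa [sub_add_cancel, norm_one] at this
    have h5 : 1 ≤ ‖Q z - 1‖ + ‖Q z‖ := by
      have := norm_add_le (1 - Q z) (Q z)
      rwa [sub_add_cancel, norm_one, norm_sub_rev] at this
    exact ⟨by linarith, by linarith⟩
  have hpt : ∀ z, δ ≤ ‖z - b‖ → ‖z - b‖ < 4 * δ → z ∈ ball b (4 * δ) ∧ z ≠ b := by
    intro z h1 h2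
    refine ⟨by rwa [mem_ball, dist_eq_norm], ?_⟩
    rintro rfl
    rw [sub_self, norm_zero] at h1
    linarith
  have hm0 : m = 0 := by
    rcases lt_trichotomy m 0 with hm | hm | hm
    · exfalso
      obtain ⟨n, hn⟩ : ∃ n : ℕ, m = -(n : ℤ) := ⟨m.natAbs, by omega⟩
      have hn1 : 1 ≤ n := by omega
      refine no_order (G := fun z => (G z)⁻¹) (c := 2 / 3) hδ (by norm_num) (fun z hz => ((hG z hz).inv (hG0 z hz))) hn1 (fun z hz => ?_) (fun z hz => ?_)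
      · obtain ⟨h1, h2⟩ := hpt z hz.ge (by linarith)
        have h3 := hGQ z h1 h2
        have h4 := (hlow z hz.ge (by linarith)).2
        have h5 : ‖Q z‖ = ‖G z‖ / δ ^ n := by
          rw [h3, norm_mul, norm_zpow, hz, hn, zpow_neg, zpow_natCast]
          field_simp
        rw [h5, div_le_iff₀ (by positivity)] at h4
        have h6 : 0 < ‖G z‖ := norm_pos_iff.2 (hG0 z h1)
        rw [norm_inv, div_le_iff₀ (by positivity), inv_mul_eq_div, le_div_iff₀ h6]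
        linarith
      · have hz1 : δ ≤ ‖z - b‖ := by rw [hz]; linarith
        have hz2 : ‖z - b‖ < 4 * δ := by rw [hz]; linarith
        obtain ⟨h1, h2⟩ := hpt z hz1 hz2
        have h3 := hGQ z h1 h2
        have h4 := (hlow z hz1 hz2).1
        have h5 : ‖Q z‖ = ‖G z‖ / (7 / 2 * δ) ^ n := by
          rw [h3, norm_mul, norm_zpow, hz, hn, zpow_neg, zpow_natCast]
          field_simp
        rw [h5, le_div_iff₀ (by positivity)] at h4
        have h6 : 0 < ‖G z‖ := norm_pos_iff.2 (hG0 z h1)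
        rw [norm_inv, le_div_iff₀ (by positivity), inv_mul_eq_div, div_le_iff₀ h6]
        linarith
    · exact hm
    · exfalso
      obtain ⟨n, hn⟩ : ∃ n : ℕ, m = (n : ℤ) := ⟨m.natAbs, by omega⟩
      have hn1 : 1 ≤ n := by omega
      refine no_order (G := G) (c := 1 / 2) hδ (by norm_num) hG hn1 (fun z hz => ?_) (fun z hz => ?_)
      · obtain ⟨h1, h2⟩ := hpt z hz.ge (by linarith)
        have h3 := hGQ z h1 h2
        have h4 := (hlow z hz.ge (by linarith)).1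
        rw [h3, norm_mul, norm_zpow, hz, hn, zpow_natCast] at h4
        rw [div_le_iff₀ (by positivity)]
        linarith
      · have hz1 : δ ≤ ‖z - b‖ := by rw [hz]; linarith
        have hz2 : ‖z - b‖ < 4 * δ := by rw [hz]; linarith
        obtain ⟨h1, h2⟩ := hpt z hz1 hz2
        have h3 := hGQ z h1 h2
        have h4 := (hlow z hz1 hz2).2
        rw [h3, norm_mul, norm_zpow, hz, hn, zpow_natCast] at h4
        rw [le_div_iff₀ (by positivity)]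
        linarith
  have hGQ' : ∀ z ∈ ball b (4 * δ), z ≠ b → G z = Q z := by
    intro z hz hzb
    rw [hGQ z hz hzb, hm0, zpow_zero, one_mul]
  refine ⟨G, hG, hGQ', fun z hz => ?_⟩
  rcases le_or_gt δ ‖z - b‖ with h1 | h1
  · have h2 : ‖z - b‖ < 4 * δ := by rwa [mem_ball, dist_eq_norm] at hz
    rw [hGQ' z hz (hpt z h1 h2).2]
    exact hε' z h1 h2
  · have hd : DiffContOnCl ℂ (fun z => G z - 1) (ball b δ) := by
      refine DifferentiableOn.diffContOnCl ?_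
      rw [closure_ball _ hδ.ne']
      exact (hG.mono (closedBall_subset_ball (by linarith))).sub_const 1
    refine Complex.norm_le_of_forall_mem_frontier_norm_le isBounded_ball hd (fun w hw => ?_) (z := z) ?_
    · rw [frontier_ball _ hδ.ne', mem_sphere, dist_eq_norm] at hw
      obtain ⟨h2, h3⟩ := hpt w hw.ge (by linarith)
      rw [hGQ' w h2 h3]
      exact hε' w hw.ge (by linarith)
    · rw [closure_ball _ hδ.ne', mem_closedBall, dist_eq_norm]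
      exact h1.le

end Pool.Agent.H62.LR

end
end

section

/-!
# LR Ident: connectedness outside a discrete set (copy from `H87.LV.Uniq`)
-/

set_option autoImplicit false

open Topology Filter Metric

namespace Pool.Agent.H62.LR

attribute [-instance] ProperSMul.toContinuousSMul

/-- the punctured disc is connected -/
theorem preconnected_punct (z : ℂ) (r : ℝ) : IsPreconnected (ball z r \ {z}) := by
  have h1 : IsPreconnected (Set.Ioo (0 : ℝ) r ×ˢ (Set.univ : Set ℝ)) := isPreconnected_Ioo.prod isPreconnected_univ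
  have hc : Continuous fun p : ℝ × ℝ => z + (p.1 : ℂ) * Complex.exp (p.2 * Complex.I) := by fun_prop
  have h2 := h1.image _ hc.continuousOn
  have h3 : (fun p : ℝ × ℝ => z + (p.1 : ℂ) * Complex.exp (p.2 * Complex.I)) '' (Set.Ioo (0 : ℝ) r ×ˢ (Set.univ : Set ℝ)) = ball z r \ {z} := by
    ext w
    constructor
    · rintro ⟨p, ⟨⟨hp1, hp2⟩, -⟩, rfl⟩
      have hn : ‖(p.1 : ℂ) * Complex.exp (p.2 * Complex.I)‖ = p.1 := by
        rw [norm_mul, Complex.norm_exp_ofReal_mul_I, mul_one, Complex.norm_real, Real.norm_of_nonneg hp1.le]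
      refine ⟨?_, ?_⟩
      · rw [mem_ball, dist_eq_norm, add_sub_cancel_left, hn]
        exact hp2
      · intro h
        have h4 : (p.1 : ℂ) * Complex.exp (p.2 * Complex.I) = 0 := by
          have h5 : z + (p.1 : ℂ) * Complex.exp (p.2 * Complex.I) = z := h
          rwa [add_eq_left] at h5
        rw [h4, norm_zero] at hn
        exact hp1.ne hn
    · rintro ⟨hw, hwz⟩
      have hne : w - z ≠ 0 := sub_ne_zero.2 hwz
      refine ⟨(‖w - z‖, Complex.arg (w - z)), ⟨⟨norm_pos_iff.2 hne, ?_⟩, Set.mem_univ _⟩, ?_⟩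
      · rw [mem_ball, dist_eq_norm] at hw
        exact hw
      · show z + (‖w - z‖ : ℂ) * Complex.exp (Complex.arg (w - z) * Complex.I) = w
        rw [Complex.norm_mul_exp_arg_mul_I]
        ring
  rwa [h3] at h2

theorem ident {Y : Type*} {Ω B : Set ℂ} (hΩ : IsOpen Ω) (hΩc : IsPreconnected Ω) (hB : ∀ z, ∀ᶠ w in 𝓝[≠] z, w ∉ B) {f g : ℂ → Y}
    (hloc : ∀ z ∈ Ω, z ∉ B → (∃ᶠ w in 𝓝[≠] z, f w = g w) → ∀ᶠ w in 𝓝 z, f w = g w) {z₀ : ℂ} (hz₀ : z₀ ∈ Ω) (hz₀B : z₀ ∉ B)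
    (h : ∃ᶠ w in 𝓝[≠] z₀, f w = g w) : ∀ z ∈ Ω, z ∉ B → f z = g z := by
  set A : Set ℂ := {z | ∀ᶠ w in 𝓝[≠] z, f w = g w} with hA
  have hAo : IsOpen A := by
    rw [isOpen_iff_mem_nhds]
    intro z hz
    have h1 : ∀ᶠ w in 𝓝 z, w ≠ z → f w = g w := by
      have h2 : ∀ᶠ w in 𝓝[≠] z, f w = g w := hz
      rwa [eventually_nhdsWithin_iff] at h2
    obtain ⟨V, hV, hVo, hzV⟩ := _root_.mem_nhds_iff.1 h1
    refine Filter.mem_of_superset (hVo.mem_nhds hzV) fun w hw => ?_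
    by_cases hwz : w = z
    · rw [hwz]
      exact hz
    · have h3 : V ∩ {z}ᶜ ∈ 𝓝 w := (hVo.inter isOpen_compl_singleton).mem_nhds ⟨hw, hwz⟩
      have h4 : ∀ᶠ x in 𝓝 w, f x = g x := by
        filter_upwards [h3] with x hx
        exact hV hx.1 hx.2
      exact h4.filter_mono nhdsWithin_le_nhds
  -- near a point of the closure there are points with `f = g`
  have hfreq : ∀ z ∈ closure A, ∃ᶠ w in 𝓝[≠] z, f w = g w := by
    intro z hzc hcontra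
    have h1 : ∀ᶠ w in 𝓝 z, w ≠ z → ¬ f w = g w := by
      rw [eventually_nhdsWithin_iff] at hcontra
      exact hcontra
    obtain ⟨V, hV, hVo, hzV⟩ := _root_.mem_nhds_iff.1 h1
    obtain ⟨w, hwV, hwA⟩ := _root_.mem_closure_iff.1 hzc V hVo hzV
    have h2 : ∀ᶠ x in 𝓝[≠] w, f x = g x := hwA
    have h3 : ∀ᶠ x in 𝓝[≠] w, x ∈ V := mem_nhdsWithin_of_mem_nhds (hVo.mem_nhds hwV)
    by_cases hwz : w = z
    · obtain ⟨x, ⟨hx1, hx2⟩, hx3⟩ := ((h2.and h3).and (self_mem_nhdsWithin : ∀ᶠ x in 𝓝[≠] w, x ∈ ({w}ᶜ : Set ℂ))).exists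
      exact hV hx2 (by rw [← hwz]; exact hx3) hx1
    · have h4 : ∀ᶠ x in 𝓝[≠] w, x ≠ z := mem_nhdsWithin_of_mem_nhds (isOpen_compl_singleton.mem_nhds hwz)
      obtain ⟨x, ⟨hx1, hx2⟩, hx3⟩ := ((h2.and h3).and h4).exists
      exact hV hx2 hx3 hx1
  have hcl1 : ∀ z ∈ Ω, z ∉ B → z ∈ closure A → ∀ᶠ w in 𝓝 z, f w = g w := fun z hz hzB hzc => hloc z hz hzB (hfreq z hzc)
  have hz₀A : z₀ ∈ A := (hloc z₀ hz₀ hz₀B h).filter_mono nhdsWithin_le_nhds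
  have hsub : Ω ⊆ A := by
    refine hΩc.subset_of_closure_inter_subset hAo ⟨z₀, hz₀, hz₀A⟩ ?_
    rintro z ⟨hzc, hz⟩
    by_cases hzB : z ∈ B
    · -- a punctured disc around `z`
      obtain ⟨r, hr, hrb⟩ : ∃ r : ℝ, 0 < r ∧ ∀ w ∈ ball z r, w ∈ Ω ∧ (w ≠ z → w ∉ B) := by
        have h1 : ∀ᶠ w in 𝓝 z, w ∈ Ω ∧ (w ≠ z → w ∉ B) := by
          have h2 := hB z
          rw [eventually_nhdsWithin_iff] at h2
          exact Filter.Eventually.and (hΩ.mem_nhds hz) h2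
        obtain ⟨r, hr, hrb⟩ := Metric.eventually_nhds_iff_ball.1 h1
        exact ⟨r, hr, hrb⟩
      obtain ⟨w, hw, hwA⟩ := _root_.mem_closure_iff.1 hzc (ball z r) isOpen_ball (mem_ball_self hr)
      by_cases hwz : w = z
      · rwa [hwz] at hwA
      · have h3 : ball z r \ {z} ⊆ A := by
          refine (preconnected_punct z r).subset_of_closure_inter_subset hAo ⟨w, ⟨hw, hwz⟩, hwA⟩ ?_
          rintro x ⟨hxc, hx⟩
          exact (hcl1 x (hrb x hx.1).1 ((hrb x hx.1).2 hx.2) hxc).filter_mono nhdsWithin_le_nhds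
        show ∀ᶠ x in 𝓝[≠] z, f x = g x
        rw [eventually_nhdsWithin_iff]
        filter_upwards [ball_mem_nhds z hr] with x hx hxz
        exact (hcl1 x (hrb x hx).1 ((hrb x hx).2 hxz) (subset_closure (h3 ⟨hx, hxz⟩))).self_of_nhds
    · exact (hcl1 z hz hzB hzc).filter_mono nhdsWithin_le_nhds
  intro z hz hzB
  exact (hcl1 z hz hzB (subset_closure (hsub hz))).self_of_nhds

/-- a locally constant property outside a discrete set is constant -/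
theorem const_of_local {Ω B : Set ℂ} (hΩ : IsOpen Ω) (hΩc : IsPreconnected Ω) (hB : ∀ z, ∀ᶠ w in 𝓝[≠] z, w ∉ B) (P : ℂ → Prop)
    (hloc : ∀ z ∈ Ω, z ∉ B → ∀ᶠ w in 𝓝 z, (P w ↔ P z)) {z₀ : ℂ} (hz₀ : z₀ ∈ Ω) (hz₀B : z₀ ∉ B) (h : P z₀) : ∀ z ∈ Ω, z ∉ B → P z := by
  have h1 := ident hΩ hΩc hB (f := fun z => (P z : Prop)) (g := fun _ => True) ?_ hz₀ hz₀B ?_
  · intro z hz hzB
    exact of_eq_true (h1 z hz hzB)
  · intro z hz hzB hfr
    have h2 := hloc z hz hzB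
    have h3 : P z := by
      obtain ⟨w, hw1, hw2⟩ := (hfr.and_eventually (h2.filter_mono nhdsWithin_le_nhds)).exists
      exact hw2.1 (of_eq_true hw1)
    filter_upwards [h2] with w hw
    exact eq_true (hw.2 h3)
  · have h2 := hloc z₀ hz₀ hz₀B
    refine (Eventually.frequently ?_)
    filter_upwards [h2.filter_mono nhdsWithin_le_nhds] with w hw
    exact eq_true (hw.2 h)

end Pool.Agent.H62.LR

end

section

/-!
# LR Defs: functions which omit three or four sections (project LOG-R)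

* `kp`, `kinf`: the model of the Riemann sphere in `MN 1`.
* `Tm B 𝓛 C A Ω`: the functions `f`, meromorphic on `Ω`, which outside the discrete set `B` are holomorphic and different from `0`, `1`, `L z` (`L ∈ 𝓛`), and which
  have values in `A ∪ {∞}` at the points of `C`.  There are two cases: (N) `𝓛 = {L}`, `C = ∅`, `L = 1` at a point of `B`; (I) `𝓛 = ∅`, `C = c + i p ℤ ⊆ B`, `A` finite.
* `Sc`: the family of maps into the sphere, with the sections `∞, 0, 1, L`.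
* `BaseD`: the properties of `B, 𝓛, C, A`.
-/

set_option autoImplicit false

open Topology Filter Metric

noncomputable section

namespace Pool.Agent.H62.LR

attribute [-instance] ProperSMul.toContinuousSMul

open Pool.Agent.H36.BP (EN)
open Pool.Agent.H62.EF (MN pr)
open Pool.Agent.H87.LU (Gd HP Sh AgO)

/-- the vector `(1, w)` -/
def v1 (w : ℂ) : EN 1 := WithLp.toLp 2 ![1, w]

/-- the vector `(0, 1)` -/
def v0 : EN 1 := WithLp.toLp 2 ![0, 1]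

/-- the point `w` of the sphere -/
def kp (w : ℂ) : MN 1 := pr (v1 w)

/-- the point `∞` of the sphere -/
def kinf : MN 1 := pr v0

/-- the functions which omit `0`, `1` and the functions in `𝓛` outside `B`, with values in `A ∪ {∞}` at the points of `C` -/
def Tm (B : Set ℂ) (𝓛 : Set (ℂ → ℂ)) (C A : Set ℂ) (Ω : Set ℂ) : Set (ℂ → ℂ) :=
  {f | (∀ z ∈ Ω, MeromorphicAt f z) ∧ (∀ z ∈ Ω, z ∉ B → AnalyticAt ℂ f z ∧ f z ≠ 0 ∧ f z ≠ 1 ∧ ∀ L ∈ 𝓛, f z ≠ L z) ∧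
    ∀ b ∈ Ω, b ∈ C → ∀ a : ℂ, Tendsto f (𝓝[≠] b) (𝓝 a) → a ∈ A}

/-- the sections -/
def Sec (𝓛 : Set (ℂ → ℂ)) : Set (ℂ → MN 1) :=
  {fun _ => kinf, fun _ => kp 0, fun _ => kp 1} ∪ (fun (L : ℂ → ℂ) (z : ℂ) => kp (L z)) '' 𝓛

/-- the family of maps into the sphere -/
def Sc (B : Set ℂ) (𝓛 : Set (ℂ → ℂ)) (C A : Set ℂ) (Ω : Set ℂ) : Set (ℂ → MN 1) :=
  {y | (∃ s ∈ Sec 𝓛, ∀ z ∈ Ω, z ∉ B → y z = s z) ∨ ∃ f ∈ Tm B 𝓛 C A Ω, ∀ z ∈ Ω, z ∉ B → y z = kp (f z)}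

/-- the hypotheses -/
structure BaseD (p : ℝ) (B : Set ℂ) (δ W : ℝ) (𝓛 : Set (ℂ → ℂ)) (C A : Set ℂ) : Prop where
  p_pos : 0 < p
  δ_pos : 0 < δ
  W_pos : 0 < W
  B_inv : ∀ b ∈ B, ∀ l : ℤ, b + p * l * Complex.I ∈ B
  B_sep : ∀ b ∈ B, ∀ b' ∈ B, b ≠ b' → 8 * δ ≤ ‖b - b'‖
  B_re : ∀ b ∈ B, |b.re| + 4 * δ ≤ W
  sub : 𝓛.Subsingleton
  L_an : ∀ L ∈ 𝓛, ∀ z, z ∉ B → AnalyticAt ℂ L z ∧ L z ≠ 0 ∧ L z ≠ 1
  L_mer : ∀ L ∈ 𝓛, ∀ z, MeromorphicAt L z
  L_per : ∀ L ∈ 𝓛, ∀ z, L (z + p * Complex.I) = L z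
  L_grow : ∀ L ∈ 𝓛, ∃ M : ℝ, 0 ≤ M ∧ ∀ z : ℂ, W - 4 * δ < |z.re| → |Real.log ‖L z‖| ≤ M * (1 + ‖z‖)
  C_sub : C ⊆ B
  C_inv : ∀ b ∈ C, ∀ l : ℤ, b + p * l * Complex.I ∈ C
  A_fin : A.Finite
  A_zero : (0 : ℂ) ∈ A
  A_one : (1 : ℂ) ∈ A

/-- the elementary fields of `HDyn` -/
structure HD0 {Y : Type} [MetricSpace Y] (K : Set Y) (p : ℝ) (B : Set ℂ) (δ W : ℝ) (S : Set ℂ → Set (ℂ → Y)) : Prop where
  compact : IsCompact K
  p_pos : 0 < p
  δ_pos : 0 < δ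
  W_pos : 0 < W
  B_inv : ∀ b ∈ B, ∀ l : ℤ, b + p * l * Complex.I ∈ B
  B_sep : ∀ b ∈ B, ∀ b' ∈ B, b ≠ b' → 8 * δ ≤ ‖b - b'‖
  B_re : ∀ b ∈ B, |b.re| + 4 * δ ≤ W
  anti : ∀ Ω Ω' : Set ℂ, IsOpen Ω → Convex ℝ Ω → IsOpen Ω' → Convex ℝ Ω' → Ω' ⊆ Ω → S Ω ⊆ S Ω'
  mem : ∀ Ω : Set ℂ, IsOpen Ω → Convex ℝ Ω → ∀ f ∈ S Ω, ∀ z ∈ Ω, z ∉ B → f z ∈ K
  lip : ∀ δ' R : ℝ, 0 < δ' → ∃ L : ℝ, 0 < L ∧ ∀ Ω : Set ℂ, IsOpen Ω → Convex ℝ Ω → ∀ f ∈ S Ω, ∀ z ∈ Gd B δ', |z.re| ≤ R → closedBall z δ' ⊆ Ω →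
    ∀ w ∈ closedBall z (δ' / 2), dist (f z) (f w) ≤ L * ‖z - w‖
  trans : ∀ Ω : Set ℂ, IsOpen Ω → Convex ℝ Ω → ∀ f ∈ S Ω, ∀ l : ℤ, (fun z => f (z + p * l * Complex.I)) ∈ S (Sh p l Ω)
  lim : ∀ (𝒰 : Ultrafilter ℕ) (Ω : ℕ → Set ℂ) (F : ℕ → ℂ → Y) (f : ℂ → Y), (∀ n, IsOpen (Ω n) ∧ Convex ℝ (Ω n)) →
    (∀ R : ℝ, ∀ᶠ n in (𝒰 : Filter ℕ), ball 0 R ⊆ Ω n) → (∀ᶠ n in (𝒰 : Filter ℕ), F n ∈ S (Ω n)) →
    (∀ z, z ∉ B → Tendsto (fun n => F n z) 𝒰 (𝓝 (f z))) → f ∈ S Set.univ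
  uniq : ∀ Ω : Set ℂ, IsOpen Ω → Convex ℝ Ω → ∀ f ∈ S Ω, ∀ g ∈ S Ω, ∀ z₀ ∈ Ω, z₀ ∉ B → (∃ᶠ z in 𝓝[≠] z₀, f z = g z) → ∀ z ∈ Ω, z ∉ B → f z = g z

end Pool.Agent.H62.LR

end
end

section

/-!
# LU GlueB: gluing of functions on the horizontal strips of the left part of a convex open set
-/

set_option autoImplicit false

open Topology Filter Metric

namespace Pool.Agent.H87.LU

attribute [-instance] ProperSMul.toContinuousSMul

/-- functions on horizontal strips which agree to the right give one function -/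
theorem glue_bstrips {V : Set ℂ} (hVo : IsOpen V) (hVc : Convex ℝ V) {δ X₁ X₂ M : ℝ} (hδ : 0 < δ) (hX : X₁ < X₂)
    (hVr : ∀ t ∈ V, t.re < X₂ → (⟨max t.re ((X₁ + X₂) / 2), t.im⟩ : ℂ) ∈ V) {J₀ : ℂ → ℂ}
    (hJ : ∀ y : ℝ, (∃ t ∈ V, t.re < X₂ ∧ t.im = y) → ∃ J : ℂ → ℂ, DifferentiableOn ℂ J {t | t ∈ V ∧ t.re < X₂ ∧ |t.im - y| < δ} ∧
      (∀ t ∈ V, X₁ < t.re → t.re < X₂ → |t.im - y| < δ → J t = J₀ t) ∧ ∀ t ∈ V, t.re < X₂ → |t.im - y| < δ → ‖J t‖ ≤ M) :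
    ∃ J : ℂ → ℂ, DifferentiableOn ℂ J {t | t ∈ V ∧ t.re < X₂} ∧ (∀ t ∈ V, X₁ < t.re → t.re < X₂ → J t = J₀ t) ∧
      ∀ t ∈ V, t.re < X₂ → ‖J t‖ ≤ M := by
  have hJ' : ∀ y : ℝ, ∃ J : ℂ → ℂ, (∃ t ∈ V, t.re < X₂ ∧ t.im = y) → DifferentiableOn ℂ J {t | t ∈ V ∧ t.re < X₂ ∧ |t.im - y| < δ} ∧
      (∀ t ∈ V, X₁ < t.re → t.re < X₂ → |t.im - y| < δ → J t = J₀ t) ∧ ∀ t ∈ V, t.re < X₂ → |t.im - y| < δ → ‖J t‖ ≤ M := by
    intro y
    by_cases h : ∃ t ∈ V, t.re < X₂ ∧ t.im = y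
    · obtain ⟨J, h1⟩ := hJ y h
      exact ⟨J, fun _ => h1⟩
    · exact ⟨0, fun h1 => absurd h1 h⟩
  choose Jy hJy using hJ'
  have hself : ∀ t : ℂ, |t.im - t.im| < δ := fun t => by rw [sub_self, abs_zero]; exact hδ
  have hex : ∀ t ∈ V, t.re < X₂ → ∃ s ∈ V, s.re < X₂ ∧ s.im = t.im := fun t ht h1 => ⟨t, ht, h1, rfl⟩
  -- two of the functions agree on the intersection of the strips
  have hagree : ∀ y y' : ℝ, (∃ t ∈ V, t.re < X₂ ∧ t.im = y) → (∃ t ∈ V, t.re < X₂ ∧ t.im = y') →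
      ∀ t ∈ V, t.re < X₂ → |t.im - y| < δ → |t.im - y'| < δ → Jy y t = Jy y' t := by
    intro y y' hy hy' t ht h1 h2 h3
    set Q : Set ℂ := V ∩ ({t : ℂ | t.re < X₂} ∩ ({t : ℂ | t.im < min (y + δ) (y' + δ)} ∩ {t : ℂ | max (y - δ) (y' - δ) < t.im})) with hQ
    have hQc : Convex ℝ Q := hVc.inter ((convex_halfSpace_re_lt X₂).inter ((convex_halfSpace_im_lt _).inter (convex_halfSpace_im_gt _)))
    have hQo : IsOpen Q := hVo.inter ((isOpen_lt Complex.continuous_re continuous_const).inter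
      ((isOpen_lt Complex.continuous_im continuous_const).inter (isOpen_lt continuous_const Complex.continuous_im)))
    have hsub : ∀ w ∈ Q, w ∈ V ∧ w.re < X₂ ∧ |w.im - y| < δ ∧ |w.im - y'| < δ := by
      rintro w ⟨h4, h5, h6, h7⟩
      have h5 : w.re < X₂ := h5
      have h6 : w.im < min (y + δ) (y' + δ) := h6
      have h7 : max (y - δ) (y' - δ) < w.im := h7
      have h8 := (lt_min_iff.1 h6)
      have h10 := (max_lt_iff.1 h7)
      exact ⟨h4, h5, abs_lt.2 ⟨by linarith, by linarith⟩, abs_lt.2 ⟨by linarith, by linarith⟩⟩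
    have htQ : t ∈ Q := by
      obtain ⟨h5, h5'⟩ := abs_lt.1 h2
      obtain ⟨h6, h6'⟩ := abs_lt.1 h3
      refine ⟨ht, h1, ?_, ?_⟩
      · show t.im < min (y + δ) (y' + δ)
        exact lt_min (by linarith) (by linarith)
      · show max (y - δ) (y' - δ) < t.im
        exact max_lt (by linarith) (by linarith)
    have hd : DifferentiableOn ℂ (Jy y) Q := (hJy y hy).1.mono fun w hw => ⟨(hsub w hw).1, (hsub w hw).2.1, (hsub w hw).2.2.1⟩
    have hd' : DifferentiableOn ℂ (Jy y') Q := (hJy y' hy').1.mono fun w hw => ⟨(hsub w hw).1, (hsub w hw).2.1, (hsub w hw).2.2.2⟩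
    -- a point to the right
    set w₀ : ℂ := ⟨max t.re ((X₁ + X₂) / 2), t.im⟩ with hw₀
    have hw₀Q : w₀ ∈ Q := by
      refine ⟨hVr t ht h1, ?_, htQ.2.2.1, htQ.2.2.2⟩
      exact max_lt h1 (by linarith)
    have hw₁ : X₁ < w₀.re := lt_of_lt_of_le (by linarith) (le_max_right _ _)
    have hev : Jy y =ᶠ[𝓝 w₀] Jy y' := by
      have h5 : Q ∩ {w : ℂ | X₁ < w.re} ∈ 𝓝 w₀ :=
        (hQo.inter (isOpen_lt continuous_const Complex.continuous_re)).mem_nhds ⟨hw₀Q, hw₁⟩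
      filter_upwards [h5] with w hw
      have h6 := hsub w hw.1
      rw [(hJy y hy).2.1 w h6.1 hw.2 h6.2.1 h6.2.2.1, (hJy y' hy').2.1 w h6.1 hw.2 h6.2.1 h6.2.2.2]
    exact ((hd.analyticOnNhd hQo).eqOn_of_preconnected_of_eventuallyEq (hd'.analyticOnNhd hQo) hQc.isPreconnected hw₀Q hev) htQ
  set J : ℂ → ℂ := fun t => Jy t.im t with hJdef
  have hleft : ∀ y : ℝ, (∃ t ∈ V, t.re < X₂ ∧ t.im = y) → ∀ t ∈ V, t.re < X₂ → |t.im - y| < δ → J t = Jy y t := fun y hy t ht h1 h2 =>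
    hagree t.im y (hex t ht h1) hy t ht h1 (hself t) h2
  refine ⟨J, ?_, ?_, ?_⟩
  · rintro t ⟨ht, h1⟩
    have hopen : IsOpen {w : ℂ | w ∈ V ∧ w.re < X₂ ∧ |w.im - t.im| < δ} :=
      hVo.inter ((isOpen_lt Complex.continuous_re continuous_const).inter (isOpen_lt (Complex.continuous_im.sub continuous_const).abs continuous_const))
    have hmem : t ∈ {w : ℂ | w ∈ V ∧ w.re < X₂ ∧ |w.im - t.im| < δ} := ⟨ht, h1, hself t⟩
    have h2 : J =ᶠ[𝓝 t] Jy t.im :=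
      Filter.eventuallyEq_of_mem (hopen.mem_nhds hmem) fun w hw => hleft t.im (hex t ht h1) w hw.1 hw.2.1 hw.2.2
    exact (h2.differentiableAt_iff.2 ((hJy t.im (hex t ht h1)).1.differentiableAt (hopen.mem_nhds hmem))).differentiableWithinAt
  · intro t ht h1 h2
    exact (hJy t.im (hex t ht h2)).2.1 t ht h1 h2 (hself t)
  · intro t ht h1
    exact (hJy t.im (hex t ht h1)).2.2 t ht h1 (hself t)

end Pool.Agent.H87.LU

end
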