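import Pool.Agent.H94.CB.H62.Log.Hurwitz
import Pool.Agent.H94.CB.M14
import Pool.Agent.H94.CB.M16
import Pool.Agent.H94.CB.M188

/-! The parts of this file: H17.AhlforsCore, H39.SY.Defs, H4.LU.Rel, H41.LR.Defs, H41.LR.Pic, H46.LR.OneDefs, H5.DG.CoverDefs, H41.LR.Mon, H41.LR.Sch, H92.GGL.Vanish, H92.GGL.SchwarzDisc, H62.LR.Landau, H41.LR.Schottky. -/

section

/-!
# The pointwise inequality behind the Ahlfors–Schwarz lemma

If `Re H + α log ∑ exp (Re Lᵢ) + β log (R² - |z|²)` has a local maximum at `z₀`, with `H`, `Lᵢ`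
holomorphic, then the curvature term of the middle summand is bounded by that of the last one.
-/

open Topology Filter Complex ComplexConjugate

namespace Pool.Agent.H17

attribute [-instance] ProperSMul.toContinuousSMul

/-- Second derivative test at a local maximum. -/
lemma second_deriv_nonpos {f f' : ℝ → ℝ} {c : ℝ} (h1 : ∀ᶠ s in 𝓝 (0 : ℝ), HasDerivAt f (f' s) s)
    (h2 : HasDerivAt f' c 0) (hmax : IsLocalMax f 0) : c ≤ 0 := by
  by_contra hc
  push Not at hc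
  have hd0 : f' 0 = 0 := hmax.hasDerivAt_eq_zero h1.self_of_nhds
  have hde : deriv f =ᶠ[𝓝 0] f' := h1.mono fun s hs => hs.deriv
  have hdd : deriv (deriv f) 0 = c := by
    rw [hde.deriv_eq, h2.deriv]
  have hmin : IsLocalMin f 0 := isLocalMin_of_deriv_deriv_pos (by rw [hdd]; exact hc)
    (by rw [h1.self_of_nhds.deriv, hd0]) h1.self_of_nhds.continuousAt
  have hconst : f =ᶠ[𝓝 0] fun _ => f 0 := by
    filter_upwards [hmin, hmax] with s h3 h4
    exact le_antisymm h4 h3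
  have h5 : deriv f =ᶠ[𝓝 0] fun _ => (0 : ℝ) := by
    have := hconst.deriv
    refine this.trans ?_
    refine Eventually.of_forall fun s => ?_
    simp
  have h6 : deriv (deriv f) 0 = 0 := by
    rw [h5.deriv_eq]; simp
  rw [hdd] at h6
  linarith

/-- The real part of a holomorphic function along a real line. -/
lemma hasDerivAt_re_line {L : ℂ → ℂ} {L' : ℂ} {z₀ v : ℂ} {s : ℝ}
    (h : HasDerivAt L L' (z₀ + s * v)) :
    HasDerivAt (fun t : ℝ => (L (z₀ + t * v)).re) (L' * v).re s := by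
  have hγ : HasDerivAt (fun t : ℝ => z₀ + (t : ℂ) * v) v s := by
    have h0 : HasDerivAt (fun t : ℝ => (t : ℂ)) 1 s := Complex.ofRealCLM.hasDerivAt
    simpa using (h0.mul_const v).const_add z₀
  have h1 : HasDerivAt (fun t : ℝ => L (z₀ + (t : ℂ) * v)) (v • L') s := by
    have := HasDerivAt.scomp s h hγ
    exact this
  have h2 := (Complex.reCLM.hasFDerivAt.comp_hasDerivAt s h1)
  have h3 : Complex.reCLM (v • L') = (L' * v).re := by
    simp [mul_comm]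
  rw [← h3]
  exact h2

lemma hasDerivAt_line {L : ℂ → ℂ} (z₀ v : ℂ) (hL : AnalyticAt ℂ L z₀) :
    (∀ᶠ s : ℝ in 𝓝 (0 : ℝ), HasDerivAt (fun t : ℝ => (L (z₀ + t * v)).re)
      (deriv L (z₀ + s * v) * v).re s) ∧
    HasDerivAt (fun s : ℝ => (deriv L (z₀ + s * v) * v).re) (deriv (deriv L) z₀ * v * v).re 0 := by
  constructor
  · have hev : ∀ᶠ z in 𝓝 z₀, HasDerivAt L (deriv L z) z :=
      hL.eventually_analyticAt.mono fun z hz => hz.differentiableAt.hasDerivAt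
    have hcont : Tendsto (fun s : ℝ => z₀ + (s : ℂ) * v) (𝓝 0) (𝓝 z₀) := by
      have : Continuous (fun s : ℝ => z₀ + (s : ℂ) * v) := by fun_prop
      have h := this.tendsto 0
      simpa using h
    filter_upwards [hcont.eventually hev] with s hs
    exact hasDerivAt_re_line hs
  · have h2 : HasDerivAt (fun z => deriv L z * v) (deriv (deriv L) z₀ * v) z₀ :=
      (hL.deriv.differentiableAt.hasDerivAt).mul_const v
    have h3 : HasDerivAt (fun z => deriv L z * v) (deriv (deriv L) z₀ * v) (z₀ + (0 : ℝ) * v) := by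
      simpa using h2
    exact hasDerivAt_re_line h3

/-- The second derivative along a line of the function considered in the main lemma. -/
lemma second_deriv_line {ι : Type} [Fintype ι] [Nonempty ι] {z₀ v : ℂ} {R α β : ℝ} {H : ℂ → ℂ}
    {L : ι → ℂ → ℂ}
    (hH : AnalyticAt ℂ H z₀) (hL : ∀ i, AnalyticAt ℂ (L i) z₀) (hz : ‖z₀‖ < R)
    (hmax : IsLocalMax (fun z => (H z).re + α * Real.log (∑ i, Real.exp (L i z).re) +
      β * Real.log (R ^ 2 - ‖z‖ ^ 2)) z₀) :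
    (deriv (deriv H) z₀ * v * v).re +
      α * (((∑ i, Real.exp (L i z₀).re * ((deriv (L i) z₀ * v).re ^ 2 +
          (deriv (deriv (L i)) z₀ * v * v).re)) * (∑ i, Real.exp (L i z₀).re) -
        (∑ i, Real.exp (L i z₀).re * (deriv (L i) z₀ * v).re) ^ 2) /
          (∑ i, Real.exp (L i z₀).re) ^ 2) +
      β * ((-2 * ‖v‖ ^ 2 * (R ^ 2 - ‖z₀‖ ^ 2) - (2 * (z₀ * conj v).re) ^ 2) /
        (R ^ 2 - ‖z₀‖ ^ 2) ^ 2) ≤ 0 := by
  classical
  -- the restriction to the line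
  obtain ⟨hH1, hH2⟩ := hasDerivAt_line z₀ v hH
  have hL1 : ∀ᶠ s : ℝ in 𝓝 (0 : ℝ), ∀ i, HasDerivAt (fun t : ℝ => (L i (z₀ + t * v)).re)
      (deriv (L i) (z₀ + s * v) * v).re s :=
    eventually_all.mpr fun i => (hasDerivAt_line z₀ v (hL i)).1
  have hL2 : ∀ i, HasDerivAt (fun s : ℝ => (deriv (L i) (z₀ + s * v) * v).re)
      (deriv (deriv (L i)) z₀ * v * v).re 0 := fun i => (hasDerivAt_line z₀ v (hL i)).2
  have hL0 : ∀ i, HasDerivAt (fun t : ℝ => (L i (z₀ + t * v)).re)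
      (deriv (L i) (z₀ + (0 : ℝ) * v) * v).re 0 := fun i => hL1.self_of_nhds i
  set h : ι → ℝ → ℝ := fun i t => (L i (z₀ + t * v)).re with hh
  set h' : ι → ℝ → ℝ := fun i t => (deriv (L i) (z₀ + t * v) * v).re with hh'
  set M : ℝ → ℝ := fun t => R ^ 2 - (‖z₀‖ ^ 2 + 2 * t * (z₀ * conj v).re + t ^ 2 * ‖v‖ ^ 2) with hM
  set M' : ℝ → ℝ := fun t => - (2 * (z₀ * conj v).re + 2 * t * ‖v‖ ^ 2) with hM'
  have hnorm : ∀ t : ℝ, ‖z₀ + (t : ℂ) * v‖ ^ 2 = ‖z₀‖ ^ 2 + 2 * t * (z₀ * conj v).re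
      + t ^ 2 * ‖v‖ ^ 2 := by
    intro t
    rw [Complex.sq_norm, Complex.normSq_add, Complex.sq_norm, Complex.sq_norm, Complex.normSq_mul,
      Complex.normSq_ofReal, map_mul, Complex.conj_ofReal]
    have : (z₀ * ((t : ℂ) * conj v)).re = t * (z₀ * conj v).re := by
      rw [← Complex.re_ofReal_mul]
      congr 1
      ring
    rw [this]
    ring
  have hMd : ∀ t, HasDerivAt M (M' t) t := by
    intro t
    have h1 : HasDerivAt (fun t : ℝ => 2 * t * (z₀ * conj v).re) (2 * (z₀ * conj v).re) t := by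
      simpa using ((hasDerivAt_id t).const_mul (2 : ℝ)).mul_const ((z₀ * conj v).re)
    have h2 : HasDerivAt (fun t : ℝ => t ^ 2 * ‖v‖ ^ 2) (2 * t * ‖v‖ ^ 2) t := by
      simpa using (hasDerivAt_pow 2 t).mul_const (‖v‖ ^ 2)
    have h3 := (((hasDerivAt_const t (‖z₀‖ ^ 2)).add h1).add h2).const_sub (R ^ 2)
    refine h3.congr_deriv ?_
    simp [hM']
  have hM'd : HasDerivAt M' (-(2 * ‖v‖ ^ 2)) 0 := by
    have h1 : HasDerivAt (fun t : ℝ => 2 * t * ‖v‖ ^ 2) (2 * ‖v‖ ^ 2) 0 := by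
      simpa using ((hasDerivAt_id (0 : ℝ)).const_mul (2 : ℝ)).mul_const (‖v‖ ^ 2)
    have h3 := ((hasDerivAt_const (0 : ℝ) (2 * (z₀ * conj v).re)).add h1).neg
    refine h3.congr_deriv ?_
    simp
  have hM0 : M 0 = R ^ 2 - ‖z₀‖ ^ 2 := by simp [hM]
  have hMpos : 0 < M 0 := by
    rw [hM0]
    have := norm_nonneg z₀
    nlinarith
  have hMev : ∀ᶠ t in 𝓝 (0 : ℝ), 0 < M t :=
    (hMd 0).continuousAt.eventually (lt_mem_nhds hMpos)
  set u : ℝ → ℝ := fun t => ∑ i, Real.exp (h i t) with hu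
  set u' : ℝ → ℝ := fun t => ∑ i, Real.exp (h i t) * h' i t with hu'
  have hupos : ∀ t, 0 < u t := fun t => Finset.sum_pos (fun i _ => Real.exp_pos _)
    Finset.univ_nonempty
  have hud : ∀ᶠ s in 𝓝 (0 : ℝ), HasDerivAt u (u' s) s := by
    filter_upwards [hL1] with s hs
    exact HasDerivAt.fun_sum fun i _ => (hs i).exp
  have hu'd : HasDerivAt u' (∑ i, (Real.exp (h i 0) * h' i 0 * h' i 0 +
      Real.exp (h i 0) * (deriv (deriv (L i)) z₀ * v * v).re)) 0 := by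
    exact HasDerivAt.fun_sum fun i _ => ((hL0 i).exp).mul (hL2 i)
  have hφ1 : ∀ᶠ s : ℝ in 𝓝 (0 : ℝ), HasDerivAt (fun t : ℝ => (H (z₀ + t * v)).re +
      α * Real.log (u t) + β * Real.log (M t))
      ((deriv H (z₀ + s * v) * v).re + α * (u' s / u s) + β * (M' s / M s)) s := by
    filter_upwards [hH1, hud, hMev] with s h1 h2 h3
    exact (h1.add ((h2.log (hupos s).ne').const_mul α)).add
      (((hMd s).log h3.ne').const_mul β)
  have hφ2 : HasDerivAt (fun s : ℝ => (deriv H (z₀ + s * v) * v).re + α * (u' s / u s) +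
      β * (M' s / M s)) ((deriv (deriv H) z₀ * v * v).re +
      α * (((∑ i, (Real.exp (h i 0) * h' i 0 * h' i 0 +
      Real.exp (h i 0) * (deriv (deriv (L i)) z₀ * v * v).re)) * u 0 - u' 0 * u' 0) / u 0 ^ 2) +
      β * ((-(2 * ‖v‖ ^ 2) * M 0 - M' 0 * M' 0) / M 0 ^ 2)) 0 := by
    exact (hH2.add ((hu'd.div hud.self_of_nhds (hupos 0).ne').const_mul α)).add
      ((hM'd.div (hMd 0) hMpos.ne').const_mul β)
  have hloc : IsLocalMax (fun t : ℝ => (H (z₀ + t * v)).re +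
      α * Real.log (u t) + β * Real.log (M t)) 0 := by
    have hcont : Tendsto (fun s : ℝ => z₀ + (s : ℂ) * v) (𝓝 0) (𝓝 z₀) := by
      have : Continuous (fun s : ℝ => z₀ + (s : ℂ) * v) := by fun_prop
      have h := this.tendsto 0
      simpa using h
    have h1 := hcont.eventually hmax
    filter_upwards [h1] with t ht
    have e1 : ∀ t : ℝ, M t = R ^ 2 - ‖z₀ + (t : ℂ) * v‖ ^ 2 := by
      intro t
      rw [hnorm t]
    rw [e1, e1]
    simpa [hu, hh] using ht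
  have hfin := second_deriv_nonpos hφ1 hφ2 hloc
  have e0 : ∀ i, h i 0 = (L i z₀).re := by
    intro i; simp [hh]
  have e0' : ∀ i, h' i 0 = (deriv (L i) z₀ * v).re := by
    intro i; simp [hh']
  have eu : u 0 = ∑ i, Real.exp (L i z₀).re := by simp [hu, e0]
  have eu' : u' 0 = ∑ i, Real.exp (L i z₀).re * (deriv (L i) z₀ * v).re := by
    simp only [hu', e0, e0']
  have eM' : M' 0 = - (2 * (z₀ * conj v).re) := by simp [hM']
  rw [eu, eu', eM', hM0] at hfin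
  simp only [e0, e0'] at hfin
  convert hfin using 5
  · congr 2
    · apply Finset.sum_congr rfl
      intro i _
      ring
    · ring
  · ring
  · ring

lemma split_identity (a1 a2 S1 S2 T1 T2 U m n1 n2 α β : ℝ) (h : a1 + a2 = 0) :
    α * (((S1 + S2) * U - (T1 + T2)) / U ^ 2) + β * ((n1 + n2) / m ^ 2) =
      (a1 + α * ((S1 * U - T1) / U ^ 2) + β * (n1 / m ^ 2)) +
        (a2 + α * ((S2 * U - T2) / U ^ 2) + β * (n2 / m ^ 2)) := by
  linear_combination -h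

/-- **Core inequality.** -/
theorem core_inequality {ι : Type} [Fintype ι] [Nonempty ι] {z₀ : ℂ} {R α β : ℝ} {H : ℂ → ℂ}
    {L : ι → ℂ → ℂ}
    (hH : AnalyticAt ℂ H z₀) (hL : ∀ i, AnalyticAt ℂ (L i) z₀) (hz : ‖z₀‖ < R)
    (hmax : IsLocalMax (fun z => (H z).re + α * Real.log (∑ i, Real.exp (L i z).re) +
      β * Real.log (R ^ 2 - ‖z‖ ^ 2)) z₀) :
    α * (((∑ i, Real.exp (L i z₀).re * ‖deriv (L i) z₀‖ ^ 2) * (∑ i, Real.exp (L i z₀).re) -
        ‖∑ i, (Real.exp (L i z₀).re : ℂ) * deriv (L i) z₀‖ ^ 2) /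
          (∑ i, Real.exp (L i z₀).re) ^ 2) ≤
      β * (4 * R ^ 2 / (R ^ 2 - ‖z₀‖ ^ 2) ^ 2) := by
  have h1 := second_deriv_line (v := 1) hH hL hz hmax
  have h2 := second_deriv_line (v := Complex.I) hH hL hz hmax
  have hm : 0 < R ^ 2 - ‖z₀‖ ^ 2 := by
    have := norm_nonneg z₀
    nlinarith
  set m := R ^ 2 - ‖z₀‖ ^ 2 with hmdef
  set E : ι → ℝ := fun i => Real.exp (L i z₀).re with hE
  set U : ℝ := ∑ i, E i with hU
  have hUpos : 0 < U := Finset.sum_pos (fun i _ => Real.exp_pos _) Finset.univ_nonempty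
  have e1 : (deriv (deriv H) z₀ * 1 * 1).re + (deriv (deriv H) z₀ * Complex.I * Complex.I).re = 0 := by
    simp
  have e2 : (∑ i, E i * ((deriv (L i) z₀ * 1).re ^ 2 + (deriv (deriv (L i)) z₀ * 1 * 1).re)) +
      (∑ i, E i * ((deriv (L i) z₀ * Complex.I).re ^ 2 +
        (deriv (deriv (L i)) z₀ * Complex.I * Complex.I).re)) =
      ∑ i, E i * ‖deriv (L i) z₀‖ ^ 2 := by
    rw [← Finset.sum_add_distrib]
    refine Finset.sum_congr rfl fun i _ => ?_
    rw [Complex.sq_norm, Complex.normSq_apply]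
    simp
    ring
  have e3 : (∑ i, E i * (deriv (L i) z₀ * 1).re) ^ 2 +
      (∑ i, E i * (deriv (L i) z₀ * Complex.I).re) ^ 2 =
      ‖∑ i, (E i : ℂ) * deriv (L i) z₀‖ ^ 2 := by
    rw [Complex.sq_norm, Complex.normSq_apply, Complex.re_sum, Complex.im_sum]
    have a1 : ∀ i, ((E i : ℂ) * deriv (L i) z₀).re = E i * (deriv (L i) z₀ * 1).re := by
      intro i; simp
    have a2 : ∀ i, ((E i : ℂ) * deriv (L i) z₀).im = - (E i * (deriv (L i) z₀ * Complex.I).re) := by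
      intro i; simp
    simp_rw [a1, a2]
    rw [Finset.sum_neg_distrib]
    ring
  have e4 : (2 * (z₀ * conj (1 : ℂ)).re) ^ 2 + (2 * (z₀ * conj Complex.I).re) ^ 2 = 4 * ‖z₀‖ ^ 2 := by
    rw [Complex.sq_norm, Complex.normSq_apply]
    simp
    ring
  have hsum := add_le_add h1 h2
  have key : α * (((∑ i, E i * ‖deriv (L i) z₀‖ ^ 2) * U -
        ‖∑ i, (E i : ℂ) * deriv (L i) z₀‖ ^ 2) / U ^ 2) + β * (-(4 * R ^ 2) / m ^ 2) ≤ 0 := by
    refine le_trans (le_of_eq ?_) (hsum.trans (by simp))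
    rw [← e2, ← e3]
    have e5 : -(4 * R ^ 2) = (-2 * ‖(1 : ℂ)‖ ^ 2 * m - (2 * (z₀ * conj (1 : ℂ)).re) ^ 2) +
        (-2 * ‖Complex.I‖ ^ 2 * m - (2 * (z₀ * conj Complex.I).re) ^ 2) := by
      have : R ^ 2 = m + ‖z₀‖ ^ 2 := by rw [hmdef]; ring
      rw [this]
      simp only [norm_one, Complex.norm_I]
      linear_combination e4
    rw [e5]
    exact split_identity _ _ _ _ _ _ _ _ _ _ _ _ e1
  have : β * (-(4 * R ^ 2) / m ^ 2) = - (β * (4 * R ^ 2 / m ^ 2)) := by ring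
  rw [this] at key
  linarith

end Pool.Agent.H17

end

section

/-!
# Project SY: smooth varieties with a finite morphism onto a fixed variety

Definitions.  `X` is the projective variety given by `I`, `Y` the projective variety given by `P`,
`F` is a finite morphism from `X` to `Y`.
-/

open MvPolynomial Filter Topology

noncomputable section

namespace Pool.Agent.H39.SY

attribute [-instance] ProperSMul.toContinuousSMul

variable {N M n s : ℕ}

/-- The cone of the variety given by `I`. -/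
def Zer (I : Ideal (MvPolynomial (Fin (N + 1)) ℂ)) : Set (Fin (N + 1) → ℂ) :=
  {x | ∀ Q ∈ I, eval x Q = 0}

/-- `σ` is a chart of the variety at `x`, `x l ≠ 0`, with linear coordinates. -/
structure Chart (I : Ideal (MvPolynomial (Fin (N + 1)) ℂ)) (x : Fin (N + 1) → ℂ)
    (l : Fin (N + 1)) (J : Fin n → Fin (N + 1)) (σ : (Fin n → ℂ) → Fin (N + 1) → ℂ) : Prop where
  ne : x l ≠ 0
  an : AnalyticAt ℂ σ 0
  zero : σ 0 = x
  coord : ∀ᶠ u in 𝓝 0, σ u ∈ Zer I ∧ σ u l = x l ∧ ∀ k, σ u (J k) = x (J k) + x l * u k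
  near : ∀ᶠ y in 𝓝 x, y ∈ Zer I →
    y = (y l / x l) • σ (fun k => y (J k) / y l - x (J k) / x l)
  nz : ∀ (d : ℕ) (Q : MvPolynomial (Fin (N + 1)) ℂ), Q.IsHomogeneous d → Q ∉ I →
    ¬ ∀ᶠ u in 𝓝 0, eval (σ u) Q = 0

end Pool.Agent.H39.SY

end
end

section

/-!
# LU Rel: algebraic relations

* `exists_relation`: three polynomials in one variable satisfy a homogeneous relation.
-/

set_option autoImplicit false

open Polynomial

noncomputable section

namespace Pool.Agent.H4.LU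

attribute [-instance] ProperSMul.toContinuousSMul

/-- Three polynomials in one variable satisfy a homogeneous relation. -/
theorem exists_relation (p₀ p₁ p₂ : ℂ[X]) : ∃ (n : ℕ) (c : Fin n × Fin n → ℂ), c ≠ 0 ∧ 1 ≤ n ∧
    ∑ x : Fin n × Fin n, C (c x) * (p₀ ^ (2 * n - x.1.1 - x.2.1) * p₁ ^ x.1.1 * p₂ ^ x.2.1) = 0 := by
  classical
  set D : ℕ := max p₀.natDegree (max p₁.natDegree p₂.natDegree) with hD
  set n : ℕ := 2 * D + 2 with hn
  let mon : Fin n × Fin n → ℂ[X] := fun x => p₀ ^ (2 * n - x.1.1 - x.2.1) * p₁ ^ x.1.1 * p₂ ^ x.2.1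
  have hmon : ∀ x, (mon x).natDegree ≤ 2 * n * D := by
    intro x
    have h0 : p₀.natDegree ≤ D := le_max_left _ _
    have h1 : p₁.natDegree ≤ D := (le_max_left _ _).trans (le_max_right _ _)
    have h2 : p₂.natDegree ≤ D := (le_max_right _ _).trans (le_max_right _ _)
    have hx1 := x.1.2
    have hx2 := x.2.2
    calc (mon x).natDegree ≤ (p₀ ^ (2 * n - x.1.1 - x.2.1) * p₁ ^ x.1.1).natDegree + (p₂ ^ x.2.1).natDegree := natDegree_mul_le
      _ ≤ ((p₀ ^ (2 * n - x.1.1 - x.2.1)).natDegree + (p₁ ^ x.1.1).natDegree) + (p₂ ^ x.2.1).natDegree := by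
          gcongr
          exact natDegree_mul_le
      _ ≤ ((2 * n - x.1.1 - x.2.1) * D + x.1.1 * D) + x.2.1 * D := by
          gcongr
          · exact natDegree_pow_le.trans (Nat.mul_le_mul_left _ h0)
          · exact natDegree_pow_le.trans (Nat.mul_le_mul_left _ h1)
          · exact natDegree_pow_le.trans (Nat.mul_le_mul_left _ h2)
      _ = 2 * n * D := by
          rw [← Nat.add_mul, ← Nat.add_mul]
          congr 1
          omega
  let L : (Fin n × Fin n → ℂ) →ₗ[ℂ] (Fin (2 * n * D + 1) → ℂ) :=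
    { toFun := fun c m => (∑ x, C (c x) * mon x).coeff m
      map_add' := by
        intro c c'
        funext m
        simp only [Pi.add_apply, C_add, add_mul, Finset.sum_add_distrib, coeff_add]
      map_smul' := by
        intro a c
        funext m
        simp only [Pi.smul_apply, smul_eq_mul, C_mul, RingHom.id_apply, mul_assoc, ← Finset.mul_sum, coeff_C_mul] }
  have hker : LinearMap.ker L ≠ ⊥ := by
    apply LinearMap.ker_ne_bot_of_finrank_lt
    rw [Module.finrank_fintype_fun_eq_card, Module.finrank_fintype_fun_eq_card, Fintype.card_prod, Fintype.card_fin, Fintype.card_fin, hn]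
    nlinarith
  obtain ⟨c, hc, hc0⟩ := Submodule.exists_mem_ne_zero_of_ne_bot hker
  refine ⟨n, c, hc0, by omega, ?_⟩
  have h1 : ∀ m : Fin (2 * n * D + 1), (∑ x, C (c x) * mon x).coeff m = 0 := fun m => congrFun (LinearMap.mem_ker.1 hc) m
  ext m
  rw [coeff_zero]
  by_cases hm : m < 2 * n * D + 1
  · exact h1 ⟨m, hm⟩
  · apply coeff_eq_zero_of_natDegree_lt
    refine lt_of_le_of_lt (natDegree_sum_le_of_forall_le _ _ fun x _ => (natDegree_C_mul_le _ _).trans (hmon x)) ?_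
    omega

end Pool.Agent.H4.LU

end
end

section

/-!
# LR Defs: Schottky's theorem as a hypothesis
-/

set_option autoImplicit false

open Topology Filter Metric

noncomputable section

namespace Pool.Agent.H41.LR

attribute [-instance] ProperSMul.toContinuousSMul

/-- `f` omits the values `0`, `1` on `U`. -/
def Om (f : ℂ → ℂ) (U : Set ℂ) : Prop := ∀ w ∈ U, f w ≠ 0 ∧ f w ≠ 1

/-- Schottky's theorem (as a statement). -/
def Schottky : Prop := ∀ M : ℝ, ∃ S : ℝ, ∀ (f : ℂ → ℂ) (z : ℂ) (r : ℝ), 0 < r → DifferentiableOn ℂ f (ball z r) → Om f (ball z r) →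
  ‖f z‖ ≤ M → ∀ w ∈ closedBall z (r / 2), ‖f w‖ ≤ S

theorem Om.mono {f : ℂ → ℂ} {U V : Set ℂ} (h : Om f U) (hV : V ⊆ U) : Om f V := fun w hw => h w (hV hw)

theorem Om.inv {f : ℂ → ℂ} {U : Set ℂ} (h : Om f U) : Om (fun w => (f w)⁻¹) U := by
  intro w hw
  obtain ⟨h1, h2⟩ := h w hw
  exact ⟨inv_ne_zero h1, fun h3 => h2 (inv_eq_one.1 h3)⟩

theorem Om.one_sub {f : ℂ → ℂ} {U : Set ℂ} (h : Om f U) : Om (fun w => 1 - f w) U := by
  intro w hw
  obtain ⟨h1, h2⟩ := h w hw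
  refine ⟨fun h3 => h2 (sub_eq_zero.1 h3).symm, fun h3 => h1 ?_⟩
  have h3' : 1 - f w = 1 := h3
  linear_combination -h3'

theorem Om.diff_inv {f : ℂ → ℂ} {U : Set ℂ} (h : Om f U) (hf : DifferentiableOn ℂ f U) : DifferentiableOn ℂ (fun w => (f w)⁻¹) U :=
  hf.inv fun w hw => (h w hw).1

end Pool.Agent.H41.LR

end
end

section

/-!
# LR Pic: functions without the values `0`, `1` on a punctured disc are meromorphic at the centre
-/

set_option autoImplicit false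

open Topology Filter Metric

noncomputable section

namespace Pool.Agent.H41.LR

attribute [-instance] ProperSMul.toContinuousSMul

/-- On small circles `f` or `1 / f` is bounded by a universal constant. -/
theorem circle_or (hS : Schottky) : ∃ S : ℝ, ∀ (f : ℂ → ℂ) (b : ℂ) (r : ℝ), 0 < r → DifferentiableOn ℂ f (ball b r \ {b}) → Om f (ball b r \ {b}) →
    ∀ ρ : ℝ, 0 < ρ → ρ * Real.exp 14 < r → (∀ w ∈ sphere b ρ, ‖f w‖ ≤ S) ∨ (∀ w ∈ sphere b ρ, ‖(f w)⁻¹‖ ≤ S) := by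
  obtain ⟨S, hS⟩ := hS 1
  refine ⟨S, ?_⟩
  have key : ∀ (f : ℂ → ℂ) (b : ℂ) (r : ℝ), 0 < r → DifferentiableOn ℂ f (ball b r \ {b}) → Om f (ball b r \ {b}) →
      ∀ ρ : ℝ, 0 < ρ → ρ * Real.exp 14 < r → ‖f (b + ρ)‖ ≤ 1 → ∀ w ∈ sphere b ρ, ‖f w‖ ≤ S := by
    intro f b r hr hf hO ρ hρ hρr h1 w hw
    set e : ℂ → ℂ := fun ζ => b + Complex.exp ζ with he
    have hmap : ∀ ζ ∈ ball ((Real.log ρ : ℝ) : ℂ) 14, e ζ ∈ ball b r \ {b} := by
      intro ζ hζ
      refine ⟨?_, ?_⟩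
      · rw [mem_ball_iff_norm, he]
        show ‖b + Complex.exp ζ - b‖ < r
        rw [add_sub_cancel_left, Complex.norm_exp]
        have h2 : ζ.re < Real.log ρ + 14 := by
          rw [mem_ball_iff_norm] at hζ
          have h3 := (Complex.abs_re_le_norm (ζ - ((Real.log ρ : ℝ) : ℂ))).trans_lt hζ
          rw [Complex.sub_re, Complex.ofReal_re] at h3
          linarith [(abs_lt.1 h3).2]
        calc Real.exp ζ.re < Real.exp (Real.log ρ + 14) := Real.exp_lt_exp.2 h2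
          _ = ρ * Real.exp 14 := by rw [Real.exp_add, Real.exp_log hρ]
          _ < r := hρr
      · intro h2
        have h3 : b + Complex.exp ζ = b := h2
        rw [add_eq_left] at h3
        exact Complex.exp_ne_zero _ h3
    have hd : DifferentiableOn ℂ (fun ζ => f (e ζ)) (ball ((Real.log ρ : ℝ) : ℂ) 14) :=
      hf.comp ((differentiable_const b).add Complex.differentiable_exp).differentiableOn hmap
    have hO' : Om (fun ζ => f (e ζ)) (ball ((Real.log ρ : ℝ) : ℂ) 14) := fun ζ hζ => hO _ (hmap ζ hζ)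
    have h0 : ‖f (e ((Real.log ρ : ℝ) : ℂ))‖ ≤ 1 := by
      have h2 : e ((Real.log ρ : ℝ) : ℂ) = b + ρ := by
        show b + Complex.exp ((Real.log ρ : ℝ) : ℂ) = b + ρ
        rw [← Complex.ofReal_exp, Real.exp_log hρ]
      rw [h2]
      exact h1
    have h2 := hS (fun ζ => f (e ζ)) ((Real.log ρ : ℝ) : ℂ) 14 (by norm_num) hd hO' h0
    rw [mem_sphere_iff_norm] at hw
    have hwb : w - b ≠ 0 := by
      intro h3
      rw [h3, norm_zero] at hw
      linarith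
    have h3 : e (Complex.log (w - b)) = w := by
      show b + Complex.exp (Complex.log (w - b)) = w
      rw [Complex.exp_log hwb]
      ring
    have h4 := h2 (Complex.log (w - b)) (by
      rw [mem_closedBall, dist_eq_norm]
      have h5 : Complex.log (w - b) - ((Real.log ρ : ℝ) : ℂ) = ((Complex.arg (w - b) : ℝ) : ℂ) * Complex.I := by
        apply Complex.ext
        · rw [Complex.sub_re, Complex.log_re, hw, Complex.ofReal_re, sub_self]
          simp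
        · rw [Complex.sub_im, Complex.log_im, Complex.ofReal_im, sub_zero]
          simp
      rw [h5, norm_mul, Complex.norm_I, mul_one, Complex.norm_real, Real.norm_eq_abs]
      have h6 := Complex.abs_arg_le_pi (w - b)
      have h7 := Real.pi_lt_d2
      linarith)
    rw [← h3]
    exact h4
  intro f b r hr hf hO ρ hρ hρr
  by_cases h : ‖f (b + ρ)‖ ≤ 1
  · exact Or.inl (key f b r hr hf hO ρ hρ hρr h)
  · right
    push Not at h
    refine key (fun w => (f w)⁻¹) b r hr (hO.diff_inv hf) hO.inv ρ hρ hρr ?_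
    show ‖(f (b + ρ))⁻¹‖ ≤ 1
    rw [norm_inv]
    exact inv_le_one_of_one_le₀ h.le

/-- A bounded holomorphic function on a punctured disc is meromorphic. -/
theorem mero_of_bdd {f : ℂ → ℂ} {b : ℂ} {r S : ℝ} (hr : 0 < r) (hf : DifferentiableOn ℂ f (ball b r \ {b}))
    (hb : ∀ w ∈ ball b r \ {b}, ‖f w‖ ≤ S) : MeromorphicAt f b := by
  have h1 := Complex.differentiableOn_update_limUnder_of_bddAbove (ball_mem_nhds b hr) hf ⟨S, by
    rintro _ ⟨w, hw, rfl⟩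
    exact hb w hw⟩
  have h2 : AnalyticAt ℂ (Function.update f b (limUnder (𝓝[≠] b) f)) b := h1.analyticAt (ball_mem_nhds b hr)
  refine h2.meromorphicAt.congr ?_
  have h3 : ∀ᶠ w in 𝓝[≠] b, w ≠ b := self_mem_nhdsWithin
  filter_upwards [h3] with w hw
  exact Function.update_of_ne hw _ _

/-- the maximum principle on a ring -/
theorem ring_bdd {f : ℂ → ℂ} {b : ℂ} {r S ρ₁ ρ₂ : ℝ} (hf : DifferentiableOn ℂ f (ball b r \ {b})) (h1 : 0 < ρ₁) (h2 : ρ₂ < r)
    (hb1 : ∀ w ∈ sphere b ρ₁, ‖f w‖ ≤ S) (hb2 : ∀ w ∈ sphere b ρ₂, ‖f w‖ ≤ S) {z : ℂ} (hz1 : ρ₁ ≤ ‖z - b‖) (hz2 : ‖z - b‖ ≤ ρ₂) :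
    ‖f z‖ ≤ S := by
  rcases hz1.eq_or_lt with he | hl
  · exact hb1 z (by rw [mem_sphere_iff_norm]; exact he.symm)
  rcases hz2.eq_or_lt with he | hl'
  · exact hb2 z (by rw [mem_sphere_iff_norm]; exact he)
  set U : Set ℂ := {w | ρ₁ < ‖w - b‖ ∧ ‖w - b‖ < ρ₂} with hU
  have hcont : Continuous fun w : ℂ => ‖w - b‖ := (continuous_id.sub continuous_const).norm
  have hcl : closure U ⊆ {w | ρ₁ ≤ ‖w - b‖ ∧ ‖w - b‖ ≤ ρ₂} := by
    refine closure_minimal (fun w hw => ⟨hw.1.le, hw.2.le⟩) ?_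
    exact (isClosed_le continuous_const hcont).inter (isClosed_le hcont continuous_const)
  have hUo : IsOpen U := (isOpen_lt continuous_const hcont).inter (isOpen_lt hcont continuous_const)
  have hUb : Bornology.IsBounded U := by
    refine (isBounded_ball (x := b) (r := ρ₂)).subset ?_
    intro w hw
    rw [mem_ball_iff_norm]
    exact hw.2
  have hd : DiffContOnCl ℂ f U := by
    refine DifferentiableOn.diffContOnCl (hf.mono fun w hw => ?_)
    obtain ⟨h3, h4⟩ := hcl hw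
    refine ⟨by rw [mem_ball_iff_norm]; linarith, ?_⟩
    intro h5
    rw [Set.mem_singleton_iff] at h5
    rw [h5, sub_self, norm_zero] at h3
    linarith
  refine Complex.norm_le_of_forall_mem_frontier_norm_le hUb hd ?_ (subset_closure ⟨hl, hl'⟩)
  intro w hw
  rw [frontier, hUo.interior_eq] at hw
  obtain ⟨h3, h4⟩ := hcl hw.1
  have h5 : ¬ (ρ₁ < ‖w - b‖ ∧ ‖w - b‖ < ρ₂) := hw.2
  rcases h3.eq_or_lt with h6 | h6
  · exact hb1 w (by rw [mem_sphere_iff_norm]; exact h6.symm)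
  · rcases h4.eq_or_lt with h7 | h7
    · exact hb2 w (by rw [mem_sphere_iff_norm]; exact h7)
    · exact absurd ⟨h6, h7⟩ h5

/-- **Picard's theorem**: a function without the values `0`, `1` on a punctured disc is meromorphic at the centre. -/
theorem picard (hS : Schottky) {f : ℂ → ℂ} {b : ℂ} {r : ℝ} (hr : 0 < r) (hf : DifferentiableOn ℂ f (ball b r \ {b}))
    (hO : Om f (ball b r \ {b})) : MeromorphicAt f b := by
  obtain ⟨S, hS⟩ := circle_or hS
  have hE : 0 < Real.exp 14 := Real.exp_pos _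
  have hE1 : 1 ≤ Real.exp 14 := Real.one_le_exp (by norm_num)
  set r' : ℝ := r / (2 * Real.exp 14) with hr'
  have hr'0 : 0 < r' := by positivity
  have hr'e : ∀ ρ, ρ < r' → ρ * Real.exp 14 < r := by
    intro ρ hρ
    have h1 : ρ * Real.exp 14 < r' * Real.exp 14 := mul_lt_mul_of_pos_right hρ hE
    have h2 : r' * Real.exp 14 = r / 2 := by
      rw [hr']
      field_simp
    linarith
  have hr'r : r' < r := by
    rw [hr', div_lt_iff₀ (by positivity)]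
    nlinarith
  by_cases hA : ∀ ρ₀ : ℝ, 0 < ρ₀ → ∃ ρ, 0 < ρ ∧ ρ < ρ₀ ∧ ∀ w ∈ sphere b ρ, ‖f w‖ ≤ S
  · obtain ⟨ρ₂, h20, h2r, hb2⟩ := hA r' hr'0
    refine mero_of_bdd (r := ρ₂) (S := S) h20 (hf.mono fun w hw => ⟨ball_subset_ball (by linarith) hw.1, hw.2⟩) ?_
    intro w hw
    have hw0 : 0 < ‖w - b‖ := norm_pos_iff.2 (sub_ne_zero.2 hw.2)
    obtain ⟨ρ₁, h10, h1r, hb1⟩ := hA ‖w - b‖ hw0
    have hw2 := hw.1
    rw [mem_ball_iff_norm] at hw2
    exact ring_bdd hf h10 (by linarith) hb1 hb2 h1r.le hw2.le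
  · push Not at hA
    obtain ⟨ρ₀, hρ₀, hA⟩ := hA
    set ρ' : ℝ := min ρ₀ r' with hρ'
    have hρ'0 : 0 < ρ' := lt_min hρ₀ hr'0
    have h1 : MeromorphicAt (fun w => (f w)⁻¹) b := by
      refine mero_of_bdd (r := ρ') (S := S) hρ'0 ((hO.diff_inv hf).mono fun w hw => ⟨ball_subset_ball ?_ hw.1, hw.2⟩) ?_
      · exact (min_le_right _ _).trans hr'r.le
      · intro w hw
        have hw0 : 0 < ‖w - b‖ := norm_pos_iff.2 (sub_ne_zero.2 hw.2)
        have hw2 := hw.1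
        rw [mem_ball_iff_norm] at hw2
        rcases hS f b r hr hf hO ‖w - b‖ hw0 (hr'e _ (hw2.trans_le (min_le_right _ _))) with h3 | h3
        · obtain ⟨w', hw', hlt⟩ := hA ‖w - b‖ hw0 (hw2.trans_le (min_le_left _ _))
          exact absurd (h3 w' hw') (not_le.2 hlt)
        · exact h3 w (by rw [mem_sphere_iff_norm])
    have h2 := h1.inv
    refine h2.congr ?_
    filter_upwards with w
    show ((f w)⁻¹)⁻¹ = f w
    exact inv_inv _

end Pool.Agent.H41.LR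

end
end

section

/-!
# LR OneDefs: the interface between the one-variable part (helper62, helper41) and the geometry (project LOG-R)
-/

set_option autoImplicit false

open Topology Filter Metric MvPolynomial

noncomputable section

namespace Pool.Agent.H46.LR

attribute [-instance] ProperSMul.toContinuousSMul

/-- Where `exp (ψ z) ∉ B₀` the meromorphic function `g` has a finite value, not `0` and not `1`. -/
def OmitsAt (B₀ : Set ℂ) (ψ g : ℂ → ℂ) (z : ℂ) : Prop :=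
  Complex.exp (ψ z) ∉ B₀ → ∃ w, w ≠ 0 ∧ w ≠ 1 ∧ Tendsto g (𝓝[≠] z) (𝓝 w)

/-- Where `exp (ψ z) ∉ B₀` the value of `g` is not `p / q` at `exp (ψ z)`. -/
def OmitsSecAt (B₀ : Set ℂ) (p q : Polynomial ℂ) (ψ g : ℂ → ℂ) (z : ℂ) : Prop :=
  Complex.exp (ψ z) ∉ B₀ → ∀ w, Tendsto g (𝓝[≠] z) (𝓝 w) → w * q.eval (Complex.exp (ψ z)) ≠ p.eval (Complex.exp (ψ z))

/-- Where `exp (ψ z) = c` the value of `g` is one of the finitely many points `[s.1 : s.2]` of `ℙ¹`. -/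
def FinAt (c : ℂ) (S : Finset (ℂ × ℂ)) (ψ g : ℂ → ℂ) (z : ℂ) : Prop :=
  Complex.exp (ψ z) = c → ∃ s ∈ S, (s.2 ≠ 0 ∧ Tendsto g (𝓝[≠] z) (𝓝 (s.1 / s.2))) ∨ (s.2 = 0 ∧ Tendsto g (𝓝[≠] z) (Bornology.cobounded ℂ))

/-- On larger and larger discs there are functions `ψ`, `g` with the property `K`, such that `ψ` is close to `φ` and `g` is close to `g₀` on `ball z₀ r`. -/
def Approx (K : (ℂ → ℂ) → (ℂ → ℂ) → ℂ → Prop) (φ g₀ : ℂ → ℂ) (z₀ : ℂ) (r : ℝ) : Prop :=
  ∀ R ε : ℝ, 0 < R → 0 < ε → ∃ ψ g : ℂ → ℂ, DifferentiableOn ℂ ψ (ball 0 R) ∧ MeromorphicOn g (ball 0 R) ∧ (∀ z ∈ ball (0 : ℂ) R, ‖ψ z - φ z‖ < ε) ∧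
    (∀ z ∈ ball z₀ r, ‖g z - g₀ z‖ < ε) ∧ ∀ z ∈ ball (0 : ℂ) R, K ψ g z

/-- the conclusion: the limits are algebraic -/
def Algebraic (B₀ : Set ℂ) (K : (ℂ → ℂ) → (ℂ → ℂ) → ℂ → Prop) : Prop :=
  ∃ (k : ℕ) (Φ : Fin k → MvPolynomial (Fin 2) ℂ), (∀ i, Φ i ≠ 0) ∧ ∀ (φ g₀ : ℂ → ℂ) (z₀ : ℂ) (r : ℝ), 0 < r → DifferentiableOn ℂ g₀ (ball z₀ r) →
    Approx K φ g₀ z₀ r →
      (∀ a b c : ℂ, a ≠ 0 ∨ b ≠ 0 → (∀ z, φ z = a * z ^ 2 + b * z + c) → ∃ i, ∀ z ∈ ball z₀ r, eval ![Complex.exp (φ z), g₀ z] (Φ i) = 0) ∧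
      ∀ c : ℂ, Complex.exp c ∉ B₀ → (∀ z, φ z = c) → ∀ z ∈ ball z₀ r, g₀ z = g₀ z₀

/-- case (N) -/
def MainN : Prop :=
  ∀ (B₀ : Set ℂ) (p q : Polynomial ℂ), B₀.Finite → q ≠ 0 → (∀ t : ℂ, p ≠ Polynomial.C t * q) →
    Algebraic B₀ fun ψ g z => OmitsAt B₀ ψ g z ∧ OmitsSecAt B₀ p q ψ g z

/-- case (I) -/
def MainI : Prop :=
  ∀ (B₀ : Set ℂ) (c : ℂ) (S : Finset (ℂ × ℂ)), B₀.Finite → c ≠ 0 → ((0 : ℂ), (0 : ℂ)) ∉ S →
    Algebraic B₀ fun ψ g z => OmitsAt B₀ ψ g z ∧ FinAt c S ψ g z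

end Pool.Agent.H46.LR

end
end

section

/-!
# Project DG, module CoverDefs: finite covers of projective space, definitions

`X ⊆ ℙ^Nn` is given by a homogeneous prime ideal `I`; forms `F 0, …, F (n + 1)` of degree `e`
without common zero on `X` define a finite morphism `X → ℙ^(n + 1)`.
-/

open MvPolynomial

noncomputable section

namespace Pool.Agent.H5.DG

attribute [-instance] ProperSMul.toContinuousSMul

variable {Nn : ℕ}

/-- The ideal `I` is homogeneous. -/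
def Homog (I : Ideal (MvPolynomial (Fin (Nn + 1)) ℂ)) : Prop :=
  ∀ p ∈ I, ∀ k, homogeneousComponent k p ∈ I

end Pool.Agent.H5.DG

end
end

section

/-!
# LR Mon: Montel's theorem for functions without the values `0`, `1`, along an ultrafilter
-/

set_option autoImplicit false

open Topology Filter Metric

noncomputable section

namespace Pool.Agent.H41.LR

attribute [-instance] ProperSMul.toContinuousSMul

/-- `g n` is holomorphic on a neighbourhood of every point of `Ω`, for most `n` -/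
def EvD (𝒰 : Ultrafilter ℕ) (g : ℕ → ℂ → ℂ) (Ω : Set ℂ) : Prop :=
  ∀ z ∈ Ω, ∃ r : ℝ, 0 < r ∧ ∀ᶠ n in (𝒰 : Filter ℕ), DifferentiableOn ℂ (g n) (ball z r) ∧ ∀ w ∈ ball z r, g n w ≠ 0

/-- the same, and `g n` omits `0`, `1` -/
def EvO (𝒰 : Ultrafilter ℕ) (g : ℕ → ℂ → ℂ) (Ω : Set ℂ) : Prop :=
  ∀ z ∈ Ω, ∃ r : ℝ, 0 < r ∧ ∀ᶠ n in (𝒰 : Filter ℕ), DifferentiableOn ℂ (g n) (ball z r) ∧ Om (g n) (ball z r)

theorem EvO.evD {𝒰 : Ultrafilter ℕ} {g : ℕ → ℂ → ℂ} {Ω : Set ℂ} (h : EvO 𝒰 g Ω) : EvD 𝒰 g Ω := by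
  intro z hz
  obtain ⟨r, hr, h1⟩ := h z hz
  exact ⟨r, hr, h1.mono fun n hn => ⟨hn.1, fun w hw => (hn.2 w hw).1⟩⟩

theorem EvO.evD_one {𝒰 : Ultrafilter ℕ} {g : ℕ → ℂ → ℂ} {Ω : Set ℂ} (h : EvO 𝒰 g Ω) : EvD 𝒰 (fun n z => 1 - g n z) Ω := by
  intro z hz
  obtain ⟨r, hr, h1⟩ := h z hz
  exact ⟨r, hr, h1.mono fun n hn => ⟨hn.1.const_sub 1, fun w hw => (hn.2.one_sub w hw).1⟩⟩

/-- a set which is open, with open complement in a preconnected set -/
theorem all_of_clopen {Ω A : Set ℂ} (hc : IsPreconnected Ω) (h1 : ∀ z ∈ Ω, z ∈ A → A ∈ 𝓝 z) (h2 : ∀ z ∈ Ω, z ∉ A → Aᶜ ∈ 𝓝 z)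
    {z₀ : ℂ} (hz₀ : z₀ ∈ Ω) (hA : z₀ ∈ A) : Ω ⊆ A := by
  have h3 := hc (interior A) (interior Aᶜ) isOpen_interior isOpen_interior (by
    intro z hz
    by_cases h : z ∈ A
    · exact Or.inl (mem_interior_iff_mem_nhds.2 (h1 z hz h))
    · exact Or.inr (mem_interior_iff_mem_nhds.2 (h2 z hz h))) ⟨z₀, hz₀, mem_interior_iff_mem_nhds.2 (h1 z₀ hz₀ hA)⟩
  intro z hz
  by_contra h
  obtain ⟨w, -, hw1, hw2⟩ := h3 ⟨z, hz, mem_interior_iff_mem_nhds.2 (h2 z hz h)⟩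
  exact (interior_subset hw2) (interior_subset hw1)

/-- **Hurwitz** on connected open sets -/
theorem hur {𝒰 : Ultrafilter ℕ} {φ : ℕ → ℂ → ℂ} {ψ : ℂ → ℂ} {Ω : Set ℂ} (hΩ : IsOpen Ω) (hc : IsPreconnected Ω)
    (hψ : DifferentiableOn ℂ ψ Ω) (h : TendstoLocallyUniformlyOn φ ψ (𝒰 : Filter ℕ) Ω) (hE : EvD 𝒰 φ Ω) :
    (∀ z ∈ Ω, ψ z = 0) ∨ ∀ z ∈ Ω, ψ z ≠ 0 := by
  have hloc : ∀ z ∈ Ω, ∃ r : ℝ, 0 < r ∧ ball z r ⊆ Ω ∧ ((∀ w ∈ ball z r, ψ w = 0) ∨ ∀ w ∈ ball z r, ψ w ≠ 0) := by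
    intro z hz
    obtain ⟨r, hr, h1⟩ := hE z hz
    obtain ⟨s, hs, hsΩ⟩ := Metric.isOpen_iff.1 hΩ z hz
    have hsub : ball z (min r s) ⊆ ball z r := ball_subset_ball (min_le_left _ _)
    have hsub' : ball z (min r s) ⊆ Ω := (ball_subset_ball (min_le_right _ _)).trans hsΩ
    refine ⟨min r s, lt_min hr hs, hsub', ?_⟩
    refine Pool.Agent.H62.Log.hurwitz 𝒰 (φ := φ) ?_ ?_ (hψ.mono hsub') ?_
    · exact h1.mono fun n hn => hn.1.mono hsub
    · exact h1.mono fun n hn w hw => hn.2 w (hsub hw)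
    · intro w w₀ hw₀ hw
      have h2 := (h.mono hsub')
      refine h2.tendsto_comp ((hψ.mono hsub').continuousOn w₀ hw₀) hw₀ ?_
      rw [isOpen_ball.nhdsWithin_eq hw₀]
      exact hw
  by_cases hex : ∃ z₀ ∈ Ω, ψ z₀ = 0
  · obtain ⟨z₀, hz₀, h0⟩ := hex
    left
    refine all_of_clopen (A := {z | ψ z = 0}) hc ?_ ?_ hz₀ h0
    · intro z hz hzA
      obtain ⟨r, hr, -, h1 | h1⟩ := hloc z hz
      · exact mem_of_superset (ball_mem_nhds z hr) h1
      · exact absurd hzA (h1 z (mem_ball_self hr))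
    · intro z hz hzA
      exact ((hψ.differentiableAt (hΩ.mem_nhds hz)).continuousAt).eventually_ne hzA
  · right
    push Not at hex
    exact hex

/-- local boundedness from boundedness at one point -/
theorem EvO.locBdd (hS : Schottky) {𝒰 : Ultrafilter ℕ} {g : ℕ → ℂ → ℂ} {Ω : Set ℂ} (h : EvO 𝒰 g Ω) {z : ℂ} (hz : z ∈ Ω) {M : ℝ}
    (hM : ∀ᶠ n in (𝒰 : Filter ℕ), ‖g n z‖ ≤ M) : ∃ (r S : ℝ), 0 < r ∧
      ∀ᶠ n in (𝒰 : Filter ℕ), DifferentiableOn ℂ (g n) (ball z r) ∧ Om (g n) (ball z r) ∧ ∀ w ∈ ball z r, ‖g n w‖ ≤ S := by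
  obtain ⟨r, hr, h1⟩ := h z hz
  obtain ⟨S, hS⟩ := hS M
  refine ⟨r / 2, S, by positivity, ?_⟩
  have hsub : ball z (r / 2) ⊆ ball z r := ball_subset_ball (by linarith)
  filter_upwards [h1, hM] with n hn hn'
  exact ⟨hn.1.mono hsub, hn.2.mono hsub, fun w hw => hS (g n) z r hr hn.1 hn.2 hn' w (ball_subset_closedBall hw)⟩

theorem EvO.inv {𝒰 : Ultrafilter ℕ} {g : ℕ → ℂ → ℂ} {Ω : Set ℂ} (h : EvO 𝒰 g Ω) : EvO 𝒰 (fun n z => (g n z)⁻¹) Ω := by
  intro z hz
  obtain ⟨r, hr, h1⟩ := h z hz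
  exact ⟨r, hr, h1.mono fun n hn => ⟨hn.2.diff_inv hn.1, hn.2.inv⟩⟩

/-- **Montel's theorem** for functions without the values `0`, `1`. -/
theorem montel (hS : Schottky) {𝒰 : Ultrafilter ℕ} {g : ℕ → ℂ → ℂ} {Ω : Set ℂ} (hΩ : IsOpen Ω) (hc : IsPreconnected Ω) (h : EvO 𝒰 g Ω)
    {z₀ : ℂ} (hz₀ : z₀ ∈ Ω) {M : ℝ} (hM : ∀ᶠ n in (𝒰 : Filter ℕ), ‖g n z₀‖ ≤ M) :
    ∃ G : ℂ → ℂ, DifferentiableOn ℂ G Ω ∧ TendstoLocallyUniformlyOn g G (𝒰 : Filter ℕ) Ω ∧
      (Om G Ω ∨ (∀ z ∈ Ω, G z = 0) ∨ ∀ z ∈ Ω, G z = 1) := by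
  have hbd : Ω ⊆ {z | ∃ M : ℝ, ∀ᶠ n in (𝒰 : Filter ℕ), ‖g n z‖ ≤ M} := by
    refine all_of_clopen hc ?_ ?_ hz₀ ⟨M, hM⟩
    · rintro z hz ⟨M', hM'⟩
      obtain ⟨r, S, hr, h1⟩ := h.locBdd hS hz hM'
      refine mem_of_superset (ball_mem_nhds z hr) fun w hw => ⟨S, ?_⟩
      exact h1.mono fun n hn => hn.2.2 w hw
    · intro z hz hzA
      have h1 : ∀ M' : ℝ, ∀ᶠ n in (𝒰 : Filter ℕ), M' < ‖g n z‖ := by
        intro M'
        by_contra h2
        apply hzA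
        refine ⟨M', ?_⟩
        rw [Ultrafilter.eventually_not.symm] at h2
        exact h2.mono fun n hn => not_lt.1 hn
      have h2 : ∀ᶠ n in (𝒰 : Filter ℕ), ‖(g n z)⁻¹‖ ≤ 1 := by
        filter_upwards [h1 1] with n hn
        rw [norm_inv]
        exact inv_le_one_of_one_le₀ hn.le
      obtain ⟨r, S, hr, h3⟩ := h.inv.locBdd hS hz h2
      obtain ⟨H, hH, hlim⟩ := Pool.Agent.H17.montel_ultrafilter 𝒰 (F := fun n z => (g n z)⁻¹) (a := z) (r := r) (B := S)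
        (h3.mono fun n hn => hn.1) (h3.mono fun n hn => hn.2.2)
      have h0 : H z = 0 := by
        have h4 : Tendsto (fun n => (g n z)⁻¹) (𝒰 : Filter ℕ) (𝓝 (H z)) := hlim.tendsto_at (mem_ball_self hr)
        have h5 : Tendsto (fun n => (g n z)⁻¹) (𝒰 : Filter ℕ) (𝓝 0) := by
          rw [tendsto_zero_iff_norm_tendsto_zero]
          refine Metric.tendsto_nhds.2 fun ε hε => ?_
          filter_upwards [h1 ε⁻¹] with n hn
          rw [Real.dist_eq, sub_zero, abs_norm, norm_inv]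
          exact inv_lt_of_inv_lt₀ hε hn
        exact tendsto_nhds_unique h4 h5
      have h6 : (∀ w ∈ ball z r, H w = 0) ∨ ∀ w ∈ ball z r, H w ≠ 0 := by
        refine hur isOpen_ball (convex_ball z r).isPreconnected hH hlim ?_
        intro w hw
        obtain ⟨s, hs, hsr⟩ := Metric.isOpen_iff.1 isOpen_ball w hw
        exact ⟨s, hs, h3.mono fun n hn => ⟨hn.1.mono hsr, fun x hx => (hn.2.1 x (hsr hx)).1⟩⟩
      rcases h6 with h6 | h6
      · refine mem_of_superset (ball_mem_nhds z hr) ?_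
        rintro w hw ⟨M', hM'⟩
        have h7 : Tendsto (fun n => (g n w)⁻¹) (𝒰 : Filter ℕ) (𝓝 (H w)) := hlim.tendsto_at hw
        rw [h6 w hw] at h7
        have h8 : ∀ᶠ n in (𝒰 : Filter ℕ), ‖(g n w)⁻¹‖ < (|M'| + 1)⁻¹ := by
          have h9 := (tendsto_zero_iff_norm_tendsto_zero.1 h7).eventually (gt_mem_nhds (show (0 : ℝ) < (|M'| + 1)⁻¹ by positivity))
          exact h9
        obtain ⟨n, hn1, hn2, hn3⟩ := (h8.and (hM'.and h3)).exists
        have h10 : 0 < ‖g n w‖ := norm_pos_iff.2 fun h11 => (hn3.2.1 w hw).1 (by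
          show (g n w)⁻¹ = 0
          rw [h11, inv_zero])
        rw [norm_inv, inv_lt_inv₀ h10 (by positivity)] at hn1
        have := le_abs_self M'
        linarith
      · exact absurd h0 (h6 z (mem_ball_self hr))
  have hloc : ∀ z ∈ Ω, ∃ (r : ℝ) (H : ℂ → ℂ), 0 < r ∧ ball z r ⊆ Ω ∧ DifferentiableOn ℂ H (ball z r) ∧
      TendstoLocallyUniformlyOn g H (𝒰 : Filter ℕ) (ball z r) := by
    intro z hz
    obtain ⟨M', hM'⟩ := hbd hz
    obtain ⟨r, S, hr, h1⟩ := h.locBdd hS hz hM'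
    obtain ⟨s, hs, hsΩ⟩ := Metric.isOpen_iff.1 hΩ z hz
    have hsub : ball z (min r s) ⊆ ball z r := ball_subset_ball (min_le_left _ _)
    obtain ⟨H, hH, hlim⟩ := Pool.Agent.H17.montel_ultrafilter 𝒰 (F := g) (a := z) (r := min r s) (B := S)
      (h1.mono fun n hn => hn.1.mono hsub) (h1.mono fun n hn w hw => hn.2.2 w (hsub hw))
    exact ⟨min r s, H, lt_min hr hs, (ball_subset_ball (min_le_right _ _)).trans hsΩ, hH, hlim⟩
  have hlim : ∀ z : ℂ, ∃ l : ℂ, z ∈ Ω → Tendsto (fun n => g n z) (𝒰 : Filter ℕ) (𝓝 l) := by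
    intro z
    by_cases hz : z ∈ Ω
    · obtain ⟨r, H, hr, -, -, h1⟩ := hloc z hz
      exact ⟨H z, fun _ => h1.tendsto_at (mem_ball_self hr)⟩
    · exact ⟨0, fun h => absurd h hz⟩
  choose G hG using hlim
  have hGH : ∀ z ∈ Ω, ∃ r : ℝ, 0 < r ∧ ball z r ⊆ Ω ∧ DifferentiableOn ℂ G (ball z r) ∧
      TendstoLocallyUniformlyOn g G (𝒰 : Filter ℕ) (ball z r) := by
    intro z hz
    obtain ⟨r, H, hr, hsub, hH, h1⟩ := hloc z hz
    have heq : Set.EqOn H G (ball z r) := fun w hw => tendsto_nhds_unique (h1.tendsto_at hw) (hG w (hsub hw))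
    exact ⟨r, hr, hsub, hH.congr fun w hw => (heq hw).symm, h1.congr_right heq⟩
  have hGd : DifferentiableOn ℂ G Ω := by
    intro z hz
    obtain ⟨r, hr, hsub, hd, -⟩ := hGH z hz
    exact (hd.differentiableAt (ball_mem_nhds z hr)).differentiableWithinAt
  have hGt : TendstoLocallyUniformlyOn g G (𝒰 : Filter ℕ) Ω := by
    intro u hu z hz
    obtain ⟨r, hr, hsub, -, ht⟩ := hGH z hz
    obtain ⟨t, ht1, ht2⟩ := ht u hu z (mem_ball_self hr)
    refine ⟨t, ?_, ht2⟩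
    rw [isOpen_ball.nhdsWithin_eq (mem_ball_self hr)] at ht1
    exact mem_nhdsWithin_of_mem_nhds ht1
  refine ⟨G, hGd, hGt, ?_⟩
  rcases hur hΩ hc hGd hGt h.evD with h1 | h1
  · exact Or.inr (Or.inl h1)
  · have h2 : TendstoLocallyUniformlyOn (fun n z => 1 - g n z) (fun z => 1 - G z) (𝒰 : Filter ℕ) Ω := by
      have h3 : TendstoLocallyUniformlyOn (fun (_ : ℕ) (_ : ℂ) => (1 : ℂ)) (fun _ => 1) (𝒰 : Filter ℕ) Ω := by
        intro u hu z _
        exact ⟨Set.univ, univ_mem, Eventually.of_forall fun _ _ _ => refl_mem_uniformity hu⟩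
      exact h3.sub hGt
    rcases hur hΩ hc (hGd.const_sub 1) h2 h.evD_one with h3 | h3
    · right
      right
      intro z hz
      exact (sub_eq_zero.1 (h3 z hz)).symm
    · left
      intro z hz
      exact ⟨h1 z hz, fun h4 => h3 z hz (by rw [h4, sub_self])⟩

end Pool.Agent.H41.LR

end
end

section

/-!
# LR Sch: Schottky's theorem from the local statements
-/

set_option autoImplicit false

open Topology Filter Metric

noncomputable section

namespace Pool.Agent.H41.LR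

attribute [-instance] ProperSMul.toContinuousSMul

/-- bounded at the centre: bounded on a smaller ball (statement) -/
def LocalBound : Prop := ∀ M : ℝ, ∃ c : ℝ, 0 < c ∧ c ≤ 1 ∧ ∀ (X : ℂ → ℂ) (z : ℂ) (R : ℝ), 0 < R → DifferentiableOn ℂ X (ball z R) →
    (∀ w ∈ ball z R, X w ≠ 0 ∧ X w ≠ 1) → ‖X z‖ ≤ M → ∀ w ∈ ball z (c * R), ‖X w‖ ≤ M + 1

/-- small at the centre: small on a smaller ball (statement) -/
def Harnack3 : Prop := ∃ c : ℝ, 0 < c ∧ c ≤ 1 ∧ ∀ (X : ℂ → ℂ) (z : ℂ) (R : ℝ), 0 < R → DifferentiableOn ℂ X (ball z R) →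
    (∀ w ∈ ball z R, X w ≠ 0 ∧ X w ≠ 1) → ‖X z‖ ≤ 1 / 2 → ∀ w ∈ ball z (c * R), ‖X w‖ ^ 3 ≤ ‖X z‖

/-- **Schottky's theorem** -/
theorem schottky_of (hL : LocalBound) (hH : Harnack3) : Schottky := by
  intro M
  by_contra hcon
  push Not at hcon
  -- normalised counterexamples
  have hex : ∀ n : ℕ, ∃ (f : ℂ → ℂ) (w : ℂ), DifferentiableOn ℂ f (ball 0 1) ∧ Om f (ball 0 1) ∧ ‖f 0‖ ≤ M ∧ ‖w‖ ≤ 1 / 2 ∧ (n : ℝ) < ‖f w‖ := by
    intro n
    obtain ⟨f, z, r, hr, hd, hO, h0, w, hw, hn⟩ := hcon n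
    have hmap : ∀ ζ ∈ ball (0 : ℂ) 1, z + r * ζ ∈ ball z r := by
      intro ζ hζ
      rw [mem_ball_zero_iff] at hζ
      rw [mem_ball_iff_norm, add_sub_cancel_left, norm_mul, Complex.norm_real, Real.norm_eq_abs, abs_of_pos hr]
      nlinarith
    have hrc : (r : ℂ) ≠ 0 := by exact_mod_cast hr.ne'
    refine ⟨fun ζ => f (z + r * ζ), (w - z) / r, ?_, fun ζ hζ => hO _ (hmap ζ hζ), ?_, ?_, ?_⟩
    · exact hd.comp ((differentiable_const z).add ((differentiable_const (r : ℂ)).mul differentiable_id)).differentiableOn hmap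
    · show ‖f (z + r * 0)‖ ≤ M
      rw [mul_zero, add_zero]
      exact h0
    · rw [norm_div, Complex.norm_real, Real.norm_eq_abs, abs_of_pos hr, div_le_iff₀ hr]
      rw [mem_closedBall_iff_norm] at hw
      linarith
    · show (n : ℝ) < ‖f (z + r * ((w - z) / r))‖
      rw [mul_div_cancel₀ _ hrc]
      have h1 : z + (w - z) = w := by ring
      rw [h1]
      exact hn
  choose f w hd hO h0 hw hn using hex
  set 𝒰 : Ultrafilter ℕ := hyperfilter ℕ with h𝒰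
  have hbd : ball (0 : ℂ) 1 ⊆ {z | ∃ M : ℝ, ∀ᶠ n in (𝒰 : Filter ℕ), ‖f n z‖ ≤ M} := by
    refine all_of_clopen (z₀ := 0) (convex_ball (0 : ℂ) 1).isPreconnected ?_ ?_ (mem_ball_self one_pos) ⟨M, Eventually.of_forall h0⟩
    · rintro z hz ⟨M', hM'⟩
      obtain ⟨c, hc, hc1, hLc⟩ := hL M'
      have hR : 0 < 1 - ‖z‖ := by
        rw [mem_ball_zero_iff] at hz
        linarith
      have hsub : ball z (1 - ‖z‖) ⊆ ball (0 : ℂ) 1 := by
        refine ball_subset_ball' ?_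
        rw [dist_zero_right]
        linarith
      refine mem_of_superset (ball_mem_nhds z (mul_pos hc hR)) fun x hx => ⟨M' + 1, ?_⟩
      filter_upwards [hM'] with n h1
      exact hLc (f n) z _ hR ((hd n).mono hsub) (fun y hy => hO n y (hsub hy)) h1 x hx
    · intro z hz hzA
      obtain ⟨c, hc, hc1, hHc⟩ := hH
      have hR : 0 < 1 - ‖z‖ := by
        rw [mem_ball_zero_iff] at hz
        linarith
      have hsub : ball z (1 - ‖z‖) ⊆ ball (0 : ℂ) 1 := by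
        refine ball_subset_ball' ?_
        rw [dist_zero_right]
        linarith
      have hbig : ∀ M' : ℝ, ∀ᶠ n in (𝒰 : Filter ℕ), M' < ‖f n z‖ := by
        intro M'
        by_contra h2
        apply hzA
        refine ⟨M', ?_⟩
        rw [Ultrafilter.eventually_not.symm] at h2
        exact h2.mono fun n hn => not_lt.1 hn
      have hsub2 : ball z (c * (1 - ‖z‖)) ⊆ ball z (1 - ‖z‖) := ball_subset_ball (by nlinarith)
      refine mem_of_superset (ball_mem_nhds z (mul_pos hc hR)) ?_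
      rintro x hx ⟨M', hM'⟩
      obtain ⟨n, h1, h2⟩ := ((hbig (max 2 (|M'| + 1) ^ 3)).and hM').exists
      have hm2 : (2 : ℝ) ≤ max 2 (|M'| + 1) := le_max_left _ _
      have hm3 : |M'| + 1 ≤ max 2 (|M'| + 1) := le_max_right _ _
      have hz0 : 0 < ‖f n z‖ := norm_pos_iff.2 (hO n z hz).1
      have hx0 : 0 < ‖f n x‖ := norm_pos_iff.2 (hO n x (hsub (hsub2 hx))).1
      have h3 : ‖(f n z)⁻¹‖ ≤ 1 / 2 := by
        rw [norm_inv, one_div]
        refine inv_anti₀ two_pos ?_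
        have h4 : (2 : ℝ) ≤ max 2 (|M'| + 1) ^ 3 := by nlinarith [mul_self_nonneg (max 2 (|M'| + 1))]
        linarith
      have h5 := hHc (fun y => (f n y)⁻¹) z _ hR (((hO n).mono hsub).diff_inv ((hd n).mono hsub)) ((hO n).mono hsub).inv h3 x hx
      have h6 : ‖(f n x)⁻¹‖ ^ 3 ≤ ‖(f n z)⁻¹‖ := h5
      rw [norm_inv, norm_inv] at h6
      have h7 : ‖f n z‖ ≤ ‖f n x‖ ^ 3 := by
        rw [inv_pow] at h6
        exact (inv_le_inv₀ (by positivity) hz0).1 h6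
      have h8 : ‖f n x‖ ^ 3 ≤ (max 2 (|M'| + 1)) ^ 3 := by
        refine pow_le_pow_left₀ hx0.le ?_ 3
        have := le_abs_self M'
        linarith
      linarith
  have hwm : ∀ᶠ n in (𝒰 : Filter ℕ), w n ∈ closedBall (0 : ℂ) (1 / 2) := Eventually.of_forall fun n => by
    rw [mem_closedBall_zero_iff]
    exact hw n
  obtain ⟨a, ha, hlim⟩ := (isCompact_closedBall (0 : ℂ) (1 / 2)).ultrafilter_le_nhds (𝒰.map w) (by
    rw [le_principal_iff]
    exact hwm)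
  have ha1 : a ∈ ball (0 : ℂ) 1 := by
    rw [mem_closedBall_zero_iff] at ha
    rw [mem_ball_zero_iff]
    linarith
  obtain ⟨M', hM'⟩ := hbd ha1
  obtain ⟨c, hc, hc1, hLc⟩ := hL M'
  have hR : 0 < 1 - ‖a‖ := by
    rw [mem_ball_zero_iff] at ha1
    linarith
  have hsub : ball a (1 - ‖a‖) ⊆ ball (0 : ℂ) 1 := by
    refine ball_subset_ball' ?_
    rw [dist_zero_right]
    linarith
  have h1 : ∀ᶠ n in (𝒰 : Filter ℕ), w n ∈ ball a (c * (1 - ‖a‖)) := hlim (ball_mem_nhds a (mul_pos hc hR))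
  have h2 : ∀ᶠ n in (𝒰 : Filter ℕ), ‖f n (w n)‖ ≤ M' + 1 := by
    filter_upwards [h1, hM'] with n h3 h4
    exact hLc (f n) a _ hR ((hd n).mono hsub) (fun y hy => hO n y (hsub hy)) h4 (w n) h3
  obtain ⟨N, hN⟩ := exists_nat_gt (M' + 1)
  have h3 : ∀ᶠ n in (𝒰 : Filter ℕ), N ≤ n := by
    have h4 : ∀ᶠ n in (cofinite : Filter ℕ), N ≤ n := by
      rw [Nat.cofinite_eq_atTop]
      exact eventually_ge_atTop N
    exact h4.filter_mono (hyperfilter_le_cofinite)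
  obtain ⟨n, h4, h5⟩ := (h2.and h3).exists
  have h6 := hn n
  have h7 : (N : ℝ) ≤ n := by exact_mod_cast h5
  linarith

end Pool.Agent.H41.LR

end
end

section

/-!
# A vanishing theorem of Ahlfors–Schwarz type with real exponents

`r i` are entire functions (none identically zero), `U = ∑ |r i|^κ`, `V` is the variance of the
logarithmic derivatives `r i' / r i` with weights `|r i|^κ / U`.  If `g` is entire,
`W = |g|^2 U^α ∏ |r i|^(-β i)` satisfies `W ≤ C V^ρ` with `α > 0` and `W` is locally bounded,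
then `g = 0`.
-/

open Topology Filter Complex

namespace Pool.Agent.H92.GGL

attribute [-instance] ProperSMul.toContinuousSMul

open Pool.Agent.H17

variable {ι : Type} [Fintype ι]

/-- `∑ |r i|^κ`. -/
noncomputable def powSum (κ : ℝ) (r : ι → ℂ → ℂ) (z : ℂ) : ℝ := ∑ i, ‖r i z‖ ^ κ

/-- The variance of the logarithmic derivatives with weights `|r i|^κ`. -/
noncomputable def powVar (κ : ℝ) (r : ι → ℂ → ℂ) (z : ℂ) : ℝ :=
  wVar (fun i => ‖r i z‖ ^ κ) (fun i => deriv (r i) z / r i z)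

/-- `|g|^2 U^α ∏ |r i|^(-β i)`. -/
noncomputable def wt (κ α : ℝ) (β : ι → ℝ) (r : ι → ℂ → ℂ) (g : ℂ → ℂ) (z : ℂ) : ℝ :=
  ‖g z‖ ^ 2 * powSum κ r z ^ α * ∏ i, ‖r i z‖ ^ (-(β i))

lemma powSum_pos [Nonempty ι] {κ : ℝ} {r : ι → ℂ → ℂ} {z : ℂ} (h : ∀ i, r i z ≠ 0) :
    0 < powSum κ r z := by
  unfold powSum
  exact Finset.sum_pos (fun i _ => Real.rpow_pos_of_pos (norm_pos_iff.mpr (h i)) _)
    Finset.univ_nonempty

lemma powSum_nonneg (κ : ℝ) (r : ι → ℂ → ℂ) (z : ℂ) : 0 ≤ powSum κ r z := by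
  unfold powSum
  positivity

lemma wt_nonneg (κ α : ℝ) (β : ι → ℝ) (r : ι → ℂ → ℂ) (g : ℂ → ℂ) (z : ℂ) :
    0 ≤ wt κ α β r g z := by
  unfold wt
  have := powSum_nonneg κ r z
  have : 0 ≤ ∏ i, ‖r i z‖ ^ (-(β i)) := Finset.prod_nonneg fun i _ => by positivity
  positivity

lemma powVar_nonneg {κ : ℝ} {r : ι → ℂ → ℂ} {z : ℂ} [Nonempty ι] (h : ∀ i, r i z ≠ 0) :
    0 ≤ powVar κ r z :=
  wVar_nonneg _ (fun i => by positivity)
    (Finset.sum_pos (fun i _ => Real.rpow_pos_of_pos (norm_pos_iff.mpr (h i)) _)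
      Finset.univ_nonempty)

/-- The estimate at an interior maximum. -/
lemma powVar_le_at_max [Nonempty ι] {r : ι → ℂ → ℂ} {g : ℂ → ℂ} {κ α : ℝ} {β : ι → ℝ}
    {k ρ : ℕ} (hα : 0 < α) (hκ : 0 < κ)
    (hk : 0 < k) {R : ℝ} {S : Finset ℂ} {z₀ : ℂ} (hr : ∀ i, AnalyticAt ℂ (r i) z₀)
    (hg : AnalyticAt ℂ g z₀) (hz : ‖z₀‖ < R) (hS : z₀ ∉ S) (hr0 : ∀ i, r i z₀ ≠ 0)
    (hg0 : g z₀ ≠ 0)
    (hmax : IsLocalMax (fun z => wt κ α β r g z ^ k * (R ^ 2 - ‖z‖ ^ 2) ^ (2 * ρ * k) *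
      ∏ s ∈ S, ‖z - s‖) z₀) :
    powVar κ r z₀ ≤ 8 * ρ * R ^ 2 / (R ^ 2 - ‖z₀‖ ^ 2) ^ 2 / (α * κ ^ 2) := by
  classical
  choose L hL hLe hLd using fun i => exists_local_log (hr i) (hr0 i)
  obtain ⟨G, hG, hGe, -⟩ := exists_local_log hg hg0
  have hsub : ∀ s : S, AnalyticAt ℂ (fun z => z - (s : ℂ)) z₀ := fun s =>
    analyticAt_id.sub analyticAt_const
  have hsub0 : ∀ s : S, z₀ - (s : ℂ) ≠ 0 := fun s h => hS (by
    rw [sub_eq_zero] at h; rw [h]; exact s.2)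
  choose P hP hPe hPd using fun s : S => exists_local_log (hsub s) (hsub0 s)
  set H : ℂ → ℂ := fun z => 2 * k * G z - k * ∑ i, (β i : ℂ) * L i z + ∑ s : S, P s z with hH
  have hHan : AnalyticAt ℂ H z₀ := by
    refine ((analyticAt_const.mul hG).sub (analyticAt_const.mul ?_)).add ?_
    · exact Finset.analyticAt_fun_sum _ fun i _ => analyticAt_const.mul (hL i)
    · exact Finset.analyticAt_fun_sum _ fun s _ => hP s
  set L' : ι → ℂ → ℂ := fun i z => (κ : ℂ) * L i z with hL'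
  have hL'an : ∀ i, AnalyticAt ℂ (L' i) z₀ := fun i => analyticAt_const.mul (hL i)
  have hmpos : ∀ᶠ z in 𝓝 z₀, 0 < R ^ 2 - ‖z‖ ^ 2 := by
    have hc : ContinuousAt (fun z : ℂ => R ^ 2 - ‖z‖ ^ 2) z₀ := by fun_prop
    refine hc.eventually (lt_mem_nhds ?_)
    have := norm_nonneg z₀
    nlinarith
  have hLre : ∀ i z, (L' i z).re = κ * (L i z).re := fun i z => by
    simp only [hL']
    rw [Complex.re_ofReal_mul]
  -- the function is the exponential of the function in the core inequality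
  have hexp : ∀ᶠ z in 𝓝 z₀, wt κ α β r g z ^ k * (R ^ 2 - ‖z‖ ^ 2) ^ (2 * ρ * k) *
      ∏ s ∈ S, ‖z - s‖ = Real.exp ((H z).re + (k * α) * Real.log (∑ i, Real.exp (L' i z).re) +
        (2 * ρ * k : ℕ) * Real.log (R ^ 2 - ‖z‖ ^ 2)) := by
    filter_upwards [eventually_all.mpr hLe, hGe, eventually_all.mpr hPe, hmpos]
      with z h1 h2 h3 h4
    have n1 : ∀ i, ‖r i z‖ = Real.exp (L i z).re := fun i => by
      rw [h1 i, Complex.norm_exp]
    have n1' : ∀ (i : ι) (c : ℝ), ‖r i z‖ ^ c = Real.exp (c * (L i z).re) := fun i c => by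
      rw [n1 i, ← Real.exp_mul, mul_comm]
    have n2 : ‖g z‖ = Real.exp (G z).re := by rw [h2, Complex.norm_exp]
    have n3 : ∀ s : S, ‖z - s‖ = Real.exp (P s z).re := fun s => by
      rw [h3 s, Complex.norm_exp]
    have hUeq : powSum κ r z = ∑ i, Real.exp (L' i z).re := by
      unfold powSum
      refine Finset.sum_congr rfl fun i _ => ?_
      rw [n1', hLre]
    have hUpos : 0 < ∑ i, Real.exp (L' i z).re :=
      Finset.sum_pos (fun i _ => Real.exp_pos _) Finset.univ_nonempty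
    have hprodr : ∏ i, ‖r i z‖ ^ (-(β i)) = Real.exp (-∑ i, β i * (L i z).re) := by
      simp_rw [n1']
      rw [← Real.exp_sum]
      congr 1
      rw [← Finset.sum_neg_distrib]
      exact Finset.sum_congr rfl fun i _ => by ring
    have hprodS : ∏ s ∈ S, ‖z - s‖ = Real.exp (∑ s : S, (P s z).re) := by
      rw [← Finset.prod_coe_sort S, Real.exp_sum]
      exact Finset.prod_congr rfl fun s _ => n3 s
    have hHre : (H z).re = 2 * k * (G z).re - k * ∑ i, β i * (L i z).re +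
        ∑ s : S, (P s z).re := by
      simp only [hH, Complex.add_re, Complex.sub_re, Complex.re_sum]
      have c1 : ((2 : ℂ) * (k : ℂ) * G z).re = 2 * k * (G z).re := by
        have : (2 : ℂ) * (k : ℂ) = ((2 * k : ℝ) : ℂ) := by push_cast; ring
        rw [this, Complex.re_ofReal_mul]
      have c2 : ((k : ℂ) * ∑ i, (β i : ℂ) * L i z).re = k * ∑ i, β i * (L i z).re := by
        have : (k : ℂ) = ((k : ℝ) : ℂ) := by push_cast; ring
        rw [this, Complex.re_ofReal_mul, Complex.re_sum]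
        simp_rw [Complex.re_ofReal_mul]
      rw [c1, c2]
    unfold wt
    rw [hUeq, hprodr, hprodS, n2]
    have d0 : (∑ i, Real.exp (L' i z).re) ^ α =
        Real.exp (α * Real.log (∑ i, Real.exp (L' i z).re)) := by
      rw [Real.rpow_def_of_pos hUpos, mul_comm]
    have d2 : Real.exp ((2 * ρ * k : ℕ) * Real.log (R ^ 2 - ‖z‖ ^ 2)) =
        (R ^ 2 - ‖z‖ ^ 2) ^ (2 * ρ * k) := by
      rw [Real.exp_nat_mul, Real.exp_log h4]
    rw [d0, ← d2, ← Real.exp_nat_mul, ← Real.exp_add, ← Real.exp_add, ← Real.exp_nat_mul,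
      ← Real.exp_add, ← Real.exp_add, hHre]
    congr 1
    push_cast
    ring
  have hmax' : IsLocalMax (fun z => (H z).re + (k * α) *
      Real.log (∑ i, Real.exp (L' i z).re) +
        ((2 * ρ * k : ℕ) : ℝ) * Real.log (R ^ 2 - ‖z‖ ^ 2)) z₀ := by
    filter_upwards [hmax, hexp] with z h1 h2
    rw [h2, hexp.self_of_nhds] at h1
    exact Real.exp_le_exp.mp h1
  have hcore := core_inequality hHan hL'an hz hmax'
  have q1 : ∀ i, Real.exp (L' i z₀).re = ‖r i z₀‖ ^ κ := fun i => by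
    rw [hLre, (hLe i).self_of_nhds, Complex.norm_exp, ← Real.exp_mul, mul_comm]
  have q2 : ∀ i, deriv (L' i) z₀ = (κ : ℂ) * (deriv (r i) z₀ / r i z₀) := fun i => by
    simp only [hL']
    rw [deriv_const_mul _ (hL i).differentiableAt, hLd]
  simp_rw [q1, q2] at hcore
  have e1 : (((∑ i, ‖r i z₀‖ ^ κ * ‖(κ : ℂ) * (deriv (r i) z₀ / r i z₀)‖ ^ 2) *
      (∑ i, ‖r i z₀‖ ^ κ) -
        ‖∑ i, ((‖r i z₀‖ ^ κ : ℝ) : ℂ) * ((κ : ℂ) * (deriv (r i) z₀ / r i z₀))‖ ^ 2) /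
          (∑ i, ‖r i z₀‖ ^ κ) ^ 2) = κ ^ 2 * powVar κ r z₀ := by
    unfold powVar wVar
    have f1 : ∑ i, ‖r i z₀‖ ^ κ * ‖(κ : ℂ) * (deriv (r i) z₀ / r i z₀)‖ ^ 2 =
        κ ^ 2 * ∑ i, ‖r i z₀‖ ^ κ * ‖deriv (r i) z₀ / r i z₀‖ ^ 2 := by
      rw [Finset.mul_sum]
      refine Finset.sum_congr rfl fun i _ => ?_
      rw [norm_mul, Complex.norm_real, mul_pow, Real.norm_eq_abs, sq_abs]
      ring
    have f2 : ∑ i, ((‖r i z₀‖ ^ κ : ℝ) : ℂ) * ((κ : ℂ) * (deriv (r i) z₀ / r i z₀)) =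
        (κ : ℂ) * ∑ i, ((‖r i z₀‖ ^ κ : ℝ) : ℂ) * (deriv (r i) z₀ / r i z₀) := by
      rw [Finset.mul_sum]
      exact Finset.sum_congr rfl fun i _ => by ring
    rw [f1, f2, norm_mul, mul_pow, Complex.norm_real, Real.norm_eq_abs, sq_abs]
    ring
  rw [e1] at hcore
  have hkpos : (0 : ℝ) < k := by exact_mod_cast hk
  have hm : 0 < R ^ 2 - ‖z₀‖ ^ 2 := hmpos.self_of_nhds
  rw [le_div_iff₀ (by positivity)]
  push_cast at hcore
  have h6 : (k : ℝ) * (powVar κ r z₀ * (α * κ ^ 2)) ≤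
      k * (8 * ρ * R ^ 2 / (R ^ 2 - ‖z₀‖ ^ 2) ^ 2) := by
    calc (k : ℝ) * (powVar κ r z₀ * (α * κ ^ 2)) = k * α * (κ ^ 2 * powVar κ r z₀) := by ring
      _ ≤ 2 * ρ * k * (4 * R ^ 2 / (R ^ 2 - ‖z₀‖ ^ 2) ^ 2) := hcore
      _ = _ := by ring
  exact le_of_mul_le_mul_left h6 hkpos

end Pool.Agent.H92.GGL

end

section

/-!
# An estimate of Ahlfors–Schwarz type on a disc
-/

open Topology Filter Complex

namespace Pool.Agent.H92.GGL

attribute [-instance] ProperSMul.toContinuousSMul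

open Pool.Agent.H17

variable {ι : Type} [Fintype ι]

lemma wt_continuousAt' [Nonempty ι] {r : ι → ℂ → ℂ} {g : ℂ → ℂ} {z : ℂ}
    (hr : ∀ i, ContinuousAt (r i) z) (hg : ContinuousAt g z) (κ α : ℝ) (β : ι → ℝ)
    (hz : ∀ i, r i z ≠ 0) : ContinuousAt (wt κ α β r g) z := by
  unfold wt powSum
  have h1 : ∀ i, ContinuousAt (fun z => ‖r i z‖) z := fun i => (hr i).norm
  have h2 : ContinuousAt (fun z => ‖g z‖) z := hg.norm
  have h3 : ∀ i, ‖r i z‖ ≠ 0 := fun i => norm_ne_zero_iff.mpr (hz i)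
  have h4 : ContinuousAt (fun z => ∑ i, ‖r i z‖ ^ κ) z :=
    tendsto_finsetSum _ fun i _ => (h1 i).rpow_const (Or.inl (h3 i))
  have h5 : ContinuousAt (fun z => ∏ i, ‖r i z‖ ^ (-(β i))) z :=
    tendsto_finsetProd _ fun i _ => (h1 i).rpow_const (Or.inl (h3 i))
  refine ((h2.pow 2).mul (h4.rpow_const (Or.inl ?_))).mul h5
  exact (powSum_pos (κ := κ) hz).ne'

/-- The estimate at the centre of a disc. -/
theorem schwarz_disc_zero [Nonempty ι] {r : ι → ℂ → ℂ} {g : ℂ → ℂ} {κ α : ℝ} {β : ι → ℝ} {ρ : ℕ}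
    (hκ : 0 < κ) (hα : 0 < α) (hρ : 0 < ρ) {R : ℝ} (hR : 0 < R) {S : Finset ℂ} (h0 : 0 ∉ S)
    (hr : ∀ z, ‖z‖ ≤ R → z ∉ S → ∀ i, AnalyticAt ℂ (r i) z ∧ r i z ≠ 0)
    (hg : ∀ z, ‖z‖ ≤ R → z ∉ S → AnalyticAt ℂ g z) {C : ℝ} (hC : 0 ≤ C)
    (hbound : ∀ z, ‖z‖ ≤ R → z ∉ S → wt κ α β r g z ≤ C * powVar κ r z ^ ρ)
    (hloc : ∀ s, ‖s‖ ≤ R → s ∈ S → ∃ B, ∀ᶠ z in 𝓝[≠] s, wt κ α β r g z ≤ B) :
    wt κ α β r g 0 * R ^ (2 * ρ) ≤ C * (8 * ρ / (α * κ ^ 2)) ^ ρ := by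
  classical
  have hR0 : ‖(0 : ℂ)‖ ≤ R := by simpa using hR.le
  by_cases hg0 : g 0 = 0
  · have h1 : wt κ α β r g 0 = 0 := by
      unfold wt
      rw [hg0]
      simp
    rw [h1, zero_mul]
    positivity
  have hr0 : ∀ i, r i 0 ≠ 0 := fun i => (hr 0 hR0 h0 i).2
  set w₀ := wt κ α β r g 0 with hw₀
  have hw₀pos : 0 < w₀ := by
    rw [hw₀]
    unfold wt
    have h1 : 0 < ∏ i, ‖r i 0‖ ^ (-(β i)) := Finset.prod_pos fun i _ =>
      Real.rpow_pos_of_pos (norm_pos_iff.mpr (hr0 i)) _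
    have h2 : 0 < powSum κ r 0 ^ α := Real.rpow_pos_of_pos (powSum_pos hr0) _
    have h3 : 0 < ‖g 0‖ := norm_pos_iff.mpr hg0
    positivity
  set D : ℝ := C * (1 / (α * κ ^ 2)) ^ ρ with hD
  have hDnn : 0 ≤ D := by positivity
  have hPpos : ∀ z, z ∉ S → 0 < ∏ s ∈ S, ‖z - s‖ := by
    intro z hz
    refine Finset.prod_pos fun s hs => norm_pos_iff.mpr (sub_ne_zero.mpr ?_)
    rintro rfl
    exact hz hs
  have key : w₀ * (R ^ 2) ^ (2 * ρ) ≤ D * (8 * ρ * R ^ 2) ^ ρ := by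
    refine le_of_forall_pow_mul_le (hPpos 0 h0) (Q := ∏ s ∈ S, (R + ‖s‖)) (by positivity) ?_
    intro k hk
    set Φ : ℂ → ℝ := fun z => wt κ α β r g z ^ k * (R ^ 2 - ‖z‖ ^ 2) ^ (2 * ρ * k) *
      ∏ s ∈ S, ‖z - s‖ with hΦ
    have hΦcont : ContinuousOn Φ (Metric.closedBall (0 : ℂ) R) := by
      intro z hz
      rw [mem_closedBall_zero_iff] at hz
      apply ContinuousAt.continuousWithinAt
      have hc1 : Continuous fun z : ℂ => (R ^ 2 - ‖z‖ ^ 2) ^ (2 * ρ * k) := by fun_prop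
      by_cases hzS : z ∈ S
      · rw [continuousAt_iff_punctured_nhds]
        have hΦz : Φ z = 0 := by
          simp only [hΦ]
          rw [Finset.prod_eq_zero hzS (by simp), mul_zero]
        rw [hΦz]
        obtain ⟨B, hB⟩ := hloc z hz hzS
        have hrest : Tendsto (fun w : ℂ => (R ^ 2 - ‖w‖ ^ 2) ^ (2 * ρ * k) *
            ∏ s ∈ S.erase z, ‖w - s‖) (𝓝[≠] z) (𝓝 ((R ^ 2 - ‖z‖ ^ 2) ^ (2 * ρ * k) *
            ∏ s ∈ S.erase z, ‖z - s‖)) := by
          have : Continuous fun w : ℂ => (R ^ 2 - ‖w‖ ^ 2) ^ (2 * ρ * k) *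
            ∏ s ∈ S.erase z, ‖w - s‖ := by
            refine hc1.mul (continuous_finsetProd _ fun s _ => ?_)
            fun_prop
          exact (this.tendsto z).mono_left nhdsWithin_le_nhds
        have hmain : Tendsto (fun w => wt κ α β r g w ^ k * ‖w - z‖) (𝓝[≠] z) (𝓝 0) := by
          have h1 : Tendsto (fun w : ℂ => (max B 0) ^ k * ‖w - z‖) (𝓝[≠] z)
              (𝓝 0) := by
            have : Continuous fun w : ℂ => (max B 0) ^ k * ‖w - z‖ := by fun_prop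
            have h2 := (this.tendsto z).mono_left (nhdsWithin_le_nhds (s := {z}ᶜ))
            simpa using h2
          refine squeeze_zero' ?_ ?_ h1
          · filter_upwards with w
            have := wt_nonneg κ α β r g w
            positivity
          · filter_upwards [hB] with w hw1
            have h3 : wt κ α β r g w ≤ max B 0 := hw1.trans (le_max_left _ _)
            have := wt_nonneg κ α β r g w
            gcongr
        have h4 := hmain.mul hrest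
        rw [zero_mul] at h4
        refine h4.congr ?_
        intro w
        simp only [hΦ]
        rw [← Finset.mul_prod_erase S _ hzS]
        ring
      · have h1 := wt_continuousAt' (fun i => (hr z hz hzS i).1.continuousAt)
          (hg z hz hzS).continuousAt κ α β (fun i => (hr z hz hzS i).2)
        have hc2 : Continuous fun w : ℂ => ∏ s ∈ S, ‖w - s‖ := by
          refine continuous_finsetProd _ fun s _ => ?_
          fun_prop
        exact ((h1.pow k).mul hc1.continuousAt).mul hc2.continuousAt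
    have h0mem : (0 : ℂ) ∈ Metric.closedBall (0 : ℂ) R := by
      rw [mem_closedBall_zero_iff]
      exact hR0
    obtain ⟨zm, hzm, hmax⟩ := (isCompact_closedBall (0 : ℂ) R).exists_isMaxOn
      ⟨0, h0mem⟩ hΦcont
    have hΦ₀pos : 0 < Φ 0 := by
      simp only [hΦ]
      have := hPpos 0 h0
      rw [norm_zero]
      have h2 : 0 < R ^ 2 - (0 : ℝ) ^ 2 := by
        have : 0 < R ^ 2 := by positivity
        linarith
      positivity
    have hΦm : Φ 0 ≤ Φ zm := hmax h0mem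
    have hΦmpos : 0 < Φ zm := hΦ₀pos.trans_le hΦm
    have hkρ : 2 * ρ * k ≠ 0 := by positivity
    have hzmS : zm ∉ S := by
      intro h
      have : Φ zm = 0 := by
        simp only [hΦ]
        rw [Finset.prod_eq_zero h (by simp), mul_zero]
      linarith
    have hzmR : ‖zm‖ < R := by
      rcases lt_or_eq_of_le (mem_closedBall_zero_iff.mp hzm) with h | h
      · exact h
      · exfalso
        have : Φ zm = 0 := by
          simp only [hΦ]
          rw [h, sub_self, zero_pow hkρ]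
          ring
        linarith
    have hzmr : ∀ i, r i zm ≠ 0 := fun i => (hr zm hzmR.le hzmS i).2
    have hzmg : g zm ≠ 0 := by
      intro h
      have : Φ zm = 0 := by
        simp only [hΦ, wt, h]
        simp [hk.ne']
      linarith
    have hlocmax : IsLocalMax Φ zm := by
      refine hmax.isLocalMax ?_
      exact Filter.mem_of_superset (Metric.isOpen_ball.mem_nhds (by
        rw [mem_ball_zero_iff]; exact hzmR)) Metric.ball_subset_closedBall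
    have hV := powVar_le_at_max (ρ := ρ) hα hκ hk (fun i => (hr zm hzmR.le hzmS i).1)
      (hg zm hzmR.le hzmS) hzmR hzmS hzmr hzmg hlocmax
    have hVnn := powVar_nonneg (κ := κ) hzmr
    have hmm : 0 < R ^ 2 - ‖zm‖ ^ 2 := by
      have := norm_nonneg zm
      nlinarith
    have hw1 : wt κ α β r g zm * (R ^ 2 - ‖zm‖ ^ 2) ^ (2 * ρ) ≤ D * (8 * ρ * R ^ 2) ^ ρ := by
      calc wt κ α β r g zm * (R ^ 2 - ‖zm‖ ^ 2) ^ (2 * ρ)
          ≤ (C * (8 * ρ * R ^ 2 / (R ^ 2 - ‖zm‖ ^ 2) ^ 2 / (α * κ ^ 2)) ^ ρ) *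
              (R ^ 2 - ‖zm‖ ^ 2) ^ (2 * ρ) := by
            gcongr
            refine (hbound zm hzmR.le hzmS).trans ?_
            gcongr
        _ = D * (8 * ρ * R ^ 2) ^ ρ := by
            rw [hD, div_pow, div_pow, div_pow, ← pow_mul, one_pow]
            field_simp
    have hprodle : ∏ s ∈ S, ‖zm - s‖ ≤ ∏ s ∈ S, (R + ‖s‖) := by
      refine Finset.prod_le_prod (fun s _ => norm_nonneg _) fun s hs => ?_
      refine (norm_sub_le _ _).trans ?_
      linarith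
    have e0 : Φ 0 = (w₀ * (R ^ 2) ^ (2 * ρ)) ^ k * ∏ s ∈ S, ‖0 - s‖ := by
      simp only [hΦ]
      rw [mul_pow, ← pow_mul, norm_zero]
      have h9 : R ^ 2 - (0 : ℝ) ^ 2 = R ^ 2 := by ring
      rw [h9]
    have em : Φ zm = (wt κ α β r g zm * (R ^ 2 - ‖zm‖ ^ 2) ^ (2 * ρ)) ^ k *
        ∏ s ∈ S, ‖zm - s‖ := by
      simp only [hΦ]
      rw [mul_pow, ← pow_mul]
    rw [← e0]
    refine hΦm.trans ?_
    rw [em]
    have hnn := wt_nonneg κ α β r g zm
    have := (hPpos zm hzmS).le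
    gcongr
  have hRR : 0 < (R ^ 2) ^ ρ := by positivity
  have e1 : w₀ * (R ^ 2) ^ (2 * ρ) = (w₀ * R ^ (2 * ρ)) * (R ^ 2) ^ ρ := by
    rw [← pow_mul, ← pow_mul, mul_assoc, ← pow_add]
    congr 2
    ring
  have e2 : D * (8 * ρ * R ^ 2) ^ ρ = (C * (8 * ρ / (α * κ ^ 2)) ^ ρ) * (R ^ 2) ^ ρ := by
    rw [hD, mul_pow, div_pow, div_pow, one_pow]
    ring
  rw [e1, e2] at key
  exact le_of_mul_le_mul_right key hRR

/-- The estimate at the centre of a disc. -/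
theorem schwarz_disc [Nonempty ι] {r : ι → ℂ → ℂ} {g : ℂ → ℂ} {κ α : ℝ} {β : ι → ℝ} {ρ : ℕ}
    (hκ : 0 < κ) (hα : 0 < α) (hρ : 0 < ρ) {c : ℂ} {R : ℝ} (hR : 0 < R) {S : Finset ℂ}
    (h0 : c ∉ S) (hr : ∀ z, ‖z - c‖ ≤ R → z ∉ S → ∀ i, AnalyticAt ℂ (r i) z ∧ r i z ≠ 0)
    (hg : ∀ z, ‖z - c‖ ≤ R → z ∉ S → AnalyticAt ℂ g z) {C : ℝ} (hC : 0 ≤ C)
    (hbound : ∀ z, ‖z - c‖ ≤ R → z ∉ S → wt κ α β r g z ≤ C * powVar κ r z ^ ρ)
    (hloc : ∀ s, ‖s - c‖ ≤ R → s ∈ S → ∃ B, ∀ᶠ z in 𝓝[≠] s, wt κ α β r g z ≤ B) :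
    wt κ α β r g c * R ^ (2 * ρ) ≤ C * (8 * ρ / (α * κ ^ 2)) ^ ρ := by
  classical
  have hnorm : ∀ z : ℂ, ‖z‖ ≤ R → ‖(c + z) - c‖ ≤ R := fun z hz => by simpa using hz
  have hmem : ∀ z : ℂ, z ∉ S.image (fun s => s - c) → c + z ∉ S := by
    intro z hz h
    exact hz (Finset.mem_image.mpr ⟨c + z, h, by ring⟩)
  have han : ∀ (f : ℂ → ℂ) (z : ℂ), AnalyticAt ℂ f (c + z) → AnalyticAt ℂ (fun w => f (c + w)) z :=
    fun f z h => h.fun_comp (analyticAt_const.add analyticAt_id)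
  have hwt : ∀ z, wt κ α β (fun i z => r i (c + z)) (fun z => g (c + z)) z =
      wt κ α β r g (c + z) := fun z => rfl
  have hpv : ∀ z, powVar κ (fun i z => r i (c + z)) z = powVar κ r (c + z) := by
    intro z
    unfold powVar
    congr 1
    funext i
    rw [deriv_comp_const_add]
  have h1 := schwarz_disc_zero (r := fun i z => r i (c + z)) (g := fun z => g (c + z)) (β := β)
    hκ hα hρ hR (S := S.image fun s => s - c) (by
      intro h
      obtain ⟨s, hs, hs'⟩ := Finset.mem_image.mp h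
      rw [sub_eq_zero] at hs'
      rw [hs'] at hs
      exact h0 hs) (fun z hz hzS i => ⟨han _ z (hr _ (hnorm z hz) (hmem z hzS) i).1,
        (hr _ (hnorm z hz) (hmem z hzS) i).2⟩) (fun z hz hzS => han _ z (hg _ (hnorm z hz)
        (hmem z hzS))) hC (fun z hz hzS => by
          rw [hwt, hpv]
          exact hbound _ (hnorm z hz) (hmem z hzS)) (fun s hs hsS => by
          obtain ⟨s', hs', hs''⟩ := Finset.mem_image.mp hsS
          have hs3 : s' = c + s := by rw [← hs'']; ring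
          obtain ⟨B, hB⟩ := hloc s' (by rw [hs3]; exact hnorm s hs) hs'
          refine ⟨B, ?_⟩
          rw [hs3] at hB
          have h2 : Tendsto (fun z => c + z) (𝓝[≠] s) (𝓝[≠] (c + s)) := by
            refine tendsto_nhdsWithin_iff.mpr ⟨?_, ?_⟩
            · exact ((continuous_const.add continuous_id).tendsto s).mono_left nhdsWithin_le_nhds
            · filter_upwards [self_mem_nhdsWithin] with z hz h3
              exact hz (add_left_cancel h3)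
          exact h2.eventually hB)
  rw [hwt, add_zero] at h1
  exact h1

end Pool.Agent.H92.GGL

end

section

/-!
# LR Landau: holomorphic functions on a disc which omit `0` and `1`

* `landau`, `local_bound`, `harnack3`.
-/

set_option autoImplicit false

open Topology Filter Metric

noncomputable section

namespace Pool.Agent.H62.LR

attribute [-instance] ProperSMul.toContinuousSMul

open Pool.Agent.H92.GGL (wt powVar powSum schwarz_disc)
open Pool.Agent.H17 (wVar)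

/-- the functions `1, X, X - 1` -/
private def rr (X : ℂ → ℂ) : Fin 3 → ℂ → ℂ := ![fun _ => 1, X, fun z => X z - 1]

private def bb : Fin 3 → ℝ := ![0, 3 / 2, 3 / 2]

private theorem rpow_half {x : ℝ} : x ^ (1 / 2 : ℝ) = Real.sqrt x := by
  rw [Real.sqrt_eq_rpow]

private theorem rpow_neg_three_half {x : ℝ} (hx : 0 ≤ x) : x ^ (-(3 / 2) : ℝ) = (Real.sqrt x ^ 3)⁻¹ := by
  rw [Real.rpow_neg hx]
  congr 1
  rw [Real.sqrt_eq_rpow, ← Real.rpow_natCast, ← Real.rpow_mul hx]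
  norm_num

private theorem wt_eq (X : ℂ → ℂ) (z : ℂ) :
    wt (1 / 2) 1 bb (rr X) (deriv X) z = ‖deriv X z‖ ^ 2 * (1 + Real.sqrt ‖X z‖ + Real.sqrt ‖X z - 1‖) *
      ((Real.sqrt ‖X z‖ ^ 3)⁻¹ * (Real.sqrt ‖X z - 1‖ ^ 3)⁻¹) := by
  unfold wt powSum
  rw [Real.rpow_one, Fin.sum_univ_three, Fin.prod_univ_three]
  simp only [rr, bb, Matrix.cons_val_zero, Matrix.cons_val_one, Matrix.cons_val]
  rw [norm_one, Real.one_rpow, rpow_half, rpow_half, neg_zero, Real.one_rpow, one_mul, rpow_neg_three_half (norm_nonneg _),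
    rpow_neg_three_half (norm_nonneg _)]

private theorem pv_eq {X : ℂ → ℂ} {z : ℂ} (h0 : X z ≠ 0) (h1 : X z ≠ 1) :
    powVar (1 / 2) (rr X) z = ‖deriv X z‖ ^ 2 * (1 + Real.sqrt ‖X z‖ ^ 3 + Real.sqrt ‖X z - 1‖ ^ 3) *
      ((Real.sqrt ‖X z‖ ^ 3)⁻¹ * (Real.sqrt ‖X z - 1‖ ^ 3)⁻¹) / (1 + Real.sqrt ‖X z‖ + Real.sqrt ‖X z - 1‖) ^ 2 := by
  unfold powVar wVar
  have hd : deriv (fun z => X z - 1) z = deriv X z := by
    rw [deriv_sub_const]
  have hd1 : deriv (fun _ : ℂ => (1 : ℂ)) z = 0 := deriv_const _ _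
  rw [Fin.sum_univ_three, Fin.sum_univ_three, Fin.sum_univ_three]
  simp only [rr, Matrix.cons_val_zero, Matrix.cons_val_one, Matrix.cons_val]
  rw [norm_one, Real.one_rpow, rpow_half, rpow_half, hd, hd1, zero_div, norm_zero, mul_zero]
  set s := Real.sqrt ‖X z‖ with hs
  set t := Real.sqrt ‖X z - 1‖ with ht
  have hs0 : 0 < s := Real.sqrt_pos.2 (norm_pos_iff.2 h0)
  have ht0 : 0 < t := Real.sqrt_pos.2 (norm_pos_iff.2 (sub_ne_zero.2 h1))
  have hs2 : ‖X z‖ = s ^ 2 := (Real.sq_sqrt (norm_nonneg _)).symm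
  have ht2 : ‖X z - 1‖ = t ^ 2 := (Real.sq_sqrt (norm_nonneg _)).symm
  -- the identity of Lagrange
  have key : ∀ (u v : ℝ) (a b : ℂ), ((1 * 0 ^ 2 + u * ‖a‖ ^ 2 + v * ‖b‖ ^ 2) * (1 + u + v) - ‖(0 : ℂ) + (u : ℂ) * a + (v : ℂ) * b‖ ^ 2 : ℝ) =
      u * ‖a‖ ^ 2 + v * ‖b‖ ^ 2 + u * v * ‖a - b‖ ^ 2 := by
    intro u v a b
    rw [zero_add]
    simp only [Complex.sq_norm, Complex.normSq_apply, Complex.add_re, Complex.add_im, Complex.mul_re, Complex.mul_im, Complex.sub_re, Complex.sub_im,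
      Complex.ofReal_re, Complex.ofReal_im]
    ring
  have hab : deriv X z / X z - deriv X z / (X z - 1) = -(deriv X z / (X z * (X z - 1))) := by
    have h1' : X z - 1 ≠ 0 := sub_ne_zero.2 h1
    field_simp
    ring
  have h2 := key s t (deriv X z / X z) (deriv X z / (X z - 1))
  have h3 : ((1 : ℝ) * 0 ^ 2 + s * ‖deriv X z / X z‖ ^ 2 + t * ‖deriv X z / (X z - 1)‖ ^ 2) * (1 + s + t) -
      ‖(0 : ℂ) + (s : ℂ) * (deriv X z / X z) + (t : ℂ) * (deriv X z / (X z - 1))‖ ^ 2 =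
      ‖deriv X z‖ ^ 2 * (1 + s ^ 3 + t ^ 3) * ((s ^ 3)⁻¹ * (t ^ 3)⁻¹) := by
    rw [h2, hab, norm_neg, norm_div, norm_div, norm_div, norm_mul, hs2, ht2]
    field_simp
    ring
  rw [← h3]

private theorem cube_le {s t : ℝ} (hs : 0 ≤ s) (ht : 0 ≤ t) : (1 + s + t) ^ 3 ≤ 9 * (1 + s ^ 3 + t ^ 3) := by
  have h1 : 0 ≤ (s + t) * (s - t) ^ 2 := by positivity
  have h2 : 0 ≤ (1 + t) * (1 - t) ^ 2 := by positivity
  have h3 : 0 ≤ (1 + s) * (1 - s) ^ 2 := by positivity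
  nlinarith [mul_nonneg hs ht, mul_nonneg (mul_nonneg hs ht) (show (0 : ℝ) ≤ 1 by norm_num), sq_nonneg (s - 1), sq_nonneg (t - 1), sq_nonneg (s - t),
    mul_nonneg hs (sq_nonneg (t - 1)), mul_nonneg ht (sq_nonneg (s - 1)), mul_nonneg hs (sq_nonneg (s - t)), mul_nonneg ht (sq_nonneg (s - t)),
    sq_nonneg (s + t - 2)]

/-- The basic estimate. -/
theorem basic {X : ℂ → ℂ} {z : ℂ} {R : ℝ} (hR : 0 < R) (hX : DifferentiableOn ℂ X (ball z R)) (h01 : ∀ w ∈ ball z R, X w ≠ 0 ∧ X w ≠ 1) :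
    R ^ 2 * (‖deriv X z‖ ^ 2 * (1 + Real.sqrt ‖X z‖ + Real.sqrt ‖X z - 1‖)) ≤ 1152 * (Real.sqrt ‖X z‖ ^ 3 * Real.sqrt ‖X z - 1‖ ^ 3) := by
  have hsub : ∀ w : ℂ, ‖w - z‖ ≤ R / 2 → w ∈ ball z R := by
    intro w hw
    rw [mem_ball, dist_eq_norm]
    linarith
  have han : ∀ w : ℂ, ‖w - z‖ ≤ R / 2 → AnalyticAt ℂ X w := fun w hw => hX.analyticAt (isOpen_ball.mem_nhds (hsub w hw))
  have key := schwarz_disc (r := rr X) (g := deriv X) (κ := 1 / 2) (α := 1) (β := bb) (ρ := 1) (by norm_num) one_pos one_pos (c := z) (R := R / 2)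
    (by positivity) (S := ∅) (Finset.notMem_empty _) (fun w hw _ i => ?_) (fun w hw _ => (han w hw).deriv) (C := 9) (by norm_num) (fun w hw _ => ?_)
    (fun s _ hs => absurd hs (Finset.notMem_empty _))
  · rw [wt_eq] at key
    have h0 := (h01 z (mem_ball_self hR)).1
    have h1 := (h01 z (mem_ball_self hR)).2
    set s := Real.sqrt ‖X z‖ with hs
    set t := Real.sqrt ‖X z - 1‖ with ht
    have hs0 : 0 < s := Real.sqrt_pos.2 (norm_pos_iff.2 h0)
    have ht0 : 0 < t := Real.sqrt_pos.2 (norm_pos_iff.2 (sub_ne_zero.2 h1))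
    have h3 : ‖deriv X z‖ ^ 2 * (1 + s + t) * ((s ^ 3)⁻¹ * (t ^ 3)⁻¹) * (R / 2) ^ (2 * 1) =
        (R ^ 2 * (‖deriv X z‖ ^ 2 * (1 + s + t))) / (4 * (s ^ 3 * t ^ 3)) := by
      field_simp
      ring
    rw [h3, div_le_iff₀ (by positivity)] at key
    refine key.trans (le_of_eq ?_)
    norm_num
    ring
  · fin_cases i
    · exact ⟨analyticAt_const, one_ne_zero⟩
    · exact ⟨han w hw, (h01 w (hsub w hw)).1⟩
    · exact ⟨(han w hw).sub analyticAt_const, sub_ne_zero.2 (h01 w (hsub w hw)).2⟩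
  · have h0 := (h01 w (hsub w hw)).1
    have h1 := (h01 w (hsub w hw)).2
    rw [wt_eq, pv_eq h0 h1, pow_one]
    set s := Real.sqrt ‖X w‖ with hs
    set t := Real.sqrt ‖X w - 1‖ with ht
    have hs0 : 0 < s := Real.sqrt_pos.2 (norm_pos_iff.2 h0)
    have ht0 : 0 < t := Real.sqrt_pos.2 (norm_pos_iff.2 (sub_ne_zero.2 h1))
    have hc := cube_le hs0.le ht0.le
    rw [← mul_div_assoc, le_div_iff₀ (by positivity)]
    have h4 : 0 ≤ ‖deriv X w‖ ^ 2 * ((s ^ 3)⁻¹ * (t ^ 3)⁻¹) := by positivity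
    calc ‖deriv X w‖ ^ 2 * (1 + s + t) * ((s ^ 3)⁻¹ * (t ^ 3)⁻¹) * (1 + s + t) ^ 2
        = ‖deriv X w‖ ^ 2 * ((s ^ 3)⁻¹ * (t ^ 3)⁻¹) * (1 + s + t) ^ 3 := by ring
      _ ≤ ‖deriv X w‖ ^ 2 * ((s ^ 3)⁻¹ * (t ^ 3)⁻¹) * (9 * (1 + s ^ 3 + t ^ 3)) := mul_le_mul_of_nonneg_left hc h4
      _ = 9 * (‖deriv X w‖ ^ 2 * (1 + s ^ 3 + t ^ 3) * ((s ^ 3)⁻¹ * (t ^ 3)⁻¹)) := by ring

/-- Landau's theorem for the spherical derivative. -/
theorem landau48 {X : ℂ → ℂ} {z : ℂ} {R : ℝ} (hR : 0 < R) (hX : DifferentiableOn ℂ X (ball z R)) (h01 : ∀ w ∈ ball z R, X w ≠ 0 ∧ X w ≠ 1) :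
    R * ‖deriv X z‖ ≤ 48 * (1 + ‖X z‖ ^ 2) := by
  have key := basic hR hX h01
  set s := Real.sqrt ‖X z‖ with hs
  set t := Real.sqrt ‖X z - 1‖ with ht
  have hs0 : 0 ≤ s := Real.sqrt_nonneg _
  have ht0 : 0 ≤ t := Real.sqrt_nonneg _
  have hs2 : ‖X z‖ = s ^ 2 := (Real.sq_sqrt (norm_nonneg _)).symm
  have ht2 : t ^ 2 ≤ 1 + s ^ 2 := by
    rw [ht, Real.sq_sqrt (norm_nonneg _), ← hs2]
    have := norm_sub_le (X z) 1
    rw [norm_one] at this
    linarith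
  have h1 : R ^ 2 * ‖deriv X z‖ ^ 2 ≤ 1152 * (s ^ 3 * t ^ 2) := by
    have h2 : 0 < 1 + s + t := by positivity
    have h3 : 1152 * (s ^ 3 * t ^ 3) ≤ 1152 * (s ^ 3 * t ^ 2) * (1 + s + t) := by
      have h4 : 0 ≤ 1152 * (s ^ 3 * t ^ 2) := by positivity
      nlinarith [mul_nonneg h4 hs0]
    have h5 : R ^ 2 * ‖deriv X z‖ ^ 2 * (1 + s + t) ≤ 1152 * (s ^ 3 * t ^ 2) * (1 + s + t) := by
      calc R ^ 2 * ‖deriv X z‖ ^ 2 * (1 + s + t) = R ^ 2 * (‖deriv X z‖ ^ 2 * (1 + s + t)) := by ring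
        _ ≤ _ := key.trans h3
    exact le_of_mul_le_mul_right h5 h2
  have h6 : R ^ 2 * ‖deriv X z‖ ^ 2 ≤ (48 * (1 + s ^ 4)) ^ 2 := by
    refine h1.trans ?_
    have h7 : s ^ 3 ≤ 1 + s ^ 4 := by nlinarith [sq_nonneg (s ^ 2 - s), sq_nonneg (s - 1), sq_nonneg (s + 1), sq_nonneg (s ^ 2 - 1), mul_nonneg hs0 hs0]
    have h8 : t ^ 2 ≤ 2 * (1 + s ^ 4) := by nlinarith [sq_nonneg (s ^ 2 - 1)]
    have h9 : s ^ 3 * t ^ 2 ≤ (1 + s ^ 4) * (2 * (1 + s ^ 4)) := mul_le_mul h7 h8 (by positivity) (by positivity)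
    nlinarith
  rw [hs2]
  have h10 : (R * ‖deriv X z‖) ^ 2 ≤ (48 * (1 + (s ^ 2) ^ 2)) ^ 2 := by
    have e1 : (s ^ 2) ^ 2 = s ^ 4 := by ring
    rw [mul_pow, e1]
    exact h6
  exact le_of_sq_le_sq h10 (by positivity)

theorem landau : ∃ C : ℝ, 0 < C ∧ ∀ (X : ℂ → ℂ) (z : ℂ) (R : ℝ), 0 < R → DifferentiableOn ℂ X (ball z R) → (∀ w ∈ ball z R, X w ≠ 0 ∧ X w ≠ 1) →
    R * ‖deriv X z‖ ≤ C * (1 + ‖X z‖ ^ 2) :=
  ⟨48, by norm_num, fun _ _ _ hR hX h01 => landau48 hR hX h01⟩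

/-- A function which is at most `a` at the centre, with small derivative where it is at most `b`, is at most `b`. -/
theorem stay {X : ℂ → ℂ} {z : ℂ} {r a b D : ℝ} (hX : DifferentiableOn ℂ X (ball z r)) (ha : ‖X z‖ ≤ a)
    (hD : ∀ w ∈ ball z r, ‖X w‖ ≤ b → ‖deriv X w‖ ≤ D) (hD0 : 0 ≤ D) (hab : D * r < b - a) : ∀ w ∈ ball z r, ‖X w‖ ≤ b := by
  intro w hw
  have hr : 0 < r := by
    rw [mem_ball] at hw
    exact lt_of_le_of_lt dist_nonneg hw
  have hab' : a < b := by nlinarith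
  have hwn : ‖w - z‖ < r := by rwa [mem_ball, dist_eq_norm] at hw
  have hγ : ∀ t ∈ Set.Icc (0 : ℝ) 1, z + (t : ℂ) * (w - z) ∈ ball z r := by
    intro t ht
    rw [mem_ball, dist_eq_norm, add_sub_cancel_left, norm_mul, Complex.norm_real, Real.norm_of_nonneg ht.1]
    calc t * ‖w - z‖ ≤ 1 * ‖w - z‖ := mul_le_mul_of_nonneg_right ht.2 (norm_nonneg _)
      _ < r := by linarith
  have hd : ∀ t ∈ Set.Icc (0 : ℝ) 1, HasDerivAt (fun t : ℝ => X (z + (t : ℂ) * (w - z))) (deriv X (z + (t : ℂ) * (w - z)) * (w - z)) t := by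
    intro t ht
    have h1 : HasDerivAt X (deriv X (z + (t : ℂ) * (w - z))) (z + (t : ℂ) * (w - z)) :=
      (hX.differentiableAt (isOpen_ball.mem_nhds (hγ t ht))).hasDerivAt
    have h2 : HasDerivAt (fun t : ℝ => z + (t : ℂ) * (w - z)) (w - z) t := by
      have h3 : HasDerivAt (fun s : ℝ => (s : ℂ)) 1 t := Complex.ofRealCLM.hasDerivAt
      have h4 := (h3.mul_const (w - z)).const_add z
      rwa [one_mul] at h4
    exact h1.comp_of_eq t h2 rfl
  have key := image_norm_le_of_norm_deriv_right_lt_deriv_boundary (f := fun t : ℝ => X (z + (t : ℂ) * (w - z)))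
    (f' := fun t : ℝ => deriv X (z + (t : ℂ) * (w - z)) * (w - z)) (a := 0) (b := 1)
    (fun t ht => (hd t ht).continuousAt.continuousWithinAt) (fun t ht => (hd t ⟨ht.1, ht.2.le⟩).hasDerivWithinAt)
    (B := fun t => a + (b - a) * t) (B' := fun _ => b - a) (by simpa using ha)
    (fun t => by simpa using ((hasDerivAt_id t).const_mul (b - a)).const_add a) (fun t ht hB => ?_) (x := 1) ⟨zero_le_one, le_rfl⟩
  · simp only [Complex.ofReal_one, one_mul, add_sub_cancel, mul_one] at key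
    exact key
  · have hB' : ‖X (z + (t : ℂ) * (w - z))‖ = a + (b - a) * t := hB
    have h1 : ‖X (z + (t : ℂ) * (w - z))‖ ≤ b := by
      rw [hB']
      nlinarith [ht.2]
    have h2 := hD _ (hγ t ⟨ht.1, ht.2.le⟩) h1
    rw [norm_mul]
    calc ‖deriv X (z + (t : ℂ) * (w - z))‖ * ‖w - z‖ ≤ D * r := mul_le_mul h2 hwn.le (norm_nonneg _) hD0
      _ < b - a := hab

/-- the derivative at the points of the ball of half the radius -/
theorem landau_half {X : ℂ → ℂ} {z : ℂ} {R : ℝ} (hR : 0 < R) (hX : DifferentiableOn ℂ X (ball z R)) (h01 : ∀ w ∈ ball z R, X w ≠ 0 ∧ X w ≠ 1)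
    {w : ℂ} (hw : w ∈ ball z (R / 2)) : ‖deriv X w‖ ≤ 96 / R * (1 + ‖X w‖ ^ 2) := by
  have hsub : ball w (R / 2) ⊆ ball z R := by
    refine ball_subset_ball' ?_
    rw [mem_ball] at hw
    linarith
  have h1 := landau48 (half_pos hR) (hX.mono hsub) fun u hu => h01 u (hsub hu)
  rw [div_mul_eq_mul_div, le_div_iff₀ hR]
  linarith

/-- bounded at the centre: bounded on a smaller ball -/
theorem local_bound (M : ℝ) : ∃ c : ℝ, 0 < c ∧ c ≤ 1 ∧ ∀ (X : ℂ → ℂ) (z : ℂ) (R : ℝ), 0 < R → DifferentiableOn ℂ X (ball z R) →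
    (∀ w ∈ ball z R, X w ≠ 0 ∧ X w ≠ 1) → ‖X z‖ ≤ M → ∀ w ∈ ball z (c * R), ‖X w‖ ≤ M + 1 := by
  set D : ℝ := 96 * (1 + (M + 1) ^ 2) with hD
  have hD1 : 96 ≤ D := by
    rw [hD]
    nlinarith [sq_nonneg (M + 1)]
  refine ⟨1 / (2 * D), by positivity, ?_, fun X z R hR hX h01 hM => ?_⟩
  · rw [div_le_one (by positivity)]
    linarith
  have hc : 1 / (2 * D) * R ≤ R / 2 := by
    rw [div_mul_eq_mul_div, one_mul, div_le_div_iff₀ (by positivity) (by norm_num)]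
    nlinarith
  have hsub : ball z (1 / (2 * D) * R) ⊆ ball z (R / 2) := ball_subset_ball hc
  have hsub' : ball z (1 / (2 * D) * R) ⊆ ball z R := ball_subset_ball (by linarith)
  have hM1 : 0 ≤ M + 1 := by linarith [norm_nonneg (X z)]
  refine stay (a := M) (b := M + 1) (D := D / R) (hX.mono hsub') hM (fun w hw hwb => ?_) (by positivity) ?_
  · refine (landau_half hR hX h01 (hsub hw)).trans ?_
    have h1 : ‖X w‖ ^ 2 ≤ (M + 1) ^ 2 := pow_le_pow_left₀ (norm_nonneg _) hwb 2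
    calc 96 / R * (1 + ‖X w‖ ^ 2) ≤ 96 / R * (1 + (M + 1) ^ 2) := by gcongr
      _ = D / R := by rw [hD]; ring
  · have h1 : D / R * (1 / (2 * D) * R) = 1 / 2 := by
      field_simp
    rw [h1]
    norm_num

/-- small at the centre: small on a smaller ball -/
theorem harnack3 : ∃ c : ℝ, 0 < c ∧ c ≤ 1 ∧ ∀ (X : ℂ → ℂ) (z : ℂ) (R : ℝ), 0 < R → DifferentiableOn ℂ X (ball z R) →
    (∀ w ∈ ball z R, X w ≠ 0 ∧ X w ≠ 1) → ‖X z‖ ≤ 1 / 2 → ∀ w ∈ ball z (c * R), ‖X w‖ ^ 3 ≤ ‖X z‖ := by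
  refine ⟨1 / 1600, by norm_num, by norm_num, fun X z R hR hX h01 hM w hw => ?_⟩
  have hr : 0 < R / 800 := by positivity
  have hsub : ball z (R / 800) ⊆ ball z (R / 2) := ball_subset_ball (by linarith)
  have hsub' : ball z (R / 800) ⊆ ball z R := ball_subset_ball (by linarith)
  have h34 : ∀ w ∈ ball z (R / 800), ‖X w‖ ≤ 3 / 4 := by
    refine stay (a := 1 / 2) (b := 3 / 4) (D := 150 / R) (hX.mono hsub') hM (fun w hw hwb => ?_) (by positivity) ?_
    · refine (landau_half hR hX h01 (hsub hw)).trans ?_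
      have h1 : ‖X w‖ ^ 2 ≤ (3 / 4) ^ 2 := pow_le_pow_left₀ (norm_nonneg _) hwb 2
      calc 96 / R * (1 + ‖X w‖ ^ 2) ≤ 96 / R * (1 + (3 / 4) ^ 2) := by gcongr
        _ = 150 / R := by ring
    · have h1 : 150 / R * (R / 800) = 150 / 800 := by field_simp
      rw [h1]
      norm_num
  obtain ⟨G, hG, hGe⟩ := Pool.Agent.H24.Growth.exists_log isOpen_ball (convex_ball z (R / 800)) ⟨z, mem_ball_self hr⟩ (hX.mono hsub')
    fun w hw => (h01 w (hsub' hw)).1
  have hre : ∀ w ∈ ball z (R / 800), (-G w).re = -Real.log ‖X w‖ := by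
    intro w hw
    rw [← hGe w hw, Complex.norm_exp, Real.log_exp, Complex.neg_re]
  have hpos : ∀ w ∈ ball z (R / 800), 0 < (-G w).re := by
    intro w hw
    rw [hre w hw]
    have h2 : Real.log ‖X w‖ < 0 := Real.log_neg (norm_pos_iff.2 (h01 w (hsub' hw)).1) (by linarith [h34 w hw])
    linarith
  have hwn : ‖w - z‖ < R / 1600 := by
    rw [mem_ball, dist_eq_norm] at hw
    linarith
  have hw' : w ∈ ball z (R / 800) := by
    rw [mem_ball, dist_eq_norm]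
    linarith
  have key := Pool.Agent.EG.LE.harnack (H := fun w => -G w) hr hG.neg hpos hw'
  have hzb : z ∈ ball z (R / 800) := mem_ball_self hr
  have h3 : (1 / 3 : ℝ) ≤ (R / 800 - ‖w - z‖) / (R / 800 + ‖w - z‖) := by
    rw [le_div_iff₀ (by positivity)]
    linarith
  have h4 : -Real.log ‖X z‖ * (1 / 3) ≤ -Real.log ‖X w‖ := by
    rw [← hre z hzb, ← hre w hw']
    exact (mul_le_mul_of_nonneg_left h3 (hpos z hzb).le).trans key
  have hXz : 0 < ‖X z‖ := norm_pos_iff.2 (h01 z (mem_ball_self hR)).1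
  have hXw : 0 < ‖X w‖ := norm_pos_iff.2 (h01 w (hsub' hw')).1
  have h5 : Real.log (‖X w‖ ^ 3) ≤ Real.log ‖X z‖ := by
    rw [Real.log_pow]
    push_cast
    linarith
  exact (Real.log_le_log_iff (by positivity) hXz).1 h5

end Pool.Agent.H62.LR

end
end

section

/-!
# LR Schottky: Schottky's theorem
-/

set_option autoImplicit false

open Topology Filter Metric

noncomputable section

namespace Pool.Agent.H41.LR

attribute [-instance] ProperSMul.toContinuousSMul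

/-- **Schottky's theorem.** -/
theorem schottky : Schottky := schottky_of Pool.Agent.H62.LR.local_bound Pool.Agent.H62.LR.harnack3

/-- **Picard's little theorem.** -/
theorem little_picard {f : ℂ → ℂ} (hf : Differentiable ℂ f) (hO : ∀ z, f z ≠ 0 ∧ f z ≠ 1) (z w : ℂ) : f z = f w := by
  obtain ⟨S, hS⟩ := schottky ‖f 0‖
  refine hf.apply_eq_apply_of_bounded ?_ z w
  refine (isBounded_iff_forall_norm_le).2 ⟨S, ?_⟩
  rintro _ ⟨x, rfl⟩
  refine hS f 0 (2 * (‖x‖ + 1)) (by positivity) hf.differentiableOn (fun y _ => hO y) le_rfl x ?_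
  rw [mem_closedBall_zero_iff]
  linarith

end Pool.Agent.H41.LR

end
end
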