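import Pool.Agent.H94.CB.M18
import Pool.Agent.H94.CB.M186
import Pool.Agent.H94.CB.M194

/-! The parts of this file: H87.JZ.Glue, H87.LU.Ends, H87.LU.ChainL, H87.LV.So. -/

section

/-!
# JZ Glue: gluing of holomorphic functions along strips

`glue_left`: `xk X₀ r k = X₀ - k r`; `T X₀ r S k` is the part `xk (k + 1) < Re t < xk (k - 1)` of the set `S`.  Functions `p k` on `T k` and `L k` on `{t ∈ S | Re t < xk k}` with `p k - p (k + 1) = L k` on the overlaps give one function `Φ = p k + ∑ i < k, L i` on `T k`.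

`glue_strips`: functions on the strips `|Im t - y| < δ`, all equal to `J₀` for `X₁ < Re t < X₂`, give one function.
-/

set_option autoImplicit false

open Topology Filter Metric Complex

namespace Pool.Agent.H87.JZ

attribute [-instance] ProperSMul.toContinuousSMul

/-- the piece number `k` of the set `S` -/
def piece (S : Set ℂ) (X₀ r : ℝ) (k : ℕ) : Set ℂ := {t | t ∈ S ∧ X₀ - (k + 1) * r < t.re ∧ t.re < X₀ - (k - 1) * r}

/-- the part of `S` to the left of the right end of the overlap of the pieces `k` and `k + 1` -/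
def leftOf (S : Set ℂ) (X₀ r : ℝ) (k : ℕ) : Set ℂ := {t | t ∈ S ∧ t.re < X₀ - k * r}

theorem isOpen_piece {S : Set ℂ} (hS : IsOpen S) (X₀ r : ℝ) (k : ℕ) : IsOpen (piece S X₀ r k) :=
  hS.inter ((isOpen_lt continuous_const Complex.continuous_re).inter (isOpen_lt Complex.continuous_re continuous_const))

theorem isOpen_leftOf {S : Set ℂ} (hS : IsOpen S) (X₀ r : ℝ) (k : ℕ) : IsOpen (leftOf S X₀ r k) :=
  hS.inter (isOpen_lt Complex.continuous_re continuous_const)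

theorem glue_left {S : Set ℂ} (hS : IsOpen S) {X₀ r B : ℝ} {m : ℕ} (hr : 0 < r) {p L : ℕ → ℂ → ℂ}
    (hp : ∀ k, DifferentiableOn ℂ (p k) (piece S X₀ r k)) (hL : ∀ k, DifferentiableOn ℂ (L k) (leftOf S X₀ r k))
    (hpL : ∀ k, ∀ t ∈ piece S X₀ r k, t ∈ piece S X₀ r (k + 1) → p k t - p (k + 1) t = L k t)
    (hpb : ∀ k, ∀ t ∈ piece S X₀ r k, ‖p k t‖ ≤ B * (1 + ‖t‖) ^ m) (hLb : ∀ k, ∀ t ∈ leftOf S X₀ r k, ‖L k t‖ ≤ B * (1 + ‖t‖) ^ m) :
    ∃ Φ : ℂ → ℂ, DifferentiableOn ℂ Φ {t | t ∈ S ∧ t.re < X₀ + r} ∧ (∀ t ∈ piece S X₀ r 0, Φ t = p 0 t) ∧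
      (∀ k, ∀ t ∈ piece S X₀ r k, Φ t = p k t + ∑ i ∈ Finset.range k, L i t) ∧
      ∀ t, t ∈ S → t.re < X₀ + r → ‖Φ t‖ ≤ |B| * (1 + (|X₀| + 1) / r) * (1 + ‖t‖) ^ (m + 1) := by
  set K : ℂ → ℕ := fun t => ⌊(X₀ - t.re) / r⌋₊ with hK
  set Φ : ℂ → ℂ := fun t => p (K t) t + ∑ i ∈ Finset.range (K t), L i t with hΦ
  -- the piece of a point
  have hmem : ∀ t ∈ S, t.re < X₀ + r → t ∈ piece S X₀ r (K t) := by
    intro t ht h1
    refine ⟨ht, ?_, ?_⟩
    · have h2 := Nat.lt_floor_add_one ((X₀ - t.re) / r)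
      rw [div_lt_iff₀ hr] at h2
      linarith
    · rcases le_or_gt t.re X₀ with h3 | h3
      · have h4 : (0 : ℝ) ≤ (X₀ - t.re) / r := div_nonneg (by linarith) hr.le
        have h5 := Nat.floor_le h4
        rw [le_div_iff₀ hr] at h5
        have h6 : (K t : ℝ) * r ≤ X₀ - t.re := h5
        have h7 : ((K t : ℝ) - 1) * r = (K t : ℝ) * r - r := by ring
        linarith
      · have h4 : K t = 0 := by
          rw [hK]
          simp only
          rw [Nat.floor_eq_zero]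
          have h5 : (X₀ - t.re) / r < 0 := div_neg_of_neg_of_pos (by linarith) hr
          linarith
        rw [h4]
        simp only [Nat.cast_zero, zero_sub]
        linarith
  -- the overlaps
  have hstep : ∀ k, ∀ t ∈ piece S X₀ r k, t ∈ piece S X₀ r (k + 1) →
      p k t + ∑ i ∈ Finset.range k, L i t = p (k + 1) t + ∑ i ∈ Finset.range (k + 1), L i t := by
    intro k t h1 h2
    rw [Finset.sum_range_succ, ← hpL k t h1 h2]
    ring
  have hval : ∀ k, ∀ t ∈ piece S X₀ r k, Φ t = p k t + ∑ i ∈ Finset.range k, L i t := by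
    intro k t ht
    have h1 : t.re < X₀ + r := by
      have h2 := ht.2.2
      have h3 : (0 : ℝ) ≤ (k : ℝ) * r := by positivity
      have h4 : X₀ - ((k : ℝ) - 1) * r = X₀ + r - k * r := by ring
      linarith
    have h2 := hmem t ht.1 h1
    have h3 : K t = k ∨ K t + 1 = k ∨ K t = k + 1 := by
      have h4 := h2.2.1
      have h5 := h2.2.2
      have h6 := ht.2.1
      have h7 := ht.2.2
      have h8 : ((K t : ℝ) - 1) * r < (k + 1) * r := by linarith
      have h9 : ((k : ℝ) - 1) * r < (K t + 1) * r := by linarith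
      have h10 : (K t : ℝ) - 1 < k + 1 := lt_of_mul_lt_mul_right h8 hr.le
      have h11 : (k : ℝ) - 1 < K t + 1 := lt_of_mul_lt_mul_right h9 hr.le
      have h12 : (K t : ℝ) < (k + 2 : ℕ) := by push_cast; linarith
      have h13 : (k : ℝ) < (K t + 2 : ℕ) := by push_cast; linarith
      have h14 : K t < k + 2 := by exact_mod_cast h12
      have h15 : k < K t + 2 := by exact_mod_cast h13
      omega
    rcases h3 with h3 | h3 | h3
    · rw [hΦ]
      simp only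
      rw [h3]
    · rw [hΦ]
      simp only
      rw [← h3]
      exact hstep (K t) t h2 (by rw [h3]; exact ht)
    · rw [hΦ]
      simp only
      rw [h3] at h2 ⊢
      exact (hstep k t ht h2).symm
  refine ⟨Φ, ?_, ?_, hval, ?_⟩
  · rintro t ⟨ht, ht1⟩
    have h1 := hmem t ht ht1
    set k := K t with hk
    have hopen := isOpen_piece hS X₀ r k
    have h2 : Φ =ᶠ[𝓝 t] fun t => p k t + ∑ i ∈ Finset.range k, L i t :=
      Filter.eventuallyEq_of_mem (hopen.mem_nhds h1) (hval k)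
    have h3 : DifferentiableAt ℂ (fun t => p k t + ∑ i ∈ Finset.range k, L i t) t := by
      refine ((hp k).differentiableAt (hopen.mem_nhds h1)).add (DifferentiableAt.fun_sum fun i hi => ?_)
      have h4 : t ∈ leftOf S X₀ r i := by
        refine ⟨ht, ?_⟩
        have h5 := h1.2.2
        have h6 : (i : ℝ) + 1 ≤ k := by exact_mod_cast Finset.mem_range.1 hi
        have h7 : (i : ℝ) * r ≤ ((k : ℝ) - 1) * r := mul_le_mul_of_nonneg_right (by linarith) hr.le
        linarith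
      exact (hL i).differentiableAt ((isOpen_leftOf hS X₀ r i).mem_nhds h4)
    exact (h2.differentiableAt_iff.2 h3).differentiableWithinAt
  · intro t ht
    rw [hval 0 t ht]
    simp
  · intro t ht ht1
    have h1 := hmem t ht ht1
    rw [hval _ t h1]
    set k := K t with hk
    have hN : 0 ≤ ‖t‖ := norm_nonneg t
    have hB : B * (1 + ‖t‖) ^ m ≤ |B| * (1 + ‖t‖) ^ m := mul_le_mul_of_nonneg_right (le_abs_self B) (by positivity)
    have h2 : ‖p k t‖ ≤ |B| * (1 + ‖t‖) ^ m := (hpb k t h1).trans hB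
    have h3 : ‖∑ i ∈ Finset.range k, L i t‖ ≤ k * (|B| * (1 + ‖t‖) ^ m) := by
      refine (norm_sum_le _ _).trans ?_
      calc ∑ i ∈ Finset.range k, ‖L i t‖ ≤ ∑ _i ∈ Finset.range k, |B| * (1 + ‖t‖) ^ m := by
            refine Finset.sum_le_sum fun i hi => ?_
            have h4 : t ∈ leftOf S X₀ r i := by
              refine ⟨ht, ?_⟩
              have h5 := h1.2.2
              have h6 : (i : ℝ) + 1 ≤ k := by exact_mod_cast Finset.mem_range.1 hi
              have h7 : (i : ℝ) * r ≤ ((k : ℝ) - 1) * r := mul_le_mul_of_nonneg_right (by linarith) hr.le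
              linarith
            exact (hLb i t h4).trans hB
        _ = _ := by simp
    have h4 : (k : ℝ) ≤ (|X₀| + 1) / r * (1 + ‖t‖) := by
      rcases le_or_gt t.re X₀ with h5 | h5
      · have h6 : (k : ℝ) ≤ (X₀ - t.re) / r := Nat.floor_le (div_nonneg (by linarith) hr.le)
        have h7 : X₀ - t.re ≤ (|X₀| + 1) * (1 + ‖t‖) := by
          have h8 := le_abs_self X₀
          have h9 : -t.re ≤ ‖t‖ := (neg_le_abs _).trans (Complex.abs_re_le_norm t)
          have h10 : 0 ≤ |X₀| * ‖t‖ := by positivity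
          nlinarith
        calc (k : ℝ) ≤ (X₀ - t.re) / r := h6
          _ ≤ (|X₀| + 1) * (1 + ‖t‖) / r := by gcongr
          _ = _ := by ring
      · have h6 : k = 0 := by
          rw [hk, hK]
          simp only
          rw [Nat.floor_eq_zero]
          have h7 : (X₀ - t.re) / r < 0 := div_neg_of_neg_of_pos (by linarith) hr
          linarith
        rw [h6, Nat.cast_zero]
        positivity
    have hX : 0 ≤ (|X₀| + 1) / r := by positivity
    calc ‖p k t + ∑ i ∈ Finset.range k, L i t‖ ≤ |B| * (1 + ‖t‖) ^ m + k * (|B| * (1 + ‖t‖) ^ m) :=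
          (norm_add_le _ _).trans (add_le_add h2 h3)
      _ ≤ |B| * (1 + ‖t‖) ^ m + ((|X₀| + 1) / r * (1 + ‖t‖)) * (|B| * (1 + ‖t‖) ^ m) := by gcongr
      _ ≤ |B| * (1 + ‖t‖) ^ m * (1 + ‖t‖) + ((|X₀| + 1) / r * (1 + ‖t‖)) * (|B| * (1 + ‖t‖) ^ m) := by
          have hA : |B| * (1 + ‖t‖) ^ m ≤ |B| * (1 + ‖t‖) ^ m * (1 + ‖t‖) :=
            le_mul_of_one_le_right (by positivity) (by linarith)
          linarith
      _ = |B| * (1 + (|X₀| + 1) / r) * (1 + ‖t‖) ^ (m + 1) := by ring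

end Pool.Agent.H87.JZ

end

section

/-!
# LU Ends: the input for the construction of `J` on balls

`T Ω`: the true sections over `Ω` (composed with the projection to `Y`).  `Mid`: the function `J` on the part `|Re z| < W` of a ball.  `LEnd`: cells in the left end,
far to the left (`Re t ≤ - T₁`); `W = T₁ + 10`, the seam is near `Re t = - T₁ - 5`.  The right end is the left end of the reflected situation (`rfT`, `rfI`).
`Appr`: the members of `S (ball c R)` are limits of members of `T`.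
A cell is an index `i : ι` (for instance `(i, μ)` in `EG/RL`), `Φ i t h` is the point with the coordinate `h` of the fibre over `t`, `P i t h` the primitive of the density.
-/

set_option autoImplicit false

open Topology Filter Metric

namespace Pool.Agent.H87.LU

attribute [-instance] ProperSMul.toContinuousSMul

/-- a strip which is unbounded to the left -/
def Stp (t₀ : ℂ) (ε : ℝ) : Set ℂ := {t | t.re < t₀.re + ε ∧ |t.im - t₀.im| < ε}

/-- the left end -/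
structure LEnd {Y : Type} [MetricSpace Y] (T : Set ℂ → Set (ℂ → Y)) (II : ℂ → Y → Y → ℂ) (T₁ : ℝ) where
  /-- the cells -/
  ι : Type
  /-- the parametrization of the cell -/
  Φ : ι → ℂ → ℂ → Y
  /-- the primitive of the density -/
  P : ι → ℂ → ℂ → ℂ
  /-- the cell -/
  Cn : ι → Set (ℂ × ℂ)
  /-- the central part of the cell -/
  Cs : ι → Set (ℂ × ℂ)
  /-- constants -/
  C : ℝ
  /-- the exponent of the growth -/
  k : ℕ
  /-- the margin -/
  r₁ : ℝ
  /-- the width of the links -/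
  ε : ℝ
  C_nonneg : 0 ≤ C
  r₁_ge : 4 ≤ r₁
  ε_pos : 0 < ε
  sub : ∀ i, Cs i ⊆ Cn i
  P_an : ∀ (i : ι) (U : Set ℂ) (h : ℂ → ℂ), IsOpen U → DifferentiableOn ℂ h U → (∀ t ∈ U, (t, h t) ∈ Cn i) → DifferentiableOn ℂ (fun t => P i t (h t)) U
  P_le : ∀ (i : ι) (t h : ℂ), (t, h) ∈ Cn i → ‖P i t h‖ ≤ C * ‖h‖
  cell : ∀ (c : ℂ) (R : ℝ), c.re = 0 → ∀ f ∈ T (ball c R), ∀ t₁ ∈ ball c (R - r₁), t₁.re ≤ -T₁ → ∃ (i : ι) (h : ℂ → ℂ),
    DifferentiableOn ℂ h (ball t₁ 4) ∧ ∀ t ∈ ball t₁ 4, (t, h t) ∈ Cs i ∧ f t = Φ i t (h t) ∧ ‖h t‖ ≤ C * (1 + R) ^ k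
  link : ∀ (i j : ι) (t₀ h₀ h₁ : ℂ), t₀.re ≤ -T₁ → (t₀, h₀) ∈ Cn i → (t₀, h₁) ∈ Cn j → Φ i t₀ h₀ = Φ j t₀ h₁ →
    ∃ D : ℂ → ℂ, DifferentiableOn ℂ D (Stp t₀ ε) ∧ (∀ t ∈ Stp t₀ ε, ‖D t‖ ≤ C * (1 + ‖t - t₀‖ + ‖h₀‖ + ‖h₁‖)) ∧
      ∀ hi hj : ℂ → ℂ, AnalyticAt ℂ hi t₀ → AnalyticAt ℂ hj t₀ → hi t₀ = h₀ → hj t₀ = h₁ →
        (∀ᶠ t in 𝓝 t₀, (t, hi t) ∈ Cn i ∧ (t, hj t) ∈ Cn j ∧ Φ i t (hi t) = Φ j t (hj t)) → ∀ᶠ t in 𝓝 t₀, P i t (hi t) - P j t (hj t) = D t
  seam : ∃ ε' : ℝ, 0 < ε' ∧ ∀ (t₁ : ℂ) (i : ι) (h : ℂ → ℂ) (f g : ℂ → Y), -T₁ - 6 ≤ t₁.re → t₁.re ≤ -T₁ - 4 → f ∈ T (ball t₁ r₁) → g ∈ T (ball t₁ r₁) →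
    DifferentiableOn ℂ h (ball t₁ 4) → (∀ t ∈ ball t₁ 4, (t, h t) ∈ Cs i ∧ f t = Φ i t (h t)) → (∀ t ∈ ball t₁ 4, dist (f t) (g t) ≤ ε') →
    ∃ h' : ℂ → ℂ, DifferentiableOn ℂ h' (ball t₁ 3) ∧ ∀ t ∈ ball t₁ 3, (t, h' t) ∈ Cn i ∧ g t = Φ i t (h' t) ∧ ‖h' t‖ ≤ ‖h t‖ + C ∧
      II t (f t) (g t) = P i t (h' t) - P i t (h t)

/-- the reflected family -/
def rfT {Y : Type} (T : Set ℂ → Set (ℂ → Y)) : Set ℂ → Set (ℂ → Y) := fun Ω => {f | (fun z => f (-z)) ∈ T {z | -z ∈ Ω}}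

/-- the reflected integral -/
def rfI {Y : Type} (II : ℂ → Y → Y → ℂ) : ℂ → Y → Y → ℂ := fun z => II (-z)

/-- the function `J` in the middle -/
def Mid {Y : Type} [MetricSpace Y] (T : Set ℂ → Set (ℂ → Y)) (II : ℂ → Y → Y → ℂ) (B : Set ℂ) (δ W ε₀ r₁ C : ℝ) : Prop :=
  ∀ (c : ℂ) (R : ℝ), c.re = 0 → ∀ f ∈ T (ball c R), ∀ g ∈ T (ball c R), (∀ z ∈ ball c R, z ∈ Gd B δ → |z.re| ≤ W → dist (f z) (g z) ≤ ε₀) →
    ∃ J : ℂ → ℂ, DifferentiableOn ℂ J {z | z ∈ ball c (R - r₁) ∧ |z.re| < W} ∧ (∀ z ∈ ball c (R - r₁), |z.re| < W → ‖J z‖ ≤ C) ∧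
      ∀ z ∈ ball c (R - r₁), z ∈ Gd B (2 * δ) → |z.re| < W → J z = II z (f z) (g z)

/-- the members of `S` are limits of members of `T` -/
structure Appr {Y : Type} [MetricSpace Y] (T S : Set ℂ → Set (ℂ → Y)) (II : ℂ → Y → Y → ℂ) (B : Set ℂ) (δ W ε₀ r₁ : ℝ) : Prop where
  appr : ∀ (c : ℂ) (R R' ε δ' : ℝ), c.re = 0 → R' < R → 0 < ε → 0 < δ' → ∀ f ∈ S (ball c R), ∃ F ∈ T (ball c R'),
    ∀ z ∈ ball c R', z ∈ Gd B δ' → dist (F z) (f z) < ε
  cont : ∀ (c : ℂ) (R : ℝ), c.re = 0 → ∀ f ∈ S (ball c R), ∀ g ∈ S (ball c R), ∀ z ∈ ball c (R - r₁), z ∈ Gd B (2 * δ) → |z.re| ≤ W →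
    dist (f z) (g z) ≤ ε₀ → ∀ η : ℝ, 0 < η → ∃ ε : ℝ, 0 < ε ∧ ∀ (R' : ℝ) (F G : ℂ → Y), F ∈ T (ball c R') → G ∈ T (ball c R') → z ∈ ball c (R' - r₁) →
      dist (F z) (f z) < ε → dist (G z) (g z) < ε → dist (II z (F z) (G z)) (II z (f z) (g z)) < η

end Pool.Agent.H87.LU

end

section

/-!
# LU ChainL: the primitive along a section extends to the left inside a ball

For a section `f` over `ball c R` and a height `y`: the cells on the balls of radius `4` about `c_k = - T₁ - 5 - k + i y`, the links at `c_k`; `glue_left` (translated by `c`, so that the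
bounds only depend on `R`).
-/

set_option autoImplicit false

open Topology Filter Metric

namespace Pool.Agent.H87.LU

attribute [-instance] ProperSMul.toContinuousSMul

open Pool.Agent.H87.JZ (piece leftOf glue_left)

variable {Y : Type} [MetricSpace Y] {T : Set ℂ → Set (ℂ → Y)} {II : ℂ → Y → Y → ℂ} {T₁ : ℝ}

/-- `f` is the curve `h` in the cell `i` on the ball of radius `4` about `c₀`, with the bound `A` for `h` -/
def Rep (E : LEnd T II T₁) (f : ℂ → Y) (c₀ : ℂ) (A : ℝ) (i : E.ι) (h : ℂ → ℂ) : Prop :=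
  DifferentiableOn ℂ h (ball c₀ 4) ∧ ∀ t ∈ ball c₀ 4, (t, h t) ∈ E.Cs i ∧ f t = E.Φ i t (h t) ∧ ‖h t‖ ≤ A

/-- the point number `k` -/
def ck (T₁ y : ℝ) (k : ℕ) : ℂ := ⟨-T₁ - 5 - k, y⟩

theorem ck_succ (T₁ y : ℝ) (k : ℕ) : dist (ck T₁ y k) (ck T₁ y (k + 1)) = 1 := by
  rw [dist_eq_norm]
  have h1 : ck T₁ y k - ck T₁ y (k + 1) = 1 := by
    apply Complex.ext
    · show (-T₁ - 5 - (k : ℝ)) - (-T₁ - 5 - ((k + 1 : ℕ) : ℝ)) = 1
      push_cast
      ring
    · exact sub_self y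
  rw [h1, norm_one]

/-- a point of a ball about a point of the imaginary axis, moved towards the axis -/
theorem norm_le_of_re {c t w : ℂ} (hc : c.re = 0) (hre : |w.re| ≤ |t.re|) : ‖w - c‖ ≤ ‖t - c‖ + |w.im - t.im| := by
  have h1 : ‖(⟨w.re, t.im⟩ : ℂ) - c‖ ≤ ‖t - c‖ := by
    have h2 : ‖(⟨w.re, t.im⟩ : ℂ) - c‖ ^ 2 ≤ ‖t - c‖ ^ 2 := by
      rw [Complex.sq_norm, Complex.sq_norm, Complex.normSq_apply, Complex.normSq_apply, Complex.sub_re, Complex.sub_re, Complex.sub_im, Complex.sub_im,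
        hc, sub_zero, sub_zero]
      have h3 := abs_mul_abs_self w.re
      have h4 := abs_mul_abs_self t.re
      have h5 := mul_self_le_mul_self (abs_nonneg w.re) hre
      show w.re * w.re + _ ≤ _
      linarith
    exact (pow_le_pow_iff_left₀ (norm_nonneg _) (norm_nonneg _) two_ne_zero).1 h2
  have h6 : w - c = ((⟨w.re, t.im⟩ : ℂ) - c) + ((w.im - t.im : ℝ) : ℂ) * Complex.I := by
    apply Complex.ext
    · simp
    · simp
  rw [h6]
  refine (norm_add_le _ _).trans ?_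
  rw [norm_mul, Complex.norm_I, mul_one, Complex.norm_real, Real.norm_eq_abs]
  linarith

theorem LEnd.chain (E : LEnd T II T₁) (hT₁ : 0 < T₁) : ∃ (δ A : ℝ) (m : ℕ), 0 < δ ∧ δ ≤ 1 ∧ δ ≤ E.ε ∧ 0 ≤ A ∧ ∀ (c : ℂ) (R : ℝ), c.re = 0 → E.r₁ + 3 < R →
    ∀ f ∈ T (ball c R), ∀ y : ℝ, ck T₁ y 0 ∈ ball c (R - (E.r₁ + 2)) →
    ∃ (i : E.ι) (h Φ : ℂ → ℂ), Rep E f (ck T₁ y 0) (E.C * (1 + R) ^ E.k) i h ∧
      DifferentiableOn ℂ Φ {t | t ∈ ball c (R - (E.r₁ + 3)) ∧ t.re < -T₁ - 4 ∧ |t.im - y| < δ} ∧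
      (∀ t ∈ ball c (R - (E.r₁ + 3)), -T₁ - 6 < t.re → t.re < -T₁ - 4 → |t.im - y| < δ → Φ t = E.P i t (h t)) ∧
      ∀ t ∈ ball c (R - (E.r₁ + 3)), t.re < -T₁ - 4 → |t.im - y| < δ → ‖Φ t‖ ≤ A * (1 + R) ^ m := by
  have hC := E.C_nonneg
  have hr := E.r₁_ge
  set B₀ : ℝ := E.C * (3 + 2 * E.C) + E.C * E.C with hB₀
  have hB₀0 : 0 ≤ B₀ := by positivity
  refine ⟨min E.ε 1, B₀ * (1 + (|-T₁ - 5| + 1) / 1), E.k + 1 + 1, lt_min E.ε_pos one_pos, min_le_right _ _, min_le_left _ _, by positivity,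
    fun c R hc hR f hf y hy => ?_⟩
  set δ : ℝ := min E.ε 1 with hδ
  have hδ0 : 0 < δ := lt_min E.ε_pos one_pos
  have hδ1 : δ ≤ 1 := min_le_right _ _
  have hδε : δ ≤ E.ε := min_le_left _ _
  have hR1 : 1 ≤ 1 + R := by linarith
  set Ak : ℝ := E.C * (1 + R) ^ E.k with hAk
  have hAk0 : 0 ≤ Ak := by positivity
  -- the representations
  have hrep : ∀ k : ℕ, ck T₁ y k ∈ ball c (R - E.r₁) → ∃ (i : E.ι) (h : ℂ → ℂ), Rep E f (ck T₁ y k) Ak i h := by
    intro k hk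
    obtain ⟨i, h, h1, h2⟩ := E.cell c R hc f hf (ck T₁ y k) hk (by
      show -T₁ - 5 - (k : ℝ) ≤ -T₁
      have : (0 : ℝ) ≤ k := Nat.cast_nonneg k
      linarith)
    exact ⟨i, h, h1, h2⟩
  obtain ⟨i₀, h₀, hi₀⟩ := hrep 0 (ball_subset_ball (by linarith) hy)
  -- the local primitives
  have hp : ∀ k : ℕ, ∃ (i : E.ι) (h : ℂ → ℂ), (ck T₁ y k ∈ ball c (R - E.r₁) → Rep E f (ck T₁ y k) Ak i h) ∧ (k = 0 → i = i₀ ∧ h = h₀ ∧ Rep E f (ck T₁ y 0) Ak i h) := by
    intro k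
    rcases Nat.eq_zero_or_pos k with h1 | h1
    · subst h1
      exact ⟨i₀, h₀, fun _ => hi₀, fun _ => ⟨rfl, rfl, hi₀⟩⟩
    · by_cases h2 : ck T₁ y k ∈ ball c (R - E.r₁)
      · obtain ⟨i, h, h3⟩ := hrep k h2
        exact ⟨i, h, fun _ => h3, fun h4 => absurd h4 (by omega)⟩
      · exact ⟨i₀, h₀, fun h3 => absurd h3 h2, fun h4 => absurd h4 (by omega)⟩
  choose i h hih hih0 using hp
  -- the links
  have hlink : ∀ k : ℕ, ∃ D : ℂ → ℂ, ck T₁ y k ∈ ball c (R - E.r₁) → ck T₁ y (k + 1) ∈ ball c (R - E.r₁) →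
      DifferentiableOn ℂ D (Stp (ck T₁ y k) E.ε) ∧ (∀ t ∈ Stp (ck T₁ y k) E.ε, ‖D t‖ ≤ E.C * (1 + ‖t - ck T₁ y k‖ + Ak + Ak)) ∧
      ∀ᶠ t in 𝓝 (ck T₁ y k), E.P (i k) t (h k t) - E.P (i (k + 1)) t (h (k + 1) t) = D t := by
    intro k
    by_cases h1 : ck T₁ y k ∈ ball c (R - E.r₁) ∧ ck T₁ y (k + 1) ∈ ball c (R - E.r₁)
    · have r1 := hih k h1.1
      have r2 := hih (k + 1) h1.2
      have m1 : ck T₁ y k ∈ ball (ck T₁ y k) 4 := mem_ball_self (by norm_num)
      have m2 : ck T₁ y k ∈ ball (ck T₁ y (k + 1)) 4 := by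
        rw [mem_ball, ck_succ]
        norm_num
      obtain ⟨D, hD1, hD2, hD3⟩ := E.link (i k) (i (k + 1)) (ck T₁ y k) (h k (ck T₁ y k)) (h (k + 1) (ck T₁ y k)) (by
          show -T₁ - 5 - (k : ℝ) ≤ -T₁
          have : (0 : ℝ) ≤ k := Nat.cast_nonneg k
          linarith) (E.sub _ (r1.2 _ m1).1) (E.sub _ (r2.2 _ m2).1) (by rw [← (r1.2 _ m1).2.1, ← (r2.2 _ m2).2.1])
      refine ⟨D, fun _ _ => ⟨hD1, fun t ht => (hD2 t ht).trans ?_, ?_⟩⟩
      · refine mul_le_mul_of_nonneg_left ?_ hC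
        linarith [(r1.2 _ m1).2.2, (r2.2 _ m2).2.2]
      · refine hD3 (h k) (h (k + 1)) (r1.1.analyticAt (isOpen_ball.mem_nhds m1)) (r2.1.analyticAt (isOpen_ball.mem_nhds m2)) rfl rfl ?_
        filter_upwards [isOpen_ball.mem_nhds m1, isOpen_ball.mem_nhds m2] with t ha hb
        exact ⟨E.sub _ (r1.2 t ha).1, E.sub _ (r2.2 t hb).1, by rw [← (r1.2 t ha).2.1, ← (r2.2 t hb).2.1]⟩
    · refine ⟨fun _ => 0, fun h2 h3 => absurd ⟨h2, h3⟩ h1⟩
  choose D hD using hlink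
  set V : Set ℂ := ball c (R - (E.r₁ + 3)) with hV
  -- translated data
  set S' : Set ℂ := {s | |(s + c).im - y| < δ ∧ s + c ∈ V} with hS'
  have hS'o : IsOpen S' := by
    have hct : Continuous fun s : ℂ => s + c := by fun_prop
    have h1 : IsOpen {s : ℂ | |(s + c).im - y| < δ} := isOpen_lt ((Complex.continuous_im.comp hct).sub continuous_const).abs continuous_const
    exact h1.inter (isOpen_ball.preimage hct)
  have hsre : ∀ s : ℂ, (s + c).re = s.re := fun s => by rw [Complex.add_re, hc, add_zero]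
  have hckre : ∀ k : ℕ, (ck T₁ y k).re = -T₁ - 5 - k := fun k => rfl
  have hckim : ∀ k : ℕ, (ck T₁ y k).im = y := fun k => rfl
  -- the centers are in the ball
  have hgood : ∀ (k : ℕ) (s : ℂ), s ∈ S' → s.re < -T₁ - 5 - ((k : ℝ) - 1) * 1 → ck T₁ y k ∈ ball c (R - E.r₁) ∧ ck T₁ y (k + 1) ∈ ball c (R - E.r₁) := by
    intro k s hs hsk
    have h1 : ‖s + c - c‖ < R - (E.r₁ + 3) := by
      have := hs.2
      rwa [hV, mem_ball, dist_eq_norm] at this
    have h2 : ∀ j : ℕ, (j : ℝ) ≤ k + 1 → ‖ck T₁ y j - c‖ < R - E.r₁ := by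
      intro j hj
      have h3 : |(ck T₁ y j + 2).re| ≤ |(s + c).re| := by
        have hk0 : (0 : ℝ) ≤ k := Nat.cast_nonneg k
        have hj0 : (0 : ℝ) ≤ j := Nat.cast_nonneg j
        rw [hsre, Complex.add_re, hckre]
        have h4 : (-T₁ - 5 - (j : ℝ) + (2 : ℂ).re) = -(T₁ + 3 + j) := by
          norm_num
          ring
        rw [h4, abs_neg, abs_of_pos (by linarith)]
        have h5 : -s.re ≤ |s.re| := neg_le_abs _
        linarith
      have h4 := norm_le_of_re (c := c) (t := s + c) (w := ck T₁ y j + 2) hc h3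
      have h5 : (ck T₁ y j + 2).im = y := by
        rw [Complex.add_im, hckim]
        norm_num
      rw [h5, abs_sub_comm] at h4
      have h6 : |(s + c).im - y| < δ := hs.1
      have h7 : ck T₁ y j - c = (ck T₁ y j + 2 - c) - 2 := by ring
      rw [h7]
      refine (norm_sub_le _ _).trans_lt ?_
      have h8 : ‖(2 : ℂ)‖ = 2 := by norm_num
      rw [h8]
      linarith
    constructor
    · rw [mem_ball, dist_eq_norm]
      exact h2 k (by linarith)
    · rw [mem_ball, dist_eq_norm]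
      exact h2 (k + 1) (by push_cast; linarith)
  have hpiece : ∀ (k : ℕ) (s : ℂ), s ∈ piece S' (-T₁ - 5) 1 k → ck T₁ y k ∈ ball c (R - E.r₁) ∧ ck T₁ y (k + 1) ∈ ball c (R - E.r₁) := by
    rintro k s ⟨h1, -, h3⟩
    exact hgood k s h1 (by linarith)
  have hleft : ∀ (k : ℕ) (s : ℂ), s ∈ leftOf S' (-T₁ - 5) 1 k → ck T₁ y k ∈ ball c (R - E.r₁) ∧ ck T₁ y (k + 1) ∈ ball c (R - E.r₁) := by
    rintro k s ⟨h1, h3⟩
    exact hgood k s h1 (by linarith)
  have hdist : ∀ (k : ℕ) (s : ℂ), s ∈ piece S' (-T₁ - 5) 1 k → s + c ∈ ball (ck T₁ y k) 4 := by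
    rintro k s ⟨h1, h2, h3⟩
    rw [mem_ball, dist_eq_norm]
    refine lt_of_le_of_lt (Complex.norm_le_abs_re_add_abs_im _) ?_
    rw [Complex.sub_re, Complex.sub_im, hckre, hckim, hsre]
    have h4 : |s.re - (-T₁ - 5 - k)| < 1 := by
      rw [abs_lt]
      constructor <;> linarith
    have h5 : |(s + c).im - y| < δ := h1.1
    linarith
  have hstp : ∀ (k : ℕ) (s : ℂ), s ∈ leftOf S' (-T₁ - 5) 1 k → s + c ∈ Stp (ck T₁ y k) E.ε := by
    rintro k s ⟨h1, h2⟩
    refine ⟨?_, ?_⟩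
    · rw [hsre, hckre]
      linarith [E.ε_pos]
    · rw [hckim]
      have h5 : |(s + c).im - y| < δ := h1.1
      linarith
  have hgl := glue_left hS'o (X₀ := -T₁ - 5) (r := 1) (B := B₀ * (1 + R) ^ (E.k + 1)) (m := 0) one_pos
    (p := fun k s => E.P (i k) (s + c) (h k (s + c))) (L := fun k s => D k (s + c)) ?_ ?_ ?_ ?_ ?_
  · obtain ⟨Φ, hΦ1, hΦ2, -, hΦ4⟩ := hgl
    have hS'mem : ∀ t : ℂ, t ∈ V → |t.im - y| < δ → t - c ∈ S' := by
      intro t ht1 ht2
      refine ⟨?_, ?_⟩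
      · rw [sub_add_cancel]
        exact ht2
      · rw [sub_add_cancel]
        exact ht1
    have htre : ∀ t : ℂ, (t - c).re = t.re := fun t => by rw [Complex.sub_re, hc, sub_zero]
    refine ⟨i₀, h₀, fun t => Φ (t - c), hi₀, ?_, ?_, ?_⟩
    · refine hΦ1.comp ((differentiable_id.sub_const c).differentiableOn) ?_
      rintro t ⟨h1, h2, h3⟩
      refine ⟨hS'mem t h1 h3, ?_⟩
      show (t - c).re < -T₁ - 5 + 1
      rw [htre]
      linarith
    · intro t h1 h2 h3 h4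
      have h5 := hΦ2 (t - c) ⟨hS'mem t h1 h4, by rw [htre]; push_cast; linarith, by rw [htre]; push_cast; linarith⟩
      have h6 := hih0 0 rfl
      simp only [sub_add_cancel] at h5
      rw [h6.1, h6.2.1] at h5
      exact h5
    · intro t h1 h2 h3
      have h5 := hΦ4 (t - c) (hS'mem t h1 h3) (by rw [htre]; linarith)
      have h6 : ‖t - c‖ ≤ R := by
        rw [hV, mem_ball, dist_eq_norm] at h1
        linarith
      refine h5.trans ?_
      have h7 : |B₀ * (1 + R) ^ (E.k + 1)| = B₀ * (1 + R) ^ (E.k + 1) := abs_of_nonneg (by positivity)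
      rw [h7]
      calc B₀ * (1 + R) ^ (E.k + 1) * (1 + (|-T₁ - 5| + 1) / 1) * (1 + ‖t - c‖) ^ (0 + 1)
          ≤ B₀ * (1 + R) ^ (E.k + 1) * (1 + (|-T₁ - 5| + 1) / 1) * (1 + R) ^ (0 + 1) := by gcongr
        _ = B₀ * (1 + (|-T₁ - 5| + 1) / 1) * (1 + R) ^ (E.k + 1 + 1) := by ring
  · intro k
    have hsub : ∀ s ∈ piece S' (-T₁ - 5) 1 k, s + c ∈ ball (ck T₁ y k) 4 := hdist k
    intro s hs
    have r1 := hih k (hpiece k s hs).1
    have h1 := E.P_an (i k) (ball (ck T₁ y k) 4) (h k) isOpen_ball r1.1 fun t ht => E.sub _ (r1.2 t ht).1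
    have h2 : DifferentiableAt ℂ (fun t => E.P (i k) t (h k t)) (s + c) := h1.differentiableAt (isOpen_ball.mem_nhds (hsub s hs))
    exact (h2.comp s (differentiableAt_id.add_const c)).differentiableWithinAt
  · intro k s hs
    obtain ⟨g1, g2⟩ := hleft k s hs
    have hopen : IsOpen (Stp (ck T₁ y k) E.ε) := by
      unfold Stp
      exact (isOpen_lt Complex.continuous_re continuous_const).inter (isOpen_lt (Complex.continuous_im.sub continuous_const).abs continuous_const)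
    have h2 : DifferentiableAt ℂ (D k) (s + c) := (hD k g1 g2).1.differentiableAt (hopen.mem_nhds (hstp k s hs))
    exact (h2.comp s (differentiableAt_id.add_const c)).differentiableWithinAt
  · intro k s hs1 hs2
    obtain ⟨g1, g2⟩ := hpiece k s hs1
    have r1 := hih k g1
    have r2 := hih (k + 1) g2
    obtain ⟨hD1, -, hD3⟩ := hD k g1 g2
    -- the rectangle
    set Q : Set ℂ := {t : ℂ | t.re < -T₁ - 5 - k + δ} ∩ ({t : ℂ | -T₁ - 5 - k - 1 < t.re} ∩ ({t : ℂ | t.im < y + δ} ∩ {t : ℂ | y - δ < t.im})) with hQ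
    have hQo : IsOpen Q := (isOpen_lt Complex.continuous_re continuous_const).inter ((isOpen_lt continuous_const Complex.continuous_re).inter
      ((isOpen_lt Complex.continuous_im continuous_const).inter (isOpen_lt continuous_const Complex.continuous_im)))
    have hQc : Convex ℝ Q := (convex_halfSpace_re_lt _).inter ((convex_halfSpace_re_gt _).inter ((convex_halfSpace_im_lt _).inter (convex_halfSpace_im_gt _)))
    have hQ1 : Q ⊆ ball (ck T₁ y k) 4 := by
      rintro t ⟨q1, q2, q3, q4⟩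
      have q1 : t.re < -T₁ - 5 - k + δ := q1
      have q2 : -T₁ - 5 - k - 1 < t.re := q2
      have q3 : t.im < y + δ := q3
      have q4 : y - δ < t.im := q4
      rw [mem_ball, dist_eq_norm]
      refine lt_of_le_of_lt (Complex.norm_le_abs_re_add_abs_im _) ?_
      rw [Complex.sub_re, Complex.sub_im, hckre, hckim]
      have h4 : |t.re - (-T₁ - 5 - k)| ≤ 1 := by
        rw [abs_le]
        constructor <;> linarith
      have h5 : |t.im - y| ≤ 1 := by
        rw [abs_le]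
        constructor <;> linarith
      linarith
    have hQ2 : Q ⊆ ball (ck T₁ y (k + 1)) 4 := by
      rintro t ⟨q1, q2, q3, q4⟩
      have q1 : t.re < -T₁ - 5 - k + δ := q1
      have q2 : -T₁ - 5 - k - 1 < t.re := q2
      have q3 : t.im < y + δ := q3
      have q4 : y - δ < t.im := q4
      rw [mem_ball, dist_eq_norm]
      refine lt_of_le_of_lt (Complex.norm_le_abs_re_add_abs_im _) ?_
      rw [Complex.sub_re, Complex.sub_im, hckre, hckim]
      push_cast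
      have h4 : |t.re - (-T₁ - 5 - (k + 1))| ≤ 2 := by
        rw [abs_le]
        constructor <;> linarith
      have h5 : |t.im - y| ≤ 1 := by
        rw [abs_le]
        constructor <;> linarith
      linarith
    have hQ3 : Q ⊆ Stp (ck T₁ y k) E.ε := by
      rintro t ⟨q1, q2, q3, q4⟩
      have q1 : t.re < -T₁ - 5 - k + δ := q1
      have q3 : t.im < y + δ := q3
      have q4 : y - δ < t.im := q4
      refine ⟨?_, ?_⟩
      · rw [hckre]
        linarith
      · rw [hckim, abs_lt]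
        constructor <;> linarith
    have hd1 : DifferentiableOn ℂ (fun t => E.P (i k) t (h k t) - E.P (i (k + 1)) t (h (k + 1) t)) Q := by
      refine DifferentiableOn.sub ?_ ?_
      · exact (E.P_an (i k) (ball (ck T₁ y k) 4) (h k) isOpen_ball r1.1 fun t ht => E.sub _ (r1.2 t ht).1).mono hQ1
      · exact (E.P_an (i (k + 1)) (ball (ck T₁ y (k + 1)) 4) (h (k + 1)) isOpen_ball r2.1 fun t ht => E.sub _ (r2.2 t ht).1).mono hQ2
    have hcQ : ck T₁ y k ∈ Q := ⟨by show -T₁ - 5 - (k : ℝ) < _; linarith, by show _ < -T₁ - 5 - (k : ℝ); linarith, by show y < _; linarith, by show _ < y; linarith⟩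
    have hsQ : s + c ∈ Q := by
      obtain ⟨s1, s2, s3⟩ := hs1
      obtain ⟨-, s4, s5⟩ := hs2
      have s6 := abs_lt.1 s1.1
      push_cast at s5
      refine ⟨?_, ?_, ?_, ?_⟩
      · show (s + c).re < _
        rw [hsre]
        linarith
      · show _ < (s + c).re
        rw [hsre]
        linarith
      · show (s + c).im < _
        linarith [s6.2]
      · show _ < (s + c).im
        linarith [s6.1]
    exact (hd1.analyticOnNhd hQo).eqOn_of_preconnected_of_eventuallyEq ((hD1.mono hQ3).analyticOnNhd hQo) hQc.isPreconnected hcQ hD3 hsQ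
  · intro k s hs
    have r1 := hih k (hpiece k s hs).1
    obtain ⟨a1, a2, a3⟩ := r1.2 (s + c) (hdist k s hs)
    have h1 := E.P_le (i k) (s + c) (h k (s + c)) (E.sub _ a1)
    refine h1.trans ?_
    rw [pow_zero, mul_one]
    calc E.C * ‖h k (s + c)‖ ≤ E.C * Ak := mul_le_mul_of_nonneg_left a3 hC
      _ = E.C * E.C * (1 + R) ^ E.k := by rw [hAk]; ring
      _ ≤ B₀ * (1 + R) ^ (E.k + 1) := by
          refine mul_le_mul ?_ (pow_le_pow_right₀ hR1 (Nat.le_succ _)) (by positivity) hB₀0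
          rw [hB₀]
          have : 0 ≤ E.C * (3 + 2 * E.C) := by positivity
          linarith
  · intro k s hs
    obtain ⟨g1, g2⟩ := hleft k s hs
    have h1 := (hD k g1 g2).2.1 (s + c) (hstp k s hs)
    refine h1.trans ?_
    rw [pow_zero, mul_one]
    have h2 : ‖s + c - ck T₁ y k‖ ≤ 2 * R := by
      have h3 : s + c - ck T₁ y k = (s + c - c) - (ck T₁ y k - c) := by ring
      rw [h3]
      refine (norm_sub_le _ _).trans ?_
      have h4 : ‖s + c - c‖ < R - (E.r₁ + 3) := by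
        have := hs.1.2
        rwa [hV, mem_ball, dist_eq_norm] at this
      have h5 : ‖ck T₁ y k - c‖ < R - E.r₁ := by
        rwa [mem_ball, dist_eq_norm] at g1
      linarith
    have h3 : 1 + R ≤ (1 + R) ^ (E.k + 1) := by
      calc 1 + R = (1 + R) ^ 1 := (pow_one _).symm
        _ ≤ (1 + R) ^ (E.k + 1) := pow_le_pow_right₀ hR1 (by omega)
    have h4 : (1 + R) ^ E.k ≤ (1 + R) ^ (E.k + 1) := pow_le_pow_right₀ hR1 (Nat.le_succ _)
    calc E.C * (1 + ‖s + c - ck T₁ y k‖ + Ak + Ak) ≤ E.C * (1 + 2 * R + Ak + Ak) := by gcongr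
      _ ≤ E.C * (3 * (1 + R) ^ (E.k + 1) + 2 * E.C * (1 + R) ^ (E.k + 1)) := by
          refine mul_le_mul_of_nonneg_left ?_ hC
          rw [hAk]
          have h5 : E.C * (1 + R) ^ E.k ≤ E.C * (1 + R) ^ (E.k + 1) := mul_le_mul_of_nonneg_left h4 hC
          nlinarith
      _ = E.C * (3 + 2 * E.C) * (1 + R) ^ (E.k + 1) := by ring
      _ ≤ B₀ * (1 + R) ^ (E.k + 1) := by
          refine mul_le_mul_of_nonneg_right ?_ (by positivity)
          rw [hB₀]
          have : 0 ≤ E.C * E.C := by positivity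
          linarith

end Pool.Agent.H87.LU

end

section

/-!
# LV So: formal properties of the limits of sections `SO X D Λ u B Ω`

`SLip`: local Lipschitz bounds for the sections, locally uniform outside `B`.  Consequences for `SO`: `so_anti`, `so_lip`, `so_mem`, `so_trans`, `so_lim`.
-/

set_option autoImplicit false

open Topology Filter Metric

namespace Pool.Agent.H87.LV

attribute [-instance] ProperSMul.toContinuousSMul

open Pool.Agent.H36.BP (EN)
open Pool.Agent.H14.PP (IsCone)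
open Pool.Agent.H62.EF (MN pr)
open Pool.Agent.H62.EL (Gd BadSet gd_mono gd_notMem isClosed_gd)
open Pool.Agent.H18.LU (SecAt SO)

variable {N : ℕ} {X D : Set (EN N)} {Λ : AddSubgroup ℂ} {u : EN N → ℂ} {B : Set ℂ} {δ : ℝ}

theorem so_anti {Ω Ω' : Set ℂ} (h : Ω' ⊆ Ω) : SO X D Λ u B Ω ⊆ SO X D Λ u B Ω' := fun _ hf K hK => hf K (hK.trans h)

/-- projective space -/
def KN (N : ℕ) : Set (MN N) := pr '' {x : EN N | x ≠ 0}

theorem isCompact_KN : IsCompact (KN N) := by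
  refine Pool.Agent.H62.EF.isCompact_pr (X := {x : EN N | x ≠ 0}) ⟨fun h => h rfl, fun x hx c hc => smul_ne_zero hc hx, ?_⟩
  have h1 : insert (0 : EN N) {x : EN N | x ≠ 0} = Set.univ := by
    ext x
    simp only [Set.mem_insert_iff, Set.mem_setOf_eq, Set.mem_univ, iff_true]
    exact em (x = 0)
  rw [h1]
  exact isClosed_univ

theorem so_mem (hX : ∀ x ∈ X, x ≠ 0) (hB : BadSet B Λ δ) {Ω : Set ℂ} {f : ℂ → MN N} (hf : f ∈ SO X D Λ u B Ω) {z : ℂ} (hzΩ : z ∈ Ω) (hz : z ∉ B) :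
    f z ∈ KN N := by
  obtain ⟨δ', hδ', hz'⟩ := hB.exists_gd hz
  have hc := (isCompact_KN (N := N)).isClosed
  rw [← hc.closure_eq, Metric.mem_closure_iff]
  intro ε hε
  obtain ⟨F, hF, hFd⟩ := hf {z} (Set.singleton_subset_iff.2 hzΩ) isCompact_singleton δ' ε hδ' hε
  refine ⟨pr (F z), ⟨F z, hX _ (hF z rfl).2.self_of_nhds.1, rfl⟩, ?_⟩
  rw [dist_comm]
  exact hFd z rfl hz'

end Pool.Agent.H87.LV

end
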