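import Pool.Agent.H94.CB.M187
import Pool.Agent.H94.CB.M189
import Pool.Agent.H94.CB.M190
import Pool.Agent.H94.CB.M191
import Pool.Agent.H94.CB.M212

/-! The parts of this file: H87.JZ.GlueFull, H87.LU.LeftB, H87.LU.JTrue, H87.LU.JLim, H62.LR.EndG. -/

section

/-!
# JZ GlueFull: gluing of three functions on a strip, and of functions on the strips of a half plane
-/

set_option autoImplicit false

open Topology Filter Metric Complex

namespace Pool.Agent.H87.JZ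

attribute [-instance] ProperSMul.toContinuousSMul

theorem three_pieces {S : Set ℂ} (hS : IsOpen S) {a b d : ℝ} (hd : 0 < d) (hab : a + d ≤ b - d) {JL J₀ JR : ℂ → ℂ}
    (hL : DifferentiableOn ℂ JL {t | t ∈ S ∧ t.re < a + d}) (h0 : DifferentiableOn ℂ J₀ {t | t ∈ S ∧ a - d < t.re ∧ t.re < b + d})
    (hR : DifferentiableOn ℂ JR {t | t ∈ S ∧ b - d < t.re}) (hL0 : ∀ t ∈ S, a - d < t.re → t.re < a + d → JL t = J₀ t)
    (hR0 : ∀ t ∈ S, b - d < t.re → t.re < b + d → JR t = J₀ t) :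
    ∃ J : ℂ → ℂ, DifferentiableOn ℂ J S ∧ (∀ t ∈ S, t.re < a + d → J t = JL t) ∧ (∀ t ∈ S, a - d < t.re → t.re < b + d → J t = J₀ t) ∧
      ∀ t ∈ S, b - d < t.re → J t = JR t := by
  classical
  set J : ℂ → ℂ := fun t => if t.re < a then JL t else if b < t.re then JR t else J₀ t with hJ
  have e1 : ∀ t ∈ S, t.re < a + d → J t = JL t := by
    intro t ht h1
    rw [hJ]
    simp only
    by_cases h2 : t.re < a
    · rw [if_pos h2]
    · rw [if_neg h2, if_neg (by linarith), hL0 t ht (by linarith) h1]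
  have e2 : ∀ t ∈ S, a - d < t.re → t.re < b + d → J t = J₀ t := by
    intro t ht h1 h1'
    rw [hJ]
    simp only
    by_cases h2 : t.re < a
    · rw [if_pos h2, hL0 t ht h1 (by linarith)]
    · rw [if_neg h2]
      by_cases h3 : b < t.re
      · rw [if_pos h3, hR0 t ht (by linarith) h1']
      · rw [if_neg h3]
  have e3 : ∀ t ∈ S, b - d < t.re → J t = JR t := by
    intro t ht h1
    rw [hJ]
    simp only
    rw [if_neg (by linarith)]
    by_cases h3 : b < t.re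
    · rw [if_pos h3]
    · rw [if_neg h3, hR0 t ht h1 (by linarith)]
  refine ⟨J, fun t ht => ?_, e1, e2, e3⟩
  rcases lt_or_ge t.re (a + d) with h1 | h1
  · have hV : {s : ℂ | s ∈ S ∧ s.re < a + d} ∈ 𝓝 t := (hS.inter (isOpen_lt Complex.continuous_re continuous_const)).mem_nhds ⟨ht, h1⟩
    have h2 : DifferentiableAt ℂ JL t := hL.differentiableAt hV
    refine (h2.congr_of_eventuallyEq ?_).differentiableWithinAt
    filter_upwards [hV] with s hs
    exact e1 s hs.1 hs.2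
  · rcases lt_or_ge t.re (b + d) with h3 | h3
    · have hV : {s : ℂ | s ∈ S ∧ a - d < s.re ∧ s.re < b + d} ∈ 𝓝 t :=
        (hS.inter ((isOpen_lt continuous_const Complex.continuous_re).inter (isOpen_lt Complex.continuous_re continuous_const))).mem_nhds
          ⟨ht, by change a - d < t.re; linarith, h3⟩
      have h2 : DifferentiableAt ℂ J₀ t := h0.differentiableAt hV
      refine (h2.congr_of_eventuallyEq ?_).differentiableWithinAt
      filter_upwards [hV] with s hs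
      exact e2 s hs.1 hs.2.1 hs.2.2
    · have hV : {s : ℂ | s ∈ S ∧ b - d < s.re} ∈ 𝓝 t :=
        (hS.inter (isOpen_lt continuous_const Complex.continuous_re)).mem_nhds ⟨ht, by change b - d < t.re; linarith⟩
      have h2 : DifferentiableAt ℂ JR t := hR.differentiableAt hV
      refine (h2.congr_of_eventuallyEq ?_).differentiableWithinAt
      filter_upwards [hV] with s hs
      exact e3 s hs.1 hs.2

end Pool.Agent.H87.JZ

end

section

/-!
# LU LeftB: the function `J` in the left part of a ball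
-/

set_option autoImplicit false

open Topology Filter Metric

namespace Pool.Agent.H87.LU

attribute [-instance] ProperSMul.toContinuousSMul

variable {Y : Type} [MetricSpace Y] {T : Set ℂ → Set (ℂ → Y)} {II : ℂ → Y → Y → ℂ} {T₁ : ℝ}

theorem LEnd.left (E : LEnd T II T₁) (hT₁ : 0 < T₁) (hT : ∀ (c c' : ℂ) (R R' : ℝ), ball c' R' ⊆ ball c R → T (ball c R) ⊆ T (ball c' R')) :
    ∃ (ε' A : ℝ) (m : ℕ), 0 < ε' ∧ 0 ≤ A ∧ ∀ (c : ℂ) (R : ℝ), c.re = 0 → E.r₁ + 3 < R → ∀ f ∈ T (ball c R), ∀ g ∈ T (ball c R),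
      (∀ t ∈ ball c R, -T₁ - 10 ≤ t.re → t.re ≤ -T₁ - 1 → dist (f t) (g t) ≤ ε') →
      ∃ J : ℂ → ℂ, DifferentiableOn ℂ J {t | t ∈ ball c (R - (E.r₁ + 3)) ∧ t.re < -T₁ - 5} ∧
        (∀ t ∈ ball c (R - (E.r₁ + 3)), -T₁ - 6 < t.re → t.re < -T₁ - 5 → J t = II t (f t) (g t)) ∧
        ∀ t ∈ ball c (R - (E.r₁ + 3)), t.re < -T₁ - 5 → ‖J t‖ ≤ A * (1 + R) ^ m := by
  have hC := E.C_nonneg
  have hr := E.r₁_ge
  obtain ⟨δ, A, m, hδ, hδ1, hδε, hA, hch⟩ := E.chain hT₁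
  obtain ⟨ε', hε', hseam⟩ := E.seam
  refine ⟨ε', 2 * A + E.C * (3 + 2 * E.C + E.C), m + E.k + 1, hε', by positivity, fun c R hc hR f hf g hg hclose => ?_⟩
  have hR1 : 1 ≤ 1 + R := by linarith
  set V : Set ℂ := ball c (R - (E.r₁ + 3)) with hV
  have hre0 : ∀ y : ℝ, (ck T₁ y 0).re = -T₁ - 5 := fun y => by
    show -T₁ - 5 - ((0 : ℕ) : ℝ) = _
    rw [Nat.cast_zero, sub_zero]
  have him0 : ∀ y : ℝ, (ck T₁ y 0).im = y := fun y => rfl
  refine glue_bstrips (X₁ := -T₁ - 6) (X₂ := -T₁ - 5) isOpen_ball (convex_ball _ _) hδ (by linarith) ?_ ?_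
  · intro t ht h1
    rw [mem_ball, dist_eq_norm] at ht ⊢
    refine lt_of_le_of_lt ?_ ht
    have h2 := norm_le_of_re (c := c) (t := t) (w := ⟨max t.re ((-T₁ - 6 + (-T₁ - 5)) / 2), t.im⟩) hc (by
      show |max t.re ((-T₁ - 6 + (-T₁ - 5)) / 2)| ≤ |t.re|
      have h3 : max t.re ((-T₁ - 6 + (-T₁ - 5)) / 2) < 0 := max_lt (by linarith) (by linarith)
      rw [abs_of_neg h3, abs_of_neg (by linarith)]
      linarith [le_max_left t.re ((-T₁ - 6 + (-T₁ - 5)) / 2)])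
    simpa using h2
  · rintro y ⟨t₀, ht₀, ht₀re, ht₀im⟩
    -- the center
    have hc0 : ck T₁ y 0 ∈ ball c (R - (E.r₁ + 2)) := by
      rw [mem_ball, dist_eq_norm] at ht₀
      rw [mem_ball, dist_eq_norm]
      have h2 := norm_le_of_re (c := c) (t := t₀) (w := ck T₁ y 0) hc (by
        rw [hre0, abs_of_neg (by linarith), abs_of_neg (by linarith)]
        linarith)
      rw [him0, ht₀im, sub_self, abs_zero, add_zero] at h2
      linarith
    have hc0n : ‖ck T₁ y 0 - c‖ < R - (E.r₁ + 2) := by rwa [mem_ball, dist_eq_norm] at hc0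
    have hsub : ∀ ρ : ℝ, ρ ≤ E.r₁ → ball (ck T₁ y 0) ρ ⊆ ball c R := by
      intro ρ hρ w hw
      rw [mem_ball, dist_eq_norm] at hw ⊢
      have h1 : w - c = (w - ck T₁ y 0) + (ck T₁ y 0 - c) := by ring
      rw [h1]
      refine (norm_add_le _ _).trans_lt ?_
      linarith
    obtain ⟨i, h, Φf, ⟨hrd, hrep⟩, hΦd, hΦP, hΦb⟩ := hch c R hc hR f hf y hc0
    obtain ⟨j, h₂, Φg, ⟨hrd₂, hrep₂⟩, hΦd₂, hΦP₂, hΦb₂⟩ := hch c R hc hR g hg y hc0
    have hfT : f ∈ T (ball (ck T₁ y 0) E.r₁) := hT c _ R _ (hsub _ le_rfl) hf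
    have hgT : g ∈ T (ball (ck T₁ y 0) E.r₁) := hT c _ R _ (hsub _ le_rfl) hg
    obtain ⟨h', hh'd, hh'⟩ := hseam (ck T₁ y 0) i h f g (by rw [hre0]; linarith) (by rw [hre0]; linarith) hfT hgT hrd
      (fun t ht => ⟨(hrep t ht).1, (hrep t ht).2.1⟩) fun t ht => by
        have h1 : t ∈ ball c R := hsub 4 hr ht
        rw [mem_ball, dist_eq_norm] at ht
        have h2 := (Complex.abs_re_le_norm (t - ck T₁ y 0)).trans_lt ht
        rw [Complex.sub_re, hre0, abs_lt] at h2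
        exact hclose t h1 (by linarith [h2.1]) (by linarith [h2.2])
    have m3 : ck T₁ y 0 ∈ ball (ck T₁ y 0) 3 := mem_ball_self (by norm_num)
    have m4 : ck T₁ y 0 ∈ ball (ck T₁ y 0) 4 := mem_ball_self (by norm_num)
    obtain ⟨a1, a2, a3, a4⟩ := hh' _ m3
    obtain ⟨b1, b2, b3⟩ := hrep₂ _ m4
    obtain ⟨d1, d2, d3⟩ := hrep _ m4
    obtain ⟨D, hD1, hD2, hD3⟩ := E.link i j (ck T₁ y 0) (h' (ck T₁ y 0)) (h₂ (ck T₁ y 0)) (by rw [hre0]; linarith) a1 (E.sub _ b1) (by rw [← a2, ← b2])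
    have hDloc := hD3 h' h₂ (hh'd.analyticAt (isOpen_ball.mem_nhds m3)) (hrd₂.analyticAt (isOpen_ball.mem_nhds m4)) rfl rfl (by
      filter_upwards [isOpen_ball.mem_nhds m3, isOpen_ball.mem_nhds m4] with t ha hb
      exact ⟨(hh' t ha).1, E.sub _ (hrep₂ t hb).1, by rw [← (hh' t ha).2.1, ← (hrep₂ t hb).2.1]⟩)
    -- the rectangle
    set Q : Set ℂ := {t : ℂ | t.re < -T₁ - 5 + δ} ∩ ({t : ℂ | -T₁ - 6 < t.re} ∩ ({t : ℂ | t.im < y + δ} ∩ {t : ℂ | y - δ < t.im})) with hQ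
    have hQo : IsOpen Q := (isOpen_lt Complex.continuous_re continuous_const).inter ((isOpen_lt continuous_const Complex.continuous_re).inter
      ((isOpen_lt Complex.continuous_im continuous_const).inter (isOpen_lt continuous_const Complex.continuous_im)))
    have hQc : Convex ℝ Q := (convex_halfSpace_re_lt _).inter ((convex_halfSpace_re_gt _).inter ((convex_halfSpace_im_lt _).inter (convex_halfSpace_im_gt _)))
    have hQ3 : Q ⊆ ball (ck T₁ y 0) 3 := by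
      rintro t ⟨q1, q2, q3, q4⟩
      have q1 : t.re < -T₁ - 5 + δ := q1
      have q2 : -T₁ - 6 < t.re := q2
      have q3 : t.im < y + δ := q3
      have q4 : y - δ < t.im := q4
      rw [mem_ball, dist_eq_norm]
      refine lt_of_le_of_lt (Complex.norm_le_abs_re_add_abs_im _) ?_
      rw [Complex.sub_re, Complex.sub_im, hre0, him0]
      have h4 : |t.re - (-T₁ - 5)| ≤ 1 := by
        rw [abs_le]
        constructor <;> linarith
      have h5 : |t.im - y| ≤ 1 := by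
        rw [abs_le]
        constructor <;> linarith
      linarith
    have hQ4 : Q ⊆ ball (ck T₁ y 0) 4 := hQ3.trans (ball_subset_ball (by norm_num))
    have hQS : Q ⊆ Stp (ck T₁ y 0) E.ε := by
      rintro t ⟨q1, q2, q3, q4⟩
      have q1 : t.re < -T₁ - 5 + δ := q1
      have q3 : t.im < y + δ := q3
      have q4 : y - δ < t.im := q4
      refine ⟨?_, ?_⟩
      · rw [hre0]
        linarith
      · rw [him0, abs_lt]
        constructor <;> linarith
    have hcQ : ck T₁ y 0 ∈ Q := ⟨by show (ck T₁ y 0).re < _; rw [hre0]; linarith, by show _ < (ck T₁ y 0).re; rw [hre0]; linarith,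
      by show y < _; linarith, by show _ < y; linarith⟩
    have hDQ : ∀ t ∈ Q, E.P i t (h' t) - E.P j t (h₂ t) = D t := by
      have hd1 : DifferentiableOn ℂ (fun t => E.P i t (h' t) - E.P j t (h₂ t)) Q := by
        refine DifferentiableOn.sub ?_ ?_
        · exact (E.P_an i (ball (ck T₁ y 0) 3) h' isOpen_ball hh'd fun t ht => (hh' t ht).1).mono hQ3
        · exact (E.P_an j (ball (ck T₁ y 0) 4) h₂ isOpen_ball hrd₂ fun t ht => E.sub _ (hrep₂ t ht).1).mono hQ4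
      exact fun t ht => (hd1.analyticOnNhd hQo).eqOn_of_preconnected_of_eventuallyEq ((hD1.mono hQS).analyticOnNhd hQo) hQc.isPreconnected hcQ hDloc ht
    have hstp : ∀ t : ℂ, t.re < -T₁ - 5 → |t.im - y| < δ → t ∈ Stp (ck T₁ y 0) E.ε := by
      intro t h1 h2
      refine ⟨?_, ?_⟩
      · rw [hre0]
        linarith [E.ε_pos]
      · rw [him0]
        linarith
    have hStpo : IsOpen (Stp (ck T₁ y 0) E.ε) := by
      unfold Stp
      exact (isOpen_lt Complex.continuous_re continuous_const).inter (isOpen_lt (Complex.continuous_im.sub continuous_const).abs continuous_const)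
    refine ⟨fun t => Φg t + D t - Φf t, ?_, ?_, ?_⟩
    · have e1 : DifferentiableOn ℂ Φg {t | t ∈ V ∧ t.re < -T₁ - 5 ∧ |t.im - y| < δ} := hΦd₂.mono fun t ht => ⟨ht.1, by linarith [ht.2.1], ht.2.2⟩
      have e2 : DifferentiableOn ℂ Φf {t | t ∈ V ∧ t.re < -T₁ - 5 ∧ |t.im - y| < δ} := hΦd.mono fun t ht => ⟨ht.1, by linarith [ht.2.1], ht.2.2⟩
      have e3 : DifferentiableOn ℂ D {t | t ∈ V ∧ t.re < -T₁ - 5 ∧ |t.im - y| < δ} := hD1.mono fun t ht => hstp t ht.2.1 ht.2.2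
      exact (e1.add e3).sub e2
    · intro t ht h1 h2 h3
      have h4 := abs_lt.1 h3
      have htQ : t ∈ Q := ⟨by show t.re < _; linarith, h1, by show t.im < _; linarith [h4.2], by show _ < t.im; linarith [h4.1]⟩
      have e1 := hΦP t ht h1 (by linarith) h3
      have e2 := hΦP₂ t ht h1 (by linarith) h3
      have e3 := hDQ t htQ
      have e4 := (hh' t (hQ3 htQ)).2.2.2
      show Φg t + D t - Φf t = _
      rw [e1, e2, ← e3, e4]
      ring
    · intro t ht h1 h2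
      have e1 := hΦb t ht (by linarith) h2
      have e2 := hΦb₂ t ht (by linarith) h2
      have e3 := hD2 t (hstp t h1 h2)
      have h3 : ‖t - ck T₁ y 0‖ ≤ 2 * R := by
        have h4 : t - ck T₁ y 0 = (t - c) - (ck T₁ y 0 - c) := by ring
        rw [h4]
        refine (norm_sub_le _ _).trans ?_
        rw [mem_ball, dist_eq_norm] at ht
        linarith
      have h5 : ‖h' (ck T₁ y 0)‖ ≤ E.C * (1 + R) ^ E.k + E.C := a3.trans (by linarith)
      have h6 : ‖h₂ (ck T₁ y 0)‖ ≤ E.C * (1 + R) ^ E.k := b3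
      have p1 : (1 + R) ^ m ≤ (1 + R) ^ (m + E.k + 1) := pow_le_pow_right₀ hR1 (by omega)
      have p2 : (1 + R) ^ E.k ≤ (1 + R) ^ (m + E.k + 1) := pow_le_pow_right₀ hR1 (by omega)
      have p3 : 1 + R ≤ (1 + R) ^ (m + E.k + 1) := by
        calc 1 + R = (1 + R) ^ 1 := (pow_one _).symm
          _ ≤ (1 + R) ^ (m + E.k + 1) := pow_le_pow_right₀ hR1 (by omega)
      have p4 : 1 ≤ (1 + R) ^ (m + E.k + 1) := one_le_pow₀ hR1
      have e4 : ‖D t‖ ≤ E.C * (3 + 2 * E.C + E.C) * (1 + R) ^ (m + E.k + 1) := by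
        refine e3.trans ?_
        rw [mul_assoc]
        refine mul_le_mul_of_nonneg_left ?_ hC
        have q1 := mul_le_mul_of_nonneg_left p2 hC
        have q2 := mul_le_mul_of_nonneg_left p4 hC
        nlinarith
      have e5 : ‖Φf t‖ ≤ A * (1 + R) ^ (m + E.k + 1) := e1.trans (mul_le_mul_of_nonneg_left p1 hA)
      have e6 : ‖Φg t‖ ≤ A * (1 + R) ^ (m + E.k + 1) := e2.trans (mul_le_mul_of_nonneg_left p1 hA)
      calc ‖Φg t + D t - Φf t‖ ≤ ‖Φg t + D t‖ + ‖Φf t‖ := norm_sub_le _ _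
        _ ≤ ‖Φg t‖ + ‖D t‖ + ‖Φf t‖ := by linarith [norm_add_le (Φg t) (D t)]
        _ ≤ (2 * A + E.C * (3 + 2 * E.C + E.C)) * (1 + R) ^ (m + E.k + 1) := by linarith

end Pool.Agent.H87.LU

end

section

/-!
# LU JTrue: the function `J` on a ball, for two true sections
-/

set_option autoImplicit false

open Topology Filter Metric

namespace Pool.Agent.H87.LU

attribute [-instance] ProperSMul.toContinuousSMul

open Pool.Agent.H87.JZ (three_pieces)

variable {Y : Type} [MetricSpace Y] {T : Set ℂ → Set (ℂ → Y)} {II : ℂ → Y → Y → ℂ} {T₁ : ℝ}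

theorem neg_ball (c : ℂ) (R : ℝ) : {z : ℂ | -z ∈ ball c R} = ball (-c) R := by
  ext z
  simp only [Set.mem_setOf_eq, mem_ball, dist_eq_norm]
  rw [show -z - c = -(z - -c) by ring, norm_neg]

theorem rfT_mem {c : ℂ} {R : ℝ} {f : ℂ → Y} (hf : f ∈ T (ball c R)) : (fun z => f (-z)) ∈ rfT T (ball (-c) R) := by
  show (fun z => f (- -z)) ∈ T {z | -z ∈ ball (-c) R}
  rw [neg_ball, neg_neg]
  simpa only [neg_neg] using hf

theorem rfT_anti (hT : ∀ (c c' : ℂ) (R R' : ℝ), ball c' R' ⊆ ball c R → T (ball c R) ⊆ T (ball c' R')) :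
    ∀ (c c' : ℂ) (R R' : ℝ), ball c' R' ⊆ ball c R → rfT T (ball c R) ⊆ rfT T (ball c' R') := by
  intro c c' R R' h f hf
  have h1 : (fun z => f (-z)) ∈ T {z | -z ∈ ball c R} := hf
  show (fun z => f (-z)) ∈ T {z | -z ∈ ball c' R'}
  rw [neg_ball] at h1 ⊢
  refine hT (-c) (-c') R R' ?_ h1
  intro z hz
  have h2 : -z ∈ ball c' R' := by
    have : z ∈ {z : ℂ | -z ∈ ball c' R'} := by rw [neg_ball]; exact hz
    exact this
  have h3 : z ∈ {z : ℂ | -z ∈ ball c R} := h h2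
  rwa [neg_ball] at h3

theorem exists_J_true {B : Set ℂ} {δ ε₀ r₁ C : ℝ} (E : LEnd T II T₁) (E' : LEnd (rfT T) (rfI II) T₁) (hM : Mid T II B δ (T₁ + 10) ε₀ r₁ C)
    (hε₀ : 0 < ε₀) (hC : 0 ≤ C) (hT₁ : 0 < T₁) (hδ : 0 < δ) (hδ1 : δ ≤ 1) (hB : ∀ b ∈ B, |b.re| ≤ T₁)
    (hT : ∀ (c c' : ℂ) (R R' : ℝ), ball c' R' ⊆ ball c R → T (ball c R) ⊆ T (ball c' R')) :
    ∃ (ε' r A : ℝ) (m : ℕ), 0 < ε' ∧ ε' ≤ ε₀ ∧ 0 < r ∧ r₁ ≤ r ∧ 0 ≤ A ∧ ∀ (c : ℂ) (R : ℝ), c.re = 0 → r < R → ∀ f ∈ T (ball c R), ∀ g ∈ T (ball c R),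
      (∀ z ∈ ball c R, z ∈ Gd B δ → |z.re| ≤ T₁ + 10 → dist (f z) (g z) ≤ ε') →
      ∃ J : ℂ → ℂ, DifferentiableOn ℂ J (ball c (R - r)) ∧ (∀ z ∈ ball c (R - r), ‖J z‖ ≤ A * (1 + R) ^ m) ∧
        ∀ z ∈ ball c (R - r), z ∈ Gd B (2 * δ) → |z.re| < T₁ + 10 → J z = II z (f z) (g z) := by
  obtain ⟨ε₁, A₁, m₁, hε₁, hA₁, hL⟩ := E.left hT₁ hT
  obtain ⟨ε₂, A₂, m₂, hε₂, hA₂, hR'⟩ := E'.left hT₁ (rfT_anti hT)
  have hrE := E.r₁_ge
  have hrE' := E'.r₁_ge
  set r : ℝ := max r₁ (max (E.r₁ + 3) (E'.r₁ + 3)) with hr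
  have hr1 : r₁ ≤ r := le_max_left _ _
  have hr2 : E.r₁ + 3 ≤ r := (le_max_left _ _).trans (le_max_right _ _)
  have hr3 : E'.r₁ + 3 ≤ r := (le_max_right _ _).trans (le_max_right _ _)
  refine ⟨min ε₀ (min ε₁ ε₂), r, C + A₁ + A₂, m₁ + m₂, lt_min hε₀ (lt_min hε₁ hε₂), min_le_left _ _, by linarith, hr1, by positivity,
    fun c R hc hR f hf g hg hclose => ?_⟩
  have hgd : ∀ z : ℂ, T₁ + 2 * δ ≤ |z.re| → z ∈ Gd B (2 * δ) := by
    intro z hz b hb
    have h1 := hB b hb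
    have h2 : |z.re - b.re| ≤ ‖z - b‖ := by
      rw [← Complex.sub_re]
      exact Complex.abs_re_le_norm _
    have h3 : |z.re| - |b.re| ≤ |z.re - b.re| := abs_sub_abs_le_abs_sub _ _
    linarith
  have hgd1 : ∀ z : ℂ, T₁ + 1 ≤ |z.re| → z ∈ Gd B δ := by
    intro z hz b hb
    have h1 := hB b hb
    have h2 : |z.re - b.re| ≤ ‖z - b‖ := by
      rw [← Complex.sub_re]
      exact Complex.abs_re_le_norm _
    have h3 : |z.re| - |b.re| ≤ |z.re - b.re| := abs_sub_abs_le_abs_sub _ _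
    linarith
  have hR1 : 1 ≤ 1 + R := by linarith
  -- the middle
  obtain ⟨J₀, hJ₀1, hJ₀2, hJ₀3⟩ := hM c R hc f hf g hg fun z hz h1 h2 => (hclose z hz h1 h2).trans (min_le_left _ _)
  -- the left part
  obtain ⟨JL, hJL1, hJL2, hJL3⟩ := hL c R hc (by linarith) f hf g hg fun t ht h1 h2 => by
    have h3 : |t.re| = -t.re := abs_of_neg (by linarith)
    exact (hclose t ht (hgd1 t (by rw [h3]; linarith)) (by rw [h3]; linarith)).trans ((min_le_right _ _).trans (min_le_left _ _))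
  -- the right part
  have hmemneg : ∀ (ρ : ℝ) (t : ℂ), t ∈ ball c ρ → -t ∈ ball (-c) ρ := by
    intro ρ t ht
    rw [mem_ball, dist_eq_norm] at ht ⊢
    rw [show -t - -c = -(t - c) by ring, norm_neg]
    exact ht
  have hmemneg' : ∀ (ρ : ℝ) (t : ℂ), t ∈ ball (-c) ρ → -t ∈ ball c ρ := by
    intro ρ t ht
    rw [mem_ball, dist_eq_norm] at ht ⊢
    rw [show -t - c = -(t - -c) by ring, norm_neg]
    exact ht
  obtain ⟨JR, hJR1, hJR2, hJR3⟩ := hR' (-c) R (by rw [Complex.neg_re, hc, neg_zero]) (by linarith) _ (rfT_mem hf) _ (rfT_mem hg) fun t ht h1 h2 => by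
    have h3 : |(-t).re| = -t.re := by rw [Complex.neg_re]; exact abs_of_pos (by linarith)
    exact (hclose (-t) (hmemneg' R t ht) (hgd1 (-t) (by rw [h3]; linarith)) (by rw [h3]; linarith)).trans ((min_le_right _ _).trans (min_le_right _ _))
  set V : Set ℂ := ball c (R - r) with hV
  have hV1 : ∀ t ∈ V, t ∈ ball c (R - r₁) := fun t ht => ball_subset_ball (by linarith) ht
  have hV2 : ∀ t ∈ V, t ∈ ball c (R - (E.r₁ + 3)) := fun t ht => ball_subset_ball (by linarith) ht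
  have hV3 : ∀ t ∈ V, -t ∈ ball (-c) (R - (E'.r₁ + 3)) := fun t ht => hmemneg _ t (ball_subset_ball (by linarith) ht)
  obtain ⟨J, hJd, hJL, hJ0, hJR⟩ := three_pieces (S := V) isOpen_ball (a := -T₁ - 11 / 2) (b := T₁ + 11 / 2) (d := 1 / 2) (by norm_num) (by linarith)
    (JL := JL) (J₀ := J₀) (JR := fun t => JR (-t))
    (hJL1.mono fun t ht => ⟨hV2 t ht.1, by linarith [ht.2]⟩)
    (hJ₀1.mono fun t ht => ⟨hV1 t ht.1, abs_lt.2 ⟨by linarith [ht.2.1], by linarith [ht.2.2]⟩⟩)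
    (hJR1.comp differentiable_neg.differentiableOn fun t ht => ⟨hV3 t ht.1, by
      show (-t).re < _
      rw [Complex.neg_re]
      linarith [ht.2]⟩)
    (fun t ht h1 h2 => by
      have h3 : |t.re| = -t.re := abs_of_neg (by linarith)
      rw [hJL2 t (hV2 t ht) (by linarith) (by linarith), hJ₀3 t (hV1 t ht) (hgd t (by rw [h3]; linarith)) (by rw [h3]; linarith)])
    (fun t ht h1 h2 => by
      have h3 : |t.re| = t.re := abs_of_pos (by linarith)
      have h4 := hJR2 (-t) (hV3 t ht) (by rw [Complex.neg_re]; linarith) (by rw [Complex.neg_re]; linarith)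
      simp only [rfI, neg_neg] at h4
      rw [h4, hJ₀3 t (hV1 t ht) (hgd t (by rw [h3]; linarith)) (by rw [h3]; linarith)])
  refine ⟨J, hJd, ?_, ?_⟩
  · intro z hz
    have p1 : (1 + R) ^ m₁ ≤ (1 + R) ^ (m₁ + m₂) := pow_le_pow_right₀ hR1 (by omega)
    have p2 : (1 + R) ^ m₂ ≤ (1 + R) ^ (m₁ + m₂) := pow_le_pow_right₀ hR1 (by omega)
    have p3 : 1 ≤ (1 + R) ^ (m₁ + m₂) := one_le_pow₀ hR1
    have q1 : A₁ * (1 + R) ^ m₁ ≤ A₁ * (1 + R) ^ (m₁ + m₂) := mul_le_mul_of_nonneg_left p1 hA₁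
    have q2 : A₂ * (1 + R) ^ m₂ ≤ A₂ * (1 + R) ^ (m₁ + m₂) := mul_le_mul_of_nonneg_left p2 hA₂
    have q3 : C * 1 ≤ C * (1 + R) ^ (m₁ + m₂) := mul_le_mul_of_nonneg_left p3 hC
    have q4 : 0 ≤ A₁ * (1 + R) ^ (m₁ + m₂) := by positivity
    have q5 : 0 ≤ A₂ * (1 + R) ^ (m₁ + m₂) := by positivity
    have q6 : 0 ≤ C * (1 + R) ^ (m₁ + m₂) := by positivity
    have q7 : (C + A₁ + A₂) * (1 + R) ^ (m₁ + m₂) = C * (1 + R) ^ (m₁ + m₂) + A₁ * (1 + R) ^ (m₁ + m₂) + A₂ * (1 + R) ^ (m₁ + m₂) := by ring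
    rw [q7]
    rcases lt_or_ge z.re (-T₁ - 5) with h1 | h1
    · rw [hJL z hz (by linarith)]
      linarith [hJL3 z (hV2 z hz) h1]
    · rcases lt_or_ge (T₁ + 5) z.re with h2 | h2
      · rw [hJR z hz (by linarith)]
        linarith [hJR3 (-z) (hV3 z hz) (by rw [Complex.neg_re]; linarith)]
      · rw [hJ0 z hz (by linarith) (by linarith)]
        linarith [hJ₀2 z (hV1 z hz) (abs_lt.2 ⟨by linarith, by linarith⟩)]
  · intro z hz hzG hzW
    -- `J = J₀` on the whole strip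
    set Q : Set ℂ := V ∩ ({t : ℂ | t.re < T₁ + 10} ∩ {t : ℂ | -(T₁ + 10) < t.re}) with hQ
    have hQo : IsOpen Q := isOpen_ball.inter ((isOpen_lt Complex.continuous_re continuous_const).inter (isOpen_lt continuous_const Complex.continuous_re))
    have hQc : Convex ℝ Q := (convex_ball _ _).inter ((convex_halfSpace_re_lt _).inter (convex_halfSpace_re_gt _))
    have hcV : c ∈ V := mem_ball_self (by linarith)
    have hcQ : c ∈ Q := ⟨hcV, by show c.re < _; rw [hc]; linarith, by show _ < c.re; rw [hc]; linarith⟩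
    have hev : J =ᶠ[𝓝 c] J₀ := by
      have h5 : V ∩ ({t : ℂ | t.re < 1} ∩ {t : ℂ | -1 < t.re}) ∈ 𝓝 c :=
        (isOpen_ball.inter ((isOpen_lt Complex.continuous_re continuous_const).inter (isOpen_lt continuous_const Complex.continuous_re))).mem_nhds
          ⟨hcV, by show c.re < _; rw [hc]; norm_num, by show _ < c.re; rw [hc]; norm_num⟩
      filter_upwards [h5] with w hw
      obtain ⟨w1, w2, w3⟩ := hw
      have w2 : w.re < 1 := w2
      have w3 : -1 < w.re := w3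
      exact hJ0 w w1 (by linarith) (by linarith)
    have hzQ : z ∈ Q := by
      obtain ⟨h1, h2⟩ := abs_lt.1 hzW
      exact ⟨hz, h2, h1⟩
    have h6 : J z = J₀ z := ((hJd.mono fun t ht => ht.1).analyticOnNhd hQo).eqOn_of_preconnected_of_eventuallyEq
      ((hJ₀1.mono fun t ht => ⟨hV1 t ht.1, abs_lt.2 ⟨ht.2.2, ht.2.1⟩⟩ : DifferentiableOn ℂ J₀ Q).analyticOnNhd hQo) hQc.isPreconnected hcQ hev hzQ
    rw [h6, hJ₀3 z (hV1 z hz) hzG hzW]

end Pool.Agent.H87.LU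

end

section

/-!
# LU JLim: the field `J` of `UDyn` from the cells of the two ends, the middle part and the approximation by true sections
-/

set_option autoImplicit false

open Topology Filter Metric

namespace Pool.Agent.H87.LU

attribute [-instance] ProperSMul.toContinuousSMul

open Pool.Agent.H17 (montel_ultrafilter)

variable {Y : Type} [MetricSpace Y] {T S : Set ℂ → Set (ℂ → Y)} {II : ℂ → Y → Y → ℂ} {T₁ : ℝ}

theorem II_int {p : ℝ} (hinv : ∀ z y y', II (z + p * Complex.I) y y' = II z y y') (l : ℤ) : ∀ z y y', II (z + p * l * Complex.I) y y' = II z y y' := by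
  induction l with
  | zero => simp
  | succ i ih =>
    intro z y y'
    have h1 : z + (p : ℂ) * (((i : ℤ) + 1 : ℤ) : ℂ) * Complex.I = (z + p * ((i : ℤ) : ℂ) * Complex.I) + p * Complex.I := by
      push_cast
      ring
    rw [h1, hinv, ih]
  | pred i ih =>
    intro z y y'
    have h1 : z + p * ((-(i : ℤ) : ℤ) : ℂ) * Complex.I = (z + (p : ℂ) * ((-(i : ℤ) - 1 : ℤ) : ℂ) * Complex.I) + p * Complex.I := by
      push_cast
      ring
    have h2 := ih z y y'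
    rw [h1, hinv] at h2
    exact h2

/-- the field `J` of `UDyn` -/
theorem exists_J {B : Set ℂ} {δ ε₀ r₁ C p : ℝ} (E : LEnd T II T₁) (E' : LEnd (rfT T) (rfI II) T₁) (hM : Mid T II B δ (T₁ + 10) ε₀ r₁ C)
    (hA : Appr T S II B δ (T₁ + 10) ε₀ r₁)
    (hε₀ : 0 < ε₀) (hC : 0 ≤ C) (hT₁ : 0 < T₁) (hδ : 0 < δ) (hδ1 : δ ≤ 1) (hB : ∀ b ∈ B, |b.re| ≤ T₁)
    (hBinv : ∀ b ∈ B, ∀ l : ℤ, b + p * l * Complex.I ∈ B)
    (hT : ∀ (c c' : ℂ) (R R' : ℝ), ball c' R' ⊆ ball c R → T (ball c R) ⊆ T (ball c' R'))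
    (hinv : ∀ z y y', II (z + p * Complex.I) y y' = II z y y') {a : ℂ} (ha : a ∈ Gd B (2 * δ)) (haW : |a.re| < T₁ + 10) (hII : ∀ y y', II a y y' = 0) :
    ∃ (ε₀ r₁ C : ℝ) (k : ℕ) (a : ℂ), 0 < ε₀ ∧ 0 < r₁ ∧ 0 ≤ C ∧ ∀ (c : ℂ) (R : ℝ), c.re = 0 → r₁ < R → ∀ f ∈ S (ball c R), ∀ g ∈ S (ball c R),
      (∀ z ∈ ball c R, z ∈ Gd B δ → |z.re| ≤ T₁ + 10 → dist (f z) (g z) ≤ ε₀) →
      ∃ J : ℂ → ℂ, DifferentiableOn ℂ J (ball c (R - r₁)) ∧ (∀ z ∈ ball c (R - r₁), ‖J z‖ ≤ C * (1 + R) ^ k) ∧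
        (∀ z ∈ ball c (R - r₁), z ∈ Gd B (2 * δ) → |z.re| < T₁ + 10 → J z = II z (f z) (g z)) ∧
        ∀ l : ℤ, a + p * l * Complex.I ∈ ball c (R - r₁) → J (a + p * l * Complex.I) = 0 := by
  obtain ⟨ε', r, A, m, hε', hεε, hr, hr1, hA0, hJ⟩ := exists_J_true E E' hM hε₀ hC hT₁ hδ hδ1 hB hT
  refine ⟨ε' / 2, r + 1, A, m, a, by linarith, by linarith, hA0, fun c R hc hR f hf g hg hclose => ?_⟩
  -- the approximations
  choose F hFT hF using fun n : ℕ => hA.appr c R (R - 1) (min (1 / ((n : ℝ) + 1)) (ε' / 4)) δ hc (by linarith) (lt_min (by positivity) (by linarith)) hδ f hf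
  choose G hGT hG using fun n : ℕ => hA.appr c R (R - 1) (min (1 / ((n : ℝ) + 1)) (ε' / 4)) δ hc (by linarith) (lt_min (by positivity) (by linarith)) hδ g hg
  have hFG : ∀ n : ℕ, ∀ z ∈ ball c (R - 1), z ∈ Gd B δ → |z.re| ≤ T₁ + 10 → dist (F n z) (G n z) ≤ ε' := by
    intro n z hz h1 h2
    have h3 := (hF n z hz h1).trans_le (min_le_right _ _)
    have h4 := (hG n z hz h1).trans_le (min_le_right _ _)
    have h5 := hclose z (ball_subset_ball (by linarith) hz) h1 h2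
    have h6 := dist_triangle4 (F n z) (f z) (g z) (G n z)
    rw [dist_comm (g z) (G n z)] at h6
    linarith
  choose Jn hJ1 hJ2 hJ3 using fun n : ℕ => hJ c (R - 1) hc (by linarith) (F n) (hFT n) (G n) (hGT n) (hFG n)
  have hrad : R - 1 - r = R - (r + 1) := by ring
  rw [hrad] at hJ1 hJ2 hJ3
  set 𝒰 : Ultrafilter ℕ := Filter.hyperfilter ℕ with h𝒰
  have hle : (𝒰 : Filter ℕ) ≤ atTop := by
    rw [h𝒰, ← Nat.cofinite_eq_atTop]
    exact Filter.hyperfilter_le_cofinite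
  have hR0 : 0 ≤ 1 + (R - 1) := by linarith
  have hpow : (1 + (R - 1)) ^ m ≤ (1 + R) ^ m := pow_le_pow_left₀ hR0 (by linarith) m
  have hbd : ∀ n : ℕ, ∀ z ∈ ball c (R - (r + 1)), ‖Jn n z‖ ≤ A * (1 + R) ^ m := fun n z hz =>
    (hJ2 n z hz).trans (mul_le_mul_of_nonneg_left hpow hA0)
  obtain ⟨J, hJd, hlim⟩ := montel_ultrafilter 𝒰 (F := Jn) (a := c) (r := R - (r + 1)) (B := A * (1 + R) ^ m) (Eventually.of_forall hJ1) (Eventually.of_forall hbd)
  have hpt : ∀ z ∈ ball c (R - (r + 1)), Tendsto (fun n => Jn n z) 𝒰 (𝓝 (J z)) := fun z hz => hlim.tendsto_at hz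
  have hval : ∀ z ∈ ball c (R - (r + 1)), z ∈ Gd B (2 * δ) → |z.re| < T₁ + 10 → J z = II z (f z) (g z) := by
    intro z hz hzG hzW
    have hzG1 : z ∈ Gd B δ := fun b hb => by linarith [hzG b hb]
    have hz1 : z ∈ ball c (R - 1) := ball_subset_ball (by linarith) hz
    have hd : dist (f z) (g z) ≤ ε₀ := (hclose z (ball_subset_ball (by linarith) hz) hzG1 hzW.le).trans (by linarith)
    refine tendsto_nhds_unique (hpt z hz) ?_
    rw [Metric.tendsto_nhds]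
    intro η hη
    obtain ⟨ε, hε, hcont⟩ := hA.cont c R hc f hf g hg z (ball_subset_ball (by linarith) hz) hzG hzW.le hd η hη
    have h1 : ∀ᶠ n : ℕ in atTop, 1 / ((n : ℝ) + 1) < ε := tendsto_one_div_add_atTop_nhds_zero_nat.eventually_lt_const hε
    filter_upwards [hle h1] with n hn
    rw [hJ3 n z hz hzG hzW]
    exact hcont (R - 1) (F n) (G n) (hFT n) (hGT n) (ball_subset_ball (by linarith) hz) (((hF n z hz1 hzG1).trans_le (min_le_left _ _)).trans hn)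
      (((hG n z hz1 hzG1).trans_le (min_le_left _ _)).trans hn)
  refine ⟨J, hJd, ?_, hval, ?_⟩
  · intro z hz
    exact le_of_tendsto (hpt z hz).norm (Eventually.of_forall fun n => hbd n z hz)
  · intro l hl
    rw [hval _ hl ?_ ?_, II_int hinv, hII]
    · intro b hb
      have h1 := ha (b + p * ((-l : ℤ) : ℂ) * Complex.I) (hBinv b hb (-l))
      have h2 : a - (b + p * ((-l : ℤ) : ℂ) * Complex.I) = a + p * l * Complex.I - b := by
        push_cast
        ring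
      rwa [h2] at h1
    · have h3 : (a + p * l * Complex.I).re = a.re := by
        simp
      rw [h3]
      exact haW

end Pool.Agent.H87.LU

end

section

/-!
# LR EndG: growth in the ends; functions of polynomial growth with zeros at `a + i p ℤ`

* `end_growth`, `zero_hp`.
-/

set_option autoImplicit false

open Topology Filter Metric

noncomputable section

namespace Pool.Agent.H62.LR

attribute [-instance] ProperSMul.toContinuousSMul

open Pool.Agent.H87.LU (Gd HP ctr mem_ball_ctr ctr_re ctr_im isOpen_HP convex_HP HP_anti gd_notMem zero_up)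

variable {p : ℝ} {B : Set ℂ} {δ W : ℝ} {𝓛 : Set (ℂ → ℂ)} {C A : Set ℂ}

/-- polynomial growth and zeros at `a + i p ℤ` -/
theorem zero_hp {J : ℂ → ℂ} {a : ℂ} {σ ρ M : ℝ} {k : ℕ} (hσ : σ = 1 ∨ σ = -1) (hp : 0 < p) (hJ : DifferentiableOn ℂ J (HP σ ρ)) (hM : 0 ≤ M)
    (hb : ∀ z ∈ HP σ ρ, ‖J z‖ ≤ M * (1 + ‖z‖) ^ k) (h0 : ∀ l : ℤ, a + p * l * Complex.I ∈ HP σ ρ → J (a + p * l * Complex.I) = 0) :
    ∀ z ∈ HP σ ρ, J z = 0 := by
  rcases hσ with h1 | h1
  · subst h1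
    have hVeq : HP 1 ρ = {z : ℂ | ρ < z.im} := by
      unfold HP
      simp only [one_mul]
    intro z hz
    refine zero_up (a := a) (m := k) hp (hVeq ▸ hJ) hM (fun w hw => hb w (by rw [hVeq]; exact hw)) (fun l hl => h0 l (by rw [hVeq]; exact hl)) z
      (by rw [hVeq] at hz; exact hz)
  · subst h1
    have hVeq : ∀ z : ℂ, ρ < z.im → -z ∈ HP (-1) ρ := by
      intro z hz
      show ρ < -1 * (-z).im
      rw [Complex.neg_im]
      linarith
    intro z hz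
    have hz' : ρ < (-z).im := by
      have h2 : ρ < -1 * z.im := hz
      rw [Complex.neg_im]
      linarith
    have h2 := zero_up (J := fun w => J (-w)) (a := -a) (m := k) (ρ := ρ) hp
      (fun w hw => ((hJ.differentiableAt ((isOpen_HP _ _).mem_nhds (hVeq w hw))).comp w differentiableAt_id.neg).differentiableWithinAt) hM
      (fun w hw => by
        have h3 := hb (-w) (hVeq w hw)
        rwa [norm_neg] at h3) (fun l hl => by
        have h3 : -(-a + p * l * Complex.I) = a + p * ((-l : ℤ) : ℂ) * Complex.I := by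
          push_cast
          ring
        have h4 := hVeq _ hl
        rw [h3] at h4
        show J (-(-a + p * l * Complex.I)) = 0
        rw [h3]
        exact h0 (-l) h4) (-z) hz'
    simpa using h2

/-- the left end -/
theorem left_growth {σ ρ W₀ η : ℝ} (hσ : σ = 1 ∨ σ = -1) (hη : 0 < η) (hη1 : η ≤ 1) (hW₀ : 0 < W₀) {X : ℂ → ℂ}
    (hX : ∀ z ∈ HP σ ρ, z.re < -W₀ → DifferentiableAt ℂ X z ∧ X z ≠ 0 ∧ X z ≠ 1) {M₀ : ℝ}
    (hM₀ : ∀ z ∈ HP σ ρ, -W₀ - 2 * η ≤ z.re → z.re ≤ -W₀ - η → ‖X z‖ ≤ M₀) :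
    ∃ M : ℝ, 0 ≤ M ∧ ∀ z ∈ HP σ (ρ + 3), z.re ≤ -W₀ - η → Real.log ‖X z‖ ≤ M * (1 + ‖z‖) ^ 8 := by
  have hσσ : σ * σ = 1 := by rcases hσ with rfl | rfl <;> norm_num
  obtain ⟨c₀, hc₀, hc₀1, hlb⟩ := local_bound (1 / 2)
  -- the radius
  set d : ℝ := min c₀ (1 / 2) / 2600 * η with hd
  have hmin : 0 < min c₀ (1 / 2) := lt_min hc₀ (by norm_num)
  have hd0 : 0 < d := by positivity
  have hdη : d ≤ η / 2600 := by
    rw [hd]
    have h1 : min c₀ (1 / 2) ≤ 1 := (min_le_right _ _).trans (by norm_num)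
    have h2 := mul_le_mul_of_nonneg_right h1 hη.le
    linarith
  have hdc : d ≤ c₀ * η := by
    rw [hd]
    have h1 : min c₀ (1 / 2) ≤ c₀ := min_le_left _ _
    have h2 := mul_le_mul_of_nonneg_right h1 hη.le
    have h3 := mul_nonneg hmin.le hη.le
    linarith
  set C₃ : ℝ := |Real.log (max M₀ 1)| with hC₃
  obtain ⟨Cg, hCg, hgr⟩ := Pool.Agent.EG.LE.growth (δ₁ := d) (C₃ := C₃) hd0 (by linarith) (abs_nonneg _)
  set S₀ : ℝ := 5 + 2 * (ρ + 1) ^ 2 with hS₀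
  have hS₀5 : 5 ≤ S₀ := by
    rw [hS₀]
    linarith [sq_nonneg (ρ + 1)]
  refine ⟨Cg * S₀ ^ 4, by positivity, fun z hz hzre => ?_⟩
  have hz' : ρ + 3 < σ * z.im := hz
  set y : ℝ := σ * z.im - (ρ + 1) with hy
  have hy2 : 2 ≤ y := by
    rw [hy]
    linarith
  set s : ℝ := z.re ^ 2 + y ^ 2 + 1 with hs
  have hs1 : 1 ≤ s := by
    rw [hs]
    linarith [sq_nonneg z.re, sq_nonneg y]
  set c : ℂ := ctr σ (ρ + 1) s with hc
  have hcb : ∀ w : ℂ, w ∈ closedBall c s → ρ + 1 ≤ σ * w.im := by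
    intro w hw
    rw [mem_closedBall, dist_eq_norm] at hw
    have h1 := (Complex.abs_im_le_norm (w - c)).trans hw
    rw [Complex.sub_im, hc, ctr_im] at h1
    have h2 : |σ * w.im - ((ρ + 1) + s)| ≤ s := by
      have h3 : σ * w.im - ((ρ + 1) + s) = σ * (w.im - σ * ((ρ + 1) + s)) := by
        calc σ * w.im - ((ρ + 1) + s) = σ * w.im - (σ * σ) * ((ρ + 1) + s) := by rw [hσσ, one_mul]
          _ = _ := by ring
      have h4 : |σ| = 1 := by rcases hσ with rfl | rfl <;> norm_num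
      rw [h3, abs_mul, h4, one_mul]
      exact h1
    linarith [(abs_le.1 h2).1]
  set E : Set ℂ := HP σ ρ ∩ {z : ℂ | z.re < -W₀} with hE
  have hEo : IsOpen E := (isOpen_HP σ ρ).inter (isOpen_lt Complex.continuous_re continuous_const)
  have hXd : ∀ w ∈ E, DifferentiableAt ℂ X w ∧ X w ≠ 0 ∧ X w ≠ 1 := fun w hw => hX w hw.1 hw.2
  have hbig : ∀ w ∈ E, w ∈ closedBall c s → w.re ≤ -(W₀ + η) → ball w η ⊆ E := by
    intro w hw hwc hwre u hu
    rw [mem_ball, dist_eq_norm] at hu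
    have h1 := (Complex.abs_re_le_norm (u - w)).trans_lt hu
    have h2 := (Complex.abs_im_le_norm (u - w)).trans_lt hu
    rw [Complex.sub_re] at h1
    rw [Complex.sub_im] at h2
    have h3 := hcb w hwc
    refine ⟨?_, ?_⟩
    · show ρ < σ * u.im
      rcases hσ with h4 | h4
      · rw [h4] at h3 ⊢
        linarith [(abs_lt.1 h2).1]
      · rw [h4] at h3 ⊢
        linarith [(abs_lt.1 h2).2]
    · show u.re < -W₀
      linarith [(abs_lt.1 h1).2]
  have hinv : ∀ w : ℂ, w ∈ E → w ∈ closedBall c s → w.re ≤ -(W₀ + η) → DifferentiableOn ℂ (fun z => (X z)⁻¹) (ball w η) ∧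
      ∀ u ∈ ball w η, (X u)⁻¹ ≠ 0 ∧ (X u)⁻¹ ≠ 1 := by
    intro w hw hwc hwre
    have hsub := hbig w hw hwc hwre
    refine ⟨fun u hu => ((hXd u (hsub hu)).1.inv (hXd u (hsub hu)).2.1).differentiableWithinAt, fun u hu => ⟨inv_ne_zero (hXd u (hsub hu)).2.1, ?_⟩⟩
    intro h1
    exact (hXd u (hsub hu)).2.2 (inv_eq_one.1 h1)
  have key := hgr c s (W₀ + η) E (fun z => (X z)⁻¹) (ctr_re _ _ _) (by linarith) hEo (fun w hw => ((hXd w hw).1.inv (hXd w hw).2.1).differentiableWithinAt)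
    (fun w hw => inv_ne_zero (hXd w hw).2.1) (fun w hw hwX hwc hwre => ?_) (fun w hw hwc hw1 hw2 => ?_) z ?_ ?_ (by linarith)
  · -- conclusion
    have h1 : -Real.log ‖(X z)⁻¹‖ = Real.log ‖X z‖ := by
      rw [norm_inv, Real.log_inv, neg_neg]
    rw [h1] at key
    refine key.trans ?_
    have hsz : 1 + s ≤ S₀ * (1 + ‖z‖) ^ 2 := by
      have h3 : z.re ^ 2 + z.im ^ 2 = ‖z‖ ^ 2 := by
        rw [Complex.sq_norm, Complex.normSq_apply]
        ring
      have h4 : (σ * z.im) ^ 2 = z.im ^ 2 := by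
        rw [mul_pow, pow_two σ, hσσ, one_mul]
      have h5 : y ^ 2 ≤ 2 * z.im ^ 2 + 2 * (ρ + 1) ^ 2 := by
        rw [hy]
        linarith [sq_nonneg (σ * z.im + (ρ + 1))]
      have h6 : 0 ≤ ‖z‖ := norm_nonneg z
      have h7 : z.re ^ 2 + y ^ 2 ≤ 2 * ‖z‖ ^ 2 + 2 * (ρ + 1) ^ 2 := by linarith [sq_nonneg z.re]
      have h8 : 2 * (ρ + 1) ^ 2 ≤ 2 * (ρ + 1) ^ 2 * (1 + ‖z‖) ^ 2 := le_mul_of_one_le_right (by positivity) (one_le_pow₀ (by linarith))
      have h9 : 2 + 2 * ‖z‖ ^ 2 ≤ 5 * (1 + ‖z‖) ^ 2 := by linarith [sq_nonneg ‖z‖]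
      have h10 : (5 + 2 * (ρ + 1) ^ 2) * (1 + ‖z‖) ^ 2 = 5 * (1 + ‖z‖) ^ 2 + 2 * (ρ + 1) ^ 2 * (1 + ‖z‖) ^ 2 := by ring
      rw [hs, hS₀, h10]
      linarith
    calc Cg * (1 + s) ^ 4 ≤ Cg * (S₀ * (1 + ‖z‖) ^ 2) ^ 4 := mul_le_mul_of_nonneg_left (pow_le_pow_left₀ (by linarith) hsz 4) hCg
      _ = Cg * S₀ ^ 4 * (1 + ‖z‖) ^ 8 := by ring
  · -- Lipschitz
    obtain ⟨h1, h2⟩ := hinv w hw hwc hwre
    have hdη' : ball w d ⊆ ball w η := ball_subset_ball (by linarith)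
    refine ⟨hdη'.trans (hbig w hw hwc hwre), fun u hu => ?_⟩
    have h3 : ∀ v ∈ ball w d, ‖deriv (fun z => (X z)⁻¹) v‖ ≤ 312 / η := by
      intro v hv
      have h4 : ‖(X v)⁻¹‖ ≤ 1 / 2 + 1 := hlb _ w η hη h1 h2 hwX v (ball_subset_ball hdc hv)
      have h5 := landau_half hη h1 h2 (w := v) (ball_subset_ball (by linarith) hv)
      refine h5.trans ?_
      have h6 : ‖(X v)⁻¹‖ ^ 2 ≤ (1 / 2 + 1) ^ 2 := pow_le_pow_left₀ (norm_nonneg _) h4 2
      calc 96 / η * (1 + ‖(X v)⁻¹‖ ^ 2) ≤ 96 / η * (1 + (1 / 2 + 1) ^ 2) := by gcongr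
        _ = 312 / η := by ring
    have h4 := (convex_ball w d).norm_image_sub_le_of_norm_deriv_le (f := fun z => (X z)⁻¹) (C := 312 / η)
      (fun v hv => h1.differentiableAt (isOpen_ball.mem_nhds (hdη' hv))) h3 (mem_ball_self hd0) hu
    refine h4.trans ?_
    rw [mem_ball, dist_eq_norm] at hu
    calc 312 / η * ‖u - w‖ ≤ 312 / η * (η / 2600) := by
          refine mul_le_mul_of_nonneg_left (by linarith) (by positivity)
      _ = 312 / 2600 := by field_simp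
      _ ≤ 1 / 4 := by norm_num
  · -- the seam
    have h1 : ‖X w‖ ≤ M₀ := hM₀ w hw.1 (by linarith) (by linarith)
    have h2 : -Real.log ‖(X w)⁻¹‖ = Real.log ‖X w‖ := by
      rw [norm_inv, Real.log_inv, neg_neg]
    rw [h2]
    have h3 : 0 < ‖X w‖ := norm_pos_iff.2 (hXd w hw).2.1
    have h4 : Real.log ‖X w‖ ≤ Real.log (max M₀ 1) := Real.log_le_log h3 (h1.trans (le_max_left _ _))
    exact h4.trans (le_abs_self _)
  · exact ⟨HP_anti (by linarith) hz, by show z.re < -W₀; linarith⟩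
  · rw [mem_closedBall, dist_eq_norm]
    have hr2 : ‖z - c‖ ^ 2 = z.re ^ 2 + (y - s) ^ 2 := by
      rw [Complex.sq_norm, Complex.normSq_apply, Complex.sub_re, Complex.sub_im, hc, ctr_re, ctr_im, sub_zero]
      have h3 : (z.im - σ * ((ρ + 1) + s)) * (z.im - σ * ((ρ + 1) + s)) = (σ * z.im - ((ρ + 1) + s)) ^ 2 := by
        have h4 : σ ^ 2 = 1 := by rw [pow_two]; exact hσσ
        calc (z.im - σ * ((ρ + 1) + s)) * (z.im - σ * ((ρ + 1) + s)) = z.im ^ 2 - 2 * σ * z.im * ((ρ + 1) + s) + σ ^ 2 * ((ρ + 1) + s) ^ 2 := by ring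
          _ = σ ^ 2 * z.im ^ 2 - 2 * σ * z.im * ((ρ + 1) + s) + ((ρ + 1) + s) ^ 2 := by rw [h4]; ring
          _ = _ := by ring
      rw [h3, hy]
      ring
    have h5 : z.re ^ 2 + y ^ 2 = s - 1 := by
      rw [hs]
      ring
    have h6 : ‖z - c‖ ^ 2 ≤ (s - 1) ^ 2 := by
      rw [hr2]
      have h7 : 2 * s ≤ y * s := mul_le_mul_of_nonneg_right hy2 (by linarith)
      linarith
    exact (pow_le_pow_iff_left₀ (norm_nonneg _) (by linarith) two_ne_zero).1 h6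

/-- growth in the ends: `X` omits `0` and `1` in the ends and is bounded in the strip -/
theorem end_growth (h : BaseD p B δ W 𝓛 C A) {σ ρ : ℝ} (hσ : σ = 1 ∨ σ = -1) {X : ℂ → ℂ}
    (hX : ∀ z ∈ HP σ ρ, z ∉ B → AnalyticAt ℂ X z ∧ X z ≠ 0 ∧ X z ≠ 1) {M₀ : ℝ}
    (hM₀ : ∀ z ∈ HP σ ρ, z ∈ Gd B δ → |z.re| ≤ W → ‖X z‖ ≤ M₀) :
    ∃ M : ℝ, 0 ≤ M ∧ ∀ z ∈ HP σ (ρ + 3), W < |z.re| → Real.log ‖X z‖ ≤ M * (1 + ‖z‖) ^ 8 := by
  have hδ := h.δ_pos
  have hW := h.W_pos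
  -- W₀ = W - 2 η
  set η : ℝ := min (min δ 1) (W / 4) with hη
  have hη0 : 0 < η := lt_min (lt_min hδ one_pos) (by positivity)
  have hηδ : η ≤ δ := (min_le_left _ _).trans (min_le_left _ _)
  have hη1 : η ≤ 1 := (min_le_left _ _).trans (min_le_right _ _)
  have hηW : η ≤ W / 4 := min_le_right _ _
  have hgd : ∀ z : ℂ, W - 3 * δ ≤ |z.re| → z ∈ Gd B δ := by
    intro z hz b hb
    have h1 := h.B_re b hb
    have h2 := Complex.abs_re_le_norm (z - b)
    rw [Complex.sub_re] at h2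
    have h3 := abs_sub_abs_le_abs_sub z.re b.re
    linarith
  have hB : ∀ z : ℂ, W - 2 * η < |z.re| → z ∉ B := fun z hz => gd_notMem hδ (hgd z (by linarith))
  obtain ⟨M₁, hM₁, h1⟩ := left_growth (ρ := ρ) (W₀ := W - 2 * η) hσ hη0 hη1 (by linarith) (X := X) (fun z hz hzre => by
      have h2 : z ∉ B := hB z (by rw [lt_abs]; right; linarith)
      exact ⟨(hX z hz h2).1.differentiableAt, (hX z hz h2).2⟩) (M₀ := M₀) (fun z hz hz1 hz2 => by
      refine hM₀ z hz (hgd z ?_) ?_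
      · rw [le_abs]
        right
        linarith
      · rw [abs_le]
        constructor <;> linarith)
  have hneg : ∀ (z : ℂ) (r : ℝ), z ∈ HP (-σ) r ↔ -z ∈ HP σ r := by
    intro z r
    show r < -σ * z.im ↔ r < σ * (-z).im
    rw [Complex.neg_im]
    constructor <;> intro h3 <;> linarith
  have hσ' : -σ = 1 ∨ -σ = -1 := by
    rcases hσ with h3 | h3
    · right
      rw [h3]
    · left
      rw [h3, neg_neg]
  obtain ⟨M₂, hM₂, h2⟩ := left_growth (ρ := ρ) (W₀ := W - 2 * η) hσ' hη0 hη1 (by linarith) (X := fun z => X (-z)) (fun z hz hzre => by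
      have h3 : -z ∉ B := hB (-z) (by rw [Complex.neg_re, lt_abs]; left; linarith)
      have h4 := hX (-z) ((hneg z ρ).1 hz) h3
      exact ⟨(h4.1.differentiableAt).comp z differentiableAt_id.neg, h4.2⟩) (M₀ := M₀) (fun z hz hz1 hz2 => by
      refine hM₀ (-z) ((hneg z ρ).1 hz) (hgd (-z) ?_) ?_
      · rw [Complex.neg_re, le_abs]
        left
        linarith
      · rw [Complex.neg_re, abs_neg, abs_le]
        constructor <;> linarith)
  refine ⟨max M₁ M₂, hM₁.trans (le_max_left _ _), fun z hz hzW => ?_⟩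
  have hpow : 0 ≤ (1 + ‖z‖) ^ 8 := by positivity
  rcases lt_abs.1 hzW with h3 | h3
  · have h4 := h2 (-z) ((hneg (-z) (ρ + 3)).2 (by rwa [neg_neg])) (by rw [Complex.neg_re]; linarith)
    rw [neg_neg, norm_neg] at h4
    exact h4.trans (mul_le_mul_of_nonneg_right (le_max_right _ _) hpow)
  · exact (h1 z hz (by linarith)).trans (mul_le_mul_of_nonneg_right (le_max_left _ _) hpow)

end Pool.Agent.H62.LR

end
end
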