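import Pool.Agent.H94.CB.M189
import Pool.Agent.H94.CB.M190
import Pool.Agent.H94.CB.M191
import Pool.Agent.H94.CB.M212

/-! The parts of this file: H41.LR.Lim, H41.LR.Bd, H62.LR.Kp, H87.LV.Refl, H41.LR.Tr, H41.LR.Val. -/

section

/-!
# LR Lim: limits of pairs `(ψ n, g n)`
-/

set_option autoImplicit false

open Topology Filter Metric

noncomputable section

namespace Pool.Agent.H41.LR

attribute [-instance] ProperSMul.toContinuousSMul

open Pool.Agent.H46.LR (OmitsAt OmitsSecAt FinAt Approx)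

/-- joint convergence at `x` -/
def Jc (𝒰 : Ultrafilter ℕ) (F : ℕ → ℂ → ℂ) (f : ℂ → ℂ) (x : ℂ) : Prop :=
  Tendsto (fun q : ℕ × ℂ => F q.1 q.2) ((𝒰 : Filter ℕ) ×ˢ 𝓝 x) (𝓝 (f x))

theorem Jc.at {𝒰 : Ultrafilter ℕ} {F : ℕ → ℂ → ℂ} {f : ℂ → ℂ} {x : ℂ} (h : Jc 𝒰 F f x) : Tendsto (fun n => F n x) 𝒰 (𝓝 (f x)) := by
  have h1 : Tendsto (fun n : ℕ => (n, x)) (𝒰 : Filter ℕ) ((𝒰 : Filter ℕ) ×ˢ 𝓝 x) := tendsto_id.prodMk tendsto_const_nhds
  exact h.comp h1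

theorem jc_of_tlu {𝒰 : Ultrafilter ℕ} {F : ℕ → ℂ → ℂ} {f : ℂ → ℂ} {Ω : Set ℂ} (hΩ : IsOpen Ω) (hf : ContinuousOn f Ω)
    (h : TendstoLocallyUniformlyOn F f (𝒰 : Filter ℕ) Ω) {x : ℂ} (hx : x ∈ Ω) : Jc 𝒰 F f x := by
  unfold Jc
  rw [Metric.tendsto_nhds]
  intro ε hε
  obtain ⟨t, ht, h1⟩ := (Metric.tendstoLocallyUniformlyOn_iff.1 h) (ε / 2) (half_pos hε) x hx
  rw [hΩ.nhdsWithin_eq hx] at ht
  have h2 : ∀ᶠ y in 𝓝 x, dist (f y) (f x) < ε / 2 := (hf.continuousAt (hΩ.mem_nhds hx)).eventually (ball_mem_nhds _ (half_pos hε))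
  have h3 : ∀ᶠ y in 𝓝 x, y ∈ t := ht
  filter_upwards [h1.prod_mk (h2.and h3)] with q hq
  have h4 := hq.1 q.2 hq.2.2
  rw [dist_comm] at h4
  calc dist (F q.1 q.2) (f x) ≤ dist (F q.1 q.2) (f q.2) + dist (f q.2) (f x) := dist_triangle _ _ _
    _ < ε / 2 + ε / 2 := add_lt_add h4 hq.2.1
    _ = ε := add_halves ε

/-- **Hurwitz**, with joint convergence -/
theorem hurJ {𝒰 : Ultrafilter ℕ} {φ : ℕ → ℂ → ℂ} {ψ : ℂ → ℂ} {Ω : Set ℂ} (hΩ : IsOpen Ω) (hc : IsPreconnected Ω)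
    (hψ : DifferentiableOn ℂ ψ Ω) (h : ∀ x ∈ Ω, Jc 𝒰 φ ψ x) (hE : EvD 𝒰 φ Ω) :
    (∀ z ∈ Ω, ψ z = 0) ∨ ∀ z ∈ Ω, ψ z ≠ 0 := by
  have hloc : ∀ z ∈ Ω, ∃ r : ℝ, 0 < r ∧ ball z r ⊆ Ω ∧ ((∀ w ∈ ball z r, ψ w = 0) ∨ ∀ w ∈ ball z r, ψ w ≠ 0) := by
    intro z hz
    obtain ⟨r, hr, h1⟩ := hE z hz
    obtain ⟨s, hs, hsΩ⟩ := Metric.isOpen_iff.1 hΩ z hz
    have hsub : ball z (min r s) ⊆ ball z r := ball_subset_ball (min_le_left _ _)
    have hsub' : ball z (min r s) ⊆ Ω := (ball_subset_ball (min_le_right _ _)).trans hsΩ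
    refine ⟨min r s, lt_min hr hs, hsub', ?_⟩
    refine Pool.Agent.H62.Log.hurwitz 𝒰 (φ := φ) ?_ ?_ (hψ.mono hsub') ?_
    · exact h1.mono fun n hn => hn.1.mono hsub
    · exact h1.mono fun n hn w hw => hn.2 w (hsub hw)
    · intro w w₀ hw₀ hw
      have h2 : Tendsto (fun n : ℕ => (n, w n)) (𝒰 : Filter ℕ) ((𝒰 : Filter ℕ) ×ˢ 𝓝 w₀) := tendsto_id.prodMk hw
      exact (h w₀ (hsub' hw₀)).comp h2
  by_cases hex : ∃ z₀ ∈ Ω, ψ z₀ = 0
  · obtain ⟨z₀, hz₀, h0⟩ := hex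
    left
    refine all_of_clopen (A := {z | ψ z = 0}) hc ?_ ?_ hz₀ h0
    · intro z hz hzA
      obtain ⟨r, hr, -, h1 | h1⟩ := hloc z hz
      · exact mem_of_superset (ball_mem_nhds z hr) h1
      · exact absurd hzA (h1 z (mem_ball_self hr))
    · intro z hz hzA
      exact ((hψ.differentiableAt (hΩ.mem_nhds hz)).continuousAt).eventually_ne hzA
  · right
    push Not at hex
    exact hex

/-- the value of the normal form -/
theorem nf_value {g : ℂ → ℂ} {z w : ℂ} (hg : MeromorphicNFAt g z) (h : Tendsto g (𝓝[≠] z) (𝓝 w)) : AnalyticAt ℂ g z ∧ g z = w := by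
  have h1 := (tendsto_nhds_iff_meromorphicOrderAt_nonneg hg.meromorphicAt).1 ⟨w, h⟩
  have h2 := hg.meromorphicOrderAt_nonneg_iff_analyticAt.1 h1
  exact ⟨h2, tendsto_nhds_unique (h2.continuousAt.tendsto.mono_left nhdsWithin_le_nhds) h⟩

theorem nf_pole {g : ℂ → ℂ} {z : ℂ} (hg : MeromorphicNFAt g z) (h : Tendsto g (𝓝[≠] z) (Bornology.cobounded ℂ)) :
    AnalyticAt ℂ (fun x => (g x)⁻¹) z ∧ (g z)⁻¹ = 0 := by
  have h1 : Tendsto (fun x => (g x)⁻¹) (𝓝[≠] z) (𝓝 0) := tendsto_inv₀_cobounded.comp h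
  have h2 : MeromorphicNFAt (fun x => (g x)⁻¹) z := hg.inv
  exact nf_value h2 h1

/-- limits of pairs -/
structure LimS (𝒰 : Ultrafilter ℕ) (K : (ℂ → ℂ) → (ℂ → ℂ) → ℂ → Prop) (φ g₀ : ℂ → ℂ) (z₀ : ℂ) (r : ℝ) (ψ g : ℕ → ℂ → ℂ) : Prop where
  diff : ∀ R : ℝ, ∀ᶠ n in (𝒰 : Filter ℕ), DifferentiableOn ℂ (ψ n) (ball 0 R)
  nf : ∀ R : ℝ, ∀ᶠ n in (𝒰 : Filter ℕ), ∀ z ∈ ball (0 : ℂ) R, MeromorphicNFAt (g n) z
  prop : ∀ R : ℝ, ∀ᶠ n in (𝒰 : Filter ℕ), ∀ z ∈ ball (0 : ℂ) R, K (ψ n) (g n) z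
  conv : ∀ R ε : ℝ, 0 < ε → ∀ᶠ n in (𝒰 : Filter ℕ), ∀ z ∈ ball (0 : ℂ) R, ‖ψ n z - φ z‖ < ε
  conv₀ : ∀ z ∈ ball z₀ r, ∀ ε : ℝ, 0 < ε → ∀ᶠ n in (𝒰 : Filter ℕ), ∀ᶠ w in 𝓝[≠] z, ‖g n w - g₀ w‖ < ε

theorem exists_limS {K : (ℂ → ℂ) → (ℂ → ℂ) → ℂ → Prop} (hK : ∀ ψ g g' z, g =ᶠ[𝓝[≠] z] g' → K ψ g z → K ψ g' z) {φ g₀ : ℂ → ℂ} {z₀ : ℂ} {r : ℝ}
    (h : Approx K φ g₀ z₀ r) : ∃ ψ g : ℕ → ℂ → ℂ, LimS (hyperfilter ℕ) K φ g₀ z₀ r ψ g := by
  have h1 : ∀ n : ℕ, ∃ ψ g : ℂ → ℂ, DifferentiableOn ℂ ψ (ball 0 ((n : ℝ) + 1)) ∧ MeromorphicOn g (ball 0 ((n : ℝ) + 1)) ∧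
      (∀ z ∈ ball (0 : ℂ) ((n : ℝ) + 1), ‖ψ z - φ z‖ < ((n : ℝ) + 1)⁻¹) ∧ (∀ z ∈ ball z₀ r, ‖g z - g₀ z‖ < ((n : ℝ) + 1)⁻¹) ∧
      ∀ z ∈ ball (0 : ℂ) ((n : ℝ) + 1), K ψ g z := fun n => h ((n : ℝ) + 1) ((n : ℝ) + 1)⁻¹ (by positivity) (by positivity)
  choose ψ g hψ hg hc hc₀ hKn using h1
  have hR : ∀ R : ℝ, ∀ᶠ n : ℕ in ((hyperfilter ℕ : Ultrafilter ℕ) : Filter ℕ), ball (0 : ℂ) R ⊆ ball 0 ((n : ℝ) + 1) := by
    intro R
    obtain ⟨N, hN⟩ := exists_nat_ge R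
    have h4 : ∀ᶠ n in (cofinite : Filter ℕ), N ≤ n := by
      rw [Nat.cofinite_eq_atTop]
      exact eventually_ge_atTop N
    filter_upwards [h4.filter_mono hyperfilter_le_cofinite] with n hn
    refine ball_subset_ball ?_
    have h5 : (N : ℝ) ≤ n := by exact_mod_cast hn
    linarith
  have hε : ∀ ε : ℝ, 0 < ε → ∀ᶠ n : ℕ in ((hyperfilter ℕ : Ultrafilter ℕ) : Filter ℕ), ((n : ℝ) + 1)⁻¹ < ε := by
    intro ε hε
    obtain ⟨N, hN⟩ := exists_nat_gt ε⁻¹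
    have h4 : ∀ᶠ n in (cofinite : Filter ℕ), N ≤ n := by
      rw [Nat.cofinite_eq_atTop]
      exact eventually_ge_atTop N
    filter_upwards [h4.filter_mono hyperfilter_le_cofinite] with n hn
    refine inv_lt_of_inv_lt₀ hε ?_
    have h5 : (N : ℝ) ≤ n := by exact_mod_cast hn
    linarith
  refine ⟨ψ, fun n => toMeromorphicNFOn (g n) (ball 0 ((n : ℝ) + 1)), ?_, ?_, ?_, ?_, ?_⟩
  · intro R
    filter_upwards [hR R] with n hn
    exact (hψ n).mono hn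
  · intro R
    filter_upwards [hR R] with n hn z hz
    exact meromorphicNFOn_toMeromorphicNFOn (g n) (ball 0 ((n : ℝ) + 1)) (hn hz)
  · intro R
    filter_upwards [hR R] with n hn z hz
    exact hK _ _ _ z ((hg n).toMeromorphicNFOn_eq_self_on_nhdsNE (hn hz)).symm (hKn n z (hn hz))
  · intro R ε he
    filter_upwards [hR R, hε ε he] with n hn hn' z hz
    exact (hc n z (hn hz)).trans hn'
  · intro z hz ε he
    filter_upwards [hR (‖z‖ + 1), hε ε he] with n hn hn'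
    have h2 : z ∈ ball (0 : ℂ) ((n : ℝ) + 1) := hn (by rw [mem_ball_zero_iff]; linarith)
    have h3 : ∀ᶠ w in 𝓝[≠] z, w ∈ ball z₀ r := nhdsWithin_le_nhds (isOpen_ball.mem_nhds hz)
    filter_upwards [(hg n).toMeromorphicNFOn_eq_self_on_nhdsNE h2, h3] with w hw hw'
    rw [hw]
    exact (hc₀ n w hw').trans hn'

variable {𝒰 : Ultrafilter ℕ} {K : (ℂ → ℂ) → (ℂ → ℂ) → ℂ → Prop} {φ g₀ : ℂ → ℂ} {z₀ : ℂ} {r : ℝ} {ψ g : ℕ → ℂ → ℂ}

theorem LimS.jc_ψ (h : LimS 𝒰 K φ g₀ z₀ r ψ g) (hφ : Continuous φ) (x : ℂ) : Jc 𝒰 ψ φ x := by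
  unfold Jc
  rw [Metric.tendsto_nhds]
  intro ε hε
  have h1 := h.conv (‖x‖ + 1) (ε / 2) (half_pos hε)
  have h2 : ∀ᶠ y in 𝓝 x, dist (φ y) (φ x) < ε / 2 := hφ.continuousAt.eventually (ball_mem_nhds _ (half_pos hε))
  have h3 : ∀ᶠ y in 𝓝 x, y ∈ ball (0 : ℂ) (‖x‖ + 1) := isOpen_ball.mem_nhds (by rw [mem_ball_zero_iff]; linarith)
  filter_upwards [h1.prod_mk (h2.and h3)] with q hq
  have h4 := hq.1 q.2 hq.2.2
  rw [← dist_eq_norm] at h4
  calc dist (ψ q.1 q.2) (φ x) ≤ dist (ψ q.1 q.2) (φ q.2) + dist (φ q.2) (φ x) := dist_triangle _ _ _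
    _ < ε / 2 + ε / 2 := add_lt_add h4 hq.2.1
    _ = ε := add_halves ε

theorem LimS.jc_exp (h : LimS 𝒰 K φ g₀ z₀ r ψ g) (hφ : Continuous φ) (x : ℂ) :
    Jc 𝒰 (fun n z => Complex.exp (ψ n z)) (fun z => Complex.exp (φ z)) x :=
  (Complex.continuous_exp.tendsto _).comp (h.jc_ψ hφ x)

/-- an eventually true property of `(n, y)` near `x` holds on a ball for most `n` -/
theorem exists_ball {P : ℕ → ℂ → Prop} {x : ℂ} (h : ∀ᶠ q : ℕ × ℂ in (𝒰 : Filter ℕ) ×ˢ 𝓝 x, P q.1 q.2) :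
    ∃ s : ℝ, 0 < s ∧ ∀ᶠ n in (𝒰 : Filter ℕ), ∀ y ∈ ball x s, P n y := by
  obtain ⟨pa, ha, pb, hb, h1⟩ := eventually_prod_iff.1 h
  obtain ⟨s, hs, h2⟩ := Metric.eventually_nhds_iff_ball.1 hb
  exact ⟨s, hs, ha.mono fun n hn y hy => h1 hn (h2 y hy)⟩

/-- off the bad points `g n` is holomorphic without the values `0`, `1` -/
theorem LimS.evO (h : LimS 𝒰 K φ g₀ z₀ r ψ g) {B₀ : Set ℂ} (hB : B₀.Finite) (hO : ∀ ψ g z, K ψ g z → OmitsAt B₀ ψ g z) (hφ : Continuous φ) :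
    EvO 𝒰 g {z | Complex.exp (φ z) ∉ B₀} := by
  intro z hz
  have h1 : ∀ᶠ q : ℕ × ℂ in (𝒰 : Filter ℕ) ×ˢ 𝓝 z, Complex.exp (ψ q.1 q.2) ∉ B₀ := (h.jc_exp hφ z).eventually (hB.isClosed.isOpen_compl.mem_nhds hz)
  obtain ⟨s, hs, h2⟩ := exists_ball (𝒰 := 𝒰) (P := fun n y => Complex.exp (ψ n y) ∉ B₀) (x := z) h1
  refine ⟨min s 1, lt_min hs one_pos, ?_⟩
  have hsub : ball z (min s 1) ⊆ ball (0 : ℂ) (‖z‖ + 1) := by
    intro y hy
    rw [mem_ball_iff_norm] at hy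
    rw [mem_ball_zero_iff]
    have h3 : ‖y - z‖ < 1 := hy.trans_le (min_le_right _ _)
    have h4 : ‖y‖ ≤ ‖y - z‖ + ‖z‖ := by
      have h5 := norm_add_le (y - z) z
      rwa [sub_add_cancel] at h5
    linarith
  filter_upwards [h2, h.nf (‖z‖ + 1), h.prop (‖z‖ + 1)] with n hn1 hn2 hn3
  have key : ∀ y ∈ ball z (min s 1), AnalyticAt ℂ (g n) y ∧ g n y ≠ 0 ∧ g n y ≠ 1 := by
    intro y hy
    obtain ⟨w, hw0, hw1, hw⟩ := hO _ _ _ (hn3 y (hsub hy)) (hn1 y (ball_subset_ball (min_le_left _ _) hy))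
    obtain ⟨h5, h6⟩ := nf_value (hn2 y (hsub hy)) hw
    rw [h6]
    exact ⟨h5, hw0, hw1⟩
  exact ⟨fun y hy => (key y hy).1.differentiableAt.differentiableWithinAt, fun y hy => (key y hy).2⟩

/-- **The limit.** -/
theorem LimS.exists_G (h : LimS 𝒰 K φ g₀ z₀ r ψ g) (hS : Schottky) {B₀ : Set ℂ} (hB : B₀.Finite) (hO : ∀ ψ g z, K ψ g z → OmitsAt B₀ ψ g z)
    (hφ : Continuous φ) (hr : 0 < r) (hg₀ : DifferentiableOn ℂ g₀ (ball z₀ r)) (hc : IsPreconnected {z | Complex.exp (φ z) ∉ B₀})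
    (hd : Dense {z | Complex.exp (φ z) ∉ B₀}) :
    ∃ G : ℂ → ℂ, DifferentiableOn ℂ G {z | Complex.exp (φ z) ∉ B₀} ∧ (∀ x, Complex.exp (φ x) ∉ B₀ → Jc 𝒰 g G x) ∧
      (∀ z ∈ ball z₀ r, Complex.exp (φ z) ∉ B₀ → G z = g₀ z) ∧
      (Om G {z | Complex.exp (φ z) ∉ B₀} ∨ (∀ z, Complex.exp (φ z) ∉ B₀ → G z = 0) ∨ ∀ z, Complex.exp (φ z) ∉ B₀ → G z = 1) := by
  have hΩ : IsOpen {z | Complex.exp (φ z) ∉ B₀} := hB.isClosed.isOpen_compl.preimage (Complex.continuous_exp.comp hφ)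
  have hev := h.evO hB hO hφ
  have hlim : ∀ z ∈ ball z₀ r, Complex.exp (φ z) ∉ B₀ → Tendsto (fun n => g n z) 𝒰 (𝓝 (g₀ z)) := by
    intro z hz hzB
    rw [Metric.tendsto_nhds]
    intro ε hε
    obtain ⟨s, hs, h1⟩ := hev z hzB
    filter_upwards [h1, h.conv₀ z hz (ε / 2) (half_pos hε)] with n hn1 hn2
    have h2 : ContinuousAt (fun w => ‖g n w - g₀ w‖) z :=
      (((hn1.1.differentiableAt (ball_mem_nhds z hs)).continuousAt).sub ((hg₀.differentiableAt (isOpen_ball.mem_nhds hz)).continuousAt)).norm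
    have h3 : ‖g n z - g₀ z‖ ≤ ε / 2 := le_of_tendsto (h2.tendsto.mono_left nhdsWithin_le_nhds) (hn2.mono fun w hw => hw.le)
    rw [dist_eq_norm]
    linarith
  obtain ⟨z₁, hz₁, hz₁B⟩ := hd.inter_open_nonempty (ball z₀ r) isOpen_ball ⟨z₀, mem_ball_self hr⟩
  have hM : ∀ᶠ n in (𝒰 : Filter ℕ), ‖g n z₁‖ ≤ ‖g₀ z₁‖ + 1 := by
    filter_upwards [(Metric.tendsto_nhds.1 (hlim z₁ hz₁ hz₁B)) 1 one_pos] with n hn
    rw [dist_eq_norm] at hn
    have h5 := norm_add_le (g n z₁ - g₀ z₁) (g₀ z₁)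
    rw [sub_add_cancel] at h5
    linarith
  obtain ⟨G, hG, hGt, h1⟩ := montel hS hΩ hc hev hz₁B hM
  exact ⟨G, hG, fun x hx => jc_of_tlu hΩ hG.continuousOn hGt hx,
    fun z hz hzB => tendsto_nhds_unique (hGt.tendsto_at hzB) (hlim z hz hzB), h1⟩

end Pool.Agent.H41.LR

end
end

section

/-!
# LR Bd: the hypotheses `BaseD` in the two cases
-/

set_option autoImplicit false

open Topology Filter Metric

noncomputable section

namespace Pool.Agent.H41.LR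

attribute [-instance] ProperSMul.toContinuousSMul

open Pool.Agent.H62.LR (BaseD Tm)

/-- the bad points -/
def Bp (B₁ : Set ℂ) : Set ℂ := {z | Complex.exp z ∈ B₁}

/-- the section -/
def Ls (p q : Polynomial ℂ) (z : ℂ) : ℂ := p.eval (Complex.exp z) / q.eval (Complex.exp z)

theorem exp_add_per (z : ℂ) (l : ℤ) : Complex.exp (z + ((2 * Real.pi : ℝ) : ℂ) * l * Complex.I) = Complex.exp z := by
  rw [Complex.exp_eq_exp_iff_exists_int]
  refine ⟨l, ?_⟩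
  push_cast
  ring

theorem an_poly (p : Polynomial ℂ) (z : ℂ) : AnalyticAt ℂ (fun z => p.eval (Complex.exp z)) z := by
  have h1 : Differentiable ℂ fun z : ℂ => p.eval (Complex.exp z) := p.differentiable.comp Complex.differentiable_exp
  exact h1.analyticAt z

theorem exists_base {B₁ : Set ℂ} (hB : B₁.Finite) : ∃ δ W₀ : ℝ, 0 < δ ∧ δ ≤ 1 / 8 ∧ 0 < W₀ ∧ (∀ b ∈ Bp B₁, ∀ b' ∈ Bp B₁, b ≠ b' → 8 * δ ≤ ‖b - b'‖) ∧
    ∀ b ∈ Bp B₁, |b.re| + 1 ≤ W₀ := by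
  obtain ⟨δ, hδ, hδ1, h1⟩ := exists_sep hB
  obtain ⟨W, hW, h2⟩ := exists_re hB
  exact ⟨δ, W + 1, hδ, hδ1, by linarith, fun b hb b' hb' hne => h1 b b' hb hb' hne, fun b hb => by linarith [h2 b hb]⟩

theorem bp_inv {B₁ : Set ℂ} : ∀ b ∈ Bp B₁, ∀ l : ℤ, b + ((2 * Real.pi : ℝ) : ℂ) * l * Complex.I ∈ Bp B₁ := by
  intro b hb l
  show Complex.exp _ ∈ B₁
  rw [exp_add_per]
  exact hb

/-- case (N) -/
theorem baseN {p q : Polynomial ℂ} (hp : p ≠ 0) (hq : q ≠ 0) {B₁ : Set ℂ} (hB : B₁.Finite)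
    (hroot : ∀ x : ℂ, x ≠ 0 → (p.eval x = 0 ∨ q.eval x = 0 ∨ p.eval x = q.eval x) → x ∈ B₁) :
    ∃ δ W : ℝ, BaseD (2 * Real.pi) (Bp B₁) δ W {Ls p q} ∅ {0, 1} := by
  obtain ⟨δ, W₀, hδ, hδ1, hW₀, h1, h2⟩ := exists_base hB
  have hgood : ∀ z, z ∉ Bp B₁ → p.eval (Complex.exp z) ≠ 0 ∧ q.eval (Complex.exp z) ≠ 0 ∧ p.eval (Complex.exp z) ≠ q.eval (Complex.exp z) := by
    intro z hz
    have h3 : ¬ (p.eval (Complex.exp z) = 0 ∨ q.eval (Complex.exp z) = 0 ∨ p.eval (Complex.exp z) = q.eval (Complex.exp z)) :=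
      fun h4 => hz (hroot _ (Complex.exp_ne_zero z) h4)
    push Not at h3
    exact h3
  have hgrow : ∀ P : Polynomial ℂ, P ≠ 0 → (∀ x : ℂ, x ≠ 0 → P.eval x = 0 → x ∈ B₁) → ∃ M : ℝ, 0 ≤ M ∧ ∀ z : ℂ, W₀ ≤ |z.re| →
      P.eval (Complex.exp z) ≠ 0 → |Real.log ‖P.eval (Complex.exp z)‖| ≤ M * (1 + ‖z‖) := by
    intro P hP hPr
    refine poly_grow hW₀.le P.natDegree P rfl hP fun r hr hr0 => ?_
    have h3 : Complex.log r ∈ Bp B₁ := by
      show Complex.exp (Complex.log r) ∈ B₁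
      rw [Complex.exp_log hr0]
      exact hPr r hr0 hr
    have h4 := h2 _ h3
    rwa [Complex.log_re] at h4
  obtain ⟨M₁, hM₁, hg₁⟩ := hgrow p hp fun x hx h3 => hroot x hx (Or.inl h3)
  obtain ⟨M₂, hM₂, hg₂⟩ := hgrow q hq fun x hx h3 => hroot x hx (Or.inr (Or.inl h3))
  refine ⟨δ, W₀ + 1, ?_⟩
  refine
    { p_pos := by positivity
      δ_pos := hδ
      W_pos := by linarith
      B_inv := bp_inv
      B_sep := h1
      B_re := fun b hb => by linarith [h2 b hb]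
      sub := Set.subsingleton_singleton
      L_an := ?_
      L_mer := ?_
      L_per := ?_
      L_grow := ?_
      C_sub := Set.empty_subset _
      C_inv := fun b hb => absurd hb (Set.notMem_empty b)
      A_fin := (Set.finite_singleton _).insert _
      A_zero := Set.mem_insert _ _
      A_one := Set.mem_insert_of_mem _ (Set.mem_singleton _) }
  · intro L hL z hz
    rw [Set.mem_singleton_iff] at hL
    subst hL
    obtain ⟨h3, h4, h5⟩ := hgood z hz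
    refine ⟨(an_poly p z).div (an_poly q z) h4, div_ne_zero h3 h4, ?_⟩
    show p.eval (Complex.exp z) / q.eval (Complex.exp z) ≠ 1
    intro h6
    rw [div_eq_one_iff_eq h4] at h6
    exact h5 h6
  · intro L hL z
    rw [Set.mem_singleton_iff] at hL
    subst hL
    exact (an_poly p z).meromorphicAt.div (an_poly q z).meromorphicAt
  · intro L hL z
    rw [Set.mem_singleton_iff] at hL
    subst hL
    have h3 := exp_add_per z 1
    rw [Int.cast_one, mul_one] at h3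
    show p.eval (Complex.exp (z + _)) / q.eval (Complex.exp (z + _)) = _
    rw [h3]
    rfl
  · intro L hL
    rw [Set.mem_singleton_iff] at hL
    subst hL
    refine ⟨M₁ + M₂, by linarith, fun z hz => ?_⟩
    have hz' : W₀ ≤ |z.re| := by linarith
    have hzB : z ∉ Bp B₁ := by
      intro h3
      have h4 := h2 z h3
      linarith
    obtain ⟨h3, h4, -⟩ := hgood z hzB
    show |Real.log ‖p.eval (Complex.exp z) / q.eval (Complex.exp z)‖| ≤ _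
    rw [norm_div, Real.log_div (norm_ne_zero_iff.2 h3) (norm_ne_zero_iff.2 h4)]
    calc |Real.log ‖p.eval (Complex.exp z)‖ - Real.log ‖q.eval (Complex.exp z)‖|
        ≤ |Real.log ‖p.eval (Complex.exp z)‖| + |Real.log ‖q.eval (Complex.exp z)‖| := abs_sub _ _
      _ ≤ M₁ * (1 + ‖z‖) + M₂ * (1 + ‖z‖) := add_le_add (hg₁ z hz' h3) (hg₂ z hz' h4)
      _ = (M₁ + M₂) * (1 + ‖z‖) := by ring

/-- case (I) -/
theorem baseI {B₁ : Set ℂ} (hB : B₁.Finite) {c : ℂ} (hc : c ∈ B₁) {A : Set ℂ} (hA : A.Finite) (hA0 : (0 : ℂ) ∈ A) (hA1 : (1 : ℂ) ∈ A) :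
    ∃ δ W : ℝ, BaseD (2 * Real.pi) (Bp B₁) δ W ∅ (Bp {c}) A := by
  obtain ⟨δ, W₀, hδ, hδ1, hW₀, h1, h2⟩ := exists_base hB
  refine ⟨δ, W₀ + 1, ?_⟩
  exact
    { p_pos := by positivity
      δ_pos := hδ
      W_pos := by linarith
      B_inv := bp_inv
      B_sep := h1
      B_re := fun b hb => by linarith [h2 b hb]
      sub := Set.subsingleton_empty
      L_an := fun L hL => absurd hL (Set.notMem_empty L)
      L_mer := fun L hL => absurd hL (Set.notMem_empty L)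
      L_per := fun L hL => absurd hL (Set.notMem_empty L)
      L_grow := fun L hL => absurd hL (Set.notMem_empty L)
      C_sub := by
        intro z hz
        have h3 : Complex.exp z = c := hz
        show Complex.exp z ∈ B₁
        rw [h3]
        exact hc
      C_inv := bp_inv
      A_fin := hA
      A_zero := hA0
      A_one := hA1 }

end Pool.Agent.H41.LR

end
end

section

/-!
# LR Kp: the chordal metric

* `kdist`, `kdist_inf`: the chordal distance.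
* `close_of_dist`, `large_of_dist`, `dist_le`, `dist_inf_le`: comparison.
-/

set_option autoImplicit false

open Topology Filter Metric

noncomputable section

namespace Pool.Agent.H62.LR.Cho

attribute [-instance] ProperSMul.toContinuousSMul

open Pool.Agent.H36.BP (EN wd fs)
open Pool.Agent.H62.EF (MN pr)

theorem v1_ne (w : ℂ) : v1 w ≠ 0 := by
  intro h
  have h1 := congrArg (fun x : EN 1 => x 0) h
  simp [v1] at h1

theorem v0_ne : v0 ≠ 0 := by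
  intro h
  have h1 := congrArg (fun x : EN 1 => x 1) h
  simp [v0] at h1

theorem norm_v1_sq (w : ℂ) : ‖v1 w‖ ^ 2 = 1 + ‖w‖ ^ 2 := by
  rw [EuclideanSpace.norm_sq_eq, Fin.sum_univ_two]
  simp [v1]

theorem norm_v0_sq : ‖v0‖ ^ 2 = 1 := by
  rw [EuclideanSpace.norm_sq_eq, Fin.sum_univ_two]
  simp [v0]

theorem norm_v1 (w : ℂ) : ‖v1 w‖ = Real.sqrt (1 + ‖w‖ ^ 2) := by
  rw [← norm_v1_sq, Real.sqrt_sq (norm_nonneg _)]

theorem norm_v0 : ‖v0‖ = 1 := by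
  have h1 := norm_v0_sq
  have h2 : ‖v0‖ ^ 2 = 1 ^ 2 := by rw [h1, one_pow]
  exact (pow_left_inj₀ (norm_nonneg _) zero_le_one two_ne_zero).1 h2

theorem wd_v1 (x y : ℂ) : wd (v1 x) (v1 y) = ‖x - y‖ := by
  unfold wd
  have h1 : ‖v1 x‖ ^ 2 * ‖v1 y‖ ^ 2 - ‖(inner ℂ (v1 x) (v1 y) : ℂ)‖ ^ 2 = ‖x - y‖ ^ 2 := by
    rw [norm_v1_sq, norm_v1_sq, PiLp.inner_apply, Fin.sum_univ_two]
    simp only [v1, RCLike.inner_apply, Matrix.cons_val_zero, Matrix.cons_val_one, map_one, mul_one]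
    simp only [Complex.sq_norm, Complex.normSq_apply, Complex.add_re, Complex.add_im, Complex.one_re, Complex.one_im, Complex.mul_re, Complex.mul_im,
      Complex.conj_re, Complex.conj_im, Complex.sub_re, Complex.sub_im]
    ring
  rw [h1, Real.sqrt_sq (norm_nonneg _)]

theorem wd_v0 (x : ℂ) : wd (v1 x) v0 = 1 := by
  unfold wd
  have h1 : ‖v1 x‖ ^ 2 * ‖v0‖ ^ 2 - ‖(inner ℂ (v1 x) v0 : ℂ)‖ ^ 2 = 1 := by
    rw [norm_v1_sq, norm_v0_sq, PiLp.inner_apply, Fin.sum_univ_two]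
    simp only [v1, v0, RCLike.inner_apply, Matrix.cons_val_zero, Matrix.cons_val_one, map_one, mul_one]
    simp
  rw [h1, Real.sqrt_one]

/-- the chordal distance -/
theorem kdist (x y : ℂ) : dist (kp x) (kp y) = Real.sqrt 2 * (‖x - y‖ / (Real.sqrt (1 + ‖x‖ ^ 2) * Real.sqrt (1 + ‖y‖ ^ 2))) := by
  unfold kp
  rw [Pool.Agent.H62.EF.dist_pr (v1_ne x) (v1_ne y), wd_v1, norm_v1, norm_v1]

theorem kdist_inf (x : ℂ) : dist (kp x) kinf = Real.sqrt 2 * (1 / Real.sqrt (1 + ‖x‖ ^ 2)) := by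
  unfold kp kinf
  rw [Pool.Agent.H62.EF.dist_pr (v1_ne x) v0_ne, wd_v0, norm_v1, norm_v0, mul_one]

private theorem one_le_sqrt (x : ℂ) : 1 ≤ Real.sqrt (1 + ‖x‖ ^ 2) := by
  rw [Real.one_le_sqrt]
  nlinarith [norm_nonneg x]

theorem sqrt_le (x : ℂ) : Real.sqrt (1 + ‖x‖ ^ 2) ≤ 1 + ‖x‖ := by
  rw [Real.sqrt_le_left (by positivity)]
  nlinarith [norm_nonneg x]

theorem dist_le (x y : ℂ) : dist (kp x) (kp y) ≤ 2 * ‖x - y‖ := by
  rw [kdist]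
  have h1 : Real.sqrt 2 ≤ 2 := by
    rw [Real.sqrt_le_left (by norm_num)]
    norm_num
  have h3 := one_le_sqrt x
  have h4 := one_le_sqrt y
  have h5 : ‖x - y‖ / (Real.sqrt (1 + ‖x‖ ^ 2) * Real.sqrt (1 + ‖y‖ ^ 2)) ≤ ‖x - y‖ :=
    div_le_self (norm_nonneg _) (by nlinarith)
  exact mul_le_mul h1 h5 (by positivity) (by norm_num)

theorem dist_inf_le {x : ℂ} (hx : x ≠ 0) : dist (kp x) kinf ≤ 2 / ‖x‖ := by
  rw [kdist_inf]
  have h1 : Real.sqrt 2 ≤ 2 := by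
    rw [Real.sqrt_le_left (by norm_num)]
    norm_num
  have hx0 : 0 < ‖x‖ := norm_pos_iff.2 hx
  have h2 : ‖x‖ ≤ Real.sqrt (1 + ‖x‖ ^ 2) := by
    refine Real.le_sqrt_of_sq_le ?_
    linarith
  have h3 : 1 / Real.sqrt (1 + ‖x‖ ^ 2) ≤ 1 / ‖x‖ := one_div_le_one_div_of_le hx0 h2
  calc Real.sqrt 2 * (1 / Real.sqrt (1 + ‖x‖ ^ 2)) ≤ 2 * (1 / ‖x‖) := mul_le_mul h1 h3 (by positivity) (by norm_num)
    _ = 2 / ‖x‖ := by ring

/-- near a point of norm at most `K` in the chordal metric: near -/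
theorem close_of_dist (K : ℝ) {ε : ℝ} (hε : 0 < ε) : ∃ d : ℝ, 0 < d ∧ ∀ x y : ℂ, ‖y‖ ≤ K → dist (kp x) (kp y) ≤ d → ‖x - y‖ ≤ ε := by
  set K' : ℝ := max K 0 with hK'
  have hK'0 : 0 ≤ K' := le_max_right _ _
  set c : ℝ := 1 + K' with hc
  have hc1 : 1 ≤ c := by
    rw [hc]
    linarith
  refine ⟨min (1 / (2 * c)) (ε / (2 * c ^ 2)), lt_min (by positivity) (by positivity), fun x y hy hd => ?_⟩
  have hyK : ‖y‖ ≤ K' := hy.trans (le_max_left _ _)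
  rw [kdist] at hd
  have h2 : 1 ≤ Real.sqrt 2 := by
    rw [Real.one_le_sqrt]
    norm_num
  have h3 := one_le_sqrt x
  have h4 := one_le_sqrt y
  have hsx := sqrt_le x
  have hsy : Real.sqrt (1 + ‖y‖ ^ 2) ≤ c := (sqrt_le y).trans (by rw [hc]; linarith)
  have h5 : ‖x - y‖ / (Real.sqrt (1 + ‖x‖ ^ 2) * Real.sqrt (1 + ‖y‖ ^ 2)) ≤ min (1 / (2 * c)) (ε / (2 * c ^ 2)) := by
    refine le_trans ?_ hd
    exact le_mul_of_one_le_left (by positivity) h2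
  have hx1 : ‖x‖ ≤ ‖x - y‖ + K' := by
    have := norm_add_le (x - y) y
    rw [sub_add_cancel] at this
    linarith
  have hden : 0 < Real.sqrt (1 + ‖x‖ ^ 2) * Real.sqrt (1 + ‖y‖ ^ 2) := by positivity
  have hden' : Real.sqrt (1 + ‖x‖ ^ 2) * Real.sqrt (1 + ‖y‖ ^ 2) ≤ (c + ‖x - y‖) * c :=
    mul_le_mul (hsx.trans (by rw [hc]; linarith)) hsy (by positivity) (by positivity)
  have hcc : 0 < c := by linarith
  have hs : ‖x - y‖ ≤ c := by
    have h6 := h5.trans (min_le_left _ _)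
    rw [div_le_div_iff₀ hden (by positivity)] at h6
    have h7 : ‖x - y‖ * (2 * c) ≤ (c + ‖x - y‖) * c := h6.trans (by rw [one_mul]; exact hden')
    have h8 : ‖x - y‖ * c ≤ c * c := by nlinarith
    exact le_of_mul_le_mul_right h8 hcc
  have h6 := h5.trans (min_le_right _ _)
  rw [div_le_div_iff₀ hden (by positivity)] at h6
  have h7 : ‖x - y‖ * (2 * c ^ 2) ≤ ε * (2 * c ^ 2) := by
    refine h6.trans (mul_le_mul_of_nonneg_left (hden'.trans ?_) hε.le)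
    nlinarith
  exact le_of_mul_le_mul_right h7 (by positivity)

/-- near `∞` in the chordal metric: large -/
theorem large_of_dist {ε : ℝ} (hε : 0 < ε) : ∃ d : ℝ, 0 < d ∧ ∀ x : ℂ, dist (kp x) kinf ≤ d → 1 ≤ ε * ‖x‖ := by
  refine ⟨min (1 / 2) (ε / 2), lt_min (by norm_num) (by positivity), fun x hd => ?_⟩
  rw [kdist_inf] at hd
  have h2 : 1 ≤ Real.sqrt 2 := by
    rw [Real.one_le_sqrt]
    norm_num
  have h3 := one_le_sqrt x
  have h5 : 1 / Real.sqrt (1 + ‖x‖ ^ 2) ≤ min (1 / 2) (ε / 2) := by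
    refine le_trans ?_ hd
    exact le_mul_of_one_le_left (by positivity) h2
  have h6 := h5.trans (min_le_left _ _)
  have h7 := h5.trans (min_le_right _ _)
  rw [div_le_div_iff₀ (by positivity) (by norm_num)] at h6 h7
  have hs := sqrt_le x
  have hx : 1 ≤ ‖x‖ := by linarith
  nlinarith

end Pool.Agent.H62.LR.Cho

end
end

section

/-!
# LV Refl: the reflection `z ↦ -z`, `u ↦ -u`
-/

set_option autoImplicit false

open Topology Filter Metric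

namespace Pool.Agent.H87.LV

attribute [-instance] ProperSMul.toContinuousSMul

open Pool.Agent.H36.BP (EN)
open Pool.Agent.H14.PP (Tan)
open Pool.Agent.H62.EF (MN pr)
open Pool.Agent.H62.EL (TForm)
open Pool.Agent.EG.LE (SecOn TT)
open Pool.Agent.H87.LU (rfT rfI)

variable {N : ℕ} {V : Set (EN N)} {Λ : AddSubgroup ℂ} {u : EN N → ℂ}

theorem neg_mem_iff {a z : ℂ} : -a - z ∈ Λ ↔ a - -z ∈ Λ := by
  have h : -a - z = -(a - -z) := by ring
  rw [h]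
  exact Λ.neg_mem_iff

/-- the reflected form -/
noncomputable def _root_.Pool.Agent.H62.EL.TForm.refl (α : TForm V Λ u) : TForm V Λ (fun x => -u x) where
  toFun := fun z x v w => -α.toFun (-z) x v w
  add_smul := fun z x hx hz v w hv hw a b => by
    rw [α.add_smul (-z) x hx (neg_mem_iff.1 hz) v w hv hw a b]
  det := fun z x hx hz v w hv hw a b c d => by
    rw [α.det (-z) x hx (neg_mem_iff.1 hz) v w hv hw a b c d]
    ring
  scale := fun z x hx hz v w hv hw c hc => by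
    rw [α.scale (-z) x hx (neg_mem_iff.1 hz) v w hv hw c hc]
  analytic := fun φ υ p hφ hυ h => by
    have h1 := α.analytic φ (fun y => -υ y) p hφ hυ.neg (by
      filter_upwards [h] with y hy
      exact ⟨hy.1, neg_mem_iff.1 hy.2⟩)
    exact h1.neg

theorem neg_ball (c : ℂ) (R : ℝ) : {z : ℂ | -z ∈ ball c R} = ball (-c) R := by
  ext z
  rw [Set.mem_setOf_eq, mem_ball, mem_ball, dist_eq_norm, dist_eq_norm]
  have h : -z - c = -(z - -c) := by ring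
  rw [h, norm_neg]

/-- the sections over the reflected domain -/
theorem secOn_refl {U : Set (EN N)} {Ω : Set ℂ} {F : ℂ → EN N} (h : SecOn U Λ u {z | -z ∈ Ω} F) : SecOn U Λ (fun x => -u x) Ω (fun z => F (-z)) := by
  refine ⟨?_, fun z hz => ?_⟩
  · refine h.1.comp differentiable_neg.differentiableOn fun z hz => ?_
    show -(-z) ∈ Ω
    rwa [neg_neg]
  · have h1 := h.2 (-z) (by
      show -(-z) ∈ Ω
      rwa [neg_neg])
    exact ⟨h1.1, neg_mem_iff.2 h1.2⟩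

theorem secOn_refl' {U : Set (EN N)} {Ω : Set ℂ} {F : ℂ → EN N} (h : SecOn U Λ (fun x => -u x) Ω F) : SecOn U Λ u {z | -z ∈ Ω} (fun z => F (-z)) := by
  refine ⟨?_, fun z hz => ?_⟩
  · exact h.1.comp differentiable_neg.differentiableOn fun z hz => hz
  · have h1 := h.2 (-z) hz
    refine ⟨h1.1, ?_⟩
    have h2 := neg_mem_iff.1 h1.2
    rwa [neg_neg] at h2

theorem tt_refl (U : Set (EN N)) : TT U Λ (fun x => -u x) = rfT (TT U Λ u) := by
  funext Ω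
  ext f
  constructor
  · rintro ⟨F, hF, hf⟩
    refine ⟨fun z => F (-z), secOn_refl' hF, fun z hz => ?_⟩
    exact hf (-z) hz
  · rintro ⟨F, hF, hf⟩
    refine ⟨fun z => F (-z), secOn_refl hF, fun z hz => ?_⟩
    have h1 := hf (-z) (by
      show -(-z) ∈ Ω
      rwa [neg_neg])
    simpa only [neg_neg] using h1

end Pool.Agent.H87.LV

end

section

/-!
# LR Tr: from half planes to the limits
-/

set_option autoImplicit false

open Topology Filter Metric MvPolynomial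

noncomputable section

namespace Pool.Agent.H41.LR

attribute [-instance] ProperSMul.toContinuousSMul

open Pool.Agent.H62.LR (BaseD Tm)
open Pool.Agent.H87.LU (HP)
open Pool.Agent.H46.LR (OmitsAt OmitsSecAt FinAt Approx Algebraic MainN MainI)

/-- the good points for `φ` -/
def Og (φ : ℂ → ℂ) (B₁ : Set ℂ) : Set ℂ := {z | Complex.exp (φ z) ∉ B₁}

theorem isOpen_Og {φ : ℂ → ℂ} (hφ : Continuous φ) {B₁ : Set ℂ} (hB : B₁.Finite) : IsOpen (Og φ B₁) :=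
  hB.isClosed.isOpen_compl.preimage (Complex.continuous_exp.comp hφ)

theorem Og_compl {φ : ℂ → ℂ} {B₁ : Set ℂ} : (Og φ B₁)ᶜ = {z | φ z ∈ Bp B₁} := by
  ext z
  show ¬ (Complex.exp (φ z) ∉ B₁) ↔ Complex.exp (φ z) ∈ B₁
  exact not_not

theorem countable_Og {φ : ℂ → ℂ} {a b c : ℂ} (hab : a ≠ 0 ∨ b ≠ 0) (hφ : ∀ z, φ z = a * z ^ 2 + b * z + c) {B₁ : Set ℂ} (hB : B₁.Finite) :
    ((Og φ B₁)ᶜ).Countable := by
  rw [Og_compl]
  have h1 := countable_quad (c := c) hab (countable_bad hB)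
  refine h1.mono ?_
  intro z hz
  have h2 : φ z ∈ Bp B₁ := hz
  rw [hφ z] at h2
  exact h2

/-- a continuous relation on the good points of a ball holds on the ball -/
theorem rel_ball {φ g₀ : ℂ → ℂ} {z₀ : ℂ} {r : ℝ} (hφ : Continuous φ) (hg₀ : DifferentiableOn ℂ g₀ (ball z₀ r)) {B₁ : Set ℂ} (hd : Dense (Og φ B₁))
    (Φ : MvPolynomial (Fin 2) ℂ) (h : ∀ z ∈ ball z₀ r, z ∈ Og φ B₁ → eval ![Complex.exp (φ z), g₀ z] Φ = 0) :
    ∀ z ∈ ball z₀ r, eval ![Complex.exp (φ z), g₀ z] Φ = 0 := by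
  intro z hz
  have hcont : ContinuousAt (fun z => eval ![Complex.exp (φ z), g₀ z] Φ) z := by
    have h1 : ContinuousAt (fun z => (![Complex.exp (φ z), g₀ z] : Fin 2 → ℂ)) z := by
      rw [continuousAt_pi]
      intro i
      fin_cases i
      · exact (Complex.continuous_exp.comp hφ).continuousAt
      · exact (hg₀.differentiableAt (isOpen_ball.mem_nhds hz)).continuousAt
    exact (MvPolynomial.continuous_eval Φ).continuousAt.comp h1
  have : (𝓝[Og φ B₁] z).NeBot := mem_closure_iff_nhdsWithin_neBot.1 (hd z)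
  have h2 : ∀ᶠ w in 𝓝[Og φ B₁] z, eval ![Complex.exp (φ w), g₀ w] Φ = 0 := by
    filter_upwards [self_mem_nhdsWithin, nhdsWithin_le_nhds (isOpen_ball.mem_nhds hz)] with w hw1 hw2
    exact h w hw2 hw1
  exact tendsto_nhds_unique (hcont.tendsto.mono_left nhdsWithin_le_nhds) (tendsto_const_nhds.congr' (h2.mono fun w hw => hw.symm))

/-- **Transfer** of a relation from the half plane. -/
theorem transfer {φ G : ℂ → ℂ} (hφ : Differentiable ℂ φ) {B₁ : Set ℂ} (hB : B₁.Finite) (hG : DifferentiableOn ℂ G (Og φ B₁))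
    (hc : IsPreconnected (Og φ B₁)) {ρ : ℝ} {ψ : ℂ → ℂ} (hψ : DifferentiableOn ℂ ψ (HP 1 ρ)) (hinv : ∀ ζ ∈ HP 1 ρ, φ (ψ ζ) = ζ)
    (Φ : MvPolynomial (Fin 2) ℂ) {ζ₀ : ℂ} (hζ₀ : ζ₀ ∈ HP 1 ρ) (hζ₀B : ζ₀ ∉ Bp B₁)
    (h : ∀ ζ ∈ HP 1 ρ, ζ ∉ Bp B₁ → eval ![Complex.exp ζ, G (ψ ζ)] Φ = 0) :
    ∀ z ∈ Og φ B₁, eval ![Complex.exp (φ z), G z] Φ = 0 := by
  set T : ℂ → ℂ := fun z => eval ![Complex.exp (φ z), G z] Φ with hT
  have hΩ := isOpen_Og hφ.continuous hB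
  have hTa : AnalyticOnNhd ℂ T (Og φ B₁) := by
    intro z hz
    have h1 : AnalyticAt ℂ (fun z => (![Complex.exp (φ z), G z] : Fin 2 → ℂ)) z := by
      rw [analyticAt_pi_iff]
      intro i
      fin_cases i
      · exact (Complex.differentiable_exp.comp hφ).analyticAt z
      · exact hG.analyticAt (hΩ.mem_nhds hz)
    have h2 : AnalyticAt ℂ (fun v : Fin 2 → ℂ => eval v Φ) (![Complex.exp (φ z), G z] : Fin 2 → ℂ) := by
      have h3 := AnalyticOnNhd.eval_mvPolynomial (𝕜 := ℂ) Φ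
      exact h3 _ (Set.mem_univ _)
    exact AnalyticAt.comp (g := fun v : Fin 2 → ℂ => eval v Φ) (f := fun z => (![Complex.exp (φ z), G z] : Fin 2 → ℂ)) h2 h1
  set z₁ : ℂ := ψ ζ₀ with hz₁
  have hφz₁ : φ z₁ = ζ₀ := hinv ζ₀ hζ₀
  have hz₁Ω : z₁ ∈ Og φ B₁ := by
    show Complex.exp (φ z₁) ∉ B₁
    rw [hφz₁]
    exact hζ₀B
  rcases (hTa z₁ hz₁Ω).eventually_eq_zero_or_eventually_ne_zero with h1 | h1
  · intro z hz
    exact hTa.eqOn_zero_of_preconnected_of_eventuallyEq_zero hc hz₁Ω h1 hz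
  · exfalso
    have hψc : ContinuousAt ψ ζ₀ := (hψ.differentiableAt ((isOpen_HP1 ρ).mem_nhds hζ₀)).continuousAt
    have h2 : Tendsto ψ (𝓝[≠] ζ₀) (𝓝[≠] z₁) := by
      refine tendsto_nhdsWithin_iff.2 ⟨hψc.tendsto.mono_left nhdsWithin_le_nhds, ?_⟩
      filter_upwards [self_mem_nhdsWithin, nhdsWithin_le_nhds ((isOpen_HP1 ρ).mem_nhds hζ₀)] with ζ h3 h4 h5
      apply h3
      have h6 : ψ ζ = z₁ := h5
      show ζ = ζ₀
      rw [← hinv ζ h4, h6, hφz₁]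
    have h3 : ∀ᶠ ζ in 𝓝[≠] ζ₀, T (ψ ζ) ≠ 0 := h2.eventually h1
    have hBo : IsOpen (Bp B₁)ᶜ := hB.isClosed.isOpen_compl.preimage Complex.continuous_exp
    have h4 : ∀ᶠ ζ in 𝓝[≠] ζ₀, ζ ∈ HP 1 ρ := nhdsWithin_le_nhds ((isOpen_HP1 ρ).mem_nhds hζ₀)
    have h5 : ∀ᶠ ζ in 𝓝[≠] ζ₀, ζ ∉ Bp B₁ := nhdsWithin_le_nhds (hBo.mem_nhds hζ₀B)
    obtain ⟨ζ, h6, h7, h8⟩ := (h3.and (h4.and h5)).exists
    apply h6
    show eval ![Complex.exp (φ (ψ ζ)), G (ψ ζ)] Φ = 0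
    rw [hinv ζ h7]
    exact h ζ h7 h8

/-- there are good points in a half plane -/
theorem exists_good {B₁ : Set ℂ} (hB : B₁.Finite) (ρ : ℝ) : ∃ ζ₀ ∈ HP 1 ρ, ζ₀ ∉ Bp B₁ := by
  have h1 : Dense (Bp B₁)ᶜ := dense_of_countable (countable_bad hB)
  obtain ⟨ζ, h2, h3⟩ := h1.inter_open_nonempty (HP 1 ρ) (isOpen_HP1 ρ) ⟨((ρ + 1 : ℝ) : ℂ) * Complex.I, by
    show ρ < 1 * (((ρ + 1 : ℝ) : ℂ) * Complex.I).im
    rw [Complex.im_ofReal_mul, Complex.I_im]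
    linarith⟩
  exact ⟨ζ, h2, h3⟩

/-- composition with the branch: the part of `Tm` off `B` -/
theorem branch_mem {φ G : ℂ → ℂ} (hφ : Continuous φ) {B₁ : Set ℂ} (hB : B₁.Finite) (hG : DifferentiableOn ℂ G (Og φ B₁)) (hO : Om G (Og φ B₁)) {ρ : ℝ} {ψ : ℂ → ℂ}
    (hψ : DifferentiableOn ℂ ψ (HP 1 ρ)) (hinv : ∀ ζ ∈ HP 1 ρ, φ (ψ ζ) = ζ) :
    (∀ ζ ∈ HP 1 ρ, MeromorphicAt (fun ζ => G (ψ ζ)) ζ) ∧ ∀ ζ ∈ HP 1 ρ, ζ ∉ Bp B₁ → AnalyticAt ℂ (fun ζ => G (ψ ζ)) ζ ∧ G (ψ ζ) ≠ 0 ∧ G (ψ ζ) ≠ 1 := by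
  have hΩ := isOpen_Og hφ hB
  have hmem : ∀ ζ ∈ HP 1 ρ, ζ ∉ Bp B₁ → ψ ζ ∈ Og φ B₁ := by
    intro ζ h1 h2
    show Complex.exp (φ (ψ ζ)) ∉ B₁
    rw [hinv ζ h1]
    exact h2
  have hgood : ∀ ζ ∈ HP 1 ρ, ζ ∉ Bp B₁ → AnalyticAt ℂ (fun ζ => G (ψ ζ)) ζ ∧ G (ψ ζ) ≠ 0 ∧ G (ψ ζ) ≠ 1 := by
    intro ζ h1 h2
    refine ⟨?_, hO _ (hmem ζ h1 h2)⟩
    exact AnalyticAt.comp (g := G) (f := ψ) (hG.analyticAt (hΩ.mem_nhds (hmem ζ h1 h2))) (hψ.analyticAt ((isOpen_HP1 ρ).mem_nhds h1))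
  refine ⟨?_, hgood⟩
  intro ζ h1
  by_cases h2 : ζ ∈ Bp B₁
  · obtain ⟨δ, hδ, -, hsep⟩ := exists_sep hB
    obtain ⟨s, hs, hsub⟩ := Metric.isOpen_iff.1 (isOpen_HP1 ρ) ζ h1
    have hball : ∀ w ∈ ball ζ (min s δ) \ {ζ}, w ∈ HP 1 ρ ∧ w ∉ Bp B₁ := by
      intro w hw
      refine ⟨hsub (ball_subset_ball (min_le_left _ _) hw.1), fun h3 => ?_⟩
      have h4 := hsep w ζ h3 h2 hw.2
      have h5 := hw.1
      rw [mem_ball_iff_norm] at h5
      have h6 := min_le_right s δ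
      linarith
    refine picard schottky (r := min s δ) (lt_min hs hδ) ?_ ?_
    · intro w hw
      obtain ⟨h3, h4⟩ := hball w hw
      exact ((hgood w h3 h4).1.differentiableAt).differentiableWithinAt
    · intro w hw
      obtain ⟨h3, h4⟩ := hball w hw
      exact (hgood w h3 h4).2
  · exact (hgood ζ h1 h2).1.meromorphicAt

/-- **Bad constants.** -/
theorem const_case {B₀ : Set ℂ} (hB : B₀.Finite) {K : (ℂ → ℂ) → (ℂ → ℂ) → ℂ → Prop} (hK : ∀ ψ g g' z, g =ᶠ[𝓝[≠] z] g' → K ψ g z → K ψ g' z)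
    (hO : ∀ ψ g z, K ψ g z → OmitsAt B₀ ψ g z) {φ g₀ : ℂ → ℂ} {z₀ : ℂ} {r : ℝ} (hr : 0 < r) (hg₀ : DifferentiableOn ℂ g₀ (ball z₀ r))
    (h : Approx K φ g₀ z₀ r) {c : ℂ} (hc : Complex.exp c ∉ B₀) (hφ : ∀ z, φ z = c) : ∀ z ∈ ball z₀ r, g₀ z = g₀ z₀ := by
  obtain ⟨ψ, g, hL⟩ := exists_limS hK h
  have hφ' : φ = fun _ => c := funext hφ
  have huniv : {z : ℂ | Complex.exp (φ z) ∉ B₀} = Set.univ := by
    rw [hφ']
    exact Set.eq_univ_of_forall fun _ => hc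
  have hcont : Continuous φ := by
    rw [hφ']
    exact continuous_const
  obtain ⟨G, hG, -, hGg, hcase⟩ := hL.exists_G schottky hB hO hcont hr hg₀ (by rw [huniv]; exact isPreconnected_univ)
    (by rw [huniv]; exact dense_univ)
  have hmem : ∀ z : ℂ, Complex.exp (φ z) ∉ B₀ := by
    intro z
    rw [hφ z]
    exact hc
  have hconst : ∀ z w : ℂ, G z = G w := by
    rcases hcase with h1 | h1 | h1
    · refine little_picard ?_ (fun z => h1 z (hmem z))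
      rw [huniv] at hG
      exact differentiableOn_univ.1 hG
    · intro z w
      rw [h1 z (hmem z), h1 w (hmem w)]
    · intro z w
      rw [h1 z (hmem z), h1 w (hmem w)]
  intro z hz
  rw [← hGg z hz (hmem z), ← hGg z₀ (mem_ball_self hr) (hmem z₀)]
  exact hconst z z₀

end Pool.Agent.H41.LR

end
end

section

/-!
# LR Val: the values of the limits over the special point (case (I))
-/

set_option autoImplicit false

open Topology Filter Metric MvPolynomial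

noncomputable section

namespace Pool.Agent.H41.LR

attribute [-instance] ProperSMul.toContinuousSMul

open Pool.Agent.H62.LR (BaseD Tm)
open Pool.Agent.H87.LU (HP)
open Pool.Agent.H46.LR (OmitsAt OmitsSecAt FinAt Approx Algebraic MainN MainI)

theorem tlu_of_jc {𝒰 : Ultrafilter ℕ} {F : ℕ → ℂ → ℂ} {f : ℂ → ℂ} {Ω : Set ℂ} (hΩ : IsOpen Ω) (hf : ContinuousOn f Ω) (h : ∀ x ∈ Ω, Jc 𝒰 F f x) :
    TendstoLocallyUniformlyOn F f (𝒰 : Filter ℕ) Ω := by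
  rw [Metric.tendstoLocallyUniformlyOn_iff]
  intro ε hε x hx
  have h1 : ∀ᶠ q : ℕ × ℂ in (𝒰 : Filter ℕ) ×ˢ 𝓝 x, dist (F q.1 q.2) (f x) < ε / 2 := (h x hx).eventually (ball_mem_nhds _ (half_pos hε))
  have h2 : ∀ᶠ y in 𝓝 x, dist (f y) (f x) < ε / 2 := (hf.continuousAt (hΩ.mem_nhds hx)).eventually (ball_mem_nhds _ (half_pos hε))
  obtain ⟨pa, ha, pb, hb, h3⟩ := eventually_prod_iff.1 h1
  refine ⟨{y | pb y ∧ dist (f y) (f x) < ε / 2}, mem_nhdsWithin_of_mem_nhds (hb.and h2), ?_⟩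
  filter_upwards [ha] with n hn y hy
  have h4 := h3 hn hy.1
  rw [dist_comm] at h4
  calc dist (f y) (F n y) ≤ dist (f y) (f x) + dist (f x) (F n y) := dist_triangle _ _ _
    _ < ε / 2 + ε / 2 := add_lt_add hy.2 h4
    _ = ε := add_halves ε

theorem ex_finset {α : Type} {𝒰 : Ultrafilter ℕ} {S : Finset α} {P : α → ℕ → Prop} (h : ∀ᶠ n in (𝒰 : Filter ℕ), ∃ t ∈ S, P t n) :
    ∃ t ∈ S, ∀ᶠ n in (𝒰 : Filter ℕ), P t n := by
  have h2 : {n | ∃ t ∈ S, P t n} ∈ (𝒰 : Filter ℕ) := h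
  have h3 : {n | ∃ t ∈ S, P t n} = ⋃ t ∈ (S : Set α), {n | P t n} := by
    ext n
    simp only [Set.mem_iUnion, Set.mem_setOf_eq, exists_prop, Finset.mem_coe]
  rw [h3] at h2
  obtain ⟨t, ht, h4⟩ := (Ultrafilter.finite_biUnion_mem_iff S.finite_toSet).1 h2
  exact ⟨t, ht, h4⟩

/-- the value of the limit at the centre -/
theorem val_lim {𝒰 : Ultrafilter ℕ} {k : ℕ → ℂ → ℂ} {G : ℂ → ℂ} {z' : ℂ} {s : ℝ} (hs : 0 < s) (hG : DifferentiableOn ℂ G (ball z' s \ {z'}))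
    (hk : ∀ᶠ n in (𝒰 : Filter ℕ), DifferentiableOn ℂ (k n) (ball z' s)) (hJ : ∀ x ∈ ball z' s \ {z'}, Jc 𝒰 k G x) {z : ℕ → ℂ}
    (hz : Tendsto z 𝒰 (𝓝 z')) {a : ℂ} (ha : ∀ᶠ n in (𝒰 : Filter ℕ), k n (z n) = a) : Tendsto G (𝓝[≠] z') (𝓝 a) := by
  have hΩ : IsOpen (ball z' s \ {z'}) := isOpen_ball.sdiff isClosed_singleton
  have hs2 : 0 < s / 2 := half_pos hs
  have hsph : sphere z' (s / 2) ⊆ ball z' s \ {z'} := by
    intro w hw
    rw [mem_sphere_iff_norm] at hw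
    refine ⟨by rw [mem_ball_iff_norm]; linarith, fun h => ?_⟩
    rw [Set.mem_singleton_iff] at h
    rw [h, sub_self, norm_zero] at hw
    linarith
  have htlu := tlu_of_jc hΩ hG.continuousOn hJ
  have hunif : TendstoUniformlyOn k G (𝒰 : Filter ℕ) (sphere z' (s / 2)) :=
    (tendstoLocallyUniformlyOn_iff_forall_isCompact hΩ).1 htlu _ hsph (isCompact_sphere _ _)
  obtain ⟨M, hM⟩ := (isCompact_sphere z' (s / 2)).exists_bound_of_continuousOn (hG.continuousOn.mono hsph)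
  have hbd : ∀ᶠ n in (𝒰 : Filter ℕ), ∀ w ∈ ball z' (s / 2), ‖k n w‖ ≤ M + 1 := by
    filter_upwards [(Metric.tendstoUniformlyOn_iff.1 hunif) 1 one_pos, hk] with n hn1 hn2 w hw
    have h1 : DiffContOnCl ℂ (k n) (ball z' (s / 2)) := by
      refine DifferentiableOn.diffContOnCl (hn2.mono ?_)
      rw [closure_ball z' hs2.ne']
      exact closedBall_subset_ball (by linarith)
    refine Complex.norm_le_of_forall_mem_frontier_norm_le isBounded_ball h1 ?_ (subset_closure hw)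
    intro x hx
    rw [frontier_ball z' hs2.ne'] at hx
    have h2 := hn1 x hx
    have h3 := hM x hx
    rw [dist_eq_norm, norm_sub_rev] at h2
    have h5 := norm_add_le (k n x - G x) (G x)
    rw [sub_add_cancel] at h5
    linarith
  have hsub : ball z' (s / 2) ⊆ ball z' s := ball_subset_ball (by linarith)
  obtain ⟨H, hH, hlim⟩ := Pool.Agent.H17.montel_ultrafilter 𝒰 (F := k) (a := z') (r := s / 2) (B := M + 1) (hk.mono fun n hn => hn.mono hsub) hbd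
  have hHG : ∀ w ∈ ball z' (s / 2), w ≠ z' → H w = G w := fun w hw hne =>
    tendsto_nhds_unique (hlim.tendsto_at hw) (hJ w ⟨hsub hw, hne⟩).at
  have hHc : ContinuousAt H z' := (hH.differentiableAt (ball_mem_nhds z' hs2)).continuousAt
  have hHa : H z' = a := by
    have h1 : Tendsto (fun n => k n (z n)) (𝒰 : Filter ℕ) (𝓝 (H z')) := by
      refine hlim.tendsto_comp hHc.continuousWithinAt (mem_ball_self hs2) ?_
      rw [isOpen_ball.nhdsWithin_eq (mem_ball_self hs2)]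
      exact hz
    exact tendsto_nhds_unique h1 (tendsto_const_nhds.congr' (ha.mono fun n hn => hn.symm))
  rw [← hHa]
  refine (hHc.tendsto.mono_left nhdsWithin_le_nhds).congr' ?_
  filter_upwards [self_mem_nhdsWithin, nhdsWithin_le_nhds (ball_mem_nhds z' hs2)] with w h1 h2
  exact hHG w h2 h1

/-- holomorphic functions close to a function with nonzero derivative are injective near the point -/
theorem inj_near {𝒰 : Ultrafilter ℕ} {h : ℕ → ℂ → ℂ} {h' : ℂ → ℂ} {z' : ℂ} (hh' : Differentiable ℂ h') (hd : deriv h' z' ≠ 0)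
    (hh : ∀ᶠ n in (𝒰 : Filter ℕ), DifferentiableOn ℂ (h n) (ball z' 1)) (hJ : ∀ x ∈ ball z' 1, Jc 𝒰 h h' x) :
    ∃ s : ℝ, 0 < s ∧ s ≤ 1 ∧ ∀ᶠ n in (𝒰 : Filter ℕ), Set.InjOn (h n) (ball z' s) := by
  have htlu := tlu_of_jc isOpen_ball hh'.continuous.continuousOn hJ
  have hder := htlu.deriv hh isOpen_ball
  have hdc : Continuous (deriv h') := (hh'.contDiff (n := 1)).continuous_deriv le_rfl
  have hJd : Jc 𝒰 (fun n => deriv (h n)) (deriv h') z' := jc_of_tlu isOpen_ball hdc.continuousOn hder (mem_ball_self one_pos)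
  set m : ℝ := ‖deriv h' z'‖ with hm
  have hm0 : 0 < m := norm_pos_iff.2 hd
  have h1 : ∀ᶠ q : ℕ × ℂ in (𝒰 : Filter ℕ) ×ˢ 𝓝 z', ‖deriv (h q.1) q.2 - deriv h' z'‖ < m / 2 := by
    have h2 := hJd.eventually (ball_mem_nhds _ (half_pos hm0))
    exact h2.mono fun q hq => by
      rw [← dist_eq_norm]
      exact hq
  obtain ⟨s, hs, h2⟩ := exists_ball (𝒰 := 𝒰) (P := fun n y => ‖deriv (h n) y - deriv h' z'‖ < m / 2) (x := z') h1
  refine ⟨min s 1, lt_min hs one_pos, min_le_right _ _, ?_⟩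
  filter_upwards [h2, hh] with n hn1 hn2
  intro x hx y hy hxy
  by_contra hne
  have hsub : ball z' (min s 1) ⊆ ball z' 1 := ball_subset_ball (min_le_right _ _)
  have h3 : ∀ w ∈ ball z' (min s 1), HasDerivWithinAt (fun w => h n w - deriv h' z' * w) (deriv (h n) w - deriv h' z') (ball z' (min s 1)) w := by
    intro w hw
    have h4 := ((hn2.differentiableAt (isOpen_ball.mem_nhds (hsub hw))).hasDerivAt).sub ((hasDerivAt_id w).const_mul (deriv h' z'))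
    rw [mul_one] at h4
    exact h4.hasDerivWithinAt
  have h5 := (convex_ball z' (min s 1)).norm_image_sub_le_of_norm_hasDerivWithin_le (C := m / 2) h3
    (fun w hw => (hn1 w (ball_subset_ball (min_le_left _ _) hw)).le) hx hy
  have h6 : h n y - deriv h' z' * y - (h n x - deriv h' z' * x) = deriv h' z' * (x - y) := by
    rw [hxy]
    ring
  rw [h6, norm_mul, ← hm, norm_sub_rev x y] at h5
  have h7 : 0 < ‖y - x‖ := norm_pos_iff.2 (sub_ne_zero.2 (Ne.symm hne))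
  nlinarith

/-- the property of the pairs -/
def KI (B₀ : Set ℂ) (c : ℂ) (S : Finset (ℂ × ℂ)) (ψ g : ℂ → ℂ) (z : ℂ) : Prop := OmitsAt B₀ ψ g z ∧ FinAt c S ψ g z

theorem KI_congr {B₀ : Set ℂ} {c : ℂ} {S : Finset (ℂ × ℂ)} (ψ g g' : ℂ → ℂ) (z : ℂ) (he : g =ᶠ[𝓝[≠] z] g') (h : KI B₀ c S ψ g z) : KI B₀ c S ψ g' z := by
  obtain ⟨h1, h2⟩ := h
  refine ⟨fun h3 => ?_, fun h3 => ?_⟩
  · obtain ⟨w, hw0, hw1, hw⟩ := h1 h3
    exact ⟨w, hw0, hw1, hw.congr' he⟩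
  · obtain ⟨s, hs, h4 | h4⟩ := h2 h3
    · exact ⟨s, hs, Or.inl ⟨h4.1, h4.2.congr' he⟩⟩
    · exact ⟨s, hs, Or.inr ⟨h4.1, h4.2.congr' he⟩⟩

/-- **The value over the special point.** -/
theorem val_I {B₀ B₁ : Set ℂ} (hB : B₁.Finite) (hsub : B₀ ⊆ B₁) {c : ℂ} (hcB : c ∈ B₁) {S : Finset (ℂ × ℂ)} {𝒰 : Ultrafilter ℕ} {φ g₀ : ℂ → ℂ} {z₀ : ℂ} {r : ℝ}
    {ψ g : ℕ → ℂ → ℂ} (hL : LimS 𝒰 (KI B₀ c S) φ g₀ z₀ r ψ g) (hφ : Differentiable ℂ φ) {G : ℂ → ℂ} (hG : DifferentiableOn ℂ G (Og φ B₁))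
    (hO : Om G (Og φ B₁)) (hGJ : ∀ x ∈ Og φ B₁, Jc 𝒰 g G x) {z' : ℂ} (hz' : Complex.exp (φ z') = c) (hd : deriv φ z' ≠ 0) :
    (∃ s ∈ S, s.2 ≠ 0 ∧ Tendsto G (𝓝[≠] z') (𝓝 (s.1 / s.2))) ∨ Tendsto (fun z => (G z)⁻¹) (𝓝[≠] z') (𝓝 0) := by
  -- the functions `exp ∘ ψ n`
  have hEd : Differentiable ℂ (fun z => Complex.exp (φ z)) := Complex.differentiable_exp.comp hφ
  have hEder : deriv (fun z => Complex.exp (φ z)) z' ≠ 0 := by
    rw [((hφ z').hasDerivAt.cexp).deriv]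
    exact mul_ne_zero (Complex.exp_ne_zero _) hd
  have hR : ball z' 1 ⊆ ball (0 : ℂ) (‖z'‖ + 1) := by
    refine ball_subset_ball' ?_
    rw [dist_zero_right]
    linarith
  have hEn : ∀ᶠ n in (𝒰 : Filter ℕ), DifferentiableOn ℂ (fun z => Complex.exp (ψ n z)) (ball z' 1) := by
    filter_upwards [hL.diff (‖z'‖ + 1)] with n hn
    exact (hn.mono hR).cexp
  have hEJ : ∀ x ∈ ball z' 1, Jc 𝒰 (fun n z => Complex.exp (ψ n z)) (fun z => Complex.exp (φ z)) x := fun x _ => hL.jc_exp hφ.continuous x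
  obtain ⟨s₁, hs₁, hs₁1, hinj⟩ := inj_near hEd hEder hEn hEJ
  -- near the point the only bad value is `c`
  have hbad : ∀ᶠ q : ℕ × ℂ in (𝒰 : Filter ℕ) ×ˢ 𝓝 z', Complex.exp (ψ q.1 q.2) ∉ B₁ \ {c} := by
    refine (hL.jc_exp hφ.continuous z').eventually ((hB.subset Set.sdiff_subset).isClosed.isOpen_compl.mem_nhds ?_)
    show Complex.exp (φ z') ∉ B₁ \ {c}
    rw [hz']
    exact fun h => h.2 rfl
  obtain ⟨s₂, hs₂, hbad'⟩ := exists_ball (𝒰 := 𝒰) (P := fun n y => Complex.exp (ψ n y) ∉ B₁ \ {c}) (x := z') hbad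
  have hiso : ∃ s₃ : ℝ, 0 < s₃ ∧ ∀ w ∈ ball z' s₃ \ {z'}, w ∈ Og φ B₁ := by
    have h1 : ∀ᶠ w in 𝓝[≠] z', Complex.exp (φ w) ≠ c := by
      have h2 := (hEd z').hasDerivAt.eventually_ne (c := c) hEder
      exact h2
    have h3 : ∀ᶠ w in 𝓝[≠] z', Complex.exp (φ w) ∉ B₁ \ {c} := by
      refine nhdsWithin_le_nhds (hEd.continuous.continuousAt.eventually ((hB.subset Set.sdiff_subset).isClosed.isOpen_compl.mem_nhds ?_))
      show Complex.exp (φ z') ∉ B₁ \ {c}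
      rw [hz']
      exact fun h => h.2 rfl
    obtain ⟨s₃, hs₃, h4⟩ := Metric.mem_nhdsWithin_iff.1 (h1.and h3)
    refine ⟨s₃, hs₃, fun w hw h5 => ?_⟩
    have h6 := h4 ⟨hw.1, hw.2⟩
    exact h6.2 ⟨h5, h6.1⟩
  obtain ⟨s₃, hs₃, hiso⟩ := hiso
  set s : ℝ := min (min s₁ s₂) s₃ with hs
  have hs0 : 0 < s := lt_min (lt_min hs₁ hs₂) hs₃
  have hss₁ : ball z' s ⊆ ball z' s₁ := ball_subset_ball ((min_le_left _ _).trans (min_le_left _ _))
  have hss₂ : ball z' s ⊆ ball z' s₂ := ball_subset_ball ((min_le_left _ _).trans (min_le_right _ _))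
  have hss₃ : ball z' s ⊆ ball z' s₃ := ball_subset_ball (min_le_right _ _)
  have hsR : ball z' s ⊆ ball (0 : ℂ) (‖z'‖ + 1) := (hss₁.trans (ball_subset_ball hs₁1)).trans hR
  have hpun : ∀ w ∈ ball z' s \ {z'}, w ∈ Og φ B₁ := fun w hw => hiso w ⟨hss₃ hw.1, hw.2⟩
  -- zeros of `exp ∘ ψ n - c` near `z'`
  have hzero : ∀ t : ℝ, 0 < t → ∀ᶠ n in (𝒰 : Filter ℕ), ∃ w ∈ ball z' t, Complex.exp (ψ n w) = c := by
    intro t ht
    by_contra hcon
    rw [← Ultrafilter.eventually_not] at hcon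
    have hEvD : EvD 𝒰 (fun n z => Complex.exp (ψ n z) - c) (ball z' s) := by
      intro x hx
      by_cases hxz : x = z'
      · refine ⟨min t s, lt_min ht hs0, ?_⟩
        filter_upwards [hcon, hEn] with n hn1 hn2
        rw [hxz]
        refine ⟨(hn2.mono ((ball_subset_ball (min_le_right _ _)).trans (hss₁.trans (ball_subset_ball hs₁1)))).sub_const c, fun w hw h1 => hn1 ?_⟩
        exact ⟨w, ball_subset_ball (min_le_left _ _) hw, sub_eq_zero.1 h1⟩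
      · have h1 : ∀ᶠ q : ℕ × ℂ in (𝒰 : Filter ℕ) ×ˢ 𝓝 x, Complex.exp (ψ q.1 q.2) ≠ c := by
          refine (hL.jc_exp hφ.continuous x).eventually (isOpen_ne.mem_nhds ?_)
          intro h2
          have h3 : Complex.exp (φ x) = c := h2
          apply hpun x ⟨hx, hxz⟩
          rw [h3]
          exact hcB
        obtain ⟨u, hu, h2⟩ := exists_ball (𝒰 := 𝒰) (P := fun n y => Complex.exp (ψ n y) ≠ c) (x := x) h1
        obtain ⟨v, hv, hvs⟩ := Metric.isOpen_iff.1 isOpen_ball x hx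
        refine ⟨min u v, lt_min hu hv, ?_⟩
        filter_upwards [h2, hEn] with n hn1 hn2
        refine ⟨(hn2.mono (((ball_subset_ball (min_le_right _ _)).trans hvs).trans (hss₁.trans (ball_subset_ball hs₁1)))).sub_const c, fun w hw h3 => ?_⟩
        exact hn1 w (ball_subset_ball (min_le_left _ _) hw) (sub_eq_zero.1 h3)
    have hJc : ∀ x ∈ ball z' s, Jc 𝒰 (fun n z => Complex.exp (ψ n z) - c) (fun z => Complex.exp (φ z) - c) x := fun x _ =>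
      Tendsto.sub_const (hL.jc_exp hφ.continuous x) c
    rcases hurJ isOpen_ball (convex_ball z' s).isPreconnected (hEd.sub_const c).differentiableOn hJc hEvD with h1 | h1
    · -- a second point
      have h2 : z' + ((s / 2 : ℝ) : ℂ) ∈ ball z' s \ {z'} := by
        have h3 : ‖z' + ((s / 2 : ℝ) : ℂ) - z'‖ = s / 2 := by
          rw [add_sub_cancel_left, Complex.norm_real, Real.norm_eq_abs, abs_of_pos (half_pos hs0)]
        refine ⟨by rw [mem_ball_iff_norm, h3]; linarith, fun h4 => ?_⟩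
        rw [Set.mem_singleton_iff] at h4
        rw [h4, sub_self, norm_zero] at h3
        linarith
      apply hpun _ h2
      have h3 := h1 _ h2.1
      show Complex.exp (φ _) ∈ B₁
      rw [sub_eq_zero.1 h3]
      exact hcB
    · exact h1 z' (mem_ball_self hs0) (by rw [hz', sub_self])
  classical
  -- the zeros
  set z : ℕ → ℂ := fun n => if h : ∃ w ∈ ball z' s, Complex.exp (ψ n w) = c then h.choose else z' with hzdef
  have hz1 : ∀ᶠ n in (𝒰 : Filter ℕ), z n ∈ ball z' s ∧ Complex.exp (ψ n (z n)) = c := by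
    filter_upwards [hzero s hs0] with n hn
    have h1 : z n = hn.choose := dif_pos hn
    rw [h1]
    exact hn.choose_spec
  have hzt : Tendsto z 𝒰 (𝓝 z') := by
    rw [Metric.tendsto_nhds]
    intro ε hε
    filter_upwards [hzero (min ε s) (lt_min hε hs0), hz1, hinj] with n hn1 hn2 hn3
    obtain ⟨w, hw, hwc⟩ := hn1
    have h1 : z n = w := hn3 (hss₁ hn2.1) (hss₁ (ball_subset_ball (min_le_right _ _) hw)) (by
      show Complex.exp (ψ n (z n)) = Complex.exp (ψ n w)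
      rw [hn2.2, hwc])
    rw [h1]
    exact ball_subset_ball (min_le_left _ _) hw
  -- off `z n` the function `g n` is good
  have hgood : ∀ᶠ n in (𝒰 : Filter ℕ), ∀ w ∈ ball z' s, w ≠ z n → AnalyticAt ℂ (g n) w ∧ g n w ≠ 0 := by
    filter_upwards [hz1, hinj, hbad', hL.nf (‖z'‖ + 1), hL.prop (‖z'‖ + 1)] with n hn1 hn2 hn3 hn4 hn5 w hw hwz
    have h1 : Complex.exp (ψ n w) ∉ B₁ := by
      intro h2
      apply hwz
      refine hn2 (hss₁ hw) (hss₁ hn1.1) ?_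
      show Complex.exp (ψ n w) = Complex.exp (ψ n (z n))
      rw [hn1.2]
      by_contra h3
      exact hn3 w (hss₂ hw) ⟨h2, h3⟩
    obtain ⟨v, hv0, hv1, hv⟩ := (hn5 w (hsR hw)).1 (fun h2 => h1 (hsub h2))
    obtain ⟨h5, h6⟩ := nf_value (hn4 w (hsR hw)) hv
    rw [h6]
    exact ⟨h5, hv0⟩
  -- the value at `z n`
  have hval : ∀ᶠ n in (𝒰 : Filter ℕ), ∃ t ∈ S, (t.2 ≠ 0 ∧ AnalyticAt ℂ (g n) (z n) ∧ g n (z n) = t.1 / t.2) ∨
      (AnalyticAt ℂ (fun x => (g n x)⁻¹) (z n) ∧ (g n (z n))⁻¹ = 0) := by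
    filter_upwards [hz1, hL.nf (‖z'‖ + 1), hL.prop (‖z'‖ + 1)] with n hn1 hn4 hn5
    obtain ⟨t, ht, h1 | h1⟩ := (hn5 _ (hsR hn1.1)).2 hn1.2
    · exact ⟨t, ht, Or.inl ⟨h1.1, nf_value (hn4 _ (hsR hn1.1)) h1.2⟩⟩
    · exact ⟨t, ht, Or.inr (nf_pole (hn4 _ (hsR hn1.1)) h1.2)⟩
  by_cases hcase : ∀ᶠ n in (𝒰 : Filter ℕ), ∃ t ∈ S, t.2 ≠ 0 ∧ AnalyticAt ℂ (g n) (z n) ∧ g n (z n) = t.1 / t.2
  · left
    -- one `t` for most `n`
    obtain ⟨t, ht, h1⟩ := ex_finset hcase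
    obtain ⟨n₀, hn₀⟩ := h1.exists
    refine ⟨t, ht, hn₀.1, ?_⟩
    refine val_lim hs0 (hG.mono hpun) ?_ (fun x hx => hGJ x (hpun x hx)) hzt (h1.mono fun n hn => hn.2.2)
    filter_upwards [hgood, h1] with n hn1 hn2 w hw
    by_cases hwz : w = z n
    · rw [hwz]
      exact hn2.2.1.differentiableAt.differentiableWithinAt
    · exact (hn1 w hw hwz).1.differentiableAt.differentiableWithinAt
  · right
    rw [← Ultrafilter.eventually_not] at hcase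
    refine val_lim (k := fun n x => (g n x)⁻¹) hs0 ((hO.diff_inv hG).mono hpun) ?_ ?_ hzt (a := 0) ?_
    · filter_upwards [hgood, hcase, hval] with n hn1 hn2 hn3 w hw
      obtain ⟨t, ht, h1 | h1⟩ := hn3
      · exact absurd ⟨t, ht, h1⟩ hn2
      · by_cases hwz : w = z n
        · rw [hwz]
          exact h1.1.differentiableAt.differentiableWithinAt
        · exact ((hn1 w hw hwz).1.inv (hn1 w hw hwz).2).differentiableAt.differentiableWithinAt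
    · intro x hx
      exact Tendsto.inv₀ (hGJ x (hpun x hx)) (hO x (hpun x hx)).1
    · filter_upwards [hcase, hval] with n hn2 hn3
      obtain ⟨t, ht, h1 | h1⟩ := hn3
      · exact absurd ⟨t, ht, h1⟩ hn2
      · exact h1.2

end Pool.Agent.H41.LR

end
end
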