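import Pool.Agent.H94.CB.M186

/-! The parts of this file: H87.JZ.JZero, H87.LU.Sep, H87.LU.Near, H87.LU.ZeroUp, H87.LU.Ker, H87.LU.Half. -/

section

/-!
# JZero: a holomorphic function on a half plane which is exponentially small on the boundary line is zero

`jzero_right`: `f` on `{Re z ≥ 0}`, of order `< 2`, at most exponential on the positive real axis, `‖f (i x)‖ ≤ C exp (-a |x|)`.  Multiply by `exp (-β (z + 1) log (z + 1))`, `β = 2 a / π`: the modulus is at most `exp (a |Im z|)` on the half plane, and it decays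
super-exponentially on the positive real axis; apply `PhragmenLindelof.eq_zero_on_right_half_plane_of_superexponential_decay`.
`jzero_up`: the same on the half plane `{Im z ≥ ρ}`.
-/

set_option autoImplicit false

open Topology Filter Metric Complex Asymptotics Bornology

namespace Pool.Agent.H87.JZ

attribute [-instance] ProperSMul.toContinuousSMul

/-- the multiplier -/
private noncomputable def E (β : ℝ) (z : ℂ) : ℂ := Complex.exp (-(β : ℂ) * ((z + 1) * Complex.log (z + 1)))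

private theorem re_mul_log {z : ℂ} : ((z + 1) * Complex.log (z + 1)).re = (z.re + 1) * Real.log ‖z + 1‖ - z.im * Complex.arg (z + 1) := by
  rw [Complex.mul_re, Complex.log_re, Complex.log_im]
  simp

private theorem norm_E (β : ℝ) (z : ℂ) : ‖E β z‖ = Real.exp (-β * ((z.re + 1) * Real.log ‖z + 1‖ - z.im * Complex.arg (z + 1))) := by
  unfold E
  rw [Complex.norm_exp]
  congr 1
  rw [← re_mul_log]
  have : (-(β : ℂ) * ((z + 1) * Complex.log (z + 1))) = ((-β : ℝ) : ℂ) * ((z + 1) * Complex.log (z + 1)) := by push_cast; ring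
  rw [this, Complex.re_ofReal_mul]

private theorem norm_E_le {β : ℝ} (hβ : 0 ≤ β) {z : ℂ} (hz : 0 ≤ z.re) : ‖E β z‖ ≤ Real.exp (β * (Real.pi / 2) * |z.im|) := by
  rw [norm_E]
  refine Real.exp_le_exp.2 ?_
  have h1 : (1 : ℝ) ≤ ‖z + 1‖ := by
    have h2 : (z + 1).re ≤ ‖z + 1‖ := Complex.re_le_norm _
    simp at h2
    linarith
  have h2 : 0 ≤ (z.re + 1) * Real.log ‖z + 1‖ := mul_nonneg (by linarith) (Real.log_nonneg h1)
  have h3 : |Complex.arg (z + 1)| ≤ Real.pi / 2 := Complex.abs_arg_le_pi_div_two_iff.2 (by simp; linarith)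
  have h4 : z.im * Complex.arg (z + 1) ≤ |z.im| * (Real.pi / 2) := by
    calc z.im * Complex.arg (z + 1) ≤ |z.im * Complex.arg (z + 1)| := le_abs_self _
      _ = |z.im| * |Complex.arg (z + 1)| := abs_mul _ _
      _ ≤ _ := mul_le_mul_of_nonneg_left h3 (abs_nonneg _)
  nlinarith [mul_le_mul_of_nonneg_left h4 hβ, mul_nonneg hβ h2]

private theorem diff_E (β : ℝ) : DifferentiableOn ℂ (E β) {z | 0 ≤ z.re} := by
  intro z hz
  have h1 : z + 1 ∈ Complex.slitPlane := by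
    left
    have : 0 ≤ z.re := hz
    simp
    linarith
  have h2 : DifferentiableAt ℂ (fun z : ℂ => Complex.log (z + 1)) z := (differentiableAt_id.add_const 1).clog h1
  exact (((differentiableAt_const (-(β : ℂ))).mul ((differentiableAt_id.add_const 1).mul h2)).cexp).differentiableWithinAt

private theorem closure_right : closure {z : ℂ | 0 < z.re} = {z | 0 ≤ z.re} := Complex.closure_setOfPred_lt_re 0

theorem jzero_right {f : ℂ → ℂ} (hd : DiffContOnCl ℂ f {z | 0 < z.re})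
    (hexp : ∃ c < (2 : ℝ), ∃ B, f =O[cobounded ℂ ⊓ 𝓟 {z | 0 < z.re}] fun z => Real.exp (B * ‖z‖ ^ c))
    (hre : ∃ B : ℝ, ∀ᶠ x : ℝ in atTop, ‖f x‖ ≤ Real.exp (B * x)) {a C : ℝ} (ha : 0 < a)
    (him : ∀ x : ℝ, ‖f (x * I)‖ ≤ C * Real.exp (-a * |x|)) : Set.EqOn f 0 {z : ℂ | 0 ≤ z.re} := by
  set β : ℝ := 2 * a / Real.pi with hβdef
  have hpi := Real.pi_pos
  have hβ : 0 < β := by positivity
  have hβa : β * (Real.pi / 2) = a := by
    rw [hβdef]
    field_simp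
  have hC : 0 ≤ C := by
    have h1 := him 0
    simp at h1
    exact (norm_nonneg _).trans h1
  set G : ℂ → ℂ := fun z => E β z * f z with hG
  have hE0 : ∀ z, E β z ≠ 0 := fun z => Complex.exp_ne_zero _
  have key : Set.EqOn G 0 {z : ℂ | 0 ≤ z.re} := by
    refine PhragmenLindelof.eq_zero_on_right_half_plane_of_superexponential_decay ?_ ?_ ?_ ?_
    · have h1 : DiffContOnCl ℂ (E β) {z : ℂ | 0 < z.re} :=
        DifferentiableOn.diffContOnCl (by rw [closure_right]; exact diff_E β)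
      exact h1.smul hd
    · obtain ⟨c, hc, B, hB⟩ := hexp
      refine ⟨max c 1, max_lt hc (by norm_num), |B| + a, ?_⟩
      obtain ⟨M, hM⟩ := hB.bound
      refine IsBigO.of_bound M ?_
      have h1 : ∀ᶠ z : ℂ in cobounded ℂ ⊓ 𝓟 {z | 0 < z.re}, 1 ≤ ‖z‖ := by
        refine Filter.Eventually.filter_mono inf_le_left ?_
        exact (tendsto_norm_cobounded_atTop (E := ℂ)).eventually_ge_atTop 1
      have h2 : ∀ᶠ z : ℂ in cobounded ℂ ⊓ 𝓟 {z | 0 < z.re}, 0 < z.re :=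
        Filter.Eventually.filter_mono inf_le_right (mem_principal_self _)
      filter_upwards [hM, h1, h2] with z hz hz1 hz2
      rw [hG]
      simp only
      rw [norm_mul]
      have h3 := norm_E_le hβ.le hz2.le
      rw [hβa] at h3
      have h4 : ‖E β z‖ ≤ Real.exp (a * ‖z‖) := h3.trans (Real.exp_le_exp.2 (mul_le_mul_of_nonneg_left (Complex.abs_im_le_norm z) ha.le))
      have h5 : ‖z‖ ≤ ‖z‖ ^ (max c 1) := by
        calc ‖z‖ = ‖z‖ ^ (1 : ℝ) := (Real.rpow_one _).symm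
          _ ≤ _ := Real.rpow_le_rpow_of_exponent_le hz1 (le_max_right _ _)
      have h6 : ‖z‖ ^ c ≤ ‖z‖ ^ (max c 1) := Real.rpow_le_rpow_of_exponent_le hz1 (le_max_left _ _)
      have h7 : 0 ≤ ‖z‖ ^ c := Real.rpow_nonneg (norm_nonneg _) _
      rw [Real.norm_of_nonneg (Real.exp_pos _).le] at hz ⊢
      have hM0 : 0 ≤ M := by
        by_contra h8
        push Not at h8
        have h9 : 0 ≤ ‖f z‖ := norm_nonneg _
        have h10 : M * Real.exp (B * ‖z‖ ^ c) < 0 := mul_neg_of_neg_of_pos h8 (Real.exp_pos _)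
        linarith
      calc ‖E β z‖ * ‖f z‖ ≤ Real.exp (a * ‖z‖) * (M * Real.exp (B * ‖z‖ ^ c)) :=
            mul_le_mul h4 hz (norm_nonneg _) (Real.exp_pos _).le
        _ = M * Real.exp (a * ‖z‖ + B * ‖z‖ ^ c) := by rw [Real.exp_add]; ring
        _ ≤ M * Real.exp ((|B| + a) * ‖z‖ ^ (max c 1)) := by
          refine mul_le_mul_of_nonneg_left (Real.exp_le_exp.2 ?_) hM0
          have h8 : B * ‖z‖ ^ c ≤ |B| * ‖z‖ ^ (max c 1) :=
            (mul_le_mul_of_nonneg_right (le_abs_self B) h7).trans (mul_le_mul_of_nonneg_left h6 (abs_nonneg B))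
          have h9 : a * ‖z‖ ≤ a * ‖z‖ ^ (max c 1) := mul_le_mul_of_nonneg_left h5 ha.le
          linarith
    · intro m
      obtain ⟨B, hB⟩ := hre
      have h1 : Tendsto (fun x : ℝ => Real.exp (-x)) atTop (𝓝 0) := Real.tendsto_exp_neg_atTop_nhds_zero
      have h2 : ∀ᶠ x : ℝ in atTop, Real.exp x ^ m * ‖G x‖ ≤ Real.exp (-x) := by
        have h3 : Tendsto (fun x : ℝ => β * Real.log (x + 1)) atTop atTop :=
          (Real.tendsto_log_atTop.comp (tendsto_atTop_add_const_right _ 1 tendsto_id)).const_mul_atTop hβ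
        filter_upwards [hB, h3.eventually_ge_atTop (m + |B| + 1), eventually_ge_atTop (0 : ℝ)] with x hx hx2 hx0
        rw [hG]
        simp only
        rw [norm_mul, norm_E]
        have h4 : ‖(x : ℂ) + 1‖ = x + 1 := by
          have : (x : ℂ) + 1 = ((x + 1 : ℝ) : ℂ) := by push_cast; ring
          rw [this, Complex.norm_real, Real.norm_of_nonneg (by linarith)]
        rw [h4]
        simp only [Complex.ofReal_re, Complex.ofReal_im, zero_mul, sub_zero]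
        rw [← Real.exp_nat_mul]
        calc Real.exp (m * x) * (Real.exp (-β * ((x + 1) * Real.log (x + 1))) * ‖f x‖)
            ≤ Real.exp (m * x) * (Real.exp (-β * ((x + 1) * Real.log (x + 1))) * Real.exp (B * x)) := by gcongr
          _ = Real.exp (m * x + B * x - (x + 1) * (β * Real.log (x + 1))) := by
            rw [← Real.exp_add, ← Real.exp_add]
            congr 1
            ring
          _ ≤ Real.exp (-x) := by
            refine Real.exp_le_exp.2 ?_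
            have h5 : B * x ≤ |B| * x := mul_le_mul_of_nonneg_right (le_abs_self B) hx0
            have h6 : (x + 1) * (m + |B| + 1) ≤ (x + 1) * (β * Real.log (x + 1)) := mul_le_mul_of_nonneg_left hx2 (by linarith)
            have h7 : 0 ≤ |B| := abs_nonneg B
            have h8 : (0 : ℝ) ≤ m := Nat.cast_nonneg m
            nlinarith
      refine squeeze_zero' (Eventually.of_forall fun x => mul_nonneg (pow_nonneg (Real.exp_pos _).le _) (norm_nonneg _)) h2 h1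
    · refine ⟨C, fun x => ?_⟩
      rw [hG]
      simp only
      rw [norm_mul]
      have h3 := norm_E_le hβ.le (z := (x : ℂ) * I) (by simp)
      rw [hβa] at h3
      have h4 : |((x : ℂ) * I).im| = |x| := by simp
      rw [h4] at h3
      calc ‖E β (x * I)‖ * ‖f (x * I)‖ ≤ Real.exp (a * |x|) * (C * Real.exp (-a * |x|)) :=
            mul_le_mul h3 (him x) (norm_nonneg _) (Real.exp_pos _).le
        _ = C * (Real.exp (a * |x|) * Real.exp (-a * |x|)) := by ring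
        _ = C := by rw [← Real.exp_add]; simp
  intro z hz
  have h1 := key hz
  rw [hG] at h1
  simp only [Pi.zero_apply] at h1 ⊢
  exact (mul_eq_zero.1 h1).resolve_left (hE0 z)

/-- the same lemma on the upper half plane `{Im z ≥ ρ}` -/
theorem jzero_up {f : ℂ → ℂ} {ρ ρ' : ℝ} (hρ : ρ < ρ') (hd : DifferentiableOn ℂ f {z | ρ < z.im})
    (hexp : ∃ q < (2 : ℝ), ∃ B R : ℝ, ∀ z : ℂ, ρ < z.im → R ≤ ‖z‖ → ‖f z‖ ≤ Real.exp (B * ‖z‖ ^ q))
    (hver : ∃ x₀ B : ℝ, ∀ᶠ y : ℝ in atTop, ‖f ⟨x₀, y⟩‖ ≤ Real.exp (B * y)) {a C : ℝ} (ha : 0 < a)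
    (hhor : ∀ x : ℝ, ‖f ⟨x, ρ'⟩‖ ≤ C * Real.exp (-a * |x|)) : ∀ z : ℂ, ρ' ≤ z.im → f z = 0 := by
  obtain ⟨x₀, B₀, hB₀⟩ := hver
  set φ : ℂ → ℂ := fun w => ⟨x₀, ρ'⟩ + I * w with hφ
  have hφim : ∀ w, (φ w).im = ρ' + w.re := by
    intro w
    rw [hφ]
    simp
  have hφre : ∀ w, (φ w).re = x₀ - w.im := by
    intro w
    rw [hφ]
    simp [sub_eq_add_neg]
  have hφd : Differentiable ℂ φ := by
    rw [hφ]
    fun_prop
  have hmaps : ∀ w : ℂ, 0 ≤ w.re → ρ < (φ w).im := fun w hw => by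
    rw [hφim]
    linarith
  have hopen : IsOpen {z : ℂ | ρ < z.im} := isOpen_lt continuous_const Complex.continuous_im
  have hdiff : ∀ w : ℂ, 0 ≤ w.re → DifferentiableAt ℂ (fun w => f (φ w)) w := fun w hw =>
    ((hd _ (hmaps w hw)).differentiableAt (hopen.mem_nhds (hmaps w hw))).comp w (hφd w)
  have key := jzero_right (f := fun w => f (φ w)) (a := a) (C := C * Real.exp (a * |x₀|))
    (DifferentiableOn.diffContOnCl (by
      rw [closure_right]
      exact fun w hw => (hdiff w hw).differentiableWithinAt))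
    (by
      obtain ⟨q, hq, B, R, hB⟩ := hexp
      refine ⟨max q 0, max_lt hq (by norm_num), |B| * 2 ^ (max q 0), ?_⟩
      refine IsBigO.of_bound 1 ?_
      set P : ℂ := ⟨x₀, ρ'⟩ with hP
      have h1 : ∀ᶠ z : ℂ in cobounded ℂ ⊓ 𝓟 {z | 0 < z.re}, |R| + ‖P‖ + 1 ≤ ‖z‖ := by
        refine Filter.Eventually.filter_mono inf_le_left ?_
        exact (tendsto_norm_cobounded_atTop (E := ℂ)).eventually_ge_atTop _
      have h2 : ∀ᶠ z : ℂ in cobounded ℂ ⊓ 𝓟 {z | 0 < z.re}, 0 < z.re :=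
        Filter.Eventually.filter_mono inf_le_right (mem_principal_self _)
      filter_upwards [h1, h2] with w hw hw2
      have hPn : 0 ≤ ‖P‖ := norm_nonneg _
      have hR0 : 0 ≤ |R| := abs_nonneg _
      have hRR : R ≤ |R| := le_abs_self _
      have h3 : ‖φ w‖ ≤ 2 * ‖w‖ := by
        have h4 : ‖φ w‖ ≤ ‖P‖ + ‖I * w‖ := norm_add_le _ _
        rw [norm_mul, Complex.norm_I, one_mul] at h4
        linarith
      have h4 : ‖w‖ - ‖P‖ ≤ ‖φ w‖ := by
        have h5 : ‖I * w‖ ≤ ‖φ w‖ + ‖P‖ := by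
          have h6 : I * w = φ w - P := by
            rw [hφ]
            ring
          rw [h6]
          exact norm_sub_le _ _
        rw [norm_mul, Complex.norm_I, one_mul] at h5
        linarith
      have h5 := hB (φ w) (hmaps w hw2.le) (by linarith)
      rw [one_mul, Real.norm_of_nonneg (Real.exp_pos _).le]
      refine h5.trans (Real.exp_le_exp.2 ?_)
      have h6 : 1 ≤ ‖φ w‖ := by linarith
      have h7 : ‖φ w‖ ^ q ≤ ‖φ w‖ ^ (max q 0) := Real.rpow_le_rpow_of_exponent_le h6 (le_max_left _ _)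
      have h8 : ‖φ w‖ ^ (max q 0) ≤ (2 * ‖w‖) ^ (max q 0) := Real.rpow_le_rpow (norm_nonneg _) h3 (le_max_right _ _)
      rw [Real.mul_rpow (by norm_num) (norm_nonneg _)] at h8
      calc B * ‖φ w‖ ^ q ≤ |B| * ‖φ w‖ ^ q := mul_le_mul_of_nonneg_right (le_abs_self B) (Real.rpow_nonneg (norm_nonneg _) _)
        _ ≤ |B| * (2 ^ (max q 0) * ‖w‖ ^ (max q 0)) := mul_le_mul_of_nonneg_left (h7.trans h8) (abs_nonneg B)
        _ = _ := by ring)
    (by
      refine ⟨|B₀| * (|ρ'| + 1), ?_⟩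
      have h1 : Tendsto (fun x : ℝ => ρ' + x) atTop atTop := tendsto_atTop_add_const_left _ _ tendsto_id
      filter_upwards [h1.eventually hB₀, eventually_ge_atTop (1 : ℝ)] with x hx hx1
      have h2 : φ (x : ℂ) = ⟨x₀, ρ' + x⟩ := by
        apply Complex.ext
        · rw [hφre]
          simp
        · rw [hφim]
          simp
      rw [h2]
      refine hx.trans (Real.exp_le_exp.2 ?_)
      have h3 : |ρ' + x| ≤ (|ρ'| + 1) * x := by
        have h4 := abs_add_le ρ' x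
        have h5 : |x| = x := abs_of_nonneg (by linarith)
        have h6 : |ρ'| ≤ |ρ'| * x := le_mul_of_one_le_right (abs_nonneg _) hx1
        nlinarith
      calc B₀ * (ρ' + x) ≤ |B₀ * (ρ' + x)| := le_abs_self _
        _ = |B₀| * |ρ' + x| := abs_mul _ _
        _ ≤ |B₀| * ((|ρ'| + 1) * x) := mul_le_mul_of_nonneg_left h3 (abs_nonneg _)
        _ = _ := by ring)
    ha
    (by
      intro y
      have h2 : φ ((y : ℂ) * I) = ⟨x₀ - y, ρ'⟩ := by
        apply Complex.ext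
        · rw [hφre]
          simp
        · rw [hφim]
          simp
      rw [h2]
      have hC : 0 ≤ C := by
        have h1 := hhor 0
        simp at h1
        exact (norm_nonneg _).trans h1
      refine (hhor _).trans ?_
      rw [mul_assoc, ← Real.exp_add]
      refine mul_le_mul_of_nonneg_left (Real.exp_le_exp.2 ?_) hC
      have h3 : |y| ≤ |x₀ - y| + |x₀| := by
        have h4 := abs_sub (x₀) (x₀ - y)
        have h5 : x₀ - (x₀ - y) = y := by ring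
        rw [h5] at h4
        linarith
      nlinarith)
  intro z hz
  have h1 := key (x := (z - ⟨x₀, ρ'⟩) / I) (by
    have h2 : ((z - ⟨x₀, ρ'⟩) / I).re = z.im - ρ' := by
      rw [Complex.div_I]
      simp
    simp only [Set.mem_ofPred_eq]
    rw [h2]
    linarith)
  have h3 : φ ((z - ⟨x₀, ρ'⟩) / I) = z := by
    rw [hφ]
    simp only
    rw [mul_div_cancel₀ _ Complex.I_ne_zero]
    ring
  simp only [Pi.zero_apply] at h1
  rw [h3] at h1
  exact h1

end Pool.Agent.H87.JZ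

end

section

/-!
# LU Sep: the members of `ZS` are uniformly separated (port of EL DyB)
-/

set_option autoImplicit false

open Topology Filter Metric

namespace Pool.Agent.H87.LU

attribute [-instance] ProperSMul.toContinuousSMul

variable {Y : Type} [MetricSpace Y] {K : Set Y} {p : ℝ} {B : Set ℂ} {δ W : ℝ} {S : Set ℂ → Set (ℂ → Y)}
    {Zr : ℂ → Y → Prop} {II : ℂ → Y → Y → ℂ}

/-- `f` and `g` are `ε`-close at the good points of the strip in the ball about `i y` of radius `R` -/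
def Cl {Y : Type} [MetricSpace Y] (B : Set ℂ) (δ W : ℝ) (f g : ℂ → Y) (y R ε : ℝ) : Prop :=
  ∀ z ∈ ball ((y : ℂ) * Complex.I) R, z ∈ Gd B δ → |z.re| ≤ W → dist (f z) (g z) ≤ ε

/-- a map translated by `i p l` -/
def tr {Y : Type} (p : ℝ) (l : ℤ) (f : ℂ → Y) : ℂ → Y := fun z => f (z + p * l * Complex.I)

theorem UDyn.zr_add (h : UDyn K p B δ W S Zr II) (l : ℤ) : ∀ z y, Zr (z + p * l * Complex.I) y ↔ Zr z y := by
  induction l with
  | zero => simp
  | succ i ih =>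
    intro z y
    have h1 : z + (p : ℂ) * (((i : ℤ) + 1 : ℤ) : ℂ) * Complex.I = (z + p * ((i : ℤ) : ℂ) * Complex.I) + p * Complex.I := by
      push_cast
      ring
    rw [h1, h.Z_inv, ih]
  | pred i ih =>
    intro z y
    have h1 : z + p * ((-(i : ℤ) : ℤ) : ℂ) * Complex.I = (z + (p : ℂ) * ((-(i : ℤ) - 1 : ℤ) : ℂ) * Complex.I) + p * Complex.I := by
      push_cast
      ring
    have h2 := ih z y
    rw [h1, h.Z_inv] at h2
    exact h2

theorem UDyn.II_add (h : UDyn K p B δ W S Zr II) (l : ℤ) : ∀ z y y', II (z + p * l * Complex.I) y y' = II z y y' := by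
  induction l with
  | zero => simp
  | succ i ih =>
    intro z y y'
    have h1 : z + (p : ℂ) * (((i : ℤ) + 1 : ℤ) : ℂ) * Complex.I = (z + p * ((i : ℤ) : ℂ) * Complex.I) + p * Complex.I := by
      push_cast
      ring
    rw [h1, h.II_inv, ih]
  | pred i ih =>
    intro z y y'
    have h1 : z + p * ((-(i : ℤ) : ℤ) : ℂ) * Complex.I = (z + (p : ℂ) * ((-(i : ℤ) - 1 : ℤ) : ℂ) * Complex.I) + p * Complex.I := by
      push_cast
      ring
    have h2 := ih z y y'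
    rw [h1, h.II_inv] at h2
    exact h2

theorem UDyn.tr_mem (h : UDyn K p B δ W S Zr II) {Ω : Set ℂ} (hΩ : IsOpen Ω) (hΩc : Convex ℝ Ω) {f : ℂ → Y} (hf : f ∈ S Ω) (l : ℤ) :
    tr p l f ∈ S (Sh p l Ω) := h.trans Ω hΩ hΩc f hf l

theorem UDyn.tr_univ (h : UDyn K p B δ W S Zr II) {f : ℂ → Y} (hf : f ∈ S Set.univ) (l : ℤ) : tr p l f ∈ S Set.univ :=
  h.trans Set.univ isOpen_univ convex_univ f hf l

theorem UDyn.zs_tr (h : UDyn K p B δ W S Zr II) {e : ℂ → Y} (he : e ∈ ZS B δ W S Zr) (l : ℤ) : tr p l e ∈ ZS B δ W S Zr := by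
  refine ⟨h.tr_univ he.1 l, fun z hz hzW => ?_⟩
  exact (h.zr_add l z _).1 (he.2 (z + p * l * Complex.I) ((h.gd_add (2 * δ) l).2 hz) (by rwa [add_re]))

theorem UDyn.zs_lim (h : UDyn K p B δ W S Zr II) (𝒰 : Ultrafilter ℕ) (F : ℕ → ℂ → Y) (hF : ∀ᶠ n in (𝒰 : Filter ℕ), F n ∈ ZS B δ W S Zr)
    {f : ℂ → Y} (hf : ∀ z, z ∉ B → Tendsto (fun n => F n z) 𝒰 (𝓝 (f z))) : f ∈ ZS B δ W S Zr := by
  have hΩ : ∀ n : ℕ, IsOpen ((fun _ => Set.univ : ℕ → Set ℂ) n) ∧ Convex ℝ ((fun _ => Set.univ : ℕ → Set ℂ) n) := fun n => ⟨isOpen_univ, convex_univ⟩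
  have hex : ∀ R : ℝ, ∀ᶠ n in (𝒰 : Filter ℕ), ball 0 R ⊆ (fun _ => Set.univ : ℕ → Set ℂ) n := fun R => Eventually.of_forall fun n => Set.subset_univ _
  have h1 : ∀ᶠ n in (𝒰 : Filter ℕ), F n ∈ S ((fun _ => Set.univ : ℕ → Set ℂ) n) := hF.mono fun n hn => hn.1
  have h2 : f ∈ S Set.univ := h.lim 𝒰 (fun _ => Set.univ) F f hΩ hex h1 hf
  refine ⟨h2, fun z hz hzW => ?_⟩
  exact h.Z_lim 𝒰 (fun _ => Set.univ) F f h2 hΩ hex h1 hf z hz hzW (hF.mono fun n hn => hn.2 z hz hzW)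

theorem UDyn.ag_tr (h : UDyn K p B δ W S Zr II) {Ω : Set ℂ} {f g : ℂ → Y} (l : ℤ) : AgO B (Sh p l Ω) (tr p l f) (tr p l g) ↔ AgO B Ω f g := by
  constructor
  · intro h1 z hz hzB
    have h2 : z - p * l * Complex.I + p * l * Complex.I = z := by ring
    have h3 : z - p * l * Complex.I ∈ Sh p l Ω := by
      show z - p * l * Complex.I + p * l * Complex.I ∈ Ω
      rwa [h2]
    have h4 : z - p * l * Complex.I ∉ B := by
      intro h5
      apply hzB
      have h6 := h.B_inv _ h5 l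
      rwa [h2] at h6
    have h5 : f (z - p * l * Complex.I + p * l * Complex.I) = g (z - p * l * Complex.I + p * l * Complex.I) := h1 _ h3 h4
    rwa [h2] at h5
  · intro h1 z hz hzB
    exact h1 (z + p * l * Complex.I) hz fun h2 => hzB ((h.mem_add l).1 h2)

/-- translated balls -/
theorem ball_tr {p y R R' : ℝ} {l : ℤ} {z : ℂ} (h : ‖z‖ + |y - p * l| < R') (hR : R' ≤ R) : z + p * l * Complex.I ∈ ball ((y : ℂ) * Complex.I) R := by
  rw [mem_ball, dist_eq_norm]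
  have h1 : z + p * l * Complex.I - (y : ℂ) * Complex.I = z - ((y - p * l : ℝ) : ℂ) * Complex.I := by
    push_cast
    ring
  rw [h1]
  refine (norm_sub_le _ _).trans_lt ?_
  rw [norm_mul, Complex.norm_I, mul_one, Complex.norm_real, Real.norm_eq_abs]
  linarith

theorem UDyn.sep (h : UDyn K p B δ W S Zr II) : ∃ ε₁ R₁ : ℝ, 0 < ε₁ ∧ 0 < R₁ ∧ ∀ e ∈ ZS B δ W S Zr, ∀ g ∈ ZS B δ W S Zr, ∀ y : ℝ,
    Cl B δ W e g y R₁ ε₁ → AgO B Set.univ e g := by
  by_contra hcon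
  have hcon' : ∀ n : ℕ, ∃ e ∈ ZS B δ W S Zr, ∃ g ∈ ZS B δ W S Zr, ∃ y : ℝ,
      Cl B δ W e g y ((n : ℝ) + 1) (1 / ((n : ℝ) + 1)) ∧ ¬ AgO B Set.univ e g := by
    intro n
    by_contra h1
    apply hcon
    refine ⟨1 / ((n : ℝ) + 1), (n : ℝ) + 1, by positivity, by positivity, ?_⟩
    intro e he g hg y h2
    by_contra h3
    exact h1 ⟨e, he, g, hg, y, h2, h3⟩
  choose e he g hg y hclose hne using hcon'
  choose l hl using fun n => h.exists_int (y n)
  have hpos := h.δ_pos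
  obtain ⟨𝒰, h𝒰⟩ : ∃ 𝒰 : Ultrafilter ℕ, (𝒰 : Filter ℕ) ≤ atTop := ⟨Ultrafilter.of atTop, Ultrafilter.of_le _⟩
  have he' : ∀ n, tr p (l n) (e n) ∈ ZS B δ W S Zr := fun n => h.zs_tr (he n) (l n)
  have hg' : ∀ n, tr p (l n) (g n) ∈ ZS B δ W S Zr := fun n => h.zs_tr (hg n) (l n)
  have hclose' : ∀ n : ℕ, ∀ z ∈ Gd B δ, |z.re| ≤ W → ‖z‖ + p < (n : ℝ) + 1 →
      dist (tr p (l n) (e n) z) (tr p (l n) (g n) z) ≤ 1 / ((n : ℝ) + 1) := by
    intro n z hz hzW hzn
    exact hclose n (z + p * l n * Complex.I) (ball_tr (by linarith [hl n]) le_rfl) ((h.gd_add δ (l n)).2 hz) (by rwa [add_re])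
  have hΩ : ∀ n : ℕ, IsOpen ((fun _ => Set.univ : ℕ → Set ℂ) n) ∧ Convex ℝ ((fun _ => Set.univ : ℕ → Set ℂ) n) := fun n => ⟨isOpen_univ, convex_univ⟩
  have hex : ∀ R : ℝ, ∀ᶠ n in (𝒰 : Filter ℕ), ball 0 R ⊆ (fun _ => Set.univ : ℕ → Set ℂ) n := fun R => Eventually.of_forall fun n => Set.subset_univ _
  have heS : ∀ᶠ n in (𝒰 : Filter ℕ), tr p (l n) (e n) ∈ S ((fun _ => Set.univ : ℕ → Set ℂ) n) := Eventually.of_forall fun n => (he' n).1
  have hgS : ∀ᶠ n in (𝒰 : Filter ℕ), tr p (l n) (g n) ∈ S ((fun _ => Set.univ : ℕ → Set ℂ) n) := Eventually.of_forall fun n => (hg' n).1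
  obtain ⟨f, hfS, hf⟩ := h.exists_lim 𝒰 (Ω := fun _ => Set.univ) (fun n => tr p (l n) (e n)) hΩ hex heS
  obtain ⟨f₂, hf₂S, hf₂⟩ := h.exists_lim 𝒰 (Ω := fun _ => Set.univ) (fun n => tr p (l n) (g n)) hΩ hex hgS
  have hfZ : f ∈ ZS B δ W S Zr := h.zs_lim 𝒰 (fun n => tr p (l n) (e n)) (Filter.Eventually.of_forall he') hf
  -- the two limits agree
  have heq : ∀ z ∈ Gd B δ, |z.re| ≤ W → f z = f₂ z := by
    intro z hz hzW
    have hzB : z ∉ B := gd_notMem hpos hz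
    have h1 : Tendsto (fun n : ℕ => dist (tr p (l n) (e n) z) (tr p (l n) (g n) z)) 𝒰 (𝓝 0) := by
      have h2 : Tendsto (fun n : ℕ => 1 / ((n : ℝ) + 1)) 𝒰 (𝓝 0) :=
        tendsto_one_div_add_atTop_nhds_zero_nat.mono_left h𝒰
      refine tendsto_of_tendsto_of_tendsto_of_le_of_le' tendsto_const_nhds h2
        (Filter.Eventually.of_forall fun n => dist_nonneg) ?_
      have h3 : ∀ᶠ n : ℕ in atTop, ‖z‖ + p < (n : ℝ) + 1 := by
        filter_upwards [tendsto_natCast_atTop_atTop.eventually_ge_atTop (‖z‖ + p)] with n hn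
        linarith
      filter_upwards [h𝒰 h3] with n hn
      exact hclose' n z hz hzW hn
    exact tendsto_nhds_unique ((tendsto_iff_of_dist h1).1 (hf z hzB)) (hf₂ z hzB)
  have hAg : AgO B Set.univ f f₂ := by
    by_contra hcon2
    have hWc : |((W : ℝ) : ℂ).re| ≤ W := by
      rw [Complex.ofReal_re, abs_of_pos h.W_pos]
    obtain ⟨w, hw, hwW, -, hne2⟩ := h.exists_ne isOpen_univ convex_univ hfS hf₂S hcon2 (z := ((W : ℝ) : ℂ)) (Set.mem_univ _)
      (h.right_mem (by rw [Complex.ofReal_re]; linarith)) hWc one_pos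
    exact hne2 (heq w (gd_mono (by linarith) hw) hwW.le)
  obtain ⟨z₀, r, ε, hr, hε, hball, hiso⟩ := h.iso f hfS hfZ.2
  have hz₀ : z₀ ∈ ball z₀ r := mem_ball_self hr
  have hz₀B : z₀ ∉ B := gd_notMem (by positivity) (hball hz₀).1
  have hf₂' : ∀ z, z ∉ B → Tendsto (fun n => tr p (l n) (g n) z) 𝒰 (𝓝 (f z)) := by
    intro z hz
    rw [hAg z (Set.mem_univ z) hz]
    exact hf₂ z hz
  have hu1 := h.unif 𝒰 (Ω := fun _ => Set.univ) (fun n => tr p (l n) (e n)) hΩ hex heS hfS hf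
    (δ' := 2 * δ) (by positivity) (‖z₀‖ + r) ε hε
  have hu2 := h.unif 𝒰 (Ω := fun _ => Set.univ) (fun n => tr p (l n) (g n)) hΩ hex hgS hfS hf₂'
    (δ' := 2 * δ) (by positivity) (‖z₀‖ + r) ε hε
  obtain ⟨n, h1, h2⟩ := (hu1.and hu2).exists
  refine hne n ((h.ag_tr (l n)).1 ?_)
  rw [sh_univ]
  refine h.uniq Set.univ isOpen_univ convex_univ _ (he' n).1 _ (hg' n).1 z₀ (Set.mem_univ _) hz₀B (Filter.Eventually.frequently ?_)
  have h3 : ∀ᶠ z in 𝓝 z₀, tr p (l n) (e n) z = tr p (l n) (g n) z := by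
    filter_upwards [isOpen_ball.mem_nhds hz₀] with z hz
    have hzn : ‖z‖ ≤ ‖z₀‖ + r := by
      rw [mem_ball, dist_eq_norm] at hz
      have h4 : z = z₀ + (z - z₀) := by ring
      calc ‖z‖ = ‖z₀ + (z - z₀)‖ := by rw [← h4]
        _ ≤ ‖z₀‖ + ‖z - z₀‖ := norm_add_le _ _
        _ ≤ ‖z₀‖ + r := by linarith
    have h5 : tr p (l n) (e n) z = f z :=
      hiso Set.univ isOpen_univ convex_univ (Set.subset_univ _) _ (he' n).1 z hz (h1 z (hball hz).1 hzn) (Or.inr ((he' n).2 z (hball hz).1 (hball hz).2))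
    have h6 : tr p (l n) (g n) z = f z :=
      hiso Set.univ isOpen_univ convex_univ (Set.subset_univ _) _ (hg' n).1 z hz (h2 z (hball hz).1 hzn) (Or.inr ((hg' n).2 z (hball hz).1 (hball hz).2))
    rw [h5, h6]
  exact h3.filter_mono nhdsWithin_le_nhds

end Pool.Agent.H87.LU

end

section

/-!
# LU Near: near pairs with `II = 0` are near a member of `ZS` (port of EL DyC); rigidity of the members of `ZS` (port of EL DyD)
-/

set_option autoImplicit false

open Topology Filter Metric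

namespace Pool.Agent.H87.LU

attribute [-instance] ProperSMul.toContinuousSMul

variable {Y : Type} [MetricSpace Y] {K : Set Y} {p : ℝ} {B : Set ℂ} {δ W : ℝ} {S : Set ℂ → Set (ℂ → Y)}
    {Zr : ℂ → Y → Prop} {II : ℂ → Y → Y → ℂ}

/-- the integral is zero at the good points of the strip in the ball about `i y` of radius `R` -/
def Ze {Y : Type} (B : Set ℂ) (δ W : ℝ) (II : ℂ → Y → Y → ℂ) (f g : ℂ → Y) (y R : ℝ) : Prop :=
  ∀ z ∈ ball ((y : ℂ) * Complex.I) R, z ∈ Gd B (2 * δ) → |z.re| < W → II z (f z) (g z) = 0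

/-- in an open ball inside the closed strip the points are in the open strip -/
theorem re_lt_of_ball {z₀ z : ℂ} {r W : ℝ} (h : ∀ w ∈ ball z₀ r, |w.re| ≤ W) (hz : z ∈ ball z₀ r) : |z.re| < W := by
  obtain ⟨s, hs, hsub⟩ := Metric.isOpen_iff.1 isOpen_ball z hz
  obtain ⟨e, he, he2⟩ : ∃ e : ℝ, |e| = 1 ∧ e * z.re = |z.re| := by
    rcases le_total 0 z.re with h1 | h1
    · exact ⟨1, abs_one, by rw [one_mul, abs_of_nonneg h1]⟩
    · exact ⟨-1, by rw [abs_neg, abs_one], by rw [abs_of_nonpos h1]; ring⟩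
  have h1 : z + ((e * (s / 2) : ℝ) : ℂ) ∈ ball z s := by
    rw [mem_ball, dist_eq_norm, add_sub_cancel_left, Complex.norm_real, Real.norm_eq_abs, abs_mul, he, one_mul, abs_of_pos (by linarith)]
    linarith
  have h2 := h _ (hsub h1)
  rw [Complex.add_re, Complex.ofReal_re] at h2
  have h3 : |z.re| + s / 2 ≤ |z.re + e * (s / 2)| := by
    have h4 : |e * (z.re + e * (s / 2))| = |z.re + e * (s / 2)| := by rw [abs_mul, he, one_mul]
    have h5 : e * (z.re + e * (s / 2)) = |z.re| + s / 2 := by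
      have h6 : e * e = 1 := by
        have := abs_mul_abs_self e
        rw [he] at this
        linarith
      calc e * (z.re + e * (s / 2)) = e * z.re + (e * e) * (s / 2) := by ring
        _ = _ := by rw [he2, h6]; ring
    rw [← h4, h5]
    exact le_abs_self _
  linarith

/-- the translated domain contains large balls -/
theorem ball_sub_sh {p y R : ℝ} {l : ℤ} {Ω : Set ℂ} (hΩ : ball ((y : ℂ) * Complex.I) R ⊆ Ω) (hl : |y - p * l| ≤ p) : ball 0 (R - p) ⊆ Sh p l Ω := by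
  intro z hz
  rw [mem_ball_zero_iff] at hz
  exact hΩ (ball_tr (R' := R) (by linarith) le_rfl)

theorem UDyn.near_zs (h : UDyn K p B δ W S Zr II) {ε' : ℝ} (hε' : 0 < ε') (R₂ : ℝ) : ∃ ε₃ R₃ : ℝ, 0 < ε₃ ∧ 0 < R₃ ∧
    ∀ Ω : Set ℂ, IsOpen Ω → Convex ℝ Ω → ∀ f ∈ S Ω, ∀ g ∈ S Ω, ¬ AgO B Ω f g → ∀ y : ℝ, ball ((y : ℂ) * Complex.I) R₃ ⊆ Ω → Cl B δ W f g y R₃ ε₃ →
      Ze B δ W II f g y R₃ → ∃ e ∈ ZS B δ W S Zr, Cl B δ W f e y R₂ ε' ∧ Cl B δ W g e y R₂ ε' := by
  by_contra hcon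
  push Not at hcon
  choose Ω hΩo hΩc f hf g hg hne y hball hcl hN hbad using fun n : ℕ =>
    hcon (1 / ((n : ℝ) + 1)) ((n : ℝ) + 1) (by positivity) (by positivity)
  choose l hla using fun n => h.exists_int (y n)
  have hδ : 0 < δ := h.δ_pos
  set 𝒰 : Ultrafilter ℕ := Filter.hyperfilter ℕ with h𝒰
  have hle : (𝒰 : Filter ℕ) ≤ atTop := by
    rw [h𝒰, ← Nat.cofinite_eq_atTop]
    exact Filter.hyperfilter_le_cofinite
  have hlarge : ∀ c : ℝ, ∀ᶠ n : ℕ in (𝒰 : Filter ℕ), c < (n : ℝ) + 1 := by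
    intro c
    have h1 : ∀ᶠ n : ℕ in atTop, c ≤ (n : ℝ) := tendsto_natCast_atTop_atTop.eventually_ge_atTop c
    filter_upwards [hle h1] with n hn
    linarith
  have hzero : Tendsto (fun n : ℕ => 1 / ((n : ℝ) + 1)) 𝒰 (𝓝 0) :=
    Tendsto.mono_left (tendsto_one_div_add_atTop_nhds_zero_nat (𝕜 := ℝ)) hle
  set F : ℕ → ℂ → Y := fun n => tr p (l n) (f n) with hFdef
  set G : ℕ → ℂ → Y := fun n => tr p (l n) (g n) with hGdef
  set Ω' : ℕ → Set ℂ := fun n => Sh p (l n) (Ω n) with hΩ'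
  have hΩ'o : ∀ n, IsOpen (Ω' n) ∧ Convex ℝ (Ω' n) := fun n => ⟨isOpen_sh (hΩo n), convex_sh (hΩc n)⟩
  have hex : ∀ R : ℝ, ∀ᶠ n in (𝒰 : Filter ℕ), ball 0 R ⊆ Ω' n := by
    intro R
    filter_upwards [hlarge (R + p)] with n hn
    exact (ball_subset_ball (by linarith)).trans (ball_sub_sh (hball n) (hla n))
  have hFS : ∀ n, F n ∈ S (Ω' n) := fun n => h.tr_mem (hΩo n) (hΩc n) (hf n) (l n)
  have hGS : ∀ n, G n ∈ S (Ω' n) := fun n => h.tr_mem (hΩo n) (hΩc n) (hg n) (l n)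
  have hFGne : ∀ n, ¬ AgO B (Ω' n) (F n) (G n) := fun n hAg => hne n ((h.ag_tr (l n)).1 hAg)
  obtain ⟨f₀, hf₀, hflim⟩ := h.exists_lim 𝒰 F hΩ'o hex (Filter.Eventually.of_forall hFS)
  obtain ⟨g₀, hg₀, hglim⟩ := h.exists_lim 𝒰 G hΩ'o hex (Filter.Eventually.of_forall hGS)
  -- the two limits agree
  have heq : ∀ z ∈ Gd B δ, |z.re| ≤ W → f₀ z = g₀ z := by
    intro z hz hzW
    have hzB : z ∉ B := gd_notMem hδ hz
    have h1 : Tendsto (fun n => dist (F n z) (G n z)) 𝒰 (𝓝 (dist (f₀ z) (g₀ z))) := (hflim z hzB).dist (hglim z hzB)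
    have h2 : Tendsto (fun n => dist (F n z) (G n z)) 𝒰 (𝓝 0) := by
      refine squeeze_zero' (Filter.Eventually.of_forall fun n => dist_nonneg) ?_ hzero
      filter_upwards [hlarge (‖z‖ + p)] with n hn
      exact hcl n (z + p * l n * Complex.I) (ball_tr (by linarith [hla n]) le_rfl) ((h.gd_add δ (l n)).mpr hz) (by rwa [add_re])
    exact dist_eq_zero.mp (tendsto_nhds_unique h1 h2)
  have hAg : AgO B Set.univ f₀ g₀ := by
    by_contra hcon2
    have hWc : |((W : ℝ) : ℂ).re| ≤ W := by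
      rw [Complex.ofReal_re, abs_of_pos h.W_pos]
    obtain ⟨w, hw, hwW, -, hne2⟩ := h.exists_ne isOpen_univ convex_univ hf₀ hg₀ hcon2 (z := ((W : ℝ) : ℂ)) (Set.mem_univ _)
      (h.right_mem (by rw [Complex.ofReal_re]; linarith)) hWc one_pos
    exact hne2 (heq w (gd_mono (by linarith) hw) hwW.le)
  have hGlim : ∀ z, z ∉ B → Tendsto (fun n => G n z) 𝒰 (𝓝 (f₀ z)) := by
    intro z hz
    rw [hAg z (Set.mem_univ z) hz]
    exact hglim z hz
  -- the limit is in `ZS`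
  have hZS : f₀ ∈ ZS B δ W S Zr := by
    refine ⟨hf₀, fun z hz hzW => ?_⟩
    have hex1 : ∀ n : ℕ, ∃ w : ℂ, z ∈ Ω' n → w ∈ Gd B (2 * δ) ∧ |w.re| < W ∧ ‖w - z‖ < 1 / ((n : ℝ) + 1) ∧ F n w ≠ G n w := by
      intro n
      by_cases hzn : z ∈ Ω' n
      · obtain ⟨w, h1, h2, h3, h4⟩ := h.exists_ne (hΩ'o n).1 (hΩ'o n).2 (hFS n) (hGS n) (hFGne n) hzn hz hzW (ε := 1 / ((n : ℝ) + 1)) (by positivity)
        exact ⟨w, fun _ => ⟨h1, h2, h3, h4⟩⟩
      · exact ⟨0, fun h1 => absurd h1 hzn⟩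
    choose w hw using hex1
    have hzΩ : ∀ᶠ n in (𝒰 : Filter ℕ), z ∈ Ω' n := by
      filter_upwards [hex (‖z‖ + 1)] with n hn
      exact hn (by rw [mem_ball_zero_iff]; linarith)
    have hwlim : Tendsto w 𝒰 (𝓝 z) := by
      rw [tendsto_iff_norm_sub_tendsto_zero]
      refine squeeze_zero' (Eventually.of_forall fun n => norm_nonneg _) ?_ hzero
      filter_upwards [hzΩ] with n hn using (hw n hn).2.2.1.le
    refine h.near 𝒰 Ω' F G w f₀ hf₀ hΩ'o hex (Filter.Eventually.of_forall fun n => ⟨hFS n, hGS n⟩) hflim hGlim z hz hzW hwlim ?_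
    filter_upwards [hlarge (1 + ‖z‖ + p), hzΩ] with n hn hzn
    obtain ⟨hw1, hw2, hw3, hw4⟩ := hw n hzn
    refine ⟨hw1, hw2.le, hw4, ?_⟩
    have h1 : ‖w n‖ ≤ 1 + ‖z‖ := by
      have h2 : ‖w n‖ ≤ ‖w n - z‖ + ‖z‖ := by
        have h3 : w n = (w n - z) + z := by ring
        calc ‖w n‖ = ‖(w n - z) + z‖ := by rw [← h3]
          _ ≤ ‖w n - z‖ + ‖z‖ := norm_add_le _ _
      have h4 : 1 / ((n : ℝ) + 1) ≤ 1 := by
        rw [div_le_one (by positivity)]
        have : (0 : ℝ) ≤ (n : ℝ) := Nat.cast_nonneg n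
        linarith
      linarith [hw3]
    have h5 := hN n (w n + p * l n * Complex.I) (ball_tr (by linarith [hla n]) le_rfl) ((h.gd_add (2 * δ) (l n)).mpr hw1) (by rwa [add_re])
    rw [h.II_add (l n)] at h5
    exact h5
  -- the contradiction
  have hu1 := h.unif 𝒰 F hΩ'o hex (Filter.Eventually.of_forall hFS) hf₀ hflim hδ (R₂ + p) ε' hε'
  have hu2 := h.unif 𝒰 G hΩ'o hex (Filter.Eventually.of_forall hGS) hf₀ hGlim hδ (R₂ + p) ε' hε'
  obtain ⟨n, hn1, hn2⟩ := (hu1.and hu2).exists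
  refine hbad n (tr p (-l n) f₀) (h.zs_tr hZS (-l n)) ?_ ?_
  all_goals
    intro z hz hzG hzW
    have h1 : z + p * ((-l n : ℤ) : ℂ) * Complex.I ∈ Gd B δ := (h.gd_add δ (-l n)).mpr hzG
    have h2 : ‖z + p * ((-l n : ℤ) : ℂ) * Complex.I‖ ≤ R₂ + p := by
      rw [mem_ball, dist_eq_norm] at hz
      have h3 : z + p * ((-l n : ℤ) : ℂ) * Complex.I = (z - (y n : ℂ) * Complex.I) + ((y n - p * l n : ℝ) : ℂ) * Complex.I := by
        push_cast
        ring
      rw [h3]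
      refine (norm_add_le _ _).trans ?_
      rw [norm_mul, Complex.norm_I, mul_one, Complex.norm_real, Real.norm_eq_abs]
      linarith [hla n]
    have h4 : z + p * ((-l n : ℤ) : ℂ) * Complex.I + p * l n * Complex.I = z := by
      push_cast
      ring
  · have h5 := (hn1 _ h1 h2).le
    simp only [hFdef, tr] at h5 ⊢
    rwa [h4] at h5
  · have h5 := (hn2 _ h1 h2).le
    simp only [hGdef, tr] at h5 ⊢
    rwa [h4] at h5

theorem UDyn.rigid (h : UDyn K p B δ W S Zr II) : ∃ ε₂ R₂ : ℝ, 0 < ε₂ ∧ 0 < R₂ ∧ ∀ e ∈ ZS B δ W S Zr, ∀ Ω : Set ℂ, IsOpen Ω → Convex ℝ Ω → ∀ g ∈ S Ω,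
    ∀ y : ℝ, ball ((y : ℂ) * Complex.I) R₂ ⊆ Ω → Cl B δ W g e y R₂ ε₂ → Ze B δ W II e g y R₂ → AgO B Ω e g := by
  by_contra hcon
  have hδ : 0 < δ := h.δ_pos
  push Not at hcon
  choose e he Ω hΩo hΩc g hg y hball h1 h2 h3 using fun n : ℕ =>
    hcon (1 / ((n : ℝ) + 1)) ((n : ℝ) + 1) (by positivity) (by positivity)
  choose l hal using fun n => h.exists_int (y n)
  obtain ⟨𝒰, h𝒰⟩ : ∃ 𝒰 : Ultrafilter ℕ, (𝒰 : Filter ℕ) ≤ atTop := ⟨Ultrafilter.of atTop, Ultrafilter.of_le atTop⟩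
  have he' : ∀ n, tr p (l n) (e n) ∈ ZS B δ W S Zr := fun n => h.zs_tr (he n) (l n)
  have hg' : ∀ n, tr p (l n) (g n) ∈ S (Sh p (l n) (Ω n)) := fun n => h.tr_mem (hΩo n) (hΩc n) (hg n) (l n)
  have hΩu : ∀ n : ℕ, IsOpen ((fun _ => Set.univ : ℕ → Set ℂ) n) ∧ Convex ℝ ((fun _ => Set.univ : ℕ → Set ℂ) n) := fun n => ⟨isOpen_univ, convex_univ⟩
  have hexu : ∀ R : ℝ, ∀ᶠ n in (𝒰 : Filter ℕ), ball 0 R ⊆ (fun _ => Set.univ : ℕ → Set ℂ) n := fun R => Eventually.of_forall fun n => Set.subset_univ _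
  have heS : ∀ᶠ n in (𝒰 : Filter ℕ), tr p (l n) (e n) ∈ S ((fun _ => Set.univ : ℕ → Set ℂ) n) := Eventually.of_forall fun n => (he' n).1
  obtain ⟨e₀, he₀S, he₀⟩ := h.exists_lim 𝒰 (Ω := fun _ => Set.univ) (fun n => tr p (l n) (e n)) hΩu hexu heS
  have he₀Z : e₀ ∈ ZS B δ W S Zr := h.zs_lim 𝒰 (fun n => tr p (l n) (e n)) (Eventually.of_forall he') he₀
  obtain ⟨ε₁, n₁, hε₁, hn₁, hsep⟩ := h.sep
  obtain ⟨z₀, r, ε, hr, hε, hball0, hiso⟩ := h.iso e₀ he₀S he₀Z.2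
  have ev1 : ∀ᶠ n in (𝒰 : Filter ℕ), ∀ z ∈ Gd B δ, ‖z‖ ≤ n₁ → dist (tr p (l n) (e n) z) (e₀ z) < ε₁ :=
    h.unif 𝒰 (Ω := fun _ => Set.univ) (fun n => tr p (l n) (e n)) hΩu hexu heS he₀S he₀ hδ n₁ ε₁ hε₁
  have hinv : Tendsto (fun n : ℕ => 1 / ((n : ℝ) + 1)) atTop (𝓝 0) := tendsto_one_div_add_atTop_nhds_zero_nat
  have ev2 : ∀ᶠ n : ℕ in (𝒰 : Filter ℕ), 1 / ((n : ℝ) + 1) < ε := (hinv.eventually_lt_const hε).filter_mono h𝒰
  have ev3 : ∀ᶠ n : ℕ in (𝒰 : Filter ℕ), ‖z₀‖ + r + p < (n : ℝ) + 1 := by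
    have : Tendsto (fun n : ℕ => (n : ℝ) + 1) atTop atTop :=
      tendsto_atTop_add_const_right _ _ tendsto_natCast_atTop_atTop
    exact (this.eventually_gt_atTop _).filter_mono h𝒰
  obtain ⟨n, hn1, hn2, hn3⟩ := (ev1.and (ev2.and ev3)).exists
  have hag : AgO B Set.univ (tr p (l n) (e n)) e₀ := by
    refine hsep _ (he' n) _ he₀Z 0 fun z hz hzG _ => (hn1 z hzG ?_).le
    rw [Complex.ofReal_zero, zero_mul, mem_ball_zero_iff] at hz
    exact hz.le
  have hsub : ball z₀ r ⊆ Sh p (l n) (Ω n) := by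
    refine fun z hz => ball_sub_sh (hball n) (hal n) ?_
    rw [mem_ball, dist_eq_norm] at hz
    rw [mem_ball_zero_iff]
    have h4 : z = (z - z₀) + z₀ := by ring
    calc ‖z‖ = ‖(z - z₀) + z₀‖ := by rw [← h4]
      _ ≤ ‖z - z₀‖ + ‖z₀‖ := norm_add_le _ _
      _ < (n : ℝ) + 1 - p := by linarith
  have key : ∀ z ∈ ball z₀ r, tr p (l n) (g n) z = tr p (l n) (e n) z := by
    intro z hz
    obtain ⟨hzG, hzW⟩ := hball0 hz
    have hzG1 : z ∈ Gd B δ := gd_mono (by linarith) hzG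
    have hzB : z ∉ B := gd_notMem (by linarith) hzG
    have hez : tr p (l n) (e n) z = e₀ z := hag z (Set.mem_univ z) hzB
    have hz' : ‖z - z₀‖ < r := by rwa [mem_ball, dist_eq_norm] at hz
    have hzn : ‖z‖ ≤ ‖z - z₀‖ + ‖z₀‖ := by
      have h4 : z = (z - z₀) + z₀ := by ring
      calc ‖z‖ = ‖(z - z₀) + z₀‖ := by rw [← h4]
        _ ≤ ‖z - z₀‖ + ‖z₀‖ := norm_add_le _ _
    have hzb : z + p * l n * Complex.I ∈ ball ((y n : ℂ) * Complex.I) ((n : ℝ) + 1) := ball_tr (R' := (n : ℝ) + 1) (by linarith [hal n]) le_rfl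
    have hd := h1 n (z + p * l n * Complex.I) hzb ((h.gd_add δ (l n)).2 hzG1) (by rwa [add_re])
    have hN := h2 n (z + p * l n * Complex.I) hzb ((h.gd_add (2 * δ) (l n)).2 hzG) (by rw [add_re]; exact re_lt_of_ball (fun w hw => (hball0 hw).2) hz)
    rw [h.II_add (l n)] at hN
    change dist (tr p (l n) (g n) z) (tr p (l n) (e n) z) ≤ _ at hd
    change II z (tr p (l n) (e n) z) (tr p (l n) (g n) z) = 0 at hN
    rw [hez] at hd hN ⊢
    exact hiso _ (isOpen_sh (hΩo n)) (convex_sh (hΩc n)) hsub _ (hg' n) z hz (lt_of_le_of_lt hd hn2) (Or.inl hN)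
  have hz₀B : z₀ ∉ B := gd_notMem (by linarith) (hball0 (mem_ball_self hr)).1
  have hfreq : ∃ᶠ z in 𝓝[≠] z₀, tr p (l n) (e n) z = tr p (l n) (g n) z := by
    have hev : ∀ᶠ z in 𝓝[≠] z₀, tr p (l n) (e n) z = tr p (l n) (g n) z :=
      nhdsWithin_le_nhds (mem_of_superset (ball_mem_nhds z₀ hr) fun z hz => (key z hz).symm)
    exact hev.frequently
  have heSn : tr p (l n) (e n) ∈ S (Sh p (l n) (Ω n)) :=
    h.anti Set.univ _ isOpen_univ convex_univ (isOpen_sh (hΩo n)) (convex_sh (hΩc n)) (Set.subset_univ _) (he' n).1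
  have hAg := h.uniq _ (isOpen_sh (hΩo n)) (convex_sh (hΩc n)) _ heSn _ (hg' n) z₀ (hsub (mem_ball_self hr)) hz₀B hfreq
  exact h3 n ((h.ag_tr (l n)).1 hAg)

end Pool.Agent.H87.LU

end

section

/-!
# LU ZeroUp: a holomorphic function of polynomial growth on a half plane with zeros at `a + i p l` is zero

Divide by `s z = sin (π (z - a) / (i p))`: the zeros are simple, `‖s z‖ ≥ 1` outside the balls of radius `p / 2` about the zeros (`sin_ge`), `‖s z‖ ≥ exp (π |x - re a| / p) / 4` on the line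
half way between the zeros.  Then `jzero_up`.
-/

set_option autoImplicit false

open Topology Filter Metric

namespace Pool.Agent.H87.LU

attribute [-instance] ProperSMul.toContinuousSMul

theorem norm_sin_sq (θ : ℂ) : ‖Complex.sin θ‖ ^ 2 = Real.sin θ.re ^ 2 + Real.sinh θ.im ^ 2 := by
  have h1 : Complex.sin θ = ((Real.sin θ.re * Real.cosh θ.im : ℝ) : ℂ) + ((Real.cos θ.re * Real.sinh θ.im : ℝ) : ℂ) * Complex.I := by
    rw [Complex.sin_eq]
    push_cast
    ring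
  rw [h1, Complex.sq_norm, Complex.normSq_add_mul_I]
  have h2 := Real.sin_sq_add_cos_sq θ.re
  have h3 := Real.cosh_sq θ.im
  have h4 : Real.cos θ.re ^ 2 = 1 - Real.sin θ.re ^ 2 := by linarith
  calc (Real.sin θ.re * Real.cosh θ.im) ^ 2 + (Real.cos θ.re * Real.sinh θ.im) ^ 2
      = Real.sin θ.re ^ 2 * Real.cosh θ.im ^ 2 + Real.cos θ.re ^ 2 * Real.sinh θ.im ^ 2 := by ring
    _ = Real.sin θ.re ^ 2 * (Real.sinh θ.im ^ 2 + 1) + (1 - Real.sin θ.re ^ 2) * Real.sinh θ.im ^ 2 := by rw [h3, h4]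
    _ = _ := by ring

theorem abs_le_sinh (y : ℝ) : |y| ≤ |Real.sinh y| := by
  rcases le_total 0 y with h | h
  · rw [abs_of_nonneg h, abs_of_nonneg (Real.sinh_nonneg_iff.2 h)]
    exact Real.self_le_sinh_iff.2 h
  · rw [abs_of_nonpos h, abs_of_nonpos (Real.sinh_nonpos_iff.2 h)]
    have h1 := Real.self_le_sinh_iff.2 (show 0 ≤ -y by linarith)
    rwa [Real.sinh_neg] at h1

theorem sin_ge {θ : ℂ} (h : |θ.re| ≤ Real.pi / 2) : 2 / Real.pi * ‖θ‖ ≤ ‖Complex.sin θ‖ := by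
  have hpi := Real.pi_pos
  have h2pi : 2 / Real.pi ≤ 1 := by
    rw [div_le_one hpi]
    linarith [Real.pi_gt_three]
  have h20 : 0 ≤ 2 / Real.pi := by positivity
  have h1 : 2 / Real.pi * |θ.re| ≤ |Real.sin θ.re| := by
    rcases le_total 0 θ.re with h2 | h2
    · rw [abs_of_nonneg h2] at h ⊢
      exact (Real.mul_le_sin h2 h).trans (le_abs_self _)
    · rw [abs_of_nonpos h2] at h ⊢
      have h3 := Real.mul_le_sin (show 0 ≤ -θ.re by linarith) h
      rw [Real.sin_neg] at h3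
      exact h3.trans (neg_le_abs _)
  have h3 := abs_le_sinh θ.im
  have h4 : (2 / Real.pi * ‖θ‖) ^ 2 ≤ ‖Complex.sin θ‖ ^ 2 := by
    rw [norm_sin_sq, mul_pow, Complex.sq_norm, Complex.normSq_apply]
    have h5 : (2 / Real.pi) ^ 2 * (θ.re * θ.re) ≤ Real.sin θ.re ^ 2 := by
      rw [← sq_abs (Real.sin θ.re), ← pow_two, ← sq_abs θ.re, ← mul_pow]
      exact pow_le_pow_left₀ (by positivity) h1 2
    have h6 : (2 / Real.pi) ^ 2 * (θ.im * θ.im) ≤ Real.sinh θ.im ^ 2 := by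
      rw [← sq_abs (Real.sinh θ.im), ← pow_two, ← sq_abs θ.im]
      have h7 : (2 / Real.pi) ^ 2 ≤ 1 := pow_le_one₀ h20 h2pi
      calc (2 / Real.pi) ^ 2 * |θ.im| ^ 2 ≤ 1 * |θ.im| ^ 2 := mul_le_mul_of_nonneg_right h7 (by positivity)
        _ = |θ.im| ^ 2 := one_mul _
        _ ≤ |Real.sinh θ.im| ^ 2 := pow_le_pow_left₀ (abs_nonneg _) h3 2
    nlinarith
  exact (pow_le_pow_iff_left₀ (by positivity) (norm_nonneg _) two_ne_zero).1 h4

theorem sin_ge_exp {θ : ℂ} (h : Real.sin θ.re ^ 2 = 1) : Real.exp |θ.im| / 4 ≤ ‖Complex.sin θ‖ := by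
  have h1 := norm_sin_sq θ
  rw [h] at h1
  have h2 : (1 : ℝ) ≤ ‖Complex.sin θ‖ := by
    have h3 : (1 : ℝ) ^ 2 ≤ ‖Complex.sin θ‖ ^ 2 := by
      rw [h1]
      nlinarith [sq_nonneg (Real.sinh θ.im)]
    exact (pow_le_pow_iff_left₀ zero_le_one (norm_nonneg _) two_ne_zero).1 h3
  have h3 : |Real.sinh θ.im| ≤ ‖Complex.sin θ‖ := by
    have h4 : |Real.sinh θ.im| ^ 2 ≤ ‖Complex.sin θ‖ ^ 2 := by
      rw [h1, sq_abs]
      linarith
    exact (pow_le_pow_iff_left₀ (abs_nonneg _) (norm_nonneg _) two_ne_zero).1 h4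
  have h4 : Real.exp |θ.im| / 2 ≤ |Real.sinh θ.im| + 1 := by
    have h5 : |Real.sinh θ.im| = Real.sinh |θ.im| := by rw [Real.abs_sinh]
    rw [h5, Real.sinh_eq]
    have h6 : Real.exp (-|θ.im|) ≤ 1 := by
      rw [Real.exp_le_one_iff]
      linarith [abs_nonneg θ.im]
    linarith
  linarith

/-- the function with the zeros `a + i p l` -/
noncomputable def sn (a : ℂ) (p : ℝ) (z : ℂ) : ℂ := Complex.sin ((Real.pi / p : ℝ) * (-Complex.I * (z - a)))

theorem sn_arg_re (a : ℂ) (p : ℝ) (z : ℂ) : ((Real.pi / p : ℝ) * (-Complex.I * (z - a)) : ℂ).re = Real.pi / p * (z.im - a.im) := by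
  rw [Complex.re_ofReal_mul]
  simp

theorem sn_arg_im (a : ℂ) (p : ℝ) (z : ℂ) : ((Real.pi / p : ℝ) * (-Complex.I * (z - a)) : ℂ).im = -(Real.pi / p * (z.re - a.re)) := by
  rw [Complex.im_ofReal_mul]
  simp
  ring

theorem differentiable_sn (a : ℂ) (p : ℝ) : Differentiable ℂ (sn a p) := by
  unfold sn
  fun_prop

theorem sn_eq_zero {a : ℂ} {p : ℝ} (hp : 0 < p) {z : ℂ} (h : sn a p z = 0) : ∃ l : ℤ, z = a + p * l * Complex.I := by
  unfold sn at h
  obtain ⟨l, hl⟩ := Complex.sin_eq_zero_iff.1 h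
  refine ⟨l, ?_⟩
  have hpi : ((Real.pi : ℝ) : ℂ) ≠ 0 := by exact_mod_cast Real.pi_ne_zero
  have hpc : ((p : ℝ) : ℂ) ≠ 0 := by exact_mod_cast hp.ne'
  have h1 : -Complex.I * (z - a) = p * l := by
    push_cast at hl
    field_simp at hl
    rw [neg_mul]
    exact hl
  have h2 : z - a = p * l * Complex.I := by
    calc z - a = -(Complex.I * Complex.I) * (z - a) := by rw [Complex.I_mul_I]; ring
      _ = Complex.I * (-Complex.I * (z - a)) := by ring
      _ = p * l * Complex.I := by rw [h1]; ring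
  rw [← h2]
  ring

theorem deriv_sn_ne {a : ℂ} {p : ℝ} (hp : 0 < p) {z : ℂ} (h : sn a p z = 0) : deriv (sn a p) z ≠ 0 := by
  have hpi : ((Real.pi : ℝ) : ℂ) ≠ 0 := by exact_mod_cast Real.pi_ne_zero
  have hpc : ((p : ℝ) : ℂ) ≠ 0 := by exact_mod_cast hp.ne'
  have h1 : HasDerivAt (sn a p) (Complex.cos ((Real.pi / p : ℝ) * (-Complex.I * (z - a))) * ((Real.pi / p : ℝ) * (-Complex.I * 1))) z := by
    unfold sn
    exact ((((hasDerivAt_id z).sub_const a).const_mul (-Complex.I)).const_mul ((Real.pi / p : ℝ) : ℂ)).csin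
  rw [h1.deriv]
  have h2 : Complex.cos ((Real.pi / p : ℝ) * (-Complex.I * (z - a))) ≠ 0 := by
    intro h3
    have h4 := Complex.sin_sq_add_cos_sq ((Real.pi / p : ℝ) * (-Complex.I * (z - a)))
    unfold sn at h
    rw [h, h3] at h4
    norm_num at h4
  refine mul_ne_zero h2 (mul_ne_zero ?_ (mul_ne_zero (neg_ne_zero.2 Complex.I_ne_zero) one_ne_zero))
  push_cast
  exact div_ne_zero hpi hpc

/-- the nearest zero -/
theorem exists_near (a : ℂ) {p : ℝ} (hp : 0 < p) (z : ℂ) : ∃ l : ℤ, |z.im - (a.im + p * l)| ≤ p / 2 := by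
  refine ⟨round ((z.im - a.im) / p), ?_⟩
  have h1 := abs_sub_round ((z.im - a.im) / p)
  have h2 : z.im - (a.im + p * (round ((z.im - a.im) / p) : ℤ)) = p * ((z.im - a.im) / p - (round ((z.im - a.im) / p) : ℤ)) := by
    field_simp
    ring
  rw [h2, abs_mul, abs_of_pos hp]
  calc p * |(z.im - a.im) / p - (round ((z.im - a.im) / p) : ℤ)| ≤ p * (1 / 2) := mul_le_mul_of_nonneg_left h1 hp.le
    _ = p / 2 := by ring

theorem sn_ge {a : ℂ} {p : ℝ} (hp : 0 < p) {z : ℂ} {l : ℤ} (hl : |z.im - (a.im + p * l)| ≤ p / 2) (hd : p / 2 ≤ ‖z - (a + p * l * Complex.I)‖) :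
    1 ≤ ‖sn a p z‖ := by
  have hpi := Real.pi_pos
  have hpc : ((p : ℝ) : ℂ) ≠ 0 := by exact_mod_cast hp.ne'
  set θ : ℂ := (Real.pi / p : ℝ) * (-Complex.I * (z - (a + p * l * Complex.I))) with hθ
  have h1 : ((Real.pi / p : ℝ) * (-Complex.I * (z - a)) : ℂ) = θ + l * Real.pi := by
    rw [hθ]
    have h2 : -Complex.I * (z - (a + p * l * Complex.I)) = -Complex.I * (z - a) - p * l := by
      calc -Complex.I * (z - (a + p * l * Complex.I)) = -Complex.I * (z - a) + (Complex.I * Complex.I) * (p * l) := by ring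
        _ = _ := by rw [Complex.I_mul_I]; ring
    rw [h2]
    push_cast
    field_simp
    ring
  have h2 : ‖sn a p z‖ = ‖Complex.sin θ‖ := by
    unfold sn
    have h3 : Complex.sin (θ + l * Real.pi) = (-1) ^ l * Complex.sin θ := l.cast_negOnePow ℂ ▸ Complex.sin_antiperiodic.add_int_mul_eq l
    rw [h1, h3, norm_mul, norm_zpow, norm_neg, norm_one, one_zpow, one_mul]
  have h3 : |θ.re| ≤ Real.pi / 2 := by
    have h4 : θ.re = Real.pi / p * (z.im - (a.im + p * l)) := by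
      rw [hθ, Complex.re_ofReal_mul]
      simp
    rw [h4, abs_mul, abs_of_pos (by positivity)]
    calc Real.pi / p * |z.im - (a.im + p * l)| ≤ Real.pi / p * (p / 2) := mul_le_mul_of_nonneg_left hl (by positivity)
      _ = Real.pi / 2 := by field_simp
  have h4 : ‖θ‖ = Real.pi / p * ‖z - (a + p * l * Complex.I)‖ := by
    rw [hθ, norm_mul, norm_mul, norm_neg, Complex.norm_I, one_mul, Complex.norm_real, Real.norm_of_nonneg (by positivity)]
  rw [h2]
  refine le_trans ?_ (sin_ge h3)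
  rw [h4]
  calc (1 : ℝ) = 2 / Real.pi * (Real.pi / p * (p / 2)) := by field_simp
    _ ≤ 2 / Real.pi * (Real.pi / p * ‖z - (a + p * l * Complex.I)‖) := by gcongr

/-- the quotient -/
noncomputable def qt (J : ℂ → ℂ) (a : ℂ) (p : ℝ) (z : ℂ) : ℂ := if sn a p z = 0 then deriv J z / deriv (sn a p) z else J z / sn a p z

theorem differentiableOn_qt {J : ℂ → ℂ} {a : ℂ} {p : ℝ} (hp : 0 < p) {U : Set ℂ} (hU : IsOpen U) (hJ : DifferentiableOn ℂ J U)
    (h0 : ∀ l : ℤ, a + p * l * Complex.I ∈ U → J (a + p * l * Complex.I) = 0) : DifferentiableOn ℂ (qt J a p) U := by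
  intro z hz
  refine DifferentiableAt.differentiableWithinAt ?_
  have hs : DifferentiableAt ℂ (sn a p) z := differentiable_sn a p z
  have hJz : DifferentiableAt ℂ J z := hJ.differentiableAt (hU.mem_nhds hz)
  by_cases h1 : sn a p z = 0
  · have h2 : J z = 0 := by
      obtain ⟨l, rfl⟩ := sn_eq_zero hp h1
      exact h0 l hz
    have hd := deriv_sn_ne hp h1
    have hsl : DifferentiableOn ℂ (dslope (sn a p) z) Set.univ := (Complex.differentiableOn_dslope univ_mem).2 (differentiable_sn a p).differentiableOn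
    have hsl' : DifferentiableAt ℂ (dslope (sn a p) z) z := hsl.differentiableAt univ_mem
    have hJl : DifferentiableAt ℂ (dslope J z) z := ((Complex.differentiableOn_dslope (hU.mem_nhds hz)).2 hJ).differentiableAt (hU.mem_nhds hz)
    have hne : dslope (sn a p) z z ≠ 0 := by rwa [dslope_same]
    have h3 : qt J a p =ᶠ[𝓝 z] fun w => dslope J z w / dslope (sn a p) z w := by
      filter_upwards [hsl'.continuousAt.eventually_ne hne] with w hw
      by_cases hwz : w = z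
      · rw [hwz, dslope_same, dslope_same]
        unfold qt
        rw [if_pos h1]
      · have hwz' : w - z ≠ 0 := sub_ne_zero.2 hwz
        rw [dslope_of_ne _ hwz, slope_def_module, h1, sub_zero] at hw
        rw [dslope_of_ne _ hwz, dslope_of_ne _ hwz, slope_def_module, slope_def_module, h1, h2, sub_zero, sub_zero]
        have hsw : sn a p w ≠ 0 := by
          intro h4
          rw [h4, smul_zero] at hw
          exact hw rfl
        unfold qt
        rw [if_neg hsw, smul_eq_mul, smul_eq_mul]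
        field_simp
    exact h3.differentiableAt_iff.2 (hJl.div hsl' hne)
  · have h3 : qt J a p =ᶠ[𝓝 z] fun w => J w / sn a p w := by
      filter_upwards [hs.continuousAt.eventually_ne h1] with w hw
      unfold qt
      rw [if_neg hw]
    exact h3.differentiableAt_iff.2 (hJz.div hs h1)

theorem norm_qt_le {J : ℂ → ℂ} {a : ℂ} {p : ℝ} {z : ℂ} (h : 1 ≤ ‖sn a p z‖) : ‖qt J a p z‖ ≤ ‖J z‖ := by
  have h1 : sn a p z ≠ 0 := by
    intro h2
    rw [h2, norm_zero] at h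
    linarith
  unfold qt
  rw [if_neg h1, norm_div]
  exact div_le_self (norm_nonneg _) h

theorem qt_bound {J : ℂ → ℂ} {a : ℂ} {p ρ C : ℝ} {m : ℕ} (hp : 0 < p) (hd : DifferentiableOn ℂ (qt J a p) {z | ρ < z.im})
    (hC : 0 ≤ C) (hb : ∀ z : ℂ, ρ < z.im → ‖J z‖ ≤ C * (1 + ‖z‖) ^ m) {z : ℂ} (hz : ρ + 2 * p < z.im) :
    ‖qt J a p z‖ ≤ C * (1 + (‖z‖ + 2 * p)) ^ m := by
  obtain ⟨l, hl⟩ := exists_near a hp z
  rcases le_or_gt (p / 2) ‖z - (a + p * l * Complex.I)‖ with h1 | h1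
  · refine (norm_qt_le (sn_ge hp hl h1)).trans ((hb z (by linarith)).trans ?_)
    gcongr
    linarith
  · set c : ℂ := a + p * l * Complex.I with hc
    have hcim : c.im = a.im + p * l := by
      rw [hc]
      simp
    have hcz : |z.im - c.im| ≤ p / 2 := by rwa [hcim]
    have hsub : closedBall c (p / 2) ⊆ {z | ρ < z.im} := by
      intro w hw
      rw [mem_closedBall, dist_eq_norm] at hw
      have h2 := (Complex.abs_im_le_norm (w - c)).trans hw
      rw [Complex.sub_im] at h2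
      have h3 := (abs_le.1 h2).1
      have h4 := (abs_le.1 hcz).2
      show ρ < w.im
      linarith
    have hdc : DiffContOnCl ℂ (qt J a p) (ball c (p / 2)) := by
      refine DifferentiableOn.diffContOnCl ?_
      rw [closure_ball _ (by positivity)]
      exact hd.mono hsub
    refine Complex.norm_le_of_forall_mem_frontier_norm_le isBounded_ball hdc (fun w hw => ?_) (z := z) ?_
    · rw [frontier_ball _ (by positivity)] at hw
      have hwc : ‖w - c‖ = p / 2 := by rwa [mem_sphere, dist_eq_norm] at hw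
      have h2 : |w.im - (a.im + p * l)| ≤ p / 2 := by
        have h3 := Complex.abs_im_le_norm (w - c)
        rw [Complex.sub_im, hcim, hwc] at h3
        exact h3
      refine (norm_qt_le (sn_ge hp h2 hwc.ge)).trans ((hb w (hsub (sphere_subset_closedBall hw))).trans ?_)
      have h4 : ‖w‖ ≤ ‖z‖ + 2 * p := by
        have h5 : w = (w - c) - (z - c) + z := by ring
        calc ‖w‖ = ‖(w - c) - (z - c) + z‖ := by rw [← h5]
          _ ≤ ‖w - c‖ + ‖z - c‖ + ‖z‖ := (norm_add_le _ _).trans (by linarith [norm_sub_le (w - c) (z - c)])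
          _ ≤ ‖z‖ + 2 * p := by linarith
      gcongr
    · rw [closure_ball _ (by positivity), mem_closedBall, dist_eq_norm]
      exact h1.le

/-- polynomials are at most exponentials -/
theorem pow_le_exp' (m : ℕ) {c : ℝ} (hc : 0 < c) : ∃ A : ℝ, 0 < A ∧ ∀ x : ℝ, 0 ≤ x → (1 + x) ^ m ≤ A * Real.exp (c * x) := by
  refine ⟨(1 + (m + 1) / c) ^ m, by positivity, fun x hx => ?_⟩
  have h1 : 1 + x ≤ (1 + (m + 1) / c) * Real.exp (c / (m + 1) * x) := by
    have h2 := Real.add_one_le_exp (c / (m + 1) * x)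
    have h3 : (1 + (m + 1) / c) * (c / (m + 1) * x + 1) ≤ (1 + (m + 1) / c) * Real.exp (c / (m + 1) * x) := mul_le_mul_of_nonneg_left h2 (by positivity)
    have h4 : (1 + (m + 1) / c) * (c / (m + 1) * x + 1) = 1 + x + c / (m + 1) * x + (m + 1) / c := by
      field_simp
      ring
    have h5 : 0 ≤ c / (m + 1) * x := by positivity
    have h6 : (0 : ℝ) ≤ (m + 1) / c := by positivity
    linarith
  calc (1 + x) ^ m ≤ ((1 + (m + 1) / c) * Real.exp (c / (m + 1) * x)) ^ m := pow_le_pow_left₀ (by positivity) h1 m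
    _ = (1 + (m + 1) / c) ^ m * Real.exp (m * (c / (m + 1) * x)) := by rw [mul_pow, ← Real.exp_nat_mul]
    _ ≤ (1 + (m + 1) / c) ^ m * Real.exp (c * x) := by
        refine mul_le_mul_of_nonneg_left (Real.exp_le_exp.2 ?_) (by positivity)
        have h7 : (m : ℝ) * (c / (m + 1) * x) = c * x * (m / (m + 1)) := by
          field_simp
        rw [h7]
        have h8 : (m : ℝ) / (m + 1) ≤ 1 := by
          rw [div_le_one (by positivity)]
          linarith
        exact mul_le_of_le_one_right (by positivity) h8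

/-- **The main lemma.** -/
theorem zero_up {J : ℂ → ℂ} {a : ℂ} {p ρ C : ℝ} {m : ℕ} (hp : 0 < p) (hJ : DifferentiableOn ℂ J {z | ρ < z.im}) (hC : 0 ≤ C)
    (hb : ∀ z : ℂ, ρ < z.im → ‖J z‖ ≤ C * (1 + ‖z‖) ^ m)
    (h0 : ∀ l : ℤ, ρ < (a + p * l * Complex.I).im → J (a + p * l * Complex.I) = 0) : ∀ z : ℂ, ρ < z.im → J z = 0 := by
  have hpi := Real.pi_pos
  have hUo : IsOpen {z : ℂ | ρ < z.im} := isOpen_lt continuous_const Complex.continuous_im
  have hd := differentiableOn_qt hp hUo hJ h0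
  -- the horizontal line
  obtain ⟨N, hN⟩ := exists_int_gt ((ρ + 2 * p - a.im) / p)
  rw [div_lt_iff₀ hp] at hN
  set ρ' : ℝ := a.im + p * N + p / 2 with hρ'
  have hρρ' : ρ + 2 * p < ρ' := by
    rw [hρ']
    linarith
  obtain ⟨A₁, hA₁, hA₁'⟩ := pow_le_exp' m one_pos
  have hexpb : ∀ z : ℂ, ρ + 2 * p < z.im → ‖qt J a p z‖ ≤ C * (A₁ * Real.exp (‖z‖ + 2 * p)) := by
    intro z hz
    refine (qt_bound hp hd hC hb hz).trans (mul_le_mul_of_nonneg_left ?_ hC)
    have h1 := hA₁' (‖z‖ + 2 * p) (by positivity)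
    rwa [one_mul] at h1
  have hexpb2 : ∀ z : ℂ, ρ + 2 * p < z.im → ‖qt J a p z‖ ≤ Real.exp (C * A₁ + ‖z‖ + 2 * p) := by
    intro z hz
    refine (hexpb z hz).trans ?_
    have h1 : C * A₁ ≤ Real.exp (C * A₁) := by linarith [Real.add_one_le_exp (C * A₁)]
    have h2 : Real.exp (C * A₁ + ‖z‖ + 2 * p) = Real.exp (C * A₁) * Real.exp (‖z‖ + 2 * p) := by
      rw [← Real.exp_add]
      congr 1
      ring
    rw [h2, ← mul_assoc]
    exact mul_le_mul_of_nonneg_right h1 (Real.exp_pos _).le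
  obtain ⟨A₂, hA₂, hA₂'⟩ := pow_le_exp' m (show 0 < Real.pi / p / 2 by positivity)
  have hq : ∀ z : ℂ, ρ' ≤ z.im → qt J a p z = 0 := by
    refine Pool.Agent.H87.JZ.jzero_up hρρ' (hd.mono fun z hz => ?_) ⟨1, by norm_num, C * A₁ + 1 + 2 * p, 1, fun z hz h1 => ?_⟩
      ⟨0, C * A₁ + 1 + 2 * p, ?_⟩ (a := Real.pi / p / 2) (by positivity)
      (C := 4 * C * (1 + |ρ'|) ^ m * A₂ * Real.exp (Real.pi / p * |a.re|)) fun x => ?_
    · have hz : ρ + 2 * p < z.im := hz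
      show ρ < z.im
      linarith
    · refine (hexpb2 z hz).trans (Real.exp_le_exp.2 ?_)
      rw [Real.rpow_one]
      have h2 : 0 ≤ C * A₁ := by positivity
      nlinarith
    · filter_upwards [eventually_gt_atTop (max (ρ + 2 * p) 1)] with y hy
      rw [max_lt_iff] at hy
      have h1 : ‖(⟨0, y⟩ : ℂ)‖ ≤ |y| := by
        have := Complex.norm_le_abs_re_add_abs_im (⟨0, y⟩ : ℂ)
        simpa using this
      refine (hexpb2 ⟨0, y⟩ hy.1).trans (Real.exp_le_exp.2 ?_)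
      have hy0 : 0 < y := by linarith
      rw [abs_of_pos hy0] at h1
      have h2 : 0 ≤ C * A₁ := by positivity
      nlinarith
    · have h1 : Real.exp |((Real.pi / p : ℝ) * (-Complex.I * ((⟨x, ρ'⟩ : ℂ) - a)) : ℂ).im| / 4 ≤ ‖sn a p ⟨x, ρ'⟩‖ := by
        refine sin_ge_exp ?_
        rw [sn_arg_re]
        have h2 : Real.pi / p * ((⟨x, ρ'⟩ : ℂ).im - a.im) = Real.pi / 2 + N * Real.pi := by
          show Real.pi / p * (ρ' - a.im) = _
          rw [hρ']
          field_simp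
          ring
        rw [h2, Real.sin_add_int_mul_pi, Real.sin_pi_div_two, mul_one, ← zpow_natCast, ← zpow_mul, mul_comm, zpow_mul]
        simp
      rw [sn_arg_im, abs_neg, abs_mul, abs_of_pos (show 0 < Real.pi / p by positivity)] at h1
      change Real.exp (Real.pi / p * |x - a.re|) / 4 ≤ _ at h1
      have hs0 : 0 < ‖sn a p ⟨x, ρ'⟩‖ := lt_of_lt_of_le (by positivity) h1
      have hs1 : sn a p ⟨x, ρ'⟩ ≠ 0 := norm_pos_iff.1 hs0
      have h2 := hb ⟨x, ρ'⟩ (show ρ < ρ' by linarith)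
      unfold qt
      rw [if_neg hs1, norm_div]
      have h3 : ‖(⟨x, ρ'⟩ : ℂ)‖ ≤ |x| + |ρ'| := Complex.norm_le_abs_re_add_abs_im _
      have h4 : (1 + ‖(⟨x, ρ'⟩ : ℂ)‖) ^ m ≤ (1 + |ρ'|) ^ m * (1 + |x|) ^ m := by
        rw [← mul_pow]
        refine pow_le_pow_left₀ (by positivity) ?_ m
        nlinarith [abs_nonneg x, abs_nonneg ρ']
      have h5 := hA₂' |x| (abs_nonneg x)
      have h6 : Real.exp (Real.pi / p * |x|) ≤ Real.exp (Real.pi / p * |x - a.re|) * Real.exp (Real.pi / p * |a.re|) := by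
        rw [← Real.exp_add]
        refine Real.exp_le_exp.2 ?_
        rw [← mul_add]
        refine mul_le_mul_of_nonneg_left ?_ (by positivity)
        have h7 : x = (x - a.re) + a.re := by ring
        calc |x| = |(x - a.re) + a.re| := by rw [← h7]
          _ ≤ _ := abs_add_le _ _
      have h7 : Real.exp (-(Real.pi / p / 2) * |x|) * Real.exp (Real.pi / p * |x|) = Real.exp (Real.pi / p / 2 * |x|) := by
        rw [← Real.exp_add]
        congr 1
        ring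
      rw [div_le_iff₀ hs0]
      calc ‖J ⟨x, ρ'⟩‖ ≤ C * (1 + ‖(⟨x, ρ'⟩ : ℂ)‖) ^ m := h2
        _ ≤ C * ((1 + |ρ'|) ^ m * (1 + |x|) ^ m) := mul_le_mul_of_nonneg_left h4 hC
        _ ≤ C * ((1 + |ρ'|) ^ m * (A₂ * Real.exp (Real.pi / p / 2 * |x|))) := by gcongr
        _ = C * ((1 + |ρ'|) ^ m * (A₂ * (Real.exp (-(Real.pi / p / 2) * |x|) * Real.exp (Real.pi / p * |x|)))) := by rw [h7]
        _ ≤ C * ((1 + |ρ'|) ^ m * (A₂ * (Real.exp (-(Real.pi / p / 2) * |x|) * (Real.exp (Real.pi / p * |x - a.re|) * Real.exp (Real.pi / p * |a.re|))))) := by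
            gcongr
        _ = 4 * C * (1 + |ρ'|) ^ m * A₂ * Real.exp (Real.pi / p * |a.re|) * Real.exp (-(Real.pi / p / 2) * |x|) * (Real.exp (Real.pi / p * |x - a.re|) / 4) := by ring
        _ ≤ 4 * C * (1 + |ρ'|) ^ m * A₂ * Real.exp (Real.pi / p * |a.re|) * Real.exp (-(Real.pi / p / 2) * |x|) * ‖sn a p ⟨x, ρ'⟩‖ := by gcongr
  -- back to `J`
  have hJ0 : ∀ z : ℂ, ρ' ≤ z.im → J z = 0 := by
    intro z hz
    by_cases h1 : sn a p z = 0
    · obtain ⟨l, rfl⟩ := sn_eq_zero hp h1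
      exact h0 l (by linarith)
    · have h2 := hq z hz
      unfold qt at h2
      rw [if_neg h1] at h2
      exact (div_eq_zero_iff.1 h2).resolve_right h1
  have hconv : Convex ℝ {z : ℂ | ρ < z.im} := convex_halfSpace_im_gt ρ
  have hmem : (⟨0, ρ' + 1⟩ : ℂ) ∈ {z : ℂ | ρ < z.im} := by
    show ρ < ρ' + 1
    linarith
  have hev : J =ᶠ[𝓝 (⟨0, ρ' + 1⟩ : ℂ)] fun _ => 0 := by
    have h1 : {z : ℂ | ρ' < z.im} ∈ 𝓝 (⟨0, ρ' + 1⟩ : ℂ) := (isOpen_lt continuous_const Complex.continuous_im).mem_nhds (by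
      show ρ' < ρ' + 1
      linarith)
    filter_upwards [h1] with z hz
    exact hJ0 z (le_of_lt hz)
  exact fun z hz => (hJ.analyticOnNhd hUo).eqOn_of_preconnected_of_eventuallyEq analyticOnNhd_const hconv.isPreconnected hmem hev hz

end Pool.Agent.H87.LU

end

section

/-!
# LU Ker: the integral is zero on a half plane

The balls `ball (σ i (ρ + s)) s`, `s → ∞`, exhaust the half plane `{ρ < σ Im z}`; the functions `J` on them (field `J`) agree, they give a function of polynomial growth on the half plane with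
zeros at `a + i p l`: it is zero (`zero_up`).
-/

set_option autoImplicit false

open Topology Filter Metric

namespace Pool.Agent.H87.LU

attribute [-instance] ProperSMul.toContinuousSMul

variable {Y : Type} [MetricSpace Y] {K : Set Y} {p : ℝ} {B : Set ℂ} {δ W : ℝ} {S : Set ℂ → Set (ℂ → Y)}
    {Zr : ℂ → Y → Prop} {II : ℂ → Y → Y → ℂ}

/-- the center of the ball of radius `s` -/
noncomputable def ctr (σ ρ s : ℝ) : ℂ := ((σ * (ρ + s) : ℝ) : ℂ) * Complex.I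

theorem ctr_re (σ ρ s : ℝ) : (ctr σ ρ s).re = 0 := by
  unfold ctr
  simp

theorem ctr_im (σ ρ s : ℝ) : (ctr σ ρ s).im = σ * (ρ + s) := by
  unfold ctr
  rw [Complex.mul_im, Complex.ofReal_re, Complex.ofReal_im, Complex.I_re, Complex.I_im]
  ring

theorem sq_one {σ : ℝ} (hσ : σ = 1 ∨ σ = -1) : σ * σ = 1 := by
  rcases hσ with rfl | rfl <;> norm_num

theorem ball_ctr {σ ρ s : ℝ} (hσ : σ = 1 ∨ σ = -1) : ball (ctr σ ρ s) s ⊆ HP σ ρ := by
  intro z hz
  rw [mem_ball, dist_eq_norm] at hz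
  have h1 := (Complex.abs_im_le_norm (z - ctr σ ρ s)).trans_lt hz
  rw [Complex.sub_im, ctr_im] at h1
  have h2 : |σ * z.im - (ρ + s)| < s := by
    have h3 : σ * z.im - (ρ + s) = σ * (z.im - σ * (ρ + s)) := by
      have := sq_one hσ
      calc σ * z.im - (ρ + s) = σ * z.im - (σ * σ) * (ρ + s) := by rw [this, one_mul]
        _ = _ := by ring
    have h4 : |σ| = 1 := by rcases hσ with rfl | rfl <;> norm_num
    rw [h3, abs_mul, h4, one_mul]
    exact h1
  have h3 := (abs_lt.1 h2).1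
  show ρ < σ * z.im
  linarith

theorem mem_ball_ctr {σ ρ s r : ℝ} (hσ : σ = 1 ∨ σ = -1) {z : ℂ} (hr : 0 < r) :
    z ∈ ball (ctr σ ρ s) r ↔ z.re ^ 2 + (σ * z.im - (ρ + s)) ^ 2 < r ^ 2 := by
  rw [mem_ball, dist_eq_norm]
  have h1 : ‖z - ctr σ ρ s‖ ^ 2 = z.re ^ 2 + (σ * z.im - (ρ + s)) ^ 2 := by
    rw [Complex.sq_norm, Complex.normSq_apply, Complex.sub_re, Complex.sub_im, ctr_re, ctr_im, sub_zero]
    have h2 := sq_one hσ
    have h3 : (z.im - σ * (ρ + s)) * (z.im - σ * (ρ + s)) = (σ * z.im - (ρ + s)) ^ 2 := by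
      have h4 : σ ^ 2 = 1 := by rw [pow_two]; exact h2
      calc (z.im - σ * (ρ + s)) * (z.im - σ * (ρ + s)) = z.im ^ 2 - 2 * σ * z.im * (ρ + s) + σ ^ 2 * (ρ + s) ^ 2 := by ring
        _ = σ ^ 2 * z.im ^ 2 - 2 * σ * z.im * (ρ + s) + (ρ + s) ^ 2 := by rw [h4]; ring
        _ = _ := by ring
    rw [h3]
    ring
  rw [← h1]
  exact (pow_lt_pow_iff_left₀ (norm_nonneg _) hr.le two_ne_zero).symm

theorem UDyn.half_zero (h : UDyn K p B δ W S Zr II) : ∃ r ε₀ : ℝ, 0 < r ∧ 0 < ε₀ ∧ ∀ σ ρ : ℝ, (σ = 1 ∨ σ = -1) →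
    ∀ f ∈ S (HP σ ρ), ∀ g ∈ S (HP σ ρ), (∀ z ∈ HP σ ρ, z ∈ Gd B δ → |z.re| ≤ W → dist (f z) (g z) ≤ ε₀) →
    ∀ z ∈ HP σ (ρ + r), z ∈ Gd B (2 * δ) → |z.re| < W → II z (f z) (g z) = 0 := by
  obtain ⟨ε₀, r₁, C, k, a, hε₀, hr₁, hC, hJ⟩ := h.J
  refine ⟨r₁ + 1, ε₀, by linarith, hε₀, fun σ ρ hσ f hf g hg hclose => ?_⟩
  have hW := h.W_pos
  have hδ := h.δ_pos
  have hp := h.p_pos
  set s : ℕ → ℝ := fun n => r₁ + W + 1 + n with hs
  have hsr : ∀ n, r₁ < s n := fun n => by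
    rw [hs]
    have : (0 : ℝ) ≤ n := Nat.cast_nonneg n
    simp only
    linarith
  have hres : ∀ n, ∀ F ∈ S (HP σ ρ), F ∈ S (ball (ctr σ ρ (s n)) (s n)) := fun n F hF =>
    h.anti _ _ (isOpen_HP σ ρ) (convex_HP σ ρ) isOpen_ball (convex_ball _ _) (ball_ctr hσ) hF
  have hex : ∀ n, ∃ J : ℂ → ℂ, DifferentiableOn ℂ J (ball (ctr σ ρ (s n)) (s n - r₁)) ∧ (∀ z ∈ ball (ctr σ ρ (s n)) (s n - r₁), ‖J z‖ ≤ C * (1 + s n) ^ k) ∧
      (∀ z ∈ ball (ctr σ ρ (s n)) (s n - r₁), z ∈ Gd B (2 * δ) → |z.re| < W → J z = II z (f z) (g z)) ∧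
      ∀ l : ℤ, a + p * l * Complex.I ∈ ball (ctr σ ρ (s n)) (s n - r₁) → J (a + p * l * Complex.I) = 0 := fun n =>
    hJ (ctr σ ρ (s n)) (s n) (ctr_re _ _ _) (hsr n) f (hres n f hf) g (hres n g hg) fun z hz hzG hzW => hclose z (ball_ctr hσ hz) hzG hzW
  choose Jn hJd hJb hJI hJ0 using hex
  -- the balls are increasing
  have hrad : ∀ n, s n - r₁ = W + 1 + n := fun n => by
    rw [hs]
    ring
  have hmem : ∀ (n : ℕ) (z : ℂ), z ∈ ball (ctr σ ρ (s n)) (s n - r₁) ↔ z.re ^ 2 + (σ * z.im - (ρ + s n)) ^ 2 < (s n - r₁) ^ 2 := fun n z =>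
    mem_ball_ctr hσ (by linarith [hsr n])
  -- in terms of t
  have hmem' : ∀ (n : ℕ) (z : ℂ), z ∈ ball (ctr σ ρ (s n)) (s n - r₁) ↔
      z.re ^ 2 + (σ * z.im - (ρ + r₁)) ^ 2 < 2 * (σ * z.im - (ρ + r₁)) * (W + 1 + n) := by
    intro n z
    rw [hmem, hrad]
    have h1 : ρ + s n = (ρ + r₁) + (W + 1 + n) := by
      rw [hs]
      ring
    rw [h1]
    constructor <;> intro h2 <;> nlinarith
  have hmono : ∀ n m : ℕ, n ≤ m → ball (ctr σ ρ (s n)) (s n - r₁) ⊆ ball (ctr σ ρ (s m)) (s m - r₁) := by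
    intro n m hnm z hz
    rw [hmem'] at hz ⊢
    have h1 : (n : ℝ) ≤ m := by exact_mod_cast hnm
    have h2 : 0 < 2 * (σ * z.im - (ρ + r₁)) * (W + 1 + n) := lt_of_le_of_lt (by positivity) hz
    have h3 : 0 < W + 1 + (n : ℝ) := by positivity
    have h4 : 0 < 2 * (σ * z.im - (ρ + r₁)) := (pos_iff_pos_of_mul_pos h2).2 h3
    nlinarith
  have hagree : ∀ n m : ℕ, n ≤ m → ∀ z ∈ ball (ctr σ ρ (s n)) (s n - r₁), Jn n z = Jn m z := by
    intro n m hnm
    set η : ℝ := min δ W with hη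
    have hη0 : 0 < η := lt_min hδ hW
    have hηδ : η ≤ δ := min_le_left _ _
    have hηW : η ≤ W := min_le_right _ _
    set z₁ : ℂ := ((W - η : ℝ) : ℂ) + ctr σ ρ (s n) with hz₁
    have hz₁re : z₁.re = W - η := by
      rw [hz₁, Complex.add_re, ctr_re, Complex.ofReal_re, add_zero]
    have hsub : ∀ z ∈ ball z₁ η, z ∈ ball (ctr σ ρ (s n)) (s n - r₁) ∧ z ∈ Gd B (2 * δ) ∧ |z.re| < W := by
      intro z hz
      rw [mem_ball, dist_eq_norm] at hz
      have h1 := (Complex.abs_re_le_norm (z - z₁)).trans_lt hz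
      rw [Complex.sub_re, hz₁re, abs_lt] at h1
      refine ⟨?_, h.right_mem (by linarith [h1.1]), abs_lt.2 ⟨by linarith [h1.1], by linarith [h1.2]⟩⟩
      rw [mem_ball, dist_eq_norm]
      have h2 : z - ctr σ ρ (s n) = (z - z₁) + ((W - η : ℝ) : ℂ) := by
        rw [hz₁]
        ring
      rw [h2]
      refine (norm_add_le _ _).trans_lt ?_
      rw [Complex.norm_real, Real.norm_of_nonneg (by linarith), hrad]
      have : (0 : ℝ) ≤ n := Nat.cast_nonneg n
      linarith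
    have hz₁m : z₁ ∈ ball (ctr σ ρ (s n)) (s n - r₁) := (hsub z₁ (mem_ball_self hη0)).1
    have hev : Jn n =ᶠ[𝓝 z₁] Jn m := by
      filter_upwards [ball_mem_nhds z₁ hη0] with z hz
      obtain ⟨h1, h2, h3⟩ := hsub z hz
      rw [hJI n z h1 h2 h3, hJI m z (hmono n m hnm h1) h2 h3]
    exact fun z hz => ((hJd n).analyticOnNhd isOpen_ball).eqOn_of_preconnected_of_eventuallyEq
      (((hJd m).mono (hmono n m hnm)).analyticOnNhd isOpen_ball) (convex_ball _ _).isPreconnected hz₁m hev hz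
  have hagree' : ∀ n m : ℕ, ∀ z, z ∈ ball (ctr σ ρ (s n)) (s n - r₁) → z ∈ ball (ctr σ ρ (s m)) (s m - r₁) → Jn n z = Jn m z := by
    intro n m z hn hm
    rcases le_total n m with h1 | h1
    · exact hagree n m h1 z hn
    · exact (hagree m n h1 z hm).symm
  -- a ball which contains the point
  have hcov : ∀ z : ℂ, ρ + r₁ + 1 < σ * z.im → ∃ n : ℕ, z ∈ ball (ctr σ ρ (s n)) (s n - r₁) ∧ (n : ℝ) ≤ z.re ^ 2 + (σ * z.im - (ρ + r₁)) ^ 2 + 1 := by
    intro z hz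
    refine ⟨⌈z.re ^ 2 + (σ * z.im - (ρ + r₁)) ^ 2⌉₊, ?_, ?_⟩
    · rw [hmem']
      have h1 := Nat.le_ceil (z.re ^ 2 + (σ * z.im - (ρ + r₁)) ^ 2)
      set q := (⌈z.re ^ 2 + (σ * z.im - (ρ + r₁)) ^ 2⌉₊ : ℝ) with hq
      have h2 : 1 < σ * z.im - (ρ + r₁) := by linarith
      have h3 : 0 ≤ z.re ^ 2 + (σ * z.im - (ρ + r₁)) ^ 2 := by positivity
      nlinarith
    · exact (Nat.ceil_lt_add_one (by positivity)).le
  choose! N hN hNb using hcov
  set V : Set ℂ := {z : ℂ | ρ + r₁ + 1 < σ * z.im} with hV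
  have hVo : IsOpen V := isOpen_lt continuous_const (by fun_prop)
  set J : ℂ → ℂ := fun z => Jn (N z) z with hJdef
  have hJn : ∀ n : ℕ, ∀ z ∈ V, z ∈ ball (ctr σ ρ (s n)) (s n - r₁) → J z = Jn n z := fun n z hz hzn => hagree' (N z) n z (hN z hz) hzn
  have hJdiff : DifferentiableOn ℂ J V := by
    intro z hz
    have h1 : J =ᶠ[𝓝 z] Jn (N z) := by
      filter_upwards [hVo.mem_nhds hz, isOpen_ball.mem_nhds (hN z hz)] with w hw hw2
      exact hJn (N z) w hw hw2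
    exact (h1.differentiableAt_iff.2 ((hJd (N z)).differentiableAt (isOpen_ball.mem_nhds (hN z hz)))).differentiableWithinAt
  set C₂ : ℝ := r₁ + W + 4 + 2 * (ρ + r₁) ^ 2 with hC₂
  have hC₂0 : 2 ≤ C₂ := by
    rw [hC₂]
    nlinarith [sq_nonneg (ρ + r₁)]
  have hJbound : ∀ z ∈ V, ‖J z‖ ≤ C * C₂ ^ k * (1 + ‖z‖) ^ (2 * k) := by
    intro z hz
    refine (hJb (N z) z (hN z hz)).trans ?_
    have h1 : 1 + s (N z) ≤ C₂ * (1 + ‖z‖) ^ 2 := by
      have h2 := hNb z hz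
      have h3 : z.re ^ 2 + z.im ^ 2 = ‖z‖ ^ 2 := by
        rw [Complex.sq_norm, Complex.normSq_apply]
        ring
      have h4 : (σ * z.im) ^ 2 = z.im ^ 2 := by
        rw [mul_pow, pow_two σ, sq_one hσ, one_mul]
      have h5 : (σ * z.im - (ρ + r₁)) ^ 2 ≤ 2 * z.im ^ 2 + 2 * (ρ + r₁) ^ 2 := by
        nlinarith [sq_nonneg (σ * z.im + (ρ + r₁))]
      have h6 : s (N z) = r₁ + W + 1 + N z := rfl
      have h7 : 0 ≤ ‖z‖ := norm_nonneg z
      rw [h6]
      have h8 : 1 + (r₁ + W + 1 + (N z : ℝ)) ≤ C₂ + 2 * ‖z‖ ^ 2 := by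
        rw [hC₂]
        nlinarith [sq_nonneg z.re]
      nlinarith [mul_nonneg (show 0 ≤ C₂ - 2 by linarith) (sq_nonneg ‖z‖)]
    have h9 : 0 ≤ 1 + s (N z) := by linarith [hsr (N z)]
    calc C * (1 + s (N z)) ^ k ≤ C * (C₂ * (1 + ‖z‖) ^ 2) ^ k := mul_le_mul_of_nonneg_left (pow_le_pow_left₀ h9 h1 k) hC
      _ = C * C₂ ^ k * (1 + ‖z‖) ^ (2 * k) := by rw [mul_pow, ← pow_mul]; ring
  have hJzero : ∀ l : ℤ, a + p * l * Complex.I ∈ V → J (a + p * l * Complex.I) = 0 := fun l hl => hJ0 (N _) l (hN _ hl)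
  have hCC : 0 ≤ C * C₂ ^ k := mul_nonneg hC (pow_nonneg (by linarith) k)
  have hfin : ∀ z ∈ V, J z = 0 := by
    rcases hσ with h1 | h1
    · subst h1
      have hVeq : V = {z : ℂ | ρ + r₁ + 1 < z.im} := by
        rw [hV]
        simp only [one_mul]
      intro z hz
      refine zero_up (a := a) (m := 2 * k) hp (hVeq ▸ hJdiff) hCC (fun w hw => hJbound w (by rw [hVeq]; exact hw))
        (fun l hl => hJzero l (by rw [hVeq]; exact hl)) z (by rw [hVeq] at hz; exact hz)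
    · subst h1
      have hVeq : ∀ z : ℂ, ρ + r₁ + 1 < z.im → -z ∈ V := by
        intro z hz
        show ρ + r₁ + 1 < -1 * (-z).im
        rw [Complex.neg_im]
        linarith
      intro z hz
      have hz' : ρ + r₁ + 1 < (-z).im := by
        have h2 : ρ + r₁ + 1 < -1 * z.im := hz
        rw [Complex.neg_im]
        linarith
      have h2 := zero_up (J := fun w => J (-w)) (a := -a) (m := 2 * k) (ρ := ρ + r₁ + 1) hp
        (fun w hw => ((hJdiff.differentiableAt (hVo.mem_nhds (hVeq w hw))).comp w differentiableAt_id.neg).differentiableWithinAt) hCC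
        (fun w hw => by
          have h3 := hJbound (-w) (hVeq w hw)
          rwa [norm_neg] at h3) (fun l hl => by
          have h3 : -(-a + p * l * Complex.I) = a + p * ((-l : ℤ) : ℂ) * Complex.I := by
            push_cast
            ring
          have h4 := hVeq _ hl
          rw [h3] at h4
          show J (-(-a + p * l * Complex.I)) = 0
          rw [h3]
          exact hJzero (-l) h4) (-z) hz'
      simpa using h2
  intro z hz hzG hzW
  have hzV : z ∈ V := by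
    have h1 : ρ + (r₁ + 1) < σ * z.im := hz
    show ρ + r₁ + 1 < σ * z.im
    linarith
  rw [← hJI (N z) z (hN z hzV) hzG hzW]
  exact hfin z hzV

end Pool.Agent.H87.LU

end

section

/-!
# LU Half: two members of `S` which are close on a half strip agree (port of EL DyE)
-/

set_option autoImplicit false

open Topology Filter Metric

namespace Pool.Agent.H87.LU

attribute [-instance] ProperSMul.toContinuousSMul

variable {Y : Type} [MetricSpace Y] {K : Set Y} {p : ℝ} {B : Set ℂ} {δ W : ℝ} {S : Set ℂ → Set (ℂ → Y)}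
    {Zr : ℂ → Y → Prop} {II : ℂ → Y → Y → ℂ}

theorem chain_real {t : ℝ} {σ : ℝ} {r : ℝ → ℝ → Prop} (htr : ∀ a b c, r a b → r b c → r a c)
    (h1 : ∀ a b : ℝ, t ≤ σ * a → t ≤ σ * b → |a - b| ≤ 1 → r a b) {a b : ℝ} (ha : t ≤ σ * a) (hb : t ≤ σ * b) : r a b := by
  obtain ⟨n, hn⟩ := exists_nat_ge |b - a|
  have hn0 : (0 : ℝ) < (n : ℝ) + 1 := by positivity
  have hp : ∀ i : ℕ, i ≤ n + 1 → t ≤ σ * (a + (i : ℝ) / ((n : ℝ) + 1) * (b - a)) := by
    intro i hi
    have h2 : (i : ℝ) / ((n : ℝ) + 1) ≤ 1 := by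
      rw [div_le_one hn0]
      exact_mod_cast hi
    have h3 : 0 ≤ (i : ℝ) / ((n : ℝ) + 1) := by positivity
    set q := (i : ℝ) / ((n : ℝ) + 1)
    nlinarith [mul_nonneg h3 (sub_nonneg.2 hb), mul_nonneg (sub_nonneg.2 h2) (sub_nonneg.2 ha)]
  have key : ∀ i : ℕ, i ≤ n + 1 → r a (a + (i : ℝ) / ((n : ℝ) + 1) * (b - a)) := by
    intro i
    induction i with
    | zero =>
      intro _
      have h2 : a + ((0 : ℕ) : ℝ) / ((n : ℝ) + 1) * (b - a) = a := by simp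
      rw [h2]
      exact h1 a a ha ha (by simp)
    | succ i ih =>
      intro hi
      refine htr _ _ _ (ih (by omega)) (h1 _ _ (hp i (by omega)) (hp (i + 1) hi) ?_)
      have h2 : a + (i : ℝ) / ((n : ℝ) + 1) * (b - a) - (a + ((i + 1 : ℕ) : ℝ) / ((n : ℝ) + 1) * (b - a)) = -((b - a) / ((n : ℝ) + 1)) := by
        push_cast
        ring
      rw [h2, abs_neg, abs_div, abs_of_pos hn0, div_le_one hn0]
      linarith
  have h2 := key (n + 1) le_rfl
  have h3 : a + ((n + 1 : ℕ) : ℝ) / ((n : ℝ) + 1) * (b - a) = b := by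
    have h4 : ((n + 1 : ℕ) : ℝ) / ((n : ℝ) + 1) = 1 := by
      push_cast
      exact div_self hn0.ne'
    rw [h4]
    ring
  rwa [h3] at h2

theorem ball_sub_HP {σ ρ y R : ℝ} (hσ : σ = 1 ∨ σ = -1) (h : ρ + R ≤ σ * y) : ball ((y : ℂ) * Complex.I) R ⊆ HP σ ρ := by
  intro z hz
  rw [mem_ball, dist_eq_norm] at hz
  have h1 := (Complex.abs_im_le_norm (z - (y : ℂ) * Complex.I)).trans_lt hz
  have h2 : (z - (y : ℂ) * Complex.I).im = z.im - y := by simp
  rw [h2] at h1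
  have h3 : |σ * (z.im - y)| < R := by
    have h4 : |σ| = 1 := by rcases hσ with rfl | rfl <;> norm_num
    rw [abs_mul, h4, one_mul]
    exact h1
  have h4 := (abs_lt.1 h3).1
  show ρ < σ * z.im
  nlinarith

theorem HP_anti {σ ρ ρ' : ℝ} (h : ρ ≤ ρ') : HP σ ρ' ⊆ HP σ ρ := fun _ hz => lt_of_le_of_lt h hz

theorem UDyn.res_HP (h : UDyn K p B δ W S Zr II) {σ ρ ρ' : ℝ} (hρ : ρ ≤ ρ') {f : ℂ → Y} (hf : f ∈ S (HP σ ρ)) : f ∈ S (HP σ ρ') :=
  h.anti _ _ (isOpen_HP σ ρ) (convex_HP σ ρ) (isOpen_HP σ ρ') (convex_HP σ ρ') (HP_anti hρ) hf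

theorem UDyn.res_univ (h : UDyn K p B δ W S Zr II) {Ω : Set ℂ} (hΩ : IsOpen Ω) (hΩc : Convex ℝ Ω) {f : ℂ → Y} (hf : f ∈ S Set.univ) : f ∈ S Ω :=
  h.anti _ _ isOpen_univ convex_univ hΩ hΩc (Set.subset_univ _) hf

theorem UDyn.half_plane (h : UDyn K p B δ W S Zr II) : ∃ ε : ℝ, 0 < ε ∧ ∀ σ ρ : ℝ, (σ = 1 ∨ σ = -1) → ∀ f ∈ S (HP σ ρ), ∀ g ∈ S (HP σ ρ),
    (∀ z ∈ HP σ ρ, z ∈ Gd B δ → |z.re| ≤ W → dist (f z) (g z) ≤ ε) → AgO B (HP σ ρ) f g := by
  obtain ⟨ε₁, n₁, hε₁, hn₁, hsep⟩ := h.sep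
  obtain ⟨ε₂, R₂, hε₂, hR₂, hrig⟩ := h.rigid
  obtain ⟨r', ε₀, hr', hε₀, hzero⟩ := h.half_zero
  have hW := h.W_pos
  obtain ⟨ε', hε'def⟩ : ∃ ε' : ℝ, ε' = min (min (ε₁ / 2) ε₂) ε₀ := ⟨_, rfl⟩
  have hε' : 0 < ε' := by
    rw [hε'def]
    exact lt_min (lt_min (by positivity) hε₂) hε₀
  have hε'1 : ε' ≤ ε₁ / 2 := by
    rw [hε'def]
    exact (min_le_left _ _).trans (min_le_left _ _)
  have hε'2 : ε' ≤ ε₂ := by
    rw [hε'def]
    exact (min_le_left _ _).trans (min_le_right _ _)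
  have hε'0 : ε' ≤ ε₀ := by
    rw [hε'def]
    exact min_le_right _ _
  obtain ⟨ε₃, R₃, hε₃, hR₃, hnear⟩ := h.near_zs hε' (n₁ + W + 2)
  refine ⟨min ε₃ ε₀, lt_min hε₃ hε₀, ?_⟩
  intro σ ρ hσ f hf g hg hclose
  by_contra hag
  have hσa : |σ| = 1 := by rcases hσ with rfl | rfl <;> norm_num
  have hσσ := sq_one hσ
  -- (1)
  have h1 : ∀ z ∈ HP σ (ρ + r'), z ∈ Gd B (2 * δ) → |z.re| < W → II z (f z) (g z) = 0 :=
    hzero σ ρ hσ f hf g hg fun z hz hzG hzW => (hclose z hz hzG hzW).trans (min_le_right _ _)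
  -- (2)
  have h2 : ∀ y : ℝ, ρ + r' + R₃ ≤ σ * y → ∃ e ∈ ZS B δ W S Zr, Cl B δ W f e y (n₁ + W + 2) ε' ∧ Cl B δ W g e y (n₁ + W + 2) ε' := by
    intro y hy
    refine hnear (HP σ ρ) (isOpen_HP σ ρ) (convex_HP σ ρ) f hf g hg hag y (ball_sub_HP hσ (by linarith)) ?_ ?_
    · intro z hz hzG hzW
      exact (hclose z (ball_sub_HP hσ (by linarith) hz) hzG hzW).trans (min_le_left _ _)
    · intro z hz hzG hzW
      exact h1 z (ball_sub_HP hσ (by linarith) hz) hzG hzW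
  have : Nonempty (ℂ → Y) := ⟨f⟩
  choose! e heZ hef heg using h2
  -- (3)
  have h3 : ∀ a b : ℝ, ρ + r' + R₃ ≤ σ * a → ρ + r' + R₃ ≤ σ * b → AgO B Set.univ (e a) (e b) := by
    intro a b ha hb
    refine chain_real (r := fun a b => AgO B Set.univ (e a) (e b)) (t := ρ + r' + R₃) (σ := σ) ?_ ?_ ha hb
    · intro a b c hab hbc z hz hzB
      exact (hab z hz hzB).trans (hbc z hz hzB)
    · intro a b ha hb hab
      refine hsep _ (heZ a ha) _ (heZ b hb) a ?_
      intro z hz hzG hzW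
      rw [mem_ball, dist_eq_norm] at hz
      have h4 := hef a ha z (by rw [mem_ball, dist_eq_norm]; linarith) hzG hzW
      have h5 : ‖z - (b : ℂ) * Complex.I‖ < n₁ + W + 2 := by
        have h6 : z - (b : ℂ) * Complex.I = (z - (a : ℂ) * Complex.I) + ((a - b : ℝ) : ℂ) * Complex.I := by
          push_cast
          ring
        rw [h6]
        refine (norm_add_le _ _).trans_lt ?_
        rw [norm_mul, Complex.norm_I, mul_one, Complex.norm_real, Real.norm_eq_abs]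
        linarith
      have h7 := hef b hb z (by rw [mem_ball, dist_eq_norm]; exact h5) hzG hzW
      have h8 := dist_triangle_left (e a z) (e b z) (f z)
      linarith
  set y₀ : ℝ := σ * (ρ + r' + R₃) with hy₀
  have hy₀' : σ * y₀ = ρ + r' + R₃ := by rw [hy₀, ← mul_assoc, hσσ, one_mul]
  set E := e y₀ with hE
  have hEZ : E ∈ ZS B δ W S Zr := heZ y₀ hy₀'.ge
  set ρ₂ : ℝ := ρ + r' + R₃ with hρ₂
  have h4 : ∀ z ∈ HP σ ρ₂, z ∈ Gd B δ → |z.re| ≤ W → dist (f z) (E z) ≤ ε' ∧ dist (g z) (E z) ≤ ε' := by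
    intro z hz hzG hzW
    have hz' : ρ₂ < σ * z.im := hz
    have hzb : z ∈ ball ((z.im : ℂ) * Complex.I) (n₁ + W + 2) := by
      rw [mem_ball, dist_eq_norm]
      have h6 : z - (z.im : ℂ) * Complex.I = ((z.re : ℝ) : ℂ) := by
        apply Complex.ext <;> simp
      rw [h6, Complex.norm_real, Real.norm_eq_abs]
      linarith
    have h5 := h3 z.im y₀ hz'.le hy₀'.ge z (Set.mem_univ z) (gd_notMem h.δ_pos hzG)
    rw [hE, ← h5]
    exact ⟨hef z.im hz'.le z hzb hzG hzW, heg z.im hz'.le z hzb hzG hzW⟩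
  -- (4)
  have hES : E ∈ S (HP σ ρ₂) := h.res_univ (isOpen_HP _ _) (convex_HP _ _) hEZ.1
  have hfS : f ∈ S (HP σ ρ₂) := h.res_HP (by rw [hρ₂]; linarith) hf
  have hgS : g ∈ S (HP σ ρ₂) := h.res_HP (by rw [hρ₂]; linarith) hg
  have h5 : ∀ z ∈ HP σ (ρ₂ + r'), z ∈ Gd B (2 * δ) → |z.re| < W → II z (E z) (f z) = 0 :=
    hzero σ ρ₂ hσ E hES f hfS fun z hz hzG hzW => by
      rw [dist_comm]
      exact (h4 z hz hzG hzW).1.trans hε'0
  have h6 : ∀ z ∈ HP σ (ρ₂ + r'), z ∈ Gd B (2 * δ) → |z.re| < W → II z (E z) (g z) = 0 :=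
    hzero σ ρ₂ hσ E hES g hgS fun z hz hzG hzW => by
      rw [dist_comm]
      exact (h4 z hz hzG hzW).2.trans hε'0
  -- (5)
  set y₃ : ℝ := σ * (ρ₂ + r' + R₂) with hy₃
  have hy₃' : σ * y₃ = ρ₂ + r' + R₂ := by rw [hy₃, ← mul_assoc, hσσ, one_mul]
  have hb3 : ball ((y₃ : ℂ) * Complex.I) R₂ ⊆ HP σ (ρ₂ + r') := ball_sub_HP hσ hy₃'.ge
  have hρρ : ρ ≤ ρ₂ + r' := by rw [hρ₂]; linarith
  have hρρ' : ρ₂ ≤ ρ₂ + r' := by linarith
  have h7 : AgO B (HP σ ρ) E f := hrig E hEZ (HP σ ρ) (isOpen_HP _ _) (convex_HP _ _) f hf y₃ (hb3.trans (HP_anti hρρ))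
    (fun z hz hzG hzW => (h4 z (HP_anti hρρ' (hb3 hz)) hzG hzW).1.trans hε'2) fun z hz hzG hzW => h5 z (hb3 hz) hzG hzW
  have h8 : AgO B (HP σ ρ) E g := hrig E hEZ (HP σ ρ) (isOpen_HP _ _) (convex_HP _ _) g hg y₃ (hb3.trans (HP_anti hρρ))
    (fun z hz hzG hzW => (h4 z (HP_anti hρρ' (hb3 hz)) hzG hzW).2.trans hε'2) fun z hz hzG hzW => h6 z (hb3 hz) hzG hzW
  exact hag fun z hz hzB => (h7 z hz hzB).symm.trans (h8 z hz hzB)

end Pool.Agent.H87.LU

end
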