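import Pool.Agent.H94.CB.H62.EF.PrLip
import Pool.Agent.H94.CB.M187
import Pool.Agent.H94.CB.M189
import Pool.Agent.H94.CB.M190
import Pool.Agent.H94.CB.M191
import Pool.Agent.H94.CB.M204

/-! The parts of this file: EG.LE.Sel, H87.LU.Fin, H87.LU.Arm, H87.LR.LimA, H87.LR.LimGen, H46.LR.Sc, H87.LR.LB. -/

section

/-!
# EG LE Sel: a finite family of charts

Proof (helper41):
C0 := {x in D | no chart of type ex = false}; pr '' C0 is finite (D_fin); choose representatives x_1, ..., x_n (n distinct points of projective space) and for each of them a type T_i with a chart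
(D_end); T_i.ex = true.  Choose open cones O_i around x_i, pairwise disjoint, with x_j not in O_i for j ≠ i (distinct points pr x_i of a metric space: O_i := {y ≠ 0 | dist (pr y) (pr x_i) < d / 2},
d the minimal distance), and charts c_i := mk_ch with c_i.W ⊆ O_i (O_i is a cone, so a • x in O_i implies x in O_i).
K := union of the compact sets K_i := pr '' (c_i.s '' {‖p.1‖ ≤ 1/2, ‖p.2‖ ≤ 1/2}) (isCompact_pt, pt_pr).
D' := pr '' {x in D | no i with c_i.Pt (CenB b_i) x} is compact: pr '' D is compact (isCone_D, H62.EF.isCompact_pr) and the condition is closed (pt_open for the open set CenB b ∩ ball 0 3; pt_pr).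
A point x of D with pr x in D' is not in K: if x = a • c_i.s p, ‖p.1‖, ‖p.2‖ ≤ 1/2, x in D, then x not in V? no: use: x in D implies p.1 * p.2 ^ b = 0.  Indeed if p.1 * p.2 ^ b ≠ 0 then the points
of V near x have ‖exp u‖ ≥ c > 0 (exp u (s p') = κ p'.1 p'.2^b is near κ p.1 p.2^b ≠ 0 for p' near p, pt_open), but x in D has points of V arbitrarily near with ‖exp u‖ arbitrarily small
(near_D: sigma p', p' -> 0 in the chart of D_end).  So p.1 = 0 (then CenS p) or b = 1, p.2 = 0 (then CenS p.swap), so p in CenB b: contradiction.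
For x with pr x in D': x is not a multiple of any x_i (the centres are in CenB: Pt {0}), so x has a chart of type ex = false; K is closed, choose the chart c_x := mk_ch with c_x.W disjoint from the
cone over K.  The sets {pr y | c_x.Pt CenS y} are neighbourhoods of pr x relative to pr '' Xb (pt_open): finitely many of them cover D'.
Family: the c_i and these finitely many c_x (κ := Fin n ⊕ Fin m or a subtype).  cov: clear.  sep: i has ex = true, so i is one of the c_i; j = c_j: c_j.W ⊆ O_j, c_i.s p in O_i; j = c_x: c_x.W is disjoint from the cone over K.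
-/

set_option autoImplicit false

open Topology Filter Metric Set

namespace Pool.Agent.EG.LE

attribute [-instance] ProperSMul.toContinuousSMul

open Pool.Agent.H36.BP (EN fs wd)
open Pool.Agent.H14.PP (IsCone Tan jac)
open Pool.Agent.H62.EF (MN pr)
open Pool.Agent.H62.EL (TForm)
open Pool.Agent.EG.RL (rot)

variable {N : ℕ} {Xb V U D : Set (EN N)} {Λ : AddSubgroup ℂ} {u : EN N → ℂ} {α : TForm V Λ u}

private theorem Sel_cen {b : ℕ} : (0 : ℂ × ℂ) ∈ CenB b := by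
  refine Or.inl ⟨?_, ?_⟩
  · rw [Prod.fst_zero, norm_zero]
    norm_num
  · rw [Prod.snd_zero, norm_zero]
    norm_num

private theorem Sel_cen_ball {b : ℕ} : CenB b ⊆ ball (0 : ℂ × ℂ) 3 := by
  rintro p hp
  rw [mem_ball_zero_iff, Prod.norm_def, max_lt_iff]
  rcases hp with ⟨h1, h2⟩ | ⟨-, h1, h2⟩
  · exact ⟨by linarith, by linarith⟩
  · rw [Prod.fst_swap] at h1
    rw [Prod.snd_swap] at h2
    exact ⟨by linarith, by linarith⟩

private theorem Sel_cenS_open : IsOpen {p : ℂ × ℂ | CenS p} := by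
  have h1 : IsOpen {p : ℂ × ℂ | ‖p.1‖ < 3 / 8} := isOpen_lt (by fun_prop) continuous_const
  have h2 : IsOpen {p : ℂ × ℂ | ‖p.2‖ < 7 / 8} := isOpen_lt (by fun_prop) continuous_const
  exact h1.inter h2

private theorem Sel_cen_open {b : ℕ} : IsOpen (CenB b) := by
  have h1 : IsOpen {p : ℂ × ℂ | CenS p.swap} := Sel_cenS_open.preimage continuous_swap
  by_cases hb : b = 1
  · have h2 : CenB b = {p : ℂ × ℂ | CenS p} ∪ {p : ℂ × ℂ | CenS p.swap} := by
      ext p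
      exact ⟨fun h => h.imp id fun h => h.2, fun h => h.imp id fun h => ⟨hb, h⟩⟩
    rw [h2]
    exact Sel_cenS_open.union h1
  · have h2 : CenB b = {p : ℂ × ℂ | CenS p} := by
      ext p
      exact ⟨fun h => h.resolve_right fun h => hb h.1, fun h => Or.inl h⟩
    rw [h2]
    exact Sel_cenS_open

private theorem Sel_half {p : ℂ × ℂ} (h1 : ‖p.1‖ ≤ 1 / 2) (h2 : ‖p.2‖ ≤ 1 / 2) : p ∈ ball (0 : ℂ × ℂ) 3 := by
  rw [mem_ball_zero_iff, Prod.norm_def, max_lt_iff]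
  exact ⟨by linarith, by linarith⟩

/-- A point of the chart: the points of the cone with near projection are in the chart. -/
private theorem Sel_near (h : EndData Xb V U D Λ u α) (c : LCh Xb V U α) {x : EN N} (hx0 : x ≠ 0) (hx : c.Pt (CenB c.b) x) :
    ∃ δ : ℝ, 0 < δ ∧ ∀ y ∈ Xb, dist (pr y) (pr x) < δ → c.Pt (CenB c.b) y := by
  have h1 := pt_open h c Sel_cen_open Sel_cen_ball hx
  obtain ⟨δ, hδ, h2⟩ := Pool.Agent.H62.EF.near_of_pr hx0 h1
  refine ⟨δ, hδ, fun y hy hd => ?_⟩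
  have hy0 : y ≠ 0 := fun h3 => h.cone.zero_notMem (h3 ▸ hy)
  obtain ⟨a, ha, h3⟩ := h2 y hy0 hd
  have h4 := pt_smul c (h3 (h.cone.smul_mem y hy a ha)) (inv_ne_zero ha)
  rwa [smul_smul, inv_mul_cancel₀ ha, one_smul] at h4

/-- Near a point of `D` the function `exp u` is small. -/
private theorem Sel_small {x : EN N} {T : Typ} (hT : IsEndT Xb V U α T x) {c₀ : ℝ} (hc₀ : 0 < c₀) {O : Set (EN N)} (hO : O ∈ 𝓝 x) :
    ∃ y ∈ O, y ∈ V ∧ ‖Complex.exp (u y)‖ < c₀ := by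
  obtain ⟨σ, τ, hσ, -, hσ0, -, hp, -⟩ := hT
  have hd : Tendsto (fun t : ℂ => ((t, t) : ℂ × ℂ)) (𝓝[≠] (0 : ℂ)) (𝓝 0) := by
    have h1 : Continuous fun t : ℂ => ((t, t) : ℂ × ℂ) := by fun_prop
    exact (h1.tendsto 0).mono_left nhdsWithin_le_nhds
  have h1 : ∀ᶠ t : ℂ in 𝓝[≠] (0 : ℂ), σ (t, t) ∈ O := by
    have h2 : Tendsto (fun t : ℂ => σ (t, t)) (𝓝[≠] (0 : ℂ)) (𝓝 x) := by
      rw [← hσ0]
      exact hσ.continuousAt.tendsto.comp hd
    exact h2.eventually_mem hO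
  have h2 : ∀ᶠ t : ℂ in 𝓝[≠] (0 : ℂ), ‖t * t ^ T.b‖ < c₀ := by
    have h3 : Continuous fun t : ℂ => ‖t * t ^ T.b‖ := by fun_prop
    have h4 : Tendsto (fun t : ℂ => ‖t * t ^ T.b‖) (𝓝[≠] (0 : ℂ)) (𝓝 0) := by
      have h5 := (h3.tendsto 0).mono_left (nhdsWithin_le_nhds (s := {0}ᶜ))
      rwa [zero_mul, norm_zero] at h5
    exact h4.eventually_lt_const hc₀
  have h3 : ∀ᶠ t : ℂ in 𝓝[≠] (0 : ℂ), t ≠ 0 := self_mem_nhdsWithin
  obtain ⟨t, ⟨⟨h4, h5⟩, h6⟩, h7⟩ := (((h1.and h2).and h3).and (hd.eventually hp)).exists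
  have h8 : σ (t, t) ∈ V := h7.2.1.2 ⟨h6, fun _ => h6⟩
  exact ⟨_, h4, h8, by rw [h7.2.2.2 h8]; exact h5⟩

/-- The points of `D` in a chart are on the axes. -/
private theorem Sel_axis (h : EndData Xb V U D Λ u α) (c : LCh Xb V U α) {x : EN N} (hx : x ∈ D) {p : ℂ × ℂ} (hp : p ∈ ball (0 : ℂ × ℂ) 3)
    {a : ℂ} (ha : a ≠ 0) (he : x = a • c.s p) : p.1 * p.2 ^ c.b = 0 := by
  by_contra hcon
  have hne : c.κ * p.1 * p.2 ^ c.b ≠ 0 := by
    rw [mul_assoc]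
    exact mul_ne_zero c.κ_ne hcon
  have hpos : 0 < ‖c.κ * p.1 * p.2 ^ c.b‖ := norm_pos_iff.2 hne
  set c₀ : ℝ := ‖c.κ * p.1 * p.2 ^ c.b‖ / 2 with hc₀
  have hc₀pos : 0 < c₀ := by positivity
  set A : Set (ℂ × ℂ) := ball 0 3 ∩ {p' | c₀ < ‖c.κ * p'.1 * p'.2 ^ c.b‖} with hA
  have hAo : IsOpen A := isOpen_ball.inter (isOpen_lt continuous_const (by fun_prop))
  have hpA : p ∈ A := ⟨hp, by change c₀ < ‖c.κ * p.1 * p.2 ^ c.b‖; linarith⟩
  have h1 := pt_open h c hAo inter_subset_left (x := x) ⟨p, hpA, a, ha, he⟩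
  obtain ⟨T, hT⟩ := h.D_end x hx
  obtain ⟨y, hyO, hyV, hy⟩ := Sel_small hT hc₀pos h1
  obtain ⟨p', hp', a', ha', hy'⟩ := hyO (h.V_sub hyV)
  have hs : c.s p' ∈ V := by
    have h2 := h.V_smul y hyV a'⁻¹ (inv_ne_zero ha')
    rwa [hy', smul_smul, inv_mul_cancel₀ ha', one_smul] at h2
  have h2 : Complex.exp (u y) = Complex.exp (u (c.s p')) := by
    have h3 := (h.lat _).1 (h.u_smul _ hs a' ha')
    rw [← hy', Complex.exp_sub, div_eq_one_iff_eq (Complex.exp_ne_zero _)] at h3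
    exact h3
  rw [h2, c.s_u p' hp'.1 hs] at hy
  have h3 : c₀ < ‖c.κ * p'.1 * p'.2 ^ c.b‖ := hp'.2
  linarith

theorem exists_fam (h : EndData Xb V U D Λ u α) : ∃ κ : Type, Nonempty (LFam Xb V U D α κ) := by
  classical
  set C0 : Set (EN N) := {x | x ∈ D ∧ ¬ ∃ T : Typ, T.ex = false ∧ IsEndT Xb V U α T x} with hC0
  have hD0 : ∀ x ∈ D, x ≠ 0 := fun x hx h0 => h.cone.zero_notMem (h0 ▸ h.D_sub hx)
  have hfin : (pr '' C0).Finite := h.D_fin
  have : Finite (pr '' C0) := hfin.to_subtype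
  obtain ⟨𝒰, h𝒰, hdisj⟩ := hfin.t2_separation
  -- the charts at the special points
  have hch : ∀ i : pr '' C0, ∃ c : LCh Xb V U α, c.ex = true ∧ (∀ x ∈ D, pr x = i → c.Pt (CenB c.b) x) ∧ ∀ y ∈ c.W, pr y ∈ 𝒰 i := by
    rintro ⟨_, x, hx, rfl⟩
    obtain ⟨T, hT⟩ := h.D_end x hx.1
    have hx0 := hD0 x hx.1
    have hO : {y : EN N | pr y ∈ 𝒰 (pr x)} ∈ 𝓝 x :=
      (Pool.Agent.H62.EF.continuousAt_pr hx0).preimage_mem_nhds ((h𝒰 (pr x)).2.mem_nhds (h𝒰 (pr x)).1)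
    obtain ⟨c, hcT, hc0, hcW⟩ := mk_ch h hx.1 hT hO
    refine ⟨c, ?_, ?_, ?_⟩
    · rw [hcT]
      by_contra hcon
      exact hx.2 ⟨T, by simpa using hcon, hT⟩
    · intro y hy hyx
      obtain ⟨a, ha, h1⟩ := (Pool.Agent.H62.EF.pr_eq_iff (hD0 y hy) hx0).1 hyx
      obtain ⟨p, hp, b, hb, h2⟩ := pt_smul c hc0 ha
      rw [mem_singleton_iff] at hp
      subst hp
      exact ⟨0, Sel_cen, b, hb, by rw [h1, h2]⟩
    · intro y hy
      obtain ⟨a, ha, h1⟩ := hcW y hy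
      have h2 : pr (a • y) ∈ 𝒰 (pr x) := h1
      rwa [Pool.Agent.H62.EF.pr_smul y ha] at h2
  choose c hcex hcD hcW using hch
  -- the compact set
  set K : Set (MN N) := ⋃ i, (fun p => pr ((c i).s p)) '' closedBall (0 : ℂ × ℂ) (1 / 2) with hK
  have hKc : IsClosed K := by
    refine isClosed_iUnion_of_finite fun i => (isCompact_pt h (c i) (isCompact_closedBall _ _) ?_).isClosed
    exact closedBall_subset_ball (by norm_num)
  have hKD : ∀ x ∈ D, (∀ i, ¬ (c i).Pt (CenB (c i).b) x) → pr x ∉ K := by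
    intro x hx hno hxK
    obtain ⟨i, p, hp, hpx⟩ := mem_iUnion.1 hxK
    apply hno i
    have hp3 : p ∈ ball (0 : ℂ × ℂ) 3 := closedBall_subset_ball (by norm_num) hp
    have h1 : (c i).Pt {p} x := by
      rw [pt_pr h (c i) (singleton_subset_iff.2 hp3) (hD0 x hx)]
      exact ⟨p, rfl, hpx⟩
    obtain ⟨p', hp', a, ha, h2⟩ := h1
    rw [mem_singleton_iff] at hp'
    subst hp'
    have h3 := Sel_axis h (c i) hx hp3 ha h2
    rw [mem_closedBall_zero_iff, Prod.norm_def, max_le_iff] at hp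
    refine ⟨p', ?_, a, ha, h2⟩
    rcases mul_eq_zero.1 h3 with h4 | h4
    · refine Or.inl ⟨?_, ?_⟩
      · rw [h4, norm_zero]
        norm_num
      · linarith [hp.2]
    · have hb : (c i).b ≠ 0 := by
        intro h5
        rw [h5, pow_zero] at h4
        exact one_ne_zero h4
      have hb1 : (c i).b = 1 := le_antisymm (c i).b_le (Nat.one_le_iff_ne_zero.2 hb)
      have h5 : p'.2 = 0 := eq_zero_of_pow_eq_zero h4
      refine Or.inr ⟨hb1, ?_, ?_⟩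
      · rw [Prod.fst_swap, h5, norm_zero]
        norm_num
      · rw [Prod.snd_swap]
        linarith [hp.1]
  -- the other charts
  have hcone := isCone_D h
  obtain ⟨L, hL, hcov⟩ : ∃ L : List (LCh Xb V U α), (∀ d ∈ L, d.ex = false ∧ ∀ y ∈ d.W, pr y ∉ K) ∧
      ∀ y ∈ D, pr y ∈ pr '' D → (∃ i, (c i).Pt (CenB (c i).b) y) ∨ ∃ d ∈ L, d.Pt (CenB d.b) y := by
    refine IsCompact.induction_on (p := fun s => ∃ L : List (LCh Xb V U α), (∀ d ∈ L, d.ex = false ∧ ∀ y ∈ d.W, pr y ∉ K) ∧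
      ∀ y ∈ D, pr y ∈ s → (∃ i, (c i).Pt (CenB (c i).b) y) ∨ ∃ d ∈ L, d.Pt (CenB d.b) y)
      (Pool.Agent.H62.EF.isCompact_pr hcone) ?_ ?_ ?_ ?_
    · exact ⟨[], fun d hd => absurd hd List.not_mem_nil, fun y _ hy => absurd hy (notMem_empty _)⟩
    · rintro s t hst ⟨L, h1, h2⟩
      exact ⟨L, h1, fun y hy hys => h2 y hy (hst hys)⟩
    · rintro s t ⟨L, h1, h2⟩ ⟨L', h1', h2'⟩
      refine ⟨L ++ L', fun d hd => ?_, fun y hy hyst => ?_⟩
      · rcases List.mem_append.1 hd with h3 | h3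
        · exact h1 d h3
        · exact h1' d h3
      · rcases hyst with h3 | h3
        · rcases h2 y hy h3 with h4 | ⟨d, h4, h5⟩
          · exact Or.inl h4
          · exact Or.inr ⟨d, List.mem_append_left _ h4, h5⟩
        · rcases h2' y hy h3 with h4 | ⟨d, h4, h5⟩
          · exact Or.inl h4
          · exact Or.inr ⟨d, List.mem_append_right _ h4, h5⟩
    · rintro _ ⟨x, hx, rfl⟩
      have hx0 := hD0 x hx
      by_cases hcase : ∃ i, (c i).Pt (CenB (c i).b) x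
      · obtain ⟨i, hi⟩ := hcase
        obtain ⟨δ, hδ, h1⟩ := Sel_near h (c i) hx0 hi
        exact ⟨ball (pr x) δ, mem_nhdsWithin_of_mem_nhds (ball_mem_nhds _ hδ), [], fun d hd => absurd hd List.not_mem_nil,
          fun y hy hyx => Or.inl ⟨i, h1 y (h.D_sub hy) hyx⟩⟩
      · push Not at hcase
        have hxC : x ∉ C0 := fun hxC => hcase ⟨pr x, x, hxC, rfl⟩ (hcD ⟨pr x, x, hxC, rfl⟩ x hx rfl)
        obtain ⟨T, hTex, hT⟩ : ∃ T : Typ, T.ex = false ∧ IsEndT Xb V U α T x := by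
          by_contra hcon
          exact hxC ⟨hx, hcon⟩
        have hO : {y : EN N | pr y ∈ Kᶜ} ∈ 𝓝 x :=
          (Pool.Agent.H62.EF.continuousAt_pr hx0).preimage_mem_nhds (hKc.isOpen_compl.mem_nhds (hKD x hx hcase))
        obtain ⟨d, hdT, hd0, hdW⟩ := mk_ch h hx hT hO
        have hdx : d.Pt (CenB d.b) x := by
          obtain ⟨p, hp, b, hb, h2⟩ := hd0
          rw [mem_singleton_iff] at hp
          subst hp
          exact ⟨0, Sel_cen, b, hb, h2⟩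
        obtain ⟨δ, hδ, h1⟩ := Sel_near h d hx0 hdx
        refine ⟨ball (pr x) δ, mem_nhdsWithin_of_mem_nhds (ball_mem_nhds _ hδ), [d], fun d' hd' => ?_,
          fun y hy hyx => Or.inr ⟨d, List.mem_singleton.2 rfl, h1 y (h.D_sub hy) hyx⟩⟩
        rw [List.mem_singleton] at hd'
        subst hd'
        refine ⟨by rw [hdT]; exact hTex, fun y hy => ?_⟩
        obtain ⟨a, ha, h2⟩ := hdW y hy
        have h3 : pr (a • y) ∉ K := h2
        rwa [Pool.Agent.H62.EF.pr_smul y ha] at h3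
  -- the family
  refine ⟨(pr '' C0) ⊕ Fin L.length, ⟨⟨Sum.elim c fun k => L.get k, inferInstance, ?_, ?_⟩⟩⟩
  · rintro (i | k) (i' | k') hne hex p hp1 hp2 hmem
    · have h1 : i ≠ i' := fun h2 => hne (by rw [h2])
      have h2 := hcW i _ ((c i).s_mem p (Sel_half hp1 hp2)).2.1
      have h3 := hcW i' _ hmem
      exact Set.disjoint_left.1 (hdisj i.2 i'.2 fun h4 => h1 (Subtype.ext h4)) h2 h3
    · have h1 := (hL (L.get k') (List.get_mem _ _)).2 _ hmem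
      apply h1
      refine mem_iUnion.2 ⟨i, p, ?_, rfl⟩
      rw [mem_closedBall_zero_iff, Prod.norm_def, max_le_iff]
      exact ⟨hp1, hp2⟩
    · have h1 := (hL (L.get k) (List.get_mem _ _)).1
      rw [Sum.elim_inr, h1] at hex
      exact Bool.false_ne_true hex
    · have h1 := (hL (L.get k) (List.get_mem _ _)).1
      rw [Sum.elim_inr, h1] at hex
      exact Bool.false_ne_true hex
  · intro x hx
    rcases hcov x hx ⟨x, hx, rfl⟩ with ⟨i, hi⟩ | ⟨d, hd, hdx⟩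
    · exact ⟨Sum.inl i, hi⟩
    · obtain ⟨k, hk⟩ := List.mem_iff_get.1 hd
      refine ⟨Sum.inr k, ?_⟩
      rw [Sum.elim_inr, hk]
      exact hdx

end Pool.Agent.EG.LE

end

section

/-!
# LU Fin: `S ℂ` is finite (port of EL DyF)
-/

set_option autoImplicit false

open Topology Filter Metric

namespace Pool.Agent.H87.LU

attribute [-instance] ProperSMul.toContinuousSMul

variable {Y : Type} [MetricSpace Y] {K : Set Y} {p : ℝ} {B : Set ℂ} {δ W : ℝ} {S : Set ℂ → Set (ℂ → Y)}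
    {Zr : ℂ → Y → Prop} {II : ℂ → Y → Y → ℂ}

/-- agreement on a half plane implies agreement -/
theorem UDyn.ag_of_HP (h : UDyn K p B δ W S Zr II) {Ω : Set ℂ} (hΩ : IsOpen Ω) (hΩc : Convex ℝ Ω) {f g : ℂ → Y} (hf : f ∈ S Ω) (hg : g ∈ S Ω) {σ ρ : ℝ}
    (hσ : σ = 1 ∨ σ = -1) (hsub : HP σ ρ ⊆ Ω) (hag : AgO B (HP σ ρ) f g) : AgO B Ω f g := by
  have hδ := h.δ_pos
  set z₀ : ℂ := ((W : ℝ) : ℂ) + ctr σ ρ 1 with hz₀
  have hre : z₀.re = W := by rw [hz₀, Complex.add_re, ctr_re, Complex.ofReal_re, add_zero]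
  have him : σ * z₀.im = ρ + 1 := by
    rw [hz₀, Complex.add_im, ctr_im, Complex.ofReal_im, zero_add, ← mul_assoc, sq_one hσ, one_mul]
  have hz₀H : z₀ ∈ HP σ ρ := by
    show ρ < σ * z₀.im
    linarith
  refine h.uniq Ω hΩ hΩc f hf g hg z₀ (hsub hz₀H) (gd_notMem (by linarith) (h.right_mem (by rw [hre]; linarith))) ?_
  have h1 : ∀ᶠ z in 𝓝 z₀, f z = g z := by
    filter_upwards [(isOpen_HP σ ρ).mem_nhds hz₀H, ball_mem_nhds z₀ hδ] with z hz1 hz2
    refine hag z hz1 (gd_notMem (show 0 < 2 * δ by linarith) (h.right_mem ?_))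
    rw [mem_ball, dist_eq_norm] at hz2
    have h2 := (Complex.abs_re_le_norm (z - z₀)).trans_lt hz2
    rw [Complex.sub_re, hre] at h2
    linarith [(abs_lt.1 h2).1]
  exact (h1.filter_mono nhdsWithin_le_nhds).frequently

theorem UDyn.two (h : UDyn K p B δ W S Zr II)
    (hno : ¬ ∃ 𝓕 : Set (ℂ → Y), 𝓕.Finite ∧ 𝓕 ⊆ S Set.univ ∧ ∀ f ∈ S Set.univ, ∃ g ∈ 𝓕, AgO B Set.univ f g) (R ε : ℝ) (hε : 0 < ε) :
    ∃ f ∈ S Set.univ, ∃ g ∈ S Set.univ, ¬ AgO B Set.univ f g ∧ ∀ z ∈ Gd B δ, ‖z‖ ≤ R → dist (f z) (g z) < ε := by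
  let r : Setoid (S Set.univ) :=
    { r := fun f g => AgO B Set.univ f.1 g.1
      iseqv := ⟨fun f z _ _ => rfl, fun hfg z hz hz' => (hfg z hz hz').symm, fun h1 h2 z hz hz' => (h1 z hz hz').trans (h2 z hz hz')⟩ }
  have hinf : Infinite (Quotient r) := by
    by_contra hfin
    rw [not_infinite_iff_finite] at hfin
    apply hno
    refine ⟨Set.range fun q : Quotient r => (q.out : ℂ → Y), Set.finite_range _, ?_, ?_⟩
    · rintro _ ⟨q, rfl⟩
      exact q.out.2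
    · intro f hf
      refine ⟨_, ⟨Quotient.mk r ⟨f, hf⟩, rfl⟩, ?_⟩
      have h1 : AgO B Set.univ ((Quotient.mk r ⟨f, hf⟩).out : ℂ → Y) f := Quotient.exact (Quotient.out_eq (Quotient.mk r ⟨f, hf⟩))
      exact fun z hz hz' => (h1 z hz hz').symm
  let e := Infinite.natEmbedding (Quotient r)
  have hΩu : ∀ n : ℕ, IsOpen ((fun _ => Set.univ : ℕ → Set ℂ) n) ∧ Convex ℝ ((fun _ => Set.univ : ℕ → Set ℂ) n) := fun n => ⟨isOpen_univ, convex_univ⟩
  have hexu : ∀ R : ℝ, ∀ᶠ n in ((hyperfilter ℕ : Ultrafilter ℕ) : Filter ℕ), ball 0 R ⊆ (fun _ => Set.univ : ℕ → Set ℂ) n :=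
    fun R => Eventually.of_forall fun n => Set.subset_univ _
  have hF : ∀ᶠ n in ((hyperfilter ℕ : Ultrafilter ℕ) : Filter ℕ), (fun k => ((e k).out : ℂ → Y)) n ∈ S ((fun _ => Set.univ : ℕ → Set ℂ) n) :=
    Eventually.of_forall fun n => (e n).out.2
  obtain ⟨f, hf, hlim⟩ := h.exists_lim (hyperfilter ℕ) (Ω := fun _ => Set.univ) (fun k => ((e k).out : ℂ → Y)) hΩu hexu hF
  have h1 := h.unif (hyperfilter ℕ) (Ω := fun _ => Set.univ) (fun k => ((e k).out : ℂ → Y)) hΩu hexu hF hf hlim h.δ_pos R (ε / 2) (half_pos hε)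
  have h2 : {k : ℕ | ∀ z ∈ Gd B δ, ‖z‖ ≤ R → dist (((e k).out : ℂ → Y) z) (f z) < ε / 2}.Infinite := by
    intro hfin
    exact notMem_hyperfilter_of_finite hfin h1
  obtain ⟨i, hi, j, hj, hij⟩ := h2.nontrivial
  refine ⟨(e i).out, (e i).out.2, (e j).out, (e j).out.2, ?_, ?_⟩
  · intro heq
    apply hij
    apply e.injective
    rw [← Quotient.out_eq (e i), ← Quotient.out_eq (e j)]
    exact Quotient.sound heq
  · intro z hz hzR
    have h3 := hi z hz hzR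
    have h4 := hj z hz hzR
    calc dist (((e i).out : ℂ → Y) z) (((e j).out : ℂ → Y) z) ≤ dist (((e i).out : ℂ → Y) z) (f z) +
          dist (((e j).out : ℂ → Y) z) (f z) := dist_triangle_right _ _ _
      _ < ε / 2 + ε / 2 := add_lt_add h3 h4
      _ = ε := add_halves ε

theorem UDyn.first_window (h : UDyn K p B δ W S Zr II) {ε : ℝ} (hε : 0 < ε)
    (hclose : ∀ f ∈ S Set.univ, ∀ g ∈ S Set.univ, (∀ z ∈ Gd B δ, |z.re| ≤ W → dist (f z) (g z) ≤ ε) → AgO B Set.univ f g)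
    (hno : ¬ ∃ 𝓕 : Set (ℂ → Y), 𝓕.Finite ∧ 𝓕 ⊆ S Set.univ ∧ ∀ f ∈ S Set.univ, ∃ g ∈ 𝓕, AgO B Set.univ f g) (n : ℕ) :
    ∃ f ∈ S Set.univ, ∃ g ∈ S Set.univ, ∃ m : ℕ, n ≤ m ∧ (∃ z ∈ Gd B δ, |z.re| ≤ W ∧ (m : ℝ) < |z.im| ∧ |z.im| ≤ m + 1 ∧ ε < dist (f z) (g z)) ∧
      ∀ z ∈ Gd B δ, |z.re| ≤ W → |z.im| ≤ m → dist (f z) (g z) ≤ ε := by
  obtain ⟨f, hf, g, hg, hne, hd⟩ := h.two hno (n + W) ε hε
  classical
  have hex : ∃ m : ℕ, n ≤ m ∧ ¬ ∀ z ∈ Gd B δ, |z.re| ≤ W → |z.im| ≤ m + 1 → dist (f z) (g z) ≤ ε := by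
    by_contra hcon
    push Not at hcon
    apply hne
    apply hclose f hf g hg
    intro z hz hzW
    obtain ⟨k, hk⟩ := exists_nat_ge |z.im|
    refine hcon (max n k) (le_max_left _ _) z hz hzW ?_
    have h1 : (k : ℝ) ≤ ((max n k : ℕ) : ℝ) := by exact_mod_cast le_max_right n k
    linarith
  have hspec := Nat.find_spec hex
  set m := Nat.find hex with hm
  have hlow : ∀ z ∈ Gd B δ, |z.re| ≤ W → |z.im| ≤ m → dist (f z) (g z) ≤ ε := by
    rcases hspec.1.eq_or_lt with heq | hlt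
    · intro z hz hzW hzm
      rw [← heq] at hzm
      exact (hd z hz ((Complex.norm_le_abs_re_add_abs_im z).trans (by linarith))).le
    · have h1 : ¬ (n ≤ m - 1 ∧ ¬ ∀ z ∈ Gd B δ, |z.re| ≤ W → |z.im| ≤ ((m - 1 : ℕ) : ℝ) + 1 → dist (f z) (g z) ≤ ε) :=
        Nat.find_min hex (by omega)
      have h2 : n ≤ m - 1 := by omega
      have h3 : ∀ z ∈ Gd B δ, |z.re| ≤ W → |z.im| ≤ ((m - 1 : ℕ) : ℝ) + 1 → dist (f z) (g z) ≤ ε := by
        by_contra h4
        exact h1 ⟨h2, h4⟩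
      have h4 : ((m - 1 : ℕ) : ℝ) + 1 = m := by
        have h5 : m - 1 + 1 = m := by omega
        exact_mod_cast h5
      rw [h4] at h3
      exact h3
  obtain ⟨h1, h2⟩ := hspec
  push Not at h2
  obtain ⟨z, hz, hzW, hzm, hzd⟩ := h2
  refine ⟨f, hf, g, hg, m, h1, ⟨z, hz, hzW, ?_, hzm, hzd⟩, hlow⟩
  by_contra h3
  push Not at h3
  exact absurd (hlow z hz hzW h3) (not_le.2 hzd)

/-- **The members of `S ℂ` are finitely many, up to their values on `B`.** -/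
theorem UDyn.finite (h : UDyn K p B δ W S Zr II) : ∃ 𝓕 : Set (ℂ → Y), 𝓕.Finite ∧ 𝓕 ⊆ S Set.univ ∧ ∀ f ∈ S Set.univ, ∃ g ∈ 𝓕, AgO B Set.univ f g := by
  by_contra hno
  have hδ := h.δ_pos
  have hp := h.p_pos
  obtain ⟨ε, hε, hhalf⟩ := h.half_plane
  have hclose : ∀ f ∈ S Set.univ, ∀ g ∈ S Set.univ, (∀ z ∈ Gd B δ, |z.re| ≤ W → dist (f z) (g z) ≤ ε) → AgO B Set.univ f g := by
    intro f hf g hg hfg
    refine h.ag_of_HP isOpen_univ convex_univ hf hg (σ := 1) (ρ := 0) (Or.inl rfl) (Set.subset_univ _) ?_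
    exact hhalf 1 0 (Or.inl rfl) f (h.res_univ (isOpen_HP _ _) (convex_HP _ _) hf) g (h.res_univ (isOpen_HP _ _) (convex_HP _ _) hg)
      fun z _ hzG hzW => hfg z hzG hzW
  choose f hf g hg m hnm hz hlow using fun n => h.first_window hε hclose hno n
  choose z hzG hzW hzm hzm' hzd using hz
  choose l hl using fun n => h.exists_int (z n).im
  set 𝒰 : Ultrafilter ℕ := Filter.hyperfilter ℕ with h𝒰
  have hle : (𝒰 : Filter ℕ) ≤ atTop := by
    rw [h𝒰, ← Nat.cofinite_eq_atTop]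
    exact Filter.hyperfilter_le_cofinite
  have hmlarge : ∀ c : ℝ, ∀ᶠ n : ℕ in (𝒰 : Filter ℕ), c ≤ (m n : ℝ) := by
    intro c
    have h1 : ∀ᶠ n : ℕ in atTop, c ≤ (n : ℝ) := tendsto_natCast_atTop_atTop.eventually_ge_atTop c
    filter_upwards [hle h1] with n hn
    have h2 : (n : ℝ) ≤ m n := by exact_mod_cast hnm n
    linarith
  have hΩu : ∀ n : ℕ, IsOpen ((fun _ => Set.univ : ℕ → Set ℂ) n) ∧ Convex ℝ ((fun _ => Set.univ : ℕ → Set ℂ) n) := fun n => ⟨isOpen_univ, convex_univ⟩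
  have hexu : ∀ R : ℝ, ∀ᶠ n in (𝒰 : Filter ℕ), ball 0 R ⊆ (fun _ => Set.univ : ℕ → Set ℂ) n :=
    fun R => Eventually.of_forall fun n => Set.subset_univ _
  have hFS : ∀ᶠ n in (𝒰 : Filter ℕ), tr p (l n) (f n) ∈ S ((fun _ => Set.univ : ℕ → Set ℂ) n) := Eventually.of_forall fun n => h.tr_univ (hf n) (l n)
  have hGS : ∀ᶠ n in (𝒰 : Filter ℕ), tr p (l n) (g n) ∈ S ((fun _ => Set.univ : ℕ → Set ℂ) n) := Eventually.of_forall fun n => h.tr_univ (hg n) (l n)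
  obtain ⟨f', hf'S, hf'⟩ := h.exists_lim 𝒰 (Ω := fun _ => Set.univ) (fun n => tr p (l n) (f n)) hΩu hexu hFS
  obtain ⟨g', hg'S, hg'⟩ := h.exists_lim 𝒰 (Ω := fun _ => Set.univ) (fun n => tr p (l n) (g n)) hΩu hexu hGS
  -- the limit of the translated points
  set w : ℕ → ℂ := fun n => z n - p * l n * Complex.I with hw
  have hwz : ∀ n, w n + p * l n * Complex.I = z n := fun n => by rw [hw]; ring
  have hwG : ∀ n, w n ∈ Gd B δ := fun n => (h.gd_add δ (l n)).1 (by rw [hwz]; exact hzG n)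
  have hwre : ∀ n, (w n).re = (z n).re := fun n => by
    have h1 := add_re p (l n) (w n)
    rw [hwz] at h1
    exact h1.symm
  have hwim : ∀ n, (w n).im = (z n).im - p * l n := fun n => by
    have h1 := add_im p (l n) (w n)
    rw [hwz] at h1
    linarith
  have hwb : ∀ n, ‖w n‖ ≤ W + p := fun n => by
    refine (Complex.norm_le_abs_re_add_abs_im _).trans ?_
    rw [hwre, hwim]
    linarith [hzW n, hl n]
  obtain ⟨w₀, -, hw₀⟩ : ∃ w₀ ∈ closedBall (0 : ℂ) (W + p), Tendsto w 𝒰 (𝓝 w₀) := by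
    have h1 : ((𝒰.map w : Ultrafilter ℂ) : Filter ℂ) ≤ 𝓟 (closedBall 0 (W + p)) := by
      rw [Filter.le_principal_iff]
      show ∀ᶠ n in (𝒰 : Filter ℕ), w n ∈ closedBall (0 : ℂ) (W + p)
      exact Eventually.of_forall fun n => by rw [mem_closedBall_zero_iff]; exact hwb n
    exact (isCompact_closedBall (0 : ℂ) (W + p)).ultrafilter_le_nhds _ h1
  have hw₀G : w₀ ∈ Gd B δ := (isClosed_gd δ).mem_of_tendsto hw₀ (Eventually.of_forall hwG)
  have hw₀B : w₀ ∉ B := gd_notMem hδ hw₀G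
  have ht1 := h.tendsto_along 𝒰 (Ω := fun _ => Set.univ) (fun n => tr p (l n) (f n)) hΩu hexu hFS hf' hw₀B hw₀
  have ht2 := h.tendsto_along 𝒰 (Ω := fun _ => Set.univ) (fun n => tr p (l n) (g n)) hΩu hexu hGS hg' hw₀B hw₀
  have hdist : ε ≤ dist (f' w₀) (g' w₀) := by
    refine ge_of_tendsto (ht1.dist ht2) (Eventually.of_forall fun n => ?_)
    show ε ≤ dist (f n (w n + p * l n * Complex.I)) (g n (w n + p * l n * Complex.I))
    rw [hwz]
    exact (hzd n).le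
  -- the sign
  have hsign : ∃ σ : ℝ, (σ = 1 ∨ σ = -1) ∧ ∀ᶠ n in (𝒰 : Filter ℕ), (z n).im = σ * |(z n).im| := by
    have h1 : ∀ᶠ n in (𝒰 : Filter ℕ), 0 ≤ (z n).im ∨ (z n).im ≤ 0 := Eventually.of_forall fun n => le_total _ _
    rw [Ultrafilter.eventually_or] at h1
    rcases h1 with h1 | h1
    · refine ⟨1, Or.inl rfl, ?_⟩
      filter_upwards [h1] with n hn
      rw [abs_of_nonneg hn, one_mul]
    · refine ⟨-1, Or.inr rfl, ?_⟩
      filter_upwards [h1] with n hn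
      rw [abs_of_nonpos hn]
      ring
  obtain ⟨σ, hσ, hσz⟩ := hsign
  have hσ' : -σ = 1 ∨ -σ = -1 := by rcases hσ with rfl | rfl <;> norm_num
  have hσσ := sq_one hσ
  have hclose' : ∀ ζ ∈ HP (-σ) (1 + p), ζ ∈ Gd B δ → |ζ.re| ≤ W → dist (f' ζ) (g' ζ) ≤ ε := by
    intro ζ hζ hζG hζW
    have hζB : ζ ∉ B := gd_notMem hδ hζG
    refine le_of_tendsto ((hf' ζ hζB).dist (hg' ζ hζB)) ?_
    filter_upwards [hσz, hmlarge (|ζ.im| + p)] with n hn hn2
    refine hlow n (ζ + p * l n * Complex.I) ((h.gd_add δ (l n)).2 hζG) (by rwa [add_re]) ?_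
    rw [add_im]
    have h1 : 1 + p < -σ * ζ.im := hζ
    have h2 := abs_le.1 (hl n)
    have h3 : |ζ.im| = -σ * ζ.im ∨ |ζ.im| = σ * ζ.im := by
      rcases hσ with rfl | rfl
      · rcases abs_cases ζ.im with h4 | h4
        · right; linarith [h4.1]
        · left; linarith [h4.1]
      · rcases abs_cases ζ.im with h4 | h4
        · left; linarith [h4.1]
        · right; linarith [h4.1]
    have h4 : 0 ≤ |ζ.im| := abs_nonneg _
    have h5 : |ζ.im| = -σ * ζ.im := by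
      rcases h3 with h6 | h6
      · exact h6
      · exfalso
        have : σ * ζ.im < 0 := by linarith
        linarith
    have h6 := hzm n
    have h7 := hzm' n
    rcases hσ with rfl | rfl
    · rw [abs_le]
      constructor <;> linarith [h2.1, h2.2]
    · rw [abs_le]
      constructor <;> linarith [h2.1, h2.2]
  have hag : AgO B Set.univ f' g' := by
    refine h.ag_of_HP isOpen_univ convex_univ hf'S hg'S (σ := -σ) (ρ := 1 + p) hσ' (Set.subset_univ _) ?_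
    exact hhalf (-σ) (1 + p) hσ' f' (h.res_univ (isOpen_HP _ _) (convex_HP _ _) hf'S) g' (h.res_univ (isOpen_HP _ _) (convex_HP _ _) hg'S) hclose'
  rw [hag w₀ (Set.mem_univ _) hw₀B, dist_self] at hdist
  linarith

end Pool.Agent.H87.LU

end

section

/-!
# LU Arm: the members of `S` over a half plane are restrictions of members of `S ℂ`; periods

(1) `sepS`: the members of `S ℂ` are uniformly separated (they are finitely many up to values on `B`, and the family is invariant under the translation by `i p`).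
(2) `near_S`: far up, a member of `S (HP σ ρ)` is near a member of `S ℂ` on every window (limits of translates).
(3) `arm`: by (1) and connectedness it is the same member `G` for all windows, so `f` is near `G` on a half strip, and `f = G` by `half_plane`.
(4) `period`: every member of `S ℂ` has a period `i p q`, `1 ≤ q`.
-/

set_option autoImplicit false

open Topology Filter Metric

namespace Pool.Agent.H87.LU

attribute [-instance] ProperSMul.toContinuousSMul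

variable {Y : Type} [MetricSpace Y] {K : Set Y} {p : ℝ} {B : Set ℂ} {δ W : ℝ} {S : Set ℂ → Set (ℂ → Y)}
    {Zr : ℂ → Y → Prop} {II : ℂ → Y → Y → ℂ}

omit [MetricSpace Y] in
theorem AgO.symm {Ω : Set ℂ} {f g : ℂ → Y} (h : AgO B Ω f g) : AgO B Ω g f := fun z hz hzB => (h z hz hzB).symm

omit [MetricSpace Y] in
theorem AgO.trans {Ω : Set ℂ} {f g e : ℂ → Y} (h : AgO B Ω f g) (h' : AgO B Ω g e) : AgO B Ω f e := fun z hz hzB => (h z hz hzB).trans (h' z hz hzB)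

theorem UDyn.sepS (h : UDyn K p B δ W S Zr II) : ∃ ε₁ R₁ : ℝ, 0 < ε₁ ∧ 0 < R₁ ∧ ∀ f ∈ S Set.univ, ∀ g ∈ S Set.univ, ∀ y : ℝ,
    Cl B δ W f g y R₁ ε₁ → AgO B Set.univ f g := by
  obtain ⟨𝓕, hfin, hsub, h𝓕⟩ := h.finite
  have hδ := h.δ_pos
  have hW := h.W_pos
  -- for a pair of members of `𝓕`
  have hpair : ∀ A A' : ℂ → Y, ∃ ε : ℝ, 0 < ε ∧ (A ∈ 𝓕 → A' ∈ 𝓕 → Cl B δ W A A' 0 (W + p + 2) ε → AgO B Set.univ A A') := by
    intro A A'
    by_cases hA : A ∈ 𝓕 ∧ A' ∈ 𝓕 ∧ ¬ AgO B Set.univ A A'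
    · obtain ⟨hA1, hA2, hA3⟩ := hA
      have hWc : |((W : ℝ) : ℂ).re| ≤ W := by
        rw [Complex.ofReal_re, abs_of_pos hW]
      obtain ⟨w, hw, hwW, hwn, hne⟩ := h.exists_ne isOpen_univ convex_univ (hsub hA1) (hsub hA2) hA3 (z := ((W : ℝ) : ℂ)) (Set.mem_univ _)
        (h.right_mem (by rw [Complex.ofReal_re]; linarith)) hWc one_pos
      have hd : 0 < dist (A w) (A' w) := dist_pos.2 hne
      refine ⟨dist (A w) (A' w) / 2, half_pos hd, fun _ _ hcl => ?_⟩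
      exfalso
      have h1 := hcl w (by
        rw [Complex.ofReal_zero, zero_mul, mem_ball_zero_iff]
        have h2 : w = (w - (W : ℂ)) + (W : ℂ) := by ring
        calc ‖w‖ = ‖(w - (W : ℂ)) + (W : ℂ)‖ := by rw [← h2]
          _ ≤ ‖w - (W : ℂ)‖ + ‖((W : ℝ) : ℂ)‖ := norm_add_le _ _
          _ < 1 + W := by
            rw [Complex.norm_real, Real.norm_of_nonneg hW.le]
            linarith
          _ ≤ W + p + 2 := by linarith [h.p_pos]) (gd_mono (by linarith) hw) hwW.le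
      linarith
    · refine ⟨1, one_pos, fun h1 h2 _ => ?_⟩
      by_contra h3
      exact hA ⟨h1, h2, h3⟩
  choose ε hε hpair using hpair
  obtain ⟨ε₁, hε₁, hε₁'⟩ : ∃ ε₁ : ℝ, 0 < ε₁ ∧ ∀ A ∈ 𝓕, ∀ A' ∈ 𝓕, ε₁ ≤ ε A A' := by
    have h1 : ∀ᶠ e : ℝ in 𝓝[>] (0 : ℝ), ∀ q ∈ 𝓕 ×ˢ 𝓕, e < ε q.1 q.2 :=
      (Filter.eventually_all_finite (hfin.prod hfin)).2 fun q _ => nhdsWithin_le_nhds (gt_mem_nhds (hε q.1 q.2))
    obtain ⟨e, he, he0⟩ := (h1.and self_mem_nhdsWithin).exists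
    exact ⟨e, he0, fun A hA A' hA' => (he (A, A') ⟨hA, hA'⟩).le⟩
  refine ⟨ε₁, W + p + 2 + p, hε₁, by linarith [h.p_pos], fun f hf g hg y hcl => ?_⟩
  obtain ⟨l, hl⟩ := h.exists_int y
  obtain ⟨A, hA, hfA⟩ := h𝓕 _ (h.tr_univ hf l)
  obtain ⟨A', hA', hgA'⟩ := h𝓕 _ (h.tr_univ hg l)
  have h1 : AgO B Set.univ A A' := by
    refine hpair A A' hA hA' fun z hz hzG hzW => ?_
    rw [Complex.ofReal_zero, zero_mul, mem_ball_zero_iff] at hz
    have hzB : z ∉ B := gd_notMem hδ hzG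
    rw [← hfA z (Set.mem_univ _) hzB, ← hgA' z (Set.mem_univ _) hzB]
    refine (hcl (z + p * l * Complex.I) (ball_tr (R' := W + p + 2 + p) (by linarith) le_rfl) ((h.gd_add δ l).2 hzG) (by rwa [add_re])).trans (hε₁' A hA A' hA')
  have h2 : AgO B Set.univ (tr p l f) (tr p l g) := (hfA.trans h1).trans hgA'.symm
  have h3 := (h.ag_tr (Ω := Set.univ) l).1 h2
  exact h3

theorem UDyn.near_S (h : UDyn K p B δ W S Zr II) {σ ρ : ℝ} (hσ : σ = 1 ∨ σ = -1) {f : ℂ → Y} (hf : f ∈ S (HP σ ρ)) (R : ℝ) {ε : ℝ} (hε : 0 < ε) :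
    ∃ t : ℝ, ∀ y : ℝ, t ≤ σ * y → ∃ G ∈ S Set.univ, Cl B δ W f G y R ε := by
  by_contra hcon
  push Not at hcon
  choose y hy hbad using fun n : ℕ => hcon n
  choose l hl using fun n => h.exists_int (y n)
  have hδ := h.δ_pos
  set 𝒰 : Ultrafilter ℕ := Filter.hyperfilter ℕ with h𝒰
  have hle : (𝒰 : Filter ℕ) ≤ atTop := by
    rw [h𝒰, ← Nat.cofinite_eq_atTop]
    exact Filter.hyperfilter_le_cofinite
  have hΩo : ∀ n, IsOpen (Sh p (l n) (HP σ ρ)) ∧ Convex ℝ (Sh p (l n) (HP σ ρ)) := fun n => ⟨isOpen_sh (isOpen_HP σ ρ), convex_sh (convex_HP σ ρ)⟩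
  have hex : ∀ R : ℝ, ∀ᶠ n in (𝒰 : Filter ℕ), ball 0 R ⊆ Sh p (l n) (HP σ ρ) := by
    intro R
    have h1 : ∀ᶠ n : ℕ in atTop, ρ + (R + p) ≤ (n : ℝ) := tendsto_natCast_atTop_atTop.eventually_ge_atTop _
    filter_upwards [hle h1] with n hn
    have h2 : ball ((y n : ℂ) * Complex.I) (R + p) ⊆ HP σ ρ := ball_sub_HP hσ (hn.trans (hy n))
    have h3 := ball_sub_sh (l := l n) h2 (hl n)
    rwa [add_sub_cancel_right] at h3
  have hFS : ∀ᶠ n in (𝒰 : Filter ℕ), tr p (l n) f ∈ S (Sh p (l n) (HP σ ρ)) :=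
    Eventually.of_forall fun n => h.tr_mem (isOpen_HP σ ρ) (convex_HP σ ρ) hf (l n)
  obtain ⟨f', hf'S, hf'⟩ := h.exists_lim 𝒰 (Ω := fun n => Sh p (l n) (HP σ ρ)) (fun n => tr p (l n) f) hΩo hex hFS
  have hu := h.unif 𝒰 (Ω := fun n => Sh p (l n) (HP σ ρ)) (fun n => tr p (l n) f) hΩo hex hFS hf'S hf' hδ (R + p) ε hε
  obtain ⟨n, hn⟩ := hu.exists
  refine hbad n (tr p (-l n) f') (h.tr_univ hf'S (-l n)) ?_
  intro z hz hzG hzW
  have h1 : z + p * ((-l n : ℤ) : ℂ) * Complex.I ∈ Gd B δ := (h.gd_add δ (-l n)).mpr hzG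
  have h2 : ‖z + p * ((-l n : ℤ) : ℂ) * Complex.I‖ ≤ R + p := by
    rw [mem_ball, dist_eq_norm] at hz
    have h3 : z + p * ((-l n : ℤ) : ℂ) * Complex.I = (z - (y n : ℂ) * Complex.I) + ((y n - p * l n : ℝ) : ℂ) * Complex.I := by
      push_cast
      ring
    rw [h3]
    refine (norm_add_le _ _).trans ?_
    rw [norm_mul, Complex.norm_I, mul_one, Complex.norm_real, Real.norm_eq_abs]
    linarith [hl n]
  have h4 : z + p * ((-l n : ℤ) : ℂ) * Complex.I + p * l n * Complex.I = z := by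
    push_cast
    ring
  have h5 := (hn _ h1 h2).le
  simp only [tr] at h5 ⊢
  rwa [h4] at h5

/-- **Every member of `S` over a half plane is the restriction of a member of `S ℂ`.** -/
theorem UDyn.arm (h : UDyn K p B δ W S Zr II) {σ ρ : ℝ} (hσ : σ = 1 ∨ σ = -1) {f : ℂ → Y} (hf : f ∈ S (HP σ ρ)) :
    ∃ G ∈ S Set.univ, AgO B (HP σ ρ) f G := by
  obtain ⟨ε₁, R₁, hε₁, hR₁, hsep⟩ := h.sepS
  obtain ⟨ε₂, hε₂, hhalf⟩ := h.half_plane
  have hW := h.W_pos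
  set ε : ℝ := min (ε₁ / 2) ε₂ with hε
  have hε0 : 0 < ε := lt_min (by positivity) hε₂
  have hεε₁ : ε ≤ ε₁ / 2 := min_le_left _ _
  have hεε₂ : ε ≤ ε₂ := min_le_right _ _
  obtain ⟨t, ht⟩ := h.near_S hσ hf (R₁ + W + 2) hε0
  have : Nonempty (ℂ → Y) := ⟨f⟩
  choose! e heS he using ht
  have hσσ := sq_one hσ
  have h3 : ∀ a b : ℝ, t ≤ σ * a → t ≤ σ * b → AgO B Set.univ (e a) (e b) := by
    intro a b ha hb
    refine chain_real (r := fun a b => AgO B Set.univ (e a) (e b)) (t := t) (σ := σ) (fun a b c => AgO.trans) ?_ ha hb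
    intro a b ha hb hab
    refine hsep _ (heS a ha) _ (heS b hb) a ?_
    intro z hz hzG hzW
    rw [mem_ball, dist_eq_norm] at hz
    have h4 := he a ha z (by rw [mem_ball, dist_eq_norm]; linarith) hzG hzW
    have h5 : ‖z - (b : ℂ) * Complex.I‖ < R₁ + W + 2 := by
      have h6 : z - (b : ℂ) * Complex.I = (z - (a : ℂ) * Complex.I) + ((a - b : ℝ) : ℂ) * Complex.I := by
        push_cast
        ring
      rw [h6]
      refine (norm_add_le _ _).trans_lt ?_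
      rw [norm_mul, Complex.norm_I, mul_one, Complex.norm_real, Real.norm_eq_abs]
      linarith
    have h7 := he b hb z (by rw [mem_ball, dist_eq_norm]; exact h5) hzG hzW
    have h8 := dist_triangle_left (e a z) (e b z) (f z)
    linarith
  set ρ₂ : ℝ := max ρ t with hρ₂
  set y₀ : ℝ := σ * ρ₂ with hy₀
  have hy₀' : t ≤ σ * y₀ := by
    rw [hy₀, ← mul_assoc, hσσ, one_mul]
    exact le_max_right _ _
  have hfS : f ∈ S (HP σ ρ₂) := h.res_HP (le_max_left _ _) hf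
  have hGS : e y₀ ∈ S Set.univ := heS y₀ hy₀'
  have h4 : AgO B (HP σ ρ₂) f (e y₀) := by
    refine hhalf σ ρ₂ hσ f hfS _ (h.res_univ (isOpen_HP _ _) (convex_HP _ _) hGS) fun z hz hzG hzW => ?_
    have hz' : ρ₂ < σ * z.im := hz
    have hzt : t ≤ σ * z.im := (le_max_right _ _).trans hz'.le
    have hzb : z ∈ ball ((z.im : ℂ) * Complex.I) (R₁ + W + 2) := by
      rw [mem_ball, dist_eq_norm]
      have h6 : z - (z.im : ℂ) * Complex.I = ((z.re : ℝ) : ℂ) := by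
        apply Complex.ext <;> simp
      rw [h6, Complex.norm_real, Real.norm_eq_abs]
      linarith
    rw [← h3 z.im y₀ hzt hy₀' z (Set.mem_univ z) (gd_notMem h.δ_pos hzG)]
    exact (he z.im hzt z hzb hzG hzW).trans hεε₂
  exact ⟨e y₀, hGS, h.ag_of_HP (isOpen_HP _ _) (convex_HP _ _) hf (h.res_univ (isOpen_HP _ _) (convex_HP _ _) hGS) hσ (HP_anti (le_max_left _ _)) h4⟩

/-- **The members of `S ℂ` are periodic.** -/
theorem UDyn.period (h : UDyn K p B δ W S Zr II) {f : ℂ → Y} (hf : f ∈ S Set.univ) : ∃ q : ℕ, 1 ≤ q ∧ ∀ z, z ∉ B → f (z + p * q * Complex.I) = f z := by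
  obtain ⟨𝓕, hfin, hsub, h𝓕⟩ := h.finite
  choose A hA hfA using fun n : ℕ => h𝓕 _ (h.tr_univ hf (n : ℤ))
  obtain ⟨n, m, hnm, hnm'⟩ : ∃ n m : ℕ, n < m ∧ A n = A m := by
    have : Finite 𝓕 := hfin
    obtain ⟨n, m, hne, heq⟩ := Finite.exists_ne_map_eq_of_infinite (fun n : ℕ => (⟨A n, hA n⟩ : 𝓕))
    have heq' : A n = A m := congrArg Subtype.val heq
    rcases lt_or_gt_of_ne hne with h1 | h1
    · exact ⟨n, m, h1, heq'⟩
    · exact ⟨m, n, h1, heq'.symm⟩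
  refine ⟨m - n, by omega, fun z hz => ?_⟩
  have h1 : AgO B Set.univ (tr p (n : ℤ) f) (tr p (m : ℤ) f) := by
    have h2 := hfA n
    have h3 := hfA m
    rw [← hnm'] at h3
    exact h2.trans h3.symm
  have h4 : z + p * ((-(n : ℤ) : ℤ) : ℂ) * Complex.I ∉ B := fun h5 => hz ((h.mem_add (-(n : ℤ))).1 h5)
  have h5 := h1 _ (Set.mem_univ _) h4
  unfold tr at h5
  have h6 : z + p * ((-(n : ℤ) : ℤ) : ℂ) * Complex.I + p * ((n : ℤ) : ℂ) * Complex.I = z := by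
    push_cast
    ring
  have h7 : z + p * ((-(n : ℤ) : ℤ) : ℂ) * Complex.I + p * ((m : ℤ) : ℂ) * Complex.I = z + p * ((m - n : ℕ) : ℂ) * Complex.I := by
    rw [Nat.cast_sub hnm.le]
    push_cast
    ring
  rw [h6, h7] at h5
  exact h5.symm

end Pool.Agent.H87.LU

end

section

/-!
# LR LimA: limits of functions which omit `0` and `1`, local statements
-/

set_option autoImplicit false

open Topology Filter Metric

namespace Pool.Agent.H62.LR

attribute [-instance] ProperSMul.toContinuousSMul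

/-- `H` is holomorphic on `ball z R` and omits `0`, `1` there -/
def Om (H : ℂ → ℂ) (z : ℂ) (R : ℝ) : Prop := DifferentiableOn ℂ H (ball z R) ∧ ∀ w ∈ ball z R, H w ≠ 0 ∧ H w ≠ 1

theorem Om.mono {H : ℂ → ℂ} {z w : ℂ} {R r : ℝ} (h : Om H z R) (hsub : ball w r ⊆ ball z R) : Om H w r :=
  ⟨h.1.mono hsub, fun u hu => h.2 u (hsub hu)⟩

theorem Om.inv {H : ℂ → ℂ} {z : ℂ} {R : ℝ} (h : Om H z R) : Om (fun w => (H w)⁻¹) z R := by
  refine ⟨h.1.inv fun w hw => (h.2 w hw).1, fun w hw => ⟨inv_ne_zero (h.2 w hw).1, fun h1 => (h.2 w hw).2 ?_⟩⟩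
  exact inv_eq_one.1 h1

theorem Om.one_sub {H : ℂ → ℂ} {z : ℂ} {R : ℝ} (h : Om H z R) : Om (fun w => 1 - H w) z R := by
  refine ⟨h.1.const_sub 1, fun w hw => ⟨?_, ?_⟩⟩
  · rw [sub_ne_zero]
    exact (h.2 w hw).2.symm
  · intro h1
    exact (h.2 w hw).1 (by linear_combination -h1)

theorem tendsto_zero_of_cube {𝒰 : Filter ℕ} {x y : ℕ → ℂ} (hx : Tendsto x 𝒰 (𝓝 0)) (h : ∀ᶠ n in 𝒰, ‖x n‖ ≤ 1 / 2 → ‖y n‖ ^ 3 ≤ ‖x n‖) :
    Tendsto y 𝒰 (𝓝 0) := by
  rw [Metric.tendsto_nhds] at hx ⊢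
  intro ε hε
  filter_upwards [hx (min (1 / 2) (ε ^ 3)) (by positivity), h] with n h1 h2
  rw [dist_zero_right, lt_min_iff] at h1
  rw [dist_zero_right]
  exact lt_of_pow_lt_pow_left₀ 3 hε.le ((h2 h1.1.le).trans_lt h1.2)

/-- convergence to `0` is a locally constant property -/
theorem zero_loc (𝒰 : Ultrafilter ℕ) {H : ℕ → ℂ → ℂ} {z : ℂ} {R : ℝ} (hR : 0 < R) (hH : ∀ᶠ n in (𝒰 : Filter ℕ), Om (H n) z R) :
    ∀ᶠ w in 𝓝 z, (Tendsto (fun n => H n w) 𝒰 (𝓝 0) ↔ Tendsto (fun n => H n z) 𝒰 (𝓝 0)) := by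
  obtain ⟨c, hc, hc1, h3⟩ := harnack3
  have hpos : 0 < c * (R / 2) := by positivity
  have hle : c * (R / 2) ≤ R / 2 := by nlinarith
  filter_upwards [ball_mem_nhds z hpos] with w hw
  have hwn : dist w z < c * (R / 2) := hw
  have hsub : ball w (R / 2) ⊆ ball z R := ball_subset_ball' (by linarith)
  have hsub' : ball z (R / 2) ⊆ ball z R := ball_subset_ball (by linarith)
  constructor
  · intro h
    refine tendsto_zero_of_cube h ?_
    filter_upwards [hH] with n hn h1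
    have h4 := hn.mono hsub
    exact h3 (H n) w (R / 2) (by positivity) h4.1 h4.2 h1 z (by rw [mem_ball, dist_comm]; exact hwn)
  · intro h
    refine tendsto_zero_of_cube h ?_
    filter_upwards [hH] with n hn h1
    have h4 := hn.mono hsub'
    exact h3 (H n) z (R / 2) (by positivity) h4.1 h4.2 h1 w hw

/-- bounded at the centre: limits on a smaller ball -/
theorem lim_loc (𝒰 : Ultrafilter ℕ) {H : ℕ → ℂ → ℂ} {z : ℂ} {R : ℝ} (hR : 0 < R) (hH : ∀ᶠ n in (𝒰 : Filter ℕ), Om (H n) z R) {a : ℂ}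
    (ha : Tendsto (fun n => H n z) 𝒰 (𝓝 a)) : ∃ (r M : ℝ) (h : ℂ → ℂ), 0 < r ∧ (∀ᶠ n in (𝒰 : Filter ℕ), ∀ w ∈ ball z r, ‖H n w‖ ≤ M) ∧
      DifferentiableOn ℂ h (ball z r) ∧ ∀ w ∈ ball z r, Tendsto (fun n => H n w) 𝒰 (𝓝 (h w)) := by
  obtain ⟨c, hc, hc1, h3⟩ := local_bound (‖a‖ + 1)
  have hle : c * R ≤ R := by nlinarith
  have hev : ∀ᶠ n in (𝒰 : Filter ℕ), ‖H n z‖ ≤ ‖a‖ + 1 := by
    have h1 := ha.norm.eventually_lt_const (show ‖a‖ < ‖a‖ + 1 by linarith)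
    exact h1.mono fun n hn => hn.le
  have hb : ∀ᶠ n in (𝒰 : Filter ℕ), ∀ w ∈ ball z (c * R), ‖H n w‖ ≤ ‖a‖ + 1 + 1 := by
    filter_upwards [hH, hev] with n hn hn2
    exact h3 (H n) z R hR hn.1 hn.2 hn2
  have hd : ∀ᶠ n in (𝒰 : Filter ℕ), DifferentiableOn ℂ (H n) (ball z (c * R)) := by
    filter_upwards [hH] with n hn
    exact hn.1.mono (ball_subset_ball hle)
  obtain ⟨h, hh, hconv⟩ := Pool.Agent.H17.montel_ultrafilter 𝒰 hd hb
  exact ⟨c * R, ‖a‖ + 1 + 1, h, by positivity, hb, hh, fun w hw => hconv.tendsto_at hw⟩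

/-- along an ultrafilter a sequence converges in `ℂ` or to `∞` -/
theorem lim_or (𝒰 : Ultrafilter ℕ) (x : ℕ → ℂ) : (∃ a, Tendsto x 𝒰 (𝓝 a)) ∨ Tendsto (fun n => (x n)⁻¹) 𝒰 (𝓝 0) := by
  by_cases h : ∃ M : ℝ, ∀ᶠ n in (𝒰 : Filter ℕ), ‖x n‖ ≤ M
  · obtain ⟨M, hM⟩ := h
    left
    obtain ⟨a, _, ha⟩ := (isCompact_closedBall (0 : ℂ) M).ultrafilter_le_nhds (𝒰.map x) (by
      rw [Filter.le_principal_iff]
      show ∀ᶠ n in (𝒰 : Filter ℕ), x n ∈ closedBall (0 : ℂ) M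
      filter_upwards [hM] with n hn
      rwa [mem_closedBall, dist_zero_right])
    exact ⟨a, ha⟩
  · right
    push Not at h
    rw [Metric.tendsto_nhds]
    intro ε hε
    filter_upwards [h ε⁻¹] with n hn
    rw [dist_zero_right, norm_inv]
    exact inv_lt_of_inv_lt₀ hε hn

end Pool.Agent.H62.LR

end

section

/-!
# LR LimGen: limits of the functions in `Tm` on convex domains
-/

set_option autoImplicit false

open Topology Filter Metric

noncomputable section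

namespace Pool.Agent.H62.LR

attribute [-instance] ProperSMul.toContinuousSMul

open Pool.Agent.H36.BP (EN)
open Pool.Agent.H62.EF (MN pr pr_smul continuousAt_pr norm_pr)

variable {p : ℝ} {B : Set ℂ} {δ W : ℝ} {𝓛 : Set (ℂ → ℂ)} {C A : Set ℂ}

theorem v1_ne (w : ℂ) : v1 w ≠ 0 := by
  intro h
  have h1 := congrFun (congrArg (fun v : EN 1 => (v : Fin 2 → ℂ)) h) 0
  simp [v1] at h1

theorem v0_ne : v0 ≠ 0 := by
  intro h
  have h1 := congrFun (congrArg (fun v : EN 1 => (v : Fin 2 → ℂ)) h) 1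
  simp [v0] at h1

theorem continuous_kp : Continuous kp := by
  rw [continuous_iff_continuousAt]
  intro w
  have h1 : Continuous v1 := by
    unfold v1
    refine (PiLp.continuous_toLp 2 _).comp ?_
    refine continuous_pi fun i => ?_
    fin_cases i
    · exact continuous_const
    · exact continuous_id
  exact ContinuousAt.comp (g := pr) (f := v1) (continuousAt_pr (v1_ne w)) h1.continuousAt

theorem kp_inf {l : Filter ℕ} {x : ℕ → ℂ} (hx : ∀ᶠ n in l, x n ≠ 0) (h : Tendsto (fun n => (x n)⁻¹) l (𝓝 0)) :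
    Tendsto (fun n => kp (x n)) l (𝓝 kinf) := by
  have hc : Continuous fun w : ℂ => (WithLp.toLp 2 ![w, 1] : EN 1) := by
    refine (PiLp.continuous_toLp 2 _).comp ?_
    refine continuous_pi fun i => ?_
    fin_cases i
    · exact continuous_id
    · exact continuous_const
  have h1 : Tendsto (fun n => (WithLp.toLp 2 ![(x n)⁻¹, 1] : EN 1)) l (𝓝 v0) := (hc.tendsto 0).comp h
  have h2 : Tendsto (fun n => pr (WithLp.toLp 2 ![(x n)⁻¹, 1] : EN 1)) l (𝓝 (pr v0)) := (continuousAt_pr v0_ne).tendsto.comp h1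
  refine h2.congr' ?_
  filter_upwards [hx] with n hn
  have h3 : (WithLp.toLp 2 ![(x n)⁻¹, 1] : EN 1) = (x n)⁻¹ • v1 (x n) := by
    ext i
    fin_cases i
    · simp [v1]
    · simp [v1, hn]
  rw [h3, pr_smul _ (inv_ne_zero hn)]
  rfl

theorem BaseD.discrete (h : BaseD p B δ W 𝓛 C A) (z : ℂ) : ∀ᶠ w in 𝓝[≠] z, w ∉ B := by
  have hδ := h.δ_pos
  have hsub : (B ∩ ball z (4 * δ)).Subsingleton := by
    intro b hb b' hb'
    by_contra hne
    have h1 := h.B_sep b hb.1 b' hb'.1 hne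
    have h2 := mem_ball.1 hb.2
    have h3 := mem_ball.1 hb'.2
    have h4 := dist_triangle_right b b' z
    rw [dist_eq_norm] at h4
    linarith
  have h1 : ∀ᶠ w in 𝓝[≠] z, w ∉ (B ∩ ball z (4 * δ)) \ {z} := by
    refine (hsub.anti Set.diff_subset).finite.isClosed.isOpen_compl.eventually_mem ?_ |>.filter_mono nhdsWithin_le_nhds
    exact fun h2 => h2.2 rfl
  have h2 : ∀ᶠ w in 𝓝[≠] z, w ∈ ball z (4 * δ) := mem_nhdsWithin_of_mem_nhds (ball_mem_nhds z (by positivity))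
  filter_upwards [h1, h2, self_mem_nhdsWithin] with w hw1 hw2 hw3 hwB
  exact hw1 ⟨⟨hwB, hw2⟩, hw3⟩

/-- a closed ball without further points of `B` -/
theorem BaseD.exists_ball (h : BaseD p B δ W 𝓛 C A) {Ω : Set ℂ} (hΩ : IsOpen Ω) {z : ℂ} (hz : z ∈ Ω) :
    ∃ R : ℝ, 0 < R ∧ closedBall z R ⊆ Ω ∧ ∀ w ∈ closedBall z R, w ≠ z → w ∉ B := by
  have h1 := h.discrete z
  rw [eventually_nhdsWithin_iff] at h1
  have h2 : ∀ᶠ w in 𝓝 z, w ∈ Ω := hΩ.mem_nhds hz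
  obtain ⟨R, hR, hsub⟩ := Metric.nhds_basis_closedBall.eventually_iff.1 (h2.and h1)
  exact ⟨R, hR, fun w hw => (hsub hw).1, fun w hw => (hsub hw).2⟩

/-- limits on convex domains, without exhaustion by domains: `X n` has the property on neighbourhoods of compact sets -/
theorem lim_gen (h : BaseD p B δ W 𝓛 C A) (𝒰 : Ultrafilter ℕ) {Ω : Set ℂ} (hΩ : IsOpen Ω) (hΩc : Convex ℝ Ω) (X : ℕ → ℂ → ℂ)
    (hX : ∀ Q : Set ℂ, Q ⊆ Ω → IsCompact Q → ∀ᶠ n in (𝒰 : Filter ℕ), ∃ V : Set ℂ, IsOpen V ∧ Q ⊆ V ∧ X n ∈ Tm B 𝓛 C A V) :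
    (∃ s ∈ Sec 𝓛, ∀ z ∈ Ω, z ∉ B → Tendsto (fun n => kp (X n z)) 𝒰 (𝓝 (s z))) ∨
      ∃ f ∈ Tm B 𝓛 C A Ω, ∀ z ∈ Ω, z ∉ B → Tendsto (fun n => X n z) 𝒰 (𝓝 (f z)) := by
  have hpre : IsPreconnected Ω := hΩc.isPreconnected
  have hdis := h.discrete
  -- the functions near a good point
  have hOm : ∀ z ∈ Ω, z ∉ B → ∃ R : ℝ, 0 < R ∧ ∀ᶠ n in (𝒰 : Filter ℕ), Om (X n) z R ∧ ∀ L ∈ 𝓛, Om (fun w => X n w / L w) z R := by
    intro z hz hzB
    obtain ⟨R, hR, hsub, hRB⟩ := h.exists_ball hΩ hz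
    refine ⟨R, hR, ?_⟩
    have hB : ∀ w ∈ ball z R, w ∉ B := by
      intro w hw
      by_cases hwz : w = z
      · rwa [hwz]
      · exact hRB w (ball_subset_closedBall hw) hwz
    filter_upwards [hX (closedBall z R) hsub (isCompact_closedBall z R)] with n hn
    obtain ⟨V, _, hQV, hnV⟩ := hn
    have h1 := fun w (hw : w ∈ ball z R) => hnV.2.1 w (hQV (ball_subset_closedBall hw)) (hB w hw)
    refine ⟨⟨fun w hw => (h1 w hw).1.differentiableAt.differentiableWithinAt, fun w hw => ⟨(h1 w hw).2.1, (h1 w hw).2.2.1⟩⟩, fun L hL => ⟨?_, ?_⟩⟩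
    · exact fun w hw => ((h1 w hw).1.div (h.L_an L hL w (hB w hw)).1 (h.L_an L hL w (hB w hw)).2.1).differentiableAt.differentiableWithinAt
    · intro w hw
      have h2 := (h.L_an L hL w (hB w hw)).2.1
      refine ⟨div_ne_zero (h1 w hw).2.1 h2, fun h3 => (h1 w hw).2.2.2 L hL ?_⟩
      rwa [div_eq_one_iff_eq h2] at h3
  have hne0 : ∀ z ∈ Ω, z ∉ B → ∀ᶠ n in (𝒰 : Filter ℕ), X n z ≠ 0 := by
    intro z hz hzB
    obtain ⟨R, hR, hn⟩ := hOm z hz hzB
    exact hn.mono fun n hn => (hn.1.2 z (mem_ball_self hR)).1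
  by_cases hinf : ∃ z₀ ∈ Ω, z₀ ∉ B ∧ Tendsto (fun n => (X n z₀)⁻¹) 𝒰 (𝓝 0)
  · obtain ⟨z₀, hz₀, hz₀B, h0⟩ := hinf
    left
    refine ⟨fun _ => kinf, Or.inl (Or.inl rfl), fun z hz hzB => kp_inf (hne0 z hz hzB) ?_⟩
    refine const_of_local hΩ hpre hdis (fun z => Tendsto (fun n => (X n z)⁻¹) 𝒰 (𝓝 0)) (fun z hz hzB => ?_) hz₀ hz₀B h0 z hz hzB
    obtain ⟨R, hR, hn⟩ := hOm z hz hzB
    exact zero_loc 𝒰 (H := fun n z => (X n z)⁻¹) hR (hn.mono fun n hn => hn.1.inv)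
  by_cases hzero : ∃ z₀ ∈ Ω, z₀ ∉ B ∧ Tendsto (fun n => X n z₀) 𝒰 (𝓝 0)
  · obtain ⟨z₀, hz₀, hz₀B, h0⟩ := hzero
    left
    refine ⟨fun _ => kp 0, Or.inl (Or.inr (Or.inl rfl)), fun z hz hzB => (continuous_kp.tendsto 0).comp ?_⟩
    refine const_of_local hΩ hpre hdis (fun z => Tendsto (fun n => X n z) 𝒰 (𝓝 0)) (fun z hz hzB => ?_) hz₀ hz₀B h0 z hz hzB
    obtain ⟨R, hR, hn⟩ := hOm z hz hzB
    exact zero_loc 𝒰 (H := X) hR (hn.mono fun n hn => hn.1)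
  by_cases hone : ∃ z₀ ∈ Ω, z₀ ∉ B ∧ Tendsto (fun n => 1 - X n z₀) 𝒰 (𝓝 0)
  · obtain ⟨z₀, hz₀, hz₀B, h0⟩ := hone
    left
    refine ⟨fun _ => kp 1, Or.inl (Or.inr (Or.inr rfl)), fun z hz hzB => (continuous_kp.tendsto 1).comp ?_⟩
    have h1 := const_of_local hΩ hpre hdis (fun z => Tendsto (fun n => 1 - X n z) 𝒰 (𝓝 0)) (fun z hz hzB => ?_) hz₀ hz₀B h0 z hz hzB
    · have h2 := h1.const_sub 1
      simpa using h2
    · obtain ⟨R, hR, hn⟩ := hOm z hz hzB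
      exact zero_loc 𝒰 (H := fun n z => 1 - X n z) hR (hn.mono fun n hn => hn.1.one_sub)
  by_cases hLL : ∃ L ∈ 𝓛, ∃ z₀ ∈ Ω, z₀ ∉ B ∧ Tendsto (fun n => 1 - X n z₀ / L z₀) 𝒰 (𝓝 0)
  · obtain ⟨L, hL, z₀, hz₀, hz₀B, h0⟩ := hLL
    left
    refine ⟨fun z => kp (L z), Or.inr ⟨L, hL, rfl⟩, fun z hz hzB => (continuous_kp.tendsto (L z)).comp ?_⟩
    have h1 := const_of_local hΩ hpre hdis (fun z => Tendsto (fun n => 1 - X n z / L z) 𝒰 (𝓝 0)) (fun z hz hzB => ?_) hz₀ hz₀B h0 z hz hzB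
    · have h2 := (h1.const_sub 1).mul_const (L z)
      have h3 := (h.L_an L hL z hzB).2.1
      refine (h2.congr fun n => ?_).trans (by rw [sub_zero, one_mul])
      rw [sub_sub_cancel, div_mul_cancel₀ _ h3]
    · obtain ⟨R, hR, hn⟩ := hOm z hz hzB
      exact zero_loc 𝒰 (H := fun n z => 1 - X n z / L z) hR (hn.mono fun n hn => (hn.2 L hL).one_sub)
  right
  push Not at hinf hzero hone hLL
  have hex : ∀ z, ∃ a : ℂ, z ∈ Ω → z ∉ B → Tendsto (fun n => X n z) 𝒰 (𝓝 a) := by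
    intro z
    by_cases hz : z ∈ Ω ∧ z ∉ B
    · rcases lim_or 𝒰 (fun n => X n z) with ⟨a, ha⟩ | h1
      · exact ⟨a, fun _ _ => ha⟩
      · exact absurd h1 (hinf z hz.1 hz.2)
    · exact ⟨0, fun h1 h2 => absurd ⟨h1, h2⟩ hz⟩
  choose f hf using hex
  have hf0 : ∀ z ∈ Ω, z ∉ B → f z ≠ 0 := by
    intro z hz hzB h1
    have h2 := hf z hz hzB
    rw [h1] at h2
    exact hzero z hz hzB h2
  have hf1 : ∀ z ∈ Ω, z ∉ B → f z ≠ 1 := by
    intro z hz hzB h1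
    have h2 := (hf z hz hzB).const_sub 1
    rw [h1, sub_self] at h2
    exact hone z hz hzB h2
  have hfL : ∀ z ∈ Ω, z ∉ B → ∀ L ∈ 𝓛, f z ≠ L z := by
    intro z hz hzB L hL h1
    have h2 := ((hf z hz hzB).div_const (L z)).const_sub 1
    rw [h1, div_self (h.L_an L hL z hzB).2.1, sub_self] at h2
    exact hLL L hL z hz hzB h2
  have hfan : ∀ z ∈ Ω, z ∉ B → AnalyticAt ℂ f z := by
    intro z hz hzB
    obtain ⟨R, hR, hn⟩ := hOm z hz hzB
    obtain ⟨r, M, g, hr, _, hg, hgc⟩ := lim_loc 𝒰 hR (hn.mono fun n hn => hn.1) (hf z hz hzB)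
    refine (hg.analyticAt (isOpen_ball.mem_nhds (mem_ball_self hr))).congr ?_
    have h1 := h.discrete z
    rw [eventually_nhdsWithin_iff] at h1
    filter_upwards [h1, hΩ.mem_nhds hz, ball_mem_nhds z hr] with w hw1 hw2 hw3
    have hwB : w ∉ B := by
      by_cases hwz : w = z
      · rwa [hwz]
      · exact hw1 hwz
    exact tendsto_nhds_unique (hgc w hw3) (hf w hw2 hwB)
  -- the bad points
  have hbad : ∀ b ∈ Ω, b ∈ B → ∃ (r : ℝ) (k : ℤ) (g : ℂ → ℂ), 0 < r ∧ AnalyticAt ℂ g b ∧ g b ≠ 0 ∧ (∀ z ∈ ball b r, z ≠ b → f z = (z - b) ^ k * g z) ∧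
      (k = 0 → b ∈ C → g b ∈ A) := by
    intro b hb hbB
    obtain ⟨r, hr, hsub, hrB⟩ := h.exists_ball hΩ hb
    have hXr : ∀ᶠ n in (𝒰 : Filter ℕ), (MeromorphicAt (X n) b ∧ ∀ z ∈ closedBall b r, z ≠ b → AnalyticAt ℂ (X n) z ∧ X n z ≠ 0) ∧
        (b ∈ C → ∀ a, Tendsto (X n) (𝓝[≠] b) (𝓝 a) → a ∈ A) := by
      filter_upwards [hX (closedBall b r) hsub (isCompact_closedBall b r)] with n hn
      obtain ⟨V, _, hQV, hnV⟩ := hn
      have hbV : b ∈ V := hQV (mem_closedBall_self hr.le)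
      refine ⟨⟨hnV.1 b hbV, fun z hz hzb => ?_⟩, fun hbC => hnV.2.2 b hbV hbC⟩
      have h1 := hnV.2.1 z (hQV hz) (hrB z hz hzb)
      exact ⟨h1.1, h1.2.1⟩
    have hcpt : IsCompact (closedBall b r ∩ {z | r / 2 ≤ ‖z - b‖}) :=
      (isCompact_closedBall b r).inter_right (isClosed_le continuous_const (by fun_prop))
    obtain ⟨M, hM⟩ : ∃ M : ℝ, ∀ᶠ n in (𝒰 : Filter ℕ), ∀ z ∈ closedBall b r ∩ {z | r / 2 ≤ ‖z - b‖}, ‖X n z‖ ≤ M ∧ ‖X n z‖⁻¹ ≤ M := by
      refine hcpt.induction_on (p := fun s => ∃ M : ℝ, ∀ᶠ n in (𝒰 : Filter ℕ), ∀ z ∈ s, ‖X n z‖ ≤ M ∧ ‖X n z‖⁻¹ ≤ M) ?_ ?_ ?_ ?_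
      · exact ⟨0, Eventually.of_forall fun n z hz => absurd hz (Set.notMem_empty z)⟩
      · rintro s t hst ⟨M, hM⟩
        exact ⟨M, hM.mono fun n hn z hz => hn z (hst hz)⟩
      · rintro s t ⟨M, hM⟩ ⟨M', hM'⟩
        refine ⟨max M M', ?_⟩
        filter_upwards [hM, hM'] with n hn hn' z hz
        rcases hz with hz | hz
        · exact ⟨(hn z hz).1.trans (le_max_left _ _), (hn z hz).2.trans (le_max_left _ _)⟩
        · exact ⟨(hn' z hz).1.trans (le_max_right _ _), (hn' z hz).2.trans (le_max_right _ _)⟩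
      · rintro z ⟨hz1, hz2⟩
        have hzb : z ≠ b := by
          rintro rfl
          have h1 : r / 2 ≤ ‖z - z‖ := hz2
          rw [sub_self, norm_zero] at h1
          linarith
        have hzΩ := hsub hz1
        have hzB := hrB z hz1 hzb
        obtain ⟨R, hR, hn⟩ := hOm z hzΩ hzB
        obtain ⟨r₁, M₁, _, hr₁, hM₁, _⟩ := lim_loc 𝒰 hR (hn.mono fun n hn => hn.1) (hf z hzΩ hzB)
        obtain ⟨r₂, M₂, _, hr₂, hM₂, _⟩ := lim_loc 𝒰 (H := fun n w => (X n w)⁻¹) hR (hn.mono fun n hn => hn.1.inv) ((hf z hzΩ hzB).inv₀ (hf0 z hzΩ hzB))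
        refine ⟨ball z (min r₁ r₂), mem_nhdsWithin_of_mem_nhds (ball_mem_nhds z (lt_min hr₁ hr₂)), max M₁ M₂, ?_⟩
        filter_upwards [hM₁, hM₂] with n hn1 hn2 w hw
        have h1 := hn1 w (ball_subset_ball (min_le_left _ _) hw)
        have h2 := hn2 w (ball_subset_ball (min_le_right _ _) hw)
        rw [norm_inv] at h2
        exact ⟨h1.trans (le_max_left _ _), h2.trans (le_max_right _ _)⟩
    obtain ⟨k, g, hg, hgb, hfg, hk⟩ := lim_at 𝒰 hr (hXr.mono fun n hn => hn.1) (f := f)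
      (fun z hz hzb => hf z (hsub (ball_subset_closedBall hz)) (hrB z (ball_subset_closedBall hz) hzb))
      (hM.mono fun n hn z hz1 hz2 => hn z ⟨by rwa [mem_closedBall, dist_eq_norm], hz1⟩)
    refine ⟨r, k, g, hr, hg, hgb, hfg, fun hk0 hbC => hk hk0 A h.A_fin ?_⟩
    exact hXr.mono fun n hn => hn.2 hbC
  refine ⟨f, ⟨fun z hz => ?_, fun z hz hzB => ⟨hfan z hz hzB, hf0 z hz hzB, hf1 z hz hzB, hfL z hz hzB⟩, fun b hb hbC a ha => ?_⟩, hf⟩
  · by_cases hzB : z ∈ B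
    · obtain ⟨r, k, g, hr, hg, hgb, hfg, _⟩ := hbad z hz hzB
      have h1 : MeromorphicAt (fun w => (w - z) ^ k * g w) z :=
        (((MeromorphicAt.id z).sub (MeromorphicAt.const z z)).zpow k).mul hg.meromorphicAt
      refine h1.congr ?_
      have h2 : ∀ᶠ w in 𝓝[≠] z, w ∈ ball z r := mem_nhdsWithin_of_mem_nhds (ball_mem_nhds z hr)
      filter_upwards [h2, self_mem_nhdsWithin] with w hw1 hw2
      exact (hfg w hw1 hw2).symm
    · exact (hfan z hz hzB).meromorphicAt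
  · obtain ⟨r, k, g, hr, hg, hgb, hfg, hk⟩ := hbad b hb (h.C_sub hbC)
    obtain ⟨h1, h2, h3⟩ := val_at hr hg hgb hfg ha
    rcases h1.lt_or_eq with h4 | h4
    · rw [h2 h4]
      exact h.A_zero
    · rw [h3 h4.symm]
      exact hk h4.symm hbC

end Pool.Agent.H62.LR

end
end

section

/-!
# LR Sc: the model of the sphere and the elementary properties of the family `Sc`
-/

set_option autoImplicit false

open Topology Filter Metric

noncomputable section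

namespace Pool.Agent.H62.LR

attribute [-instance] ProperSMul.toContinuousSMul

open Pool.Agent.H36.BP (EN fs wd)
open Pool.Agent.H62.EF (MN pr pr_eq_iff continuousAt_pr norm_pr dist_pr pr_lipschitz)
open Pool.Agent.H87.LU (Gd HP Sh AgO)

/-! ## the sphere -/

@[simp] theorem v1_zero (w : ℂ) : v1 w 0 = 1 := rfl
@[simp] theorem v1_one (w : ℂ) : v1 w 1 = w := rfl
@[simp] theorem v0_zero : v0 0 = 0 := rfl
@[simp] theorem v0_one : v0 1 = 1 := rfl

theorem kp_inj {a b : ℂ} : kp a = kp b ↔ a = b := by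
  refine ⟨fun h => ?_, fun h => by rw [h]⟩
  obtain ⟨c, -, hc⟩ := (pr_eq_iff (v1_ne a) (v1_ne b)).1 h
  have h0 := congrArg (fun x : EN 1 => x 0) hc
  have h1 := congrArg (fun x : EN 1 => x 1) hc
  simp only [PiLp.smul_apply, smul_eq_mul, v1_zero, v1_one, mul_one] at h0 h1
  rw [← h0, one_mul] at h1
  exact h1

theorem kp_ne_kinf (a : ℂ) : kp a ≠ kinf := by
  intro h
  obtain ⟨c, -, hc⟩ := (pr_eq_iff (v1_ne a) v0_ne).1 h
  have h0 := congrArg (fun x : EN 1 => x 0) hc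
  simp only [PiLp.smul_apply, smul_eq_mul, v1_zero, v0_zero, mul_zero] at h0
  exact one_ne_zero h0

theorem norm_kp (w : ℂ) : ‖kp w‖ = 1 := norm_pr (v1_ne w)

theorem norm_kinf : ‖kinf‖ = 1 := norm_pr v0_ne

theorem norm_v1_sq (w : ℂ) : ‖v1 w‖ ^ 2 = 1 + ‖w‖ ^ 2 := by
  rw [EuclideanSpace.norm_sq_eq, Fin.sum_univ_two]
  simp

theorem inner_two (x y : EN 1) : (inner ℂ x y : ℂ) = y 0 * (starRingEnd ℂ) (x 0) + y 1 * (starRingEnd ℂ) (x 1) := by
  rw [PiLp.inner_apply, Fin.sum_univ_two, RCLike.inner_apply, RCLike.inner_apply]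

theorem wd_two_sq (x y : EN 1) : wd x y ^ 2 = ‖x 0 * y 1 - x 1 * y 0‖ ^ 2 := by
  have key : ‖x‖ ^ 2 * ‖y‖ ^ 2 - ‖(inner ℂ x y : ℂ)‖ ^ 2 = ‖x 0 * y 1 - x 1 * y 0‖ ^ 2 := by
    rw [EuclideanSpace.norm_sq_eq, EuclideanSpace.norm_sq_eq, Fin.sum_univ_two, Fin.sum_univ_two, inner_two]
    simp only [← Complex.normSq_eq_norm_sq, Complex.normSq_apply]
    simp only [Complex.add_re, Complex.add_im, Complex.sub_re, Complex.sub_im, Complex.mul_re, Complex.mul_im, Complex.conj_re, Complex.conj_im]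
    ring
  rw [Pool.Agent.H62.EF.wd_sq, key]

theorem wd_two (x y : EN 1) : wd x y = ‖x 0 * y 1 - x 1 * y 0‖ :=
  (pow_left_inj₀ (Real.sqrt_nonneg _) (norm_nonneg _) two_ne_zero).1 (wd_two_sq x y)

/-- the Lipschitz estimate -/
theorem exists_lip : ∃ C : ℝ, 0 < C ∧ ∀ (X : ℂ → ℂ) (z : ℂ) (r : ℝ), 0 < r → DifferentiableOn ℂ X (ball z r) → (∀ w ∈ ball z r, X w ≠ 0 ∧ X w ≠ 1) →
    ∀ w ∈ closedBall z (r / 2), dist (kp (X z)) (kp (X w)) ≤ C / r * ‖z - w‖ := by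
  obtain ⟨C, hC, hl⟩ := landau
  refine ⟨8 * C, by positivity, fun X z r hr hd hX w hw => ?_⟩
  have hU : ball z (3 * r / 4) ⊆ ball z r := ball_subset_ball (by linarith)
  have hF : DifferentiableOn ℂ (fun z => v1 (X z)) (ball z (3 * r / 4)) := by
    have h1 : ∀ y ∈ ball z (3 * r / 4), DifferentiableAt ℂ (fun z => v1 (X z)) y := by
      intro y hy
      have h2 : DifferentiableAt ℂ X y := hd.differentiableAt (isOpen_ball.mem_nhds (hU hy))
      unfold v1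
      refine differentiableAt_euclidean.2 fun i => ?_
      fin_cases i
      · exact differentiableAt_const _
      · exact h2
    exact fun y hy => (h1 y hy).differentiableWithinAt
  have hder : ∀ y ∈ ball z (3 * r / 4), fs (v1 (X y)) (deriv (fun z => v1 (X z)) y) ≤ 4 * C / r := by
    intro y hy
    have h2 : DifferentiableAt ℂ X y := hd.differentiableAt (isOpen_ball.mem_nhds (hU hy))
    have h3 : HasDerivAt (fun z => v1 (X z)) (WithLp.toLp 2 ![0, deriv X y] : EN 1) y := by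
      have h4 : HasDerivAt (fun z => (![1, X z] : Fin 2 → ℂ)) ![0, deriv X y] y := by
        refine hasDerivAt_pi.2 fun i => ?_
        fin_cases i
        · exact hasDerivAt_const y (1 : ℂ)
        · exact h2.hasDerivAt
      exact (PiLp.continuousLinearEquiv 2 ℂ (fun _ : Fin 2 => ℂ)).symm.toContinuousLinearMap.hasFDerivAt.comp_hasDerivAt y h4
    rw [h3.deriv]
    unfold fs
    rw [wd_two, norm_v1_sq]
    have h4 : (WithLp.toLp 2 ![0, deriv X y] : EN 1) 1 = deriv X y := rfl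
    have h5 : (WithLp.toLp 2 ![0, deriv X y] : EN 1) 0 = 0 := rfl
    rw [h4, h5, v1_zero, one_mul, mul_zero, sub_zero]
    have h6 : ball y (r / 4) ⊆ ball z r := by
      refine ball_subset_ball' ?_
      rw [mem_ball] at hy
      linarith
    have h7 := hl X y (r / 4) (by positivity) (hd.mono h6) fun w hw => hX w (h6 hw)
    rw [div_le_div_iff₀ (by positivity) hr]
    nlinarith
  have hz : z ∈ ball z (3 * r / 4) := mem_ball_self (by positivity)
  have hw' : w ∈ ball z (3 * r / 4) := by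
    rw [mem_closedBall] at hw
    rw [mem_ball]
    linarith
  have h1 := pr_lipschitz isOpen_ball (convex_ball z (3 * r / 4)) hF (fun y _ => v1_ne _) hder z hz w hw'
  calc dist (kp (X z)) (kp (X w)) ≤ 2 * (4 * C / r) * ‖z - w‖ := h1
    _ = 8 * C / r * ‖z - w‖ := by ring

/-! ## the family -/

variable {p : ℝ} {B : Set ℂ} {δ W : ℝ} {𝓛 : Set (ℂ → ℂ)} {C A : Set ℂ}

theorem mem_sec {s : ℂ → MN 1} : s ∈ Sec 𝓛 ↔ s = (fun _ => kinf) ∨ s = (fun _ => kp 0) ∨ s = (fun _ => kp 1) ∨ ∃ L ∈ 𝓛, s = fun z => kp (L z) := by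
  unfold Sec
  constructor
  · rintro ((h | h | h) | ⟨L, hL, h⟩)
    · exact Or.inl h
    · exact Or.inr (Or.inl h)
    · exact Or.inr (Or.inr (Or.inl h))
    · exact Or.inr (Or.inr (Or.inr ⟨L, hL, h.symm⟩))
  · rintro (h | h | h | ⟨L, hL, h⟩)
    · exact Or.inl (Or.inl h)
    · exact Or.inl (Or.inr (Or.inl h))
    · exact Or.inl (Or.inr (Or.inr h))
    · exact Or.inr ⟨L, hL, h.symm⟩

/-- different sections are different at all points -/
theorem sec_eq (h : BaseD p B δ W 𝓛 C A) {s s' : ℂ → MN 1} (hs : s ∈ Sec 𝓛) (hs' : s' ∈ Sec 𝓛) {z : ℂ} (hz : z ∉ B) (he : s z = s' z) : s = s' := by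
  rw [mem_sec] at hs hs'
  rcases hs with rfl | rfl | rfl | ⟨L, hL, rfl⟩ <;> rcases hs' with rfl | rfl | rfl | ⟨L', hL', rfl⟩
  · rfl
  · exact absurd he.symm (kp_ne_kinf _)
  · exact absurd he.symm (kp_ne_kinf _)
  · exact absurd he.symm (kp_ne_kinf _)
  · exact absurd he (kp_ne_kinf _)
  · rfl
  · exact absurd (kp_inj.1 he) zero_ne_one
  · exact absurd (kp_inj.1 he).symm (h.L_an L' hL' z hz).2.1
  · exact absurd he (kp_ne_kinf _)
  · exact absurd (kp_inj.1 he) one_ne_zero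
  · rfl
  · exact absurd (kp_inj.1 he).symm (h.L_an L' hL' z hz).2.2
  · exact absurd he (kp_ne_kinf _)
  · exact absurd (kp_inj.1 he) (h.L_an L hL z hz).2.1
  · exact absurd (kp_inj.1 he) (h.L_an L hL z hz).2.2
  · rw [h.sub hL hL']

/-- the functions in `Tm` meet no section -/
theorem tm_ne {Ω : Set ℂ} {f : ℂ → ℂ} (hf : f ∈ Tm B 𝓛 C A Ω) {s : ℂ → MN 1} (hs : s ∈ Sec 𝓛) {z : ℂ} (hz : z ∈ Ω) (hzB : z ∉ B) :
    kp (f z) ≠ s z := by
  obtain ⟨-, h1, h2, h3⟩ := hf.2.1 z hz hzB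
  rw [mem_sec] at hs
  rcases hs with rfl | rfl | rfl | ⟨L, hL, rfl⟩
  · exact kp_ne_kinf _
  · exact fun h => h1 (kp_inj.1 h)
  · exact fun h => h2 (kp_inj.1 h)
  · exact fun h => h3 L hL (kp_inj.1 h)

/-- a member which meets a section is the section -/
theorem disj (h : BaseD p B δ W 𝓛 C A) {Ω : Set ℂ} {y : ℂ → MN 1} (hy : y ∈ Sc B 𝓛 C A Ω) {s : ℂ → MN 1} (hs : s ∈ Sec 𝓛)
    {z : ℂ} (hz : z ∈ Ω) (hzB : z ∉ B) (he : y z = s z) : AgO B Ω y s := by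
  rcases hy with ⟨s', hs', hy⟩ | ⟨f, hf, hy⟩
  · have h1 : s' = s := sec_eq h hs' hs hzB (by rw [← hy z hz hzB, he])
    rw [← h1]
    exact hy
  · exact absurd (by rw [← hy z hz hzB, he]) (tm_ne hf hs hz hzB)

theorem tm_anti {Ω Ω' : Set ℂ} (h : Ω' ⊆ Ω) : Tm B 𝓛 C A Ω ⊆ Tm B 𝓛 C A Ω' := fun _ hf =>
  ⟨fun z hz => hf.1 z (h hz), fun z hz => hf.2.1 z (h hz), fun b hb => hf.2.2 b (h hb)⟩

theorem sc_anti {Ω Ω' : Set ℂ} (h : Ω' ⊆ Ω) : Sc B 𝓛 C A Ω ⊆ Sc B 𝓛 C A Ω' := by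
  rintro y (⟨s, hs, hy⟩ | ⟨f, hf, hy⟩)
  · exact Or.inl ⟨s, hs, fun z hz => hy z (h hz)⟩
  · exact Or.inr ⟨f, tm_anti h hf, fun z hz => hy z (h hz)⟩

theorem sc_compact : IsCompact (closedBall (0 : MN 1) 1) := isCompact_closedBall _ _

theorem sc_mem {Ω : Set ℂ} {y : ℂ → MN 1} (hy : y ∈ Sc B 𝓛 C A Ω) {z : ℂ} (hz : z ∈ Ω) (hzB : z ∉ B) : y z ∈ closedBall (0 : MN 1) 1 := by
  rw [mem_closedBall_zero_iff]
  rcases hy with ⟨s, hs, hy⟩ | ⟨f, hf, hy⟩
  · rw [hy z hz hzB]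
    rw [mem_sec] at hs
    rcases hs with rfl | rfl | rfl | ⟨L, hL, rfl⟩
    · exact norm_kinf.le
    · exact (norm_kp _).le
    · exact (norm_kp _).le
    · exact (norm_kp _).le
  · rw [hy z hz hzB]
    exact (norm_kp _).le

/-- a point of `ball z δ'`, `z ∈ Gd B δ'`, is not in `B` -/
theorem not_mem_of_gd {δ' : ℝ} {z w : ℂ} (hz : z ∈ Gd B δ') (hw : w ∈ ball z δ') : w ∉ B := by
  intro h
  have h1 := hz w h
  rw [mem_ball, dist_comm, dist_eq_norm] at hw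
  linarith

theorem sc_lip (h : BaseD p B δ W 𝓛 C A) (δ' : ℝ) (hδ' : 0 < δ') : ∃ L : ℝ, 0 < L ∧ ∀ Ω : Set ℂ, ∀ y ∈ Sc B 𝓛 C A Ω, ∀ z ∈ Gd B δ',
    closedBall z δ' ⊆ Ω → ∀ w ∈ closedBall z (δ' / 2), dist (y z) (y w) ≤ L * ‖z - w‖ := by
  obtain ⟨K, hK, hl⟩ := exists_lip
  refine ⟨K / δ', by positivity, fun Ω y hy z hz hzΩ w hw => ?_⟩
  have hsub : ∀ v ∈ ball z δ', v ∈ Ω ∧ v ∉ B := fun v hv => ⟨hzΩ (ball_subset_closedBall hv), not_mem_of_gd hz hv⟩
  have hzm : z ∈ ball z δ' := mem_ball_self hδ'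
  have hwm : w ∈ ball z δ' := closedBall_subset_ball (by linarith) hw
  have hpos : 0 ≤ K / δ' * ‖z - w‖ := by positivity
  rcases hy with ⟨s, hs, hy⟩ | ⟨f, hf, hy⟩
  · rw [hy z (hsub z hzm).1 (hsub z hzm).2, hy w (hsub w hwm).1 (hsub w hwm).2]
    rw [mem_sec] at hs
    rcases hs with rfl | rfl | rfl | ⟨L, hL, rfl⟩
    · rw [dist_self]
      exact hpos
    · rw [dist_self]
      exact hpos
    · rw [dist_self]
      exact hpos
    · exact hl L z δ' hδ' (fun v hv => (h.L_an L hL v (hsub v hv).2).1.differentiableAt.differentiableWithinAt)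
        (fun v hv => (h.L_an L hL v (hsub v hv).2).2) w hw
  · rw [hy z (hsub z hzm).1 (hsub z hzm).2, hy w (hsub w hwm).1 (hsub w hwm).2]
    exact hl f z δ' hδ' (fun v hv => (hf.2.1 v (hsub v hv).1 (hsub v hv).2).1.differentiableAt.differentiableWithinAt)
      (fun v hv => ⟨(hf.2.1 v (hsub v hv).1 (hsub v hv).2).2.1, (hf.2.1 v (hsub v hv).1 (hsub v hv).2).2.2.1⟩) w hw

theorem B_add (h : BaseD p B δ W 𝓛 C A) {b : ℂ} (l : ℤ) : b + p * l * Complex.I ∈ B ↔ b ∈ B := by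
  constructor
  · intro hb
    have h1 := h.B_inv _ hb (-l)
    have h2 : b + p * l * Complex.I + p * ((-l : ℤ) : ℂ) * Complex.I = b := by
      push_cast
      ring
    rwa [h2] at h1
  · exact fun hb => h.B_inv b hb l

theorem C_add (h : BaseD p B δ W 𝓛 C A) {b : ℂ} (l : ℤ) : b + p * l * Complex.I ∈ C ↔ b ∈ C := by
  constructor
  · intro hb
    have h1 := h.C_inv _ hb (-l)
    have h2 : b + p * l * Complex.I + p * ((-l : ℤ) : ℂ) * Complex.I = b := by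
      push_cast
      ring
    rwa [h2] at h1
  · exact fun hb => h.C_inv b hb l

theorem L_add (h : BaseD p B δ W 𝓛 C A) {L : ℂ → ℂ} (hL : L ∈ 𝓛) (l : ℤ) (z : ℂ) : L (z + p * l * Complex.I) = L z := by
  have hper := h.L_per L hL
  induction l with
  | zero => simp
  | succ k ih =>
    have h1 := hper (z + p * (k : ℤ) * Complex.I)
    rw [ih] at h1
    rw [← h1]
    congr 1
    push_cast
    ring
  | pred k ih =>
    have h1 := hper (z + p * ((-(k : ℤ) - 1 : ℤ) : ℂ) * Complex.I)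
    have h2 : z + p * ((-(k : ℤ) - 1 : ℤ) : ℂ) * Complex.I + p * Complex.I = z + p * ((-(k : ℤ) : ℤ) : ℂ) * Complex.I := by
      push_cast
      ring
    rw [h2, ih] at h1
    exact h1.symm

theorem sec_add (h : BaseD p B δ W 𝓛 C A) {s : ℂ → MN 1} (hs : s ∈ Sec 𝓛) (l : ℤ) (z : ℂ) : s (z + p * l * Complex.I) = s z := by
  rw [mem_sec] at hs
  rcases hs with rfl | rfl | rfl | ⟨L, hL, rfl⟩
  · rfl
  · rfl
  · rfl
  · show kp (L (z + p * l * Complex.I)) = kp (L z)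
    rw [L_add h hL]

/-- translation of a meromorphic function -/
theorem mer_add {f : ℂ → ℂ} {z c : ℂ} (hf : MeromorphicAt f (z + c)) : MeromorphicAt (fun z => f (z + c)) z := by
  have h1 : AnalyticAt ℂ (fun z : ℂ => z + c) z := analyticAt_id.add analyticAt_const
  exact MeromorphicAt.comp_analyticAt (f := f) (g := fun z : ℂ => z + c) (by simpa using hf) h1

theorem an_add {f : ℂ → ℂ} {z c : ℂ} (hf : AnalyticAt ℂ f (z + c)) : AnalyticAt ℂ (fun z => f (z + c)) z := by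
  have h1 : AnalyticAt ℂ (fun z : ℂ => z + c) z := analyticAt_id.add analyticAt_const
  exact AnalyticAt.comp (g := f) (f := fun z : ℂ => z + c) (by simpa using hf) h1

theorem tm_trans (h : BaseD p B δ W 𝓛 C A) {Ω : Set ℂ} {f : ℂ → ℂ} (hf : f ∈ Tm B 𝓛 C A Ω) (l : ℤ) :
    (fun z => f (z + p * l * Complex.I)) ∈ Tm B 𝓛 C A (Sh p l Ω) := by
  refine ⟨fun z hz => mer_add (hf.1 _ hz), fun z hz hzB => ?_, fun b hb hbC a ha => ?_⟩
  · obtain ⟨h1, h2, h3, h4⟩ := hf.2.1 _ hz fun h5 => hzB ((B_add h l).1 h5)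
    exact ⟨an_add h1, h2, h3, fun L hL => by
      have := h4 L hL
      rwa [L_add h hL] at this⟩
  · refine hf.2.2 _ hb ((C_add h l).2 hbC) a ?_
    have h1 : Tendsto (fun z : ℂ => z - p * l * Complex.I) (𝓝[≠] (b + p * l * Complex.I)) (𝓝[≠] b) := by
      rw [tendsto_nhdsWithin_iff]
      constructor
      · have h2 : Tendsto (fun z : ℂ => z - p * l * Complex.I) (𝓝 (b + p * l * Complex.I)) (𝓝 (b + p * l * Complex.I - p * l * Complex.I)) :=
          (continuous_id.sub continuous_const).tendsto _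
        rw [add_sub_cancel_right] at h2
        exact h2.mono_left nhdsWithin_le_nhds
      · filter_upwards [self_mem_nhdsWithin] with z hz h3
        apply hz
        have h4 : z - p * l * Complex.I = b := h3
        rw [← h4, sub_add_cancel]
        exact Set.mem_singleton _
    refine (ha.comp h1).congr fun z => ?_
    simp only [Function.comp_apply, sub_add_cancel]

theorem sc_trans (h : BaseD p B δ W 𝓛 C A) {Ω : Set ℂ} {y : ℂ → MN 1} (hy : y ∈ Sc B 𝓛 C A Ω) (l : ℤ) :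
    (fun z => y (z + p * l * Complex.I)) ∈ Sc B 𝓛 C A (Sh p l Ω) := by
  rcases hy with ⟨s, hs, hy⟩ | ⟨f, hf, hy⟩
  · refine Or.inl ⟨s, hs, fun z hz hzB => ?_⟩
    show y (z + p * l * Complex.I) = s z
    rw [hy _ hz fun h5 => hzB ((B_add h l).1 h5), sec_add h hs]
  · exact Or.inr ⟨_, tm_trans h hf l, fun z hz hzB => hy _ hz fun h5 => hzB ((B_add h l).1 h5)⟩

/-- `B` is closed and discrete -/
theorem B_ev (h : BaseD p B δ W 𝓛 C A) {z : ℂ} (hz : z ∉ B) : ∀ᶠ w in 𝓝 z, w ∉ B := by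
  have hδ := h.δ_pos
  by_cases h1 : ∃ b ∈ B, ‖z - b‖ < 4 * δ
  · obtain ⟨b, hb, hb2⟩ := h1
    have hzb : z ≠ b := fun h2 => hz (h2 ▸ hb)
    have h2 : ∀ᶠ w in 𝓝 z, w ≠ b := (isOpen_compl_singleton (x := b)).mem_nhds hzb
    have h3 : ∀ᶠ w in 𝓝 z, ‖w - b‖ < 4 * δ := by
      have : Continuous fun w : ℂ => ‖w - b‖ := by fun_prop
      exact this.continuousAt.eventually_lt continuousAt_const hb2
    filter_upwards [h2, h3] with w hw1 hw2 hwB
    have h4 := h.B_sep w hwB b hb hw1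
    linarith
  · push Not at h1
    filter_upwards [ball_mem_nhds z (show (0 : ℝ) < 4 * δ by linarith)] with w hw hwB
    have h4 := h1 w hwB
    rw [mem_ball, dist_comm, dist_eq_norm] at hw
    linarith

theorem B_ev' (h : BaseD p B δ W 𝓛 C A) (z : ℂ) : ∀ᶠ w in 𝓝[≠] z, w ∉ B := by
  by_cases hz : z ∈ B
  · have hδ := h.δ_pos
    filter_upwards [nhdsWithin_le_nhds (ball_mem_nhds z (show (0 : ℝ) < 8 * δ by linarith)), self_mem_nhdsWithin] with w hw hne hwB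
    have h4 := h.B_sep w hwB z hz hne
    rw [mem_ball, dist_eq_norm] at hw
    linarith
  · exact nhdsWithin_le_nhds (B_ev h hz)

/-- identity theorem for meromorphic functions -/
theorem mer_identity {Ω : Set ℂ} (hΩ : IsPreconnected Ω) {f g : ℂ → ℂ} (hf : ∀ z ∈ Ω, MeromorphicAt f z) (hg : ∀ z ∈ Ω, MeromorphicAt g z)
    {z₀ : ℂ} (hz₀ : z₀ ∈ Ω) (h : ∃ᶠ z in 𝓝[≠] z₀, f z = g z) : ∀ z ∈ Ω, ∀ᶠ w in 𝓝[≠] z, f w = g w := by
  have hm : MeromorphicOn (f - g) Ω := fun z hz => (hf z hz).sub (hg z hz)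
  intro z hz
  by_contra hcon
  have h1 : meromorphicOrderAt (f - g) z ≠ ⊤ := by
    intro h2
    rw [meromorphicOrderAt_eq_top_iff] at h2
    exact hcon (h2.mono fun w hw => sub_eq_zero.1 hw)
  have h2 := hm.meromorphicOrderAt_ne_top_of_isPreconnected hΩ hz hz₀ h1
  have h3 := (meromorphicOrderAt_ne_top_iff_eventually_ne_zero (hm z₀ hz₀)).1 h2
  exact h (h3.mono fun w hw h4 => hw (sub_eq_zero.2 h4))

theorem sc_uniq (h : BaseD p B δ W 𝓛 C A) {Ω : Set ℂ} (hΩo : IsOpen Ω) (hΩ : IsPreconnected Ω) {f g : ℂ → MN 1} (hf : f ∈ Sc B 𝓛 C A Ω)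
    (hg : g ∈ Sc B 𝓛 C A Ω) {z₀ : ℂ} (hz₀ : z₀ ∈ Ω) (hfg : ∃ᶠ z in 𝓝[≠] z₀, f z = g z) :
    ∀ z ∈ Ω, z ∉ B → f z = g z := by
  have hev : ∀ᶠ z in 𝓝[≠] z₀, z ∈ Ω := nhdsWithin_le_nhds (hΩo.mem_nhds hz₀)
  -- a point where both are given and equal
  obtain ⟨z₁, he, hz₁, hz₁B⟩ := (hfg.and_eventually (hev.and (B_ev' h z₀))).exists
  rcases hg with ⟨s, hs, hgs⟩ | ⟨X, hX, hgX⟩
  · rw [hgs z₁ hz₁ hz₁B] at he
    intro z hz hzB
    rw [disj h hf hs hz₁ hz₁B he z hz hzB, hgs z hz hzB]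
  · rcases hf with ⟨s, hs, hfs⟩ | ⟨Y, hY, hfY⟩
    · rw [hfs z₁ hz₁ hz₁B, hgX z₁ hz₁ hz₁B] at he
      exact absurd he.symm (tm_ne hX hs hz₁ hz₁B)
    · have h1 : ∃ᶠ z in 𝓝[≠] z₀, Y z = X z := by
        refine (hfg.and_eventually (hev.and (B_ev' h z₀))).mono ?_
        rintro z ⟨h2, h3, h4⟩
        rw [hfY z h3 h4, hgX z h3 h4, kp_inj] at h2
        exact h2
      intro z hz hzB
      rw [hfY z hz hzB, hgX z hz hzB]
      have h2 := mer_identity hΩ hY.1 hX.1 hz₀ h1 z hz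
      have h3 : Tendsto Y (𝓝[≠] z) (𝓝 (Y z)) := (hY.2.1 z hz hzB).1.continuousAt.tendsto.mono_left nhdsWithin_le_nhds
      have h4 : Tendsto X (𝓝[≠] z) (𝓝 (X z)) := (hX.2.1 z hz hzB).1.continuousAt.tendsto.mono_left nhdsWithin_le_nhds
      rw [tendsto_nhds_unique (h3.congr' h2) h4]

end Pool.Agent.H62.LR

end
end

section

/-!
# LR LB: bounds for `L` at the good points of the strip, small tools
-/

set_option autoImplicit false

open Topology Filter Metric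

noncomputable section

namespace Pool.Agent.H62.LR

attribute [-instance] ProperSMul.toContinuousSMul

open Pool.Agent.H87.LU

variable {p : ℝ} {B : Set ℂ} {δ W : ℝ} {𝓛 : Set (ℂ → ℂ)} {C A : Set ℂ}

/-- the section `L` is bounded and bounded away from `0` at the good points of the strip -/
theorem BaseD.L_bound (h : BaseD p B δ W 𝓛 C A) {L : ℂ → ℂ} (hL : L ∈ 𝓛) : ∃ K : ℝ, 1 ≤ K ∧ ∀ z ∈ Gd B δ, |z.re| ≤ W → ‖L z‖ ≤ K ∧ ‖L z‖⁻¹ ≤ K := by
  have hδ := h.δ_pos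
  have hp := h.p_pos
  set Q : Set ℂ := Gd B δ ∩ closedBall (0 : ℂ) (W + p) with hQ
  have hcpt : IsCompact Q := (isCompact_closedBall 0 _).inter_left (isClosed_gd δ)
  have hc : ContinuousOn (fun z => ‖L z‖ + ‖L z‖⁻¹) Q := by
    intro z hz
    have h1 := h.L_an L hL z (gd_notMem hδ hz.1)
    have h2 : ContinuousAt (fun z => ‖L z‖) z := h1.1.continuousAt.norm
    exact (h2.add (h2.inv₀ (norm_ne_zero_iff.2 h1.2.1))).continuousWithinAt
  obtain ⟨K, hK⟩ := (hcpt.image_of_continuousOn hc).isBounded.bddAbove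
  refine ⟨max K 1, le_max_right _ _, fun z hz hzW => ?_⟩
  obtain ⟨l, hl⟩ : ∃ l : ℤ, |z.im - p * l| ≤ p := by
    refine ⟨⌊z.im / p⌋, ?_⟩
    have h1 := Int.floor_le (z.im / p)
    have h2 := Int.lt_floor_add_one (z.im / p)
    rw [le_div_iff₀ hp] at h1
    rw [div_lt_iff₀ hp] at h2
    rw [abs_of_nonneg (by nlinarith)]
    nlinarith
  set w : ℂ := z + p * ((-l : ℤ) : ℂ) * Complex.I with hw
  have hwG : w ∈ Gd B δ := by
    intro b hb
    have h1 := hz (b + p * l * Complex.I) (h.B_inv b hb l)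
    have h2 : w - b = z - (b + p * l * Complex.I) := by
      rw [hw]
      push_cast
      ring
    rwa [h2]
  have hwQ : w ∈ Q := by
    refine ⟨hwG, ?_⟩
    rw [mem_closedBall, dist_zero_right]
    refine (Complex.norm_le_abs_re_add_abs_im w).trans ?_
    rw [hw, add_re, add_im]
    have h2 : z.im + p * ((-l : ℤ) : ℝ) = z.im - p * l := by
      push_cast
      ring
    rw [h2]
    exact add_le_add hzW hl
  have h3 : ‖L w‖ + ‖L w‖⁻¹ ≤ K := hK (Set.mem_image_of_mem _ hwQ)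
  rw [hw, L_add h hL] at h3
  have h4 : 0 ≤ ‖L z‖ := norm_nonneg _
  have h5 : 0 ≤ ‖L z‖⁻¹ := by positivity
  exact ⟨by linarith [le_max_left K 1], by linarith [le_max_left K 1]⟩

/-- a small logarithm of `1` is `0` -/
theorem eq_zero_of_exp {w : ℂ} (h1 : Complex.exp w = 1) (h2 : ‖w‖ < 2 * Real.pi) : w = 0 := by
  obtain ⟨n, hn⟩ := Complex.exp_eq_one_iff.1 h1
  have h3 : ‖w‖ = |(n : ℝ)| * (2 * Real.pi) := by
    rw [hn, norm_mul, norm_mul, norm_mul, Complex.norm_I, mul_one, Complex.norm_real, Real.norm_of_nonneg Real.pi_pos.le, Complex.norm_intCast]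
    norm_num
  have hn0 : n = 0 := by
    by_contra hne
    have h4 : (1 : ℝ) ≤ |(n : ℝ)| := by
      rw [← Int.cast_abs]
      exact_mod_cast Int.one_le_abs hne
    rw [h3] at h2
    nlinarith [Real.pi_pos]
  rw [hn, hn0, Int.cast_zero, zero_mul]

/-- a good point in every half plane -/
theorem BaseD.exists_pt (h : BaseD p B δ W 𝓛 C A) {σ : ℝ} (hσ : σ = 1 ∨ σ = -1) (ρ : ℝ) : ∃ z ∈ HP σ ρ, z ∉ B := by
  have hσσ : σ * σ = 1 := by rcases hσ with rfl | rfl <;> norm_num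
  refine ⟨(W : ℂ) + ((σ * (ρ + 1) : ℝ) : ℂ) * Complex.I, ?_, ?_⟩
  · show ρ < σ * ((W : ℂ) + ((σ * (ρ + 1) : ℝ) : ℂ) * Complex.I).im
    have h1 : ((W : ℂ) + ((σ * (ρ + 1) : ℝ) : ℂ) * Complex.I).im = σ * (ρ + 1) := by simp
    rw [h1, ← mul_assoc, hσσ]
    linarith
  · intro hB
    have h1 := h.B_re _ hB
    have h2 : ((W : ℂ) + ((σ * (ρ + 1) : ℝ) : ℂ) * Complex.I).re = W := by simp
    rw [h2, abs_of_pos h.W_pos] at h1
    linarith [h.δ_pos]

/-- the section `L` is analytic at all translates of `b₀`, with the same value -/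
theorem BaseD.L_at (h : BaseD p B δ W 𝓛 C A) {L : ℂ → ℂ} (hL : L ∈ 𝓛) {b₀ : ℂ} (hLa : AnalyticAt ℂ L b₀) (l : ℤ) :
    AnalyticAt ℂ L (b₀ + p * l * Complex.I) ∧ L (b₀ + p * l * Complex.I) = L b₀ := by
  refine ⟨?_, L_add h hL l b₀⟩
  have h1 : L = fun z => L (z + p * ((-l : ℤ) : ℂ) * Complex.I) := by
    funext z
    exact (L_add h hL (-l) z).symm
  rw [h1]
  refine an_add (f := L) (c := p * ((-l : ℤ) : ℂ) * Complex.I) ?_
  have h2 : b₀ + p * l * Complex.I + p * ((-l : ℤ) : ℂ) * Complex.I = b₀ := by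
    push_cast
    ring
  rwa [h2]

end Pool.Agent.H62.LR

end
end
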