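import Pool.Agent.H94.CB.H62.LR.LogFn
import Pool.Agent.H94.CB.M213
import Pool.Agent.H94.CB.M214
import Pool.Agent.H94.CB.M215

/-! The parts of this file: H87.LU.HLim, H87.LU.HFin, H87.LU.HArm, H62.LR.Klein, H87.LR.Hd0, H87.LR.LAN. -/

section

/-!
# LU HLim: copy of `Lim` and of parts of `Sep`, `Half` for `HDyn`
-/

set_option autoImplicit false

open Topology Filter Metric

namespace Pool.Agent.H87.LU

attribute [-instance] ProperSMul.toContinuousSMul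

variable {Y : Type} [MetricSpace Y] {K : Set Y} {p : ℝ} {B : Set ℂ} {δ W : ℝ} {S : Set ℂ → Set (ℂ → Y)}

theorem HDyn.mem_add (h : HDyn K p B δ W S) {b : ℂ} (l : ℤ) : b + p * l * Complex.I ∈ B ↔ b ∈ B := by
  constructor
  · intro hb
    have h1 := h.B_inv _ hb (-l)
    have h2 : b + p * l * Complex.I + p * ((-l : ℤ) : ℂ) * Complex.I = b := by
      push_cast
      ring
    rwa [h2] at h1
  · exact fun hb => h.B_inv b hb l

theorem HDyn.gd_add (h : HDyn K p B δ W S) (δ' : ℝ) {z : ℂ} (l : ℤ) : z + p * l * Complex.I ∈ Gd B δ' ↔ z ∈ Gd B δ' := by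
  constructor
  · intro hz b hb
    have h1 := hz (b + p * l * Complex.I) (h.B_inv b hb l)
    rwa [add_sub_add_right_eq_sub] at h1
  · intro hz b hb
    have h1 := hz (b + p * ((-l : ℤ) : ℂ) * Complex.I) (h.B_inv b hb (-l))
    have h2 : z - (b + p * ((-l : ℤ) : ℂ) * Complex.I) = z + p * l * Complex.I - b := by
      push_cast
      ring
    rwa [h2] at h1

/-- the other bad points are far away -/
theorem HDyn.far (h : HDyn K p B δ W S) {z b b' : ℂ} {r : ℝ} (hb : b ∈ B) (hb' : b' ∈ B) (hne : b' ≠ b) (hr : ‖z - b‖ < r) :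
    8 * δ - r < ‖z - b'‖ := by
  have h1 := h.B_sep b' hb' b hb hne
  have h2 : b' - b = (z - b) - (z - b') := by ring
  rw [h2] at h1
  have h3 := norm_sub_le (z - b) (z - b')
  linarith

theorem HDyn.exists_gd (h : HDyn K p B δ W S) {z : ℂ} (hz : z ∉ B) : ∃ δ' : ℝ, 0 < δ' ∧ z ∈ Gd B δ' := by
  have hδ := h.δ_pos
  by_cases h1 : ∃ b ∈ B, ‖z - b‖ < 2 * δ
  · obtain ⟨b, hb, hb2⟩ := h1
    have hpos : 0 < ‖z - b‖ := by
      rw [norm_pos_iff, sub_ne_zero]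
      rintro rfl
      exact hz hb
    refine ⟨min (2 * δ) ‖z - b‖, lt_min (by linarith) hpos, ?_⟩
    intro b' hb'
    by_cases hbb : b' = b
    · rw [hbb]
      exact min_le_right _ _
    · have h2 := h.far hb hb' hbb hb2
      exact (min_le_left _ _).trans (by linarith)
  · push Not at h1
    exact ⟨2 * δ, by linarith, h1⟩

/-- a point in the strip is an accumulation point of the good points in the strip -/
theorem HDyn.perfect (h : HDyn K p B δ W S) {z : ℂ} (hz : z ∈ Gd B (2 * δ)) (hzW : |z.re| ≤ W) :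
    ∃ᶠ w in 𝓝[≠] z, w ∈ Gd B (2 * δ) ∧ |w.re| < W := by
  have hδ := h.δ_pos
  by_cases h1 : ∃ b ∈ B, ‖z - b‖ < 3 * δ
  · obtain ⟨b, hb, hb3⟩ := h1
    have hzb : z ≠ b := by
      rintro rfl
      exact gd_notMem (by linarith) hz hb
    have hzb' : z - b ≠ 0 := sub_ne_zero.2 hzb
    have htend : Tendsto (fun s : ℝ => z + (s : ℂ) * (z - b)) (𝓝[>] 0) (𝓝[≠] z) := by
      refine tendsto_nhdsWithin_iff.2 ⟨?_, ?_⟩
      · have hc : Continuous (fun s : ℝ => z + (s : ℂ) * (z - b)) := by fun_prop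
        have h2 := hc.tendsto 0
        simp only [Complex.ofReal_zero, zero_mul, add_zero] at h2
        exact h2.mono_left nhdsWithin_le_nhds
      · filter_upwards [self_mem_nhdsWithin] with s hs
        have hs' : (0 : ℝ) < s := hs
        show z + (s : ℂ) * (z - b) ≠ z
        intro heq
        have h3 : (s : ℂ) * (z - b) = 0 := by
          rwa [add_eq_left] at heq
        rcases mul_eq_zero.1 h3 with h4 | h4
        · exact hs'.ne' (Complex.ofReal_eq_zero.1 h4)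
        · exact hzb' h4
    refine htend.frequently (Eventually.frequently ?_)
    have h5 : ∀ᶠ s : ℝ in 𝓝[>] 0, s < 1 / 4 := nhdsWithin_le_nhds (Iio_mem_nhds (by norm_num))
    filter_upwards [self_mem_nhdsWithin, h5] with s hs hs1
    have hs' : (0 : ℝ) < s := hs
    have hnorm : ‖(s : ℂ) * (z - b)‖ = s * ‖z - b‖ := by
      rw [norm_mul, Complex.norm_real, Real.norm_of_nonneg hs'.le]
    refine ⟨?_, ?_⟩
    · intro b' hb'
      by_cases hbb : b' = b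
      · rw [hbb]
        have h6 : z + (s : ℂ) * (z - b) - b = ((1 + s : ℝ) : ℂ) * (z - b) := by
          push_cast
          ring
        rw [h6, norm_mul, Complex.norm_real, Real.norm_of_nonneg (by linarith)]
        have h7 := hz b hb
        nlinarith [norm_nonneg (z - b)]
      · have h6 := h.far hb hb' hbb hb3
        have h7 : z - b' = (z + (s : ℂ) * (z - b) - b') - (s : ℂ) * (z - b) := by ring
        rw [h7] at h6
        have h8 := norm_sub_le (z + (s : ℂ) * (z - b) - b') ((s : ℂ) * (z - b))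
        rw [hnorm] at h8
        have h9 : s * ‖z - b‖ ≤ 1 * (3 * δ) :=
          mul_le_mul (by linarith) hb3.le (norm_nonneg _) zero_le_one
        linarith
    · have h6 : (z + (s : ℂ) * (z - b)).re = b.re + (1 + s) * (z - b).re := by
        simp
        ring
      have h7 : |(z - b).re| ≤ 3 * δ := (Complex.abs_re_le_norm _).trans hb3.le
      rw [h6]
      have h8 := h.B_re b hb
      calc |b.re + (1 + s) * (z - b).re| ≤ |b.re| + |(1 + s) * (z - b).re| := abs_add_le _ _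
        _ = |b.re| + (1 + s) * |(z - b).re| := by rw [abs_mul, abs_of_pos (by linarith : (0 : ℝ) < 1 + s)]
        _ ≤ |b.re| + (1 + 1 / 4) * (3 * δ) := by
          have : (1 + s) * |(z - b).re| ≤ (1 + 1 / 4) * (3 * δ) := mul_le_mul (by linarith) h7 (abs_nonneg _) (by norm_num)
          linarith
        _ < W := by linarith
  · push Not at h1
    have hW := h.W_pos
    -- move towards the imaginary axis
    obtain ⟨e, he⟩ : ∃ e : ℝ, (e = 1 ∨ e = -1) ∧ ∀ s : ℝ, 0 < s → s < W → |z.re + e * s| < W := by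
      rcases le_total 0 z.re with h2 | h2
      · refine ⟨-1, Or.inr rfl, fun s hs hsW => ?_⟩
        rw [abs_of_nonneg h2] at hzW
        rw [abs_lt]
        constructor <;> linarith
      · refine ⟨1, Or.inl rfl, fun s hs hsW => ?_⟩
        rw [abs_of_nonpos h2] at hzW
        rw [abs_lt]
        constructor <;> linarith
    have hen : ‖(e : ℂ)‖ = 1 := by
      rcases he.1 with h2 | h2 <;> simp [h2]
    have htend : Tendsto (fun s : ℝ => z + (e : ℂ) * (s : ℂ)) (𝓝[>] 0) (𝓝[≠] z) := by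
      refine tendsto_nhdsWithin_iff.2 ⟨?_, ?_⟩
      · have hc : Continuous (fun s : ℝ => z + (e : ℂ) * (s : ℂ)) := by fun_prop
        have h2 := hc.tendsto 0
        simp only [Complex.ofReal_zero, mul_zero, add_zero] at h2
        exact h2.mono_left nhdsWithin_le_nhds
      · filter_upwards [self_mem_nhdsWithin] with s hs
        have hs' : (0 : ℝ) < s := hs
        show z + (e : ℂ) * (s : ℂ) ≠ z
        intro heq
        have h3 : (e : ℂ) * (s : ℂ) = 0 := by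
          rwa [add_eq_left] at heq
        rcases mul_eq_zero.1 h3 with h4 | h4
        · rw [h4, norm_zero] at hen
          exact one_ne_zero hen.symm
        · exact hs'.ne' (Complex.ofReal_eq_zero.1 h4)
    refine htend.frequently (Eventually.frequently ?_)
    have h5 : ∀ᶠ s : ℝ in 𝓝[>] 0, s < min δ W := nhdsWithin_le_nhds (Iio_mem_nhds (lt_min hδ hW))
    filter_upwards [self_mem_nhdsWithin, h5] with s hs hs1
    have hs' : (0 : ℝ) < s := hs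
    refine ⟨?_, ?_⟩
    · intro b hb
      have h2 := h1 b hb
      have h3 : z - b = (z + (e : ℂ) * (s : ℂ) - b) - (e : ℂ) * (s : ℂ) := by ring
      rw [h3] at h2
      have h4 := norm_sub_le (z + (e : ℂ) * (s : ℂ) - b) ((e : ℂ) * (s : ℂ))
      rw [norm_mul, hen, one_mul, Complex.norm_real, Real.norm_of_nonneg hs'.le] at h4
      have h5 := hs1.trans_le (min_le_left _ _)
      linarith
    · have h6 : (z + (e : ℂ) * (s : ℂ)).re = z.re + e * s := by simp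
      rw [h6]
      exact he.2 s hs' (hs1.trans_le (min_le_right _ _))

/-- a point to the right of all bad points -/
theorem HDyn.right_mem (h : HDyn K p B δ W S) {z : ℂ} (hz : W - 2 * δ ≤ z.re) : z ∈ Gd B (2 * δ) := by
  intro b hb
  have h1 := h.B_re b hb
  have h2 : |(z - b).re| ≤ ‖z - b‖ := Complex.abs_re_le_norm _
  have h3 : (z - b).re = z.re - b.re := Complex.sub_re _ _
  have h4 := le_abs_self (z - b).re
  have h5 := le_abs_self b.re
  linarith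

/-! ## limits -/

theorem HDyn.exists_lim (h : HDyn K p B δ W S) (𝒰 : Ultrafilter ℕ) {Ω : ℕ → Set ℂ} (F : ℕ → ℂ → Y) (hΩ : ∀ n, IsOpen (Ω n) ∧ Convex ℝ (Ω n))
    (hex : ∀ R : ℝ, ∀ᶠ n in (𝒰 : Filter ℕ), ball 0 R ⊆ Ω n) (hF : ∀ᶠ n in (𝒰 : Filter ℕ), F n ∈ S (Ω n)) :
    ∃ f ∈ S Set.univ, ∀ z, z ∉ B → Tendsto (fun n => F n z) 𝒰 (𝓝 (f z)) := by
  have key : ∀ z, ∃ y : Y, z ∉ B → Tendsto (fun n => F n z) 𝒰 (𝓝 y) := by
    intro z
    by_cases hz : z ∈ B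
    · exact ⟨F 0 z, fun h' => absurd hz h'⟩
    · have h1 : ((𝒰.map fun n => F n z : Ultrafilter Y) : Filter Y) ≤ 𝓟 K := by
        rw [Filter.le_principal_iff]
        show ∀ᶠ n in (𝒰 : Filter ℕ), F n z ∈ K
        filter_upwards [hF, hex (‖z‖ + 1)] with n hn hn2
        exact h.mem _ (hΩ n).1 (hΩ n).2 _ hn z (hn2 (by rw [mem_ball_zero_iff]; linarith)) hz
      obtain ⟨y, _, hy⟩ := h.compact.ultrafilter_le_nhds _ h1
      exact ⟨y, fun _ => hy⟩
  choose f hf using key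
  exact ⟨f, h.lim 𝒰 Ω F f hΩ hex hF hf, hf⟩

theorem HDyn.unif (h : HDyn K p B δ W S) (𝒰 : Ultrafilter ℕ) {Ω : ℕ → Set ℂ} (F : ℕ → ℂ → Y) (hΩ : ∀ n, IsOpen (Ω n) ∧ Convex ℝ (Ω n))
    (hex : ∀ R : ℝ, ∀ᶠ n in (𝒰 : Filter ℕ), ball 0 R ⊆ Ω n) (hF : ∀ᶠ n in (𝒰 : Filter ℕ), F n ∈ S (Ω n))
    {f : ℂ → Y} (hfS : f ∈ S Set.univ) (hf : ∀ z, z ∉ B → Tendsto (fun n => F n z) 𝒰 (𝓝 (f z))) {δ' : ℝ} (hδ' : 0 < δ') (R ε : ℝ)
    (hε : 0 < ε) : ∀ᶠ n in (𝒰 : Filter ℕ), ∀ z ∈ Gd B δ', ‖z‖ ≤ R → dist (F n z) (f z) < ε := by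
  obtain ⟨L, hL, hlip⟩ := h.lip δ' R hδ'
  have hcpt : IsCompact (Gd B δ' ∩ closedBall (0 : ℂ) R) := (isCompact_closedBall 0 R).inter_left (isClosed_gd δ')
  obtain ⟨s, hs⟩ : ∃ s : ℝ, s = min (δ' / 2) (ε / (4 * L)) := ⟨_, rfl⟩
  have hs0 : 0 < s := by
    rw [hs]
    exact lt_min (by positivity) (by positivity)
  have hs1 : s ≤ δ' / 2 := by rw [hs]; exact min_le_left _ _
  have hs2 : L * s ≤ ε / 4 := by
    have h1 : s ≤ ε / (4 * L) := by rw [hs]; exact min_le_right _ _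
    calc L * s ≤ L * (ε / (4 * L)) := mul_le_mul_of_nonneg_left h1 hL.le
      _ = ε / 4 := by field_simp
  obtain ⟨t, htC, htf, hcov⟩ := hcpt.finite_cover_balls hs0
  have hev : ∀ᶠ n in (𝒰 : Filter ℕ), ∀ x ∈ t, dist (F n x) (f x) < ε / 4 := by
    rw [Filter.eventually_all_finite htf]
    intro x hx
    have h1 := hf x (gd_notMem hδ' (htC hx).1)
    exact (tendsto_iff_dist_tendsto_zero.mp h1).eventually_lt_const (by positivity)
  filter_upwards [hF, hev, hex (R + δ' + 1)] with n hn hn2 hn3 z hz hzR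
  have hzC : z ∈ Gd B δ' ∩ closedBall (0 : ℂ) R := ⟨hz, by rwa [mem_closedBall, dist_zero_right]⟩
  obtain ⟨x, hx, hzx⟩ := Set.mem_iUnion₂.mp (hcov hzC)
  have hxz : ‖x - z‖ < s := by
    rw [mem_ball, dist_comm, dist_eq_norm] at hzx
    exact hzx
  have hzx' : z ∈ closedBall x (δ' / 2) := by
    rw [mem_closedBall, dist_comm, dist_eq_norm]
    linarith
  have hxR : ‖x‖ ≤ R := by
    have := (htC hx).2
    rwa [mem_closedBall, dist_zero_right] at this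
  have hxre : |x.re| ≤ R := (Complex.abs_re_le_norm x).trans hxR
  have hxb : closedBall x δ' ⊆ ball 0 (R + δ' + 1) := by
    intro w hw
    rw [mem_closedBall, dist_eq_norm] at hw
    rw [mem_ball_zero_iff]
    have h4 : w = (w - x) + x := by ring
    calc ‖w‖ = ‖(w - x) + x‖ := by rw [← h4]
      _ ≤ ‖w - x‖ + ‖x‖ := norm_add_le _ _
      _ < R + δ' + 1 := by linarith
  have h1 := hlip (Ω n) (hΩ n).1 (hΩ n).2 (F n) hn x (htC hx).1 hxre (hxb.trans hn3) z hzx'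
  have h2 := hlip Set.univ isOpen_univ convex_univ f hfS x (htC hx).1 hxre (Set.subset_univ _) z hzx'
  have h3 := hn2 x hx
  have h4 : L * ‖x - z‖ ≤ ε / 4 := (mul_le_mul_of_nonneg_left hxz.le hL.le).trans hs2
  have h5 := dist_triangle4 (F n z) (F n x) (f x) (f z)
  rw [dist_comm (F n z) (F n x)] at h5
  linarith

theorem HDyn.tendsto_along (h : HDyn K p B δ W S) (𝒰 : Ultrafilter ℕ) {Ω : ℕ → Set ℂ} (F : ℕ → ℂ → Y)
    (hΩ : ∀ n, IsOpen (Ω n) ∧ Convex ℝ (Ω n)) (hex : ∀ R : ℝ, ∀ᶠ n in (𝒰 : Filter ℕ), ball 0 R ⊆ Ω n) (hF : ∀ᶠ n in (𝒰 : Filter ℕ), F n ∈ S (Ω n))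
    {f : ℂ → Y} (hf : ∀ z, z ∉ B → Tendsto (fun n => F n z) 𝒰 (𝓝 (f z))) {w : ℕ → ℂ} {z : ℂ} (hz : z ∉ B)
    (hw : Tendsto w 𝒰 (𝓝 z)) : Tendsto (fun n => F n (w n)) 𝒰 (𝓝 (f z)) := by
  obtain ⟨δ', hδ', hzδ⟩ := h.exists_gd hz
  obtain ⟨L, hL, hlip⟩ := h.lip δ' |z.re| hδ'
  rw [tendsto_iff_dist_tendsto_zero]
  have h1 : Tendsto (fun n => L * dist z (w n) + dist (F n z) (f z)) 𝒰 (𝓝 (L * 0 + 0)) := by
    refine Tendsto.add (Tendsto.const_mul L ?_) (tendsto_iff_dist_tendsto_zero.mp (hf z hz))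
    have h2 := tendsto_iff_dist_tendsto_zero.mp hw
    simp only [dist_comm z]
    exact h2
  rw [mul_zero, add_zero] at h1
  refine squeeze_zero' (Eventually.of_forall fun _ => dist_nonneg) ?_ h1
  have h2 : ∀ᶠ n in (𝒰 : Filter ℕ), w n ∈ closedBall z (δ' / 2) :=
    hw.eventually (closedBall_mem_nhds z (by positivity))
  filter_upwards [hF, h2, hex (‖z‖ + δ' + 1)] with n hn hn2 hn3
  have hzb : closedBall z δ' ⊆ ball 0 (‖z‖ + δ' + 1) := by
    intro w hw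
    rw [mem_closedBall, dist_eq_norm] at hw
    rw [mem_ball_zero_iff]
    have h4 : w = (w - z) + z := by ring
    calc ‖w‖ = ‖(w - z) + z‖ := by rw [← h4]
      _ ≤ ‖w - z‖ + ‖z‖ := norm_add_le _ _
      _ < ‖z‖ + δ' + 1 := by linarith
  have h3 := hlip (Ω n) (hΩ n).1 (hΩ n).2 (F n) hn z hzδ le_rfl (hzb.trans hn3) (w n) hn2
  rw [← dist_eq_norm] at h3
  have h4 := dist_triangle_left (F n (w n)) (f z) (F n z)
  linarith

/-- two different members of `S` differ at good points near any good point -/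
theorem HDyn.exists_ne (h : HDyn K p B δ W S) {Ω : Set ℂ} (hΩ : IsOpen Ω) (hΩc : Convex ℝ Ω) {f g : ℂ → Y} (hf : f ∈ S Ω) (hg : g ∈ S Ω)
    (hne : ¬ AgO B Ω f g) {z : ℂ} (hzΩ : z ∈ Ω) (hz : z ∈ Gd B (2 * δ)) (hzW : |z.re| ≤ W) {ε : ℝ} (hε : 0 < ε) :
    ∃ w ∈ Gd B (2 * δ), |w.re| < W ∧ ‖w - z‖ < ε ∧ f w ≠ g w := by
  by_contra hcon
  push Not at hcon
  apply hne
  refine h.uniq Ω hΩ hΩc f hf g hg z hzΩ (gd_notMem (by linarith [h.δ_pos]) hz) ?_
  have h1 : ∀ᶠ w in 𝓝[≠] z, ‖w - z‖ < ε := by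
    have h2 : ∀ᶠ w in 𝓝 z, ‖w - z‖ < ε := by
      filter_upwards [ball_mem_nhds z hε] with w hw
      rwa [mem_ball, dist_eq_norm] at hw
    exact h2.filter_mono nhdsWithin_le_nhds
  refine ((h.perfect hz hzW).and_eventually h1).mono ?_
  rintro w ⟨⟨hw1, hw2⟩, hw3⟩
  exact hcon w hw1 hw2 hw3

/-- a vertical translation by a multiple of the period which brings `y` near `0` -/
theorem HDyn.exists_int (h : HDyn K p B δ W S) (y : ℝ) : ∃ l : ℤ, |y - p * l| ≤ p := by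
  refine ⟨⌊y / p⌋, ?_⟩
  have hp := h.p_pos
  have h1 := Int.floor_le (y / p)
  have h2 := Int.lt_floor_add_one (y / p)
  rw [le_div_iff₀ hp] at h1
  rw [div_lt_iff₀ hp] at h2
  rw [abs_of_nonneg (by nlinarith)]
  nlinarith

theorem HDyn.tr_mem (h : HDyn K p B δ W S) {Ω : Set ℂ} (hΩ : IsOpen Ω) (hΩc : Convex ℝ Ω) {f : ℂ → Y} (hf : f ∈ S Ω) (l : ℤ) :
    tr p l f ∈ S (Sh p l Ω) := h.trans Ω hΩ hΩc f hf l

theorem HDyn.tr_univ (h : HDyn K p B δ W S) {f : ℂ → Y} (hf : f ∈ S Set.univ) (l : ℤ) : tr p l f ∈ S Set.univ :=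
  h.trans Set.univ isOpen_univ convex_univ f hf l

theorem HDyn.ag_tr (h : HDyn K p B δ W S) {Ω : Set ℂ} {f g : ℂ → Y} (l : ℤ) : AgO B (Sh p l Ω) (tr p l f) (tr p l g) ↔ AgO B Ω f g := by
  constructor
  · intro h1 z hz hzB
    have h2 : z - p * l * Complex.I + p * l * Complex.I = z := by ring
    have h3 : z - p * l * Complex.I ∈ Sh p l Ω := by
      show z - p * l * Complex.I + p * l * Complex.I ∈ Ω
      rwa [h2]
    have h4 : z - p * l * Complex.I ∉ B := by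
      intro h5
      apply hzB
      have h6 := h.B_inv _ h5 l
      rwa [h2] at h6
    have h5 : f (z - p * l * Complex.I + p * l * Complex.I) = g (z - p * l * Complex.I + p * l * Complex.I) := h1 _ h3 h4
    rwa [h2] at h5
  · intro h1 z hz hzB
    exact h1 (z + p * l * Complex.I) hz fun h2 => hzB ((h.mem_add l).1 h2)

theorem HDyn.res_HP (h : HDyn K p B δ W S) {σ ρ ρ' : ℝ} (hρ : ρ ≤ ρ') {f : ℂ → Y} (hf : f ∈ S (HP σ ρ)) : f ∈ S (HP σ ρ') :=
  h.anti _ _ (isOpen_HP σ ρ) (convex_HP σ ρ) (isOpen_HP σ ρ') (convex_HP σ ρ') (HP_anti hρ) hf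

theorem HDyn.res_univ (h : HDyn K p B δ W S) {Ω : Set ℂ} (hΩ : IsOpen Ω) (hΩc : Convex ℝ Ω) {f : ℂ → Y} (hf : f ∈ S Set.univ) : f ∈ S Ω :=
  h.anti _ _ isOpen_univ convex_univ hΩ hΩc (Set.subset_univ _) hf

end Pool.Agent.H87.LU

end

section

/-!
# LU HFin: copy of `Fin` for `HDyn`
-/

set_option autoImplicit false

open Topology Filter Metric

namespace Pool.Agent.H87.LU

attribute [-instance] ProperSMul.toContinuousSMul

variable {Y : Type} [MetricSpace Y] {K : Set Y} {p : ℝ} {B : Set ℂ} {δ W : ℝ} {S : Set ℂ → Set (ℂ → Y)}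

/-- agreement on a half plane implies agreement -/
theorem HDyn.ag_of_HP (h : HDyn K p B δ W S) {Ω : Set ℂ} (hΩ : IsOpen Ω) (hΩc : Convex ℝ Ω) {f g : ℂ → Y} (hf : f ∈ S Ω) (hg : g ∈ S Ω) {σ ρ : ℝ}
    (hσ : σ = 1 ∨ σ = -1) (hsub : HP σ ρ ⊆ Ω) (hag : AgO B (HP σ ρ) f g) : AgO B Ω f g := by
  have hδ := h.δ_pos
  set z₀ : ℂ := ((W : ℝ) : ℂ) + ctr σ ρ 1 with hz₀
  have hre : z₀.re = W := by rw [hz₀, Complex.add_re, ctr_re, Complex.ofReal_re, add_zero]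
  have him : σ * z₀.im = ρ + 1 := by
    rw [hz₀, Complex.add_im, ctr_im, Complex.ofReal_im, zero_add, ← mul_assoc, sq_one hσ, one_mul]
  have hz₀H : z₀ ∈ HP σ ρ := by
    show ρ < σ * z₀.im
    linarith
  refine h.uniq Ω hΩ hΩc f hf g hg z₀ (hsub hz₀H) (gd_notMem (by linarith) (h.right_mem (by rw [hre]; linarith))) ?_
  have h1 : ∀ᶠ z in 𝓝 z₀, f z = g z := by
    filter_upwards [(isOpen_HP σ ρ).mem_nhds hz₀H, ball_mem_nhds z₀ hδ] with z hz1 hz2
    refine hag z hz1 (gd_notMem (show 0 < 2 * δ by linarith) (h.right_mem ?_))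
    rw [mem_ball, dist_eq_norm] at hz2
    have h2 := (Complex.abs_re_le_norm (z - z₀)).trans_lt hz2
    rw [Complex.sub_re, hre] at h2
    linarith [(abs_lt.1 h2).1]
  exact (h1.filter_mono nhdsWithin_le_nhds).frequently

theorem HDyn.two (h : HDyn K p B δ W S)
    (hno : ¬ ∃ 𝓕 : Set (ℂ → Y), 𝓕.Finite ∧ 𝓕 ⊆ S Set.univ ∧ ∀ f ∈ S Set.univ, ∃ g ∈ 𝓕, AgO B Set.univ f g) (R ε : ℝ) (hε : 0 < ε) :
    ∃ f ∈ S Set.univ, ∃ g ∈ S Set.univ, ¬ AgO B Set.univ f g ∧ ∀ z ∈ Gd B δ, ‖z‖ ≤ R → dist (f z) (g z) < ε := by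
  let r : Setoid (S Set.univ) :=
    { r := fun f g => AgO B Set.univ f.1 g.1
      iseqv := ⟨fun f z _ _ => rfl, fun hfg z hz hz' => (hfg z hz hz').symm, fun h1 h2 z hz hz' => (h1 z hz hz').trans (h2 z hz hz')⟩ }
  have hinf : Infinite (Quotient r) := by
    by_contra hfin
    rw [not_infinite_iff_finite] at hfin
    apply hno
    refine ⟨Set.range fun q : Quotient r => (q.out : ℂ → Y), Set.finite_range _, ?_, ?_⟩
    · rintro _ ⟨q, rfl⟩
      exact q.out.2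
    · intro f hf
      refine ⟨_, ⟨Quotient.mk r ⟨f, hf⟩, rfl⟩, ?_⟩
      have h1 : AgO B Set.univ ((Quotient.mk r ⟨f, hf⟩).out : ℂ → Y) f := Quotient.exact (Quotient.out_eq (Quotient.mk r ⟨f, hf⟩))
      exact fun z hz hz' => (h1 z hz hz').symm
  let e := Infinite.natEmbedding (Quotient r)
  have hΩu : ∀ n : ℕ, IsOpen ((fun _ => Set.univ : ℕ → Set ℂ) n) ∧ Convex ℝ ((fun _ => Set.univ : ℕ → Set ℂ) n) := fun n => ⟨isOpen_univ, convex_univ⟩
  have hexu : ∀ R : ℝ, ∀ᶠ n in ((hyperfilter ℕ : Ultrafilter ℕ) : Filter ℕ), ball 0 R ⊆ (fun _ => Set.univ : ℕ → Set ℂ) n :=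
    fun R => Eventually.of_forall fun n => Set.subset_univ _
  have hF : ∀ᶠ n in ((hyperfilter ℕ : Ultrafilter ℕ) : Filter ℕ), (fun k => ((e k).out : ℂ → Y)) n ∈ S ((fun _ => Set.univ : ℕ → Set ℂ) n) :=
    Eventually.of_forall fun n => (e n).out.2
  obtain ⟨f, hf, hlim⟩ := h.exists_lim (hyperfilter ℕ) (Ω := fun _ => Set.univ) (fun k => ((e k).out : ℂ → Y)) hΩu hexu hF
  have h1 := h.unif (hyperfilter ℕ) (Ω := fun _ => Set.univ) (fun k => ((e k).out : ℂ → Y)) hΩu hexu hF hf hlim h.δ_pos R (ε / 2) (half_pos hε)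
  have h2 : {k : ℕ | ∀ z ∈ Gd B δ, ‖z‖ ≤ R → dist (((e k).out : ℂ → Y) z) (f z) < ε / 2}.Infinite := by
    intro hfin
    exact notMem_hyperfilter_of_finite hfin h1
  obtain ⟨i, hi, j, hj, hij⟩ := h2.nontrivial
  refine ⟨(e i).out, (e i).out.2, (e j).out, (e j).out.2, ?_, ?_⟩
  · intro heq
    apply hij
    apply e.injective
    rw [← Quotient.out_eq (e i), ← Quotient.out_eq (e j)]
    exact Quotient.sound heq
  · intro z hz hzR
    have h3 := hi z hz hzR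
    have h4 := hj z hz hzR
    calc dist (((e i).out : ℂ → Y) z) (((e j).out : ℂ → Y) z) ≤ dist (((e i).out : ℂ → Y) z) (f z) +
          dist (((e j).out : ℂ → Y) z) (f z) := dist_triangle_right _ _ _
      _ < ε / 2 + ε / 2 := add_lt_add h3 h4
      _ = ε := add_halves ε

theorem HDyn.first_window (h : HDyn K p B δ W S) {ε : ℝ} (hε : 0 < ε)
    (hclose : ∀ f ∈ S Set.univ, ∀ g ∈ S Set.univ, (∀ z ∈ Gd B δ, |z.re| ≤ W → dist (f z) (g z) ≤ ε) → AgO B Set.univ f g)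
    (hno : ¬ ∃ 𝓕 : Set (ℂ → Y), 𝓕.Finite ∧ 𝓕 ⊆ S Set.univ ∧ ∀ f ∈ S Set.univ, ∃ g ∈ 𝓕, AgO B Set.univ f g) (n : ℕ) :
    ∃ f ∈ S Set.univ, ∃ g ∈ S Set.univ, ∃ m : ℕ, n ≤ m ∧ (∃ z ∈ Gd B δ, |z.re| ≤ W ∧ (m : ℝ) < |z.im| ∧ |z.im| ≤ m + 1 ∧ ε < dist (f z) (g z)) ∧
      ∀ z ∈ Gd B δ, |z.re| ≤ W → |z.im| ≤ m → dist (f z) (g z) ≤ ε := by
  obtain ⟨f, hf, g, hg, hne, hd⟩ := h.two hno (n + W) ε hε
  classical
  have hex : ∃ m : ℕ, n ≤ m ∧ ¬ ∀ z ∈ Gd B δ, |z.re| ≤ W → |z.im| ≤ m + 1 → dist (f z) (g z) ≤ ε := by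
    by_contra hcon
    push Not at hcon
    apply hne
    apply hclose f hf g hg
    intro z hz hzW
    obtain ⟨k, hk⟩ := exists_nat_ge |z.im|
    refine hcon (max n k) (le_max_left _ _) z hz hzW ?_
    have h1 : (k : ℝ) ≤ ((max n k : ℕ) : ℝ) := by exact_mod_cast le_max_right n k
    linarith
  have hspec := Nat.find_spec hex
  set m := Nat.find hex with hm
  have hlow : ∀ z ∈ Gd B δ, |z.re| ≤ W → |z.im| ≤ m → dist (f z) (g z) ≤ ε := by
    rcases hspec.1.eq_or_lt with heq | hlt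
    · intro z hz hzW hzm
      rw [← heq] at hzm
      exact (hd z hz ((Complex.norm_le_abs_re_add_abs_im z).trans (by linarith))).le
    · have h1 : ¬ (n ≤ m - 1 ∧ ¬ ∀ z ∈ Gd B δ, |z.re| ≤ W → |z.im| ≤ ((m - 1 : ℕ) : ℝ) + 1 → dist (f z) (g z) ≤ ε) :=
        Nat.find_min hex (by omega)
      have h2 : n ≤ m - 1 := by omega
      have h3 : ∀ z ∈ Gd B δ, |z.re| ≤ W → |z.im| ≤ ((m - 1 : ℕ) : ℝ) + 1 → dist (f z) (g z) ≤ ε := by
        by_contra h4
        exact h1 ⟨h2, h4⟩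
      have h4 : ((m - 1 : ℕ) : ℝ) + 1 = m := by
        have h5 : m - 1 + 1 = m := by omega
        exact_mod_cast h5
      rw [h4] at h3
      exact h3
  obtain ⟨h1, h2⟩ := hspec
  push Not at h2
  obtain ⟨z, hz, hzW, hzm, hzd⟩ := h2
  refine ⟨f, hf, g, hg, m, h1, ⟨z, hz, hzW, ?_, hzm, hzd⟩, hlow⟩
  by_contra h3
  push Not at h3
  exact absurd (hlow z hz hzW h3) (not_le.2 hzd)

/-- **The members of `S ℂ` are finitely many, up to their values on `B`.** -/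
theorem HDyn.finite (h : HDyn K p B δ W S) : ∃ 𝓕 : Set (ℂ → Y), 𝓕.Finite ∧ 𝓕 ⊆ S Set.univ ∧ ∀ f ∈ S Set.univ, ∃ g ∈ 𝓕, AgO B Set.univ f g := by
  by_contra hno
  have hδ := h.δ_pos
  have hp := h.p_pos
  obtain ⟨ε, hε, hhalf⟩ := h.half
  have hclose : ∀ f ∈ S Set.univ, ∀ g ∈ S Set.univ, (∀ z ∈ Gd B δ, |z.re| ≤ W → dist (f z) (g z) ≤ ε) → AgO B Set.univ f g := by
    intro f hf g hg hfg
    refine h.ag_of_HP isOpen_univ convex_univ hf hg (σ := 1) (ρ := 0) (Or.inl rfl) (Set.subset_univ _) ?_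
    exact hhalf 1 0 (Or.inl rfl) f (h.res_univ (isOpen_HP _ _) (convex_HP _ _) hf) g (h.res_univ (isOpen_HP _ _) (convex_HP _ _) hg)
      fun z _ hzG hzW => hfg z hzG hzW
  choose f hf g hg m hnm hz hlow using fun n => h.first_window hε hclose hno n
  choose z hzG hzW hzm hzm' hzd using hz
  choose l hl using fun n => h.exists_int (z n).im
  set 𝒰 : Ultrafilter ℕ := Filter.hyperfilter ℕ with h𝒰
  have hle : (𝒰 : Filter ℕ) ≤ atTop := by
    rw [h𝒰, ← Nat.cofinite_eq_atTop]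
    exact Filter.hyperfilter_le_cofinite
  have hmlarge : ∀ c : ℝ, ∀ᶠ n : ℕ in (𝒰 : Filter ℕ), c ≤ (m n : ℝ) := by
    intro c
    have h1 : ∀ᶠ n : ℕ in atTop, c ≤ (n : ℝ) := tendsto_natCast_atTop_atTop.eventually_ge_atTop c
    filter_upwards [hle h1] with n hn
    have h2 : (n : ℝ) ≤ m n := by exact_mod_cast hnm n
    linarith
  have hΩu : ∀ n : ℕ, IsOpen ((fun _ => Set.univ : ℕ → Set ℂ) n) ∧ Convex ℝ ((fun _ => Set.univ : ℕ → Set ℂ) n) := fun n => ⟨isOpen_univ, convex_univ⟩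
  have hexu : ∀ R : ℝ, ∀ᶠ n in (𝒰 : Filter ℕ), ball 0 R ⊆ (fun _ => Set.univ : ℕ → Set ℂ) n :=
    fun R => Eventually.of_forall fun n => Set.subset_univ _
  have hFS : ∀ᶠ n in (𝒰 : Filter ℕ), tr p (l n) (f n) ∈ S ((fun _ => Set.univ : ℕ → Set ℂ) n) := Eventually.of_forall fun n => h.tr_univ (hf n) (l n)
  have hGS : ∀ᶠ n in (𝒰 : Filter ℕ), tr p (l n) (g n) ∈ S ((fun _ => Set.univ : ℕ → Set ℂ) n) := Eventually.of_forall fun n => h.tr_univ (hg n) (l n)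
  obtain ⟨f', hf'S, hf'⟩ := h.exists_lim 𝒰 (Ω := fun _ => Set.univ) (fun n => tr p (l n) (f n)) hΩu hexu hFS
  obtain ⟨g', hg'S, hg'⟩ := h.exists_lim 𝒰 (Ω := fun _ => Set.univ) (fun n => tr p (l n) (g n)) hΩu hexu hGS
  -- the limit of the translated points
  set w : ℕ → ℂ := fun n => z n - p * l n * Complex.I with hw
  have hwz : ∀ n, w n + p * l n * Complex.I = z n := fun n => by rw [hw]; ring
  have hwG : ∀ n, w n ∈ Gd B δ := fun n => (h.gd_add δ (l n)).1 (by rw [hwz]; exact hzG n)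
  have hwre : ∀ n, (w n).re = (z n).re := fun n => by
    have h1 := add_re p (l n) (w n)
    rw [hwz] at h1
    exact h1.symm
  have hwim : ∀ n, (w n).im = (z n).im - p * l n := fun n => by
    have h1 := add_im p (l n) (w n)
    rw [hwz] at h1
    linarith
  have hwb : ∀ n, ‖w n‖ ≤ W + p := fun n => by
    refine (Complex.norm_le_abs_re_add_abs_im _).trans ?_
    rw [hwre, hwim]
    linarith [hzW n, hl n]
  obtain ⟨w₀, -, hw₀⟩ : ∃ w₀ ∈ closedBall (0 : ℂ) (W + p), Tendsto w 𝒰 (𝓝 w₀) := by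
    have h1 : ((𝒰.map w : Ultrafilter ℂ) : Filter ℂ) ≤ 𝓟 (closedBall 0 (W + p)) := by
      rw [Filter.le_principal_iff]
      show ∀ᶠ n in (𝒰 : Filter ℕ), w n ∈ closedBall (0 : ℂ) (W + p)
      exact Eventually.of_forall fun n => by rw [mem_closedBall_zero_iff]; exact hwb n
    exact (isCompact_closedBall (0 : ℂ) (W + p)).ultrafilter_le_nhds _ h1
  have hw₀G : w₀ ∈ Gd B δ := (isClosed_gd δ).mem_of_tendsto hw₀ (Eventually.of_forall hwG)
  have hw₀B : w₀ ∉ B := gd_notMem hδ hw₀G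
  have ht1 := h.tendsto_along 𝒰 (Ω := fun _ => Set.univ) (fun n => tr p (l n) (f n)) hΩu hexu hFS hf' hw₀B hw₀
  have ht2 := h.tendsto_along 𝒰 (Ω := fun _ => Set.univ) (fun n => tr p (l n) (g n)) hΩu hexu hGS hg' hw₀B hw₀
  have hdist : ε ≤ dist (f' w₀) (g' w₀) := by
    refine ge_of_tendsto (ht1.dist ht2) (Eventually.of_forall fun n => ?_)
    show ε ≤ dist (f n (w n + p * l n * Complex.I)) (g n (w n + p * l n * Complex.I))
    rw [hwz]
    exact (hzd n).le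
  -- the sign
  have hsign : ∃ σ : ℝ, (σ = 1 ∨ σ = -1) ∧ ∀ᶠ n in (𝒰 : Filter ℕ), (z n).im = σ * |(z n).im| := by
    have h1 : ∀ᶠ n in (𝒰 : Filter ℕ), 0 ≤ (z n).im ∨ (z n).im ≤ 0 := Eventually.of_forall fun n => le_total _ _
    rw [Ultrafilter.eventually_or] at h1
    rcases h1 with h1 | h1
    · refine ⟨1, Or.inl rfl, ?_⟩
      filter_upwards [h1] with n hn
      rw [abs_of_nonneg hn, one_mul]
    · refine ⟨-1, Or.inr rfl, ?_⟩
      filter_upwards [h1] with n hn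
      rw [abs_of_nonpos hn]
      ring
  obtain ⟨σ, hσ, hσz⟩ := hsign
  have hσ' : -σ = 1 ∨ -σ = -1 := by rcases hσ with rfl | rfl <;> norm_num
  have hσσ := sq_one hσ
  have hclose' : ∀ ζ ∈ HP (-σ) (1 + p), ζ ∈ Gd B δ → |ζ.re| ≤ W → dist (f' ζ) (g' ζ) ≤ ε := by
    intro ζ hζ hζG hζW
    have hζB : ζ ∉ B := gd_notMem hδ hζG
    refine le_of_tendsto ((hf' ζ hζB).dist (hg' ζ hζB)) ?_
    filter_upwards [hσz, hmlarge (|ζ.im| + p)] with n hn hn2
    refine hlow n (ζ + p * l n * Complex.I) ((h.gd_add δ (l n)).2 hζG) (by rwa [add_re]) ?_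
    rw [add_im]
    have h1 : 1 + p < -σ * ζ.im := hζ
    have h2 := abs_le.1 (hl n)
    have h3 : |ζ.im| = -σ * ζ.im ∨ |ζ.im| = σ * ζ.im := by
      rcases hσ with rfl | rfl
      · rcases abs_cases ζ.im with h4 | h4
        · right; linarith [h4.1]
        · left; linarith [h4.1]
      · rcases abs_cases ζ.im with h4 | h4
        · left; linarith [h4.1]
        · right; linarith [h4.1]
    have h4 : 0 ≤ |ζ.im| := abs_nonneg _
    have h5 : |ζ.im| = -σ * ζ.im := by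
      rcases h3 with h6 | h6
      · exact h6
      · exfalso
        have : σ * ζ.im < 0 := by linarith
        linarith
    have h6 := hzm n
    have h7 := hzm' n
    rcases hσ with rfl | rfl
    · rw [abs_le]
      constructor <;> linarith [h2.1, h2.2]
    · rw [abs_le]
      constructor <;> linarith [h2.1, h2.2]
  have hag : AgO B Set.univ f' g' := by
    refine h.ag_of_HP isOpen_univ convex_univ hf'S hg'S (σ := -σ) (ρ := 1 + p) hσ' (Set.subset_univ _) ?_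
    exact hhalf (-σ) (1 + p) hσ' f' (h.res_univ (isOpen_HP _ _) (convex_HP _ _) hf'S) g' (h.res_univ (isOpen_HP _ _) (convex_HP _ _) hg'S) hclose'
  rw [hag w₀ (Set.mem_univ _) hw₀B, dist_self] at hdist
  linarith

end Pool.Agent.H87.LU

end

section

/-!
# LU HArm: copy of `Arm` for `HDyn`
-/

set_option autoImplicit false

open Topology Filter Metric

namespace Pool.Agent.H87.LU

attribute [-instance] ProperSMul.toContinuousSMul

variable {Y : Type} [MetricSpace Y] {K : Set Y} {p : ℝ} {B : Set ℂ} {δ W : ℝ} {S : Set ℂ → Set (ℂ → Y)}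

theorem HDyn.sepS (h : HDyn K p B δ W S) : ∃ ε₁ R₁ : ℝ, 0 < ε₁ ∧ 0 < R₁ ∧ ∀ f ∈ S Set.univ, ∀ g ∈ S Set.univ, ∀ y : ℝ,
    Cl B δ W f g y R₁ ε₁ → AgO B Set.univ f g := by
  obtain ⟨𝓕, hfin, hsub, h𝓕⟩ := h.finite
  have hδ := h.δ_pos
  have hW := h.W_pos
  -- for a pair of members of `𝓕`
  have hpair : ∀ A A' : ℂ → Y, ∃ ε : ℝ, 0 < ε ∧ (A ∈ 𝓕 → A' ∈ 𝓕 → Cl B δ W A A' 0 (W + p + 2) ε → AgO B Set.univ A A') := by
    intro A A'
    by_cases hA : A ∈ 𝓕 ∧ A' ∈ 𝓕 ∧ ¬ AgO B Set.univ A A'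
    · obtain ⟨hA1, hA2, hA3⟩ := hA
      have hWc : |((W : ℝ) : ℂ).re| ≤ W := by
        rw [Complex.ofReal_re, abs_of_pos hW]
      obtain ⟨w, hw, hwW, hwn, hne⟩ := h.exists_ne isOpen_univ convex_univ (hsub hA1) (hsub hA2) hA3 (z := ((W : ℝ) : ℂ)) (Set.mem_univ _)
        (h.right_mem (by rw [Complex.ofReal_re]; linarith)) hWc one_pos
      have hd : 0 < dist (A w) (A' w) := dist_pos.2 hne
      refine ⟨dist (A w) (A' w) / 2, half_pos hd, fun _ _ hcl => ?_⟩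
      exfalso
      have h1 := hcl w (by
        rw [Complex.ofReal_zero, zero_mul, mem_ball_zero_iff]
        have h2 : w = (w - (W : ℂ)) + (W : ℂ) := by ring
        calc ‖w‖ = ‖(w - (W : ℂ)) + (W : ℂ)‖ := by rw [← h2]
          _ ≤ ‖w - (W : ℂ)‖ + ‖((W : ℝ) : ℂ)‖ := norm_add_le _ _
          _ < 1 + W := by
            rw [Complex.norm_real, Real.norm_of_nonneg hW.le]
            linarith
          _ ≤ W + p + 2 := by linarith [h.p_pos]) (gd_mono (by linarith) hw) hwW.le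
      linarith
    · refine ⟨1, one_pos, fun h1 h2 _ => ?_⟩
      by_contra h3
      exact hA ⟨h1, h2, h3⟩
  choose ε hε hpair using hpair
  obtain ⟨ε₁, hε₁, hε₁'⟩ : ∃ ε₁ : ℝ, 0 < ε₁ ∧ ∀ A ∈ 𝓕, ∀ A' ∈ 𝓕, ε₁ ≤ ε A A' := by
    have h1 : ∀ᶠ e : ℝ in 𝓝[>] (0 : ℝ), ∀ q ∈ 𝓕 ×ˢ 𝓕, e < ε q.1 q.2 :=
      (Filter.eventually_all_finite (hfin.prod hfin)).2 fun q _ => nhdsWithin_le_nhds (gt_mem_nhds (hε q.1 q.2))
    obtain ⟨e, he, he0⟩ := (h1.and self_mem_nhdsWithin).exists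
    exact ⟨e, he0, fun A hA A' hA' => (he (A, A') ⟨hA, hA'⟩).le⟩
  refine ⟨ε₁, W + p + 2 + p, hε₁, by linarith [h.p_pos], fun f hf g hg y hcl => ?_⟩
  obtain ⟨l, hl⟩ := h.exists_int y
  obtain ⟨A, hA, hfA⟩ := h𝓕 _ (h.tr_univ hf l)
  obtain ⟨A', hA', hgA'⟩ := h𝓕 _ (h.tr_univ hg l)
  have h1 : AgO B Set.univ A A' := by
    refine hpair A A' hA hA' fun z hz hzG hzW => ?_
    rw [Complex.ofReal_zero, zero_mul, mem_ball_zero_iff] at hz
    have hzB : z ∉ B := gd_notMem hδ hzG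
    rw [← hfA z (Set.mem_univ _) hzB, ← hgA' z (Set.mem_univ _) hzB]
    refine (hcl (z + p * l * Complex.I) (ball_tr (R' := W + p + 2 + p) (by linarith) le_rfl) ((h.gd_add δ l).2 hzG) (by rwa [add_re])).trans (hε₁' A hA A' hA')
  have h2 : AgO B Set.univ (tr p l f) (tr p l g) := (hfA.trans h1).trans hgA'.symm
  have h3 := (h.ag_tr (Ω := Set.univ) l).1 h2
  exact h3

theorem HDyn.near_S (h : HDyn K p B δ W S) {σ ρ : ℝ} (hσ : σ = 1 ∨ σ = -1) {f : ℂ → Y} (hf : f ∈ S (HP σ ρ)) (R : ℝ) {ε : ℝ} (hε : 0 < ε) :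
    ∃ t : ℝ, ∀ y : ℝ, t ≤ σ * y → ∃ G ∈ S Set.univ, Cl B δ W f G y R ε := by
  by_contra hcon
  push Not at hcon
  choose y hy hbad using fun n : ℕ => hcon n
  choose l hl using fun n => h.exists_int (y n)
  have hδ := h.δ_pos
  set 𝒰 : Ultrafilter ℕ := Filter.hyperfilter ℕ with h𝒰
  have hle : (𝒰 : Filter ℕ) ≤ atTop := by
    rw [h𝒰, ← Nat.cofinite_eq_atTop]
    exact Filter.hyperfilter_le_cofinite
  have hΩo : ∀ n, IsOpen (Sh p (l n) (HP σ ρ)) ∧ Convex ℝ (Sh p (l n) (HP σ ρ)) := fun n => ⟨isOpen_sh (isOpen_HP σ ρ), convex_sh (convex_HP σ ρ)⟩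
  have hex : ∀ R : ℝ, ∀ᶠ n in (𝒰 : Filter ℕ), ball 0 R ⊆ Sh p (l n) (HP σ ρ) := by
    intro R
    have h1 : ∀ᶠ n : ℕ in atTop, ρ + (R + p) ≤ (n : ℝ) := tendsto_natCast_atTop_atTop.eventually_ge_atTop _
    filter_upwards [hle h1] with n hn
    have h2 : ball ((y n : ℂ) * Complex.I) (R + p) ⊆ HP σ ρ := ball_sub_HP hσ (hn.trans (hy n))
    have h3 := ball_sub_sh (l := l n) h2 (hl n)
    rwa [add_sub_cancel_right] at h3
  have hFS : ∀ᶠ n in (𝒰 : Filter ℕ), tr p (l n) f ∈ S (Sh p (l n) (HP σ ρ)) :=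
    Eventually.of_forall fun n => h.tr_mem (isOpen_HP σ ρ) (convex_HP σ ρ) hf (l n)
  obtain ⟨f', hf'S, hf'⟩ := h.exists_lim 𝒰 (Ω := fun n => Sh p (l n) (HP σ ρ)) (fun n => tr p (l n) f) hΩo hex hFS
  have hu := h.unif 𝒰 (Ω := fun n => Sh p (l n) (HP σ ρ)) (fun n => tr p (l n) f) hΩo hex hFS hf'S hf' hδ (R + p) ε hε
  obtain ⟨n, hn⟩ := hu.exists
  refine hbad n (tr p (-l n) f') (h.tr_univ hf'S (-l n)) ?_
  intro z hz hzG hzW
  have h1 : z + p * ((-l n : ℤ) : ℂ) * Complex.I ∈ Gd B δ := (h.gd_add δ (-l n)).mpr hzG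
  have h2 : ‖z + p * ((-l n : ℤ) : ℂ) * Complex.I‖ ≤ R + p := by
    rw [mem_ball, dist_eq_norm] at hz
    have h3 : z + p * ((-l n : ℤ) : ℂ) * Complex.I = (z - (y n : ℂ) * Complex.I) + ((y n - p * l n : ℝ) : ℂ) * Complex.I := by
      push_cast
      ring
    rw [h3]
    refine (norm_add_le _ _).trans ?_
    rw [norm_mul, Complex.norm_I, mul_one, Complex.norm_real, Real.norm_eq_abs]
    linarith [hl n]
  have h4 : z + p * ((-l n : ℤ) : ℂ) * Complex.I + p * l n * Complex.I = z := by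
    push_cast
    ring
  have h5 := (hn _ h1 h2).le
  simp only [tr] at h5 ⊢
  rwa [h4] at h5

/-- **Every member of `S` over a half plane is the restriction of a member of `S ℂ`.** -/
theorem HDyn.arm (h : HDyn K p B δ W S) {σ ρ : ℝ} (hσ : σ = 1 ∨ σ = -1) {f : ℂ → Y} (hf : f ∈ S (HP σ ρ)) :
    ∃ G ∈ S Set.univ, AgO B (HP σ ρ) f G := by
  obtain ⟨ε₁, R₁, hε₁, hR₁, hsep⟩ := h.sepS
  obtain ⟨ε₂, hε₂, hhalf⟩ := h.half
  have hW := h.W_pos
  set ε : ℝ := min (ε₁ / 2) ε₂ with hε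
  have hε0 : 0 < ε := lt_min (by positivity) hε₂
  have hεε₁ : ε ≤ ε₁ / 2 := min_le_left _ _
  have hεε₂ : ε ≤ ε₂ := min_le_right _ _
  obtain ⟨t, ht⟩ := h.near_S hσ hf (R₁ + W + 2) hε0
  have : Nonempty (ℂ → Y) := ⟨f⟩
  choose! e heS he using ht
  have hσσ := sq_one hσ
  have h3 : ∀ a b : ℝ, t ≤ σ * a → t ≤ σ * b → AgO B Set.univ (e a) (e b) := by
    intro a b ha hb
    refine chain_real (r := fun a b => AgO B Set.univ (e a) (e b)) (t := t) (σ := σ) (fun a b c => AgO.trans) ?_ ha hb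
    intro a b ha hb hab
    refine hsep _ (heS a ha) _ (heS b hb) a ?_
    intro z hz hzG hzW
    rw [mem_ball, dist_eq_norm] at hz
    have h4 := he a ha z (by rw [mem_ball, dist_eq_norm]; linarith) hzG hzW
    have h5 : ‖z - (b : ℂ) * Complex.I‖ < R₁ + W + 2 := by
      have h6 : z - (b : ℂ) * Complex.I = (z - (a : ℂ) * Complex.I) + ((a - b : ℝ) : ℂ) * Complex.I := by
        push_cast
        ring
      rw [h6]
      refine (norm_add_le _ _).trans_lt ?_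
      rw [norm_mul, Complex.norm_I, mul_one, Complex.norm_real, Real.norm_eq_abs]
      linarith
    have h7 := he b hb z (by rw [mem_ball, dist_eq_norm]; exact h5) hzG hzW
    have h8 := dist_triangle_left (e a z) (e b z) (f z)
    linarith
  set ρ₂ : ℝ := max ρ t with hρ₂
  set y₀ : ℝ := σ * ρ₂ with hy₀
  have hy₀' : t ≤ σ * y₀ := by
    rw [hy₀, ← mul_assoc, hσσ, one_mul]
    exact le_max_right _ _
  have hfS : f ∈ S (HP σ ρ₂) := h.res_HP (le_max_left _ _) hf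
  have hGS : e y₀ ∈ S Set.univ := heS y₀ hy₀'
  have h4 : AgO B (HP σ ρ₂) f (e y₀) := by
    refine hhalf σ ρ₂ hσ f hfS _ (h.res_univ (isOpen_HP _ _) (convex_HP _ _) hGS) fun z hz hzG hzW => ?_
    have hz' : ρ₂ < σ * z.im := hz
    have hzt : t ≤ σ * z.im := (le_max_right _ _).trans hz'.le
    have hzb : z ∈ ball ((z.im : ℂ) * Complex.I) (R₁ + W + 2) := by
      rw [mem_ball, dist_eq_norm]
      have h6 : z - (z.im : ℂ) * Complex.I = ((z.re : ℝ) : ℂ) := by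
        apply Complex.ext <;> simp
      rw [h6, Complex.norm_real, Real.norm_eq_abs]
      linarith
    rw [← h3 z.im y₀ hzt hy₀' z (Set.mem_univ z) (gd_notMem h.δ_pos hzG)]
    exact (he z.im hzt z hzb hzG hzW).trans hεε₂
  exact ⟨e y₀, hGS, h.ag_of_HP (isOpen_HP _ _) (convex_HP _ _) hf (h.res_univ (isOpen_HP _ _) (convex_HP _ _) hGS) hσ (HP_anti (le_max_left _ _)) h4⟩

/-- **The members of `S ℂ` are periodic.** -/
theorem HDyn.period (h : HDyn K p B δ W S) {f : ℂ → Y} (hf : f ∈ S Set.univ) : ∃ q : ℕ, 1 ≤ q ∧ ∀ z, z ∉ B → f (z + p * q * Complex.I) = f z := by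
  obtain ⟨𝓕, hfin, hsub, h𝓕⟩ := h.finite
  choose A hA hfA using fun n : ℕ => h𝓕 _ (h.tr_univ hf (n : ℤ))
  obtain ⟨n, m, hnm, hnm'⟩ : ∃ n m : ℕ, n < m ∧ A n = A m := by
    have : Finite 𝓕 := hfin
    obtain ⟨n, m, hne, heq⟩ := Finite.exists_ne_map_eq_of_infinite (fun n : ℕ => (⟨A n, hA n⟩ : 𝓕))
    have heq' : A n = A m := congrArg Subtype.val heq
    rcases lt_or_gt_of_ne hne with h1 | h1
    · exact ⟨n, m, h1, heq'⟩
    · exact ⟨m, n, h1, heq'.symm⟩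
  refine ⟨m - n, by omega, fun z hz => ?_⟩
  have h1 : AgO B Set.univ (tr p (n : ℤ) f) (tr p (m : ℤ) f) := by
    have h2 := hfA n
    have h3 := hfA m
    rw [← hnm'] at h3
    exact h2.trans h3.symm
  have h4 : z + p * ((-(n : ℤ) : ℤ) : ℂ) * Complex.I ∉ B := fun h5 => hz ((h.mem_add (-(n : ℤ))).1 h5)
  have h5 := h1 _ (Set.mem_univ _) h4
  unfold tr at h5
  have h6 : z + p * ((-(n : ℤ) : ℤ) : ℂ) * Complex.I + p * ((n : ℤ) : ℂ) * Complex.I = z := by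
    push_cast
    ring
  have h7 : z + p * ((-(n : ℤ) : ℤ) : ℂ) * Complex.I + p * ((m : ℤ) : ℂ) * Complex.I = z + p * ((m - n : ℕ) : ℂ) * Complex.I := by
    rw [Nat.cast_sub hnm.le]
    push_cast
    ring
  rw [h6, h7] at h5
  exact h5.symm

end Pool.Agent.H87.LU

end

section

/-!
# LR Klein: the symmetries of the family and the neighbourhoods of the sections

* `strip_pos`, `strip_le_klein`: periodic functions on the good part of the strip.
* `near_N`, `near_I`: a member near a section is moved to a member near `0`.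
-/

set_option autoImplicit false

open Topology Filter Metric

noncomputable section

namespace Pool.Agent.H62.LR

attribute [-instance] ProperSMul.toContinuousSMul

open Pool.Agent.H62.EF (MN pr)
open Pool.Agent.H87.LU (Gd HP isClosed_gd gd_notMem)

variable {p : ℝ} {B : Set ℂ} {δ W : ℝ} {𝓛 : Set (ℂ → ℂ)} {C A : Set ℂ}

/-- a positive periodic function is bounded below on the good part of the strip -/
theorem strip_pos (h : BaseD p B δ W 𝓛 C A) {G : ℂ → ℝ} (hper : ∀ z, G (z + p * Complex.I) = G z)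
    (hc : ∀ z ∈ Gd B δ, |z.re| ≤ W → ContinuousAt G z) (hpos : ∀ z ∈ Gd B δ, |z.re| ≤ W → 0 < G z) :
    ∃ d : ℝ, 0 < d ∧ ∀ z ∈ Gd B δ, |z.re| ≤ W → d ≤ G z := by
  have hp := h.p_pos
  have hδ := h.δ_pos
  set K : Set ℂ := {z | z ∈ Gd B δ ∧ |z.re| ≤ W ∧ 0 ≤ z.im ∧ z.im ≤ p} with hK
  have hKc : IsCompact K := by
    have h1 : IsClosed K := by
      have e : K = Gd B δ ∩ ({z : ℂ | |z.re| ≤ W} ∩ ({z : ℂ | 0 ≤ z.im} ∩ {z : ℂ | z.im ≤ p})) := by
        ext z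
        exact Iff.rfl
      rw [e]
      exact (isClosed_gd δ).inter ((isClosed_le (continuous_abs.comp Complex.continuous_re) continuous_const).inter
        ((isClosed_le continuous_const Complex.continuous_im).inter (isClosed_le Complex.continuous_im continuous_const)))
    refine (isCompact_closedBall (0 : ℂ) (W + p)).of_isClosed_subset h1 fun z hz => ?_
    rw [mem_closedBall_zero_iff]
    refine (Complex.norm_le_abs_re_add_abs_im z).trans ?_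
    have := abs_of_nonneg hz.2.2.1
    linarith [hz.2.1, hz.2.2.2]
  have hred : ∀ z ∈ Gd B δ, |z.re| ≤ W → ∃ w ∈ K, G w = G z := by
    intro z hz hzW
    set l : ℤ := ⌊z.im / p⌋ with hl
    have h1 := Int.floor_le (z.im / p)
    have h2 := Int.lt_floor_add_one (z.im / p)
    rw [le_div_iff₀ hp] at h1
    rw [div_lt_iff₀ hp] at h2
    refine ⟨z + ((-l : ℤ) : ℂ) * (p * Complex.I), ⟨?_, ?_, ?_, ?_⟩, ?_⟩
    · intro b hb
      have h3 := hz (b + p * l * Complex.I) (h.B_inv b hb l)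
      have h4 : z - (b + p * l * Complex.I) = z + ((-l : ℤ) : ℂ) * (p * Complex.I) - b := by
        push_cast
        ring
      rwa [h4] at h3
    · have h3 : (z + ((-l : ℤ) : ℂ) * (p * Complex.I)).re = z.re := by simp
      rw [h3]
      exact hzW
    · have h3 : (z + ((-l : ℤ) : ℂ) * (p * Complex.I)).im = z.im - l * p := by
        simp
        ring
      rw [h3]
      linarith
    · have h3 : (z + ((-l : ℤ) : ℂ) * (p * Complex.I)).im = z.im - l * p := by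
        simp
        ring
      rw [h3]
      nlinarith
    · have hP : Function.Periodic G (p * Complex.I) := hper
      exact hP.int_mul (-l) z
  rcases K.eq_empty_or_nonempty with h1 | h1
  · refine ⟨1, one_pos, fun z hz hzW => ?_⟩
    obtain ⟨w, hw, -⟩ := hred z hz hzW
    rw [h1] at hw
    exact absurd hw (Set.notMem_empty w)
  · obtain ⟨w₀, hw₀, hmin⟩ := hKc.exists_isMinOn h1 fun z hz => (hc z hz.1 hz.2.1).continuousWithinAt
    refine ⟨G w₀, hpos w₀ hw₀.1 hw₀.2.1, fun z hz hzW => ?_⟩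
    obtain ⟨w, hw, hwz⟩ := hred z hz hzW
    rw [← hwz]
    exact hmin hw

theorem strip_le_klein (h : BaseD p B δ W 𝓛 C A) {F : ℂ → ℂ} (hper : ∀ z, F (z + p * Complex.I) = F z)
    (hc : ∀ z ∈ Gd B δ, |z.re| ≤ W → ContinuousAt F z) : ∃ K : ℝ, 0 < K ∧ ∀ z ∈ Gd B δ, |z.re| ≤ W → ‖F z‖ ≤ K := by
  obtain ⟨d, hd, hd'⟩ := strip_pos h (G := fun z => 1 / (1 + ‖F z‖)) (fun z => by simp only [hper z]) (fun z hz hzW => by
    have h1 := (hc z hz hzW).norm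
    exact continuousAt_const.div (continuousAt_const.add h1) (by positivity)) (fun z _ _ => by positivity)
  refine ⟨1 / d, by positivity, fun z hz hzW => ?_⟩
  have h1 := hd' z hz hzW
  rw [le_div_iff₀ (by positivity)] at h1
  rw [le_div_iff₀ hd]
  nlinarith [norm_nonneg (F z)]

theorem BaseD.changeA (h : BaseD p B δ W 𝓛 C A) {A' : Set ℂ} (hf : A'.Finite) (h0 : (0 : ℂ) ∈ A') (h1 : (1 : ℂ) ∈ A') : BaseD p B δ W 𝓛 C A' :=
  { h with A_fin := hf, A_zero := h0, A_one := h1 }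

/-! ## case (N) -/

theorem tm_N_inf (h : BaseD p B δ W 𝓛 C A) {L : ℂ → ℂ} (hL : L ∈ 𝓛) {Ω : Set ℂ} {f : ℂ → ℂ} (hf : f ∈ Tm B 𝓛 ∅ A Ω) :
    (fun z => L z / f z) ∈ Tm B 𝓛 ∅ A Ω := by
  refine ⟨fun z hz => (h.L_mer L hL z).div (hf.1 z hz), fun z hz hzB => ?_, fun b _ hb => absurd hb (Set.notMem_empty b)⟩
  obtain ⟨h1, h2, h3, h4⟩ := hf.2.1 z hz hzB
  obtain ⟨h5, h6, h7⟩ := h.L_an L hL z hzB
  have h8 := h4 L hL
  refine ⟨h5.div h1 h2, div_ne_zero h6 h2, ?_, fun L' hL' => ?_⟩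
  · rw [Ne, div_eq_one_iff_eq h2]
    exact Ne.symm h8
  · rw [h.sub hL' hL, Ne, div_eq_iff h2]
    intro h9
    exact h3 (mul_left_cancel₀ h6 (by rw [mul_one]; exact h9.symm))

theorem tm_N_one (h : BaseD p B δ W 𝓛 C A) {L : ℂ → ℂ} (hL : L ∈ 𝓛) {Ω : Set ℂ} {f : ℂ → ℂ} (hf : f ∈ Tm B 𝓛 ∅ A Ω) :
    (fun z => L z * (f z - 1) / (f z - L z)) ∈ Tm B 𝓛 ∅ A Ω := by
  refine ⟨fun z hz => ((h.L_mer L hL z).mul ((hf.1 z hz).sub (MeromorphicAt.const 1 z))).div ((hf.1 z hz).sub (h.L_mer L hL z)),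
    fun z hz hzB => ?_, fun b _ hb => absurd hb (Set.notMem_empty b)⟩
  obtain ⟨h1, h2, h3, h4⟩ := hf.2.1 z hz hzB
  obtain ⟨h5, h6, h7⟩ := h.L_an L hL z hzB
  have h8 : f z - L z ≠ 0 := sub_ne_zero.2 (h4 L hL)
  have h9 : f z - 1 ≠ 0 := sub_ne_zero.2 h3
  refine ⟨(h5.mul (h1.sub analyticAt_const)).div (h1.sub h5) h8, div_ne_zero (mul_ne_zero h6 h9) h8, ?_, fun L' hL' => ?_⟩
  · rw [Ne, div_eq_one_iff_eq h8]
    intro h10
    have h11 : (L z - 1) * f z = 0 := by linear_combination h10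
    rcases mul_eq_zero.1 h11 with h12 | h12
    · exact h7 (sub_eq_zero.1 h12)
    · exact h2 h12
  · rw [h.sub hL' hL, Ne, div_eq_iff h8]
    intro h10
    have h11 := mul_left_cancel₀ h6 h10
    exact h7 (by linear_combination h11)

theorem tm_N_L (h : BaseD p B δ W 𝓛 C A) {L : ℂ → ℂ} (hL : L ∈ 𝓛) {Ω : Set ℂ} {f : ℂ → ℂ} (hf : f ∈ Tm B 𝓛 ∅ A Ω) :
    (fun z => (f z - L z) / (f z - 1)) ∈ Tm B 𝓛 ∅ A Ω := by
  refine ⟨fun z hz => ((hf.1 z hz).sub (h.L_mer L hL z)).div ((hf.1 z hz).sub (MeromorphicAt.const 1 z)),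
    fun z hz hzB => ?_, fun b _ hb => absurd hb (Set.notMem_empty b)⟩
  obtain ⟨h1, h2, h3, h4⟩ := hf.2.1 z hz hzB
  obtain ⟨h5, h6, h7⟩ := h.L_an L hL z hzB
  have h8 : f z - L z ≠ 0 := sub_ne_zero.2 (h4 L hL)
  have h9 : f z - 1 ≠ 0 := sub_ne_zero.2 h3
  refine ⟨(h1.sub h5).div (h1.sub analyticAt_const) h9, div_ne_zero h8 h9, ?_, fun L' hL' => ?_⟩
  · rw [Ne, div_eq_one_iff_eq h9]
    intro h10
    exact h7 (by linear_combination -h10)
  · rw [h.sub hL' hL, Ne, div_eq_iff h9]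
    intro h10
    have h11 : (1 - L z) * f z = 0 := by linear_combination h10
    rcases mul_eq_zero.1 h11 with h12 | h12
    · exact h7 (sub_eq_zero.1 h12).symm
    · exact h2 h12

/-- a member near a section is moved to a member near `0` -/
theorem near_N (h : BaseD p B δ W 𝓛 C A) {L : ℂ → ℂ} (hL : L ∈ 𝓛) {s : ℂ → MN 1} (hs : s ∈ Sec 𝓛) {ε : ℝ} (hε : 0 < ε) :
    ∃ d : ℝ, 0 < d ∧ ∀ (Ω : Set ℂ), ∀ f ∈ Tm B 𝓛 ∅ A Ω, ∃ g ∈ Tm B 𝓛 ∅ A Ω,
      ∀ z ∈ Ω, z ∈ Gd B δ → |z.re| ≤ W → dist (kp (f z)) (s z) ≤ d → ‖g z‖ ≤ ε := by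
  have hδ := h.δ_pos
  obtain ⟨K, hK, hKb⟩ := strip_le_klein h (F := L) (h.L_per L hL) fun z hz _ => (h.L_an L hL z (gd_notMem hδ hz)).1.continuousAt
  obtain ⟨m, hm, hmb⟩ := strip_pos h (G := fun z => ‖1 - L z‖) (fun z => by simp only [h.L_per L hL z]) (fun z hz _ =>
      (continuousAt_const.sub (h.L_an L hL z (gd_notMem hδ hz)).1.continuousAt).norm)
    fun z hz _ => norm_pos_iff.2 (sub_ne_zero.2 (Ne.symm (h.L_an L hL z (gd_notMem hδ hz)).2.2))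
  rw [mem_sec] at hs
  rcases hs with rfl | rfl | rfl | ⟨L', hL', rfl⟩
  · obtain ⟨d, hd, hd'⟩ := Cho.large_of_dist (ε := ε / K) (by positivity)
    refine ⟨d, hd, fun Ω f hf => ⟨_, tm_N_inf h hL hf, fun z hz hzG hzW hdist => ?_⟩⟩
    have h1 := hd' _ hdist
    have h2 := hKb z hzG hzW
    have h3 : 0 < ‖f z‖ := norm_pos_iff.2 (hf.2.1 z hz (gd_notMem hδ hzG)).2.1
    rw [norm_div, div_le_iff₀ h3]
    rw [div_mul_eq_mul_div, le_div_iff₀ hK, one_mul] at h1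
    linarith
  · obtain ⟨d, hd, hd'⟩ := Cho.close_of_dist 0 hε
    refine ⟨d, hd, fun Ω f hf => ⟨f, hf, fun z hz hzG hzW hdist => ?_⟩⟩
    have h1 := hd' (f z) 0 (by rw [norm_zero]) hdist
    rwa [sub_zero] at h1
  · set e : ℝ := min (m / 2) (ε * m / (2 * K)) with he
    have he0 : 0 < e := lt_min (by positivity) (by positivity)
    obtain ⟨d, hd, hd'⟩ := Cho.close_of_dist 1 he0
    refine ⟨d, hd, fun Ω f hf => ⟨_, tm_N_one h hL hf, fun z hz hzG hzW hdist => ?_⟩⟩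
    have h1 := hd' (f z) 1 (by rw [norm_one]) hdist
    have h2 := hKb z hzG hzW
    have h3 := hmb z hzG hzW
    have h4 : m / 2 ≤ ‖f z - L z‖ := by
      have h5 : (1 : ℂ) - L z = (f z - L z) - (f z - 1) := by ring
      rw [h5] at h3
      have h6 := norm_sub_le (f z - L z) (f z - 1)
      have h7 : e ≤ m / 2 := min_le_left _ _
      linarith
    have h8 : e ≤ ε * m / (2 * K) := min_le_right _ _
    have h9 : ‖f z - 1‖ * (2 * K) ≤ ε * m := by
      have h10 := h1.trans h8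
      rwa [le_div_iff₀ (by positivity)] at h10
    rw [norm_div, norm_mul, div_le_iff₀ (by linarith)]
    calc ‖L z‖ * ‖f z - 1‖ ≤ K * ‖f z - 1‖ := mul_le_mul_of_nonneg_right h2 (norm_nonneg _)
      _ ≤ ε * (m / 2) := by linarith
      _ ≤ ε * ‖f z - L z‖ := mul_le_mul_of_nonneg_left h4 hε.le
  · have hLL : L' = L := h.sub hL' hL
    subst hLL
    set e : ℝ := min (m / 2) (ε * m / 2) with he
    have he0 : 0 < e := lt_min (by positivity) (by positivity)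
    obtain ⟨d, hd, hd'⟩ := Cho.close_of_dist K he0
    refine ⟨d, hd, fun Ω f hf => ⟨_, tm_N_L h hL' hf, fun z hz hzG hzW hdist => ?_⟩⟩
    have h1 := hd' (f z) (L' z) (hKb z hzG hzW) hdist
    have h3 := hmb z hzG hzW
    have h4 : m / 2 ≤ ‖f z - 1‖ := by
      have h5 : (1 : ℂ) - L' z = (f z - L' z) - (f z - 1) := by ring
      rw [h5] at h3
      have h6 := norm_sub_le (f z - L' z) (f z - 1)
      have h7 : e ≤ m / 2 := min_le_left _ _
      linarith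
    have h8 : e ≤ ε * m / 2 := min_le_right _ _
    rw [norm_div, div_le_iff₀ (by linarith)]
    calc ‖f z - L' z‖ ≤ ε * (m / 2) := by linarith
      _ ≤ ε * ‖f z - 1‖ := mul_le_mul_of_nonneg_left h4 hε.le

/-! ## case (I) -/

theorem tm_I_inf {Ω : Set ℂ} {f : ℂ → ℂ} (hA0 : (0 : ℂ) ∈ A) (hf : f ∈ Tm B ∅ C A Ω) :
    (fun z => (f z)⁻¹) ∈ Tm B ∅ C ((fun a => a⁻¹) '' A) Ω := by
  refine ⟨fun z hz => (hf.1 z hz).inv, fun z hz hzB => ?_, fun b hb hbC a ha => ?_⟩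
  · obtain ⟨h1, h2, h3, -⟩ := hf.2.1 z hz hzB
    refine ⟨h1.inv h2, inv_ne_zero h2, ?_, fun L hL => absurd hL (Set.notMem_empty L)⟩
    rw [Ne, inv_eq_one]
    exact h3
  · by_cases ha0 : a = 0
    · exact ⟨0, hA0, by rw [ha0]; exact inv_zero⟩
    · refine ⟨a⁻¹, hf.2.2 b hb hbC a⁻¹ ?_, by simp⟩
      have h1 := ha.inv₀ ha0
      simpa using h1

theorem tm_I_one {Ω : Set ℂ} {f : ℂ → ℂ} (hf : f ∈ Tm B ∅ C A Ω) :
    (fun z => 1 - f z) ∈ Tm B ∅ C ((fun a => 1 - a) '' A) Ω := by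
  refine ⟨fun z hz => (MeromorphicAt.const 1 z).sub (hf.1 z hz), fun z hz hzB => ?_, fun b hb hbC a ha => ?_⟩
  · obtain ⟨h1, h2, h3, -⟩ := hf.2.1 z hz hzB
    refine ⟨analyticAt_const.sub h1, sub_ne_zero.2 (Ne.symm h3), ?_, fun L hL => absurd hL (Set.notMem_empty L)⟩
    intro h4
    exact h2 (by linear_combination -h4)
  · refine ⟨1 - a, hf.2.2 b hb hbC (1 - a) ?_, by simp⟩
    have h1 := ha.const_sub 1
    simpa using h1

/-- a member near a section is moved to a member near `0` -/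
theorem near_I (h : BaseD p B δ W ∅ C A) {s : ℂ → MN 1} (hs : s ∈ Sec ∅) :
    ∃ A' : Set ℂ, BaseD p B δ W ∅ C A' ∧ ∀ ε : ℝ, 0 < ε → ∃ d : ℝ, 0 < d ∧ ∀ (Ω : Set ℂ), ∀ f ∈ Tm B ∅ C A Ω, ∃ g ∈ Tm B ∅ C A' Ω,
      ∀ z ∈ Ω, z ∈ Gd B δ → |z.re| ≤ W → dist (kp (f z)) (s z) ≤ d → ‖g z‖ ≤ ε := by
  have hδ := h.δ_pos
  rw [mem_sec] at hs
  rcases hs with rfl | rfl | rfl | ⟨L', hL', rfl⟩
  · refine ⟨(fun a => a⁻¹) '' A, h.changeA (h.A_fin.image _) ⟨0, h.A_zero, inv_zero⟩ ⟨1, h.A_one, inv_one⟩, fun ε hε => ?_⟩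
    obtain ⟨d, hd, hd'⟩ := Cho.large_of_dist hε
    refine ⟨d, hd, fun Ω f hf => ⟨_, tm_I_inf h.A_zero hf, fun z hz hzG hzW hdist => ?_⟩⟩
    have h1 := hd' _ hdist
    have h3 : 0 < ‖f z‖ := norm_pos_iff.2 (hf.2.1 z hz (gd_notMem hδ hzG)).2.1
    rw [norm_inv, inv_le_iff_one_le_mul₀ h3]
    exact h1
  · refine ⟨A, h, fun ε hε => ?_⟩
    obtain ⟨d, hd, hd'⟩ := Cho.close_of_dist 0 hε
    refine ⟨d, hd, fun Ω f hf => ⟨f, hf, fun z hz hzG hzW hdist => ?_⟩⟩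
    have h1 := hd' (f z) 0 (by rw [norm_zero]) hdist
    rwa [sub_zero] at h1
  · refine ⟨(fun a => 1 - a) '' A, h.changeA (h.A_fin.image _) ⟨1, h.A_one, sub_self 1⟩ ⟨0, h.A_zero, sub_zero 1⟩, fun ε hε => ?_⟩
    obtain ⟨d, hd, hd'⟩ := Cho.close_of_dist 1 hε
    refine ⟨d, hd, fun Ω f hf => ⟨_, tm_I_one hf, fun z hz hzG hzW hdist => ?_⟩⟩
    have h1 := hd' (f z) 1 (by rw [norm_one]) hdist
    rw [norm_sub_rev]
    exact h1
  · exact absurd hL' (Set.notMem_empty _)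

end Pool.Agent.H62.LR

end
end

section

/-!
# LR Hd0: the family `Sc` has the elementary properties
-/

set_option autoImplicit false

open Topology Filter Metric

noncomputable section

namespace Pool.Agent.H62.LR

attribute [-instance] ProperSMul.toContinuousSMul

open Pool.Agent.H36.BP (EN)
open Pool.Agent.H62.EF (MN pr)

variable {p : ℝ} {B : Set ℂ} {δ W : ℝ} {𝓛 : Set (ℂ → ℂ)} {C A : Set ℂ}

theorem sec_finite (h : BaseD p B δ W 𝓛 C A) : (Sec 𝓛).Finite := by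
  unfold Sec
  exact (Set.toFinite _).union (h.sub.finite.image _)

/-- the field `lim` of `HD0` -/
theorem sc_lim (h : BaseD p B δ W 𝓛 C A) (𝒰 : Ultrafilter ℕ) (Ω : ℕ → Set ℂ) (F : ℕ → ℂ → MN 1) (f : ℂ → MN 1)
    (_hΩ : ∀ n, IsOpen (Ω n) ∧ Convex ℝ (Ω n)) (hex : ∀ R : ℝ, ∀ᶠ n in (𝒰 : Filter ℕ), ball 0 R ⊆ Ω n)
    (hF : ∀ᶠ n in (𝒰 : Filter ℕ), F n ∈ Sc B 𝓛 C A (Ω n)) (hf : ∀ z, z ∉ B → Tendsto (fun n => F n z) 𝒰 (𝓝 (f z))) :
    f ∈ Sc B 𝓛 C A Set.univ := by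
  have hpt : ∀ z : ℂ, ∀ᶠ n in (𝒰 : Filter ℕ), z ∈ Ω n := fun z => (hex (‖z‖ + 1)).mono fun n hn => hn (by rw [mem_ball_zero_iff]; linarith)
  have hF' : ∀ᶠ n in (𝒰 : Filter ℕ), (∃ s ∈ Sec 𝓛, ∀ z ∈ Ω n, z ∉ B → F n z = s z) ∨ ∃ g ∈ Tm B 𝓛 C A (Ω n), ∀ z ∈ Ω n, z ∉ B → F n z = kp (g z) := hF
  rcases Ultrafilter.eventually_or.1 hF' with h1 | h1
  · obtain ⟨s, hs, h2⟩ := (Ultrafilter.eventually_exists_mem_iff (f := 𝒰) (P := fun s n => ∀ z ∈ Ω n, z ∉ B → F n z = s z) (sec_finite h)).1 h1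
    left
    refine ⟨s, hs, fun z _ hzB => ?_⟩
    have h3 : Tendsto (fun n => F n z) 𝒰 (𝓝 (s z)) := by
      refine tendsto_const_nhds.congr' ?_
      filter_upwards [h2, hpt z] with n hn hn2
      exact (hn z hn2 hzB).symm
    exact tendsto_nhds_unique (hf z hzB) h3
  · have h2 : ∀ n, ∃ g : ℂ → ℂ, (∃ g ∈ Tm B 𝓛 C A (Ω n), ∀ z ∈ Ω n, z ∉ B → F n z = kp (g z)) →
        g ∈ Tm B 𝓛 C A (Ω n) ∧ ∀ z ∈ Ω n, z ∉ B → F n z = kp (g z) := by
      intro n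
      by_cases h3 : ∃ g ∈ Tm B 𝓛 C A (Ω n), ∀ z ∈ Ω n, z ∉ B → F n z = kp (g z)
      · obtain ⟨g, hg, hg2⟩ := h3
        exact ⟨g, fun _ => ⟨hg, hg2⟩⟩
      · exact ⟨0, fun h4 => absurd h4 h3⟩
    choose X hX using h2
    have hXe : ∀ᶠ n in (𝒰 : Filter ℕ), X n ∈ Tm B 𝓛 C A (Ω n) ∧ ∀ z ∈ Ω n, z ∉ B → F n z = kp (X n z) := h1.mono fun n hn => hX n hn
    have hconv : ∀ z, z ∉ B → Tendsto (fun n => kp (X n z)) 𝒰 (𝓝 (f z)) := by
      intro z hzB
      refine (hf z hzB).congr' ?_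
      filter_upwards [hXe, hpt z] with n hn hn2
      exact hn.2 z hn2 hzB
    have hXQ : ∀ Q : Set ℂ, Q ⊆ Set.univ → IsCompact Q → ∀ᶠ n in (𝒰 : Filter ℕ), ∃ V : Set ℂ, IsOpen V ∧ Q ⊆ V ∧ X n ∈ Tm B 𝓛 C A V := by
      intro Q _ hQ
      obtain ⟨R, hR⟩ := hQ.isBounded.subset_ball 0
      filter_upwards [hXe, hex R] with n hn hn2
      exact ⟨Ω n, (_hΩ n).1, hR.trans hn2, hn.1⟩
    rcases lim_gen h 𝒰 isOpen_univ convex_univ X hXQ with ⟨s, hs, h3⟩ | ⟨g, hg, h3⟩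
    · left
      exact ⟨s, hs, fun z hz hzB => tendsto_nhds_unique (hconv z hzB) (h3 z hz hzB)⟩
    · right
      exact ⟨g, hg, fun z hz hzB => tendsto_nhds_unique (hconv z hzB) ((continuous_kp.tendsto _).comp (h3 z hz hzB))⟩

theorem hd0 (h : BaseD p B δ W 𝓛 C A) : HD0 (closedBall (0 : MN 1) 1) p B δ W (Sc B 𝓛 C A) where
  compact := sc_compact
  p_pos := h.p_pos
  δ_pos := h.δ_pos
  W_pos := h.W_pos
  B_inv := h.B_inv
  B_sep := h.B_sep
  B_re := h.B_re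
  anti := fun _ _ _ _ _ _ hsub => sc_anti hsub
  mem := fun _ _ _ _ hf _ hz hzB => sc_mem hf hz hzB
  lip := by
    intro δ' R hδ'
    obtain ⟨L, hL, hl⟩ := sc_lip h δ' hδ'
    exact ⟨L, hL, fun Ω _ _ f hf z hz _ hzΩ w hw => hl Ω f hf z hz hzΩ w hw⟩
  trans := fun _ _ _ _ hf l => sc_trans h hf l
  lim := fun 𝒰 Ω F f hΩ hex hF hf => sc_lim h 𝒰 Ω F f hΩ hex hF hf
  uniq := fun _ hΩ hΩc _ hf _ hg _ hz₀ _ hfr => sc_uniq h hΩ hΩc.isPreconnected hf hg hz₀ hfr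

end Pool.Agent.H62.LR

end
end

section

/-!
# LR LAN: case (N), no member is near the section `0`
-/

set_option autoImplicit false

open Topology Filter Metric

noncomputable section

namespace Pool.Agent.H62.LR

attribute [-instance] ProperSMul.toContinuousSMul

open Pool.Agent.H87.LU

variable {p : ℝ} {B : Set ℂ} {δ W : ℝ} {𝓛 : Set (ℂ → ℂ)} {C A : Set ℂ}

/-- growth of a sum -/
theorem log_add_le {x y a b : ℝ} (hx : 0 ≤ x) (hy : 0 ≤ y) (hxa : Real.log x ≤ a) (hyb : Real.log y ≤ b) (ha : 0 ≤ a) (hb : 0 ≤ b) :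
    Real.log (x + y) ≤ 1 + a + b := by
  have h1 : x ≤ Real.exp a := by
    rcases hx.eq_or_lt with h0 | h0
    · rw [← h0]
      exact (Real.exp_pos a).le
    · rwa [← Real.log_le_iff_le_exp h0]
  have h2 : y ≤ Real.exp b := by
    rcases hy.eq_or_lt with h0 | h0
    · rw [← h0]
      exact (Real.exp_pos b).le
    · rwa [← Real.log_le_iff_le_exp h0]
  rcases (add_nonneg hx hy).eq_or_lt with h0 | h0
  · rw [← h0, Real.log_zero]
    positivity
  · rw [Real.log_le_iff_le_exp h0]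
    have ha1 := Real.one_le_exp ha
    have hb1 := Real.one_le_exp hb
    have he : 2 ≤ Real.exp 1 := by
      have := Real.add_one_le_exp (1 : ℝ)
      linarith
    have h3 : Real.exp a + Real.exp b ≤ 2 * (Real.exp a * Real.exp b) := by nlinarith
    rw [Real.exp_add, Real.exp_add]
    have h4 : 0 ≤ Real.exp a * Real.exp b := by positivity
    nlinarith

/-- Case (N): no member is near the section `0`. -/
theorem la_N (h : BaseD p B δ W 𝓛 ∅ A) {L : ℂ → ℂ} (hL : L ∈ 𝓛) {b₀ : ℂ} (hb₀ : b₀ ∈ B) (hLa : AnalyticAt ℂ L b₀) (hL1 : L b₀ = 1) :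
    ∃ ε : ℝ, 0 < ε ∧ ∀ σ ρ : ℝ, (σ = 1 ∨ σ = -1) → ∀ f ∈ Tm B 𝓛 ∅ A (HP σ ρ), ¬ ∀ z ∈ HP σ ρ, z ∈ Gd B δ → |z.re| ≤ W → ‖f z‖ ≤ ε := by
  have hδ := h.δ_pos
  have hp := h.p_pos
  obtain ⟨K, hK1, hK⟩ := h.L_bound hL
  obtain ⟨ML, hML, hLg⟩ := h.L_grow L hL
  refine ⟨1 / (8 * K ^ 2), by positivity, fun σ ρ hσ f hf hsmall => ?_⟩
  have hε8 : 1 / (8 * K ^ 2) ≤ 1 / 8 := by
    rw [div_le_div_iff₀ (by positivity) (by norm_num)]
    nlinarith
  have hfan : ∀ z ∈ HP σ ρ, z ∉ B → AnalyticAt ℂ f z ∧ f z ≠ 0 ∧ f z ≠ 1 ∧ f z ≠ L z := fun z hz hzB =>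
    ⟨(hf.2.1 z hz hzB).1, (hf.2.1 z hz hzB).2.1, (hf.2.1 z hz hzB).2.2.1, (hf.2.1 z hz hzB).2.2.2 L hL⟩
  have hLan : ∀ z, z ∉ B → AnalyticAt ℂ L z ∧ L z ≠ 0 ∧ L z ≠ 1 := h.L_an L hL
  set Q : ℂ → ℂ := fun z => (L z - f z) / (L z * (1 - f z)) with hQ
  have hQm : ∀ z ∈ HP σ ρ, MeromorphicAt Q z := fun z hz =>
    ((h.L_mer L hL z).sub (hf.1 z hz)).div ((h.L_mer L hL z).mul ((MeromorphicAt.const 1 z).sub (hf.1 z hz)))
  have hQa : ∀ z ∈ HP σ ρ, z ∉ B → AnalyticAt ℂ Q z ∧ Q z ≠ 0 := by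
    intro z hz hzB
    obtain ⟨h1, h2, h3, h4⟩ := hfan z hz hzB
    obtain ⟨h5, h6, h7⟩ := hLan z hzB
    have h8 : L z * (1 - f z) ≠ 0 := mul_ne_zero h6 (sub_ne_zero.2 h3.symm)
    exact ⟨(h5.sub h1).div (h5.mul (analyticAt_const.sub h1)) h8, div_ne_zero (sub_ne_zero.2 h4.symm) h8⟩
  have hone : ∀ z ∈ HP σ ρ, z ∈ Gd B δ → |z.re| ≤ W → ‖Q z - 1‖ ≤ 1 / 2 := by
    intro z hz hzG hzW
    have hzB := gd_notMem hδ hzG
    obtain ⟨h1, h2, h3, h4⟩ := hfan z hz hzB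
    obtain ⟨h5, h6, h7⟩ := hLan z hzB
    obtain ⟨hk1, hk2⟩ := hK z hzG hzW
    have hs := hsmall z hz hzG hzW
    have h1f : 1 - f z ≠ 0 := sub_ne_zero.2 h3.symm
    have h8 : Q z - 1 = f z * (L z - 1) * (L z)⁻¹ * (1 - f z)⁻¹ := by
      rw [hQ]
      simp only
      field_simp
      ring
    have h9 : ‖(1 - f z)⁻¹‖ ≤ 8 / 7 := by
      rw [norm_inv]
      have h10 : 7 / 8 ≤ ‖1 - f z‖ := by
        have := norm_sub_norm_le (1 : ℂ) (f z)
        rw [norm_one] at this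
        linarith
      rw [inv_le_comm₀ (by linarith) (by norm_num)]
      linarith
    have h11 : ‖L z - 1‖ ≤ K + 1 := by
      have := norm_sub_le (L z) 1
      rw [norm_one] at this
      linarith
    rw [h8, norm_mul, norm_mul, norm_mul, norm_inv (L z)]
    calc ‖f z‖ * ‖L z - 1‖ * ‖L z‖⁻¹ * ‖(1 - f z)⁻¹‖ ≤ 1 / (8 * K ^ 2) * (K + 1) * K * (8 / 7) := by gcongr
      _ ≤ 1 / (8 * K ^ 2) * (2 * K) * K * (8 / 7) := by
          gcongr
          linarith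
      _ = 2 / 7 := by
          field_simp
      _ ≤ 1 / 2 := by norm_num
  -- growth
  obtain ⟨Mf, hMf, hfg⟩ := end_growth h hσ (X := f) (fun z hz hzB => ⟨(hfan z hz hzB).1, (hfan z hz hzB).2.1, (hfan z hz hzB).2.2.1⟩) hsmall
  obtain ⟨Mg, hMg, hgg⟩ := end_growth h hσ (X := fun z => (1 - f z)⁻¹) (fun z hz hzB => by
    obtain ⟨h1, h2, h3, h4⟩ := hfan z hz hzB
    have h1f : 1 - f z ≠ 0 := sub_ne_zero.2 h3.symm
    refine ⟨(analyticAt_const.sub h1).inv h1f, inv_ne_zero h1f, fun h5 => h2 ?_⟩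
    rw [inv_eq_one] at h5
    linear_combination -h5) (M₀ := 8 / 7) (fun z hz hzG hzW => by
    rw [norm_inv]
    have hs := hsmall z hz hzG hzW
    have h10 : 7 / 8 ≤ ‖1 - f z‖ := by
      have := norm_sub_norm_le (1 : ℂ) (f z)
      rw [norm_one] at this
      linarith
    rw [inv_le_comm₀ (by linarith) (by norm_num)]
    linarith)
  have hsub3 : HP σ (ρ + 3) ⊆ HP σ ρ := HP_anti (by linarith)
  have hWend : ∀ z : ℂ, W < |z.re| → z ∉ B := by
    intro z hzW hzB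
    have := h.B_re z hzB
    linarith
  have hQg : ∀ z ∈ HP σ (ρ + 3), W < |z.re| → Real.log ‖Q z‖ ≤ (1 + 2 * ML + Mf + Mg) * (1 + ‖z‖) ^ 8 := by
    intro z hz hzW
    have hzB := hWend z hzW
    obtain ⟨h1, h2, h3, h4⟩ := hfan z (hsub3 hz) hzB
    obtain ⟨h5, h6, h7⟩ := hLan z hzB
    have hg1 := hfg z hz hzW
    have hg2 := hgg z hz hzW
    have hg3 := abs_le.1 (hLg z (by linarith))
    have h1f : 1 - f z ≠ 0 := sub_ne_zero.2 h3.symm
    have hn1 : 0 < ‖L z - f z‖ := norm_pos_iff.2 (sub_ne_zero.2 h4.symm)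
    have hn2 : 0 < ‖L z‖ := norm_pos_iff.2 h6
    have hn3 : 0 < ‖1 - f z‖ := norm_pos_iff.2 h1f
    have hz1 : 1 ≤ 1 + ‖z‖ := by linarith [norm_nonneg z]
    have hp8 : 1 + ‖z‖ ≤ (1 + ‖z‖) ^ 8 := le_self_pow₀ hz1 (by norm_num)
    have hlogQ : Real.log ‖Q z‖ = Real.log ‖L z - f z‖ - Real.log ‖L z‖ + Real.log ‖(1 - f z)⁻¹‖ := by
      rw [hQ]
      simp only
      rw [norm_div, norm_mul, Real.log_div hn1.ne' (mul_pos hn2 hn3).ne', Real.log_mul hn2.ne' hn3.ne', norm_inv, Real.log_inv]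
      ring
    have hsum : Real.log ‖L z - f z‖ ≤ 1 + ML * (1 + ‖z‖) + Mf * (1 + ‖z‖) ^ 8 := by
      have h8 : Real.log ‖L z - f z‖ ≤ Real.log (‖L z‖ + ‖f z‖) := Real.log_le_log hn1 (norm_sub_le _ _)
      refine h8.trans (log_add_le hn2.le (norm_nonneg _) hg3.2 hg1 (by positivity) (by positivity))
    rw [hlogQ]
    have h9 : ML * (1 + ‖z‖) ≤ ML * (1 + ‖z‖) ^ 8 := mul_le_mul_of_nonneg_left hp8 hML
    have h10 : (1 : ℝ) ≤ (1 + ‖z‖) ^ 8 := hz1.trans hp8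
    nlinarith [hg3.1]
  obtain ⟨J, ρ', M', k', hρ', hM', hJd, hJe, hJ2, hJg⟩ := log_fn h hσ (ρ := ρ + 3) (fun z hz => hQm z (hsub3 hz)) (fun z hz => hQa z (hsub3 hz))
    (fun z hz => hone z (hsub3 hz)) (M := 1 + 2 * ML + Mf + Mg) (k := 8) (by positivity) hQg
  have hsub' : HP σ ρ' ⊆ HP σ ρ := HP_anti (by linarith)
  have hsub'' : HP σ (ρ' + 4 * δ) ⊆ HP σ ρ' := HP_anti (by linarith)
  -- the zeros
  have hzero : ∀ l : ℤ, b₀ + p * l * Complex.I ∈ HP σ (ρ' + 4 * δ) → J (b₀ + p * l * Complex.I) = 0 := by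
    intro l hl
    set b : ℂ := b₀ + p * l * Complex.I with hb
    have hbB : b ∈ B := h.B_inv b₀ hb₀ l
    have hball : ball b (4 * δ) ⊆ HP σ ρ' := HP_ball hσ hl
    obtain ⟨hLb, hLb1⟩ := h.L_at hL hLa l
    rw [← hb, hL1] at hLb1
    rw [← hb] at hLb
    obtain ⟨H, hHd, hHQ, hH1⟩ := hole (Q := fun z => 1 - f z) hδ (show 1 / (8 * K ^ 2) ≤ 1 / 2 by linarith)
      (fun z hz hzb => by
        obtain ⟨h1, h2, h3, h4⟩ := hfan z (hsub' (hball hz)) (h.notMem hbB hz hzb)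
        exact ⟨analyticAt_const.sub h1, sub_ne_zero.2 h3.symm⟩)
      ((MeromorphicAt.const 1 b).sub (hf.1 b (hsub' (hball (mem_ball_self (by positivity))))))
      (fun z hz1 hz2 => by
        have hz : z ∈ ball b (4 * δ) := by rwa [mem_ball, dist_eq_norm]
        have h1 := hsmall z (hsub' (hball hz)) (h.mem_gd hbB hz hz1) (h.re_le hbB hz)
        rwa [sub_sub_cancel_left, norm_neg])
    have hbb : b ∈ ball b (4 * δ) := mem_ball_self (by positivity)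
    have hHb : H b ≠ 0 := by
      intro h0
      have h1 := hH1 b hbb
      rw [h0, zero_sub, norm_neg, norm_one] at h1
      linarith
    have hHc : Tendsto H (𝓝[≠] b) (𝓝 (H b)) := (hHd.differentiableAt (isOpen_ball.mem_nhds hbb)).continuousAt.continuousWithinAt
    have hLc : Tendsto L (𝓝[≠] b) (𝓝 1) := by
      have h1 : Tendsto L (𝓝[≠] b) (𝓝 (L b)) := hLb.continuousAt.continuousWithinAt
      rwa [hLb1] at h1
    have hQlim : Tendsto (fun z => (L z - (1 - H z)) / (L z * H z)) (𝓝[≠] b) (𝓝 ((1 - (1 - H b)) / (1 * H b))) :=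
      (hLc.sub (hHc.const_sub 1)).div (hLc.mul hHc) (by rw [one_mul]; exact hHb)
    have hone' : (1 - (1 - H b)) / (1 * H b) = 1 := by
      rw [sub_sub_cancel, one_mul, div_self hHb]
    rw [hone'] at hQlim
    have hJc : Tendsto (fun z => Complex.exp (J z)) (𝓝[≠] b) (𝓝 (Complex.exp (J b))) := by
      have h1 : ContinuousAt J b := (hJd.differentiableAt ((isOpen_HP σ ρ').mem_nhds (hball hbb))).continuousAt
      exact (Complex.continuous_exp.continuousAt.comp h1).continuousWithinAt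
    have hexp : Complex.exp (J b) = 1 := by
      refine tendsto_nhds_unique hJc (hQlim.congr' ?_)
      have h1 : ∀ᶠ z in 𝓝[≠] b, z ∈ ball b (4 * δ) := mem_nhdsWithin_of_mem_nhds (isOpen_ball.mem_nhds hbb)
      filter_upwards [h1, self_mem_nhdsWithin] with z hz hzb
      rw [hJe z (hball hz) (h.notMem hbB hz hzb), hHQ z hz hzb, hQ, sub_sub_cancel]
    refine eq_zero_of_exp hexp ?_
    have h1 := hJ2 b (hball hbb) (h.re_le hbB hbb)
    linarith [Real.pi_gt_three]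
  have hJ0 := zero_hp hσ hp (hJd.mono hsub'') hM' (fun z hz => hJg z (hsub'' hz)) hzero
  obtain ⟨z, hz, hzB⟩ := h.exists_pt hσ (ρ' + 4 * δ)
  obtain ⟨h1, h2, h3, h4⟩ := hfan z (hsub' (hsub'' hz)) hzB
  obtain ⟨h5, h6, h7⟩ := hLan z hzB
  have h8 := hJe z (hsub'' hz) hzB
  rw [hJ0 z hz, Complex.exp_zero] at h8
  have h9 : L z * (1 - f z) ≠ 0 := mul_ne_zero h6 (sub_ne_zero.2 h3.symm)
  have h10 : L z - f z = L z * (1 - f z) := by
    have h11 : (L z - f z) / (L z * (1 - f z)) = 1 := h8.symm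
    rwa [div_eq_one_iff_eq h9] at h11
  have h12 : f z * (L z - 1) = 0 := by linear_combination h10
  rcases mul_eq_zero.1 h12 with h13 | h13
  · exact h2 h13
  · exact h7 (sub_eq_zero.1 h13)

end Pool.Agent.H62.LR

end
end
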