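import Mathlib

/-! The parts of this file: H13.CV.Rat, H36.BP.CirA, H62.FC.Place. -/

section

/-!
# CV Rat: the orders of the elements of `L = ℂ(x)`

`mem_L_iff`: `IntermediateField.mem_adjoin_simple_iff`.  `mem_poly_iff`: `Algebra.adjoin_singleton_eq_range_aeval`.
`aeval_ord`: `p = X ^ k * p₁` with `k = p.rootMultiplicity 0` and `p₁.eval 0 ≠ 0` (`Polynomial.exists_eq_pow_rootMultiplicity_mul_and_not_dvd`); if `0 < ord_E x` then the value of `p₁ (x)` at `E` is
`p₁.eval 0 ≠ 0` (`res_aeval` with `res E x = 0`, or directly: `p₁ (x) = p₁ (0) + x * r (x)`), so its order is `0`.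
`exists_zpow`: quotient of two polynomials.
`mem_R`: (⇐) `q (x)` has order `0`.  `exists_residue`: let `c = p (x) / q (x)`, `p, q ≠ 0`, with `p = X ^ a * p₁`, `q = X ^ b * q₁`, `p₁ (0), q₁ (0) ≠ 0`; at a place over `x = 0` (it exists by assumption):
`0 ≤ (a - b) * ord x`, so `b ≤ a` and `c = X ^ (a - b) p₁ / q₁ (x)`: a quotient `p₂ (x) / q₁ (x)` with `q₁ (0) ≠ 0`.  `γ = p₂ (0) / q₁ (0)`; the polynomial `p₂ - γ q₁` has value `0` at `0`, so it is
`X * r`, and `c = γ + x * r (x) / q₁ (x)`.
`poly_inf`: `c = p (x)`, `p ≠ 0` of degree `d`: at a place `E` with `ord x < 0`: `oz E (p (x)) = d * oz E x` (highest term), so `0 ≤ (k + d) * oz E x` and `k = d = 0`.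
`regLoc_div_of_pos`, `regLoc_of_nonneg`: `exists_zpow`.
-/

set_option autoImplicit false

noncomputable section

namespace Pool.Agent.H13.CV

attribute [-instance] ProperSMul.toContinuousSMul

variable {K : Type} [Field K] [Algebra ℂ K] {L : IntermediateField ℂ K} {x : K}

theorem mem_poly_iff {c : K} : c ∈ Algebra.adjoin ℂ {x} ↔ ∃ p : Polynomial ℂ, c = Polynomial.aeval x p := by
  rw [Algebra.adjoin_singleton_eq_range_aeval]
  constructor
  · rintro ⟨p, hp⟩
    exact ⟨p, hp.symm⟩
  · rintro ⟨p, hp⟩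
    exact ⟨p, hp.symm⟩

theorem factor {p : Polynomial ℂ} (hp : p ≠ 0) : ∃ p₁ : Polynomial ℂ, p = Polynomial.X ^ p.rootMultiplicity 0 * p₁ ∧ p₁.eval 0 ≠ 0 := by
  obtain ⟨q, h1, h2⟩ := Polynomial.exists_eq_pow_rootMultiplicity_mul_and_not_dvd p hp 0
  refine ⟨q, ?_, ?_⟩
  · simpa using h1
  · intro h
    exact h2 (Polynomial.dvd_iff_isRoot.mpr h)

end Pool.Agent.H13.CV

end
end

section

/-!
# BP CirA: approximation on one circle

Trigonometric polynomials are dense in the continuous functions on the circle (`span_fourier_closure_eq_top`, or Stone-Weierstrass on the compact set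
`sphere 0 R` with the star subalgebra generated by `z`: on the circle `conj z = R²/z`).  A real continuous function is within `ε` of `Re P`, `P = ∑_{|n| ≤ m} c_n z^n`, and
`Re(c_(-n) z^(-n)) = Re(conj(c_(-n)) R^(-2n) z^n)` on the circle, so `P` can be taken to be a polynomial.
`trig_approx`: the form needed for the annulus: finitely many coefficients `c 0, ..., c m`, `|φ(R e^(iθ)) - Re ∑ c_n e^(inθ)| ≤ ε`.
-/

set_option autoImplicit false

namespace Pool.Agent.H36.BP

attribute [-instance] ProperSMul.toContinuousSMul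

open Filter Topology Metric

variable {N : ℕ}

private theorem CirA_span (g : C(AddCircle (2 * Real.pi), ℂ)) (hg : g ∈ Submodule.span ℂ (Set.range (@fourier (2 * Real.pi)))) :
    ∀ a : ℂ, ∃ p : Polynomial ℂ, ∀ θ : ℝ, (a * g (θ : AddCircle (2 * Real.pi))).re = (p.eval (Complex.exp (θ * Complex.I))).re := by
  induction hg using Submodule.span_induction with
  | mem x hx =>
    intro a
    obtain ⟨k, rfl⟩ := hx
    have hpi : (Real.pi : ℂ) ≠ 0 := by exact_mod_cast Real.pi_ne_zero
    have hval : ∀ θ : ℝ, (fourier k (θ : AddCircle (2 * Real.pi)) : ℂ) = Complex.exp (k * (θ * Complex.I)) := by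
      intro θ
      rw [fourier_coe_apply]
      congr 1
      push_cast
      field_simp
    rcases Int.eq_nat_or_neg k with ⟨n, rfl | rfl⟩
    · refine ⟨Polynomial.C a * Polynomial.X ^ n, fun θ => ?_⟩
      rw [hval]
      simp only [Polynomial.eval_mul, Polynomial.eval_C, Polynomial.eval_pow, Polynomial.eval_X]
      rw [← Complex.exp_nat_mul]
      push_cast
      rfl
    · refine ⟨Polynomial.C ((starRingEnd ℂ) a) * Polynomial.X ^ n, fun θ => ?_⟩
      rw [hval]
      simp only [Polynomial.eval_mul, Polynomial.eval_C, Polynomial.eval_pow, Polynomial.eval_X]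
      rw [← Complex.exp_nat_mul]
      rw [← Complex.conj_re (a * _), map_mul, ← Complex.exp_conj]
      congr 3
      simp [Complex.conj_ofReal]
  | zero =>
    intro a
    exact ⟨0, fun θ => by simp⟩
  | add x y _ _ hx hy =>
    intro a
    obtain ⟨p, hp⟩ := hx a
    obtain ⟨q, hq⟩ := hy a
    refine ⟨p + q, fun θ => ?_⟩
    rw [ContinuousMap.add_apply, mul_add, Complex.add_re, hp, hq, Polynomial.eval_add, Complex.add_re]
  | smul b x _ hx =>
    intro a
    obtain ⟨p, hp⟩ := hx (a * b)
    refine ⟨p, fun θ => ?_⟩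
    rw [← hp, ContinuousMap.smul_apply, smul_eq_mul, mul_assoc]

theorem trig_approx (φ : ℝ → ℝ) (hφ : Continuous φ) (hper : ∀ θ, φ (θ + 2 * Real.pi) = φ θ) {ε : ℝ} (hε : 0 < ε) :
    ∃ (m : ℕ) (c : ℕ → ℂ), ∀ θ : ℝ, |φ θ - (∑ n ∈ Finset.range (m + 1), c n * Complex.exp (n * (θ * Complex.I))).re| ≤ ε := by
  have : Fact (0 < 2 * Real.pi) := ⟨Real.two_pi_pos⟩
  have hP : Function.Periodic φ (2 * Real.pi) := hper
  have hcont : Continuous (hP.lift) := by
    exact continuous_coinduced_dom.mpr hφ
  let F : C(AddCircle (2 * Real.pi), ℂ) := ⟨fun x => ((hP.lift x : ℝ) : ℂ), Complex.continuous_ofReal.comp hcont⟩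
  have hF : F ∈ (Submodule.span ℂ (Set.range (@fourier (2 * Real.pi)))).topologicalClosure := by
    rw [span_fourier_closure_eq_top]
    trivial
  have hF2 : F ∈ closure ((Submodule.span ℂ (Set.range (@fourier (2 * Real.pi))) : Submodule ℂ C(AddCircle (2 * Real.pi), ℂ)) : Set C(AddCircle (2 * Real.pi), ℂ)) := hF
  obtain ⟨g, hg, hgd⟩ := Metric.mem_closure_iff.mp hF2 ε hε
  obtain ⟨p, hp⟩ := CirA_span g hg 1
  refine ⟨p.natDegree, p.coeff, fun θ => ?_⟩
  have h1 : (∑ n ∈ Finset.range (p.natDegree + 1), p.coeff n * Complex.exp (n * (θ * Complex.I))) = p.eval (Complex.exp (θ * Complex.I)) := by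
    rw [Polynomial.eval_eq_sum_range]
    refine Finset.sum_congr rfl fun n _ => ?_
    rw [← Complex.exp_nat_mul]
  rw [h1, ← hp θ, one_mul]
  have h2 : ‖(F - g) (θ : AddCircle (2 * Real.pi))‖ ≤ ε := by
    refine le_trans (ContinuousMap.norm_coe_le_norm _ _) ?_
    rw [← dist_eq_norm]
    exact hgd.le
  have h3 : φ θ - (g (θ : AddCircle (2 * Real.pi))).re = ((F - g) (θ : AddCircle (2 * Real.pi))).re := by
    rw [ContinuousMap.sub_apply, Complex.sub_re]
    have h4 : F (θ : AddCircle (2 * Real.pi)) = ((φ θ : ℝ) : ℂ) := by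
      change ((hP.lift (θ : AddCircle (2 * Real.pi)) : ℝ) : ℂ) = _
      rw [Function.Periodic.lift_coe]
    rw [h4, Complex.ofReal_re]
  rw [h3]
  exact (Complex.abs_re_le_norm _).trans h2

theorem circle_approx {R : ℝ} (hR : 0 < R) (φ : ℂ → ℝ) (hφ : ContinuousOn φ (sphere (0 : ℂ) R)) {ε : ℝ} (hε : 0 < ε) :
    ∃ g : ℂ → ℂ, Differentiable ℂ g ∧ ∀ z ∈ sphere (0 : ℂ) R, |(g z).re - φ z| ≤ ε := by
  have hmem : ∀ θ : ℝ, ((R : ℂ) * Complex.exp (θ * Complex.I)) ∈ sphere (0 : ℂ) R := by
    intro θ
    rw [mem_sphere_zero_iff_norm, norm_mul, Complex.norm_exp_ofReal_mul_I, mul_one, Complex.norm_real, Real.norm_eq_abs, abs_of_pos hR]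
  have hc : Continuous fun θ : ℝ => φ ((R : ℂ) * Complex.exp (θ * Complex.I)) := by
    refine hφ.comp_continuous ?_ hmem
    exact continuous_const.mul (Complex.continuous_exp.comp (Complex.continuous_ofReal.mul continuous_const))
  have hper : ∀ θ : ℝ, φ ((R : ℂ) * Complex.exp (((θ + 2 * Real.pi : ℝ) : ℂ) * Complex.I)) = φ ((R : ℂ) * Complex.exp ((θ : ℂ) * Complex.I)) := by
    intro θ
    congr 2
    push_cast
    rw [add_mul]
    exact Complex.exp_periodic _
  obtain ⟨m, c, hmc⟩ := trig_approx (fun θ : ℝ => φ ((R : ℂ) * Complex.exp (θ * Complex.I))) hc hper hε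
  refine ⟨fun z => ∑ n ∈ Finset.range (m + 1), c n * (z / R) ^ n, ?_, ?_⟩
  · refine Differentiable.fun_sum fun n _ => ?_
    exact ((differentiable_id.div_const _).pow n).const_mul _
  · intro z hz
    have hRne : (R : ℂ) ≠ 0 := by exact_mod_cast hR.ne'
    have hzn : ‖z‖ = R := mem_sphere_zero_iff_norm.mp hz
    have hz1 : z = (R : ℂ) * Complex.exp ((z.arg : ℝ) * Complex.I) := by
      conv_lhs => rw [← Complex.norm_mul_exp_arg_mul_I z, hzn]
    have h := hmc z.arg
    have h5 : (∑ n ∈ Finset.range (m + 1), c n * (z / R) ^ n) = ∑ n ∈ Finset.range (m + 1), c n * Complex.exp (n * ((z.arg : ℝ) * Complex.I)) := by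
      refine Finset.sum_congr rfl fun n _ => ?_
      have : z / R = Complex.exp ((z.arg : ℝ) * Complex.I) := by
        rw [div_eq_iff hRne, mul_comm]
        exact hz1
      rw [this, Complex.exp_nat_mul]
    simp only
    rw [h5, abs_sub_comm]
    simp only [← hz1] at h
    exact h

end Pool.Agent.H36.BP

end

section

/-! Prime divisors of `L(t)`. -/

noncomputable section

namespace Pool.Agent.H62.FC

attribute [-instance] ProperSMul.toContinuousSMul

open WithZero Cardinal

/-- The additive form of the value group. -/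
def Place_phi (x : WithZero (Multiplicative ℤ)) : WithTop ℤ :=
  if x = 0 then ⊤ else ((-(WithZero.log x) : ℤ) : WithTop ℤ)

lemma Place_phi_zero : Place_phi 0 = ⊤ := by simp [Place_phi]

lemma Place_phi_one : Place_phi 1 = 0 := by simp [Place_phi]

lemma Place_phi_exp (n : ℤ) : Place_phi (WithZero.exp n) = ((-n : ℤ) : WithTop ℤ) := by
  simp [Place_phi]

lemma Place_phi_mul (x y : WithZero (Multiplicative ℤ)) :
    Place_phi (x * y) = Place_phi x + Place_phi y := by
  by_cases hx : x = 0
  · simp [Place_phi, hx]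
  by_cases hy : y = 0
  · simp [Place_phi, hy]
  rw [Place_phi, Place_phi, Place_phi, if_neg hx, if_neg hy, if_neg (mul_ne_zero hx hy),
    WithZero.log_mul hx hy, ← WithTop.coe_add]
  congr 1
  ring

lemma Place_phi_anti {x y : WithZero (Multiplicative ℤ)} (h : x ≤ y) :
    Place_phi y ≤ Place_phi x := by
  by_cases hx : x = 0
  · simp [Place_phi, hx]
  have hy : y ≠ 0 := by
    rintro rfl
    exact hx (le_antisymm h (by simp))
  rw [Place_phi, Place_phi, if_neg hx, if_neg hy, WithTop.coe_le_coe, neg_le_neg_iff,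
    WithZero.log_le_log hx hy]
  exact h

lemma Place_phi_nonneg_iff {x : WithZero (Multiplicative ℤ)} : 0 ≤ Place_phi x ↔ x ≤ 1 := by
  refine ⟨fun h => ?_, fun h => by simpa [Place_phi_one] using Place_phi_anti h⟩
  by_cases hx : x = 0
  · rw [hx]; simp
  rw [Place_phi, if_neg hx] at h
  have h1 : (0 : ℤ) ≤ -(WithZero.log x) := by exact_mod_cast h
  have h2 : WithZero.log x ≤ WithZero.log (1 : WithZero (Multiplicative ℤ)) := by
    rw [WithZero.log_one]; linarith
  exact (WithZero.log_le_log hx one_ne_zero).mp h2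

/-- The additive valuation of a `ℤᵐ⁰`-valuation. -/
def Place_add {R : Type*} [CommRing R] (v : Valuation R (WithZero (Multiplicative ℤ))) :
    AddValuation R (WithTop ℤ) :=
  AddValuation.of (fun x => Place_phi (v x)) (by simp [Place_phi_zero])
    (by simp [Place_phi_one])
    (fun x y => by
      rcases le_total (v x) (v y) with h | h
      · exact (min_le_right _ _).trans (Place_phi_anti ((v.map_add x y).trans
          (max_le h le_rfl)))
      · exact (min_le_left _ _).trans (Place_phi_anti ((v.map_add x y).trans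
          (max_le le_rfl h))))
    (fun x y => by rw [map_mul, Place_phi_mul])

lemma Place_add_apply {R : Type*} [CommRing R] (v : Valuation R (WithZero (Multiplicative ℤ)))
    (x : R) : Place_add v x = Place_phi (v x) := rfl

end Pool.Agent.H62.FC

end
end
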