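import Pool.Agent.H94.CB.M02
import Pool.Agent.H94.CB.M05
import Pool.Agent.H94.CB.M14
import Pool.Agent.H94.CB.M15
import Pool.Agent.H94.CB.M16
import Pool.Agent.H94.CB.M21
import Pool.Agent.H94.CB.M52

/-! The parts of this file: H36.BPB.Defs, H36.BPB.MtA, H36.BPB.Char, H36.BPB.ExtA, H36.BPB.Lim, H36.BPB.Resc. -/

section

/-!
# BPB Defs: the metric on an arbitrary open part, limit curves with bubbling

`MD` is `MetricData` without the field `hur` for `k ≥ 1`.  For arbitrary open surfaces the limit of the rescaled discs may meet the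
boundary at the points of a closed discrete set (the bubbling points).
-/

set_option autoImplicit false

namespace Pool.Agent.H36.BPB

attribute [-instance] ProperSMul.toContinuousSMul

open Filter Topology Metric

export Pool.Agent.H36.BP (EN Sub fs wd Curve mt OrdTwo)

variable {N : ℕ}

/-- `MetricData` without the condition at the bubbling points. -/
structure MD (K B : Set (EN N)) (G : EN N → EN N → ℝ) (ρ : EN N → ℝ) (M : ℕ) (c₀ C : ℝ) : Prop where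
  ne : ∀ x ∈ K, x ≠ 0
  smul : ∀ x ∈ K, ∀ c : ℂ, c ≠ 0 → c • x ∈ K
  c₀_pos : 0 < c₀
  C_nonneg : 0 ≤ C
  nonneg : ∀ x ∈ K, ∀ v, 0 ≤ G x v
  usc : ∀ x ∈ K, ∀ v, ∀ a : ℝ, G x v < a → ∀ᶠ p in 𝓝 (x, v), p.1 ∈ K → G p.1 p.2 < a
  inv : ∀ x ∈ K, ∀ v (c a : ℂ), c ≠ 0 → G (c • x) (c • v + a • x) = G x v
  hom : ∀ x ∈ K, ∀ v (c : ℂ), G x (c • v) = ‖c‖ * G x v
  zero : ∀ (F : ℂ → EN N) (z₀ : ℂ), AnalyticAt ℂ F z₀ → (∀ᶠ z in 𝓝 z₀, F z ∈ K ∧ F z ∈ B) → mt G F z₀ = 0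
  sub : ∀ (F : ℂ → EN N) (z₀ : ℂ), AnalyticAt ℂ F z₀ → (∀ᶠ z in 𝓝 z₀, F z ∈ K) → 0 < mt G F z₀ →
    Sub (fun z => mt G F z * ‖F z‖ ^ (-c₀)) z₀ (-(C * mt G F z₀ ^ 2))
  ρ_nonneg : ∀ x ∈ K, 0 ≤ ρ x
  lower : ∀ x ∈ K, ∀ v, ρ x ^ M * fs x v ≤ G x v
  ρ_zero : ∀ (F : ℂ → EN N) (z₀ : ℂ), AnalyticAt ℂ F z₀ → (∀ᶠ z in 𝓝 z₀, F z ∈ K) →
    (∃ᶠ z in 𝓝[≠] z₀, ρ (F z) = 0) → ∀ᶠ z in 𝓝 z₀, F z ∈ B
  rel_open : ∀ x ∈ K, ∀ᶠ y in 𝓝 x, y ∈ closure K → y ∈ K
  hur : ∀ (l : Filter ℕ), l.NeBot → ∀ (F : ℕ → ℂ → EN N) (H : ℂ → EN N) (z₀ : ℂ) (s : ℝ), 0 < s →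
    (∀ᶠ n in l, Curve K (Metric.ball z₀ s) (F n)) → DifferentiableOn ℂ H (Metric.ball z₀ s) →
    TendstoLocallyUniformlyOn F H l (Metric.ball z₀ s) → H z₀ ≠ 0 → H z₀ ∉ K → ∀ᶠ z in 𝓝 z₀, H z ∉ K
  lim : ∀ (l : Filter ℕ), l.NeBot → ∀ (F : ℕ → ℂ → EN N) (H : ℂ → EN N) (z₀ : ℂ) (s : ℝ), 0 < s →
    (∀ᶠ n in l, Curve K (Metric.ball z₀ s) (F n)) → TendstoLocallyUniformlyOn F H l (Metric.ball z₀ s) → H z₀ ≠ 0 →
    (∀ z ∈ Metric.ball z₀ s, H z ∉ K) → ∀ ε : ℝ, 0 < ε → ∀ᶠ n in l, mt G (F n) z₀ < ε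

/-- Near `z₀` the curves `[F n]` in projective space converge uniformly to `[H]`, with normalised lifts. -/
def ConvAt {V : Type} [NormedAddCommGroup V] [NormedSpace ℂ V] (l : Filter ℕ) (F : ℕ → ℂ → V) (H : ℂ → V) (z₀ : ℂ) : Prop :=
  ∃ s : ℝ, 0 < s ∧ ∃ φ : ℕ → ℂ → ℂ,
    (∀ᶠ n in l, DifferentiableOn ℂ (φ n) (ball z₀ s) ∧ ∀ z ∈ ball z₀ s, φ n z ≠ 0) ∧
    TendstoLocallyUniformlyOn (fun n z => φ n z • F n z) H l (ball z₀ s)

/-- `[H]` is the limit of the curves `[F n]` in `K`, which are defined on larger and larger discs, in `0` and outside a closed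
discrete set. -/
structure IsLimit {V : Type} [NormedAddCommGroup V] [NormedSpace ℂ V] (K : Set V) (l : Filter ℕ) (F : ℕ → ℂ → V) (H : ℂ → V) :
    Prop where
  neBot : l.NeBot
  le_atTop : l ≤ atTop
  diff : ∀ n : ℕ, DifferentiableOn ℂ (F n) (ball 0 (n + 1))
  mem : ∀ n : ℕ, ∀ z ∈ ball (0 : ℂ) (n + 1), F n z ∈ K
  hol : Differentiable ℂ H
  ne : ∀ z, H z ≠ 0
  zero : ConvAt l F H 0
  conv : ∀ z₀ : ℂ, ∀ᶠ z in 𝓝[≠] z₀, ConvAt l F H z

/-- All limits of order at most two of discs in `K`, which are not constant as maps into projective space, lie in `B`. -/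
def LimMod2 {V : Type} [NormedAddCommGroup V] [NormedSpace ℂ V] (K B : Set V) : Prop :=
  ∀ (l : Filter ℕ) (F : ℕ → ℂ → V) (H : ℂ → V), IsLimit K l F H → (∀ z, H z ∈ closure K) → H 0 ∈ K →
    (∀ z, ConvAt l F H z → H z ∈ K) → (∃ z w, ∀ c : ℂ, H z ≠ c • H w) → OrdTwo H → ∀ z, H z ∈ K → H z ∈ B

end Pool.Agent.H36.BPB

end

section

/-!
# BPB (port) MtA: the metric along a curve

* `mt_usc`: `F` and `deriv F` are continuous near `z`, `usc`.
* `mt_smul`: for `k` holomorphic without zeros at `z`: `(k F)' = k F' + k' F`, `inv`.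
* `mt_comp`: `(F ∘ φ)' = φ' F' ∘ φ`, `hom`.
* `mt_limit`: `F n → H` locally uniformly on a neighbourhood of `0`, then `F n 0 → H 0`, `(F n)' 0 → H' 0` (`TendstoLocallyUniformlyOn.deriv`), `usc` at `(H 0, H' 0)`.
-/

set_option autoImplicit false

namespace Pool.Agent.H36.BPB

attribute [-instance] ProperSMul.toContinuousSMul

open Filter Topology Metric
open Pool.Agent.H36.BP

variable {N : ℕ}

variable {K B : Set (EN N)} {G : EN N → EN N → ℝ} {ρ : EN N → ℝ} {M : ℕ} {c₀ C : ℝ}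

theorem mt_usc (hM : MD K B G ρ M c₀ C) {U : Set ℂ} (hU : IsOpen U) {F : ℂ → EN N} (hF : Curve K U F) :
    UpperSemicontinuousOn (mt G F) U := by
  intro z hz y hy
  have hA : AnalyticAt ℂ F z := hF.1.analyticAt (hU.mem_nhds hz)
  have hc : ContinuousAt (fun w => (F w, deriv F w)) z := hA.continuousAt.prodMk hA.deriv.continuousAt
  have h1 := hM.usc (F z) (hF.2 z hz) (deriv F z) y hy
  have h2 := hc.eventually h1
  filter_upwards [nhdsWithin_le_nhds h2, self_mem_nhdsWithin] with w hw hwU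
  exact hw (hF.2 w hwU)

theorem mt_nonneg (hM : MD K B G ρ M c₀ C) {F : ℂ → EN N} {z : ℂ} (hz : F z ∈ K) : 0 ≤ mt G F z := by
  exact hM.nonneg _ hz _

theorem mt_smul (hM : MD K B G ρ M c₀ C) {F : ℂ → EN N} {k : ℂ → ℂ} {z : ℂ} (hF : DifferentiableAt ℂ F z)
    (hk : DifferentiableAt ℂ k z) (hz : F z ∈ K) (h0 : k z ≠ 0) : mt G (fun z => k z • F z) z = mt G F z := by
  have h : deriv (fun z => k z • F z) z = k z • deriv F z + deriv k z • F z := by
    have := (hk.hasDerivAt.smul hF.hasDerivAt).deriv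
    exact this
  unfold mt
  rw [h]
  exact hM.inv (F z) hz (deriv F z) (k z) (deriv k z) h0

theorem mt_comp (hM : MD K B G ρ M c₀ C) {F : ℂ → EN N} {φ : ℂ → ℂ} {z : ℂ} (hF : DifferentiableAt ℂ F (φ z))
    (hφ : DifferentiableAt ℂ φ z) (hz : F (φ z) ∈ K) : mt G (fun z => F (φ z)) z = ‖deriv φ z‖ * mt G F (φ z) := by
  have h : deriv (fun z => F (φ z)) z = deriv φ z • deriv F (φ z) := by
    have := (HasDerivAt.scomp z hF.hasDerivAt hφ.hasDerivAt).deriv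
    exact this
  unfold mt
  rw [h]
  exact hM.hom (F (φ z)) hz (deriv F (φ z)) (deriv φ z)

theorem mt_limit (hM : MD K B G ρ M c₀ C) {κ : Type} {l : Filter κ} [l.NeBot] {F : κ → ℂ → EN N} {H : ℂ → EN N} {s : ℝ} (hs : 0 < s)
    (hF : ∀ᶠ n in l, Curve K (ball 0 s) (F n)) (hH : TendstoLocallyUniformlyOn F H l (ball 0 s)) (h0 : H 0 ∈ K) {a : ℝ}
    (ha : ∀ᶠ n in l, a ≤ mt G (F n) 0) : a ≤ mt G H 0 := by
  by_contra hlt
  rw [not_le] at hlt
  have hmem : (0 : ℂ) ∈ ball (0 : ℂ) s := mem_ball_self hs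
  have h1 : Tendsto (fun n => F n 0) l (𝓝 (H 0)) := hH.tendsto_at hmem
  have hd : TendstoLocallyUniformlyOn (deriv ∘ F) (deriv H) l (ball 0 s) :=
    hH.deriv (hF.mono fun n hn => hn.1) isOpen_ball
  have h2 : Tendsto (fun n => deriv (F n) 0) l (𝓝 (deriv H 0)) := hd.tendsto_at hmem
  have h3 : Tendsto (fun n => (F n 0, deriv (F n) 0)) l (𝓝 (H 0, deriv H 0)) := h1.prodMk_nhds h2
  have h4 := h3.eventually (hM.usc (H 0) h0 (deriv H 0) a hlt)
  obtain ⟨n, hn1, hn2, hn3⟩ := (h4.and (hF.and ha)).exists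
  have h5 : G (F n 0) (deriv (F n) 0) < a := hn1 (hn2.2 0 hmem)
  exact absurd hn3 (not_le.mpr h5)

theorem mt_const (hM : MD K B G ρ M c₀ C) {F : ℂ → EN N} {z : ℂ} (hz : F z ∈ K) {a : ℂ} (h : deriv F z = a • F z) : mt G F z = 0 := by
  have h1 : G (F z) 0 = 0 := by
    have := hM.hom (F z) hz 0 0
    simpa using this
  have h2 := hM.inv (F z) hz 0 1 a one_ne_zero
  rw [smul_zero, zero_add, one_smul, h1] at h2
  unfold mt
  rw [h, h2]

end Pool.Agent.H36.BPB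

end

section

/-!
# BPB (port) Char: bounded characteristic

`g₁` entire with `|Re g₁ - c₀ log|F|| ≤ 1` on `|z| = R` (`circle_approx`).  (1) `|F exp(-g₁/c₀)| ≤ e^(1/c₀)` on the circle, hence on the disc (maximum modulus for vector valued
functions, `Complex.norm_le_of_forall_mem_frontier_norm_le`).  (2) `u = mt G F |F|^(-c₀) |exp g₁| exp((4C+1)|z|²)` is upper semicontinuous on the closed disc, `Sub` exponent
`-C (mt)² + 4C + 1 ≥ 1 > 0` where `u > 0` (`sub`, `of_holo`, `exp_sq` with `t = z`), so `u(0) ≤ max over the circle ≤ 2 exp((4C+1)R²) e` (`max_principle`); `u(0) = |F 0|^(-c₀)|exp g₁(0)|`.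
`g = -g₁/c₀ - 1/c₀`: `|exp g F| ≤ 1` and `|exp(g 0) F 0| = (|F 0|^(-c₀)|exp g₁ 0|)^(-1/c₀) e^(-1/c₀) ≥ c`.
-/

set_option autoImplicit false

namespace Pool.Agent.H36.BPB

attribute [-instance] ProperSMul.toContinuousSMul

open Filter Topology Metric
open Pool.Agent.H36.BP

variable {N : ℕ}

variable {K B : Set (EN N)} {G : EN N → EN N → ℝ} {ρ : EN N → ℝ} {M : ℕ} {c₀ C : ℝ}

private theorem Char_usc {S : Set ℂ} {f h : ℂ → ℝ} (hf : UpperSemicontinuousOn f S)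
    (hh : ContinuousOn h S) (hpos : ∀ z ∈ S, 0 < h z) :
    UpperSemicontinuousOn (fun z => f z * h z) S := by
  intro x hx y hy
  have hx0 := hpos x hx
  have h1 : f x < y / h x := (lt_div_iff₀ hx0).2 hy
  obtain ⟨a, ha1, ha2⟩ := exists_between h1
  have h2 : a * h x < y := (lt_div_iff₀ hx0).1 ha2
  have h3 : ∀ᶠ z in 𝓝[S] x, a * h z < y :=
    ((continuousWithinAt_const.mul (hh x hx)).tendsto).eventually (gt_mem_nhds h2)
  filter_upwards [hf x hx a ha1, h3, self_mem_nhdsWithin] with z hz1 hz2 hz3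
  exact (mul_lt_mul_of_pos_right hz1 (hpos z hz3)).trans hz2

/-- the lower bound with the explicit constant -/
theorem char_boundE (hM : MD K B G ρ M c₀ C) {R : ℝ} (hR : 0 < R) : ∀ F, Curve K (ball 0 (R + 1)) F →
    mt G F 0 = 1 → (∀ z ∈ ball (0 : ℂ) (R + 1), mt G F z ≤ 2) → ∃ g : ℂ → ℂ, Differentiable ℂ g ∧
      (∀ z ∈ ball (0 : ℂ) R, ‖Complex.exp (g z) • F z‖ ≤ 1) ∧
      Real.exp (-(1 + Real.log (2 * Real.exp 1 * Real.exp ((4 * C + 1) * R ^ 2))) / c₀) ≤ ‖Complex.exp (g 0) • F 0‖ := by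
  have hc := hM.c₀_pos
  have hC := hM.C_nonneg
  set A : ℝ := 2 * Real.exp 1 * Real.exp ((4 * C + 1) * R ^ 2) with hA
  have hA0 : 0 < A := mul_pos (mul_pos two_pos (Real.exp_pos _)) (Real.exp_pos _)
  refine fun F hF h0 h2 => ?_
  have hsub : closedBall (0 : ℂ) R ⊆ ball (0 : ℂ) (R + 1) := closedBall_subset_ball (by linarith)
  have hne : ∀ z ∈ ball (0 : ℂ) (R + 1), 0 < ‖F z‖ := fun z hz =>
    norm_pos_iff.2 (hM.ne _ (hF.2 z hz))
  have hcont : ContinuousOn F (ball (0 : ℂ) (R + 1)) := hF.1.continuousOn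
  have hsph : sphere (0 : ℂ) R ⊆ ball (0 : ℂ) (R + 1) := sphere_subset_closedBall.trans hsub
  obtain ⟨g, hg, hgφ⟩ := circle_approx hR (fun z => c₀ * Real.log ‖F z‖)
    (continuousOn_const.mul ((hcont.mono hsph).norm.log fun z hz => (hne z (hsph hz)).ne'))
    one_pos
  have hexp : ∀ z ∈ ball (0 : ℂ) (R + 1), ‖Complex.exp (-(g z / c₀)) • F z‖ =
      Real.exp (-((g z).re / c₀) + Real.log ‖F z‖) := by
    intro z hz
    have h1 : (-(g z / (c₀ : ℂ))).re = -((g z).re / c₀) := by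
      rw [Complex.neg_re, Complex.div_ofReal_re]
    rw [norm_smul, Complex.norm_exp, h1, Real.exp_add, Real.exp_log (hne z hz)]
  -- the upper bound
  have hup : ∀ z ∈ ball (0 : ℂ) R, ‖Complex.exp (-(g z / c₀)) • F z‖ ≤ Real.exp (1 / c₀) := by
    intro z hz
    have hd : DiffContOnCl ℂ (fun z => Complex.exp (-(g z / c₀)) • F z) (ball (0 : ℂ) R) := by
      refine DifferentiableOn.diffContOnCl ?_
      rw [closure_ball _ hR.ne']
      exact ((hg.differentiableOn.div_const _).neg.cexp).smul (hF.1.mono hsub)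
    refine Complex.norm_le_of_forall_mem_frontier_norm_le isBounded_ball hd (fun w hw => ?_)
      (subset_closure hz)
    rw [frontier_ball _ hR.ne'] at hw
    rw [hexp w (hsph hw), Real.exp_le_exp]
    have h1 := (abs_le.1 (hgφ w hw)).1
    have h3 : Real.log ‖F w‖ ≤ (1 + (g w).re) / c₀ := by
      rw [le_div_iff₀ hc]
      linarith
    rw [add_div] at h3
    linarith
  -- the lower bound
  have hlow : ‖F 0‖ ^ (-c₀) * ‖Complex.exp (g 0)‖ ≤ A := by
    have husc : UpperSemicontinuousOn (fun z => mt G F z * (‖F z‖ ^ (-c₀) * ‖Complex.exp (g z)‖ *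
        Real.exp ((4 * C + 1) * ‖z‖ ^ 2))) (closedBall (0 : ℂ) R) := by
      refine Char_usc ((mt_usc hM isOpen_ball hF).mono hsub) ?_ ?_
      · refine ContinuousOn.mul (ContinuousOn.mul ?_ ?_) ?_
        · exact (hcont.mono hsub).norm.rpow_const fun z hz => Or.inl (hne z (hsub hz)).ne'
        · exact (hg.continuous.cexp).norm.continuousOn
        · exact (Real.continuous_exp.comp
            (continuous_const.mul (continuous_norm.pow 2))).continuousOn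
      · intro z hz
        exact mul_pos (mul_pos (Real.rpow_pos_of_pos (hne z (hsub hz)) _)
          (norm_pos_iff.2 (Complex.exp_ne_zero _))) (Real.exp_pos _)
    have hmp := max_principle (isCompact_closedBall (0 : ℂ) R) isOpen_ball ball_subset_closedBall
      husc (fun z hz hz0 => ?_) hA0.le (fun z hz => ?_) 0 (mem_closedBall_self hR.le)
    · rw [h0, one_mul, norm_zero] at hmp
      norm_num at hmp
      exact hmp
    · have hzb : z ∈ ball (0 : ℂ) (R + 1) := hsub (ball_subset_closedBall hz)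
      have hnh : ball (0 : ℂ) (R + 1) ∈ 𝓝 z := isOpen_ball.mem_nhds hzb
      have han : AnalyticAt ℂ F z := hF.1.analyticAt hnh
      have hm0 : 0 < mt G F z := by
        by_contra h3
        have h4 : mt G F z ≤ 0 := not_lt.1 h3
        have h5 : 0 < ‖F z‖ ^ (-c₀) * ‖Complex.exp (g z)‖ *
            Real.exp ((4 * C + 1) * ‖z‖ ^ 2) :=
          mul_pos (mul_pos (Real.rpow_pos_of_pos (hne z hzb) _)
            (norm_pos_iff.2 (Complex.exp_ne_zero _))) (Real.exp_pos _)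
        exact absurd hz0 (not_lt.2 (mul_nonpos_of_nonpos_of_nonneg h4 h5.le))
      have hs1 := hM.sub F z han (Filter.eventually_of_mem hnh fun w hw => hF.2 w hw) hm0
      have hs2 : Sub (fun z => ‖Complex.exp (g z)‖) z 0 :=
        Sub.of_holo ((hg.analyticAt z).cexp) (Complex.exp_ne_zero _)
      have hs3 : Sub (fun z => Real.exp ((4 * C + 1) * ‖z‖ ^ 2)) z
          ((4 * C + 1) * ‖deriv (fun z : ℂ => z) z‖ ^ 2) := Sub.exp_sq analyticAt_id _
      have hs4 := (hs1.mul hs2).mul hs3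
      refine ⟨_, ?_, hs4.congr (Filter.Eventually.of_forall fun w => ?_)⟩
      · have h3 : deriv (fun z : ℂ => z) z = 1 := deriv_id z
        rw [h3, norm_one, one_pow, mul_one, add_zero]
        have h4 := h2 z hzb
        have h5 : mt G F z ^ 2 ≤ 4 := by nlinarith
        nlinarith
      · ring
    · have hz1 : z ∈ sphere (0 : ℂ) R := by
        rw [← closedBall_sdiff_ball]
        exact hz
      have hzb := hsph hz1
      have hzn : ‖z‖ = R := mem_sphere_zero_iff_norm.1 hz1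
      have h1 := (abs_le.1 (hgφ z hz1)).2
      have h3 : ‖F z‖ ^ (-c₀) * ‖Complex.exp (g z)‖ ≤ Real.exp 1 := by
        rw [Complex.norm_exp, Real.rpow_def_of_pos (hne z hzb), ← Real.exp_add, Real.exp_le_exp]
        linarith
      have h4 : mt G F z ≤ 2 := h2 z hzb
      have h5 : 0 ≤ ‖F z‖ ^ (-c₀) * ‖Complex.exp (g z)‖ :=
        mul_nonneg (Real.rpow_nonneg (norm_nonneg _) _) (norm_nonneg _)
      rw [hzn, hA, ← mul_assoc]
      refine mul_le_mul_of_nonneg_right ?_ (Real.exp_pos _).le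
      exact mul_le_mul h4 h3 h5 two_pos.le
  have h0b : (0 : ℂ) ∈ ball (0 : ℂ) (R + 1) := mem_ball_self (by linarith)
  refine ⟨fun z => -(g z / c₀) - 1 / c₀, (hg.div_const _).neg.sub_const _, fun z hz => ?_, ?_⟩
  · have h1 := hup z hz
    have h3 : Complex.exp (-(g z / c₀) - 1 / c₀) • F z =
        Complex.exp (-(1 / c₀ : ℂ)) • (Complex.exp (-(g z / c₀)) • F z) := by
      rw [smul_smul, ← Complex.exp_add]
      congr 2
      ring
    have h4 : ‖Complex.exp (-(1 / c₀ : ℂ))‖ = Real.exp (-(1 / c₀)) := by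
      rw [Complex.norm_exp]
      congr 1
      rw [Complex.neg_re, ← Complex.ofReal_one, ← Complex.ofReal_div, Complex.ofReal_re]
    rw [h3, norm_smul, h4]
    calc Real.exp (-(1 / c₀)) * ‖Complex.exp (-(g z / c₀)) • F z‖
        ≤ Real.exp (-(1 / c₀)) * Real.exp (1 / c₀) :=
          mul_le_mul_of_nonneg_left h1 (Real.exp_pos _).le
      _ = 1 := by rw [← Real.exp_add, neg_add_cancel, Real.exp_zero]
  · have h3 : Complex.exp (-(g 0 / c₀) - 1 / c₀) • F 0 =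
        Complex.exp (-(1 / c₀ : ℂ)) • (Complex.exp (-(g 0 / c₀)) • F 0) := by
      rw [smul_smul, ← Complex.exp_add]
      congr 2
      ring
    have h4 : ‖Complex.exp (-(1 / c₀ : ℂ))‖ = Real.exp (-(1 / c₀)) := by
      rw [Complex.norm_exp]
      congr 1
      rw [Complex.neg_re, ← Complex.ofReal_one, ← Complex.ofReal_div, Complex.ofReal_re]
    show _ ≤ ‖Complex.exp (-(g 0 / c₀) - 1 / c₀) • F 0‖
    rw [h3, norm_smul, h4, hexp 0 h0b, ← Real.exp_add, Real.exp_le_exp]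
    rw [Complex.norm_exp, Real.rpow_def_of_pos (hne 0 h0b), ← Real.exp_add] at hlow
    have h5 : Real.log ‖F 0‖ * -c₀ + (g 0).re ≤ Real.log A := by
      have h6 := Real.log_le_log (Real.exp_pos _) hlow
      rwa [Real.log_exp] at h6
    have h7 : ((g 0).re - Real.log A) / c₀ ≤ Real.log ‖F 0‖ := by
      rw [div_le_iff₀ hc]
      linarith
    rw [sub_div] at h7
    have h8 : -(1 + Real.log A) / c₀ = -(1 / c₀) - Real.log A / c₀ := by ring
    rw [h8]
    linarith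

/-- the lower bound: the characteristic function grows at most like `R²` -/
theorem char_bound2 (hM : MD K B G ρ M c₀ C) : ∃ C₁ : ℝ, 0 ≤ C₁ ∧ ∀ R : ℝ, 0 < R → ∀ F, Curve K (ball 0 (R + 1)) F →
    mt G F 0 = 1 → (∀ z ∈ ball (0 : ℂ) (R + 1), mt G F z ≤ 2) → ∃ g : ℂ → ℂ, Differentiable ℂ g ∧
      (∀ z ∈ ball (0 : ℂ) R, ‖Complex.exp (g z) • F z‖ ≤ 1) ∧ Real.exp (-(C₁ * (1 + R ^ 2))) ≤ ‖Complex.exp (g 0) • F 0‖ := by
  have hc := hM.c₀_pos
  have hC := hM.C_nonneg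
  refine ⟨(4 * C + 4) / c₀, by positivity, fun R hR F hF h0 h2 => ?_⟩
  obtain ⟨g, h3, h4, h5⟩ := char_boundE hM hR F hF h0 h2
  refine ⟨g, h3, h4, le_trans (Real.exp_le_exp.mpr ?_) h5⟩
  rw [Real.log_mul (by positivity) (by positivity), Real.log_mul (by positivity) (by positivity), Real.log_exp, Real.log_exp]
  have h6 : Real.log 2 ≤ 1 := by
    have := Real.log_two_lt_d9
    linarith
  rw [neg_div, neg_le_neg_iff, div_mul_eq_mul_div, div_le_div_iff_of_pos_right hc]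
  nlinarith [sq_nonneg R]

end Pool.Agent.H36.BPB

end

section

/-!
# BPB (port) ExtA: growth at the puncture

`z ≠ 0`, `|z| < 1`, `z = exp w₀`, `R = log(1/|z|) = -Re w₀`.  The curve `ζ ↦ F(exp(w₀ + R ζ))` is defined for `|ζ| < 1` (`Re(w₀ + Rζ) < 0`); `mt_comp` with `φ ζ = exp(w₀ + Rζ)`, `|φ'(0)| = R|z|`.
-/

set_option autoImplicit false

namespace Pool.Agent.H36.BPB

attribute [-instance] ProperSMul.toContinuousSMul

open Filter Topology Metric
open Pool.Agent.H36.BP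

variable {N : ℕ}

variable {K B : Set (EN N)} {G : EN N → EN N → ℝ} {ρ : EN N → ℝ} {M : ℕ} {c₀ C : ℝ}

theorem growth (hM : MD K B G ρ M c₀ C) {L : ℝ} (hL : ∀ F, Curve K (ball 0 1) F → mt G F 0 ≤ L) {F : ℂ → EN N}
    (hF : Curve K (ball 0 1 \ {0}) F) {z : ℂ} (hz : z ≠ 0) (hz1 : ‖z‖ < 1) :
    mt G F z * (‖z‖ * Real.log (1 / ‖z‖)) ≤ L := by
  have hzp : 0 < ‖z‖ := norm_pos_iff.2 hz
  obtain ⟨R, hR⟩ : ∃ R : ℝ, R = Real.log (1 / ‖z‖) := ⟨_, rfl⟩
  have hR0 : 0 < R := by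
    rw [hR]
    exact Real.log_pos (by rw [lt_div_iff₀ hzp]; linarith)
  have hRl : R = -Real.log ‖z‖ := by rw [hR, one_div, Real.log_inv]
  rw [← hR]
  obtain ⟨φ, hφ⟩ : ∃ φ : ℂ → ℂ, φ = fun ζ => Complex.exp (Complex.log z + R * ζ) := ⟨_, rfl⟩
  have hφd : ∀ ζ, HasDerivAt φ (Complex.exp (Complex.log z + R * ζ) * R) ζ := by
    intro ζ
    rw [hφ]
    have h1 : HasDerivAt (fun ζ : ℂ => Complex.log z + R * ζ) ((R : ℂ) * 1) ζ :=
      ((hasDerivAt_id' ζ).const_mul (R : ℂ)).const_add _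
    rw [mul_one] at h1
    exact h1.cexp
  have hφ0 : φ 0 = z := by
    rw [hφ]
    simp only [mul_zero, add_zero]
    exact Complex.exp_log hz
  have hφm : ∀ ζ ∈ ball (0 : ℂ) 1, φ ζ ∈ ball (0 : ℂ) 1 \ {0} := by
    intro ζ hζ
    rw [mem_ball_zero_iff] at hζ
    have h1 : ζ.re < 1 := lt_of_le_of_lt (Complex.re_le_norm ζ) hζ
    refine ⟨?_, ?_⟩
    · rw [mem_ball_zero_iff, hφ]
      simp only
      rw [Complex.norm_exp, Real.exp_lt_one_iff, Complex.add_re, Complex.log_re, Complex.re_ofReal_mul]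
      have h2 : R * ζ.re < R * 1 := mul_lt_mul_of_pos_left h1 hR0
      linarith
    · rw [Set.mem_singleton_iff, hφ]
      exact Complex.exp_ne_zero _
  have hopen : IsOpen (ball (0 : ℂ) 1 \ {0}) := isOpen_ball.sdiff isClosed_singleton
  have hFd : ∀ w ∈ ball (0 : ℂ) 1 \ {0}, DifferentiableAt ℂ F w := fun w hw =>
    hF.1.differentiableAt (hopen.mem_nhds hw)
  have hcurve : Curve K (ball 0 1) (fun ζ => F (φ ζ)) := by
    refine ⟨fun ζ hζ => ?_, fun ζ hζ => hF.2 _ (hφm ζ hζ)⟩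
    exact ((hFd _ (hφm ζ hζ)).comp ζ (hφd ζ).differentiableAt).differentiableWithinAt
  have hzm : z ∈ ball (0 : ℂ) 1 \ {0} := by
    have := hφm 0 (mem_ball_self one_pos)
    rwa [hφ0] at this
  have h1 := hL _ hcurve
  rw [mt_comp hM (by rw [hφ0]; exact hFd z hzm) (hφd 0).differentiableAt
    (by rw [hφ0]; exact hF.2 z hzm), hφ0, (hφd 0).deriv, mul_zero, add_zero, Complex.exp_log hz,
    norm_mul, Complex.norm_real, Real.norm_of_nonneg hR0.le] at h1
  rw [mul_comm]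
  exact h1

end Pool.Agent.H36.BPB

end

section

/-!
# BPB Lim: the limit curve for an arbitrary open part

As in `BP/Lim.lean`.  At a point where the normalised lifts `F_n^R` tend to a function with a zero (a bubbling point) nothing is known; these points are isolated.  So the set
`A = {z : H w ∉ K for all w ≠ z near z}` is open and closed (a punctured disc is connected).
-/

set_option autoImplicit false

namespace Pool.Agent.H36.BPB

attribute [-instance] ProperSMul.toContinuousSMul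

open Filter Topology Metric
open Pool.Agent.H36.BP

variable {N : ℕ}

variable {K B : Set (EN N)} {G : EN N → EN N → ℝ} {ρ : EN N → ℝ} {M : ℕ} {c₀ C : ℝ}

/-- The coordinate `i`. -/
private noncomputable def Lim_pr (i : Fin (N + 1)) : EN N →L[ℂ] ℂ := EuclideanSpace.proj i

private lemma Lim_exists_coord {w : EN N} (hw : w ≠ 0) : ∃ j, w j ≠ 0 := by
  by_contra h
  push Not at h
  apply hw
  ext j
  exact h j

private lemma Lim_prop {v w : EN N} (hw : w ≠ 0) (h : ∀ i j, v i * w j = v j * w i) :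
    ∃ c : ℂ, v = c • w := by
  obtain ⟨j, hj⟩ := Lim_exists_coord hw
  refine ⟨v j / w j, ?_⟩
  ext i
  rw [PiLp.smul_apply, smul_eq_mul, div_mul_eq_mul_div, eq_div_iff hj]
  exact h i j

private lemma Lim_cont_minor {X : Type} [TopologicalSpace X] {f g : X → EN N} {x : X}
    (hf : ContinuousAt f x) (hg : ContinuousAt g x) (i j : Fin (N + 1)) :
    ContinuousAt (fun y => f y i * g y j - f y j * g y i) x := by
  have hc : ∀ (f : X → EN N), ContinuousAt f x → ∀ i, ContinuousAt (fun y => f y i) x := by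
    intro f hf i
    exact (Lim_pr i).continuous.continuousAt.comp hf
  exact ((hc f hf i).mul (hc g hg j)).sub ((hc f hf j).mul (hc g hg i))

/-- Gluing of local lifts. -/
private lemma Lim_glue (Hs : ℕ → ℂ → EN N)
    (hd : ∀ R : ℕ, DifferentiableOn ℂ (Hs R) (ball 0 (R + 1))) (h0 : ∀ R, Hs R 0 ≠ 0)
    (hp : ∀ (R S : ℕ) (z : ℂ), z ∈ ball (0 : ℂ) (R + 1) → z ∈ ball (0 : ℂ) (S + 1) →
      ∀ i j, Hs R z i * Hs S z j = Hs R z j * Hs S z i) :
    ∃ H : ℂ → EN N, Differentiable ℂ H ∧ (∀ z, H z ≠ 0) ∧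
      ∀ (R : ℕ), ∀ z₀ ∈ ball (0 : ℂ) (R + 1), ∃ (k : ℕ) (u : ℂ → ℂ), AnalyticAt ℂ u z₀ ∧
        u z₀ ≠ 0 ∧ ∀ᶠ w in 𝓝 z₀, Hs R w = (w - z₀) ^ k • (u w • H w) := by
  classical
  -- local factorisation
  have hfac : ∀ (R : ℕ), ∀ z₀ ∈ ball (0 : ℂ) (R + 1), ∃ (k : ℕ) (φ : ℂ → EN N),
      AnalyticAt ℂ φ z₀ ∧ φ z₀ ≠ 0 ∧ ∀ᶠ w in 𝓝 z₀, Hs R w = (w - z₀) ^ k • φ w := by
    intro R z₀ hz₀
    have ha : AnalyticAt ℂ (Hs R) z₀ := (hd R).analyticAt (isOpen_ball.mem_nhds hz₀)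
    rw [ha.exists_eventuallyEq_pow_smul_nonzero_iff]
    intro hcon
    have hon : AnalyticOnNhd ℂ (Hs R) (ball 0 (R + 1)) := fun w hw =>
      (hd R).analyticAt (isOpen_ball.mem_nhds hw)
    have h1 := hon.eqOn_zero_of_preconnected_of_eventuallyEq_zero
      (convex_ball (0 : ℂ) (R + 1)).isPreconnected hz₀ hcon
    exact h0 R (h1 (mem_ball_self (by positivity)))
  have hmem : ∀ z : ℂ, z ∈ ball (0 : ℂ) ((⌈‖z‖⌉₊ : ℕ) + 1) := by
    intro z
    rw [mem_ball_zero_iff]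
    have := Nat.le_ceil ‖z‖
    linarith
  choose k φ hφa hφ0 hφe using fun z : ℂ => hfac ⌈‖z‖⌉₊ z (hmem z)
  -- any local factor is proportional to φ
  have hcmp : ∀ (R : ℕ), ∀ z₀ ∈ ball (0 : ℂ) (R + 1), ∀ (m : ℕ) (ψ : ℂ → EN N),
      AnalyticAt ℂ ψ z₀ → (∀ᶠ w in 𝓝 z₀, Hs R w = (w - z₀) ^ m • ψ w) →
      ∀ᶠ z in 𝓝 z₀, ∀ i j, φ z z i * ψ z j = φ z z j * ψ z i := by
    intro R z₀ hz₀ m ψ hψa hψe
    filter_upwards [hψe.eventually_nhds, hψa.eventually_analyticAt,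
      isOpen_ball.mem_nhds hz₀] with z h1 h2 h3 i j
    -- near z
    have h4 : ∀ᶠ w in 𝓝[≠] z, φ z w i * ψ w j - φ z w j * ψ w i = 0 := by
      have hne0 : ∀ᶠ w in 𝓝[≠] z, w ≠ z₀ := by
        by_cases hz : z = z₀
        · rw [hz]
          exact self_mem_nhdsWithin
        · exact (eventually_ne_nhds hz).filter_mono nhdsWithin_le_nhds
      filter_upwards [h1.filter_mono nhdsWithin_le_nhds, hne0, self_mem_nhdsWithin,
        (hφe z).filter_mono nhdsWithin_le_nhds,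
        nhdsWithin_le_nhds (isOpen_ball.mem_nhds (hmem z)),
        nhdsWithin_le_nhds (isOpen_ball.mem_nhds h3)] with w a1 a2 a3 a4 a5 a6
      have h5 := hp ⌈‖z‖⌉₊ R w a5 a6 i j
      rw [a4, a1] at h5
      simp only [PiLp.smul_apply, smul_eq_mul] at h5
      have h6 : (w - z) ^ k z ≠ 0 := pow_ne_zero _ (sub_ne_zero.2 a3)
      have h7 : (w - z₀) ^ m ≠ 0 := pow_ne_zero _ (sub_ne_zero.2 a2)
      have h8 : (w - z) ^ k z * (w - z₀) ^ m * (φ z w i * ψ w j - φ z w j * ψ w i) = 0 := by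
        linear_combination h5
      rcases mul_eq_zero.1 h8 with h | h
      · exact absurd h (mul_ne_zero h6 h7)
      · exact h
    have h5 : Tendsto (fun w => φ z w i * ψ w j - φ z w j * ψ w i) (𝓝[≠] z)
        (𝓝 (φ z z i * ψ z j - φ z z j * ψ z i)) :=
      ((Lim_cont_minor (hφa z).continuousAt h2.continuousAt i j).tendsto).mono_left
        nhdsWithin_le_nhds
    have h6 : Tendsto (fun w => φ z w i * ψ w j - φ z w j * ψ w i) (𝓝[≠] z) (𝓝 0) :=
      (tendsto_congr' h4).2 tendsto_const_nhds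
    exact sub_eq_zero.1 (tendsto_nhds_unique h5 h6)
  have hofne : ∀ v : EN N, v ≠ 0 → v.ofLp ≠ 0 := by
    intro v hv h
    apply hv
    ext j
    exact congrFun h j
  set f : ℂ → Pool.Agent.H17.PN N := fun z => Projectivization.mk ℂ (φ z z).ofLp
    (hofne _ (hφ0 z)) with hf
  have hfhol : Pool.Agent.H17.HolomorphicInto f Set.univ := by
    intro z₀ _
    refine ⟨fun w => (φ z₀ w).ofLp, ?_, ?_⟩
    · rw [analyticAt_pi_iff]
      intro j
      exact ((Lim_pr j).analyticAt _).comp (hφa z₀)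
    · filter_upwards [hcmp ⌈‖z₀‖⌉₊ z₀ (hmem z₀) (k z₀) (φ z₀) (hφa z₀) (hφe z₀),
        (hφa z₀).continuousAt.eventually_ne (hφ0 z₀)] with z h1 h2
      refine ⟨hofne _ h2, ?_⟩
      obtain ⟨c, hc⟩ := Lim_prop h2 h1
      rw [hf, Projectivization.mk_eq_mk_iff']
      exact ⟨c, by rw [hc]; rfl⟩
  obtain ⟨x, hx⟩ := Pool.Agent.H17.exists_global_lift hfhol
  refine ⟨fun z => WithLp.toLp 2 (fun j => (x j : ℂ → ℂ) z), ?_, ?_, ?_⟩
  · have h1 : Differentiable ℂ (fun z => (fun j => (x j : ℂ → ℂ) z)) :=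
      differentiable_pi.2 fun j => (x j).diff
    exact (PiLp.continuousLinearEquiv 2 ℂ (fun _ : Fin (N + 1) => ℂ)).symm.differentiable.comp h1
  · intro z h
    obtain ⟨h1, _⟩ := hx z
    apply h1
    funext j
    exact congrArg (fun v : EN N => v j) h
  · intro R z₀ hz₀
    obtain ⟨m, ψ, hψa, hψ0, hψe⟩ := hfac R z₀ hz₀
    have hH : ∀ z, ∀ i j, φ z z i * (x j : ℂ → ℂ) z = φ z z j * (x i : ℂ → ℂ) z := by
      intro z i j
      obtain ⟨h1, h2⟩ := hx z
      obtain ⟨c, hc, h3⟩ := Pool.Agent.H17.mk_eq_mk_cross h2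
      have e1 : φ z z i = c * (x i : ℂ → ℂ) z := h3 i
      have e2 : φ z z j = c * (x j : ℂ → ℂ) z := h3 j
      rw [e1, e2]
      ring
    have hprop : ∀ᶠ z in 𝓝 z₀, ∀ i j, ψ z i * (x j : ℂ → ℂ) z = ψ z j * (x i : ℂ → ℂ) z := by
      filter_upwards [hcmp R z₀ hz₀ m ψ hψa hψe] with z h1 i j
      obtain ⟨l, hl⟩ := Lim_exists_coord (hφ0 z)
      have e1 := h1 l i
      have e2 := h1 l j
      have e3 := hH z l i
      have e4 := hH z l j
      have h5 : (φ z z l) * (φ z z l) * (ψ z i * (x j : ℂ → ℂ) z) =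
          (φ z z l) * (φ z z l) * (ψ z j * (x i : ℂ → ℂ) z) := by
        linear_combination (φ z z l * (x j : ℂ → ℂ) z) * e1 - (φ z z l * (x i : ℂ → ℂ) z) * e2 +
          (φ z z i * ψ z l) * e4 - (φ z z j * ψ z l) * e3
      exact mul_left_cancel₀ (mul_ne_zero hl hl) h5
    obtain ⟨l, hl⟩ : ∃ l, (x l : ℂ → ℂ) z₀ ≠ 0 := by
      obtain ⟨h1, _⟩ := hx z₀
      by_contra hcon
      push Not at hcon
      exact h1 (funext hcon)
    have hψl : AnalyticAt ℂ (fun z => ψ z l) z₀ :=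
      ((Lim_pr l).analyticAt _).comp hψa
    have hloc : ∀ᶠ w in 𝓝 z₀, ψ w = (ψ w l / (x l : ℂ → ℂ) w) •
        (WithLp.toLp 2 (fun j => (x j : ℂ → ℂ) w) : EN N) := by
      filter_upwards [hprop, (x l).diff.continuous.continuousAt.eventually_ne hl] with w h1 h2
      ext i
      rw [PiLp.smul_apply, smul_eq_mul, div_mul_eq_mul_div, eq_div_iff h2]
      exact h1 i l
    refine ⟨m, fun w => ψ w l / (x l : ℂ → ℂ) w, hψl.div ((x l).analyticAt z₀) hl, ?_, ?_⟩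
    · intro h
      apply hψ0
      rw [hloc.self_of_nhds]
      have h' : ψ z₀ l / (x l : ℂ → ℂ) z₀ = 0 := h
      rw [h', zero_smul]
    · filter_upwards [hψe, hloc] with w h1 h2
      rw [h1]
      exact congrArg _ h2

private theorem Lim_preconn (z₀ : ℂ) (ρ : ℝ) : IsPreconnected (ball z₀ ρ \ {z₀}) := by
  have h1 : IsPreconnected (Set.Ioo (0 : ℝ) ρ ×ˢ (Set.univ : Set ℝ)) := isPreconnected_Ioo.prod isPreconnected_univ
  have h2 := h1.image (fun p : ℝ × ℝ => z₀ + (p.1 : ℂ) * Complex.exp (p.2 * Complex.I))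
    (by fun_prop : Continuous fun p : ℝ × ℝ => z₀ + (p.1 : ℂ) * Complex.exp (p.2 * Complex.I)).continuousOn
  convert h2 using 1
  ext z
  constructor
  · rintro ⟨hz, hne⟩
    refine ⟨(‖z - z₀‖, Complex.arg (z - z₀)), ⟨⟨?_, ?_⟩, Set.mem_univ _⟩, ?_⟩
    · exact norm_pos_iff.2 (sub_ne_zero.2 hne)
    · simpa [dist_eq_norm] using hz
    · simp only
      rw [Complex.norm_mul_exp_arg_mul_I]
      ring
  · rintro ⟨⟨s, t⟩, ⟨⟨h3, h4⟩, _⟩, rfl⟩
    have h5 : ‖(s : ℂ) * Complex.exp (t * Complex.I)‖ = s := by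
      rw [norm_mul, Complex.norm_exp_ofReal_mul_I, mul_one, Complex.norm_real, Real.norm_of_nonneg h3.le]
    refine ⟨?_, ?_⟩
    · simp only [mem_ball, dist_eq_norm, add_sub_cancel_left]
      rw [h5]
      exact h4
    · intro h6
      have h7 : (s : ℂ) * Complex.exp (t * Complex.I) = 0 := by
        simpa using h6
      rw [h7, norm_zero] at h5
      simp only at h3
      linarith

/-- the limit curve, with the growth -/
theorem limit_curveB (hM : MD K B G ρ M c₀ C) (F : ℕ → ℂ → EN N) (hF : ∀ n : ℕ, Curve K (ball 0 (n + 1)) (F n))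
    (h0 : ∀ n, mt G (F n) 0 = 1) (c' : ℕ → ℝ) (hc' : ∀ R, 1 ≤ R → 0 < c' R)
    (hchar : ∀ R : ℕ, 1 ≤ R → ∀ n, R ≤ n → ∃ g : ℂ → ℂ, Differentiable ℂ g ∧
      (∀ z ∈ ball (0 : ℂ) R, ‖Complex.exp (g z) • F n z‖ ≤ 1) ∧ c' R ≤ ‖Complex.exp (g 0) • F n 0‖) :
    ∃ (l : Filter ℕ) (H : ℂ → EN N), IsLimit K l F H ∧ (∀ z, H z ∈ closure K) ∧ H 0 ∈ K ∧ (∀ z, ConvAt l F H z → H z ∈ K) ∧
      1 ≤ mt G H 0 ∧ ∀ R : ℕ, 1 ≤ R → ∃ HR : ℂ → EN N, DifferentiableOn ℂ HR (ball 0 R) ∧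
      (∀ z ∈ ball (0 : ℂ) R, ‖HR z‖ ≤ 1) ∧ c' R ≤ ‖HR 0‖ ∧ ∀ z ∈ ball (0 : ℂ) R, HR z = 0 ∨ ∃ k : ℂ, k ≠ 0 ∧ H z = k • HR z := by
  classical
  set 𝒰 : Ultrafilter ℕ := hyperfilter ℕ with h𝒰
  have h𝒰top : (𝒰 : Filter ℕ) ≤ atTop := by
    rw [← Nat.cofinite_eq_atTop]
    exact hyperfilter_le_cofinite
  -- the normalised curves
  set c : ℕ → ℝ := fun R => c' (R + 1) with hcdef
  have hc : ∀ R, 0 < c R := fun R => hc' (R + 1) (by omega)
  have hch : ∀ R : ℕ, ∃ g : ℕ → ℂ → ℂ, ∀ n, R + 1 ≤ n → Differentiable ℂ (g n) ∧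
      (∀ z ∈ ball (0 : ℂ) (R + 1), ‖Complex.exp (g n z) • F n z‖ ≤ 1) ∧
      c R ≤ ‖Complex.exp (g n 0) • F n 0‖ := by
    intro R
    have h1 := hchar (R + 1) (by omega)
    refine ⟨fun n => if h : R + 1 ≤ n then (h1 n h).choose else 0, fun n hn => ?_⟩
    have h2 := (h1 n hn).choose_spec
    simp only [hn, dite_true]
    refine ⟨h2.1, fun z hz => h2.2.1 z ?_, h2.2.2⟩
    push_cast
    exact hz
  choose g hg using hch
  set Fr : ℕ → ℕ → ℂ → EN N := fun R n z => Complex.exp (g R n z) • F n z with hFr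
  have hFrK : ∀ R n : ℕ, R + 1 ≤ n → Curve K (ball 0 (R + 1)) (Fr R n) := by
    intro R n hn
    have hsub : ball (0 : ℂ) (R + 1) ⊆ ball 0 (n + 1) := by
      apply ball_subset_ball
      have : (R : ℝ) ≤ n := by exact_mod_cast (by omega : R ≤ n)
      linarith
    refine ⟨?_, fun z hz => ?_⟩
    · exact ((hg R n hn).1.cexp.differentiableOn).smul ((hF n).1.mono hsub)
    · exact hM.smul _ ((hF n).2 z (hsub hz)) _ (Complex.exp_ne_zero _)
  have hev : ∀ R : ℕ, ∀ᶠ n in (𝒰 : Filter ℕ), R + 1 ≤ n := fun R =>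
    h𝒰top (eventually_ge_atTop (R + 1))
  have hmont : ∀ R : ℕ, ∃ h : ℂ → EN N, DifferentiableOn ℂ h (ball 0 (R + 1)) ∧
      TendstoLocallyUniformlyOn (Fr R) h (𝒰 : Filter ℕ) (ball 0 (R + 1)) := by
    intro R
    refine Pool.Agent.H17.montel_ultrafilter 𝒰 (B := 1) ?_ ?_
    · filter_upwards [hev R] with n hn
      exact (hFrK R n hn).1
    · filter_upwards [hev R] with n hn
      exact (hg R n hn).2.1
  choose Hs hHd hHc using hmont
  have hpt : ∀ (R : ℕ), ∀ z ∈ ball (0 : ℂ) (R + 1), Tendsto (fun n => Fr R n z) (𝒰 : Filter ℕ)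
      (𝓝 (Hs R z)) := fun R z hz => (hHc R).tendsto_at hz
  have hz0 : ∀ R : ℕ, (0 : ℂ) ∈ ball (0 : ℂ) (R + 1) := fun R => mem_ball_self (by positivity)
  have hHc0 : ∀ R, c R ≤ ‖Hs R 0‖ := by
    intro R
    have h1 := (hpt R 0 (hz0 R)).norm
    refine ge_of_tendsto h1 ?_
    filter_upwards [hev R] with n hn
    exact (hg R n hn).2.2
  have hHb : ∀ R : ℕ, ∀ z ∈ ball (0 : ℂ) (R + 1), ‖Hs R z‖ ≤ 1 := by
    intro R z hz
    refine le_of_tendsto (hpt R z hz).norm ?_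
    filter_upwards [hev R] with n hn
    exact (hg R n hn).2.1 z hz
  have hH0 : ∀ R, Hs R 0 ≠ 0 := by
    intro R h
    have h2 := hHc0 R
    rw [h, norm_zero] at h2
    exact absurd (hc R) (not_lt.2 h2)
  have hprop : ∀ (R S : ℕ) (z : ℂ), z ∈ ball (0 : ℂ) (R + 1) → z ∈ ball (0 : ℂ) (S + 1) →
      ∀ i j, Hs R z i * Hs S z j = Hs R z j * Hs S z i := by
    intro R S z hR hS i j
    have hco : ∀ (T : ℕ), z ∈ ball (0 : ℂ) (T + 1) → ∀ i, Tendsto (fun n => Fr T n z i)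
        (𝒰 : Filter ℕ) (𝓝 (Hs T z i)) := fun T hT i =>
      ((Lim_pr i).continuous.tendsto _).comp (hpt T z hT)
    have h1 : Tendsto (fun n => Fr R n z i * Fr S n z j) (𝒰 : Filter ℕ)
        (𝓝 (Hs R z i * Hs S z j)) := (hco R hR i).mul (hco S hS j)
    have h2 : Tendsto (fun n => Fr R n z j * Fr S n z i) (𝒰 : Filter ℕ)
        (𝓝 (Hs R z j * Hs S z i)) := (hco R hR j).mul (hco S hS i)
    refine tendsto_nhds_unique h1 (h2.congr fun n => ?_)
    simp only [hFr, PiLp.smul_apply, smul_eq_mul]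
    ring
  obtain ⟨H, hHdiff, hHne, hHloc⟩ := Lim_glue Hs hHd hH0 hprop
  -- membership is invariant under scaling
  have hsm : ∀ (x : EN N) (a : ℂ), a ≠ 0 → (a • x ∈ K ↔ x ∈ K) := by
    intro x a ha
    refine ⟨fun h => ?_, fun h => hM.smul x h a ha⟩
    have := hM.smul _ h a⁻¹ (inv_ne_zero ha)
    rwa [smul_smul, inv_mul_cancel₀ ha, one_smul] at this
  have hsmc : ∀ (x : EN N) (a : ℂ), a ≠ 0 → x ∈ closure K → a • x ∈ closure K := by
    intro x a ha hx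
    exact map_mem_closure (continuous_const_smul a) hx fun y hy => hM.smul y hy a ha
  have hHcl1 : ∀ (R : ℕ), ∀ z ∈ ball (0 : ℂ) (R + 1), Hs R z ∈ closure K := by
    intro R z hz
    refine mem_closure_of_tendsto (hpt R z hz) ?_
    filter_upwards [hev R] with n hn
    exact (hFrK R n hn).2 z hz
  have hmem : ∀ z : ℂ, z ∈ ball (0 : ℂ) ((⌈‖z‖⌉₊ : ℕ) + 1) := by
    intro z
    rw [mem_ball_zero_iff]
    have := Nat.le_ceil ‖z‖
    linarith
  have hHcl : ∀ z, H z ∈ closure K := by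
    intro z₀
    obtain ⟨k, u, hua, hu0, hue⟩ := hHloc _ z₀ (hmem z₀)
    have h1 : ∀ᶠ w in 𝓝[≠] z₀, H w ∈ closure K := by
      filter_upwards [hue.filter_mono nhdsWithin_le_nhds, self_mem_nhdsWithin,
        (hua.continuousAt.eventually_ne hu0).filter_mono nhdsWithin_le_nhds,
        nhdsWithin_le_nhds (isOpen_ball.mem_nhds (hmem z₀))] with w a1 a2 a3 a4
      have h2 := hHcl1 _ w a4
      rw [a1, smul_smul] at h2
      have h3 : (w - z₀) ^ k * u w ≠ 0 := mul_ne_zero (pow_ne_zero _ (sub_ne_zero.2 a2)) a3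
      have h4 := hsmc _ _ (inv_ne_zero h3) h2
      rwa [smul_smul, inv_mul_cancel₀ h3, one_smul] at h4
    have h2 : Tendsto H (𝓝[≠] z₀) (𝓝 (H z₀)) :=
      (hHdiff.continuous.tendsto z₀).mono_left nhdsWithin_le_nhds
    exact isClosed_closure.mem_of_tendsto h2 h1
  -- convergence to `H` where the normalised lifts do not tend to zero
  have hconv : ∀ (R : ℕ) (z : ℂ), z ∈ ball (0 : ℂ) (R + 1) → ∀ v : ℂ → ℂ, AnalyticAt ℂ v z → v z ≠ 0 →
      (∀ᶠ w in 𝓝 z, Hs R w = v w • H w) → ConvAt (𝒰 : Filter ℕ) F H z := by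
    intro R z hz v hva hv0 hve
    obtain ⟨s, hs, hsub⟩ := Metric.eventually_nhds_iff_ball.1
      ((hve.and (hva.eventually_analyticAt.and (hva.continuousAt.eventually_ne hv0))).and (isOpen_ball.mem_nhds hz))
    refine ⟨s, hs, fun n w => Complex.exp (g R n w) * (v w)⁻¹, ?_, ?_⟩
    · filter_upwards [hev R] with n hn
      refine ⟨fun w hw => ?_, fun w hw => mul_ne_zero (Complex.exp_ne_zero _) (inv_ne_zero (hsub w hw).1.2.2)⟩
      exact (((hg R n hn).1.cexp.differentiableAt).mul ((hsub w hw).1.2.1.differentiableAt.inv (hsub w hw).1.2.2)).differentiableWithinAt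
    · have h1 : TendstoLocallyUniformlyOn (fun (_ : ℕ) w => (v w)⁻¹) (fun w => (v w)⁻¹) (𝒰 : Filter ℕ) (ball z s) := by
        intro ε hε w _
        exact ⟨ball z s, self_mem_nhdsWithin, Filter.Eventually.of_forall fun n y _ => refl_mem_uniformity hε⟩
      have h2 : TendstoLocallyUniformlyOn (Fr R) (Hs R) (𝒰 : Filter ℕ) (ball z s) := (hHc R).mono fun w hw => (hsub w hw).2
      have h3 := h1.fun_smul₀ h2 (fun w hw => ((hsub w hw).1.2.1.continuousAt.inv₀ (hsub w hw).1.2.2).continuousWithinAt)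
        (((hHd R).mono fun w hw => (hsub w hw).2).continuousOn)
      refine (h3.congr_right fun w hw => ?_).congr fun n w hw => ?_
      · rw [(hsub w hw).1.1, smul_smul, inv_mul_cancel₀ (hsub w hw).1.2.2, one_smul]
      · simp only [hFr]
        rw [smul_smul, mul_comm]
  have hconvP : ∀ z₀ : ℂ, ∀ᶠ z in 𝓝[≠] z₀, ConvAt (𝒰 : Filter ℕ) F H z := by
    intro z₀
    obtain ⟨k, u, hua, hu0, hue⟩ := hHloc _ z₀ (hmem z₀)
    filter_upwards [hue.eventually_nhds.filter_mono nhdsWithin_le_nhds, hua.eventually_analyticAt.filter_mono nhdsWithin_le_nhds,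
      (hua.continuousAt.eventually_ne hu0).filter_mono nhdsWithin_le_nhds, self_mem_nhdsWithin,
      nhdsWithin_le_nhds (isOpen_ball.mem_nhds (hmem z₀))] with z a1 a2 a3 a4 a5
    refine hconv _ z a5 (fun w => (w - z₀) ^ k * u w) ?_ (mul_ne_zero (pow_ne_zero _ (sub_ne_zero.2 a4)) a3) ?_
    · exact ((analyticAt_id.sub analyticAt_const).pow k).mul a2
    · filter_upwards [a1] with w hw
      rw [hw, smul_smul]
  have hconv0 : ConvAt (𝒰 : Filter ℕ) F H 0 := by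
    obtain ⟨k, u, hua, hu0, hue⟩ := hHloc 0 0 (hz0 0)
    have hk : k = 0 := by
      by_contra hk
      have h1 := hue.self_of_nhds
      rw [sub_self, zero_pow hk, zero_smul] at h1
      exact hH0 0 h1
    subst hk
    refine hconv 0 0 (hz0 0) u hua hu0 ?_
    filter_upwards [hue] with w hw
    rw [hw, pow_zero, one_smul]
  have hlim : IsLimit K (𝒰 : Filter ℕ) F H :=
    ⟨inferInstance, h𝒰top, fun n => (hF n).1, fun n => (hF n).2, hHdiff, hHne, hconv0, hconvP⟩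
  -- at the points of convergence, the set of points outside `K` is open
  have hopen : ∀ z, ConvAt (𝒰 : Filter ℕ) F H z → H z ∉ K → ∀ᶠ w in 𝓝 z, H w ∉ K := by
    rintro z ⟨s, hs, φ, hφ, hφc⟩ hz
    refine hM.hur (𝒰 : Filter ℕ) inferInstance (fun n w => φ n w • F n w) H z s hs ?_ hHdiff.differentiableOn hφc (hHne z) hz
    filter_upwards [hφ, hev (⌈‖z‖ + s⌉₊)] with n h1 h2
    have hsub : ball z s ⊆ ball (0 : ℂ) (n + 1) := by
      intro w hw
      rw [mem_ball_zero_iff]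
      have h3 : ‖w - z‖ < s := by simpa [dist_eq_norm] using hw
      have h4 : ‖w‖ ≤ ‖z‖ + ‖w - z‖ := by
        calc ‖w‖ = ‖z + (w - z)‖ := by rw [add_sub_cancel]
          _ ≤ _ := norm_add_le _ _
      have h5 := Nat.le_ceil (‖z‖ + s)
      have h6 : ((⌈‖z‖ + s⌉₊ : ℕ) : ℝ) + 1 ≤ n := by exact_mod_cast h2
      linarith
    exact ⟨h1.1.smul ((hF n).1.mono hsub), fun w hw => hM.smul _ ((hF n).2 w (hsub hw)) _ (h1.2 w hw)⟩
  have hrel : ∀ z, H z ∈ K → ∀ᶠ w in 𝓝 z, H w ∈ K := by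
    intro z hz
    filter_upwards [hHdiff.continuous.continuousAt.eventually (hM.rel_open _ hz)] with w hw
    exact hw (hHcl w)
  -- the set of points with a punctured neighbourhood outside `K`
  set A : Set ℂ := {z | ∀ᶠ w in 𝓝[≠] z, H w ∉ K} with hA
  have hAopen : IsOpen A := by
    rw [isOpen_iff_mem_nhds]
    intro z hz
    obtain ⟨s, hs, hsz⟩ := Metric.eventually_nhds_iff_ball.1 (eventually_nhdsWithin_iff.1 hz)
    refine Filter.mem_of_superset (ball_mem_nhds z hs) fun w hw => ?_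
    show ∀ᶠ y in 𝓝[≠] w, H y ∉ K
    by_cases hwz : w = z
    · rw [hwz]
      exact hz
    · filter_upwards [nhdsWithin_le_nhds (isOpen_ball.mem_nhds hw), (eventually_ne_nhds hwz).filter_mono nhdsWithin_le_nhds] with y h1 h2
      exact hsz y h1 h2
  have hAclosed : IsClosed A := by
    rw [isClosed_iff_nhds]
    intro z₀ hz₀
    obtain ⟨s, hs, hsz⟩ := Metric.eventually_nhds_iff_ball.1 (eventually_nhdsWithin_iff.1 (hconvP z₀))
    have hP := Lim_preconn z₀ s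
    -- a point of the punctured ball outside `K`
    obtain ⟨z₁, hz₁b, hz₁A⟩ := hz₀ _ (ball_mem_nhds z₀ hs)
    obtain ⟨w, hwP, hwK⟩ : ∃ w, w ∈ ball z₀ s \ {z₀} ∧ H w ∉ K := by
      have h1 : ∀ᶠ w in 𝓝[≠] z₁, w ∈ ball z₀ s := nhdsWithin_le_nhds (isOpen_ball.mem_nhds hz₁b)
      have h2 : ∀ᶠ w in 𝓝[≠] z₁, w ≠ z₀ := by
        by_cases h : z₁ = z₀
        · rw [h]
          exact self_mem_nhdsWithin
        · exact (eventually_ne_nhds h).filter_mono nhdsWithin_le_nhds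
      obtain ⟨w, h3, h4, h5⟩ := (h1.and (h2.and (show ∀ᶠ w in 𝓝[≠] z₁, H w ∉ K from hz₁A))).exists
      exact ⟨w, ⟨h3, h4⟩, h5⟩
    have hall : ∀ y ∈ ball z₀ s \ {z₀}, H y ∉ K := by
      by_contra hcon
      push Not at hcon
      obtain ⟨y, hyP, hyK⟩ := hcon
      have hU : IsOpen {w : ℂ | w ∈ ball z₀ s \ {z₀} ∧ H w ∈ K} := by
        rw [isOpen_iff_mem_nhds]
        rintro w ⟨h1, h2⟩
        filter_upwards [(isOpen_ball.sdiff isClosed_singleton).mem_nhds h1, hrel w h2] with x h3 h4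
        exact ⟨h3, h4⟩
      have hV : IsOpen {w : ℂ | w ∈ ball z₀ s \ {z₀} ∧ H w ∉ K} := by
        rw [isOpen_iff_mem_nhds]
        rintro w ⟨h1, h2⟩
        filter_upwards [(isOpen_ball.sdiff isClosed_singleton).mem_nhds h1, hopen w (hsz w h1.1 h1.2) h2] with x h3 h4
        exact ⟨h3, h4⟩
      obtain ⟨x, -, ⟨-, h1⟩, ⟨-, h2⟩⟩ := hP _ _ hU hV (fun x hx => (em (H x ∈ K)).imp (fun h => ⟨hx, h⟩) fun h => ⟨hx, h⟩)
        ⟨y, hyP, hyP, hyK⟩ ⟨w, hwP, hwP, hwK⟩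
      exact h2 h1
    show ∀ᶠ w in 𝓝[≠] z₀, H w ∉ K
    filter_upwards [nhdsWithin_le_nhds (ball_mem_nhds z₀ hs), self_mem_nhdsWithin] with w h1 h2
    exact hall w ⟨h1, h2⟩
  -- the first curve near the origin
  obtain ⟨k, u, hua, hu0, hue⟩ := hHloc 0 0 (hz0 0)
  have hmt : ∀ n, 0 + 1 ≤ n → mt G (Fr 0 n) 0 = 1 := by
    intro n hn
    have hFn : DifferentiableAt ℂ (F n) 0 :=
      (hF n).1.differentiableAt (isOpen_ball.mem_nhds (hz0 n))
    have h1 := mt_smul hM hFn ((hg 0 n hn).1.cexp.differentiableAt (x := 0)) ((hF n).2 0 (hz0 n))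
      (Complex.exp_ne_zero _)
    rw [hFr, h1, h0]
  have hball := isOpen_ball.mem_nhds (hz0 0)
  obtain ⟨s, hs, hsub⟩ := Metric.eventually_nhds_iff_ball.1 (hue.and hball)
  have hcur0 : ∀ᶠ n in (𝒰 : Filter ℕ), Curve K (ball 0 s) (Fr 0 n) := by
    filter_upwards [hev 0] with n hn
    exact ⟨(hFrK _ n hn).1.mono fun w hw => (hsub w hw).2,
      fun w hw => (hFrK _ n hn).2 w (hsub w hw).2⟩
  have hconv0' : TendstoLocallyUniformlyOn (Fr 0) (Hs 0) (𝒰 : Filter ℕ) (ball 0 s) :=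
    (hHc 0).mono fun w hw => (hsub w hw).2
  have hAempty : A = ∅ := by
    rcases isClopen_iff.1 ⟨hAclosed, hAopen⟩ with h | h
    · exact h
    · exfalso
      have hnot : ∀ z, H z ∉ K := by
        intro z hz
        have h1 : z ∈ A := by rw [h]; trivial
        obtain ⟨w, h2, h3⟩ := ((show ∀ᶠ w in 𝓝[≠] z, H w ∉ K from h1).and ((hrel z hz).filter_mono nhdsWithin_le_nhds)).exists
        exact h2 h3
      have hout : ∀ z ∈ ball (0 : ℂ) s, Hs 0 z ∉ K := by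
        intro z hz hzK
        have h1 := hM.ne _ hzK
        have h2 := (hsub z hz).1
        rw [smul_smul] at h2
        have h3 : (z - 0) ^ k * u z ≠ 0 := by
          intro h3
          rw [h3, zero_smul] at h2
          exact h1 h2
        rw [h2, hsm _ _ h3] at hzK
        exact hnot z hzK
      have h1 := hM.lim (𝒰 : Filter ℕ) inferInstance (Fr 0) (Hs 0) 0 s hs hcur0 hconv0' (hH0 0)
        hout (1 / 2) (by norm_num)
      obtain ⟨n, h2, h3⟩ := (h1.and (hev 0)).exists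
      rw [hmt n h3] at h2
      norm_num at h2
  have hCK : ∀ z, ConvAt (𝒰 : Filter ℕ) F H z → H z ∈ K := by
    intro z hz
    by_contra hcon
    have h1 : z ∈ A := (hopen z hz hcon).filter_mono nhdsWithin_le_nhds
    rw [hAempty] at h1
    exact h1
  have hH0K : H 0 ∈ K := hCK 0 hconv0
  refine ⟨(𝒰 : Filter ℕ), H, hlim, hHcl, hH0K, hCK, ?_, fun R hR => ?_⟩
  swap
  · obtain ⟨S, rfl⟩ : ∃ S, R = S + 1 := ⟨R - 1, by omega⟩
    push_cast
    refine ⟨Hs S, hHd S, hHb S, hHc0 S, fun z hz => ?_⟩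
    obtain ⟨k, u, hua, hu0, hue⟩ := hHloc S z hz
    have h1 := hue.self_of_nhds
    rcases Nat.eq_zero_or_pos k with hk | hk
    · right
      subst hk
      rw [pow_zero, one_smul] at h1
      exact ⟨(u z)⁻¹, inv_ne_zero hu0, by rw [h1, smul_smul, inv_mul_cancel₀ hu0, one_smul]⟩
    · left
      rw [h1, sub_self, zero_pow hk.ne', zero_smul]
  have hκ0 : (0 - 0 : ℂ) ^ k * u 0 ≠ 0 := by
    intro h3
    have h2 := hue.self_of_nhds
    rw [smul_smul, h3, zero_smul] at h2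
    exact hH0 0 h2
  have h0K : Hs 0 0 ∈ K := by
    have h2 := hue.self_of_nhds
    rw [smul_smul] at h2
    rw [h2, hsm _ _ hκ0]
    exact hH0K
  have h1 : 1 ≤ mt G (Hs 0) 0 := mt_limit hM hs hcur0 hconv0' h0K (by
    filter_upwards [hev 0] with n hn
    exact (hmt n hn).ge)
  have h2 : Hs 0 =ᶠ[𝓝 0] fun w => ((w - 0) ^ k * u w) • H w := by
    filter_upwards [hue] with w hw
    rw [hw, smul_smul]
  have h3 : mt G (Hs 0) 0 = mt G (fun w => ((w - 0) ^ k * u w) • H w) 0 := by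
    unfold mt
    rw [h2.deriv_eq, h2.self_of_nhds]
  have h4 := mt_smul hM (F := H) (k := fun w => (w - 0) ^ k * u w) (z := 0) (hHdiff 0)
    (by
      have : DifferentiableAt ℂ u 0 := hua.differentiableAt
      fun_prop) hH0K hκ0
  rw [h3, h4] at h1
  exact h1

end Pool.Agent.H36.BPB

end

section

/-!
# BPB (port) Resc: rescaling

Given `L = 4 (n + 1)` take `F` with `mt G F 0 > L`.  On `closedBall 0 (1/2)` the function `mt G F z (1/2 - |z|)` is upper semicontinuous, so it has a maximum `m ≥ mt G F 0/2 > 0`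
at some `z₀`, `|z₀| < 1/2`.  `λ = 1/mt G F z₀`, `F_n ζ = F (z₀ + λ ζ)`.  For `|ζ| ≤ m/2`: `|z| ≤ |z₀| + (1/2 - |z₀|)/2`, so `1/2 - |z| ≥ (1/2 - |z₀|)/2 > 0` and
`mt G F z ≤ m/(1/2 - |z|) ≤ 2 mt G F z₀`; `mt_comp`.  `m/2 ≥ L/4 = n + 1`.
-/

set_option autoImplicit false

namespace Pool.Agent.H36.BPB

attribute [-instance] ProperSMul.toContinuousSMul

open Filter Topology Metric
open Pool.Agent.H36.BP

variable {N : ℕ}

variable {K B : Set (EN N)} {G : EN N → EN N → ℝ} {ρ : EN N → ℝ} {M : ℕ} {c₀ C : ℝ}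

/-- product of a nonnegative upper semicontinuous function and a nonnegative continuous function -/
private theorem resc_usc_mul {α : Type*} [TopologicalSpace α] {S : Set α} {u k : α → ℝ} (hu : UpperSemicontinuousOn u S)
    (hk : ContinuousOn k S) (hu0 : ∀ x ∈ S, 0 ≤ u x) (hk0 : ∀ x ∈ S, 0 ≤ k x) :
    UpperSemicontinuousOn (fun x => u x * k x) S := by
  intro x hx y hy
  have ht : Tendsto (fun ε : ℝ => (u x + ε) * (k x + ε)) (𝓝[>] 0) (𝓝 ((u x + 0) * (k x + 0))) := by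
    apply tendsto_nhdsWithin_of_tendsto_nhds
    have hc : Continuous (fun ε : ℝ => (u x + ε) * (k x + ε)) := by fun_prop
    exact hc.tendsto 0
  have hy' : (u x + 0) * (k x + 0) < y := by simpa using hy
  obtain ⟨ε, hε1, hε2⟩ := ((ht.eventually_lt_const hy').and self_mem_nhdsWithin).exists
  have hε : (0 : ℝ) < ε := hε2
  have h1 : ∀ᶠ x' in 𝓝[S] x, u x' < u x + ε := hu x hx _ (by linarith)
  have h2 : ∀ᶠ x' in 𝓝[S] x, k x' < k x + ε := (hk x hx).eventually_lt_const (by linarith)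
  filter_upwards [h1, h2, self_mem_nhdsWithin] with x' h1' h2' hx'
  refine lt_of_le_of_lt ?_ hε1
  exact mul_le_mul h1'.le h2'.le (hk0 x' hx') (by linarith [hu0 x hx])

theorem rescale (hM : MD K B G ρ M c₀ C) (hunb : ∀ L : ℝ, ∃ F, Curve K (ball 0 1) F ∧ L < mt G F 0) (n : ℕ) :
    ∃ F, Curve K (ball 0 (n + 1)) F ∧ mt G F 0 = 1 ∧ ∀ z ∈ ball (0 : ℂ) (n + 1), mt G F z ≤ 2 := by
  obtain ⟨F, hF, hL⟩ := hunb (4 * ((n : ℝ) + 1))
  have hn : (0 : ℝ) ≤ n := Nat.cast_nonneg n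
  set u : ℂ → ℝ := fun z => mt G F z * (1 / 2 - ‖z‖) with hu
  have hsub : closedBall (0 : ℂ) (1 / 2) ⊆ ball 0 1 := closedBall_subset_ball (by norm_num)
  have husc : UpperSemicontinuousOn u (closedBall (0 : ℂ) (1 / 2)) := by
    refine resc_usc_mul ((mt_usc hM isOpen_ball hF).mono hsub) (by fun_prop) ?_ ?_
    · intro x hx
      exact mt_nonneg hM (hF.2 x (hsub hx))
    · intro x hx
      have : ‖x‖ ≤ 1 / 2 := by simpa using hx
      linarith
  obtain ⟨z₀, hz₀, hmax⟩ := husc.exists_isMaxOn ⟨0, by simp⟩ (isCompact_closedBall _ _)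
  have hz₀n : ‖z₀‖ ≤ 1 / 2 := by simpa using hz₀
  have h0 : u 0 ≤ u z₀ := hmax (by simp : (0 : ℂ) ∈ closedBall (0 : ℂ) (1 / 2))
  have hu0 : u 0 = mt G F 0 / 2 := by simp only [hu, norm_zero]; ring
  have hm : 2 * ((n : ℝ) + 1) < u z₀ := by rw [hu0] at h0; linarith
  have hz₀K : F z₀ ∈ K := hF.2 z₀ (hsub hz₀)
  have hmt0 : 0 ≤ mt G F z₀ := mt_nonneg hM hz₀K
  set d : ℝ := 1 / 2 - ‖z₀‖ with hd
  have hd0 : 0 ≤ d := by rw [hd]; linarith
  have huz : u z₀ = mt G F z₀ * d := rfl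
  have hpos : 0 < mt G F z₀ * d := by rw [← huz]; linarith
  have hmtpos : 0 < mt G F z₀ := by
    rcases hmt0.lt_or_eq with h | h
    · exact h
    · rw [← h] at hpos; simp at hpos
  have hdpos : 0 < d := by
    rcases hd0.lt_or_eq with h | h
    · exact h
    · rw [← h] at hpos; simp at hpos
  set a : ℝ := mt G F z₀ with ha
  set φ : ℂ → ℂ := fun ζ => z₀ + ((a⁻¹ : ℝ) : ℂ) * ζ with hφ
  have hφd : ∀ ζ, HasDerivAt φ ((a⁻¹ : ℝ) : ℂ) ζ := by
    intro ζ
    have := ((hasDerivAt_id ζ).const_mul ((a⁻¹ : ℝ) : ℂ)).const_add z₀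
    simpa [hφ] using this
  have hkey : ∀ ζ ∈ ball (0 : ℂ) (n + 1), ‖φ ζ‖ ≤ 1 / 2 - d / 2 := by
    intro ζ hζ
    have hζn : ‖ζ‖ < n + 1 := by simpa using hζ
    have h1 : ‖φ ζ‖ ≤ ‖z₀‖ + a⁻¹ * ‖ζ‖ := by
      calc ‖φ ζ‖ ≤ ‖z₀‖ + ‖((a⁻¹ : ℝ) : ℂ) * ζ‖ := norm_add_le _ _
        _ = ‖z₀‖ + a⁻¹ * ‖ζ‖ := by
          rw [norm_mul, Complex.norm_real, Real.norm_of_nonneg (by positivity)]
    have h2 : a⁻¹ * ‖ζ‖ ≤ d / 2 := by
      rw [inv_mul_le_iff₀ hmtpos]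
      rw [huz] at hm
      linarith
    have h3 : ‖z₀‖ = 1 / 2 - d := by rw [hd]; ring
    linarith
  have hball : ∀ ζ ∈ ball (0 : ℂ) (n + 1), φ ζ ∈ closedBall (0 : ℂ) (1 / 2) := by
    intro ζ hζ
    have := hkey ζ hζ
    rw [mem_closedBall_zero_iff]
    linarith
  have hdiff : ∀ ζ ∈ ball (0 : ℂ) (n + 1), DifferentiableAt ℂ F (φ ζ) := fun ζ hζ =>
    (hF.1 _ (hsub (hball ζ hζ))).differentiableAt (isOpen_ball.mem_nhds (hsub (hball ζ hζ)))
  have hmt : ∀ ζ ∈ ball (0 : ℂ) (n + 1), mt G (fun ζ => F (φ ζ)) ζ = a⁻¹ * mt G F (φ ζ) := by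
    intro ζ hζ
    rw [mt_comp hM (hdiff ζ hζ) (hφd ζ).differentiableAt (hF.2 _ (hsub (hball ζ hζ))), (hφd ζ).deriv,
      Complex.norm_real, Real.norm_of_nonneg (by positivity)]
  refine ⟨fun ζ => F (φ ζ), ⟨?_, ?_⟩, ?_, ?_⟩
  · intro ζ hζ
    exact ((hdiff ζ hζ).comp ζ (hφd ζ).differentiableAt).differentiableWithinAt
  · intro ζ hζ
    exact hF.2 _ (hsub (hball ζ hζ))
  · rw [hmt 0 (mem_ball_self (by positivity))]
    have : φ 0 = z₀ := by simp [hφ]
    rw [this, ← ha]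
    exact inv_mul_cancel₀ hmtpos.ne'
  · intro ζ hζ
    rw [hmt ζ hζ]
    have h1 : u (φ ζ) ≤ u z₀ := hmax (hball ζ hζ)
    have h2 := hkey ζ hζ
    have h3 : mt G F (φ ζ) * (1 / 2 - ‖φ ζ‖) ≤ a * d := h1
    have h4 : 0 ≤ mt G F (φ ζ) := mt_nonneg hM (hF.2 _ (hsub (hball ζ hζ)))
    have h5 : mt G F (φ ζ) * (d / 2) ≤ a * d :=
      le_trans (mul_le_mul_of_nonneg_left (by linarith) h4) h3
    have h6 : mt G F (φ ζ) ≤ 2 * a := by
      by_contra hc
      push Not at hc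
      have : 2 * a * (d / 2) < mt G F (φ ζ) * (d / 2) := mul_lt_mul_of_pos_right hc (by linarith)
      linarith
    rw [inv_mul_le_iff₀ hmtpos]
    linarith

end Pool.Agent.H36.BPB

end
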