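import Pool.Agent.H94.CB.M05
import Pool.Agent.H94.CB.M21

/-! The parts of this file: H14.PP.RootDeriv, H36.BP.CirB, H36.BP.Brody, H36.BP.MtA. -/

section

/-!
# BPm RootDeriv: roots of functions without zeros

`f` holomorphic without zeros on `ball z₀ s`, `‖f‖ ≤ η` there. There is a holomorphic `g` with
`exp (g z) = f z` on the ball (a disc is simply connected; e.g. a primitive of `f'/f`,
`DifferentiableOn.isExactOn_ball`, or Mathlib's logarithm / root lemma), `w = exp (g/m)` satisfies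
`‖w‖ = ‖f‖^(1/m) ≤ η^(1/m)`, `w' = (1/m) (f'/f) w`, so `‖w' z₀‖ = (1/m) ‖f z₀‖^(1/m-1) ‖f' z₀‖`, and
Cauchy's estimate on circles of radius `s' < s`, `s' → s`: `‖w' z₀‖ ≤ η^(1/m)/s`.
-/

open Topology Filter Metric

namespace Pool.Agent.H14.PP

attribute [-instance] ProperSMul.toContinuousSMul

private theorem RootDeriv_exp {f : ℂ → ℂ} {z₀ : ℂ} {s : ℝ} (hs : 0 < s)
    (hf : DifferentiableOn ℂ f (ball z₀ s)) (h0 : ∀ z ∈ ball z₀ s, f z ≠ 0) :
    ∃ g : ℂ → ℂ, (∀ z ∈ ball z₀ s, HasDerivAt g (deriv f z / f z) z) ∧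
      ∀ z ∈ ball z₀ s, Complex.exp (g z) = f z := by
  have hz₀ : z₀ ∈ ball z₀ s := mem_ball_self hs
  have hq : DifferentiableOn ℂ (fun z => deriv f z / f z) (ball z₀ s) :=
    (hf.deriv isOpen_ball).div hf h0
  obtain ⟨g, hg0, hg⟩ := hq.isExactOn_ball.with_val_at z₀ (Complex.log (f z₀))
  refine ⟨g, hg, ?_⟩
  have hd : ∀ z ∈ ball z₀ s, HasDerivAt (fun z => Complex.exp (-g z) * f z) 0 z := by
    intro z hz
    have h1 := (hg z hz).neg.cexp
    have h2 := ((hf z hz).differentiableAt (isOpen_ball.mem_nhds hz)).hasDerivAt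
    have h3 := h1.mul h2
    have h4 : Complex.exp (-g z) * -(deriv f z / f z) * f z + Complex.exp (-g z) * deriv f z = 0 := by
      have := h0 z hz
      field_simp
      ring
    rw [← h4]
    exact h3
  intro z hz
  have hc : (fun z => Complex.exp (-g z) * f z) z = (fun z => Complex.exp (-g z) * f z) z₀ :=
    isOpen_ball.is_const_of_deriv_eq_zero (convex_ball z₀ s).isPreconnected
      (fun w hw => (hd w hw).differentiableAt.differentiableWithinAt)
      (fun w hw => (hd w hw).deriv) hz hz₀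
  simp only [hg0] at hc
  rw [Complex.exp_neg (Complex.log (f z₀)), Complex.exp_log (h0 z₀ hz₀), inv_mul_cancel₀ (h0 z₀ hz₀),
    Complex.exp_neg, inv_mul_eq_one₀ (Complex.exp_ne_zero _)] at hc
  exact hc

theorem root_deriv {f : ℂ → ℂ} {z₀ : ℂ} {s η : ℝ} (hs : 0 < s)
    (hf : DifferentiableOn ℂ f (ball z₀ s)) (h0 : ∀ z ∈ ball z₀ s, f z ≠ 0)
    (h1 : ∀ z ∈ ball z₀ s, ‖f z‖ ≤ η) {m : ℕ} (hm : 1 ≤ m) :
    ‖f z₀‖ ^ (-(((m : ℝ) - 1) / m)) * ‖deriv f z₀‖ ≤ m * η ^ (1 / (m : ℝ)) / s := by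
  have hz₀ : z₀ ∈ ball z₀ s := mem_ball_self hs
  obtain ⟨g, hg, hexp⟩ := RootDeriv_exp hs hf h0
  have hm0 : (0 : ℝ) < m := by exact_mod_cast hm
  have hmC : (m : ℂ) ≠ 0 := by exact_mod_cast hm0.ne'
  set w : ℂ → ℂ := fun z => Complex.exp (g z / m) with hw
  have hwd : ∀ z ∈ ball z₀ s, HasDerivAt w (w z * (deriv f z / f z / m)) z := fun z hz =>
    ((hg z hz).div_const (m : ℂ)).cexp
  have hwn : ∀ z ∈ ball z₀ s, ‖w z‖ = ‖f z‖ ^ (1 / (m : ℝ)) := by
    intro z hz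
    have h2 : w z ^ m = f z := by
      rw [hw]
      simp only
      rw [← Complex.exp_nat_mul, mul_div_cancel₀ _ hmC, hexp z hz]
    rw [← h2, norm_pow, ← Real.rpow_natCast, ← Real.rpow_mul (norm_nonneg _),
      mul_one_div_cancel hm0.ne', Real.rpow_one]
  have hη : 0 ≤ η := (norm_nonneg _).trans (h1 z₀ hz₀)
  have hwb : ∀ z ∈ ball z₀ s, ‖w z‖ ≤ η ^ (1 / (m : ℝ)) := fun z hz => by
    rw [hwn z hz]
    exact Real.rpow_le_rpow (norm_nonneg _) (h1 z hz) (by positivity)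
  -- Cauchy
  have hC : ∀ s', 0 < s' → s' < s → ‖deriv w z₀‖ ≤ η ^ (1 / (m : ℝ)) / s' := by
    intro s' h1' h2'
    apply Complex.norm_deriv_le_of_forall_mem_sphere_norm_le h1'
    · refine DifferentiableOn.diffContOnCl fun z hz => ?_
      have hz' : z ∈ ball z₀ s :=
        (closure_ball_subset_closedBall.trans (closedBall_subset_ball h2')) hz
      exact (hwd z hz').differentiableAt.differentiableWithinAt
    · intro z hz
      exact hwb z (mem_ball.mpr (by rw [mem_sphere.mp hz]; exact h2'))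
  have hC2 : ‖deriv w z₀‖ * s ≤ η ^ (1 / (m : ℝ)) := by
    have ht : Tendsto (fun s' : ℝ => ‖deriv w z₀‖ * s') (𝓝[<] s) (𝓝 (‖deriv w z₀‖ * s)) :=
      (tendsto_const_nhds.mul tendsto_id).mono_left nhdsWithin_le_nhds
    refine le_of_tendsto ht ?_
    filter_upwards [Ioo_mem_nhdsLT hs] with s' hs'
    exact (le_div_iff₀ hs'.1).mp (hC s' hs'.1 hs'.2)
  have hval : ‖deriv w z₀‖ = ‖f z₀‖ ^ (-(((m : ℝ) - 1) / m)) * ‖deriv f z₀‖ / m := by
    rw [(hwd z₀ hz₀).deriv, norm_mul, hwn z₀ hz₀, norm_div, norm_div, Complex.norm_natCast]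
    have hf0 : 0 < ‖f z₀‖ := norm_pos_iff.mpr (h0 z₀ hz₀)
    have h3 : ‖f z₀‖ ^ (-(((m : ℝ) - 1) / m)) = ‖f z₀‖ ^ (1 / (m : ℝ)) / ‖f z₀‖ := by
      rw [← Real.rpow_sub_one hf0.ne']
      congr 1
      field_simp
      ring
    rw [h3]
    ring
  have h5 : ‖f z₀‖ ^ (-(((m : ℝ) - 1) / m)) * ‖deriv f z₀‖ = m * ‖deriv w z₀‖ := by
    rw [hval]
    field_simp
  rw [h5, le_div_iff₀ hs, mul_assoc]
  exact mul_le_mul_of_nonneg_left hC2 hm0.le

end Pool.Agent.H14.PP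

end

section

/-!
# BP CirB: approximation on two circles

`trig_approx` on both circles: `φ(r e^(iθ)) ≈ Re ∑ a_n e^(inθ)`, `φ(R e^(iθ)) ≈ Re ∑ b_n e^(inθ)` (common `m`, pad with zeros).  For `n ≥ 1` the function
`Re(c_n z^n + d_n z^(-n))` has at `z = ρ e^(iθ)` the value `Re((c_n ρ^n + conj(d_n) ρ^(-n)) e^(inθ))`; solve `c_n r^n + conj(d_n) r^(-n) = a_n`,
`c_n R^n + conj(d_n) R^(-n) = b_n` (determinant `(r/R)^n - (R/r)^n ≠ 0`).  For `n = 0`: real `a`, `b` with `a + b log r = Re a_0`, `a + b log R = Re b_0`.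
`g z = a + ∑_{n ≥ 1} (c_n z^n + d_n z^(-n))`.
-/

set_option autoImplicit false

namespace Pool.Agent.H36.BP

attribute [-instance] ProperSMul.toContinuousSMul

open Filter Topology Metric

variable {N : ℕ}

private theorem CirB_key (ρ : ℝ) (c d : ℂ) (n : ℕ) (θ : ℝ) :
    (c * ((ρ : ℂ) * Complex.exp (θ * Complex.I)) ^ n + d * (((ρ : ℂ) * Complex.exp (θ * Complex.I))⁻¹) ^ n).re
      = ((c * (ρ : ℂ) ^ n + (starRingEnd ℂ) d * ((ρ : ℂ) ^ n)⁻¹) * Complex.exp (n * (θ * Complex.I))).re := by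
  have h1 : (c * ((ρ : ℂ) * Complex.exp (θ * Complex.I)) ^ n) = c * (ρ : ℂ) ^ n * Complex.exp (n * (θ * Complex.I)) := by
    rw [mul_pow, ← Complex.exp_nat_mul, mul_assoc]
  have h2 : (starRingEnd ℂ) (d * (((ρ : ℂ) * Complex.exp (θ * Complex.I))⁻¹) ^ n)
      = (starRingEnd ℂ) d * ((ρ : ℂ) ^ n)⁻¹ * Complex.exp (n * (θ * Complex.I)) := by
    have h3 : (((ρ : ℂ) * Complex.exp (θ * Complex.I))⁻¹) ^ n = ((ρ : ℂ) ^ n)⁻¹ * Complex.exp (-(n * (θ * Complex.I))) := by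
      rw [inv_pow, mul_pow, ← Complex.exp_nat_mul, mul_inv, Complex.exp_neg]
    rw [h3, map_mul, map_mul, ← Complex.exp_conj]
    have h4 : (starRingEnd ℂ) (-(n * (θ * Complex.I))) = n * (θ * Complex.I) := by
      simp
    rw [h4, map_inv₀, map_pow, Complex.conj_ofReal, mul_assoc]
  rw [Complex.add_re, h1, add_mul, Complex.add_re]
  congr 1
  rw [← Complex.conj_re, h2]

private theorem CirB_solve {r R : ℝ} (hr : 0 < r) (hrR : r < R) (a b : ℂ) (n : ℕ) (hn : n ≠ 0) :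
    ∃ c d : ℂ, c * (r : ℂ) ^ n + (starRingEnd ℂ) d * ((r : ℂ) ^ n)⁻¹ = a ∧
      c * (R : ℂ) ^ n + (starRingEnd ℂ) d * ((R : ℂ) ^ n)⁻¹ = b := by
  have hR : 0 < R := hr.trans hrR
  have h1 : r ^ n < R ^ n := pow_lt_pow_left₀ hrR hr.le hn
  have h2 : 0 < r ^ n := pow_pos hr n
  have h3 : 0 < R ^ n := pow_pos hR n
  have hr' : ((r : ℂ) ^ n) ≠ 0 := by exact_mod_cast h2.ne'
  have hR' : ((R : ℂ) ^ n) ≠ 0 := by exact_mod_cast h3.ne'
  have hD : ((r : ℂ) ^ n) ^ 2 - ((R : ℂ) ^ n) ^ 2 ≠ 0 := by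
    have : (r ^ n) ^ 2 - (R ^ n) ^ 2 ≠ 0 := by nlinarith
    exact_mod_cast this
  refine ⟨(a * (r : ℂ) ^ n - b * (R : ℂ) ^ n) / (((r : ℂ) ^ n) ^ 2 - ((R : ℂ) ^ n) ^ 2),
    (starRingEnd ℂ) ((r : ℂ) ^ n * (R : ℂ) ^ n * ((r : ℂ) ^ n * b - (R : ℂ) ^ n * a) / (((r : ℂ) ^ n) ^ 2 - ((R : ℂ) ^ n) ^ 2)), ?_, ?_⟩
  · rw [Complex.conj_conj]
    field_simp
    ring
  · rw [Complex.conj_conj]
    field_simp
    ring

private theorem CirB_pad (m m' : ℕ) (hm : m ≤ m') (a : ℕ → ℂ) (f : ℕ → ℂ) :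
    ∑ n ∈ Finset.range (m + 1), a n * f n = ∑ n ∈ Finset.range (m' + 1), (if n ≤ m then a n else 0) * f n := by
  have h : Finset.range (m + 1) ⊆ Finset.range (m' + 1) := by
    intro x hx
    rw [Finset.mem_range] at hx ⊢
    omega
  rw [← Finset.sum_subset h]
  · apply Finset.sum_congr rfl
    intro x hx
    rw [Finset.mem_range] at hx
    rw [if_pos (by omega)]
  · intro x _ hx
    rw [Finset.mem_range] at hx
    rw [if_neg (by omega), zero_mul]

private theorem CirB_circ (φ : ℂ → ℝ) (ρ : ℝ) (hρ : 0 < ρ) (S : Set ℂ) (hS : sphere (0 : ℂ) ρ ⊆ S) (hφ : ContinuousOn φ S)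
    {ε : ℝ} (hε : 0 < ε) :
    ∃ (m : ℕ) (c : ℕ → ℂ), ∀ θ : ℝ, |φ (ρ * Complex.exp (θ * Complex.I)) -
      (∑ n ∈ Finset.range (m + 1), c n * Complex.exp (n * (θ * Complex.I))).re| ≤ ε := by
  apply trig_approx (fun θ : ℝ => φ (ρ * Complex.exp (θ * Complex.I))) _ _ hε
  · apply hφ.comp_continuous
    · fun_prop
    · intro θ
      apply hS
      rw [mem_sphere_zero_iff_norm, norm_mul, Complex.norm_exp_ofReal_mul_I, mul_one, Complex.norm_real, Real.norm_eq_abs, abs_of_pos hρ]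
  · intro θ
    have : Complex.exp (((θ + 2 * Real.pi : ℝ) : ℂ) * Complex.I) = Complex.exp (θ * Complex.I) := by
      have h := Complex.exp_periodic (θ * Complex.I)
      rw [← h]
      congr 1
      push_cast
      ring
    show φ (ρ * Complex.exp (((θ + 2 * Real.pi : ℝ) : ℂ) * Complex.I)) = _
    rw [this]

theorem annulus_approx {r R : ℝ} (hr : 0 < r) (hrR : r < R) (φ : ℂ → ℝ) (hφ : ContinuousOn φ (sphere (0 : ℂ) r ∪ sphere (0 : ℂ) R))
    {ε : ℝ} (hε : 0 < ε) : ∃ (g : ℂ → ℂ) (b : ℝ), DifferentiableOn ℂ g {0}ᶜ ∧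
      ∀ z ∈ sphere (0 : ℂ) r ∪ sphere (0 : ℂ) R, |(g z).re + b * Real.log ‖z‖ - φ z| ≤ ε := by
  have hR : 0 < R := hr.trans hrR
  obtain ⟨m₁, a₁, h₁⟩ := CirB_circ φ r hr _ Set.subset_union_left hφ hε
  obtain ⟨m₂, a₂, h₂⟩ := CirB_circ φ R hR _ Set.subset_union_right hφ hε
  set m := max m₁ m₂ with hm
  set A : ℕ → ℂ := fun n => if n ≤ m₁ then a₁ n else 0 with hA
  set B : ℕ → ℂ := fun n => if n ≤ m₂ then a₂ n else 0 with hB
  have h₁' : ∀ θ : ℝ, |φ (r * Complex.exp (θ * Complex.I)) -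
      (∑ n ∈ Finset.range (m + 1), A n * Complex.exp (n * (θ * Complex.I))).re| ≤ ε := by
    intro θ
    have := h₁ θ
    rw [CirB_pad m₁ m (le_max_left _ _) a₁ (fun n => Complex.exp (n * (θ * Complex.I)))] at this
    exact this
  have h₂' : ∀ θ : ℝ, |φ (R * Complex.exp (θ * Complex.I)) -
      (∑ n ∈ Finset.range (m + 1), B n * Complex.exp (n * (θ * Complex.I))).re| ≤ ε := by
    intro θ
    have := h₂ θ
    rw [CirB_pad m₂ m (le_max_right _ _) a₂ (fun n => Complex.exp (n * (θ * Complex.I)))] at this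
    exact this
  have hex : ∀ n : ℕ, ∃ c d : ℂ, c * (r : ℂ) ^ (n + 1) + (starRingEnd ℂ) d * ((r : ℂ) ^ (n + 1))⁻¹ = A (n + 1) ∧
      c * (R : ℂ) ^ (n + 1) + (starRingEnd ℂ) d * ((R : ℂ) ^ (n + 1))⁻¹ = B (n + 1) :=
    fun n => CirB_solve hr hrR _ _ (n + 1) (Nat.succ_ne_zero n)
  choose c d hc hd using hex
  have hlog : Real.log r < Real.log R := Real.log_lt_log hr hrR
  obtain ⟨a, b, hab1, hab2⟩ : ∃ a b : ℝ, a + b * Real.log r = (A 0).re ∧ a + b * Real.log R = (B 0).re := by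
    refine ⟨(A 0).re - ((B 0).re - (A 0).re) / (Real.log R - Real.log r) * Real.log r,
      ((B 0).re - (A 0).re) / (Real.log R - Real.log r), by ring, ?_⟩
    have : Real.log R - Real.log r ≠ 0 := by linarith
    field_simp
    ring
  set g : ℂ → ℂ := fun z => (a : ℂ) + ∑ n ∈ Finset.range m, (c n * z ^ (n + 1) + d n * (z⁻¹) ^ (n + 1)) with hg
  have hval : ∀ (ρ : ℝ) (C : ℕ → ℂ), 0 < ρ → a + b * Real.log ρ = (C 0).re →
      (∀ n, c n * (ρ : ℂ) ^ (n + 1) + (starRingEnd ℂ) (d n) * ((ρ : ℂ) ^ (n + 1))⁻¹ = C (n + 1)) →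
      ∀ θ : ℝ, (g (ρ * Complex.exp (θ * Complex.I))).re + b * Real.log ρ
        = (∑ n ∈ Finset.range (m + 1), C n * Complex.exp (n * (θ * Complex.I))).re := by
    intro ρ C hρ h0 hC θ
    rw [Finset.sum_range_succ']
    simp only [hg, Complex.add_re, Complex.re_sum, Complex.ofReal_re]
    have e1 : ∀ n ∈ Finset.range m, (c n * ((ρ : ℂ) * Complex.exp (θ * Complex.I)) ^ (n + 1)).re +
        (d n * (((ρ : ℂ) * Complex.exp (θ * Complex.I))⁻¹) ^ (n + 1)).re
        = (C (n + 1) * Complex.exp (((n + 1 : ℕ) : ℂ) * (θ * Complex.I))).re := by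
      intro n _
      rw [← Complex.add_re, CirB_key, hC n]
    rw [Finset.sum_congr rfl e1]
    have e2 : (C 0 * Complex.exp (((0 : ℕ) : ℂ) * (θ * Complex.I))).re = a + b * Real.log ρ := by
      rw [h0]; simp
    rw [e2]
    ring
  refine ⟨g, b, ?_, ?_⟩
  · intro z hz
    have hz0 : z ≠ 0 := hz
    apply DifferentiableAt.differentiableWithinAt
    rw [hg]
    apply DifferentiableAt.const_add
    apply DifferentiableAt.fun_sum
    intro n _
    exact ((differentiableAt_id.pow _).const_mul _).add (((differentiableAt_inv hz0).pow _).const_mul _)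
  · have harg : ∀ (z : ℂ), z = (‖z‖ : ℂ) * Complex.exp (Complex.arg z * Complex.I) := fun z => (Complex.norm_mul_exp_arg_mul_I z).symm
    rintro z (hz | hz)
    · rw [mem_sphere_zero_iff_norm] at hz
      have h3 := h₁' (Complex.arg z)
      have h4 := hval r A hr hab1 hc (Complex.arg z)
      have h5 := harg z
      rw [hz] at h5
      rw [← h5] at h3 h4
      rw [hz, h4, abs_sub_comm]
      exact h3
    · rw [mem_sphere_zero_iff_norm] at hz
      have h3 := h₂' (Complex.arg z)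
      have h4 := hval R B hR hab2 hd (Complex.arg z)
      have h5 := harg z
      rw [hz] at h5
      rw [← h5] at h3 h4
      rw [hz, h4, abs_sub_comm]
      exact h3

end Pool.Agent.H36.BP

end

section

/-!
# BP Brody: the Brody step

Otherwise `rescale`, `char_bound` (with `R ≤ n`: `Curve K (ball 0 (R+1))`), `limit_curve` give an entire curve `H` with `mt G H 0 ≥ 1`.  If `H` is not constant in projective space then it lies in `B`
(`BrodyMod`) and `mt G H 0 = 0` (`zero`).  If it is constant, `H w = c(w) H 0` for all `w`, then `H' 0` is a multiple of `H 0` (`H' 0 = lim (H w - H 0)/w`, closed line) and `mt G H 0 = 0` (`mt_const`).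
-/

set_option autoImplicit false

namespace Pool.Agent.H36.BP

attribute [-instance] ProperSMul.toContinuousSMul

open Filter Topology Metric

variable {N : ℕ}

variable {K B : Set (EN N)} {G : EN N → EN N → ℝ} {ρ : EN N → ℝ} {M : ℕ} {c₀ C : ℝ}

/-- the derivative of a curve on a line is on the line -/
theorem Brody_deriv_line {H : ℂ → EN N} {z₀ : ℂ} (hH : DifferentiableAt ℂ H z₀) (h : ∀ z, ∃ c : ℂ, H z = c • H z₀) :
    ∃ a : ℂ, deriv H z₀ = a • H z₀ := by
  have hcl : IsClosed ((ℂ ∙ H z₀ : Submodule ℂ (EN N)) : Set (EN N)) := Submodule.closed_of_finiteDimensional _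
  have hmem : deriv H z₀ ∈ (ℂ ∙ H z₀ : Submodule ℂ (EN N)) := by
    have ht := (hasDerivAt_iff_tendsto_slope.mp hH.hasDerivAt)
    refine hcl.mem_of_tendsto ht (Filter.Eventually.of_forall fun z => ?_)
    obtain ⟨c, hc⟩ := h z
    rw [slope_def_module]
    refine Submodule.smul_mem _ _ (Submodule.sub_mem _ ?_ (Submodule.mem_span_singleton_self _))
    rw [hc]
    exact Submodule.smul_mem _ _ (Submodule.mem_span_singleton_self _)
  obtain ⟨a, ha⟩ := Submodule.mem_span_singleton.mp hmem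
  exact ⟨a, ha.symm⟩

end Pool.Agent.H36.BP

end

section

/-!
# BP MtA: the metric along a curve

* `mt_usc`: `F` and `deriv F` are continuous near `z`, `usc`.
* `mt_smul`: for `k` holomorphic without zeros at `z`: `(k F)' = k F' + k' F`, `inv`.
* `mt_comp`: `(F ∘ φ)' = φ' F' ∘ φ`, `hom`.
* `mt_limit`: `F n → H` locally uniformly on a neighbourhood of `0`, then `F n 0 → H 0`, `(F n)' 0 → H' 0` (`TendstoLocallyUniformlyOn.deriv`), `usc` at `(H 0, H' 0)`.
-/

set_option autoImplicit false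

namespace Pool.Agent.H36.BP

attribute [-instance] ProperSMul.toContinuousSMul

open Filter Topology Metric

variable {N : ℕ}

variable {K B : Set (EN N)} {G : EN N → EN N → ℝ} {ρ : EN N → ℝ} {M : ℕ} {c₀ C : ℝ}

theorem mt_usc (hM : MetricData K B G ρ M c₀ C) {U : Set ℂ} (hU : IsOpen U) {F : ℂ → EN N} (hF : Curve K U F) :
    UpperSemicontinuousOn (mt G F) U := by
  intro z hz y hy
  have hA : AnalyticAt ℂ F z := hF.1.analyticAt (hU.mem_nhds hz)
  have hc : ContinuousAt (fun w => (F w, deriv F w)) z := hA.continuousAt.prodMk hA.deriv.continuousAt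
  have h1 := hM.usc (F z) (hF.2 z hz) (deriv F z) y hy
  have h2 := hc.eventually h1
  filter_upwards [nhdsWithin_le_nhds h2, self_mem_nhdsWithin] with w hw hwU
  exact hw (hF.2 w hwU)

theorem mt_nonneg (hM : MetricData K B G ρ M c₀ C) {F : ℂ → EN N} {z : ℂ} (hz : F z ∈ K) : 0 ≤ mt G F z := by
  exact hM.nonneg _ hz _

theorem mt_smul (hM : MetricData K B G ρ M c₀ C) {F : ℂ → EN N} {k : ℂ → ℂ} {z : ℂ} (hF : DifferentiableAt ℂ F z)
    (hk : DifferentiableAt ℂ k z) (hz : F z ∈ K) (h0 : k z ≠ 0) : mt G (fun z => k z • F z) z = mt G F z := by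
  have h : deriv (fun z => k z • F z) z = k z • deriv F z + deriv k z • F z := by
    have := (hk.hasDerivAt.smul hF.hasDerivAt).deriv
    exact this
  unfold mt
  rw [h]
  exact hM.inv (F z) hz (deriv F z) (k z) (deriv k z) h0

theorem mt_comp (hM : MetricData K B G ρ M c₀ C) {F : ℂ → EN N} {φ : ℂ → ℂ} {z : ℂ} (hF : DifferentiableAt ℂ F (φ z))
    (hφ : DifferentiableAt ℂ φ z) (hz : F (φ z) ∈ K) : mt G (fun z => F (φ z)) z = ‖deriv φ z‖ * mt G F (φ z) := by
  have h : deriv (fun z => F (φ z)) z = deriv φ z • deriv F (φ z) := by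
    have := (HasDerivAt.scomp z hF.hasDerivAt hφ.hasDerivAt).deriv
    exact this
  unfold mt
  rw [h]
  exact hM.hom (F (φ z)) hz (deriv F (φ z)) (deriv φ z)

theorem mt_limit (hM : MetricData K B G ρ M c₀ C) {κ : Type} {l : Filter κ} [l.NeBot] {F : κ → ℂ → EN N} {H : ℂ → EN N} {s : ℝ} (hs : 0 < s)
    (hF : ∀ᶠ n in l, Curve K (ball 0 s) (F n)) (hH : TendstoLocallyUniformlyOn F H l (ball 0 s)) (h0 : H 0 ∈ K) {a : ℝ}
    (ha : ∀ᶠ n in l, a ≤ mt G (F n) 0) : a ≤ mt G H 0 := by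
  by_contra hlt
  rw [not_le] at hlt
  have hmem : (0 : ℂ) ∈ ball (0 : ℂ) s := mem_ball_self hs
  have h1 : Tendsto (fun n => F n 0) l (𝓝 (H 0)) := hH.tendsto_at hmem
  have hd : TendstoLocallyUniformlyOn (deriv ∘ F) (deriv H) l (ball 0 s) :=
    hH.deriv (hF.mono fun n hn => hn.1) isOpen_ball
  have h2 : Tendsto (fun n => deriv (F n) 0) l (𝓝 (deriv H 0)) := hd.tendsto_at hmem
  have h3 : Tendsto (fun n => (F n 0, deriv (F n) 0)) l (𝓝 (H 0, deriv H 0)) := h1.prodMk_nhds h2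
  have h4 := h3.eventually (hM.usc (H 0) h0 (deriv H 0) a hlt)
  obtain ⟨n, hn1, hn2, hn3⟩ := (h4.and (hF.and ha)).exists
  have h5 : G (F n 0) (deriv (F n) 0) < a := hn1 (hn2.2 0 hmem)
  exact absurd hn3 (not_le.mpr h5)

theorem mt_const (hM : MetricData K B G ρ M c₀ C) {F : ℂ → EN N} {z : ℂ} (hz : F z ∈ K) {a : ℂ} (h : deriv F z = a • F z) : mt G F z = 0 := by
  have h1 : G (F z) 0 = 0 := by
    have := hM.hom (F z) hz 0 0
    simpa using this
  have h2 := hM.inv (F z) hz 0 1 a one_ne_zero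
  rw [smul_zero, zero_add, one_smul, h1] at h2
  unfold mt
  rw [h, h2]

end Pool.Agent.H36.BP

end
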