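import Pool.Agent.H94.CB.H14.PP.Defs
import Pool.Agent.H94.CB.H68.KR.D2
import Pool.Agent.H94.CB.M16

/-! The parts of this file: H14.PP.ChartBasic, H68.KR.Ch. -/

section

/-!
# BPm ChartBasic: charts, basic facts

* `Chart.fderiv_q_smul`: `q (c • y) = q y` for `y` near `x ∈ U` (`U` open); differentiate:
  `Dq(c x) (c v) = Dq(x) v`; and `Dq(x) x = 0` (differentiate `q ((1 + h) • x) = q x` at `h = 0`).
* `Chart.fderiv_sigma`: derivative of `q ∘ σ = id` on the bidisc: `Dq(σ p) (Dσ(p) w) = w`.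
* `Chart.tan`: the curve `z ↦ σ (p + z • w)`; if `σ p ∈ K` it stays in `K` (`rel_open`).
* `Chart.curve`: `q ∘ F` is analytic at `z₀` (composition), its derivative is given by the chain
  rule. For `z` near `z₀`, `F z ∈ X ∩ U`, so `q (F z) ∈ ball 0 2` and `F z = c z • σ (q (F z))` with
  `c z ≠ 0` (`surj`). With `y = σ (q (F z₀)) ≠ 0`: `c z = ⟪y, F z⟫ / ⟪y, σ (q (F z))⟫` near `z₀`:
  analytic.
* `Chart.sigma_mem_iff`: for `x ∈ X ∩ U`, `x = c • σ (q x)`, so `x ∈ K ↔ σ (q x) ∈ K`.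
-/

open Topology Filter Metric

namespace Pool.Agent.H14.PP

attribute [-instance] ProperSMul.toContinuousSMul

open Pool.Agent.H36.BP

variable {N : ℕ} {X K T : Set (EN N)}

private theorem ChartBasic_q_self (χ : Chart X) {x : EN N} (hx : x ∈ χ.U) :
    fderiv ℂ χ.q x x = 0 := by
  have hq : HasFDerivAt χ.q (fderiv ℂ χ.q x) x := (χ.q_an x hx).differentiableAt.hasFDerivAt
  have hl : HasDerivAt (fun h : ℂ => (1 + h) • x) x 0 := by
    have h1 : HasDerivAt (fun h : ℂ => 1 + h) 1 0 := by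
      simpa using (hasDerivAt_id (0 : ℂ)).const_add (1 : ℂ)
    simpa using h1.smul_const x
  have hx0 : (fun h : ℂ => (1 + h) • x) 0 = x := by simp
  have hq' : HasFDerivAt χ.q (fderiv ℂ χ.q x) ((fun h : ℂ => (1 + h) • x) 0) := by
    rw [hx0]; exact hq
  have h2 : HasDerivAt (χ.q ∘ fun h : ℂ => (1 + h) • x) (fderiv ℂ χ.q x x) 0 :=
    hq'.comp_hasDerivAt 0 hl
  have h3 : HasDerivAt (χ.q ∘ fun h : ℂ => (1 + h) • x) 0 0 := by
    apply (hasDerivAt_const (0 : ℂ) (χ.q x)).congr_of_eventuallyEq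
    have h4 : ∀ᶠ h : ℂ in 𝓝 0, 1 + h ≠ 0 := by
      apply ContinuousAt.eventually_ne
      · fun_prop
      · simp
    filter_upwards [h4] with h hh
    exact χ.q_smul x hx _ hh
  exact h2.unique h3

theorem Chart.fderiv_q_smul (χ : Chart X) {x : EN N} (hx : x ∈ χ.U) (v : EN N) {c : ℂ}
    (hc : c ≠ 0) (a : ℂ) : fderiv ℂ χ.q (c • x) (c • v + a • x) = fderiv ℂ χ.q x v := by
  have hcx : c • x ∈ χ.U := χ.smul_U x hx c hc
  have h1 : HasFDerivAt χ.q (fderiv ℂ χ.q (c • x)) (c • x) :=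
    (χ.q_an _ hcx).differentiableAt.hasFDerivAt
  have h2 : HasFDerivAt (fun y : EN N => c • y) (c • ContinuousLinearMap.id ℂ (EN N)) x :=
    (hasFDerivAt_id x).const_smul c
  have h3 : HasFDerivAt (χ.q ∘ fun y : EN N => c • y)
      ((fderiv ℂ χ.q (c • x)).comp (c • ContinuousLinearMap.id ℂ (EN N))) x := h1.comp x h2
  have h4 : HasFDerivAt (χ.q ∘ fun y : EN N => c • y) (fderiv ℂ χ.q x) x := by
    apply (χ.q_an x hx).differentiableAt.hasFDerivAt.congr_of_eventuallyEq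
    filter_upwards [χ.isOpen_U.mem_nhds hx] with y hy
    exact χ.q_smul y hy c hc
  have h5 := h3.unique h4
  have h6 : fderiv ℂ χ.q (c • x) (c • v) = fderiv ℂ χ.q x v := by
    rw [← h5]; simp
  have h7 : fderiv ℂ χ.q (c • x) x = 0 := by
    have h8 := ChartBasic_q_self χ hcx
    rw [map_smul] at h8
    exact (smul_eq_zero.1 h8).resolve_left hc
  rw [map_add, h6, map_smul, h7, smul_zero, add_zero]

theorem Chart.fderiv_q_self (χ : Chart X) {x : EN N} (hx : x ∈ χ.U) : fderiv ℂ χ.q x x = 0 :=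
  ChartBasic_q_self χ hx

theorem Chart.fderiv_sigma (χ : Chart X) {p : ℂ × ℂ} (hp : p ∈ ball (0 : ℂ × ℂ) 2) (w : ℂ × ℂ) :
    fderiv ℂ χ.q (χ.σ p) (fderiv ℂ χ.σ p w) = w := by
  have h1 : HasFDerivAt χ.q (fderiv ℂ χ.q (χ.σ p)) (χ.σ p) :=
    (χ.q_an _ (χ.σ_mem p hp).2.1).differentiableAt.hasFDerivAt
  have h2 : HasFDerivAt χ.σ (fderiv ℂ χ.σ p) p := (χ.σ_an p hp).differentiableAt.hasFDerivAt
  have h3 := h1.comp p h2
  have h4 : HasFDerivAt (χ.q ∘ χ.σ) (ContinuousLinearMap.id ℂ (ℂ × ℂ)) p := by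
    apply (hasFDerivAt_id p).congr_of_eventuallyEq
    filter_upwards [isOpen_ball.mem_nhds hp] with y hy
    exact (χ.σ_mem y hy).2.2
  have h5 := h3.unique h4
  have h6 := congrArg (fun L : (ℂ × ℂ) →L[ℂ] (ℂ × ℂ) => L w) h5
  simpa using h6

theorem Chart.sigma_mem_iff (χ : Chart X) {x : EN N} (hx : x ∈ X) (hU : x ∈ χ.U) {S : Set (EN N)}
    (hS : ∀ y ∈ S, ∀ c : ℂ, c ≠ 0 → c • y ∈ S) : χ.σ (χ.q x) ∈ S ↔ x ∈ S := by
  obtain ⟨_, c, hc, h1⟩ := χ.surj x hx hU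
  constructor
  · intro h
    rw [h1]
    exact hS _ h c hc
  · intro h
    have h2 : χ.σ (χ.q x) = c⁻¹ • x := by
      conv_rhs => rw [h1]
      rw [smul_smul, inv_mul_cancel₀ hc, one_smul]
    rw [h2]
    exact hS _ h _ (inv_ne_zero hc)

theorem ChartBasic_swap_mem {p : ℂ × ℂ} (hp : p ∈ ball (0 : ℂ × ℂ) 2) :
    p.swap ∈ ball (0 : ℂ × ℂ) 2 := by
  rw [mem_ball_zero_iff] at hp ⊢
  rw [Prod.norm_def] at hp ⊢
  rw [Prod.fst_swap, Prod.snd_swap, max_comm]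
  exact hp

private theorem ChartBasic_swap_an (p : ℂ × ℂ) :
    AnalyticAt ℂ (fun p : ℂ × ℂ => p.swap) p := by
  have : (fun p : ℂ × ℂ => p.swap) = fun p => (p.2, p.1) := rfl
  rw [this]
  exact AnalyticAt.prod analyticAt_snd analyticAt_fst

/-- The same chart with the two coordinates exchanged. -/
def Chart.swap (χ : Chart X) : Chart X where
  σ p := χ.σ p.swap
  U := χ.U
  q x := (χ.q x).swap
  isOpen_U := χ.isOpen_U
  smul_U := χ.smul_U
  σ_an p hp := AnalyticAt.comp (g := χ.σ) (f := fun p : ℂ × ℂ => p.swap)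
    (χ.σ_an _ (ChartBasic_swap_mem hp)) (ChartBasic_swap_an p)
  q_an x hx := AnalyticAt.comp (g := fun p : ℂ × ℂ => p.swap) (f := χ.q)
    (ChartBasic_swap_an _) (χ.q_an x hx)
  q_smul x hx c hc := by rw [χ.q_smul x hx c hc]
  σ_mem p hp := by
    obtain ⟨h1, h2, h3⟩ := χ.σ_mem _ (ChartBasic_swap_mem hp)
    refine ⟨h1, h2, ?_⟩
    rw [h3, Prod.swap_swap]
  surj x hx hU := by
    obtain ⟨h1, c, hc, h2⟩ := χ.surj x hx hU
    refine ⟨ChartBasic_swap_mem h1, c, hc, ?_⟩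
    rw [Prod.swap_swap]
    exact h2

/-- The oriented chart. -/
def Chart.orient (b : Bool) (χ : Chart X) : Chart X := if b = true then χ.swap else χ

/-- Orientation of the coordinates. -/
def ori (b : Bool) (p : ℂ × ℂ) : ℂ × ℂ := if b = true then p.swap else p

end Pool.Agent.H14.PP

end

section

/-!
# KR Ch: charts of a cone by coordinate ratios

`CChart P x t σ`: `σ` is the chart at the point `x` of the cone of `P` whose coordinates are the ratios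
`x_(t 1) / x_(t 0)`, `x_(t 2) / x_(t 0)`.  `D3 t x v w` is the `3 × 3` minor `t` of the matrix with the rows `x, v, w`.
`d1 φ u`, `d2 φ u` are the partial derivatives of `φ : ℂ × ℂ → V`.

Proofs.
* `D3_add_smul`, `D3_det`, `D3_smul`: `simp only [D3, Pi.add_apply, Pi.smul_apply, smul_eq_mul]; ring`.
* `analyticAt_d1`, `analyticAt_d2`, `analyticAt_D3`: as in `D2` (`AnalyticAt.fderiv`); components by `analyticAt_pi_iff`.
* `d1_apply`, `d2_apply`: `(d1 φ u) i = dx (fun v => φ v i) u` if `φ` is differentiable at `u` (`fderiv_apply`-lemma of pi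
  types: `fderiv_pi`/`HasFDerivAt` composed with the projection `ContinuousLinearMap.proj i`).
* `CChart.D3_eq`: near `0` (`eventually_eventually_nhds`) the components `t 0, t 1, t 2` of `σ` are the affine functions of
  `c0, c1, c2`, so by `d1_apply` `d1 σ u` has the components `0, x (t 0), 0` and `d2 σ u` the components `0, 0, x (t 0)` at
  `t 0, t 1, t 2`; `D3 = x (t 0) ^ 3`.
* `CChart.param`: `κ u = (φ u (t 1) / φ u (t 0) - x (t 1) / x (t 0), …)`, `c u = φ u (t 0) / x (t 0)`, `surj` at `y = φ u`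
  (`φ` is continuous at `p`, `φ p = x`).
* `d1_smul_comp`: product and chain rule at `u`: `d1 φ u = (dx c u) • σ (κ u) + c u • (dx κ₁ u • d1 σ (κ u) + dx κ₂ u • d2 σ (κ u))`
  for `φ = c • σ ∘ κ` near `u`.
* `D3_comp`: from `d1_smul_comp`, `d2_smul_comp`: with `y = σ (κ u)`, `v, w` the derivatives:
  `D3 s (c y) (c_x y + c (a v + b w)) (c_y y + c (a' v + b' w)) = c ^ 3 (a b' - b a') D3 s y v w` (`simp only [D3, …]; ring`).
* `tan_of_analytic`: the curves `z ↦ φ (p + z (1, 0))`.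
* `CChart.tan`: for `v = γ' (0)`: with `κ z = (γ z (t 1) / γ z (t 0) - …, …)`, `c z = γ z (t 0) / x (t 0)`:
  `γ z = c z • σ (κ z)` near `0` by `surj`; differentiate at `0` (`c 0 = 1`, `κ 0 = 0`, `σ 0 = x`):
  `v = c' (0) • x + fderiv σ 0 (κ' 0)` and `fderiv σ 0 (a, b) = a • d1 σ 0 + b • d2 σ 0`.
* `CChart.nd_near`: `σ` is analytic on a ball about `0` (`AnalyticAt.eventually_analyticAt`); if `eval (σ u) Q = 0` near a point
  `p` of the ball, it vanishes on the ball (identity theorem,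
  `AnalyticOnNhd.eqOn_zero_of_preconnected_of_eventuallyEq_zero`), against `nd`.  (`u ↦ eval (σ u) Q` is analytic:
  `analyticAt_eval`, by `MvPolynomial.induction_on`.)
* `CChart.smul_mem`, `cone_smul`: for a homogeneous ideal `eval (c • x) Q = ∑ c ^ d eval x Q_d = 0`, because `Q_d ∈ P`.
-/

set_option autoImplicit false

open MvPolynomial Topology Filter
open Pool.Agent.H17BP (Tan)

noncomputable section

namespace Pool.Agent.H68.KR

attribute [-instance] ProperSMul.toContinuousSMul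

variable {N : ℕ}

/-- The cone (without the vertex) of the zero set of `P`. -/
def cone (P : Ideal (MvPolynomial (Fin (N + 1)) ℂ)) : Set (Fin (N + 1) → ℂ) :=
  {x | x ≠ 0 ∧ ∀ Q ∈ P, eval x Q = 0}

/-- The chart at `x` by the coordinate ratios `x_(t 1) / x_(t 0)`, `x_(t 2) / x_(t 0)`. -/
structure CChart (P : Ideal (MvPolynomial (Fin (N + 1)) ℂ)) (x : Fin (N + 1) → ℂ)
    (t : Fin 3 → Fin (N + 1)) (σ : ℂ × ℂ → Fin (N + 1) → ℂ) : Prop where
  an : AnalyticAt ℂ σ 0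
  zero : σ 0 = x
  ne : x (t 0) ≠ 0
  mem : ∀ᶠ u in 𝓝 (0 : ℂ × ℂ), ∀ Q ∈ P, eval (σ u) Q = 0
  c0 : ∀ᶠ u in 𝓝 (0 : ℂ × ℂ), σ u (t 0) = x (t 0)
  c1 : ∀ᶠ u in 𝓝 (0 : ℂ × ℂ), σ u (t 1) = x (t 1) + x (t 0) * u.1
  c2 : ∀ᶠ u in 𝓝 (0 : ℂ × ℂ), σ u (t 2) = x (t 2) + x (t 0) * u.2
  surj : ∀ᶠ y in 𝓝 x, (∀ Q ∈ P, eval y Q = 0) → y = (y (t 0) / x (t 0)) •
    σ (y (t 1) / y (t 0) - x (t 1) / x (t 0), y (t 2) / y (t 0) - x (t 2) / x (t 0))
  nd : ∀ (d : ℕ) (Q : MvPolynomial (Fin (N + 1)) ℂ), Q.IsHomogeneous d → Q ∉ P →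
    ¬ ∀ᶠ u in 𝓝 (0 : ℂ × ℂ), eval (σ u) Q = 0

/-- The minor `t` of the matrix with the rows `x, v, w`. -/
def D3 {F : Type} [Field F] (t : Fin 3 → Fin (N + 1)) (x v w : Fin (N + 1) → F) : F :=
  x (t 0) * (v (t 1) * w (t 2) - v (t 2) * w (t 1)) -
    x (t 1) * (v (t 0) * w (t 2) - v (t 2) * w (t 0)) +
    x (t 2) * (v (t 0) * w (t 1) - v (t 1) * w (t 0))

/-- The partial derivative in the first variable. -/
def d1 (φ : ℂ × ℂ → Fin (N + 1) → ℂ) (u : ℂ × ℂ) : Fin (N + 1) → ℂ := fderiv ℂ φ u (1, 0)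

/-- The partial derivative in the second variable. -/
def d2 (φ : ℂ × ℂ → Fin (N + 1) → ℂ) (u : ℂ × ℂ) : Fin (N + 1) → ℂ := fderiv ℂ φ u (0, 1)

/-- The Jacobian determinant. -/
def jac (κ : ℂ × ℂ → ℂ × ℂ) (u : ℂ × ℂ) : ℂ :=
  dx (fun v => (κ v).1) u * dy (fun v => (κ v).2) u - dy (fun v => (κ v).1) u * dx (fun v => (κ v).2) u

theorem D3_add_smul {F : Type} [Field F] (t : Fin 3 → Fin (N + 1)) (x v w : Fin (N + 1) → F) (a b : F) :
    D3 t x (v + a • x) (w + b • x) = D3 t x v w := by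
  simp only [D3, Pi.add_apply, Pi.smul_apply, smul_eq_mul]
  ring

theorem D3_det {F : Type} [Field F] (t : Fin 3 → Fin (N + 1)) (x v w : Fin (N + 1) → F) (a b c d : F) :
    D3 t x (a • v + b • w) (c • v + d • w) = (a * d - b * c) * D3 t x v w := by
  simp only [D3, Pi.add_apply, Pi.smul_apply, smul_eq_mul]
  ring

section

variable {φ : ℂ × ℂ → Fin (N + 1) → ℂ} {p : ℂ × ℂ}

theorem analyticAt_d1 (h : AnalyticAt ℂ φ p) : AnalyticAt ℂ (d1 φ) p := by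
  have h1 := ContinuousLinearMap.analyticAt
    (ContinuousLinearMap.apply ℂ (Fin (N + 1) → ℂ) ((1, 0) : ℂ × ℂ)) (fderiv ℂ φ p)
  exact AnalyticAt.comp (f := fderiv ℂ φ) h1 h.fderiv

theorem analyticAt_d2 (h : AnalyticAt ℂ φ p) : AnalyticAt ℂ (d2 φ) p := by
  have h1 := ContinuousLinearMap.analyticAt
    (ContinuousLinearMap.apply ℂ (Fin (N + 1) → ℂ) ((0, 1) : ℂ × ℂ)) (fderiv ℂ φ p)
  exact AnalyticAt.comp (f := fderiv ℂ φ) h1 h.fderiv

theorem analyticAt_D3 (t : Fin 3 → Fin (N + 1)) (h : AnalyticAt ℂ φ p) :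
    AnalyticAt ℂ (fun u => D3 t (φ u) (d1 φ u) (d2 φ u)) p := by
  have hx : ∀ i, AnalyticAt ℂ (fun u => φ u i) p := analyticAt_pi_iff.1 h
  have hv : ∀ i, AnalyticAt ℂ (fun u => d1 φ u i) p := analyticAt_pi_iff.1 (analyticAt_d1 h)
  have hw : ∀ i, AnalyticAt ℂ (fun u => d2 φ u i) p := analyticAt_pi_iff.1 (analyticAt_d2 h)
  unfold D3
  exact (((hx _).mul (((hv _).mul (hw _)).sub ((hv _).mul (hw _)))).sub
    ((hx _).mul (((hv _).mul (hw _)).sub ((hv _).mul (hw _))))).add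
    ((hx _).mul (((hv _).mul (hw _)).sub ((hv _).mul (hw _))))

theorem analyticAt_eval (h : AnalyticAt ℂ φ p) (Q : MvPolynomial (Fin (N + 1)) ℂ) :
    AnalyticAt ℂ (fun u => eval (φ u) Q) p := by
  have hi : ∀ i, AnalyticAt ℂ (fun u => φ u i) p := analyticAt_pi_iff.1 h
  induction Q using MvPolynomial.induction_on with
  | C a =>
    simp only [MvPolynomial.eval_C]
    exact analyticAt_const
  | add q r hq hr =>
    simp only [map_add]
    exact hq.add hr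
  | mul_X q i hq =>
    simp only [map_mul, MvPolynomial.eval_X]
    exact hq.mul (hi i)

theorem analyticAt_jac {κ : ℂ × ℂ → ℂ × ℂ} (h : AnalyticAt ℂ κ p) : AnalyticAt ℂ (jac κ) p := by
  have h1 : AnalyticAt ℂ (fun v => (κ v).1) p := 
    AnalyticAt.fun_comp (ContinuousLinearMap.analyticAt (ContinuousLinearMap.fst ℂ ℂ ℂ) _) h
  have h2 : AnalyticAt ℂ (fun v => (κ v).2) p := 
    AnalyticAt.fun_comp (ContinuousLinearMap.analyticAt (ContinuousLinearMap.snd ℂ ℂ ℂ) _) h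
  exact ((analyticAt_dx h1).mul (analyticAt_dy h2)).sub ((analyticAt_dy h1).mul (analyticAt_dx h2))

theorem d1_apply (h : AnalyticAt ℂ φ p) (i : Fin (N + 1)) : d1 φ p i = dx (fun v => φ v i) p := by
  have h1 := (hasFDerivAt_pi'.1 h.differentiableAt.hasFDerivAt) i
  unfold dx d1
  rw [h1.fderiv]
  rfl

theorem d2_apply (h : AnalyticAt ℂ φ p) (i : Fin (N + 1)) : d2 φ p i = dy (fun v => φ v i) p := by
  have h1 := (hasFDerivAt_pi'.1 h.differentiableAt.hasFDerivAt) i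
  unfold dy d2
  rw [h1.fderiv]
  rfl

theorem d1_smul_comp {σ : ℂ × ℂ → Fin (N + 1) → ℂ} {c : ℂ × ℂ → ℂ} {κ : ℂ × ℂ → ℂ × ℂ}
    (hc : AnalyticAt ℂ c p) (hκ : AnalyticAt ℂ κ p) (hσ : AnalyticAt ℂ σ (κ p))
    (h : ∀ᶠ u in 𝓝 p, φ u = c u • σ (κ u)) :
    ∀ᶠ u in 𝓝 p, d1 φ u = dx c u • σ (κ u) +
      c u • (dx (fun v => (κ v).1) u • d1 σ (κ u) + dx (fun v => (κ v).2) u • d2 σ (κ u)) := by
  have hφ : AnalyticAt ℂ φ p := by
    have h1 : AnalyticAt ℂ (fun u => c u • σ (κ u)) p := hc.smul (AnalyticAt.fun_comp hσ hκ)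
    exact h1.congr (h.mono fun u hu => hu.symm)
  have hκc : ∀ᶠ u in 𝓝 p, AnalyticAt ℂ σ (κ u) :=
    hκ.continuousAt.eventually hσ.eventually_analyticAt
  have hall : ∀ i : Fin (N + 1), ∀ᶠ u in 𝓝 p, d1 φ u i = (dx c u • σ (κ u) +
      c u • (dx (fun v => (κ v).1) u • d1 σ (κ u) + dx (fun v => (κ v).2) u • d2 σ (κ u))) i := by
    intro i
    have hσi : AnalyticAt ℂ (fun v => σ v i) (κ p) := analyticAt_pi_iff.1 hσ i
    have hσκ : AnalyticAt ℂ (fun u => σ (κ u) i) p :=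
      AnalyticAt.fun_comp (f := κ) (g := fun v => σ v i) hσi hκ
    have e1 : ∀ᶠ u in 𝓝 p, φ u i = c u * σ (κ u) i := h.mono fun u hu => by
      rw [hu, Pi.smul_apply, smul_eq_mul]
    have e2 := dx_congr e1
    have e3 := dx_mul hc hσκ
    have e4 := dx_comp (f := fun v => σ v i) hκ hσi
    filter_upwards [e2, e3, e4, hκc, hφ.eventually_analyticAt] with u u2 u3 u4 u5 u6
    rw [d1_apply u6, u2, u3, u4, Pi.add_apply, Pi.smul_apply, Pi.smul_apply, Pi.add_apply,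
      Pi.smul_apply, Pi.smul_apply, d1_apply u5, d2_apply u5]
    simp only [smul_eq_mul]
    ring
  filter_upwards [eventually_all.2 hall] with u hu
  funext i
  exact hu i

theorem d2_smul_comp {σ : ℂ × ℂ → Fin (N + 1) → ℂ} {c : ℂ × ℂ → ℂ} {κ : ℂ × ℂ → ℂ × ℂ}
    (hc : AnalyticAt ℂ c p) (hκ : AnalyticAt ℂ κ p) (hσ : AnalyticAt ℂ σ (κ p))
    (h : ∀ᶠ u in 𝓝 p, φ u = c u • σ (κ u)) :
    ∀ᶠ u in 𝓝 p, d2 φ u = dy c u • σ (κ u) +
      c u • (dy (fun v => (κ v).1) u • d1 σ (κ u) + dy (fun v => (κ v).2) u • d2 σ (κ u)) := by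
  have hφ : AnalyticAt ℂ φ p := by
    have h1 : AnalyticAt ℂ (fun u => c u • σ (κ u)) p := hc.smul (AnalyticAt.fun_comp hσ hκ)
    exact h1.congr (h.mono fun u hu => hu.symm)
  have hκc : ∀ᶠ u in 𝓝 p, AnalyticAt ℂ σ (κ u) :=
    hκ.continuousAt.eventually hσ.eventually_analyticAt
  have hall : ∀ i : Fin (N + 1), ∀ᶠ u in 𝓝 p, d2 φ u i = (dy c u • σ (κ u) +
      c u • (dy (fun v => (κ v).1) u • d1 σ (κ u) + dy (fun v => (κ v).2) u • d2 σ (κ u))) i := by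
    intro i
    have hσi : AnalyticAt ℂ (fun v => σ v i) (κ p) := analyticAt_pi_iff.1 hσ i
    have hσκ : AnalyticAt ℂ (fun u => σ (κ u) i) p :=
      AnalyticAt.fun_comp (f := κ) (g := fun v => σ v i) hσi hκ
    have e1 : ∀ᶠ u in 𝓝 p, φ u i = c u * σ (κ u) i := h.mono fun u hu => by
      rw [hu, Pi.smul_apply, smul_eq_mul]
    have e2 := dy_congr e1
    have e3 := dy_mul hc hσκ
    have e4 := dy_comp (f := fun v => σ v i) hκ hσi
    filter_upwards [e2, e3, e4, hκc, hφ.eventually_analyticAt] with u u2 u3 u4 u5 u6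
    rw [d2_apply u6, u2, u3, u4, Pi.add_apply, Pi.smul_apply, Pi.smul_apply, Pi.add_apply,
      Pi.smul_apply, Pi.smul_apply, d1_apply u5, d2_apply u5]
    simp only [smul_eq_mul]
    ring
  filter_upwards [eventually_all.2 hall] with u hu
  funext i
  exact hu i

theorem D3_comp (s : Fin 3 → Fin (N + 1)) {σ : ℂ × ℂ → Fin (N + 1) → ℂ} {c : ℂ × ℂ → ℂ}
    {κ : ℂ × ℂ → ℂ × ℂ} (hc : AnalyticAt ℂ c p) (hκ : AnalyticAt ℂ κ p) (hσ : AnalyticAt ℂ σ (κ p))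
    (h : ∀ᶠ u in 𝓝 p, φ u = c u • σ (κ u)) :
    ∀ᶠ u in 𝓝 p, D3 s (φ u) (d1 φ u) (d2 φ u) =
      c u ^ 3 * jac κ u * D3 s (σ (κ u)) (d1 σ (κ u)) (d2 σ (κ u)) := by
  filter_upwards [h, d1_smul_comp hc hκ hσ h, d2_smul_comp hc hκ hσ h] with u h0 h1 h2
  rw [h1, h2, h0]
  simp only [D3, jac, Pi.add_apply, Pi.smul_apply, smul_eq_mul]
  ring

theorem tan_d1 {X : Set (Fin (N + 1) → ℂ)} (h : AnalyticAt ℂ φ p) (hX : ∀ᶠ u in 𝓝 p, φ u ∈ X) :
    d1 φ p ∈ Tan X (φ p) := by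
  have hl : HasDerivAt (fun z : ℂ => p + z • ((1, 0) : ℂ × ℂ)) ((1, 0)) 0 := by
    have h1 := ((hasDerivAt_id (0 : ℂ)).smul_const ((1, 0) : ℂ × ℂ)).const_add p
    rw [one_smul] at h1
    exact h1
  have h0 : p + (0 : ℂ) • ((1, 0) : ℂ × ℂ) = p := by rw [zero_smul, add_zero]
  have hla : AnalyticAt ℂ (fun z : ℂ => p + z • ((1, 0) : ℂ × ℂ)) 0 :=
    analyticAt_const.add (analyticAt_id.smul analyticAt_const)
  refine ⟨fun z => φ (p + z • ((1, 0) : ℂ × ℂ)), ?_, ?_, ?_, ?_⟩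
  · refine AnalyticAt.fun_comp (g := φ) ?_ hla
    rw [h0]
    exact h
  · have h2 := hla.continuousAt
    have h3 : Tendsto (fun z : ℂ => p + z • ((1, 0) : ℂ × ℂ)) (𝓝 0) (𝓝 p) := by
      have h4 := h2.tendsto
      rwa [h0] at h4
    exact h3.eventually hX
  · dsimp only
    rw [h0]
  · have hφ : HasFDerivAt φ (fderiv ℂ φ p) (p + (0 : ℂ) • ((1, 0) : ℂ × ℂ)) := by
      rw [h0]
      exact h.differentiableAt.hasFDerivAt
    exact (hφ.comp_hasDerivAt 0 hl).deriv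

theorem tan_d2 {X : Set (Fin (N + 1) → ℂ)} (h : AnalyticAt ℂ φ p) (hX : ∀ᶠ u in 𝓝 p, φ u ∈ X) :
    d2 φ p ∈ Tan X (φ p) := by
  have hl : HasDerivAt (fun z : ℂ => p + z • ((0, 1) : ℂ × ℂ)) ((0, 1)) 0 := by
    have h1 := ((hasDerivAt_id (0 : ℂ)).smul_const ((0, 1) : ℂ × ℂ)).const_add p
    rw [one_smul] at h1
    exact h1
  have h0 : p + (0 : ℂ) • ((0, 1) : ℂ × ℂ) = p := by rw [zero_smul, add_zero]
  have hla : AnalyticAt ℂ (fun z : ℂ => p + z • ((0, 1) : ℂ × ℂ)) 0 :=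
    analyticAt_const.add (analyticAt_id.smul analyticAt_const)
  refine ⟨fun z => φ (p + z • ((0, 1) : ℂ × ℂ)), ?_, ?_, ?_, ?_⟩
  · refine AnalyticAt.fun_comp (g := φ) ?_ hla
    rw [h0]
    exact h
  · have h2 := hla.continuousAt
    have h3 : Tendsto (fun z : ℂ => p + z • ((0, 1) : ℂ × ℂ)) (𝓝 0) (𝓝 p) := by
      have h4 := h2.tendsto
      rwa [h0] at h4
    exact h3.eventually hX
  · dsimp only
    rw [h0]
  · have hφ : HasFDerivAt φ (fderiv ℂ φ p) (p + (0 : ℂ) • ((0, 1) : ℂ × ℂ)) := by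
      rw [h0]
      exact h.differentiableAt.hasFDerivAt
    exact (hφ.comp_hasDerivAt 0 hl).deriv

end

section

variable {P : Ideal (MvPolynomial (Fin (N + 1)) ℂ)} {x : Fin (N + 1) → ℂ} {t : Fin 3 → Fin (N + 1)}
  {σ : ℂ × ℂ → Fin (N + 1) → ℂ}

private theorem Ch_eval_smul {Q : MvPolynomial (Fin (N + 1)) ℂ} {n : ℕ} (hQ : Q.IsHomogeneous n) (c : ℂ)
    (x : Fin (N + 1) → ℂ) : eval (c • x) Q = c ^ n * eval x Q := by
  rw [eval_eq, eval_eq, Finset.mul_sum]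
  refine Finset.sum_congr rfl fun d hd => ?_
  have h1 : ∑ i ∈ d.support, d i = n := by
    have h2 := hQ (mem_support_iff.1 hd)
    rw [← h2, Finsupp.weight_apply, Finsupp.sum]
    refine Finset.sum_congr rfl fun i _ => ?_
    simp
  have h3 : ∏ i ∈ d.support, (c • x) i ^ d i = c ^ n * ∏ i ∈ d.support, x i ^ d i := by
    rw [← h1, ← Finset.prod_pow_eq_pow_sum, ← Finset.prod_mul_distrib]
    refine Finset.prod_congr rfl fun i _ => ?_
    rw [Pi.smul_apply, smul_eq_mul, mul_pow]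
  rw [h3]
  ring

theorem cone_smul (hP : ∀ p ∈ P, ∀ n, homogeneousComponent n p ∈ P) (hx : x ∈ cone P) {c : ℂ}
    (hc : c ≠ 0) : c • x ∈ cone P := by
  obtain ⟨h1, h2⟩ := hx
  refine ⟨smul_ne_zero hc h1, fun Q hQ => ?_⟩
  rw [← sum_homogeneousComponent Q, map_sum]
  refine Finset.sum_eq_zero fun i _ => ?_
  rw [Ch_eval_smul (homogeneousComponent_isHomogeneous i Q), h2 _ (hP Q hQ i), mul_zero]

theorem CChart.mem_cone (h : CChart P x t σ) : ∀ᶠ u in 𝓝 (0 : ℂ × ℂ), σ u ∈ cone P := by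
  filter_upwards [h.mem, h.c0] with u h1 h2
  refine ⟨fun h3 => h.ne ?_, h1⟩
  rw [← h2, h3]
  rfl

theorem CChart.D3_eq (h : CChart P x t σ) :
    ∀ᶠ u in 𝓝 (0 : ℂ × ℂ), D3 t (σ u) (d1 σ u) (d2 σ u) = x (t 0) ^ 3 := by
  filter_upwards [h.an.eventually_analyticAt, eventually_eventually_nhds.2 h.c0,
    eventually_eventually_nhds.2 h.c1, eventually_eventually_nhds.2 h.c2] with u hu h0 h1 h2
  have a0 : HasFDerivAt (fun v => σ v (t 0)) (0 : ℂ × ℂ →L[ℂ] ℂ) u :=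
    (hasFDerivAt_const (x (t 0)) u).congr_of_eventuallyEq h0
  have a1 : HasFDerivAt (fun v => σ v (t 1)) (x (t 0) • ContinuousLinearMap.fst ℂ ℂ ℂ) u := by
    have h3 : HasFDerivAt (fun v : ℂ × ℂ => x (t 1) + x (t 0) * v.1)
        (x (t 0) • ContinuousLinearMap.fst ℂ ℂ ℂ) u :=
      (hasFDerivAt_fst.const_mul (x (t 0))).const_add (x (t 1))
    exact h3.congr_of_eventuallyEq h1
  have a2 : HasFDerivAt (fun v => σ v (t 2)) (x (t 0) • ContinuousLinearMap.snd ℂ ℂ ℂ) u := by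
    have h3 : HasFDerivAt (fun v : ℂ × ℂ => x (t 2) + x (t 0) * v.2)
        (x (t 0) • ContinuousLinearMap.snd ℂ ℂ ℂ) u :=
      (hasFDerivAt_snd.const_mul (x (t 0))).const_add (x (t 2))
    exact h3.congr_of_eventuallyEq h2
  unfold D3
  rw [d1_apply hu, d1_apply hu, d1_apply hu, d2_apply hu, d2_apply hu, d2_apply hu]
  unfold dx dy
  rw [a0.fderiv, a1.fderiv, a2.fderiv, h0.self_of_nhds]
  simp only [ContinuousLinearMap.zero_apply, ContinuousLinearMap.smul_apply, ContinuousLinearMap.coe_fst',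
    ContinuousLinearMap.coe_snd', smul_eq_mul]
  ring

private theorem Ch_proj {E : Type} [NormedAddCommGroup E] [NormedSpace ℂ E] {φ : E → Fin (N + 1) → ℂ} {p : E}
    (h : AnalyticAt ℂ φ p) (i : Fin (N + 1)) : AnalyticAt ℂ (fun u => φ u i) p :=
  analyticAt_pi_iff.1 h i

private theorem Ch_param (h : CChart P x t σ) {E : Type} [NormedAddCommGroup E] [NormedSpace ℂ E]
    {φ : E → Fin (N + 1) → ℂ} {p : E}
    (hφ : AnalyticAt ℂ φ p) (hφx : φ p = x) (hφP : ∀ᶠ u in 𝓝 p, ∀ Q ∈ P, eval (φ u) Q = 0) :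
    ∃ (κ : E → ℂ × ℂ) (c : E → ℂ), AnalyticAt ℂ κ p ∧ AnalyticAt ℂ c p ∧ κ p = 0 ∧ c p = 1 ∧
      ∀ᶠ u in 𝓝 p, φ u = c u • σ (κ u) := by
  have hne : φ p (t 0) ≠ 0 := by
    rw [hφx]
    exact h.ne
  refine ⟨fun u => (φ u (t 1) / φ u (t 0) - x (t 1) / x (t 0), φ u (t 2) / φ u (t 0) - x (t 2) / x (t 0)),
    fun u => φ u (t 0) / x (t 0), ?_, ?_, ?_, ?_, ?_⟩
  · exact (((Ch_proj hφ _).div (Ch_proj hφ _) hne).sub analyticAt_const).prod
      (((Ch_proj hφ _).div (Ch_proj hφ _) hne).sub analyticAt_const)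
  · exact (Ch_proj hφ _).div analyticAt_const h.ne
  · simp only [hφx, sub_self]
    rfl
  · simp only [hφx]
    exact div_self h.ne
  · have h1 : Tendsto φ (𝓝 p) (𝓝 x) := by
      have := hφ.continuousAt.tendsto
      rwa [hφx] at this
    filter_upwards [h1.eventually h.surj, hφP] with u h2 h3
    exact h2 h3

theorem CChart.param (h : CChart P x t σ) {φ : ℂ × ℂ → Fin (N + 1) → ℂ} {p : ℂ × ℂ}
    (hφ : AnalyticAt ℂ φ p) (hφx : φ p = x) (hφP : ∀ᶠ u in 𝓝 p, ∀ Q ∈ P, eval (φ u) Q = 0) :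
    ∃ (κ : ℂ × ℂ → ℂ × ℂ) (c : ℂ × ℂ → ℂ), AnalyticAt ℂ κ p ∧ AnalyticAt ℂ c p ∧ κ p = 0 ∧ c p = 1 ∧
      ∀ᶠ u in 𝓝 p, φ u = c u • σ (κ u) := by
  exact Ch_param h hφ hφx hφP

theorem CChart.tan (h : CChart P x t σ) {v : Fin (N + 1) → ℂ} (hv : v ∈ Tan (cone P) x) :
    ∃ a b c : ℂ, v = a • d1 σ 0 + b • d2 σ 0 + c • x := by
  obtain ⟨γ, hγ, hγP, hγ0, hγv⟩ := hv
  obtain ⟨κ, c, hκ, hc, hκ0, hc0, he⟩ := Ch_param h hγ hγ0 (hγP.mono fun z hz => hz.2)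
  have h1 : HasDerivAt γ v 0 := by
    rw [← hγv]
    exact hγ.differentiableAt.hasDerivAt
  have h2 : HasDerivAt κ (deriv κ 0) 0 := hκ.differentiableAt.hasDerivAt
  have h3 : HasDerivAt c (deriv c 0) 0 := hc.differentiableAt.hasDerivAt
  have h4 : HasFDerivAt σ (fderiv ℂ σ 0) (κ 0) := by
    rw [hκ0]
    exact h.an.differentiableAt.hasFDerivAt
  have h5 : HasDerivAt (fun z => σ (κ z)) (fderiv ℂ σ 0 (deriv κ 0)) 0 := h4.comp_hasDerivAt 0 h2
  have h6 : HasDerivAt (fun z => c z • σ (κ z)) (c 0 • fderiv ℂ σ 0 (deriv κ 0) + deriv c 0 • σ (κ 0)) 0 :=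
    h3.smul h5
  have h7 := h1.unique (h6.congr_of_eventuallyEq he)
  rw [hc0, one_smul, hκ0, h.zero] at h7
  refine ⟨(deriv κ 0).1, (deriv κ 0).2, deriv c 0, ?_⟩
  have h8 : deriv κ 0 = (deriv κ 0).1 • ((1 : ℂ), (0 : ℂ)) + (deriv κ 0).2 • ((0 : ℂ), (1 : ℂ)) := by
    ext <;> simp
  rw [h7]
  congr 1
  conv_lhs => rw [h8]
  rw [map_add, map_smul, map_smul]
  rfl

theorem CChart.nd_near (h : CChart P x t σ) :
    ∀ᶠ p in 𝓝 (0 : ℂ × ℂ), ∀ (d : ℕ) (Q : MvPolynomial (Fin (N + 1)) ℂ), Q.IsHomogeneous d → Q ∉ P →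
      ¬ ∀ᶠ u in 𝓝 p, eval (σ u) Q = 0 := by
  obtain ⟨r, hr, hB⟩ := Metric.eventually_nhds_iff_ball.1 h.an.eventually_analyticAt
  filter_upwards [Metric.ball_mem_nhds (0 : ℂ × ℂ) hr] with p hp d Q hQ hQP hcon
  have h1 : AnalyticOnNhd ℂ (fun u => eval (σ u) Q) (Metric.ball (0 : ℂ × ℂ) r) :=
    fun u hu => analyticAt_eval (hB u hu) Q
  have h2 := h1.eqOn_zero_of_preconnected_of_eventuallyEq_zero
    (convex_ball (0 : ℂ × ℂ) r).isPreconnected hp hcon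
  refine h.nd d Q hQ hQP ?_
  filter_upwards [Metric.ball_mem_nhds (0 : ℂ × ℂ) hr] with u hu
  exact h2 hu

end

end Pool.Agent.H68.KR

end
end
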