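import Pool.Agent.H94.CB.H68.KR.D2

/-! The parts of this file: H68.KR.CB1, H68.KR.CB2, H68.KR.CB3, H68.KR.CB4. -/

section

/-!
# KR CB1: a jointly analytic function as an analytic family of functions on a compact set

`S ⊆ ℂ` compact, `f : ℂ × ℂ → ℂ` analytic at all points `(0, ζ)`, `ζ ∈ S`.  Then `x ↦ f (x, ·)` is an analytic map
from a neighbourhood of `0` into the Banach space `C(S, ℂ)`.

Proof.  By compactness of `S` (tube lemma: `generalized_tube_lemma` or `IsCompact.induction_on`/finite cover, the set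
`{p | AnalyticAt ℂ f p}` is open: `isOpen_analyticAt`) there is `r > 0` such that `f` is analytic at all `(x, ζ)` with
`|x| < 2 r`, `ζ ∈ S`.  Put `Φ x = ⟨fun ζ => f (x, ζ), _⟩` for `|x| < 2 r` (continuous), `0` otherwise, and in the same
way `Ψ x ζ = ∂f/∂x (x, ζ) = fderiv ℂ f (x, ζ) (1, 0)`.  It is enough (`DifferentiableOn.analyticAt`, one complex
variable, Banach space valued) to prove `HasDerivAt Φ (Ψ x) x` for `|x| < r`.  Let `ε > 0`.  `∂f/∂x` is uniformly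
continuous on the compact set `closedBall 0 r ×ˢ S`, moreover continuous near it; choose `δ` such that
`‖∂f/∂x (x + h, ζ) - ∂f/∂x (x, ζ)‖ ≤ ε` for `|h| ≤ δ` and all `ζ ∈ S` (`|x + h| < 2 r`; take the compact set
`closedBall x δ₀ ×ˢ S`, `IsCompact.uniformContinuousOn_of_continuous`).  The function
`g (s) = f (s, ζ) - s * ∂f/∂x (x, ζ)` has `‖g' (s)‖ ≤ ε` for `|s - x| ≤ δ`, so by the mean value inequality
(`Convex.norm_image_sub_le_of_norm_hasDerivWithin_le`, `convex_ball`)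
`‖f (x + h, ζ) - f (x, ζ) - h ∂f/∂x (x, ζ)‖ ≤ ε |h|` for all `ζ ∈ S` and `|h| < δ`, that is
`‖Φ (x + h) - Φ x - h • Ψ x‖ ≤ ε |h|` (`ContinuousMap.norm_le`), which is `hasDerivAt_iff_isLittleO` /
`hasDerivAt_iff_isLittleO_nhds_zero`.

(Another possible proof: composition with `f` is an analytic map `C(S, ℂ × ℂ) → C(S, ℂ)`.)
-/

set_option autoImplicit false

open Topology Filter Metric

noncomputable section

namespace Pool.Agent.H68.KR

attribute [-instance] ProperSMul.toContinuousSMul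

open scoped Classical in
/-- The restriction of a function to `S` as a continuous map (`0` if it is not continuous). -/
private def CB1_restr (S : Set ℂ) (g : ℂ → ℂ) : C(S, ℂ) :=
  if h : Continuous fun ζ : S => g (ζ : ℂ) then ⟨fun ζ : S => g (ζ : ℂ), h⟩ else 0

private theorem CB1_restr_apply {S : Set ℂ} {g : ℂ → ℂ} (h : ∀ ζ ∈ S, ContinuousAt g ζ) (ζ : S) :
    CB1_restr S g ζ = g (ζ : ℂ) := by
  have h1 : Continuous fun ζ : S => g (ζ : ℂ) := by
    rw [continuous_iff_continuousAt]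
    intro z
    exact ContinuousAt.comp (h z z.2) continuous_subtype_val.continuousAt
  rw [CB1_restr, dif_pos h1]
  rfl

private theorem CB1_hasDerivAt {f : ℂ × ℂ → ℂ} {x ζ : ℂ} (h : AnalyticAt ℂ f (x, ζ)) :
    HasDerivAt (fun s => f (s, ζ)) (fderiv ℂ f (x, ζ) (1, 0)) x := by
  have h1 : HasDerivAt (fun s : ℂ => (s, ζ)) ((1 : ℂ), (0 : ℂ)) x :=
    (hasDerivAt_id x).prodMk (hasDerivAt_const x ζ)
  have h2 : HasFDerivAt f (fderiv ℂ f (x, ζ)) (x, ζ) := h.differentiableAt.hasFDerivAt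
  exact h2.comp_hasDerivAt x h1

private theorem CB1_continuousAt {f : ℂ × ℂ → ℂ} {p : ℂ × ℂ} (h : AnalyticAt ℂ f p) :
    ContinuousAt (fun q : ℂ × ℂ => fderiv ℂ f q (1, 0)) p := by
  have h1 : ContinuousAt (fderiv ℂ f) p := h.fderiv.continuousAt
  exact h1.clm_apply continuousAt_const

private theorem CB1_deriv {S : Set ℂ} (hS : IsCompact S) [CompactSpace S] {f : ℂ × ℂ → ℂ} {x : ℂ}
    (hx : ∀ ζ ∈ S, AnalyticAt ℂ f (x, ζ)) :
    HasDerivAt (fun s : ℂ => CB1_restr S fun ζ => f (s, ζ))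
      (CB1_restr S fun ζ => fderiv ℂ f (x, ζ) (1, 0)) x := by
  have hcont : ∀ y : ℂ, (∀ ζ ∈ S, AnalyticAt ℂ f (y, ζ)) → ∀ ζ ∈ S,
      ContinuousAt (fun z => f (y, z)) ζ := by
    intro y hy ζ hζ
    exact ContinuousAt.comp (f := fun z : ℂ => (y, z)) (hy ζ hζ).continuousAt (by fun_prop)
  have hcont' : ∀ ζ ∈ S, ContinuousAt (fun z => fderiv ℂ f (x, z) (1, 0)) ζ := by
    intro ζ hζ
    exact ContinuousAt.comp (f := fun z : ℂ => (x, z)) (CB1_continuousAt (hx ζ hζ)) (by fun_prop)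
  rw [hasDerivAt_iff_isLittleO, Asymptotics.isLittleO_iff]
  intro c hc
  have h1 : ∀ᶠ y in 𝓝 x, ∀ ζ ∈ S, AnalyticAt ℂ f (y, ζ) :=
    hS.eventually_forall_of_forall_eventually fun ζ hζ => (hx ζ hζ).eventually_analyticAt
  have h2 : ∀ᶠ y in 𝓝 x, ∀ ζ ∈ S,
      ‖fderiv ℂ f (y, ζ) (1, 0) - fderiv ℂ f (x, ζ) (1, 0)‖ < c := by
    refine hS.eventually_forall_of_forall_eventually
      (P := fun y ζ => ‖fderiv ℂ f (y, ζ) (1, 0) - fderiv ℂ f (x, ζ) (1, 0)‖ < c) fun ζ hζ => ?_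
    have h3 : ContinuousAt (fun q : ℂ × ℂ => fderiv ℂ f (q.1, q.2) (1, 0)) (x, ζ) :=
      CB1_continuousAt (hx ζ hζ)
    have h4 : ContinuousAt (fun q : ℂ × ℂ => fderiv ℂ f (x, q.2) (1, 0)) (x, ζ) :=
      ContinuousAt.comp (f := fun q : ℂ × ℂ => (x, q.2))
        (g := fun q : ℂ × ℂ => fderiv ℂ f q (1, 0)) (CB1_continuousAt (hx ζ hζ)) (by fun_prop)
    have h5 := (h3.sub h4).norm
    refine h5.eventually_lt continuousAt_const ?_
    simpa using hc
  obtain ⟨δ, hδ, hb⟩ := Metric.eventually_nhds_iff_ball.1 (h1.and h2)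
  filter_upwards [Metric.ball_mem_nhds x hδ] with y hy
  rw [ContinuousMap.norm_le _ (by positivity)]
  intro ζ
  have h6 : ∀ s ∈ Metric.ball x δ, HasDerivWithinAt
      (fun s => f (s, (ζ : ℂ)) - s * fderiv ℂ f (x, (ζ : ℂ)) (1, 0))
      (fderiv ℂ f (s, (ζ : ℂ)) (1, 0) - fderiv ℂ f (x, (ζ : ℂ)) (1, 0)) (Metric.ball x δ) s := by
    intro s hs
    have h7 := CB1_hasDerivAt ((hb s hs).1 ζ ζ.2)
    have h8 : HasDerivAt (fun s : ℂ => s * fderiv ℂ f (x, (ζ : ℂ)) (1, 0))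
        (1 * fderiv ℂ f (x, (ζ : ℂ)) (1, 0)) s := (hasDerivAt_id s).mul_const _
    rw [one_mul] at h8
    exact (h7.sub h8).hasDerivWithinAt
  have h9 := (convex_ball x δ).norm_image_sub_le_of_norm_hasDerivWithin_le h6
    (fun s hs => ((hb s hs).2 ζ ζ.2).le) (Metric.mem_ball_self hδ) hy
  have h10 : (CB1_restr S (fun ζ => f (y, ζ)) - CB1_restr S (fun ζ => f (x, ζ)) -
      (y - x) • CB1_restr S fun ζ => fderiv ℂ f (x, ζ) (1, 0)) ζ =
      f (y, (ζ : ℂ)) - y * fderiv ℂ f (x, (ζ : ℂ)) (1, 0) -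
        (f (x, (ζ : ℂ)) - x * fderiv ℂ f (x, (ζ : ℂ)) (1, 0)) := by
    rw [ContinuousMap.sub_apply, ContinuousMap.sub_apply, ContinuousMap.smul_apply,
      CB1_restr_apply (hcont y (hb y hy).1), CB1_restr_apply (hcont x hx),
      CB1_restr_apply hcont', smul_eq_mul]
    ring
  rw [h10]
  exact h9

theorem exists_family {S : Set ℂ} (hS : IsCompact S) [CompactSpace S] {f : ℂ × ℂ → ℂ}
    (hf : ∀ ζ ∈ S, AnalyticAt ℂ f (0, ζ)) :
    ∃ Φ : ℂ → C(S, ℂ), AnalyticAt ℂ Φ 0 ∧ ∀ᶠ x in 𝓝 (0 : ℂ), ∀ ζ : S, Φ x ζ = f (x, (ζ : ℂ)) := by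
  have h1 : ∀ᶠ y in 𝓝 (0 : ℂ), ∀ ζ ∈ S, AnalyticAt ℂ f (y, ζ) :=
    hS.eventually_forall_of_forall_eventually fun ζ hζ => (hf ζ hζ).eventually_analyticAt
  refine ⟨fun s : ℂ => CB1_restr S fun ζ => f (s, ζ), ?_, ?_⟩
  · rw [Complex.analyticAt_iff_eventually_differentiableAt]
    filter_upwards [h1] with y hy
    exact (CB1_deriv hS hy).differentiableAt
  · filter_upwards [h1] with y hy ζ
    refine CB1_restr_apply (g := fun z => f (y, z)) (fun z hz => ?_) ζ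
    exact ContinuousAt.comp (f := fun z : ℂ => (y, z)) (hy z hz).continuousAt (by fun_prop)

end Pool.Agent.H68.KR

end
end

section

/-!
# KR CB2: Cauchy's integral with an analytic parameter

`A, B` are analytic at the points `(0, ζ)`, `|ζ| = ρ`, and `B (0, ζ) ≠ 0` there.  Let `S = sphere 0 ρ` (compact).

* `exists_functional`: `I g = (2πi)⁻¹ ∮ g (ζ) dζ` is a continuous linear functional of `C(S, ℂ)`: it is
  `(2πi)⁻¹ • ∫ θ in 0..2π, deriv (circleMap 0 ρ) θ * g (circleMap 0 ρ θ)` with `circleMap 0 ρ θ ∈ S`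
  (`circleMap_mem_sphere`), linear, and of norm `≤ ρ` (`intervalIntegral.norm_integral_le_of_norm_le_const`),
  `LinearMap.mkContinuous`.  For `h : ℂ → ℂ` with `g ζ = h ζ` on `S`: `I g = (2πi)⁻¹ ∮ h`.
* `exists_kernel`: for `|y₀| < ρ` there is `κ : ℂ → C(S, ℂ)` analytic at `y₀` with `κ y ζ = (ζ - y)⁻¹` for `y` near
  `y₀`: `κ y = Ring.inverse (ι - y • 1)` with `ι ζ = ζ`; `ι - y₀ • 1` is a unit of the Banach algebra `C(S, ℂ)`
  (no zero: `ContinuousMap.isUnit_iff_forall_ne_zero`), `analyticAt_inverse`, and `Ring.inverse` of a unit is the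
  pointwise inverse.
* `exists_cauchy`: `𝓐, 𝓑 : ℂ → C(S, ℂ)` from `exists_family`, `𝓑 0` is a unit, so `x ↦ Ring.inverse (𝓑 x)` is analytic
  at `0`, with the values `1 / B (x, ζ)` for `x` near `0` (units are open).  One fixed function
  `κ y = Ring.inverse (ι - y • 1)`.  `Φ (x, y) = I (𝓐 x * Ring.inverse (𝓑 x) * κ y)` is analytic at `(0, y)` for
  `|y| < ρ` (compositions with `Prod.fst`, `Prod.snd`, product in a Banach algebra, continuous linear `I`).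
  If `A (x, ζ) = B (x, ζ) q (ζ)` on `S`, then the function in `I` is `ζ ↦ q ζ / (ζ - y)`, so `Φ (x, y) = q y` by
  Cauchy's formula (`DiffContOnCl.two_pi_i_inv_smul_circleIntegral_sub_inv_smul` or
  `Complex.two_pi_I_inv_smul_circleIntegral_sub_inv_smul_of_differentiable_on_off_countable`).
-/

set_option autoImplicit false

open Topology Filter Metric

noncomputable section

namespace Pool.Agent.H68.KR

attribute [-instance] ProperSMul.toContinuousSMul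

private theorem CB2_inverse_apply {S : Set ℂ} [CompactSpace S] {u : C(S, ℂ)} (hu : IsUnit u) (ζ : S) :
    Ring.inverse u ζ = (u ζ)⁻¹ := by
  have h1 : Ring.inverse u * u = 1 := Ring.inverse_mul_cancel u hu
  have h2 : Ring.inverse u ζ * u ζ = 1 := by
    have h3 := DFunLike.congr_fun h1 ζ
    simpa using h3
  exact eq_inv_of_mul_eq_one_left h2

private theorem CB2_exists_functional {ρ : ℝ} (hρ : 0 < ρ) [CompactSpace (sphere (0 : ℂ) ρ)] :
    ∃ J : C(sphere (0 : ℂ) ρ, ℂ) →L[ℂ] ℂ, ∀ (g : C(sphere (0 : ℂ) ρ, ℂ)) (h : ℂ → ℂ),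
      (∀ ζ : sphere (0 : ℂ) ρ, g ζ = h ζ) →
      J g = (2 * Real.pi * Complex.I : ℂ)⁻¹ • ∮ ζ in C(0, ρ), h ζ := by
  set c : ℝ → sphere (0 : ℂ) ρ := fun θ => ⟨circleMap 0 ρ θ, circleMap_mem_sphere 0 hρ.le θ⟩ with hc
  have hcc : Continuous c := (continuous_circleMap 0 ρ).subtype_mk _
  have hdc : Continuous fun θ => deriv (circleMap 0 ρ) θ := by
    simp only [deriv_circleMap]
    exact (continuous_circleMap 0 ρ).mul continuous_const
  have hint : ∀ g : C(sphere (0 : ℂ) ρ, ℂ), IntervalIntegrable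
      (fun θ => deriv (circleMap 0 ρ) θ • g (c θ)) MeasureTheory.volume 0 (2 * Real.pi) := fun g =>
    (hdc.smul (g.continuous.comp hcc)).intervalIntegrable _ _
  set L : C(sphere (0 : ℂ) ρ, ℂ) →ₗ[ℂ] ℂ :=
    { toFun := fun g => ∫ θ in (0 : ℝ)..2 * Real.pi, deriv (circleMap 0 ρ) θ • g (c θ)
      map_add' := fun g g' => by
        rw [← intervalIntegral.integral_add (hint g) (hint g')]
        refine intervalIntegral.integral_congr fun θ _ => ?_
        simp only [ContinuousMap.add_apply, smul_add]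
      map_smul' := fun a g => by
        rw [RingHom.id_apply, ← intervalIntegral.integral_smul]
        refine intervalIntegral.integral_congr fun θ _ => ?_
        simp only [ContinuousMap.smul_apply, smul_eq_mul]
        ring } with hL
  have hbd : ∀ g, ‖L g‖ ≤ (ρ * |2 * Real.pi - 0|) * ‖g‖ := by
    intro g
    have h1 : ‖∫ θ in (0 : ℝ)..2 * Real.pi, deriv (circleMap 0 ρ) θ • g (c θ)‖ ≤
        (ρ * ‖g‖) * |2 * Real.pi - 0| := by
      refine intervalIntegral.norm_integral_le_of_norm_le_const fun θ _ => ?_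
      rw [norm_smul, deriv_circleMap, norm_mul, Complex.norm_I, mul_one, norm_circleMap_zero,
        abs_of_pos hρ]
      exact mul_le_mul_of_nonneg_left (g.norm_coe_le_norm _) hρ.le
    have h2 : (ρ * |2 * Real.pi - 0|) * ‖g‖ = (ρ * ‖g‖) * |2 * Real.pi - 0| := by ring
    rw [h2]
    exact h1
  refine ⟨(2 * Real.pi * Complex.I : ℂ)⁻¹ • L.mkContinuous _ hbd, fun g h hgh => ?_⟩
  have h1 : L g = ∮ ζ in C(0, ρ), h ζ := by
    show (∫ θ in (0 : ℝ)..2 * Real.pi, deriv (circleMap 0 ρ) θ • g (c θ)) = _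
    unfold circleIntegral
    refine intervalIntegral.integral_congr fun θ _ => ?_
    exact congrArg (fun w => deriv (circleMap 0 ρ) θ • w) (hgh (c θ))
  rw [_root_.smul_apply, LinearMap.mkContinuous_apply, h1]

theorem exists_cauchy {ρ : ℝ} (hρ : 0 < ρ) {A B : ℂ × ℂ → ℂ}
    (hA : ∀ ζ ∈ sphere (0 : ℂ) ρ, AnalyticAt ℂ A (0, ζ))
    (hB : ∀ ζ ∈ sphere (0 : ℂ) ρ, AnalyticAt ℂ B (0, ζ))
    (hB0 : ∀ ζ ∈ sphere (0 : ℂ) ρ, B (0, ζ) ≠ 0) :
    ∃ Φ : ℂ × ℂ → ℂ, (∀ y ∈ ball (0 : ℂ) ρ, AnalyticAt ℂ Φ (0, y)) ∧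
      ∀ᶠ x in 𝓝 (0 : ℂ), ∀ q : ℂ → ℂ, (∀ y ∈ closedBall (0 : ℂ) ρ, AnalyticAt ℂ q y) →
        (∀ y ∈ sphere (0 : ℂ) ρ, A (x, y) = B (x, y) * q y) →
        ∀ y ∈ ball (0 : ℂ) ρ, Φ (x, y) = q y := by
  haveI hcs : CompactSpace (sphere (0 : ℂ) ρ) := isCompact_iff_compactSpace.1 (isCompact_sphere _ _)
  obtain ⟨J, hJ⟩ := CB2_exists_functional hρ
  obtain ⟨𝓐, hA1, hA2⟩ := exists_family (isCompact_sphere (0 : ℂ) ρ) hA
  obtain ⟨𝓑, hB1, hB2⟩ := exists_family (isCompact_sphere (0 : ℂ) ρ) hB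
  set ι : C(sphere (0 : ℂ) ρ, ℂ) := ⟨fun ζ => (ζ : ℂ), continuous_subtype_val⟩ with hι
  have hunit : IsUnit (𝓑 0) := by
    rw [ContinuousMap.isUnit_iff_forall_ne_zero]
    intro ζ
    rw [hB2.self_of_nhds ζ]
    exact hB0 _ ζ.2
  have hκunit : ∀ y ∈ ball (0 : ℂ) ρ, IsUnit (ι - y • (1 : C(sphere (0 : ℂ) ρ, ℂ))) := by
    intro y hy
    rw [ContinuousMap.isUnit_iff_forall_ne_zero]
    intro ζ h0
    have h1 : (ζ : ℂ) - y = 0 := by
      have h2 : (ι - y • (1 : C(sphere (0 : ℂ) ρ, ℂ))) ζ = (ζ : ℂ) - y := by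
        simp [hι]
      rw [← h2]
      exact h0
    have h3 : (ζ : ℂ) = y := sub_eq_zero.1 h1
    have h4 : ‖(ζ : ℂ)‖ = ρ := mem_sphere_zero_iff_norm.1 ζ.2
    have h5 : ‖y‖ < ρ := mem_ball_zero_iff.1 hy
    rw [h3] at h4
    linarith
  refine ⟨fun p => J (𝓐 p.1 * Ring.inverse (𝓑 p.1) *
    Ring.inverse (ι - p.2 • (1 : C(sphere (0 : ℂ) ρ, ℂ)))), ?_, ?_⟩
  · intro y hy
    have h1 : AnalyticAt ℂ (fun p : ℂ × ℂ => 𝓐 p.1) (0, y) :=
      AnalyticAt.comp (g := 𝓐) (f := Prod.fst) (x := ((0 : ℂ), y)) hA1 analyticAt_fst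
    have h2 : AnalyticAt ℂ (fun p : ℂ × ℂ => 𝓑 p.1) (0, y) :=
      AnalyticAt.comp (g := 𝓑) (f := Prod.fst) (x := ((0 : ℂ), y)) hB1 analyticAt_fst
    have h3 : AnalyticAt ℂ (Ring.inverse : C(sphere (0 : ℂ) ρ, ℂ) → _) (𝓑 0) :=
      analyticOnNhd_inverse (𝕜 := ℂ) (𝓑 0) hunit
    have h4 : AnalyticAt ℂ (fun p : ℂ × ℂ => Ring.inverse (𝓑 p.1)) (0, y) :=
      AnalyticAt.comp (g := Ring.inverse) (f := fun p : ℂ × ℂ => 𝓑 p.1) (x := ((0 : ℂ), y)) h3 h2
    have h5 : AnalyticAt ℂ (fun p : ℂ × ℂ => ι - p.2 • (1 : C(sphere (0 : ℂ) ρ, ℂ))) (0, y) :=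
      analyticAt_const.sub (analyticAt_snd.smul analyticAt_const)
    have h6 : AnalyticAt ℂ (Ring.inverse : C(sphere (0 : ℂ) ρ, ℂ) → _)
        (ι - y • (1 : C(sphere (0 : ℂ) ρ, ℂ))) :=
      analyticOnNhd_inverse (𝕜 := ℂ) _ (hκunit y hy)
    have h7 : AnalyticAt ℂ (fun p : ℂ × ℂ => Ring.inverse (ι - p.2 • (1 : C(sphere (0 : ℂ) ρ, ℂ))))
        (0, y) :=
      AnalyticAt.comp (g := Ring.inverse)
        (f := fun p : ℂ × ℂ => ι - p.2 • (1 : C(sphere (0 : ℂ) ρ, ℂ))) (x := ((0 : ℂ), y)) h6 h5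
    exact (J.analyticAt _).comp ((h1.mul h4).mul h7)
  · have hopen : ∀ᶠ x in 𝓝 (0 : ℂ), IsUnit (𝓑 x) :=
      hB1.continuousAt.eventually (Units.isOpen.mem_nhds hunit)
    filter_upwards [hA2, hB2, hopen] with x hx1 hx2 hx3 q hq hAB y hy
    have hne := (ContinuousMap.isUnit_iff_forall_ne_zero _).1 hx3
    show J (𝓐 x * Ring.inverse (𝓑 x) * Ring.inverse (ι - y • (1 : C(sphere (0 : ℂ) ρ, ℂ)))) = q y
    rw [hJ _ (fun ζ => (ζ - y)⁻¹ • q ζ)]
    · have hd : DifferentiableOn ℂ q (closedBall 0 ρ) := fun z hz =>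
        (hq z hz).differentiableAt.differentiableWithinAt
      exact (hd.mono closure_ball_subset_closedBall).diffContOnCl.two_pi_i_inv_smul_circleIntegral_sub_inv_smul
        hy
    · intro ζ
      rw [ContinuousMap.mul_apply, ContinuousMap.mul_apply, CB2_inverse_apply hx3,
        CB2_inverse_apply (hκunit y hy), hx1, hx2, hAB _ ζ.2]
      have h1 : B (x, (ζ : ℂ)) ≠ 0 := by
        rw [← hx2 ζ]
        exact hne ζ
      have h2 : (ι - y • (1 : C(sphere (0 : ℂ) ρ, ℂ))) ζ = (ζ : ℂ) - y := by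
        simp [hι]
      rw [h2, smul_eq_mul]
      field_simp

end Pool.Agent.H68.KR

end
end

section

/-!
# KR CB3: extension of a quotient which has no poles on many slices

* `exists_quotient`: for every `y ∈ U` choose `q_y`; put `q y = q_y y`.  Near `y` (punctured neighbourhood) `b z ≠ 0`
  (isolated zeros: `AnalyticAt.eventually_eq_zero_or_eventually_ne_zero`), so
  `q_y z = a z / b z = q_z z = q z`; hence `q = q_y` near `y` (also at `y`), analytic, and `a y = b y * q y`.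
* `extend_of_slices`: Let `A, B` be analytic on the polydisc `|x| < r, |y| < r` (`ℂ × ℂ` has the sup norm, so it is
  `ball 0 r`).  `B (0, ·)` is not `0` near `0`: choose `0 < ρ < min r ρ₀` (`ρ₀` the radius of `h`) with `B (0, y) ≠ 0`
  for `0 < |y| ≤ ρ`, so on `|y| = ρ`.  Let `Φ` be given by `exists_cauchy`.  For `x` near `0`: `|x| < r`,
  `B (x, ζ) ≠ 0` for `|ζ| = ρ` (compactness: tube lemma), and the statement of `exists_cauchy`.  For those `x` with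
  `LD A B x y` for all `|y| < ρ₀`: let `ρ' = min r ρ₀ > ρ`; `B (x, ·)` is analytic on the ball of radius `ρ'` and not
  identically `0`, so not `0` near any point of it (identity theorem,
  `AnalyticOnNhd.eqOn_zero_of_preconnected_of_eventuallyEq_zero`); `exists_quotient` on `U = ball 0 ρ'` gives `q`, and
  `Φ (x, y) = q y`, hence `A (x, y) = B (x, y) Φ (x, y)` for `|y| < ρ`.
  Now let `r₁ ≤ ρ` be such that `Φ` is analytic on `|x| < r₁, |y| < r₁` (as `Φ` is analytic at `0`).  For fixed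
  `|y| < r₁` the function `x ↦ A (x, y) - B (x, y) Φ (x, y)` is analytic on `|x| < r₁` and frequently `0` near `0`,
  so it is `0` (`AnalyticOnNhd.eqOn_zero_of_preconnected_of_frequently_eq_zero`).
-/

set_option autoImplicit false

open Topology Filter Metric

noncomputable section

namespace Pool.Agent.H68.KR

attribute [-instance] ProperSMul.toContinuousSMul

/-- On the slice through `x` the function `A` is divisible by `B` near `y`. -/
def LD (A B : ℂ × ℂ → ℂ) (x y : ℂ) : Prop :=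
  ∃ q : ℂ → ℂ, AnalyticAt ℂ q y ∧ ∀ᶠ z in 𝓝 y, A (x, z) = B (x, z) * q z

theorem exists_quotient {a b : ℂ → ℂ} {U : Set ℂ} (hU : IsOpen U) (hb : ∀ y ∈ U, AnalyticAt ℂ b y)
    (hb0 : ∀ y ∈ U, ¬ ∀ᶠ z in 𝓝 y, b z = 0)
    (h : ∀ y ∈ U, ∃ q : ℂ → ℂ, AnalyticAt ℂ q y ∧ ∀ᶠ z in 𝓝 y, a z = b z * q z) :
    ∃ q : ℂ → ℂ, (∀ y ∈ U, AnalyticAt ℂ q y) ∧ ∀ y ∈ U, a y = b y * q y := by
  classical
  choose! Q hQa hQe using h
  refine ⟨fun y => Q y y, fun y hy => ?_, fun y hy => (hQe y hy).self_of_nhds⟩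
  refine (hQa y hy).congr ?_
  have hb1 : ∀ᶠ z in 𝓝[≠] y, b z ≠ 0 :=
    ((hb y hy).eventually_eq_zero_or_eventually_ne_zero).resolve_left (hb0 y hy)
  have h1 : ∀ᶠ z in 𝓝[≠] y, Q y z = Q z z := by
    filter_upwards [hb1, nhdsWithin_le_nhds (hQe y hy), nhdsWithin_le_nhds (hU.mem_nhds hy)] with z hz1 hz2 hz3
    have h3 := (hQe z hz3).self_of_nhds
    exact mul_left_cancel₀ hz1 (hz2.symm.trans h3)
  filter_upwards [eventually_nhdsWithin_iff.1 h1] with z hz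
  by_cases hzy : z = y
  · rw [hzy]
  · exact hz hzy

/-- If `A / B` has no poles in a fixed disc for arbitrarily small `x ≠ 0`, then it is analytic at `0`. -/
theorem extend_of_slices {A B : ℂ × ℂ → ℂ} (hA : AnalyticAt ℂ A 0) (hB : AnalyticAt ℂ B 0)
    (hB0 : ¬ ∀ᶠ y in 𝓝 (0 : ℂ), B (0, y) = 0) {ρ₀ : ℝ} (hρ₀ : 0 < ρ₀)
    (h : ∃ᶠ x in 𝓝[≠] (0 : ℂ), ∀ y ∈ ball (0 : ℂ) ρ₀, LD A B x y) :
    ∃ Φ : ℂ × ℂ → ℂ, AnalyticAt ℂ Φ 0 ∧ ∀ᶠ u in 𝓝 (0 : ℂ × ℂ), A u = B u * Φ u := by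
  classical
  -- a polydisc on which both functions are analytic
  obtain ⟨r, hr, hAB⟩ := Metric.eventually_nhds_iff_ball.1 (hA.eventually_analyticAt.and hB.eventually_analyticAt)
  have hmem : ∀ {s : ℝ} {x y : ℂ}, ‖x‖ < s → ‖y‖ < s → ((x, y) : ℂ × ℂ) ∈ ball (0 : ℂ × ℂ) s := by
    intro s x y hx hy
    rw [mem_ball_zero_iff, Prod.norm_def]
    exact max_lt hx hy
  have hslx : ∀ {F : ℂ × ℂ → ℂ} {x y : ℂ}, AnalyticAt ℂ F (x, y) → AnalyticAt ℂ (fun z => F (x, z)) y :=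
    fun {F x y} hF => AnalyticAt.fun_comp (g := F) (f := fun z : ℂ => ((x, z) : ℂ × ℂ)) hF
      (analyticAt_const.prod analyticAt_id)
  have hsly : ∀ {F : ℂ × ℂ → ℂ} {x y : ℂ}, AnalyticAt ℂ F (x, y) → AnalyticAt ℂ (fun z => F (z, y)) x :=
    fun {F x y} hF => AnalyticAt.fun_comp (g := F) (f := fun z : ℂ => ((z, y) : ℂ × ℂ)) hF
      (analyticAt_id.prod analyticAt_const)
  -- isolated zeros of the central slice
  have hb : AnalyticAt ℂ (fun y => B (0, y)) 0 := hslx hB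
  have hb1 : ∀ᶠ y in 𝓝[≠] (0 : ℂ), B (0, y) ≠ 0 :=
    (hb.eventually_eq_zero_or_eventually_ne_zero).resolve_left hB0
  obtain ⟨ρ₁, hρ₁, hb2⟩ := Metric.eventually_nhds_iff_ball.1 (eventually_nhdsWithin_iff.1 hb1)
  obtain ⟨R, hR, hRr, hRρ₀, hRρ₁⟩ : ∃ R : ℝ, 0 < R ∧ R ≤ r ∧ R ≤ ρ₀ ∧ R ≤ ρ₁ :=
    ⟨min r (min ρ₀ ρ₁), lt_min hr (lt_min hρ₀ hρ₁), min_le_left _ _,
      (min_le_right _ _).trans (min_le_left _ _), (min_le_right _ _).trans (min_le_right _ _)⟩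
  obtain ⟨ρ, hρ, hρR⟩ : ∃ ρ : ℝ, 0 < ρ ∧ ρ < R := ⟨R / 2, by positivity, by linarith⟩
  have hsph : ∀ ζ ∈ sphere (0 : ℂ) ρ, ‖ζ‖ = ρ := fun ζ hζ => by simpa using hζ
  have hABs : ∀ ζ ∈ sphere (0 : ℂ) ρ, AnalyticAt ℂ A (0, ζ) ∧ AnalyticAt ℂ B (0, ζ) := fun ζ hζ =>
    hAB _ (hmem (by simpa using hr) (by rw [hsph ζ hζ]; linarith))
  have hBs : ∀ ζ ∈ sphere (0 : ℂ) ρ, B (0, ζ) ≠ 0 := fun ζ hζ =>
    hb2 ζ (by rw [mem_ball_zero_iff, hsph ζ hζ]; linarith) (by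
      intro h0
      have := hsph ζ hζ
      rw [h0, norm_zero] at this
      linarith)
  obtain ⟨Φ, hΦa, hΦe⟩ := exists_cauchy hρ (fun ζ hζ => (hABs ζ hζ).1) (fun ζ hζ => (hABs ζ hζ).2) hBs
  have h00 : ((0 : ℂ), (0 : ℂ)) = (0 : ℂ × ℂ) := rfl
  have hΦ0 : AnalyticAt ℂ Φ 0 := h00 ▸ hΦa 0 (by simpa using hρ)
  refine ⟨Φ, hΦ0, ?_⟩
  -- a point of the circle
  obtain ⟨ζ₀, hζ₀⟩ : ∃ ζ₀ : ℂ, ‖ζ₀‖ = ρ := ⟨(ρ : ℂ), by rw [Complex.norm_real, Real.norm_eq_abs, abs_of_pos hρ]⟩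
  have hζ₀s : ζ₀ ∈ sphere (0 : ℂ) ρ := by simpa using hζ₀
  have hBx : ∀ᶠ x in 𝓝 (0 : ℂ), B (x, ζ₀) ≠ 0 := by
    have h1 : ContinuousAt (fun x : ℂ => B (x, ζ₀)) 0 := (hsly (hABs ζ₀ hζ₀s).2).continuousAt
    exact h1.eventually_ne (hBs ζ₀ hζ₀s)
  have hxr : ∀ᶠ x in 𝓝 (0 : ℂ), ‖x‖ < r := by
    filter_upwards [Metric.ball_mem_nhds (0 : ℂ) hr] with x hx
    simpa using hx
  -- the good slices
  have hgood : ∃ᶠ x in 𝓝[≠] (0 : ℂ), ∀ y ∈ ball (0 : ℂ) ρ, A (x, y) = B (x, y) * Φ (x, y) := by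
    refine (h.and_eventually (nhdsWithin_le_nhds (hBx.and (hxr.and hΦe)))).mono ?_
    rintro x ⟨hx1, hx2, hx3, hx4⟩
    have hBa : ∀ y ∈ ball (0 : ℂ) R, AnalyticAt ℂ (fun z => B (x, z)) y := fun y hy =>
      hslx (hAB _ (hmem hx3 (lt_of_lt_of_le (by simpa using hy) hRr))).2
    obtain ⟨q, hqa, hqe⟩ := exists_quotient (a := fun z => A (x, z)) (b := fun z => B (x, z))
      (U := ball (0 : ℂ) R) isOpen_ball hBa (fun y hy hz => by
        have h2 : Set.EqOn (fun z => B (x, z)) 0 (ball (0 : ℂ) R) :=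
          AnalyticOnNhd.eqOn_zero_of_preconnected_of_eventuallyEq_zero hBa
            (convex_ball (0 : ℂ) R).isPreconnected hy hz
        exact hx2 (h2 (by rw [mem_ball_zero_iff, hζ₀]; exact hρR)))
      (fun y hy => hx1 y (ball_subset_ball hRρ₀ hy))
    have h3 := hx4 q (fun y hy => hqa y (closedBall_subset_ball hρR hy))
      (fun y hy => hqe y (closedBall_subset_ball hρR (sphere_subset_closedBall hy)))
    intro y hy
    rw [h3 y hy]
    exact hqe y (ball_subset_ball hρR.le hy)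
  -- analytic continuation in the first variable
  obtain ⟨r₂, hr₂, hΦb⟩ := Metric.eventually_nhds_iff_ball.1 hΦ0.eventually_analyticAt
  obtain ⟨r₁, hr₁, hr₁ρ, hr₁r, hr₁r₂⟩ : ∃ r₁ : ℝ, 0 < r₁ ∧ r₁ ≤ ρ ∧ r₁ ≤ r ∧ r₁ ≤ r₂ :=
    ⟨min ρ (min r r₂), lt_min hρ (lt_min hr hr₂), min_le_left _ _,
      (min_le_right _ _).trans (min_le_left _ _), (min_le_right _ _).trans (min_le_right _ _)⟩
  filter_upwards [Metric.ball_mem_nhds (0 : ℂ × ℂ) hr₁] with u hu
  obtain ⟨x, y⟩ := u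
  rw [mem_ball_zero_iff, Prod.norm_def] at hu
  have hx : ‖x‖ < r₁ := (le_max_left _ _).trans_lt hu
  have hy : ‖y‖ < r₁ := (le_max_right _ _).trans_lt hu
  have han : AnalyticOnNhd ℂ (fun z => A (z, y) - B (z, y) * Φ (z, y)) (ball (0 : ℂ) r₁) := by
    intro z hz
    have hz' : ‖z‖ < r₁ := by simpa using hz
    have h1 := hAB _ (hmem (hz'.trans_le hr₁r) (hy.trans_le hr₁r))
    have h2 := hΦb _ (hmem (hz'.trans_le hr₁r₂) (hy.trans_le hr₁r₂))
    exact (hsly h1.1).sub ((hsly h1.2).mul (hsly h2))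
  have hfr : ∃ᶠ z in 𝓝[≠] (0 : ℂ), A (z, y) - B (z, y) * Φ (z, y) = 0 :=
    hgood.mono fun z hz => sub_eq_zero.2 (hz y (by rw [mem_ball_zero_iff]; exact hy.trans_le hr₁ρ))
  have h0 := AnalyticOnNhd.eqOn_zero_of_preconnected_of_frequently_eq_zero han
    (convex_ball (0 : ℂ) r₁).isPreconnected (by simpa using hr₁ : (0 : ℂ) ∈ ball (0 : ℂ) r₁) hfr
  exact sub_eq_zero.1 (h0 (by simpa using hx : x ∈ ball (0 : ℂ) r₁))

end Pool.Agent.H68.KR

end
end

section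

/-!
# KR CB4: tools for the pole curve

* `exists_direction`: `B` analytic on `ball 0 r` (sup norm).  If for every `m : ℂ` the function `y ↦ B (m y, y)` is
  `0` near `0`, then for `|m| < 1` it is `0` for `|y| < r` (identity theorem).  So `B` vanishes on the open set
  `{(x, y) | |x| < |y| < r}` (`m = x / y`), which is not empty, hence on `ball 0 r`
  (`AnalyticOnNhd.eqOn_zero_of_preconnected_of_eventuallyEq_zero` in `ℂ × ℂ`).
* `ld_of_vanish`: by `iterate_dy_slice` (valid at the point `(x, y)`) the function `a = A (x, ·)` has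
  `iteratedDeriv i a y = 0` for `i < k`, and `b = B (x, ·)` has `iteratedDeriv i b y = 0` for `i < k`,
  `iteratedDeriv k b y ≠ 0`.  So `b z = (z - y)^k b₁ z`, `b₁ y ≠ 0` and `a z = (z - y)^k a₁ z`
  (`natCast_le_analyticOrderAt`, the relation of the order and the derivatives:
  `natCast_le_analyticOrderAt_iff_iteratedDeriv_eq_zero` or the Taylor series), `q = a₁ / b₁`.
* `ld_of_ne_zero`: `q = A / B`.
* `exists_implicit`: implicit function theorem for `G : ℂ × ℂ → ℂ` analytic at `(x₁, y₁)`, `G (x₁, y₁) = 0`,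
  `dy G (x₁, y₁) ≠ 0`: the map `F (x, y) = (x, G (x, y))` is analytic with invertible derivative at `(x₁, y₁)`
  (`(a, b) ↦ (a, G_x a + G_y b)`), so it has a local inverse which is analytic: e.g. `HasStrictFDerivAt` +
  `ContDiffAt.to_localInverse` with smoothness `ω` (`AnalyticAt.contDiffAt`, `ContDiffAt.analyticAt` for `n = ω`),
  or `OpenPartialHomeomorph.analyticAt_symm`/`hasFPowerSeriesAt_symm`.  `c x = (F⁻¹ (x, 0)).2`.
-/

set_option autoImplicit false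

open Topology Filter Metric

noncomputable section

namespace Pool.Agent.H68.KR

attribute [-instance] ProperSMul.toContinuousSMul

private lemma CB4_slice {B : ℂ × ℂ → ℂ} {x y : ℂ} (hB : AnalyticAt ℂ B (x, y)) :
    AnalyticAt ℂ (fun z => B (x, z)) y := by
  have h : AnalyticAt ℂ (fun z : ℂ => ((x, z) : ℂ × ℂ)) y := analyticAt_const.prod analyticAt_id
  exact AnalyticAt.comp (g := B) (f := fun z : ℂ => ((x, z) : ℂ × ℂ)) hB h

theorem exists_direction {B : ℂ × ℂ → ℂ} (hB : AnalyticAt ℂ B 0)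
    (h : ¬ ∀ᶠ u in 𝓝 (0 : ℂ × ℂ), B u = 0) :
    ∃ m : ℂ, ¬ ∀ᶠ y in 𝓝 (0 : ℂ), B (m * y, y) = 0 := by
  by_contra hcon
  push Not at hcon
  obtain ⟨r, hr, hBr⟩ := Metric.eventually_nhds_iff_ball.mp hB.eventually_analyticAt
  have key : ∀ x y : ℂ, ‖x‖ < ‖y‖ → ‖y‖ < r → B (x, y) = 0 := by
    intro x y hxy hy
    have hy0 : y ≠ 0 := by
      intro h0
      rw [h0, norm_zero] at hxy
      exact absurd hxy (not_lt.mpr (norm_nonneg x))
    have hm : ‖x / y‖ < 1 := by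
      rw [norm_div, div_lt_one (norm_pos_iff.mpr hy0)]
      exact hxy
    have han : AnalyticOnNhd ℂ (fun z : ℂ => B (x / y * z, z)) (ball 0 r) := by
      intro z hz
      have h1 : AnalyticAt ℂ (fun z : ℂ => ((x / y * z, z) : ℂ × ℂ)) z :=
        (analyticAt_const.mul analyticAt_id).prod analyticAt_id
      have h2 : ((x / y * z, z) : ℂ × ℂ) ∈ ball (0 : ℂ × ℂ) r := by
        rw [mem_ball_zero_iff] at hz ⊢
        rw [Prod.norm_mk, norm_mul]
        refine max_lt (lt_of_le_of_lt ?_ hz) hz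
        have := norm_nonneg z
        nlinarith
      exact AnalyticAt.comp (g := B) (f := fun z : ℂ => ((x / y * z, z) : ℂ × ℂ)) (hBr _ h2) h1
    have hz := han.eqOn_zero_of_preconnected_of_eventuallyEq_zero
      (convex_ball (0 : ℂ) r).isPreconnected (mem_ball_self hr) (hcon (x / y))
    have h3 := hz (mem_ball_zero_iff.mpr hy)
    simp only [Pi.zero_apply] at h3
    rwa [div_mul_cancel₀ _ hy0] at h3
  apply h
  have han : AnalyticOnNhd ℂ B (ball 0 r) := fun u hu => hBr u hu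
  have hr2 : ‖((r / 2 : ℝ) : ℂ)‖ = r / 2 := by
    rw [Complex.norm_real, Real.norm_of_nonneg (by linarith)]
  have hp : (((0 : ℂ), ((r / 2 : ℝ) : ℂ)) : ℂ × ℂ) ∈ ball (0 : ℂ × ℂ) r := by
    rw [mem_ball_zero_iff, Prod.norm_mk, norm_zero, hr2]
    exact max_lt hr (by linarith)
  have hev : B =ᶠ[𝓝 (((0 : ℂ), ((r / 2 : ℝ) : ℂ)) : ℂ × ℂ)] 0 := by
    have ho : IsOpen {u : ℂ × ℂ | ‖u.1‖ < ‖u.2‖ ∧ ‖u.2‖ < r} := by
      apply IsOpen.inter
      · exact isOpen_lt continuous_fst.norm continuous_snd.norm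
      · exact isOpen_lt continuous_snd.norm continuous_const
    have hm : (((0 : ℂ), ((r / 2 : ℝ) : ℂ)) : ℂ × ℂ) ∈
        {u : ℂ × ℂ | ‖u.1‖ < ‖u.2‖ ∧ ‖u.2‖ < r} := by
      refine ⟨?_, ?_⟩
      · show ‖(0 : ℂ)‖ < ‖((r / 2 : ℝ) : ℂ)‖
        rw [hr2, norm_zero]
        linarith
      · show ‖((r / 2 : ℝ) : ℂ)‖ < r
        rw [hr2]
        linarith
    filter_upwards [ho.mem_nhds hm] with u hu
    exact key u.1 u.2 hu.1 hu.2
  have hz := han.eqOn_zero_of_preconnected_of_eventuallyEq_zero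
    (convex_ball (0 : ℂ × ℂ) r).isPreconnected hp hev
  filter_upwards [ball_mem_nhds (0 : ℂ × ℂ) hr] with u hu
  exact hz hu

theorem ld_of_vanish {A B : ℂ × ℂ → ℂ} {x y : ℂ} (hA : AnalyticAt ℂ A (x, y))
    (hB : AnalyticAt ℂ B (x, y)) {k : ℕ} (h1 : ∀ i < k, (dy^[i] A) (x, y) = 0)
    (h2 : ∀ i < k, (dy^[i] B) (x, y) = 0) (h3 : (dy^[k] B) (x, y) ≠ 0) : LD A B x y := by
  have ha := CB4_slice hA
  have hb := CB4_slice hB
  have e1 : ∀ i < k, iteratedDeriv i (fun z => A (x, z)) y = 0 := by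
    intro i hi
    rw [← iterate_dy_slice hA i]
    exact h1 i hi
  have e2 : ∀ i < k, iteratedDeriv i (fun z => B (x, z)) y = 0 := by
    intro i hi
    rw [← iterate_dy_slice hB i]
    exact h2 i hi
  have e3 : iteratedDeriv k (fun z => B (x, z)) y ≠ 0 := by
    have := iterate_dy_slice hB k
    simp only at this
    rw [← this]
    exact h3
  have oa : (k : ℕ∞) ≤ analyticOrderAt (fun z => A (x, z)) y :=
    (natCast_le_analyticOrderAt_iff_iteratedDeriv_eq_zero ha).mpr e1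
  have ob : (k : ℕ∞) ≤ analyticOrderAt (fun z => B (x, z)) y :=
    (natCast_le_analyticOrderAt_iff_iteratedDeriv_eq_zero hb).mpr e2
  have ob' : ¬ ((k + 1 : ℕ) : ℕ∞) ≤ analyticOrderAt (fun z => B (x, z)) y := by
    intro hle
    exact e3 ((natCast_le_analyticOrderAt_iff_iteratedDeriv_eq_zero hb).mp hle k (Nat.lt_succ_self k))
  obtain ⟨a1, ha1, hea⟩ := (natCast_le_analyticOrderAt ha).mp oa
  obtain ⟨b1, hb1, heb⟩ := (natCast_le_analyticOrderAt hb).mp ob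
  have hb1y : b1 y ≠ 0 := by
    intro h0
    apply ob'
    have ho1 : ((1 : ℕ) : ℕ∞) ≤ analyticOrderAt b1 y := by
      apply (natCast_le_analyticOrderAt_iff_iteratedDeriv_eq_zero hb1).mpr
      intro i hi
      have hi0 : i = 0 := by omega
      subst hi0
      simpa using h0
    obtain ⟨b2, hb2, heb2⟩ := (natCast_le_analyticOrderAt hb1).mp ho1
    refine (natCast_le_analyticOrderAt hb).mpr ⟨b2, hb2, ?_⟩
    filter_upwards [heb, heb2] with z hz hz2
    rw [hz, hz2, smul_smul, ← pow_add]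
  refine ⟨fun z => a1 z / b1 z, ha1.div hb1 hb1y, ?_⟩
  filter_upwards [hea, heb, hb1.continuousAt.eventually_ne hb1y] with z hza hzb hz1
  rw [hza, hzb, smul_eq_mul, smul_eq_mul]
  field_simp

/-- If `B (x, ·)` is not `0` near `y`, there is a first derivative which does not vanish. -/
theorem exists_order {B : ℂ × ℂ → ℂ} {x y : ℂ} (hB : AnalyticAt ℂ B (x, y))
    (h : ¬ ∀ᶠ z in 𝓝 y, B (x, z) = 0) :
    ∃ k : ℕ, (∀ i < k, (dy^[i] B) (x, y) = 0) ∧ (dy^[k] B) (x, y) ≠ 0 := by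
  have hb := CB4_slice hB
  have hne : analyticOrderAt (fun z => B (x, z)) y ≠ ⊤ := by
    intro h0
    exact h (analyticOrderAt_eq_top.mp h0)
  obtain ⟨k, hk⟩ := ENat.ne_top_iff_exists.mp hne
  refine ⟨k, ?_, ?_⟩
  · intro i hi
    rw [iterate_dy_slice hB i]
    exact (natCast_le_analyticOrderAt_iff_iteratedDeriv_eq_zero hb).mp hk.le i hi
  · intro h0
    rw [iterate_dy_slice hB k] at h0
    have hle : ((k + 1 : ℕ) : ℕ∞) ≤ analyticOrderAt (fun z => B (x, z)) y := by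
      apply (natCast_le_analyticOrderAt_iff_iteratedDeriv_eq_zero hb).mpr
      intro i hi
      rcases Nat.lt_succ_iff_lt_or_eq.mp hi with h1 | h1
      · exact (natCast_le_analyticOrderAt_iff_iteratedDeriv_eq_zero hb).mp hk.le i h1
      · rw [h1]
        exact h0
    rw [← hk] at hle
    have : k + 1 ≤ k := by exact_mod_cast hle
    omega

theorem exists_implicit {G : ℂ × ℂ → ℂ} {x₁ y₁ : ℂ} (hG : AnalyticAt ℂ G (x₁, y₁))
    (h0 : G (x₁, y₁) = 0) (h1 : dy G (x₁, y₁) ≠ 0) :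
    ∃ c : ℂ → ℂ, AnalyticAt ℂ c x₁ ∧ c x₁ = y₁ ∧
      ∀ᶠ u in 𝓝 ((x₁, y₁) : ℂ × ℂ), G u = 0 → u.2 = c u.1 := by
  set p : ℂ × ℂ := (x₁, y₁) with hp
  set F : ℂ × ℂ → ℂ × ℂ := fun u => (u.1, G u) with hF
  have hFa : AnalyticAt ℂ F p := analyticAt_fst.prod hG
  set L := fderiv ℂ G p with hL
  have hLy : L (0, 1) ≠ 0 := h1
  have hFd : HasFDerivAt F ((ContinuousLinearMap.fst ℂ ℂ ℂ).prod L) p :=
    hasFDerivAt_fst.prodMk hG.differentiableAt.hasFDerivAt
  have hLab : ∀ a b : ℂ, L (a, b) = a * L (1, 0) + b * L (0, 1) := by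
    intro a b
    have : ((a, b) : ℂ × ℂ) = a • ((1, 0) : ℂ × ℂ) + b • ((0, 1) : ℂ × ℂ) := by
      ext <;> simp
    rw [this, map_add, map_smul, map_smul, smul_eq_mul, smul_eq_mul]
  let e0 : (ℂ × ℂ) ≃ₗ[ℂ] (ℂ × ℂ) :=
    { toFun := fun u => (u.1, L u)
      invFun := fun v => (v.1, (v.2 - v.1 * L (1, 0)) / L (0, 1))
      map_add' := by
        intro u v
        simp
      map_smul' := by
        intro c u
        simp
      left_inv := by
        intro u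
        obtain ⟨a, b⟩ := u
        ext
        · rfl
        · simp only
          rw [hLab a b]
          field_simp
          ring
      right_inv := by
        intro v
        obtain ⟨a, b⟩ := v
        ext
        · rfl
        · simp only
          rw [hLab]
          field_simp
          ring }
  let e : (ℂ × ℂ) ≃L[ℂ] (ℂ × ℂ) := e0.toContinuousLinearEquiv
  have he : (e : (ℂ × ℂ) →L[ℂ] (ℂ × ℂ)) = (ContinuousLinearMap.fst ℂ ℂ ℂ).prod L := by
    ext <;> rfl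
  have hFd' : HasFDerivAt F (e : (ℂ × ℂ) →L[ℂ] (ℂ × ℂ)) p := by
    rw [he]
    exact hFd
  have hc : ContDiffAt ℂ (⊤ : WithTop ℕ∞) F p := hFa.contDiffAt
  have hn : (⊤ : WithTop ℕ∞) ≠ 0 := by
    simp
  have hFp : F p = (x₁, 0) := by
    simp only [hF, hp]
    rw [h0]
  have hinv : AnalyticAt ℂ (hc.localInverse hFd' hn) (x₁, 0) := by
    rw [← hFp]
    exact (hc.to_localInverse hFd' hn).analyticAt
  have hmap : AnalyticAt ℂ (fun x : ℂ => ((x, 0) : ℂ × ℂ)) x₁ := analyticAt_id.prod analyticAt_const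
  have hcomp : AnalyticAt ℂ (fun x : ℂ => hc.localInverse hFd' hn (x, 0)) x₁ :=
    AnalyticAt.comp (g := hc.localInverse hFd' hn) (f := fun x : ℂ => ((x, 0) : ℂ × ℂ)) hinv hmap
  refine ⟨fun x => (hc.localInverse hFd' hn (x, 0)).2, ?_, ?_, ?_⟩
  · exact analyticAt_snd.comp hcomp
  · have := hc.localInverse_apply_image hFd' hn
    rw [hFp] at this
    simp only
    rw [this]
  · have hleft : ∀ᶠ u in 𝓝 p, hc.localInverse hFd' hn (F u) = u :=
      (hc.hasStrictFDerivAt' hFd' hn).eventually_left_inverse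
    filter_upwards [hleft] with u hu hGu
    have h5 : F u = (u.1, 0) := by
      simp only [hF]
      rw [hGu]
    rw [h5] at hu
    rw [hu]

end Pool.Agent.H68.KR

end
end
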