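import Pool.Agent.H94.CB.H14.PP.CurveBasic_1
import Pool.Agent.H94.CB.M10
import Pool.Agent.H94.CB.M20
import Pool.Agent.H94.CB.M29
import Pool.Agent.H94.CB.M30
import Pool.Agent.H94.CB.M31

/-! The parts of this file: H14.PP.ChartFs, H17BP.Conv, H68.KR.GL, H68.KR.CB5. -/

section

/-!
# BPm ChartFs: comparison of the Fubini–Study length with the length in a chart

Both sides are invariant under `x ↦ c x`, `v ↦ c v` (`fs_inv`, `Chart.fderiv_q_smul`), so by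
`surj` let `x = σ p`, `‖p‖ ≤ 1`.
(a) `Dq(x) v = Dq(x) (v - a x)`, `a = ⟪x,v⟫/‖x‖^2` (`Chart.fderiv_q_self`), so
`‖Dq(x) v‖ ≤ ‖Dq(σ p)‖ ‖σ p‖ fs x v` (`fs_eq`); `p ↦ ‖Dq(σ p)‖ ‖σ p‖` is continuous on the compact
closed ball of radius `1`.
(b) `F = c • σ (q F)` near `z₀` (`Chart.curve`), so `F' z₀ = c' σ + c Dσ(p) w`, `w = (q ∘ F)' z₀`,
`fs (F z₀) (F' z₀) = fs (σ p) (Dσ(p) w)` (`fs_inv`) `≤ ‖Dσ(p)‖ ‖w‖/‖σ p‖` (`fs_le`); again
compactness.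
-/

open Topology Filter Metric

namespace Pool.Agent.H14.PP

attribute [-instance] ProperSMul.toContinuousSMul

open Pool.Agent.H36.BP

variable {N : ℕ} {X K T : Set (EN N)}

private theorem ChartFs_bdd {f : ℂ × ℂ → ℝ} (hf : ContinuousOn f (closedBall (0 : ℂ × ℂ) 1)) :
    ∃ C : ℝ, ∀ p ∈ closedBall (0 : ℂ × ℂ) 1, f p ≤ C := by
  obtain ⟨C, hC⟩ := (isCompact_closedBall (0 : ℂ × ℂ) 1).bddAbove_image hf
  exact ⟨C, fun p hp => hC (Set.mem_image_of_mem f hp)⟩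

private theorem ChartFs_sub {p : ℂ × ℂ} (hp : p ∈ closedBall (0 : ℂ × ℂ) 1) :
    p ∈ ball (0 : ℂ × ℂ) 2 :=
  closedBall_subset_ball (by norm_num) hp

private theorem ChartFs_a (χ : Chart X) :
    ∃ C : ℝ, ∀ p ∈ closedBall (0 : ℂ × ℂ) 1, ‖fderiv ℂ χ.q (χ.σ p)‖ * ‖χ.σ p‖ ≤ C := by
  apply ChartFs_bdd
  intro p hp
  have hp2 := ChartFs_sub hp
  have h1 : ContinuousAt χ.σ p := (χ.σ_an p hp2).continuousAt
  have h2 : ContinuousAt (fderiv ℂ χ.q) (χ.σ p) :=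
    (χ.q_an (χ.σ p) (χ.σ_mem p hp2).2.1).fderiv.continuousAt
  have h3 : ContinuousAt (fun p => fderiv ℂ χ.q (χ.σ p)) p := ContinuousAt.comp (g := fderiv ℂ χ.q) h2 h1
  exact (h3.norm.mul h1.norm).continuousWithinAt

private theorem ChartFs_b (hX : IsCone X) (χ : Chart X) :
    ∃ C : ℝ, ∀ p ∈ closedBall (0 : ℂ × ℂ) 1, ‖fderiv ℂ χ.σ p‖ / ‖χ.σ p‖ ≤ C := by
  apply ChartFs_bdd
  intro p hp
  have hp2 := ChartFs_sub hp
  have h1 : ContinuousAt χ.σ p := (χ.σ_an p hp2).continuousAt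
  have h2 : ContinuousAt (fderiv ℂ χ.σ) p := (χ.σ_an p hp2).fderiv.continuousAt
  exact (h2.norm.div h1.norm (norm_ne_zero_iff.mpr (Chart.sigma_ne_zero hX χ hp2))).continuousWithinAt

theorem Chart.exists_fs_bound (hX : IsCone X) (χ : Chart X) :
    ∃ C : ℝ, 1 ≤ C ∧
      (∀ x ∈ X, x ∈ χ.U → ‖χ.q x‖ ≤ 1 → ∀ v, ‖fderiv ℂ χ.q x v‖ ≤ C * fs x v) ∧
      ∀ (F : ℂ → EN N) (z₀ : ℂ), CurveAt X F z₀ → F z₀ ∈ χ.U → ‖χ.q (F z₀)‖ ≤ 1 →
        fs (F z₀) (deriv F z₀) ≤ C * ‖deriv (fun z => χ.q (F z)) z₀‖ := by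
  obtain ⟨C₁, hC₁⟩ := ChartFs_a χ
  obtain ⟨C₂, hC₂⟩ := ChartFs_b hX χ
  refine ⟨max 1 (max C₁ C₂), le_max_left _ _, ?_, ?_⟩
  · intro x hx hU hq v
    obtain ⟨hb, c, hc, hxc⟩ := χ.surj x hx hU
    set p := χ.q x with hp
    have hp1 : p ∈ closedBall (0 : ℂ × ℂ) 1 := by
      rw [mem_closedBall, dist_zero_right]; exact hq
    have hp2 : p ∈ ball (0 : ℂ × ℂ) 2 := ChartFs_sub hp1
    have hy0 : χ.σ p ≠ 0 := Chart.sigma_ne_zero hX χ hp2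
    have hyU : χ.σ p ∈ χ.U := (χ.σ_mem p hp2).2.1
    set y := χ.σ p with hy
    have hv : v = c • (c⁻¹ • v) + (0 : ℂ) • y := by
      rw [smul_inv_smul₀ hc, zero_smul, add_zero]
    have e1 : fderiv ℂ χ.q x v = fderiv ℂ χ.q y (c⁻¹ • v) := by
      conv_lhs => rw [hxc, hv]
      exact χ.fderiv_q_smul hyU (c⁻¹ • v) hc 0
    have e2 : fs x v = fs y (c⁻¹ • v) := by
      conv_lhs => rw [hxc, hv]
      exact fs_inv hy0 (c⁻¹ • v) hc 0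
    rw [e1, e2]
    set v' := c⁻¹ • v with hv'
    set a : ℂ := inner ℂ y v' / (‖y‖ : ℂ) ^ 2 with ha
    have e3' : fderiv ℂ χ.q y (a • y) = 0 := by
      rw [map_smul, χ.fderiv_q_self hyU, smul_zero]
    have e3 : fderiv ℂ χ.q y v' = fderiv ℂ χ.q y (v' - a • y) := by
      rw [map_sub, e3', sub_zero]
    have hyn : 0 < ‖y‖ := norm_pos_iff.mpr hy0
    have e4 : ‖v' - a • y‖ = ‖y‖ * fs y v' := by
      rw [fs_eq hy0, ← ha]
      field_simp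
    calc ‖fderiv ℂ χ.q y v'‖ = ‖fderiv ℂ χ.q y (v' - a • y)‖ := by rw [e3]
      _ ≤ ‖fderiv ℂ χ.q y‖ * ‖v' - a • y‖ := ContinuousLinearMap.le_opNorm _ _
      _ = (‖fderiv ℂ χ.q y‖ * ‖y‖) * fs y v' := by rw [e4]; ring
      _ ≤ C₁ * fs y v' := mul_le_mul_of_nonneg_right (hC₁ p hp1) (fs_nonneg _ _)
      _ ≤ max 1 (max C₁ C₂) * fs y v' :=
        mul_le_mul_of_nonneg_right ((le_max_left _ _).trans (le_max_right _ _)) (fs_nonneg _ _)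
  · intro F z₀ hF hU hq
    obtain ⟨han, -, c, hcan, hc0, hev⟩ := Chart.curve hX χ hF hU
    have hev0 := hev.self_of_nhds
    set p := χ.q (F z₀) with hp
    have hp1 : p ∈ closedBall (0 : ℂ × ℂ) 1 := by
      rw [mem_closedBall, dist_zero_right]; exact hq
    have hp2 : p ∈ ball (0 : ℂ × ℂ) 2 := ChartFs_sub hp1
    have hy0 : χ.σ p ≠ 0 := Chart.sigma_ne_zero hX χ hp2
    set w := deriv (fun z => χ.q (F z)) z₀ with hw
    have hq' : HasDerivAt (fun z => χ.q (F z)) w z₀ := han.differentiableAt.hasDerivAt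
    have hσ' : HasFDerivAt χ.σ (fderiv ℂ χ.σ p) p := (χ.σ_an p hp2).differentiableAt.hasFDerivAt
    have hcomp : HasDerivAt (fun z => χ.σ (χ.q (F z))) (fderiv ℂ χ.σ p w) z₀ :=
      HasFDerivAt.comp_hasDerivAt (l := χ.σ) z₀ hσ' hq'
    have hprod : HasDerivAt (fun z => c z • χ.σ (χ.q (F z)))
        (c z₀ • fderiv ℂ χ.σ p w + deriv c z₀ • χ.σ p) z₀ :=
      hcan.differentiableAt.hasDerivAt.smul hcomp
    have hFd : deriv F z₀ = c z₀ • fderiv ℂ χ.σ p w + deriv c z₀ • χ.σ p := by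
      have h1 : F =ᶠ[𝓝 z₀] fun z => c z • χ.σ (χ.q (F z)) := hev.mono fun z hz => hz.2
      rw [h1.deriv_eq]
      exact hprod.deriv
    have e1 : fs (F z₀) (deriv F z₀) = fs (χ.σ p) (fderiv ℂ χ.σ p w) := by
      rw [hFd]
      conv_lhs => rw [hev0.2]
      exact fs_inv hy0 _ hc0 _
    rw [e1]
    calc fs (χ.σ p) (fderiv ℂ χ.σ p w) ≤ ‖fderiv ℂ χ.σ p w‖ / ‖χ.σ p‖ := fs_le hy0 _
      _ ≤ ‖fderiv ℂ χ.σ p‖ * ‖w‖ / ‖χ.σ p‖ := by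
        gcongr
        exact ContinuousLinearMap.le_opNorm _ _
      _ = (‖fderiv ℂ χ.σ p‖ / ‖χ.σ p‖) * ‖w‖ := by ring
      _ ≤ C₂ * ‖w‖ := mul_le_mul_of_nonneg_right (hC₂ p hp1) (norm_nonneg _)
      _ ≤ max 1 (max C₁ C₂) * ‖w‖ :=
        mul_le_mul_of_nonneg_right ((le_max_right _ _).trans (le_max_right _ _)) (norm_nonneg _)

end Pool.Agent.H14.PP

end

section

/-!
# The two sets of definitions agree
-/

open Topology Filter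

noncomputable section

namespace Pool.Agent.H17BP

attribute [-instance] ProperSMul.toContinuousSMul

variable {V : Type} [NormedAddCommGroup V] [NormedSpace ℂ V] {X B : Set V}

theorem chart_iff {σ : ℂ × ℂ → V} {τ : V → ℂ × ℂ} : H62.BU.IsChart X σ τ ↔ IsChart X σ τ :=
  ⟨fun h => ⟨h.σ_an, h.σ_mem, h.ne, h.τ_an, h.left, h.right, h.inv⟩,
    fun h => ⟨h.σ_an, h.σ_mem, h.ne, h.τ_an, h.left, h.right, h.inv⟩⟩

theorem surface_iff : H62.BU.Surface X ↔ Surface X :=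
  ⟨fun h => ⟨h.zero, h.smul, h.closed, fun x hx => by
      obtain ⟨σ, τ, h1, h2⟩ := h.chart x hx
      exact ⟨σ, τ, chart_iff.1 h1, h2⟩⟩,
    fun h => ⟨h.zero, h.smul, h.closed, fun x hx => by
      obtain ⟨σ, τ, h1, h2⟩ := h.chart x hx
      exact ⟨σ, τ, chart_iff.2 h1, h2⟩⟩⟩

theorem Eqs.sub {κ : Type} {Q : κ → V → ℂ} {D : ℕ} (h : Eqs X B Q D) : B ⊆ X :=
  fun x hx => ((h.mem_iff x).1 hx).1

theorem Eqs.cone {κ : Type} {Q : κ → V → ℂ} {D : ℕ} (h : Eqs X B Q D)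
    (hX : ∀ x ∈ X, ∀ c : ℂ, c ≠ 0 → c • x ∈ X) : ∀ x ∈ B, ∀ c : ℂ, c ≠ 0 → c • x ∈ B := by
  intro x hx c hc
  have h1 := (h.mem_iff x).1 hx
  exact (h.mem_iff _).2 ⟨hX x h1.1 c hc, fun i => by rw [h.smul, h1.2 i, mul_zero]⟩

theorem Pr.mem_iff (hX : ∀ x ∈ X, ∀ c : ℂ, c ≠ 0 → c • x ∈ X) {x y : V} (h : Pr x y) : x ∈ X ↔ y ∈ X := by
  constructor
  · intro hx
    obtain ⟨c, hc, e⟩ := h.symm
    rw [e]
    exact hX x hx c hc
  · intro hy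
    obtain ⟨c, hc, e⟩ := h
    rw [e]
    exact hX y hy c hc

end Pool.Agent.H17BP

end
end

section

/-!
# KR GL: gluing the local extensions to a form on the cone

`Ext M t₀ A B φ Φ p`: near `p` the function `Φ` is the analytic extension of
`A (φ) / B (φ) * D3 t₀ (φ, φ_x, φ_y) ^ M`.

* `Ext.unique`: `g = Φ - Φ'` is analytic and `eval (φ u) B * g u = 0` near `p`.  If `g p ≠ 0` then `g ≠ 0` near `p` and
  `eval (φ u) B = 0` near `p`.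
* `Ext.comp`: near `p` (`κ u → κ p`): `eval (φ u) B = c^b eval (σ (κ u)) B` (homogeneous of degree `b`; scaling:
  `MvPolynomial.IsHomogeneous` lemma or `eval₂_of_isHomogeneous` of file `HZ` may be imported),
  `D3_comp`: `D3 t₀ (φ …) = c^3 jac κ D3 t₀ (σ …) (κ u)`.  With `b = a + 3 M + 1`:
  `eval (φ u) B * (c⁻¹ jac^M Φ (κ u)) = c^(b-1) jac^M (eval (σκ) B Φ (κ u)) = c^(b-1) jac^M eval (σκ) A D3^M
   = c^(b - 1 - a - 3 M) eval (φ u) A * D3 t₀ (φ …) ^ M`.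
* `exists_om`: for `x ∈ cone P` choose `t, σ` (`hsm`) and `Φ` (`hext`), and
  `Om x v w = Φ 0 * (D3 t x v w / x (t 0) ^ 3) ^ M` (`0` for `x ∉ cone P`).
  Second clause: `C = Φ 0 / x (t 0) ^ (3 M)`.
  First clause: let `φ p = x`.  `CChart.param`: `φ = c • σ ∘ κ` near `p`, `κ p = 0`, `c p = 1`.  By `Ext.comp`
  `Φ'' u = (c u)⁻¹ * jac κ u ^ M * Φ_x (κ u)` is an extension for `φ`, so by `Ext.unique`
  `Φ p = Φ'' p = jac κ p ^ M * Φ_x 0`.  `D3_comp` (with `s = t`, at `u = p`) and `CChart.D3_eq` (at `0`):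
  `D3 t x (d1 φ p) (d2 φ p) = jac κ p * x (t 0) ^ 3`.
* `isForm_om`.  `add_smul`, `det`: from the second clause and `D3_add_smul`, `D3_det`.
  Claim (*): for `x ∈ cone P` with its chart `t, σ, Φ` (any `CChart` with an extension): for `u` near `0`:
  `Om (σ u) (d1 σ u) (d2 σ u) = Φ u`: the first clause at the points `p` near `0` (`Ext` holds at all nearby points:
  `eventually_eventually_nhds`, `AnalyticAt.eventually_analyticAt`; `nd_near` for the non-degeneracy; `mem_cone`).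
  `scale` (`j = 1`, write `c * Om (c x) (c v) (c w) = Om x v w`): by `CChart.tan` `v = a d1 σ 0 + b d2 σ 0 + e x`,
  `w = a' … + b' … + e' x`; by `add_smul` and `det` at `x` and at `c x` (where `c v = a (c d1 σ 0) + …`; note that
  the second clause gives these rules for all vectors) it is enough to compare
  `Om (c x) (c d1 σ 0) (c d2 σ 0)` and `c⁻¹ Om x (d1 σ 0) (d2 σ 0)`: the first clause for `φ = c • σ`, `p = 0` and its
  extension `c⁻¹ Φ` (`Ext.comp` with `κ = id`).  (`jac id = 1`.)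
  `analytic`: let `φ` be analytic at `p` with values in `cone P`, `x = φ p`, chart `t, σ, Φ` at `x`, `φ = c • σ ∘ κ` near `p`
  (`param`).  For `u` near `p` let `c = c u ≠ 0`, `y = σ (κ u) ∈ cone P`, `v₁ = d1 σ (κ u)`, `v₂ = d2 σ (κ u)` (tangent at `y` by
  `tan_d1`, `tan_d2`).  `d1_smul_comp`, `d2_smul_comp`: `d1 φ u = c_x y + c (a v₁ + b v₂)`, `d2 φ u = c_y y + c (a' v₁ + b' v₂)` with
  `a b' - b a' = jac κ u`.  By the second clause at the point `c y` of the cone the rules `add_smul` and `det` hold there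
  for ALL vectors: `c_x y = (c_x / c) (c y)`, `c (a v₁ + b v₂) = a (c v₁) + b (c v₂)`, so
  `Om (c y) (d1 φ u) (d2 φ u) = jac κ u ^ M * Om (c y) (c v₁) (c v₂) = jac κ u ^ M * (c u)⁻¹ * Om y v₁ v₂` (`scale`)
  `= jac κ u ^ M * (c u)⁻¹ * Φ (κ u)` by (*).  This is analytic in `u` at `p`.
-/

set_option autoImplicit false

open MvPolynomial Topology Filter
open Pool.Agent.H17BP (Tan IsForm)

noncomputable section

namespace Pool.Agent.H68.KR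

attribute [-instance] ProperSMul.toContinuousSMul

variable {N : ℕ}

/-- `Φ` is, near `p`, the analytic extension of `A (φ) / B (φ) * D3 t₀ (φ, φ_x, φ_y) ^ M`. -/
def Ext (M : ℕ) (t₀ : Fin 3 → Fin (N + 1)) (A B : MvPolynomial (Fin (N + 1)) ℂ)
    (φ : ℂ × ℂ → Fin (N + 1) → ℂ) (Φ : ℂ × ℂ → ℂ) (p : ℂ × ℂ) : Prop :=
  AnalyticAt ℂ Φ p ∧
    ∀ᶠ u in 𝓝 p, eval (φ u) B * Φ u = eval (φ u) A * D3 t₀ (φ u) (d1 φ u) (d2 φ u) ^ M

variable {M a : ℕ} {t₀ : Fin 3 → Fin (N + 1)} {A B : MvPolynomial (Fin (N + 1)) ℂ}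

theorem Ext.unique {φ : ℂ × ℂ → Fin (N + 1) → ℂ} {Φ Φ' : ℂ × ℂ → ℂ} {p : ℂ × ℂ}
    (h : Ext M t₀ A B φ Φ p) (h' : Ext M t₀ A B φ Φ' p)
    (hnd : ¬ ∀ᶠ u in 𝓝 p, eval (φ u) B = 0) : Φ p = Φ' p := by
  by_contra hne
  apply hnd
  have hg : ContinuousAt (fun u => Φ u - Φ' u) p := h.1.continuousAt.sub h'.1.continuousAt
  have hg0 : ∀ᶠ u in 𝓝 p, Φ u - Φ' u ≠ 0 := hg.eventually_ne (sub_ne_zero.2 hne)
  filter_upwards [hg0, h.2, h'.2] with u h1 h2 h3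
  have h4 : eval (φ u) B * (Φ u - Φ' u) = 0 := by
    rw [mul_sub, h2, h3, sub_self]
  exact (mul_eq_zero.1 h4).resolve_right h1

private theorem GL_eval_smul {n : ℕ} {Q : MvPolynomial (Fin (N + 1)) ℂ} (hQ : Q.IsHomogeneous n) (c : ℂ)
    (y : Fin (N + 1) → ℂ) : eval (c • y) Q = c ^ n * eval y Q :=
  eval₂_of_isHomogeneous (RingHom.id ℂ) hQ c y

theorem Ext.comp (hA : A.IsHomogeneous a) (hB : B.IsHomogeneous (a + 3 * M + 1))
    {φ σ : ℂ × ℂ → Fin (N + 1) → ℂ} {Φ c : ℂ × ℂ → ℂ} {κ : ℂ × ℂ → ℂ × ℂ} {p : ℂ × ℂ}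
    (hc : AnalyticAt ℂ c p) (hc0 : c p ≠ 0) (hκ : AnalyticAt ℂ κ p) (hσ : AnalyticAt ℂ σ (κ p))
    (h : Ext M t₀ A B σ Φ (κ p)) (hφ : ∀ᶠ u in 𝓝 p, φ u = c u • σ (κ u)) :
    Ext M t₀ A B φ (fun u => (c u)⁻¹ * jac κ u ^ M * Φ (κ u)) p := by
  refine ⟨((hc.inv hc0).mul ((analyticAt_jac hκ).pow M)).mul (h.1.comp hκ), ?_⟩
  have h2 : ∀ᶠ u in 𝓝 p, eval (σ (κ u)) B * Φ (κ u) =
      eval (σ (κ u)) A * D3 t₀ (σ (κ u)) (d1 σ (κ u)) (d2 σ (κ u)) ^ M :=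
    hκ.continuousAt.eventually h.2
  filter_upwards [h2, hφ, D3_comp t₀ hc hκ hσ hφ, hc.continuousAt.eventually_ne hc0] with u e1 e2 e3 e4
  rw [e3, e2, GL_eval_smul hB, GL_eval_smul hA]
  have e5 : c u ^ (a + 3 * M + 1) * eval (σ (κ u)) B * ((c u)⁻¹ * jac κ u ^ M * Φ (κ u)) =
      c u ^ (a + 3 * M) * jac κ u ^ M * (eval (σ (κ u)) B * Φ (κ u)) := by
    rw [pow_succ]
    field_simp
  rw [e5, e1, mul_pow, mul_pow, pow_add, pow_mul]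
  ring

variable {P : Ideal (MvPolynomial (Fin (N + 1)) ℂ)}

theorem exists_om (hA : A.IsHomogeneous a) (hB : B.IsHomogeneous (a + 3 * M + 1))
    (hsm : ∀ x ∈ cone P, ∃ t σ, CChart P x t σ)
    (hext : ∀ x t σ, CChart P x t σ → ∃ Φ, Ext M t₀ A B σ Φ 0) :
    ∃ Om : (Fin (N + 1) → ℂ) → (Fin (N + 1) → ℂ) → (Fin (N + 1) → ℂ) → ℂ,
      (∀ x ∈ cone P, ∀ (φ : ℂ × ℂ → Fin (N + 1) → ℂ) (p : ℂ × ℂ) (Φ : ℂ × ℂ → ℂ), AnalyticAt ℂ φ p →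
        (∀ᶠ u in 𝓝 p, ∀ Q ∈ P, eval (φ u) Q = 0) → φ p = x → Ext M t₀ A B φ Φ p →
        (¬ ∀ᶠ u in 𝓝 p, eval (φ u) B = 0) → Om x (d1 φ p) (d2 φ p) = Φ p) ∧
      ∀ x ∈ cone P, ∃ (t : Fin 3 → Fin (N + 1)) (C : ℂ), ∀ v w, Om x v w = C * D3 t x v w ^ M := by
  classical
  choose t σ hch using hsm
  choose Φx hΦx using fun (x : Fin (N + 1) → ℂ) (hx : x ∈ cone P) => hext x (t x hx) (σ x hx) (hch x hx)
  refine ⟨fun x v w => if hx : x ∈ cone P then Φx x hx 0 * (D3 (t x hx) x v w / x (t x hx 0) ^ 3) ^ M else 0,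
    ?_, ?_⟩
  · intro x hx φ p Φ hφ hφP hφx hE hnd
    obtain ⟨κ, c, hκ, hc, hκ0, hc1, he⟩ := (hch x hx).param hφ hφx hφP
    have hc0 : c p ≠ 0 := by
      rw [hc1]
      exact one_ne_zero
    have hσ : AnalyticAt ℂ (σ x hx) (κ p) := by
      rw [hκ0]
      exact (hch x hx).an
    have hE' : Ext M t₀ A B (σ x hx) (Φx x hx) (κ p) := by
      rw [hκ0]
      exact hΦx x hx
    have hcomp := Ext.comp hA hB hc hc0 hκ hσ hE' he
    have h1 := Ext.unique hE hcomp hnd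
    have h1' : Φ p = (c p)⁻¹ * jac κ p ^ M * Φx x hx (κ p) := h1
    rw [hc1, hκ0, inv_one, one_mul] at h1'
    have h2 := (D3_comp (t x hx) hc hκ hσ he).self_of_nhds
    have h3 := (hch x hx).D3_eq.self_of_nhds
    rw [hκ0, hc1, h3, one_pow, one_mul, hφx] at h2
    have h4 : x (t x hx 0) ≠ 0 := (hch x hx).ne
    simp only [hx, dif_pos]
    rw [h2, h1', mul_div_cancel_right₀ _ (pow_ne_zero 3 h4), mul_comm]
  · intro x hx
    refine ⟨t x hx, Φx x hx 0 / (x (t x hx 0) ^ 3) ^ M, fun v w => ?_⟩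
    simp only [hx, dif_pos]
    rw [div_pow]
    ring

/-- The local form of `Om` in a chart. -/
private theorem GL_star (hB : B.IsHomogeneous (a + 3 * M + 1)) (hBP : B ∉ P)
    {Om : (Fin (N + 1) → ℂ) → (Fin (N + 1) → ℂ) → (Fin (N + 1) → ℂ) → ℂ}
    (h1 : ∀ x ∈ cone P, ∀ (φ : ℂ × ℂ → Fin (N + 1) → ℂ) (p : ℂ × ℂ) (Φ : ℂ × ℂ → ℂ), AnalyticAt ℂ φ p →
        (∀ᶠ u in 𝓝 p, ∀ Q ∈ P, eval (φ u) Q = 0) → φ p = x → Ext M t₀ A B φ Φ p →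
        (¬ ∀ᶠ u in 𝓝 p, eval (φ u) B = 0) → Om x (d1 φ p) (d2 φ p) = Φ p)
    {x : Fin (N + 1) → ℂ} {t : Fin 3 → Fin (N + 1)} {σ : ℂ × ℂ → Fin (N + 1) → ℂ}
    (hch : CChart P x t σ) {Φ : ℂ × ℂ → ℂ} (hΦ : Ext M t₀ A B σ Φ 0) :
    ∀ᶠ u in 𝓝 (0 : ℂ × ℂ), Om (σ u) (d1 σ u) (d2 σ u) = Φ u := by
  filter_upwards [hch.an.eventually_analyticAt, hch.mem.eventually_nhds, hΦ.1.eventually_analyticAt,
    hΦ.2.eventually_nhds, hch.nd_near, hch.mem_cone] with u a1 a2 a3 a4 a5 a6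
  exact h1 (σ u) a6 σ u Φ a1 a2 rfl ⟨a3, a4⟩ (a5 _ B hB hBP)

private theorem GL_d1_const_smul {σ : ℂ × ℂ → Fin (N + 1) → ℂ} {p : ℂ × ℂ} (h : AnalyticAt ℂ σ p) (c : ℂ) :
    d1 (fun u => c • σ u) p = c • d1 σ p := by
  unfold d1
  rw [fderiv_fun_const_smul h.differentiableAt]
  rfl

private theorem GL_d2_const_smul {σ : ℂ × ℂ → Fin (N + 1) → ℂ} {p : ℂ × ℂ} (h : AnalyticAt ℂ σ p) (c : ℂ) :
    d2 (fun u => c • σ u) p = c • d2 σ p := by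
  unfold d2
  rw [fderiv_fun_const_smul h.differentiableAt]
  rfl

private theorem GL_jac_id (p : ℂ × ℂ) : jac (fun u => u) p = 1 := by
  have e1 : fderiv ℂ (fun v : ℂ × ℂ => v.1) p = ContinuousLinearMap.fst ℂ ℂ ℂ := fderiv_fst
  have e2 : fderiv ℂ (fun v : ℂ × ℂ => v.2) p = ContinuousLinearMap.snd ℂ ℂ ℂ := fderiv_snd
  simp only [jac, dx, dy]
  rw [e1, e2]
  simp

theorem isForm_om (hP : ∀ p ∈ P, ∀ n, homogeneousComponent n p ∈ P) (hA : A.IsHomogeneous a)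
    (hB : B.IsHomogeneous (a + 3 * M + 1)) (hBP : B ∉ P) (hsm : ∀ x ∈ cone P, ∃ t σ, CChart P x t σ)
    (hext : ∀ x t σ, CChart P x t σ → ∃ Φ, Ext M t₀ A B σ Φ 0)
    {Om : (Fin (N + 1) → ℂ) → (Fin (N + 1) → ℂ) → (Fin (N + 1) → ℂ) → ℂ}
    (h1 : ∀ x ∈ cone P, ∀ (φ : ℂ × ℂ → Fin (N + 1) → ℂ) (p : ℂ × ℂ) (Φ : ℂ × ℂ → ℂ), AnalyticAt ℂ φ p →
        (∀ᶠ u in 𝓝 p, ∀ Q ∈ P, eval (φ u) Q = 0) → φ p = x → Ext M t₀ A B φ Φ p →
        (¬ ∀ᶠ u in 𝓝 p, eval (φ u) B = 0) → Om x (d1 φ p) (d2 φ p) = Φ p)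
    (h2 : ∀ x ∈ cone P, ∃ (t : Fin 3 → Fin (N + 1)) (C : ℂ), ∀ v w, Om x v w = C * D3 t x v w ^ M) :
    IsForm (cone P) M 1 Om := by
  -- the rules for all vectors
  have r1 : ∀ x ∈ cone P, ∀ v w : Fin (N + 1) → ℂ, ∀ α β : ℂ,
      Om x (v + α • x) (w + β • x) = Om x v w := by
    intro x hx v w α β
    obtain ⟨t, C, hC⟩ := h2 x hx
    rw [hC, hC, D3_add_smul]
  have r2 : ∀ x ∈ cone P, ∀ v w : Fin (N + 1) → ℂ, ∀ α β γ δ : ℂ,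
      Om x (α • v + β • w) (γ • v + δ • w) = (α * δ - β * γ) ^ M * Om x v w := by
    intro x hx v w α β γ δ
    obtain ⟨t, C, hC⟩ := h2 x hx
    rw [hC, hC, D3_det, mul_pow]
    ring
  have hscale : ∀ x ∈ cone P, ∀ v ∈ Tan (cone P) x, ∀ w ∈ Tan (cone P) x, ∀ c : ℂ, c ≠ 0 →
      c ^ 1 * Om (c • x) (c • v) (c • w) = Om x v w := by
    intro x hx v hv w hw c hc
    obtain ⟨t, σ, hch⟩ := hsm x hx
    obtain ⟨Φ, hΦ⟩ := hext x t σ hch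
    obtain ⟨α, β, e, hv'⟩ := hch.tan hv
    obtain ⟨γ, δ, e', hw'⟩ := hch.tan hw
    have hcx : c • x ∈ cone P := cone_smul hP hx hc
    have k1 : Om x (d1 σ 0) (d2 σ 0) = Φ 0 := by
      have := (GL_star hB hBP h1 hch hΦ).self_of_nhds
      rwa [hch.zero] at this
    have hσ' : AnalyticAt ℂ (fun u => c • σ u) 0 := by
      show AnalyticAt ℂ (c • σ) 0
      exact hch.an.const_smul
    have k2 : Om (c • x) (c • d1 σ 0) (c • d2 σ 0) = c⁻¹ * Φ 0 := by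
      have hE : Ext M t₀ A B (fun u => c • σ u) (fun u => c⁻¹ * jac (fun u => u) u ^ M * Φ u) 0 :=
        Ext.comp (c := fun _ => c) (κ := fun u => u) hA hB analyticAt_const hc analyticAt_id
          hch.an hΦ (Eventually.of_forall fun _ => rfl)
      have hm : ∀ᶠ u in 𝓝 (0 : ℂ × ℂ), ∀ Q ∈ P, eval (c • σ u) Q = 0 := by
        filter_upwards [hch.mem_cone] with u hu
        exact (cone_smul hP hu hc).2
      have hn : ¬ ∀ᶠ u in 𝓝 (0 : ℂ × ℂ), eval (c • σ u) B = 0 := by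
        intro hall
        apply hch.nd _ B hB hBP
        filter_upwards [hall] with u hu
        rw [GL_eval_smul hB] at hu
        exact (mul_eq_zero.1 hu).resolve_left (pow_ne_zero _ hc)
      have h3 := h1 (c • x) hcx (fun u => c • σ u) 0 _ hσ' hm (by rw [hch.zero]) hE hn
      rw [GL_d1_const_smul hch.an, GL_d2_const_smul hch.an] at h3
      rw [h3, GL_jac_id, one_pow, mul_one]
    have hv2 : c • v = (α • (c • d1 σ 0) + β • (c • d2 σ 0)) + e • (c • x) := by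
      rw [hv']
      module
    have hw2 : c • w = (γ • (c • d1 σ 0) + δ • (c • d2 σ 0)) + e' • (c • x) := by
      rw [hw']
      module
    rw [hv2, hw2, r1 _ hcx, r2 _ hcx, k2, hv', hw', r1 _ hx, r2 _ hx, k1]
    field_simp
  refine ⟨fun x hx v _ w _ α β => r1 x hx v w α β, fun x hx v _ w _ α β γ δ => r2 x hx v w α β γ δ,
    hscale, ?_⟩
  intro φ p hφ hφX
  have hx : φ p ∈ cone P := hφX.self_of_nhds
  obtain ⟨t, σ, hch⟩ := hsm (φ p) hx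
  obtain ⟨Φ, hΦ⟩ := hext (φ p) t σ hch
  have hφP : ∀ᶠ u in 𝓝 p, ∀ Q ∈ P, eval (φ u) Q = 0 := hφX.mono fun u hu => hu.2
  obtain ⟨κ, c, hκ, hc, hκ0, hc1, he⟩ := hch.param hφ rfl hφP
  have hσ : AnalyticAt ℂ σ (κ p) := by
    rw [hκ0]
    exact hch.an
  have hΦκ : AnalyticAt ℂ Φ (κ p) := by
    rw [hκ0]
    exact hΦ.1
  have hc0 : c p ≠ 0 := by
    rw [hc1]
    exact one_ne_zero
  have hκt : Tendsto κ (𝓝 p) (𝓝 0) := by
    have := hκ.continuousAt.tendsto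
    rwa [hκ0] at this
  have hF : AnalyticAt ℂ (fun u => jac κ u ^ M * ((c u)⁻¹ * Φ (κ u))) p :=
    ((analyticAt_jac hκ).pow M).mul ((hc.inv hc0).mul (hΦκ.comp hκ))
  refine hF.congr ?_
  filter_upwards [he, d1_smul_comp hc hκ hσ he, d2_smul_comp hc hκ hσ he,
    hc.continuousAt.eventually_ne hc0, hκt.eventually hch.mem_cone,
    hκt.eventually (GL_star hB hBP h1 hch hΦ), hκt.eventually hch.an.eventually_analyticAt,
    hκt.eventually hch.mem_cone.eventually_nhds] with u e1 e2 e3 e4 e5 e6 e7 e8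
  have hcy : c u • σ (κ u) ∈ cone P := cone_smul hP e5 e4
  have ht1 : d1 σ (κ u) ∈ Tan (cone P) (σ (κ u)) := tan_d1 e7 e8
  have ht2 : d2 σ (κ u) ∈ Tan (cone P) (σ (κ u)) := tan_d2 e7 e8
  have hs := hscale _ e5 _ ht1 _ ht2 (c u) e4
  rw [pow_one, e6] at hs
  show jac κ u ^ M * ((c u)⁻¹ * Φ (κ u)) = Om (φ u) (d1 φ u) (d2 φ u)
  have f1 : d1 φ u = (dx (fun v => (κ v).1) u • (c u • d1 σ (κ u)) +
      dx (fun v => (κ v).2) u • (c u • d2 σ (κ u))) + (dx c u / c u) • (c u • σ (κ u)) := by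
    rw [e2, smul_smul (dx c u / c u), div_mul_cancel₀ _ e4]
    module
  have f2 : d2 φ u = (dy (fun v => (κ v).1) u • (c u • d1 σ (κ u)) +
      dy (fun v => (κ v).2) u • (c u • d2 σ (κ u))) + (dy c u / c u) • (c u • σ (κ u)) := by
    rw [e3, smul_smul (dy c u / c u), div_mul_cancel₀ _ e4]
    module
  rw [f1, f2, e1, r1 _ hcy, r2 _ hcy, ← hs]
  unfold jac
  rw [inv_mul_cancel_left₀ e4]
  ring

end Pool.Agent.H68.KR

end
end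

section

/-!
# KR CB5: a curve of poles

Proof of `exists_pole_curve` (`A / B` with `B (0, ·) ≠ 0`, no extension at `0`; `U` a neighbourhood of `0`).
Let `r > 0` with `ball 0 r ⊆ U` and `A, B` analytic on `ball 0 r`; `0 < ρ < r` with `B (0, y) ≠ 0` for `0 < |y| ≤ ρ`;
`0 < δ < r` with `B (x, y) ≠ 0` for `|x| < δ, |y| = ρ` (compactness).  For `|x| < δ` the function `B (x, ·)` is analytic
on `|y| < r`, not `0` on the circle `|y| = ρ`, so it does not vanish identically near any `y`, `|y| < r`.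
Let `Bad = {(x, y) | |x| < δ, |y| < ρ, ¬ LD A B x y}` and for `(x, y) ∈ Bad` let `k (x, y)` be the order of
`exists_order`.  `Bad` is not empty: otherwise `extend_of_slices` with `ρ₀ = ρ` applies.  Let `k` be the minimum of the
orders over `Bad`, attained at `(x₁, y₁)`: `dy^[i] B (x₁, y₁) = 0` for `i < k`, `dy^[k] B (x₁, y₁) ≠ 0`, and for every
`(x, y) ∈ Bad`: `dy^[i] B (x, y) = 0` for all `i < k`.  `k ≥ 1`: if `k = 0` then `ld_of_vanish` with `k = 0` says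
`LD A B x₁ y₁`.
Let `G = dy^[k-1] B`, `G (x₁, y₁) = 0`, `dy G (x₁, y₁) = dy^[k] B (x₁, y₁) ≠ 0`: `exists_implicit` gives `c₁`.
Put `c x = c₁ (x₁ + x)`.
Claim: for `x` near `0`, `x ≠ 0`: `(x₁ + x, c x) ∈ Bad`.  The pair `A (x₁ + ·, y₁ + ·), B (x₁ + ·, y₁ + ·)` has no
extension at `0` (otherwise `LD A B x₁ y₁`, `q z = Φ (0, z - y₁)`), so by `extend_of_slices` (contrapositive) for every
`ρ' > 0` and all `x ≠ 0` near `0` there is `y` with `|y - y₁| < ρ'` and `¬ LD A B (x₁ + x) y` (translate `LD`).  With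
`ρ'` and `x` so small that `|x₁ + x| < δ`, `|y| < ρ` and that the point is in the neighbourhood of `exists_implicit`:
`(x₁ + x, y) ∈ Bad`, `G (x₁ + x, y) = 0`, `y = c₁ (x₁ + x) = c x`.
The conclusions: `(x₁, c 0) = (x₁, y₁) ∈ U`; for `i < k`: `dy^[i] B (x₁ + x, c x) = 0` for `x ≠ 0` near `0` (and for
`x = 0`); `dy^[k] B (x₁, c 0) ≠ 0`; if for all `i < k` `dy^[i] A (x₁ + x, c x) = 0` for `x` near `0`, then take one
`x ≠ 0` near `0` for which all hold and `dy^[k] B (x₁ + x, c x) ≠ 0`: `ld_of_vanish` contradicts `Bad`.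

Proof of `exists_curve`.  `m` from `exists_direction`.  `A' (x, y) = A (x + m y, y)`, `B'` similarly; no extension
`Φ'` at `0` (otherwise `Φ (x, y) = Φ' (x - m y, y)`).  Apply `exists_pole_curve` to `A', B'` and the preimage of `U`.
For `θ = shear m x₁ c` and `f' (x, y) = f (x + m y, y)`: `f (θ u) = f' (x₁ + u.1, c u.1 + u.2)`, and for `x` near `0`
`dy^[i] (f ∘ θ) (x, 0) = (dy^[i] f') (x₁ + x, c x)` (`iterate_dy_slice` for both sides, `iteratedDeriv_comp_const_add`;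
the hypothesis of `iterate_dy_slice` holds at `(x, 0)` and `(x₁ + x, c x)` for `x` near `0`).
The `i`-th coefficient of `t2 (f ∘ θ)` is `C (1/i!) * t1 (fun x => dy^[i] (f ∘ θ) (x, 0))`, `0` iff the function is `0`
near `0` (`t1_congr`, `t1_eq_zero_iff`).  So `t2 (B ∘ θ)` has order `k` and `t2 (A ∘ θ)` has a non-zero coefficient of
index `< k` (`PowerSeries.order_eq_nat`, `PowerSeries.order_le`).
-/

set_option autoImplicit false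

open Topology Filter Metric

noncomputable section

namespace Pool.Agent.H68.KR

attribute [-instance] ProperSMul.toContinuousSMul

theorem analyticAt_shift (x₁ y₁ : ℂ) (p : ℂ × ℂ) :
    AnalyticAt ℂ (fun u : ℂ × ℂ => ((x₁ + u.1, y₁ + u.2) : ℂ × ℂ)) p :=
  AnalyticAt.prod (analyticAt_const.add analyticAt_fst) (analyticAt_const.add analyticAt_snd)

theorem ld_shift_of {A B : ℂ × ℂ → ℂ} {x₁ y₁ x y : ℂ}
    (h : LD A B (x₁ + x) (y₁ + y)) :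
    LD (fun u => A (x₁ + u.1, y₁ + u.2)) (fun u => B (x₁ + u.1, y₁ + u.2)) x y := by
  obtain ⟨q, hq, he⟩ := h
  refine ⟨fun z => q (y₁ + z), ?_, ?_⟩
  · have h1 : AnalyticAt ℂ q ((fun z => y₁ + z) y) := hq
    exact AnalyticAt.fun_comp h1 (by fun_prop)
  · have hc : ContinuousAt (fun z : ℂ => y₁ + z) y := by fun_prop
    have ht : Tendsto (fun z : ℂ => y₁ + z) (𝓝 y) (𝓝 (y₁ + y)) := hc
    filter_upwards [ht.eventually he] with z hz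
    simpa using hz

theorem ld_of_ext {A B Φ : ℂ × ℂ → ℂ} {x₁ y₁ : ℂ} (hΦ : AnalyticAt ℂ Φ 0)
    (h : ∀ᶠ u in 𝓝 (0 : ℂ × ℂ), A (x₁ + u.1, y₁ + u.2) = B (x₁ + u.1, y₁ + u.2) * Φ u) :
    LD A B x₁ y₁ := by
  refine ⟨fun z => Φ (0, z - y₁), ?_, ?_⟩
  · have h1 : AnalyticAt ℂ Φ ((fun z : ℂ => ((0 : ℂ), z - y₁)) y₁) := by
      simpa [Prod.zero_eq_mk] using hΦ
    exact AnalyticAt.fun_comp h1 (by fun_prop)
  · have hc : ContinuousAt (fun z : ℂ => ((0 : ℂ), z - y₁)) y₁ := by fun_prop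
    have ht : Tendsto (fun z : ℂ => ((0 : ℂ), z - y₁)) (𝓝 y₁) (𝓝 0) := by
      have h2 := hc.tendsto
      simpa [Prod.zero_eq_mk] using h2
    filter_upwards [ht.eventually h] with z hz
    simpa using hz

theorem eventually_of_punctured {P : ℂ → Prop} (h : ∀ᶠ x in 𝓝[≠] (0 : ℂ), P x) (h0 : P 0) :
    ∀ᶠ x in 𝓝 (0 : ℂ), P x := by
  rw [eventually_nhdsWithin_iff] at h
  filter_upwards [h] with x hx
  by_cases hx0 : x = 0
  · rw [hx0]; exact h0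
  · exact hx hx0

/-- The point of minimal order and the implicit function. -/
theorem exists_min {A B : ℂ × ℂ → ℂ} (hA : AnalyticAt ℂ A 0) (hB : AnalyticAt ℂ B 0)
    (hB0 : ¬ ∀ᶠ y in 𝓝 (0 : ℂ), B (0, y) = 0)
    (hne : ¬ ∃ Φ : ℂ × ℂ → ℂ, AnalyticAt ℂ Φ 0 ∧ ∀ᶠ u in 𝓝 (0 : ℂ × ℂ), A u = B u * Φ u)
    {U : Set (ℂ × ℂ)} (hU : U ∈ 𝓝 (0 : ℂ × ℂ)) :
    ∃ (V : Set (ℂ × ℂ)) (k : ℕ) (x₁ y₁ : ℂ), IsOpen V ∧ ((x₁, y₁) : ℂ × ℂ) ∈ V ∧
      (∀ u ∈ V, AnalyticAt ℂ A u ∧ AnalyticAt ℂ B u ∧ u ∈ U) ∧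
      (∀ x y : ℂ, (x, y) ∈ V → ¬ LD A B x y → ∀ i < k, (dy^[i] B) (x, y) = 0) ∧
      ¬ LD A B x₁ y₁ ∧ (dy^[k] B) (x₁, y₁) ≠ 0 ∧ 0 < k ∧
      ¬ ∀ᶠ z in 𝓝 y₁, B (x₁, z) = 0 := by
  obtain ⟨r, hr0, hr⟩ : ∃ r > 0, ∀ u ∈ ball (0 : ℂ × ℂ) r, AnalyticAt ℂ A u ∧ AnalyticAt ℂ B u ∧ u ∈ U := by
    have h := (hA.eventually_analyticAt.and hB.eventually_analyticAt).and hU
    obtain ⟨r, hr0, hr⟩ := Metric.eventually_nhds_iff_ball.1 h
    exact ⟨r, hr0, fun u hu => ⟨(hr u hu).1.1, (hr u hu).1.2, (hr u hu).2⟩⟩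
  have hrr : ∀ x y : ℂ, ‖x‖ < r → ‖y‖ < r → ((x, y) : ℂ × ℂ) ∈ ball (0 : ℂ × ℂ) r := by
    intro x y hx hy
    rw [mem_ball_zero_iff, Prod.norm_def]
    exact max_lt hx hy
  have hb0 : AnalyticAt ℂ (fun y : ℂ => B (0, y)) 0 := by
    have h1 : AnalyticAt ℂ B ((fun y : ℂ => ((0 : ℂ), y)) 0) := by
      simpa [Prod.zero_eq_mk] using hB
    exact AnalyticAt.fun_comp h1 (by fun_prop)
  obtain ⟨ε, hε0, hε⟩ : ∃ ε > 0, ∀ y : ℂ, ‖y‖ < ε → y ≠ 0 → B (0, y) ≠ 0 := by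
    rcases hb0.eventually_eq_zero_or_eventually_ne_zero with h | h
    · exact absurd h hB0
    · rw [eventually_nhdsWithin_iff, Metric.eventually_nhds_iff_ball] at h
      obtain ⟨ε, hε0, hε⟩ := h
      exact ⟨ε, hε0, fun y hy hy0 => hε y (mem_ball_zero_iff.2 hy) hy0⟩
  set ρ : ℝ := min ε r / 2 with hρdef
  have hm0 : 0 < min ε r := lt_min hε0 hr0
  have hρ0 : 0 < ρ := by positivity
  have hρε : ρ < ε := lt_of_lt_of_le (by rw [hρdef]; linarith) (min_le_left ε r)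
  have hρr : ρ < r := lt_of_lt_of_le (by rw [hρdef]; linarith) (min_le_right ε r)
  obtain ⟨δ₀, hδ0, hδ⟩ : ∃ δ₀ > 0, ∀ x : ℂ, ‖x‖ < δ₀ → ∀ y ∈ sphere (0 : ℂ) ρ, B (x, y) ≠ 0 := by
    have h := (isCompact_sphere (0 : ℂ) ρ).eventually_forall_of_forall_eventually
      (x₀ := (0 : ℂ)) (P := fun x y => B (x, y) ≠ 0) (by
        intro y hy
        have hy' : ‖y‖ = ρ := by simpa using hy
        have hne0 : y ≠ 0 := by
          rintro rfl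
          rw [norm_zero] at hy'
          linarith
        have h1 : B (0, y) ≠ 0 := hε y (by rw [hy']; exact hρε) hne0
        have h2 : AnalyticAt ℂ B (0, y) := (hr _ (hrr 0 y (by simpa using hr0) (by rw [hy']; exact hρr))).2.1
        have h3 : ∀ᶠ z in 𝓝 ((0, y) : ℂ × ℂ), B z ≠ 0 := h2.continuousAt.eventually_ne h1
        filter_upwards [h3] with z hz
        exact hz)
    rw [Metric.eventually_nhds_iff_ball] at h
    obtain ⟨δ₀, hδ0, hδ⟩ := h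
    exact ⟨δ₀, hδ0, fun x hx => hδ x (mem_ball_zero_iff.2 hx)⟩
  set δ : ℝ := min δ₀ r with hδdef
  have hδp : 0 < δ := lt_min hδ0 hr0
  have hδr : δ ≤ r := min_le_right _ _
  have hδδ : δ ≤ δ₀ := min_le_left _ _
  have hnz : ∀ x y : ℂ, ‖x‖ < δ → ‖y‖ < r → ¬ ∀ᶠ z in 𝓝 y, B (x, z) = 0 := by
    intro x y hx hy h
    have han : AnalyticOnNhd ℂ (fun z : ℂ => B (x, z)) (ball (0 : ℂ) r) := by
      intro z hz
      have h1 : AnalyticAt ℂ B ((fun z : ℂ => (x, z)) z) :=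
        (hr _ (hrr x z (lt_of_lt_of_le hx hδr) (mem_ball_zero_iff.1 hz))).2.1
      exact AnalyticAt.fun_comp h1 (by fun_prop)
    have h2 := han.eqOn_zero_of_preconnected_of_eventuallyEq_zero
      (convex_ball (0 : ℂ) r).isPreconnected (mem_ball_zero_iff.2 hy) h
    have hρn : ‖(ρ : ℂ)‖ = ρ := by
      rw [Complex.norm_real, Real.norm_of_nonneg hρ0.le]
    have h3 := h2 (x := (ρ : ℂ)) (mem_ball_zero_iff.2 (by rw [hρn]; exact hρr))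
    exact hδ x (lt_of_lt_of_le hx hδδ) (ρ : ℂ) (by simp [hρ0.le]) h3
  have hex : ∃ x y : ℂ, ‖x‖ < δ ∧ ‖y‖ < ρ ∧ ¬ LD A B x y := by
    by_contra hcon
    push Not at hcon
    apply hne
    apply extend_of_slices hA hB hB0 hρ0
    apply Eventually.frequently
    rw [eventually_nhdsWithin_iff, Metric.eventually_nhds_iff_ball]
    exact ⟨δ, hδp, fun x hx _ y hy => hcon x y (mem_ball_zero_iff.1 hx) (mem_ball_zero_iff.1 hy)⟩
  have hord : ∀ x y : ℂ, ‖x‖ < δ → ‖y‖ < ρ →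
      ∃ k : ℕ, (∀ i < k, (dy^[i] B) (x, y) = 0) ∧ (dy^[k] B) (x, y) ≠ 0 := by
    intro x y hx hy
    exact exists_order (hr _ (hrr x y (lt_of_lt_of_le hx hδr) (hy.trans hρr))).2.1
      (hnz x y hx (hy.trans hρr))
  have hK : ∃ k : ℕ, ∃ x y : ℂ, ‖x‖ < δ ∧ ‖y‖ < ρ ∧ ¬ LD A B x y ∧
      (∀ i < k, (dy^[i] B) (x, y) = 0) ∧ (dy^[k] B) (x, y) ≠ 0 := by
    obtain ⟨x, y, hx, hy, hL⟩ := hex
    obtain ⟨k, hk⟩ := hord x y hx hy
    exact ⟨k, x, y, hx, hy, hL, hk⟩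
  classical
  set k := Nat.find hK with hkdef
  obtain ⟨x₁, y₁, hx₁, hy₁, hL₁, hk1, hk2⟩ := Nat.find_spec hK
  rw [← hkdef] at hk1 hk2
  have hmin : ∀ x y : ℂ, ‖x‖ < δ → ‖y‖ < ρ → ¬ LD A B x y → ∀ i < k, (dy^[i] B) (x, y) = 0 := by
    intro x y hx hy hL i hi
    obtain ⟨j, hj1, hj2⟩ := hord x y hx hy
    have hkj : k ≤ j := Nat.find_min' hK ⟨x, y, hx, hy, hL, hj1, hj2⟩
    exact hj1 i (lt_of_lt_of_le hi hkj)
  have hpt := hr _ (hrr x₁ y₁ (lt_of_lt_of_le hx₁ hδr) (hy₁.trans hρr))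
  refine ⟨ball (0 : ℂ) δ ×ˢ ball (0 : ℂ) ρ, k, x₁, y₁, isOpen_ball.prod isOpen_ball, ?_, ?_, ?_,
    hL₁, hk2, ?_, hnz x₁ y₁ hx₁ (hy₁.trans hρr)⟩
  · exact ⟨mem_ball_zero_iff.2 hx₁, mem_ball_zero_iff.2 hy₁⟩
  · intro u hu
    exact hr _ (hrr u.1 u.2 (lt_of_lt_of_le (mem_ball_zero_iff.1 hu.1) hδr)
      ((mem_ball_zero_iff.1 hu.2).trans hρr))
  · intro x y hxy hL
    exact hmin x y (mem_ball_zero_iff.1 hxy.1) (mem_ball_zero_iff.1 hxy.2) hL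
  · by_contra h0
    have hk0 : k = 0 := by omega
    apply hL₁
    apply ld_of_vanish hpt.1 hpt.2.1 (k := k)
    · intro i hi
      omega
    · exact hk1
    · exact hk2

theorem exists_pole_curve {A B : ℂ × ℂ → ℂ} (hA : AnalyticAt ℂ A 0) (hB : AnalyticAt ℂ B 0)
    (hB0 : ¬ ∀ᶠ y in 𝓝 (0 : ℂ), B (0, y) = 0)
    (hne : ¬ ∃ Φ : ℂ × ℂ → ℂ, AnalyticAt ℂ Φ 0 ∧ ∀ᶠ u in 𝓝 (0 : ℂ × ℂ), A u = B u * Φ u)
    {U : Set (ℂ × ℂ)} (hU : U ∈ 𝓝 (0 : ℂ × ℂ)) :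
    ∃ (x₁ : ℂ) (c : ℂ → ℂ) (k : ℕ), AnalyticAt ℂ c 0 ∧ ((x₁, c 0) : ℂ × ℂ) ∈ U ∧
      AnalyticAt ℂ A (x₁, c 0) ∧ AnalyticAt ℂ B (x₁, c 0) ∧
      (∀ i < k, ∀ᶠ x in 𝓝 (0 : ℂ), (dy^[i] B) (x₁ + x, c x) = 0) ∧ (dy^[k] B) (x₁, c 0) ≠ 0 ∧
      ∃ i < k, ¬ ∀ᶠ x in 𝓝 (0 : ℂ), (dy^[i] A) (x₁ + x, c x) = 0 := by
  obtain ⟨V, k, x₁, y₁, hVo, hV1, hV, hmin, hL₁, hk2, hk0, hnz⟩ := exists_min hA hB hB0 hne hU
  obtain ⟨n, rfl⟩ : ∃ n, k = n + 1 := ⟨k - 1, by omega⟩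
  have hA1 : AnalyticAt ℂ A (x₁, y₁) := (hV _ hV1).1
  have hB1 : AnalyticAt ℂ B (x₁, y₁) := (hV _ hV1).2.1
  have hG : AnalyticAt ℂ (dy^[n] B) (x₁, y₁) := analyticAt_iterate_dy hB1 n
  have hk1 := hmin x₁ y₁ hV1 hL₁
  have hG1 : dy (dy^[n] B) (x₁, y₁) ≠ 0 := by
    rw [Function.iterate_succ_apply'] at hk2
    exact hk2
  obtain ⟨c₁, hc₁, hc₁0, hc₁e⟩ := exists_implicit hG (hk1 n (Nat.lt_succ_self n)) hG1
  have hc : AnalyticAt ℂ (fun x : ℂ => c₁ (x₁ + x)) 0 := by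
    have h1 : AnalyticAt ℂ c₁ ((fun x : ℂ => x₁ + x) 0) := by simpa using hc₁
    exact AnalyticAt.fun_comp h1 (by fun_prop)
  have hc0 : (fun x : ℂ => c₁ (x₁ + x)) 0 = y₁ := by simpa using hc₁0
  have hA2 : AnalyticAt ℂ (fun u : ℂ × ℂ => A (x₁ + u.1, y₁ + u.2)) 0 := by
    have h1 : AnalyticAt ℂ A ((fun u : ℂ × ℂ => (x₁ + u.1, y₁ + u.2)) 0) := by simpa using hA1
    exact AnalyticAt.fun_comp h1 (analyticAt_shift x₁ y₁ 0)
  have hB2 : AnalyticAt ℂ (fun u : ℂ × ℂ => B (x₁ + u.1, y₁ + u.2)) 0 := by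
    have h1 : AnalyticAt ℂ B ((fun u : ℂ × ℂ => (x₁ + u.1, y₁ + u.2)) 0) := by simpa using hB1
    exact AnalyticAt.fun_comp h1 (analyticAt_shift x₁ y₁ 0)
  have hB3 : ¬ ∀ᶠ y in 𝓝 (0 : ℂ), (fun u : ℂ × ℂ => B (x₁ + u.1, y₁ + u.2)) (0, y) = 0 := by
    intro h
    apply hnz
    have hcs : ContinuousAt (fun z : ℂ => z - y₁) y₁ := by fun_prop
    have ht : Tendsto (fun z : ℂ => z - y₁) (𝓝 y₁) (𝓝 0) := by
      have h2 := hcs.tendsto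
      simpa using h2
    filter_upwards [ht.eventually h] with z hz
    simpa using hz
  have hne2 : ¬ ∃ Φ : ℂ × ℂ → ℂ, AnalyticAt ℂ Φ 0 ∧ ∀ᶠ u in 𝓝 (0 : ℂ × ℂ),
      (fun u : ℂ × ℂ => A (x₁ + u.1, y₁ + u.2)) u = (fun u : ℂ × ℂ => B (x₁ + u.1, y₁ + u.2)) u * Φ u := by
    rintro ⟨Φ, hΦ, he⟩
    exact hL₁ (ld_of_ext hΦ he)
  obtain ⟨ε, hε0, hε⟩ : ∃ ε > 0, ∀ u ∈ ball ((x₁, y₁) : ℂ × ℂ) ε,
      u ∈ V ∧ ((dy^[n] B) u = 0 → u.2 = c₁ u.1) := by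
    have h := (hVo.mem_nhds hV1 : V ∈ 𝓝 ((x₁, y₁) : ℂ × ℂ))
    have h2 : ∀ᶠ u in 𝓝 ((x₁, y₁) : ℂ × ℂ), u ∈ V ∧ ((dy^[n] B) u = 0 → u.2 = c₁ u.1) :=
      Filter.Eventually.and h hc₁e
    exact Metric.eventually_nhds_iff_ball.1 h2
  have hbad : ∀ᶠ x in 𝓝[≠] (0 : ℂ), ((x₁ + x, c₁ (x₁ + x)) : ℂ × ℂ) ∈ V ∧
      ¬ LD A B (x₁ + x) (c₁ (x₁ + x)) := by
    have h1 : ¬ ∃ᶠ x in 𝓝[≠] (0 : ℂ), ∀ y ∈ ball (0 : ℂ) ε,
        LD (fun u : ℂ × ℂ => A (x₁ + u.1, y₁ + u.2)) (fun u : ℂ × ℂ => B (x₁ + u.1, y₁ + u.2)) x y := by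
      intro h
      exact hne2 (extend_of_slices hA2 hB2 hB3 hε0 h)
    rw [Filter.not_frequently] at h1
    have h2 : ∀ᶠ x in 𝓝[≠] (0 : ℂ), x ∈ ball (0 : ℂ) ε :=
      mem_nhdsWithin_of_mem_nhds (ball_mem_nhds 0 hε0)
    filter_upwards [h1, h2] with x hx hxε
    push Not at hx
    obtain ⟨y, hy, hLy⟩ := hx
    have hmem : ((x₁ + x, y₁ + y) : ℂ × ℂ) ∈ ball ((x₁, y₁) : ℂ × ℂ) ε := by
      rw [mem_ball, Prod.dist_eq]
      simp only [dist_eq_norm, add_sub_cancel_left]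
      exact max_lt (mem_ball_zero_iff.1 hxε) (mem_ball_zero_iff.1 hy)
    obtain ⟨hv, himp⟩ := hε _ hmem
    have hLD : ¬ LD A B (x₁ + x) (y₁ + y) := fun h => hLy (ld_shift_of h)
    have hG0 := hmin _ _ hv hLD n (Nat.lt_succ_self n)
    have hy2 : y₁ + y = c₁ (x₁ + x) := himp hG0
    rw [← hy2]
    exact ⟨hv, hLD⟩
  refine ⟨x₁, fun x => c₁ (x₁ + x), n + 1, hc, ?_, ?_, ?_, ?_, ?_, ?_⟩
  · rw [hc0]; exact (hV _ hV1).2.2
  · rw [hc0]; exact hA1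
  · rw [hc0]; exact hB1
  · intro i hi
    apply eventually_of_punctured
    · filter_upwards [hbad] with x hx
      exact hmin _ _ hx.1 hx.2 i hi
    · rw [add_zero, hc0]
      exact hk1 i hi
  · rw [hc0]; exact hk2
  · by_contra hcon
    push Not at hcon
    have h1 : ∀ᶠ x in 𝓝 (0 : ℂ), ∀ i ∈ Finset.range (n + 1), (dy^[i] A) (x₁ + x, c₁ (x₁ + x)) = 0 := by
      rw [Filter.eventually_all_finset]
      intro i hi
      exact hcon i (Finset.mem_range.1 hi)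
    have h2 : ∀ᶠ x in 𝓝 (0 : ℂ), (dy^[n + 1] B) (x₁ + x, c₁ (x₁ + x)) ≠ 0 := by
      have h3 : AnalyticAt ℂ (dy^[n + 1] B) ((fun x : ℂ => (x₁ + x, c₁ (x₁ + x))) 0) := by
        have h4 : ((fun x : ℂ => (x₁ + x, c₁ (x₁ + x))) 0 : ℂ × ℂ) = (x₁, y₁) := by
          simp [hc₁0]
        rw [h4]
        exact analyticAt_iterate_dy hB1 (n + 1)
      have h5 : AnalyticAt ℂ (fun x : ℂ => ((x₁ + x, c₁ (x₁ + x)) : ℂ × ℂ)) 0 :=
        AnalyticAt.prod (by fun_prop) hc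
      have h6 : AnalyticAt ℂ (fun x : ℂ => (dy^[n + 1] B) ((fun x : ℂ => (x₁ + x, c₁ (x₁ + x))) x)) 0 :=
        AnalyticAt.fun_comp (f := fun x : ℂ => ((x₁ + x, c₁ (x₁ + x)) : ℂ × ℂ)) h3 h5
      exact h6.continuousAt.eventually_ne (by simpa [hc₁0] using hk2)
    have h3 : ∀ᶠ x in 𝓝[≠] (0 : ℂ), False := by
      filter_upwards [hbad, nhdsWithin_le_nhds h1, nhdsWithin_le_nhds h2] with x hx1 hx2 hx3
      apply hx1.2
      apply ld_of_vanish (hV _ hx1.1).1 (hV _ hx1.1).2.1 (k := n + 1)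
      · intro i hi
        exact hx2 i (Finset.mem_range.2 hi)
      · intro i hi
        exact hmin _ _ hx1.1 hx1.2 i hi
      · exact hx3
    simpa using h3.exists

/-- The coordinate change `(x, y) ↦ (x₁ + x + m (c x + y), c x + y)`. -/
def shear (m x₁ : ℂ) (c : ℂ → ℂ) (u : ℂ × ℂ) : ℂ × ℂ :=
  (x₁ + u.1 + m * (c u.1 + u.2), c u.1 + u.2)

theorem iterate_dy_shift {f : ℂ × ℂ → ℂ} {c : ℂ → ℂ} {x₁ : ℂ} (hc : AnalyticAt ℂ c 0)
    (hf : AnalyticAt ℂ f (x₁, c 0)) (i : ℕ) :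
    AnalyticAt ℂ (fun u : ℂ × ℂ => f (x₁ + u.1, c u.1 + u.2)) 0 ∧
    ∀ᶠ x in 𝓝 (0 : ℂ), (dy^[i] fun u : ℂ × ℂ => f (x₁ + u.1, c u.1 + u.2)) (x, 0) =
      (dy^[i] f) (x₁ + x, c x) := by
  have hσ : AnalyticAt ℂ (fun u : ℂ × ℂ => ((x₁ + u.1, c u.1 + u.2) : ℂ × ℂ)) 0 := by
    have h1 : AnalyticAt ℂ (fun u : ℂ × ℂ => c u.1) 0 :=
      AnalyticAt.fun_comp (f := fun u : ℂ × ℂ => u.1) hc analyticAt_fst
    exact AnalyticAt.prod (analyticAt_const.add analyticAt_fst) (h1.add analyticAt_snd)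
  have hfσ : AnalyticAt ℂ (fun u : ℂ × ℂ => f (x₁ + u.1, c u.1 + u.2)) 0 :=
    AnalyticAt.fun_comp (f := fun u : ℂ × ℂ => ((x₁ + u.1, c u.1 + u.2) : ℂ × ℂ))
      (by simpa using hf) hσ
  refine ⟨hfσ, ?_⟩
  have ht1 : Tendsto (fun x : ℂ => ((x, 0) : ℂ × ℂ)) (𝓝 0) (𝓝 0) := by
    have h1 : ContinuousAt (fun x : ℂ => ((x, 0) : ℂ × ℂ)) 0 := by fun_prop
    simpa [Prod.zero_eq_mk] using h1.tendsto
  have ht2 : Tendsto (fun x : ℂ => ((x₁ + x, c x) : ℂ × ℂ)) (𝓝 0) (𝓝 (x₁, c 0)) := by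
    have h0 : ContinuousAt c 0 := hc.continuousAt
    have h1 : ContinuousAt (fun x : ℂ => ((x₁ + x, c x) : ℂ × ℂ)) 0 := by fun_prop
    simpa using h1.tendsto
  filter_upwards [ht1.eventually hfσ.eventually_analyticAt, ht2.eventually hf.eventually_analyticAt]
    with x hx1 hx2
  rw [iterate_dy_slice hx1 i, iterate_dy_slice hx2 i]
  have h3 := congrFun (iteratedDeriv_comp_const_add i (fun y : ℂ => f (x₁ + x, y)) (c x)) 0
  rw [add_zero] at h3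
  exact h3

theorem coeff_t2_iff {g : ℂ × ℂ → ℂ} (hg : AnalyticAt ℂ g 0) (i : ℕ) :
    PowerSeries.coeff i (t2 g) = 0 ↔ ∀ᶠ x in 𝓝 (0 : ℂ), (dy^[i] g) (x, 0) = 0 := by
  have h1 : AnalyticAt ℂ (fun x : ℂ => (dy^[i] g) (x, 0)) 0 :=
    AnalyticAt.fun_comp (f := fun x : ℂ => ((x, 0) : ℂ × ℂ))
      (by simpa [Prod.zero_eq_mk] using analyticAt_iterate_dy hg i)
      (AnalyticAt.prod analyticAt_id analyticAt_const)
  rw [← t1_eq_zero_iff h1, t2, PowerSeries.coeff_mk, mul_eq_zero]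
  constructor
  · rintro (h | h)
    · exfalso
      have h2 := congrArg PowerSeries.constantCoeff h
      rw [PowerSeries.constantCoeff_C, map_zero, inv_eq_zero, Nat.cast_eq_zero] at h2
      exact Nat.factorial_ne_zero i h2
    · exact h
  · exact Or.inr

theorem coeff_shear_iff {f : ℂ × ℂ → ℂ} {c : ℂ → ℂ} (m x₁ : ℂ) (hc : AnalyticAt ℂ c 0)
    (hf : AnalyticAt ℂ (fun u : ℂ × ℂ => f (u.1 + m * u.2, u.2)) (x₁, c 0)) (i : ℕ) :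
    PowerSeries.coeff i (t2 fun u => f (shear m x₁ c u)) = 0 ↔
      ∀ᶠ x in 𝓝 (0 : ℂ), (dy^[i] fun u : ℂ × ℂ => f (u.1 + m * u.2, u.2)) (x₁ + x, c x) = 0 := by
  obtain ⟨h1, h2⟩ := iterate_dy_shift (f := fun u : ℂ × ℂ => f (u.1 + m * u.2, u.2)) hc hf i
  have h3 : (fun u => f (shear m x₁ c u)) = fun u : ℂ × ℂ =>
      (fun u : ℂ × ℂ => f (u.1 + m * u.2, u.2)) (x₁ + u.1, c u.1 + u.2) := rfl
  rw [h3, coeff_t2_iff h1 i]
  exact Filter.eventually_congr (h2.mono fun x hx => by rw [hx])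

/-- If `A / B` has no analytic extension at `0`, there are coordinates near a point close to `0` in which `B` is
divisible by a higher power of the second coordinate than `A`. -/
theorem exists_curve {A B : ℂ × ℂ → ℂ} (hA : AnalyticAt ℂ A 0) (hB : AnalyticAt ℂ B 0)
    (hB0 : ¬ ∀ᶠ u in 𝓝 (0 : ℂ × ℂ), B u = 0)
    (hne : ¬ ∃ Φ : ℂ × ℂ → ℂ, AnalyticAt ℂ Φ 0 ∧ ∀ᶠ u in 𝓝 (0 : ℂ × ℂ), A u = B u * Φ u)
    {U : Set (ℂ × ℂ)} (hU : U ∈ 𝓝 (0 : ℂ × ℂ)) :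
    ∃ (m x₁ : ℂ) (c : ℂ → ℂ) (j k : ℕ), AnalyticAt ℂ c 0 ∧ shear m x₁ c 0 ∈ U ∧
      (t2 fun u => A (shear m x₁ c u)).order = j ∧ (t2 fun u => B (shear m x₁ c u)).order = k ∧
      j < k := by
  obtain ⟨m, hm⟩ := exists_direction hB hB0
  have hτ : ∀ p : ℂ × ℂ, AnalyticAt ℂ (fun u : ℂ × ℂ => ((u.1 + m * u.2, u.2) : ℂ × ℂ)) p := fun p =>
    AnalyticAt.prod (analyticAt_fst.add (analyticAt_const.mul analyticAt_snd)) analyticAt_snd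
  have hτ' : ∀ p : ℂ × ℂ, AnalyticAt ℂ (fun u : ℂ × ℂ => ((u.1 - m * u.2, u.2) : ℂ × ℂ)) p := fun p =>
    AnalyticAt.prod (analyticAt_fst.sub (analyticAt_const.mul analyticAt_snd)) analyticAt_snd
  have hA' : AnalyticAt ℂ (fun u : ℂ × ℂ => A (u.1 + m * u.2, u.2)) 0 :=
    AnalyticAt.fun_comp (f := fun u : ℂ × ℂ => ((u.1 + m * u.2, u.2) : ℂ × ℂ))
      (by simpa [Prod.zero_eq_mk] using hA) (hτ 0)
  have hB' : AnalyticAt ℂ (fun u : ℂ × ℂ => B (u.1 + m * u.2, u.2)) 0 :=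
    AnalyticAt.fun_comp (f := fun u : ℂ × ℂ => ((u.1 + m * u.2, u.2) : ℂ × ℂ))
      (by simpa [Prod.zero_eq_mk] using hB) (hτ 0)
  have hB0' : ¬ ∀ᶠ y in 𝓝 (0 : ℂ), (fun u : ℂ × ℂ => B (u.1 + m * u.2, u.2)) (0, y) = 0 := by
    intro h
    apply hm
    filter_upwards [h] with y hy
    simpa using hy
  have hne' : ¬ ∃ Φ : ℂ × ℂ → ℂ, AnalyticAt ℂ Φ 0 ∧ ∀ᶠ u in 𝓝 (0 : ℂ × ℂ),
      (fun u : ℂ × ℂ => A (u.1 + m * u.2, u.2)) u = (fun u : ℂ × ℂ => B (u.1 + m * u.2, u.2)) u * Φ u := by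
    rintro ⟨Φ, hΦ, he⟩
    apply hne
    refine ⟨fun u => Φ (u.1 - m * u.2, u.2), ?_, ?_⟩
    · exact AnalyticAt.fun_comp (f := fun u : ℂ × ℂ => ((u.1 - m * u.2, u.2) : ℂ × ℂ))
        (by simpa [Prod.zero_eq_mk] using hΦ) (hτ' 0)
    · have ht : Tendsto (fun u : ℂ × ℂ => ((u.1 - m * u.2, u.2) : ℂ × ℂ)) (𝓝 0) (𝓝 0) := by
        have h2 := (hτ' 0).continuousAt.tendsto
        simpa [Prod.zero_eq_mk] using h2
      filter_upwards [ht.eventually he] with u hu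
      simpa using hu
  have hU' : (fun u : ℂ × ℂ => ((u.1 + m * u.2, u.2) : ℂ × ℂ)) ⁻¹' U ∈ 𝓝 (0 : ℂ × ℂ) := by
    apply (hτ 0).continuousAt.preimage_mem_nhds
    simpa [Prod.zero_eq_mk] using hU
  obtain ⟨x₁, c, k, hc, hmem, hA1, hB1, hv, hnv, i, hi, hiA⟩ := exists_pole_curve hA' hB' hB0' hne' hU'
  have hcoefA := coeff_shear_iff m x₁ hc hA1
  have hcoefB := coeff_shear_iff m x₁ hc hB1
  have hex : ∃ i, PowerSeries.coeff i (t2 fun u => A (shear m x₁ c u)) ≠ 0 :=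
    ⟨i, fun h => hiA ((hcoefA i).1 h)⟩
  classical
  refine ⟨m, x₁, c, Nat.find hex, k, hc, ?_, ?_, ?_, ?_⟩
  · have h : shear m x₁ c 0 = (x₁ + m * c 0, c 0) := by
      simp [shear]
    rw [h]
    exact hmem
  · rw [PowerSeries.order_eq_nat]
    refine ⟨Nat.find_spec hex, fun l hl => ?_⟩
    have := Nat.find_min hex hl
    push Not at this
    exact this
  · rw [PowerSeries.order_eq_nat]
    refine ⟨fun h => ?_, fun l hl => (hcoefB l).2 (hv l hl)⟩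
    have h2 := ((hcoefB k).1 h).self_of_nhds
    rw [add_zero] at h2
    exact hnv h2
  · exact lt_of_le_of_lt (Nat.find_min' hex fun h => hiA ((hcoefA i).1 h)) hi

end Pool.Agent.H68.KR

end
end
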