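import Pool.Agent.H94.CB.H36.BP.SubD
import Pool.Agent.H94.CB.H62.Log.Hurwitz
import Pool.Agent.H94.CB.M181
import Pool.Agent.H94.CB.M22
import Pool.Agent.H94.CB.M32
import Pool.Agent.H94.CB.M34
import Pool.Agent.H94.CB.M47

/-! The parts of this file: H36.BPB.ExtB, H36.BPB.ExtD, H36.LB.Cv, H36.LB.Model, H36.LB.Hur. -/

section

/-!
# BPB (port) ExtB: comparison on annuli

`g, b` from `annulus_approx` for `φ = c₀ log|F|`, `ε = 1`.  `w = Re g + b log|z|`.
(a) for `δ > 0` the function `|F|^(c₀) exp(-w) exp(δ|z|²)` has `Sub` exponent `≥ δ > 0` (`norm_rpow`; `exp(-Re g)|z|^(-b)` is locally the absolute value of a holomorphic function) and is continuous; on both circles it is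
`≤ e exp(δ)`; let `δ → 0`.
(b) `u = mt G F |F|^(-c₀) (log 1/|z|)^(-C') |z| exp(w)`, `C' = 4 C L² + 1`: exponent `≥ -C L²/(|z|² log²) + C'/(4|z|² log²) > 0` where `u > 0`.  On the circles `u ≤ e mt G F (log 1/|z|)^(-C') |z| ≤ e L (log 1/|z|)^(-C'-1)
≤ e L (log 1/r₁)^(-C'-1)`.  (`u` is upper semicontinuous on the closed annulus: `mt_usc` times a continuous nonnegative function.)
-/

set_option autoImplicit false

namespace Pool.Agent.H36.BPB

attribute [-instance] ProperSMul.toContinuousSMul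

open Filter Topology Metric
open Pool.Agent.H36.BP

variable {N : ℕ}

variable {K B : Set (EN N)} {G : EN N → EN N → ℝ} {ρ : EN N → ℝ} {M : ℕ} {c₀ C : ℝ}

/-- product of a nonnegative upper semicontinuous function and a nonnegative continuous function -/
private theorem extB_usc_mul {α : Type*} [TopologicalSpace α] {S : Set α} {u k : α → ℝ} (hu : UpperSemicontinuousOn u S)
    (hk : ContinuousOn k S) (hu0 : ∀ x ∈ S, 0 ≤ u x) (hk0 : ∀ x ∈ S, 0 ≤ k x) :
    UpperSemicontinuousOn (fun x => u x * k x) S := by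
  intro x hx y hy
  have ht : Tendsto (fun ε : ℝ => (u x + ε) * (k x + ε)) (𝓝[>] 0) (𝓝 ((u x + 0) * (k x + 0))) := by
    apply tendsto_nhdsWithin_of_tendsto_nhds
    have hc : Continuous (fun ε : ℝ => (u x + ε) * (k x + ε)) := by fun_prop
    exact hc.tendsto 0
  have hy' : (u x + 0) * (k x + 0) < y := by simpa using hy
  obtain ⟨ε, hε1, hε2⟩ := ((ht.eventually_lt_const hy').and self_mem_nhdsWithin).exists
  have hε : (0 : ℝ) < ε := hε2
  have h1 : ∀ᶠ x' in 𝓝[S] x, u x' < u x + ε := hu x hx _ (by linarith)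
  have h2 : ∀ᶠ x' in 𝓝[S] x, k x' < k x + ε := (hk x hx).eventually_lt_const (by linarith)
  filter_upwards [h1, h2, self_mem_nhdsWithin] with x' h1' h2' hx'
  refine lt_of_le_of_lt ?_ hε1
  exact mul_le_mul h1'.le h2'.le (hk0 x' hx') (by linarith [hu0 x hx])

/-- `exp (t (Re g + b log|z|))` is locally the absolute value of a holomorphic function -/
private theorem extB_sub_exp {g : ℂ → ℂ} (hg : DifferentiableOn ℂ g {0}ᶜ) (b t : ℝ) {z₀ : ℂ} (hz₀ : z₀ ≠ 0) :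
    Sub (fun z => Real.exp (t * ((g z).re + b * Real.log ‖z‖))) z₀ 0 := by
  have hga : AnalyticAt ℂ g z₀ := hg.analyticAt (isOpen_compl_singleton.mem_nhds hz₀)
  set k : ℂ → ℂ := fun z => Complex.exp ((t : ℂ) * (g z + (b : ℂ) * (Complex.log (z / z₀) + (Real.log ‖z₀‖ : ℂ)))) with hk
  have hlog : AnalyticAt ℂ (fun z : ℂ => Complex.log (z / z₀)) z₀ := by
    have h1 : AnalyticAt ℂ (fun z : ℂ => z / z₀) z₀ := by fun_prop
    refine AnalyticAt.clog h1 ?_
    simp [div_self hz₀]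
  have hka : AnalyticAt ℂ k z₀ := by
    refine AnalyticAt.cexp ?_
    exact analyticAt_const.mul (hga.add (analyticAt_const.mul (hlog.add analyticAt_const)))
  have hk0 : k z₀ ≠ 0 := Complex.exp_ne_zero _
  refine (Sub.of_holo hka hk0).congr ?_
  filter_upwards [isOpen_compl_singleton.mem_nhds hz₀] with z hz
  have hz' : z ≠ 0 := hz
  rw [hk]
  simp only
  rw [Complex.norm_exp]
  congr 1
  have h1 : (Complex.log (z / z₀)).re = Real.log ‖z‖ - Real.log ‖z₀‖ := by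
    rw [Complex.log_re, norm_div, Real.log_div (norm_ne_zero_iff.mpr hz') (norm_ne_zero_iff.mpr hz₀)]
  rw [Complex.re_ofReal_mul, Complex.add_re, Complex.re_ofReal_mul, Complex.add_re, h1, Complex.ofReal_re]
  ring

theorem annulus_bounds (hM : MD K B G ρ M c₀ C) {L : ℝ} (hL : 0 < L) {F : ℂ → EN N} (hF : Curve K (ball 0 1 \ {0}) F)
    (hgr : ∀ z : ℂ, z ≠ 0 → ‖z‖ < 1 → mt G F z * (‖z‖ * Real.log (1 / ‖z‖)) ≤ L) {r r₁ : ℝ} (hr : 0 < r) (hr1 : r < r₁) (hr2 : r₁ < 1) :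
    ∃ (g : ℂ → ℂ) (b : ℝ), DifferentiableOn ℂ g {0}ᶜ ∧
      ∀ z : ℂ, r ≤ ‖z‖ → ‖z‖ ≤ r₁ → ‖F z‖ ^ c₀ ≤ Real.exp 1 * Real.exp ((g z).re + b * Real.log ‖z‖) ∧
        mt G F z * Real.log (1 / ‖z‖) ^ (-(4 * C * L ^ 2 + 1)) * ‖z‖ * Real.exp ((g z).re + b * Real.log ‖z‖) ≤
          Real.exp 1 * L * Real.log (1 / r₁) ^ (-(4 * C * L ^ 2 + 2)) * ‖F z‖ ^ c₀ := by
  have hopen : IsOpen (ball (0 : ℂ) 1 \ {0}) := isOpen_ball.sdiff isClosed_singleton
  set S : Set ℂ := {z | r ≤ ‖z‖ ∧ ‖z‖ ≤ r₁} with hS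
  set U : Set ℂ := {z | r < ‖z‖ ∧ ‖z‖ < r₁} with hU
  have hr10 : 0 < r₁ := hr.trans hr1
  have hSc : IsCompact S := by
    refine (isCompact_closedBall (0 : ℂ) r₁).of_isClosed_subset ?_ ?_
    · exact (isClosed_le continuous_const continuous_norm).inter (isClosed_le continuous_norm continuous_const)
    · intro z hz
      simpa using hz.2
  have hUo : IsOpen U := (isOpen_lt continuous_const continuous_norm).inter (isOpen_lt continuous_norm continuous_const)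
  have hUS : U ⊆ S := fun z hz => ⟨hz.1.le, hz.2.le⟩
  have hSsub : S ⊆ ball (0 : ℂ) 1 \ {0} := by
    intro z hz
    refine ⟨?_, ?_⟩
    · rw [mem_ball_zero_iff]; exact lt_of_le_of_lt hz.2 hr2
    · rintro rfl
      have := hz.1
      rw [norm_zero] at this
      linarith
  have hSsph : S \ U ⊆ sphere (0 : ℂ) r ∪ sphere (0 : ℂ) r₁ := by
    intro z hz
    have h1 := hz.1
    have h2 : ¬ (r < ‖z‖ ∧ ‖z‖ < r₁) := hz.2
    rcases h1.1.lt_or_eq with h | h
    · right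
      rw [mem_sphere_zero_iff_norm]
      by_contra hne
      exact h2 ⟨h, lt_of_le_of_ne h1.2 hne⟩
    · left
      rw [mem_sphere_zero_iff_norm, h]
  have hsphS : sphere (0 : ℂ) r ∪ sphere (0 : ℂ) r₁ ⊆ S := by
    rintro z (hz | hz)
    · rw [mem_sphere_zero_iff_norm] at hz
      exact ⟨hz.ge, by rw [hz]; exact hr1.le⟩
    · rw [mem_sphere_zero_iff_norm] at hz
      exact ⟨by rw [hz]; exact hr1.le, hz.le⟩
  have hFK : ∀ z ∈ ball (0 : ℂ) 1 \ {0}, F z ∈ K := hF.2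
  have hF0 : ∀ z ∈ ball (0 : ℂ) 1 \ {0}, F z ≠ 0 := fun z hz => hM.ne _ (hFK z hz)
  have hFn : ∀ z ∈ ball (0 : ℂ) 1 \ {0}, 0 < ‖F z‖ := fun z hz => norm_pos_iff.mpr (hF0 z hz)
  have hFc : ContinuousOn F S := hF.1.continuousOn.mono hSsub
  have hFa : ∀ z ∈ ball (0 : ℂ) 1 \ {0}, AnalyticAt ℂ F z := fun z hz => hF.1.analyticAt (hopen.mem_nhds hz)
  obtain ⟨g, b, hg, hgb⟩ := annulus_approx hr hr1 (fun z => c₀ * Real.log ‖F z‖)
    (by
      refine ContinuousOn.mul continuousOn_const (ContinuousOn.log (hFc.mono hsphS).norm ?_)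
      intro z hz
      exact (hFn z (hSsub (hsphS hz))).ne') (ε := 1) one_pos
  set w : ℂ → ℝ := fun z => (g z).re + b * Real.log ‖z‖ with hw
  have hwc : ContinuousOn w S := by
    have h1 : ContinuousOn g S := hg.continuousOn.mono fun z hz => (hSsub hz).2
    refine (Complex.continuous_re.comp_continuousOn h1).add (continuousOn_const.mul
      (ContinuousOn.log continuous_norm.continuousOn ?_))
    intro z hz
    exact norm_ne_zero_iff.mpr (hSsub hz).2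
  have hlogF : ∀ z ∈ ball (0 : ℂ) 1 \ {0}, ‖F z‖ ^ c₀ = Real.exp (c₀ * Real.log ‖F z‖) := by
    intro z hz
    rw [Real.rpow_def_of_pos (hFn z hz), mul_comm]
  have hlogF' : ∀ z ∈ ball (0 : ℂ) 1 \ {0}, ‖F z‖ ^ (-c₀) = Real.exp (-(c₀ * Real.log ‖F z‖)) := by
    intro z hz
    rw [Real.rpow_def_of_pos (hFn z hz)]
    congr 1
    ring
  have hsph1 : ∀ z ∈ S \ U, ‖F z‖ ^ c₀ * Real.exp (-(w z)) ≤ Real.exp 1 := by
    intro z hz
    rw [hlogF z (hSsub hz.1), ← Real.exp_add, Real.exp_le_exp]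
    have := (abs_le.mp (hgb z (hSsph hz))).1
    have hwz : w z = (g z).re + b * Real.log ‖z‖ := rfl
    rw [hwz]
    linarith
  have hsph2 : ∀ z ∈ S \ U, ‖F z‖ ^ (-c₀) * Real.exp (w z) ≤ Real.exp 1 := by
    intro z hz
    rw [hlogF' z (hSsub hz.1), ← Real.exp_add, Real.exp_le_exp]
    have := (abs_le.mp (hgb z (hSsph hz))).2
    have hwz : w z = (g z).re + b * Real.log ‖z‖ := rfl
    rw [hwz]
    linarith
  -- part (a)
  have hA : ∀ δ : ℝ, 0 < δ → ∀ z ∈ S, ‖F z‖ ^ c₀ * Real.exp (-(w z)) * Real.exp (δ * ‖z‖ ^ 2) ≤ Real.exp 1 * Real.exp δ := by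
    intro δ hδ
    refine max_principle hSc hUo hUS ?_ ?_ (by positivity) ?_
    · refine ContinuousOn.upperSemicontinuousOn ?_
      refine ContinuousOn.mul (ContinuousOn.mul ?_ ?_) (by fun_prop)
      · refine ContinuousOn.rpow_const hFc.norm ?_
        intro z hz
        exact Or.inl (hFn z (hSsub hz)).ne'
      · exact Real.continuous_exp.comp_continuousOn hwc.neg
    · intro z hz _
      have hz' := hSsub (hUS hz)
      refine ⟨c₀ * fs (F z) (deriv F z) ^ 2 / 2 + 0 + δ, ?_, ?_⟩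
      · have := hM.c₀_pos
        positivity
      · have h1 := Sub.norm_rpow (hFa z hz') (hF0 z hz') c₀
        have h2 := extB_sub_exp hg b (-1) (z₀ := z) hz'.2
        have h3 := Sub.exp_sq (t := fun z : ℂ => z) (z₀ := z) analyticAt_id δ
        have h4 : (δ * ‖deriv (fun z : ℂ => z) z‖ ^ 2) = δ := by
          rw [deriv_id'']
          simp
        rw [h4] at h3
        refine ((h1.mul h2).mul h3).congr (Eventually.of_forall fun y => ?_)
        simp only [hw]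
        rw [neg_one_mul]
    · intro z hz
      refine mul_le_mul (hsph1 z hz) ?_ (by positivity) (by positivity)
      rw [Real.exp_le_exp]
      have h1 : ‖z‖ ≤ 1 := (hz.1.2.trans_lt hr2).le
      have h2 : ‖z‖ ^ 2 ≤ 1 := by nlinarith [norm_nonneg z]
      nlinarith
  have hA' : ∀ z ∈ S, ‖F z‖ ^ c₀ * Real.exp (-(w z)) ≤ Real.exp 1 := by
    intro z hz
    have ht : Tendsto (fun δ : ℝ => Real.exp 1 * Real.exp δ) (𝓝[>] 0) (𝓝 (Real.exp 1 * Real.exp 0)) := by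
      apply tendsto_nhdsWithin_of_tendsto_nhds
      have hc : Continuous (fun δ : ℝ => Real.exp 1 * Real.exp δ) := by fun_prop
      exact hc.tendsto 0
    rw [Real.exp_zero, mul_one] at ht
    refine ge_of_tendsto ht ?_
    filter_upwards [self_mem_nhdsWithin] with δ hδ
    have hδ' : (0 : ℝ) < δ := hδ
    refine le_trans ?_ (hA δ hδ' z hz)
    refine le_mul_of_one_le_right (by positivity) ?_
    exact Real.one_le_exp (by positivity)
  -- part (b)
  have hC := hM.C_nonneg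
  set C' : ℝ := 4 * C * L ^ 2 + 1 with hC'
  have hC'0 : 0 < C' := by rw [hC']; positivity
  have hlog1 : 0 < Real.log (1 / r₁) := Real.log_pos (by rw [lt_div_iff₀ hr10]; linarith)
  have hlogz : ∀ z ∈ S, Real.log (1 / r₁) ≤ Real.log (1 / ‖z‖) := by
    intro z hz
    have hz0 : 0 < ‖z‖ := hr.trans_le hz.1
    exact Real.log_le_log (by positivity) (one_div_le_one_div_of_le hz0 hz.2)
  have hB : ∀ z ∈ S, mt G F z * (‖F z‖ ^ (-c₀) * Real.log (1 / ‖z‖) ^ (-C') * ‖z‖ * Real.exp (w z)) ≤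
      Real.exp 1 * L * Real.log (1 / r₁) ^ (-(C' + 1)) := by
    refine max_principle hSc hUo hUS ?_ ?_ (by positivity) ?_
    · refine extB_usc_mul ((mt_usc hM hopen hF).mono hSsub) ?_ ?_ ?_
      · refine ContinuousOn.mul (ContinuousOn.mul (ContinuousOn.mul ?_ ?_) (by fun_prop)) ?_
        · refine ContinuousOn.rpow_const hFc.norm ?_
          intro z hz
          exact Or.inl (hFn z (hSsub hz)).ne'
        · refine ContinuousOn.rpow_const ?_ ?_
          · refine ContinuousOn.log ?_ ?_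
            · refine ContinuousOn.div continuousOn_const continuous_norm.continuousOn ?_
              intro z hz
              exact norm_ne_zero_iff.mpr (hSsub hz).2
            · intro z hz
              have hz0 : 0 < ‖z‖ := hr.trans_le hz.1
              positivity
          · intro z hz
            exact Or.inl (hlog1.trans_le (hlogz z hz)).ne'
        · exact Real.continuous_exp.comp_continuousOn hwc
      · intro z hz
        exact mt_nonneg hM (hFK z (hSsub hz))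
      · intro z hz
        have h1 := hlog1.trans_le (hlogz z hz)
        have h2 := hFn z (hSsub hz)
        positivity
    · intro z hz hpos
      have hzS := hUS hz
      have hz' := hSsub hzS
      have hz0 : 0 < ‖z‖ := hr.trans_le hzS.1
      have hz1 : ‖z‖ < 1 := hzS.2.trans_lt hr2
      have hl := hlog1.trans_le (hlogz z hzS)
      have hmt0 : 0 ≤ mt G F z := mt_nonneg hM (hFK z hz')
      have hmtpos : 0 < mt G F z := by
        rcases hmt0.lt_or_eq with h | h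
        · exact h
        · rw [← h, zero_mul] at hpos
          exact absurd hpos (lt_irrefl _)
      have h1 := hM.sub F z (hFa z hz') (by
        filter_upwards [hopen.mem_nhds hz'] with y hy
        exact hFK y hy) hmtpos
      have h2 := Sub.log_rpow (z₀ := z) hz'.2 hz1 hC'0.le
      have h3 := Sub.of_holo (h := fun z : ℂ => z) (z₀ := z) analyticAt_id hz'.2
      have h4 := extB_sub_exp hg b 1 (z₀ := z) hz'.2
      refine ⟨_, ?_, (((h1.mul h2).mul h3).mul h4).congr (Eventually.of_forall fun y => ?_)⟩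
      · rw [add_zero, add_zero]
        have hmtL : mt G F z ≤ L / (‖z‖ * Real.log (1 / ‖z‖)) := by
          rw [le_div_iff₀ (by positivity)]
          exact hgr z hz'.2 hz1
        have hsq : mt G F z ^ 2 ≤ L ^ 2 / (‖z‖ ^ 2 * Real.log (1 / ‖z‖) ^ 2) := by
          calc mt G F z ^ 2 ≤ (L / (‖z‖ * Real.log (1 / ‖z‖))) ^ 2 := pow_le_pow_left₀ hmt0 hmtL 2
            _ = L ^ 2 / (‖z‖ ^ 2 * Real.log (1 / ‖z‖) ^ 2) := by rw [div_pow, mul_pow]
        have h5 : C * mt G F z ^ 2 ≤ C * (L ^ 2 / (‖z‖ ^ 2 * Real.log (1 / ‖z‖) ^ 2)) :=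
          mul_le_mul_of_nonneg_left hsq hC
        have h6 : C' / (4 * ‖z‖ ^ 2 * Real.log (1 / ‖z‖) ^ 2) =
            C * (L ^ 2 / (‖z‖ ^ 2 * Real.log (1 / ‖z‖) ^ 2)) + 1 / (4 * ‖z‖ ^ 2 * Real.log (1 / ‖z‖) ^ 2) := by
          rw [hC']
          field_simp
        rw [h6]
        have h7 : 0 < 1 / (4 * ‖z‖ ^ 2 * Real.log (1 / ‖z‖) ^ 2) := by positivity
        linarith
      · simp only [hw]
        rw [one_mul]
        ring
    · intro z hz
      have hzS := hz.1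
      have hz' := hSsub hzS
      have hz0 : 0 < ‖z‖ := hr.trans_le hzS.1
      have hz1 : ‖z‖ < 1 := hzS.2.trans_lt hr2
      have hl := hlog1.trans_le (hlogz z hzS)
      have hmt0 : 0 ≤ mt G F z := mt_nonneg hM (hFK z hz')
      have h1 : Real.log (1 / ‖z‖) ^ (-C') = Real.log (1 / ‖z‖) * Real.log (1 / ‖z‖) ^ (-(C' + 1)) := by
        have : (-C') = 1 + (-(C' + 1)) := by ring
        rw [this, Real.rpow_add hl, Real.rpow_one]
      have h2 : Real.log (1 / ‖z‖) ^ (-(C' + 1)) ≤ Real.log (1 / r₁) ^ (-(C' + 1)) :=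
        Real.rpow_le_rpow_of_nonpos hlog1 (hlogz z hzS) (by linarith)
      have h3 := hgr z hz'.2 hz1
      have h4 := hsph2 z hz
      have h5 : 0 ≤ Real.log (1 / ‖z‖) ^ (-(C' + 1)) := Real.rpow_nonneg hl.le _
      have h6 : 0 ≤ ‖F z‖ ^ (-c₀) * Real.exp (w z) := by
        have := hFn z hz'
        positivity
      calc mt G F z * (‖F z‖ ^ (-c₀) * Real.log (1 / ‖z‖) ^ (-C') * ‖z‖ * Real.exp (w z))
          = (mt G F z * (‖z‖ * Real.log (1 / ‖z‖))) * (‖F z‖ ^ (-c₀) * Real.exp (w z)) *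
            Real.log (1 / ‖z‖) ^ (-(C' + 1)) := by rw [h1]; ring
        _ ≤ L * Real.exp 1 * Real.log (1 / r₁) ^ (-(C' + 1)) := by
          refine mul_le_mul (mul_le_mul h3 h4 h6 hL.le) h2 h5 (by positivity)
        _ = Real.exp 1 * L * Real.log (1 / r₁) ^ (-(C' + 1)) := by ring
  refine ⟨g, b, hg, fun z hz1 hz2 => ?_⟩
  have hzS : z ∈ S := ⟨hz1, hz2⟩
  have hz' := hSsub hzS
  constructor
  · have h1 := hA' z hzS
    have h2 : ‖F z‖ ^ c₀ = ‖F z‖ ^ c₀ * Real.exp (-(w z)) * Real.exp (w z) := by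
      rw [mul_assoc, ← Real.exp_add]
      simp
    rw [h2]
    exact mul_le_mul_of_nonneg_right h1 (Real.exp_nonneg _)
  · have h1 := hB z hzS
    have h2 : ‖F z‖ ^ (-c₀) * ‖F z‖ ^ c₀ = 1 := by
      rw [← Real.rpow_add (hFn z hz')]
      simp
    have h3 : (4 * C * L ^ 2 + 2) = C' + 1 := by rw [hC']; ring
    rw [h3]
    have h4 : 0 ≤ ‖F z‖ ^ c₀ := Real.rpow_nonneg (norm_nonneg _) _
    calc mt G F z * Real.log (1 / ‖z‖) ^ (-C') * ‖z‖ * Real.exp ((g z).re + b * Real.log ‖z‖)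
        = mt G F z * Real.log (1 / ‖z‖) ^ (-C') * ‖z‖ * Real.exp (w z) * (‖F z‖ ^ (-c₀) * ‖F z‖ ^ c₀) := by
          rw [h2, mul_one]
      _ = mt G F z * (‖F z‖ ^ (-c₀) * Real.log (1 / ‖z‖) ^ (-C') * ‖z‖ * Real.exp (w z)) * ‖F z‖ ^ c₀ := by ring
      _ ≤ Real.exp 1 * L * Real.log (1 / r₁) ^ (-(C' + 1)) * ‖F z‖ ^ c₀ := mul_le_mul_of_nonneg_right h1 h4

end Pool.Agent.H36.BPB

end

section

/-!
# BPB (port) ExtD: bounded lifts

`g, b` from `annulus_bounds` for `r < r₁`, `j = -⌊b/c₀⌋` (an integer), `θ z = z^j exp(-g z/c₀)`, `t = b/c₀ + j ∈ [0,1)`.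
* upper bound: `|F z| ≤ e^(1/c₀) exp((Re g + b log|z|)/c₀)`, so `|θ z F z| ≤ e^(1/c₀) |z|^t ≤ e^(1/c₀)`.
* lower bound at `z₁` (`m₁ = mt G F z₁ > 0`): `|F z₁|^(c₀) exp(-(Re g + b log|z₁|)) ≥ q`, `q = m₁ (log 1/|z₁|)^(-C') |z₁|/(e L (log 1/r₁)^(-C'-1)) > 0`, so `|θ z₁ F z₁| = |z₁|^t |F z₁| exp(-(..)/c₀) ≥ |z₁| q^(1/c₀) = c`.
-/

set_option autoImplicit false

namespace Pool.Agent.H36.BPB

attribute [-instance] ProperSMul.toContinuousSMul

open Filter Topology Metric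
open Pool.Agent.H36.BP

variable {N : ℕ}

variable {K B : Set (EN N)} {G : EN N → EN N → ℝ} {ρ : EN N → ℝ} {M : ℕ} {c₀ C : ℝ}

theorem bounded_lifts (hM : MD K B G ρ M c₀ C) {L : ℝ} (hL : 0 < L) {F : ℂ → EN N} (hF : Curve K (ball 0 1 \ {0}) F)
    (hgr : ∀ z : ℂ, z ≠ 0 → ‖z‖ < 1 → mt G F z * (‖z‖ * Real.log (1 / ‖z‖)) ≤ L) {r₁ : ℝ} {z₁ : ℂ} (hz1 : 0 < ‖z₁‖) (hz2 : ‖z₁‖ < r₁)
    (hr1 : r₁ < 1) (hpos : 0 < mt G F z₁) :
    ∃ c : ℝ, 0 < c ∧ ∀ r : ℝ, 0 < r → r < ‖z₁‖ → ∃ θ : ℂ → ℂ, DifferentiableOn ℂ θ {0}ᶜ ∧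
      (∀ z : ℂ, r ≤ ‖z‖ → ‖z‖ ≤ r₁ → ‖θ z • F z‖ ≤ Real.exp (1 / c₀)) ∧ c ≤ ‖θ z₁ • F z₁‖ := by
  have hc := hM.c₀_pos
  have hr0 : 0 < r₁ := hz1.trans hz2
  have hlog1 : 0 < Real.log (1 / ‖z₁‖) := Real.log_pos (by
    rw [lt_div_iff₀ hz1, one_mul]
    exact hz2.trans hr1)
  have hlogr : 0 < Real.log (1 / r₁) := Real.log_pos (by
    rw [lt_div_iff₀ hr0, one_mul]
    exact hr1)
  set P : ℝ := mt G F z₁ * Real.log (1 / ‖z₁‖) ^ (-(4 * C * L ^ 2 + 1)) * ‖z₁‖ with hP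
  set Q : ℝ := Real.exp 1 * L * Real.log (1 / r₁) ^ (-(4 * C * L ^ 2 + 2)) with hQ
  have hP0 : 0 < P := mul_pos (mul_pos hpos (Real.rpow_pos_of_pos hlog1 _)) hz1
  have hQ0 : 0 < Q := mul_pos (mul_pos (Real.exp_pos 1) hL) (Real.rpow_pos_of_pos hlogr _)
  refine ⟨Real.exp (Real.log ‖z₁‖ + Real.log (P / Q) / c₀), Real.exp_pos _, ?_⟩
  intro r hr hrz
  obtain ⟨g, b, hg, hgb⟩ := annulus_bounds hM hL hF hgr hr (hrz.trans hz2) hr1
  have ht0 : 0 ≤ b / c₀ + ((-⌊b / c₀⌋ : ℤ) : ℝ) := by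
    have h := Int.floor_le (b / c₀)
    push_cast
    linarith
  have ht1 : b / c₀ + ((-⌊b / c₀⌋ : ℤ) : ℝ) ≤ 1 := by
    have h := Int.lt_floor_add_one (b / c₀)
    push_cast
    linarith
  set j : ℤ := -⌊b / c₀⌋ with hj
  -- the norm of the lift
  have hnorm : ∀ z : ℂ, 0 < ‖z‖ → 0 < ‖F z‖ → ‖(z ^ j * Complex.exp (-(g z / c₀))) • F z‖ =
      Real.exp ((j : ℝ) * Real.log ‖z‖ - (g z).re / c₀ + Real.log ‖F z‖) := by
    intro z hz hFz
    rw [norm_smul, norm_mul, norm_zpow, Complex.norm_exp, Real.exp_add, Real.exp_sub,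
      Real.exp_log hFz]
    have h1 : (-(g z / (c₀ : ℂ))).re = -((g z).re / c₀) := by
      rw [Complex.neg_re, Complex.div_ofReal_re]
    rw [h1, Real.exp_neg]
    have h2 : Real.exp ((j : ℝ) * Real.log ‖z‖) = ‖z‖ ^ j := by
      rw [mul_comm, Real.exp_mul, Real.exp_log hz, Real.rpow_intCast]
    rw [h2]
    field_simp
  have hFK : ∀ z : ℂ, 0 < ‖z‖ → ‖z‖ < 1 → 0 < ‖F z‖ := by
    intro z hz hz'
    refine norm_pos_iff.2 (hM.ne _ (hF.2 z ⟨?_, ?_⟩))
    · rw [mem_ball_zero_iff]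
      exact hz'
    · exact norm_pos_iff.1 hz
  have hpow : ∀ z : ℂ, 0 < ‖F z‖ → ‖F z‖ ^ c₀ = Real.exp (Real.log ‖F z‖ * c₀) := fun z hz =>
    Real.rpow_def_of_pos hz c₀
  refine ⟨fun z => z ^ j * Complex.exp (-(g z / c₀)), ?_, ?_, ?_⟩
  · intro z hz
    have hz' : z ≠ 0 := hz
    have h1 : DifferentiableAt ℂ g z := (hg z hz).differentiableAt (isOpen_compl_singleton.mem_nhds hz)
    exact ((differentiableAt_zpow.2 (Or.inl hz')).mul
      ((h1.div_const _).neg.cexp)).differentiableWithinAt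
  · intro z hz hz'
    have hz0 : 0 < ‖z‖ := hr.trans_le hz
    have hFz := hFK z hz0 (hz'.trans_lt hr1)
    show ‖(z ^ j * Complex.exp (-(g z / c₀))) • F z‖ ≤ _
    rw [hnorm z hz0 hFz]
    refine Real.exp_le_exp.2 ?_
    have h1 := (hgb z hz hz').1
    rw [hpow z hFz, ← Real.exp_add, Real.exp_le_exp, ← le_div_iff₀ hc] at h1
    have h2 : Real.log ‖z‖ ≤ 0 := Real.log_nonpos hz0.le (hz'.trans hr1.le)
    have h3 : (1 + ((g z).re + b * Real.log ‖z‖)) / c₀ =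
        1 / c₀ + (g z).re / c₀ + b / c₀ * Real.log ‖z‖ := by
      field_simp
      ring
    have h4 := mul_nonpos_of_nonneg_of_nonpos ht0 h2
    rw [h3] at h1
    linarith
  · have hFz := hFK z₁ hz1 (hz2.trans hr1)
    show _ ≤ ‖(z₁ ^ j * Complex.exp (-(g z₁ / c₀))) • F z₁‖
    rw [hnorm z₁ hz1 hFz]
    refine Real.exp_le_exp.2 ?_
    have h1 := (hgb z₁ hrz.le hz2.le).2
    rw [← hP, ← hQ, hpow z₁ hFz] at h1
    have h2 : Real.log (P / Q) + ((g z₁).re + b * Real.log ‖z₁‖) ≤ Real.log ‖F z₁‖ * c₀ := by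
      have h3 : P / Q * Real.exp ((g z₁).re + b * Real.log ‖z₁‖) ≤
          Real.exp (Real.log ‖F z₁‖ * c₀) := by
        rw [div_mul_eq_mul_div, div_le_iff₀ hQ0, mul_comm (Real.exp _) Q]
        exact h1
      have h4 : P / Q = Real.exp (Real.log (P / Q)) := (Real.exp_log (div_pos hP0 hQ0)).symm
      rw [h4, ← Real.exp_add, Real.exp_le_exp] at h3
      exact h3
    rw [← div_le_iff₀ hc] at h2
    have h3 : (Real.log (P / Q) + ((g z₁).re + b * Real.log ‖z₁‖)) / c₀ =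
        Real.log (P / Q) / c₀ + (g z₁).re / c₀ + b / c₀ * Real.log ‖z₁‖ := by
      field_simp
      ring
    have h4 : Real.log ‖z₁‖ ≤ 0 := Real.log_nonpos hz1.le (hz2.trans hr1).le
    have h5 : Real.log ‖z₁‖ ≤ (b / c₀ + (j : ℝ)) * Real.log ‖z₁‖ := by
      nlinarith
    rw [h3] at h2
    linarith

end Pool.Agent.H36.BPB

end

section

/-!
# LB Cv: convergence of holomorphic maps into projective spaces, limit curves

Holomorphic maps into `ℙ(V)` are given by functions with values in `V ∖ {0}`, see `HolP`.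
-/

set_option autoImplicit false

open Topology Filter Metric

namespace Pool.Agent.H36.LB

attribute [-instance] ProperSMul.toContinuousSMul

open Pool.Agent.H17BP (Pr HolP)
open Pool.Agent.H36.BP (OrdTwo)

variable {V W : Type} [NormedAddCommGroup V] [NormedSpace ℂ V] [NormedAddCommGroup W] [NormedSpace ℂ W]

/-- Near `z₀` the maps `[F n]` into `ℙ(V)` converge to the map `[f]`, uniformly on a disc around `z₀`. -/
def ConvP (l : Filter ℕ) (F : ℕ → ℂ → V) (f : ℂ → V) (z₀ : ℂ) : Prop :=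
  ∃ (s : ℝ) (Φ : ℕ → ℂ → V) (Φ₀ : ℂ → V), 0 < s ∧
    (∀ᶠ n in l, DifferentiableOn ℂ (Φ n) (ball z₀ s) ∧ ∀ z ∈ ball z₀ s, Pr (F n z) (Φ n z)) ∧
    DifferentiableOn ℂ Φ₀ (ball z₀ s) ∧ (∀ z ∈ ball z₀ s, Φ₀ z ≠ 0 ∧ Pr (f z) (Φ₀ z)) ∧
    TendstoLocallyUniformlyOn Φ Φ₀ l (ball z₀ s)

/-- The holomorphic map `[f]` from `ℂ` to `X` is the limit of the holomorphic maps `[F n]` from discs to `K`, whose radii tend to infinity,
near `0` and outside a closed discrete set. -/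
structure LimCurve (X K : Set V) (l : Filter ℕ) (F : ℕ → ℂ → V) (f : ℂ → V) : Prop where
  neBot : l.NeBot
  le_atTop : l ≤ atTop
  hol : ∀ z, HolP f z
  mem : ∀ z, f z ∈ X
  zero_mem : f 0 ∈ K
  holF : ∀ n : ℕ, ∀ z ∈ ball (0 : ℂ) (n + 1), HolP (F n) z
  memF : ∀ n : ℕ, ∀ z ∈ ball (0 : ℂ) (n + 1), F n z ∈ K
  zero : ConvP l F f 0
  conv : ∀ z₀ : ℂ, ∀ᶠ z in 𝓝[≠] z₀, ConvP l F f z

/-- Every limit of order at most two of discs in `K` which is not a map into `T` is constant. -/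
def Lim2 (X K T : Set V) : Prop :=
  ∀ (l : Filter ℕ) (F : ℕ → ℂ → V) (f : ℂ → V), LimCurve X K l F f → OrdTwo f → (∃ z, f z ∉ T) → ∀ z w, Pr (f z) (f w)

/-- Composition with a map which is continuous at the values of the limit. -/
theorem tlu_comp {V W : Type} [NormedAddCommGroup V] [NormedAddCommGroup W] {l : Filter ℕ} {Φ : ℕ → ℂ → V} {Φ₀ : ℂ → V}
    {U : Set ℂ} (h : TendstoLocallyUniformlyOn Φ Φ₀ l U)
    (hc : ContinuousOn Φ₀ U) {p : V → W} (hp : ∀ x ∈ U, ContinuousAt p (Φ₀ x)) :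
    TendstoLocallyUniformlyOn (fun n z => p (Φ n z)) (fun z => p (Φ₀ z)) l U := by
  rw [tendstoLocallyUniformlyOn_iff_forall_tendsto] at h ⊢
  intro x hx
  have h1 := h x hx
  have h2 : Tendsto (fun y : ℕ × ℂ => Φ₀ y.2) (l ×ˢ 𝓝[U] x) (𝓝 (Φ₀ x)) := (hc x hx).tendsto.comp tendsto_snd
  have h3 : Tendsto (fun y : ℕ × ℂ => Φ y.1 y.2) (l ×ˢ 𝓝[U] x) (𝓝 (Φ₀ x)) := by
    rw [Metric.tendsto_nhds] at h2 ⊢
    intro ε hε
    have h4 := h1 (Metric.dist_mem_uniformity (show (0 : ℝ) < ε / 2 by positivity))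
    filter_upwards [h2 (ε / 2) (by positivity), h4] with y hy1 hy2
    have hy2 : dist (Φ₀ y.2) (Φ y.1 y.2) < ε / 2 := hy2
    calc dist (Φ y.1 y.2) (Φ₀ x) ≤ dist (Φ y.1 y.2) (Φ₀ y.2) + dist (Φ₀ y.2) (Φ₀ x) := dist_triangle _ _ _
      _ < ε := by rw [dist_comm (Φ y.1 y.2)]; linarith
  have h4 : Tendsto (fun y : ℕ × ℂ => (p (Φ₀ y.2), p (Φ y.1 y.2))) (l ×ˢ 𝓝[U] x) (𝓝 (p (Φ₀ x), p (Φ₀ x))) :=
    ((hp x hx).tendsto.comp h2).prodMk_nhds ((hp x hx).tendsto.comp h3)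
  exact h4.mono_right (nhds_le_uniformity _)

/-- Convergence of the values, uniformly on a smaller disc. -/
theorem ConvP.map {l : Filter ℕ} {F : ℕ → ℂ → V} {f : ℂ → V} {z₀ : ℂ} (h : ConvP l F f z₀) {p : V → W} {d : ℕ}
    (hp : ∀ x, AnalyticAt ℂ p x) (hps : ∀ (c : ℂ) (x : V), p (c • x) = c ^ d • p x) (h0 : p (f z₀) ≠ 0)
    {F' : ℕ → ℂ → W} {f' : ℂ → W}
    (hf' : ∀ᶠ z in 𝓝 z₀, p (f z) ≠ 0 → Pr (f' z) (p (f z))) (hF'' : ∃ s > 0, ∀ᶠ n in l, ∀ w ∈ ball z₀ s, p (F n w) ≠ 0 → Pr (F' n w) (p (F n w))) :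
    ConvP l F' f' z₀ := by
  obtain ⟨s, Φ, Φ₀, hs, hΦ, hΦ₀, hf, hlim⟩ := h
  obtain ⟨s₁, hs₁, hF1⟩ := hF''
  have hmem : z₀ ∈ ball z₀ s := mem_ball_self hs
  have hpr0 := (hf z₀ hmem).2
  have hpΦ0 : p (Φ₀ z₀) ≠ 0 := by
    obtain ⟨c, hc, e⟩ := hpr0
    intro h1
    apply h0
    rw [e, hps, h1, smul_zero]
  have hcont : ContinuousOn Φ₀ (ball z₀ s) := hΦ₀.continuousOn
  have hpc : ContinuousAt (fun z => p (Φ₀ z)) z₀ :=
    ContinuousAt.comp (g := p) (hp _).continuousAt (hcont.continuousAt (isOpen_ball.mem_nhds hmem))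
  -- a smaller disc
  have hev : ∀ᶠ z in 𝓝 z₀, ‖p (Φ₀ z₀)‖ / 2 < ‖p (Φ₀ z)‖ ∧ (p (f z) ≠ 0 → Pr (f' z) (p (f z))) ∧ z ∈ ball z₀ s ∧ z ∈ ball z₀ s₁ := by
    have h1 : 0 < ‖p (Φ₀ z₀)‖ := norm_pos_iff.mpr hpΦ0
    filter_upwards [hpc.norm.eventually_const_lt (show ‖p (Φ₀ z₀)‖ / 2 < ‖p (Φ₀ z₀)‖ by linarith), hf', isOpen_ball.mem_nhds hmem,
      ball_mem_nhds z₀ hs₁] with z h2 h3 h4 h5
    exact ⟨h2, h3, h4, h5⟩
  obtain ⟨r, hr, hrb⟩ := Metric.eventually_nhds_iff_ball.1 hev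
  have hsub : closedBall z₀ (r / 2) ⊆ ball z₀ r := closedBall_subset_ball (by linarith)
  have hsub2 : ball z₀ (r / 2) ⊆ ball z₀ r := ball_subset_closedBall.trans hsub
  have hlim2 : TendstoLocallyUniformlyOn (fun n z => p (Φ n z)) (fun z => p (Φ₀ z)) l (ball z₀ s) :=
    tlu_comp hlim hcont fun x _ => (hp _).continuousAt
  have hne0 : 0 < ‖p (Φ₀ z₀)‖ / 2 := by
    have := norm_pos_iff.mpr hpΦ0
    positivity
  have hunif : ∀ᶠ n in l, ∀ z ∈ closedBall z₀ (r / 2), dist (p (Φ₀ z)) (p (Φ n z)) < ‖p (Φ₀ z₀)‖ / 2 := by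
    have h1 := (tendstoLocallyUniformlyOn_iff_tendstoUniformlyOn_of_compact (isCompact_closedBall z₀ (r / 2))).1
      (hlim2.mono fun z hz => (hrb z (hsub hz)).2.2.1)
    exact Metric.tendstoUniformlyOn_iff.1 h1 _ hne0
  refine ⟨r / 2, fun n z => p (Φ n z), fun z => p (Φ₀ z), by positivity, ?_, ?_, ?_, hlim2.mono fun z hz => (hrb z (hsub2 hz)).2.2.1⟩
  · filter_upwards [hΦ, hF1, hunif] with n h1 h2 h3
    refine ⟨fun z hz => ?_, fun z hz => ?_⟩
    · have h4 : DifferentiableAt ℂ (Φ n) z := h1.1.differentiableAt (isOpen_ball.mem_nhds (hrb z (hsub2 hz)).2.2.1)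
      exact (DifferentiableAt.comp (g := p) z (hp _).differentiableAt h4).differentiableWithinAt
    · have hzs := (hrb z (hsub2 hz)).2.2.1
      obtain ⟨c, hc, e⟩ := h1.2 z hzs
      have h5 : p (Φ n z) ≠ 0 := by
        intro h6
        have h7 := h3 z (ball_subset_closedBall hz)
        rw [h6, dist_zero_right] at h7
        linarith [(hrb z (hsub2 hz)).1]
      have h6 : p (F n z) = c ^ d • p (Φ n z) := by rw [e, hps]
      have h7 : p (F n z) ≠ 0 := by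
        rw [h6]
        exact smul_ne_zero (pow_ne_zero d hc) h5
      exact (h2 z (hrb z (hsub2 hz)).2.2.2 h7).trans ⟨c ^ d, pow_ne_zero d hc, h6⟩
  · intro z hz
    have h4 : DifferentiableAt ℂ Φ₀ z := hΦ₀.differentiableAt (isOpen_ball.mem_nhds (hrb z (hsub2 hz)).2.2.1)
    exact (DifferentiableAt.comp (g := p) z (hp _).differentiableAt h4).differentiableWithinAt
  · intro z hz
    obtain ⟨h1, h2, h3, h4⟩ := hrb z (hsub2 hz)
    have h5 : p (Φ₀ z) ≠ 0 := by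
      intro h6
      rw [h6, norm_zero] at h1
      linarith
    obtain ⟨c, hc, e⟩ := (hf z h3).2
    have h6 : p (f z) = c ^ d • p (Φ₀ z) := by rw [e, hps]
    have h7 : p (f z) ≠ 0 := by
      rw [h6]
      exact smul_ne_zero (pow_ne_zero d hc) h5
    exact ⟨h5, (h2 h7).trans ⟨c ^ d, pow_ne_zero d hc, h6⟩⟩

end Pool.Agent.H36.LB

end

section

/-!
# LB Model: open surfaces with an arbitrary boundary curve
-/

set_option autoImplicit false

namespace Pool.Agent.H36.LB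

attribute [-instance] ProperSMul.toContinuousSMul

open Filter Topology Metric
open Pool.Agent.H17BP (Surface IsChart IsForm NoZeros NodalAt Pr HolP Picard Eqs)
open Pool.Agent.H36.BPL (OpenPart PoleLE)

variable {V : Type} [NormedAddCommGroup V] [NormedSpace ℂ V]

/-- A closed surface `X`, an open part `K` of it, a curve `T ⊇ X ∖ K`, a section `Ω` of `m K_X - j H` on `K` without zeros outside `T` and with
poles of order at most `m - 1` along `X ∖ K`, such that every limit of order at most two of discs in `K` which is not a map into `T` is constant. -/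
structure ModelL (X K T : Set V) (m j : ℕ) (Ω : V → V → V → ℂ) {κ : Type} (Q : κ → V → ℂ) (D : ℕ) : Prop where
  surf : Surface X
  opn : OpenPart X K
  sub : ∀ x ∈ X, x ∉ K → x ∈ T
  one_m : 1 ≤ m
  one_j : 1 ≤ j
  form : IsForm K m j Ω
  noZeros : NoZeros K T Ω
  pole : PoleLE X K (m - 1) Ω
  eqs : Eqs X T Q D
  thin : ∀ σ τ, IsChart X σ τ → ∃ᶠ p in 𝓝 (0 : ℂ × ℂ), σ p ∉ T
  lim : Lim2 X K T

end Pool.Agent.H36.LB

end

section

/-!
# LB Hur: Hurwitz' theorem for the boundary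
-/

set_option autoImplicit false

open Topology Filter Metric

namespace Pool.Agent.H36.LB

attribute [-instance] ProperSMul.toContinuousSMul

open Pool.Agent.H17BP (Pr HolP)
open Pool.Agent.H36.BPL (OpenPart)

variable {V : Type} [NormedAddCommGroup V] [NormedSpace ℂ V]

/-- Hurwitz' theorem for a function `h` which is holomorphic near the value of the limit. -/
theorem hur_local {h : V → ℂ} {l : Filter ℕ} (hl : l.NeBot) {F : ℕ → ℂ → V} {H : ℂ → V} {z₀ : ℂ} {s : ℝ}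
    (hs : 0 < s) (hF : ∀ᶠ n in l, DifferentiableOn ℂ (F n) (ball z₀ s)) (hH : DifferentiableOn ℂ H (ball z₀ s))
    (hlim : TendstoLocallyUniformlyOn F H l (ball z₀ s)) (hh : AnalyticAt ℂ h (H z₀)) (h0 : h (H z₀) = 0)
    (hne' : ∃ O ∈ 𝓝 (H z₀), ∀ᶠ n in l, ∀ z ∈ ball z₀ s, F n z ∈ O → h (F n z) ≠ 0) :
    ∀ᶠ z in 𝓝 z₀, h (H z) = 0 := by
  obtain ⟨O, hO, hne'⟩ := hne'
  have hmem : z₀ ∈ ball z₀ s := mem_ball_self hs
  have hHc : ContinuousAt H z₀ := (hH.differentiableAt (isOpen_ball.mem_nhds hmem)).continuousAt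
  obtain ⟨ε, hε, hεb⟩ := Metric.eventually_nhds_iff_ball.1 (hh.eventually_analyticAt.and hO)
  have hev : ∀ᶠ z in 𝓝 z₀, z ∈ ball z₀ s ∧ dist (H z) (H z₀) < ε / 2 := by
    filter_upwards [isOpen_ball.mem_nhds hmem, Metric.tendsto_nhds.1 hHc (ε / 2) (by positivity)] with z h1 h2
    exact ⟨h1, h2⟩
  obtain ⟨r, hr, hrb⟩ := Metric.eventually_nhds_iff_ball.1 hev
  have hsub : closedBall z₀ (r / 2) ⊆ ball z₀ r := closedBall_subset_ball (by linarith)
  have hsub2 : ball z₀ (r / 2) ⊆ ball z₀ r := ball_subset_closedBall.trans hsub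
  have hunif : ∀ᶠ n in l, ∀ z ∈ closedBall z₀ (r / 2), dist (H z) (F n z) < ε / 2 :=
    Metric.tendstoUniformlyOn_iff.1 ((tendstoLocallyUniformlyOn_iff_tendstoUniformlyOn_of_compact
      (isCompact_closedBall z₀ (r / 2))).1 (hlim.mono fun z hz => (hrb z (hsub hz)).1)) _ (by positivity)
  have hin : ∀ᶠ n in l, ∀ z ∈ ball z₀ (r / 2), F n z ∈ ball (H z₀) ε := by
    filter_upwards [hunif] with n hn z hz
    have h1 := hn z (ball_subset_closedBall hz)
    have h2 := (hrb z (hsub2 hz)).2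
    rw [mem_ball]
    calc dist (F n z) (H z₀) ≤ dist (F n z) (H z) + dist (H z) (H z₀) := dist_triangle _ _ _
      _ < ε := by rw [dist_comm (F n z)]; linarith
  have hinH : ∀ z ∈ ball z₀ (r / 2), H z ∈ ball (H z₀) ε := by
    intro z hz
    have h2 := (hrb z (hsub2 hz)).2
    rw [mem_ball]
    linarith
  have hl' : (Ultrafilter.of l : Filter ℕ) ≤ l := Ultrafilter.of_le l
  have key := Pool.Agent.H62.Log.hurwitz (Ultrafilter.of l) (φ := fun n z => h (F n z)) (ψ := fun z => h (H z)) (a := z₀) (r := r / 2)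
    (by
      filter_upwards [hl' hF, hl' hin] with n h1 h2 z hz
      have h3 : DifferentiableAt ℂ (F n) z := h1.differentiableAt (isOpen_ball.mem_nhds (hrb z (hsub2 hz)).1)
      exact (DifferentiableAt.comp (g := h) z (hεb _ (h2 z hz)).1.differentiableAt h3).differentiableWithinAt)
    (by
      filter_upwards [hl' hne', hl' hin] with n h1 h2 z hz
      exact h1 z (hrb z (hsub2 hz)).1 (hεb _ (h2 z hz)).2)
    (by
      intro z hz
      have h3 : DifferentiableAt ℂ H z := hH.differentiableAt (isOpen_ball.mem_nhds (hrb z (hsub2 hz)).1)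
      exact (DifferentiableAt.comp (g := h) z (hεb _ (hinH z hz)).1.differentiableAt h3).differentiableWithinAt)
    (by
      intro w z hz hw
      have h1 : Tendsto (fun n => F n (w n)) (Ultrafilter.of l : Filter ℕ) (𝓝 (H z)) := by
        have hzs : z ∈ ball z₀ s := (hrb z (hsub2 hz)).1
        have h2 := (hlim.mono (s' := ball z₀ (r / 2)) fun z hz => (hrb z (hsub2 hz)).1)
        have h3 := (tendstoLocallyUniformlyOn_iff_forall_tendsto.1 h2) z hz
        have h4 : Tendsto (fun n => (n, w n)) (Ultrafilter.of l : Filter ℕ) (l ×ˢ 𝓝[ball z₀ (r / 2)] z) := by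
          refine Tendsto.prodMk (tendsto_id'.2 hl') ?_
          rw [isOpen_ball.nhdsWithin_eq hz]
          exact hw
        have h5 := h3.comp h4
        have h6 : Tendsto (fun n => H (w n)) (Ultrafilter.of l : Filter ℕ) (𝓝 (H z)) :=
          ((hH.differentiableAt (isOpen_ball.mem_nhds hzs)).continuousAt.tendsto).comp hw
        rw [Metric.tendsto_nhds] at h6 ⊢
        intro δ hδ
        have h7 := h5 (Metric.dist_mem_uniformity (show (0 : ℝ) < δ / 2 by positivity))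
        filter_upwards [h6 (δ / 2) (by positivity), h7] with n h8 h9
        have h9 : dist (H (w n)) (F n (w n)) < δ / 2 := h9
        calc dist (F n (w n)) (H z) ≤ dist (F n (w n)) (H (w n)) + dist (H (w n)) (H z) := dist_triangle _ _ _
          _ < δ := by rw [dist_comm (F n (w n))]; linarith
      exact ((hεb _ (hinH z hz)).1.continuousAt.tendsto).comp h1)
  rcases key with h1 | h1
  · filter_upwards [ball_mem_nhds z₀ (show 0 < r / 2 by positivity)] with z hz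
    exact h1 z hz
  · exact absurd h0 (h1 z₀ (mem_ball_self (by positivity)))

/-- Hurwitz' theorem for an open part. -/
theorem hur_openPart {X K : Set V} (hX : ∀ x ∈ closure X, x ≠ 0 → x ∈ X) (hK : OpenPart X K) {l : Filter ℕ} (hl : l.NeBot)
    {F : ℕ → ℂ → V} {H : ℂ → V} {z₀ : ℂ} {s : ℝ} (hs : 0 < s)
    (hF : ∀ᶠ n in l, DifferentiableOn ℂ (F n) (ball z₀ s) ∧ ∀ z ∈ ball z₀ s, F n z ∈ K) (hH : DifferentiableOn ℂ H (ball z₀ s))
    (hlim : TendstoLocallyUniformlyOn F H l (ball z₀ s)) (hH0 : H z₀ ≠ 0) (h0 : H z₀ ∉ K) : ∀ᶠ z in 𝓝 z₀, H z ∉ K := by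
  have hmem : z₀ ∈ ball z₀ s := mem_ball_self hs
  have hHc : ContinuousAt H z₀ := (hH.differentiableAt (isOpen_ball.mem_nhds hmem)).continuousAt
  have hcl : ∀ z ∈ ball z₀ s, H z ∈ closure X := by
    intro z hz
    refine mem_closure_of_tendsto (hlim.tendsto_at hz) ?_
    filter_upwards [hF] with n hn
    exact hK.sub (hn.2 z hz)
  have hxX : H z₀ ∈ X := hX _ (hcl z₀ hmem) hH0
  obtain ⟨h, hh, he⟩ := hK.eqn (H z₀) hxX
  have h00 : h (H z₀) = 0 := (he.self_of_nhds hxX).1 h0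
  have hO : {y | y ∈ X → (y ∉ K ↔ h y = 0)} ∈ 𝓝 (H z₀) := he
  have hne' : ∀ᶠ n in l, ∀ z ∈ ball z₀ s, F n z ∈ {y | y ∈ X → (y ∉ K ↔ h y = 0)} → h (F n z) ≠ 0 := by
    filter_upwards [hF] with n hn z hz hy h1
    exact ((hy (hK.sub (hn.2 z hz))).2 h1) (hn.2 z hz)
  have key := hur_local hl hs (hF.mono fun n hn => hn.1) hH hlim hh h00 ⟨_, hO, hne'⟩
  filter_upwards [key, hHc.eventually hO, hHc.eventually_ne hH0, isOpen_ball.mem_nhds hmem] with z h1 h2 h3 h4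
  exact (h2 (hX _ (hcl z h4) h3)).2 h1

/-- A holomorphic curve in `X` lies in `X ∖ K` or meets it in isolated points. -/
theorem iso_openPart {X K : Set V} (hXs : ∀ x ∈ X, ∀ c : ℂ, c ≠ 0 → c • x ∈ X) (hK : OpenPart X K) {f : ℂ → V} {z₀ : ℂ}
    (hf : HolP f z₀) (hfX : ∀ᶠ z in 𝓝 z₀, f z ∈ X) : (∀ᶠ z in 𝓝 z₀, f z ∉ K) ∨ ∀ᶠ z in 𝓝[≠] z₀, f z ∈ K := by
  obtain ⟨Φ, hΦ, hΦ0, he⟩ := hf
  have hΦX : ∀ᶠ z in 𝓝 z₀, Φ z ∈ X := by
    filter_upwards [hfX, he] with z h1 h2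
    exact (h2.mem_iff hXs).1 h1
  obtain ⟨h, hh, hhe⟩ := hK.eqn (Φ z₀) hΦX.self_of_nhds
  have hc : AnalyticAt ℂ (fun z => h (Φ z)) z₀ := AnalyticAt.comp (g := h) (f := Φ) hh hΦ
  have h1 := hΦ.continuousAt.eventually hhe
  have hiff : ∀ᶠ z in 𝓝 z₀, (f z ∉ K ↔ h (Φ z) = 0) := by
    filter_upwards [h1, hΦX, he] with z h2 h3 h4
    rw [← h2 h3, h4.mem_iff hK.smul]
  rcases hc.eventually_eq_zero_or_eventually_ne_zero with h2 | h2
  · left
    filter_upwards [h2, hiff] with z h3 h4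
    exact h4.2 h3
  · right
    filter_upwards [h2, hiff.filter_mono nhdsWithin_le_nhds] with z h3 h4
    by_contra h5
    exact h3 (h4.1 h5)

/-- Near a point of `K` a holomorphic curve in `X` lies in `K`. -/
theorem mem_near {X K : Set V} (hXs : ∀ x ∈ X, ∀ c : ℂ, c ≠ 0 → c • x ∈ X) (hK : OpenPart X K) {f : ℂ → V} {z₀ : ℂ}
    (hf : HolP f z₀) (hfX : ∀ᶠ z in 𝓝 z₀, f z ∈ X) (h0 : f z₀ ∈ K) : ∀ᶠ z in 𝓝 z₀, f z ∈ K := by
  obtain ⟨Φ, hΦ, hΦ0, he⟩ := hf
  have h1 : Φ z₀ ∈ K := (he.self_of_nhds.mem_iff hK.smul).1 h0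
  filter_upwards [hΦ.continuousAt.eventually (hK.rel _ h1), hfX, he] with z h2 h3 h4
  exact (h4.mem_iff hK.smul).2 (h2 ((h4.mem_iff hXs).1 h3))

/-- The limit curve is not contained in the boundary. -/
theorem LimCurve.iso {X K : Set V} (hXs : ∀ x ∈ X, ∀ c : ℂ, c ≠ 0 → c • x ∈ X) (hK : OpenPart X K) {l : Filter ℕ}
    {F : ℕ → ℂ → V} {f : ℂ → V} (h : LimCurve X K l F f) (z₀ : ℂ) : ∀ᶠ z in 𝓝[≠] z₀, f z ∈ K := by
  set A : Set ℂ := {z | ∀ᶠ w in 𝓝 z, f w ∉ K} with hA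
  have hAo : IsOpen A := by
    rw [isOpen_iff_mem_nhds]
    intro z hz
    exact hz.eventually_nhds
  have hX : ∀ z, ∀ᶠ w in 𝓝 z, f w ∈ X := fun z => Eventually.of_forall h.mem
  have hAc : IsClosed A := by
    rw [← isOpen_compl_iff, isOpen_iff_mem_nhds]
    intro z hz
    rcases iso_openPart hXs hK (h.hol z) (hX z) with h1 | h1
    · exact absurd h1 hz
    · rw [eventually_nhdsWithin_iff] at h1
      filter_upwards [h1.eventually_nhds] with w hw hwA
      by_cases hwz : w = z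
      · rw [hwz] at hwA
        exact hz hwA
      · exact hwA.self_of_nhds (hw.self_of_nhds hwz)
  rcases isClopen_iff.1 ⟨hAc, hAo⟩ with h1 | h1
  · rcases iso_openPart hXs hK (h.hol z₀) (hX z₀) with h2 | h2
    · have : z₀ ∈ A := h2
      rw [h1] at this
      exact absurd this (Set.notMem_empty _)
    · exact h2
  · exfalso
    have h2 : (0 : ℂ) ∈ A := by
      rw [h1]
      trivial
    have h3 : ∀ᶠ w in 𝓝 (0 : ℂ), f w ∉ K := h2
    exact h3.self_of_nhds h.zero_mem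

/-- Where the curves converge the limit lies in `K`. -/
theorem LimCurve.mem_of_conv {X K : Set V} (hXs : ∀ x ∈ X, ∀ c : ℂ, c ≠ 0 → c • x ∈ X) (hXc : ∀ x ∈ closure X, x ≠ 0 → x ∈ X)
    (hK : OpenPart X K) {l : Filter ℕ}
    {F : ℕ → ℂ → V} {f : ℂ → V} (h : LimCurve X K l F f) {z : ℂ} (hz : ConvP l F f z) : f z ∈ K := by
  by_contra hzK
  obtain ⟨s, Φ, Φ₀, hs, hΦ, hΦ₀, hf, hlim⟩ := hz
  have hmem : z ∈ ball z s := mem_ball_self hs
  have h1 : Φ₀ z ∉ K := fun h2 => hzK (((hf z hmem).2.mem_iff hK.smul).2 h2)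
  obtain ⟨n₀, hn₀⟩ := exists_nat_ge (‖z‖ + s)
  have h2 := hur_openPart hXc hK h.neBot hs (by
    filter_upwards [hΦ, h.le_atTop (eventually_ge_atTop n₀)] with n hn hn2
    refine ⟨hn.1, fun w hw => ?_⟩
    have h3 : w ∈ ball (0 : ℂ) (n + 1) := by
      rw [mem_ball_zero_iff]
      have h2 : ‖w - z‖ < s := by simpa [dist_eq_norm] using hw
      have h3 : ‖w‖ ≤ ‖w - z‖ + ‖z‖ := by
        have := norm_add_le (w - z) z
        rwa [sub_add_cancel] at this
      have h4 : (n₀ : ℝ) ≤ n := by exact_mod_cast hn2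
      linarith
    exact ((hn.2 w hw).mem_iff hK.smul).1 (h.memF n w h3)) hΦ₀ hlim (hf z hmem).1 h1
  have h3 : ∀ᶠ w in 𝓝[≠] z, f w ∉ K := by
    filter_upwards [h2.filter_mono nhdsWithin_le_nhds, nhdsWithin_le_nhds (isOpen_ball.mem_nhds hmem)] with w hw hws h4
    exact hw (((hf w hws).2.mem_iff hK.smul).1 h4)
  obtain ⟨w, hw1, hw2⟩ := (h3.and (h.iso hXs hK z)).exists
  exact hw1 hw2

end Pool.Agent.H36.LB

end
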