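import Pool.Agent.H94.CB.H13.SM.Surf
import Pool.Agent.H94.CB.H36.LB.PNDefs
import Pool.Agent.H94.CB.H46.LR.Defs
import Pool.Agent.H94.CB.M182
import Pool.Agent.H94.CB.M191
import Pool.Agent.H94.CB.M199
import Pool.Agent.H94.CB.M64

/-! The parts of this file: H4.LU.Alg, H4.LU.ConvJ, H46.LR.Val. -/

section

/-!
# LU Alg: the inverse image of a rational curve under an injective regular map is contained in a curve

* `exists_form_of_rational`.
-/

set_option autoImplicit false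

open Topology Filter MvPolynomial Metric

noncomputable section

namespace Pool.Agent.H4.LU

attribute [-instance] ProperSMul.toContinuousSMul

open Pool.Agent.H17 (PN VanishesAt HolomorphicInto vanishesAt_mk_iff)
open Pool.Agent.H62.FC (Homog)
open Pool.Agent.H17LG.Variety (FunField)
open Pool.Agent.H17BP (Surface IsChart)
open Pool.Agent.H13.SM (conTan cone)
open Pool.Agent.H62.SA (locVar)
open Pool.Agent.H7.Bir (vals)

variable {M N : ℕ}

/-- A zero of an analytic function of two variables is not isolated: the zeros near it are an infinite set. -/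
theorem infinite_zeros {g : ℂ × ℂ → ℂ} {p : ℂ × ℂ} (hg : AnalyticAt ℂ g p) (h0 : g p = 0) {W : Set (ℂ × ℂ)} (hW : W ∈ 𝓝 p) :
    {q | q ∈ W ∧ g q = 0}.Infinite := by
  intro hfin
  have hg' : AnalyticAt ℂ (fun q : ℂ × ℂ => g (p + q)) 0 := by
    have h1 : AnalyticAt ℂ (fun q : ℂ × ℂ => p + q) 0 := analyticAt_const.add analyticAt_id
    exact AnalyticAt.comp (g := g) (f := fun q : ℂ × ℂ => p + q) (by simpa using hg) h1
  have h1 := Pool.Agent.H36.BPL.freq_zero hg' (by simpa using h0)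
  have h2 : IsClosed ({q | q ∈ W ∧ g q = 0} \ {p}) := (hfin.subset Set.diff_subset).isClosed
  have h3 : ∀ᶠ q in 𝓝 p, q ∉ {q | q ∈ W ∧ g q = 0} \ {p} := h2.isOpen_compl.mem_nhds (by simp)
  have h4 : Tendsto (fun q : ℂ × ℂ => p + q) (𝓝 0) (𝓝 p) := by
    have : Continuous (fun q : ℂ × ℂ => p + q) := by fun_prop
    simpa using this.tendsto 0
  have h5 : ∀ᶠ q in 𝓝[≠] (0 : ℂ × ℂ), g (p + q) ≠ 0 := by
    rw [eventually_nhdsWithin_iff]
    filter_upwards [h4.eventually h3, h4.eventually hW] with q hq hqW hq0 hgq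
    exact hq ⟨⟨hqW, hgq⟩, by simpa using hq0⟩
  exact h1 h5

/-- Points of a chart which are equal in the projective space are equal. -/
theorem chart_inj {X : Set (Fin (N + 1) → ℂ)} {σ : ℂ × ℂ → Fin (N + 1) → ℂ} {τ : (Fin (N + 1) → ℂ) → ℂ × ℂ} (h : IsChart X σ τ) :
    ∀ᶠ q in 𝓝 ((0 : ℂ × ℂ), (0 : ℂ × ℂ)), ∀ c : ℂ, σ q.1 = c • σ q.2 → q.1 = q.2 := by
  obtain ⟨l, hl⟩ : ∃ l, σ 0 l ≠ 0 := by
    by_contra hcon
    push Not at hcon
    exact h.ne (funext hcon)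
  have hf1 : Tendsto (fun q : (ℂ × ℂ) × (ℂ × ℂ) => q.1) (𝓝 (0, 0)) (𝓝 0) := continuous_fst.tendsto _
  have hf2 : Tendsto (fun q : (ℂ × ℂ) × (ℂ × ℂ) => q.2) (𝓝 (0, 0)) (𝓝 0) := continuous_snd.tendsto _
  have hσ : Tendsto σ (𝓝 0) (𝓝 (σ 0)) := h.σ_an.continuousAt
  have hσl : Tendsto (fun p => σ p l) (𝓝 0) (𝓝 (σ 0 l)) := ((continuous_apply l).tendsto _).comp hσ
  have hq : Tendsto (fun q : (ℂ × ℂ) × (ℂ × ℂ) => σ q.1 l / σ q.2 l) (𝓝 (0, 0)) (𝓝 1) := by
    have := (hσl.comp hf1).div (hσl.comp hf2) hl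
    rwa [div_self hl] at this
  have hpair : Tendsto (fun q : (ℂ × ℂ) × (ℂ × ℂ) => (σ q.2, σ q.1 l / σ q.2 l)) (𝓝 (0, 0)) (𝓝 (σ 0, 1)) :=
    (hσ.comp hf2).prodMk_nhds hq
  filter_upwards [hpair.eventually h.inv, hf1.eventually h.left, hf2.eventually h.left, hf2.eventually (hσl.eventually_ne hl)] with q h1 h2 h3 h4 c hc
  have h5 : σ q.1 l / σ q.2 l = c := by
    rw [hc, Pi.smul_apply, smul_eq_mul, mul_div_assoc, div_self h4, mul_one]
  simp only [h5] at h1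
  rw [← h2, ← h3, hc, h1]

theorem analyticAt_form {E : Type} [NormedAddCommGroup E] [NormedSpace ℂ E] (Q : MvPolynomial (Fin (N + 1)) ℂ) {σ : E → Fin (N + 1) → ℂ} {q : E}
    (hσ : AnalyticAt ℂ σ q) : AnalyticAt ℂ (fun q => eval (σ q) Q) q := by
  have h : ∀ i : Fin (N + 1), AnalyticAt ℂ (fun q => σ q i) q := fun i => analyticAt_pi_iff.1 hσ i
  have := AnalyticAt.aeval_mvPolynomial (𝕜 := ℂ) h Q
  simpa [MvPolynomial.aeval_eq_eval] using this

theorem eval_aeval_vals (γ : Fin (M + 1) → MvPolynomial (Fin (N + 1)) ℂ) (x : Fin (N + 1) → ℂ) (Q : MvPolynomial (Fin (M + 1)) ℂ) :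
    eval x (aeval γ Q) = eval (vals γ x) Q := by
  induction Q using MvPolynomial.induction_on with
  | C a => simp [algebraMap_eq]
  | add a b ha hb => simp only [map_add, ha, hb]
  | mul_X a i ha => simp only [map_mul, ha, aeval_X, eval_X]; rfl

/-- **The inverse image of a rational curve**: if `j` is an injective regular map from a smooth surface `U` to `ℙ^M`, then the points of `U` which are
mapped to the curve `w ↦ [p 0 (w), …, p M (w)]` are zeros of a form which is not `0` on `U`. -/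
theorem exists_form_of_rational {P : Ideal (MvPolynomial (Fin (N + 1)) ℂ)} [P.IsPrime] (hP : Homog P) {z : Fin 2 → FunField P}
    (hz : IsTranscendenceBasis ℂ z) (hsm : ∀ y ∈ cone P, Module.finrank ℂ (conTan P y) ≤ 3) {s : ℕ} {G : Fin s → MvPolynomial (Fin (N + 1)) ℂ}
    (hG : ∀ m, ∃ n, (G m).IsHomogeneous n) (hne : (locVar P G).Nonempty) {j : PN N → PN M}
    (hinj : ∀ x ∈ locVar P G, ∀ x' ∈ locVar P G, j x = j x' → x = x')
    (hreg : ∀ (x : Fin (N + 1) → ℂ) (hx : x ≠ 0), Projectivization.mk ℂ x hx ∈ locVar P G →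
      ∃ (D : ℕ) (γ : Fin (M + 1) → MvPolynomial (Fin (N + 1)) ℂ), (∀ i, (γ i).IsHomogeneous D) ∧ vals γ x ≠ 0 ∧
        ∀ (x' : Fin (N + 1) → ℂ) (hx' : x' ≠ 0) (h : vals γ x' ≠ 0), Projectivization.mk ℂ x' hx' ∈ locVar P G →
          j (Projectivization.mk ℂ x' hx') = Projectivization.mk ℂ (vals γ x') h)
    (p : Fin (M + 1) → Polynomial ℂ) :
    ∃ (D : ℕ) (R : MvPolynomial (Fin (N + 1)) ℂ), R.IsHomogeneous D ∧ R ∉ P ∧
      ∀ x ∈ locVar P G, (∃ (w : ℂ) (h : (fun i => (p i).eval w) ≠ 0), j x = Projectivization.mk ℂ _ h) → VanishesAt R x := by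
  classical
  obtain ⟨x₀, hx₀⟩ := hne
  have hx₀r : Projectivization.mk ℂ x₀.rep x₀.rep_nonzero ∈ locVar P G := by rwa [Projectivization.mk_rep]
  obtain ⟨D, γ, hγ, hγ0, hγj⟩ := hreg x₀.rep x₀.rep_nonzero hx₀r
  by_contra hcon
  push Not at hcon
  -- all relations between the `p i` are relations between the `γ i`
  have hrel : ∀ (n : ℕ) (Q : MvPolynomial (Fin (M + 1)) ℂ), 1 ≤ n → Q.IsHomogeneous n → (∀ w : ℂ, eval (fun i => (p i).eval w) Q = 0) →
      aeval γ Q ∈ P := by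
    intro n Q hn hQ hQp
    by_contra hQP
    obtain ⟨x, hx, ⟨w, hw, hjx⟩, hRx⟩ := hcon (D * n) (aeval γ Q) (hQ.aeval _ hγ) hQP
    apply hRx
    unfold VanishesAt
    have e1 : eval x.rep (aeval γ Q) = eval (vals γ x.rep) Q := eval_aeval_vals γ x.rep Q
    rw [e1]
    by_cases h0 : vals γ x.rep = 0
    · rw [h0]
      have := Pool.Agent.H17BP.eval_smul_form hQ 0 (0 : Fin (M + 1) → ℂ)
      rw [smul_zero] at this
      rw [this, zero_pow (by omega), zero_mul]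
    · have h1 := hγj x.rep x.rep_nonzero h0 (by rwa [Projectivization.mk_rep])
      rw [Projectivization.mk_rep, hjx, Projectivization.mk_eq_mk_iff'] at h1
      obtain ⟨a, ha⟩ := h1
      have ha0 : a ≠ 0 := by
        rintro rfl
        rw [zero_smul] at ha
        exact hw ha.symm
      have h2 : vals γ x.rep = a⁻¹ • (fun i => (p i).eval w) := by
        rw [← ha, smul_smul, inv_mul_cancel₀ ha0, one_smul]
      rw [h2, Pool.Agent.H17BP.eval_smul_form hQ, hQp, mul_zero]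
  -- the chart
  have hS : Surface (cone P) := Pool.Agent.H13.SM.surface_cone hP hz hsm
  have hx₀c : x₀.rep ∈ cone P := (Pool.Agent.H17BP.rep_mem_cone hP).2 ⟨hx₀.1, fun m => m.elim0⟩
  obtain ⟨σ, τ, hc, hσ0⟩ := hS.chart _ hx₀c
  obtain ⟨m₀, hm₀⟩ := hx₀.2
  obtain ⟨n₀, hn₀⟩ := hG m₀
  have hGσ : AnalyticAt ℂ (fun q => eval (σ q) (G m₀)) 0 := analyticAt_form (G m₀) hc.σ_an
  have hγσ : ∀ a, AnalyticAt ℂ (fun q => eval (σ q) (γ a)) 0 := fun a => analyticAt_form (γ a) hc.σ_an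
  have hG0 : eval (σ 0) (G m₀) ≠ 0 := by
    rw [hσ0]
    exact hm₀
  obtain ⟨a₀, ha₀⟩ : ∃ a, eval (σ 0) (γ a) ≠ 0 := by
    by_contra hcon'
    push Not at hcon'
    apply hγ0
    funext a
    have := hcon' a
    rw [hσ0] at this
    exact this
  -- points near the centre
  have hgood : ∀ᶠ q in 𝓝 (0 : ℂ × ℂ), σ q ∈ cone P ∧ eval (σ q) (G m₀) ≠ 0 ∧ eval (σ q) (γ a₀) ≠ 0 :=
    hc.σ_mem.and ((hGσ.continuousAt.eventually_ne hG0).and ((hγσ a₀).continuousAt.eventually_ne ha₀))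
  have hloc : ∀ q, σ q ∈ cone P → eval (σ q) (G m₀) ≠ 0 → ∃ h : σ q ≠ 0, Projectivization.mk ℂ (σ q) h ∈ locVar P G := by
    intro q h1 h2
    refine ⟨h1.1, fun Q hQ n hn => ?_, m₀, ?_⟩
    · rw [vanishesAt_mk_iff hn _ h1.1]
      exact h1.2 Q hQ
    · rw [vanishesAt_mk_iff hn₀ _ h1.1]
      exact h2
  set g : ℂ × ℂ → Fin (M + 1) → ℂ := fun q a => eval (σ q) (γ a) / eval (σ q) (γ a₀) with hg
  have hga : ∀ᶠ q in 𝓝 (0 : ℂ × ℂ), ∀ a, AnalyticAt ℂ (fun q => g q a) q := by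
    have h1 : ∀ a, ∀ᶠ q in 𝓝 (0 : ℂ × ℂ), AnalyticAt ℂ (fun q => g q a) q := fun a =>
      ((hγσ a).div (hγσ a₀) ha₀).eventually_analyticAt
    exact eventually_all.2 h1
  -- `j` is injective
  have hinj' : ∀ᶠ q in 𝓝 ((0 : ℂ × ℂ), (0 : ℂ × ℂ)), g q.1 = g q.2 → q.1 = q.2 := by
    have hf1 : Tendsto (fun q : (ℂ × ℂ) × (ℂ × ℂ) => q.1) (𝓝 (0, 0)) (𝓝 0) := continuous_fst.tendsto _
    have hf2 : Tendsto (fun q : (ℂ × ℂ) × (ℂ × ℂ) => q.2) (𝓝 (0, 0)) (𝓝 0) := continuous_snd.tendsto _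
    filter_upwards [chart_inj hc, hf1.eventually hgood, hf2.eventually hgood] with q h1 h2 h3 h4
    obtain ⟨h5, h6⟩ := hloc q.1 h2.1 h2.2.1
    obtain ⟨h7, h8⟩ := hloc q.2 h3.1 h3.2.1
    have hv : vals γ (σ q.1) = (eval (σ q.1) (γ a₀) / eval (σ q.2) (γ a₀)) • vals γ (σ q.2) := by
      funext a
      have h9 := congrFun h4 a
      simp only [hg] at h9
      rw [div_eq_div_iff h2.2.2 h3.2.2] at h9
      show eval (σ q.1) (γ a) = eval (σ q.1) (γ a₀) / eval (σ q.2) (γ a₀) * eval (σ q.2) (γ a)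
      rw [div_mul_eq_mul_div, eq_div_iff h3.2.2, h9]
      ring
    have hv1 : vals γ (σ q.1) ≠ 0 := fun h => h2.2.2 (congrFun h a₀)
    have hv2 : vals γ (σ q.2) ≠ 0 := fun h => h3.2.2 (congrFun h a₀)
    have h10 := hγj _ h5 hv1 h6
    have h11 := hγj _ h7 hv2 h8
    have h12 : j (Projectivization.mk ℂ (σ q.1) h5) = j (Projectivization.mk ℂ (σ q.2) h7) := by
      rw [h10, h11, Projectivization.mk_eq_mk_iff']
      exact ⟨_, hv.symm⟩
    have h13 := hinj _ h6 _ h8 h12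
    rw [Projectivization.mk_eq_mk_iff'] at h13
    obtain ⟨c, hc'⟩ := h13
    exact h1 c hc'.symm
  obtain ⟨r, hr, hball⟩ : ∃ r > 0, (∀ q ∈ ball (0 : ℂ × ℂ) r, (σ q ∈ cone P ∧ eval (σ q) (G m₀) ≠ 0 ∧ eval (σ q) (γ a₀) ≠ 0) ∧
      ∀ a, AnalyticAt ℂ (fun q => g q a) q) ∧ ∀ q ∈ ball (0 : ℂ × ℂ) r, ∀ q' ∈ ball (0 : ℂ × ℂ) r, g q = g q' → q = q' := by
    obtain ⟨r₁, hr₁, h1⟩ := Metric.eventually_nhds_iff_ball.1 (hgood.and hga)
    obtain ⟨r₂, hr₂, h2⟩ := Metric.eventually_nhds_iff_ball.1 hinj'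
    refine ⟨min r₁ r₂, lt_min hr₁ hr₂, fun q hq => h1 q (ball_subset_ball (min_le_left _ _) hq), fun q hq q' hq' h3 => h2 (q, q') ?_ h3⟩
    have e1 := ball_subset_ball (min_le_right r₁ r₂) hq
    have e2 := ball_subset_ball (min_le_right r₁ r₂) hq'
    rw [mem_ball, Prod.dist_eq]
    exact max_lt e1 e2
  obtain ⟨hb1, hb2⟩ := hball
  -- the relations
  have hR : ∀ a b : Fin (M + 1), ∃ (n : ℕ) (c : Fin n × Fin n → ℂ), c ≠ 0 ∧ ∀ q ∈ ball (0 : ℂ × ℂ) r,
      ∑ x : Fin n × Fin n, c x * g q a ^ (x.1 : ℕ) * g q b ^ (x.2 : ℕ) = 0 := by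
    intro a b
    obtain ⟨n, c, hc0, hn, hrel'⟩ := exists_relation (p a₀) (p a) (p b)
    refine ⟨n, c, hc0, fun q hq => ?_⟩
    let Q : MvPolynomial (Fin (M + 1)) ℂ := ∑ x : Fin n × Fin n, C (c x) * (X a₀ ^ (2 * n - x.1.1 - x.2.1) * X a ^ x.1.1 * X b ^ x.2.1)
    have hQ : Q.IsHomogeneous (2 * n) := by
      refine IsHomogeneous.sum _ _ _ fun x _ => ?_
      have hx1 := x.1.2
      have hx2 := x.2.2
      have h1 : (X a₀ ^ (2 * n - x.1.1 - x.2.1) * X a ^ x.1.1 * X b ^ x.2.1 : MvPolynomial (Fin (M + 1)) ℂ).IsHomogeneous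
          ((2 * n - x.1.1 - x.2.1) + x.1.1 + x.2.1) :=
        ((isHomogeneous_X_pow a₀ _).mul (isHomogeneous_X_pow a _)).mul (isHomogeneous_X_pow b _)
      have h2 : (2 * n - x.1.1 - x.2.1) + x.1.1 + x.2.1 = 2 * n := by omega
      rw [h2] at h1
      have h3 := (isHomogeneous_C (Fin (M + 1)) (c x)).mul h1
      rwa [zero_add] at h3
    have hQp : ∀ w : ℂ, eval (fun i => (p i).eval w) Q = 0 := by
      intro w
      have h1 := congrArg (Polynomial.eval w) hrel'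
      rw [Polynomial.eval_finset_sum, Polynomial.eval_zero] at h1
      simp only [Polynomial.eval_mul, Polynomial.eval_C, Polynomial.eval_pow] at h1
      simp only [Q, map_sum, map_mul, map_pow, eval_X, eval_C]
      exact h1
    have h1 := (hb1 q hq).1.1.2 _ (hrel _ Q (by omega) hQ hQp)
    rw [eval_aeval_vals] at h1
    have h0 := (hb1 q hq).1.2.2
    simp only [Q, map_sum, map_mul, map_pow, eval_X, eval_C] at h1
    have h2 : ∑ x : Fin n × Fin n, c x * g q a ^ (x.1 : ℕ) * g q b ^ (x.2 : ℕ) =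
        (∑ x : Fin n × Fin n, c x * (vals γ (σ q) a₀ ^ (2 * n - x.1.1 - x.2.1) * vals γ (σ q) a ^ x.1.1 * vals γ (σ q) b ^ x.2.1)) /
          eval (σ q) (γ a₀) ^ (2 * n) := by
      rw [Finset.sum_div]
      refine Finset.sum_congr rfl fun x _ => ?_
      have hx1 := x.1.2
      have hx2 := x.2.2
      have e1 : eval (σ q) (γ a₀) ^ (2 * n) = eval (σ q) (γ a₀) ^ (2 * n - x.1.1 - x.2.1) * eval (σ q) (γ a₀) ^ x.1.1 *
          eval (σ q) (γ a₀) ^ x.2.1 := by
        rw [← pow_add, ← pow_add]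
        congr 1
        omega
      rw [e1]
      simp only [hg, vals]
      rw [div_pow, div_pow]
      field_simp
    rw [h2, h1, zero_div]
  -- some function is not constant
  obtain ⟨a, ha⟩ : ∃ a, ∃ q ∈ ball (0 : ℂ × ℂ) (r / 2), g q a ≠ g 0 a := by
    by_contra hcon'
    push Not at hcon'
    have h1 : ((r / 4 : ℝ) : ℂ) ≠ 0 := by
      rw [Ne, Complex.ofReal_eq_zero]
      positivity
    have h2 : ((((r / 4 : ℝ) : ℂ), (0 : ℂ)) : ℂ × ℂ) ∈ ball (0 : ℂ × ℂ) (r / 2) := by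
      rw [mem_ball_zero_iff, Prod.norm_def, norm_zero, Complex.norm_real, Real.norm_of_nonneg (by positivity)]
      exact max_lt (by linarith) (by positivity)
    have h3 := hb2 _ (ball_subset_ball (by linarith) h2) 0 (mem_ball_self hr) (funext fun a => hcon' a _ h2)
    exact h1 (congrArg Prod.fst h3)
  choose n c hc0 hcr using hR a
  -- for almost all values of this function the others have finitely many values
  have hk : ∀ b, ∃ k : Fin (n b), (∑ i : Fin (n b), Polynomial.C (c b (i, k)) * Polynomial.X ^ (i : ℕ)) ≠ (0 : Polynomial ℂ) := by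
    intro b
    by_contra hcon'
    push Not at hcon'
    apply hc0 b
    funext x
    have h1 := congrArg (fun p : Polynomial ℂ => p.coeff x.1) (hcon' x.2)
    simp only [Polynomial.finset_sum_coeff, Polynomial.coeff_C_mul, Polynomial.coeff_X_pow, Polynomial.coeff_zero] at h1
    rw [Finset.sum_eq_single x.1] at h1
    · simpa using h1
    · intro i _ hi
      rw [if_neg, mul_zero]
      exact fun h => hi (Fin.ext h.symm)
    · exact fun h => absurd (Finset.mem_univ _) h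
  choose k hk using hk
  let bad : Set ℂ := ⋃ b, {s | (∑ i : Fin (n b), Polynomial.C (c b (i, k b)) * Polynomial.X ^ (i : ℕ)).IsRoot s}
  have hbad : bad.Finite := Set.finite_iUnion fun b => Polynomial.finite_setOf_isRoot (hk b)
  obtain ⟨q₁, hq₁, hq₁b⟩ : ∃ q ∈ ball (0 : ℂ × ℂ) (r / 2), g q a ∉ bad := by
    by_contra hcon'
    push Not at hcon'
    have hcont : ContinuousOn (fun q => g q a) (ball (0 : ℂ × ℂ) (r / 2)) := fun q hq =>
      ((hb1 q (ball_subset_ball (by linarith) hq)).2 a).continuousAt.continuousWithinAt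
    obtain ⟨y, -, hy⟩ := (convex_ball (0 : ℂ × ℂ) (r / 2)).isPreconnected.eqOn_const_of_mapsTo hbad.isDiscrete hcont (fun q hq => hcon' q hq)
      ⟨_, hcon' 0 (mem_ball_self (by positivity))⟩
    obtain ⟨q, hq, hqa⟩ := ha
    exact hqa ((hy hq).trans (hy (mem_ball_self (by positivity))).symm)
  -- the level set
  have hq₁r : q₁ ∈ ball (0 : ℂ × ℂ) r := ball_subset_ball (by linarith) hq₁
  have hinf : {q | q ∈ ball (0 : ℂ × ℂ) r ∧ g q a - g q₁ a = 0}.Infinite :=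
    infinite_zeros (((hb1 q₁ hq₁r).2 a).sub analyticAt_const) (sub_self _) (isOpen_ball.mem_nhds hq₁r)
  let val' : Fin (M + 1) → Set ℂ := fun b => {t | (∑ l : Fin (n b), Polynomial.C (∑ i : Fin (n b), c b (i, l) * g q₁ a ^ (i : ℕ)) *
    Polynomial.X ^ (l : ℕ)).IsRoot t}
  have hval : ∀ b, (val' b).Finite := by
    intro b
    refine Polynomial.finite_setOf_isRoot fun h => ?_
    have h1 := congrArg (fun p : Polynomial ℂ => p.coeff (k b)) h
    simp only [Polynomial.finset_sum_coeff, Polynomial.coeff_C_mul, Polynomial.coeff_X_pow, Polynomial.coeff_zero] at h1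
    rw [Finset.sum_eq_single (k b)] at h1
    · rw [if_pos rfl, mul_one] at h1
      apply hq₁b
      refine Set.mem_iUnion.2 ⟨b, ?_⟩
      show Polynomial.IsRoot _ _
      rw [Polynomial.IsRoot.def, Polynomial.eval_finset_sum]
      simpa using h1
    · intro i _ hi
      rw [if_neg, mul_zero]
      exact fun h => hi (Fin.ext h.symm)
    · exact fun h => absurd (Finset.mem_univ _) h
  have hmaps : Set.MapsTo g {q | q ∈ ball (0 : ℂ × ℂ) r ∧ g q a - g q₁ a = 0} (Set.univ.pi val') := by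
    rintro q ⟨hq, hqa⟩ b -
    have h1 := hcr b q hq
    rw [sub_eq_zero.1 hqa] at h1
    show Polynomial.IsRoot _ _
    rw [Polynomial.IsRoot.def, Polynomial.eval_finset_sum]
    rw [Fintype.sum_prod_type, Finset.sum_comm] at h1
    rw [← h1]
    refine Finset.sum_congr rfl fun l _ => ?_
    simp only [Polynomial.eval_mul, Polynomial.eval_C, Polynomial.eval_pow, Polynomial.eval_X]
    rw [Finset.sum_mul]
  obtain ⟨q, hq, q', hq', hne', hqq'⟩ := hinf.exists_ne_map_eq_of_mapsTo hmaps (Set.Finite.pi' hval |>.subset fun v hv b => hv b (Set.mem_univ b))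
  exact hne' (hb2 q hq.1 q' hq'.1 hqq')

end Pool.Agent.H4.LU

end
end

section

/-!
# LU ConvJ: composition of limits with the regular map `j`
-/

set_option autoImplicit false

open Topology Filter MvPolynomial Metric

noncomputable section

namespace Pool.Agent.H4.LU

attribute [-instance] ProperSMul.toContinuousSMul

open Pool.Agent.H17 (PN VanishesAt HolomorphicInto vanishesAt_mk_iff)
open Pool.Agent.H62.SA (locVar)
open Pool.Agent.H7.Bir (vals rmap)
open Pool.Agent.H36.LB (ConvPN IsLimitPN)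
open Pool.Agent.H13.OT (OrderTwo)

variable {M N : ℕ}

/-- `ConvPN` depends only on the germ of the limit. -/
theorem convPN_congr {l : Filter ℕ} {F : ℕ → ℂ → PN N} {f f' : ℂ → PN N} {z₀ : ℂ} (h : ConvPN l F f z₀) (hf : ∀ᶠ z in 𝓝 z₀, f z = f' z) :
    ConvPN l F f' z₀ := by
  obtain ⟨s, Φ, Φ₀, hs, h1, h2, h3, h4⟩ := h
  obtain ⟨r, hr, hrf⟩ := Metric.eventually_nhds_iff_ball.1 hf
  have hm : ball z₀ (min s r) ⊆ ball z₀ s := ball_subset_ball (min_le_left _ _)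
  refine ⟨min s r, Φ, Φ₀, lt_min hs hr, ?_, h2.mono hm, ?_, h4.mono hm⟩
  · filter_upwards [h1] with n hn
    exact ⟨hn.1.mono hm, fun z hz => hn.2 z (hm hz)⟩
  · intro z hz
    obtain ⟨h5, h6⟩ := h3 z (hm hz)
    exact ⟨h5, by rw [← hrf z (ball_subset_ball (min_le_right _ _) hz), h6]⟩

/-- `ConvPN` is an open condition. -/
theorem convPN_open {l : Filter ℕ} {F : ℕ → ℂ → PN N} {f : ℂ → PN N} {z₀ : ℂ} (h : ConvPN l F f z₀) : ∀ᶠ z in 𝓝 z₀, ConvPN l F f z := by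
  obtain ⟨s, Φ, Φ₀, hs, h1, h2, h3, h4⟩ := h
  filter_upwards [isOpen_ball.mem_nhds (mem_ball_self hs)] with z hz
  have hz' : dist z z₀ < s := hz
  have hm : ball z (s - dist z z₀) ⊆ ball z₀ s := ball_subset_ball' (by linarith)
  exact ⟨s - dist z z₀, Φ, Φ₀, by linarith, h1.mono fun n hn => ⟨hn.1.mono hm, fun w hw => hn.2 w (hm hw)⟩, h2.mono hm,
    fun w hw => h3 w (hm hw), h4.mono hm⟩

theorem analyticAt_vals {γ : Fin (M + 1) → MvPolynomial (Fin (N + 1)) ℂ} {φ : ℂ → Fin (N + 1) → ℂ} {z : ℂ} (hφ : AnalyticAt ℂ φ z) :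
    AnalyticAt ℂ (fun w => vals γ (φ w)) z :=
  analyticAt_pi_iff.2 fun i => analyticAt_form (γ i) hφ

/-- `j ∘ g` is holomorphic where `g` is holomorphic with values in `U`. -/
theorem holInto_j {P : Ideal (MvPolynomial (Fin (N + 1)) ℂ)} {s : ℕ} {G : Fin s → MvPolynomial (Fin (N + 1)) ℂ} {V : Set (PN M)} {e : PN M → ℂ}
    {j : PN N → PN M} (hj : IsRegularInto P G V e j) {g : ℂ → PN N} {O : Set ℂ} (hO : IsOpen O) (hg : HolomorphicInto g O)
    (hgU : ∀ z ∈ O, g z ∈ locVar P G) : HolomorphicInto (fun z => j (g z)) O := by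
  intro z hz
  obtain ⟨φ, hφ, he⟩ := hg z hz
  obtain ⟨h0, h1⟩ := he.self_of_nhds
  obtain ⟨D, γ, hγ, hγ0, hγj⟩ := hj.regular (φ z) h0 (h1 ▸ hgU z hz)
  refine ⟨fun w => vals γ (φ w), analyticAt_vals hφ, ?_⟩
  have h2 : ∀ᶠ w in 𝓝 z, vals γ (φ w) ≠ 0 := (analyticAt_vals hφ).continuousAt.eventually_ne hγ0
  filter_upwards [h2, he, hO.mem_nhds hz] with w h3 h4 h5
  obtain ⟨h6, h7⟩ := h4
  refine ⟨h3, ?_⟩
  rw [h7]
  exact hγj _ h6 h3 (h7 ▸ hgU w h5)

/-- Where `F n → f`, with `f z ∈ U`, also `j ∘ F n → j ∘ f`. -/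
theorem conv_j {P : Ideal (MvPolynomial (Fin (N + 1)) ℂ)} {s : ℕ} {G : Fin s → MvPolynomial (Fin (N + 1)) ℂ} {V : Set (PN M)} {e : PN M → ℂ}
    {j : PN N → PN M} (hj : IsRegularInto P G V e j) {l : Filter ℕ} {F : ℕ → ℂ → PN N} {f : ℂ → PN N} (hl : IsLimitPN (locVar P G) l F f) {z₀ : ℂ}
    (h : ConvPN l F f z₀) : ConvPN l (fun n z => j (F n z)) (fun z => j (f z)) z₀ := by
  have hopen := convPN_open h
  obtain ⟨s, Φ, Φ₀, hs, h1, h2, h3, h4⟩ := h
  obtain ⟨h5, h6⟩ := h3 z₀ (mem_ball_self hs)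
  have hf0 : f z₀ ∈ locVar P G := hl.mem_of_conv z₀ hopen.self_of_nhds
  obtain ⟨D, γ, hγ, hγ0, hγj⟩ := hj.regular (Φ₀ z₀) h5 (h6 ▸ hf0)
  -- a compact ball where `γ (Φ₀)` is not zero
  have hcont : ContinuousAt Φ₀ z₀ := (h2.differentiableAt (isOpen_ball.mem_nhds (mem_ball_self hs))).continuousAt
  have hvc : Continuous fun x : Fin (N + 1) → ℂ => vals γ x := continuous_pi fun i => MvPolynomial.continuous_eval (γ i)
  have h7 : ∀ᶠ z in 𝓝 z₀, vals γ (Φ₀ z) ≠ 0 := (hvc.continuousAt.comp hcont).eventually_ne hγ0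
  have hpos : 0 < ‖vals γ (Φ₀ z₀)‖ := norm_pos_iff.2 hγ0
  have h7' : ∀ᶠ z in 𝓝 z₀, ‖vals γ (Φ₀ z₀)‖ / 2 < ‖vals γ (Φ₀ z)‖ :=
    (hvc.continuousAt.comp hcont).norm.eventually_const_lt (show ‖vals γ (Φ₀ z₀)‖ / 2 < ‖vals γ (Φ₀ z₀)‖ by linarith)
  obtain ⟨r, hr, hrb⟩ := Metric.eventually_nhds_iff_ball.1 ((h7'.and hopen).and (isOpen_ball.mem_nhds (mem_ball_self hs)))
  have hsub : closedBall z₀ (r / 2) ⊆ ball z₀ r := closedBall_subset_ball (by linarith)
  have hsub1 : ball z₀ (r / 2) ⊆ ball z₀ r := ball_subset_closedBall.trans hsub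
  have hsub2 : ball z₀ r ⊆ ball z₀ s := fun z hz => (hrb z hz).2
  have hlim2 : TendstoLocallyUniformlyOn (fun n z => vals γ (Φ n z)) (fun z => vals γ (Φ₀ z)) l (ball z₀ s) :=
    Pool.Agent.H36.LB.tlu_comp h4 h2.continuousOn fun x _ => hvc.continuousAt
  have hunif : ∀ᶠ n in l, ∀ z ∈ closedBall z₀ (r / 2), dist (vals γ (Φ₀ z)) (vals γ (Φ n z)) < ‖vals γ (Φ₀ z₀)‖ / 2 := by
    have h1 := (tendstoLocallyUniformlyOn_iff_tendstoUniformlyOn_of_compact (isCompact_closedBall z₀ (r / 2))).1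
      (hlim2.mono fun z hz => hsub2 (hsub hz))
    exact Metric.tendstoUniformlyOn_iff.1 h1 _ (by positivity)
  have hbig : ∀ᶠ n in l, ∀ z ∈ ball z₀ (r / 2), F n z ∈ locVar P G := by
    filter_upwards [hl.le_atTop (eventually_ge_atTop ⌈‖z₀‖ + r⌉₊)] with n hn z hz
    refine hl.memF n z ?_
    rw [mem_ball_zero_iff]
    have h8 : ‖z‖ ≤ ‖z₀‖ + r / 2 := by
      have h9 := norm_sub_norm_le z z₀
      rw [mem_ball, dist_eq_norm] at hz
      linarith
    have h9 : ‖z₀‖ + r ≤ n := (Nat.le_ceil _).trans (Nat.cast_le.2 hn)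
    linarith
  have hvd : ∀ {φ : ℂ → Fin (N + 1) → ℂ} {z : ℂ}, DifferentiableAt ℂ φ z → DifferentiableAt ℂ (fun w => vals γ (φ w)) z := by
    intro φ z hφ
    rw [differentiableAt_pi]
    intro i
    have h8 : DifferentiableAt ℂ (fun x : Fin (N + 1) → ℂ => eval x (γ i)) (φ z) :=
      (analyticAt_form (γ i) analyticAt_id).differentiableAt
    exact h8.comp z hφ
  refine ⟨r / 2, fun n z => vals γ (Φ n z), fun z => vals γ (Φ₀ z), by positivity, ?_, ?_, ?_, hlim2.mono fun z hz => hsub2 (hsub1 hz)⟩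
  · filter_upwards [h1, hunif, hbig] with n h8 h9 h10
    refine ⟨fun z hz => (hvd (h8.1.differentiableAt (isOpen_ball.mem_nhds (hsub2 (hsub1 hz))))).differentiableWithinAt, fun z hz => ?_⟩
    have h11 : vals γ (Φ n z) ≠ 0 := by
      intro h12
      have h13 := h9 z (ball_subset_closedBall hz)
      rw [h12, dist_zero_right] at h13
      linarith [(hrb z (hsub1 hz)).1.1]
    obtain ⟨h12, h13⟩ := h8.2 z (hsub2 (hsub1 hz))
    refine ⟨h11, ?_⟩
    show j (F n z) = _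
    rw [h13]
    exact hγj _ h12 h11 (h13 ▸ h10 z hz)
  · exact fun z hz => (hvd (h2.differentiableAt (isOpen_ball.mem_nhds (hsub2 (hsub1 hz))))).differentiableWithinAt
  · intro z hz
    have h11 : vals γ (Φ₀ z) ≠ 0 := by
      intro h12
      have h13 := (hrb z (hsub1 hz)).1.1
      rw [h12, norm_zero] at h13
      linarith
    obtain ⟨h12, h13⟩ := h3 z (hsub2 (hsub1 hz))
    refine ⟨h11, ?_⟩
    show j (f z) = _
    have h14 : f z ∈ locVar P G := hl.mem_of_conv z (hrb z (hsub1 hz)).1.2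
    rw [h13] at h14 ⊢
    exact hγj _ h12 h11 h14

end Pool.Agent.H4.LU

end
end

section

/-!
# LR Val: the values of rational functions along holomorphic curves

* `qt A B x`: the value of `A / B` at `x`.
* `HasValue.tendsto`, `HasValue.tendsto_cobounded`: if the map `[A : B]` has the value `[s : t]` at `F z₀` then `A (F z) / B (F z)` tends to `s / t`.
* `qt_meromorphic`.
* `qt_unif`: convergence of the quotients.
-/

set_option autoImplicit false

open Topology Filter MvPolynomial Metric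

noncomputable section

namespace Pool.Agent.H46.LR

attribute [-instance] ProperSMul.toContinuousSMul

open Pool.Agent.H17 (PN VanishesAt HolomorphicInto vanishesAt_mk_iff)
open Pool.Agent.H17BP (rep_mk_fin eval_smul_form)
open Pool.Agent.H17EF (projVar)
open Pool.Agent.H62.FC (Homog)
open Pool.Agent.H62.SA (locVar)
open Pool.Agent.H36.LB (ConvPN tlu_comp)

variable {N : ℕ}

/-- the value of `A / B` at `x` -/
def qt (A B : MvPolynomial (Fin (N + 1)) ℂ) (x : PN N) : ℂ := eval x.rep A / eval x.rep B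

variable {P : Ideal (MvPolynomial (Fin (N + 1)) ℂ)} {A B : MvPolynomial (Fin (N + 1)) ℂ} {D : ℕ}

theorem qt_mk (hA : A.IsHomogeneous D) (hB : B.IsHomogeneous D) {x : Fin (N + 1) → ℂ} (h : x ≠ 0) :
    qt A B (Projectivization.mk ℂ x h) = eval x A / eval x B := by
  obtain ⟨a, ha, hx⟩ := rep_mk_fin h
  unfold qt
  rw [hx, eval_smul_form hA, eval_smul_form hB, mul_div_mul_left _ _ (pow_ne_zero _ ha)]

theorem HasValue.of_qt (hA : A.IsHomogeneous D) (hB : B.IsHomogeneous D) {x : PN N} (hx : ¬ VanishesAt B x) : HasValue P A B x (qt A B x) 1 := by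
  refine ⟨D, A, B, hA, hB, ?_, fun h => hx h.2, ?_⟩
  · rw [mul_comm, sub_self]
    exact P.zero_mem
  · unfold qt
    unfold VanishesAt at hx
    field_simp

/-- the value is unique -/
theorem HasValue.unique [P.IsPrime] (hB : B ∉ P) {x : PN N} (hx : x ∈ projVar P) {v v' : ℂ} (h : HasValue P A B x v 1)
    (h' : HasValue P A B x v' 1) : v = v' := by
  obtain ⟨d, a, b, ha, hb, hab, hne, hv⟩ := h
  obtain ⟨d', a', b', ha', hb', hab', hne', hv'⟩ := h'
  unfold VanishesAt at hne hne'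
  have hmem : a * b' - a' * b ∈ P := by
    have h1 : (a * b' - a' * b) * B ∈ P := by
      have h2 := P.sub_mem (P.mul_mem_left b' hab) (P.mul_mem_left b hab')
      have h3 : b' * (a * B - b * A) - b * (a' * B - b' * A) = (a * b' - a' * b) * B := by ring
      rwa [h3] at h2
    exact (Ideal.IsPrime.mem_or_mem inferInstance h1).resolve_right hB
  have hh : (a * b' - a' * b).IsHomogeneous (d + d') := by
    have h1 := ha.mul hb'
    have h2 := ha'.mul hb
    rw [add_comm d' d] at h2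
    exact h1.sub h2
  have h1 := hx _ hmem _ hh
  unfold VanishesAt at h1
  rw [map_sub, map_mul, map_mul] at h1
  rw [mul_one] at hv hv'
  have hbx : eval x.rep b ≠ 0 := fun h0 => hne ⟨by rw [hv, h0, zero_mul], h0⟩
  have hbx' : eval x.rep b' ≠ 0 := fun h0 => hne' ⟨by rw [hv', h0, zero_mul], h0⟩
  rw [hv, hv'] at h1
  have h2 : eval x.rep b * eval x.rep b' * (v - v') = 0 := by linear_combination h1
  have h3 := (mul_eq_zero.1 h2).resolve_left (mul_ne_zero hbx hbx')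
  exact sub_eq_zero.1 h3

theorem analyticAt_form {φ : ℂ → Fin (N + 1) → ℂ} {z : ℂ} (hφ : AnalyticAt ℂ φ z) (Q : MvPolynomial (Fin (N + 1)) ℂ) :
    AnalyticAt ℂ (fun w => eval (φ w) Q) z := by
  have h : ∀ i : Fin (N + 1), AnalyticAt ℂ (fun q => φ q i) z := fun i => analyticAt_pi_iff.1 hφ i
  have := AnalyticAt.aeval_mvPolynomial (𝕜 := ℂ) h Q
  simpa [MvPolynomial.aeval_eq_eval] using this

/-- the quotient along a curve is meromorphic -/
theorem qt_meromorphic (hA : A.IsHomogeneous D) (hB : B.IsHomogeneous D) {F : ℂ → PN N} {z₀ : ℂ} (hF : HolomorphicInto F {z₀}) :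
    MeromorphicAt (fun z => qt A B (F z)) z₀ := by
  obtain ⟨φ, hφ, he⟩ := hF z₀ rfl
  have h1 : MeromorphicAt (fun z => eval (φ z) A / eval (φ z) B) z₀ := (analyticAt_form hφ A).meromorphicAt.div (analyticAt_form hφ B).meromorphicAt
  refine h1.congr ?_
  filter_upwards [nhdsWithin_le_nhds he] with z hz
  obtain ⟨h2, h3⟩ := hz
  rw [h3, qt_mk hA hB h2]

/-- what `HasValue` says along a curve -/
theorem HasValue.local {F : ℂ → PN N} {z₀ : ℂ} (hF : HolomorphicInto F {z₀}) (hU : ∀ᶠ z in 𝓝 z₀, F z ∈ projVar P) (hA : A.IsHomogeneous D)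
    (hB : B.IsHomogeneous D) (hne : ∃ᶠ z in 𝓝[≠] z₀, ¬ VanishesAt B (F z)) {s t : ℂ} (h : HasValue P A B (F z₀) s t) :
    ∃ α β : ℂ → ℂ, AnalyticAt ℂ α z₀ ∧ AnalyticAt ℂ β z₀ ∧ ¬ (α z₀ = 0 ∧ β z₀ = 0) ∧ α z₀ * t = β z₀ * s ∧
      ∀ᶠ z in 𝓝[≠] z₀, (β z = 0 → α z = 0) ∧ (β z ≠ 0 → qt A B (F z) = α z / β z) := by
  obtain ⟨φ, hφ, he⟩ := hF z₀ rfl
  obtain ⟨d, a, b, ha, hb, hab, hnab, hst⟩ := h
  obtain ⟨h0, hF0⟩ := he.self_of_nhds
  obtain ⟨κ, hκ, hrep⟩ := rep_mk_fin h0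
  have hBz : ∀ᶠ z in 𝓝[≠] z₀, eval (φ z) B ≠ 0 := by
    rcases (analyticAt_form hφ B).eventually_eq_zero_or_eventually_ne_zero with h1 | h1
    · exfalso
      apply hne
      filter_upwards [nhdsWithin_le_nhds h1, nhdsWithin_le_nhds he] with z h2 h3
      obtain ⟨h4, h5⟩ := h3
      rw [not_not, h5, vanishesAt_mk_iff hB _ h4]
      exact h2
    · exact h1
  refine ⟨fun z => eval (φ z) a, fun z => eval (φ z) b, analyticAt_form hφ a, analyticAt_form hφ b, ?_, ?_, ?_⟩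
  · rintro ⟨h1, h2⟩
    apply hnab
    rw [hF0, vanishesAt_mk_iff ha _ h0, vanishesAt_mk_iff hb _ h0]
    exact ⟨h1, h2⟩
  · rw [hF0, hrep, eval_smul_form ha, eval_smul_form hb] at hst
    have h1 : κ ^ d * (eval (φ z₀) a * t) = κ ^ d * (eval (φ z₀) b * s) := by linear_combination hst
    exact mul_left_cancel₀ (pow_ne_zero _ hκ) h1
  · filter_upwards [hBz, nhdsWithin_le_nhds he, nhdsWithin_le_nhds hU] with z h1 h2 h3
    obtain ⟨h5, h6⟩ := h2
    have hh : (a * B - b * A).IsHomogeneous (d + D) := (ha.mul hB).sub (hb.mul hA)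
    have h7 := h3 _ hab _ hh
    rw [h6, vanishesAt_mk_iff hh _ h5, map_sub, map_mul, map_mul] at h7
    refine ⟨fun h8 => ?_, fun h4 => ?_⟩
    · rw [h8, zero_mul, sub_zero] at h7
      exact (mul_eq_zero.1 h7).resolve_right h1
    · rw [h6, qt_mk hA hB h5, div_eq_div_iff h1 h4]
      linear_combination -h7

theorem HasValue.tendsto {F : ℂ → PN N} {z₀ : ℂ} (hF : HolomorphicInto F {z₀}) (hU : ∀ᶠ z in 𝓝 z₀, F z ∈ projVar P) (hA : A.IsHomogeneous D)
    (hB : B.IsHomogeneous D) (hne : ∃ᶠ z in 𝓝[≠] z₀, ¬ VanishesAt B (F z)) {s t : ℂ} (h : HasValue P A B (F z₀) s t) (ht : t ≠ 0) :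
    Tendsto (fun z => qt A B (F z)) (𝓝[≠] z₀) (𝓝 (s / t)) := by
  obtain ⟨α, β, hα, hβ, hne', hst, hq⟩ := h.local hF hU hA hB hne
  have hβ0 : β z₀ ≠ 0 := by
    intro h0
    apply hne'
    rw [h0, zero_mul] at hst
    exact ⟨(mul_eq_zero.1 hst).resolve_right ht, h0⟩
  have h1 : Tendsto (fun z => α z / β z) (𝓝[≠] z₀) (𝓝 (s / t)) := by
    have h2 := (hα.div hβ hβ0).continuousAt.tendsto.mono_left (nhdsWithin_le_nhds (s := {z₀}ᶜ))
    have h3 : (α / β) z₀ = s / t := by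
      rw [Pi.div_apply, div_eq_div_iff hβ0 ht, hst, mul_comm]
    rwa [h3] at h2
  refine h1.congr' ?_
  filter_upwards [hq, nhdsWithin_le_nhds (hβ.continuousAt.eventually_ne hβ0)] with z h2 h3
  exact (h2.2 h3).symm

theorem HasValue.tendsto_cobounded {F : ℂ → PN N} {z₀ : ℂ} (hF : HolomorphicInto F {z₀}) (hU : ∀ᶠ z in 𝓝 z₀, F z ∈ projVar P)
    (hA : A.IsHomogeneous D) (hB : B.IsHomogeneous D) (hne : ∃ᶠ z in 𝓝[≠] z₀, ¬ VanishesAt B (F z)) {s : ℂ} (hs : s ≠ 0)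
    (h : HasValue P A B (F z₀) s 0) : Tendsto (fun z => qt A B (F z)) (𝓝[≠] z₀) (Bornology.cobounded ℂ) := by
  obtain ⟨α, β, hα, hβ, hne', hst, hq⟩ := h.local hF hU hA hB hne
  have hβ0 : β z₀ = 0 := by
    rw [mul_zero] at hst
    exact (mul_eq_zero.1 hst.symm).resolve_right hs
  have hα0 : α z₀ ≠ 0 := fun h0 => hne' ⟨h0, hβ0⟩
  have hαz : ∀ᶠ z in 𝓝[≠] z₀, α z ≠ 0 := nhdsWithin_le_nhds (hα.continuousAt.eventually_ne hα0)
  have h1 : Tendsto (fun z => β z / α z) (𝓝[≠] z₀) (𝓝[≠] 0) := by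
    rw [tendsto_nhdsWithin_iff]
    constructor
    · have h2 := (hβ.div hα hα0).continuousAt.tendsto.mono_left (nhdsWithin_le_nhds (s := {z₀}ᶜ))
      have h3 : (β / α) z₀ = 0 := by rw [Pi.div_apply, hβ0, zero_div]
      rwa [h3] at h2
    · filter_upwards [hq, hαz] with z h2 h3
      exact div_ne_zero (fun h4 => h3 (h2.1 h4)) h3
  refine (Filter.tendsto_inv₀_nhdsNE_zero.comp h1).congr' ?_
  filter_upwards [hq, hαz] with z h2 h3
  rw [h2.2 fun h4 => h3 (h2.1 h4), Function.comp_apply, inv_div]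

/-- convergence of the quotients -/
theorem qt_unif (hA : A.IsHomogeneous D) (hB : B.IsHomogeneous D) {l : Filter ℕ} {F : ℕ → ℂ → PN N} {f : ℂ → PN N} {z₀ : ℂ} (h : ConvPN l F f z₀)
    (hz₀ : ¬ VanishesAt B (f z₀)) : ∃ r > 0, DifferentiableOn ℂ (fun z => qt A B (f z)) (ball z₀ r) ∧ (∀ z ∈ ball z₀ r, ¬ VanishesAt B (f z)) ∧
      (∀ᶠ n in l, ∀ z ∈ ball z₀ r, ¬ VanishesAt B (F n z)) ∧
      ∀ ε : ℝ, 0 < ε → ∀ᶠ n in l, ∀ z ∈ ball z₀ r, ‖qt A B (F n z) - qt A B (f z)‖ < ε := by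
  obtain ⟨s, Φ, Φ₀, hs, hΦ, hΦ₀, hf, hlim⟩ := h
  obtain ⟨h0, hf0⟩ := hf z₀ (mem_ball_self hs)
  have hB0 : eval (Φ₀ z₀) B ≠ 0 := by
    intro h1
    apply hz₀
    rw [hf0, vanishesAt_mk_iff hB _ h0]
    exact h1
  have hcB : Continuous fun x : Fin (N + 1) → ℂ => eval x B := MvPolynomial.continuous_eval B
  have hcA : Continuous fun x : Fin (N + 1) → ℂ => eval x A := MvPolynomial.continuous_eval A
  have hcont : ContinuousAt Φ₀ z₀ := hΦ₀.continuousOn.continuousAt (ball_mem_nhds z₀ hs)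
  have h1 : ∀ᶠ z in 𝓝 z₀, ‖eval (Φ₀ z₀) B‖ / 2 < ‖eval (Φ₀ z) B‖ :=
    (hcB.continuousAt.comp hcont).norm.eventually_const_lt (show ‖eval (Φ₀ z₀) B‖ / 2 < ‖eval (Φ₀ z₀) B‖ by
      have := norm_pos_iff.2 hB0
      linarith)
  obtain ⟨r₁, hr₁, hb⟩ := Metric.eventually_nhds_iff_ball.1 (h1.and (ball_mem_nhds z₀ hs))
  have hr : 0 < r₁ / 2 := by positivity
  have hsub : closedBall z₀ (r₁ / 2) ⊆ ball z₀ r₁ := closedBall_subset_ball (by linarith)
  have hsub' : ball z₀ r₁ ⊆ ball z₀ s := fun z hz => (hb z hz).2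
  have hne : ∀ z ∈ ball z₀ r₁, eval (Φ₀ z) B ≠ 0 := fun z hz h2 => by
    have h3 := (hb z hz).1
    rw [h2, norm_zero] at h3
    have := norm_nonneg (eval (Φ₀ z₀) B)
    linarith
  have hlimB : TendstoLocallyUniformlyOn (fun n z => eval (Φ n z) B) (fun z => eval (Φ₀ z) B) l (ball z₀ r₁) :=
    tlu_comp (hlim.mono hsub') (hΦ₀.continuousOn.mono hsub') fun x _ => hcB.continuousAt
  have hlimQ : TendstoLocallyUniformlyOn (fun n z => eval (Φ n z) A / eval (Φ n z) B) (fun z => eval (Φ₀ z) A / eval (Φ₀ z) B) l (ball z₀ r₁) :=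
    tlu_comp (p := fun x : Fin (N + 1) → ℂ => eval x A / eval x B) (hlim.mono hsub') (hΦ₀.continuousOn.mono hsub') fun x hx =>
      hcA.continuousAt.div hcB.continuousAt (hne x hx)
  have hKB := Metric.tendstoUniformlyOn_iff.1 ((tendstoLocallyUniformlyOn_iff_tendstoUniformlyOn_of_compact (isCompact_closedBall z₀ (r₁ / 2))).1
    (hlimB.mono hsub)) (‖eval (Φ₀ z₀) B‖ / 2) (by have := norm_pos_iff.2 hB0; positivity)
  have hKQ := Metric.tendstoUniformlyOn_iff.1 ((tendstoLocallyUniformlyOn_iff_tendstoUniformlyOn_of_compact (isCompact_closedBall z₀ (r₁ / 2))).1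
    (hlimQ.mono hsub))
  have hval : ∀ z ∈ ball z₀ (r₁ / 2), qt A B (f z) = eval (Φ₀ z) A / eval (Φ₀ z) B := fun z hz => by
    obtain ⟨h2, h3⟩ := hf z (hsub' (hsub (ball_subset_closedBall hz)))
    rw [h3, qt_mk hA hB h2]
  refine ⟨r₁ / 2, hr, ?_, fun z hz => ?_, ?_, fun ε hε => ?_⟩
  · refine DifferentiableOn.congr (f := fun z => eval (Φ₀ z) A / eval (Φ₀ z) B) (fun z hz => ?_) hval
    have hz' := hsub (ball_subset_closedBall hz)
    have h2 : AnalyticAt ℂ Φ₀ z := hΦ₀.analyticAt (isOpen_ball.mem_nhds (hsub' hz'))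
    exact ((analyticAt_form h2 A).div (analyticAt_form h2 B) (hne z hz')).differentiableAt.differentiableWithinAt
  · have hz' := hsub (ball_subset_closedBall hz)
    obtain ⟨h2, h3⟩ := hf z (hsub' hz')
    rw [h3, vanishesAt_mk_iff hB _ h2]
    exact hne z hz'
  · filter_upwards [hKB, hΦ] with n h2 h3 z hz
    have hz' := hsub (ball_subset_closedBall hz)
    obtain ⟨h4, h5⟩ := h3.2 z (hsub' hz')
    rw [h5, vanishesAt_mk_iff hB _ h4]
    intro h6
    have h7 := h2 z (ball_subset_closedBall hz)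
    rw [h6, dist_zero_right] at h7
    linarith [(hb z hz').1]
  · filter_upwards [hKQ ε hε, hΦ] with n h2 h3 z hz
    have hz' := hsub (ball_subset_closedBall hz)
    obtain ⟨h4, h5⟩ := h3.2 z (hsub' hz')
    have h7 := h2 z (ball_subset_closedBall hz)
    rw [dist_eq_norm, ← hval z hz] at h7
    rw [h5, qt_mk hA hB h4, norm_sub_rev]
    exact h7

end Pool.Agent.H46.LR

end
end
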