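import Pool.Agent.H94.CB.H14.PP.Defs
import Pool.Agent.H94.CB.H62.EF.Defs
import Pool.Agent.H94.CB.M01

/-! The parts of this file: H15.V.LiouA, H5.BD.ADef, H5.BD.CDef, H62.EF.Defs_1, H62.EF.SecL, H62.EF.Core. -/

section

/-!
# V LiouA: averages over finitely many rotations

For a continuous function `φ` the averages over the rotations by multiples of `2π/N` tend to the averages over circles, uniformly on discs.
-/

set_option autoImplicit false

open Topology Filter Metric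

namespace Pool.Agent.H15.V

attribute [-instance] ProperSMul.toContinuousSMul

/-- rotation by `2π j / N` -/
noncomputable def rot (N j : ℕ) : ℂ := Complex.exp (((2 * Real.pi * j / N : ℝ) : ℂ) * Complex.I)

theorem norm_rot (N j : ℕ) : ‖rot N j‖ = 1 := Complex.norm_exp_ofReal_mul_I _

theorem circleAverage_eq_rot (φ : ℂ → ℝ) (z : ℂ) :
    Real.circleAverage φ 0 ‖z‖ = (2 * Real.pi)⁻¹ * ∫ θ in (0 : ℝ)..2 * Real.pi, φ (z * Complex.exp ((θ : ℂ) * Complex.I)) := by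
  rw [Real.circleAverage_eq_integral_add (Complex.arg z), smul_eq_mul]
  congr 1
  refine intervalIntegral.integral_congr fun θ _ => ?_
  show φ (circleMap 0 ‖z‖ (θ + Complex.arg z)) = φ (z * Complex.exp ((θ : ℂ) * Complex.I))
  congr 1
  rw [circleMap_zero]
  push_cast
  rw [add_mul, Complex.exp_add]
  have h := Complex.norm_mul_exp_arg_mul_I z
  calc (‖z‖ : ℂ) * (Complex.exp (↑θ * Complex.I) * Complex.exp (↑(Complex.arg z) * Complex.I))
      = ((‖z‖ : ℂ) * Complex.exp (↑(Complex.arg z) * Complex.I)) * Complex.exp (↑θ * Complex.I) := by ring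
    _ = z * Complex.exp (↑θ * Complex.I) := by rw [h]

theorem exp_sub_le (a b : ℝ) : ‖Complex.exp ((a : ℂ) * Complex.I) - Complex.exp ((b : ℂ) * Complex.I)‖ ≤ |a - b| := by
  have h1 : Complex.exp ((a : ℂ) * Complex.I) - Complex.exp ((b : ℂ) * Complex.I) =
      Complex.exp ((b : ℂ) * Complex.I) * (Complex.exp (Complex.I * ((a - b : ℝ) : ℂ)) - 1) := by
    rw [mul_sub, ← Complex.exp_add, mul_one]
    congr 2
    push_cast
    ring
  rw [h1, norm_mul, Complex.norm_exp_ofReal_mul_I, one_mul]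
  exact (Real.norm_exp_I_mul_ofReal_sub_one_le).trans (by rw [Real.norm_eq_abs])

theorem riemann {φ : ℂ → ℝ} (hφ : Continuous φ) {r δ : ℝ} (hr : 0 < r) (hδ : 0 < δ) :
    ∃ N : ℕ, 1 ≤ N ∧ ∀ z : ℂ, ‖z‖ ≤ r →
      |(N : ℝ)⁻¹ * ∑ j ∈ Finset.range N, φ (rot N j * z) - Real.circleAverage φ 0 ‖z‖| ≤ δ := by
  have huc : UniformContinuousOn φ (closedBall 0 r) := (isCompact_closedBall 0 r).uniformContinuousOn_of_continuous hφ.continuousOn
  rw [Metric.uniformContinuousOn_iff_le] at huc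
  obtain ⟨η, hη, hη2⟩ := huc δ hδ
  obtain ⟨N, hN⟩ := exists_nat_gt (r * (2 * Real.pi) / η)
  have hN0 : (0 : ℝ) < N := lt_trans (by positivity) hN
  have hN1 : 1 ≤ N := by
    rcases Nat.eq_zero_or_pos N with h | h
    · rw [h] at hN0; simp at hN0
    · exact h
  refine ⟨N, hN1, fun z hz => ?_⟩
  rw [circleAverage_eq_rot]
  obtain ⟨a, ha⟩ : ∃ a : ℕ → ℝ, ∀ j, a j = 2 * Real.pi * j / N := ⟨_, fun _ => rfl⟩
  have ha0 : a 0 = 0 := by rw [ha]; simp
  have haN : a N = 2 * Real.pi := by rw [ha]; field_simp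
  have hstep : ∀ j, a (j + 1) - a j = 2 * Real.pi / N := by
    intro j
    rw [ha, ha]
    push_cast
    ring
  have hc : Continuous fun θ : ℝ => φ (z * Complex.exp ((θ : ℂ) * Complex.I)) := by fun_prop
  have hsum : ∫ θ in (0 : ℝ)..2 * Real.pi, φ (z * Complex.exp ((θ : ℂ) * Complex.I)) =
      ∑ j ∈ Finset.range N, ∫ θ in (a j)..(a (j + 1)), φ (z * Complex.exp ((θ : ℂ) * Complex.I)) := by
    rw [intervalIntegral.sum_integral_adjacent_intervals fun j _ => hc.intervalIntegrable _ _, ha0, haN]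
  have hpiece : ∀ j ∈ Finset.range N, |(2 * Real.pi / N) * φ (rot N j * z) -
      ∫ θ in (a j)..(a (j + 1)), φ (z * Complex.exp ((θ : ℂ) * Complex.I))| ≤ δ * (2 * Real.pi / N) := by
    intro j hj
    have h1 : (2 * Real.pi / N) * φ (rot N j * z) = ∫ _ in (a j)..(a (j + 1)), φ (rot N j * z) := by
      rw [intervalIntegral.integral_const, hstep, smul_eq_mul]
    rw [h1, ← intervalIntegral.integral_sub intervalIntegrable_const (hc.intervalIntegrable _ _)]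
    have hle : a j ≤ a (j + 1) := by
      have := hstep j
      have h2 : 0 < 2 * Real.pi / N := by positivity
      linarith
    have h2 := intervalIntegral.norm_integral_le_of_norm_le_const (a := a j) (b := a (j + 1))
      (f := fun θ : ℝ => φ (rot N j * z) - φ (z * Complex.exp ((θ : ℂ) * Complex.I))) (C := δ) ?_
    · rw [hstep, abs_of_pos (by positivity)] at h2
      rwa [Real.norm_eq_abs] at h2
    · intro θ hθ
      rw [Set.uIoc_of_le hle] at hθ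
      rw [Real.norm_eq_abs, ← Real.dist_eq]
      have hn : ∀ t : ℝ, ‖z * Complex.exp ((t : ℂ) * Complex.I)‖ ≤ r := fun t => by
        rw [norm_mul, Complex.norm_exp_ofReal_mul_I, mul_one]
        exact hz
      refine hη2 _ ?_ _ ?_ ?_
      · rw [mem_closedBall_zero_iff, norm_mul, norm_rot, one_mul]
        exact hz
      · rw [mem_closedBall_zero_iff]
        exact hn θ
      · have hrot : rot N j = Complex.exp ((a j : ℂ) * Complex.I) := by rw [ha, rot]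
        rw [hrot, dist_eq_norm, mul_comm (Complex.exp _) z, ← mul_sub, norm_mul]
        have h3 := exp_sub_le (a j) θ
        have h4 : |a j - θ| ≤ 2 * Real.pi / N := by
          have := hstep j
          rw [abs_le]
          constructor <;> linarith [hθ.1, hθ.2]
        calc ‖z‖ * ‖Complex.exp ((a j : ℂ) * Complex.I) - Complex.exp ((θ : ℂ) * Complex.I)‖
            ≤ r * (2 * Real.pi / N) := mul_le_mul hz (h3.trans h4) (norm_nonneg _) hr.le
          _ ≤ η := by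
            rw [div_lt_iff₀ hη] at hN
            rw [← mul_div_assoc, div_le_iff₀ hN0]
            linarith
  have hpos : (0 : ℝ) < 2 * Real.pi := by positivity
  have htot : |(2 * Real.pi / N) * ∑ j ∈ Finset.range N, φ (rot N j * z) -
      ∫ θ in (0 : ℝ)..2 * Real.pi, φ (z * Complex.exp ((θ : ℂ) * Complex.I))| ≤ δ * (2 * Real.pi) := by
    rw [hsum, Finset.mul_sum, ← Finset.sum_sub_distrib]
    refine (Finset.abs_sum_le_sum_abs _ _).trans ((Finset.sum_le_sum hpiece).trans ?_)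
    rw [Finset.sum_const, Finset.card_range, nsmul_eq_mul]
    apply le_of_eq
    field_simp
  have hfin : (N : ℝ)⁻¹ * ∑ j ∈ Finset.range N, φ (rot N j * z) -
      (2 * Real.pi)⁻¹ * ∫ θ in (0 : ℝ)..2 * Real.pi, φ (z * Complex.exp ((θ : ℂ) * Complex.I)) =
      (2 * Real.pi)⁻¹ * ((2 * Real.pi / N) * ∑ j ∈ Finset.range N, φ (rot N j * z) -
        ∫ θ in (0 : ℝ)..2 * Real.pi, φ (z * Complex.exp ((θ : ℂ) * Complex.I))) := by
    rw [mul_sub, ← mul_assoc]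
    congr 2
    field_simp
  rw [hfin, abs_mul, abs_of_pos (inv_pos.2 hpos)]
  calc (2 * Real.pi)⁻¹ * _ ≤ (2 * Real.pi)⁻¹ * (δ * (2 * Real.pi)) := mul_le_mul_of_nonneg_left htot (inv_pos.2 hpos).le
    _ = δ := by field_simp

/-- the average over a circle does not change under rotations -/
theorem circleAverage_rot (φ : ℂ → ℝ) (N j : ℕ) {r : ℝ} (hr : 0 ≤ r) :
    Real.circleAverage (fun z => φ (rot N j * z)) 0 r = Real.circleAverage φ 0 r := by
  have h1 := circleAverage_eq_rot φ (rot N j * r)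
  have h2 := circleAverage_eq_rot (fun z => φ (rot N j * z)) (r : ℂ)
  rw [Complex.norm_real, Real.norm_eq_abs, abs_of_nonneg hr] at h2
  rw [norm_mul, norm_rot, one_mul, Complex.norm_real, Real.norm_eq_abs, abs_of_nonneg hr] at h1
  rw [h1, h2]
  congr 1
  refine intervalIntegral.integral_congr fun θ _ => ?_
  show φ (rot N j * (r * _)) = φ (rot N j * r * _)
  rw [mul_assoc]

end Pool.Agent.H15.V

end

section

/-!
# Project BD, abstract part: definitions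

`S` is a family of maps `ev f : ℂ → Y` (`f ∈ S`), closed under translations and limits, uniformly bi-Lipschitz on discs of radius `4 r₂`.
`Z` is a closed subset of `Y`.  The plaque of `f` at `w` is the image of `closedBall w r₂`.  `ρ f w g z` is a measure for the distance of the point
`ev g z` to the plaque of `f` at `w`, which is compared with holomorphic functions: it satisfies a local maximum principle with a Gaussian weight.
-/

set_option autoImplicit false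

open Topology Filter Metric

namespace Pool.Agent.H5.BD

attribute [-instance] ProperSMul.toContinuousSMul

variable {Y ι : Type} [MetricSpace Y]

/-- the plaque of `f` at `w` -/
def Pl (ev : ι → ℂ → Y) (r₂ : ℝ) (f : ι) (w : ℂ) : Set Y := ev f '' closedBall w r₂

/-- near `z₀` the curve `g` follows the curve `f`: `ev g z` is near `ev f (φ z)` -/
def FolAt (ev : ι → ℂ → Y) (r₂ s ε : ℝ) (f g : ι) (z₀ : ℂ) (φ : ℂ → ℂ) : Prop :=
  ∀ z ∈ closedBall z₀ s, dist (ev g z) (ev f (φ z)) ≤ ε ∧ ‖φ z - φ z₀‖ ≤ r₂ / 4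

/-- a family of uniformly bi-Lipschitz maps with a local maximum principle for the distance of two plaques -/
structure BFlow (S : Set ι) (ev : ι → ℂ → Y) (Z : Set Y) (ρ : ι → ℂ → ι → ℂ → ℝ) (L c r₂ r₃ κ : ℝ) : Prop where
  L_pos : 0 < L
  c_pos : 0 < c
  r₂_pos : 0 < r₂
  r₃_pos : 0 < r₃
  κ_pos : 0 < κ
  lip : ∀ f ∈ S, ∀ z w, dist (ev f z) (ev f w) ≤ L * ‖z - w‖
  emb : ∀ f ∈ S, ∀ z w, ‖z - w‖ ≤ 4 * r₂ → c * ‖z - w‖ ≤ dist (ev f z) (ev f w)
  trans : ∀ f ∈ S, ∀ a : ℂ, ∃ f' ∈ S, ∀ z, ev f' z = ev f (z + a)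
  lim : ∀ (𝒰 : Ultrafilter ℕ), (𝒰 : Filter ℕ) ≤ atTop → ∀ F : ℕ → ι, (∀ᶠ n in (𝒰 : Filter ℕ), F n ∈ S) →
    ∃ f ∈ S, ∀ z, Tendsto (fun n => ev (F n) z) 𝒰 (𝓝 (ev f z))
  closed : IsClosed Z
  dense : ∀ f ∈ S, (∀ z, ev f z ∈ Z) ∨ ∀ z₀, ∀ᶠ z in 𝓝[≠] z₀, ev f z ∉ Z
  bdd : ∃ B ε : ℝ, 0 ≤ B ∧ 0 < ε ∧ ∀ f ∈ S, ∀ g ∈ S, ∀ w z, dist (ev g z) (ev f w) ≤ ε → 0 ≤ ρ f w g z ∧ ρ f w g z ≤ B
  loc : ∀ s, 0 < s → s ≤ r₃ → ∃ θ ε : ℝ, 0 ≤ θ ∧ θ < 1 ∧ 0 < ε ∧ ∀ f ∈ S, ∀ g ∈ S, ∀ z₀ φ, FolAt ev r₂ s ε f g z₀ φ → ∀ a : ℂ,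
    ∃ z ∈ closedBall z₀ s, ρ f (φ z₀) g z₀ * Real.exp (-κ * ‖z₀ - a‖ ^ 2) ≤ θ * (ρ f (φ z) g z * Real.exp (-κ * ‖z - a‖ ^ 2))
  small : ∀ s, 0 < s → s ≤ r₃ → ∃ ε : ℝ, 0 < ε ∧ ∀ η : ℝ, 0 < η → ∃ δ : ℝ, 0 < δ ∧ ∀ f ∈ S, ∀ g ∈ S, ∀ z₀ φ,
    FolAt ev r₂ s ε f g z₀ φ → ρ f (φ z₀) g z₀ ≤ δ → (∃ y ∈ Z, dist (ev g z₀) y ≤ η) ∨ ∃ w ∈ closedBall (φ z₀) r₂, dist (ev g z₀) (ev f w) ≤ η
  ident : ∃ ε : ℝ, 0 < ε ∧ ∀ f ∈ S, ∀ g ∈ S, ∀ z₀ w₀, dist (ev g z₀) (ev f w₀) ≤ ε → ∀ z₁ ∈ closedBall z₀ r₃,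
    (∃ᶠ z in 𝓝[≠] z₁, ev g z ∈ Pl ev r₂ f w₀) → ∀ z ∈ closedBall z₀ r₃, ev g z ∈ Pl ev r₂ f w₀
  iso : ∀ g ∈ S, (∀ z, ev g z ∈ Z) → ∀ η : ℝ, 0 < η → ∃ z₁ : ℂ, ‖z₁‖ < η ∧ ∀ η' : ℝ, 0 < η' → ∃ δ : ℝ, 0 < δ ∧ ∀ f ∈ S, (∀ z, ev f z ∈ Z) →
    ∀ w, dist (ev f w) (ev g z₁) < δ → ∃ z', ‖z' - z₁‖ < η' ∧ ev f w = ev g z'

/-- `g` is `f` up to a change of the variable -/
def Rel (ev : ι → ℂ → Y) (r₂ r : ℝ) (f g : ι) : Prop :=
  ∃ ψ : ℂ → ℂ, (∀ z, ev g z = ev f (ψ z)) ∧ (∀ z z', ‖z - z'‖ ≤ r → ‖ψ z - ψ z'‖ ≤ r₂) ∧ ‖ψ 0‖ ≤ r₂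

/-- on the disc of radius `R` the curve `g` follows the curve `f` -/
structure Fol (ev : ι → ℂ → Y) (r₂ r ε R : ℝ) (f g : ι) (φ : ℂ → ℂ) : Prop where
  close : ∀ z ∈ ball (0 : ℂ) R, dist (ev g z) (ev f (φ z)) ≤ ε
  cont : ∀ z ∈ ball (0 : ℂ) R, ∀ z' ∈ ball (0 : ℂ) R, ‖z - z'‖ ≤ r → ‖φ z - φ z'‖ ≤ r₂ / 4
  zero : φ 0 = 0

/-- the conditions on the constants `r` and `ε` -/
structure Cst (L c r₂ r₃ r ε : ℝ) : Prop where
  r_pos : 0 < r
  ε_pos : 0 < ε
  r_le : r ≤ r₂ / 4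
  r_le₃ : r ≤ r₃
  hr : 32 * (L * r) ≤ c * r₂
  hε : 64 * ε ≤ c * r₂

theorem Fol.folAt {ev : ι → ℂ → Y} {r₂ r ε R : ℝ} {f g : ι} {φ : ℂ → ℂ} (h : Fol ev r₂ r ε R f g φ) {z₀ : ℂ} {s : ℝ} (hs : s ≤ r) (hs0 : 0 ≤ s)
    (hz : ‖z₀‖ + s < R) {ε' : ℝ} (hε : ε ≤ ε') : FolAt ev r₂ s ε' f g z₀ φ := by
  intro z hz'
  rw [mem_closedBall, dist_eq_norm] at hz'
  have h0 : z₀ ∈ ball (0 : ℂ) R := by rw [mem_ball_zero_iff]; linarith
  have h1 : z ∈ ball (0 : ℂ) R := by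
    rw [mem_ball_zero_iff]
    have : ‖z‖ ≤ ‖z - z₀‖ + ‖z₀‖ := by simpa using norm_add_le (z - z₀) z₀
    linarith
  exact ⟨(h.close z h1).trans hε, h.cont z h1 z₀ h0 (hz'.trans hs)⟩

/-- the entire curves of `S` are continuous -/
theorem BFlow.continuous {S : Set ι} {ev : ι → ℂ → Y} {Z : Set Y} {ρ : ι → ℂ → ι → ℂ → ℝ} {L c r₂ r₃ κ : ℝ}
    (h : BFlow S ev Z ρ L c r₂ r₃ κ) {f : ι} (hf : f ∈ S) : Continuous (ev f) :=
  (LipschitzWith.of_dist_le_mul (K := L.toNNReal) fun z w => by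
    rw [Real.coe_toNNReal _ h.L_pos.le, dist_eq_norm z w]
    exact h.lip f hf z w).continuous

end Pool.Agent.H5.BD

end

section

/-!
# Project BD, local analysis: definitions

`X` is the cone of a smooth projective surface.  `BC X c L` is the family of the entire curves whose Fubini-Study derivative is between `c` and `L`.
-/

set_option autoImplicit false

open Topology Filter Metric

namespace Pool.Agent.H5.BD

attribute [-instance] ProperSMul.toContinuousSMul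

open Pool.Agent.H36.BP (EN fs wd)
open Pool.Agent.H14.PP (IsCone Chart Form Tan jac)
open Pool.Agent.H62.EF (MN pr det2)

variable {N : ℕ}

/-- the entire curves (lifts to the cone) with bounded distortion -/
def BC (X : Set (EN N)) (c L : ℝ) : Set (ℂ → EN N) :=
  {F | Differentiable ℂ F ∧ (∀ z, F z ∈ X) ∧ ∀ z, c ≤ fs (F z) (deriv F z) ∧ fs (F z) (deriv F z) ≤ L}

/-- the curve in the projective space -/
noncomputable def evp (F : ℂ → EN N) (z : ℂ) : MN N := pr (F z)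

/-- `x` is in the middle of the chart -/
def Good {X : Set (EN N)} (χ : Chart X) (x : EN N) : Prop := x ∈ X ∧ x ∈ χ.U ∧ ‖χ.q x‖ ≤ 1 / 2

/-- a finite atlas with a Lebesgue number `δ`, and a bound `C` for the charts and the changes of charts -/
structure Atlas (X : Set (EN N)) where
  n : ℕ
  χ : Fin n → Chart X
  idx : MN N → Fin n
  δ : ℝ
  C : ℝ
  δ_pos : 0 < δ
  one_le : 1 ≤ C
  good : ∀ x ∈ X, ∀ y ∈ X, dist (pr x) (pr y) ≤ δ → Good (χ (idx (pr x))) y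
  dist_le : ∀ i x y, Good (χ i) x → Good (χ i) y → dist (pr x) (pr y) ≤ C * ‖(χ i).q x - (χ i).q y‖
  le_dist : ∀ i x y, Good (χ i) x → Good (χ i) y → ‖(χ i).q x - (χ i).q y‖ ≤ C * dist (pr x) (pr y)
  fd_le : ∀ i j x, Good (χ i) x → Good (χ j) x → ‖fderiv ℂ (fun p => (χ j).q ((χ i).σ p)) ((χ i).q x)‖ ≤ C
  jac_ge : ∀ i j x, Good (χ i) x → Good (χ j) x → 1 ≤ C * ‖jac (fun p => (χ j).q ((χ i).σ p)) ((χ i).q x)‖
  trans : ∀ i j x y, Good (χ i) x → Good (χ j) x → Good (χ i) y → Good (χ j) y →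
    ‖(χ j).q y - (χ j).q x - fderiv ℂ (fun p => (χ j).q ((χ i).σ p)) ((χ i).q x) ((χ i).q y - (χ i).q x)‖ ≤
      C * ‖(χ i).q y - (χ i).q x‖ ^ 2

/-- the curve `F` in the chart `i` -/
noncomputable def qc {X : Set (EN N)} (A : Atlas X) (i : Fin A.n) (F : ℂ → EN N) (z : ℂ) : ℂ × ℂ := (A.χ i).q (F z)

/-- uniform bounds for the curves of `BC X c L` in the charts of the atlas, on discs of radius `r₀` -/
structure LC {X : Set (EN N)} (A : Atlas X) (c L r₀ c₁ K : ℝ) : Prop where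
  r₀_pos : 0 < r₀
  c₁_pos : 0 < c₁
  one_le : 1 ≤ K
  L_pos : 0 < L
  lip : ∀ F ∈ BC X c L, ∀ z w, dist (pr (F z)) (pr (F w)) ≤ 2 * L * ‖z - w‖
  good : ∀ F ∈ BC X c L, ∀ x ∈ X, ∀ w₀, dist (pr x) (pr (F w₀)) ≤ A.δ / 2 → ∀ w ∈ ball w₀ r₀, Good (A.χ (A.idx (pr x))) (F w)
  an : ∀ F ∈ BC X c L, ∀ i w, Good (A.χ i) (F w) → AnalyticAt ℂ (qc A i F) w
  der_ge : ∀ F ∈ BC X c L, ∀ i w, Good (A.χ i) (F w) → c₁ ≤ ‖deriv (qc A i F) w‖
  der_le : ∀ F ∈ BC X c L, ∀ i w, Good (A.χ i) (F w) → ‖deriv (qc A i F) w‖ ≤ K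
  der_lip : ∀ F ∈ BC X c L, ∀ i w₀, (∀ w ∈ ball w₀ r₀, Good (A.χ i) (F w)) → ∀ w ∈ ball w₀ (r₀ / 2), ∀ w' ∈ ball w₀ (r₀ / 2),
    ‖deriv (qc A i F) w - deriv (qc A i F) w'‖ ≤ K * ‖w - w'‖

/-- one of the two coordinates -/
def co (e : Bool) (p : ℂ × ℂ) : ℂ := if e = true then p.1 else p.2

/-- in the chart `i` the points `F (ψ z)` (near `F w₀`) and `G z` (near `G z₀`) have the same coordinate `co e` -/
structure Match {X : Set (EN N)} (A : Atlas X) (r₂ r₃ K : ℝ) (F G : ℂ → EN N) (i : Fin A.n) (w₀ z₀ : ℂ) (e : Bool) (ψ : ℂ → ℂ) : Prop where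
  hol : DifferentiableOn ℂ ψ (ball z₀ (2 * r₃))
  mem : ∀ z ∈ ball z₀ (2 * r₃), ψ z ∈ closedBall w₀ r₂
  eq : ∀ z ∈ ball z₀ (2 * r₃), co e (qc A i F (ψ z)) = co e (qc A i G z)
  goodF : ∀ w ∈ closedBall w₀ (2 * r₂), Good (A.χ i) (F w)
  goodG : ∀ z ∈ ball z₀ (2 * r₃), Good (A.χ i) (G z)
  near : ∀ z ∈ ball z₀ (2 * r₃), ∀ w ∈ closedBall w₀ (2 * r₂), ‖w - ψ z‖ ≤ K * ‖qc A i F w - qc A i G z‖
  coF : ∀ w ∈ closedBall w₀ (2 * r₂), 1 ≤ K * ‖co e (deriv (qc A i F) w)‖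

/-- the constants of the matching -/
structure MC {X : Set (EN N)} (A : Atlas X) (c L r₀ c₁ K₀ r₂ r₃ ε₃ K : ℝ) : Prop where
  lc : LC A c L r₀ c₁ K₀
  r₂_pos : 0 < r₂
  r₃_pos : 0 < r₃
  ε₃_pos : 0 < ε₃
  le_K : K₀ ≤ K
  r₂_le : 8 * r₂ ≤ r₀
  r₃_le : 4 * r₃ ≤ r₀
  r₃_le₂ : r₃ ≤ r₂
  emb : ∀ F ∈ BC X c L, ∀ z w, ‖z - w‖ ≤ 4 * r₂ → K⁻¹ * ‖z - w‖ ≤ dist (pr (F z)) (pr (F w))
  matching : ∀ F ∈ BC X c L, ∀ G ∈ BC X c L, ∀ w₀ z₀, dist (pr (G z₀)) (pr (F w₀)) ≤ ε₃ →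
    ∃ e ψ, Match A r₂ r₃ K F G (A.idx (pr (F w₀))) w₀ z₀ e ψ

/-- the holomorphic function which measures the distance of `G z` to the plaque of `F` -/
noncomputable def Dm {X : Set (EN N)} (A : Atlas X) (F G : ℂ → EN N) (i : Fin A.n) (ψ : ℂ → ℂ) (z : ℂ) : ℂ :=
  det2 (qc A i F (ψ z) - qc A i G z) (deriv (qc A i G) z)

end Pool.Agent.H5.BD

end

section

/-!
# EF Defs: surfaces with a holomorphic map to an elliptic curve

`X` is the cone (without `0`) of a smooth projective surface, in `EN N = ℂ^(N+1)` with the Euclidean norm.  The map to `ℂ / Λ` is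
given by a function `u : EN N → ℂ` which is holomorphic modulo `Λ`.  `pr x` is the orthogonal projection to the line of `x`, a
matrix: in this way the projective space is a compact subset of a Euclidean space.
-/

set_option autoImplicit false

open Topology Filter Metric

namespace Pool.Agent.H62.EF

attribute [-instance] ProperSMul.toContinuousSMul

open Pool.Agent.H36.BP (EN fs wd)

variable {N : ℕ}

/-- the entire curves (lifts to the cone) with `u (F z) = z` modulo `Λ` -/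
def Sec (X : Set (EN N)) (Λ : AddSubgroup ℂ) (u : EN N → ℂ) : Set (ℂ → EN N) :=
  {F | Differentiable ℂ F ∧ (∀ z, F z ∈ X) ∧ ∀ z, u (F z) - z ∈ Λ}

end Pool.Agent.H62.EF

end

section

/-!
# EF SecL: the family of the sections

* `sec_trans`: clear.
* `sec_lip`: `pr_lipschitz` with `U = univ`.
* `sec_uniq`: near `z₀` all minors `F_i G_j - F_j G_i` vanish (`pr_eq_iff`), they are entire, so they vanish everywhere; `F z ≠ 0`, `G z ≠ 0`, so
  `F z` and `G z` are proportional and `pr (F z) = pr (G z)`.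
* `sec_lim`: `limit_curves` with `ρ n = n` (or any sequence which tends to infinity) gives `G` with `G z ∈ X` and `pr (F n z) → pr (G z)`.  `u (F n z) - z ∈ Λ`; by
  `TorusMap.unif` `u (G z) - z` has distance `< ε` to `Λ` for every `ε > 0`, so it is in `Λ` (`Lat.mem_of_close`).
* `isCompact_KK`: `KK` is a subset of the compact set `pr '' X`, so it is enough that it is closed (or use ultrafilters: `isCompact_iff_ultrafilter_le_nhds`; or
  sequences `IsSeqCompact`).  Let `y n = pr (F n (z n)) → y`.  Take `l n ∈ Λ` with `‖z n - l n‖ ≤ R`, `F' n z = F n (z + l n)` (`sec_trans`), `w n = z n - l n`;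
  `y n = pr (F' n (w n))`.  Along an ultrafilter on `ℕ` (`hyperfilter ℕ`) `w n → w`, `pr (F' n z) → pr (G z)` for all `z` with `G ∈ Sec`, and
  `dist (pr (F' n (w n))) (pr (F' n w)) ≤ 2 L ‖w n - w‖ → 0`, so `y = pr (G w)`.
* `KK_du`: `F z ∈ X` and `DU (F z) (F' z) 1` (`γ w = F (z + w)`, `D w = z + w`).
-/

set_option autoImplicit false

open Topology Filter Metric

namespace Pool.Agent.H62.EF

attribute [-instance] ProperSMul.toContinuousSMul

open Pool.Agent.H36.BP (EN fs wd)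

variable {N : ℕ} {X : Set (EN N)} {Λ : AddSubgroup ℂ} {u : EN N → ℂ}

theorem sec_trans {F : ℂ → EN N} (hF : F ∈ Sec X Λ u) {l : ℂ} (hl : l ∈ Λ) : (fun z => F (z + l)) ∈ Sec X Λ u := by
  obtain ⟨h1, h2, h3⟩ := hF
  refine ⟨?_, fun z => h2 _, fun z => ?_⟩
  · exact h1.comp ((differentiable_id).add_const l)
  · have h4 : u (F (z + l)) - z = (u (F (z + l)) - (z + l)) + l := by ring
    show u (F (z + l)) - z ∈ Λ
    rw [h4]
    exact Λ.add_mem (h3 _) hl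

end Pool.Agent.H62.EF

end

section

/-!
# EF Core: there are only finitely many sections
-/

set_option autoImplicit false

open Topology Filter Metric

namespace Pool.Agent.H62.EF

attribute [-instance] ProperSMul.toContinuousSMul

open Pool.Agent.H36.BP (EN fs wd)

variable {N : ℕ} {X : Set (EN N)} {Λ : AddSubgroup ℂ} {u : EN N → ℂ} {M : ℕ}

/-- the sections, as maps to the space of matrices -/
def SS (X : Set (EN N)) (Λ : AddSubgroup ℂ) (u : EN N → ℂ) : Set (ℂ → MN N) := {f | ∃ F ∈ Sec X Λ u, f = fun z => pr (F z)}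

/-- all sections are doubly periodic -/
theorem periodic (hfin : (SS X Λ u).Finite) : ∃ m : ℕ, 1 ≤ m ∧ ∀ F ∈ Sec X Λ u, ∀ l ∈ Λ, ∀ z, pr (F (z + (m : ℂ) * l)) = pr (F z) := by
  classical
  obtain ⟨s, hs⟩ := hfin.exists_finset_coe
  refine ⟨(s.card).factorial, Nat.factorial_pos _, fun F hF l hl z => ?_⟩
  -- translations by the multiples of `l`
  have hmem : ∀ k : ℕ, (fun z => pr (F (z + (k : ℂ) * l))) ∈ s := by
    intro k
    rw [← Finset.mem_coe, hs]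
    refine ⟨_, sec_trans hF (l := (k : ℂ) * l) ?_, rfl⟩
    have : (k : ℂ) * l = k • l := by simp
    rw [this]
    exact Λ.nsmul_mem hl k
  obtain ⟨i, hi, j, hj, hij, he⟩ : ∃ i ∈ Finset.range (s.card + 1), ∃ j ∈ Finset.range (s.card + 1), i ≠ j ∧
      (fun z => pr (F (z + (i : ℂ) * l))) = fun z => pr (F (z + (j : ℂ) * l)) :=
    Finset.exists_ne_map_eq_of_card_lt_of_maps_to (by simp) fun k _ => hmem k
  -- so there is a period `k * l` with `1 ≤ k ≤ card s`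
  obtain ⟨k, hk1, hk2, hk⟩ : ∃ k : ℕ, 1 ≤ k ∧ k ≤ s.card ∧ ∀ z, pr (F (z + (k : ℂ) * l)) = pr (F z) := by
    have hmain : ∀ i j : ℕ, i < j → j ≤ s.card → (fun z => pr (F (z + (i : ℂ) * l))) = (fun z => pr (F (z + (j : ℂ) * l))) →
        ∃ k : ℕ, 1 ≤ k ∧ k ≤ s.card ∧ ∀ z, pr (F (z + (k : ℂ) * l)) = pr (F z) := by
      intro i j hij hj he
      refine ⟨j - i, by omega, by omega, fun z => ?_⟩
      have h1 : pr (F (z - (i : ℂ) * l + (i : ℂ) * l)) = pr (F (z - (i : ℂ) * l + (j : ℂ) * l)) := congrFun he (z - (i : ℂ) * l)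
      rw [show z - (i : ℂ) * l + (i : ℂ) * l = z by ring] at h1
      rw [h1]
      congr 2
      push_cast [Nat.cast_sub hij.le]
      ring
    rw [Finset.mem_range] at hi hj
    rcases lt_or_gt_of_ne hij with h | h
    · exact hmain i j h (by omega) he
    · exact hmain j i h (by omega) he.symm
  obtain ⟨t, ht⟩ := Nat.dvd_factorial hk1 hk2
  have hall : ∀ (n : ℕ) z, pr (F (z + (n : ℂ) * ((k : ℂ) * l))) = pr (F z) := by
    intro n
    induction n with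
    | zero => intro z; simp
    | succ n ih =>
      intro z
      have : z + ((n + 1 : ℕ) : ℂ) * ((k : ℂ) * l) = (z + (n : ℂ) * ((k : ℂ) * l)) + (k : ℂ) * l := by push_cast; ring
      rw [this, hk, ih]
  rw [ht]
  have : z + ((k * t : ℕ) : ℂ) * l = z + (t : ℂ) * ((k : ℂ) * l) := by push_cast; ring
  rw [this]
  exact hall t z

end Pool.Agent.H62.EF

end
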