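import Pool.Agent.H94.CB.H36.BP.Defs
import Pool.Agent.H94.CB.M07

/-! The parts of this file: H13.SM.Pts, H13.SM.Noether, H17.LinePoly, H17.Projective, H17.BrodyLimit, H36.BP.MainA, H62.BU.Had, H62.BU.Inv. -/

section

/-!
# The complex points of an affine variety with generic point `a`

`a : ι → K` generates the field `K` over `ℂ`.  The affine variety is the spectrum of
`A = Algebra.adjoin ℂ (Set.range a)`; its points are the `w : ι → ℂ` at which all polynomials which
vanish at `a` vanish.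

PROOF of `isClosed_pts`.  Intersection of the closed sets `eval w Q = 0`
(`MvPolynomial.continuous_eval`).

PROOF of `pts_of_algHom`.  `eval (fun i => φ ⟨a i, _⟩) Q = φ ⟨aeval a Q, _⟩` (both sides are algebra
homs of `Q`, or induction on `Q`), and `φ 0 = 0`.

PROOF of `root_at`.  Let `M : Polynomial (MvPolynomial (Fin n) ℂ) →+* MvPolynomial ι ℂ` be
`Polynomial.eval₂RingHom (aeval B).toRingHom Z`.  Then `aeval a (M p) = (p.map (aeval b)).eval (aeval a
Z)` since `aeval a (B j) = b j`, and `eval w (M p) = (p.map (eval (fun j => eval w (B j)))).eval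
(eval w Z)` (both by `Polynomial.hom_eval₂` and `MvPolynomial.comp_aeval` / `ringHom_ext`).
-/

open MvPolynomial

noncomputable section

namespace Pool.Agent.H13.SM

attribute [-instance] ProperSMul.toContinuousSMul

variable {ι K : Type} [Field K] [Algebra ℂ K]

/-- The complex points of the affine variety with generic point `a`. -/
def pts (a : ι → K) : Set (ι → ℂ) :=
  {w | ∀ Q : MvPolynomial ι ℂ, aeval a Q = 0 → eval w Q = 0}

theorem isClosed_pts [Finite ι] (a : ι → K) : IsClosed (pts a) := by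
  have h : pts a = ⋂ Q ∈ {Q : MvPolynomial ι ℂ | aeval a Q = 0}, {w : ι → ℂ | eval w Q = 0} := by
    ext w
    simp only [pts, Set.mem_ofPred_eq, Set.mem_iInter]
  rw [h]
  exact isClosed_biInter fun Q _ => isClosed_eq (MvPolynomial.continuous_eval Q) continuous_const

theorem aeval_mem_adjoin (a : ι → K) (Q : MvPolynomial ι ℂ) :
    aeval a Q ∈ Algebra.adjoin ℂ (Set.range a) := by
  rw [Algebra.adjoin_range_eq_range_aeval]
  exact ⟨Q, rfl⟩

/-- An algebra hom from the ring of functions to `ℂ` is the evaluation at a point. -/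
theorem exists_pt_of_algHom (a : ι → K) (φ : Algebra.adjoin ℂ (Set.range a) →ₐ[ℂ] ℂ) :
    ∃ w ∈ pts a, ∀ Q : MvPolynomial ι ℂ, eval w Q = φ ⟨aeval a Q, aeval_mem_adjoin a Q⟩ := by
  have key : ∀ Q : MvPolynomial ι ℂ,
      eval (fun i => φ ⟨a i, Algebra.subset_adjoin (Set.mem_range_self i)⟩) Q =
        φ ⟨aeval a Q, aeval_mem_adjoin a Q⟩ := by
    intro Q
    have h1 := MvPolynomial.comp_aeval_apply
      (fun i => (⟨a i, Algebra.subset_adjoin (Set.mem_range_self i)⟩ : Algebra.adjoin ℂ (Set.range a)))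
      φ Q
    have h2 := MvPolynomial.comp_aeval_apply
      (fun i => (⟨a i, Algebra.subset_adjoin (Set.mem_range_self i)⟩ : Algebra.adjoin ℂ (Set.range a)))
      (Algebra.adjoin ℂ (Set.range a)).val Q
    have h3 : aeval (fun i => (⟨a i, Algebra.subset_adjoin (Set.mem_range_self i)⟩ :
        Algebra.adjoin ℂ (Set.range a))) Q = ⟨aeval a Q, aeval_mem_adjoin a Q⟩ := by
      apply Subtype.ext
      exact h2
    rw [← h3, h1, MvPolynomial.aeval_eq_eval]
  refine ⟨fun i => φ ⟨a i, Algebra.subset_adjoin (Set.mem_range_self i)⟩, ?_, key⟩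
  intro Q hQ
  rw [key Q]
  have h4 : (⟨aeval a Q, aeval_mem_adjoin a Q⟩ : Algebra.adjoin ℂ (Set.range a)) = 0 :=
    Subtype.ext hQ
  rw [h4, map_zero]

/-- If `Z` is a root of `p` on the variety, with coefficients functions of the `b j = aeval a (B j)`,
then this holds at each point. -/
theorem root_at {n : ℕ} {a : ι → K} {b : Fin n → K} {B : Fin n → MvPolynomial ι ℂ}
    (hB : ∀ j, aeval a (B j) = b j) {Z : MvPolynomial ι ℂ}
    {p : Polynomial (MvPolynomial (Fin n) ℂ)}
    (hp : (p.map (aeval b : MvPolynomial (Fin n) ℂ →ₐ[ℂ] K).toRingHom).eval (aeval a Z) = 0)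
    {w : ι → ℂ} (hw : w ∈ pts a) :
    (p.map (eval fun j => eval w (B j))).eval (eval w Z) = 0 := by
  have h1 : aeval a (p.eval₂ (aeval B : MvPolynomial (Fin n) ℂ →ₐ[ℂ] MvPolynomial ι ℂ).toRingHom Z)
      = 0 := by
    have e1 := Polynomial.hom_eval₂ p
      (aeval B : MvPolynomial (Fin n) ℂ →ₐ[ℂ] MvPolynomial ι ℂ).toRingHom
      (aeval a : MvPolynomial ι ℂ →ₐ[ℂ] K).toRingHom Z
    have e2 : (aeval a : MvPolynomial ι ℂ →ₐ[ℂ] K).toRingHom.comp
        (aeval B : MvPolynomial (Fin n) ℂ →ₐ[ℂ] MvPolynomial ι ℂ).toRingHom =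
        (aeval b : MvPolynomial (Fin n) ℂ →ₐ[ℂ] K).toRingHom := by
      have e3 : (aeval a : MvPolynomial ι ℂ →ₐ[ℂ] K).comp
          (aeval B : MvPolynomial (Fin n) ℂ →ₐ[ℂ] MvPolynomial ι ℂ) = aeval b := by
        apply MvPolynomial.algHom_ext
        intro j
        rw [AlgHom.comp_apply, aeval_X, aeval_X]
        exact hB j
      rw [← e3]
      rfl
    rw [e2] at e1
    rw [Polynomial.eval_map] at hp
    exact e1.trans hp
  have h2 := hw _ h1
  have e4 := Polynomial.hom_eval₂ p
    (aeval B : MvPolynomial (Fin n) ℂ →ₐ[ℂ] MvPolynomial ι ℂ).toRingHom (eval w) Z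
  have e5 : (eval w).comp (aeval B : MvPolynomial (Fin n) ℂ →ₐ[ℂ] MvPolynomial ι ℂ).toRingHom =
      eval fun j => eval w (B j) := by
    apply MvPolynomial.ringHom_ext
    · intro r
      simp
    · intro j
      simp
  rw [e5] at e4
  rw [Polynomial.eval_map, ← e4]
  exact h2

end Pool.Agent.H13.SM

end
end

section

/-!
# Noether normalisation

PROOF.  `A = Algebra.adjoin ℂ (Set.range a)` is an algebra of finite type (`Subalgebra.fg_adjoin_...`,
`Subalgebra.fg_iff_finiteType`) and is nontrivial, so by `exists_finite_inj_algHom_of_fg` there are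
`s` and `g : MvPolynomial (Fin s) ℂ →ₐ[ℂ] A` injective and finite.  Let `b' j = g (X j)`, an
algebraically independent family of `K` (`g` and the inclusion are injective).  Each element of `A` is
integral over the range of `g`, the algebra generated by the `b' j` (`RingHom.Finite.to_isIntegral`).
`K = IntermediateField.adjoin ℂ (Set.range a)` is algebraic over `IntermediateField.adjoin ℂ (Set.range
b')`, since all `a i` are.  So `b'` is a transcendence basis of `K` and `s = n` by
`IsTranscendenceBasis.cardinalMk_eq` (or `lift_cardinalMk_eq_trdeg`).  Write `b' j = aeval a (B j)`.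
-/

open MvPolynomial

noncomputable section

namespace Pool.Agent.H13.SM

attribute [-instance] ProperSMul.toContinuousSMul

variable {ι K : Type} [Field K] [Algebra ℂ K]

/-- The surjection from polynomials to the adjoined algebra. -/
private def Noether_phi {n : ℕ} (b : Fin n → K) :
    MvPolynomial (Fin n) ℂ →ₐ[ℂ] Algebra.adjoin ℂ (Set.range b) :=
  (aeval b : MvPolynomial (Fin n) ℂ →ₐ[ℂ] K).codRestrict (Algebra.adjoin ℂ (Set.range b)) (by
    intro x
    rw [Algebra.adjoin_range_eq_range_aeval]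
    exact ⟨x, rfl⟩)

private theorem Noether_phi_coe {n : ℕ} (b : Fin n → K) (x : MvPolynomial (Fin n) ℂ) :
    (Noether_phi b x : K) = aeval b x := rfl

private theorem Noether_phi_surj {n : ℕ} (b : Fin n → K) : Function.Surjective (Noether_phi b) := by
  rintro ⟨y, hy⟩
  have h := hy
  rw [Algebra.adjoin_range_eq_range_aeval] at h
  obtain ⟨x, hx⟩ := h
  exact ⟨x, Subtype.ext hx⟩

private theorem Noether_algebraic [Finite ι] {a : ι → K}
    (ha : IntermediateField.adjoin ℂ (Set.range a) = ⊤) {s : ℕ} (b : Fin s → K)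
    (hb : ∀ i, IsIntegral (Algebra.adjoin ℂ (Set.range b)) (a i)) :
    Algebra.IsAlgebraic (Algebra.adjoin ℂ (Set.range b)) K := by
  constructor
  intro x
  have hx : x ∈ IntermediateField.adjoin ℂ (Set.range a) := by
    rw [ha]; exact IntermediateField.mem_top
  induction hx using IntermediateField.adjoin_induction with
  | mem y hy =>
    obtain ⟨i, rfl⟩ := hy
    exact (hb i).isAlgebraic
  | algebraMap y =>
    have h1 : algebraMap ℂ K y =
        algebraMap (Algebra.adjoin ℂ (Set.range b)) K (algebraMap ℂ (Algebra.adjoin ℂ (Set.range b)) y) := rfl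
    rw [h1]
    exact isAlgebraic_algebraMap _
  | add y z _ _ hy hz => exact hy.add hz
  | inv y _ hy => exact hy.inv
  | mul y z _ _ hy hz => exact hy.mul hz

theorem exists_noether [Finite ι] {a : ι → K}
    (ha : IntermediateField.adjoin ℂ (Set.range a) = ⊤) {n : ℕ} {z : Fin n → K}
    (hz : IsTranscendenceBasis ℂ z) :
    ∃ (b : Fin n → K) (B : Fin n → MvPolynomial ι ℂ), AlgebraicIndependent ℂ b ∧
      (∀ j, aeval a (B j) = b j) ∧ ∀ i, IsIntegral (Algebra.adjoin ℂ (Set.range b)) (a i) := by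
  set A := Algebra.adjoin ℂ (Set.range a) with hA
  have : Algebra.FiniteType ℂ A := by
    refine (Subalgebra.fg_iff_finiteType _).1 ?_
    have h := Subalgebra.fg_adjoin_finset (R := ℂ) (Set.finite_range a).toFinset
    rwa [Set.Finite.coe_toFinset] at h
  obtain ⟨s, g, ginj, gint⟩ := exists_integral_inj_algHom_of_fg ℂ A
  set b' : Fin s → K := fun j => (g (X j) : K) with hb'
  have haev : (aeval b' : MvPolynomial (Fin s) ℂ →ₐ[ℂ] K) = A.val.comp g := by
    refine MvPolynomial.algHom_ext fun j => ?_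
    rw [aeval_X]; rfl
  have hind : AlgebraicIndependent ℂ b' := by
    show Function.Injective (aeval b' : MvPolynomial (Fin s) ℂ →ₐ[ℂ] K)
    rw [haev]
    exact Subtype.val_injective.comp ginj
  have hint : ∀ i, IsIntegral (Algebra.adjoin ℂ (Set.range b')) (a i) := by
    intro i
    have hai : a i ∈ A := Algebra.subset_adjoin ⟨i, rfl⟩
    obtain ⟨p, hp1, hp2⟩ := gint ⟨a i, hai⟩
    refine ⟨p.map (Noether_phi b').toRingHom, hp1.map _, ?_⟩
    rw [Polynomial.eval₂_map]
    have h1 := congrArg (fun x : A => (x : K)) hp2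
    have h2 : A.val.toRingHom (Polynomial.eval₂ g.toRingHom ⟨a i, hai⟩ p) = 0 := h1
    rw [Polynomial.hom_eval₂] at h2
    have h3 : A.val.toRingHom.comp g.toRingHom =
        (algebraMap (Algebra.adjoin ℂ (Set.range b')) K).comp (Noether_phi b').toRingHom := by
      refine RingHom.ext fun x => ?_
      have h4 : (aeval b' x : K) = A.val (g x) := by rw [haev]; rfl
      show A.val (g x) = (Noether_phi b' x : K)
      rw [Noether_phi_coe, h4]
    rw [← h3]
    exact h2
  have hbas : IsTranscendenceBasis ℂ b' :=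
    hind.isTranscendenceBasis_iff_isAlgebraic.2 (Noether_algebraic ha b' hint)
  have hsn : s = n := by
    have h1 := hbas.cardinalMk_eq hz
    simpa using h1
  subst hsn
  have hB : ∀ j, ∃ Q : MvPolynomial ι ℂ, aeval a Q = b' j := by
    intro j
    have h1 : b' j ∈ A := (g (X j)).2
    rw [hA, Algebra.adjoin_range_eq_range_aeval] at h1
    exact h1
  choose B hB using hB
  exact ⟨b', B, hind, hB, hint⟩

/-- The polynomial form of integrality: `aeval a Z` is a root of a monic polynomial whose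
coefficients are polynomials in `b`. -/
theorem exists_monic {a : ι → K} {n : ℕ} {b : Fin n → K}
    (hint : ∀ i, IsIntegral (Algebra.adjoin ℂ (Set.range b)) (a i)) (Z : MvPolynomial ι ℂ) :
    ∃ p : Polynomial (MvPolynomial (Fin n) ℂ), p.Monic ∧
      (p.map (aeval b : MvPolynomial (Fin n) ℂ →ₐ[ℂ] K).toRingHom).eval (aeval a Z) = 0 := by
  set C₀ := Algebra.adjoin ℂ (Set.range b) with hC₀
  have hZ : IsIntegral C₀ (aeval a Z) := by
    have h1 : aeval a Z ∈ Algebra.adjoin ℂ (Set.range a) := aeval_mem_adjoin a Z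
    have h2 : Algebra.adjoin ℂ (Set.range a) ≤ (integralClosure C₀ K).restrictScalars ℂ := by
      refine Algebra.adjoin_le ?_
      rintro _ ⟨i, rfl⟩
      exact hint i
    exact h2 h1
  obtain ⟨p, hp1, hp2⟩ := hZ
  have hlift : p ∈ Polynomial.lifts (Noether_phi b).toRingHom := by
    rw [Polynomial.lifts_iff_coeff_lifts]
    intro k
    exact Noether_phi_surj b (p.coeff k)
  obtain ⟨P, hP1, -, hP2⟩ := Polynomial.lifts_and_natDegree_eq_and_monic hlift hp1
  refine ⟨P, hP2, ?_⟩
  have h3 : (aeval b : MvPolynomial (Fin n) ℂ →ₐ[ℂ] K).toRingHom =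
      (algebraMap C₀ K).comp (Noether_phi b).toRingHom := rfl
  rw [h3, ← Polynomial.map_map, hP1, Polynomial.eval_map]
  exact hp2

end Pool.Agent.H13.SM

end
end

section

/-!
# Restriction of a polynomial to the lines through a point
-/

open MvPolynomial

namespace Pool.Agent.H17

attribute [-instance] ProperSMul.toContinuousSMul

variable {σ : Type}

/-- Evaluation of a homogeneous polynomial at a multiple of a vector. -/
lemma eval_smul_of_isHomogeneous {P : MvPolynomial σ ℂ} {d : ℕ} (hP : P.IsHomogeneous d)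
    (c : ℂ) (x : σ → ℂ) : eval (fun i => c * x i) P = c ^ d * eval x P := by
  classical
  rw [eval_eq, eval_eq, Finset.mul_sum]
  refine Finset.sum_congr rfl ?_
  intro m hm
  have hdeg : m.degree = d := by
    by_contra hne
    exact (mem_support_iff.mp hm) (hP.coeff_eq_zero hne)
  have : ∏ i ∈ m.support, (c * x i) ^ m i = c ^ d * ∏ i ∈ m.support, x i ^ m i := by
    simp_rw [mul_pow]
    rw [Finset.prod_mul_distrib, Finset.prod_pow_eq_pow_sum]
    congr 2
  rw [this]
  ring

end Pool.Agent.H17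

end

section

/-!
# Separation of points and charts of projective space
-/

open Topology Filter

namespace Pool.Agent.H17

attribute [-instance] ProperSMul.toContinuousSMul

variable {N : ℕ}

/-- The vector of the `2 × 2` minors. -/
def minors (v w : Fin (N + 1) → ℂ) : Fin (N + 1) × Fin (N + 1) → ℂ :=
  fun p => v p.1 * w p.2 - v p.2 * w p.1

/-- The separation of two vectors. -/
noncomputable def sepv (v w : Fin (N + 1) → ℂ) : ℝ := ‖minors v w‖ / (‖v‖ * ‖w‖)

/-- The separation of two points of projective space. -/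
noncomputable def sep (p q : PN N) : ℝ := sepv p.rep q.rep

lemma minors_smul (a b : ℂ) (v w : Fin (N + 1) → ℂ) :
    minors (a • v) (b • w) = (a * b) • minors v w := by
  funext p
  simp only [minors, Pi.smul_apply, smul_eq_mul]
  ring

lemma sepv_smul {a b : ℂ} (ha : a ≠ 0) (hb : b ≠ 0) (v w : Fin (N + 1) → ℂ) :
    sepv (a • v) (b • w) = sepv v w := by
  unfold sepv
  rw [minors_smul, norm_smul, norm_smul, norm_smul, norm_mul]
  have h1 := norm_pos_iff.mpr ha
  have h2 := norm_pos_iff.mpr hb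
  rw [show ‖a‖ * ‖v‖ * (‖b‖ * ‖w‖) = (‖a‖ * ‖b‖) * (‖v‖ * ‖w‖) by ring]
  rw [mul_div_mul_left _ _ (by positivity)]

lemma exists_smul_rep (v : Fin (N + 1) → ℂ) (hv : v ≠ 0) :
    ∃ a : ℂ, a ≠ 0 ∧ (Projectivization.mk ℂ v hv).rep = a • v := by
  obtain ⟨a, ha⟩ := Projectivization.exists_smul_eq_mk_rep ℂ v hv
  exact ⟨a, a.ne_zero, by rw [← ha]; rfl⟩

lemma sep_mk (v w : Fin (N + 1) → ℂ) (hv : v ≠ 0) (hw : w ≠ 0) :
    sep (Projectivization.mk ℂ v hv) (Projectivization.mk ℂ w hw) = sepv v w := by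
  obtain ⟨a, ha, h1⟩ := exists_smul_rep v hv
  obtain ⟨b, hb, h2⟩ := exists_smul_rep w hw
  unfold sep
  rw [h1, h2, sepv_smul ha hb]

lemma minors_self (v : Fin (N + 1) → ℂ) : minors v v = 0 := by
  funext p
  simp only [minors, Pi.zero_apply]
  ring

/-- Vectors with vanishing minors are proportional. -/
lemma mk_eq_of_minors {v w : Fin (N + 1) → ℂ} (hv : v ≠ 0) (hw : w ≠ 0) (h : minors v w = 0) :
    Projectivization.mk ℂ v hv = Projectivization.mk ℂ w hw := by
  obtain ⟨i, hi⟩ : ∃ i, w i ≠ 0 := by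
    by_contra hcon
    push Not at hcon
    exact hw (funext hcon)
  have hcross : ∀ j, v i * w j = v j * w i := fun j => by
    have := congrFun h (i, j)
    simp only [minors, Pi.zero_apply] at this
    exact sub_eq_zero.mp this
  have hvi : v i ≠ 0 := by
    intro h0
    apply hv
    funext j
    have h1 := hcross j
    rw [h0, zero_mul] at h1
    exact (mul_eq_zero.mp h1.symm).resolve_right hi
  rw [Projectivization.mk_eq_mk_iff]
  refine ⟨Units.mk0 (v i / w i) (div_ne_zero hvi hi), ?_⟩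
  funext j
  change v i / w i * w j = v j
  have h1 := hcross j
  field_simp
  linear_combination h1

lemma eq_of_sepv_eq_zero {v w : Fin (N + 1) → ℂ} (hv : v ≠ 0) (hw : w ≠ 0) (h : sepv v w = 0) :
    Projectivization.mk ℂ v hv = Projectivization.mk ℂ w hw := by
  apply mk_eq_of_minors hv hw
  unfold sepv at h
  have h1 : ‖v‖ * ‖w‖ ≠ 0 := mul_ne_zero (norm_ne_zero_iff.mpr hv) (norm_ne_zero_iff.mpr hw)
  rcases div_eq_zero_iff.mp h with h2 | h2
  · exact norm_eq_zero.mp h2
  · exact absurd h2 h1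

/-- Continuity of the separation. -/
lemma continuousAt_sepv {v w : Fin (N + 1) → ℂ} (hv : v ≠ 0) (hw : w ≠ 0) :
    ContinuousAt (fun p : (Fin (N + 1) → ℂ) × (Fin (N + 1) → ℂ) => sepv p.1 p.2) (v, w) := by
  unfold sepv
  refine ContinuousAt.div ?_ ?_ ?_
  · apply Continuous.continuousAt
    refine Continuous.norm ?_
    refine continuous_pi fun q => ?_
    unfold minors
    fun_prop
  · fun_prop
  · exact mul_ne_zero (norm_ne_zero_iff.mpr hv) (norm_ne_zero_iff.mpr hw)

/-- Holomorphic maps into projective space are continuous for the separation. -/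
lemma tendsto_sep {f : ℂ → PN N} {U : Set ℂ} (hf : HolomorphicInto f U) {z₀ : ℂ} (hz₀ : z₀ ∈ U) :
    Tendsto (fun p : ℂ × ℂ => sep (f p.1) (f p.2)) (𝓝 (z₀, z₀)) (𝓝 0) := by
  obtain ⟨φ, hφ, he⟩ := hf z₀ hz₀
  obtain ⟨h0, -⟩ := he.self_of_nhds
  have h1 := continuousAt_sepv h0 h0
  have h2 : Tendsto (fun p : ℂ × ℂ => (φ p.1, φ p.2)) (𝓝 (z₀, z₀)) (𝓝 (φ z₀, φ z₀)) := by
    have h3 := hφ.continuousAt
    exact (h3.tendsto.comp (continuous_fst.tendsto' (z₀, z₀) z₀ rfl)).prodMk_nhds
      (h3.tendsto.comp (continuous_snd.tendsto' (z₀, z₀) z₀ rfl))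
  have h3 := h1.tendsto.comp h2
  have h4 : sepv (φ z₀) (φ z₀) = 0 := by
    unfold sepv
    rw [minors_self]
    simp
  simp only [h4] at h3
  refine h3.congr' ?_
  have h5 : ∀ᶠ p : ℂ × ℂ in 𝓝 (z₀, z₀), (∃ h : φ p.1 ≠ 0, f p.1 = Projectivization.mk ℂ (φ p.1) h) ∧
      (∃ h : φ p.2 ≠ 0, f p.2 = Projectivization.mk ℂ (φ p.2) h) := by
    rw [nhds_prod_eq]
    exact (he.prod_mk he)
  filter_upwards [h5] with p hp
  obtain ⟨⟨h6, h7⟩, h8, h9⟩ := hp
  rw [h7, h9, sep_mk]
  rfl

end Pool.Agent.H17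

end

section

/-!
# Limits of holomorphic curves in families of projective algebraic sets
-/

open Topology Filter

namespace Pool.Agent.H17

attribute [-instance] ProperSMul.toContinuousSMul

variable {N : ℕ}

lemma vanishesAt_mk_iff {P : MvPolynomial (Fin (N + 1)) ℂ} {d : ℕ} (hP : P.IsHomogeneous d)
    (v : Fin (N + 1) → ℂ) (hv : v ≠ 0) :
    VanishesAt P (Projectivization.mk ℂ v hv) ↔ MvPolynomial.eval v P = 0 := by
  obtain ⟨a, ha, h1⟩ := exists_smul_rep v hv
  unfold VanishesAt
  have h2 : (a • v) = fun k => a * v k := by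
    funext k
    simp
  rw [h1, h2, eval_smul_of_isHomogeneous hP]
  constructor
  · intro h
    exact (mul_eq_zero.mp h).resolve_left (pow_ne_zero _ ha)
  · intro h
    rw [h, mul_zero]

end Pool.Agent.H17

end

section

/-!
# BP MainA: identity theorems for maps into projective space
-/

set_option autoImplicit false

namespace Pool.Agent.H36.BP

attribute [-instance] ProperSMul.toContinuousSMul

open Filter Topology Metric

variable {N : ℕ}

open Pool.Agent.H17 (PN HolomorphicInto puncturedDisc VanishesAt vanishesAt_mk_iff)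

/-- the cone over a subset of projective space -/
def coneOf (X : Set (PN N)) : Set (EN N) := {x | ∃ h : x.ofLp ≠ 0, Projectivization.mk ℂ _ h ∈ X}

theorem analyticAt_toLp {φ : ℂ → Fin (N + 1) → ℂ} {z : ℂ} (h : AnalyticAt ℂ φ z) :
    AnalyticAt ℂ (fun w => (WithLp.toLp 2 (φ w) : EN N)) z :=
  ((EuclideanSpace.equiv (Fin (N + 1)) ℂ).symm : (Fin (N + 1) → ℂ) →L[ℂ] EN N).analyticAt (φ z) |>.comp h

theorem analyticAt_ofLp {F : ℂ → EN N} {z : ℂ} (h : AnalyticAt ℂ F z) : AnalyticAt ℂ (fun w => (F w).ofLp) z :=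
  ((EuclideanSpace.equiv (Fin (N + 1)) ℂ) : EN N →L[ℂ] (Fin (N + 1) → ℂ)).analyticAt (F z) |>.comp h

theorem mk_smul_eq {x : EN N} (hx : x.ofLp ≠ 0) {c : ℂ} (h : (c • x).ofLp ≠ 0) :
    Projectivization.mk ℂ (c • x).ofLp h = Projectivization.mk ℂ x.ofLp hx := by
  rw [Projectivization.mk_eq_mk_iff']
  exact ⟨c, rfl⟩

theorem coneOf_smul {X : Set (PN N)} {x : EN N} (hx : x ∈ coneOf X) {c : ℂ} (hc : c ≠ 0) : c • x ∈ coneOf X := by
  obtain ⟨h, hX⟩ := hx
  have h2 : (c • x).ofLp ≠ 0 := by
    intro h0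
    apply h
    have h3 : c • x.ofLp = 0 := h0
    exact (smul_eq_zero.mp h3).resolve_left hc
  exact ⟨h2, by rw [mk_smul_eq h]; exact hX⟩

theorem ne_zero_of_ofLp {x : EN N} (h : x.ofLp ≠ 0) : x ≠ 0 := by
  rintro rfl
  exact h rfl

theorem ofLp_ne_zero {x : EN N} (h : x ≠ 0) : x.ofLp ≠ 0 := by
  intro h0
  exact h (by ext i; exact congrFun h0 i)

/-- identity theorem for the vanishing of forms -/
theorem vanish_identity {f : ℂ → PN N} {U : Set ℂ} (hUc : IsPreconnected U) (hf : HolomorphicInto f U)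
    {S : Set (MvPolynomial (Fin (N + 1)) ℂ)} (hS : ∀ P ∈ S, ∃ n, P.IsHomogeneous n) {z₀ : ℂ} (hz₀ : z₀ ∈ U)
    (h : ∀ᶠ w in 𝓝 z₀, ∀ P ∈ S, VanishesAt P (f w)) : ∀ z ∈ U, ∀ P ∈ S, VanishesAt P (f z) := by
  set A : Set ℂ := {z | ∀ᶠ w in 𝓝 z, ∀ P ∈ S, VanishesAt P (f w)} with hA
  have hAo : IsOpen A := by
    rw [isOpen_iff_mem_nhds]
    intro z hz
    exact hz.eventually_nhds
  have hcl : closure A ∩ U ⊆ A := by
    rintro z ⟨hz1, hz2⟩
    obtain ⟨φ, hφ, he⟩ := hf z hz2
    obtain ⟨r, hr, hr1⟩ := Metric.eventually_nhds_iff_ball.mp (hφ.eventually_analyticAt.and he)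
    obtain ⟨z', hz'1, hz'2⟩ := mem_closure_iff_nhds.mp hz1 (ball z r) (ball_mem_nhds z hr)
    have hvan : ∀ P ∈ S, ∀ w ∈ ball z r, MvPolynomial.eval (φ w) P = 0 := by
      intro P hP
      obtain ⟨n, hn⟩ := hS P hP
      have han : AnalyticOnNhd ℂ (fun w => MvPolynomial.aeval (φ w) P) (ball z r) :=
        AnalyticOnNhd.aeval_mvPolynomial (fun i w hw => analyticAt_pi_iff.mp (hr1 w hw).1 i) P
      have h0 : (fun w => MvPolynomial.aeval (φ w) P) =ᶠ[𝓝 z'] 0 := by
        have hz'A : ∀ᶠ w in 𝓝 z', ∀ P ∈ S, VanishesAt P (f w) := hz'2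
        filter_upwards [hz'A, isOpen_ball.mem_nhds hz'1] with w hw1 hw2
        obtain ⟨h1, h2⟩ := (hr1 w hw2).2
        have h3 := hw1 P hP
        rw [h2, vanishesAt_mk_iff hn] at h3
        exact h3
      intro w hw
      exact han.eqOn_zero_of_preconnected_of_eventuallyEq_zero (convex_ball z r).isPreconnected hz'1 h0 hw
    show ∀ᶠ w in 𝓝 z, ∀ P ∈ S, VanishesAt P (f w)
    filter_upwards [ball_mem_nhds z hr] with w hw P hP
    obtain ⟨n, hn⟩ := hS P hP
    obtain ⟨h1, h2⟩ := (hr1 w hw).2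
    rw [h2, vanishesAt_mk_iff hn]
    exact hvan P hP w hw
  have hsub : U ⊆ A := hUc.subset_of_closure_inter_subset hAo ⟨z₀, hz₀, h⟩ hcl
  intro z hz
  have h1 : ∀ᶠ w in 𝓝 z, ∀ P ∈ S, VanishesAt P (f w) := hsub hz
  exact h1.self_of_nhds

/-- the linear forms vanishing at a vector -/
theorem const_identity {f : ℂ → PN N} {U : Set ℂ} (hUc : IsPreconnected U) (hf : HolomorphicInto f U)
    {z₀ : ℂ} (hz₀ : z₀ ∈ U) (h : ∀ᶠ w in 𝓝 z₀, f w = f z₀) : ∀ z ∈ U, f z = f z₀ := by
  set v := (f z₀).rep with hv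
  have hv0 : v ≠ 0 := (f z₀).rep_nonzero
  have hfz : f z₀ = Projectivization.mk ℂ v hv0 := (Projectivization.mk_rep _).symm
  obtain ⟨j, hj⟩ : ∃ j, v j ≠ 0 := by
    by_contra hcon
    push Not at hcon
    exact hv0 (funext hcon)
  set S : Set (MvPolynomial (Fin (N + 1)) ℂ) :=
    {P | ∃ i, P = MvPolynomial.C (v j) * MvPolynomial.X i - MvPolynomial.C (v i) * MvPolynomial.X j} with hSdef
  have hS : ∀ P ∈ S, ∃ n, P.IsHomogeneous n := by
    rintro P ⟨i, rfl⟩
    refine ⟨1, ?_⟩
    have h1 : ∀ (a : ℂ) (i : Fin (N + 1)), (MvPolynomial.C a * MvPolynomial.X i : MvPolynomial (Fin (N + 1)) ℂ).IsHomogeneous 1 := by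
      intro a i
      have := (MvPolynomial.isHomogeneous_C (Fin (N + 1)) a).mul (MvPolynomial.isHomogeneous_X ℂ i)
      simpa using this
    exact (h1 _ _).sub (h1 _ _)
  have hkey : ∀ p : PN N, (∀ P ∈ S, VanishesAt P p) → p = f z₀ := by
    intro p hp
    have hp' : ∀ i, v j * p.rep i = v i * p.rep j := by
      intro i
      have h2 := hp _ ⟨i, rfl⟩
      unfold VanishesAt at h2
      simp only [map_sub, map_mul, MvPolynomial.eval_C, MvPolynomial.eval_X] at h2
      exact sub_eq_zero.mp h2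
    rw [← Projectivization.mk_rep p, hfz, Projectivization.mk_eq_mk_iff']
    refine ⟨p.rep j / v j, ?_⟩
    funext i
    simp only [Pi.smul_apply, smul_eq_mul]
    field_simp
    rw [mul_comm (p.rep j), ← hp' i]
  have hvan : ∀ P ∈ S, VanishesAt P (f z₀) := by
    rintro P ⟨i, rfl⟩
    unfold VanishesAt
    simp only [map_sub, map_mul, MvPolynomial.eval_C, MvPolynomial.eval_X]
    rw [← hv]
    ring
  have hmain := vanish_identity hUc hf hS hz₀ (by
    filter_upwards [h] with w hw P hP
    rw [hw]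
    exact hvan P hP)
  intro z hz
  exact hkey _ (hmain z hz)

theorem preconnected_puncturedDisc : IsPreconnected puncturedDisc := by
  have h : puncturedDisc = Complex.exp '' {z : ℂ | z.re < 0} := by
    ext z
    constructor
    · rintro ⟨h1, h2⟩
      have h3 : z ≠ 0 := h2
      refine ⟨Complex.log z, ?_, Complex.exp_log h3⟩
      rw [mem_ball_zero_iff] at h1
      change (Complex.log z).re < 0
      rw [Complex.log_re]
      exact Real.log_neg (norm_pos_iff.mpr h3) h1
    · rintro ⟨w, hw, rfl⟩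
      refine ⟨?_, Complex.exp_ne_zero w⟩
      rw [mem_ball_zero_iff, Complex.norm_exp]
      have h1 := Real.exp_lt_exp.mpr hw
      rwa [Real.exp_zero] at h1
  rw [h]
  exact (convex_halfSpace_re_lt 0).isPreconnected.image _ Complex.continuous_exp.continuousOn

theorem isOpen_puncturedDisc : IsOpen puncturedDisc :=
  Metric.isOpen_ball.sdiff isClosed_singleton

end Pool.Agent.H36.BP

end

section

/-!
# BU Had: Hadamard's lemma

If `f` is analytic at `x₀` then `f x = f x₀ + S x (x - x₀)` near `x₀` with `S` analytic at `x₀`, `S x₀ = fderiv f x₀`.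
-/

set_option autoImplicit false

namespace Pool.Agent.H62.BU

attribute [-instance] ProperSMul.toContinuousSMul

open Filter Topology

variable {E F : Type*} [NormedAddCommGroup E] [NormedSpace ℂ E] [NormedAddCommGroup F] [NormedSpace ℂ F]

/-- Hadamard's lemma for analytic functions -/
theorem hadamard [CompleteSpace F] {f : E → F} {x₀ : E} (hf : AnalyticAt ℂ f x₀) :
    ∃ S : E → E →L[ℂ] F, AnalyticAt ℂ S x₀ ∧ S x₀ = fderiv ℂ f x₀ ∧ ∀ᶠ x in 𝓝 x₀, f x = f x₀ + S x (x - x₀) := by
  obtain ⟨p, r, hp⟩ := hf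
  have hr : r ≤ p.shift.radius := by
    rw [FormalMultilinearSeries.radius_shift]
    exact hp.r_le
  have hpos : 0 < p.shift.radius := lt_of_lt_of_le hp.r_pos hr
  have h1 : HasFPowerSeriesOnBall p.shift.sum p.shift 0 r :=
    p.shift.hasFPowerSeriesOnBall hpos |>.mono hp.r_pos hr
  set S : E → E →L[ℂ] F := fun x => p.shift.sum (x - x₀) with hS
  have h2 : HasFPowerSeriesOnBall S p.shift x₀ r := by
    have := h1.comp_sub x₀
    simpa using this
  have h3 := h2.unshift (z := f x₀)
  have h4 : p.shift.unshift (f x₀) = p := by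
    ext n
    cases n with
    | zero =>
      rw [FormalMultilinearSeries.unshift]
      simp only [ContinuousMultilinearMap.uncurry0_apply, continuousMultilinearCurryFin0_symm_apply]
      exact (hp.coeff_zero _).symm
    | succ n =>
      simp only [FormalMultilinearSeries.unshift, FormalMultilinearSeries.shift]
      simp
  have h5 : ∀ᶠ x in 𝓝 x₀, f x = f x₀ + S x (x - x₀) := by
    have e1 : HasFPowerSeriesOnBall (fun y => f x₀ + S y (y - x₀)) p x₀ r := by
      rw [h4] at h3
      exact h3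
    have e2 := hp.unique e1
    filter_upwards [Metric.eball_mem_nhds x₀ hp.r_pos] with x hx
    exact e2 hx
  refine ⟨S, h2.analyticAt, ?_, h5⟩
  have e3 : HasFDerivAt f (S x₀) x₀ := by
    have e4 : HasFDerivAt (fun y => f x₀ + S y (y - x₀)) (S x₀) x₀ := by
      have e5 : HasFDerivAt S (fderiv ℂ S x₀) x₀ := h2.analyticAt.differentiableAt.hasFDerivAt
      have e6 : HasFDerivAt (fun y : E => y - x₀) (ContinuousLinearMap.id ℂ E) x₀ :=
        (hasFDerivAt_id x₀).sub_const x₀
      have e7 := (e5.clm_apply e6).const_add (f x₀)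
      refine e7.congr_fderiv ?_
      ext v
      simp
    exact e4.congr_of_eventuallyEq h5
  exact e3.fderiv.symm

end Pool.Agent.H62.BU

end

section

/-!
# BU Inv: local inverse of an analytic map
-/

set_option autoImplicit false

namespace Pool.Agent.H62.BU

attribute [-instance] ProperSMul.toContinuousSMul

open Filter Topology

/-- the analytic inverse function theorem -/
theorem local_inverse {E : Type*} [NormedAddCommGroup E] [NormedSpace ℂ E] [FiniteDimensional ℂ E] {f : E → E} {x₀ : E}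
    (hf : AnalyticAt ℂ f x₀) (hi : ∀ v, fderiv ℂ f x₀ v = 0 → v = 0) :
    ∃ ψ : E → E, AnalyticAt ℂ ψ (f x₀) ∧ (∀ᶠ x in 𝓝 x₀, ψ (f x) = x) ∧ (∀ᶠ y in 𝓝 (f x₀), f (ψ y) = y) ∧ ψ (f x₀) = x₀ := by
  have : CompleteSpace E := FiniteDimensional.complete ℂ E
  have hinj : Function.Injective (fderiv ℂ f x₀ : E →ₗ[ℂ] E) := by
    rw [injective_iff_map_eq_zero]
    exact hi
  let e : E ≃L[ℂ] E := (LinearEquiv.ofInjectiveEndo (fderiv ℂ f x₀ : E →ₗ[ℂ] E) hinj).toContinuousLinearEquiv
  have he : (e : E →L[ℂ] E) = fderiv ℂ f x₀ := by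
    ext v
    rfl
  have hs : HasStrictFDerivAt f (e : E →L[ℂ] E) x₀ := by
    rw [he]
    exact hf.hasStrictFDerivAt
  let P := hs.toOpenPartialHomeomorph f
  have hP : x₀ ∈ P.source := hs.mem_toOpenPartialHomeomorph_source
  have hcoe : (P : E → E) = f := hs.toOpenPartialHomeomorph_coe
  have h1 : AnalyticAt ℂ P.symm (P x₀) := by
    refine P.analyticAt_symm' hP ?_ (i := e) ?_
    · rw [hcoe]
      exact hf
    · rw [hcoe]
      exact he.symm
  rw [hcoe] at h1
  refine ⟨P.symm, h1, ?_, ?_, ?_⟩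
  · filter_upwards [P.open_source.mem_nhds hP] with x hx
    have := P.left_inv hx
    rwa [hcoe] at this
  · have h2 : f x₀ ∈ P.target := by
      have := P.map_source hP
      rwa [hcoe] at this
    filter_upwards [P.open_target.mem_nhds h2] with y hy
    have := P.right_inv hy
    rwa [hcoe] at this
  · have := P.left_inv hP
    rwa [hcoe] at this

end Pool.Agent.H62.BU

end
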