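import Pool.Agent.H94.CB.M04
import Pool.Agent.H94.CB.M30

/-! The parts of this file: H14.PP.TELocal, H14.PP.ChartBasic_3, H14.PP.NodeGerm, H14.PP.TECompact. -/

section

/-!
# BPm TELocal: local estimates for a change of charts near a smooth point of `T`

`τ = (u, w)` is analytic at `p₀ = (0, t₀)`, `u (0,t) = 0` for `t` near `t₀`, and the Jacobian
determinant at `p₀` is not zero. Let `l = ∂_s u`, `b = ∂_t u`, `c = ∂_s w`, `m = ∂_t w` (continuous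
near `p₀`, and Lipschitz near `p₀` because `fderiv ℂ τ` is analytic: `AnalyticAt.fderiv`,
`ContDiffAt.exists_lipschitzOnWith`).
* `b (0,t) = 0` for `t` near `t₀`, so `‖b (s,t)‖ ≤ A ‖s‖` (Lipschitz).
* `jac = l m - b c`, at `p₀` it is `l m ≠ 0`; so `‖l‖, ‖m‖` are between two positive constants
  near `p₀`; `‖c‖` is bounded.
* `‖u (s,t) - l (s,t) s‖ ≤ A ‖s‖^2`: for fixed `(s,t)` the function
  `θ ↦ u (θ s, t) - θ s l (s,t)`, `θ ∈ [0,1]`, has derivative `s (l (θ s, t) - l (s,t))`, of norm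
  `≤ A ‖s‖^2`, and vanishes at `0`. So `|‖u‖ - ‖l‖‖s‖| ≤ A ‖s‖^2`.
-/

open Topology Filter Metric

namespace Pool.Agent.H14.PP

attribute [-instance] ProperSMul.toContinuousSMul

/-- two-sided bounds near a point -/
private theorem TELocal_bd {f : ℂ × ℂ → ℂ} {p : ℂ × ℂ} (hf : ContinuousAt f p) (h : f p ≠ 0) :
    ∀ᶠ q in 𝓝 p, ‖f p‖ / 2 ≤ ‖f q‖ ∧ ‖f q‖ ≤ ‖f p‖ + 1 := by
  have hp : 0 < ‖f p‖ := norm_pos_iff.2 h
  have h1 := hf.norm.eventually (lt_mem_nhds (show ‖f p‖ / 2 < ‖f p‖ by linarith))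
  have h2 := hf.norm.eventually (gt_mem_nhds (show ‖f p‖ < ‖f p‖ + 1 by linarith))
  filter_upwards [h1, h2] with q a b
  exact ⟨a.le, b.le⟩

theorem TE_local {τ : ℂ × ℂ → ℂ × ℂ} {t₀ : ℂ} (hτ : AnalyticAt ℂ τ (0, t₀))
    (hJ : jac τ (0, t₀) ≠ 0) (h0 : ∀ᶠ t in 𝓝 t₀, (τ (0, t)).1 = 0) :
    ∃ C : ℝ, 1 ≤ C ∧ ∀ᶠ p in 𝓝 ((0 : ℂ), t₀), TEmap C τ p := by
  have hD : AnalyticAt ℂ (fderiv ℂ τ) (0, t₀) := hτ.fderiv
  have hD1 : ContDiffAt ℂ 1 (fderiv ℂ τ) (0, t₀) := hD.contDiffAt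
  obtain ⟨K, V, hV, hL⟩ := hD1.exists_lipschitzOnWith
  have hV' : ∀ᶠ p in 𝓝 ((0 : ℂ), t₀), p ∈ V := hV
  obtain ⟨r1, hr1, hB1⟩ := Metric.eventually_nhds_iff_ball.1 (hτ.eventually_analyticAt.and hV')
  obtain ⟨r2, hr2, hB2⟩ := Metric.eventually_nhds_iff_ball.1 h0
  have hlip : ∀ p ∈ ball ((0 : ℂ), t₀) r1, ∀ q ∈ ball ((0 : ℂ), t₀) r1,
      ‖fderiv ℂ τ p - fderiv ℂ τ q‖ ≤ K * ‖p - q‖ := by
    intro p hp q hq
    have h1 := hL.dist_le_mul p (hB1 p hp).2 q (hB1 q hq).2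
    rwa [dist_eq_norm, dist_eq_norm] at h1
  have hfst : ∀ (A B : ℂ × ℂ →L[ℂ] ℂ × ℂ) (v : ℂ × ℂ), ‖v‖ ≤ 1 → ‖(A v).1 - (B v).1‖ ≤ ‖A - B‖ := by
    intro A B v hv
    have h1 : (A v).1 - (B v).1 = ((A - B) v).1 := by simp
    rw [h1]
    refine (norm_fst_le _).trans ?_
    refine ((A - B).le_opNorm v).trans ?_
    exact mul_le_of_le_one_right (norm_nonneg _) hv
  have hv1 : ‖((1 : ℂ), (0 : ℂ))‖ ≤ 1 := by simp [Prod.norm_def]
  have hv2 : ‖((0 : ℂ), (1 : ℂ))‖ ≤ 1 := by simp [Prod.norm_def]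
  -- the derivative of the first component vanishes on the curve
  have hb0 : ∀ t ∈ ball t₀ (min r1 r2), (fderiv ℂ τ (0, t) (0, 1)).1 = 0 := by
    intro t ht
    have ht1 : dist t t₀ < r1 := lt_of_lt_of_le ht (min_le_left _ _)
    have ht2 : t ∈ ball t₀ r2 := lt_of_lt_of_le (show dist t t₀ < min r1 r2 from ht) (min_le_right _ _)
    have hp : ((0 : ℂ), t) ∈ ball ((0 : ℂ), t₀) r1 := by
      rw [mem_ball, Prod.dist_eq]
      simp only [dist_self]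
      exact max_lt hr1 ht1
    have h1 : HasFDerivAt τ (fderiv ℂ τ (0, t)) (0, t) := (hB1 _ hp).1.differentiableAt.hasFDerivAt
    have h2 : HasDerivAt (fun y : ℂ => ((0 : ℂ), y)) ((0 : ℂ), (1 : ℂ)) t :=
      (hasDerivAt_const t (0 : ℂ)).prodMk (hasDerivAt_id t)
    have h3 : HasDerivAt (fun y : ℂ => τ (0, y)) (fderiv ℂ τ (0, t) (0, 1)) t :=
      h1.comp_hasDerivAt t h2
    have h4 : HasDerivAt (fun y : ℂ => (τ (0, y)).1) (fderiv ℂ τ (0, t) (0, 1)).1 t :=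
      (ContinuousLinearMap.fst ℂ ℂ ℂ).hasFDerivAt.comp_hasDerivAt t h3
    have h5 : HasDerivAt (fun y : ℂ => (τ (0, y)).1) 0 t := by
      refine (hasDerivAt_const t (0 : ℂ)).congr_of_eventuallyEq ?_
      filter_upwards [isOpen_ball.mem_nhds ht2] with y hy
      exact hB2 y hy
    exact h4.unique h5
  -- continuity
  have hcl : ContinuousAt (fun p => (fderiv ℂ τ p (1, 0)).1) ((0 : ℂ), t₀) :=
    (hD.continuousAt.clm_apply continuousAt_const).fst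
  have hcc : ContinuousAt (fun p => (fderiv ℂ τ p (1, 0)).2) ((0 : ℂ), t₀) :=
    (hD.continuousAt.clm_apply continuousAt_const).snd
  have hcm : ContinuousAt (fun p => (fderiv ℂ τ p (0, 1)).2) ((0 : ℂ), t₀) :=
    (hD.continuousAt.clm_apply continuousAt_const).snd
  have hb00 := hb0 t₀ (mem_ball_self (lt_min hr1 hr2))
  have hlm : (fderiv ℂ τ (0, t₀) (1, 0)).1 * (fderiv ℂ τ (0, t₀) (0, 1)).2 ≠ 0 := by
    intro h
    apply hJ
    unfold jac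
    rw [h, hb00]
    ring
  have hl0 := left_ne_zero_of_mul hlm
  have hm0 := right_ne_zero_of_mul hlm
  have hlp : 0 < ‖(fderiv ℂ τ (0, t₀) (1, 0)).1‖ := norm_pos_iff.2 hl0
  have hmp : 0 < ‖(fderiv ℂ τ (0, t₀) (0, 1)).2‖ := norm_pos_iff.2 hm0
  obtain ⟨L, hLd⟩ : ∃ L : ℝ, L = ‖(fderiv ℂ τ (0, t₀) (1, 0)).1‖ := ⟨_, rfl⟩
  obtain ⟨M, hMd⟩ : ∃ M : ℝ, M = ‖(fderiv ℂ τ (0, t₀) (0, 1)).2‖ := ⟨_, rfl⟩
  obtain ⟨c0, hcd⟩ : ∃ c0 : ℝ, c0 = ‖(fderiv ℂ τ (0, t₀) (1, 0)).2‖ := ⟨_, rfl⟩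
  have hc00 : 0 ≤ c0 := by
    rw [hcd]
    exact norm_nonneg _
  have hLp : 0 < L := by
    rw [hLd]
    exact hlp
  have hMp : 0 < M := by
    rw [hMd]
    exact hmp
  have hc1 : ∀ᶠ p in 𝓝 ((0 : ℂ), t₀), ‖(fderiv ℂ τ p (1, 0)).2‖ < c0 + 1 := by
    refine hcc.norm.eventually (gt_mem_nhds ?_)
    rw [hcd]
    linarith
  have hK0 : (0 : ℝ) ≤ K := K.2
  have h2L : 0 < 2 / L := by positivity
  have h2M : 0 < 2 / M := by positivity
  refine ⟨1 + 2 * K + (c0 + 1) + (L + 1) + (M + 1) + 2 / L + 2 / M, by linarith, ?_⟩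
  obtain ⟨C, hC⟩ : ∃ C : ℝ, C = 1 + 2 * K + (c0 + 1) + (L + 1) + (M + 1) + 2 / L + 2 / M := ⟨_, rfl⟩
  rw [← hC]
  have hCp : 0 < C := by linarith
  have hinv : ∀ x : ℝ, 0 < x → 2 / x ≤ C → C⁻¹ ≤ x / 2 := by
    intro x hx h
    rw [inv_le_comm₀ hCp (by positivity), inv_div]
    exact h
  have hCL : C⁻¹ ≤ L / 2 := hinv L hLp (by linarith)
  have hCM : C⁻¹ ≤ M / 2 := hinv M hMp (by linarith)
  have hbl := TELocal_bd hcl hl0
  have hbm := TELocal_bd hcm hm0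
  simp only [← hLd] at hbl
  simp only [← hMd] at hbm
  have hball : ∀ᶠ p in 𝓝 ((0 : ℂ), t₀), p ∈ ball ((0 : ℂ), t₀) (min r1 r2) :=
    isOpen_ball.mem_nhds (mem_ball_self (lt_min hr1 hr2))
  filter_upwards [hbl, hbm, hc1, hball] with p a1 a2 a3 hp
  obtain ⟨s, t⟩ := p
  rw [mem_ball, Prod.dist_eq, max_lt_iff] at hp
  obtain ⟨hs, ht⟩ := hp
  simp only at hs ht
  have hs' : ‖s‖ < r1 := by
    have := lt_of_lt_of_le hs (min_le_left _ _)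
    rwa [dist_zero_right] at this
  have ht' : dist t t₀ < r1 := lt_of_lt_of_le ht (min_le_left _ _)
  have hin : ∀ z : ℂ, ‖z‖ ≤ ‖s‖ → (z, t) ∈ ball ((0 : ℂ), t₀) r1 := by
    intro z hz
    rw [mem_ball, Prod.dist_eq]
    refine max_lt ?_ ht'
    rw [dist_zero_right]
    exact lt_of_le_of_lt hz hs'
  unfold TEmap TE
  refine ⟨?_, by linarith, ?_, hCL.trans a1.1, by linarith [a1.2], hCM.trans a2.1, by linarith [a2.2]⟩
  · have h1 := hfst (fderiv ℂ τ (s, t)) (fderiv ℂ τ (0, t)) (0, 1) hv2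
    rw [hb0 t ht, sub_zero] at h1
    have h2 := hlip (s, t) (hin s le_rfl) (0, t) (hin 0 (by simp))
    have h3 : ‖((s, t) : ℂ × ℂ) - (0, t)‖ = ‖s‖ := by simp [Prod.norm_def]
    rw [h3] at h2
    refine h1.trans (h2.trans ?_)
    exact mul_le_mul_of_nonneg_right (by linarith) (norm_nonneg _)
  · have hmv : ‖((τ (s, t)).1 - s * (fderiv ℂ τ (s, t) (1, 0)).1) -
        ((τ (0, t)).1 - 0 * (fderiv ℂ τ (s, t) (1, 0)).1)‖ ≤ 2 * K * ‖s‖ * ‖s - 0‖ := by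
      refine Convex.norm_image_sub_le_of_norm_hasDerivWithin_le
        (f := fun z : ℂ => (τ (z, t)).1 - z * (fderiv ℂ τ (s, t) (1, 0)).1)
        (f' := fun z : ℂ => (fderiv ℂ τ (z, t) (1, 0)).1 - 1 * (fderiv ℂ τ (s, t) (1, 0)).1)
        (s := closedBall (0 : ℂ) ‖s‖) ?_ ?_ (convex_closedBall _ _) (by simp) (by simp)
      · intro z hz
        rw [mem_closedBall, dist_zero_right] at hz
        have h1 : HasFDerivAt τ (fderiv ℂ τ (z, t)) (z, t) :=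
          (hB1 _ (hin z hz)).1.differentiableAt.hasFDerivAt
        have h2 : HasDerivAt (fun y : ℂ => (y, t)) ((1 : ℂ), (0 : ℂ)) z :=
          (hasDerivAt_id z).prodMk (hasDerivAt_const z t)
        have h3 : HasDerivAt (fun y : ℂ => τ (y, t)) (fderiv ℂ τ (z, t) (1, 0)) z :=
          h1.comp_hasDerivAt z h2
        have h4 : HasDerivAt (fun y : ℂ => (τ (y, t)).1) (fderiv ℂ τ (z, t) (1, 0)).1 z :=
          (ContinuousLinearMap.fst ℂ ℂ ℂ).hasFDerivAt.comp_hasDerivAt z h3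
        exact (h4.sub ((hasDerivAt_id z).mul_const _)).hasDerivWithinAt
      · intro z hz
        rw [mem_closedBall, dist_zero_right] at hz
        rw [one_mul]
        refine (hfst _ _ _ hv1).trans ?_
        refine (hlip (z, t) (hin z hz) (s, t) (hin s le_rfl)).trans ?_
        have h3 : ‖((z, t) : ℂ × ℂ) - (s, t)‖ = ‖z - s‖ := by simp [Prod.norm_def]
        rw [h3]
        have h4 : ‖z - s‖ ≤ 2 * ‖s‖ := (norm_sub_le _ _).trans (by linarith)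
        calc (K : ℝ) * ‖z - s‖ ≤ K * (2 * ‖s‖) := mul_le_mul_of_nonneg_left h4 hK0
          _ = 2 * K * ‖s‖ := by ring
    have h0t : (τ (0, t)).1 = 0 := hB2 t (lt_of_lt_of_le ht (min_le_right _ _))
    rw [h0t, zero_mul, sub_zero, sub_zero, sub_zero] at hmv
    have h5 : |‖(τ (s, t)).1‖ - ‖(fderiv ℂ τ (s, t) (1, 0)).1‖ * ‖s‖| ≤
        ‖(τ (s, t)).1 - s * (fderiv ℂ τ (s, t) (1, 0)).1‖ := by
      have h6 := abs_norm_sub_norm_le (τ (s, t)).1 (s * (fderiv ℂ τ (s, t) (1, 0)).1)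
      rwa [norm_mul, mul_comm ‖s‖] at h6
    refine h5.trans (hmv.trans ?_)
    rw [mul_assoc, ← pow_two]
    exact mul_le_mul_of_nonneg_right (by linarith) (by positivity)

theorem TE.mono {C C' : ℝ} (hC : 1 ≤ C) (h : C ≤ C') {s u l b c m : ℂ} (hT : TE C s u l b c m) :
    TE C' s u l b c m := by
  obtain ⟨h1, h2, h3, h4, h5, h6, h7⟩ := hT
  have hC0 : 0 < C := by linarith
  have hi : C'⁻¹ ≤ C⁻¹ := inv_anti₀ hC0 h
  refine ⟨h1.trans (mul_le_mul_of_nonneg_right h (norm_nonneg _)), h2.trans h,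
    h3.trans (mul_le_mul_of_nonneg_right h (by positivity)), hi.trans h4, h5.trans h, hi.trans h6, h7.trans h⟩

end Pool.Agent.H14.PP

end

section

/-!
# BPm ChartBasic: charts, basic facts

* `Chart.fderiv_q_smul`: `q (c • y) = q y` for `y` near `x ∈ U` (`U` open); differentiate:
  `Dq(c x) (c v) = Dq(x) v`; and `Dq(x) x = 0` (differentiate `q ((1 + h) • x) = q x` at `h = 0`).
* `Chart.fderiv_sigma`: derivative of `q ∘ σ = id` on the bidisc: `Dq(σ p) (Dσ(p) w) = w`.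
* `Chart.tan`: the curve `z ↦ σ (p + z • w)`; if `σ p ∈ K` it stays in `K` (`rel_open`).
* `Chart.curve`: `q ∘ F` is analytic at `z₀` (composition), its derivative is given by the chain
  rule. For `z` near `z₀`, `F z ∈ X ∩ U`, so `q (F z) ∈ ball 0 2` and `F z = c z • σ (q (F z))` with
  `c z ≠ 0` (`surj`). With `y = σ (q (F z₀)) ≠ 0`: `c z = ⟪y, F z⟫ / ⟪y, σ (q (F z))⟫` near `z₀`:
  analytic.
* `Chart.sigma_mem_iff`: for `x ∈ X ∩ U`, `x = c • σ (q x)`, so `x ∈ K ↔ σ (q x) ∈ K`.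
-/

open Topology Filter Metric

namespace Pool.Agent.H14.PP

attribute [-instance] ProperSMul.toContinuousSMul

open Pool.Agent.H36.BP

variable {N : ℕ} {X K T : Set (EN N)}

theorem hasType_swap {χ : Chart X} (h : HasType T χ true) : HasType T χ.swap true := by
  intro p hp
  have h1 := h p.swap (ChartBasic_swap_mem hp)
  show χ.σ p.swap ∈ T ↔ _
  rw [h1]
  simp only [Prod.fst_swap, Prod.snd_swap, true_and]
  exact or_comm

theorem hasType_orient {χ : Chart X} {nd b : Bool} (h : HasType T χ nd)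
    (hb : b = true → nd = true) : HasType T (χ.orient b) nd := by
  unfold Chart.orient
  split_ifs with h1
  · have h2 := hb h1
    subst h2
    exact hasType_swap h
  · exact h

end Pool.Agent.H14.PP

end

section

/-!
# BPm NodeGerm: a node is not a smooth point; the Jacobian of a change of charts

* `jac_ne_zero`: `τ = χ'.q ∘ χ.σ` near `p`, `η = χ.q ∘ χ'.σ` near `τ p`. For `y` near `p`:
  `χ.σ y = c • χ'.σ (τ y)` with `c ≠ 0`, so `η (τ y) = χ.q (χ'.σ (τ y)) = χ.q (χ.σ y) = y`. By the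
  chain rule `Dη(τ p) ∘ Dτ(p) = id`, so `Dτ(p)` is injective and its determinant is not zero.
* `not_node`: let `p₀ = (0, t₀)`, `τ = χ'.q ∘ χ.σ`, and suppose `τ p₀ = 0`, `χ'` of type `true`. For
  `t` near `t₀` the point `χ.σ (0,t) ∈ T` so with `τ (0,t) = (u t, w t)` we have `u t * w t = 0`
  (`T` is a cone); `u`, `w` are analytic near `t₀`, so one of them vanishes identically near `t₀`
  (`AnalyticAt.eventually_eq_zero_or_eventually_ne_zero`), say `u` (the other case is symmetric). Let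
  `η = χ.q ∘ χ'.σ`, `η 0 = p₀` (as above). For small `x ≠ 0` the point `χ'.σ (x, 0)` is in `T`, it is
  a multiple of `χ.σ (η (x,0))`, so `χ.σ (η (x,0)) ∈ T`; `η (x,0)` is close to `p₀` and if
  `nd = true` its second coordinate is not `0` (as `t₀ ≠ 0`), so its first coordinate is `0`:
  `η (x,0) = (0,t)`, `t` close to `t₀`, and `(x,0) = τ (0,t)` has first coordinate `u t = 0`:
  contradiction to `x ≠ 0`.
-/

open Topology Filter Metric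

namespace Pool.Agent.H14.PP

attribute [-instance] ProperSMul.toContinuousSMul

open Pool.Agent.H36.BP

variable {N : ℕ} {X K T : Set (EN N)}

/-- the change of charts and its inverse, pointwise -/
private theorem NodeGerm_pt (χ χ' : Chart X) {y : ℂ × ℂ} (hy : y ∈ ball (0 : ℂ × ℂ) 2)
    (hU : χ.σ y ∈ χ'.U) :
    χ'.q (χ.σ y) ∈ ball (0 : ℂ × ℂ) 2 ∧ χ'.σ (χ'.q (χ.σ y)) ∈ χ.U ∧
      χ.q (χ'.σ (χ'.q (χ.σ y))) = y ∧ ∃ c : ℂ, c ≠ 0 ∧ χ'.σ (χ'.q (χ.σ y)) = c • χ.σ y := by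
  obtain ⟨h1, h2, h3⟩ := χ.σ_mem y hy
  obtain ⟨h4, c, hc, h5⟩ := χ'.surj _ h1 hU
  have h6 : χ'.σ (χ'.q (χ.σ y)) = c⁻¹ • χ.σ y := by
    rw [h5, smul_smul, inv_mul_cancel₀ hc, one_smul]
    congr 2
    exact h5.symm
  have hc' : c⁻¹ ≠ 0 := inv_ne_zero hc
  refine ⟨h4, ?_, ?_, c⁻¹, hc', h6⟩
  · rw [h6]
    exact χ.smul_U _ h2 _ hc'
  · rw [h6, χ.q_smul _ h2 _ hc', h3]

/-- the change of charts is analytic -/
private theorem NodeGerm_an (χ χ' : Chart X) {y : ℂ × ℂ} (hy : y ∈ ball (0 : ℂ × ℂ) 2)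
    (hU : χ.σ y ∈ χ'.U) : AnalyticAt ℂ (fun y => χ'.q (χ.σ y)) y :=
  AnalyticAt.comp (g := χ'.q) (f := χ.σ) (χ'.q_an _ hU) (χ.σ_an y hy)

/-- nearby points -/
private theorem NodeGerm_near (χ χ' : Chart X) {y : ℂ × ℂ} (hy : y ∈ ball (0 : ℂ × ℂ) 2)
    (hU : χ.σ y ∈ χ'.U) : ∀ᶠ z in 𝓝 y, z ∈ ball (0 : ℂ × ℂ) 2 ∧ χ.σ z ∈ χ'.U := by
  have h1 : ∀ᶠ z in 𝓝 y, z ∈ ball (0 : ℂ × ℂ) 2 := isOpen_ball.mem_nhds hy
  have h2 : ∀ᶠ x in 𝓝 (χ.σ y), x ∈ χ'.U := χ'.isOpen_U.mem_nhds hU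
  exact h1.and ((χ.σ_an y hy).continuousAt.tendsto.eventually h2)

theorem jac_ne_zero (hX : IsCone X) (χ χ' : Chart X) {p : ℂ × ℂ}
    (hp : p ∈ ball (0 : ℂ × ℂ) 2) (hU : χ.σ p ∈ χ'.U) :
    jac (fun y => χ'.q (χ.σ y)) p ≠ 0 := by
  obtain ⟨τ, hτ⟩ : ∃ τ : ℂ × ℂ → ℂ × ℂ, τ = fun y => χ'.q (χ.σ y) := ⟨_, rfl⟩
  obtain ⟨η, hη⟩ : ∃ η : ℂ × ℂ → ℂ × ℂ, η = fun y => χ.q (χ'.σ y) := ⟨_, rfl⟩
  obtain ⟨a1, a2, a3, -⟩ := NodeGerm_pt χ χ' hp hU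
  have hτa : AnalyticAt ℂ τ p := by
    rw [hτ]
    exact NodeGerm_an χ χ' hp hU
  have hηa : AnalyticAt ℂ η (τ p) := by
    rw [hη, hτ]
    exact NodeGerm_an χ' χ a1 a2
  have hid : ∀ᶠ y in 𝓝 p, η (τ y) = y := by
    filter_upwards [NodeGerm_near χ χ' hp hU] with y hy
    rw [hη, hτ]
    exact (NodeGerm_pt χ χ' hy.1 hy.2).2.2.1
  have h1 : HasFDerivAt (η ∘ τ) ((fderiv ℂ η (τ p)).comp (fderiv ℂ τ p)) p :=
    hηa.differentiableAt.hasFDerivAt.comp p hτa.differentiableAt.hasFDerivAt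
  have h2 : HasFDerivAt (η ∘ τ) (ContinuousLinearMap.id ℂ (ℂ × ℂ)) p :=
    (hasFDerivAt_id p).congr_of_eventuallyEq hid
  have h3 := h1.unique h2
  have h4 : ∀ w : ℂ × ℂ, fderiv ℂ τ p w = 0 → w = 0 := by
    intro w hw
    have h5 : ((fderiv ℂ η (τ p)).comp (fderiv ℂ τ p)) w = w := by
      rw [h3]
      rfl
    rw [ContinuousLinearMap.comp_apply, hw, map_zero] at h5
    exact h5.symm
  rw [← hτ]
  intro hJ
  unfold jac at hJ
  have e1 : fderiv ℂ τ p ((fderiv ℂ τ p (0, 1)).2, -(fderiv ℂ τ p (1, 0)).2) = 0 := by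
    have e : (((fderiv ℂ τ p (0, 1)).2, -(fderiv ℂ τ p (1, 0)).2) : ℂ × ℂ) =
        (fderiv ℂ τ p (0, 1)).2 • ((1 : ℂ), (0 : ℂ)) - (fderiv ℂ τ p (1, 0)).2 • ((0 : ℂ), (1 : ℂ)) := by
      ext <;> simp
    rw [e, map_sub, map_smul, map_smul]
    ext
    · simp only [Prod.fst_sub, Prod.smul_fst, smul_eq_mul, Prod.fst_zero]
      linear_combination hJ
    · simp only [Prod.snd_sub, Prod.smul_snd, smul_eq_mul, Prod.snd_zero]
      ring
  have e2 : fderiv ℂ τ p ((fderiv ℂ τ p (0, 1)).1, -(fderiv ℂ τ p (1, 0)).1) = 0 := by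
    have e : (((fderiv ℂ τ p (0, 1)).1, -(fderiv ℂ τ p (1, 0)).1) : ℂ × ℂ) =
        (fderiv ℂ τ p (0, 1)).1 • ((1 : ℂ), (0 : ℂ)) - (fderiv ℂ τ p (1, 0)).1 • ((0 : ℂ), (1 : ℂ)) := by
      ext <;> simp
    rw [e, map_sub, map_smul, map_smul]
    ext
    · simp only [Prod.fst_sub, Prod.smul_fst, smul_eq_mul, Prod.fst_zero]
      ring
    · simp only [Prod.snd_sub, Prod.smul_snd, smul_eq_mul, Prod.snd_zero]
      linear_combination -hJ
  have f1 := h4 _ e1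
  have f2 := h4 _ e2
  rw [Prod.mk_eq_zero] at f1 f2
  have g1 : fderiv ℂ τ p (1, 0) = 0 := by
    ext
    · simpa using f2.2
    · simpa using f1.2
  have g2 := h4 _ g1
  simp [Prod.mk_eq_zero] at g2

theorem not_node (hX : IsCone X) (hT : ∀ x ∈ T, ∀ c : ℂ, c ≠ 0 → c • x ∈ T) (χ χ' : Chart X)
    {nd : Bool} (h : HasType T χ nd) (h' : HasType T χ' true) {t₀ : ℂ} (ht₀ : ‖t₀‖ < 2)
    (hnd : nd = true → t₀ ≠ 0) (hU : χ.σ (0, t₀) ∈ χ'.U) : χ'.q (χ.σ (0, t₀)) ≠ 0 := by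
  intro h0
  have hp : ((0 : ℂ), t₀) ∈ ball (0 : ℂ × ℂ) 2 := by
    rw [mem_ball, dist_zero_right, Prod.norm_def]
    simpa using ht₀
  obtain ⟨a1, a2, a3, -⟩ := NodeGerm_pt χ χ' hp hU
  rw [h0] at a1 a2 a3
  -- the two component functions
  have hpath : AnalyticAt ℂ (fun t : ℂ => χ'.q (χ.σ (0, t))) t₀ := by
    have h1 : AnalyticAt ℂ (fun t : ℂ => ((0 : ℂ), t)) t₀ := analyticAt_const.prod analyticAt_id
    exact AnalyticAt.comp (g := fun y => χ'.q (χ.σ y)) (f := fun t : ℂ => ((0 : ℂ), t))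
      (NodeGerm_an χ χ' hp hU) h1
  have hu : AnalyticAt ℂ (fun t : ℂ => (χ'.q (χ.σ (0, t))).1) t₀ :=
    AnalyticAt.comp (g := fun x : ℂ × ℂ => x.1) (f := fun t : ℂ => χ'.q (χ.σ (0, t))) analyticAt_fst hpath
  have hw : AnalyticAt ℂ (fun t : ℂ => (χ'.q (χ.σ (0, t))).2) t₀ :=
    AnalyticAt.comp (g := fun x : ℂ × ℂ => x.2) (f := fun t : ℂ => χ'.q (χ.σ (0, t))) analyticAt_snd hpath
  have htend : Tendsto (fun t : ℂ => ((0 : ℂ), t)) (𝓝 t₀) (𝓝 (0, t₀)) :=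
    (continuous_const.prodMk continuous_id).tendsto t₀
  have huw : ∀ᶠ t in 𝓝 t₀, (χ'.q (χ.σ (0, t))).1 = 0 ∨ (χ'.q (χ.σ (0, t))).2 = 0 := by
    filter_upwards [htend.eventually (NodeGerm_near χ χ' hp hU)] with t ht
    obtain ⟨b1, b2, b3, c, hc, b4⟩ := NodeGerm_pt χ χ' ht.1 ht.2
    have b5 : χ.σ (0, t) ∈ T := (h _ ht.1).2 (Or.inl rfl)
    have b6 : χ'.σ (χ'.q (χ.σ (0, t))) ∈ T := by
      rw [b4]
      exact hT _ b5 c hc
    rcases (h' _ b1).1 b6 with b7 | b7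
    · exact Or.inl b7
    · exact Or.inr b7.2
  -- points on the axes of the second chart
  have hax : ∀ᶠ q in 𝓝 (0 : ℂ × ℂ), (q.1 = 0 ∨ q.2 = 0) →
      χ'.q (χ.σ (0, (χ.q (χ'.σ q)).2)) = q := by
    have hη := (NodeGerm_an χ' χ a1 a2).continuousAt
    have hη2 : ContinuousAt (fun q => (χ.q (χ'.σ q)).2) (0 : ℂ × ℂ) := hη.snd
    have hne : ∀ᶠ q in 𝓝 (0 : ℂ × ℂ), nd = true → (χ.q (χ'.σ q)).2 ≠ 0 := by
      by_cases hn : nd = true
      · have h3 : (χ.q (χ'.σ 0)).2 ≠ 0 := by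
          rw [a3]
          exact hnd hn
        exact (hη2.eventually_ne h3).mono fun q hq _ => hq
      · exact Eventually.of_forall fun q hq => absurd hq hn
    filter_upwards [NodeGerm_near χ' χ a1 a2, hne] with q hq hq2 hq3
    obtain ⟨b1, b2, b3, c, hc, b4⟩ := NodeGerm_pt χ' χ hq.1 hq.2
    have b5 : χ'.σ q ∈ T := (h' _ hq.1).2 (by
      rcases hq3 with h4 | h4
      · exact Or.inl h4
      · exact Or.inr ⟨rfl, h4⟩)
    have b6 : χ.σ (χ.q (χ'.σ q)) ∈ T := by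
      rw [b4]
      exact hT _ b5 c hc
    have b7 : (χ.q (χ'.σ q)).1 = 0 := by
      rcases (h _ b1).1 b6 with b8 | b8
      · exact b8
      · exact absurd b8.2 (hq2 b8.1)
    have b9 : ((0 : ℂ), (χ.q (χ'.σ q)).2) = χ.q (χ'.σ q) := by
      ext
      · exact b7.symm
      · rfl
    rw [b9]
    exact b3
  have hη2 : Tendsto (fun q => (χ.q (χ'.σ q)).2) (𝓝 (0 : ℂ × ℂ)) (𝓝 t₀) := by
    have h2 : ContinuousAt (fun q => (χ.q (χ'.σ q)).2) (0 : ℂ × ℂ) :=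
      (NodeGerm_an χ' χ a1 a2).continuousAt.snd
    have h3 := h2.tendsto
    rwa [a3] at h3
  have hx0 : ¬ ∀ᶠ x in 𝓝 (0 : ℂ), x = 0 := by
    intro h1
    have h2 : ∀ᶠ x in 𝓝[≠] (0 : ℂ), False := by
      filter_upwards [h1.filter_mono nhdsWithin_le_nhds, self_mem_nhdsWithin] with x hx hx'
      exact hx' hx
    rw [eventually_false_iff_eq_bot] at h2
    exact (inferInstance : (𝓝[≠] (0 : ℂ)).NeBot).ne h2
  rcases hu.eventually_eq_zero_or_eventually_ne_zero with h1 | h1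
  · have h2 : ∀ᶠ q in 𝓝 (0 : ℂ × ℂ), (q.1 = 0 ∨ q.2 = 0) → q.1 = 0 := by
      filter_upwards [hax, hη2.eventually h1] with q b1 b2 b3
      rw [b1 b3] at b2
      exact b2
    have h3 : Tendsto (fun x : ℂ => (x, (0 : ℂ))) (𝓝 0) (𝓝 (0 : ℂ × ℂ)) :=
      (continuous_id.prodMk continuous_const).tendsto 0
    exact hx0 ((h3.eventually h2).mono fun x hx => hx (Or.inr rfl))
  · rcases hw.eventually_eq_zero_or_eventually_ne_zero with h1' | h1'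
    · have h2 : ∀ᶠ q in 𝓝 (0 : ℂ × ℂ), (q.1 = 0 ∨ q.2 = 0) → q.2 = 0 := by
        filter_upwards [hax, hη2.eventually h1'] with q b1 b2 b3
        rw [b1 b3] at b2
        exact b2
      have h3 : Tendsto (fun x : ℂ => ((0 : ℂ), x)) (𝓝 0) (𝓝 (0 : ℂ × ℂ)) :=
        (continuous_const.prodMk continuous_id).tendsto 0
      exact hx0 ((h3.eventually h2).mono fun x hx => hx (Or.inl rfl))
    · have h2 : ∀ᶠ x in 𝓝[≠] t₀, False := by
        filter_upwards [h1, h1', huw.filter_mono nhdsWithin_le_nhds] with t b1 b2 b3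
        rcases b3 with b3 | b3
        · exact b1 b3
        · exact b2 b3
      rw [eventually_false_iff_eq_bot] at h2
      exact (inferInstance : (𝓝[≠] t₀).NeBot).ne h2

end Pool.Agent.H14.PP

end

section

/-!
# BPm TECompact: uniform estimates for the changes of charts at the boundary of a chart

`χ i` (`i : Fin n`) are charts of types `nd i`; every point of `T` lies in the inner part
(`‖q‖ < 1/2`) of some chart. Fix `i` and an orientation `b` (`b = true` only if `nd i = true`), let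
`χ₁ = (χ i).orient b`, of type `nd i` (`hasType_orient`). For every `t₀` with `‖t₀‖ = 1` the point
`χ₁.σ (0, t₀)` is in `T`, so there is `k` with `χ₁.σ (0,t₀) ∈ (χ k).U`,
`‖(χ k).q (χ₁.σ (0,t₀))‖ < 1/2`. If `nd k = false` let `b' = false`: the first coordinate of
`(χ k).q (χ₁.σ (0,t))` vanishes for `t` near `t₀` (type `false`, `T` is a cone and
`χ₁.σ (0,t) = c • (χ k).σ (..)`). If `nd k = true`: by `not_node` (for `χ₁` and `χ k`) the point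
`q' = (χ k).q (χ₁.σ (0,t₀))` is not `0`, and one of its coordinates is `0`: choose `b'` such that the
first coordinate of `ori b' q'` is `0`, the second is not; by continuity the first coordinate of
`ori b' ((χ k).q (χ₁.σ (0,t)))` vanishes for `t` near `t₀` (the product does, the second does not).
`TE_local` (with `jac_ne_zero` for `χ₁` and `χ₂ = (χ k).orient b'`, note `χ₂.q = ori b' ∘ (χ k).q`)
gives a constant `C` and a neighbourhood of `(0,t₀)` on which `TEmap C τ` holds, `τ = χ₂.q ∘ χ₁.σ`;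
shrink it so that also `χ₁.σ y ∈ (χ k).U`, `‖τ y‖ < 1/2` and (if `nd k = true`)
`‖(τ y).2‖ ≥ C⁻¹`, after enlarging `C` (`TE.mono`). The circle `{(0,t₀) | ‖t₀‖ = 1}` is compact:
finitely many neighbourhoods cover it, hence also all `(s,t)` with `‖t‖ = 1`, `‖s‖ ≤ r` for some
`r > 0` (compactness; e.g. `IsCompact.exists_thickening_subset_open` or the generalized tube lemma).
Take the maximum of the constants over the finitely many neighbourhoods, over `i` and `b`, and the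
minimum of the `r`.
-/

open Topology Filter Metric

namespace Pool.Agent.H14.PP

attribute [-instance] ProperSMul.toContinuousSMul

open Pool.Agent.H36.BP

variable {N : ℕ} {X K T : Set (EN N)}

/-- The change from the chart `χ` to the chart `χ'` (of type `nd'`) is `C`-controlled at the
point `p`. -/
def Transition (C : ℝ) (χ χ' : Chart X) (nd' : Bool) (p : ℂ × ℂ) : Prop :=
  χ.σ p ∈ χ'.U ∧ ‖χ'.q (χ.σ p)‖ < 1 / 2 ∧ TEmap C (fun y => χ'.q (χ.σ y)) p ∧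
    (nd' = true → C⁻¹ ≤ ‖(χ'.q (χ.σ p)).2‖)

private theorem Transition.mono {C C' : ℝ} (hC : 1 ≤ C) (hCC : C ≤ C') {χ χ' : Chart X}
    {nd' : Bool} {p : ℂ × ℂ} (h : Transition C χ χ' nd' p) : Transition C' χ χ' nd' p :=
  ⟨h.1, h.2.1, TE.mono hC hCC h.2.2.1, fun hn =>
    (inv_anti₀ (by linarith) hCC).trans (h.2.2.2 hn)⟩

private theorem TECompact_aux (hX : IsCone X) (χ₁ χ₂ : Chart X) {t₀ : ℂ} (ht₀ : ‖t₀‖ = 1)
    (hU : χ₁.σ (0, t₀) ∈ χ₂.U) (hq : ‖χ₂.q (χ₁.σ (0, t₀))‖ < 1 / 2)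
    (h0 : ∀ᶠ t in 𝓝 t₀, (χ₂.q (χ₁.σ (0, t))).1 = 0) (nd₂ : Bool)
    (hnd : nd₂ = true → (χ₂.q (χ₁.σ (0, t₀))).2 ≠ 0) :
    ∃ C : ℝ, 1 ≤ C ∧ ∀ᶠ p in 𝓝 ((0 : ℂ), t₀), Transition C χ₁ χ₂ nd₂ p := by
  have hp : ((0 : ℂ), t₀) ∈ ball (0 : ℂ × ℂ) 2 := by
    rw [mem_ball_zero_iff, Prod.norm_def]
    simp only [norm_zero, ht₀]
    norm_num
  have hσ : AnalyticAt ℂ χ₁.σ (0, t₀) := χ₁.σ_an _ hp
  have hτ : AnalyticAt ℂ (fun y => χ₂.q (χ₁.σ y)) (0, t₀) := (χ₂.q_an _ hU).comp hσ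
  have hJ := jac_ne_zero hX χ₁ χ₂ hp hU
  obtain ⟨C₁, hC₁, hTE⟩ := TE_local hτ hJ h0
  set a : ℝ := ‖(χ₂.q (χ₁.σ (0, t₀))).2‖ with ha
  set C : ℝ := max C₁ (2 / a) with hC
  have hC1 : C₁ ≤ C := le_max_left _ _
  have hC2 : 2 / a ≤ C := le_max_right _ _
  have hτc : ContinuousAt (fun y => χ₂.q (χ₁.σ y)) (0, t₀) := hτ.continuousAt
  have e1 : ∀ᶠ p in 𝓝 ((0 : ℂ), t₀), χ₁.σ p ∈ χ₂.U :=
    hσ.continuousAt.eventually (χ₂.isOpen_U.mem_nhds hU)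
  have e2 : ∀ᶠ p in 𝓝 ((0 : ℂ), t₀), ‖χ₂.q (χ₁.σ p)‖ < 1 / 2 :=
    hτc.norm.eventually (Iio_mem_nhds hq)
  have e3 : ∀ᶠ p in 𝓝 ((0 : ℂ), t₀), nd₂ = true → C⁻¹ ≤ ‖(χ₂.q (χ₁.σ p)).2‖ := by
    by_cases hn : nd₂ = true
    · have ha0 : 0 < a := norm_pos_iff.2 (hnd hn)
      have hc2 : ContinuousAt (fun y => ‖(χ₂.q (χ₁.σ y)).2‖) (0, t₀) := hτc.snd.norm
      have h1 : ∀ᶠ p in 𝓝 ((0 : ℂ), t₀), a / 2 < ‖(χ₂.q (χ₁.σ p)).2‖ :=
        hc2.eventually (Ioi_mem_nhds (show a / 2 < ‖(χ₂.q (χ₁.σ (0, t₀))).2‖ by rw [← ha]; linarith))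
      filter_upwards [h1] with p hp _
      have h2 : C⁻¹ ≤ (2 / a)⁻¹ := inv_anti₀ (by positivity) hC2
      rw [inv_div] at h2
      exact h2.trans hp.le
    · exact Filter.Eventually.of_forall fun p h => absurd h hn
  refine ⟨C, hC₁.trans hC1, ?_⟩
  filter_upwards [e1, e2, e3, hTE] with p h1 h2 h3 h4
  exact ⟨h1, h2, TE.mono hC₁ hC1 h4, h3⟩

private theorem TECompact_local (hX : IsCone X) (hT : ∀ x ∈ T, ∀ c : ℂ, c ≠ 0 → c • x ∈ T)
    (χ₁ χ₂ : Chart X) {nd₁ nd₂ : Bool} (h₁ : HasType T χ₁ nd₁) (h₂ : HasType T χ₂ nd₂) {t₀ : ℂ}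
    (ht₀ : ‖t₀‖ = 1) (hU : χ₁.σ (0, t₀) ∈ χ₂.U) (hq : ‖χ₂.q (χ₁.σ (0, t₀))‖ < 1 / 2) :
    ∃ b' : Bool, (b' = true → nd₂ = true) ∧ ∃ C : ℝ, 1 ≤ C ∧
      ∀ᶠ p in 𝓝 ((0 : ℂ), t₀), Transition C χ₁ (χ₂.orient b') nd₂ p := by
  have hp : ((0 : ℂ), t₀) ∈ ball (0 : ℂ × ℂ) 2 := by
    rw [mem_ball_zero_iff, Prod.norm_def]
    simp only [norm_zero, ht₀]
    norm_num
  have hσ : AnalyticAt ℂ χ₁.σ (0, t₀) := χ₁.σ_an _ hp
  have hτ : AnalyticAt ℂ (fun y => χ₂.q (χ₁.σ y)) (0, t₀) := (χ₂.q_an _ hU).comp hσ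
  have hτc : ContinuousAt (fun y => χ₂.q (χ₁.σ y)) (0, t₀) := hτ.continuousAt
  have hpt : Tendsto (fun t : ℂ => ((0 : ℂ), t)) (𝓝 t₀) (𝓝 ((0 : ℂ), t₀)) := by
    have hc : Continuous fun t : ℂ => ((0 : ℂ), t) := by fun_prop
    exact hc.tendsto t₀
  have eB : ∀ᶠ t in 𝓝 t₀, ((0 : ℂ), t) ∈ ball (0 : ℂ × ℂ) 2 :=
    hpt.eventually (isOpen_ball.mem_nhds hp)
  have eU : ∀ᶠ t in 𝓝 t₀, χ₁.σ ((0 : ℂ), t) ∈ χ₂.U :=
    hpt.eventually (hσ.continuousAt.eventually (χ₂.isOpen_U.mem_nhds hU))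
  have hkey : ∀ᶠ t in 𝓝 t₀, (χ₂.q (χ₁.σ (0, t))).1 = 0 ∨
      (nd₂ = true ∧ (χ₂.q (χ₁.σ (0, t))).2 = 0) := by
    filter_upwards [eB, eU] with t ht1 ht2
    have hxX := (χ₁.σ_mem _ ht1).1
    have hxT : χ₁.σ (0, t) ∈ T := (h₁ _ ht1).2 (Or.inl rfl)
    have h3 := (χ₂.sigma_mem_iff hxX ht2 hT).2 hxT
    exact (h₂ _ (χ₂.surj _ hxX ht2).1).1 h3
  have eF : χ₂.orient false = χ₂ := by simp [Chart.orient]
  have eT : χ₂.orient true = χ₂.swap := by simp [Chart.orient]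
  have ht0 : t₀ ≠ 0 := by
    rintro rfl
    norm_num at ht₀
  by_cases hn : nd₂ = true
  · by_cases h2 : (χ₂.q (χ₁.σ (0, t₀))).2 = 0
    · have h1 : (χ₂.q (χ₁.σ (0, t₀))).1 ≠ 0 := by
        intro h1
        have hnn := not_node hX hT χ₁ χ₂ h₁ (hn ▸ h₂) (t₀ := t₀) (by rw [ht₀]; norm_num)
          (fun _ => ht0) hU
        exact hnn (Prod.ext h1 h2)
      refine ⟨true, fun _ => hn, ?_⟩
      rw [eT]
      have hne : ∀ᶠ t in 𝓝 t₀, (χ₂.q (χ₁.σ (0, t))).1 ≠ 0 :=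
        hpt.eventually (hτc.fst.eventually_ne h1)
      refine TECompact_aux hX χ₁ χ₂.swap ht₀ hU ?_ ?_ nd₂ (fun _ => h1)
      · have hsw : ‖(χ₂.q (χ₁.σ (0, t₀))).swap‖ = ‖χ₂.q (χ₁.σ (0, t₀))‖ := by
          rw [Prod.norm_def, Prod.norm_def, max_comm]
          rfl
        show ‖(χ₂.q (χ₁.σ (0, t₀))).swap‖ < 1 / 2
        rw [hsw]
        exact hq
      · filter_upwards [hkey, hne] with t ht1 ht2
        rcases ht1 with ht1 | ht1
        · exact absurd ht1 ht2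
        · exact ht1.2
    · refine ⟨false, fun h => absurd h (by decide), ?_⟩
      rw [eF]
      have hne : ∀ᶠ t in 𝓝 t₀, (χ₂.q (χ₁.σ (0, t))).2 ≠ 0 :=
        hpt.eventually (hτc.snd.eventually_ne h2)
      refine TECompact_aux hX χ₁ χ₂ ht₀ hU hq ?_ nd₂ (fun _ => h2)
      filter_upwards [hkey, hne] with t ht1 ht2
      rcases ht1 with ht1 | ht1
      · exact ht1
      · exact absurd ht1.2 ht2
  · refine ⟨false, fun h => absurd h (by decide), ?_⟩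
    rw [eF]
    refine TECompact_aux hX χ₁ χ₂ ht₀ hU hq ?_ nd₂ (fun h => absurd h hn)
    filter_upwards [hkey] with t ht1
    rcases ht1 with ht1 | ht1
    · exact ht1
    · exact absurd ht1.1 hn

private theorem TECompact_one (hX : IsCone X) (hT : ∀ x ∈ T, ∀ c : ℂ, c ≠ 0 → c • x ∈ T) {n : ℕ}
    (χ : Fin n → Chart X) (nd : Fin n → Bool) (h : ∀ i, HasType T (χ i) (nd i))
    (hcov : ∀ x ∈ T, ∃ i, x ∈ (χ i).U ∧ ‖(χ i).q x‖ < 1 / 2) (i : Fin n) (b : Bool)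
    (hb : b = true → nd i = true) :
    ∃ C r : ℝ, 1 ≤ C ∧ 0 < r ∧ ∀ p : ℂ × ℂ, ‖p.2‖ = 1 → ‖p.1‖ ≤ r →
        ∃ (k : Fin n) (b' : Bool), (b' = true → nd k = true) ∧
          Transition C ((χ i).orient b) ((χ k).orient b') (nd k) p := by
  have h₁ := hasType_orient (h i) hb
  set G : ℝ → ℂ × ℂ → Prop := fun C p => ∃ (k : Fin n) (b' : Bool), (b' = true → nd k = true) ∧
    Transition C ((χ i).orient b) ((χ k).orient b') (nd k) p with hG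
  have hmonoG : ∀ C C' : ℝ, 1 ≤ C → C ≤ C' → ∀ p, G C p → G C' p := by
    rintro C C' hC hCC p ⟨k, b', hb', hk⟩
    exact ⟨k, b', hb', hk.mono hC hCC⟩
  set S : Set (ℂ × ℂ) := ({0} : Set ℂ) ×ˢ sphere (0 : ℂ) 1 with hS
  have hSc : IsCompact S := isCompact_singleton.prod (isCompact_sphere _ _)
  have hloc : ∀ x ∈ S, ∃ C : ℝ, 1 ≤ C ∧ ∀ᶠ p in 𝓝 x, G C p := by
    rintro ⟨s, t₀⟩ ⟨hs, ht⟩
    have hs' : s = 0 := hs
    subst hs'
    have ht₀ : ‖t₀‖ = 1 := by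
      have h3 : t₀ ∈ sphere (0 : ℂ) 1 := ht
      rwa [mem_sphere_zero_iff_norm] at h3
    have hp : ((0 : ℂ), t₀) ∈ ball (0 : ℂ × ℂ) 2 := by
      rw [mem_ball_zero_iff, Prod.norm_def]
      simp only [norm_zero, ht₀]
      norm_num
    obtain ⟨k, hk1, hk2⟩ := hcov _ ((h₁ _ hp).2 (Or.inl rfl))
    obtain ⟨b', hb', C, hC, hev⟩ := TECompact_local hX hT _ _ h₁ (h k) ht₀ hk1 hk2
    exact ⟨C, hC, hev.mono fun p hp => ⟨k, b', hb', hp⟩⟩
  have hmain : ∃ C : ℝ, 1 ≤ C ∧ ∀ᶠ p in 𝓝ˢ S, G C p := by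
    refine hSc.induction_on (p := fun s => ∃ C : ℝ, 1 ≤ C ∧ ∀ᶠ p in 𝓝ˢ s, G C p) ?_ ?_ ?_ ?_
    · exact ⟨1, le_rfl, by simp⟩
    · rintro s t hst ⟨C, hC, hev⟩
      exact ⟨C, hC, hev.filter_mono (nhdsSet_mono hst)⟩
    · rintro s t ⟨C, hC, hev⟩ ⟨C', hC', hev'⟩
      refine ⟨max C C', hC.trans (le_max_left _ _), ?_⟩
      rw [nhdsSet_union, eventually_sup]
      exact ⟨hev.mono fun p hp => hmonoG _ _ hC (le_max_left _ _) p hp,
        hev'.mono fun p hp => hmonoG _ _ hC' (le_max_right _ _) p hp⟩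
    · intro x hx
      obtain ⟨C, hC, hev⟩ := hloc x hx
      obtain ⟨O, hO1, hO2, hO3⟩ := _root_.eventually_nhds_iff.1 hev
      refine ⟨O, mem_nhdsWithin_of_mem_nhds (hO2.mem_nhds hO3), C, hC, ?_⟩
      rw [hO2.nhdsSet_eq]
      exact eventually_principal.2 hO1
  obtain ⟨C, hC, hev⟩ := hmain
  obtain ⟨O, hO1, hO2, hO3⟩ := mem_nhdsSet_iff_exists.1 hev
  obtain ⟨δ, hδ, hδO⟩ := hSc.exists_thickening_subset_open hO1 hO2
  refine ⟨C, δ / 2, hC, by positivity, fun p hp1 hp2 => ?_⟩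
  have hpO : p ∈ O := by
    refine hδO ?_
    rw [mem_thickening_iff]
    refine ⟨(0, p.2), ⟨rfl, by rw [mem_sphere_zero_iff_norm]; exact hp1⟩, ?_⟩
    rw [Prod.dist_eq]
    simp only [dist_self, dist_zero_right]
    rw [max_lt_iff]
    exact ⟨by linarith, hδ⟩
  exact hO3 hpO

theorem exists_transition (hX : IsCone X) (hT : ∀ x ∈ T, ∀ c : ℂ, c ≠ 0 → c • x ∈ T) {n : ℕ}
    (χ : Fin n → Chart X) (nd : Fin n → Bool) (h : ∀ i, HasType T (χ i) (nd i))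
    (hcov : ∀ x ∈ T, ∃ i, x ∈ (χ i).U ∧ ‖(χ i).q x‖ < 1 / 2) :
    ∃ C r : ℝ, 1 ≤ C ∧ 0 < r ∧ ∀ (i : Fin n) (b : Bool), (b = true → nd i = true) →
      ∀ p : ℂ × ℂ, ‖p.2‖ = 1 → ‖p.1‖ ≤ r →
        ∃ (k : Fin n) (b' : Bool), (b' = true → nd k = true) ∧
          Transition C ((χ i).orient b) ((χ k).orient b') (nd k) p := by
  have hone : ∀ ib : Fin n × Bool, ∃ C r : ℝ, 1 ≤ C ∧ 0 < r ∧ ((ib.2 = true → nd ib.1 = true) →
      ∀ p : ℂ × ℂ, ‖p.2‖ = 1 → ‖p.1‖ ≤ r →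
        ∃ (k : Fin n) (b' : Bool), (b' = true → nd k = true) ∧
          Transition C ((χ ib.1).orient ib.2) ((χ k).orient b') (nd k) p) := by
    rintro ⟨i, b⟩
    by_cases hb : b = true → nd i = true
    · obtain ⟨C, r, hC, hr, hall⟩ := TECompact_one hX hT χ nd h hcov i b hb
      exact ⟨C, r, hC, hr, fun _ => hall⟩
    · exact ⟨1, 1, le_rfl, one_pos, fun hb' => absurd hb' hb⟩
  choose C r hC hr hall using hone
  obtain ⟨M, hM⟩ := Finite.exists_le C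
  obtain ⟨M', hM'⟩ := Finite.exists_le fun ib => (r ib)⁻¹
  refine ⟨max M 1, (max M' 1)⁻¹, le_max_right _ _, by positivity, fun i b hb p hp1 hp2 => ?_⟩
  have hr' : (max M' 1)⁻¹ ≤ r (i, b) := by
    rw [inv_le_comm₀ (by positivity) (hr _)]
    exact (hM' (i, b)).trans (le_max_left _ _)
  obtain ⟨k, b', hb', hk⟩ := hall (i, b) hb p hp1 (hp2.trans hr')
  exact ⟨k, b', hb', hk.mono (hC _) ((hM (i, b)).trans (le_max_left _ _))⟩

end Pool.Agent.H14.PP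

end
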