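import Pool.Agent.H94.CB.H17EF.PNDefs
import Pool.Agent.H94.CB.H62.EF.PrLip
import Pool.Agent.H94.CB.H7.Bir.Map
import Pool.Agent.H94.CB.M11
import Pool.Agent.H94.CB.M18
import Pool.Agent.H94.CB.M32
import Pool.Agent.H94.CB.M38
import Pool.Agent.H94.CB.M41
import Pool.Agent.H94.CB.M55
import Pool.Agent.H94.CB.M59
import Pool.Agent.H94.CB.M64

/-! The parts of this file: H5.BD.CInv, H5.BD.CAtlB, H5.BD.CAtlA, H5.BD.CAtl, H5.BD.CLoc, H5.BD.CMat, H7.Bir.Map_1, H7.Bir.Alg, H7.Bir.Main. -/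

section

/-!
# BD CInv: a quantitative inverse function theorem in one variable

`u` approximates the linear map `w ↦ u'(w₀) w` on the convex set `ball w₀ r` with the constant `a / 4` (`ApproximatesLinearOn`; mean value inequality for `u w - u'(w₀) w`), so
`‖u w - u w'‖ ≥ (a - a / 4) ‖w - w'‖`.  The image of `closedBall w₀ (2 r / 3)` contains `closedBall (u w₀) ((3 a / 4) (2 r / 3))`
(`ApproximatesLinearOn.surjOn_closedBall_of_nonlinearRightInverse`, or Banach's fixed point theorem for `w ↦ w - (u w - t) / u'(w₀)`).  Let `ξ t` be the unique preimage; `ξ` is Lipschitz by the first part, and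
holomorphic because `u'(ξ t) ≠ 0` (`HasDerivAt.of_local_left_inverse`).
-/

set_option autoImplicit false

open Topology Filter Metric

namespace Pool.Agent.H5.BD

attribute [-instance] ProperSMul.toContinuousSMul

private theorem inv_approx {u : ℂ → ℂ} {w₀ : ℂ} {r a : ℝ} (hu : DifferentiableOn ℂ u (ball w₀ r))
    (hlip : ∀ w ∈ ball w₀ r, ‖deriv u w - deriv u w₀‖ ≤ a / 4) {w w' : ℂ} (hw : w ∈ ball w₀ r) (hw' : w' ∈ ball w₀ r) :
    ‖u w - u w' - deriv u w₀ * (w - w')‖ ≤ a / 4 * ‖w - w'‖ := by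
  have h1 : ∀ z ∈ ball w₀ r, HasDerivWithinAt (fun z => u z - deriv u w₀ * z) (deriv u z - deriv u w₀) (ball w₀ r) z := by
    intro z hz
    have h2 : HasDerivAt u (deriv u z) z := (hu.differentiableAt (isOpen_ball.mem_nhds hz)).hasDerivAt
    have h3 : HasDerivAt (fun z => deriv u w₀ * z) (deriv u w₀) z := by
      simpa using (hasDerivAt_id z).const_mul (deriv u w₀)
    exact (h2.sub h3).hasDerivWithinAt
  have h4 := (convex_ball w₀ r).norm_image_sub_le_of_norm_hasDerivWithin_le h1 hlip hw' hw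
  have h5 : u w - deriv u w₀ * w - (u w' - deriv u w₀ * w') = u w - u w' - deriv u w₀ * (w - w') := by ring
  rwa [h5] at h4

private theorem inv_lower {u : ℂ → ℂ} {w₀ : ℂ} {r a : ℝ} (ha : 0 < a) (hu : DifferentiableOn ℂ u (ball w₀ r))
    (h0 : a ≤ ‖deriv u w₀‖) (hlip : ∀ w ∈ ball w₀ r, ‖deriv u w - deriv u w₀‖ ≤ a / 4) {w w' : ℂ}
    (hw : w ∈ ball w₀ r) (hw' : w' ∈ ball w₀ r) : (a / 2) * ‖w - w'‖ ≤ ‖u w - u w'‖ := by
  have h1 := inv_approx hu hlip hw hw'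
  have h2 : ‖deriv u w₀ * (w - w')‖ ≤ ‖u w - u w'‖ + ‖u w - u w' - deriv u w₀ * (w - w')‖ := by
    have h3 := norm_sub_le (u w - u w') (u w - u w' - deriv u w₀ * (w - w'))
    rwa [sub_sub_cancel] at h3
  rw [norm_mul] at h2
  have h3 : a * ‖w - w'‖ ≤ ‖deriv u w₀‖ * ‖w - w'‖ := mul_le_mul_of_nonneg_right h0 (norm_nonneg _)
  have h4 : 0 ≤ a * ‖w - w'‖ := by positivity
  linarith

private theorem inv_surj {u : ℂ → ℂ} {w₀ : ℂ} {r a : ℝ} (hr : 0 < r) (ha : 0 < a) (hu : DifferentiableOn ℂ u (ball w₀ r))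
    (h0 : a ≤ ‖deriv u w₀‖) (hlip : ∀ w ∈ ball w₀ r, ‖deriv u w - deriv u w₀‖ ≤ a / 4) {t : ℂ} (ht : t ∈ ball (u w₀) (a * r / 4)) :
    ∃ w ∈ ball w₀ r, u w = t := by
  have hne : deriv u w₀ ≠ 0 := by
    intro h
    rw [h, norm_zero] at h0
    linarith
  let f' : ℂ →L[ℂ] ℂ := ContinuousLinearMap.toSpanSingleton ℂ (deriv u w₀)
  have hf' : ∀ x, f' x = deriv u w₀ * x := fun x => by
    show x • deriv u w₀ = deriv u w₀ * x
    rw [smul_eq_mul, mul_comm]
  let c : NNReal := ⟨a / 4, by positivity⟩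
  have happ : ApproximatesLinearOn u f' (ball w₀ r) c := by
    intro x hx y hy
    rw [hf']
    exact inv_approx hu hlip hx hy
  let g' : f'.NonlinearRightInverse :=
    { toFun := fun y => (deriv u w₀)⁻¹ * y
      nnnorm := ⟨a⁻¹, by positivity⟩
      bound' := fun y => by
        rw [norm_mul, norm_inv]
        exact mul_le_mul_of_nonneg_right (inv_anti₀ ha h0) (norm_nonneg _)
      right_inv' := fun y => by
        rw [hf', mul_inv_cancel_left₀ hne] }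
  have hsub : closedBall w₀ (2 * r / 3) ⊆ ball w₀ r := closedBall_subset_ball (by linarith)
  have hsurj := happ.surjOn_closedBall_of_nonlinearRightInverse g' (ε := 2 * r / 3) (b := w₀) (by positivity) hsub
  have hmem : t ∈ closedBall (u w₀) (((g'.nnnorm : ℝ)⁻¹ - c) * (2 * r / 3)) := by
    have h1 : ((g'.nnnorm : ℝ)⁻¹ - c) * (2 * r / 3) = a * r / 2 := by
      show ((a⁻¹ : ℝ)⁻¹ - a / 4) * (2 * r / 3) = a * r / 2
      rw [inv_inv]
      ring
    rw [h1]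
    refine closedBall_subset_closedBall ?_ (ball_subset_closedBall ht)
    have : 0 < a * r := mul_pos ha hr
    linarith
  obtain ⟨w, hw, hwt⟩ := hsurj hmem
  exact ⟨w, hsub hw, hwt⟩

theorem exists_inv {u : ℂ → ℂ} {w₀ : ℂ} {r a : ℝ} (hr : 0 < r) (ha : 0 < a) (hu : DifferentiableOn ℂ u (ball w₀ r))
    (h0 : a ≤ ‖deriv u w₀‖) (hlip : ∀ w ∈ ball w₀ r, ‖deriv u w - deriv u w₀‖ ≤ a / 4) :
    (∀ w ∈ ball w₀ r, ∀ w' ∈ ball w₀ r, (a / 2) * ‖w - w'‖ ≤ ‖u w - u w'‖) ∧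
      ∃ ξ : ℂ → ℂ, DifferentiableOn ℂ ξ (ball (u w₀) (a * r / 4)) ∧ ∀ t ∈ ball (u w₀) (a * r / 4), ξ t ∈ ball w₀ r ∧ u (ξ t) = t := by
  classical
  have hlow : ∀ w ∈ ball w₀ r, ∀ w' ∈ ball w₀ r, (a / 2) * ‖w - w'‖ ≤ ‖u w - u w'‖ :=
    fun w hw w' hw' => inv_lower ha hu h0 hlip hw hw'
  refine ⟨hlow, ?_⟩
  have hex : ∀ t : ℂ, ∃ w : ℂ, t ∈ ball (u w₀) (a * r / 4) → w ∈ ball w₀ r ∧ u w = t := by
    intro t
    by_cases ht : t ∈ ball (u w₀) (a * r / 4)
    · obtain ⟨w, hw, hwt⟩ := inv_surj hr ha hu h0 hlip ht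
      exact ⟨w, fun _ => ⟨hw, hwt⟩⟩
    · exact ⟨w₀, fun h => absurd h ht⟩
  choose ξ hξ using hex
  refine ⟨ξ, fun t ht => ?_, fun t ht => hξ t ht⟩
  have hnhds : ball (u w₀) (a * r / 4) ∈ 𝓝 t := isOpen_ball.mem_nhds ht
  have hcont : ContinuousAt ξ t := by
    have h1 : ∀ᶠ s in 𝓝 t, ‖ξ s - ξ t‖ ≤ 2 / a * ‖s - t‖ := by
      filter_upwards [hnhds] with s hs
      have h2 := hlow (ξ s) (hξ s hs).1 (ξ t) (hξ t ht).1
      rw [(hξ s hs).2, (hξ t ht).2] at h2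
      rw [div_mul_eq_mul_div, le_div_iff₀ ha]
      linarith
    rw [ContinuousAt, tendsto_iff_norm_sub_tendsto_zero]
    refine squeeze_zero' (Eventually.of_forall fun s => norm_nonneg _) h1 ?_
    have h2 : Tendsto (fun s : ℂ => 2 / a * ‖s - t‖) (𝓝 t) (𝓝 (2 / a * ‖t - t‖)) :=
      ((continuous_id.sub continuous_const).norm.const_mul (2 / a)).tendsto t |>.congr fun _ => rfl
    simpa using h2
  have hd : HasDerivAt u (deriv u (ξ t)) (ξ t) :=
    (hu.differentiableAt (isOpen_ball.mem_nhds (hξ t ht).1)).hasDerivAt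
  have hne : deriv u (ξ t) ≠ 0 := by
    intro h
    have h1 := hlip (ξ t) (hξ t ht).1
    rw [h, zero_sub, norm_neg] at h1
    linarith
  have hinv : ∀ᶠ s in 𝓝 t, u (ξ s) = s := by
    filter_upwards [hnhds] with s hs
    exact (hξ s hs).2
  exact (HasDerivAt.of_local_left_inverse hcont hd hne hinv).differentiableAt.differentiableWithinAt

end Pool.Agent.H5.BD

end

section

/-!
# BD CAtlB: changes of charts

Let `τ p = χ'.q (χ.σ p)` and `P = {p | ‖p‖ ≤ 1 / 2 ∧ χ.σ p ∈ χ'.U ∧ ‖χ'.q (χ.σ p)‖ ≤ 1 / 2}`.  If `Good χ x` and `Good χ' x` then `χ.q x ∈ P` and `τ (χ.q x) = χ'.q x` (`x = a • χ.σ (χ.q x)`,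
`q_smul`).  `τ` is analytic at the points of `P` (`σ_an`, `q_an`), `jac τ p ≠ 0` for `p ∈ P` (`jac_ne_zero` in `H14/PP/NodeGerm.lean`), and `P` is compact: it is closed because
`{x ∈ X | x ∈ χ'.U, ‖χ'.q x‖ ≤ 1 / 2}` is closed in `X` (see `H14/PP/ChartClosed.lean`; or: if `x n ∈ X ∩ χ'.U`, `‖χ'.q (x n)‖ ≤ 1 / 2`, `x n → x ∈ X` then `x n = a n • χ'.σ (χ'.q (x n))`,
`χ'.q (x n) → p'`, `‖p'‖ ≤ 1 / 2` along an ultrafilter, `a n` converges because `χ'.σ p' ≠ 0` and `‖x‖ ≠ 0`, so `x = a • χ'.σ p'`, `a ≠ 0`, is in `χ'.U`).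
`‖fderiv τ p‖` and `‖jac τ p‖⁻¹` are continuous on `P`, hence bounded.
Second order: otherwise there are `p n, p' n ∈ P` with `‖τ (p' n) - τ (p n) - Dτ_{p n} (p' n - p n)‖ > n ‖p' n - p n‖²`; along an ultrafilter `p n → p`, `p' n → p'` in `P`.  The left hand side is bounded
(`fderiv` is bounded on `P`, `τ` too), so `p = p'`.  `τ` is analytic near `p`; on a small ball around `p` `fderiv τ` is Lipschitz with a constant `M`, so
`‖τ y - τ x - Dτ_x (y - x)‖ ≤ M ‖y - x‖²` there (mean value inequality for `y ↦ τ y - Dτ_x y` on the segment).  Contradiction for `n > M`.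
-/

set_option autoImplicit false

open Topology Filter Metric

namespace Pool.Agent.H5.BD

attribute [-instance] ProperSMul.toContinuousSMul

open Pool.Agent.H36.BP (EN fs wd)
open Pool.Agent.H14.PP (IsCone Chart Form Tan aCoef jac)
open Pool.Agent.H62.EF (MN pr det2)

variable {N : ℕ} {X : Set (EN N)}

/-- the common domain of two charts -/
private def CAtlB_P {X : Set (EN N)} (χ χ' : Chart X) : Set (ℂ × ℂ) :=
  {p | ‖p‖ ≤ 1 / 2 ∧ χ.σ p ∈ χ'.U ∧ ‖χ'.q (χ.σ p)‖ ≤ 1 / 2}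

private theorem CAtlB_ball {χ χ' : Chart X} {p : ℂ × ℂ} (hp : p ∈ CAtlB_P χ χ') : p ∈ ball (0 : ℂ × ℂ) 2 := by
  rw [mem_ball, dist_zero_right]
  linarith [hp.1]

private theorem CAtlB_compact (hX : IsCone X) (χ χ' : Chart X) : IsCompact (CAtlB_P χ χ') := by
  have hcomp : IsCompact (closedBall (0 : ℂ × ℂ) (1 / 2)) := isCompact_closedBall _ _
  have hcont : ContinuousOn χ.σ (closedBall (0 : ℂ × ℂ) (1 / 2)) := fun p hp =>
    (χ.σ_an p (closedBall_subset_ball (by norm_num) hp)).continuousAt.continuousWithinAt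
  have hcl := Pool.Agent.H14.PP.Chart.isClosed hX χ' (r := 1 / 2) (by norm_num) (by norm_num)
  have h1 : IsClosed (closedBall (0 : ℂ × ℂ) (1 / 2) ∩ χ.σ ⁻¹' (insert (0 : EN N) {x | x ∈ X ∧ x ∈ χ'.U ∧ ‖χ'.q x‖ ≤ 1 / 2})) :=
    hcont.preimage_isClosed_of_isClosed isClosed_closedBall hcl
  have h2 : CAtlB_P χ χ' = closedBall (0 : ℂ × ℂ) (1 / 2) ∩
      χ.σ ⁻¹' (insert (0 : EN N) {x | x ∈ X ∧ x ∈ χ'.U ∧ ‖χ'.q x‖ ≤ 1 / 2}) := by
    ext p
    constructor
    · rintro ⟨h3, h4, h5⟩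
      refine ⟨mem_closedBall_zero_iff.2 h3, Or.inr ⟨(χ.σ_mem p ?_).1, h4, h5⟩⟩
      rw [mem_ball, dist_zero_right]
      linarith
    · rintro ⟨h3, h4⟩
      have h5 : p ∈ ball (0 : ℂ × ℂ) 2 := closedBall_subset_ball (by norm_num) h3
      rcases h4 with h4 | h4
      · exact absurd h4 (χ.sigma_ne_zero hX h5)
      · exact ⟨mem_closedBall_zero_iff.1 h3, h4.2.1, h4.2.2⟩
  rw [h2]
  exact hcomp.of_isClosed_subset h1 Set.inter_subset_left

private theorem CAtlB_an {χ χ' : Chart X} {p : ℂ × ℂ} (hp : p ∈ CAtlB_P χ χ') : AnalyticAt ℂ (fun y => χ'.q (χ.σ y)) p :=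
  AnalyticAt.comp (g := χ'.q) (f := χ.σ) (χ'.q_an _ hp.2.1) (χ.σ_an p (CAtlB_ball hp))

private theorem CAtlB_mem (χ χ' : Chart X) {x : EN N} (h : Good χ x) (h' : Good χ' x) :
    χ.q x ∈ CAtlB_P χ χ' ∧ χ'.q (χ.σ (χ.q x)) = χ'.q x := by
  obtain ⟨h1, c, hc, h2⟩ := χ.surj x h.1 h.2.1
  have h3 : χ.σ (χ.q x) = c⁻¹ • x := by
    conv_rhs => rw [h2]
    rw [smul_smul, inv_mul_cancel₀ hc, one_smul]
  have hc' : c⁻¹ ≠ 0 := inv_ne_zero hc
  have h4 : χ'.q (χ.σ (χ.q x)) = χ'.q x := by rw [h3, χ'.q_smul x h'.2.1 _ hc']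
  refine ⟨⟨h.2.2, ?_, ?_⟩, h4⟩
  · rw [h3]; exact χ'.smul_U x h'.2.1 _ hc'
  · rw [h4]; exact h'.2.2

/-- the second order estimate near a point -/
private theorem CAtlB_taylor {τ : ℂ × ℂ → ℂ × ℂ} {p : ℂ × ℂ} (h : AnalyticAt ℂ τ p) :
    ∃ (r M : ℝ), 0 < r ∧ 0 ≤ M ∧ ∀ x ∈ ball p r, ∀ y ∈ ball p r, ‖τ y - τ x - fderiv ℂ τ x (y - x)‖ ≤ M * ‖y - x‖ ^ 2 := by
  have h1 : ContDiffAt ℂ 1 (fderiv ℂ τ) p := h.fderiv.contDiffAt
  obtain ⟨K, t, ht, hK⟩ := h1.exists_lipschitzOnWith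
  obtain ⟨r, hr, hrt⟩ := Metric.mem_nhds_iff.1 (Filter.inter_mem ht h.eventually_analyticAt)
  refine ⟨r, K, hr, K.2, fun x hx y hy => ?_⟩
  have hseg : segment ℝ x y ⊆ ball p r := (convex_ball p r).segment_subset hx hy
  have h2 : ∀ z ∈ segment ℝ x y, HasFDerivWithinAt τ (fderiv ℂ τ z) (segment ℝ x y) z := fun z hz =>
    (hrt (hseg hz)).2.differentiableAt.hasFDerivAt.hasFDerivWithinAt
  have h3 : ∀ z ∈ segment ℝ x y, ‖fderiv ℂ τ z - fderiv ℂ τ x‖ ≤ K * ‖y - x‖ := by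
    intro z hz
    refine (hK.norm_sub_le (hrt (hseg hz)).1 (hrt hx).1).trans ?_
    exact mul_le_mul_of_nonneg_left (norm_sub_le_of_mem_segment hz) K.2
  have h4 := Convex.norm_image_sub_le_of_norm_hasFDerivWithin_le' h2 h3 (convex_segment x y) (left_mem_segment ℝ x y)
    (right_mem_segment ℝ x y)
  calc ‖τ y - τ x - fderiv ℂ τ x (y - x)‖ ≤ K * ‖y - x‖ * ‖y - x‖ := h4
    _ = K * ‖y - x‖ ^ 2 := by ring

/-- the second order estimate on a compact set -/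
private theorem CAtlB_second {τ : ℂ × ℂ → ℂ × ℂ} {P : Set (ℂ × ℂ)} (hP : IsCompact P) (h : ∀ p ∈ P, AnalyticAt ℂ τ p) :
    ∃ C : ℝ, 0 ≤ C ∧ ∀ x ∈ P, ∀ y ∈ P, ‖τ y - τ x - fderiv ℂ τ x (y - x)‖ ≤ C * ‖y - x‖ ^ 2 := by
  have hcont : ContinuousOn (fun z : (ℂ × ℂ) × (ℂ × ℂ) => ‖τ z.2 - τ z.1 - fderiv ℂ τ z.1 (z.2 - z.1)‖) (P ×ˢ P) := by
    have hτ : ContinuousOn τ P := fun p hp => (h p hp).continuousAt.continuousWithinAt
    have hd : ContinuousOn (fderiv ℂ τ) P := fun p hp => (h p hp).fderiv.continuousAt.continuousWithinAt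
    have h1 : ContinuousOn (fun z : (ℂ × ℂ) × (ℂ × ℂ) => τ z.2) (P ×ˢ P) := hτ.comp continuousOn_snd fun z hz => hz.2
    have h2 : ContinuousOn (fun z : (ℂ × ℂ) × (ℂ × ℂ) => τ z.1) (P ×ˢ P) := hτ.comp continuousOn_fst fun z hz => hz.1
    have h3 : ContinuousOn (fun z : (ℂ × ℂ) × (ℂ × ℂ) => fderiv ℂ τ z.1) (P ×ˢ P) := hd.comp continuousOn_fst fun z hz => hz.1
    exact ((h1.sub h2).sub (h3.clm_apply (continuousOn_snd.sub continuousOn_fst))).norm
  have key : ∃ C : ℝ, 0 ≤ C ∧ ∀ z ∈ P ×ˢ P, ‖τ z.2 - τ z.1 - fderiv ℂ τ z.1 (z.2 - z.1)‖ ≤ C * ‖z.2 - z.1‖ ^ 2 := by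
    refine (hP.prod hP).induction_on (p := fun s => ∃ C : ℝ, 0 ≤ C ∧ ∀ z ∈ s, ‖τ z.2 - τ z.1 - fderiv ℂ τ z.1 (z.2 - z.1)‖ ≤ C * ‖z.2 - z.1‖ ^ 2)
      ⟨0, le_rfl, fun z hz => absurd hz (Set.notMem_empty z)⟩ ?_ ?_ ?_
    · rintro s t hst ⟨C, hC, hC'⟩
      exact ⟨C, hC, fun z hz => hC' z (hst hz)⟩
    · rintro s t ⟨C, hC, hC'⟩ ⟨D, hD, hD'⟩
      refine ⟨C + D, by linarith, fun z hz => ?_⟩
      rcases hz with hz | hz
      · exact (hC' z hz).trans (mul_le_mul_of_nonneg_right (by linarith) (by positivity))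
      · exact (hD' z hz).trans (mul_le_mul_of_nonneg_right (by linarith) (by positivity))
    · rintro ⟨p, p'⟩ hpp
      by_cases hne : p = p'
      · subst hne
        obtain ⟨r, M, hr, hM, hrM⟩ := CAtlB_taylor (h p hpp.1)
        refine ⟨ball p r ×ˢ ball p r, mem_nhdsWithin_of_mem_nhds (prod_mem_nhds (ball_mem_nhds p hr) (ball_mem_nhds p hr)), M, hM, ?_⟩
        rintro z hz
        exact hrM z.1 hz.1 z.2 hz.2
      · have hd : 0 < ‖p' - p‖ := norm_pos_iff.2 (sub_ne_zero.2 (Ne.symm hne))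
        set F : (ℂ × ℂ) × (ℂ × ℂ) → ℝ := fun z => ‖τ z.2 - τ z.1 - fderiv ℂ τ z.1 (z.2 - z.1)‖ with hF
        have h1 : ∀ᶠ z in 𝓝[P ×ˢ P] (p, p'), F z < F (p, p') + 1 := (hcont _ hpp).eventually_lt_const (by linarith)
        have h2 : ContinuousAt (fun z : (ℂ × ℂ) × (ℂ × ℂ) => ‖z.2 - z.1‖) (p, p') := by fun_prop
        have h3 : ∀ᶠ z in 𝓝 (p, p'), ‖p' - p‖ / 2 < ‖(z : (ℂ × ℂ) × (ℂ × ℂ)).2 - z.1‖ := h2.eventually_const_lt (by show ‖p' - p‖ / 2 < ‖p' - p‖; linarith)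
        have hF0 : 0 ≤ F (p, p') := norm_nonneg _
        refine ⟨{z | F z < F (p, p') + 1 ∧ ‖p' - p‖ / 2 < ‖z.2 - z.1‖}, h1.and (mem_nhdsWithin_of_mem_nhds h3),
          (F (p, p') + 1) / (‖p' - p‖ / 2) ^ 2, by positivity, ?_⟩
        rintro z ⟨hz1, hz2⟩
        have h4 : (‖p' - p‖ / 2) ^ 2 ≤ ‖z.2 - z.1‖ ^ 2 := pow_le_pow_left₀ (by positivity) hz2.le 2
        have h5 : (F (p, p') + 1) / (‖p' - p‖ / 2) ^ 2 * (‖p' - p‖ / 2) ^ 2 = F (p, p') + 1 := by
          field_simp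
        have h6 : (F (p, p') + 1) / (‖p' - p‖ / 2) ^ 2 * (‖p' - p‖ / 2) ^ 2 ≤ (F (p, p') + 1) / (‖p' - p‖ / 2) ^ 2 * ‖z.2 - z.1‖ ^ 2 :=
          mul_le_mul_of_nonneg_left h4 (by positivity)
        rw [h5] at h6
        exact hz1.le.trans h6
  obtain ⟨C, hC, hC'⟩ := key
  exact ⟨C, hC, fun x hx y hy => hC' (x, y) ⟨hx, hy⟩⟩

theorem chart_trans (hX : IsCone X) (χ χ' : Chart X) : ∃ C : ℝ, 1 ≤ C ∧
    (∀ x, Good χ x → Good χ' x → ‖fderiv ℂ (fun p => χ'.q (χ.σ p)) (χ.q x)‖ ≤ C ∧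
      1 ≤ C * ‖jac (fun p => χ'.q (χ.σ p)) (χ.q x)‖) ∧
    ∀ x y, Good χ x → Good χ' x → Good χ y → Good χ' y →
      ‖χ'.q y - χ'.q x - fderiv ℂ (fun p => χ'.q (χ.σ p)) (χ.q x) (χ.q y - χ.q x)‖ ≤ C * ‖χ.q y - χ.q x‖ ^ 2 := by
  have hP := CAtlB_compact hX χ χ'
  set τ : ℂ × ℂ → ℂ × ℂ := fun p => χ'.q (χ.σ p) with hτ
  have han : ∀ p ∈ CAtlB_P χ χ', AnalyticAt ℂ τ p := fun p hp => CAtlB_an hp
  have hfd : ContinuousOn (fderiv ℂ τ) (CAtlB_P χ χ') := fun p hp => (han p hp).fderiv.continuousAt.continuousWithinAt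
  obtain ⟨C₁, hC₁⟩ := hP.exists_bound_of_continuousOn hfd
  have hjc : ContinuousOn (jac τ) (CAtlB_P χ χ') := by
    unfold jac
    have h1 : ∀ v : ℂ × ℂ, ContinuousOn (fun p => fderiv ℂ τ p v) (CAtlB_P χ χ') := fun v => hfd.clm_apply continuousOn_const
    exact ((h1 (1, 0)).fst.mul (h1 (0, 1)).snd).sub ((h1 (0, 1)).fst.mul (h1 (1, 0)).snd)
  have hj0 : ∀ p ∈ CAtlB_P χ χ', jac τ p ≠ 0 := fun p hp => Pool.Agent.H14.PP.jac_ne_zero hX χ χ' (CAtlB_ball hp) hp.2.1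
  obtain ⟨C₂, hC₂⟩ := hP.exists_bound_of_continuousOn (hjc.inv₀ hj0)
  obtain ⟨C₃, hC₃, hC₃'⟩ := CAtlB_second hP han
  refine ⟨1 + |C₁| + |C₂| + C₃, by have := abs_nonneg C₁; have := abs_nonneg C₂; linarith, fun x hx hx' => ⟨?_, ?_⟩, fun x y hx hx' hy hy' => ?_⟩
  · have h1 := hC₁ _ (CAtlB_mem χ χ' hx hx').1
    have h2 := le_abs_self C₁
    have h3 := abs_nonneg C₂
    linarith
  · have hm := (CAtlB_mem χ χ' hx hx').1
    have h1 := hC₂ _ hm
    have h2 := le_abs_self C₂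
    have h3 := abs_nonneg C₁
    have h4 : 0 < ‖jac τ (χ.q x)‖ := norm_pos_iff.2 (hj0 _ hm)
    rw [Pi.inv_apply, norm_inv, inv_le_iff_one_le_mul₀ h4] at h1
    refine h1.trans (mul_le_mul_of_nonneg_right ?_ h4.le)
    linarith
  · obtain ⟨hm, he⟩ := CAtlB_mem χ χ' hx hx'
    obtain ⟨hm', he'⟩ := CAtlB_mem χ χ' hy hy'
    have h1 := hC₃' _ hm _ hm'
    have h2 : τ (χ.q x) = χ'.q x := he
    have h3 : τ (χ.q y) = χ'.q y := he'
    rw [h2, h3] at h1
    refine h1.trans (mul_le_mul_of_nonneg_right ?_ (by positivity))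
    have h4 := abs_nonneg C₁
    have h5 := abs_nonneg C₂
    linarith

end Pool.Agent.H5.BD

end

section

/-!
# BD CAtlA: a finite cover by charts; a chart is bi-Lipschitz

`exists_cover`.  For `x₀ ∈ X` let `χ` be a chart with `x₀ ∈ χ.U`, `χ.q x₀ = 0` (`Charts`).  `{y ∈ χ.U | ‖χ.q y‖ < 1 / 2}` is a neighbourhood of `x₀` and closed under multiplication by non-zero
constants (`smul_U`, `q_smul`), so by `near_of_pr` there is `d x₀ > 0` such that `Good χ y` for all `y ∈ X` with `dist (pr y) (pr x₀) < 2 d x₀`.  The compact set `pr '' X` (`isCompact_pr`) is covered by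
finitely many balls `ball (pr (x i)) (d (x i))`, `i : Fin n`, `n ≥ 1` (add one if necessary; `X` is not empty).  `δ = min (d (x i))`, and `idx y` is an `i` with
`dist y (pr (x i)) < d (x i)` if there is one, and arbitrary otherwise.

`chart_bilip`.  Let `P = closedBall (0 : ℂ × ℂ) (1 / 2)`.  If `Good χ x` then `x = a • χ.σ (χ.q x)`, `a ≠ 0` (`surj`), so `pr x = pr (χ.σ (χ.q x))` (`pr_smul`), `χ.q x ∈ P`.
(a) Lipschitz: `dist (pr y) (pr y') = √2 wd y y' / (‖y‖ ‖y'‖)` (`dist_pr`) `≤ √2 ‖y - y'‖ / ‖y'‖`-like (`wd y y' = wd y (y' - y) ≤ ‖y‖ ‖y' - y‖`), `‖χ.σ p‖` is bounded below on `P`, and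
`χ.σ` is Lipschitz on the convex compact set `P` (analytic on `ball 0 2`).
(b) Otherwise there are `p n, p' n ∈ P` with `‖p n - p' n‖ > n * dist (pr (χ.σ (p n))) (pr (χ.σ (p' n)))`; along an ultrafilter `p n → p`, `p' n → p'`; `pr (χ.σ p) = pr (χ.σ p')`, so `χ.σ p` is a
multiple of `χ.σ p'` (`pr_eq_iff`) and `p = χ.q (χ.σ p) = p'`.  Let `x₀ = χ.σ p`.  For a matrix `y` near `pr x₀` let `Q y = χ.q (y ⬝ x₀)`, `(y ⬝ x₀) i = ∑ j, y (i, j) * x₀ j`: `y ↦ y ⬝ x₀` is linear,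
`(pr x) ⬝ x₀ = (⟨x, x₀⟩ / ‖x‖²) • x` (compare `H62/EF/Loc.lean`), `(pr x₀) ⬝ x₀ = x₀`, so `Q` is analytic at `pr x₀`, hence Lipschitz near `pr x₀`, and `χ.q x = Q (pr x)` for `x ∈ χ.U` with `pr x` near
`pr x₀`.  So `‖p n - p' n‖ ≤ K dist (pr (χ.σ (p n))) (pr (χ.σ (p' n)))` for almost all `n`: contradiction.
-/

set_option autoImplicit false

open Topology Filter Metric

namespace Pool.Agent.H5.BD

attribute [-instance] ProperSMul.toContinuousSMul

open Pool.Agent.H36.BP (EN fs wd)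
open Pool.Agent.H14.PP (IsCone Chart Form Tan jac)
open Pool.Agent.H62.EF (MN pr det2 Charts)

variable {N : ℕ} {X : Set (EN N)}

/-- the points near a point of the cone are in the middle of a chart -/
private theorem CAtlA_near (hX : IsCone X) (hch : Charts X) {x₀ : EN N} (hx₀ : x₀ ∈ X) :
    ∃ (χ : Chart X) (δ : ℝ), 0 < δ ∧ ∀ y ∈ X, dist (pr y) (pr x₀) < δ → Good χ y := by
  obtain ⟨χ, hU, hq⟩ := hch x₀ hx₀
  have hV : {y | y ∈ χ.U ∧ ‖χ.q y‖ < 1 / 2} ∈ 𝓝 x₀ := by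
    have h1 : ∀ᶠ y in 𝓝 x₀, y ∈ χ.U := χ.isOpen_U.mem_nhds hU
    have h2 : ∀ᶠ y in 𝓝 x₀, ‖χ.q y‖ < 1 / 2 := by
      have hc : ContinuousAt (fun y => ‖χ.q y‖) x₀ := (χ.q_an x₀ hU).continuousAt.norm
      apply hc.eventually_lt_const
      change ‖χ.q x₀‖ < 1 / 2
      rw [hq, norm_zero]
      norm_num
    exact h1.and h2
  obtain ⟨δ, hδ, h⟩ := Pool.Agent.H62.EF.near_of_pr (hX.ne_zero hx₀) hV
  refine ⟨χ, δ, hδ, fun y hy hd => ?_⟩
  obtain ⟨c, hc, hcU, hcq⟩ := h y (hX.ne_zero hy) hd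
  have hy' : c⁻¹ • (c • y) = y := by
    rw [smul_smul, inv_mul_cancel₀ hc, one_smul]
  have hyU : y ∈ χ.U := by
    rw [← hy']
    exact χ.smul_U _ hcU _ (inv_ne_zero hc)
  refine ⟨hy, hyU, ?_⟩
  rw [← χ.q_smul y hyU c hc]
  exact hcq.le

theorem exists_cover (hX : IsCone X) (hch : Charts X) (hne : X.Nonempty) :
    ∃ (n : ℕ) (χ : Fin n → Chart X) (idx : MN N → Fin n) (δ : ℝ), 0 < δ ∧
      ∀ x ∈ X, ∀ y ∈ X, dist (pr x) (pr y) ≤ δ → Good (χ (idx (pr x))) y := by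
  classical
  choose! χ d hd hgood using fun x : X => CAtlA_near hX hch x.2
  obtain ⟨t, ht⟩ := (Pool.Agent.H62.EF.isCompact_pr hX).elim_finite_subcover
    (fun x : X => ball (pr (x : EN N)) (d x / 2)) (fun _ => isOpen_ball) (by
      rintro _ ⟨x, hx, rfl⟩
      rw [Set.mem_iUnion]
      exact ⟨⟨x, hx⟩, mem_ball_self (half_pos (hd _))⟩)
  have htne : t.Nonempty := by
    obtain ⟨x, hx⟩ := hne
    have := ht (Set.mem_image_of_mem pr hx)
    rw [Set.mem_iUnion₂] at this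
    obtain ⟨i, hi, -⟩ := this
    exact ⟨i, hi⟩
  obtain ⟨m, hm, hmin⟩ := t.exists_min_image (fun x => d x / 2) htne
  have hcard : 0 < t.card := htne.card_pos
  let e : Fin t.card ≃ t := t.equivFin.symm
  let idx : MN N → Fin t.card := fun y =>
    if h : ∃ i : Fin t.card, dist y (pr ((e i : X) : EN N)) < d (e i) / 2 then h.choose else ⟨0, hcard⟩
  refine ⟨t.card, fun i => χ (e i), idx, d m / 2, half_pos (hd m), ?_⟩
  intro x hx y hy hxy
  have hex : ∃ i : Fin t.card, dist (pr x) (pr ((e i : X) : EN N)) < d (e i) / 2 := by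
    have := ht (Set.mem_image_of_mem pr hx)
    rw [Set.mem_iUnion₂] at this
    obtain ⟨i, hi, hb⟩ := this
    refine ⟨e.symm ⟨i, hi⟩, ?_⟩
    rw [Equiv.apply_symm_apply]
    exact hb
  have hidx : idx (pr x) = hex.choose := dif_pos hex
  have hspec := hex.choose_spec
  rw [← hidx] at hspec
  apply hgood
  · exact hy
  · have h1 : d m / 2 ≤ d (e (idx (pr x))) / 2 := hmin _ (e (idx (pr x))).2
    calc dist (pr y) (pr ((e (idx (pr x)) : X) : EN N))
        ≤ dist (pr y) (pr x) + dist (pr x) (pr ((e (idx (pr x)) : X) : EN N)) := dist_triangle _ _ _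
      _ < d m / 2 + d (e (idx (pr x))) / 2 := by
          rw [dist_comm (pr y) (pr x)]
          exact add_lt_add_of_le_of_lt hxy hspec
      _ ≤ d (e (idx (pr x))) / 2 + d (e (idx (pr x))) / 2 := by linarith
      _ = d (e (idx (pr x))) := add_halves _

private theorem CAtlA_sub {p : ℂ × ℂ} (hp : p ∈ closedBall (0 : ℂ × ℂ) (1 / 2)) :
    p ∈ ball (0 : ℂ × ℂ) 2 :=
  closedBall_subset_ball (by norm_num) hp

private theorem CAtlA_cont (χ : Chart X) : ContinuousOn χ.σ (closedBall (0 : ℂ × ℂ) (1 / 2)) :=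
  fun p hp => (χ.σ_an p (CAtlA_sub hp)).continuousAt.continuousWithinAt

/-- the parametrization is Lipschitz -/
private theorem CAtlA_lip (χ : Chart X) : ∃ K : ℝ, 0 ≤ K ∧ ∀ p ∈ closedBall (0 : ℂ × ℂ) (1 / 2),
    ∀ p' ∈ closedBall (0 : ℂ × ℂ) (1 / 2), ‖χ.σ p' - χ.σ p‖ ≤ K * ‖p' - p‖ := by
  have hcont : ContinuousOn (fun p => ‖fderiv ℂ χ.σ p‖) (closedBall (0 : ℂ × ℂ) (1 / 2)) :=
    fun p hp => (χ.σ_an p (CAtlA_sub hp)).fderiv.continuousAt.norm.continuousWithinAt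
  obtain ⟨K, hK⟩ := (isCompact_closedBall (0 : ℂ × ℂ) (1 / 2)).exists_bound_of_continuousOn hcont
  refine ⟨max K 0, le_max_right _ _, fun p hp p' hp' => ?_⟩
  have := (convex_closedBall (0 : ℂ × ℂ) (1 / 2)).norm_image_sub_le_of_norm_fderiv_le (𝕜 := ℂ) (f := χ.σ)
    (C := max K 0) (fun y hy => (χ.σ_an y (CAtlA_sub hy)).differentiableAt)
    (fun y hy => by
      have := hK y hy
      rw [norm_norm] at this
      exact this.trans (le_max_left _ _)) hp hp'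
  exact this

private theorem CAtlA_upper (hX : IsCone X) (χ : Chart X) : ∃ C : ℝ, 0 ≤ C ∧
    ∀ p ∈ closedBall (0 : ℂ × ℂ) (1 / 2), ∀ p' ∈ closedBall (0 : ℂ × ℂ) (1 / 2),
      dist (pr (χ.σ p)) (pr (χ.σ p')) ≤ C * ‖p - p'‖ := by
  obtain ⟨K, hK0, hK⟩ := CAtlA_lip χ
  obtain ⟨q, hq, hmin⟩ := (isCompact_closedBall (0 : ℂ × ℂ) (1 / 2)).exists_isMinOn
    ⟨0, mem_closedBall_self (by norm_num)⟩ (CAtlA_cont χ).norm
  have hm : 0 < ‖χ.σ q‖ := norm_pos_iff.2 (χ.sigma_ne_zero hX (CAtlA_sub hq))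
  refine ⟨Real.sqrt 2 * K / ‖χ.σ q‖, by positivity, fun p hp p' hp' => ?_⟩
  have h1 : χ.σ p ≠ 0 := χ.sigma_ne_zero hX (CAtlA_sub hp)
  have h2 : χ.σ p' ≠ 0 := χ.sigma_ne_zero hX (CAtlA_sub hp')
  have hwd : Pool.Agent.H36.BP.wd (χ.σ p) (χ.σ p') ≤ ‖χ.σ p‖ * ‖χ.σ p' - χ.σ p‖ := by
    have h3 := Pool.Agent.H36.BP.wd_inv (χ.σ p) (χ.σ p') 1 (-1)
    rw [one_smul, one_smul, neg_one_smul, ← sub_eq_add_neg, norm_one, one_pow, one_mul] at h3
    rw [← h3]
    exact Pool.Agent.H36.BP.wd_le _ _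
  have hmp : ‖χ.σ q‖ ≤ ‖χ.σ p'‖ := hmin hp'
  have hp0 : 0 < ‖χ.σ p‖ := norm_pos_iff.2 h1
  have hp0' : 0 < ‖χ.σ p'‖ := norm_pos_iff.2 h2
  rw [Pool.Agent.H62.EF.dist_pr h1 h2]
  calc Real.sqrt 2 * (Pool.Agent.H36.BP.wd (χ.σ p) (χ.σ p') / (‖χ.σ p‖ * ‖χ.σ p'‖))
      ≤ Real.sqrt 2 * ((‖χ.σ p‖ * ‖χ.σ p' - χ.σ p‖) / (‖χ.σ p‖ * ‖χ.σ p'‖)) := by
        gcongr
    _ = Real.sqrt 2 * (‖χ.σ p' - χ.σ p‖ / ‖χ.σ p'‖) := by
        rw [mul_div_mul_left _ _ hp0.ne']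
    _ ≤ Real.sqrt 2 * (K * ‖p' - p‖ / ‖χ.σ q‖) := by
        gcongr
        exact hK p hp p' hp'
    _ = Real.sqrt 2 * K / ‖χ.σ q‖ * ‖p - p'‖ := by
        rw [norm_sub_rev p' p]
        ring

/-- the product of a matrix and the vector `x₀` -/
private noncomputable def CAtlA_mul (x₀ : EN N) : MN N →ₗ[ℂ] EN N where
  toFun y := WithLp.toLp 2 fun i => ∑ j, y (i, j) * x₀ j
  map_add' y z := by
    ext i
    simp [add_mul, Finset.sum_add_distrib]
  map_smul' c y := by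
    ext i
    simp [Finset.mul_sum, mul_assoc]

private theorem CAtlA_mul_pr (x₀ x : EN N) :
    CAtlA_mul x₀ (pr x) = (inner ℂ x x₀ / ((‖x‖ ^ 2 : ℝ) : ℂ)) • x := by
  ext i
  simp only [CAtlA_mul, pr, LinearMap.coe_mk, AddHom.coe_mk, PiLp.smul_apply, smul_eq_mul]
  rw [PiLp.inner_apply, Finset.sum_div, Finset.sum_mul]
  refine Finset.sum_congr rfl fun j _ => ?_
  simp only [RCLike.inner_apply]
  ring

private theorem CAtlA_mul_self {x₀ : EN N} (hx₀ : x₀ ≠ 0) : CAtlA_mul x₀ (pr x₀) = x₀ := by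
  rw [CAtlA_mul_pr]
  have h1 : inner ℂ x₀ x₀ = ((‖x₀‖ ^ 2 : ℝ) : ℂ) := by
    rw [inner_self_eq_norm_sq_to_K]
    push_cast
    rfl
  rw [h1, div_self, one_smul]
  have : ‖x₀‖ ≠ 0 := norm_ne_zero_iff.2 hx₀
  exact_mod_cast pow_ne_zero 2 this

private theorem CAtlA_local (hX : IsCone X) (χ : Chart X) {a : ℂ × ℂ}
    (ha : a ∈ closedBall (0 : ℂ × ℂ) (1 / 2)) :
    ∃ K : ℝ, ∀ᶠ p : (ℂ × ℂ) × (ℂ × ℂ) in 𝓝 (a, a), p.1 ∈ ball (0 : ℂ × ℂ) 2 → p.2 ∈ ball (0 : ℂ × ℂ) 2 →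
      ‖p.1 - p.2‖ ≤ K * dist (pr (χ.σ p.1)) (pr (χ.σ p.2)) := by
  have haB := CAtlA_sub ha
  have hx₀ : χ.σ a ≠ 0 := χ.sigma_ne_zero hX haB
  set x₀ := χ.σ a with hx₀def
  let L : MN N →L[ℂ] EN N := LinearMap.toContinuousLinearMap (CAtlA_mul x₀)
  have hL : ∀ y, L y = CAtlA_mul x₀ y := fun y => rfl
  have hLx : L (pr x₀) = x₀ := by rw [hL, CAtlA_mul_self hx₀]
  have hQan : AnalyticAt ℂ (fun y => χ.q (L y)) (pr x₀) := by
    have h1 : AnalyticAt ℂ χ.q (L (pr x₀)) := by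
      rw [hLx]
      exact χ.q_an _ (χ.σ_mem a haB).2.1
    exact h1.comp (L.analyticAt _)
  obtain ⟨K, s, hs, hK⟩ := hQan.hasStrictFDerivAt.exists_lipschitzOnWith
  have hcpr : ContinuousAt (fun p => pr (χ.σ p)) a :=
    ContinuousAt.comp (g := pr) (Pool.Agent.H62.EF.continuousAt_pr hx₀) (χ.σ_an a haB).continuousAt
  have h1 : ∀ᶠ p in 𝓝 a, pr (χ.σ p) ∈ s := hcpr hs
  have h2 : ∀ᶠ p in 𝓝 a, L (pr (χ.σ p)) ≠ 0 := by
    have hc : ContinuousAt (fun p => L (pr (χ.σ p))) a :=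
      ContinuousAt.comp (g := L) L.continuous.continuousAt hcpr
    apply hc.eventually_ne
    rw [← hx₀def, hLx]
    exact hx₀
  have h3 : ∀ p, p ∈ ball (0 : ℂ × ℂ) 2 → L (pr (χ.σ p)) ≠ 0 → χ.q (L (pr (χ.σ p))) = p := by
    intro p hp hne
    rw [hL, CAtlA_mul_pr] at hne ⊢
    have hc : inner ℂ (χ.σ p) x₀ / ((‖χ.σ p‖ ^ 2 : ℝ) : ℂ) ≠ 0 := by
      intro h0
      rw [h0, zero_smul] at hne
      exact hne rfl
    rw [χ.q_smul _ (χ.σ_mem p hp).2.1 _ hc]
    exact (χ.σ_mem p hp).2.2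
  refine ⟨K, ?_⟩
  have h12 := h1.and h2
  rw [nhds_prod_eq]
  filter_upwards [h12.prod_mk h12] with p hp hp1 hp2
  have h4 := hK.dist_le_mul _ hp.1.1 _ hp.2.1
  simp only [h3 p.1 hp1 hp.1.2, h3 p.2 hp2 hp.2.2] at h4
  rw [dist_eq_norm p.1 p.2] at h4
  exact h4

private theorem CAtlA_lower (hX : IsCone X) (χ : Chart X) : ∃ C : ℝ,
    ∀ p ∈ closedBall (0 : ℂ × ℂ) (1 / 2), ∀ p' ∈ closedBall (0 : ℂ × ℂ) (1 / 2),
      ‖p - p'‖ ≤ C * dist (pr (χ.σ p)) (pr (χ.σ p')) := by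
  by_contra hcon
  push Not at hcon
  choose p hp p' hp' hlt using fun n : ℕ => hcon n
  have hcomp : IsCompact (closedBall (0 : ℂ × ℂ) (1 / 2) ×ˢ closedBall (0 : ℂ × ℂ) (1 / 2)) :=
    (isCompact_closedBall _ _).prod (isCompact_closedBall _ _)
  obtain ⟨⟨a, b⟩, ⟨ha, hb⟩, φ, hφ, hlim⟩ := hcomp.tendsto_subseq
    (x := fun n => (p n, p' n)) (fun n => ⟨hp n, hp' n⟩)
  have hlim' : Tendsto (fun n => (p (φ n), p' (φ n))) atTop (𝓝 (a, b)) := hlim
  have hla : Tendsto (fun n => p (φ n)) atTop (𝓝 a) :=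
    (continuous_fst.tendsto (a, b)).comp hlim'
  have hlb : Tendsto (fun n => p' (φ n)) atTop (𝓝 b) :=
    (continuous_snd.tendsto (a, b)).comp hlim'
  have hφt : Tendsto (fun n => ((φ n : ℕ) : ℝ)) atTop atTop :=
    tendsto_natCast_atTop_atTop.comp hφ.tendsto_atTop
  have hca : ∀ c ∈ closedBall (0 : ℂ × ℂ) (1 / 2), ContinuousAt (fun p => pr (χ.σ p)) c := fun c hc =>
    ContinuousAt.comp (g := pr) (Pool.Agent.H62.EF.continuousAt_pr (χ.sigma_ne_zero hX (CAtlA_sub hc)))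
      (χ.σ_an c (CAtlA_sub hc)).continuousAt
  have hab : a = b := by
    have hd : Tendsto (fun n => dist (pr (χ.σ (p (φ n)))) (pr (χ.σ (p' (φ n))))) atTop
        (𝓝 (dist (pr (χ.σ a)) (pr (χ.σ b)))) :=
      ((hca a ha).tendsto.comp hla).dist ((hca b hb).tendsto.comp hlb)
    have hd0 : Tendsto (fun n => dist (pr (χ.σ (p (φ n)))) (pr (χ.σ (p' (φ n))))) atTop (𝓝 0) := by
      refine squeeze_zero' (Eventually.of_forall fun n => dist_nonneg) ?_
        (tendsto_inv_atTop_zero.comp hφt)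
      filter_upwards [hφt.eventually_gt_atTop 0] with n hn
      have h1 := hlt (φ n)
      have h2 : ‖p (φ n) - p' (φ n)‖ ≤ 1 := by
        have h3 := mem_closedBall_zero_iff.1 (hp (φ n))
        have h4 := mem_closedBall_zero_iff.1 (hp' (φ n))
        calc ‖p (φ n) - p' (φ n)‖ ≤ ‖p (φ n)‖ + ‖p' (φ n)‖ := norm_sub_le _ _
          _ ≤ 1 / 2 + 1 / 2 := add_le_add h3 h4
          _ = 1 := by norm_num
      simp only [Function.comp_apply]
      rw [← one_div, le_div_iff₀ hn, mul_comm]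
      exact (h1.trans_le h2).le
    have h0 : dist (pr (χ.σ a)) (pr (χ.σ b)) = 0 := tendsto_nhds_unique hd hd0
    obtain ⟨c, hc, hcab⟩ := (Pool.Agent.H62.EF.pr_eq_iff (χ.sigma_ne_zero hX (CAtlA_sub ha))
      (χ.sigma_ne_zero hX (CAtlA_sub hb))).1 (dist_eq_zero.1 h0)
    have h1 := (χ.σ_mem a (CAtlA_sub ha)).2.2
    have h2 := (χ.σ_mem b (CAtlA_sub hb)).2
    rw [← h1, hcab, χ.q_smul _ h2.1 c hc, h2.2]
  subst hab
  obtain ⟨K, hK⟩ := CAtlA_local hX χ ha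
  obtain ⟨n, hn, hnK⟩ := ((hlim'.eventually hK).and (hφt.eventually_ge_atTop K)).exists
  have h1 := hn (CAtlA_sub (hp _)) (CAtlA_sub (hp' _))
  have h2 := hlt (φ n)
  have h3 : K * dist (pr (χ.σ (p (φ n)))) (pr (χ.σ (p' (φ n)))) ≤
      (φ n : ℝ) * dist (pr (χ.σ (p (φ n)))) (pr (χ.σ (p' (φ n)))) :=
    mul_le_mul_of_nonneg_right hnK dist_nonneg
  exact absurd (h1.trans h3) (not_le.2 h2)

theorem chart_bilip (hX : IsCone X) (χ : Chart X) : ∃ C : ℝ, 1 ≤ C ∧ ∀ x y, Good χ x → Good χ y →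
    dist (pr x) (pr y) ≤ C * ‖χ.q x - χ.q y‖ ∧ ‖χ.q x - χ.q y‖ ≤ C * dist (pr x) (pr y) := by
  obtain ⟨C₁, -, h₁⟩ := CAtlA_upper hX χ
  obtain ⟨C₂, h₂⟩ := CAtlA_lower hX χ
  have hg : ∀ x, Good χ x → χ.q x ∈ closedBall (0 : ℂ × ℂ) (1 / 2) ∧ pr x = pr (χ.σ (χ.q x)) := by
    rintro x ⟨hx, hU, hq⟩
    refine ⟨mem_closedBall_zero_iff.2 hq, ?_⟩
    obtain ⟨-, c, hc, hxc⟩ := χ.surj x hx hU
    rw [← Pool.Agent.H62.EF.pr_smul (χ.σ (χ.q x)) hc, ← hxc]
  refine ⟨max 1 (max C₁ C₂), le_max_left _ _, fun x y hx hy => ?_⟩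
  obtain ⟨hqx, hpx⟩ := hg x hx
  obtain ⟨hqy, hpy⟩ := hg y hy
  constructor
  · rw [hpx, hpy]
    refine (h₁ _ hqx _ hqy).trans ?_
    exact mul_le_mul_of_nonneg_right ((le_max_left _ _).trans (le_max_right _ _)) (norm_nonneg _)
  · rw [hpx, hpy]
    refine (h₂ _ hqx _ hqy).trans ?_
    exact mul_le_mul_of_nonneg_right ((le_max_right _ _).trans (le_max_right _ _)) dist_nonneg

end Pool.Agent.H5.BD

end

section

/-!
# BD CAtl: the atlas
-/

set_option autoImplicit false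

open Topology Filter Metric

namespace Pool.Agent.H5.BD

attribute [-instance] ProperSMul.toContinuousSMul

open Pool.Agent.H36.BP (EN fs wd)
open Pool.Agent.H14.PP (IsCone Chart Form Tan aCoef jac)
open Pool.Agent.H62.EF (MN pr det2 Charts)

variable {N : ℕ} {X : Set (EN N)}

theorem exists_atlas (hX : IsCone X) (hch : Charts X) (hne : X.Nonempty) : Nonempty (Atlas X) := by
  obtain ⟨n, χ, idx, δ, hδ, hgood⟩ := exists_cover hX hch hne
  choose C₁ h1 h2 using fun i => chart_bilip hX (χ i)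
  choose C₂ h3 h4 h5 using fun (i j : Fin n) => chart_trans hX (χ i) (χ j)
  have hC₁ : ∀ i, C₁ i ≤ ∑ i, C₁ i := fun i => Finset.single_le_sum (f := C₁) (fun i _ => zero_le_one.trans (h1 i)) (Finset.mem_univ i)
  have hC₂ : ∀ i j, C₂ i j ≤ ∑ i, ∑ j, C₂ i j := fun i j =>
    (Finset.single_le_sum (f := C₂ i) (fun j _ => zero_le_one.trans (h3 i j)) (Finset.mem_univ j)).trans
      (Finset.single_le_sum (f := fun i => ∑ j, C₂ i j) (fun i _ => Finset.sum_nonneg fun j _ => zero_le_one.trans (h3 i j)) (Finset.mem_univ i))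
  have hs₁ : 0 ≤ ∑ i, C₁ i := Finset.sum_nonneg fun i _ => zero_le_one.trans (h1 i)
  have hs₂ : 0 ≤ ∑ i, ∑ j, C₂ i j := Finset.sum_nonneg fun i _ => Finset.sum_nonneg fun j _ => zero_le_one.trans (h3 i j)
  set C : ℝ := 1 + ∑ i, C₁ i + ∑ i, ∑ j, C₂ i j with hC
  refine ⟨⟨n, χ, idx, δ, C, hδ, by linarith, hgood, fun i x y hx hy => ?_, fun i x y hx hy => ?_, fun i j x hx hy => ?_, fun i j x hx hy => ?_,
    fun i j x y hx hx' hy hy' => ?_⟩⟩
  · exact (h2 i x y hx hy).1.trans (mul_le_mul_of_nonneg_right (by linarith [hC₁ i]) (norm_nonneg _))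
  · exact (h2 i x y hx hy).2.trans (mul_le_mul_of_nonneg_right (by linarith [hC₁ i]) dist_nonneg)
  · exact (h4 i j x hx hy).1.trans (by linarith [hC₂ i j])
  · exact (h4 i j x hx hy).2.trans (mul_le_mul_of_nonneg_right (by linarith [hC₂ i j]) (norm_nonneg _))
  · exact (h5 i j x y hx hx' hy hy').trans (mul_le_mul_of_nonneg_right (by linarith [hC₂ i j]) (by positivity))

end Pool.Agent.H5.BD

end

section

/-!
# BD CLoc: uniform bounds for the curves in the charts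

`lip`: `pr_lipschitz` (`U = univ`).
Let `C₁ ≥ 1` be larger than the constants of `Chart.exists_fs_bound` (`H14/PP/ChartFs.lean`) for the charts of the atlas.  `r₀ = A.δ / (4 L + 1)`, `c₁ = c / C₁`, `K = max (max 1 (C₁ L)) (4 (C₁ L + 1) / r₀)`.
`good`: `dist (pr x) (pr (F w)) ≤ A.δ / 2 + 2 L r₀ ≤ A.δ` and `A.good`.
`an`: `F w ∈ (A.χ i).U`, `q_an`, and `F` is analytic.
`der_ge`, `der_le`: `F` is a `CurveAt` (`H14.PP.CurveAt X F w`), `Chart.curve`: `deriv (qc A i F) w = fderiv q (F w) (deriv F w)`; `exists_fs_bound`.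
`der_lip`: `deriv (qc A i F)` is holomorphic on `ball w₀ r₀`, of norm `≤ K₁ = C₁ L` there, so (Cauchy's estimate on discs of radius `r₀ / 2 - t`, or `r₀ / 4`) its derivative is bounded by
`4 K₁ / r₀` on `ball w₀ (r₀ / 2)`; mean value inequality on the convex set `ball w₀ (r₀ / 2)`.
-/

set_option autoImplicit false

open Topology Filter Metric

namespace Pool.Agent.H5.BD

attribute [-instance] ProperSMul.toContinuousSMul

open Pool.Agent.H36.BP (EN fs wd)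
open Pool.Agent.H14.PP (IsCone Chart Form Tan jac)
open Pool.Agent.H62.EF (MN pr det2)

variable {N : ℕ} {X : Set (EN N)}

theorem exists_LC (hX : IsCone X) (A : Atlas X) {c L : ℝ} (hc : 0 < c) (hL : 0 < L) : ∃ r₀ c₁ K : ℝ, LC A c L r₀ c₁ K := by
  have hex : ∀ i : Fin A.n, ∃ C : ℝ, 1 ≤ C ∧
      (∀ x ∈ X, x ∈ (A.χ i).U → ‖(A.χ i).q x‖ ≤ 1 → ∀ v, ‖fderiv ℂ (A.χ i).q x v‖ ≤ C * fs x v) ∧
      ∀ (F : ℂ → EN N) (z₀ : ℂ), Pool.Agent.H14.PP.CurveAt X F z₀ → F z₀ ∈ (A.χ i).U → ‖(A.χ i).q (F z₀)‖ ≤ 1 →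
        fs (F z₀) (deriv F z₀) ≤ C * ‖deriv (fun z => (A.χ i).q (F z)) z₀‖ := fun i =>
    Pool.Agent.H14.PP.Chart.exists_fs_bound hX (A.χ i)
  choose f hf1 hf2 hf3 using hex
  obtain ⟨C₁, hC₁, hfC⟩ : ∃ C₁ : ℝ, 1 ≤ C₁ ∧ ∀ i, f i ≤ C₁ := by
    refine ⟨1 + ∑ i, f i, ?_, fun i => ?_⟩
    · have h0 : 0 ≤ ∑ i, f i := Finset.sum_nonneg fun i _ => zero_le_one.trans (hf1 i)
      linarith
    · have h0 : f i ≤ ∑ i, f i :=
        Finset.single_le_sum (f := f) (fun j _ => zero_le_one.trans (hf1 j)) (Finset.mem_univ i)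
      linarith
  have hC₁0 : 0 < C₁ := by linarith
  have hδ := A.δ_pos
  have hlip : ∀ F ∈ BC X c L, ∀ z w, dist (pr (F z)) (pr (F w)) ≤ 2 * L * ‖z - w‖ := by
    intro F hF z w
    exact Pool.Agent.H62.EF.pr_lipschitz isOpen_univ convex_univ hF.1.differentiableOn
      (fun y _ => hX.ne_zero (hF.2.1 y)) (fun y _ => (hF.2.2 y).2) z (Set.mem_univ z) w (Set.mem_univ w)
  have hcurve : ∀ F ∈ BC X c L, ∀ z, Pool.Agent.H14.PP.CurveAt X F z := by
    intro F hF z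
    exact ⟨hF.1.analyticAt z, Filter.Eventually.of_forall fun y => hF.2.1 y⟩
  have han : ∀ F ∈ BC X c L, ∀ i w, Good (A.χ i) (F w) → AnalyticAt ℂ (qc A i F) w := by
    intro F hF i w hg
    exact (Pool.Agent.H14.PP.Chart.curve hX (A.χ i) (hcurve F hF w) hg.2.1).1
  have hle : ∀ F ∈ BC X c L, ∀ i w, Good (A.χ i) (F w) → ‖deriv (qc A i F) w‖ ≤ C₁ * L := by
    intro F hF i w hg
    have h1 : deriv (qc A i F) w = fderiv ℂ (A.χ i).q (F w) (deriv F w) :=
      (Pool.Agent.H14.PP.Chart.curve hX (A.χ i) (hcurve F hF w) hg.2.1).2.1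
    rw [h1]
    have h2 := hf2 i (F w) hg.1 hg.2.1 (hg.2.2.trans (by norm_num)) (deriv F w)
    have h3 : 0 ≤ fs (F w) (deriv F w) := hc.le.trans (hF.2.2 w).1
    calc ‖fderiv ℂ (A.χ i).q (F w) (deriv F w)‖ ≤ f i * fs (F w) (deriv F w) := h2
      _ ≤ C₁ * fs (F w) (deriv F w) := mul_le_mul_of_nonneg_right (hfC i) h3
      _ ≤ C₁ * L := mul_le_mul_of_nonneg_left (hF.2.2 w).2 hC₁0.le
  obtain ⟨r₀, hr₀, hr₀e⟩ : ∃ r₀ : ℝ, 0 < r₀ ∧ 2 * L * r₀ ≤ A.δ / 2 := by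
    refine ⟨A.δ / (4 * L + 1), by positivity, ?_⟩
    have h1 : 2 * L * (A.δ / (4 * L + 1)) = (2 * L * A.δ) / (4 * L + 1) := by ring
    rw [h1, div_le_div_iff₀ (by positivity) (by norm_num)]
    nlinarith
  have hK1 : (1 : ℝ) ≤ max (max 1 (C₁ * L)) (4 * (C₁ * L + 1) / r₀) := (le_max_left _ _).trans (le_max_left _ _)
  have hK2 : C₁ * L ≤ max (max 1 (C₁ * L)) (4 * (C₁ * L + 1) / r₀) := (le_max_right _ _).trans (le_max_left _ _)
  have hK3 : 4 * (C₁ * L + 1) / r₀ ≤ max (max 1 (C₁ * L)) (4 * (C₁ * L + 1) / r₀) := le_max_right _ _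
  refine ⟨r₀, c / C₁, max (max 1 (C₁ * L)) (4 * (C₁ * L + 1) / r₀), hr₀, by positivity, hK1, hL, hlip, ?_, han, ?_, ?_, ?_⟩
  · intro F hF x hx w₀ hd w hw
    refine A.good x hx (F w) (hF.2.1 w) ?_
    have h1 := hlip F hF w₀ w
    have h2 : ‖w₀ - w‖ ≤ r₀ := by
      rw [mem_ball, dist_eq_norm] at hw
      rw [norm_sub_rev]
      exact hw.le
    calc dist (pr x) (pr (F w)) ≤ dist (pr x) (pr (F w₀)) + dist (pr (F w₀)) (pr (F w)) := dist_triangle _ _ _
      _ ≤ A.δ / 2 + 2 * L * r₀ := add_le_add hd (h1.trans (mul_le_mul_of_nonneg_left h2 (by positivity)))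
      _ ≤ A.δ := by linarith
  · intro F hF i w hg
    have h1 := hf3 i F w (hcurve F hF w) hg.2.1 (hg.2.2.trans (by norm_num))
    rw [div_le_iff₀ hC₁0]
    calc c ≤ fs (F w) (deriv F w) := (hF.2.2 w).1
      _ ≤ f i * ‖deriv (qc A i F) w‖ := h1
      _ ≤ C₁ * ‖deriv (qc A i F) w‖ := mul_le_mul_of_nonneg_right (hfC i) (norm_nonneg _)
      _ = ‖deriv (qc A i F) w‖ * C₁ := mul_comm _ _
  · intro F hF i w hg
    exact (hle F hF i w hg).trans hK2
  · intro F hF i w₀ hgood w hw w' hw'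
    have hdiff : ∀ z ∈ ball w₀ r₀, DifferentiableAt ℂ (deriv (qc A i F)) z := fun z hz =>
      (han F hF i z (hgood z hz)).deriv.differentiableAt
    have hbd : ∀ z ∈ ball w₀ (r₀ / 2), ‖deriv (deriv (qc A i F)) z‖ ≤ 4 * (C₁ * L + 1) / r₀ := by
      intro z hz
      have hsub : closedBall z (r₀ / 4) ⊆ ball w₀ r₀ := by
        intro y hy
        rw [mem_closedBall] at hy
        rw [mem_ball] at hz ⊢
        have := dist_triangle y z w₀
        linarith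
      have h1 : ‖deriv (deriv (qc A i F)) z‖ ≤ (C₁ * L) / (r₀ / 4) := by
        refine Complex.norm_deriv_le_of_forall_mem_sphere_norm_le (by positivity) ?_ ?_
        · refine DifferentiableOn.diffContOnCl_ball (U := ball w₀ r₀) (fun y hy => (hdiff y hy).differentiableWithinAt) hsub
        · intro y hy
          exact hle F hF i y (hgood y (hsub (sphere_subset_closedBall hy)))
      refine h1.trans ?_
      rw [div_div_eq_mul_div]
      refine div_le_div_of_nonneg_right ?_ hr₀.le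
      linarith
    have h2 := Convex.norm_image_sub_le_of_norm_deriv_le (𝕜 := ℂ) (f := deriv (qc A i F)) (s := ball w₀ (r₀ / 2))
      (C := 4 * (C₁ * L + 1) / r₀)
      (fun z hz => hdiff z (ball_subset_ball (by linarith) hz)) hbd (convex_ball _ _) hw' hw
    exact h2.trans (mul_le_mul_of_nonneg_right hK3 (norm_nonneg _))

end Pool.Agent.H5.BD

end

section

/-!
# BD CMat: matching of the parameters

Let `LC A c L r₀ c₁ K₀`, `C = A.C`, `δ = A.δ`.  Choose (in this order)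
`r₂ = min (r₀ / 32) (c₁ / (64 K₀))`, `r₃ = min (r₂) (c₁ r₂ / (64 K₀))` (so `4 r₃ ≤ r₀`, `2 K₀ r₃ ≤ c₁ r₂ / 32`), `ε₃ = min (δ / 2) (c₁ r₂ / (32 C))`, `K = max K₀ (2 C / c₁)`.
Let `F ∈ BC X c L`, `w₀ ∈ ℂ`, `i = A.idx (pr (F w₀))`.  By `LC.good` (`x = F w₀`) `F w` is good for `i` on `ball w₀ r₀`.  `p = qc A i F` is analytic there.  Let `e` be such that
`‖co e (p' w₀)‖ = ‖p' w₀‖ ≥ c₁` (the norm of `ℂ × ℂ` is the maximum), `u = co e ∘ p`, `u' = co e ∘ p'`; on `ball w₀ (8 r₂)`: `‖u' w - u' w₀‖ ≤ K₀ 8 r₂ ≤ c₁ / 4` (`der_lip`, `8 r₂ ≤ r₀ / 2`).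
`exists_inv` with `a = c₁`, `r = 8 r₂`: `(c₁ / 2) ‖w - w'‖ ≤ ‖u w - u w'‖ ≤ ‖p w - p w'‖` on `ball w₀ (8 r₂)`.  `exists_inv` with `r = r₂`: the inverse `ξ` on `ball (u w₀) (c₁ r₂ / 4)` with values in `ball w₀ r₂`.
`emb`: for `‖z - w‖ ≤ 4 r₂` use this with `w₀ = z`: `(c₁ / 2) ‖z - w‖ ≤ ‖p z - p w‖ ≤ C dist (pr (F z)) (pr (F w))` (`le_dist`).
`matching`: `dist (pr (G z₀)) (pr (F w₀)) ≤ ε₃ ≤ δ / 2`, so `G z` is good for `i` on `ball z₀ r₀` (`LC.good` with `x = F w₀`).  For `z ∈ ball z₀ (2 r₃)`: `‖qc A i G z - qc A i G z₀‖ ≤ K₀ 2 r₃` (mean value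
inequality, `der_le`), `‖qc A i G z₀ - p w₀‖ ≤ C ε₃` (`le_dist`), together `< c₁ r₂ / 4`.  So `ψ z = ξ (co e (qc A i G z))` is defined and holomorphic on `ball z₀ (2 r₃)`, with values in `ball w₀ r₂`, and
`u (ψ z) = co e (qc A i G z)`.
`near`: for `w ∈ closedBall w₀ (2 r₂)`: `(c₁ / 2) ‖w - ψ z‖ ≤ ‖u w - u (ψ z)‖ = ‖co e (p w - qc A i G z)‖ ≤ ‖p w - qc A i G z‖`.
`coF`: `‖u' w‖ ≥ c₁ - c₁ / 4 ≥ c₁ / 2`.
-/

set_option autoImplicit false

open Topology Filter Metric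

namespace Pool.Agent.H5.BD

attribute [-instance] ProperSMul.toContinuousSMul

open Pool.Agent.H36.BP (EN fs wd)
open Pool.Agent.H14.PP (IsCone Chart Form Tan jac)
open Pool.Agent.H62.EF (MN pr det2)

variable {N : ℕ} {X : Set (EN N)}

private noncomputable def coL (e : Bool) : ℂ × ℂ →L[ℂ] ℂ :=
  if e = true then ContinuousLinearMap.fst ℂ ℂ ℂ else ContinuousLinearMap.snd ℂ ℂ ℂ

private theorem coL_apply (e : Bool) (p : ℂ × ℂ) : coL e p = co e p := by
  unfold coL co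
  split_ifs <;> rfl

private theorem norm_co_le (e : Bool) (p : ℂ × ℂ) : ‖co e p‖ ≤ ‖p‖ := by
  unfold co
  split_ifs
  · exact norm_fst_le p
  · exact norm_snd_le p

private theorem co_sub (e : Bool) (p q : ℂ × ℂ) : co e (p - q) = co e p - co e q := by
  rw [← coL_apply, ← coL_apply, ← coL_apply, map_sub]

private theorem exists_co (p : ℂ × ℂ) : ∃ e, ‖co e p‖ = ‖p‖ := by
  rcases le_total ‖p.1‖ ‖p.2‖ with h | h
  · refine ⟨false, ?_⟩
    simp [co, Prod.norm_def, h]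
  · refine ⟨true, ?_⟩
    simp [co, Prod.norm_def, h]

private theorem deriv_co (e : Bool) {p : ℂ → ℂ × ℂ} {w : ℂ} (hp : DifferentiableAt ℂ p w) :
    deriv (fun w => co e (p w)) w = co e (deriv p w) := by
  have h1 : HasDerivAt (fun w => coL e (p w)) (coL e (deriv p w)) w :=
    (coL e).hasFDerivAt.comp_hasDerivAt w hp.hasDerivAt
  simp only [coL_apply] at h1
  exact h1.deriv

private theorem differentiableAt_co (e : Bool) {p : ℂ → ℂ × ℂ} {w : ℂ}
    (hp : DifferentiableAt ℂ p w) : DifferentiableAt ℂ (fun w => co e (p w)) w := by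
  have h1 : HasDerivAt (fun w => coL e (p w)) (coL e (deriv p w)) w :=
    (coL e).hasFDerivAt.comp_hasDerivAt w hp.hasDerivAt
  simp only [coL_apply] at h1
  exact h1.differentiableAt

/-- a coordinate which is an embedding near `w₀` -/
private theorem exists_coord {A : Atlas X} {c L r₀ c₁ K₀ : ℝ} (H : LC A c L r₀ c₁ K₀)
    {F : ℂ → EN N} (hF : F ∈ BC X c L) {i : Fin A.n} {w₀ : ℂ}
    (hg : ∀ w ∈ ball w₀ r₀, Good (A.χ i) (F w)) :
    ∃ e, c₁ ≤ ‖deriv (fun w => co e (qc A i F w)) w₀‖ ∧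
      (∀ w ∈ ball w₀ r₀, deriv (fun w => co e (qc A i F w)) w = co e (deriv (qc A i F) w)) ∧
      DifferentiableOn ℂ (fun w => co e (qc A i F w)) (ball w₀ r₀) ∧
      ∀ w ∈ ball w₀ (r₀ / 2), ‖deriv (fun w => co e (qc A i F w)) w -
        deriv (fun w => co e (qc A i F w)) w₀‖ ≤ K₀ * ‖w - w₀‖ := by
  have hr := H.r₀_pos
  have hw₀ : w₀ ∈ ball w₀ r₀ := mem_ball_self hr
  have hd : ∀ w ∈ ball w₀ r₀, DifferentiableAt ℂ (qc A i F) w := fun w hw =>
    (H.an F hF i w (hg w hw)).differentiableAt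
  obtain ⟨e, he⟩ := exists_co (deriv (qc A i F) w₀)
  refine ⟨e, ?_, fun w hw => deriv_co e (hd w hw), fun w hw =>
    (differentiableAt_co e (hd w hw)).differentiableWithinAt, fun w hw => ?_⟩
  · rw [deriv_co e (hd w₀ hw₀), he]
    exact H.der_ge F hF i w₀ (hg w₀ hw₀)
  · have hw' : w ∈ ball w₀ r₀ := ball_subset_ball (by linarith) hw
    rw [deriv_co e (hd w hw'), deriv_co e (hd w₀ hw₀), ← co_sub]
    refine (norm_co_le e _).trans (H.der_lip F hF i w₀ hg w hw w₀ (mem_ball_self (by linarith)))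

theorem exists_MC (hX : IsCone X) (A : Atlas X) {c L : ℝ} (hc : 0 < c) (hL : 0 < L) :
    ∃ r₀ c₁ K₀ r₂ r₃ ε₃ K : ℝ, MC A c L r₀ c₁ K₀ r₂ r₃ ε₃ K := by
  obtain ⟨r₀, c₁, K₀, H⟩ := exists_LC hX A hc hL
  have hr₀ := H.r₀_pos
  have hc₁ := H.c₁_pos
  have hK₀ : 0 < K₀ := lt_of_lt_of_le one_pos H.one_le
  have hC : 0 < A.C := lt_of_lt_of_le one_pos A.one_le
  have hδ := A.δ_pos
  obtain ⟨r₂, hr₂⟩ : ∃ r₂, r₂ = min (r₀ / 32) (c₁ / (64 * K₀)) := ⟨_, rfl⟩
  have hr₂_pos : 0 < r₂ := by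
    rw [hr₂]
    exact lt_min (by positivity) (by positivity)
  have hr₂_le : 32 * r₂ ≤ r₀ := by
    have := min_le_left (r₀ / 32) (c₁ / (64 * K₀))
    rw [← hr₂] at this
    linarith
  have hr₂_le' : K₀ * (64 * r₂) ≤ c₁ := by
    have h1 := min_le_right (r₀ / 32) (c₁ / (64 * K₀))
    rw [← hr₂, le_div_iff₀ (by positivity)] at h1
    linarith
  obtain ⟨r₃, hr₃⟩ : ∃ r₃, r₃ = min r₂ (c₁ * r₂ / (64 * K₀)) := ⟨_, rfl⟩
  have hr₃_pos : 0 < r₃ := by
    rw [hr₃]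
    exact lt_min hr₂_pos (by positivity)
  have hr₃_le : r₃ ≤ r₂ := by
    rw [hr₃]
    exact min_le_left _ _
  have hr₃_le' : K₀ * (64 * r₃) ≤ c₁ * r₂ := by
    have h1 := min_le_right r₂ (c₁ * r₂ / (64 * K₀))
    rw [← hr₃, le_div_iff₀ (by positivity)] at h1
    linarith
  obtain ⟨ε₃, hε₃⟩ : ∃ ε₃, ε₃ = min (A.δ / 2) (c₁ * r₂ / (32 * A.C)) := ⟨_, rfl⟩
  have hε₃_pos : 0 < ε₃ := by
    rw [hε₃]
    exact lt_min (by positivity) (by positivity)
  have hε₃_le : ε₃ ≤ A.δ / 2 := by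
    rw [hε₃]
    exact min_le_left _ _
  have hε₃_le' : A.C * (32 * ε₃) ≤ c₁ * r₂ := by
    have h1 := min_le_right (A.δ / 2) (c₁ * r₂ / (32 * A.C))
    rw [← hε₃, le_div_iff₀ (by positivity)] at h1
    linarith
  have hK_C : 2 * A.C / c₁ ≤ max K₀ (2 * A.C / c₁) := le_max_right _ _
  have hK_pos : 0 < max K₀ (2 * A.C / c₁) := lt_of_lt_of_le hK₀ (le_max_left _ _)
  have hmul : ∀ t : ℝ, 0 ≤ t → (2 * A.C / c₁) * t ≤ max K₀ (2 * A.C / c₁) * t := fun t ht =>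
    mul_le_mul_of_nonneg_right hK_C ht
  refine ⟨r₀, c₁, K₀, r₂, r₃, ε₃, max K₀ (2 * A.C / c₁), ⟨H, hr₂_pos, hr₃_pos, hε₃_pos,
    le_max_left _ _, by linarith, by linarith, hr₃_le, ?_, ?_⟩⟩
  · intro F hF z w hzw
    have hFX : ∀ z, F z ∈ X := hF.2.1
    have hg : ∀ w ∈ ball z r₀, Good (A.χ (A.idx (pr (F z)))) (F w) :=
      H.good F hF (F z) (hFX z) z (by rw [dist_self]; positivity)
    obtain ⟨e, h0, -, hdiff, hlip⟩ := exists_coord H hF hg
    have hinv := (exists_inv (u := fun w => co e (qc A (A.idx (pr (F z))) F w)) (w₀ := z)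
      (r := 8 * r₂) (a := c₁) (by positivity) hc₁
      (hdiff.mono (ball_subset_ball (by linarith))) h0 ?_).1
    · have hw : w ∈ ball z (8 * r₂) := by
        rw [mem_ball, dist_comm, dist_eq_norm]
        linarith
      have hz : z ∈ ball z (8 * r₂) := mem_ball_self (by positivity)
      have h1 := hinv z hz w hw
      have h2 : ‖co e (qc A (A.idx (pr (F z))) F z) - co e (qc A (A.idx (pr (F z))) F w)‖ ≤
          A.C * dist (pr (F z)) (pr (F w)) := by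
        rw [← co_sub]
        exact (norm_co_le e _).trans (A.le_dist _ _ _ (hg z (mem_ball_self hr₀))
          (hg w (ball_subset_ball (by linarith) hw)))
      rw [inv_mul_le_iff₀ hK_pos]
      refine le_trans ?_ (hmul _ dist_nonneg)
      rw [div_mul_eq_mul_div, le_div_iff₀ hc₁]
      have h3 := h1.trans h2
      linarith
    · intro w hw
      have hw' : w ∈ ball z (r₀ / 2) := ball_subset_ball (by linarith) hw
      refine (hlip w hw').trans ?_
      rw [mem_ball, dist_eq_norm] at hw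
      have h1 : K₀ * ‖w - z‖ ≤ K₀ * (8 * r₂) := mul_le_mul_of_nonneg_left hw.le hK₀.le
      linarith
  · intro F hF G hG w₀ z₀ hdist
    have hFX : ∀ z, F z ∈ X := hF.2.1
    have hGX : ∀ z, G z ∈ X := hG.2.1
    obtain ⟨i, hi⟩ : ∃ i, i = A.idx (pr (F w₀)) := ⟨_, rfl⟩
    have hgF : ∀ w ∈ ball w₀ r₀, Good (A.χ i) (F w) := by
      rw [hi]
      exact H.good F hF (F w₀) (hFX w₀) w₀ (by rw [dist_self]; positivity)
    have hgG : ∀ z ∈ ball z₀ r₀, Good (A.χ i) (G z) := by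
      rw [hi]
      exact H.good G hG (F w₀) (hFX w₀) z₀ (by rw [dist_comm]; linarith)
    rw [← hi]
    obtain ⟨e, h0, hder, hdiff, hlip⟩ := exists_coord H hF hgF
    have hlip8 : ∀ w ∈ ball w₀ (8 * r₂), ‖deriv (fun w => co e (qc A i F w)) w -
        deriv (fun w => co e (qc A i F w)) w₀‖ ≤ c₁ / 4 := by
      intro w hw
      have hw' : w ∈ ball w₀ (r₀ / 2) := ball_subset_ball (by linarith) hw
      refine (hlip w hw').trans ?_
      rw [mem_ball, dist_eq_norm] at hw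
      have h1 : K₀ * ‖w - w₀‖ ≤ K₀ * (8 * r₂) := mul_le_mul_of_nonneg_left hw.le hK₀.le
      linarith
    have hemb := (exists_inv (u := fun w => co e (qc A i F w)) (w₀ := w₀)
      (r := 8 * r₂) (a := c₁) (by positivity) hc₁
      (hdiff.mono (ball_subset_ball (by linarith))) h0 hlip8).1
    obtain ⟨ξ, hξd, hξ⟩ := (exists_inv (u := fun w => co e (qc A i F w)) (w₀ := w₀)
      (r := r₂) (a := c₁) hr₂_pos hc₁
      (hdiff.mono (ball_subset_ball (by linarith))) h0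
      (fun w hw => hlip8 w (ball_subset_ball (by linarith) hw))).2
    have hdG : ∀ z ∈ ball z₀ r₀, DifferentiableAt ℂ (qc A i G) z := fun z hz =>
      (H.an G hG i z (hgG z hz)).differentiableAt
    have hclose : ∀ z ∈ ball z₀ (2 * r₃), co e (qc A i G z) ∈
        ball (co e (qc A i F w₀)) (c₁ * r₂ / 4) := by
      intro z hz
      have hsub : ball z₀ (2 * r₃) ⊆ ball z₀ r₀ := ball_subset_ball (by linarith)
      have h1 : ‖qc A i G z - qc A i G z₀‖ ≤ K₀ * ‖z - z₀‖ :=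
        (convex_ball z₀ (2 * r₃)).norm_image_sub_le_of_norm_deriv_le
          (fun w hw => hdG w (hsub hw)) (fun w hw => H.der_le G hG i w (hgG w (hsub hw)))
          (mem_ball_self (by positivity)) hz
      have h2 : ‖qc A i G z₀ - qc A i F w₀‖ ≤ A.C * ε₃ :=
        (A.le_dist i _ _ (hgG z₀ (mem_ball_self hr₀)) (hgF w₀ (mem_ball_self hr₀))).trans
          (mul_le_mul_of_nonneg_left hdist hC.le)
      rw [mem_ball, dist_eq_norm] at hz
      have h3 : K₀ * ‖z - z₀‖ ≤ K₀ * (2 * r₃) := mul_le_mul_of_nonneg_left hz.le hK₀.le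
      rw [mem_ball, dist_eq_norm, ← co_sub]
      refine lt_of_le_of_lt (norm_co_le e _) ?_
      have h4 : ‖qc A i G z - qc A i F w₀‖ ≤ ‖qc A i G z - qc A i G z₀‖ +
          ‖qc A i G z₀ - qc A i F w₀‖ := norm_sub_le_norm_sub_add_norm_sub _ _ _
      have h5 : 0 < c₁ * r₂ := by positivity
      linarith
    refine ⟨e, fun z => ξ (co e (qc A i G z)), ⟨?_, ?_, ?_, ?_, ?_, ?_, ?_⟩⟩
    · intro z hz
      have h1 : DifferentiableAt ℂ ξ (co e (qc A i G z)) :=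
        (hξd _ (hclose z hz)).differentiableAt (isOpen_ball.mem_nhds (hclose z hz))
      have h2 : DifferentiableAt ℂ (fun z => co e (qc A i G z)) z :=
        differentiableAt_co e (hdG z (ball_subset_ball (by linarith) hz))
      exact (h1.comp z h2).differentiableWithinAt
    · intro z hz
      exact ball_subset_closedBall (hξ _ (hclose z hz)).1
    · intro z hz
      exact (hξ _ (hclose z hz)).2
    · intro w hw
      exact hgF w (closedBall_subset_ball (by linarith) hw)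
    · intro z hz
      exact hgG z (ball_subset_ball (by linarith) hz)
    · intro z hz w hw
      have h1 := hemb w (closedBall_subset_ball (by linarith) hw) (ξ (co e (qc A i G z)))
        (ball_subset_ball (by linarith) (hξ _ (hclose z hz)).1)
      have h2 := (hξ _ (hclose z hz)).2
      rw [h2, ← co_sub] at h1
      have h3 := h1.trans (norm_co_le e _)
      refine le_trans ?_ (hmul _ (norm_nonneg _))
      rw [div_mul_eq_mul_div, le_div_iff₀ hc₁]
      have h4 : 1 * ‖qc A i F w - qc A i G z‖ ≤ A.C * ‖qc A i F w - qc A i G z‖ :=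
        mul_le_mul_of_nonneg_right A.one_le (norm_nonneg _)
      linarith
    · intro w hw
      have hw8 : w ∈ ball w₀ (8 * r₂) := closedBall_subset_ball (by linarith) hw
      have hwr : w ∈ ball w₀ r₀ := ball_subset_ball (by linarith) hw8
      have h1 := hlip8 w hw8
      have h2 : c₁ / 2 ≤ ‖co e (deriv (qc A i F) w)‖ := by
        rw [← hder w hwr]
        have h3 := norm_sub_norm_le (deriv (fun w => co e (qc A i F w)) w₀)
          (deriv (fun w => co e (qc A i F w)) w)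
        rw [norm_sub_rev] at h3
        linarith
      refine le_trans ?_ (hmul _ (norm_nonneg _))
      rw [div_mul_eq_mul_div, le_div_iff₀ hc₁]
      have h4 : 2 * A.C * (c₁ / 2) ≤ 2 * A.C * ‖co e (deriv (qc A i F) w)‖ :=
        mul_le_mul_of_nonneg_left h2 (by positivity)
      have h5 : 1 * c₁ ≤ A.C * c₁ := mul_le_mul_of_nonneg_right A.one_le hc₁.le
      linarith

end Pool.Agent.H5.BD

end

section

/-!
# Bir Map: composition of holomorphic maps with rational maps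

* `exists_comp`: the composition of a holomorphic map `f` into `ℙ^M` with the rational map given by forms `γ i` of the same degree, not all of them
  zero on `f`, is holomorphic: near every point divide the functions `γ i (φ z)` by their common zeros.
* `pn_identity`: the identity theorem for maps into projective space.
-/

set_option autoImplicit false

open Topology Filter Metric MvPolynomial

noncomputable section

namespace Pool.Agent.H7.Bir

attribute [-instance] ProperSMul.toContinuousSMul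

open Pool.Agent.H17 (PN VanishesAt HolomorphicInto vanishesAt_mk_iff)

variable {N M : ℕ}

theorem vals_smul {γ : Fin (N + 1) → MvPolynomial (Fin (M + 1)) ℂ} {D : ℕ} (hγ : ∀ i, (γ i).IsHomogeneous D)
    (c : ℂ) (x : Fin (M + 1) → ℂ) : vals γ (c • x) = c ^ D • vals γ x := by
  funext i
  exact Pool.Agent.H17BP.eval_smul_form (hγ i) c x

theorem rmap_mk {γ : Fin (N + 1) → MvPolynomial (Fin (M + 1)) ℂ} {D : ℕ} (hγ : ∀ i, (γ i).IsHomogeneous D)
    {x : Fin (M + 1) → ℂ} (hx : x ≠ 0) (h : vals γ x ≠ 0) :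
    rmap γ (Projectivization.mk ℂ x hx) = Projectivization.mk ℂ (vals γ x) h := by
  obtain ⟨a, ha⟩ := Projectivization.exists_smul_eq_mk_rep ℂ x hx
  have h1 : (Projectivization.mk ℂ x hx).rep = (a : ℂ) • x := ha.symm
  have h2 : vals γ (Projectivization.mk ℂ x hx).rep = (a : ℂ) ^ D • vals γ x := by
    rw [h1, vals_smul hγ]
  have h3 : vals γ (Projectivization.mk ℂ x hx).rep ≠ 0 := by
    rw [h2]
    exact smul_ne_zero (pow_ne_zero _ a.ne_zero) h
  unfold rmap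
  rw [dif_pos h3, Projectivization.mk_eq_mk_iff']
  exact ⟨(a : ℂ) ^ D, h2.symm⟩

private theorem Map_analytic {φ : ℂ → Fin (M + 1) → ℂ} {z : ℂ} (hφ : AnalyticAt ℂ φ z)
    (γ : Fin (N + 1) → MvPolynomial (Fin (M + 1)) ℂ) : AnalyticAt ℂ (fun w => vals γ (φ w)) z := by
  rw [analyticAt_pi_iff]
  intro i
  have h1 : AnalyticAt ℂ (fun w => MvPolynomial.aeval (φ w) (γ i)) z :=
    AnalyticAt.aeval_mvPolynomial (fun i => analyticAt_pi_iff.mp hφ i) (γ i)
  exact h1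

/-- A lift of the composition near a point. -/
private theorem Map_lift {γ : Fin (N + 1) → MvPolynomial (Fin (M + 1)) ℂ} {D : ℕ} (hγ : ∀ i, (γ i).IsHomogeneous D)
    {f : ℂ → PN M} {U : Set ℂ} (hUc : IsPreconnected U) (hf : HolomorphicInto f U) {z₀ : ℂ} (hz₀ : z₀ ∈ U)
    {i₀ : Fin (N + 1)} (h : ¬ VanishesAt (γ i₀) (f z₀)) {z : ℂ} (hz : z ∈ U) :
    ∃ ψ : ℂ → Fin (N + 1) → ℂ, AnalyticAt ℂ ψ z ∧ ψ z ≠ 0 ∧
      (∀ᶠ w in 𝓝[≠] z, ∃ h : ψ w ≠ 0, rmap γ (f w) = Projectivization.mk ℂ (ψ w) h ∧ vals γ (f w).rep ≠ 0) ∧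
      (vals γ (f z).rep ≠ 0 → ∃ h : ψ z ≠ 0, rmap γ (f z) = Projectivization.mk ℂ (ψ z) h) := by
  obtain ⟨φ, hφ, he⟩ := hf z hz
  have hΨ := Map_analytic hφ γ
  -- not identically zero
  have hne : ¬ ∀ᶠ w in 𝓝 z, vals γ (φ w) = 0 := by
    intro h0
    have h1 : ∀ᶠ w in 𝓝 z, ∀ P ∈ ({γ i₀} : Set (MvPolynomial (Fin (M + 1)) ℂ)), VanishesAt P (f w) := by
      filter_upwards [h0, he] with w h2 h3 P hP
      rw [Set.mem_singleton_iff] at hP
      subst hP
      obtain ⟨h4, h5⟩ := h3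
      rw [h5, vanishesAt_mk_iff (hγ i₀)]
      exact congrFun h2 i₀
    exact h (Pool.Agent.H36.BP.vanish_identity hUc hf (S := {γ i₀}) (by
      rintro P hP
      rw [Set.mem_singleton_iff] at hP
      subst hP
      exact ⟨D, hγ i₀⟩) hz h1 z₀ hz₀ _ rfl)
  obtain ⟨n, ψ, hψ, hψ0, hψe⟩ := (hΨ.exists_eventuallyEq_pow_smul_nonzero_iff).2 hne
  have hrep : ∀ w, (∃ h : φ w ≠ 0, f w = Projectivization.mk ℂ (φ w) h) → ∃ c : ℂ, c ≠ 0 ∧ (f w).rep = c • φ w := by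
    rintro w ⟨h1, h2⟩
    obtain ⟨a, ha⟩ := Projectivization.exists_smul_eq_mk_rep ℂ (φ w) h1
    exact ⟨a, a.ne_zero, by rw [h2]; exact ha.symm⟩
  have hkey : ∀ w, (∃ h : φ w ≠ 0, f w = Projectivization.mk ℂ (φ w) h) → vals γ (φ w) = (w - z) ^ n • ψ w →
      vals γ (φ w) ≠ 0 → ∃ h : ψ w ≠ 0, rmap γ (f w) = Projectivization.mk ℂ (ψ w) h := by
    rintro w ⟨h1, h2⟩ h3 h4
    have h5 : ψ w ≠ 0 := by
      intro h6
      rw [h6, smul_zero] at h3
      exact h4 h3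
    refine ⟨h5, ?_⟩
    rw [h2, rmap_mk hγ h1 h4, Projectivization.mk_eq_mk_iff']
    exact ⟨(w - z) ^ n, h3.symm⟩
  have hrepv : ∀ w, (∃ h : φ w ≠ 0, f w = Projectivization.mk ℂ (φ w) h) → (vals γ (f w).rep ≠ 0 ↔ vals γ (φ w) ≠ 0) := by
    intro w hw
    obtain ⟨c, hc, h1⟩ := hrep w hw
    rw [h1, vals_smul hγ, smul_ne_zero_iff]
    exact ⟨fun h => h.2, fun h => ⟨pow_ne_zero _ hc, h⟩⟩
  refine ⟨ψ, hψ, hψ0, ?_, ?_⟩
  · have h1 : ∀ᶠ w in 𝓝[≠] z, w ≠ z := self_mem_nhdsWithin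
    filter_upwards [h1, he.filter_mono nhdsWithin_le_nhds, hψe.filter_mono nhdsWithin_le_nhds,
      (hψ.continuousAt.eventually_ne hψ0).filter_mono nhdsWithin_le_nhds] with w h2 h3 h4 h5
    have h6 : vals γ (φ w) ≠ 0 := by
      rw [h4]
      exact smul_ne_zero (pow_ne_zero _ (sub_ne_zero.2 h2)) h5
    obtain ⟨h7, h8⟩ := hkey w h3 h4 h6
    exact ⟨h7, h8, (hrepv w h3).2 h6⟩
  · intro h1
    have h2 := he.self_of_nhds
    exact hkey z h2 hψe.self_of_nhds ((hrepv z h2).1 h1)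

theorem exists_comp {γ : Fin (N + 1) → MvPolynomial (Fin (M + 1)) ℂ} {D : ℕ} (hγ : ∀ i, (γ i).IsHomogeneous D)
    {f : ℂ → PN M} {U : Set ℂ} (hUo : IsOpen U) (hUc : IsPreconnected U) (hf : HolomorphicInto f U) {z₀ : ℂ} (hz₀ : z₀ ∈ U)
    {i₀ : Fin (N + 1)} (h : ¬ VanishesAt (γ i₀) (f z₀)) :
    ∃ g : ℂ → PN N, HolomorphicInto g U ∧ (∀ z ∈ U, vals γ (f z).rep ≠ 0 → g z = rmap γ (f z)) ∧
      ∀ z ∈ U, ∀ᶠ w in 𝓝[≠] z, vals γ (f w).rep ≠ 0 ∧ g w = rmap γ (f w) := by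
  classical
  choose ψ hψ hψ0 hψ1 hψ2 using fun z (hz : z ∈ U) => Map_lift hγ hUc hf hz₀ h hz
  let g : ℂ → PN N := fun z => if hz : z ∈ U then Projectivization.mk ℂ (ψ z hz z) (hψ0 z hz) else rmap γ (f z)
  have hg : ∀ z ∈ U, vals γ (f z).rep ≠ 0 → g z = rmap γ (f z) := by
    intro z hz h1
    obtain ⟨h2, h3⟩ := hψ2 z hz h1
    simp only [g, dif_pos hz]
    exact h3.symm
  refine ⟨g, ?_, hg, ?_⟩
  · intro z hz
    refine ⟨ψ z hz, hψ z hz, ?_⟩
    have h1 : ∀ᶠ w in 𝓝[≠] z, ∃ h : ψ z hz w ≠ 0, g w = Projectivization.mk ℂ (ψ z hz w) h := by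
      filter_upwards [hψ1 z hz, mem_nhdsWithin_of_mem_nhds (hUo.mem_nhds hz)] with w h2 h3
      obtain ⟨h4, h5, h6⟩ := h2
      exact ⟨h4, by rw [hg w h3 h6, h5]⟩
    have h2 : ∃ h : ψ z hz z ≠ 0, g z = Projectivization.mk ℂ (ψ z hz z) h := ⟨hψ0 z hz, by simp only [g, dif_pos hz]⟩
    rw [eventually_nhdsWithin_iff] at h1
    filter_upwards [h1] with w h3
    by_cases hw : w = z
    · rw [hw]
      exact h2
    · exact h3 hw
  · intro z hz
    filter_upwards [hψ1 z hz, mem_nhdsWithin_of_mem_nhds (hUo.mem_nhds hz)] with w h2 h3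
    obtain ⟨h4, h5, h6⟩ := h2
    exact ⟨h6, hg w h3 h6⟩

/-- The identity theorem for maps into projective space. -/
theorem pn_identity {f g : ℂ → PN N} {U : Set ℂ} (hUc : IsPreconnected U) (hf : HolomorphicInto f U) (hg : HolomorphicInto g U)
    {z₀ : ℂ} (hz₀ : z₀ ∈ U) (h : ∀ᶠ z in 𝓝 z₀, f z = g z) : ∀ z ∈ U, f z = g z := by
  set A : Set ℂ := {z | ∀ᶠ w in 𝓝 z, f w = g w} with hA
  have hAo : IsOpen A := by
    rw [isOpen_iff_mem_nhds]
    intro z hz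
    exact hz.eventually_nhds
  have hcl : closure A ∩ U ⊆ A := by
    rintro z ⟨hz1, hz2⟩
    obtain ⟨φ, hφ, he⟩ := hf z hz2
    obtain ⟨χ, hχ, he'⟩ := hg z hz2
    obtain ⟨r, hr, hr1⟩ := Metric.eventually_nhds_iff_ball.mp
      ((hφ.eventually_analyticAt.and hχ.eventually_analyticAt).and (he.and he'))
    obtain ⟨z', hz'1, hz'2⟩ := mem_closure_iff_nhds.mp hz1 (ball z r) (ball_mem_nhds z hr)
    have hz'A : ∀ᶠ w in 𝓝 z', f w = g w := hz'2
    have hprop : ∀ i j, ∀ w ∈ ball z r, φ w i * χ w j - φ w j * χ w i = 0 := by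
      intro i j
      have han : AnalyticOnNhd ℂ (fun w => φ w i * χ w j - φ w j * χ w i) (ball z r) := by
        intro w hw
        have h1 := analyticAt_pi_iff.mp (hr1 w hw).1.1
        have h2 := analyticAt_pi_iff.mp (hr1 w hw).1.2
        exact ((h1 i).mul (h2 j)).sub ((h1 j).mul (h2 i))
      have h0 : (fun w => φ w i * χ w j - φ w j * χ w i) =ᶠ[𝓝 z'] 0 := by
        filter_upwards [hz'A, isOpen_ball.mem_nhds hz'1] with w hw1 hw2
        obtain ⟨⟨h1, h2⟩, h3, h4⟩ := (hr1 w hw2).2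
        rw [h2, h4, Projectivization.mk_eq_mk_iff'] at hw1
        obtain ⟨a, ha⟩ := hw1
        simp only [← ha, Pi.smul_apply, smul_eq_mul, Pi.zero_apply]
        ring
      exact han.eqOn_zero_of_preconnected_of_eventuallyEq_zero (convex_ball z r).isPreconnected hz'1 h0
    show ∀ᶠ w in 𝓝 z, f w = g w
    filter_upwards [ball_mem_nhds z hr] with w hw
    obtain ⟨⟨h1, h2⟩, h3, h4⟩ := (hr1 w hw).2
    rw [h2, h4, Projectivization.mk_eq_mk_iff']
    obtain ⟨j, hj⟩ : ∃ j, χ w j ≠ 0 := by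
      by_contra hcon
      push Not at hcon
      exact h3 (funext hcon)
    refine ⟨φ w j / χ w j, ?_⟩
    funext i
    have h5 := hprop i j w hw
    simp only [Pi.smul_apply, smul_eq_mul]
    field_simp
    linear_combination -h5
  have hAU : U ⊆ A := hUc.subset_of_closure_inter_subset hAo ⟨z₀, hz₀, h⟩ hcl
  intro z hz
  have h1 : ∀ᶠ w in 𝓝 z, f w = g w := hAU hz
  exact h1.self_of_nhds

end Pool.Agent.H7.Bir

end
end

section

/-!
# Bir Alg: birational maps and function fields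

* `exists_form`: homogenisation.
* `funIso`: a generic point `x` of the variety of `Q`, with coordinates which generate the field `L`, gives `FunField Q ≃ L`.
* `IsBir`: a birational map between the varieties of `P` and `P'`, given by forms.
* `exists_isBir`: it exists if the function fields are isomorphic.
* `exists_sub`: images of subvarieties.
-/

set_option autoImplicit false

open MvPolynomial

noncomputable section

namespace Pool.Agent.H7.Bir

attribute [-instance] ProperSMul.toContinuousSMul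

open Pool.Agent.H17GT (coordFun functionField)
open Pool.Agent.H17LG.Variety (FunField ratio)
open Pool.Agent.H62.FC (Homog)
open Pool.Agent.H17R (gen gen_eq_zero_iff ratio_self adjoin_ratio coordFun_ne_zero_iff)
open Pool.Agent.H92.GT.Proj (aeval_scale)

variable {N M : ℕ}

theorem exists_form (j : Fin (N + 1)) (p : MvPolynomial (Fin (N + 1)) ℂ) : ∃ D₀ : ℕ, ∀ D ≥ D₀,
    ∃ R : MvPolynomial (Fin (N + 1)) ℂ, R.IsHomogeneous D ∧
      ∀ (K : Type) [Field K] [Algebra ℂ K] (x : Fin (N + 1) → K), x j = 1 → aeval x R = aeval x p := by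
  induction p using MvPolynomial.induction_on with
  | C c =>
    refine ⟨0, fun D _ => ⟨MvPolynomial.C c * X j ^ D, ?_, ?_⟩⟩
    · have h1 := (isHomogeneous_C (Fin (N + 1)) c).mul ((isHomogeneous_X ℂ j).pow D)
      simpa using h1
    · intro K _ _ x hx
      simp [hx]
  | add p q hp hq =>
    obtain ⟨D₁, h1⟩ := hp
    obtain ⟨D₂, h2⟩ := hq
    refine ⟨max D₁ D₂, fun D hD => ?_⟩
    obtain ⟨R₁, h3, h4⟩ := h1 D ((le_max_left _ _).trans hD)
    obtain ⟨R₂, h5, h6⟩ := h2 D ((le_max_right _ _).trans hD)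
    refine ⟨R₁ + R₂, h3.add h5, ?_⟩
    intro K _ _ x hx
    rw [map_add, map_add, h4 K x hx, h6 K x hx]
  | mul_X p i hp =>
    obtain ⟨D₁, h1⟩ := hp
    refine ⟨D₁ + 1, fun D hD => ?_⟩
    obtain ⟨D', rfl⟩ : ∃ D', D = D' + 1 := ⟨D - 1, by omega⟩
    obtain ⟨R₁, h3, h4⟩ := h1 D' (by omega)
    refine ⟨R₁ * X i, h3.mul (isHomogeneous_X ℂ i), ?_⟩
    intro K _ _ x hx
    rw [map_mul, map_mul, h4 K x hx]

/-- Homogenisation of finitely many polynomials. -/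
theorem exists_forms (j : Fin (N + 1)) {ι : Type} [Fintype ι] (p : ι → MvPolynomial (Fin (N + 1)) ℂ) : ∃ (D : ℕ)
    (R : ι → MvPolynomial (Fin (N + 1)) ℂ), (∀ i, (R i).IsHomogeneous D) ∧
      ∀ (K : Type) [Field K] [Algebra ℂ K] (x : Fin (N + 1) → K), x j = 1 → ∀ i, aeval x (R i) = aeval x (p i) := by
  choose D₀ h using fun i => exists_form j (p i)
  choose R hR hR' using fun i => h i (∑ i, D₀ i) (Finset.single_le_sum (f := D₀) (fun i _ => Nat.zero_le _) (Finset.mem_univ i))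
  exact ⟨∑ i, D₀ i, R, hR, fun K _ _ x hx i => hR' i K x hx⟩

open scoped IntermediateField.algebraAdjoinAdjoin in
/-- Finitely many elements of a field generated by `x` are quotients of forms in `x` with the same denominator. -/
theorem exists_quot {L : Type} [Field L] [Algebra ℂ L] {x : Fin (N + 1) → L} {j : Fin (N + 1)} (hx : x j = 1)
    (hadj : IntermediateField.adjoin ℂ (Set.range x) = ⊤) (y : Fin (M + 1) → L) {j' : Fin (M + 1)} (hy : y j' = 1) :
    ∃ (D : ℕ) (α : Fin (M + 1) → MvPolynomial (Fin (N + 1)) ℂ), (∀ i, (α i).IsHomogeneous D) ∧ aeval x (α j') ≠ 0 ∧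
      ∀ i, y i * aeval x (α j') = aeval x (α i) := by
  classical
  have hmem : ∀ i, y i ∈ IntermediateField.adjoin ℂ (Set.range x) := fun i => by
    rw [hadj]
    trivial
  obtain ⟨b, hb⟩ := IsLocalization.exist_integer_multiples_of_finset (nonZeroDivisors (Algebra.adjoin ℂ (Set.range x)))
    (Finset.univ.image fun i => (⟨y i, hmem i⟩ : IntermediateField.adjoin ℂ (Set.range x)))
  have hpol : ∀ c : Algebra.adjoin ℂ (Set.range x), ∃ g : MvPolynomial (Fin (N + 1)) ℂ, aeval x g = (c : L) := by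
    intro c
    obtain ⟨g, hg⟩ := (SetLike.ext_iff.1 (Algebra.adjoin_range_eq_range_aeval ℂ x) (c : L)).1 c.2
    exact ⟨g, hg⟩
  obtain ⟨q, hq⟩ := hpol b
  have hp : ∀ i, ∃ g : MvPolynomial (Fin (N + 1)) ℂ, aeval x g = y i * aeval x q := by
    intro i
    obtain ⟨c, hc⟩ := hb ⟨y i, hmem i⟩ (Finset.mem_image_of_mem _ (Finset.mem_univ i))
    obtain ⟨g, hg⟩ := hpol c
    refine ⟨g, ?_⟩
    have h1 := congrArg Subtype.val hc
    rw [hg, hq, mul_comm]
    exact h1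
  choose p hp using hp
  obtain ⟨D, α, hα, hα'⟩ := exists_forms j p
  have h1 : ∀ i, aeval x (α i) = y i * aeval x q := fun i => by rw [hα' L x hx i, hp]
  have h2 : aeval x q ≠ 0 := by
    rw [hq]
    intro h0
    exact nonZeroDivisors.ne_zero b.2 (Subtype.ext h0)
  refine ⟨D, α, hα, ?_, fun i => ?_⟩
  · rw [h1, hy, one_mul]
    exact h2
  · rw [h1, h1, hy, one_mul]

open scoped IntermediateField.algebraAdjoinAdjoin in
theorem funIso {Q : Ideal (MvPolynomial (Fin (N + 1)) ℂ)} [Q.IsPrime] {j : Fin (N + 1)} (hj : coordFun Q j ≠ 0)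
    {L : Type} [Field L] [Algebra ℂ L] {x : Fin (N + 1) → L} (hx : x j = 1)
    (hadj : IntermediateField.adjoin ℂ (Set.range x) = ⊤)
    (h : ∀ (n : ℕ) (G : MvPolynomial (Fin (N + 1)) ℂ), G.IsHomogeneous n → (aeval x G = 0 ↔ G ∈ Q)) :
    Nonempty (FunField Q ≃ₐ[ℂ] L) := by
  set ξ : Fin (N + 1) → FunField Q := fun i => ratio Q i j with hξ
  have hker : RingHom.ker (aeval ξ : MvPolynomial (Fin (N + 1)) ℂ →ₐ[ℂ] FunField Q) =
      RingHom.ker (aeval x : MvPolynomial (Fin (N + 1)) ℂ →ₐ[ℂ] L) := by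
    ext G
    rw [RingHom.mem_ker, RingHom.mem_ker]
    obtain ⟨D, h1⟩ := exists_form j G
    obtain ⟨R, h2, h3⟩ := h1 D le_rfl
    rw [← h3 _ ξ (ratio_self hj), ← h3 _ x hx, h D R h2]
    exact gen_eq_zero_iff hj h2
  have e1 : Algebra.adjoin ℂ (Set.range ξ) ≃ₐ[ℂ] Algebra.adjoin ℂ (Set.range x) :=
    (Subalgebra.equivOfEq _ _ (Algebra.adjoin_range_eq_range_aeval ℂ ξ)).trans
      ((Ideal.quotientKerEquivRange (aeval ξ : MvPolynomial (Fin (N + 1)) ℂ →ₐ[ℂ] FunField Q)).symm.trans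
        ((Ideal.quotientEquivAlgOfEq ℂ hker).trans
          ((Ideal.quotientKerEquivRange (aeval x : MvPolynomial (Fin (N + 1)) ℂ →ₐ[ℂ] L)).trans
            (Subalgebra.equivOfEq _ _ (Algebra.adjoin_range_eq_range_aeval ℂ x)).symm)))
  have e2 : IntermediateField.adjoin ℂ (Set.range ξ) ≃ₐ[ℂ] IntermediateField.adjoin ℂ (Set.range x) :=
    IsFractionRing.algEquivOfAlgEquiv e1
  have e3 : IntermediateField.adjoin ℂ (Set.range ξ) ≃ₐ[ℂ] FunField Q :=
    (IntermediateField.equivOfEq (adjoin_ratio hj)).trans IntermediateField.topEquiv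
  have e4 : IntermediateField.adjoin ℂ (Set.range x) ≃ₐ[ℂ] L :=
    (IntermediateField.equivOfEq hadj).trans IntermediateField.topEquiv
  exact ⟨e3.symm.trans (e2.trans e4)⟩

/-- The forms `α i` and `γ i` define birational maps, inverse to each other, between the varieties of `P` and `P'`. -/
structure IsBir (P : Ideal (MvPolynomial (Fin (N + 1)) ℂ)) (P' : Ideal (MvPolynomial (Fin (M + 1)) ℂ)) (D D' : ℕ)
    (α : Fin (M + 1) → MvPolynomial (Fin (N + 1)) ℂ) (γ : Fin (N + 1) → MvPolynomial (Fin (M + 1)) ℂ)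
    (j : Fin (N + 1)) (j' : Fin (M + 1)) : Prop where
  homα : ∀ i, (α i).IsHomogeneous D
  homγ : ∀ i, (γ i).IsHomogeneous D'
  maps : ∀ n R, R.IsHomogeneous n → (aeval γ R ∈ P' ↔ R ∈ P)
  hj' : X j' ∉ P'
  hγ : γ j ∉ P'
  hα : aeval γ (α j') ∉ P'
  inv : ∀ i, aeval γ (α i) * X j' - aeval γ (α j') * X i ∈ P'

theorem aeval_comp {K : Type} [Field K] [Algebra ℂ K] (x : Fin (M + 1) → K) (γ : Fin (N + 1) → MvPolynomial (Fin (M + 1)) ℂ)
    (R : MvPolynomial (Fin (N + 1)) ℂ) : aeval x (aeval γ R) = aeval (fun i => aeval x (γ i)) R := by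
  rw [← AlgHom.comp_apply, MvPolynomial.comp_aeval]

theorem aeval_div {K : Type} [Field K] [Algebra ℂ K] {n : ℕ} {R : MvPolynomial (Fin (N + 1)) ℂ} (hR : R.IsHomogeneous n)
    {c : K} (hc : c ≠ 0) (y : Fin (N + 1) → K) : aeval y R = c ^ n * aeval (fun i => y i / c) R := by
  rw [← aeval_scale hR]
  congr 2
  funext i
  rw [mul_div_cancel₀ _ hc]

theorem exists_isBir {P : Ideal (MvPolynomial (Fin (N + 1)) ℂ)} [P.IsPrime] {P' : Ideal (MvPolynomial (Fin (M + 1)) ℂ)}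
    [P'.IsPrime] (e : FunField P' ≃ₐ[ℂ] FunField P) {j : Fin (N + 1)} (hj : coordFun P j ≠ 0) {j' : Fin (M + 1)}
    (hj' : coordFun P' j' ≠ 0) :
    ∃ (D D' : ℕ) (α : Fin (M + 1) → MvPolynomial (Fin (N + 1)) ℂ) (γ : Fin (N + 1) → MvPolynomial (Fin (M + 1)) ℂ),
      IsBir P P' D D' α γ j j' := by
  set ξ : Fin (N + 1) → FunField P := fun i => ratio P i j with hξ
  set η : Fin (M + 1) → FunField P' := fun i => ratio P' i j' with hη
  have hξ1 : ξ j = 1 := ratio_self hj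
  have hη1 : η j' = 1 := ratio_self hj'
  obtain ⟨D, α, hα, hα0, hα1⟩ := exists_quot hξ1 (adjoin_ratio hj) (fun i => e (η i)) (j' := j') (by simp only [hη1, map_one])
  obtain ⟨D', γ, hγ, hγ0, hγ1⟩ := exists_quot hη1 (adjoin_ratio hj') (fun i => e.symm (ξ i)) (j' := j) (by
    simp only [hξ1, map_one])
  have h1 : (fun i => aeval η (γ i) / aeval η (γ j)) = fun i => e.symm (ξ i) := by
    funext i
    rw [← hγ1, mul_div_cancel_right₀ _ hγ0]
  have hsymm : ∀ R : MvPolynomial (Fin (N + 1)) ℂ, aeval (fun i => e.symm (ξ i)) R = e.symm (aeval ξ R) := by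
    intro R
    have h2 := DFunLike.congr_fun (MvPolynomial.comp_aeval ξ (e.symm : FunField P →ₐ[ℂ] FunField P')) R
    exact h2.symm
  have h2 : ∀ (n : ℕ) (R : MvPolynomial (Fin (N + 1)) ℂ), R.IsHomogeneous n →
      aeval η (aeval γ R) = aeval η (γ j) ^ n * e.symm (aeval ξ R) := by
    intro n R hR
    rw [aeval_comp, aeval_div hR hγ0, h1, hsymm]
  have hα2 : aeval η (aeval γ (α j')) ≠ 0 := by
    rw [h2 D _ (hα j')]
    refine mul_ne_zero (pow_ne_zero _ hγ0) fun h => hα0 ?_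
    have h3 := congrArg e h
    rwa [e.apply_symm_apply, map_zero] at h3
  refine ⟨D, D', α, γ, hα, hγ, ?_, (coordFun_ne_zero_iff).1 hj', ?_, ?_, ?_⟩
  · intro n R hR
    have h3 : (aeval γ R).IsHomogeneous (D' * n) := hR.aeval γ hγ
    rw [← gen_eq_zero_iff hj' h3, ← gen_eq_zero_iff hj hR]
    change aeval η (aeval γ R) = 0 ↔ aeval ξ R = 0
    rw [h2 n R hR, mul_eq_zero, map_eq_zero_iff e.symm e.symm.injective]
    exact ⟨fun h => h.resolve_left (pow_ne_zero _ hγ0), Or.inr⟩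
  · intro h
    exact hγ0 ((gen_eq_zero_iff hj' (hγ j)).2 h)
  · intro h
    exact hα2 ((gen_eq_zero_iff hj' ((hα j').aeval γ hγ)).2 h)
  · intro i
    have h3 : (aeval γ (α i) * X j' - aeval γ (α j') * X i : MvPolynomial (Fin (M + 1)) ℂ).IsHomogeneous (D' * D + 1) :=
      ((((hα i).aeval γ hγ).mul (isHomogeneous_X ℂ j')).sub (((hα j').aeval γ hγ).mul (isHomogeneous_X ℂ i)))
    rw [← gen_eq_zero_iff hj' h3]
    change aeval η _ = 0
    rw [map_sub, map_mul, map_mul, aeval_X, aeval_X, h2 D _ (hα i), h2 D _ (hα j'), ← hα1 i, map_mul, e.symm_apply_apply, hη1]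
    ring

theorem aeval_scale' {A : Type} [CommRing A] [Algebra ℂ A] {G : MvPolynomial (Fin (N + 1)) ℂ} {n : ℕ}
    (hG : G.IsHomogeneous n) (c : A) (x : Fin (N + 1) → A) :
    aeval (fun i => x i * c) G = aeval x G * c ^ n := by
  rw [aeval_def, aeval_def, eval₂_eq, eval₂_eq, Finset.sum_mul]
  refine Finset.sum_congr rfl fun m hm => ?_
  have h5 : ∑ i ∈ m.support, m i = n := by
    have := hG (mem_support_iff.1 hm)
    rw [Finsupp.weight_apply, Finsupp.sum] at this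
    simpa using this
  simp only [mul_pow, Finset.prod_mul_distrib]
  rw [Finset.prod_pow_eq_pow_sum, h5]
  ring

/-- The homogeneous ideal of a point with coordinates in a field. -/
def pointIdeal {L : Type} [Field L] [Algebra ℂ L] (x : Fin (N + 1) → L) : Ideal (MvPolynomial (Fin (N + 1)) ℂ) :=
  RingHom.ker (aeval fun i => Polynomial.C (x i) * Polynomial.X : MvPolynomial (Fin (N + 1)) ℂ →ₐ[ℂ] Polynomial L)

instance {L : Type} [Field L] [Algebra ℂ L] (x : Fin (N + 1) → L) : (pointIdeal x).IsPrime :=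
  RingHom.ker_isPrime _

theorem point_aeval {L : Type} [Field L] [Algebra ℂ L] (x : Fin (N + 1) → L) {n : ℕ} {R : MvPolynomial (Fin (N + 1)) ℂ}
    (hR : R.IsHomogeneous n) : aeval (fun i => Polynomial.C (x i) * Polynomial.X) R =
      Polynomial.C (aeval x R) * (Polynomial.X : Polynomial L) ^ n := by
  rw [aeval_scale' hR]
  congr 1
  exact MvPolynomial.aeval_algebraMap_apply (B := Polynomial L) x R

theorem mem_pointIdeal_form {L : Type} [Field L] [Algebra ℂ L] (x : Fin (N + 1) → L) {n : ℕ} {R : MvPolynomial (Fin (N + 1)) ℂ}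
    (hR : R.IsHomogeneous n) : R ∈ pointIdeal x ↔ aeval x R = 0 := by
  unfold pointIdeal
  rw [RingHom.mem_ker, point_aeval x hR]
  constructor
  · intro h
    have h1 := congrArg (fun p => Polynomial.coeff p n) h
    simp only [Polynomial.coeff_C_mul, Polynomial.coeff_X_pow_self, mul_one, Polynomial.coeff_zero] at h1
    exact h1
  · intro h
    rw [h, map_zero, zero_mul]

theorem mem_pointIdeal {L : Type} [Field L] [Algebra ℂ L] (x : Fin (N + 1) → L) (R : MvPolynomial (Fin (N + 1)) ℂ) :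
    R ∈ pointIdeal x ↔ ∀ n, aeval x (homogeneousComponent n R) = 0 := by
  have h1 : aeval (fun i => Polynomial.C (x i) * Polynomial.X) R = ∑ n ∈ Finset.range (R.totalDegree + 1),
      Polynomial.C (aeval x (homogeneousComponent n R)) * (Polynomial.X : Polynomial L) ^ n := by
    conv_lhs => rw [← sum_homogeneousComponent R]
    rw [map_sum]
    exact Finset.sum_congr rfl fun n _ => point_aeval x (homogeneousComponent_isHomogeneous n R)
  constructor
  · intro h n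
    by_cases hn : n ∈ Finset.range (R.totalDegree + 1)
    · have h2 : aeval (fun i => Polynomial.C (x i) * Polynomial.X) R = (0 : Polynomial L) := h
      rw [h1] at h2
      have h3 := congrArg (fun p => Polynomial.coeff p n) h2
      simp only [Polynomial.finsetSum_coeff, Polynomial.coeff_C_mul, Polynomial.coeff_X_pow, Polynomial.coeff_zero,
        mul_ite, mul_one, mul_zero] at h3
      rw [Finset.sum_ite_eq, if_pos hn] at h3
      exact h3
    · rw [homogeneousComponent_eq_zero _ _ (by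
        rw [Finset.mem_range] at hn
        omega), map_zero]
  · intro h
    change aeval (fun i => Polynomial.C (x i) * Polynomial.X) R = (0 : Polynomial L)
    rw [h1]
    exact Finset.sum_eq_zero fun n _ => by rw [h n, map_zero, zero_mul]

theorem homog_pointIdeal {L : Type} [Field L] [Algebra ℂ L] (x : Fin (N + 1) → L) : Homog (pointIdeal x) := by
  intro R hR k
  rw [mem_pointIdeal_form x (homogeneousComponent_isHomogeneous k R)]
  exact (mem_pointIdeal x R).1 hR k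

/-- The image of a subvariety. -/
theorem exists_sub {P : Ideal (MvPolynomial (Fin (N + 1)) ℂ)} (hP : Homog P) {P' : Ideal (MvPolynomial (Fin (M + 1)) ℂ)}
    {D D' : ℕ} {α : Fin (M + 1) → MvPolynomial (Fin (N + 1)) ℂ} {γ : Fin (N + 1) → MvPolynomial (Fin (M + 1)) ℂ}
    {j : Fin (N + 1)} {j' : Fin (M + 1)} (h : IsBir P P' D D' α γ j j')
    {Q' : Ideal (MvPolynomial (Fin (M + 1)) ℂ)} [Q'.IsPrime] (hPQ : P' ≤ Q') (h1 : X j' ∉ Q') (h2 : γ j ∉ Q')
    (h3 : aeval γ (α j') ∉ Q') : ∃ (Q : Ideal (MvPolynomial (Fin (N + 1)) ℂ)) (_ : Q.IsPrime), Homog Q ∧ P ≤ Q ∧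
      Nonempty (FunField Q ≃ₐ[ℂ] FunField Q') ∧ ∀ n R, R.IsHomogeneous n → (R ∈ Q ↔ aeval γ R ∈ Q') := by
  have hj' : coordFun Q' j' ≠ 0 := coordFun_ne_zero_iff.2 h1
  set η : Fin (M + 1) → FunField Q' := fun i => ratio Q' i j' with hη
  have hη1 : η j' = 1 := ratio_self hj'
  have hc : aeval η (γ j) ≠ 0 := fun h0 => h2 ((gen_eq_zero_iff hj' (h.homγ j)).1 h0)
  set x : Fin (N + 1) → FunField Q' := fun i => aeval η (γ i) / aeval η (γ j) with hx
  have hx1 : x j = 1 := div_self hc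
  have hR : ∀ (n : ℕ) (R : MvPolynomial (Fin (N + 1)) ℂ), R.IsHomogeneous n →
      aeval η (aeval γ R) = aeval η (γ j) ^ n * aeval x R := by
    intro n R hR
    rw [aeval_comp, aeval_div hR hc]
  have hmem : ∀ (n : ℕ) (R : MvPolynomial (Fin (N + 1)) ℂ), R.IsHomogeneous n → (R ∈ pointIdeal x ↔ aeval γ R ∈ Q') := by
    intro n R hRn
    rw [mem_pointIdeal_form x hRn, ← gen_eq_zero_iff hj' (hRn.aeval γ h.homγ)]
    change _ ↔ aeval η (aeval γ R) = 0
    rw [hR n R hRn, mul_eq_zero]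
    exact ⟨Or.inr, fun h => h.resolve_left (pow_ne_zero _ hc)⟩
  have hcoord : coordFun (pointIdeal x) j ≠ 0 := by
    rw [coordFun_ne_zero_iff, mem_pointIdeal_form x (isHomogeneous_X ℂ j), aeval_X, hx1]
    exact one_ne_zero
  have hadj : IntermediateField.adjoin ℂ (Set.range x) = ⊤ := by
    have hpol : ∀ R : MvPolynomial (Fin (N + 1)) ℂ, aeval x R ∈ IntermediateField.adjoin ℂ (Set.range x) := by
      intro R
      have h4 : aeval x R ∈ Algebra.adjoin ℂ (Set.range x) := by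
        rw [Algebra.adjoin_range_eq_range_aeval]
        exact ⟨R, rfl⟩
      exact IntermediateField.algebra_adjoin_le_adjoin ℂ _ h4
    rw [eq_top_iff, ← adjoin_ratio hj', IntermediateField.adjoin_le_iff]
    rintro _ ⟨i, rfl⟩
    have h4 : aeval η (aeval γ (α i) * X j' - aeval γ (α j') * X i) = 0 := by
      have h5 : (aeval γ (α i) * X j' - aeval γ (α j') * X i : MvPolynomial (Fin (M + 1)) ℂ).IsHomogeneous (D' * D + 1) :=
        ((((h.homα i).aeval γ h.homγ).mul (isHomogeneous_X ℂ j')).sub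
          (((h.homα j').aeval γ h.homγ).mul (isHomogeneous_X ℂ i)))
      exact (gen_eq_zero_iff hj' h5).2 (hPQ (h.inv i))
    rw [map_sub, map_mul, map_mul, aeval_X, aeval_X, hR D _ (h.homα i), hR D _ (h.homα j'), hη1, mul_one] at h4
    have h5 : aeval x (α j') ≠ 0 := by
      intro h0
      apply h3
      rw [← hmem D _ (h.homα j'), mem_pointIdeal_form x (h.homα j')]
      exact h0
    have h6 : η i = aeval x (α i) / aeval x (α j') := by
      rw [eq_div_iff h5]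
      have h7 : aeval η (γ j) ^ D ≠ 0 := pow_ne_zero _ hc
      apply mul_left_cancel₀ h7
      linear_combination -h4
    change η i ∈ IntermediateField.adjoin ℂ (Set.range x)
    rw [h6]
    exact div_mem (hpol _) (hpol _)
  refine ⟨pointIdeal x, inferInstance, homog_pointIdeal x, ?_, ?_, hmem⟩
  · intro R hRP
    rw [mem_pointIdeal]
    intro n
    rw [← mem_pointIdeal_form x (homogeneousComponent_isHomogeneous n R), hmem n _ (homogeneousComponent_isHomogeneous n R)]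
    exact hPQ ((h.maps n _ (homogeneousComponent_isHomogeneous n R)).2 (hP R hRP n))
  · exact funIso hcoord hx1 hadj fun n G hG => (mem_pointIdeal_form x hG).symm

end Pool.Agent.H7.Bir

end
end

section

/-!
# Bir Main: the properties of the Green–Griffiths–Lang conjecture are birationally invariant

`bir_four`: let `P` and `P'` be homogeneous prime ideals whose function fields are isomorphic over `ℂ`.  If the variety of `P` has the properties of
the conjecture (with an exceptional set `Ξ`), then so has the variety of `P'`.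
-/

set_option autoImplicit false

open Topology Filter MvPolynomial

noncomputable section

namespace Pool.Agent.H7.Bir

attribute [-instance] ProperSMul.toContinuousSMul

open Pool.Agent.H17 (PN VanishesAt HolomorphicInto puncturedDisc vanishesAt_mk_iff ZariskiClosedIn)
open Pool.Agent.H17GT (coordFun)
open Pool.Agent.H17LG.Variety (FunField IsLogGeneralType)
open Pool.Agent.H62.FC (Homog)
open Pool.Agent.H17R (coordFun_ne_zero_iff)
open Pool.Agent.H17EF (projVar)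

variable {N M : ℕ}

/-- The properties of the conjecture for the closed subvariety of `ℙ^N` given by `P`, with the exceptional set `Ξ`. -/
structure GGL (P : Ideal (MvPolynomial (Fin (N + 1)) ℂ)) [P.IsPrime] (Ξ : Set (PN N)) : Prop where
  closed : ZariskiClosedIn (projVar P) Ξ
  proper : Ξ ≠ projVar P
  generalType : ∀ w, 1 ≤ w → (∃ z : Fin w → FunField P, IsTranscendenceBasis ℂ z) →
    IsLogGeneralType (K := FunField P) (k := w) fun _ => False
  picard : ∀ f : ℂ → PN N, HolomorphicInto f puncturedDisc → (∀ z ∈ puncturedDisc, f z ∈ projVar P) →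
    (∃ z ∈ puncturedDisc, f z ∉ Ξ) →
    ∃ g : ℂ → PN N, HolomorphicInto g (Metric.ball 0 1) ∧ ∀ z ∈ puncturedDisc, g z = f z
  brody : ∀ f : ℂ → PN N, HolomorphicInto f Set.univ → (∀ z, f z ∈ projVar P) → (∃ z w, f z ≠ f w) → ∀ z, f z ∈ Ξ
  strongly : ∀ (Q : Ideal (MvPolynomial (Fin (N + 1)) ℂ)) [Q.IsPrime], Homog Q → P ≤ Q → ¬ projVar Q ⊆ Ξ →
    ∀ w, 1 ≤ w → (∃ z : Fin w → FunField Q, IsTranscendenceBasis ℂ z) →
      IsLogGeneralType (K := FunField Q) (k := w) fun _ => False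

theorem punctured_open : IsOpen puncturedDisc := Metric.isOpen_ball.sdiff isClosed_singleton

/-- The value of a composed form. -/
theorem eval_comp (γ : Fin (N + 1) → MvPolynomial (Fin (M + 1)) ℂ) (R : MvPolynomial (Fin (N + 1)) ℂ) (x : Fin (M + 1) → ℂ) :
    eval x (aeval γ R) = eval (vals γ x) R := by
  have h1 := aeval_comp (K := ℂ) x γ R
  exact h1

/-- A form vanishes at the image of a point if and only if its composition with the rational map vanishes. -/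
theorem vanishesAt_rmap {γ : Fin (N + 1) → MvPolynomial (Fin (M + 1)) ℂ} {y : PN M} (hy : vals γ y.rep ≠ 0) {n : ℕ}
    {R : MvPolynomial (Fin (N + 1)) ℂ} (hR : R.IsHomogeneous n) : VanishesAt R (rmap γ y) ↔ VanishesAt (aeval γ R) y := by
  unfold rmap
  rw [dif_pos hy, vanishesAt_mk_iff hR]
  unfold VanishesAt
  rw [eval_comp]

section

variable {P : Ideal (MvPolynomial (Fin (N + 1)) ℂ)} {P' : Ideal (MvPolynomial (Fin (M + 1)) ℂ)} {D D' : ℕ}
  {α : Fin (M + 1) → MvPolynomial (Fin (N + 1)) ℂ} {γ : Fin (N + 1) → MvPolynomial (Fin (M + 1)) ℂ} {j : Fin (N + 1)}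
  {j' : Fin (M + 1)}

/-- The form whose zeros are removed. -/
def badForm (α : Fin (M + 1) → MvPolynomial (Fin (N + 1)) ℂ) (γ : Fin (N + 1) → MvPolynomial (Fin (M + 1)) ℂ) (j : Fin (N + 1))
    (j' : Fin (M + 1)) : MvPolynomial (Fin (M + 1)) ℂ := X j' * (γ j * aeval γ (α j'))

theorem not_bad_iff {y : PN M} : ¬ VanishesAt (badForm α γ j j') y ↔
    ¬ VanishesAt (X j') y ∧ ¬ VanishesAt (γ j) y ∧ ¬ VanishesAt (aeval γ (α j')) y := by
  unfold badForm VanishesAt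
  rw [map_mul, map_mul, mul_eq_zero, mul_eq_zero, not_or, not_or]

theorem IsBir.bad_homog (h : IsBir P P' D D' α γ j j') : (badForm α γ j j').IsHomogeneous (1 + (D' + D' * D)) :=
  (isHomogeneous_X ℂ j').mul ((h.homγ j).mul ((h.homα j').aeval γ h.homγ))

/-- The image of a point. -/
theorem IsBir.mem (h : IsBir P P' D D' α γ j j') {y : PN M} (hy : y ∈ projVar P') (hv : vals γ y.rep ≠ 0) : rmap γ y ∈ projVar P := by
  intro R hR n hRn
  rw [vanishesAt_rmap hv hRn]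
  exact hy _ ((h.maps n R hRn).2 hR) _ (hRn.aeval γ h.homγ)

/-- The two rational maps are inverse to each other. -/
theorem IsBir.comp_eq (h : IsBir P P' D D' α γ j j') {y : PN M} (hy : y ∈ projVar P') (hb : ¬ VanishesAt (badForm α γ j j') y) :
    vals γ y.rep ≠ 0 ∧ vals α (rmap γ y).rep ≠ 0 ∧ rmap α (rmap γ y) = y := by
  obtain ⟨h1, h2, h3⟩ := not_bad_iff.1 hb
  have hv : vals γ y.rep ≠ 0 := fun h0 => h2 (congrFun h0 j)
  have hc : vals α (vals γ y.rep) ≠ 0 := by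
    intro h0
    apply h3
    unfold VanishesAt
    rw [eval_comp]
    exact congrFun h0 j'
  have hα : vals α (rmap γ y).rep ≠ 0 := by
    intro h0
    have h4 : VanishesAt (α j') (rmap γ y) := congrFun h0 j'
    rw [vanishesAt_rmap hv (h.homα j')] at h4
    exact h3 h4
  refine ⟨hv, hα, ?_⟩
  have h5 : rmap γ y = Projectivization.mk ℂ (vals γ y.rep) hv := by
    unfold rmap
    rw [dif_pos hv]
  rw [h5, rmap_mk h.homα hv hc]
  conv_rhs => rw [← y.mk_rep]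
  rw [Projectivization.mk_eq_mk_iff']
  have h6 : eval y.rep (aeval γ (α j')) ≠ 0 := h3
  have h7 : eval y.rep (X j') ≠ 0 := h1
  rw [eval_X] at h7
  refine ⟨eval y.rep (aeval γ (α j')) / y.rep j', ?_⟩
  funext i
  have h8 := hy _ (h.inv i) (D' * D + 1) ((((h.homα i).aeval γ h.homγ).mul (isHomogeneous_X ℂ j')).sub
    (((h.homα j').aeval γ h.homγ).mul (isHomogeneous_X ℂ i)))
  unfold VanishesAt at h8
  rw [map_sub, map_mul, map_mul, eval_X, eval_X] at h8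
  change eval y.rep (aeval γ (α j')) / y.rep j' * y.rep i = eval (vals γ y.rep) (α i)
  rw [← eval_comp]
  field_simp
  linear_combination -h8

/-- Holomorphic maps to the variety of `P'`: the composition with the rational map. -/
theorem IsBir.lift (h : IsBir P P' D D' α γ j j') {f : ℂ → PN M} {U : Set ℂ} (hUo : IsOpen U) (hUc : IsPreconnected U)
    (hf : HolomorphicInto f U) (hfX : ∀ z ∈ U, f z ∈ projVar P') {z₀ : ℂ} (hz₀ : z₀ ∈ U)
    (hb : ¬ VanishesAt (badForm α γ j j') (f z₀)) :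
    ∃ g : ℂ → PN N, HolomorphicInto g U ∧ (∀ z ∈ U, g z ∈ projVar P) ∧ g z₀ = rmap γ (f z₀) ∧
      ∀ᶠ z in 𝓝 z₀, vals α (g z).rep ≠ 0 ∧ rmap α (g z) = f z := by
  obtain ⟨h1, h2, h3⟩ := not_bad_iff.1 hb
  obtain ⟨g, hg, hg1, -⟩ := exists_comp h.homγ hUo hUc hf hz₀ h2
  have hnear : ∀ᶠ z in 𝓝 z₀, z ∈ U ∧ ¬ VanishesAt (badForm α γ j j') (f z) := by
    obtain ⟨φ, hφ, he⟩ := hf z₀ hz₀
    have hcont : ContinuousAt (fun z => eval (φ z) (badForm α γ j j')) z₀ := by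
      have h4 : AnalyticAt ℂ (fun w => MvPolynomial.aeval (φ w) (badForm α γ j j')) z₀ :=
        AnalyticAt.aeval_mvPolynomial (fun i => analyticAt_pi_iff.mp hφ i) _
      exact h4.continuousAt
    have h0 : eval (φ z₀) (badForm α γ j j') ≠ 0 := by
      obtain ⟨h4, h5⟩ := he.self_of_nhds
      rw [h5, vanishesAt_mk_iff h.bad_homog] at hb
      exact hb
    filter_upwards [hUo.mem_nhds hz₀, he, hcont.eventually_ne h0] with z hz h4 h5
    refine ⟨hz, ?_⟩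
    obtain ⟨h6, h7⟩ := h4
    rw [h7, vanishesAt_mk_iff h.bad_homog]
    exact h5
  have hnear2 : ∀ᶠ z in 𝓝 z₀, g z = rmap γ (f z) ∧ vals γ (f z).rep ≠ 0 ∧ vals α (rmap γ (f z)).rep ≠ 0 ∧
      rmap α (rmap γ (f z)) = f z := by
    filter_upwards [hnear] with z hz
    obtain ⟨h4, h5, h6⟩ := h.comp_eq (hfX z hz.1) hz.2
    exact ⟨hg1 z hz.1 h4, h4, h5, h6⟩
  refine ⟨g, hg, ?_, hnear2.self_of_nhds.1, ?_⟩
  · have h4 := Pool.Agent.H36.BP.vanish_identity hUc hg (S := {R | R ∈ P ∧ ∃ n, R.IsHomogeneous n}) (fun R hR => hR.2) hz₀ (by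
      filter_upwards [hnear, hnear2] with z hz hz2 R hR
      obtain ⟨hRP, n, hRn⟩ := hR
      rw [hz2.1]
      exact h.mem (hfX z hz.1) hz2.2.1 R hRP n hRn)
    intro z hz R hR n hRn
    exact h4 z hz R ⟨hR, n, hRn⟩
  · filter_upwards [hnear2] with z hz
    rw [hz.1]
    exact ⟨hz.2.2.1, hz.2.2.2⟩

end

end Pool.Agent.H7.Bir

end
end
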