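import Pool.Agent.H94.CB.M192
import Pool.Agent.H94.CB.M214

/-! The parts of this file: H41.LR.Rel, H41.LR.MainN, H41.LR.MainI. -/

section

/-!
# LR Rel: algebraic relations for the members of `Tm` on half planes
-/

set_option autoImplicit false

open Topology Filter Metric MvPolynomial

noncomputable section

namespace Pool.Agent.H41.LR

attribute [-instance] ProperSMul.toContinuousSMul

open Pool.Agent.H62.LR (BaseD Tm)
open Pool.Agent.H87.LU (HP)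
open Pool.Agent.H7.Per (per)

/-- the output of the dynamical part -/
def Out (p : ℝ) (B : Set ℂ) (𝓛 : Set (ℂ → ℂ)) (C A : Set ℂ) : Prop :=
  ∃ (q : ℕ) (𝓕 : Set (ℂ → ℂ)), 1 ≤ q ∧ 𝓕.Finite ∧ 𝓕 ⊆ Tm B 𝓛 C A Set.univ ∧
      (∀ f ∈ Tm B 𝓛 C A Set.univ, ∃ g ∈ 𝓕, ∀ z, z ∉ B → f z = g z) ∧
      (∀ σ ρ : ℝ, σ = 1 ∨ σ = -1 → ∀ f ∈ Tm B 𝓛 C A (HP σ ρ), ∃ g ∈ 𝓕, ∀ z ∈ HP σ ρ, z ∉ B → f z = g z) ∧
      ∀ f ∈ 𝓕, ∀ z, z ∉ B → f (z + p * q * Complex.I) = f z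

/-- finitely many relations -/
def FinRel (B : Set ℂ) (𝓣 : Set (ℂ → ℂ)) (ρ : ℝ) (Ψ : Set (MvPolynomial (Fin 2) ℂ)) : Prop :=
  ∀ f ∈ 𝓣, ∃ Φ ∈ Ψ, ∀ z ∈ HP 1 ρ, z ∉ B → eval ![Complex.exp z, f z] Φ = 0

/-- the bad points are isolated -/
theorem ev_notMem {p : ℝ} {B : Set ℂ} {δ W : ℝ} {𝓛 : Set (ℂ → ℂ)} {C A : Set ℂ} (h : BaseD p B δ W 𝓛 C A) (z₀ : ℂ) : ∀ᶠ z in 𝓝[≠] z₀, z ∉ B := by
  have hδ := h.δ_pos
  by_cases hz₀ : ∃ b ∈ B, b ∈ ball z₀ δ
  · obtain ⟨b, hb, hb1⟩ := hz₀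
    rw [mem_ball_iff_norm] at hb1
    have h1 : ∀ᶠ z in 𝓝[≠] z₀, z ≠ b := by
      by_cases h2 : z₀ = b
      · rw [← h2]
        exact self_mem_nhdsWithin
      · exact nhdsWithin_le_nhds (isOpen_ne.mem_nhds h2)
    have h2 : ∀ᶠ z in 𝓝[≠] z₀, z ∈ ball z₀ δ := nhdsWithin_le_nhds (ball_mem_nhds z₀ hδ)
    filter_upwards [h1, h2] with z hz1 hz2 hz3
    rw [mem_ball_iff_norm] at hz2
    have h4 := h.B_sep z hz3 b hb hz1
    have h5 : ‖z - b‖ ≤ ‖z - z₀‖ + ‖b - z₀‖ := by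
      have h6 := norm_sub_le (z - z₀) (b - z₀)
      rwa [sub_sub_sub_cancel_right] at h6
    linarith
  · push Not at hz₀
    have h2 : ∀ᶠ z in 𝓝[≠] z₀, z ∈ ball z₀ δ := nhdsWithin_le_nhds (ball_mem_nhds z₀ hδ)
    filter_upwards [h2] with z hz1 hz2
    exact hz₀ z hz2 hz1

/-- **Relations.** -/
theorem exists_finRel {B : Set ℂ} {δ W : ℝ} {𝓛 : Set (ℂ → ℂ)} {C A : Set ℂ} (h : BaseD (2 * Real.pi) B δ W 𝓛 C A)
    (hout : Out (2 * Real.pi) B 𝓛 C A) : ∃ Ψ : Set (MvPolynomial (Fin 2) ℂ), Ψ.Finite ∧ (0 : MvPolynomial (Fin 2) ℂ) ∉ Ψ ∧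
      ∀ ρ : ℝ, FinRel B (Tm B 𝓛 C A (HP 1 ρ)) ρ Ψ := by
  obtain ⟨q, 𝓕, hq, hfin, hsub, -, hHP, hper⟩ := hout
  have hrel : ∀ f : ℂ → ℂ, f ∈ 𝓕 → ∃ Φ : MvPolynomial (Fin 2) ℂ, Φ ≠ 0 ∧ ∀ z, AnalyticAt ℂ f z → eval ![Complex.exp z, f z] Φ = 0 := by
    intro f hf
    have hT := hsub hf
    refine exists_rel schottky (fun z => hT.1 z (Set.mem_univ z)) (k := q) hq ?_ (W := W) ?_
    · intro z₀
      filter_upwards [ev_notMem h z₀] with z hz
      have h1 := hper f hf z hz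
      have h2 : ((per q : ℝ) : ℂ) * Complex.I = ((2 * Real.pi : ℝ) : ℂ) * q * Complex.I := by
        unfold per
        push_cast
        ring
      rw [h2]
      exact h1
    · intro z hz
      have hzB : z ∉ B := by
        intro hb
        have h1 := h.B_re z hb
        have h2 := h.δ_pos
        linarith
      obtain ⟨h1, h2, h3, -⟩ := hT.2.1 z (Set.mem_univ z) hzB
      exact ⟨h1, h2, h3⟩
  choose! Φ hΦ0 hΦ using hrel
  refine ⟨Φ '' 𝓕, hfin.image _, ?_, ?_⟩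
  · rintro ⟨f, hf, h1⟩
    exact hΦ0 f hf h1
  · intro ρ f hf
    obtain ⟨g, hg, h1⟩ := hHP 1 ρ (Or.inl rfl) f hf
    refine ⟨Φ g, ⟨g, hg, rfl⟩, fun z hz hzB => ?_⟩
    rw [h1 z hz hzB]
    exact hΦ g hg z ((hsub hg).2.1 z (Set.mem_univ z) hzB).1

/-- the substitution `y ↦ 1 - y` -/
theorem sub_one (Φ : MvPolynomial (Fin 2) ℂ) (hΦ : Φ ≠ 0) : ∃ Φ' : MvPolynomial (Fin 2) ℂ, Φ' ≠ 0 ∧ ∀ x y : ℂ, eval ![x, 1 - y] Φ = 0 → eval ![x, y] Φ' = 0 := by
  have key : ∀ x y : ℂ, eval ![x, y] (bind₁ ![X 0, 1 - X 1] Φ) = eval ![x, 1 - y] Φ := by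
    intro x y
    rw [← MvPolynomial.coe_aeval_eq_eval, ← MvPolynomial.coe_aeval_eq_eval, RingHom.coe_coe, RingHom.coe_coe, aeval_bind₁]
    congr 1
    have h1 : (fun i : Fin 2 => (aeval (![x, y] : Fin 2 → ℂ)) ((![X 0, 1 - X 1] : Fin 2 → MvPolynomial (Fin 2) ℂ) i)) = ![x, 1 - y] := by
      funext i
      fin_cases i
      · simp
      · simp
    rw [h1]
  refine ⟨bind₁ ![X 0, 1 - X 1] Φ, ?_, fun x y h => by rw [key, h]⟩
  intro h0
  apply hΦ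
  apply MvPolynomial.funext
  intro v
  have h1 := key (v 0) (1 - v 1)
  rw [h0, map_zero, sub_sub_cancel] at h1
  have h2 : v = ![v 0, v 1] := by
    funext i
    fin_cases i
    · rfl
    · rfl
  rw [h2, ← h1, map_zero]

/-- the substitution `y ↦ 1 - 1 / y` -/
theorem sub_inv (Φ : MvPolynomial (Fin 2) ℂ) (hΦ : Φ ≠ 0) : ∃ Φ' : MvPolynomial (Fin 2) ℂ, Φ' ≠ 0 ∧ ∀ x y : ℂ, y ≠ 0 → eval ![x, 1 - y⁻¹] Φ = 0 →
    eval ![x, y] Φ' = 0 := by
  have hex : ∀ Φ : MvPolynomial (Fin 2) ℂ, ∃ (Φ' : MvPolynomial (Fin 2) ℂ) (d : ℕ), ∀ x y : ℂ, y ≠ 0 → eval ![x, y] Φ' = y ^ d * eval ![x, 1 - y⁻¹] Φ := by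
    intro Φ
    induction Φ using MvPolynomial.induction_on with
    | C a =>
      refine ⟨C a, 0, fun x y _ => ?_⟩
      rw [eval_C, eval_C, pow_zero, one_mul]
    | add P Q hP hQ =>
      obtain ⟨P', d, hP'⟩ := hP
      obtain ⟨Q', e, hQ'⟩ := hQ
      refine ⟨P' * X 1 ^ e + Q' * X 1 ^ d, d + e, fun x y hy => ?_⟩
      rw [map_add, map_mul, map_mul, map_pow, map_pow, eval_X, hP' x y hy, hQ' x y hy, map_add]
      show y ^ d * (eval ![x, 1 - y⁻¹] P) * y ^ e + y ^ e * (eval ![x, 1 - y⁻¹] Q) * y ^ d = _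
      ring
    | mul_X P i hP =>
      obtain ⟨P', d, hP'⟩ := hP
      fin_cases i
      · refine ⟨P' * X 0, d, fun x y hy => ?_⟩
        show eval ![x, y] (P' * X 0) = y ^ d * eval ![x, 1 - y⁻¹] (P * X 0)
        rw [map_mul, map_mul, eval_X, eval_X, hP' x y hy]
        show y ^ d * (eval ![x, 1 - y⁻¹] P) * x = y ^ d * ((eval ![x, 1 - y⁻¹] P) * x)
        ring
      · refine ⟨P' * (X 1 - 1), d + 1, fun x y hy => ?_⟩
        show eval ![x, y] (P' * (X 1 - 1)) = y ^ (d + 1) * eval ![x, 1 - y⁻¹] (P * X 1)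
        rw [map_mul, map_mul, map_sub, map_one, eval_X, eval_X, hP' x y hy]
        show y ^ d * (eval ![x, 1 - y⁻¹] P) * (y - 1) = y ^ (d + 1) * ((eval ![x, 1 - y⁻¹] P) * (1 - y⁻¹))
        have h1 : y * (1 - y⁻¹) = y - 1 := by
          rw [mul_sub, mul_one, mul_inv_cancel₀ hy]
        rw [← h1, pow_succ]
        ring
  obtain ⟨Φ', d, h⟩ := hex Φ
  refine ⟨Φ', ?_, fun x y hy h1 => by rw [h x y hy, h1, mul_zero]⟩
  intro h0
  have h1 : Φ * (X 1 - 1) = 0 := by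
    apply MvPolynomial.funext
    intro v
    rw [map_mul, map_sub, map_one, eval_X, map_zero]
    by_cases hv : v 1 = 1
    · rw [hv, sub_self, mul_zero]
    · have hv1 : 1 - v 1 ≠ 0 := fun h2 => hv (sub_eq_zero.1 h2).symm
      have h2 := h (v 0) (1 - v 1)⁻¹ (inv_ne_zero hv1)
      rw [h0, map_zero, inv_inv, sub_sub_cancel] at h2
      have h3 : v = ![v 0, v 1] := by
        funext i
        fin_cases i
        · rfl
        · rfl
      have h4 : eval ![v 0, v 1] Φ = 0 := by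
        rcases mul_eq_zero.1 h2.symm with h5 | h5
        · exact absurd h5 (pow_ne_zero _ (inv_ne_zero hv1))
        · exact h5
      rw [h3, h4, zero_mul]
  rcases mul_eq_zero.1 h1 with h2 | h2
  · exact hΦ h2
  · have h3 := congrArg (eval ![(0 : ℂ), 0]) h2
    rw [map_sub, map_one, eval_X, map_zero] at h3
    have h4 : (0 : ℂ) - 1 = 0 := h3
    norm_num at h4

end Pool.Agent.H41.LR

end
end

section

/-!
# LR MainN: case (N)
-/

set_option autoImplicit false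

open Topology Filter Metric MvPolynomial

noncomputable section

namespace Pool.Agent.H41.LR

attribute [-instance] ProperSMul.toContinuousSMul

open Pool.Agent.H62.LR (BaseD Tm)
open Pool.Agent.H87.LU (HP)
open Pool.Agent.H46.LR (OmitsAt OmitsSecAt FinAt Approx Algebraic MainN MainI)

/-- the output of the dynamical part, for all data (period `2 π i`) -/
def Output : Prop := ∀ (B : Set ℂ) (δ W : ℝ) (𝓛 : Set (ℂ → ℂ)) (C A : Set ℂ), BaseD (2 * Real.pi) B δ W 𝓛 C A →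
  ((C = ∅ ∧ ∃ L ∈ 𝓛, ∃ b₀ ∈ B, AnalyticAt ℂ L b₀ ∧ L b₀ = 1) ∨ (𝓛 = ∅ ∧ C.Nonempty)) → Out (2 * Real.pi) B 𝓛 C A

/-- a nonconstant rational function takes one of the values `0`, `1`, `∞` on `ℂ^*` -/
theorem exists_val {p q : Polynomial ℂ} (hpq : ∀ t : ℂ, p ≠ Polynomial.C t * q) :
    ∃ c : ℂ, c ≠ 0 ∧ (p.eval c = 0 ∨ q.eval c = 0 ∨ p.eval c = q.eval c) := by
  by_contra hcon
  push Not at hcon
  have hqe : ∀ z, q.eval (Complex.exp z) ≠ 0 := fun z => (hcon _ (Complex.exp_ne_zero z)).2.1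
  have h1 : Differentiable ℂ (Ls p q) := by
    intro z
    exact ((an_poly p z).div (an_poly q z) (hqe z)).differentiableAt
  have h2 : ∀ z, Ls p q z ≠ 0 ∧ Ls p q z ≠ 1 := by
    intro z
    obtain ⟨h3, h4, h5⟩ := hcon _ (Complex.exp_ne_zero z)
    refine ⟨div_ne_zero h3 h4, fun h6 => h5 ?_⟩
    exact (div_eq_one_iff_eq h4).1 h6
  have h3 : ∀ x : ℂ, x ≠ 0 → p.eval x = (Polynomial.C (Ls p q 0) * q).eval x := by
    intro x hx
    rw [Polynomial.eval_mul, Polynomial.eval_C, little_picard h1 h2 0 (Complex.log x)]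
    show p.eval x = p.eval (Complex.exp (Complex.log x)) / q.eval (Complex.exp (Complex.log x)) * q.eval x
    rw [Complex.exp_log hx, div_mul_cancel₀ _ ((hcon x hx).2.1)]
  apply hpq (Ls p q 0)
  refine Polynomial.eq_of_infinite_eval_eq _ _ ?_
  have h4 : ({0}ᶜ : Set ℂ).Infinite := (Set.finite_singleton (0 : ℂ)).infinite_compl
  exact h4.mono fun x hx => h3 x hx

/-- the relations for a section `p / q` in lowest terms, with one of the values `0`, `1`, `∞` at `c` -/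
theorem finRelN (hout : Output) {p q : Polynomial ℂ} (hp : p ≠ 0) (hq : q ≠ 0) (hco : IsCoprime p q) (hne : p ≠ q) {c : ℂ} (hc : c ≠ 0)
    (hcv : p.eval c = 0 ∨ q.eval c = 0 ∨ p.eval c = q.eval c) {B₁ : Set ℂ} (hB : B₁.Finite)
    (hroot : ∀ x : ℂ, x ≠ 0 → (p.eval x = 0 ∨ q.eval x = 0 ∨ p.eval x = q.eval x) → x ∈ B₁) :
    ∃ Ψ : Set (MvPolynomial (Fin 2) ℂ), Ψ.Finite ∧ (0 : MvPolynomial (Fin 2) ℂ) ∉ Ψ ∧
      ∀ ρ : ℝ, FinRel (Bp B₁) (Tm (Bp B₁) {Ls p q} ∅ {0, 1} (HP 1 ρ)) ρ Ψ := by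
  have hcB : Complex.log c ∈ Bp B₁ := by
    show Complex.exp (Complex.log c) ∈ B₁
    rw [Complex.exp_log hc]
    exact hroot c hc hcv
  have hpqc : ¬ (p.eval c = 0 ∧ q.eval c = 0) := by
    rintro ⟨h1, h2⟩
    obtain ⟨a, b, hab⟩ := hco
    have h3 := congrArg (Polynomial.eval c) hab
    rw [Polynomial.eval_add, Polynomial.eval_mul, Polynomial.eval_mul, h1, h2, mul_zero, mul_zero, add_zero, Polynomial.eval_one] at h3
    exact zero_ne_one h3
  have hgood : ∀ z, z ∉ Bp B₁ → p.eval (Complex.exp z) ≠ 0 ∧ q.eval (Complex.exp z) ≠ 0 ∧ p.eval (Complex.exp z) ≠ q.eval (Complex.exp z) := by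
    intro z hz
    have h3 : ¬ (p.eval (Complex.exp z) = 0 ∨ q.eval (Complex.exp z) = 0 ∨ p.eval (Complex.exp z) = q.eval (Complex.exp z)) :=
      fun h4 => hz (hroot _ (Complex.exp_ne_zero z) h4)
    push Not at h3
    exact h3
  by_cases h1 : p.eval c = q.eval c
  · -- the value `1`
    have hqc : q.eval c ≠ 0 := fun h2 => hpqc ⟨by rw [h1, h2], h2⟩
    obtain ⟨δ, W, hbase⟩ := baseN hp hq hB hroot
    refine exists_finRel hbase (hout _ _ _ _ _ _ hbase (Or.inl ⟨rfl, Ls p q, rfl, Complex.log c, hcB, ?_, ?_⟩))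
    · refine (an_poly p _).div (an_poly q _) ?_
      show q.eval (Complex.exp (Complex.log c)) ≠ 0
      rw [Complex.exp_log hc]
      exact hqc
    · show p.eval (Complex.exp (Complex.log c)) / q.eval (Complex.exp (Complex.log c)) = 1
      rw [Complex.exp_log hc, h1, div_self hqc]
  by_cases h2 : p.eval c = 0
  · -- the value `0`
    have hqc : q.eval c ≠ 0 := fun h3 => hpqc ⟨h2, h3⟩
    have hroot' : ∀ x : ℂ, x ≠ 0 → ((q - p).eval x = 0 ∨ q.eval x = 0 ∨ (q - p).eval x = q.eval x) → x ∈ B₁ := by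
      intro x hx h3
      apply hroot x hx
      rw [Polynomial.eval_sub] at h3
      rcases h3 with h4 | h4 | h4
      · exact Or.inr (Or.inr (sub_eq_zero.1 h4).symm)
      · exact Or.inr (Or.inl h4)
      · left
        linear_combination -h4
    obtain ⟨δ, W, hbase⟩ := baseN (p := q - p) (q := q) (sub_ne_zero.2 (Ne.symm hne)) hq hB hroot'
    obtain ⟨Ψ, hΨ, hΨ0, hrel⟩ := exists_finRel hbase (hout _ _ _ _ _ _ hbase (Or.inl ⟨rfl, Ls (q - p) q, rfl, Complex.log c, hcB, by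
      refine (an_poly (q - p) _).div (an_poly q _) ?_
      show q.eval (Complex.exp (Complex.log c)) ≠ 0
      rw [Complex.exp_log hc]
      exact hqc, by
      show (q - p).eval (Complex.exp (Complex.log c)) / q.eval (Complex.exp (Complex.log c)) = 1
      rw [Complex.exp_log hc, Polynomial.eval_sub, h2, sub_zero, div_self hqc]⟩))
    choose! F hF0 hF using sub_one
    refine ⟨F '' Ψ, hΨ.image _, ?_, ?_⟩
    · rintro ⟨Φ, hΦ, h3⟩
      refine hF0 Φ (fun h4 => hΨ0 ?_) h3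
      rw [← h4]
      exact hΦ
    · intro ρ f hf
      obtain ⟨Φ, hΦ, h3⟩ := hrel ρ (fun z => 1 - f z) ⟨fun z hz => (MeromorphicAt.const 1 z).sub (hf.1 z hz), fun z hz hzB => by
        obtain ⟨h4, h5, h6, h7⟩ := hf.2.1 z hz hzB
        refine ⟨analyticAt_const.sub h4, fun h8 => h6 (sub_eq_zero.1 h8).symm, fun h8 => h5 ?_, ?_⟩
        · have h8' : 1 - f z = 1 := h8
          linear_combination -h8'
        · intro L hL
          rw [Set.mem_singleton_iff] at hL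
          subst hL
          intro h8
          have h8' : 1 - f z = (q - p).eval (Complex.exp z) / q.eval (Complex.exp z) := h8
          apply h7 _ (Set.mem_singleton _)
          show f z = p.eval (Complex.exp z) / q.eval (Complex.exp z)
          obtain ⟨h9, h10, h11⟩ := hgood z hzB
          rw [Polynomial.eval_sub, sub_div, div_self h10] at h8'
          linear_combination -h8', fun b hb hbC => absurd hbC (Set.notMem_empty b)⟩
      exact ⟨F Φ, ⟨Φ, hΦ, rfl⟩, fun z hz hzB => hF Φ (fun h4 => hΨ0 (by rw [← h4]; exact hΦ)) _ _ (h3 z hz hzB)⟩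
  · -- the value `∞`
    have hqc : q.eval c = 0 := by
      rcases hcv with h3 | h3 | h3
      · exact absurd h3 h2
      · exact h3
      · exact absurd h3 h1
    have hroot' : ∀ x : ℂ, x ≠ 0 → ((p - q).eval x = 0 ∨ p.eval x = 0 ∨ (p - q).eval x = p.eval x) → x ∈ B₁ := by
      intro x hx h3
      apply hroot x hx
      rw [Polynomial.eval_sub] at h3
      rcases h3 with h4 | h4 | h4
      · exact Or.inr (Or.inr (sub_eq_zero.1 h4))
      · exact Or.inl h4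
      · right
        left
        linear_combination -h4
    obtain ⟨δ, W, hbase⟩ := baseN (p := p - q) (q := p) (sub_ne_zero.2 hne) hp hB hroot'
    obtain ⟨Ψ, hΨ, hΨ0, hrel⟩ := exists_finRel hbase (hout _ _ _ _ _ _ hbase (Or.inl ⟨rfl, Ls (p - q) p, rfl, Complex.log c, hcB, by
      refine (an_poly (p - q) _).div (an_poly p _) ?_
      show p.eval (Complex.exp (Complex.log c)) ≠ 0
      rw [Complex.exp_log hc]
      exact h2, by
      show (p - q).eval (Complex.exp (Complex.log c)) / p.eval (Complex.exp (Complex.log c)) = 1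
      rw [Complex.exp_log hc, Polynomial.eval_sub, hqc, sub_zero, div_self h2]⟩))
    choose! F hF0 hF using sub_inv
    refine ⟨F '' Ψ, hΨ.image _, ?_, ?_⟩
    · rintro ⟨Φ, hΦ, h3⟩
      refine hF0 Φ (fun h4 => hΨ0 ?_) h3
      rw [← h4]
      exact hΦ
    · intro ρ f hf
      obtain ⟨Φ, hΦ, h3⟩ := hrel ρ (fun z => 1 - (f z)⁻¹) ⟨fun z hz => (MeromorphicAt.const 1 z).sub (hf.1 z hz).inv, fun z hz hzB => by
        obtain ⟨h4, h5, h6, h7⟩ := hf.2.1 z hz hzB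
        refine ⟨analyticAt_const.sub (h4.inv h5), fun h8 => h6 (inv_eq_one.1 (sub_eq_zero.1 h8).symm), fun h8 => inv_ne_zero h5 ?_, ?_⟩
        · have h8' : 1 - (f z)⁻¹ = 1 := h8
          linear_combination -h8'
        · intro L hL
          rw [Set.mem_singleton_iff] at hL
          subst hL
          intro h8
          have h8' : 1 - (f z)⁻¹ = (p - q).eval (Complex.exp z) / p.eval (Complex.exp z) := h8
          apply h7 _ (Set.mem_singleton _)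
          show f z = p.eval (Complex.exp z) / q.eval (Complex.exp z)
          obtain ⟨h9, h10, h11⟩ := hgood z hzB
          rw [Polynomial.eval_sub, sub_div, div_self h9] at h8'
          have h12 : (f z)⁻¹ = q.eval (Complex.exp z) / p.eval (Complex.exp z) := by linear_combination -h8'
          rw [← inv_inv (f z), h12, inv_div], fun b hb hbC => absurd hbC (Set.notMem_empty b)⟩
      exact ⟨F Φ, ⟨Φ, hΦ, rfl⟩, fun z hz hzB => hF Φ (fun h4 => hΨ0 (by rw [← h4]; exact hΦ)) _ _ (hf.2.1 z hz hzB).2.1 (h3 z hz hzB)⟩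

/-- the relation of the section `p / q` -/
def secRel (p q : Polynomial ℂ) : MvPolynomial (Fin 2) ℂ :=
  Polynomial.aeval (X 0 : MvPolynomial (Fin 2) ℂ) q * X 1 - Polynomial.aeval (X 0 : MvPolynomial (Fin 2) ℂ) p

theorem eval_aeval_X (p : Polynomial ℂ) (x y : ℂ) : eval ![x, y] (Polynomial.aeval (X 0 : MvPolynomial (Fin 2) ℂ) p) = p.eval x := by
  induction p using Polynomial.induction_on' with
  | add p q hp hq => rw [map_add, map_add, hp, hq, Polynomial.eval_add]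
  | monomial n a =>
    rw [Polynomial.aeval_monomial, map_mul, map_pow, eval_X, Polynomial.eval_monomial, MvPolynomial.algebraMap_eq, eval_C]
    rfl

theorem eval_secRel (p q : Polynomial ℂ) (x y : ℂ) : eval ![x, y] (secRel p q) = q.eval x * y - p.eval x := by
  unfold secRel
  rw [map_sub, map_mul, eval_aeval_X, eval_aeval_X, eval_X]
  rfl

theorem secRel_ne {p q : Polynomial ℂ} (hq : q ≠ 0) : secRel p q ≠ 0 := by
  intro h
  apply hq
  apply Polynomial.funext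
  intro x
  have h0 := eval_secRel p q x 0
  have h1 := eval_secRel p q x 1
  rw [h, map_zero] at h0 h1
  rw [Polynomial.eval_zero]
  linear_combination h0 - h1

/-- enumeration -/
theorem exists_enum {α : Type} {Ψ : Set α} (h : Ψ.Finite) : ∃ (k : ℕ) (F : Fin k → α), Set.range F = Ψ := by
  obtain ⟨n, f, -, hf⟩ := h.fin_param
  exact ⟨n, f, hf⟩

/-- the property of the pairs -/
def KN (B₀ : Set ℂ) (p q : Polynomial ℂ) (ψ g : ℂ → ℂ) (z : ℂ) : Prop := OmitsAt B₀ ψ g z ∧ OmitsSecAt B₀ p q ψ g z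

theorem KN_congr {B₀ : Set ℂ} {p q : Polynomial ℂ} (ψ g g' : ℂ → ℂ) (z : ℂ) (he : g =ᶠ[𝓝[≠] z] g') (h : KN B₀ p q ψ g z) : KN B₀ p q ψ g' z := by
  obtain ⟨h1, h2⟩ := h
  refine ⟨fun h3 => ?_, fun h3 w hw => h2 h3 w (hw.congr' he.symm)⟩
  obtain ⟨w, hw0, hw1, hw⟩ := h1 h3
  exact ⟨w, hw0, hw1, hw.congr' he⟩

/-- lowest terms -/
theorem lowest {p q : Polynomial ℂ} (hq : q ≠ 0) : ∃ d p₁ q₁ : Polynomial ℂ, d ≠ 0 ∧ p = d * p₁ ∧ q = d * q₁ ∧ IsCoprime p₁ q₁ := by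
  obtain ⟨d, hd⟩ := (IsPrincipalIdealRing.principal (Ideal.span ({p, q} : Set (Polynomial ℂ)))).principal
  have hp : p ∈ Ideal.span {d} := by
    have h1 : p ∈ Ideal.span ({p, q} : Set (Polynomial ℂ)) := Ideal.subset_span (Or.inl rfl)
    rw [hd] at h1
    exact h1
  have hq' : q ∈ Ideal.span {d} := by
    have h1 : q ∈ Ideal.span ({p, q} : Set (Polynomial ℂ)) := Ideal.subset_span (Or.inr rfl)
    rw [hd] at h1
    exact h1
  obtain ⟨p₁, hp₁⟩ := Ideal.mem_span_singleton.1 hp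
  obtain ⟨q₁, hq₁⟩ := Ideal.mem_span_singleton.1 hq'
  have hd0 : d ≠ 0 := by
    intro h
    rw [h, zero_mul] at hq₁
    exact hq hq₁
  have hdm : d ∈ Ideal.span ({p, q} : Set (Polynomial ℂ)) := by
    rw [hd]
    exact Submodule.mem_span_singleton_self d
  obtain ⟨a, b, hab⟩ := Ideal.mem_span_pair.1 hdm
  refine ⟨d, p₁, q₁, hd0, hp₁, hq₁, a, b, ?_⟩
  have h1 : d * (a * p₁ + b * q₁) = d * 1 := by
    calc d * (a * p₁ + b * q₁) = a * (d * p₁) + b * (d * q₁) := by ring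
      _ = a * p + b * q := by rw [← hp₁, ← hq₁]
      _ = d * 1 := by rw [hab, mul_one]
  exact mul_left_cancel₀ hd0 h1

theorem finite_roots {P : Polynomial ℂ} (hP : P ≠ 0) : {x | P.eval x = 0}.Finite := by
  refine (P.rootSet_finite ℂ).subset fun x hx => ?_
  rw [Polynomial.mem_rootSet]
  refine ⟨hP, ?_⟩
  rw [Polynomial.coe_aeval_eq_eval]
  exact hx

/-- all relations -/
theorem allRelN (hout : Output) {p q : Polynomial ℂ} (hq : q ≠ 0) (hpq : ∀ t : ℂ, p ≠ Polynomial.C t * q) {B₀ : Set ℂ} (hB₀ : B₀.Finite) :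
    ∃ (B₁ : Set ℂ) (Ψ : Set (MvPolynomial (Fin 2) ℂ)), B₁.Finite ∧ B₀ ⊆ B₁ ∧ Ψ.Finite ∧ (0 : MvPolynomial (Fin 2) ℂ) ∉ Ψ ∧
      ∀ (ρ : ℝ) (f : ℂ → ℂ), (∀ ζ ∈ HP 1 ρ, MeromorphicAt f ζ) → (∀ ζ ∈ HP 1 ρ, ζ ∉ Bp B₁ → AnalyticAt ℂ f ζ ∧ f ζ ≠ 0 ∧ f ζ ≠ 1 ∧
        f ζ * q.eval (Complex.exp ζ) ≠ p.eval (Complex.exp ζ)) → ∃ Φ ∈ Ψ, ∀ z ∈ HP 1 ρ, z ∉ Bp B₁ → eval ![Complex.exp z, f z] Φ = 0 := by
  have hp : p ≠ 0 := by
    have h1 := hpq 0
    rwa [Polynomial.C_0, zero_mul] at h1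
  have hne : p ≠ q := by
    have h1 := hpq 1
    rwa [Polynomial.C_1, one_mul] at h1
  obtain ⟨d, p₁, q₁, hd, hpe, hqe, hco⟩ := lowest (p := p) hq
  have hp₁ : p₁ ≠ 0 := by
    intro h
    rw [h, mul_zero] at hpe
    exact hp hpe
  have hq₁ : q₁ ≠ 0 := by
    intro h
    rw [h, mul_zero] at hqe
    exact hq hqe
  have hne₁ : p₁ ≠ q₁ := by
    intro h
    rw [h, ← hqe] at hpe
    exact hne hpe
  have hpq₁ : ∀ t : ℂ, p₁ ≠ Polynomial.C t * q₁ := by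
    intro t h
    apply hpq t
    rw [hpe, hqe, h]
    ring
  obtain ⟨c, hc, hcv⟩ := exists_val hpq₁
  obtain ⟨B₁, hB₁⟩ : ∃ B₁ : Set ℂ, B₁ = B₀ ∪ ({x | p.eval x = 0} ∪ ({x | q.eval x = 0} ∪ {x | (p - q).eval x = 0})) := ⟨_, rfl⟩
  have hB : B₁.Finite := by
    rw [hB₁]
    exact hB₀.union ((finite_roots hp).union ((finite_roots hq).union (finite_roots (sub_ne_zero.2 hne))))
  have hsub : B₀ ⊆ B₁ := by
    rw [hB₁]
    exact Set.subset_union_left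
  have hroot : ∀ x : ℂ, x ≠ 0 → (p₁.eval x = 0 ∨ q₁.eval x = 0 ∨ p₁.eval x = q₁.eval x) → x ∈ B₁ := by
    rw [hB₁]
    rintro x - (h1 | h1 | h1)
    · right
      left
      show p.eval x = 0
      rw [hpe, Polynomial.eval_mul, h1, mul_zero]
    · right
      right
      left
      show q.eval x = 0
      rw [hqe, Polynomial.eval_mul, h1, mul_zero]
    · right
      right
      right
      show (p - q).eval x = 0
      rw [hpe, hqe, Polynomial.eval_sub, Polynomial.eval_mul, Polynomial.eval_mul, h1, sub_self]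
  obtain ⟨Ψ, hΨ, hΨ0, hrel⟩ := finRelN hout hp₁ hq₁ hco hne₁ hc hcv hB hroot
  refine ⟨B₁, Ψ, hB, hsub, hΨ, hΨ0, fun ρ f hf1 hf2 => hrel ρ f ⟨hf1, fun ζ hζ hζB => ?_, fun b _ hbC => absurd hbC (Set.notMem_empty b)⟩⟩
  obtain ⟨h1, h2, h3, h4⟩ := hf2 ζ hζ hζB
  refine ⟨h1, h2, h3, fun L hL => ?_⟩
  rw [Set.mem_singleton_iff] at hL
  subst hL
  intro h5
  apply h4
  have h5' : f ζ = p₁.eval (Complex.exp ζ) / q₁.eval (Complex.exp ζ) := h5
  have hq₁0 : q₁.eval (Complex.exp ζ) ≠ 0 := fun h4 => hζB (hroot _ (Complex.exp_ne_zero ζ) (Or.inr (Or.inl h4)))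
  rw [h5', hpe, hqe, Polynomial.eval_mul, Polynomial.eval_mul]
  field_simp

/-- the difference to the section -/
def Tf (p q : Polynomial ℂ) (ψ g : ℂ → ℂ) (z : ℂ) : ℂ := g z * q.eval (Complex.exp (ψ z)) - p.eval (Complex.exp (ψ z))

theorem Tf_jc {p q : Polynomial ℂ} {𝒰 : Ultrafilter ℕ} {ψ g : ℕ → ℂ → ℂ} {φ G : ℂ → ℂ} {x : ℂ} (h1 : Jc 𝒰 (fun n z => Complex.exp (ψ n z)) (fun z => Complex.exp (φ z)) x)
    (hG : Jc 𝒰 g G x) : Jc 𝒰 (fun n => Tf p q (ψ n) (g n)) (Tf p q φ G) x := by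
  have h2 : Jc 𝒰 (fun n z => q.eval (Complex.exp (ψ n z))) (fun z => q.eval (Complex.exp (φ z))) x := (q.continuous.tendsto _).comp h1
  have h3 : Jc 𝒰 (fun n z => p.eval (Complex.exp (ψ n z))) (fun z => p.eval (Complex.exp (φ z))) x := (p.continuous.tendsto _).comp h1
  exact (Tendsto.mul hG h2).sub h3

theorem Tf_diff {p q : Polynomial ℂ} {ψ g : ℂ → ℂ} {U : Set ℂ} (hψ : DifferentiableOn ℂ ψ U) (hg : DifferentiableOn ℂ g U) : DifferentiableOn ℂ (Tf p q ψ g) U := by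
  refine (hg.mul ?_).sub ?_
  · exact q.differentiable.comp_differentiableOn hψ.cexp
  · exact p.differentiable.comp_differentiableOn hψ.cexp

theorem Tf_evD {B₀ B₁ : Set ℂ} (hB : B₁.Finite) (hsub : B₀ ⊆ B₁) {p q : Polynomial ℂ} {𝒰 : Ultrafilter ℕ} {φ g₀ : ℂ → ℂ} {z₀ : ℂ} {r : ℝ} {ψ g : ℕ → ℂ → ℂ}
    (hL : LimS 𝒰 (KN B₀ p q) φ g₀ z₀ r ψ g) (hφ : Continuous φ) : EvD 𝒰 (fun n => Tf p q (ψ n) (g n)) (Og φ B₁) := by
  intro z hz
  obtain ⟨s, hs, h1⟩ := hL.evO hB (fun ψ g z h1 h2 => h1.1 fun h3 => h2 (hsub h3)) hφ z hz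
  have h2 : ∀ᶠ y : ℕ × ℂ in (𝒰 : Filter ℕ) ×ˢ 𝓝 z, Complex.exp (ψ y.1 y.2) ∉ B₁ :=
    (hL.jc_exp hφ z).eventually (hB.isClosed.isOpen_compl.mem_nhds hz)
  obtain ⟨t, ht, h3⟩ := exists_ball (𝒰 := 𝒰) (P := fun n y => Complex.exp (ψ n y) ∉ B₁) (x := z) h2
  have hu0 : 0 < min (min s t) 1 := lt_min (lt_min hs ht) one_pos
  have hus : ball z (min (min s t) 1) ⊆ ball z s := ball_subset_ball ((min_le_left _ _).trans (min_le_left _ _))
  have hut : ball z (min (min s t) 1) ⊆ ball z t := ball_subset_ball ((min_le_left _ _).trans (min_le_right _ _))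
  have huR : ball z (min (min s t) 1) ⊆ ball (0 : ℂ) (‖z‖ + 1) := by
    refine ball_subset_ball' ?_
    rw [dist_zero_right]
    have := min_le_right (min s t) 1
    linarith
  refine ⟨min (min s t) 1, hu0, ?_⟩
  filter_upwards [h1, h3, hL.diff (‖z‖ + 1), hL.prop (‖z‖ + 1)] with n hn1 hn2 hn3 hn5
  refine ⟨Tf_diff (hn3.mono huR) (hn1.1.mono hus), fun w hw h4 => ?_⟩
  have h5 := (hn5 w (huR hw)).2 (fun h6 => hn2 w (hut hw) (hsub h6)) (g n w) (by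
    have h6 := (hn1.1.differentiableAt (isOpen_ball.mem_nhds (hus hw))).continuousAt
    exact h6.tendsto.mono_left nhdsWithin_le_nhds)
  exact h5 (sub_eq_zero.1 h4)

theorem X1_ne : (X 1 : MvPolynomial (Fin 2) ℂ) ≠ 0 := by
  intro h
  have h1 := congrArg (eval ![(0 : ℂ), 1]) h
  rw [eval_X, map_zero] at h1
  exact one_ne_zero h1

theorem X1_sub_ne : (X 1 - 1 : MvPolynomial (Fin 2) ℂ) ≠ 0 := by
  intro h
  have h1 := congrArg (eval ![(0 : ℂ), 0]) h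
  rw [map_sub, eval_X, map_one, map_zero] at h1
  have h2 : (0 : ℂ) - 1 = 0 := h1
  norm_num at h2

/-- the limits are algebraic -/
theorem limN {B₀ B₁ : Set ℂ} (hB : B₁.Finite) (hsub : B₀ ⊆ B₁) {p q : Polynomial ℂ} {Ψ : Set (MvPolynomial (Fin 2) ℂ)}
    (hrel : ∀ (ρ : ℝ) (f : ℂ → ℂ), (∀ ζ ∈ HP 1 ρ, MeromorphicAt f ζ) → (∀ ζ ∈ HP 1 ρ, ζ ∉ Bp B₁ → AnalyticAt ℂ f ζ ∧ f ζ ≠ 0 ∧ f ζ ≠ 1 ∧
        f ζ * q.eval (Complex.exp ζ) ≠ p.eval (Complex.exp ζ)) → ∃ Φ ∈ Ψ, ∀ z ∈ HP 1 ρ, z ∉ Bp B₁ → eval ![Complex.exp z, f z] Φ = 0)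
    {φ g₀ : ℂ → ℂ} {z₀ : ℂ} {r : ℝ} (hr : 0 < r) (hg₀ : DifferentiableOn ℂ g₀ (ball z₀ r)) (happ : Approx (KN B₀ p q) φ g₀ z₀ r)
    {a b c : ℂ} (hab : a ≠ 0 ∨ b ≠ 0) (hφ : ∀ z, φ z = a * z ^ 2 + b * z + c) :
    (∀ z ∈ ball z₀ r, eval ![Complex.exp (φ z), g₀ z] (X 1) = 0) ∨ (∀ z ∈ ball z₀ r, eval ![Complex.exp (φ z), g₀ z] (X 1 - 1) = 0) ∨
      (∀ z ∈ ball z₀ r, eval ![Complex.exp (φ z), g₀ z] (secRel p q) = 0) ∨ ∃ Φ ∈ Ψ, ∀ z ∈ ball z₀ r, eval ![Complex.exp (φ z), g₀ z] Φ = 0 := by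
  have hφe : φ = fun z => a * z ^ 2 + b * z + c := funext hφ
  have hφd : Differentiable ℂ φ := by
    rw [hφe]
    fun_prop
  have hcount := countable_Og (c := c) hab hφ hB
  have hpre : IsPreconnected (Og φ B₁) := by
    have h1 := preconn_of_countable hcount
    rwa [compl_compl] at h1
  have hden : Dense (Og φ B₁) := by
    have h1 := dense_of_countable hcount
    rwa [compl_compl] at h1
  obtain ⟨ψ, g, hL⟩ := exists_limS KN_congr happ
  obtain ⟨G, hG, hGJ, hGg, hcase⟩ := hL.exists_G schottky hB (fun ψ g z h1 h2 => h1.1 fun h3 => h2 (hsub h3)) hφd.continuous hr hg₀ hpre hden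
  have hΩ : IsOpen (Og φ B₁) := isOpen_Og hφd.continuous hB
  have fin : ∀ Φ : MvPolynomial (Fin 2) ℂ, (∀ z ∈ Og φ B₁, eval ![Complex.exp (φ z), G z] Φ = 0) → ∀ z ∈ ball z₀ r, eval ![Complex.exp (φ z), g₀ z] Φ = 0 := by
    intro Φ h1
    refine rel_ball hφd.continuous hg₀ hden Φ fun z hz hzO => ?_
    rw [← hGg z hz hzO]
    exact h1 z hzO
  rcases hcase with hOm | h0 | h1
  · rcases hurJ hΩ hpre (Tf_diff (p := p) (q := q) hφd.differentiableOn hG) (fun x hx => Tf_jc (hL.jc_exp hφd.continuous x) (hGJ x hx))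
      (Tf_evD hB hsub hL hφd.continuous) with h1 | h1
    · right
      right
      left
      refine fin (secRel p q) fun z hz => ?_
      rw [eval_secRel]
      have h2 : G z * q.eval (Complex.exp (φ z)) - p.eval (Complex.exp (φ z)) = 0 := h1 z hz
      linear_combination h2
    · obtain ⟨ρ, χ, hχ, hinv⟩ := exists_branch (c := c) hab
      have hinv' : ∀ ζ ∈ HP 1 ρ, φ (χ ζ) = ζ := fun ζ hζ => by rw [hφ]; exact hinv ζ hζ
      obtain ⟨hm1, hm2⟩ := branch_mem hφd.continuous hB hG hOm hχ hinv'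
      obtain ⟨Φ, hΦ, h2⟩ := hrel ρ (fun ζ => G (χ ζ)) hm1 (fun ζ hζ hζB => ⟨(hm2 ζ hζ hζB).1, (hm2 ζ hζ hζB).2.1, (hm2 ζ hζ hζB).2.2, by
        intro h3
        have hχO : χ ζ ∈ Og φ B₁ := by
          show Complex.exp (φ (χ ζ)) ∉ B₁
          rw [hinv' ζ hζ]
          exact hζB
        apply h1 (χ ζ) hχO
        show G (χ ζ) * q.eval (Complex.exp (φ (χ ζ))) - p.eval (Complex.exp (φ (χ ζ))) = 0
        rw [hinv' ζ hζ]
        exact sub_eq_zero.2 h3⟩)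
      obtain ⟨ζ₀, hζ₀, hζ₀B⟩ := exists_good hB ρ
      right
      right
      right
      exact ⟨Φ, hΦ, fin Φ (transfer hφd hB hG hpre hχ hinv' Φ hζ₀ hζ₀B h2)⟩
  · left
    refine fin (X 1) fun z hz => ?_
    rw [eval_X]
    exact h0 z hz
  · right
    left
    refine fin (X 1 - 1) fun z hz => ?_
    rw [map_sub, eval_X, map_one]
    show G z - 1 = 0
    rw [h1 z hz, sub_self]

/-- **Case (N).** -/
theorem mainN_of (hout : Output) : MainN := by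
  intro B₀ p q hB₀ hq hpq
  obtain ⟨B₁, Ψ, hB, hsub, hΨ, hΨ0, hrel⟩ := allRelN hout hq hpq hB₀
  obtain ⟨k, F, hF⟩ := exists_enum hΨ
  refine ⟨k + 3, Fin.append F ![X 1, X 1 - 1, secRel p q], ?_, ?_⟩
  · intro i
    refine Fin.addCases (fun j => ?_) (fun j => ?_) i
    · rw [Fin.append_left]
      intro h
      apply hΨ0
      rw [← h, ← hF]
      exact Set.mem_range_self j
    · rw [Fin.append_right]
      fin_cases j
      · exact X1_ne
      · exact X1_sub_ne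
      · exact secRel_ne hq
  · intro φ g₀ z₀ r hr hg₀ happ
    constructor
    · intro a b c hab hφ
      rcases limN hB hsub hrel hr hg₀ happ hab hφ with h | h | h | ⟨Φ, hΦ, h⟩
      · refine ⟨Fin.natAdd k 0, ?_⟩
        rw [Fin.append_right]
        exact h
      · refine ⟨Fin.natAdd k 1, ?_⟩
        rw [Fin.append_right]
        exact h
      · refine ⟨Fin.natAdd k 2, ?_⟩
        rw [Fin.append_right]
        exact h
      · rw [← hF] at hΦ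
        obtain ⟨i, rfl⟩ := hΦ
        refine ⟨Fin.castAdd 3 i, ?_⟩
        rw [Fin.append_left]
        exact h
    · intro c hc hφ
      exact const_case hB₀ (K := KN B₀ p q) KN_congr (fun ψ g z h => h.1) hr hg₀ happ hc hφ

end Pool.Agent.H41.LR

end
end

section

/-!
# LR MainI: case (I)
-/

set_option autoImplicit false

open Topology Filter Metric MvPolynomial

noncomputable section

namespace Pool.Agent.H41.LR

attribute [-instance] ProperSMul.toContinuousSMul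

open Pool.Agent.H62.LR (BaseD Tm)
open Pool.Agent.H87.LU (HP)
open Pool.Agent.H46.LR (OmitsAt OmitsSecAt FinAt Approx Algebraic MainN MainI)

/-- all relations -/
theorem allRelI (hout : Output) {c : ℂ} (hc : c ≠ 0) (S : Finset (ℂ × ℂ)) {B₀ : Set ℂ} (hB₀ : B₀.Finite) :
    ∃ (B₁ : Set ℂ) (Ψ : Set (MvPolynomial (Fin 2) ℂ)), B₁.Finite ∧ B₀ ⊆ B₁ ∧ c ∈ B₁ ∧ Ψ.Finite ∧ (0 : MvPolynomial (Fin 2) ℂ) ∉ Ψ ∧
      ∀ (ρ : ℝ) (f : ℂ → ℂ), (∀ ζ ∈ HP 1 ρ, MeromorphicAt f ζ) → (∀ ζ ∈ HP 1 ρ, ζ ∉ Bp B₁ → AnalyticAt ℂ f ζ ∧ f ζ ≠ 0 ∧ f ζ ≠ 1) →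
        (∀ ζ ∈ HP 1 ρ, Complex.exp ζ = c → ∀ a, Tendsto f (𝓝[≠] ζ) (𝓝 a) → ∃ s ∈ S, s.2 ≠ 0 ∧ a = s.1 / s.2) →
        ∃ Φ ∈ Ψ, ∀ z ∈ HP 1 ρ, z ∉ Bp B₁ → eval ![Complex.exp z, f z] Φ = 0 := by
  obtain ⟨A, hA⟩ : ∃ A : Set ℂ, A = {0, 1} ∪ (fun s : ℂ × ℂ => s.1 / s.2) '' (S : Set (ℂ × ℂ)) := ⟨_, rfl⟩
  have hAf : A.Finite := by
    rw [hA]
    exact ((Set.finite_singleton _).insert _).union (S.finite_toSet.image _)
  have hA0 : (0 : ℂ) ∈ A := by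
    rw [hA]
    exact Or.inl (Or.inl rfl)
  have hA1 : (1 : ℂ) ∈ A := by
    rw [hA]
    exact Or.inl (Or.inr rfl)
  have hB : (B₀ ∪ {c}).Finite := hB₀.union (Set.finite_singleton c)
  have hcB : c ∈ B₀ ∪ {c} := Or.inr rfl
  obtain ⟨δ, W, hbase⟩ := baseI hB hcB hAf hA0 hA1
  have hne : (Bp {c}).Nonempty := ⟨Complex.log c, by
    show Complex.exp (Complex.log c) ∈ ({c} : Set ℂ)
    rw [Complex.exp_log hc]
    exact rfl⟩
  obtain ⟨Ψ, hΨ, hΨ0, hrel⟩ := exists_finRel hbase (hout _ _ _ _ _ _ hbase (Or.inr ⟨rfl, hne⟩))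
  refine ⟨B₀ ∪ {c}, Ψ, hB, Set.subset_union_left, hcB, hΨ, hΨ0, fun ρ f hf1 hf2 hf3 => hrel ρ f ⟨hf1, fun ζ hζ hζB => ?_, fun b hb hbC a ha => ?_⟩⟩
  · obtain ⟨h1, h2, h3⟩ := hf2 ζ hζ hζB
    exact ⟨h1, h2, h3, fun L hL => absurd hL (Set.notMem_empty L)⟩
  · obtain ⟨s, hs, -, h1⟩ := hf3 b hb hbC a ha
    rw [hA]
    exact Or.inr ⟨s, hs, h1.symm⟩

/-- the limits are algebraic -/
theorem limI {B₀ B₁ : Set ℂ} (hB : B₁.Finite) (hsub : B₀ ⊆ B₁) {c₁ : ℂ} (hcB : c₁ ∈ B₁) {S : Finset (ℂ × ℂ)} {Ψ : Set (MvPolynomial (Fin 2) ℂ)}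
    (hrel : ∀ (ρ : ℝ) (f : ℂ → ℂ), (∀ ζ ∈ HP 1 ρ, MeromorphicAt f ζ) → (∀ ζ ∈ HP 1 ρ, ζ ∉ Bp B₁ → AnalyticAt ℂ f ζ ∧ f ζ ≠ 0 ∧ f ζ ≠ 1) →
        (∀ ζ ∈ HP 1 ρ, Complex.exp ζ = c₁ → ∀ a, Tendsto f (𝓝[≠] ζ) (𝓝 a) → ∃ s ∈ S, s.2 ≠ 0 ∧ a = s.1 / s.2) →
        ∃ Φ ∈ Ψ, ∀ z ∈ HP 1 ρ, z ∉ Bp B₁ → eval ![Complex.exp z, f z] Φ = 0)
    {φ g₀ : ℂ → ℂ} {z₀ : ℂ} {r : ℝ} (hr : 0 < r) (hg₀ : DifferentiableOn ℂ g₀ (ball z₀ r)) (happ : Approx (KI B₀ c₁ S) φ g₀ z₀ r)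
    {a b c : ℂ} (hab : a ≠ 0 ∨ b ≠ 0) (hφ : ∀ z, φ z = a * z ^ 2 + b * z + c) :
    (∀ z ∈ ball z₀ r, eval ![Complex.exp (φ z), g₀ z] (X 1) = 0) ∨ (∀ z ∈ ball z₀ r, eval ![Complex.exp (φ z), g₀ z] (X 1 - 1) = 0) ∨
      ∃ Φ ∈ Ψ, ∀ z ∈ ball z₀ r, eval ![Complex.exp (φ z), g₀ z] Φ = 0 := by
  have hφe : φ = fun z => a * z ^ 2 + b * z + c := funext hφ
  have hφd : Differentiable ℂ φ := by
    rw [hφe]
    fun_prop
  have hcount := countable_Og (c := c) hab hφ hB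
  have hpre : IsPreconnected (Og φ B₁) := by
    have h1 := preconn_of_countable hcount
    rwa [compl_compl] at h1
  have hden : Dense (Og φ B₁) := by
    have h1 := dense_of_countable hcount
    rwa [compl_compl] at h1
  obtain ⟨ψ, g, hL⟩ := exists_limS KI_congr happ
  obtain ⟨G, hG, hGJ, hGg, hcase⟩ := hL.exists_G schottky hB (fun ψ g z h1 h2 => h1.1 fun h3 => h2 (hsub h3)) hφd.continuous hr hg₀ hpre hden
  have fin : ∀ Φ : MvPolynomial (Fin 2) ℂ, (∀ z ∈ Og φ B₁, eval ![Complex.exp (φ z), G z] Φ = 0) → ∀ z ∈ ball z₀ r, eval ![Complex.exp (φ z), g₀ z] Φ = 0 := by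
    intro Φ h1
    refine rel_ball hφd.continuous hg₀ hden Φ fun z hz hzO => ?_
    rw [← hGg z hz hzO]
    exact h1 z hzO
  rcases hcase with hOm | h0 | h1
  · obtain ⟨ρ, χ, hχ, hinv⟩ := exists_branch (c := c) hab
    have hinv' : ∀ ζ ∈ HP 1 ρ, φ (χ ζ) = ζ := fun ζ hζ => by rw [hφ]; exact hinv ζ hζ
    obtain ⟨hm1, hm2⟩ := branch_mem hφd.continuous hB hG hOm hχ hinv'
    obtain ⟨Φ, hΦ, h2⟩ := hrel ρ (fun ζ => G (χ ζ)) hm1 hm2 (by
      intro ζ hζ hζc a' ha'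
      have hχc : ContinuousAt χ ζ := (hχ.differentiableAt ((isOpen_HP1 ρ).mem_nhds hζ)).continuousAt
      have hχt : Tendsto χ (𝓝[≠] ζ) (𝓝[≠] (χ ζ)) := by
        refine tendsto_nhdsWithin_iff.2 ⟨hχc.tendsto.mono_left nhdsWithin_le_nhds, ?_⟩
        filter_upwards [self_mem_nhdsWithin, nhdsWithin_le_nhds ((isOpen_HP1 ρ).mem_nhds hζ)] with w h3 h4 h5
        apply h3
        have h6 : χ w = χ ζ := h5
        show w = ζ
        rw [← hinv' w h4, h6, hinv' ζ hζ]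
      have hder : deriv φ (χ ζ) ≠ 0 := by
        intro h3
        have h4 : HasDerivAt (fun w => φ (χ w)) (deriv φ (χ ζ) * deriv χ ζ) ζ :=
          ((hφd (χ ζ)).hasDerivAt).comp ζ ((hχ.differentiableAt ((isOpen_HP1 ρ).mem_nhds hζ)).hasDerivAt)
        have h5 : HasDerivAt (fun w => φ (χ w)) 1 ζ := by
          refine (hasDerivAt_id ζ).congr_of_eventuallyEq ?_
          filter_upwards [(isOpen_HP1 ρ).mem_nhds hζ] with w hw
          exact hinv' w hw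
        have h6 := h4.unique h5
        rw [h3, zero_mul] at h6
        exact zero_ne_one h6
      rcases val_I hB hsub hcB hL hφd hG hOm hGJ (z' := χ ζ) (by rw [hinv' ζ hζ]; exact hζc) hder with ⟨s, hs, hs2, h3⟩ | h3
      · exact ⟨s, hs, hs2, tendsto_nhds_unique ha' (h3.comp hχt)⟩
      · exfalso
        have h4 : Tendsto (fun w => (G (χ w))⁻¹) (𝓝[≠] ζ) (𝓝 0) := h3.comp hχt
        have h5 : Tendsto (fun w => G (χ w) * (G (χ w))⁻¹) (𝓝[≠] ζ) (𝓝 (a' * 0)) := ha'.mul h4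
        rw [mul_zero] at h5
        have h6 : ∀ᶠ w in 𝓝[≠] ζ, G (χ w) * (G (χ w))⁻¹ = 1 := by
          have h7 : ∀ᶠ w in 𝓝[≠] ζ, w ∉ Bp B₁ := by
            obtain ⟨δ, hδ, -, hsep⟩ := exists_sep hB
            have hζB : Complex.exp ζ ∈ B₁ := by
              rw [hζc]
              exact hcB
            filter_upwards [self_mem_nhdsWithin, nhdsWithin_le_nhds (ball_mem_nhds ζ hδ)] with w h8 h9 h10
            have h11 := hsep w ζ h10 hζB h8
            rw [mem_ball_iff_norm] at h9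
            linarith
          filter_upwards [h7, nhdsWithin_le_nhds ((isOpen_HP1 ρ).mem_nhds hζ)] with w h8 h9
          exact mul_inv_cancel₀ (hm2 w h9 h8).2.1
        exact zero_ne_one (tendsto_nhds_unique h5 (tendsto_const_nhds.congr' (h6.mono fun w hw => hw.symm))))
    obtain ⟨ζ₀, hζ₀, hζ₀B⟩ := exists_good hB ρ
    right
    right
    exact ⟨Φ, hΦ, fin Φ (transfer hφd hB hG hpre hχ hinv' Φ hζ₀ hζ₀B h2)⟩
  · left
    refine fin (X 1) fun z hz => ?_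
    rw [eval_X]
    exact h0 z hz
  · right
    left
    refine fin (X 1 - 1) fun z hz => ?_
    rw [map_sub, eval_X, map_one]
    show G z - 1 = 0
    rw [h1 z hz, sub_self]

/-- **Case (I).** -/
theorem mainI_of (hout : Output) : MainI := by
  intro B₀ c₁ S hB₀ hc₁ _
  obtain ⟨B₁, Ψ, hB, hsub, hcB, hΨ, hΨ0, hrel⟩ := allRelI hout hc₁ S hB₀
  obtain ⟨k, F, hF⟩ := exists_enum hΨ
  refine ⟨k + 2, Fin.append F ![X 1, X 1 - 1], ?_, ?_⟩
  · intro i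
    refine Fin.addCases (fun j => ?_) (fun j => ?_) i
    · rw [Fin.append_left]
      intro h
      apply hΨ0
      rw [← h, ← hF]
      exact Set.mem_range_self j
    · rw [Fin.append_right]
      fin_cases j
      · exact X1_ne
      · exact X1_sub_ne
  · intro φ g₀ z₀ r hr hg₀ happ
    constructor
    · intro a b c hab hφ
      rcases limI hB hsub hcB hrel hr hg₀ happ hab hφ with h | h | ⟨Φ, hΦ, h⟩
      · refine ⟨Fin.natAdd k 0, ?_⟩
        rw [Fin.append_right]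
        exact h
      · refine ⟨Fin.natAdd k 1, ?_⟩
        rw [Fin.append_right]
        exact h
      · rw [← hF] at hΦ
        obtain ⟨i, rfl⟩ := hΦ
        refine ⟨Fin.castAdd 2 i, ?_⟩
        rw [Fin.append_left]
        exact h
    · intro c hc hφ
      exact const_case hB₀ (K := KI B₀ c₁ S) KI_congr (fun ψ g z h => h.1) hr hg₀ happ hc hφ

end Pool.Agent.H41.LR

end
end
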