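import Pool.Agent.H94.CB.H62.LR.LogFn
import Pool.Agent.H94.CB.M213

/-! The parts of this file: H36.LR.LHN, H62.LR.LAI, H87.LR.LHI. -/

section

/-!
# LR LHN: case (N), two members away from the sections and close to each other agree

* `exp_small`: `exp w = 1`, `|w| < 6` implies `w = 0`.
* `strip_bdd`: the section `L` is bounded in the strip off the discs.
* `lh_N`: `(Q₁ - 1) (Q₂ - 1) = (1 - L) (Q₃ - 1) (Q₄ - 1)`, so one of the logarithms of `Q₁`, `Q₂` vanishes at every point `b₀ + i p l`.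
-/

set_option autoImplicit false

open Topology Filter Metric

noncomputable section

namespace Pool.Agent.H62.LR

attribute [-instance] ProperSMul.toContinuousSMul

open Pool.Agent.H87.LU (Gd HP isOpen_HP HP_anti gd_notMem isClosed_gd)

variable {p : ℝ} {B : Set ℂ} {δ W : ℝ} {𝓛 : Set (ℂ → ℂ)} {C A : Set ℂ}

theorem exp_small {w : ℂ} (h : Complex.exp w = 1) (hw : ‖w‖ < 6) : w = 0 := by
  obtain ⟨n, hn⟩ := Complex.exp_eq_one_iff.1 h
  by_cases h0 : n = 0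
  · rw [hn, h0]
    simp
  · exfalso
    have h1 : ‖w‖ = |(n : ℝ)| * (2 * Real.pi) := by
      rw [hn, norm_mul, norm_mul, norm_mul, Complex.norm_I, Complex.norm_real, Real.norm_of_nonneg Real.pi_pos.le, mul_one, Complex.norm_intCast]
      norm_num
    have h2 : (1 : ℝ) ≤ |(n : ℝ)| := by exact_mod_cast Int.one_le_abs h0
    have h3 := Real.pi_gt_three
    nlinarith

/-- translation by the periods -/
theorem BaseD.gd_add' (h : BaseD p B δ W 𝓛 C A) {z : ℂ} (hz : z ∈ Gd B δ) (l : ℤ) : z + p * l * Complex.I ∈ Gd B δ := by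
  intro b hb
  have h1 := hz _ (h.B_inv b hb (-l))
  have e : z - (b + p * ((-l : ℤ) : ℂ) * Complex.I) = z + p * l * Complex.I - b := by
    push_cast
    ring
  rwa [e] at h1

theorem BaseD.L_int (h : BaseD p B δ W 𝓛 C A) {L : ℂ → ℂ} (hL : L ∈ 𝓛) (z : ℂ) (l : ℤ) : L (z + p * l * Complex.I) = L z := by
  have h1 : Function.Periodic L (p * Complex.I) := h.L_per L hL
  have h2 := h1.int_mul l z
  have e : (l : ℂ) * (p * Complex.I) = p * l * Complex.I := by ring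
  rwa [e] at h2

/-- the section `L` is bounded in the strip off the discs -/
theorem strip_bdd (h : BaseD p B δ W 𝓛 C A) {L : ℂ → ℂ} (hL : L ∈ 𝓛) : ∃ K : ℝ, 0 ≤ K ∧ ∀ z ∈ Gd B δ, |z.re| ≤ W → ‖L z‖ ≤ K := by
  have hp := h.p_pos
  have hδ := h.δ_pos
  set S : Set ℂ := Gd B δ ∩ {z : ℂ | |z.re| ≤ W ∧ 0 ≤ z.im ∧ z.im ≤ p} with hS
  have hSc : IsCompact S := by
    refine Metric.isCompact_of_isClosed_isBounded ?_ ?_
    · refine (isClosed_gd δ).inter ?_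
      refine IsClosed.inter (isClosed_le (continuous_abs.comp Complex.continuous_re) continuous_const) ?_
      exact (isClosed_le continuous_const Complex.continuous_im).inter (isClosed_le Complex.continuous_im continuous_const)
    · refine (isBounded_iff_forall_norm_le).2 ⟨W + p, fun z hz => ?_⟩
      refine (Complex.norm_le_abs_re_add_abs_im z).trans (add_le_add hz.2.1 ?_)
      rw [abs_of_nonneg hz.2.2.1]
      exact hz.2.2.2
  have hcont : ContinuousOn L S := fun z hz => (h.L_an L hL z (gd_notMem hδ hz.1)).1.continuousAt.continuousWithinAt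
  obtain ⟨K, hK⟩ := hSc.exists_bound_of_continuousOn hcont
  refine ⟨max K 0, le_max_right _ _, fun z hz hzW => ?_⟩
  set l : ℤ := -⌊z.im / p⌋ with hl
  have him : (z + p * l * Complex.I).im = z.im + p * l := by simp
  have hre : (z + p * l * Complex.I).re = z.re := by simp
  have hl' : (l : ℝ) = -(⌊z.im / p⌋ : ℝ) := by
    rw [hl]
    push_cast
    ring
  have h1 : z + p * l * Complex.I ∈ S := by
    refine ⟨h.gd_add' hz l, ?_, ?_, ?_⟩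
    · rw [hre]
      exact hzW
    · rw [him, hl']
      have h2 := Int.floor_le (z.im / p)
      rw [le_div_iff₀ hp] at h2
      linarith
    · rw [him, hl']
      have h2 := (Int.lt_floor_add_one (z.im / p)).le
      rw [div_le_iff₀ hp] at h2
      linarith
  have h2 := hK _ h1
  rw [h.L_int hL] at h2
  exact h2.trans (le_max_left _ _)

/-- the bad points with `L = 1` -/
theorem L_one (h : BaseD p B δ W 𝓛 C A) {L : ℂ → ℂ} (hL : L ∈ 𝓛) {b₀ : ℂ} (hLa : AnalyticAt ℂ L b₀) (hL1 : L b₀ = 1) (l : ℤ) :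
    Tendsto (fun z => 1 - L z) (𝓝 (b₀ + p * l * Complex.I)) (𝓝 0) := by
  have h1 : L = fun z => L (z - p * l * Complex.I) := by
    funext z
    have h2 := h.L_int hL (z - p * l * Complex.I) l
    rw [sub_add_cancel] at h2
    exact h2
  have h3 : ContinuousAt L (b₀ + p * l * Complex.I) := by
    rw [h1]
    have h4 : ContinuousAt L ((fun z : ℂ => z - p * l * Complex.I) (b₀ + p * l * Complex.I)) := by
      show ContinuousAt L (b₀ + p * l * Complex.I - p * l * Complex.I)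
      rw [add_sub_cancel_right]
      exact hLa.continuousAt
    exact ContinuousAt.comp (f := fun z : ℂ => z - p * l * Complex.I) h4 (by fun_prop)
  have h5 : Tendsto (fun z => 1 - L z) (𝓝 (b₀ + p * l * Complex.I)) (𝓝 (1 - L (b₀ + p * l * Complex.I))) := tendsto_const_nhds.sub h3
  rwa [h.L_int hL, hL1, sub_self] at h5

theorem inv_omit {w : ℂ} (h0 : w ≠ 0) (h1 : w ≠ 1) : w⁻¹ ≠ 0 ∧ w⁻¹ ≠ 1 := ⟨inv_ne_zero h0, fun h => h1 (inv_eq_one.1 h)⟩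

theorem one_sub_omit {w : ℂ} (h0 : w ≠ 0) (h1 : w ≠ 1) : 1 - w ≠ 0 ∧ 1 - w ≠ 1 := by
  refine ⟨fun h => h1 (sub_eq_zero.1 h).symm, fun h => h0 ?_⟩
  have h2 : (1 : ℂ) - w = 1 - 0 := by rw [h, sub_zero]
  exact sub_right_injective h2

/-- Case (N): two members away from the sections and close to each other agree. -/
theorem lh_N (h : BaseD p B δ W 𝓛 ∅ A) {L : ℂ → ℂ} (hL : L ∈ 𝓛) {b₀ : ℂ} (hb₀ : b₀ ∈ B) (hLa : AnalyticAt ℂ L b₀) (hL1 : L b₀ = 1) {c : ℝ} (hc : 0 < c) :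
    ∃ ε : ℝ, 0 < ε ∧ ∀ σ ρ : ℝ, (σ = 1 ∨ σ = -1) → ∀ f ∈ Tm B 𝓛 ∅ A (HP σ ρ), ∀ g ∈ Tm B 𝓛 ∅ A (HP σ ρ),
      (∀ z ∈ HP σ ρ, z ∈ Gd B δ → |z.re| ≤ W → c ≤ ‖f z‖ ∧ ‖f z‖ ≤ 1 / c ∧ c ≤ ‖f z - 1‖ ∧ c ≤ ‖f z - L z‖ ∧
        c ≤ ‖g z‖ ∧ ‖g z‖ ≤ 1 / c ∧ c ≤ ‖g z - 1‖ ∧ c ≤ ‖g z - L z‖ ∧ ‖f z - g z‖ ≤ ε) →
      ∃ ρ' : ℝ, ρ ≤ ρ' ∧ ∀ z ∈ HP σ ρ', z ∉ B → f z = g z := by
  have hδ := h.δ_pos
  have hp := h.p_pos
  obtain ⟨K, hK0, hK⟩ := strip_bdd h hL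
  set ε : ℝ := min (c / 2) (c ^ 2 / (2 * (K + 1))) with hε
  have hε0 : 0 < ε := by
    rw [hε]
    exact lt_min (by positivity) (by positivity)
  have hε1 : ε ≤ c / 2 := min_le_left _ _
  have hε2 : ε * (K + 1) ≤ c ^ 2 / 2 := by
    have h1 : ε ≤ c ^ 2 / (2 * (K + 1)) := min_le_right _ _
    rw [le_div_iff₀ (by positivity)] at h1
    linarith
  refine ⟨ε, hε0, fun σ ρ hσ f hf g hg hfg => ?_⟩
  have hfa : ∀ z ∈ HP σ ρ, z ∉ B → AnalyticAt ℂ f z ∧ f z ≠ 0 ∧ f z ≠ 1 ∧ f z ≠ L z := fun z hz hzB =>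
    ⟨(hf.2.1 z hz hzB).1, (hf.2.1 z hz hzB).2.1, (hf.2.1 z hz hzB).2.2.1, (hf.2.1 z hz hzB).2.2.2 L hL⟩
  have hga : ∀ z ∈ HP σ ρ, z ∉ B → AnalyticAt ℂ g z ∧ g z ≠ 0 ∧ g z ≠ 1 ∧ g z ≠ L z := fun z hz hzB =>
    ⟨(hg.2.1 z hz hzB).1, (hg.2.1 z hz hzB).2.1, (hg.2.1 z hz hzB).2.2.1, (hg.2.1 z hz hzB).2.2.2 L hL⟩
  have hLL : ∀ z, z ∉ B → AnalyticAt ℂ L z ∧ L z ≠ 0 ∧ L z ≠ 1 := fun z hz => h.L_an L hL z hz
  have hfm : ∀ z ∈ HP σ ρ, MeromorphicAt f z := hf.1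
  have hgm : ∀ z ∈ HP σ ρ, MeromorphicAt g z := hg.1
  have hLm : ∀ z, MeromorphicAt L z := h.L_mer L hL
  set Q₁ : ℂ → ℂ := fun z => f z / g z with hQ₁
  set Q₂ : ℂ → ℂ := fun z => (g z - 1) * (f z - L z) / ((g z - L z) * (f z - 1)) with hQ₂
  set Q₃ : ℂ → ℂ := fun z => (g z - 1) * f z / (g z * (f z - 1)) with hQ₃
  set Q₄ : ℂ → ℂ := fun z => (f z - L z) / (g z - L z) with hQ₄
  have hQ₁a : ∀ z ∈ HP σ ρ, z ∉ B → AnalyticAt ℂ Q₁ z ∧ Q₁ z ≠ 0 := fun z hz hzB =>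
    ⟨(hfa z hz hzB).1.div (hga z hz hzB).1 (hga z hz hzB).2.1, div_ne_zero (hfa z hz hzB).2.1 (hga z hz hzB).2.1⟩
  have hne : ∀ z ∈ HP σ ρ, z ∉ B → (g z - 1 ≠ 0 ∧ f z - L z ≠ 0) ∧ (g z - L z ≠ 0 ∧ f z - 1 ≠ 0) := fun z hz hzB =>
    ⟨⟨sub_ne_zero.2 (hga z hz hzB).2.2.1, sub_ne_zero.2 (hfa z hz hzB).2.2.2⟩,
      sub_ne_zero.2 (hga z hz hzB).2.2.2, sub_ne_zero.2 (hfa z hz hzB).2.2.1⟩
  have hQ₂a : ∀ z ∈ HP σ ρ, z ∉ B → AnalyticAt ℂ Q₂ z ∧ Q₂ z ≠ 0 := by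
    intro z hz hzB
    obtain ⟨⟨h1, h2⟩, h3, h4⟩ := hne z hz hzB
    refine ⟨AnalyticAt.div ?_ ?_ (mul_ne_zero h3 h4), div_ne_zero (mul_ne_zero h1 h2) (mul_ne_zero h3 h4)⟩
    · exact ((hga z hz hzB).1.sub analyticAt_const).mul ((hfa z hz hzB).1.sub (hLL z hzB).1)
    · exact ((hga z hz hzB).1.sub (hLL z hzB).1).mul ((hfa z hz hzB).1.sub analyticAt_const)
  have hQ₃a : ∀ z ∈ HP σ ρ, z ∉ B → AnalyticAt ℂ Q₃ z ∧ Q₃ z ≠ 0 := by
    intro z hz hzB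
    obtain ⟨⟨h1, h2⟩, h3, h4⟩ := hne z hz hzB
    have h5 := (hfa z hz hzB).2.1
    have h6 := (hga z hz hzB).2.1
    refine ⟨AnalyticAt.div ?_ ?_ (mul_ne_zero h6 h4), div_ne_zero (mul_ne_zero h1 h5) (mul_ne_zero h6 h4)⟩
    · exact ((hga z hz hzB).1.sub analyticAt_const).mul (hfa z hz hzB).1
    · exact (hga z hz hzB).1.mul ((hfa z hz hzB).1.sub analyticAt_const)
  have hQ₄a : ∀ z ∈ HP σ ρ, z ∉ B → AnalyticAt ℂ Q₄ z ∧ Q₄ z ≠ 0 := by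
    intro z hz hzB
    obtain ⟨⟨h1, h2⟩, h3, h4⟩ := hne z hz hzB
    exact ⟨AnalyticAt.div ((hfa z hz hzB).1.sub (hLL z hzB).1) ((hga z hz hzB).1.sub (hLL z hzB).1) h3, div_ne_zero h2 h3⟩
  have hQ₁m : ∀ z ∈ HP σ ρ, MeromorphicAt Q₁ z := fun z hz => (hfm z hz).div (hgm z hz)
  have hQ₂m : ∀ z ∈ HP σ ρ, MeromorphicAt Q₂ z := fun z hz =>
    (((hgm z hz).sub (MeromorphicAt.const 1 z)).mul ((hfm z hz).sub (hLm z))).div
      (((hgm z hz).sub (hLm z)).mul ((hfm z hz).sub (MeromorphicAt.const 1 z)))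
  have hQ₃m : ∀ z ∈ HP σ ρ, MeromorphicAt Q₃ z := fun z hz =>
    (((hgm z hz).sub (MeromorphicAt.const 1 z)).mul (hfm z hz)).div ((hgm z hz).mul ((hfm z hz).sub (MeromorphicAt.const 1 z)))
  have hQ₄m : ∀ z ∈ HP σ ρ, MeromorphicAt Q₄ z := fun z hz => ((hfm z hz).sub (hLm z)).div ((hgm z hz).sub (hLm z))
  -- near `1` in the strip
  have hsmall : ∀ z ∈ HP σ ρ, z ∈ Gd B δ → |z.re| ≤ W → ‖Q₁ z - 1‖ ≤ 1 / 2 ∧ ‖Q₂ z - 1‖ ≤ 1 / 2 ∧ ‖Q₃ z - 1‖ ≤ 1 / 2 ∧ ‖Q₄ z - 1‖ ≤ 1 / 2 := by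
    intro z hz hzG hzW
    have hzB : z ∉ B := gd_notMem hδ hzG
    obtain ⟨⟨h1, h2⟩, h3, h4⟩ := hne z hz hzB
    have h5 := (hfa z hz hzB).2.1
    have h6 := (hga z hz hzB).2.1
    obtain ⟨a1, a2, a3, a4, a5, a6, a7, a8, a9⟩ := hfg z hz hzG hzW
    have a10 : ‖L z - 1‖ ≤ K + 1 := (norm_sub_le _ _).trans (by rw [norm_one]; linarith [hK z hzG hzW])
    have e1 : Q₁ z - 1 = (f z - g z) / g z := by
      simp only [hQ₁]
      field_simp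
    have e2 : Q₂ z - 1 = (f z - g z) * (L z - 1) / ((g z - L z) * (f z - 1)) := by
      simp only [hQ₂]
      rw [div_sub_one (mul_ne_zero h3 h4)]
      congr 1
      ring
    have e3 : Q₃ z - 1 = -(f z - g z) / (g z * (f z - 1)) := by
      simp only [hQ₃]
      rw [div_sub_one (mul_ne_zero h6 h4)]
      congr 1
      ring
    have e4 : Q₄ z - 1 = (f z - g z) / (g z - L z) := by
      simp only [hQ₄]
      rw [div_sub_one h3]
      congr 1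
      ring
    have hn1 : 0 < ‖g z‖ := norm_pos_iff.2 h6
    have hn2 : 0 < ‖g z - L z‖ := norm_pos_iff.2 h3
    have hn3 : 0 < ‖f z - 1‖ := norm_pos_iff.2 h4
    have hc2 : c ^ 2 ≤ ‖g z - L z‖ * ‖f z - 1‖ := by
      rw [pow_two]
      exact mul_le_mul a8 a3 hc.le hn2.le
    have hc3 : c ^ 2 ≤ ‖g z‖ * ‖f z - 1‖ := by
      rw [pow_two]
      exact mul_le_mul a5 a3 hc.le hn1.le
    refine ⟨?_, ?_, ?_, ?_⟩
    · rw [e1, norm_div, div_le_iff₀ hn1]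
      linarith
    · rw [e2, norm_div, norm_mul, norm_mul, div_le_iff₀ (mul_pos hn2 hn3)]
      have h7 : ‖f z - g z‖ * ‖L z - 1‖ ≤ ε * (K + 1) := mul_le_mul a9 a10 (norm_nonneg _) hε0.le
      linarith
    · rw [e3, norm_div, norm_neg, norm_mul, div_le_iff₀ (mul_pos hn1 hn3)]
      have h7 : ε ≤ ε * (K + 1) := le_mul_of_one_le_right hε0.le (by linarith)
      linarith
    · rw [e4, norm_div, div_le_iff₀ hn2]
      linarith
  -- growth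
  set ρ₁ : ℝ := ρ + 3 with hρ₁
  have hend : ∀ z ∈ HP σ ρ₁, W < |z.re| → z ∈ HP σ ρ ∧ z ∉ B := by
    intro z hz hzW
    refine ⟨HP_anti (by rw [hρ₁]; linarith) hz, fun hzB => ?_⟩
    have := h.B_re z hzB
    linarith
  obtain ⟨M₁, hM₁, b₁⟩ := end_growth h hσ (X := f) (M₀ := 1 / c)
    (fun z hz hzB => ⟨(hfa z hz hzB).1, (hfa z hz hzB).2.1, (hfa z hz hzB).2.2.1⟩)
    (fun z hz hzG hzW => (hfg z hz hzG hzW).2.1)
  obtain ⟨M₂, hM₂, b₂⟩ := end_growth h hσ (X := fun z => (g z)⁻¹) (M₀ := c⁻¹)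
    (fun z hz hzB => ⟨(hga z hz hzB).1.inv (hga z hz hzB).2.1, (inv_omit (hga z hz hzB).2.1 (hga z hz hzB).2.2.1).1,
      (inv_omit (hga z hz hzB).2.1 (hga z hz hzB).2.2.1).2⟩)
    (fun z hz hzG hzW => by
      rw [norm_inv]
      exact inv_anti₀ hc (hfg z hz hzG hzW).2.2.2.2.1)
  obtain ⟨M₃, hM₃, b₃⟩ := end_growth h hσ (X := fun z => 1 - g z) (M₀ := 1 + 1 / c)
    (fun z hz hzB => ⟨analyticAt_const.sub (hga z hz hzB).1, (one_sub_omit (hga z hz hzB).2.1 (hga z hz hzB).2.2.1).1,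
      (one_sub_omit (hga z hz hzB).2.1 (hga z hz hzB).2.2.1).2⟩)
    (fun z hz hzG hzW => (norm_sub_le _ _).trans (by
      rw [norm_one]
      linarith [(hfg z hz hzG hzW).2.2.2.2.2.1]))
  obtain ⟨M₄, hM₄, b₄⟩ := end_growth h hσ (X := fun z => (1 - f z)⁻¹) (M₀ := c⁻¹)
    (fun z hz hzB => by
      have h1 := one_sub_omit (hfa z hz hzB).2.1 (hfa z hz hzB).2.2.1
      exact ⟨(analyticAt_const.sub (hfa z hz hzB).1).inv h1.1, (inv_omit h1.1 h1.2).1, (inv_omit h1.1 h1.2).2⟩)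
    (fun z hz hzG hzW => by
      rw [norm_inv]
      refine inv_anti₀ hc ?_
      rw [norm_sub_rev]
      exact (hfg z hz hzG hzW).2.2.1)
  have hfL : ∀ z ∈ HP σ ρ, z ∉ B → L z / f z ≠ 0 ∧ L z / f z ≠ 1 := fun z hz hzB =>
    ⟨div_ne_zero (hLL z hzB).2.1 (hfa z hz hzB).2.1, fun h1 => (hfa z hz hzB).2.2.2 ((div_eq_one_iff_eq (hfa z hz hzB).2.1).1 h1).symm⟩
  have hgL : ∀ z ∈ HP σ ρ, z ∉ B → L z / g z ≠ 0 ∧ L z / g z ≠ 1 := fun z hz hzB =>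
    ⟨div_ne_zero (hLL z hzB).2.1 (hga z hz hzB).2.1, fun h1 => (hga z hz hzB).2.2.2 ((div_eq_one_iff_eq (hga z hz hzB).2.1).1 h1).symm⟩
  obtain ⟨M₅, hM₅, b₅⟩ := end_growth h hσ (X := fun z => 1 - L z / f z) (M₀ := 1 + K / c)
    (fun z hz hzB => ⟨analyticAt_const.sub ((hLL z hzB).1.div (hfa z hz hzB).1 (hfa z hz hzB).2.1),
      (one_sub_omit (hfL z hz hzB).1 (hfL z hz hzB).2).1, (one_sub_omit (hfL z hz hzB).1 (hfL z hz hzB).2).2⟩)
    (fun z hz hzG hzW => (norm_sub_le _ _).trans (by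
      rw [norm_one, norm_div]
      have h1 := hK z hzG hzW
      have h2 := (hfg z hz hzG hzW).1
      have h3 : ‖L z‖ / ‖f z‖ ≤ K / c := div_le_div₀ hK0 h1 hc h2
      linarith))
  obtain ⟨M₆, hM₆, b₆⟩ := end_growth h hσ (X := fun z => (1 - L z / g z)⁻¹) (M₀ := 1 / c / c)
    (fun z hz hzB => by
      have h1 := one_sub_omit (hgL z hz hzB).1 (hgL z hz hzB).2
      exact ⟨(analyticAt_const.sub ((hLL z hzB).1.div (hga z hz hzB).1 (hga z hz hzB).2.1)).inv h1.1, (inv_omit h1.1 h1.2).1, (inv_omit h1.1 h1.2).2⟩)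
    (fun z hz hzG hzW => by
      have hzB : z ∉ B := gd_notMem hδ hzG
      have h1 : (1 - L z / g z)⁻¹ = g z / (g z - L z) := by
        have h2 := (hga z hz hzB).2.1
        have h3 := (hne z hz hzB).2.1
        rw [one_sub_div h2, inv_div]
      rw [h1, norm_div]
      exact div_le_div₀ (by positivity) (hfg z hz hzG hzW).2.2.2.2.2.1 hc (hfg z hz hzG hzW).2.2.2.2.2.2.2.1)
  have hg₁ : ∀ z ∈ HP σ ρ₁, W < |z.re| → Real.log ‖Q₁ z‖ ≤ (M₁ + M₂) * (1 + ‖z‖) ^ 8 := by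
    intro z hz hzW
    obtain ⟨hzρ, hzB⟩ := hend z hz hzW
    have h5 := (hfa z hzρ hzB).2.1
    have h6 := (hga z hzρ hzB).2.1
    have e : ‖Q₁ z‖ = ‖f z‖ * ‖(g z)⁻¹‖ := by
      simp only [hQ₁]
      rw [div_eq_mul_inv, norm_mul]
    rw [e, Real.log_mul (norm_ne_zero_iff.2 h5) (norm_ne_zero_iff.2 (inv_ne_zero h6)), add_mul]
    exact add_le_add (b₁ z hz hzW) (b₂ z hz hzW)
  have hg₂ : ∀ z ∈ HP σ ρ₁, W < |z.re| → Real.log ‖Q₂ z‖ ≤ (M₃ + M₁ + M₅ + M₂ + M₆ + M₄) * (1 + ‖z‖) ^ 8 := by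
    intro z hz hzW
    obtain ⟨hzρ, hzB⟩ := hend z hz hzW
    obtain ⟨⟨h1, h2⟩, h3, h4⟩ := hne z hzρ hzB
    have h5 := (hfa z hzρ hzB).2.1
    have h6 := (hga z hzρ hzB).2.1
    have h7 := (one_sub_omit (hga z hzρ hzB).2.1 (hga z hzρ hzB).2.2.1).1
    have h8 := (one_sub_omit (hfa z hzρ hzB).2.1 (hfa z hzρ hzB).2.2.1).1
    have h9 := (one_sub_omit (hfL z hzρ hzB).1 (hfL z hzρ hzB).2).1
    have h10 := (one_sub_omit (hgL z hzρ hzB).1 (hgL z hzρ hzB).2).1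
    have e : Q₂ z = (1 - g z) * f z * (1 - L z / f z) * (g z)⁻¹ * (1 - L z / g z)⁻¹ * (1 - f z)⁻¹ := by
      simp only [hQ₂]
      rw [one_sub_div h5, one_sub_div h6, inv_div]
      have h4' : 1 - f z ≠ 0 := h8
      field_simp
      ring
    have q1 := norm_ne_zero_iff.2 h7
    have q2 := norm_ne_zero_iff.2 h5
    have q3 := norm_ne_zero_iff.2 h9
    have q4 := norm_ne_zero_iff.2 (inv_ne_zero h6)
    have q5 := norm_ne_zero_iff.2 (inv_ne_zero h10)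
    have q6 := norm_ne_zero_iff.2 (inv_ne_zero h8)
    rw [e, norm_mul, norm_mul, norm_mul, norm_mul, norm_mul,
      Real.log_mul (mul_ne_zero (mul_ne_zero (mul_ne_zero (mul_ne_zero q1 q2) q3) q4) q5) q6,
      Real.log_mul (mul_ne_zero (mul_ne_zero (mul_ne_zero q1 q2) q3) q4) q5, Real.log_mul (mul_ne_zero (mul_ne_zero q1 q2) q3) q4,
      Real.log_mul (mul_ne_zero q1 q2) q3, Real.log_mul q1 q2]
    have k1 := b₁ z hz hzW
    have k2 := b₂ z hz hzW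
    have k3 := b₃ z hz hzW
    have k4 := b₄ z hz hzW
    have k5 := b₅ z hz hzW
    have k6 := b₆ z hz hzW
    linarith
  have hanti : HP σ ρ₁ ⊆ HP σ ρ := HP_anti (by rw [hρ₁]; linarith)
  obtain ⟨J₁, r₁, N₁, k₁, hr₁, hN₁, hJ₁d, hJ₁e, hJ₁s, hJ₁g⟩ := log_fn h hσ (fun z hz => hQ₁m z (hanti hz)) (fun z hz hzB => hQ₁a z (hanti hz) hzB)
    (fun z hz hzG hzW => (hsmall z (hanti hz) hzG hzW).1) (by positivity) hg₁
  obtain ⟨J₂, r₂, N₂, k₂, hr₂, hN₂, hJ₂d, hJ₂e, hJ₂s, hJ₂g⟩ := log_fn h hσ (fun z hz => hQ₂m z (hanti hz)) (fun z hz hzB => hQ₂a z (hanti hz) hzB)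
    (fun z hz hzG hzW => (hsmall z (hanti hz) hzG hzW).2.1) (by positivity) hg₂
  set r : ℝ := max r₁ r₂ with hr
  have hrr₁ : r₁ ≤ r := le_max_left _ _
  have hrr₂ : r₂ ≤ r := le_max_right _ _
  set ρ' : ℝ := r + 4 * δ with hρ'
  have hρr : ρ ≤ r := by linarith
  have hs₁ : HP σ ρ' ⊆ HP σ r₁ := HP_anti (by rw [hρ']; linarith)
  have hs₂ : HP σ ρ' ⊆ HP σ r₂ := HP_anti (by rw [hρ']; linarith)
  have hs₃ : HP σ ρ' ⊆ HP σ ρ := HP_anti (by rw [hρ']; linarith)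
  -- zeros
  have hzero : ∀ l : ℤ, b₀ + p * l * Complex.I ∈ HP σ ρ' → J₁ (b₀ + p * l * Complex.I) * J₂ (b₀ + p * l * Complex.I) = 0 := by
    intro l hbl
    have hLt := L_one h hL hLa hL1 l
    have hbB : b₀ + p * l * Complex.I ∈ B := h.B_inv b₀ hb₀ l
    set b : ℂ := b₀ + p * l * Complex.I with hb
    have hsub : ball b (4 * δ) ⊆ HP σ r := HP_ball hσ hbl
    have hsubρ : ball b (4 * δ) ⊆ HP σ ρ := hsub.trans (HP_anti hρr)
    have hbW : |b.re| ≤ W := h.re_le hbB (mem_ball_self (by positivity))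
    have hnear : ∀ Q : ℂ → ℂ, (∀ z ∈ HP σ ρ, z ∉ B → AnalyticAt ℂ Q z ∧ Q z ≠ 0) → (∀ z ∈ HP σ ρ, MeromorphicAt Q z) →
        (∀ z ∈ HP σ ρ, z ∈ Gd B δ → |z.re| ≤ W → ‖Q z - 1‖ ≤ 1 / 2) → ∀ z ∈ ball b (4 * δ), z ≠ b → ‖Q z - 1‖ ≤ 1 / 2 := by
      intro Q h1 h2 h3
      obtain ⟨H, -, hHQ, hH⟩ := hole hδ le_rfl (fun z hz hzb => h1 z (hsubρ hz) (h.notMem hbB hz hzb)) (h2 b (hsubρ (mem_ball_self (by positivity))))
        (fun z hz1 hz2 => by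
          have hz : z ∈ ball b (4 * δ) := by rwa [mem_ball, dist_eq_norm]
          exact h3 z (hsubρ hz) (h.mem_gd hbB hz hz1) (h.re_le hbB hz))
      intro z hz hzb
      rw [← hHQ z hz hzb]
      exact hH z hz
    have n3 := hnear Q₃ hQ₃a hQ₃m fun z hz hzG hzW => (hsmall z hz hzG hzW).2.2.1
    have n4 := hnear Q₄ hQ₄a hQ₄m fun z hz hzG hzW => (hsmall z hz hzG hzW).2.2.2
    have hbr₁ : b ∈ HP σ r₁ := hs₁ hbl
    have hbr₂ : b ∈ HP σ r₂ := hs₂ hbl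
    have hc₁ : ContinuousAt J₁ b := (hJ₁d.differentiableAt ((isOpen_HP σ r₁).mem_nhds hbr₁)).continuousAt
    have hc₂ : ContinuousAt J₂ b := (hJ₂d.differentiableAt ((isOpen_HP σ r₂).mem_nhds hbr₂)).continuousAt
    have hcont : ContinuousAt (fun z => (Complex.exp (J₁ z) - 1) * (Complex.exp (J₂ z) - 1)) b :=
      (hc₁.cexp.sub continuousAt_const).mul (hc₂.cexp.sub continuousAt_const)
    have ht1 : Tendsto (fun z => (Complex.exp (J₁ z) - 1) * (Complex.exp (J₂ z) - 1)) (𝓝[≠] b)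
        (𝓝 ((Complex.exp (J₁ b) - 1) * (Complex.exp (J₂ b) - 1))) := hcont.tendsto.mono_left nhdsWithin_le_nhds
    have ht2 : Tendsto (fun z => (Complex.exp (J₁ z) - 1) * (Complex.exp (J₂ z) - 1)) (𝓝[≠] b) (𝓝 0) := by
      have ht3 : Tendsto (fun z => ‖1 - L z‖ * (1 / 2 * (1 / 2))) (𝓝[≠] b) (𝓝 0) := by
        have := (hLt.norm.mul_const (1 / 2 * (1 / 2) : ℝ)).mono_left (nhdsWithin_le_nhds (s := {b}ᶜ))
        simpa using this
      refine squeeze_zero_norm' ?_ ht3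
      rw [eventually_nhdsWithin_iff]
      filter_upwards [ball_mem_nhds b (show 0 < 4 * δ by positivity)] with z hz hzb
      have hzb' : z ≠ b := hzb
      have hzB : z ∉ B := h.notMem hbB hz hzb'
      have hzρ := hsubρ hz
      obtain ⟨⟨h1, h2⟩, h3, h4⟩ := hne z hzρ hzB
      have h6 := (hga z hzρ hzB).2.1
      rw [hJ₁e z (HP_anti hrr₁ (hsub hz)) hzB, hJ₂e z (HP_anti hrr₂ (hsub hz)) hzB]
      have e : (Q₁ z - 1) * (Q₂ z - 1) = (1 - L z) * ((Q₃ z - 1) * (Q₄ z - 1)) := by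
        simp only [hQ₁, hQ₂, hQ₃, hQ₄]
        field_simp
        ring
      rw [e, norm_mul, norm_mul]
      exact mul_le_mul_of_nonneg_left (mul_le_mul (n3 z hz hzb') (n4 z hz hzb') (norm_nonneg _) (by norm_num)) (norm_nonneg _)
    have h0 := tendsto_nhds_unique ht1 ht2
    rcases mul_eq_zero.1 h0 with h1 | h1
    · rw [exp_small (sub_eq_zero.1 h1) (by linarith [hJ₁s b hbr₁ hbW]), zero_mul]
    · rw [exp_small (sub_eq_zero.1 h1) (by linarith [hJ₂s b hbr₂ hbW]), mul_zero]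
  have hall := zero_hp (J := fun z => J₁ z * J₂ z) (a := b₀) (M := N₁ * N₂) (k := k₁ + k₂) (ρ := ρ') hσ hp ((hJ₁d.mono hs₁).mul (hJ₂d.mono hs₂)) (by positivity)
    (fun z hz => by
      have h1 := hJ₁g z (hs₁ hz)
      have h2 := hJ₂g z (hs₂ hz)
      have h3 := mul_le_mul h1 h2 (norm_nonneg _) (by positivity)
      rw [norm_mul]
      refine h3.trans (le_of_eq ?_)
      rw [pow_add]
      ring) hzero
  refine ⟨ρ', by rw [hρ']; linarith, fun z hz hzB => ?_⟩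
  have hzρ := hs₃ hz
  obtain ⟨⟨h1, h2⟩, h3, h4⟩ := hne z hzρ hzB
  have h6 := (hga z hzρ hzB).2.1
  rcases mul_eq_zero.1 (hall z hz) with h7 | h7
  · have h8 := hJ₁e z (hs₁ hz) hzB
    rw [h7, Complex.exp_zero] at h8
    exact (div_eq_one_iff_eq h6).1 h8.symm
  · have h8 := hJ₂e z (hs₂ hz) hzB
    rw [h7, Complex.exp_zero] at h8
    have h9 := (div_eq_one_iff_eq (mul_ne_zero h3 h4)).1 h8.symm
    have h10 : (f z - g z) * (L z - 1) = 0 := by linear_combination h9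
    rcases mul_eq_zero.1 h10 with h11 | h11
    · exact sub_eq_zero.1 h11
    · exact absurd (sub_eq_zero.1 h11) (hLL z hzB).2.2

end Pool.Agent.H62.LR

end
end

section

/-!
# LR LAI: case (I), no member is near the section `0`

* `exp_zero`: a number of norm `< 2 π` with exponential `1` is `0`.
* `translate facts` for `B`, `C`.
* `la_I`.
-/

set_option autoImplicit false

open Topology Filter Metric

noncomputable section

namespace Pool.Agent.H62.LR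

attribute [-instance] ProperSMul.toContinuousSMul

open Pool.Agent.H87.LU (Gd HP isOpen_HP convex_HP HP_anti gd_notMem)

variable {p : ℝ} {B : Set ℂ} {δ W : ℝ} {𝓛 : Set (ℂ → ℂ)} {C A : Set ℂ}

theorem exp_zero {w : ℂ} (h1 : Complex.exp w = 1) (h2 : ‖w‖ < 6) : w = 0 := by
  obtain ⟨n, hn⟩ := Complex.exp_eq_one_iff.1 h1
  by_contra hne
  have hn0 : n ≠ 0 := by
    rintro rfl
    rw [Int.cast_zero, zero_mul] at hn
    exact hne hn
  have h3 : ‖w‖ = |(n : ℝ)| * (2 * Real.pi) := by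
    rw [hn, norm_mul, norm_mul, Complex.norm_I, mul_one, Complex.norm_intCast]
    congr 1
    rw [norm_mul, Complex.norm_real, Real.norm_of_nonneg Real.pi_pos.le]
    simp
  have h4 : (1 : ℝ) ≤ |(n : ℝ)| := by
    rw [← Int.cast_abs]
    exact_mod_cast Int.one_le_abs hn0
  have h5 := Real.pi_gt_three
  nlinarith

/-- the value of the exponential of a continuous function at a point which is a limit of good points -/
theorem exp_of_tendsto {J Q : ℂ → ℂ} {b a : ℂ} (hJ : ContinuousAt J b) (he : ∀ᶠ z in 𝓝[≠] b, Complex.exp (J z) = Q z) (hQ : Tendsto Q (𝓝[≠] b) (𝓝 a)) :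
    Complex.exp (J b) = a := by
  have h1 : Tendsto (fun z => Complex.exp (J z)) (𝓝[≠] b) (𝓝 (Complex.exp (J b))) :=
    (Complex.continuous_exp.continuousAt.comp hJ).tendsto.mono_left nhdsWithin_le_nhds
  exact tendsto_nhds_unique (h1.congr' he) hQ

/-- near a point of `B` there are no other points of `B` -/
theorem BaseD.punct (h : BaseD p B δ W 𝓛 C A) {b : ℂ} (hb : b ∈ B) : ∀ᶠ z in 𝓝[≠] b, z ∉ B := by
  have hδ := h.δ_pos
  rw [eventually_nhdsWithin_iff]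
  filter_upwards [ball_mem_nhds b (show 0 < 4 * δ by positivity)] with z hz hzb
  exact h.notMem hb hz hzb

/-- If `f` is near `0` on the annulus around `b ∈ B` and has no zeros and no values `1` outside `b`, then it has a limit of norm at most `ε` at `b`. -/
theorem small_at (h : BaseD p B δ W 𝓛 C A) {σ ρ ε : ℝ} (hσ : σ = 1 ∨ σ = -1) (hε : ε ≤ 1 / 2) {f : ℂ → ℂ} (hfm : ∀ z ∈ HP σ ρ, MeromorphicAt f z)
    (hf : ∀ z ∈ HP σ ρ, z ∉ B → AnalyticAt ℂ f z ∧ f z ≠ 1) (h1 : ∀ z ∈ HP σ ρ, z ∈ Gd B δ → |z.re| ≤ W → ‖f z‖ ≤ ε) {b : ℂ} (hb : b ∈ B)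
    (hbH : b ∈ HP σ (ρ + 4 * δ)) : ∃ a : ℂ, ‖a‖ ≤ ε ∧ Tendsto f (𝓝[≠] b) (𝓝 a) := by
  have hδ := h.δ_pos
  have hsub := HP_ball hσ hbH
  obtain ⟨H, hHd, hHQ, hH1⟩ := hole (Q := fun z => 1 - f z) hδ hε (fun z hz hzb => by
      have h2 := hf z (hsub hz) (h.notMem hb hz hzb)
      exact ⟨analyticAt_const.sub h2.1, sub_ne_zero.2 (Ne.symm h2.2)⟩)
    ((MeromorphicAt.const 1 b).sub (hfm b (hsub (mem_ball_self (by positivity))))) fun z hz1 hz2 => by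
      have hz : z ∈ ball b (4 * δ) := by rwa [mem_ball, dist_eq_norm]
      have h2 := h1 z (hsub hz) (h.mem_gd hb hz hz1) (h.re_le hb hz)
      rw [sub_sub_cancel_left, norm_neg]
      exact h2
  have hbb : b ∈ ball b (4 * δ) := mem_ball_self (by positivity)
  refine ⟨1 - H b, ?_, ?_⟩
  · rw [norm_sub_rev]
    exact hH1 b hbb
  · have h2 : Tendsto (fun z => 1 - H z) (𝓝[≠] b) (𝓝 (1 - H b)) :=
      ((continuousAt_const.sub (hHd.differentiableAt (isOpen_ball.mem_nhds hbb)).continuousAt).tendsto).mono_left nhdsWithin_le_nhds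
    refine h2.congr' ?_
    rw [EventuallyEq, eventually_nhdsWithin_iff]
    filter_upwards [isOpen_ball.mem_nhds hbb] with z hz hzb
    rw [hHQ z hz hzb]
    ring

/-- a point of the half plane, far to the right -/
theorem exists_good (h : BaseD p B δ W 𝓛 C A) {σ : ℝ} (hσ : σ = 1 ∨ σ = -1) (ρ : ℝ) : ∃ z : ℂ, z ∈ HP σ ρ ∧ z ∈ Gd B δ ∧ |z.re| ≤ W ∧ z ∉ B := by
  have hδ := h.δ_pos
  have hW := h.W_pos
  refine ⟨⟨W, σ * (ρ + 1)⟩, ?_, ?_, ?_, ?_⟩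
  · show ρ < σ * (σ * (ρ + 1))
    rcases hσ with h1 | h1 <;> rw [h1] <;> linarith
  · intro b hb
    have h1 := h.B_re b hb
    have h2 := Complex.abs_re_le_norm ((⟨W, σ * (ρ + 1)⟩ : ℂ) - b)
    rw [Complex.sub_re] at h2
    have h3 : W - b.re ≤ |W - b.re| := le_abs_self _
    have h4 := le_abs_self b.re
    change |W - b.re| ≤ _ at h2
    linarith
  · show |W| ≤ W
    rw [abs_of_pos hW]
  · intro hb
    have h1 := h.B_re _ hb
    change |W| + 4 * δ ≤ W at h1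
    rw [abs_of_pos hW] at h1
    linarith

/-- Case (I): no member is near the section `0`. -/
theorem la_I (h : BaseD p B δ W ∅ C A) {b₀ : ℂ} (hb₀ : b₀ ∈ C) :
    ∃ ε : ℝ, 0 < ε ∧ ∀ σ ρ : ℝ, (σ = 1 ∨ σ = -1) → ∀ f ∈ Tm B ∅ C A (HP σ ρ), ¬ ∀ z ∈ HP σ ρ, z ∈ Gd B δ → |z.re| ≤ W → ‖f z‖ ≤ ε := by
  have hδ := h.δ_pos
  have hp := h.p_pos
  -- the elements of `A` different from `0` are not small
  obtain ⟨ε₀, hε₀, hA⟩ : ∃ ε₀ : ℝ, 0 < ε₀ ∧ ∀ a ∈ A, a ≠ 0 → ε₀ < ‖a‖ := by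
    have hfin : (A \ {0}).Finite := h.A_fin.subset Set.sdiff_subset
    rcases (A \ {0}).eq_empty_or_nonempty with h1 | h1
    · refine ⟨1, one_pos, fun a ha ha0 => ?_⟩
      have : a ∈ A \ {0} := ⟨ha, ha0⟩
      rw [h1] at this
      exact absurd this (Set.notMem_empty a)
    · obtain ⟨a₀, ha₀, hmin⟩ := hfin.exists_minimalFor (fun a => ‖a‖) _ h1
      have hpos : 0 < ‖a₀‖ := norm_pos_iff.2 ha₀.2
      refine ⟨‖a₀‖ / 2, by positivity, fun a ha ha0 => ?_⟩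
      have h2 : ‖a₀‖ ≤ ‖a‖ := by
        by_contra hcon
        push Not at hcon
        exact absurd (hmin ⟨ha, ha0⟩ hcon.le) (not_le.2 hcon)
      linarith
  refine ⟨min ε₀ (1 / 2), lt_min hε₀ (by norm_num), fun σ ρ hσ f hf hsm => ?_⟩
  obtain ⟨hfm, hfB, hfC⟩ := hf
  have hε2 : min ε₀ (1 / 2) ≤ (1 / 2 : ℝ) := min_le_right _ _
  -- growth
  obtain ⟨M, hM, hg⟩ := end_growth h hσ (X := f) (ρ := ρ) (fun z hz hzB => ⟨(hfB z hz hzB).1, (hfB z hz hzB).2.1, (hfB z hz hzB).2.2.1⟩) hsm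
  have hρ3 : HP σ (ρ + 3) ⊆ HP σ ρ := HP_anti (by linarith)
  obtain ⟨J, ρ', M', k', hρ', hM', hJd, hJe, hJ2, hJb⟩ := log_fn h hσ (ρ := ρ + 3) (Q := fun z => 1 - f z)
    (fun z hz => (MeromorphicAt.const 1 z).sub (hfm z (hρ3 hz)))
    (fun z hz hzB => ⟨analyticAt_const.sub (hfB z (hρ3 hz) hzB).1, sub_ne_zero.2 (Ne.symm (hfB z (hρ3 hz) hzB).2.2.1)⟩)
    (fun z hz hzG hzW => by
      rw [sub_sub_cancel_left, norm_neg]
      exact (hsm z (hρ3 hz) hzG hzW).trans hε2) (M := M + 1) (k := 8) (by linarith) (fun z hz hzW => by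
      have h1 := hg z hz hzW
      have hzB : z ∉ B := by
        intro hzB
        have := h.B_re z hzB
        linarith
      have hf0 : 0 < ‖f z‖ := norm_pos_iff.2 (hfB z (hρ3 hz) hzB).2.1
      have hq0 : 0 < ‖1 - f z‖ := norm_pos_iff.2 (sub_ne_zero.2 (Ne.symm (hfB z (hρ3 hz) hzB).2.2.1))
      have h2 : ‖1 - f z‖ ≤ 1 + ‖f z‖ := (norm_sub_le _ _).trans (by rw [norm_one])
      have h3 : (1 : ℝ) ≤ (1 + ‖z‖) ^ 8 := one_le_pow₀ (by linarith [norm_nonneg z])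
      have h4 : Real.log ‖1 - f z‖ ≤ 1 + M * (1 + ‖z‖) ^ 8 := by
        rcases le_or_gt ‖f z‖ 1 with h5 | h5
        · have h6 : Real.log ‖1 - f z‖ ≤ ‖1 - f z‖ - 1 := Real.log_le_sub_one_of_pos hq0
          have h7 : 0 ≤ M * (1 + ‖z‖) ^ 8 := by positivity
          linarith
        · have h6 : ‖1 - f z‖ ≤ 2 * ‖f z‖ := by linarith
          have h7 : Real.log ‖1 - f z‖ ≤ Real.log 2 + Real.log ‖f z‖ := by
            rw [← Real.log_mul (by norm_num) hf0.ne']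
            exact Real.log_le_log hq0 h6
          have h8 : Real.log 2 ≤ 1 := by
            have := Real.log_le_sub_one_of_pos (show (0 : ℝ) < 2 by norm_num)
            linarith
          linarith
      linarith)
  set ρ₂ : ℝ := max ρ' (ρ + 4 * δ) with hρ₂
  have hsub' : HP σ ρ₂ ⊆ HP σ ρ' := HP_anti (le_max_left _ _)
  have hsub4 : HP σ ρ₂ ⊆ HP σ (ρ + 4 * δ) := HP_anti (le_max_right _ _)
  have hzero := zero_hp (J := J) (a := b₀) (ρ := ρ₂) hσ hp (hJd.mono hsub') hM' (fun z hz => hJb z (hsub' hz)) (fun l hl => by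
    set b : ℂ := b₀ + p * l * Complex.I with hb
    have hbC : b ∈ C := h.C_inv b₀ hb₀ l
    have hbB : b ∈ B := h.C_sub hbC
    have hb4 : b ∈ HP σ (ρ + 4 * δ) := hsub4 hl
    have hbρ : b ∈ HP σ ρ := HP_anti (by linarith) hb4
    obtain ⟨a, ha, hlim⟩ := small_at h hσ hε2 hfm (fun z hz hzB => ⟨(hfB z hz hzB).1, (hfB z hz hzB).2.2.1⟩) hsm hbB hb4
    have haA : a ∈ A := hfC b hbρ hbC a hlim
    have ha0 : a = 0 := by
      by_contra hne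
      have := hA a haA hne
      exact absurd (ha.trans (min_le_left _ _)) (not_le.2 this)
    rw [ha0] at hlim
    have h1 : Tendsto (fun z => 1 - f z) (𝓝[≠] b) (𝓝 1) := by
      have := hlim.const_sub 1
      rwa [sub_zero] at this
    have hJc : ContinuousAt J b := (hJd.differentiableAt ((isOpen_HP _ _).mem_nhds (hsub' hl))).continuousAt
    have h2 := exp_of_tendsto hJc ?_ h1
    · refine exp_zero h2 ?_
      have := hJ2 b (hsub' hl) (h.re_le hbB (mem_ball_self (by positivity)))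
      linarith
    · filter_upwards [h.punct hbB, nhdsWithin_le_nhds ((isOpen_HP _ _).mem_nhds (hsub' hl))] with z hz1 hz2
      exact hJe z hz2 hz1)
  obtain ⟨z, hz, -, -, hzB⟩ := exists_good h hσ ρ₂
  have h1 := hJe z (hsub' hz) hzB
  rw [hzero z hz, Complex.exp_zero] at h1
  have h2 : f z = 0 := by linear_combination h1
  exact (hfB z (HP_anti (by linarith) (hsub4 hz)) hzB).2.1 h2

end Pool.Agent.H62.LR

end
end

section

/-!
# LR LHI: case (I), two members away from the sections and close to each other agree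
-/

set_option autoImplicit false

open Topology Filter Metric

noncomputable section

namespace Pool.Agent.H62.LR

attribute [-instance] ProperSMul.toContinuousSMul

open Pool.Agent.H87.LU (Gd HP isOpen_HP convex_HP HP_anti gd_notMem)

variable {p : ℝ} {B : Set ℂ} {δ W : ℝ} {𝓛 : Set (ℂ → ℂ)} {C A : Set ℂ}

/-- different elements of a finite set are not close -/
theorem gap (hA : A.Finite) : ∃ η : ℝ, 0 < η ∧ ∀ a ∈ A, ∀ a' ∈ A, ‖a' - a‖ ≤ η * ‖a‖ → a' = a := by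
  have h1 : ∀ q ∈ A ×ˢ A, ∀ᶠ η : ℝ in 𝓝[>] 0, ‖q.2 - q.1‖ ≤ η * ‖q.1‖ → q.2 = q.1 := by
    rintro ⟨a, a'⟩ -
    by_cases hne : a' = a
    · exact Eventually.of_forall fun _ _ => hne
    · by_cases ha : a = 0
      · filter_upwards with η hη
        simp only [ha, norm_zero, mul_zero, sub_zero] at hη ⊢
        exact norm_le_zero_iff.1 hη
      · have hpos : 0 < ‖a' - a‖ / ‖a‖ := div_pos (norm_pos_iff.2 (sub_ne_zero.2 hne)) (norm_pos_iff.2 ha)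
        filter_upwards [Ioo_mem_nhdsGT hpos] with η hη hle
        exfalso
        have h2 := hη.2
        rw [lt_div_iff₀ (norm_pos_iff.2 ha)] at h2
        exact absurd hle (not_le.2 h2)
  have h2 := (Filter.eventually_all_finite (hA.prod hA)).2 h1
  obtain ⟨η, hη, hη0⟩ := (h2.and self_mem_nhdsWithin).exists
  exact ⟨η, hη0, fun a ha a' ha' hle => hη (a, a') ⟨ha, ha'⟩ hle⟩

/-- the logarithm of a product of two functions which omit `0`, `1` and are bounded in the strip -/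
theorem log_prod (h : BaseD p B δ W 𝓛 C A) {σ ρ : ℝ} (hσ : σ = 1 ∨ σ = -1) {X Y : ℂ → ℂ} {M₀ : ℝ} (hXm : ∀ z ∈ HP σ ρ, MeromorphicAt X z)
    (hYm : ∀ z ∈ HP σ ρ, MeromorphicAt Y z) (hX : ∀ z ∈ HP σ ρ, z ∉ B → AnalyticAt ℂ X z ∧ X z ≠ 0 ∧ X z ≠ 1)
    (hY : ∀ z ∈ HP σ ρ, z ∉ B → AnalyticAt ℂ Y z ∧ Y z ≠ 0 ∧ Y z ≠ 1)
    (hXM : ∀ z ∈ HP σ ρ, z ∈ Gd B δ → |z.re| ≤ W → ‖X z‖ ≤ M₀) (hYM : ∀ z ∈ HP σ ρ, z ∈ Gd B δ → |z.re| ≤ W → ‖Y z‖ ≤ M₀)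
    (h1 : ∀ z ∈ HP σ ρ, z ∈ Gd B δ → |z.re| ≤ W → ‖X z * Y z - 1‖ ≤ 1 / 2) :
    ∃ (J : ℂ → ℂ) (ρ' M' : ℝ) (k' : ℕ), ρ ≤ ρ' ∧ 0 ≤ M' ∧ DifferentiableOn ℂ J (HP σ ρ') ∧ (∀ z ∈ HP σ ρ', z ∉ B → Complex.exp (J z) = X z * Y z) ∧
      (∀ z ∈ HP σ ρ', |z.re| ≤ W → ‖J z‖ < 2) ∧ ∀ z ∈ HP σ ρ', ‖J z‖ ≤ M' * (1 + ‖z‖) ^ k' := by
  have hδ := h.δ_pos
  obtain ⟨M₁, hM₁, hg₁⟩ := end_growth h hσ hX hXM
  obtain ⟨M₂, hM₂, hg₂⟩ := end_growth h hσ hY hYM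
  have hsub : HP σ (ρ + 3) ⊆ HP σ ρ := HP_anti (by linarith)
  obtain ⟨J, ρ', M', k', hρ', hM', hJd, hJe, hJ2, hJb⟩ := log_fn h hσ (ρ := ρ + 3) (Q := fun z => X z * Y z)
    (fun z hz => (hXm z (hsub hz)).mul (hYm z (hsub hz)))
    (fun z hz hzB => ⟨(hX z (hsub hz) hzB).1.mul (hY z (hsub hz) hzB).1, mul_ne_zero (hX z (hsub hz) hzB).2.1 (hY z (hsub hz) hzB).2.1⟩)
    (fun z hz hzG hzW => h1 z (hsub hz) hzG hzW) (M := M₁ + M₂) (k := 8) (by positivity) (fun z hz hzW => by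
      have hzB : z ∉ B := by
        intro hzB
        have := h.B_re z hzB
        linarith
      have hX0 := norm_pos_iff.2 (hX z (hsub hz) hzB).2.1
      have hY0 := norm_pos_iff.2 (hY z (hsub hz) hzB).2.1
      rw [norm_mul, Real.log_mul hX0.ne' hY0.ne', add_mul]
      exact add_le_add (hg₁ z hz hzW) (hg₂ z hz hzW))
  exact ⟨J, ρ', M', k', by linarith, hM', hJd, hJe, hJ2, hJb⟩

/-- Case (I): two members away from the sections and close to each other agree. -/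
theorem lh_I (h : BaseD p B δ W ∅ C A) {b₀ : ℂ} (hb₀ : b₀ ∈ C) {c : ℝ} (hc : 0 < c) :
    ∃ ε : ℝ, 0 < ε ∧ ∀ σ ρ : ℝ, (σ = 1 ∨ σ = -1) → ∀ f ∈ Tm B ∅ C A (HP σ ρ), ∀ g ∈ Tm B ∅ C A (HP σ ρ),
      (∀ z ∈ HP σ ρ, z ∈ Gd B δ → |z.re| ≤ W → c ≤ ‖f z‖ ∧ ‖f z‖ ≤ 1 / c ∧ c ≤ ‖f z - 1‖ ∧
        c ≤ ‖g z‖ ∧ ‖g z‖ ≤ 1 / c ∧ c ≤ ‖g z - 1‖ ∧ ‖f z - g z‖ ≤ ε) →
      ∃ ρ' : ℝ, ρ ≤ ρ' ∧ ∀ z ∈ HP σ ρ', z ∉ B → f z = g z := by
  have hδ := h.δ_pos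
  have hp := h.p_pos
  obtain ⟨η, hη, hgap⟩ := gap h.A_fin
  set ε' : ℝ := min η (1 / 2) with hε'
  have hε'0 : 0 < ε' := lt_min hη (by norm_num)
  have hε'2 : ε' ≤ 1 / 2 := min_le_right _ _
  refine ⟨c * ε', by positivity, fun σ ρ hσ f hf g hg hfg => ?_⟩
  obtain ⟨hfm, hfB, hfC⟩ := hf
  obtain ⟨hgm, hgB, hgC⟩ := hg
  have hfan : ∀ z ∈ HP σ ρ, z ∉ B → AnalyticAt ℂ f z ∧ f z ≠ 0 ∧ f z ≠ 1 := fun z hz hzB => ⟨(hfB z hz hzB).1, (hfB z hz hzB).2.1, (hfB z hz hzB).2.2.1⟩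
  have hgan : ∀ z ∈ HP σ ρ, z ∉ B → AnalyticAt ℂ g z ∧ g z ≠ 0 ∧ g z ≠ 1 := fun z hz hzB => ⟨(hgB z hz hzB).1, (hgB z hz hzB).2.1, (hgB z hz hzB).2.2.1⟩
  have hinv : ∀ X : ℂ → ℂ, (∀ z ∈ HP σ ρ, z ∉ B → AnalyticAt ℂ X z ∧ X z ≠ 0 ∧ X z ≠ 1) → ∀ z ∈ HP σ ρ, z ∉ B →
      AnalyticAt ℂ (fun z => (X z)⁻¹) z ∧ (X z)⁻¹ ≠ 0 ∧ (X z)⁻¹ ≠ 1 := by
    intro X hX z hz hzB
    obtain ⟨h1, h2, h3⟩ := hX z hz hzB
    exact ⟨h1.inv h2, inv_ne_zero h2, fun h4 => h3 (inv_eq_one.1 h4)⟩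
  have hsubX : ∀ X : ℂ → ℂ, (∀ z ∈ HP σ ρ, z ∉ B → AnalyticAt ℂ X z ∧ X z ≠ 0 ∧ X z ≠ 1) → ∀ z ∈ HP σ ρ, z ∉ B →
      AnalyticAt ℂ (fun z => 1 - X z) z ∧ 1 - X z ≠ 0 ∧ 1 - X z ≠ 1 := by
    intro X hX z hz hzB
    obtain ⟨h1, h2, h3⟩ := hX z hz hzB
    exact ⟨analyticAt_const.sub h1, sub_ne_zero.2 h3.symm, fun h4 => h2 (by linear_combination -h4)⟩
  have hinvb : ∀ x : ℂ, c ≤ ‖x‖ → ‖x⁻¹‖ ≤ 1 / c := by
    intro x hx
    rw [norm_inv, one_div]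
    exact inv_anti₀ hc hx
  have hε'b : ∀ x y : ℂ, c ≤ ‖y‖ → ‖x‖ ≤ c * ε' → ‖x * y⁻¹‖ ≤ ε' := by
    intro x y hy hx
    rw [norm_mul]
    calc ‖x‖ * ‖y⁻¹‖ ≤ c * ε' * (1 / c) := mul_le_mul hx (hinvb y hy) (norm_nonneg _) (by positivity)
      _ = ε' := by field_simp
  -- closeness of the two quotients to `1`
  have hQ1 : ∀ z ∈ HP σ ρ, z ∈ Gd B δ → |z.re| ≤ W → ‖f z * (g z)⁻¹ - 1‖ ≤ ε' := by
    intro z hz hzG hzW
    obtain ⟨h1, h2, h3, h4, h5, h6, h7⟩ := hfg z hz hzG hzW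
    have hg0 := (hgan z hz (gd_notMem hδ hzG)).2.1
    have h8 : f z * (g z)⁻¹ - 1 = (f z - g z) * (g z)⁻¹ := by
      rw [sub_mul, mul_inv_cancel₀ hg0]
    rw [h8]
    exact hε'b _ _ h4 h7
  have hQ2 : ∀ z ∈ HP σ ρ, z ∈ Gd B δ → |z.re| ≤ W → ‖(1 - f z) * (1 - g z)⁻¹ - 1‖ ≤ ε' := by
    intro z hz hzG hzW
    obtain ⟨h1, h2, h3, h4, h5, h6, h7⟩ := hfg z hz hzG hzW
    have hg1 : 1 - g z ≠ 0 := sub_ne_zero.2 (hgan z hz (gd_notMem hδ hzG)).2.2.symm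
    have h8 : (1 - f z) * (1 - g z)⁻¹ - 1 = (g z - f z) * (1 - g z)⁻¹ := by
      have h9 : (1 - g z) * (1 - g z)⁻¹ = 1 := mul_inv_cancel₀ hg1
      linear_combination h9
    rw [h8]
    refine hε'b _ _ ?_ ?_
    · rwa [norm_sub_rev]
    · rwa [norm_sub_rev]
  have hM₀ : (1 / c) ≤ 1 + 1 / c := by linarith
  obtain ⟨J₁, ρ₁, M₁, k₁, hρ₁, hM₁, hJd₁, hJe₁, hJs₁, hJb₁⟩ := log_prod h hσ (X := f) (Y := fun z => (g z)⁻¹) (M₀ := 1 / c) hfm
    (fun z hz => (hgm z hz).inv) hfan (hinv g hgan) (fun z hz hzG hzW => (hfg z hz hzG hzW).2.1)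
    (fun z hz hzG hzW => hinvb _ (hfg z hz hzG hzW).2.2.2.1) (fun z hz hzG hzW => (hQ1 z hz hzG hzW).trans hε'2)
  obtain ⟨J₂, ρ₂, M₂, k₂, hρ₂, hM₂, hJd₂, hJe₂, hJs₂, hJb₂⟩ := log_prod h hσ (X := fun z => 1 - f z) (Y := fun z => (1 - g z)⁻¹) (M₀ := 1 + 1 / c)
    (fun z hz => (MeromorphicAt.const 1 z).sub (hfm z hz)) (fun z hz => ((MeromorphicAt.const 1 z).sub (hgm z hz)).inv) (hsubX f hfan)
    (hinv (fun z => 1 - g z) (hsubX g hgan)) (fun z hz hzG hzW => (norm_sub_le _ _).trans (by rw [norm_one]; linarith [(hfg z hz hzG hzW).2.1]))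
    (fun z hz hzG hzW => (hinvb _ (by rw [norm_sub_rev]; exact (hfg z hz hzG hzW).2.2.2.2.2.1)).trans hM₀)
    (fun z hz hzG hzW => (hQ2 z hz hzG hzW).trans hε'2)
  set ρ' : ℝ := max ρ₁ ρ₂ + 4 * δ with hρ'
  have hsub₁ : HP σ ρ' ⊆ HP σ ρ₁ := HP_anti (by rw [hρ']; linarith [le_max_left ρ₁ ρ₂])
  have hsub₂ : HP σ ρ' ⊆ HP σ ρ₂ := HP_anti (by rw [hρ']; linarith [le_max_right ρ₁ ρ₂])
  have hρρ' : ρ + 4 * δ ≤ ρ' := by rw [hρ']; linarith [le_max_left ρ₁ ρ₂]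
  have hsub : HP σ ρ' ⊆ HP σ ρ := HP_anti (by linarith)
  -- the zeros
  have hzero : ∀ l : ℤ, b₀ + p * l * Complex.I ∈ HP σ ρ' →
      J₁ (b₀ + p * l * Complex.I) * J₂ (b₀ + p * l * Complex.I) * (J₂ (b₀ + p * l * Complex.I) - J₁ (b₀ + p * l * Complex.I)) = 0 := by
    intro l hl
    set b : ℂ := b₀ + p * l * Complex.I with hb
    have hbC : b ∈ C := h.C_inv b₀ hb₀ l
    have hbB : b ∈ B := h.C_sub hbC
    have hbρ : b ∈ HP σ ρ := hsub hl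
    have hball : ball b (4 * δ) ⊆ HP σ ρ := HP_ball hσ (HP_anti hρρ' hl)
    have hbb : b ∈ ball b (4 * δ) := mem_ball_self (by positivity)
    have hbW := h.re_le hbB hbb
    have hJc₁ : ContinuousAt J₁ b := (hJd₁.differentiableAt ((isOpen_HP _ _).mem_nhds (hsub₁ hl))).continuousAt
    have hJc₂ : ContinuousAt J₂ b := (hJd₂.differentiableAt ((isOpen_HP _ _).mem_nhds (hsub₂ hl))).continuousAt
    have hev : ∀ᶠ z in 𝓝[≠] b, z ∉ B ∧ z ∈ HP σ ρ' := by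
      filter_upwards [h.punct hbB, nhdsWithin_le_nhds ((isOpen_HP _ _).mem_nhds hl)] with z hz1 hz2
      exact ⟨hz1, hz2⟩
    have he₁ : ∀ᶠ z in 𝓝[≠] b, Complex.exp (J₁ z) = f z * (g z)⁻¹ := hev.mono fun z hz => hJe₁ z (hsub₁ hz.2) hz.1
    have he₂ : ∀ᶠ z in 𝓝[≠] b, Complex.exp (J₂ z) = (1 - f z) * (1 - g z)⁻¹ := hev.mono fun z hz => hJe₂ z (hsub₂ hz.2) hz.1
    have hs₁ := hJs₁ b (hsub₁ hl) hbW
    have hs₂ := hJs₂ b (hsub₂ hl) hbW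
    -- the extension of the first quotient
    obtain ⟨H, hHd, hHQ, hH1⟩ := hole (Q := fun z => f z * (g z)⁻¹) hδ hε'2 (fun z hz hzb => by
        have h1 := hfan z (hball hz) (h.notMem hbB hz hzb)
        have h2 := hinv g hgan z (hball hz) (h.notMem hbB hz hzb)
        exact ⟨h1.1.mul h2.1, mul_ne_zero h1.2.1 h2.2.1⟩)
      ((hfm b hbρ).mul (hgm b hbρ).inv) (fun z hz1 hz2 => by
        have hz : z ∈ ball b (4 * δ) := by rwa [mem_ball, dist_eq_norm]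
        exact hQ1 z (hball hz) (h.mem_gd hbB hz hz1) (h.re_le hbB hz))
    have hHc : Tendsto H (𝓝[≠] b) (𝓝 (H b)) := (hHd.differentiableAt (isOpen_ball.mem_nhds hbb)).continuousAt.continuousWithinAt
    have hHev : ∀ᶠ z in 𝓝[≠] b, f z = H z * g z := by
      have h1 : ∀ᶠ z in 𝓝[≠] b, z ∈ ball b (4 * δ) := mem_nhdsWithin_of_mem_nhds (isOpen_ball.mem_nhds hbb)
      filter_upwards [h1, self_mem_nhdsWithin, hev] with z hz1 hz2 hz3
      rw [hHQ z hz1 hz2, inv_mul_cancel_right₀ (hgan z (hsub hz3.2) hz3.1).2.1]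
    have hQH : Tendsto (fun z => f z * (g z)⁻¹) (𝓝[≠] b) (𝓝 (H b)) := by
      refine hHc.congr' ?_
      have h1 : ∀ᶠ z in 𝓝[≠] b, z ∈ ball b (4 * δ) := mem_nhdsWithin_of_mem_nhds (isOpen_ball.mem_nhds hbb)
      filter_upwards [h1, self_mem_nhdsWithin] with z hz1 hz2
      exact hHQ z hz1 hz2
    rcases lt_or_ge (meromorphicOrderAt g b) 0 with ho | ho
    · -- pole
      have hgi : Tendsto (fun z => (g z)⁻¹) (𝓝[≠] b) (𝓝 0) := tendsto_inv₀_cobounded.comp (tendsto_cobounded_of_meromorphicOrderAt_neg ho)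
      have hH0 : H b ≠ 0 := by
        intro h0
        have h1 := hH1 b hbb
        rw [h0, zero_sub, norm_neg, norm_one] at h1
        linarith
      have h3 : Tendsto (fun z => ((g z)⁻¹ - H z) * (H z)⁻¹ * ((g z)⁻¹ - 1)⁻¹) (𝓝[≠] b) (𝓝 ((0 - H b) * (H b)⁻¹ * (0 - 1)⁻¹)) :=
        ((hgi.sub hHc).mul (hHc.inv₀ hH0)).mul ((hgi.sub_const 1).inv₀ (by norm_num))
      have h4 : (0 - H b) * (H b)⁻¹ * (0 - 1)⁻¹ = 1 := by
        rw [zero_sub, zero_sub, neg_mul, mul_inv_cancel₀ hH0]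
        norm_num
      rw [h4] at h3
      have hexp := exp_of_tendsto (J := fun z => J₂ z - J₁ z) (hJc₂.sub hJc₁) (Q := fun z => ((g z)⁻¹ - H z) * (H z)⁻¹ * ((g z)⁻¹ - 1)⁻¹) ?_ h3
      · have h5 : J₂ b - J₁ b = 0 := exp_zero hexp (by
          have := norm_sub_le (J₂ b) (J₁ b)
          linarith)
        rw [h5, mul_zero]
      · have hH0ev : ∀ᶠ z in 𝓝[≠] b, H z ≠ 0 := hHc.eventually_ne hH0
        filter_upwards [he₁, he₂, hHev, hev, hH0ev] with z h5 h6 h7 h8 h9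
        have hg0 := (hgan z (hsub h8.2) h8.1).2.1
        have hg1 : 1 - g z ≠ 0 := sub_ne_zero.2 (hgan z (hsub h8.2) h8.1).2.2.symm
        have hgi1 : (g z)⁻¹ - 1 ≠ 0 := by
          rw [sub_ne_zero]
          exact fun h10 => (hgan z (hsub h8.2) h8.1).2.2 (inv_eq_one.1 h10)
        show Complex.exp (J₂ z - J₁ z) = _
        rw [Complex.exp_sub, h5, h6, h7]
        have h10 : ((g z)⁻¹ - 1)⁻¹ = g z * (1 - g z)⁻¹ := by
          have h11 : (g z)⁻¹ - 1 = (1 - g z) * (g z)⁻¹ := by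
            rw [sub_mul, one_mul, mul_inv_cancel₀ hg0]
          rw [h11, mul_inv, inv_inv, mul_comm]
        rw [h10]
        field_simp
    · -- finite value
      obtain ⟨a, ha⟩ := tendsto_nhds_of_meromorphicOrderAt_nonneg (hgm b hbρ) ho
      have haA : a ∈ A := hgC b hbρ hbC a ha
      have hfa : Tendsto f (𝓝[≠] b) (𝓝 (H b * a)) := (hHc.mul ha).congr' (hHev.mono fun z hz => hz.symm)
      have hfaA : H b * a ∈ A := hfC b hbρ hbC _ hfa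
      have haa : H b * a = a := by
        refine hgap a haA _ hfaA ?_
        have h1 : H b * a - a = (H b - 1) * a := by ring
        rw [h1, norm_mul]
        exact mul_le_mul_of_nonneg_right ((hH1 b hbb).trans (min_le_left _ _)) (norm_nonneg _)
      by_cases ha0 : a = 0
      · have h1 : Tendsto (fun z => (1 - f z) * (1 - g z)⁻¹) (𝓝[≠] b) (𝓝 ((1 - H b * a) * (1 - a)⁻¹)) :=
          (hfa.const_sub 1).mul ((ha.const_sub 1).inv₀ (by rw [ha0, sub_zero]; exact one_ne_zero))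
        rw [ha0, mul_zero, sub_zero, inv_one, one_mul] at h1
        have h2 := exp_zero (exp_of_tendsto hJc₂ he₂ h1) (by linarith)
        rw [h2, mul_zero, zero_mul]
      · have h1 : H b = 1 := by
          have h2 : (H b - 1) * a = 0 := by linear_combination haa
          rcases mul_eq_zero.1 h2 with h3 | h3
          · exact sub_eq_zero.1 h3
          · exact absurd h3 ha0
        rw [h1] at hQH
        have h2 := exp_zero (exp_of_tendsto hJc₁ he₁ hQH) (by linarith)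
        rw [h2, zero_mul, zero_mul]
  have hJ0 := zero_hp (J := fun z => J₁ z * J₂ z * (J₂ z - J₁ z)) (a := b₀) (ρ := ρ') (M := M₁ * M₂ * (M₂ + M₁)) (k := k₁ + k₂ + (k₂ + k₁)) hσ hp
    (((hJd₁.mono hsub₁).mul (hJd₂.mono hsub₂)).mul ((hJd₂.mono hsub₂).sub (hJd₁.mono hsub₁))) (by positivity) (fun z hz => by
      have h1 := hJb₁ z (hsub₁ hz)
      have h2 := hJb₂ z (hsub₂ hz)
      have hz1 : (1 : ℝ) ≤ 1 + ‖z‖ := by linarith [norm_nonneg z]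
      have h3 : ‖J₂ z - J₁ z‖ ≤ (M₂ + M₁) * (1 + ‖z‖) ^ (k₂ + k₁) := by
        refine (norm_sub_le _ _).trans ?_
        have h4 : M₂ * (1 + ‖z‖) ^ k₂ ≤ M₂ * (1 + ‖z‖) ^ (k₂ + k₁) := mul_le_mul_of_nonneg_left (pow_le_pow_right₀ hz1 (Nat.le_add_right _ _)) hM₂
        have h5 : M₁ * (1 + ‖z‖) ^ k₁ ≤ M₁ * (1 + ‖z‖) ^ (k₂ + k₁) := mul_le_mul_of_nonneg_left (pow_le_pow_right₀ hz1 (Nat.le_add_left _ _)) hM₁
        linarith
      rw [norm_mul, norm_mul]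
      calc ‖J₁ z‖ * ‖J₂ z‖ * ‖J₂ z - J₁ z‖ ≤ M₁ * (1 + ‖z‖) ^ k₁ * (M₂ * (1 + ‖z‖) ^ k₂) * ((M₂ + M₁) * (1 + ‖z‖) ^ (k₂ + k₁)) := by gcongr
        _ = M₁ * M₂ * (M₂ + M₁) * (1 + ‖z‖) ^ (k₁ + k₂ + (k₂ + k₁)) := by
          rw [pow_add (1 + ‖z‖) (k₁ + k₂), pow_add (1 + ‖z‖) k₁ k₂]
          ring) hzero
  refine ⟨ρ', by linarith, fun z hz hzB => ?_⟩
  obtain ⟨h1, h2, h3⟩ := hfan z (hsub hz) hzB
  obtain ⟨h4, h5, h6⟩ := hgan z (hsub hz) hzB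
  have h7 : 1 - g z ≠ 0 := sub_ne_zero.2 h6.symm
  have e₁ := hJe₁ z (hsub₁ hz) hzB
  have e₂ := hJe₂ z (hsub₂ hz) hzB
  rcases mul_eq_zero.1 (hJ0 z hz) with h8 | h8
  · rcases mul_eq_zero.1 h8 with h9 | h9
    · rw [h9, Complex.exp_zero] at e₁
      rw [← mul_inv_eq_one₀ h5]
      exact e₁.symm
    · rw [h9, Complex.exp_zero] at e₂
      have h10 : 1 - f z = 1 - g z := by
        rw [← mul_inv_eq_one₀ h7]
        exact e₂.symm
      linear_combination -h10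
  · have h9 : J₂ z = J₁ z := sub_eq_zero.1 h8
    rw [h9, e₁] at e₂
    have h10 : f z * (1 - g z) = (1 - f z) * g z := by
      have h11 : f z * (g z)⁻¹ * (g z * (1 - g z)) = (1 - f z) * (1 - g z)⁻¹ * (g z * (1 - g z)) := by rw [e₂]
      have h12 : f z * (g z)⁻¹ * (g z * (1 - g z)) = f z * (1 - g z) := by
        field_simp
      have h13 : (1 - f z) * (1 - g z)⁻¹ * (g z * (1 - g z)) = (1 - f z) * g z := by
        field_simp
      rwa [h12, h13] at h11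
    linear_combination h10

end Pool.Agent.H62.LR

end
end
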