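import Pool.Agent.H94.CB.H4.LU.LimMod
import Pool.Agent.H94.CB.M210
import Pool.Agent.H94.CB.M216
import Pool.Agent.H94.CB.M217
import Pool.Agent.H94.CB.M218
import Pool.Agent.H94.CB.M219

/-! The parts of this file: H62.LR.Dyn, H62.LR.End, H4.LU.Fin, H4.LU.Caught, H46.LR.Main, H46.LR.Ph. -/

section

/-!
# LR Dyn: the members over `ℂ` and over half planes

* `hdyn`: the dynamical situation for the family `Sc`.
* `output`: the members over `ℂ` are finitely many periodic functions, the members over half planes are their restrictions.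
-/

set_option autoImplicit false

open Topology Filter Metric

noncomputable section

namespace Pool.Agent.H62.LR

attribute [-instance] ProperSMul.toContinuousSMul

open Pool.Agent.H62.EF (MN pr)
open Pool.Agent.H87.LU (Gd HP HDyn AgO isClosed_gd gd_notMem isOpen_HP convex_HP HP_anti)

variable {p : ℝ} {B : Set ℂ} {δ W : ℝ} {𝓛 : Set (ℂ → ℂ)} {C A : Set ℂ}

/-- sections are continuous at the points off `B` -/
theorem sec_cont (h : BaseD p B δ W 𝓛 C A) {s : ℂ → MN 1} (hs : s ∈ Sec 𝓛) {z : ℂ} (hz : z ∉ B) : ContinuousAt s z := by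
  rw [mem_sec] at hs
  rcases hs with rfl | rfl | rfl | ⟨L, hL, rfl⟩
  · exact continuousAt_const
  · exact continuousAt_const
  · exact continuousAt_const
  · exact continuous_kp.continuousAt.comp (h.L_an L hL z hz).1.continuousAt

/-- two different sections are apart from each other -/
theorem sec_dist (h : BaseD p B δ W 𝓛 C A) {s s' : ℂ → MN 1} (hs : s ∈ Sec 𝓛) (hs' : s' ∈ Sec 𝓛) (hne : s ≠ s') :
    ∃ d : ℝ, 0 < d ∧ ∀ z ∈ Gd B δ, |z.re| ≤ W → d < dist (s z) (s' z) := by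
  have hδ := h.δ_pos
  have hp1 : ∀ t ∈ Sec 𝓛, ∀ z, t (z + p * Complex.I) = t z := fun t ht z => by
    have h1 := sec_add h ht 1 z
    rwa [Int.cast_one, mul_one] at h1
  obtain ⟨d, hd, hd'⟩ := strip_pos h (G := fun z => dist (s z) (s' z)) (fun z => by simp only [hp1 s hs z, hp1 s' hs' z])
    (fun z hz _ => (sec_cont h hs (gd_notMem hδ hz)).dist (sec_cont h hs' (gd_notMem hδ hz))) (fun z hz _ => dist_pos.2 fun he =>
      hne (sec_eq h hs hs' (gd_notMem hδ hz) he))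
  exact ⟨d / 2, by positivity, fun z hz hzW => by linarith [hd' z hz hzW]⟩

/-- a member of `Sc` which is away from the sections is a function in `Tm` -/
theorem tm_of_away (h : BaseD p B δ W 𝓛 C A) {σ ρ d : ℝ} (hσ : σ = 1 ∨ σ = -1) (hd : 0 < d) {y : ℂ → MN 1} (hy : y ∈ Sc B 𝓛 C A (HP σ ρ))
    (ha : ∀ z ∈ HP σ ρ, z ∈ Gd B δ → |z.re| ≤ W → ∀ s ∈ Sec 𝓛, d ≤ dist (y z) (s z)) :
    ∃ f ∈ Tm B 𝓛 C A (HP σ ρ), ∀ z ∈ HP σ ρ, z ∉ B → y z = kp (f z) := by
  rcases hy with ⟨s, hs, hy⟩ | hy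
  · exfalso
    obtain ⟨z, hz, hzG, hzW, hzB⟩ := exists_good h hσ ρ
    have h1 := ha z hz hzG hzW s hs
    rw [hy z hz hzB, dist_self] at h1
    linarith
  · exact hy

/-- the dynamical situation, from the two statements on half planes -/
theorem hdyn_of (h : BaseD p B δ W 𝓛 C A)
    (LA : ∀ s ∈ Sec 𝓛, ∃ d : ℝ, 0 < d ∧ ∀ σ ρ : ℝ, (σ = 1 ∨ σ = -1) → ∀ f ∈ Tm B 𝓛 C A (HP σ ρ),
      ¬ ∀ z ∈ HP σ ρ, z ∈ Gd B δ → |z.re| ≤ W → dist (kp (f z)) (s z) ≤ d)
    (LH : ∀ c : ℝ, 0 < c → ∃ ε : ℝ, 0 < ε ∧ ∀ σ ρ : ℝ, (σ = 1 ∨ σ = -1) → ∀ f ∈ Tm B 𝓛 C A (HP σ ρ), ∀ g ∈ Tm B 𝓛 C A (HP σ ρ),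
      (∀ z ∈ HP σ ρ, z ∈ Gd B δ → |z.re| ≤ W → c ≤ ‖f z‖ ∧ ‖f z‖ ≤ 1 / c ∧ c ≤ ‖f z - 1‖ ∧ (∀ L ∈ 𝓛, c ≤ ‖f z - L z‖) ∧
        c ≤ ‖g z‖ ∧ ‖g z‖ ≤ 1 / c ∧ c ≤ ‖g z - 1‖ ∧ (∀ L ∈ 𝓛, c ≤ ‖g z - L z‖) ∧ ‖f z - g z‖ ≤ ε) →
      ∃ ρ' : ℝ, ρ ≤ ρ' ∧ ∀ z ∈ HP σ ρ', z ∉ B → f z = g z) :
    HDyn (closedBall (0 : MN 1) 1) p B δ W (Sc B 𝓛 C A) := by
  have hδ := h.δ_pos
  have hd := hd0 h
  have hfin := sec_finite h
  -- a common constant for LA
  have hLA : ∃ d : ℝ, 0 < d ∧ (∀ s ∈ Sec 𝓛, ∀ s' ∈ Sec 𝓛, s ≠ s' → ∀ z ∈ Gd B δ, |z.re| ≤ W → d < dist (s z) (s' z)) ∧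
      ∀ s ∈ Sec 𝓛, ∀ σ ρ : ℝ, (σ = 1 ∨ σ = -1) → ∀ f ∈ Tm B 𝓛 C A (HP σ ρ),
        ¬ ∀ z ∈ HP σ ρ, z ∈ Gd B δ → |z.re| ≤ W → dist (kp (f z)) (s z) ≤ d := by
    have h1 : ∀ᶠ d : ℝ in 𝓝[>] 0, ∀ s ∈ Sec 𝓛, ∀ s' ∈ Sec 𝓛, s ≠ s' → ∀ z ∈ Gd B δ, |z.re| ≤ W → d < dist (s z) (s' z) := by
      rw [Filter.eventually_all_finite hfin]
      intro s hs
      rw [Filter.eventually_all_finite hfin]
      intro s' hs'
      by_cases hne : s = s'
      · exact Eventually.of_forall fun _ h2 => absurd hne h2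
      · obtain ⟨d, hd1, hd2⟩ := sec_dist h hs hs' hne
        filter_upwards [nhdsWithin_le_nhds (Iio_mem_nhds hd1)] with e he _ z hz hzW
        have he' : e < d := he
        linarith [hd2 z hz hzW]
    have h2 : ∀ᶠ d : ℝ in 𝓝[>] 0, ∀ s ∈ Sec 𝓛, ∀ σ ρ : ℝ, (σ = 1 ∨ σ = -1) → ∀ f ∈ Tm B 𝓛 C A (HP σ ρ),
        ¬ ∀ z ∈ HP σ ρ, z ∈ Gd B δ → |z.re| ≤ W → dist (kp (f z)) (s z) ≤ d := by
      rw [Filter.eventually_all_finite hfin]
      intro s hs
      obtain ⟨d, hd1, hd2⟩ := LA s hs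
      filter_upwards [nhdsWithin_le_nhds (Iio_mem_nhds hd1)] with e he σ ρ hσ f hf hcl
      have he' : e < d := he
      exact hd2 σ ρ hσ f hf fun z hz hzG hzW => (hcl z hz hzG hzW).trans he'.le
    obtain ⟨d, hd1, hd2, hd3⟩ := (h1.and (h2.and self_mem_nhdsWithin)).exists
    exact ⟨d, hd3, hd1, hd2⟩
  obtain ⟨d₁, hd₁, hsec, hLA'⟩ := hLA
  refine half_of hd (Sec 𝓛) hfin (fun s hs => Or.inl ⟨s, hs, fun _ _ _ => rfl⟩) (fun s hs z => by
      have h1 := sec_add h hs 1 z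
      rwa [Int.cast_one, mul_one] at h1) (fun f hf s hs z hz he => disj h hf hs (Set.mem_univ z) hz he) ⟨d₁, hd₁, ?_⟩ ?_
  · intro σ ρ hσ y hy s hs hcl
    rcases hy with ⟨s', hs', hy⟩ | ⟨f, hf, hy⟩
    · by_cases hne : s' = s
      · rw [← hne]
        exact hy
      · exfalso
        obtain ⟨z, hz, hzG, hzW, hzB⟩ := exists_good h hσ ρ
        have h1 := hcl z hz hzG hzW
        rw [hy z hz hzB] at h1
        exact absurd (hsec s' hs' s hs hne z hzG hzW) (not_lt.2 h1)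
    · exfalso
      refine hLA' s hs σ ρ hσ f hf fun z hz hzG hzW => ?_
      rw [← hy z hz (gd_notMem hδ hzG)]
      exact hcl z hz hzG hzW
  · intro δ₀ hδ₀
    have hinf : (fun _ : ℂ => kinf) ∈ Sec 𝓛 := mem_sec.2 (Or.inl rfl)
    have h0 : (fun _ : ℂ => kp 0) ∈ Sec 𝓛 := mem_sec.2 (Or.inr (Or.inl rfl))
    have h1 : (fun _ : ℂ => kp 1) ∈ Sec 𝓛 := mem_sec.2 (Or.inr (Or.inr (Or.inl rfl)))
    have hc : 0 < δ₀ / 2 := by positivity
    obtain ⟨ε, hε, hLH⟩ := LH (δ₀ / 2) hc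
    obtain ⟨e, he, he'⟩ := Cho.close_of_dist (1 / (δ₀ / 2)) hε
    refine ⟨e, he, fun σ ρ hσ y hy y' hy' hcl => ?_⟩
    obtain ⟨f, hf, hyf⟩ := tm_of_away h hσ hδ₀ hy fun z hz hzG hzW s hs => ((hcl z hz hzG hzW).1 s hs).1
    obtain ⟨g, hg, hyg⟩ := tm_of_away h hσ hδ₀ hy' fun z hz hzG hzW s hs => ((hcl z hz hzG hzW).1 s hs).2
    have key : ∀ (u : ℂ → ℂ) (w : ℂ → MN 1), u ∈ Tm B 𝓛 C A (HP σ ρ) → (∀ z ∈ HP σ ρ, z ∉ B → w z = kp (u z)) → ∀ z ∈ HP σ ρ, z ∈ Gd B δ → |z.re| ≤ W →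
        (∀ s ∈ Sec 𝓛, δ₀ ≤ dist (w z) (s z)) →
        δ₀ / 2 ≤ ‖u z‖ ∧ ‖u z‖ ≤ 1 / (δ₀ / 2) ∧ δ₀ / 2 ≤ ‖u z - 1‖ ∧ ∀ L ∈ 𝓛, δ₀ / 2 ≤ ‖u z - L z‖ := by
      intro u w hu hwu z hz hzG hzW haw
      have hzB := gd_notMem hδ hzG
      rw [hwu z hz hzB] at haw
      refine ⟨?_, ?_, ?_, fun L hL => ?_⟩
      · have h2 := (haw _ h0).trans (Cho.dist_le (u z) 0)
        rw [sub_zero] at h2
        linarith
      · have hu0 : u z ≠ 0 := (hu.2.1 z hz hzB).2.1
        have h2 := (haw _ hinf).trans (Cho.dist_inf_le hu0)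
        have h3 : 0 < ‖u z‖ := norm_pos_iff.2 hu0
        rw [le_div_iff₀ h3] at h2
        rw [le_div_iff₀ hc]
        linarith
      · have h2 := (haw _ h1).trans (Cho.dist_le (u z) 1)
        linarith
      · have h2 := (haw _ (mem_sec.2 (Or.inr (Or.inr (Or.inr ⟨L, hL, rfl⟩))))).trans (Cho.dist_le (u z) (L z))
        linarith
    obtain ⟨ρ', hρ', hag⟩ := hLH σ ρ hσ f hf g hg fun z hz hzG hzW => by
      obtain ⟨h2, h3⟩ := hcl z hz hzG hzW
      obtain ⟨h4, h5, h6, h7⟩ := key f y hf hyf z hz hzG hzW fun s hs => (h2 s hs).1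
      obtain ⟨h8, h9, h10, h11⟩ := key g y' hg hyg z hz hzG hzW fun s hs => (h2 s hs).2
      refine ⟨h4, h5, h6, h7, h8, h9, h10, h11, he' _ _ h9 ?_⟩
      rw [← hyf z hz (gd_notMem hδ hzG), ← hyg z hz (gd_notMem hδ hzG)]
      exact h3
    refine hd.ag_of_HP (isOpen_HP _ _) (convex_HP _ _) hy hy' hσ (HP_anti hρ') fun z hz hzB => ?_
    have hz' : z ∈ HP σ ρ := HP_anti hρ' hz
    rw [hyf z hz' hzB, hyg z hz' hzB, hag z hz hzB]

/-- the dynamical situation -/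
theorem hdyn (h : BaseD p B δ W 𝓛 C A) (hNI : (C = ∅ ∧ ∃ L ∈ 𝓛, ∃ b₀ ∈ B, AnalyticAt ℂ L b₀ ∧ L b₀ = 1) ∨ (𝓛 = ∅ ∧ C.Nonempty)) :
    HDyn (closedBall (0 : MN 1) 1) p B δ W (Sc B 𝓛 C A) := by
  rcases hNI with ⟨hC, L, hL, b₀, hb₀, hLa, hL1⟩ | ⟨h𝓛, b₀, hb₀⟩
  · subst hC
    refine hdyn_of h (fun s hs => ?_) (fun c hc => ?_)
    · obtain ⟨ε, hε, hla⟩ := la_N h hL hb₀ hLa hL1
      obtain ⟨d, hd, hnear⟩ := near_N h hL hs hε
      refine ⟨d, hd, fun σ ρ hσ f hf hcl => ?_⟩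
      obtain ⟨g, hg, hgn⟩ := hnear _ f hf
      exact hla σ ρ hσ g hg fun z hz hzG hzW => hgn z hz hzG hzW (hcl z hz hzG hzW)
    · obtain ⟨ε, hε, hlh⟩ := lh_N h hL hb₀ hLa hL1 hc
      refine ⟨ε, hε, fun σ ρ hσ f hf g hg hcl => hlh σ ρ hσ f hf g hg fun z hz hzG hzW => ?_⟩
      obtain ⟨h1, h2, h3, h4, h5, h6, h7, h8, h9⟩ := hcl z hz hzG hzW
      exact ⟨h1, h2, h3, h4 L hL, h5, h6, h7, h8 L hL, h9⟩
  · subst h𝓛
    refine hdyn_of h (fun s hs => ?_) (fun c hc => ?_)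
    · obtain ⟨A', hA', hnear⟩ := near_I h hs
      obtain ⟨ε, hε, hla⟩ := la_I hA' hb₀
      obtain ⟨d, hd, hnear'⟩ := hnear ε hε
      refine ⟨d, hd, fun σ ρ hσ f hf hcl => ?_⟩
      obtain ⟨g, hg, hgn⟩ := hnear' _ f hf
      exact hla σ ρ hσ g hg fun z hz hzG hzW => hgn z hz hzG hzW (hcl z hz hzG hzW)
    · obtain ⟨ε, hε, hlh⟩ := lh_I h hb₀ hc
      refine ⟨ε, hε, fun σ ρ hσ f hf g hg hcl => hlh σ ρ hσ f hf g hg fun z hz hzG hzW => ?_⟩
      obtain ⟨h1, h2, h3, h4, h5, h6, h7, h8, h9⟩ := hcl z hz hzG hzW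
      exact ⟨h1, h2, h3, h5, h6, h7, h9⟩

/-- **The output.** -/
theorem output (h : BaseD p B δ W 𝓛 C A) (hNI : (C = ∅ ∧ ∃ L ∈ 𝓛, ∃ b₀ ∈ B, AnalyticAt ℂ L b₀ ∧ L b₀ = 1) ∨ (𝓛 = ∅ ∧ C.Nonempty)) :
    ∃ (q : ℕ) (𝓕 : Set (ℂ → ℂ)), 1 ≤ q ∧ 𝓕.Finite ∧ 𝓕 ⊆ Tm B 𝓛 C A Set.univ ∧
      (∀ f ∈ Tm B 𝓛 C A Set.univ, ∃ g ∈ 𝓕, ∀ z, z ∉ B → f z = g z) ∧
      (∀ σ ρ : ℝ, σ = 1 ∨ σ = -1 → ∀ f ∈ Tm B 𝓛 C A (HP σ ρ), ∃ g ∈ 𝓕, ∀ z ∈ HP σ ρ, z ∉ B → f z = g z) ∧
      ∀ f ∈ 𝓕, ∀ z, z ∉ B → f (z + p * q * Complex.I) = f z := by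
  classical
  have H := hdyn h hNI
  obtain ⟨𝓖, hfin, hsub, hcov⟩ := H.finite
  -- choose functions
  have hch : ∀ y : ℂ → MN 1, ∃ f : ℂ → ℂ, (∃ g ∈ Tm B 𝓛 C A Set.univ, ∀ z, z ∉ B → y z = kp (g z)) →
      f ∈ Tm B 𝓛 C A Set.univ ∧ ∀ z, z ∉ B → y z = kp (f z) := by
    intro y
    by_cases h1 : ∃ g ∈ Tm B 𝓛 C A Set.univ, ∀ z, z ∉ B → y z = kp (g z)
    · obtain ⟨g, hg, hg'⟩ := h1
      exact ⟨g, fun _ => ⟨hg, hg'⟩⟩
    · exact ⟨fun _ => 0, fun h2 => absurd h2 h1⟩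
  choose Φ hΦ using hch
  set 𝓖' : Set (ℂ → MN 1) := {y | y ∈ 𝓖 ∧ ∃ g ∈ Tm B 𝓛 C A Set.univ, ∀ z, z ∉ B → y z = kp (g z)} with h𝓖'
  have hfin' : 𝓖'.Finite := hfin.subset fun y hy => hy.1
  have huniv : ∀ f ∈ Tm B 𝓛 C A Set.univ, ∃ g ∈ Φ '' 𝓖', ∀ z, z ∉ B → f z = g z := by
    intro f hf
    obtain ⟨y, hy, hag⟩ := hcov (fun z => kp (f z)) (Or.inr ⟨f, hf, fun _ _ _ => rfl⟩)
    have h1 : ∃ g ∈ Tm B 𝓛 C A Set.univ, ∀ z, z ∉ B → y z = kp (g z) := ⟨f, hf, fun z hz => (hag z (Set.mem_univ z) hz).symm⟩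
    refine ⟨Φ y, ⟨y, ⟨hy, h1⟩, rfl⟩, fun z hz => ?_⟩
    have h2 := (hΦ y h1).2 z hz
    have h3 : kp (f z) = y z := hag z (Set.mem_univ z) hz
    exact kp_inj.1 (h3.trans h2)
  -- periods
  have hper : ∀ y ∈ 𝓖', ∃ q : ℕ, 1 ≤ q ∧ ∀ z, z ∉ B → y (z + p * q * Complex.I) = y z := fun y hy => H.period (hsub hy.1)
  choose! Q hQ1 hQ using hper
  set q : ℕ := ∏ y ∈ hfin'.toFinset, Q y with hq
  have hq1 : 1 ≤ q := Nat.one_le_iff_ne_zero.2 (Finset.prod_ne_zero_iff.2 fun y hy => by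
    have := hQ1 y (hfin'.mem_toFinset.1 hy)
    omega)
  refine ⟨q, Φ '' 𝓖', hq1, hfin'.image _, ?_, huniv, fun σ ρ hσ f hf => ?_, ?_⟩
  · rintro _ ⟨y, hy, rfl⟩
    exact (hΦ y hy.2).1
  · obtain ⟨G, hG, hag⟩ := H.arm hσ (f := fun z => kp (f z)) (Or.inr ⟨f, hf, fun _ _ _ => rfl⟩)
    rcases hG with ⟨s, hs, hGs⟩ | ⟨g, hg, hGg⟩
    · exfalso
      obtain ⟨z, hz, -, -, hzB⟩ := exists_good h hσ ρ
      have h1 : kp (f z) = G z := hag z hz hzB
      rw [hGs z (Set.mem_univ z) hzB] at h1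
      exact tm_ne hf hs hz hzB h1
    · obtain ⟨g', hg', hgg⟩ := huniv g hg
      refine ⟨g', hg', fun z hz hzB => ?_⟩
      have h1 : kp (f z) = G z := hag z hz hzB
      rw [hGg z (Set.mem_univ z) hzB] at h1
      rw [kp_inj.1 h1, hgg z hzB]
  · rintro _ ⟨y, hy, rfl⟩ z hz
    obtain ⟨k, hk⟩ : Q y ∣ q := Finset.dvd_prod_of_mem Q (hfin'.mem_toFinset.2 hy)
    have hstep : ∀ n : ℕ, ∀ z, z ∉ B → y (z + p * ((Q y * n : ℕ) : ℂ) * Complex.I) = y z := by
      intro n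
      induction n with
      | zero =>
        intro z _
        simp
      | succ n ih =>
        intro z hz
        have h1 : z + p * ((Q y * (n + 1) : ℕ) : ℂ) * Complex.I = (z + p * ((Q y * n : ℕ) : ℂ) * Complex.I) + p * (Q y : ℂ) * Complex.I := by
          push_cast
          ring
        have h2 : z + p * ((Q y * n : ℕ) : ℂ) * Complex.I ∉ B := by
          intro hB
          apply hz
          have h3 := B_add h (b := z) ((Q y * n : ℕ) : ℤ)
          rw [Int.cast_natCast] at h3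
          exact h3.1 hB
        rw [h1, hQ y hy _ h2, ih z hz]
    have hzB' : z + p * (q : ℂ) * Complex.I ∉ B := by
      intro hB
      apply hz
      have h3 := B_add h (b := z) ((q : ℕ) : ℤ)
      rw [Int.cast_natCast] at h3
      exact h3.1 hB
    have h1 := hstep k z hz
    rw [← hk] at h1
    have h2 := (hΦ y hy.2).2
    rw [h2 _ hzB', h2 z hz] at h1
    exact kp_inj.1 h1

end Pool.Agent.H62.LR

end
end

section

/-!
# LR End: the one-variable part of the project LOG-R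

`mainN`, `mainI`: the statements of helper46's interface file, from `output` (the members of the families are finitely many periodic functions and their restrictions) and helper41's reductions.
-/

set_option autoImplicit false

noncomputable section

namespace Pool.Agent.H62.LR

attribute [-instance] ProperSMul.toContinuousSMul

open Pool.Agent.H46.LR

theorem mainN : MainN :=
  Pool.Agent.H41.LR.mainN_of fun _ _ _ _ _ _ h hNI => output h hNI

theorem mainI : MainI :=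
  Pool.Agent.H41.LR.mainI_of fun _ _ _ _ _ _ h hNI => output h hNI

end Pool.Agent.H62.LR

end
end

section

/-!
# LU Fin: the last step

* `Caught`: near some point the curve `f` is over finitely many values of `e`, or on finitely many rational curves.
* `exists_form_of_caught`: all these curves are in a proper closed subset of `X`.
* `ggl_of_caught`: the four properties.
-/

set_option autoImplicit false

open Topology Filter MvPolynomial Metric

noncomputable section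

namespace Pool.Agent.H4.LU

attribute [-instance] ProperSMul.toContinuousSMul

open Pool.Agent.H17 (PN VanishesAt ZariskiClosedIn HolomorphicInto puncturedDisc vanishesAt_mk_iff)
open Pool.Agent.H62.FC (Homog)
open Pool.Agent.H17LG.Variety (FunField IsLogGeneralType)
open Pool.Agent.H13.SM (conTan cone)
open Pool.Agent.H13.OT (OrderTwo)
open Pool.Agent.H14.KB (KobayashiHyperbolicModulo)
open Pool.Agent.H62.SA (locVar OnBd)
open Pool.Agent.H7.Bir (GGLOpen mem_of_open)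
open Pool.Agent.H36.LB (IsLimitPN LimModPN IsCurveComplement)

variable {M N : ℕ}

/-- Near some point of `ℂ` the curve `f` is in `U`, and at its points `e ∘ j` has one of the finitely many values in `B₀`, or is undefined as a quotient of forms,
or `j` has its value on one of the curves `w ↦ [p i 0 (w), …, p i M (w)]`. -/
def Caught (P : Ideal (MvPolynomial (Fin (N + 1)) ℂ)) {s : ℕ} (G : Fin s → MvPolynomial (Fin (N + 1)) ℂ) (e : PN M → ℂ) (j : PN N → PN M)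
    (B : MvPolynomial (Fin (N + 1)) ℂ) (B₀ : Set ℂ) {ι : Type} (p : ι → Fin (M + 1) → Polynomial ℂ) (f : ℂ → PN N) : Prop :=
  ∃ z₀ : ℂ, ∃ᶠ z in 𝓝[≠] z₀, f z ∈ locVar P G ∧ (e (j (f z)) ∈ B₀ ∨ VanishesAt B (f z) ∨
    ∃ (i : ι) (w : ℂ) (h : (fun a => (p i a).eval w) ≠ 0), j (f z) = Projectivization.mk ℂ _ h)

/-- identity theorem -/
theorem vanishes_of_frequently {Q : MvPolynomial (Fin (N + 1)) ℂ} {D : ℕ} (hQ : Q.IsHomogeneous D) {f : ℂ → PN N} (hf : HolomorphicInto f Set.univ)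
    {z₀ : ℂ} (h : ∃ᶠ z in 𝓝[≠] z₀, VanishesAt Q (f z)) (z : ℂ) : VanishesAt Q (f z) := by
  obtain ⟨φ, hφ, he⟩ := hf z₀ (Set.mem_univ _)
  have h1 : AnalyticAt ℂ (fun z => eval (φ z) Q) z₀ := analyticAt_form Q hφ
  have h2 : ∃ᶠ z in 𝓝[≠] z₀, eval (φ z) Q = 0 := by
    refine (h.and_eventually (he.filter_mono nhdsWithin_le_nhds)).mono ?_
    rintro z ⟨h3, h4, h5⟩
    rwa [h5, vanishesAt_mk_iff hQ _ h4] at h3
  have h3 : ∀ᶠ z in 𝓝 z₀, eval (φ z) Q = 0 := h1.frequently_zero_iff_eventually_zero.1 h2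
  have h4 : ∀ᶠ w in 𝓝 z₀, ∀ R ∈ ({Q} : Set (MvPolynomial (Fin (N + 1)) ℂ)), VanishesAt R (f w) := by
    filter_upwards [h3, he] with w h5 h6 R hR
    obtain ⟨h7, h8⟩ := h6
    rw [Set.mem_singleton_iff.1 hR, h8, vanishesAt_mk_iff hQ _ h7]
    exact h5
  exact Pool.Agent.H36.BP.vanish_identity isPreconnected_univ hf (fun R hR => ⟨D, (Set.mem_singleton_iff.1 hR) ▸ hQ⟩) (Set.mem_univ _) h4 z
    (Set.mem_univ _) Q rfl

/-- All curves which are caught lie in a proper closed subset. -/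
theorem exists_form_of_caught {P : Ideal (MvPolynomial (Fin (N + 1)) ℂ)} [hPp : P.IsPrime] (hP : Homog P) {z : Fin 2 → FunField P}
    (hz : IsTranscendenceBasis ℂ z) (hsm : ∀ y ∈ cone P, Module.finrank ℂ (conTan P y) ≤ 3) {s : ℕ} {G : Fin s → MvPolynomial (Fin (N + 1)) ℂ}
    (hG : ∀ m, ∃ n, (G m).IsHomogeneous n) (hne : (locVar P G).Nonempty) {V : Set (PN M)} {e : PN M → ℂ} {j : PN N → PN M}
    (hmaps : ∀ x ∈ locVar P G, j x ∈ V)
    (hinj : ∀ x ∈ locVar P G, ∀ x' ∈ locVar P G, j x = j x' → x = x')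
    (hreg : ∀ (x : Fin (N + 1) → ℂ) (hx : x ≠ 0), Projectivization.mk ℂ x hx ∈ locVar P G →
      ∃ (D : ℕ) (γ : Fin (M + 1) → MvPolynomial (Fin (N + 1)) ℂ), (∀ i, (γ i).IsHomogeneous D) ∧ Pool.Agent.H7.Bir.vals γ x ≠ 0 ∧
        ∀ (x' : Fin (N + 1) → ℂ) (hx' : x' ≠ 0) (h : Pool.Agent.H7.Bir.vals γ x' ≠ 0), Projectivization.mk ℂ x' hx' ∈ locVar P G →
          j (Projectivization.mk ℂ x' hx') = Projectivization.mk ℂ (Pool.Agent.H7.Bir.vals γ x') h)
    {D : ℕ} {A B : MvPolynomial (Fin (N + 1)) ℂ} (hA : A.IsHomogeneous D) (hB : B.IsHomogeneous D) (hAB : ∀ c : ℂ, A - C c * B ∉ P) (hBP : B ∉ P)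
    (heq : ∀ x ∈ locVar P G, e (j x) * eval x.rep B = eval x.rep A)
    {ι : Type} [Finite ι] (p : ι → Fin (M + 1) → Polynomial ℂ) {B₀ : Set ℂ} (hB₀ : B₀.Finite) :
    ∃ (n : ℕ) (Q : MvPolynomial (Fin (N + 1)) ℂ), Q.IsHomogeneous n ∧ Q ∉ P ∧
      ∀ f : ℂ → PN N, HolomorphicInto f Set.univ → Caught P G e j B B₀ p f → ∀ z, VanishesAt Q (f z) := by
  classical
  haveI := Fintype.ofFinite ι
  choose d R hR hRP hRv using fun i => exists_form_of_rational hP hz hsm hG hne hinj hreg (p i)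
  have hAc : ∀ c : ℂ, (A - C c * B).IsHomogeneous D := by
    intro c
    have h1 := (isHomogeneous_C (Fin (N + 1)) c).mul hB
    rw [zero_add] at h1
    exact hA.sub h1
  let S := hB₀.toFinset
  refine ⟨_, (∏ i, R i) * ((∏ c ∈ S, (A - C c * B)) * B), (IsHomogeneous.prod _ _ _ fun i _ => hR i).mul
    ((IsHomogeneous.prod _ _ _ fun c _ => hAc c).mul hB), ?_, ?_⟩
  · intro h
    rcases hPp.mem_or_mem h with h1 | h1
    · obtain ⟨i, -, hi⟩ := (Ideal.IsPrime.prod_mem_iff (s := Finset.univ)).1 h1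
      exact hRP i hi
    · rcases hPp.mem_or_mem h1 with h2 | h2
      · obtain ⟨c, -, hc⟩ := (Ideal.IsPrime.prod_mem_iff (s := S)).1 h2
        exact hAB c hc
      · exact hBP h2
  · rintro f hf ⟨z₀, hfr⟩
    refine vanishes_of_frequently ((IsHomogeneous.prod _ _ _ fun i _ => hR i).mul
      ((IsHomogeneous.prod _ _ _ fun c _ => hAc c).mul hB)) hf (hfr.mono ?_)
    rintro z ⟨hzU, h1 | h1 | ⟨i, w, h, h1⟩⟩
    · unfold VanishesAt
      rw [map_mul, map_mul, map_prod (eval (f z).rep) _ S]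
      have h2 := heq _ hzU
      have h3 : eval (f z).rep (A - C (e (j (f z))) * B) = 0 := by
        rw [map_sub, map_mul, eval_C, h2, sub_self]
      rw [Finset.prod_eq_zero (i := e (j (f z))) (hB₀.mem_toFinset.2 h1) h3]
      ring
    · unfold VanishesAt at h1 ⊢
      rw [map_mul, map_mul, h1]
      ring
    · have h2 := hRv i (f z) hzU ⟨w, h, h1⟩
      unfold VanishesAt at h2 ⊢
      rw [map_mul, map_prod, Finset.prod_eq_zero (Finset.mem_univ i) h2]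
      ring

/-- **The last step.** -/
theorem ggl_of_caught {P : Ideal (MvPolynomial (Fin (N + 1)) ℂ)} [hPp : P.IsPrime] (hP : Homog P) {z : Fin 2 → FunField P}
    (hz : IsTranscendenceBasis ℂ z) (hsm : ∀ y : Fin (N + 1) → ℂ, y ≠ 0 → (∀ Q ∈ P, eval y Q = 0) → Module.finrank ℂ (conTan P y) ≤ 3)
    {s : ℕ} {G : Fin s → MvPolynomial (Fin (N + 1)) ℂ}
    (hG : ∀ m, ∃ n, (G m).IsHomogeneous n) (hne : (locVar P G).Nonempty) (hO : IsCurveComplement P G)
    (hgt : IsLogGeneralType (K := FunField P) (k := 2) (OnBd P G)) {V : Set (PN M)} {e : PN M → ℂ} {j : PN N → PN M}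
    (hj : IsRegularInto P G V e j) {ι : Type} [Finite ι] (p : ι → Fin (M + 1) → Polynomial ℂ) {B₀ : Set ℂ} (hB₀ : B₀.Finite)
    (hc : ∀ (A B : MvPolynomial (Fin (N + 1)) ℂ) (D : ℕ), A.IsHomogeneous D → B.IsHomogeneous D → (∀ c : ℂ, A - C c * B ∉ P) → B ∉ P →
      (∀ x ∈ locVar P G, e (j x) * eval x.rep B = eval x.rep A) →
      ∀ (l : Filter ℕ) (F : ℕ → ℂ → PN N) (f : ℂ → PN N), IsLimitPN (locVar P G) l F f → OrderTwo f → (∃ z w, f z ≠ f w) →
        Caught P G e j B B₀ p f) :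
    ∃ Ξ : Set (PN N), GGLOpen P G Ξ ∧ ∃ (Q : MvPolynomial (Fin (N + 1)) ℂ) (D : ℕ), Q.IsHomogeneous D ∧
      (∃ x ∈ locVar P G, ¬ VanishesAt Q x) ∧ (∀ x, x ∈ Ξ ↔ x ∈ locVar P G ∧ VanishesAt Q x) ∧ KobayashiHyperbolicModulo (locVar P G) Q D := by
  obtain ⟨D, A, B, hA, hB, hAB, hBP, heq⟩ := hj.rational
  obtain ⟨n, Q₀, hQ₀, hQ₀P, hQ₀v⟩ := exists_form_of_caught hP hz (fun y hy => hsm y hy.1 hy.2) hG hne hj.maps hj.inj hj.regular hA hB hAB hBP heq p hB₀
  exact ggl_of_limMod hP hz hsm hG hne hO hgt hQ₀ hQ₀P fun l F f hf hord hn z hzU =>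
    ⟨hzU, hQ₀v f hf.hol (hc A B D hA hB hAB hBP heq l F f hf hord hn) z⟩

end Pool.Agent.H4.LU

end
end

section

/-!
# LU Caught: all limit curves of order two are caught

* `comp_identity`: if `J z = f (φ z)` near one point, then it is true outside `φ⁻¹ B`.
* `poly_of_out`: a member of the finite list which comes from a limit curve is given by polynomials in `exp (z / q)`.
* `caught_of_out`: the result.
-/

set_option autoImplicit false

open Topology Filter MvPolynomial Metric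

noncomputable section

namespace Pool.Agent.H4.LU

attribute [-instance] ProperSMul.toContinuousSMul

open Pool.Agent.H17 (PN VanishesAt HolomorphicInto vanishesAt_mk_iff)
open Pool.Agent.H62.SA (locVar)
open Pool.Agent.H7.Per (prP per)
open Pool.Agent.H7.Bir (vals rmap exists_comp pn_identity)
open Pool.Agent.H36.LB (ConvPN IsLimitPN)
open Pool.Agent.H13.OT (OrderTwo)

variable {M N : ℕ}

/-- a discrete set is countable -/
theorem countable_of_discrete {B : Set ℂ} (hB : ∀ z, ∀ᶠ w in 𝓝[≠] z, w ∉ B) : B.Countable := by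
  have h1 : DiscreteTopology B := by
    rw [discreteTopology_subtype_iff]
    intro x _
    have h2 := hB x
    rw [← disjoint_iff, Filter.disjoint_principal_right]
    exact h2
  exact Set.countable_coe_iff.1 (countable_of_Lindelof_of_discrete (X := B))

/-- the preimage of a countable set under a polynomial of degree one or two is countable -/
theorem countable_preimage {a b c : ℂ} (hab : a ≠ 0 ∨ b ≠ 0) {B : Set ℂ} (hB : B.Countable) :
    {z : ℂ | a * z ^ 2 + b * z + c ∈ B}.Countable := by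
  have h1 : {z : ℂ | a * z ^ 2 + b * z + c ∈ B} = ⋃ w ∈ B, {z : ℂ | a * z ^ 2 + b * z + c = w} := by
    ext z
    simp
  rw [h1]
  refine hB.biUnion fun w _ => Set.Finite.countable ?_
  let p : Polynomial ℂ := Polynomial.C a * Polynomial.X ^ 2 + Polynomial.C b * Polynomial.X + Polynomial.C (c - w)
  have hp : p ≠ 0 := by
    intro h
    rcases hab with h2 | h2
    · apply h2
      have h3 : p.coeff 2 = 0 := by rw [h]; simp
      simpa [p, Polynomial.coeff_X, Polynomial.coeff_C] using h3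
    · apply h2
      have h3 : p.coeff 1 = 0 := by rw [h]; simp
      simpa [p, Polynomial.coeff_X, Polynomial.coeff_C, Polynomial.coeff_X_pow] using h3
  refine (Polynomial.finite_setOf_isRoot hp).subset ?_
  intro z hz
  have hz' : a * z ^ 2 + b * z + c = w := hz
  simp only [Set.mem_setOf_eq, Polynomial.IsRoot.def, p, Polynomial.eval_add, Polynomial.eval_mul, Polynomial.eval_C, Polynomial.eval_pow,
    Polynomial.eval_X]
  rw [← hz']
  ring

/-- composition of a holomorphic map into `ℙ^M` with a holomorphic function -/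
theorem holInto_comp {f : ℂ → PN M} {φ : ℂ → ℂ} {U V : Set ℂ} (hf : HolomorphicInto f V) (hφ : ∀ z ∈ U, AnalyticAt ℂ φ z) (hUV : ∀ z ∈ U, φ z ∈ V) :
    HolomorphicInto (fun z => f (φ z)) U := by
  intro z hz
  obtain ⟨Φ, hΦ, he⟩ := hf (φ z) (hUV z hz)
  exact ⟨fun w => Φ (φ w), hΦ.comp (hφ z hz), (hφ z hz).continuousAt.eventually he⟩

theorem holInto_mono {f : ℂ → PN M} {U V : Set ℂ} (hf : HolomorphicInto f V) (hUV : U ⊆ V) : HolomorphicInto f U :=
  fun z hz => hf z (hUV hz)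

/-- identity theorem -/
theorem comp_identity {B : Set ℂ} (hBd : ∀ b, ∀ᶠ w in 𝓝[≠] b, w ∉ B) {f : ℂ → PN M} (hf : HolomorphicInto f Bᶜ) {a b c : ℂ}
    (hab : a ≠ 0 ∨ b ≠ 0) {J : ℂ → PN M} (hJ : HolomorphicInto J Set.univ) {z₁ : ℂ} (hz₁ : a * z₁ ^ 2 + b * z₁ + c ∉ B)
    (h : ∀ᶠ z in 𝓝 z₁, J z = f (a * z ^ 2 + b * z + c)) : ∀ z, a * z ^ 2 + b * z + c ∉ B → J z = f (a * z ^ 2 + b * z + c) := by
  have h1 : IsPreconnected {z : ℂ | a * z ^ 2 + b * z + c ∈ B}ᶜ :=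
    (Set.Countable.isPathConnected_compl_of_one_lt_rank (by rw [Complex.rank_real_complex]; exact Nat.one_lt_ofNat)
      (countable_preimage hab (countable_of_discrete hBd))).isConnected.isPreconnected
  have h2 : HolomorphicInto (fun z => f (a * z ^ 2 + b * z + c)) {z : ℂ | a * z ^ 2 + b * z + c ∈ B}ᶜ :=
    holInto_comp hf (fun z _ => by fun_prop) fun z hz => hz
  intro z hz
  exact pn_identity h1 (holInto_mono hJ (Set.subset_univ _)) h2 hz₁ h z hz

/-- entire extensions of the members of the list are given by polynomials -/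
theorem poly_of_entire {V : Set (PN M)} {e : PN M → ℂ} {q : ℕ} {B : Set ℂ} {ι : Type} {f : ι → ℂ → PN M} (O : Out V e q B f) {i : ι}
    {f' : ℂ → PN M} (hf' : HolomorphicInto f' Set.univ) (h : ∀ z, z ∉ B → f' z = f i z) :
    ∃ p : Fin (M + 1) → Polynomial ℂ, ∀ z, ∃ h : (fun a => (p a).eval (Complex.exp (z / q))) ≠ 0, f' z = Projectivization.mk ℂ _ h := by
  have hBi : ∀ z, z ∉ B → z + 2 * Real.pi * Complex.I * q ∉ B := by
    intro z hz hz'
    apply hz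
    have := O.B_inv _ hz' (-1)
    simpa using this
  refine Pool.Agent.H7.Per.exists_rational hf' O.q_pos ?_ ?_
  · -- period
    have h1 : HolomorphicInto (fun z => f' (z + 2 * Real.pi * Complex.I * q)) Set.univ :=
      holInto_comp hf' (fun z _ => by fun_prop) fun z _ => Set.mem_univ _
    obtain ⟨z₀, hz₀⟩ : ∃ z₀, z₀ ∉ B := by
      obtain ⟨z₀, hz₀⟩ := (O.discrete 0).exists
      exact ⟨z₀, hz₀⟩
    intro z
    have h2 : (z + (per q : ℂ) * Complex.I : ℂ) = z + 2 * Real.pi * Complex.I * q := by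
      unfold Pool.Agent.H7.Per.per
      push_cast
      ring
    rw [h2]
    refine pn_identity isPreconnected_univ h1 hf' (Set.mem_univ z₀) ?_ z (Set.mem_univ z)
    filter_upwards [O.closed.isOpen_compl.mem_nhds hz₀] with w hw
    rw [h w hw, h _ (hBi w hw), O.per i w hw]
  · intro ε hε
    obtain ⟨W, hW⟩ := O.B_re
    obtain ⟨X₀, hX₀⟩ := O.short i (per q) ε hε
    refine ⟨max X₀ W + 1, fun z w hz hre him => ?_⟩
    have hzX : X₀ < |z.re| := lt_of_le_of_lt (le_max_left X₀ W) (by linarith)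
    have hzW : W < |z.re| := lt_of_le_of_lt (le_max_right X₀ W) (by linarith)
    have hzB : z ∉ B := fun hzB => by
      have := hW z hzB
      linarith
    have hwB : w ∉ B := fun hwB => by
      have h1 := hW w hwB
      rw [hre] at h1
      linarith
    have hn : ‖w - z‖ ≤ per q := by
      have h1 : w - z = ((w.im - z.im : ℝ) : ℂ) * Complex.I := by
        apply Complex.ext
        · simp [hre]
        · simp
      rw [h1, norm_mul, Complex.norm_I, mul_one, Complex.norm_real]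
      exact him
    rw [h z hzB, h w hwB, dist_comm]
    exact (hX₀ z w hzX hn).le

/-- A member of the list which comes from a limit curve is given by polynomials in `exp (z / q)`. -/
theorem poly_of_out {V : Set (PN M)} {e : PN M → ℂ} {q : ℕ} {B : Set ℂ} {ι : Type} {f : ι → ℂ → PN M} (O : Out V e q B f) {i : ι}
    {a b c : ℂ} (hab : a ≠ 0 ∨ b ≠ 0) {J : ℂ → PN M} (hJ : HolomorphicInto J Set.univ) {z₁ : ℂ} (hz₁ : a * z₁ ^ 2 + b * z₁ + c ∉ B)
    (h : ∀ᶠ z in 𝓝 z₁, J z = f i (a * z ^ 2 + b * z + c)) :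
    ∃ p : Fin (M + 1) → Polynomial ℂ, ∀ z, z ∉ B → ∃ h : (fun a => (p a).eval (Complex.exp (z / q))) ≠ 0, f i z = Projectivization.mk ℂ _ h := by
  have h1 := comp_identity O.discrete (O.hol i) hab hJ hz₁ h
  have hc : (2 * Real.pi * Complex.I * q : ℂ) ≠ 0 := by
    have hq : (q : ℂ) ≠ 0 := by
      have := O.q_pos
      exact Nat.cast_ne_zero.2 (by omega)
    have h2 : (2 * Real.pi * Complex.I : ℂ) ≠ 0 := Complex.two_pi_I_ne_zero
    exact mul_ne_zero h2 hq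
  have hBi : ∀ z, z ∉ B → ∀ k : ℤ, z + k * (2 * Real.pi * Complex.I * q) ∉ B := by
    intro z hz k hz'
    apply hz
    have := O.B_inv _ hz' (-k)
    push_cast at this
    simpa using this
  have hper : ∀ k : ℤ, ∀ z, z ∉ B → f i (z + k * (2 * Real.pi * Complex.I * q)) = f i z := by
    intro k
    induction k with
    | zero => intro z _; simp
    | succ k ih =>
      intro z hz
      have h3 := O.per i _ (hBi z hz k)
      rw [ih z hz] at h3
      rw [← h3]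
      congr 1
      push_cast
      ring
    | pred k ih =>
      intro z hz
      have h3 := O.per i _ (hBi z hz (-(k : ℤ) - 1))
      have h4 : z + ((-(k : ℤ) - 1 : ℤ) : ℂ) * (2 * Real.pi * Complex.I * q) + 2 * Real.pi * Complex.I * q =
          z + ((-(k : ℤ) : ℤ) : ℂ) * (2 * Real.pi * Complex.I * q) := by
        push_cast
        ring
      rw [h4, ih z hz] at h3
      exact h3.symm
  obtain ⟨f', hf', hff'⟩ := section_entire O.closed O.discrete (O.hol i) (c := 2 * Real.pi * Complex.I * q) hper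
    (φ := fun z => a * z ^ 2 + b * z + c) (fun z => by fun_prop) (fun w => surj_of_quadratic hab hc w) hJ h1
  obtain ⟨p, hp⟩ := poly_of_entire O hf' hff'
  exact ⟨p, fun z hz => by
    obtain ⟨h5, h6⟩ := hp z
    exact ⟨h5, by rw [← hff' z hz, h6]⟩⟩

/-- a branch of the square root: a right inverse of a polynomial of degree two on a half plane -/
theorem exists_branch {a b c : ℂ} (ha : a ≠ 0) : ∃ (ρ : ℝ) (ψ : ℂ → ℂ), DifferentiableOn ℂ ψ (HPl 1 ρ) ∧
    ∀ z ∈ HPl 1 ρ, a * ψ z ^ 2 + b * ψ z + c = z := by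
  set v : ℂ := c - b ^ 2 / (4 * a) with hv
  obtain ⟨κ, hκ⟩ := IsAlgClosed.exists_pow_nat_eq (Complex.I / a) (by norm_num : 0 < 2)
  have hre : ∀ z ∈ HPl 1 v.im, 0 < ((z - v) * (-Complex.I)).re := by
    intro z hz
    have hz' : v.im < 1 * z.im := hz
    simp only [Complex.mul_re, Complex.sub_re, Complex.sub_im, Complex.neg_re, Complex.neg_im, Complex.I_re, Complex.I_im]
    linarith
  refine ⟨v.im, fun z => -b / (2 * a) + κ * Complex.exp (Complex.log ((z - v) * (-Complex.I)) / 2), ?_, ?_⟩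
  · intro z hz
    have h1 : DifferentiableAt ℂ (fun z : ℂ => Complex.log ((z - v) * (-Complex.I))) z :=
      DifferentiableAt.clog (by fun_prop) (Or.inl (hre z hz))
    exact ((((h1.div_const 2).cexp).const_mul κ).const_add _).differentiableWithinAt
  · intro z hz
    have h1 : (z - v) * (-Complex.I) ≠ 0 := by
      intro h2
      have h3 := hre z hz
      rw [h2, Complex.zero_re] at h3
      exact lt_irrefl _ h3
    have h2 : Complex.exp (Complex.log ((z - v) * (-Complex.I)) / 2) ^ 2 = (z - v) * (-Complex.I) := by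
      rw [← Complex.exp_nat_mul]
      push_cast
      rw [mul_div_cancel₀ _ (two_ne_zero), Complex.exp_log h1]
    set E := Complex.exp (Complex.log ((z - v) * (-Complex.I)) / 2) with hE
    have h4 : (κ * E) ^ 2 = (z - v) / a := by
      rw [mul_pow, hκ, h2]
      have h5 := Complex.I_mul_I
      field_simp
      linear_combination -(z - v) * h5
    have h5 : a * (κ * E) ^ 2 = z - v := by
      rw [h4]
      field_simp
    have h6 : a * (-b / (2 * a) + κ * E) ^ 2 + b * (-b / (2 * a) + κ * E) + c = a * (κ * E) ^ 2 + v := by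
      rw [hv]
      field_simp
      ring
    rw [h6, h5]
    ring

theorem punct_nhds {p : ℂ → Prop} {z₀ : ℂ} (h : ∀ᶠ w in 𝓝[≠] z₀, p w) : ∀ᶠ w in 𝓝[≠] z₀, ∀ᶠ v in 𝓝 w, p v := by
  filter_upwards [eventually_eventually_nhdsWithin.2 h, self_mem_nhdsWithin] with w h1 h2
  rwa [isOpen_compl_singleton.nhdsWithin_eq h2] at h1

/-- `J` extends `j ∘ g` -/
theorem exists_ext {P : Ideal (MvPolynomial (Fin (N + 1)) ℂ)} {s : ℕ} {G : Fin s → MvPolynomial (Fin (N + 1)) ℂ} {V : Set (PN M)} {e : PN M → ℂ}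
    {j : PN N → PN M} (hj : IsRegularInto P G V e j) {l : Filter ℕ} {F : ℕ → ℂ → PN N} {g : ℂ → PN N} (hl : IsLimitPN (locVar P G) l F g) :
    ∃ J : ℂ → PN M, HolomorphicInto J Set.univ ∧ ∀ z, ∀ᶠ w in 𝓝[≠] z, ConvPN l F g w ∧ g w ∈ locVar P G ∧ J w = j (g w) := by
  obtain ⟨D, γ, hγ, hγ0, hγj⟩ := hj.regular (g 0).rep (g 0).rep_nonzero (by rw [Projectivization.mk_rep]; exact hl.zero_mem)
  obtain ⟨i₀, hi₀⟩ : ∃ i₀, ¬ VanishesAt (γ i₀) (g 0) := by
    by_contra hcon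
    push Not at hcon
    exact hγ0 (_root_.funext fun i => hcon i)
  obtain ⟨J, hJ, hJ1, hJ2⟩ := exists_comp hγ isOpen_univ isPreconnected_univ hl.hol (Set.mem_univ 0) hi₀
  refine ⟨J, hJ, fun z => ?_⟩
  filter_upwards [hJ2 z (Set.mem_univ z), hl.conv z] with w h1 h2
  have h3 : g w ∈ locVar P G := hl.mem_of_conv w h2
  refine ⟨h2, h3, ?_⟩
  have h4 := hγj (g w).rep (g w).rep_nonzero h1.1 (by rw [Projectivization.mk_rep]; exact h3)
  rw [Projectivization.mk_rep] at h4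
  obtain ⟨h1, h5⟩ := h1
  rw [h5, h4]
  exact dif_pos h1

/-- A limit curve in a fibre over a value not in `B₀` is constant. -/
theorem const_of {P : Ideal (MvPolynomial (Fin (N + 1)) ℂ)} {s : ℕ} {G : Fin s → MvPolynomial (Fin (N + 1)) ℂ} {V : Set (PN M)} {e : PN M → ℂ}
    {j : PN N → PN M} (hj : IsRegularInto P G V e j) {B₀ : Set ℂ} (hB₀ : Const V e B₀) {l : Filter ℕ} {F : ℕ → ℂ → PN N} {g : ℂ → PN N}
    (hl : IsLimitPN (locVar P G) l F g) {c : ℂ} (hc : c ∉ B₀) (h : ∀ z, ConvPN l F g z → e (j (g z)) = c) : ∀ z w, g z = g w := by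
  obtain ⟨J, hJ, hJg⟩ := exists_ext hj hl
  have h1 : ∀ z w, J z = J w := by
    refine hB₀ l (fun n z => j (F n z)) J c hl.neBot hl.le_atTop hJ (fun n => ⟨holInto_j hj isOpen_ball (hl.holF n) (hl.memF n),
      fun z hz => hj.maps _ (hl.memF n z hz)⟩) hc fun z₀ => ?_
    have h3 : ∀ᶠ w in 𝓝[≠] z₀, ∀ᶠ v in 𝓝 w, J v = j (g v) := punct_nhds ((hJg z₀).mono fun w hw => hw.2.2)
    filter_upwards [hJg z₀, h3] with w h4 h5
    obtain ⟨h6, h7, h8⟩ := h4
    refine ⟨convPN_congr (conv_j hj hl h6) (h5.mono fun v hv => hv.symm), h8 ▸ hj.maps _ h7, ?_⟩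
    rw [h8]
    exact h w h6
  -- `g` is locally constant somewhere
  obtain ⟨z₁, hz₁⟩ := (punct_nhds (hJg 0)).exists
  have h2 : ∀ᶠ w in 𝓝 z₁, g w = (fun _ => g z₁) w := by
    obtain ⟨-, h3, h4⟩ := hz₁.self_of_nhds
    filter_upwards [hz₁] with w hw
    obtain ⟨-, h5, h6⟩ := hw
    exact hj.inj _ h5 _ h3 (by rw [← h6, ← h4, h1 w z₁])
  have h3 : HolomorphicInto (fun _ : ℂ => g z₁) Set.univ := fun z _ =>
    ⟨fun _ => (g z₁).rep, analyticAt_const, Eventually.of_forall fun w => ⟨(g z₁).rep_nonzero, (Projectivization.mk_rep _).symm⟩⟩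
  have h4 := pn_identity isPreconnected_univ hl.hol h3 (Set.mem_univ z₁) h2
  intro z w
  rw [h4 z (Set.mem_univ z), h4 w (Set.mem_univ w)]

/-- **All limit curves of order two are caught.** -/
theorem caught_of_out {P : Ideal (MvPolynomial (Fin (N + 1)) ℂ)} {s : ℕ} {G : Fin s → MvPolynomial (Fin (N + 1)) ℂ}
    {V : Set (PN M)} {e : PN M → ℂ} {j : PN N → PN M} (hj : IsRegularInto P G V e j) {B₀ : Set ℂ} (hB₀ : Const V e B₀) {q : ℕ} {B : Set ℂ} {ι : Type}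
    {f : ι → ℂ → PN M} (O : Out V e q B f) :
    ∃ p : ι → Fin (M + 1) → Polynomial ℂ, ∀ (Bf : MvPolynomial (Fin (N + 1)) ℂ) (l : Filter ℕ) (F : ℕ → ℂ → PN N) (g : ℂ → PN N),
      IsLimitPN (locVar P G) l F g → (∃ z w, g z ≠ g w) → ((∃ z, ¬ VanishesAt Bf (g z)) → ∃ a b c : ℂ, Lim V e j l F g a b c) →
        Caught P G e j Bf B₀ p g := by
  classical
  have hp : ∀ i, ∃ p : Fin (M + 1) → Polynomial ℂ, (∃ p : Fin (M + 1) → Polynomial ℂ, ∀ z, z ∉ B →
      ∃ h : (fun a => (p a).eval (Complex.exp (z / q))) ≠ 0, f i z = Projectivization.mk ℂ _ h) →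
      ∀ z, z ∉ B → ∃ h : (fun a => (p a).eval (Complex.exp (z / q))) ≠ 0, f i z = Projectivization.mk ℂ _ h := by
    intro i
    by_cases h : ∃ p : Fin (M + 1) → Polynomial ℂ, ∀ z, z ∉ B →
      ∃ h : (fun a => (p a).eval (Complex.exp (z / q))) ≠ 0, f i z = Projectivization.mk ℂ _ h
    · obtain ⟨p, hp⟩ := h
      exact ⟨p, fun _ => hp⟩
    · exact ⟨0, fun h' => absurd h' h⟩
  choose p hp using hp
  refine ⟨p, fun Bf l F g hl hne hlim => ?_⟩
  by_cases hv : ∀ z, VanishesAt Bf (g z)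
  · refine ⟨0, Eventually.frequently ?_⟩
    filter_upwards [hl.conv 0] with w hw
    exact ⟨hl.mem_of_conv w hw, Or.inr (Or.inl (hv w))⟩
  · push Not at hv
    obtain ⟨a, b, c, hφ, hsec⟩ := hlim hv
    by_cases hab : a = 0 ∧ b = 0
    · -- the constant case
      obtain ⟨rfl, rfl⟩ := hab
      have h1 : ∀ z, ConvPN l F g z → e (j (g z)) = Complex.exp c := by
        intro z hz
        have := hφ z hz
        simpa using this
      by_cases hc : Complex.exp c ∈ B₀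
      · refine ⟨0, Eventually.frequently ?_⟩
        filter_upwards [hl.conv 0] with w hw
        exact ⟨hl.mem_of_conv w hw, Or.inl (by rw [h1 w hw]; exact hc)⟩
      · exfalso
        obtain ⟨z, w, hzw⟩ := hne
        exact hzw (const_of hj hB₀ hl hc h1 z w)
    · have hab' : a ≠ 0 ∨ b ≠ 0 := by
        by_contra hcon
        push Not at hcon
        exact hab hcon
      -- a branch of the inverse
      obtain ⟨Ω, ψ, hΩo, hΩc, w₀, hw₀, hψ, hφψ, i, hi⟩ : ∃ (Ω : Set ℂ) (ψ : ℂ → ℂ), IsOpen Ω ∧ Convex ℝ Ω ∧ ∃ w₀ ∈ Ω, DifferentiableOn ℂ ψ Ω ∧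
          (∀ z ∈ Ω, a * ψ z ^ 2 + b * ψ z + c = z) ∧ ∃ i, ∀ z ∈ Ω, z ∉ B → ConvPN l F g (ψ z) → j (g (ψ z)) = f i z := by
        by_cases ha : a = 0
        · subst ha
          have hb : b ≠ 0 := by simpa using hab'
          have h1 : ∀ z ∈ (Set.univ : Set ℂ), (0 : ℂ) * ((z - c) / b) ^ 2 + b * ((z - c) / b) + c = z := by
            intro z _
            field_simp
            ring
          have h2 : DifferentiableOn ℂ (fun z : ℂ => (z - c) / b) Set.univ := by fun_prop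
          obtain ⟨i, hi⟩ := O.full _ _ (hsec Set.univ (fun z => (z - c) / b) isOpen_univ convex_univ h2 h1)
          exact ⟨Set.univ, fun z => (z - c) / b, isOpen_univ, convex_univ, 0, Set.mem_univ _, h2, h1, i,
            fun z _ hz hz' => hi z hz fun h3 => h3 hz'⟩
        · obtain ⟨ρ, ψ, hψ, hφψ⟩ := exists_branch (b := b) (c := c) ha
          have hΩo : IsOpen (HPl 1 ρ) := isOpen_lt continuous_const (by fun_prop)
          have hΩc : Convex ℝ (HPl 1 ρ) := by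
            have h1 : HPl 1 ρ = {z : ℂ | ρ < z.im} := by
              ext z
              simp [HPl]
            rw [h1]
            exact convex_halfSpace_im_gt ρ
          obtain ⟨i, hi⟩ := O.half 1 ρ (Or.inl rfl) _ _ (hsec _ ψ hΩo hΩc hψ hφψ)
          refine ⟨HPl 1 ρ, ψ, hΩo, hΩc, ⟨0, ρ + 1⟩, ?_, hψ, hφψ, i, fun z hz hz' hz'' => hi z hz hz' fun h3 => h3 hz''⟩
          show ρ < 1 * (ρ + 1)
          linarith
      obtain ⟨J, hJ, hJg⟩ := exists_ext hj hl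
      have hψd : ∀ z ∈ Ω, HasStrictDerivAt ψ (deriv ψ z) z ∧ deriv ψ z ≠ 0 := by
        intro z hz
        have h1 : AnalyticAt ℂ ψ z := hψ.analyticAt (hΩo.mem_nhds hz)
        refine ⟨h1.hasStrictDerivAt, fun h2 => ?_⟩
        have h3 : HasDerivAt (fun z => a * ψ z ^ 2 + b * ψ z + c) (a * (2 * ψ z * deriv ψ z) + b * deriv ψ z) z := by
          have h4 := h1.differentiableAt.hasDerivAt
          have h5 := (((h4.pow 2).const_mul a).add (h4.const_mul b)).add_const c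
          simpa using h5
        have h4 : (fun z => a * ψ z ^ 2 + b * ψ z + c) =ᶠ[𝓝 z] fun z => z := by
          filter_upwards [hΩo.mem_nhds hz] with w hw
          exact hφψ w hw
        have h5 := h3.deriv
        rw [h4.deriv_eq, h2] at h5
        simp at h5
      -- a good point near `w₀`
      have htend : Tendsto ψ (𝓝[≠] w₀) (𝓝[≠] (ψ w₀)) := by
        rw [tendsto_nhdsWithin_iff]
        exact ⟨(hψd w₀ hw₀).1.hasDerivAt.continuousAt.tendsto.mono_left nhdsWithin_le_nhds,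
          (hψd w₀ hw₀).1.hasDerivAt.eventually_ne (hψd w₀ hw₀).2⟩
      have hev : ∀ᶠ z in 𝓝[≠] w₀, z ∈ Ω ∧ z ∉ B ∧ g (ψ z) ∈ locVar P G ∧ J (ψ z) = f i z ∧ j (g (ψ z)) = f i z := by
        filter_upwards [nhdsWithin_le_nhds (hΩo.mem_nhds hw₀), O.discrete w₀, htend.eventually (hJg (ψ w₀))] with z h1 h2 h3
        obtain ⟨h4, h5, h6⟩ := h3
        have h7 := hi z h1 h2 h4
        exact ⟨h1, h2, h5, h6.trans h7, h7⟩
      obtain ⟨z₀, hz₀⟩ := (punct_nhds hev).exists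
      obtain ⟨hz₀Ω, hz₀B, -, -, -⟩ := hz₀.self_of_nhds
      have hmap : map ψ (𝓝 z₀) = 𝓝 (ψ z₀) := (hψd z₀ hz₀Ω).1.map_nhds_eq (hψd z₀ hz₀Ω).2
      have hz₁ : a * ψ z₀ ^ 2 + b * ψ z₀ + c = z₀ := hφψ z₀ hz₀Ω
      have hev1 : ∀ᶠ z in 𝓝 (ψ z₀), a * z ^ 2 + b * z + c ∉ B ∧ g z ∈ locVar P G ∧ J z = f i (a * z ^ 2 + b * z + c) ∧
          j (g z) = f i (a * z ^ 2 + b * z + c) := by
        rw [← hmap, eventually_map]
        filter_upwards [hz₀] with z h1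
        obtain ⟨h2, h3, h4, h5, h6⟩ := h1
        rw [hφψ z h2]
        exact ⟨h3, h4, h5, h6⟩
      have h8 := hp i (poly_of_out O hab' hJ (i := i) (by rw [hz₁]; exact hz₀B) (hev1.mono fun z hz => hz.2.2.1))
      refine ⟨ψ z₀, Eventually.frequently ?_⟩
      filter_upwards [nhdsWithin_le_nhds hev1] with z hz
      obtain ⟨h9, h10, -, h12⟩ := hz
      obtain ⟨h13, h14⟩ := h8 _ h9
      exact ⟨h10, Or.inr (Or.inr ⟨i, _, h13, by rw [h12, h14]⟩)⟩

end Pool.Agent.H4.LU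

end
end

section

/-!
# LR Main: the conclusion from the one-variable part and `exists_phases`
-/

set_option autoImplicit false

open Topology Filter MvPolynomial Metric

noncomputable section

namespace Pool.Agent.H46.LR

attribute [-instance] ProperSMul.toContinuousSMul

open Pool.Agent.H17 (PN VanishesAt HolomorphicInto)
open Pool.Agent.H17LG.Variety (FunField)
open Pool.Agent.H62.FC (Homog)
open Pool.Agent.H62.SA (locVar)
open Pool.Agent.H7.Bir (GGLOpen)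
open Pool.Agent.H14.KB (KobayashiHyperbolicModulo)
open Pool.Agent.H36.LB (ConvPN IsLimitPN LimModPN)
open Pool.Agent.H19Q (QSurface)

variable {N : ℕ} {P : Ideal (MvPolynomial (Fin (N + 1)) ℂ)} {s : ℕ} {G : Fin s → MvPolynomial (Fin (N + 1)) ℂ}
  {A B W₁ W₂ : MvPolynomial (Fin (N + 1)) ℂ}

theorem omitsAt [P.IsPrime] (h : IsPair P G A B W₁ W₂) {B₀ : Set ℂ} (hO : Omits P G A B W₁ W₂ B₀) :
    Along P G A B W₁ W₂ fun ψ g z => OmitsAt B₀ ψ g z := by
  obtain ⟨D', hW₁, hW₂⟩ := h.form'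
  intro F ψ z hF hU hne hv hz
  obtain ⟨w, hw0, hw1, hw⟩ := hO (F z) hU.self_of_nhds _ hv hz
  refine ⟨w, hw0, hw1, ?_⟩
  have h1 := hw.tendsto hF (hU.mono fun _ h => locVar_sub h) hW₁ hW₂ hne one_ne_zero
  rwa [div_one] at h1

theorem omitsSecAt [P.IsPrime] (h : IsPair P G A B W₁ W₂) {B₀ : Set ℂ} (hO : Omits P G A B W₁ W₂ B₀) {p q : Polynomial ℂ}
    (hS : OmitsSection P G A B W₁ W₂ B₀ p q) : Along P G A B W₁ W₂ fun ψ g z => OmitsSecAt B₀ p q ψ g z := by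
  obtain ⟨D', hW₁, hW₂⟩ := h.form'
  intro F ψ z hF hU hne hv hz w hw
  obtain ⟨w', -, -, hw'⟩ := hO (F z) hU.self_of_nhds _ hv hz
  have h1 := hw'.tendsto hF (hU.mono fun _ h => locVar_sub h) hW₁ hW₂ hne one_ne_zero
  rw [div_one] at h1
  rw [tendsto_nhds_unique hw h1]
  exact hS (F z) hU.self_of_nhds _ _ hv hz hw'

theorem finAt [P.IsPrime] (h : IsPair P G A B W₁ W₂) {c : ℂ} {S : Finset (ℂ × ℂ)} (hS0 : ((0 : ℂ), (0 : ℂ)) ∉ S)
    (hS : ∀ x ∈ locVar P G, HasValue P A B x c 1 → ∃ s ∈ S, HasValue P W₁ W₂ x s.1 s.2) :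
    Along P G A B W₁ W₂ fun ψ g z => FinAt c S ψ g z := by
  obtain ⟨D', hW₁, hW₂⟩ := h.form'
  intro F ψ z hF hU hne hv hz
  rw [hz] at hv
  obtain ⟨t, htS, ht⟩ := hS (F z) hU.self_of_nhds hv
  refine ⟨t, htS, ?_⟩
  by_cases h0 : t.2 = 0
  · right
    refine ⟨h0, ?_⟩
    have h1 : t.1 ≠ 0 := fun h1 => hS0 (by
      have : t = (0, 0) := Prod.ext h1 h0
      rwa [← this])
    rw [h0] at ht
    exact ht.tendsto_cobounded hF (hU.mono fun _ h => locVar_sub h) hW₁ hW₂ hne h1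
  · left
    exact ⟨h0, ht.tendsto hF (hU.mono fun _ h => locVar_sub h) hW₁ hW₂ hne h0⟩

/-- The surfaces of `IsBaseR` -/
theorem limMod_base (hN : MainN) (hI : MainI) {U : QSurface} (hU : IsBaseR U)
    (hph : ∀ A B W₁ W₂ : MvPolynomial (Fin (U.N + 1)) ℂ, IsPair U.P U.G A B W₁ W₂ → Phases U.P U.G A B) :
    ∃ (n : ℕ) (R : MvPolynomial (Fin (U.N + 1)) ℂ), R.IsHomogeneous n ∧ R ∉ U.P ∧
      LimModPN (locVar U.P U.G) {x | x ∈ locVar U.P U.G ∧ VanishesAt R x} := by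
  obtain ⟨z, hz⟩ := U.dim
  obtain ⟨A, B, W₁, W₂, B₀, h, hB₀, hO, hcase⟩ := hU.model
  rcases hcase with ⟨p, q, hq, hpq, hS⟩ | ⟨c, hc, S, hS0, hS⟩
  · exact limMod_of_algebraic hz h hB₀ (fun F ψ z h1 h2 h3 h4 => ⟨omitsAt h hO F ψ z h1 h2 h3 h4, omitsSecAt h hO hS F ψ z h1 h2 h3 h4⟩)
      (hN B₀ p q hB₀ hq hpq) (hph A B W₁ W₂ h)
  · exact limMod_of_algebraic hz h hB₀ (fun F ψ z h1 h2 h3 h4 => ⟨omitsAt h hO F ψ z h1 h2 h3 h4, finAt h hS0 hS F ψ z h1 h2 h3 h4⟩)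
      (hI B₀ c S hB₀ hc hS0) (hph A B W₁ W₂ h)

/-- **The four properties.** -/
theorem base_mainR' (hN : MainN) (hI : MainI) {U : QSurface} (hU : IsBaseR U)
    (hph : ∀ A B W₁ W₂ : MvPolynomial (Fin (U.N + 1)) ℂ, IsPair U.P U.G A B W₁ W₂ → Phases U.P U.G A B) (hgt : U.LogGeneralType) :
    ∃ Ξ : Set (PN U.N), GGLOpen U.P U.G Ξ ∧ ∃ (Q : MvPolynomial (Fin (U.N + 1)) ℂ) (D : ℕ), Q.IsHomogeneous D ∧
      (∃ x ∈ locVar U.P U.G, ¬ VanishesAt Q x) ∧ (∀ x, x ∈ Ξ ↔ x ∈ locVar U.P U.G ∧ VanishesAt Q x) ∧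
        KobayashiHyperbolicModulo (locVar U.P U.G) Q D := by
  obtain ⟨z, hz⟩ := U.dim
  obtain ⟨n, R, hR, hRP, hlim⟩ := limMod_base hN hI hU hph
  exact Pool.Agent.H4.LU.ggl_of_limMod U.homog hz hU.smooth U.form U.nonempty hU.curve hgt hR hRP hlim

end Pool.Agent.H46.LR

end
end

section

/-!
# LR Ph: `e (F n z) = exp (φ n z)`, `φ n → a z² + b z + c`
-/

set_option autoImplicit false

open Topology Filter MvPolynomial Metric

noncomputable section

namespace Pool.Agent.H46.LR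

attribute [-instance] ProperSMul.toContinuousSMul

open Pool.Agent.H17 (PN VanishesAt HolomorphicInto)
open Pool.Agent.H62.SA (locVar)
open Pool.Agent.H7.Bir (GGLOpen)
open Pool.Agent.H14.KB (KobayashiHyperbolicModulo)
open Pool.Agent.H36.LB (ConvPN IsLimitPN LimModPN)
open Pool.Agent.H19Q (QSurface)

variable {N : ℕ} {P : Ideal (MvPolynomial (Fin (N + 1)) ℂ)} {s : ℕ} {G : Fin s → MvPolynomial (Fin (N + 1)) ℂ}
  {A B W₁ W₂ : MvPolynomial (Fin (N + 1)) ℂ}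

/-- the values of `e` near a point, in terms of local forms -/
theorem eV_conv [P.IsPrime] (h : IsPair P G A B W₁ W₂) {l : Filter ℕ} {F : ℕ → ℂ → PN N} {f : ℂ → PN N} (hl : IsLimitPN (locVar P G) l F f)
    {z : ℂ} (hz : ConvPN l F f z) :
    ∃ r : ℝ, 0 < r ∧ TendstoLocallyUniformlyOn (fun n z => eV P A B (F n z)) (fun z => eV P A B (f z)) l (ball z r) := by
  have hzU : f z ∈ locVar P G := hl.mem_of_conv z hz
  obtain ⟨v, -, d, a, b, ha, hb, hab, hne, hv⟩ := h.unit _ hzU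
  have hbz : ¬ VanishesAt b (f z) := by
    intro h1
    apply hne
    refine ⟨?_, h1⟩
    unfold VanishesAt at h1 ⊢
    rw [mul_one] at hv
    rw [hv, h1, zero_mul]
  have hval : ∀ x ∈ locVar P G, ¬ VanishesAt b x → eV P A B x = qt a b x := by
    intro x hx hbx
    refine eV_eq h.B_notMem (locVar_sub hx) ⟨d, a, b, ha, hb, hab, fun h10 => hbx h10.2, ?_⟩
    unfold VanishesAt at hbx
    unfold qt
    field_simp
  obtain ⟨r, hr, -, hbf, hbF, hq⟩ := qt_unif ha hb hz hbz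
  obtain ⟨r₁, hr₁, hc⟩ := Metric.eventually_nhds_iff_ball.1 (Pool.Agent.H4.LU.convPN_open hz)
  refine ⟨min r r₁, lt_min hr hr₁, TendstoUniformlyOn.tendstoLocallyUniformlyOn ?_⟩
  rw [Metric.tendstoUniformlyOn_iff]
  intro ε hε
  have hbig : ∀ᶠ n : ℕ in l, ‖z‖ + r ≤ (n : ℝ) := hl.le_atTop (Filter.tendsto_atTop.1 tendsto_natCast_atTop_atTop _)
  filter_upwards [hbF, hq ε hε, hbig] with n h1 h2 h3 w hw
  have hwr : w ∈ ball z r := ball_subset_ball (min_le_left _ _) hw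
  have hwr₁ : w ∈ ball z r₁ := ball_subset_ball (min_le_right _ _) hw
  have hwn : w ∈ ball (0 : ℂ) (n + 1) := by
    rw [mem_ball, dist_eq_norm] at hwr
    rw [mem_ball_zero_iff]
    have := norm_sub_norm_le w z
    linarith
  rw [hval _ (hl.memF n w hwn) (h1 w hwr), hval _ (hl.mem_of_conv w (hc w hwr₁)) (hbf w hwr), dist_comm, dist_eq_norm]
  exact h2 w hwr

theorem phases_of_pair [P.IsPrime] (h : IsPair P G A B W₁ W₂) : Phases P G A B := by
  intro l F f hl hord hv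
  obtain ⟨D, hA, hB⟩ := h.form
  obtain ⟨a, b, c, φn, h1, h2, h3, h4⟩ := Pool.Agent.H13.LU.phases_core hl hord (e := eV P A B)
    (fun n z hz => by
      refine (eV_analytic h (hl.holF n z hz) ?_).differentiableAt.differentiableWithinAt
      filter_upwards [isOpen_ball.mem_nhds hz] with w hw
      exact hl.memF n w hw)
    (fun n z hz => eV_ne_zero h (hl.memF n z hz)) (fun z hz => eV_conv h hl hz) (fun z hz => eV_ne_zero h (hl.mem_of_conv z hz)) hA hB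
    (fun z hz => by
      obtain ⟨v, -, hv⟩ := h.unit _ (hl.mem_of_conv z hz)
      exact eV_mul hA hB (locVar_sub (hl.mem_of_conv z hz)) (eV_spec hv)) hv
  refine ⟨a, b, c, φn, fun R => ?_, ?_, h4⟩
  · have hbig : ∀ᶠ n : ℕ in l, R ≤ (n : ℝ) := hl.le_atTop (Filter.tendsto_atTop.1 tendsto_natCast_atTop_atTop _)
    filter_upwards [hbig] with n hn
    have hsub : ball (0 : ℂ) R ⊆ ball 0 (n + 1) := ball_subset_ball (by linarith)
    exact ⟨(h1 n).mono hsub, fun z hz => (h2 n z (hsub hz)).symm⟩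
  · rw [Metric.tendstoLocallyUniformlyOn_iff]
    intro ε hε z _
    refine ⟨closedBall 0 (‖z‖ + 1), mem_nhdsWithin_of_mem_nhds ?_, ?_⟩
    · refine closedBall_mem_nhds_of_mem ?_
      rw [mem_ball_zero_iff]
      linarith
    · exact Metric.tendstoUniformlyOn_iff.1 (h3 (‖z‖ + 1)) ε hε

/-- The surfaces of `IsBaseR`, from the one-variable part. -/
theorem base_mainR (hN : MainN) (hI : MainI) {U : QSurface} (hU : IsBaseR U) (hgt : U.LogGeneralType) :
    ∃ Ξ : Set (PN U.N), GGLOpen U.P U.G Ξ ∧ ∃ (Q : MvPolynomial (Fin (U.N + 1)) ℂ) (D : ℕ), Q.IsHomogeneous D ∧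
      (∃ x ∈ locVar U.P U.G, ¬ VanishesAt Q x) ∧ (∀ x, x ∈ Ξ ↔ x ∈ locVar U.P U.G ∧ VanishesAt Q x) ∧
        KobayashiHyperbolicModulo (locVar U.P U.G) Q D :=
  base_mainR' hN hI hU (fun _ _ _ _ h => phases_of_pair h) hgt

end Pool.Agent.H46.LR

end
end
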