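import Pool.Agent.H94.CB.M08
import Pool.Agent.H94.CB.M41

/-! The parts of this file: H62.FC.Eval, H62.FC.Dense. -/

section

/-!
# Evaluation along one-parameter groups
-/

open MvPolynomial Topology Filter
open Pool.Agent.H17 (PN VanishesAt ZariskiClosedIn vanishesAt_mk_iff)

noncomputable section

namespace Pool.Agent.H62.FC

attribute [-instance] ProperSMul.toContinuousSMul

variable {N : ℕ} {κ : Type} {A : κ → MvPolynomial (Fin (N + 1)) ℂ} {e : κ → ℕ}
  {O : Finset (Fin (N + 1))} {P : Ideal (MvPolynomial (Fin (N + 1)) ℂ)}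

/-- The condition on the coordinates does not depend on the representative. -/
lemma rep_ne_zero_iff (a : Fin (N + 1) → ℂ) (ha : a ≠ 0) (i : Fin (N + 1)) :
    (Projectivization.mk ℂ a ha).rep i ≠ 0 ↔ a i ≠ 0 := by
  obtain ⟨c, hc, h⟩ := Pool.Agent.H17.exists_smul_rep a ha
  rw [h, Pi.smul_apply, smul_eq_mul]
  constructor
  · intro h1 h2
    exact h1 (by rw [h2, mul_zero])
  · intro h1
    exact mul_ne_zero hc h1

lemma mk_mem_primeLocus (a : Fin (N + 1) → ℂ) (ha : a ≠ 0) :
    Projectivization.mk ℂ a ha ∈ primeLocus P O ↔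
      (∀ Q ∈ P, ∀ n, Q.IsHomogeneous n → eval a Q = 0) ∧ ∀ i ∈ O, a i ≠ 0 := by
  constructor
  · rintro ⟨h1, h2⟩
    exact ⟨fun Q hQ n hn => (vanishesAt_mk_iff hn a ha).mp (h1 Q hQ n hn),
      fun i hi => (rep_ne_zero_iff a ha i).mp (h2 i hi)⟩
  · rintro ⟨h1, h2⟩
    exact ⟨fun Q hQ n hn => (vanishesAt_mk_iff hn a ha).mpr (h1 Q hQ n hn),
      fun i hi => (rep_ne_zero_iff a ha i).mpr (h2 i hi)⟩

end Pool.Agent.H62.FC

end
end

section

/-!
# The Nullstellensatz for loci with nonzero coordinates and the exceptional set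
-/

noncomputable section

namespace Pool.Agent.H62.FC

attribute [-instance] ProperSMul.toContinuousSMul

open MvPolynomial Topology Filter
open Pool.Agent.H17 (PN VanishesAt ZariskiClosedIn HolomorphicInto puncturedDisc PseudoBrodyHyperbolic PseudoPicardHyperbolic vanishesAt_mk_iff)
open Pool.Agent.H17GT (coordFun)
open Pool.Agent.H17LG.Variety (FunField ratio IsLogGeneralType)
open Pool.Agent.H23.Fano (PrimeDivisorOver)

variable {N : ℕ} {κ : Type} {A : κ → MvPolynomial (Fin (N + 1)) ℂ} {e : κ → ℕ}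
  {O : Finset (Fin (N + 1))} {P : Ideal (MvPolynomial (Fin (N + 1)) ℂ)}

/-! D-V -/
theorem mem_of_vanishes [P.IsPrime] (hP : Homog P) {S : Finset (Fin (N + 1))}
    (hS : ∀ i ∈ S, X i ∉ P) (hne : ∃ i, X i ∉ P) {m : ℕ} {F : MvPolynomial (Fin (N + 1)) ℂ}
    (hF : F.IsHomogeneous m) (h : ∀ x ∈ primeLocus P S, VanishesAt F x) : F ∈ P := by
  obtain ⟨i1, hi1⟩ := hne
  have hG : F * (∏ i ∈ S, X i) * X i1 ∈ P := by
    rw [← MvPolynomial.IsPrime.vanishingIdeal_zeroLocus (K := ℂ) P,
      MvPolynomial.mem_vanishingIdeal_iff]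
    intro v hv
    rw [MvPolynomial.aeval_eq_eval]
    have hv' : ∀ Q ∈ P, eval v Q = 0 := fun Q hQ => by
      have h1 := hv Q hQ
      rwa [MvPolynomial.aeval_eq_eval] at h1
    change eval v (F * (∏ i ∈ S, X i) * X i1) = 0
    rw [map_mul, map_mul, map_prod]
    simp only [eval_X]
    by_cases hv0 : v = 0
    · rw [hv0]
      simp
    · by_cases hz : ∃ i ∈ S, v i = 0
      · obtain ⟨i, hi, hvi⟩ := hz
        rw [Finset.prod_eq_zero hi hvi]
        simp
      · push Not at hz
        have h1 : Projectivization.mk ℂ v hv0 ∈ primeLocus P S :=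
          (mk_mem_primeLocus v hv0).2 ⟨fun Q hQ _ _ => hv' Q hQ, hz⟩
        have h2 := h _ h1
        rw [vanishesAt_mk_iff hF v hv0] at h2
        rw [h2]
        simp
  have hpr : P.IsPrime := inferInstance
  rcases hpr.mem_or_mem hG with h1 | h1
  · rcases hpr.mem_or_mem h1 with h2 | h2
    · exact h2
    · exfalso
      obtain ⟨i, hi, h3⟩ := (hpr.prod_mem_iff).1 h2
      exact hS i hi h3
  · exact absurd h1 hi1

/-! D-A -/

end Pool.Agent.H62.FC

end
end
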