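import Pool.Agent.H94.CB.H62.SA.Defs
import Pool.Agent.H94.CB.M130
import Pool.Agent.H94.CB.M95

/-! The parts of this file: H7.Bir.Open, H7.Qup.Defs. -/

section

/-!
# Bir Open: the four properties for Zariski open subsets of projective varieties

`open_four`: if the closed subvariety `X` of `ℙ^N` has the properties of the conjecture with the exceptional set `Ξ`, then every nonempty Zariski
open subset `U` of `X` has them with the exceptional set `Ξ ∩ U`.  `bir_open_four`: if `X` has the properties, then every quasi-projective variety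
which is birational to `X` has them.
-/

set_option autoImplicit false

open Topology Filter MvPolynomial

noncomputable section

namespace Pool.Agent.H7.Bir

open Pool.Agent.H17 (PN VanishesAt HolomorphicInto puncturedDisc vanishesAt_mk_iff ZariskiClosedIn)
open Pool.Agent.H17GT (coordFun)
open Pool.Agent.H17LG.Variety (FunField IsLogGeneralType)
open Pool.Agent.H62.FC (Homog)
open Pool.Agent.H62.SA (locVar OnBd)
open Pool.Agent.H17EF (projVar)

variable {N M : ℕ}

/-- The properties of the conjecture for the quasi-projective variety `U = locVar P G`, with the exceptional set `Ξ`. -/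
structure GGLOpen (P : Ideal (MvPolynomial (Fin (N + 1)) ℂ)) [P.IsPrime] {s : ℕ} (G : Fin s → MvPolynomial (Fin (N + 1)) ℂ)
    (Ξ : Set (PN N)) : Prop where
  closed : ZariskiClosedIn (locVar P G) Ξ
  proper : Ξ ≠ locVar P G
  logGeneralType : ∀ w, 1 ≤ w → (∃ z : Fin w → FunField P, IsTranscendenceBasis ℂ z) → IsLogGeneralType (OnBd P G (k := w))
  picard : ∀ f : ℂ → PN N, HolomorphicInto f puncturedDisc → (∀ z ∈ puncturedDisc, f z ∈ locVar P G) →
    (∃ z ∈ puncturedDisc, f z ∉ Ξ) →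
    ∃ g : ℂ → PN N, HolomorphicInto g (Metric.ball 0 1) ∧ ∀ z ∈ puncturedDisc, g z = f z
  brody : ∀ f : ℂ → PN N, HolomorphicInto f Set.univ → (∀ z, f z ∈ locVar P G) → (∃ z w, f z ≠ f w) → ∀ z, f z ∈ Ξ
  strongly : ∀ (Q : Ideal (MvPolynomial (Fin (N + 1)) ℂ)) [Q.IsPrime], Homog Q → P ≤ Q → ¬ locVar Q G ⊆ Ξ →
    ∀ w, 1 ≤ w → (∃ z : Fin w → FunField Q, IsTranscendenceBasis ℂ z) → IsLogGeneralType (OnBd Q G (k := w))

/-- A variety of general type is of log general type with respect to every boundary. -/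
theorem logGT_of_gt {K : Type} [Field K] [Algebra ℂ K] {k : ℕ}
    (h : IsLogGeneralType (K := K) (k := k) fun _ => False) (B : Pool.Agent.H23.Fano.PrimeDivisorOver K k → Prop) : IsLogGeneralType (K := K) (k := k) B := by
  obtain ⟨m, hm, ω, hω, r, f, hf, h1, h2⟩ := h
  refine ⟨m, hm, ω, hω, r, f, hf, fun i E => ⟨fun _ => (h1 i E).1 (fun h => h), fun _ => ?_⟩, h2⟩
  obtain ⟨g, η, hη, hg, ho⟩ := (h1 i E).1 (fun h => h)
  refine ⟨g, η, hη, hg, ?_⟩
  exact le_trans ho (add_le_add le_rfl (by exact_mod_cast Nat.zero_le m))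

/-- A form which vanishes on a nonempty Zariski open subset belongs to the ideal. -/
theorem mem_of_open {P : Ideal (MvPolynomial (Fin (N + 1)) ℂ)} [P.IsPrime] (hP : Homog P) {s : ℕ}
    {G : Fin s → MvPolynomial (Fin (N + 1)) ℂ} (hG : ∀ m, ∃ n, (G m).IsHomogeneous n) (hne : (locVar P G).Nonempty)
    {R : MvPolynomial (Fin (N + 1)) ℂ} {n : ℕ} (hR : R.IsHomogeneous n) (h : ∀ x ∈ locVar P G, VanishesAt R x) : R ∈ P := by
  obtain ⟨x, hx, m, hm⟩ := hne
  obtain ⟨d, hd⟩ := hG m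
  have hGm : G m ∉ P := fun h1 => hm (hx _ h1 d hd)
  have hX : ∃ i, X i ∉ P := by
    by_contra hcon
    push Not at hcon
    have h1 : ∀ i, x.rep i = 0 := by
      intro i
      have h2 := hx _ (hcon i) 1 (isHomogeneous_X ℂ i)
      unfold VanishesAt at h2
      rwa [eval_X] at h2
    exact x.rep_nonzero (funext h1)
  have h1 : R * G m ∈ P := by
    refine Pool.Agent.H62.FC.mem_of_vanishes hP (S := ∅) (fun i hi => absurd hi (Finset.notMem_empty i)) hX (hR.mul hd) ?_
    intro y hy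
    unfold VanishesAt
    rw [map_mul]
    by_cases h2 : VanishesAt (G m) y
    · rw [show eval y.rep (G m) = 0 from h2, mul_zero]
    · rw [show eval y.rep R = 0 from h y ⟨hy.1, m, h2⟩, zero_mul]
  exact ((inferInstance : P.IsPrime).mem_or_mem h1).resolve_right hGm

/-- **The properties hold for all nonempty Zariski open subsets.** -/
theorem open_four {P : Ideal (MvPolynomial (Fin (N + 1)) ℂ)} [P.IsPrime] (hP : Homog P) {s : ℕ}
    {G : Fin s → MvPolynomial (Fin (N + 1)) ℂ} (hG : ∀ m, ∃ n, (G m).IsHomogeneous n) (hne : (locVar P G).Nonempty)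
    {Ξ : Set (PN N)} (h : GGL P Ξ) : GGLOpen P G (Ξ ∩ locVar P G) := by
  obtain ⟨S, hS, hΞ⟩ := h.closed
  refine ⟨⟨S, hS, ?_⟩, ?_, ?_, ?_, ?_, ?_⟩
  · ext x
    rw [hΞ]
    exact ⟨fun hx => ⟨hx.2, hx.1.2⟩, fun hx => ⟨⟨hx.1.1, hx.2⟩, hx.1⟩⟩
  · intro heq
    apply h.proper
    refine Set.Subset.antisymm ?_ ?_
    · rw [hΞ]
      exact fun x hx => hx.1
    · intro x hx
      rw [hΞ]
      refine ⟨hx, fun R hR => ?_⟩
      obtain ⟨n, hn⟩ := hS R hR
      refine hx R (mem_of_open hP hG hne hn fun y hy => ?_) n hn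
      have h1 : y ∈ Ξ := by
        rw [← heq] at hy
        exact hy.1
      rw [hΞ] at h1
      exact h1.2 R hR
  · exact fun w hw hz => logGT_of_gt (h.generalType w hw hz) _
  · intro f hf hfU hfΞ
    refine h.picard f hf (fun z hz => (hfU z hz).1) ?_
    obtain ⟨z, hz, hzΞ⟩ := hfΞ
    exact ⟨z, hz, fun h1 => hzΞ ⟨h1, hfU z hz⟩⟩
  · exact fun f hf hfU hfn z => ⟨h.brody f hf (fun z => (hfU z).1) hfn z, hfU z⟩
  · intro Q _ hQ hPQ hsub w hw hz
    refine logGT_of_gt (h.strongly Q hQ hPQ ?_ w hw hz) _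
    intro h1
    exact hsub fun x hx => ⟨h1 hx.1, fun R hR n hn => hx.1 R (hPQ hR) n hn, hx.2⟩

end Pool.Agent.H7.Bir

end
end

section

/-!
# Qup Defs: dominant regular maps of quasi-projective varieties
-/

set_option autoImplicit false

open Topology Filter MvPolynomial

noncomputable section

namespace Pool.Agent.H7.Qup

open Pool.Agent.H17 (PN VanishesAt)
open Pool.Agent.H62.FC (Homog)
open Pool.Agent.H62.SA (locVar)
open Pool.Agent.H7.Bir (vals rmap vals_smul mem_of_open)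

variable {N M : ℕ}

/-- `p` is a dominant regular map from the quasi-projective variety `U' = locVar P' G'` to the quasi-projective variety `U = locVar P G`. -/
structure IsDominantMap (P : Ideal (MvPolynomial (Fin (N + 1)) ℂ)) (P' : Ideal (MvPolynomial (Fin (M + 1)) ℂ)) {s s' : ℕ}
    (G : Fin s → MvPolynomial (Fin (N + 1)) ℂ) (G' : Fin s' → MvPolynomial (Fin (M + 1)) ℂ) (p : PN M → PN N) : Prop where
  /-- `p` maps `U'` into `U` -/
  maps : ∀ y ∈ locVar P' G', p y ∈ locVar P G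
  /-- near every point of `U'` the map `p` is given by forms of the same degree -/
  regular : ∀ y ∈ locVar P' G', ∃ (D : ℕ) (γ : Fin (N + 1) → MvPolynomial (Fin (M + 1)) ℂ), (∀ i, (γ i).IsHomogeneous D) ∧
    vals γ y.rep ≠ 0 ∧ ∀ y' ∈ locVar P' G', vals γ y'.rep ≠ 0 → p y' = rmap γ y'
  /-- the image is Zariski dense -/
  dense : ∀ (Q : MvPolynomial (Fin (N + 1)) ℂ) (n : ℕ), Q.IsHomogeneous n → (∀ y ∈ locVar P' G', VanishesAt Q (p y)) → Q ∈ P

variable {P : Ideal (MvPolynomial (Fin (N + 1)) ℂ)} {P' : Ideal (MvPolynomial (Fin (M + 1)) ℂ)} {s s' : ℕ}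
  {G : Fin s → MvPolynomial (Fin (N + 1)) ℂ} {G' : Fin s' → MvPolynomial (Fin (M + 1)) ℂ} {p : PN M → PN N}

/-- The forms `γ i` represent `p` on `U'`. -/
structure Rep (P' : Ideal (MvPolynomial (Fin (M + 1)) ℂ)) (G' : Fin s' → MvPolynomial (Fin (M + 1)) ℂ) (p : PN M → PN N) (D : ℕ)
    (γ : Fin (N + 1) → MvPolynomial (Fin (M + 1)) ℂ) : Prop where
  hom : ∀ i, (γ i).IsHomogeneous D
  rep : ∀ y ∈ locVar P' G', vals γ y.rep ≠ 0 → p y = rmap γ y

theorem IsDominantMap.exists_rep (hp : IsDominantMap P P' G G' p) {y : PN M} (hy : y ∈ locVar P' G') :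
    ∃ (D : ℕ) (γ : Fin (N + 1) → MvPolynomial (Fin (M + 1)) ℂ), Rep P' G' p D γ ∧ vals γ y.rep ≠ 0 := by
  obtain ⟨D, γ, h1, h2, h3⟩ := hp.regular y hy
  exact ⟨D, γ, ⟨h1, h3⟩, h2⟩

theorem aeval_homog {γ : Fin (N + 1) → MvPolynomial (Fin (M + 1)) ℂ} {D : ℕ} (hγ : ∀ i, (γ i).IsHomogeneous D) {n : ℕ}
    {Q : MvPolynomial (Fin (N + 1)) ℂ} (hQ : Q.IsHomogeneous n) : (aeval γ Q).IsHomogeneous (D * n) :=
  hQ.aeval _ hγ

theorem eval_smul {n : ℕ} {Q : MvPolynomial (Fin (N + 1)) ℂ} (hQ : Q.IsHomogeneous n) (c : ℂ) (x : Fin (N + 1) → ℂ) :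
    eval (c • x) Q = c ^ n * eval x Q :=
  Pool.Agent.H17BP.eval_smul_form hQ c x

/-- Two systems of forms which represent `p` are proportional at every point. -/
theorem Rep.prop {D D' : ℕ} {γ γ' : Fin (N + 1) → MvPolynomial (Fin (M + 1)) ℂ} (h : Rep P' G' p D γ) (h' : Rep P' G' p D' γ')
    {y : PN M} (hy : y ∈ locVar P' G') (i j : Fin (N + 1)) :
    eval y.rep (γ i) * eval y.rep (γ' j) = eval y.rep (γ j) * eval y.rep (γ' i) := by
  by_cases h1 : vals γ y.rep = 0
  · have h2 : ∀ i, eval y.rep (γ i) = 0 := fun i => congrFun h1 i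
    rw [h2 i, h2 j]
    ring
  by_cases h3 : vals γ' y.rep = 0
  · have h2 : ∀ i, eval y.rep (γ' i) = 0 := fun i => congrFun h3 i
    rw [h2 i, h2 j]
    ring
  have h4 : rmap γ y = rmap γ' y := by
    rw [← h.rep y hy h1, ← h'.rep y hy h3]
  unfold Pool.Agent.H7.Bir.rmap at h4
  rw [dif_pos h1, dif_pos h3, Projectivization.mk_eq_mk_iff'] at h4
  obtain ⟨a, ha⟩ := h4
  have h5 : ∀ i, eval y.rep (γ i) = a * eval y.rep (γ' i) := fun i => (congrFun ha i).symm
  rw [h5 i, h5 j]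
  ring

/-- The value of a form at the image of a point. -/
theorem Rep.vanishes_iff {D : ℕ} {γ : Fin (N + 1) → MvPolynomial (Fin (M + 1)) ℂ} (h : Rep P' G' p D γ) {y : PN M} (hy : y ∈ locVar P' G')
    (hv : vals γ y.rep ≠ 0) {n : ℕ} {Q : MvPolynomial (Fin (N + 1)) ℂ} (hQ : Q.IsHomogeneous n) :
    VanishesAt Q (p y) ↔ eval y.rep (aeval γ Q) = 0 := by
  rw [h.rep y hy hv, Pool.Agent.H7.Bir.vanishesAt_rmap hv hQ]
  rfl

/-- The forms which represent `p` define a dominant rational map. -/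
theorem IsDominantMap.maps_iff [P.IsPrime] [P'.IsPrime] (hp : IsDominantMap P P' G G' p) (hP' : Homog P')
    (hG' : ∀ m, ∃ n, (G' m).IsHomogeneous n) {D : ℕ} {γ : Fin (N + 1) → MvPolynomial (Fin (M + 1)) ℂ} (hγ : Rep P' G' p D γ)
    (hne : ∃ y ∈ locVar P' G', vals γ y.rep ≠ 0) (n : ℕ) (Q : MvPolynomial (Fin (N + 1)) ℂ) (hQ : Q.IsHomogeneous n) :
    aeval γ Q ∈ P' ↔ Q ∈ P := by
  obtain ⟨y₀, hy₀, hne⟩ := hne
  have hnon : (locVar P' G').Nonempty := ⟨y₀, hy₀⟩
  constructor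
  · intro h
    refine hp.dense Q n hQ fun y' hy' => ?_
    obtain ⟨D', γ', hγ', hne'⟩ := hp.exists_rep hy'
    rw [hγ'.vanishes_iff hy' hne' hQ]
    obtain ⟨j, hj⟩ : ∃ j, eval y₀.rep (γ j) ≠ 0 := by
      by_contra hcon
      push Not at hcon
      exact hne (funext hcon)
    have hjP : γ j ∉ P' := fun h1 => hj (hy₀.1 _ h1 D (hγ.hom j))
    have hmem : γ j ^ n * aeval γ' Q ∈ P' := by
      refine mem_of_open hP' hG' hnon (((hγ.hom j).pow n).mul (aeval_homog hγ'.hom hQ)) fun y hy => ?_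
      have h3 : eval y.rep (aeval γ Q) = 0 := hy.1 _ h _ (aeval_homog hγ.hom hQ)
      unfold VanishesAt
      rw [map_mul, map_pow, Pool.Agent.H7.Bir.eval_comp, ← eval_smul hQ]
      have h4 : eval y.rep (γ j) • vals γ' y.rep = eval y.rep (γ' j) • vals γ y.rep := by
        funext i
        have h5 := hγ.prop hγ' hy j i
        change eval y.rep (γ j) * eval y.rep (γ' i) = eval y.rep (γ' j) * eval y.rep (γ i)
        rw [h5, mul_comm]
      rw [h4, eval_smul hQ, ← Pool.Agent.H7.Bir.eval_comp, h3, mul_zero]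
    rcases Ideal.IsPrime.mem_or_mem inferInstance hmem with h1 | h1
    · exact absurd (Ideal.IsPrime.mem_of_pow_mem inferInstance n h1) hjP
    · exact hy'.1 _ h1 _ (aeval_homog hγ'.hom hQ)
  · intro h
    refine mem_of_open hP' hG' hnon (aeval_homog hγ.hom hQ) fun y hy => ?_
    have h2 : eval (p y).rep Q = 0 := (hp.maps y hy).1 Q h n hQ
    by_cases h1 : vals γ y.rep = 0
    · unfold VanishesAt
      rw [Pool.Agent.H7.Bir.eval_comp, h1]
      have h3 := eval_smul hQ 0 (p y).rep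
      rw [zero_smul, h2, mul_zero] at h3
      exact h3
    · exact (hγ.vanishes_iff hy h1 hQ).1 h2

end Pool.Agent.H7.Qup

end
end
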