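import Pool.Agent.H94.CB.H19OL.Norm
import Pool.Agent.H94.CB.M129
import Pool.Agent.H94.CB.M131

/-! The parts of this file: H62.Qe.TopQ, H7.Qup.Hom, H94.Jac, H7.Qup.Log, H7.Qup.Bd, H7.Qup.Rel. -/

section

/-!
# Qe TopQ: maps which are local homeomorphisms over an open set, and lifts of continuous maps
-/

set_option autoImplicit false

open Topology Filter

namespace Pool.Agent.H62.Qe

attribute [-instance] ProperSMul.toContinuousSMul

/-- A continuous map which is injective near `e` and has a local section through `e` is a homeomorphism near `e`. -/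
theorem exists_localHomeo {E Y : Type} [TopologicalSpace E] [TopologicalSpace Y] {p : E → Y} (hp : Continuous p) {e : E}
    (hinj : ∀ᶠ q in 𝓝 (e, e), p q.1 = p q.2 → q.1 = q.2)
    (hsec : ∃ s : Y → E, s (p e) = e ∧ ∀ᶠ y in 𝓝 (p e), ContinuousAt s y ∧ p (s y) = y) :
    ∃ φ : OpenPartialHomeomorph E Y, e ∈ φ.source ∧ p = φ := by
  obtain ⟨s, hse, hs⟩ := hsec
  obtain ⟨V, hVs, hVo, heV⟩ := eventually_nhds_iff.1 hs
  have h1 : {q : E × E | p q.1 = p q.2 → q.1 = q.2} ∈ 𝓝 e ×ˢ 𝓝 e := by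
    rw [← nhds_prod_eq]
    exact hinj
  obtain ⟨U₁, hU₁, hU₁s⟩ := Filter.mem_prod_self_iff.1 h1
  obtain ⟨U, hUU₁, hUo, heU⟩ := mem_nhds_iff.1 hU₁
  have hU : ∀ e₁ ∈ U, ∀ e₂ ∈ U, p e₁ = p e₂ → e₁ = e₂ := fun e₁ h₁ e₂ h₂ => hU₁s (Set.mk_mem_prod (hUU₁ h₁) (hUU₁ h₂))
  have hsV : ContinuousOn s V := fun y hy => (hVs y hy).1.continuousWithinAt
  have hW : IsOpen (V ∩ s ⁻¹' U) := hsV.isOpen_inter_preimage hVo hUo
  have hU₀ : IsOpen (U ∩ p ⁻¹' (V ∩ s ⁻¹' U)) := hUo.inter (hW.preimage hp)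
  have hleft : ∀ e' ∈ U ∩ p ⁻¹' (V ∩ s ⁻¹' U), s (p e') = e' := fun e' he' =>
    hU _ he'.2.2 _ he'.1 (hVs _ he'.2.1).2
  refine ⟨
    { toFun := p
      invFun := s
      source := U ∩ p ⁻¹' (V ∩ s ⁻¹' U)
      target := V ∩ s ⁻¹' U
      map_source' := fun e' he' => he'.2
      map_target' := fun y hy => by
        refine ⟨hy.2, ?_⟩
        show p (s y) ∈ V ∩ s ⁻¹' U
        rw [(hVs y hy.1).2]
        exact hy
      left_inv' := hleft
      right_inv' := fun y hy => (hVs y hy.1).2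
      open_source := hU₀
      open_target := hW
      continuousOn_toFun := hp.continuousOn
      continuousOn_invFun := hsV.mono Set.inter_subset_left }, ?_, rfl⟩
  refine ⟨heU, heV, ?_⟩
  show s (p e) ∈ U
  rw [hse]
  exact heU

variable {E Y : Type} [TopologicalSpace E] [TopologicalSpace Y] [T2Space E] [T2Space Y] [CompactSpace E] {p : E → Y}

/-- Existence and uniqueness of the lifts of maps of the plane. -/
theorem exists_unique_lift (hp : Continuous p) {s : Set Y}
    (h : ∀ e : E, p e ∈ s → ∃ φ : OpenPartialHomeomorph E Y, e ∈ φ.source ∧ p = φ)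
    {f : ℂ → Y} (hf : Continuous f) (hfs : ∀ z, f z ∈ s) {a : ℂ} {e₀ : E} (he : p e₀ = f a) :
    ∃! F : C(ℂ, E), F a = e₀ ∧ p ∘ F = f := by
  have hl : IsLocalHomeomorphOn p (p ⁻¹' s) := fun e he => h e he
  have hc : IsCoveringMapOn p s := IsCoveringMapOn.of_isLocalHomeomorphOn hp hl
  exact hc.existsUnique_continuousMap_lifts (⟨f, hf⟩ : C(ℂ, Y)) he hfs

/-- Lifts of maps of the plane. -/
theorem exists_lift_plane (hp : Continuous p) {s : Set Y}
    (h : ∀ e : E, p e ∈ s → ∃ φ : OpenPartialHomeomorph E Y, e ∈ φ.source ∧ p = φ)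
    {f : ℂ → Y} (hf : Continuous f) (hfs : ∀ z, f z ∈ s) {a : ℂ} {e₀ : E} (he : p e₀ = f a) :
    ∃ g : ℂ → E, Continuous g ∧ g a = e₀ ∧ ∀ z, p (g z) = f z := by
  obtain ⟨F, ⟨h1, hF⟩, -⟩ := exists_unique_lift hp h hf hfs he
  exact ⟨F, F.continuous, h1, fun z => congrFun hF z⟩

/-- Two lifts which agree at a point are equal. -/
theorem lift_unique (hp : Continuous p) {s : Set Y}
    (h : ∀ e : E, p e ∈ s → ∃ φ : OpenPartialHomeomorph E Y, e ∈ φ.source ∧ p = φ)
    {f : ℂ → Y} (hf : Continuous f) (hfs : ∀ z, f z ∈ s) {g g' : ℂ → E} (hg : Continuous g) (hg' : Continuous g')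
    (h1 : ∀ z, p (g z) = f z) (h2 : ∀ z, p (g' z) = f z) {a : ℂ} (ha : g a = g' a) (z : ℂ) : g z = g' z := by
  have h3 := (exists_unique_lift hp h hf hfs (h1 a)).unique (y₁ := (⟨g, hg⟩ : C(ℂ, E))) (y₂ := (⟨g', hg'⟩ : C(ℂ, E)))
    ⟨rfl, funext h1⟩ ⟨ha.symm, funext h2⟩
  exact congrArg (fun F : C(ℂ, E) => F z) h3

omit [T2Space E] in
/-- The fibres are finite. -/
theorem finite_fibre (hp : Continuous p) {s : Set Y}
    (h : ∀ e : E, p e ∈ s → ∃ φ : OpenPartialHomeomorph E Y, e ∈ φ.source ∧ p = φ) {y : Y} (hy : y ∈ s) :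
    (p ⁻¹' {y}).Finite := by
  refine (isClosed_singleton.preimage hp).isCompact.finite (IsDiscrete.of_openPartialHomeomorph p subset_rfl fun e he => ?_)
  obtain ⟨φ, h1, h2⟩ := h e (by rw [show p e = y from he]; exact hy)
  exact ⟨φ, h1, h2.symm⟩

/-- **Periodic lifts.**  A periodic map has a lift which is periodic for a multiple of the period. -/
theorem exists_lift_periodic (hp : Continuous p) (hsu : Function.Surjective p) {s : Set Y}
    (h : ∀ e : E, p e ∈ s → ∃ φ : OpenPartialHomeomorph E Y, e ∈ φ.source ∧ p = φ)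
    {f : ℂ → Y} (hf : Continuous f) (hfs : ∀ z, f z ∈ s) {c : ℂ} (hfc : ∀ z, f (z + c) = f z) :
    ∃ (g : ℂ → E) (k : ℕ), Continuous g ∧ (∀ z, p (g z) = f z) ∧ 1 ≤ k ∧ ∀ z, g (z + k * c) = g z := by
  obtain ⟨e₀, he₀⟩ := hsu (f 0)
  obtain ⟨g, hg, -, hgf⟩ := exists_lift_plane hp h hf hfs he₀
  have hper : ∀ (n : ℕ) (z : ℂ), f (z + n * c) = f z := by
    intro n
    induction n with
    | zero => intro z; simp
    | succ n ih =>
      intro z
      rw [← hfc z, ← ih (z + c)]
      congr 1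
      push_cast
      ring
  have hfin : (p ⁻¹' {f 0}).Finite := finite_fibre hp h (hfs 0)
  have hmaps : ∀ n : ℕ, g (n * c) ∈ p ⁻¹' {f 0} := by
    intro n
    have h1 := hper n 0
    rw [zero_add] at h1
    change p (g (n * c)) = f 0
    rw [hgf, h1]
  obtain ⟨m, n, hmn, hval⟩ : ∃ m n : ℕ, m < n ∧ g (m * c) = g (n * c) := by
    have : ¬ Function.Injective fun n : ℕ => (⟨g (n * c), hmaps n⟩ : (p ⁻¹' {f 0})) := by
      intro hinj
      have := hfin.to_subtype
      exact not_injective_infinite_finite _ hinj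
    rw [Function.not_injective_iff] at this
    obtain ⟨a, b, hab, hne⟩ := this
    have hab' : g (a * c) = g (b * c) := congrArg Subtype.val hab
    rcases lt_or_gt_of_ne hne with hlt | hlt
    · exact ⟨a, b, hlt, hab'⟩
    · exact ⟨b, a, hlt, hab'.symm⟩
  refine ⟨g, n - m, hg, hgf, by omega, fun z => ?_⟩
  have hgn : ∀ q : ℕ, Continuous fun z => g (z + q * c) := fun q => hg.comp (continuous_id.add continuous_const)
  have h3 : ∀ z, g (z + m * c) = g (z + n * c) := by
    intro z
    refine lift_unique hp h hf hfs (hgn m) (hgn n) (fun z => ?_) (fun z => ?_) (a := 0) ?_ z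
    · rw [hgf, hper]
    · rw [hgf, hper]
    · simpa using hval
  have h4 := h3 (z - m * c)
  rw [sub_add_cancel] at h4
  rw [h4]
  congr 1
  rw [Nat.cast_sub hmn.le]
  ring

end Pool.Agent.H62.Qe

end

section

/-!
# Qup Hom: the embedding of the function fields given by a dominant regular map
-/

set_option autoImplicit false

open MvPolynomial

noncomputable section

namespace Pool.Agent.H7.Qup

attribute [-instance] ProperSMul.toContinuousSMul

open Pool.Agent.H17 (PN VanishesAt)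
open Pool.Agent.H17GT (coordFun)
open Pool.Agent.H17LG.Variety (FunField ratio)
open Pool.Agent.H62.FC (Homog)
open Pool.Agent.H17R (gen gen_eq_zero_iff ratio_self adjoin_ratio coordFun_ne_zero_iff)
open Pool.Agent.H7.Bir (exists_form aeval_comp aeval_div)

variable {N M : ℕ}

/-- A homomorphism from a function field with given values at the coordinates. -/
theorem exists_hom_val {Q : Ideal (MvPolynomial (Fin (N + 1)) ℂ)} [Q.IsPrime] {j : Fin (N + 1)} (hj : coordFun Q j ≠ 0)
    {L : Type} [Field L] [Algebra ℂ L] {x : Fin (N + 1) → L} (hx : x j = 1)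
    (h : ∀ (n : ℕ) (R : MvPolynomial (Fin (N + 1)) ℂ), R.IsHomogeneous n → (aeval x R = 0 ↔ R ∈ Q)) :
    ∃ e : FunField Q →ₐ[ℂ] L, ∀ i, e (ratio Q i j) = x i := by
  set ξ : Fin (N + 1) → FunField Q := fun i => ratio Q i j with hξ
  have hker : ∀ R : MvPolynomial (Fin (N + 1)) ℂ, aeval ξ R = 0 ↔ aeval x R = 0 := by
    intro R
    obtain ⟨D, h1⟩ := exists_form j R
    obtain ⟨R', h2, h3⟩ := h1 D le_rfl
    rw [← h3 _ ξ (ratio_self hj), ← h3 _ x hx, h D R' h2]
    exact gen_eq_zero_iff hj h2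
  set f : MvPolynomial (Fin (N + 1)) ℂ →ₐ[ℂ] (aeval ξ : MvPolynomial (Fin (N + 1)) ℂ →ₐ[ℂ] FunField Q).range :=
    (aeval ξ : MvPolynomial (Fin (N + 1)) ℂ →ₐ[ℂ] FunField Q).rangeRestrict with hf
  have hfs : Function.Surjective f := AlgHom.rangeRestrict_surjective _
  have hfv : ∀ R, ((f R : (aeval ξ : MvPolynomial (Fin (N + 1)) ℂ →ₐ[ℂ] FunField Q).range) : FunField Q) = aeval ξ R := fun R => rfl
  have hle : RingHom.ker f.toRingHom ≤ RingHom.ker (aeval x : MvPolynomial (Fin (N + 1)) ℂ →ₐ[ℂ] L).toRingHom := by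
    intro R hR
    have h1 : f R = 0 := hR
    have h2 : aeval ξ R = 0 := by
      rw [← hfv, h1]
      rfl
    exact (hker R).1 h2
  set g := AlgHom.liftOfSurjective f hfs (aeval x) hle with hg
  have hgv : ∀ R, g (f R) = aeval x R := fun R => AlgHom.liftOfSurjective_apply f hfs (aeval x) hle R
  have hgi : Function.Injective g := by
    rw [injective_iff_map_eq_zero]
    intro a ha
    obtain ⟨R, rfl⟩ := hfs a
    rw [hgv] at ha
    exact Subtype.ext ((hker R).2 ha)
  have hfr : IsFractionRing (aeval ξ : MvPolynomial (Fin (N + 1)) ℂ →ₐ[ℂ] FunField Q).range (FunField Q) := by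
    refine IsFractionRing.of_field _ _ fun z => ?_
    have hz : z ∈ IntermediateField.adjoin ℂ (Set.range ξ) := by
      rw [adjoin_ratio hj]
      trivial
    obtain ⟨r, s, hrs⟩ := (IntermediateField.mem_adjoin_range_iff ℂ ξ z).1 hz
    exact ⟨f r, f s, hrs⟩
  refine ⟨IsFractionRing.liftAlgHom hgi, fun i => ?_⟩
  rw [IsFractionRing.liftAlgHom_apply]
  have h1 : ratio Q i j = algebraMap (aeval ξ : MvPolynomial (Fin (N + 1)) ℂ →ₐ[ℂ] FunField Q).range (FunField Q) (f (X i)) := by
    change _ = aeval ξ (X i)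
    rw [aeval_X]
  rw [h1, IsFractionRing.lift_algebraMap]
  change g (f (X i)) = _
  rw [hgv, aeval_X]

end Pool.Agent.H7.Qup

end
end

section

/-!
# A Jacobian criterion for algebraic independence

* `algebraicIndependent_of_jacobian`: polynomials with nonzero Jacobian determinant at a point are
  algebraically independent (characteristic zero).
* `exists_algebraicIndependent_of_injective`: from a family `c j` of polynomials whose differential
  at a point is injective one obtains linear combinations, as many as there are variables, that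
  are algebraically independent.
-/

namespace Pool.Agent.H94

attribute [-instance] ProperSMul.toContinuousSMul

open MvPolynomial

variable {k : Type*} [Field k]

lemma eq_C_of_pderiv_eq_zero [CharZero k] {ι : Type*} (P : MvPolynomial ι k)
    (h : ∀ i, pderiv i P = 0) : P = C (coeff 0 P) := by
  classical
  ext m
  rw [coeff_C]
  by_cases hm : m = 0
  · subst hm; simp
  · rw [if_neg (Ne.symm hm)]
    obtain ⟨i, hi⟩ : ∃ i, m i ≠ 0 := by
      by_contra hcon
      push Not at hcon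
      exact hm (Finsupp.ext hcon)
    have h1 := congrArg (coeff (m - Finsupp.single i 1)) (h i)
    rw [coeff_pderiv, coeff_zero] at h1
    have h2 : m - Finsupp.single i 1 + Finsupp.single i 1 = m :=
      Finsupp.sub_add_single_one_cancel hi
    rw [h2] at h1
    rcases mul_eq_zero.1 h1 with h1 | h1
    · exact h1
    · exfalso
      have : ((((m - Finsupp.single i 1 : ι →₀ ℕ)) i + 1 : ℕ) : k) = 0 := by push_cast; exact h1
      exact Nat.cast_ne_zero.2 (Nat.succ_ne_zero _) this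

lemma totalDegree_pderiv_lt {ι : Type*} (P : MvPolynomial ι k) (i : ι) (h : pderiv i P ≠ 0) :
    (pderiv i P).totalDegree < P.totalDegree := by
  classical
  obtain ⟨m, hm, hmd⟩ := Finset.exists_mem_eq_sup (pderiv i P).support
    (support_nonempty.2 h) (fun s => s.sum fun _ e => e)
  rw [mem_support_iff, coeff_pderiv] at hm
  have h1 : coeff (m + Finsupp.single i 1) P ≠ 0 := left_ne_zero_of_mul hm
  have h2 := le_totalDegree (mem_support_iff.2 h1)
  have h3 : (m + Finsupp.single i 1).degree = m.degree + 1 := by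
    rw [map_add, Finsupp.degree_single]
  have h4 : (m + Finsupp.single i 1).sum (fun _ e => e) = (m + Finsupp.single i 1).degree := rfl
  have h5 : m.sum (fun _ e => e) = m.degree := rfl
  have h6 : (pderiv i P).totalDegree = m.degree := hmd
  rw [h4, h3] at h2
  omega

end Pool.Agent.H94

end

section

/-!
# Qup Log: logarithmic forms and algebraic extensions of function fields

`isLGT_of_algebraic`: let `L` be an algebraic extension of the function field `K`, and let `B` and `B'` be sets of prime divisors over `K` and `L`, such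
that a prime divisor over `L` is in `B'` if the prime divisor of `K` under it is in `B`.  If `K` is of log general type with respect to `B`, then `L` is of
log general type with respect to `B'`.

`form_ramified`: a regular `k`-form of `K` along a prime divisor `D` is, along a prime divisor `E` of `L` above `D` with the ramification index `e`, of the form
`T ^ (e - 1) η'`, where `T` is a uniformizer along `E` and `η'` is regular along `E`.
-/

set_option autoImplicit false

open Pool.Agent.H23.Fano (Form Diff ExtPow regularForms PrimeDivisorOver)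
open Pool.Agent.H17LG.Variety (PoleAtMost IsLogGeneralType)

noncomputable section

namespace Pool.Agent.H7.Qup

attribute [-instance] ProperSMul.toContinuousSMul

open Pool.Agent.H7.Gtu

section Res

variable {K : Type} [Field K] [Algebra ℂ K] {k : ℕ}

theorem ord_nonneg_aeval (D : PrimeDivisorOver K k) {n : ℕ} {a : Fin n → K} (ha : ∀ i, 0 ≤ D.ord (a i)) (p : MvPolynomial (Fin n) ℂ) :
    0 ≤ D.ord (MvPolynomial.aeval a p) := by
  have h1 : ((MvPolynomial.aeval (fun i => (⟨a i, ha i⟩ : vring D.ord D.ord_const)) p : vring D.ord D.ord_const) : K) =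
      MvPolynomial.aeval a p := by
    have h2 := MvPolynomial.comp_aeval (fun i => (⟨a i, ha i⟩ : vring D.ord D.ord_const)) (vring D.ord D.ord_const).val
    exact DFunLike.congr_fun h2 p
  rw [← h1]
  exact (MvPolynomial.aeval (fun i => (⟨a i, ha i⟩ : vring D.ord D.ord_const)) p).2

/-- The residue classes of `k` elements of the local ring of a prime divisor are algebraically dependent. -/
theorem exists_dep {z : Fin k → K} (hz : IsTranscendenceBasis ℂ z) (D : PrimeDivisorOver K k) {a : Fin k → K} (ha : ∀ i, 0 ≤ D.ord (a i)) :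
    ∃ p : MvPolynomial (Fin k) ℂ, p ≠ 0 ∧ 0 < D.ord (MvPolynomial.aeval a p) := by
  by_contra hcon
  push Not at hcon
  have h0 : ∀ p : MvPolynomial (Fin k) ℂ, p ≠ 0 → D.ord (MvPolynomial.aeval a p) = 0 := fun p hp =>
    le_antisymm (hcon p hp) (ord_nonneg_aeval D ha p)
  have hind : AlgebraicIndependent ℂ a := by
    rw [algebraicIndependent_iff]
    intro p hp
    by_contra hne
    have h1 := h0 p hne
    rw [hp, D.ord.map_zero] at h1
    exact WithTop.top_ne_zero h1
  have h2 : Algebra.trdeg ℂ K ≤ Cardinal.mk (Fin k) := by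
    have h3 := hz.lift_cardinalMk_eq_trdeg
    simp only [Cardinal.lift_id] at h3
    exact h3.symm.le
  have h3 : IsTranscendenceBasis ℂ a := hind.isTranscendenceBasis_of_trdeg_le_of_finite h2
  have _ : Algebra.IsAlgebraic (IntermediateField.adjoin ℂ (Set.range a)) K := h3.isAlgebraic_field
  obtain ⟨t, ht⟩ := D.exists_uniformizer
  obtain ⟨x, hx⟩ := exists_neg (K := IntermediateField.adjoin ℂ (Set.range a)) D.ord ht
  obtain ⟨r, s, hrs⟩ := (IntermediateField.mem_adjoin_range_iff ℂ a (x : K)).1 x.2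
  have hx0 : (x : K) ≠ 0 := by
    intro h
    have h4 : D.ord (algebraMap (IntermediateField.adjoin ℂ (Set.range a)) K x) = ⊤ := by
      change D.ord (x : K) = ⊤
      rw [h, D.ord.map_zero]
    rw [h4] at hx
    exact absurd hx (not_lt.2 le_top)
  have hr : r ≠ 0 := by
    rintro rfl
    rw [map_zero, zero_div] at hrs
    exact hx0 hrs
  have hs : s ≠ 0 := by
    rintro rfl
    rw [map_zero, div_zero] at hrs
    exact hx0 hrs
  have hs0 : MvPolynomial.aeval a s ≠ 0 := fun h => hs ((algebraicIndependent_iff.1 hind) s h)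
  have h5 : (x : K) * MvPolynomial.aeval a s = MvPolynomial.aeval a r := by
    rw [hrs, div_mul_cancel₀ _ hs0]
  have h6 : D.ord (x : K) = 0 := by
    have h7 := congrArg D.ord h5
    rw [D.ord.map_mul, h0 s hs, h0 r hr, add_zero] at h7
    exact h7
  have h8 : D.ord (x : K) < 0 := hx
  rw [h6] at h8
  exact lt_irrefl _ h8

/-- A polynomial relation modulo the maximal ideal with a derivative which is a unit. -/
theorem exists_rel {z : Fin k → K} (hz : IsTranscendenceBasis ℂ z) (D : PrimeDivisorOver K k) {a : Fin k → K} (ha : ∀ i, 0 ≤ D.ord (a i)) :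
    ∃ (p : MvPolynomial (Fin k) ℂ) (i : Fin k), 0 < D.ord (MvPolynomial.aeval a p) ∧
      D.ord (MvPolynomial.aeval a (MvPolynomial.pderiv i p)) = 0 := by
  classical
  have hex : ∃ n : ℕ, ∃ p : MvPolynomial (Fin k) ℂ, p.totalDegree = n ∧ p ≠ 0 ∧ 0 < D.ord (MvPolynomial.aeval a p) := by
    obtain ⟨p, hp, hp'⟩ := exists_dep hz D ha
    exact ⟨_, p, rfl, hp, hp'⟩
  obtain ⟨p, hpn, hp0, hp⟩ := Nat.find_spec hex
  have hmin : ∀ q : MvPolynomial (Fin k) ℂ, q.totalDegree < Nat.find hex → q ≠ 0 → ¬ 0 < D.ord (MvPolynomial.aeval a q) :=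
    fun q hq hq0 hq1 => Nat.find_min hex hq ⟨q, rfl, hq0, hq1⟩
  have hpd : ∃ i, MvPolynomial.pderiv i p ≠ 0 := by
    by_contra hcon
    push Not at hcon
    have h1 := Pool.Agent.H94.eq_C_of_pderiv_eq_zero p hcon
    set c := MvPolynomial.coeff 0 p with hc
    have hc0 : c ≠ 0 := by
      intro h
      rw [h, MvPolynomial.C_0] at h1
      exact hp0 h1
    have h2 : D.ord (MvPolynomial.aeval a p) + D.ord (algebraMap ℂ K c⁻¹) = 0 := by
      rw [h1, MvPolynomial.aeval_C, ← D.ord.map_mul, ← map_mul, mul_inv_cancel₀ hc0, map_one, D.ord.map_one]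
    have h3 : 0 < D.ord (MvPolynomial.aeval a p) + D.ord (algebraMap ℂ K c⁻¹) := add_pos_of_pos_of_nonneg hp (D.ord_const _)
    rw [h2] at h3
    exact lt_irrefl _ h3
  obtain ⟨i, hi⟩ := hpd
  refine ⟨p, i, hp, le_antisymm (not_lt.1 (hmin _ ?_ hi)) (ord_nonneg_aeval D ha _)⟩
  rw [← hpn]
  exact Pool.Agent.H94.totalDegree_pderiv_lt p i hi

/-- The chain rule. -/
theorem D_aeval {n : ℕ} (a : Fin n → K) (p : MvPolynomial (Fin n) ℂ) : KaehlerDifferential.D ℂ K (MvPolynomial.aeval a p) =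
    ∑ i, MvPolynomial.aeval a (MvPolynomial.pderiv i p) • KaehlerDifferential.D ℂ K (a i) := by
  classical
  induction p using MvPolynomial.induction_on with
  | C c => simp
  | add p q hp hq =>
    simp only [map_add, hp, hq, add_smul, Finset.sum_add_distrib]
  | mul_X p i hp =>
    have h1 : ∀ j, MvPolynomial.aeval a (MvPolynomial.pderiv j (p * MvPolynomial.X i)) • KaehlerDifferential.D ℂ K (a j) =
        a i • (MvPolynomial.aeval a (MvPolynomial.pderiv j p) • KaehlerDifferential.D ℂ K (a j)) +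
          (if i = j then MvPolynomial.aeval a p • KaehlerDifferential.D ℂ K (a j) else 0) := by
      intro j
      rw [MvPolynomial.pderiv_mul, map_add, map_mul, map_mul, MvPolynomial.aeval_X, MvPolynomial.pderiv_X, add_smul, smul_smul,
        mul_comm (MvPolynomial.aeval a (MvPolynomial.pderiv j p)) (a i)]
      congr 1
      by_cases hij : i = j
      · subst hij
        simp
      · rw [if_neg hij, Pi.single_eq_of_ne hij, map_zero, mul_zero, zero_smul]
    rw [Finset.sum_congr rfl fun j _ => h1 j, Finset.sum_add_distrib, ← Finset.smul_sum, ← hp, Finset.sum_ite_eq, if_pos (Finset.mem_univ i),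
      map_mul, MvPolynomial.aeval_X, Derivation.leibniz]
    abel

end Res

section Ram

variable {L : Type} [Field L] [Algebra ℂ L] {k : ℕ}

/-- The wedge product of the differentials of `a`. -/
def wd (a : Fin k → L) : ⋀[L]^k Ω[L⁄ℂ] := exteriorPower.ιMulti L k fun i => KaehlerDifferential.D ℂ L (a i)

theorem D_update (a : Fin k → L) (i : Fin k) (b : L) : (fun j => KaehlerDifferential.D ℂ L (Function.update a i b j)) =
    Function.update (fun j => KaehlerDifferential.D ℂ L (a j)) i (KaehlerDifferential.D ℂ L b) := by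
  funext j
  by_cases hj : j = i
  · subst hj
    simp
  · simp [Function.update_of_ne hj]

theorem wd_rel (a : Fin k → L) (p : MvPolynomial (Fin k) ℂ) (i : Fin k) : wd (Function.update a i (MvPolynomial.aeval a p)) =
    MvPolynomial.aeval a (MvPolynomial.pderiv i p) • wd a := by
  classical
  unfold wd
  rw [D_update, D_aeval, (exteriorPower.ιMulti L k).map_update_sum, Finset.sum_eq_single i]
  · rw [(exteriorPower.ιMulti L k).map_update_smul, Function.update_eq_self]
  · intro j _ hj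
    rw [(exteriorPower.ιMulti L k).map_update_smul, (exteriorPower.ιMulti L k).map_update_self _ (Ne.symm hj), smul_zero]
  · intro h
    exact absurd (Finset.mem_univ i) h

theorem wd_pow (a : Fin k → L) (i : Fin k) (T w : L) (n : ℕ) : wd (Function.update a i (T ^ (n + 1) * w)) =
    T ^ (n + 1) • wd (Function.update a i w) + ((n + 1 : ℕ) * T ^ n * w) • wd (Function.update a i T) := by
  unfold wd
  rw [D_update, D_update, D_update, Derivation.leibniz, Derivation.leibniz_pow, (exteriorPower.ιMulti L k).map_update_add,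
    (exteriorPower.ιMulti L k).map_update_smul, (exteriorPower.ιMulti L k).map_update_smul, Nat.add_sub_cancel]
  congr 1
  rw [← Nat.cast_smul_eq_nsmul L, (exteriorPower.ιMulti L k).map_update_smul, (exteriorPower.ιMulti L k).map_update_smul, smul_smul, smul_smul]
  congr 1
  ring

end Ram

section Main

variable {K L : Type} [Field K] [Algebra ℂ K] [Field L] [Algebra ℂ L] [Algebra K L] {k : ℕ}

/-- The prime divisor `E` of `L` lies over the prime divisor `D` of `K`, with the ramification index `e`. -/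
def Over (D : PrimeDivisorOver K k) (E : PrimeDivisorOver L k) (e : ℕ) : Prop :=
  0 < e ∧ ∀ f : K, f ≠ 0 → ∃ n : ℤ, D.ord f = n ∧ E.ord (algebraMap K L f) = ((e * n : ℤ) : WithTop ℤ)

theorem Over.nonneg {D : PrimeDivisorOver K k} {E : PrimeDivisorOver L k} {e : ℕ} (h : Over D E e) {x : K} (hx : 0 ≤ D.ord x) :
    0 ≤ E.ord (algebraMap K L x) := by
  by_cases hx0 : x = 0
  · rw [hx0, map_zero, E.ord.map_zero]
    exact le_top
  · obtain ⟨n, hn, hn'⟩ := h.2 x hx0
    rw [hn']
    rw [hn] at hx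
    have h1 : (0 : ℤ) ≤ n := by exact_mod_cast hx
    have h2 : (0 : ℤ) ≤ e * n := mul_nonneg (by positivity) h1
    exact_mod_cast h2

theorem Over.eq_zero {D : PrimeDivisorOver K k} {E : PrimeDivisorOver L k} {e : ℕ} (h : Over D E e) {x : K} (hx : D.ord x = 0) :
    E.ord (algebraMap K L x) = 0 := by
  have hx0 : x ≠ 0 := by
    rintro rfl
    rw [D.ord.map_zero] at hx
    exact WithTop.top_ne_zero hx
  obtain ⟨n, hn, hn'⟩ := h.2 x hx0
  rw [hn] at hx
  have h1 : n = 0 := by exact_mod_cast hx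
  rw [hn', h1, mul_zero]
  rfl

theorem Over.pos {D : PrimeDivisorOver K k} {E : PrimeDivisorOver L k} {e : ℕ} (h : Over D E e) {x : K} (hx : 0 < D.ord x) (hx0 : x ≠ 0) :
    ∃ n : ℕ, E.ord (algebraMap K L x) = ((e + n : ℕ) : WithTop ℤ) := by
  obtain ⟨n, hn, hn'⟩ := h.2 x hx0
  rw [hn] at hx
  have h1 : (0 : ℤ) < n := by exact_mod_cast hx
  obtain ⟨m, rfl⟩ : ∃ m : ℕ, n = m + 1 := ⟨(n - 1).toNat, by omega⟩
  refine ⟨e * m, ?_⟩
  rw [hn']
  have h2 : ((e : ℤ) * (m + 1)) = ((e + e * m : ℕ) : ℤ) := by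
    push_cast
    ring
  rw [h2]
  rfl

theorem ord_pow {E : PrimeDivisorOver L k} {T : L} (hT : E.ord T = 1) (n : ℕ) : E.ord (T ^ n) = (n : WithTop ℤ) := by
  rw [E.ord.map_pow, hT, nsmul_one]

theorem cast_nonneg' (n : ℕ) : (0 : WithTop ℤ) ≤ (n : WithTop ℤ) := by
  exact_mod_cast Nat.zero_le n

theorem ord_nat (E : PrimeDivisorOver L k) (n : ℕ) : 0 ≤ E.ord (n : L) := by
  have h1 := E.ord_const (n : ℂ)
  rwa [map_natCast] at h1

/-- **Regular forms along a ramified divisor.** -/
theorem form_ramified {z : Fin k → K} (hz : IsTranscendenceBasis ℂ z) [IsScalarTower ℂ K L] {D : PrimeDivisorOver K k} {E : PrimeDivisorOver L k}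
    {e : ℕ} (h : Over D E e) {T : L} (hT : E.ord T = 1) {Φ : Form K k →+ Form L k}
    (hΦ : ∀ (c : K) a, Φ (Form.mk c a) = Form.mk (algebraMap K L c) fun i => algebraMap K L (a i)) {η : Form K k}
    (hη : η ∈ regularForms k D.localRing) : ∃ η' ∈ regularForms k E.localRing, Φ η = T ^ (e - 1) • η' := by
  classical
  have he := h.1
  unfold regularForms at hη ⊢
  induction hη using AddSubgroup.closure_induction with
  | mem x hx =>
    obtain ⟨c, a, hc, ha, rfl⟩ := hx
    obtain ⟨p, i, hp, hpi⟩ := exists_rel hz D ha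
    set a' : Fin k → L := fun j => algebraMap K L (a j) with ha'
    have hval : ∀ q : MvPolynomial (Fin k) ℂ, MvPolynomial.aeval a' q = algebraMap K L (MvPolynomial.aeval a q) :=
      fun q => MvPolynomial.aeval_algebraMap_apply (B := L) a q
    have hrel := wd_rel a' p i
    set u := MvPolynomial.aeval a' (MvPolynomial.pderiv i p) with hu
    have hu0 : E.ord u = 0 := by
      rw [hu, hval]
      exact h.eq_zero hpi
    have hune : u ≠ 0 := by
      intro h1
      rw [h1, E.ord.map_zero] at hu0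
      exact WithTop.top_ne_zero hu0
    have hui : E.ord u⁻¹ = 0 := by
      have h1 : E.ord u + E.ord u⁻¹ = 0 := by rw [← E.ord.map_mul, mul_inv_cancel₀ hune, E.ord.map_one]
      rwa [hu0, zero_add] at h1
    have hw : wd a' = u⁻¹ • wd (Function.update a' i (MvPolynomial.aeval a' p)) := by
      rw [hrel, smul_smul, inv_mul_cancel₀ hune, one_smul]
    by_cases hb : MvPolynomial.aeval a' p = 0
    · refine ⟨0, zero_mem _, ?_⟩
      rw [hΦ, smul_zero]
      have h1 : wd a' = 0 := by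
        rw [hw, hb]
        have h2 : wd (Function.update a' i (0 : L)) = 0 := by
          unfold wd
          rw [D_update, map_zero]
          exact (exteriorPower.ιMulti L k).map_update_zero _ _
        rw [h2, smul_zero]
      change (algebraMap K L c) • wd a' = 0
      rw [h1, smul_zero]
    · have hb' : MvPolynomial.aeval a p ≠ 0 := by
        intro h1
        apply hb
        rw [hval, h1, map_zero]
      obtain ⟨n, hn⟩ := h.pos hp hb'
      rw [← hval] at hn
      set b := MvPolynomial.aeval a' p with hbdef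
      have hT0 : T ≠ 0 := by
        rintro rfl
        rw [E.ord.map_zero] at hT
        exact absurd hT (by simp)
      set w := b / T ^ (e + n) with hwdef
      have hbw : b = T ^ (e + n - 1 + 1) * w := by
        rw [hwdef, Nat.sub_add_cancel (by omega), mul_div_cancel₀ _ (pow_ne_zero _ hT0)]
      have hw0 : E.ord w = 0 := by
        have h1 := congrArg E.ord hbw
        rw [E.ord.map_mul, ord_pow hT, hn, Nat.sub_add_cancel (by omega)] at h1
        have h2 : ((e + n : ℕ) : WithTop ℤ) ≠ ⊤ := WithTop.natCast_ne_top _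
        have h3 : ((e + n : ℕ) : WithTop ℤ) + 0 = ((e + n : ℕ) : WithTop ℤ) + E.ord w := by rw [add_zero]; exact h1
        exact ((WithTop.add_left_inj h2).1 h3).symm
      have hc' : 0 ≤ E.ord (algebraMap K L c) := h.nonneg hc
      have ha'' : ∀ j, 0 ≤ E.ord (a' j) := fun j => h.nonneg (ha j)
      have hupd : ∀ x : L, 0 ≤ E.ord x → ∀ j, 0 ≤ E.ord (Function.update a' i x j) := by
        intro x hx j
        by_cases hj : j = i
        · subst hj
          simpa using hx
        · rw [Function.update_of_ne hj]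
          exact ha'' j
      have hTn : 0 ≤ E.ord T := by
        rw [hT]
        exact zero_le_one
      refine ⟨Form.mk (algebraMap K L c * u⁻¹ * T ^ (n + 1)) (Function.update a' i w) +
        Form.mk (algebraMap K L c * u⁻¹ * (((e + n - 1 + 1 : ℕ) : L) * T ^ n * w)) (Function.update a' i T), ?_, ?_⟩
      · refine add_mem (AddSubgroup.subset_closure ⟨_, _, ?_, hupd w hw0.ge, rfl⟩) (AddSubgroup.subset_closure ⟨_, _, ?_, hupd T hTn, rfl⟩)
        · change 0 ≤ E.ord _
          rw [E.ord.map_mul, E.ord.map_mul, hui, ord_pow hT, add_zero]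
          exact add_nonneg hc' (cast_nonneg' _)
        · change 0 ≤ E.ord _
          rw [E.ord.map_mul, E.ord.map_mul, E.ord.map_mul, E.ord.map_mul, hui, hw0, ord_pow hT, add_zero, add_zero]
          exact add_nonneg hc' (add_nonneg (ord_nat E _) (cast_nonneg' _))
      · rw [hΦ]
        change (algebraMap K L c) • wd a' = T ^ (e - 1) • ((algebraMap K L c * u⁻¹ * T ^ (n + 1)) • wd (Function.update a' i w) +
          (algebraMap K L c * u⁻¹ * (((e + n - 1 + 1 : ℕ) : L) * T ^ n * w)) • wd (Function.update a' i T))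
        rw [hw, hbw, wd_pow]
        simp only [smul_add, smul_smul]
        obtain ⟨e', rfl⟩ : ∃ e', e = e' + 1 := ⟨e - 1, by omega⟩
        have h4 : e' + 1 + n - 1 = e' + n := by omega
        rw [h4, Nat.add_sub_cancel]
        congr 2
        · ring
        · ring
  | zero =>
    exact ⟨0, zero_mem _, by rw [map_zero, smul_zero]⟩
  | add x y _ _ hx hy =>
    obtain ⟨x', hx', hx⟩ := hx
    obtain ⟨y', hy', hy⟩ := hy
    exact ⟨x' + y', add_mem hx' hy', by rw [map_add, hx, hy, smul_add]⟩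
  | neg x _ hx =>
    obtain ⟨x', hx', hx⟩ := hx
    exact ⟨-x', neg_mem hx', by rw [map_neg, hx, smul_neg]⟩

/-- **Log general type goes up to algebraic extensions.** -/
theorem isLGT_of_algebraic [IsScalarTower ℂ K L] [Algebra.IsAlgebraic K L] (hK : ∃ z : Fin k → K, IsTranscendenceBasis ℂ z)
    {B : PrimeDivisorOver K k → Prop} {B' : PrimeDivisorOver L k → Prop}
    (hB : ∀ (D : PrimeDivisorOver K k) (E : PrimeDivisorOver L k) (e : ℕ), Over D E e → B D → B' E)
    (h : IsLogGeneralType B) : IsLogGeneralType B' := by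
  obtain ⟨z, hz⟩ := hK
  obtain ⟨Φ, hsm, hmk⟩ := exists_formMap (K := K) (L := L) k
  obtain ⟨m, hm, ω, hω, r, f, hf0, hf, halg⟩ := h
  refine ⟨m, hm, Φ ω, formMap_ne_zero hz hsm hmk hω, r, fun i => algebraMap K L (f i), ?_, ?_, ?_⟩
  · intro h0
    exact hf0 ((map_eq_zero_iff _ (algebraMap K L).injective).1 h0)
  · intro i E
    obtain ⟨D, e, he, hD⟩ := exists_under (K := K) E
    have hDE : Over D E e := ⟨he, hD⟩
    have h0 : ¬ B D → PoleAtMost 0 E m (algebraMap K L (f i)) (Φ ω) := by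
      intro hBD
      obtain ⟨g, η, hη, hωg, hord⟩ := (hf i D).1 hBD
      refine ⟨algebraMap K L g, Φ η, formMap_regular hmk (fun x hx => hDE.nonneg hx) hη, ?_, ?_⟩
      · rw [hωg, hsm]
      · have h1 : algebraMap K L (f i) * algebraMap K L g ^ m = algebraMap K L (f i * g ^ m) := by
          rw [map_mul, map_pow]
        rw [h1]
        have h2 : (0 : WithTop ℤ) ≤ D.ord (f i * g ^ m) := by simpa using hord
        simpa using hDE.nonneg h2
    refine ⟨fun hBE => h0 fun hBD => hBE (hB D E e hDE hBD), fun hBE => ?_⟩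
    by_cases hBD : B D
    · obtain ⟨g, η, hη, hωg, hord⟩ := (hf i D).2 hBD
      obtain ⟨T, hT⟩ := E.exists_uniformizer
      obtain ⟨η', hη', hη1⟩ := form_ramified hz hDE hT hmk hη
      refine ⟨algebraMap K L g * T ^ (e - 1), η', hη', ?_, ?_⟩
      · rw [hωg, hsm, hη1, smul_smul]
      · have h1 : algebraMap K L (f i) * (algebraMap K L g * T ^ (e - 1)) ^ m = algebraMap K L (f i * g ^ m) * T ^ ((e - 1) * m) := by
          rw [map_mul, map_pow, mul_pow, pow_mul]
          ring
        rw [h1, E.ord.map_mul, ord_pow hT]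
        by_cases hx0 : f i * g ^ m = 0
        · rw [hx0, map_zero, E.ord.map_zero, top_add, top_add]
          exact le_top
        · obtain ⟨n, hn, hn'⟩ := hD _ hx0
          rw [hn] at hord
          rw [hn']
          have h2 : (0 : ℤ) ≤ n + m := by exact_mod_cast hord
          have h3 : (0 : ℤ) ≤ e * n + ((e - 1) * m : ℕ) + m := by
            obtain ⟨e', rfl⟩ : ∃ e', e = e' + 1 := ⟨e - 1, by omega⟩
            have h4 : ((e' + 1 : ℕ) : ℤ) * n + (((e' + 1 - 1) * m : ℕ) : ℤ) + m = (e' + 1) * (n + m) := by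
              rw [Nat.add_sub_cancel]
              push_cast
              ring
            rw [h4]
            exact mul_nonneg (by positivity) h2
          have h5 : (((e * n : ℤ) : WithTop ℤ) + (((e - 1) * m : ℕ) : WithTop ℤ) + (m : WithTop ℤ)) =
              ((e * n + ((e - 1) * m : ℕ) + m : ℤ) : WithTop ℤ) := rfl
          rw [h5]
          exact_mod_cast h3
    · obtain ⟨g, η, hη, hωg, hord⟩ := h0 hBD
      refine ⟨g, η, hη, hωg, ?_⟩
      exact le_trans hord (add_le_add le_rfl (by exact_mod_cast Nat.zero_le m))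
  · have hsub : ∀ x : K, x ∈ IntermediateField.adjoin ℂ (Set.range fun i => f i / f 0) →
        algebraMap K L x ∈ IntermediateField.adjoin ℂ (Set.range fun i => algebraMap K L (f i) / algebraMap K L (f 0)) := by
      intro x hx
      have h1 : algebraMap K L x ∈ (IntermediateField.adjoin ℂ (Set.range fun i => f i / f 0)).map (IsScalarTower.toAlgHom ℂ K L) :=
        ⟨x, hx, rfl⟩
      rw [IntermediateField.adjoin_map] at h1
      refine IntermediateField.adjoin.mono _ _ _ ?_ h1
      rintro _ ⟨_, ⟨i, rfl⟩, rfl⟩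
      exact ⟨i, (map_div₀ (algebraMap K L) (f i) (f 0)).symm⟩
    let φ : IntermediateField.adjoin ℂ (Set.range fun i => f i / f 0) →+*
        IntermediateField.adjoin ℂ (Set.range fun i => algebraMap K L (f i) / algebraMap K L (f 0)) :=
      { toFun := fun x => ⟨algebraMap K L x, hsub x x.2⟩
        map_one' := Subtype.ext (map_one (algebraMap K L))
        map_mul' := fun x y => Subtype.ext (map_mul (algebraMap K L) _ _)
        map_zero' := Subtype.ext (map_zero (algebraMap K L))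
        map_add' := fun x y => Subtype.ext (map_add (algebraMap K L) _ _) }
    have hL : Algebra.IsAlgebraic (IntermediateField.adjoin ℂ (Set.range fun i => f i / f 0)) L :=
      Algebra.IsAlgebraic.trans _ K _
    refine ⟨fun y => ?_⟩
    exact (hL.isAlgebraic y).ringHom_of_comp_eq φ (RingHom.id L) φ.injective (by
      ext x
      rfl)

end Main

end Pool.Agent.H7.Qup

end
end

section

/-!
# Qup Bd: the boundary and dominant regular maps

`exists_compat`: a dominant regular map `p : U' → U` gives an embedding `e` of the function field of `U` in the function field of `U'`.  `onBd_over`: if the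
prime divisor `E` over `U'` lies over the prime divisor `D` over `U` and `D` is centred on the boundary of `U`, then `E` is centred on the boundary of `U'`.
`logGT_up`: if `U` is of log general type, and `U'` has the same dimension, then `U'` is of log general type.
-/

set_option autoImplicit false

open MvPolynomial

noncomputable section

namespace Pool.Agent.H7.Qup

attribute [-instance] ProperSMul.toContinuousSMul

open Pool.Agent.H17 (PN VanishesAt vanishesAt_mk_iff)
open Pool.Agent.H17GT (coordFun)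
open Pool.Agent.H17LG.Variety (FunField ratio IsLogGeneralType)
open Pool.Agent.H23.Fano (PrimeDivisorOver)
open Pool.Agent.H62.FC (Homog)
open Pool.Agent.H62.SA (locVar OnBd)
open Pool.Agent.H17R (gen gen_eq_zero_iff ratio_self coordFun_ne_zero_iff gen_change exists_center ord_gen_nonneg ratio_ne_zero_iff)
open Pool.Agent.H7.Bir (vals rmap mem_of_open)

variable {N M : ℕ} {P : Ideal (MvPolynomial (Fin (N + 1)) ℂ)} {P' : Ideal (MvPolynomial (Fin (M + 1)) ℂ)} {s s' : ℕ}
  {G : Fin s → MvPolynomial (Fin (N + 1)) ℂ} {G' : Fin s' → MvPolynomial (Fin (M + 1)) ℂ} {p : PN M → PN N}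

theorem ratio_change' [P.IsPrime] {i i₀ i₁ : Fin (N + 1)} (h₁ : coordFun P i₁ ≠ 0) :
    ratio P i i₀ = ratio P i₁ i₀ * ratio P i i₁ := by
  apply Subtype.ext
  change coordFun P i / coordFun P i₀ =
    coordFun P i₁ / coordFun P i₀ * (coordFun P i / coordFun P i₁)
  rw [div_mul_div_comm, mul_comm (coordFun P i₁) (coordFun P i), mul_div_mul_right _ _ h₁]

theorem exists_coord {y : PN M} (hy : y ∈ locVar P' G') : ∃ j, (X j : MvPolynomial (Fin (M + 1)) ℂ) ∉ P' := by
  by_contra hcon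
  push Not at hcon
  have h1 : ∀ i, y.rep i = 0 := by
    intro i
    have h2 := hy.1 _ (hcon i) 1 (isHomogeneous_X ℂ i)
    unfold VanishesAt at h2
    rwa [eval_X] at h2
  exact y.rep_nonzero (funext h1)

/-- The embedding of the function fields corresponds to the map `p`. -/
def Compat (P : Ideal (MvPolynomial (Fin (N + 1)) ℂ)) [P.IsPrime] (P' : Ideal (MvPolynomial (Fin (M + 1)) ℂ)) [P'.IsPrime]
    (G' : Fin s' → MvPolynomial (Fin (M + 1)) ℂ) (p : PN M → PN N) (e : FunField P →ₐ[ℂ] FunField P') : Prop :=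
  ∀ (D : ℕ) (γ : Fin (N + 1) → MvPolynomial (Fin (M + 1)) ℂ), Rep P' G' p D γ → (∃ y ∈ locVar P' G', vals γ y.rep ≠ 0) →
    ∀ j', X j' ∉ P' → ∀ i₀, X i₀ ∉ P → ∀ i, e (ratio P i i₀) * gen P' j' (γ i₀) = gen P' j' (γ i)

theorem exists_compat [P.IsPrime] [P'.IsPrime] (hp : IsDominantMap P P' G G' p) (hP' : Homog P')
    (hG' : ∀ m, ∃ n, (G' m).IsHomogeneous n) (hne : (locVar P' G').Nonempty) :
    ∃ e : FunField P →ₐ[ℂ] FunField P', Compat P P' G' p e := by
  obtain ⟨y₀, hy₀⟩ := hne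
  have hne : (locVar P' G').Nonempty := ⟨y₀, hy₀⟩
  obtain ⟨j₁, hj₁⟩ := exists_coord hy₀
  obtain ⟨i₁, hi₁⟩ := exists_coord (hp.maps y₀ hy₀)
  obtain ⟨D₁, γ₁, hγ₁, hv₁⟩ := hp.exists_rep hy₀
  have hcj : coordFun P' j₁ ≠ 0 := coordFun_ne_zero_iff.2 hj₁
  have hci : coordFun P i₁ ≠ 0 := coordFun_ne_zero_iff.2 hi₁
  have hmaps := hp.maps_iff hP' hG' hγ₁ ⟨y₀, hy₀, hv₁⟩
  have hγi : ∀ i, X i ∉ P → γ₁ i ∉ P' := by
    intro i hi h
    apply hi
    rw [← hmaps 1 _ (isHomogeneous_X ℂ i), aeval_X]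
    exact h
  have hc : gen P' j₁ (γ₁ i₁) ≠ 0 := fun h0 => hγi i₁ hi₁ ((gen_eq_zero_iff hcj (hγ₁.hom i₁)).1 h0)
  set x : Fin (N + 1) → FunField P' := fun i => gen P' j₁ (γ₁ i) / gen P' j₁ (γ₁ i₁) with hx
  have hx1 : x i₁ = 1 := div_self hc
  have hker : ∀ (n : ℕ) (R : MvPolynomial (Fin (N + 1)) ℂ), R.IsHomogeneous n → (aeval x R = 0 ↔ R ∈ P) := by
    intro n R hR
    rw [← hmaps n R hR, ← gen_eq_zero_iff hcj (aeval_homog hγ₁.hom hR)]
    have h1 : gen P' j₁ (aeval γ₁ R) = gen P' j₁ (γ₁ i₁) ^ n * aeval x R := by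
      unfold gen
      rw [Pool.Agent.H7.Bir.aeval_comp]
      exact Pool.Agent.H7.Bir.aeval_div hR hc _
    rw [h1, mul_eq_zero]
    exact ⟨Or.inr, fun h => h.resolve_left (pow_ne_zero _ hc)⟩
  obtain ⟨e, he⟩ := exists_hom_val hci hx1 hker
  refine ⟨e, ?_⟩
  intro D γ hγ hγne j' hj' i₀ hi₀ i
  have hcj' : coordFun P' j' ≠ 0 := coordFun_ne_zero_iff.2 hj'
  have hci' : coordFun P i₀ ≠ 0 := coordFun_ne_zero_iff.2 hi₀
  -- change of the tuple
  have hrel : ∀ k l, gen P' j' (γ₁ k) * gen P' j' (γ l) = gen P' j' (γ₁ l) * gen P' j' (γ k) := by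
    intro k l
    have h1 : γ₁ k * γ l - γ₁ l * γ k ∈ P' := by
      have hhom : (γ₁ k * γ l - γ₁ l * γ k).IsHomogeneous (D₁ + D) := ((hγ₁.hom k).mul (hγ.hom l)).sub ((hγ₁.hom l).mul (hγ.hom k))
      refine mem_of_open hP' hG' hne hhom fun y hy => ?_
      unfold VanishesAt
      rw [map_sub, map_mul, map_mul, hγ₁.prop hγ hy k l, sub_self]
    have hhom : (γ₁ k * γ l - γ₁ l * γ k).IsHomogeneous (D₁ + D) := ((hγ₁.hom k).mul (hγ.hom l)).sub ((hγ₁.hom l).mul (hγ.hom k))
    have h2 := (gen_eq_zero_iff hcj' hhom).2 h1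
    unfold gen at h2 ⊢
    rw [map_sub, map_mul, map_mul] at h2
    exact sub_eq_zero.1 h2
  -- change of the coordinate
  have hch : ∀ k, gen P' j₁ (γ₁ k) = ratio P' j' j₁ ^ D₁ * gen P' j' (γ₁ k) := fun k => gen_change hcj' (hγ₁.hom k)
  have hr0 : ratio P' j' j₁ ≠ 0 := (ratio_ne_zero_iff hcj).2 hcj'
  have hg0 : gen P' j' (γ₁ i₀) ≠ 0 := fun h0 => hγi i₀ hi₀ ((gen_eq_zero_iff hcj' (hγ₁.hom i₀)).1 h0)
  have h3 : e (ratio P i i₁) = e (ratio P i₀ i₁) * e (ratio P i i₀) := by
    rw [← map_mul, ← ratio_change' hci']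
  have h4 : gen P' j₁ (γ₁ i) = gen P' j₁ (γ₁ i₀) * e (ratio P i i₀) := by
    rw [he, he] at h3
    change gen P' j₁ (γ₁ i) / gen P' j₁ (γ₁ i₁) = gen P' j₁ (γ₁ i₀) / gen P' j₁ (γ₁ i₁) * e (ratio P i i₀) at h3
    rw [div_mul_eq_mul_div, div_left_inj' hc] at h3
    exact h3
  have h5 : gen P' j' (γ₁ i) = gen P' j' (γ₁ i₀) * e (ratio P i i₀) := by
    rw [hch, hch, mul_assoc] at h4
    exact mul_left_cancel₀ (pow_ne_zero _ hr0) h4
  have h6 := hrel i i₀
  rw [h5, mul_assoc] at h6
  exact mul_left_cancel₀ hg0 h6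

/-- The polynomials which vanish at the centre of `E`. -/
def ctr [P.IsPrime] {w : ℕ} (E : PrimeDivisorOver (FunField P) w) {j : Fin (N + 1)} (h : ∀ i, 0 ≤ E.ord (ratio P i j)) :
    Ideal (MvPolynomial (Fin (N + 1)) ℂ) where
  carrier := {R | 0 < E.ord (gen P j R)}
  add_mem' := by
    intro a b ha hb
    change 0 < E.ord (aeval _ (a + b))
    rw [map_add]
    exact (lt_min ha hb).trans_le (E.ord.map_add _ _)
  zero_mem' := by
    change 0 < E.ord (aeval _ 0)
    rw [map_zero, E.ord.map_zero]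
    exact WithTop.coe_lt_top 0
  smul_mem' := by
    intro c x hx
    change 0 < E.ord (aeval _ (c * x))
    rw [map_mul, E.ord.map_mul]
    exact lt_of_lt_of_le hx (le_add_of_nonneg_left (ord_gen_nonneg E h c))

theorem mem_ctr [P.IsPrime] {w : ℕ} {E : PrimeDivisorOver (FunField P) w} {j : Fin (N + 1)} {h : ∀ i, 0 ≤ E.ord (ratio P i j)}
    {R : MvPolynomial (Fin (N + 1)) ℂ} : R ∈ ctr E h ↔ 0 < E.ord (gen P j R) := Iff.rfl

theorem notMem_ctr [P.IsPrime] {w : ℕ} {E : PrimeDivisorOver (FunField P) w} {j : Fin (N + 1)} {h : ∀ i, 0 ≤ E.ord (ratio P i j)}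
    {R : MvPolynomial (Fin (N + 1)) ℂ} : R ∉ ctr E h ↔ E.ord (gen P j R) = 0 := by
  rw [mem_ctr, not_lt]
  exact ⟨fun h1 => le_antisymm h1 (ord_gen_nonneg E h R), fun h1 => h1.le⟩

instance ctr_isPrime [P.IsPrime] {w : ℕ} (E : PrimeDivisorOver (FunField P) w) {j : Fin (N + 1)} (h : ∀ i, 0 ≤ E.ord (ratio P i j)) :
    (ctr E h).IsPrime where
  ne_top' := by
    rw [Ideal.ne_top_iff_one, notMem_ctr]
    unfold gen
    rw [map_one, E.ord.map_one]
  mem_or_mem' := by
    intro a b hab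
    by_contra hcon
    rw [not_or, notMem_ctr, notMem_ctr] at hcon
    rw [mem_ctr] at hab
    unfold gen at hab hcon
    rw [map_mul, E.ord.map_mul, hcon.1, hcon.2, add_zero] at hab
    exact lt_irrefl _ hab

/-- Points of the centre. -/
theorem exists_ctr_point [P.IsPrime] {w : ℕ} (E : PrimeDivisorOver (FunField P) w) {j : Fin (N + 1)} (hj : coordFun P j ≠ 0)
    (h : ∀ i, 0 ≤ E.ord (ratio P i j)) {R : MvPolynomial (Fin (N + 1)) ℂ} (hR : R ∉ ctr E h) :
    ∃ v : Fin (N + 1) → ℂ, v ≠ 0 ∧ (∀ Q ∈ ctr E h, eval v Q = 0) ∧ eval v R ≠ 0 := by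
  rw [← MvPolynomial.IsPrime.vanishingIdeal_zeroLocus (K := ℂ) (ctr E h), MvPolynomial.mem_vanishingIdeal_iff] at hR
  push Not at hR
  obtain ⟨v, hv, hvR⟩ := hR
  rw [MvPolynomial.aeval_eq_eval] at hvR
  have hv' : ∀ Q ∈ ctr E h, eval v Q = 0 := fun Q hQ => by
    have h1 := hv Q hQ
    rwa [MvPolynomial.aeval_eq_eval] at h1
  refine ⟨v, ?_, hv', hvR⟩
  rintro rfl
  have h1 : (X j - 1 : MvPolynomial (Fin (N + 1)) ℂ) ∈ ctr E h := by
    rw [mem_ctr]
    unfold gen
    rw [map_sub, aeval_X, ratio_self hj, map_one, sub_self, E.ord.map_zero]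
    exact WithTop.coe_lt_top 0
  have h2 := hv' _ h1
  rw [map_sub, eval_X, map_one] at h2
  norm_num at h2

theorem le_ctr [P.IsPrime] {w : ℕ} {E : PrimeDivisorOver (FunField P) w} {j : Fin (N + 1)} (hj : coordFun P j ≠ 0)
    {h : ∀ i, 0 ≤ E.ord (ratio P i j)} {n : ℕ} {R : MvPolynomial (Fin (N + 1)) ℂ} (hR : R.IsHomogeneous n) (hRP : R ∈ P) : R ∈ ctr E h := by
  rw [mem_ctr, (gen_eq_zero_iff hj hR).2 hRP, E.ord.map_zero]
  exact WithTop.coe_lt_top 0

/-- **The boundary is mapped to the boundary.** -/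
theorem onBd_over [P.IsPrime] [P'.IsPrime] (hp : IsDominantMap P P' G G' p) (hP' : Homog P')
    (hG : ∀ m, ∃ n, (G m).IsHomogeneous n) (hG' : ∀ m, ∃ n, (G' m).IsHomogeneous n)
    {e : FunField P →ₐ[ℂ] FunField P'} (he : Compat P P' G' p e) {k : ℕ} {D : PrimeDivisorOver (FunField P) k}
    {E : PrimeDivisorOver (FunField P') k} {r : ℕ} (hr : 0 < r)
    (hDE : ∀ f : FunField P, f ≠ 0 → ∃ n : ℤ, D.ord f = n ∧ E.ord (e f) = ((r * n : ℤ) : WithTop ℤ)) (hne : (locVar P' G').Nonempty)
    (hD : OnBd P G D) : OnBd P' G' E := by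
  obtain ⟨y₀, hy₀⟩ := hne
  obtain ⟨j₁, hj₁⟩ := exists_coord hy₀
  obtain ⟨j', hj', hE⟩ := exists_center E (coordFun_ne_zero_iff.2 hj₁)
  refine ⟨j', hj', hE, fun m => ?_⟩
  by_contra hcon
  have h1 : G' m ∉ ctr E hE := hcon
  obtain ⟨v, hv0, hv, hvG⟩ := exists_ctr_point E hj' hE h1
  set y : PN M := Projectivization.mk ℂ v hv0 with hy
  have hyU : y ∈ locVar P' G' := by
    refine ⟨fun Q hQ n hn => ?_, m, ?_⟩
    · rw [hy, vanishesAt_mk_iff hn]
      exact hv _ (le_ctr hj' hn hQ)
    · obtain ⟨d, hd⟩ := hG' m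
      rw [hy, vanishesAt_mk_iff hd]
      exact hvG
  obtain ⟨Dγ, γ, hγ, hvγ⟩ := hp.exists_rep hyU
  have hval : ∀ {n : ℕ} {R : MvPolynomial (Fin (M + 1)) ℂ}, R.IsHomogeneous n → eval y.rep R ≠ 0 → E.ord (gen P' j' R) = 0 := by
    intro n R hR hyR
    rw [← notMem_ctr (h := hE)]
    intro h2
    apply hyR
    have h3 := (vanishesAt_mk_iff hR v hv0).2 (hv R h2)
    exact h3
  obtain ⟨i₁, hi₁⟩ : ∃ i, eval y.rep (γ i) ≠ 0 := by
    by_contra hcon
    push Not at hcon
    exact hvγ (funext hcon)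
  have hγi : E.ord (gen P' j' (γ i₁)) = 0 := hval (hγ.hom i₁) hi₁
  have hmaps := hp.maps_iff hP' hG' hγ ⟨y, hyU, hvγ⟩
  have hXi : X i₁ ∉ P := by
    intro h2
    rw [← hmaps 1 _ (isHomogeneous_X ℂ i₁), aeval_X] at h2
    exact hi₁ (hyU.1 _ h2 _ (hγ.hom i₁))
  have hci : coordFun P i₁ ≠ 0 := coordFun_ne_zero_iff.2 hXi
  have hXj' : X j' ∉ P' := coordFun_ne_zero_iff.1 hj'
  have hcomp := he Dγ γ hγ ⟨y, hyU, hvγ⟩ j' hXj' i₁ hXi
  have hgne : gen P' j' (γ i₁) ≠ 0 := by
    intro h2
    rw [h2, E.ord.map_zero] at hγi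
    exact WithTop.top_ne_zero hγi
  -- from `E` to `D`
  have hnn : ∀ f : FunField P, 0 ≤ E.ord (e f) → 0 ≤ D.ord f := by
    intro f hf
    by_cases hf0 : f = 0
    · rw [hf0, D.ord.map_zero]
      exact le_top
    · obtain ⟨n, hn, hn'⟩ := hDE f hf0
      rw [hn'] at hf
      rw [hn]
      have h2 : (0 : ℤ) ≤ r * n := by exact_mod_cast hf
      have h3 : (0 : ℤ) ≤ n := nonneg_of_mul_nonneg_right h2 (by exact_mod_cast hr)
      exact_mod_cast h3
  have hzz : ∀ f : FunField P, E.ord (e f) = 0 → D.ord f = 0 := by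
    intro f hf
    by_cases hf0 : f = 0
    · rw [hf0, map_zero, E.ord.map_zero] at hf
      exact absurd hf WithTop.top_ne_zero
    · obtain ⟨n, hn, hn'⟩ := hDE f hf0
      rw [hn'] at hf
      rw [hn]
      have h2 : (r : ℤ) * n = 0 := by exact_mod_cast hf
      have h3 : n = 0 := by
        rcases mul_eq_zero.1 h2 with h4 | h4
        · omega
        · exact h4
      rw [h3]
      rfl
  have hD1 : ∀ i, 0 ≤ D.ord (ratio P i i₁) := by
    intro i
    apply hnn
    have h2 := congrArg E.ord (hcomp i)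
    rw [E.ord.map_mul, hγi, add_zero] at h2
    rw [h2]
    exact ord_gen_nonneg E hE _
  -- a form `G m` which does not vanish at the image
  obtain ⟨-, m₁, hm₁⟩ := hp.maps y hyU
  obtain ⟨d, hd⟩ := hG m₁
  have h5 : E.ord (gen P' j' (aeval γ (G m₁))) = 0 := by
    refine hval (aeval_homog hγ.hom hd) fun h6 => hm₁ ?_
    rw [hγ.vanishes_iff hyU hvγ hd]
    exact h6
  have h6 : e (gen P i₁ (G m₁)) * gen P' j' (γ i₁) ^ d = gen P' j' (aeval γ (G m₁)) := by
    have h7 : ∀ i, e (ratio P i i₁) = gen P' j' (γ i) / gen P' j' (γ i₁) := fun i => by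
      rw [eq_div_iff hgne]
      exact hcomp i
    have h8 : e (gen P i₁ (G m₁)) = aeval (fun i => gen P' j' (γ i) / gen P' j' (γ i₁)) (G m₁) := by
      unfold gen
      have h9 : e (aeval (fun i => ratio P i i₁) (G m₁)) = aeval (fun i => e (ratio P i i₁)) (G m₁) := by
        rw [← AlgHom.comp_apply, MvPolynomial.comp_aeval]
      rw [h9]
      congr 2
      funext i
      exact h7 i
    have h10 : gen P' j' (aeval γ (G m₁)) = gen P' j' (γ i₁) ^ d * aeval (fun i => gen P' j' (γ i) / gen P' j' (γ i₁)) (G m₁) := by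
      unfold gen
      rw [Pool.Agent.H7.Bir.aeval_comp]
      exact Pool.Agent.H7.Bir.aeval_div hd hgne _
    rw [h8, h10, mul_comm]
  have h7 : D.ord (gen P i₁ (G m₁)) = 0 := by
    apply hzz
    have h8 := congrArg E.ord h6
    rw [E.ord.map_mul, E.ord.map_pow, hγi, smul_zero, add_zero, h5] at h8
    exact h8
  -- compare with the coordinate `j`
  obtain ⟨j, hj, hDj, hDG⟩ := hD
  have h8 : D.ord (ratio P i₁ j) = 0 := by
    have h9 : ratio P j j = ratio P i₁ j * ratio P j i₁ := ratio_change' hci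
    have h10 := congrArg D.ord h9
    rw [ratio_self hj, D.ord.map_one, D.ord.map_mul] at h10
    refine le_antisymm ?_ (hDj i₁)
    rw [h10]
    exact le_add_of_nonneg_right (hD1 j)
  have h9 := hDG m₁
  have h10 : gen P j (G m₁) = ratio P i₁ j ^ d * gen P i₁ (G m₁) := gen_change hci hd
  change 0 < D.ord (gen P j (G m₁)) at h9
  rw [h10, D.ord.map_mul, D.ord.map_pow, h8, smul_zero, zero_add, h7] at h9
  exact lt_irrefl _ h9

/-- **Log general type goes up along dominant regular maps.** -/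
theorem logGT_up [P.IsPrime] [P'.IsPrime] (hp : IsDominantMap P P' G G' p) (hP' : Homog P')
    (hG : ∀ m, ∃ n, (G m).IsHomogeneous n) (hG' : ∀ m, ∃ n, (G' m).IsHomogeneous n) (hne : (locVar P' G').Nonempty) {k : ℕ}
    (hz : ∃ z : Fin k → FunField P, IsTranscendenceBasis ℂ z) (hz' : ∃ z : Fin k → FunField P', IsTranscendenceBasis ℂ z)
    (h : IsLogGeneralType (OnBd P G (k := k))) : IsLogGeneralType (OnBd P' G' (k := k)) := by
  obtain ⟨e, he⟩ := exists_compat hp hP' hG' hne
  let _ : Algebra (FunField P) (FunField P') := e.toRingHom.toAlgebra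
  have _ : IsScalarTower ℂ (FunField P) (FunField P') := IsScalarTower.of_algebraMap_eq fun c => (e.commutes c).symm
  have _ : Algebra.IsAlgebraic (FunField P) (FunField P') := by
    obtain ⟨z, hz⟩ := hz
    obtain ⟨z', hz'⟩ := hz'
    have h1 := trdeg_add_eq ℂ (FunField P) (A := FunField P')
    rw [← hz.cardinalMk_eq_trdeg, ← hz'.cardinalMk_eq_trdeg] at h1
    rw [← trdeg_eq_zero_iff]
    have h2 : Cardinal.mk (Fin k) < Cardinal.aleph0 := Cardinal.mk_lt_aleph0
    have h3 : Cardinal.mk (Fin k) + Algebra.trdeg (FunField P) (FunField P') = Cardinal.mk (Fin k) + 0 := by rw [h1, add_zero]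
    exact Cardinal.eq_of_add_eq_add_left h3 h2
  exact isLGT_of_algebraic hz (fun D E r hDE hD => onBd_over hp hP' hG hG' he hDE.1 hDE.2 hne hD) h

end Pool.Agent.H7.Qup

end
end

section

/-!
# Qup Rel: the equations of the coordinates of a point over its image
-/

set_option autoImplicit false

open MvPolynomial

noncomputable section

namespace Pool.Agent.H7.Qup

attribute [-instance] ProperSMul.toContinuousSMul

open Pool.Agent.H17 (PN VanishesAt vanishesAt_mk_iff)
open Pool.Agent.H17GT (coordFun functionField)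
open Pool.Agent.H17LG.Variety (FunField ratio)
open Pool.Agent.H62.FC (Homog)
open Pool.Agent.H62.SA (locVar OnBd)
open Pool.Agent.H17R (gen gen_eq_zero_iff ratio_self coordFun_ne_zero_iff)
open Pool.Agent.H7.Bir (aeval_comp aeval_div funIso exists_quot vals rmap mem_of_open)
open Pool.Agent.H19OL (alg_of_trdeg adjoin_self)

variable {N M : ℕ}

/-- The equation of the ratio `X i / X j` over the function field of the image. -/
theorem exists_eq_aux {P : Ideal (MvPolynomial (Fin (N + 1)) ℂ)} [P.IsPrime] {P' : Ideal (MvPolynomial (Fin (M + 1)) ℂ)}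
    [P'.IsPrime] {k : ℕ} {z : Fin k → FunField P} (hz : IsTranscendenceBasis ℂ z) {z' : Fin k → FunField P'}
    (hz' : IsTranscendenceBasis ℂ z') {D : ℕ} {γ : Fin (N + 1) → MvPolynomial (Fin (M + 1)) ℂ} (hγ : ∀ i, (γ i).IsHomogeneous D)
    (hmaps : ∀ n Q, Q.IsHomogeneous n → (aeval γ Q ∈ P' ↔ Q ∈ P)) {i₀ : Fin (N + 1)} (hi₀ : X i₀ ∉ P)
    {j : Fin (M + 1)} (hj : X j ∉ P') (i : Fin (M + 1)) :
    ∃ (m D₁ : ℕ) (α : Fin (m + 1) → MvPolynomial (Fin (N + 1)) ℂ), (∀ l, (α l).IsHomogeneous D₁) ∧ α (Fin.last m) ∉ P ∧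
      ∑ l : Fin (m + 1), aeval γ (α l) * X i ^ (l : ℕ) * X j ^ (m - (l : ℕ)) ∈ P' := by
  have hcj : coordFun P' j ≠ 0 := coordFun_ne_zero_iff.2 hj
  set η : Fin (M + 1) → FunField P' := fun i => ratio P' i j with hη
  have hη1 : η j = 1 := ratio_self hcj
  have hγ₀ : γ i₀ ∉ P' := by
    intro h
    apply hi₀
    rw [← hmaps 1 _ (isHomogeneous_X ℂ i₀), aeval_X]
    exact h
  have hc : aeval η (γ i₀) ≠ 0 := fun h0 => hγ₀ ((gen_eq_zero_iff hcj (hγ i₀)).1 h0)
  set x : Fin (N + 1) → FunField P' := fun i => aeval η (γ i) / aeval η (γ i₀) with hx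
  have hx1 : x i₀ = 1 := div_self hc
  have hcomp : ∀ (n : ℕ) (R : MvPolynomial (Fin (N + 1)) ℂ), R.IsHomogeneous n →
      aeval η (aeval γ R) = aeval η (γ i₀) ^ n * aeval x R := by
    intro n R hR
    rw [aeval_comp, aeval_div hR hc]
  have hker : ∀ (n : ℕ) (G : MvPolynomial (Fin (N + 1)) ℂ), G.IsHomogeneous n → (aeval x G = 0 ↔ G ∈ P) := by
    intro n G hG
    rw [← hmaps n G hG, ← gen_eq_zero_iff hcj (hG.aeval γ hγ)]
    change _ ↔ aeval η (aeval γ G) = 0
    rw [hcomp n G hG, mul_eq_zero]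
    exact ⟨Or.inr, fun h => h.resolve_left (pow_ne_zero _ hc)⟩
  -- the subfield generated by the coordinates of the image
  set F : IntermediateField ℂ (FunField P') := IntermediateField.adjoin ℂ (Set.range x) with hF
  set x' : Fin (N + 1) → F := fun i => ⟨x i, IntermediateField.subset_adjoin ℂ _ ⟨i, rfl⟩⟩ with hx'
  have hadj : IntermediateField.adjoin ℂ (Set.range x') = ⊤ := adjoin_self x
  have hval : ∀ G : MvPolynomial (Fin (N + 1)) ℂ, ((aeval x' G : F) : FunField P') = aeval x G := by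
    intro G
    have h1 := DFunLike.congr_fun (MvPolynomial.comp_aeval x' F.val) G
    exact h1
  have hx'1 : x' i₀ = 1 := Subtype.ext hx1
  obtain ⟨e⟩ := funIso (coordFun_ne_zero_iff.2 hi₀) hx'1 hadj fun n G hG => by
    rw [← hker n G hG, ← hval G]
    exact Subtype.ext_iff
  have halg : Algebra.IsAlgebraic F (FunField P') := alg_of_trdeg (e.isTranscendenceBasis hz) hz'
  -- the equation
  set s : FunField P' := η i with hs
  have hint : IsIntegral F s := (halg.isAlgebraic s).isIntegral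
  set p := minpoly F s with hp
  set m := p.natDegree with hm
  obtain ⟨D₁, α, hα, hα0, hα1⟩ := exists_quot hx'1 hadj (fun i : Fin (m + 1) => p.coeff (i : ℕ)) (j' := Fin.last m) (by
    have h1 := minpoly.monic hint
    exact h1)
  have hα0' : aeval x (α (Fin.last m)) ≠ 0 := by
    rw [← hval]
    exact fun h => hα0 (Subtype.ext h)
  have hrel : ∑ i : Fin (m + 1), aeval x (α i) * s ^ (i : ℕ) = 0 := by
    have h1 := minpoly.aeval F s
    rw [Polynomial.aeval_eq_sum_range, ← Fin.sum_univ_eq_sum_range (fun i => p.coeff i • s ^ i)] at h1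
    have h2 : ∀ i : Fin (m + 1), aeval x (α i) * s ^ (i : ℕ) = aeval x (α (Fin.last m)) * (p.coeff (i : ℕ) • s ^ (i : ℕ)) := by
      intro i
      have h3 := congrArg (fun t : F => (t : FunField P')) (hα1 i)
      simp only [MulMemClass.coe_mul, hval] at h3
      rw [← h3, Algebra.smul_def]
      change _ = _ * (((p.coeff (i : ℕ) : F) : FunField P') * _)
      ring
    have h4 : ∑ i : Fin (m + 1), aeval x (α (Fin.last m)) * (p.coeff (i : ℕ) • s ^ (i : ℕ)) =
        aeval x (α (Fin.last m)) * ∑ i : Fin (m + 1), p.coeff (i : ℕ) • s ^ (i : ℕ) := (Finset.mul_sum _ _ _).symm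
    rw [Finset.sum_congr rfl fun i _ => h2 i, h4, h1, mul_zero]
  refine ⟨m, D₁, α, hα, fun h => hα0' ((hker D₁ _ (hα _)).2 h), ?_⟩
  -- the form
  set G : MvPolynomial (Fin (M + 1)) ℂ := ∑ l : Fin (m + 1), aeval γ (α l) * X i ^ (l : ℕ) * X j ^ (m - (l : ℕ)) with hG
  have hGhom : G.IsHomogeneous (D * D₁ + m) := by
    refine IsHomogeneous.sum _ _ _ fun l _ => ?_
    have h1 := ((((hα l).aeval γ hγ).mul ((isHomogeneous_X ℂ i).pow (l : ℕ))).mul ((isHomogeneous_X ℂ j).pow (m - l)))
    have h2 : D * D₁ + 1 * (l : ℕ) + 1 * (m - l) = D * D₁ + m := by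
      have h3 : (l : ℕ) ≤ m := Nat.lt_succ_iff.1 l.2
      omega
    rw [h2] at h1
    exact h1
  rw [← gen_eq_zero_iff hcj hGhom]
  change aeval η G = 0
  rw [hG, map_sum]
  have h1 : ∀ l : Fin (m + 1), aeval η (aeval γ (α l) * X i ^ (l : ℕ) * X j ^ (m - (l : ℕ))) =
      aeval η (γ i₀) ^ D₁ * (aeval x (α l) * s ^ (l : ℕ)) := by
    intro l
    rw [map_mul, map_mul, map_pow, map_pow, aeval_X, aeval_X, hη1, one_pow, mul_one, hcomp D₁ _ (hα l)]
    ring
  have h2 : ∑ l : Fin (m + 1), aeval η (γ i₀) ^ D₁ * (aeval x (α l) * s ^ (l : ℕ)) =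
      aeval η (γ i₀) ^ D₁ * ∑ l : Fin (m + 1), aeval x (α l) * s ^ (l : ℕ) := (Finset.mul_sum _ _ _).symm
  rw [Finset.sum_congr rfl fun l _ => h1 l, h2, hrel, mul_zero]

variable {P : Ideal (MvPolynomial (Fin (N + 1)) ℂ)} {P' : Ideal (MvPolynomial (Fin (M + 1)) ℂ)} {s s' : ℕ}
  {G : Fin s → MvPolynomial (Fin (N + 1)) ℂ} {G' : Fin s' → MvPolynomial (Fin (M + 1)) ℂ} {p : PN M → PN N}

/-- **The equation of the coordinate `i`**: it holds at all points of `U'`. -/
theorem exists_eq [P.IsPrime] [P'.IsPrime] (hp : IsDominantMap P P' G G' p) (hP' : Homog P')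
    (hG' : ∀ m, ∃ n, (G' m).IsHomogeneous n) (hne : (locVar P' G').Nonempty) {k : ℕ} {z : Fin k → FunField P}
    (hz : IsTranscendenceBasis ℂ z) {z' : Fin k → FunField P'} (hz' : IsTranscendenceBasis ℂ z') {j : Fin (M + 1)} (hj : X j ∉ P')
    (i : Fin (M + 1)) :
    ∃ (m D₁ : ℕ) (α : Fin (m + 1) → MvPolynomial (Fin (N + 1)) ℂ), (∀ l, (α l).IsHomogeneous D₁) ∧ α (Fin.last m) ∉ P ∧
      ∀ (y : Fin (M + 1) → ℂ) (hy : y ≠ 0) (x : Fin (N + 1) → ℂ) (hx : x ≠ 0), Projectivization.mk ℂ y hy ∈ locVar P' G' →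
        p (Projectivization.mk ℂ y hy) = Projectivization.mk ℂ x hx →
        ∑ l : Fin (m + 1), eval x (α l) * y i ^ (l : ℕ) * y j ^ (m - (l : ℕ)) = 0 := by
  obtain ⟨y₀, hy₀⟩ := hne
  have hne : (locVar P' G').Nonempty := ⟨y₀, hy₀⟩
  obtain ⟨i₁, hi₁⟩ := exists_coord (hp.maps y₀ hy₀)
  obtain ⟨D, γ, hγ, hv⟩ := hp.exists_rep hy₀
  have hmaps := hp.maps_iff hP' hG' hγ ⟨y₀, hy₀, hv⟩
  obtain ⟨m, D₁, α, hα, hαP, hrel⟩ := exists_eq_aux hz hz' hγ.hom hmaps hi₁ hj i
  refine ⟨m, D₁, α, hα, hαP, fun y hy x hx hyU hyx => ?_⟩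
  obtain ⟨D', γ', hγ', hv'⟩ := hp.exists_rep hyU
  obtain ⟨k₀, hk₀⟩ : ∃ k, eval y₀.rep (γ k) ≠ 0 := by
    by_contra hcon
    push Not at hcon
    exact hv (funext hcon)
  have hkP : γ k₀ ∉ P' := fun h1 => hk₀ (hy₀.1 _ h1 D (hγ.hom k₀))
  -- the same equation with the forms `γ'`
  have hGhom : (∑ l : Fin (m + 1), aeval γ' (α l) * X i ^ (l : ℕ) * X j ^ (m - (l : ℕ)) : MvPolynomial (Fin (M + 1)) ℂ).IsHomogeneous
      (D' * D₁ + m) := by
    refine IsHomogeneous.sum _ _ _ fun l _ => ?_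
    have h1 := ((((hα l).aeval γ' hγ'.hom).mul ((isHomogeneous_X ℂ i).pow (l : ℕ))).mul ((isHomogeneous_X ℂ j).pow (m - l)))
    have h2 : D' * D₁ + 1 * (l : ℕ) + 1 * (m - l) = D' * D₁ + m := by
      have h3 : (l : ℕ) ≤ m := Nat.lt_succ_iff.1 l.2
      omega
    rw [h2] at h1
    exact h1
  have hmem : γ k₀ ^ D₁ * (∑ l : Fin (m + 1), aeval γ' (α l) * X i ^ (l : ℕ) * X j ^ (m - (l : ℕ))) ∈ P' := by
    refine mem_of_open hP' hG' hne (((hγ.hom k₀).pow D₁).mul hGhom) fun w hw => ?_
    unfold VanishesAt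
    rw [map_mul, map_pow, map_sum, Finset.mul_sum]
    have h4 : eval w.rep (γ k₀) • vals γ' w.rep = eval w.rep (γ' k₀) • vals γ w.rep := by
      funext i
      have h5 := hγ.prop hγ' hw k₀ i
      change eval w.rep (γ k₀) * eval w.rep (γ' i) = eval w.rep (γ' k₀) * eval w.rep (γ i)
      rw [h5, mul_comm]
    have h5 : ∀ l : Fin (m + 1), eval w.rep (γ k₀) ^ D₁ * eval w.rep (aeval γ' (α l) * X i ^ (l : ℕ) * X j ^ (m - (l : ℕ))) =
        eval w.rep (γ' k₀) ^ D₁ * eval w.rep (aeval γ (α l) * X i ^ (l : ℕ) * X j ^ (m - (l : ℕ))) := by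
      intro l
      have h6 : eval w.rep (γ k₀) ^ D₁ * eval w.rep (aeval γ' (α l)) = eval w.rep (γ' k₀) ^ D₁ * eval w.rep (aeval γ (α l)) := by
        rw [Pool.Agent.H7.Bir.eval_comp, Pool.Agent.H7.Bir.eval_comp, ← eval_smul (hα l), ← eval_smul (hα l), h4]
      rw [map_mul, map_mul, map_mul, map_mul]
      linear_combination (eval w.rep (X i ^ (l : ℕ)) * eval w.rep (X j ^ (m - (l : ℕ)))) * h6
    rw [Finset.sum_congr rfl fun l _ => h5 l, ← Finset.mul_sum, ← map_sum]
    have h6 : eval w.rep (∑ l : Fin (m + 1), aeval γ (α l) * X i ^ (l : ℕ) * X j ^ (m - (l : ℕ))) = 0 := by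
      have hGhom' : (∑ l : Fin (m + 1), aeval γ (α l) * X i ^ (l : ℕ) * X j ^ (m - (l : ℕ)) : MvPolynomial (Fin (M + 1)) ℂ).IsHomogeneous
          (D * D₁ + m) := by
        refine IsHomogeneous.sum _ _ _ fun l _ => ?_
        have h1 := ((((hα l).aeval γ hγ.hom).mul ((isHomogeneous_X ℂ i).pow (l : ℕ))).mul ((isHomogeneous_X ℂ j).pow (m - l)))
        have h2 : D * D₁ + 1 * (l : ℕ) + 1 * (m - l) = D * D₁ + m := by
          have h3 : (l : ℕ) ≤ m := Nat.lt_succ_iff.1 l.2
          omega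
        rw [h2] at h1
        exact h1
      exact hw.1 _ hrel _ hGhom'
    rw [h6, mul_zero]
  have hmem' := (Ideal.IsPrime.mem_or_mem inferInstance hmem).resolve_left fun h1 => hkP (Ideal.IsPrime.mem_of_pow_mem inferInstance D₁ h1)
  have h1 : VanishesAt _ (Projectivization.mk ℂ y hy) := hyU.1 _ hmem' _ hGhom
  rw [vanishesAt_mk_iff hGhom, map_sum] at h1
  -- the coordinates of the image
  obtain ⟨a, ha⟩ := Projectivization.exists_smul_eq_mk_rep ℂ y hy
  have h2 : (Projectivization.mk ℂ y hy).rep = (a : ℂ) • y := ha.symm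
  have hvy : vals γ' y ≠ 0 := by
    intro h0
    apply hv'
    rw [h2, Pool.Agent.H7.Bir.vals_smul hγ'.hom, h0, smul_zero]
  have h3 := hγ'.rep _ hyU hv'
  rw [hyx, Pool.Agent.H7.Bir.rmap_mk hγ'.hom hy hvy, Projectivization.mk_eq_mk_iff'] at h3
  obtain ⟨b, hb⟩ := h3
  have h4 : ∀ l : Fin (m + 1), eval x (α l) * y i ^ (l : ℕ) * y j ^ (m - (l : ℕ)) =
      b ^ D₁ * eval y (aeval γ' (α l) * X i ^ (l : ℕ) * X j ^ (m - (l : ℕ))) := by
    intro l
    rw [map_mul, map_mul, map_pow, map_pow, eval_X, eval_X, Pool.Agent.H7.Bir.eval_comp, ← hb, eval_smul (hα l)]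
    ring
  rw [Finset.sum_congr rfl fun l _ => h4 l, ← Finset.mul_sum, h1, mul_zero]

end Pool.Agent.H7.Qup

end
end
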