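import Pool.Agent.H94.CB.H62.Et.Hat
import Pool.Agent.H94.CB.H62.Qe.Defs
import Pool.Agent.H94.CB.M132

/-! The parts of this file: H62.Qe.Loc, H62.Qe.Lift. -/

section

/-!
# Qe Loc: a map which is etale over an open subset is a local homeomorphism over it (adapted from `Pool.Agent.H62.Et.Loc`)
-/

set_option autoImplicit false

open Topology Filter MvPolynomial

noncomputable section

namespace Pool.Agent.H62.Qe

attribute [-instance] ProperSMul.toContinuousSMul

open Pool.Agent.H17 (PN VanishesAt HolomorphicInto)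
open Pool.Agent.H62.FC (Homog)
open Pool.Agent.H17EF (projVar LE)
open Pool.Agent.H7.Bir (vals rmap)
open Pool.Agent.H62.EF (MN pr)
open Pool.Agent.H62.SA (locVar)
open Pool.Agent.H62.Et (pn pn_mk pn_injective pn_near pn_continuousAt pn_continuous isCompact_pn)

variable {N M : ℕ} {P : Ideal (MvPolynomial (Fin (N + 1)) ℂ)} {P' : Ideal (MvPolynomial (Fin (M + 1)) ℂ)} {p : PN M → PN N}

/-- the product of a matrix with a vector -/
private def mA (x₀ : Fin (N + 1) → ℂ) (m : MN N) : Fin (N + 1) → ℂ := fun i => ∑ j, m (i, j) * x₀ j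

/-- the scalar product of `x₀` with the product of the matrix with `x₀` -/
private def mB (x₀ : Fin (N + 1) → ℂ) (m : MN N) : ℂ := ∑ i, (starRingEnd ℂ) (x₀ i) * mA x₀ m i

private def sA (x₀ x : Fin (N + 1) → ℂ) : ℂ := ∑ i, (starRingEnd ℂ) (x₀ i) * x i

private theorem continuous_mA (x₀ : Fin (N + 1) → ℂ) : Continuous (mA x₀) := by
  refine continuous_pi fun i => ?_
  refine continuous_finsetSum _ fun j _ => ?_
  exact (PiLp.continuous_apply 2 _ (i, j)).mul continuous_const

private theorem continuous_mB (x₀ : Fin (N + 1) → ℂ) : Continuous (mB x₀) := by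
  refine continuous_finsetSum _ fun i _ => ?_
  exact continuous_const.mul ((continuous_apply i).comp (continuous_mA x₀))

private theorem sA_self (x : Fin (N + 1) → ℂ) : sA x x = ((‖(LE N) x‖ ^ 2 : ℝ) : ℂ) := by
  rw [EuclideanSpace.norm_sq_eq, sA, Complex.ofReal_sum]
  refine Finset.sum_congr rfl fun i _ => ?_
  rw [Complex.conj_mul']
  push_cast
  rfl

private theorem sA_self_ne {x : Fin (N + 1) → ℂ} (hx : x ≠ 0) : sA x x ≠ 0 := by
  rw [sA_self]
  have h1 : (LE N) x ≠ 0 := fun h => hx ((LE N).map_eq_zero_iff.mp h)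
  have h2 : ‖(LE N) x‖ ≠ 0 := norm_ne_zero_iff.mpr h1
  exact_mod_cast pow_ne_zero 2 h2

private theorem mA_pr (x₀ x : Fin (N + 1) → ℂ) : mA x₀ (pr ((LE N) x)) = (sA x x₀ / sA x x) • x := by
  funext i
  rw [sA_self]
  simp only [mA, Pi.smul_apply, smul_eq_mul]
  rw [div_mul_eq_mul_div, sA, Finset.sum_mul, Finset.sum_div]
  refine Finset.sum_congr rfl fun j _ => ?_
  have h1 : (pr ((LE N) x)) (i, j) = x i * (starRingEnd ℂ) (x j) / ((‖(LE N) x‖ ^ 2 : ℝ) : ℂ) := rfl
  rw [h1]
  ring

private theorem mB_pr (x₀ x : Fin (N + 1) → ℂ) : mB x₀ (pr ((LE N) x)) = sA x x₀ / sA x x * sA x₀ x := by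
  rw [mB, mA_pr]
  rw [show sA x₀ x = ∑ i, (starRingEnd ℂ) (x₀ i) * x i from rfl, Finset.mul_sum]
  refine Finset.sum_congr rfl fun i _ => ?_
  rw [Pi.smul_apply, smul_eq_mul]
  ring

/-- a representative of the line depending continuously on the matrix -/
private theorem exists_nu {x₀ : Fin (N + 1) → ℂ} (hx₀ : x₀ ≠ 0) : ∃ ν : MN N → Fin (N + 1) → ℂ,
    ν (pn (Projectivization.mk ℂ x₀ hx₀)) = x₀ ∧ ∀ᶠ m in 𝓝 (pn (Projectivization.mk ℂ x₀ hx₀)), ContinuousAt ν m ∧
      ∀ y : PN N, pn y = m → ∃ h : ν m ≠ 0, y = Projectivization.mk ℂ (ν m) h := by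
  have hS := sA_self_ne hx₀
  refine ⟨fun m => (sA x₀ x₀ / mB x₀ m) • mA x₀ m, ?_, ?_⟩
  · show (sA x₀ x₀ / mB x₀ _) • mA x₀ _ = x₀
    rw [pn_mk, mA_pr, mB_pr, div_self hS, one_mul, one_smul, div_self hS, one_smul]
  · have h1 : mB x₀ (pn (Projectivization.mk ℂ x₀ hx₀)) ≠ 0 := by
      rw [pn_mk, mB_pr, div_self hS, one_mul]
      exact hS
    filter_upwards [(continuous_mB x₀).continuousAt.eventually_ne h1] with m hm
    refine ⟨?_, fun y hy => ?_⟩
    · exact (continuousAt_const.div (continuous_mB x₀).continuousAt hm).smul (continuous_mA x₀).continuousAt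
    · have h2 : m = pr ((LE N) y.rep) := hy.symm
      have h3 : sA y.rep x₀ / sA y.rep y.rep ≠ 0 := by
        intro h
        rw [h2, mB_pr, h, zero_mul] at hm
        exact hm rfl
      have h5 : (sA x₀ x₀ / mB x₀ m) * (sA y.rep x₀ / sA y.rep y.rep) ≠ 0 := mul_ne_zero (div_ne_zero hS hm) h3
      have h6 : (sA x₀ x₀ / mB x₀ m) • mA x₀ m = ((sA x₀ x₀ / mB x₀ m) * (sA y.rep x₀ / sA y.rep y.rep)) • y.rep := by
        rw [mul_smul, ← mA_pr, ← h2]
      have h7 : (sA x₀ x₀ / mB x₀ m) • mA x₀ m ≠ 0 := by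
        rw [h6]
        exact smul_ne_zero h5 y.rep_nonzero
      refine ⟨h7, ?_⟩
      rw [← Projectivization.mk_rep y, Projectivization.mk_eq_mk_iff']
      refine ⟨((sA x₀ x₀ / mB x₀ m) * (sA y.rep x₀ / sA y.rep y.rep))⁻¹, ?_⟩
      show _ • ((sA x₀ x₀ / mB x₀ m) • mA x₀ m) = _
      rw [h6, smul_smul, inv_mul_cancel₀ h5, one_smul]

/-- the covering as a map of subsets of matrix spaces -/
theorem exists_hat {s s' : ℕ} {G : Fin s → MvPolynomial (Fin (N + 1)) ℂ} {G' : Fin s' → MvPolynomial (Fin (M + 1)) ℂ}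
    (hp : IsEtaleOver P P' G G' p) : ∃ ph : (pn '' projVar P') → (pn '' projVar P),
    (∀ (y : PN M) (hy : y ∈ projVar P'), ph ⟨pn y, Set.mem_image_of_mem pn hy⟩ = ⟨pn (p y), Set.mem_image_of_mem pn (hp.reg.maps y hy)⟩) ∧
      Continuous ph ∧ Function.Surjective ph ∧ ∀ e, (ph e : MN N) ∈ pn '' locVar P G →
        ∃ φ : OpenPartialHomeomorph (pn '' projVar P') (pn '' projVar P), e ∈ φ.source ∧ ph = φ := by
  classical
  -- the point of a matrix
  choose Y hY hYe using fun m : (pn '' projVar P') => m.2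
  have hYpn : ∀ (y : PN M) (hy : y ∈ projVar P'), Y ⟨pn y, Set.mem_image_of_mem pn hy⟩ = y := fun y hy =>
    pn_injective (hYe ⟨pn y, Set.mem_image_of_mem pn hy⟩)
  let ph : (pn '' projVar P') → (pn '' projVar P) := fun m => ⟨pn (p (Y m)), Set.mem_image_of_mem pn (hp.reg.maps _ (hY m))⟩
  have hph : ∀ (y : PN M) (hy : y ∈ projVar P'), ph ⟨pn y, Set.mem_image_of_mem pn hy⟩ = ⟨pn (p y), Set.mem_image_of_mem pn (hp.reg.maps y hy)⟩ := by
    intro y hy
    apply Subtype.ext
    show pn (p (Y _)) = pn (p y)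
    rw [hYpn y hy]
  -- the representatives near a point of the covering
  have hνE : ∀ e : (pn '' projVar P'), ∃ ν : (pn '' projVar P') → Fin (M + 1) → ℂ, ν e = (Y e).rep ∧ ContinuousAt ν e ∧
      ∀ᶠ b in 𝓝 e, ∃ h : ν b ≠ 0, Y b = Projectivization.mk ℂ (ν b) h := by
    intro e
    obtain ⟨ν, h1, h2⟩ := exists_nu (Y e).rep_nonzero
    rw [Projectivization.mk_rep, hYe e] at h1 h2
    refine ⟨fun b => ν b, h1, ?_, ?_⟩
    · exact ContinuousAt.comp (f := Subtype.val) (g := ν) h2.self_of_nhds.1 continuousAt_subtype_val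
    · have h3 : Tendsto (Subtype.val : (pn '' projVar P') → MN M) (𝓝 e) (𝓝 (e : MN M)) := continuousAt_subtype_val
      filter_upwards [h3.eventually h2] with b hb
      exact hb.2 (Y b) (hYe b)
  have hcont : Continuous ph := by
    · -- continuity
      rw [continuous_iff_continuousAt]
      intro e
      rw [Topology.IsInducing.subtypeVal.continuousAt_iff]
      obtain ⟨ν, h1, h2, h3⟩ := hνE e
      obtain ⟨D, γ, hγ, hγ0, hγe⟩ := hp.reg.regular (Y e) (hY e)
      have hc : Continuous fun x : Fin (M + 1) → ℂ => vals γ x := by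
        refine continuous_pi fun i => ?_
        exact MvPolynomial.continuous_eval (γ i)
      have h4 : ContinuousAt (fun b => vals γ (ν b)) e := ContinuousAt.comp (g := vals γ) hc.continuousAt h2
      have h5 : ∀ᶠ b in 𝓝 e, vals γ (ν b) ≠ 0 := h4.eventually_ne (by rw [h1]; exact hγ0)
      refine pn_continuousAt (f := fun b => p (Y b)) h4 ?_
      filter_upwards [h3, h5] with b hb1 hb2
      obtain ⟨hb3, hb4⟩ := hb1
      refine ⟨hb2, ?_⟩
      obtain ⟨a, ha⟩ := Projectivization.exists_smul_eq_mk_rep ℂ (ν b) hb3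
      have h6 : vals γ (Y b).rep ≠ 0 := by
        rw [hb4, ← ha]
        show vals γ ((a : ℂ) • ν b) ≠ 0
        rw [Pool.Agent.H7.Bir.vals_smul hγ]
        exact smul_ne_zero (pow_ne_zero _ a.ne_zero) hb2
      show p (Y b) = _
      rw [hγe (Y b) (hY b) h6, hb4, Pool.Agent.H7.Bir.rmap_mk hγ hb3 hb2]
  refine ⟨ph, hph, hcont, ?_, fun e he => ?_⟩
  rotate_left
  · have heU : Y e ∈ locVar P' G' := by
      refine (hp.inv _ (hY e)).1 ?_
      obtain ⟨x, hx, hxe⟩ := he
      have h1 : x = p (Y e) := pn_injective hxe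
      rw [← h1]
      exact hx
    apply exists_localHomeo hcont
    · -- local injectivity
      obtain ⟨ν, h1, h2, h3⟩ := hνE e
      have hmem : Projectivization.mk ℂ (Y e).rep (Y e).rep_nonzero ∈ locVar P' G' := by
        rw [Projectivization.mk_rep]
        exact heU
      have h4 := hp.locInj (Y e).rep (Y e).rep_nonzero hmem
      have h5 : Tendsto (fun q : (pn '' projVar P') × (pn '' projVar P') => (ν q.1, ν q.2)) (𝓝 (e, e)) (𝓝 ((Y e).rep, (Y e).rep)) := by
        have h6 : ContinuousAt (fun q : (pn '' projVar P') × (pn '' projVar P') => (ν q.1, ν q.2)) (e, e) := by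
          refine ContinuousAt.prodMk ?_ ?_
          · exact ContinuousAt.comp (f := Prod.fst) (g := ν) (x := (e, e)) h2 continuousAt_fst
          · exact ContinuousAt.comp (f := Prod.snd) (g := ν) (x := (e, e)) h2 continuousAt_snd
        have h7 := h6.tendsto
        simp only [h1] at h7
        exact h7
      have h8 : ∀ᶠ q : (pn '' projVar P') × (pn '' projVar P') in 𝓝 (e, e), ∃ h : ν q.1 ≠ 0, Y q.1 = Projectivization.mk ℂ (ν q.1) h :=
        (continuousAt_fst (p := ((e, e) : (pn '' projVar P') × (pn '' projVar P')))).tendsto.eventually h3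
      have h9 : ∀ᶠ q : (pn '' projVar P') × (pn '' projVar P') in 𝓝 (e, e), ∃ h : ν q.2 ≠ 0, Y q.2 = Projectivization.mk ℂ (ν q.2) h :=
        (continuousAt_snd (p := ((e, e) : (pn '' projVar P') × (pn '' projVar P')))).tendsto.eventually h3
      filter_upwards [h5.eventually h4, h8, h9] with q hq1 hq2 hq3 hq4
      obtain ⟨h10, h11⟩ := hq2
      obtain ⟨h12, h13⟩ := hq3
      have h14 : p (Y q.1) = p (Y q.2) := pn_injective (congrArg Subtype.val hq4)
      have h15 := hq1 h10 h12 (by rw [← h11]; exact hY q.1) (by rw [← h13]; exact hY q.2) (by rw [← h11, ← h13]; exact h14)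
      apply Subtype.ext
      rw [← hYe q.1, ← hYe q.2, h11, h13]
      exact congrArg pn h15
    · -- sections
      have hmem : Projectivization.mk ℂ (Y e).rep (Y e).rep_nonzero ∈ locVar P' G' := by
        rw [Projectivization.mk_rep]
        exact heU
      obtain ⟨x, hx, τ, h1, h2, h3, h4⟩ := hp.locSec (Y e).rep (Y e).rep_nonzero hmem
      rw [Projectivization.mk_rep] at h1
      obtain ⟨ν, h5, h6⟩ := exists_nu hx
      rw [← h1] at h5 h6
      -- near the image
      have hpe : (ph e : MN N) = pn (p (Y e)) := rfl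
      have h7 : ∀ᶠ m in 𝓝 (ph e : MN N), ContinuousAt ν m ∧ (∀ y : PN N, pn y = m → ∃ h : ν m ≠ 0, y = Projectivization.mk ℂ (ν m) h) ∧
          ContinuousAt τ (ν m) ∧ ∀ h : ν m ≠ 0, Projectivization.mk ℂ (ν m) h ∈ projVar P →
            ∃ h' : τ (ν m) ≠ 0, Projectivization.mk ℂ (τ (ν m)) h' ∈ projVar P' ∧ p (Projectivization.mk ℂ (τ (ν m)) h') = Projectivization.mk ℂ (ν m) h := by
        rw [hpe]
        have h8 : Tendsto ν (𝓝 (pn (p (Y e)))) (𝓝 x) := by
          have := h6.self_of_nhds.1.tendsto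
          rw [h5] at this
          exact this
        filter_upwards [h6, h8.eventually h2.eventually_analyticAt, h8.eventually h4] with m hm1 hm2 hm3
        exact ⟨hm1.1, hm1.2, hm2.continuousAt, hm3⟩
      -- the statement for the points of the image
      have h8 : ∀ᶠ b in 𝓝 (ph e), ContinuousAt (fun b : (pn '' projVar P) => τ (ν b)) b ∧
          ∃ h' : τ (ν b) ≠ 0, Projectivization.mk ℂ (τ (ν b)) h' ∈ projVar P' ∧ pn (p (Projectivization.mk ℂ (τ (ν b)) h')) = b := by
        have h9 : Tendsto (Subtype.val : (pn '' projVar P) → MN N) (𝓝 (ph e)) (𝓝 (ph e : MN N)) := continuousAt_subtype_val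
        filter_upwards [h9.eventually h7] with b hb
        obtain ⟨hb1, hb2, hb3, hb4⟩ := hb
        obtain ⟨y, hy, hyb⟩ := b.2
        obtain ⟨hb5, hb6⟩ := hb2 y hyb
        obtain ⟨hb7, hb8, hb9⟩ := hb4 hb5 (by rw [← hb6]; exact hy)
        refine ⟨?_, hb7, hb8, ?_⟩
        · have hb10 : ContinuousAt (fun b : (pn '' projVar P) => ν b) b := ContinuousAt.comp (f := Subtype.val) (g := ν) hb1 continuousAt_subtype_val
          exact ContinuousAt.comp (f := fun b : (pn '' projVar P) => ν b) (g := τ) hb3 hb10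
        · rw [hb9, ← hb6]
          exact hyb
      -- the section
      let s : (pn '' projVar P) → (pn '' projVar P') := fun b =>
        if h : ∃ h' : τ (ν b) ≠ 0, Projectivization.mk ℂ (τ (ν b)) h' ∈ projVar P' then
          ⟨pn (Projectivization.mk ℂ (τ (ν b)) h.choose), Set.mem_image_of_mem pn h.choose_spec⟩ else e
      have hs : ∀ b : (pn '' projVar P), ∀ (h : τ (ν b) ≠ 0) (h' : Projectivization.mk ℂ (τ (ν b)) h ∈ projVar P'),
          s b = ⟨pn (Projectivization.mk ℂ (τ (ν b)) h), Set.mem_image_of_mem pn h'⟩ := by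
        intro b h h'
        simp only [s]
        rw [dif_pos ⟨h, h'⟩]
      refine ⟨s, ?_, ?_⟩
      · have h10 : τ (ν (ph e)) = (Y e).rep := by
          rw [hpe, h5, h3]
        have h11 : τ (ν (ph e)) ≠ 0 := by
          rw [h10]
          exact (Y e).rep_nonzero
        have h12 : Projectivization.mk ℂ (τ (ν (ph e))) h11 = Y e := by
          rw [← Projectivization.mk_rep (Y e), Projectivization.mk_eq_mk_iff']
          exact ⟨1, by rw [one_smul, h10]⟩
        rw [hs (ph e) h11 (by rw [h12]; exact hY e)]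
        apply Subtype.ext
        show pn _ = (e : MN M)
        rw [h12, hYe e]
      · filter_upwards [h8.eventually_nhds] with b hb
        refine ⟨?_, ?_⟩
        · rw [Topology.IsInducing.subtypeVal.continuousAt_iff]
          obtain ⟨hb1, hb2, hb3, hb4⟩ := hb.self_of_nhds
          let F : (pn '' projVar P) → PN M := fun b' =>
            if h : ∃ h' : τ (ν b') ≠ 0, Projectivization.mk ℂ (τ (ν b')) h' ∈ projVar P' then Projectivization.mk ℂ (τ (ν b')) h.choose else Y e
          have hF : (Subtype.val ∘ s) = fun b' => pn (F b') := by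
            funext b'
            simp only [Function.comp, s, F]
            split_ifs with h
            · rfl
            · exact (hYe e).symm
          rw [hF]
          refine pn_continuousAt hb1 ?_
          filter_upwards [hb] with b' hb'
          obtain ⟨hb5, hb6, hb7, hb8⟩ := hb'
          refine ⟨hb6, ?_⟩
          simp only [F]
          rw [dif_pos ⟨hb6, hb7⟩]
        · obtain ⟨hb1, hb2, hb3, hb4⟩ := hb.self_of_nhds
          rw [hs b hb2 hb3, hph _ hb3]
          apply Subtype.ext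
          exact hb4
  · rintro ⟨m, x, hx, rfl⟩
    obtain ⟨y, hy, hyx⟩ := hp.reg.surj x hx
    refine ⟨⟨pn y, Set.mem_image_of_mem pn hy⟩, ?_⟩
    rw [hph y hy]
    apply Subtype.ext
    show pn (p y) = pn x
    rw [hyx]

end Pool.Agent.H62.Qe

end
end

section

/-!
# Qe Lift: entire curves and holomorphic maps of the punctured disc in `U` lift to a covering which is etale over `U`
-/

set_option autoImplicit false

open Topology Filter MvPolynomial

noncomputable section

namespace Pool.Agent.H62.Qe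

attribute [-instance] ProperSMul.toContinuousSMul

open Pool.Agent.H17 (PN VanishesAt HolomorphicInto puncturedDisc)
open Pool.Agent.H62.FC (Homog)
open Pool.Agent.H17EF (projVar)
open Pool.Agent.H62.EF (MN)
open Pool.Agent.H62.SA (locVar)
open Pool.Agent.H62.Et (pn pn_mk pn_injective pn_near pn_continuousAt pn_continuous isCompact_pn)

variable {N M : ℕ} {P : Ideal (MvPolynomial (Fin (N + 1)) ℂ)} {P' : Ideal (MvPolynomial (Fin (M + 1)) ℂ)} {p : PN M → PN N}
  {s s' : ℕ} {G : Fin s → MvPolynomial (Fin (N + 1)) ℂ} {G' : Fin s' → MvPolynomial (Fin (M + 1)) ℂ}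

/-- a continuous lift of a holomorphic map is holomorphic -/
theorem holomorphicAt_of_continuousAt (hp : IsEtaleOver P P' G G' p) {f : ℂ → PN N} {z₀ : ℂ}
    (hf : ∃ φ : ℂ → Fin (N + 1) → ℂ, AnalyticAt ℂ φ z₀ ∧ ∀ᶠ z in 𝓝 z₀, ∃ h : φ z ≠ 0, f z = Projectivization.mk ℂ (φ z) h)
    {g : ℂ → PN M} (hg : ContinuousAt (fun z => pn (g z)) z₀) (hgU : g z₀ ∈ locVar P' G') (hgX : ∀ᶠ z in 𝓝 z₀, g z ∈ projVar P')
    (hgf : ∀ᶠ z in 𝓝 z₀, p (g z) = f z) :
    ∃ φ : ℂ → Fin (M + 1) → ℂ, AnalyticAt ℂ φ z₀ ∧ ∀ᶠ z in 𝓝 z₀, ∃ h : φ z ≠ 0, g z = Projectivization.mk ℂ (φ z) h := by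
  have hy₀ : (g z₀).rep ≠ 0 := Projectivization.rep_nonzero _
  have hmk : Projectivization.mk ℂ (g z₀).rep hy₀ = g z₀ := Projectivization.mk_rep _
  obtain ⟨x, hx, τ, h1, hτ, hτx, hsec⟩ := hp.locSec (g z₀).rep hy₀ (by rw [hmk]; exact hgU)
  obtain ⟨φ, hφ, hφf⟩ := hf
  obtain ⟨hφ0, hφz⟩ := hφf.self_of_nhds
  have h2 : Projectivization.mk ℂ x hx = Projectivization.mk ℂ (φ z₀) hφ0 := by
    rw [← h1, hmk, hgf.self_of_nhds, hφz]
  rw [Projectivization.mk_eq_mk_iff'] at h2
  obtain ⟨c, hc⟩ := h2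
  have hc0 : c ≠ 0 := by
    rintro rfl
    rw [zero_smul] at hc
    exact hx hc.symm
  have hφ' : AnalyticAt ℂ (fun z => c • φ z) z₀ := AnalyticAt.fun_const_smul hφ
  have hφc : Tendsto (fun z => c • φ z) (𝓝 z₀) (𝓝 x) := by
    have h3 := hφ'.continuousAt.tendsto
    rwa [hc] at h3
  have hτc : Tendsto (fun z => τ (c • φ z)) (𝓝 z₀) (𝓝 (g z₀).rep) := by
    have h3 := hτ.continuousAt.tendsto
    rw [hτx] at h3
    exact h3.comp hφc
  refine ⟨fun z => τ (c • φ z), ?_, ?_⟩
  · exact hτ.fun_comp_of_eq hφ' hc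
  · have hinj := hp.locInj (g z₀).rep hy₀ (by rw [hmk]; exact hgU)
    rw [nhds_prod_eq, Filter.eventually_iff, Filter.mem_prod_self_iff] at hinj
    obtain ⟨U, hU, hUU⟩ := hinj
    obtain ⟨δ, hδ, hnear⟩ := pn_near hy₀ hU
    rw [hmk] at hnear
    have h4 : ∀ᶠ z in 𝓝 z₀, dist (pn (g z)) (pn (g z₀)) < δ :=
      hg.tendsto.eventually (Metric.ball_mem_nhds _ hδ)
    filter_upwards [hφf, hφc.eventually hsec, hτc.eventually hU, h4, hgX, hgf] with z h5 h6 h7 h8 hXz hfz
    obtain ⟨h9, h10⟩ := h5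
    have h11 : c • φ z ≠ 0 := smul_ne_zero hc0 h9
    have h12 : Projectivization.mk ℂ (c • φ z) h11 = f z := by
      rw [h10, Projectivization.mk_eq_mk_iff']
      exact ⟨c, rfl⟩
    obtain ⟨h13, h14, h15⟩ := h6 h11 (by rw [h12, ← hfz]; exact hp.reg.maps _ hXz)
    obtain ⟨x', hx'U, hx', hx'g⟩ := hnear (g z) h8
    refine ⟨h13, ?_⟩
    rw [hx'g]
    refine hUU (Set.mk_mem_prod hx'U h7) hx' h13 ?_ h14 ?_
    · rw [← hx'g]
      exact hXz
    · rw [← hx'g, hfz, h15, h12]

theorem lift_entire (hP' : Homog P') (hp : IsEtaleOver P P' G G' p) {f : ℂ → PN N} (hf : HolomorphicInto f Set.univ)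
    (hfU : ∀ z, f z ∈ locVar P G) : ∃ g : ℂ → PN M, HolomorphicInto g Set.univ ∧ (∀ z, g z ∈ locVar P' G') ∧ ∀ z, p (g z) = f z := by
  obtain ⟨ph, hph, hcont, hsurj, hloc⟩ := exists_hat hp
  have : CompactSpace (pn '' projVar P') := isCompact_iff_compactSpace.mp (isCompact_pn hP')
  have hfc : Continuous fun z : ℂ => (⟨pn (f z), Set.mem_image_of_mem pn (hfU z).1⟩ : pn '' projVar P) :=
    Continuous.subtype_mk (pn_continuous hf) _
  obtain ⟨e₀, he₀⟩ := hsurj ⟨pn (f 0), Set.mem_image_of_mem pn (hfU 0).1⟩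
  obtain ⟨g₁, hg₁, -, hg₁f⟩ := exists_lift_plane (s := {b : pn '' projVar P | (b : MN N) ∈ pn '' locVar P G}) hcont hloc hfc
    (fun z => Set.mem_image_of_mem pn (hfU z)) he₀
  have hex : ∀ z : ℂ, ∃ y : PN M, y ∈ projVar P' ∧ pn y = (g₁ z : MN M) := fun z => (g₁ z).2
  choose g hgX hgG using hex
  have hgf : ∀ z, p (g z) = f z := by
    intro z
    apply pn_injective
    have h1 := hph (g z) (hgX z)
    have h2 : (⟨pn (g z), Set.mem_image_of_mem pn (hgX z)⟩ : pn '' projVar P') = g₁ z := Subtype.ext (hgG z)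
    rw [h2, hg₁f z] at h1
    exact (congrArg Subtype.val h1).symm
  have hgU : ∀ z, g z ∈ locVar P' G' := fun z => (hp.inv _ (hgX z)).1 (by rw [hgf z]; exact hfU z)
  have hgc : Continuous fun z => pn (g z) := by
    have h3 : (fun z => pn (g z)) = fun z => (g₁ z : MN M) := funext hgG
    rw [h3]
    exact continuous_subtype_val.comp hg₁
  exact ⟨g, fun z₀ _ => holomorphicAt_of_continuousAt hp (hf z₀ (Set.mem_univ _)) hgc.continuousAt (hgU z₀) (Eventually.of_forall hgX)
    (Eventually.of_forall hgf), hgU, hgf⟩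

/-- the homeomorphism of the plane onto the left half plane -/
private def hp1 (w : ℂ) : ℂ := -Real.exp w.re + w.im * Complex.I

private def hp2 (v : ℂ) : ℂ := Real.log (-v.re) + v.im * Complex.I

private theorem hp1_re (w : ℂ) : (hp1 w).re = -Real.exp w.re := by
  unfold hp1
  rw [Complex.add_re, Complex.neg_re, Complex.ofReal_re, Complex.re_ofReal_mul, Complex.I_re, mul_zero, add_zero]

private theorem hp1_im (w : ℂ) : (hp1 w).im = w.im := by
  unfold hp1
  rw [Complex.add_im, Complex.neg_im, Complex.ofReal_im, Complex.im_ofReal_mul, Complex.I_im, mul_one, neg_zero, zero_add]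

private theorem hp1_hp2 {v : ℂ} (hv : v.re < 0) : hp1 (hp2 v) = v := by
  have h1 : (hp2 v).re = Real.log (-v.re) := by
    unfold hp2
    rw [Complex.add_re, Complex.ofReal_re, Complex.re_ofReal_mul, Complex.I_re, mul_zero, add_zero]
  have h2 : (hp2 v).im = v.im := by
    unfold hp2
    rw [Complex.add_im, Complex.ofReal_im, Complex.im_ofReal_mul, Complex.I_im, mul_one, zero_add]
  apply Complex.ext
  · rw [hp1_re, h1, Real.exp_log (by linarith), neg_neg]
  · rw [hp1_im, h2]

private theorem hp1_add (w : ℂ) : hp1 (w + 2 * Real.pi * Complex.I) = hp1 w + 2 * Real.pi * Complex.I := by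
  have h1 : (2 * Real.pi * Complex.I : ℂ).re = 0 := by simp
  apply Complex.ext
  · rw [hp1_re, Complex.add_re, Complex.add_re, h1, hp1_re, add_zero, add_zero]
  · rw [hp1_im, Complex.add_im, Complex.add_im, hp1_im]

private theorem hp2_add (v : ℂ) (n : ℤ) : hp2 (v + n * (2 * Real.pi * Complex.I)) = hp2 v + n * (2 * Real.pi * Complex.I) := by
  have h1 : (n * (2 * Real.pi * Complex.I) : ℂ).re = 0 := by simp
  unfold hp2
  rw [Complex.add_re, h1, add_zero, Complex.add_im]
  push_cast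
  have h2 : (((n * (2 * Real.pi * Complex.I) : ℂ).im : ℝ) : ℂ) * Complex.I = n * (2 * Real.pi * Complex.I) := by
    have h3 := Complex.re_add_im (n * (2 * Real.pi * Complex.I) : ℂ)
    rw [h1, Complex.ofReal_zero, zero_add] at h3
    exact h3
  rw [add_mul, h2]
  ring

private theorem continuous_hp1 : Continuous hp1 := by
  unfold hp1
  fun_prop

private theorem continuousAt_hp2 {v : ℂ} (hv : v.re < 0) : ContinuousAt hp2 v := by
  unfold hp2
  refine ContinuousAt.add ?_ ?_
  · refine Complex.continuous_ofReal.continuousAt.comp ?_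
    refine ContinuousAt.comp (f := fun v : ℂ => -v.re) (g := Real.log) (Real.continuousAt_log (by linarith)) ?_
    fun_prop
  · fun_prop

theorem pn_continuousOn {f : ℂ → PN N} {D : Set ℂ} (hf : HolomorphicInto f D) {z : ℂ} (hz : z ∈ D) : ContinuousAt (fun z => pn (f z)) z := by
  obtain ⟨φ, h1, h2⟩ := hf z hz
  exact pn_continuousAt h1.continuousAt h2

private theorem exp_mem {v : ℂ} (hv : v.re < 0) : Complex.exp v ∈ puncturedDisc := by
  refine ⟨?_, Complex.exp_ne_zero v⟩
  rw [mem_ball_zero_iff, Complex.norm_exp]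
  exact Real.exp_lt_one_iff.2 hv

theorem lift_punctured (hP' : Homog P') (hp : IsEtaleOver P P' G G' p) {f : ℂ → PN N} (hf : HolomorphicInto f puncturedDisc)
    (hfU : ∀ z ∈ puncturedDisc, f z ∈ locVar P G) : ∃ (k : ℕ) (g : ℂ → PN M), 1 ≤ k ∧ HolomorphicInto g puncturedDisc ∧
      (∀ z ∈ puncturedDisc, g z ∈ locVar P' G') ∧ ∀ z ∈ puncturedDisc, p (g z) = f (z ^ k) := by
  obtain ⟨ph, hph, hcont, hsurj, hloc⟩ := exists_hat hp
  have : CompactSpace (pn '' projVar P') := isCompact_iff_compactSpace.mp (isCompact_pn hP')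
  have hneg : ∀ w, (hp1 w).re < 0 := fun w => by
    rw [hp1_re]
    exact neg_lt_zero.2 (Real.exp_pos _)
  have hmem : ∀ w, Complex.exp (hp1 w) ∈ puncturedDisc := fun w => exp_mem (hneg w)
  have hFc : Continuous fun w : ℂ => pn (f (Complex.exp (hp1 w))) := by
    rw [continuous_iff_continuousAt]
    intro w
    exact ContinuousAt.comp (g := fun z => pn (f z)) (f := fun w => Complex.exp (hp1 w)) (pn_continuousOn hf (hmem w))
      (Complex.continuous_exp.comp continuous_hp1).continuousAt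
  have hfc : Continuous fun w : ℂ => (⟨pn (f (Complex.exp (hp1 w))), Set.mem_image_of_mem pn (hfU _ (hmem w)).1⟩ : pn '' projVar P) :=
    Continuous.subtype_mk hFc _
  have hper : ∀ w : ℂ, (⟨pn (f (Complex.exp (hp1 (w + 2 * Real.pi * Complex.I)))), Set.mem_image_of_mem pn (hfU _ (hmem _)).1⟩ : pn '' projVar P) =
      ⟨pn (f (Complex.exp (hp1 w))), Set.mem_image_of_mem pn (hfU _ (hmem w)).1⟩ := by
    intro w
    apply Subtype.ext
    show pn (f (Complex.exp (hp1 (w + 2 * Real.pi * Complex.I)))) = pn (f (Complex.exp (hp1 w)))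
    rw [hp1_add, Complex.exp_periodic]
  obtain ⟨g₁, k, hg₁, hg₁f, hk, hg₁k⟩ := exists_lift_periodic (s := {b : pn '' projVar P | (b : MN N) ∈ pn '' locVar P G}) hcont hsurj hloc hfc
    (fun w => Set.mem_image_of_mem pn (hfU _ (hmem w))) hper
  have hg₁p : ∀ (n : ℤ) (w : ℂ), g₁ (w + n * (k * (2 * Real.pi * Complex.I))) = g₁ w := fun n w =>
    Function.Periodic.int_mul (f := g₁) (c := k * (2 * Real.pi * Complex.I)) hg₁k n w
  have hex : ∀ w : ℂ, ∃ y : PN M, y ∈ projVar P' ∧ pn y = (g₁ w : MN M) := fun w => (g₁ w).2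
  choose g₂ hg₂X hg₂G using hex
  have hg₂f : ∀ w, p (g₂ w) = f (Complex.exp (hp1 w)) := by
    intro w
    apply pn_injective
    have h1 := hph (g₂ w) (hg₂X w)
    have h2 : (⟨pn (g₂ w), Set.mem_image_of_mem pn (hg₂X w)⟩ : pn '' projVar P') = g₁ w := Subtype.ext (hg₂G w)
    rw [h2, hg₁f w] at h1
    exact (congrArg Subtype.val h1).symm
  have hkr : (0 : ℝ) < k := by exact_mod_cast hk
  have hre : ∀ z ∈ puncturedDisc, (k * Complex.log z).re < 0 := by
    intro z hz
    have h1 : (k * Complex.log z).re = k * Real.log ‖z‖ := by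
      rw [← Complex.ofReal_natCast, Complex.re_ofReal_mul, Complex.log_re]
    rw [h1]
    have h2 : ‖z‖ < 1 := by
      rw [← mem_ball_zero_iff]
      exact hz.1
    have h3 : 0 < ‖z‖ := norm_pos_iff.2 hz.2
    exact mul_neg_of_pos_of_neg hkr (Real.log_neg h3 h2)
  have hgX : ∀ z, g₂ (hp2 (k * Complex.log z)) ∈ projVar P' := fun z => hg₂X _
  have hgf : ∀ z ∈ puncturedDisc, p (g₂ (hp2 (k * Complex.log z))) = f (z ^ k) := by
    intro z hz
    rw [hg₂f, hp1_hp2 (hre z hz), Complex.exp_nat_mul, Complex.exp_log hz.2]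
  have hpow : ∀ z ∈ puncturedDisc, z ^ k ∈ puncturedDisc := by
    intro z hz
    refine ⟨?_, pow_ne_zero k hz.2⟩
    rw [mem_ball_zero_iff, norm_pow]
    exact pow_lt_one₀ (norm_nonneg z) (by rw [← mem_ball_zero_iff]; exact hz.1) (by omega)
  have hgU : ∀ z ∈ puncturedDisc, g₂ (hp2 (k * Complex.log z)) ∈ locVar P' G' := fun z hz =>
    (hp.inv _ (hgX z)).1 (by rw [hgf z hz]; exact hfU _ (hpow z hz))
  have hopen : IsOpen puncturedDisc := Metric.isOpen_ball.sdiff isClosed_singleton
  refine ⟨k, fun z => g₂ (hp2 (k * Complex.log z)), hk, fun z₀ hz₀ => ?_, hgU, hgf⟩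
  have hz0 : z₀ ≠ 0 := hz₀.2
  refine holomorphicAt_of_continuousAt hp (f := fun z => f (z ^ k)) ?_ ?_ (hgU z₀ hz₀) (Eventually.of_forall hgX) ?_
  · obtain ⟨φ, h1, h2⟩ := hf (z₀ ^ k) (hpow z₀ hz₀)
    have h3 : AnalyticAt ℂ (fun z : ℂ => z ^ k) z₀ := analyticAt_id.pow k
    exact ⟨fun z => φ (z ^ k), AnalyticAt.comp (g := φ) (f := fun z : ℂ => z ^ k) h1 h3, h3.continuousAt.tendsto.eventually h2⟩
  · -- continuity
    have h1 : (fun z => pn (g₂ (hp2 (k * Complex.log z)))) = fun z => (g₁ (hp2 (k * Complex.log z)) : MN M) := funext fun z => hg₂G _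
    rw [h1]
    have h2 : ContinuousAt (fun z => (g₁ (hp2 (k * (Complex.log (z / z₀) + Complex.log z₀))) : MN M)) z₀ := by
      have h3 : ContinuousAt (fun z : ℂ => k * (Complex.log (z / z₀) + Complex.log z₀)) z₀ := by
        refine continuousAt_const.mul (ContinuousAt.add ?_ continuousAt_const)
        refine ContinuousAt.clog ?_ ?_
        · exact continuousAt_id.div continuousAt_const hz0
        · rw [div_self hz0]
          exact Complex.one_mem_slitPlane
      have h4 : (k * (Complex.log (z₀ / z₀) + Complex.log z₀)).re < 0 := by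
        rw [div_self hz0, Complex.log_one, zero_add]
        exact hre z₀ hz₀
      have h5 : ContinuousAt (fun z : ℂ => hp2 (k * (Complex.log (z / z₀) + Complex.log z₀))) z₀ :=
        ContinuousAt.comp (g := hp2) (f := fun z : ℂ => k * (Complex.log (z / z₀) + Complex.log z₀)) (continuousAt_hp2 h4) h3
      exact ContinuousAt.comp (g := fun w => (g₁ w : MN M)) (f := fun z : ℂ => hp2 (k * (Complex.log (z / z₀) + Complex.log z₀)))
        (continuous_subtype_val.comp hg₁).continuousAt h5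
    refine h2.congr ?_
    filter_upwards [isOpen_ne.mem_nhds hz0] with z hz
    have hz' : z ≠ 0 := hz
    have h3 : Complex.exp (Complex.log (z / z₀) + Complex.log z₀) = Complex.exp (Complex.log z) := by
      rw [Complex.exp_add, Complex.exp_log (div_ne_zero hz' hz0), Complex.exp_log hz0, Complex.exp_log hz', div_mul_cancel₀ _ hz0]
    obtain ⟨n, hn⟩ := Complex.exp_eq_exp_iff_exists_int.1 h3
    rw [hn, mul_add]
    have h4 : (k : ℂ) * (n * (2 * Real.pi * Complex.I)) = ((k * n : ℤ) : ℂ) * (2 * Real.pi * Complex.I) := by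
      push_cast
      ring
    rw [h4, hp2_add]
    have h5 : ((k * n : ℤ) : ℂ) * (2 * Real.pi * Complex.I) = n * (k * (2 * Real.pi * Complex.I)) := by
      push_cast
      ring
    rw [h5, hg₁p]
  · filter_upwards [hopen.mem_nhds hz₀] with z hz
    exact hgf z hz

end Pool.Agent.H62.Qe

end
end
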