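import Pool.Agent.H94.CB.H14.PP.Defs
import Pool.Agent.H94.CB.M01

/-! The parts of this file: H14.PP.CurveBasic, H14.PP.ChartBasic_1, H14.PP.Defs_2, H14.PP.ChartBasic_2. -/

section

/-!
# BPm CurveBasic: rules for `rho`, `fs`, `CurveAt`

* `rho_smul`: `‖Q (c x)‖ = ‖c‖^D ‖Q x‖`, `‖c x‖^D = ‖c‖^D ‖x‖^D`.
* `continuousAt_rho`: quotient of continuous functions, `x ≠ 0`.
* `continuousAt_fs`: `fs = wd / ‖x‖^2`, `wd_cont`.
* `fs_eq`: `wd x v = ‖x‖ ‖v - (⟪x,v⟫/‖x‖^2) x‖` for `x ≠ 0`, since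
  `‖v - a x‖^2 = ‖v‖^2 - ‖⟪x,v⟫‖^2/‖x‖^2`, `a = ⟪x,v⟫/‖x‖^2` (`wd_sq`).
* `fs_le`: `fs x v ≤ ‖v‖/‖x‖` (`wd_le`).
* `exists_rho_bound`: `rho` is invariant under scaling and continuous on the compact set
  `{x ∈ X | ‖x‖ = 1}` (`insert 0 X` is closed).
* `IsEq.curve_discrete`: `Q ∘ F` is analytic at `z₀`
  (`AnalyticAt.eventually_eq_zero_or_eventually_ne_zero`).
-/

open Topology Filter Metric

namespace Pool.Agent.H14.PP

attribute [-instance] ProperSMul.toContinuousSMul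

open Pool.Agent.H36.BP

variable {N : ℕ} {W : Type*} [NormedAddCommGroup W] [InnerProductSpace ℂ W]
  {X K T : Set (EN N)} {Q : EN N → W} {D : ℕ}

theorem IsCone.ne_zero (hX : IsCone X) {x : EN N} (hx : x ∈ X) : x ≠ 0 := by
  rintro rfl
  exact hX.zero_notMem hx

theorem CurveAt.mem {F : ℂ → EN N} {z₀ : ℂ} (hF : CurveAt X F z₀) : F z₀ ∈ X :=
  hF.2.self_of_nhds

theorem rho_smul (hQ : ∀ (c : ℂ) (x : EN N), Q (c • x) = c ^ D • Q x) {x : EN N} {c : ℂ}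
    (hc : c ≠ 0) : rho Q D (c • x) = rho Q D x := by
  unfold rho
  rw [hQ, norm_smul, norm_smul, norm_pow, mul_pow,
    mul_div_mul_left _ _ (pow_ne_zero _ (norm_ne_zero_iff.2 hc))]

end Pool.Agent.H14.PP

end

section

/-!
# BPm ChartBasic: charts, basic facts

* `Chart.fderiv_q_smul`: `q (c • y) = q y` for `y` near `x ∈ U` (`U` open); differentiate:
  `Dq(c x) (c v) = Dq(x) v`; and `Dq(x) x = 0` (differentiate `q ((1 + h) • x) = q x` at `h = 0`).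
* `Chart.fderiv_sigma`: derivative of `q ∘ σ = id` on the bidisc: `Dq(σ p) (Dσ(p) w) = w`.
* `Chart.tan`: the curve `z ↦ σ (p + z • w)`; if `σ p ∈ K` it stays in `K` (`rel_open`).
* `Chart.curve`: `q ∘ F` is analytic at `z₀` (composition), its derivative is given by the chain
  rule. For `z` near `z₀`, `F z ∈ X ∩ U`, so `q (F z) ∈ ball 0 2` and `F z = c z • σ (q (F z))` with
  `c z ≠ 0` (`surj`). With `y = σ (q (F z₀)) ≠ 0`: `c z = ⟪y, F z⟫ / ⟪y, σ (q (F z))⟫` near `z₀`: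
  analytic.
* `Chart.sigma_mem_iff`: for `x ∈ X ∩ U`, `x = c • σ (q x)`, so `x ∈ K ↔ σ (q x) ∈ K`.
-/

open Topology Filter Metric

namespace Pool.Agent.H14.PP

attribute [-instance] ProperSMul.toContinuousSMul

open Pool.Agent.H36.BP

variable {N : ℕ} {X K T : Set (EN N)}

theorem Chart.sigma_ne_zero (hX : IsCone X) (χ : Chart X) {p : ℂ × ℂ}
    (hp : p ∈ ball (0 : ℂ × ℂ) 2) : χ.σ p ≠ 0 :=
  hX.ne_zero (χ.σ_mem p hp).1

theorem Chart.curve (hX : IsCone X) (χ : Chart X) {F : ℂ → EN N} {z₀ : ℂ} (hF : CurveAt X F z₀)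
    (hU : F z₀ ∈ χ.U) :
    AnalyticAt ℂ (fun z => χ.q (F z)) z₀ ∧
    deriv (fun z => χ.q (F z)) z₀ = fderiv ℂ χ.q (F z₀) (deriv F z₀) ∧
    ∃ c : ℂ → ℂ, AnalyticAt ℂ c z₀ ∧ c z₀ ≠ 0 ∧
      ∀ᶠ z in 𝓝 z₀, χ.q (F z) ∈ ball (0 : ℂ × ℂ) 2 ∧ F z = c z • χ.σ (χ.q (F z)) := by
  have hq : AnalyticAt ℂ χ.q (F z₀) := χ.q_an _ hU
  have hqF : AnalyticAt ℂ (fun z => χ.q (F z)) z₀ := AnalyticAt.comp hq hF.1
  refine ⟨hqF, ?_, ?_⟩
  · have h1 : HasFDerivAt χ.q (fderiv ℂ χ.q (F z₀)) (F z₀) := hq.differentiableAt.hasFDerivAt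
    have h2 : HasDerivAt F (deriv F z₀) z₀ := hF.1.differentiableAt.hasDerivAt
    exact (h1.comp_hasDerivAt z₀ h2).deriv
  · have hX0 : F z₀ ∈ X := hF.mem
    obtain ⟨hb, c0, hc0, hF0⟩ := χ.surj _ hX0 hU
    have hσ : AnalyticAt ℂ (fun z => χ.σ (χ.q (F z))) z₀ :=
      AnalyticAt.comp (g := χ.σ) (f := fun z => χ.q (F z)) (χ.σ_an _ hb) hqF
    set y : EN N := χ.σ (χ.q (F z₀)) with hy
    have hy0 : y ≠ 0 := Chart.sigma_ne_zero hX χ hb
    have hn : AnalyticAt ℂ (fun z => inner ℂ y (F z)) z₀ :=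
      AnalyticAt.comp (g := fun x : EN N => (innerSL ℂ y) x) (f := F)
        ((innerSL ℂ y).analyticAt _) hF.1
    have hd : AnalyticAt ℂ (fun z => inner ℂ y (χ.σ (χ.q (F z)))) z₀ :=
      AnalyticAt.comp (g := fun x : EN N => (innerSL ℂ y) x) (f := fun z => χ.σ (χ.q (F z)))
        ((innerSL ℂ y).analyticAt _) hσ
    have hd0 : (fun z => inner ℂ y (χ.σ (χ.q (F z)))) z₀ ≠ (0 : ℂ) := by
      show inner ℂ y y ≠ (0 : ℂ)
      exact inner_self_ne_zero.2 hy0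
    refine ⟨fun z => inner ℂ y (F z) / inner ℂ y (χ.σ (χ.q (F z))), hn.div hd hd0, ?_, ?_⟩
    · refine div_ne_zero ?_ hd0
      rw [hF0, inner_smul_right]
      exact mul_ne_zero hc0 (inner_self_ne_zero.2 hy0)
    · have hev : ∀ᶠ z in 𝓝 z₀, (fun z => inner ℂ y (χ.σ (χ.q (F z)))) z ≠ (0 : ℂ) :=
        hd.continuousAt.eventually_ne hd0
      have hevU : ∀ᶠ z in 𝓝 z₀, F z ∈ χ.U :=
        hF.1.continuousAt.eventually_mem (χ.isOpen_U.mem_nhds hU)
      filter_upwards [hev, hevU, hF.2] with z h1 h2 h3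
      obtain ⟨h4, c, hc, h5⟩ := χ.surj _ h3 h2
      refine ⟨h4, ?_⟩
      have h6 : inner ℂ y (F z) / inner ℂ y (χ.σ (χ.q (F z))) = c := by
        rw [div_eq_iff h1]
        conv_lhs => rw [h5]
        rw [inner_smul_right]
      rw [h6]
      exact h5

theorem Chart.rho_sigma {W : Type*} [NormedAddCommGroup W] [InnerProductSpace ℂ W]
    {Q : EN N → W} {D : ℕ} (hQ : ∀ (c : ℂ) (x : EN N), Q (c • x) = c ^ D • Q x) (χ : Chart X)
    {x : EN N} (hx : x ∈ X) (hU : x ∈ χ.U) : rho Q D (χ.σ (χ.q x)) = rho Q D x := by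
  obtain ⟨_, c, hc, h1⟩ := χ.surj x hx hU
  conv_rhs => rw [h1]
  rw [rho_smul hQ hc]

end Pool.Agent.H14.PP

end

section

/-!
# Project BP, metric half: definitions

`X` is the cone (without `0`) over a compact surface in `ℙ^N`, `K ⊆ X` the cone over the complement
of a curve (`K = X` in the compact case), `T` the cone over the total curve: it contains `X \ K`,
and `K ∩ T` is the exceptional set.
-/

open Topology Filter Metric

namespace Pool.Agent.H14.PP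

attribute [-instance] ProperSMul.toContinuousSMul

open Pool.Agent.H36.BP (EN fs wd)

variable {N : ℕ}

/-- `K` is the cone over a relatively open subset. -/
structure IsOpenPart (X K : Set (EN N)) : Prop where
  subset : K ⊆ X
  smul_mem : ∀ x ∈ K, ∀ c : ℂ, c ≠ 0 → c • x ∈ K
  rel_open : ∀ x ∈ K, ∀ᶠ y in 𝓝 x, y ∈ X → y ∈ K

/-- In the chart `χ` the curve `T` is the coordinate axis `s = 0` (`nd = false`) or the union
`s t = 0` of the two coordinate axes (`nd = true`). -/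
def HasType {X : Set (EN N)} (T : Set (EN N)) (χ : Chart X) (nd : Bool) : Prop :=
  ∀ p ∈ ball (0 : ℂ × ℂ) 2, (χ.σ p ∈ T ↔ p.1 = 0 ∨ (nd = true ∧ p.2 = 0))

/-- The complement of `K` in the chart: a union of some of the coordinate axes. -/
def DType {X : Set (EN N)} (K : Set (EN N)) (χ : Chart X) (d : Bool × Bool) : Prop :=
  ∀ p ∈ ball (0 : ℂ × ℂ) 2, (χ.σ p ∉ K ↔ (d.1 = true ∧ p.1 = 0) ∨ (d.2 = true ∧ p.2 = 0))

/-- `T` is a curve with at most nodes on the surface whose cone is `X`, and `X \ K` is a union of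
components of `T`. -/
def IsNodal (X K T : Set (EN N)) : Prop :=
  ∀ x ∈ T, ∃ (χ : Chart X) (nd : Bool) (d : Bool × Bool), x ∈ χ.U ∧ χ.q x = 0 ∧ HasType T χ nd ∧
    DType K χ d ∧ (d.2 = true → nd = true)

/-- The form has no zeros outside `T`. -/
def Form.NoZeroOff {K : Set (EN N)} {m j : ℕ} (Ω : Form K m j) (T : Set (EN N)) : Prop :=
  ∀ x ∈ K, x ∉ T → ∀ v w, Tan K x v → Tan K x w → LinearIndependent ℂ ![x, v, w] →
    Ω.toFun x v w ≠ 0

/-- The coefficient of the form in a chart. -/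
noncomputable def aCoef {X K : Set (EN N)} {m j : ℕ} (Ω : Form K m j) (χ : Chart X) (p : ℂ × ℂ) :
    ℂ :=
  Ω.toFun (χ.σ p) (fderiv ℂ χ.σ p (1, 0)) (fderiv ℂ χ.σ p (0, 1))

/-- The form has poles of order at most `m - 1` along `X \ K`. -/
def Form.PoleBound {K : Set (EN N)} {m j : ℕ} (Ω : Form K m j) (X : Set (EN N)) : Prop :=
  ∀ (χ : Chart X) (d : Bool × Bool), DType K χ d → ∃ b : ℂ × ℂ → ℂ,
    (∀ p ∈ ball (0 : ℂ × ℂ) 2, AnalyticAt ℂ b p) ∧
    ∀ p ∈ ball (0 : ℂ × ℂ) 2, χ.σ p ∈ K → b p = gD d p ^ (m - 1) * aCoef Ω χ p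

/-- The invariant length of the form in a chart, to the power `1 / m`. -/
noncomputable def ACoef {X K : Set (EN N)} {m j : ℕ} (Ω : Form K m j) (χ : Chart X) (p : ℂ × ℂ) :
    ℝ :=
  ‖aCoef Ω χ p‖ ^ (1 / (m : ℝ)) * ‖χ.σ p‖ ^ ((j : ℝ) / m)

/-- The normal piece. -/
noncomputable def pN (nd : Bool) (P : Par) (s t s' : ℂ) : ℝ :=
  (if nd = true then ‖t‖ ^ (1 - P.κ) * Real.exp (-P.ε * ‖s‖ ^ 2) else 1) * ‖s'‖ *
    (1 + P.M * ‖s‖ ^ (2 * P.κ)) ^ P.e * Real.exp (-P.K * ‖t‖ ^ 2)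

/-- The tangential piece. -/
noncomputable def pT (nd : Bool) (P : Par) (s t t' : ℂ) : ℝ :=
  if nd = true then pN true P t s t' else ‖s‖ ^ (1 - P.κ) * ‖t'‖ * Real.exp (-P.ε * ‖t‖ ^ 2)

/-- The maximum of the two pieces. -/
noncomputable def pM (nd : Bool) (P : Par) (p w : ℂ × ℂ) : ℝ :=
  max (pN nd P p.1 p.2 w.1) (pT nd P p.1 p.2 w.2)

section metric

variable {W : Type*} [NormedAddCommGroup W] [InnerProductSpace ℂ W]

end metric

end Pool.Agent.H14.PP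

end

section

/-!
# BPm ChartBasic: charts, basic facts

* `Chart.fderiv_q_smul`: `q (c • y) = q y` for `y` near `x ∈ U` (`U` open); differentiate:
  `Dq(c x) (c v) = Dq(x) v`; and `Dq(x) x = 0` (differentiate `q ((1 + h) • x) = q x` at `h = 0`).
* `Chart.fderiv_sigma`: derivative of `q ∘ σ = id` on the bidisc: `Dq(σ p) (Dσ(p) w) = w`.
* `Chart.tan`: the curve `z ↦ σ (p + z • w)`; if `σ p ∈ K` it stays in `K` (`rel_open`).
* `Chart.curve`: `q ∘ F` is analytic at `z₀` (composition), its derivative is given by the chain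
  rule. For `z` near `z₀`, `F z ∈ X ∩ U`, so `q (F z) ∈ ball 0 2` and `F z = c z • σ (q (F z))` with
  `c z ≠ 0` (`surj`). With `y = σ (q (F z₀)) ≠ 0`: `c z = ⟪y, F z⟫ / ⟪y, σ (q (F z))⟫` near `z₀`:
  analytic.
* `Chart.sigma_mem_iff`: for `x ∈ X ∩ U`, `x = c • σ (q x)`, so `x ∈ K ↔ σ (q x) ∈ K`.
-/

open Topology Filter Metric

namespace Pool.Agent.H14.PP

attribute [-instance] ProperSMul.toContinuousSMul

open Pool.Agent.H36.BP

variable {N : ℕ} {X K T : Set (EN N)}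

theorem Chart.tan (hK : IsOpenPart X K) (χ : Chart X) {p : ℂ × ℂ}
    (hp : p ∈ ball (0 : ℂ × ℂ) 2) (hpK : χ.σ p ∈ K) (w : ℂ × ℂ) :
    Tan K (χ.σ p) (fderiv ℂ χ.σ p w) := by
  have hl : AnalyticAt ℂ (fun z : ℂ => p + z • w) 0 := by fun_prop
  have h0 : p + (0 : ℂ) • w = p := by simp
  have hσ : AnalyticAt ℂ χ.σ (p + (0 : ℂ) • w) := by rw [h0]; exact χ.σ_an p hp
  have hF : AnalyticAt ℂ (fun z : ℂ => χ.σ (p + z • w)) 0 :=
    AnalyticAt.comp (g := χ.σ) (f := fun z : ℂ => p + z • w) hσ hl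
  refine ⟨fun z => χ.σ (p + z • w), ⟨hF, ?_⟩, by simp, ?_⟩
  · have h1 : ∀ᶠ z : ℂ in 𝓝 0, χ.σ (p + z • w) ∈ X → χ.σ (p + z • w) ∈ K := by
      have h2 := hF.continuousAt
      have h3 := hK.rel_open _ hpK
      have h4 : χ.σ (p + (0 : ℂ) • w) = χ.σ p := by rw [h0]
      have h5 : Tendsto (fun z : ℂ => χ.σ (p + z • w)) (𝓝 0) (𝓝 (χ.σ p)) := by
        have := h2.tendsto
        rwa [h4] at this
      exact h5.eventually h3
    have h6 : ∀ᶠ z : ℂ in 𝓝 0, p + z • w ∈ ball (0 : ℂ × ℂ) 2 := by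
      have h7 := hl.continuousAt
      apply h7.eventually_mem
      rw [h0]
      exact isOpen_ball.mem_nhds hp
    filter_upwards [h1, h6] with z hz hz'
    exact hz (χ.σ_mem _ hz').1
  · have h1 : HasFDerivAt χ.σ (fderiv ℂ χ.σ p) (p + (0 : ℂ) • w) := by
      rw [h0]
      exact (χ.σ_an p hp).differentiableAt.hasFDerivAt
    have h2 : HasDerivAt (fun z : ℂ => p + z • w) w 0 := by
      have h3 : HasDerivAt (fun z : ℂ => z • w) ((1 : ℂ) • w) 0 :=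
        (hasDerivAt_id (0 : ℂ)).smul_const w
      rw [one_smul] at h3
      exact h3.const_add p
    exact (h1.comp_hasDerivAt (0 : ℂ) h2).deriv

end Pool.Agent.H14.PP

end
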