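import Pool.Agent.H94.CB.H62.EL.Defs
import Pool.Agent.H94.CB.M04
import Pool.Agent.H94.CB.M18

/-! The parts of this file: H62.EL.JanA, H62.EL.Prm, H62.EL.Tc. -/

section

/-!
# EL JanA: periodicity and zeros of the integral

`II_per`: `IRel α ε (z + l) y y' v ↔ IRel α ε z y y' v` (so the two functions of `v` are equal and `II` is the same): use the same chart and `A` with `c - l` (resp. `c + l`) instead of `c`; `Mon` holds
because `l ∈ Λ`; `tc α χ (mo (c - l) ρ 1 0) p = tc α χ (mo c ρ 1 0) p` by `Per` (`mo c = mo (c - l) + l`; the point `χ.σ p` and its tangent vectors, see `Chart.tan`).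

`II_zero`: let `IRel α ε l y y' v`, `v = (A p' - A p) / ρ`, `c + ρ p.1 = l = c + ρ p'.1`, so `p.1 = p'.1`.  For `q = (p.1, t)`, `|t| < 2`: `∂₂ A q = tc α χ _ q = α.toFun l (χ.σ q) ∂₁ ∂₂ = α.toFun 0 .. = 0`
(`Per`, `VanZero`; `u (χ.σ q) ∈ Λ`).  So `A` is constant on this disc, `v = 0`.
-/

set_option autoImplicit false

open Topology Filter Metric

namespace Pool.Agent.H62.EL

attribute [-instance] ProperSMul.toContinuousSMul

open Pool.Agent.H36.BP (EN fs wd IsGermChart)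
open Pool.Agent.H14.PP (IsCone Chart Tan CurveAt)
open Pool.Agent.H62.EF (Lat MN pr TorusMap Sec Charts DU)

variable {N : ℕ} {X : Set (EN N)} {Λ : AddSubgroup ℂ} {u : EN N → ℂ}

variable {Γ : AddSubgroup ℂ} {B : Set ℂ} {δ : ℝ}

private theorem JanA_tan (χ : Chart X) {p : ℂ × ℂ} (hp : p ∈ ball (0 : ℂ × ℂ) 2) (w : ℂ × ℂ) :
    Tan X (χ.σ p) (fderiv ℂ χ.σ p w) := by
  have hl : AnalyticAt ℂ (fun z : ℂ => p + z • w) 0 := by fun_prop
  have h0 : p + (0 : ℂ) • w = p := by simp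
  have hσ : AnalyticAt ℂ χ.σ (p + (0 : ℂ) • w) := by rw [h0]; exact χ.σ_an p hp
  have hF : AnalyticAt ℂ (fun z : ℂ => χ.σ (p + z • w)) 0 :=
    AnalyticAt.comp (g := χ.σ) (f := fun z : ℂ => p + z • w) hσ hl
  refine ⟨fun z => χ.σ (p + z • w), ⟨hF, ?_⟩, by simp, ?_⟩
  · have h6 : ∀ᶠ z : ℂ in 𝓝 0, p + z • w ∈ ball (0 : ℂ × ℂ) 2 := by
      have h7 := hl.continuousAt
      apply h7.eventually_mem
      rw [h0]
      exact isOpen_ball.mem_nhds hp
    filter_upwards [h6] with z hz'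
    exact (χ.σ_mem _ hz').1
  · have h1 : HasFDerivAt χ.σ (fderiv ℂ χ.σ p) (p + (0 : ℂ) • w) := by
      rw [h0]
      exact (χ.σ_an p hp).differentiableAt.hasFDerivAt
    have h2 : HasDerivAt (fun z : ℂ => p + z • w) w 0 := by
      have h3 : HasDerivAt (fun z : ℂ => z • w) ((1 : ℂ) • w) 0 :=
        (hasDerivAt_id (0 : ℂ)).smul_const w
      rw [one_smul] at h3
      exact h3.const_add p
    exact (h1.comp_hasDerivAt (0 : ℂ) h2).deriv

private theorem JanA_shift {α : TForm X Λ u} (hle : Γ ≤ Λ) (hper : Per α Γ) {l : ℂ} (hl : l ∈ Γ) {ε : ℝ} {z : ℂ}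
    {y y' : MN N} {v : ℂ} (h : IRel α ε z y y' v) : IRel α ε (z + l) y y' v := by
  obtain ⟨χ, c, ρ, A, p, p', hm, hA, hp, hp', h1, h2, h3, h4, h5, h6⟩ := h
  have hmo : ∀ q, mo (c + l) ρ 1 0 q = mo c ρ 1 0 q + l := by
    intro q
    unfold mo
    ring
  refine ⟨χ, c + l, ρ, A, p, p', ⟨hm.pos, hm.ij, fun q hq => ?_⟩, ⟨hA.an, fun q hq => ?_, hA.zero⟩, hp, hp', ?_, ?_,
    h3, h4, h5, h6⟩
  · rw [hmo, show u (χ.σ q) - (mo c ρ 1 0 q + l) = (u (χ.σ q) - mo c ρ 1 0 q) - l by ring]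
    exact Λ.sub_mem (hm.lift q hq) (hle hl)
  · rw [hA.der q hq]
    unfold tc
    rw [hmo]
    exact (hper _ l hl _ (χ.σ_mem q hq).1 (hm.lift q hq) _ _ (JanA_tan χ hq _) (JanA_tan χ hq _)).symm
  · rw [← h1]
    ring
  · rw [← h2]
    ring

private theorem JanA_zero {α : TForm X Λ u} (hvan : VanZero α) {ε : ℝ} {y y' : MN N} {v : ℂ}
    (h : IRel α ε 0 y y' v) : v = 0 := by
  obtain ⟨χ, c, ρ, A, p, p', hm, hA, hp, hp', h1, h2, -, -, -, h6⟩ := h
  have hρ : (ρ : ℂ) ≠ 0 := by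
    have := hm.pos
    exact_mod_cast this.ne'
  have hpp : p'.1 = p.1 := by
    have h7 : (ρ : ℂ) * p'.1 = ρ * p.1 := by linear_combination h2 - h1
    exact mul_left_cancel₀ hρ h7
  have hball : ∀ {q : ℂ × ℂ}, q ∈ ball (0 : ℂ × ℂ) 2 ↔ ‖q.1‖ < 2 ∧ ‖q.2‖ < 2 := by
    intro q
    rw [mem_ball_zero_iff, Prod.norm_def, max_lt_iff]
  have hder : ∀ t ∈ ball (0 : ℂ) 2, HasDerivAt (fun t => A (p.1, t)) 0 t := by
    intro t ht
    have hq : (p.1, t) ∈ ball (0 : ℂ × ℂ) 2 := hball.2 ⟨(hball.1 hp).1, mem_ball_zero_iff.1 ht⟩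
    have h7 : HasFDerivAt A (fderiv ℂ A (p.1, t)) (p.1, t) := (hA.an _ hq).differentiableAt.hasFDerivAt
    have h8 : HasDerivAt (fun t : ℂ => (p.1, t)) ((0, 1) : ℂ × ℂ) t :=
      (hasDerivAt_const t p.1).prodMk (hasDerivAt_id t)
    have h9 := h7.comp_hasDerivAt t h8
    have h10 : fderiv ℂ A (p.1, t) (0, 1) = 0 := by
      rw [hA.der _ hq]
      have h11 : mo c ρ 1 0 (p.1, t) = 0 := by
        unfold mo
        rw [← h1]
        ring
      have h12 := hm.lift _ hq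
      rw [h11, sub_zero] at h12
      unfold tc
      rw [h11]
      exact hvan _ (χ.σ_mem _ hq).1 h12 _ _ (JanA_tan χ hq _) (JanA_tan χ hq _)
    rw [h10] at h9
    exact h9
  have hconst : A (p.1, p'.2) = A (p.1, p.2) := by
    refine isOpen_ball.is_const_of_deriv_eq_zero (s := ball (0 : ℂ) 2) (f := fun t => A (p.1, t))
      (convex_ball (0 : ℂ) 2).isPreconnected (fun t ht => (hder t ht).differentiableAt.differentiableWithinAt)
      (fun t ht => (hder t ht).deriv) (mem_ball_zero_iff.2 (hball.1 hp').2) (mem_ball_zero_iff.2 (hball.1 hp).2)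
  have e1 : p' = (p.1, p'.2) := by rw [← hpp]
  rw [h6, e1, hconst]
  simp

theorem II_per (hu : TorusMap X Λ u) {α : TForm X Λ u} (hle : Γ ≤ Λ) (hper : Per α Γ) {l : ℂ} (hl : l ∈ Γ) (ε : ℝ) (z : ℂ)
    (y y' : MN N) : II α ε (z + l) y y' = II α ε z y y' := by
  have key : IRel α ε (z + l) y y' = IRel α ε z y y' := by
    funext v
    refine propext ⟨fun h => ?_, fun h => JanA_shift hle hper hl h⟩
    have h1 := JanA_shift hle hper (Γ.neg_mem hl) h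
    rwa [add_neg_cancel_right] at h1
  unfold II
  rw [key]

theorem II_zero (hu : TorusMap X Λ u) {α : TForm X Λ u} (hle : Γ ≤ Λ) (hper : Per α Γ) (hvan : VanZero α) {l : ℂ} (hl : l ∈ Γ)
    (ε : ℝ) (y y' : MN N) : II α ε l y y' = 0 := by
  have h1 := II_per hu hle hper hl ε 0 y y'
  rw [zero_add] at h1
  rw [h1]
  unfold II
  split_ifs with h
  · exact JanA_zero hvan h.choose_spec
  · rfl

end Pool.Agent.H62.EL

end

section

/-!
# EL Prm: primitives of analytic functions of two variables on a bidisc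

`exists_prim_snd`: for `a` analytic on `ball 0 R` (a bidisc: the norm of `ℂ × ℂ` is the maximum) put
`A (s, t) = ∫ θ in 0..1, t * a (s, θ t)`.  Analyticity and `∂A/∂t = a`: e.g. by differentiation under the integral sign (the integrand is
analytic in `(s, t)`, continuous in `(θ, s, t)`; a function which is complex differentiable on an open set is analytic:
`DifferentiableOn.analyticAt` for one variable; for two variables one may use that `A` is differentiable with continuous partial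
derivatives, or the theorem on analytic functions of several variables (Osgood / Hartogs) in Mathlib or on main).  Alternative without
integrals: power series.  On each smaller bidisc `a (s, t) = Σ a_{mn} s^m t^n` ...; or `A (s, ·)` is the primitive on the disc
`‖t‖ < R` of `a (s, ·)` with value `0` at `0` (`DifferentiableOn.isExactOn_ball`), and analytic dependence on `s` by the integral formula.
Look for parametric integrals of analytic functions in Mathlib and in `Pool/Agent` (grep for `hasDerivAt_integral_of_dominated_loc_of_deriv_le`,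
`hasFDerivAt_integral_of_dominated_of_fderiv_le`, `DifferentiableOn.analyticAt`).

`exists_potential`: `b₁, b₂` analytic on the bidisc, `∂b₂/∂s = ∂b₁/∂t`.  Let `B₂` be the primitive of `b₂` in the direction of `t` with
`B₂ (s, 0) = 0` (first theorem) and `B₁` the primitive of `s ↦ b₁ (s, 0)` with `B₁ 0 = 0`.  `ψ (s, t) = B₁ s + B₂ (s, t)`: `∂ψ/∂t = b₂`;
`∂ψ/∂s = b₁ (s, 0) + ∂B₂/∂s =: g`, `∂g/∂t = ∂²B₂/∂t∂s = ∂b₂/∂s = ∂b₁/∂t` (mixed derivatives of analytic functions are symmetric) and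
`g (s, 0) = b₁ (s, 0)` (`B₂ (·, 0) = 0`), so `g = b₁` (for fixed `s` both are functions of `t` on a disc with the same derivative).
Alternatively use the Poincaré lemma of Mathlib (`Mathlib/MeasureTheory/Integral/CurveIntegral/Poincare.lean`).
-/

set_option autoImplicit false

open Topology Filter Metric

namespace Pool.Agent.H62.EL

attribute [-instance] ProperSMul.toContinuousSMul

private theorem prm_pi : (0 : ℝ) ≤ 2 * Real.pi := by positivity

/-- the parameter interval of the circle -/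
private abbrev PrmT : Type := Set.Icc (0 : ℝ) (2 * Real.pi)

private noncomputable def prmP (θ : ℝ) : PrmT := Set.projIcc 0 (2 * Real.pi) prm_pi θ

private theorem prmP_cont : Continuous prmP := continuous_projIcc (h := prm_pi)

private theorem prmP_of_mem {θ : ℝ} (h : θ ∈ Set.uIcc 0 (2 * Real.pi)) : ((prmP θ : PrmT) : ℝ) = θ := by
  rw [Set.uIcc_of_le prm_pi] at h
  rw [prmP, Set.projIcc_of_mem prm_pi h]

private theorem prm_cont2 (f : C(PrmT × PrmT, ℂ)) : Continuous fun x : ℝ × ℝ => f (prmP x.1, prmP x.2) :=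
  f.continuous.comp ((prmP_cont.comp continuous_fst).prodMk (prmP_cont.comp continuous_snd))

private theorem prm_cont_in (f : C(PrmT × PrmT, ℂ)) (θ : ℝ) : Continuous fun φ : ℝ => f (prmP θ, prmP φ) :=
  (prm_cont2 f).comp (continuous_const.prodMk continuous_id)

private theorem prm_cont_out (f : C(PrmT × PrmT, ℂ)) :
    Continuous fun θ : ℝ => ∫ φ in (0 : ℝ)..(2 * Real.pi), f (prmP θ, prmP φ) :=
  intervalIntegral.continuous_parametric_intervalIntegral_of_continuous' (f := fun θ φ : ℝ => f (prmP θ, prmP φ))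
    (prm_cont2 f) _ _

/-- the double integral as a continuous functional -/
private noncomputable def prmJ : C(PrmT × PrmT, ℂ) →L[ℂ] ℂ :=
  LinearMap.mkContinuous
    { toFun := fun f => ∫ θ in (0 : ℝ)..(2 * Real.pi), ∫ φ in (0 : ℝ)..(2 * Real.pi), f (prmP θ, prmP φ)
      map_add' := by
        intro f g
        rw [← intervalIntegral.integral_add ((prm_cont_out f).intervalIntegrable _ _)
          ((prm_cont_out g).intervalIntegrable _ _)]
        congr 1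
        funext θ
        rw [← intervalIntegral.integral_add ((prm_cont_in f θ).intervalIntegrable _ _)
          ((prm_cont_in g θ).intervalIntegrable _ _)]
        rfl
      map_smul' := by
        intro c f
        simp only [ContinuousMap.coe_smul, Pi.smul_apply, intervalIntegral.integral_smul, RingHom.id_apply] }
    ((2 * Real.pi) * (2 * Real.pi)) (by
      intro f
      have h1 : ∀ θ : ℝ, ‖∫ φ in (0 : ℝ)..(2 * Real.pi), f (prmP θ, prmP φ)‖ ≤ ‖f‖ * (2 * Real.pi) := by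
        intro θ
        have h2 := intervalIntegral.norm_integral_le_of_norm_le_const (a := 0) (b := 2 * Real.pi) (C := ‖f‖)
          (f := fun φ => f (prmP θ, prmP φ)) (fun φ _ => f.norm_coe_le_norm _)
        rwa [sub_zero, abs_of_nonneg prm_pi] at h2
      have h2 := intervalIntegral.norm_integral_le_of_norm_le_const (a := 0) (b := 2 * Real.pi)
        (C := ‖f‖ * (2 * Real.pi))
        (f := fun θ => ∫ φ in (0 : ℝ)..(2 * Real.pi), f (prmP θ, prmP φ)) (fun θ _ => h1 θ)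
      rw [sub_zero, abs_of_nonneg prm_pi] at h2
      refine h2.trans (le_of_eq ?_)
      ring)

private theorem prmJ_apply (f : C(PrmT × PrmT, ℂ)) :
    prmJ f = ∫ θ in (0 : ℝ)..(2 * Real.pi), ∫ φ in (0 : ℝ)..(2 * Real.pi), f (prmP θ, prmP φ) := rfl

private theorem prm_unit {Q : Type} [TopologicalSpace Q] (G : C(Q, ℂ)) {s : ℂ} (h : ∀ q, G q ≠ s) :
    IsUnit (G - s • (1 : C(Q, ℂ))) := by
  rw [ContinuousMap.isUnit_iff_forall_ne_zero]
  intro q hq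
  apply h q
  have h1 : (G - s • (1 : C(Q, ℂ))) q = G q - s := by simp
  rw [h1, sub_eq_zero] at hq
  exact hq

private theorem prm_inv_apply {Q : Type} [TopologicalSpace Q] (G : C(Q, ℂ)) {s : ℂ} (h : ∀ q, G q ≠ s) (q : Q) :
    (Ring.inverse (G - s • (1 : C(Q, ℂ)))) q = (G q - s)⁻¹ := by
  have h1 := Ring.mul_inverse_cancel _ (prm_unit G h)
  have h2 := congrArg (fun f : C(Q, ℂ) => f q) h1
  have h3 : (G q - s) * (Ring.inverse (G - s • (1 : C(Q, ℂ)))) q = 1 := by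
    simpa using h2
  exact (eq_inv_of_mul_eq_one_right h3)

private theorem prm_inv_an {Q : Type} [TopologicalSpace Q] [CompactSpace Q] (G : C(Q, ℂ)) {s : ℂ} (h : ∀ q, G q ≠ s) :
    AnalyticAt ℂ (fun s : ℂ => Ring.inverse (G - s • (1 : C(Q, ℂ)))) s := by
  obtain ⟨u, hu⟩ := prm_unit G h
  have h1 : AnalyticAt ℂ (Ring.inverse : C(Q, ℂ) → C(Q, ℂ)) (G - s • (1 : C(Q, ℂ))) := by
    rw [← hu]
    exact analyticAt_inverse u
  have h2 : AnalyticAt ℂ (fun s : ℂ => G - s • (1 : C(Q, ℂ))) s :=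
    analyticAt_const.sub (analyticAt_id.smul analyticAt_const)
  exact AnalyticAt.fun_comp (g := (Ring.inverse : C(Q, ℂ) → C(Q, ℂ))) (f := fun s : ℂ => G - s • (1 : C(Q, ℂ))) h1 h2

private theorem prm_loc {R r : ℝ} (hr : 0 < r) (hrR : r < R) {a : ℂ × ℂ → ℂ}
    (ha : ∀ p ∈ ball (0 : ℂ × ℂ) R, AnalyticAt ℂ a p) :
    ∃ A : ℂ × ℂ → ℂ, (∀ p ∈ ball (0 : ℂ × ℂ) r, AnalyticAt ℂ A p ∧ HasDerivAt (fun t => A (p.1, t)) (a p) p.2) ∧
      ∀ s : ℂ, A (s, 0) = 0 := by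
  have hmem : ∀ s t : ℂ, ‖s‖ ≤ r → ‖t‖ ≤ r → (s, t) ∈ ball (0 : ℂ × ℂ) R := by
    intro s t hs ht
    rw [mem_ball_zero_iff, Prod.norm_def]
    exact (max_le hs ht).trans_lt hrR
  have hγn : ∀ θ : ℝ, ‖circleMap 0 r θ‖ = r := by
    intro θ
    rw [norm_circleMap_zero, abs_of_pos hr]
  have hac : ContinuousOn a (ball (0 : ℂ × ℂ) R) := fun p hp => (ha p hp).continuousAt.continuousWithinAt
  set γ : ℝ → ℂ := circleMap 0 r with hγ
  have hγc : Continuous γ := continuous_circleMap 0 r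
  set γ' : ℝ → ℂ := fun θ => γ θ * Complex.I with hγ'
  have hγ'c : Continuous γ' := hγc.mul continuous_const
  have hTc1 : Continuous fun q : PrmT × PrmT => γ (q.1 : ℝ) := hγc.comp (continuous_subtype_val.comp continuous_fst)
  have hTc2 : Continuous fun q : PrmT × PrmT => γ (q.2 : ℝ) := hγc.comp (continuous_subtype_val.comp continuous_snd)
  have hWc : Continuous fun q : PrmT × PrmT => (2 * Real.pi * Complex.I)⁻¹ * (2 * Real.pi * Complex.I)⁻¹ *
      (γ' (q.1 : ℝ) * γ' (q.2 : ℝ)) * a (γ (q.1 : ℝ), γ (q.2 : ℝ)) := by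
    refine (continuous_const.mul ((hγ'c.comp (continuous_subtype_val.comp continuous_fst)).mul
      (hγ'c.comp (continuous_subtype_val.comp continuous_snd)))).mul ?_
    refine hac.comp_continuous (hTc1.prodMk hTc2) fun q => ?_
    exact hmem _ _ (hγn _).le (hγn _).le
  let W : C(PrmT × PrmT, ℂ) := ⟨_, hWc⟩
  let G1 : C(PrmT × PrmT, ℂ) := ⟨_, hTc1⟩
  let G2 : C(PrmT × PrmT, ℂ) := ⟨_, hTc2⟩
  have hG1 : ∀ s : ℂ, ‖s‖ < r → ∀ q, G1 q ≠ s := by
    intro s hs q hq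
    have h1 : ‖G1 q‖ = r := hγn _
    rw [hq] at h1
    linarith
  have hG2 : ∀ s : ℂ, ‖s‖ < r → ∀ q, G2 q ≠ s := by
    intro s hs q hq
    have h1 : ‖G2 q‖ = r := hγn _
    rw [hq] at h1
    linarith
  let K1 : ℂ → C(PrmT × PrmT, ℂ) := fun s => Ring.inverse (G1 - s • (1 : C(PrmT × PrmT, ℂ)))
  let K2 : ℂ → C(PrmT × PrmT, ℂ) := fun s => Ring.inverse (G2 - s • (1 : C(PrmT × PrmT, ℂ)))
  have hK1 : ∀ s : ℂ, ‖s‖ < r → AnalyticAt ℂ K1 s := fun s hs => prm_inv_an G1 (hG1 s hs)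
  have hK2 : ∀ s : ℂ, ‖s‖ < r → AnalyticAt ℂ K2 s := fun s hs => prm_inv_an G2 (hG2 s hs)
  have hK2d : DifferentiableOn ℂ K2 (ball 0 r) := fun s hs =>
    (hK2 s (by simpa using hs)).differentiableAt.differentiableWithinAt
  obtain ⟨L, hL0, hL⟩ := hK2d.isExactOn_ball.with_val_at 0 0
  have hLa : ∀ s : ℂ, ‖s‖ < r → AnalyticAt ℂ L s := by
    intro s hs
    have h1 : DifferentiableOn ℂ L (ball 0 r) := fun z hz => (hL z hz).differentiableAt.differentiableWithinAt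
    exact h1.analyticAt (isOpen_ball.mem_nhds (by simpa using hs))
  have key : ∀ s t : ℂ, ‖s‖ < r → ‖t‖ < r → prmJ (W * K1 s * K2 t) = a (s, t) := by
    intro s t hs ht
    have hin : ∀ u : ℂ, ‖u‖ ≤ r →
        ∫ φ in (0 : ℝ)..(2 * Real.pi), γ' φ * ((γ φ - t)⁻¹ * a (u, γ φ)) = (2 * Real.pi * Complex.I) * a (u, t) := by
      intro u hu
      have h1 : DifferentiableOn ℂ (fun z => a (u, z)) (closedBall 0 r) := by
        intro z hz
        have h2 := (ha (u, z) (hmem u z hu (by simpa using hz))).differentiableAt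
        exact (h2.comp z ((differentiableAt_const u).prodMk differentiableAt_id)).differentiableWithinAt
      have h3 := h1.circleIntegral_sub_inv_smul (w := t) (by simpa using ht)
      rw [circleIntegral] at h3
      simpa only [deriv_circleMap, smul_eq_mul] using h3
    have hout : ∫ θ in (0 : ℝ)..(2 * Real.pi), γ' θ * ((γ θ - s)⁻¹ * a (γ θ, t)) =
        (2 * Real.pi * Complex.I) * a (s, t) := by
      have h1 : DifferentiableOn ℂ (fun z => a (z, t)) (closedBall 0 r) := by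
        intro z hz
        have h2 := (ha (z, t) (hmem z t (by simpa using hz) ht.le)).differentiableAt
        exact (h2.comp z (differentiableAt_id.prodMk (differentiableAt_const t))).differentiableWithinAt
      have h3 := h1.circleIntegral_sub_inv_smul (w := s) (by simpa using hs)
      rw [circleIntegral] at h3
      simpa only [deriv_circleMap, smul_eq_mul] using h3
    have hpi : (2 * Real.pi * Complex.I : ℂ) ≠ 0 := Complex.two_pi_I_ne_zero
    rw [prmJ_apply]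
    have e1 : ∀ θ ∈ Set.uIcc (0 : ℝ) (2 * Real.pi),
        (∫ φ in (0 : ℝ)..(2 * Real.pi), (W * K1 s * K2 t) (prmP θ, prmP φ)) =
        (2 * Real.pi * Complex.I)⁻¹ * (γ' θ * ((γ θ - s)⁻¹ * a (γ θ, t))) := by
      intro θ hθ
      have e2 : (∫ φ in (0 : ℝ)..(2 * Real.pi), (W * K1 s * K2 t) (prmP θ, prmP φ)) =
          ∫ φ in (0 : ℝ)..(2 * Real.pi), ((2 * Real.pi * Complex.I)⁻¹ * (2 * Real.pi * Complex.I)⁻¹ *
            (γ' θ * (γ θ - s)⁻¹)) * (γ' φ * ((γ φ - t)⁻¹ * a (γ θ, γ φ))) := by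
        apply intervalIntegral.integral_congr
        intro φ hφ
        have e3 : (W * K1 s * K2 t) (prmP θ, prmP φ) =
            W (prmP θ, prmP φ) * (K1 s (prmP θ, prmP φ)) * (K2 t (prmP θ, prmP φ)) := rfl
        have e4 : K1 s (prmP θ, prmP φ) = (γ θ - s)⁻¹ := by
          have h1 := prm_inv_apply G1 (hG1 s hs) (prmP θ, prmP φ)
          have h2 : G1 (prmP θ, prmP φ) = γ θ := by
            change γ ((prmP θ : PrmT) : ℝ) = γ θ
            rw [prmP_of_mem hθ]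
          rw [h2] at h1
          exact h1
        have e5 : K2 t (prmP θ, prmP φ) = (γ φ - t)⁻¹ := by
          have h1 := prm_inv_apply G2 (hG2 t ht) (prmP θ, prmP φ)
          have h2 : G2 (prmP θ, prmP φ) = γ φ := by
            change γ ((prmP φ : PrmT) : ℝ) = γ φ
            rw [prmP_of_mem hφ]
          rw [h2] at h1
          exact h1
        have e6 : W (prmP θ, prmP φ) = (2 * Real.pi * Complex.I)⁻¹ * (2 * Real.pi * Complex.I)⁻¹ *
            (γ' θ * γ' φ) * a (γ θ, γ φ) := by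
          change (2 * Real.pi * Complex.I)⁻¹ * (2 * Real.pi * Complex.I)⁻¹ *
            (γ' ((prmP θ : PrmT) : ℝ) * γ' ((prmP φ : PrmT) : ℝ)) *
              a (γ ((prmP θ : PrmT) : ℝ), γ ((prmP φ : PrmT) : ℝ)) = _
          rw [prmP_of_mem hθ, prmP_of_mem hφ]
        simp only [e3, e4, e5, e6]
        ring
      rw [e2, intervalIntegral.integral_const_mul, hin _ (hγn θ).le]
      field_simp
    rw [intervalIntegral.integral_congr e1, intervalIntegral.integral_const_mul, hout]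
    field_simp
  refine ⟨fun p => prmJ (W * K1 p.1 * L p.2), ?_, ?_⟩
  · intro p hp
    rw [mem_ball_zero_iff, Prod.norm_def, max_lt_iff] at hp
    constructor
    · have h1 : AnalyticAt ℂ (fun p : ℂ × ℂ => K1 p.1) p := (hK1 p.1 hp.1).comp analyticAt_fst
      have h2 : AnalyticAt ℂ (fun p : ℂ × ℂ => L p.2) p := (hLa p.2 hp.2).comp analyticAt_snd
      exact (prmJ.analyticAt _).comp ((analyticAt_const.mul h1).mul h2)
    · have h1 := hL p.2 (by simpa using hp.2)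
      have h2 := (h1.const_mul (W * K1 p.1))
      have h3 := (prmJ.hasFDerivAt (x := W * K1 p.1 * L p.2)).comp_hasDerivAt p.2 h2
      rw [key p.1 p.2 hp.1 hp.2] at h3
      exact h3
  · intro s
    change prmJ (W * K1 s * L 0) = 0
    rw [hL0, mul_zero, map_zero]

private theorem prm_const {R : ℝ} {f g : ℂ → ℂ} {h : ℂ → ℂ} (hf : ∀ z ∈ ball (0 : ℂ) R, HasDerivAt f (h z) z)
    (hg : ∀ z ∈ ball (0 : ℂ) R, HasDerivAt g (h z) z) (h0 : f 0 = g 0) {z : ℂ} (hz : z ∈ ball (0 : ℂ) R) : f z = g z := by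
  have hR : (0 : ℂ) ∈ ball (0 : ℂ) R := by
    rw [mem_ball_zero_iff] at hz ⊢
    rw [norm_zero]
    exact (norm_nonneg z).trans_lt hz
  have h1 : ∀ z ∈ ball (0 : ℂ) R, HasDerivAt (fun z => f z - g z) 0 z := by
    intro z hz
    have h2 := (hf z hz).sub (hg z hz)
    rwa [sub_self] at h2
  have h2 : (fun z => f z - g z) z = (fun z => f z - g z) 0 := by
    refine (convex_ball (0 : ℂ) R).is_const_of_fderivWithin_eq_zero (𝕜 := ℂ)
      (fun w hw => (h1 w hw).differentiableAt.differentiableWithinAt) ?_ hz hR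
    intro w hw
    rw [fderivWithin_of_isOpen isOpen_ball hw]
    have h3 := (h1 w hw).hasFDerivAt.fderiv
    rw [h3]
    ext
    simp
  simp only [h0, sub_self] at h2
  exact sub_eq_zero.1 h2

theorem exists_prim_snd {R : ℝ} {a : ℂ × ℂ → ℂ} (ha : ∀ p ∈ ball (0 : ℂ × ℂ) R, AnalyticAt ℂ a p) :
    ∃ A : ℂ × ℂ → ℂ, (∀ p ∈ ball (0 : ℂ × ℂ) R, AnalyticAt ℂ A p ∧ fderiv ℂ A p (0, 1) = a p) ∧
      ∀ s : ℂ, ‖s‖ < R → A (s, 0) = 0 := by
  have hmem : ∀ s t : ℂ, ‖s‖ < R → ‖t‖ < R → (s, t) ∈ ball (0 : ℂ × ℂ) R := by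
    intro s t hs ht
    rw [mem_ball_zero_iff, Prod.norm_def]
    exact max_lt hs ht
  have hex : ∀ s : ℂ, ∃ g : ℂ → ℂ, ‖s‖ < R → g 0 = 0 ∧ ∀ t ∈ ball (0 : ℂ) R, HasDerivAt g (a (s, t)) t := by
    intro s
    by_cases hs : ‖s‖ < R
    · have h1 : DifferentiableOn ℂ (fun t => a (s, t)) (ball 0 R) := by
        intro t ht
        have h2 := (ha (s, t) (hmem s t hs (by simpa using ht))).differentiableAt
        exact (h2.comp t ((differentiableAt_const s).prodMk differentiableAt_id)).differentiableWithinAt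
      obtain ⟨g, hg0, hg⟩ := h1.isExactOn_ball.with_val_at 0 0
      exact ⟨g, fun _ => ⟨hg0, hg⟩⟩
    · exact ⟨0, fun h => absurd h hs⟩
  choose g hg using hex
  have hloc : ∀ r : ℝ, 0 < r → r < R → ∃ A : ℂ × ℂ → ℂ, ∀ p ∈ ball (0 : ℂ × ℂ) r, AnalyticAt ℂ A p ∧
      HasDerivAt (fun t => A (p.1, t)) (a p) p.2 ∧ A p = g p.1 p.2 := by
    intro r hr hrR
    obtain ⟨A, hA, hA0⟩ := prm_loc hr hrR ha
    refine ⟨A, fun p hp => ⟨(hA p hp).1, (hA p hp).2, ?_⟩⟩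
    rw [mem_ball_zero_iff, Prod.norm_def, max_lt_iff] at hp
    have h1 := hg p.1 (hp.1.trans hrR)
    refine prm_const (R := r) (f := fun t => A (p.1, t)) (g := g p.1) (h := fun t => a (p.1, t)) ?_ ?_ ?_
      (z := p.2) (by simpa using hp.2)
    · intro t ht
      have h2 : (p.1, t) ∈ ball (0 : ℂ × ℂ) r := by
        rw [mem_ball_zero_iff, Prod.norm_def]
        exact max_lt hp.1 (by simpa using ht)
      exact (hA (p.1, t) h2).2
    · intro t ht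
      exact h1.2 t (ball_subset_ball hrR.le ht)
    · rw [hA0, h1.1]
  refine ⟨fun p => g p.1 p.2, ?_, ?_⟩
  · intro p hp
    have hpR : ‖p‖ < R := by simpa using hp
    have hR : 0 < R := (norm_nonneg p).trans_lt hpR
    obtain ⟨r, hr1, hr2⟩ := exists_between hpR
    have hr0 : 0 < r := (norm_nonneg p).trans_lt hr1
    obtain ⟨A, hA⟩ := hloc r hr0 hr2
    have hpr : p ∈ ball (0 : ℂ × ℂ) r := by simpa using hr1
    have hev : A =ᶠ[𝓝 p] fun p => g p.1 p.2 := by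
      filter_upwards [isOpen_ball.mem_nhds hpr] with q hq
      exact (hA q hq).2.2
    obtain ⟨h1, h2, -⟩ := hA p hpr
    refine ⟨h1.congr hev, ?_⟩
    rw [← hev.fderiv_eq]
    have h3 : HasDerivAt (fun t : ℂ => ((p.1, t) : ℂ × ℂ)) (0, 1) p.2 :=
      (hasDerivAt_const p.2 p.1).prodMk (hasDerivAt_id p.2)
    have h4 := h1.differentiableAt.hasFDerivAt.comp_hasDerivAt p.2 h3
    exact h4.unique h2
  · intro s hs
    exact (hg s hs).1

theorem exists_potential {R : ℝ} {b₁ b₂ : ℂ × ℂ → ℂ} (h₁ : ∀ p ∈ ball (0 : ℂ × ℂ) R, AnalyticAt ℂ b₁ p)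
    (h₂ : ∀ p ∈ ball (0 : ℂ × ℂ) R, AnalyticAt ℂ b₂ p)
    (hc : ∀ p ∈ ball (0 : ℂ × ℂ) R, fderiv ℂ b₂ p (1, 0) = fderiv ℂ b₁ p (0, 1)) :
    ∃ ψ : ℂ × ℂ → ℂ, ψ 0 = 0 ∧ ∀ p ∈ ball (0 : ℂ × ℂ) R, AnalyticAt ℂ ψ p ∧ fderiv ℂ ψ p (1, 0) = b₁ p ∧
      fderiv ℂ ψ p (0, 1) = b₂ p := by
  by_cases hR : 0 < R
  swap
  · refine ⟨0, rfl, fun p hp => ?_⟩
    rw [ball_eq_empty.2 (not_lt.1 hR)] at hp
    exact absurd hp (Set.notMem_empty p)
  have hmem : ∀ s t : ℂ, ‖s‖ < R → ‖t‖ < R → (s, t) ∈ ball (0 : ℂ × ℂ) R := by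
    intro s t hs ht
    rw [mem_ball_zero_iff, Prod.norm_def]
    exact max_lt hs ht
  obtain ⟨B₂, hB₂, hB₂0⟩ := exists_prim_snd h₂
  have hd1 : DifferentiableOn ℂ (fun s => b₁ (s, 0)) (ball 0 R) := by
    intro s hs
    have h2 := (h₁ (s, 0) (hmem s 0 (by simpa using hs) (by simpa using hR))).differentiableAt
    exact (h2.comp s (differentiableAt_id.prodMk (differentiableAt_const (0 : ℂ)))).differentiableWithinAt
  obtain ⟨B₁, hB₁0, hB₁⟩ := hd1.isExactOn_ball.with_val_at 0 0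
  have hB₁a : ∀ s : ℂ, ‖s‖ < R → AnalyticAt ℂ B₁ s := by
    intro s hs
    have h1 : DifferentiableOn ℂ B₁ (ball 0 R) := fun z hz => (hB₁ z hz).differentiableAt.differentiableWithinAt
    exact h1.analyticAt (isOpen_ball.mem_nhds (by simpa using hs))
  have hfst : ∀ p : ℂ × ℂ, p ∈ ball (0 : ℂ × ℂ) R → HasFDerivAt (fun p : ℂ × ℂ => B₁ p.1)
      (b₁ (p.1, 0) • ContinuousLinearMap.fst ℂ ℂ ℂ) p := by
    intro p hp
    rw [mem_ball_zero_iff, Prod.norm_def, max_lt_iff] at hp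
    have h1 := (hB₁ p.1 (by simpa using hp.1)).hasFDerivAt.comp p (hasFDerivAt_fst (𝕜 := ℂ) (p := p))
    convert! h1 using 1
    ext <;> simp
  refine ⟨fun p => B₁ p.1 + B₂ p, ?_, ?_⟩
  · change B₁ 0 + B₂ (0, 0) = 0
    rw [hB₁0, hB₂0 0 (by simpa using hR), add_zero]
  · intro p hp
    have hp' := hp
    rw [mem_ball_zero_iff, Prod.norm_def, max_lt_iff] at hp'
    have hfd : ∀ q ∈ ball (0 : ℂ × ℂ) R, HasFDerivAt (fun p : ℂ × ℂ => B₁ p.1 + B₂ p)
        (b₁ (q.1, 0) • ContinuousLinearMap.fst ℂ ℂ ℂ + fderiv ℂ B₂ q) q := fun q hq =>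
      (hfst q hq).add (hB₂ q hq).1.differentiableAt.hasFDerivAt
    refine ⟨((hB₁a p.1 hp'.1).comp analyticAt_fst).add (hB₂ p hp).1, ?_, ?_⟩
    · rw [(hfd p hp).fderiv]
      have h1 : (b₁ (p.1, 0) • ContinuousLinearMap.fst ℂ ℂ ℂ + fderiv ℂ B₂ p) (1, 0) =
          b₁ (p.1, 0) + fderiv ℂ B₂ p (1, 0) := by simp
      rw [h1]
      -- both sides have the same derivative in the direction of t
      have hline : ∀ t : ℂ, HasDerivAt (fun t : ℂ => ((p.1, t) : ℂ × ℂ)) (0, 1) t := fun t =>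
        (hasDerivAt_const t p.1).prodMk (hasDerivAt_id t)
      have hmt : ∀ t ∈ ball (0 : ℂ) R, (p.1, t) ∈ ball (0 : ℂ × ℂ) R := fun t ht =>
        hmem p.1 t hp'.1 (by simpa using ht)
      refine prm_const (R := R) (f := fun t => b₁ (p.1, 0) + fderiv ℂ B₂ (p.1, t) (1, 0)) (g := fun t => b₁ (p.1, t))
        (h := fun t => fderiv ℂ b₁ (p.1, t) (0, 1)) ?_ ?_ ?_ (z := p.2) (by simpa using hp'.2)
      · intro t ht
        have hq := hmt t ht
        have h2 : HasFDerivAt (fderiv ℂ B₂) (fderiv ℂ (fderiv ℂ B₂) (p.1, t)) (p.1, t) :=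
          (hB₂ _ hq).1.fderiv.differentiableAt.hasFDerivAt
        have h3 := h2.comp_hasDerivAt t (hline t)
        have h4 : HasDerivAt (fun t => fderiv ℂ B₂ (p.1, t) (1, 0))
            (fderiv ℂ (fderiv ℂ B₂) (p.1, t) (0, 1) (1, 0)) t :=
          (ContinuousLinearMap.apply ℂ ℂ ((1, 0) : ℂ × ℂ)).hasFDerivAt.comp_hasDerivAt t h3
        have h5 : fderiv ℂ (fderiv ℂ B₂) (p.1, t) (0, 1) (1, 0) = fderiv ℂ (fderiv ℂ B₂) (p.1, t) (1, 0) (0, 1) :=
          ((hB₂ _ hq).1.contDiffAt (n := ⊤)).isSymmSndFDerivAt_of_omega (0, 1) (1, 0)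
        have h6 : fderiv ℂ (fderiv ℂ B₂) (p.1, t) (1, 0) (0, 1) = fderiv ℂ b₂ (p.1, t) (1, 0) := by
          have h7 : (fun q => fderiv ℂ B₂ q (0, 1)) =ᶠ[𝓝 (p.1, t)] b₂ := by
            filter_upwards [isOpen_ball.mem_nhds hq] with q hq
            exact (hB₂ q hq).2
          rw [← h7.fderiv_eq]
          have h8 : HasFDerivAt (fun q => fderiv ℂ B₂ q (0, 1))
              ((ContinuousLinearMap.apply ℂ ℂ ((0, 1) : ℂ × ℂ)).comp (fderiv ℂ (fderiv ℂ B₂) (p.1, t))) (p.1, t) :=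
            (ContinuousLinearMap.apply ℂ ℂ ((0, 1) : ℂ × ℂ)).hasFDerivAt.comp (p.1, t) h2
          rw [h8.fderiv]
          rfl
        rw [h5, h6, hc _ hq] at h4
        exact h4.const_add _
      · intro t ht
        have hq := hmt t ht
        exact (h₁ _ hq).differentiableAt.hasFDerivAt.comp_hasDerivAt t (hline t)
      · have h2 : fderiv ℂ B₂ (p.1, 0) (1, 0) = 0 := by
          have hq : (p.1, (0 : ℂ)) ∈ ball (0 : ℂ × ℂ) R := hmem p.1 0 hp'.1 (by simpa using hR)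
          have h3 : HasDerivAt (fun s : ℂ => ((s, 0) : ℂ × ℂ)) (1, 0) p.1 :=
            (hasDerivAt_id p.1).prodMk (hasDerivAt_const p.1 (0 : ℂ))
          have h4 := (hB₂ _ hq).1.differentiableAt.hasFDerivAt.comp_hasDerivAt p.1 h3
          have h5 : HasDerivAt (fun _ : ℂ => (0 : ℂ)) 0 p.1 := hasDerivAt_const _ _
          have h6 : (B₂ ∘ fun s : ℂ => ((s, 0) : ℂ × ℂ)) =ᶠ[𝓝 p.1] fun _ => (0 : ℂ) := by
            have h7 : p.1 ∈ ball (0 : ℂ) R := by simpa using hp'.1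
            filter_upwards [isOpen_ball.mem_nhds h7] with s hs
            exact hB₂0 s (by simpa using hs)
          exact h4.unique (h5.congr_of_eventuallyEq h6)
        rw [h2, add_zero]
    · rw [(hfd p hp).fderiv]
      have h1 : (b₁ (p.1, 0) • ContinuousLinearMap.fst ℂ ℂ ℂ + fderiv ℂ B₂ p) (0, 1) = fderiv ℂ B₂ p (0, 1) := by
        simp
      rw [h1, (hB₂ p hp).2]

end Pool.Agent.H62.EL

end

section

/-!
# EL Tc: coefficients of forms in charts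

`tc_an`: `TForm.analytic` with `φ = χ.σ` (`χ.σ_mem`: `χ.σ y ∈ X` for `y ∈ ball 0 2`).

`tc_trans` (compare `FormTrans_lift`, `FormTrans_coef` in `H14/PP/FormTrans.lean`): near `p` we have `χ'.σ y = c y • χ.σ (τ y)`, `τ y = χ.q (χ'.σ y)`,
with `c` analytic, `c ≠ 0` (`Chart.surj`; `c` is analytic because for a linear form `ℓ` with `ℓ (χ.σ (τ p)) ≠ 0`: `c y = ℓ (χ'.σ y) / ℓ (χ.σ (τ y))`).
So `∂_e χ'.σ = c • Dχ.σ (τ p) (Dτ p e) + (∂_e c) • χ.σ (τ p)`.  With `x = χ'.σ p = c • χ.σ (τ p)`: by `add_smul` (multiples of `x`), `scale`, `det`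
(`Dτ e_1 = (τ_1)_1 e_1 + (τ_2)_1 e_2` ...), `toFun z x ∂₁ ∂₂ = jac τ p * toFun z (χ.σ (τ p)) (∂₁ χ.σ) (∂₂ χ.σ)`, where `z = υ' p = υ (τ p)`.
The vectors `Dχ.σ e` are tangent (`Chart.tan`, or directly: the curve `ξ ↦ χ.σ (q + ξ e)`).

`exists_prim`: `exists_prim_snd` with `R = 2`, `a = tc α χ (mo c ρ i j)` (`mo` is a polynomial).

`zr_iff`: `→`: if `x ∈ X`, `pr x = pr (χ.σ p)`, then `x = a • χ.σ p`; use `scale`.  `←`: `x = χ.σ p`; every tangent vector at `χ.σ p` is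
`a • ∂₁ + b • ∂₂ + c • x` (a curve `F` in `X` near `χ.σ p` is `F ξ = a ξ • χ.σ (χ.q (F ξ))`, see `Chart.curve`), so by `add_smul` and `det` the form is
`(det) * tc = 0`.
-/

set_option autoImplicit false

open Topology Filter Metric

namespace Pool.Agent.H62.EL

attribute [-instance] ProperSMul.toContinuousSMul

open Pool.Agent.H36.BP (EN fs wd IsGermChart)
open Pool.Agent.H14.PP (IsCone Chart Tan CurveAt jac)
open Pool.Agent.H62.EF (Lat MN pr TorusMap Sec Charts DU)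

variable {N : ℕ} {X : Set (EN N)} {Λ : AddSubgroup ℂ} {u : EN N → ℂ}

private theorem Tc_open (hX : IsCone X) : Pool.Agent.H14.PP.IsOpenPart X X :=
  ⟨subset_rfl, hX.smul_mem, fun _ _ => Eventually.of_forall fun _ h => h⟩

private theorem Tc_tan_smul (hX : IsCone X) {x v : EN N} (h : Tan X x v) {c : ℂ} (hc : c ≠ 0) :
    Tan X (c • x) (c • v) := by
  obtain ⟨F, hF, hF0, hFd⟩ := h
  refine ⟨fun z => c • F z, ⟨AnalyticAt.fun_smul analyticAt_const hF.1, ?_⟩, ?_, ?_⟩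
  · filter_upwards [hF.2] with z hz
    exact hX.smul_mem _ hz c hc
  · show c • F 0 = c • x
    rw [hF0]
  · have h1 : HasDerivAt (fun z => c • F z) (c • deriv F 0) 0 :=
      hF.1.differentiableAt.hasDerivAt.const_smul c
    rw [h1.deriv, hFd]

/-- The lift: `χ.σ y = c y • χ'.σ (τ y)` near `p`, with `c` differentiable at `p`. -/
private theorem Tc_lift (hX : IsCone X) (χ χ' : Chart X) {p : ℂ × ℂ}
    (hp : p ∈ ball (0 : ℂ × ℂ) 2) (hU : χ.σ p ∈ χ'.U) :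
    ∃ (c : ℂ) (c' : (ℂ × ℂ) →L[ℂ] ℂ), c ≠ 0 ∧ χ'.q (χ.σ p) ∈ ball (0 : ℂ × ℂ) 2 ∧
      χ.σ p = c • χ'.σ (χ'.q (χ.σ p)) ∧
      ∀ w : ℂ × ℂ, fderiv ℂ χ.σ p w =
        c • fderiv ℂ χ'.σ (χ'.q (χ.σ p)) (fderiv ℂ (fun y => χ'.q (χ.σ y)) p w) +
          c' w • χ'.σ (χ'.q (χ.σ p)) := by
  obtain ⟨hτ, c0, hc0, hx⟩ := χ'.surj (χ.σ p) (χ.σ_mem p hp).1 hU
  set x' : EN N := χ'.σ (χ'.q (χ.σ p)) with hx'
  have hx'0 : x' ≠ 0 := χ'.sigma_ne_zero hX hτ
  have hin : inner ℂ x' x' ≠ 0 := by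
    rw [Ne, inner_self_eq_zero]
    exact hx'0
  have hτan : AnalyticAt ℂ (fun y => χ'.q (χ.σ y)) p :=
    AnalyticAt.comp (g := χ'.q) (f := χ.σ) (χ'.q_an _ hU) (χ.σ_an p hp)
  have hσ'an : AnalyticAt ℂ (fun y => χ'.σ (χ'.q (χ.σ y))) p :=
    AnalyticAt.comp (g := χ'.σ) (f := fun y => χ'.q (χ.σ y)) (χ'.σ_an _ hτ) hτan
  have hnum : AnalyticAt ℂ (fun y => innerSL ℂ x' (χ.σ y)) p :=
    AnalyticAt.comp (g := fun v => innerSL ℂ x' v) (f := χ.σ)
      ((innerSL ℂ x').analyticAt _) (χ.σ_an p hp)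
  have hden : AnalyticAt ℂ (fun y => innerSL ℂ x' (χ'.σ (χ'.q (χ.σ y)))) p :=
    AnalyticAt.comp (g := fun v => innerSL ℂ x' v) (f := fun y => χ'.σ (χ'.q (χ.σ y)))
      ((innerSL ℂ x').analyticAt _) hσ'an
  have hden0 : innerSL ℂ x' (χ'.σ (χ'.q (χ.σ p))) ≠ 0 := by
    rw [← hx', innerSL_apply_apply]
    exact hin
  let C : ℂ × ℂ → ℂ := fun y => innerSL ℂ x' (χ.σ y) / innerSL ℂ x' (χ'.σ (χ'.q (χ.σ y)))
  have hC : AnalyticAt ℂ C p := hnum.div hden hden0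
  have hCp : C p = c0 := by
    show innerSL ℂ x' (χ.σ p) / innerSL ℂ x' (χ'.σ (χ'.q (χ.σ p))) = c0
    rw [div_eq_iff hden0]
    conv_lhs => rw [hx]
    rw [map_smul, smul_eq_mul]
  have hev : ∀ᶠ y in 𝓝 p, χ.σ y = C y • χ'.σ (χ'.q (χ.σ y)) := by
    have h1 : ∀ᶠ y in 𝓝 p, y ∈ ball (0 : ℂ × ℂ) 2 := isOpen_ball.mem_nhds hp
    have h2 : ∀ᶠ y in 𝓝 p, χ.σ y ∈ χ'.U :=
      (χ.σ_an p hp).continuousAt.eventually (χ'.isOpen_U.mem_nhds hU)
    have h3 : ∀ᶠ y in 𝓝 p, innerSL ℂ x' (χ'.σ (χ'.q (χ.σ y))) ≠ 0 :=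
      hden.continuousAt.eventually_ne hden0
    filter_upwards [h1, h2, h3] with y hy1 hy2 hy3
    obtain ⟨-, b, hb, hxb⟩ := χ'.surj (χ.σ y) (χ.σ_mem y hy1).1 hy2
    have h4 : C y = b := by
      show innerSL ℂ x' (χ.σ y) / innerSL ℂ x' (χ'.σ (χ'.q (χ.σ y))) = b
      rw [div_eq_iff hy3]
      conv_lhs => rw [hxb]
      rw [map_smul, smul_eq_mul]
    rw [h4]
    exact hxb
  refine ⟨c0, fderiv ℂ C p, hc0, hτ, hx, fun w => ?_⟩
  have hD1 : HasFDerivAt (fun y => χ'.σ (χ'.q (χ.σ y)))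
      ((fderiv ℂ χ'.σ (χ'.q (χ.σ p))).comp (fderiv ℂ (fun y => χ'.q (χ.σ y)) p)) p :=
    HasFDerivAt.comp (g := χ'.σ) (f := fun y => χ'.q (χ.σ y)) p
      (χ'.σ_an _ hτ).differentiableAt.hasFDerivAt hτan.differentiableAt.hasFDerivAt
  have hD2 : HasFDerivAt (fun y => C y • χ'.σ (χ'.q (χ.σ y)))
      (C p • ((fderiv ℂ χ'.σ (χ'.q (χ.σ p))).comp (fderiv ℂ (fun y => χ'.q (χ.σ y)) p)) +
        (fderiv ℂ C p).smulRight (χ'.σ (χ'.q (χ.σ p)))) p :=
    hC.differentiableAt.hasFDerivAt.smul hD1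
  have hD3 : HasFDerivAt χ.σ
      (C p • ((fderiv ℂ χ'.σ (χ'.q (χ.σ p))).comp (fderiv ℂ (fun y => χ'.q (χ.σ y)) p)) +
        (fderiv ℂ C p).smulRight (χ'.σ (χ'.q (χ.σ p)))) p :=
    hD2.congr_of_eventuallyEq hev
  rw [hD3.fderiv, hCp]
  rfl

private theorem Tc_pair (L : (ℂ × ℂ) →L[ℂ] EN N) (w : ℂ × ℂ) :
    L w = w.1 • L (1, 0) + w.2 • L (0, 1) := by
  rw [← map_smul, ← map_smul, ← map_add]
  congr 1
  ext
  · simp
  · simp

private theorem Tc_val (hX : IsCone X) (α : TForm X Λ u) (χ : Chart X) {p : ℂ × ℂ} {z : ℂ}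
    (hp : p ∈ ball (0 : ℂ × ℂ) 2) (hl : u (χ.σ p) - z ∈ Λ) (A B : ℂ × ℂ) :
    α.toFun z (χ.σ p) (fderiv ℂ χ.σ p A) (fderiv ℂ χ.σ p B) =
      (A.1 * B.2 - A.2 * B.1) * α.toFun z (χ.σ p) (fderiv ℂ χ.σ p (1, 0)) (fderiv ℂ χ.σ p (0, 1)) := by
  have hx := (χ.σ_mem p hp).1
  have h3 := α.det z (χ.σ p) hx hl _ _ (χ.tan (Tc_open hX) hp hx (1, 0)) (χ.tan (Tc_open hX) hp hx (0, 1))
    A.1 A.2 B.1 B.2
  rw [← Tc_pair, ← Tc_pair] at h3
  exact h3

/-- every tangent vector at `χ.σ p` is `Dσ m + b σ` -/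
private theorem Tc_tan (hX : IsCone X) (χ : Chart X) {p : ℂ × ℂ} (hp : p ∈ ball (0 : ℂ × ℂ) 2) {v : EN N}
    (hv : Tan X (χ.σ p) v) : ∃ (m : ℂ × ℂ) (b : ℂ), v = fderiv ℂ χ.σ p m + b • χ.σ p := by
  obtain ⟨F, hF, hF0, hFd⟩ := hv
  have hm := χ.σ_mem p hp
  have hU : F 0 ∈ χ.U := by rw [hF0]; exact hm.2.1
  obtain ⟨h1, -, c, hc, hc0, hev⟩ := χ.curve hX hF hU
  have hq0 : χ.q (F 0) = p := by rw [hF0]; exact hm.2.2
  have hc1 : c 0 = 1 := by
    have h2 := hev.self_of_nhds.2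
    rw [hq0, hF0] at h2
    have h3 : (c 0 - 1) • χ.σ p = 0 := by rw [sub_smul, one_smul, ← h2, sub_self]
    have h4 := (smul_eq_zero.1 h3).resolve_right (χ.sigma_ne_zero hX hp)
    exact sub_eq_zero.1 h4
  refine ⟨deriv (fun z => χ.q (F z)) 0, deriv c 0, ?_⟩
  have hσ : HasFDerivAt χ.σ (fderiv ℂ χ.σ p) (χ.q (F 0)) := by
    rw [hq0]
    exact (χ.σ_an p hp).differentiableAt.hasFDerivAt
  have hD1 : HasDerivAt (fun z => χ.σ (χ.q (F z))) (fderiv ℂ χ.σ p (deriv (fun z => χ.q (F z)) 0)) 0 :=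
    hσ.comp_hasDerivAt (0 : ℂ) h1.differentiableAt.hasDerivAt
  have hD2 : HasDerivAt (fun z => c z • χ.σ (χ.q (F z)))
      (c 0 • fderiv ℂ χ.σ p (deriv (fun z => χ.q (F z)) 0) + deriv c 0 • χ.σ (χ.q (F 0))) 0 :=
    hc.differentiableAt.hasDerivAt.smul hD1
  have hD3 : HasDerivAt F (c 0 • fderiv ℂ χ.σ p (deriv (fun z => χ.q (F z)) 0) + deriv c 0 • χ.σ (χ.q (F 0))) 0 :=
    hD2.congr_of_eventuallyEq (hev.mono fun z hz => hz.2)
  rw [← hFd, hD3.deriv, hc1, one_smul, hq0]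

theorem tc_an (α : TForm X Λ u) (χ : Chart X) {υ : ℂ × ℂ → ℂ} {p : ℂ × ℂ} (hp : p ∈ ball (0 : ℂ × ℂ) 2) (hυ : AnalyticAt ℂ υ p)
    (hl : ∀ᶠ y in 𝓝 p, u (χ.σ y) - υ y ∈ Λ) : AnalyticAt ℂ (tc α χ υ) p := by
  refine α.analytic χ.σ υ p (χ.σ_an p hp) hυ ?_
  filter_upwards [hl, isOpen_ball.mem_nhds hp] with y hy hy2
  exact ⟨(χ.σ_mem y hy2).1, hy⟩

theorem tc_trans (hX : IsCone X) (hu : TorusMap X Λ u) (α : TForm X Λ u) (χ χ' : Chart X) {υ υ' : ℂ × ℂ → ℂ} {p : ℂ × ℂ}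
    (hp : p ∈ ball (0 : ℂ × ℂ) 2) (hU : χ'.σ p ∈ χ.U) (hl : u (χ'.σ p) - υ' p ∈ Λ) (he : υ (χ.q (χ'.σ p)) = υ' p) :
    tc α χ' υ' p = tc α χ υ (χ.q (χ'.σ p)) * jac (fun y => χ.q (χ'.σ y)) p := by
  obtain ⟨c, c', hc, hτ, hx, hD⟩ := Tc_lift hX χ' χ hp hU
  have hx'X : χ.σ (χ.q (χ'.σ p)) ∈ X := (χ.σ_mem _ hτ).1
  set x' : EN N := χ.σ (χ.q (χ'.σ p)) with hx'
  set A : ℂ × ℂ := fderiv ℂ (fun y => χ.q (χ'.σ y)) p (1, 0) with hA
  set B : ℂ × ℂ := fderiv ℂ (fun y => χ.q (χ'.σ y)) p (0, 1) with hB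
  have htA : Tan X x' (fderiv ℂ χ.σ (χ.q (χ'.σ p)) A) := χ.tan (Tc_open hX) hτ hx'X A
  have htB : Tan X x' (fderiv ℂ χ.σ (χ.q (χ'.σ p)) B) := χ.tan (Tc_open hX) hτ hx'X B
  have hV : fderiv ℂ χ'.σ p (1, 0) =
      c • fderiv ℂ χ.σ (χ.q (χ'.σ p)) A + (c' (1, 0) * c⁻¹) • (c • x') := by
    rw [hD (1, 0), smul_smul, mul_assoc, inv_mul_cancel₀ hc, mul_one]
  have hW : fderiv ℂ χ'.σ p (0, 1) =
      c • fderiv ℂ χ.σ (χ.q (χ'.σ p)) B + (c' (0, 1) * c⁻¹) • (c • x') := by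
    rw [hD (0, 1), smul_smul, mul_assoc, inv_mul_cancel₀ hc, mul_one]
  have hcx : c • x' ∈ X := hX.smul_mem _ hx'X c hc
  have hl1 : u (c • x') - υ' p ∈ Λ := by rw [← hx]; exact hl
  have hl2 : u x' - υ' p ∈ Λ := by
    have h := Λ.sub_mem hl1 (hu.smul x' hx'X c hc)
    have e : u (c • x') - υ' p - (u (c • x') - u x') = u x' - υ' p := by ring
    rwa [e] at h
  have h1 := α.add_smul (υ' p) (c • x') hcx hl1 _ _ (Tc_tan_smul hX htA hc) (Tc_tan_smul hX htB hc)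
    (c' (1, 0) * c⁻¹) (c' (0, 1) * c⁻¹)
  have h2 := α.scale (υ' p) x' hx'X hl2 _ _ htA htB c hc
  have h3 := Tc_val hX α χ hτ (z := υ' p) hl2 A B
  have h4 : tc α χ' υ' p = α.toFun (υ' p) (c • x') (c • fderiv ℂ χ.σ (χ.q (χ'.σ p)) A)
      (c • fderiv ℂ χ.σ (χ.q (χ'.σ p)) B) := by
    rw [← h1, ← hV, ← hW, ← hx]
    rfl
  rw [h4, h2, h3]
  have h5 : jac (fun y => χ.q (χ'.σ y)) p = A.1 * B.2 - A.2 * B.1 := by
    show A.1 * B.2 - B.1 * A.2 = _
    ring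
  rw [h5, mul_comm]
  congr 1
  show _ = α.toFun (υ (χ.q (χ'.σ p))) _ _ _
  rw [he]

theorem mo_an (b : ℂ) (ρ : ℝ) (i j : ℕ) (p : ℂ × ℂ) : AnalyticAt ℂ (mo b ρ i j) p := by
  show AnalyticAt ℂ (fun p : ℂ × ℂ => b + ρ * (p.1 ^ i * p.2 ^ j)) p
  exact analyticAt_const.add (analyticAt_const.mul ((analyticAt_fst.pow i).mul (analyticAt_snd.pow j)))

theorem exists_prim (α : TForm X Λ u) (χ : Chart X) {b : ℂ} {ρ : ℝ} {i j : ℕ} (h : Mon Λ u χ b ρ i j) :
    ∃ A : ℂ × ℂ → ℂ, IsPrim α χ (mo b ρ i j) A := by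
  have ha : ∀ p ∈ ball (0 : ℂ × ℂ) 2, AnalyticAt ℂ (tc α χ (mo b ρ i j)) p := fun p hp =>
    tc_an α χ hp (mo_an b ρ i j p) (by
      filter_upwards [isOpen_ball.mem_nhds hp] with y hy
      exact h.lift y hy)
  obtain ⟨A, h1, h2⟩ := exists_prim_snd ha
  exact ⟨A, fun p hp => (h1 p hp).1, fun p hp => (h1 p hp).2, h2⟩

theorem zr_iff (hX : IsCone X) (hu : TorusMap X Λ u) (α : TForm X Λ u) (χ : Chart X) {υ : ℂ × ℂ → ℂ} {p : ℂ × ℂ}
    (hp : p ∈ ball (0 : ℂ × ℂ) 2) (hl : u (χ.σ p) - υ p ∈ Λ) : Zr α (υ p) (pr (χ.σ p)) ↔ tc α χ υ p = 0 := by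
  have hm := χ.σ_mem p hp
  constructor
  · rintro ⟨x, hx, hpr, hz, h0⟩
    obtain ⟨c, hc, rfl⟩ := (Pool.Agent.H62.EF.pr_eq_iff
      (Pool.Agent.H14.PP.IsCone.ne_zero hX hx) (χ.sigma_ne_zero hX hp)).1 hpr
    have ht1 := χ.tan (Tc_open hX) hp hm.1 (1, 0)
    have ht2 := χ.tan (Tc_open hX) hp hm.1 (0, 1)
    have h1 := h0 _ _ (Tc_tan_smul hX ht1 hc) (Tc_tan_smul hX ht2 hc)
    rw [α.scale (υ p) (χ.σ p) hm.1 hl _ _ ht1 ht2 c hc] at h1
    exact h1
  · intro h0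
    refine ⟨χ.σ p, hm.1, rfl, hl, ?_⟩
    intro v w hv hw
    obtain ⟨m₁, b₁, rfl⟩ := Tc_tan hX χ hp hv
    obtain ⟨m₂, b₂, rfl⟩ := Tc_tan hX χ hp hw
    rw [α.add_smul (υ p) (χ.σ p) hm.1 hl _ _ (χ.tan (Tc_open hX) hp hm.1 m₁) (χ.tan (Tc_open hX) hp hm.1 m₂),
      Tc_val hX α χ hp hl]
    have h1 : α.toFun (υ p) (χ.σ p) (fderiv ℂ χ.σ p (1, 0)) (fderiv ℂ χ.σ p (0, 1)) = 0 := h0
    rw [h1, mul_zero]

end Pool.Agent.H62.EL

end
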