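import Pool.Agent.H94.CB.H36.BP.WdA_2
import Pool.Agent.H94.CB.H62.Log.Hurwitz
import Pool.Agent.H94.CB.M18
import Pool.Agent.H94.CB.M194

/-! The parts of this file: H18.LU.Bas, H18.LU.Hz. -/

section

/-!
# LU Bas: basic facts

`nb_*`: `Nb Λ R` is the closed `R`-neighbourhood of `Λ`.  `isClosed_nb`: `Λ` is closed and discrete: if `z n → z`, `‖z n - l n‖ ≤ R` then the `l n` are bounded; a bounded sequence in `Λ` has a
constant subsequence (`Dsc`; or use compactness of `closedBall` and `Metric.isClosed_of_pairwise_le_dist` for `Λ`, see `isClosed_lat` in `H62/EL/Cst.lean`, and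
`IsClosed.add_left_of_isCompact` for `closedBall 0 R + Λ`).
`exists_rep`: `z` is at distance `≤ R` from `l ∈ Λ`, `l` at distance `≤ R₀` from `l' ∈ Γ` (`cof`).
`part_isCone`: `u (c • x) - u x ∈ Λ` (`TorusMap.smul`), so `part` is a cone.
`part_tor`: restrict (`loc` only speaks about points of `X`).
`part_unif`: `TorusMap.unif` (EF TorA) for the cone `part X Λ u R`.
`secAt_add`: compose with the translation (`F (· + l)`; `u - (w + l) ∈ Λ ↔ u - w ∈ Λ`).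
`SecAt.mem`: `self_of_nhds`.
`SecAt.eventually`: an analytic function is analytic near the point (`AnalyticAt.eventually_analyticAt`), and `eventually_eventually_nhds`.
-/

set_option autoImplicit false

open Topology Filter Metric

namespace Pool.Agent.H18.LU

attribute [-instance] ProperSMul.toContinuousSMul

open Pool.Agent.H36.BP (EN fs wd IsGermChart)
open Pool.Agent.H14.PP (IsCone Chart Tan CurveAt)
open Pool.Agent.H62.EF (Lat MN pr TorusMap Sec Charts DU)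
open Pool.Agent.H62.EL (Gd Ag BadSet IsNC TForm)

variable {N : ℕ} {X D P : Set (EN N)} {Λ Γ : AddSubgroup ℂ} {u : EN N → ℂ} {B : Set ℂ} {δ : ℝ}

theorem nb_mono {R R' : ℝ} (h : R ≤ R') : Nb Λ R ⊆ Nb Λ R' := by
  rintro z ⟨l, hl, h1⟩
  exact ⟨l, hl, h1.trans h⟩

theorem nb_add {R : ℝ} {z l : ℂ} (hl : l ∈ Λ) : z + l ∈ Nb Λ R ↔ z ∈ Nb Λ R := by
  constructor
  · rintro ⟨l', hl', h⟩
    refine ⟨l' - l, Λ.sub_mem hl' hl, ?_⟩
    have e : z - (l' - l) = z + l - l' := by ring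
    rw [e]
    exact h
  · rintro ⟨l', hl', h⟩
    refine ⟨l' + l, Λ.add_mem hl' hl, ?_⟩
    have e : z + l - (l' + l) = z - l' := by ring
    rw [e]
    exact h

theorem nb_near {R r : ℝ} {z w : ℂ} (hz : z ∈ Nb Λ R) (hw : ‖w - z‖ ≤ r) : w ∈ Nb Λ (R + r) := by
  obtain ⟨l, hl, h⟩ := hz
  refine ⟨l, hl, ?_⟩
  have e : w - l = (w - z) + (z - l) := by ring
  rw [e]
  exact (norm_add_le _ _).trans (by linarith)

theorem mem_nb_norm (z : ℂ) : z ∈ Nb Λ ‖z‖ := ⟨0, Λ.zero_mem, by rw [sub_zero]⟩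

open Pointwise in
theorem isClosed_nb (hΛ : Dsc Λ) (R : ℝ) : IsClosed (Nb Λ R) := by
  obtain ⟨δ, hδ, hd⟩ := hΛ.discrete
  have h1 : IsClosed (Λ : Set ℂ) := by
    refine Metric.isClosed_of_pairwise_le_dist hδ ?_
    intro x hx y hy hxy
    by_contra hlt
    push Not at hlt
    rw [dist_eq_norm] at hlt
    exact hxy (sub_eq_zero.mp (hd _ (Λ.sub_mem hx hy) hlt))
  have h2 : Nb Λ R = (Λ : Set ℂ) + closedBall (0 : ℂ) R := by
    ext z
    rw [Set.mem_add]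
    constructor
    · rintro ⟨l, hl, h⟩
      exact ⟨l, hl, z - l, by rw [mem_closedBall_zero_iff]; exact h, by ring⟩
    · rintro ⟨l, hl, w, hw, rfl⟩
      refine ⟨l, hl, ?_⟩
      rw [mem_closedBall_zero_iff] at hw
      rw [add_sub_cancel_left]
      exact hw
  rw [h2]
  exact h1.add_right_of_isCompact (isCompact_closedBall 0 R)

theorem LFib.exists_rep (E : LFib X D Λ Γ u B δ) (R : ℝ) : ∃ R₁ : ℝ, 0 < R₁ ∧ ∀ z ∈ Nb Λ R, ∃ l ∈ Γ, ‖z - l‖ ≤ R₁ := by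
  obtain ⟨R₀, hR₀, hcof⟩ := E.cof
  refine ⟨|R| + R₀, by positivity, ?_⟩
  rintro z ⟨l, hl, h⟩
  obtain ⟨l', hl', h'⟩ := hcof l hl
  refine ⟨l', hl', ?_⟩
  have e : z - l' = (z - l) + (l - l') := by ring
  rw [e]
  have := le_abs_self R
  exact (norm_add_le _ _).trans (by linarith)

theorem LFib.part_isCone (E : LFib X D Λ Γ u B δ) (R : ℝ) : IsCone (part X Λ u R) := by
  refine ⟨fun h => E.cone.zero_notMem h.1, ?_, E.closed R⟩
  intro x hx c hc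
  refine ⟨E.cone.smul_mem x hx.1 c hc, ?_⟩
  have h1 := E.tor.smul x hx.1 c hc
  have e : u (c • x) = u x + (u (c • x) - u x) := by ring
  rw [e, nb_add h1]
  exact hx.2

theorem part_tor (hu : TorusMap X Λ u) (R : ℝ) : TorusMap (part X Λ u R) Λ u := by
  refine ⟨fun x hx c hc => hu.smul x hx.1 c hc, fun x hx => ?_⟩
  obtain ⟨v, hv, h⟩ := hu.loc x hx.1
  exact ⟨v, hv, h.mono fun y hy hyp => hy hyp.1⟩

theorem LFib.part_unif (E : LFib X D Λ Γ u B δ) (R : ℝ) {ε : ℝ} (hε : 0 < ε) :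
    ∃ η : ℝ, 0 < η ∧ ∀ x ∈ part X Λ u R, ∀ y ∈ part X Λ u R, dist (pr x) (pr y) < η → ∃ l ∈ Λ, ‖u x - u y - l‖ < ε :=
  Pool.Agent.H62.EF.TorusMap.unif (E.part_isCone R) (part_tor E.tor R) hε

/-- points of `X` near a point of `X` which is not in the closed part `T` are not in `T`, in terms of `pr` -/
theorem pr_closed (hX : OCone X) {T : Set (EN N)} (hT : ∀ x ∈ T, ∀ c : ℂ, c ≠ 0 → c • x ∈ T) (hTX : T ⊆ X) {x : EN N} (hx : x ∈ X)
    (h : ∀ᶠ y in 𝓝 x, y ∉ T) : ∃ r : ℝ, 0 < r ∧ ∀ y ∈ T, r ≤ dist (pr y) (pr x) := by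
  obtain ⟨r, hr, h1⟩ := Pool.Agent.H62.EF.near_of_pr (hX.ne_zero hx) h
  refine ⟨r, hr, fun y hy => ?_⟩
  by_contra hcon
  push Not at hcon
  obtain ⟨c, hc, h2⟩ := h1 y (hX.ne_zero (hTX hy)) hcon
  exact h2 (hT y hy c hc)

theorem part_mem_of_val {R : ℝ} {x : EN N} {z : ℂ} (hx : x ∈ X) (hz : z ∈ Nb Λ R) (h : u x - z ∈ Λ) : x ∈ part X Λ u R := by
  refine ⟨hx, ?_⟩
  have e : u x = z + (u x - z) := by ring
  rw [e, nb_add h]
  exact hz

private theorem secAt_add' {F : ℂ → EN N} {z l : ℂ} (hl : l ∈ Λ) (h : SecAt X D Λ u F (z + l)) :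
    SecAt X D Λ u (fun w => F (w + l)) z := by
  have ha : AnalyticAt ℂ (fun w : ℂ => w + l) z := analyticAt_id.add analyticAt_const
  refine ⟨AnalyticAt.comp (g := F) (f := fun w : ℂ => w + l) h.1 ha, ?_⟩
  have ht : Tendsto (fun w : ℂ => w + l) (𝓝 z) (𝓝 (z + l)) := ha.continuousAt
  filter_upwards [ht.eventually h.2] with w hw
  obtain ⟨h1, h2, h3⟩ := hw
  refine ⟨h1, h2, ?_⟩
  have e : u (F (w + l)) - w = (u (F (w + l)) - (w + l)) + l := by ring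
  rw [e]
  exact Λ.add_mem h3 hl

theorem secAt_add {F : ℂ → EN N} {z l : ℂ} (hl : l ∈ Λ) : SecAt X D Λ u (fun w => F (w + l)) z ↔ SecAt X D Λ u F (z + l) := by
  refine ⟨fun h => ?_, secAt_add' hl⟩
  have h1 : SecAt X D Λ u (fun w => F (w + l)) ((z + l) + -l) := by
    rwa [add_neg_cancel_right]
  have h2 := secAt_add' (Λ.neg_mem hl) h1
  simpa only [neg_add_cancel_right] using h2

theorem SecAt.mem {F : ℂ → EN N} {z : ℂ} (h : SecAt X D Λ u F z) : F z ∈ X ∧ F z ∉ D ∧ u (F z) - z ∈ Λ :=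
  h.2.self_of_nhds

end Pool.Agent.H18.LU

end

section

/-!
# LU Hz: Hurwitz' theorem for the boundary

`hor_hurwitz`: let `σ`, `τ` be from `HorAt` at `x = Ψ z₀`.  Near `x` every `y ∈ X` is `c • σ (τ y)`, `c ≠ 0`, `τ y` near `0` (`τ` is continuous at `x = σ 0`, `τ (σ 0) = 0` by `left`), so
`y ∈ D ↔ σ (τ y) ∈ D ↔ (τ y).2 = 0`.  On a small ball about `z₀` the functions `(τ (φ n z)).2` are holomorphic without zeros for `𝒰`-almost all `n` (locally uniform convergence: `φ n z` is near `x`),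
and `(τ (φ n (z n))).2 → (τ (Ψ z')).2` if `z n → z'` (continuity of `τ` near `x`); by `Pool.Agent.H62.Log.hurwitz` the limit has no zeros or is `0`; it is `0` at `z₀` (`Ψ z₀ ∈ D`).  So `Ψ z ∈ D` near `z₀`.
`hor_fibre`: near `z₀`, `Ψ z = c z • σ (s z, 0)` with `s z = (τ (Ψ z)).1` analytic, `u (Ψ z) - (b + (s z) ^ i) ∈ Λ` (`TorusMap.smul`), and `u (Ψ z) - c₀ ∈ Λ`, so `(s z) ^ i` is constant near `z₀` (continuous modulo
the discrete group `Λ`: `Dsc`), so `s` is constant near `z₀` (finite set of values, continuous; `1 ≤ i`).  So all points `Ψ z` near `z₀` are proportional to the one vector `v₀ = σ (s z₀, 0)`; then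
`deriv Ψ z₀` is proportional to `Ψ z₀` (`Pool.Agent.H36.BP.Brody_deriv_line`, or: `Ψ z = ⟨v₀, Ψ z⟩ / ‖v₀‖² • v₀` near `z₀`) and `fs (Ψ z₀) (deriv Ψ z₀) = 0` (`wd_eq_zero`).
`limit_dich`: `A = {ζ | H ζ ∈ D}`.  It is closed (`D_closed`).  It is open: at `ζ₀ ∈ A` let `w = H ζ₀`; its value is not in `B + Λ`, so `hor` applies and `hor_hurwitz` (near `ζ₀` the curves `φ n`, multiples of
`G n`, converge to `ψ`, a multiple of `H`; the conditions are invariant under scaling).  `ℂ` is connected.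
-/

set_option autoImplicit false

open Topology Filter Metric

namespace Pool.Agent.H18.LU

attribute [-instance] ProperSMul.toContinuousSMul

open Pool.Agent.H36.BP (EN fs wd IsGermChart)
open Pool.Agent.H14.PP (IsCone Chart Tan CurveAt)
open Pool.Agent.H62.EF (Lat MN pr TorusMap Sec Charts DU)
open Pool.Agent.H62.EL (Gd Ag BadSet IsNC TForm)

variable {N : ℕ} {X D P : Set (EN N)} {Λ Γ : AddSubgroup ℂ} {u : EN N → ℂ} {B : Set ℂ} {δ : ℝ}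

/-- near `x ∈ D` the boundary is `{τ.2 = 0}` -/
private lemma hz_near (hD : ∀ x ∈ D, ∀ c : ℂ, c ≠ 0 → c • x ∈ D) {x : EN N} {σ : ℂ × ℂ → EN N} {τ : EN N → ℂ × ℂ}
    (hg : IsGermChart X σ τ) (hσ : σ 0 = x) (hDσ : ∀ᶠ p in 𝓝 (0 : ℂ × ℂ), σ p ∈ D ↔ p.2 = 0) :
    ∃ ε : ℝ, 0 < ε ∧ ∀ y, dist y x < ε → AnalyticAt ℂ τ y ∧ (y ∈ X → (y ∈ D ↔ (τ y).2 = 0)) := by
  subst hσ
  have hτ0 : τ (σ 0) = 0 := hg.left.self_of_nhds
  have hτc : ContinuousAt τ (σ 0) := hg.τ_an.continuousAt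
  have hτt : Tendsto τ (𝓝 (σ 0)) (𝓝 0) := by
    have h1 := hτc.tendsto
    rwa [hτ0] at h1
  have h1 : ∀ᶠ y in 𝓝 (σ 0), AnalyticAt ℂ τ y := hg.τ_an.eventually_analyticAt
  have h2 : ∀ᶠ y in 𝓝 (σ 0), σ (τ y) ∈ D ↔ (τ y).2 = 0 := hτt.eventually hDσ
  obtain ⟨ε, hε, h3⟩ := Metric.eventually_nhds_iff.1 (h1.and (h2.and hg.right))
  refine ⟨ε, hε, fun y hy => ?_⟩
  obtain ⟨h4, h5, h6⟩ := h3 hy
  refine ⟨h4, fun hyX => ?_⟩
  obtain ⟨c, hc, h7⟩ := h6 hyX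
  rw [← h5]
  have h9 : σ (τ y) = c⁻¹ • y := by
    conv_rhs => rw [h7]
    rw [smul_smul, inv_mul_cancel₀ hc, one_smul]
  constructor
  · intro h8
    rw [h9]
    exact hD _ h8 _ (inv_ne_zero hc)
  · intro h8
    rw [h7]
    exact hD _ h8 _ hc

/-- the derivative of a curve in a line -/
private lemma hz_deriv_line {H : ℂ → EN N} {z₀ : ℂ} (hH : DifferentiableAt ℂ H z₀) (h : ∀ᶠ z in 𝓝 z₀, ∃ c : ℂ, H z = c • H z₀) :
    ∃ a : ℂ, deriv H z₀ = a • H z₀ := by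
  have hcl : IsClosed ((ℂ ∙ H z₀ : Submodule ℂ (EN N)) : Set (EN N)) := Submodule.closed_of_finiteDimensional _
  have hmem : deriv H z₀ ∈ (ℂ ∙ H z₀ : Submodule ℂ (EN N)) := by
    have ht := (hasDerivAt_iff_tendsto_slope.mp hH.hasDerivAt)
    refine hcl.mem_of_tendsto ht ?_
    filter_upwards [nhdsWithin_le_nhds h] with z hz
    obtain ⟨c, hc⟩ := hz
    rw [slope_def_module]
    refine Submodule.smul_mem _ _ (Submodule.sub_mem _ ?_ (Submodule.mem_span_singleton_self _))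
    rw [hc]
    exact Submodule.smul_mem _ _ (Submodule.mem_span_singleton_self _)
  obtain ⟨a, ha⟩ := Submodule.mem_span_singleton.1 hmem
  exact ⟨a, ha.symm⟩

theorem hor_hurwitz (hX : OCone X) (hD : ∀ x ∈ D, ∀ c : ℂ, c ≠ 0 → c • x ∈ D) (𝒰 : Ultrafilter ℕ) (φ : ℕ → ℂ → EN N) {Ψ : ℂ → EN N} {z₀ : ℂ}
    {r : ℝ} (hr : 0 < r) {b : ℂ} {i : ℕ} (h : HorAt X Λ u D (Ψ z₀) b i)
    (hφ : ∀ᶠ n in (𝒰 : Filter ℕ), DifferentiableOn ℂ (φ n) (ball z₀ r) ∧ ∀ z ∈ ball z₀ r, φ n z ∈ X ∧ φ n z ∉ D)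
    (hΨ : DifferentiableOn ℂ Ψ (ball z₀ r)) (hΨX : ∀ z ∈ ball z₀ r, Ψ z ∈ X) (hlim : TendstoLocallyUniformlyOn φ Ψ 𝒰 (ball z₀ r))
    (h0 : Ψ z₀ ∈ D) : ∀ᶠ z in 𝓝 z₀, Ψ z ∈ D := by
  obtain ⟨σ, τ, hg, hσ, -, hDσ⟩ := h
  obtain ⟨ε, hε, hV⟩ := hz_near hD hg hσ hDσ
  have hz₀ : z₀ ∈ ball z₀ r := mem_ball_self hr
  -- locally uniform closeness
  obtain ⟨t, ht, hu⟩ := (Metric.tendstoLocallyUniformlyOn_iff.1 hlim) (ε / 2) (by positivity) z₀ hz₀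
  have ht' : t ∈ 𝓝 z₀ := by
    rwa [isOpen_ball.nhdsWithin_eq hz₀] at ht
  have hΨc : ContinuousAt Ψ z₀ := (hΨ.differentiableAt (isOpen_ball.mem_nhds hz₀)).continuousAt
  have hcl : ∀ᶠ z in 𝓝 z₀, dist (Ψ z) (Ψ z₀) < ε / 2 := Metric.tendsto_nhds.1 hΨc.tendsto _ (by positivity)
  obtain ⟨r', hr', hball⟩ := Metric.eventually_nhds_iff_ball.1
    ((isOpen_ball.eventually_mem hz₀).and ((eventually_mem_set.2 ht').and hcl))
  have hsub : ball z₀ r' ⊆ ball z₀ r := fun z hz => (hball z hz).1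
  have hVΨ : ∀ z ∈ ball z₀ r', dist (Ψ z) (Ψ z₀) < ε := fun z hz => lt_trans (hball z hz).2.2 (by linarith)
  have hev : ∀ᶠ n in (𝒰 : Filter ℕ), DifferentiableOn ℂ (fun z => (τ (φ n z)).2) (ball z₀ r') ∧
      ∀ z ∈ ball z₀ r', (τ (φ n z)).2 ≠ 0 := by
    filter_upwards [hφ, hu] with n h1 h2
    have h3 : ∀ z ∈ ball z₀ r', dist (φ n z) (Ψ z₀) < ε := by
      intro z hz
      have h4 := h2 z (hball z hz).2.1
      have h5 := (hball z hz).2.2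
      calc dist (φ n z) (Ψ z₀) ≤ dist (φ n z) (Ψ z) + dist (Ψ z) (Ψ z₀) := dist_triangle _ _ _
        _ < ε := by rw [dist_comm (φ n z)]; linarith
    constructor
    · intro z hz
      have h4 : DifferentiableAt ℂ (φ n) z := h1.1.differentiableAt (isOpen_ball.mem_nhds (hsub hz))
      have h5 : DifferentiableAt ℂ τ (φ n z) := (hV _ (h3 z hz)).1.differentiableAt
      have h6 : DifferentiableAt ℂ (fun z => τ (φ n z)) z := h5.comp z h4
      exact h6.snd.differentiableWithinAt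
    · intro z hz h4
      have h5 := h1.2 z (hsub hz)
      exact h5.2 (((hV _ (h3 z hz)).2 h5.1).2 h4)
  have hdΨ : DifferentiableOn ℂ (fun z => (τ (Ψ z)).2) (ball z₀ r') := by
    intro z hz
    have h4 : DifferentiableAt ℂ Ψ z := hΨ.differentiableAt (isOpen_ball.mem_nhds (hsub hz))
    have h5 : DifferentiableAt ℂ τ (Ψ z) := (hV _ (hVΨ z hz)).1.differentiableAt
    have h6 : DifferentiableAt ℂ (fun z => τ (Ψ z)) z := h5.comp z h4
    exact h6.snd.differentiableWithinAt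
  have hH := Pool.Agent.H62.Log.hurwitz 𝒰 (φ := fun n z => (τ (φ n z)).2) (ψ := fun z => (τ (Ψ z)).2) (a := z₀) (r := r')
    (hev.mono fun n h => h.1) (hev.mono fun n h => h.2) hdΨ (by
      intro z z' hz' hz
      have h1 : ContinuousWithinAt Ψ (ball z₀ r) z' := (hΨ.continuousOn) z' (hsub hz')
      have h2 : Tendsto z (𝒰 : Filter ℕ) (𝓝[ball z₀ r] z') := by
        rw [isOpen_ball.nhdsWithin_eq (hsub hz')]
        exact hz
      have h3 := hlim.tendsto_comp h1 (hsub hz') h2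
      have h4 : ContinuousAt (fun y => (τ y).2) (Ψ z') := (hV _ (hVΨ z' hz')).1.continuousAt.snd
      exact h4.tendsto.comp h3)
  rcases hH with h1 | h1
  · filter_upwards [ball_mem_nhds z₀ hr'] with z hz
    exact ((hV _ (hVΨ z hz)).2 (hΨX z (hsub hz))).2 (h1 z hz)
  · exfalso
    exact h1 z₀ (mem_ball_self hr') (((hV _ (hVΨ z₀ (mem_ball_self hr'))).2 (hΨX z₀ hz₀)).1 h0)

theorem hor_fibre (hX : OCone X) (hD : ∀ x ∈ D, ∀ c : ℂ, c ≠ 0 → c • x ∈ D) (hu : TorusMap X Λ u) (hΛ : Dsc Λ) {Ψ : ℂ → EN N} {z₀ : ℂ} {b c₀ : ℂ}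
    {i : ℕ} (hi : 1 ≤ i) (h : HorAt X Λ u D (Ψ z₀) b i) (hΨ : AnalyticAt ℂ Ψ z₀) (hΨX : ∀ᶠ z in 𝓝 z₀, Ψ z ∈ X ∧ Ψ z ∈ D)
    (hc : ∀ᶠ z in 𝓝 z₀, u (Ψ z) - c₀ ∈ Λ) : fs (Ψ z₀) (deriv Ψ z₀) = 0 := by
  obtain ⟨σ, τ, hg, hσ, huσ, hDσ⟩ := h
  obtain ⟨ε, hε, hV⟩ := hz_near hD hg hσ hDσ
  have hτ0 : τ (Ψ z₀) = 0 := by
    rw [← hσ]
    exact hg.left.self_of_nhds
  have hΨ0 : Ψ z₀ ∈ X := (hΨX.self_of_nhds).1
  have hτan : AnalyticAt ℂ τ (Ψ z₀) := hσ ▸ hg.τ_an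
  have hs : AnalyticAt ℂ (fun z => τ (Ψ z)) z₀ := hτan.comp hΨ
  have hst : Tendsto (fun z => τ (Ψ z)) (𝓝 z₀) (𝓝 0) := by
    have h1 := hs.continuousAt.tendsto
    simpa [hτ0] using h1
  have hΨt : Tendsto Ψ (𝓝 z₀) (𝓝 (σ 0)) := by
    rw [hσ]
    exact hΨ.continuousAt.tendsto
  have hmain : ∀ᶠ z in 𝓝 z₀, (τ (Ψ z)).2 = 0 ∧ (∃ c : ℂ, c ≠ 0 ∧ Ψ z = c • σ (τ (Ψ z))) ∧ b + (τ (Ψ z)).1 ^ i - c₀ ∈ Λ ∧
      ContinuousAt (fun z => τ (Ψ z)) z := by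
    filter_upwards [hΨX, hc, hst.eventually huσ, hst.eventually hg.σ_mem, hΨt.eventually hg.right,
      Metric.tendsto_nhds.1 hΨ.continuousAt.tendsto ε hε, hs.eventually_analyticAt] with z h1 h2 h3 h4 h5 h6 h7
    refine ⟨((hV _ h6).2 h1.1).1 h1.2, h5 h1.1, ?_, h7.continuousAt⟩
    obtain ⟨c, hc0, hcz⟩ := h5 h1.1
    have h8 := hu.smul _ h4 c hc0
    rw [← hcz] at h8
    have h9 : b + (τ (Ψ z)).1 ^ i - c₀ = (u (Ψ z) - c₀) - (u (Ψ z) - u (σ (τ (Ψ z)))) - (u (σ (τ (Ψ z))) - (b + (τ (Ψ z)).1 ^ i)) := by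
      ring
    rw [h9]
    exact Λ.sub_mem (Λ.sub_mem h2 h8) h3
  obtain ⟨r, hr, hb⟩ := Metric.eventually_nhds_iff_ball.1 hmain
  have hcont : ContinuousOn (fun z => b + (τ (Ψ z)).1 ^ i - c₀) (ball z₀ r) := by
    intro z hz
    have h1 : ContinuousAt (fun z => (τ (Ψ z)).1) z := (hb z hz).2.2.2.fst
    exact ((continuousAt_const.add (h1.pow i)).sub continuousAt_const).continuousWithinAt
  have hconst := hΛ.const (convex_ball z₀ r).isPreconnected hcont (fun z hz => (hb z hz).2.2.1)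
  have hzero : ∀ z ∈ ball z₀ r, τ (Ψ z) = 0 := by
    intro z hz
    have h1 := hconst z hz z₀ (mem_ball_self hr)
    simp only [hτ0] at h1
    have h2 : (τ (Ψ z)).1 ^ i = 0 := by
      have h3 : ((0 : ℂ × ℂ).1) ^ i = 0 := by
        simp only [Prod.fst_zero]
        exact zero_pow (by omega)
      rw [h3] at h1
      linear_combination h1
    have h3 : (τ (Ψ z)).1 = 0 := by
      exact pow_eq_zero_iff (by omega) |>.1 h2
    exact Prod.ext h3 (hb z hz).1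
  have hline : ∀ᶠ z in 𝓝 z₀, ∃ c : ℂ, Ψ z = c • Ψ z₀ := by
    filter_upwards [ball_mem_nhds z₀ hr] with z hz
    obtain ⟨c, -, hcz⟩ := (hb z hz).2.1
    refine ⟨c, ?_⟩
    rw [hzero z hz, hσ] at hcz
    exact hcz
  obtain ⟨a, ha⟩ := hz_deriv_line hΨ.differentiableAt hline
  have hne : Ψ z₀ ≠ 0 := hX.ne_zero hΨ0
  unfold fs
  rw [(Pool.Agent.H36.BP.wd_eq_zero hne).2 ⟨a, ha⟩, zero_div]

/-- a limit of curves which avoid `D`, in a fibre which is not bad, is in `D` or avoids `D` -/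
theorem limit_dich (E : LFib X D Λ Γ u B δ) (𝒰 : Ultrafilter ℕ) (G : ℕ → ℂ → EN N) (ρ : ℕ → ℝ) (hρ : Tendsto ρ 𝒰 atTop)
    (hG : ∀ᶠ n in (𝒰 : Filter ℕ), DifferentiableOn ℂ (G n) (ball 0 (ρ n)) ∧ ∀ z ∈ ball (0 : ℂ) (ρ n), G n z ∈ X ∧ G n z ∉ D)
    {H : ℂ → EN N} (hH : Differentiable ℂ H) (hHX : ∀ z, H z ∈ X) (hB : ∀ z, ∀ b ∈ B, u (H z) - b ∉ Λ)
    (hloc : ∀ z₀, ∃ (r : ℝ) (φ : ℕ → ℂ → EN N) (ψ : ℂ → EN N), 0 < r ∧
        (∀ᶠ n in (𝒰 : Filter ℕ), DifferentiableOn ℂ (φ n) (ball z₀ r) ∧ ∀ z ∈ ball z₀ r, ∃ c : ℂ, c ≠ 0 ∧ φ n z = c • G n z) ∧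
        DifferentiableOn ℂ ψ (ball z₀ r) ∧ (∀ z ∈ ball z₀ r, ∃ c : ℂ, c ≠ 0 ∧ ψ z = c • H z) ∧
        TendstoLocallyUniformlyOn φ ψ 𝒰 (ball z₀ r)) : (∀ z, H z ∈ D) ∨ ∀ z, H z ∉ D := by
  have hopen : IsOpen {z | H z ∈ D} := by
    rw [isOpen_iff_mem_nhds]
    intro ζ hζ
    obtain ⟨r, φ, ψ, hr, hφ, hψ, hψH, hlim⟩ := hloc ζ
    have hζr : ζ ∈ ball ζ r := mem_ball_self hr
    have hψX : ∀ z ∈ ball ζ r, ψ z ∈ X := by
      intro z hz
      obtain ⟨c, hc, hcz⟩ := hψH z hz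
      rw [hcz]
      exact E.cone.smul_mem _ (hHX z) c hc
    obtain ⟨c₀, hc₀, hψζ⟩ := hψH ζ hζr
    have hψD : ψ ζ ∈ D := by
      rw [hψζ]
      exact E.D_smul _ hζ c₀ hc₀
    have hval : ∀ b ∈ B, u (ψ ζ) - b ∉ Λ := by
      intro b hb h1
      apply hB ζ b hb
      have h2 := E.tor.smul _ (hHX ζ) c₀ hc₀
      rw [← hψζ] at h2
      have h3 : u (H ζ) - b = (u (ψ ζ) - b) - (u (ψ ζ) - u (H ζ)) := by ring
      rw [h3]
      exact Λ.sub_mem h1 h2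
    have h := E.hor _ hψD hval
    have hφ' : ∀ᶠ n in (𝒰 : Filter ℕ), DifferentiableOn ℂ (φ n) (ball ζ r) ∧ ∀ z ∈ ball ζ r, φ n z ∈ X ∧ φ n z ∉ D := by
      filter_upwards [hφ, hG, hρ.eventually_ge_atTop (‖ζ‖ + r)] with n h1 h2 h3
      refine ⟨h1.1, fun z hz => ?_⟩
      have hz' : z ∈ ball (0 : ℂ) (ρ n) := by
        refine ball_subset_ball' ?_ hz
        rw [dist_zero_right]
        linarith
      obtain ⟨c, hc, hcz⟩ := h1.2 z hz
      have h4 := h2.2 z hz'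
      refine ⟨?_, ?_⟩
      · rw [hcz]
        exact E.cone.smul_mem _ h4.1 c hc
      · intro h5
        apply h4.2
        have h6 : G n z = c⁻¹ • φ n z := by
          rw [hcz, smul_smul, inv_mul_cancel₀ hc, one_smul]
        rw [h6]
        exact E.D_smul _ h5 _ (inv_ne_zero hc)
    have hres := hor_hurwitz E.cone E.D_smul 𝒰 φ hr h hφ' hψ hψX hlim hψD
    filter_upwards [hres, ball_mem_nhds ζ hr] with z h1 h2
    obtain ⟨c, hc, hcz⟩ := hψH z h2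
    have h6 : H z = c⁻¹ • ψ z := by
      rw [hcz, smul_smul, inv_mul_cancel₀ hc, one_smul]
    show H z ∈ D
    rw [h6]
    exact E.D_smul _ h1 _ (inv_ne_zero hc)
  have hclosed : IsClosed {z | H z ∈ D} := by
    rw [← isOpen_compl_iff, isOpen_iff_mem_nhds]
    intro ζ hζ
    exact (hH ζ).continuousAt.tendsto.eventually (E.D_closed _ (hHX ζ) hζ)
  rcases isClopen_iff.1 ⟨hclosed, hopen⟩ with h1 | h1
  · right
    intro z hz
    have : z ∈ {z | H z ∈ D} := hz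
    rw [h1] at this
    exact this
  · left
    intro z
    have : z ∈ {z | H z ∈ D} := by
      rw [h1]
      exact Set.mem_univ z
    exact this

end Pool.Agent.H18.LU

end
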