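import Pool.Agent.H94.CB.M14
import Pool.Agent.H94.CB.M15
import Pool.Agent.H94.CB.M157
import Pool.Agent.H94.CB.M195
import Pool.Agent.H94.CB.M196

/-! The parts of this file: H18.LU.Pe, H18.LU.CpL. -/

section

/-!
# LU Pe: the limits over `ℂ` are not in `P`

`pe_near`: `P` near a bad fibre.  Let `b ∈ B`, `e` with local lifts in `P` outside `B`.  Let `z n → b`, `z n ∉ B`, along an ultrafilter; `e (z n)` has the limit `y` (compactness: `so_mem`-like: the values are in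
`pr '' part X Λ u R`, compact), `y = pr x`, `x ∈ X`, `u x - b ∈ Λ` (`part_unif`), `x ∈ P` (`P_closed`, `pr_closed`).  `HorAt X Λ u P x b i` (`horP`), `σ`, `τ`.  There are small `r₀, ρ₀ > 0` such that: `σ` is analytic on
`ball 0 (2 r₀)`, `σ p ∈ P ↔ p.2 = 0`, `u (σ p) - (b + p.1 ^ i) ∈ Λ`, `τ (σ p) = p` there; the set `U₀ = {a • σ p : a ≠ 0, ‖p‖ < r₀}` contains all `y ∈ X` with `dist (pr y) (pr x) < η₀`
(`IsGermChart.right`, `near_of_pr`), `Λ` has no nonzero element of norm `< 3 r₀`, `ρ₀ < (r₀ / 2) ^ i`, `ball b ρ₀ ∩ B = {b}`.  Let `A = {z | 0 < ‖z - b‖ < ρ₀, e z = pr (σ (s, 0)) for some ‖s‖ < r₀}`; there `s ^ i = z - b` (both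
are small and congruent modulo `Λ`), so `‖s‖ < r₀/2`.  `A` is nonempty (`z n`).  `A` is closed in the punctured disc: `z k → z'`, `s k` bounded by `r₀/2`, a limit point `s'`, `e z' = pr (σ (s', 0))` by continuity.  `A` is open:
at `z' ∈ A` the lift `Ψ z ∈ P` of `e` near `z'` is near a multiple of `σ (s', 0)`, so it is `a • σ p`, `p = τ (..)` near `(s', 0)`, `p.2 = 0` (it is in `P`).  The punctured disc is connected, so `A` is the punctured disc.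
`s z = (τ (..)).1` is holomorphic there (locally `τ` of the normalised lift; `s` is unique because `τ (σ p) = p`, `pr` determines the point up to a factor and `τ (c • σ p) = p` for these `c`: use the scale invariant charts of
`exists_small_chartO`: `χ.q`), bounded, `s ^ i = z - b`; it extends to `b` with `s b = 0`, and `i = 1` (order of the zero).  So `s z = z - b` and `e z = pr (σ (z - b, 0))` for `0 < ‖z - b‖ < ρ₀`.
(It is convenient to use the chart `χ` of `exists_small_chartO` at `x` instead of `σ, τ`: `χ.σ p = a • σ (r p)`.)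

`pe_entire`: local lifts in `P` at all points of `ℂ` (at `b ∈ B`: `z ↦ σ (z - b, 0)`, which also satisfies `u (..) - z ∈ Λ`); define `e' b = pr (σ (0, 0))` at the points of `B`; the global lift as in part (b) of the proof of
`limit_curves` (EF LimL: `HolomorphicInto`, `exists_global_lift`): an entire `F` without zeros with `pr (F z) = e' z`; `F z ∈ P` (`P_smul`, `pr_eq_iff`), `u (F z) - z ∈ Λ` (`TorusMap.smul`): contradiction to `noP`.

`so_notP`: `f ∈ SO univ`.  The set `{z ∉ B | f z ∈ pr '' P}` is open and closed in `Bᶜ` (`so_lift`, the last dichotomy; if `f z₁ = pr x`, `x ∈ P`, then the lift `Ψ z₁` is a multiple of `x`, in `P`), `Bᶜ` is connected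
(`B` countable).  If it is not empty then `f` has local lifts in `P` at all points of `Bᶜ`: `pe_entire`.
-/

set_option autoImplicit false

open Topology Filter Metric

namespace Pool.Agent.H18.LU

attribute [-instance] ProperSMul.toContinuousSMul

open Pool.Agent.H36.BP (EN fs wd IsGermChart)
open Pool.Agent.H14.PP (IsCone Chart Tan CurveAt)
open Pool.Agent.H62.EF (Lat MN pr TorusMap Sec Charts DU)
open Pool.Agent.H62.EL (Gd Ag BadSet IsNC TForm)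

variable {N : ℕ} {X D P : Set (EN N)} {Λ Γ : AddSubgroup ℂ} {u : EN N → ℂ} {B : Set ℂ} {δ : ℝ}

private theorem Pe_punct (b : ℂ) {R : ℝ} (hR : 0 < R) : IsPreconnected {z : ℂ | 0 < ‖z - b‖ ∧ ‖z - b‖ < R} := by
  have h1 : {z : ℂ | 0 < ‖z - b‖ ∧ ‖z - b‖ < R} = (fun τ => b + Complex.exp τ) '' {τ : ℂ | τ.re < Real.log R} := by
    ext z
    constructor
    · rintro ⟨h1, h2⟩
      refine ⟨Complex.log (z - b), ?_, ?_⟩
      · show (Complex.log (z - b)).re < Real.log R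
        rw [Complex.log_re]
        exact Real.log_lt_log h1 h2
      · show b + Complex.exp (Complex.log (z - b)) = z
        rw [Complex.exp_log (norm_pos_iff.mp h1)]
        ring
    · rintro ⟨τ, hτ, rfl⟩
      have h2 : b + Complex.exp τ - b = Complex.exp τ := by ring
      show 0 < ‖b + Complex.exp τ - b‖ ∧ ‖b + Complex.exp τ - b‖ < R
      rw [h2, Complex.norm_exp]
      refine ⟨Real.exp_pos _, ?_⟩
      rw [← Real.exp_log hR]
      exact Real.exp_lt_exp.mpr hτ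
  rw [h1]
  exact ((convex_halfSpace_re_lt _).isPreconnected).image _ (continuous_const.add Complex.continuous_exp).continuousOn

/-- a chart at a point of `P` in a bad fibre -/
private theorem Pe_chart (E : LData X D P Λ Γ u B δ) {b : ℂ} (hb : b ∈ B) {x : EN N} (hx : x ∈ P) (hub : u x - b ∈ Λ) {θ : ℝ}
    (hθ : 0 < θ) : ∃ (χ : Chart X) (ρ : ℝ) (i : ℕ), 0 < ρ ∧ 1 ≤ i ∧ x ∈ χ.U ∧ ∀ p ∈ ball (0 : ℂ × ℂ) 2, (χ.σ p ∈ P ↔ p.2 = 0) ∧
      u (χ.σ p) - (b + ρ * p.1 ^ i) ∈ Λ ∧ ‖(ρ : ℂ) * p.1 ^ i‖ < θ := by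
  obtain ⟨i, hi, σ, τ, hg, hσ0, hu, hP⟩ := E.horP b hb x hx hub
  have hnorm : ∀ᶠ p in 𝓝 (0 : ℂ × ℂ), ‖p.1 ^ i‖ < θ := by
    have hc : Continuous fun p : ℂ × ℂ => ‖p.1 ^ i‖ := (continuous_fst.pow i).norm
    have h1 : Tendsto (fun p : ℂ × ℂ => ‖p.1 ^ i‖) (𝓝 0) (𝓝 ‖(0 : ℂ × ℂ).1 ^ i‖) := hc.continuousAt
    have h0 : ‖(0 : ℂ × ℂ).1 ^ i‖ = 0 := by
      rw [norm_eq_zero]
      show (0 : ℂ) ^ i = 0
      exact zero_pow (by omega)
    rw [h0] at h1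
    exact h1.eventually_lt_const hθ
  obtain ⟨η', hη', hall⟩ := Metric.eventually_nhds_iff_ball.mp (((hu.and hP).and hnorm).and hg.σ_mem)
  obtain ⟨χ, r, hr, hU, hq, hch⟩ := exists_small_chartO E.cone hg hη'
  refine ⟨χ, r ^ i, i, pow_pos hr _, hi, hσ0 ▸ hU, fun p hp => ?_⟩
  obtain ⟨h1, h2, a, ha, h3⟩ := hch p hp
  obtain ⟨⟨⟨h4, h5⟩, h6⟩, h7⟩ := hall _ (mem_ball_zero_iff.mpr h1)
  have e1 : ((r : ℂ) • p).1 = (r : ℂ) * p.1 := rfl
  have e2 : ((r : ℂ) • p).2 = (r : ℂ) * p.2 := rfl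
  have hrC : (r : ℂ) ≠ 0 := by exact_mod_cast hr.ne'
  have e3 : (((r ^ i : ℝ)) : ℂ) * p.1 ^ i = ((r : ℂ) • p).1 ^ i := by
    rw [e1, mul_pow]
    push_cast
    rfl
  refine ⟨?_, ?_, ?_⟩
  · rw [h3]
    constructor
    · intro h8
      have h9 := E.P_smul _ h8 a⁻¹ (inv_ne_zero ha)
      rw [smul_smul, inv_mul_cancel₀ ha, one_smul] at h9
      have h10 := h5.1 h9
      rw [e2] at h10
      exact (mul_eq_zero.1 h10).resolve_left hrC
    · intro h8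
      refine E.P_smul _ (h5.2 ?_) a ha
      rw [e2, h8, mul_zero]
  · rw [e3, h3]
    have h8 := E.tor.smul _ h7 a ha
    have h9 := Λ.add_mem h8 h4
    rwa [sub_add_sub_cancel] at h9
  · rw [e3]
    exact h6

/-- a curve in `P` over the punctured disc extends -/
theorem pe_near (E : LData X D P Λ Γ u B δ) {e : ℂ → MN N}
    (he : ∀ z₀, z₀ ∉ B → ∃ (r : ℝ) (Ψ : ℂ → EN N), 0 < r ∧ DifferentiableOn ℂ Ψ (ball z₀ r) ∧
      ∀ z ∈ ball z₀ r, Ψ z ∈ P ∧ u (Ψ z) - z ∈ Λ ∧ pr (Ψ z) = e z) {b : ℂ} (hb : b ∈ B) :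
    ∃ (r : ℝ) (Ψ : ℂ → EN N), 0 < r ∧ DifferentiableOn ℂ Ψ (ball b r) ∧ (∀ z ∈ ball b r, Ψ z ∈ P ∧ u (Ψ z) - z ∈ Λ) ∧
      ∀ z ∈ ball b r, z ≠ b → pr (Ψ z) = e z := by
  classical
  have hδ := E.bad.pos
  obtain ⟨η, hη, hdisc⟩ := E.dsc.discrete
  have hPX : P ⊆ X := fun y hy => E.D_sub (E.P_sub hy)
  have hP0 : ∀ y ∈ P, y ≠ 0 := fun y hy => E.cone.ne_zero (hPX hy)
  have hnB : ∀ z : ℂ, z ≠ b → ‖z - b‖ < 8 * δ → z ∉ B := by
    intro z hzb hz hzB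
    have h1 := E.bad.sep z hzB b hb hzb
    linarith
  -- a limit point over `b`
  obtain ⟨x₀, hx₀P, hx₀b, zz, x, hzzb, hzz0, hxP, hxe, hlim⟩ : ∃ x₀ ∈ P, u x₀ - b ∈ Λ ∧ ∃ (zz : ℕ → ℂ) (x : ℕ → EN N), (∀ n, zz n ≠ b) ∧
      Tendsto (fun n => ‖zz n - b‖) atTop (𝓝 0) ∧ (∀ n, x n ∈ P) ∧ (∀ n, pr (x n) = e (zz n)) ∧
      Tendsto (fun n => pr (x n)) atTop (𝓝 (pr x₀)) := by
    set zz : ℕ → ℂ := fun n => b + ((δ / (n + 1) : ℝ) : ℂ) with hzz
    have hzn : ∀ n, ‖zz n - b‖ = δ / (n + 1) := by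
      intro n
      have h1 : zz n - b = ((δ / (n + 1) : ℝ) : ℂ) := by
        rw [hzz]
        ring
      rw [h1, Complex.norm_real, Real.norm_of_nonneg (by positivity)]
    have hzle : ∀ n, ‖zz n - b‖ ≤ δ := by
      intro n
      rw [hzn n]
      refine div_le_self hδ.le ?_
      have : (0 : ℝ) ≤ n := Nat.cast_nonneg n
      linarith
    have hzpos : ∀ n, 0 < ‖zz n - b‖ := by
      intro n
      rw [hzn n]
      positivity
    have hzb : ∀ n, zz n ≠ b := fun n h => by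
      have h1 := hzpos n
      rw [h, sub_self, norm_zero] at h1
      exact lt_irrefl _ h1
    have hx : ∀ n, ∃ x ∈ P, u x - zz n ∈ Λ ∧ pr x = e (zz n) := by
      intro n
      obtain ⟨r, Ψ, hr, -, h1⟩ := he (zz n) (hnB _ (hzb n) (lt_of_le_of_lt (hzle n) (by linarith)))
      obtain ⟨h2, h3, h4⟩ := h1 _ (mem_ball_self hr)
      exact ⟨_, h2, h3, h4⟩
    choose x hxP hxu hxe using hx
    have hpart : ∀ n, x n ∈ part X Λ u (‖b‖ + δ) := by
      intro n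
      refine part_mem_of_val (hPX (hxP n)) ?_ (hxu n)
      refine nb_mono ?_ (mem_nb_norm (zz n))
      calc ‖zz n‖ = ‖b + (zz n - b)‖ := by rw [add_sub_cancel]
        _ ≤ ‖b‖ + ‖zz n - b‖ := norm_add_le _ _
        _ ≤ ‖b‖ + δ := by linarith [hzle n]
    obtain ⟨y, ⟨x₀, hx₀, rfl⟩, φ, hφ, hlim⟩ := (Pool.Agent.H62.EF.isCompact_pr (E.toLFib.part_isCone (‖b‖ + δ))).tendsto_subseq
      (fun n => (⟨x n, hpart n, rfl⟩ : pr (x n) ∈ pr '' part X Λ u (‖b‖ + δ)))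
    have hz0 : Tendsto (fun n => ‖zz n - b‖) atTop (𝓝 0) := by
      have h1 : (fun n => ‖zz n - b‖) = fun n : ℕ => δ * (1 / ((n : ℝ) + 1)) := by
        funext n
        rw [hzn n]
        ring
      rw [h1]
      have h2 := (tendsto_one_div_add_atTop_nhds_zero_nat (𝕜 := ℝ)).const_mul δ
      rwa [mul_zero] at h2
    have hx₀P : x₀ ∈ P := by
      by_contra h
      obtain ⟨r, hr, hfar⟩ := pr_closed E.cone E.P_smul hPX hx₀.1 (E.P_closed x₀ hx₀.1 h)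
      obtain ⟨n, hn⟩ := (hlim.eventually (Metric.ball_mem_nhds _ hr)).exists
      exact absurd (Metric.mem_ball.1 hn) (not_lt.2 (hfar _ (hxP _)))
    refine ⟨x₀, hx₀P, ?_, fun n => zz (φ n), fun n => x (φ n), fun n => hzb _, hz0.comp hφ.tendsto_atTop, fun n => hxP _,
      fun n => hxe _, hlim⟩
    refine E.dsc.mem_of_close fun ε hε => ?_
    obtain ⟨η₁, hη₁, hunif⟩ := E.toLFib.part_unif (‖b‖ + δ) (half_pos hε)
    obtain ⟨n, hn1, hn2⟩ := ((hlim.eventually (Metric.ball_mem_nhds _ hη₁)).and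
      ((hz0.comp hφ.tendsto_atTop).eventually_lt_const (half_pos hε))).exists
    obtain ⟨l, hl, h1⟩ := hunif x₀ hx₀ (x (φ n)) (hpart _) (by rw [dist_comm]; exact Metric.mem_ball.1 hn1)
    refine ⟨l + (u (x (φ n)) - zz (φ n)), Λ.add_mem hl (hxu _), ?_⟩
    have h2 : u x₀ - b - (l + (u (x (φ n)) - zz (φ n))) = (u x₀ - u (x (φ n)) - l) + (zz (φ n) - b) := by ring
    rw [h2]
    have h3 : ‖zz (φ n) - b‖ < ε / 2 := hn2
    calc _ ≤ ‖u x₀ - u (x (φ n)) - l‖ + ‖zz (φ n) - b‖ := norm_add_le _ _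
      _ < ε / 2 + ε / 2 := add_lt_add h1 h3
      _ = ε := by ring
  -- the chart
  obtain ⟨χ, ρ, i, hρ, hi, hx₀U, hχ⟩ := Pe_chart E hb hx₀P hx₀b (θ := η / 4) (by positivity)
  have hρC : (ρ : ℂ) ≠ 0 := by exact_mod_cast hρ.ne'
  have hball : ∀ s : ℂ, ‖s‖ < 2 → ((s, 0) : ℂ × ℂ) ∈ ball (0 : ℂ × ℂ) 2 := by
    intro s hs
    rw [mem_ball_zero_iff, Prod.norm_def]
    exact max_lt hs (by rw [norm_zero]; norm_num)
  have hσP : ∀ s : ℂ, ‖s‖ < 2 → χ.σ (s, 0) ∈ P := fun s hs => (hχ _ (hball s hs)).1.2 rfl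
  obtain ⟨δ₁, hδ₁, hnear⟩ := Pool.Agent.H62.EF.near_of_pr (hP0 _ hx₀P) (χ.isOpen_U.mem_nhds hx₀U)
  have hpt : ∀ y ∈ P, y ∈ χ.U → ∃ s : ℂ, ‖s‖ < 2 ∧ χ.q y = (s, 0) ∧ pr (χ.σ (s, 0)) = pr y := by
    intro y hy hyU
    obtain ⟨h1, c, hc, h2⟩ := χ.surj y (hPX hy) hyU
    have h3 : χ.σ (χ.q y) ∈ P := by
      have h4 := E.P_smul y hy c⁻¹ (inv_ne_zero hc)
      rw [h2, smul_smul, inv_mul_cancel₀ hc, one_smul] at h4
      rw [h2]
      have h5 : χ.q (c • χ.σ (χ.q y)) = χ.q y := by rw [← h2]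
      rw [h5]
      exact h4
    have h4 : (χ.q y).2 = 0 := (hχ _ h1).1.1 h3
    have h5 : χ.q y = ((χ.q y).1, 0) := Prod.ext rfl h4
    refine ⟨(χ.q y).1, ?_, h5, ?_⟩
    · rw [mem_ball_zero_iff, Prod.norm_def] at h1
      exact lt_of_le_of_lt (le_max_left _ _) h1
    · rw [← h5]
      conv_rhs => rw [h2]
      rw [Pool.Agent.H62.EF.pr_smul _ hc]
  have hpt2 : ∀ y ∈ P, ∀ s : ℂ, ‖s‖ < 2 → pr (χ.σ (s, 0)) = pr y → y ∈ χ.U ∧ χ.q y = (s, 0) ∧ u y - u (χ.σ (s, 0)) ∈ Λ := by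
    intro y hy s hs h
    obtain ⟨c, hc, h1⟩ := (Pool.Agent.H62.EF.pr_eq_iff (hP0 y hy) (hP0 _ (hσP s hs))).1 h.symm
    obtain ⟨h2, h3, h4⟩ := χ.σ_mem _ (hball s hs)
    refine ⟨?_, ?_, ?_⟩
    · rw [h1]
      exact χ.smul_U _ h3 c hc
    · rw [h1, χ.q_smul _ h3 c hc, h4]
    · rw [h1]
      exact E.tor.smul _ h2 c hc
  set ρ₀ : ℝ := min (8 * δ) (min (η / 4) (ρ * (1 / 2) ^ i)) with hρ₀
  have hρ₀0 : 0 < ρ₀ := lt_min (by positivity) (lt_min (by positivity) (by positivity))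
  set Dp : Set ℂ := {z : ℂ | 0 < ‖z - b‖ ∧ ‖z - b‖ < ρ₀} with hDp
  have hDpo : IsOpen Dp := by
    have h1 : Continuous fun z : ℂ => ‖z - b‖ := (continuous_id.sub continuous_const).norm
    exact (isOpen_lt continuous_const h1).inter (isOpen_lt h1 continuous_const)
  have hDpB : ∀ z ∈ Dp, z ∉ B := fun z hz => hnB z (fun h => by
    have h1 := hz.1
    rw [h, sub_self, norm_zero] at h1
    exact lt_irrefl _ h1) (lt_of_lt_of_le hz.2 (min_le_left _ _))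
  -- the parameter
  have key : ∀ z ∈ Dp, ∀ s : ℂ, ‖s‖ < 2 → pr (χ.σ (s, 0)) = e z → (ρ : ℂ) * s ^ i = z - b ∧ ‖s‖ < 1 / 2 := by
    intro z hz s hs h
    obtain ⟨r, Ψ, hr, -, h1⟩ := he z (hDpB z hz)
    obtain ⟨h2, h3, h4⟩ := h1 z (mem_ball_self hr)
    obtain ⟨-, -, h5⟩ := hpt2 _ h2 s hs (h.trans h4.symm)
    obtain ⟨-, h6, h7⟩ := hχ _ (hball s hs)
    have h8 : z - b - ρ * s ^ i ∈ Λ := by
      have h9 := Λ.add_mem (Λ.sub_mem h5 h3) h6
      have h10 : u (Ψ z) - u (χ.σ (s, 0)) - (u (Ψ z) - z) + (u (χ.σ (s, 0)) - (b + ρ * (s, (0 : ℂ)).1 ^ i)) = z - b - ρ * s ^ i := by ring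
      rwa [h10] at h9
    have h9 : ‖z - b - ρ * s ^ i‖ < η := by
      have h10 : ‖z - b‖ < η / 4 := lt_of_lt_of_le hz.2 ((min_le_right _ _).trans (min_le_left _ _))
      have h11 : ‖(ρ : ℂ) * s ^ i‖ < η / 4 := h7
      have h12 := norm_sub_le (z - b) ((ρ : ℂ) * s ^ i)
      linarith
    have h10 : (ρ : ℂ) * s ^ i = z - b := (sub_eq_zero.1 (hdisc _ h8 h9)).symm
    refine ⟨h10, ?_⟩
    have h11 : ρ * ‖s‖ ^ i < ρ * (1 / 2) ^ i := by
      have h12 : ‖(ρ : ℂ) * s ^ i‖ = ρ * ‖s‖ ^ i := by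
        rw [norm_mul, norm_pow, Complex.norm_real, Real.norm_of_nonneg hρ.le]
      rw [← h12, h10]
      exact lt_of_lt_of_le hz.2 ((min_le_right _ _).trans (min_le_right _ _))
    have h12 : ‖s‖ ^ i < (1 / 2) ^ i := lt_of_mul_lt_mul_left h11 hρ.le
    exact lt_of_pow_lt_pow_left₀ i (by norm_num) h12
  -- all of the punctured disc
  have hall : ∀ z ∈ Dp, ∃ s : ℂ, ‖s‖ < 2 ∧ pr (χ.σ (s, 0)) = e z := by
    set K : Set (MN N) := (fun s : ℂ => pr (χ.σ (s, 0))) '' closedBall 0 1 with hK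
    have hKc : IsCompact K := by
      refine (isCompact_closedBall (0 : ℂ) 1).image_of_continuousOn ?_
      intro s hs
      have hs2 : ‖s‖ < 2 := lt_of_le_of_lt (mem_closedBall_zero_iff.1 hs) (by norm_num)
      have h1 : ContinuousAt (fun s : ℂ => χ.σ (s, 0)) s :=
        ContinuousAt.comp (f := fun s : ℂ => ((s, 0) : ℂ × ℂ)) (χ.σ_an _ (hball s hs2)).continuousAt
          (continuous_id.prodMk continuous_const).continuousAt
      exact (ContinuousAt.comp (f := fun s : ℂ => χ.σ (s, 0)) (Pool.Agent.H62.EF.continuousAt_pr (hP0 _ (hσP s hs2))) h1).continuousWithinAt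
    set U1 : Set ℂ := {z | z ∈ Dp ∧ ∃ s : ℂ, ‖s‖ < 2 ∧ pr (χ.σ (s, 0)) = e z} with hU1
    set U2 : Set ℂ := {z | z ∈ Dp ∧ e z ∉ K} with hU2
    have ho1 : IsOpen U1 := by
      rw [isOpen_iff_mem_nhds]
      rintro z ⟨hz, s, hs, h⟩
      obtain ⟨r, Ψ, hr, hΨ, h1⟩ := he z (hDpB z hz)
      obtain ⟨h2, h3, h4⟩ := h1 z (mem_ball_self hr)
      obtain ⟨h5, -, -⟩ := hpt2 _ h2 s hs (h.trans h4.symm)
      have h6 : ContinuousAt Ψ z := (hΨ.differentiableAt (isOpen_ball.mem_nhds (mem_ball_self hr))).continuousAt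
      filter_upwards [hDpo.mem_nhds hz, isOpen_ball.mem_nhds (mem_ball_self hr), h6.eventually_mem (χ.isOpen_U.mem_nhds h5)] with w hw1 hw2 hw3
      obtain ⟨h7, h8, h9⟩ := h1 w hw2
      obtain ⟨s', hs', -, h10⟩ := hpt _ h7 hw3
      exact ⟨hw1, s', hs', h10.trans h9⟩
    have ho2 : IsOpen U2 := by
      rw [isOpen_iff_mem_nhds]
      rintro z ⟨hz, h⟩
      obtain ⟨r, Ψ, hr, hΨ, h1⟩ := he z (hDpB z hz)
      obtain ⟨h2, h3, h4⟩ := h1 z (mem_ball_self hr)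
      have h6 : ContinuousAt Ψ z := (hΨ.differentiableAt (isOpen_ball.mem_nhds (mem_ball_self hr))).continuousAt
      have h7 : ContinuousAt (fun w => pr (Ψ w)) z := ContinuousAt.comp (f := Ψ) (Pool.Agent.H62.EF.continuousAt_pr (hP0 _ h2)) h6
      have h8 : ∀ᶠ w in 𝓝 z, pr (Ψ w) ∈ Kᶜ := h7.eventually_mem (hKc.isClosed.isOpen_compl.mem_nhds (by
        show pr (Ψ z) ∉ K
        rw [h4]
        exact h))
      filter_upwards [hDpo.mem_nhds hz, isOpen_ball.mem_nhds (mem_ball_self hr), h8] with w hw1 hw2 hw3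
      refine ⟨hw1, ?_⟩
      rw [← (h1 w hw2).2.2]
      exact hw3
    have hdis : Disjoint U1 U2 := by
      rw [Set.disjoint_left]
      rintro z ⟨hz, s, hs, h⟩ ⟨-, h1⟩
      have h2 := (key z hz s hs h).2
      exact h1 ⟨s, by rw [mem_closedBall_zero_iff]; linarith, h⟩
    have hcov : Dp ⊆ U1 ∪ U2 := by
      intro z hz
      by_cases h : e z ∈ K
      · obtain ⟨s, hs, h1⟩ := h
        exact Or.inl ⟨hz, s, lt_of_le_of_lt (mem_closedBall_zero_iff.1 hs) (by norm_num), h1⟩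
      · exact Or.inr ⟨hz, h⟩
    have hne : (Dp ∩ U1).Nonempty := by
      obtain ⟨n, hn1, hn2⟩ := ((hlim.eventually (Metric.ball_mem_nhds _ hδ₁)).and (hzz0.eventually_lt_const hρ₀0)).exists
      have hzn : zz n ∈ Dp := ⟨norm_pos_iff.2 (sub_ne_zero.2 (hzzb n)), hn2⟩
      obtain ⟨c, hc, h1⟩ := hnear (x n) (hP0 _ (hxP n)) (Metric.mem_ball.1 hn1)
      have h2 : x n ∈ χ.U := by
        have h3 := χ.smul_U _ h1 c⁻¹ (inv_ne_zero hc)
        rwa [smul_smul, inv_mul_cancel₀ hc, one_smul] at h3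
      obtain ⟨s, hs, -, h3⟩ := hpt _ (hxP n) h2
      exact ⟨zz n, hzn, hzn, s, hs, h3.trans (hxe n)⟩
    have hsub := (Pe_punct b hρ₀0).subset_left_of_subset_union ho1 ho2 hdis hcov hne
    exact fun z hz => (hsub hz).2
  choose! s hs2 hse using hall
  set S : ℂ → ℂ := fun z => if z ∈ Dp then s z else 0 with hS
  have hS1 : ∀ z ∈ Dp, S z = s z := fun z hz => if_pos hz
  have hbDp : b ∉ Dp := fun h => by
    have h1 := h.1
    rw [sub_self, norm_zero] at h1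
    exact lt_irrefl _ h1
  have hSb : S b = 0 := if_neg hbDp
  have hDp2 : ∀ z ∈ ball b ρ₀, z ≠ b → z ∈ Dp := fun z hz hzb =>
    ⟨norm_pos_iff.2 (sub_ne_zero.2 hzb), by rw [← dist_eq_norm]; exact Metric.mem_ball.1 hz⟩
  have hSd : DifferentiableOn ℂ S (ball b ρ₀) := by
    rw [← Complex.differentiableOn_compl_singleton_and_continuousAt_iff (isOpen_ball.mem_nhds (mem_ball_self hρ₀0))]
    constructor
    · rintro z ⟨hz, hzb⟩
      have hz' := hDp2 z hz hzb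
      obtain ⟨r, Ψ, hr, hΨ, h1⟩ := he z (hDpB z hz')
      have h2 : ∀ᶠ w in 𝓝 z, S w = (χ.q (Ψ w)).1 := by
        filter_upwards [hDpo.mem_nhds hz', isOpen_ball.mem_nhds (mem_ball_self hr)] with w hw1 hw2
        obtain ⟨h3, h4, h5⟩ := h1 w hw2
        obtain ⟨-, h6, -⟩ := hpt2 _ h3 (s w) (hs2 w hw1) ((hse w hw1).trans h5.symm)
        rw [hS1 w hw1, h6]
      obtain ⟨h3, h4, h5⟩ := h1 z (mem_ball_self hr)
      obtain ⟨h6, -, -⟩ := hpt2 _ h3 (s z) (hs2 z hz') ((hse z hz').trans h5.symm)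
      have h7 : DifferentiableAt ℂ (fun w => χ.q (Ψ w)) z :=
        DifferentiableAt.comp (g := χ.q) z (χ.q_an _ h6).differentiableAt (hΨ.differentiableAt (isOpen_ball.mem_nhds (mem_ball_self hr)))
      exact ((h7.fst).congr_of_eventuallyEq h2).differentiableWithinAt
    · rw [Metric.continuousAt_iff]
      intro ε hε
      refine ⟨min ρ₀ (ρ * ε ^ i), lt_min hρ₀0 (by positivity), fun {z} hz => ?_⟩
      rw [hSb, dist_zero_right]
      by_cases hzb : z = b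
      · rw [hzb, hSb, norm_zero]
        exact hε
      · have hz' := hDp2 z (Metric.mem_ball.2 (lt_of_lt_of_le hz (min_le_left _ _))) hzb
        rw [hS1 z hz']
        have h1 := (key z hz' (s z) (hs2 z hz') (hse z hz')).1
        have h2 : ρ * ‖s z‖ ^ i < ρ * ε ^ i := by
          have h12 : ‖(ρ : ℂ) * s z ^ i‖ = ρ * ‖s z‖ ^ i := by
            rw [norm_mul, norm_pow, Complex.norm_real, Real.norm_of_nonneg hρ.le]
          rw [← h12, h1, ← dist_eq_norm]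
          exact lt_of_lt_of_le hz (min_le_right _ _)
        exact lt_of_pow_lt_pow_left₀ i hε.le (lt_of_mul_lt_mul_left h2 hρ.le)
  have hSeq : ∀ z ∈ ball b ρ₀, (ρ : ℂ) * S z ^ i = z - b := by
    intro z hz
    by_cases hzb : z = b
    · rw [hzb, hSb, zero_pow (by omega), mul_zero, sub_self]
    · have hz' := hDp2 z hz hzb
      rw [hS1 z hz']
      exact (key z hz' (s z) (hs2 z hz') (hse z hz')).1
  have hi1 : i = 1 := by
    by_contra hne
    have hi2 : 2 ≤ i := by omega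
    have h1 : HasDerivAt S (deriv S b) b := (hSd.differentiableAt (isOpen_ball.mem_nhds (mem_ball_self hρ₀0))).hasDerivAt
    have h2 := (h1.fun_pow i).const_mul (ρ : ℂ)
    have h3 : HasDerivAt (fun z : ℂ => z - b) 1 b := (hasDerivAt_id b).sub_const b
    have h4 : (fun z : ℂ => z - b) =ᶠ[𝓝 b] fun z => (ρ : ℂ) * S z ^ i := by
      filter_upwards [isOpen_ball.mem_nhds (mem_ball_self hρ₀0)] with z hz
      exact (hSeq z hz).symm
    have h5 := (h2.congr_of_eventuallyEq h4).unique h3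
    rw [hSb, zero_pow (by omega)] at h5
    simp at h5
  subst hi1
  refine ⟨min ρ₀ ρ, fun z => χ.σ ((z - b) / ρ, 0), lt_min hρ₀0 hρ, ?_, ?_, ?_⟩
  · intro z hz
    have hz2 : ‖(z - b) / ρ‖ < 2 := by
      rw [norm_div, Complex.norm_real, Real.norm_of_nonneg hρ.le, div_lt_iff₀ hρ, ← dist_eq_norm]
      have h1 := lt_of_lt_of_le (Metric.mem_ball.1 hz) (min_le_right _ _)
      linarith
    have h1 : DifferentiableAt ℂ (fun z : ℂ => (((z - b) / ρ, 0) : ℂ × ℂ)) z :=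
      ((differentiableAt_id.sub_const b).div_const _).prodMk (differentiableAt_const _)
    exact (DifferentiableAt.comp (g := χ.σ) z (χ.σ_an _ (hball _ hz2)).differentiableAt h1).differentiableWithinAt
  · intro z hz
    have hz2 : ‖(z - b) / ρ‖ < 2 := by
      rw [norm_div, Complex.norm_real, Real.norm_of_nonneg hρ.le, div_lt_iff₀ hρ, ← dist_eq_norm]
      have h1 := lt_of_lt_of_le (Metric.mem_ball.1 hz) (min_le_right _ _)
      linarith
    refine ⟨hσP _ hz2, ?_⟩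
    have h1 := (hχ _ (hball _ hz2)).2.1
    have h2 : b + (ρ : ℂ) * (((z - b) / ρ, (0 : ℂ)) : ℂ × ℂ).1 ^ 1 = z := by
      show b + (ρ : ℂ) * ((z - b) / ρ) ^ 1 = z
      rw [pow_one, mul_div_cancel₀ _ hρC]
      ring
    rwa [h2] at h1
  · intro z hz hzb
    have hz' := hDp2 z (ball_subset_ball (min_le_left _ _) hz) hzb
    have h1 := (key z hz' (s z) (hs2 z hz') (hse z hz')).1
    rw [pow_one] at h1
    have h2 : (z - b) / ρ = s z := by
      rw [← h1, mul_div_cancel_left₀ _ hρC]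
    show pr (χ.σ ((z - b) / ρ, 0)) = e z
    rw [h2]
    exact hse z hz'

private theorem Pe_notB (h : BadSet B Λ δ) (z : ℂ) : ∀ᶠ w in 𝓝[≠] z, w ∉ B := by
  have hδ := h.pos
  by_cases h1 : ∃ b ∈ B, b ≠ z ∧ ‖b - z‖ < 4 * δ
  · obtain ⟨b, hb, hbz, hb2⟩ := h1
    have hpos : 0 < ‖b - z‖ := norm_pos_iff.2 (sub_ne_zero.2 hbz)
    filter_upwards [mem_nhdsWithin_of_mem_nhds (Metric.ball_mem_nhds z hpos)] with w hw hwB
    have hw' : ‖w - z‖ < ‖b - z‖ := by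
      rw [← dist_eq_norm]
      exact Metric.mem_ball.1 hw
    have hwb : w ≠ b := fun h => by
      rw [h] at hw'
      exact lt_irrefl _ hw'
    have h2 := h.sep w hwB b hb hwb
    have h3 : w - b = (w - z) - (b - z) := by ring
    rw [h3] at h2
    have h4 := norm_sub_le (w - z) (b - z)
    linarith
  · push Not at h1
    filter_upwards [mem_nhdsWithin_of_mem_nhds (Metric.ball_mem_nhds z (by positivity : (0 : ℝ) < 4 * δ)), self_mem_nhdsWithin]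
      with w hw hwz hwB
    have h2 := h1 w hwB hwz
    rw [← dist_eq_norm] at h2
    exact absurd (Metric.mem_ball.1 hw) (not_lt.2 h2)

private theorem Pe_coord {f : ℂ → EN N} {z : ℂ} (hf : AnalyticAt ℂ f z) (i : Fin (N + 1)) :
    AnalyticAt ℂ (fun w => f w i) z :=
  ((EuclideanSpace.proj (𝕜 := ℂ) i : EN N →L[ℂ] ℂ).analyticAt _).comp hf

theorem pe_entire (E : LData X D P Λ Γ u B δ) {e : ℂ → MN N}
    (he : ∀ z₀, z₀ ∉ B → ∃ (r : ℝ) (Ψ : ℂ → EN N), 0 < r ∧ DifferentiableOn ℂ Ψ (ball z₀ r) ∧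
      ∀ z ∈ ball z₀ r, Ψ z ∈ P ∧ u (Ψ z) - z ∈ Λ ∧ pr (Ψ z) = e z) : False := by
  classical
  have hPX : P ⊆ X := fun y hy => E.D_sub (E.P_sub hy)
  have hP0 : ∀ y ∈ P, y ≠ 0 := fun y hy => E.cone.ne_zero (hPX hy)
  have hloc : ∀ z₀ : ℂ, ∃ (r : ℝ) (Ψ : ℂ → EN N), 0 < r ∧ DifferentiableOn ℂ Ψ (ball z₀ r) ∧
      (∀ z ∈ ball z₀ r, Ψ z ∈ P ∧ u (Ψ z) - z ∈ Λ) ∧ ∀ z ∈ ball z₀ r, z ∉ B → pr (Ψ z) = e z := by
    intro z₀
    by_cases h : z₀ ∈ B
    · obtain ⟨r, Ψ, hr, hΨ, h1, h2⟩ := pe_near E he h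
      exact ⟨r, Ψ, hr, hΨ, h1, fun z hz hzB => h2 z hz (fun h3 => hzB (h3 ▸ h))⟩
    · obtain ⟨r, Ψ, hr, hΨ, h1⟩ := he z₀ h
      exact ⟨r, Ψ, hr, hΨ, fun z hz => ⟨(h1 z hz).1, (h1 z hz).2.1⟩, fun z hz _ => (h1 z hz).2.2⟩
  choose r Ψ hr hΨ hP hpr using hloc
  have hself : ∀ z, z ∈ ball z (r z) := fun z => mem_ball_self (hr z)
  have hΨ0 : ∀ z₀, ∀ z ∈ ball z₀ (r z₀), Ψ z₀ z ≠ 0 := fun z₀ z hz => hP0 _ (hP z₀ z hz).1
  have hcont : ∀ z₀, ∀ z ∈ ball z₀ (r z₀), ContinuousAt (fun w => pr (Ψ z₀ w)) z := fun z₀ z hz =>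
    ContinuousAt.comp (f := Ψ z₀) (Pool.Agent.H62.EF.continuousAt_pr (hΨ0 z₀ z hz))
      ((hΨ z₀).differentiableAt (isOpen_ball.mem_nhds hz)).continuousAt
  have hcons : ∀ z₀, ∀ z ∈ ball z₀ (r z₀), pr (Ψ z z) = pr (Ψ z₀ z) := by
    intro z₀ z hz
    have hev : (fun w => pr (Ψ z w)) =ᶠ[𝓝[≠] z] fun w => pr (Ψ z₀ w) := by
      filter_upwards [Pe_notB E.bad z, mem_nhdsWithin_of_mem_nhds (isOpen_ball.mem_nhds hz),
        mem_nhdsWithin_of_mem_nhds (isOpen_ball.mem_nhds (hself z))] with w h1 h2 h3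
      rw [hpr z w h3 h1, hpr z₀ w h2 h1]
    exact tendsto_nhds_unique_of_eventuallyEq ((hcont z z (hself z)).tendsto.mono_left nhdsWithin_le_nhds)
      ((hcont z₀ z hz).tendsto.mono_left nhdsWithin_le_nhds) hev
  have hΨan : ∀ z₀, AnalyticAt ℂ (Ψ z₀) z₀ := fun z₀ => (hΨ z₀).analyticAt (isOpen_ball.mem_nhds (hself z₀))
  have hofne : ∀ v : EN N, v ≠ 0 → v.ofLp ≠ 0 := by
    intro v hv h
    apply hv
    ext j
    exact congrFun h j
  set f : ℂ → Pool.Agent.H17.PN N := fun z => Projectivization.mk ℂ (Ψ z z).ofLp (hofne _ (hΨ0 z z (hself z))) with hf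
  have hfhol : Pool.Agent.H17.HolomorphicInto f Set.univ := by
    intro z₀ _
    refine ⟨fun w => (Ψ z₀ w).ofLp, ?_, ?_⟩
    · rw [analyticAt_pi_iff]
      intro j
      exact Pe_coord (hΨan z₀) j
    · filter_upwards [isOpen_ball.mem_nhds (hself z₀)] with z hz
      have h2 := hΨ0 z₀ z hz
      refine ⟨hofne _ h2, ?_⟩
      obtain ⟨c, hc, h4⟩ := (Pool.Agent.H62.EF.pr_eq_iff (hΨ0 z z (hself z)) h2).mp (hcons z₀ z hz)
      rw [hf, Projectivization.mk_eq_mk_iff']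
      exact ⟨c, by rw [h4]; rfl⟩
  obtain ⟨x, hx⟩ := Pool.Agent.H17.exists_global_lift hfhol
  set G : ℂ → EN N := fun z => WithLp.toLp 2 (fun j => (x j : ℂ → ℂ) z) with hG
  have hGd : Differentiable ℂ G := by
    have h1 : Differentiable ℂ (fun z => (fun j => (x j : ℂ → ℂ) z)) :=
      differentiable_pi.2 fun j => (x j).diff
    exact (PiLp.continuousLinearEquiv 2 ℂ (fun _ : Fin (N + 1) => ℂ)).symm.differentiable.comp h1
  have hGc : ∀ z, ∃ c : ℂ, c ≠ 0 ∧ G z = c • Ψ z z := by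
    intro z
    obtain ⟨h1, h2⟩ := hx z
    obtain ⟨c, hc, h3⟩ := Pool.Agent.H17.mk_eq_mk_cross h2
    refine ⟨c⁻¹, inv_ne_zero hc, ?_⟩
    have h4 : Ψ z z = c • G z := by
      ext j
      exact h3 j
    rw [h4, smul_smul, inv_mul_cancel₀ hc, one_smul]
  refine E.noP G hGd (fun z => ?_) fun z => ?_
  · obtain ⟨c, hc, h⟩ := hGc z
    rw [h]
    exact E.P_smul _ (hP z z (hself z)).1 c hc
  · obtain ⟨c, hc, h⟩ := hGc z
    obtain ⟨h1, h2⟩ := hP z z (hself z)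
    have h3 := Λ.add_mem (E.tor.smul _ (hPX h1) c hc) h2
    rw [sub_add_sub_cancel] at h3
    rw [h]
    exact h3

theorem Pe_countable (h : BadSet B Λ δ) : B.Countable := by
  have hd : B.PairwiseDisjoint (fun b => ball b (4 * δ)) := by
    intro b hb b' hb' hne
    refine ball_disjoint_ball ?_
    rw [dist_eq_norm]
    have := h.sep b hb b' hb' hne
    linarith
  exact hd.countable_of_isOpen (fun _ _ => isOpen_ball) fun b _ => ⟨b, mem_ball_self (by linarith [h.pos])⟩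

end Pool.Agent.H18.LU

end

section

/-!
# LU CpL: uniform charts along the limits of the sections

`V = X \ P` is an open cone (`OCone`) with charts: `vCone`, `vTor` clear; `vCharts`: a chart of `X` at `x ∉ P` gives a germ chart (`IsGermChart X σ τ`, with `σ = a • χ.σ`, `τ = χ.q`), which is a germ chart of `V`
(`P_closed`), and `exists_small_chartO`.

`cap_of_smallO`, `cap_mono`: copies of `cap_of_small`, `cp_cap_mono` (EL Cp) for an open cone `V`.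
`exists_capP`: `so_unif` with `Q r z y := ∃ χ c ρ, Cap Λ u χ c ρ z y r ∧ Pr χ` (`Cap` is monotone in `r`; translation by `l ∈ Γ`: `c + l`, `Mon` with `c + l` because `l ∈ Λ`).  Translation of `Pr`: not needed, `Pr χ` does not
depend on `z`.  `hloc` at `(f, w)`: `so_notP`, `so_liftV` gives a lift `Ψ` in `V` near `w`; `hP` gives `η`; `exists_str_of_liftO` (for `V`, charts smaller than `η` and small with respect to `Λ`), `cap_of_smallO`, `cap_mono`.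

`irel_loc`: as in `exists_irel` (EL Cp): a straight chart `χ` at the lift in `V` (`so_notP`, `so_liftV`, `exists_str_of_liftO`), all of whose points are `ε/2`-near `f w`, `Cap`; the lifts of points near `f w` have `χ.q _` near `0`,
the same first coordinate (over `z`), and the segment stays in the chart.
`exists_irelL`: `so_unif` with `Q r z y := ∀ x ∈ V, ∀ x' ∈ V, u x - z ∈ Λ → u x' - z ∈ Λ → pr x = y → dist y (pr x') ≤ r → ∀ α : TForm V Λ u, ∃ v, IRel α ε z y (pr x') v`; the translation (`htr`): `IRel` at `z + l` from `IRel` at `z` for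
another form (replace `c` by `c + l`; the primitive of the form: use `cpRel` as in EL Cp: state `Q` with the existence of the chart and the points, and add a primitive `A` at the end by `exists_prim`).  `hloc`: `irel_loc` (its proof gives the version with
`cpRel`).  For the conclusion: `exists_deep` gives `x ∈ V` with `pr x = f z`; take the larger `r₁`.
`exists_deep`: `deepP` and `so_lift_at` (`z ∈ ball z r₁`, `z ∉ B` because `z ∈ Gd B δ'`): `f z = pr x`, `x ∈ X`; `x ∈ P` would give `0 < r ≤ dist (pr x) (f z) = 0`.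
-/

set_option autoImplicit false

open Topology Filter Metric

namespace Pool.Agent.H18.LU

attribute [-instance] ProperSMul.toContinuousSMul

open Pool.Agent.H36.BP (EN fs wd IsGermChart)
open Pool.Agent.H14.PP (IsCone Chart Tan CurveAt)
open Pool.Agent.H62.EF (Lat MN pr TorusMap Sec Charts DU)
open Pool.Agent.H62.EL (Gd Ag BadSet IsNC TForm Mon mo Cap IRel II tc IsPrim)

variable {N : ℕ} {X D P : Set (EN N)} {Λ Γ : AddSubgroup ℂ} {u : EN N → ℂ} {B : Set ℂ} {δ : ℝ}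

theorem LData.vCone (E : LData X D P Λ Γ u B δ) : OCone (X \ P) := by
  refine ⟨fun h => E.cone.zero_notMem h.1, fun x hx c hc => ⟨E.cone.smul_mem x hx.1 c hc, fun h => hx.2 ?_⟩⟩
  have h1 := E.P_smul _ h c⁻¹ (inv_ne_zero hc)
  rwa [smul_smul, inv_mul_cancel₀ hc, one_smul] at h1

theorem LData.vTor (E : LData X D P Λ Γ u B δ) : TorusMap (X \ P) Λ u := by
  refine ⟨fun x hx c hc => E.tor.smul x hx.1 c hc, fun x hx => ?_⟩
  obtain ⟨v, hv, h⟩ := E.tor.loc x hx.1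
  exact ⟨v, hv, h.mono fun y hy hyX => hy hyX.1⟩

theorem LData.vCharts (E : LData X D P Λ Γ u B δ) : Charts (X \ P) := by
  intro x hx
  obtain ⟨χ, hU, hq⟩ := E.charts x hx.1
  obtain ⟨hb, a, ha, hxa⟩ := χ.surj x hx.1 hU
  rw [hq] at hxa
  have h0 : (0 : ℂ × ℂ) ∈ ball (0 : ℂ × ℂ) 2 := mem_ball_self two_pos
  have hball : ∀ᶠ p in 𝓝 (0 : ℂ × ℂ), p ∈ ball (0 : ℂ × ℂ) 2 := isOpen_ball.mem_nhds h0
  have han : AnalyticAt ℂ (fun p => a • χ.σ p) (0 : ℂ × ℂ) := (analyticAt_const (v := a)).fun_smul (χ.σ_an 0 h0)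
  have ht : Tendsto (fun p => a • χ.σ p) (𝓝 (0 : ℂ × ℂ)) (𝓝 x) := by
    have h1 := han.continuousAt.tendsto
    rwa [← hxa] at h1
  have hG : IsGermChart (X \ P) (fun p => a • χ.σ p) χ.q := by
    refine ⟨han, ?_, ?_, ?_, ?_, ?_⟩
    · filter_upwards [hball, ht.eventually (E.P_closed x hx.1 hx.2)] with p hp h1
      exact ⟨E.cone.smul_mem _ (χ.σ_mem p hp).1 a ha, h1⟩
    · show AnalyticAt ℂ χ.q (a • χ.σ 0)
      rw [← hxa]
      exact χ.q_an x hU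
    · filter_upwards [hball] with p hp
      rw [χ.q_smul _ (χ.σ_mem p hp).2.1 a ha, (χ.σ_mem p hp).2.2]
    · show ∀ᶠ y in 𝓝 (a • χ.σ 0), _
      rw [← hxa]
      filter_upwards [χ.isOpen_U.mem_nhds hU] with y hy hyV
      obtain ⟨-, c, hc, h1⟩ := χ.surj y hyV.1 hy
      refine ⟨c * a⁻¹, mul_ne_zero hc (inv_ne_zero ha), ?_⟩
      rw [smul_smul, mul_assoc, inv_mul_cancel₀ ha, mul_one]
      exact h1
    · show ∀ᶠ z in 𝓝 (a • χ.σ 0, (1 : ℂ)), _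
      rw [← hxa]
      have h1 : ∀ᶠ z in 𝓝 (x, (1 : ℂ)), z.1 ∈ χ.U :=
        (continuous_fst.continuousAt (x := (x, (1 : ℂ)))).eventually_mem (χ.isOpen_U.mem_nhds hU)
      have h2 : ∀ᶠ z in 𝓝 (x, (1 : ℂ)), z.2 ≠ 0 :=
        (continuous_snd.continuousAt (x := (x, (1 : ℂ)))).eventually_ne one_ne_zero
      filter_upwards [h1, h2] with z hz1 hz2
      exact χ.q_smul _ hz1 _ hz2
  obtain ⟨χ', r, -, h1, h2, -⟩ := exists_small_chartO E.vCone hG one_pos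
  rw [← hxa] at h1 h2
  exact ⟨χ', h1, h2⟩

lemma cpl_q_small {V : Set (EN N)} (hV : OCone V) {χ : Chart V} {x₀ : EN N} (hx₀ : x₀ ∈ V) (hU : x₀ ∈ χ.U) (hq : χ.q x₀ = 0)
    {s : ℝ} (hs : 0 < s) : ∃ d : ℝ, 0 < d ∧ ∀ x ∈ V, dist (pr x) (pr x₀) < d → x ∈ χ.U ∧ ‖χ.q x‖ < s := by
  have hx0 : x₀ ≠ 0 := hV.ne_zero hx₀
  have hV' : {x | x ∈ χ.U ∧ ‖χ.q x‖ < s} ∈ 𝓝 x₀ := by
    have h1 : ∀ᶠ x in 𝓝 x₀, x ∈ χ.U := χ.isOpen_U.mem_nhds hU
    have h2 : ∀ᶠ x in 𝓝 x₀, ‖χ.q x‖ < s := by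
      have hc : ContinuousAt (fun x => ‖χ.q x‖) x₀ := (χ.q_an x₀ hU).continuousAt.norm
      have h3 : (fun x => ‖χ.q x‖) x₀ < s := by simpa [hq] using hs
      exact hc.tendsto.eventually_lt_const h3
    exact h1.and h2
  obtain ⟨d, hd, h⟩ := Pool.Agent.H62.EF.near_of_pr hx0 hV'
  refine ⟨d, hd, fun x hx hxd => ?_⟩
  obtain ⟨c, hc, hcU, hcq⟩ := h x (hV.ne_zero hx) hxd
  have e : x = c⁻¹ • (c • x) := by rw [smul_smul, inv_mul_cancel₀ hc, one_smul]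
  have hxU : x ∈ χ.U := by rw [e]; exact χ.smul_U _ hcU _ (inv_ne_zero hc)
  refine ⟨hxU, ?_⟩
  rw [← χ.q_smul x hxU c hc]
  exact hcq

private lemma cpl_mo (b : ℂ) (ρ : ℝ) (p : ℂ × ℂ) : mo b ρ 1 0 p = b + ρ * p.1 := by
  simp [mo]

lemma cpl_pr_q {V : Set (EN N)} {χ : Chart V} {x : EN N} (hx : x ∈ V) (hU : x ∈ χ.U) : pr (χ.σ (χ.q x)) = pr x := by
  obtain ⟨hb, c, hc, e⟩ := χ.surj x hx hU
  conv_rhs => rw [e]
  exact (Pool.Agent.H62.EF.pr_smul _ hc).symm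

/-- translation of the value of `u` -/
private lemma cpl_mon_add {V : Set (EN N)} {χ : Chart V} {c : ℂ} {ρ : ℝ} (h : Mon Λ u χ c ρ 1 0) {l : ℂ} (hl : l ∈ Λ) :
    Mon Λ u χ (c + l) ρ 1 0 where
  pos := h.pos
  ij := h.ij
  lift := fun p hp => by
    have h1 := Λ.sub_mem (h.lift p hp) hl
    rw [cpl_mo] at h1 ⊢
    have e : u (χ.σ p) - (c + l + ρ * p.1) = u (χ.σ p) - (c + ρ * p.1) - l := by ring
    rw [e]
    exact h1

theorem cap_of_smallO {V : Set (EN N)} (hV : OCone V) (hu : TorusMap V Λ u) {x₀ : EN N} (hx₀ : x₀ ∈ V) {z₀ : ℂ} (hz₀ : u x₀ - z₀ ∈ Λ)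
    {χ : Chart V} {ρ η : ℝ} (hm : Mon Λ u χ z₀ ρ 1 0) (hU : x₀ ∈ χ.U) (hq : χ.q x₀ = 0) (hinj : ∀ l ∈ Λ, ‖l‖ < 2 * η → l = 0)
    (hr : ∀ p ∈ ball (0 : ℂ × ℂ) 2, ‖mo z₀ ρ 1 0 p - z₀‖ < η) : ∃ r : ℝ, 0 < r ∧ Cap Λ u χ z₀ ρ z₀ (pr x₀) r := by
  obtain ⟨d, hd, h⟩ := cpl_q_small hV hx₀ hU hq (zero_lt_one' ℝ)
  have hη : 0 < η := lt_of_le_of_lt (norm_nonneg _) (hr 0 (mem_ball_self two_pos))
  have hr0 : 0 < min (d / 2) (η / 2) := lt_min (by linarith) (by linarith)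
  refine ⟨min (d / 2) (η / 2), hr0, hm, fun z hz x hx hxz hxd => ?_⟩
  have h1 : min (d / 2) (η / 2) ≤ d / 2 := min_le_left _ _
  have h2 : min (d / 2) (η / 2) ≤ η / 2 := min_le_right _ _
  obtain ⟨hxU, hxq⟩ := h x hx (by linarith)
  refine ⟨hxU, ?_, ?_⟩
  · rw [mem_closedBall, dist_zero_right]
    exact hxq.le
  · obtain ⟨hb, c, hc, e⟩ := χ.surj x hx hxU
    have h3 : u x - u (χ.σ (χ.q x)) ∈ Λ := by
      have h3' := hu.smul _ (χ.σ_mem _ hb).1 c hc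
      rw [← e] at h3'
      exact h3'
    have h4 := hm.lift _ hb
    have h5 : mo z₀ ρ 1 0 (χ.q x) - z ∈ Λ := by
      have h6 := Λ.sub_mem (Λ.sub_mem hxz h3) h4
      have e2 : mo z₀ ρ 1 0 (χ.q x) - z =
          u x - z - (u x - u (χ.σ (χ.q x))) - (u (χ.σ (χ.q x)) - mo z₀ ρ 1 0 (χ.q x)) := by ring
      rw [e2]
      exact h6
    have h7 : ‖mo z₀ ρ 1 0 (χ.q x) - z‖ < 2 * η := by
      have e3 : mo z₀ ρ 1 0 (χ.q x) - z = (mo z₀ ρ 1 0 (χ.q x) - z₀) - (z - z₀) := by ring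
      have h8 := norm_sub_le (mo z₀ ρ 1 0 (χ.q x) - z₀) (z - z₀)
      have h9 := hr _ hb
      rw [mem_closedBall, dist_eq_norm] at hz
      rw [e3]
      linarith
    have h10 := hinj _ h5 h7
    rw [cpl_mo] at h10
    exact sub_eq_zero.1 h10

theorem cap_mono {V : Set (EN N)} {χ : Chart V} {c : ℂ} {ρ : ℝ} {z₀ : ℂ} {y₀ : MN N} {r : ℝ} (h : Cap Λ u χ c ρ z₀ y₀ r) {z₁ : ℂ} {y₁ : MN N}
    {r₁ : ℝ} (hr : r₁ ≤ r / 2) (hz : dist z₁ z₀ ≤ r / 2) (hy : dist y₁ y₀ ≤ r / 2) : Cap Λ u χ c ρ z₁ y₁ r₁ := by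
  refine ⟨h.mon, fun z hz' x hx hxz hd => h.cap z ?_ x hx hxz ?_⟩
  · rw [mem_closedBall] at hz' ⊢
    have := dist_triangle z z₁ z₀
    linarith
  · have := dist_triangle (pr x) y₁ y₀
    linarith

/-- a chart of smaller radius -/
lemma cpl_cap_le {V : Set (EN N)} {χ : Chart V} {c : ℂ} {ρ : ℝ} {z₀ : ℂ} {y₀ : MN N} {r r' : ℝ} (h : Cap Λ u χ c ρ z₀ y₀ r)
    (hr : r' ≤ r) : Cap Λ u χ c ρ z₀ y₀ r' :=
  ⟨h.mon, fun z hz' x hx hxz hd => h.cap z (closedBall_subset_closedBall hr hz') x hx hxz (hd.trans hr)⟩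

/-- translation of a chart -/
lemma cpl_cap_add {V : Set (EN N)} {χ : Chart V} {c : ℂ} {ρ : ℝ} {z₀ : ℂ} {y₀ : MN N} {r : ℝ} (hc : Cap Λ u χ c ρ z₀ y₀ r)
    {l : ℂ} (hl : l ∈ Λ) : Cap Λ u χ (c + l) ρ (z₀ + l) y₀ r := by
  refine ⟨cpl_mon_add hc.mon hl, fun z hz x hx hxz hd => ?_⟩
  have h2 := hc.cap (z - l) ?_ x hx ?_ hd
  · refine ⟨h2.1, h2.2.1, ?_⟩
    linear_combination h2.2.2
  · rw [mem_closedBall, dist_eq_norm] at hz ⊢
    have e : z - l - z₀ = z - (z₀ + l) := by ring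
    rw [e]
    exact hz
  · have e : u x - (z - l) = (u x - z) + l := by ring
    rw [e]
    exact Λ.add_mem hxz hl

/-- the relation without the form -/
def cplRel (V : Set (EN N)) (Λ : AddSubgroup ℂ) (u : EN N → ℂ) (ε : ℝ) (z : ℂ) (y y' : MN N) : Prop :=
  ∃ (χ : Chart V) (c : ℂ) (ρ : ℝ) (p p' : ℂ × ℂ), Mon Λ u χ c ρ 1 0 ∧
    p ∈ ball (0 : ℂ × ℂ) 2 ∧ p' ∈ ball (0 : ℂ × ℂ) 2 ∧ c + ρ * p.1 = z ∧ c + ρ * p'.1 = z ∧ pr (χ.σ p) = y ∧ pr (χ.σ p') = y' ∧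
    (∀ θ ∈ Set.Icc (0 : ℝ) 1, dist (pr (χ.σ (p + (θ : ℂ) • (p' - p)))) y ≤ ε)

lemma cpl_rel_irel {V : Set (EN N)} {ε : ℝ} {z : ℂ} {y y' : MN N} (h : cplRel V Λ u ε z y y') (α : TForm V Λ u) :
    ∃ v, IRel α ε z y y' v := by
  obtain ⟨χ, c, ρ, p, p', hm, hp, hp', hc, hc', hpr, hpr', hθ⟩ := h
  obtain ⟨A, hA⟩ := Pool.Agent.H62.EL.exists_prim α χ hm
  exact ⟨_, χ, c, ρ, A, p, p', hm, hA, hp, hp', hc, hc', hpr, hpr', hθ, rfl⟩

lemma cpl_rel_add {V : Set (EN N)} {ε : ℝ} {z : ℂ} {y y' : MN N} (h : cplRel V Λ u ε z y y') {l : ℂ} (hl : l ∈ Λ) :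
    cplRel V Λ u ε (z + l) y y' := by
  obtain ⟨χ, c, ρ, p, p', hm, hp, hp', hc, hc', hpr, hpr', hθ⟩ := h
  exact ⟨χ, c + l, ρ, p, p', cpl_mon_add hm hl, hp, hp', by linear_combination hc, by linear_combination hc', hpr, hpr', hθ⟩

end Pool.Agent.H18.LU

end
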