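import Pool.Agent.H94.CB.M197
import Pool.Agent.H94.CB.M200
import Pool.Agent.H94.CB.M221

/-! The parts of this file: H18.LU.Lf, H18.LU.JnL, H18.LU.Pe_1, H18.LU.Cm. -/

section

/-!
# LU Lf: the members of `SO` are holomorphic curves

`so_lift`: port of `sb_lift` (EL SbB) with a closed ball `closedBall z₀ s ⊆ Ω` as `K`: `f` is a uniform limit on `K ∩ Gd B δ'` of `pr ∘ F n`, `SecAt (F n)` on `K`; all values are in `part X Λ u R` (a cone in the old sense),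
bound of the derivative: `sec_boundL`; the private lemma `SbB_local` of `SbB.lean` (copy it) with this cone gives `φ n = c n • F n → Ψ` locally uniformly on a ball `ball z₀ r`, `Ψ z ∈ part`, `pr (Ψ z) = f z`,
`u (Ψ z) - z ∈ Λ` (`part_unif`, `Dsc.mem_of_close`).  Dichotomy: `A = {z ∈ ball z₀ r | Ψ z ∈ D}` is relatively closed (`D_closed`) and open: at `z₁ ∈ A` (`z₁ ∉ B` if `r` is small: `ball z₀ r ⊆ Gd B δ'`) `hor` applies to
`Ψ z₁` (`u (Ψ z₁) - b ∈ Λ` would give `z₁ - b ∈ Λ`, `z₁ ∈ B`), and `hor_hurwitz`.  The ball is connected.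
`so_dichP`: if `Ψ` avoids `D` it avoids `P`; if it is in `D` then `{z | Ψ z ∈ P}` is open (`P_open`) and closed (`P_closed`).
`so_uniq`: port of `sb_uniq`: `Ω \ B` is preconnected: `Ω` is open and convex, `B` is countable; e.g. `Set.Countable.isPathConnected_compl_of_one_lt_rank` is for the whole space; for a convex open set: `IsOpen.isConnected_compl_..`,
or directly: the set of the points `z ∈ Ω` such that `f = g` on `U \ B` for a neighbourhood `U` of `z` is open, and closed in `Ω` (a point `b ∈ B ∩ Ω` has a punctured neighbourhood free of `B`, connected; or a point `z₁ ∉ B`: lifts and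
identity theorem), and `Ω` is preconnected.
`so_unique_lift`: `Ψ` and `Ψ'` are proportional: `pr_eq_iff`.
-/

set_option autoImplicit false

open Topology Filter Metric

namespace Pool.Agent.H18.LU

attribute [-instance] ProperSMul.toContinuousSMul

open Pool.Agent.H36.BP (EN fs wd IsGermChart)
open Pool.Agent.H14.PP (IsCone Chart Tan CurveAt)
open Pool.Agent.H62.EF (Lat MN pr TorusMap Sec Charts DU)
open Pool.Agent.H62.EL (Gd Ag BadSet IsNC TForm)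
open Pool.Agent.H62.EF (pr_lipschitz norm_inner_sq continuousAt_pr pr_smul pr_eq_iff)
open Pool.Agent.H62.EL (gd_notMem)

variable {N : ℕ} {X D P : Set (EN N)} {Λ Γ : AddSubgroup ℂ} {u : EN N → ℂ} {B : Set ℂ} {δ : ℝ}

private theorem Lf_ne_zero (hX : IsCone X) {x : EN N} (hx : x ∈ X) : x ≠ 0 := by
  rintro rfl
  exact hX.zero_notMem hx

private theorem Lf_local (hX : IsCone X) {L : ℝ} (hL : 0 < L) (𝒰 : Ultrafilter ℕ) (F : ℕ → ℂ → EN N) {z₀ : ℂ} {r₀ : ℝ}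
    (hr₀ : 0 < r₀) (hF : ∀ᶠ n in (𝒰 : Filter ℕ), DifferentiableOn ℂ (F n) (ball z₀ r₀) ∧
      ∀ z ∈ ball z₀ r₀, F n z ∈ X ∧ fs (F n z) (deriv (F n) z) ≤ L) :
    ∃ (r : ℝ) (φ : ℕ → ℂ → EN N) (ψ : ℂ → EN N), 0 < r ∧ r ≤ r₀ ∧
        (∀ᶠ n in (𝒰 : Filter ℕ), DifferentiableOn ℂ (φ n) (ball z₀ r) ∧ ∀ z ∈ ball z₀ r, F n z ∈ X ∧ ∃ c : ℂ, c ≠ 0 ∧ φ n z = c • F n z) ∧
        DifferentiableOn ℂ ψ (ball z₀ r) ∧ (∀ z ∈ ball z₀ r, ψ z ∈ X) ∧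
        TendstoLocallyUniformlyOn φ ψ 𝒰 (ball z₀ r) := by
  set r : ℝ := min r₀ (1 / (8 * L)) with hr
  have hr0 : 0 < r := lt_min hr₀ (by positivity)
  have hrr : r ≤ r₀ := min_le_left _ _
  have hrL : r ≤ 1 / (8 * L) := min_le_right _ _
  have hz₀ : z₀ ∈ ball z₀ r := mem_ball_self hr0
  have hev : ∀ᶠ n in (𝒰 : Filter ℕ), DifferentiableOn ℂ (F n) (ball z₀ r) ∧
      ∀ z ∈ ball z₀ r, F n z ∈ X ∧ ‖F n z₀‖ * ‖F n z‖ ≤ 2 * ‖inner ℂ (F n z₀) (F n z)‖ := by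
    filter_upwards [hF] with n h1
    obtain ⟨h1, h3⟩ := h1
    have hsub : ball z₀ r ⊆ ball z₀ r₀ := ball_subset_ball hrr
    refine ⟨h1.mono hsub, fun z hz => ⟨(h3 z (hsub hz)).1, ?_⟩⟩
    have hx0 : F n z₀ ≠ 0 := Lf_ne_zero hX (h3 z₀ (hsub hz₀)).1
    have hy0 : F n z ≠ 0 := Lf_ne_zero hX (h3 z (hsub hz)).1
    have hlip := pr_lipschitz isOpen_ball (convex_ball z₀ r) (h1.mono hsub)
      (fun w hw => Lf_ne_zero hX (h3 w (hsub hw)).1) (fun w hw => (h3 w (hsub hw)).2) z₀ hz₀ z hz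
    have h4 : ‖z₀ - z‖ ≤ r := by
      rw [← dist_eq_norm, dist_comm]
      exact (mem_ball.mp hz).le
    have h5 : dist (pr (F n z₀)) (pr (F n z)) ≤ 1 / 4 := by
      calc dist (pr (F n z₀)) (pr (F n z)) ≤ 2 * L * ‖z₀ - z‖ := hlip
        _ ≤ 2 * L * (1 / (8 * L)) := by gcongr; exact h4.trans hrL
        _ = 1 / 4 := by field_simp; norm_num
    have h6 := norm_inner_sq hx0 hy0
    have h7 : dist (pr (F n z₀)) (pr (F n z)) ^ 2 ≤ 1 := by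
      exact (pow_le_pow_left₀ dist_nonneg h5 2).trans (by norm_num)
    have h8 : (‖F n z₀‖ * ‖F n z‖) ^ 2 ≤ (2 * ‖inner ℂ (F n z₀) (F n z)‖) ^ 2 := by
      rw [mul_pow, mul_pow, h6]
      have h9 : 0 ≤ ‖F n z₀‖ ^ 2 * ‖F n z‖ ^ 2 := by positivity
      linarith [mul_le_mul_of_nonneg_left h7 h9]
    exact abs_le_of_sq_le_sq' h8 (by positivity) |>.2
  set φ : ℕ → ℂ → EN N := fun n z => (((‖F n z₀‖ : ℝ) : ℂ) / inner ℂ (F n z₀) (F n z)) • F n z with hφ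
  have hev2 : ∀ᶠ n in (𝒰 : Filter ℕ), DifferentiableOn ℂ (F n) (ball z₀ r) ∧ DifferentiableOn ℂ (φ n) (ball z₀ r) ∧
      ∀ z ∈ ball z₀ r, F n z ∈ X ∧ (∃ c : ℂ, c ≠ 0 ∧ φ n z = c • F n z) ∧ ‖φ n z‖ ≤ 2 ∧ 1 ≤ ‖φ n z‖ := by
    filter_upwards [hev] with n h1
    obtain ⟨h1, h2⟩ := h1
    have hx0 : F n z₀ ≠ 0 := Lf_ne_zero hX (h2 z₀ hz₀).1
    have hxn : 0 < ‖F n z₀‖ := norm_pos_iff.mpr hx0
    have hin : ∀ z ∈ ball z₀ r, (inner ℂ (F n z₀) (F n z) : ℂ) ≠ 0 := by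
      intro z hz h
      have h3 := (h2 z hz).2
      have hyn : 0 < ‖F n z‖ := norm_pos_iff.mpr (Lf_ne_zero hX (h2 z hz).1)
      rw [h, norm_zero, mul_zero] at h3
      have : 0 < ‖F n z₀‖ * ‖F n z‖ := mul_pos hxn hyn
      linarith
    refine ⟨h1, ?_, fun z hz => ⟨(h2 z hz).1, ⟨_, ?_, rfl⟩, ?_, ?_⟩⟩
    · have h3 : DifferentiableOn ℂ (fun z => (inner ℂ (F n z₀) (F n z) : ℂ)) (ball z₀ r) :=
        (innerSL ℂ (F n z₀)).differentiable.comp_differentiableOn h1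
      have h4 : DifferentiableOn ℂ (fun z => ((‖F n z₀‖ : ℝ) : ℂ) / (inner ℂ (F n z₀) (F n z) : ℂ)) (ball z₀ r) :=
        (differentiableOn_const _).div h3 hin
      exact h4.smul h1
    · exact div_ne_zero (Complex.ofReal_ne_zero.mpr hxn.ne') (hin z hz)
    · have h3 := (h2 z hz).2
      have h4 : 0 < ‖(inner ℂ (F n z₀) (F n z) : ℂ)‖ := norm_pos_iff.mpr (hin z hz)
      simp only [hφ]
      rw [norm_smul, norm_div, Complex.norm_real, norm_norm, div_mul_eq_mul_div, div_le_iff₀ h4]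
      exact h3
    · have h4 : 0 < ‖(inner ℂ (F n z₀) (F n z) : ℂ)‖ := norm_pos_iff.mpr (hin z hz)
      simp only [hφ]
      rw [norm_smul, norm_div, Complex.norm_real, norm_norm, div_mul_eq_mul_div, le_div_iff₀ h4, one_mul]
      exact norm_inner_le_norm _ _
  obtain ⟨ψ, hψ, hconv⟩ := Pool.Agent.H17.montel_ultrafilter 𝒰 (F := φ) (a := z₀) (r := r) (B := 2)
    (hev2.mono fun n h => h.2.1) (hev2.mono fun n h z hz => ((h.2.2 z hz).2.2.1))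
  refine ⟨r, φ, ψ, hr0, hrr, hev2.mono fun n h => ⟨h.2.1, fun z hz => ⟨(h.2.2 z hz).1, (h.2.2 z hz).2.1⟩⟩, hψ, ?_, hconv⟩
  intro z hz
  have h1 : Tendsto (fun n => φ n z) 𝒰 (𝓝 (ψ z)) := hconv.tendsto_at hz
  have h2 : ψ z ∈ insert 0 X := by
    refine hX.closed.mem_of_tendsto h1 ?_
    filter_upwards [hev2] with n h
    obtain ⟨h3, ⟨c, hc, h4⟩, -⟩ := h.2.2 z hz
    rw [h4]
    exact Or.inr (hX.smul_mem _ h3 c hc)
  have h3 : 1 ≤ ‖ψ z‖ := by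
    refine ge_of_tendsto h1.norm ?_
    filter_upwards [hev2] with n h
    exact (h.2.2 z hz).2.2.2
  rcases h2 with h2 | h2
  · rw [h2, norm_zero] at h3
    linarith
  · exact h2

private theorem Lf_preconn (z₀ : ℂ) (ρ : ℝ) : IsPreconnected (ball z₀ ρ \ {z₀}) := by
  have h1 : IsPreconnected (Set.Ioo (0 : ℝ) ρ ×ˢ (Set.univ : Set ℝ)) := isPreconnected_Ioo.prod isPreconnected_univ
  have h2 := h1.image (fun p : ℝ × ℝ => z₀ + (p.1 : ℂ) * Complex.exp (p.2 * Complex.I))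
    (by fun_prop : Continuous fun p : ℝ × ℝ => z₀ + (p.1 : ℂ) * Complex.exp (p.2 * Complex.I)).continuousOn
  convert h2 using 1
  ext z
  constructor
  · rintro ⟨hz, hne⟩
    refine ⟨(‖z - z₀‖, Complex.arg (z - z₀)), ⟨⟨?_, ?_⟩, Set.mem_univ _⟩, ?_⟩
    · exact norm_pos_iff.2 (sub_ne_zero.2 hne)
    · simpa [dist_eq_norm] using hz
    · simp only
      rw [Complex.norm_mul_exp_arg_mul_I]
      ring
  · rintro ⟨⟨s, t⟩, ⟨⟨h3, h4⟩, _⟩, rfl⟩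
    have h5 : ‖(s : ℂ) * Complex.exp (t * Complex.I)‖ = s := by
      rw [norm_mul, Complex.norm_exp_ofReal_mul_I, mul_one, Complex.norm_real, Real.norm_of_nonneg h3.le]
    refine ⟨?_, ?_⟩
    · simp only [mem_ball, dist_eq_norm, add_sub_cancel_left]
      rw [h5]
      exact h4
    · intro h6
      have h7 : (s : ℂ) * Complex.exp (t * Complex.I) = 0 := by
        simpa using h6
      rw [h7, norm_zero] at h5
      simp only at h3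
      linarith

/-- open and closed parts of a preconnected set -/
private theorem Lf_dich {T V : Set ℂ} (hV : IsPreconnected V) (ho : ∀ z ∈ V, z ∈ T → ∀ᶠ w in 𝓝 z, w ∈ T)
    (hc : ∀ z ∈ V, z ∉ T → ∀ᶠ w in 𝓝 z, w ∉ T) : (∀ z ∈ V, z ∈ T) ∨ ∀ z ∈ V, z ∉ T := by
  by_cases h : ∃ z ∈ V, z ∈ T
  · left
    obtain ⟨z₁, hz₁, hz₁T⟩ := h
    have h1 : V ⊆ interior T := by
      refine hV.subset_of_closure_inter_subset isOpen_interior ⟨z₁, hz₁, mem_interior_iff_mem_nhds.2 (ho z₁ hz₁ hz₁T)⟩ ?_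
      rintro z ⟨hzc, hzV⟩
      rw [mem_interior_iff_mem_nhds]
      refine ho z hzV ?_
      by_contra hzT
      obtain ⟨W, hW, hWo, hzW⟩ := _root_.mem_nhds_iff.1 (hc z hzV hzT)
      obtain ⟨w, hwW, hwT⟩ := _root_.mem_closure_iff.1 hzc W hWo hzW
      exact hW hwW (interior_subset hwT)
    exact fun z hz => interior_subset (h1 hz)
  · right
    push Not at h
    exact h

theorem so_lift (E : LData X D P Λ Γ u B δ) {Ω : Set ℂ} (hΩ : IsOpen Ω) {f : ℂ → MN N} (hf : f ∈ SO X D Λ u B Ω) {z₀ : ℂ} (hz₀ : z₀ ∈ Ω)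
    (hz₀B : z₀ ∉ B) : ∃ (r : ℝ) (Ψ : ℂ → EN N), 0 < r ∧ ball z₀ r ⊆ Ω ∧ DifferentiableOn ℂ Ψ (ball z₀ r) ∧
      (∀ z ∈ ball z₀ r, z ∉ B ∧ Ψ z ∈ X ∧ u (Ψ z) - z ∈ Λ ∧ pr (Ψ z) = f z) ∧
      ((∀ z ∈ ball z₀ r, Ψ z ∈ D) ∨ ∀ z ∈ ball z₀ r, Ψ z ∉ D) ∧ ((∀ z ∈ ball z₀ r, Ψ z ∈ P) ∨ ∀ z ∈ ball z₀ r, Ψ z ∉ P) := by
  have hC : ∀ R : ℝ, IsCone (part X Λ u R) := fun R => E.toLFib.part_isCone R
  obtain ⟨δ₂, hδ₂, hzg⟩ := E.bad.exists_gd hz₀B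
  obtain ⟨s, hs, hsΩ⟩ := Metric.nhds_basis_closedBall.mem_iff.1 (hΩ.mem_nhds hz₀)
  set δ' : ℝ := min (δ₂ / 2) (s / 2) with hδ'
  have hδ'0 : 0 < δ' := lt_min (half_pos hδ₂) (half_pos hs)
  have hδ'1 : δ' ≤ δ₂ / 2 := min_le_left _ _
  have hδ'2 : δ' ≤ s / 2 := min_le_right _ _
  have hsub : ∀ z ∈ ball z₀ δ', z ∈ Gd B δ' := by
    intro z hz b hb
    have h1 := hzg b hb
    have h2 : ‖z - z₀‖ < δ' := by
      rw [← dist_eq_norm]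
      exact mem_ball.1 hz
    have h3 : ‖z₀ - b‖ ≤ ‖z - z₀‖ + ‖z - b‖ := by
      have h4 : z₀ - b = -(z - z₀) + (z - b) := by ring
      rw [h4]
      refine (norm_add_le _ _).trans ?_
      rw [norm_neg]
    linarith
  have hcl : ∀ z ∈ ball z₀ δ', closedBall z δ' ⊆ closedBall z₀ s := by
    intro z hz
    refine closedBall_subset_closedBall' ?_
    have h1 := mem_ball.1 hz
    linarith
  have hbs : ball z₀ δ' ⊆ closedBall z₀ s := fun z hz => hcl z hz (mem_closedBall_self hδ'0.le)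
  set R : ℝ := ‖z₀‖ + s with hR
  have hNb : ∀ z ∈ closedBall z₀ s, z ∈ Nb Λ R := by
    intro z hz
    refine nb_mono ?_ (mem_nb_norm z)
    have h1 : ‖z - z₀‖ ≤ s := by
      rw [← dist_eq_norm]
      exact mem_closedBall.1 hz
    have h2 : ‖z‖ ≤ ‖z₀‖ + ‖z - z₀‖ := by
      have h4 : z = z₀ + (z - z₀) := by ring
      conv_lhs => rw [h4]
      exact norm_add_le _ _
    linarith
  obtain ⟨L, hL0, hL⟩ := sec_boundL E.toLFib hδ'0 R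
  have hch : ∀ n : ℕ, ∃ F : ℂ → EN N, (∀ z ∈ closedBall z₀ s, SecAt X D Λ u F z) ∧
      ∀ z ∈ closedBall z₀ s, z ∈ Gd B δ' → dist (pr (F z)) (f z) < 1 / ((n : ℝ) + 1) := fun n =>
    hf (closedBall z₀ s) hsΩ (isCompact_closedBall z₀ s) δ' (1 / ((n : ℝ) + 1)) hδ'0 (by positivity)
  choose F hF hFd using hch
  have hFp : ∀ n, ∀ z ∈ closedBall z₀ s, F n z ∈ part X Λ u R := fun n z hz =>
    part_mem_of_val (hF n z hz).mem.1 (hNb z hz) (hF n z hz).mem.2.2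
  set 𝒰 : Ultrafilter ℕ := hyperfilter ℕ with h𝒰
  have h𝒰t : (𝒰 : Filter ℕ) ≤ atTop := Nat.hyperfilter_le_atTop
  obtain ⟨r, φ, ψ, hr, hrr, hev, hψd, hψX, hconv⟩ := Lf_local (hC R) hL0 𝒰 F (z₀ := z₀) hδ'0
    (Filter.Eventually.of_forall fun n => ⟨fun z hz => (hF n z (hbs hz)).1.differentiableAt.differentiableWithinAt,
      fun z hz => ⟨hFp n z (hbs hz), hL (F n) z (hsub z hz) (hNb z (hbs hz)) fun w hw => hF n w (hcl z hz hw)⟩⟩)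
  have hball : ball z₀ r ⊆ ball z₀ δ' := ball_subset_ball hrr
  have hbK : ball z₀ r ⊆ closedBall z₀ s := hball.trans hbs
  have hlimf : ∀ z ∈ ball z₀ r, Tendsto (fun n => pr (F n z)) 𝒰 (𝓝 (f z)) := by
    intro z hz
    have h1 : Tendsto (fun n : ℕ => 1 / ((n : ℝ) + 1)) 𝒰 (𝓝 0) := tendsto_one_div_add_atTop_nhds_zero_nat.mono_left h𝒰t
    rw [tendsto_iff_dist_tendsto_zero]
    exact squeeze_zero (fun n => dist_nonneg) (fun n => (hFd n z (hbK hz) (hsub z (hball hz))).le) h1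
  have hlimψ : ∀ z ∈ ball z₀ r, Tendsto (fun n => pr (F n z)) 𝒰 (𝓝 (pr (ψ z))) := by
    intro z hz
    have h1 : Tendsto (fun n => φ n z) 𝒰 (𝓝 (ψ z)) := hconv.tendsto_at hz
    have h2 : Tendsto (fun n => pr (φ n z)) 𝒰 (𝓝 (pr (ψ z))) :=
      (continuousAt_pr (Lf_ne_zero (hC R) (hψX z hz))).tendsto.comp h1
    refine h2.congr' ?_
    filter_upwards [hev] with n h
    obtain ⟨-, c, hc, h4⟩ := h.2 z hz
    rw [h4, pr_smul _ hc]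
  have hval : ∀ z ∈ ball z₀ r, u (ψ z) - z ∈ Λ := by
    intro z hz
    apply Dsc.mem_of_close E.dsc
    intro ε hε
    obtain ⟨δ₁, hδ₁, hδ2⟩ := E.toLFib.part_unif R hε
    have h1 : ∀ᶠ n in (𝒰 : Filter ℕ), dist (pr (F n z)) (pr (ψ z)) < δ₁ := Metric.tendsto_nhds.1 (hlimψ z hz) δ₁ hδ₁
    obtain ⟨n, hn1⟩ := h1.exists
    obtain ⟨l, hl, hl2⟩ := hδ2 (F n z) (hFp n z (hbK hz)) (ψ z) (hψX z hz) hn1
    refine ⟨(u (F n z) - z) - l, Λ.sub_mem ((hF n z (hbK hz)).mem.2.2) hl, ?_⟩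
    have h2 : u (ψ z) - z - ((u (F n z) - z) - l) = -(u (F n z) - u (ψ z) - l) := by ring
    rw [h2, norm_neg]
    exact hl2
  have hnB : ∀ z ∈ ball z₀ r, z ∉ B := fun z hz => gd_notMem hδ'0 (hsub z (hball hz))
  have hψc : ∀ z ∈ ball z₀ r, ContinuousAt ψ z := fun z hz => (hψd.differentiableAt (isOpen_ball.mem_nhds hz)).continuousAt
  have hD : (∀ z ∈ ball z₀ r, ψ z ∈ D) ∨ ∀ z ∈ ball z₀ r, ψ z ∉ D := by
    refine Lf_dich (T := ψ ⁻¹' D) (convex_ball z₀ r).isPreconnected ?_ ?_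
    · intro z hz hzD
      have hzD' : ψ z ∈ D := hzD
      obtain ⟨r₁, hr₁, hr₁s⟩ := Metric.isOpen_iff.1 isOpen_ball z hz
      have hor : HorAt X Λ u D (ψ z) (u (ψ z)) 1 := by
        refine E.hor (ψ z) hzD' ?_
        intro b hb hub
        have h1 : z - b ∈ Λ := by
          have h2 : z - b = (u (ψ z) - b) - (u (ψ z) - z) := by ring
          rw [h2]
          exact Λ.sub_mem hub (hval z hz)
        refine hnB z hz ?_
        have h3 := E.bad.inv b hb (z - b) h1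
        rwa [add_sub_cancel] at h3
      refine hor_hurwitz E.cone E.D_smul 𝒰 φ hr₁ hor ?_ (hψd.mono hr₁s) (fun w hw => (hψX w (hr₁s hw)).1)
        (hconv.mono hr₁s) hzD'
      filter_upwards [hev] with n h
      refine ⟨h.1.mono hr₁s, fun w hw => ?_⟩
      obtain ⟨hFX, c, hc, h4⟩ := h.2 w (hr₁s hw)
      have h5 := (hF n w (hbK (hr₁s hw))).mem
      refine ⟨?_, ?_⟩
      · rw [h4]
        exact E.cone.smul_mem _ hFX.1 c hc
      · intro h6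
        apply h5.2.1
        have h7 := E.D_smul _ h6 c⁻¹ (inv_ne_zero hc)
        rwa [h4, smul_smul, inv_mul_cancel₀ hc, one_smul] at h7
    · intro z hz hzD
      exact (hψc z hz).eventually (E.D_closed (ψ z) (hψX z hz).1 hzD)
  have hP : (∀ z ∈ ball z₀ r, ψ z ∈ P) ∨ ∀ z ∈ ball z₀ r, ψ z ∉ P := by
    rcases hD with hD | hD
    · refine Lf_dich (T := ψ ⁻¹' P) (convex_ball z₀ r).isPreconnected ?_ ?_
      · intro z hz hzP
        filter_upwards [(hψc z hz).eventually (E.P_open (ψ z) hzP), isOpen_ball.mem_nhds hz] with w hw hwb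
        exact hw (hD w hwb)
      · intro z hz hzP
        exact (hψc z hz).eventually (E.P_closed (ψ z) (hψX z hz).1 hzP)
    · exact Or.inr fun z hz h => hD z hz (E.P_sub h)
  exact ⟨r, ψ, hr, hbK.trans hsΩ, hψd, fun z hz => ⟨hnB z hz, (hψX z hz).1, hval z hz,
    tendsto_nhds_unique (hlimψ z hz) (hlimf z hz)⟩, hD, hP⟩

/-- the lift at one point -/
theorem so_lift_at (E : LData X D P Λ Γ u B δ) {Ω : Set ℂ} (hΩ : IsOpen Ω) {f : ℂ → MN N} (hf : f ∈ SO X D Λ u B Ω) {z : ℂ} (hz : z ∈ Ω)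
    (hzB : z ∉ B) : ∃ x ∈ X, u x - z ∈ Λ ∧ pr x = f z := by
  obtain ⟨r, Ψ, hr, -, -, h, -⟩ := so_lift E hΩ hf hz hzB
  obtain ⟨-, h1, h2, h3⟩ := h z (mem_ball_self hr)
  exact ⟨Ψ z, h1, h2, h3⟩

/-- the lift outside `P` -/
theorem so_liftV (E : LData X D P Λ Γ u B δ) {Ω : Set ℂ} (hΩ : IsOpen Ω) {f : ℂ → MN N} (hf : f ∈ SO X D Λ u B Ω) {z₀ : ℂ} (hz₀ : z₀ ∈ Ω)
    (hz₀B : z₀ ∉ B) (hP : f z₀ ∉ pr '' P) : ∃ (r : ℝ) (Ψ : ℂ → EN N), 0 < r ∧ ball z₀ r ⊆ Ω ∧ DifferentiableOn ℂ Ψ (ball z₀ r) ∧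
      ∀ z ∈ ball z₀ r, z ∉ B ∧ Ψ z ∈ X \ P ∧ u (Ψ z) - z ∈ Λ ∧ pr (Ψ z) = f z := by
  obtain ⟨r, Ψ, hr, hs, hd, h, -, hdP⟩ := so_lift E hΩ hf hz₀ hz₀B
  refine ⟨r, Ψ, hr, hs, hd, fun z hz => ?_⟩
  obtain ⟨h0, h1, h2, h3⟩ := h z hz
  refine ⟨h0, ⟨h1, ?_⟩, h2, h3⟩
  rcases hdP with h4 | h4
  · exact absurd ⟨Ψ z₀, h4 z₀ (mem_ball_self hr), (h z₀ (mem_ball_self hr)).2.2.2⟩ hP
  · exact h4 z hz

theorem so_cont (E : LData X D P Λ Γ u B δ) {Ω : Set ℂ} (hΩ : IsOpen Ω) {f : ℂ → MN N} (hf : f ∈ SO X D Λ u B Ω) {z₀ : ℂ} (hz₀ : z₀ ∈ Ω)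
    (hz₀B : z₀ ∉ B) : ContinuousAt f z₀ := by
  obtain ⟨r, Ψ, hr, -, hd, h, -⟩ := so_lift E hΩ hf hz₀ hz₀B
  have hb : ball z₀ r ∈ 𝓝 z₀ := isOpen_ball.mem_nhds (mem_ball_self hr)
  have h1 : ContinuousAt Ψ z₀ := (hd.differentiableAt hb).continuousAt
  have h2 : ContinuousAt (fun z => pr (Ψ z)) z₀ :=
    ContinuousAt.comp (f := Ψ) (continuousAt_pr (E.cone.ne_zero (h z₀ (mem_ball_self hr)).2.1)) h1
  refine h2.congr ?_
  filter_upwards [hb] with z hz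
  exact (h z hz).2.2.2

private theorem Lf_uniq_loc (E : LData X D P Λ Γ u B δ) {Ω : Set ℂ} (hΩ : IsOpen Ω) {f g : ℂ → MN N} (hf : f ∈ SO X D Λ u B Ω)
    (hg : g ∈ SO X D Λ u B Ω) {z₁ : ℂ} (hz₁Ω : z₁ ∈ Ω) (hz₁ : z₁ ∉ B) (h : ∃ᶠ z in 𝓝[≠] z₁, f z = g z) : ∀ᶠ z in 𝓝 z₁, f z = g z := by
  obtain ⟨r, Ψ, hr, -, hΨd, hΨ, -⟩ := so_lift E hΩ hf hz₁Ω hz₁
  obtain ⟨s, Φ, hs, -, hΦd, hΦ, -⟩ := so_lift E hΩ hg hz₁Ω hz₁
  have hbr : ball z₁ r ∈ 𝓝 z₁ := isOpen_ball.mem_nhds (mem_ball_self hr)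
  have hbs : ball z₁ s ∈ 𝓝 z₁ := isOpen_ball.mem_nhds (mem_ball_self hs)
  have hΨa : AnalyticAt ℂ Ψ z₁ := hΨd.analyticAt hbr
  have hΦa : AnalyticAt ℂ Φ z₁ := hΦd.analyticAt hbs
  have hco : ∀ (H : ℂ → EN N), AnalyticAt ℂ H z₁ → ∀ i, AnalyticAt ℂ (fun z => H z i) z₁ := by
    intro H hH i
    exact ((EuclideanSpace.proj (𝕜 := ℂ) i : EN N →L[ℂ] ℂ).analyticAt _).comp hH
  have hmin : ∀ i j, ∀ᶠ z in 𝓝 z₁, Ψ z i * Φ z j - Ψ z j * Φ z i = 0 := by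
    intro i j
    have ha : AnalyticAt ℂ (fun z => Ψ z i * Φ z j - Ψ z j * Φ z i) z₁ :=
      ((hco Ψ hΨa i).mul (hco Φ hΦa j)).sub ((hco Ψ hΨa j).mul (hco Φ hΦa i))
    refine ha.frequently_zero_iff_eventually_zero.1 ?_
    have h1 : ∀ᶠ z in 𝓝[≠] z₁, z ∈ ball z₁ r ∧ z ∈ ball z₁ s :=
      mem_nhdsWithin_of_mem_nhds (Filter.inter_mem hbr hbs)
    refine (h.and_eventually h1).mono ?_
    rintro z ⟨hfg, hzr, hzs⟩
    obtain ⟨-, hX1, -, h2⟩ := hΨ z hzr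
    obtain ⟨-, hX2, -, h3⟩ := hΦ z hzs
    have h4 : pr (Ψ z) = pr (Φ z) := by rw [h2, h3, hfg]
    obtain ⟨c, _, hc⟩ := (pr_eq_iff (E.cone.ne_zero hX1) (E.cone.ne_zero hX2)).1 h4
    have h5 : ∀ k, Ψ z k = c * Φ z k := by
      intro k
      rw [hc]
      simp
    rw [h5 i, h5 j]
    ring
  have hall : ∀ᶠ z in 𝓝 z₁, ∀ i j, Ψ z i * Φ z j - Ψ z j * Φ z i = 0 :=
    Filter.eventually_all.2 fun i => Filter.eventually_all.2 fun j => hmin i j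
  filter_upwards [hall, hbr, hbs] with z hz hzr hzs
  obtain ⟨-, hX1, -, h2⟩ := hΨ z hzr
  obtain ⟨-, hX2, -, h3⟩ := hΦ z hzs
  have h10 : Ψ z ≠ 0 := E.cone.ne_zero hX1
  have h20 : Φ z ≠ 0 := E.cone.ne_zero hX2
  obtain ⟨j, hj⟩ : ∃ j, Φ z j ≠ 0 := by
    by_contra hcon
    push Not at hcon
    apply h20
    ext k
    simpa using hcon k
  have hFc : Ψ z = (Ψ z j / Φ z j) • Φ z := by
    ext k
    have h1 := hz k j
    simp only [PiLp.smul_apply, smul_eq_mul]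
    field_simp
    linear_combination h1
  have hne : Ψ z j / Φ z j ≠ 0 := by
    intro h'
    rw [h', zero_smul] at hFc
    exact h10 hFc
  rw [← h2, ← h3]
  exact (pr_eq_iff h10 h20).2 ⟨_, hne, hFc⟩

/-- the bad set is discrete -/
private theorem Lf_sep (h : BadSet B Λ δ) (z : ℂ) : ∃ ρ : ℝ, 0 < ρ ∧ ∀ w ∈ ball z ρ, w ≠ z → w ∉ B := by
  by_cases hz : z ∈ B
  · refine ⟨8 * δ, by linarith [h.pos], fun w hw hwz hwB => ?_⟩
    have h1 := h.sep w hwB z hz hwz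
    have h2 := mem_ball.1 hw
    rw [dist_eq_norm] at h2
    linarith
  · obtain ⟨δ', hδ', hg⟩ := h.exists_gd hz
    refine ⟨δ', hδ', fun w hw _ hwB => ?_⟩
    have h1 := hg w hwB
    have h2 := mem_ball.1 hw
    rw [dist_comm, dist_eq_norm] at h2
    linarith

theorem so_uniq (E : LData X D P Λ Γ u B δ) {Ω : Set ℂ} (hΩ : IsOpen Ω) (hc : Convex ℝ Ω) {f g : ℂ → MN N} (hf : f ∈ SO X D Λ u B Ω)
    (hg : g ∈ SO X D Λ u B Ω) {z₀ : ℂ} (hz₀ : z₀ ∈ Ω) (hz₀B : z₀ ∉ B) (h : ∃ᶠ z in 𝓝[≠] z₀, f z = g z) : ∀ z ∈ Ω, z ∉ B → f z = g z := by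
  have hloc : ∀ z ∈ Ω, z ∉ B → (∃ᶠ w in 𝓝[≠] z, f w = g w) → ∀ᶠ w in 𝓝 z, f w = g w := fun z hz hzB hh =>
    Lf_uniq_loc E hΩ hf hg hz hzB hh
  set T : Set ℂ := {z | ∀ᶠ w in 𝓝[≠] z, f w = g w} with hT
  have hTo : ∀ z ∈ T, ∀ᶠ w in 𝓝 z, w ≠ z → ∀ᶠ y in 𝓝 w, f y = g y := by
    intro z hz
    have h1 : ∀ᶠ w in 𝓝 z, w ≠ z → f w = g w := eventually_nhdsWithin_iff.1 hz
    filter_upwards [h1.eventually_nhds] with w hw hwz
    filter_upwards [hw, isOpen_ne.mem_nhds hwz] with y hy hyz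
    exact hy hyz
  have hTopen : ∀ z ∈ T, ∀ᶠ w in 𝓝 z, w ∈ T := by
    intro z hz
    filter_upwards [hTo z hz] with w hw
    by_cases hwz : w = z
    · rw [hwz]
      exact hz
    · exact nhdsWithin_le_nhds (hw hwz)
  have hTcl : ∀ z ∈ Ω, z ∈ closure T → z ∈ T := by
    intro z hz hzc
    obtain ⟨ρ₁, hρ₁, hρ₁B⟩ := Lf_sep E.bad z
    obtain ⟨ρ₂, hρ₂, hρ₂Ω⟩ := Metric.isOpen_iff.1 hΩ z hz
    set ρ : ℝ := min ρ₁ ρ₂ with hρ
    have hρ0 : 0 < ρ := lt_min hρ₁ hρ₂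
    have hV1 : ∀ w ∈ ball z ρ \ {z}, w ∈ Ω ∧ w ∉ B := fun w hw =>
      ⟨hρ₂Ω (ball_subset_ball (min_le_right _ _) hw.1), hρ₁B w (ball_subset_ball (min_le_left _ _) hw.1) hw.2⟩
    obtain ⟨t, htb, htT⟩ := _root_.mem_closure_iff.1 hzc (ball z ρ) isOpen_ball (mem_ball_self hρ0)
    -- a point of the punctured ball
    have ht' : ∃ t' ∈ ball z ρ \ {z}, ∀ᶠ y in 𝓝 t', f y = g y := by
      have h1 : ∀ᶠ w in 𝓝[≠] t, ∀ᶠ y in 𝓝 w, f y = g y := by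
        filter_upwards [mem_nhdsWithin_of_mem_nhds (hTo t htT), self_mem_nhdsWithin] with w hw hwt
        exact hw hwt
      have h2 : ∀ᶠ w in 𝓝[≠] t, w ∈ ball z ρ := mem_nhdsWithin_of_mem_nhds (isOpen_ball.mem_nhds htb)
      have h3 : ∀ᶠ w in 𝓝[≠] t, w ≠ z := by
        by_cases htz : t = z
        · rw [← htz]
          exact self_mem_nhdsWithin
        · exact mem_nhdsWithin_of_mem_nhds (isOpen_ne.mem_nhds htz)
      obtain ⟨w, hw1, hw2, hw3⟩ := (h1.and (h2.and h3)).exists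
      exact ⟨w, ⟨hw2, hw3⟩, hw1⟩
    obtain ⟨t', ht'V, ht'⟩ := ht'
    have hdich := Lf_dich (T := {y | ∀ᶠ x in 𝓝 y, f x = g x}) (Lf_preconn z ρ) (fun y _ hy => Filter.Eventually.eventually_nhds hy) ?_
    · rcases hdich with h1 | h1
      · have h2 : ball z ρ ∈ 𝓝 z := isOpen_ball.mem_nhds (mem_ball_self hρ0)
        show ∀ᶠ w in 𝓝[≠] z, f w = g w
        filter_upwards [mem_nhdsWithin_of_mem_nhds h2, self_mem_nhdsWithin] with w hw hwz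
        have h3 : ∀ᶠ x in 𝓝 w, f x = g x := h1 w ⟨hw, hwz⟩
        exact h3.self_of_nhds
      · exact absurd ht' (h1 t' ht'V)
    · intro y hy hyT
      obtain ⟨hyΩ, hyB⟩ := hV1 y hy
      have h1 : ¬ ∃ᶠ w in 𝓝[≠] y, f w = g w := fun hfr => hyT (hloc y hyΩ hyB hfr)
      rw [Filter.not_frequently, eventually_nhdsWithin_iff] at h1
      filter_upwards [h1.eventually_nhds] with w hw hwT
      have hwT' : ∀ᶠ x in 𝓝 w, f x = g x := hwT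
      have h2 : ∀ᶠ x in 𝓝[≠] w, x ≠ y := by
        by_cases hwy : w = y
        · rw [← hwy]
          exact self_mem_nhdsWithin
        · exact mem_nhdsWithin_of_mem_nhds (isOpen_ne.mem_nhds hwy)
      have h3 : ∀ᶠ x in 𝓝[≠] w, x ∈ ({y}ᶜ : Set ℂ) → ¬ f x = g x := mem_nhdsWithin_of_mem_nhds hw
      have h4 : ∀ᶠ x in 𝓝[≠] w, f x = g x := mem_nhdsWithin_of_mem_nhds hwT'
      obtain ⟨x, hx1, hx2, hx3⟩ := (h2.and (h3.and h4)).exists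
      exact hx2 hx1 hx3
  have hz₀T : z₀ ∈ T := nhdsWithin_le_nhds (hloc z₀ hz₀ hz₀B h)
  have hall : ∀ z ∈ Ω, z ∈ T := by
    have h1 := Lf_dich (T := T) hc.isPreconnected (fun z _ hzT => hTopen z hzT) ?_
    · rcases h1 with h2 | h2
      · exact h2
      · exact absurd hz₀T (h2 z₀ hz₀)
    · intro z hz hzT
      have h2 : z ∉ closure T := fun h3 => hzT (hTcl z hz h3)
      filter_upwards [isClosed_closure.isOpen_compl.mem_nhds h2] with w hw hwT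
      exact hw (subset_closure hwT)
  intro z hz hzB
  have h1 : ∀ᶠ w in 𝓝[≠] z, f w = g w := hall z hz
  exact (hloc z hz hzB h1.frequently).self_of_nhds

end Pool.Agent.H18.LU

end

section

/-!
# LU JnL: properties of the integral

`II_contO`: `II_eqO` for the two pairs: `IRel` gives lifts in `V` over `z` of the four points; for `y₁` near `y` (`dist y₁ y + ε ≤ r`) both values are `(A (χ.q x') - A (χ.q x)) / ρ` (`A` a primitive, `exists_prim`);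
`χ.q` of the lifts depends continuously on `pr` (the private lemma `tendsto_q` of EL Jan, copy it; `dist y' y ≤ ε < r`, so the lift of `y'` is in `χ.U`, by `Cap.cap`), `A` is continuous.
`II_analyticL`: port of `II_analytic` (EL Jan): lifts in `V` from `so_liftV` (`f z₀ ∉ pr '' P` because of `hrel` at `z₀`: `f z₀ = pr (χ'.σ p)`, `χ'.σ p ∈ V = X \ P`, and `P` is a cone; same for `g`).
`II_bddL`: `so_unif` with `Q s z y := ∀ y', ‖II α ε z y y'‖ ≤ 1 / s`; translation: `II_per` (EL JanA; `E.vTor`).  `hloc` at `(f, w)`: `hcap` at `w` for `f ∈ SO univ ⊆ SO (ball w r₁)`: `Cap` of radius `r > ε`, primitive `A`, bounded by `M`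
on `closedBall 0 1`.  For `z ∈ closedBall w s`, `dist y (f w) ≤ s`, `s ≤ r - ε` small: if there is no `v` with `IRel`, `II = 0`; otherwise `II_eqO`: both lifts have `χ.q _ ∈ closedBall 0 1` (`Cap.cap`; `dist y' (f w) ≤ ε + s ≤ r`):
`‖II‖ ≤ 2 M / ρ ≤ 1 / s` for `s` small.
-/

set_option autoImplicit false

open Topology Filter Metric

namespace Pool.Agent.H18.LU

attribute [-instance] ProperSMul.toContinuousSMul

open Pool.Agent.H36.BP (EN fs wd IsGermChart)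
open Pool.Agent.H14.PP (IsCone Chart Tan CurveAt)
open Pool.Agent.H62.EF (Lat MN pr TorusMap Sec Charts DU)
open Pool.Agent.H62.EL (Gd Ag BadSet IsNC TForm Mon mo Cap IRel II tc IsPrim Per)

variable {N : ℕ} {X D P : Set (EN N)} {Λ Γ : AddSubgroup ℂ} {u : EN N → ℂ} {B : Set ℂ} {δ : ℝ}

/-- uniform charts -/
def HasCap (X D P : Set (EN N)) (Λ : AddSubgroup ℂ) (u : EN N → ℂ) (B : Set ℂ) (δ' R r₁ r : ℝ) : Prop :=
  ∀ z ∈ Gd B δ', z ∈ Nb Λ R → ∀ f ∈ SO X D Λ u B (ball z r₁), ∃ (χ : Chart (X \ P)) (c : ℂ) (ρ : ℝ), Cap Λ u χ c ρ z (f z) r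

/-- near points are joined by short paths -/
def HasRel (D : Set (EN N)) (B : Set ℂ) (α : TForm (X \ P) Λ u) (δ' R r₁ ε ε₀ : ℝ) : Prop :=
  ∀ z ∈ Gd B δ', z ∈ Nb Λ R → ∀ f ∈ SO X D Λ u B (ball z r₁), ∀ x ∈ X \ P, u x - z ∈ Λ → dist (f z) (pr x) ≤ ε₀ →
    ∃ v, IRel α ε z (f z) (pr x) v

theorem JnL_lifts {V : Set (EN N)} {α : TForm V Λ u} {ε : ℝ} {z v : ℂ} {y y' : MN N} (h : IRel α ε z y y' v) :
    (∃ x ∈ V, u x - z ∈ Λ ∧ pr x = y) ∧ (∃ x ∈ V, u x - z ∈ Λ ∧ pr x = y') ∧ 0 ≤ ε ∧ dist y' y ≤ ε := by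
  obtain ⟨χ, c, ρ, A, p, p', hm, -, hp, hp', hpz, hpz', hy, hy', hθ, -⟩ := h
  have hmo : ∀ q : ℂ × ℂ, mo c ρ 1 0 q = c + ρ * q.1 := by
    intro q
    simp [mo]
  refine ⟨⟨χ.σ p, (χ.σ_mem p hp).1, ?_, hy⟩, ⟨χ.σ p', (χ.σ_mem p' hp').1, ?_, hy'⟩, ?_, ?_⟩
  · have h1 := hm.lift p hp
    rwa [hmo, hpz] at h1
  · have h1 := hm.lift p' hp'
    rwa [hmo, hpz'] at h1
  · exact dist_nonneg.trans (hθ 0 ⟨le_refl _, zero_le_one⟩)
  · have h1 := hθ 1 ⟨zero_le_one, le_refl _⟩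
    have h2 : p + ((1 : ℝ) : ℂ) • (p' - p) = p' := by
      rw [Complex.ofReal_one, one_smul]
      abel
    rw [h2, hy'] at h1
    exact h1

private theorem JnL_q {V : Set (EN N)} (χ : Chart V) {x : EN N} (hx : x ∈ χ.U) (hx0 : x ≠ 0) {W : Set (ℂ × ℂ)} (hW : W ∈ 𝓝 (χ.q x)) :
    ∃ κ : ℝ, 0 < κ ∧ ∀ y : EN N, y ≠ 0 → dist (pr y) (pr x) < κ → χ.q y ∈ W := by
  have hU : χ.U ∩ χ.q ⁻¹' W ∈ 𝓝 x := inter_mem (χ.isOpen_U.mem_nhds hx) ((χ.q_an x hx).continuousAt hW)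
  obtain ⟨δ, hδ, hn⟩ := Pool.Agent.H62.EF.near_of_pr hx0 hU
  refine ⟨δ, hδ, fun y h2 h3 => ?_⟩
  obtain ⟨c, hc, h4, h5⟩ := hn y h2 h3
  have h6 : y ∈ χ.U := by
    have := χ.smul_U _ h4 c⁻¹ (inv_ne_zero hc)
    rwa [smul_smul, inv_mul_cancel₀ hc, one_smul] at this
  have h7 : χ.q (c • y) ∈ W := h5
  rw [χ.q_smul _ h6 c hc] at h7
  exact h7

theorem JnL_sub : closedBall (0 : ℂ × ℂ) 1 ⊆ ball (0 : ℂ × ℂ) 2 := closedBall_subset_ball (by norm_num)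

theorem II_contO {V : Set (EN N)} (hV : OCone V) (hu : TorusMap V Λ u) (hΛ : Dsc Λ) {α : TForm V Λ u} {ε r : ℝ} {z : ℂ} {y y' : MN N}
    {χ : Chart V} {c : ℂ} {ρ : ℝ} (hc : Cap Λ u χ c ρ z y r) (hr : ε < r) (h : ∃ v, IRel α ε z y y' v) {η : ℝ} (hη : 0 < η) :
    ∃ κ : ℝ, 0 < κ ∧ ∀ y₁ y₁' : MN N, dist y₁ y < κ → dist y₁' y' < κ → (∃ v, IRel α ε z y₁ y₁' v) →
      dist (II α ε z y₁ y₁') (II α ε z y y') < η := by
  obtain ⟨A, hA⟩ := Pool.Agent.H62.EL.exists_prim α χ hc.mon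
  obtain ⟨v₀, hv₀⟩ := h
  obtain ⟨⟨x, hxV, hxu, hxy⟩, ⟨x', hxV', hxu', hxy'⟩, hε, hyy⟩ := JnL_lifts hv₀
  have hr0 : 0 < r := lt_of_le_of_lt hε hr
  have hzr : z ∈ closedBall z r := mem_closedBall_self hr0.le
  have hρ := hc.mon.pos
  obtain ⟨hU, hq, -⟩ := hc.cap z hzr x hxV hxu (by rw [hxy, dist_self]; exact hr0.le)
  obtain ⟨hU', hq', -⟩ := hc.cap z hzr x' hxV' hxu' (by rw [hxy']; exact hyy.trans hr.le)
  have hηρ : 0 < η * ρ / 2 := by positivity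
  have w1 : {p : ℂ × ℂ | dist (A p) (A (χ.q x)) < η * ρ / 2} ∈ 𝓝 (χ.q x) :=
    (hA.an _ (JnL_sub hq)).continuousAt.eventually (ball_mem_nhds _ hηρ)
  have w2 : {p : ℂ × ℂ | dist (A p) (A (χ.q x')) < η * ρ / 2} ∈ 𝓝 (χ.q x') :=
    (hA.an _ (JnL_sub hq')).continuousAt.eventually (ball_mem_nhds _ hηρ)
  obtain ⟨κ₁, hκ₁, k1⟩ := JnL_q χ hU (hV.ne_zero hxV) w1
  obtain ⟨κ₂, hκ₂, k2⟩ := JnL_q χ hU' (hV.ne_zero hxV') w2
  refine ⟨min (min κ₁ κ₂) (r - ε), lt_min (lt_min hκ₁ hκ₂) (by linarith), ?_⟩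
  intro y₁ y₁' h1 h2 h3
  have h11 : dist y₁ y < κ₁ := lt_of_lt_of_le h1 ((min_le_left _ _).trans (min_le_left _ _))
  have h12 : dist y₁ y < r - ε := lt_of_lt_of_le h1 (min_le_right _ _)
  have h21 : dist y₁' y' < κ₂ := lt_of_lt_of_le h2 ((min_le_left _ _).trans (min_le_right _ _))
  obtain ⟨⟨x₁, hx₁V, hx₁u, hx₁y⟩, ⟨x₁', hx₁V', hx₁u', hx₁y'⟩, -, -⟩ := JnL_lifts h3.choose_spec
  have e1 := II_eqO hV hu hΛ ⟨v₀, hv₀⟩ hc hA hzr (by rw [dist_self]; linarith) hxV hxV' hxy hxy'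
  have e2 := II_eqO hV hu hΛ h3 hc hA hzr (by linarith) hx₁V hx₁V' hx₁y hx₁y'
  have d1 : dist (A (χ.q x₁)) (A (χ.q x)) < η * ρ / 2 := k1 x₁ (hV.ne_zero hx₁V) (by rw [hx₁y, hxy]; exact h11)
  have d2 : dist (A (χ.q x₁')) (A (χ.q x')) < η * ρ / 2 := k2 x₁' (hV.ne_zero hx₁V') (by rw [hx₁y', hxy']; exact h21)
  rw [e1, e2, dist_eq_norm, ← sub_div, norm_div, Complex.norm_real, Real.norm_of_nonneg hρ.le, div_lt_iff₀ hρ]
  rw [dist_eq_norm] at d1 d2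
  have e3 : A (χ.q x₁') - A (χ.q x₁) - (A (χ.q x') - A (χ.q x)) = (A (χ.q x₁') - A (χ.q x')) - (A (χ.q x₁) - A (χ.q x)) := by ring
  rw [e3]
  have e4 := norm_sub_le (A (χ.q x₁') - A (χ.q x')) (A (χ.q x₁) - A (χ.q x))
  linarith

private theorem JnL_notP (E : LData X D P Λ Γ u B δ) {x : EN N} (hx : x ∈ X \ P) : pr x ∉ pr '' P := by
  rintro ⟨x', hx', h⟩
  have hX := E.cone
  have hx'0 : x' ≠ 0 := hX.ne_zero (E.D_sub (E.P_sub hx'))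
  obtain ⟨c, hc, e⟩ := (Pool.Agent.H62.EF.pr_eq_iff (hX.ne_zero hx.1) hx'0).1 h.symm
  exact hx.2 (by rw [e]; exact E.P_smul x' hx' c hc)

theorem II_analyticL (E : LData X D P Λ Γ u B δ) {α : TForm (X \ P) Λ u} {ε r : ℝ} {Ω : Set ℂ} (hΩ : IsOpen Ω) {f g : ℂ → MN N}
    (hf : f ∈ SO X D Λ u B Ω) (hg : g ∈ SO X D Λ u B Ω) {z₀ : ℂ} (hz₀ : z₀ ∈ Ω) (hz₀B : z₀ ∉ B) {χ : Chart (X \ P)} {c : ℂ} {ρ : ℝ}
    (hc : Cap Λ u χ c ρ z₀ (f z₀) r) (hr : ε < r) (hrel : ∀ᶠ z in 𝓝 z₀, ∃ v, IRel α ε z (f z) (g z) v) :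
    AnalyticAt ℂ (fun z => II α ε z (f z) (g z)) z₀ := by
  obtain ⟨v₀, hv₀⟩ := hrel.self_of_nhds
  obtain ⟨⟨a, haV, hau, haf⟩, ⟨b, hbV, hbu, hbg⟩, hε, hfg⟩ := JnL_lifts hv₀
  obtain ⟨r₁, Ψ, hr₁, -, hΨ, hΨ'⟩ := so_liftV E hΩ hf hz₀ hz₀B (by rw [← haf]; exact JnL_notP E haV)
  obtain ⟨r₂, Φ, hr₂, -, hΦ, hΦ'⟩ := so_liftV E hΩ hg hz₀ hz₀B (by rw [← hbg]; exact JnL_notP E hbV)
  obtain ⟨A, hA⟩ := Pool.Agent.H62.EL.exists_prim α χ hc.mon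
  have hr0 : 0 < r := lt_of_le_of_lt hε hr
  have hV := E.vCone
  obtain ⟨-, hΨX, hΨu, hΨf⟩ := hΨ' z₀ (mem_ball_self hr₁)
  obtain ⟨-, hΦX, hΦu, hΦg⟩ := hΦ' z₀ (mem_ball_self hr₂)
  have hz₀r : z₀ ∈ closedBall z₀ r := mem_closedBall_self hr0.le
  obtain ⟨hΨU, hΨq, -⟩ := hc.cap z₀ hz₀r (Ψ z₀) hΨX hΨu (by rw [hΨf, dist_self]; exact hr0.le)
  obtain ⟨hΦU, hΦq, -⟩ := hc.cap z₀ hz₀r (Φ z₀) hΦX hΦu (by rw [hΦg]; exact hfg.trans hr.le)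
  have hΨa : AnalyticAt ℂ Ψ z₀ := hΨ.analyticAt (ball_mem_nhds _ hr₁)
  have hΦa : AnalyticAt ℂ Φ z₀ := hΦ.analyticAt (ball_mem_nhds _ hr₂)
  have a1 : AnalyticAt ℂ (fun z => A (χ.q (Ψ z))) z₀ :=
    AnalyticAt.comp (f := fun z => χ.q (Ψ z)) (g := A) (hA.an _ (JnL_sub hΨq))
      (AnalyticAt.comp (f := Ψ) (g := χ.q) (χ.q_an _ hΨU) hΨa)
  have a2 : AnalyticAt ℂ (fun z => A (χ.q (Φ z))) z₀ :=
    AnalyticAt.comp (f := fun z => χ.q (Φ z)) (g := A) (hA.an _ (JnL_sub hΦq))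
      (AnalyticAt.comp (f := Φ) (g := χ.q) (χ.q_an _ hΦU) hΦa)
  have hρ : (ρ : ℂ) ≠ 0 := by
    have := hc.mon.pos
    exact_mod_cast this.ne'
  have a3 : AnalyticAt ℂ (fun z => (A (χ.q (Φ z)) - A (χ.q (Ψ z))) / (ρ : ℂ)) z₀ := (a2.sub a1).div analyticAt_const hρ
  refine a3.congr ?_
  have e1 : ∀ᶠ z in 𝓝 z₀, z ∈ ball z₀ r₁ := ball_mem_nhds _ hr₁
  have e2 : ∀ᶠ z in 𝓝 z₀, z ∈ ball z₀ r₂ := ball_mem_nhds _ hr₂
  have e3 : ∀ᶠ z in 𝓝 z₀, z ∈ closedBall z₀ r := closedBall_mem_nhds _ hr0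
  have e4 : ∀ᶠ z in 𝓝 z₀, dist (pr (Ψ z)) (pr (Ψ z₀)) < r - ε := by
    have h1 : ContinuousAt (fun z => pr (Ψ z)) z₀ := ContinuousAt.comp (f := Ψ) (g := pr)
      (Pool.Agent.H62.EF.continuousAt_pr (hV.ne_zero hΨX)) hΨa.continuousAt
    exact h1.eventually (ball_mem_nhds _ (by linarith))
  filter_upwards [e1, e2, e3, e4, hrel] with z h1 h2 h3 h4 h5
  obtain ⟨-, k1, -, k3⟩ := hΨ' z h1
  obtain ⟨-, m1, -, m3⟩ := hΦ' z h2
  have h6 : dist (f z) (f z₀) + ε ≤ r := by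
    rw [k3, hΨf] at h4
    linarith
  exact (II_eqO hV E.vTor E.dsc h5 hc hA h3 h6 k1 m1 k3 m3).symm

end Pool.Agent.H18.LU

end

section

/-!
# LU Pe: the limits over `ℂ` are not in `P`

`pe_near`: `P` near a bad fibre.  Let `b ∈ B`, `e` with local lifts in `P` outside `B`.  Let `z n → b`, `z n ∉ B`, along an ultrafilter; `e (z n)` has the limit `y` (compactness: `so_mem`-like: the values are in
`pr '' part X Λ u R`, compact), `y = pr x`, `x ∈ X`, `u x - b ∈ Λ` (`part_unif`), `x ∈ P` (`P_closed`, `pr_closed`).  `HorAt X Λ u P x b i` (`horP`), `σ`, `τ`.  There are small `r₀, ρ₀ > 0` such that: `σ` is analytic on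
`ball 0 (2 r₀)`, `σ p ∈ P ↔ p.2 = 0`, `u (σ p) - (b + p.1 ^ i) ∈ Λ`, `τ (σ p) = p` there; the set `U₀ = {a • σ p : a ≠ 0, ‖p‖ < r₀}` contains all `y ∈ X` with `dist (pr y) (pr x) < η₀`
(`IsGermChart.right`, `near_of_pr`), `Λ` has no nonzero element of norm `< 3 r₀`, `ρ₀ < (r₀ / 2) ^ i`, `ball b ρ₀ ∩ B = {b}`.  Let `A = {z | 0 < ‖z - b‖ < ρ₀, e z = pr (σ (s, 0)) for some ‖s‖ < r₀}`; there `s ^ i = z - b` (both
are small and congruent modulo `Λ`), so `‖s‖ < r₀/2`.  `A` is nonempty (`z n`).  `A` is closed in the punctured disc: `z k → z'`, `s k` bounded by `r₀/2`, a limit point `s'`, `e z' = pr (σ (s', 0))` by continuity.  `A` is open: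
at `z' ∈ A` the lift `Ψ z ∈ P` of `e` near `z'` is near a multiple of `σ (s', 0)`, so it is `a • σ p`, `p = τ (..)` near `(s', 0)`, `p.2 = 0` (it is in `P`).  The punctured disc is connected, so `A` is the punctured disc.
`s z = (τ (..)).1` is holomorphic there (locally `τ` of the normalised lift; `s` is unique because `τ (σ p) = p`, `pr` determines the point up to a factor and `τ (c • σ p) = p` for these `c`: use the scale invariant charts of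
`exists_small_chartO`: `χ.q`), bounded, `s ^ i = z - b`; it extends to `b` with `s b = 0`, and `i = 1` (order of the zero).  So `s z = z - b` and `e z = pr (σ (z - b, 0))` for `0 < ‖z - b‖ < ρ₀`.
(It is convenient to use the chart `χ` of `exists_small_chartO` at `x` instead of `σ, τ`: `χ.σ p = a • σ (r p)`.)

`pe_entire`: local lifts in `P` at all points of `ℂ` (at `b ∈ B`: `z ↦ σ (z - b, 0)`, which also satisfies `u (..) - z ∈ Λ`); define `e' b = pr (σ (0, 0))` at the points of `B`; the global lift as in part (b) of the proof of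
`limit_curves` (EF LimL: `HolomorphicInto`, `exists_global_lift`): an entire `F` without zeros with `pr (F z) = e' z`; `F z ∈ P` (`P_smul`, `pr_eq_iff`), `u (F z) - z ∈ Λ` (`TorusMap.smul`): contradiction to `noP`.

`so_notP`: `f ∈ SO univ`.  The set `{z ∉ B | f z ∈ pr '' P}` is open and closed in `Bᶜ` (`so_lift`, the last dichotomy; if `f z₁ = pr x`, `x ∈ P`, then the lift `Ψ z₁` is a multiple of `x`, in `P`), `Bᶜ` is connected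
(`B` countable).  If it is not empty then `f` has local lifts in `P` at all points of `Bᶜ`: `pe_entire`.
-/

set_option autoImplicit false

open Topology Filter Metric

namespace Pool.Agent.H18.LU

attribute [-instance] ProperSMul.toContinuousSMul

open Pool.Agent.H36.BP (EN fs wd IsGermChart)
open Pool.Agent.H14.PP (IsCone Chart Tan CurveAt)
open Pool.Agent.H62.EF (Lat MN pr TorusMap Sec Charts DU)
open Pool.Agent.H62.EL (Gd Ag BadSet IsNC TForm)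

variable {N : ℕ} {X D P : Set (EN N)} {Λ Γ : AddSubgroup ℂ} {u : EN N → ℂ} {B : Set ℂ} {δ : ℝ}

theorem so_notP (E : LData X D P Λ Γ u B δ) {f : ℂ → MN N} (hf : f ∈ SO X D Λ u B Set.univ) {z : ℂ} (hz : z ∉ B) : f z ∉ pr '' P := by
  intro hzP
  have hPX : P ⊆ X := fun y hy => E.D_sub (E.P_sub hy)
  have hP0 : ∀ y ∈ P, y ≠ 0 := fun y hy => E.cone.ne_zero (hPX hy)
  have hloc : ∀ z₀, z₀ ∉ B → ∃ (r : ℝ) (Ψ : ℂ → EN N), 0 < r ∧ DifferentiableOn ℂ Ψ (ball z₀ r) ∧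
      (∀ z ∈ ball z₀ r, z ∉ B ∧ u (Ψ z) - z ∈ Λ ∧ pr (Ψ z) = f z) ∧
      (((∀ z ∈ ball z₀ r, Ψ z ∈ P) ∧ ∀ z ∈ ball z₀ r, f z ∈ pr '' P) ∨ ∀ z ∈ ball z₀ r, f z ∉ pr '' P) := by
    intro z₀ hz₀
    obtain ⟨r, Ψ, hr, -, hΨ, h1, -, h2⟩ := so_lift E isOpen_univ hf (Set.mem_univ z₀) hz₀
    refine ⟨r, Ψ, hr, hΨ, fun w hw => ⟨(h1 w hw).1, (h1 w hw).2.2⟩, ?_⟩
    rcases h2 with h2 | h2
    · exact Or.inl ⟨h2, fun w hw => ⟨Ψ w, h2 w hw, (h1 w hw).2.2.2⟩⟩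
    · refine Or.inr fun w hw => ?_
      rintro ⟨y, hy, h3⟩
      obtain ⟨-, h4, -, h5⟩ := h1 w hw
      obtain ⟨c, hc, h6⟩ := (Pool.Agent.H62.EF.pr_eq_iff (E.cone.ne_zero h4) (hP0 y hy)).1 (h5.trans h3.symm)
      exact h2 w hw (h6 ▸ E.P_smul y hy c hc)
  have hcon : IsPreconnected (Bᶜ : Set ℂ) := by
    have h1 : 1 < Module.rank ℝ ℂ := by
      rw [Complex.rank_real_complex]
      exact Cardinal.one_lt_two
    exact ((Pe_countable E.bad).isPathConnected_compl_of_one_lt_rank h1).isConnected.isPreconnected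
  set U1 : Set ℂ := {w | w ∉ B ∧ f w ∈ pr '' P} with hU1
  set U2 : Set ℂ := {w | w ∉ B ∧ f w ∉ pr '' P} with hU2
  have ho1 : IsOpen U1 := by
    rw [isOpen_iff_mem_nhds]
    rintro w ⟨hw, hwP⟩
    obtain ⟨r, Ψ, hr, -, h1, h2⟩ := hloc w hw
    rcases h2 with ⟨-, h2⟩ | h2
    · filter_upwards [isOpen_ball.mem_nhds (mem_ball_self hr)] with v hv
      exact ⟨(h1 v hv).1, h2 v hv⟩
    · exact absurd hwP (h2 w (mem_ball_self hr))
  have ho2 : IsOpen U2 := by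
    rw [isOpen_iff_mem_nhds]
    rintro w ⟨hw, hwP⟩
    obtain ⟨r, Ψ, hr, -, h1, h2⟩ := hloc w hw
    rcases h2 with ⟨-, h2⟩ | h2
    · exact absurd (h2 w (mem_ball_self hr)) hwP
    · filter_upwards [isOpen_ball.mem_nhds (mem_ball_self hr)] with v hv
      exact ⟨(h1 v hv).1, h2 v hv⟩
  have hdis : Disjoint U1 U2 := by
    rw [Set.disjoint_left]
    rintro w ⟨-, h1⟩ ⟨-, h2⟩
    exact h2 h1
  have hcov : (Bᶜ : Set ℂ) ⊆ U1 ∪ U2 := by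
    intro w hw
    by_cases h : f w ∈ pr '' P
    · exact Or.inl ⟨hw, h⟩
    · exact Or.inr ⟨hw, h⟩
  have hsub := hcon.subset_left_of_subset_union ho1 ho2 hdis hcov ⟨z, hz, hz, hzP⟩
  refine pe_entire E (e := f) fun z₀ hz₀ => ?_
  obtain ⟨r, Ψ, hr, hΨ, h1, h2⟩ := hloc z₀ hz₀
  rcases h2 with ⟨h2, -⟩ | h2
  · exact ⟨r, Ψ, hr, hΨ, fun w hw => ⟨h2 w hw, (h1 w hw).2.1, (h1 w hw).2.2⟩⟩
  · exact absurd (hsub hz₀).2 (h2 z₀ (mem_ball_self hr))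

end Pool.Agent.H18.LU

end

section

/-!
# LU Cm: the compactness principle

`so_unif`: suppose not; for every `n` take `r₁ = n + 1`, `r = 1 / (n + 1)`: there are `z n ∈ Gd B δ'`, `z n ∈ Nb Λ R`, `f n ∈ SO (ball (z n) (n + 1))` with `¬ Q (1/(n+1)) (z n) (f n (z n))`.  `so_centre`: `l n ∈ Γ`, `z n - l n → w`,
`f n (z n) → f w`, `f ∈ SO univ`.  `hloc` at `(f, w)`: `r > 0`; for large `n`: `z n - l n ∈ closedBall w r`, `dist (f n (z n)) (f w) ≤ r`, `1/(n+1) ≤ r`: `Q r (z n - l n) (f n (z n))`, `Q (1/(n+1)) (z n - l n) _` (`hanti`), and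
`Q (1/(n+1)) (z n) _` (`htr` with `l n`): contradiction.
`so_unifK`: the same over a compact set `K` without points of `B`, without translations: `z n ∈ K`, `z n → w ∈ K` along the ultrafilter, `f n ∈ SO (ball (z n) (n + 1))`; the balls contain `ball 0 R` eventually; `so_exists_lim`, `so_along`.
`deepP`: `so_unif` with `Q r z y := ∀ x ∈ P, r ≤ dist (pr x) y`.  `hloc`: `f w ∉ pr '' P` (`so_notP`), `f w = pr x₀` with `x₀ ∈ X` (`so_lift_at`), `x₀ ∉ P`, `P_closed`, `pr_closed`: `r₀ ≤ dist (pr x) (f w)` for `x ∈ P`; `r = r₀ / 2`.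
-/

set_option autoImplicit false

open Topology Filter Metric

namespace Pool.Agent.H18.LU

attribute [-instance] ProperSMul.toContinuousSMul

open Pool.Agent.H36.BP (EN fs wd IsGermChart)
open Pool.Agent.H14.PP (IsCone Chart Tan CurveAt)
open Pool.Agent.H62.EF (Lat MN pr TorusMap Sec Charts DU)
open Pool.Agent.H62.EL (Gd Ag BadSet IsNC TForm gd_notMem)

variable {N : ℕ} {X D P : Set (EN N)} {Λ Γ : AddSubgroup ℂ} {u : EN N → ℂ} {B : Set ℂ} {δ : ℝ}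

/-- the hypotheses for large indices -/
private theorem cm_eps (𝒰 : Ultrafilter ℕ) (h𝒰 : (𝒰 : Filter ℕ) ≤ atTop) {r : ℝ} (hr : 0 < r) :
    ∀ᶠ n : ℕ in (𝒰 : Filter ℕ), (1 : ℝ) / ((n : ℝ) + 1) ≤ r := by
  refine h𝒰 ?_
  have h : Tendsto (fun n : ℕ => (1 : ℝ) / ((n : ℝ) + 1)) atTop (𝓝 0) := tendsto_one_div_add_atTop_nhds_zero_nat
  exact (h.eventually (gt_mem_nhds hr)).mono fun n hn => le_of_lt hn

private theorem cm_large (𝒰 : Ultrafilter ℕ) (h𝒰 : (𝒰 : Filter ℕ) ≤ atTop) : Tendsto (fun n : ℕ => (n : ℝ) + 1) 𝒰 atTop :=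
  (tendsto_atTop_add_const_right _ _ tendsto_natCast_atTop_atTop).mono_left h𝒰

theorem so_unif (E : LData X D P Λ Γ u B δ) {δ' : ℝ} (hδ' : 0 < δ') (R : ℝ) (Q : ℝ → ℂ → MN N → Prop)
    (hanti : ∀ (r r' : ℝ) (z : ℂ) (y : MN N), 0 < r' → r' ≤ r → Q r z y → Q r' z y)
    (htr : ∀ (r : ℝ) (z : ℂ) (y : MN N), ∀ l ∈ Γ, Q r z y → Q r (z + l) y)
    (hloc : ∀ f ∈ SO X D Λ u B Set.univ, ∀ w ∈ Gd B δ', w ∈ Nb Λ R → ∃ r : ℝ, 0 < r ∧ ∀ z ∈ closedBall w r, ∀ y ∈ closedBall (f w) r, Q r z y) :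
    ∃ r₁ r : ℝ, 0 < r₁ ∧ 0 < r ∧ ∀ z ∈ Gd B δ', z ∈ Nb Λ R → ∀ f ∈ SO X D Λ u B (ball z r₁), Q r z (f z) := by
  by_contra hcon
  have hseq : ∀ n : ℕ, ∃ z ∈ Gd B δ', z ∈ Nb Λ R ∧ ∃ f ∈ SO X D Λ u B (ball z ((n : ℝ) + 1)), ¬ Q (1 / ((n : ℝ) + 1)) z (f z) := by
    intro n
    by_contra hn
    refine hcon ⟨(n : ℝ) + 1, 1 / ((n : ℝ) + 1), by positivity, by positivity, ?_⟩
    intro z hz hzR f hf
    by_contra hQ
    exact hn ⟨z, hz, hzR, f, hf, hQ⟩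
  choose z hz hzR F hF hQ using hseq
  have h𝒰 : ((hyperfilter ℕ : Ultrafilter ℕ) : Filter ℕ) ≤ atTop := Nat.hyperfilter_le_atTop
  obtain ⟨l, w, f, hl, hw, hwR, hzw, hf, -, -, hFw⟩ := so_centre E (δ' := δ') (R := R) (hyperfilter ℕ) z (fun n => (n : ℝ) + 1)
    (cm_large _ h𝒰) (Eventually.of_forall fun n => ⟨hz n, hzR n⟩) F (Eventually.of_forall fun n => hF n) hδ'
  obtain ⟨r, hr, hrQ⟩ := hloc f hf w hw hwR
  have h1 : ∀ᶠ n in ((hyperfilter ℕ : Ultrafilter ℕ) : Filter ℕ), z n - l n ∈ closedBall w r := hzw (closedBall_mem_nhds w hr)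
  have h2 : ∀ᶠ n in ((hyperfilter ℕ : Ultrafilter ℕ) : Filter ℕ), F n (z n) ∈ closedBall (f w) r := hFw (closedBall_mem_nhds (f w) hr)
  have h3 := cm_eps (hyperfilter ℕ) h𝒰 hr
  obtain ⟨n, hn1, hn2, hn3⟩ := (h1.and (h2.and h3)).exists
  have h4 : Q (1 / ((n : ℝ) + 1)) (z n - l n) (F n (z n)) := hanti r _ _ _ (by positivity) hn3 (hrQ _ hn1 _ hn2)
  have h5 := htr _ _ _ (l n) (hl n) h4
  rw [sub_add_cancel] at h5
  exact hQ n h5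

theorem so_unifK (E : LData X D P Λ Γ u B δ) {K : Set ℂ} (hK : IsCompact K) (hKB : ∀ z ∈ K, z ∉ B) (Q : ℝ → ℂ → MN N → Prop)
    (hanti : ∀ (r r' : ℝ) (z : ℂ) (y : MN N), 0 < r' → r' ≤ r → Q r z y → Q r' z y)
    (hloc : ∀ f ∈ SO X D Λ u B Set.univ, ∀ w ∈ K, ∃ r : ℝ, 0 < r ∧ ∀ z ∈ K, dist z w ≤ r → ∀ y ∈ closedBall (f w) r, Q r z y) :
    ∃ r₁ r : ℝ, 0 < r₁ ∧ 0 < r ∧ ∀ z ∈ K, ∀ f ∈ SO X D Λ u B (ball z r₁), Q r z (f z) := by
  by_contra hcon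
  have hseq : ∀ n : ℕ, ∃ z ∈ K, ∃ f ∈ SO X D Λ u B (ball z ((n : ℝ) + 1)), ¬ Q (1 / ((n : ℝ) + 1)) z (f z) := by
    intro n
    by_contra hn
    refine hcon ⟨(n : ℝ) + 1, 1 / ((n : ℝ) + 1), by positivity, by positivity, ?_⟩
    intro z hz f hf
    by_contra hQ
    exact hn ⟨z, hz, f, hf, hQ⟩
  choose z hz F hF hQ using hseq
  have h𝒰 : ((hyperfilter ℕ : Ultrafilter ℕ) : Filter ℕ) ≤ atTop := Nat.hyperfilter_le_atTop
  obtain ⟨w, hwK, hw⟩ := hK.ultrafilter_le_nhds ((hyperfilter ℕ : Ultrafilter ℕ).map z)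
    (le_principal_iff.2 (mem_map.2 (Eventually.of_forall fun n : ℕ => hz n)))
  have hzw : Tendsto z ((hyperfilter ℕ : Ultrafilter ℕ) : Filter ℕ) (𝓝 w) := hw
  have hwB : w ∉ B := hKB w hwK
  have hΩ : ∀ R : ℝ, ∀ᶠ n in ((hyperfilter ℕ : Ultrafilter ℕ) : Filter ℕ), ball (0 : ℂ) R ⊆ ball (z n) ((n : ℝ) + 1) := by
    intro R
    obtain ⟨C, hC⟩ := hK.isBounded.exists_norm_le
    filter_upwards [(cm_large _ h𝒰).eventually_ge_atTop (R + C)] with n hn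
    refine ball_subset_ball' ?_
    rw [dist_zero_left]
    linarith [hC (z n) (hz n)]
  have hFe : ∀ᶠ n in ((hyperfilter ℕ : Ultrafilter ℕ) : Filter ℕ), F n ∈ SO X D Λ u B (ball (z n) ((n : ℝ) + 1)) :=
    Eventually.of_forall fun n => hF n
  obtain ⟨f, hf, hlim⟩ := so_exists_lim E (hyperfilter ℕ) (fun n => ball (z n) ((n : ℝ) + 1)) hΩ F hFe
  have hFw := so_along E (hyperfilter ℕ) (fun n => ball (z n) ((n : ℝ) + 1)) hΩ F hFe hlim hwB hzw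
  obtain ⟨r, hr, hrQ⟩ := hloc f hf w hwK
  have h1 : ∀ᶠ n in ((hyperfilter ℕ : Ultrafilter ℕ) : Filter ℕ), z n ∈ closedBall w r := hzw (closedBall_mem_nhds w hr)
  have h2 : ∀ᶠ n in ((hyperfilter ℕ : Ultrafilter ℕ) : Filter ℕ), F n (z n) ∈ closedBall (f w) r := hFw (closedBall_mem_nhds (f w) hr)
  have h3 := cm_eps (hyperfilter ℕ) h𝒰 hr
  obtain ⟨n, hn1, hn2, hn3⟩ := (h1.and (h2.and h3)).exists
  exact hQ n (hanti r _ _ _ (by positivity) hn3 (hrQ _ (hz n) hn1 _ hn2))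

theorem deepP (E : LData X D P Λ Γ u B δ) {δ' : ℝ} (hδ' : 0 < δ') (R : ℝ) : ∃ r₁ r : ℝ, 0 < r₁ ∧ 0 < r ∧ ∀ z ∈ Gd B δ', z ∈ Nb Λ R →
    ∀ f ∈ SO X D Λ u B (ball z r₁), ∀ x ∈ P, r ≤ dist (pr x) (f z) := by
  refine so_unif E hδ' R (fun r _ y => ∀ x ∈ P, r ≤ dist (pr x) y) (fun r r' z y _ hr h x hx => hr.trans (h x hx)) (fun r z y l _ h => h) ?_
  intro f hf w hw _
  have hwB : w ∉ B := gd_notMem hδ' hw
  obtain ⟨x₀, hx₀, -, hpr⟩ := so_lift_at E isOpen_univ hf (Set.mem_univ w) hwB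
  have hx₀P : x₀ ∉ P := fun h => so_notP E hf hwB ⟨x₀, h, hpr⟩
  obtain ⟨r₀, hr₀, hr₀P⟩ := pr_closed E.cone E.P_smul (E.P_sub.trans E.D_sub) hx₀ (E.P_closed x₀ hx₀ hx₀P)
  refine ⟨r₀ / 2, half_pos hr₀, ?_⟩
  intro z _ y hy x hx
  have h1 := hr₀P x hx
  have h2 : dist y (f w) ≤ r₀ / 2 := hy
  rw [← hpr] at h2
  have h3 := dist_triangle (pr x) y (pr x₀)
  linarith

end Pool.Agent.H18.LU

end
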