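import Pool.Agent.H94.CB.M157
import Pool.Agent.H94.CB.M195
import Pool.Agent.H94.CB.M200

/-! The parts of this file: H18.LU.HoB, H18.LU.HoN, H18.LU.JnP. -/

section

/-!
# LU HoB: sections near a bad fibre, in the model

`hole_point`: if `pr x = pr ((χ i).σ p)`, `x ∈ X`, `p ∈ ball 0 2`, then `x ∈ (χ i).U` and `(χ i).q x = p` (`pr_eq_iff`, `smul_U`, `q_smul`, `σ_mem`).
`hole_u`: let `x ∈ X ∩ (χ i).U`, `u x - z ∈ Λ`, `z ∈ ball b H.M.ρ`; then `H.M.u i (q x) = z - b`: `x = c • σ (q x)` (`surj`), `TorusMap.smul`, `u_eq`: the difference is in `Λ`, its norm is `< 2 η`.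
`hole_sec`: with `f w = pr (F (b + w))`.  `Hol`: `p ∈ ball 0 2`, `f z = M.s i p`: `F (b + z) ∈ (χ i).U`; take `P w = (χ i).q (F (b + w))`, analytic at `z` (`q_an`), `P z = p`; near `z`: `F (b + w) ∈ X ∩ U` (open), so `f w = pr (σ (P w))` (`surj`),
`M.u i (P w) = w` (`hole_u`).  `Cov`: `H.cov` at `F (b + z)`; `CenS` implies `Cen`; `Ok`: `ex = true`, `b i ≤ 0` (so `= 0`, `b_nonneg`) and `(q x).2 = 0` would give `σ (q x) ∈ P` (`P_iff`), `F (b + z) ∈ P ⊆ D` (`P_smul`, `P_sub`): contradiction.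
`hole_L`: `x ∈ X \ P`, `x ∈ (χ i).U`, `u x - z ∈ Λ`, `z ∈ ball b ρ`, `z ≠ b`: `(q x).1 ≠ 0` (otherwise `M.u i (q x) = 0`, `1 ≤ a`), and `(q x).2 ≠ 0` if `ex i = true` (`1 ≤ b`: same; `b = 0`: `P_iff`).
-/

set_option autoImplicit false

open Topology Filter Metric

namespace Pool.Agent.H18.LU

attribute [-instance] ProperSMul.toContinuousSMul

open Pool.Agent.H36.BP (EN fs wd IsGermChart)
open Pool.Agent.H14.PP (IsCone Chart Tan CurveAt)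
open Pool.Agent.H62.EF (Lat MN pr TorusMap Sec Charts DU)
open Pool.Agent.H62.EL (Gd Ag BadSet IsNC TForm Mon mo)
open Pool.Agent.EG.RL (Model Atl Cen Bphi)

variable {N : ℕ} {X D P : Set (EN N)} {Λ Γ : AddSubgroup ℂ} {u : EN N → ℂ} {B : Set ℂ} {δ : ℝ} {b : ℂ} {α : TForm (X \ P) Λ u}

theorem hole_point (E : LData X D P Λ Γ u B δ) (χ : Chart X) {x : EN N} (hx : x ∈ X) {p : ℂ × ℂ} (hp : p ∈ ball (0 : ℂ × ℂ) 2)
    (h : pr x = pr (χ.σ p)) : x ∈ χ.U ∧ χ.q x = p := by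
  obtain ⟨h1, h2, h3⟩ := χ.σ_mem p hp
  obtain ⟨c, hc, h4⟩ := (Pool.Agent.H62.EF.pr_eq_iff (E.cone.ne_zero hx) (E.cone.ne_zero h1)).1 h
  rw [h4]
  exact ⟨χ.smul_U _ h2 c hc, by rw [χ.q_smul _ h2 c hc, h3]⟩

theorem hole_u (E : LData X D P Λ Γ u B δ) (H : Hole X P Λ u b α) {i : H.ι} {x : EN N} {z : ℂ} (hx : x ∈ X) (hU : x ∈ (H.χ i).U)
    (hz : z ∈ ball b H.M.ρ) (h : u x - z ∈ Λ) : H.M.u i ((H.χ i).q x) = z - b := by
  obtain ⟨hq, c, hc, h1⟩ := (H.χ i).surj x hx hU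
  have h2 : u x - u ((H.χ i).σ ((H.χ i).q x)) ∈ Λ := by
    have h3 := E.tor.smul _ ((H.χ i).σ_mem _ hq).1 c hc
    rwa [← h1] at h3
  have h3 := H.u_eq i _ hq
  have h4 : (z - b) - H.M.u i ((H.χ i).q x) ∈ Λ := by
    have h5 := Λ.add_mem (Λ.sub_mem h2 h) h3
    have h6 : (z - b) - H.M.u i ((H.χ i).q x) = (u x - u ((H.χ i).σ ((H.χ i).q x)) - (u x - z)) +
        (u ((H.χ i).σ ((H.χ i).q x)) - (b + H.M.u i ((H.χ i).q x))) := by ring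
    rw [h6]
    exact h5
  have h5 : ‖(z - b) - H.M.u i ((H.χ i).q x)‖ < 2 * H.η := by
    have h6 := norm_sub_le (z - b) (H.M.u i ((H.χ i).q x))
    have h7 : ‖z - b‖ < H.M.ρ := by
      rw [← dist_eq_norm]
      exact hz
    have h8 := H.small i _ hq
    have h9 := H.ρ_le
    linarith
  exact (sub_eq_zero.1 (H.inj _ h4 h5)).symm

theorem hole_L (E : LData X D P Λ Γ u B δ) (H : Hole X P Λ u b α) {i : H.ι} {x : EN N} {z : ℂ} (hx : x ∈ X) (hP : x ∉ P) (hU : x ∈ (H.χ i).U)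
    (hz : z ∈ ball b H.M.ρ) (hzb : z ≠ b) (h : u x - z ∈ Λ) : H.M.L i ((H.χ i).q x) ≠ 0 := by
  have hu := hole_u E H hx hU hz h
  obtain ⟨hq, c, hc, h1⟩ := (H.χ i).surj x hx hU
  have h0 : H.M.u i ((H.χ i).q x) ≠ 0 := by
    rw [hu]
    exact sub_ne_zero.2 hzb
  have ha := H.M.a_pos i
  have h2 : ((H.χ i).q x).1 ≠ 0 := by
    intro h3
    apply h0
    unfold Pool.Agent.EG.RL.Atl.u
    rw [h3, zero_pow (by omega)]
    ring
  unfold Pool.Agent.EG.RL.Atl.L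
  refine mul_ne_zero h2 ?_
  split_ifs with he
  · intro h3
    rcases (H.b_nonneg i).lt_or_eq with h4 | h4
    · apply h0
      unfold Pool.Agent.EG.RL.Atl.u
      rw [h3, zero_zpow _ (by omega)]
      ring
    · have h5 := (H.P_iff i _ hq).2 ⟨he, h4.symm, h3⟩
      apply hP
      rw [h1]
      exact E.P_smul _ h5 c hc
  · exact one_ne_zero

theorem hole_sec (E : LData X D P Λ Γ u B δ) (H : Hole X P Λ u b α) {F : ℂ → EN N} {z : ℂ} (hz : ‖z‖ < H.M.ρ)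
    (hF : SecAt X D Λ u F (b + z)) : H.M.Hol (fun w => pr (F (b + w))) z ∧ H.M.Cov (fun w => pr (F (b + w))) z := by
  have hadd : AnalyticAt ℂ (fun w : ℂ => b + w) z := analyticAt_const.add analyticAt_id
  have hFa : AnalyticAt ℂ (fun w => F (b + w)) z := AnalyticAt.fun_comp (f := fun w : ℂ => b + w) hF.1 hadd
  have hev : ∀ᶠ w in 𝓝 z, F (b + w) ∈ X ∧ F (b + w) ∉ D ∧ u (F (b + w)) - (b + w) ∈ Λ :=
    hadd.continuousAt.eventually hF.2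
  have hball : ∀ᶠ w in 𝓝 z, ‖w‖ < H.M.ρ := (isOpen_lt continuous_norm continuous_const).mem_nhds hz
  obtain ⟨h0X, h0D, h0u⟩ := hev.self_of_nhds
  have hin : ∀ w : ℂ, ‖w‖ < H.M.ρ → b + w ∈ ball b H.M.ρ := by
    intro w hw
    rw [mem_ball, dist_eq_norm, add_sub_cancel_left]
    exact hw
  constructor
  · intro i p hp hok hfp
    have hfp' : pr (F (b + z)) = pr ((H.χ i).σ p) := by
      rw [← H.s_eq]
      exact hfp
    obtain ⟨hU, hq⟩ := hole_point E (H.χ i) h0X hp hfp'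
    refine ⟨fun w => (H.χ i).q (F (b + w)), AnalyticAt.fun_comp (f := fun w => F (b + w)) ((H.χ i).q_an _ hU) hFa, hq, ?_⟩
    have hUe : ∀ᶠ w in 𝓝 z, F (b + w) ∈ (H.χ i).U := hFa.continuousAt.eventually ((H.χ i).isOpen_U.mem_nhds hU)
    filter_upwards [hev, hball, hUe] with w h1 h2 h3
    constructor
    · rw [H.s_eq]
      obtain ⟨h4, c, hc, h5⟩ := (H.χ i).surj _ h1.1 h3
      exact (Pool.Agent.H62.EF.pr_eq_iff (E.cone.ne_zero h1.1) (E.cone.ne_zero ((H.χ i).σ_mem _ h4).1)).2 ⟨c, hc, h5⟩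
    · rw [hole_u E H h1.1 h3 (hin w h2) h1.2.2]
      ring
  · obtain ⟨i, hU, hcen⟩ := H.cov _ (hin z hz) _ h0X h0u
    obtain ⟨h4, c, hc, h5⟩ := (H.χ i).surj _ h0X hU
    refine ⟨i, (H.χ i).q (F (b + z)), ⟨by linarith [hcen.1], by linarith [hcen.2]⟩, ?_, ?_⟩
    · intro he hb h6
      have h7 : H.M.b i = 0 := le_antisymm hb (H.b_nonneg i)
      have h8 := (H.P_iff i _ h4).2 ⟨he, h7, h6⟩
      apply h0D
      apply E.P_sub
      rw [h5]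
      exact E.P_smul _ h8 c hc
    · rw [H.s_eq]
      exact (Pool.Agent.H62.EF.pr_eq_iff (E.cone.ne_zero h0X) (E.cone.ne_zero ((H.χ i).σ_mem _ h4).1)).2 ⟨c, hc, h5⟩

end Pool.Agent.H18.LU

end

section

/-!
# LU HoN: near points near a bad fibre are near in a cell

`pth M i p v` is the point with `h`-coordinate `h + v` if `p` has `h`-coordinate `h` (`pth_X`: direct computation with `Complex.exp_add`).

`hole_near`: `so_unifK` with `K = {z | r₀ ≤ ‖z - b‖ ∧ ‖z - b‖ ≤ R₀}` and `Q r z y :=` the conclusion for all `x, x'` with `pr x = y`, `dist (pr x') y ≤ r`.  `hloc` at `(f, w)`: `f w = pr x₀`, `x₀ ∈ X` (`so_lift_at`), `x₀ ∉ P` (`so_notP`).  Suppose that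
no `r` works: for `r = 1/(n+1)` there are `z n → w`, `y n → f w`, `x n`, `x' n`, `i n` with `pr (x n) = y n`, `pr (x' n) → f w` for which the conclusion is false; along an ultrafilter `i n = i` is constant (`H.fin`) and `p n = q (x n) → p₀` (`CenS` is
bounded), `‖p₀.1‖ ≤ 3/8`, `‖p₀.2‖ ≤ 7/8`, so `p₀ ∈ ball 0 1`, `Cen p₀`, `pr (σ p₀) = f w` (`y n = pr (σ (p n))` by `surj`).  So `x₀ ∈ U`, `q x₀ = p₀` (`hole_point`); `x' n ∈ U` and `q (x' n) → p₀` (`near_of_pr` at `x₀`: `U` is an open cone, `q` is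
continuous and invariant).  `M.u i (p n) = z n - b = M.u i (q (x' n))` (`hole_u`); in the limit `M.u i p₀ = w - b ≠ 0`, so `p₀.1 ≠ 0`, and `p₀.2 ≠ 0` if `ex i` (`hole_L`).
With `p = p n`, `p' = q (x' n)`: `v = Complex.log (p'.2 / p.2)` if `ex i = true`, `v = p'.2 - p.2` otherwise; `v → 0`.  The second coordinate of `pth p v` is `p'.2`; the quotient `ζ` of the first coordinates satisfies `ζ ^ a = 1`
(`p.1 ^ a p.2 ^ b = p'.1 ^ a p'.2 ^ b`; if `ex = false` then `b = 0`: `H.M.b_ex`) and `ζ → 1`, so `ζ = 1` eventually (`(ζ - 1) ∑ ζ ^ j = 0`, the sum tends to `a ≠ 0`).  `pth p (θ v) → p₀` uniformly in `θ ∈ [0, 1]`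
(`‖θ v‖ ≤ ‖v‖ → 0`, `pth` is continuous at `(p₀, 0)`), so it is in `ball 0 2` and `dist (pr (σ (pth p (θ v)))) (y n) ≤ ε` eventually (`pr ∘ σ` is continuous at `p₀`).  `Cen p'` eventually.  Contradiction.
-/

set_option autoImplicit false

open Topology Filter Metric

namespace Pool.Agent.H18.LU

attribute [-instance] ProperSMul.toContinuousSMul

open Pool.Agent.H36.BP (EN fs wd IsGermChart)
open Pool.Agent.H14.PP (IsCone Chart Tan CurveAt)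
open Pool.Agent.H62.EF (Lat MN pr TorusMap Sec Charts DU)
open Pool.Agent.H62.EL (Gd Ag BadSet IsNC TForm Mon mo)
open Pool.Agent.EG.RL (Model Atl Cen Bphi)

variable {N : ℕ} {X D P : Set (EN N)} {Λ Γ : AddSubgroup ℂ} {u : EN N → ℂ} {B : Set ℂ} {δ : ℝ} {b : ℂ} {α : TForm (X \ P) Λ u}

/-- the point in the same fibre with the cell coordinate increased by `v` -/
noncomputable def pth {ι Y : Type} (M : Atl ι Y) (i : ι) (p : ℂ × ℂ) (v : ℂ) : ℂ × ℂ :=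
  (p.1 * Complex.exp (-(M.b i * v / M.a i)), if M.ex i = true then p.2 * Complex.exp v else p.2 + v)

theorem pth_X {ι Y : Type} (M : Atl ι Y) (i : ι) (μ t h v : ℂ) : pth M i (M.X i μ t h) v = M.X i μ t (h + v) := by
  unfold pth Atl.X
  refine Prod.ext ?_ ?_
  · simp only
    rw [mul_assoc, ← Complex.exp_add]
    congr 2
    ring
  · simp only [Pool.Agent.EG.RL.yb]
    by_cases he : M.ex i = true
    · simp only [he, if_true]
      rw [Complex.exp_add]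
    · simp only [he]
      simp

private theorem HoN_cont {ι Y : Type} (M : Atl ι Y) (i : ι) : Continuous (fun q : (ℂ × ℂ) × ℂ => pth M i q.1 q.2) := by
  unfold pth
  by_cases he : M.ex i = true
  · simp only [he, if_true]
    fun_prop
  · simp only [he]
    simp only [Bool.false_eq_true, if_false]
    fun_prop

private theorem HoN_zero {ι Y : Type} (M : Atl ι Y) (i : ι) (p : ℂ × ℂ) : pth M i p 0 = p := by
  unfold pth
  refine Prod.ext ?_ ?_ <;> simp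

/-- the first coordinate -/
private theorem HoN_fst {a : ℕ} {b : ℤ} {k : ℂ} {ex : Bool} (hk : k ≠ 0) (ha : 1 ≤ a) (hb : ex = false → b = 0) {p p' : ℂ × ℂ} {v : ℂ}
    (hp : p.1 ≠ 0) (hv : ex = true → p.2 ≠ 0 ∧ p.2 * Complex.exp v = p'.2)
    (hu : k * p.1 ^ a * p.2 ^ b = k * p'.1 ^ a * p'.2 ^ b) :
    (p'.1 / (p.1 * Complex.exp (-(b * v / a)))) ^ a = 1 := by
  have ha0 : (a : ℂ) ≠ 0 := by
    exact_mod_cast (by omega : a ≠ 0)
  have h1 : Complex.exp (-(b * v / a)) ^ a = Complex.exp (-(b * v)) := by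
    rw [← Complex.exp_nat_mul]
    congr 1
    field_simp
  rw [div_pow, mul_pow, h1, div_eq_one_iff_eq (mul_ne_zero (pow_ne_zero _ hp) (Complex.exp_ne_zero _))]
  rw [mul_assoc, mul_assoc] at hu
  have hu' := mul_left_cancel₀ hk hu
  by_cases he : ex = true
  · obtain ⟨h2, h3⟩ := hv he
    have h4 : p'.2 ^ b = p.2 ^ b * Complex.exp (b * v) := by
      rw [← h3, mul_zpow, ← Complex.exp_int_mul]
    rw [h4] at hu'
    have h5 : p.2 ^ b ≠ 0 := zpow_ne_zero _ h2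
    have h6 : p.1 ^ a = p'.1 ^ a * Complex.exp (b * v) := by
      apply mul_right_cancel₀ h5
      rw [hu']
      ring
    rw [h6, mul_assoc, ← Complex.exp_add]
    simp
  · have hb0 := hb (by simpa using he)
    subst hb0
    simpa using hu'.symm

private theorem HoN_local {ι Y : Type} (M : Atl ι Y) (i : ι) (hk : M.k i ≠ 0) (ha : 1 ≤ M.a i) (hb : M.ex i = false → M.b i = 0)
    {p₀ : ℂ × ℂ} (hL : M.L i p₀ ≠ 0) {W : Set (ℂ × ℂ)} (hW : W ∈ 𝓝 p₀) :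
    ∃ V ∈ 𝓝 p₀, ∀ p ∈ V, ∀ p' ∈ V, M.u i p = M.u i p' →
      ∃ v : ℂ, pth M i p v = p' ∧ ∀ θ ∈ Set.Icc (0 : ℝ) 1, pth M i p (θ * v) ∈ W := by
  unfold Atl.L at hL
  have hp1 : p₀.1 ≠ 0 := fun h => hL (by rw [h, zero_mul])
  have hp2 : M.ex i = true → p₀.2 ≠ 0 := fun he h => hL (by rw [if_pos he, h, mul_zero])
  -- the increment
  set vv : (ℂ × ℂ) × (ℂ × ℂ) → ℂ := fun q =>
    if M.ex i = true then Complex.log (q.2.2 / q.1.2) else q.2.2 - q.1.2 with hvv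
  have hvv0 : vv (p₀, p₀) = 0 := by
    by_cases he : M.ex i = true
    · simp only [hvv, if_pos he]
      rw [div_self (hp2 he), Complex.log_one]
    · simp only [hvv, if_neg he, sub_self]
  have hvc : ContinuousAt vv (p₀, p₀) := by
    by_cases he : M.ex i = true
    · simp only [hvv, if_pos he]
      have h1 : ContinuousAt (fun q : (ℂ × ℂ) × (ℂ × ℂ) => q.2.2 / q.1.2) (p₀, p₀) := by
        refine ContinuousAt.div ?_ ?_ (hp2 he)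
        · exact (continuous_snd.comp continuous_snd).continuousAt
        · exact (continuous_snd.comp continuous_fst).continuousAt
      refine ContinuousAt.clog h1 ?_
      simp only [div_self (hp2 he)]
      exact Complex.one_mem_slitPlane
    · simp only [hvv, if_neg he]
      exact Continuous.continuousAt (by fun_prop)
  -- the small increments
  have h1 : ∀ᶠ q : (ℂ × ℂ) × ℂ in 𝓝 (p₀, (0 : ℂ)), pth M i q.1 q.2 ∈ W := by
    refine (HoN_cont M i).continuousAt.eventually_mem ?_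
    simp only [HoN_zero]
    exact hW
  rw [nhds_prod_eq, Filter.eventually_prod_iff] at h1
  obtain ⟨pa, hpa, pb, hpb, hab⟩ := h1
  obtain ⟨η, hη, hball⟩ := Metric.eventually_nhds_iff.1 hpb
  have h2 : ∀ᶠ q in 𝓝 (p₀, p₀), ‖vv q‖ < η := by
    have h3 : Tendsto vv (𝓝 (p₀, p₀)) (𝓝 0) := by
      have := hvc.tendsto
      rwa [hvv0] at this
    have h4 := h3.norm
    rw [norm_zero] at h4
    exact h4.eventually (gt_mem_nhds hη)
  have h3 : ∀ᶠ q : (ℂ × ℂ) × (ℂ × ℂ) in 𝓝 (p₀, p₀), pa q.1 :=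
    (continuous_fst.tendsto (p₀, p₀)).eventually hpa
  have h4 : ∀ᶠ q : (ℂ × ℂ) × (ℂ × ℂ) in 𝓝 (p₀, p₀), q.1.1 ≠ 0 :=
    (continuous_fst.comp continuous_fst).continuousAt.eventually_ne hp1
  have h5 : ∀ᶠ q : (ℂ × ℂ) × (ℂ × ℂ) in 𝓝 (p₀, p₀), M.ex i = true → q.1.2 ≠ 0 ∧ q.2.2 ≠ 0 := by
    by_cases he : M.ex i = true
    · have h6 : ∀ᶠ q : (ℂ × ℂ) × (ℂ × ℂ) in 𝓝 (p₀, p₀), q.1.2 ≠ 0 :=
        (continuous_snd.comp continuous_fst).continuousAt.eventually_ne (hp2 he)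
      have h7 : ∀ᶠ q : (ℂ × ℂ) × (ℂ × ℂ) in 𝓝 (p₀, p₀), q.2.2 ≠ 0 :=
        (continuous_snd.comp continuous_snd).continuousAt.eventually_ne (hp2 he)
      filter_upwards [h6, h7] with q ha hb _
      exact ⟨ha, hb⟩
    · exact Filter.Eventually.of_forall fun q h => absurd h he
  -- the quotient
  have hζc : ContinuousAt (fun q : (ℂ × ℂ) × (ℂ × ℂ) =>
      q.2.1 / (q.1.1 * Complex.exp (-(M.b i * vv q / M.a i)))) (p₀, p₀) := by
    refine ContinuousAt.div (continuous_fst.comp continuous_snd).continuousAt ?_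
      (mul_ne_zero hp1 (Complex.exp_ne_zero _))
    refine ContinuousAt.mul (continuous_fst.comp continuous_fst).continuousAt ?_
    refine ContinuousAt.cexp ?_
    exact ((continuousAt_const.mul hvc).div_const _).neg
  have hζ1 : p₀.1 / (p₀.1 * Complex.exp (-(M.b i * vv (p₀, p₀) / M.a i))) = 1 := by
    rw [hvv0]
    simp [div_self hp1]
  have h6 : ∀ᶠ q : (ℂ × ℂ) × (ℂ × ℂ) in 𝓝 (p₀, p₀), (∑ j ∈ Finset.range (M.a i),
      (q.2.1 / (q.1.1 * Complex.exp (-(M.b i * vv q / M.a i)))) ^ j) ≠ 0 := by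
    have h7 : ContinuousAt (fun q : (ℂ × ℂ) × (ℂ × ℂ) => ∑ j ∈ Finset.range (M.a i),
        (q.2.1 / (q.1.1 * Complex.exp (-(M.b i * vv q / M.a i)))) ^ j) (p₀, p₀) := by
      refine tendsto_finsetSum _ fun j _ => ?_
      exact hζc.pow j
    refine h7.eventually_ne ?_
    simp only [hζ1, one_pow, Finset.sum_const, Finset.card_range, nsmul_eq_mul, mul_one]
    exact_mod_cast (by omega : M.a i ≠ 0)
  have hall := ((((h2.and h3).and h4).and h5).and h6)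
  rw [nhds_prod_eq, Filter.eventually_prod_self_iff'] at hall
  obtain ⟨V, hV, hVV⟩ := hall
  refine ⟨V, hV, fun p hp p' hp' hu => ?_⟩
  obtain ⟨⟨⟨⟨g1, g2⟩, g3⟩, g4⟩, g5⟩ := hVV p hp p' hp'
  simp only at g1 g2 g3 g4 g5
  have hsec : M.ex i = true → p.2 * Complex.exp (vv (p, p')) = p'.2 := by
    intro he
    obtain ⟨g6, g7⟩ := g4 he
    simp only [hvv, if_pos he]
    rw [Complex.exp_log (div_ne_zero g7 g6)]
    field_simp
  have hpow := HoN_fst (v := vv (p, p')) hk ha hb g3 (fun he => ⟨(g4 he).1, hsec he⟩) hu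
  have hone : p'.1 / (p.1 * Complex.exp (-(M.b i * vv (p, p') / M.a i))) = 1 := by
    have h8 := geom_sum_mul (p'.1 / (p.1 * Complex.exp (-(M.b i * vv (p, p') / M.a i)))) (M.a i)
    rw [hpow, sub_self] at h8
    rcases mul_eq_zero.1 h8 with h9 | h9
    · exact absurd h9 g5
    · exact sub_eq_zero.1 h9
  refine ⟨vv (p, p'), ?_, fun θ hθ => ?_⟩
  · unfold pth
    refine Prod.ext ?_ ?_
    · simp only
      exact ((div_eq_one_iff_eq (mul_ne_zero g3 (Complex.exp_ne_zero _))).1 hone).symm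
    · simp only
      by_cases he : M.ex i = true
      · rw [if_pos he]
        exact hsec he
      · rw [if_neg he]
        simp only [hvv, if_neg he]
        ring
  · refine hab (x := p) g2 (y := θ * vv (p, p')) (hball ?_)
    rw [dist_zero_right, norm_mul, Complex.norm_real, Real.norm_of_nonneg hθ.1]
    calc θ * ‖vv (p, p')‖ ≤ 1 * ‖vv (p, p')‖ := mul_le_mul_of_nonneg_right hθ.2 (norm_nonneg _)
      _ < η := by rw [one_mul]; exact g1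

/-- the statement in one chart, for the points with coordinates in `S` -/
def HoN_R (_E : LData X D P Λ Γ u B δ) (H : Hole X P Λ u b α) (R₀ ε : ℝ) (f : ℂ → MN N) (w : ℂ) (i : H.ι) (S : Set (ℂ × ℂ))
    (r : ℝ) : Prop :=
  ∀ z, ‖z - b‖ ≤ R₀ → ∀ y ∈ closedBall (f w) r, ∀ x ∈ X \ P, ∀ x' ∈ X \ P, u x - z ∈ Λ → u x' - z ∈ Λ → pr x = y →
      dist (pr x') y ≤ r → x ∈ (H.χ i).U → (H.χ i).q x ∈ S → x' ∈ (H.χ i).U ∧ Cen ((H.χ i).q x') ∧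
        ∃ v : ℂ, pth H.M.toAtl i ((H.χ i).q x) v = (H.χ i).q x' ∧ ∀ θ ∈ Set.Icc (0 : ℝ) 1,
          pth H.M.toAtl i ((H.χ i).q x) (θ * v) ∈ ball (0 : ℂ × ℂ) 2 ∧
            dist (pr ((H.χ i).σ (pth H.M.toAtl i ((H.χ i).q x) (θ * v)))) y ≤ ε

private theorem HoN_prq (_E : LData X D P Λ Γ u B δ) (χ : Chart X) {x : EN N} (hx : x ∈ X) (hU : x ∈ χ.U) : pr x = pr (χ.σ (χ.q x)) := by
  obtain ⟨_, c, hc, h⟩ := χ.surj x hx hU
  conv_lhs => rw [h]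
  exact Pool.Agent.H62.EF.pr_smul _ hc

theorem HoN_point (E : LData X D P Λ Γ u B δ) (H : Hole X P Λ u b α) {R₀ ε : ℝ} (hR₀ : R₀ < H.M.ρ) (hε : 0 < ε)
    {f : ℂ → MN N} {w : ℂ} (hwρ : w ∈ ball b H.M.ρ) (hwb : w ≠ b) {x₁ : EN N} (hx₁X : x₁ ∈ X) (hx₁u : u x₁ - w ∈ Λ)
    (hx₁f : pr x₁ = f w) (hnP : f w ∉ pr '' P) (i : H.ι) {p₀ : ℂ × ℂ} (h1 : ‖p₀.1‖ ≤ 3 / 8) (h2 : ‖p₀.2‖ ≤ 7 / 8) :
    ∃ V ∈ 𝓝 p₀, ∀ᶠ r in 𝓝[>] (0 : ℝ), HoN_R E H R₀ ε f w i V r := by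
  have hp₀ : p₀ ∈ ball (0 : ℂ × ℂ) 2 := by
    rw [mem_ball_zero_iff, Prod.norm_def]
    exact max_lt (by linarith) (by linarith)
  obtain ⟨hσX, hσU, hqσ⟩ := (H.χ i).σ_mem p₀ hp₀
  have hσ0 : (H.χ i).σ p₀ ≠ 0 := E.cone.ne_zero hσX
  have hcont : ContinuousAt (fun p => pr ((H.χ i).σ p)) p₀ := by
    have h3 : ContinuousAt (H.χ i).σ p₀ := ((H.χ i).σ_an p₀ hp₀).continuousAt
    exact ContinuousAt.comp (f := (H.χ i).σ) (g := pr) (Pool.Agent.H62.EF.continuousAt_pr hσ0) h3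
  by_cases heq : pr ((H.χ i).σ p₀) = f w
  · -- the point is over `f w`
    have hx₁0 : x₁ ≠ 0 := E.cone.ne_zero hx₁X
    have hu₀ : u ((H.χ i).σ p₀) - w ∈ Λ := by
      obtain ⟨c, hc, h3⟩ := (Pool.Agent.H62.EF.pr_eq_iff hσ0 hx₁0).1 (heq.trans hx₁f.symm)
      have h4 := E.tor.smul x₁ hx₁X c hc
      rw [← h3] at h4
      have h5 := Λ.add_mem h4 hx₁u
      rwa [sub_add_sub_cancel] at h5
    have hP₀ : (H.χ i).σ p₀ ∉ P := fun h => hnP ⟨_, h, heq⟩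
    have hL := hole_L E H hσX hP₀ hσU hwρ hwb hu₀
    rw [hqσ] at hL
    have hW : ball (0 : ℂ × ℂ) 2 ∩ {p | dist (pr ((H.χ i).σ p)) (f w) < ε / 2} ∈ 𝓝 p₀ := by
      refine inter_mem (isOpen_ball.mem_nhds hp₀) ?_
      have h3 : ContinuousAt (fun p => dist (pr ((H.χ i).σ p)) (f w)) p₀ := hcont.dist continuousAt_const
      refine h3.eventually_mem (isOpen_Iio.mem_nhds ?_)
      rw [heq, dist_self]
      exact half_pos hε
    have hk : H.M.k i ≠ 0 := by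
      intro h
      have h3 := H.M.ρ_le i
      rw [h, norm_zero] at h3
      exact absurd H.M.ρ_pos (not_lt.2 h3)
    obtain ⟨V, hV, hVV⟩ := HoN_local H.M.toAtl i hk (H.M.a_pos i) (H.M.b_ex i) hL hW
    have hV' : V ∩ {p | Cen p} ∈ 𝓝 p₀ := by
      refine inter_mem hV ?_
      have h3 : {p : ℂ × ℂ | Cen p} = {p : ℂ × ℂ | ‖p.1‖ < 1 / 2} ∩ {p : ℂ × ℂ | ‖p.2‖ < 1} := rfl
      rw [h3]
      refine IsOpen.mem_nhds ((isOpen_lt (by fun_prop) continuous_const).inter (isOpen_lt (by fun_prop) continuous_const)) ⟨?_, ?_⟩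
      · show ‖p₀.1‖ < 1 / 2
        linarith
      · show ‖p₀.2‖ < 1
        linarith
    have hU' : (H.χ i).U ∩ (H.χ i).q ⁻¹' (V ∩ {p | Cen p}) ∈ 𝓝 ((H.χ i).σ p₀) := by
      refine inter_mem ((H.χ i).isOpen_U.mem_nhds hσU) ?_
      have h3 : ContinuousAt (H.χ i).q ((H.χ i).σ p₀) := ((H.χ i).q_an _ hσU).continuousAt
      refine h3.preimage_mem_nhds ?_
      rw [hqσ]
      exact hV'
    obtain ⟨d, hd, hnear⟩ := Pool.Agent.H62.EF.near_of_pr hσ0 hU'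
    refine ⟨V, hV, ?_⟩
    have hmin : (0 : ℝ) < min (d / 2) (ε / 2) := lt_min (half_pos hd) (half_pos hε)
    filter_upwards [Ioo_mem_nhdsGT hmin] with r hr z hz y hy x hx x' hx' hux hux' hpx hpx' hxU hmem
    have hr1 : r < d / 2 := lt_of_lt_of_le hr.2 (min_le_left _ _)
    have hr2 : r < ε / 2 := lt_of_lt_of_le hr.2 (min_le_right _ _)
    have hzρ : z ∈ ball b H.M.ρ := by
      rw [mem_ball, dist_eq_norm]
      exact lt_of_le_of_lt hz hR₀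
    have hx'0 : x' ≠ 0 := E.cone.ne_zero hx'.1
    rw [mem_closedBall] at hy
    obtain ⟨c, hc, hcU, hcq⟩ := hnear x' hx'0 (by
      rw [heq]
      have h3 := dist_triangle (pr x') y (f w)
      linarith)
    have hx'U : x' ∈ (H.χ i).U := by
      have h3 := (H.χ i).smul_U _ hcU c⁻¹ (inv_ne_zero hc)
      rwa [smul_smul, inv_mul_cancel₀ hc, one_smul] at h3
    have hcq' : (H.χ i).q x' ∈ V ∩ {p | Cen p} := by
      have h3 : (H.χ i).q (c • x') ∈ V ∩ {p | Cen p} := hcq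
      rwa [(H.χ i).q_smul x' hx'U c hc] at h3
    have hu1 := hole_u E H hx.1 hxU hzρ hux
    have hu2 := hole_u E H hx'.1 hx'U hzρ hux'
    obtain ⟨v, hv1, hv2⟩ := hVV _ hmem _ hcq'.1 (hu1.trans hu2.symm)
    refine ⟨hx'U, hcq'.2, v, hv1, fun θ hθ => ?_⟩
    obtain ⟨h3, h4⟩ := hv2 θ hθ
    refine ⟨h3, ?_⟩
    have h5 : dist (pr ((H.χ i).σ (pth H.M.toAtl i ((H.χ i).q x) (θ * v)))) (f w) < ε / 2 := h4
    have h6 := dist_triangle (pr ((H.χ i).σ (pth H.M.toAtl i ((H.χ i).q x) (θ * v)))) (f w) y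
    rw [dist_comm (f w) y] at h6
    linarith
  · -- the point is not over `f w`
    have hd : 0 < dist (pr ((H.χ i).σ p₀)) (f w) := dist_pos.2 heq
    refine ⟨{p | dist (pr ((H.χ i).σ p)) (f w) > dist (pr ((H.χ i).σ p₀)) (f w) / 2}, ?_, ?_⟩
    · have h3 : ContinuousAt (fun p => dist (pr ((H.χ i).σ p)) (f w)) p₀ := hcont.dist continuousAt_const
      exact h3.eventually_mem (isOpen_Ioi.mem_nhds (by
        show dist (pr ((H.χ i).σ p₀)) (f w) / 2 < dist (pr ((H.χ i).σ p₀)) (f w)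
        linarith))
    · filter_upwards [Ioo_mem_nhdsGT (half_pos hd)] with r hr z hz y hy x hx x' hx' hux hux' hpx hpx' hxU hmem
      exfalso
      have h3 : dist (pr ((H.χ i).σ ((H.χ i).q x))) (f w) > dist (pr ((H.χ i).σ p₀)) (f w) / 2 := hmem
      rw [← HoN_prq E (H.χ i) hx.1 hxU, hpx] at h3
      rw [mem_closedBall] at hy
      have h4 := hr.2
      linarith

end Pool.Agent.H18.LU

end

section

/-!
# LU JnP: the integral in a family of curves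

`II_param`: `A` a primitive for the chart `χ` (`exists_prim`).  By `II_eqO` `II = (A (χ.q (Φ (z, w₁))) - A (χ.q (Φ (z, w₀)))) / ρ`.  Let `p_θ = (z, w₀ + θ (w₁ - w₀))`, `κ p = χ.q (Φ p)`, analytic near `p_θ` (`Φ p_θ ∈ χ.U` by
`Cap.cap`), `Φ p = a p • χ.σ (κ p)`, and `c + ρ (κ p).1 = p.1` near `p_θ` (both sides differ by an element of `Λ`, equal at `p_θ` by `Cap.cap`, continuity).  So `ρ ∂₁κ₁ = 1`, `∂₂κ₁ = 0`, and the derivative of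
`θ ↦ A (κ p_θ)` is `(w₁ - w₀) (∂₂A) (κ p_θ) ∂₂κ₂ = (w₁ - w₀) tc α χ _ (κ p_θ) ∂₂κ₂`.  On the other hand `α.toFun z (Φ p_θ) (∂₁Φ) (∂₂Φ) = tc α χ _ (κ p_θ) (∂₁κ₁ ∂₂κ₂ - ∂₂κ₁ ∂₁κ₂) = tc ∂₂κ₂ / ρ` (as in the proof of `tc_transO`:
`∂Φ = a • Dχ.σ (∂κ) + (∂a) • χ.σ`; `add_smul`, `scale`, `det` of `TForm`).  The integrand is continuous in `θ` (`TForm.analytic`); fundamental theorem of calculus.
-/

set_option autoImplicit false

open Topology Filter Metric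

namespace Pool.Agent.H18.LU

attribute [-instance] ProperSMul.toContinuousSMul

open Pool.Agent.H36.BP (EN fs wd IsGermChart)
open Pool.Agent.H14.PP (IsCone Chart Tan CurveAt)
open Pool.Agent.H62.EF (Lat MN pr TorusMap Sec Charts DU)
open Pool.Agent.H62.EL (Gd Ag BadSet IsNC TForm Mon mo Cap IRel II tc IsPrim Per)

variable {N : ℕ} {Λ : AddSubgroup ℂ} {u : EN N → ℂ}

private theorem JP_open {X : Set (EN N)} (hX : OCone X) : Pool.Agent.H14.PP.IsOpenPart X X :=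
  ⟨subset_rfl, hX.smul_mem, fun _ _ => Eventually.of_forall fun _ h => h⟩

private theorem JP_tan_smul {X : Set (EN N)} (hX : OCone X) {x v : EN N} (h : Tan X x v) {c : ℂ} (hc : c ≠ 0) :
    Tan X (c • x) (c • v) := by
  obtain ⟨F, hF, hF0, hFd⟩ := h
  refine ⟨fun z => c • F z, ⟨AnalyticAt.fun_smul analyticAt_const hF.1, ?_⟩, ?_, ?_⟩
  · filter_upwards [hF.2] with z hz
    exact hX.smul_mem _ hz c hc
  · show c • F 0 = c • x
    rw [hF0]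
  · have h1 : HasDerivAt (fun z => c • F z) (c • deriv F 0) 0 :=
      hF.1.differentiableAt.hasDerivAt.const_smul c
    rw [h1.deriv, hFd]

/-- The lift: `Φ y = c y • χ.σ (τ y)` near `p`, with `c` differentiable at `p`. -/
private theorem JP_lift {X : Set (EN N)} (hX : OCone X) (χ' : Chart X) {Φ : ℂ × ℂ → EN N} {p : ℂ × ℂ}
    (hΦ : AnalyticAt ℂ Φ p) (hΦX : ∀ᶠ y in 𝓝 p, Φ y ∈ X) (hU : Φ p ∈ χ'.U) :
    ∃ (c : ℂ) (c' : (ℂ × ℂ) →L[ℂ] ℂ), c ≠ 0 ∧ χ'.q (Φ p) ∈ ball (0 : ℂ × ℂ) 2 ∧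
      Φ p = c • χ'.σ (χ'.q (Φ p)) ∧
      ∀ w : ℂ × ℂ, fderiv ℂ Φ p w =
        c • fderiv ℂ χ'.σ (χ'.q (Φ p)) (fderiv ℂ (fun y => χ'.q (Φ y)) p w) +
          c' w • χ'.σ (χ'.q (Φ p)) := by
  obtain ⟨hτ, c0, hc0, hx⟩ := χ'.surj (Φ p) hΦX.self_of_nhds hU
  set x' : EN N := χ'.σ (χ'.q (Φ p)) with hx'
  have hx'0 : x' ≠ 0 := χ'.sigma_ne_zeroO hX hτ
  have hin : inner ℂ x' x' ≠ 0 := by
    rw [Ne, inner_self_eq_zero]
    exact hx'0
  have hτan : AnalyticAt ℂ (fun y => χ'.q (Φ y)) p :=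
    AnalyticAt.comp (g := χ'.q) (f := Φ) (χ'.q_an _ hU) hΦ
  have hσ'an : AnalyticAt ℂ (fun y => χ'.σ (χ'.q (Φ y))) p :=
    AnalyticAt.comp (g := χ'.σ) (f := fun y => χ'.q (Φ y)) (χ'.σ_an _ hτ) hτan
  have hnum : AnalyticAt ℂ (fun y => innerSL ℂ x' (Φ y)) p :=
    AnalyticAt.comp (g := fun v => innerSL ℂ x' v) (f := Φ)
      ((innerSL ℂ x').analyticAt _) hΦ
  have hden : AnalyticAt ℂ (fun y => innerSL ℂ x' (χ'.σ (χ'.q (Φ y)))) p :=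
    AnalyticAt.comp (g := fun v => innerSL ℂ x' v) (f := fun y => χ'.σ (χ'.q (Φ y)))
      ((innerSL ℂ x').analyticAt _) hσ'an
  have hden0 : innerSL ℂ x' (χ'.σ (χ'.q (Φ p))) ≠ 0 := by
    rw [← hx', innerSL_apply_apply]
    exact hin
  let C : ℂ × ℂ → ℂ := fun y => innerSL ℂ x' (Φ y) / innerSL ℂ x' (χ'.σ (χ'.q (Φ y)))
  have hC : AnalyticAt ℂ C p := hnum.div hden hden0
  have hCp : C p = c0 := by
    show innerSL ℂ x' (Φ p) / innerSL ℂ x' (χ'.σ (χ'.q (Φ p))) = c0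
    rw [div_eq_iff hden0]
    conv_lhs => rw [hx]
    rw [map_smul, smul_eq_mul]
  have hev : ∀ᶠ y in 𝓝 p, Φ y = C y • χ'.σ (χ'.q (Φ y)) := by
    have h2 : ∀ᶠ y in 𝓝 p, Φ y ∈ χ'.U :=
      hΦ.continuousAt.eventually (χ'.isOpen_U.mem_nhds hU)
    have h3 : ∀ᶠ y in 𝓝 p, innerSL ℂ x' (χ'.σ (χ'.q (Φ y))) ≠ 0 :=
      hden.continuousAt.eventually_ne hden0
    filter_upwards [hΦX, h2, h3] with y hy1 hy2 hy3
    obtain ⟨-, b, hb, hxb⟩ := χ'.surj (Φ y) hy1 hy2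
    have h4 : C y = b := by
      show innerSL ℂ x' (Φ y) / innerSL ℂ x' (χ'.σ (χ'.q (Φ y))) = b
      rw [div_eq_iff hy3]
      conv_lhs => rw [hxb]
      rw [map_smul, smul_eq_mul]
    rw [h4]
    exact hxb
  refine ⟨c0, fderiv ℂ C p, hc0, hτ, hx, fun w => ?_⟩
  have hD1 : HasFDerivAt (fun y => χ'.σ (χ'.q (Φ y)))
      ((fderiv ℂ χ'.σ (χ'.q (Φ p))).comp (fderiv ℂ (fun y => χ'.q (Φ y)) p)) p :=
    HasFDerivAt.comp (g := χ'.σ) (f := fun y => χ'.q (Φ y)) p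
      (χ'.σ_an _ hτ).differentiableAt.hasFDerivAt hτan.differentiableAt.hasFDerivAt
  have hD2 : HasFDerivAt (fun y => C y • χ'.σ (χ'.q (Φ y)))
      (C p • ((fderiv ℂ χ'.σ (χ'.q (Φ p))).comp (fderiv ℂ (fun y => χ'.q (Φ y)) p)) +
        (fderiv ℂ C p).smulRight (χ'.σ (χ'.q (Φ p)))) p :=
    hC.differentiableAt.hasFDerivAt.smul hD1
  have hD3 : HasFDerivAt Φ
      (C p • ((fderiv ℂ χ'.σ (χ'.q (Φ p))).comp (fderiv ℂ (fun y => χ'.q (Φ y)) p)) +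
        (fderiv ℂ C p).smulRight (χ'.σ (χ'.q (Φ p)))) p :=
    hD2.congr_of_eventuallyEq hev
  rw [hD3.fderiv, hCp]
  rfl

private theorem JP_pair (L : (ℂ × ℂ) →L[ℂ] EN N) (w : ℂ × ℂ) :
    L w = w.1 • L (1, 0) + w.2 • L (0, 1) := by
  rw [← map_smul, ← map_smul, ← map_add]
  congr 1
  ext
  · simp
  · simp

private theorem JP_val {X : Set (EN N)} (hX : OCone X) (α : TForm X Λ u) (χ : Chart X) {p : ℂ × ℂ} {z : ℂ}
    (hp : p ∈ ball (0 : ℂ × ℂ) 2) (hl : u (χ.σ p) - z ∈ Λ) (A B : ℂ × ℂ) :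
    α.toFun z (χ.σ p) (fderiv ℂ χ.σ p A) (fderiv ℂ χ.σ p B) =
      (A.1 * B.2 - A.2 * B.1) * α.toFun z (χ.σ p) (fderiv ℂ χ.σ p (1, 0)) (fderiv ℂ χ.σ p (0, 1)) := by
  have hx := (χ.σ_mem p hp).1
  have h3 := α.det z (χ.σ p) hx hl _ _ (χ.tan (JP_open hX) hp hx (1, 0)) (χ.tan (JP_open hX) hp hx (0, 1))
    A.1 A.2 B.1 B.2
  rw [← JP_pair, ← JP_pair] at h3
  exact h3

private theorem JP_form {X : Set (EN N)} (hX : OCone X) (hu : TorusMap X Λ u) (α : TForm X Λ u) (χ : Chart X) {υ : ℂ × ℂ → ℂ}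
    {Φ : ℂ × ℂ → EN N} {p : ℂ × ℂ} {z : ℂ} (hΦ : AnalyticAt ℂ Φ p) (hΦX : ∀ᶠ y in 𝓝 p, Φ y ∈ X) (hU : Φ p ∈ χ.U)
    (hl : u (Φ p) - z ∈ Λ) (he : υ (χ.q (Φ p)) = z) :
    α.toFun z (Φ p) (fderiv ℂ Φ p (1, 0)) (fderiv ℂ Φ p (0, 1)) =
      tc α χ υ (χ.q (Φ p)) * Pool.Agent.H14.PP.jac (fun y => χ.q (Φ y)) p := by
  obtain ⟨c, c', hc, hτ, hx, hD⟩ := JP_lift hX χ hΦ hΦX hU
  have hx'X : χ.σ (χ.q (Φ p)) ∈ X := (χ.σ_mem _ hτ).1
  set x' : EN N := χ.σ (χ.q (Φ p)) with hx'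
  set A : ℂ × ℂ := fderiv ℂ (fun y => χ.q (Φ y)) p (1, 0) with hA
  set B : ℂ × ℂ := fderiv ℂ (fun y => χ.q (Φ y)) p (0, 1) with hB
  have htA : Tan X x' (fderiv ℂ χ.σ (χ.q (Φ p)) A) := χ.tan (JP_open hX) hτ hx'X A
  have htB : Tan X x' (fderiv ℂ χ.σ (χ.q (Φ p)) B) := χ.tan (JP_open hX) hτ hx'X B
  have hV : fderiv ℂ Φ p (1, 0) =
      c • fderiv ℂ χ.σ (χ.q (Φ p)) A + (c' (1, 0) * c⁻¹) • (c • x') := by
    rw [hD (1, 0), smul_smul, mul_assoc, inv_mul_cancel₀ hc, mul_one]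
  have hW : fderiv ℂ Φ p (0, 1) =
      c • fderiv ℂ χ.σ (χ.q (Φ p)) B + (c' (0, 1) * c⁻¹) • (c • x') := by
    rw [hD (0, 1), smul_smul, mul_assoc, inv_mul_cancel₀ hc, mul_one]
  have hcx : c • x' ∈ X := hX.smul_mem _ hx'X c hc
  have hl1 : u (c • x') - z ∈ Λ := by rw [← hx]; exact hl
  have hl2 : u x' - z ∈ Λ := by
    have h := Λ.sub_mem hl1 (hu.smul x' hx'X c hc)
    have e : u (c • x') - z - (u (c • x') - u x') = u x' - z := by ring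
    rwa [e] at h
  have h1 := α.add_smul z (c • x') hcx hl1 _ _ (JP_tan_smul hX htA hc) (JP_tan_smul hX htB hc)
    (c' (1, 0) * c⁻¹) (c' (0, 1) * c⁻¹)
  have h2 := α.scale z x' hx'X hl2 _ _ htA htB c hc
  have h3 := JP_val hX α χ hτ (z := z) hl2 A B
  have h4 : α.toFun z (Φ p) (fderiv ℂ Φ p (1, 0)) (fderiv ℂ Φ p (0, 1)) =
      α.toFun z (c • x') (c • fderiv ℂ χ.σ (χ.q (Φ p)) A) (c • fderiv ℂ χ.σ (χ.q (Φ p)) B) := by
    rw [← h1, ← hV, ← hW, ← hx]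
  rw [h4, h2, h3]
  have h5 : Pool.Agent.H14.PP.jac (fun y => χ.q (Φ y)) p = A.1 * B.2 - A.2 * B.1 := by
    show A.1 * B.2 - B.1 * A.2 = _
    ring
  rw [h5, mul_comm]
  congr 1
  show _ = α.toFun (υ (χ.q (Φ p))) _ _ _
  rw [he]

private theorem JP_mo (c : ℂ) (ρ : ℝ) (p : ℂ × ℂ) : Pool.Agent.H62.EL.mo c ρ 1 0 p = c + ρ * p.1 := by
  simp [Pool.Agent.H62.EL.mo]

/-- near `p` the first coordinate is `(p.1 - c) / ρ` -/
private theorem JP_fst {X : Set (EN N)} (hu : TorusMap X Λ u) (hΛ : Dsc Λ) {χ : Chart X} {c : ℂ} {ρ : ℝ}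
    (hm : Mon Λ u χ c ρ 1 0) {Φ : ℂ × ℂ → EN N} {q : ℂ × ℂ} (hΦ : AnalyticAt ℂ Φ q)
    (hΦX : ∀ᶠ p in 𝓝 q, Φ p ∈ X ∧ u (Φ p) - p.1 ∈ Λ) (hU : Φ q ∈ χ.U)
    (he : c + ρ * (χ.q (Φ q)).1 = q.1) :
    ∀ᶠ y in 𝓝 q, c + ρ * (χ.q (Φ y)).1 = y.1 := by
  obtain ⟨δ, hδ, hdisc⟩ := hΛ.discrete
  have hτ : ContinuousAt (fun y => χ.q (Φ y)) q := (χ.q_an _ hU).continuousAt.comp hΦ.continuousAt
  have hτ1 : ContinuousAt (fun y => (χ.q (Φ y)).1) q := continuous_fst.continuousAt.comp hτ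
  have hcont : ContinuousAt (fun y : ℂ × ℂ => c + ρ * (χ.q (Φ y)).1 - y.1) q :=
    (continuousAt_const.add (continuousAt_const.mul hτ1)).sub continuous_fst.continuousAt
  have hsmall : ∀ᶠ y in 𝓝 q, ‖c + ρ * (χ.q (Φ y)).1 - y.1‖ < δ := by
    have h1 := hcont.norm
    have h2 : ‖c + ρ * (χ.q (Φ q)).1 - q.1‖ < δ := by
      rw [he, sub_self, norm_zero]
      exact hδ
    exact h1.eventually_lt_const h2
  filter_upwards [hsmall, hΦX, hΦ.continuousAt (χ.isOpen_U.mem_nhds hU)] with y h1 h2 h3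
  obtain ⟨hb, a, ha, hay⟩ := χ.surj _ h2.1 h3
  have h5 := hm.lift _ hb
  have h6 : u (Φ y) - u (χ.σ (χ.q (Φ y))) ∈ Λ := by
    have := hu.smul _ (χ.σ_mem _ hb).1 a ha
    rwa [← hay] at this
  rw [JP_mo] at h5
  have h7 : c + ρ * (χ.q (Φ y)).1 - y.1 ∈ Λ := by
    have h8 := Λ.sub_mem (Λ.sub_mem h2.2 h6) h5
    convert h8 using 1
    ring
  exact sub_eq_zero.mp (hdisc _ h7 h1)

private theorem JP_vert (L : ℂ × ℂ →L[ℂ] ℂ) (d : ℂ × ℂ) (hd : d.1 = 0) : L d = d.2 * L (0, 1) := by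
  have h1 : d = d.2 • ((0, 1) : ℂ × ℂ) := by
    ext
    · simp [hd]
    · simp
  conv_lhs => rw [h1]
  rw [map_smul, smul_eq_mul]

/-- the derivative of the primitive along the family -/
private theorem JP_deriv {X : Set (EN N)} (hX : OCone X) (hu : TorusMap X Λ u) (hΛ : Dsc Λ) (α : TForm X Λ u) {χ : Chart X} {c : ℂ} {ρ : ℝ}
    (hm : Mon Λ u χ c ρ 1 0) {A : ℂ × ℂ → ℂ} (hA : IsPrim α χ (Pool.Agent.H62.EL.mo c ρ 1 0) A)
    {Φ : ℂ × ℂ → EN N} {q : ℂ × ℂ} (hΦ : AnalyticAt ℂ Φ q)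
    (hΦX : ∀ᶠ p in 𝓝 q, Φ p ∈ X ∧ u (Φ p) - p.1 ∈ Λ) (hU : Φ q ∈ χ.U)
    (he : c + ρ * (χ.q (Φ q)).1 = q.1) :
    HasFDerivAt (fun y => A (χ.q (Φ y))) (fderiv ℂ (fun y => A (χ.q (Φ y))) q) q ∧
      fderiv ℂ (fun y => A (χ.q (Φ y))) q (0, 1) =
        ρ * α.toFun q.1 (Φ q) (fderiv ℂ Φ q (1, 0)) (fderiv ℂ Φ q (0, 1)) := by
  have hρ : (ρ : ℂ) ≠ 0 := by exact_mod_cast hm.pos.ne'
  have hΦX' : ∀ᶠ p in 𝓝 q, Φ p ∈ X := hΦX.mono fun p hp => hp.1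
  have hb : χ.q (Φ q) ∈ ball (0 : ℂ × ℂ) 2 := (χ.surj _ hΦX'.self_of_nhds hU).1
  have hτ : HasFDerivAt (fun y => χ.q (Φ y)) (fderiv ℂ (fun y => χ.q (Φ y)) q) q :=
    ((χ.q_an _ hU).differentiableAt.comp q hΦ.differentiableAt).hasFDerivAt
  have hAd : HasFDerivAt A (fderiv ℂ A (χ.q (Φ q))) (χ.q (Φ q)) := (hA.an _ hb).differentiableAt.hasFDerivAt
  have hcomp : HasFDerivAt (fun y => A (χ.q (Φ y))) ((fderiv ℂ A (χ.q (Φ q))).comp (fderiv ℂ (fun y => χ.q (Φ y)) q)) q :=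
    hAd.comp q hτ
  have hform := JP_form hX hu α χ (υ := Pool.Agent.H62.EL.mo c ρ 1 0) hΦ hΦX' hU hΦX.self_of_nhds.2 (by rw [JP_mo]; exact he)
  set D := fderiv ℂ (fun y => χ.q (Φ y)) q with hD
  have hfst : ∀ w : ℂ × ℂ, ρ * (D w).1 = w.1 := by
    intro w
    have h1 := JP_fst hu hΛ hm hΦ hΦX hU he
    have h2 : HasFDerivAt (fun y : ℂ × ℂ => c + ρ * (χ.q (Φ y)).1)
        ((ρ : ℂ) • ((ContinuousLinearMap.fst ℂ ℂ ℂ).comp D)) q := by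
      have h3 : HasFDerivAt (fun y => (χ.q (Φ y)).1) ((ContinuousLinearMap.fst ℂ ℂ ℂ).comp D) q :=
        (ContinuousLinearMap.fst ℂ ℂ ℂ).hasFDerivAt.comp q hτ
      exact (h3.const_mul (ρ : ℂ)).const_add c
    have h5 : HasFDerivAt (fun y : ℂ × ℂ => c + ρ * (χ.q (Φ y)).1) (ContinuousLinearMap.fst ℂ ℂ ℂ) q :=
      (ContinuousLinearMap.fst ℂ ℂ ℂ).hasFDerivAt.congr_of_eventuallyEq h1
    have h6 := h2.unique h5
    have h7 := congrArg (fun L : ℂ × ℂ →L[ℂ] ℂ => L w) h6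
    simpa using h7
  have hD01 : (D (0, 1)).1 = 0 := by
    have h1 := hfst (0, 1)
    exact (mul_eq_zero.mp h1).resolve_left hρ
  have hD10 : ρ * (D (1, 0)).1 = 1 := hfst (1, 0)
  have hjac : ρ * Pool.Agent.H14.PP.jac (fun y => χ.q (Φ y)) q = (D (0, 1)).2 := by
    unfold Pool.Agent.H14.PP.jac
    rw [← hD, hD01]
    linear_combination (D (0, 1)).2 * hD10
  refine ⟨by rw [hcomp.fderiv]; exact hcomp, ?_⟩
  rw [hcomp.fderiv, ContinuousLinearMap.comp_apply, JP_vert _ _ hD01, hA.der _ hb, hform]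
  linear_combination -(tc α χ (Pool.Agent.H62.EL.mo c ρ 1 0) (χ.q (Φ q))) * hjac

theorem II_param {V : Set (EN N)} (hV : OCone V) (hu : TorusMap V Λ u) (hΛ : Dsc Λ) {α : TForm V Λ u} {ε r : ℝ} {z : ℂ} {y y' : MN N}
    {χ : Chart V} {c : ℂ} {ρ : ℝ} (hc : Cap Λ u χ c ρ z y r) (hr : ε ≤ r) (h : ∃ v, IRel α ε z y y' v) {Φ : ℂ × ℂ → EN N} {w₀ w₁ : ℂ}
    (hΦ : ∀ θ ∈ Set.Icc (0 : ℝ) 1, AnalyticAt ℂ Φ (z, w₀ + θ * (w₁ - w₀)) ∧
      (∀ᶠ p in 𝓝 (z, w₀ + θ * (w₁ - w₀)), Φ p ∈ V ∧ u (Φ p) - p.1 ∈ Λ) ∧ dist (pr (Φ (z, w₀ + θ * (w₁ - w₀)))) y ≤ r)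
    (h₀ : pr (Φ (z, w₀)) = y) (h₁ : pr (Φ (z, w₁)) = y') :
    II α ε z y y' = ∫ θ in (0 : ℝ)..1, (w₁ - w₀) * α.toFun z (Φ (z, w₀ + θ * (w₁ - w₀)))
      (fderiv ℂ Φ (z, w₀ + θ * (w₁ - w₀)) (1, 0)) (fderiv ℂ Φ (z, w₀ + θ * (w₁ - w₀)) (0, 1)) := by
  have hε : 0 ≤ ε := by
    obtain ⟨v, χ', c', ρ', A', p, p', -, -, -, -, -, -, -, -, hseg, -⟩ := h
    exact le_trans dist_nonneg (hseg 0 ⟨le_rfl, zero_le_one⟩)
  have hr0 : 0 ≤ r := hε.trans hr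
  have hm := hc.mon
  have hρ : (ρ : ℂ) ≠ 0 := by exact_mod_cast hm.pos.ne'
  obtain ⟨A, hA⟩ := Pool.Agent.H62.EL.exists_prim α χ hc.mon
  have hcap : ∀ θ ∈ Set.Icc (0 : ℝ) 1, Φ (z, w₀ + θ * (w₁ - w₀)) ∈ χ.U ∧
      c + ρ * (χ.q (Φ (z, w₀ + θ * (w₁ - w₀)))).1 = z := by
    intro θ hθ
    obtain ⟨-, h2, h3⟩ := hΦ θ hθ
    obtain ⟨h4, -, h5⟩ := hc.cap z (mem_closedBall_self hr0) _ h2.self_of_nhds.1 h2.self_of_nhds.2 h3
    exact ⟨h4, h5⟩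
  have e0 : w₀ + ((0 : ℝ) : ℂ) * (w₁ - w₀) = w₀ := by simp
  have e1 : w₀ + ((1 : ℝ) : ℂ) * (w₁ - w₀) = w₁ := by simp
  have hx₀ : Φ (z, w₀) ∈ V := by
    have h1 := (hΦ 0 ⟨le_rfl, zero_le_one⟩).2.1.self_of_nhds.1
    rwa [e0] at h1
  have hx₁ : Φ (z, w₁) ∈ V := by
    have h1 := (hΦ 1 ⟨zero_le_one, le_rfl⟩).2.1.self_of_nhds.1
    rwa [e1] at h1
  rw [II_eqO hV hu hΛ h hc hA (mem_closedBall_self hr0) (by rw [dist_self, zero_add]; exact hr) hx₀ hx₁ h₀ h₁]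
  have hder : ∀ θ ∈ Set.Icc (0 : ℝ) 1, HasDerivAt (fun t : ℝ => A (χ.q (Φ (z, w₀ + t * (w₁ - w₀)))) / ρ)
      ((w₁ - w₀) * α.toFun z (Φ (z, w₀ + θ * (w₁ - w₀)))
      (fderiv ℂ Φ (z, w₀ + θ * (w₁ - w₀)) (1, 0)) (fderiv ℂ Φ (z, w₀ + θ * (w₁ - w₀)) (0, 1))) θ := by
    intro θ hθ
    obtain ⟨h1, h2, -⟩ := hΦ θ hθ
    obtain ⟨h3, h4⟩ := JP_deriv hV hu hΛ α hm hA h1 h2 (hcap θ hθ).1 (hcap θ hθ).2
    have hPd : HasDerivAt (fun t : ℂ => ((z, w₀ + t * (w₁ - w₀)) : ℂ × ℂ)) (0, w₁ - w₀) (θ : ℂ) := by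
      have h5 : HasDerivAt (fun t : ℂ => w₀ + t * (w₁ - w₀)) (w₁ - w₀) (θ : ℂ) := by
        have h6 := ((hasDerivAt_id (θ : ℂ)).mul_const (w₁ - w₀)).const_add w₀
        rw [one_mul] at h6
        exact h6
      exact (hasDerivAt_const (θ : ℂ) z).prodMk h5
    have h5 : HasDerivAt (fun t : ℂ => A (χ.q (Φ (z, w₀ + t * (w₁ - w₀)))))
        (fderiv ℂ (fun y => A (χ.q (Φ y))) (z, w₀ + (θ : ℂ) * (w₁ - w₀)) (0, w₁ - w₀)) (θ : ℂ) :=
      HasFDerivAt.comp_hasDerivAt (l := fun y => A (χ.q (Φ y))) (f := fun t : ℂ => ((z, w₀ + t * (w₁ - w₀)) : ℂ × ℂ)) (θ : ℂ) h3 hPd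
    have h6 := (h5.div_const (ρ : ℂ)).comp_ofReal
    rw [JP_vert _ _ rfl, h4] at h6
    convert h6 using 1
    field_simp
  have hcont : ContinuousOn (fun θ : ℝ => (w₁ - w₀) * α.toFun z (Φ (z, w₀ + θ * (w₁ - w₀)))
      (fderiv ℂ Φ (z, w₀ + θ * (w₁ - w₀)) (1, 0)) (fderiv ℂ Φ (z, w₀ + θ * (w₁ - w₀)) (0, 1))) (Set.Icc (0 : ℝ) 1) := by
    intro θ hθ
    obtain ⟨h1, h2, -⟩ := hΦ θ hθ
    have h3 := (α.analytic Φ Prod.fst _ h1 analyticAt_fst h2).continuousAt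
    have h4 : ContinuousAt (fun t : ℝ => ((z, w₀ + t * (w₁ - w₀)) : ℂ × ℂ)) θ := by
      fun_prop
    have h5 : ContinuousAt (fun t : ℝ => α.toFun z (Φ (z, w₀ + t * (w₁ - w₀)))
      (fderiv ℂ Φ (z, w₀ + t * (w₁ - w₀)) (1, 0)) (fderiv ℂ Φ (z, w₀ + t * (w₁ - w₀)) (0, 1))) θ :=
      ContinuousAt.comp (f := fun t : ℝ => ((z, w₀ + t * (w₁ - w₀)) : ℂ × ℂ))
        (g := fun y : ℂ × ℂ => α.toFun y.1 (Φ y) (fderiv ℂ Φ y (1, 0)) (fderiv ℂ Φ y (0, 1))) h3 h4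
    exact (continuousAt_const.mul h5).continuousWithinAt
  have hint := intervalIntegral.integral_eq_sub_of_hasDerivAt (a := (0 : ℝ)) (b := 1)
    (f := fun t : ℝ => A (χ.q (Φ (z, w₀ + t * (w₁ - w₀)))) / ρ)
    (f' := fun θ : ℝ => (w₁ - w₀) * α.toFun z (Φ (z, w₀ + θ * (w₁ - w₀)))
      (fderiv ℂ Φ (z, w₀ + θ * (w₁ - w₀)) (1, 0)) (fderiv ℂ Φ (z, w₀ + θ * (w₁ - w₀)) (0, 1)))
    (fun θ hθ => hder θ (by rwa [Set.uIcc_of_le zero_le_one] at hθ))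
    (by
      apply ContinuousOn.intervalIntegrable
      rw [Set.uIcc_of_le zero_le_one]
      exact hcont)
  rw [hint]
  simp only [e0, e1]
  rw [sub_div]

end Pool.Agent.H18.LU

end
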