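import Pool.Agent.H94.CB.H13.SM.Surf
import Pool.Agent.H94.CB.M191
import Pool.Agent.H94.CB.M222
import Pool.Agent.H94.CB.M223

/-! The parts of this file: H18.LU.CsL, H18.LU.GlL, H18.LU.NrL, H39.SY.ChartAt, H62.Qe.Chart. -/

section

/-!
# LU CsL: the constants

`LData.mono`: clear.  `cap_mono'`: `HasCap` is monotone in `δ'` (larger), `R` (smaller), `r₁` (larger: `so_anti`), `r` (smaller: `cap_mono` is for `r / 2`; direct: `Cap` of a smaller radius).  `rel_mono` similar (`ε₀` smaller).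

`exists_cstL`: `R₁` from `exists_rep R`; `ℬ = {b ∈ B | ‖b‖ ≤ R₁}` is finite (`8 δ₀`-separated and bounded, see `exists_reps` in EL Cst).  For `b ∈ ℬ`: a hole `H_b` (`exists_hole`).  Choose `0 < δ ≤ δ₀` with `6 δ < H_b.M.ρ` for all `b ∈ ℬ`; `E.mono`.
`exists_capP` (`Pr = True`) with `δ' = δ`: `r₁`, `r`; `ε = r / 3`; `exists_irelL` with `ε`: `r₁'`, `ε₁`; `exists_deep`; `II_bddL`: `r₂`, `C`; `hole_cross` for the `b ∈ ℬ` with `closedBall b (3δ) ⊆ Nb Λ R`: `r_b`, `ε_b`.  `r₁` := the maximum, `ε₀` := the minimum.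
`cross` for `b ∈ B`: `l ∈ Γ` with `‖b - l‖ ≤ R₁` (`b ∈ Nb Λ R`), `b' = b - l ∈ ℬ` (`BadSet.inv`, `E.le`), `closedBall b' (3δ) ⊆ Nb Λ R` (`nb_add`); apply `hole_cross` for `b'` to `F (· + l)`, `G (· + l)` (`secAt_add`), `J z = J' (z - l)` (`II_per`, `E.vTor`).
-/

set_option autoImplicit false

open Topology Filter Metric

namespace Pool.Agent.H18.LU

attribute [-instance] ProperSMul.toContinuousSMul

open Pool.Agent.H36.BP (EN fs wd IsGermChart)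
open Pool.Agent.H14.PP (IsCone Chart Tan CurveAt)
open Pool.Agent.H62.EF (Lat MN pr TorusMap Sec Charts DU)
open Pool.Agent.H62.EL (Gd Ag BadSet IsNC TForm Mon mo Cap IRel II Per)

variable {N : ℕ} {X D P : Set (EN N)} {Λ Γ : AddSubgroup ℂ} {u : EN N → ℂ} {B : Set ℂ} {δ : ℝ}

/-- the constants -/
structure CstL (D : Set (EN N)) (B : Set ℂ) (δ R : ℝ) (α : TForm (X \ P) Λ u) (r₁ ε ε₀ C : ℝ) : Prop where
  r₁_pos : 0 < r₁
  ε_pos : 0 < ε
  ε₀_pos : 0 < ε₀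
  C_nonneg : 0 ≤ C
  cap : HasCap X D P Λ u B δ R r₁ (3 * ε)
  deep : ∀ z ∈ Gd B δ, z ∈ Nb Λ R → ∀ f ∈ SO X D Λ u B (ball z r₁), ∃ x ∈ X \ P, u x - z ∈ Λ ∧ pr x = f z
  rel : HasRel D B α δ R r₁ ε ε₀
  bdd : ∀ z ∈ Gd B δ, z ∈ Nb Λ R → ∀ f ∈ SO X D Λ u B (ball z r₁), ∀ y' : MN N, ‖II α ε z (f z) y'‖ ≤ C
  cross : ∀ b ∈ B, closedBall b (3 * δ) ⊆ Nb Λ R → ∀ F G : ℂ → EN N,
    (∀ z ∈ ball b (3 * δ + r₁), SecAt X D Λ u F z ∧ SecAt X D Λ u G z) →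
    (∀ z, δ ≤ ‖z - b‖ → ‖z - b‖ ≤ 3 * δ → dist (pr (F z)) (pr (G z)) ≤ ε₀) →
    ∃ J : ℂ → ℂ, DifferentiableOn ℂ J (ball b (3 * δ)) ∧
      ∀ z, δ < ‖z - b‖ → ‖z - b‖ < 3 * δ → J z = II α ε z (pr (F z)) (pr (G z))

theorem LData.mono (E : LData X D P Λ Γ u B δ) {δ' : ℝ} (h0 : 0 < δ') (h : δ' ≤ δ) : LData X D P Λ Γ u B δ' :=
  { E with
    bad := ⟨h0, E.bad.inv, fun b hb b' hb' hne => (by linarith : 8 * δ' ≤ 8 * δ).trans (E.bad.sep b hb b' hb' hne)⟩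
    zero := fun b hb => (by linarith : 4 * δ' ≤ 4 * δ).trans (E.zero b hb) }

private theorem CsL_cap {V : Set (EN N)} {χ : Chart V} {c : ℂ} {ρ : ℝ} {z₀ : ℂ} {y₀ : MN N} {r r' : ℝ} (h : Cap Λ u χ c ρ z₀ y₀ r)
    (hr : r' ≤ r) : Cap Λ u χ c ρ z₀ y₀ r' :=
  ⟨h.mon, fun z hz x hx hxz hd => h.cap z (closedBall_subset_closedBall hr hz) x hx hxz (hd.trans hr)⟩

theorem cap_mono' {δ₁ δ₂ R R' r₁ r₂ r r' : ℝ} (h : HasCap X D P Λ u B δ₁ R r₁ r) (h1 : δ₁ ≤ δ₂) (h2 : R' ≤ R) (h3 : r₁ ≤ r₂) (h4 : r' ≤ r) :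
    HasCap X D P Λ u B δ₂ R' r₂ r' := by
  intro z hz hzR f hf
  obtain ⟨χ, c, ρ, hc⟩ := h z (fun b hb => h1.trans (hz b hb)) (nb_mono h2 hzR) f (so_anti (ball_subset_ball h3) hf)
  exact ⟨χ, c, ρ, CsL_cap hc h4⟩

theorem rel_mono' {α : TForm (X \ P) Λ u} {δ₁ δ₂ R R' r₁ r₂ ε ε₁ ε₂ : ℝ} (h : HasRel D B α δ₁ R r₁ ε ε₁) (h1 : δ₁ ≤ δ₂) (h2 : R' ≤ R)
    (h3 : r₁ ≤ r₂) (h4 : ε₂ ≤ ε₁) : HasRel D B α δ₂ R' r₂ ε ε₂ := by
  intro z hz hzR f hf x hx hxz hd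
  exact h z (fun b hb => h1.trans (hz b hb)) (nb_mono h2 hzR) f (so_anti (ball_subset_ball h3) hf) x hx hxz (hd.trans h4)

/-- the integral is the integral along short paths (`II_param`, `hc.cap`; `hc.rel` for the end point) -/
theorem CstL.param (E : LData X D P Λ Γ u B δ) {α : TForm (X \ P) Λ u} {R r₁ ε ε₀ C : ℝ} (hc : CstL D B δ R α r₁ ε ε₀ C) {z w₀ w₁ : ℂ}
    (hz : z ∈ Gd B δ) (hzR : z ∈ Nb Λ R) {f : ℂ → MN N} (hf : f ∈ SO X D Λ u B (ball z r₁)) {Φ : ℂ × ℂ → EN N}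
    (hΦ : ∀ θ ∈ Set.Icc (0 : ℝ) 1, AnalyticAt ℂ Φ (z, w₀ + θ * (w₁ - w₀)) ∧
      (∀ᶠ p in 𝓝 (z, w₀ + θ * (w₁ - w₀)), Φ p ∈ X \ P ∧ u (Φ p) - p.1 ∈ Λ) ∧ dist (pr (Φ (z, w₀ + θ * (w₁ - w₀)))) (f z) ≤ min ε₀ ε)
    (h₀ : pr (Φ (z, w₀)) = f z) : II α ε z (f z) (pr (Φ (z, w₁))) = ∫ θ in (0 : ℝ)..1, (w₁ - w₀) * α.toFun z (Φ (z, w₀ + θ * (w₁ - w₀)))
      (fderiv ℂ Φ (z, w₀ + θ * (w₁ - w₀)) (1, 0)) (fderiv ℂ Φ (z, w₀ + θ * (w₁ - w₀)) (0, 1)) := by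
  have hε := hc.ε_pos
  obtain ⟨χ, c, ρ, hcap⟩ := hc.cap z hz hzR f hf
  obtain ⟨h1, h2, h3⟩ := hΦ 1 ⟨zero_le_one, le_rfl⟩
  have e : w₀ + ((1 : ℝ) : ℂ) * (w₁ - w₀) = w₁ := by
    push_cast
    ring
  rw [e] at h2 h3
  have h4 := h2.self_of_nhds
  have hrel := hc.rel z hz hzR f hf (Φ (z, w₁)) h4.1 h4.2 (by
    rw [dist_comm]
    exact h3.trans (min_le_left _ _))
  refine II_param E.vCone E.vTor E.dsc hcap (by linarith) hrel (fun θ hθ => ?_) h₀ rfl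
  obtain ⟨g1, g2, g3⟩ := hΦ θ hθ
  exact ⟨g1, g2, g3.trans ((min_le_right _ _).trans (by linarith))⟩

theorem CsL_fin (hB : BadSet B Λ δ) (R₁ : ℝ) : (B ∩ closedBall (0 : ℂ) R₁).Finite := by
  have h8 : 0 < 8 * δ := by
    have := hB.pos
    positivity
  have hsep : (B ∩ closedBall (0 : ℂ) R₁).Pairwise fun x y => 8 * δ ≤ dist x y := by
    intro x hx y hy hxy
    rw [dist_eq_norm]
    exact hB.sep x hx.1 y hy.1 hxy
  have hcl : IsClosed (B ∩ closedBall (0 : ℂ) R₁) := Metric.isClosed_of_pairwise_le_dist h8 hsep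
  have hco : IsCompact (B ∩ closedBall (0 : ℂ) R₁) :=
    (isCompact_closedBall (0 : ℂ) R₁).of_isClosed_subset hcl Set.inter_subset_right
  have hdis : DiscreteTopology ↥(B ∩ closedBall (0 : ℂ) R₁) := by
    refine DiscreteTopology.of_forall_le_dist h8 ?_
    intro x y hxy
    exact hsep x.2 y.2 fun h => hxy (Subtype.ext h)
  exact hco.finite (isDiscrete_iff_discreteTopology.mpr hdis)

theorem CsL_ub {ℬ : Set ℂ} (hfin : ℬ.Finite) (f : ℂ → ℝ) : ∃ M : ℝ, 0 < M ∧ ∀ b ∈ ℬ, f b ≤ M := by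
  obtain ⟨M, hM⟩ := (hfin.image f).bddAbove
  exact ⟨max M 1, lt_max_of_lt_right one_pos, fun b hb => (hM ⟨b, hb, rfl⟩).trans (le_max_left _ _)⟩

theorem CsL_lb {ℬ : Set ℂ} (hfin : ℬ.Finite) (f : ℂ → ℝ) (hf : ∀ b, 0 < f b) : ∃ m : ℝ, 0 < m ∧ ∀ b ∈ ℬ, m ≤ f b := by
  have h : ∀ᶠ m : ℝ in 𝓝[>] 0, ∀ b ∈ ℬ, m ≤ f b := by
    refine (Filter.eventually_all_finite hfin).2 fun b _ => ?_
    exact (eventually_le_nhds (hf b)).filter_mono nhdsWithin_le_nhds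
  obtain ⟨m, h1, h2⟩ := (h.and self_mem_nhdsWithin).exists
  exact ⟨m, h2, h1⟩

end Pool.Agent.H18.LU

end

section

/-!
# LU GlL: the integral for two near sections on a ball

`exists_J`: as in the first part of `decay_sec` (EL Dc; read its header and proof; `dc_an` there is the local analyticity).  `W = V ∩ ball c (R' - r₁ - 6δ)`.  For `z ∈ W`, `b ∈ B`, `‖z - b‖ < 3δ`: `closedBall b (3δ) ⊆ C' ⊆ Nb Λ R`, `ball b (3δ + r₁) ⊆ ball c R'`,
and `F`, `G` are `ε₀`-close on the ring (`ring_gd`): `hc.cross` gives `J_b`.  `J z = J_b z` if `‖z - b‖ < 2δ` for a (unique) `b ∈ B`, otherwise `II α ε z (pr (F z)) (pr (G z))`.  Near a point `z ∈ W` with `3δ ≤ ‖z - b‖` for all `b`: `z ∈ Nb Λ R`,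
`II_analyticL` (`Ω = ball z r₁ ⊆ ball c R'`; `hc.cap`, `hc.rel` at the points of `V ∩ Gd B δ` near `z`, there the curves are `ε₀`-close; `V` is open).
`II_approx`: `II_contO` with `hc.cap`; `hc.rel` for the pairs `(f z, g z)`, `(f' z, g' z)` (`hc.deep` gives `x ∈ X \ P` with `pr x = g z` resp. `g' z`; `dist (f' z) (g' z) ≤ ε₀ / 2 + 2 κ ≤ ε₀`).
Bound: `hc.bdd` (`sec_so`) on `Gd B (2δ)`, maximum principle for `J_b` on `closedBall b (5δ/2)` (`II = J_b` on its boundary; the points are in `Nb Λ R`).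
-/

set_option autoImplicit false

open Topology Filter Metric

namespace Pool.Agent.H18.LU

attribute [-instance] ProperSMul.toContinuousSMul

open Pool.Agent.H36.BP (EN fs wd IsGermChart)
open Pool.Agent.H14.PP (IsCone Chart Tan CurveAt)
open Pool.Agent.H62.EF (Lat MN pr TorusMap Sec Charts DU)
open Pool.Agent.H62.EL (Gd Ag BadSet IsNC TForm Mon mo Cap IRel II Per)

variable {N : ℕ} {X D P : Set (EN N)} {Λ Γ : AddSubgroup ℂ} {u : EN N → ℂ} {B : Set ℂ} {δ : ℝ}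

theorem CstL.pair {α : TForm (X \ P) Λ u} {R r₁ ε ε₀ C : ℝ} (hc : CstL D B δ R α r₁ ε ε₀ C) {z : ℂ} (hz : z ∈ Gd B δ) (hzR : z ∈ Nb Λ R)
    {f g : ℂ → MN N} (hf : f ∈ SO X D Λ u B (ball z r₁)) (hg : g ∈ SO X D Λ u B (ball z r₁)) (hfg : dist (f z) (g z) ≤ ε₀) :
    ∃ v, IRel α ε z (f z) (g z) v := by
  obtain ⟨x, hx, hxz, hxg⟩ := hc.deep z hz hzR g hg
  rw [← hxg] at hfg ⊢
  exact hc.rel z hz hzR f hf x hx hxz hfg

theorem exists_J (E : LData X D P Λ Γ u B δ) {α : TForm (X \ P) Λ u} {R r₁ ε ε₀ C : ℝ} (hc : CstL D B δ R α r₁ ε ε₀ C) {V C' : Set ℂ}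
    (hV : IsOpen V) (hVC : V ⊆ C') (hC' : C' ⊆ Nb Λ R) (hole : ∀ z ∈ V, ∀ b ∈ B, ‖z - b‖ < 3 * δ → closedBall b (3 * δ) ⊆ C') {c : ℂ} {R' : ℝ}
    {F G : ℂ → EN N} (hFG : ∀ z ∈ ball c R', SecAt X D Λ u F z ∧ SecAt X D Λ u G z)
    (hcl : ∀ z ∈ ball c R', z ∈ Gd B δ → z ∈ C' → dist (pr (F z)) (pr (G z)) ≤ ε₀) :
    ∃ J : ℂ → ℂ, DifferentiableOn ℂ J (V ∩ ball c (R' - r₁ - 6 * δ)) ∧ (∀ z ∈ V ∩ ball c (R' - r₁ - 6 * δ), ‖J z‖ ≤ C) ∧
      ∀ z ∈ V ∩ ball c (R' - r₁ - 6 * δ), z ∈ Gd B (2 * δ) → J z = II α ε z (pr (F z)) (pr (G z)) := by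
  classical
  have hδ := E.bad.pos
  have hr₁ := hc.r₁_pos
  -- the sections are in `SO`
  have hFS : ∀ z : ℂ, ‖z - c‖ ≤ R' - r₁ → (fun z => pr (F z)) ∈ SO X D Λ u B (ball z r₁) := fun z hz =>
    sec_so fun w hw => (hFG w (ball_subset_ball' (by rw [dist_eq_norm]; linarith) hw)).1
  have hGS : ∀ z : ℂ, ‖z - c‖ ≤ R' - r₁ → (fun z => pr (G z)) ∈ SO X D Λ u B (ball z r₁) := fun z hz =>
    sec_so fun w hw => (hFG w (ball_subset_ball' (by rw [dist_eq_norm]; linarith) hw)).2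
  -- the other points of `B` are far
  have hfar : ∀ b ∈ B, ∀ z : ℂ, ‖z - b‖ ≤ 3 * δ → ∀ b' ∈ B, b' ≠ b → 5 * δ ≤ ‖z - b'‖ := by
    intro b hb z hz b' hb' hne
    have h1 := E.bad.sep b hb b' hb' (Ne.symm hne)
    have h2 : ‖b - b'‖ ≤ ‖z - b'‖ + ‖z - b‖ := by
      have e : b - b' = (z - b') - (z - b) := by ring
      rw [e]
      exact norm_sub_le _ _
    linarith
  have hann : ∀ b ∈ B, ∀ z : ℂ, δ ≤ ‖z - b‖ → ‖z - b‖ ≤ 3 * δ → z ∈ Gd B δ := by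
    intro b hb z h1 h2 b' hb'
    by_cases hbb : b' = b
    · rw [hbb]; exact h1
    · have := hfar b hb z h2 b' hb' hbb
      linarith
  have hann2 : ∀ b ∈ B, ∀ z : ℂ, 2 * δ ≤ ‖z - b‖ → ‖z - b‖ ≤ 3 * δ → z ∈ Gd B (2 * δ) := by
    intro b hb z h1 h2 b' hb'
    by_cases hbb : b' = b
    · rw [hbb]; exact h1
    · have := hfar b hb z h2 b' hb' hbb
      linarith
  have hbc : ∀ z ∈ V ∩ ball c (R' - r₁ - 6 * δ), ∀ b ∈ B, ‖z - b‖ < 3 * δ → closedBall b (3 * δ) ⊆ C' ∧ ‖b - c‖ < R' - r₁ - 3 * δ := by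
    rintro z ⟨hzV, hzc⟩ b hb hzb
    refine ⟨hole z hzV b hb hzb, ?_⟩
    rw [mem_ball, dist_eq_norm] at hzc
    have h3 : ‖b - c‖ ≤ ‖z - c‖ + ‖z - b‖ := by
      have e : b - c = (z - c) - (z - b) := by ring
      rw [e]
      exact norm_sub_le _ _
    linarith
  -- the functions near the points of `B`
  have hJex : ∀ b, b ∈ B → closedBall b (3 * δ) ⊆ C' → ‖b - c‖ < R' - r₁ - 3 * δ → ∃ J : ℂ → ℂ, DifferentiableOn ℂ J (ball b (3 * δ)) ∧
      ∀ z, δ < ‖z - b‖ → ‖z - b‖ < 3 * δ → J z = II α ε z (pr (F z)) (pr (G z)) := by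
    intro b hb hbC hbc
    refine hc.cross b hb (hbC.trans hC') F G (fun z hz => hFG z ?_) fun z h1 h2 => hcl z ?_ (hann b hb z h1 h2) (hbC ?_)
    · exact ball_subset_ball' (by rw [dist_eq_norm]; linarith) hz
    · rw [mem_ball, dist_eq_norm]
      have h3 : ‖z - c‖ ≤ ‖z - b‖ + ‖b - c‖ := by
        have e : z - c = (z - b) + (b - c) := by ring
        rw [e]
        exact norm_add_le _ _
      linarith
    · rw [mem_closedBall, dist_eq_norm]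
      exact h2
  choose! JJ hJd hJe using hJex
  set J : ℂ → ℂ := fun z => if h : ∃ b ∈ B, ‖z - b‖ < 2 * δ then JJ h.choose z else II α ε z (pr (F z)) (pr (G z)) with hJ
  have hJa : ∀ b ∈ B, ∀ z : ℂ, ‖z - b‖ < 2 * δ → J z = JJ b z := by
    intro b hb z hz
    have h : ∃ b ∈ B, ‖z - b‖ < 2 * δ := ⟨b, hb, hz⟩
    have hch : h.choose = b := by
      by_contra hne
      have := hfar b hb z (by linarith) h.choose h.choose_spec.1 hne
      linarith [h.choose_spec.2]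
    simp only [hJ]
    rw [dif_pos h, hch]
  have hJb : ∀ z ∈ Gd B (2 * δ), J z = II α ε z (pr (F z)) (pr (G z)) := by
    intro z hz
    have h : ¬ ∃ b ∈ B, ‖z - b‖ < 2 * δ := by
      rintro ⟨b, hb, hzb⟩
      exact absurd (hz b hb) (not_le.2 hzb)
    simp only [hJ]
    rw [dif_neg h]
  have hJc : ∀ b ∈ B, closedBall b (3 * δ) ⊆ C' → ‖b - c‖ < R' - r₁ - 3 * δ → ∀ z : ℂ, ‖z - b‖ < 3 * δ → J z = JJ b z := by
    intro b hb hbC hbc z hz
    rcases lt_or_ge ‖z - b‖ (2 * δ) with h | h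
    · exact hJa b hb z h
    · rw [hJb z (hann2 b hb z h hz.le), hJe b hb hbC hbc z (by linarith) hz]
  refine ⟨J, ?_, ?_, fun z _ hz => hJb z hz⟩
  · intro z hz
    refine DifferentiableAt.differentiableWithinAt ?_
    by_cases hex : ∃ b ∈ B, ‖z - b‖ < 3 * δ
    · obtain ⟨b, hb, hzb⟩ := hex
      obtain ⟨hbC, hbc'⟩ := hbc z hz b hb hzb
      have hmem : ball b (3 * δ) ∈ 𝓝 z := isOpen_ball.mem_nhds (by rw [mem_ball, dist_eq_norm]; exact hzb)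
      refine ((hJd b hb hbC hbc').differentiableAt hmem).congr_of_eventuallyEq ?_
      filter_upwards [hmem] with w hw
      rw [mem_ball, dist_eq_norm] at hw
      exact hJc b hb hbC hbc' w hw
    · push Not at hex
      obtain ⟨hzV, hzc⟩ := hz
      have hzn : ball z δ ∈ 𝓝 z := isOpen_ball.mem_nhds (mem_ball_self hδ)
      have hcn : ball c (R' - r₁ - 6 * δ) ∈ 𝓝 z := isOpen_ball.mem_nhds hzc
      have hVn : V ∈ 𝓝 z := hV.mem_nhds hzV
      rw [mem_ball, dist_eq_norm] at hzc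
      have hzδ : z ∈ Gd B δ := fun b hb => by linarith [hex b hb]
      have hnear : ∀ w ∈ ball z δ, w ∈ Gd B (2 * δ) := by
        intro w hw b hb
        rw [mem_ball, dist_eq_norm] at hw
        have h3 := hex b hb
        have h4 : ‖z - b‖ ≤ ‖w - b‖ + ‖w - z‖ := by
          have e : z - b = (w - b) - (w - z) := by ring
          rw [e]
          exact norm_sub_le _ _
        linarith
      obtain ⟨χ, c', ρ, hcap⟩ := hc.cap z hzδ (hC' (hVC hzV)) _ (hFS z (by linarith))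
      have han : AnalyticAt ℂ (fun z => II α ε z (pr (F z)) (pr (G z))) z := by
        refine II_analyticL E (Ω := ball z r₁) (f := fun z => pr (F z)) (g := fun z => pr (G z)) isOpen_ball (hFS z (by linarith)) (hGS z (by linarith))
          (mem_ball_self hr₁) (Pool.Agent.H62.EL.gd_notMem hδ hzδ) hcap (by linarith [hc.ε_pos]) ?_
        filter_upwards [hzn, hcn, hVn] with w hw1 hw2 hw3
        rw [mem_ball, dist_eq_norm] at hw2
        have hwG : w ∈ Gd B δ := fun b hb => by linarith [hnear w hw1 b hb]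
        refine hc.pair hwG (hC' (hVC hw3)) (hFS w (by linarith)) (hGS w (by linarith)) (hcl w ?_ hwG (hVC hw3))
        rw [mem_ball, dist_eq_norm]
        linarith
      refine han.differentiableAt.congr_of_eventuallyEq ?_
      filter_upwards [hzn] with w hw
      exact hJb w (hnear w hw)
  · intro z hz
    by_cases hex : ∃ b ∈ B, ‖z - b‖ < 2 * δ
    · obtain ⟨b, hb, hzb⟩ := hex
      obtain ⟨hbC, hbc'⟩ := hbc z hz b hb (by linarith)
      rw [hJa b hb z hzb]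
      have hcl5 : closure (ball b (5 / 2 * δ)) ⊆ ball b (3 * δ) := by
        refine closure_ball_subset_closedBall.trans (closedBall_subset_ball (by linarith))
      refine Complex.norm_le_of_forall_mem_frontier_norm_le (U := ball b (5 / 2 * δ)) isBounded_ball
        ((hJd b hb hbC hbc').mono hcl5).diffContOnCl ?_ (subset_closure ?_)
      · intro w hw
        rw [frontier_ball b (by positivity : (5 / 2 * δ) ≠ 0)] at hw
        rw [mem_sphere, dist_eq_norm] at hw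
        rw [hJe b hb hbC hbc' w (by rw [hw]; linarith) (by rw [hw]; linarith)]
        have hwc : ‖w - c‖ ≤ R' - r₁ := by
          have h3 : ‖w - c‖ ≤ ‖w - b‖ + ‖b - c‖ := by
            have e : w - c = (w - b) + (b - c) := by ring
            rw [e]
            exact norm_add_le _ _
          linarith
        exact hc.bdd w (hann b hb w (by rw [hw]; linarith) (by rw [hw]; linarith)) (hC' (hbC (by
          rw [mem_closedBall, dist_eq_norm, hw]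
          linarith))) _ (hFS w hwc) _
      · rw [mem_ball, dist_eq_norm]
        linarith
    · push Not at hex
      rw [hJb z hex]
      obtain ⟨hzV, hzc⟩ := hz
      rw [mem_ball, dist_eq_norm] at hzc
      exact hc.bdd z (fun b hb => by linarith [hex b hb]) (hC' (hVC hzV)) _ (hFS z (by linarith)) _

/-- the integral for limits of sections is the limit of the integrals -/
theorem II_approx (E : LData X D P Λ Γ u B δ) {α : TForm (X \ P) Λ u} {R r₁ ε ε₀ C : ℝ} (hc : CstL D B δ R α r₁ ε ε₀ C) {z : ℂ}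
    (hz : z ∈ Gd B δ) (hzR : z ∈ Nb Λ R) {f g : ℂ → MN N} (hf : f ∈ SO X D Λ u B (ball z r₁)) (hg : g ∈ SO X D Λ u B (ball z r₁))
    (hfg : dist (f z) (g z) ≤ ε₀ / 2) {η : ℝ} (hη : 0 < η) : ∃ κ : ℝ, 0 < κ ∧ ∀ f' ∈ SO X D Λ u B (ball z r₁), ∀ g' ∈ SO X D Λ u B (ball z r₁),
      dist (f' z) (f z) < κ → dist (g' z) (g z) < κ → dist (II α ε z (f' z) (g' z)) (II α ε z (f z) (g z)) < η := by
  have hε₀ := hc.ε₀_pos
  obtain ⟨χ, c', ρ, hcap⟩ := hc.cap z hz hzR f hf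
  obtain ⟨κ, hκ, hκ'⟩ := II_contO E.vCone E.vTor E.dsc hcap (by linarith [hc.ε_pos] : ε < 3 * ε) (hc.pair hz hzR hf hg (by linarith)) hη
  refine ⟨min κ (ε₀ / 4), lt_min hκ (by linarith), fun f' hf' g' hg' h1 h2 => ?_⟩
  have h3 := h1.trans_le (min_le_right _ _)
  have h4 := h2.trans_le (min_le_right _ _)
  refine hκ' _ _ (h1.trans_le (min_le_left _ _)) (h2.trans_le (min_le_left _ _)) (hc.pair hz hzR hf' hg' ?_)
  have h5 := dist_triangle4 (f' z) (f z) (g z) (g' z)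
  rw [dist_comm (g z)] at h5
  linarith

end Pool.Agent.H18.LU

end

section

/-!
# LU NrL: near different points with the same integral are near the zeros of the form

`near_zrL`: port of `near_zr` (EL Nr), with `V = X \ P`; the lifts of `f z`, `F n (w n)`, `G n (w n)` in `V` come from `IRel` (for the pair) and `so_notP`, `so_liftV` (for `f z`).  `F n ∈ SO (ball (w n) r₁)` for almost all `n` (`so_anti`).
`hrel` needs `G n (w n) = pr x`, `x ∈ X \ P`: `so_lift_at`; `x ∉ P` for almost all `n`, because `G n (w n) → f z ∉ pr '' P` (`so_notP`) and `pr_closed`, `P_closed` at the lift of `f z`.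
`zr_closedO`: a chart `χ` of `V` at `x` (`Charts`), a lift `υ` of `u` in it near `0` (`TorusMap.loc` at `χ.σ 0`, a multiple of `x`; `υ` corrected by a constant so that `υ 0 = z` modulo nothing: `υ 0 - z ∈ Λ` must be made `0` by adding an
element of `Λ`).  `Zr α z (y n)`: `y n = pr x_n`, `x_n ∈ V`, `u x_n - z ∈ Λ`; for large `n` `x_n ∈ χ.U`, `q_n = χ.q x_n → 0`, `υ q_n - z ∈ Λ` is small, so `0`; `zr_iffO`: `tc α χ υ q_n = 0`, so `tc α χ υ 0 = 0` (`tc_an`, continuity), `zr_iffO`.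
-/

set_option autoImplicit false

open Topology Filter Metric

namespace Pool.Agent.H18.LU

attribute [-instance] ProperSMul.toContinuousSMul

open Pool.Agent.H36.BP (EN fs wd IsGermChart)
open Pool.Agent.H14.PP (IsCone Chart Tan CurveAt)
open Pool.Agent.H62.EF (Lat MN pr TorusMap Sec Charts DU)
open Pool.Agent.H62.EL (Gd Ag BadSet IsNC TForm Mon mo Cap IRel II tc IsPrim Per Zr)

variable {N : ℕ} {X D P : Set (EN N)} {Λ Γ : AddSubgroup ℂ} {u : EN N → ℂ} {B : Set ℂ} {δ : ℝ}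

private theorem NrL_near {V : Set (EN N)} (hV : OCone V) (χ : Chart V) {x₀ : EN N} (hx₀ : x₀ ∈ V) (hU : x₀ ∈ χ.U) {W : Set (ℂ × ℂ)}
    (hW : W ∈ 𝓝 (χ.q x₀)) : ∃ d : ℝ, 0 < d ∧ ∀ x ∈ V, dist (pr x) (pr x₀) < d → x ∈ χ.U ∧ χ.q x ∈ W := by
  have h1 : {y : EN N | y ∈ χ.U ∧ χ.q y ∈ W} ∈ 𝓝 x₀ := by
    have h2 : ∀ᶠ y in 𝓝 x₀, y ∈ χ.U := χ.isOpen_U.mem_nhds hU
    have h3 : ∀ᶠ y in 𝓝 x₀, χ.q y ∈ W := (χ.q_an _ hU).continuousAt.eventually hW
    exact h2.and h3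
  obtain ⟨d, hd, h⟩ := Pool.Agent.H62.EF.near_of_pr (hV.ne_zero hx₀) h1
  refine ⟨d, hd, fun x hx hdx => ?_⟩
  obtain ⟨c, hc, hcU, hcV⟩ := h x (hV.ne_zero hx) hdx
  have h4 : c⁻¹ • (c • x) = x := by rw [smul_smul, inv_mul_cancel₀ hc, one_smul]
  have h5 : x ∈ χ.U := by
    rw [← h4]
    exact χ.smul_U _ hcU _ (inv_ne_zero hc)
  refine ⟨h5, ?_⟩
  rw [← χ.q_smul x h5 c hc]
  exact hcV

private theorem NrL_notP (E : LData X D P Λ Γ u B δ) {x₀ : EN N} (hx₀ : x₀ ∈ X \ P) :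
    ∃ d : ℝ, 0 < d ∧ ∀ x ∈ X, dist (pr x) (pr x₀) < d → x ∈ X \ P := by
  obtain ⟨d, hd, h⟩ := Pool.Agent.H62.EF.near_of_pr (E.cone.ne_zero hx₀.1) (E.P_closed x₀ hx₀.1 hx₀.2)
  refine ⟨d, hd, fun x hx hdx => ⟨hx, fun hxP => ?_⟩⟩
  obtain ⟨c, hc, h1⟩ := h x (E.cone.ne_zero hx) hdx
  exact h1 (E.P_smul x hxP c hc)

private theorem NrL_mo (c : ℂ) (ρ : ℝ) (p : ℂ × ℂ) : mo c ρ 1 0 p = c + ρ * p.1 := by
  unfold mo
  ring

private theorem NrL_pr {V : Set (EN N)} (χ : Chart V) {x : EN N} (hx : x ∈ V) (hU : x ∈ χ.U) : pr (χ.σ (χ.q x)) = pr x := by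
  obtain ⟨-, a, ha, h⟩ := χ.surj x hx hU
  conv_rhs => rw [h]
  rw [Pool.Agent.H62.EF.pr_smul _ ha]

theorem near_zrL (E : LData X D P Λ Γ u B δ) {α : TForm (X \ P) Λ u} {δ' R r₁ ε ε₀ r : ℝ} (hδ' : 0 < δ') (hε₀ : 0 < ε₀) (hr : ε < r)
    (hr₁ : 0 < r₁) (hcap : HasCap X D P Λ u B δ' R r₁ r) (hrel : HasRel D B α δ' R r₁ ε ε₀) (𝒰 : Ultrafilter ℕ) (Ω : ℕ → Set ℂ)
    (hΩ : ∀ R : ℝ, ∀ᶠ n in (𝒰 : Filter ℕ), ball 0 R ⊆ Ω n) (F G : ℕ → ℂ → MN N) (w : ℕ → ℂ) {f : ℂ → MN N}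
    (hf : f ∈ SO X D Λ u B Set.univ) {z : ℂ} (hz : z ∈ Gd B δ') (hzR : z ∈ Nb Λ R)
    (hFG : ∀ᶠ n in (𝒰 : Filter ℕ), F n ∈ SO X D Λ u B (Ω n) ∧ G n ∈ SO X D Λ u B (Ω n))
    (hF : ∀ z, z ∉ B → Tendsto (fun n => F n z) 𝒰 (𝓝 (f z))) (hG : ∀ z, z ∉ B → Tendsto (fun n => G n z) 𝒰 (𝓝 (f z)))
    (hw : Tendsto w 𝒰 (𝓝 z))
    (h : ∀ᶠ n in (𝒰 : Filter ℕ), w n ∈ Gd B δ' ∧ w n ∈ Nb Λ R ∧ F n (w n) ≠ G n (w n) ∧ II α ε (w n) (F n (w n)) (G n (w n)) = 0) :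
    Zr α z (f z) := by
  have hzB : z ∉ B := Pool.Agent.H62.EL.gd_notMem hδ' hz
  have hV := E.vCone
  have hTV := E.vTor
  obtain ⟨r₀, Ψ, hr₀, -, -, hΨ⟩ := so_liftV E isOpen_univ hf (Set.mem_univ z) hzB (so_notP E hf hzB)
  obtain ⟨-, hxV, hxu, hxf⟩ := hΨ z (mem_ball_self hr₀)
  have hε0 : 0 ≤ ε := by
    obtain ⟨v, χ, c, ρ, A, p, p', -, -, -, -, -, -, -, -, h1, -⟩ := hrel z hz hzR f (so_anti (Set.subset_univ _) hf) (Ψ z) hxV hxu
      (by rw [hxf, dist_self]; exact hε₀.le)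
    exact dist_nonneg.trans (h1 0 ⟨le_rfl, zero_le_one⟩)
  have hr0 : 0 < r := lt_of_le_of_lt hε0 hr
  obtain ⟨χ, c, ρ, hc⟩ := hcap z hz hzR f (so_anti (Set.subset_univ _) hf)
  obtain ⟨A, hA⟩ := Pool.Agent.H62.EL.exists_prim α χ hc.mon
  obtain ⟨hxU, hxq, hxz⟩ := hc.cap z (mem_closedBall_self hr0.le) _ hxV hxu (by rw [hxf, dist_self]; exact hr0.le)
  set p := χ.q (Ψ z) with hp
  have hp2 : p ∈ ball (0 : ℂ × ℂ) 2 := closedBall_subset_ball (by norm_num) hxq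
  have hmo : mo c ρ 1 0 p = z := by rw [NrL_mo, hxz]
  have hprp : pr (χ.σ p) = f z := by rw [hp, NrL_pr χ hxV hxU, hxf]
  have hlift : u (χ.σ p) - mo c ρ 1 0 p ∈ Λ := hc.mon.lift p hp2
  have hfin : fderiv ℂ A p (0, 1) = 0 → Zr α z (f z) := by
    intro h0
    have h1 := (zr_iffO hV hTV α χ hp2 hlift).2 (by rw [← hA.der p hp2]; exact h0)
    rwa [hmo, hprp] at h1
  by_contra hcon
  have hD : fderiv ℂ A p (0, 1) ≠ 0 := fun h0 => hcon (hfin h0)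
  have hDpos : 0 < ‖fderiv ℂ A p (0, 1)‖ := norm_pos_iff.2 hD
  have hstr := (hA.an p hp2).hasStrictFDerivAt
  have hlo := hstr.isLittleO.def (half_pos hDpos)
  obtain ⟨s, hs, hsb⟩ := Metric.eventually_nhds_iff.1 hlo
  obtain ⟨d₁, hd₁, hdn⟩ := NrL_near hV χ hxV hxU (W := ball p s) (by rw [← hp]; exact ball_mem_nhds _ hs)
  obtain ⟨d₂, hd₂, hdP⟩ := NrL_notP E hxV
  obtain ⟨d, hd⟩ : ∃ d, d = min d₁ d₂ := ⟨_, rfl⟩
  have hd0 : 0 < d := by rw [hd]; exact lt_min hd₁ hd₂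
  have hdd₁ : d ≤ d₁ := by rw [hd]; exact min_le_left _ _
  have hdd₂ : d ≤ d₂ := by rw [hd]; exact min_le_right _ _
  have hFf := so_along E 𝒰 Ω hΩ F (hFG.mono fun n hn => hn.1) hF hzB hw
  have hGf := so_along E 𝒰 Ω hΩ G (hFG.mono fun n hn => hn.2) hG hzB hw
  have hFd : ∀ᶠ n in (𝒰 : Filter ℕ), dist (F n (w n)) (f z) < min (min d (r - ε)) (ε₀ / 2) := by
    refine hFf.eventually (ball_mem_nhds _ ?_)
    exact lt_min (lt_min hd0 (by linarith)) (by linarith)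
  have hGd : ∀ᶠ n in (𝒰 : Filter ℕ), dist (G n (w n)) (f z) < min (min d r) (ε₀ / 2) := by
    refine hGf.eventually (ball_mem_nhds _ ?_)
    exact lt_min (lt_min hd0 hr0) (by linarith)
  have hwd : ∀ᶠ n in (𝒰 : Filter ℕ), dist (w n) z < min r 1 := hw.eventually (ball_mem_nhds _ (lt_min hr0 one_pos))
  obtain ⟨n, ⟨⟨⟨⟨⟨hnB, hnR, hne, hII⟩, hFS, hGS⟩, hn3⟩, hn4⟩, hn5'⟩, hn6⟩ :=
    (((((h.and hFG).and hFd).and hGd).and hwd).and (hΩ (‖z‖ + 1 + r₁))).exists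
  have hn5 : dist (w n) z < r := hn5'.trans_le (min_le_left _ _)
  have hwB : w n ∉ B := Pool.Agent.H62.EL.gd_notMem hδ' hnB
  have hsub : ball (w n) r₁ ⊆ Ω n := by
    refine Set.Subset.trans ?_ hn6
    intro y hy
    rw [mem_ball, dist_eq_norm] at hy
    have h1 : ‖w n - z‖ < 1 := by
      rw [← dist_eq_norm]
      exact hn5'.trans_le (min_le_right _ _)
    rw [mem_ball_zero_iff]
    have h2 : y = z + (w n - z) + (y - w n) := by ring
    rw [h2]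
    have h3 := norm_add_le (z + (w n - z)) (y - w n)
    have h4 := norm_add_le z (w n - z)
    linarith
  have hFS' := so_anti hsub hFS
  have hGS' := so_anti hsub hGS
  obtain ⟨x₁, hx1X, hx1u, hx1f⟩ := so_lift_at E isOpen_ball hFS' (mem_ball_self hr₁) hwB
  obtain ⟨x₂, hx2X, hx2u, hx2f⟩ := so_lift_at E isOpen_ball hGS' (mem_ball_self hr₁) hwB
  have ha : dist (pr x₁) (pr (Ψ z)) < d := by
    rw [hx1f, hxf]
    exact hn3.trans_le ((min_le_left _ _).trans (min_le_left _ _))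
  have hb : dist (pr x₂) (pr (Ψ z)) < d := by
    rw [hx2f, hxf]
    exact hn4.trans_le ((min_le_left _ _).trans (min_le_left _ _))
  have hx1V := hdP x₁ hx1X (ha.trans_le hdd₂)
  have hx2V := hdP x₂ hx2X (hb.trans_le hdd₂)
  obtain ⟨hx1U, hx1W⟩ := hdn x₁ hx1V (ha.trans_le hdd₁)
  obtain ⟨hx2U, hx2W⟩ := hdn x₂ hx2V (hb.trans_le hdd₁)
  have hFr : dist (F n (w n)) (f z) < r - ε := hn3.trans_le ((min_le_left _ _).trans (min_le_right _ _))
  have hGr : dist (G n (w n)) (f z) < r := hn4.trans_le ((min_le_left _ _).trans (min_le_right _ _))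
  have hFGd : dist (F n (w n)) (G n (w n)) ≤ ε₀ := by
    have h1 := hn3.trans_le (min_le_right _ _)
    have h2 := hn4.trans_le (min_le_right _ _)
    have h3 := dist_triangle_right (F n (w n)) (G n (w n)) (f z)
    linarith
  have hv := hrel (w n) hnB hnR (F n) hFS' x₂ hx2V hx2u (by rw [hx2f]; exact hFGd)
  rw [hx2f] at hv
  have hIe := II_eqO hV hTV E.dsc hv hc hA (mem_closedBall.2 hn5.le) (by linarith : dist (F n (w n)) (f z) + ε ≤ r) hx1V hx2V hx1f hx2f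
  rw [hII] at hIe
  have hρ : (ρ : ℂ) ≠ 0 := by exact_mod_cast hc.mon.pos.ne'
  have hAeq : A (χ.q x₂) - A (χ.q x₁) = 0 := by
    rcases div_eq_zero_iff.1 hIe.symm with h1 | h1
    · exact h1
    · exact absurd h1 hρ
  obtain ⟨-, -, hz1⟩ := hc.cap (w n) (mem_closedBall.2 hn5.le) x₁ hx1V hx1u (by rw [hx1f]; linarith)
  obtain ⟨-, -, hz2⟩ := hc.cap (w n) (mem_closedBall.2 hn5.le) x₂ hx2V hx2u (by rw [hx2f]; linarith)
  have hfst : (χ.q x₂).1 = (χ.q x₁).1 := by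
    have h1 : (ρ : ℂ) * (χ.q x₂).1 = ρ * (χ.q x₁).1 := by
      have h2 := hz2.trans hz1.symm
      exact add_left_cancel h2
    exact mul_left_cancel₀ hρ h1
  have hsub : χ.q x₂ - χ.q x₁ = ((χ.q x₂).2 - (χ.q x₁).2) • ((0 : ℂ), (1 : ℂ)) := by
    ext
    · simp [hfst]
    · simp
  have ht : (χ.q x₂).2 - (χ.q x₁).2 ≠ 0 := by
    intro h0
    rw [h0, zero_smul, sub_eq_zero] at hsub
    apply hne
    rw [← hx1f, ← hx2f, ← NrL_pr χ hx1V hx1U, ← NrL_pr χ hx2V hx2U, hsub]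
  have hbd := @hsb (χ.q x₂, χ.q x₁) (by
    rw [Prod.dist_eq]
    exact max_lt (mem_ball.1 hx2W) (mem_ball.1 hx1W))
  simp only at hbd
  rw [hAeq, hsub, map_smul, zero_sub, norm_neg, norm_smul, norm_smul] at hbd
  have hn01 : ‖((0 : ℂ), (1 : ℂ))‖ = 1 := by
    rw [Prod.norm_def]
    simp
  rw [hn01, mul_one] at hbd
  have htp : 0 < ‖(χ.q x₂).2 - (χ.q x₁).2‖ := norm_pos_iff.2 ht
  linarith [mul_pos htp hDpos]

theorem zr_closedO {V : Set (EN N)} (hV : OCone V) (hch : Charts V) (hu : TorusMap V Λ u) (hΛ : Dsc Λ) {α : TForm V Λ u} {l : Filter ℕ}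
    [l.NeBot] {y : ℕ → MN N} {z : ℂ} {x : EN N} (hx : x ∈ V) (hxz : u x - z ∈ Λ) (hy : Tendsto y l (𝓝 (pr x)))
    (h : ∀ᶠ n in l, Zr α z (y n)) : Zr α z (pr x) := by
  obtain ⟨χ, hxU, hq⟩ := hch x hx
  have h0b : (0 : ℂ × ℂ) ∈ ball (0 : ℂ × ℂ) 2 := mem_ball_self two_pos
  obtain ⟨-, a, ha, hxa⟩ := χ.surj x hx hxU
  rw [hq] at hxa
  have hσV : χ.σ 0 ∈ V := (χ.σ_mem 0 h0b).1
  obtain ⟨v, hv, hvu⟩ := hu.loc (χ.σ 0) hσV
  have hzv : v (χ.σ 0) - z ∈ Λ := by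
    have h1 : u (χ.σ 0) - v (χ.σ 0) ∈ Λ := hvu.self_of_nhds hσV
    have h2 : u (a • χ.σ 0) - u (χ.σ 0) ∈ Λ := hu.smul _ hσV a ha
    rw [← hxa] at h2
    have h3 := Λ.sub_mem (Λ.sub_mem hxz h2) h1
    have e : u x - z - (u x - u (χ.σ 0)) - (u (χ.σ 0) - v (χ.σ 0)) = v (χ.σ 0) - z := by ring
    rwa [e] at h3
  obtain ⟨υ, hυ⟩ : ∃ υ : ℂ × ℂ → ℂ, υ = fun p => v (χ.σ p) - (v (χ.σ 0) - z) := ⟨_, rfl⟩
  have hυ0 : υ 0 = z := by
    rw [hυ]
    ring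
  have hσan : AnalyticAt ℂ χ.σ 0 := χ.σ_an 0 h0b
  have hυan : AnalyticAt ℂ υ 0 := by
    rw [hυ]
    exact (AnalyticAt.comp (f := χ.σ) (g := v) hv hσan).sub analyticAt_const
  have hball : ∀ᶠ p in 𝓝 (0 : ℂ × ℂ), p ∈ ball (0 : ℂ × ℂ) 2 := isOpen_ball.mem_nhds h0b
  have hlift : ∀ᶠ p in 𝓝 (0 : ℂ × ℂ), u (χ.σ p) - υ p ∈ Λ := by
    have h1 : Tendsto χ.σ (𝓝 (0 : ℂ × ℂ)) (𝓝 (χ.σ 0)) := hσan.continuousAt.tendsto
    filter_upwards [h1.eventually hvu, hball] with p hp hpb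
    have h2 := hp (χ.σ_mem p hpb).1
    rw [hυ]
    have h3 := Λ.add_mem h2 hzv
    have e : u (χ.σ p) - v (χ.σ p) + (v (χ.σ 0) - z) = u (χ.σ p) - (v (χ.σ p) - (v (χ.σ 0) - z)) := by ring
    rwa [e] at h3
  have hfin : tc α χ υ 0 = 0 → Zr α z (pr x) := by
    intro h1
    have h2 := (zr_iffO hV hu α χ h0b hlift.self_of_nhds).2 h1
    rw [hυ0] at h2
    rwa [hxa, Pool.Agent.H62.EF.pr_smul _ ha]
  by_contra hcon
  have hD : tc α χ υ 0 ≠ 0 := fun h1 => hcon (hfin h1)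
  have han : AnalyticAt ℂ (tc α χ υ) 0 := Pool.Agent.H62.EL.tc_an α χ h0b hυan hlift
  obtain ⟨κ, hκ, hκΛ⟩ := hΛ.discrete
  have hυκ : ∀ᶠ p in 𝓝 (0 : ℂ × ℂ), ‖υ p - z‖ < κ := by
    have h1 := hυan.continuousAt.eventually (ball_mem_nhds (υ 0) hκ)
    filter_upwards [h1] with p hp
    rw [dist_eq_norm, hυ0] at hp
    exact hp
  have hW : {p : ℂ × ℂ | tc α χ υ p ≠ 0 ∧ u (χ.σ p) - υ p ∈ Λ ∧ ‖υ p - z‖ < κ} ∈ 𝓝 (χ.q x) := by
    rw [hq]
    filter_upwards [han.continuousAt.eventually_ne hD, hlift, hυκ] with p h1 h2 h3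
    exact ⟨h1, h2, h3⟩
  obtain ⟨d, hd, hdn⟩ := NrL_near hV χ hx hxU hW
  obtain ⟨n, hn, x', hx', hx'y, hx'z, hx'0⟩ := ((hy.eventually (ball_mem_nhds _ hd)).and h).exists
  obtain ⟨hx'U, h1, h2, h3⟩ := hdn x' hx' (by rw [hx'y]; exact mem_ball.1 hn)
  obtain ⟨hq'b, c, hc, hx'c⟩ := χ.surj x' hx' hx'U
  have hq'V := (χ.σ_mem _ hq'b).1
  have h4 : υ (χ.q x') - z ∈ Λ := by
    have h5 : u (c • χ.σ (χ.q x')) - u (χ.σ (χ.q x')) ∈ Λ := hu.smul _ hq'V c hc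
    rw [← hx'c] at h5
    have h6 := Λ.sub_mem (Λ.sub_mem hx'z h5) h2
    have e : u x' - z - (u x' - u (χ.σ (χ.q x'))) - (u (χ.σ (χ.q x')) - υ (χ.q x')) = υ (χ.q x') - z := by ring
    rwa [e] at h6
  have h5 : υ (χ.q x') = z := sub_eq_zero.1 (hκΛ _ h4 h3)
  refine h1 ((zr_iffO hV hu α χ hq'b h2).1 ?_)
  rw [h5]
  exact ⟨x', hx', (NrL_pr χ hx' hx'U).symm, hx'z, hx'0⟩

end Pool.Agent.H18.LU

end

section

/-!
# Project SY, module ChartAt: charts at smooth points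

The proof of `Pool.Agent.H13.SM.exists_coneChart`, with the hypothesis on the tangent space only at
the given point.
-/

open MvPolynomial Topology
open Pool.Agent.H17GT (coordFun)
open Pool.Agent.H17LG.Variety (FunField ratio)
open Pool.Agent.H5.DG (Homog)
open Pool.Agent.H13.SM (conTan pts)

noncomputable section

namespace Pool.Agent.H39.SY

attribute [-instance] ProperSMul.toContinuousSMul

variable {N : ℕ} {P : Ideal (MvPolynomial (Fin (N + 1)) ℂ)}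

private theorem ChartAt_aeval_mem [P.IsPrime] (hP : Homog P) {l : Fin (N + 1)} (h : coordFun P l ≠ 0)
    {Q : MvPolynomial (Fin (N + 1)) ℂ} (hQ : Q ∈ P) : aeval (fun i => ratio P i l) Q = 0 := by
  rw [← MvPolynomial.sum_homogeneousComponent Q, map_sum]
  refine Finset.sum_eq_zero fun d _ => ?_
  exact (Pool.Agent.H17R.gen_eq_zero_iff h (MvPolynomial.homogeneousComponent_isHomogeneous d Q)).2
    (hP Q hQ d)

private theorem ChartAt_eval_smul {Q : MvPolynomial (Fin (N + 1)) ℂ} {d : ℕ} (hQ : Q.IsHomogeneous d)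
    (c : ℂ) (y : Fin (N + 1) → ℂ) : eval (c • y) Q = c ^ d * eval y Q := by
  have h1 := Pool.Agent.H92.GT.Proj.aeval_scale hQ (c := c) (x := y)
  have h2 : ∀ z : Fin (N + 1) → ℂ, aeval z Q = eval z Q := fun z => by
    rw [MvPolynomial.aeval_eq_eval]
  rw [h2, h2] at h1
  exact h1

private theorem ChartAt_le (hP : Homog P) {c : ℂ} (hc : c ≠ 0) (x : Fin (N + 1) → ℂ) :
    conTan P x ≤ conTan P (c • x) := by
  intro v hv Q hQ
  have h1 : ∀ d, ∑ i, v i * eval (c • x) (pderiv i (homogeneousComponent d Q)) = 0 := by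
    intro d
    have h2 := hv _ (hP Q hQ d)
    have h3 : ∀ i, eval (c • x) (pderiv i (homogeneousComponent d Q)) =
        c ^ (d - 1) * eval x (pderiv i (homogeneousComponent d Q)) := fun i =>
      ChartAt_eval_smul ((homogeneousComponent_isHomogeneous d Q).pderiv) c x
    have h4 : ∑ i, v i * eval (c • x) (pderiv i (homogeneousComponent d Q)) =
        c ^ (d - 1) * ∑ i, v i * eval x (pderiv i (homogeneousComponent d Q)) := by
      rw [Finset.mul_sum]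
      refine Finset.sum_congr rfl fun i _ => ?_
      rw [h3]
      ring
    rw [h4, h2, mul_zero]
  have h5 : ∀ i, eval (c • x) (pderiv i Q) = ∑ d ∈ Finset.range (Q.totalDegree + 1),
      eval (c • x) (pderiv i (homogeneousComponent d Q)) := by
    intro i
    conv_lhs => rw [← sum_homogeneousComponent Q]
    rw [map_sum, map_sum]
  simp only [h5, Finset.mul_sum]
  rw [Finset.sum_comm]
  exact Finset.sum_eq_zero fun d _ => h1 d

theorem conTan_smul (hP : Homog P) {c : ℂ} (hc : c ≠ 0) (x : Fin (N + 1) → ℂ) :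
    conTan P (c • x) = conTan P x := by
  refine le_antisymm ?_ (ChartAt_le hP hc x)
  have h1 := ChartAt_le hP (inv_ne_zero hc) (c • x)
  rwa [inv_smul_smul₀ hc] at h1

/-- Charts at smooth points. -/
theorem exists_chartAt [P.IsPrime] (hP : Homog P) {n : ℕ}
    (hz : ∃ z : Fin n → FunField P, IsTranscendenceBasis ℂ z)
    {x : Fin (N + 1) → ℂ} (hx : x ∈ Zer P) (hsm : Module.finrank ℂ (conTan P x) ≤ n + 1)
    {l : Fin (N + 1)} (hl : x l ≠ 0) :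
    ∃ (J : Fin n → Fin (N + 1)) (σ : (Fin n → ℂ) → Fin (N + 1) → ℂ), Chart P x l J σ := by
  obtain ⟨z, hz⟩ := hz
  have hXl : (X l : MvPolynomial (Fin (N + 1)) ℂ) ∉ P := by
    intro h
    have h1 := hx _ h
    rw [eval_X] at h1
    exact hl h1
  have hcf : coordFun P l ≠ 0 := Pool.Agent.H17R.coordFun_ne_zero_iff.2 hXl
  obtain ⟨w, hw⟩ : ∃ w : Fin (N + 1) → ℂ, w = (x l)⁻¹ • x := ⟨_, rfl⟩
  have hwP : ∀ Q ∈ P, eval w Q = 0 := by
    rw [hw]
    exact Pool.Agent.H13.SM.cone_smul hP hx _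
  have hwl : w l = 1 := by
    rw [hw, Pi.smul_apply, smul_eq_mul, inv_mul_cancel₀ hl]
  have hwk : ∀ i, x l * w i = x i := by
    intro i
    rw [hw, Pi.smul_apply, smul_eq_mul, mul_inv_cancel_left₀ hl]
  have hwx : x l • w = x := by
    rw [hw, smul_inv_smul₀ hl]
  have hwp : w ∈ pts (fun i => ratio P i l) := (Pool.Agent.H13.SM.mem_pts_iff hP hcf).2 ⟨hwl, hwP⟩
  have hsmw : Module.finrank ℂ (conTan P w) ≤ n + 1 := by
    rw [hw, conTan_smul hP (inv_ne_zero hl)]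
    exact hsm
  obtain ⟨f, hf, hli⟩ := Pool.Agent.H13.SM.exists_indep hsmw
  have hli' := Pool.Agent.H13.SM.indep_snoc hP hwP hwl hf hli
  have hnN : n ≤ N := Pool.Agent.H13.SM.trdeg_le hcf hz
  have hf' : ∀ j, aeval (fun i => ratio P i l)
      ((Fin.snoc f (X l - 1) : Fin (N - n + 1) → MvPolynomial (Fin (N + 1)) ℂ) j) = 0 := by
    intro j
    refine Fin.lastCases ?_ (fun j => ?_) j
    · rw [Fin.snoc_last, map_sub, aeval_X, map_one, Pool.Agent.H17R.ratio_self hcf, sub_self]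
    · rw [Fin.snoc_castSucc]
      exact ChartAt_aeval_mem hP hcf (hf j)
  obtain ⟨I, τ, hτa, hτ0, hτ1, hτ2, hτ3⟩ := Pool.Agent.H13.SM.exists_chart
    (Pool.Agent.H17R.adjoin_ratio hcf) hz (c := N - n + 1) (by rw [Fintype.card_fin]; omega)
    hf' hwp hli'
  refine ⟨I, fun u => x l • τ u, hl, ?_, ?_, ?_, ?_, ?_⟩
  · exact (analyticAt_const (v := x l)).smul hτa
  · simp only [hτ0]
    exact hwx
  · filter_upwards [hτ1] with u hu
    obtain ⟨h1, h2⟩ := hu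
    obtain ⟨h3, h4⟩ := (Pool.Agent.H13.SM.mem_pts_iff hP hcf).1 h1
    refine ⟨Pool.Agent.H13.SM.cone_smul hP h4 _, ?_, fun k => ?_⟩
    · rw [Pi.smul_apply, smul_eq_mul, h3, mul_one]
    · rw [Pi.smul_apply, smul_eq_mul, h2 k, mul_add, hwk]
  · have hc : ContinuousAt (fun y : Fin (N + 1) → ℂ => (y l)⁻¹ • y) x := by
      have h1 : ContinuousAt (fun y : Fin (N + 1) → ℂ => y l) x :=
        (continuous_apply l).continuousAt
      exact (h1.inv₀ hl).smul continuousAt_id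
    have hc' : Filter.Tendsto (fun y : Fin (N + 1) → ℂ => (y l)⁻¹ • y) (𝓝 x) (𝓝 w) := by
      rw [hw]
      exact hc
    have hne : ∀ᶠ y in 𝓝 x, (y : Fin (N + 1) → ℂ) l ≠ 0 :=
      (continuous_apply l).continuousAt.eventually_ne hl
    filter_upwards [hc'.eventually hτ2, hne] with y hy hyl hyP
    have h1 : (y l)⁻¹ • y ∈ pts (fun i => ratio P i l) := by
      rw [Pool.Agent.H13.SM.mem_pts_iff hP hcf]
      refine ⟨?_, Pool.Agent.H13.SM.cone_smul hP hyP _⟩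
      rw [Pi.smul_apply, smul_eq_mul, inv_mul_cancel₀ hyl]
    have h2 := hy h1
    have h3 : (fun k => ((y l)⁻¹ • y) (I k) - w (I k)) =
        fun k => y (I k) / y l - x (I k) / x l := by
      funext k
      rw [hw, Pi.smul_apply, Pi.smul_apply, smul_eq_mul, smul_eq_mul, div_eq_inv_mul,
        div_eq_inv_mul]
    rw [h3] at h2
    rw [← h2, smul_smul, smul_smul]
    have h4 : y l / x l * x l * (y l)⁻¹ = 1 := by
      field_simp
    rw [h4, one_smul]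
  · intro d Q hQ hQP hev
    have h1 : aeval (fun i => ratio P i l) Q ≠ 0 := fun h =>
      hQP ((Pool.Agent.H17R.gen_eq_zero_iff hcf hQ).1 h)
    refine hτ3 Q h1 ?_
    filter_upwards [hev] with u hu
    rw [ChartAt_eval_smul hQ] at hu
    exact (mul_eq_zero.1 hu).resolve_left (pow_ne_zero _ hl)

end Pool.Agent.H39.SY

end
end

section

/-!
# Qe Chart: the chart of the cone of a surface at a smooth point
-/

set_option autoImplicit false

open MvPolynomial Topology Filter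

noncomputable section

namespace Pool.Agent.H62.Qe

attribute [-instance] ProperSMul.toContinuousSMul

open Pool.Agent.H17LG.Variety (FunField)
open Pool.Agent.H62.FC (Homog)
open Pool.Agent.H17BP (IsChart)
open Pool.Agent.H13.SM (cone conTan)

variable {N : ℕ} {P : Ideal (MvPolynomial (Fin (N + 1)) ℂ)}

/-- The chart of the cone of a surface at a smooth point. -/
theorem exists_isChart [P.IsPrime] (hP : Homog P) {z : Fin 2 → FunField P}
    (hz : IsTranscendenceBasis ℂ z) {x : Fin (N + 1) → ℂ} (hx : x ∈ cone P) (hsm : Module.finrank ℂ (conTan P x) ≤ 3) :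
    ∃ (σ : ℂ × ℂ → Fin (N + 1) → ℂ) (τ : (Fin (N + 1) → ℂ) → ℂ × ℂ), IsChart (cone P) σ τ ∧ σ 0 = x := by
  obtain ⟨l, hl⟩ : ∃ l, x l ≠ 0 := by
    by_contra h
    push Not at h
    exact hx.1 (funext h)
  obtain ⟨I, σ, hch⟩ := Pool.Agent.H39.SY.exists_chartAt hP ⟨z, hz⟩ hx.2 hsm hl
  have h1 := hch.an
  have h2 := hch.zero
  have h3 := hch.coord
  have h4 := hch.near
  -- the linear isomorphism `ℂ × ℂ → (Fin 2 → ℂ)`
  have hvan : ∀ p : ℂ × ℂ, AnalyticAt ℂ (fun q : ℂ × ℂ => (![q.1, q.2] : Fin 2 → ℂ)) p := by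
    intro p
    refine AnalyticAt.pi fun k => ?_
    fin_cases k
    · exact analyticAt_fst
    · exact analyticAt_snd
  have hv0 : (![(0 : ℂ × ℂ).1, (0 : ℂ × ℂ).2] : Fin 2 → ℂ) = 0 := by
    funext k
    fin_cases k <;> rfl
  have hvt : Tendsto (fun q : ℂ × ℂ => (![q.1, q.2] : Fin 2 → ℂ)) (𝓝 0) (𝓝 0) := by
    have := (hvan 0).continuousAt.tendsto
    rwa [hv0] at this
  have hl1 : ∀ᶠ y in 𝓝 x, y l ≠ 0 :=
    (continuous_apply l).continuousAt.eventually_ne hl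
  have hvec : ∀ y : Fin (N + 1) → ℂ, (fun k => y (I k) / y l - x (I k) / x l) =
      (![y (I 0) / y l - x (I 0) / x l, y (I 1) / y l - x (I 1) / x l] : Fin 2 → ℂ) := by
    intro y
    funext k
    fin_cases k <;> rfl
  have h4' : ∀ᶠ y in 𝓝 x, (∀ Q ∈ P, eval y Q = 0) →
      y = (y l / x l) • σ ![y (I 0) / y l - x (I 0) / x l, y (I 1) / y l - x (I 1) / x l] := by
    filter_upwards [h4] with y hy hy'
    have := hy hy'
    rwa [hvec] at this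
  have hσ0 : σ ![(0 : ℂ × ℂ).1, (0 : ℂ × ℂ).2] = x := by rw [hv0, h2]
  refine ⟨fun p => σ ![p.1, p.2], fun y => (y (I 0) / y l - x (I 0) / x l, y (I 1) / y l - x (I 1) / x l), ?_, hσ0⟩
  refine ⟨?_, ?_, ?_, ?_, ?_, ?_, ?_⟩
  · have h6 : AnalyticAt ℂ σ ((fun q : ℂ × ℂ => (![q.1, q.2] : Fin 2 → ℂ)) 0) := by
      simpa only [hv0] using h1
    exact AnalyticAt.comp (g := σ) (f := fun q : ℂ × ℂ => (![q.1, q.2] : Fin 2 → ℂ)) h6 (hvan 0)
  · filter_upwards [hvt.eventually h3] with p hp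
    refine ⟨?_, hp.1⟩
    intro h6
    apply hl
    rw [← hp.2.1, h6]
    rfl
  · rw [hσ0]
    exact hx.1
  · rw [hσ0]
    have hpr : ∀ i : Fin (N + 1), AnalyticAt ℂ (fun y : Fin (N + 1) → ℂ => y i) x := fun i =>
      (ContinuousLinearMap.proj (R := ℂ) (φ := fun _ : Fin (N + 1) => ℂ) i).analyticAt x
    exact (((hpr _).div (hpr l) hl).sub analyticAt_const).prod
      (((hpr _).div (hpr l) hl).sub analyticAt_const)
  · filter_upwards [hvt.eventually h3] with p hp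
    have e0 := hp.2.2 0
    have e1 := hp.2.2 1
    simp only [Matrix.cons_val_zero, Matrix.cons_val_one] at e0 e1
    ext
    · change σ ![p.1, p.2] (I 0) / σ ![p.1, p.2] l - x (I 0) / x l = p.1
      rw [e0, hp.2.1]
      field_simp
      ring
    · change σ ![p.1, p.2] (I 1) / σ ![p.1, p.2] l - x (I 1) / x l = p.2
      rw [e1, hp.2.1]
      field_simp
      ring
  · rw [hσ0]
    filter_upwards [h4', hl1] with y hy hyl hyX
    exact ⟨y l / x l, div_ne_zero hyl hl, hy hyX.2⟩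
  · rw [hσ0]
    have h7 : ∀ᶠ p in 𝓝 (x, (1 : ℂ)), p.2 ≠ 0 := by
      have : ContinuousAt (fun p : (Fin (N + 1) → ℂ) × ℂ => p.2) (x, (1 : ℂ)) :=
        continuousAt_snd
      exact this.eventually_ne one_ne_zero
    filter_upwards [h7] with p hp
    simp only [Pi.smul_apply, smul_eq_mul]
    rw [mul_div_mul_left _ _ hp, mul_div_mul_left _ _ hp]

end Pool.Agent.H62.Qe

end
end
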