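import Pool.Agent.H94.CB.H36.BP.WdA_2
import Pool.Agent.H94.CB.M34
import Pool.Agent.H94.CB.M38

/-! The parts of this file: H13.CV.Step, H36.BP.ExtC, H68.KR.KOD. -/

section

/-!
# CV Step: one more condition at a place lowers the dimension by at most one

`finrank_le_step`: let `oz E t = 1` (`exists_uni`).  The map `W → ℂ`, `f ↦ res E (f * t ^ (-d))` is linear (`res_add`, `res_smul`: `0 ≤ ord (f * t ^ (-d))` for `f ∈ W`), and its kernel is
`W ⊓ ordGe E (d + 1)` (`res_eq_zero_iff`).  Rank-nullity: `LinearMap.finrank_range_add_finrank_ker`, and the range has dimension `≤ 1`.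
`finrank_le_steps`: induction on `T`, and on `e E` for the new place.
-/

set_option autoImplicit false

open Pool.Agent.H23.Fano (PrimeDivisorOver Form regularForms)

noncomputable section

namespace Pool.Agent.H13.CV

attribute [-instance] ProperSMul.toContinuousSMul

variable {K : Type} [Field K] [Algebra ℂ K]

theorem mem_ordGe {E : Place K} {d : ℤ} {f : K} : f ∈ ordGe E d ↔ (d : WithTop ℤ) ≤ E.ord f := Iff.rfl

theorem mem_LD {D : Place K → ℤ} {f : K} : f ∈ LD D ↔ ∀ E, ((-D E : ℤ) : WithTop ℤ) ≤ E.ord f := by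
  rw [LD, Submodule.mem_iInf]
  exact Iff.rfl

theorem ordGe_anti (E : Place K) {d d' : ℤ} (h : d ≤ d') : ordGe E d' ≤ ordGe E d := by
  intro f hf
  rw [mem_ordGe] at hf ⊢
  exact le_trans (WithTop.coe_le_coe.mpr h) hf

/-- the twisted function is regular -/
private theorem Step_nonneg {E : Place K} {u f : K} {d : ℤ} (hu : u ≠ 0) (hou : oz E u = -d) (hf : f ∈ ordGe E d) :
    0 ≤ E.ord (f * u) := by
  rw [nonneg_iff]
  rw [mem_ordGe, le_ord_iff] at hf
  by_cases h0 : f = 0
  · left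
    rw [h0, zero_mul]
  · right
    rw [oz_mul E h0 hu, hou]
    rcases hf with h | h
    · exact absurd h h0
    · omega

/-- the twisted function vanishes at the place iff the order is one larger -/
private theorem Step_pos {E : Place K} {u f : K} {d : ℤ} (hu : u ≠ 0) (hou : oz E u = -d) (h : 0 < E.ord (f * u)) :
    f ∈ ordGe E (d + 1) := by
  rw [mem_ordGe, le_ord_iff]
  by_cases h0 : f = 0
  · left
    exact h0
  · right
    rw [pos_iff, oz_mul E h0 hu, hou] at h
    rcases h with h | h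
    · exact absurd h (mul_ne_zero h0 hu)
    · omega

/-- the linear map: the leading coefficient -/
private def Step_map (hK : CurveField K) (W : Submodule ℂ K) (E : Place K) (d : ℤ) (hW : W ≤ ordGe E d) (u : K)
    (hu : u ≠ 0) (hou : oz E u = -d) : W →ₗ[ℂ] ℂ where
  toFun f := res E ((f : K) * u)
  map_add' f g := by
    show res E (((f + g : W) : K) * u) = _
    rw [Submodule.coe_add, add_mul]
    exact res_add hK (Step_nonneg hu hou (hW f.2)) (Step_nonneg hu hou (hW g.2))
  map_smul' c f := by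
    show res E (((c • f : W) : K) * u) = _
    rw [Submodule.coe_smul, smul_mul_assoc]
    exact res_smul hK c (Step_nonneg hu hou (hW f.2))

theorem finrank_le_step (hK : CurveField K) (W : Submodule ℂ K) [FiniteDimensional ℂ W] (E : Place K) (d : ℤ) (hW : W ≤ ordGe E d) :
    Module.finrank ℂ W ≤ Module.finrank ℂ (W ⊓ ordGe E (d + 1) : Submodule ℂ K) + 1 := by
  obtain ⟨t, ht, hot⟩ := exists_uni E
  have hu : t ^ (-d) ≠ 0 := zpow_ne_zero _ ht
  have hou : oz E (t ^ (-d)) = -d := by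
    rw [oz_zpow, hot, mul_one]
  have hrk := LinearMap.finrank_range_add_finrank_ker (Step_map hK W E d hW (t ^ (-d)) hu hou)
  have hr : Module.finrank ℂ (LinearMap.range (Step_map hK W E d hW (t ^ (-d)) hu hou)) ≤ 1 := by
    have h := Submodule.finrank_le (LinearMap.range (Step_map hK W E d hW (t ^ (-d)) hu hou))
    rwa [Module.finrank_self] at h
  have hk : Module.finrank ℂ (LinearMap.ker (Step_map hK W E d hW (t ^ (-d)) hu hou)) ≤
      Module.finrank ℂ (W ⊓ ordGe E (d + 1) : Submodule ℂ K) := by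
    rw [← Submodule.finrank_map_subtype_eq W (LinearMap.ker (Step_map hK W E d hW (t ^ (-d)) hu hou))]
    refine Submodule.finrank_mono ?_
    rintro f hf
    obtain ⟨g, hg, rfl⟩ := Submodule.mem_map.mp hf
    refine Submodule.mem_inf.mpr ⟨g.2, ?_⟩
    have h1 : res E ((g : K) * t ^ (-d)) = 0 := hg
    have h2 := (res_eq_zero_iff hK (Step_nonneg hu hou (hW g.2))).mp h1
    exact Step_pos hu hou h2
  omega

private theorem Step_iter (hK : CurveField K) (W : Submodule ℂ K) [FiniteDimensional ℂ W] (E : Place K) (d : ℤ)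
    (hW : W ≤ ordGe E d) (k : ℕ) :
    Module.finrank ℂ W ≤ Module.finrank ℂ (W ⊓ ordGe E (d + k) : Submodule ℂ K) + k := by
  induction k with
  | zero =>
    have h : W ⊓ ordGe E (d + (0 : ℕ)) = W := by
      rw [Nat.cast_zero, add_zero]
      exact inf_eq_left.mpr hW
    rw [h, add_zero]
  | succ k ih =>
    have h1 := finrank_le_step hK (W ⊓ ordGe E (d + k)) E (d + k) inf_le_right
    have h2 : (W ⊓ ordGe E (d + k)) ⊓ ordGe E (d + k + 1) = W ⊓ ordGe E (d + ((k + 1 : ℕ) : ℤ)) := by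
      have h3 : d + (k : ℤ) + 1 = d + ((k + 1 : ℕ) : ℤ) := by
        push_cast
        ring
      rw [inf_assoc, inf_eq_right.mpr (ordGe_anti E (by omega : d + (k : ℤ) ≤ d + (k : ℤ) + 1)), h3]
    rw [h2] at h1
    omega

theorem finrank_le_steps (hK : CurveField K) (W : Submodule ℂ K) [FiniteDimensional ℂ W] (T : Finset (Place K)) (d : Place K → ℤ) (e : Place K → ℕ)
    (hW : ∀ E ∈ T, W ≤ ordGe E (d E)) :
    Module.finrank ℂ W ≤ Module.finrank ℂ (W ⊓ ⨅ E ∈ T, ordGe E (d E + e E) : Submodule ℂ K) + ∑ E ∈ T, e E := by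
  classical
  induction T using Finset.induction_on with
  | empty =>
    have h : W ⊓ ⨅ E ∈ (∅ : Finset (Place K)), ordGe E (d E + e E) = W :=
      inf_eq_left.mpr (le_iInf fun E => le_iInf fun hE => absurd hE (Finset.notMem_empty E))
    rw [h]
    exact Nat.le_add_right _ _
  | insert E T hE ih =>
    have ih' := ih fun E' hE' => hW E' (Finset.mem_insert_of_mem hE')
    have hle : W ⊓ ⨅ E' ∈ T, ordGe E' (d E' + e E') ≤ ordGe E (d E) :=
      le_trans inf_le_left (hW E (Finset.mem_insert_self E T))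
    have h1 := Step_iter hK (W ⊓ ⨅ E' ∈ T, ordGe E' (d E' + e E')) E (d E) hle (e E)
    have h2 : (W ⊓ ⨅ E' ∈ T, ordGe E' (d E' + e E')) ⊓ ordGe E (d E + e E) =
        W ⊓ ⨅ E' ∈ insert E T, ordGe E' (d E' + e E') := by
      rw [Finset.iInf_insert, inf_assoc, inf_comm (ordGe E (d E + e E))]
    rw [h2] at h1
    rw [Finset.sum_insert hE]
    omega

end Pool.Agent.H13.CV

end
end

section

/-!
# BP ExtC: points where the metric is positive

Near `z`: `ρ(F w) ≠ 0` for `w ≠ z` (`ρ_zero`, `hB`), and `wd (F w) (deriv F w) ≠ 0` for `w ≠ z`: otherwise (frequently `0`) all minors `F_i F_j' - F_j F_i'` (holomorphic; they vanish where `F' = a F`, `wd_eq_zero`) vanish frequently, hence near `z`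
(`AnalyticAt.frequently_zero_iff_eventually_zero`), and then `wd = 0` near `z` (if all minors of `(x, v)` vanish and `x ≠ 0` then `v` is a multiple of `x`), against `hc`.  Now `lower`: `mt G F w ≥ ρ^M fs > 0`.
-/

set_option autoImplicit false

namespace Pool.Agent.H36.BP

attribute [-instance] ProperSMul.toContinuousSMul

open Filter Topology Metric

variable {N : ℕ}

variable {K B : Set (EN N)} {G : EN N → EN N → ℝ} {ρ : EN N → ℝ} {M : ℕ} {c₀ C : ℝ}

private theorem ExtC_proj {F : ℂ → EN N} {z : ℂ} (hF : AnalyticAt ℂ F z) (i : Fin (N + 1)) :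
    AnalyticAt ℂ (fun w => F w i) z :=
  (ContinuousLinearMap.analyticAt (EuclideanSpace.proj i : EN N →L[ℂ] ℂ) (F z)).comp hF

theorem exists_pos (hM : MetricData K B G ρ M c₀ C) {F : ℂ → EN N} {z : ℂ} (hF : AnalyticAt ℂ F z) (hK : ∀ᶠ w in 𝓝 z, F w ∈ K)
    (hB : ¬ ∀ᶠ w in 𝓝 z, F w ∈ B) (hc : ¬ ∀ᶠ w in 𝓝 z, wd (F w) (deriv F w) = 0) : ∀ᶠ w in 𝓝[≠] z, 0 < mt G F w := by
  have h1 : ∀ᶠ w in 𝓝[≠] z, ρ (F w) ≠ 0 := by
    by_contra h
    exact hB (hM.ρ_zero F z hF hK (by
      rw [Filter.not_eventually] at h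
      simpa using h))
  have h2 : ∀ᶠ w in 𝓝[≠] z, wd (F w) (deriv F w) ≠ 0 := by
    by_contra h
    rw [Filter.not_eventually] at h
    refine hc ?_
    have h3 : ∀ i j : Fin (N + 1),
        ∀ᶠ w in 𝓝 z, F w i * deriv F w j - F w j * deriv F w i = 0 := by
      intro i j
      have han : AnalyticAt ℂ (fun w => F w i * deriv F w j - F w j * deriv F w i) z :=
        ((ExtC_proj hF i).mul (ExtC_proj hF.deriv j)).sub
          ((ExtC_proj hF j).mul (ExtC_proj hF.deriv i))
      refine (han.frequently_zero_iff_eventually_zero).1 ?_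
      refine (h.and_eventually (hK.filter_mono nhdsWithin_le_nhds)).mono ?_
      rintro w ⟨hw1, hw2⟩
      rw [not_not, wd_eq_zero (hM.ne _ hw2)] at hw1
      obtain ⟨a, ha⟩ := hw1
      rw [ha]
      simp only [PiLp.smul_apply, smul_eq_mul]
      ring
    have h4 : ∀ᶠ w in 𝓝 z, ∀ i j : Fin (N + 1),
        F w i * deriv F w j - F w j * deriv F w i = 0 :=
      Filter.eventually_all.2 fun i => Filter.eventually_all.2 fun j => h3 i j
    filter_upwards [h4, hK] with w hw1 hw2
    rw [wd_eq_zero (hM.ne _ hw2)]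
    have h5 : ∃ i, F w i ≠ 0 := by
      by_contra h6
      rw [not_exists] at h6
      refine hM.ne _ hw2 (PiLp.ext fun i => ?_)
      exact not_not.1 (h6 i)
    obtain ⟨i, hi⟩ := h5
    refine ⟨deriv F w i / F w i, PiLp.ext fun j => ?_⟩
    rw [PiLp.smul_apply, smul_eq_mul]
    have h6 := hw1 i j
    field_simp
    linear_combination h6
  filter_upwards [h1, h2, hK.filter_mono nhdsWithin_le_nhds] with w hw1 hw2 hw3
  have h3 : 0 < ρ (F w) := lt_of_le_of_ne (hM.ρ_nonneg _ hw3) (Ne.symm hw1)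
  have h4 : 0 < wd (F w) (deriv F w) := lt_of_le_of_ne (wd_nonneg _ _) (Ne.symm hw2)
  have h5 : 0 < ‖F w‖ := norm_pos_iff.2 (hM.ne _ hw3)
  have h6 : 0 < fs (F w) (deriv F w) := div_pos h4 (pow_pos h5 2)
  exact (mul_pos (pow_pos h3 M) h6).trans_le (hM.lower _ hw3 _)

end Pool.Agent.H36.BP

end

section

/-!
# KR KOD: Kodaira's lemma

`exists_relation`.  `ξ` is algebraic over the field `ℂ(φ)`, `φ i = f i / f 0`, hence over the ring `ℂ[φ]` (the field is its
fraction field: `IsFractionRing` instance in the scope `algebraAdjoinAdjoin` of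
`Mathlib/FieldTheory/IntermediateField/Adjoin/Algebra.lean`, `IsFractionRing.isAlgebraic_iff` or
`IsAlgebraic.of…`/clearing denominators).  So there is a polynomial `p ≠ 0` over `ℂ[φ]` with `p (ξ) = 0`; divide by the
power of `T` (`Polynomial.exists_eq_X_pow…`, `p.divX`, or choose `p` of minimal degree; `ξ ≠ 0`): `p.coeff 0 ≠ 0`.
`p.coeff k = aeval φ (g k)` (`Algebra.adjoin_range_eq_range_aeval`).  Let `D ≥ 1` be at least all total degrees,
`a k = hmz 0 D (g k)`: homogeneous of degree `D`, `aeval f (a k) = f 0 ^ D * aeval φ (g k)` (`eval₂_hmz`, `aeval` is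
`eval₂ (algebraMap …)`).

`exists_good_coordinate`.  Let `x` be the point of `exists_point`, `l` with `D.ord (x l)` minimal (finite set,
`Finset.exists_min_image`); `x ≠ 0`, so `x l ≠ 0` (its order is not `⊤`) and `X l ∉ P`; `ratio P i l = x i / x l` has order
`≥ 0`: `D.ord (x i) = D.ord (x i / x l) + D.ord (x l)`.

`kodaira`.  Let `m, ω, r, f` be given by `hgt` (`B` is empty: for all `i`, `D` `PoleAtMost 0 D m (f i) ω`).  Choose `o` with
`X o ∉ P`.  For every `l` with `X l ∉ P` let `ξ l = ratio P o l ≠ 0`, and `D_l ≥ 1`, `n_l`, `a^l` be given by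
`exists_relation` (for other `l` put the factor `1` and `D_l = 0`).
`H = ∏_l aeval f (a^l 0)` over `l` with `X l ∉ P`, `M = m * ∑ D_l ≥ 1`.  `H ≠ 0`.
Let `D` be a prime divisor and `l'` with `X l' ∉ P`.  For every `i` there are `g_i, η_i` with `ω = g_i • η_i`,
`0 ≤ D.ord (f i * g_i ^ m)`.  Let `g = g_i, η = η_i` be those with `D.ord g_i` maximal (it is not `⊤`: `g_i ≠ 0` as
`ω ≠ 0`).  Then `0 ≤ D.ord (f i * g ^ m)` for all `i`.  Hence for `a` homogeneous of degree `d`:
`aeval f a * g ^ (m d) = aeval (fun i => f i * g ^ m) a` has order `≥ 0` (`eval₂_of_isHomogeneous`; a polynomial with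
constant coefficients in elements of the valuation ring, `D.ord_const`, `MvPolynomial.induction_on` or `eval₂_eq` and the sum
formula).  Let `l` be the coordinate of `exists_good_coordinate`.
`aeval f (a^l 0) * g^(m D_l) = - ξ_l * ∑_{k ≥ 1} (aeval f (a^l k) * g^(m D_l)) ξ_l^(k-1)` and `ξ_l = ratio P o l` has
order `≥ 0`, so `D.ord (aeval f (a^l 0) * g^(m D_l)) ≥ D.ord ξ_l`, and the other factors of
`H * g ^ M = ∏ (aeval f (a^l 0) * g^(m D_l))` have order `≥ 0`.  So
`D.ord (H * ratio P l' o * g ^ M) ≥ D.ord (ratio P o l * ratio P l' o) = D.ord (ratio P l' l) ≥ 0`.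
-/

set_option autoImplicit false

open MvPolynomial
open Pool.Agent.H23.Fano (Form regularForms PrimeDivisorOver)
open Pool.Agent.H17GT (coordFun functionField)
open Pool.Agent.H17LG.Variety (FunField ratio PoleAtMost IsLogGeneralType)

noncomputable section

namespace Pool.Agent.H68.KR

attribute [-instance] ProperSMul.toContinuousSMul

theorem exists_relation {K : Type} [Field K] [Algebra ℂ K] {r : ℕ} {f : Fin (r + 1) → K} (hf : f 0 ≠ 0)
    {ξ : K} (hξ : ξ ≠ 0)
    (halg : IsAlgebraic (IntermediateField.adjoin ℂ (Set.range fun i => f i / f 0)) ξ) :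
    ∃ (D n : ℕ) (a : ℕ → MvPolynomial (Fin (r + 1)) ℂ), 1 ≤ D ∧ (∀ k, (a k).IsHomogeneous D) ∧
      aeval f (a 0) ≠ 0 ∧ ∑ k ∈ Finset.range (n + 1), aeval f (a k) * ξ ^ k = 0 := by
  classical
  have halg2 : IsAlgebraic (Algebra.adjoin ℂ (Set.range fun i => f i / f 0)) ξ := by
    open scoped IntermediateField.algebraAdjoinAdjoin in
    exact (IsFractionRing.isAlgebraic_iff (Algebra.adjoin ℂ (Set.range fun i => f i / f 0))
      (IntermediateField.adjoin ℂ (Set.range fun i => f i / f 0)) K).2 halg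
  obtain ⟨p, hp0, hp⟩ := halg2
  obtain ⟨q, hpq, hq⟩ := Polynomial.exists_eq_pow_rootMultiplicity_mul_and_not_dvd p hp0 0
  rw [map_zero, sub_zero] at hpq hq
  rw [Polynomial.X_dvd_iff] at hq
  have hq0 : Polynomial.aeval ξ q = 0 := by
    rw [hpq, map_mul, map_pow, Polynomial.aeval_X] at hp
    exact (mul_eq_zero.1 hp).resolve_left (pow_ne_zero _ hξ)
  have hg : ∀ k, ∃ G : MvPolynomial (Fin (r + 1)) ℂ, aeval (fun i => f i / f 0) G =
      ((q.coeff k : Algebra.adjoin ℂ (Set.range fun i => f i / f 0)) : K) := by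
    intro k
    have h1 : ∀ y ∈ Algebra.adjoin ℂ (Set.range fun i => f i / f 0),
        ∃ G : MvPolynomial (Fin (r + 1)) ℂ, aeval (fun i => f i / f 0) G = y := by
      intro y hy
      rw [Algebra.adjoin_range_eq_range_aeval] at hy
      exact hy
    exact h1 _ (q.coeff k).2
  choose G hG using hg
  refine ⟨1 + ∑ k ∈ Finset.range (q.natDegree + 1), (G k).totalDegree, q.natDegree,
    fun k => hmz 0 (1 + ∑ k ∈ Finset.range (q.natDegree + 1), (G k).totalDegree) (G k), by omega,
    fun k => hmz_isHomogeneous _ _ _, ?_, ?_⟩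
  all_goals
    have key : ∀ k ∈ Finset.range (q.natDegree + 1),
        aeval f (hmz 0 (1 + ∑ k ∈ Finset.range (q.natDegree + 1), (G k).totalDegree) (G k)) =
          f 0 ^ (1 + ∑ k ∈ Finset.range (q.natDegree + 1), (G k).totalDegree) *
            ((q.coeff k : Algebra.adjoin ℂ (Set.range fun i => f i / f 0)) : K) := by
      intro k hk
      rw [← hG k]
      have h1 : (G k).totalDegree ≤ 1 + ∑ k ∈ Finset.range (q.natDegree + 1), (G k).totalDegree := by
        have := Finset.single_le_sum (f := fun k => (G k).totalDegree)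
          (fun i _ => Nat.zero_le _) hk
        exact le_trans this (Nat.le_add_left _ _)
      exact eval₂_hmz (algebraMap ℂ K) h1 hf
  · rw [key 0 (by simp)]
    apply mul_ne_zero (pow_ne_zero _ hf)
    intro h
    exact hq (Subtype.ext h)
  · rw [Finset.sum_congr rfl fun k hk => by rw [key k hk, mul_assoc], ← Finset.mul_sum]
    have h2 : ∑ k ∈ Finset.range (q.natDegree + 1),
        ((q.coeff k : Algebra.adjoin ℂ (Set.range fun i => f i / f 0)) : K) * ξ ^ k = 0 := by
      rw [← hq0, Polynomial.aeval_eq_sum_range]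
      refine Finset.sum_congr rfl fun k _ => ?_
      rw [Algebra.smul_def]
      rfl
    rw [h2, mul_zero]

variable {N : ℕ} (P : Ideal (MvPolynomial (Fin (N + 1)) ℂ)) [P.IsPrime]

private theorem X_coordFun_ne {l : Fin (N + 1)} (h : coordFun P l ≠ 0) : X l ∉ P := by
  intro hX
  apply h
  rw [coordFun, Ideal.Quotient.eq_zero_iff_mem.2 hX, map_zero]

private theorem X_coordFun_ne' {l : Fin (N + 1)} (h : X l ∉ P) : coordFun P l ≠ 0 := by
  intro h0
  apply h
  rw [coordFun] at h0
  have h10 : Ideal.Quotient.mk P (X l) = 0 :=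
    (IsFractionRing.injective (MvPolynomial (Fin (N + 1)) ℂ ⧸ P)
      (FractionRing (MvPolynomial (Fin (N + 1)) ℂ ⧸ P))) (by rw [h0, map_zero])
  exact Ideal.Quotient.eq_zero_iff_mem.1 h10

theorem exists_good_coordinate {k : ℕ} (z : Fin (k + 1) → FunField P) (hz : IsTranscendenceBasis ℂ z)
    {n : ℕ} (D : PrimeDivisorOver (FunField P) n) :
    ∃ l, X l ∉ P ∧ ∀ i, 0 ≤ D.ord (ratio P i l) := by
  obtain ⟨x, hx0, -, -, -, hx5, hx6⟩ := exists_point P z hz
  obtain ⟨l, hl⟩ := Finite.exists_min fun l => D.ord (x l)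
  obtain ⟨i₀, hi₀⟩ : ∃ i, x i ≠ 0 := by
    by_contra hcon
    push Not at hcon
    exact hx0 (funext hcon)
  have hl1 : D.ord (x l) ≠ ⊤ := by
    intro h
    have h1 := hl i₀
    rw [h, top_le_iff] at h1
    exact hi₀ (D.ord.top_iff.1 h1)
  have hl2 : x l ≠ 0 := by
    intro h
    exact hl1 (by rw [h]; exact D.ord.map_zero)
  refine ⟨l, X_coordFun_ne P fun h => hl2 ((hx5 l).2 h), fun i => ?_⟩
  rw [← hx6]
  have h2 : x i = x i / x l * x l := by field_simp
  have h3 : D.ord (x l) ≤ D.ord (x i) := hl i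
  rw [h2, D.ord.map_mul] at h3
  obtain ⟨c, hc⟩ := WithTop.ne_top_iff_exists.1 hl1
  rw [← hc] at h3
  rcases h4 : D.ord (x i / x l) with _ | b
  · exact le_top
  · rw [h4] at h3
    have h5 : (c : WithTop ℤ) ≤ ((b + c : ℤ) : WithTop ℤ) := h3
    have h6 : c ≤ b + c := WithTop.coe_le_coe.1 h5
    have h7 : 0 ≤ b := by omega
    exact WithTop.coe_le_coe.2 h7

private theorem X_ord_aeval {K : Type} [Field K] [Algebra ℂ K] {n s : ℕ} (D : PrimeDivisorOver K n)
    (y : Fin s → K) (hy : ∀ i, 0 ≤ D.ord (y i)) (Q : MvPolynomial (Fin s) ℂ) :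
    0 ≤ D.ord (aeval y Q) := by
  induction Q using MvPolynomial.induction_on with
  | C a =>
    rw [aeval_C]
    exact D.ord_const a
  | add p q hp hq =>
    rw [map_add]
    exact D.ord.map_le_add hp hq
  | mul_X p i hp =>
    rw [map_mul, aeval_X, D.ord.map_mul]
    exact add_nonneg hp (hy i)

private theorem X_ord_prod {K : Type} [Field K] [Algebra ℂ K] {n : ℕ} (D : PrimeDivisorOver K n)
    {ι : Type} (S : Finset ι) (y : ι → K) (hy : ∀ i ∈ S, 0 ≤ D.ord (y i)) :
    0 ≤ D.ord (∏ i ∈ S, y i) := by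
  classical
  induction S using Finset.induction_on with
  | empty => rw [Finset.prod_empty, D.ord.map_one]
  | insert a S ha ih =>
    rw [Finset.prod_insert ha, D.ord.map_mul]
    exact add_nonneg (hy a (Finset.mem_insert_self _ _))
      (ih fun i hi => hy i (Finset.mem_insert_of_mem hi))

private theorem X_solve {K : Type} [Field K] {n : ℕ} {A : ℕ → K} {ξ : K} (c : K)
    (h : ∑ j ∈ Finset.range (n + 1), A j * ξ ^ j = 0) :
    c * A 0 = ξ * (-∑ j ∈ Finset.range n, c * A (j + 1) * ξ ^ j) := by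
  rw [Finset.sum_range_succ', pow_zero, mul_one] at h
  have h7 : A 0 = -∑ j ∈ Finset.range n, A (j + 1) * ξ ^ (j + 1) := by
    linear_combination h
  rw [h7, mul_neg, mul_neg, Finset.mul_sum, Finset.mul_sum]
  congr 1
  refine Finset.sum_congr rfl fun j _ => ?_
  ring

/-- Kodaira's lemma. -/
theorem kodaira {k : ℕ} (z : Fin (k + 1) → FunField P) (hz : IsTranscendenceBasis ℂ z) {n : ℕ}
    (hgt : IsLogGeneralType (K := FunField P) (k := n) fun _ => False) :
    ∃ ω : Form (FunField P) n, ω ≠ 0 ∧ ∃ (M : ℕ) (H : FunField P) (o : Fin (N + 1)), 1 ≤ M ∧ H ≠ 0 ∧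
      X o ∉ P ∧ ∀ l, X l ∉ P → ∀ D : PrimeDivisorOver (FunField P) n,
        PoleAtMost 0 D M (H * ratio P l o) ω := by
  classical
  obtain ⟨m, hm, ω, hω, r, f, hf, hpole, halg⟩ := hgt
  obtain ⟨x, hx0, -, -, -, hx5, hx6⟩ := exists_point P z hz
  obtain ⟨o, ho⟩ : ∃ i, x i ≠ 0 := by
    by_contra hcon
    push Not at hcon
    exact hx0 (funext hcon)
  have hoP : X o ∉ P := X_coordFun_ne P fun h => ho ((hx5 o).2 h)
  have hx7 : ∀ l, X l ∉ P → x l ≠ 0 := fun l hl h => X_coordFun_ne' P hl ((hx5 l).1 h)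
  have hξ : ∀ l, X l ∉ P → ratio P o l ≠ 0 := by
    intro l hl
    rw [← hx6]
    exact div_ne_zero ho (hx7 l hl)
  have hex : ∀ l : Fin (N + 1), ∃ (D n : ℕ) (a : ℕ → MvPolynomial (Fin (r + 1)) ℂ),
      (∀ k, (a k).IsHomogeneous D) ∧ aeval f (a 0) ≠ 0 ∧ (X l ∉ P → 1 ≤ D ∧
        ∑ k ∈ Finset.range (n + 1), aeval f (a k) * ratio P o l ^ k = 0) := by
    intro l
    by_cases hl : X l ∈ P
    · refine ⟨0, 0, fun _ => 1, fun _ => isHomogeneous_one _ _, ?_, fun h => absurd hl h⟩
      rw [map_one]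
      exact one_ne_zero
    · obtain ⟨D, n, a, h1, h2, h3, h4⟩ := exists_relation hf (hξ l hl)
        (halg.isAlgebraic (ratio P o l))
      exact ⟨D, n, a, h2, h3, fun _ => ⟨h1, h4⟩⟩
  choose d nn a ha ha0 hrel using hex
  refine ⟨ω, hω, m * ∑ l, d l, ∏ l, aeval f (a l 0), o, ?_, ?_, hoP, ?_⟩
  · have h1 : 1 ≤ d o := (hrel o hoP).1
    have h2 : d o ≤ ∑ l, d l := Finset.single_le_sum (f := d) (fun i _ => Nat.zero_le _)
      (Finset.mem_univ o)
    exact Nat.mul_pos hm (by omega)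
  · exact Finset.prod_ne_zero_iff.2 fun l _ => ha0 l
  · intro l' hl' D
    have h1 : ∀ i, ∃ (g : FunField P) (η : Form (FunField P) n), η ∈ regularForms n D.localRing ∧
        ω = g • η ∧ 0 ≤ D.ord (f i * g ^ m) := by
      intro i
      obtain ⟨g, η, h2, h3, h4⟩ := (hpole i D).1 (fun h => h)
      refine ⟨g, η, h2, h3, ?_⟩
      rw [Nat.cast_zero, add_zero] at h4
      exact h4
    choose g η hη hωg hord using h1
    obtain ⟨i₀, hi₀⟩ := Finite.exists_max fun i => D.ord (g i)
    have h2 : ∀ i, 0 ≤ D.ord (g i₀ ^ m * f i) := by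
      intro i
      refine le_trans (hord i) ?_
      rw [D.ord.map_mul, D.ord.map_mul, D.ord.map_pow, D.ord.map_pow, add_comm]
      gcongr
      exact hi₀ i
    have h3 : ∀ l j, 0 ≤ D.ord (g i₀ ^ (m * d l) * aeval f (a l j)) := by
      intro l j
      have h4 := eval₂_of_isHomogeneous (algebraMap ℂ (FunField P)) (ha l j) (g i₀ ^ m) f
      rw [pow_mul]
      have h5 := X_ord_aeval D (fun i => g i₀ ^ m * f i) h2 (a l j)
      rw [aeval_def, h4] at h5
      exact h5
    obtain ⟨l, hlP, hl⟩ := exists_good_coordinate P z hz D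
    have h4 : D.ord (ratio P o l) ≤ D.ord (g i₀ ^ (m * d l) * aeval f (a l 0)) := by
      have h6 := X_solve (g i₀ ^ (m * d l)) (hrel l hlP).2
      rw [h6, D.ord.map_mul]
      refine le_add_of_nonneg_right ?_
      rw [D.ord.map_neg]
      refine D.ord.map_le_sum fun j _ => ?_
      rw [D.ord.map_mul, D.ord.map_pow]
      exact add_nonneg (h3 l (j + 1)) (nsmul_nonneg (hl o) j)
    have h5 : D.ord (ratio P o l) ≤ D.ord (g i₀ ^ (m * ∑ l, d l) * ∏ l, aeval f (a l 0)) := by
      have h6 : g i₀ ^ (m * ∑ l, d l) * ∏ l, aeval f (a l 0) =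
          ∏ l, (g i₀ ^ (m * d l) * aeval f (a l 0)) := by
        rw [Finset.prod_mul_distrib, Finset.prod_pow_eq_pow_sum, Finset.mul_sum]
      rw [h6, ← Finset.mul_prod_erase _ _ (Finset.mem_univ l), D.ord.map_mul]
      exact le_add_of_le_of_nonneg h4 (X_ord_prod D _ _ fun i _ => h3 i 0)
    refine ⟨g i₀, η i₀, hη i₀, hωg i₀, ?_⟩
    rw [Nat.cast_zero, add_zero]
    have h6 : (∏ l, aeval f (a l 0)) * ratio P l' o * g i₀ ^ (m * ∑ l, d l) =
        (g i₀ ^ (m * ∑ l, d l) * ∏ l, aeval f (a l 0)) * ratio P l' o := by ring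
    rw [h6, D.ord.map_mul]
    have h7 : ratio P o l * ratio P l' o = ratio P l' l := by
      rw [← hx6, ← hx6, ← hx6]
      have := hx7 l hlP
      field_simp
    calc (0 : WithTop ℤ) ≤ D.ord (ratio P l' l) := hl l'
      _ = D.ord (ratio P o l) + D.ord (ratio P l' o) := by rw [← h7, D.ord.map_mul]
      _ ≤ _ := by gcongr

end Pool.Agent.H68.KR

end
end
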