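import Pool.Agent.H94.CB.H14.KB.KobFinal
import Pool.Agent.H94.CB.M39
import Pool.Agent.H94.CB.M41
import Pool.Agent.H94.CB.M64

/-! The parts of this file: H13.CV.EllR, H14.KB.KobBrody, H17BP.MapIdeal. -/

section

/-!
# CV EllR: the relation between the generators

`ell_rel`: elimination: `v² / u³` has order `0`, value `c ≠ 0` at `E` (`exists_value`, `res_eq_zero_iff`): `v² - c u³` has order `≥ -5` (or is `0`); `uv` has order `-5`: subtract `a u v` with `a` the value of
`(v² - c u³) / (u v)`: the order is `≥ -4`; subtract `d u²`, `b v`, `e u` in the same way: the rest has order `≥ -1` at `E`, no other poles, so it is a constant.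
-/

set_option autoImplicit false

open Pool.Agent.H23.Fano (PrimeDivisorOver Form regularForms)

noncomputable section

namespace Pool.Agent.H13.CV

attribute [-instance] ProperSMul.toContinuousSMul

variable {K : Type} [Field K] [Algebra ℂ K]

private theorem step (hK : CurveField K) {E : Place K} {n : ℤ} {r g : K} (hr : (n : WithTop ℤ) ≤ E.ord r)
    (hg0 : g ≠ 0) (hg : oz E g = n) : ∃ a : ℂ, ((n + 1 : ℤ) : WithTop ℤ) ≤ E.ord (r - algebraMap ℂ K a * g) := by
  have hq : 0 ≤ E.ord (r / g) := by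
    rw [nonneg_iff]
    rcases le_ord_iff.1 hr with h | h
    · left
      rw [h, zero_div]
    · by_cases hr0 : r = 0
      · left
        rw [hr0, zero_div]
      · right
        rw [oz_div E hr0 hg0, hg]
        linarith
  obtain ⟨a, ha⟩ := exists_value hK hq
  refine ⟨a, ?_⟩
  have e : r - algebraMap ℂ K a * g = (r / g - algebraMap ℂ K a) * g := by
    rw [sub_mul, div_mul_cancel₀ _ hg0]
  rw [e, le_ord_iff]
  by_cases h0 : r / g - algebraMap ℂ K a = 0
  · left
    rw [h0, zero_mul]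
  · right
    rcases pos_iff.1 ha with h | h
    · exact absurd h h0
    · rw [oz_mul E h0 hg0, hg]
      linarith

theorem ell_rel (hK : CurveField K) {E : Place K} (h1 : ∀ f ∈ LD (dv E 1), ∃ c : ℂ, f = algebraMap ℂ K c) {u v : K} (hu : oz E u = -2) (hv : oz E v = -3)
    (hu' : ∀ E', E' ≠ E → 0 ≤ E'.ord u) (hv' : ∀ E', E' ≠ E → 0 ≤ E'.ord v) :
    ∃ c a d b e f : ℂ, c ≠ 0 ∧ v ^ 2 = algebraMap ℂ K c * u ^ 3 + algebraMap ℂ K a * (u * v) + algebraMap ℂ K d * u ^ 2 + algebraMap ℂ K b * v +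
      algebraMap ℂ K e * u + algebraMap ℂ K f := by
  have hu0 : u ≠ 0 := by
    rintro rfl
    rw [oz_zero] at hu
    norm_num at hu
  have hv0 : v ≠ 0 := by
    rintro rfl
    rw [oz_zero] at hv
    norm_num at hv
  have ozv2 : oz E (v ^ 2) = -6 := by
    rw [oz_pow, hv]
    norm_num
  have ozu3 : oz E (u ^ 3) = -6 := by
    rw [oz_pow, hu]
    norm_num
  have ozu2 : oz E (u ^ 2) = -4 := by
    rw [oz_pow, hu]
    norm_num
  have ozuv : oz E (u * v) = -5 := by
    rw [oz_mul E hu0 hv0, hu, hv]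
    norm_num
  obtain ⟨c, hc⟩ := step hK (E := E) (n := -6) (r := v ^ 2) (g := u ^ 3)
    (le_ord_iff.2 (Or.inr (le_of_eq ozv2.symm))) (pow_ne_zero 3 hu0) ozu3
  have hc0 : c ≠ 0 := by
    rintro rfl
    rw [map_zero, zero_mul, sub_zero] at hc
    rcases le_ord_iff.1 hc with h | h
    · exact pow_ne_zero 2 hv0 h
    · rw [ozv2] at h
      norm_num at h
  obtain ⟨a, ha⟩ := step hK (E := E) (n := -5) (r := v ^ 2 - algebraMap ℂ K c * u ^ 3) (g := u * v)
    (by simpa using hc) (mul_ne_zero hu0 hv0) ozuv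
  obtain ⟨d, hd⟩ := step hK (E := E) (n := -4) (r := v ^ 2 - algebraMap ℂ K c * u ^ 3 - algebraMap ℂ K a * (u * v)) (g := u ^ 2)
    (by simpa using ha) (pow_ne_zero 2 hu0) ozu2
  obtain ⟨b, hb⟩ := step hK (E := E) (n := -3)
    (r := v ^ 2 - algebraMap ℂ K c * u ^ 3 - algebraMap ℂ K a * (u * v) - algebraMap ℂ K d * u ^ 2) (g := v)
    (by simpa using hd) hv0 hv
  obtain ⟨e, he⟩ := step hK (E := E) (n := -2)
    (r := v ^ 2 - algebraMap ℂ K c * u ^ 3 - algebraMap ℂ K a * (u * v) - algebraMap ℂ K d * u ^ 2 - algebraMap ℂ K b * v) (g := u)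
    (by simpa using hb) hu0 hu
  obtain ⟨f, hf⟩ := h1 (v ^ 2 - algebraMap ℂ K c * u ^ 3 - algebraMap ℂ K a * (u * v) - algebraMap ℂ K d * u ^ 2 -
    algebraMap ℂ K b * v - algebraMap ℂ K e * u) (by
      rw [mem_LD]
      intro E'
      by_cases hE : E' = E
      · subst hE
        have : dv E' 1 E' = 1 := by simp [dv]
        rw [this]
        simpa using he
      · have : dv E 1 E' = 0 := by simp [dv, hE]
        rw [this]
        have hu1 := hu' E' hE
        have hv1 := hv' E' hE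
        have := nonneg_sub (nonneg_sub (nonneg_sub (nonneg_sub (nonneg_sub (nonneg_pow hv1 2)
          (nonneg_mul (const_nonneg E' c) (nonneg_pow hu1 3)))
          (nonneg_mul (const_nonneg E' a) (nonneg_mul hu1 hv1)))
          (nonneg_mul (const_nonneg E' d) (nonneg_pow hu1 2)))
          (nonneg_mul (const_nonneg E' b) hv1))
          (nonneg_mul (const_nonneg E' e) hu1)
        simpa using this)
  exact ⟨c, a, d, b, e, f, hc0, by linear_combination hf⟩

end Pool.Agent.H13.CV

end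
end

section

/-!
# Kobayashi hyperbolicity modulo a curve implies Brody hyperbolicity modulo this curve
-/

open Topology Filter MvPolynomial Metric

noncomputable section

namespace Pool.Agent.H14.KB

attribute [-instance] ProperSMul.toContinuousSMul

open Pool.Agent Pool.Agent.H17BP
open Pool.Agent.H17 (PN VanishesAt ZariskiClosedIn HolomorphicInto puncturedDisc)

variable {N : ℕ}

/-- a curve whose derivative is proportional to it is constant as a map into projective space -/
theorem const_of_deriv {F : ℂ → Fin (N + 1) → ℂ} {z₁ : ℂ} (hF : AnalyticAt ℂ F z₁) (h0 : F z₁ ≠ 0)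
    (h : ∀ᶠ z in 𝓝 z₁, ∃ a : ℂ, deriv F z = a • F z) :
    ∀ᶠ z in 𝓝 z₁, ∃ c : ℂ, c ≠ 0 ∧ F z = c • F z₁ := by
  obtain ⟨j, hj⟩ : ∃ j, F z₁ j ≠ 0 := by
    by_contra hcon
    push Not at hcon
    exact h0 (funext hcon)
  have hFj : ∀ i, AnalyticAt ℂ (fun z => F z i) z₁ := fun i => (analyticAt_pi_iff.1 hF) i
  have hjne : ∀ᶠ z in 𝓝 z₁, F z j ≠ 0 := (hFj j).continuousAt.eventually_ne hj
  obtain ⟨r, hr, hball⟩ := Metric.eventually_nhds_iff_ball.1 (h.and (hjne.and hF.eventually_analyticAt))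
  have hconst : ∀ i, ∀ z ∈ ball z₁ r, F z i / F z j = F z₁ i / F z₁ j := by
    intro i z hz
    have hd : ∀ w ∈ ball z₁ r, HasDerivAt (fun w => F w i / F w j) 0 w := by
      intro w hw
      obtain ⟨⟨a, ha⟩, h1, h2⟩ := hball w hw
      have h3 := hasDerivAt_pi.1 h2.differentiableAt.hasDerivAt
      have h4 := (h3 i).div (h3 j) h1
      have h5 : (deriv F w i * F w j - F w i * deriv F w j) / F w j ^ 2 = 0 := by
        rw [ha]
        simp only [Pi.smul_apply, smul_eq_mul]
        rw [div_eq_zero_iff]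
        left
        ring
      rw [h5] at h4
      exact h4
    have hdiff : DifferentiableOn ℂ (fun w => F w i / F w j) (ball z₁ r) := fun w hw =>
      (hd w hw).differentiableAt.differentiableWithinAt
    exact (convex_ball z₁ r).is_const_of_fderivWithin_eq_zero hdiff (fun w hw => by
      rw [fderivWithin_of_isOpen isOpen_ball hw]
      ext
      rw [(hd w hw).hasFDerivAt.fderiv]
      simp) hz (mem_ball_self hr)
  filter_upwards [ball_mem_nhds z₁ hr] with z hz
  obtain ⟨-, h1, -⟩ := hball z hz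
  refine ⟨F z j / F z₁ j, div_ne_zero h1 hj, ?_⟩
  funext i
  have h2 := hconst i z hz
  simp only [Pi.smul_apply, smul_eq_mul]
  rw [div_eq_div_iff h1 hj] at h2
  field_simp
  linear_combination h2

/-- **Kobayashi hyperbolicity modulo a curve implies Brody hyperbolicity modulo this curve.** -/
theorem brody_of_kobayashi {U : Set (PN N)} {Q : MvPolynomial (Fin (N + 1)) ℂ} {D : ℕ}
    (hQ : Q.IsHomogeneous D) (h : KobayashiHyperbolicModulo U Q D) {f : ℂ → PN N}
    (hf : HolomorphicInto f Set.univ) (hfU : ∀ z, f z ∈ U) (hne : ∃ z w, f z ≠ f w) (z : ℂ) :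
    VanishesAt Q (f z) := by
  by_contra hz
  obtain ⟨M, C, hk⟩ := h
  obtain ⟨F, hF, hFf⟩ := hf z (Set.mem_univ z)
  have hF0 : F z ≠ 0 := hFf.self_of_nhds.choose
  have hQz : eval (F z) Q ≠ 0 := by
    obtain ⟨h1, h2⟩ := hFf.self_of_nhds
    intro h3
    apply hz
    rw [h2]
    exact (vanishesAt_mk hQ h1).2 h3
  have hQan : AnalyticAt ℂ (fun w => eval (F w) Q) z := by
    have := AnalyticAt.aeval_mvPolynomial (𝕜 := ℂ) (fun i => (analyticAt_pi_iff.1 hF) i) Q
    simpa [MvPolynomial.aeval_eq_eval] using this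
  -- the derivative is proportional to the curve
  have key : ∀ᶠ w in 𝓝 z, ∃ a : ℂ, deriv F w = a • F w := by
    filter_upwards [hFf.eventually_nhds, hQan.continuousAt.eventually_ne hQz, hF.eventually_analyticAt,
      hF.continuousAt.eventually_ne hF0] with w h1 h2 h3 h4
    set t : ℝ := ‖eval (F w) Q‖ / ‖F w‖ ^ D with ht
    have hFw : 0 < ‖F w‖ := norm_pos_iff.2 h4
    have ht0 : 0 < t := div_pos (norm_pos_iff.2 h2) (pow_pos hFw _)
    have hbd : ∀ R : ℝ, 0 < R → ∃ a : ℂ, ‖deriv F w - a • F w‖ ≤ (C * ‖F w‖ / t ^ M) / R := by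
      intro R hR
      have hRc : (R : ℂ) ≠ 0 := by exact_mod_cast hR.ne'
      have haff : ∀ u : ℂ, AnalyticAt ℂ (fun u : ℂ => w + R * u) u := fun u =>
        analyticAt_const.add (analyticAt_const.mul analyticAt_id)
      have htd : Tendsto (fun u : ℂ => w + R * u) (𝓝 0) (𝓝 w) := by
        have := (haff 0).continuousAt.tendsto
        simpa using this
      obtain ⟨a, ha⟩ := hk (fun u => f (w + R * u)) (fun u => F (w + R * u)) (by
        intro u _
        obtain ⟨φ, hφ, he⟩ := hf (w + R * u) (Set.mem_univ _)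
        exact ⟨fun u => φ (w + R * u), AnalyticAt.comp (g := φ) (f := fun u : ℂ => w + R * u) hφ (haff u),
          (haff u).continuousAt.tendsto.eventually he⟩) (fun u _ => hfU _)
        (AnalyticAt.comp (g := F) (f := fun u : ℂ => w + R * u) (by simpa using h3) (haff 0))
        (htd.eventually h1)
      have hd : HasDerivAt (fun u : ℂ => F (w + R * u)) ((R : ℂ) • deriv F w) 0 := by
        have h5 : HasDerivAt (fun u : ℂ => w + R * u) (R : ℂ) 0 := by
          simpa using ((hasDerivAt_id (0 : ℂ)).const_mul (R : ℂ)).const_add w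
        have h6 : HasDerivAt F (deriv F w) ((fun u : ℂ => w + R * u) 0) := by
          simpa using h3.differentiableAt.hasDerivAt
        exact h6.scomp 0 h5
      rw [hd.deriv] at ha
      simp only [mul_zero, add_zero] at ha
      refine ⟨a / R, ?_⟩
      have h5 : (R : ℂ) • deriv F w - a • F w = (R : ℂ) • (deriv F w - (a / R) • F w) := by
        rw [smul_sub, smul_smul, mul_div_cancel₀ _ hRc]
      rw [h5, norm_smul, Complex.norm_real, Real.norm_of_nonneg hR.le, ← ht] at ha
      rw [le_div_iff₀ hR, le_div_iff₀ (pow_pos ht0 M)]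
      calc ‖deriv F w - (a / R) • F w‖ * R * t ^ M = t ^ M * (R * ‖deriv F w - (a / R) • F w‖) := by ring
        _ ≤ C * ‖F w‖ := ha
    have hcl : IsClosed ((ℂ ∙ F w : Submodule ℂ (Fin (N + 1) → ℂ)) : Set (Fin (N + 1) → ℂ)) :=
      Submodule.closed_of_finiteDimensional _
    have hmem : deriv F w ∈ (ℂ ∙ F w : Submodule ℂ (Fin (N + 1) → ℂ)) := by
      have h5 : ∀ n : ℕ, ∃ a : ℂ, ‖deriv F w - a • F w‖ ≤ (C * ‖F w‖ / t ^ M) / ((n : ℝ) + 1) := fun n =>
        hbd _ (by positivity)
      choose a ha using h5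
      have h6 : Tendsto (fun n => a n • F w) atTop (𝓝 (deriv F w)) := by
        rw [tendsto_iff_norm_sub_tendsto_zero]
        refine squeeze_zero (fun n => norm_nonneg _) (fun n => ?_)
          (tendsto_const_div_atTop_nhds_zero_nat (C * ‖F w‖ / t ^ M) |>.comp (tendsto_add_atTop_nat 1))
        have := ha n
        rw [norm_sub_rev]
        simpa using this
      exact hcl.mem_of_tendsto h6 (Filter.Eventually.of_forall fun n =>
        Submodule.smul_mem _ _ (Submodule.mem_span_singleton_self _))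
    obtain ⟨a, ha⟩ := Submodule.mem_span_singleton.1 hmem
    exact ⟨a, ha.symm⟩
  have hloc : ∀ᶠ w in 𝓝 z, f w = f z := by
    filter_upwards [const_of_deriv hF hF0 key, hFf] with w h1 h2
    obtain ⟨c, hc, h3⟩ := h1
    obtain ⟨h4, h5⟩ := h2
    obtain ⟨h6, h7⟩ := hFf.self_of_nhds
    rw [h5, h7, Projectivization.mk_eq_mk_iff']
    exact ⟨c, h3.symm⟩
  have hall := Pool.Agent.H36.BP.const_identity isPreconnected_univ hf (Set.mem_univ z) hloc
  obtain ⟨u, w, huw⟩ := hne
  exact huw ((hall u (Set.mem_univ u)).trans (hall w (Set.mem_univ w)).symm)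

/-- Kobayashi hyperbolic modulo a proper subset implies pseudo Brody hyperbolic. -/
theorem pseudoBrody_of_kobayashi {U : Set (PN N)} (h : PseudoKobayashiHyperbolic U) :
    Pool.Agent.H17.PseudoBrodyHyperbolic U := by
  obtain ⟨Q, D, hQ, ⟨x, hx, hxQ⟩, hk⟩ := h
  refine ⟨{x | x ∈ U ∧ ∀ P ∈ ({Q} : Set (MvPolynomial (Fin (N + 1)) ℂ)), VanishesAt P x},
    ⟨{Q}, fun P hP => ⟨D, by rw [Set.mem_singleton_iff.1 hP]; exact hQ⟩, rfl⟩, ?_, ?_⟩
  · intro h1
    rw [← h1] at hx
    exact hxQ (hx.2 Q rfl)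
  · intro f hf hfU hne z
    refine ⟨hfU z, fun P hP => ?_⟩
    rw [Set.mem_singleton_iff.1 hP]
    exact brody_of_kobayashi hQ hk hf hfU hne z

end Pool.Agent.H14.KB

end
end

section

/-!
# The ideal of a holomorphic map

`mapIdeal f U`: the polynomials which vanish on the cone over `f U`.

* `mem_mapIdeal_form`: `eval_smul_form`; `VanishesAt Q x` is `eval x.rep Q = 0`; take `c = 1` for one direction.
* `mapIdeal_homog`: for fixed `z ∈ U`: `eval (c • x) Q = ∑ k, c ^ k * eval x (homogeneousComponent k Q)` is a polynomial in `c`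
  which vanishes for all `c`, so all coefficients vanish (e.g. `Polynomial.funext`, or the lemma
  `Pool.Agent.H62.FC.eval_homogeneousComponent_eq_zero` in `Pool/Agent/H62/FC/CurveIdeal.lean`).
* `mapIdeal_isPrime`: `1` is not in it (`U ≠ ∅`).  Let `A * B ∈ I`, `A ∉ I`, `B ∉ I`.  There are homogeneous components `A_k`,
  `B_l` not in `I` (`sum_homogeneousComponent`, ideal), i.e. `VanishesAt A_k (f z)` fails for some `z ∈ U`.  For a form `R` the set
  of the `z₀ ∈ U` with `VanishesAt R (f z)` for all `z` near `z₀` is open, and so is the set of the `z₀ ∈ U` with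
  `¬ VanishesAt R (f z)` for all `z ≠ z₀` near `z₀`; they cover `U` (local lift `φ` of `f`, `z ↦ eval (φ z) R` is analytic at
  `z₀`, `AnalyticAt.eventually_eq_zero_or_eventually_ne_zero`, `vanishesAt_mk`); `U` is preconnected, so one of them is `U`;
  if `R ∉ I` it is the second one.  So near a point `z₀ ∈ U`, for `z ≠ z₀`, both `A_k` and `B_l` do not vanish at `f z`.  For
  such a `z ∈ U` the polynomials `c ↦ eval (c • x) A`, `c ↦ eval (c • x) B` (`x = (f z).rep`) are not zero (their coefficients at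
  `c ^ k`, `c ^ l` are `eval x A_k ≠ 0`, `eval x B_l ≠ 0`), their product is zero for all `c`: contradiction.
-/

open Topology Filter MvPolynomial

noncomputable section

namespace Pool.Agent.H17BP

attribute [-instance] ProperSMul.toContinuousSMul

open Pool.Agent.H17 (PN VanishesAt ZariskiClosedIn HolomorphicInto puncturedDisc)
open Pool.Agent.H62.FC (Homog)

variable {N : ℕ} {f : ℂ → PN N} {U : Set ℂ}

/-- The ideal of the polynomials which vanish on the cone over `f U`. -/
def mapIdeal (f : ℂ → PN N) (U : Set ℂ) : Ideal (MvPolynomial (Fin (N + 1)) ℂ) where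
  carrier := {Q | ∀ z ∈ U, ∀ c : ℂ, eval (c • (f z).rep) Q = 0}
  add_mem' := by
    intro A B hA hB z hz c
    rw [map_add, hA z hz c, hB z hz c, add_zero]
  zero_mem' := by
    intro z _ c
    rw [map_zero]
  smul_mem' := by
    intro A B hB z hz c
    rw [smul_eq_mul, map_mul, hB z hz c, mul_zero]

/-- The polynomial `c ↦ Q (c x)`. -/
private def MapIdeal_poly (x : Fin (N + 1) → ℂ) (Q : MvPolynomial (Fin (N + 1)) ℂ) : Polynomial ℂ :=
  ∑ k ∈ Finset.range (Q.totalDegree + 1), Polynomial.C (eval x (homogeneousComponent k Q)) * Polynomial.X ^ k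

private lemma MapIdeal_poly_eval (x : Fin (N + 1) → ℂ) (Q : MvPolynomial (Fin (N + 1)) ℂ) (c : ℂ) :
    (MapIdeal_poly x Q).eval c = eval (c • x) Q := by
  conv_rhs => rw [← MvPolynomial.sum_homogeneousComponent Q]
  rw [MapIdeal_poly, Polynomial.eval_finsetSum, map_sum]
  refine Finset.sum_congr rfl fun k _ => ?_
  rw [eval_smul_form (homogeneousComponent_isHomogeneous k Q)]
  rw [Polynomial.eval_mul, Polynomial.eval_C, Polynomial.eval_pow, Polynomial.eval_X, mul_comm]

private lemma MapIdeal_poly_coeff (x : Fin (N + 1) → ℂ) (Q : MvPolynomial (Fin (N + 1)) ℂ) (n : ℕ) :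
    (MapIdeal_poly x Q).coeff n = eval x (homogeneousComponent n Q) := by
  rw [MapIdeal_poly, Polynomial.finsetSum_coeff]
  simp only [Polynomial.coeff_C_mul, Polynomial.coeff_X_pow]
  by_cases hn : n ∈ Finset.range (Q.totalDegree + 1)
  · rw [Finset.sum_eq_single n]
    · simp
    · intro b _ hb
      rw [if_neg hb.symm, mul_zero]
    · intro h
      exact absurd hn h
  · rw [Finset.sum_eq_zero, homogeneousComponent_eq_zero, map_zero]
    · rw [Finset.mem_range] at hn
      omega
    · intro k hk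
      rw [if_neg, mul_zero]
      rintro rfl
      exact hn hk

private lemma MapIdeal_comp {x : Fin (N + 1) → ℂ} {Q : MvPolynomial (Fin (N + 1)) ℂ}
    (h : ∀ c : ℂ, eval (c • x) Q = 0) (n : ℕ) : eval x (homogeneousComponent n Q) = 0 := by
  have h1 : MapIdeal_poly x Q = 0 := by
    apply Polynomial.funext
    intro c
    rw [MapIdeal_poly_eval, h c, Polynomial.eval_zero]
  rw [← MapIdeal_poly_coeff, h1, Polynomial.coeff_zero]

theorem mem_mapIdeal_form {d : ℕ} {Q : MvPolynomial (Fin (N + 1)) ℂ} (hQ : Q.IsHomogeneous d) :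
    Q ∈ mapIdeal f U ↔ ∀ z ∈ U, VanishesAt Q (f z) := by
  constructor
  · intro h z hz
    have h1 := h z hz 1
    rw [one_smul] at h1
    exact h1
  · intro h z hz c
    have h1 : eval (f z).rep Q = 0 := h z hz
    rw [eval_smul_form hQ, h1, mul_zero]

theorem mapIdeal_homog : Homog (mapIdeal f U) := by
  intro Q hQ n z hz c
  rw [eval_smul_form (homogeneousComponent_isHomogeneous n Q), MapIdeal_comp (hQ z hz) n, mul_zero]

private lemma MapIdeal_analytic {φ : ℂ → Fin (N + 1) → ℂ} {z₀ : ℂ} (hφ : AnalyticAt ℂ φ z₀)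
    (R : MvPolynomial (Fin (N + 1)) ℂ) : AnalyticAt ℂ (fun z => eval (φ z) R) z₀ := by
  have hi : ∀ i, AnalyticAt ℂ (fun z => φ z i) z₀ := fun i =>
    (ContinuousLinearMap.proj (R := ℂ) (φ := fun _ : Fin (N + 1) => ℂ) i).analyticAt _ |>.comp hφ
  induction R using MvPolynomial.induction_on with
  | C a =>
    simp only [eval_C]
    exact analyticAt_const
  | add p q hp hq =>
    simp only [map_add]
    exact hp.add hq
  | mul_X p i hp =>
    simp only [map_mul, eval_X]
    exact hp.mul (hi i)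

private lemma MapIdeal_notMem (hUc : IsPreconnected U) (hf : HolomorphicInto f U)
    {d : ℕ} {R : MvPolynomial (Fin (N + 1)) ℂ} (hR : R.IsHomogeneous d) (hRI : R ∉ mapIdeal f U) {z₀ : ℂ}
    (hz₀ : z₀ ∈ U) : ∀ᶠ z in 𝓝[≠] z₀, ¬ VanishesAt R (f z) := by
  have hu : IsOpen {x : ℂ | ∀ᶠ z in 𝓝 x, VanishesAt R (f z)} := isOpen_setOfPred_eventually_nhds
  have hv : IsOpen {x : ℂ | ∀ᶠ z in 𝓝[≠] x, ¬ VanishesAt R (f z)} := isOpen_setOfPred_eventually_nhdsWithin
  have hcov : U ⊆ {x : ℂ | ∀ᶠ z in 𝓝 x, VanishesAt R (f z)} ∪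
      {x : ℂ | ∀ᶠ z in 𝓝[≠] x, ¬ VanishesAt R (f z)} := by
    intro z₁ hz₁
    obtain ⟨φ, hφ, he⟩ := hf z₁ hz₁
    rcases (MapIdeal_analytic hφ R).eventually_eq_zero_or_eventually_ne_zero with h | h
    · left
      change ∀ᶠ z in 𝓝 z₁, VanishesAt R (f z)
      filter_upwards [h, he] with z h1 h2
      obtain ⟨h3, h4⟩ := h2
      rw [h4, vanishesAt_mk hR]
      exact h1
    · right
      change ∀ᶠ z in 𝓝[≠] z₁, ¬ VanishesAt R (f z)
      filter_upwards [h, he.filter_mono nhdsWithin_le_nhds] with z h1 h2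
      obtain ⟨h3, h4⟩ := h2
      rw [h4, vanishesAt_mk hR]
      exact h1
  by_contra hcon
  have h1 : z₀ ∈ {x : ℂ | ∀ᶠ z in 𝓝 x, VanishesAt R (f z)} := (hcov hz₀).resolve_right hcon
  apply hRI
  rw [mem_mapIdeal_form hR]
  intro z hz
  rcases hcov hz with h2 | h2
  · have h3 : ∀ᶠ w in 𝓝 z, VanishesAt R (f w) := h2
    exact h3.self_of_nhds
  · exfalso
    obtain ⟨w, -, hw1, hw2⟩ := hUc _ _ hu hv hcov ⟨z₀, hz₀, h1⟩ ⟨z, hz, h2⟩
    have h3 : ∀ᶠ z in 𝓝 w, VanishesAt R (f z) := hw1
    have h4 : ∀ᶠ z in 𝓝[≠] w, ¬ VanishesAt R (f z) := hw2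
    obtain ⟨t, ht1, ht2⟩ := ((h3.filter_mono nhdsWithin_le_nhds).and h4).exists
    exact ht2 ht1

theorem mapIdeal_isPrime (hUo : IsOpen U) (hUc : IsPreconnected U) (hne : U.Nonempty) (hf : HolomorphicInto f U) :
    (mapIdeal f U).IsPrime := by
  obtain ⟨z₀, hz₀⟩ := hne
  have hcomp : ∀ A : MvPolynomial (Fin (N + 1)) ℂ, A ∉ mapIdeal f U →
      ∃ k, homogeneousComponent k A ∉ mapIdeal f U := by
    intro A hA
    by_contra hcon
    push Not at hcon
    apply hA
    rw [← MvPolynomial.sum_homogeneousComponent A]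
    exact Ideal.sum_mem _ fun i _ => hcon i
  refine ⟨?_, ?_⟩
  · intro htop
    have h1 : (1 : MvPolynomial (Fin (N + 1)) ℂ) ∈ mapIdeal f U := by
      rw [htop]
      trivial
    have h2 := h1 z₀ hz₀ 1
    rw [map_one] at h2
    exact one_ne_zero h2
  · intro A B hAB
    by_contra hcon
    push Not at hcon
    obtain ⟨k, hk⟩ := hcomp A hcon.1
    obtain ⟨l, hl⟩ := hcomp B hcon.2
    have h1 := MapIdeal_notMem hUc hf (homogeneousComponent_isHomogeneous k A) hk hz₀
    have h2 := MapIdeal_notMem hUc hf (homogeneousComponent_isHomogeneous l B) hl hz₀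
    have h3' : ∀ᶠ z in 𝓝 z₀, z ∈ U := hUo.mem_nhds hz₀
    have h3 : ∀ᶠ z in 𝓝[≠] z₀, z ∈ U := h3'.filter_mono nhdsWithin_le_nhds
    obtain ⟨z, ⟨h4, h5⟩, h6⟩ := ((h1.and h2).and h3).exists
    have h7 : MapIdeal_poly (f z).rep A * MapIdeal_poly (f z).rep B = 0 := by
      apply Polynomial.funext
      intro c
      rw [Polynomial.eval_mul, MapIdeal_poly_eval, MapIdeal_poly_eval, ← map_mul, Polynomial.eval_zero]
      exact hAB z h6 c
    rcases mul_eq_zero.1 h7 with h8 | h8
    · apply h4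
      change eval (f z).rep (homogeneousComponent k A) = 0
      rw [← MapIdeal_poly_coeff, h8, Polynomial.coeff_zero]
    · apply h5
      change eval (f z).rep (homogeneousComponent l B) = 0
      rw [← MapIdeal_poly_coeff, h8, Polynomial.coeff_zero]

theorem exists_X_notMem (hne : U.Nonempty) : ∃ i, (X i : MvPolynomial (Fin (N + 1)) ℂ) ∉ mapIdeal f U := by
  obtain ⟨z, hz⟩ := hne
  by_contra hcon
  push Not at hcon
  apply (f z).rep_nonzero
  funext i
  have h1 := hcon i z hz 1
  rw [one_smul, eval_X] at h1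
  exact h1

theorem mem_variety_mapIdeal {z : ℂ} (hz : z ∈ U) : f z ∈ variety (mapIdeal f U) := by
  refine ⟨fun Q hQ n hn => (mem_mapIdeal_form hn).1 hQ z hz, fun m => m.elim0⟩

theorem le_mapIdeal {P : Ideal (MvPolynomial (Fin (N + 1)) ℂ)} (hP : Homog P) (h : ∀ z ∈ U, f z ∈ variety P) :
    P ≤ mapIdeal f U := by
  intro Q hQ
  rw [← MvPolynomial.sum_homogeneousComponent Q]
  refine Ideal.sum_mem _ fun i _ => ?_
  rw [mem_mapIdeal_form (homogeneousComponent_isHomogeneous i Q)]
  exact fun z hz => (h z hz).1 _ (hP Q hQ i) i (homogeneousComponent_isHomogeneous i Q)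

end Pool.Agent.H17BP

end
end
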