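import Pool.Agent.H94.CB.M04
import Pool.Agent.H94.CB.M08
import Pool.Agent.H94.CB.M14
import Pool.Agent.H94.CB.M15
import Pool.Agent.H94.CB.M20
import Pool.Agent.H94.CB.M37
import Pool.Agent.H94.CB.M65

/-! The parts of this file: H13.CV.HomA, H17BP.MonoOpen, H17BP.FinG, H13.CV.BirkA, H13.CV.Lgt, H36.BP.GermChart_1, H14.KB.Kob. -/

section

/-!
# CV HomA: the holomorphic map given by entire functions

For `z₀ : ℂ` let `k` be the least order of the `a i` at `z₀` (finite, as some `a j ≠ 0`: `order_ne_top`), `a i = coord z₀ ^ k * c i` with entire `c i` (`exists_coord_mul`, induction on `k`), not all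
`c i (z₀) = 0`.  `f z₀` is the point `(c i (z₀))_i`.  Near `z₀`, for `z ≠ z₀`, `(a i (z))_i = (z - z₀) ^ k (c i (z))_i ≠ 0`, and the representation at `z` (`k' , c'`) has `a i (z) = 0` for all `i` unless `k' = 0`; so
`k' = 0`, `c' = a` and `f z = [a i (z)] = [c i (z)]`.  So `f` is holomorphic at `z₀` with lift `z ↦ (c i (z))_i`.
-/

set_option autoImplicit false

open Topology Filter
open Pool.Agent.H17 Pool.Agent.H17.EntFun

noncomputable section

namespace Pool.Agent.H13.CV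

attribute [-instance] ProperSMul.toContinuousSMul

private lemma exists_decomp {N : ℕ} (z₀ : ℂ) : ∀ (n : ℕ) (a : Fin (N + 1) → EntFun) (j : Fin (N + 1)), a j ≠ 0 →
    analyticOrderAt (a j : ℂ → ℂ) z₀ = n →
    ∃ (k : ℕ) (c : Fin (N + 1) → EntFun), (fun i => (c i : ℂ → ℂ) z₀) ≠ 0 ∧ ∀ i, a i = coord z₀ ^ k * c i := by
  intro n
  induction n using Nat.strong_induction_on with
  | _ n ih =>
    intro a j hj hn
    by_cases h : (fun i => (a i : ℂ → ℂ) z₀) = 0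
    · have h1 : ∀ i, ∃ g : EntFun, a i = coord z₀ * g := fun i => exists_coord_mul (congrFun h i)
      choose g hg using h1
      have hgj : g j ≠ 0 := by
        intro h2
        apply hj
        rw [hg j, h2, mul_zero]
      obtain ⟨n', hn'⟩ : ∃ n' : ℕ, analyticOrderAt (g j : ℂ → ℂ) z₀ = n' :=
        ⟨_, (Nat.cast_analyticOrderNatAt (order_ne_top hgj z₀)).symm⟩
      have hlt : n' < n := by
        rw [hg j, order_mul, order_coord, hn'] at hn
        have : 1 + n' = n := by exact_mod_cast hn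
        omega
      obtain ⟨k, c, hc, he⟩ := ih n' hlt g j hgj hn'
      refine ⟨k + 1, c, hc, fun i => ?_⟩
      rw [hg i, he i, pow_succ', mul_assoc]
    · exact ⟨0, a, h, fun i => by rw [pow_zero, one_mul]⟩

theorem exists_map {N : ℕ} (a : Fin (N + 1) → EntFun) (ha : ∃ i, a i ≠ 0) :
    ∃ f : ℂ → PN N, HolomorphicInto f Set.univ ∧ ∀ z₀ : ℂ, ∃ (k : ℕ) (c : Fin (N + 1) → EntFun) (h : (fun i => (c i : ℂ → ℂ) z₀) ≠ 0),
      (∀ i, a i = coord z₀ ^ k * c i) ∧ f z₀ = Projectivization.mk ℂ _ h := by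
  obtain ⟨j, hj⟩ := ha
  have key : ∀ z₀ : ℂ, ∃ (k : ℕ) (c : Fin (N + 1) → EntFun), (fun i => (c i : ℂ → ℂ) z₀) ≠ 0 ∧ ∀ i, a i = coord z₀ ^ k * c i :=
    fun z₀ => exists_decomp z₀ _ a j hj (Nat.cast_analyticOrderNatAt (order_ne_top hj z₀)).symm
  choose k c hc he using key
  refine ⟨fun z => Projectivization.mk ℂ (fun i => (c z i : ℂ → ℂ) z) (hc z), ?_,
    fun z₀ => ⟨k z₀, c z₀, hc z₀, he z₀, rfl⟩⟩
  intro z₀ _
  refine ⟨fun z i => (c z₀ i : ℂ → ℂ) z, ?_, ?_⟩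
  · exact analyticAt_pi_iff.mpr fun i => (c z₀ i).analyticAt z₀
  · obtain ⟨i₀, hi₀⟩ : ∃ i₀, (c z₀ i₀ : ℂ → ℂ) z₀ ≠ 0 := by
      by_contra h
      push Not at h
      exact hc z₀ (funext h)
    have hev : ∀ᶠ z in 𝓝 z₀, (c z₀ i₀ : ℂ → ℂ) z ≠ 0 :=
      ((c z₀ i₀).diff z₀).continuousAt.eventually_ne hi₀
    filter_upwards [hev] with z hz
    have h : (fun i => (c z₀ i : ℂ → ℂ) z) ≠ 0 := fun h1 => hz (congrFun h1 i₀)
    refine ⟨h, ?_⟩
    by_cases hzz : z = z₀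
    · subst hzz
      rfl
    · have hsub : z - z₀ ≠ 0 := sub_ne_zero.2 hzz
      have h1 : ∀ i, (a i : ℂ → ℂ) z = (z - z₀) ^ k z₀ * (c z₀ i : ℂ → ℂ) z := by
        intro i
        have h2 := congrArg (fun g : EntFun => ev z g) (he z₀ i)
        simpa using h2
      have h3 : ∀ i, (a i : ℂ → ℂ) z = (z - z) ^ k z * (c z i : ℂ → ℂ) z := by
        intro i
        have h2 := congrArg (fun g : EntFun => ev z g) (he z i)
        simpa using h2
      have hk : k z = 0 := by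
        by_contra hk
        have h4 := h3 i₀
        rw [sub_self, zero_pow hk, zero_mul, h1 i₀] at h4
        exact mul_ne_zero (pow_ne_zero _ hsub) hz h4
      have h5 : ∀ i, (c z i : ℂ → ℂ) z = (z - z₀) ^ k z₀ * (c z₀ i : ℂ → ℂ) z := by
        intro i
        rw [← h1 i, h3 i, hk, pow_zero, one_mul]
      rw [Projectivization.mk_eq_mk_iff]
      refine ⟨Units.mk0 ((z - z₀) ^ k z₀) (pow_ne_zero _ hsub), ?_⟩
      funext i
      rw [h5 i]
      rfl

end Pool.Agent.H13.CV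

end
end

section

/-!
# Monomials at nearby points

* `Bihol.near`: let `θ'` be the inverse germ.  `θ` and `θ'` are analytic near `0` (`AnalyticAt.eventually_analyticAt`),
  `θ' (θ x) = x` for `x` near `0`, `θ (θ' y) = y` for `y` near `0` (`eventually_eventually_nhds`), `θ p → 0` for `p → 0`.
  For `p` near `0` the inverse germ is `y ↦ θ' (θ p + y) - p` (it is analytic at `0`, because `θ'` is analytic at `θ p`).
* `Mono.near`: let `g = S^a T^b u` near `0`, `θ = (S, T)`.  For `p` near `0`: `S (p + x) = S p + S₁ x`,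
  `T (p + x) = T p + T₁ x` with `Coord S₁ T₁` (`Bihol.near`, `(S₁, T₁) = θ (p + x) - θ p`), `u (p + x)` is a unit.
  If `S p ≠ 0` then `S (p + x)^a` is a unit; if `S p = 0` then `S (p + x) = S₁ x`; the same for `T`.  Four cases:
  `(S₁)^(a or 0) (T₁)^(b or 0) (unit)`.
-/

open Topology Filter

noncomputable section

namespace Pool.Agent.H17BP

attribute [-instance] ProperSMul.toContinuousSMul

private theorem MonoOpen_add {E : Type*} [NormedAddCommGroup E] [NormedSpace ℂ E] {f : ℂ × ℂ → E}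
    {p : ℂ × ℂ} (hf : AnalyticAt ℂ f p) : AnalyticAt ℂ (fun x => f (p + x)) 0 := by
  have h1 : AnalyticAt ℂ (fun x : ℂ × ℂ => p + x) 0 := analyticAt_const.add analyticAt_id
  have h2 : AnalyticAt ℂ f ((fun x : ℂ × ℂ => p + x) 0) := by
    simp only [add_zero]
    exact hf
  exact AnalyticAt.comp (g := f) (f := fun x : ℂ × ℂ => p + x) h2 h1

private theorem MonoOpen_tendsto (p : ℂ × ℂ) : Tendsto (fun x : ℂ × ℂ => p + x) (𝓝 0) (𝓝 p) := by
  have h1 : ContinuousAt (fun x : ℂ × ℂ => p + x) 0 := by fun_prop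
  have h2 := h1.tendsto
  simp only [add_zero] at h2
  exact h2

/-- A local biholomorphism is a local biholomorphism at the nearby points. -/
theorem Bihol.near {θ : ℂ × ℂ → ℂ × ℂ} (h : Bihol θ) :
    ∀ᶠ p in 𝓝 (0 : ℂ × ℂ), Bihol fun x => θ (p + x) - θ p := by
  obtain ⟨θ', h1, h2, h3, h4⟩ := h.inv
  have A1 := h.an.eventually_analyticAt
  have A2 := h.tendsto.eventually h1.eventually_analyticAt
  have A3 := h3.eventually_nhds
  have A4 := h.tendsto.eventually h4.eventually_nhds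
  filter_upwards [A1, A2, A3, A4] with p a1 a2 a3 a4
  refine ⟨(MonoOpen_add a1).sub analyticAt_const, ?_, fun y => θ' (θ p + y) - p,
    (MonoOpen_add a2).sub analyticAt_const, ?_, ?_, ?_⟩
  · simp only [add_zero, sub_self]
  · simp only [add_zero]
    rw [a3.self_of_nhds, sub_self]
  · filter_upwards [(MonoOpen_tendsto p).eventually a3] with x hx
    rw [add_sub_cancel, hx, add_sub_cancel_left]
  · filter_upwards [(MonoOpen_tendsto (θ p)).eventually a4] with y hy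
    rw [add_sub_cancel, hy, add_sub_cancel_left]

private theorem MonoOpen_pow {f : ℂ × ℂ → ℂ} {p : ℂ × ℂ} (hf : AnalyticAt ℂ f p) (a : ℕ) :
    ∃ (a' : ℕ) (w : ℂ × ℂ → ℂ), AnalyticAt ℂ w 0 ∧ w 0 ≠ 0 ∧
      ∀ x, f (p + x) ^ a = (f (p + x) - f p) ^ a' * w x := by
  by_cases h : f p = 0
  · refine ⟨a, fun _ => 1, analyticAt_const, one_ne_zero, fun x => ?_⟩
    rw [h, sub_zero, mul_one]
  · refine ⟨0, fun x => f (p + x) ^ a, (MonoOpen_add hf).pow a, ?_, fun x => ?_⟩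
    · simp only [add_zero]
      exact pow_ne_zero a h
    · rw [pow_zero, one_mul]

/-- A monomial times a unit is a monomial times a unit at the nearby points. -/
theorem Mono.near {g : ℂ × ℂ → ℂ} (h : Mono g) : ∀ᶠ p in 𝓝 (0 : ℂ × ℂ), Mono fun x => g (p + x) := by
  obtain ⟨S, T, a, b, u, hc, hu, hu0, hg⟩ := h
  obtain ⟨hS, hT, -, -⟩ := hc.parts
  have B1 := Bihol.near hc
  have B2 := hu.eventually_analyticAt
  have B3 := hu.continuousAt.eventually_ne hu0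
  have B4 := hg.eventually_nhds
  have B5 := hS.eventually_analyticAt
  have B6 := hT.eventually_analyticAt
  filter_upwards [B1, B2, B3, B4, B5, B6] with p b1 b2 b3 b4 b5 b6
  obtain ⟨a', w, hw, hw0, hwe⟩ := MonoOpen_pow b5 a
  obtain ⟨b', v, hv, hv0, hve⟩ := MonoOpen_pow b6 b
  refine ⟨fun x => S (p + x) - S p, fun x => T (p + x) - T p, a', b',
    fun x => w x * v x * u (p + x), b1, (hw.mul hv).mul (MonoOpen_add b2), ?_, ?_⟩
  · simp only [add_zero]
    exact mul_ne_zero (mul_ne_zero hw0 hv0) b3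
  · filter_upwards [(MonoOpen_tendsto p).eventually b4] with x hx
    rw [hx, hwe x, hve x]
    ring

end Pool.Agent.H17BP

end
end

section

/-!
# The points near `0` at which `g` is not a monomial

* `bl_near`: `bl c (s, t) = (s, s (c + t))` has near `p`, `p.1 ≠ 0`, the inverse `(S, T) ↦ (S, T / S - c)`.  So the inverse
  germ of `x ↦ bl c (p + x) - bl c p` is `y ↦ (a, b / a - c) - p` with `(a, b) = bl c p + y`, analytic because `a ≠ 0`
  near `y = 0` (or use `bihol_iff`).  `blInf_near`: the same with the coordinates exchanged.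
* `Mono.of_near`: if `β (p + x) - β p` is `Bihol` and `(g ∘ β) (p + x)` is `Mono` then `g (β p + x)` is `Mono`: with
  `θ x = β (p + x) - β p`: `g (β (p + x)) = (fun x => g (β p + x)) (θ x)`; compose with the inverse germ of `θ`
  (`ResN.of_comp` for `n = 0`).
* `ResN.near`: induction on `n`.  `n = 0` and the case `Mono g`: `Mono.near`.  `n + 1`: for all `c`, `ResN n (g ∘ bl c)` and
  `ResN n (g ∘ blInf)` (`bchart_bl`, `bchart_blInf`).  If the claim is false then there is an ultrafilter `U ≤ 𝓝[≠] 0` with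
  `¬ Mono (g (p + ·))` for `U`-almost all `p` (`Filter.Frequently`, `Ultrafilter.of`, e.g. take `U` finer than
  `𝓝[≠] 0 ⊓ 𝓟 {p | ¬ Mono ..}`).  `U`-almost surely `‖p.2‖ ≤ ‖p.1‖` or `U`-almost surely `‖p.1‖ ≤ ‖p.2‖`.
  First case: `p.1 ≠ 0` almost surely (because `p ≠ 0`); `p.2 / p.1` is in the closed unit ball (compact), so it tends to some
  `c` along `U` (`IsCompact.ultrafilter_le_nhds`); `p' = (p.1, p.2 / p.1 - c) → 0`, `p' ≠ 0`, `bl c p' = p`.  By induction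
  for `g ∘ bl c`: `Mono ((g ∘ bl c) (p' + ·))` almost surely, and `Mono.of_near` with `bl_near`.
  Second case: `p.2 ≠ 0`, `p.1 / p.2 → c'`.  If `c' = 0`: `p' = (p.1 / p.2, p.2) → 0`, `blInf p' = p`, `blInf_near`.
  If `c' ≠ 0` then `p.1 ≠ 0` almost surely and `p.2 / p.1 → c'⁻¹ = c`, continue as in the first case.
-/

open Topology Filter

noncomputable section

namespace Pool.Agent.H17BP

attribute [-instance] ProperSMul.toContinuousSMul

theorem bl_near (c : ℂ) {p : ℂ × ℂ} (hp : p.1 ≠ 0) : Bihol fun x => bl c (p + x) - bl c p := by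
  have h1 : HasFDerivAt (fun x : ℂ × ℂ => p.1 + x.1) (ContinuousLinearMap.fst ℂ ℂ ℂ) 0 :=
    (hasFDerivAt_fst (𝕜 := ℂ) (E := ℂ) (F := ℂ)).const_add p.1
  have h2 : HasFDerivAt (fun x : ℂ × ℂ => c + (p.2 + x.2)) (ContinuousLinearMap.snd ℂ ℂ ℂ) 0 :=
    ((hasFDerivAt_snd (𝕜 := ℂ) (E := ℂ) (F := ℂ)).const_add p.2).const_add c
  have h3 := (h1.prodMk (h1.mul h2)).sub_const (bl c p)
  have h4 : HasFDerivAt (fun x => bl c (p + x) - bl c p) _ 0 := h3
  have ha : AnalyticAt ℂ (fun x => bl c (p + x) - bl c p) 0 := by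
    refine AnalyticAt.sub ?_ analyticAt_const
    exact (analyticAt_bl c (p + 0)).comp (analyticAt_const.add analyticAt_id)
  refine (bihol_iff ha (by simp)).mpr ?_
  rw [h4.fderiv]
  simpa using hp

theorem blInf_near {p : ℂ × ℂ} (hp : p.2 ≠ 0) : Bihol fun x => blInf (p + x) - blInf p := by
  have h1 : HasFDerivAt (fun x : ℂ × ℂ => p.1 + x.1) (ContinuousLinearMap.fst ℂ ℂ ℂ) 0 :=
    (hasFDerivAt_fst (𝕜 := ℂ) (E := ℂ) (F := ℂ)).const_add p.1
  have h2 : HasFDerivAt (fun x : ℂ × ℂ => p.2 + x.2) (ContinuousLinearMap.snd ℂ ℂ ℂ) 0 :=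
    (hasFDerivAt_snd (𝕜 := ℂ) (E := ℂ) (F := ℂ)).const_add p.2
  have h3 := ((h1.mul h2).prodMk h2).sub_const (blInf p)
  have h4 : HasFDerivAt (fun x => blInf (p + x) - blInf p) _ 0 := h3
  have ha : AnalyticAt ℂ (fun x => blInf (p + x) - blInf p) 0 := by
    refine AnalyticAt.sub ?_ analyticAt_const
    exact (analyticAt_blInf (p + 0)).comp (analyticAt_const.add analyticAt_id)
  refine (bihol_iff ha (by simp)).mpr ?_
  rw [h4.fderiv]
  simpa using hp

theorem Mono.of_near {g : ℂ × ℂ → ℂ} {β : ℂ × ℂ → ℂ × ℂ} {p : ℂ × ℂ} (h : Bihol fun x => β (p + x) - β p)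
    (hg : Mono fun x => (g ∘ β) (p + x)) : Mono fun x => g (β p + x) := by
  have h1 : ResN 0 ((fun x => g (β p + x)) ∘ fun x => β (p + x) - β p) := by
    have h2 : ((fun x => g (β p + x)) ∘ fun x => β (p + x) - β p) = fun x => (g ∘ β) (p + x) := by
      funext x
      simp
    rw [h2]
    exact hg
  exact ResN.of_comp h h1

/-- the first case -/
private theorem FinG_key1 {g : ℂ × ℂ → ℂ} {U : Ultrafilter (ℂ × ℂ)} (hU0 : (U : Filter (ℂ × ℂ)) ≤ 𝓝 0)
    (hbad : ∀ᶠ p in (U : Filter (ℂ × ℂ)), ¬ Mono fun x => g (p + x)) {c : ℂ}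
    (hc : Tendsto (fun p : ℂ × ℂ => p.2 / p.1) U (𝓝 c)) (h1 : ∀ᶠ p in (U : Filter (ℂ × ℂ)), p.1 ≠ 0)
    (hih : ∀ᶠ p in 𝓝[≠] (0 : ℂ × ℂ), Mono fun x => (g ∘ bl c) (p + x)) : False := by
  have ht1 : Tendsto (fun p : ℂ × ℂ => p.1) U (𝓝 0) := by
    have h2 : Tendsto (fun p : ℂ × ℂ => p.1) (𝓝 0) (𝓝 (0 : ℂ × ℂ).1) := continuous_fst.tendsto 0
    exact h2.mono_left hU0
  have ht2 : Tendsto (fun p : ℂ × ℂ => p.2 / p.1 - c) U (𝓝 0) := by
    have h2 := hc.sub_const c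
    rwa [sub_self] at h2
  have ht : Tendsto (fun p : ℂ × ℂ => (p.1, p.2 / p.1 - c)) U (𝓝[≠] 0) := by
    rw [tendsto_nhdsWithin_iff]
    refine ⟨?_, ?_⟩
    · exact ht1.prodMk_nhds ht2
    · filter_upwards [h1] with p hp
      intro h0
      exact hp (congrArg Prod.fst h0)
  obtain ⟨p, hp1, hp2, hp3⟩ := ((ht.eventually hih).and (h1.and hbad)).exists
  apply hp3
  have h4 : bl c (p.1, p.2 / p.1 - c) = p := by
    unfold bl
    ext
    · rfl
    · simp only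
      field_simp
      ring
  have h5 := Mono.of_near (bl_near c (p := (p.1, p.2 / p.1 - c)) hp2) hp1
  rw [h4] at h5
  exact h5

/-- the second case -/
private theorem FinG_key2 {g : ℂ × ℂ → ℂ} {U : Ultrafilter (ℂ × ℂ)} (hU0 : (U : Filter (ℂ × ℂ)) ≤ 𝓝 0)
    (hbad : ∀ᶠ p in (U : Filter (ℂ × ℂ)), ¬ Mono fun x => g (p + x))
    (hc : Tendsto (fun p : ℂ × ℂ => p.1 / p.2) U (𝓝 0)) (h1 : ∀ᶠ p in (U : Filter (ℂ × ℂ)), p.2 ≠ 0)
    (hih : ∀ᶠ p in 𝓝[≠] (0 : ℂ × ℂ), Mono fun x => (g ∘ blInf) (p + x)) : False := by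
  have ht1 : Tendsto (fun p : ℂ × ℂ => p.2) U (𝓝 0) := by
    have h2 : Tendsto (fun p : ℂ × ℂ => p.2) (𝓝 0) (𝓝 (0 : ℂ × ℂ).2) := continuous_snd.tendsto 0
    exact h2.mono_left hU0
  have ht : Tendsto (fun p : ℂ × ℂ => (p.1 / p.2, p.2)) U (𝓝[≠] 0) := by
    rw [tendsto_nhdsWithin_iff]
    refine ⟨?_, ?_⟩
    · exact hc.prodMk_nhds ht1
    · filter_upwards [h1] with p hp
      intro h0
      exact hp (congrArg Prod.snd h0)
  obtain ⟨p, hp1, hp2, hp3⟩ := ((ht.eventually hih).and (h1.and hbad)).exists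
  apply hp3
  have h4 : blInf (p.1 / p.2, p.2) = p := by
    unfold blInf
    ext
    · simp only
      field_simp
    · rfl
  have h5 := Mono.of_near (blInf_near (p := (p.1 / p.2, p.2)) hp2) hp1
  rw [h4] at h5
  exact h5

/-- bounded functions converge along an ultrafilter -/
private theorem FinG_lim {U : Ultrafilter (ℂ × ℂ)} {f : ℂ × ℂ → ℂ}
    (h : ∀ᶠ p in (U : Filter (ℂ × ℂ)), ‖f p‖ ≤ 1) : ∃ c : ℂ, Tendsto f U (𝓝 c) := by
  have h1 : ((U.map f : Ultrafilter ℂ) : Filter ℂ) ≤ 𝓟 (Metric.closedBall (0 : ℂ) 1) := by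
    rw [Filter.le_principal_iff, Ultrafilter.coe_map, Filter.mem_map]
    filter_upwards [h] with p hp
    simpa using hp
  obtain ⟨c, -, hc⟩ := (isCompact_closedBall (0 : ℂ) 1).ultrafilter_le_nhds (U.map f) h1
  exact ⟨c, hc⟩

/-- If the germ `g` is resolved by finitely many blow-ups then it is a monomial times a unit at all points near `0`
different from `0`. -/
theorem ResN.near {n : ℕ} : ∀ {g : ℂ × ℂ → ℂ}, ResN n g →
    ∀ᶠ p in 𝓝[≠] (0 : ℂ × ℂ), Mono fun x => g (p + x) := by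
  induction n with
  | zero =>
    intro g h
    exact (Mono.near h).filter_mono nhdsWithin_le_nhds
  | succ n ih =>
    intro g h
    rcases h with h | h
    · exact (Mono.near h).filter_mono nhdsWithin_le_nhds
    · by_contra hne
      have hf : ∃ᶠ p in 𝓝[≠] (0 : ℂ × ℂ), ¬ Mono fun x => g (p + x) := Filter.not_eventually.mp hne
      have hnb := Filter.frequently_iff_neBot.mp hf
      obtain ⟨U, hU⟩ := Ultrafilter.exists_le (𝓝[≠] (0 : ℂ × ℂ) ⊓ 𝓟 {p | ¬ Mono fun x => g (p + x)})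
      have hU1 : (U : Filter (ℂ × ℂ)) ≤ 𝓝[≠] 0 := hU.trans inf_le_left
      have hU0 : (U : Filter (ℂ × ℂ)) ≤ 𝓝 0 := hU1.trans nhdsWithin_le_nhds
      have hbad : ∀ᶠ p in (U : Filter (ℂ × ℂ)), ¬ Mono fun x => g (p + x) :=
        Filter.le_principal_iff.mp (hU.trans inf_le_right)
      have hne0 : ∀ᶠ p in (U : Filter (ℂ × ℂ)), p ≠ 0 := by
        have h1 : ∀ᶠ p in 𝓝[≠] (0 : ℂ × ℂ), p ≠ 0 := eventually_mem_nhdsWithin
        exact h1.filter_mono hU1
      rcases U.em (fun p => ‖p.2‖ ≤ ‖p.1‖) with h1 | h1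
      · have h2 : ∀ᶠ p in (U : Filter (ℂ × ℂ)), p.1 ≠ 0 := by
          filter_upwards [h1, hne0] with p hp1 hp2 h0
          apply hp2
          rw [h0, norm_zero] at hp1
          exact Prod.ext h0 (norm_le_zero_iff.mp hp1)
        obtain ⟨c, hc⟩ := FinG_lim (U := U) (f := fun p => p.2 / p.1) (by
          filter_upwards [h1] with p hp
          rw [norm_div]
          exact div_le_one_of_le₀ hp (norm_nonneg _))
        exact FinG_key1 hU0 hbad hc h2 (ih (h (bl c) (bchart_bl c)))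
      · have h2 : ∀ᶠ p in (U : Filter (ℂ × ℂ)), p.2 ≠ 0 := by
          filter_upwards [h1] with p hp1 h0
          apply hp1
          rw [h0, norm_zero]
          exact norm_nonneg _
        obtain ⟨c, hc⟩ := FinG_lim (U := U) (f := fun p => p.1 / p.2) (by
          filter_upwards [h1] with p hp
          rw [norm_div]
          exact div_le_one_of_le₀ (not_le.mp hp).le (norm_nonneg _))
        by_cases hc0 : c = 0
        · rw [hc0] at hc
          exact FinG_key2 hU0 hbad hc h2 (ih (h blInf bchart_blInf))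
        · have h3 : ∀ᶠ p in (U : Filter (ℂ × ℂ)), p.1 ≠ 0 := by
            filter_upwards [hc.eventually_ne hc0] with p hp h0
            apply hp
            rw [h0, zero_div]
          have h4 : Tendsto (fun p : ℂ × ℂ => p.2 / p.1) U (𝓝 c⁻¹) := by
            have h5 := hc.inv₀ hc0
            refine h5.congr ?_
            intro p
            rw [inv_div]
          exact FinG_key1 hU0 hbad h4 h3 (ih (h (bl c⁻¹) (bchart_bl c⁻¹)))

end Pool.Agent.H17BP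

end
end

section

/-!
# CV BirkA: replacing an element of a basis over `ℂ[x]`

`w' i₀ = ∑ c i * w i`, `w' i = w i` for `i ≠ i₀`: a basis over `L` because `c i₀ = γ ≠ 0` (e.g. `Module.Basis.mk` with linear independence and span; or the change of basis by an invertible matrix / linear
equivalence; or `basisOfLinearIndependentOfCardEqFinrank`).  Let `f = ∑ r i * w i = ∑ r' i * w' i`: `r i₀ = γ r' i₀`, `r i = r' i + r' i₀ * c i` for `i ≠ i₀`.  So the `r i` are in `ℂ[x]` if and only if the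
`r' i` are (`γ⁻¹ ∈ ℂ[x]`).
-/

set_option autoImplicit false

open Pool.Agent.H23.Fano (PrimeDivisorOver Form regularForms)

noncomputable section

namespace Pool.Agent.H13.CV

attribute [-instance] ProperSMul.toContinuousSMul

variable {K : Type} [Field K] [Algebra ℂ K] {L : IntermediateField ℂ K} {x : K} {n : ℕ}

theorem AffB.replace (hL : Gen L x) {w : Module.Basis (Fin n) L K} (hw : AffB x w) (i₀ : Fin n) (c : Fin n → K)
    (hc : ∀ i, c i ∈ Algebra.adjoin ℂ {x}) {γ : ℂ} (hγ : γ ≠ 0) (hi₀ : c i₀ = algebraMap ℂ K γ) :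
    ∃ w' : Module.Basis (Fin n) L K, AffB x w' ∧ w' i₀ = ∑ i, c i * w i ∧ ∀ i, i ≠ i₀ → w' i = w i := by
  classical
  have hcL : ∀ i, c i ∈ L := by
    intro i
    rw [hL.eq]
    exact IntermediateField.algebra_adjoin_le_adjoin ℂ {x} (hc i)
  obtain ⟨c', hc'⟩ : ∃ c' : Fin n → L, ∀ i, ((c' i : L) : K) = c i := ⟨fun i => ⟨c i, hcL i⟩, fun i => rfl⟩
  obtain ⟨g, hg⟩ : ∃ g : L, g = algebraMap ℂ L γ := ⟨_, rfl⟩
  have hgK : (g : K) = algebraMap ℂ K γ := by rw [hg]; rfl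
  have hg0 : g ≠ 0 := by
    rw [hg]
    exact (map_ne_zero_iff _ (algebraMap ℂ L).injective).2 hγ
  have hcg : c' i₀ = g := by
    apply Subtype.ext
    rw [hc' i₀, hi₀, hgK]
  obtain ⟨u, hu⟩ : ∃ u : K, u = (∑ i, c' i • w i) - w i₀ := ⟨_, rfl⟩
  have hur : ∀ i, w.repr u i = c' i - if i = i₀ then 1 else 0 := by
    intro i
    rw [hu, map_sub, Finsupp.sub_apply, Module.Basis.repr_sum_self, Module.Basis.repr_self,
      Finsupp.single_apply]
    congr 1
    by_cases h : i = i₀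
    · simp [h]
    · simp [h, Ne.symm h]
  have hur0 : w.repr u i₀ = g - 1 := by rw [hur, if_pos rfl, hcg]
  have hT : ∀ f : K, (LinearMap.id + (LinearMap.toSpanSingleton L K u) ∘ₗ (w.coord i₀) : K →ₗ[L] K) f =
      f + w.repr f i₀ • u := by
    intro f
    simp
  have hS : ∀ f : K, (LinearMap.id - (LinearMap.toSpanSingleton L K u) ∘ₗ (g⁻¹ • w.coord i₀) : K →ₗ[L] K) f =
      f - (g⁻¹ * w.repr f i₀) • u := by
    intro f
    simp
  obtain ⟨T, hTd⟩ : ∃ T : K →ₗ[L] K, ∀ f, T f = f + w.repr f i₀ • u := ⟨_, hT⟩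
  obtain ⟨S, hSd⟩ : ∃ S : K →ₗ[L] K, ∀ f, S f = f - (g⁻¹ * w.repr f i₀) • u := ⟨_, hS⟩
  have hTS : ∀ f, T (S f) = f := by
    intro f
    rw [hTd, hSd, map_sub, map_smul, Finsupp.sub_apply, Finsupp.smul_apply, hur0, smul_eq_mul]
    have e : w.repr f i₀ - g⁻¹ * w.repr f i₀ * (g - 1) = g⁻¹ * w.repr f i₀ := by
      field_simp
      ring
    rw [e]
    abel
  have hST : ∀ f, S (T f) = f := by
    intro f
    rw [hSd, hTd, map_add, map_smul, Finsupp.add_apply, Finsupp.smul_apply, hur0, smul_eq_mul]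
    have e : g⁻¹ * (w.repr f i₀ + w.repr f i₀ * (g - 1)) = w.repr f i₀ := by
      field_simp
      ring
    rw [e]
    abel
  let e : K ≃ₗ[L] K := LinearEquiv.ofLinearMap T S (LinearMap.ext hTS) (LinearMap.ext hST)
  have he : ∀ f, e f = T f := fun f => rfl
  have hes : ∀ f, e.symm f = S f := fun f => rfl
  have hrepr : ∀ f i, (w.map e).repr f i = w.repr f i - g⁻¹ * w.repr f i₀ * (c' i - if i = i₀ then 1 else 0) := by
    intro f i
    rw [Module.Basis.map_repr, LinearEquiv.trans_apply, hes, hSd, map_sub, map_smul, Finsupp.sub_apply,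
      Finsupp.smul_apply, hur, smul_eq_mul]
  have hgi : algebraMap ℂ K γ⁻¹ ∈ Algebra.adjoin ℂ {x} := Subalgebra.algebraMap_mem _ _
  have hgg : algebraMap ℂ K γ ∈ Algebra.adjoin ℂ {x} := Subalgebra.algebraMap_mem _ _
  have hginv : ((g⁻¹ : L) : K) = algebraMap ℂ K γ⁻¹ := by
    rw [map_inv₀, ← hgK]
    rfl
  have hd : ∀ i, (((c' i - if i = i₀ then 1 else 0 : L)) : K) ∈ Algebra.adjoin ℂ {x} := by
    intro i
    have e1 : (((c' i - if i = i₀ then 1 else 0 : L)) : K) = c i - if i = i₀ then 1 else 0 := by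
      split_ifs
      · rw [← hc' i]; rfl
      · rw [← hc' i]; rfl
    rw [e1]
    refine Subalgebra.sub_mem _ (hc i) ?_
    split_ifs
    · exact Subalgebra.one_mem _
    · exact Subalgebra.zero_mem _
  refine ⟨w.map e, ?_, ?_, ?_⟩
  · intro f
    rw [hw f]
    constructor
    · intro h i
      rw [hrepr]
      have e1 : ((w.repr f i - g⁻¹ * w.repr f i₀ * (c' i - if i = i₀ then 1 else 0) : L) : K) =
          ((w.repr f i : L) : K) - ((g⁻¹ : L) : K) * ((w.repr f i₀ : L) : K) *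
            (((c' i - if i = i₀ then 1 else 0 : L)) : K) := rfl
      rw [e1, hginv]
      exact Subalgebra.sub_mem _ (h i) (Subalgebra.mul_mem _ (Subalgebra.mul_mem _ hgi (h i₀)) (hd i))
    · intro h
      have h0 : ((w.repr f i₀ : L) : K) ∈ Algebra.adjoin ℂ {x} := by
        have h1 := h i₀
        rw [hrepr, if_pos rfl, hcg] at h1
        have e1 : w.repr f i₀ - g⁻¹ * w.repr f i₀ * (g - 1) = g⁻¹ * w.repr f i₀ := by
          field_simp
          ring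
        rw [e1] at h1
        have e2 : ((w.repr f i₀ : L) : K) = algebraMap ℂ K γ * (((g⁻¹ * w.repr f i₀ : L)) : K) := by
          have e3 : w.repr f i₀ = g * (g⁻¹ * w.repr f i₀) := by
            field_simp
          rw [← hgK]
          conv_lhs => rw [e3]
          rfl
        rw [e2]
        exact Subalgebra.mul_mem _ hgg h1
      intro i
      have h1 := h i
      rw [hrepr] at h1
      have e1 : ((w.repr f i : L) : K) =
          ((w.repr f i - g⁻¹ * w.repr f i₀ * (c' i - if i = i₀ then 1 else 0) : L) : K) +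
            ((g⁻¹ : L) : K) * ((w.repr f i₀ : L) : K) * (((c' i - if i = i₀ then 1 else 0 : L)) : K) := by
        have e2 : w.repr f i = (w.repr f i - g⁻¹ * w.repr f i₀ * (c' i - if i = i₀ then 1 else 0)) +
            g⁻¹ * w.repr f i₀ * (c' i - if i = i₀ then 1 else 0) := by ring
        conv_lhs => rw [e2]
        rfl
      rw [e1, hginv]
      exact Subalgebra.add_mem _ h1 (Subalgebra.mul_mem _ (Subalgebra.mul_mem _ hgi h0) (hd i))
  · rw [Module.Basis.map_apply, he, hTd, Module.Basis.repr_self, Finsupp.single_eq_same, one_smul, hu]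
    have e1 : ∑ i, c' i • w i = ∑ i, c i * w i := by
      refine Finset.sum_congr rfl fun i _ => ?_
      rw [← hc' i]
      rfl
    rw [e1]
    ring
  · intro i hi
    rw [Module.Basis.map_apply, he, hTd, Module.Basis.repr_self, Finsupp.single_apply, if_neg hi, zero_smul,
      add_zero]

end Pool.Agent.H13.CV

end
end

section

/-!
# CV Lgt: pluricanonical forms

`pole_mul_pow`: `ω = g • η`, `0 ≤ ord (h * g ^ 1)`; the same `g`, `η`: `f * h ^ m * g ^ m = f * (h * g) ^ m`.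
`lgt_of_forms`: in the definition of `IsLogGeneralType` take `r = 1`, `f = ![f₀, f₁]`.  `K` is finite over `ℂ(f₁ / f₀)` (`hK.fin`), so it is algebraic over `ℂ(f₀ / f₀, f₁ / f₀)`.
-/

set_option autoImplicit false

open Pool.Agent.H23.Fano (PrimeDivisorOver Form regularForms)
open Pool.Agent.H17LG.Variety (PoleAtMost IsLogGeneralType)

noncomputable section

namespace Pool.Agent.H13.CV

attribute [-instance] ProperSMul.toContinuousSMul

variable {K : Type} [Field K] [Algebra ℂ K]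

theorem pole_mul_pow {E : Place K} {h f : K} {ω : Form K 1} {m p : ℕ} (hh : PoleAtMost 0 E 1 h ω) (hf : 0 ≤ E.ord f + p) : PoleAtMost p E m (f * h ^ m) ω := by
  obtain ⟨g, η, hη, hω, h0⟩ := hh
  refine ⟨g, η, hη, hω, ?_⟩
  have h1 : (0 : WithTop ℤ) ≤ E.ord (h * g) := by
    simpa using h0
  have h2 : f * h ^ m * g ^ m = f * (h * g) ^ m := by
    rw [mul_pow, mul_assoc]
  have h3 : (0 : WithTop ℤ) ≤ E.ord ((h * g) ^ m) := by
    rw [E.ord.map_pow]
    exact nsmul_nonneg h1 m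
  rw [h2, E.ord.map_mul]
  calc (0 : WithTop ℤ) ≤ E.ord f + p := hf
    _ = E.ord f + 0 + p := by rw [add_zero]
    _ ≤ E.ord f + E.ord ((h * g) ^ m) + p := by
      gcongr

/-- two pluricanonical forms with a non-constant ratio -/
theorem lgt_of_forms (hK : CurveField K) {B : Place K → Prop} {ω : Form K 1} (hω : ω ≠ 0) {m : ℕ} (hm : 1 ≤ m) {f₀ f₁ : K} (hf₀ : f₀ ≠ 0)
    (htr : Transcendental ℂ (f₁ / f₀)) (h₀ : ∀ E, (¬ B E → PoleAtMost 0 E m f₀ ω) ∧ (B E → PoleAtMost m E m f₀ ω))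
    (h₁ : ∀ E, (¬ B E → PoleAtMost 0 E m f₁ ω) ∧ (B E → PoleAtMost m E m f₁ ω)) : IsLogGeneralType B := by
  refine ⟨m, hm, ω, hω, 1, ![f₀, f₁], by simpa using hf₀, ?_, ?_⟩
  · intro i E
    fin_cases i
    · exact h₀ E
    · exact h₁ E
  · have he : IntermediateField.adjoin ℂ (Set.range fun i : Fin (1 + 1) => (![f₀, f₁] : Fin 2 → K) i / (![f₀, f₁] : Fin 2 → K) 0)
        = IntermediateField.adjoin ℂ {f₁ / f₀} := by
      apply le_antisymm
      · rw [IntermediateField.adjoin_le_iff]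
        rintro _ ⟨i, rfl⟩
        fin_cases i
        · have : (f₀ / f₀ : K) ∈ IntermediateField.adjoin ℂ {f₁ / f₀} := by
            rw [div_self hf₀]
            exact one_mem _
          simpa using this
        · have : (f₁ / f₀ : K) ∈ IntermediateField.adjoin ℂ {f₁ / f₀} :=
            IntermediateField.subset_adjoin _ _ rfl
          simpa using this
      · apply IntermediateField.adjoin.mono
        rintro _ rfl
        exact ⟨1, by simp⟩
    rw [he]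
    have := hK.fin _ htr
    exact Algebra.IsAlgebraic.of_finite _ _

end Pool.Agent.H13.CV

end
end

section

/-!
# BP GermChart: from germ-level charts to charts on the bidisc of radius 2

Let `ℓ` be a linear form with `ℓ (σ 0) = 1`, `σ₁ p = (ℓ (σ p))⁻¹ • σ p`, `σ' p = σ₁ (r p)` for a small `r`, `U = {x : ℓ x ≠ 0, x/ℓ x ∈ W₀, |τ (x/ℓ x)| < 2r}`, `q x = τ (x/ℓ x)/r`.
-/

set_option autoImplicit false

namespace Pool.Agent.H36.BP

attribute [-instance] ProperSMul.toContinuousSMul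

open Filter Topology Metric

open Pool.Agent.H14.PP (IsCone Chart HasType DType)

variable {N : ℕ}

theorem exists_chart {X K T : Set (EN N)} (hX : IsCone X) (hK : ∀ x ∈ K, ∀ c : ℂ, c ≠ 0 → c • x ∈ K)
    (hT : ∀ x ∈ T, ∀ c : ℂ, c ≠ 0 → c • x ∈ T) {σ : ℂ × ℂ → EN N} {τ : EN N → ℂ × ℂ} (h : IsGermChart X σ τ) {nd : Bool} {d : Bool × Bool}
    (hnd : ∀ᶠ p in 𝓝 (0 : ℂ × ℂ), (σ p ∈ T ↔ p.1 = 0 ∨ (nd = true ∧ p.2 = 0)))
    (hd : ∀ᶠ p in 𝓝 (0 : ℂ × ℂ), (σ p ∉ K ↔ (d.1 = true ∧ p.1 = 0) ∨ (d.2 = true ∧ p.2 = 0))) :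
    ∃ χ : Chart X, σ 0 ∈ χ.U ∧ χ.q (σ 0) = 0 ∧ HasType T χ nd ∧ DType K χ d := by
  have hσ0 : σ 0 ≠ 0 := by
    intro h0
    have h1 := h.σ_mem.self_of_nhds
    rw [h0] at h1
    exact hX.zero_notMem h1
  -- the linear form
  obtain ⟨ℓ, hℓ⟩ : ∃ ℓ : EN N →L[ℂ] ℂ, ℓ (σ 0) = 1 := by
    have hne : inner ℂ (σ 0) (σ 0) ≠ (0 : ℂ) := inner_self_ne_zero.mpr hσ0
    refine ⟨(inner ℂ (σ 0) (σ 0) : ℂ)⁻¹ • innerSL ℂ (σ 0), ?_⟩
    simp only [_root_.smul_apply, innerSL_apply_apply, smul_eq_mul]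
    exact inv_mul_cancel₀ hne
  -- the normalised parametrisation
  have hℓσ : ContinuousAt (fun p => ℓ (σ p)) 0 := ℓ.continuous.continuousAt.comp h.σ_an.continuousAt
  have hℓne : ∀ᶠ p in 𝓝 (0 : ℂ × ℂ), ℓ (σ p) ≠ 0 := hℓσ.eventually_ne (by rw [hℓ]; exact one_ne_zero)
  have hinvσ : ∀ᶠ p in 𝓝 (0 : ℂ × ℂ), τ ((ℓ (σ p))⁻¹ • σ p) = τ (σ p) := by
    have hc : Tendsto (fun p => (σ p, (ℓ (σ p))⁻¹)) (𝓝 (0 : ℂ × ℂ)) (𝓝 (σ 0, (1 : ℂ))) := by
      have h1 : Tendsto (fun p => (ℓ (σ p))⁻¹) (𝓝 (0 : ℂ × ℂ)) (𝓝 (ℓ (σ 0))⁻¹) := hℓσ.inv₀ (by rw [hℓ]; exact one_ne_zero)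
      rw [hℓ, inv_one] at h1
      exact h.σ_an.continuousAt.prodMk_nhds h1
    exact hc.eventually h.inv
  -- the neighbourhood W₀
  have hW : ∀ᶠ y in 𝓝 (σ 0), AnalyticAt ℂ τ y ∧ (y ∈ X → ∃ c : ℂ, c ≠ 0 ∧ y = c • σ (τ y)) := h.τ_an.eventually_analyticAt.and h.right
  obtain ⟨W₀, hW₀s, hW₀o, hW₀m⟩ := _root_.eventually_nhds_iff.mp hW
  have hσ₁ : Tendsto (fun p => (ℓ (σ p))⁻¹ • σ p) (𝓝 (0 : ℂ × ℂ)) (𝓝 (σ 0)) := by
    have h1 : Tendsto (fun p => (ℓ (σ p))⁻¹) (𝓝 (0 : ℂ × ℂ)) (𝓝 (ℓ (σ 0))⁻¹) := hℓσ.inv₀ (by rw [hℓ]; exact one_ne_zero)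
    have h2 := h1.smul h.σ_an.continuousAt
    rwa [hℓ, inv_one, one_smul] at h2
  have hσ₁W : ∀ᶠ p in 𝓝 (0 : ℂ × ℂ), (ℓ (σ p))⁻¹ • σ p ∈ W₀ := hσ₁.eventually (hW₀o.mem_nhds hW₀m)
  obtain ⟨R, hR, hall⟩ := Metric.eventually_nhds_iff_ball.mp
    ((((((h.σ_an.eventually_analyticAt.and h.σ_mem).and h.left).and hℓne).and hinvσ).and hσ₁W).and (hnd.and hd))
  set r : ℝ := R / 2 with hr
  have hr0 : 0 < r := by rw [hr]; positivity
  have hrC : (r : ℂ) ≠ 0 := by exact_mod_cast hr0.ne'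
  have hball : ∀ p ∈ ball (0 : ℂ × ℂ) 2, (r : ℂ) • p ∈ ball (0 : ℂ × ℂ) R := by
    intro p hp
    rw [mem_ball_zero_iff] at hp ⊢
    rw [norm_smul, Complex.norm_real, Real.norm_of_nonneg hr0.le, hr]
    nlinarith
  have hτσ : ∀ p ∈ ball (0 : ℂ × ℂ) R, τ ((ℓ (σ p))⁻¹ • σ p) = p := by
    intro p hp
    rw [(hall p hp).1.1.2, (hall p hp).1.1.1.1.2]
  set U : Set (EN N) := {x | ℓ x ≠ 0 ∧ (ℓ x)⁻¹ • x ∈ W₀ ∧ ‖τ ((ℓ x)⁻¹ • x)‖ < R} with hU
  have hmaps : ∀ x : EN N, ℓ x ≠ 0 → ∀ c : ℂ, c ≠ 0 → (ℓ (c • x))⁻¹ • (c • x) = (ℓ x)⁻¹ • x := by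
    intro x hx c hc
    rw [map_smul, smul_eq_mul, smul_smul, mul_inv, mul_comm c⁻¹, mul_assoc, inv_mul_cancel₀ hc, mul_one]
  have han1 : ∀ x : EN N, ℓ x ≠ 0 → AnalyticAt ℂ (fun y : EN N => (ℓ y)⁻¹ • y) x := by
    intro x hx
    exact ((ℓ.analyticAt x).inv hx).smul analyticAt_id
  have hanq : ∀ x ∈ U, AnalyticAt ℂ (fun y : EN N => τ ((ℓ y)⁻¹ • y)) x := by
    intro x hx
    exact AnalyticAt.fun_comp (hW₀s _ hx.2.1).1 (han1 x hx.1)
  have hUopen : IsOpen U := by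
    rw [isOpen_iff_mem_nhds]
    intro x hx
    have h1 : ∀ᶠ y in 𝓝 x, ℓ y ≠ 0 := ℓ.continuous.continuousAt.eventually_ne hx.1
    have h2 : ∀ᶠ y in 𝓝 x, (ℓ y)⁻¹ • y ∈ W₀ := (han1 x hx.1).continuousAt.eventually (hW₀o.mem_nhds hx.2.1)
    have h3 : ∀ᶠ y in 𝓝 x, ‖τ ((ℓ y)⁻¹ • y)‖ < R := (hanq x hx).continuousAt.norm.eventually_lt_const hx.2.2
    filter_upwards [h1, h2, h3] with y h4 h5 h6
    exact ⟨h4, h5, h6⟩
  let χ : Chart X :=
    { σ := fun p => (ℓ (σ ((r : ℂ) • p)))⁻¹ • σ ((r : ℂ) • p)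
      U := U
      q := fun x => (r : ℂ)⁻¹ • τ ((ℓ x)⁻¹ • x)
      isOpen_U := hUopen
      smul_U := by
        rintro x ⟨h1, h2, h3⟩ c hc
        refine ⟨?_, ?_, ?_⟩
        · rw [map_smul, smul_eq_mul]
          exact mul_ne_zero hc h1
        · rw [hmaps x h1 c hc]; exact h2
        · rw [hmaps x h1 c hc]; exact h3
      σ_an := by
        intro p hp
        have h1 := (hall _ (hball p hp)).1.1.1.1.1.1
        have h2 : AnalyticAt ℂ (fun p : ℂ × ℂ => σ ((r : ℂ) • p)) p :=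
          AnalyticAt.fun_comp h1 (analyticAt_const.fun_smul analyticAt_id)
        have h3 : AnalyticAt ℂ (fun p : ℂ × ℂ => ℓ (σ ((r : ℂ) • p))) p := (ℓ.analyticAt _).fun_comp h2
        exact (h3.inv (hall _ (hball p hp)).1.1.1.2).smul h2
      q_an := by
        intro x hx
        exact analyticAt_const.fun_smul (hanq x hx)
      q_smul := by
        rintro x ⟨h1, h2, h3⟩ c hc
        show (r : ℂ)⁻¹ • τ ((ℓ (c • x))⁻¹ • (c • x)) = _
        rw [hmaps x h1 c hc]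
      σ_mem := by
        intro p hp
        have hb := hball p hp
        have hh := hall _ hb
        have hne := hh.1.1.1.2
        have h1 : ℓ ((ℓ (σ ((r : ℂ) • p)))⁻¹ • σ ((r : ℂ) • p)) = 1 := by
          rw [map_smul, smul_eq_mul, inv_mul_cancel₀ hne]
        have h2 : τ ((ℓ (σ ((r : ℂ) • p)))⁻¹ • σ ((r : ℂ) • p)) = (r : ℂ) • p := hτσ _ hb
        refine ⟨hX.smul_mem _ hh.1.1.1.1.1.2 _ (inv_ne_zero hne), ⟨?_, ?_, ?_⟩, ?_⟩
        · rw [h1]; exact one_ne_zero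
        · rw [h1, inv_one, one_smul]; exact hh.1.2
        · rw [h1, inv_one, one_smul, h2]
          exact mem_ball_zero_iff.mp hb
        · show (r : ℂ)⁻¹ • τ ((ℓ ((ℓ (σ ((r : ℂ) • p)))⁻¹ • σ ((r : ℂ) • p)))⁻¹ • ((ℓ (σ ((r : ℂ) • p)))⁻¹ • σ ((r : ℂ) • p))) = p
          rw [h1, inv_one, one_smul, h2, smul_smul, inv_mul_cancel₀ hrC, one_smul]
      surj := by
        rintro x hxX ⟨h1, h2, h3⟩
        have hyX : (ℓ x)⁻¹ • x ∈ X := hX.smul_mem _ hxX _ (inv_ne_zero h1)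
        obtain ⟨c, hc0, hc⟩ := (hW₀s _ h2).2 hyX
        have hτb : τ ((ℓ x)⁻¹ • x) ∈ ball (0 : ℂ × ℂ) R := mem_ball_zero_iff.mpr h3
        have hrq : (r : ℂ) • ((r : ℂ)⁻¹ • τ ((ℓ x)⁻¹ • x)) = τ ((ℓ x)⁻¹ • x) := by
          rw [smul_smul, mul_inv_cancel₀ hrC, one_smul]
        refine ⟨?_, ?_⟩
        · show (r : ℂ)⁻¹ • τ ((ℓ x)⁻¹ • x) ∈ ball (0 : ℂ × ℂ) 2
          rw [mem_ball_zero_iff, norm_smul, norm_inv, Complex.norm_real, Real.norm_of_nonneg hr0.le, inv_mul_lt_iff₀ hr0, hr]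
          linarith
        · refine ⟨ℓ x * c * ℓ (σ (τ ((ℓ x)⁻¹ • x))), ?_, ?_⟩
          · exact mul_ne_zero (mul_ne_zero h1 hc0) (hall _ hτb).1.1.1.2
          · show x = (ℓ x * c * ℓ (σ (τ ((ℓ x)⁻¹ • x)))) •
              ((ℓ (σ ((r : ℂ) • ((r : ℂ)⁻¹ • τ ((ℓ x)⁻¹ • x)))))⁻¹ • σ ((r : ℂ) • ((r : ℂ)⁻¹ • τ ((ℓ x)⁻¹ • x))))
            rw [hrq, smul_smul, mul_assoc, mul_inv_cancel₀ (hall _ hτb).1.1.1.2, mul_one, mul_smul, ← hc, smul_smul, mul_inv_cancel₀ h1, one_smul] }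
  have h0b : (0 : ℂ × ℂ) ∈ ball (0 : ℂ × ℂ) R := mem_ball_self hR
  have hτ0 : τ (σ 0) = 0 := (hall 0 h0b).1.1.1.1.2
  refine ⟨χ, ⟨?_, ?_, ?_⟩, ?_, ?_, ?_⟩
  · rw [hℓ]; exact one_ne_zero
  · rw [hℓ, inv_one, one_smul]; exact hW₀m
  · rw [hℓ, inv_one, one_smul, hτ0, norm_zero]; exact hR
  · show (r : ℂ)⁻¹ • τ ((ℓ (σ 0))⁻¹ • σ 0) = 0
    rw [hℓ, inv_one, one_smul, hτ0, smul_zero]
  · intro p hp
    have hb := hball p hp
    have hne := (hall _ hb).1.1.1.2
    have h1 := (hall _ hb).2.1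
    have h2 : ((ℓ (σ ((r : ℂ) • p)))⁻¹ • σ ((r : ℂ) • p) ∈ T) ↔ σ ((r : ℂ) • p) ∈ T := by
      constructor
      · intro h3
        have h4 := hT _ h3 _ hne
        rwa [smul_smul, mul_inv_cancel₀ hne, one_smul] at h4
      · intro h3
        exact hT _ h3 _ (inv_ne_zero hne)
    show ((ℓ (σ ((r : ℂ) • p)))⁻¹ • σ ((r : ℂ) • p) ∈ T) ↔ _
    rw [h2, h1]
    simp [hrC, hr0.ne']
  · intro p hp
    have hb := hball p hp
    have hne := (hall _ hb).1.1.1.2
    have h1 := (hall _ hb).2.2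
    have h2 : ((ℓ (σ ((r : ℂ) • p)))⁻¹ • σ ((r : ℂ) • p) ∉ K) ↔ σ ((r : ℂ) • p) ∉ K := by
      constructor
      · intro h3 h4
        exact h3 (hK _ h4 _ (inv_ne_zero hne))
      · intro h3 h4
        apply h3
        have h5 := hK _ h4 _ hne
        rwa [smul_smul, mul_inv_cancel₀ hne, one_smul] at h5
    show ((ℓ (σ ((r : ℂ) • p)))⁻¹ • σ ((r : ℂ) • p) ∉ K) ↔ _
    rw [h2, h1]
    simp [hrC, hr0.ne']

end Pool.Agent.H36.BP

end

section

/-!
# Kobayashi hyperbolicity modulo a curve and blow-ups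
-/

open Topology Filter

noncomputable section

namespace Pool.Agent.H14.KB

attribute [-instance] ProperSMul.toContinuousSMul

open Pool.Agent Pool.Agent.H17BP
open Pool.Agent.H62.BU (blow total phi)

variable {V : Type} [NormedAddCommGroup V] [NormedSpace ℂ V]

/-- The size of the equations. -/
def rhoS {κ : Type} [Fintype κ] (Q : κ → V → ℂ) (D : ℕ) (x : V) : ℝ := ‖fun i => Q i x‖ / ‖x‖ ^ D

theorem rhoS_nonneg {κ : Type} [Fintype κ] (Q : κ → V → ℂ) (D : ℕ) (x : V) : 0 ≤ rhoS Q D x := by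
  unfold rhoS
  positivity

/-- The derivatives at `0` of the holomorphic maps from the unit disc to the projective set with the
cone `X` are bounded, up to a power of the size of the equations `Q`. -/
def Kob (X : Set V) {κ : Type} [Fintype κ] (Q : κ → V → ℂ) (D : ℕ) : Prop :=
  ∃ (M : ℕ) (C : ℝ), 1 ≤ M ∧ 0 ≤ C ∧ ∀ (f F : ℂ → V), (∀ z : ℂ, ‖z‖ < 1 → HolP f z ∧ f z ∈ X) →
    AnalyticAt ℂ F 0 → F 0 ≠ 0 → (∀ᶠ z in 𝓝 (0 : ℂ), Pr (f z) (F z)) →
    ∃ a : ℂ, rhoS Q D (F 0) ^ M * ‖deriv F 0 - a • F 0‖ ≤ C * ‖F 0‖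

variable {ι : Type} [Fintype ι] {l : ι → V →L[ℂ] ℂ} {X B : Set V} {q : V} {κ : Type} [Fintype κ]
  {Q : κ → V → ℂ} {D : ℕ}

theorem HolP.comp_affine {W : Type} [NormedAddCommGroup W] [NormedSpace ℂ W] {f : ℂ → W} {a b z₀ : ℂ}
    (h : HolP f (a * z₀ + b)) : HolP (fun z => f (a * z + b)) z₀ := by
  obtain ⟨F, hF, hF0, he⟩ := h
  have h1 : AnalyticAt ℂ (fun z : ℂ => a * z + b) z₀ :=
    (analyticAt_const.mul analyticAt_id).add analyticAt_const
  refine ⟨fun z => F (a * z + b), AnalyticAt.comp (g := F) (f := fun z : ℂ => a * z + b) hF h1, hF0, ?_⟩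
  exact h1.continuousAt.tendsto.eventually he

theorem rhoS_phi (hQs : ∀ i (c : ℂ) x, Q i (c • x) = c ^ D * Q i x) {x : V} (hx : x ≠ 0) {b : ι}
    (hb : l b x ≠ 0) (hmax : ∀ b', ‖l b' x‖ ≤ ‖l b x‖) :
    rhoS Q D x ≤ rhoS (fun (p : κ × ι) (y : ι → V) => Q p.1 (y p.2)) D (phi l x) := by
  have hx0 : 0 < ‖x‖ := norm_pos_iff.mpr hx
  have hl0 : 0 < ‖l b x‖ := norm_pos_iff.mpr hb
  have hn : ‖phi l x‖ ≤ ‖l b x‖ * ‖x‖ := by
    refine (pi_norm_le_iff_of_nonneg (by positivity)).mpr fun b' => ?_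
    show ‖l b' x • x‖ ≤ _
    rw [norm_smul]
    exact mul_le_mul_of_nonneg_right (hmax b') (norm_nonneg _)
  have hp0 : 0 < ‖phi l x‖ := norm_pos_iff.mpr (H62.BU.phi_ne ⟨b, hb⟩)
  unfold rhoS
  rw [div_le_div_iff₀ (by positivity) (by positivity)]
  have h1 : ‖l b x‖ ^ D * ‖fun i => Q i x‖ ≤
      ‖fun p : κ × ι => Q p.1 (phi l x p.2)‖ := by
    have h2 : ‖l b x‖ ^ D * ‖fun i => Q i x‖ = ‖fun i => (l b x) ^ D * Q i x‖ := by
      have h3 : (fun i => (l b x) ^ D * Q i x) = ((l b x) ^ D) • (fun i => Q i x) := rfl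
      rw [h3, norm_smul, norm_pow]
    rw [h2]
    refine (pi_norm_le_iff_of_nonneg (norm_nonneg _)).mpr fun i => ?_
    have h4 := norm_le_pi_norm (fun p : κ × ι => Q p.1 (phi l x p.2)) (i, b)
    refine le_trans (le_of_eq ?_) h4
    show ‖(l b x) ^ D * Q i x‖ = ‖Q i (l b x • x)‖
    rw [hQs]
  have h5 : ‖phi l x‖ ^ D ≤ ‖l b x‖ ^ D * ‖x‖ ^ D := by
    rw [← mul_pow]
    exact pow_le_pow_left₀ hp0.le hn D
  calc ‖fun i => Q i x‖ * ‖phi l x‖ ^ D ≤ ‖fun i => Q i x‖ * (‖l b x‖ ^ D * ‖x‖ ^ D) := by gcongr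
    _ = (‖l b x‖ ^ D * ‖fun i => Q i x‖) * ‖x‖ ^ D := by ring
    _ ≤ ‖fun p : κ × ι => Q p.1 (phi l x p.2)‖ * ‖x‖ ^ D := by gcongr

end Pool.Agent.H14.KB

end
end
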