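import Pool.Agent.H94.CB.M43
import Pool.Agent.H94.CB.M55
import Pool.Agent.H94.CB.M64
import Pool.Agent.H94.CB.M66

/-! The parts of this file: H14.KB.KobK, H17BP.ConstV, H62.FC.CurveIdeal. -/

section

/-!
# Kobayashi hyperbolicity modulo a curve and blow-ups: open surfaces
-/

open Topology Filter

noncomputable section

namespace Pool.Agent.H14.KB

attribute [-instance] ProperSMul.toContinuousSMul

open Pool.Agent Pool.Agent.H17BP
open Pool.Agent.H62.BU (blow total Ker phi)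

variable {V : Type} [NormedAddCommGroup V] [NormedSpace ℂ V]
variable {ι : Type} [Fintype ι] {l : ι → V →L[ℂ] ℂ} {X K B : Set V} {q : V} {κ : Type} [Fintype κ]
  {Q : κ → V → ℂ} {D : ℕ}

theorem kobK_blow (hX : Surface X) (hl : Ker l q) (he : Eqs X B Q D) (hKX : K ⊆ X)
    (hKs : ∀ x ∈ K, ∀ c : ℂ, c ≠ 0 → c • x ∈ K) (hq : q ∈ B)
    (hk : Kob (total l X K) (fun (p : κ × ι) (y : ι → V) => Q p.1 (y p.2)) D) : Kob K Q D := by
  obtain ⟨M, C, hM, hC, hk⟩ := hk
  have hBX := he.sub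
  have hB := he.cone hX.smul
  have hq0 : q ≠ 0 := fun h => hX.zero (h ▸ hBX hq)
  refine ⟨M, 4 * C, hM, by positivity, fun f F hf hF hF0 hfF => ?_⟩
  have hF0' : 0 < ‖F 0‖ := norm_pos_iff.mpr hF0
  have hf0 := hKX (hf 0 (by simp)).2
  have hFX : F 0 ∈ X := (Pr.mem_iff hX.smul hfF.self_of_nhds).1 hf0
  by_cases hFB : F 0 ∈ B
  · refine ⟨0, ?_⟩
    have h1 : rhoS Q D (F 0) = 0 := by
      unfold rhoS
      have h2 : (fun i => Q i (F 0)) = 0 := funext fun i => ((he.mem_iff _).1 hFB).2 i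
      rw [h2, norm_zero, zero_div]
    rw [h1, zero_pow (by omega), zero_mul]
    positivity
  have hfB : f 0 ∉ B := fun h => hFB ((Pr.mem_iff hB hfF.self_of_nhds).1 h)
  -- the shifted curve
  have hnorm : ∀ z : ℂ, ‖z‖ < 1 / 2 → ‖z + 1 / 4‖ < 1 := by
    intro z hz
    have h1 : ‖(1 / 4 : ℂ)‖ = 1 / 4 := by norm_num
    have h2 := norm_add_le z (1 / 4 : ℂ)
    rw [h1] at h2
    linarith
  have hsh : ∀ z : ℂ, z ≠ 0 → ‖z‖ < 1 / 2 → HolP (fun z => f (z + 1 / 4)) z ∧ f (z + 1 / 4) ∈ X := by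
    intro z _ hz
    obtain ⟨h1, h2⟩ := hf _ (hnorm z hz)
    refine ⟨?_, hKX h2⟩
    have h3 : HolP (fun z => f (1 * z + 1 / 4)) z := HolP.comp_affine (by rw [one_mul]; exact h1)
    simpa using h3
  have hne : ∃ z : ℂ, z ≠ 0 ∧ ‖z‖ < 1 / 2 ∧ f (z + 1 / 4) ∉ B := by
    refine ⟨-(1 / 4), by norm_num, by norm_num, ?_⟩
    rw [neg_add_cancel]
    exact hfB
  have hi := isolated_of_notMem hl hB hq hq0 (fun z h1 h2 => (hsh z h1 h2).1) hne
  obtain ⟨h, h1, h2⟩ := exists_lift hX hl hq0 hsh hi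
  -- the lifted curve
  have hz1 : ∀ z : ℂ, ‖z‖ < 1 → 1 / 4 * z + -(1 / 4) ≠ 0 ∧ ‖1 / 4 * z + -(1 / 4)‖ < 1 / 2 := by
    intro z hz
    constructor
    · intro h0
      have h3 : z = 1 := by linear_combination 4 * h0
      rw [h3, norm_one] at hz
      exact lt_irrefl _ hz
    · have h3 := norm_add_le (1 / 4 * z) (-(1 / 4) : ℂ)
      rw [norm_mul, norm_neg] at h3
      have h4 : ‖(1 / 4 : ℂ)‖ = 1 / 4 := by norm_num
      rw [h4] at h3
      linarith
  set g : ℂ → ι → V := fun z => h (1 / 4 * z + -(1 / 4)) with hg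
  have hgh : ∀ z : ℂ, ‖z‖ < 1 → HolP g z ∧ g z ∈ total l X K := by
    intro z hz
    obtain ⟨h3, h4⟩ := hz1 z hz
    obtain ⟨h5, h6⟩ := h1 _ h3 h4
    refine ⟨HolP.comp_affine h5, h6, fun b hb => ?_⟩
    obtain ⟨c, hc, e⟩ := (h2 _ h3 h4 b hb).symm
    show h (1 / 4 * z + -(1 / 4)) b ∈ K
    rw [e]
    exact hKs _ (hf _ (hnorm _ h4)).2 c hc
  -- some `l b (F 0)` is not `0`
  have hlb : ∃ b, l b (F 0) ≠ 0 := by
    by_contra hcon
    push Not at hcon
    obtain ⟨c, e⟩ := (hl (F 0)).1 hcon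
    have hc : c ≠ 0 := by
      rintro rfl
      rw [zero_smul] at e
      exact hF0 e
    exact hFB (e ▸ hB q hq c hc)
  have : Nonempty ι := ⟨hlb.choose⟩
  obtain ⟨b, hbmax⟩ := Finite.exists_max fun b => ‖l b (F 0)‖
  have hb : l b (F 0) ≠ 0 := by
    obtain ⟨b', hb'⟩ := hlb
    have h3 := hbmax b'
    intro h0
    rw [h0, norm_zero] at h3
    exact hb' (norm_le_zero_iff.mp h3)
  have hb0 : 0 < ‖l b (F 0)‖ := norm_pos_iff.mpr hb
  set G : ℂ → ι → V := fun z => phi l (F (1 / 4 * z)) with hG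
  have hsc : HasDerivAt (fun z : ℂ => 1 / 4 * z) (1 / 4) 0 := by
    simpa using (hasDerivAt_id (0 : ℂ)).const_mul (1 / 4 : ℂ)
  have hsc0 : (fun z : ℂ => 1 / 4 * z) 0 = 0 := by simp
  have hscan : AnalyticAt ℂ (fun z : ℂ => 1 / 4 * z) 0 := analyticAt_const.mul analyticAt_id
  have hF1 : AnalyticAt ℂ (fun z : ℂ => F (1 / 4 * z)) 0 :=
    AnalyticAt.comp (g := F) (f := fun z : ℂ => 1 / 4 * z) (by simpa using hF) hscan
  have hGan : AnalyticAt ℂ G 0 := by
    rw [analyticAt_pi_iff]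
    intro b
    exact (((l b).analyticAt _).comp hF1).smul hF1
  have hG0 : G 0 = phi l (F 0) := by
    rw [hG]
    simp
  have hGne : G 0 ≠ 0 := by
    rw [hG0]
    exact H62.BU.phi_ne ⟨b, hb⟩
  have ht : Tendsto (fun z : ℂ => 1 / 4 * z) (𝓝 0) (𝓝 0) := by
    have := hscan.continuousAt.tendsto
    simpa using this
  have hgG : ∀ᶠ z in 𝓝 (0 : ℂ), Pr (g z) (G z) := by
    have h3 : ∀ᶠ z in 𝓝 (0 : ℂ), l b (F (1 / 4 * z)) ≠ 0 := by
      have h4 : ContinuousAt (fun z : ℂ => l b (F (1 / 4 * z))) 0 :=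
        (l b).continuous.continuousAt.comp hF1.continuousAt
      exact h4.eventually_ne (by simpa using hb)
    have h4 : ∀ᶠ z : ℂ in 𝓝 0, ‖z‖ < 1 :=
      continuous_norm.continuousAt.eventually_lt_const (by simp)
    filter_upwards [ht.eventually hfF, h3, h4] with z h5 h6 h7
    obtain ⟨h8, h9⟩ := hz1 z h7
    obtain ⟨h10, h11⟩ := h1 _ h8 h9
    obtain ⟨b₁, hb₁⟩ := H62.BU.exists_ne _ h11
    have h12 : Pr (f (1 / 4 * z)) (g z b₁) := by
      have := h2 _ h8 h9 b₁ hb₁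
      have e : 1 / 4 * z + -(1 / 4) + 1 / 4 = 1 / 4 * z := by ring
      rwa [e] at this
    have h13 : Pr (F (1 / 4 * z)) (g z b₁) := h5.symm.trans h12
    have h14 : l b (g z b₁) ≠ 0 := by
      obtain ⟨c, hc, e⟩ := h13
      intro h0
      rw [e, map_smul, h0, smul_zero] at h6
      exact h6 rfl
    have h15 := H62.BU.eq_phi (g z) h11 hb₁ h14
    have h16 := H62.BU.ne_of_ne (g z) h11 hb₁ h14
    have h17 : Pr (g z) (phi l (g z b₁)) := ⟨_, inv_ne_zero h16, h15⟩
    obtain ⟨c, hc, e⟩ := h13.symm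
    refine h17.trans ⟨c ^ 2, pow_ne_zero _ hc, ?_⟩
    rw [hG, e, H62.BU.phi_smul]
  obtain ⟨a', ha'⟩ := hk g G hgh hGan hGne hgG
  -- the derivative
  have hFd : HasDerivAt F (deriv F 0) 0 := hF.differentiableAt.hasDerivAt
  have hF1d : HasDerivAt (fun z : ℂ => F (1 / 4 * z)) ((1 / 4 : ℂ) • deriv F 0) 0 := by
    have h3 : HasDerivAt F (deriv F 0) ((fun z : ℂ => 1 / 4 * z) 0) := by rw [hsc0]; exact hFd
    exact h3.scomp 0 hsc
  have hGd : deriv G 0 b = (1 / 4 : ℂ) • (l b (deriv F 0) • F 0 + l b (F 0) • deriv F 0) := by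
    have h3 : HasDerivAt (fun z : ℂ => l b (F (1 / 4 * z))) (l b ((1 / 4 : ℂ) • deriv F 0)) 0 :=
      (l b).hasFDerivAt.comp_hasDerivAt (0 : ℂ) hF1d
    rw [map_smul, smul_eq_mul] at h3
    have h4 := h3.smul hF1d
    have h5 : HasDerivAt (fun z => G z b) (deriv G 0 b) 0 :=
      (hasDerivAt_pi.1 hGan.differentiableAt.hasDerivAt) b
    have h6 : (fun z => G z b) = fun z : ℂ => l b (F (1 / 4 * z)) • F (1 / 4 * z) := rfl
    rw [h6] at h5
    have h7 := h5.unique h4
    rw [h7]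
    simp only [mul_zero]
    module
  refine ⟨4 * a' - l b (deriv F 0) / l b (F 0), ?_⟩
  set a : ℂ := 4 * a' - l b (deriv F 0) / l b (F 0) with ha
  have h3 : deriv G 0 b - a' • G 0 b = (l b (F 0) / 4) • (deriv F 0 - a • F 0) := by
    rw [hGd, hG0]
    show _ - a' • (l b (F 0) • F 0) = _
    rw [ha]
    have h4 : (l b (F 0) / 4) * (4 * a' - l b (deriv F 0) / l b (F 0)) =
        l b (F 0) * a' - l b (deriv F 0) / 4 := by
      field_simp
    have h5 : (l b (F 0) / 4) • (deriv F 0 - (4 * a' - l b (deriv F 0) / l b (F 0)) • F 0) =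
        (l b (F 0) / 4) • deriv F 0 - (l b (F 0) * a' - l b (deriv F 0) / 4) • F 0 := by
      rw [smul_sub, smul_smul, h4]
    rw [h5]
    module
  have h4 : ‖l b (F 0)‖ / 4 * ‖deriv F 0 - a • F 0‖ ≤ ‖deriv G 0 - a' • G 0‖ := by
    have h5 := norm_le_pi_norm (deriv G 0 - a' • G 0) b
    have h6 : (deriv G 0 - a' • G 0) b = deriv G 0 b - a' • G 0 b := rfl
    rw [h6, h3, norm_smul, norm_div] at h5
    have h7 : ‖(4 : ℂ)‖ = 4 := by norm_num
    rwa [h7] at h5
  have h5 : ‖G 0‖ ≤ ‖l b (F 0)‖ * ‖F 0‖ := by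
    rw [hG0]
    refine (pi_norm_le_iff_of_nonneg (by positivity)).mpr fun b' => ?_
    show ‖l b' (F 0) • F 0‖ ≤ _
    rw [norm_smul]
    exact mul_le_mul_of_nonneg_right (hbmax b') (norm_nonneg _)
  have h6 := rhoS_phi (l := l) he.smul hF0 hb hbmax
  rw [hG0] at ha'
  rw [hG0] at h4 h5
  have h7 : rhoS Q D (F 0) ^ M ≤
      rhoS (fun (p : κ × ι) (y : ι → V) => Q p.1 (y p.2)) D (phi l (F 0)) ^ M :=
    pow_le_pow_left₀ (rhoS_nonneg _ _ _) h6 M
  have h8 : rhoS Q D (F 0) ^ M * (‖l b (F 0)‖ / 4 * ‖deriv F 0 - a • F 0‖) ≤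
      C * (‖l b (F 0)‖ * ‖F 0‖) := by
    refine le_trans ?_ (ha'.trans (mul_le_mul_of_nonneg_left h5 hC))
    exact mul_le_mul h7 h4 (by positivity) (pow_nonneg (rhoS_nonneg _ _ _) _)
  have h9 : ‖l b (F 0)‖ * (rhoS Q D (F 0) ^ M * ‖deriv F 0 - a • F 0‖) ≤
      ‖l b (F 0)‖ * (4 * C * ‖F 0‖) := by linarith
  exact le_of_mul_le_mul_left h9 hb0

end Pool.Agent.H14.KB

end
end

section

/-!
# A variety of dimension `0` is a point

`FunField Q` is algebraic over `ℂ` (`IsTranscendenceBasis` with the empty family: e.g.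
`IsTranscendenceBasis.isAlgebraic`, the subalgebra adjoined by the empty range is `⊥`), so every element of it is in the
range of `algebraMap` (`IsAlgClosed.algebraMap_bijective_of_isIntegral` or `IsAlgClosed.algebraMap_surjective_of_isAlgebraic`).
Let `X j ∉ Q`, so `coordFun Q j ≠ 0` (`Pool.Agent.H92.GT.Proj.aeval_coordFun_eq_zero_iff Q (X j)`).
`Pool.Agent.H92.GT.Proj.proj_point Q hj` gives `y` in `functionField Q` with `y j = 1` and `aeval y G = 0 ↔ G ∈ Q` for forms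
`G`.  `y i = algebraMap c_i`; the form `X i - C c_i * X j` has `aeval y = y i - c_i y j = 0`, so it is in `Q`, and every point
`x` of the variety satisfies `x i = c_i * x j`, so `x.rep = x.rep j • c`, `x.rep j ≠ 0`: `x` is the point given by `c`.
-/

open Topology Filter MvPolynomial

noncomputable section

namespace Pool.Agent.H17BP

attribute [-instance] ProperSMul.toContinuousSMul

open Pool.Agent.H17LG.Variety (FunField)
open Pool.Agent.H62.FC (Homog)

variable {N : ℕ} {Q : Ideal (MvPolynomial (Fin (N + 1)) ℂ)}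

theorem eq_of_trdeg_zero [Q.IsPrime] (hQ : Homog Q) (hX : ∃ i, (X i : MvPolynomial (Fin (N + 1)) ℂ) ∉ Q)
    (hz : ∃ z : Fin 0 → FunField Q, IsTranscendenceBasis ℂ z) :
    ∀ x ∈ variety Q, ∀ y ∈ variety Q, x = y := by
  have _ := hQ
  obtain ⟨j, hj⟩ := hX
  obtain ⟨z, hz⟩ := hz
  have hcj : Pool.Agent.H17GT.coordFun Q j ≠ 0 := by
    intro h
    apply hj
    rw [← Pool.Agent.H92.GT.Proj.aeval_coordFun_eq_zero_iff Q (X j), aeval_X]
    exact h
  obtain ⟨y, hy1, -, hker⟩ := Pool.Agent.H92.GT.Proj.proj_point Q hcj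
  have halg : Algebra.IsAlgebraic ℂ (FunField Q) := hz.isEmpty_iff_isAlgebraic.1 inferInstance
  have halg' : Algebra.IsAlgebraic ℂ (Pool.Agent.H17GT.functionField Q) := halg
  have hsurj : Function.Surjective (algebraMap ℂ (Pool.Agent.H17GT.functionField Q)) :=
    (IsAlgClosed.algebraMap_bijective_of_isIntegral (k := ℂ)
      (K := Pool.Agent.H17GT.functionField Q)).2
  choose c hc using fun i => hsurj (y i)
  have hform : ∀ i, (X i - C (c i) * X j : MvPolynomial (Fin (N + 1)) ℂ).IsHomogeneous 1 := by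
    intro i
    refine (isHomogeneous_X ℂ i).sub ?_
    have h := (isHomogeneous_C (Fin (N + 1)) (c i)).mul (isHomogeneous_X ℂ j)
    simpa using h
  have hmem : ∀ i, (X i - C (c i) * X j : MvPolynomial (Fin (N + 1)) ℂ) ∈ Q := by
    intro i
    rw [← hker 1 _ (hform i), map_sub, map_mul, aeval_X, aeval_X, hy1, mul_one, aeval_C, hc i,
      sub_self]
  have hrep : ∀ x ∈ variety Q, x.rep j ≠ 0 ∧ x.rep = x.rep j • c := by
    intro x hx
    have h1 : x.rep = x.rep j • c := by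
      funext i
      have h2 : eval x.rep (X i - C (c i) * X j) = 0 := hx.1 _ (hmem i) 1 (hform i)
      rw [map_sub, map_mul, eval_X, eval_X, eval_C, sub_eq_zero] at h2
      rw [Pi.smul_apply, smul_eq_mul, h2]
      ring
    refine ⟨fun h2 => x.rep_nonzero ?_, h1⟩
    rw [h1, h2, zero_smul]
  intro x hx x' hx'
  obtain ⟨h1, h2⟩ := hrep x hx
  obtain ⟨h3, h4⟩ := hrep x' hx'
  rw [← x.mk_rep, ← x'.mk_rep, Projectivization.mk_eq_mk_iff']
  refine ⟨x.rep j / x'.rep j, ?_⟩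
  rw [h4, h2, smul_smul]
  congr 1
  simp only [Pi.smul_apply, smul_eq_mul]
  have h5 : c j ≠ 0 := by
    intro h6
    apply h1
    have := congrFun h2 j
    rw [Pi.smul_apply, smul_eq_mul, h6, mul_zero] at this
    exact this
  have h6 : c j = 1 := by
    have h7 : algebraMap ℂ (Pool.Agent.H17GT.functionField Q) (c j) = algebraMap ℂ _ 1 := by
      rw [hc j, hy1, map_one]
    exact (algebraMap ℂ (Pool.Agent.H17GT.functionField Q)).injective h7
  rw [h6, mul_one, mul_one]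
  exact div_mul_cancel₀ _ h3

end Pool.Agent.H17BP

end
end

section

/-!
# Fermat covers: subvarieties which are not of log general type

The closures of the monomial curves are rational curves stable under a one-parameter group, so they
are not of log general type.
-/

open MvPolynomial Topology Filter
open Pool.Agent.H17GT (coordFun functionField)
open Pool.Agent.H17LG.Variety (FunField)

noncomputable section

namespace Pool.Agent.H62.FC

attribute [-instance] ProperSMul.toContinuousSMul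

variable {N : ℕ} {κ : Type} {A : κ → MvPolynomial (Fin (N + 1)) ℂ} {e : κ → ℕ}
  {O : Finset (Fin (N + 1))} {P : Ideal (MvPolynomial (Fin (N + 1)) ℂ)}

variable {a : Fin (N + 1) → ℂ} {n : Fin (N + 1) → ℤ}

open scoped IntermediateField.algebraAdjoinAdjoin in
lemma exists_fin_basis_aux {K : Type} [Field K] [Algebra ℂ K] {m : ℕ} {x : Fin m → K}
    (hgen : IntermediateField.adjoin ℂ (Set.range x) = ⊤) :
    ∃ (w : ℕ) (z : Fin w → K), IsTranscendenceBasis ℂ z := by
  have halg : Algebra.IsAlgebraic (IntermediateField.adjoin ℂ (Set.range x)) K := by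
    rw [hgen]
    exact ⟨fun f => isAlgebraic_algebraMap (⟨f, IntermediateField.mem_top⟩ :
      (⊤ : IntermediateField ℂ K))⟩
  have h1 : Algebra.IsAlgebraic (Algebra.adjoin ℂ (Set.range x)) K :=
    (IsFractionRing.comap_isAlgebraic_iff (A := Algebra.adjoin ℂ (Set.range x))
      (K := IntermediateField.adjoin ℂ (Set.range x)) (C := K)).mpr halg
  obtain ⟨u, hu, hub⟩ := exists_isTranscendenceBasis_subset (R := ℂ) (Set.range x)
  have h3 : Finite u := (Set.finite_range x).subset hu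
  let eqv : Fin (Nat.card u) ≃ u := (Finite.equivFin u).symm
  refine ⟨Nat.card u, (Subtype.val : u → K) ∘ eqv, ?_⟩
  rw [isTranscendenceBasis_equiv]
  exact hub

/-- The function field of a projective variety has a finite transcendence basis. -/
lemma exists_fin_basis [P.IsPrime] (hne : ∃ i, X i ∉ P) :
    ∃ (w : ℕ) (z : Fin w → FunField P), IsTranscendenceBasis ℂ z := by
  obtain ⟨j, hj⟩ := hne
  have hj' : coordFun P j ≠ 0 := by
    intro h0
    apply hj
    rw [← Pool.Agent.H92.GT.Proj.aeval_coordFun_eq_zero_iff P (X j), aeval_X]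
    exact h0
  obtain ⟨x, -, hgen, -⟩ := Pool.Agent.H92.GT.Proj.proj_point P hj'
  exact exists_fin_basis_aux hgen

end Pool.Agent.H62.FC

end
end
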