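import Pool.Agent.H94.CB.H14.PP.CurveBasic_1
import Pool.Agent.H94.CB.M15
import Pool.Agent.H94.CB.M30

/-! The parts of this file: H14.PP.Cover, H62.BU.LiftB, H62.BU.Off, H62.BU.TanB, H68.KR.ExtG. -/

section

/-!
# BPm Cover: a finite atlas near `T`

`S = {x ∈ X | ‖x‖ = 1}` is compact (`insert 0 X` is closed, `EN N` is proper);
`T ∩ S = {x ∈ S | Q x = 0}` is compact. For `x ∈ T ∩ S` take the chart `χ_x` given by `IsNodal`; the
set `{y ∈ χ_x.U | ‖q y‖ < 1/2}` is open and contains `x`. Finitely many of them, with charts `χ i`,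
cover `T ∩ S`. The set of `x ∈ S` outside all these open sets is compact and does not meet `T`, so
`rho Q D` (continuous, positive there) is at least `δ' > 0` on it; `δ = δ'/2`. For general `x ∈ X`
use `x/‖x‖ ∈ S`: `rho`, `U` and `q` are invariant under scaling (`rho_smul`, `smul_U`, `q_smul`).
-/

open Topology Filter Metric

namespace Pool.Agent.H14.PP

attribute [-instance] ProperSMul.toContinuousSMul

open Pool.Agent.H36.BP

variable {N : ℕ} {W : Type*} [NormedAddCommGroup W] [InnerProductSpace ℂ W]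
  {X K T : Set (EN N)} {Q : EN N → W} {D : ℕ}

private theorem Cover_compact (hX : IsCone X) : IsCompact {x : EN N | x ∈ X ∧ ‖x‖ = 1} := by
  have h1 : {x : EN N | x ∈ X ∧ ‖x‖ = 1} = insert 0 X ∩ sphere (0 : EN N) 1 := by
    ext x
    simp only [Set.mem_ofPred_eq, Set.mem_inter_iff, Set.mem_insert_iff, mem_sphere_zero_iff_norm]
    constructor
    · rintro ⟨h1, h2⟩
      exact ⟨Or.inr h1, h2⟩
    · rintro ⟨h1 | h1, h2⟩
      · rw [h1, norm_zero] at h2
        exact absurd h2 zero_ne_one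
      · exact ⟨h1, h2⟩
  rw [h1, Set.inter_comm]
  exact (isCompact_sphere _ _).inter_right hX.closed

private theorem Cover_open (χ : Chart X) : IsOpen {y : EN N | y ∈ χ.U ∧ ‖χ.q y‖ < 1 / 2} := by
  rw [isOpen_iff_mem_nhds]
  rintro y ⟨hy1, hy2⟩
  filter_upwards [χ.isOpen_U.mem_nhds hy1,
    (χ.q_an y hy1).continuousAt.norm.eventually_lt_const hy2] with z hz1 hz2
  exact ⟨hz1, hz2⟩

theorem exists_atlas (hX : IsCone X) (hQ : IsEq X T Q D) (hT : IsNodal X K T) :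
    ∃ (n : ℕ) (χ : Fin n → Chart X) (nd : Fin n → Bool) (d : Fin n → Bool × Bool),
      (∀ i, HasType T (χ i) (nd i)) ∧ (∀ i, DType K (χ i) (d i)) ∧
      (∀ i, (d i).2 = true → nd i = true) ∧
      ∃ δ : ℝ, 0 < δ ∧ ∀ x ∈ X, rho Q D x ≤ δ → ∃ i, x ∈ (χ i).U ∧ ‖(χ i).q x‖ < 1 / 2 := by
  classical
  obtain ⟨S, hS⟩ : ∃ S : Set (EN N), S = {x : EN N | x ∈ X ∧ ‖x‖ = 1} := ⟨_, rfl⟩
  have hSc : IsCompact S := by rw [hS]; exact Cover_compact hX
  have hQc : Continuous Q := continuous_iff_continuousAt.mpr fun x => (hQ.analytic x).continuousAt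
  have hTc : IsCompact (S ∩ {x | Q x = 0}) :=
    hSc.inter_right (isClosed_eq hQc continuous_const)
  have hTS : ∀ x ∈ S ∩ {x | Q x = 0}, x ∈ T := by
    rintro x ⟨hx1, hx2⟩
    rw [hS] at hx1
    exact (hQ.mem_iff x).mpr ⟨hx1.1, hx2⟩
  -- the charts
  choose χ nd d hU h0 hty hdt hdn using hT
  obtain ⟨O, hO⟩ : ∃ O : (x : EN N) → x ∈ S ∩ {x | Q x = 0} → Set (EN N),
      ∀ x hx, O x hx = {y | y ∈ (χ x (hTS x hx)).U ∧ ‖(χ x (hTS x hx)).q y‖ < 1 / 2} :=
    ⟨_, fun _ _ => rfl⟩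
  have hOn : ∀ x (hx : x ∈ S ∩ {x | Q x = 0}), O x hx ∈ 𝓝 x := by
    intro x hx
    rw [hO]
    refine (Cover_open _).mem_nhds ⟨hU x (hTS x hx), ?_⟩
    rw [h0 x (hTS x hx), norm_zero]
    norm_num
  obtain ⟨t, ht⟩ := hTc.elim_nhds_subcover' O hOn
  -- enumerate the finite set
  obtain ⟨n, e⟩ : ∃ n : ℕ, Nonempty (Fin n ≃ t) := ⟨t.card, ⟨t.equivFin.symm⟩⟩
  obtain ⟨e⟩ := e
  refine ⟨n, fun i => χ _ (hTS _ (e i).1.2), fun i => nd _ (hTS _ (e i).1.2),
    fun i => d _ (hTS _ (e i).1.2), fun i => hty _ _, fun i => hdt _ _, fun i => hdn _ _, ?_⟩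
  -- the rest of the sphere
  obtain ⟨R, hR⟩ : ∃ R : Set (EN N), R = S \ ⋃ x ∈ t, O x.1 x.2 := ⟨_, rfl⟩
  have hRc : IsCompact R := by
    rw [hR]
    refine hSc.diff (isOpen_biUnion fun x _ => ?_)
    rw [hO]
    exact Cover_open _
  have hpos : ∀ x ∈ R, 0 < rho Q D x := by
    intro x hx
    rw [hR] at hx
    have hxS : x ∈ X ∧ ‖x‖ = 1 := by
      have := hx.1
      rwa [hS] at this
    refine lt_of_le_of_ne (rho_nonneg _ _ _) fun h => ?_
    have hQ0 : Q x = 0 := (rho_eq_zero_iff (hX.ne_zero hxS.1)).mp h.symm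
    exact hx.2 (ht ⟨hx.1, hQ0⟩)
  have hcont : ContinuousOn (rho Q D) R := by
    intro x hx
    rw [hR] at hx
    have hxS : x ∈ X ∧ ‖x‖ = 1 := by
      have := hx.1
      rwa [hS] at this
    exact (continuousAt_rho hQ.analytic (hX.ne_zero hxS.1)).continuousWithinAt
  obtain ⟨δ, hδ, hδR⟩ : ∃ δ : ℝ, 0 < δ ∧ ∀ x ∈ R, δ < rho Q D x := by
    rcases R.eq_empty_or_nonempty with he | hne
    · exact ⟨1, one_pos, fun x hx => by rw [he] at hx; exact absurd hx (Set.notMem_empty x)⟩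
    · obtain ⟨x₀, hx₀, hmin⟩ := hRc.exists_isMinOn hne hcont
      have h1 := hpos x₀ hx₀
      refine ⟨rho Q D x₀ / 2, by linarith, fun x hx => ?_⟩
      have h2 : rho Q D x₀ ≤ rho Q D x := hmin hx
      linarith
  refine ⟨δ, hδ, fun x hx hle => ?_⟩
  have hx0 : x ≠ 0 := hX.ne_zero hx
  have hn : (0 : ℝ) < ‖x‖ := norm_pos_iff.mpr hx0
  obtain ⟨c, hc⟩ : ∃ c : ℂ, c = ((‖x‖ : ℂ))⁻¹ := ⟨_, rfl⟩
  have hc0 : c ≠ 0 := by
    rw [hc]
    exact inv_ne_zero (by exact_mod_cast hn.ne')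
  have hyS : c • x ∈ S := by
    rw [hS]
    refine ⟨hX.smul_mem x hx c hc0, ?_⟩
    rw [norm_smul, hc, norm_inv, Complex.norm_real, norm_norm, inv_mul_cancel₀ hn.ne']
  have hy : c • x ∉ R := by
    intro hyR
    have h1 := hδR _ hyR
    rw [rho_smul hQ.smul hc0] at h1
    linarith
  have hy2 : c • x ∈ ⋃ x ∈ t, O x.1 x.2 := by
    by_contra hcon
    exact hy (by rw [hR]; exact ⟨hyS, hcon⟩)
  rw [Set.mem_iUnion₂] at hy2
  obtain ⟨z, hz, hz2⟩ := hy2
  rw [hO] at hz2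
  obtain ⟨hz3, hz4⟩ := hz2
  have hxU : x ∈ (χ z.1 (hTS z.1 z.2)).U := by
    have h1 := (χ z.1 (hTS z.1 z.2)).smul_U _ hz3 c⁻¹ (inv_ne_zero hc0)
    rwa [smul_smul, inv_mul_cancel₀ hc0, one_smul] at h1
  refine ⟨e.symm ⟨z, hz⟩, ?_⟩
  have h2 : e (e.symm ⟨z, hz⟩) = ⟨z, hz⟩ := e.apply_symm_apply _
  have h3 : (e (e.symm ⟨z, hz⟩)).1 = z := by rw [h2]
  have h4 : χ (e (e.symm ⟨z, hz⟩)).1.1 (hTS _ (e (e.symm ⟨z, hz⟩)).1.2) =
      χ z.1 (hTS z.1 z.2) := by
    rw [h3]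
  show x ∈ (χ (e (e.symm ⟨z, hz⟩)).1.1 (hTS _ (e (e.symm ⟨z, hz⟩)).1.2)).U ∧
    ‖(χ (e (e.symm ⟨z, hz⟩)).1.1 (hTS _ (e (e.symm ⟨z, hz⟩)).1.2)).q x‖ < 1 / 2
  rw [h4]
  refine ⟨hxU, ?_⟩
  rwa [(χ z.1 (hTS z.1 z.2)).q_smul x hxU c hc0] at hz4

end Pool.Agent.H14.PP

end

section

/-!
# BU LiftB: lifting holomorphic curves to the blow-up, equations of the total transform

`lift_curve`: `g z = phi l (f z)` is analytic at `z₀` and not `0` near `z₀` identically (some `l b (f z) ≠ 0` frequently: `hne`), so `g z = (z - z₀)^k • F z` with `F z₀ ≠ 0`, `F` analytic (`AnalyticAt.exists_eventuallyEq_pow_smul_nonzero_iff`);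
for `z ≠ z₀` near `z₀` some `l b (f z) ≠ 0` and `F z = (z - z₀)^(-k) • phi l (f z) ∈ dense`; `F z₀` is a limit and `≠ 0` (`blow_closed`).
`curve_comp`: components (`comp_mem`).
`total_eq`: equations.  `Q i` continuous, homogeneous of degree `D ≥ 1`.
-/

set_option autoImplicit false

namespace Pool.Agent.H62.BU

attribute [-instance] ProperSMul.toContinuousSMul

open Filter Topology

variable {V : Type*} [NormedAddCommGroup V] [NormedSpace ℂ V] {ι : Type*} [Fintype ι]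
variable {l : ι → V →L[ℂ] ℂ} {X : Set V} {σ : ℂ × ℂ → V} {τ : V → ℂ × ℂ}

theorem lift_curve {f : ℂ → V} {z₀ : ℂ} (hf : AnalyticAt ℂ f z₀) (hfX : ∀ᶠ z in 𝓝 z₀, f z ∈ X)
    (hne : ∃ᶠ z in 𝓝[≠] z₀, ∃ b, l b (f z) ≠ 0) :
    ∃ (k : ℕ) (F : ℂ → ι → V), AnalyticAt ℂ F z₀ ∧ (∀ᶠ z in 𝓝 z₀, F z ∈ blow l X) ∧
      ∀ᶠ z in 𝓝 z₀, phi l (f z) = (z - z₀) ^ k • F z := by
  have hg : AnalyticAt ℂ (fun z => phi l (f z)) z₀ := by
    rw [analyticAt_pi_iff]
    intro b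
    exact (((l b).analyticAt (f z₀)).comp hf).smul hf
  have hnot : ¬ ∀ᶠ z in 𝓝 z₀, phi l (f z) = 0 := by
    intro h
    refine hne ?_
    filter_upwards [h.filter_mono nhdsWithin_le_nhds] with z hz hb
    exact phi_ne hb hz
  obtain ⟨k, F, hF, hF0, hFe⟩ := (hg.exists_eventuallyEq_pow_smul_nonzero_iff).2 hnot
  have hFne : ∀ᶠ z in 𝓝 z₀, F z ≠ 0 := hF.continuousAt.eventually_ne hF0
  have hpunc : ∀ᶠ z in 𝓝[≠] z₀, F z ∈ blow l X := by
    filter_upwards [(hFne.and (hFe.and hfX)).filter_mono nhdsWithin_le_nhds, self_mem_nhdsWithin]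
      with z hz hzz
    obtain ⟨h1, h2, h3⟩ := hz
    have h4 : (z - z₀) ^ k ≠ 0 := pow_ne_zero _ (sub_ne_zero.2 hzz)
    have h5 : ∃ b, l b (f z) ≠ 0 := by
      by_contra hcon
      push Not at hcon
      have h6 : phi l (f z) = 0 := by
        funext b
        show l b (f z) • f z = 0
        rw [hcon b, zero_smul]
      rw [h6] at h2
      exact smul_ne_zero h4 h1 h2.symm
    have h7 : F z = ((z - z₀) ^ k)⁻¹ • phi l (f z) := by
      rw [h2, smul_smul, inv_mul_cancel₀ h4, one_smul]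
    rw [h7]
    exact dense_sub (dense_smul (phi_mem_dense h3 h5) (inv_ne_zero h4))
  have hz0 : F z₀ ∈ blow l X := by
    refine blow_closed _ ?_ hF0
    exact mem_closure_of_tendsto (hF.continuousAt.tendsto.mono_left nhdsWithin_le_nhds) hpunc
  refine ⟨k, F, hF, ?_, hFe⟩
  rw [eventually_nhdsWithin_iff] at hpunc
  filter_upwards [hpunc] with z hz
  by_cases h : z = z₀
  · rw [h]; exact hz0
  · exact hz h

theorem total_eq (hX : Surface X) {B : Set V} {κ : Type*} {Q : κ → V → ℂ} {D : ℕ} (hD : D ≠ 0)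
    (hQ : ∀ i (c : ℂ) x, Q i (c • x) = c ^ D * Q i x) (hB : ∀ x, x ∈ B ↔ x ∈ X ∧ ∀ i, Q i x = 0) (y : ι → V) :
    y ∈ total l X B ↔ y ∈ blow l X ∧ ∀ i b, Q i (y b) = 0 := by
  constructor
  · rintro ⟨h1, h2⟩
    refine ⟨h1, fun i b => ?_⟩
    by_cases hb : y b = 0
    · rw [hb]
      have h3 := hQ i 0 (0 : V)
      rwa [smul_zero, zero_pow hD, zero_mul] at h3
    · exact ((hB _).1 (h2 b hb)).2 i
  · rintro ⟨h1, h2⟩
    exact ⟨h1, fun b hb => (hB _).2 ⟨comp_mem hX y h1 hb, fun i => h2 i b⟩⟩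

end Pool.Agent.H62.BU

end

section

/-!
# BU Off: charts of the blow-up off the exceptional curve

`σ1 p = phi l (σ p)`, `τ1 y = τ (a⁻¹ • y b)`, `a = l b (σ 0) ≠ 0`.  Use `isChart_of_dense`.
* `σ1 p ∈ dense` for `p` near `0` (`l b (σ p) ≠ 0`).
* `left`: `σ1 p b = l b (σ p) • σ p`, `a⁻¹ l b (σ p)` is near `1`: `inv`, `left`.
* `right`: `y = c • phi l x`, near `σ1 0`: `y b = (c l b x) • x` is near `a • σ 0`, so `x' = a⁻¹ • y b` is near `σ 0` and in `X`; `h.right`: `x' = c' • σ (τ x')`, and `x` is a multiple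
  `c'' • σ (τ x')`, so `phi l x = c''^2 • phi l (σ (τ x'))` (`phi_smul`).
* `inv`: from `h.inv` (the map `(y, c) ↦ (a⁻¹ • y b, c)` is continuous).
-/

set_option autoImplicit false

namespace Pool.Agent.H62.BU

attribute [-instance] ProperSMul.toContinuousSMul

open Filter Topology

variable {V : Type*} [NormedAddCommGroup V] [NormedSpace ℂ V] {ι : Type*} [Fintype ι]
variable {l : ι → V →L[ℂ] ℂ} {X : Set V} {σ : ℂ × ℂ → V} {τ : V → ℂ × ℂ}

theorem chart_off (hX : Surface X) (h : IsChart X σ τ) {b : ι} (hb : l b (σ 0) ≠ 0) :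
    IsChart (blow l X) (fun p => phi l (σ p)) (fun y => τ ((l b (σ 0))⁻¹ • y b)) := by
  set a : ℂ := l b (σ 0) with ha
  set g : (ι → V) →L[ℂ] V := a⁻¹ • ContinuousLinearMap.proj b with hg
  have hgy : ∀ y : ι → V, a⁻¹ • y b = g y := fun y => rfl
  have hg0 : g (phi l (σ 0)) = σ 0 := by
    show a⁻¹ • (l b (σ 0) • σ 0) = σ 0
    rw [← ha, smul_smul, inv_mul_cancel₀ hb, one_smul]
  have hσc : ContinuousAt σ 0 := h.σ_an.continuousAt
  have hlc : ContinuousAt (fun p => l b (σ p)) 0 := (l b).continuous.continuousAt.comp hσc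
  have hne : ∀ᶠ p in 𝓝 (0 : ℂ × ℂ), l b (σ p) ≠ 0 := hlc.eventually_ne hb
  have hgc : Tendsto g (𝓝 (phi l (σ 0))) (𝓝 (σ 0)) := by
    have := g.continuous.tendsto (phi l (σ 0))
    rwa [hg0] at this
  refine isChart_of_dense ?_ ?_ ?_ ?_ ?_ ?_
  · refine AnalyticAt.pi fun b' => ?_
    exact (((l b').analyticAt _).comp h.σ_an).smul h.σ_an
  · filter_upwards [h.σ_mem, hne] with p hp1 hp2
    exact dense_sub (phi_mem_dense hp1 ⟨b, hp2⟩)
  · have h1 := h.τ_an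
    rw [← hg0] at h1
    exact h1.comp (g.analyticAt _)
  · have h1 : Tendsto (fun p => (σ p, a⁻¹ * l b (σ p))) (𝓝 (0 : ℂ × ℂ)) (𝓝 (σ 0, (1 : ℂ))) := by
      refine hσc.tendsto.prodMk_nhds ?_
      have h2 := (hlc.tendsto.const_mul a⁻¹)
      rwa [← ha, inv_mul_cancel₀ hb] at h2
    filter_upwards [h1.eventually h.inv, h.left] with p hp1 hp2
    show τ (a⁻¹ • (l b (σ p) • σ p)) = p
    rw [smul_smul]
    exact hp1.trans hp2
  · have h0 : ∀ᶠ y in 𝓝 (phi l (σ 0)), g y ≠ 0 := (hgc.eventually_ne h.ne)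
    filter_upwards [hgc.eventually h.right, h0] with y hy hy0 hyd
    obtain ⟨x, hx, -, c, hc, rfl⟩ := hyd
    have h1 : g (c • phi l x) = (a⁻¹ * (c * l b x)) • x := by
      show a⁻¹ • (c • (l b x • x)) = _
      rw [smul_smul, smul_smul, mul_assoc]
    rw [h1] at hy hy0
    have h2 : a⁻¹ * (c * l b x) ≠ 0 := fun h3 => hy0 (by rw [h3, zero_smul])
    obtain ⟨c', hc', h4⟩ := hy (hX.smul x hx _ h2)
    show ∃ c'' : ℂ, c • phi l x = c'' • phi l (σ (τ (g (c • phi l x))))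
    rw [h1]
    have h5 : x = ((a⁻¹ * (c * l b x))⁻¹ * c') • σ (τ ((a⁻¹ * (c * l b x)) • x)) := by
      rw [mul_smul, ← h4, smul_smul, inv_mul_cancel₀ h2, one_smul]
    refine ⟨c * ((a⁻¹ * (c * l b x))⁻¹ * c') ^ 2, ?_⟩
    rw [mul_smul, ← phi_smul, ← h5]
  · have h1 : Tendsto (fun p : (ι → V) × ℂ => (g p.1, p.2)) (𝓝 (phi l (σ 0), (1 : ℂ))) (𝓝 (σ 0, (1 : ℂ))) := by
      have h2 : Continuous fun p : (ι → V) × ℂ => (g p.1, p.2) :=
        (g.continuous.comp continuous_fst).prodMk continuous_snd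
      have h3 := h2.tendsto (phi l (σ 0), (1 : ℂ))
      simp only [hg0] at h3
      exact h3
    filter_upwards [h1.eventually h.inv] with p hp
    have h2 : g (p.2 • p.1) = p.2 • g p.1 := g.map_smul _ _
    show τ (g (p.2 • p.1)) = τ (g p.1)
    rw [h2]
    exact hp

end Pool.Agent.H62.BU

end

section

/-!
# BU TanB: tangent vectors of the blow-up

* `tan_comp`: `γ` in the blow-up near `0`, `γ 0 b ≠ 0`: `z ↦ γ z b` is in `X` near `0` (`comp_mem`).
* `tan_rel`: `γ_(b')(z) = λ(z) γ_b(z)` with `λ = Λ(γ_(b'))/Λ(γ_b)`, `Λ (y b) ≠ 0` (`prop`), differentiate.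
* `tan_off`: near `y` with `l b' (y b) ≠ 0`: `l_b (γ_b) • γ = phi l (γ_b)` (`eq_phi` times `l_b (γ_b)`); differentiate at `0`: with `x = y b`, `x' = v b`:
  `l_b x' • y + l_b x • v = (l_c x' • x + l_c x • x')_c`.  So if `x' = a • x` then `l_b x • v = (2 a l_c x • x)_c - a l_b x • y`, and `l_c x • x = l_b x • y c`: `v = a • y`.  The general linear form is what
  `indep_off` uses: a relation `α • x + β • v b + γ • w b = 0` gives `α' • y + β • v + γ • w = 0`.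
-/

set_option autoImplicit false

namespace Pool.Agent.H62.BU

attribute [-instance] ProperSMul.toContinuousSMul

open Filter Topology

variable {V : Type*} [NormedAddCommGroup V] [NormedSpace ℂ V] {ι : Type*} [Fintype ι]
variable {l : ι → V →L[ℂ] ℂ} {X : Set V} {σ : ℂ × ℂ → V} {τ : V → ℂ × ℂ}

theorem tan_comp (hX : Surface X) {y v : ι → V} (hy : y ∈ blow l X) (hv : Tan (blow l X) y v) {b : ι} (hb : y b ≠ 0) :
    Tan X (y b) (v b) := by
  obtain ⟨γ, hγ, hmem, h0, hd⟩ := hv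
  have hpr : AnalyticAt ℂ (fun z : ι → V => z b) (γ 0) :=
    (ContinuousLinearMap.proj (R := ℂ) (φ := fun _ : ι => V) b).analyticAt _
  have han : AnalyticAt ℂ (fun z => γ z b) 0 := hpr.comp hγ
  refine ⟨fun z => γ z b, han, ?_, by show γ 0 b = y b; rw [h0], ?_⟩
  · have h1 : ∀ᶠ z in 𝓝 (0 : ℂ), γ z b ≠ 0 := by
      have h2 : Tendsto (fun z => γ z b) (𝓝 0) (𝓝 (γ 0 b)) := han.continuousAt
      rw [h0] at h2
      exact h2.eventually_ne hb
    filter_upwards [hmem, h1] with z hz1 hz2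
    exact comp_mem hX _ hz1 hz2
  · have h1 : HasDerivAt γ v 0 := by
      rw [← hd]; exact hγ.differentiableAt.hasDerivAt
    exact (hasDerivAt_pi.mp h1 b).deriv

theorem tan_rel {y v : ι → V} (hy : y ∈ blow l X) (hv : Tan (blow l X) y v) {b : ι} (hb : y b ≠ 0) (b' : ι) :
    ∃ μ : ℂ, ∀ c : ℂ, y b' = c • y b → v b' = c • v b + μ • y b := by
  obtain ⟨γ, hγ, hmem, h0, hd⟩ := hv
  obtain ⟨Λ, hΛ⟩ := exists_dual_vector ℂ (y b) (norm_ne_zero_iff.mpr hb)
  have hΛ0 : Λ (y b) ≠ 0 := by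
    rw [hΛ.2]
    simpa using hb
  have h1 : HasDerivAt γ v 0 := by
    rw [← hd]; exact hγ.differentiableAt.hasDerivAt
  have hb1 : HasDerivAt (fun z => γ z b) (v b) 0 := hasDerivAt_pi.mp h1 b
  have hb2 : HasDerivAt (fun z => γ z b') (v b') 0 := hasDerivAt_pi.mp h1 b'
  have hL1 : HasDerivAt (fun z => Λ (γ z b)) (Λ (v b)) 0 := Λ.hasFDerivAt.comp_hasDerivAt 0 hb1
  have hL2 : HasDerivAt (fun z => Λ (γ z b')) (Λ (v b')) 0 := Λ.hasFDerivAt.comp_hasDerivAt 0 hb2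
  -- `Λ (γ b) • γ b' = Λ (γ b') • γ b` near `0`
  have e1 : HasDerivAt (fun z => Λ (γ z b) • γ z b') (Λ (γ 0 b) • v b' + Λ (v b) • γ 0 b') 0 := hL1.smul hb2
  have e2 : HasDerivAt (fun z => Λ (γ z b') • γ z b) (Λ (γ 0 b') • v b + Λ (v b') • γ 0 b) 0 := hL2.smul hb1
  have e3 : (fun z => Λ (γ z b) • γ z b') =ᶠ[𝓝 0] fun z => Λ (γ z b') • γ z b := by
    filter_upwards [hmem] with z hz
    exact prop _ hz Λ b b'
  have e4 := e1.unique (e2.congr_of_eventuallyEq e3)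
  rw [h0] at e4
  refine ⟨(Λ (y b))⁻¹ * (Λ (v b') - (Λ (y b))⁻¹ * Λ (v b) * Λ (y b')), fun c hc => ?_⟩
  have e5 : Λ (y b') = c * Λ (y b) := by rw [hc, map_smul, smul_eq_mul]
  rw [e5, hc] at e4
  rw [e5]
  have e7 : Λ (y b) • (v b' - (c • v b + ((Λ (y b))⁻¹ * (Λ (v b') - (Λ (y b))⁻¹ * Λ (v b) * (c * Λ (y b)))) • y b)) = 0 := by
    have e8 : Λ (y b) * ((Λ (y b))⁻¹ * (Λ (v b') - (Λ (y b))⁻¹ * Λ (v b) * (c * Λ (y b)))) = Λ (v b') - Λ (v b) * c := by
      field_simp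
    rw [smul_sub, smul_add, smul_smul (Λ (y b)) _ (y b), e8]
    linear_combination (norm := module) e4
  rcases smul_eq_zero.mp e7 with h4 | h4
  · exact absurd h4 hΛ0
  · exact sub_eq_zero.mp h4

private theorem TanB_aux {y v : ι → V} (hv : Tan (blow l X) y v) {b b' : ι}
    (hb : y b ≠ 0) (hb' : l b' (y b) ≠ 0) (c : ι) :
    l b (y b) • v c = l c (v b) • y b + l c (y b) • v b - l b (v b) • y c := by
  obtain ⟨γ, hγ, hmem, h0, hd⟩ := hv
  have h1 : HasDerivAt γ v 0 := by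
    rw [← hd]; exact hγ.differentiableAt.hasDerivAt
  have hbb : HasDerivAt (fun z => γ z b) (v b) 0 := hasDerivAt_pi.mp h1 b
  have hcc : HasDerivAt (fun z => γ z c) (v c) 0 := hasDerivAt_pi.mp h1 c
  have hL : ∀ c, HasDerivAt (fun z => l c (γ z b)) (l c (v b)) 0 := fun c =>
    (l c).hasFDerivAt.comp_hasDerivAt 0 hbb
  have n1 : ∀ᶠ z in 𝓝 (0 : ℂ), γ z b ≠ 0 := by
    have h2 : Tendsto (fun z => γ z b) (𝓝 0) (𝓝 (γ 0 b)) := hbb.continuousAt
    rw [h0] at h2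
    exact h2.eventually_ne hb
  have n2 : ∀ᶠ z in 𝓝 (0 : ℂ), l b' (γ z b) ≠ 0 := by
    have h2 : Tendsto (fun z => l b' (γ z b)) (𝓝 0) (𝓝 (l b' (γ 0 b))) := (hL b').continuousAt
    rw [h0] at h2
    exact h2.eventually_ne hb'
  have e1 : HasDerivAt (fun z => l b (γ z b) • γ z c) (l b (γ 0 b) • v c + l b (v b) • γ 0 c) 0 := (hL b).smul hcc
  have e2 : HasDerivAt (fun z => l c (γ z b) • γ z b) (l c (γ 0 b) • v b + l c (v b) • γ 0 b) 0 := (hL c).smul hbb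
  have e3 : (fun z => l b (γ z b) • γ z c) =ᶠ[𝓝 0] fun z => l c (γ z b) • γ z b := by
    filter_upwards [hmem, n1, n2] with z hz hz1 hz2
    have h3 := prop (γ z) hz (l b) b c
    rw [symm (γ z) hz b c] at h3
    exact h3
  have e4 := e1.unique (e2.congr_of_eventuallyEq e3)
  rw [h0] at e4
  rw [eq_sub_iff_add_eq, e4]
  exact add_comm _ _

theorem indep_off (hX : Surface X) {y v w : ι → V} (hy : y ∈ blow l X) (hv : Tan (blow l X) y v) (hw : Tan (blow l X) y w) {b b' : ι}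
    (hb : y b ≠ 0) (hb' : l b' (y b) ≠ 0) (hi : LinearIndependent ℂ ![y, v, w]) : LinearIndependent ℂ ![y b, v b, w b] := by
  have hlb : l b (y b) ≠ 0 := ne_of_ne y hy hb hb'
  have hyc : ∀ c, l b (y b) • y c = l c (y b) • y b := by
    intro c
    have h1 := prop y hy (l b) b c
    rw [symm y hy b c] at h1
    exact h1
  rw [Fintype.linearIndependent_iff] at hi ⊢
  intro g hg
  have hi2 := hi g
  simp only [Fin.sum_univ_three, Matrix.cons_val_zero, Matrix.cons_val_one, Matrix.cons_val] at hg hi2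
  apply hi2
  have hl0 : ∀ c, g 0 * l c (y b) + g 1 * l c (v b) + g 2 * l c (w b) = 0 := by
    intro c
    have h1 := congrArg (l c) hg
    simpa only [map_add, map_smul, smul_eq_mul, map_zero] using h1
  funext c
  have ev := TanB_aux hv hb hb' c
  have ew := TanB_aux hw hb hb' c
  have h1 : (g 0 * l c (y b) + g 1 * l c (v b) + g 2 * l c (w b)) • y b = 0 := by rw [hl0, zero_smul]
  have h2 : (g 0 * l b (y b) + g 1 * l b (v b) + g 2 * l b (w b)) • y c = 0 := by rw [hl0, zero_smul]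
  have h3 : l b (y b) • (g 0 • y c + g 1 • v c + g 2 • w c) = 0 := by
    linear_combination (norm := module) (g 1) • ev + (g 2) • ew + (2 * g 0) • (hyc c) + h1 - h2 + (l c (y b)) • hg
  rcases smul_eq_zero.mp h3 with h4 | h4
  · exact absurd h4 hlb
  · exact h4

end Pool.Agent.H62.BU

end

section

/-!
# KR ExtG: poles of the canonical form pulled back by an arbitrary map

`H₀` is a form, `{H₀ = 0}` the boundary.  The section of `M (K + D) - H` pulled back by an arbitrary holomorphic map `φ` from `ℂ²` to the cone becomes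
holomorphic when it is multiplied by `M` functions which vanish on the preimage of the boundary.
-/

set_option autoImplicit false

open MvPolynomial Topology Filter

noncomputable section

namespace Pool.Agent.H68.KR

attribute [-instance] ProperSMul.toContinuousSMul

section open_map

/-- A holomorphic map of the plane is open where its Jacobian does not vanish. -/
theorem map_nhds_of_jac {κ : ℂ × ℂ → ℂ × ℂ} {p : ℂ × ℂ} (hκ : AnalyticAt ℂ κ p) (hJ : jac κ p ≠ 0) :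
    Filter.map κ (𝓝 p) = 𝓝 (κ p) := by
  have h1 := hκ.hasStrictFDerivAt
  refine h1.map_nhds_eq_of_surj ?_
  have e1 : dx (fun v => (κ v).1) p = (fderiv ℂ κ p (1, 0)).1 := by
    have h2 : HasFDerivAt (fun v => (κ v).1) ((ContinuousLinearMap.fst ℂ ℂ ℂ).comp (fderiv ℂ κ p)) p :=
      hκ.differentiableAt.hasFDerivAt.fst
    simp only [dx]
    rw [h2.fderiv]
    rfl
  have e2 : dy (fun v => (κ v).1) p = (fderiv ℂ κ p (0, 1)).1 := by
    have h2 : HasFDerivAt (fun v => (κ v).1) ((ContinuousLinearMap.fst ℂ ℂ ℂ).comp (fderiv ℂ κ p)) p :=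
      hκ.differentiableAt.hasFDerivAt.fst
    simp only [dy]
    rw [h2.fderiv]
    rfl
  have e3 : dx (fun v => (κ v).2) p = (fderiv ℂ κ p (1, 0)).2 := by
    have h2 : HasFDerivAt (fun v => (κ v).2) ((ContinuousLinearMap.snd ℂ ℂ ℂ).comp (fderiv ℂ κ p)) p :=
      hκ.differentiableAt.hasFDerivAt.snd
    simp only [dx]
    rw [h2.fderiv]
    rfl
  have e4 : dy (fun v => (κ v).2) p = (fderiv ℂ κ p (0, 1)).2 := by
    have h2 : HasFDerivAt (fun v => (κ v).2) ((ContinuousLinearMap.snd ℂ ℂ ℂ).comp (fderiv ℂ κ p)) p :=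
      hκ.differentiableAt.hasFDerivAt.snd
    simp only [dy]
    rw [h2.fderiv]
    rfl
  unfold jac at hJ
  rw [e1, e2, e3, e4] at hJ
  rw [LinearMap.range_eq_top]
  rintro ⟨v, w⟩
  set a := (fderiv ℂ κ p (1, 0)).1 with ha
  set b := (fderiv ℂ κ p (0, 1)).1 with hb
  set c := (fderiv ℂ κ p (1, 0)).2 with hc
  set d := (fderiv ℂ κ p (0, 1)).2 with hd
  refine ⟨((d * v - b * w) / (a * d - b * c), (a * w - c * v) / (a * d - b * c)), ?_⟩
  have h3 : (((d * v - b * w) / (a * d - b * c), (a * w - c * v) / (a * d - b * c)) : ℂ × ℂ) =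
      ((d * v - b * w) / (a * d - b * c)) • ((1 : ℂ), (0 : ℂ)) +
        ((a * w - c * v) / (a * d - b * c)) • ((0 : ℂ), (1 : ℂ)) := by
    ext <;> simp
  rw [h3]
  simp only [ContinuousLinearMap.coe_coe, map_add, map_smul]
  ext
  · simp only [Prod.fst_add, Prod.smul_fst, smul_eq_mul, ← ha, ← hb]
    rw [div_mul_eq_mul_div, div_mul_eq_mul_div, ← add_div, div_eq_iff hJ]
    ring
  · simp only [Prod.snd_add, Prod.smul_snd, smul_eq_mul, ← hc, ← hd]
    rw [div_mul_eq_mul_div, div_mul_eq_mul_div, ← add_div, div_eq_iff hJ]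
    ring

end open_map

variable {N : ℕ} (P : Ideal (MvPolynomial (Fin (N + 1)) ℂ)) [P.IsPrime]

omit [P.IsPrime] in
/-- A map of rank three into the cone is not contained in a hypersurface. -/
theorem nd_of_D3 (hsm : ∀ x ∈ cone P, ∃ t σ, CChart P x t σ) {s : Fin 3 → Fin (N + 1)}
    {φ : ℂ × ℂ → Fin (N + 1) → ℂ} {p : ℂ × ℂ} (hφ : AnalyticAt ℂ φ p) (hφX : ∀ᶠ u in 𝓝 p, φ u ∈ cone P)
    (hD : ¬ ∀ᶠ u in 𝓝 p, D3 s (φ u) (d1 φ u) (d2 φ u) = 0) (d : ℕ) (Q : MvPolynomial (Fin (N + 1)) ℂ)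
    (hQ : Q.IsHomogeneous d) (hQP : Q ∉ P) : ¬ ∀ᶠ u in 𝓝 p, eval (φ u) Q = 0 := by
  intro hQ0
  obtain ⟨t, σ, hch⟩ := hsm _ hφX.self_of_nhds
  obtain ⟨κ, c, hκ, hc, hκ0, hc1, he⟩ := hch.param hφ rfl (hφX.mono fun u hu => hu.2)
  have hσ : AnalyticAt ℂ σ (κ p) := by
    rw [hκ0]
    exact hch.an
  have h1 := D3_comp s hc hκ hσ he
  have hκt : Tendsto κ (𝓝 p) (𝓝 0) := by
    have := hκ.continuousAt.tendsto
    rwa [hκ0] at this
  have hc0 : ∀ᶠ u in 𝓝 p, c u ≠ 0 := hc.continuousAt.eventually_ne (by rw [hc1]; exact one_ne_zero)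
  apply hD
  filter_upwards [h1, hκ.eventually_analyticAt, he.eventually_nhds, hc0.eventually_nhds, hQ0.eventually_nhds,
    hκt.eventually hch.nd_near] with u a1 a2 a3 a4 a5 a6
  rw [a1]
  have hj : jac κ u = 0 := by
    by_contra hj
    apply a6 d Q hQ hQP
    rw [← map_nhds_of_jac a2 hj]
    change ∀ᶠ u' in 𝓝 u, eval (σ (κ u')) Q = 0
    filter_upwards [a3, a4, a5] with u' b1 b2 b3
    rw [b1] at b3
    have h : eval (c u' • σ (κ u')) Q = c u' ^ d * eval (σ (κ u')) Q :=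
      eval₂_of_isHomogeneous (RingHom.id ℂ) hQ (c u') (σ (κ u'))
    rw [h] at b3
    exact (mul_eq_zero.1 b3).resolve_left (pow_ne_zero _ b2)
  rw [hj, mul_zero, zero_mul]

end Pool.Agent.H68.KR

end
end
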