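import Pool.Agent.H94.CB.M32
import Pool.Agent.H94.CB.M39
import Pool.Agent.H94.CB.M40
import Pool.Agent.H94.CB.M42

/-! The parts of this file: H17BP.TrP, H68.KR.KODL. -/

section

/-!
# Lifting holomorphic maps from a punctured disc to the blow-up

Let `f`, `r` be as in `Picard X B`, `A = {z | z ≠ 0 ∧ ‖z‖ < r}` (open and preconnected; e.g. the image of a half plane under
`exp`, or `isPreconnected_compl_singleton...` for the ball minus a point; the library has it for complements of countable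
sets: `IsConnected ... (Set.Countable.isPathConnected_compl_of_one_lt_rank)`; there may be the version for open connected
sets minus a countable set).
* `f` is not proportional to `q` near any point of `A`: let `A₁` be the set of the `z₀ ∈ A` with `Pr (f z) q` for `z` near `z₀`,
  `A₂` the set of the `z₀ ∈ A` with `¬ Pr (f z) q` for all `z ≠ z₀` near `z₀`.  Both are open, `A = A₁ ∪ A₂`: for a local lift
  `F` of `f` and the forms `l b`: `Pr (f z) q ↔ ∀ b, l b (F z) = 0` near `z₀` (`Ker`, `F z ≠ 0`, `q ≠ 0`), and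
  `AnalyticAt.eventually_eq_zero_or_eventually_ne_zero` for the finitely many functions `l b ∘ F`.  `A₁ ∩ A₂ = ∅`.  If
  `A₁ = A` then all `f z` are in `B` (`q ∈ B`, cone), against the hypothesis.  So `A₂ = A`.
* For `z₀ ∈ A` let `F` be a local lift at `z₀`; `lift_curve` gives `k` and `G` analytic at `z₀`, `G z ∈ blow`,
  `phi l (F z) = (z - z₀)^k • G z` near `z₀`.  For `z ≠ z₀` near `z₀`: `Pr (phi l (f z)) (G z)` (`phi_smul`).
  Define `h z = phi l (f z)` if `¬ Pr (f z) q`, and `h z = G_z z` with such a `G_z` at the point `z` otherwise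
  (`Classical.choose`).  `HolP h z₀` for `z₀ ∈ A` with the lift `G`: for `z ≠ z₀` near `z₀` we have `h z = phi l (f z)`; at
  `z₀` itself: if `Pr (f z₀) q` then `h z₀ = G z₀` for the chosen `G` (use the chosen `G` as the lift), otherwise
  `h z₀ = phi l (f z₀)`, `G z₀` is proportional to it (`k = 0` since `phi l (F z₀) ≠ 0`).
  `h z ∈ blow` for `z ∈ A`.  Second claim of `exists_lift` (`z ∈ A`, `h z b ≠ 0`): if `¬ Pr (f z) q` then
  `h z b = l b (f z) • f z`.  If `Pr (f z) q`: `phi l (F w) = (w - z)^k • G w` for `w` near `z`, with `G = G_z`, so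
  `l b (F w) • F w = (w - z)^k • G w b`; for every continuous linear form `Λ` and `w ≠ z` near `z`:
  `Λ (F w) • G w b = Λ (G w b) • F w`, hence in the limit `w → z`: `Λ (F z) • G z b = Λ (G z b) • F z`; with `Λ (F z) ≠ 0`
  (`exists_dual_vector`) the vector `G z b = h z b ≠ 0` is proportional to `F z`, hence to `f z`.
* `picard_blow`: `h z ∉ total` if `f z ∉ B` (`exists_ne`, second claim, `mem_total_iff`).  Apply `hp` to `h`: there is `G` analytic at
  `0`, `G 0 ≠ 0`, `Pr (h z) (G z)` for `z ≠ 0` near `0`.  Let `G 0 b ≠ 0`, `F z = G z b`.  For `z ≠ 0` near `0`: `G z b ≠ 0`,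
  so `h z b ≠ 0` and `Pr (f z) (h z b)`, `Pr (h z b) (G z b)`.
-/

open Topology Filter

noncomputable section

namespace Pool.Agent.H17BP

attribute [-instance] ProperSMul.toContinuousSMul

open Pool.Agent.H62.BU (blow total Ker phi)

variable {V : Type} [NormedAddCommGroup V] [NormedSpace ℂ V] {ι : Type} [Fintype ι] {l : ι → V →L[ℂ] ℂ}
  {X B : Set V} {q : V}

private theorem TrP_preconnected (r : ℝ) : IsPreconnected {z : ℂ | z ≠ 0 ∧ ‖z‖ < r} := by
  by_cases hr : 0 < r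
  · have h1 : IsPreconnected {w : ℂ | w.re < Real.log r} := (convex_halfSpace_re_lt (Real.log r)).isPreconnected
    have h2 := h1.image Complex.exp Complex.continuous_exp.continuousOn
    have h3 : Complex.exp '' {w : ℂ | w.re < Real.log r} = {z : ℂ | z ≠ 0 ∧ ‖z‖ < r} := by
      ext z
      constructor
      · rintro ⟨w, hw, rfl⟩
        refine ⟨Complex.exp_ne_zero w, ?_⟩
        rw [Complex.norm_exp]
        have h4 : w.re < Real.log r := hw
        calc Real.exp w.re < Real.exp (Real.log r) := Real.exp_lt_exp.2 h4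
          _ = r := Real.exp_log hr
      · rintro ⟨hz, hzr⟩
        refine ⟨Complex.log z, ?_, Complex.exp_log hz⟩
        show (Complex.log z).re < Real.log r
        rw [Complex.log_re]
        exact Real.log_lt_log (norm_pos_iff.2 hz) hzr
    rwa [h3] at h2
  · have h1 : {z : ℂ | z ≠ 0 ∧ ‖z‖ < r} = ∅ := by
      ext z
      simp only [Set.mem_ofPred_eq, Set.mem_empty_iff_false, iff_false, not_and]
      intro _ h
      exact hr ((norm_nonneg z).trans_lt h)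
    rw [h1]
    exact isPreconnected_empty

omit [Fintype ι] in
private theorem TrP_forms (hl : Ker l q) {x y : V} (h : Pr x y) (hy : y ≠ 0) : Pr x q ↔ ∀ b, l b y = 0 := by
  constructor
  · intro hx b
    obtain ⟨c, hc, e⟩ := h.symm.trans hx
    rw [e, map_smul, (hl q).2 ⟨1, (one_smul _ _).symm⟩ b, smul_zero]
  · intro hb
    obtain ⟨c, hc⟩ := (hl y).1 hb
    refine h.trans ⟨c, ?_, hc⟩
    rintro rfl
    rw [zero_smul] at hc
    exact hy hc

private theorem TrP_dichotomy (hl : Ker l q) {f : ℂ → V} {z₀ : ℂ} (hf : HolP f z₀) :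
    (∀ᶠ z in 𝓝 z₀, Pr (f z) q) ∨ ∀ᶠ z in 𝓝[≠] z₀, ¬ Pr (f z) q := by
  obtain ⟨F, hF, hF0, hfF⟩ := hf
  have hne : ∀ᶠ z in 𝓝 z₀, F z ≠ 0 := hF.continuousAt.eventually_ne hF0
  have han : ∀ b, AnalyticAt ℂ (fun z => l b (F z)) z₀ := fun b => ((l b).analyticAt (F z₀)).comp hF
  by_cases h : ∀ b, ∀ᶠ z in 𝓝 z₀, l b (F z) = 0
  · left
    filter_upwards [hne, hfF, eventually_all.2 h] with z h1 h2 h3
    exact (TrP_forms hl h2 h1).2 h3
  · right
    obtain ⟨b, hb⟩ := not_forall.1 h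
    have h1 := (han b).eventually_eq_zero_or_eventually_ne_zero.resolve_left hb
    filter_upwards [h1, hne.filter_mono nhdsWithin_le_nhds, hfF.filter_mono nhdsWithin_le_nhds] with z h2 h3 h4 h5
    exact h2 ((TrP_forms hl h4 h3).1 h5 b)

/-- A holomorphic map which is proportional to `q` only at isolated points. -/
theorem isolated_of_notMem (hl : Ker l q) (hB : ∀ x ∈ B, ∀ c : ℂ, c ≠ 0 → c • x ∈ B) (hq : q ∈ B)
    (hq0 : q ≠ 0) {r : ℝ} {f : ℂ → V} (hf : ∀ z : ℂ, z ≠ 0 → ‖z‖ < r → HolP f z)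
    (hfB : ∃ z : ℂ, z ≠ 0 ∧ ‖z‖ < r ∧ f z ∉ B) :
    ∀ z₀ : ℂ, z₀ ≠ 0 → ‖z₀‖ < r → ∀ᶠ z in 𝓝[≠] z₀, ¬ Pr (f z) q := by
  intro z₀ hz₀ hz₀r
  refine (TrP_dichotomy hl (hf z₀ hz₀ hz₀r)).resolve_left fun h => ?_
  have hu : IsOpen {z : ℂ | ∀ᶠ w in 𝓝 z, Pr (f w) q} := isOpen_setOfPred_eventually_nhds
  have hv : IsOpen {z : ℂ | ∀ᶠ w in 𝓝[≠] z, ¬ Pr (f w) q} := by
    rw [isOpen_iff_eventually]
    intro z hz
    have h1 : ∀ᶠ w in 𝓝[≠] z, ¬ Pr (f w) q := hz
    rw [eventually_nhdsWithin_iff] at h1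
    filter_upwards [eventually_eventually_nhds.2 h1] with y hy
    by_cases hyz : y = z
    · rw [hyz]
      exact hz
    · have h2 : ∀ᶠ w in 𝓝 y, w ≠ z := eventually_ne_nhds hyz
      have h3 : ∀ᶠ w in 𝓝 y, ¬ Pr (f w) q := by
        filter_upwards [hy, h2] with w h4 h5
        exact h4 h5
      exact h3.filter_mono nhdsWithin_le_nhds
  have huv : Disjoint {z : ℂ | ∀ᶠ w in 𝓝 z, Pr (f w) q} {z : ℂ | ∀ᶠ w in 𝓝[≠] z, ¬ Pr (f w) q} := by
    rw [Set.disjoint_left]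
    intro z h1 h2
    have h3 : ∀ᶠ w in 𝓝 z, Pr (f w) q := h1
    have h4 : ∀ᶠ w in 𝓝[≠] z, ¬ Pr (f w) q := h2
    obtain ⟨w, h5, h6⟩ := ((h3.filter_mono nhdsWithin_le_nhds).and h4).exists
    exact h6 h5
  have hsub : {z : ℂ | z ≠ 0 ∧ ‖z‖ < r} ⊆ {z : ℂ | ∀ᶠ w in 𝓝 z, Pr (f w) q} := by
    refine IsPreconnected.subset_left_of_subset_union hu hv huv ?_ ⟨z₀, ⟨hz₀, hz₀r⟩, h⟩ (TrP_preconnected r)
    intro z hz
    exact TrP_dichotomy hl (hf z hz.1 hz.2)
  obtain ⟨z, h1, h2, h3⟩ := hfB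
  have h4 : ∀ᶠ w in 𝓝 z, Pr (f w) q := hsub ⟨h1, h2⟩
  obtain ⟨c, hc, e⟩ := h4.self_of_nhds
  exact h3 (e ▸ hB q hq c hc)

private theorem TrP_phi {x y : V} {c : ℂ} (h : x = c • y) : phi l x = c ^ 2 • phi l y := by
  rw [h, H62.BU.phi_smul]

/-- The local lift. -/
private theorem TrP_local (hX : Surface X) (hl : Ker l q) {r : ℝ} {f : ℂ → V}
    (hf : ∀ z : ℂ, z ≠ 0 → ‖z‖ < r → HolP f z ∧ f z ∈ X)
    (hi : ∀ z₀ : ℂ, z₀ ≠ 0 → ‖z₀‖ < r → ∀ᶠ z in 𝓝[≠] z₀, ¬ Pr (f z) q) {z₀ : ℂ} (hz₀ : z₀ ≠ 0)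
    (hz₀r : ‖z₀‖ < r) :
    ∃ (F : ℂ → V) (G : ℂ → ι → V) (k : ℕ), AnalyticAt ℂ F z₀ ∧ F z₀ ≠ 0 ∧ (∀ᶠ z in 𝓝 z₀, Pr (f z) (F z)) ∧
      AnalyticAt ℂ G z₀ ∧ (∀ᶠ z in 𝓝 z₀, G z ∈ blow l X) ∧
      ∀ᶠ z in 𝓝 z₀, phi l (F z) = (z - z₀) ^ k • G z := by
  obtain ⟨F, hF, hF0, hfF⟩ := (hf z₀ hz₀ hz₀r).1
  have hA : ∀ᶠ z in 𝓝 z₀, z ≠ 0 ∧ ‖z‖ < r :=
    (eventually_ne_nhds hz₀).and (continuous_norm.continuousAt.eventually_lt_const hz₀r)
  have hFX : ∀ᶠ z in 𝓝 z₀, F z ∈ X := by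
    filter_upwards [hfF, hA] with z h1 h2
    exact (Pr.mem_iff hX.smul h1).1 (hf z h2.1 h2.2).2
  have hne : ∃ᶠ z in 𝓝[≠] z₀, ∃ b, l b (F z) ≠ 0 := by
    refine Eventually.frequently ?_
    filter_upwards [hi z₀ hz₀ hz₀r, hfF.filter_mono nhdsWithin_le_nhds,
      (hF.continuousAt.eventually_ne hF0).filter_mono nhdsWithin_le_nhds] with z h1 h2 h3
    by_contra h4
    push Not at h4
    exact h1 ((TrP_forms hl h2 h3).2 h4)
  obtain ⟨k, G, hG, hGb, hGe⟩ := H62.BU.lift_curve hF hFX hne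
  exact ⟨F, G, k, hF, hF0, hfF, hG, hGb, hGe⟩

private theorem TrP_prop {F : ℂ → V} {G : ℂ → ι → V} {k : ℕ} {z : ℂ} (hF : AnalyticAt ℂ F z)
    (hF0 : F z ≠ 0) (hG : AnalyticAt ℂ G z) (h : ∀ᶠ w in 𝓝 z, phi l (F w) = (w - z) ^ k • G w) {b : ι}
    (hb : G z b ≠ 0) : Pr (F z) (G z b) := by
  obtain ⟨Λ, hΛ1, hΛ2⟩ := exists_dual_vector ℂ (F z) (norm_ne_zero_iff.mpr hF0)
  have hΛ : Λ (F z) ≠ 0 := by
    rw [hΛ2]
    simpa using hF0
  have hGb : ContinuousAt (fun w => G w b) z := (continuous_apply b).continuousAt.comp hG.continuousAt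
  have h1 : Tendsto (fun w => Λ (F w) • G w b) (𝓝[≠] z) (𝓝 (Λ (F z) • G z b)) := by
    refine Tendsto.mono_left ?_ nhdsWithin_le_nhds
    exact ((Λ.continuous.continuousAt.comp hF.continuousAt).smul hGb).tendsto
  have h2 : Tendsto (fun w => Λ (G w b) • F w) (𝓝[≠] z) (𝓝 (Λ (G z b) • F z)) := by
    refine Tendsto.mono_left ?_ nhdsWithin_le_nhds
    exact ((Λ.continuous.continuousAt.comp hGb).smul hF.continuousAt).tendsto
  have h3 : ∀ᶠ w in 𝓝[≠] z, Λ (F w) • G w b = Λ (G w b) • F w := by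
    filter_upwards [h.filter_mono nhdsWithin_le_nhds, self_mem_nhdsWithin] with w h4 h5
    have h6 : (w - z) ^ k ≠ 0 := pow_ne_zero _ (sub_ne_zero.2 h5)
    have h7 : l b (F w) • F w = (w - z) ^ k • G w b := congrFun h4 b
    have h8 : (w - z) ^ k • (Λ (F w) • G w b) = (w - z) ^ k • (Λ (G w b) • F w) := by
      have h9 : (w - z) ^ k * Λ (G w b) = l b (F w) * Λ (F w) := by
        have h10 := congrArg Λ h7
        rw [map_smul, map_smul, smul_eq_mul, smul_eq_mul] at h10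
        exact h10.symm
      rw [smul_comm, ← h7, smul_smul ((w - z) ^ k), h9, smul_smul, mul_comm]
    exact (smul_right_injective V h6) h8
  have h4 : Λ (F z) • G z b = Λ (G z b) • F z :=
    tendsto_nhds_unique_of_eventuallyEq h1 h2 h3
  have h5 : G z b = ((Λ (F z))⁻¹ * Λ (G z b)) • F z := by
    rw [mul_smul, ← h4, smul_smul, inv_mul_cancel₀ hΛ, one_smul]
  refine Pr.symm ⟨(Λ (F z))⁻¹ * Λ (G z b), ?_, h5⟩
  intro h0
  rw [h0, zero_smul] at h5
  exact hb h5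

/-- The lift of a holomorphic map to the blow-up. -/
theorem exists_lift (hX : Surface X) (hl : Ker l q) (hq0 : q ≠ 0) {r : ℝ} {f : ℂ → V}
    (hf : ∀ z : ℂ, z ≠ 0 → ‖z‖ < r → HolP f z ∧ f z ∈ X)
    (hi : ∀ z₀ : ℂ, z₀ ≠ 0 → ‖z₀‖ < r → ∀ᶠ z in 𝓝[≠] z₀, ¬ Pr (f z) q) :
    ∃ h : ℂ → ι → V, (∀ z : ℂ, z ≠ 0 → ‖z‖ < r → HolP h z ∧ h z ∈ blow l X) ∧
      ∀ z : ℂ, z ≠ 0 → ‖z‖ < r → ∀ b, h z b ≠ 0 → Pr (f z) (h z b) := by
  classical
  have hloc : ∀ z₀ : ℂ, ∃ (F : ℂ → V) (G : ℂ → ι → V) (k : ℕ), z₀ ≠ 0 → ‖z₀‖ < r →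
      AnalyticAt ℂ F z₀ ∧ F z₀ ≠ 0 ∧ (∀ᶠ z in 𝓝 z₀, Pr (f z) (F z)) ∧
      AnalyticAt ℂ G z₀ ∧ (∀ᶠ z in 𝓝 z₀, G z ∈ blow l X) ∧
      ∀ᶠ z in 𝓝 z₀, phi l (F z) = (z - z₀) ^ k • G z := by
    intro z₀
    by_cases h : z₀ ≠ 0 ∧ ‖z₀‖ < r
    · obtain ⟨F, G, k, h1⟩ := TrP_local hX hl hf hi h.1 h.2
      exact ⟨F, G, k, fun _ _ => h1⟩
    · exact ⟨fun _ => 0, fun _ _ => 0, 0, fun h1 h2 => absurd ⟨h1, h2⟩ h⟩
  choose F G k hFG using hloc
  have hf0 : ∀ z : ℂ, z ≠ 0 → ‖z‖ < r → f z ≠ 0 := fun z h1 h2 h3 => hX.zero (h3 ▸ (hf z h1 h2).2)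
  refine ⟨fun z => if ∃ b, l b (f z) ≠ 0 then phi l (f z) else G z z, ?_, ?_⟩
  · intro z₀ hz₀ hz₀r
    obtain ⟨hF, hF0, hfF, hG, hGb, hGe⟩ := hFG z₀ hz₀ hz₀r
    have hA : ∀ᶠ z in 𝓝 z₀, z ≠ 0 ∧ ‖z‖ < r :=
      (eventually_ne_nhds hz₀).and (continuous_norm.continuousAt.eventually_lt_const hz₀r)
    refine ⟨⟨G z₀, hG, hGb.self_of_nhds.2, ?_⟩, ?_⟩
    · have hi' : ∀ᶠ z in 𝓝 z₀, z ≠ z₀ → ¬ Pr (f z) q := by
        have := hi z₀ hz₀ hz₀r
        rwa [eventually_nhdsWithin_iff] at this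
      filter_upwards [hfF, hGe, hi', hA] with z h1 h2 h3 h4
      split_ifs with h5
      · obtain ⟨c, hc, e⟩ := h1
        have h6 : phi l (f z) = (c ^ 2 * (z - z₀) ^ k z₀) • G z₀ z := by
          rw [TrP_phi e, h2, smul_smul]
        refine ⟨_, ?_, h6⟩
        intro h7
        rw [h7, zero_smul] at h6
        exact H62.BU.phi_ne h5 h6
      · push Not at h5
        have h6 : z = z₀ := by
          by_contra h7
          exact h3 h7 ((TrP_forms hl (Pr.refl (f z)) (hf0 z h4.1 h4.2)).2 h5)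
        rw [h6]
        exact Pr.refl _
    · show (if ∃ b, l b (f z₀) ≠ 0 then phi l (f z₀) else G z₀ z₀) ∈ blow l X
      split_ifs with h5
      · exact H62.BU.dense_sub (H62.BU.phi_mem_dense (hf z₀ hz₀ hz₀r).2 h5)
      · exact hGb.self_of_nhds
  · intro z hz hzr b
    obtain ⟨hF, hF0, hfF, hG, hGb, hGe⟩ := hFG z hz hzr
    simp only
    split_ifs with h5
    · intro h6
      have h7 : phi l (f z) b = l b (f z) • f z := rfl
      rw [h7] at h6 ⊢
      have h8 : l b (f z) ≠ 0 := by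
        intro h9
        rw [h9, zero_smul] at h6
        exact h6 rfl
      exact Pr.symm ⟨_, h8, rfl⟩
    · intro h6
      exact (hfF.self_of_nhds).trans (TrP_prop hF hF0 hG hGe h6)

end Pool.Agent.H17BP

end
end

section

/-!
# KR KODL: Kodaira's lemma with logarithmic poles
-/

set_option autoImplicit false

open MvPolynomial
open Pool.Agent.H23.Fano (Form regularForms PrimeDivisorOver)
open Pool.Agent.H17GT (coordFun functionField)
open Pool.Agent.H17LG.Variety (FunField ratio PoleAtMost IsLogGeneralType)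

noncomputable section

namespace Pool.Agent.H68.KR

attribute [-instance] ProperSMul.toContinuousSMul

variable {N : ℕ} (P : Ideal (MvPolynomial (Fin (N + 1)) ℂ)) [P.IsPrime]

private theorem X_coordFun_ne {l : Fin (N + 1)} (h : coordFun P l ≠ 0) : X l ∉ P := by
  intro hX
  apply h
  rw [coordFun, Ideal.Quotient.eq_zero_iff_mem.2 hX, map_zero]

private theorem X_coordFun_ne' {l : Fin (N + 1)} (h : X l ∉ P) : coordFun P l ≠ 0 := by
  intro h0
  apply h
  rw [coordFun] at h0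
  have h10 : Ideal.Quotient.mk P (X l) = 0 :=
    (IsFractionRing.injective (MvPolynomial (Fin (N + 1)) ℂ ⧸ P)
      (FractionRing (MvPolynomial (Fin (N + 1)) ℂ ⧸ P))) (by rw [h0, map_zero])
  exact Ideal.Quotient.eq_zero_iff_mem.1 h10

private theorem X_ord_aeval {K : Type} [Field K] [Algebra ℂ K] {n s : ℕ} (D : PrimeDivisorOver K n)
    (y : Fin s → K) (hy : ∀ i, 0 ≤ D.ord (y i)) (Q : MvPolynomial (Fin s) ℂ) :
    0 ≤ D.ord (aeval y Q) := by
  induction Q using MvPolynomial.induction_on with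
  | C a =>
    rw [aeval_C]
    exact D.ord_const a
  | add p q hp hq =>
    rw [map_add]
    exact D.ord.map_le_add hp hq
  | mul_X p i hp =>
    rw [map_mul, aeval_X, D.ord.map_mul]
    exact add_nonneg hp (hy i)

private theorem X_ord_prod {K : Type} [Field K] [Algebra ℂ K] {n : ℕ} (D : PrimeDivisorOver K n)
    {ι : Type} (S : Finset ι) (y : ι → K) (hy : ∀ i ∈ S, 0 ≤ D.ord (y i)) :
    0 ≤ D.ord (∏ i ∈ S, y i) := by
  classical
  induction S using Finset.induction_on with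
  | empty => rw [Finset.prod_empty, D.ord.map_one]
  | insert a S ha ih =>
    rw [Finset.prod_insert ha, D.ord.map_mul]
    exact add_nonneg (hy a (Finset.mem_insert_self _ _))
      (ih fun i hi => hy i (Finset.mem_insert_of_mem hi))

private theorem X_solve {K : Type} [Field K] {n : ℕ} {A : ℕ → K} {ξ : K} (c : K)
    (h : ∑ j ∈ Finset.range (n + 1), A j * ξ ^ j = 0) :
    c * A 0 = ξ * (-∑ j ∈ Finset.range n, c * A (j + 1) * ξ ^ j) := by
  rw [Finset.sum_range_succ', pow_zero, mul_one] at h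
  have h7 : A 0 = -∑ j ∈ Finset.range n, A (j + 1) * ξ ^ (j + 1) := by
    linear_combination h
  rw [h7, mul_neg, mul_neg, Finset.mul_sum, Finset.mul_sum]
  congr 1
  refine Finset.sum_congr rfl fun j _ => ?_
  ring

/-- Kodaira's lemma. -/
theorem kodaira_log {k : ℕ} (z : Fin (k + 1) → FunField P) (hz : IsTranscendenceBasis ℂ z) {n : ℕ}
    {Bd : PrimeDivisorOver (FunField P) n → Prop} (hgt : IsLogGeneralType Bd) :
    ∃ ω : Form (FunField P) n, ω ≠ 0 ∧ ∃ (M : ℕ) (H : FunField P) (o : Fin (N + 1)), 1 ≤ M ∧ H ≠ 0 ∧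
      X o ∉ P ∧ ∀ l, X l ∉ P → ∀ D : PrimeDivisorOver (FunField P) n,
        (¬ Bd D → PoleAtMost 0 D M (H * ratio P l o) ω) ∧
          (Bd D → PoleAtMost M D M (H * ratio P l o) ω) := by
  classical
  obtain ⟨m, hm, ω, hω, r, f, hf, hpole, halg⟩ := hgt
  obtain ⟨x, hx0, -, -, -, hx5, hx6⟩ := exists_point P z hz
  obtain ⟨o, ho⟩ : ∃ i, x i ≠ 0 := by
    by_contra hcon
    push Not at hcon
    exact hx0 (funext hcon)
  have hoP : X o ∉ P := X_coordFun_ne P fun h => ho ((hx5 o).2 h)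
  have hx7 : ∀ l, X l ∉ P → x l ≠ 0 := fun l hl h => X_coordFun_ne' P hl ((hx5 l).1 h)
  have hξ : ∀ l, X l ∉ P → ratio P o l ≠ 0 := by
    intro l hl
    rw [← hx6]
    exact div_ne_zero ho (hx7 l hl)
  have hex : ∀ l : Fin (N + 1), ∃ (D n : ℕ) (a : ℕ → MvPolynomial (Fin (r + 1)) ℂ),
      (∀ k, (a k).IsHomogeneous D) ∧ aeval f (a 0) ≠ 0 ∧ (X l ∉ P → 1 ≤ D ∧
        ∑ k ∈ Finset.range (n + 1), aeval f (a k) * ratio P o l ^ k = 0) := by
    intro l
    by_cases hl : X l ∈ P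
    · refine ⟨0, 0, fun _ => 1, fun _ => isHomogeneous_one _ _, ?_, fun h => absurd hl h⟩
      rw [map_one]
      exact one_ne_zero
    · obtain ⟨D, n, a, h1, h2, h3, h4⟩ := exists_relation hf (hξ l hl)
        (halg.isAlgebraic (ratio P o l))
      exact ⟨D, n, a, h2, h3, fun _ => ⟨h1, h4⟩⟩
  choose d nn a ha ha0 hrel using hex
  refine ⟨ω, hω, m * ∑ l, d l, ∏ l, aeval f (a l 0), o, ?_, ?_, hoP, ?_⟩
  · have h1 : 1 ≤ d o := (hrel o hoP).1
    have h2 : d o ≤ ∑ l, d l := Finset.single_le_sum (f := d) (fun i _ => Nat.zero_le _)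
      (Finset.mem_univ o)
    exact Nat.mul_pos hm (by omega)
  · exact Finset.prod_ne_zero_iff.2 fun l _ => ha0 l
  · intro l' hl' D
    obtain ⟨t, ht⟩ := D.exists_uniformizer
    -- the common part
    have hmain : ∀ e : ℕ, (∀ i, ∃ (g : FunField P) (η : Form (FunField P) n),
        η ∈ regularForms n D.localRing ∧ ω = g • η ∧ 0 ≤ D.ord (f i * (t ^ e * g) ^ m)) →
        ∃ (g : FunField P) (η : Form (FunField P) n), η ∈ regularForms n D.localRing ∧ ω = g • η ∧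
          0 ≤ D.ord ((∏ l, aeval f (a l 0)) * ratio P l' o * (t ^ e * g) ^ (m * ∑ l, d l)) := by
      intro e h1
      choose g η hη hωg hord using h1
      obtain ⟨i₀, hi₀⟩ := Finite.exists_max fun i => D.ord (g i)
      have h2 : ∀ i, 0 ≤ D.ord ((t ^ e * g i₀) ^ m * f i) := by
        intro i
        refine le_trans (hord i) ?_
        rw [D.ord.map_mul, D.ord.map_mul, D.ord.map_pow, D.ord.map_pow, D.ord.map_mul, D.ord.map_mul,
          add_comm]
        gcongr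
        exact hi₀ i
      have h3 : ∀ l j, 0 ≤ D.ord ((t ^ e * g i₀) ^ (m * d l) * aeval f (a l j)) := by
        intro l j
        have h4 := eval₂_of_isHomogeneous (algebraMap ℂ (FunField P)) (ha l j) ((t ^ e * g i₀) ^ m) f
        rw [pow_mul]
        have h5 := X_ord_aeval D (fun i => (t ^ e * g i₀) ^ m * f i) h2 (a l j)
        rw [aeval_def, h4] at h5
        exact h5
      obtain ⟨l, hlP, hl⟩ := exists_good_coordinate P z hz D
      have h4 : D.ord (ratio P o l) ≤ D.ord ((t ^ e * g i₀) ^ (m * d l) * aeval f (a l 0)) := by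
        have h6 := X_solve ((t ^ e * g i₀) ^ (m * d l)) (hrel l hlP).2
        rw [h6, D.ord.map_mul]
        refine le_add_of_nonneg_right ?_
        rw [D.ord.map_neg]
        refine D.ord.map_le_sum fun j _ => ?_
        rw [D.ord.map_mul, D.ord.map_pow]
        exact add_nonneg (h3 l (j + 1)) (nsmul_nonneg (hl o) j)
      have h5 : D.ord (ratio P o l) ≤
          D.ord ((t ^ e * g i₀) ^ (m * ∑ l, d l) * ∏ l, aeval f (a l 0)) := by
        have h6 : (t ^ e * g i₀) ^ (m * ∑ l, d l) * ∏ l, aeval f (a l 0) =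
            ∏ l, ((t ^ e * g i₀) ^ (m * d l) * aeval f (a l 0)) := by
          rw [Finset.prod_mul_distrib, Finset.prod_pow_eq_pow_sum, Finset.mul_sum]
        rw [h6, ← Finset.mul_prod_erase _ _ (Finset.mem_univ l), D.ord.map_mul]
        exact le_add_of_le_of_nonneg h4 (X_ord_prod D _ _ fun i _ => h3 i 0)
      refine ⟨g i₀, η i₀, hη i₀, hωg i₀, ?_⟩
      have h6 : (∏ l, aeval f (a l 0)) * ratio P l' o * (t ^ e * g i₀) ^ (m * ∑ l, d l) =
          ((t ^ e * g i₀) ^ (m * ∑ l, d l) * ∏ l, aeval f (a l 0)) * ratio P l' o := by ring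
      rw [h6, D.ord.map_mul]
      have h7 : ratio P o l * ratio P l' o = ratio P l' l := by
        rw [← hx6, ← hx6, ← hx6]
        have := hx7 l hlP
        field_simp
      calc (0 : WithTop ℤ) ≤ D.ord (ratio P l' l) := hl l'
        _ = D.ord (ratio P o l) + D.ord (ratio P l' o) := by rw [← h7, D.ord.map_mul]
        _ ≤ _ := by gcongr
    constructor
    · intro hB
      obtain ⟨g, η, h1, h2, h3⟩ := hmain 0 (by
        intro i
        obtain ⟨g, η, h2, h3, h4⟩ := (hpole i D).1 hB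
        refine ⟨g, η, h2, h3, ?_⟩
        rw [pow_zero, one_mul]
        rw [Nat.cast_zero, add_zero] at h4
        exact h4)
      refine ⟨g, η, h1, h2, ?_⟩
      rw [Nat.cast_zero, add_zero]
      rw [pow_zero, one_mul] at h3
      exact h3
    · intro hB
      obtain ⟨g, η, h1, h2, h3⟩ := hmain 1 (by
        intro i
        obtain ⟨g, η, h2, h3, h4⟩ := (hpole i D).2 hB
        refine ⟨g, η, h2, h3, ?_⟩
        have h5 : f i * (t ^ 1 * g) ^ m = f i * g ^ m * t ^ m := by ring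
        rw [h5, D.ord.map_mul, D.ord.map_pow t, ht, nsmul_one]
        exact h4)
      refine ⟨g, η, h1, h2, ?_⟩
      have h5 : (∏ l, aeval f (a l 0)) * ratio P l' o * (t ^ 1 * g) ^ (m * ∑ l, d l) =
          (∏ l, aeval f (a l 0)) * ratio P l' o * g ^ (m * ∑ l, d l) * t ^ (m * ∑ l, d l) := by ring
      rw [h5, D.ord.map_mul, D.ord.map_pow t, ht, nsmul_one] at h3
      exact h3

end Pool.Agent.H68.KR

end
end
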