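import Pool.Agent.H94.CB.M04
import Pool.Agent.H94.CB.M21
import Pool.Agent.H94.CB.M37

/-! The parts of this file: H13.CV.Rat_1, H14.PP.PieceBasic. -/

section

/-!
# CV Rat: the orders of the elements of `L = ℂ(x)`

`mem_L_iff`: `IntermediateField.mem_adjoin_simple_iff`.  `mem_poly_iff`: `Algebra.adjoin_singleton_eq_range_aeval`.
`aeval_ord`: `p = X ^ k * p₁` with `k = p.rootMultiplicity 0` and `p₁.eval 0 ≠ 0` (`Polynomial.exists_eq_pow_rootMultiplicity_mul_and_not_dvd`); if `0 < ord_E x` then the value of `p₁ (x)` at `E` is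
`p₁.eval 0 ≠ 0` (`res_aeval` with `res E x = 0`, or directly: `p₁ (x) = p₁ (0) + x * r (x)`), so its order is `0`.
`exists_zpow`: quotient of two polynomials.
`mem_R`: (⇐) `q (x)` has order `0`.  `exists_residue`: let `c = p (x) / q (x)`, `p, q ≠ 0`, with `p = X ^ a * p₁`, `q = X ^ b * q₁`, `p₁ (0), q₁ (0) ≠ 0`; at a place over `x = 0` (it exists by assumption):
`0 ≤ (a - b) * ord x`, so `b ≤ a` and `c = X ^ (a - b) p₁ / q₁ (x)`: a quotient `p₂ (x) / q₁ (x)` with `q₁ (0) ≠ 0`.  `γ = p₂ (0) / q₁ (0)`; the polynomial `p₂ - γ q₁` has value `0` at `0`, so it is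
`X * r`, and `c = γ + x * r (x) / q₁ (x)`.
`poly_inf`: `c = p (x)`, `p ≠ 0` of degree `d`: at a place `E` with `ord x < 0`: `oz E (p (x)) = d * oz E x` (highest term), so `0 ≤ (k + d) * oz E x` and `k = d = 0`.
`regLoc_div_of_pos`, `regLoc_of_nonneg`: `exists_zpow`.
-/

set_option autoImplicit false

open Pool.Agent.H23.Fano (PrimeDivisorOver Form regularForms)

noncomputable section

namespace Pool.Agent.H13.CV

attribute [-instance] ProperSMul.toContinuousSMul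

variable {K : Type} [Field K] [Algebra ℂ K] {L : IntermediateField ℂ K} {x : K}

theorem mem_L_iff (hL : Gen L x) {c : K} : c ∈ L ↔ ∃ p q : Polynomial ℂ, q ≠ 0 ∧ c = Polynomial.aeval x p / Polynomial.aeval x q := by
  rw [hL.eq, IntermediateField.mem_adjoin_simple_iff]
  constructor
  · rintro ⟨p, q, h⟩
    by_cases hq : q = 0
    · refine ⟨0, 1, one_ne_zero, ?_⟩
      rw [h, hq]
      simp
    · exact ⟨p, q, hq, h⟩
  · rintro ⟨p, q, -, h⟩
    exact ⟨p, q, h⟩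

theorem poly_le_L (hL : Gen L x) {c : K} (hc : c ∈ Algebra.adjoin ℂ {x}) : c ∈ L := by
  rw [hL.eq]
  exact IntermediateField.algebra_adjoin_le_adjoin ℂ {x} hc

private theorem ord_aeval_zero' {p : Polynomial ℂ} (hp : p.eval 0 ≠ 0) {E : Place K} (hE : 0 < E.ord x) : E.ord (Polynomial.aeval x p) = 0 := by
  have h0 : 0 ≤ E.ord (Polynomial.aeval x p) := nonneg_aeval hE.le p
  refine le_antisymm (not_lt.mp fun h => ?_) h0
  have h1 : Polynomial.X * p.divX + Polynomial.C (p.coeff 0) = p := Polynomial.X_mul_divX_add p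
  have h2 : Polynomial.aeval x p = x * Polynomial.aeval x p.divX + algebraMap ℂ K (p.coeff 0) := by
    conv_lhs => rw [← h1]
    rw [map_add, map_mul, Polynomial.aeval_X, Polynomial.aeval_C]
  have h3 : algebraMap ℂ K (p.coeff 0) = Polynomial.aeval x p - x * Polynomial.aeval x p.divX := by
    rw [h2]; ring
  have h4 : 0 < E.ord (algebraMap ℂ K (p.coeff 0)) := by
    rw [h3]
    exact pos_sub h (pos_mul hE (nonneg_aeval hE.le _))
  rw [Polynomial.coeff_zero_eq_eval_zero, ord_const E hp] at h4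
  exact lt_irrefl _ h4

private theorem ne_zero_of_ord_eq_zero {f : K} {E : Place K} (h : E.ord f = 0) : f ≠ 0 := by
  intro hf
  rw [hf, E.ord.map_zero] at h
  exact absurd h (by simp)

private theorem oz_of_ord_eq_zero {f : K} {E : Place K} (h : E.ord f = 0) : oz E f = 0 := by
  have h1 := coe_oz E (ne_zero_of_ord_eq_zero h)
  rw [h] at h1
  exact_mod_cast h1

theorem aeval_ord {p : Polynomial ℂ} (hp : p ≠ 0) {E : Place K} (hE : 0 < E.ord x) (hx : x ≠ 0) :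
    oz E (Polynomial.aeval x p) = p.rootMultiplicity 0 * oz E x := by
  obtain ⟨q, h1, h2⟩ := factor hp
  have h3 : Polynomial.aeval x p = x ^ p.rootMultiplicity 0 * Polynomial.aeval x q := by
    conv_lhs => rw [h1]
    rw [map_mul, map_pow, Polynomial.aeval_X]
  have h4 := ord_aeval_zero' h2 hE
  rw [h3, oz_mul E (pow_ne_zero _ hx) (ne_zero_of_ord_eq_zero h4), oz_pow, oz_of_ord_eq_zero h4, add_zero]

theorem ord_aeval_zero {p : Polynomial ℂ} (hp : p.eval 0 ≠ 0) {E : Place K} (hE : 0 < E.ord x) : E.ord (Polynomial.aeval x p) = 0 :=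
  ord_aeval_zero' hp hE

private theorem aeval_ne_zero (hL : Gen L x) {p : Polynomial ℂ} (hp : p ≠ 0) : Polynomial.aeval x p ≠ 0 :=
  fun h => hp (transcendental_iff.mp hL.tr p h)

private theorem oz_pos {E : Place K} (hx : x ≠ 0) (hE : 0 < E.ord x) : 0 < oz E x := by
  rcases pos_iff.mp hE with h | h
  · exact absurd h hx
  · exact h

/-- the elements of `ℂ(x)` have orders proportional to the order of `x` at the places over `x = 0` -/
theorem exists_zpow (hL : Gen L x) {c : K} (hc : c ∈ L) (hc0 : c ≠ 0) : ∃ k : ℤ, ∀ E : Place K, 0 < E.ord x → oz E c = k * oz E x := by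
  obtain ⟨p, q, hq, h⟩ := (mem_L_iff hL).mp hc
  have hp : p ≠ 0 := by
    rintro rfl
    apply hc0
    rw [h]
    simp
  refine ⟨(p.rootMultiplicity 0 : ℤ) - (q.rootMultiplicity 0 : ℤ), fun E hE => ?_⟩
  rw [h, oz_div E (aeval_ne_zero hL hp) (aeval_ne_zero hL hq), aeval_ord hp hE hL.ne_zero, aeval_ord hq hE hL.ne_zero]
  ring

theorem regLoc_div {p q : Polynomial ℂ} (hq : q.eval 0 ≠ 0) : RegLoc x (Polynomial.aeval x p / Polynomial.aeval x q) := by
  intro E hE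
  have h1 := ord_aeval_zero hq hE
  rw [div_eq_mul_inv]
  refine nonneg_mul (nonneg_aeval hE.le p) ?_
  rw [ord_inv E (ne_zero_of_ord_eq_zero h1), oz_of_ord_eq_zero h1]
  simp

/-- the residue of an element of the local ring of `ℂ(x)` at `x = 0` -/
theorem exists_residue (hL : Gen L x) (hex : ∃ E : Place K, 0 < E.ord x) {c : K} (hc : c ∈ L) (h : RegLoc x c) :
    ∃ (γ : ℂ) (c' : K), c' ∈ L ∧ RegLoc x c' ∧ c = algebraMap ℂ K γ + x * c' := by
  by_cases hc0 : c = 0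
  · refine ⟨0, 0, L.zero_mem, fun E _ => ?_, ?_⟩
    · rw [E.ord.map_zero]
      exact le_top
    · rw [hc0]
      simp
  obtain ⟨E, hE⟩ := hex
  obtain ⟨p, q, hq, hpq⟩ := (mem_L_iff hL).mp hc
  have hp : p ≠ 0 := by
    rintro rfl
    apply hc0
    rw [hpq]
    simp
  have hx := hL.ne_zero
  have hxo := oz_pos hx hE
  have hb : q.rootMultiplicity 0 ≤ p.rootMultiplicity 0 := by
    have h1 : 0 ≤ oz E c := by
      rcases nonneg_iff.mp (h E hE) with h2 | h2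
      · exact absurd h2 hc0
      · exact h2
    rw [hpq, oz_div E (aeval_ne_zero hL hp) (aeval_ne_zero hL hq), aeval_ord hp hE hx, aeval_ord hq hE hx, ← sub_mul] at h1
    have h3 : (0 : ℤ) ≤ (p.rootMultiplicity 0 : ℤ) - (q.rootMultiplicity 0 : ℤ) := by
      by_contra h4
      push Not at h4
      have h5 := mul_neg_of_neg_of_pos h4 hxo
      omega
    omega
  obtain ⟨p₁, hp1, hp0⟩ := factor hp
  obtain ⟨q₁, hq1, hq0⟩ := factor hq
  obtain ⟨m, hm⟩ := Nat.exists_eq_add_of_le hb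
  set p₂ : Polynomial ℂ := Polynomial.X ^ m * p₁ with hp2
  have hq1ne : q₁ ≠ 0 := by
    rintro rfl
    simp at hq0
  have hc2 : c = Polynomial.aeval x p₂ / Polynomial.aeval x q₁ := by
    have e1 : Polynomial.aeval x p = x ^ q.rootMultiplicity 0 * Polynomial.aeval x p₂ := by
      conv_lhs => rw [hp1]
      rw [hm, hp2, map_mul, map_pow, map_mul, map_pow, Polynomial.aeval_X, pow_add, mul_assoc]
    have e2 : Polynomial.aeval x q = x ^ q.rootMultiplicity 0 * Polynomial.aeval x q₁ := by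
      conv_lhs => rw [hq1]
      rw [map_mul, map_pow, Polynomial.aeval_X]
    rw [hpq, e1, e2, mul_div_mul_left _ _ (pow_ne_zero _ hx)]
  set γ : ℂ := p₂.eval 0 / q₁.eval 0 with hγ
  set s : Polynomial ℂ := p₂ - Polynomial.C γ * q₁ with hs
  have hs0 : s.coeff 0 = 0 := by
    rw [Polynomial.coeff_zero_eq_eval_zero, hs, Polynomial.eval_sub, Polynomial.eval_C_mul, hγ, div_mul_cancel₀ _ hq0, sub_self]
  have hs1 : s = Polynomial.X * s.divX := by
    have h1 := Polynomial.X_mul_divX_add s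
    rw [hs0, Polynomial.C_0, add_zero] at h1
    exact h1.symm
  refine ⟨γ, Polynomial.aeval x s.divX / Polynomial.aeval x q₁, (mem_L_iff hL).mpr ⟨s.divX, q₁, hq1ne, rfl⟩, regLoc_div hq0, ?_⟩
  have hs2 : Polynomial.aeval x s = x * Polynomial.aeval x s.divX := by
    conv_lhs => rw [hs1]
    rw [map_mul, Polynomial.aeval_X]
  have hs3 : Polynomial.aeval x s = Polynomial.aeval x p₂ - algebraMap ℂ K γ * Polynomial.aeval x q₁ := by
    rw [hs, map_sub, map_mul (Polynomial.aeval x) (Polynomial.C γ) q₁, Polynomial.aeval_C]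
  have hq2 := aeval_ne_zero hL hq1ne
  rw [hc2, mul_div_assoc', ← hs2, hs3, sub_div, mul_div_assoc, div_self hq2, mul_one]
  ring

/-- an element of the local ring which vanishes at one place over `x = 0` is divisible by `x` -/
theorem regLoc_div_of_pos (hL : Gen L x) {c : K} (hc : c ∈ L) {E : Place K} (hE : 0 < E.ord x) (h : 0 < E.ord c) : RegLoc x (c / x) := by
  intro E' hE'
  by_cases hc0 : c = 0
  · rw [hc0, zero_div, E'.ord.map_zero]
    exact le_top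
  obtain ⟨k, hk⟩ := exists_zpow hL hc hc0
  have hx := hL.ne_zero
  have h1 := oz_pos hx hE
  have h2 := oz_pos hx hE'
  have h3 := oz_pos hc0 h
  rw [hk E hE] at h3
  have hk0 : 0 < k := by
    by_contra h4
    push Not at h4
    have h5 := mul_nonpos_of_nonpos_of_nonneg h4 h1.le
    omega
  refine nonneg_iff.mpr (Or.inr ?_)
  rw [oz_div E' hc0 hx, hk E' hE']
  have h6 : k * oz E' x - oz E' x = (k - 1) * oz E' x := by ring
  rw [h6]
  exact mul_nonneg (by omega) h2.le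

private theorem oz_aeval_of_neg {p : Polynomial ℂ} (hp : p ≠ 0) (hx : x ≠ 0) {E : Place K} (hE : E.ord x < 0) :
    Polynomial.aeval x p ≠ 0 ∧ oz E (Polynomial.aeval x p) = p.natDegree * oz E x := by
  let _ : Invertible x := invertibleOfNonzero hx
  have h1 : Polynomial.aeval x⁻¹ p.reverse * x ^ p.natDegree = Polynomial.aeval x p := by
    have h2 := Polynomial.eval₂_reverse_mul_pow (algebraMap ℂ K) x p
    rw [invOf_eq_inv] at h2
    exact h2
  have h3 : 0 < E.ord x⁻¹ := (inv_pos_iff hx).mpr hE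
  have h4 : p.reverse.eval 0 ≠ 0 := by
    rw [← Polynomial.coeff_zero_eq_eval_zero, Polynomial.coeff_zero_reverse]
    exact Polynomial.leadingCoeff_ne_zero.mpr hp
  have h5 := ord_aeval_zero h4 h3
  have h6 := ne_zero_of_ord_eq_zero h5
  rw [← h1]
  refine ⟨mul_ne_zero h6 (pow_ne_zero _ hx), ?_⟩
  rw [oz_mul E h6 (pow_ne_zero _ hx), oz_of_ord_eq_zero h5, oz_pow, zero_add]

/-- a polynomial in `x` which is `x ^ (-k)` times a function regular at `x = ∞` -/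
theorem poly_inf (hL : Gen L x) (hex : ∃ E : Place K, E.ord x < 0) {c : K} (hc : c ∈ Algebra.adjoin ℂ {x}) {k : ℕ} (h : RegLoc x⁻¹ (x ^ k * c)) :
    (1 ≤ k → c = 0) ∧ ∃ γ : ℂ, c = algebraMap ℂ K γ := by
  obtain ⟨E, hE⟩ := hex
  obtain ⟨p, rfl⟩ := mem_poly_iff.mp hc
  have hx := hL.ne_zero
  by_cases hp : p = 0
  · rw [hp, map_zero]
    exact ⟨fun _ => rfl, 0, by simp⟩
  obtain ⟨h1, h2⟩ := oz_aeval_of_neg hp hx hE
  have h3 := h E ((inv_pos_iff hx).mpr hE)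
  have h4 : oz E x < 0 := neg_iff.mp hE
  have h5 : 0 ≤ oz E (x ^ k * Polynomial.aeval x p) := by
    rcases nonneg_iff.mp h3 with h6 | h6
    · exact absurd h6 (mul_ne_zero (pow_ne_zero _ hx) h1)
    · exact h6
  rw [oz_mul E (pow_ne_zero _ hx) h1, oz_pow, h2, ← add_mul] at h5
  have h7 : (k : ℤ) + (p.natDegree : ℤ) ≤ 0 := by
    by_contra h8
    push Not at h8
    have h9 := mul_neg_of_pos_of_neg h8 h4
    omega
  refine ⟨fun hk => ?_, p.coeff 0, ?_⟩
  · exfalso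
    omega
  · have h8 : p.natDegree = 0 := by omega
    conv_lhs => rw [Polynomial.eq_C_of_natDegree_eq_zero h8]
    rw [Polynomial.aeval_C]

end Pool.Agent.H13.CV

end
end

section

/-!
# BPm PieceBasic: the pieces, basic properties

`pN`, `pT`, `pM` (`Defs.lean`): nonnegativity (`M ≥ 0`), homogeneity in the vector, continuity
(`0 ≤ κ ≤ 1/4`: all real powers have nonnegative exponents; `(1 + M‖s‖^(2κ))^e` has a base `≥ 1`),
invariance of `pM true` under exchange of the coordinates.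
-/

open Topology Filter Metric

namespace Pool.Agent.H14.PP

attribute [-instance] ProperSMul.toContinuousSMul

private theorem PieceBasic_base {P : Par} (hM : 0 ≤ P.M) (s : ℂ) : 1 ≤ 1 + P.M * ‖s‖ ^ (2 * P.κ) := by
  have : 0 ≤ P.M * ‖s‖ ^ (2 * P.κ) := mul_nonneg hM (Real.rpow_nonneg (norm_nonneg _) _)
  linarith

theorem pN_nonneg {P : Par} (hM : 0 ≤ P.M) (nd : Bool) (s t s' : ℂ) : 0 ≤ pN nd P s t s' := by
  unfold pN
  have h1 := PieceBasic_base hM s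
  have h2 : 0 ≤ (1 + P.M * ‖s‖ ^ (2 * P.κ)) ^ P.e := Real.rpow_nonneg (by linarith) _
  have h3 : 0 ≤ (if nd = true then ‖t‖ ^ (1 - P.κ) * Real.exp (-P.ε * ‖s‖ ^ 2) else 1) := by
    split_ifs
    · exact mul_nonneg (Real.rpow_nonneg (norm_nonneg _) _) (Real.exp_pos _).le
    · exact zero_le_one
  exact mul_nonneg (mul_nonneg (mul_nonneg h3 (norm_nonneg _)) h2) (Real.exp_pos _).le

theorem pT_nonneg {P : Par} (hM : 0 ≤ P.M) (nd : Bool) (s t t' : ℂ) : 0 ≤ pT nd P s t t' := by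
  unfold pT
  split_ifs
  · exact pN_nonneg hM true t s t'
  · exact mul_nonneg (mul_nonneg (Real.rpow_nonneg (norm_nonneg _) _) (norm_nonneg _)) (Real.exp_pos _).le

theorem pM_nonneg {P : Par} (hM : 0 ≤ P.M) (nd : Bool) (p w : ℂ × ℂ) : 0 ≤ pM nd P p w := by
  exact le_max_of_le_left (pN_nonneg hM nd _ _ _)

private theorem PieceBasic_pN_smul {P : Par} (nd : Bool) (s t s' c : ℂ) :
    pN nd P s t (c * s') = ‖c‖ * pN nd P s t s' := by
  unfold pN
  rw [norm_mul]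
  ring

private theorem PieceBasic_pT_smul {P : Par} (nd : Bool) (s t t' c : ℂ) :
    pT nd P s t (c * t') = ‖c‖ * pT nd P s t t' := by
  unfold pT
  split_ifs
  · exact PieceBasic_pN_smul true t s t' c
  · rw [norm_mul]
    ring

theorem pM_smul {P : Par} (nd : Bool) (p w : ℂ × ℂ) (c : ℂ) :
    pM nd P p (c • w) = ‖c‖ * pM nd P p w := by
  unfold pM
  rw [mul_max_of_nonneg _ _ (norm_nonneg c), ← PieceBasic_pN_smul, ← PieceBasic_pT_smul]
  rfl

theorem pM_swap {P : Par} (p w : ℂ × ℂ) : pM true P p.swap w.swap = pM true P p w := by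
  unfold pM pT
  rw [if_pos rfl, if_pos rfl]
  exact max_comm _ _

theorem continuous_pM {P : Par} (hM : 0 ≤ P.M) (hκ : 0 ≤ P.κ) (hκ1 : P.κ ≤ 1 / 4) (nd : Bool) :
    Continuous (fun y : (ℂ × ℂ) × (ℂ × ℂ) => pM nd P y.1 y.2) := by
  have hN : ∀ nd : Bool, Continuous (fun x : ℂ × ℂ × ℂ => pN nd P x.1 x.2.1 x.2.2) := by
    intro nd
    unfold pN
    have hs : Continuous (fun x : ℂ × ℂ × ℂ => ‖x.1‖) := continuous_fst.norm
    have ht : Continuous (fun x : ℂ × ℂ × ℂ => ‖x.2.1‖) := (continuous_fst.comp continuous_snd).norm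
    have hs' : Continuous (fun x : ℂ × ℂ × ℂ => ‖x.2.2‖) := (continuous_snd.comp continuous_snd).norm
    have h1 : Continuous (fun x : ℂ × ℂ × ℂ => ‖x.2.1‖ ^ (1 - P.κ)) :=
      ht.rpow_const fun _ => Or.inr (by linarith)
    have h2 : Continuous (fun x : ℂ × ℂ × ℂ => ‖x.1‖ ^ (2 * P.κ)) :=
      hs.rpow_const fun _ => Or.inr (by linarith)
    have h3a : Continuous (fun x : ℂ × ℂ × ℂ => 1 + P.M * ‖x.1‖ ^ (2 * P.κ)) :=
      continuous_const.add (continuous_const.mul h2)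
    have h3 : Continuous (fun x : ℂ × ℂ × ℂ => (1 + P.M * ‖x.1‖ ^ (2 * P.κ)) ^ P.e) :=
      h3a.rpow_const fun x =>
        Or.inl (ne_of_gt (lt_of_lt_of_le one_pos (PieceBasic_base (P := P) hM x.1)))
    have h4 : Continuous (fun x : ℂ × ℂ × ℂ => Real.exp (-P.K * ‖x.2.1‖ ^ 2)) :=
      Real.continuous_exp.comp (continuous_const.mul (ht.pow 2))
    have h5 : Continuous (fun x : ℂ × ℂ × ℂ => Real.exp (-P.ε * ‖x.1‖ ^ 2)) :=
      Real.continuous_exp.comp (continuous_const.mul (hs.pow 2))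
    cases nd
    · simp only [Bool.false_eq_true, if_false]
      exact ((continuous_const.mul hs').mul h3).mul h4
    · simp only [if_true]
      exact (((h1.mul h5).mul hs').mul h3).mul h4
  have hT : Continuous (fun x : ℂ × ℂ × ℂ => pT nd P x.1 x.2.1 x.2.2) := by
    unfold pT
    cases nd
    · simp only [Bool.false_eq_true, if_false]
      have hs : Continuous (fun x : ℂ × ℂ × ℂ => ‖x.1‖) := continuous_fst.norm
      have ht : Continuous (fun x : ℂ × ℂ × ℂ => ‖x.2.1‖) := (continuous_fst.comp continuous_snd).norm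
      have hs' : Continuous (fun x : ℂ × ℂ × ℂ => ‖x.2.2‖) := (continuous_snd.comp continuous_snd).norm
      have h1 : Continuous (fun x : ℂ × ℂ × ℂ => ‖x.1‖ ^ (1 - P.κ)) :=
        hs.rpow_const fun _ => Or.inr (by linarith)
      have h5 : Continuous (fun x : ℂ × ℂ × ℂ => Real.exp (-P.ε * ‖x.2.1‖ ^ 2)) :=
        Real.continuous_exp.comp (continuous_const.mul (ht.pow 2))
      exact (h1.mul hs').mul h5
    · simp only [if_true]
      have h6 : Continuous (fun x : ℂ × ℂ × ℂ => ((x.2.1, x.1, x.2.2) : ℂ × ℂ × ℂ)) := by fun_prop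
      have h7 := (hN true).comp h6
      exact h7
  unfold pM
  have h7 : Continuous (fun y : (ℂ × ℂ) × (ℂ × ℂ) => ((y.1.1, y.1.2, y.2.1) : ℂ × ℂ × ℂ)) := by fun_prop
  have h8 : Continuous (fun y : (ℂ × ℂ) × (ℂ × ℂ) => ((y.1.1, y.1.2, y.2.2) : ℂ × ℂ × ℂ)) := by fun_prop
  have h9 := (hN nd).comp h7
  have h10 := hT.comp h8
  have h11 := h9.max h10
  exact h11

private theorem PieceBasic_exp_le {a x : ℝ} (ha : 0 ≤ a) : Real.exp (-a * x ^ 2) ≤ 1 := by
  rw [Real.exp_le_one_iff]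
  nlinarith [sq_nonneg x]

private theorem PieceBasic_le_exp {a x : ℝ} (ha : 0 ≤ a) (hx0 : 0 ≤ x) (hx : x ≤ 1) :
    Real.exp (-a) ≤ Real.exp (-a * x ^ 2) := by
  rw [Real.exp_le_exp]
  have : x ^ 2 ≤ 1 := pow_le_one₀ hx0 hx
  nlinarith

private theorem PieceBasic_rpow_ge {x κ : ℝ} (hx0 : 0 ≤ x) (hx : x ≤ 1) (hκ : 0 ≤ κ) (hκ1 : κ ≤ 1 / 4) :
    x ≤ x ^ (1 - κ) := by
  rcases hx0.eq_or_lt with h | h
  · rw [← h, Real.zero_rpow (by linarith)]
  · have := Real.rpow_le_rpow_of_exponent_ge h hx (show 1 - κ ≤ 1 by linarith)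
    rwa [Real.rpow_one] at this

private theorem PieceBasic_rpow_le {x κ : ℝ} (hx0 : 0 ≤ x) (hx : x ≤ 1) (hκ1 : κ ≤ 1 / 4) :
    x ^ (1 - κ) ≤ 1 := Real.rpow_le_one hx0 hx (by linarith)

private theorem PieceBasic_pow_le {P : Par} (hP : ConvPar P) {s : ℂ} (hs : ‖s‖ ≤ 1) :
    (1 + P.M * ‖s‖ ^ (2 * P.κ)) ^ P.e ≤ 2 := by
  have hM : 0 ≤ P.M := by linarith [hP.M_ge]
  have h1 := PieceBasic_base (P := P) hM s
  have h2 : ‖s‖ ^ (2 * P.κ) ≤ 1 := Real.rpow_le_one (norm_nonneg _) hs (by linarith [hP.κ_pos])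
  have h3 : 1 + P.M * ‖s‖ ^ (2 * P.κ) ≤ 1 + P.M := by nlinarith
  have h4 : (1 + P.M * ‖s‖ ^ (2 * P.κ)) ^ P.e ≤ (1 + P.M) ^ P.e :=
    Real.rpow_le_rpow (by linarith) h3 hP.e_pos.le
  refine h4.trans ?_
  rw [Real.rpow_def_of_pos (by linarith)]
  have h5 : Real.log (1 + P.M) * P.e ≤ 1 / 16 := by
    have := hP.e_log
    have := hP.ε_le
    nlinarith
  have h6 : Real.exp (Real.log (1 + P.M) * P.e) ≤ Real.exp (1 / 16) := Real.exp_le_exp.2 h5
  have h7 : Real.exp (1 / 16) ≤ 2 := by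
    have h8 := Real.exp_bound_div_one_sub_of_interval (x := 1 / 16) (by norm_num) (by norm_num)
    refine h8.trans (by norm_num)
  exact h6.trans h7

private theorem PieceBasic_one_le {P : Par} (hP : ConvPar P) (s : ℂ) :
    1 ≤ (1 + P.M * ‖s‖ ^ (2 * P.κ)) ^ P.e :=
  Real.one_le_rpow (PieceBasic_base (by linarith [hP.M_ge]) s) hP.e_pos.le

private theorem PieceBasic_pN_le {P : Par} (hP : ConvPar P) (nd : Bool) {s t : ℂ} (hs : ‖s‖ ≤ 1) (ht : ‖t‖ ≤ 1)
    (s' : ℂ) : pN nd P s t s' ≤ 2 * ‖s'‖ := by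
  unfold pN
  have h1 := PieceBasic_pow_le hP hs
  have h1' := PieceBasic_one_le hP s
  have h2 : Real.exp (-P.K * ‖t‖ ^ 2) ≤ 1 := PieceBasic_exp_le hP.K_pos.le
  have h3 : (if nd = true then ‖t‖ ^ (1 - P.κ) * Real.exp (-P.ε * ‖s‖ ^ 2) else 1) ≤ 1 := by
    split_ifs
    · exact mul_le_one₀ (PieceBasic_rpow_le (norm_nonneg _) ht hP.κ_le) (Real.exp_pos _).le
        (PieceBasic_exp_le hP.ε_pos.le)
    · exact le_refl _
  have h4 : 0 ≤ (if nd = true then ‖t‖ ^ (1 - P.κ) * Real.exp (-P.ε * ‖s‖ ^ 2) else 1) := by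
    split_ifs
    · exact mul_nonneg (Real.rpow_nonneg (norm_nonneg _) _) (Real.exp_pos _).le
    · exact zero_le_one
  have h5 := norm_nonneg s'
  calc _ ≤ 1 * ‖s'‖ * 2 * 1 := by
        refine mul_le_mul (mul_le_mul (mul_le_mul h3 le_rfl h5 zero_le_one) h1 (by linarith) (by positivity)) h2
          (Real.exp_pos _).le (by positivity)
    _ = 2 * ‖s'‖ := by ring

private theorem PieceBasic_le_pN_true {P : Par} (hP : ConvPar P) {s t : ℂ} (hs : ‖s‖ ≤ 1) (ht : ‖t‖ ≤ 1)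
    (s' : ℂ) : ‖t‖ * ‖s'‖ * Real.exp (-P.K - 1) ≤ pN true P s t s' := by
  unfold pN
  rw [if_pos rfl]
  have h1 := PieceBasic_one_le hP s
  have h2 : Real.exp (-P.K) ≤ Real.exp (-P.K * ‖t‖ ^ 2) := PieceBasic_le_exp hP.K_pos.le (norm_nonneg _) ht
  have h3 : Real.exp (-1) ≤ Real.exp (-P.ε * ‖s‖ ^ 2) := by
    refine le_trans (Real.exp_le_exp.2 ?_) (PieceBasic_le_exp hP.ε_pos.le (norm_nonneg _) hs)
    linarith [hP.ε_le]
  have h4 : ‖t‖ ≤ ‖t‖ ^ (1 - P.κ) := PieceBasic_rpow_ge (norm_nonneg _) ht hP.κ_pos.le hP.κ_le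
  have h5 : Real.exp (-P.K - 1) = Real.exp (-1) * Real.exp (-P.K) := by
    rw [← Real.exp_add]
    congr 1
    ring
  rw [h5]
  have hr : 0 ≤ ‖t‖ ^ (1 - P.κ) := Real.rpow_nonneg (norm_nonneg _) _
  calc ‖t‖ * ‖s'‖ * (Real.exp (-1) * Real.exp (-P.K)) = ‖t‖ * Real.exp (-1) * ‖s'‖ * 1 * Real.exp (-P.K) := by ring
    _ ≤ ‖t‖ ^ (1 - P.κ) * Real.exp (-P.ε * ‖s‖ ^ 2) * ‖s'‖ * (1 + P.M * ‖s‖ ^ (2 * P.κ)) ^ P.e *
        Real.exp (-P.K * ‖t‖ ^ 2) := by
      gcongr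

private theorem PieceBasic_le_pN_false {P : Par} (hP : ConvPar P) {s t : ℂ} (ht : ‖t‖ ≤ 1)
    (s' : ℂ) : ‖s'‖ * Real.exp (-P.K - 1) ≤ pN false P s t s' := by
  unfold pN
  rw [if_neg (by decide)]
  have h1 := PieceBasic_one_le hP s
  have h2 : Real.exp (-P.K) ≤ Real.exp (-P.K * ‖t‖ ^ 2) := PieceBasic_le_exp hP.K_pos.le (norm_nonneg _) ht
  have h5 : Real.exp (-P.K - 1) ≤ Real.exp (-P.K) := Real.exp_le_exp.2 (by linarith)
  calc ‖s'‖ * Real.exp (-P.K - 1) ≤ ‖s'‖ * Real.exp (-P.K * ‖t‖ ^ 2) :=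
        mul_le_mul_of_nonneg_left (h5.trans h2) (norm_nonneg _)
    _ = 1 * ‖s'‖ * 1 * Real.exp (-P.K * ‖t‖ ^ 2) := by ring
    _ ≤ 1 * ‖s'‖ * (1 + P.M * ‖s‖ ^ (2 * P.κ)) ^ P.e * Real.exp (-P.K * ‖t‖ ^ 2) := by gcongr

private theorem PieceBasic_fst {p : ℂ × ℂ} (hp : ‖p‖ ≤ 1) : ‖p.1‖ ≤ 1 := (norm_fst_le p).trans hp

private theorem PieceBasic_snd {p : ℂ × ℂ} (hp : ‖p‖ ≤ 1) : ‖p.2‖ ≤ 1 := (norm_snd_le p).trans hp

/-- the upper bound -/
theorem pM_le {P : Par} (hP : ConvPar P) (nd : Bool) {p : ℂ × ℂ} (hp : ‖p‖ ≤ 1) (w : ℂ × ℂ) :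
    pM nd P p w ≤ 2 * ‖w‖ := by
  have h1 := PieceBasic_fst hp
  have h2 := PieceBasic_snd hp
  have hw1 : ‖w.1‖ ≤ ‖w‖ := norm_fst_le w
  have hw2 : ‖w.2‖ ≤ ‖w‖ := norm_snd_le w
  refine max_le ?_ ?_
  · exact (PieceBasic_pN_le hP nd h1 h2 w.1).trans (by linarith)
  · unfold pT
    split_ifs
    · exact (PieceBasic_pN_le hP true h2 h1 w.2).trans (by linarith)
    · have h3 : ‖p.1‖ ^ (1 - P.κ) ≤ 1 := PieceBasic_rpow_le (norm_nonneg _) h1 hP.κ_le
      have h4 : Real.exp (-P.ε * ‖p.2‖ ^ 2) ≤ 1 := PieceBasic_exp_le hP.ε_pos.le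
      calc ‖p.1‖ ^ (1 - P.κ) * ‖w.2‖ * Real.exp (-P.ε * ‖p.2‖ ^ 2) ≤ 1 * ‖w.2‖ * 1 := by gcongr
        _ ≤ 2 * ‖w‖ := by linarith [norm_nonneg w.2]

/-- the lower bounds -/
theorem le_pM_false {P : Par} (hP : ConvPar P) {p : ℂ × ℂ} (hp : ‖p‖ ≤ 1) (w : ℂ × ℂ) :
    ‖p.1‖ * ‖w‖ * Real.exp (-P.K - 1) ≤ pM false P p w := by
  have h1 := PieceBasic_fst hp
  have h2 := PieceBasic_snd hp
  have hw : ‖w‖ = max ‖w.1‖ ‖w.2‖ := Prod.norm_def _
  have hE : 0 ≤ Real.exp (-P.K - 1) := (Real.exp_pos _).le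
  rcases max_choice ‖w.1‖ ‖w.2‖ with h | h
  · rw [hw, h]
    refine le_max_of_le_left ((le_trans ?_ (PieceBasic_le_pN_false hP h2 w.1)))
    have h3 : ‖p.1‖ * ‖w.1‖ ≤ 1 * ‖w.1‖ := mul_le_mul_of_nonneg_right h1 (norm_nonneg _)
    rw [one_mul] at h3
    exact mul_le_mul_of_nonneg_right h3 hE
  · rw [hw, h]
    refine le_max_of_le_right ?_
    unfold pT
    rw [if_neg (by decide)]
    have h4 : ‖p.1‖ ≤ ‖p.1‖ ^ (1 - P.κ) := PieceBasic_rpow_ge (norm_nonneg _) h1 hP.κ_pos.le hP.κ_le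
    have h5 : Real.exp (-P.K - 1) ≤ Real.exp (-P.ε * ‖p.2‖ ^ 2) := by
      refine le_trans (Real.exp_le_exp.2 ?_) (PieceBasic_le_exp hP.ε_pos.le (norm_nonneg _) h2)
      linarith [hP.ε_le, hP.K_pos]
    have hr : 0 ≤ ‖p.1‖ ^ (1 - P.κ) := Real.rpow_nonneg (norm_nonneg _) _
    gcongr

theorem le_pM_true {P : Par} (hP : ConvPar P) {p : ℂ × ℂ} (hp : ‖p‖ ≤ 1) (w : ℂ × ℂ) :
    ‖p.1‖ * ‖p.2‖ * ‖w‖ * Real.exp (-P.K - 1) ≤ pM true P p w := by
  have h1 := PieceBasic_fst hp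
  have h2 := PieceBasic_snd hp
  have hw : ‖w‖ = max ‖w.1‖ ‖w.2‖ := Prod.norm_def _
  have hE : 0 ≤ Real.exp (-P.K - 1) := (Real.exp_pos _).le
  rcases max_choice ‖w.1‖ ‖w.2‖ with h | h
  · rw [hw, h]
    refine le_max_of_le_left ((le_trans ?_ (PieceBasic_le_pN_true hP h1 h2 w.1)))
    have h3 : ‖p.1‖ * ‖p.2‖ * ‖w.1‖ ≤ ‖p.2‖ * ‖w.1‖ := by
      have := mul_le_mul_of_nonneg_right h1 (mul_nonneg (norm_nonneg p.2) (norm_nonneg w.1))
      linarith
    exact mul_le_mul_of_nonneg_right h3 hE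
  · rw [hw, h]
    refine le_max_of_le_right ?_
    unfold pT
    rw [if_pos rfl]
    refine le_trans ?_ (PieceBasic_le_pN_true hP h2 h1 w.2)
    have h3 : ‖p.1‖ * ‖p.2‖ * ‖w.2‖ ≤ ‖p.1‖ * ‖w.2‖ := by
      have := mul_le_mul_of_nonneg_right h2 (mul_nonneg (norm_nonneg p.1) (norm_nonneg w.2))
      linarith
    exact mul_le_mul_of_nonneg_right h3 hE

end Pool.Agent.H14.PP

end
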