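import Pool.Agent.H94.CB.M08
import Pool.Agent.H94.CB.M32
import Pool.Agent.H94.CB.M44
import Pool.Agent.H94.CB.M45

/-! The parts of this file: H13.CV.BirkC, H13.CV.Dx, H68.KR.GLK, H68.KR.MainG. -/

section

/-!
# CV BirkC: Birkhoff bases

`exists_birk`: `w, a` as in `exists_min`; claim: `Birk x w a`.  Let `y = x⁻¹` (`Gen L y`, there is a place over `y = 0`).  (⇐ of `inf`) `f = ∑ (x ^ a i * r i) * (y ^ a i * w i)`, `r i = w.repr f i`.
(⇒ of `inf`) Let `RegLoc y f`, `s i = x ^ a i * r i ∈ L`, `f = ∑ s i * (y ^ a i * w i)`.  By `exists_zpow` (for `y`): for the `s i ≠ 0`: `oz E (s i) = k i * oz E y` for all `E` over `y = 0`.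
Suppose that not all `s i` are `RegLoc y`; so some `k i < 0`; let `k₀ < 0` be the least of the `k i` (`s i ≠ 0`).  `s' i = y ^ (-k₀) * s i` is `RegLoc y` for all `i`, in `L`, and for an `i₁` with
`k i₁ = k₀` it has order `0` at the places over `y = 0`.  `∑ s' i * (y ^ a i * w i) = y ^ (-k₀) * f = y * (y ^ (-k₀ - 1) * f)`.  By `exists_residue`: `s' i = γ i + y * s'' i`, with `RegLoc y (s'' i)`; so
`∑ γ i • (y ^ a i * w i) = y * g` with `g = y ^ (-k₀ - 1) * f - ∑ s'' i * (y ^ a i * w i)`, `RegLoc y g`.  So all `γ i = 0` by `exists_min`; but `s' i₁ = y * s'' i₁` has positive order at a place over `y = 0`: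
contradiction.

`Birk.exists_zero`: `1 = ∑ r i * w i` is `RegAff x` and `RegLoc x⁻¹`, so `r i ∈ ℂ[x]` and `RegLoc x⁻¹ (x ^ a i * r i)`; by `poly_inf`, `r i = 0` if `1 ≤ a i`; as `1 ≠ 0` there is `i₀` with `a i₀ = 0`.
If `a i = 0` then `w i` is `RegAff x` and (its coordinates are `0` and `1`) `RegLoc x⁻¹`; so it has no poles and is a constant.  Two different elements of the basis are not both constants (linearly
independent over `L ∋` constants).
`Birk.pole`: `(x⁻¹) ^ a i * w i` is `RegLoc x⁻¹`: its `i`-th coordinate times `x ^ a i` is `1`.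
-/

set_option autoImplicit false

open Pool.Agent.H23.Fano (PrimeDivisorOver Form regularForms)

noncomputable section

namespace Pool.Agent.H13.CV

attribute [-instance] ProperSMul.toContinuousSMul

variable {K : Type} [Field K] [Algebra ℂ K] {L : IntermediateField ℂ K} {x : K} {n : ℕ}

theorem BC_sum (w : Module.Basis (Fin n) L K) (f : K) : f = ∑ i, ((w.repr f i : L) : K) * w i := by
  conv_lhs => rw [← w.sum_repr f]
  rfl

private theorem BC_zero (y : K) : RegLoc y (0 : K) := fun E _ => by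
  rw [E.ord.map_zero]
  exact le_top

theorem BC_one (y : K) : RegLoc y (1 : K) := fun E _ => by
  rw [E.ord.map_one]

theorem BC_mul {y f g : K} (hf : RegLoc y f) (hg : RegLoc y g) : RegLoc y (f * g) :=
  fun E hE => nonneg_mul (hf E hE) (hg E hE)

theorem BC_pow (y : K) (k : ℕ) : RegLoc y (y ^ k) := fun _ hE => nonneg_pow hE.le k

theorem BC_step (hL : Gen L x) (hex : ∃ E : Place K, 0 < E.ord x⁻¹) {b : Fin n → K}
    (hb : ∀ i, RegLoc x⁻¹ (b i))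
    (hmin : ∀ (γ : Fin n → ℂ) (g : K), RegLoc x⁻¹ g → ∑ i, γ i • b i = x⁻¹ * g → ∀ i, γ i = 0) (m : ℕ) :
    ∀ s : Fin n → K, (∀ i, s i ∈ L) → (∀ i, RegLoc x⁻¹ ((x⁻¹) ^ m * s i)) → RegLoc x⁻¹ (∑ i, s i * b i) →
      ∀ i, RegLoc x⁻¹ (s i) := by
  have hx : x⁻¹ ≠ 0 := inv_ne_zero hL.ne_zero
  have hxL : x⁻¹ ∈ L := L.inv_mem hL.mem
  induction m with
  | zero =>
    intro s _ h _ i
    simpa using h i
  | succ m ih =>
    intro s hsL hs hF
    refine ih s hsL (fun i => ?_) hF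
    have hres := fun i => exists_residue hL.inv hex (L.mul_mem (pow_mem hxL (m + 1)) (hsL i)) (hs i)
    choose γ s' hs'L hs' heq using hres
    have h1 : ∑ i, γ i • b i = x⁻¹ * ((x⁻¹) ^ m * (∑ i, s i * b i) - ∑ i, s' i * b i) := by
      have h2 : ∑ i, γ i • b i = ∑ i, ((x⁻¹) ^ (m + 1) * s i - x⁻¹ * s' i) * b i := by
        refine Finset.sum_congr rfl fun i _ => ?_
        rw [heq i, Algebra.smul_def]
        ring
      rw [h2, mul_sub, Finset.mul_sum, Finset.mul_sum, Finset.mul_sum, ← Finset.sum_sub_distrib]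
      refine Finset.sum_congr rfl fun i _ => ?_
      ring
    have h3 := hmin γ _ (fun E hE => nonneg_sub (nonneg_mul (nonneg_pow hE.le m) (hF E hE))
      (nonneg_sum fun i _ => nonneg_mul (hs' i E hE) (hb i E hE))) h1 i
    have h4 : (x⁻¹) ^ m * s i = s' i := by
      have h5 := heq i
      rw [h3, map_zero, zero_add] at h5
      refine mul_left_cancel₀ hx ?_
      rw [← h5]
      ring
    rw [h4]
    exact hs' i

theorem BC_pole (hL : Gen L x) {w : Module.Basis (Fin n) L K} {a : Fin n → ℕ} (hw : Birk x w a)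
    (i : Fin n) : RegLoc x⁻¹ ((x⁻¹) ^ a i * w i) := by
  have hx0 : x ≠ 0 := hL.ne_zero
  have hxL : x⁻¹ ∈ L := L.inv_mem hL.mem
  refine (hw.inf _).2 fun j => ?_
  have h1 : (x⁻¹) ^ a i * w i = (⟨x⁻¹, hxL⟩ ^ a i : L) • w i := rfl
  rw [h1, map_smul, w.repr_self, Finsupp.smul_apply, Finsupp.single_apply]
  by_cases hij : i = j
  · subst hij
    rw [if_pos rfl, smul_eq_mul, mul_one]
    have h2 : x ^ a i * (((⟨x⁻¹, hxL⟩ ^ a i : L)) : K) = 1 := by
      show x ^ a i * (x⁻¹) ^ a i = 1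
      rw [← mul_pow, mul_inv_cancel₀ hx0, one_pow]
    rw [h2]
    exact BC_one _
  · rw [if_neg hij, smul_zero]
    have h2 : x ^ a j * ((0 : L) : K) = 0 := by
      rw [ZeroMemClass.coe_zero, mul_zero]
    rw [h2]
    exact BC_zero _

theorem Birk.pole (hL : Gen L x) {w : Module.Basis (Fin n) L K} {a : Fin n → ℕ} (hw : Birk x w a) (i : Fin n) : RegLoc x⁻¹ ((x⁻¹) ^ a i * w i) :=
  BC_pole hL hw i

end Pool.Agent.H13.CV

end
end

section

/-!
# CV Dx: the order of the differential of a function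

`Form K 1` is the exterior power `⋀¹ Ω_{K/ℂ}`, `Form.mk c a = c • ιMulti (d (a 0))` (`Pool/Agent/H23/Fano.lean`); `Form.mk c a` is additive in `d (a 0)` and `K`-linear in it.  (`Form K 1 ≃ Ω_{K/ℂ}`:
`exteriorPower.oneEquiv`; `exteriorPower.ιMulti` is multilinear: `AlternatingMap.map_update_smul`, `map_update_add` for `Fin 1`.)
`mk_ne_zero`: see e.g. `Pool/Agent/H62/FC/NotLGT.lean`, `Pool/Agent/H23/Forms.lean`: `d x ≠ 0` for a transcendental element in characteristic `0`: there is a derivation `D` of `K` over `ℂ` with `D x = 1`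
(Mathlib: `Differential`... or the library: look for `exists_derivation`, `IsTranscendenceBasis` basis of `Ω`, `Pool.Agent.H23` `mem_regularForms_iff`, `dualDer`).
`mk_inv`: `d x = - x² d (x⁻¹)` (`Derivation.leibniz_inv`).
`exists_eta`: let `oz E t = 1`, `e = oz E x` (may be negative), `u = x * t ^ (-e)` of order `0`: `x = t ^ e * u`, `d x = t ^ (e - 1) • (e u d t + t d u)`, and `η = e u d t + t d u` is a sum of two
generators of `regularForms`.
`pole_mk`: with `g = t ^ (e - 1)`: `0 ≤ oz E h + m * (e - 1) + p`.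
-/

set_option autoImplicit false

open Pool.Agent.H23.Fano (PrimeDivisorOver Form regularForms)
open Pool.Agent.H17LG.Variety (PoleAtMost IsLogGeneralType)

noncomputable section

namespace Pool.Agent.H13.CV

attribute [-instance] ProperSMul.toContinuousSMul

variable {K : Type} [Field K] [Algebra ℂ K]

/-- the form `dx` -/
def dx (x : K) : Form K 1 := Form.mk 1 fun _ => x

/-- a differential as a form -/
private def tf : Ω[K⁄ℂ] →ₗ[K] Form K 1 :=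
  ((exteriorPower.oneEquiv K Ω[K⁄ℂ]).symm : Ω[K⁄ℂ] →ₗ[K] ⋀[K]^1 Ω[K⁄ℂ])

private lemma tf_inj : Function.Injective (tf : Ω[K⁄ℂ] →ₗ[K] Form K 1) :=
  (exteriorPower.oneEquiv K Ω[K⁄ℂ]).symm.injective

private lemma mk_eq (c x : K) :
    Form.mk c (fun _ : Fin 1 => x) = tf (c • KaehlerDifferential.D ℂ K x) := by
  rw [map_smul]
  have h : (exteriorPower.ιMulti K 1 (fun _ : Fin 1 => KaehlerDifferential.D ℂ K x) :
      ⋀[K]^1 Ω[K⁄ℂ]) =
      (exteriorPower.oneEquiv K Ω[K⁄ℂ]).symm (KaehlerDifferential.D ℂ K x) := by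
    rw [LinearEquiv.eq_symm_apply, exteriorPower.oneEquiv_ιMulti]
  exact congrArg (fun w : ⋀[K]^1 Ω[K⁄ℂ] => c • w) h

private lemma dx_eq (x : K) : dx x = tf (KaehlerDifferential.D ℂ K x) := by
  rw [dx, mk_eq, one_smul]

theorem dx_sub_const (x : K) (c : ℂ) : dx (x - algebraMap ℂ K c) = dx x := by
  rw [dx_eq, dx_eq, map_sub, Derivation.map_algebraMap, sub_zero]

theorem dx_ne_zero {x : K} (hx : Transcendental ℂ x) : dx x ≠ 0 := by
  obtain ⟨t, hst, ht⟩ := exists_isTranscendenceBasis_superset (R := ℂ) (s := ({x} : Set K))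
    (algebraicIndependent_unique_type_iff.mpr hx)
  obtain ⟨b, hb⟩ := Pool.Agent.H23.exists_basis_kaehler ht
  have h1 := hb ⟨x, hst rfl⟩
  rw [dx_eq]
  intro h
  have h2 : KaehlerDifferential.D ℂ K x = 0 := tf_inj (h.trans (map_zero _).symm)
  exact b.ne_zero ⟨x, hst rfl⟩ (h1.trans h2)

theorem exists_eta (E : Place K) {x : K} (hx : x ≠ 0) :
    ∃ (t : K) (η : Form K 1), t ≠ 0 ∧ oz E t = 1 ∧ η ∈ regularForms 1 E.localRing ∧ dx x = t ^ (oz E x - 1) • η := by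
  obtain ⟨t, ht, h1⟩ := exists_uni E
  set e : ℤ := oz E x with he
  set u : K := x * t ^ (-e) with hu
  have hte : t ^ (-e) ≠ 0 := zpow_ne_zero _ ht
  have hu0 : u ≠ 0 := mul_ne_zero hx hte
  have hou : oz E u = 0 := by
    rw [hu, oz_mul E hx hte, oz_zpow, h1]
    omega
  have hxu : x = t ^ e * u := by
    rw [hu, mul_left_comm, ← zpow_add₀ ht, add_neg_cancel, zpow_zero, mul_one]
  have hru : 0 ≤ E.ord u := nonneg_iff.2 (Or.inr hou.ge)
  have hrt : 0 ≤ E.ord t := nonneg_iff.2 (Or.inr (by omega))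
  have hre : 0 ≤ E.ord (((e : ℂ) • u : K)) := by
    rw [Algebra.smul_def]
    exact nonneg_mul (const_nonneg E _) hru
  refine ⟨t, Form.mk t (fun _ => u) + Form.mk ((e : ℂ) • u) (fun _ => t), ht, h1, ?_, ?_⟩
  · refine AddSubgroup.add_mem _ (AddSubgroup.subset_closure ?_) (AddSubgroup.subset_closure ?_)
    · exact ⟨t, fun _ => u, hrt, fun _ => hru, rfl⟩
    · exact ⟨(e : ℂ) • u, fun _ => t, hre, fun _ => hrt, rfl⟩
  · rw [mk_eq, mk_eq, ← map_add, ← map_smul, dx_eq]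
    congr 1
    conv_lhs => rw [hxu]
    rw [Derivation.leibniz, Derivation.leibniz_zpow, smul_add, smul_smul, smul_smul]
    have h2 : t ^ (e - 1) * t = t ^ e := by
      rw [← zpow_add_one₀ ht, sub_add_cancel]
    rw [h2]
    congr 1
    rw [← Int.cast_smul_eq_zsmul K, smul_smul, smul_smul]
    congr 1
    rw [Algebra.smul_def, map_intCast]
    ring

/-- a sufficient condition for `h dx ^ m` to have a pole of order at most `p` at `E` -/
theorem pole_mk (E : Place K) {x h : K} (hx : x ≠ 0) {m p : ℕ} (hh : h = 0 ∨ 0 ≤ oz E h + m * (oz E x - 1) + p) : PoleAtMost p E m h (dx x) := by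
  obtain ⟨t, η, ht, h1, hη, hd⟩ := exists_eta E hx
  refine ⟨t ^ (oz E x - 1), η, hη, hd, ?_⟩
  rcases hh with hh | hh
  · rw [hh, zero_mul, E.ord.map_zero]
    exact le_of_le_of_eq le_top (WithTop.top_add _).symm
  · by_cases h0 : h = 0
    · rw [h0, zero_mul, E.ord.map_zero]
      exact le_of_le_of_eq le_top (WithTop.top_add _).symm
    have hg : (t ^ (oz E x - 1)) ^ m ≠ 0 := pow_ne_zero _ (zpow_ne_zero _ ht)
    rw [← coe_oz E (mul_ne_zero h0 hg), oz_mul E h0 hg, oz_pow, oz_zpow, h1, mul_one]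
    have h2 : ((p : ℕ) : WithTop ℤ) = (((p : ℤ)) : WithTop ℤ) := by
      push_cast
      rfl
    rw [h2, ← WithTop.coe_add]
    exact WithTop.coe_le_coe.2 hh

end Pool.Agent.H13.CV

end
end

section

/-!
# KR GLK: gluing the local extensions to a form on an open part of the cone
-/

set_option autoImplicit false

open MvPolynomial Topology Filter
open Pool.Agent.H17BP (Tan IsForm)

noncomputable section

namespace Pool.Agent.H68.KR

attribute [-instance] ProperSMul.toContinuousSMul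

variable {N : ℕ} {M a : ℕ} {t₀ : Fin 3 → Fin (N + 1)} {A B : MvPolynomial (Fin (N + 1)) ℂ}
  {P : Ideal (MvPolynomial (Fin (N + 1)) ℂ)} {K : Set (Fin (N + 1) → ℂ)}

private theorem GL_eval_smul {n : ℕ} {Q : MvPolynomial (Fin (N + 1)) ℂ} (hQ : Q.IsHomogeneous n) (c : ℂ)
    (y : Fin (N + 1) → ℂ) : eval (c • y) Q = c ^ n * eval y Q :=
  eval₂_of_isHomogeneous (RingHom.id ℂ) hQ c y

private theorem GLK_tan {X Y : Set (Fin (N + 1) → ℂ)} (h : X ⊆ Y) {x v : Fin (N + 1) → ℂ}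
    (hv : v ∈ Tan X x) : v ∈ Tan Y x := by
  obtain ⟨γ, h1, h2, h3, h4⟩ := hv
  exact ⟨γ, h1, h2.mono fun z hz => h hz, h3, h4⟩

private theorem GLK_mem (hKo : ∀ x ∈ K, ∀ᶠ y in 𝓝 x, (∀ Q ∈ P, eval y Q = 0) → y ∈ K)
    {x : Fin (N + 1) → ℂ} (hx : x ∈ K) {t : Fin 3 → Fin (N + 1)} {σ : ℂ × ℂ → Fin (N + 1) → ℂ}
    (hch : CChart P x t σ) : ∀ᶠ u in 𝓝 (0 : ℂ × ℂ), σ u ∈ K := by
  have h1 := hch.an.continuousAt.tendsto
  rw [hch.zero] at h1
  filter_upwards [h1.eventually (hKo x hx), hch.mem] with u h2 h3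
  exact h2 h3

theorem exists_omK (hKP : K ⊆ cone P) (hA : A.IsHomogeneous a) (hB : B.IsHomogeneous (a + 3 * M + 1))
    (hsm : ∀ x ∈ K, ∃ t σ, CChart P x t σ)
    (hext : ∀ x ∈ K, ∀ t σ, CChart P x t σ → ∃ Φ, Ext M t₀ A B σ Φ 0) :
    ∃ Om : (Fin (N + 1) → ℂ) → (Fin (N + 1) → ℂ) → (Fin (N + 1) → ℂ) → ℂ,
      (∀ x ∈ K, ∀ (φ : ℂ × ℂ → Fin (N + 1) → ℂ) (p : ℂ × ℂ) (Φ : ℂ × ℂ → ℂ), AnalyticAt ℂ φ p →
        (∀ᶠ u in 𝓝 p, ∀ Q ∈ P, eval (φ u) Q = 0) → φ p = x → Ext M t₀ A B φ Φ p →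
        (¬ ∀ᶠ u in 𝓝 p, eval (φ u) B = 0) → Om x (d1 φ p) (d2 φ p) = Φ p) ∧
      ∀ x ∈ K, ∃ (t : Fin 3 → Fin (N + 1)) (C : ℂ), ∀ v w, Om x v w = C * D3 t x v w ^ M := by
  classical
  choose t σ hch using hsm
  choose Φx hΦx using fun (x : Fin (N + 1) → ℂ) (hx : x ∈ K) => hext x hx (t x hx) (σ x hx) (hch x hx)
  refine ⟨fun x v w => if hx : x ∈ K then Φx x hx 0 * (D3 (t x hx) x v w / x (t x hx 0) ^ 3) ^ M else 0,
    ?_, ?_⟩
  · intro x hx φ p Φ hφ hφP hφx hE hnd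
    obtain ⟨κ, c, hκ, hc, hκ0, hc1, he⟩ := (hch x hx).param hφ hφx hφP
    have hc0 : c p ≠ 0 := by
      rw [hc1]
      exact one_ne_zero
    have hσ : AnalyticAt ℂ (σ x hx) (κ p) := by
      rw [hκ0]
      exact (hch x hx).an
    have hE' : Ext M t₀ A B (σ x hx) (Φx x hx) (κ p) := by
      rw [hκ0]
      exact hΦx x hx
    have hcomp := Ext.comp hA hB hc hc0 hκ hσ hE' he
    have h1 := Ext.unique hE hcomp hnd
    have h1' : Φ p = (c p)⁻¹ * jac κ p ^ M * Φx x hx (κ p) := h1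
    rw [hc1, hκ0, inv_one, one_mul] at h1'
    have h2 := (D3_comp (t x hx) hc hκ hσ he).self_of_nhds
    have h3 := (hch x hx).D3_eq.self_of_nhds
    rw [hκ0, hc1, h3, one_pow, one_mul, hφx] at h2
    have h4 : x (t x hx 0) ≠ 0 := (hch x hx).ne
    simp only [hx, dif_pos]
    rw [h2, h1', mul_div_cancel_right₀ _ (pow_ne_zero 3 h4), mul_comm]
  · intro x hx
    refine ⟨t x hx, Φx x hx 0 / (x (t x hx 0) ^ 3) ^ M, fun v w => ?_⟩
    simp only [hx, dif_pos]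
    rw [div_pow]
    ring

/-- The local form of `Om` in a chart. -/
private theorem GL_star (hKo : ∀ x ∈ K, ∀ᶠ y in 𝓝 x, (∀ Q ∈ P, eval y Q = 0) → y ∈ K) (hB : B.IsHomogeneous (a + 3 * M + 1)) (hBP : B ∉ P)
    {Om : (Fin (N + 1) → ℂ) → (Fin (N + 1) → ℂ) → (Fin (N + 1) → ℂ) → ℂ}
    (h1 : ∀ x ∈ K, ∀ (φ : ℂ × ℂ → Fin (N + 1) → ℂ) (p : ℂ × ℂ) (Φ : ℂ × ℂ → ℂ), AnalyticAt ℂ φ p →
        (∀ᶠ u in 𝓝 p, ∀ Q ∈ P, eval (φ u) Q = 0) → φ p = x → Ext M t₀ A B φ Φ p →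
        (¬ ∀ᶠ u in 𝓝 p, eval (φ u) B = 0) → Om x (d1 φ p) (d2 φ p) = Φ p)
    {x : Fin (N + 1) → ℂ} (hx : x ∈ K) {t : Fin 3 → Fin (N + 1)} {σ : ℂ × ℂ → Fin (N + 1) → ℂ}
    (hch : CChart P x t σ) {Φ : ℂ × ℂ → ℂ} (hΦ : Ext M t₀ A B σ Φ 0) :
    ∀ᶠ u in 𝓝 (0 : ℂ × ℂ), Om (σ u) (d1 σ u) (d2 σ u) = Φ u := by
  filter_upwards [hch.an.eventually_analyticAt, hch.mem.eventually_nhds, hΦ.1.eventually_analyticAt,
    hΦ.2.eventually_nhds, hch.nd_near, GLK_mem hKo hx hch] with u a1 a2 a3 a4 a5 a6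
  exact h1 (σ u) a6 σ u Φ a1 a2 rfl ⟨a3, a4⟩ (a5 _ B hB hBP)

private theorem GL_d1_const_smul {σ : ℂ × ℂ → Fin (N + 1) → ℂ} {p : ℂ × ℂ} (h : AnalyticAt ℂ σ p) (c : ℂ) :
    d1 (fun u => c • σ u) p = c • d1 σ p := by
  unfold d1
  rw [fderiv_fun_const_smul h.differentiableAt]
  rfl

private theorem GL_d2_const_smul {σ : ℂ × ℂ → Fin (N + 1) → ℂ} {p : ℂ × ℂ} (h : AnalyticAt ℂ σ p) (c : ℂ) :
    d2 (fun u => c • σ u) p = c • d2 σ p := by
  unfold d2
  rw [fderiv_fun_const_smul h.differentiableAt]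
  rfl

private theorem GL_jac_id (p : ℂ × ℂ) : jac (fun u => u) p = 1 := by
  have e1 : fderiv ℂ (fun v : ℂ × ℂ => v.1) p = ContinuousLinearMap.fst ℂ ℂ ℂ := fderiv_fst
  have e2 : fderiv ℂ (fun v : ℂ × ℂ => v.2) p = ContinuousLinearMap.snd ℂ ℂ ℂ := fderiv_snd
  simp only [jac, dx, dy]
  rw [e1, e2]
  simp

theorem isForm_omK (hKP : K ⊆ cone P) (hKs : ∀ x ∈ K, ∀ c : ℂ, c ≠ 0 → c • x ∈ K)
    (hKo : ∀ x ∈ K, ∀ᶠ y in 𝓝 x, (∀ Q ∈ P, eval y Q = 0) → y ∈ K) (hP : ∀ p ∈ P, ∀ n, homogeneousComponent n p ∈ P) (hA : A.IsHomogeneous a)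
    (hB : B.IsHomogeneous (a + 3 * M + 1)) (hBP : B ∉ P) (hsm : ∀ x ∈ K, ∃ t σ, CChart P x t σ)
    (hext : ∀ x ∈ K, ∀ t σ, CChart P x t σ → ∃ Φ, Ext M t₀ A B σ Φ 0)
    {Om : (Fin (N + 1) → ℂ) → (Fin (N + 1) → ℂ) → (Fin (N + 1) → ℂ) → ℂ}
    (h1 : ∀ x ∈ K, ∀ (φ : ℂ × ℂ → Fin (N + 1) → ℂ) (p : ℂ × ℂ) (Φ : ℂ × ℂ → ℂ), AnalyticAt ℂ φ p →
        (∀ᶠ u in 𝓝 p, ∀ Q ∈ P, eval (φ u) Q = 0) → φ p = x → Ext M t₀ A B φ Φ p →
        (¬ ∀ᶠ u in 𝓝 p, eval (φ u) B = 0) → Om x (d1 φ p) (d2 φ p) = Φ p)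
    (h2 : ∀ x ∈ K, ∃ (t : Fin 3 → Fin (N + 1)) (C : ℂ), ∀ v w, Om x v w = C * D3 t x v w ^ M) :
    IsForm K M 1 Om := by
  -- the rules for all vectors
  have r1 : ∀ x ∈ K, ∀ v w : Fin (N + 1) → ℂ, ∀ α β : ℂ,
      Om x (v + α • x) (w + β • x) = Om x v w := by
    intro x hx v w α β
    obtain ⟨t, C, hC⟩ := h2 x hx
    rw [hC, hC, D3_add_smul]
  have r2 : ∀ x ∈ K, ∀ v w : Fin (N + 1) → ℂ, ∀ α β γ δ : ℂ,
      Om x (α • v + β • w) (γ • v + δ • w) = (α * δ - β * γ) ^ M * Om x v w := by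
    intro x hx v w α β γ δ
    obtain ⟨t, C, hC⟩ := h2 x hx
    rw [hC, hC, D3_det, mul_pow]
    ring
  have hscale : ∀ x ∈ K, ∀ v ∈ Tan K x, ∀ w ∈ Tan K x, ∀ c : ℂ, c ≠ 0 →
      c ^ 1 * Om (c • x) (c • v) (c • w) = Om x v w := by
    intro x hx v hv w hw c hc
    obtain ⟨t, σ, hch⟩ := hsm x hx
    obtain ⟨Φ, hΦ⟩ := hext x hx t σ hch
    obtain ⟨α, β, e, hv'⟩ := hch.tan (GLK_tan hKP hv)
    obtain ⟨γ, δ, e', hw'⟩ := hch.tan (GLK_tan hKP hw)
    have hcx : c • x ∈ K := hKs x hx c hc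
    have k1 : Om x (d1 σ 0) (d2 σ 0) = Φ 0 := by
      have := (GL_star hKo hB hBP h1 hx hch hΦ).self_of_nhds
      rwa [hch.zero] at this
    have hσ' : AnalyticAt ℂ (fun u => c • σ u) 0 := by
      show AnalyticAt ℂ (c • σ) 0
      exact hch.an.const_smul
    have k2 : Om (c • x) (c • d1 σ 0) (c • d2 σ 0) = c⁻¹ * Φ 0 := by
      have hE : Ext M t₀ A B (fun u => c • σ u) (fun u => c⁻¹ * jac (fun u => u) u ^ M * Φ u) 0 :=
        Ext.comp (c := fun _ => c) (κ := fun u => u) hA hB analyticAt_const hc analyticAt_id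
          hch.an hΦ (Eventually.of_forall fun _ => rfl)
      have hm : ∀ᶠ u in 𝓝 (0 : ℂ × ℂ), ∀ Q ∈ P, eval (c • σ u) Q = 0 := by
        filter_upwards [hch.mem_cone] with u hu
        exact (cone_smul hP hu hc).2
      have hn : ¬ ∀ᶠ u in 𝓝 (0 : ℂ × ℂ), eval (c • σ u) B = 0 := by
        intro hall
        apply hch.nd _ B hB hBP
        filter_upwards [hall] with u hu
        rw [GL_eval_smul hB] at hu
        exact (mul_eq_zero.1 hu).resolve_left (pow_ne_zero _ hc)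
      have h3 := h1 (c • x) hcx (fun u => c • σ u) 0 _ hσ' hm (by rw [hch.zero]) hE hn
      rw [GL_d1_const_smul hch.an, GL_d2_const_smul hch.an] at h3
      rw [h3, GL_jac_id, one_pow, mul_one]
    have hv2 : c • v = (α • (c • d1 σ 0) + β • (c • d2 σ 0)) + e • (c • x) := by
      rw [hv']
      module
    have hw2 : c • w = (γ • (c • d1 σ 0) + δ • (c • d2 σ 0)) + e' • (c • x) := by
      rw [hw']
      module
    rw [hv2, hw2, r1 _ hcx, r2 _ hcx, k2, hv', hw', r1 _ hx, r2 _ hx, k1]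
    field_simp
  refine ⟨fun x hx v _ w _ α β => r1 x hx v w α β, fun x hx v _ w _ α β γ δ => r2 x hx v w α β γ δ,
    hscale, ?_⟩
  intro φ p hφ hφX
  have hx : φ p ∈ K := hφX.self_of_nhds
  obtain ⟨t, σ, hch⟩ := hsm (φ p) hx
  obtain ⟨Φ, hΦ⟩ := hext (φ p) hx t σ hch
  have hφP : ∀ᶠ u in 𝓝 p, ∀ Q ∈ P, eval (φ u) Q = 0 := hφX.mono fun u hu => (hKP hu).2
  obtain ⟨κ, c, hκ, hc, hκ0, hc1, he⟩ := hch.param hφ rfl hφP
  have hσ : AnalyticAt ℂ σ (κ p) := by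
    rw [hκ0]
    exact hch.an
  have hΦκ : AnalyticAt ℂ Φ (κ p) := by
    rw [hκ0]
    exact hΦ.1
  have hc0 : c p ≠ 0 := by
    rw [hc1]
    exact one_ne_zero
  have hκt : Tendsto κ (𝓝 p) (𝓝 0) := by
    have := hκ.continuousAt.tendsto
    rwa [hκ0] at this
  have hF : AnalyticAt ℂ (fun u => jac κ u ^ M * ((c u)⁻¹ * Φ (κ u))) p :=
    ((analyticAt_jac hκ).pow M).mul ((hc.inv hc0).mul (hΦκ.comp hκ))
  refine hF.congr ?_
  filter_upwards [he, d1_smul_comp hc hκ hσ he, d2_smul_comp hc hκ hσ he,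
    hc.continuousAt.eventually_ne hc0, hκt.eventually (GLK_mem hKo hx hch),
    hκt.eventually (GL_star hKo hB hBP h1 hx hch hΦ), hκt.eventually hch.an.eventually_analyticAt,
    hκt.eventually (GLK_mem hKo hx hch).eventually_nhds] with u e1 e2 e3 e4 e5 e6 e7 e8
  have hcy : c u • σ (κ u) ∈ K := hKs _ e5 _ e4
  have ht1 : d1 σ (κ u) ∈ Tan K (σ (κ u)) := tan_d1 e7 e8
  have ht2 : d2 σ (κ u) ∈ Tan K (σ (κ u)) := tan_d2 e7 e8
  have hs := hscale _ e5 _ ht1 _ ht2 (c u) e4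
  rw [pow_one, e6] at hs
  show jac κ u ^ M * ((c u)⁻¹ * Φ (κ u)) = Om (φ u) (d1 φ u) (d2 φ u)
  have f1 : d1 φ u = (dx (fun v => (κ v).1) u • (c u • d1 σ (κ u)) +
      dx (fun v => (κ v).2) u • (c u • d2 σ (κ u))) + (dx c u / c u) • (c u • σ (κ u)) := by
    rw [e2, smul_smul (dx c u / c u), div_mul_cancel₀ _ e4]
    module
  have f2 : d2 φ u = (dy (fun v => (κ v).1) u • (c u • d1 σ (κ u)) +
      dy (fun v => (κ v).2) u • (c u • d2 σ (κ u))) + (dy c u / c u) • (c u • σ (κ u)) := by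
    rw [e3, smul_smul (dy c u / c u), div_mul_cancel₀ _ e4]
    module
  rw [f1, f2, e1, r1 _ hcy, r2 _ hcy, ← hs]
  unfold jac
  rw [inv_mul_cancel_left₀ e4]
  ring

end Pool.Agent.H68.KR

end
end

section

/-!
# KR MainG: open surfaces of log general type carry a section of `M (K + D) - H` with poles of order at most `M`

The boundary `D = X ∩ {H₀ = 0}` of the smooth surface `X` is an arbitrary curve.
-/

set_option autoImplicit false

open MvPolynomial Topology Filter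
open Pool.Agent.H17BP (Tan IsForm NoZeros)

noncomputable section

namespace Pool.Agent.H68.KR

attribute [-instance] ProperSMul.toContinuousSMul

variable {N : ℕ} (P : Ideal (MvPolynomial (Fin (N + 1)) ℂ))

variable {P}

variable {M a : ℕ} {t₀ : Fin 3 → Fin (N + 1)} {A B : MvPolynomial (Fin (N + 1)) ℂ}

/-- Local extensions exist along all analytic maps into the open part. -/
theorem exists_ext_map {K : Set (Fin (N + 1) → ℂ)} (hA : A.IsHomogeneous a)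
    (hB : B.IsHomogeneous (a + 3 * M + 1)) (hsm : ∀ x ∈ K, ∃ t σ, CChart P x t σ)
    (hext : ∀ x ∈ K, ∀ t σ, CChart P x t σ → ∃ Φ, Ext M t₀ A B σ Φ 0)
    {φ : ℂ × ℂ → Fin (N + 1) → ℂ} {p : ℂ × ℂ} (hφ : AnalyticAt ℂ φ p)
    (hφP : ∀ᶠ u in 𝓝 p, ∀ Q ∈ P, eval (φ u) Q = 0) (hφK : φ p ∈ K) :
    ∃ Ψ, Ext M t₀ A B φ Ψ p := by
  obtain ⟨t, σ, hch⟩ := hsm _ hφK
  obtain ⟨Φ, hΦ⟩ := hext _ hφK t σ hch
  obtain ⟨κ, c, hκ, hc, hκ0, hc1, he⟩ := hch.param hφ rfl hφP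
  refine ⟨_, Ext.comp hA hB hc (by rw [hc1]; exact one_ne_zero) hκ ?_ (Φ := Φ) ?_ he⟩
  · rw [hκ0]
    exact hch.an
  · rw [hκ0]
    exact hΦ

variable (P)

end Pool.Agent.H68.KR

end
end
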