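import Pool.Agent.H94.CB.M04
import Pool.Agent.H94.CB.M14

/-! The parts of this file: H14.PP.DomN_1, H14.PP.Dom_1. -/

section

/-!
# BPm DomN: comparison of the pieces of two charts, first estimates

Notation: `u' = l s' + b t'`, `w' = c s' + m t'` (the new components of the vector), `TE C s u l b c m`.

`comp_s`: `‖s'‖ ≤ 2 C ‖u'‖ + 2 C^3 ‖s‖ ‖w'‖` if `‖s‖ ≤ 1/(2C^4)`. Proof: `l s' = u' - b t'`, so
`‖s'‖ ≤ C ‖u'‖ + C^2 ‖s‖ ‖t'‖`; `m t' = w' - c s'`, so `‖t'‖ ≤ C ‖w'‖ + C^2 ‖s'‖`. Insert: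
`‖s'‖ ≤ C ‖u'‖ + C^3 ‖s‖‖w'‖ + C^4 ‖s‖ ‖s'‖`, and `C^4 ‖s‖ ≤ 1/2`.
`comp_t`: `‖m‖ ‖t'‖ ≤ ‖w'‖ + C ‖s'‖`.
`comp_u`: `‖l‖ ‖s‖ (1 - C^2 ‖s‖) ≤ ‖u‖ ≤ ‖l‖ ‖s‖ (1 + C^2 ‖s‖)` (from
`|‖u‖ - ‖l‖‖s‖| ≤ C ‖s‖^2` and `C⁻¹ ≤ ‖l‖`).
`comp_J`: `‖l m - b c‖ ≤ ‖l‖ ‖m‖ + C^2 ‖s‖ ≤ 2 C^2` for `‖s‖ ≤ 1`.
-/

open Topology Filter Metric

namespace Pool.Agent.H14.PP

attribute [-instance] ProperSMul.toContinuousSMul

/-- bounds for the pieces, outer boundary -/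
theorem pN_outer {C : ℝ} {P : Par} (hP : DomPar C P) (nd : Bool) {s t : ℂ} (ht : ‖t‖ = 1)
    (hs : ‖s‖ ≤ 1) (s' : ℂ) : pN nd P s t s' ≤ ‖s'‖ * Real.exp (P.ε / 16 - P.K) := by
  have h1 := DomN_exp hP (norm_nonneg s) hs
  have h0 : 0 ≤ (1 + P.M * ‖s‖ ^ (2 * P.κ)) ^ P.e := le_trans zero_le_one (DomN_one hP (norm_nonneg s))
  have h2 : (if nd = true then ‖t‖ ^ (1 - P.κ) * Real.exp (-P.ε * ‖s‖ ^ 2) else 1) ≤ 1 := by
    split_ifs
    · rw [ht, Real.one_rpow, one_mul]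
      apply Real.exp_le_one_iff.mpr
      have := hP.ε_pos
      nlinarith [mul_nonneg this.le (sq_nonneg ‖s‖)]
    · exact le_rfl
  have h3 : 0 ≤ (if nd = true then ‖t‖ ^ (1 - P.κ) * Real.exp (-P.ε * ‖s‖ ^ 2) else 1) := by
    split_ifs
    · positivity
    · exact zero_le_one
  unfold pN
  rw [show P.ε / 16 - P.K = P.ε / 16 + -P.K by ring, Real.exp_add, ht]
  calc (if nd = true then (1:ℝ) ^ (1 - P.κ) * Real.exp (-P.ε * ‖s‖ ^ 2) else 1) * ‖s'‖ *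
        (1 + P.M * ‖s‖ ^ (2 * P.κ)) ^ P.e * Real.exp (-P.K * 1 ^ 2)
      ≤ 1 * ‖s'‖ * Real.exp (P.ε / 16) * Real.exp (-P.K * 1 ^ 2) := by
        rw [ht] at h2 h3
        gcongr
    _ = _ := by rw [one_pow, mul_one, one_mul, mul_assoc]

/-- bounds for the pieces, outer boundary -/
theorem pT_outer {C : ℝ} {P : Par} (hP : DomPar C P) (nd : Bool) {s t : ℂ} (ht : ‖t‖ = 1)
    (hs : ‖s‖ ≤ 1) (t' : ℂ) :
    pT nd P s t t' ≤ ‖s‖ ^ (1 - P.κ) * ‖t'‖ * Real.exp (P.ε / 16 - P.ε) := by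
  have h1 := DomN_exp hP (norm_nonneg t) ht.le
  have h0 : 0 ≤ (1 + P.M * ‖t‖ ^ (2 * P.κ)) ^ P.e := le_trans zero_le_one (DomN_one hP (norm_nonneg t))
  have hε := hP.ε_pos
  have hK := hP.K_pos
  rw [show P.ε / 16 - P.ε = P.ε / 16 + -P.ε by ring, Real.exp_add]
  rcases Bool.eq_false_or_eq_true nd with hnd | hnd <;> subst hnd <;>
    simp only [pT, pN, if_true, Bool.false_eq_true, if_false]
  · have h2 : Real.exp (-P.K * ‖s‖ ^ 2) ≤ 1 := by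
      apply Real.exp_le_one_iff.mpr
      nlinarith [mul_nonneg hK.le (sq_nonneg ‖s‖)]
    calc ‖s‖ ^ (1 - P.κ) * Real.exp (-P.ε * ‖t‖ ^ 2) * ‖t'‖ *
          (1 + P.M * ‖t‖ ^ (2 * P.κ)) ^ P.e * Real.exp (-P.K * ‖s‖ ^ 2)
        ≤ ‖s‖ ^ (1 - P.κ) * Real.exp (-P.ε * ‖t‖ ^ 2) * ‖t'‖ *
          Real.exp (P.ε / 16) * 1 := by gcongr
      _ = _ := by
        rw [ht, one_pow, mul_one, mul_one]
        ring
  · rw [ht, one_pow, mul_one]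
    have h2 : 1 ≤ Real.exp (P.ε / 16) := Real.one_le_exp (by linarith)
    calc ‖s‖ ^ (1 - P.κ) * ‖t'‖ * Real.exp (-P.ε)
        = ‖s‖ ^ (1 - P.κ) * ‖t'‖ * (1 * Real.exp (-P.ε)) := by rw [one_mul]
      _ ≤ _ := by gcongr

/-- bounds for the pieces, inner region -/
theorem pN_inner {C : ℝ} (hC : 1 ≤ C) {P : Par} (hP : DomPar C P) (nd : Bool) {u w : ℂ}
    (hw : ‖w‖ ≤ 1 / 2) (hw' : nd = true → C⁻¹ ≤ ‖w‖) (hu : ‖u‖ ≤ 1) (u' : ℂ) :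
    C⁻¹ * ‖u'‖ * Real.exp (-P.ε - P.K / 4) ≤ pN nd P u w u' := by
  have hC0 : (0 : ℝ) < C := by linarith
  have hε := hP.ε_pos
  have hK := hP.K_pos
  have hκ := hP.κ_pos
  have hκ' := hP.κ_le
  have hCi : 0 < C⁻¹ := inv_pos.mpr hC0
  have hCi1 : C⁻¹ ≤ 1 := inv_le_one_of_one_le₀ hC
  have h1 := DomN_one hP (norm_nonneg u)
  have h2 : C⁻¹ * Real.exp (-P.ε) ≤
      (if nd = true then ‖w‖ ^ (1 - P.κ) * Real.exp (-P.ε * ‖u‖ ^ 2) else 1) := by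
    split_ifs with hnd
    · have h3 : C⁻¹ ≤ ‖w‖ ^ (1 - P.κ) := by
        calc C⁻¹ = C⁻¹ ^ (1 : ℝ) := (Real.rpow_one _).symm
          _ ≤ C⁻¹ ^ (1 - P.κ) := Real.rpow_le_rpow_of_exponent_ge hCi hCi1 (by linarith)
          _ ≤ _ := Real.rpow_le_rpow hCi.le (hw' hnd) (by linarith)
      have h4 : Real.exp (-P.ε) ≤ Real.exp (-P.ε * ‖u‖ ^ 2) := by
        apply Real.exp_le_exp.mpr
        have h5 : ‖u‖ ^ 2 ≤ 1 := pow_le_one₀ (norm_nonneg _) hu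
        nlinarith
      gcongr
    · calc C⁻¹ * Real.exp (-P.ε) ≤ 1 * 1 := by
            apply mul_le_mul hCi1 _ (Real.exp_pos _).le zero_le_one
            exact Real.exp_le_one_iff.mpr (by linarith)
        _ = 1 := one_mul 1
  have h6 : Real.exp (-(P.K / 4)) ≤ Real.exp (-P.K * ‖w‖ ^ 2) := by
    apply Real.exp_le_exp.mpr
    have h7 : ‖w‖ ^ 2 ≤ 1 / 4 := by
      have := norm_nonneg w
      nlinarith
    nlinarith
  have h8 : 0 ≤ C⁻¹ * Real.exp (-P.ε) := by positivity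
  have h9 : 0 ≤ (if nd = true then ‖w‖ ^ (1 - P.κ) * Real.exp (-P.ε * ‖u‖ ^ 2) else 1) :=
    h8.trans h2
  unfold pN
  rw [show -P.ε - P.K / 4 = -P.ε + -(P.K / 4) by ring, Real.exp_add]
  calc C⁻¹ * ‖u'‖ * (Real.exp (-P.ε) * Real.exp (-(P.K / 4)))
      = (C⁻¹ * Real.exp (-P.ε)) * ‖u'‖ * 1 * Real.exp (-(P.K / 4)) := by ring
    _ ≤ _ := by
      apply mul_le_mul _ h6 (Real.exp_pos _).le
      · positivity
      · apply mul_le_mul _ h1 zero_le_one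
        · positivity
        · exact mul_le_mul_of_nonneg_right h2 (norm_nonneg _)

/-- bounds for the pieces, inner region -/
theorem pT_inner {C : ℝ} {P : Par} (hP : DomPar C P) (nd : Bool) {u w : ℂ} (hw : ‖w‖ ≤ 1 / 2)
    (hu : P.K * ‖u‖ ^ 2 ≤ P.ε / 16) (w' : ℂ) :
    ‖u‖ ^ (1 - P.κ) * ‖w'‖ * Real.exp (-(5 * P.ε / 16)) ≤ pT nd P u w w' := by
  have hε := hP.ε_pos
  have hw2 : ‖w‖ ^ 2 ≤ 1 / 4 := by
    have := norm_nonneg w
    nlinarith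
  have h1 : Real.exp (-(P.ε / 4)) ≤ Real.exp (-P.ε * ‖w‖ ^ 2) := by
    apply Real.exp_le_exp.mpr
    nlinarith
  have h2 : Real.exp (-(P.ε / 16)) ≤ Real.exp (-P.K * ‖u‖ ^ 2) := by
    apply Real.exp_le_exp.mpr
    linarith
  rcases Bool.eq_false_or_eq_true nd with hnd | hnd <;> subst hnd <;>
    simp only [pT, pN, if_true, Bool.false_eq_true, if_false]
  · have h3 := DomN_one hP (norm_nonneg w)
    rw [show -(5 * P.ε / 16) = -(P.ε / 4) + -(P.ε / 16) by ring, Real.exp_add]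
    calc ‖u‖ ^ (1 - P.κ) * ‖w'‖ * (Real.exp (-(P.ε / 4)) * Real.exp (-(P.ε / 16)))
        = ‖u‖ ^ (1 - P.κ) * Real.exp (-(P.ε / 4)) * ‖w'‖ * 1 * Real.exp (-(P.ε / 16)) := by ring
      _ ≤ ‖u‖ ^ (1 - P.κ) * Real.exp (-P.ε * ‖w‖ ^ 2) * ‖w'‖ *
          (1 + P.M * ‖w‖ ^ (2 * P.κ)) ^ P.e * Real.exp (-P.K * ‖u‖ ^ 2) := by
        gcongr
  · have h4 : Real.exp (-(5 * P.ε / 16)) ≤ Real.exp (-P.ε * ‖w‖ ^ 2) := by
      refine le_trans (Real.exp_le_exp.mpr ?_) h1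
      linarith
    gcongr

end Pool.Agent.H14.PP

end

section

/-!
# BPm Dom: comparison of the pieces of two charts

Let `C ≥ 1`, `P` with `DomPar C P`. There is `r > 0` such that: for `‖s‖ ≤ r`, `‖t‖ = 1`,
`TE C s u l b c m`, `‖w‖ ≤ 1/2`, (`nd' = true → C⁻¹ ≤ ‖w‖`), `0 < A'`, `A = ‖l m - b c‖ A'`,
`u' = l s' + b t'`, `w' = c s' + m t'`:
`A * max (pN nd P s t s') (pT nd P s t t') < A' * max (pN nd' P u w u') (pT nd' P u w w')`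
if the left side is positive.

Write `N' = pN nd' P u w u'`, `T' = pT nd' P u w w'`, `K, ε, κ` the parameters, `x = ‖s‖`; `O(x^θ)`
stands for a constant depending on `C, P` times `x^θ`.
From `DomN`: `‖u'‖ ≤ C exp (ε + K/4) N'`, `‖u‖^(1-κ) ‖w'‖ ≤ exp (5ε/16) T'`, and
`‖u‖ ≥ x/(2C)`, so `x^(1-κ) ≤ (2C)^(1-κ) ‖u‖^(1-κ) ≤ 2C ‖u‖^(1-κ)`, hence
`x ‖w'‖ = x^κ x^(1-κ) ‖w'‖ ≤ 2 C x^κ exp (5ε/16) T'`.
1. Normal piece: `A pN ≤ 2C^2 A' ‖s'‖ exp (ε/16 - K)` and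
   `‖s'‖ ≤ 2C ‖u'‖ + 2C^3 x ‖w'‖ ≤ 2 C^2 exp (ε + K/4) N' + 4 C^4 x^κ exp (5ε/16) T'`, so
   `A pN ≤ A' (4 C^4 exp (17ε/16 - 3K/4) N' + O(x^κ) T') ≤ A' (N'/4 + O(x^κ) T')`
   by `K_ge` (`16 C^4 e^2 ≤ exp (3K/4)`, `ε ≤ 1`).
2. Tangential piece: `A pT ≤ A' (‖l‖‖m‖ + C^2 x) x^(1-κ) ‖t'‖ exp (-15ε/16)`.
   `‖l‖ ‖m‖ x^(1-κ) ‖t'‖ ≤ ‖l‖ x^(1-κ) (‖w'‖ + C ‖s'‖)`,
   `‖l‖ x^(1-κ) = ‖l‖^κ (‖l‖ x)^(1-κ) ≤ exp (ε/8) (1 - C^2 x)^(-1) ‖u‖^(1-κ)`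
   (`‖l‖^κ ≤ C^κ ≤ exp (ε/8)` by `κ_log`; `‖l‖ x ≤ ‖u‖/(1 - C^2 x)`, `comp_u`).
   So `A pT ≤ A' (exp (-15ε/16 + ε/8 + 5ε/16) (1 + O(x)) T' + O(x^(1-κ)) N' + O(x) T')
   ≤ A' ((exp (-ε/2) + O(x^(1-κ))) T' + O(x^(1-κ)) N')` (`‖s'‖` from step 1, `‖t'‖ ≤ C (‖w'‖ + C‖s'‖)`).
With `m' = max N' T'`: both are at most `A' m' θ`, `θ < 1`, if `x ≤ r` is small enough; and `m' > 0`
since the left side is positive.
-/

open Topology Filter Metric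

namespace Pool.Agent.H14.PP

attribute [-instance] ProperSMul.toContinuousSMul

theorem dom {C : ℝ} (hC : 1 ≤ C) {P : Par} (hP : DomPar C P) :
    ∃ r : ℝ, 0 < r ∧ r ≤ 1 ∧ ∀ (nd nd' : Bool) (p w p' : ℂ × ℂ) (l b c m : ℂ) (A A' : ℝ),
      ‖p.1‖ ≤ r → ‖p.2‖ = 1 → ‖p'‖ ≤ 1 / 2 → (nd' = true → C⁻¹ ≤ ‖p'.2‖) →
      TE C p.1 p'.1 l b c m → 0 ≤ A' → A = ‖l * m - b * c‖ * A' → 0 < A * pM nd P p w →
      A * pM nd P p w < A' * pM nd' P p' (l * w.1 + b * w.2, c * w.1 + m * w.2) := by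
  set E1 := Real.exp (P.ε + P.K / 4) with hE1
  set E5 := Real.exp (5 * P.ε / 16) with hE5
  have hE1p : 0 < E1 := Real.exp_pos _
  have hE5p : 0 < E5 := Real.exp_pos _
  have hC0 : 0 < C := by linarith
  have hε := hP.ε_pos
  have hε1 := hP.ε_le
  have hκ := hP.κ_pos
  have hκ1 : 0 < 1 - P.κ := by linarith [hP.κ_le]
  have hK := hP.K_pos
  obtain ⟨r, hr, hr1, hsm⟩ := Dom_small hC hP E1 E5
  refine ⟨r, hr, hr1, ?_⟩
  rintro nd nd' ⟨s, t⟩ ⟨s', t'⟩ ⟨u, v⟩ l b c m A A' hs ht hp' hnd hT hA' hA hpos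
  simp only at hs ht hnd hT hpos ⊢
  have hu12 : ‖u‖ ≤ 1 / 2 := (norm_fst_le ((u, v) : ℂ × ℂ)).trans hp'
  have hv12 : ‖v‖ ≤ 1 / 2 := (norm_snd_le ((u, v) : ℂ × ℂ)).trans hp'
  set x := ‖s‖ with hx
  have hx0 : 0 ≤ x := norm_nonneg _
  have hx1 : x ≤ 1 := hs.trans hr1
  obtain ⟨k1, k2, k3, k4, k5⟩ := hsm x hx0 hs
  obtain ⟨hb, hc, hul, hl1, hl2, hm1, hm2⟩ := hT
  have hT : TE C s u l b c m := ⟨hb, hc, hul, hl1, hl2, hm1, hm2⟩
  obtain ⟨hu1, hu2⟩ := comp_u hC hT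
  rw [← hx] at hu1 hu2
  have hl0 : 0 < ‖l‖ := lt_of_lt_of_le (by positivity) hl1
  have hm0 : 0 < ‖m‖ := lt_of_lt_of_le (by positivity) hm1
  -- bounds for `u`
  have hux : ‖u‖ ≤ 2 * C * x := by
    calc ‖u‖ ≤ ‖l‖ * x * (1 + C ^ 2 * x) := hu2
      _ ≤ C * x * 2 := by
          refine mul_le_mul (mul_le_mul_of_nonneg_right hl2 hx0) (by linarith) (by positivity) (by positivity)
      _ = 2 * C * x := by ring
  have hxu : x ≤ 2 * C * ‖u‖ := by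
    have h1 : C⁻¹ * x * (1 / 2) ≤ ‖u‖ := by
      refine le_trans ?_ hu1
      refine mul_le_mul (mul_le_mul_of_nonneg_right hl1 hx0) (by linarith) (by norm_num) (by positivity)
    calc x = 2 * C * (C⁻¹ * x * (1 / 2)) := by field_simp
      _ ≤ 2 * C * ‖u‖ := mul_le_mul_of_nonneg_left h1 (by positivity)
  have hKu : P.K * ‖u‖ ^ 2 ≤ P.ε / 16 := by
    refine le_trans (mul_le_mul_of_nonneg_left ?_ hK.le) k3
    calc ‖u‖ ^ 2 ≤ (2 * C * x) ^ 2 := pow_le_pow_left₀ (norm_nonneg _) hux 2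
      _ = 4 * C ^ 2 * x ^ 2 := by ring
  set u' := l * s' + b * t' with hu'
  set w' := c * s' + m * t' with hw'
  set N' := pN nd' P u v u' with hN'
  set T' := pT nd' P u v w' with hT'
  set q := x ^ (1 - P.κ) with hq
  set xk := x ^ P.κ with hxk
  set yk := ‖u‖ ^ (1 - P.κ) with hyk
  have hq0 : 0 ≤ q := Real.rpow_nonneg hx0 _
  have hxk0 : 0 ≤ xk := Real.rpow_nonneg hx0 _
  have hyk0 : 0 ≤ yk := Real.rpow_nonneg (norm_nonneg _) _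
  have hNin := pN_inner hC hP nd' hv12 hnd (hu12.trans (by norm_num)) u'
  have hTin := pT_inner (C := C) hP nd' hv12 hKu w'
  rw [← hN'] at hNin
  rw [← hT', ← hyk] at hTin
  have hN0 : 0 ≤ N' := le_trans (by positivity) hNin
  have hT0 : 0 ≤ T' := le_trans (by positivity) hTin
  have hunorm : ‖u'‖ ≤ C * E1 * N' := by
    have h1 : ‖u'‖ = C * E1 * (C⁻¹ * ‖u'‖ * Real.exp (-P.ε - P.K / 4)) := by
      have h2 : E1 * Real.exp (-P.ε - P.K / 4) = 1 := by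
        rw [hE1, ← Real.exp_add]
        have : P.ε + P.K / 4 + (-P.ε - P.K / 4) = 0 := by ring
        rw [this, Real.exp_zero]
      calc ‖u'‖ = (C * C⁻¹) * (E1 * Real.exp (-P.ε - P.K / 4)) * ‖u'‖ := by
            rw [h2, mul_inv_cancel₀ hC0.ne']; ring
        _ = C * E1 * (C⁻¹ * ‖u'‖ * Real.exp (-P.ε - P.K / 4)) := by ring
    rw [h1]
    exact mul_le_mul_of_nonneg_left hNin (by positivity)
  have hwnorm : yk * ‖w'‖ ≤ E5 * T' := by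
    have h1 : yk * ‖w'‖ = E5 * (yk * ‖w'‖ * Real.exp (-(5 * P.ε / 16))) := by
      have h2 : E5 * Real.exp (-(5 * P.ε / 16)) = 1 := by
        rw [hE5, ← Real.exp_add, add_neg_cancel, Real.exp_zero]
      calc yk * ‖w'‖ = (E5 * Real.exp (-(5 * P.ε / 16))) * (yk * ‖w'‖) := by rw [h2, one_mul]
        _ = E5 * (yk * ‖w'‖ * Real.exp (-(5 * P.ε / 16))) := by ring
    rw [h1]
    exact mul_le_mul_of_nonneg_left hTin hE5p.le
  have hqy : q ≤ 2 * C * yk := by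
    have h1 : q ≤ (2 * C * ‖u‖) ^ (1 - P.κ) := Real.rpow_le_rpow hx0 hxu hκ1.le
    have h2 : (2 * C * ‖u‖) ^ (1 - P.κ) = (2 * C) ^ (1 - P.κ) * yk := Real.mul_rpow (by positivity) (norm_nonneg _)
    have h3 : (2 * C) ^ (1 - P.κ) ≤ 2 * C := by
      calc (2 * C) ^ (1 - P.κ) ≤ (2 * C) ^ (1 : ℝ) :=
            Real.rpow_le_rpow_of_exponent_le (by linarith) (by linarith)
        _ = 2 * C := Real.rpow_one _
    rw [h2] at h1
    exact h1.trans (mul_le_mul_of_nonneg_right h3 hyk0)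
  have hxq : x = xk * q := by
    rw [hxk, hq, ← Real.rpow_add_of_nonneg hx0 hκ.le hκ1.le]
    have : P.κ + (1 - P.κ) = 1 := by ring
    rw [this, Real.rpow_one]
  have hqw : q * ‖w'‖ ≤ 2 * C * (E5 * T') := by
    calc q * ‖w'‖ ≤ 2 * C * yk * ‖w'‖ := mul_le_mul_of_nonneg_right hqy (norm_nonneg _)
      _ = 2 * C * (yk * ‖w'‖) := by ring
      _ ≤ 2 * C * (E5 * T') := mul_le_mul_of_nonneg_left hwnorm (by positivity)
  have hxw : x * ‖w'‖ ≤ xk * (2 * C * (E5 * T')) := by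
    calc x * ‖w'‖ = xk * (q * ‖w'‖) := by rw [← mul_assoc, ← hxq]
      _ ≤ xk * (2 * C * (E5 * T')) := mul_le_mul_of_nonneg_left hqw hxk0
  have hsnorm : ‖s'‖ ≤ 2 * C ^ 2 * E1 * N' + 4 * C ^ 4 * xk * E5 * T' := by
    have h1 := comp_s hC hT (s' := s') (t' := t') k2
    rw [← hu', ← hw', ← hx] at h1
    calc ‖s'‖ ≤ 2 * C * ‖u'‖ + 2 * C ^ 3 * x * ‖w'‖ := h1
      _ = 2 * C * ‖u'‖ + 2 * C ^ 3 * (x * ‖w'‖) := by ring
      _ ≤ 2 * C * (C * E1 * N') + 2 * C ^ 3 * (xk * (2 * C * (E5 * T'))) :=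
          add_le_add (mul_le_mul_of_nonneg_left hunorm (by positivity))
            (mul_le_mul_of_nonneg_left hxw (by positivity))
      _ = 2 * C ^ 2 * E1 * N' + 4 * C ^ 4 * xk * E5 * T' := by ring
  -- the Jacobian
  set J := ‖l * m - b * c‖ with hJ
  have hJ0 : 0 ≤ J := norm_nonneg _
  have hJ1 : J ≤ ‖l‖ * ‖m‖ + C ^ 2 * x := comp_J hC hT
  have hJ2 : J ≤ 2 * C ^ 2 := by
    have h1 : ‖l‖ * ‖m‖ ≤ C * C := mul_le_mul hl2 hm2 (norm_nonneg _) hC0.le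
    have h2 : C ^ 2 * x ≤ C ^ 2 := mul_le_of_le_one_right (sq_nonneg C) hx1
    calc J ≤ ‖l‖ * ‖m‖ + C ^ 2 * x := hJ1
      _ ≤ C * C + C ^ 2 := add_le_add h1 h2
      _ = 2 * C ^ 2 := by ring
  set mm := max N' T' with hmm
  have hNm : N' ≤ mm := le_max_left _ _
  have hTm : T' ≤ mm := le_max_right _ _
  have hm00 : 0 ≤ mm := hN0.trans hNm
  have hA0 : 0 ≤ A := by rw [hA]; positivity
  -- the normal piece
  have hnorm : A * pN nd P s t s' ≤ A' * (1 / 2 * mm) := by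
    have h1 := pN_outer hP nd ht hx1 s'
    have e1 : Real.exp (P.ε / 16 - P.K) * E1 * (4 * C ^ 4) ≤ 1 / 4 := by
      have h2 : Real.exp (P.ε / 16 - P.K) * E1 = Real.exp (17 * P.ε / 16 - 3 * P.K / 4) := by
        rw [hE1, ← Real.exp_add]; congr 1; ring
      have h3 : Real.exp (17 * P.ε / 16 - 3 * P.K / 4) ≤ Real.exp 2 * Real.exp (-(3 * P.K / 4)) := by
        rw [← Real.exp_add]
        exact Real.exp_le_exp.2 (by linarith)
      have h4 : Real.exp (3 * P.K / 4) * Real.exp (-(3 * P.K / 4)) = 1 := by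
        rw [← Real.exp_add, add_neg_cancel, Real.exp_zero]
      have h5 : 16 * C ^ 4 * Real.exp 2 * Real.exp (-(3 * P.K / 4)) ≤ 1 := by
        calc 16 * C ^ 4 * Real.exp 2 * Real.exp (-(3 * P.K / 4)) ≤
              Real.exp (3 * P.K / 4) * Real.exp (-(3 * P.K / 4)) :=
              mul_le_mul_of_nonneg_right hP.K_ge (Real.exp_pos _).le
          _ = 1 := h4
      rw [h2]
      have hC4 : 0 < 4 * C ^ 4 := by positivity
      calc Real.exp (17 * P.ε / 16 - 3 * P.K / 4) * (4 * C ^ 4) ≤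
            Real.exp 2 * Real.exp (-(3 * P.K / 4)) * (4 * C ^ 4) := mul_le_mul_of_nonneg_right h3 hC4.le
        _ = (16 * C ^ 4 * Real.exp 2 * Real.exp (-(3 * P.K / 4))) / 4 := by ring
        _ ≤ 1 / 4 := by linarith
    have e2 : Real.exp (P.ε / 16 - P.K) * E5 ≤ 3 := by
      rw [hE5, ← Real.exp_add]
      have h2 : Real.exp (P.ε / 16 - P.K + 5 * P.ε / 16) ≤ Real.exp 1 := Real.exp_le_exp.2 (by linarith)
      have h3 := Real.exp_one_lt_d9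
      linarith
    have e3 : Real.exp (P.ε / 16 - P.K) * E5 * (8 * C ^ 6 * xk) ≤ 1 / 4 := by
      calc Real.exp (P.ε / 16 - P.K) * E5 * (8 * C ^ 6 * xk) ≤ 3 * (8 * C ^ 6 * xk) :=
            mul_le_mul_of_nonneg_right e2 (by positivity)
        _ = 24 * C ^ 6 * xk := by ring
        _ ≤ 1 / 4 := k4
    have hexp0 : 0 ≤ Real.exp (P.ε / 16 - P.K) := (Real.exp_pos _).le
    calc A * pN nd P s t s' ≤ A * (‖s'‖ * Real.exp (P.ε / 16 - P.K)) := mul_le_mul_of_nonneg_left h1 hA0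
      _ = A' * (J * (‖s'‖ * Real.exp (P.ε / 16 - P.K))) := by rw [hA]; ring
      _ ≤ A' * (2 * C ^ 2 * ((2 * C ^ 2 * E1 * N' + 4 * C ^ 4 * xk * E5 * T') * Real.exp (P.ε / 16 - P.K))) := by
          refine mul_le_mul_of_nonneg_left ?_ hA'
          refine mul_le_mul hJ2 ?_ (by positivity) (by positivity)
          exact mul_le_mul_of_nonneg_right hsnorm hexp0
      _ = A' * ((Real.exp (P.ε / 16 - P.K) * E1 * (4 * C ^ 4)) * N' +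
            (Real.exp (P.ε / 16 - P.K) * E5 * (8 * C ^ 6 * xk)) * T') := by ring
      _ ≤ A' * (1 / 4 * mm + 1 / 4 * mm) := by
          refine mul_le_mul_of_nonneg_left ?_ hA'
          refine add_le_add ?_ ?_
          · exact mul_le_mul e1 hNm hN0 (by norm_num)
          · exact mul_le_mul e3 hTm hT0 (by norm_num)
      _ = A' * (1 / 2 * mm) := by ring
  -- the tangential piece
  have hD0 : 0 < 1 - C ^ 2 * x := by linarith
  set D := (1 - C ^ 2 * x)⁻¹ with hD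
  have hDp : 0 < D := inv_pos.2 hD0
  have hD1 : 1 ≤ D := by
    rw [hD]
    exact (one_le_inv₀ hD0).2 (sub_le_self 1 (mul_nonneg (sq_nonneg C) hx0))
  have hlq : ‖l‖ * q ≤ Real.exp (P.ε / 8) * D * yk := by
    have h1 : ‖l‖ = ‖l‖ ^ P.κ * ‖l‖ ^ (1 - P.κ) := by
      rw [← Real.rpow_add_of_nonneg (norm_nonneg _) hκ.le hκ1.le]
      have : P.κ + (1 - P.κ) = 1 := by ring
      rw [this, Real.rpow_one]
    have h2 : ‖l‖ ^ (1 - P.κ) * q = (‖l‖ * x) ^ (1 - P.κ) := (Real.mul_rpow (norm_nonneg _) hx0).symm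
    have h3 : ‖l‖ * x ≤ ‖u‖ * D := by
      rw [hD, ← div_eq_mul_inv, le_div_iff₀ hD0]
      exact hu1
    have h4 : (‖l‖ * x) ^ (1 - P.κ) ≤ yk * D := by
      calc (‖l‖ * x) ^ (1 - P.κ) ≤ (‖u‖ * D) ^ (1 - P.κ) := Real.rpow_le_rpow (by positivity) h3 hκ1.le
        _ = yk * D ^ (1 - P.κ) := Real.mul_rpow (norm_nonneg _) hDp.le
        _ ≤ yk * D ^ (1 : ℝ) := mul_le_mul_of_nonneg_left
            (Real.rpow_le_rpow_of_exponent_le hD1 (by linarith)) hyk0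
        _ = yk * D := by rw [Real.rpow_one]
    have h5 : ‖l‖ ^ P.κ ≤ Real.exp (P.ε / 8) := by
      calc ‖l‖ ^ P.κ ≤ C ^ P.κ := Real.rpow_le_rpow (norm_nonneg _) hl2 hκ.le
        _ = Real.exp (Real.log C * P.κ) := Real.rpow_def_of_pos hC0 _
        _ ≤ Real.exp (P.ε / 8) := Real.exp_le_exp.2 (by linarith [hP.κ_log, mul_comm (Real.log C) P.κ])
    calc ‖l‖ * q = ‖l‖ ^ P.κ * (‖l‖ ^ (1 - P.κ) * q) := by
          conv_lhs => rw [h1]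
          ring
      _ = ‖l‖ ^ P.κ * (‖l‖ * x) ^ (1 - P.κ) := by rw [h2]
      _ ≤ Real.exp (P.ε / 8) * (yk * D) := mul_le_mul h5 h4 (by positivity) (Real.exp_pos _).le
      _ = Real.exp (P.ε / 8) * D * yk := by ring
  have hmt : ‖m‖ * ‖t'‖ ≤ ‖w'‖ + C * ‖s'‖ := comp_t hT
  set W := ‖w'‖ + C * ‖s'‖ with hW
  have hW0 : 0 ≤ W := by positivity
  have htW : ‖t'‖ ≤ C * W := by
    have h1 : C⁻¹ * ‖t'‖ ≤ W := (mul_le_mul_of_nonneg_right hm1 (norm_nonneg _)).trans hmt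
    calc ‖t'‖ = C * (C⁻¹ * ‖t'‖) := by rw [← mul_assoc, mul_inv_cancel₀ hC0.ne', one_mul]
      _ ≤ C * W := mul_le_mul_of_nonneg_left h1 hC0.le
  have hJt : J * (q * ‖t'‖) ≤ Real.exp (P.ε / 8) * D * (E5 * T') + 2 * C ^ 4 * x * (E5 * T') +
      2 * C ^ 4 * q * ‖s'‖ := by
    have h1 : J * (q * ‖t'‖) ≤ (‖l‖ * ‖m‖ + C ^ 2 * x) * (q * ‖t'‖) := mul_le_mul_of_nonneg_right hJ1 (by positivity)
    have h2 : ‖l‖ * q * (‖m‖ * ‖t'‖) ≤ ‖l‖ * q * W := mul_le_mul_of_nonneg_left hmt (by positivity)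
    have h3 : C ^ 2 * x * q * ‖t'‖ ≤ C ^ 2 * x * q * (C * W) := mul_le_mul_of_nonneg_left htW (by positivity)
    have h4 : ‖l‖ * q * ‖w'‖ ≤ Real.exp (P.ε / 8) * D * (E5 * T') := by
      calc ‖l‖ * q * ‖w'‖ ≤ Real.exp (P.ε / 8) * D * yk * ‖w'‖ := mul_le_mul_of_nonneg_right hlq (norm_nonneg _)
        _ = Real.exp (P.ε / 8) * D * (yk * ‖w'‖) := by ring
        _ ≤ Real.exp (P.ε / 8) * D * (E5 * T') := mul_le_mul_of_nonneg_left hwnorm (by positivity)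
    have h5 : ‖l‖ * q * (C * ‖s'‖) ≤ C * q * (C * ‖s'‖) :=
      mul_le_mul_of_nonneg_right (mul_le_mul_of_nonneg_right hl2 hq0) (by positivity)
    have h6 : C ^ 3 * x * (q * ‖w'‖) ≤ C ^ 3 * x * (2 * C * (E5 * T')) := mul_le_mul_of_nonneg_left hqw (by positivity)
    have h7 : C ^ 4 * q * ‖s'‖ * x ≤ C ^ 4 * q * ‖s'‖ * 1 := mul_le_mul_of_nonneg_left hx1 (by positivity)
    have h8 : C ^ 2 * q * ‖s'‖ ≤ C ^ 4 * q * ‖s'‖ := by
      have h9 : C ^ 2 ≤ C ^ 4 := pow_le_pow_right₀ hC (by norm_num)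
      exact mul_le_mul_of_nonneg_right (mul_le_mul_of_nonneg_right h9 hq0) (norm_nonneg _)
    have e1 : (‖l‖ * ‖m‖ + C ^ 2 * x) * (q * ‖t'‖) = ‖l‖ * q * (‖m‖ * ‖t'‖) + C ^ 2 * x * q * ‖t'‖ := by ring
    have e2 : ‖l‖ * q * W + C ^ 2 * x * q * (C * W) =
        ‖l‖ * q * ‖w'‖ + ‖l‖ * q * (C * ‖s'‖) + C ^ 3 * x * (q * ‖w'‖) + C ^ 4 * q * ‖s'‖ * x := by rw [hW]; ring
    have e3 : C * q * (C * ‖s'‖) = C ^ 2 * q * ‖s'‖ := by ring
    have e4 : C ^ 3 * x * (2 * C * (E5 * T')) = 2 * C ^ 4 * x * (E5 * T') := by ring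
    have e5 : 2 * C ^ 4 * q * ‖s'‖ = C ^ 4 * q * ‖s'‖ + C ^ 4 * q * ‖s'‖ := by ring
    rw [e3] at h5
    rw [e4] at h6
    rw [e5]
    linarith
  have hexp15 : Real.exp (P.ε / 16 - P.ε) ≤ 1 := Real.exp_le_one_iff.2 (by linarith)
  have hexp150 : 0 < Real.exp (P.ε / 16 - P.ε) := Real.exp_pos _
  have hqs : 2 * C ^ 4 * q * ‖s'‖ ≤ 2 * C ^ 4 * q * (2 * C ^ 2 * E1 + 4 * C ^ 4 * xk * E5) * mm := by
    have h1 : ‖s'‖ ≤ (2 * C ^ 2 * E1 + 4 * C ^ 4 * xk * E5) * mm := by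
      calc ‖s'‖ ≤ 2 * C ^ 2 * E1 * N' + 4 * C ^ 4 * xk * E5 * T' := hsnorm
        _ ≤ 2 * C ^ 2 * E1 * mm + 4 * C ^ 4 * xk * E5 * mm :=
            add_le_add (mul_le_mul_of_nonneg_left hNm (by positivity))
              (mul_le_mul_of_nonneg_left hTm (by positivity))
        _ = (2 * C ^ 2 * E1 + 4 * C ^ 4 * xk * E5) * mm := by ring
    calc 2 * C ^ 4 * q * ‖s'‖ ≤ 2 * C ^ 4 * q * ((2 * C ^ 2 * E1 + 4 * C ^ 4 * xk * E5) * mm) :=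
          mul_le_mul_of_nonneg_left h1 (by positivity)
      _ = 2 * C ^ 4 * q * (2 * C ^ 2 * E1 + 4 * C ^ 4 * xk * E5) * mm := by ring
  set φ := Real.exp (-(P.ε / 2)) * D + 2 * C ^ 4 * x * E5 +
        2 * C ^ 4 * q * (2 * C ^ 2 * E1 + 4 * C ^ 4 * xk * E5) with hφ
  have htan : A * pT nd P s t t' ≤ A' * (φ * mm) := by
    have h1 := pT_outer hP nd ht hx1 t'
    rw [← hx, ← hq] at h1
    have hmain : Real.exp (P.ε / 16 - P.ε) * (Real.exp (P.ε / 8) * D * (E5 * T')) =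
        Real.exp (-(P.ε / 2)) * D * T' := by
      have h2 : Real.exp (P.ε / 16 - P.ε) * Real.exp (P.ε / 8) * E5 = Real.exp (-(P.ε / 2)) := by
        rw [hE5, ← Real.exp_add, ← Real.exp_add]; congr 1; ring
      rw [← h2]; ring
    calc A * pT nd P s t t' ≤ A * (q * ‖t'‖ * Real.exp (P.ε / 16 - P.ε)) := mul_le_mul_of_nonneg_left h1 hA0
      _ = A' * (Real.exp (P.ε / 16 - P.ε) * (J * (q * ‖t'‖))) := by rw [hA]; ring
      _ ≤ A' * (Real.exp (P.ε / 16 - P.ε) * (Real.exp (P.ε / 8) * D * (E5 * T') +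
            2 * C ^ 4 * x * (E5 * T') + 2 * C ^ 4 * q * ‖s'‖)) :=
          mul_le_mul_of_nonneg_left (mul_le_mul_of_nonneg_left hJt hexp150.le) hA'
      _ = A' * (Real.exp (-(P.ε / 2)) * D * T' +
            Real.exp (P.ε / 16 - P.ε) * (2 * C ^ 4 * x * (E5 * T') + 2 * C ^ 4 * q * ‖s'‖)) := by
          rw [← hmain]; ring
      _ ≤ A' * (Real.exp (-(P.ε / 2)) * D * mm +
            1 * (2 * C ^ 4 * x * (E5 * mm) + 2 * C ^ 4 * q * (2 * C ^ 2 * E1 + 4 * C ^ 4 * xk * E5) * mm)) := by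
          refine mul_le_mul_of_nonneg_left ?_ hA'
          refine add_le_add (mul_le_mul_of_nonneg_left hTm (by positivity)) ?_
          refine mul_le_mul hexp15 ?_ (by positivity) zero_le_one
          refine add_le_add ?_ hqs
          exact mul_le_mul_of_nonneg_left (mul_le_mul_of_nonneg_left hTm hE5p.le) (by positivity)
      _ = A' * (φ * mm) := by rw [hφ]; ring
  -- conclusion
  have hθ : max (1 / 2) φ < 1 := max_lt (by norm_num) k5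
  set θ := max (1 / 2) φ with hθd
  have hθ0 : 0 ≤ θ := le_trans (by norm_num) (le_max_left _ _)
  have htot : A * pM nd P (s, t) (s', t') ≤ A' * (θ * mm) := by
    show A * max (pN nd P s t s') (pT nd P s t t') ≤ A' * (θ * mm)
    rw [mul_max_of_nonneg _ _ hA0]
    refine max_le (hnorm.trans ?_) (htan.trans ?_)
    · exact mul_le_mul_of_nonneg_left (mul_le_mul_of_nonneg_right (le_max_left _ _) hm00) hA'
    · exact mul_le_mul_of_nonneg_left (mul_le_mul_of_nonneg_right (le_max_right _ _) hm00) hA'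
  have hgoal : A' * pM nd' P (u, v) (u', w') = A' * mm := rfl
  rw [hgoal]
  have hpos2 : 0 < A' * (θ * mm) := lt_of_lt_of_le hpos htot
  have hA'p : 0 < A' := by
    rcases hA'.eq_or_lt with h | h
    · rw [← h, zero_mul] at hpos2; exact absurd hpos2 (lt_irrefl _)
    · exact h
  have hmmp : 0 < mm := by
    rcases hm00.eq_or_lt with h | h
    · rw [← h, mul_zero, mul_zero] at hpos2; exact absurd hpos2 (lt_irrefl _)
    · exact h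
  refine lt_of_le_of_lt htot ?_
  refine mul_lt_mul_of_pos_left ?_ hA'p
  calc θ * mm < 1 * mm := mul_lt_mul_of_pos_right hθ hmmp
    _ = mm := one_mul _

end Pool.Agent.H14.PP

end
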