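import Pool.Agent.H94.CB.M21
import Pool.Agent.H94.CB.M37

/-! The parts of this file: H13.CV.DedeA, H13.CV.DedeB. -/

section

/-!
# CV DedeA: the functions regular where `x` is regular are integral over `ℂ[x]`

Let `A = Algebra.adjoin ℂ {x}` (isomorphic to `ℂ[X]`, so a principal ideal ring, hence integrally closed), `L = ℂ(x)` its fraction field, `C = integralClosure A K`: a Dedekind domain with fraction field `K`
(`integralClosure.isDedekindDomain A L K`, `integralClosure.isFractionRing_of_finite_extension`; or set up with `A = Polynomial ℂ` and `Algebra (Polynomial ℂ) K` given by `aeval x`).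
If `f ∈ K` is not in `C` then there is a height one prime `v` of `C` with `v.valuation K f > 1` (`IsDedekindDomain.HeightOneSpectrum.mem_integers_of_valuation_le_one`).  The valuation `v.valuation K` takes the values
in `ℤᵐ⁰`, it is surjective (`IsDedekindDomain.HeightOneSpectrum.valuation_exists_uniformizer`), it is `≤ 1` on `C` (so `0 ≤ ord` of `x` and of the constants).  Its additive form
`Pool.Agent.H62.FC.Place_add` (`Pool/Agent/H62/FC/Place.lean`: `Place_phi_exp`, `Place_phi_nonneg_iff`, `Place_add_apply`) gives the place; `residue_trdeg`: `Fin 0`: the polynomials in no variables are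
constants, which are units (`ord (aeval s p) = ord (algebraMap c) = 0` for `c ≠ 0`: `ord c ≥ 0` and `ord c⁻¹ ≥ 0`).
Conversely (`nonneg_of_isIntegral`): if `f` satisfies a monic equation with coefficients of order `≥ 0` and `ord f < 0` then `f ^ n` has order `n * oz f`, and the other terms have order `≥ (n - 1) * oz f`.
-/

set_option autoImplicit false

open Pool.Agent.H23.Fano (PrimeDivisorOver Form regularForms)

noncomputable section

namespace Pool.Agent.H13.CV

attribute [-instance] ProperSMul.toContinuousSMul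

variable {K : Type} [Field K] [Algebra ℂ K] {L : IntermediateField ℂ K} {x : K}

private theorem DedeA_pid (x : K) : IsPrincipalIdealRing (Algebra.adjoin ℂ {x}) := by
  have hr : ∀ a : Algebra.adjoin ℂ {x}, ∃ p : Polynomial ℂ, (a : K) = Polynomial.aeval x p := fun a => by
    exact (mem_poly_iff (x := x)).1 a.2
  let φ : Polynomial ℂ →+* Algebra.adjoin ℂ {x} :=
    (Polynomial.aeval (⟨x, Algebra.self_mem_adjoin_singleton ℂ x⟩ : Algebra.adjoin ℂ {x})).toRingHom
  have hφ : ∀ p : Polynomial ℂ, ((φ p : Algebra.adjoin ℂ {x}) : K) = Polynomial.aeval x p := fun p =>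
    (Polynomial.aeval_algebraMap_apply K (⟨x, Algebra.self_mem_adjoin_singleton ℂ x⟩ : Algebra.adjoin ℂ {x}) p).symm
  refine IsPrincipalIdealRing.of_surjective φ fun a => ?_
  obtain ⟨p, hp⟩ := hr a
  exact ⟨p, Subtype.ext ((hφ p).trans hp.symm)⟩

open scoped IntermediateField.algebraAdjoinAdjoin in
theorem exists_place_of_not_integral (hL : Gen L x) [FiniteDimensional L K] {f : K} (hf : ¬ IsIntegral (Algebra.adjoin ℂ {x}) f) :
    ∃ E : Place K, 0 ≤ E.ord x ∧ E.ord f < 0 := by
  obtain ⟨htr, rfl⟩ := hL
  have hpid : IsPrincipalIdealRing (Algebra.adjoin ℂ {x}) := DedeA_pid x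
  have hded : IsDedekindDomain (Algebra.adjoin ℂ {x}) := inferInstance
  have hsep : Algebra.IsSeparable (IntermediateField.adjoin ℂ {x}) K :=
    Algebra.IsAlgebraic.isSeparable_of_perfectField
  have hC : IsDedekindDomain (integralClosure (Algebra.adjoin ℂ {x}) K) :=
    integralClosure.isDedekindDomain (Algebra.adjoin ℂ {x}) (IntermediateField.adjoin ℂ {x}) K
  have hfr : IsFractionRing (integralClosure (Algebra.adjoin ℂ {x}) K) K :=
    integralClosure.isFractionRing_of_finite_extension (IntermediateField.adjoin ℂ {x}) K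
  obtain ⟨v, hv⟩ : ∃ v : IsDedekindDomain.HeightOneSpectrum (integralClosure (Algebra.adjoin ℂ {x}) K),
      ¬ v.valuation K f ≤ 1 := by
    by_contra hcon
    push Not at hcon
    obtain ⟨y, hy⟩ := IsDedekindDomain.HeightOneSpectrum.mem_integers_of_valuation_le_one K f hcon
    refine hf ?_
    rw [← hy]
    exact y.2
  have hle : ∀ g : K, IsIntegral (Algebra.adjoin ℂ {x}) g → v.valuation K g ≤ 1 := fun g hg =>
    v.valuation_le_one (K := K) (⟨g, hg⟩ : integralClosure (Algebra.adjoin ℂ {x}) K)
  have hle' : ∀ g : K, g ∈ Algebra.adjoin ℂ {x} → v.valuation K g ≤ 1 := fun g hg =>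
    hle g (isIntegral_algebraMap (R := Algebra.adjoin ℂ {x}) (x := ⟨g, hg⟩))
  have hconst : ∀ c : ℂ, 0 ≤ Pool.Agent.H62.FC.Place_add (v.valuation K) (algebraMap ℂ K c) := fun c => by
    rw [Pool.Agent.H62.FC.Place_add_apply, Pool.Agent.H62.FC.Place_phi_nonneg_iff]
    exact hle' _ (Subalgebra.algebraMap_mem _ c)
  refine ⟨⟨Pool.Agent.H62.FC.Place_add (v.valuation K), hconst, ?_, ?_⟩, ?_, ?_⟩
  · obtain ⟨π, hπ⟩ := v.valuation_exists_uniformizer K
    refine ⟨π, ?_⟩
    rw [Pool.Agent.H62.FC.Place_add_apply, hπ, Pool.Agent.H62.FC.Place_phi_exp]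
    simp
  · refine ⟨fun i => i.elim0, fun i => i.elim0, fun p hp => ?_⟩
    have hemp : IsEmpty (Fin (1 - 1)) := inferInstanceAs (IsEmpty (Fin 0))
    have h1 := MvPolynomial.eq_C_of_isEmpty (σ := Fin (1 - 1)) p
    have hc : MvPolynomial.coeff 0 p ≠ 0 := by
      intro h0
      apply hp
      rw [h1, h0, map_zero]
    rw [h1, MvPolynomial.aeval_C]
    have h2 := hconst (MvPolynomial.coeff 0 p)
    have h3 := hconst (MvPolynomial.coeff 0 p)⁻¹
    have h4 : Pool.Agent.H62.FC.Place_add (v.valuation K) (algebraMap ℂ K (MvPolynomial.coeff 0 p)) +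
        Pool.Agent.H62.FC.Place_add (v.valuation K) (algebraMap ℂ K (MvPolynomial.coeff 0 p)⁻¹) = 0 := by
      rw [← AddValuation.map_mul, ← map_mul, mul_inv_cancel₀ hc, map_one, AddValuation.map_one]
    refine le_antisymm ?_ h2
    rw [← h4]
    exact le_add_of_nonneg_right h3
  · show 0 ≤ Pool.Agent.H62.FC.Place_add (v.valuation K) x
    rw [Pool.Agent.H62.FC.Place_add_apply, Pool.Agent.H62.FC.Place_phi_nonneg_iff]
    exact hle' x (Algebra.self_mem_adjoin_singleton ℂ x)
  · show Pool.Agent.H62.FC.Place_add (v.valuation K) f < 0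
    rw [Pool.Agent.H62.FC.Place_add_apply]
    refine lt_of_not_ge fun h => hv ?_
    exact Pool.Agent.H62.FC.Place_phi_nonneg_iff.1 h

theorem nonneg_of_isIntegral {f : K} (hf : IsIntegral (Algebra.adjoin ℂ {x}) f) {E : Place K} (hE : 0 ≤ E.ord x) : 0 ≤ E.ord f := by
  have hA : ∀ a : Algebra.adjoin ℂ {x}, (algebraMap (Algebra.adjoin ℂ {x}) K a) ∈ (AddValuation.toValuation E.ord).integer := fun a => by
    obtain ⟨p, hp⟩ := (mem_poly_iff (x := x)).1 a.2
    show 0 ≤ E.ord (a : K)
    rw [hp]
    exact nonneg_aeval hE p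
  let φ : Algebra.adjoin ℂ {x} →+* (AddValuation.toValuation E.ord).integer :=
    (algebraMap (Algebra.adjoin ℂ {x}) K).codRestrict (AddValuation.toValuation E.ord).integer hA
  have h1 : ((algebraMap (AddValuation.toValuation E.ord).integer K).comp φ).IsIntegralElem f := hf
  have h2 : IsIntegral (AddValuation.toValuation E.ord).integer f := h1.of_comp
  have h3 := (Valuation.integer.integers (AddValuation.toValuation E.ord)).mem_of_integral h2
  exact h3

theorem regAff_iff_isIntegral (hL : Gen L x) [FiniteDimensional L K] {f : K} : RegAff x f ↔ IsIntegral (Algebra.adjoin ℂ {x}) f := by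
  constructor
  · intro h
    by_contra hcon
    obtain ⟨E, h1, h2⟩ := exists_place_of_not_integral hL hcon
    exact absurd (h E h1) (not_le.mpr h2)
  · exact fun h E hE => nonneg_of_isIntegral h hE

end Pool.Agent.H13.CV

end
end

section

/-!
# CV DedeB: a basis over `ℂ[x]`

By `regAff_iff_isIntegral` the functions `f` with `RegAff x f` form the integral closure `C` of `A = ℂ[x]` in `K`.  `A` is a principal ideal domain with fraction field `L`, `K` is a finite separable
extension of `L` (characteristic `0`), so `C` is a free `A`-module of rank `n = finrank L K` (`IsIntegralClosure.module_free A L K C`, `IsIntegralClosure.rank`), and a basis of `C` over `A` is a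
basis of `K` over `L` (`Module.Basis.localizationLocalization`, `Module.Basis.localizationLocalization_span` or a direct argument: denominators).  The coordinates of `f ∈ K` with respect to this
basis are in `A` if and only if `f ∈ C`.
Instances: `Algebra (Algebra.adjoin ℂ {x}) K` (subalgebra), `IsFractionRing (Algebra.adjoin ℂ {x}) (IntermediateField.adjoin ℂ {x})` is an instance in Mathlib
(`Mathlib/FieldTheory/IntermediateField/Adjoin/Algebra.lean`); start with `obtain rfl := hL.eq` (`subst`).
-/

set_option autoImplicit false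

open Pool.Agent.H23.Fano (PrimeDivisorOver Form regularForms)

noncomputable section

namespace Pool.Agent.H13.CV

attribute [-instance] ProperSMul.toContinuousSMul

attribute [-instance] Subalgebra.isScalarTower_left

variable {K : Type} [Field K] [Algebra ℂ K] {L : IntermediateField ℂ K} {x : K}

private theorem dedeB_pir (x : K) : IsPrincipalIdealRing (Algebra.adjoin ℂ {x}) := by
  let f : Polynomial ℂ →ₐ[ℂ] Algebra.adjoin ℂ {x} :=
    (Polynomial.aeval x).codRestrict (Algebra.adjoin ℂ {x}) (fun p => Polynomial.aeval_mem_adjoin_singleton ℂ x)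
  have hf : Function.Surjective f := by
    rintro ⟨c, hc⟩
    rw [Algebra.adjoin_singleton_eq_range_aeval] at hc
    obtain ⟨p, hp⟩ := hc
    exact ⟨p, Subtype.ext hp⟩
  exact IsPrincipalIdealRing.of_surjective f.toRingHom hf

open scoped IntermediateField.algebraAdjoinAdjoin nonZeroDivisors in
private theorem dedeB_aux (hL : Gen (IntermediateField.adjoin ℂ {x}) x) [FiniteDimensional (IntermediateField.adjoin ℂ {x}) K] :
    ∃ w : Module.Basis (Fin (Module.finrank (IntermediateField.adjoin ℂ {x}) K)) (IntermediateField.adjoin ℂ {x}) K, AffB x w := by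
  haveI hpir : IsPrincipalIdealRing (Algebra.adjoin ℂ {x}) := dedeB_pir x
  haveI hfree : Module.Free (Algebra.adjoin ℂ {x}) (integralClosure (Algebra.adjoin ℂ {x}) K) :=
    IsIntegralClosure.module_free (Algebra.adjoin ℂ {x}) (IntermediateField.adjoin ℂ {x}) K (integralClosure (Algebra.adjoin ℂ {x}) K)
  haveI hnoe : IsNoetherian (Algebra.adjoin ℂ {x}) (integralClosure (Algebra.adjoin ℂ {x}) K) :=
    IsIntegralClosure.isNoetherian (Algebra.adjoin ℂ {x}) (IntermediateField.adjoin ℂ {x}) K (integralClosure (Algebra.adjoin ℂ {x}) K)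
  have hrank := IsIntegralClosure.rank (Algebra.adjoin ℂ {x}) (IntermediateField.adjoin ℂ {x}) K (integralClosure (Algebra.adjoin ℂ {x}) K)
  haveI hloc : IsLocalization (Algebra.algebraMapSubmonoid (integralClosure (Algebra.adjoin ℂ {x}) K) (Algebra.adjoin ℂ {x})⁰) K :=
    IsIntegralClosure.isLocalization (Algebra.adjoin ℂ {x}) (IntermediateField.adjoin ℂ {x}) K (integralClosure (Algebra.adjoin ℂ {x}) K)
  let b : Module.Basis (Fin (Module.finrank (IntermediateField.adjoin ℂ {x}) K)) (Algebra.adjoin ℂ {x}) (integralClosure (Algebra.adjoin ℂ {x}) K) :=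
    Module.finBasisOfFinrankEq _ _ hrank
  refine ⟨b.localizationLocalization (IntermediateField.adjoin ℂ {x}) (Algebra.adjoin ℂ {x})⁰ K, fun f => ?_⟩
  rw [regAff_iff_isIntegral hL]
  constructor
  · intro hf i
    have h1 := b.localizationLocalization_repr_algebraMap (IntermediateField.adjoin ℂ {x}) (Algebra.adjoin ℂ {x})⁰ K
      (⟨f, hf⟩ : integralClosure (Algebra.adjoin ℂ {x}) K) i
    have h2 : algebraMap (integralClosure (Algebra.adjoin ℂ {x}) K) K ⟨f, hf⟩ = f := rfl
    rw [h2] at h1
    rw [h1]
    exact (b.repr ⟨f, hf⟩ i).2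
  · intro hf
    rw [← (b.localizationLocalization (IntermediateField.adjoin ℂ {x}) (Algebra.adjoin ℂ {x})⁰ K).sum_repr f]
    refine IsIntegral.sum _ fun i _ => ?_
    rw [Module.Basis.localizationLocalization_apply]
    have h3 : ((b.localizationLocalization (IntermediateField.adjoin ℂ {x}) (Algebra.adjoin ℂ {x})⁰ K).repr f i) •
        algebraMap (integralClosure (Algebra.adjoin ℂ {x}) K) K (b i) =
        algebraMap (Algebra.adjoin ℂ {x}) K ⟨_, hf i⟩ * algebraMap (integralClosure (Algebra.adjoin ℂ {x}) K) K (b i) := by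
      rw [Algebra.smul_def]
      rfl
    rw [h3]
    exact isIntegral_algebraMap.mul (b i).2

theorem exists_affB (hL : Gen L x) [FiniteDimensional L K] : ∃ w : Module.Basis (Fin (Module.finrank L K)) L K, AffB x w := by
  obtain rfl := hL.eq
  exact dedeB_aux hL

end Pool.Agent.H13.CV

end
end
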