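import Pool.Agent.H94.CB.M04
import Pool.Agent.H94.CB.M20
import Pool.Agent.H94.CB.M22
import Pool.Agent.H94.CB.M52

/-! The parts of this file: H13.OT.Std, H14.PP.ConvNum, H14.PP.FormTrans, H36.BP.ExtA, H36.BPL.Brody2. -/

section

/-!
# Lifts bounded on discs and the characteristic

`F` is a lift (zeros allowed) of a curve on the disc of radius `R`, `‖F‖ ≤ 1`, `F 0 ≠ 0`; `F₀` is a lift without zeros.  Then the
mean value of `log ‖F₀‖` over the circle of radius `r < R` is at most `log ‖F₀ 0‖ - log ‖F 0‖` (Jensen's formula).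
-/

set_option autoImplicit false

namespace Pool.Agent.H13.OT

attribute [-instance] ProperSMul.toContinuousSMul

open Filter Topology Metric Real
open Pool.Agent.H17BP

variable {V : Type} [NormedAddCommGroup V] [NormedSpace ℂ V]

/-- the mean value of `log |φ|` over a circle is at least the value in the centre -/
theorem log_le_average {φ : ℂ → ℂ} {r : ℝ} (hr : 0 < r) (h : AnalyticOnNhd ℂ φ (closedBall 0 r)) (h0 : φ 0 ≠ 0) :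
    Real.log ‖φ 0‖ ≤ circleAverage (fun z => Real.log ‖φ z‖) 0 r := by
  have hrr : |r| = r := abs_of_pos hr
  have h1 : AnalyticOnNhd ℂ φ (closedBall 0 |r|) := by rwa [hrr]
  have h2 := h1.circleAverage_log_norm hr.ne' h0
  rw [h2]
  have h3 : 0 ≤ ∑ᶠ u, MeromorphicOn.divisor φ (closedBall 0 |r|) u * Real.log (r * ‖0 - u‖⁻¹) := by
    refine finsum_nonneg fun u => ?_
    by_cases hu : u ∈ closedBall (0 : ℂ) |r|
    · have h4 : (0 : ℤ) ≤ MeromorphicOn.divisor φ (closedBall 0 |r|) u :=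
        (MeromorphicOn.AnalyticOnNhd.divisor_nonneg h1) u
      have h5 : (0 : ℝ) ≤ MeromorphicOn.divisor φ (closedBall 0 |r|) u := by exact_mod_cast h4
      refine mul_nonneg h5 ?_
      by_cases hu0 : u = 0
      · simp [hu0]
      · apply Real.log_nonneg
        have h6 : 0 < ‖0 - u‖ := by simpa using hu0
        rw [← div_eq_mul_inv, le_div_iff₀ h6, one_mul]
        rw [mem_closedBall, dist_zero_right, hrr] at hu
        simpa using hu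
    · have : MeromorphicOn.divisor φ (closedBall 0 |r|) u = 0 := by
        exact Function.locallyFinsuppWithin.apply_eq_zero_of_notMem _ hu
      rw [this]
      simp
  linarith

theorem average_le {f F F₀ : ℂ → V} {ρ r : ℝ} (hr : 0 < r) (hrρ : r < ρ) (hF : DifferentiableOn ℂ F (ball 0 ρ))
    (hF1 : ∀ z ∈ ball (0 : ℂ) ρ, ‖F z‖ ≤ 1) (h0 : F 0 ≠ 0) (hFf : ∀ z ∈ ball (0 : ℂ) ρ, F z = 0 ∨ Pr (f z) (F z))
    (hF₀ : DifferentiableOn ℂ F₀ (ball 0 ρ)) (hF₀f : ∀ z ∈ ball (0 : ℂ) ρ, F₀ z ≠ 0 ∧ Pr (f z) (F₀ z)) :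
    circleAverage (fun z => Real.log ‖F₀ z‖) 0 r ≤ Real.log ‖F₀ 0‖ - Real.log ‖F 0‖ := by
  classical
  have hex : ∀ z : ℂ, ∃ a : ℂ, z ∈ ball (0 : ℂ) ρ → F z = a • F₀ z := by
    intro z
    by_cases hz : z ∈ ball (0 : ℂ) ρ
    · rcases hFf z hz with h | ⟨c, hc, h⟩
      · exact ⟨0, fun _ => by rw [h, zero_smul]⟩
      · obtain ⟨-, c', hc', h'⟩ := hF₀f z hz
        refine ⟨c⁻¹ * c', fun _ => ?_⟩
        rw [mul_smul, ← h', h, smul_smul, inv_mul_cancel₀ hc, one_smul]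
    · exact ⟨0, fun h => absurd h hz⟩
  choose φ heq using hex
  have hloc' : ∀ z₀ ∈ ball (0 : ℂ) ρ, AnalyticAt ℂ φ z₀ := by
    intro z₀ hz₀
    have hne : F₀ z₀ ≠ 0 := (hF₀f z₀ hz₀).1
    obtain ⟨ℓ, -, hℓ⟩ := exists_dual_vector ℂ (F₀ z₀) (norm_ne_zero_iff.2 hne)
    have hℓ0 : ℓ (F₀ z₀) ≠ 0 := by
      rw [hℓ]
      exact Complex.ofReal_ne_zero.2 (norm_ne_zero_iff.2 hne)
    have hnhds : ball (0 : ℂ) ρ ∈ 𝓝 z₀ := isOpen_ball.mem_nhds hz₀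
    have ha : AnalyticAt ℂ (fun z => ℓ (F z)) z₀ := by
      have h1 : DifferentiableOn ℂ (fun z => ℓ (F z)) (ball 0 ρ) := fun z hz =>
        (ℓ.differentiableAt.comp_differentiableWithinAt z (hF z hz))
      exact h1.analyticAt hnhds
    have ha₀ : AnalyticAt ℂ (fun z => ℓ (F₀ z)) z₀ := by
      have h1 : DifferentiableOn ℂ (fun z => ℓ (F₀ z)) (ball 0 ρ) := fun z hz =>
        (ℓ.differentiableAt.comp_differentiableWithinAt z (hF₀ z hz))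
      exact h1.analyticAt hnhds
    refine (ha.div ha₀ hℓ0).congr ?_
    filter_upwards [hnhds, ha₀.continuousAt.eventually_ne hℓ0] with z hz h1
    simp only [Pi.div_apply]
    rw [heq z hz, map_smul, smul_eq_mul, mul_div_cancel_right₀ _ h1]
  have hnorm : ∀ z ∈ ball (0 : ℂ) ρ, ‖φ z‖ * ‖F₀ z‖ ≤ 1 := by
    intro z hz
    rw [← norm_smul, ← heq z hz]
    exact hF1 z hz
  have h0m : (0 : ℂ) ∈ ball (0 : ℂ) ρ := mem_ball_self (hr.trans hrρ)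
  have hφ0 : φ 0 ≠ 0 := by
    intro h
    apply h0
    rw [heq 0 h0m, h, zero_smul]
  have hsub : closedBall (0 : ℂ) r ⊆ ball 0 ρ := closedBall_subset_ball hrρ
  have hsph : sphere (0 : ℂ) |r| ⊆ ball 0 ρ := by
    rw [abs_of_pos hr]
    exact sphere_subset_closedBall.trans hsub
  have hφan : AnalyticOnNhd ℂ φ (closedBall 0 r) := fun z hz => hloc' z (hsub hz)
  have hφsp : AnalyticOnNhd ℂ φ (sphere 0 |r|) := fun z hz => hloc' z (hsph hz)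
  have hJ := log_le_average hr hφan hφ0
  -- the zeros of `φ` on the circle
  set f₁ : ℂ → ℝ := fun z => if φ z = 0 then -Real.log ‖F₀ z‖ else Real.log ‖φ z‖ with hf₁
  have hcod : (fun z => Real.log ‖φ z‖) =ᶠ[codiscreteWithin (sphere (0 : ℂ) |r|)] f₁ := by
    have h1 : ∀ᶠ z in codiscreteWithin (closedBall (0 : ℂ) r), φ z ≠ 0 := by
      have h2 : φ ⁻¹' {0}ᶜ ∈ codiscreteWithin (closedBall (0 : ℂ) r) :=
        hφan.preimage_zero_mem_codiscreteWithin (x := 0) hφ0 (mem_closedBall_self hr.le)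
          (isConnected_closedBall hr.le)
      exact h2
    have h3 : ∀ᶠ z in codiscreteWithin (sphere (0 : ℂ) |r|), φ z ≠ 0 := by
      refine (codiscreteWithin_mono ?_) h1
      rw [abs_of_pos hr]
      exact sphere_subset_closedBall
    filter_upwards [h3] with z hz
    rw [hf₁]
    simp [hz]
  have hint : CircleIntegrable (fun z => Real.log ‖φ z‖) 0 r := hφsp.meromorphicOn.circleIntegrable_log_norm
  have hint₁ : CircleIntegrable f₁ 0 r := hint.congr_codiscreteWithin hcod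
  have havg : circleAverage (fun z => Real.log ‖φ z‖) 0 r = circleAverage f₁ 0 r :=
    circleAverage_congr_codiscreteWithin hcod hr.ne'
  have hHint : CircleIntegrable (fun z => Real.log ‖F₀ z‖) 0 r := by
    refine ContinuousOn.circleIntegrable' ?_
    exact ((hF₀.continuousOn.mono hsph).norm).log fun z hz => norm_ne_zero_iff.mpr (hF₀f z (hsph hz)).1
  have hle : circleAverage (fun z => Real.log ‖F₀ z‖) 0 r ≤ circleAverage (fun z => -f₁ z) 0 r := by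
    refine circleAverage_mono hHint hint₁.neg fun z hz => ?_
    by_cases h : φ z = 0
    · simp [hf₁, h]
    · have h1 : 0 < ‖φ z‖ := norm_pos_iff.mpr h
      have h2 : 0 < ‖F₀ z‖ := norm_pos_iff.mpr (hF₀f z (hsph hz)).1
      have h3 := hnorm z (hsph hz)
      have h4 : Real.log (‖φ z‖ * ‖F₀ z‖) ≤ 0 := Real.log_nonpos (by positivity) h3
      rw [Real.log_mul h1.ne' h2.ne'] at h4
      simp only [hf₁, h, if_false]
      linarith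
  have hneg : circleAverage (fun z => -f₁ z) 0 r = -circleAverage f₁ 0 r := by
    have h := circleAverage_fun_smul (a := (-1 : ℝ)) (f := f₁) (c := 0) (R := r)
    simpa using h
  have h5 : Real.log ‖F 0‖ = Real.log ‖φ 0‖ + Real.log ‖F₀ 0‖ := by
    rw [heq 0 h0m, norm_smul, Real.log_mul (norm_ne_zero_iff.mpr hφ0) (norm_ne_zero_iff.mpr (hF₀f 0 h0m).1)]
  rw [hneg, ← havg] at hle
  linarith

end Pool.Agent.H13.OT

end

section

/-!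
# BPm ConvNum: the numerical inequality behind the convexity

`P` with `ConvPar P`; `c₁ = exp (-K-1)/2`. Claim: there is `r > 0` such that for `‖s‖, ‖t‖ ≤ 1`,
`small nd (s,t) ≤ r`, `s ≠ 0`, `s' ≠ 0`, (`nd = true → t ≠ 0`), `A ≥ 4ε(‖s'‖^2 + ‖t'‖^2)` and
`pT nd P s t t' ≤ pN nd P s t s'`:
`A - ε‖s'‖^2 - K‖t'‖^2 + e M κ^2 ‖s‖^(2κ-2) ‖s'‖^2/(1 + M‖s‖^(2κ))^2 > 0`.

Note `(1 + M‖s‖^(2κ))^e ≤ (1+M)^e ≤ exp (ε/16)` for `‖s‖ ≤ 1` (`e_log`).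
Step 1: `c₁ ‖t'‖ ≤ ‖s‖^(κ-1) ‖s'‖`. If `nd = false`: `pT ≤ pN` gives
`‖s‖^(1-κ) ‖t'‖ exp (-ε) ≤ ‖s'‖ exp (ε/16)`. If `nd = true`:
`‖s‖^(1-κ) ‖t'‖ exp (-ε - K) ≤ ‖t‖^(1-κ) ‖s'‖ exp (ε/16) ≤ ‖s'‖ exp (ε/16)`. In both cases
`‖s‖^(1-κ) ‖t'‖ ≤ exp (K + 17ε/16) ‖s'‖ ≤ 2 exp (K+1) ‖s'‖ = c₁⁻¹ ‖s'‖`, because
`exp (1/16) ≤ 2`, `ε ≤ 1`.
Step 2, case `M‖s‖^(2κ) ≤ 1`: the last term is at least `e M κ^2 (c₁‖t'‖)^2/4 ≥ K ‖t'‖^2` by `main`
(`‖s‖^(2κ-2)‖s'‖^2 = (‖s‖^(κ-1)‖s'‖)^2`), and `A - ε‖s'‖^2 ≥ 3ε‖s'‖^2 > 0`.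
Step 3, case `M‖s‖^(2κ) > 1`: `‖s‖ > s₁ := M^(-1/(2κ))`, `0 < s₁ ≤ 1`. Let `r < s₁`. Then
`nd = true` and `‖t‖ ≤ r/s₁`. From `pT ≤ pN`:
`‖s‖^(1-κ)‖t'‖ exp (-ε-K) ≤ ‖t‖^(1-κ)‖s'‖ exp (ε/16)` so
`‖t'‖ ≤ 2 exp (K+1) (r/s₁)^(1-κ) s₁^(κ-1) ‖s'‖`; choose `r` such that the factor
`η = 2 exp (K+1) (r/s₁^2)^(1-κ)` satisfies `K η^2 ≤ ε`. Then `K‖t'‖^2 ≤ ε‖s'‖^2`, the last term is
`≥ 0` and `A - ε‖s'‖^2 - ε‖s'‖^2 ≥ 2ε‖s'‖^2 > 0`.
-/

open Topology Filter Metric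

namespace Pool.Agent.H14.PP

attribute [-instance] ProperSMul.toContinuousSMul

private theorem ConvNum_up {P : Par} (hP : ConvPar P) {a : ℝ} (ha0 : 0 ≤ a) (ha : a ≤ 1) :
    (1 + P.M * a ^ (2 * P.κ)) ^ P.e ≤ Real.exp (P.ε / 16) := by
  have hM : 0 ≤ P.M := le_trans zero_le_one hP.M_ge
  have h1 : a ^ (2 * P.κ) ≤ 1 := Real.rpow_le_one ha0 ha (by linarith [hP.κ_pos])
  have h0 : 0 ≤ a ^ (2 * P.κ) := Real.rpow_nonneg ha0 _
  have h2 : P.M * a ^ (2 * P.κ) ≤ P.M := mul_le_of_le_one_right hM h1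
  have h3 : 0 ≤ P.M * a ^ (2 * P.κ) := mul_nonneg hM h0
  calc (1 + P.M * a ^ (2 * P.κ)) ^ P.e ≤ (1 + P.M) ^ P.e :=
        Real.rpow_le_rpow (by linarith) (by linarith) hP.e_pos.le
    _ = Real.exp (Real.log (1 + P.M) * P.e) := Real.rpow_def_of_pos (by linarith) _
    _ ≤ Real.exp (P.ε / 16) := by
        apply Real.exp_le_exp.mpr
        have := hP.e_log
        linarith

private theorem ConvNum_lo {P : Par} (hP : ConvPar P) {a : ℝ} (ha0 : 0 ≤ a) :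
    1 ≤ (1 + P.M * a ^ (2 * P.κ)) ^ P.e := by
  have hM : 0 ≤ P.M := le_trans zero_le_one hP.M_ge
  have h0 : 0 ≤ a ^ (2 * P.κ) := Real.rpow_nonneg ha0 _
  have h3 : 0 ≤ P.M * a ^ (2 * P.κ) := mul_nonneg hM h0
  exact Real.one_le_rpow (by linarith) hP.e_pos.le

private theorem ConvNum_exp {P : Par} (hP : ConvPar P) :
    Real.exp (P.ε / 16) ≤ 2 * Real.exp (P.K + 1) * (Real.exp (-P.ε) * Real.exp (-P.K)) := by
  have h1 : Real.exp (1 / 16) ≤ 2 := by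
    have h2 : (1 : ℝ) / 16 ≤ Real.log 2 := by
      have := Real.log_two_gt_d9
      linarith
    calc Real.exp (1 / 16) ≤ Real.exp (Real.log 2) := Real.exp_le_exp.mpr h2
      _ = 2 := Real.exp_log (by norm_num)
  have h2 : 2 * Real.exp (P.K + 1) * (Real.exp (-P.ε) * Real.exp (-P.K)) =
      2 * Real.exp (1 - P.ε) := by
    rw [mul_assoc, ← Real.exp_add, ← Real.exp_add]
    congr 2
    ring
  have h3 : Real.exp (P.ε / 16) ≤ Real.exp (1 / 16) * Real.exp (1 - P.ε) := by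
    rw [← Real.exp_add]
    apply Real.exp_le_exp.mpr
    have := hP.ε_le
    linarith
  rw [h2]
  exact h3.trans (mul_le_mul_of_nonneg_right h1 (Real.exp_pos _).le)

private theorem ConvNum_key {P : Par} (hP : ConvPar P) (nd : Bool) {s t s' t' : ℂ} (hs : ‖s‖ ≤ 1)
    (ht : ‖t‖ ≤ 1) (h : pT nd P s t t' ≤ pN nd P s t s') :
    ‖s‖ ^ (1 - P.κ) * ‖t'‖ ≤
      (if nd = true then ‖t‖ ^ (1 - P.κ) else 1) * (2 * Real.exp (P.K + 1)) * ‖s'‖ := by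
  have hsU := ConvNum_up hP (norm_nonneg s) hs
  have htL := ConvNum_lo hP (norm_nonneg t)
  have hsL := ConvNum_lo hP (norm_nonneg s)
  have hex := ConvNum_exp hP
  have hs2 : ‖s‖ ^ 2 ≤ 1 := pow_le_one₀ (norm_nonneg s) hs
  have ht2 : ‖t‖ ^ 2 ≤ 1 := pow_le_one₀ (norm_nonneg t) ht
  have e1 : Real.exp (-P.ε) ≤ Real.exp (-P.ε * ‖t‖ ^ 2) := by
    apply Real.exp_le_exp.mpr
    linarith [mul_le_of_le_one_right hP.ε_pos.le ht2]
  have e2 : Real.exp (-P.K) ≤ Real.exp (-P.K * ‖s‖ ^ 2) := by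
    apply Real.exp_le_exp.mpr
    linarith [mul_le_of_le_one_right hP.K_pos.le hs2]
  have e3 : Real.exp (-P.K * ‖t‖ ^ 2) ≤ 1 := by
    apply Real.exp_le_one_iff.mpr
    linarith [mul_nonneg hP.K_pos.le (sq_nonneg ‖t‖)]
  have e4 : Real.exp (-P.ε * ‖s‖ ^ 2) ≤ 1 := by
    apply Real.exp_le_one_iff.mpr
    linarith [mul_nonneg hP.ε_pos.le (sq_nonneg ‖s‖)]
  have e5 : Real.exp (-P.K) ≤ 1 := by
    apply Real.exp_le_one_iff.mpr
    linarith [hP.K_pos]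
  have hS : 0 ≤ ‖s‖ ^ (1 - P.κ) := Real.rpow_nonneg (norm_nonneg s) _
  have hT : 0 ≤ ‖t‖ ^ (1 - P.κ) := Real.rpow_nonneg (norm_nonneg t) _
  have hX : 0 ≤ ‖s‖ ^ (1 - P.κ) * ‖t'‖ := mul_nonneg hS (norm_nonneg t')
  have p1 : 0 < Real.exp (-P.ε) := Real.exp_pos _
  have p2 : 0 < Real.exp (-P.K) := Real.exp_pos _
  have p3 : 0 < Real.exp (-P.K * ‖s‖ ^ 2) := Real.exp_pos _
  have p4 : 0 < Real.exp (-P.ε * ‖t‖ ^ 2) := Real.exp_pos _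
  have p5 : 0 < Real.exp (-P.ε) * Real.exp (-P.K) := mul_pos p1 p2
  have p6 : 0 < Real.exp (P.ε / 16) := Real.exp_pos _
  set Y : ℝ := (if nd = true then ‖t‖ ^ (1 - P.κ) else 1) with hY
  have hY0 : 0 ≤ Y := by
    rw [hY]
    split_ifs
    · exact hT
    · exact zero_le_one
  have hmain : ‖s‖ ^ (1 - P.κ) * ‖t'‖ * (Real.exp (-P.ε) * Real.exp (-P.K)) ≤
      Y * ‖s'‖ * Real.exp (P.ε / 16) := by
    cases nd with
    | false =>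
      simp only [pT, pN, Bool.false_eq_true, if_false] at h
      have hY1 : Y = 1 := by
        rw [hY]
        simp
      rw [hY1]
      calc ‖s‖ ^ (1 - P.κ) * ‖t'‖ * (Real.exp (-P.ε) * Real.exp (-P.K))
          ≤ ‖s‖ ^ (1 - P.κ) * ‖t'‖ * (Real.exp (-P.ε) * 1) :=
            mul_le_mul_of_nonneg_left (mul_le_mul_of_nonneg_left e5 p1.le) hX
        _ ≤ ‖s‖ ^ (1 - P.κ) * ‖t'‖ * Real.exp (-P.ε * ‖t‖ ^ 2) := by
            rw [mul_one]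
            exact mul_le_mul_of_nonneg_left e1 hX
        _ ≤ 1 * ‖s'‖ * (1 + P.M * ‖s‖ ^ (2 * P.κ)) ^ P.e * Real.exp (-P.K * ‖t‖ ^ 2) := h
        _ ≤ 1 * ‖s'‖ * Real.exp (P.ε / 16) * 1 := by
            refine mul_le_mul ?_ e3 (Real.exp_pos _).le (by positivity)
            exact mul_le_mul_of_nonneg_left hsU (by positivity)
        _ = 1 * ‖s'‖ * Real.exp (P.ε / 16) := by ring
    | true =>
      simp only [pT, pN, if_true] at h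
      have hY1 : Y = ‖t‖ ^ (1 - P.κ) := by
        rw [hY]
        simp
      rw [hY1]
      calc ‖s‖ ^ (1 - P.κ) * ‖t'‖ * (Real.exp (-P.ε) * Real.exp (-P.K))
          = ‖s‖ ^ (1 - P.κ) * Real.exp (-P.ε) * ‖t'‖ * 1 * Real.exp (-P.K) := by ring
        _ ≤ ‖s‖ ^ (1 - P.κ) * Real.exp (-P.ε * ‖t‖ ^ 2) * ‖t'‖ *
            (1 + P.M * ‖t‖ ^ (2 * P.κ)) ^ P.e * Real.exp (-P.K * ‖s‖ ^ 2) := by
            refine mul_le_mul ?_ e2 p2.le (by positivity)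
            refine mul_le_mul ?_ htL zero_le_one (by positivity)
            exact mul_le_mul_of_nonneg_right (mul_le_mul_of_nonneg_left e1 hS) (norm_nonneg _)
        _ ≤ ‖t‖ ^ (1 - P.κ) * Real.exp (-P.ε * ‖s‖ ^ 2) * ‖s'‖ *
            (1 + P.M * ‖s‖ ^ (2 * P.κ)) ^ P.e * Real.exp (-P.K * ‖t‖ ^ 2) := h
        _ ≤ ‖t‖ ^ (1 - P.κ) * 1 * ‖s'‖ * Real.exp (P.ε / 16) * 1 := by
            refine mul_le_mul ?_ e3 (Real.exp_pos _).le (by positivity)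
            refine mul_le_mul ?_ hsU (by linarith) (by positivity)
            exact mul_le_mul_of_nonneg_right (mul_le_mul_of_nonneg_left e4 hT) (norm_nonneg _)
        _ = ‖t‖ ^ (1 - P.κ) * ‖s'‖ * Real.exp (P.ε / 16) := by ring
  have h3 : ‖s‖ ^ (1 - P.κ) * ‖t'‖ * (Real.exp (-P.ε) * Real.exp (-P.K)) ≤
      (Y * (2 * Real.exp (P.K + 1)) * ‖s'‖) * (Real.exp (-P.ε) * Real.exp (-P.K)) := by
    calc _ ≤ _ := hmain
      _ ≤ Y * ‖s'‖ * (2 * Real.exp (P.K + 1) * (Real.exp (-P.ε) * Real.exp (-P.K))) :=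
          mul_le_mul_of_nonneg_left hex (mul_nonneg hY0 (norm_nonneg _))
      _ = _ := by ring
  exact le_of_mul_le_mul_right h3 p5

theorem conv_num {P : Par} (hP : ConvPar P) :
    ∃ r : ℝ, 0 < r ∧ r ≤ 1 ∧ ∀ (nd : Bool) (s t s' t' : ℂ) (A : ℝ), ‖s‖ ≤ 1 → ‖t‖ ≤ 1 →
      small nd (s, t) ≤ r → s ≠ 0 → s' ≠ 0 → (nd = true → t ≠ 0) →
      4 * P.ε * (‖s'‖ ^ 2 + ‖t'‖ ^ 2) ≤ A → pT nd P s t t' ≤ pN nd P s t s' →
      0 < A - P.ε * ‖s'‖ ^ 2 - P.K * ‖t'‖ ^ 2 +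
        P.e * P.M * P.κ ^ 2 * ‖s‖ ^ (2 * P.κ - 2) * ‖s'‖ ^ 2 / (1 + P.M * ‖s‖ ^ (2 * P.κ)) ^ 2 := by
  have hM0 : 0 < P.M := lt_of_lt_of_le one_pos hP.M_ge
  have hκ := hP.κ_pos
  have hκ4 := hP.κ_le
  have hε := hP.ε_pos
  have hK := hP.K_pos
  have he := hP.e_pos
  set s₁ : ℝ := P.M⁻¹ ^ (1 / (2 * P.κ)) with hs₁
  have hs₁0 : 0 < s₁ := Real.rpow_pos_of_pos (inv_pos.mpr hM0) _
  have hs₁1 : s₁ ≤ 1 := Real.rpow_le_one (inv_pos.mpr hM0).le (inv_le_one_of_one_le₀ hP.M_ge)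
    (by positivity)
  set E : ℝ := 2 * Real.exp (P.K + 1) with hE
  have hE0 : 0 < E := by positivity
  set δ : ℝ := min (1 / 2) (P.ε / (P.K * E ^ 2)) with hδ
  have hδ0 : 0 < δ := lt_min (by norm_num) (by positivity)
  have hδ1 : δ ≤ 1 / 2 := min_le_left _ _
  have hδ2 : P.K * E ^ 2 * δ ≤ P.ε := by
    have h1 : δ ≤ P.ε / (P.K * E ^ 2) := min_le_right _ _
    rw [le_div_iff₀ (by positivity)] at h1
    linarith
  have hr0 : 0 < s₁ ^ 2 * δ := by positivity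
  have hr1 : s₁ ^ 2 * δ < s₁ := by
    have h1 : s₁ ^ 2 ≤ s₁ := by
      rw [pow_two]
      exact mul_le_of_le_one_left hs₁0.le hs₁1
    have h2 : s₁ ^ 2 * δ ≤ s₁ ^ 2 * (1 / 2) := mul_le_mul_of_nonneg_left hδ1 (sq_nonneg _)
    linarith
  refine ⟨s₁ ^ 2 * δ, hr0, by linarith, ?_⟩
  intro nd s t s' t' A hs ht hsm hs0 hs'0 hnd hA hle
  have ha : 0 < ‖s‖ := norm_pos_iff.mpr hs0
  have hσ : 0 < ‖s'‖ := norm_pos_iff.mpr hs'0
  have hτ : 0 ≤ ‖t'‖ := norm_nonneg _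
  have hb : 0 ≤ ‖t‖ := norm_nonneg _
  have hkey := ConvNum_key hP nd hs ht hle
  have hlast : 0 ≤ P.e * P.M * P.κ ^ 2 * ‖s‖ ^ (2 * P.κ - 2) * ‖s'‖ ^ 2 /
      (1 + P.M * ‖s‖ ^ (2 * P.κ)) ^ 2 := by
    have := Real.rpow_nonneg ha.le (2 * P.κ - 2)
    positivity
  have hA2 : 4 * P.ε * ‖s'‖ ^ 2 ≤ A := by
    have : 0 ≤ 4 * P.ε * ‖t'‖ ^ 2 := by positivity
    linarith
  have hεσ : 0 < P.ε * ‖s'‖ ^ 2 := by positivity
  by_cases hc : P.M * ‖s‖ ^ (2 * P.κ) ≤ 1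
  · -- step 2
    have hY : (if nd = true then ‖t‖ ^ (1 - P.κ) else 1) ≤ (1 : ℝ) := by
      split_ifs
      · exact Real.rpow_le_one hb ht (by linarith)
      · exact le_rfl
    have h1 : ‖s‖ ^ (1 - P.κ) * ‖t'‖ ≤ E * ‖s'‖ := by
      calc _ ≤ _ := hkey
        _ ≤ 1 * E * ‖s'‖ := by
            refine mul_le_mul_of_nonneg_right (mul_le_mul_of_nonneg_right hY hE0.le) hσ.le
        _ = E * ‖s'‖ := by ring
    have h2 : ‖s‖ ^ (P.κ - 1) * ‖s‖ ^ (1 - P.κ) = 1 := by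
      rw [← Real.rpow_add ha]
      have : P.κ - 1 + (1 - P.κ) = 0 := by ring
      rw [this, Real.rpow_zero]
    have h3 : ‖t'‖ ≤ E * (‖s‖ ^ (P.κ - 1) * ‖s'‖) := by
      have h4 := mul_le_mul_of_nonneg_left h1 (Real.rpow_nonneg ha.le (P.κ - 1))
      calc ‖t'‖ = ‖s‖ ^ (P.κ - 1) * ‖s‖ ^ (1 - P.κ) * ‖t'‖ := by rw [h2, one_mul]
        _ = ‖s‖ ^ (P.κ - 1) * (‖s‖ ^ (1 - P.κ) * ‖t'‖) := by ring
        _ ≤ _ := h4
        _ = _ := by ring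
    have hexp : Real.exp (-P.K - 1) / 2 * E = 1 := by
      rw [hE]
      calc Real.exp (-P.K - 1) / 2 * (2 * Real.exp (P.K + 1)) =
          Real.exp (-P.K - 1) * Real.exp (P.K + 1) := by ring
        _ = Real.exp (-P.K - 1 + (P.K + 1)) := (Real.exp_add _ _).symm
        _ = 1 := by
            have : -P.K - 1 + (P.K + 1) = 0 := by ring
            rw [this, Real.exp_zero]
    set c₁ : ℝ := Real.exp (-P.K - 1) / 2 with hc₁
    have hc₁0 : 0 < c₁ := by positivity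
    have h5 : c₁ * ‖t'‖ ≤ ‖s‖ ^ (P.κ - 1) * ‖s'‖ := by
      calc c₁ * ‖t'‖ ≤ c₁ * (E * (‖s‖ ^ (P.κ - 1) * ‖s'‖)) := mul_le_mul_of_nonneg_left h3 hc₁0.le
        _ = c₁ * E * (‖s‖ ^ (P.κ - 1) * ‖s'‖) := by ring
        _ = _ := by rw [hexp, one_mul]
    have h6 : (c₁ * ‖t'‖) ^ 2 ≤ (‖s‖ ^ (P.κ - 1) * ‖s'‖) ^ 2 :=
      pow_le_pow_left₀ (by positivity) h5 2
    have h7 : (‖s‖ ^ (P.κ - 1)) ^ 2 = ‖s‖ ^ (2 * P.κ - 2) := by
      rw [← Real.rpow_natCast, ← Real.rpow_mul ha.le]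
      congr 1
      push_cast
      ring
    have h8 : (1 + P.M * ‖s‖ ^ (2 * P.κ)) ^ 2 ≤ 4 := by
      have h9 : 0 ≤ P.M * ‖s‖ ^ (2 * P.κ) := mul_nonneg hM0.le (Real.rpow_nonneg ha.le _)
      have h10 := pow_le_pow_left₀ (add_nonneg zero_le_one h9) (add_le_add_right hc 1) 2
      exact h10.trans (by norm_num)
    have h10 : P.K * ‖t'‖ ^ 2 ≤ P.e * P.M * P.κ ^ 2 * ‖s‖ ^ (2 * P.κ - 2) * ‖s'‖ ^ 2 /
        (1 + P.M * ‖s‖ ^ (2 * P.κ)) ^ 2 := by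
      have h11 : 0 < (1 + P.M * ‖s‖ ^ (2 * P.κ)) ^ 2 := by
        have h9 : 0 ≤ P.M * ‖s‖ ^ (2 * P.κ) := mul_nonneg hM0.le (Real.rpow_nonneg ha.le _)
        positivity
      rw [le_div_iff₀ h11]
      have hm := hP.main
      calc P.K * ‖t'‖ ^ 2 * (1 + P.M * ‖s‖ ^ (2 * P.κ)) ^ 2 ≤ P.K * ‖t'‖ ^ 2 * 4 :=
            mul_le_mul_of_nonneg_left h8 (by positivity)
        _ ≤ P.e * P.M * P.κ ^ 2 * c₁ ^ 2 / 4 * ‖t'‖ ^ 2 * 4 := by
            refine mul_le_mul_of_nonneg_right (mul_le_mul_of_nonneg_right hm (by positivity))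
              (by norm_num)
        _ = P.e * P.M * P.κ ^ 2 * (c₁ * ‖t'‖) ^ 2 := by ring
        _ ≤ P.e * P.M * P.κ ^ 2 * (‖s‖ ^ (P.κ - 1) * ‖s'‖) ^ 2 :=
            mul_le_mul_of_nonneg_left h6 (by positivity)
        _ = P.e * P.M * P.κ ^ 2 * ‖s‖ ^ (2 * P.κ - 2) * ‖s'‖ ^ 2 := by
            rw [mul_pow, h7]
            ring
    linarith
  · -- step 3
    push Not at hc
    have h1 : s₁ < ‖s‖ := by
      have h2 : P.M⁻¹ < ‖s‖ ^ (2 * P.κ) := by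
        rw [inv_lt_iff_one_lt_mul₀ hM0]
        linarith
      have h3 := Real.rpow_lt_rpow (inv_pos.mpr hM0).le h2 (z := 1 / (2 * P.κ)) (by positivity)
      rw [← Real.rpow_mul ha.le] at h3
      have h4 : 2 * P.κ * (1 / (2 * P.κ)) = 1 := by
        field_simp
      rw [h4, Real.rpow_one] at h3
      exact h3
    have hnd' : nd = true := by
      by_contra hn
      have hn2 : nd = false := by simpa using hn
      rw [hn2] at hsm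
      simp only [small, Bool.false_eq_true, if_false] at hsm
      linarith
    subst hnd'
    simp only [small, if_true] at hsm
    have hbr : ‖t‖ ≤ s₁ * δ := by
      have h2 : s₁ * ‖t‖ ≤ s₁ * (s₁ * δ) := by
        calc s₁ * ‖t‖ ≤ ‖s‖ * ‖t‖ := mul_le_mul_of_nonneg_right h1.le hb
          _ ≤ s₁ ^ 2 * δ := hsm
          _ = s₁ * (s₁ * δ) := by ring
      exact le_of_mul_le_mul_left h2 hs₁0
    simp only [if_true] at hkey
    have h2 : s₁ ^ (1 - P.κ) * ‖t'‖ ≤ s₁ ^ (1 - P.κ) * (δ ^ (1 - P.κ) * E * ‖s'‖) := by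
      calc s₁ ^ (1 - P.κ) * ‖t'‖ ≤ ‖s‖ ^ (1 - P.κ) * ‖t'‖ :=
            mul_le_mul_of_nonneg_right (Real.rpow_le_rpow hs₁0.le h1.le (by linarith)) hτ
        _ ≤ ‖t‖ ^ (1 - P.κ) * E * ‖s'‖ := hkey
        _ ≤ (s₁ * δ) ^ (1 - P.κ) * E * ‖s'‖ := by
            refine mul_le_mul_of_nonneg_right (mul_le_mul_of_nonneg_right ?_ hE0.le) hσ.le
            exact Real.rpow_le_rpow hb hbr (by linarith)
        _ = _ := by
            rw [Real.mul_rpow hs₁0.le hδ0.le]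
            ring
    have h3 : ‖t'‖ ≤ δ ^ (1 - P.κ) * E * ‖s'‖ :=
      le_of_mul_le_mul_left h2 (Real.rpow_pos_of_pos hs₁0 _)
    have h4 : ‖t'‖ ^ 2 ≤ (δ ^ (1 - P.κ) * E * ‖s'‖) ^ 2 := pow_le_pow_left₀ hτ h3 2
    have h5 : (δ ^ (1 - P.κ)) ^ 2 ≤ δ := by
      rw [← Real.rpow_natCast, ← Real.rpow_mul hδ0.le]
      calc δ ^ ((1 - P.κ) * ((2 : ℕ) : ℝ)) ≤ δ ^ (1 : ℝ) := by
            apply Real.rpow_le_rpow_of_exponent_ge hδ0 (by linarith)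
            push_cast
            linarith
        _ = δ := Real.rpow_one _
    have h6 : P.K * ‖t'‖ ^ 2 ≤ P.ε * ‖s'‖ ^ 2 := by
      calc P.K * ‖t'‖ ^ 2 ≤ P.K * (δ ^ (1 - P.κ) * E * ‖s'‖) ^ 2 :=
            mul_le_mul_of_nonneg_left h4 hK.le
        _ = P.K * E ^ 2 * (δ ^ (1 - P.κ)) ^ 2 * ‖s'‖ ^ 2 := by ring
        _ ≤ P.K * E ^ 2 * δ * ‖s'‖ ^ 2 := by
            refine mul_le_mul_of_nonneg_right (mul_le_mul_of_nonneg_left h5 (by positivity))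
              (by positivity)
        _ ≤ P.ε * ‖s'‖ ^ 2 := mul_le_mul_of_nonneg_right hδ2 (by positivity)
    linarith

end Pool.Agent.H14.PP

end

section

/-!
# BPm FormTrans: transformation of the coefficient of the form

`χ, χ'` charts, `‖p‖ < 2`, `χ.σ p ∈ K`, `χ.σ p ∈ χ'.U`, `τ = χ'.q ∘ χ.σ`. For `y` near `p`,
`χ.σ y ∈ X ∩ χ'.U`, so `χ.σ y = c y • χ'.σ (τ y)` with `c y ≠ 0`, `c` analytic near `p`
(`c y = ⟪e, χ.σ y⟫/⟪e, χ'.σ (τ y)⟫`, `e = χ'.σ (τ p)`).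
Let `x' = χ'.σ (τ p)`, `v₁ = Dχ'.σ(τ p)(1,0)`, `v₂ = Dχ'.σ(τ p)(0,1)`,
`Dτ(p)(1,0) = (l, c₁)`, `Dτ(p)(0,1) = (b, m₁)`. Then
`Dχ.σ(p)(1,0) = c_s x' + c (l v₁ + c₁ v₂)`, `Dχ.σ(p)(0,1) = c_t x' + c (b v₁ + m₁ v₂)`
(`c = c p`, `c_s, c_t` the partial derivatives).
`scale` (with the tangent vectors `l v₁ + c₁ v₂ + (c_s/c) x'` and `b v₁ + m₁ v₂ + (c_t/c) x'`; they are
tangent: derivatives at `0` of `z ↦ exp (z c_s/c) • χ'.σ (τ p + z (l, c₁))`, which is in `K` near `0`),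
`add_smul` and `det` give `c^j * aCoef Ω χ p = (l m₁ - c₁ b)^m * aCoef Ω χ' (τ p)`, so
`‖aCoef Ω χ p‖ = ‖jac‖^m ‖aCoef Ω χ' (τ p)‖ / ‖c‖^j`, and `‖χ.σ p‖ = ‖c‖ ‖x'‖`:
`ACoef Ω χ p = ‖jac‖ * ACoef Ω χ' (τ p)` (take `m`-th roots, `1 ≤ m`).
-/

open Topology Filter Metric

namespace Pool.Agent.H14.PP

attribute [-instance] ProperSMul.toContinuousSMul

open Pool.Agent.H36.BP

variable {N : ℕ} {X K T : Set (EN N)} {m j : ℕ}

private theorem FormTrans_tan_smul (hK : IsOpenPart X K) {x v : EN N} (h : Tan K x v) {c : ℂ}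
    (hc : c ≠ 0) : Tan K (c • x) (c • v) := by
  obtain ⟨F, hF, hF0, hFd⟩ := h
  refine ⟨fun z => c • F z, ⟨AnalyticAt.fun_smul analyticAt_const hF.1, ?_⟩, ?_, ?_⟩
  · filter_upwards [hF.2] with z hz
    exact hK.smul_mem _ hz c hc
  · show c • F 0 = c • x
    rw [hF0]
  · have h1 : HasDerivAt (fun z => c • F z) (c • deriv F 0) 0 :=
      hF.1.differentiableAt.hasDerivAt.const_smul c
    rw [h1.deriv, hFd]

/-- The lift: `χ.σ y = c y • χ'.σ (τ y)` near `p`, with `c` differentiable at `p`. -/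
private theorem FormTrans_lift (hX : IsCone X) (χ χ' : Chart X) {p : ℂ × ℂ}
    (hp : p ∈ ball (0 : ℂ × ℂ) 2) (hU : χ.σ p ∈ χ'.U) :
    ∃ (c : ℂ) (c' : (ℂ × ℂ) →L[ℂ] ℂ), c ≠ 0 ∧ χ'.q (χ.σ p) ∈ ball (0 : ℂ × ℂ) 2 ∧
      χ.σ p = c • χ'.σ (χ'.q (χ.σ p)) ∧
      ∀ w : ℂ × ℂ, fderiv ℂ χ.σ p w =
        c • fderiv ℂ χ'.σ (χ'.q (χ.σ p)) (fderiv ℂ (fun y => χ'.q (χ.σ y)) p w) +
          c' w • χ'.σ (χ'.q (χ.σ p)) := by
  obtain ⟨hτ, c0, hc0, hx⟩ := χ'.surj (χ.σ p) (χ.σ_mem p hp).1 hU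
  set x' : EN N := χ'.σ (χ'.q (χ.σ p)) with hx'
  have hx'0 : x' ≠ 0 := χ'.sigma_ne_zero hX hτ
  have hin : inner ℂ x' x' ≠ 0 := by
    rw [Ne, inner_self_eq_zero]
    exact hx'0
  have hτan : AnalyticAt ℂ (fun y => χ'.q (χ.σ y)) p :=
    AnalyticAt.comp (g := χ'.q) (f := χ.σ) (χ'.q_an _ hU) (χ.σ_an p hp)
  have hσ'an : AnalyticAt ℂ (fun y => χ'.σ (χ'.q (χ.σ y))) p :=
    AnalyticAt.comp (g := χ'.σ) (f := fun y => χ'.q (χ.σ y)) (χ'.σ_an _ hτ) hτan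
  have hnum : AnalyticAt ℂ (fun y => innerSL ℂ x' (χ.σ y)) p :=
    AnalyticAt.comp (g := fun v => innerSL ℂ x' v) (f := χ.σ)
      ((innerSL ℂ x').analyticAt _) (χ.σ_an p hp)
  have hden : AnalyticAt ℂ (fun y => innerSL ℂ x' (χ'.σ (χ'.q (χ.σ y)))) p :=
    AnalyticAt.comp (g := fun v => innerSL ℂ x' v) (f := fun y => χ'.σ (χ'.q (χ.σ y)))
      ((innerSL ℂ x').analyticAt _) hσ'an
  have hden0 : innerSL ℂ x' (χ'.σ (χ'.q (χ.σ p))) ≠ 0 := by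
    rw [← hx', innerSL_apply_apply]
    exact hin
  let C : ℂ × ℂ → ℂ := fun y => innerSL ℂ x' (χ.σ y) / innerSL ℂ x' (χ'.σ (χ'.q (χ.σ y)))
  have hC : AnalyticAt ℂ C p := hnum.div hden hden0
  have hCp : C p = c0 := by
    show innerSL ℂ x' (χ.σ p) / innerSL ℂ x' (χ'.σ (χ'.q (χ.σ p))) = c0
    rw [div_eq_iff hden0]
    conv_lhs => rw [hx]
    rw [map_smul, smul_eq_mul]
  have hev : ∀ᶠ y in 𝓝 p, χ.σ y = C y • χ'.σ (χ'.q (χ.σ y)) := by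
    have h1 : ∀ᶠ y in 𝓝 p, y ∈ ball (0 : ℂ × ℂ) 2 := isOpen_ball.mem_nhds hp
    have h2 : ∀ᶠ y in 𝓝 p, χ.σ y ∈ χ'.U :=
      (χ.σ_an p hp).continuousAt.eventually (χ'.isOpen_U.mem_nhds hU)
    have h3 : ∀ᶠ y in 𝓝 p, innerSL ℂ x' (χ'.σ (χ'.q (χ.σ y))) ≠ 0 :=
      hden.continuousAt.eventually_ne hden0
    filter_upwards [h1, h2, h3] with y hy1 hy2 hy3
    obtain ⟨-, b, hb, hxb⟩ := χ'.surj (χ.σ y) (χ.σ_mem y hy1).1 hy2
    have h4 : C y = b := by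
      show innerSL ℂ x' (χ.σ y) / innerSL ℂ x' (χ'.σ (χ'.q (χ.σ y))) = b
      rw [div_eq_iff hy3]
      conv_lhs => rw [hxb]
      rw [map_smul, smul_eq_mul]
    rw [h4]
    exact hxb
  refine ⟨c0, fderiv ℂ C p, hc0, hτ, hx, fun w => ?_⟩
  have hD1 : HasFDerivAt (fun y => χ'.σ (χ'.q (χ.σ y)))
      ((fderiv ℂ χ'.σ (χ'.q (χ.σ p))).comp (fderiv ℂ (fun y => χ'.q (χ.σ y)) p)) p :=
    HasFDerivAt.comp (g := χ'.σ) (f := fun y => χ'.q (χ.σ y)) p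
      (χ'.σ_an _ hτ).differentiableAt.hasFDerivAt hτan.differentiableAt.hasFDerivAt
  have hD2 : HasFDerivAt (fun y => C y • χ'.σ (χ'.q (χ.σ y)))
      (C p • ((fderiv ℂ χ'.σ (χ'.q (χ.σ p))).comp (fderiv ℂ (fun y => χ'.q (χ.σ y)) p)) +
        (fderiv ℂ C p).smulRight (χ'.σ (χ'.q (χ.σ p)))) p :=
    hC.differentiableAt.hasFDerivAt.smul hD1
  have hD3 : HasFDerivAt χ.σ
      (C p • ((fderiv ℂ χ'.σ (χ'.q (χ.σ p))).comp (fderiv ℂ (fun y => χ'.q (χ.σ y)) p)) +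
        (fderiv ℂ C p).smulRight (χ'.σ (χ'.q (χ.σ p)))) p :=
    hD2.congr_of_eventuallyEq hev
  rw [hD3.fderiv, hCp]
  rfl

private theorem FormTrans_pair (L : (ℂ × ℂ) →L[ℂ] EN N) (w : ℂ × ℂ) :
    L w = w.1 • L (1, 0) + w.2 • L (0, 1) := by
  rw [← map_smul, ← map_smul, ← map_add]
  congr 1
  ext
  · simp
  · simp

private theorem FormTrans_coef (hX : IsCone X) (hK : IsOpenPart X K) (Ω : Form K m j)
    (χ χ' : Chart X) {p : ℂ × ℂ} (hp : p ∈ ball (0 : ℂ × ℂ) 2) (hpK : χ.σ p ∈ K)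
    (hU : χ.σ p ∈ χ'.U) :
    ∃ c : ℂ, c ≠ 0 ∧ χ.σ p = c • χ'.σ (χ'.q (χ.σ p)) ∧
      c ^ j * aCoef Ω χ p =
        jac (fun y => χ'.q (χ.σ y)) p ^ m * aCoef Ω χ' (χ'.q (χ.σ p)) := by
  obtain ⟨c, c', hc, hτ, hx, hD⟩ := FormTrans_lift hX χ χ' hp hU
  refine ⟨c, hc, hx, ?_⟩
  have hx'K : χ'.σ (χ'.q (χ.σ p)) ∈ K := by
    have h1 := hK.smul_mem _ hpK c⁻¹ (inv_ne_zero hc)
    rw [hx, smul_smul, inv_mul_cancel₀ hc, one_smul] at h1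
    exact h1
  set x' : EN N := χ'.σ (χ'.q (χ.σ p)) with hx'
  set A : ℂ × ℂ := fderiv ℂ (fun y => χ'.q (χ.σ y)) p (1, 0) with hA
  set B : ℂ × ℂ := fderiv ℂ (fun y => χ'.q (χ.σ y)) p (0, 1) with hB
  have htA : Tan K x' (fderiv ℂ χ'.σ (χ'.q (χ.σ p)) A) := χ'.tan hK hτ hx'K A
  have htB : Tan K x' (fderiv ℂ χ'.σ (χ'.q (χ.σ p)) B) := χ'.tan hK hτ hx'K B
  have hV : fderiv ℂ χ.σ p (1, 0) =
      c • fderiv ℂ χ'.σ (χ'.q (χ.σ p)) A + (c' (1, 0) * c⁻¹) • (c • x') := by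
    rw [hD (1, 0), smul_smul, mul_assoc, inv_mul_cancel₀ hc, mul_one]
  have hW : fderiv ℂ χ.σ p (0, 1) =
      c • fderiv ℂ χ'.σ (χ'.q (χ.σ p)) B + (c' (0, 1) * c⁻¹) • (c • x') := by
    rw [hD (0, 1), smul_smul, mul_assoc, inv_mul_cancel₀ hc, mul_one]
  have hcx : c • x' ∈ K := hK.smul_mem _ hx'K c hc
  have h1 := Ω.add_smul (c • x') hcx _ _ (FormTrans_tan_smul hK htA hc)
    (FormTrans_tan_smul hK htB hc) (c' (1, 0) * c⁻¹) (c' (0, 1) * c⁻¹)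
  have h2 := Ω.scale x' hx'K _ _ htA htB c hc
  have h3 := Ω.det x' hx'K _ _ (χ'.tan hK hτ hx'K (1, 0)) (χ'.tan hK hτ hx'K (0, 1))
    A.1 A.2 B.1 B.2
  rw [← FormTrans_pair, ← FormTrans_pair] at h3
  have h4 : aCoef Ω χ p = Ω.toFun (c • x') (c • fderiv ℂ χ'.σ (χ'.q (χ.σ p)) A)
      (c • fderiv ℂ χ'.σ (χ'.q (χ.σ p)) B) := by
    rw [← h1, ← hV, ← hW, ← hx]
    rfl
  rw [h4, h2, h3]
  have h5 : jac (fun y => χ'.q (χ.σ y)) p = A.1 * B.2 - A.2 * B.1 := by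
    show A.1 * B.2 - B.1 * A.2 = _
    ring
  rw [h5]
  rfl

theorem ACoef_trans (hX : IsCone X) (hK : IsOpenPart X K) (hm : 1 ≤ m) (Ω : Form K m j)
    (χ χ' : Chart X) {p : ℂ × ℂ} (hp : p ∈ ball (0 : ℂ × ℂ) 2) (hpK : χ.σ p ∈ K)
    (hU : χ.σ p ∈ χ'.U) :
    ACoef Ω χ p = ‖jac (fun y => χ'.q (χ.σ y)) p‖ * ACoef Ω χ' (χ'.q (χ.σ p)) := by
  obtain ⟨c, hc, hx, hcoef⟩ := FormTrans_coef hX hK Ω χ χ' hp hpK hU
  have hmR : (0 : ℝ) < (m : ℝ) := by exact_mod_cast hm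
  have hcn : 0 < ‖c‖ := norm_pos_iff.2 hc
  have hnorm : ‖c‖ ^ j * ‖aCoef Ω χ p‖ =
      ‖jac (fun y => χ'.q (χ.σ y)) p‖ ^ m * ‖aCoef Ω χ' (χ'.q (χ.σ p))‖ := by
    have h1 := congrArg norm hcoef
    rw [norm_mul, norm_mul, norm_pow, norm_pow] at h1
    exact h1
  have hroot : (‖c‖ ^ j * ‖aCoef Ω χ p‖) ^ (1 / (m : ℝ)) =
      (‖jac (fun y => χ'.q (χ.σ y)) p‖ ^ m * ‖aCoef Ω χ' (χ'.q (χ.σ p))‖) ^ (1 / (m : ℝ)) := by
    rw [hnorm]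
  rw [Real.mul_rpow (by positivity) (norm_nonneg _), Real.mul_rpow (by positivity) (norm_nonneg _),
    ← Real.rpow_natCast ‖c‖ j, ← Real.rpow_natCast ‖jac (fun y => χ'.q (χ.σ y)) p‖ m,
    ← Real.rpow_mul hcn.le, ← Real.rpow_mul (norm_nonneg _)] at hroot
  have h1 : (m : ℝ) * (1 / (m : ℝ)) = 1 := by
    field_simp
  have h2 : (j : ℝ) * (1 / (m : ℝ)) = (j : ℝ) / m := by ring
  rw [h1, h2, Real.rpow_one] at hroot
  unfold ACoef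
  have h3 : ‖χ.σ p‖ = ‖c‖ * ‖χ'.σ (χ'.q (χ.σ p))‖ := by
    conv_lhs => rw [hx]
    rw [norm_smul]
  rw [h3, Real.mul_rpow hcn.le (norm_nonneg _)]
  calc ‖aCoef Ω χ p‖ ^ (1 / (m : ℝ)) * (‖c‖ ^ ((j : ℝ) / m) * ‖χ'.σ (χ'.q (χ.σ p))‖ ^ ((j : ℝ) / m))
      = (‖c‖ ^ ((j : ℝ) / m) * ‖aCoef Ω χ p‖ ^ (1 / (m : ℝ))) *
          ‖χ'.σ (χ'.q (χ.σ p))‖ ^ ((j : ℝ) / m) := by ring
    _ = ‖jac (fun y => χ'.q (χ.σ y)) p‖ * ‖aCoef Ω χ' (χ'.q (χ.σ p))‖ ^ (1 / (m : ℝ)) *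
          ‖χ'.σ (χ'.q (χ.σ p))‖ ^ ((j : ℝ) / m) := by rw [hroot]
    _ = _ := by ring

end Pool.Agent.H14.PP

end

section

/-!
# BP ExtA: growth at the puncture

`z ≠ 0`, `|z| < 1`, `z = exp w₀`, `R = log(1/|z|) = -Re w₀`.  The curve `ζ ↦ F(exp(w₀ + R ζ))` is defined for `|ζ| < 1` (`Re(w₀ + Rζ) < 0`); `mt_comp` with `φ ζ = exp(w₀ + Rζ)`, `|φ'(0)| = R|z|`.
-/

set_option autoImplicit false

namespace Pool.Agent.H36.BP

attribute [-instance] ProperSMul.toContinuousSMul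

open Filter Topology Metric

variable {N : ℕ}

variable {K B : Set (EN N)} {G : EN N → EN N → ℝ} {ρ : EN N → ℝ} {M : ℕ} {c₀ C : ℝ}

theorem growth (hM : MetricData K B G ρ M c₀ C) {L : ℝ} (hL : ∀ F, Curve K (ball 0 1) F → mt G F 0 ≤ L) {F : ℂ → EN N}
    (hF : Curve K (ball 0 1 \ {0}) F) {z : ℂ} (hz : z ≠ 0) (hz1 : ‖z‖ < 1) :
    mt G F z * (‖z‖ * Real.log (1 / ‖z‖)) ≤ L := by
  have hzp : 0 < ‖z‖ := norm_pos_iff.2 hz
  obtain ⟨R, hR⟩ : ∃ R : ℝ, R = Real.log (1 / ‖z‖) := ⟨_, rfl⟩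
  have hR0 : 0 < R := by
    rw [hR]
    exact Real.log_pos (by rw [lt_div_iff₀ hzp]; linarith)
  have hRl : R = -Real.log ‖z‖ := by rw [hR, one_div, Real.log_inv]
  rw [← hR]
  obtain ⟨φ, hφ⟩ : ∃ φ : ℂ → ℂ, φ = fun ζ => Complex.exp (Complex.log z + R * ζ) := ⟨_, rfl⟩
  have hφd : ∀ ζ, HasDerivAt φ (Complex.exp (Complex.log z + R * ζ) * R) ζ := by
    intro ζ
    rw [hφ]
    have h1 : HasDerivAt (fun ζ : ℂ => Complex.log z + R * ζ) ((R : ℂ) * 1) ζ :=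
      ((hasDerivAt_id' ζ).const_mul (R : ℂ)).const_add _
    rw [mul_one] at h1
    exact h1.cexp
  have hφ0 : φ 0 = z := by
    rw [hφ]
    simp only [mul_zero, add_zero]
    exact Complex.exp_log hz
  have hφm : ∀ ζ ∈ ball (0 : ℂ) 1, φ ζ ∈ ball (0 : ℂ) 1 \ {0} := by
    intro ζ hζ
    rw [mem_ball_zero_iff] at hζ
    have h1 : ζ.re < 1 := lt_of_le_of_lt (Complex.re_le_norm ζ) hζ
    refine ⟨?_, ?_⟩
    · rw [mem_ball_zero_iff, hφ]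
      simp only
      rw [Complex.norm_exp, Real.exp_lt_one_iff, Complex.add_re, Complex.log_re, Complex.re_ofReal_mul]
      have h2 : R * ζ.re < R * 1 := mul_lt_mul_of_pos_left h1 hR0
      linarith
    · rw [Set.mem_singleton_iff, hφ]
      exact Complex.exp_ne_zero _
  have hopen : IsOpen (ball (0 : ℂ) 1 \ {0}) := isOpen_ball.sdiff isClosed_singleton
  have hFd : ∀ w ∈ ball (0 : ℂ) 1 \ {0}, DifferentiableAt ℂ F w := fun w hw =>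
    hF.1.differentiableAt (hopen.mem_nhds hw)
  have hcurve : Curve K (ball 0 1) (fun ζ => F (φ ζ)) := by
    refine ⟨fun ζ hζ => ?_, fun ζ hζ => hF.2 _ (hφm ζ hζ)⟩
    exact ((hFd _ (hφm ζ hζ)).comp ζ (hφd ζ).differentiableAt).differentiableWithinAt
  have hzm : z ∈ ball (0 : ℂ) 1 \ {0} := by
    have := hφm 0 (mem_ball_self one_pos)
    rwa [hφ0] at this
  have h1 := hL _ hcurve
  rw [mt_comp hM (by rw [hφ0]; exact hFd z hzm) (hφd 0).differentiableAt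
    (by rw [hφ0]; exact hF.2 z hzm), hφ0, (hφd 0).deriv, mul_zero, add_zero, Complex.exp_log hz,
    norm_mul, Complex.norm_real, Real.norm_of_nonneg hR0.le] at h1
  rw [mul_comm]
  exact h1

end Pool.Agent.H36.BP

end

section

/-!
# BPL Brody2: hyperbolicity with respect to entire curves of order at most two
-/

set_option autoImplicit false

noncomputable section

namespace Pool.Agent.H36.BPL

attribute [-instance] ProperSMul.toContinuousSMul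

open Pool.Agent.H17BP (Pr HolP Brody)
open Pool.Agent.H36.BP (OrdTwo)

variable {V : Type} [NormedAddCommGroup V] [NormedSpace ℂ V]

/-- Every entire curve of order at most two in the projective set with the cone `X` which is not a map into `B` is constant. -/
def Brody2 (X B : Set V) : Prop :=
  ∀ f : ℂ → V, (∀ z, HolP f z) → (∀ z, f z ∈ X) → OrdTwo f → (∃ z, f z ∉ B) → ∀ z w, Pr (f z) (f w)

end Pool.Agent.H36.BPL

end
end
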