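import Pool.Agent.H94.CB.M38
import Pool.Agent.H94.CB.M45
import Pool.Agent.H94.CB.M60

/-! The parts of this file: H13.CV.FinPl, H14.PP.NearDom. -/

section

/-!
# CV FinPl: finitely many places over `x = 0`

`sum_le`: let `e E = oz E x > 0` for `E ∈ T`.  By `exists_orders` (applied to `T`, with `d E = j` and `d E' = e E'` for `E' ≠ E`) there are functions `f E j`, `E ∈ T`, `j < e E`, with `oz E (f E j) = j`,
`oz E' (f E j) = e E'` for `E' ∈ T`, `E' ≠ E`.  They are linearly independent over `L`: let `∑ c E j • f E j = 0`, not all `c E j = 0`.  For the `c E j ≠ 0` let `k E j` be as in `exists_zpow`, and let `k₀`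
be the minimum of them; multiply by `x ^ (- k₀)`: so we may assume that `k₀ = 0`, all `k E j ≥ 0`.  Let `(E, j)` have `c E j ≠ 0`, `k E j = 0`, and `j` minimal for this `E`.  Look at the orders at `E`:
the term `(E, j)` has order `j < e E`; the terms `(E, i)` with `i ≠ j`, `c E i ≠ 0` have order `k E i * e E + i > j` (`i > j` or `k E i ≥ 1`); the terms `(E', i)`, `E' ≠ E`, have order
`≥ e E > j`.  So the sum of the other terms has order `> j` (or is `0`) and the total sum has order `j`: contradiction.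
The number of these functions is `∑ E ∈ T, e E`, so it is `≤ finrank L K` (`LinearIndependent.fintype_card_le_finrank`, index type a sigma type `Σ E : T, Fin (oz E x).toNat`, or a finset of pairs).

`finite_over`: otherwise there is a set `T` with more than `finrank L K` elements, and all `oz E x ≥ 1`.  `finite_poles`: if `f` has a pole then it is transcendental (`tr_of_pole`), apply
`finite_over` to `f⁻¹` and `L = ℂ(f⁻¹)`.  `finite_supp`: the zeros of `f` are the poles of `f⁻¹`.
-/

set_option autoImplicit false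

open Pool.Agent.H23.Fano (PrimeDivisorOver Form regularForms)

noncomputable section

namespace Pool.Agent.H13.CV

attribute [-instance] ProperSMul.toContinuousSMul

variable {K : Type} [Field K] [Algebra ℂ K] {L : IntermediateField ℂ K} {x : K}

/-- the order of a product with an element of `ℂ(x)` -/
private theorem finPl_ord (E : Place K) {a b : K} (ha : a ≠ 0) (hb : b ≠ 0) {m n : ℤ}
    (h1 : oz E a = m) (h2 : oz E b = n) : E.ord (a * b) = ((m + n : ℤ) : WithTop ℤ) := by
  rw [← coe_oz E (mul_ne_zero ha hb), oz_mul E ha hb, h1, h2]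

theorem sum_le (hL : Gen L x) [FiniteDimensional L K] (T : Finset (Place K)) (hT : ∀ E ∈ T, 0 < E.ord x) :
    ∑ E ∈ T, oz E x ≤ (Module.finrank L K : ℤ) := by
  classical
  have hx := hL.ne_zero
  have he : ∀ E ∈ T, 0 < oz E x := fun E hE => (pos_iff.1 (hT E hE)).resolve_left hx
  -- the functions
  have hf : ∀ i : (Σ E : {E // E ∈ T}, Fin (oz E.1 x).toNat), ∃ f : K, f ≠ 0 ∧
      oz i.1.1 f = ((i.2 : ℕ) : ℤ) ∧ ∀ E' ∈ T, E' ≠ i.1.1 → oz E' f = oz E' x := by
    intro i
    obtain ⟨f, hf0, hf1⟩ := exists_orders T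
      (fun E' => if E' = i.1.1 then ((i.2 : ℕ) : ℤ) else oz E' x) ⟨i.1.1, i.1.2⟩
    refine ⟨f, hf0, ?_, fun E' hE' hne => ?_⟩
    · rw [hf1 _ i.1.2, if_pos rfl]
    · rw [hf1 _ hE', if_neg hne]
  choose f hf0 hf1 hf2 using hf
  have hli : LinearIndependent L f := by
    rw [Fintype.linearIndependent_iff]
    intro c hc
    by_contra hcon
    push Not at hcon
    obtain ⟨i₁, hi₁⟩ := hcon
    -- the exponents
    have hk : ∀ i, ∃ k : ℤ, c i ≠ 0 → ∀ E : Place K, 0 < E.ord x →
        oz E (c i : K) = k * oz E x := by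
      intro i
      by_cases h : c i = 0
      · exact ⟨0, fun h1 => absurd h h1⟩
      · obtain ⟨k, hk⟩ := exists_zpow hL (c i).2 (fun h1 => h (Subtype.ext h1))
        exact ⟨k, fun _ => hk⟩
    choose k hk using hk
    set S : Finset (Σ E : {E // E ∈ T}, Fin (oz E.1 x).toNat) :=
      Finset.univ.filter fun i => c i ≠ 0 with hS
    have hS1 : S.Nonempty := ⟨i₁, by rw [hS, Finset.mem_filter]; exact ⟨Finset.mem_univ _, hi₁⟩⟩
    obtain ⟨i₂, hi₂, hmin₂⟩ := Finset.exists_min_image S k hS1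
    obtain ⟨i₀, hi₀, hmin₀⟩ := Finset.exists_min_image (S.filter fun i => k i = k i₂)
      (fun i => (i.2 : ℕ)) ⟨i₂, by rw [Finset.mem_filter]; exact ⟨hi₂, rfl⟩⟩
    rw [Finset.mem_filter] at hi₀
    obtain ⟨hi₀S, hk₀⟩ := hi₀
    have hc0 : c i₀ ≠ 0 := by
      rw [hS, Finset.mem_filter] at hi₀S
      exact hi₀S.2
    have hcK : ∀ i, c i ≠ 0 → (c i : K) ≠ 0 := fun i h h1 => h (Subtype.ext h1)
    have hE0 : 0 < i₀.1.1.ord x := hT _ i₀.1.2
    have hord0 : i₀.1.1.ord ((c i₀ : K) * f i₀) =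
        ((k i₀ * oz i₀.1.1 x + ((i₀.2 : ℕ) : ℤ) : ℤ) : WithTop ℤ) :=
      finPl_ord _ (hcK _ hc0) (hf0 _) (hk _ hc0 _ hE0) (hf1 _)
    have hj0 : ((i₀.2 : ℕ) : ℤ) < oz i₀.1.1 x := by
      have h1 := i₀.2.2
      omega
    have hothers : ∀ i ∈ Finset.univ.erase i₀,
        i₀.1.1.ord ((c i₀ : K) * f i₀) < i₀.1.1.ord ((c i : K) * f i) := by
      intro i hi
      rw [Finset.mem_erase] at hi
      by_cases hci : c i = 0
      · rw [hci, hord0]
        simp only [ZeroMemClass.coe_zero, zero_mul, AddValuation.map_zero]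
        exact WithTop.coe_lt_top _
      · have hiS : i ∈ S := by
          rw [hS, Finset.mem_filter]
          exact ⟨Finset.mem_univ _, hci⟩
        have hki : k i₀ ≤ k i := by
          rw [hk₀]
          exact hmin₂ i hiS
        have hepos := he _ i₀.1.2
        by_cases hEi : i.1 = i₀.1
        · obtain ⟨Ei, ji⟩ := i
          simp only at hEi
          subst hEi
          have h1 := finPl_ord i₀.1.1 (hcK _ hci) (hf0 _) (hk _ hci _ hE0)
            (hf1 (⟨i₀.1, ji⟩ : Σ E : {E // E ∈ T}, Fin (oz E.1 x).toNat))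
          rw [hord0, h1, WithTop.coe_lt_coe]
          simp only
          rcases lt_or_eq_of_le hki with h2 | h2
          · have h3 : (k i₀ + 1) * oz i₀.1.1 x ≤ k ⟨i₀.1, ji⟩ * oz i₀.1.1 x :=
              mul_le_mul_of_nonneg_right (by omega) hepos.le
            have h4 : (k i₀ + 1) * oz i₀.1.1 x = k i₀ * oz i₀.1.1 x + oz i₀.1.1 x := by ring
            have h5 : (0 : ℤ) ≤ ((ji : ℕ) : ℤ) := Int.natCast_nonneg _
            linarith
          · have h3 := hmin₀ ⟨i₀.1, ji⟩ (by
              rw [Finset.mem_filter]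
              exact ⟨hiS, by rw [← h2, hk₀]⟩)
            simp only at h3
            have h4 : (i₀.2 : ℕ) ≠ (ji : ℕ) := by
              intro h5
              apply hi.1
              have h6 : ji = i₀.2 := Fin.ext h5.symm
              rw [h6]
            have h5 : (i₀.2 : ℕ) < (ji : ℕ) := lt_of_le_of_ne h3 h4
            have h6 : ((i₀.2 : ℕ) : ℤ) < ((ji : ℕ) : ℤ) := by exact_mod_cast h5
            rw [← h2]
            linarith
        · have hne : i₀.1.1 ≠ i.1.1 := fun h => hEi (Subtype.ext h.symm)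
          have h1 := finPl_ord i₀.1.1 (hcK _ hci) (hf0 i) (hk _ hci _ hE0)
            (hf2 i _ i₀.1.2 hne)
          rw [hord0, h1, WithTop.coe_lt_coe]
          have h3 : k i₀ * oz i₀.1.1 x ≤ k i * oz i₀.1.1 x :=
            mul_le_mul_of_nonneg_right hki hepos.le
          linarith
    have hg : i₀.1.1.ord ((c i₀ : K) * f i₀) ≠ ⊤ := by
      rw [hord0]
      exact WithTop.coe_ne_top
    have hlt := AddValuation.map_lt_sum (v := i₀.1.1.ord) hg hothers
    have hsum : (c i₀ : K) * f i₀ + ∑ i ∈ Finset.univ.erase i₀, (c i : K) * f i = 0 := by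
      rw [Finset.add_sum_erase _ (fun i => (c i : K) * f i) (Finset.mem_univ i₀)]
      exact hc
    have hneg : ∑ i ∈ Finset.univ.erase i₀, (c i : K) * f i = -((c i₀ : K) * f i₀) :=
      eq_neg_of_add_eq_zero_right hsum
    rw [hneg, AddValuation.map_neg] at hlt
    exact lt_irrefl _ hlt
  have hcard := hli.fintype_card_le_finrank
  rw [Fintype.card_sigma] at hcard
  simp only [Fintype.card_fin] at hcard
  have h1 : ∑ E ∈ T, oz E x = ((∑ E : {E // E ∈ T}, (oz E.1 x).toNat : ℕ) : ℤ) := by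
    rw [Nat.cast_sum, ← Finset.sum_coe_sort T (fun E => oz E x)]
    refine Finset.sum_congr rfl fun E _ => ?_
    rw [Int.toNat_of_nonneg (he E.1 E.2).le]
  rw [h1]
  exact_mod_cast hcard

theorem finite_over (hL : Gen L x) [FiniteDimensional L K] : {E : Place K | 0 < E.ord x}.Finite := by
  by_contra hinf
  obtain ⟨T, hT, hcard⟩ := (Set.not_finite.1 hinf).exists_subset_card_eq (Module.finrank L K + 1)
  have h1 := sum_le hL T (fun E hE => hT hE)
  have hx := hL.ne_zero
  have h2 : ∀ E ∈ T, (1 : ℤ) ≤ oz E x := fun E hE => (pos_iff.1 (hT hE)).resolve_left hx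
  have h3 := Finset.sum_le_sum h2
  rw [Finset.sum_const, nsmul_eq_mul, mul_one, hcard] at h3
  push_cast at h3
  linarith

theorem finite_poles (hK : CurveField K) (f : K) : {E : Place K | E.ord f < 0}.Finite := by
  by_cases hne : ∃ E : Place K, E.ord f < 0
  · obtain ⟨E, hE⟩ := hne
    have htr := tr_of_pole hE
    have hL : Gen (IntermediateField.adjoin ℂ {f}) f := ⟨htr, rfl⟩
    have hfd : FiniteDimensional (IntermediateField.adjoin ℂ {f}) K := hK.fin f htr
    have h1 := finite_over hL.inv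
    refine h1.subset fun E' hE' => ?_
    exact (inv_pos_iff hL.ne_zero).2 hE'
  · push Not at hne
    have h1 : {E : Place K | E.ord f < 0} = ∅ :=
      Set.eq_empty_of_forall_notMem fun E hE => absurd hE (not_lt.2 (hne E))
    rw [h1]
    exact Set.finite_empty

end Pool.Agent.H13.CV

end
end

section

/-!
# BPm NearDom: comparison of the metrics of two charts

Let `C, r` be as in `exists_transition`, `r₁` as in `dom`, `r' = min r r₁` and less than `1`.
`p` with `‖p‖ = 1` and `small (nd i) p ≤ r'`: there is an orientation `b` (`b = true` only if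
`nd i = true`) such that `p₁ = ori b p` has `‖p₁.2‖ = 1`, `‖p₁.1‖ ≤ r'`. With `χ₁ = (χ i).orient b`,
`χ₂ = (χ k).orient b'` from `exists_transition`, `τ = χ₂.q ∘ χ₁.σ`, the matrix entries of
`fderiv ℂ τ p₁`, `A = ACoef Ω χ₁ p₁`, `A' = ACoef Ω χ₂ (τ p₁)` (`ACoef_trans`) apply `dom`.
Finally go back to the charts without orientation: `ACoef_swap`, `pM_swap`,
`τ = ori b' ∘ ((χ k).q ∘ (χ i).σ) ∘ ori b`, so
`fderiv ℂ τ (ori b p) (ori b w) = ori b' (fderiv ℂ ((χ k).q ∘ (χ i).σ) p w)` (`ori` is linear). For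
`ACoef_swap` of `χ k` one needs `(χ k).σ (q') ∈ K`, `q' = (χ k).q ((χ i).σ p)`: a nonzero multiple of
`(χ i).σ p ∈ K` (`Chart.sigma_mem_iff`).
-/

open Topology Filter Metric

namespace Pool.Agent.H14.PP

attribute [-instance] ProperSMul.toContinuousSMul

open Pool.Agent.H36.BP

variable {N : ℕ} {X K T : Set (EN N)} {m j : ℕ}

theorem nearDom_ori_ori (b : Bool) (p : ℂ × ℂ) : ori b (ori b p) = p := by
  cases b
  · simp [ori]
  · simp [ori]

theorem nearDom_norm_ori (b : Bool) (p : ℂ × ℂ) : ‖ori b p‖ = ‖p‖ := by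
  cases b
  · simp [ori]
  · simp only [ori, if_true, Prod.norm_def, Prod.fst_swap, Prod.snd_swap]
    exact max_comm _ _

theorem nearDom_orient_sigma (b : Bool) (χ : Chart X) (p : ℂ × ℂ) :
    (χ.orient b).σ p = χ.σ (ori b p) := by
  cases b
  · rfl
  · rfl

theorem nearDom_orient_q (b : Bool) (χ : Chart X) (x : EN N) :
    (χ.orient b).q x = ori b (χ.q x) := by
  cases b
  · rfl
  · rfl

theorem nearDom_orient_U (b : Bool) (χ : Chart X) : (χ.orient b).U = χ.U := by
  cases b
  · rfl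
  · rfl

theorem nearDom_ACoef (hK : IsOpenPart X K) (Ω : Form K m j) (b : Bool) (χ : Chart X)
    {p : ℂ × ℂ} (hp : p ∈ ball (0 : ℂ × ℂ) 2) (hpK : χ.σ p ∈ K) :
    ACoef Ω (χ.orient b) (ori b p) = ACoef Ω χ p := by
  cases b
  · rfl
  · exact ACoef_swap hK Ω χ hp hpK

theorem nearDom_pM (P : Par) (b nd : Bool) (hb : b = true → nd = true) (p w : ℂ × ℂ) :
    pM nd P (ori b p) (ori b w) = pM nd P p w := by
  cases b
  · rfl
  · have h := hb rfl
    subst h
    exact pM_swap p w

private noncomputable def nearDomL (b : Bool) : ℂ × ℂ →L[ℂ] ℂ × ℂ :=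
  if b = true then (ContinuousLinearMap.snd ℂ ℂ ℂ).prod (ContinuousLinearMap.fst ℂ ℂ ℂ)
  else ContinuousLinearMap.id ℂ (ℂ × ℂ)

private theorem nearDomL_apply (b : Bool) (p : ℂ × ℂ) : nearDomL b p = ori b p := by
  cases b
  · simp [nearDomL, ori]
  · simp [nearDomL, ori, Prod.swap]

theorem nearDom_fderiv (b b' : Bool) (χ χ' : Chart X) {p : ℂ × ℂ}
    (hp : p ∈ ball (0 : ℂ × ℂ) 2) (hU : χ.σ p ∈ χ'.U) (w : ℂ × ℂ) :
    fderiv ℂ (fun y => (χ'.orient b').q ((χ.orient b).σ y)) (ori b p) (ori b w) =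
      ori b' (fderiv ℂ (fun y => χ'.q (χ.σ y)) p w) := by
  have hd : DifferentiableAt ℂ (fun y => χ'.q (χ.σ y)) p :=
    ((χ'.q_an _ hU).differentiableAt).comp p ((χ.σ_an p hp).differentiableAt)
  have h1 : HasFDerivAt (fun y => χ'.q (χ.σ y)) (fderiv ℂ (fun y => χ'.q (χ.σ y)) p)
      (nearDomL b (ori b p)) := by
    rw [nearDomL_apply, nearDom_ori_ori]
    exact hd.hasFDerivAt
  have h2 : HasFDerivAt (fun y => χ'.q (χ.σ (nearDomL b y)))
      ((fderiv ℂ (fun y => χ'.q (χ.σ y)) p).comp (nearDomL b)) (ori b p) :=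
    h1.comp (ori b p) (nearDomL b).hasFDerivAt
  have h3 : HasFDerivAt (fun y => nearDomL b' (χ'.q (χ.σ (nearDomL b y))))
      ((nearDomL b').comp ((fderiv ℂ (fun y => χ'.q (χ.σ y)) p).comp (nearDomL b))) (ori b p) :=
    (nearDomL b').hasFDerivAt.comp (ori b p) h2
  have h4 : (fun y => (χ'.orient b').q ((χ.orient b).σ y)) =
      fun y => nearDomL b' (χ'.q (χ.σ (nearDomL b y))) := by
    funext y
    rw [nearDom_orient_q, nearDom_orient_sigma, nearDomL_apply, nearDomL_apply]
  rw [h4, h3.fderiv]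
  simp only [ContinuousLinearMap.comp_apply, nearDomL_apply, nearDom_ori_ori]

theorem nearDom_apply (L : ℂ × ℂ →L[ℂ] ℂ × ℂ) (w : ℂ × ℂ) :
    L w = ((L (1, 0)).1 * w.1 + (L (0, 1)).1 * w.2, (L (1, 0)).2 * w.1 + (L (0, 1)).2 * w.2) := by
  have h : w = w.1 • ((1 : ℂ), (0 : ℂ)) + w.2 • ((0 : ℂ), (1 : ℂ)) := by
    ext
    · simp
    · simp
  have h2 : L w = w.1 • L (1, 0) + w.2 • L (0, 1) := by
    conv_lhs => rw [h]
    rw [map_add, map_smul, map_smul]
  rw [h2]
  ext
  · simp only [Prod.fst_add, Prod.smul_fst, smul_eq_mul]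
    ring
  · simp only [Prod.snd_add, Prod.smul_snd, smul_eq_mul]
    ring

/-- the choice of the orientation -/
theorem nearDom_orientation (nd : Bool) {p : ℂ × ℂ} {s : ℝ} (hp : ‖p‖ = 1)
    (hs : small nd p ≤ s) (hs1 : s < 1) :
    ∃ b : Bool, (b = true → nd = true) ∧ ‖(ori b p).2‖ = 1 ∧ ‖(ori b p).1‖ ≤ s := by
  have hmax : max ‖p.1‖ ‖p.2‖ = 1 := by rw [← hp, Prod.norm_def]
  cases nd
  · have h1 : ‖p.1‖ ≤ s := by simpa [small] using hs
    refine ⟨false, fun h => h, ?_, ?_⟩
    · rcases max_choice ‖p.1‖ ‖p.2‖ with h | h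
      · rw [h] at hmax
        linarith
      · rw [h] at hmax
        simpa [ori] using hmax
    · simpa [ori] using h1
  · have h1 : ‖p.1‖ * ‖p.2‖ ≤ s := by simpa [small] using hs
    rcases max_choice ‖p.1‖ ‖p.2‖ with h | h
    · rw [h] at hmax
      refine ⟨true, fun _ => rfl, ?_, ?_⟩
      · simpa [ori] using hmax
      · rw [hmax, one_mul] at h1
        simpa [ori] using h1
    · rw [h] at hmax
      refine ⟨false, fun _ => rfl, ?_, ?_⟩
      · simpa [ori] using hmax
      · rw [hmax, mul_one] at h1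
        simpa [ori] using h1

end Pool.Agent.H14.PP

end
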