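import Pool.Agent.H94.CB.M53
import Pool.Agent.H94.CB.M55
import Pool.Agent.H94.CB.M56
import Pool.Agent.H94.CB.M57
import Pool.Agent.H94.CB.M58
import Pool.Agent.H94.CB.M59
import Pool.Agent.H94.CB.M61

/-! The parts of this file: H14.PP.NearDom_1, H13.CV.NoPole, H13.SM.Dim. -/

section

/-!
# BPm NearDom: comparison of the metrics of two charts

Let `C, r` be as in `exists_transition`, `r₁` as in `dom`, `r' = min r r₁` and less than `1`.
`p` with `‖p‖ = 1` and `small (nd i) p ≤ r'`: there is an orientation `b` (`b = true` only if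
`nd i = true`) such that `p₁ = ori b p` has `‖p₁.2‖ = 1`, `‖p₁.1‖ ≤ r'`. With `χ₁ = (χ i).orient b`,
`χ₂ = (χ k).orient b'` from `exists_transition`, `τ = χ₂.q ∘ χ₁.σ`, the matrix entries of
`fderiv ℂ τ p₁`, `A = ACoef Ω χ₁ p₁`, `A' = ACoef Ω χ₂ (τ p₁)` (`ACoef_trans`) apply `dom`.
Finally go back to the charts without orientation: `ACoef_swap`, `pM_swap`,
`τ = ori b' ∘ ((χ k).q ∘ (χ i).σ) ∘ ori b`, so
`fderiv ℂ τ (ori b p) (ori b w) = ori b' (fderiv ℂ ((χ k).q ∘ (χ i).σ) p w)` (`ori` is linear). For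
`ACoef_swap` of `χ k` one needs `(χ k).σ (q') ∈ K`, `q' = (χ k).q ((χ i).σ p)`: a nonzero multiple of
`(χ i).σ p ∈ K` (`Chart.sigma_mem_iff`).
-/

open Topology Filter Metric

namespace Pool.Agent.H14.PP

attribute [-instance] ProperSMul.toContinuousSMul

open Pool.Agent.H36.BP

variable {N : ℕ} {X K T : Set (EN N)} {m j : ℕ}

theorem near_dom (hX : IsCone X) (hK : IsOpenPart X K) (hm : 1 ≤ m) (Ω : Form K m j) {n : ℕ}
    (χ : Fin n → Chart X) (nd : Fin n → Bool) {C r : ℝ} (hC : 1 ≤ C) (hr : 0 < r)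
    (htr : ∀ (i : Fin n) (b : Bool), (b = true → nd i = true) →
      ∀ p : ℂ × ℂ, ‖p.2‖ = 1 → ‖p.1‖ ≤ r →
        ∃ (k : Fin n) (b' : Bool), (b' = true → nd k = true) ∧
          Transition C ((χ i).orient b) ((χ k).orient b') (nd k) p)
    {P : Par} (hP : DomPar C P) :
    ∃ r' : ℝ, 0 < r' ∧ ∀ (i : Fin n) (p w : ℂ × ℂ), ‖p‖ = 1 → small (nd i) p ≤ r' →
      (χ i).σ p ∈ K → 0 < ACoef Ω (χ i) p * pM (nd i) P p w →
      ∃ k, (χ i).σ p ∈ (χ k).U ∧ ‖(χ k).q ((χ i).σ p)‖ < 1 / 2 ∧
        ACoef Ω (χ i) p * pM (nd i) P p w <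
          ACoef Ω (χ k) ((χ k).q ((χ i).σ p)) * pM (nd k) P ((χ k).q ((χ i).σ p))
            (fderiv ℂ (fun y => (χ k).q ((χ i).σ y)) p w) := by
  obtain ⟨r₁, hr₁, hr₁1, hdom⟩ := dom hC hP
  refine ⟨min (min r r₁) (1 / 2), lt_min (lt_min hr hr₁) (by norm_num), ?_⟩
  intro i p w hp hsm hpK hpos
  obtain ⟨b, hb, hb2, hb1⟩ := nearDom_orientation (nd i) hp hsm
    (lt_of_le_of_lt (min_le_right _ _) (by norm_num))
  have hbr : ‖(ori b p).1‖ ≤ r := hb1.trans ((min_le_left _ _).trans (min_le_left _ _))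
  have hbr₁ : ‖(ori b p).1‖ ≤ r₁ := hb1.trans ((min_le_left _ _).trans (min_le_right _ _))
  obtain ⟨k, b', hb', hU, hn, hTE, hnd⟩ := htr i b hb (ori b p) hb2 hbr
  have hpb : p ∈ ball (0 : ℂ × ℂ) 2 := by
    rw [mem_ball_zero_iff, hp]
    norm_num
  have hpb' : ori b p ∈ ball (0 : ℂ × ℂ) 2 := by
    rw [mem_ball_zero_iff, nearDom_norm_ori, hp]
    norm_num
  have hσ : ((χ i).orient b).σ (ori b p) = (χ i).σ p := by
    rw [nearDom_orient_sigma, nearDom_ori_ori]
  have hU' : (χ i).σ p ∈ (χ k).U := by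
    rw [hσ, nearDom_orient_U] at hU
    exact hU
  have hn' : ‖(χ k).q ((χ i).σ p)‖ < 1 / 2 := by
    rw [hσ, nearDom_orient_q, nearDom_norm_ori] at hn
    exact hn
  have hqb : (χ k).q ((χ i).σ p) ∈ ball (0 : ℂ × ℂ) 2 := by
    rw [mem_ball_zero_iff]
    linarith
  have hpX : (χ i).σ p ∈ X := hK.subset hpK
  have hqK : (χ k).σ ((χ k).q ((χ i).σ p)) ∈ K :=
    ((χ k).sigma_mem_iff hpX hU' hK.smul_mem).mpr hpK
  have hA : ACoef Ω ((χ i).orient b) (ori b p) = ACoef Ω (χ i) p :=
    nearDom_ACoef hK Ω b (χ i) hpb hpK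
  have hA' : ACoef Ω ((χ k).orient b') (ori b' ((χ k).q ((χ i).σ p))) =
      ACoef Ω (χ k) ((χ k).q ((χ i).σ p)) :=
    nearDom_ACoef hK Ω b' (χ k) hqb hqK
  have hq : ((χ k).orient b').q (((χ i).orient b).σ (ori b p)) =
      ori b' ((χ k).q ((χ i).σ p)) := by
    rw [hσ, nearDom_orient_q]
  have htrans := ACoef_trans hX hK hm Ω ((χ i).orient b) ((χ k).orient b') hpb'
    (by rw [hσ]; exact hpK) hU
  have hmain := hdom (nd i) (nd k) (ori b p) (ori b w)
    (((χ k).orient b').q (((χ i).orient b).σ (ori b p)))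
    _ _ _ _ (ACoef Ω ((χ i).orient b) (ori b p))
    (ACoef Ω ((χ k).orient b') (((χ k).orient b').q (((χ i).orient b).σ (ori b p))))
    hbr₁ hb2 hn.le hnd hTE (ACoef_nonneg _ _ _) htrans
    (by rw [hA, nearDom_pM P b (nd i) hb]; exact hpos)
  rw [← nearDom_apply, hA, nearDom_pM P b (nd i) hb, nearDom_fderiv b b' (χ i) (χ k) hpb hU', hq,
    hA', nearDom_pM P b' (nd k) hb'] at hmain
  exact ⟨k, hU', hn', hmain⟩

end Pool.Agent.H14.PP

end

section

/-!
# CV NoPole: existence of places, functions without poles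

`exists_place_over`: let `L = ℂ(x)` (`Gen L x`), finite-dimensional by `hK.fin`, and `w` a basis as in `exists_affB`.  Suppose that `0 < E.ord x` for no place.  Then `RegAff x (x⁻¹)`, as `0 ≤ ord x` implies
`ord x = 0`, and `ord x⁻¹ = 0`.  `K ≠ 0` so `n = finrank L K > 0`; take `i : Fin n`.  `w i` has coordinates `0, 1` in `ℂ[x]`, so `RegAff x (w i)`; so `RegAff x (x⁻¹ * w i)`.  Its `i`-th
coordinate is `x⁻¹` (as an element of `L`), so `x⁻¹ = p (x)` with a polynomial `p`, `x * p (x) - 1 = 0`: contradiction to the transcendence of `x` (`X * p - 1 ≠ 0`: evaluate at `0`).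
`const_of_no_pole`: if `f` is not a constant then it is transcendental, so `f⁻¹` is transcendental, and there is a place with `0 < ord f⁻¹`.
-/

set_option autoImplicit false

open Pool.Agent.H23.Fano (PrimeDivisorOver Form regularForms)

noncomputable section

namespace Pool.Agent.H13.CV

attribute [-instance] ProperSMul.toContinuousSMul

variable {K : Type} [Field K] [Algebra ℂ K]

theorem exists_place_over (hK : CurveField K) {x : K} (hx : Transcendental ℂ x) : ∃ E : Place K, 0 < E.ord x := by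
  by_contra hcon
  have hcon' : ∀ E : Place K, ¬ 0 < E.ord x := fun E hE => hcon ⟨E, hE⟩
  have hx0 : x ≠ 0 := by
    rintro rfl
    exact hx isAlgebraic_zero
  have hL : Gen (IntermediateField.adjoin ℂ {x}) x := ⟨hx, rfl⟩
  have := hK.fin x hx
  obtain ⟨w, hw⟩ := exists_affB hL
  have hn : 0 < Module.finrank (IntermediateField.adjoin ℂ {x}) K := Module.finrank_pos
  obtain ⟨i⟩ : Nonempty (Fin (Module.finrank (IntermediateField.adjoin ℂ {x}) K)) := ⟨⟨0, hn⟩⟩
  have h1 : RegAff x x⁻¹ := by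
    intro E hE
    have h0 : E.ord x = 0 := le_antisymm (not_lt.1 (hcon' E)) hE
    have h2 : oz E x = 0 := by
      rw [oz, h0]
      rfl
    rw [ord_inv E hx0, h2, neg_zero]
    exact le_refl _
  have h2 : RegAff x (w i) := by
    rw [hw]
    intro j
    rw [w.repr_self]
    by_cases hij : i = j
    · subst hij
      rw [Finsupp.single_eq_same]
      exact one_mem _
    · rw [Finsupp.single_eq_of_ne (Ne.symm hij)]
      exact zero_mem _
  have h3 : RegAff x (x⁻¹ * w i) := fun E hE => nonneg_mul (h1 E hE) (h2 E hE)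
  have hxm : x⁻¹ ∈ IntermediateField.adjoin ℂ {x} := inv_mem hL.mem
  have h4 := (hw _).1 h3 i
  have h5 : x⁻¹ * w i = (⟨x⁻¹, hxm⟩ : IntermediateField.adjoin ℂ {x}) • w i := rfl
  rw [h5, map_smul, w.repr_self, Finsupp.smul_single, smul_eq_mul, mul_one, Finsupp.single_eq_same] at h4
  rw [Algebra.adjoin_singleton_eq_range_aeval] at h4
  obtain ⟨p, hp⟩ := h4
  have h6 : Polynomial.aeval x (Polynomial.X * p - 1) = 0 := by
    have hp' : Polynomial.aeval x p = x⁻¹ := hp
    rw [map_sub, map_mul, Polynomial.aeval_X, hp', mul_inv_cancel₀ hx0, map_one, sub_self]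
  have h7 : Polynomial.X * p - 1 = 0 := by
    by_contra h
    exact hx ⟨_, h, h6⟩
  have h8 := congrArg (Polynomial.eval 0) h7
  simp at h8

theorem exists_place_inf (hK : CurveField K) {x : K} (hx : Transcendental ℂ x) : ∃ E : Place K, E.ord x < 0 := by
  have hx0 : x ≠ 0 := by
    rintro rfl
    exact hx isAlgebraic_zero
  have hi : Transcendental ℂ x⁻¹ := fun h => hx (by simpa using h.inv)
  obtain ⟨E, hE⟩ := exists_place_over hK hi
  exact ⟨E, (inv_pos_iff hx0).1 hE⟩

theorem const_of_no_pole (hK : CurveField K) {f : K} (h : ∀ E : Place K, 0 ≤ E.ord f) : ∃ c : ℂ, f = algebraMap ℂ K c := by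
  by_contra hcon
  obtain ⟨E, hE⟩ := exists_place_inf hK (transcendental_of_not_const fun c hc => hcon ⟨c, hc⟩)
  exact absurd (h E) (not_le.2 hE)

/-- a function without poles with a zero is zero -/
theorem zero_of_no_pole (hK : CurveField K) {f : K} (h : ∀ E : Place K, 0 ≤ E.ord f) (hz : ∃ E : Place K, 0 < E.ord f) : f = 0 := by
  obtain ⟨c, rfl⟩ := const_of_no_pole hK h
  obtain ⟨E, hE⟩ := hz
  by_cases hc : c = 0
  · rw [hc, map_zero]
  · rw [ord_const E hc] at hE
    exact absurd hE (lt_irrefl _)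

end Pool.Agent.H13.CV

end
end

section

/-!
# The dimension is at most `N`

PROOF.  Choose `l` with `coordFun P l ≠ 0` (if `coordFun P i = 0` for all `i` then the function field is
`ℂ` and `n = 0`; or use `h`).  By `adjoin_ratio` the field `FunField P` is generated over `ℂ` by the
`ratio P i l`, `i ≠ l` (`ratio P l l = 1`), a set with at most `N` elements, so it contains a
transcendence basis indexed by a subset `s` of `{i | i ≠ l}` (`exists_isTranscendenceBasis_subset` /
`exists_isTranscendenceBasis_between` with the fact that `FunField P` is algebraic over the subalgebra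
generated by the set), and `n = |s| ≤ N` (`IsTranscendenceBasis.cardinalMk_eq`).
-/

open MvPolynomial
open Pool.Agent.H17GT (coordFun functionField)
open Pool.Agent.H17LG.Variety (FunField ratio)

noncomputable section

namespace Pool.Agent.H13.SM

attribute [-instance] ProperSMul.toContinuousSMul

variable {N : ℕ} {P : Ideal (MvPolynomial (Fin (N + 1)) ℂ)}

theorem trdeg_le [P.IsPrime] {l : Fin (N + 1)} (h : coordFun P l ≠ 0) {n : ℕ}
    {z : Fin n → FunField P} (hz : IsTranscendenceBasis ℂ z) : n ≤ N := by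
  have htop : IntermediateField.adjoin ℂ
      (Set.range fun i : Fin N => ratio P (l.succAbove i) l) = ⊤ := by
    rw [eq_top_iff, ← Pool.Agent.H17R.adjoin_ratio h, IntermediateField.adjoin_le_iff]
    rintro y ⟨i, rfl⟩
    dsimp only
    rcases Fin.eq_self_or_eq_succAbove l i with hi | ⟨j, hj⟩
    · rw [hi, Pool.Agent.H17R.ratio_self h]
      exact one_mem _
    · rw [hj]
      exact IntermediateField.subset_adjoin _ _ ⟨j, rfl⟩
  have halg : Algebra.IsAlgebraic (IntermediateField.adjoin ℂ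
      (Set.range fun i : Fin N => ratio P (l.succAbove i) l)) (FunField P) := by
    rw [htop]
    refine ⟨fun a => ?_⟩
    exact isAlgebraic_algebraMap (⟨a, IntermediateField.mem_top⟩ :
      (⊤ : IntermediateField ℂ (FunField P)))
  obtain ⟨J, hJ⟩ := Pool.Agent.H92.GT.exists_index halg hz
  have hinj : Function.Injective J := by
    intro a b hab
    apply hJ.1.injective
    dsimp only
    rw [hab]
  have := Fintype.card_le_of_injective J hinj
  simpa using this

end Pool.Agent.H13.SM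

end
end
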