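import Pool.Agent.H94.CB.H13.CV.Loc
import Pool.Agent.H94.CB.M43
import Pool.Agent.H94.CB.M46
import Pool.Agent.H94.CB.M62
import Pool.Agent.H94.CB.M66
import Pool.Agent.H94.CB.M70

/-! The parts of this file: H36.BPL.BlowK, H13.CV.BirkB, H13.CV.BirkC_1. -/

section

/-!
# BPL BlowK: blow-up of an open surface

`K₁ = total l X K` is the preimage of `K` in the blow-up.
-/

set_option autoImplicit false

namespace Pool.Agent.H36.BPL

attribute [-instance] ProperSMul.toContinuousSMul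

open Filter Topology Metric
open Pool.Agent.H17BP (Surface IsChart IsForm NoZeros NodalAt Pr HolP Picard)
open Pool.Agent.H36.BP (OrdTwo)
open Pool.Agent.H62.BU (blow total Ker phi)

variable {V : Type} [NormedAddCommGroup V] [NormedSpace ℂ V] {ι : Type} [Fintype ι] {l : ι → V →L[ℂ] ℂ} {X K T : Set V} {q : V}

theorem mem_totalK (hX : Surface X) (hK : ∀ x ∈ K, ∀ c : ℂ, c ≠ 0 → c • x ∈ K) {y : ι → V} (hy : y ∈ blow l X) {b : ι} (hb : y b ≠ 0) :
    y ∈ total l X K ↔ y b ∈ K :=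
  Pool.Agent.H62.BU.mem_total_iff (Pool.Agent.H17BP.surface_iff.2 hX) hK y hy hb

theorem total_smul (hK : ∀ x ∈ K, ∀ c : ℂ, c ≠ 0 → c • x ∈ K) {y : ι → V} (hy : y ∈ total l X K) {c : ℂ} (hc : c ≠ 0) : c • y ∈ total l X K := by
  refine ⟨Pool.Agent.H62.BU.blow_smul y hy.1 c hc, fun b hb => ?_⟩
  have h1 : y b ≠ 0 := fun h => hb (by rw [Pi.smul_apply, h, smul_zero])
  exact hK _ (hy.2 b h1) c hc

theorem comp_mem (hX : Surface X) {y : ι → V} (hy : y ∈ blow l X) {b : ι} (hb : y b ≠ 0) : y b ∈ X :=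
  Pool.Agent.H62.BU.comp_mem (Pool.Agent.H17BP.surface_iff.2 hX) y hy hb

theorem openPart_blow (hX : Surface X) (hK : OpenPart X K) : OpenPart (blow l X) (total l X K) where
  sub := fun y hy => hy.1
  smul := fun y hy c hc => total_smul hK.smul hy hc
  eqn y hy := by
    obtain ⟨b, hb⟩ := Pool.Agent.H62.BU.exists_ne y hy
    obtain ⟨h, hh, hhe⟩ := hK.eqn (y b) (comp_mem hX hy hb)
    have hpr : AnalyticAt ℂ (fun y : ι → V => y b) y := (ContinuousLinearMap.proj (R := ℂ) (φ := fun _ : ι => V) b).analyticAt y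
    refine ⟨fun y => h (y b), AnalyticAt.comp (g := h) (f := fun y : ι → V => y b) hh hpr, ?_⟩
    have hct : Tendsto (fun y : ι → V => y b) (𝓝 y) (𝓝 (y b)) := (continuous_apply b).tendsto y
    filter_upwards [hct.eventually hhe, hct.eventually_ne hb] with y' h1 h2 h3
    rw [mem_totalK hX hK.smul h3 h2]
    exact h1 (comp_mem hX h3 h2)

theorem affProper_blow {M : ℕ} {Φ : V → Fin M → ℂ} (hX : Surface X) (hK : OpenPart X K) (hΦ : AffProper X K Φ) :
    ∃ Ψ : (ι → V) → Fin M → ℂ, AffProper (blow l X) (total l X K) Ψ := by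
  classical
  -- a component which is not zero
  have hex : ∀ y : ι → V, ∃ x : V, y ∈ blow l X → x ≠ 0 ∧ ∃ b, x = y b := by
    intro y
    by_cases hy : y ∈ blow l X
    · obtain ⟨b, hb⟩ := Pool.Agent.H62.BU.exists_ne y hy
      exact ⟨y b, fun _ => ⟨hb, b, rfl⟩⟩
    · exact ⟨0, fun h => absurd h hy⟩
  choose P hP using hex
  have hPb : ∀ y ∈ total l X K, ∀ b, y b ≠ 0 → Φ (P y) = Φ (y b) := by
    intro y hy b hb
    obtain ⟨h1, b', h2⟩ := hP y hy.1
    obtain ⟨c, hc⟩ := Pool.Agent.H62.BU.comp_smul y hy.1 hb b'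
    have hc0 : c ≠ 0 := by
      rintro rfl
      rw [zero_smul] at hc
      exact h1 (h2.trans hc)
    rw [h2, hc]
    exact hΦ.smul _ (hy.2 b hb) c hc0
  have hKX : ∀ y ∈ total l X K, ∀ b, y b ≠ 0 → y b ∈ K := fun y hy b hb => hy.2 b hb
  refine ⟨fun y => Φ (P y), ?_, ?_, ?_, ?_, ?_⟩
  · intro y hy c hc
    obtain ⟨b, hb⟩ := Pool.Agent.H62.BU.exists_ne y hy.1
    have h1 : (c • y) b ≠ 0 := smul_ne_zero hc hb
    show Φ (P (c • y)) = Φ (P y)
    rw [hPb _ (total_smul hK.smul hy hc) b h1, hPb y hy b hb]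
    exact hΦ.smul _ (hKX y hy b hb) c hc
  · intro y hy
    obtain ⟨b, hb⟩ := Pool.Agent.H62.BU.exists_ne y hy.1
    have h1 : ContinuousWithinAt (fun y : ι → V => Φ (y b)) (total l X K ∩ {y | y b ≠ 0}) y := by
      refine ContinuousWithinAt.comp (t := K) (hΦ.cont (y b) (hKX y hy b hb)) (continuous_apply b).continuousWithinAt ?_
      rintro y' ⟨h2, h3⟩
      exact hKX y' h2 b h3
    have h2 : {y : ι → V | y b ≠ 0} ∈ 𝓝 y := (continuous_apply b).continuousAt.eventually_ne hb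
    have h3 : ContinuousWithinAt (fun y : ι → V => Φ (P y)) (total l X K ∩ {y | y b ≠ 0}) y := by
      refine h1.congr ?_ (hPb y hy b hb)
      rintro y' ⟨h4, h5⟩
      exact hPb y' h4 b h5
    exact (continuousWithinAt_inter h2).mp h3
  · intro F z₀ hF hFK
    have hy : F z₀ ∈ total l X K := hFK.self_of_nhds
    obtain ⟨b, hb⟩ := Pool.Agent.H62.BU.exists_ne (F z₀) hy.1
    have hFb : AnalyticAt ℂ (fun z => F z b) z₀ := (analyticAt_pi_iff.1 hF) b
    have hne : ∀ᶠ z in 𝓝 z₀, F z b ≠ 0 := hFb.continuousAt.eventually_ne hb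
    refine (hΦ.hol (fun z => F z b) z₀ hFb ?_).congr ?_
    · filter_upwards [hFK, hne] with z h1 h2
      exact hKX _ h1 b h2
    · filter_upwards [hFK, hne] with z h1 h2
      exact (hPb _ h1 b h2).symm
  · intro y hy hyK R
    obtain ⟨b, hb⟩ := Pool.Agent.H62.BU.exists_ne y hy
    have hbK : y b ∉ K := fun h => hyK ((mem_totalK hX hK.smul hy hb).mpr h)
    have hct : Tendsto (fun y : ι → V => y b) (𝓝 y) (𝓝 (y b)) := (continuous_apply b).tendsto y
    filter_upwards [hct.eventually (hΦ.proper (y b) (comp_mem hX hy hb) hbK R), hct.eventually_ne hb] with y' h1 h2 h3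
    rw [hPb y' h3 b h2]
    exact h1 (hKX y' h3 b h2)
  · intro F z₀ hF hFX
    have hy : F z₀ ∈ blow l X := hFX.self_of_nhds
    obtain ⟨b, hb⟩ := Pool.Agent.H62.BU.exists_ne (F z₀) hy
    have hFb : AnalyticAt ℂ (fun z => F z b) z₀ := (analyticAt_pi_iff.1 hF) b
    have hne : ∀ᶠ z in 𝓝 z₀, F z b ≠ 0 := hFb.continuousAt.eventually_ne hb
    have hX' : ∀ᶠ z in 𝓝 z₀, F z b ∈ X := by
      filter_upwards [hFX, hne] with z h1 h2
      exact comp_mem hX h1 h2
    rcases hΦ.iso (fun z => F z b) z₀ hFb hX' with h | h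
    · left
      filter_upwards [h, hFX, hne] with z h1 h2 h3 h4
      exact h1 ((mem_totalK hX hK.smul h2 h3).mp h4)
    · right
      filter_upwards [h, hFX.filter_mono nhdsWithin_le_nhds, hne.filter_mono nhdsWithin_le_nhds] with z h1 h2 h3
      exact (mem_totalK hX hK.smul h2 h3).mpr h1

/-- the order of the projection of a curve in the blow-up -/
theorem ordTwo_comp {h : ℂ → ι → V} (hmem : ∀ z, h z ∈ blow l X) {b : ℂ → ι} (hbne : ∀ z, h z (b z) ≠ 0) (hord : OrdTwo h) :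
    OrdTwo (fun z => h z (b z)) := by
  obtain ⟨C₀, hC⟩ := hord
  refine ⟨C₀, fun r hr => ?_⟩
  obtain ⟨F, h1, h2, h3, h4⟩ := hC r hr
  have hF0 : 0 < ‖F 0‖ := lt_of_lt_of_le (Real.exp_pos _) h3
  obtain ⟨b₀, hb₀⟩ : ∃ b₀, ‖F 0‖ ≤ ‖F 0 b₀‖ := by
    by_contra hcon
    push Not at hcon
    exact lt_irrefl _ ((pi_norm_lt_iff hF0).mpr hcon)
  refine ⟨fun z => F z b₀, fun z hz => ?_, fun z hz => (norm_le_pi_norm (F z) b₀).trans (h2 z hz), h3.trans hb₀, fun z hz => ?_⟩
  · have h5 := h1 z hz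
    rw [differentiableWithinAt_pi] at h5
    exact h5 b₀
  · by_cases h0 : F z b₀ = 0
    · exact Or.inl h0
    right
    rcases h4 z hz with h5 | ⟨c, hc, h5⟩
    · exact absurd (by rw [h5]; rfl) h0
    have e1 : h z b₀ = c • F z b₀ := congrFun h5 b₀
    have h6 : h z b₀ ≠ 0 := by
      rw [e1]
      exact smul_ne_zero hc h0
    obtain ⟨c', e2⟩ := Pool.Agent.H62.BU.comp_smul (h z) (hmem z) h6 (b z)
    have hc' : c' ≠ 0 := by
      intro h0
      rw [h0, zero_smul] at e2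
      exact hbne z e2
    exact ⟨c' * c, mul_ne_zero hc' hc, by simp only; rw [e2, e1, smul_smul]⟩

/-- entire curves in the blow-up -/
theorem brodyK_blow (hX : Surface X) (hl : Ker l q) (hKs : ∀ x ∈ K, ∀ c : ℂ, c ≠ 0 → c • x ∈ K)
    (hT : ∀ x ∈ T, ∀ c : ℂ, c ≠ 0 → c • x ∈ T) (hq : q ∈ T) (hb : Brody2 K T) : Brody2 (total l X K) (total l X T) := by
  have hX' : Pool.Agent.H62.BU.Surface X := Pool.Agent.H17BP.surface_iff.2 hX
  intro h hh hmemK hord hex z w
  have hmem : ∀ z, h z ∈ blow l X := fun z => (hmemK z).1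
  obtain ⟨z₁, hz₁⟩ := hex
  choose b hbne using fun z => Pool.Agent.H62.BU.exists_ne (h z) (hmem z)
  have hfK : ∀ z, h z (b z) ∈ K := fun z => (hmemK z).2 _ (hbne z)
  have hfB : ∀ z, h z ∈ total l X T ↔ h z (b z) ∈ T := fun z =>
    Pool.Agent.H62.BU.mem_total_iff hX' hT (h z) (hmem z) (hbne z)
  have hHol : ∀ z₀, HolP (fun z => h z (b z)) z₀ := by
    intro z₀
    obtain ⟨H, hHan, hH0, hHe⟩ := hh z₀
    obtain ⟨b₀, hb₀⟩ := Function.ne_iff.1 hH0
    have hb₀' : H z₀ b₀ ≠ 0 := hb₀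
    have han : AnalyticAt ℂ (fun z => H z b₀) z₀ := (analyticAt_pi_iff.1 hHan) b₀
    refine ⟨fun z => H z b₀, han, hb₀', ?_⟩
    filter_upwards [hHe, han.continuousAt.eventually_ne hb₀'] with z hz hz0
    obtain ⟨c, hc, e⟩ := hz
    have e1 : h z b₀ = c • H z b₀ := congrFun e b₀
    have h1 : h z b₀ ≠ 0 := by
      rw [e1]
      exact smul_ne_zero hc hz0
    obtain ⟨c', e2⟩ := Pool.Agent.H62.BU.comp_smul (h z) (hmem z) h1 (b z)
    have hc' : c' ≠ 0 := by
      intro h0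
      rw [h0, zero_smul] at e2
      exact hbne z e2
    refine ⟨c' * c, mul_ne_zero hc' hc, ?_⟩
    show h z (b z) = (c' * c) • H z b₀
    rw [e2, e1, smul_smul]
  have hall := hb (fun z => h z (b z)) hHol hfK (ordTwo_comp hmem hbne hord) ⟨z₁, fun hmemB => hz₁ ((hfB z₁).2 hmemB)⟩
  have hl' : ∀ z, ∃ b', l b' (h z (b z)) ≠ 0 := by
    intro z
    by_contra hcon
    push Not at hcon
    obtain ⟨c, e⟩ := (hl (h z (b z))).1 hcon
    have hc : c ≠ 0 := by
      intro h0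
      rw [h0, zero_smul] at e
      exact hbne z e
    have h1 : h z (b z) ∈ T := by
      rw [e]
      exact hT q hq c hc
    obtain ⟨d, hd, e'⟩ := hall z₁ z
    apply hz₁
    rw [hfB z₁]
    have e'' : h z₁ (b z₁) = d • h z (b z) := e'
    rw [e'']
    exact hT _ h1 d hd
  have hphi : ∀ z, Pr (h z) (phi l (h z (b z))) := by
    intro z
    obtain ⟨b', hb'⟩ := hl' z
    exact ⟨(l (b z) (h z (b z)))⁻¹, inv_ne_zero (Pool.Agent.H62.BU.ne_of_ne (h z) (hmem z) (hbne z) hb'),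
      Pool.Agent.H62.BU.eq_phi (h z) (hmem z) (hbne z) hb'⟩
  have hpp : Pr (phi l (h z (b z))) (phi l (h w (b w))) := by
    obtain ⟨c, hc, e⟩ := hall z w
    have e' : h z (b z) = c • h w (b w) := e
    refine ⟨c ^ 2, pow_ne_zero 2 hc, ?_⟩
    rw [e', Pool.Agent.H62.BU.phi_smul]
  exact ((hphi z).trans hpp).trans (hphi w).symm

/-- descent of the extension property -/
theorem picardK_blow (hX : Surface X) (hl : Ker l q) (hKX : K ⊆ X) (hKs : ∀ x ∈ K, ∀ c : ℂ, c ≠ 0 → c • x ∈ K) (hTX : T ⊆ X)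
    (hT : ∀ x ∈ T, ∀ c : ℂ, c ≠ 0 → c • x ∈ T) (hq : q ∈ T) (hp : Picard (total l X K) (total l X T)) : Picard K T := by
  intro r hr f hf hfB
  have hq0 : q ≠ 0 := fun h => hX.zero (h ▸ hTX hq)
  have hi := Pool.Agent.H17BP.isolated_of_notMem hl hT hq hq0 (fun z h1 h2 => (hf z h1 h2).1) hfB
  obtain ⟨h, h1, h2⟩ := Pool.Agent.H17BP.exists_lift hX hl hq0 (fun z hz hzr => ⟨(hf z hz hzr).1, hKX (hf z hz hzr).2⟩) hi
  obtain ⟨z, hz, hzr, hzB⟩ := hfB
  have h1K : ∀ z : ℂ, z ≠ 0 → ‖z‖ < r → HolP h z ∧ h z ∈ total l X K := by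
    intro z hz hzr
    refine ⟨(h1 z hz hzr).1, (h1 z hz hzr).2, fun b hb => ?_⟩
    obtain ⟨c, hc, e⟩ := (h2 z hz hzr b hb).symm
    rw [e]
    exact hKs _ (hf z hz hzr).2 c hc
  obtain ⟨G, hG, hG0, hGe⟩ := hp r hr h h1K ⟨z, hz, hzr, fun h3 => by
    obtain ⟨b, hb⟩ := Pool.Agent.H62.BU.exists_ne (h z) h3.1
    obtain ⟨c, hc, e⟩ := h2 z hz hzr b hb
    exact hzB (e ▸ hT _ (h3.2 b hb) c hc)⟩
  obtain ⟨b, hb⟩ : ∃ b, G 0 b ≠ 0 := by
    by_contra h3
    push Not at h3
    exact hG0 (funext h3)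
  have hGb : AnalyticAt ℂ (fun w => G w b) 0 := (analyticAt_pi_iff.1 hG) b
  refine ⟨fun w => G w b, hGb, hb, ?_⟩
  have hlt : ∀ᶠ w in 𝓝 (0 : ℂ), ‖w‖ < r :=
    continuous_norm.continuousAt.eventually_lt_const (by simpa using hr)
  filter_upwards [hGe, self_mem_nhdsWithin, hlt.filter_mono nhdsWithin_le_nhds,
    (hGb.continuousAt.eventually_ne hb).filter_mono nhdsWithin_le_nhds] with w h3 h4 h5 h6
  obtain ⟨c, hc, e⟩ := h3
  have h7 : h w b = c • G w b := by
    rw [e]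
    rfl
  exact (h2 w h4 h5 b (by rw [h7]; exact smul_ne_zero hc h6)).trans ⟨c, hc, h7⟩

end Pool.Agent.H36.BPL

end

section

/-!
# CV BirkB: a basis with minimal pole orders at infinity

`exists_bound`: the places with `ord x < 0` are finitely many (`finite_over` for `x⁻¹`, `Gen.inv`); `a ≥ - oz E f` for all of them.
`exists_min`: for every basis `w` with `AffB x w` (one exists: `exists_affB`) let `a i` be the least `a : ℕ` with `RegLoc x⁻¹ ((x⁻¹) ^ a * w i)` (`Nat.find`, `exists_bound`); choose `w` with `∑ a i`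
minimal (`Nat.find` or well-foundedness).  Claim: if `∑ i, γ i • ((x⁻¹) ^ a i * w i) = x⁻¹ * g` with `RegLoc x⁻¹ g`, `γ i : ℂ`, then all `γ i = 0`.  Suppose not; let `i₀` with `γ i₀ ≠ 0` and `a i₀`
maximal among the `a i` with `γ i ≠ 0`.  Let `c i = γ i • x ^ (a i₀ - a i)` if `γ i ≠ 0`, and `0` otherwise; `c i₀ = γ i₀`.  Multiplying by `x ^ a i₀`: `w₀' = ∑ c i * w i = x ^ (a i₀) * x⁻¹ * g`.
`AffB.replace` gives a basis `w'` with `w' i₀ = w₀'`.  If `1 ≤ a i₀` then `(x⁻¹) ^ (a i₀ - 1) * w₀' = g` is `RegLoc x⁻¹`, so the sum for `w'` is smaller: contradiction.  If `a i₀ = 0`, then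
`w₀' = x⁻¹ * g` is regular over `x = ∞`, with positive order there, and it is `RegAff x` (`AffB.basis_regAff` for `w'`); so it has no poles, and it has a zero at a place over `x = ∞` (`exists_place_inf`), so
`w₀' = 0` (`zero_of_no_pole`): contradiction, as it is an element of a basis.
-/

set_option autoImplicit false

open Pool.Agent.H23.Fano (PrimeDivisorOver Form regularForms)

noncomputable section

namespace Pool.Agent.H13.CV

attribute [-instance] ProperSMul.toContinuousSMul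

variable {K : Type} [Field K] [Algebra ℂ K] {L : IntermediateField ℂ K} {x : K} {n : ℕ}

theorem exists_bound (hL : Gen L x) [FiniteDimensional L K] (f : K) : ∃ a : ℕ, RegLoc x⁻¹ ((x⁻¹) ^ a * f) := by
  classical
  have hx := hL.ne_zero
  have hfin := finite_over (Gen.inv hL)
  rcases eq_or_ne f 0 with rfl | hf
  · refine ⟨0, fun E _ => ?_⟩
    rw [mul_zero, E.ord.map_zero]
    exact le_top
  refine ⟨∑ E ∈ hfin.toFinset, (-oz E f).toNat, fun E hE => ?_⟩
  rw [nonneg_iff]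
  right
  rw [oz_mul E (pow_ne_zero _ (inv_ne_zero hx)) hf, oz_pow]
  have h1 : 0 < oz E x⁻¹ := by
    rcases pos_iff.mp hE with h | h
    · exact absurd h (inv_ne_zero hx)
    · exact h
  have h2 : (-oz E f).toNat ≤ ∑ E ∈ hfin.toFinset, (-oz E f).toNat :=
    Finset.single_le_sum (f := fun E => (-oz E f).toNat) (fun _ _ => Nat.zero_le _) (hfin.mem_toFinset.mpr hE)
  have h3 : -oz E f ≤ ((∑ E ∈ hfin.toFinset, (-oz E f).toNat : ℕ) : ℤ) :=
    (Int.self_le_toNat _).trans (by exact_mod_cast h2)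
  have h4 : (0 : ℤ) ≤ ((∑ E ∈ hfin.toFinset, (-oz E f).toNat : ℕ) : ℤ) := Int.natCast_nonneg _
  generalize ((∑ E ∈ hfin.toFinset, (-oz E f).toNat : ℕ) : ℤ) = s at h3 h4 ⊢
  nlinarith

theorem exists_min (hK : CurveField K) (hL : Gen L x) [FiniteDimensional L K] :
    ∃ (w : Module.Basis (Fin (Module.finrank L K)) L K) (a : Fin (Module.finrank L K) → ℕ), AffB x w ∧ (∀ i, RegLoc x⁻¹ ((x⁻¹) ^ a i * w i)) ∧
      ∀ (γ : Fin (Module.finrank L K) → ℂ) (g : K), RegLoc x⁻¹ g → ∑ i, γ i • ((x⁻¹) ^ a i * w i) = x⁻¹ * g → ∀ i, γ i = 0 := by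
  classical
  have hx := hL.ne_zero
  have hP : ∃ s : ℕ, ∃ (w : Module.Basis (Fin (Module.finrank L K)) L K) (a : Fin (Module.finrank L K) → ℕ),
      AffB x w ∧ (∀ i, RegLoc x⁻¹ ((x⁻¹) ^ a i * w i)) ∧ ∑ i, a i = s := by
    obtain ⟨w, hw⟩ := exists_affB hL
    choose a ha using fun i => exists_bound hL (w i)
    exact ⟨_, w, a, hw, ha, rfl⟩
  obtain ⟨w, a, hw, ha, hs⟩ := Nat.find_spec hP
  have hmin : ∀ (w' : Module.Basis (Fin (Module.finrank L K)) L K) (a' : Fin (Module.finrank L K) → ℕ), AffB x w' →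
      (∀ i, RegLoc x⁻¹ ((x⁻¹) ^ a' i * w' i)) → ∑ i, a i ≤ ∑ i, a' i := by
    intro w' a' h1 h2
    rw [hs]
    exact Nat.find_min' hP ⟨w', a', h1, h2, rfl⟩
  refine ⟨w, a, hw, ha, fun γ g hg hsum => ?_⟩
  by_contra hcon
  push Not at hcon
  obtain ⟨i₁, hi₁⟩ := hcon
  obtain ⟨i₀, hi₀, hmax⟩ := Finset.exists_max_image (Finset.univ.filter fun i => γ i ≠ 0) a
    ⟨i₁, Finset.mem_filter.mpr ⟨Finset.mem_univ _, hi₁⟩⟩
  have hγ : γ i₀ ≠ 0 := (Finset.mem_filter.mp hi₀).2
  have hmax' : ∀ i, γ i ≠ 0 → a i ≤ a i₀ := fun i hi => hmax i (Finset.mem_filter.mpr ⟨Finset.mem_univ _, hi⟩)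
  have hxm : x ∈ Algebra.adjoin ℂ {x} := Algebra.subset_adjoin rfl
  obtain ⟨w', hw', hw0, hwi⟩ := AffB.replace hL hw i₀ (fun i => γ i • x ^ (a i₀ - a i))
    (fun i => Subalgebra.smul_mem _ (Subalgebra.pow_mem _ hxm _) _) hγ
    (by simp [Algebra.smul_def])
  have hkey : w' i₀ = x ^ (a i₀) * (x⁻¹ * g) := by
    rw [hw0, ← hsum, Finset.mul_sum]
    refine Finset.sum_congr rfl fun i _ => ?_
    rcases eq_or_ne (γ i) 0 with h | h
    · simp [h]
    · have h1 : x ^ (a i₀ - a i) = x ^ a i₀ * (x⁻¹) ^ a i := by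
        rw [inv_pow, pow_sub₀ x hx (hmax' i h)]
      rw [h1]
      simp only [Algebra.smul_def]
      ring
  rcases Nat.eq_zero_or_pos (a i₀) with h0 | h0
  · -- no poles and a zero
    rw [h0, pow_zero, one_mul] at hkey
    have h1 : ∀ E : Place K, 0 ≤ E.ord (w' i₀) := by
      intro E
      rcases le_or_gt 0 (E.ord x) with h | h
      · exact hw'.basis_regAff i₀ E h
      · rw [hkey]
        have h2 : 0 < E.ord x⁻¹ := (inv_pos_iff hx).mpr h
        exact (pos_mul h2 (hg E h2)).le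
    obtain ⟨E, hE⟩ := exists_place_inf hK hL.tr
    have h2 : 0 < E.ord x⁻¹ := (inv_pos_iff hx).mpr hE
    have h3 : w' i₀ = 0 := zero_of_no_pole hK h1 ⟨E, by rw [hkey]; exact pos_mul h2 (hg E h2)⟩
    exact w'.ne_zero i₀ h3
  · have h1 := hmin w' (Function.update a i₀ (a i₀ - 1)) hw' (fun i => by
      rcases eq_or_ne i i₀ with rfl | hi
      · rw [Function.update_self, hkey]
        have h2 : (x⁻¹) ^ (a i - 1) * (x ^ a i * (x⁻¹ * g)) = g := by
          obtain ⟨k, hk⟩ : ∃ k, a i = k + 1 := ⟨a i - 1, by omega⟩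
          rw [hk, Nat.add_sub_cancel, pow_succ]
          have h3 : (x⁻¹) ^ k * x ^ k = 1 := by rw [inv_pow]; exact inv_mul_cancel₀ (pow_ne_zero _ hx)
          calc (x⁻¹) ^ k * (x ^ k * x * (x⁻¹ * g)) = ((x⁻¹) ^ k * x ^ k) * (x * x⁻¹) * g := by ring
            _ = g := by rw [h3, mul_inv_cancel₀ hx, one_mul, one_mul]
        rw [h2]
        exact hg
      · rw [Function.update_of_ne hi, hwi i hi]
        exact ha i)
    have h2 : ∑ i, Function.update a i₀ (a i₀ - 1) i < ∑ i, a i := by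
      refine Finset.sum_lt_sum (fun i _ => ?_) ⟨i₀, Finset.mem_univ _, ?_⟩
      · rcases eq_or_ne i i₀ with rfl | hi
        · rw [Function.update_self]
          omega
        · rw [Function.update_of_ne hi]
      · rw [Function.update_self]
        omega
    omega

end Pool.Agent.H13.CV

end
end

section

/-!
# CV BirkC: Birkhoff bases

`exists_birk`: `w, a` as in `exists_min`; claim: `Birk x w a`.  Let `y = x⁻¹` (`Gen L y`, there is a place over `y = 0`).  (⇐ of `inf`) `f = ∑ (x ^ a i * r i) * (y ^ a i * w i)`, `r i = w.repr f i`.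
(⇒ of `inf`) Let `RegLoc y f`, `s i = x ^ a i * r i ∈ L`, `f = ∑ s i * (y ^ a i * w i)`.  By `exists_zpow` (for `y`): for the `s i ≠ 0`: `oz E (s i) = k i * oz E y` for all `E` over `y = 0`.
Suppose that not all `s i` are `RegLoc y`; so some `k i < 0`; let `k₀ < 0` be the least of the `k i` (`s i ≠ 0`).  `s' i = y ^ (-k₀) * s i` is `RegLoc y` for all `i`, in `L`, and for an `i₁` with
`k i₁ = k₀` it has order `0` at the places over `y = 0`.  `∑ s' i * (y ^ a i * w i) = y ^ (-k₀) * f = y * (y ^ (-k₀ - 1) * f)`.  By `exists_residue`: `s' i = γ i + y * s'' i`, with `RegLoc y (s'' i)`; so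
`∑ γ i • (y ^ a i * w i) = y * g` with `g = y ^ (-k₀ - 1) * f - ∑ s'' i * (y ^ a i * w i)`, `RegLoc y g`.  So all `γ i = 0` by `exists_min`; but `s' i₁ = y * s'' i₁` has positive order at a place over `y = 0`:
contradiction.

`Birk.exists_zero`: `1 = ∑ r i * w i` is `RegAff x` and `RegLoc x⁻¹`, so `r i ∈ ℂ[x]` and `RegLoc x⁻¹ (x ^ a i * r i)`; by `poly_inf`, `r i = 0` if `1 ≤ a i`; as `1 ≠ 0` there is `i₀` with `a i₀ = 0`.
If `a i = 0` then `w i` is `RegAff x` and (its coordinates are `0` and `1`) `RegLoc x⁻¹`; so it has no poles and is a constant.  Two different elements of the basis are not both constants (linearly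
independent over `L ∋` constants).
`Birk.pole`: `(x⁻¹) ^ a i * w i` is `RegLoc x⁻¹`: its `i`-th coordinate times `x ^ a i` is `1`.
-/

set_option autoImplicit false

open Pool.Agent.H23.Fano (PrimeDivisorOver Form regularForms)

noncomputable section

namespace Pool.Agent.H13.CV

attribute [-instance] ProperSMul.toContinuousSMul

variable {K : Type} [Field K] [Algebra ℂ K] {L : IntermediateField ℂ K} {x : K} {n : ℕ}

theorem exists_birk (hK : CurveField K) (hL : Gen L x) [FiniteDimensional L K] :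
    ∃ (w : Module.Basis (Fin (Module.finrank L K)) L K) (a : Fin (Module.finrank L K) → ℕ), Birk x w a := by
  obtain ⟨w, a, hA, hreg, hmin⟩ := exists_min hK hL
  refine ⟨w, a, hA, fun f => ?_⟩
  have hx0 : x ≠ 0 := hL.ne_zero
  have hsum : f = ∑ i, (x ^ a i * ((w.repr f i : L) : K)) * ((x⁻¹) ^ a i * w i) := by
    conv_lhs => rw [BC_sum w f]
    refine Finset.sum_congr rfl fun i _ => ?_
    have h1 : x ^ a i * (x⁻¹) ^ a i = 1 := by rw [← mul_pow, mul_inv_cancel₀ hx0, one_pow]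
    calc ((w.repr f i : L) : K) * w i = (x ^ a i * (x⁻¹) ^ a i) * (((w.repr f i : L) : K) * w i) := by
          rw [h1, one_mul]
      _ = _ := by ring
  constructor
  · intro hf
    have hL' : ∀ i, x ^ a i * ((w.repr f i : L) : K) ∈ L := fun i =>
      L.mul_mem (pow_mem hL.mem _) (w.repr f i).2
    have hb := fun i => exists_bound hL (x ^ a i * ((w.repr f i : L) : K))
    choose m hm using hb
    refine BC_step hL (exists_place_over hK hL.inv.tr) hreg hmin (Finset.univ.sup m) _ hL' (fun i => ?_) ?_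
    · have h1 : m i ≤ Finset.univ.sup m := Finset.le_sup (Finset.mem_univ i)
      have h2 := BC_mul (BC_pow x⁻¹ (Finset.univ.sup m - m i)) (hm i)
      rwa [← mul_assoc, ← pow_add, Nat.sub_add_cancel h1] at h2
    · rw [← hsum]
      exact hf
  · intro h E hE
    rw [hsum]
    exact nonneg_sum fun i _ => nonneg_mul (h i E hE) (hreg i E hE)

theorem Birk.exists_zero (hK : CurveField K) (hL : Gen L x) {w : Module.Basis (Fin n) L K} {a : Fin n → ℕ} (hw : Birk x w a) :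
    ∃ i₀, a i₀ = 0 ∧ ∀ i, i ≠ i₀ → 1 ≤ a i := by
  have hinf := exists_place_inf hK hL.tr
  have h1 : ∃ i₀, a i₀ = 0 := by
    by_contra hcon
    push Not at hcon
    have haff := (hw.aff 1).1 fun E _ => by rw [E.ord.map_one]
    have hloc := (hw.inf 1).1 (BC_one _)
    have h2 : (1 : K) = 0 := by
      rw [BC_sum w 1]
      refine Finset.sum_eq_zero fun i _ => ?_
      rw [(poly_inf hL hinf (haff i) (hloc i)).1 (Nat.one_le_iff_ne_zero.2 (hcon i)), zero_mul]
    exact one_ne_zero h2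
  obtain ⟨i₀, hi₀⟩ := h1
  have hconst : ∀ j, a j = 0 → ∃ c : ℂ, w j = algebraMap ℂ K c := by
    intro j hj
    refine const_of_no_pole hK fun E => ?_
    rcases lt_or_ge (E.ord x) 0 with h | h
    · have h2 := BC_pole hL hw j E ((inv_pos_iff hL.ne_zero).2 h)
      rwa [hj, pow_zero, one_mul] at h2
    · exact hw.aff.basis_regAff j E h
  refine ⟨i₀, hi₀, fun i hi => ?_⟩
  rw [Nat.one_le_iff_ne_zero]
  intro hai
  obtain ⟨c₀, hc₀⟩ := hconst i₀ hi₀
  obtain ⟨c, hc⟩ := hconst i hai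
  have h3 : (algebraMap ℂ L c₀) • w i = (algebraMap ℂ L c) • w i₀ := by
    rw [hc, hc₀]
    show algebraMap ℂ K c₀ * algebraMap ℂ K c = algebraMap ℂ K c * algebraMap ℂ K c₀
    ring
  have h4 := congrArg (fun v => w.repr v i) h3
  simp only [map_smul, w.repr_self, Finsupp.smul_apply, Finsupp.single_apply, if_neg hi.symm,
    if_true, smul_eq_mul, mul_one, mul_zero] at h4
  have h5 : c₀ = 0 := by
    by_contra hne
    exact hne ((algebraMap ℂ L).injective (by rw [h4, map_zero]))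
  rw [h5, map_zero] at hc₀
  exact w.ne_zero i₀ hc₀

end Pool.Agent.H13.CV

end
end
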