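import Pool.Agent.H94.CB.H13.CV.Loc
import Pool.Agent.H94.CB.M39
import Pool.Agent.H94.CB.M46
import Pool.Agent.H94.CB.M62

/-! The parts of this file: H13.CV.Deg, H13.CV.CaseA, H13.CV.Dims, H13.CV.Idem, H13.CV.Tame, H13.CV.RegF. -/

section

/-!
# CV Deg: the degree of the divisor `x = 0`

`≤`: `sum_le`.  `≥`: let `w` be a basis as in `exists_locB`, `W` the span of the `w i` over `ℂ`: it has dimension `n = finrank L K` (the `w i` are linearly independent over `L`, so over `ℂ`:
`LinearIndependent.restrict_scalars`), and `W ≤ ordGe E 0` for the places over `x = 0`.  `finrank_le_steps` with `d = 0`, `e E = (oz E x).toNat`: it suffices that `W ⊓ ⨅ E ∈ T, ordGe E (oz E x)` is zero.  Let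
`f = ∑ γ i • w i` be in it.  Then `RegLoc x (f / x)`, and its coordinates are `γ i / x`; so `0 ≤ ord (γ i / x)` at the places over `x = 0`; there is one (`exists_place_over`), and if `γ i ≠ 0` then
`ord (γ i / x) = - ord x < 0`.  So all `γ i = 0`.
`degree_inf`: `degree_eq` for `x⁻¹` (`Gen.inv`).
`adjoin_eq_top_of_simple_pole`: `f` is transcendental (`tr_of_oz_ne`); `degree_inf` for `x = f`, `L = ℂ(f)`, `T = {E}`: `finrank L K = 1`, so `L = ⊤`.
`adjoin_eq_top_of_double_pole`: `finrank ℂ(u) K = 2` (`degree_inf`).  The elements `c ≠ 0` of `ℂ(u)` have even order at `E` (`exists_zpow` for `x = u⁻¹`: `oz E c = k * 2`), so `v ∉ ℂ(u)`.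
`ℂ(u) < ℂ(u, v) ≤ K` and `finrank ℂ(u) K = 2`, so `ℂ(u, v) = K` (`1, v` are linearly independent over `ℂ(u)`, so they are a basis of `K` over `ℂ(u)`; or multiplicativity of degrees).
-/

set_option autoImplicit false

open Pool.Agent.H23.Fano (PrimeDivisorOver Form regularForms)

noncomputable section

namespace Pool.Agent.H13.CV

attribute [-instance] ProperSMul.toContinuousSMul

variable {K : Type} [Field K] [Algebra ℂ K] {L : IntermediateField ℂ K} {x : K}

theorem degree_eq (hK : CurveField K) (hL : Gen L x) [FiniteDimensional L K] (T : Finset (Place K)) (hT : ∀ E, E ∈ T ↔ 0 < E.ord x) :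
    ∑ E ∈ T, oz E x = (Module.finrank L K : ℤ) := by
  classical
  have hx0 : x ≠ 0 := hL.ne_zero
  apply le_antisymm (sum_le hL T (fun E hE => (hT E).1 hE))
  obtain ⟨w, hw⟩ := exists_locB hK hL
  have hinj : Function.Injective (fun r : ℂ => r • (1 : L)) := by
    intro a b hab
    have h1 : algebraMap ℂ L a = algebraMap ℂ L b := by
      simpa [Algebra.algebraMap_eq_smul_one] using hab
    exact (algebraMap ℂ L).injective h1
  have hli : LinearIndependent ℂ (w : Fin (Module.finrank L K) → K) := w.linearIndependent.restrict_scalars hinj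
  have hWdim : Module.finrank ℂ (Submodule.span ℂ (Set.range w)) = Module.finrank L K := by
    rw [finrank_span_eq_card hli, Fintype.card_fin]
  have : FiniteDimensional ℂ (Submodule.span ℂ (Set.range w)) := FiniteDimensional.span_of_finite ℂ (Set.finite_range w)
  have hW0 : ∀ E ∈ T, Submodule.span ℂ (Set.range w) ≤ ordGe E 0 := by
    intro E hE
    rw [Submodule.span_le]
    rintro _ ⟨i, rfl⟩
    exact hw.basis_regLoc i E ((hT E).1 hE)
  have hpos : ∀ E ∈ T, 0 < oz E x := by
    intro E hE
    rcases pos_iff.1 ((hT E).1 hE) with h | h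
    · exact absurd h hx0
    · exact h
  have h1 := finrank_le_steps hK (Submodule.span ℂ (Set.range w)) T (fun _ => 0) (fun E => (oz E x).toNat) hW0
  have hbot : (Submodule.span ℂ (Set.range w) ⊓ ⨅ E ∈ T, ordGe E ((0 : ℤ) + ((oz E x).toNat : ℤ)) : Submodule ℂ K) = ⊥ := by
    rw [eq_bot_iff]
    intro f hf
    obtain ⟨hf1, hf2⟩ := Submodule.mem_inf.1 hf
    obtain ⟨γ, hγ⟩ := (Submodule.mem_span_range_iff_exists_fun ℂ).1 hf1
    have hf3 : ∀ E ∈ T, ((oz E x : ℤ) : WithTop ℤ) ≤ E.ord f := by
      intro E hE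
      have h2 := (Submodule.mem_iInf _).1 hf2 E
      have h3 := (Submodule.mem_iInf _).1 h2 hE
      rw [mem_ordGe, zero_add, Int.toNat_of_nonneg (hpos E hE).le] at h3
      exact h3
    have hreg : RegLoc x (f / x) := by
      intro E hE
      by_cases hf0 : f = 0
      · rw [hf0, zero_div, E.ord.map_zero]
        exact le_top
      · have h4 := hf3 E ((hT E).2 hE)
        rw [le_ord_iff] at h4
        rcases h4 with h4 | h4
        · exact absurd h4 hf0
        · rw [nonneg_iff]
          right
          rw [oz_div E hf0 hx0]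
          omega
    let xi : L := ⟨x, hL.mem⟩
    have hcoord : w.repr (f / x) = Finsupp.equivFunOnFinite.symm (fun i => xi⁻¹ * algebraMap ℂ L (γ i)) := by
      have h5 : f / x = ∑ i, (xi⁻¹ * algebraMap ℂ L (γ i)) • w i := by
        rw [← hγ, Finset.sum_div]
        refine Finset.sum_congr rfl fun i _ => ?_
        rw [Algebra.smul_def, Algebra.smul_def]
        have h6 : algebraMap L K (xi⁻¹ * algebraMap ℂ L (γ i)) = x⁻¹ * algebraMap ℂ K (γ i) := by
          rw [map_mul, map_inv₀]
          rfl
        rw [h6]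
        field_simp
      rw [h5]
      ext i
      rw [w.repr_sum_self]
      rfl
    have hall : ∀ i, γ i = 0 := by
      intro i
      by_contra hne
      obtain ⟨E, hE⟩ := exists_place_over hK hL.tr
      have h7 := (hw (f / x)).1 hreg i E hE
      rw [hcoord] at h7
      have h8 : ((Finsupp.equivFunOnFinite.symm (fun i => xi⁻¹ * algebraMap ℂ L (γ i)) i : L) : K) = algebraMap ℂ K (γ i) / x := by
        show (((xi⁻¹ * algebraMap ℂ L (γ i) : L)) : K) = _
        have h9 : (((xi⁻¹ * algebraMap ℂ L (γ i) : L)) : K) = x⁻¹ * algebraMap ℂ K (γ i) := rfl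
        rw [h9]
        field_simp
      rw [h8] at h7
      have hc0 : algebraMap ℂ K (γ i) ≠ 0 := by
        intro h
        exact hne ((map_eq_zero _).1 h)
      have hp := hpos E ((hT E).2 hE)
      rcases nonneg_iff.1 h7 with h10 | h10
      · rw [div_eq_zero_iff] at h10
        rcases h10 with h10 | h10
        · exact hc0 h10
        · exact hx0 h10
      · rw [oz_div E hc0 hx0, oz_const] at h10
        omega
    rw [Submodule.mem_bot, ← hγ]
    refine Finset.sum_eq_zero fun i _ => ?_
    rw [hall i, zero_smul]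
  have h11 : Module.finrank L K ≤ ∑ E ∈ T, (oz E x).toNat := by
    rw [hbot, finrank_bot, zero_add, hWdim] at h1
    exact h1
  have h13 : ∑ E ∈ T, oz E x = ((∑ E ∈ T, (oz E x).toNat : ℕ) : ℤ) := by
    rw [Nat.cast_sum]
    refine Finset.sum_congr rfl fun E hE => ?_
    rw [Int.toNat_of_nonneg (hpos E hE).le]
  rw [h13]
  exact_mod_cast h11

theorem degree_inf (hK : CurveField K) (hL : Gen L x) [FiniteDimensional L K] (T : Finset (Place K)) (hT : ∀ E, E ∈ T ↔ E.ord x < 0) :
    ∑ E ∈ T, -oz E x = (Module.finrank L K : ℤ) := by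
  have h := degree_eq hK hL.inv T (fun E => by rw [hT, inv_pos_iff hL.ne_zero])
  rw [← h]
  exact Finset.sum_congr rfl fun E _ => (oz_inv E x).symm

/-- a function whose only pole is a simple pole generates the field -/
theorem adjoin_eq_top_of_simple_pole (hK : CurveField K) {f : K} {E : Place K} (hE : oz E f = -1) (h : ∀ E' : Place K, E' ≠ E → 0 ≤ E'.ord f) :
    IntermediateField.adjoin ℂ {f} = ⊤ := by
  classical
  have htr : Transcendental ℂ f := tr_of_oz_ne (E := E) (by omega)
  have := hK.fin f htr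
  have hG : Gen (IntermediateField.adjoin ℂ {f}) f := ⟨htr, rfl⟩
  have h1 := degree_inf hK hG {E} (fun E' => by
    rw [Finset.mem_singleton]
    constructor
    · rintro rfl
      rw [neg_iff]
      omega
    · intro h2
      by_contra hne
      exact absurd (h E' hne) (not_le.2 h2))
  rw [Finset.sum_singleton, hE] at h1
  rw [← IntermediateField.finrank_eq_one_iff_eq_top]
  omega

/-- a function `u` with a double pole at `E` and no other poles, and a function `v` with odd order at `E`, generate the field -/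
theorem adjoin_eq_top_of_double_pole (hK : CurveField K) {u v : K} {E : Place K} (hE : oz E u = -2) (h : ∀ E' : Place K, E' ≠ E → 0 ≤ E'.ord u) (hv : Odd (oz E v)) :
    v ∉ IntermediateField.adjoin ℂ {u} ∧ IntermediateField.adjoin ℂ {u, v} = ⊤ := by
  classical
  have htr : Transcendental ℂ u := tr_of_oz_ne (E := E) (by omega)
  have := hK.fin u htr
  have hG : Gen (IntermediateField.adjoin ℂ {u}) u := ⟨htr, rfl⟩
  have hneg : E.ord u < 0 := by
    rw [neg_iff]
    omega
  have h1 := degree_inf hK hG {E} (fun E' => by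
    rw [Finset.mem_singleton]
    constructor
    · rintro rfl
      exact hneg
    · intro h2
      by_contra hne
      exact absurd (h E' hne) (not_le.2 h2))
  rw [Finset.sum_singleton, hE] at h1
  have hv0 : v ≠ 0 := by
    rintro rfl
    rw [oz_zero] at hv
    exact absurd hv (by decide)
  have hvL : v ∉ IntermediateField.adjoin ℂ {u} := by
    intro hmem
    obtain ⟨k, hk⟩ := exists_zpow hG.inv hmem hv0
    have h2 := hk E ((inv_pos_iff hG.ne_zero).2 hneg)
    rw [oz_inv, hE] at h2
    rw [h2] at hv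
    obtain ⟨m, hm⟩ := hv
    omega
  refine ⟨hvL, ?_⟩
  have hli : LinearIndependent (IntermediateField.adjoin ℂ {u}) ![(1 : K), v] := by
    rw [LinearIndependent.pair_iff]
    intro s t hst
    have ht : t = 0 := by
      by_contra ht
      apply hvL
      have h3 : v = ((-s / t : IntermediateField.adjoin ℂ {u}) : K) := by
        have ht' : (t : K) ≠ 0 := by
          intro h4
          exact ht (Subtype.ext h4)
        have h5 : (s : K) + (t : K) * v = 0 := by
          have h6 := hst
          rw [Algebra.smul_def, Algebra.smul_def, mul_one] at h6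
          exact h6
        have h7 : ((-s / t : IntermediateField.adjoin ℂ {u}) : K) = -(s : K) / (t : K) := rfl
        rw [h7, eq_div_iff ht']
        linear_combination h5
      rw [h3]
      exact Subtype.mem _
    refine ⟨?_, ht⟩
    rw [ht, zero_smul, add_zero, Algebra.smul_def, mul_one] at hst
    exact Subtype.ext hst
  have hspan := hli.span_eq_top_of_card_eq_finrank' (by
    rw [Fintype.card_fin]
    omega)
  rw [eq_top_iff]
  intro y _
  have hy : y ∈ Submodule.span (IntermediateField.adjoin ℂ {u}) (Set.range ![(1 : K), v]) := by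
    rw [hspan]
    exact Submodule.mem_top
  rw [Matrix.range_cons, Matrix.range_cons, Matrix.range_empty, Set.union_empty, ← Set.insert_eq, Submodule.mem_span_pair] at hy
  obtain ⟨a, b, hab⟩ := hy
  have hle : IntermediateField.adjoin ℂ {u} ≤ IntermediateField.adjoin ℂ {u, v} :=
    IntermediateField.adjoin.mono ℂ _ _ (by simp)
  have hvm : v ∈ IntermediateField.adjoin ℂ {u, v} := IntermediateField.subset_adjoin ℂ _ (by simp)
  rw [← hab, Algebra.smul_def, Algebra.smul_def, mul_one]
  exact add_mem (hle a.2) (mul_mem (hle b.2) hvm)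

end Pool.Agent.H13.CV

end
end

section

/-!
# CV CaseA: functions with a simple pole

`top_of_dv_one`: `f` has a pole (`const_of_no_pole`), so `oz E f = - 1` and there are no other poles: `adjoin_eq_top_of_simple_pole`.
`exists_not_const`: the constants form a subspace of dimension `1`, it does not contain `W`.
-/

set_option autoImplicit false

open Pool.Agent.H23.Fano (PrimeDivisorOver Form regularForms)

noncomputable section

namespace Pool.Agent.H13.CV

attribute [-instance] ProperSMul.toContinuousSMul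

variable {K : Type} [Field K] [Algebra ℂ K]

/-- a non-constant function with at most a simple pole at `E` generates the field -/
theorem top_of_dv_one (hK : CurveField K) {E : Place K} {f : K} (hf : f ∈ LD (dv E 1)) (hc : ∀ c : ℂ, f ≠ algebraMap ℂ K c) :
    IntermediateField.adjoin ℂ {f} = ⊤ := by
  have hf' : ∀ E' : Place K, ((-(dv E 1 E') : ℤ) : WithTop ℤ) ≤ E'.ord f := by
    intro E'
    have h1 := (Submodule.mem_iInf _).mp hf E'
    exact h1
  have hoth : ∀ E' : Place K, E' ≠ E → 0 ≤ E'.ord f := by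
    intro E' hE'
    have h1 := hf' E'
    unfold dv at h1
    rw [if_neg hE', neg_zero] at h1
    exact h1
  have hE1 : ((-1 : ℤ) : WithTop ℤ) ≤ E.ord f := by
    have h1 := hf' E
    unfold dv at h1
    rw [if_pos rfl] at h1
    exact h1
  have hneg : E.ord f < 0 := by
    by_contra h
    rw [not_lt] at h
    obtain ⟨c, hc'⟩ := const_of_no_pole hK (f := f) (fun E' => by
      by_cases hE' : E' = E
      · rw [hE']
        exact h
      · exact hoth E' hE')
    exact hc c hc'
  refine adjoin_eq_top_of_simple_pole hK (E := E) ?_ hoth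
  unfold oz
  have hne : E.ord f ≠ ⊤ := by
    intro h
    rw [h] at hneg
    exact absurd hneg (not_lt.mpr le_top)
  obtain ⟨a, ha⟩ := WithTop.ne_top_iff_exists.mp hne
  rw [← ha] at hneg hE1 ⊢
  have h1 : a < 0 := by exact_mod_cast hneg
  have h2 : -1 ≤ a := by exact_mod_cast hE1
  have h3 : a = -1 := by omega
  rw [h3]
  rfl

theorem exists_not_const {W : Submodule ℂ K} [FiniteDimensional ℂ W] (h : 2 ≤ Module.finrank ℂ W) : ∃ f ∈ W, ∀ c : ℂ, f ≠ algebraMap ℂ K c := by
  by_contra hcon
  push Not at hcon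
  have hle : W ≤ Submodule.span ℂ {(1 : K)} := by
    intro f hf
    obtain ⟨c, hc⟩ := hcon f hf
    rw [Submodule.mem_span_singleton]
    exact ⟨c, by rw [hc, Algebra.smul_def, mul_one]⟩
  have h1 := Submodule.finrank_mono hle
  have h2 : Module.finrank ℂ (Submodule.span ℂ {(1 : K)}) ≤ 1 := by
    have := finrank_span_le_card (R := ℂ) ({(1 : K)} : Set K)
    simpa using this
  omega

end Pool.Agent.H13.CV

end
end

section

/-!
# CV Dims: dimensions of spaces of functions with given poles

`exists_W`: the functions `x ^ j * w i`, `0 ≤ j ≤ m - a i` (`j < m + 1 - a i`), are linearly independent over `ℂ` (the `w i` are a basis over `L`, and the powers of `x` are linearly independent over `ℂ`), their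
number is `∑ i, (m + 1 - a i)` (truncated subtraction).  They are `RegAff x`, and at the places with `ord x < 0` their order is `≥ (j + a i) * oz E x ≥ m * oz E x` (`Birk.pole`); `polar x E = - oz E x` there and
`0` elsewhere.  `W` is their span.

`exists_dv`: let `E` be a place with `ord x < 0`, `k ≤ m * (- oz E x)`.  Let `W ≤ LD (m * polar x)` as in `exists_W`, `T` the finite set of the places with `ord x < 0`, `∑ E' ∈ T, - oz E' x = n`
(`degree_inf`, `n = finrank L K`).  Apply `finrank_le_steps` with `d E' = - m * polar x E' = m * oz E' x`, `e E' = m * (- oz E' x)` for `E' ≠ E` and `e E = m * (- oz E x) - k`: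
`W' = W ⊓ ⨅ E' ∈ T, ordGe E' (d E' + e E')` is contained in `LD (dv E k)` and `finrank W ≤ finrank W' + (m * n - k)`.
-/

set_option autoImplicit false

open Pool.Agent.H23.Fano (PrimeDivisorOver Form regularForms)

noncomputable section

namespace Pool.Agent.H13.CV

attribute [-instance] ProperSMul.toContinuousSMul

variable {K : Type} [Field K] [Algebra ℂ K] {L : IntermediateField ℂ K} {x : K} {n : ℕ}

/-- the powers of a transcendental element are linearly independent -/
private theorem Dims_pow (hL : Gen L x) : LinearIndependent ℂ (fun j : ℕ => (⟨x, hL.mem⟩ : L) ^ j) := by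
  have h1 : Transcendental ℂ (⟨x, hL.mem⟩ : L) := by
    intro h
    apply hL.tr
    have h2 := (isAlgebraic_algebraMap_iff (R := ℂ) (S := L) (A := K) (a := (⟨x, hL.mem⟩ : L))
      (algebraMap L K).injective).2 h
    exact h2
  have h2 := transcendental_iff_injective.1 h1
  have h3 : LinearIndependent ℂ (fun j : ℕ => (Polynomial.monomial j (1 : ℂ))) := by
    have := (Polynomial.basisMonomials ℂ).linearIndependent
    rwa [Polynomial.coe_basisMonomials] at this
  have h4 := h3.map' (Polynomial.aeval (⟨x, hL.mem⟩ : L)).toLinearMap (LinearMap.ker_eq_bot.2 h2)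
  have h5 : (⇑(Polynomial.aeval (⟨x, hL.mem⟩ : L)).toLinearMap ∘ fun j : ℕ => (Polynomial.monomial j (1 : ℂ))) =
      fun j : ℕ => (⟨x, hL.mem⟩ : L) ^ j := by
    funext j
    simp [Polynomial.aeval_monomial]
  rwa [h5] at h4

private theorem Dims_polar_of_neg {E : Place K} (hE : E.ord x < 0) : polar x E = -oz E x := by
  have h1 := neg_iff.1 hE
  unfold polar
  omega

private theorem Dims_polar_of_nonneg {E : Place K} (hx : x ≠ 0) (hE : 0 ≤ E.ord x) : polar x E = 0 := by
  have h1 := (nonneg_iff.1 hE).resolve_left hx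
  unfold polar
  omega

theorem Birk.exists_W (hK : CurveField K) (hL : Gen L x) {w : Module.Basis (Fin n) L K} {a : Fin n → ℕ} (hw : Birk x w a) (m : ℕ) :
    ∃ W : Submodule ℂ K, FiniteDimensional ℂ W ∧ W ≤ LD (fun E => m * polar x E) ∧ Module.finrank ℂ W = ∑ i, (m + 1 - a i) := by
  have hx : x ≠ 0 := hL.ne_zero
  have h1 : LinearIndependent ℂ (fun p : ℕ × Fin n => ((⟨x, hL.mem⟩ : L) ^ p.1) • w p.2) :=
    linearIndependent_smul (Dims_pow hL) w.linearIndependent
  have h2 : LinearIndependent ℂ (fun p : (i : Fin n) × Fin (m + 1 - a i) => x ^ (p.2 : ℕ) * w p.1) := by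
    have h3 := h1.comp (fun p : (i : Fin n) × Fin (m + 1 - a i) => ((p.2 : ℕ), p.1)) (by
      rintro ⟨i, j⟩ ⟨i', j'⟩ h
      simp only [Prod.mk.injEq] at h
      obtain ⟨h4, h5⟩ := h
      subst h5
      have h6 : j = j' := Fin.ext h4
      rw [h6])
    refine h3
  refine ⟨Submodule.span ℂ (Set.range fun p : (i : Fin n) × Fin (m + 1 - a i) => x ^ (p.2 : ℕ) * w p.1),
    FiniteDimensional.span_of_finite ℂ (Set.finite_range _), ?_, ?_⟩
  · rw [Submodule.span_le]
    rintro _ ⟨⟨i, j⟩, rfl⟩
    show x ^ (j : ℕ) * w i ∈ LD _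
    rw [mem_LD]
    intro E
    have hwi : w i ≠ 0 := w.ne_zero i
    have hxj : x ^ (j : ℕ) ≠ 0 := pow_ne_zero _ hx
    rw [le_ord_iff]
    right
    rw [oz_mul E hxj hwi, oz_pow]
    have hj : (j : ℕ) < m + 1 - a i := j.2
    rcases lt_or_ge (E.ord x) 0 with hE | hE
    · show -((m : ℤ) * polar x E) ≤ _
      rw [Dims_polar_of_neg hE]
      have hxE : oz E x < 0 := neg_iff.1 hE
      have h3 := Birk.pole hL hw i E ((inv_pos_iff hx).2 hE)
      have h4 := (nonneg_iff.1 h3).resolve_left (mul_ne_zero (pow_ne_zero _ (inv_ne_zero hx)) hwi)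
      rw [oz_mul E (pow_ne_zero _ (inv_ne_zero hx)) hwi, oz_pow, oz_inv] at h4
      have h5 : ((j : ℕ) : ℤ) + a i ≤ m := by omega
      nlinarith
    · show -((m : ℤ) * polar x E) ≤ _
      rw [Dims_polar_of_nonneg hx hE]
      have hxE : 0 ≤ oz E x := (nonneg_iff.1 hE).resolve_left hx
      have h3 := AffB.basis_regAff hw.aff i E hE
      have h4 := (nonneg_iff.1 h3).resolve_left hwi
      have h5 : (0 : ℤ) ≤ ((j : ℕ) : ℤ) * oz E x := mul_nonneg (Int.natCast_nonneg _) hxE
      linarith
  · rw [finrank_span_eq_card h2, Fintype.card_sigma]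
    simp only [Fintype.card_fin]

theorem Birk.exists_dv (hK : CurveField K) (hL : Gen L x) {w : Module.Basis (Fin n) L K} {a : Fin n → ℕ} (hw : Birk x w a) (m k : ℕ)
    {E : Place K} (hE : E.ord x < 0) (hk : (k : ℤ) ≤ m * (-oz E x)) :
    ∃ W : Submodule ℂ K, FiniteDimensional ℂ W ∧ W ≤ LD (dv E k) ∧ (∑ i, (m + 1 - a i)) + k ≤ Module.finrank ℂ W + m * n := by
  classical
  have hx : x ≠ 0 := hL.ne_zero
  obtain ⟨W, hW1, hW2, hW3⟩ := hw.exists_W hK hL m
  have := hW1
  have : FiniteDimensional L K := Module.Finite.of_basis w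
  have hn : Module.finrank L K = n := by
    rw [Module.finrank_eq_card_basis w, Fintype.card_fin]
  have hfin := finite_over hL.inv
  set T : Finset (Place K) := hfin.toFinset with hTdef
  have hT : ∀ E', E' ∈ T ↔ E'.ord x < 0 := by
    intro E'
    rw [hTdef, Set.Finite.mem_toFinset]
    exact inv_pos_iff hx
  have hdeg := degree_inf hK hL T hT
  rw [hn] at hdeg
  have hET : E ∈ T := (hT E).2 hE
  set d : Place K → ℤ := fun E' => -(m * polar x E') with hd
  set e : Place K → ℕ := fun E' => if E' = E then (m * (-oz E x) - k).toNat else (m * (-oz E' x)).toNat with he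
  have hstep := finrank_le_steps hK W T d e (fun E' _ => hW2.trans (iInf_le _ E'))
  have he1 : ((e E : ℕ) : ℤ) = m * (-oz E x) - k := by
    simp only [he, if_true]
    rw [Int.toNat_of_nonneg (by linarith)]
  have he2 : ∀ E' ∈ T, E' ≠ E → ((e E' : ℕ) : ℤ) = m * (-oz E' x) := by
    intro E' hE' hne
    simp only [he, if_neg hne]
    have h1 := neg_iff.1 ((hT E').1 hE')
    rw [Int.toNat_of_nonneg (mul_nonneg (Int.natCast_nonneg _) (by linarith))]
  have hsum : ((∑ E' ∈ T, e E' : ℕ) : ℤ) = m * n - k := by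
    push_cast
    rw [← Finset.add_sum_erase T _ hET, he1, Finset.sum_congr rfl (fun E' hE' =>
      he2 E' (Finset.mem_of_mem_erase hE') (Finset.ne_of_mem_erase hE')), ← hdeg,
      ← Finset.add_sum_erase T _ hET, mul_add, Finset.mul_sum]
    ring
  refine ⟨W ⊓ ⨅ E' ∈ T, ordGe E' (d E' + e E'), Submodule.finiteDimensional_of_le inf_le_left, ?_, ?_⟩
  · intro f hf
    obtain ⟨hf1, hf2⟩ := Submodule.mem_inf.1 hf
    rw [mem_LD]
    intro E'
    by_cases hE' : E' ∈ T
    · have h1 : f ∈ ordGe E' (d E' + e E') := by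
        have h2 := (Submodule.mem_iInf _).1 hf2 E'
        exact (Submodule.mem_iInf _).1 h2 hE'
      rw [mem_ordGe] at h1
      have h2 : d E' + e E' = -dv E k E' := by
        have h3 : d E' = -(m * (-oz E' x)) := by
          simp only [hd]
          rw [Dims_polar_of_neg ((hT E').1 hE')]
        by_cases hne : E' = E
        · subst hne
          rw [h3, he1]
          unfold dv
          rw [if_pos rfl]
          ring
        · rw [h3, he2 E' hE' hne]
          unfold dv
          rw [if_neg hne]
          ring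
      rw [h2] at h1
      exact h1
    · have hne : E' ≠ E := fun h => hE' (h ▸ hET)
      have h1 : 0 ≤ E'.ord x := by
        by_contra hcon
        exact hE' ((hT E').2 (not_le.1 hcon))
      have h2 := mem_LD.1 (hW2 hf1) E'
      have h3 : -((m : ℤ) * polar x E') = -dv E k E' := by
        rw [Dims_polar_of_nonneg hx h1]
        unfold dv
        rw [if_neg hne]
        ring
      have h4 : ((-((m : ℤ) * polar x E') : ℤ) : WithTop ℤ) ≤ E'.ord f := h2
      rw [h3] at h4
      exact h4
  · have h1 : (Module.finrank ℂ W : ℤ) ≤ (Module.finrank ℂ (W ⊓ ⨅ E' ∈ T, ordGe E' (d E' + e E') : Submodule ℂ K) : ℤ) +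
        ((∑ E' ∈ T, e E' : ℕ) : ℤ) := by exact_mod_cast hstep
    rw [hsum, hW3] at h1
    have h2 : (((∑ i, (m + 1 - a i)) + k : ℕ) : ℤ) ≤
        ((Module.finrank ℂ (W ⊓ ⨅ E' ∈ T, ordGe E' (d E' + e E') : Submodule ℂ K) + m * n : ℕ) : ℤ) := by
      push_cast at h1 ⊢
      linarith
    exact_mod_cast h2

end Pool.Agent.H13.CV

end
end

section

/-!
# CV Idem: idempotents modulo `x` with trace zero

`matrix_idem`: for a complex matrix with `M * M = M` the trace is the rank (`LinearMap.IsIdempotentElem`, `LinearMap.IsProj.trace`, or diagonalise), so if it is `0` then `M = 0`.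

`trace_idem`: `M i j = w.repr (u * w j) i`; these are in `L` and `RegLoc x` (`LocB`, `basis_regLoc`).  `Algebra.trace L K u = ∑ i, M i i` (`Algebra.trace_eq_matrix_trace w`, `Algebra.leftMulMatrix_eq_repr_mul`).
Let `E` be a place over `x = 0` (`exists_place_over`) and `M̄ i j = res E (M i j)`.  `M * M - M` is the matrix of the multiplication by `u² - u`: its entries are the coordinates of
`(u² - u) * w j = x * (RegLoc)`, so they are `x` times a `RegLoc` element, and `res E` of them is `0`.  So `M̄ * M̄ = M̄` (`res_add`, `res_mul`, `res_sum`).  The trace of `M̄` is `res E` of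
`Algebra.trace L K u`, which is `0`.  So `M̄ = 0`: all `M i j` have positive order at `E`, so `RegLoc x (M i j / x)` (`regLoc_div_of_pos`), so `RegLoc x (u * w j / x)` for all `j`.  With
`1 = ∑ r j * w j`, `RegLoc x (r j)` (`LocB`): `u / x = ∑ r j * (u * w j / x)`.
-/

set_option autoImplicit false

open Pool.Agent.H23.Fano (PrimeDivisorOver Form regularForms)

noncomputable section

namespace Pool.Agent.H13.CV

attribute [-instance] ProperSMul.toContinuousSMul

theorem matrix_idem {n : ℕ} (M : Matrix (Fin n) (Fin n) ℂ) (hM : M * M = M) (ht : M.trace = 0) : M = 0 := by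
  have he : IsIdempotentElem (Matrix.toLin' M) := by
    show Matrix.toLin' M * Matrix.toLin' M = Matrix.toLin' M
    have : Matrix.toLin' (M * M) = Matrix.toLin' M * Matrix.toLin' M := Matrix.toLin'_mul M M
    rw [← this, hM]
  have htr : LinearMap.trace ℂ (Fin n → ℂ) (Matrix.toLin' M) = 0 := by
    rw [Matrix.trace_toLin'_eq, ht]
  have h0 := (LinearMap.IsIdempotentElem.trace_eq_zero_iff he).mp htr
  exact (LinearEquiv.map_eq_zero_iff Matrix.toLin').mp h0

variable {K : Type} [Field K] [Algebra ℂ K] {L : IntermediateField ℂ K} {x : K} {n : ℕ}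

private theorem regLoc_mul {f g : K} (hf : RegLoc x f) (hg : RegLoc x g) : RegLoc x (f * g) :=
  fun E hE => nonneg_mul (hf E hE) (hg E hE)

private theorem regLoc_sum {ι : Type*} {s : Finset ι} {F : ι → K} (h : ∀ i ∈ s, RegLoc x (F i)) :
    RegLoc x (∑ i ∈ s, F i) :=
  fun E hE => nonneg_sum fun i hi => h i hi E hE

private theorem regLoc_one : RegLoc x (1 : K) := fun E _ => by
  rw [E.ord.map_one]

private theorem repr_L_mul (w : Module.Basis (Fin n) L K) {c : K} (hc : c ∈ L) (f : K) (i : Fin n) :
    ((w.repr (c * f) i : L) : K) = c * ((w.repr f i : L) : K) := by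
  have h1 : c * f = (⟨c, hc⟩ : L) • f := by
    rw [Algebra.smul_def]
    rfl
  rw [h1, map_smul]
  simp

private theorem sum_repr_coe (w : Module.Basis (Fin n) L K) (f : K) :
    f = ∑ i, ((w.repr f i : L) : K) * w i := by
  conv_lhs => rw [← w.sum_repr f]
  refine Finset.sum_congr rfl fun i _ => ?_
  rw [Algebra.smul_def]
  rfl

theorem trace_idem (hK : CurveField K) (hL : Gen L x) [FiniteDimensional L K] {w : Module.Basis (Fin n) L K} (hw : LocB x w) {u : K} (hu : RegLoc x u)
    (hu2 : RegLoc x ((u ^ 2 - u) / x)) (htr : RegLoc x (((Algebra.trace L K u : L) : K) / x)) : RegLoc x (u / x) := by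
  have hx0 : x ≠ 0 := hL.ne_zero
  have hxL : x ∈ L := hL.mem
  obtain ⟨E, hE⟩ := exists_place_over hK hL.tr
  -- the matrix
  set M : Fin n → Fin n → K := fun i j => ((w.repr (u * w j) i : L) : K) with hMdef
  have hMreg : ∀ i j, RegLoc x (M i j) := fun i j =>
    (hw (u * w j)).mp (regLoc_mul hu (hw.basis_regLoc j)) i
  have hML : ∀ i j, M i j ∈ L := fun i j => (w.repr (u * w j) i).2
  -- the product
  have hMM : ∀ i j, ((w.repr (u ^ 2 * w j) i : L) : K) = ∑ k, M i k * M k j := by
    intro i j
    have h1 : u ^ 2 * w j = ∑ k, M k j * (u * w k) := by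
      have h2 : u * w j = ∑ k, M k j * w k := sum_repr_coe w (u * w j)
      calc u ^ 2 * w j = u * (u * w j) := by ring
        _ = u * ∑ k, M k j * w k := by rw [← h2]
        _ = _ := by
          rw [Finset.mul_sum]
          exact Finset.sum_congr rfl fun k _ => by ring
    rw [h1, map_sum, Finset.sum_apply', AddSubmonoidClass.coe_finsetSum]
    refine Finset.sum_congr rfl fun k _ => ?_
    rw [repr_L_mul w (hML k j), mul_comm]
  -- the difference
  have hdiff : ∀ i j, ∃ R : K, RegLoc x R ∧ (∑ k, M i k * M k j) = M i j + x * R := by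
    intro i j
    refine ⟨((w.repr (((u ^ 2 - u) / x) * w j) i : L) : K),
      (hw _).mp (regLoc_mul hu2 (hw.basis_regLoc j)) i, ?_⟩
    rw [← repr_L_mul w hxL, ← hMM]
    have h3 : x * ((u ^ 2 - u) / x * w j) = u ^ 2 * w j - u * w j := by
      field_simp
    rw [h3, map_sub]
    simp [hMdef]
  -- the residue matrix
  set N : Matrix (Fin n) (Fin n) ℂ := fun i j => res E (M i j) with hNdef
  have hnn : ∀ i j, 0 ≤ E.ord (M i j) := fun i j => hMreg i j E hE
  have hNN : N * N = N := by
    ext i j
    rw [Matrix.mul_apply]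
    obtain ⟨R, hR, hR2⟩ := hdiff i j
    have hxR : 0 < E.ord (x * R) := pos_mul hE (hR E hE)
    have h4 : res E (∑ k, M i k * M k j) = ∑ k, N i k * N k j := by
      rw [res_sum hK (fun k _ => nonneg_mul (hnn i k) (hnn k j))]
      exact Finset.sum_congr rfl fun k _ => res_mul hK (hnn i k) (hnn k j)
    have h5 : res E (M i j + x * R) = N i j := by
      rw [res_add hK (hnn i j) hxR.le, (res_eq_zero_iff hK hxR.le).mpr hxR, add_zero]
    rw [← h4, hR2, h5]
  have hNtr : N.trace = 0 := by
    have h6 : ((Algebra.trace L K u : L) : K) = ∑ i, M i i := by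
      rw [Algebra.trace_eq_matrix_trace w, Matrix.trace, AddSubmonoidClass.coe_finsetSum]
      refine Finset.sum_congr rfl fun i _ => ?_
      rw [Matrix.diag_apply, Algebra.leftMulMatrix_eq_repr_mul]
    have h7 : 0 < E.ord ((Algebra.trace L K u : L) : K) := by
      have h8 : ((Algebra.trace L K u : L) : K) = x * (((Algebra.trace L K u : L) : K) / x) := by
        field_simp
      rw [h8]
      exact pos_mul hE (htr E hE)
    have h9 : N.trace = res E (∑ i, M i i) := by
      rw [res_sum hK (fun i _ => hnn i i)]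
      rfl
    rw [h9, ← h6]
    exact (res_eq_zero_iff hK h7.le).mpr h7
  have hN0 : N = 0 := matrix_idem N hNN hNtr
  have hMx : ∀ i j, RegLoc x (M i j / x) := by
    intro i j
    refine regLoc_div_of_pos hL (hML i j) hE ?_
    refine (res_eq_zero_iff hK (hnn i j)).mp ?_
    have : N i j = 0 := by rw [hN0]; rfl
    exact this
  have huw : ∀ j, RegLoc x (u * w j / x) := by
    intro j
    refine (hw _).mpr fun i => ?_
    have h10 : u * w j / x = x⁻¹ * (u * w j) := by field_simp
    rw [h10, repr_L_mul w (inv_mem hxL)]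
    have h11 : x⁻¹ * ((w.repr (u * w j) i : L) : K) = M i j / x := by
      rw [div_eq_mul_inv, mul_comm]
    rw [h11]
    exact hMx i j
  have h1 : u / x = ∑ j, ((w.repr (1 : K) j : L) : K) * (u * w j / x) := by
    have h2 : (1 : K) = ∑ j, ((w.repr (1 : K) j : L) : K) * w j := sum_repr_coe w 1
    calc u / x = u / x * 1 := by ring
      _ = u / x * ∑ j, ((w.repr (1 : K) j : L) : K) * w j := by rw [← h2]
      _ = _ := by
        rw [Finset.mul_sum]
        exact Finset.sum_congr rfl fun j _ => by ring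
  rw [h1]
  exact regLoc_sum fun j _ => regLoc_mul ((hw 1).mp regLoc_one j) (huw j)

end Pool.Agent.H13.CV

end
end

section

/-!
# CV Tame: the trace lemma (tame ramification)

`tame`: let `e = oz E x`, and suppose that `oz E h ≤ - e`.  Let `T` be the finite set of the places over `x = 0` (`finite_over`).  By `approx` there is `c ∈ K` with: at `E`: `ord (c - (x * h)⁻¹) ≥ N`, at the
`E' ∈ T`, `E' ≠ E`: `ord c ≥ N`, with `N ≥ 0` so large that `N ≥ oz E' x - oz E' (x * h)` for all `E' ∈ T`, and `N ≥ e - oz E (x * h)`, `N ≥ e`.  Then `RegLoc x c` (at `E`: `(x h)⁻¹` has order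
`- (e + oz E h) ≥ 0`).  Let `u = x * h * c`: `ord_E (u - 1) = ord_E (x h (c - (x h)⁻¹)) ≥ e`, and `ord_{E'} u ≥ oz E' x` for `E' ≠ E`.  So `RegLoc x u`, `RegLoc x ((u² - u) / x)`
(`u² - u = u (u - 1)`), and `trace u = x * trace (h * c)` (`Algebra.trace` is `L`-linear, `x ∈ L`), so `RegLoc x (trace u / x)` by `hh` for `f = c`.  By `trace_idem`: `RegLoc x (u / x)`: so
`ord_E u ≥ e > 0`; but `ord_E (u - 1) ≥ e > 0`, so `ord_E 1 > 0`: contradiction.

`exists_dual`: `(Algebra.traceForm L K).dualBasis (traceForm_nondegenerate L K) w`; `Algebra.trace L K (v i * w j) = if i = j then 1 else 0`, so `trace (v i * f) = w.repr f i` for `f = ∑ (w.repr f j) • w j`.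
-/

set_option autoImplicit false

open Pool.Agent.H23.Fano (PrimeDivisorOver Form regularForms)

noncomputable section

namespace Pool.Agent.H13.CV

attribute [-instance] ProperSMul.toContinuousSMul

variable {K : Type} [Field K] [Algebra ℂ K] {L : IntermediateField ℂ K} {x : K} {n : ℕ}

private lemma tame_le_mul {E : Place K} {f g : K} {a b : ℤ} (hf : (a : WithTop ℤ) ≤ E.ord f) (hg : (b : WithTop ℤ) ≤ E.ord g) :
    ((a + b : ℤ) : WithTop ℤ) ≤ E.ord (f * g) := by
  rw [E.ord.map_mul, WithTop.coe_add]
  exact add_le_add hf hg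

private lemma tame_div {E : Place K} {f : K} (hx : x ≠ 0) (hf : ((oz E x : ℤ) : WithTop ℤ) ≤ E.ord f) : 0 ≤ E.ord (f / x) := by
  have h := tame_le_mul hf (ord_inv E hx).ge
  rw [add_neg_cancel] at h
  rw [div_eq_mul_inv]
  exact h

theorem tame (hK : CurveField K) (hL : Gen L x) [FiniteDimensional L K] {w : Module.Basis (Fin n) L K} (hw : LocB x w) {h : K} (h0 : h ≠ 0)
    (hh : ∀ f : K, RegLoc x f → RegLoc x ((Algebra.trace L K (h * f) : L) : K)) {E : Place K} (hE : 0 < E.ord x) : 1 - oz E x ≤ oz E h := by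
  classical
  by_contra hcon
  have hx : x ≠ 0 := hL.ne_zero
  have he : 0 < oz E x := (pos_iff.1 hE).resolve_left hx
  have hxh : x * h ≠ 0 := mul_ne_zero hx h0
  have hneg : oz E (x * h) ≤ 0 := by
    rw [oz_mul E hx h0]
    omega
  set T : Finset (Place K) := (finite_over (L := L) (x := x) hL).toFinset with hT
  have hmem : ∀ E' : Place K, 0 < E'.ord x → E' ∈ T := fun E' h' => by
    rw [hT, Set.Finite.mem_toFinset]
    exact h'
  obtain ⟨N, hN0, hN⟩ : ∃ N : ℤ, 0 ≤ N ∧ ∀ E' ∈ T, oz E' x - oz E' (x * h) ≤ N := by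
    refine ⟨∑ E' ∈ T, |oz E' x - oz E' (x * h)|, Finset.sum_nonneg fun _ _ => abs_nonneg _, fun E' h' => ?_⟩
    exact (le_abs_self _).trans (Finset.single_le_sum (f := fun E' => |oz E' x - oz E' (x * h)|) (fun _ _ => abs_nonneg _) h')
  obtain ⟨c, hc⟩ := approx T (fun E' => if E' = E then (x * h)⁻¹ else 0) N
  have hcE : ((N : ℤ) : WithTop ℤ) ≤ E.ord (c - (x * h)⁻¹) := by
    have h1 := hc E (hmem E hE)
    rwa [if_pos rfl] at h1
  have hcE' : ∀ E' : Place K, 0 < E'.ord x → E' ≠ E → ((N : ℤ) : WithTop ℤ) ≤ E'.ord c := by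
    intro E' h' hne
    have h1 := hc E' (hmem E' h')
    rwa [if_neg hne, sub_zero] at h1
  have hNtop : (0 : WithTop ℤ) ≤ ((N : ℤ) : WithTop ℤ) := by exact_mod_cast hN0
  set u : K := x * h * c with hu
  have hu1 : ((oz E x : ℤ) : WithTop ℤ) ≤ E.ord (u - 1) := by
    have e1 : u - 1 = x * h * (c - (x * h)⁻¹) := by
      rw [hu, mul_sub, mul_inv_cancel₀ hxh]
    have h1 := tame_le_mul (coe_oz E hxh).le hcE
    rw [← e1] at h1
    refine le_trans ?_ h1
    have h2 := hN E (hmem E hE)
    exact_mod_cast (by omega : oz E x ≤ oz E (x * h) + N)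
  have hu2 : ∀ E' : Place K, 0 < E'.ord x → E' ≠ E → ((oz E' x : ℤ) : WithTop ℤ) ≤ E'.ord u := by
    intro E' h' hne
    have h1 := tame_le_mul (coe_oz E' hxh).le (hcE' E' h' hne)
    refine le_trans ?_ h1
    have h2 := hN E' (hmem E' h')
    exact_mod_cast (by omega : oz E' x ≤ oz E' (x * h) + N)
  have hone : ∀ E' : Place K, E'.ord (1 : K) = 0 := fun E' => E'.ord.map_one
  have hx1 : ∀ E' : Place K, 0 < E'.ord x → (0 : WithTop ℤ) ≤ ((oz E' x : ℤ) : WithTop ℤ) := by
    intro E' h'
    rw [coe_oz E' hx]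
    exact h'.le
  -- `c` is regular
  have hcreg : RegLoc x c := by
    intro E' h'
    by_cases hEE : E' = E
    · subst hEE
      have h1 : 0 ≤ E'.ord ((x * h)⁻¹) := by
        rw [ord_inv E' hxh]
        exact_mod_cast (by omega : (0 : ℤ) ≤ -oz E' (x * h))
      have h2 := nonneg_add (hNtop.trans hcE) h1
      rwa [sub_add_cancel] at h2
    · exact hNtop.trans (hcE' E' h' hEE)
  have hu1' : 0 ≤ E.ord (u - 1) := (hx1 E hE).trans hu1
  have hureg : RegLoc x u := by
    intro E' h'
    by_cases hEE : E' = E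
    · subst hEE
      have h2 := nonneg_add hu1' (hone E').ge
      rwa [sub_add_cancel] at h2
    · exact (hx1 E' h').trans (hu2 E' h' hEE)
  have hreg2 : RegLoc x ((u ^ 2 - u) / x) := by
    intro E' h'
    have e1 : u ^ 2 - u = (u - 1) * u := by ring
    rw [e1]
    apply tame_div hx
    by_cases hEE : E' = E
    · subst hEE
      have h1 := tame_le_mul (a := oz E' x) (b := 0) hu1 (by exact_mod_cast hureg E' h')
      rwa [add_zero] at h1
    · have h1 := tame_le_mul (a := 0) (b := oz E' x) (f := u - 1) (g := u) (by exact_mod_cast nonneg_sub (hureg E' h') (hone E').ge) (hu2 E' h' hEE)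
      rwa [zero_add] at h1
  have htr : RegLoc x (((Algebra.trace L K u : L) : K) / x) := by
    have e1 : u = (⟨x, hL.mem⟩ : L) • (h * c) := by
      rw [hu, mul_assoc]
      rfl
    have e2 : ((Algebra.trace L K u : L) : K) = x * ((Algebra.trace L K (h * c) : L) : K) := by
      rw [e1, map_smul]
      rfl
    rw [e2, mul_div_cancel_left₀ _ hx]
    exact hh c hcreg
  have hfin := trace_idem hK hL hw hureg hreg2 htr E hE
  have hupos : 0 < E.ord u := by
    have e1 : u = u / x * x := by rw [div_mul_cancel₀ _ hx]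
    rw [e1, mul_comm]
    exact pos_mul hE hfin
  have hu1pos : 0 < E.ord (u - 1) := by
    refine lt_of_lt_of_le ?_ hu1
    exact_mod_cast he
  have h3 := pos_sub hupos hu1pos
  rw [sub_sub_cancel, hone E] at h3
  exact lt_irrefl _ h3

theorem exists_dual [FiniteDimensional L K] (w : Module.Basis (Fin n) L K) :
    ∃ v : Module.Basis (Fin n) L K, ∀ i f, Algebra.trace L K (v i * f) = w.repr f i := by
  classical
  have : CharZero L := charZero_of_injective_algebraMap (algebraMap ℂ L).injective
  refine ⟨(Algebra.traceForm L K).dualBasis (traceForm_nondegenerate L K) w, fun i f => ?_⟩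
  have h1 : ∀ j, Algebra.trace L K ((Algebra.traceForm L K).dualBasis (traceForm_nondegenerate L K) w i * w j) = if j = i then 1 else 0 := by
    intro j
    have h2 := LinearMap.BilinForm.apply_dualBasis_left (B := Algebra.traceForm L K) (traceForm_nondegenerate L K) w i j
    rwa [Algebra.traceForm_apply] at h2
  conv_lhs => rw [← w.sum_repr f]
  rw [Finset.mul_sum, map_sum]
  have h3 : ∀ j, Algebra.trace L K ((Algebra.traceForm L K).dualBasis (traceForm_nondegenerate L K) w i * (w.repr f j • w j)) = w.repr f j * if j = i then 1 else 0 := by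
    intro j
    rw [mul_smul_comm, map_smul, h1 j, smul_eq_mul]
  rw [Finset.sum_congr rfl fun j _ => h3 j]
  simp

end Pool.Agent.H13.CV

end
end

section

/-!
# CV RegF: regular forms

Let `w, a` be a Birkhoff basis and `v` its dual basis for the trace form (`trace (v i * f) = w.repr f i`), `j + 2 ≤ a i`, `h = x ^ j * v i ≠ 0`.  The form `h dx` is regular at every place `E`.
Case 1: `0 ≤ ord x`: let `c` be the value of `x` (`exists_value`), `y = x - c`, `Gen L y` (`Gen.sub_const`), `0 < ord y`.  `AffB y w` (`AffB.sub_const`), so `LocB y w` (`AffB.locB`).  For `f` with `RegLoc y f`: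
`trace (h * f) = x ^ j * w.repr f i` (`x ∈ L`) is `RegLoc y` (`x = y + c` is `RegLoc y`).  So `1 - oz E y ≤ oz E h` (`tame`), and `pole_mk` for `dx y = dx x` (`dx_sub_const`).
Case 2: `ord x < 0`: `y = x⁻¹`, `Gen L y`, `0 < ord y`.  There is a `LocB y` basis (`exists_locB`).  `h' = - x ^ 2 * h`.  For `f` with `RegLoc y f`: `trace (h' * f) = - x ^ (j + 2) * w.repr f i`, and
`x ^ a i * w.repr f i` is `RegLoc y` by `Birk.inf`, so `x ^ (j + 2) * w.repr f i = y ^ (a i - j - 2) * (x ^ a i * w.repr f i)` is.  So `1 - oz E y ≤ oz E h' = 2 * oz E x + oz E h`, i.e. with `oz E y = - oz E x`: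
`0 ≤ oz E h + oz E x - 1`: `pole_mk`.
-/

set_option autoImplicit false

open Pool.Agent.H23.Fano (PrimeDivisorOver Form regularForms)
open Pool.Agent.H17LG.Variety (PoleAtMost IsLogGeneralType)

noncomputable section

namespace Pool.Agent.H13.CV

attribute [-instance] ProperSMul.toContinuousSMul

variable {K : Type} [Field K] [Algebra ℂ K] {L : IntermediateField ℂ K} {x : K} {n : ℕ}

theorem trace_pow_mul (hL : Gen L x) [FiniteDimensional L K] {w v : Module.Basis (Fin n) L K}
    (hv : ∀ i f, Algebra.trace L K (v i * f) = w.repr f i) (i : Fin n) (k : ℕ) (f : K) :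
    ((Algebra.trace L K (x ^ k * v i * f) : L) : K) = x ^ k * ((w.repr f i : L) : K) := by
  have h1 : x ^ k * v i * f = ((⟨x, hL.mem⟩ : L) ^ k) • (v i * f) := by
    rw [Algebra.smul_def, mul_assoc]
    congr 1
  rw [h1, map_smul, hv, smul_eq_mul]
  push_cast
  rfl

theorem regular_form (hK : CurveField K) (hL : Gen L x) [FiniteDimensional L K] {w : Module.Basis (Fin n) L K} {a : Fin n → ℕ} (hw : Birk x w a)
    {v : Module.Basis (Fin n) L K} (hv : ∀ i f, Algebra.trace L K (v i * f) = w.repr f i) {i : Fin n} {j : ℕ} (hj : j + 2 ≤ a i) (E : Place K) :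
    PoleAtMost 0 E 1 (x ^ j * v i) (dx x) := by
  have hx0 : x ≠ 0 := hL.ne_zero
  have hvi : v i ≠ 0 := v.ne_zero i
  have hxj : x ^ j ≠ 0 := pow_ne_zero _ hx0
  have h0 : x ^ j * v i ≠ 0 := mul_ne_zero hxj hvi
  by_cases hx : 0 ≤ E.ord x
  · obtain ⟨c, hc⟩ := exists_value hK hx
    have hLy : Gen L (x - algebraMap ℂ K c) := hL.sub_const c
    have hloc : LocB (x - algebraMap ℂ K c) w := (hw.aff.sub_const hL c).locB hK hLy
    have hh : ∀ f : K, RegLoc (x - algebraMap ℂ K c) f →
        RegLoc (x - algebraMap ℂ K c) ((Algebra.trace L K (x ^ j * v i * f) : L) : K) := by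
      intro f hf E' hE'
      rw [trace_pow_mul hL hv]
      have h2 : 0 ≤ E'.ord x := by
        have h3 : x = (x - algebraMap ℂ K c) + algebraMap ℂ K c := by ring
        rw [h3]
        exact nonneg_add hE'.le (const_nonneg E' c)
      exact nonneg_mul (nonneg_pow h2 j) ((hloc f).1 hf i E' hE')
    have ht := tame hK hLy hloc h0 hh hc
    rw [← dx_sub_const x c]
    apply pole_mk E hLy.ne_zero
    right
    push_cast
    linarith
  · have hx' : E.ord x < 0 := not_le.1 hx
    have hLy : Gen L x⁻¹ := hL.inv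
    obtain ⟨w', hw'⟩ := exists_locB hK hLy
    have hEy : 0 < E.ord x⁻¹ := (inv_pos_iff hx0).2 hx'
    have h0' : -(x ^ 2 * (x ^ j * v i)) ≠ 0 := neg_ne_zero.2 (mul_ne_zero (pow_ne_zero _ hx0) h0)
    have hh : ∀ f : K, RegLoc x⁻¹ f →
        RegLoc x⁻¹ ((Algebra.trace L K (-(x ^ 2 * (x ^ j * v i)) * f) : L) : K) := by
      intro f hf E' hE'
      have h1 : -(x ^ 2 * (x ^ j * v i)) * f = -(x ^ (j + 2) * v i * f) := by ring
      have h2 : ((Algebra.trace L K (-(x ^ 2 * (x ^ j * v i)) * f) : L) : K) =
          -((x⁻¹) ^ (a i - (j + 2)) * (x ^ a i * ((w.repr f i : L) : K))) := by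
        rw [h1, map_neg]
        push_cast
        rw [trace_pow_mul hL hv]
        have h3 : x ^ (j + 2) = (x⁻¹) ^ (a i - (j + 2)) * x ^ a i := by
          conv_rhs => rw [← Nat.sub_add_cancel hj, pow_add]
          rw [Nat.sub_add_cancel hj, ← mul_assoc, ← mul_pow, inv_mul_cancel₀ hx0, one_pow, one_mul]
        rw [h3, mul_assoc]
      rw [h2]
      have h4 : 0 ≤ E'.ord ((x⁻¹) ^ (a i - (j + 2)) * (x ^ a i * ((w.repr f i : L) : K))) :=
        nonneg_mul (nonneg_pow hE'.le _) ((hw.inf f).1 hf i E' hE')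
      rcases nonneg_iff.1 h4 with h5 | h5
      · rw [h5, neg_zero]
        exact nonneg_iff.2 (Or.inl rfl)
      · refine nonneg_iff.2 (Or.inr ?_)
        rw [oz_neg]
        exact h5
    have ht := tame hK hLy hw' h0' hh hEy
    rw [oz_neg, oz_mul E (pow_ne_zero _ hx0) h0, oz_pow, oz_inv] at ht
    apply pole_mk E hx0
    right
    push_cast at ht ⊢
    linarith

end Pool.Agent.H13.CV

end
end
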