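import Pool.Agent.H94.CB.M67
import Pool.Agent.H94.CB.M68
import Pool.Agent.H94.CB.M69
import Pool.Agent.H94.CB.M71
import Pool.Agent.H94.CB.M72

/-! The parts of this file: H13.CV.EllA, H13.CV.PoleF, H13.CV.StrA. -/

section

/-!
# CV EllA: generators with poles of order two and three

`ell_gens`: if some `f ∈ LD (dv E 1)` is not a constant then `ℂ(f) = K` (`top_of_dv_one`).  So assume that all `f ∈ LD (dv E 1)` are constants.  `W` for `k = 2` contains a non-constant `u` (`exists_not_const`),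
`oz E u ≥ -2`, and `oz E u ≠ -1, 0, …` (otherwise `u ∈ LD (dv E 1)`), so `oz E u = -2`.  `LD (dv E 2)` contains no `3`-dimensional subspace: for `W ≤ LD (dv E 2)` finite-dimensional,
`finrank W ≤ finrank (W ⊓ ordGe E (-1)) + 1` (`finrank_le_step`), and `W ⊓ ordGe E (-1) ≤ LD (dv E 1)` consists of constants, so it has dimension `≤ 1`.  So `W` for `k = 3` contains `v ∉ LD (dv E 2)`: `oz E v = -3`.
-/

set_option autoImplicit false

open Pool.Agent.H23.Fano (PrimeDivisorOver Form regularForms)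

noncomputable section

namespace Pool.Agent.H13.CV

attribute [-instance] ProperSMul.toContinuousSMul

variable {K : Type} [Field K] [Algebra ℂ K]

private theorem ella_mem_iff {E : Place K} {k : ℤ} {f : K} :
    f ∈ LD (dv E k) ↔ ((-k : ℤ) : WithTop ℤ) ≤ E.ord f ∧ ∀ E' : Place K, E' ≠ E → 0 ≤ E'.ord f := by
  rw [mem_LD]
  constructor
  · intro h
    refine ⟨?_, fun E' hE' => ?_⟩
    · have := h E
      simpa [dv] using this
    · have := h E'
      simpa [dv, hE'] using this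
  · rintro ⟨h1, h2⟩ E'
    by_cases hE' : E' = E
    · subst hE'
      simpa [dv] using h1
    · simpa [dv, hE'] using h2 E' hE'

private theorem ella_oz_eq {E : Place K} {k : ℤ} {f : K} (hf0 : f ≠ 0) (hf : f ∈ LD (dv E (k + 1)))
    (hf' : f ∉ LD (dv E k)) : oz E f = -(k + 1) := by
  rw [ella_mem_iff] at hf hf'
  have h1 : -(k + 1) ≤ oz E f := (le_ord_iff.1 hf.1).resolve_left hf0
  have h2 : ¬ (-k ≤ oz E f) := fun h => hf' ⟨le_ord_iff.2 (Or.inr h), hf.2⟩
  omega

theorem ell_gens (hK : CurveField K) {E : Place K}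
    (hW : ∀ k : ℕ, 1 ≤ k → ∃ W : Submodule ℂ K, FiniteDimensional ℂ W ∧ W ≤ LD (dv E k) ∧ k ≤ Module.finrank ℂ W) :
    (∃ t : K, IntermediateField.adjoin ℂ {t} = ⊤) ∨
    ((∀ f ∈ LD (dv E 1), ∃ c : ℂ, f = algebraMap ℂ K c) ∧ ∃ u v : K, oz E u = -2 ∧ oz E v = -3 ∧ (∀ E', E' ≠ E → 0 ≤ E'.ord u) ∧ (∀ E', E' ≠ E → 0 ≤ E'.ord v)) := by
  by_cases h1 : ∀ f ∈ LD (dv E 1), ∃ c : ℂ, f = algebraMap ℂ K c
  · right
    refine ⟨h1, ?_⟩
    obtain ⟨W2, hfin2, hle2, hdim2⟩ := hW 2 (by norm_num)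
    obtain ⟨W3, hfin3, hle3, hdim3⟩ := hW 3 (by norm_num)
    obtain ⟨u, huW, huc⟩ := exists_not_const (W := W2) hdim2
    have hu := hle2 huW
    have hu0 : u ≠ 0 := by
      have := huc 0
      simpa using this
    have hu' : u ∉ LD (dv E 1) := fun h => by
      obtain ⟨c, hc⟩ := h1 u h
      exact huc c hc
    have hnot : ¬ W3 ≤ LD (dv E 2) := by
      intro hle
      have hs := finrank_le_step hK W3 E (-2) (fun f hf => by
        have := (ella_mem_iff.1 (hle hf)).1
        exact this)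
      have hI : Module.finrank ℂ (W3 ⊓ ordGe E (-2 + 1) : Submodule ℂ K) ≤ 1 := by
        by_contra hcon
        push Not at hcon
        have : FiniteDimensional ℂ (W3 ⊓ ordGe E (-2 + 1) : Submodule ℂ K) :=
          Submodule.finiteDimensional_of_le inf_le_left
        obtain ⟨f, hf, hfc⟩ := exists_not_const (W := W3 ⊓ ordGe E (-2 + 1)) hcon
        rw [Submodule.mem_inf] at hf
        have hf1 : f ∈ LD (dv E 1) := by
          rw [ella_mem_iff]
          exact ⟨hf.2, (ella_mem_iff.1 (hle hf.1)).2⟩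
        obtain ⟨c, hc⟩ := h1 f hf1
        exact hfc c hc
      omega
    obtain ⟨v, hvW, hv'⟩ : ∃ v ∈ W3, v ∉ LD (dv E 2) := by
      by_contra hcon
      push Not at hcon
      exact hnot hcon
    have hv := hle3 hvW
    have hv0 : v ≠ 0 := by
      rintro rfl
      exact hv' (Submodule.zero_mem _)
    refine ⟨u, v, ?_, ?_, (ella_mem_iff.1 hu).2, (ella_mem_iff.1 hv).2⟩
    · exact ella_oz_eq (k := 1) hu0 (by exact_mod_cast hu) hu'
    · exact ella_oz_eq (k := 2) hv0 (by exact_mod_cast hv) hv'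
  · left
    push Not at h1
    obtain ⟨f, hf, hfc⟩ := h1
    exact ⟨f, top_of_dv_one hK hf hfc⟩

end Pool.Agent.H13.CV

end
end

section

/-!
# CV PoleF: functions with a single pole

`exists_pole_only`: let `oz E t = 1`, `x = t⁻¹` (transcendental: `tr_of_oz_ne`), `L = ℂ(x)`, `n = finrank L K`, `w, a` a Birkhoff basis (`exists_birk`).  `Birk.exists_dv` with `k = m ≥ 2 + ∑ i, a i`, `oz E x = - 1`:
`∑ i, (m + 1 - a i) ≥ n * (m + 1) - ∑ a i`, so `finrank W ≥ n + m - ∑ a i ≥ 2`; so `W` contains a non-constant function (`exists_not_const`), it is transcendental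
(`transcendental_of_not_const`).
`lgt_of_boundary`: the functions `h ^ k`, `f * h ^ k` (`pole_mul_pow`), `lgt_of_forms` with `m = k`: at `E₀` (`B E₀`): `f` has order `≥ - k`; at the other places `0 ≤ ord f`.
-/

set_option autoImplicit false

open Pool.Agent.H23.Fano (PrimeDivisorOver Form regularForms)
open Pool.Agent.H17LG.Variety (PoleAtMost IsLogGeneralType)

noncomputable section

namespace Pool.Agent.H13.CV

attribute [-instance] ProperSMul.toContinuousSMul

variable {K : Type} [Field K] [Algebra ℂ K]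

theorem exists_pole_only (hK : CurveField K) (E : Place K) : ∃ (f : K) (k : ℕ), 1 ≤ k ∧ Transcendental ℂ f ∧ f ∈ LD (dv E k) := by
  obtain ⟨t, -, ht⟩ := exists_uni E
  have hoz : oz E t⁻¹ = -1 := by rw [oz_inv, ht]
  have htr : Transcendental ℂ t⁻¹ := tr_of_oz_ne (E := E) (by rw [hoz]; norm_num)
  have hL : Gen (IntermediateField.adjoin ℂ {t⁻¹}) t⁻¹ := ⟨htr, rfl⟩
  have := hK.fin _ htr
  obtain ⟨w, a, hw⟩ := exists_birk hK hL
  have hE : E.ord t⁻¹ < 0 := by
    rw [neg_iff, hoz]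
    norm_num
  obtain ⟨n, hn⟩ : ∃ n, n = Module.finrank (IntermediateField.adjoin ℂ {t⁻¹}) K := ⟨_, rfl⟩
  obtain ⟨A, hA⟩ : ∃ A, A = ∑ i, a i := ⟨_, rfl⟩
  obtain ⟨W, hWf, hW, hWd⟩ := hw.exists_dv hK hL (A + 2) (A + 2) hE (by rw [hoz]; simp)
  have h1 : n * (A + 2 + 1) ≤ (∑ i, (A + 2 + 1 - a i)) + A := by
    rw [hA, ← Finset.sum_add_distrib, ← hA]
    calc n * (A + 2 + 1) = ∑ _i : Fin (Module.finrank (IntermediateField.adjoin ℂ {t⁻¹}) K), (A + 2 + 1) := by
          simp [hn]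
      _ ≤ _ := Finset.sum_le_sum fun i _ => by omega
  have hn1 : 1 ≤ n := by
    rw [hn]
    exact Module.finrank_pos
  have h2 : 2 ≤ Module.finrank ℂ W := by
    obtain ⟨S, hS⟩ : ∃ S, S = ∑ i, (A + 2 + 1 - a i) := ⟨_, rfl⟩
    rw [← hS] at hWd h1
    rw [← hn] at hWd
    have h3 : n * (A + 2 + 1) = (A + 2) * n + n := by ring
    rw [h3] at h1
    generalize (A + 2) * n = z at h1 hWd
    omega
  have := hWf
  obtain ⟨f, hf, hc⟩ := exists_not_const h2
  exact ⟨f, A + 2, by omega, transcendental_of_not_const hc, hW hf⟩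

theorem lgt_of_boundary (hK : CurveField K) {B : Place K → Prop} {ω : Form K 1} (hω : ω ≠ 0) {h : K} (h0 : h ≠ 0) (hh : ∀ E, PoleAtMost 0 E 1 h ω)
    {E₀ : Place K} (hE₀ : B E₀) : IsLogGeneralType B := by
  obtain ⟨f, k, hk, htr, hf⟩ := exists_pole_only hK E₀
  rw [mem_LD] at hf
  have hone : ∀ (E : Place K) (p : ℕ), PoleAtMost p E k (h ^ k) ω := by
    intro E p
    have h1 := pole_mul_pow (f := (1 : K)) (m := k) (p := p) (hh E) (by
      rw [E.ord.map_one, zero_add]
      exact_mod_cast Nat.zero_le p)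
    rwa [one_mul] at h1
  have hle : ∀ E : Place K, 0 ≤ E.ord f + ((k : ℕ) : WithTop ℤ) := by
    intro E
    have h1 := hf E
    have h2 : dv E₀ k E ≤ (k : ℤ) := by
      unfold dv
      split_ifs
      · exact le_rfl
      · positivity
    have h3 : ((-(k : ℤ) : ℤ) : WithTop ℤ) ≤ E.ord f := le_trans (by exact_mod_cast neg_le_neg h2) h1
    have h4 : (0 : WithTop ℤ) = ((-(k : ℤ) : ℤ) : WithTop ℤ) + ((k : ℕ) : WithTop ℤ) := by
      have : ((k : ℕ) : WithTop ℤ) = ((k : ℤ) : WithTop ℤ) := by norm_cast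
      rw [this, ← WithTop.coe_add, neg_add_cancel]
      rfl
    rw [h4]
    exact add_le_add h3 le_rfl
  refine lgt_of_forms hK hω hk (pow_ne_zero k h0) (f₁ := f * h ^ k) ?_ (fun E => ⟨fun _ => hone E 0, fun _ => hone E k⟩)
    (fun E => ⟨fun hE => ?_, fun _ => pole_mul_pow (hh E) (hle E)⟩)
  · rwa [mul_div_assoc, div_self (pow_ne_zero k h0), mul_one]
  · refine pole_mul_pow (hh E) ?_
    have h1 := hf E
    have h2 : dv E₀ k E = 0 := by
      unfold dv
      rw [if_neg]
      rintro rfl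
      exact hE hE₀
    rw [h2, neg_zero] at h1
    simpa using h1

end Pool.Agent.H13.CV

end
end

section

/-!
# CV StrA: forms which vanish on an entire curve in a curve

`form_of_curve`: let `Q` define a curve, `f : ℂ → openVar Q H` a non-constant entire curve, `R` a form which vanishes at all `f z`.  Then `R ∈ Q`: let `J = mapIdeal f univ` (`Pool/Agent/H17BP/MapIdeal.lean`):
homogeneous, prime (`mapIdeal_isPrime`), `Q ≤ J` (`le_mapIdeal`), `R ∈ J`, `exists_X_notMem`.  If `R ∉ Q` then `trdeg_lt` (`Pool/Agent/H17BP/TrdegLt.lean`; `exists_fin_basis`) shows that `FunField J` has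
transcendence degree `0`, so `variety J` is one point (`eq_of_trdeg_zero`), and `f` is constant (`mem_variety_mapIdeal`): contradiction.  (See the end of the proof of `picard_of_form` in `Pool/Agent/H17BP/Same.lean`.)
-/

set_option autoImplicit false

open Topology Filter MvPolynomial
open Pool.Agent.H17 (PN VanishesAt ZariskiClosedIn HolomorphicInto puncturedDisc)
open Pool.Agent.H17LG.Variety (FunField IsLogGeneralType)
open Pool.Agent.H62.FC (Homog)
open Pool.Agent.H17R (openVar)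

noncomputable section

namespace Pool.Agent.H13.CV

attribute [-instance] ProperSMul.toContinuousSMul

variable {N : ℕ}

theorem form_of_curve0 (Q : Ideal (MvPolynomial (Fin (N + 1)) ℂ)) [Q.IsPrime] (hQ : Homog Q)
    (hz : ∃ z : Fin 1 → FunField Q, IsTranscendenceBasis ℂ z) {f : ℂ → PN N} (hf : HolomorphicInto f Set.univ)
    (hfQ : ∀ z, ∀ R ∈ Q, ∀ n, R.IsHomogeneous n → VanishesAt R (f z)) (hne : ∃ z w, f z ≠ f w) {d : ℕ} {R : MvPolynomial (Fin (N + 1)) ℂ} (hR : R.IsHomogeneous d)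
    (hfR : ∀ z, VanishesAt R (f z)) : R ∈ Q := by
  by_contra hRQ
  set J := Pool.Agent.H17BP.mapIdeal f Set.univ with hJ
  have hJp : J.IsPrime := Pool.Agent.H17BP.mapIdeal_isPrime isOpen_univ isPreconnected_univ Set.univ_nonempty hf
  have hJX : ∃ i, (X i : MvPolynomial (Fin (N + 1)) ℂ) ∉ J := Pool.Agent.H17BP.exists_X_notMem Set.univ_nonempty
  have hJh : Homog J := Pool.Agent.H17BP.mapIdeal_homog
  have hQJ : Q ≤ J := Pool.Agent.H17BP.le_mapIdeal hQ fun z _ => ⟨hfQ z, fun m => m.elim0⟩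
  have hRJ : R ∈ J := (Pool.Agent.H17BP.mem_mapIdeal_form hR).2 fun z _ => hfR z
  obtain ⟨w, hw⟩ := Pool.Agent.H62.FC.exists_fin_basis (P := J) hJX
  have hlt : w < 1 := Pool.Agent.H17BP.trdeg_lt hQ hJh hQJ (fun h => hRQ (h hRJ)) hJX hz hw
  have hw0 : w = 0 := by omega
  subst hw0
  obtain ⟨a, b, hab⟩ := hne
  exact hab (Pool.Agent.H17BP.eq_of_trdeg_zero hJh hJX hw _ (Pool.Agent.H17BP.mem_variety_mapIdeal (Set.mem_univ a)) _
    (Pool.Agent.H17BP.mem_variety_mapIdeal (Set.mem_univ b)))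

end Pool.Agent.H13.CV

end
end
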