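import Pool.Agent.H94.CB.M39
import Pool.Agent.H94.CB.M41
import Pool.Agent.H94.CB.M44
import Pool.Agent.H94.CB.M58
import Pool.Agent.H94.CB.M75
import Pool.Agent.H94.CB.M76

/-! The parts of this file: H36.BP.Lift, H36.BP.Main, H14.KB.KobB, H36.BP.Main_1. -/

section

/-!
# BP Lift: lifts on discs and punctured discs

Both follow the proof of `Pool.Agent.H17.exists_global_lift` (Weierstrass' theorem `exists_entire_with_orders`: the orders are required on a closed subset where they are locally finite).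
Let `j₀` be a coordinate which does not vanish identically near any point (connectedness) and `D z` the order of vanishing at `z` of the `j₀`-th coordinate of a local lift without common zeros.
* disc: an entire function `w` with `ord_z w = D z` for `|z| ≤ r`, `0` elsewhere; `F_j = w φ_j/φ_(j₀)`.
* punctured disc: the same for `f(1/ζ)` on `|ζ| > 1`: an entire function `w` with order `D(1/ζ)` for `|ζ| ≥ 1/r` and `0` elsewhere; `F_j(z) = w(1/z) φ_j/φ_(j₀)`.
(The sets `{z : D z ≠ 0, |z| ≤ r}` and `{ζ : D(1/ζ) ≠ 0, |ζ| ≥ 1/r}` are locally finite in `ℂ`.)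
-/

set_option autoImplicit false

namespace Pool.Agent.H36.BP

attribute [-instance] ProperSMul.toContinuousSMul

open Filter Topology Metric

variable {N : ℕ}

open Pool.Agent.H17 (PN HolomorphicInto)

/-- common core of both lifting theorems: `w` is a function with the required orders -/
private lemma Lift_core {f : ℂ → PN N} {U V : Set ℂ} (hU : IsOpen U) (hUc : IsPreconnected U)
    (hV : IsOpen V) (hVU : V ⊆ U) (hne : U.Nonempty) (hf : HolomorphicInto f U)
    (hW : ∀ D : ℂ → ℕ, (∀ K : Set ℂ, IsCompact K → K ⊆ U → {z ∈ K | D z ≠ 0}.Finite) →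
      ∃ w : ℂ → ℂ, ∀ z ∈ V, AnalyticAt ℂ w z ∧ analyticOrderAt w z = D z) :
    ∃ F : ℂ → EN N, DifferentiableOn ℂ F V ∧
      ∀ z ∈ V, ∃ h : (F z).ofLp ≠ 0, f z = Projectivization.mk ℂ _ h := by
  classical
  have hf' : ∀ z₀, ∃ φ : ℂ → Fin (N + 1) → ℂ, z₀ ∈ U → (AnalyticAt ℂ φ z₀ ∧
      ∀ᶠ z in 𝓝 z₀, ∃ h : φ z ≠ 0, f z = Projectivization.mk ℂ (φ z) h) := by
    intro z₀
    by_cases h : z₀ ∈ U
    · obtain ⟨φ, h1, h2⟩ := hf z₀ h
      exact ⟨φ, fun _ => ⟨h1, h2⟩⟩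
    · exact ⟨fun _ => 0, fun h' => absurd h' h⟩
  choose φ hφ using hf'
  have hφj : ∀ z₀ ∈ U, ∀ j, AnalyticAt ℂ (fun z => φ z₀ z j) z₀ := fun z₀ hz₀ j =>
    (analyticAt_pi_iff.mp (hφ z₀ hz₀).1) j
  -- comparison of lifts
  have hcmp : ∀ z₀ ∈ U, ∀ᶠ z in 𝓝 z₀, ∃ c : ℂ, c ≠ 0 ∧ ∀ j, φ z₀ z j = c * φ z z j := by
    intro z₀ hz₀
    filter_upwards [(hφ z₀ hz₀).2, hU.mem_nhds hz₀] with z hz hzU
    obtain ⟨h1, h2⟩ := hz
    obtain ⟨h3, h4⟩ := ((hφ z hzU).2).self_of_nhds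
    exact Pool.Agent.H17.mk_eq_mk_cross (h2.symm.trans h4)
  have hφ0 : ∀ z₀ ∈ U, φ z₀ z₀ ≠ 0 := fun z₀ hz₀ => ((hφ z₀ hz₀).2).self_of_nhds.1
  obtain ⟨b, hb⟩ := hne
  obtain ⟨j₀, hj₀⟩ : ∃ j₀, φ b b j₀ ≠ 0 := by
    by_contra h
    push Not at h
    exact hφ0 b hb (funext h)
  -- the coordinate `j₀` does not vanish identically near any point
  set A : Set ℂ := {z₀ | z₀ ∈ U ∧ ∀ᶠ z in 𝓝 z₀, φ z₀ z j₀ = 0} with hA
  set B : Set ℂ := {z₀ | z₀ ∈ U ∧ ∀ᶠ z in 𝓝[≠] z₀, φ z₀ z j₀ ≠ 0} with hB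
  have hAopen : IsOpen A := by
    rw [isOpen_iff_mem_nhds]
    rintro z₀ ⟨hz₀U, hz₀⟩
    have h1 : ∀ᶠ z in 𝓝 z₀, φ z z j₀ = 0 := by
      filter_upwards [hz₀, hcmp z₀ hz₀U] with z h1 h2
      obtain ⟨c, hc, h3⟩ := h2
      have := h3 j₀
      rw [h1] at this
      exact (mul_eq_zero.mp this.symm).resolve_left hc
    filter_upwards [h1.eventually_nhds, hU.mem_nhds hz₀U] with z₁ h2 hz₁U
    refine ⟨hz₁U, ?_⟩
    filter_upwards [h2, hcmp z₁ hz₁U] with z h3 h4
    obtain ⟨c, hc, h5⟩ := h4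
    rw [h5, h3, mul_zero]
  have hBopen : IsOpen B := by
    rw [isOpen_iff_mem_nhds]
    rintro z₀ ⟨hz₀U, hz₀⟩
    have h3 := eventually_nhdsWithin_iff.mp hz₀
    filter_upwards [h3, hcmp z₀ hz₀U, hU.mem_nhds hz₀U] with z h4 h5 hzU
    by_cases hz : z = z₀
    · rw [hz]; exact ⟨hz₀U, hz₀⟩
    · refine ⟨hzU, ?_⟩
      obtain ⟨c, hc, h6⟩ := h5
      rcases (hφj z hzU j₀).eventually_eq_zero_or_eventually_ne_zero with h | h
      · exfalso
        have h8 : φ z z j₀ = 0 := h.self_of_nhds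
        apply h4 hz
        rw [h6, h8, mul_zero]
      · exact h
  have hUB : U ⊆ B := by
    have hdisj : Disjoint B A := by
      rw [Set.disjoint_left]
      rintro z ⟨_, h1⟩ ⟨_, h2⟩
      obtain ⟨y, hy1, hy2⟩ := (h1.and (h2.filter_mono nhdsWithin_le_nhds)).exists
      exact hy1 hy2
    have hcov : U ⊆ B ∪ A := by
      intro z hz
      rcases (hφj z hz j₀).eventually_eq_zero_or_eventually_ne_zero with h | h
      · exact Or.inr ⟨hz, h⟩
      · exact Or.inl ⟨hz, h⟩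
    have hbB : b ∈ B := by
      refine ⟨hb, ?_⟩
      rcases (hφj b hb j₀).eventually_eq_zero_or_eventually_ne_zero with h | h
      · exact absurd h.self_of_nhds hj₀
      · exact h
    exact hUc.subset_left_of_subset_union hBopen hAopen hdisj hcov ⟨b, hb, hbB⟩
  have hne : ∀ z₀ ∈ U, ∀ᶠ z in 𝓝[≠] z₀, φ z₀ z j₀ ≠ 0 := fun z₀ hz₀ => (hUB hz₀).2
  have hfin : ∀ z₀ ∈ U, analyticOrderAt (fun z => φ z₀ z j₀) z₀ ≠ ⊤ := by
    intro z₀ hz₀ h
    rw [analyticOrderAt_eq_top] at h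
    obtain ⟨y, hy1, hy2⟩ := ((hne z₀ hz₀).and (h.filter_mono nhdsWithin_le_nhds)).exists
    exact hy1 hy2
  set D : ℂ → ℕ := fun z => analyticOrderNatAt (fun y => φ z y j₀) z with hD
  have hDord : ∀ z ∈ U, analyticOrderAt (fun y => φ z y j₀) z = D z := fun z hz =>
    (Nat.cast_analyticOrderNatAt (hfin z hz)).symm
  have hDfin : ∀ K : Set ℂ, IsCompact K → K ⊆ U → {z ∈ K | D z ≠ 0}.Finite := by
    intro K hK hKU
    by_contra hinf
    obtain ⟨y, hyK, hy⟩ := Set.Infinite.exists_accPt_of_subset_isCompact hinf hK (fun z hz => hz.1)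
    have hyU := hKU hyK
    rw [accPt_iff_frequently_nhdsNE] at hy
    obtain ⟨z, hz1, hz2, hz3, hzU⟩ := (hy.and_eventually ((hne y hyU).and
      (((hcmp y hyU).filter_mono nhdsWithin_le_nhds).and
        (mem_nhdsWithin_of_mem_nhds (hU.mem_nhds hyU))))).exists
    obtain ⟨c, hc, h4⟩ := hz3
    apply hz1.2
    have h5 : φ z z j₀ ≠ 0 := by
      intro h
      apply hz2
      rw [h4, h, mul_zero]
    have h6 := hDord z hzU
    rw [(hφj z hzU j₀).analyticOrderAt_eq_zero.mpr h5] at h6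
    exact_mod_cast h6.symm
  obtain ⟨w, hw⟩ := hW D hDfin
  have hq : ∀ z₀, ∃ q : ℂ → ℂ, z₀ ∈ V → (AnalyticAt ℂ q z₀ ∧ q z₀ ≠ 0 ∧
      ∀ᶠ z in 𝓝 z₀, w z = q z * φ z₀ z j₀) := by
    intro z₀
    by_cases h : z₀ ∈ V
    · obtain ⟨q, h1⟩ := Pool.Agent.H17.exists_unit_quotient (hw z₀ h).1 (hφj z₀ (hVU h) j₀)
        (hw z₀ h).2 (hDord z₀ (hVU h))
      exact ⟨q, fun _ => h1⟩
    · exact ⟨fun _ => 0, fun h' => absurd h' h⟩
  choose q hq using hq
  set X : Fin (N + 1) → ℂ → ℂ := fun j z => q z z * φ z z j with hX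
  have hXloc : ∀ z₀ ∈ V, ∀ j, X j =ᶠ[𝓝 z₀] fun z => q z₀ z * φ z₀ z j := by
    intro z₀ hz₀ j
    have h1 := eventually_nhdsWithin_iff.mp (hne z₀ (hVU hz₀))
    filter_upwards [h1, hcmp z₀ (hVU hz₀), (hq z₀ hz₀).2.2, hV.mem_nhds hz₀] with z h2 h3 h4 hzV
    by_cases hz : z = z₀
    · rw [hz]
    · obtain ⟨c, hc, h5⟩ := h3
      have h6 := h2 hz
      have h7 : w z = q z z * φ z z j₀ := ((hq z hzV).2.2).self_of_nhds
      have h8 : φ z z j₀ ≠ 0 := by
        intro h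
        apply h6
        rw [h5, h, mul_zero]
      have h9 : q z₀ z * c = q z z := by
        apply mul_right_cancel₀ h8
        rw [← h7, h4, h5]
        ring
      simp only [hX]
      rw [h5, ← h9]
      ring
  have hXdiff : ∀ j, ∀ z₀ ∈ V, DifferentiableAt ℂ (X j) z₀ := by
    intro j z₀ hz₀
    exact (hXloc z₀ hz₀ j).differentiableAt_iff.mpr
      ((hq z₀ hz₀).1.mul (hφj z₀ (hVU hz₀) j)).differentiableAt
  refine ⟨fun z => WithLp.toLp 2 (fun j => X j z), ?_, fun z hz => ?_⟩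
  · intro z hz
    apply DifferentiableAt.differentiableWithinAt
    rw [differentiableAt_euclidean]
    exact fun j => hXdiff j z hz
  · obtain ⟨h1, h2⟩ := ((hφ z (hVU hz)).2).self_of_nhds
    have h3 : (fun j => X j z) = q z z • φ z z := by
      funext j
      rfl
    have h4 : (fun j => X j z) ≠ 0 := by
      rw [h3]
      exact smul_ne_zero (hq z hz).2.1 h1
    refine ⟨h4, ?_⟩
    rw [h2, Projectivization.mk_eq_mk_iff]
    refine ⟨(Units.mk0 (q z z) (hq z hz).2.1)⁻¹, ?_⟩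
    change (Units.mk0 (q z z) (hq z hz).2.1)⁻¹ • (fun j => X j z) = φ z z
    rw [h3, Units.smul_def, smul_smul]
    simp [(hq z hz).2.1]

theorem lift_disc {f : ℂ → PN N} (hf : HolomorphicInto f (ball 0 1)) {r : ℝ} (hr : 0 < r) (hr1 : r < 1) :
    ∃ F : ℂ → EN N, DifferentiableOn ℂ F (ball 0 r) ∧ ∀ z ∈ ball (0 : ℂ) r, ∃ h : (F z).ofLp ≠ 0, f z = Projectivization.mk ℂ _ h := by
  classical
  refine Lift_core isOpen_ball (convex_ball (0 : ℂ) 1).isPreconnected isOpen_ball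
    (ball_subset_ball hr1.le) ⟨0, mem_ball_self one_pos⟩ hf ?_
  intro D hD
  obtain ⟨w, hw⟩ := Pool.Agent.H17.exists_entire_with_orders
    (fun z => if z ∈ closedBall (0 : ℂ) r then D z else 0) (by
      intro R
      refine (hD (closedBall 0 r) (isCompact_closedBall _ _)
        (closedBall_subset_ball hr1)).subset ?_
      rintro z ⟨_, hz⟩
      by_cases h : z ∈ closedBall (0 : ℂ) r
      · simp only [h, if_true] at hz
        exact ⟨h, hz⟩
      · simp [h] at hz)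
  refine ⟨w, fun z hz => ⟨w.analyticAt z, ?_⟩⟩
  rw [hw z, if_pos (ball_subset_closedBall hz)]

/-- the punctured disc is preconnected -/
private lemma Lift_preconn : IsPreconnected (ball (0 : ℂ) 1 \ {0}) := by
  have h1 : ball (0 : ℂ) 1 \ {0} = Complex.exp '' {z : ℂ | z.re < 0} := by
    ext z
    constructor
    · rintro ⟨h1, h2⟩
      have h3 : z ≠ 0 := h2
      refine ⟨Complex.log z, ?_, Complex.exp_log h3⟩
      change (Complex.log z).re < 0
      rw [Complex.log_re]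
      exact Real.log_neg (norm_pos_iff.mpr h3) (mem_ball_zero_iff.mp h1)
    · rintro ⟨y, hy, rfl⟩
      refine ⟨?_, Complex.exp_ne_zero y⟩
      rw [mem_ball_zero_iff, Complex.norm_exp]
      exact Real.exp_lt_one_iff.mpr hy
  rw [h1]
  exact ((convex_halfSpace_re_lt 0).isPreconnected).image _ Complex.continuous_exp.continuousOn

theorem lift_punct {f : ℂ → PN N} (hf : HolomorphicInto f (ball 0 1 \ {0})) {r : ℝ} (hr : 0 < r) (hr1 : r < 1) :
    ∃ F : ℂ → EN N, DifferentiableOn ℂ F (ball 0 r \ {0}) ∧ ∀ z ∈ ball (0 : ℂ) r \ {0}, ∃ h : (F z).ofLp ≠ 0, f z = Projectivization.mk ℂ _ h := by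
  classical
  have hopen : ∀ s : ℝ, IsOpen (ball (0 : ℂ) s \ {0}) := fun s =>
    isOpen_ball.sdiff isClosed_singleton
  refine Lift_core (hopen 1) Lift_preconn (hopen r)
    (Set.sdiff_subset_sdiff_left (ball_subset_ball hr1.le)) ⟨1 / 2, ?_, ?_⟩ hf ?_
  · rw [mem_ball_zero_iff]; norm_num
  · norm_num
  intro D hD
  obtain ⟨w, hw⟩ := Pool.Agent.H17.exists_entire_with_orders
    (fun ζ => if r⁻¹ ≤ ‖ζ‖ then D ζ⁻¹ else 0) (by
      intro R
      set S : ℝ := max R 1 with hS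
      have hS1 : 0 < S := lt_of_lt_of_le one_pos (le_max_right _ _)
      have hK : IsCompact (closedBall (0 : ℂ) r \ ball 0 S⁻¹) :=
        (isCompact_closedBall _ _).diff isOpen_ball
      have hKU : closedBall (0 : ℂ) r \ ball 0 S⁻¹ ⊆ ball 0 1 \ {0} := by
        rintro z ⟨h1, h2⟩
        refine ⟨closedBall_subset_ball hr1 h1, ?_⟩
        rintro rfl
        exact h2 (mem_ball_self (inv_pos.mpr hS1))
      refine ((hD _ hK hKU).image (fun z => z⁻¹)).subset ?_
      rintro z ⟨hz1, hz⟩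
      by_cases h : r⁻¹ ≤ ‖z‖
      · simp only [h, if_true] at hz
        have h0 : 0 < ‖z‖ := lt_of_lt_of_le (inv_pos.mpr hr) h
        refine ⟨z⁻¹, ⟨⟨?_, ?_⟩, hz⟩, inv_inv z⟩
        · rw [mem_closedBall_zero_iff, norm_inv]
          exact inv_le_of_inv_le₀ hr h
        · rw [mem_ball_zero_iff, norm_inv, not_lt]
          apply inv_anti₀ h0
          exact le_trans (mem_closedBall_zero_iff.mp hz1) (le_max_left _ _)
      · simp [h] at hz)
  refine ⟨fun z => (w : ℂ → ℂ) z⁻¹, fun z hz => ?_⟩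
  have hz0 : z ≠ 0 := hz.2
  have hinv : AnalyticAt ℂ (fun z : ℂ => z⁻¹) z := analyticAt_inv hz0
  have hd : deriv (fun z : ℂ => z⁻¹) z ≠ 0 := by
    rw [deriv_inv]
    exact neg_ne_zero.mpr (inv_ne_zero (pow_ne_zero 2 hz0))
  refine ⟨(w.analyticAt z⁻¹).comp hinv, ?_⟩
  have h1 : analyticOrderAt ((w : ℂ → ℂ) ∘ fun z : ℂ => z⁻¹) z = analyticOrderAt (w : ℂ → ℂ) z⁻¹ :=
    analyticOrderAt_comp_of_deriv_ne_zero hinv hd
  have h2 : r⁻¹ ≤ ‖z⁻¹‖ := by
    rw [norm_inv]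
    exact inv_anti₀ (norm_pos_iff.mpr hz0) (mem_ball_zero_iff.mp hz.1).le
  have h3 := hw z⁻¹
  rw [if_pos h2, inv_inv] at h3
  rw [← h3, ← h1]
  rfl

end Pool.Agent.H36.BP

end

section

/-!
# BP Main: the main theorems of the function theory half

`picard`: let `F` be a lift on `0 < |z| < 1/2` (`lift_punct`), `F₁ z = F(z/2)`.  If `wd F F' = 0` near a point then `f` is constant near a point, so it is constant on the punctured disc and extends.  `F` lies in `B` near no point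
(`vanish_identity`).  `exists_pos` gives `z₁` with positive metric; `brody_bound`, `growth`, `bounded_lifts`, `puncture_limit` give `Q` near `0`; glue.
-/

set_option autoImplicit false

namespace Pool.Agent.H36.BP

attribute [-instance] ProperSMul.toContinuousSMul

open Filter Topology Metric

variable {N : ℕ}

open Pool.Agent.H17 (PN HolomorphicInto puncturedDisc VanishesAt vanishesAt_mk_iff)

variable {K B : Set (EN N)} {G : EN N → EN N → ℝ} {ρ : EN N → ℝ} {M : ℕ} {c₀ C : ℝ}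

/-- if the wedge of a curve with its derivative vanishes near a point then the curve is projectively constant near this point -/
theorem const_of_wedge {F : ℂ → EN N} {z : ℂ} (hF : AnalyticAt ℂ F z) (h0 : F z ≠ 0) (hw : ∀ᶠ w in 𝓝 z, wd (F w) (deriv F w) = 0) :
    ∀ᶠ w in 𝓝 z, ∃ c : ℂ, c ≠ 0 ∧ F w = c • F z := by
  obtain ⟨j, hj⟩ : ∃ j, (F z) j ≠ 0 := by
    by_contra hcon
    push Not at hcon
    exact h0 (by ext i; exact hcon i)
  have hcoord : ∀ i, AnalyticAt ℂ (fun w => F w i) z := fun i => analyticAt_pi_iff.mp (analyticAt_ofLp hF) i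
  have hne : ∀ᶠ w in 𝓝 z, F w j ≠ 0 := (hcoord j).continuousAt.eventually_ne hj
  obtain ⟨r, hr, hr1⟩ := Metric.eventually_nhds_iff_ball.mp ((hF.eventually_analyticAt.and hne).and hw)
  have hder : ∀ w ∈ ball z r, ∀ i, HasDerivAt (fun w => F w i) (deriv F w i) w := by
    intro w hw' i
    have h1 : HasDerivAt F (deriv F w) w := (hr1 w hw').1.1.differentiableAt.hasDerivAt
    have h2 := ((EuclideanSpace.equiv (Fin (N + 1)) ℂ) : EN N →L[ℂ] (Fin (N + 1) → ℂ)).hasFDerivAt.comp_hasDerivAt w h1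
    exact (hasDerivAt_pi.mp h2) i
  have hconst : ∀ i, ∀ w ∈ ball z r, F w i / F w j = F z i / F z j := by
    intro i w hw'
    have hd : ∀ y ∈ ball z r, HasDerivAt (fun w => F w i / F w j) 0 y := by
      intro y hy
      have h3 := (hder y hy i).div (hder y hy j) (hr1 y hy).1.2
      have hFy : F y ≠ 0 := by
        intro h
        apply (hr1 y hy).1.2
        rw [h]; rfl
      obtain ⟨a, ha⟩ := (wd_eq_zero hFy).mp (hr1 y hy).2
      have h4 : (deriv F y i * F y j - F y i * deriv F y j) / F y j ^ 2 = 0 := by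
        rw [ha]
        simp only [PiLp.smul_apply, smul_eq_mul]
        ring
      rwa [h4] at h3
    have hdo : DifferentiableOn ℂ (fun w => F w i / F w j) (ball z r) := fun y hy => (hd y hy).differentiableAt.differentiableWithinAt
    exact (convex_ball z r).is_const_of_fderivWithin_eq_zero (𝕜 := ℂ) hdo (by
      intro y hy
      rw [fderivWithin_of_isOpen isOpen_ball hy]
      have := (hd y hy).hasFDerivAt.fderiv
      rw [this]
      ext
      simp) hw' (mem_ball_self hr)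
  filter_upwards [ball_mem_nhds z hr] with w hw'
  refine ⟨F w j / F z j, div_ne_zero (hr1 w hw').1.2 hj, ?_⟩
  ext i
  have h5 := hconst i w hw'
  have h6 := (hr1 w hw').1.2
  simp only [PiLp.smul_apply, smul_eq_mul]
  field_simp at h5 ⊢
  linear_combination h5

/-- Kobayashi hyperbolicity modulo the exceptional set: all lifts of all discs -/
theorem kobayashi_of_bound {X Z : Set (PN N)} (hM : MetricData (coneOf X) (coneOf Z) G ρ M c₀ C)
    (hbound : ∃ L : ℝ, 0 < L ∧ ∀ F, Curve (coneOf X) (ball 0 1) F → mt G F 0 ≤ L) :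
    ∃ L : ℝ, 0 < L ∧ ∀ (f : ℂ → PN N) (F : ℂ → EN N), HolomorphicInto f (ball 0 1) → (∀ z ∈ ball (0 : ℂ) 1, f z ∈ X) →
      AnalyticAt ℂ F 0 → (∀ᶠ z in 𝓝 (0 : ℂ), ∃ h : (F z).ofLp ≠ 0, f z = Projectivization.mk ℂ _ h) →
      ρ (F 0) ^ M * fs (F 0) (deriv F 0) ≤ L := by
  obtain ⟨L, hL, hLb⟩ := hbound
  refine ⟨2 * L, by positivity, fun f F hf hfX hF hFf => ?_⟩
  obtain ⟨F₁, hF1d, hF1f⟩ := lift_disc hf (r := 1 / 2) (by norm_num) (by norm_num)
  have h0mem : (0 : ℂ) ∈ ball (0 : ℂ) (1 / 2) := mem_ball_self (by norm_num)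
  have hF10 : F₁ 0 ≠ 0 := ne_zero_of_ofLp (hF1f 0 h0mem).choose
  have hF1a : AnalyticAt ℂ F₁ 0 := hF1d.analyticAt (isOpen_ball.mem_nhds h0mem)
  have hF1K : ∀ z ∈ ball (0 : ℂ) (1 / 2), F₁ z ∈ coneOf X := by
    intro z hz
    obtain ⟨h1, h2⟩ := hF1f z hz
    exact ⟨h1, by rw [← h2]; exact hfX z (ball_subset_ball (by norm_num) hz)⟩
  -- the scaled curve
  have hcur : Curve (coneOf X) (ball 0 1) (fun z => F₁ (z / 2)) := by
    have hh : ∀ z ∈ ball (0 : ℂ) 1, z / 2 ∈ ball (0 : ℂ) (1 / 2) := by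
      intro z hz
      rw [mem_ball_zero_iff] at hz ⊢
      rw [norm_div]
      simp only [Complex.norm_ofNat]
      linarith
    refine ⟨fun z hz => ?_, fun z hz => hF1K _ (hh z hz)⟩
    have h1 : DifferentiableAt ℂ F₁ (z / 2) := hF1d.differentiableAt (isOpen_ball.mem_nhds (hh z hz))
    exact (h1.comp z (differentiableAt_id.div_const 2)).differentiableWithinAt
  have hb := hLb _ hcur
  have hdz : HasDerivAt (fun z : ℂ => z / 2) (1 / 2) 0 := by simpa using (hasDerivAt_id (0 : ℂ)).div_const 2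
  have e1 : mt G (fun z => F₁ (z / 2)) 0 = ‖deriv (fun z : ℂ => z / 2) 0‖ * mt G F₁ ((fun z : ℂ => z / 2) 0) := by
    refine mt_comp hM (φ := fun z : ℂ => z / 2) ?_ hdz.differentiableAt ?_
    · simpa using hF1a.differentiableAt
    · simpa using hF1K 0 h0mem
  rw [hdz.deriv] at e1
  simp only [zero_div] at e1
  have hn : ‖(1 / 2 : ℂ)‖ = 1 / 2 := by norm_num
  rw [hn] at e1
  rw [e1] at hb
  -- comparison of the lifts
  obtain ⟨j, hj⟩ : ∃ j, (F₁ 0) j ≠ 0 := by
    by_contra hcon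
    push Not at hcon
    exact hF10 (by ext i; exact hcon i)
  have hc1 : AnalyticAt ℂ (fun w => F₁ w j) 0 := analyticAt_pi_iff.mp (analyticAt_ofLp hF1a) j
  have hc2 : AnalyticAt ℂ (fun w => F w j) 0 := analyticAt_pi_iff.mp (analyticAt_ofLp hF) j
  set k : ℂ → ℂ := fun w => F w j / F₁ w j with hk
  have hka : AnalyticAt ℂ k 0 := hc2.div hc1 hj
  have hrel : ∀ᶠ w in 𝓝 (0 : ℂ), F w = k w • F₁ w ∧ k w ≠ 0 := by
    filter_upwards [hFf, isOpen_ball.mem_nhds h0mem, hc1.continuousAt.eventually_ne hj] with w h1 h2 h3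
    obtain ⟨h4, h5⟩ := h1
    obtain ⟨h6, h7⟩ := hF1f w h2
    rw [h5, Projectivization.mk_eq_mk_iff'] at h7
    obtain ⟨a, ha⟩ := h7
    have ha' : ∀ i, a * F₁ w i = F w i := fun i => congrFun ha i
    have hka' : k w = a := by
      rw [hk]
      simp only
      rw [← ha' j]
      field_simp
    refine ⟨?_, ?_⟩
    · rw [hka']
      ext i
      exact (ha' i).symm
    · rw [hka']
      rintro rfl
      apply h4
      funext i
      rw [← ha' i, zero_mul]
      rfl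
  have hF0 : F 0 ∈ coneOf X := by
    obtain ⟨h1, h2⟩ := hFf.self_of_nhds
    exact ⟨h1, by rw [← h2]; exact hfX 0 (mem_ball_self one_pos)⟩
  have e2 : mt G F 0 = mt G (fun w => k w • F₁ w) 0 := by
    have h1 : F =ᶠ[𝓝 0] fun w => k w • F₁ w := by
      filter_upwards [hrel] with w hw
      exact hw.1
    unfold mt
    rw [h1.deriv_eq, h1.self_of_nhds]
  rw [mt_smul hM hF1a.differentiableAt hka.differentiableAt (hF1K 0 h0mem) hrel.self_of_nhds.2] at e2
  have hlow := hM.lower (F 0) hF0 (deriv F 0)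
  have : mt G F 0 ≤ 2 * L := by rw [e2]; linarith
  exact hlow.trans this

end Pool.Agent.H36.BP

end

section

/-!
# From the Brody bound to Kobayashi hyperbolicity
-/

open Filter Topology Metric

noncomputable section

namespace Pool.Agent.H14.KB

attribute [-instance] ProperSMul.toContinuousSMul

open Pool.Agent.H17 (PN HolomorphicInto puncturedDisc)
open Pool.Agent.H36.BP

variable {N : ℕ} {G : EN N → EN N → ℝ} {ρ : EN N → ℝ} {M : ℕ} {c₀ C : ℝ}

/-- Kobayashi hyperbolicity modulo the exceptional set: all lifts of all discs -/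
theorem kobayashi_of_bound {X Z : Set (PN N)} (hM : MetricData (coneOf X) (coneOf Z) G ρ M c₀ C)
    (hB : ∃ L : ℝ, 0 < L ∧ ∀ F, Curve (coneOf X) (ball 0 1) F → mt G F 0 ≤ L) :
    ∃ L : ℝ, 0 < L ∧ ∀ (f : ℂ → PN N) (F : ℂ → EN N), HolomorphicInto f (ball 0 1) → (∀ z ∈ ball (0 : ℂ) 1, f z ∈ X) →
      AnalyticAt ℂ F 0 → (∀ᶠ z in 𝓝 (0 : ℂ), ∃ h : (F z).ofLp ≠ 0, f z = Projectivization.mk ℂ _ h) →
      ρ (F 0) ^ M * fs (F 0) (deriv F 0) ≤ L := by
  obtain ⟨L, hL, hLb⟩ := hB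
  refine ⟨2 * L, by positivity, fun f F hf hfX hF hFf => ?_⟩
  obtain ⟨F₁, hF1d, hF1f⟩ := lift_disc hf (r := 1 / 2) (by norm_num) (by norm_num)
  have h0mem : (0 : ℂ) ∈ ball (0 : ℂ) (1 / 2) := mem_ball_self (by norm_num)
  have hF10 : F₁ 0 ≠ 0 := ne_zero_of_ofLp (hF1f 0 h0mem).choose
  have hF1a : AnalyticAt ℂ F₁ 0 := hF1d.analyticAt (isOpen_ball.mem_nhds h0mem)
  have hF1K : ∀ z ∈ ball (0 : ℂ) (1 / 2), F₁ z ∈ coneOf X := by
    intro z hz
    obtain ⟨h1, h2⟩ := hF1f z hz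
    exact ⟨h1, by rw [← h2]; exact hfX z (ball_subset_ball (by norm_num) hz)⟩
  -- the scaled curve
  have hcur : Curve (coneOf X) (ball 0 1) (fun z => F₁ (z / 2)) := by
    have hh : ∀ z ∈ ball (0 : ℂ) 1, z / 2 ∈ ball (0 : ℂ) (1 / 2) := by
      intro z hz
      rw [mem_ball_zero_iff] at hz ⊢
      rw [norm_div]
      simp only [Complex.norm_ofNat]
      linarith
    refine ⟨fun z hz => ?_, fun z hz => hF1K _ (hh z hz)⟩
    have h1 : DifferentiableAt ℂ F₁ (z / 2) := hF1d.differentiableAt (isOpen_ball.mem_nhds (hh z hz))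
    exact (h1.comp z (differentiableAt_id.div_const 2)).differentiableWithinAt
  have hb := hLb _ hcur
  have hdz : HasDerivAt (fun z : ℂ => z / 2) (1 / 2) 0 := by simpa using (hasDerivAt_id (0 : ℂ)).div_const 2
  have e1 : mt G (fun z => F₁ (z / 2)) 0 = ‖deriv (fun z : ℂ => z / 2) 0‖ * mt G F₁ ((fun z : ℂ => z / 2) 0) := by
    refine mt_comp hM (φ := fun z : ℂ => z / 2) ?_ hdz.differentiableAt ?_
    · simpa using hF1a.differentiableAt
    · simpa using hF1K 0 h0mem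
  rw [hdz.deriv] at e1
  simp only [zero_div] at e1
  have hn : ‖(1 / 2 : ℂ)‖ = 1 / 2 := by norm_num
  rw [hn] at e1
  rw [e1] at hb
  -- comparison of the lifts
  obtain ⟨j, hj⟩ : ∃ j, (F₁ 0) j ≠ 0 := by
    by_contra hcon
    push Not at hcon
    exact hF10 (by ext i; exact hcon i)
  have hc1 : AnalyticAt ℂ (fun w => F₁ w j) 0 := analyticAt_pi_iff.mp (analyticAt_ofLp hF1a) j
  have hc2 : AnalyticAt ℂ (fun w => F w j) 0 := analyticAt_pi_iff.mp (analyticAt_ofLp hF) j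
  set k : ℂ → ℂ := fun w => F w j / F₁ w j with hk
  have hka : AnalyticAt ℂ k 0 := hc2.div hc1 hj
  have hrel : ∀ᶠ w in 𝓝 (0 : ℂ), F w = k w • F₁ w ∧ k w ≠ 0 := by
    filter_upwards [hFf, isOpen_ball.mem_nhds h0mem, hc1.continuousAt.eventually_ne hj] with w h1 h2 h3
    obtain ⟨h4, h5⟩ := h1
    obtain ⟨h6, h7⟩ := hF1f w h2
    rw [h5, Projectivization.mk_eq_mk_iff'] at h7
    obtain ⟨a, ha⟩ := h7
    have ha' : ∀ i, a * F₁ w i = F w i := fun i => congrFun ha i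
    have hka' : k w = a := by
      rw [hk]
      simp only
      rw [← ha' j]
      field_simp
    refine ⟨?_, ?_⟩
    · rw [hka']
      ext i
      exact (ha' i).symm
    · rw [hka']
      rintro rfl
      apply h4
      funext i
      rw [← ha' i, zero_mul]
      rfl
  have hF0 : F 0 ∈ coneOf X := by
    obtain ⟨h1, h2⟩ := hFf.self_of_nhds
    exact ⟨h1, by rw [← h2]; exact hfX 0 (mem_ball_self one_pos)⟩
  have e2 : mt G F 0 = Pool.Agent.H36.BP.mt G (fun w => k w • F₁ w) 0 := by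
    have h1 : F =ᶠ[𝓝 0] fun w => k w • F₁ w := by
      filter_upwards [hrel] with w hw
      exact hw.1
    unfold Pool.Agent.H36.BP.mt
    rw [h1.deriv_eq, h1.self_of_nhds]
  rw [mt_smul hM hF1a.differentiableAt hka.differentiableAt (hF1K 0 h0mem) hrel.self_of_nhds.2] at e2
  have hlow := hM.lower (F 0) hF0 (deriv F 0)
  have : mt G F 0 ≤ 2 * L := by rw [e2]; linarith
  exact hlow.trans this

end Pool.Agent.H14.KB

end
end

section

/-!
# BP Main: the main theorems of the function theory half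

`picard`: let `F` be a lift on `0 < |z| < 1/2` (`lift_punct`), `F₁ z = F(z/2)`.  If `wd F F' = 0` near a point then `f` is constant near a point, so it is constant on the punctured disc and extends.  `F` lies in `B` near no point
(`vanish_identity`).  `exists_pos` gives `z₁` with positive metric; `brody_bound`, `growth`, `bounded_lifts`, `puncture_limit` give `Q` near `0`; glue.
-/

set_option autoImplicit false

namespace Pool.Agent.H36.BP

attribute [-instance] ProperSMul.toContinuousSMul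

open Filter Topology Metric

variable {N : ℕ}

open Pool.Agent.H17 (PN HolomorphicInto puncturedDisc VanishesAt vanishesAt_mk_iff)

variable {K B : Set (EN N)} {G : EN N → EN N → ℝ} {ρ : EN N → ℝ} {M : ℕ} {c₀ C : ℝ}

/-- extension across the puncture, in terms of cones -/
theorem picard_cone_of_bound (hM : MetricData K B G ρ M c₀ C) (hbound : ∃ L : ℝ, 0 < L ∧ ∀ F, Curve K (ball 0 1) F → mt G F 0 ≤ L) (hBs : ∀ x ∈ B, ∀ c : ℂ, c ≠ 0 → c • x ∈ B)
    (hρ : ∀ x ∈ K, x ∈ B → ρ x = 0) (f : ℂ → PN N) (hf : HolomorphicInto f puncturedDisc)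
    (hfK : ∀ z ∈ puncturedDisc, (WithLp.toLp 2 (f z).rep : EN N) ∈ K) (hfB : ∃ z ∈ puncturedDisc, (WithLp.toLp 2 (f z).rep : EN N) ∉ B) :
    ∃ g : ℂ → PN N, HolomorphicInto g (ball 0 1) ∧ ∀ z ∈ puncturedDisc, g z = f z := by
  classical
  -- lifts and representatives
  have hrep : ∀ (z : ℂ) (x : EN N) (h : x.ofLp ≠ 0), f z = Projectivization.mk ℂ _ h →
      ∃ a : ℂ, a ≠ 0 ∧ (WithLp.toLp 2 (f z).rep : EN N) = a • x := by
    intro z x h h1
    obtain ⟨a, ha, h2⟩ := Pool.Agent.H17.exists_smul_rep x.ofLp h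
    refine ⟨a, ha, ?_⟩
    rw [h1, h2]
    rfl
  have hliftK : ∀ z ∈ puncturedDisc, ∀ (x : EN N) (h : x.ofLp ≠ 0), f z = Projectivization.mk ℂ _ h → x ∈ K := by
    intro z hz x h h1
    obtain ⟨a, ha, h2⟩ := hrep z x h h1
    have h3 := hM.smul _ (hfK z hz) a⁻¹ (inv_ne_zero ha)
    rwa [h2, smul_smul, inv_mul_cancel₀ ha, one_smul] at h3
  have hliftB : ∀ (z : ℂ) (x : EN N) (h : x.ofLp ≠ 0), f z = Projectivization.mk ℂ _ h →
      ((WithLp.toLp 2 (f z).rep : EN N) ∈ B ↔ x ∈ B) := by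
    intro z x h h1
    obtain ⟨a, ha, h2⟩ := hrep z x h h1
    constructor
    · intro h3
      rw [h2] at h3
      have h4 := hBs _ h3 a⁻¹ (inv_ne_zero ha)
      rwa [smul_smul, inv_mul_cancel₀ ha, one_smul] at h4
    · intro h3
      rw [h2]
      exact hBs _ h3 a ha
  -- `f` lies in `B` near no point
  have hnB' : ∀ z ∈ puncturedDisc, ¬ ∀ᶠ w in 𝓝 z, (WithLp.toLp 2 (f w).rep : EN N) ∈ B := by
    intro z hz hzB
    set A : Set ℂ := {z | ∀ᶠ w in 𝓝 z, (WithLp.toLp 2 (f w).rep : EN N) ∈ B} with hA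
    have hAo : IsOpen A := by
      rw [isOpen_iff_mem_nhds]
      intro z hz
      exact hz.eventually_nhds
    have hcl : closure A ∩ puncturedDisc ⊆ A := by
      rintro y ⟨hy1, hy2⟩
      by_cases hyA : y ∈ A
      · exact hyA
      obtain ⟨φ, hφ, he⟩ := hf y hy2
      have hFa : AnalyticAt ℂ (fun w => (WithLp.toLp 2 (φ w) : EN N)) y := analyticAt_toLp hφ
      have hFK : ∀ᶠ w in 𝓝 y, (WithLp.toLp 2 (φ w) : EN N) ∈ K := by
        filter_upwards [he, isOpen_puncturedDisc.mem_nhds hy2] with w hw hw2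
        obtain ⟨h1, h2⟩ := hw
        exact hliftK w hw2 _ h1 h2
      have hfreq : ∃ᶠ w in 𝓝[≠] y, ρ (WithLp.toLp 2 (φ w) : EN N) = 0 := by
        have h1 : ∃ᶠ w in 𝓝 y, w ∈ A := mem_closure_iff_frequently.mp hy1
        have h2 : ∃ᶠ w in 𝓝 y, w ∈ A ∧ w ≠ y := by
          refine h1.mono fun w hw => ⟨hw, ?_⟩
          rintro rfl
          exact hyA hw
        have h3 : ∃ᶠ w in 𝓝[≠] y, w ∈ A := by
          rw [frequently_nhdsWithin_iff]
          exact h2.mono fun w hw => ⟨hw.1, hw.2⟩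
        refine (h3.and_eventually ((hFK.and he).filter_mono nhdsWithin_le_nhds)).mono ?_
        rintro w ⟨hw1, hw2, h4, h5⟩
        have h6 : (WithLp.toLp 2 (f w).rep : EN N) ∈ B := by
          have h7 : ∀ᶠ v in 𝓝 w, (WithLp.toLp 2 (f v).rep : EN N) ∈ B := hw1
          exact h7.self_of_nhds
        exact hρ _ hw2 ((hliftB w (WithLp.toLp 2 (φ w)) h4 h5).mp h6)
      have h8 := hM.ρ_zero _ y hFa hFK hfreq
      show ∀ᶠ w in 𝓝 y, (WithLp.toLp 2 (f w).rep : EN N) ∈ B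
      filter_upwards [h8, he] with w hw hw2
      obtain ⟨h4, h5⟩ := hw2
      exact (hliftB w (WithLp.toLp 2 (φ w)) h4 h5).mpr hw
    have hsub : puncturedDisc ⊆ A := preconnected_puncturedDisc.subset_of_closure_inter_subset hAo ⟨z, hz, hzB⟩ hcl
    obtain ⟨z', hz'1, hz'2⟩ := hfB
    have h9 : ∀ᶠ w in 𝓝 z', (WithLp.toLp 2 (f w).rep : EN N) ∈ B := hsub hz'1
    exact hz'2 h9.self_of_nhds
  obtain ⟨F, hFd, hFf⟩ := lift_punct hf (r := 1 / 2) (by norm_num) (by norm_num)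
  have hhalf : ∀ z ∈ ball (0 : ℂ) 1 \ {0}, z / 2 ∈ ball (0 : ℂ) (1 / 2) \ {0} := by
    rintro z ⟨hz1, hz2⟩
    rw [mem_ball_zero_iff] at hz1
    refine ⟨?_, ?_⟩
    · rw [mem_ball_zero_iff, norm_div]
      simp only [Complex.norm_ofNat]
      linarith
    · simpa using hz2
  have hsubp : ball (0 : ℂ) (1 / 2) \ {0} ⊆ puncturedDisc := by
    rintro z ⟨hz1, hz2⟩
    exact ⟨ball_subset_ball (by norm_num) hz1, hz2⟩
  have hopen : IsOpen (ball (0 : ℂ) (1 / 2) \ {0}) := isOpen_ball.sdiff isClosed_singleton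
  have hopen1 : IsOpen (ball (0 : ℂ) 1 \ {0}) := isOpen_ball.sdiff isClosed_singleton
  set F₁ : ℂ → EN N := fun z => F (z / 2) with hF₁
  have hF1c : Curve K (ball 0 1 \ {0}) F₁ := by
    refine ⟨?_, ?_⟩
    · intro z hz
      have h1 : DifferentiableAt ℂ F (z / 2) := hFd.differentiableAt (hopen.mem_nhds (hhalf z hz))
      exact (h1.comp z (differentiableAt_id.div_const 2)).differentiableWithinAt
    · intro z hz
      obtain ⟨h1, h2⟩ := hFf _ (hhalf z hz)
      exact hliftK _ (hsubp (hhalf z hz)) _ h1 h2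
  -- the constant case
  by_cases hconst : ∃ c₁ : PN N, ∀ z ∈ puncturedDisc, f z = c₁
  · obtain ⟨c₁, hc₁⟩ := hconst
    refine ⟨fun _ => c₁, ?_, fun z hz => (hc₁ z hz).symm⟩
    intro z _
    exact ⟨fun _ => c₁.rep, analyticAt_const, Filter.Eventually.of_forall fun w => ⟨c₁.rep_nonzero, (Projectivization.mk_rep c₁).symm⟩⟩
  have han1 : ∀ z ∈ ball (0 : ℂ) 1 \ {0}, AnalyticAt ℂ F₁ z := fun z hz => hF1c.1.analyticAt (hopen1.mem_nhds hz)
  have hc : ∀ z ∈ ball (0 : ℂ) 1 \ {0}, ¬ ∀ᶠ w in 𝓝 z, wd (F₁ w) (deriv F₁ w) = 0 := by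
    intro z hz hw
    apply hconst
    have h0 : F₁ z ≠ 0 := hM.ne _ (hF1c.2 z hz)
    have h1 := const_of_wedge (han1 z hz) h0 hw
    refine ⟨f (z / 2), const_identity preconnected_puncturedDisc hf (hsubp (hhalf z hz)) ?_⟩
    have h2 : Tendsto (fun w : ℂ => 2 * w) (𝓝 (z / 2)) (𝓝 z) := by
      have : Tendsto (fun w : ℂ => 2 * w) (𝓝 (z / 2)) (𝓝 (2 * (z / 2))) := (continuous_const.mul continuous_id).tendsto _
      rwa [mul_div_cancel₀ z (two_ne_zero)] at this
    filter_upwards [h2.eventually h1, hopen.mem_nhds (hhalf z hz)] with w hw1 hw2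
    obtain ⟨c, hc0, hcw⟩ := hw1
    have e1 : F₁ (2 * w) = F w := by
      rw [hF₁]
      simp only
      rw [mul_div_cancel_left₀ w (two_ne_zero)]
    rw [e1] at hcw
    obtain ⟨h3, h4⟩ := hFf w hw2
    obtain ⟨h5, h6⟩ := hFf _ (hhalf z hz)
    rw [h4, h6, Projectivization.mk_eq_mk_iff']
    refine ⟨c, ?_⟩
    rw [hcw]
    rfl
  have hnB : ∀ z ∈ ball (0 : ℂ) 1 \ {0}, ¬ ∀ᶠ w in 𝓝 z, F₁ w ∈ B := by
    intro z hz hw
    apply hnB' _ (hsubp (hhalf z hz))
    have h2 : Tendsto (fun w : ℂ => 2 * w) (𝓝 (z / 2)) (𝓝 z) := by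
      have : Tendsto (fun w : ℂ => 2 * w) (𝓝 (z / 2)) (𝓝 (2 * (z / 2))) := (continuous_const.mul continuous_id).tendsto _
      rwa [mul_div_cancel₀ z (two_ne_zero)] at this
    filter_upwards [h2.eventually hw, hopen.mem_nhds (hhalf z hz)] with w hw1 hw2
    have e1 : F₁ (2 * w) = F w := by
      rw [hF₁]
      simp only
      rw [mul_div_cancel_left₀ w (two_ne_zero)]
    rw [e1] at hw1
    obtain ⟨h5, h6⟩ := hFf w hw2
    exact (hliftB w (F w) h5 h6).mpr hw1
  -- a point with positive metric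
  have hz0 : (1 / 2 : ℂ) ∈ ball (0 : ℂ) 1 \ {0} := by
    refine ⟨?_, by simp⟩
    rw [mem_ball_zero_iff]
    norm_num
  have hpos := exists_pos hM (han1 _ hz0) (Filter.mem_of_superset (hopen1.mem_nhds hz0) fun z hz => hF1c.2 z hz)
    (hnB _ hz0) (hc _ hz0)
  obtain ⟨z₁, hz₁pos, hz₁⟩ := (hpos.and (hopen1.mem_nhds hz0 |> Filter.Eventually.filter_mono nhdsWithin_le_nhds)).exists
  have hz₁1 : ‖z₁‖ < 1 := by simpa using hz₁.1
  have hz₁0 : 0 < ‖z₁‖ := norm_pos_iff.mpr hz₁.2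
  obtain ⟨L, hL, hLb⟩ := hbound
  have hgr : ∀ z : ℂ, z ≠ 0 → ‖z‖ < 1 → mt G F₁ z * (‖z‖ * Real.log (1 / ‖z‖)) ≤ L := fun z hz hz1 => growth hM hLb hF1c hz hz1
  obtain ⟨c, hcpos, hlift⟩ := bounded_lifts hM hL hF1c hgr (r₁ := (‖z₁‖ + 1) / 2) hz₁0 (by linarith) (by linarith) hz₁pos
  obtain ⟨Q, hQa, hQ0, hQ⟩ := puncture_limit hF1c.1 (fun z hz => hM.ne _ (hF1c.2 z hz)) hcpos hz₁0 (r₁ := (‖z₁‖ + 1) / 2)
    (by linarith) (by linarith) hlift
  -- gluing
  set q₀ : PN N := Projectivization.mk ℂ (Q 0).ofLp (ofLp_ne_zero hQ0) with hq₀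
  refine ⟨fun z => if z = 0 then q₀ else f z, ?_, ?_⟩
  · intro z hz
    by_cases hz0 : z = 0
    · subst hz0
      refine ⟨fun w => (Q (2 * w)).ofLp, ?_, ?_⟩
      · apply analyticAt_ofLp
        have h1 : AnalyticAt ℂ Q ((fun w : ℂ => 2 * w) 0) := by simpa using hQa
        exact h1.comp (analyticAt_const.mul analyticAt_id)
      · have h2 : Tendsto (fun w : ℂ => 2 * w) (𝓝 0) (𝓝 0) := by
          have : Tendsto (fun w : ℂ => 2 * w) (𝓝 0) (𝓝 (2 * 0)) := (continuous_const.mul continuous_id).tendsto _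
          rwa [mul_zero] at this
        have h3 : ∀ᶠ w in 𝓝 (0 : ℂ), w ≠ 0 → ∃ k : ℂ, k ≠ 0 ∧ Q (2 * w) = k • F₁ (2 * w) := by
          filter_upwards [h2.eventually (eventually_nhdsWithin_iff.mp hQ)] with w hw hw0
          exact hw (by simpa using hw0)
        have h4 : ∀ᶠ w in 𝓝 (0 : ℂ), Q (2 * w) ≠ 0 := by
          have h5 : ∀ᶠ y in 𝓝 (0 : ℂ), Q y ≠ 0 := hQa.continuousAt.eventually_ne hQ0
          exact h2.eventually h5
        filter_upwards [h3, h4, ball_mem_nhds (0 : ℂ) (show (0 : ℝ) < 1 / 2 by norm_num)] with w hw1 hw2 hw3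
        refine ⟨ofLp_ne_zero hw2, ?_⟩
        by_cases hw0 : w = 0
        · subst hw0
          simp only [if_true, hq₀, mul_zero]
        · rw [if_neg hw0]
          obtain ⟨k, hk0, hk⟩ := hw1 hw0
          have e1 : F₁ (2 * w) = F w := by
            rw [hF₁]
            simp only
            rw [mul_div_cancel_left₀ w (two_ne_zero)]
          rw [e1] at hk
          obtain ⟨h5, h6⟩ := hFf w ⟨hw3, hw0⟩
          rw [h6, Projectivization.mk_eq_mk_iff']
          refine ⟨k⁻¹, ?_⟩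
          rw [hk]
          show k⁻¹ • (k • (F w).ofLp) = _
          rw [smul_smul, inv_mul_cancel₀ hk0, one_smul]
    · obtain ⟨φ, hφ, he⟩ := hf z ⟨hz, hz0⟩
      refine ⟨φ, hφ, ?_⟩
      filter_upwards [he, isOpen_ne.mem_nhds hz0] with w hw1 hw2
      rw [if_neg hw2]
      exact hw1
  · intro z hz
    have hz0 : z ≠ 0 := hz.2
    simp only
    rw [if_neg hz0]

/-- only entire curves of order at most two are needed -/
theorem picard_cone2 (hM : MetricData K B G ρ M c₀ C) (hB : BrodyMod2 K B) (hBs : ∀ x ∈ B, ∀ c : ℂ, c ≠ 0 → c • x ∈ B)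
    (hρ : ∀ x ∈ K, x ∈ B → ρ x = 0) (f : ℂ → PN N) (hf : HolomorphicInto f puncturedDisc)
    (hfK : ∀ z ∈ puncturedDisc, (WithLp.toLp 2 (f z).rep : EN N) ∈ K) (hfB : ∃ z ∈ puncturedDisc, (WithLp.toLp 2 (f z).rep : EN N) ∉ B) :
    ∃ g : ℂ → PN N, HolomorphicInto g (ball 0 1) ∧ ∀ z ∈ puncturedDisc, g z = f z :=
  picard_cone_of_bound hM (brody_bound2 hM hB) hBs hρ f hf hfK hfB

end Pool.Agent.H36.BP

end
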