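import Pool.Agent.H94.CB.M05

/-! The parts of this file: H13.CV.CubD, H13.CV.CubA, H13.CV.CubX, H13.CV.CubB, H13.CV.CubI. -/

section

/-!
# CV CubD: the cone of a Weierstrass cubic

`cub α β x = x₁² x₂ - 4 x₀³ + α x₀ x₂² + β x₂³`, its gradient `gr`, the doubling map `dbl` (of degree `4`), the cone `Cub α β` (without `0`), the vector product `cr x v`.
-/

set_option autoImplicit false

open Topology Filter Metric
open Pool.Agent.H36.BP

noncomputable section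

namespace Pool.Agent.H13.CV

attribute [-instance] ProperSMul.toContinuousSMul

/-- the form -/
def cub (α β : ℂ) (x : Fin 3 → ℂ) : ℂ := x 1 ^ 2 * x 2 - 4 * x 0 ^ 3 + α * x 0 * x 2 ^ 2 + β * x 2 ^ 3

/-- its gradient -/
def gr (α β : ℂ) (x : Fin 3 → ℂ) : Fin 3 → ℂ :=
  ![-12 * x 0 ^ 2 + α * x 2 ^ 2, 2 * x 1 * x 2, x 1 ^ 2 + 2 * α * x 0 * x 2 + 3 * β * x 2 ^ 2]

/-- the vector product -/
def cr (x v : Fin 3 → ℂ) : Fin 3 → ℂ := ![x 1 * v 2 - x 2 * v 1, x 2 * v 0 - x 0 * v 2, x 0 * v 1 - x 1 * v 0]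

/-- the doubling map -/
def dbl (α β : ℂ) (x : Fin 3 → ℂ) : Fin 3 → ℂ :=
  ![x 1 * (8 * x 0 * x 1 ^ 2 + 24 * α * x 0 ^ 2 * x 2 + 72 * β * x 0 * x 2 ^ 2 + 2 * α ^ 2 * x 2 ^ 3),
    4 * x 1 ^ 4 - 12 * α * x 0 * x 1 ^ 2 * x 2 - 72 * β * x 1 ^ 2 * x 2 ^ 2 - 36 * α ^ 2 * x 0 ^ 2 * x 2 ^ 2 - 108 * α * β * x 0 * x 2 ^ 3 + (α ^ 3 - 108 * β ^ 2) * x 2 ^ 4,
    32 * x 1 ^ 3 * x 2]

/-- the cone of the cubic, without `0` -/
def Cub (α β : ℂ) : Set (EN 2) := {x | x ≠ 0 ∧ cub α β x.ofLp = 0}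

end Pool.Agent.H13.CV

end
end

section

/-!
# CV CubA: algebra of the doubling map

`gr_ne`: let `cub x = 0`, `gr x = 0`, `x ≠ 0`.  If `x 2 = 0`: `x 0 = 0` (`cub`), `x 1 = 0` (`gr x 2`): contradiction.  If `x 2 ≠ 0`: `x 1 = 0` (`gr x 1`); `u = x 0 / x 2`: `12 u² = α` (`gr x 0`),
`4 u³ - α u - β = 0` (`cub`), so `- 8 u³ = β` and `α³ = 1728 u⁶ = 27 β²`: contradiction.

`cub_dbl`: the polynomial `cub (dbl x)` (degree `12`) is a multiple of `cub x`: divide by `cub x` as a polynomial in `x 0` (leading coefficient `-4`) with a small program, and use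
`linear_combination (quotient) * h`.  (In the affine coordinates `u = x 0 / x 2`, `v = x 1 / x 2`, `v² = 4 u³ - α u - β`: `U = -2 u + (12 u² - α)² / (16 v²) = (4 u v² + 12 α u² + 36 β u + α²) / (16 v²)`,
`V = - v - (12 u² - α) (U - u) / (2 v)`, `V = (4 v⁴ - 12 α u v² - 72 β v² - 36 α² u² - 108 α β u + α³ - 108 β²) / (32 v³)`, so an alternative is: if `x 1 * x 2 ≠ 0` go to affine coordinates and use
`field_simp`; if `x 1 = 0` or `x 2 = 0` check directly.)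

`dbl_ne`: let `dbl x = 0`, `cub x = 0`, `x ≠ 0`.  `x 1 ^ 3 * x 2 = 0`.  If `x 2 = 0` then `x 0 = 0` by `cub`, and `4 x₁⁴ = 0`, so `x = 0`.  If `x 2 ≠ 0`, `x 1 = 0`: with `u = x 0 / x 2`: `4 u³ = α u + β` and
`- 36 α² u² - 108 α β u + α³ - 108 β² = 0`; but `(12 u² - α)³ = 36 α² u² + 108 α β u - α³ + 108 β²` when `4 u³ = α u + β`, so `12 u² = α`, and then `gr x = 0`: contradiction to `gr_ne`.
-/

set_option autoImplicit false

open Topology Filter Metric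
open Pool.Agent.H36.BP

noncomputable section

namespace Pool.Agent.H13.CV

attribute [-instance] ProperSMul.toContinuousSMul

theorem gr_ne {α β : ℂ} (hd : α ^ 3 ≠ 27 * β ^ 2) {x : Fin 3 → ℂ} (hx : x ≠ 0) (hc : cub α β x = 0) : gr α β x ≠ 0 := by
  intro hg
  have h0 : -12 * x 0 ^ 2 + α * x 2 ^ 2 = 0 := by simpa [gr] using congrFun hg 0
  have h1 : 2 * x 1 * x 2 = 0 := by simpa [gr] using congrFun hg 1
  have h2 : x 1 ^ 2 + 2 * α * x 0 * x 2 + 3 * β * x 2 ^ 2 = 0 := by simpa [gr] using congrFun hg 2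
  unfold cub at hc
  by_cases hx2 : x 2 = 0
  · rw [hx2] at h0 h2 hc
    have h3 : x 0 = 0 := by
      have : x 0 ^ 2 = 0 := by linear_combination (-1 / 12 : ℂ) * h0
      exact pow_eq_zero_iff (by norm_num) |>.1 this
    have h4 : x 1 = 0 := by
      have : x 1 ^ 2 = 0 := by linear_combination h2
      exact pow_eq_zero_iff (by norm_num) |>.1 this
    apply hx
    funext i
    fin_cases i
    · exact h3
    · exact h4
    · exact hx2
  · have hx1 : x 1 = 0 := by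
      rcases mul_eq_zero.1 h1 with h | h
      · exact (mul_eq_zero.1 h).resolve_left two_ne_zero
      · exact absurd h hx2
    rw [hx1] at hc
    apply hd
    have h5 : -8 * x 0 ^ 3 = β * x 2 ^ 3 := by linear_combination -hc + x 0 * h0
    have h6 : 12 * x 0 ^ 2 = α * x 2 ^ 2 := by linear_combination -h0
    have h7 : (α ^ 3 - 27 * β ^ 2) * x 2 ^ 6 = 0 := by
      have e1 : (12 * x 0 ^ 2) ^ 3 = (α * x 2 ^ 2) ^ 3 := by rw [h6]
      have e2 : (-8 * x 0 ^ 3) ^ 2 = (β * x 2 ^ 3) ^ 2 := by rw [h5]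
      linear_combination -e1 + 27 * e2
    rcases mul_eq_zero.1 h7 with h | h
    · linear_combination h
    · exact absurd (pow_eq_zero_iff (by norm_num) |>.1 h) hx2

theorem cub_dbl {α β : ℂ} {x : Fin 3 → ℂ} (hc : cub α β x = 0) : cub α β (dbl α β x) = 0 := by
  unfold cub at hc
  have e0 : dbl α β x 0 = x 1 * (8 * x 0 * x 1 ^ 2 + 24 * α * x 0 ^ 2 * x 2 + 72 * β * x 0 * x 2 ^ 2 + 2 * α ^ 2 * x 2 ^ 3) := rfl
  have e1 : dbl α β x 1 = 4 * x 1 ^ 4 - 12 * α * x 0 * x 1 ^ 2 * x 2 - 72 * β * x 1 ^ 2 * x 2 ^ 2 - 36 * α ^ 2 * x 0 ^ 2 * x 2 ^ 2 -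
      108 * α * β * x 0 * x 2 ^ 3 + (α ^ 3 - 108 * β ^ 2) * x 2 ^ 4 := rfl
  have e2 : dbl α β x 2 = 32 * x 1 ^ 3 * x 2 := rfl
  unfold cub
  rw [e0, e1, e2]
  linear_combination ((13824) * x 0 ^ 3 * x 1 ^ 3 * x 2 ^ 3 * α ^ 3 + (13824) * x 0 ^ 2 * x 1 ^ 5 * x 2 ^ 2 * α ^ 2 +
    (124416) * x 0 ^ 2 * x 1 ^ 3 * x 2 ^ 4 * α ^ 2 * β + (4608) * x 0 * x 1 ^ 7 * x 2 * α + (82944) * x 0 * x 1 ^ 5 * x 2 ^ 3 * α * β +
    (-3456) * x 0 * x 1 ^ 3 * x 2 ^ 5 * α ^ 4 + (373248) * x 0 * x 1 ^ 3 * x 2 ^ 5 * α * β ^ 2 + (512) * x 1 ^ 9 +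
    (13824) * x 1 ^ 7 * x 2 ^ 2 * β + (2304) * x 1 ^ 5 * x 2 ^ 4 * α ^ 3 + (124416) * x 1 ^ 5 * x 2 ^ 4 * β ^ 2 +
    (-6912) * x 1 ^ 3 * x 2 ^ 6 * α ^ 3 * β + (373248) * x 1 ^ 3 * x 2 ^ 6 * β ^ 3) * hc

theorem dbl_ne {α β : ℂ} (hd : α ^ 3 ≠ 27 * β ^ 2) {x : Fin 3 → ℂ} (hx : x ≠ 0) (hc : cub α β x = 0) : dbl α β x ≠ 0 := by
  intro h
  have e1 : 4 * x 1 ^ 4 - 12 * α * x 0 * x 1 ^ 2 * x 2 - 72 * β * x 1 ^ 2 * x 2 ^ 2 - 36 * α ^ 2 * x 0 ^ 2 * x 2 ^ 2 -
      108 * α * β * x 0 * x 2 ^ 3 + (α ^ 3 - 108 * β ^ 2) * x 2 ^ 4 = 0 := congrFun h 1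
  have e2 : 32 * x 1 ^ 3 * x 2 = 0 := congrFun h 2
  have hg := gr_ne hd hx hc
  unfold cub at hc
  by_cases hx2 : x 2 = 0
  · rw [hx2] at e1 hc
    have h3 : x 0 = 0 := by
      have : x 0 ^ 3 = 0 := by linear_combination (-1 / 4 : ℂ) * hc
      exact pow_eq_zero_iff (by norm_num) |>.1 this
    have h4 : x 1 = 0 := by
      have : x 1 ^ 4 = 0 := by linear_combination (1 / 4 : ℂ) * e1
      exact pow_eq_zero_iff (by norm_num) |>.1 this
    apply hx
    funext i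
    fin_cases i
    · exact h3
    · exact h4
    · exact hx2
  · have hx1 : x 1 = 0 := by
      rcases mul_eq_zero.1 e2 with h | h
      · exact pow_eq_zero_iff (by norm_num) |>.1 ((mul_eq_zero.1 h).resolve_left (by norm_num))
      · exact absurd h hx2
    rw [hx1] at e1 hc
    have h5 : - 36 * α ^ 2 * x 0 ^ 2 - 108 * α * β * x 0 * x 2 + (α ^ 3 - 108 * β ^ 2) * x 2 ^ 2 = 0 := by
      have : x 2 ^ 2 * (- 36 * α ^ 2 * x 0 ^ 2 - 108 * α * β * x 0 * x 2 + (α ^ 3 - 108 * β ^ 2) * x 2 ^ 2) = 0 := by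
        linear_combination e1
      exact (mul_eq_zero.1 this).resolve_left (pow_ne_zero _ hx2)
    have h6 : (12 * x 0 ^ 2 - α * x 2 ^ 2) ^ 3 = 0 := by
      have hc' : 4 * x 0 ^ 3 = α * x 0 * x 2 ^ 2 + β * x 2 ^ 3 := by linear_combination -hc
      linear_combination (432 * x 0 ^ 3 + 108 * (α * x 0 * x 2 ^ 2 + β * x 2 ^ 3) - 108 * α * x 0 * x 2 ^ 2) * hc' - x 2 ^ 4 * h5
    have h7 : 12 * x 0 ^ 2 - α * x 2 ^ 2 = 0 := pow_eq_zero_iff (by norm_num) |>.1 h6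
    apply hg
    have h8 : 2 * α * x 0 * x 2 + 3 * β * x 2 ^ 2 = 0 := by
      have : x 2 * (2 * α * x 0 * x 2 + 3 * β * x 2 ^ 2) = 0 := by
        linear_combination 3 * hc + x 0 * h7
      exact (mul_eq_zero.1 this).resolve_left hx2
    funext i
    fin_cases i
    · change -12 * x 0 ^ 2 + α * x 2 ^ 2 = 0
      linear_combination -h7
    · change 2 * x 1 * x 2 = 0
      rw [hx1]; ring
    · change x 1 ^ 2 + 2 * α * x 0 * x 2 + 3 * β * x 2 ^ 2 = 0
      rw [hx1]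
      linear_combination h8

end Pool.Agent.H13.CV

end
end

section

/-!
# CV CubX: the derivative of the doubling map

`deriv_affine`: for complex numbers with `v² = 4 u³ - α u - β`, `v ≠ 0`, `u' = 2 l v`, `v' = l (12 u² - α)`: the derivatives of `U`, `V` in the direction `(u', v')` are `4 l V` and `2 l (12 U² - α)`.
Homogeneous version (`cross_dbl`): `x, v ∈ ℂ³`, `cub x = 0`, `x 1 * x 2 ≠ 0`, `cr x v = l • gr x`; `w` is the derivative of `dbl` at `x` in the direction `v`; then `cr (dbl x) w = (2 l) • gr (dbl x)`.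
Here `w` is given explicitly (`ddbl`).  Proof: by homogeneity (`cr (dbl x) (ddbl x x) = 0` as `ddbl x x = 4 dbl x`) one may change `v` by multiples of `x` and assume `v 2 = 0`; scale to `x 2 = 1`; `x = (u, v₁, 1)`,
`v = (u', v', 0)` with `u' = 2 l v₁`, `v' = l (12 u² - α)`.  Then the three identities are polynomial identities modulo `v₁² - 4 u³ + α u + β` (`linear_combination (…) * h`).
Any other proof is fine: e.g. all three components of `x₂ ^ k * (…)` by `linear_combination` with cofactors computed by a program.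
-/

set_option autoImplicit false

open Topology Filter Metric
open Pool.Agent.H36.BP

noncomputable section

namespace Pool.Agent.H13.CV

attribute [-instance] ProperSMul.toContinuousSMul

/-- the derivative of `dbl` at `x` in the direction `v` -/
def ddbl (α β : ℂ) (x v : Fin 3 → ℂ) : Fin 3 → ℂ :=
  ![v 1 * (8 * x 0 * x 1 ^ 2 + 24 * α * x 0 ^ 2 * x 2 + 72 * β * x 0 * x 2 ^ 2 + 2 * α ^ 2 * x 2 ^ 3) +
      x 1 * (8 * v 0 * x 1 ^ 2 + 16 * x 0 * x 1 * v 1 + 48 * α * x 0 * v 0 * x 2 + 24 * α * x 0 ^ 2 * v 2 + 72 * β * v 0 * x 2 ^ 2 + 144 * β * x 0 * x 2 * v 2 +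
        6 * α ^ 2 * x 2 ^ 2 * v 2),
    16 * x 1 ^ 3 * v 1 - 12 * α * (v 0 * x 1 ^ 2 * x 2 + 2 * x 0 * x 1 * v 1 * x 2 + x 0 * x 1 ^ 2 * v 2) - 72 * β * (2 * x 1 * v 1 * x 2 ^ 2 + 2 * x 1 ^ 2 * x 2 * v 2) -
      36 * α ^ 2 * (2 * x 0 * v 0 * x 2 ^ 2 + 2 * x 0 ^ 2 * x 2 * v 2) - 108 * α * β * (v 0 * x 2 ^ 3 + 3 * x 0 * x 2 ^ 2 * v 2) + (α ^ 3 - 108 * β ^ 2) * (4 * x 2 ^ 3 * v 2),
    32 * (3 * x 1 ^ 2 * v 1 * x 2 + x 1 ^ 3 * v 2)]

theorem cross_dbl {α β : ℂ} {x v : Fin 3 → ℂ} {l : ℂ} (hc : cub α β x = 0) (hx : x 1 * x 2 ≠ 0) (hv : cr x v = l • gr α β x) :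
    cr (dbl α β x) (ddbl α β x v) = (2 * l) • gr α β (dbl α β x) := by
  obtain ⟨a, ha⟩ : ∃ a, a = x 0 := ⟨_, rfl⟩
  obtain ⟨b, hb⟩ : ∃ b, b = x 1 := ⟨_, rfl⟩
  obtain ⟨c, hcc⟩ : ∃ c, c = x 2 := ⟨_, rfl⟩
  have hc0 : c ≠ 0 := by
    rw [hcc]
    exact right_ne_zero_of_mul hx
  -- the coordinates of `v`
  obtain ⟨s, hs⟩ : ∃ s, v 2 = s * c := ⟨v 2 / c, by field_simp⟩
  obtain ⟨m, hm⟩ : ∃ m, l = m * c := ⟨l / c, by field_simp⟩
  have h0 := congrFun hv 0
  have h1 := congrFun hv 1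
  simp only [cr, gr, Pi.smul_apply, smul_eq_mul, Matrix.cons_val_zero, Matrix.cons_val_one, ← ha, ← hb, ← hcc, hs, hm] at h0 h1
  have hq : v 1 = s * b + m * (12 * a ^ 2 - α * c ^ 2) := by
    apply mul_left_cancel₀ hc0
    linear_combination -h0
  have hp : v 0 = s * a + m * (2 * b * c) := by
    apply mul_left_cancel₀ hc0
    linear_combination h1
  have hcub : b ^ 2 * c - 4 * a ^ 3 + α * a * c ^ 2 + β * c ^ 3 = 0 := by
    rw [ha, hb, hcc]
    exact hc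
  have hcr : ∀ y w z : Fin 3 → ℂ, y 1 * w 2 - y 2 * w 1 = z 0 → y 2 * w 0 - y 0 * w 2 = z 1 → y 0 * w 1 - y 1 * w 0 = z 2 →
      cr y w = z := by
    intro y w z e0 e1 e2
    funext i
    fin_cases i
    · exact e0
    · exact e1
    · exact e2
  have hD0 : dbl α β x 0 = b * (8 * a * b ^ 2 + 24 * α * a ^ 2 * c + 72 * β * a * c ^ 2 + 2 * α ^ 2 * c ^ 3) := by
    rw [ha, hb, hcc]
    rfl
  have hD1 : dbl α β x 1 = 4 * b ^ 4 - 12 * α * a * b ^ 2 * c - 72 * β * b ^ 2 * c ^ 2 - 36 * α ^ 2 * a ^ 2 * c ^ 2 -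
      108 * α * β * a * c ^ 3 + (α ^ 3 - 108 * β ^ 2) * c ^ 4 := by
    rw [ha, hb, hcc]
    rfl
  have hD2 : dbl α β x 2 = 32 * b ^ 3 * c := by
    rw [hb, hcc]
    rfl
  have hW0 : ddbl α β x v 0 = v 1 * (8 * a * b ^ 2 + 24 * α * a ^ 2 * c + 72 * β * a * c ^ 2 + 2 * α ^ 2 * c ^ 3) +
      b * (8 * v 0 * b ^ 2 + 16 * a * b * v 1 + 48 * α * a * v 0 * c + 24 * α * a ^ 2 * v 2 + 72 * β * v 0 * c ^ 2 +
        144 * β * a * c * v 2 + 6 * α ^ 2 * c ^ 2 * v 2) := by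
    rw [ha, hb, hcc]
    rfl
  have hW1 : ddbl α β x v 1 = 16 * b ^ 3 * v 1 - 12 * α * (v 0 * b ^ 2 * c + 2 * a * b * v 1 * c + a * b ^ 2 * v 2) -
      72 * β * (2 * b * v 1 * c ^ 2 + 2 * b ^ 2 * c * v 2) - 36 * α ^ 2 * (2 * a * v 0 * c ^ 2 + 2 * a ^ 2 * c * v 2) -
      108 * α * β * (v 0 * c ^ 3 + 3 * a * c ^ 2 * v 2) + (α ^ 3 - 108 * β ^ 2) * (4 * c ^ 3 * v 2) := by
    rw [ha, hb, hcc]
    rfl
  have hW2 : ddbl α β x v 2 = 32 * (3 * b ^ 2 * v 1 * c + b ^ 3 * v 2) := by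
    rw [hb, hcc]
    rfl
  apply hcr
  · rw [hW1, hW2, hD1, hD2, hp, hq, hs, hm]
    change _ = 2 * (m * c) * (-12 * dbl α β x 0 ^ 2 + α * dbl α β x 2 ^ 2)
    rw [hD0, hD2]
    linear_combination (m * (6912*a*b^2*c^3*α^2 - 1152*b^4*c^2*α + 10368*b^2*c^4*α*β)) * hcub
  · rw [hW0, hW2, hD0, hD2, hp, hq, hs, hm]
    change _ = 2 * (m * c) * (2 * dbl α β x 1 * dbl α β x 2)
    rw [hD1, hD2]
    linear_combination (m * (4608*a*b^3*c^2*α + 13824*b^3*c^3*β)) * hcub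
  · rw [hW0, hW1, hD0, hD1, hp, hq, hs, hm]
    change _ = 2 * (m * c) * (dbl α β x 1 ^ 2 + 2 * α * dbl α β x 0 * dbl α β x 2 + 3 * β * dbl α β x 2 ^ 2)
    rw [hD0, hD1, hD2]
    linear_combination (m * (-2592*a^3*c^3*α^3 - 1728*a^2*b^2*c^2*α^2 - 15552*a^2*c^4*α^2*β - 1152*a*b^4*c*α + 72*a*c^5*α^4 - 31104*a*c^5*α*β^2 - 96*b^6 - 4320*b^4*c^2*β - 360*b^2*c^4*α^3 + 7776*b^2*c^4*β^2 + 216*c^6*α^3*β - 23328*c^6*β^3)) * hcub

end Pool.Agent.H13.CV

end
end

section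

/-!
# CV CubB: discs in a cubic

`Dsc α β l F`: `F` is a holomorphic disc in the cone, `l` is continuous and nowhere zero, and `F × F' = l • gr F`.
`Dsc.dbl`: `G z = dbl (F z)`, `G' = ddbl (F z) (F' z)` (chain rule, polynomial).  `G z ∈ Cub` by `cub_dbl`, `dbl_ne`.  The identity `cr (G z) (G' z) = 2 l z • gr (G z)` holds where `F₁ F₂ ≠ 0` (`cross_dbl`).  Both
sides are continuous in `z` (on the ball), so it suffices that the zeros of `F₁` and `F₂` are isolated.  If `F₂ = 0` near a point `z₀` then `F₀ = 0` near `z₀` (`cub = 0`), so `F × F' = 0`, contradiction to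
`l ≠ 0`, `gr_ne`.  If `F₁ = 0` near `z₀`, then `F₁' = 0` and the components `0` and `2` of `F × F'` are `F₁ F₂' - F₂ F₁' = 0` and `F₀ F₁' - F₁ F₀' = 0`, and component `1` of `gr F` is `2 F₁ F₂ = 0`; so
`l • gr F = 0`: contradiction.  (`AnalyticAt.eventually_eq_zero_or_eventually_ne_zero`.)
-/

set_option autoImplicit false

open Topology Filter Metric
open Pool.Agent.H36.BP

noncomputable section

namespace Pool.Agent.H13.CV

attribute [-instance] ProperSMul.toContinuousSMul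

/-- a holomorphic disc in the cone of the cubic with `F × F' = l • gr F`, `l` continuous without zeros -/
structure Dsc (α β : ℂ) (l : ℂ → ℂ) (F : ℂ → EN 2) : Prop where
  curve : Curve (Cub α β) (ball 0 1) F
  cont : ContinuousOn l (ball 0 1)
  ne : ∀ z ∈ ball (0 : ℂ) 1, l z ≠ 0
  eq : ∀ z ∈ ball (0 : ℂ) 1, cr (F z).ofLp (deriv F z : EN 2).ofLp = l z • gr α β (F z).ofLp

private theorem CubB_coord {F : ℂ → EN 2} {F' : EN 2} {z : ℂ} (h : HasDerivAt F F' z) (i : Fin 3) :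
    HasDerivAt (fun z => (F z).ofLp i) (F'.ofLp i) z := by
  have h1 := (PiLp.proj 2 (fun _ : Fin 3 => ℂ) i : EN 2 →L[ℂ] ℂ).hasFDerivAt (x := F z)
  exact h1.comp_hasDerivAt z h

private theorem CubB_toLp {G : ℂ → Fin 3 → ℂ} {G' : Fin 3 → ℂ} {z : ℂ} (h : ∀ i, HasDerivAt (fun z => G z i) (G' i) z) :
    HasDerivAt (fun z => (WithLp.toLp 2 (G z) : EN 2)) (WithLp.toLp 2 G') z := by
  have h1 : HasDerivAt G G' z := hasDerivAt_pi.2 h
  have h2 := ((PiLp.continuousLinearEquiv 2 ℂ (fun _ : Fin 3 => ℂ)).symm : (Fin 3 → ℂ) →L[ℂ] EN 2).hasFDerivAt (x := G z)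
  exact h2.comp_hasDerivAt z h1

theorem Dsc.dbl {α β : ℂ} (hd : α ^ 3 ≠ 27 * β ^ 2) {l : ℂ → ℂ} {F : ℂ → EN 2} (h : Dsc α β l F) :
    Dsc α β (fun z => 2 * l z) (fun z => WithLp.toLp 2 (CV.dbl α β (F z).ofLp)) := by
  have hop : IsOpen (ball (0 : ℂ) 1) := isOpen_ball
  obtain ⟨hFd, hFK⟩ := h.curve
  have hder : ∀ z ∈ ball (0 : ℂ) 1, ∀ i, HasDerivAt (fun z => (F z).ofLp i) ((deriv F z : EN 2).ofLp i) z :=
    fun z hz i => CubB_coord ((hFd.differentiableAt (hop.mem_nhds hz)).hasDerivAt) i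
  have hfd : ∀ i, DifferentiableOn ℂ (fun z => (F z).ofLp i) (ball 0 1) :=
    fun i z hz => (hder z hz i).differentiableAt.differentiableWithinAt
  have hfa : ∀ i, ∀ z ∈ ball (0 : ℂ) 1, AnalyticAt ℂ (fun z => (F z).ofLp i) z :=
    fun i z hz => (hfd i).analyticAt (hop.mem_nhds hz)
  have hG : ∀ z ∈ ball (0 : ℂ) 1, HasDerivAt (fun z => (WithLp.toLp 2 (CV.dbl α β (F z).ofLp) : EN 2))
      (WithLp.toLp 2 (ddbl α β (F z).ofLp (deriv F z : EN 2).ofLp)) z := by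
    intro z hz
    refine CubB_toLp fun i => ?_
    have h0 := hder z hz 0
    have h1 := hder z hz 1
    have h2 := hder z hz 2
    fin_cases i
    · have e := h1.mul ((((h0.mul (h1.pow 2)).const_mul 8).add (((h0.pow 2).mul h2).const_mul (24 * α))).add
        ((((h0.mul (h2.pow 2)).const_mul (72 * β))).add ((h2.pow 3).const_mul (2 * α ^ 2))))
      refine (e.congr_of_eventuallyEq (Filter.Eventually.of_forall fun w => ?_)).congr_deriv ?_
      · show (F w).ofLp 1 * (8 * (F w).ofLp 0 * (F w).ofLp 1 ^ 2 + 24 * α * (F w).ofLp 0 ^ 2 * (F w).ofLp 2 + 72 * β * (F w).ofLp 0 * (F w).ofLp 2 ^ 2 + 2 * α ^ 2 * (F w).ofLp 2 ^ 3) = _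
        simp only [Pi.mul_apply, Pi.add_apply, Pi.pow_apply]
        ring
      · simp only [ddbl, Pi.mul_apply, Pi.add_apply, Pi.pow_apply, Fin.zero_eta, Matrix.cons_val_zero]
        push_cast
        ring
    · have e := ((((h1.pow 4).const_mul 4).sub (((h0.mul (h1.pow 2)).mul h2).const_mul (12 * α))).sub
        (((h1.pow 2).mul (h2.pow 2)).const_mul (72 * β))).sub ((((h0.pow 2).mul (h2.pow 2)).const_mul (36 * α ^ 2)).add
          (((h0.mul (h2.pow 3)).const_mul (108 * α * β)).sub ((h2.pow 4).const_mul (α ^ 3 - 108 * β ^ 2))))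
      refine (e.congr_of_eventuallyEq (Filter.Eventually.of_forall fun w => ?_)).congr_deriv ?_
      · show 4 * (F w).ofLp 1 ^ 4 - 12 * α * (F w).ofLp 0 * (F w).ofLp 1 ^ 2 * (F w).ofLp 2 - 72 * β * (F w).ofLp 1 ^ 2 * (F w).ofLp 2 ^ 2 - 36 * α ^ 2 * (F w).ofLp 0 ^ 2 * (F w).ofLp 2 ^ 2
          - 108 * α * β * (F w).ofLp 0 * (F w).ofLp 2 ^ 3 + (α ^ 3 - 108 * β ^ 2) * (F w).ofLp 2 ^ 4 = _
        simp only [Pi.mul_apply, Pi.add_apply, Pi.sub_apply, Pi.pow_apply]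
        ring
      · simp only [ddbl, Pi.mul_apply, Pi.pow_apply, Fin.mk_one, Matrix.cons_val_one, Matrix.cons_val_zero]
        push_cast
        ring
    · have e := ((h1.pow 3).mul h2).const_mul 32
      refine (e.congr_of_eventuallyEq (Filter.Eventually.of_forall fun w => ?_)).congr_deriv ?_
      · show 32 * (F w).ofLp 1 ^ 3 * (F w).ofLp 2 = _
        simp only [Pi.mul_apply, Pi.pow_apply]
        ring
      · show _ = 32 * (3 * (F z).ofLp 1 ^ 2 * (deriv F z : EN 2).ofLp 1 * (F z).ofLp 2 + (F z).ofLp 1 ^ 3 * (deriv F z : EN 2).ofLp 2)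
        simp only [Pi.pow_apply]
        push_cast
        ring
  have hGd : ∀ z ∈ ball (0 : ℂ) 1, deriv (fun z => (WithLp.toLp 2 (CV.dbl α β (F z).ofLp) : EN 2)) z
      = WithLp.toLp 2 (ddbl α β (F z).ofLp (deriv F z : EN 2).ofLp) := fun z hz => (hG z hz).deriv
  have hF0 : ∀ z ∈ ball (0 : ℂ) 1, (F z).ofLp ≠ 0 ∧ cub α β (F z).ofLp = 0 := by
    intro z hz
    obtain ⟨h1, h2⟩ := hFK z hz
    refine ⟨fun h3 => h1 ?_, h2⟩
    ext i
    exact congrFun h3 i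
  -- the first coordinate is not eventually zero
  have hn1 : ∀ z ∈ ball (0 : ℂ) 1, ¬ ∀ᶠ w in 𝓝 z, (F w).ofLp 1 = 0 := by
    intro z hz he
    have e1 : (deriv F z : EN 2).ofLp 1 = 0 := by
      rw [← (hder z hz 1).deriv]
      have : (fun w => (F w).ofLp 1) =ᶠ[𝓝 z] fun _ => (0 : ℂ) := he
      rw [this.deriv_eq]
      simp
    have e2 : (F z).ofLp 1 = 0 := he.self_of_nhds
    have e3 := h.eq z hz
    apply gr_ne hd (hF0 z hz).1 (hF0 z hz).2
    have hl := h.ne z hz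
    have e4 : l z • gr α β (F z).ofLp = 0 := by
      rw [← e3]
      ext i
      have e5 := congrFun e3 1
      fin_cases i
      · show (F z).ofLp 1 * (deriv F z : EN 2).ofLp 2 - (F z).ofLp 2 * (deriv F z : EN 2).ofLp 1 = 0
        rw [e1, e2]; ring
      · have e6 : (gr α β (F z).ofLp) 1 = 2 * (F z).ofLp 1 * (F z).ofLp 2 := rfl
        show cr (F z).ofLp (deriv F z : EN 2).ofLp 1 = 0
        rw [e5]
        show l z * (gr α β (F z).ofLp) 1 = 0
        rw [e6, e2]; ring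
      · show (F z).ofLp 0 * (deriv F z : EN 2).ofLp 1 - (F z).ofLp 1 * (deriv F z : EN 2).ofLp 0 = 0
        rw [e1, e2]; ring
    exact (smul_eq_zero.1 e4).resolve_left hl
  have hn2 : ∀ z ∈ ball (0 : ℂ) 1, ¬ ∀ᶠ w in 𝓝 z, (F w).ofLp 2 = 0 := by
    intro z hz he
    have e1 : (deriv F z : EN 2).ofLp 2 = 0 := by
      rw [← (hder z hz 2).deriv]
      have : (fun w => (F w).ofLp 2) =ᶠ[𝓝 z] fun _ => (0 : ℂ) := he
      rw [this.deriv_eq]
      simp
    have he0 : ∀ᶠ w in 𝓝 z, (F w).ofLp 0 = 0 := by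
      filter_upwards [he, hop.mem_nhds hz] with w hw hwb
      have e := (hF0 w hwb).2
      simp only [cub, hw] at e
      have : (F w).ofLp 0 ^ 3 = 0 := by linear_combination (-1 / 4) * e
      exact pow_eq_zero_iff (by norm_num) |>.1 this
    have e1' : (deriv F z : EN 2).ofLp 0 = 0 := by
      rw [← (hder z hz 0).deriv]
      have : (fun w => (F w).ofLp 0) =ᶠ[𝓝 z] fun _ => (0 : ℂ) := he0
      rw [this.deriv_eq]
      simp
    have e2 : (F z).ofLp 2 = 0 := he.self_of_nhds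
    have e2' : (F z).ofLp 0 = 0 := he0.self_of_nhds
    have e3 := h.eq z hz
    apply gr_ne hd (hF0 z hz).1 (hF0 z hz).2
    have hl := h.ne z hz
    have e4 : l z • gr α β (F z).ofLp = 0 := by
      rw [← e3]
      ext i
      fin_cases i
      · show (F z).ofLp 1 * (deriv F z : EN 2).ofLp 2 - (F z).ofLp 2 * (deriv F z : EN 2).ofLp 1 = 0
        rw [e1, e2]; ring
      · show (F z).ofLp 2 * (deriv F z : EN 2).ofLp 0 - (F z).ofLp 0 * (deriv F z : EN 2).ofLp 2 = 0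
        rw [e1, e2]; ring
      · show (F z).ofLp 0 * (deriv F z : EN 2).ofLp 1 - (F z).ofLp 1 * (deriv F z : EN 2).ofLp 0 = 0
        rw [e1', e2']; ring
    exact (smul_eq_zero.1 e4).resolve_left hl
  have hK : ∀ z ∈ ball (0 : ℂ) 1, (WithLp.toLp 2 (CV.dbl α β (F z).ofLp) : EN 2) ∈ Cub α β := by
    intro z hz
    refine ⟨fun h0 => ?_, cub_dbl (hF0 z hz).2⟩
    apply dbl_ne hd (hF0 z hz).1 (hF0 z hz).2
    have := congrArg WithLp.ofLp h0
    simpa using this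
  refine ⟨⟨fun z hz => (hG z hz).differentiableAt.differentiableWithinAt, hK⟩, continuousOn_const.mul h.cont, fun z hz => mul_ne_zero two_ne_zero (h.ne z hz), ?_⟩
  -- continuity
  have hcF : ∀ i, ContinuousOn (fun z => (F z).ofLp i) (ball 0 1) := fun i => (hfd i).continuousOn
  have hcF' : ∀ i, ContinuousOn (fun z => (deriv F z : EN 2).ofLp i) (ball 0 1) := by
    intro i
    have h1 : ContinuousOn (deriv fun z => (F z).ofLp i) (ball 0 1) := ((hfd i).deriv hop).continuousOn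
    refine h1.congr fun z hz => ?_
    exact (hder z hz i).deriv.symm
  intro z hz
  rw [hGd z hz]
  show cr (CV.dbl α β (F z).ofLp) (ddbl α β (F z).ofLp (deriv F z : EN 2).ofLp) = (2 * l z) • gr α β (CV.dbl α β (F z).ofLp)
  have hev : ∀ᶠ w in 𝓝[≠] z, cr (CV.dbl α β (F w).ofLp) (ddbl α β (F w).ofLp (deriv F w : EN 2).ofLp) = (2 * l w) • gr α β (CV.dbl α β (F w).ofLp) := by
    have k1 := ((hfa 1 z hz).eventually_eq_zero_or_eventually_ne_zero).resolve_left (hn1 z hz)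
    have k2 := ((hfa 2 z hz).eventually_eq_zero_or_eventually_ne_zero).resolve_left (hn2 z hz)
    filter_upwards [k1, k2, mem_nhdsWithin_of_mem_nhds (hop.mem_nhds hz)] with w h1 h2 hw
    exact cross_dbl (hF0 w hw).2 (mul_ne_zero h1 h2) (h.eq w hw)
  have hc0 : ∀ i, ContinuousAt (fun z => (F z).ofLp i) z := fun i => (hcF i).continuousAt (hop.mem_nhds hz)
  have hc0' : ∀ i, ContinuousAt (fun z => (deriv F z : EN 2).ofLp i) z := fun i => (hcF' i).continuousAt (hop.mem_nhds hz)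
  have hcl : ContinuousAt l z := h.cont.continuousAt (hop.mem_nhds hz)
  have a0 := hc0 0
  have a1 := hc0 1
  have a2 := hc0 2
  have b0 := hc0' 0
  have b1 := hc0' 1
  have b2 := hc0' 2
  have hL : ContinuousAt (fun w => cr (CV.dbl α β (F w).ofLp) (ddbl α β (F w).ofLp (deriv F w : EN 2).ofLp)) z := by
    refine continuousAt_pi.2 fun i => ?_
    fin_cases i <;> simp only [cr, CV.dbl, ddbl, Fin.zero_eta, Fin.mk_one, Fin.reduceFinMk, Matrix.cons_val_zero, Matrix.cons_val_one, Matrix.cons_val] <;> fun_prop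
  have hR : ContinuousAt (fun w => (2 * l w) • gr α β (CV.dbl α β (F w).ofLp)) z := by
    refine continuousAt_pi.2 fun i => ?_
    fin_cases i <;> simp only [gr, CV.dbl, Pi.smul_apply, smul_eq_mul, Fin.zero_eta, Fin.mk_one, Fin.reduceFinMk, Matrix.cons_val_zero, Matrix.cons_val_one, Matrix.cons_val] <;> fun_prop
  have t1 := hL.tendsto.mono_left (nhdsWithin_le_nhds (s := {z}ᶜ))
  have t2 := hR.tendsto.mono_left (nhdsWithin_le_nhds (s := {z}ᶜ))
  exact tendsto_nhds_unique_of_eventuallyEq t1 t2 hev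

end Pool.Agent.H13.CV

end
end

section

/-!
# CV CubI: a disc in the cubic

`exists_disc`: let `u₀` with `4 u₀³ - α u₀ - β = 1` (`IsAlgClosed`).  `s z = exp (log (4 (u₀ + z)³ - α (u₀ + z) - β) / 2)` (principal branch) is holomorphic for `|z| < r` (there the argument is in the slit plane), nowhere
zero, `s² = 4 (u₀ + z)³ - …`.  `F z = (u₀ + r z, s (r z), 1)` on the unit disc (`r > 0` small), `F' = (r, r s', 0)`, `2 s s' = 12 (u₀ + r z)² - α`; `F × F' = (- r s', r, …)`, `gr F = (- (12 u² - α), 2 s, …)`, so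
`l = r / (2 s)`; the third component: `u s' r - s r = l (s² + 2 α u + 3 β)`: use `s² = 4 u³ - α u - β`.
-/

set_option autoImplicit false

open Topology Filter Metric
open Pool.Agent.H36.BP

noncomputable section

namespace Pool.Agent.H13.CV

attribute [-instance] ProperSMul.toContinuousSMul

private theorem CubI_root (α β : ℂ) : ∃ u : ℂ, 4 * u ^ 3 - α * u - β = 1 := by
  have h : ∃ z : ℂ, (Polynomial.C 4 * Polynomial.X ^ 3 - Polynomial.C α * Polynomial.X - Polynomial.C (β + 1) : Polynomial ℂ).IsRoot z := by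
    apply Complex.exists_root
    have : (Polynomial.C 4 * Polynomial.X ^ 3 - Polynomial.C α * Polynomial.X - Polynomial.C (β + 1) : Polynomial ℂ).degree = 3 := by
      compute_degree!
    rw [this]
    norm_num
  obtain ⟨z, hz⟩ := h
  refine ⟨z, ?_⟩
  simp only [Polynomial.IsRoot.def, Polynomial.eval_sub, Polynomial.eval_mul, Polynomial.eval_C, Polynomial.eval_pow, Polynomial.eval_X] at hz
  linear_combination hz

private theorem CubI_toLp {G : ℂ → Fin 3 → ℂ} {G' : Fin 3 → ℂ} {z : ℂ} (h : ∀ i, HasDerivAt (fun z => G z i) (G' i) z) :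
    HasDerivAt (fun z => (WithLp.toLp 2 (G z) : EN 2)) (WithLp.toLp 2 G') z := by
  have h1 : HasDerivAt G G' z := hasDerivAt_pi.2 h
  have h2 := ((PiLp.continuousLinearEquiv 2 ℂ (fun _ : Fin 3 => ℂ)).symm : (Fin 3 → ℂ) →L[ℂ] EN 2).hasFDerivAt (x := G z)
  exact h2.comp_hasDerivAt z h1

theorem exists_disc (α β : ℂ) : ∃ (l : ℂ → ℂ) (F : ℂ → EN 2), Dsc α β l F := by
  obtain ⟨u₀, hu₀⟩ := CubI_root α β
  set p : ℂ → ℂ := fun u => 4 * u ^ 3 - α * u - β with hp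
  have hpc : Continuous p := by fun_prop
  -- a small radius
  have h1 : ∀ᶠ u in 𝓝 u₀, p u ∈ Complex.slitPlane := by
    have : p u₀ ∈ Complex.slitPlane := by
      show 4 * u₀ ^ 3 - α * u₀ - β ∈ Complex.slitPlane
      rw [hu₀]
      exact Complex.one_mem_slitPlane
    exact hpc.continuousAt.eventually (Complex.isOpen_slitPlane.mem_nhds this)
  obtain ⟨r, hr, hb⟩ := Metric.eventually_nhds_iff_ball.1 h1
  set u : ℂ → ℂ := fun z => u₀ + r * z with hu
  set s : ℂ → ℂ := fun z => Complex.exp (Complex.log (p (u z)) / 2) with hs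
  have hr0 : (r : ℂ) ≠ 0 := by exact_mod_cast hr.ne'
  have hus : ∀ z ∈ ball (0 : ℂ) 1, p (u z) ∈ Complex.slitPlane := by
    intro z hz
    apply hb
    rw [mem_ball_zero_iff] at hz
    rw [mem_ball, dist_eq_norm]
    simp only [hu, add_sub_cancel_left, norm_mul, Complex.norm_real, Real.norm_eq_abs, abs_of_pos hr]
    nlinarith
  have hs2 : ∀ z ∈ ball (0 : ℂ) 1, s z ^ 2 = p (u z) := by
    intro z hz
    simp only [hs]
    rw [← Complex.exp_nat_mul]
    have : ((2 : ℕ) : ℂ) * (Complex.log (p (u z)) / 2) = Complex.log (p (u z)) := by push_cast; ring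
    rw [this, Complex.exp_log (Complex.slitPlane_ne_zero (hus z hz))]
  have hsn : ∀ z, s z ≠ 0 := fun z => Complex.exp_ne_zero _
  have hud : ∀ z, HasDerivAt u r z := by
    intro z
    have := ((hasDerivAt_id z).const_mul (r : ℂ)).const_add u₀
    rw [mul_one] at this
    exact this
  have hsd : ∀ z ∈ ball (0 : ℂ) 1, HasDerivAt s ((12 * u z ^ 2 - α) * r / (2 * s z)) z := by
    intro z hz
    have e1 : HasDerivAt (fun w => p (u w)) ((12 * u z ^ 2 - α) * r) z := by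
      have := ((((hud z).pow 3).const_mul 4).sub ((hud z).const_mul α)).sub_const β
      refine this.congr_deriv ?_
      push_cast
      ring
    have e2 := ((e1.clog (hus z hz)).div_const 2).cexp
    refine e2.congr_deriv ?_
    have e3 : Complex.exp (Complex.log (p (u z)) / 2) = s z := rfl
    rw [e3]
    have e4 := hs2 z hz
    have e5 := hsn z
    rw [← e4]
    field_simp
  refine ⟨fun z => r / (2 * s z), fun z => WithLp.toLp 2 ![u z, s z, 1], ?_⟩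
  have hF : ∀ z ∈ ball (0 : ℂ) 1, HasDerivAt (fun z => (WithLp.toLp 2 ![u z, s z, 1] : EN 2))
      (WithLp.toLp 2 ![(r : ℂ), (12 * u z ^ 2 - α) * r / (2 * s z), 0]) z := by
    intro z hz
    refine CubI_toLp fun i => ?_
    fin_cases i
    · exact hud z
    · exact hsd z hz
    · exact hasDerivAt_const z (1 : ℂ)
  have hsc : ContinuousOn s (ball 0 1) := fun z hz => (hsd z hz).continuousAt.continuousWithinAt
  refine ⟨⟨fun z hz => (hF z hz).differentiableAt.differentiableWithinAt, fun z hz => ⟨fun h0 => ?_, ?_⟩⟩, ?_, fun z hz => ?_, fun z hz => ?_⟩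
  · have := congrFun (congrArg WithLp.ofLp h0) 2
    exact one_ne_zero (α := ℂ) this
  · show s z ^ 2 * 1 - 4 * u z ^ 3 + α * u z * 1 ^ 2 + β * 1 ^ 3 = 0
    rw [hs2 z hz]
    show (4 * u z ^ 3 - α * u z - β) * 1 - 4 * u z ^ 3 + α * u z * 1 ^ 2 + β * 1 ^ 3 = 0
    ring
  · exact continuousOn_const.div (continuousOn_const.mul hsc) fun z _ => mul_ne_zero two_ne_zero (hsn z)
  · exact div_ne_zero hr0 (mul_ne_zero two_ne_zero (hsn z))
  · rw [(hF z hz).deriv]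
    have e4 : s z ^ 2 = 4 * u z ^ 3 - α * u z - β := hs2 z hz
    have e5 := hsn z
    ext i
    fin_cases i
    · show s z * 0 - 1 * ((12 * u z ^ 2 - α) * r / (2 * s z)) = r / (2 * s z) * (-12 * u z ^ 2 + α * 1 ^ 2)
      field_simp
      ring
    · show 1 * (r : ℂ) - u z * 0 = r / (2 * s z) * (2 * s z * 1)
      field_simp
      ring
    · show u z * ((12 * u z ^ 2 - α) * r / (2 * s z)) - s z * r = r / (2 * s z) * (s z ^ 2 + 2 * α * u z * 1 + 3 * β * 1 ^ 2)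
      field_simp
      linear_combination (-3) * e4

end Pool.Agent.H13.CV

end
end
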