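import Pool.Agent.H94.CB.H36.BP.WdA_2
import Pool.Agent.H94.CB.M02
import Pool.Agent.H94.CB.M04
import Pool.Agent.H94.CB.M34
import Pool.Agent.H94.CB.M65

/-! The parts of this file: H17BP.SliceF, H36.BP.SubC_1, H14.PP.FarSub. -/

section

/-!
# Slices

`exists_slice`: `W (z, z v) = ∑_{j<k} c_j(z) z^j v^j + z^(k+1) v^(k+1) U(z, z v)`.  Let `e` be the minimum of
`ord c_j + j` (`j < k`), `e ≤ k` by assumption (some `ord c_j < k + 1 - j`), `c_j(z) z^j = z^e δ_j(z)` with `δ_j`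
analytic and some `δ_j 0 ≠ 0`.  So `W (z, z v) = z^e (∑ δ_j(z) v^j + z^(k+1-e) …)` and the value of the bracket at
`z = 0` is the non-zero polynomial `∑ δ_j(0) v^j` in `v`; choose `v` with a non-zero value (infinitely many `v`).
Then the order is `e ≤ k`.

`exists_slice_of_ne`: let `g` be analytic on the ball of radius `r` about `0` (all points).  If all slices
`z ↦ g (z v₁, z v₂)`, `‖v‖ < 1`, had order `⊤` (vanish near `0`), they would vanish for `‖z‖ < r` (identity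
theorem, `AnalyticOnNhd.eqOn_zero_of_preconnected_of_eventuallyEq_zero`), and `g = 0` near `0`.

`exists_lin`: `v ≠ 0`; if `v.2 ≠ 0` take `θ (x, y) = (x + y v.1, y v.2)`, otherwise `θ (x, y) = (y v.1, x + y v.2)`;
`Bihol` by the explicit inverse (or `bihol_iff`).
-/

open Topology Filter

noncomputable section

namespace Pool.Agent.H17BP

attribute [-instance] ProperSMul.toContinuousSMul

private theorem slice_tendsto (v : ℂ) : Tendsto (fun z : ℂ => ((z, z * v) : ℂ × ℂ)) (𝓝 0) (𝓝 0) := by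
  have h : Continuous (fun z : ℂ => ((z, z * v) : ℂ × ℂ)) := by fun_prop
  have h1 := h.tendsto 0
  have h2 : ((0 : ℂ), (0 : ℂ) * v) = (0 : ℂ × ℂ) := by simp
  rw [h2] at h1
  exact h1

private theorem slice_analytic (v : ℂ) (z : ℂ) : AnalyticAt ℂ (fun z : ℂ => ((z, z * v) : ℂ × ℂ)) z :=
  analyticAt_id.prod (analyticAt_id.mul analyticAt_const)

private theorem exists_delta {c : ℂ → ℂ} (hc : AnalyticAt ℂ c 0) {e j : ℕ}
    (h : (e : ℕ∞) ≤ analyticOrderAt c 0 + j) :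
    ∃ δ : ℂ → ℂ, AnalyticAt ℂ δ 0 ∧ (∀ᶠ z in 𝓝 (0 : ℂ), c z * z ^ j = z ^ e * δ z) ∧
      (analyticOrderAt c 0 + j = e → δ 0 ≠ 0) := by
  have han : AnalyticAt ℂ (fun z : ℂ => c z * z ^ j) 0 := hc.mul (analyticAt_id.pow j)
  have ho : analyticOrderAt (fun z : ℂ => c z * z ^ j) 0 = analyticOrderAt c 0 + j := by
    have h1 := analyticOrderAt_mul (f := c) (g := fun z : ℂ => z ^ j) hc (analyticAt_id.pow j)
    have h2 : analyticOrderAt (fun z : ℂ => z ^ j) 0 = j := by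
      have := analyticOrderAt_centeredMonomial (𝕜 := ℂ) (z₀ := (0 : ℂ)) (n := j)
      have h3 : ((fun z : ℂ => z - 0) ^ j) = fun z : ℂ => z ^ j := by
        funext z
        simp
      rw [← h3]
      exact this
    rw [h2] at h1
    exact h1
  by_cases hE : analyticOrderAt c 0 + j = e
  · rw [hE] at ho
    obtain ⟨g, hg, hg0, hgz⟩ := han.analyticOrderAt_eq_natCast.1 ho
    refine ⟨g, hg, ?_, fun _ => hg0⟩
    filter_upwards [hgz] with z hz
    rw [hz, sub_zero, smul_eq_mul]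
  · rw [← ho] at h
    obtain ⟨g, hg, hgz⟩ := (natCast_le_analyticOrderAt han).1 h
    refine ⟨g, hg, ?_, fun h' => absurd h' hE⟩
    filter_upwards [hgz] with z hz
    rw [hz, sub_zero, smul_eq_mul]

theorem exists_slice {k : ℕ} {c : ℕ → ℂ → ℂ} {W : ℂ × ℂ → ℂ} (h : IsNF k c W)
    (hj : ∃ j < k, analyticOrderAt (c j) 0 < ((k + 1 - j : ℕ) : ℕ∞)) :
    ∃ v : ℂ, analyticOrderAt (fun z : ℂ => W (z, z * v)) 0 ≤ (k : ℕ∞) := by
  obtain ⟨hc, U, hU, hU0, hW⟩ := h
  -- the set of exponents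
  have hex : ∃ e : ℕ, ∃ j < k, analyticOrderAt (c j) 0 + j = (e : ℕ∞) := by
    obtain ⟨j, hjk, hj⟩ := hj
    have h1 : analyticOrderAt (c j) 0 ≠ ⊤ := ne_top_of_lt hj
    obtain ⟨m, hm⟩ := ENat.ne_top_iff_exists.1 h1
    refine ⟨m + j, j, hjk, ?_⟩
    rw [← hm]
    push_cast
    rfl
  classical
  obtain ⟨j0, hj0, hj0e⟩ := Nat.find_spec hex
  set e := Nat.find hex with he
  have hmin : ∀ j < k, (e : ℕ∞) ≤ analyticOrderAt (c j) 0 + j := by
    intro j hjk
    by_cases ht : analyticOrderAt (c j) 0 = ⊤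
    · rw [ht]
      simp
    · obtain ⟨m, hm⟩ := ENat.ne_top_iff_exists.1 ht
      rw [← hm]
      have h2 : e ≤ m + j := Nat.find_min' hex ⟨j, hjk, by rw [← hm]; push_cast; rfl⟩
      exact_mod_cast h2
  have hek : e ≤ k := by
    obtain ⟨j, hjk, hj⟩ := hj
    have h1 : analyticOrderAt (c j) 0 ≠ ⊤ := ne_top_of_lt hj
    obtain ⟨m, hm⟩ := ENat.ne_top_iff_exists.1 h1
    rw [← hm] at hj
    have h3 : m < k + 1 - j := by exact_mod_cast hj
    have h2 : e ≤ m + j := Nat.find_min' hex ⟨j, hjk, by rw [← hm]; push_cast; rfl⟩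
    omega
  have hδ : ∀ j : ℕ, ∃ δ : ℂ → ℂ, j < k → AnalyticAt ℂ δ 0 ∧
      (∀ᶠ z in 𝓝 (0 : ℂ), c j z * z ^ j = z ^ e * δ z) ∧ (j = j0 → δ 0 ≠ 0) := by
    intro j
    by_cases hjk : j < k
    · obtain ⟨δ, h1, h2, h3⟩ := exists_delta (hc j hjk).1 (hmin j hjk)
      exact ⟨δ, fun _ => ⟨h1, h2, fun hjj => h3 (by rw [hjj]; exact hj0e)⟩⟩
    · exact ⟨fun _ => 0, fun h' => absurd h' hjk⟩
  choose δ hδ using hδ
  -- the polynomial
  let P : Polynomial ℂ := ∑ j ∈ Finset.range k, Polynomial.monomial j (δ j 0)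
  have hP : P ≠ 0 := by
    intro h0
    have h1 : P.coeff j0 = δ j0 0 := by
      simp only [P, Polynomial.finsetSum_coeff, Polynomial.coeff_monomial]
      rw [Finset.sum_eq_single j0]
      · simp
      · intro b _ hb
        simp [hb]
      · intro hb
        exact absurd (Finset.mem_range.2 hj0) hb
    rw [h0] at h1
    exact (hδ j0 hj0).2.2 rfl (by rw [← h1]; simp)
  obtain ⟨v, hv⟩ : ∃ v : ℂ, P.eval v ≠ 0 := by
    by_contra hcon
    push Not at hcon
    exact hP (Polynomial.funext (fun x => by rw [hcon x]; simp))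
  refine ⟨v, ?_⟩
  let B : ℂ → ℂ := fun z => ∑ j ∈ Finset.range k, δ j z * v ^ j + z ^ (k + 1 - e) * (v ^ (k + 1) * U (z, z * v))
  have hUs : AnalyticAt ℂ (fun z : ℂ => U (z, z * v)) 0 := by
    have h1 : AnalyticAt ℂ U ((fun z : ℂ => ((z, z * v) : ℂ × ℂ)) 0) := by
      have h2 : ((0 : ℂ), (0 : ℂ) * v) = (0 : ℂ × ℂ) := by simp
      simp only [h2]
      exact hU
    exact AnalyticAt.comp (g := U) (f := fun z : ℂ => ((z, z * v) : ℂ × ℂ)) h1 (slice_analytic v 0)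
  have hB : AnalyticAt ℂ B 0 := by
    refine AnalyticAt.add ?_ ?_
    · refine Finset.analyticAt_fun_sum _ ?_
      intro j hj
      exact ((hδ j (Finset.mem_range.1 hj)).1).mul analyticAt_const
    · exact (analyticAt_id.pow _).mul (analyticAt_const.mul hUs)
  have hB0 : B 0 ≠ 0 := by
    have h1 : B 0 = P.eval v := by
      simp only [B, P]
      rw [zero_pow (by omega : k + 1 - e ≠ 0), zero_mul, add_zero, Polynomial.eval_finsetSum]
      refine Finset.sum_congr rfl ?_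
      intro j _
      rw [Polynomial.eval_monomial]
    rw [h1]
    exact hv
  have hWB : ∀ᶠ z in 𝓝 (0 : ℂ), W (z, z * v) = z ^ e * B z := by
    have h1 := (slice_tendsto v).eventually hW
    have h2 : ∀ᶠ z in 𝓝 (0 : ℂ), ∀ j ∈ Finset.range k, c j z * z ^ j = z ^ e * δ j z := by
      rw [Filter.eventually_all_finset]
      intro j hj
      exact (hδ j (Finset.mem_range.1 hj)).2.1
    filter_upwards [h1, h2] with z hz1 hz2
    rw [hz1]
    simp only [B]
    rw [mul_add, Finset.mul_sum]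
    congr 1
    · refine Finset.sum_congr rfl ?_
      intro j hj
      rw [mul_pow, ← mul_assoc, hz2 j hj]
      ring
    · have h3 : z ^ (k + 1) = z ^ e * z ^ (k + 1 - e) := by
        rw [← pow_add]
        congr 1
        omega
      rw [mul_pow, h3]
      ring
  have hWan : AnalyticAt ℂ (fun z : ℂ => W (z, z * v)) 0 := by
    have h1 : AnalyticAt ℂ (fun z : ℂ => z ^ e * B z) 0 := (analyticAt_id.pow e).mul hB
    exact h1.congr (hWB.mono fun z hz => hz.symm)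
  have horder : analyticOrderAt (fun z : ℂ => W (z, z * v)) 0 = (e : ℕ∞) := by
    rw [hWan.analyticOrderAt_eq_natCast]
    refine ⟨B, hB, hB0, ?_⟩
    filter_upwards [hWB] with z hz
    rw [hz, sub_zero, smul_eq_mul]
  rw [horder]
  exact_mod_cast hek

theorem exists_slice_of_ne {g : ℂ × ℂ → ℂ} (hg : AnalyticAt ℂ g 0) (h : ¬ ∀ᶠ x in 𝓝 (0 : ℂ × ℂ), g x = 0) :
    ∃ (m : ℕ) (v : ℂ × ℂ), analyticOrderAt (fun z : ℂ => g (z * v.1, z * v.2)) 0 ≤ (m : ℕ∞) := by
  by_contra hcon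
  push Not at hcon
  apply h
  obtain ⟨r, hr, hball⟩ := hg.exists_ball_analyticOnNhd
  have hlin : ∀ (v : ℂ × ℂ) (z : ℂ), ((z * v.1, z * v.2) : ℂ × ℂ) = z • v := by
    intro v z
    rfl
  have key : ∀ v : ℂ × ℂ, ‖v‖ < 1 → ∀ z ∈ Metric.ball (0 : ℂ) r, g (z * v.1, z * v.2) = 0 := by
    intro v hv
    have h1 : analyticOrderAt (fun z : ℂ => g (z * v.1, z * v.2)) 0 = ⊤ := by
      by_contra hne
      obtain ⟨m, hm⟩ := ENat.ne_top_iff_exists.1 hne
      exact absurd (hcon m v) (by rw [← hm]; exact lt_irrefl _)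
    have h2 : ∀ᶠ z in 𝓝 (0 : ℂ), g (z * v.1, z * v.2) = 0 := analyticOrderAt_eq_top.1 h1
    have h3 : AnalyticOnNhd ℂ (fun z : ℂ => g (z * v.1, z * v.2)) (Metric.ball (0 : ℂ) r) := by
      intro z hz
      have hmem : ((z * v.1, z * v.2) : ℂ × ℂ) ∈ Metric.ball (0 : ℂ × ℂ) r := by
        rw [hlin, mem_ball_zero_iff, norm_smul]
        rw [mem_ball_zero_iff] at hz
        calc ‖z‖ * ‖v‖ ≤ ‖z‖ * 1 := mul_le_mul_of_nonneg_left hv.le (norm_nonneg _)
          _ < r := by rw [mul_one]; exact hz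
      have h4 : AnalyticAt ℂ (fun z : ℂ => ((z * v.1, z * v.2) : ℂ × ℂ)) z :=
        (analyticAt_id.mul analyticAt_const).prod (analyticAt_id.mul analyticAt_const)
      exact AnalyticAt.comp (g := g) (f := fun z : ℂ => ((z * v.1, z * v.2) : ℂ × ℂ)) (hball _ hmem) h4
    have h5 := h3.eqOn_zero_of_preconnected_of_eventuallyEq_zero
      (convex_ball (0 : ℂ) r).isPreconnected (Metric.mem_ball_self hr) h2
    intro z hz
    exact h5 hz
  have hr2 : 0 < r / 2 := by linarith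
  filter_upwards [Metric.ball_mem_nhds (0 : ℂ × ℂ) hr2] with x hx
  rw [mem_ball_zero_iff] at hx
  have hz : ((r / 2 : ℝ) : ℂ) ∈ Metric.ball (0 : ℂ) r := by
    rw [mem_ball_zero_iff, Complex.norm_real, Real.norm_eq_abs, abs_of_pos hr2]
    linarith
  have hzne : ((r / 2 : ℝ) : ℂ) ≠ 0 := by
    exact_mod_cast hr2.ne'
  have hv : ‖(((r / 2 : ℝ) : ℂ)⁻¹) • x‖ < 1 := by
    rw [norm_smul, norm_inv, Complex.norm_real, Real.norm_eq_abs, abs_of_pos hr2,
      inv_mul_lt_iff₀ hr2, mul_one]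
    exact hx
  have h6 := key _ hv _ hz
  rw [hlin, smul_smul, mul_inv_cancel₀ hzne, one_smul] at h6
  exact h6

theorem exists_lin {v : ℂ × ℂ} (hv : v ≠ 0) : ∃ θ : ℂ × ℂ → ℂ × ℂ, Bihol θ ∧
    ∀ y : ℂ, θ (0, y) = (y * v.1, y * v.2) := by
  by_cases h2 : v.2 = 0
  · have h1 : v.1 ≠ 0 := by
      intro h1
      exact hv (Prod.ext h1 h2)
    refine ⟨fun x => (x.2 * v.1, x.1 + x.2 * v.2), ⟨?_, ?_, fun x => (x.2 - x.1 / v.1 * v.2, x.1 / v.1), ?_, ?_, ?_, ?_⟩, ?_⟩
    · exact (analyticAt_snd.mul analyticAt_const).prod (analyticAt_fst.add (analyticAt_snd.mul analyticAt_const))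
    · simp
    · simp only [div_eq_mul_inv]
      exact (analyticAt_snd.sub ((analyticAt_fst.mul analyticAt_const).mul analyticAt_const)).prod
        (analyticAt_fst.mul analyticAt_const)
    · simp
    · refine Eventually.of_forall fun x => ?_
      refine Prod.ext ?_ ?_
      · simp only
        field_simp
        ring
      · simp only
        field_simp
    · refine Eventually.of_forall fun x => ?_
      refine Prod.ext ?_ ?_
      · simp only
        field_simp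
      · simp only
        field_simp
        ring
    · intro y
      simp
  · refine ⟨fun x => (x.1 + x.2 * v.1, x.2 * v.2), ⟨?_, ?_, fun x => (x.1 - x.2 / v.2 * v.1, x.2 / v.2), ?_, ?_, ?_, ?_⟩, ?_⟩
    · exact (analyticAt_fst.add (analyticAt_snd.mul analyticAt_const)).prod (analyticAt_snd.mul analyticAt_const)
    · simp
    · simp only [div_eq_mul_inv]
      exact (analyticAt_fst.sub ((analyticAt_snd.mul analyticAt_const).mul analyticAt_const)).prod
        (analyticAt_snd.mul analyticAt_const)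
    · simp
    · refine Eventually.of_forall fun x => ?_
      refine Prod.ext ?_ ?_
      · simp only
        field_simp
        ring
      · simp only
        field_simp
    · refine Eventually.of_forall fun x => ?_
      refine Prod.ext ?_ ?_
      · simp only
        field_simp
        ring
      · simp only
        field_simp
    · intro y
      simp

/-- The shift `(x, y) ↦ (x, y + ρ x)`. -/
theorem bihol_shift {ρ : ℂ → ℂ} (hρ : AnalyticAt ℂ ρ 0) (h0 : ρ 0 = 0) :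
    Bihol fun x : ℂ × ℂ => (x.1, x.2 + ρ x.1) := by
  have h1 : AnalyticAt ℂ (fun x : ℂ × ℂ => ρ x.1) 0 := by
    have h2 : AnalyticAt ℂ ρ ((fun x : ℂ × ℂ => x.1) 0) := hρ
    exact AnalyticAt.comp (g := ρ) (f := fun x : ℂ × ℂ => x.1) h2 analyticAt_fst
  refine ⟨analyticAt_fst.prod (analyticAt_snd.add h1), ?_, fun x => (x.1, x.2 - ρ x.1),
    analyticAt_fst.prod (analyticAt_snd.sub h1), ?_, ?_, ?_⟩
  · simp [h0]
  · simp [h0]
  · exact Eventually.of_forall fun x => by simp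
  · exact Eventually.of_forall fun x => by simp

end Pool.Agent.H17BP

end
end

section

/-!
# BP SubC: norms and wedge norms of holomorphic curves

* `norm_rpow`: `x₀ = F z₀`, `α z = ⟨x₀, F z⟩/|x₀|²` (holomorphic), `W = F - α x₀ ⊥ x₀`, `|F|² = |α|²|x₀|² + |W|²`, `W z = (z - z₀)(W₁ + o(1))`,
  `|W₁| = wd x₀ F'(z₀)/|x₀|`; so `|F|^a = |α x₀|^a (1 + |W|²/|α x₀|²)^(a/2)` and `log(1+y) ~ y`; exponent `(a/2)|W₁|²/|x₀|² = a e²/2`, `e = fs x₀ F'(z₀)`.
  Valid for every real `a` (for `a < 0`: `(1+y)^(a/2) ≥ exp(a y/2)`).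
* `wedge`: `wd_norming` at `z₀`, `h z = ⟨a,F⟩⟨b,F'⟩ - ⟨b,F⟩⟨a,F'⟩` is holomorphic, `|h| ≤ wd F F'` (`gram_proj`), equality at `z₀`.
* `fs_curve`: `fs F F' = wd F F' * ‖F‖^(-2)`: exponent `0 - e²`.
-/

set_option autoImplicit false

namespace Pool.Agent.H36.BP

attribute [-instance] ProperSMul.toContinuousSMul

open Filter Topology Metric

variable {N : ℕ}

theorem Sub.wedge {F : ℂ → EN N} {z₀ : ℂ} (hF : AnalyticAt ℂ F z₀) (h0 : 0 < wd (F z₀) (deriv F z₀)) :
    Sub (fun z => wd (F z) (deriv F z)) z₀ 0 := by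
  obtain ⟨a, b, ha, hb, hab, h1⟩ := wd_norming h0
  refine ⟨h0, fun c' hc' => ⟨fun z => (innerSL ℂ a) (F z) * (innerSL ℂ b) (deriv F z) -
    (innerSL ℂ b) (F z) * (innerSL ℂ a) (deriv F z), ?_, h1, ?_⟩⟩
  · have hd := hF.deriv
    exact ((SubC_inner hF a).mul (SubC_inner hd b)).sub ((SubC_inner hF b).mul (SubC_inner hd a))
  · refine Filter.Eventually.of_forall fun z => ?_
    have h2 := gram_proj ha hb hab (F z) (deriv F z)
    have h3 : Real.exp (c' * ‖z - z₀‖ ^ 2) ≤ 1 := by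
      rw [Real.exp_le_one_iff]
      exact mul_nonpos_of_nonpos_of_nonneg hc'.le (sq_nonneg _)
    refine le_trans ?_ h2
    calc ‖(innerSL ℂ a) (F z) * (innerSL ℂ b) (deriv F z) -
          (innerSL ℂ b) (F z) * (innerSL ℂ a) (deriv F z)‖ * Real.exp (c' * ‖z - z₀‖ ^ 2)
        ≤ ‖(innerSL ℂ a) (F z) * (innerSL ℂ b) (deriv F z) -
          (innerSL ℂ b) (F z) * (innerSL ℂ a) (deriv F z)‖ * 1 :=
          mul_le_mul_of_nonneg_left h3 (norm_nonneg _)
      _ = _ := mul_one _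

theorem Sub.fs_curve {F : ℂ → EN N} {z₀ : ℂ} (hF : AnalyticAt ℂ F z₀) (h0 : 0 < fs (F z₀) (deriv F z₀)) :
    Sub (fun z => fs (F z) (deriv F z)) z₀ (-(fs (F z₀) (deriv F z₀)) ^ 2) := by
  have hx : F z₀ ≠ 0 := by
    intro h
    unfold fs at h0
    rw [h, norm_zero] at h0
    simp at h0
  have hw : 0 < wd (F z₀) (deriv F z₀) := by
    refine lt_of_le_of_ne (wd_nonneg _ _) fun h => ?_
    unfold fs at h0
    rw [← h, zero_div] at h0
    exact lt_irrefl _ h0
  have h1 := (Sub.wedge hF hw).mul (Sub.norm_rpow hF hx (-2))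
  have h2 : (0 : ℝ) + -2 * fs (F z₀) (deriv F z₀) ^ 2 / 2 = -(fs (F z₀) (deriv F z₀)) ^ 2 := by
    ring
  rw [h2] at h1
  refine h1.congr (Filter.Eventually.of_forall fun z => ?_)
  show wd (F z) (deriv F z) * ‖F z‖ ^ (-2 : ℝ) = fs (F z) (deriv F z)
  unfold fs
  rw [Real.rpow_neg (norm_nonneg _), div_eq_mul_inv]
  norm_num

end Pool.Agent.H36.BP

end

section

/-!
# BPm FarSub: lower supports for the far piece

`rho Q D (F z)^M' * fs (F z) (F' z) * ‖F z‖^(-c₀) =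
  ‖Q (F z)‖^M' * ‖F z‖^(-(M' D)) * fs (F z) (F' z) * ‖F z‖^(-c₀)`.
`‖Q (F z)‖` has coefficient `≥ 0`: the norm of an analytic function with values in an inner product
space which does not vanish at `z₀`; lower support `z ↦ ⟪e, Q (F z)⟫`, `e = Q (F z₀)/‖Q (F z₀)‖`
(Cauchy–Schwarz), `M'` factors (`Sub.rpow` or induction);
`‖F‖^(-(M' D))` has `-(M' D) e^2/2`, `fs` has `-e^2`, `‖F‖^(-c₀)` has `-c₀ e^2/2` (`Sub.norm_rpow`,
`Sub.fs_curve`), `e = fs (F z₀) (F' z₀)`.
-/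

open Topology Filter Metric

namespace Pool.Agent.H14.PP

attribute [-instance] ProperSMul.toContinuousSMul

open Pool.Agent.H36.BP

variable {N : ℕ} {W : Type*} [NormedAddCommGroup W] [InnerProductSpace ℂ W]
  {X K T : Set (EN N)} {Q : EN N → W} {D M' : ℕ}

/-- The norm of a holomorphic function with values in an inner product space. -/
private theorem FarSub_norm {G : ℂ → W} {z₀ : ℂ} (hG : AnalyticAt ℂ G z₀) (h0 : G z₀ ≠ 0) :
    Sub (fun z => ‖G z‖) z₀ 0 := by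
  have hn : ‖G z₀‖ ≠ 0 := norm_ne_zero_iff.2 h0
  set e : W := ((‖G z₀‖ : ℂ)⁻¹) • G z₀ with he
  have hen : ‖e‖ = 1 := by
    rw [he, norm_smul, norm_inv, Complex.norm_real, norm_norm, inv_mul_cancel₀ hn]
  have hk : AnalyticAt ℂ (fun z => (inner ℂ e (G z) : ℂ)) z₀ := by
    have h1 : AnalyticAt ℂ (fun w : W => innerSL ℂ e w) (G z₀) := (innerSL ℂ e).analyticAt _
    exact h1.comp hG
  have hk0 : ‖(inner ℂ e (G z₀) : ℂ)‖ = ‖G z₀‖ := by
    rw [he, inner_smul_left, inner_self_eq_norm_sq_to_K, norm_mul, norm_pow]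
    simp only [map_inv₀, norm_inv]
    rw [RCLike.norm_conj]
    simp only [Complex.norm_real, norm_norm, Complex.coe_algebraMap]
    field_simp
  have hkne : (inner ℂ e (G z₀) : ℂ) ≠ 0 := by
    rw [← norm_ne_zero_iff, hk0]
    exact hn
  refine (Sub.of_holo hk hkne).mono hk0 (Filter.Eventually.of_forall fun z => ?_)
  calc ‖(inner ℂ e (G z) : ℂ)‖ ≤ ‖e‖ * ‖G z‖ := norm_inner_le_norm _ _
    _ = ‖G z‖ := by rw [hen, one_mul]

theorem sub_far (hX : IsCone X) (hQ : ∀ x, AnalyticAt ℂ Q x) {F : ℂ → EN N} {z₀ : ℂ}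
    (hF : CurveAt X F z₀) (h0 : 0 < rho Q D (F z₀)) (h1 : 0 < fs (F z₀) (deriv F z₀)) {c₀ : ℝ}
    (hc₀ : 0 ≤ c₀) :
    Sub (fun z => rho Q D (F z) ^ M' * fs (F z) (deriv F z) * ‖F z‖ ^ (-c₀)) z₀
      (-((M' * D + 2 + c₀) * (fs (F z₀) (deriv F z₀) ^ 2 / 2))) := by
  have hF0 : F z₀ ≠ 0 := hX.ne_zero hF.mem
  have hQ0 : Q (F z₀) ≠ 0 := by
    intro h
    rw [rho, h, norm_zero, zero_div] at h0
    exact lt_irrefl _ h0
  have hQF : AnalyticAt ℂ (fun z => Q (F z)) z₀ := (hQ (F z₀)).comp hF.1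
  have s1 : Sub (fun z => ‖Q (F z)‖ ^ (M' : ℝ)) z₀ ((M' : ℝ) * 0) :=
    (FarSub_norm hQF hQ0).rpow (Nat.cast_nonneg M')
  have s2 := Sub.norm_rpow hF.1 hF0 (-((M' : ℝ) * D + c₀))
  have s3 := Sub.fs_curve hF.1 h1
  have s := (s1.mul s2).mul s3
  refine (s.congr ?_).anti (le_of_eq (by ring))
  filter_upwards [hF.2] with z hz
  have hz0 : 0 < ‖F z‖ := norm_pos_iff.2 (hX.ne_zero hz)
  rw [rho, div_pow, ← pow_mul, Real.rpow_natCast]
  have e1 : -((M' : ℝ) * D + c₀) = -((D * M' : ℕ) : ℝ) + -c₀ := by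
    push_cast
    ring
  rw [e1, Real.rpow_add hz0, Real.rpow_neg hz0.le, Real.rpow_natCast]
  field_simp

end Pool.Agent.H14.PP

end
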