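import Pool.Agent.H94.CB.M14

/-! The parts of this file: H13.CV.MerO, H13.CV.HomR. -/

section

/-!
# CV MerO: the field of meromorphic functions, as the fraction field of the ring of entire functions

`ofn z₀ f` is the order at `z₀` of `f`; it is defined with the chosen representation `f = a / b` (`IsLocalization.sec`), `ofn_div` says that it does not depend on the representation: if `a / b = a' / b'` then
`a b' = a' b` as entire functions, so the meromorphic functions `a / b`, `a' / b'` agree outside the zeros of `b b'` (isolated), so their orders are the same (`meromorphicOrderAt_congr`).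
The other lemmas: `meromorphicOrderAt_mul`, `meromorphicOrderAt_add` (`min ≤`), for functions `a / b`.  `ofn z₀ f = ⊤ ↔ f = 0`.
`tr_or_const`: `ℂ` is algebraically closed.
-/

set_option autoImplicit false

open Topology Filter
open Pool.Agent.H17 Pool.Agent.H17.EntFun

noncomputable section

namespace Pool.Agent.H13.CV

attribute [-instance] ProperSMul.toContinuousSMul

attribute [-instance] Subalgebra.instFaithfulSMulSubtypeMem

/-- the field of meromorphic functions on `ℂ` -/
abbrev Mer : Type := FractionRing EntFun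

/-- entire functions as meromorphic functions -/
abbrev toM (a : EntFun) : Mer := algebraMap EntFun Mer a

/-- the order at `z₀` -/
def ofn (z₀ : ℂ) (f : Mer) : WithTop ℤ :=
  meromorphicOrderAt (fun z => ((IsLocalization.sec (nonZeroDivisors EntFun) f).1 : ℂ → ℂ) z / (((IsLocalization.sec (nonZeroDivisors EntFun) f).2 : EntFun) : ℂ → ℂ) z) z₀

/-- the function `z ↦ a z / b z` -/
private def qf (a b : EntFun) : ℂ → ℂ := fun z => (a : ℂ → ℂ) z / (b : ℂ → ℂ) z

private lemma qf_mero (z₀ : ℂ) (a b : EntFun) : MeromorphicAt (qf a b) z₀ :=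
  (a.analyticAt z₀).meromorphicAt.fun_div (b.analyticAt z₀).meromorphicAt

private lemma ev_ne (z₀ : ℂ) {b : EntFun} (hb : b ≠ 0) : ∀ᶠ z in 𝓝[≠] z₀, (b : ℂ → ℂ) z ≠ 0 :=
  eventually_ne_zero_of_entire b.2 ((ne_zero_iff b).mp hb) z₀

private lemma toM_inj : Function.Injective toM := IsFractionRing.injective EntFun Mer

private lemma toM_ne {b : EntFun} (hb : b ≠ 0) : toM b ≠ 0 := by
  intro h
  exact hb (toM_inj (by rw [h]; exact (map_zero (algebraMap EntFun Mer)).symm))

private lemma mul_val (a b : EntFun) (z : ℂ) : ((a * b : EntFun) : ℂ → ℂ) z = (a : ℂ → ℂ) z * (b : ℂ → ℂ) z := rfl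

private lemma add_val (a b : EntFun) (z : ℂ) : ((a + b : EntFun) : ℂ → ℂ) z = (a : ℂ → ℂ) z + (b : ℂ → ℂ) z := rfl

private lemma exists_rep (f : Mer) : ∃ a b : EntFun, b ≠ 0 ∧ f = toM a / toM b := by
  obtain ⟨a, b, hb, h⟩ := IsFractionRing.div_surjective (A := EntFun) f
  exact ⟨a, b, nonZeroDivisors.ne_zero hb, h.symm⟩

theorem ofn_div (z₀ : ℂ) (a : EntFun) {b : EntFun} (hb : b ≠ 0) : ofn z₀ (toM a / toM b) = meromorphicOrderAt (fun z => (a : ℂ → ℂ) z / (b : ℂ → ℂ) z) z₀ := by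
  unfold ofn
  set f : Mer := toM a / toM b with hf
  set a' : EntFun := (IsLocalization.sec (nonZeroDivisors EntFun) f).1 with ha'
  set b' : EntFun := ((IsLocalization.sec (nonZeroDivisors EntFun) f).2 : EntFun) with hb'
  have hb'0 : b' ≠ 0 := nonZeroDivisors.ne_zero (IsLocalization.sec (nonZeroDivisors EntFun) f).2.2
  have h1 : f * toM b' = toM a' := IsLocalization.sec_spec (nonZeroDivisors EntFun) f
  have h2 : a * b' = a' * b := by
    apply toM_inj
    have hbM := toM_ne hb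
    have e1 : toM (a * b') = toM a * toM b' := map_mul _ _ _
    have e2 : toM (a' * b) = toM a' * toM b := map_mul _ _ _
    rw [e1, e2, ← h1, hf, mul_right_comm, div_mul_cancel₀ _ hbM]
  apply meromorphicOrderAt_congr
  filter_upwards [ev_ne z₀ hb, ev_ne z₀ hb'0] with z hz hz'
  have h3 : (a : ℂ → ℂ) z * (b' : ℂ → ℂ) z = (a' : ℂ → ℂ) z * (b : ℂ → ℂ) z := by
    rw [← mul_val, ← mul_val, h2]
  rw [div_eq_div_iff hz' hz]
  exact h3.symm

private lemma ofn_rep (z₀ : ℂ) (a : EntFun) {b : EntFun} (hb : b ≠ 0) : ofn z₀ (toM a / toM b) = meromorphicOrderAt (qf a b) z₀ :=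
  ofn_div z₀ a hb

private lemma toM_one : toM 1 = 1 := map_one (algebraMap EntFun Mer)

private lemma toM_zero : toM 0 = 0 := map_zero (algebraMap EntFun Mer)

private lemma one_ne : (1 : EntFun) ≠ 0 := one_ne_zero

private lemma ofn_toM (z₀ : ℂ) (a : EntFun) : ofn z₀ (toM a) = meromorphicOrderAt (a : ℂ → ℂ) z₀ := by
  have h := ofn_div z₀ a one_ne
  rw [toM_one, div_one] at h
  rw [h]
  congr 1
  funext z
  have : ((1 : EntFun) : ℂ → ℂ) z = 1 := rfl
  rw [this, div_one]

theorem ofn_zero (z₀ : ℂ) : ofn z₀ 0 = ⊤ := by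
  rw [← toM_zero, ofn_toM, meromorphicOrderAt_eq_top_iff]
  exact Filter.Eventually.of_forall fun z => rfl

theorem ofn_one (z₀ : ℂ) : ofn z₀ 1 = 0 := by
  classical
  rw [← toM_one, ofn_toM]
  have h := meromorphicOrderAt_const z₀ (1 : ℂ)
  rw [if_neg one_ne_zero] at h
  exact h

theorem ofn_add (z₀ : ℂ) (f g : Mer) : min (ofn z₀ f) (ofn z₀ g) ≤ ofn z₀ (f + g) := by
  obtain ⟨a, b, hb, rfl⟩ := exists_rep f
  obtain ⟨c, d, hd, rfl⟩ := exists_rep g
  have h1 : toM a / toM b + toM c / toM d = toM (a * d + b * c) / toM (b * d) := by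
    have e1 : toM (a * d + b * c) = toM a * toM d + toM b * toM c := by
      rw [← map_mul, ← map_mul, ← map_add]
    have e2 : toM (b * d) = toM b * toM d := map_mul _ _ _
    rw [e1, e2, div_add_div _ _ (toM_ne hb) (toM_ne hd)]
  rw [h1, ofn_rep z₀ a hb, ofn_rep z₀ c hd, ofn_rep z₀ _ (mul_ne_zero hb hd)]
  refine (meromorphicOrderAt_add (qf_mero z₀ a b) (qf_mero z₀ c d)).trans (le_of_eq ?_)
  apply meromorphicOrderAt_congr
  filter_upwards [ev_ne z₀ hb, ev_ne z₀ hd] with z hz hz'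
  rw [Pi.add_apply]
  unfold qf
  rw [add_val, mul_val, mul_val, mul_val, div_add_div _ _ hz hz']

theorem ofn_mul (z₀ : ℂ) (f g : Mer) : ofn z₀ (f * g) = ofn z₀ f + ofn z₀ g := by
  obtain ⟨a, b, hb, rfl⟩ := exists_rep f
  obtain ⟨c, d, hd, rfl⟩ := exists_rep g
  have h1 : toM a / toM b * (toM c / toM d) = toM (a * c) / toM (b * d) := by
    have e1 : toM (a * c) = toM a * toM c := map_mul _ _ _
    have e2 : toM (b * d) = toM b * toM d := map_mul _ _ _
    rw [e1, e2, div_mul_div_comm]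
  rw [h1, ofn_rep z₀ a hb, ofn_rep z₀ c hd, ofn_rep z₀ _ (mul_ne_zero hb hd),
    ← meromorphicOrderAt_mul (qf_mero z₀ a b) (qf_mero z₀ c d)]
  congr 1
  funext z
  rw [Pi.mul_apply]
  unfold qf
  rw [mul_val, mul_val, div_mul_div_comm]

/-- the order at `z₀` as a valuation -/
def ordM (z₀ : ℂ) : AddValuation Mer (WithTop ℤ) := AddValuation.of (ofn z₀) (ofn_zero z₀) (ofn_one z₀) (ofn_add z₀) (ofn_mul z₀)

theorem ordM_div (z₀ : ℂ) (a : EntFun) {b : EntFun} (hb : b ≠ 0) : ordM z₀ (toM a / toM b) = meromorphicOrderAt (fun z => (a : ℂ → ℂ) z / (b : ℂ → ℂ) z) z₀ := by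
  exact ofn_div z₀ a hb

theorem ordM_toM (z₀ : ℂ) (a : EntFun) : ordM z₀ (toM a) = meromorphicOrderAt (a : ℂ → ℂ) z₀ := by
  exact ofn_toM z₀ a

theorem ordM_toM_nonneg (z₀ : ℂ) (a : EntFun) : 0 ≤ ordM z₀ (toM a) := by
  rw [ordM_toM]
  exact (a.analyticAt z₀).meromorphicOrderAt_nonneg

theorem ordM_toM_pos (z₀ : ℂ) (a : EntFun) : 0 < ordM z₀ (toM a) ↔ (a : ℂ → ℂ) z₀ = 0 := by
  rw [ordM_toM, ← tendsto_zero_iff_meromorphicOrderAt_pos (a.analyticAt z₀).meromorphicAt]
  have hc : Tendsto (a : ℂ → ℂ) (𝓝[≠] z₀) (𝓝 ((a : ℂ → ℂ) z₀)) :=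
    (a.analyticAt z₀).continuousAt.tendsto.mono_left nhdsWithin_le_nhds
  constructor
  · intro h
    exact tendsto_nhds_unique hc h
  · intro h
    rw [h] at hc
    exact hc

theorem ordM_eq_top (z₀ : ℂ) {f : Mer} : ordM z₀ f = ⊤ ↔ f = 0 := by
  constructor
  · intro h
    obtain ⟨a, b, hb, rfl⟩ := exists_rep f
    rw [ordM_div z₀ a hb, meromorphicOrderAt_eq_top_iff] at h
    by_contra h0
    have ha : a ≠ 0 := by
      rintro rfl
      apply h0
      rw [toM_zero, zero_div]
    obtain ⟨z, ⟨hz1, hz2⟩, hz3⟩ := ((ev_ne z₀ ha).and (ev_ne z₀ hb)).and h |>.exists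
    exact div_ne_zero hz1 hz2 hz3
  · rintro rfl
    exact ofn_zero z₀

theorem algebraMap_eq (c : ℂ) : algebraMap ℂ Mer c = toM (algebraMap ℂ EntFun c) := by
  exact IsScalarTower.algebraMap_apply ℂ EntFun Mer c

theorem ordM_const (z₀ : ℂ) {c : ℂ} (hc : c ≠ 0) : ordM z₀ (algebraMap ℂ Mer c) = 0 := by
  classical
  rw [algebraMap_eq, ordM_toM]
  have h := meromorphicOrderAt_const z₀ c
  rw [if_neg hc] at h
  exact h

/-- a meromorphic function without pole at `z₀` has a value at `z₀` -/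
theorem exists_valueM (z₀ : ℂ) {f : Mer} (hf : 0 ≤ ordM z₀ f) : ∃ c : ℂ, 0 < ordM z₀ (f - algebraMap ℂ Mer c) := by
  obtain ⟨a, b, hb, rfl⟩ := exists_rep f
  have h1 : ordM z₀ (toM a / toM b) = meromorphicOrderAt (qf a b) z₀ := ordM_div z₀ a hb
  rw [h1] at hf
  obtain ⟨c, hc⟩ := tendsto_nhds_of_meromorphicOrderAt_nonneg (qf_mero z₀ a b) hf
  refine ⟨c, ?_⟩
  have h2 : toM a / toM b - algebraMap ℂ Mer c = toM (a - algebraMap ℂ EntFun c * b) / toM b := by
    have e1 : toM (a - algebraMap ℂ EntFun c * b) = toM a - toM (algebraMap ℂ EntFun c) * toM b := by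
      rw [← map_mul, ← map_sub]
    rw [e1, algebraMap_eq, sub_div, mul_div_cancel_right₀ _ (toM_ne hb)]
  have h3 : ordM z₀ (toM (a - algebraMap ℂ EntFun c * b) / toM b) = meromorphicOrderAt (qf (a - algebraMap ℂ EntFun c * b) b) z₀ :=
    ordM_div z₀ _ hb
  rw [h2, h3, ← tendsto_zero_iff_meromorphicOrderAt_pos (qf_mero z₀ _ b)]
  have h4 : Tendsto (fun z => qf a b z - c) (𝓝[≠] z₀) (𝓝 (c - c)) := hc.sub_const c
  rw [sub_self] at h4
  refine h4.congr' ?_
  filter_upwards [ev_ne z₀ hb] with z hz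
  unfold qf
  have e2 : ((a - algebraMap ℂ EntFun c * b : EntFun) : ℂ → ℂ) z = (a : ℂ → ℂ) z - c * (b : ℂ → ℂ) z := rfl
  rw [e2, sub_div, mul_div_cancel_right₀ _ hz]

theorem tr_or_const (f : Mer) : (∃ c : ℂ, f = algebraMap ℂ Mer c) ∨ Transcendental ℂ f := by
  by_cases h : Transcendental ℂ f
  · exact Or.inr h
  · left
    have halg : IsAlgebraic ℂ f := not_not.mp h
    have hint : IsIntegral ℂ f := halg.isIntegral
    have hdeg : (minpoly ℂ f).degree = 1 :=
      IsAlgClosed.degree_eq_one_of_irreducible ℂ (minpoly.irreducible hint)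
    obtain ⟨c, hc⟩ := minpoly.mem_range_of_degree_eq_one ℂ f hdeg
    exact ⟨c, hc.symm⟩

end Pool.Agent.H13.CV

end
end

section

/-!
# CV HomR: homomorphisms into the field of meromorphic functions

`hom_rat`: `K = ℂ(t)`: the elements of `K` are the quotients `p (t) / q (t)`; `IsFractionRing` / `RatFunc.algEquivOfTranscendental` (see `Place_rat` in `Pool/Agent/H62/FC/Place.lean` for the base field `L = ⊥`),
or `IntermediateField.adjoin` of a transcendental element: `Polynomial ℂ → Mer`, `X ↦ T` is injective, lift it to the fraction field.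
`hom_cubic`: `K = ℂ(u)(v)`, `L = ℂ(u)`.  First `φ₀ : L →ₐ[ℂ] Mer` with `φ₀ u = U`.  `1, v` is a basis of `K` over `L`: every element is uniquely `a + b v` (`v² ∈ L`, `v ∉ L`, `K = L(v)`).  Define
`φ (a + b v) = φ₀ a + φ₀ b * V`; or: `IntermediateField.algHomAdjoinIntegralEquiv` / `AdjoinRoot` for the minimal polynomial `X² - (4 u³ - α u - β)` of `v` over `L`, with `Mer` as an `L`-algebra via `φ₀`.
-/

set_option autoImplicit false

open Topology Filter
open Pool.Agent.H17 Pool.Agent.H17.EntFun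

noncomputable section

namespace Pool.Agent.H13.CV

attribute [-instance] ProperSMul.toContinuousSMul

variable {K : Type} [Field K] [Algebra ℂ K]

private theorem hom_rat0 {t : K} (htr : Transcendental ℂ t) {M : Type} [Field M] [Algebra ℂ M] {T : M} (hT : Transcendental ℂ T) :
    ∃ φ : IntermediateField.adjoin ℂ {t} →ₐ[ℂ] M, φ ⟨t, IntermediateField.mem_adjoin_simple_self ℂ t⟩ = T := by
  refine ⟨((IntermediateField.adjoin ℂ {T}).val.comp (RatFunc.algEquivOfTranscendental T hT).toAlgHom).comp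
    (RatFunc.algEquivOfTranscendental t htr).symm.toAlgHom, ?_⟩
  have h1 : (RatFunc.algEquivOfTranscendental t htr).symm ⟨t, IntermediateField.mem_adjoin_simple_self ℂ t⟩ = RatFunc.X := by
    rw [AlgEquiv.symm_apply_eq]
    apply Subtype.ext
    simp
  have h2 : ((RatFunc.algEquivOfTranscendental T hT) RatFunc.X : M) = T := by
    simp
  show ((RatFunc.algEquivOfTranscendental T hT) ((RatFunc.algEquivOfTranscendental t htr).symm
    ⟨t, IntermediateField.mem_adjoin_simple_self ℂ t⟩) : M) = T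
  rw [h1, h2]

theorem hom_rat {t : K} (ht : IntermediateField.adjoin ℂ {t} = ⊤) (htr : Transcendental ℂ t) {T : Mer} (hT : Transcendental ℂ T) :
    ∃ φ : K →ₐ[ℂ] Mer, φ t = T := by
  obtain ⟨φ, hφ⟩ := hom_rat0 htr hT
  refine ⟨(φ.comp (IntermediateField.equivOfEq ht.symm).toAlgHom).comp IntermediateField.topEquiv.symm.toAlgHom, ?_⟩
  rw [← hφ]
  rfl

theorem hom_cubic {u v : K} {α β : ℂ} (h : v ^ 2 = 4 * u ^ 3 - algebraMap ℂ K α * u - algebraMap ℂ K β) (hu : Transcendental ℂ u)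
    (huv : IntermediateField.adjoin ℂ {u, v} = ⊤) (hvu : v ∉ IntermediateField.adjoin ℂ {u}) {U V : Mer} (hU : Transcendental ℂ U)
    (hUV : V ^ 2 = 4 * U ^ 3 - algebraMap ℂ Mer α * U - algebraMap ℂ Mer β) : ∃ φ : K →ₐ[ℂ] Mer, φ u = U ∧ φ v = V := by
  classical
  obtain ⟨L, hL⟩ : ∃ L : IntermediateField ℂ K, L = IntermediateField.adjoin ℂ {u} := ⟨_, rfl⟩
  have huL : u ∈ L := by
    rw [hL]
    exact IntermediateField.mem_adjoin_simple_self ℂ u
  rw [← hL] at hvu
  obtain ⟨u₀, hu₀⟩ : ∃ u₀ : L, u₀ = ⟨u, huL⟩ := ⟨_, rfl⟩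
  obtain ⟨φ₀, h₀⟩ : ∃ φ₀ : L →ₐ[ℂ] Mer, φ₀ u₀ = U := by
    subst hu₀
    subst hL
    exact hom_rat0 hu hU
  letI : Algebra L Mer := φ₀.toRingHom.toAlgebra
  haveI : IsScalarTower ℂ L Mer := IsScalarTower.of_algebraMap_eq' φ₀.comp_algebraMap.symm
  have halg : ∀ a : L, algebraMap L Mer a = φ₀ a := fun a => rfl
  let c : L := 4 * u₀ ^ 3 - algebraMap ℂ L α * u₀ - algebraMap ℂ L β
  have hc : algebraMap L K c = v ^ 2 := by
    rw [h]
    simp only [c, map_sub, map_mul, map_pow, map_ofNat, ← IsScalarTower.algebraMap_apply]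
    rw [hu₀]
    rfl
  have hv : Polynomial.aeval v (Polynomial.X ^ 2 - Polynomial.C c) = 0 := by
    simp [hc]
  have hmon : (Polynomial.X ^ 2 - Polynomial.C c : Polynomial L).Monic := Polynomial.monic_X_pow_sub_C c two_ne_zero
  have hint : IsIntegral L v := ⟨_, hmon, hv⟩
  have hmin : minpoly L v = Polynomial.X ^ 2 - Polynomial.C c := by
    have h1 : minpoly L v ∣ Polynomial.X ^ 2 - Polynomial.C c := minpoly.dvd L v hv
    have h2 : 2 ≤ (minpoly L v).natDegree := by
      rw [minpoly.two_le_natDegree_iff hint]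
      rintro ⟨a, ha⟩
      apply hvu
      rw [← ha]
      exact a.2
    refine (Polynomial.eq_of_monic_of_dvd_of_natDegree_le (minpoly.monic hint) hmon h1 ?_).symm
    rw [Polynomial.natDegree_X_pow_sub_C]
    exact h2
  have htop : IntermediateField.adjoin L {v} = ⊤ := by
    apply IntermediateField.restrictScalars_injective ℂ
    rw [IntermediateField.restrictScalars_top, hL, IntermediateField.adjoin_adjoin_left, ← huv]
    congr 1
  have hroot : Polynomial.aeval V (minpoly L (IntermediateField.adjoin.powerBasis hint).gen) = 0 := by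
    rw [IntermediateField.adjoin.powerBasis_gen, IntermediateField.minpoly_gen, hmin]
    simp only [map_sub, map_pow, Polynomial.aeval_X, Polynomial.aeval_C, halg, c, map_mul, map_ofNat]
    rw [h₀, hUV, φ₀.commutes, φ₀.commutes]
    ring
  let ψ : IntermediateField.adjoin L {v} →ₐ[L] Mer := (IntermediateField.adjoin.powerBasis hint).lift V hroot
  have hψ : ψ (IntermediateField.AdjoinSimple.gen L v) = V := by
    have := (IntermediateField.adjoin.powerBasis hint).lift_gen V hroot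
    rwa [IntermediateField.adjoin.powerBasis_gen] at this
  let e : K →ₐ[L] IntermediateField.adjoin L {v} :=
    (IntermediateField.equivOfEq htop.symm).toAlgHom.comp IntermediateField.topEquiv.symm.toAlgHom
  refine ⟨(ψ.comp e).restrictScalars ℂ, ?_, ?_⟩
  · have h1 : (ψ.comp e) (algebraMap L K u₀) = algebraMap L Mer u₀ := AlgHom.commutes _ _
    rw [halg, h₀, hu₀] at h1
    exact h1
  · exact hψ

end Pool.Agent.H13.CV

end
end
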