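import Pool.Agent.H94.CB.H62.SA.Defs
import Pool.Agent.H94.CB.M55
import Pool.Agent.H94.CB.M66
import Pool.Agent.H94.CB.M81

/-! The parts of this file: H13.CV.MerP, H13.CV.HomM. -/

section

/-!
# CV MerP: the place under a point of `ℂ`, homomorphisms into the field of meromorphic functions

`exists_placeM`: `v g = ordM z₀ (φ g)` is a valuation of `K` (`φ` is injective), trivial on the constants.  It is not trivial: let `x` be transcendental (`hK.exists_tr`), or its inverse, with `0 ≤ v x`; `c` with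
`0 < ordM z₀ (φ x - c)` (`exists_valueM`), so `0 < v (x - c)`, finite as `x ≠ c`.  So the values of `v` on `K ∖ {0}` form a non-zero subgroup of `ℤ`, equal to `e ℤ` with `e ≥ 1`
(`Int.subgroup_cyclic`, or the least positive value).  `E.ord g = v g / e` (an integer or `⊤`), `AddValuation.of`.  `residue_trdeg`: `Fin 0`: polynomials in no variables are constants.
-/

set_option autoImplicit false

open Topology Filter
open Pool.Agent.H17 Pool.Agent.H17.EntFun

noncomputable section

namespace Pool.Agent.H13.CV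

attribute [-instance] ProperSMul.toContinuousSMul

variable {K : Type} [Field K] [Algebra ℂ K]

private theorem merp_nsmul_top {e : ℕ} (he : 1 ≤ e) : e • (⊤ : WithTop ℤ) = ⊤ := by
  obtain ⟨k, rfl⟩ : ∃ k, e = k + 1 := ⟨e - 1, by omega⟩
  rw [succ_nsmul, add_top]

private theorem merp_mono {e : ℕ} (he : 1 ≤ e) {x y : WithTop ℤ} (h : x ≤ y) :
    WithTop.map (fun a : ℤ => a / (e : ℤ)) x ≤ WithTop.map (fun a : ℤ => a / (e : ℤ)) y := by
  have he' : (0 : ℤ) < e := by exact_mod_cast he
  induction y with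
  | top => exact le_top
  | coe b =>
    induction x with
    | top => exact absurd h (not_le.2 (WithTop.coe_lt_top b))
    | coe a =>
      rw [WithTop.map_coe, WithTop.map_coe, WithTop.coe_le_coe]
      exact Int.ediv_le_ediv he' (WithTop.coe_le_coe.1 h)

private theorem merp_add {e : ℕ} {x y : WithTop ℤ} (hx : x = ⊤ ∨ ∃ k : ℤ, x = ((e * k : ℤ) : WithTop ℤ)) :
    WithTop.map (fun a : ℤ => a / (e : ℤ)) (x + y) =
      WithTop.map (fun a : ℤ => a / (e : ℤ)) x + WithTop.map (fun a : ℤ => a / (e : ℤ)) y := by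
  rcases hx with rfl | ⟨k, rfl⟩
  · rw [top_add, WithTop.map_top, top_add]
  · induction y with
    | top => rw [add_top, WithTop.map_top, add_top]
    | coe b =>
      rw [← WithTop.coe_add, WithTop.map_coe, WithTop.map_coe, WithTop.map_coe, ← WithTop.coe_add,
        WithTop.coe_inj]
      exact Int.add_ediv_of_dvd_left (Dvd.intro k rfl)

theorem exists_placeM (hK : CurveField K) (φ : K →ₐ[ℂ] Mer) (z₀ : ℂ) : ∃ (E : Place K) (e : ℕ), 1 ≤ e ∧ ∀ g : K, ordM z₀ (φ g) = e • E.ord g := by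
  have hinj : Function.Injective φ := φ.toRingHom.injective
  have htop : ∀ g : K, ordM z₀ (φ g) = ⊤ ↔ g = 0 := by
    intro g
    rw [ordM_eq_top, map_eq_zero_iff φ hinj]
  have hcst : ∀ c : ℂ, c ≠ 0 → ordM z₀ (φ (algebraMap ℂ K c)) = 0 := by
    intro c hc
    rw [AlgHom.commutes]
    exact ordM_const z₀ hc
  have hfin : ∀ g : K, g ≠ 0 → ∃ n : ℤ, ordM z₀ (φ g) = (n : WithTop ℤ) := by
    intro g hg
    have h : ordM z₀ (φ g) ≠ ⊤ := fun h => hg ((htop g).1 h)
    exact ⟨_, (WithTop.coe_untop _ h).symm⟩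
  -- the group of the values
  let H : AddSubgroup ℤ :=
    { carrier := {n | ∃ g : K, g ≠ 0 ∧ ordM z₀ (φ g) = (n : WithTop ℤ)}
      add_mem' := by
        rintro a b ⟨g, hg, h1⟩ ⟨g', hg', h2⟩
        refine ⟨g * g', mul_ne_zero hg hg', ?_⟩
        rw [map_mul, AddValuation.map_mul, h1, h2, WithTop.coe_add]
      zero_mem' := ⟨1, one_ne_zero, by rw [map_one, AddValuation.map_one]; rfl⟩
      neg_mem' := by
        rintro a ⟨g, hg, h1⟩
        refine ⟨g⁻¹, inv_ne_zero hg, ?_⟩
        obtain ⟨n, hn⟩ := hfin g⁻¹ (inv_ne_zero hg)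
        have h2 : ordM z₀ (φ g) + ordM z₀ (φ g⁻¹) = 0 := by
          rw [← AddValuation.map_mul, ← map_mul, mul_inv_cancel₀ hg, map_one, AddValuation.map_one]
        rw [h1, hn, ← WithTop.coe_add] at h2
        have h3 : a + n = 0 := WithTop.coe_eq_zero.1 h2
        rw [hn, WithTop.coe_inj]
        omega }
  have hmem : ∀ (n : ℤ), n ∈ H ↔ ∃ g : K, g ≠ 0 ∧ ordM z₀ (φ g) = (n : WithTop ℤ) := fun n => Iff.rfl
  -- a non-zero value
  have hne : ∃ n ∈ H, n ≠ 0 := by
    obtain ⟨x, hx⟩ := hK.exists_tr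
    have hx0 : x ≠ 0 := by
      rintro rfl
      exact hx isAlgebraic_zero
    obtain ⟨n, hn⟩ := hfin x hx0
    by_cases h0 : n = 0
    · have h1 : 0 ≤ ordM z₀ (φ x) := by rw [hn, h0]; exact le_refl _
      obtain ⟨c, hc⟩ := exists_valueM z₀ h1
      have h2 : φ x - algebraMap ℂ Mer c = φ (x - algebraMap ℂ K c) := by
        rw [map_sub, AlgHom.commutes]
      have h3 : x - algebraMap ℂ K c ≠ 0 := by
        intro h
        rw [sub_eq_zero] at h
        rw [h] at hx
        exact hx (isAlgebraic_algebraMap c)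
      obtain ⟨m, hm⟩ := hfin _ h3
      refine ⟨m, ⟨_, h3, hm⟩, ?_⟩
      rintro rfl
      rw [h2, hm] at hc
      exact lt_irrefl _ hc
    · exact ⟨n, ⟨x, hx0, hn⟩, h0⟩
  obtain ⟨a, ha⟩ := Int.subgroup_cyclic H
  have hdvd : ∀ n ∈ H, a ∣ n := by
    intro n hn
    rw [ha, ← AddSubgroup.zmultiples_eq_closure, Int.mem_zmultiples_iff] at hn
    exact hn
  have haH : a ∈ H := by
    rw [ha]
    exact AddSubgroup.subset_closure rfl
  have ha0 : a ≠ 0 := by
    rintro rfl
    obtain ⟨n, hn, hn0⟩ := hne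
    exact hn0 (zero_dvd_iff.1 (hdvd n hn))
  obtain ⟨e, he⟩ : ∃ e : ℕ, e = a.natAbs := ⟨_, rfl⟩
  have he1 : 1 ≤ e := by
    rw [he]
    exact Int.natAbs_pos.2 ha0
  have heH : (e : ℤ) ∈ H := by
    rcases Int.natAbs_eq a with h | h
    · rw [he, ← h]
      exact haH
    · have h2 : (e : ℤ) = -a := by
        rw [he]
        omega
      rw [h2]
      exact H.neg_mem haH
  have hval : ∀ g : K, ordM z₀ (φ g) = ⊤ ∨ ∃ k : ℤ, ordM z₀ (φ g) = ((e * k : ℤ) : WithTop ℤ) := by
    intro g
    by_cases hg : g = 0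
    · exact Or.inl ((htop g).2 hg)
    · obtain ⟨n, hn⟩ := hfin g hg
      have h1 : (e : ℤ) ∣ n := by
        rw [he, Int.natAbs_dvd]
        exact hdvd n ⟨g, hg, hn⟩
      obtain ⟨k, hk⟩ := h1
      exact Or.inr ⟨k, by rw [hn, hk]⟩
  have he0 : (e : ℤ) ≠ 0 := by
    have : 0 < e := he1
    omega
  -- the normalised valuation
  let v : AddValuation K (WithTop ℤ) := AddValuation.of
    (fun g => WithTop.map (fun a : ℤ => a / (e : ℤ)) (ordM z₀ (φ g)))
    (by
      change WithTop.map (fun a : ℤ => a / (e : ℤ)) (ordM z₀ (φ 0)) = ⊤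
      rw [(htop 0).2 rfl, WithTop.map_top])
    (by
      change WithTop.map (fun a : ℤ => a / (e : ℤ)) (ordM z₀ (φ 1)) = 0
      rw [map_one, AddValuation.map_one]
      change (((0 : ℤ) / (e : ℤ) : ℤ) : WithTop ℤ) = 0
      rw [Int.zero_ediv]
      rfl)
    (by
      intro f g
      have h := (ordM z₀).map_add (φ f) (φ g)
      rw [← map_add] at h
      rcases le_total (ordM z₀ (φ f)) (ordM z₀ (φ g)) with h1 | h1
      · rw [min_eq_left h1] at h
        exact (min_le_left _ _).trans (merp_mono he1 h)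
      · rw [min_eq_right h1] at h
        exact (min_le_right _ _).trans (merp_mono he1 h))
    (by
      intro f g
      rw [map_mul, AddValuation.map_mul]
      exact merp_add (hval f))
  have hv : ∀ g, v g = WithTop.map (fun a : ℤ => a / (e : ℤ)) (ordM z₀ (φ g)) := fun g => rfl
  have hvc : ∀ c : ℂ, c ≠ 0 → v (algebraMap ℂ K c) = 0 := by
    intro c hc
    rw [hv, hcst c hc]
    change (((0 : ℤ) / (e : ℤ) : ℤ) : WithTop ℤ) = 0
    rw [Int.zero_ediv]
    rfl
  refine ⟨{ ord := v
            ord_const := ?_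
            exists_uniformizer := ?_
            residue_trdeg := ?_ }, e, he1, ?_⟩
  · intro c
    by_cases hc : c = 0
    · rw [hc, map_zero, AddValuation.map_zero]
      exact le_top
    · rw [hvc c hc]
  · obtain ⟨t, ht, h1⟩ := (hmem e).1 heH
    refine ⟨t, ?_⟩
    rw [hv, h1]
    change ((((e : ℤ) / (e : ℤ) : ℤ)) : WithTop ℤ) = 1
    rw [Int.ediv_self he0]
    rfl
  · have : IsEmpty (Fin (1 - 1)) := inferInstanceAs (IsEmpty (Fin 0))
    refine ⟨fun i => isEmptyElim i, fun i => isEmptyElim i, ?_⟩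
    intro p hp
    rw [MvPolynomial.eq_C_of_isEmpty p, MvPolynomial.aeval_C]
    apply hvc
    intro h
    apply hp
    rw [MvPolynomial.eq_C_of_isEmpty p, h, map_zero]
  · intro g
    change ordM z₀ (φ g) = e • v g
    rw [hv]
    rcases hval g with h | ⟨k, h⟩
    · rw [h, WithTop.map_top, merp_nsmul_top he1]
    · rw [h, WithTop.map_coe, ← WithTop.coe_nsmul, WithTop.coe_inj, Int.mul_ediv_cancel_left _ he0,
        nsmul_eq_mul]

end Pool.Agent.H13.CV

end
end

section

/-!
# CV HomM: the entire curve given by a homomorphism of the function field into the meromorphic functions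

`homMap0`: let `X j ∉ Q`, so `coordFun Q j ≠ 0` (`Pool.Agent.H92.GT.Proj.aeval_coordFun_eq_zero_iff Q (X j)`).  `y i = φ (ratio Q i j) ∈ Mer`, `y j = 1`.  There are `a i, b ∈ EntFun`, `b ≠ 0`, with `y i = a i / b`
(`IsLocalization.exist_integer_multiples_of_finset`), `a j = b`.
`exists_map` (HomA) gives `f` and, for every `z₀`, `k` and `c i` with `a i = coord z₀ ^ k * c i`, `f z₀ = [c i (z₀)]`.
Forms in `Q`: for a form `R ∈ Q`: `aeval (ratio Q · j) R = 0` in `FunField Q`, so `aeval y R = 0`, `aeval (toM ∘ a) R = 0` (homogeneous), so `aeval c R = 0` in `EntFun` (`coord ≠ 0`, domain), evaluate at `z₀`.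
The index `l`: with `c l (z₀) ≠ 0`; then `a l ≠ 0`, `y l ≠ 0`, so `coordFun Q l ≠ 0`, and `φ (ratio Q i l) = y i / y l = c i / c l` has order `≥ 0` at `z₀`.  If the form `R` vanishes at `f z₀`, then
`φ (aeval (ratio Q · l) R) = aeval (c / c l) R = (aeval c R) / c l ^ d` has positive order at `z₀`.
Non-constant: if `f` is constant then the `a i` are proportional to constants (near a point where `k = 0`, then everywhere), so the `y i` are constants, so `φ` of all `ratio Q i l = ratio Q i j / ratio Q l j` are constants,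
and these generate `FunField Q` over `ℂ`; so `φ` maps `K` into `ℂ`: impossible as `φ` is injective and `K` contains a transcendental element (`hK.exists_tr`).
Facts on `coordFun`, `ratio`, `aeval`: `Pool/Agent/H92/GT/Proj*.lean`, `Pool/Agent/H17BP/TrdegLt.lean`, `Pool/Agent/H62/FC/`.
-/

set_option autoImplicit false

open Topology Filter MvPolynomial
open Pool.Agent.H17 (PN VanishesAt ZariskiClosedIn HolomorphicInto puncturedDisc)
open Pool.Agent.H17GT (coordFun)
open Pool.Agent.H17LG.Variety (FunField IsLogGeneralType ratio)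
open Pool.Agent.H62.SA (locVar OnBd)

noncomputable section

namespace Pool.Agent.H13.CV

attribute [-instance] ProperSMul.toContinuousSMul

variable {N : ℕ}

open Pool.Agent.H17 in
open Pool.Agent.H17.EntFun in
private lemma HomM_vanishes_mk {G : MvPolynomial (Fin (N + 1)) ℂ} {n : ℕ} (hG : G.IsHomogeneous n) {v : Fin (N + 1) → ℂ} (hv : v ≠ 0) :
    VanishesAt G (Projectivization.mk ℂ v hv) ↔ eval v G = 0 := by
  obtain ⟨u, hu⟩ := Projectivization.exists_smul_eq_mk_rep ℂ v hv
  have h1 : eval (Projectivization.mk ℂ v hv).rep G = (u : ℂ) ^ n * eval v G := by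
    rw [← hu]
    have h2 := Pool.Agent.H92.GT.Proj.aeval_scale (K := ℂ) hG (u : ℂ) v
    have h3 : ∀ w : Fin (N + 1) → ℂ, eval w G = aeval w G := fun w => rfl
    rw [h3, h3]
    exact h2
  unfold Pool.Agent.H17.VanishesAt
  rw [h1, mul_eq_zero]
  constructor
  · rintro (h | h)
    · exact absurd h (pow_ne_zero _ u.ne_zero)
    · exact h
  · exact fun h => Or.inr h

private def HomM_val (P : Ideal (MvPolynomial (Fin (N + 1)) ℂ)) [P.IsPrime] :
    FunField P →ₐ[ℂ] FractionRing (MvPolynomial (Fin (N + 1)) ℂ ⧸ P) :=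
  (Pool.Agent.H17GT.functionField P).val

open Pool.Agent.H17GT (functionField)

private lemma HomM_val_ratio (P : Ideal (MvPolynomial (Fin (N + 1)) ℂ)) [P.IsPrime] (i j : Fin (N + 1)) :
    HomM_val P (ratio P i j) = coordFun P i / coordFun P j := rfl

private lemma HomM_val_injective (P : Ideal (MvPolynomial (Fin (N + 1)) ℂ)) [P.IsPrime] : Function.Injective (HomM_val P) :=
  (HomM_val P).injective

private lemma HomM_generate (P : Ideal (MvPolynomial (Fin (N + 1)) ℂ)) [P.IsPrime] :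
    IntermediateField.adjoin ℂ {y : FunField P | ∃ i j, y = ratio P i j} = ⊤ := by
  have h : IntermediateField.adjoin ℂ {y : functionField P | ∃ i j, y = ratio P i j} = ⊤ := by
    rw [← IntermediateField.lift_inj, IntermediateField.lift_adjoin, IntermediateField.lift_top]
    conv_rhs => rw [functionField]
    congr 1
    ext y
    constructor
    · rintro ⟨y', ⟨i, j, rfl⟩, rfl⟩
      exact ⟨i, j, rfl⟩
    · rintro ⟨i, j, rfl⟩
      exact ⟨ratio P i j, ⟨i, j, rfl⟩, rfl⟩
  exact h

private lemma HomM_ratio_div (P : Ideal (MvPolynomial (Fin (N + 1)) ℂ)) [P.IsPrime] {j : Fin (N + 1)} (hj : coordFun P j ≠ 0) (i l : Fin (N + 1)) :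
    ratio P i l = ratio P i j / ratio P l j := by
  apply HomM_val_injective
  rw [map_div₀, HomM_val_ratio, HomM_val_ratio, HomM_val_ratio, div_div_div_cancel_right₀ hj]

private lemma HomM_aeval_ratio (P : Ideal (MvPolynomial (Fin (N + 1)) ℂ)) [P.IsPrime] {G : MvPolynomial (Fin (N + 1)) ℂ} {n : ℕ} (hG : G.IsHomogeneous n)
    (hGP : G ∈ P) (j : Fin (N + 1)) : aeval (fun i => ratio P i j) G = 0 := by
  apply HomM_val_injective
  have h3 : HomM_val P (aeval (fun i => ratio P i j) G) = aeval (fun i => HomM_val P (ratio P i j)) G := by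
    rw [← MvPolynomial.comp_aeval]
    rfl
  have h4 : (fun i => HomM_val P (ratio P i j)) = fun i => (coordFun P j)⁻¹ * coordFun P i := by
    funext i
    rw [HomM_val_ratio, div_eq_inv_mul]
  rw [h3, h4, Pool.Agent.H92.GT.Proj.aeval_scale hG, (Pool.Agent.H92.GT.Proj.aeval_coordFun_eq_zero_iff P G).2 hGP, mul_zero, map_zero]

private lemma HomM_toM_aeval (c : Fin (N + 1) → Pool.Agent.H17.EntFun) (G : MvPolynomial (Fin (N + 1)) ℂ) : aeval (fun i => toM (c i)) G = toM (aeval c G) := by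
  have h := MvPolynomial.aeval_algebraMap_apply (R := ℂ) (A := Pool.Agent.H17.EntFun) Mer c G
  exact h

private lemma HomM_ev_aeval (z : ℂ) (c : Fin (N + 1) → Pool.Agent.H17.EntFun) (G : MvPolynomial (Fin (N + 1)) ℂ) :
    ((aeval c G : Pool.Agent.H17.EntFun) : ℂ → ℂ) z = eval (fun i => (c i : ℂ → ℂ) z) G := by
  have h1 : Pool.Agent.H17.EntFun.ev z (aeval c G) = eval₂ ((Pool.Agent.H17.EntFun.ev z).comp (algebraMap ℂ _)) (fun i => Pool.Agent.H17.EntFun.ev z (c i)) G := by
    rw [aeval_def]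
    exact (MvPolynomial.hom_eval₂ G _ _ _)
  exact h1

theorem homMap0 (Q : Ideal (MvPolynomial (Fin (N + 1)) ℂ)) [Q.IsPrime] (hX : ∃ i, (X i : MvPolynomial (Fin (N + 1)) ℂ) ∉ Q)
    (hK : CurveField (FunField Q)) (φ : FunField Q →ₐ[ℂ] Mer) :
    ∃ f : ℂ → PN N, HolomorphicInto f Set.univ ∧ (∀ z, ∀ R ∈ Q, ∀ n, R.IsHomogeneous n → VanishesAt R (f z)) ∧ (∃ z w, f z ≠ f w) ∧
      ∀ z₀ : ℂ, ∃ l, coordFun Q l ≠ 0 ∧ (∀ i, 0 ≤ ordM z₀ (φ (ratio Q i l))) ∧
        ∀ (R : MvPolynomial (Fin (N + 1)) ℂ) (d : ℕ), R.IsHomogeneous d → VanishesAt R (f z₀) → 0 < ordM z₀ (φ (aeval (fun i => ratio Q i l) R)) := by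
  classical
  obtain ⟨j, hjX⟩ := hX
  have hj : coordFun Q j ≠ 0 := by
    intro h0
    apply hjX
    rw [← Pool.Agent.H92.GT.Proj.aeval_coordFun_eq_zero_iff, aeval_X]
    exact h0
  have hrj : ratio Q j j = 1 := by
    apply HomM_val_injective
    rw [HomM_val_ratio, map_one, div_self hj]
  -- the common denominator
  obtain ⟨b', hb'⟩ := IsLocalization.exist_integer_multiples_of_finite (nonZeroDivisors Pool.Agent.H17.EntFun) (fun i : Fin (N + 1) => φ (ratio Q i j))
  have hb'0 : (b' : Pool.Agent.H17.EntFun) ≠ 0 := nonZeroDivisors.ne_zero b'.2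
  have hinj : Function.Injective (algebraMap Pool.Agent.H17.EntFun Mer) := IsFractionRing.injective _ _
  have htb : toM (b' : Pool.Agent.H17.EntFun) ≠ 0 := fun h => hb'0 (hinj (h.trans (map_zero _).symm))
  choose a ha using hb'
  have ha' : ∀ i, toM (a i) = toM (b' : Pool.Agent.H17.EntFun) * φ (ratio Q i j) := by
    intro i
    have h1 := ha i
    rw [Algebra.smul_def] at h1
    exact h1
  have haj : a j ≠ 0 := by
    intro h0
    have h1 := ha' j
    rw [h0, hrj, map_one, mul_one] at h1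
    exact htb (h1.symm.trans (map_zero _))
  obtain ⟨f, hf, hfz⟩ := exists_map a ⟨j, haj⟩
  -- the coordinates
  have key : ∀ (z₀ : ℂ) (k : ℕ) (c : Fin (N + 1) → Pool.Agent.H17.EntFun), (∀ i, a i = Pool.Agent.H17.EntFun.coord z₀ ^ k * c i) →
      ∃ s : Mer, s ≠ 0 ∧ ∀ i, φ (ratio Q i j) = s * toM (c i) := by
    intro z₀ k c hc
    refine ⟨toM (Pool.Agent.H17.EntFun.coord z₀ ^ k) / toM (b' : Pool.Agent.H17.EntFun), ?_, ?_⟩
    · refine div_ne_zero ?_ htb
      intro h0
      exact pow_ne_zero k (Pool.Agent.H17.EntFun.coord_ne_zero z₀) (hinj (h0.trans (map_zero _).symm))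
    · intro i
      have h1 := ha' i
      rw [hc i] at h1
      have h2 : toM (Pool.Agent.H17.EntFun.coord z₀ ^ k * c i) = toM (Pool.Agent.H17.EntFun.coord z₀ ^ k) * toM (c i) := map_mul _ _ _
      rw [h2] at h1
      rw [div_mul_eq_mul_div, h1, mul_div_cancel_left₀ _ htb]
  refine ⟨f, hf, ?_, ?_, ?_⟩
  · -- the map is into the closed subvariety
    intro z₀ G hGQ n hG
    obtain ⟨k, c, h, hc, hfc⟩ := hfz z₀
    obtain ⟨s, hs, hsc⟩ := key z₀ k c hc
    rw [hfc, HomM_vanishes_mk hG]
    have h1 := congrArg φ (HomM_aeval_ratio Q hG hGQ j)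
    rw [map_zero] at h1
    have h2 : φ (aeval (fun i => ratio Q i j) G) = aeval (fun i => φ (ratio Q i j)) G := by
      rw [← MvPolynomial.comp_aeval]
      rfl
    have h3 : (fun i => φ (ratio Q i j)) = fun i => s * toM (c i) := funext hsc
    rw [h2, h3, Pool.Agent.H92.GT.Proj.aeval_scale hG, HomM_toM_aeval] at h1
    have h4 : toM (aeval c G) = 0 := (mul_eq_zero.1 h1).resolve_left (pow_ne_zero _ hs)
    have h5 : aeval c G = 0 := hinj (h4.trans (map_zero _).symm)
    rw [← HomM_ev_aeval, h5]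
    rfl
  · -- the map is not constant
    by_contra hcon
    push Not at hcon
    obtain ⟨k, c, h, hc, hfc⟩ := hfz 0
    obtain ⟨l, hl⟩ := Function.ne_iff.1 h
    set v : Fin (N + 1) → ℂ := fun i => (c i : ℂ → ℂ) 0 with hv
    have hl' : v l ≠ 0 := hl
    have hprop : ∀ i, a i * algebraMap ℂ Pool.Agent.H17.EntFun (v l) = a l * algebraMap ℂ Pool.Agent.H17.EntFun (v i) := by
      intro i
      ext z
      obtain ⟨k', c', h', hc', hfc'⟩ := hfz z
      have h1 : Projectivization.mk ℂ (fun i => (c' i : ℂ → ℂ) z) h' = Projectivization.mk ℂ v h := by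
        rw [← hfc', ← hfc]
        exact hcon z 0
      rw [Projectivization.mk_eq_mk_iff'] at h1
      obtain ⟨u, hu⟩ := h1
      have h2 : ∀ i, (c' i : ℂ → ℂ) z = u * v i := fun i => (congrFun hu i).symm
      have h3 : ∀ i, (a i : ℂ → ℂ) z = (z - z) ^ k' * (u * v i) := by
        intro i
        rw [hc' i, ← h2 i]
        rfl
      change (a i : ℂ → ℂ) z * v l = (a l : ℂ → ℂ) z * v i
      rw [h3 i, h3 l]
      ring
    have hprop' : ∀ i, φ (ratio Q i j) * algebraMap ℂ Mer (v l) = φ (ratio Q l j) * algebraMap ℂ Mer (v i) := by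
      intro i
      have h1 := congrArg (algebraMap Pool.Agent.H17.EntFun Mer) (hprop i)
      rw [map_mul, map_mul] at h1
      have h2 := ha' i
      have h3 := ha' l
      have h4 : toM (b' : Pool.Agent.H17.EntFun) * (φ (ratio Q i j) * algebraMap ℂ Mer (v l)) =
          toM (b' : Pool.Agent.H17.EntFun) * (φ (ratio Q l j) * algebraMap ℂ Mer (v i)) := by
        rw [← mul_assoc, ← mul_assoc, ← h2, ← h3, algebraMap_eq, algebraMap_eq]
        exact h1
      exact mul_left_cancel₀ htb h4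
    have hpropK : ∀ i, ratio Q i j * algebraMap ℂ (FunField Q) (v l) = ratio Q l j * algebraMap ℂ (FunField Q) (v i) := by
      intro i
      have hφ : Function.Injective φ := φ.toRingHom.injective
      apply hφ
      have h1 := hprop' i
      rw [map_mul, map_mul, AlgHom.commutes, AlgHom.commutes]
      exact h1
    have hvl : algebraMap ℂ (FunField Q) (v l) ≠ 0 := by
      intro h0
      exact hl' ((algebraMap ℂ (FunField Q)).injective (h0.trans (map_zero _).symm))
    have hrl : ratio Q l j ≠ 0 := by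
      intro h0
      have h1 := hpropK j
      rw [h0, zero_mul, hrj, one_mul] at h1
      exact hvl h1
    have hrc : ∀ i, ratio Q i j / ratio Q l j = algebraMap ℂ (FunField Q) (v i / v l) := by
      intro i
      rw [map_div₀, div_eq_div_iff hrl hvl, mul_comm (algebraMap ℂ (FunField Q) (v i))]
      exact hpropK i
    have hbot : IntermediateField.adjoin ℂ {y : FunField Q | ∃ i j, y = ratio Q i j} = ⊥ := by
      rw [IntermediateField.adjoin_eq_bot_iff]
      rintro y ⟨i, i', rfl⟩
      have h1 : ratio Q i i' = (ratio Q i j / ratio Q l j) / (ratio Q i' j / ratio Q l j) := by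
        rw [div_div_div_cancel_right₀ hrl, ← HomM_ratio_div Q hj]
      rw [h1, hrc, hrc, ← map_div₀]
      exact IntermediateField.algebraMap_mem _ _
    obtain ⟨x, hx⟩ := hK.exists_tr
    apply hx
    have hx1 : x ∈ (⊥ : IntermediateField ℂ (FunField Q)) := by
      rw [← hbot, HomM_generate]
      exact IntermediateField.mem_top
    obtain ⟨t, ht⟩ := IntermediateField.mem_bot.1 hx1
    rw [← ht]
    exact isAlgebraic_algebraMap t
  · -- the forms which vanish at a point
    intro z₀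
    obtain ⟨k, c, h, hc, hfc⟩ := hfz z₀
    obtain ⟨s, hs, hsc⟩ := key z₀ k c hc
    obtain ⟨l, hl⟩ := Function.ne_iff.1 h
    have hl' : (c l : ℂ → ℂ) z₀ ≠ 0 := hl
    have hcl : toM (c l) ≠ 0 := by
      intro h0
      have h1 : c l = 0 := hinj (h0.trans (map_zero _).symm)
      rw [h1] at hl'
      exact hl' rfl
    have hrl : ratio Q l j ≠ 0 := by
      intro h0
      have h1 := hsc l
      rw [h0, map_zero] at h1
      exact mul_ne_zero hs hcl h1.symm
    have hcfl : coordFun Q l ≠ 0 := by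
      intro h0
      apply hrl
      apply HomM_val_injective
      rw [HomM_val_ratio, h0, zero_div, map_zero]
    have hordl : ordM z₀ (toM (c l)) = 0 := by
      apply le_antisymm
      · rw [← not_lt, ordM_toM_pos]
        exact hl'
      · exact ordM_toM_nonneg _ _
    have hrat : ∀ i, φ (ratio Q i l) * toM (c l) = toM (c i) := by
      intro i
      rw [HomM_ratio_div Q hj i l, map_div₀, hsc i, hsc l, mul_div_mul_left _ _ hs, div_mul_cancel₀ _ hcl]
    refine ⟨l, hcfl, fun i => ?_, fun R d hd hR => ?_⟩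
    · have h1 := congrArg (ordM z₀) (hrat i)
      rw [AddValuation.map_mul, hordl, add_zero] at h1
      rw [h1]
      exact ordM_toM_nonneg _ _
    · rw [hfc, HomM_vanishes_mk hd] at hR
      have h2 : φ (aeval (fun i => ratio Q i l) R) = aeval (fun i => φ (ratio Q i l)) R := by
        rw [← MvPolynomial.comp_aeval]
        rfl
      have h3 : toM (c l) ^ d * φ (aeval (fun i => ratio Q i l) R) = toM (aeval c R) := by
        rw [h2, ← Pool.Agent.H92.GT.Proj.aeval_scale hd, ← HomM_toM_aeval]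
        congr 2
        funext i
        rw [mul_comm]
        exact hrat i
      have h4 := congrArg (ordM z₀) h3
      rw [AddValuation.map_mul, AddValuation.map_pow, hordl, smul_zero, zero_add] at h4
      rw [h4, ordM_toM_pos, HomM_ev_aeval]
      exact hR

theorem nonneg_of_smul {e : ℕ} (he : 1 ≤ e) {a b : WithTop ℤ} (h : a = e • b) (ha : 0 ≤ a) : 0 ≤ b := by
  by_contra hcon
  push Not at hcon
  have hb : b ≠ ⊤ := ne_top_of_lt hcon
  obtain ⟨n, rfl⟩ := WithTop.ne_top_iff_exists.mp hb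
  have h1 : n < 0 := by exact_mod_cast hcon
  rw [h, ← WithTop.coe_nsmul] at ha
  have h2 : (0 : ℤ) ≤ e • n := by exact_mod_cast ha
  rw [nsmul_eq_mul] at h2
  have h3 : (1 : ℤ) ≤ e := by exact_mod_cast he
  nlinarith

theorem pos_of_smul {e : ℕ} {a b : WithTop ℤ} (h : a = e • b) (ha : 0 < a) : 0 < b := by
  by_contra hcon
  push Not at hcon
  have h1 : e • b ≤ e • (0 : WithTop ℤ) := nsmul_le_nsmul_right hcon e
  rw [smul_zero, ← h] at h1
  exact absurd ha (not_lt.mpr h1)

theorem homMapL (Q : Ideal (MvPolynomial (Fin (N + 1)) ℂ)) [Q.IsPrime] (hX : ∃ i, (X i : MvPolynomial (Fin (N + 1)) ℂ) ∉ Q) (hK : CurveField (FunField Q))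
    {s : ℕ} {G : Fin s → MvPolynomial (Fin (N + 1)) ℂ} (hG : ∀ m, ∃ d, (G m).IsHomogeneous d) (φ : FunField Q →ₐ[ℂ] Mer)
    (hB : ∀ (z₀ : ℂ) (E : Place (FunField Q)) (e : ℕ), 1 ≤ e → (∀ g, ordM z₀ (φ g) = e • E.ord g) → ¬ OnBd Q G E) :
    ∃ f : ℂ → PN N, HolomorphicInto f Set.univ ∧ (∀ z, f z ∈ locVar Q G) ∧ ∃ z w, f z ≠ f w := by
  obtain ⟨f, hf, hfQ, hne, hz⟩ := homMap0 Q hX hK φ
  refine ⟨f, hf, fun z₀ => ⟨hfQ z₀, ?_⟩, hne⟩
  by_contra hcon
  push Not at hcon
  obtain ⟨E, e, he, hE⟩ := exists_placeM hK φ z₀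
  obtain ⟨l, hl, hreg, hR⟩ := hz z₀
  refine hB z₀ E e he hE ⟨l, hl, fun i => nonneg_of_smul he (hE _) (hreg i), fun m => ?_⟩
  obtain ⟨d, hd⟩ := hG m
  exact pos_of_smul (hE _) (hR _ d hd (hcon m))

end Pool.Agent.H13.CV

end
end
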