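import Pool.Agent.H94.CB.H13.CV.Cases
import Pool.Agent.H94.CB.M73
import Pool.Agent.H94.CB.M80
import Pool.Agent.H94.CB.M82

/-! The parts of this file: H13.CV.Tri, H13.CV.ThmC, H13.CV.Strong. -/

section

/-!
# CV Tri: the trichotomy

`genus_cases`.  First case: `lgt_of_forms` with `m = 1`.  Second case: if `B E₀` for some `E₀`: `lgt_of_boundary`.  Otherwise `ell_gens`: `K = ℂ(t)` (`rat_cases`), or `u, v`; `ell_rel`,
`adjoin_eq_top_of_double_pole` (`-3` is odd), `normal_form`; if `α³ = 27 β²`: `singular_rational` and `rat_cases`.  Third case: `rat_cases`.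
-/

set_option autoImplicit false

open Pool.Agent.H23.Fano (PrimeDivisorOver Form regularForms)
open Pool.Agent.H17LG.Variety (PoleAtMost IsLogGeneralType)

noncomputable section

namespace Pool.Agent.H13.CV

attribute [-instance] ProperSMul.toContinuousSMul

variable {K : Type} [Field K] [Algebra ℂ K]

theorem trichotomy (hK : CurveField K) (B : Place K → Prop) :
    IsLogGeneralType B ∨ (∃ t : K, IntermediateField.adjoin ℂ {t} = ⊤ ∧ ∀ E, B E → oz E t ≠ 0) ∨
    ((∀ E, ¬ B E) ∧ ∃ (u v : K) (α β : ℂ), v ^ 2 = 4 * u ^ 3 - algebraMap ℂ K α * u - algebraMap ℂ K β ∧ Transcendental ℂ u ∧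
      IntermediateField.adjoin ℂ {u, v} = ⊤ ∧ v ∉ IntermediateField.adjoin ℂ {u} ∧ α ^ 3 ≠ 27 * β ^ 2) := by
  have hmono : ∀ (E : Place K) (h : K) (ω : Form K 1), PoleAtMost 0 E 1 h ω → PoleAtMost 1 E 1 h ω := by
    rintro E h ω ⟨g, η, hη, hω, hg⟩
    refine ⟨g, η, hη, hω, ?_⟩
    have h0 : (0 : WithTop ℤ) ≤ E.ord (h * g ^ 1) := by simpa using hg
    refine add_nonneg h0 ?_
    simp
  have hrat : ∀ t : K, IntermediateField.adjoin ℂ {t} = ⊤ →
      IsLogGeneralType B ∨ (∃ t : K, IntermediateField.adjoin ℂ {t} = ⊤ ∧ ∀ E, B E → oz E t ≠ 0) ∨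
      ((∀ E, ¬ B E) ∧ ∃ (u v : K) (α β : ℂ), v ^ 2 = 4 * u ^ 3 - algebraMap ℂ K α * u - algebraMap ℂ K β ∧ Transcendental ℂ u ∧
        IntermediateField.adjoin ℂ {u, v} = ⊤ ∧ v ∉ IntermediateField.adjoin ℂ {u} ∧ α ^ 3 ≠ 27 * β ^ 2) := by
    intro t ht
    rcases rat_cases hK ht B with h | h
    · exact Or.inl h
    · exact Or.inr (Or.inl h)
  rcases genus_cases hK with ⟨ω, h₁, h₂, hω, h10, htr, hP⟩ | ⟨⟨ω, h, hω, h0, hP⟩, E, hE⟩ | ⟨t, ht⟩
  · exact Or.inl (lgt_of_forms hK hω le_rfl h10 htr (fun E => ⟨fun _ => (hP E).1, fun _ => hmono E _ _ (hP E).1⟩)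
      (fun E => ⟨fun _ => (hP E).2, fun _ => hmono E _ _ (hP E).2⟩))
  · by_cases hB : ∃ E₀, B E₀
    · obtain ⟨E₀, hE₀⟩ := hB
      exact Or.inl (lgt_of_boundary hK hω h0 hP hE₀)
    · have hB' : ∀ E, ¬ B E := fun E hE' => hB ⟨E, hE'⟩
      rcases ell_gens hK hE with ⟨t, ht⟩ | ⟨h1, u, v, hu, hv, hu', hv'⟩
      · exact hrat t ht
      · obtain ⟨c, a, d, b, e, f, hc, hrel⟩ := ell_rel hK h1 hu hv hu' hv'
        obtain ⟨hvu, huv⟩ := adjoin_eq_top_of_double_pole hK (v := v) hu hu' (by rw [hv]; decide)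
        obtain ⟨u', v', α, β, h', htr', hadj', hv''⟩ :=
          normal_form hc hrel (tr_of_oz_ne (E := E) (by rw [hu]; norm_num)) huv hvu
        by_cases hαβ : α ^ 3 = 27 * β ^ 2
        · obtain ⟨t, ht⟩ := singular_rational h' htr' hadj' hαβ
          exact hrat t ht
        · exact Or.inr (Or.inr ⟨hB', u', v', α, β, h', htr', hadj', hv'', hαβ⟩)
  · exact hrat t ht

end Pool.Agent.H13.CV

end
end

section

/-!
# CV ThmC: a curve which is not of log general type contains a non-constant entire curve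

`exists_hom`: `trichotomy` for `B`.
Case `K = ℂ(t)`, `B E → oz E t ≠ 0`: `t` is transcendental (`K` has transcendental elements).  `T = toM (exp)` is transcendental (`tr_or_const`: it is not a constant).  `hom_rat`: `φ`; `ordM z₀ T = 0`
(`exp z₀ ≠ 0`), so `e • E.ord t = 0` and `E.ord t = 0`, `oz E t = 0`, so `¬ B E`.
Case of the cubic: `exists_entire_cubic`: `F`; its coordinates are entire functions `a₀, a₁, a₂` (`EntFun`).  `a₂ ≠ 0` (if `a₂ = 0` then `a₀ = 0` by the equation and `F z = (0, a₁ z, 0)`, so the `F z` are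
proportional).  `U = a₀ / a₂`, `V = a₁ / a₂`.  `V² = 4 U³ - α U - β`.  `U` is transcendental: otherwise it is a constant (`tr_or_const`), then `V` satisfies a polynomial equation and is a constant too, so
the `F z` with `a₂ z ≠ 0` are proportional to a fixed vector, so all `F z` are (if `a₀ = γ a₂`, `a₁ = δ a₂` as entire functions then `a₂ z = 0` implies `F z = 0`): contradiction.
`hom_cubic`: `φ` (there are no places in `B`).
The two theorems: `exists_hom` for `curveField_funField Q hz`, `homMap`, `homMapL`.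
-/

set_option autoImplicit false

open Topology Filter MvPolynomial
open Pool.Agent.H17 (PN VanishesAt ZariskiClosedIn HolomorphicInto puncturedDisc EntFun)
open Pool.Agent.H17LG.Variety (FunField IsLogGeneralType)
open Pool.Agent.H62.SA (locVar OnBd)

noncomputable section

namespace Pool.Agent.H13.CV

attribute [-instance] ProperSMul.toContinuousSMul

attribute [-instance] OreLocalization.instAddGroupOreLocalization OreLocalization.instAddCommGroup

private lemma tr_of_top {K : Type} [Field K] [Algebra ℂ K] (hK : CurveField K) {t : K} (ht : IntermediateField.adjoin ℂ {t} = ⊤) :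
    Transcendental ℂ t := by
  by_contra hal
  obtain ⟨c, hc⟩ : ∃ c : ℂ, t = algebraMap ℂ K c := by
    by_contra h
    push Not at h
    exact hal (transcendental_of_not_const h)
  obtain ⟨x, hx⟩ := hK.exists_tr
  have h1 : IntermediateField.adjoin ℂ {t} = (⊥ : IntermediateField ℂ K) := by
    rw [IntermediateField.adjoin_simple_eq_bot_iff, IntermediateField.mem_bot]
    exact ⟨c, hc.symm⟩
  have h2 : x ∈ (⊥ : IntermediateField ℂ K) := by
    rw [← h1, ht]
    exact IntermediateField.mem_top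
  rw [IntermediateField.mem_bot] at h2
  obtain ⟨d, hd⟩ := h2
  exact hx (hd ▸ isAlgebraic_algebraMap d)

private def expE : EntFun := ⟨Complex.exp, Complex.differentiable_exp⟩

private lemma toM_inj {a b : EntFun} (h : toM a = toM b) : a = b := IsFractionRing.injective EntFun Mer h

private lemma expE_tr : Transcendental ℂ (toM expE) := by
  rcases tr_or_const (toM expE) with ⟨c, hc⟩ | h
  · exfalso
    rw [algebraMap_eq] at hc
    have h1 := toM_inj hc
    have h2 : Complex.exp 0 = c := congrArg (fun f : EntFun => (f : ℂ → ℂ) 0) h1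
    have h3 : Complex.exp (Real.pi * Complex.I) = c := congrArg (fun f : EntFun => (f : ℂ → ℂ) (Real.pi * Complex.I)) h1
    rw [← h2, Complex.exp_pi_mul_I, Complex.exp_zero] at h3
    norm_num at h3
  · exact h

private lemma ordM_expE (z₀ : ℂ) : ordM z₀ (toM expE) = 0 := by
  refine le_antisymm (not_lt.1 fun h => ?_) (ordM_toM_nonneg z₀ expE)
  rw [ordM_toM_pos] at h
  exact Complex.exp_ne_zero z₀ h

private lemma ThmC_rel_map {A B : Type} [CommRing A] [CommRing B] (f : A →+* B) {x y z p q : A}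
    (h : y ^ 2 * z - 4 * x ^ 3 + p * x * z ^ 2 + q * z ^ 3 = 0) :
    f y ^ 2 * f z - 4 * f x ^ 3 + f p * f x * f z ^ 2 + f q * f z ^ 3 = 0 := by
  have h1 := congrArg f h
  simpa only [map_add, map_sub, map_mul, map_pow, map_zero, map_ofNat] using h1

private lemma ThmC_rel_div {A : Type} [Field A] {x y z p q : A} (hz : z ≠ 0)
    (h : y ^ 2 * z - 4 * x ^ 3 + p * x * z ^ 2 + q * z ^ 3 = 0) :
    (y / z) ^ 2 = 4 * (x / z) ^ 3 - p * (x / z) - q := by
  field_simp
  linear_combination h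

private lemma ThmC_cub {A B : Type} [CommRing A] [CommRing B] (f : A →+* B) (g p q : A) :
    4 * f g ^ 3 - f p * f g - f q = f (4 * g ^ 3 - p * g - q) := by
  simp only [map_sub, map_mul, map_pow, map_ofNat]

private lemma exists_cubic_mer {α β : ℂ} (hd : α ^ 3 ≠ 27 * β ^ 2) :
    ∃ U V : Mer, V ^ 2 = 4 * U ^ 3 - algebraMap ℂ Mer α * U - algebraMap ℂ Mer β ∧ Transcendental ℂ U := by
  obtain ⟨F, hF, hcub, z, w, hzw⟩ := exists_entire_cubic hd
  have hFi : ∀ i : Fin 3, Differentiable ℂ fun z => F z i := fun i =>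
    ((EuclideanSpace.proj i : EuclideanSpace ℂ (Fin 3) →L[ℂ] ℂ).differentiable).comp hF
  obtain ⟨a, ha⟩ : ∃ a : Fin 3 → EntFun, ∀ i x, (a i : ℂ → ℂ) x = F x i := ⟨fun i => ⟨_, hFi i⟩, fun i x => rfl⟩
  have hne : ∀ x, F x ≠ 0 := fun x => (hcub x).1
  have heq : ∀ x, F x 1 ^ 2 * F x 2 - 4 * F x 0 ^ 3 + α * F x 0 * F x 2 ^ 2 + β * F x 2 ^ 3 = 0 := fun x => (hcub x).2
  have h2 : a 2 ≠ 0 := by
    intro h
    have h0 : ∀ x, F x 2 = 0 := fun x => by
      rw [← ha 2 x, h]
      rfl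
    have h1 : ∀ x, F x 0 = 0 := fun x => by
      have h3 := heq x
      rw [h0 x] at h3
      have h4 : F x 0 ^ 3 = 0 := by linear_combination (-1 / 4) * h3
      exact pow_eq_zero_iff (by norm_num) |>.1 h4
    have hw1 : F w 1 ≠ 0 := fun h3 => hne w (by
      ext i
      fin_cases i
      · exact h1 w
      · exact h3
      · exact h0 w)
    refine hzw (F z 1 / F w 1) ?_
    ext i
    fin_cases i
    · simp [h1]
    · simp [hw1]
    · simp [h0]
  have hA2 : toM (a 2) ≠ 0 := fun h => h2 (toM_inj (by rw [h, toM, map_zero]))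
  have hent : a 1 ^ 2 * a 2 - 4 * a 0 ^ 3 + algebraMap ℂ EntFun α * a 0 * a 2 ^ 2 + algebraMap ℂ EntFun β * a 2 ^ 3 = 0 := by
    apply EntFun.ext'
    intro x
    have := heq x
    rw [← ha 0 x, ← ha 1 x, ← ha 2 x] at this
    exact this
  have hmer : toM (a 1) ^ 2 * toM (a 2) - 4 * toM (a 0) ^ 3 + algebraMap ℂ Mer α * toM (a 0) * toM (a 2) ^ 2 +
      algebraMap ℂ Mer β * toM (a 2) ^ 3 = 0 := by
    have := ThmC_rel_map (algebraMap EntFun Mer) hent
    rw [algebraMap_eq, algebraMap_eq]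
    exact this
  have hrel : (toM (a 1) / toM (a 2)) ^ 2 = 4 * (toM (a 0) / toM (a 2)) ^ 3 - algebraMap ℂ Mer α * (toM (a 0) / toM (a 2)) -
      algebraMap ℂ Mer β := ThmC_rel_div hA2 hmer
  refine ⟨_, _, hrel, ?_⟩
  rcases tr_or_const (toM (a 0) / toM (a 2)) with ⟨γ, hγ⟩ | h
  · exfalso
    obtain ⟨ε, hε⟩ := IsAlgClosed.exists_pow_nat_eq (4 * γ ^ 3 - α * γ - β) (n := 2) (by norm_num)
    have h3 : (toM (a 1) / toM (a 2)) ^ 2 = (algebraMap ℂ Mer ε) ^ 2 := by
      rw [hrel, hγ, ← map_pow (algebraMap ℂ Mer) ε, hε]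
      exact ThmC_cub (algebraMap ℂ Mer) γ α β
    obtain ⟨ε', hε'⟩ : ∃ ε' : ℂ, toM (a 1) / toM (a 2) = algebraMap ℂ Mer ε' := by
      rcases sq_eq_sq_iff_eq_or_eq_neg.1 h3 with h | h
      · exact ⟨ε, h⟩
      · exact ⟨-ε, by rw [h, map_neg]⟩
    rw [div_eq_iff hA2, algebraMap_eq] at hγ hε'
    have h4 : a 0 = algebraMap ℂ EntFun γ * a 2 := toM_inj (hγ.trans (map_mul (algebraMap EntFun Mer) _ _).symm)
    have h5 : a 1 = algebraMap ℂ EntFun ε' * a 2 := toM_inj (hε'.trans (map_mul (algebraMap EntFun Mer) _ _).symm)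
    have h6 : ∀ x, F x 0 = γ * F x 2 := fun x => by
      rw [← ha 0 x, ← ha 2 x, h4]
      rfl
    have h7 : ∀ x, F x 1 = ε' * F x 2 := fun x => by
      rw [← ha 1 x, ← ha 2 x, h5]
      rfl
    have hw2 : F w 2 ≠ 0 := fun h8 => hne w (by
      ext i
      fin_cases i
      · simpa [h8] using h6 w
      · simpa [h8] using h7 w
      · exact h8)
    refine hzw (F z 2 / F w 2) ?_
    ext i
    fin_cases i
    · show F z 0 = F z 2 / F w 2 * F w 0
      rw [h6 z, h6 w]
      field_simp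
    · show F z 1 = F z 2 / F w 2 * F w 1
      rw [h7 z, h7 w]
      field_simp
    · show F z 2 = F z 2 / F w 2 * F w 2
      field_simp
  · exact h

theorem exists_hom {K : Type} [Field K] [Algebra ℂ K] (hK : CurveField K) {B : Place K → Prop} (hB : ¬ IsLogGeneralType B) :
    ∃ φ : K →ₐ[ℂ] Mer, ∀ (z₀ : ℂ) (E : Place K) (e : ℕ), 1 ≤ e → (∀ g, ordM z₀ (φ g) = e • E.ord g) → ¬ B E := by
  rcases trichotomy hK B with h | ⟨t, ht, hBt⟩ | ⟨hBe, u, v, α, β, huv, hu, htop, hv, hd⟩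
  · exact absurd h hB
  · obtain ⟨φ, hφ⟩ := hom_rat ht (tr_of_top hK ht) expE_tr
    refine ⟨φ, fun z₀ E e he hE hBE => hBt E hBE ?_⟩
    have h1 := hE t
    rw [hφ, ordM_expE] at h1
    have ht0 : t ≠ 0 := by
      rintro rfl
      rw [map_zero] at hφ
      have h2 := expE_tr
      rw [← hφ] at h2
      exact h2 (isAlgebraic_zero)
    rw [← coe_oz E ht0, ← WithTop.coe_nsmul] at h1
    have h2 : (0 : ℤ) = e • oz E t := by exact_mod_cast h1
    rw [nsmul_eq_mul] at h2
    have h3 : (e : ℤ) ≠ 0 := by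
      have : e ≠ 0 := by omega
      exact_mod_cast this
    exact (mul_eq_zero.1 h2.symm).resolve_left h3
  · obtain ⟨U, V, hUV, hU⟩ := exists_cubic_mer hd
    obtain ⟨φ, -⟩ := hom_cubic huv hu htop hv hU hUV
    exact ⟨φ, fun z₀ E e he hE => hBe E⟩

variable {N : ℕ}

/-- the version for the complement of the common zeros of forms -/
theorem exists_entire_of_not_lgtL (Q : Ideal (MvPolynomial (Fin (N + 1)) ℂ)) [Q.IsPrime] (hX : ∃ i, (X i : MvPolynomial (Fin (N + 1)) ℂ) ∉ Q)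
    (hz : ∃ z : Fin 1 → FunField Q, IsTranscendenceBasis ℂ z) {s : ℕ} {G : Fin s → MvPolynomial (Fin (N + 1)) ℂ} (hG : ∀ m, ∃ d, (G m).IsHomogeneous d)
    (hlgt : ¬ IsLogGeneralType (OnBd Q G (k := 1))) :
    ∃ f : ℂ → PN N, HolomorphicInto f Set.univ ∧ (∀ z, f z ∈ locVar Q G) ∧ ∃ z w, f z ≠ f w := by
  have hK := curveField_funField Q hz
  obtain ⟨φ, hφ⟩ := exists_hom hK hlgt
  exact homMapL Q hX hK hG φ hφ

end Pool.Agent.H13.CV

end
end

section

/-!
# CV Strong: the closed subvarieties which are not contained in the exceptional set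

`strongly_of_brody`: `Ξ` is Zariski closed in `openVar P H`: `Ξ = {x ∈ openVar P H | all forms of S vanish at x}` (see the definition of `ZariskiClosedIn`).  Let `Q ⊇ P` be as in the field `strongly` of `GGLWith`
(`Pool/Agent/H17R/Defs.lean`), of dimension `w`.  If `Q ≤ P` then `Q = P` and `hlgt` applies.  Otherwise `w < 2` by `trdeg_lt`, so `w = 1` (`1 ≤ w`).  If `Q` is not of log general type then there is a non-constant entire
curve in `openVar Q H` (`exists_entire_of_not_lgt`), it is in `openVar P H`, so in `Ξ` by `hbr`; so all forms of `S` vanish on it, so they are in `Q` by `form_of_curve`, so `openVar Q H ⊆ Ξ`: contradiction.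
-/

set_option autoImplicit false

open Topology Filter MvPolynomial
open Pool.Agent.H17 (PN VanishesAt ZariskiClosedIn HolomorphicInto puncturedDisc)
open Pool.Agent.H17LG.Variety (FunField IsLogGeneralType)
open Pool.Agent.H62.FC (Homog)
open Pool.Agent.H17R (openVar)
open Pool.Agent.H62.SA (locVar OnBd)

noncomputable section

namespace Pool.Agent.H13.CV

attribute [-instance] ProperSMul.toContinuousSMul

variable {N : ℕ}

/-- the version for the complement of the common zeros of forms -/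
theorem strongly_of_brodyL (P : Ideal (MvPolynomial (Fin (N + 1)) ℂ)) [P.IsPrime] (hP : Homog P) (hz : ∃ z : Fin 2 → FunField P, IsTranscendenceBasis ℂ z)
    {s : ℕ} {G : Fin s → MvPolynomial (Fin (N + 1)) ℂ} (hG : ∀ m, ∃ d, (G m).IsHomogeneous d) {Ξ : Set (PN N)} (hΞ : ZariskiClosedIn (locVar P G) Ξ)
    (hlgt : IsLogGeneralType (OnBd P G (k := 2)))
    (hbr : ∀ f : ℂ → PN N, HolomorphicInto f Set.univ → (∀ z, f z ∈ locVar P G) → (∃ z w, f z ≠ f w) → ∀ z, f z ∈ Ξ)
    (Q : Ideal (MvPolynomial (Fin (N + 1)) ℂ)) [Q.IsPrime] (hQ : Homog Q) (hPQ : P ≤ Q) (hQΞ : ¬ locVar Q G ⊆ Ξ) (w : ℕ) (hw : 1 ≤ w)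
    (hz' : ∃ z : Fin w → FunField Q, IsTranscendenceBasis ℂ z) : IsLogGeneralType (OnBd Q G (k := w)) := by
  have hsub : locVar Q G ⊆ locVar P G := fun x hx => ⟨fun R hR n hn => hx.1 R (hPQ hR) n hn, hx.2⟩
  have hX : ∃ i, (X i : MvPolynomial (Fin (N + 1)) ℂ) ∉ Q := by
    obtain ⟨x, hx, _⟩ := Set.not_subset.1 hQΞ
    by_contra hcon
    push Not at hcon
    apply x.rep_nonzero
    funext i
    have h1 : VanishesAt (X i : MvPolynomial (Fin (N + 1)) ℂ) x := hx.1 _ (hcon i) 1 (isHomogeneous_X ℂ i)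
    have h2 : eval x.rep (X i : MvPolynomial (Fin (N + 1)) ℂ) = 0 := h1
    rw [eval_X] at h2
    exact h2
  by_cases hle : Q ≤ P
  · have hEq : P = Q := le_antisymm hPQ hle
    subst hEq
    have h1 : w ≤ 2 := Pool.Agent.H62.FC.trdeg_mono hP hP le_rfl hz hz'
    have h2 : 2 ≤ w := Pool.Agent.H62.FC.trdeg_mono hP hP le_rfl hz' hz
    obtain rfl : w = 2 := le_antisymm h1 h2
    exact hlgt
  · have hlt : w < 2 := Pool.Agent.H17BP.trdeg_lt hP hQ hPQ hle hX hz hz'
    obtain rfl : w = 1 := by omega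
    by_contra hl
    obtain ⟨f, hf, hfQ, hne⟩ := exists_entire_of_not_lgtL Q hX hz' hG hl
    have hΞf : ∀ z, f z ∈ Ξ := hbr f hf (fun z => hsub (hfQ z)) hne
    obtain ⟨S, hS, hSΞ⟩ := hΞ
    apply hQΞ
    intro x hx
    rw [hSΞ]
    refine ⟨hsub hx, fun R hR => ?_⟩
    obtain ⟨n, hn⟩ := hS R hR
    have hRf : ∀ z, VanishesAt R (f z) := by
      intro z
      have h3 := hΞf z
      rw [hSΞ] at h3
      exact h3.2 R hR
    exact hx.1 R (form_of_curve0 Q hQ hz' hf (fun z => (hfQ z).1) hne hn hRf) n hn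

end Pool.Agent.H13.CV

end
end
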