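import Pool.Agent.H94.CB.H14.PP.Defs
import Pool.Agent.H94.CB.M02
import Pool.Agent.H94.CB.M05
import Pool.Agent.H94.CB.M08

/-! The parts of this file: H17EF.Ord, H17EF.Zeros, H14.V.Up, H62.EF.AffB, H62.EF.ChEx, H62.EF.MaxI, H62.FC.GradedField, H62.FC.Main, H92.TH.Bas. -/

section

/-!
# EF Ord: an entire curve with `T_f(r) = O(r²)` has bounded lifts on discs

The converse of `Pool.Agent.H13.OT.OrdTwo.orderTwo`.
-/

set_option autoImplicit false

namespace Pool.Agent.H17EF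

attribute [-instance] ProperSMul.toContinuousSMul

open Metric Filter Topology

/-- real parts of polynomials are dense in the continuous real functions on a circle -/
theorem exists_poly_re {u : ℂ → ℝ} {r : ℝ} (hr : 0 < r) (hu : ContinuousOn u (sphere 0 r)) {ε : ℝ} (hε : 0 < ε) :
    ∃ p : Polynomial ℂ, ∀ z : ℂ, ‖z‖ = r → |(p.eval z).re - u z| < ε := by
  have : Fact (0 < 2 * Real.pi) := ⟨Real.two_pi_pos⟩
  -- the function on the circle
  let c : AddCircle (2 * Real.pi) → ℂ := fun θ => (r : ℂ) * (AddCircle.toCircle θ : ℂ)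
  have hc : Continuous c := by
    apply continuous_const.mul
    exact continuous_subtype_val.comp AddCircle.continuous_toCircle
  have hcn : ∀ θ, c θ ∈ sphere (0 : ℂ) r := by
    intro θ
    rw [mem_sphere_zero_iff_norm]
    simp only [c, norm_mul, Complex.norm_real, Circle.norm_coe, mul_one, Real.norm_of_nonneg hr.le]
  have hcs : ∀ z : ℂ, ‖z‖ = r → ∃ θ, c θ = z := by
    intro z hz
    refine ⟨((Complex.arg z : ℝ) : AddCircle (2 * Real.pi)), ?_⟩
    have h1 : AddCircle.toCircle ((Complex.arg z : ℝ) : AddCircle (2 * Real.pi)) = Circle.exp (Complex.arg z) := by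
      rw [AddCircle.toCircle_apply_mk]
      congr 1
      field_simp
    simp only [c]
    rw [h1, Circle.coe_exp, ← hz, Complex.norm_mul_exp_arg_mul_I]
  let φ : C(AddCircle (2 * Real.pi), ℂ) := ⟨fun θ => ((u (c θ) : ℝ) : ℂ), by
    apply Complex.continuous_ofReal.comp
    exact hu.comp_continuous hc hcn⟩
  have hφ : φ ∈ (Submodule.span ℂ (Set.range <| @fourier (2 * Real.pi))).topologicalClosure := by
    rw [span_fourier_closure_eq_top]
    trivial
  rw [← SetLike.mem_coe, Submodule.topologicalClosure_coe, Metric.mem_closure_iff] at hφ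
  obtain ⟨T, hT, hTd⟩ := hφ ε hε
  -- the real part of a trigonometric polynomial
  have key : ∀ T ∈ Submodule.span ℂ (Set.range <| @fourier (2 * Real.pi)), ∀ a : ℂ, ∃ p : Polynomial ℂ,
      ∀ θ, (a * T θ).re = (p.eval (c θ)).re := by
    intro T hT
    induction hT using Submodule.span_induction with
    | mem T hT =>
      obtain ⟨n, rfl⟩ := hT
      intro a
      have hfou : ∀ (m : ℕ) (θ : AddCircle (2 * Real.pi)), fourier (m : ℤ) θ = (c θ / r) ^ m := by
        intro m θ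
        have h1 : c θ / r = (AddCircle.toCircle θ : ℂ) := by
          simp only [c]
          rw [mul_div_assoc, mul_comm, div_mul_cancel₀]
          exact_mod_cast hr.ne'
        rw [h1, fourier_apply, natCast_zsmul, AddCircle.toCircle_nsmul]
        simp
      rcases Int.eq_nat_or_neg n with ⟨m, rfl | rfl⟩
      · refine ⟨Polynomial.C (a * ((r : ℂ)⁻¹) ^ m) * Polynomial.X ^ m, fun θ => ?_⟩
        rw [hfou]
        simp only [Polynomial.eval_mul, Polynomial.eval_C, Polynomial.eval_pow, Polynomial.eval_X]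
        rw [div_eq_mul_inv, mul_pow]
        congr 1
        ring
      · refine ⟨Polynomial.C ((starRingEnd ℂ a) * ((r : ℂ)⁻¹) ^ m) * Polynomial.X ^ m, fun θ => ?_⟩
        rw [fourier_neg, hfou]
        simp only [Polynomial.eval_mul, Polynomial.eval_C, Polynomial.eval_pow, Polynomial.eval_X]
        have h1 : a * (starRingEnd ℂ) ((c θ / r) ^ m) = (starRingEnd ℂ) ((starRingEnd ℂ a) * (c θ / r) ^ m) := by
          rw [map_mul, Complex.conj_conj]
        rw [h1, Complex.conj_re, div_eq_mul_inv, mul_pow]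
        congr 1
        ring
    | zero =>
      intro a
      exact ⟨0, fun θ => by simp⟩
    | add S T _ _ hS hT =>
      intro a
      obtain ⟨p, hp⟩ := hS a
      obtain ⟨q, hq⟩ := hT a
      refine ⟨p + q, fun θ => ?_⟩
      rw [Polynomial.eval_add, Complex.add_re, ← hp, ← hq, ContinuousMap.add_apply, mul_add, Complex.add_re]
    | smul b T _ hT =>
      intro a
      obtain ⟨p, hp⟩ := hT (a * b)
      refine ⟨p, fun θ => ?_⟩
      rw [← hp, ContinuousMap.smul_apply, smul_eq_mul, mul_assoc]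
  obtain ⟨p, hp⟩ := key T hT 1
  refine ⟨p, fun z hz => ?_⟩
  obtain ⟨θ, rfl⟩ := hcs z hz
  rw [← hp θ, one_mul]
  have h1 : ‖(φ - T) θ‖ ≤ ‖φ - T‖ := (φ - T).norm_coe_le_norm θ
  rw [← dist_eq_norm] at h1
  have h2 : ‖(φ - T) θ‖ < ε := h1.trans_lt hTd
  have h3 : ((φ - T) θ).re = u (c θ) - (T θ).re := by
    rw [ContinuousMap.sub_apply, Complex.sub_re]
    simp only [φ, ContinuousMap.coe_mk, Complex.ofReal_re]
  have h4 := Complex.abs_re_le_norm ((φ - T) θ)
  rw [h3] at h4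
  rw [abs_sub_comm]
  exact h4.trans_lt h2

end Pool.Agent.H17EF

end

section

/-!
# EF Zeros: a bounded holomorphic function with many zeros is small at the centre
-/

set_option autoImplicit false

namespace Pool.Agent.H17EF

attribute [-instance] ProperSMul.toContinuousSMul

open Metric Filter Topology

/-- division by one linear factor -/
theorem div_one {g : ℂ → ℂ} {r B : ℝ} (hg : DifferentiableOn ℂ g (ball 0 r))
    (hB : ∀ z ∈ ball (0 : ℂ) r, ‖g z‖ ≤ B) {w : ℂ} (hw : ‖w‖ ≤ r / 4) (hr : 0 < r) (h0 : g w = 0) :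
    DifferentiableOn ℂ (dslope g w) (ball 0 r) ∧ (∀ z, g z = (z - w) * dslope g w z) ∧
      ∀ z ∈ ball (0 : ℂ) r, ‖dslope g w z‖ ≤ B * (4 / (3 * r)) := by
  have hwb : w ∈ ball (0 : ℂ) r := by
    rw [mem_ball_zero_iff]
    linarith
  have hd : DifferentiableOn ℂ (dslope g w) (ball 0 r) :=
    (Complex.differentiableOn_dslope (isOpen_ball.mem_nhds hwb)).2 hg
  have hfac : ∀ z, g z = (z - w) * dslope g w z := by
    intro z
    have h1 : (z - w) • dslope g w z = g z - g w := sub_smul_dslope g w z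
    rw [h0, sub_zero, smul_eq_mul] at h1
    exact h1.symm
  refine ⟨hd, hfac, fun z hz => ?_⟩
  rw [mem_ball_zero_iff] at hz
  have hB0 : 0 ≤ B := (norm_nonneg _).trans (hB 0 (mem_ball_self hr))
  -- the estimate with a smaller radius
  have key : ∀ s : ℝ, ‖z‖ < s → r / 2 < s → s < r → ‖dslope g w z‖ ≤ B / (s - r / 4) := by
    intro s hzs hs hsr
    have hs0 : 0 < s := by linarith
    have hsub : closedBall (0 : ℂ) s ⊆ ball 0 r := closedBall_subset_ball hsr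
    have hdc : DiffContOnCl ℂ (dslope g w) (ball 0 s) := by
      apply DifferentiableOn.diffContOnCl
      rw [closure_ball _ hs0.ne']
      exact hd.mono hsub
    refine Complex.norm_le_of_forall_mem_frontier_norm_le isBounded_ball hdc ?_ (z := z) ?_
    · intro ζ hζ
      rw [frontier_ball _ hs0.ne', mem_sphere_zero_iff_norm] at hζ
      have hζr : ζ ∈ ball (0 : ℂ) r := by rw [mem_ball_zero_iff, hζ]; exact hsr
      have h1 := hB ζ hζr
      rw [hfac ζ, norm_mul] at h1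
      have h2 : s - r / 4 ≤ ‖ζ - w‖ := by
        have := norm_sub_norm_le ζ w
        rw [hζ] at this
        linarith
      have h3 : 0 < s - r / 4 := by linarith
      rw [le_div_iff₀ h3]
      calc ‖dslope g w ζ‖ * (s - r / 4) ≤ ‖dslope g w ζ‖ * ‖ζ - w‖ := mul_le_mul_of_nonneg_left h2 (norm_nonneg _)
        _ = ‖ζ - w‖ * ‖dslope g w ζ‖ := mul_comm _ _
        _ ≤ B := h1
    · apply subset_closure
      rw [mem_ball_zero_iff]
      exact hzs
  -- the limit `s → r`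
  have hlim : Tendsto (fun s : ℝ => B / (s - r / 4)) (𝓝[<] r) (𝓝 (B / (r - r / 4))) := by
    have h1 : ContinuousAt (fun s : ℝ => B / (s - r / 4)) r := by
      apply ContinuousAt.div continuousAt_const (by fun_prop)
      linarith
    exact h1.tendsto.mono_left nhdsWithin_le_nhds
  have hev : ∀ᶠ s in 𝓝[<] r, ‖dslope g w z‖ ≤ B / (s - r / 4) := by
    have h1 : ∀ᶠ s : ℝ in 𝓝[<] r, ‖z‖ < s := (eventually_gt_nhds hz).filter_mono nhdsWithin_le_nhds
    have h2 : ∀ᶠ s : ℝ in 𝓝[<] r, r / 2 < s := (eventually_gt_nhds (by linarith)).filter_mono nhdsWithin_le_nhds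
    have h3 : ∀ᶠ s : ℝ in 𝓝[<] r, s < r := eventually_mem_nhdsWithin
    filter_upwards [h1, h2, h3] with s hs1 hs2 hs3
    exact key s hs1 hs2 hs3
  have h4 := ge_of_tendsto hlim hev
  have h5 : B / (r - r / 4) = B * (4 / (3 * r)) := by
    field_simp
    ring
  rwa [h5] at h4

/-- division by finitely many linear factors -/
theorem div_list {r B : ℝ} (hr : 0 < r) : ∀ (l : List ℂ) {g : ℂ → ℂ}, DifferentiableOn ℂ g (ball 0 r) →
    (∀ z ∈ ball (0 : ℂ) r, ‖g z‖ ≤ B) → (∀ w ∈ l, ‖w‖ ≤ r / 4) → (∀ w, ((l.count w : ℕ) : ℕ∞) ≤ analyticOrderAt g w) →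
    ∃ g' : ℂ → ℂ, DifferentiableOn ℂ g' (ball 0 r) ∧ (∀ z, g z = (l.map fun w => z - w).prod * g' z) ∧
      ∀ z ∈ ball (0 : ℂ) r, ‖g' z‖ ≤ B * (4 / (3 * r)) ^ l.length := by
  intro l
  induction l generalizing B with
  | nil =>
    intro g hg hB _ _
    exact ⟨g, hg, by simp, by simpa using hB⟩
  | cons w l ih =>
    intro g hg hB hl hord
    have hw : ‖w‖ ≤ r / 4 := hl w (List.mem_cons_self)
    have hwb : w ∈ ball (0 : ℂ) r := by
      rw [mem_ball_zero_iff]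
      linarith
    have hgan : ∀ z ∈ ball (0 : ℂ) r, AnalyticAt ℂ g z := fun z hz => hg.analyticAt (isOpen_ball.mem_nhds hz)
    have h0 : g w = 0 := by
      have h1 := hord w
      rw [List.count_cons_self] at h1
      have h2 : analyticOrderAt g w ≠ 0 := by
        intro h3
        rw [h3] at h1
        simp at h1
      by_contra h3
      exact h2 ((hgan w hwb).analyticOrderAt_eq_zero.2 h3)
    obtain ⟨h1, h2, h3⟩ := div_one hg hB hw hr h0
    have h1an : ∀ z ∈ ball (0 : ℂ) r, AnalyticAt ℂ (dslope g w) z := fun z hz => h1.analyticAt (isOpen_ball.mem_nhds hz)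
    obtain ⟨g', h4, h5, h6⟩ := ih (B := B * (4 / (3 * r))) h1 h3 (fun v hv => hl v (List.mem_cons_of_mem _ hv)) (by
      intro v
      by_cases hv : v ∈ l
      · have hvb : v ∈ ball (0 : ℂ) r := by
          have := hl v (List.mem_cons_of_mem _ hv)
          rw [mem_ball_zero_iff]
          linarith
        have hfun : g = (fun z => z - w) * dslope g w := by
          funext z
          rw [Pi.mul_apply]
          exact h2 z
        have hlin : AnalyticAt ℂ (fun z : ℂ => z - w) v := by fun_prop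
        have h7 : analyticOrderAt g v = analyticOrderAt (fun z : ℂ => z - w) v + analyticOrderAt (dslope g w) v := by
          conv_lhs => rw [hfun]
          exact analyticOrderAt_mul hlin (h1an v hvb)
        have h8 := hord v
        rw [h7] at h8
        by_cases hvw : v = w
        · subst hvw
          rw [List.count_cons_self] at h8
          have h9 : analyticOrderAt (fun z : ℂ => z - v) v = 1 := by
            apply AnalyticAt.analyticOrderAt_eq_one_of_zero_deriv_ne_zero hlin (sub_self v)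
            simp
          rw [h9] at h8
          push_cast at h8
          rw [add_comm] at h8
          exact (ENat.add_le_add_iff_left (by simp)).1 h8
        · rw [List.count_cons_of_ne (Ne.symm hvw)] at h8
          have h9 : analyticOrderAt (fun z : ℂ => z - w) v = 0 := by
            apply hlin.analyticOrderAt_eq_zero.2
            exact sub_ne_zero.2 hvw
          rwa [h9, zero_add] at h8
      · rw [List.count_eq_zero_of_not_mem hv]
        simp)
    refine ⟨g', h4, fun z => ?_, fun z hz => ?_⟩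
    · rw [h2 z, h5 z, List.map_cons, List.prod_cons, mul_assoc]
    · have := h6 z hz
      rw [List.length_cons, pow_succ']
      calc _ ≤ _ := this
        _ = _ := by ring

end Pool.Agent.H17EF

end

section

/-!
# V Up: an entire curve with bounded derivative has order at most two
-/

set_option autoImplicit false

open Topology Filter Metric

namespace Pool.Agent.H14.V

attribute [-instance] ProperSMul.toContinuousSMul

open Pool.Agent.H36.BP (EN fs wd)

variable {N : ℕ}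

theorem norm_le_ofLp (x : EN N) : ‖x‖ ≤ Real.sqrt (N + 1) * ‖x.ofLp‖ := by
  rw [EuclideanSpace.norm_eq]
  have h1 : ∑ i, ‖x i‖ ^ 2 ≤ (N + 1) * ‖x.ofLp‖ ^ 2 := by
    calc ∑ i, ‖x i‖ ^ 2 ≤ ∑ _i : Fin (N + 1), ‖x.ofLp‖ ^ 2 :=
          Finset.sum_le_sum fun i _ => pow_le_pow_left₀ (norm_nonneg _) (norm_le_pi_norm x.ofLp i) 2
      _ = (N + 1) * ‖x.ofLp‖ ^ 2 := by simp
  calc Real.sqrt (∑ i, ‖x i‖ ^ 2) ≤ Real.sqrt ((N + 1) * ‖x.ofLp‖ ^ 2) := Real.sqrt_le_sqrt h1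
    _ = Real.sqrt (N + 1) * ‖x.ofLp‖ := by rw [Real.sqrt_mul (by positivity), Real.sqrt_sq (norm_nonneg _)]

/-- from the maximum norm to the Euclidean norm -/
theorem average_toLp {F : ℂ → Fin (N + 1) → ℂ} (hF : Differentiable ℂ F) (h0 : ∀ z, F z ≠ 0) {A : ℝ}
    (hA : ∀ r : ℝ, 0 < r → Real.circleAverage (fun z => Real.log ‖F z‖) 0 r ≤ A * (1 + r ^ 2)) :
    ∃ A' : ℝ, ∀ r : ℝ, 0 < r → Real.circleAverage (fun z => Real.log ‖(WithLp.toLp 2 (F z) : EN N)‖) 0 r ≤ A' * (1 + r ^ 2) := by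
  obtain ⟨K, hK⟩ : ∃ K : ℝ, K = |Real.log (Real.sqrt (N + 1))| := ⟨_, rfl⟩
  refine ⟨A + K, fun r hr => ?_⟩
  have h0' : ∀ z, (WithLp.toLp 2 (F z) : EN N) ≠ 0 := fun z h => h0 z (WithLp.toLp_injective 2 h)
  have hc : Continuous fun z => (WithLp.toLp 2 (F z) : EN N) := (PiLp.continuous_toLp 2 _).comp hF.continuous
  have h1 : Real.circleAverage (fun z => Real.log ‖(WithLp.toLp 2 (F z) : EN N)‖) 0 r ≤
      Real.circleAverage (fun z => Real.log ‖F z‖ + K) 0 r := by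
    refine Real.circleAverage_mono (hc.norm.log fun z => norm_ne_zero_iff.2 (h0' z)).continuousOn.circleIntegrable'
      ((hF.continuous.norm.log fun z => norm_ne_zero_iff.2 (h0 z)).add continuous_const).continuousOn.circleIntegrable' fun z _ => ?_
    have h2 := norm_le_ofLp (WithLp.toLp 2 (F z) : EN N)
    have h3 : 0 < ‖F z‖ := norm_pos_iff.2 (h0 z)
    have h4 : (0 : ℝ) < Real.sqrt (N + 1) := by positivity
    have h5 := Real.log_le_log (norm_pos_iff.2 (h0' z)) h2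
    rw [Real.log_mul h4.ne' (by simpa using h3.ne')] at h5
    have h6 := le_abs_self (Real.log (Real.sqrt (N + 1)))
    rw [← hK] at h6
    show Real.log ‖(WithLp.toLp 2 (F z) : EN N)‖ ≤ Real.log ‖F z‖ + K
    linarith
  have h2 : Real.circleAverage (fun z => Real.log ‖F z‖ + K) 0 r = Real.circleAverage (fun z => Real.log ‖F z‖) 0 r + K := by
    rw [Real.circleAverage_fun_add (hF.continuous.norm.log fun z => norm_ne_zero_iff.2 (h0 z)).continuousOn.circleIntegrable'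
      (circleIntegrable_const _ _ _), Real.circleAverage_const]
  have h3 := hA r hr
  have h4 : 0 ≤ K * r ^ 2 := by rw [hK]; positivity
  nlinarith

end Pool.Agent.H14.V

end

section

/-!
# EF AffB: entire functions with quadratic mean growth are polynomials of degree at most one

For `k ≥ 2` the `k`-th Taylor coefficient at `0` satisfies (Cauchy's formula) `|a_k| r^k ≤ mean ‖D‖ ≤ (mean ‖D‖²)^(1/2) ≤ (A (1 + r²))^(1/2)`
over the circle of radius `r`; `r → ∞` gives `a_k = 0`.  (Or: `‖deriv (deriv D) z‖ ≤ 2 / r² ⬝ (mean of ‖D‖ over a circle)`, or first show `‖D z‖ ≤ C (1 + ‖z‖)`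
by Poisson / the sub-mean value property: for `‖z‖ ≤ R`, `D z = (2πi)⁻¹ ∮_{‖w‖ = 2R} D w / (w - z) dw`, so `‖D z‖ ≤ 2 mean_{2R} ‖D‖ ≤ C (1 + R)`, and then Liouville for the second
derivative.)
-/

set_option autoImplicit false

open Topology Filter Metric

namespace Pool.Agent.H62.EF

attribute [-instance] ProperSMul.toContinuousSMul

theorem affine_of_mean {D : ℂ → ℂ} (hD : Differentiable ℂ D) {A : ℝ}
    (hA : ∀ r : ℝ, 0 < r → Real.circleAverage (fun z => ‖D z‖ ^ 2) 0 r ≤ A * (1 + r ^ 2)) : ∃ α β : ℂ, ∀ z, D z = α * z + β := by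
  have hp : HasFPowerSeriesOnBall D (cauchyPowerSeries D 0 ((1 : NNReal) : ℝ)) 0 ⊤ :=
    hD.hasFPowerSeriesOnBall (R := 1) 0 one_pos
  set p := cauchyPowerSeries D 0 ((1 : NNReal) : ℝ) with hpdef
  have hcont : Continuous D := hD.continuous
  -- the mean of the norm
  have hmean : ∀ R : ℝ, 1 ≤ R →
      (2 * Real.pi)⁻¹ * ∫ θ : ℝ in (0:ℝ)..2 * Real.pi, ‖D (circleMap 0 R θ)‖ ≤ (|A| + 1) * R := by
    intro R hR
    have h1 := hA R (by linarith)
    rw [Real.circleAverage_def, smul_eq_mul] at h1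
    have hpi : (0:ℝ) < (2 * Real.pi)⁻¹ := by positivity
    have hint1 : IntervalIntegrable (fun θ : ℝ => ‖D (circleMap 0 R θ)‖) MeasureTheory.volume 0 (2 * Real.pi) :=
      (hcont.comp (continuous_circleMap 0 R)).norm.intervalIntegrable _ _
    have hint2 : IntervalIntegrable (fun θ : ℝ => (‖D (circleMap 0 R θ)‖ ^ 2) * (2 * R)⁻¹ + R / 2)
        MeasureTheory.volume 0 (2 * Real.pi) :=
      ((((hcont.comp (continuous_circleMap 0 R)).norm.pow 2).mul continuous_const).add continuous_const).intervalIntegrable _ _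
    have hint3 : IntervalIntegrable (fun θ : ℝ => (‖D (circleMap 0 R θ)‖ ^ 2) * (2 * R)⁻¹)
        MeasureTheory.volume 0 (2 * Real.pi) :=
      (((hcont.comp (continuous_circleMap 0 R)).norm.pow 2).mul continuous_const).intervalIntegrable _ _
    have h2 : ∫ θ : ℝ in (0:ℝ)..2 * Real.pi, ‖D (circleMap 0 R θ)‖ ≤
        ∫ θ : ℝ in (0:ℝ)..2 * Real.pi, ((‖D (circleMap 0 R θ)‖ ^ 2) * (2 * R)⁻¹ + R / 2) := by
      apply intervalIntegral.integral_mono_on (by positivity) hint1 hint2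
      intro θ _
      have hR0 : (0:ℝ) < R := by linarith
      have h3 : (‖D (circleMap 0 R θ)‖ ^ 2) * (2 * R)⁻¹ + R / 2 - ‖D (circleMap 0 R θ)‖ =
          (‖D (circleMap 0 R θ)‖ - R) ^ 2 * (2 * R)⁻¹ := by
        field_simp
        ring
      have h4 : 0 ≤ (‖D (circleMap 0 R θ)‖ - R) ^ 2 * (2 * R)⁻¹ := by positivity
      linarith
    rw [intervalIntegral.integral_add hint3 intervalIntegrable_const, intervalIntegral.integral_mul_const,
      intervalIntegral.integral_const, smul_eq_mul, sub_zero] at h2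
    have h5 : (2 * Real.pi)⁻¹ * ∫ θ : ℝ in (0:ℝ)..2 * Real.pi, ‖D (circleMap 0 R θ)‖ ≤
        ((2 * Real.pi)⁻¹ * ∫ θ : ℝ in (0:ℝ)..2 * Real.pi, ‖D (circleMap 0 R θ)‖ ^ 2) * (2 * R)⁻¹ + R / 2 := by
      calc (2 * Real.pi)⁻¹ * ∫ θ : ℝ in (0:ℝ)..2 * Real.pi, ‖D (circleMap 0 R θ)‖
          ≤ (2 * Real.pi)⁻¹ * ((∫ θ : ℝ in (0:ℝ)..2 * Real.pi, ‖D (circleMap 0 R θ)‖ ^ 2) * (2 * R)⁻¹ +
            2 * Real.pi * (R / 2)) := mul_le_mul_of_nonneg_left h2 hpi.le
        _ = _ := by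
          have : Real.pi ≠ 0 := Real.pi_ne_zero
          field_simp
    have hR0 : (0:ℝ) < R := by linarith
    have h6 : ((2 * Real.pi)⁻¹ * ∫ θ : ℝ in (0:ℝ)..2 * Real.pi, ‖D (circleMap 0 R θ)‖ ^ 2) * (2 * R)⁻¹ ≤
        |A| * R := by
      have h7 : ((2 * Real.pi)⁻¹ * ∫ θ : ℝ in (0:ℝ)..2 * Real.pi, ‖D (circleMap 0 R θ)‖ ^ 2) * (2 * R)⁻¹ ≤
          (A * (1 + R ^ 2)) * (2 * R)⁻¹ := mul_le_mul_of_nonneg_right h1 (by positivity)
      have h8 : (A * (1 + R ^ 2)) * (2 * R)⁻¹ ≤ (|A| * (2 * R ^ 2)) * (2 * R)⁻¹ := by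
        apply mul_le_mul_of_nonneg_right _ (by positivity)
        have h9 : (1:ℝ) + R ^ 2 ≤ 2 * R ^ 2 := by nlinarith
        calc A * (1 + R ^ 2) ≤ |A| * (1 + R ^ 2) := mul_le_mul_of_nonneg_right (le_abs_self A) (by positivity)
          _ ≤ |A| * (2 * R ^ 2) := mul_le_mul_of_nonneg_left h9 (abs_nonneg A)
      have h10 : (|A| * (2 * R ^ 2)) * (2 * R)⁻¹ = |A| * R := by
        field_simp
      linarith
    nlinarith
  have hzero : ∀ k : ℕ, 2 ≤ k → p k = 0 := by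
    intro k hk
    have hbd : ∀ R : ℝ, 1 ≤ R → ‖p k‖ ≤ (|A| + 1) / R := by
      intro R hR
      have hR0 : (0:ℝ) < R := by linarith
      have hq : HasFPowerSeriesOnBall D (cauchyPowerSeries D 0 ((⟨R, hR0.le⟩ : NNReal) : ℝ)) 0 ⊤ :=
        hD.hasFPowerSeriesOnBall (R := ⟨R, hR0.le⟩) 0 hR0
      have heq : p = cauchyPowerSeries D 0 R :=
        hp.hasFPowerSeriesAt.eq_formalMultilinearSeries hq.hasFPowerSeriesAt
      rw [heq]
      refine (norm_cauchyPowerSeries_le D 0 R k).trans ?_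
      have h1 := hmean R hR
      have h2 : |R|⁻¹ ^ k ≤ (R⁻¹) ^ 2 := by
        rw [abs_of_pos hR0]
        exact pow_le_pow_of_le_one (by positivity) (inv_le_one_of_one_le₀ hR) hk
      have h3 : (0:ℝ) ≤ (|A| + 1) * R := by positivity
      calc _ ≤ ((|A| + 1) * R) * (R⁻¹) ^ 2 := by
            apply mul_le_mul h1 h2 (by positivity) h3
        _ = (|A| + 1) / R := by field_simp
    have h0 : ‖p k‖ ≤ 0 := by
      have ht : Tendsto (fun R : ℝ => (|A| + 1) / R) atTop (𝓝 0) := tendsto_const_nhds.div_atTop tendsto_id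
      exact ge_of_tendsto ht ((eventually_ge_atTop 1).mono fun R hR => hbd R hR)
    exact norm_le_zero_iff.mp h0
  refine ⟨p 1 (fun _ => 1), p 0 (fun _ => 0), fun z => ?_⟩
  have hs := hp.hasSum (y := z) (by simp)
  rw [zero_add] at hs
  have hs2 : HasSum (fun n : ℕ => p n fun _ => z) (∑ n ∈ Finset.range 2, p n fun _ => z) := by
    apply hasSum_sum_of_ne_finset_zero
    intro n hn
    have : 2 ≤ n := by
      rw [Finset.mem_range, not_lt] at hn
      exact hn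
    rw [hzero n this]
    rfl
  rw [hs.unique hs2, Finset.sum_range_succ, Finset.sum_range_one]
  have h1 : (p 1 fun _ => z) = p 1 (fun _ => 1) * z := by
    have := (p 1).map_smul_univ (fun _ => z) (fun _ => (1:ℂ))
    simp only [smul_eq_mul, mul_one, Finset.prod_const, Finset.card_univ, Fintype.card_fin, pow_one] at this
    rw [this]; ring
  have h0 : (p 0 fun _ => z) = p 0 (fun _ => 0) := by
    congr 1
    ext i
    exact i.elim0
  rw [h1, h0]
  ring

end Pool.Agent.H62.EF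

end

section

/-!
# EF ChEx: charts from germ-level charts

The proof of `Pool.Agent.H36.BP.exists_chart` (`H36/BP/GermChart.lean`) without the sets `T` and `K` (copy it and leave out everything about `T`, `K`).
-/

set_option autoImplicit false

open Topology Filter Metric

namespace Pool.Agent.H62.EF

attribute [-instance] ProperSMul.toContinuousSMul

open Pool.Agent.H36.BP (EN IsGermChart)
open Pool.Agent.H14.PP (IsCone Chart)

variable {N : ℕ}

theorem exists_chart_of_germ {X : Set (EN N)} (hX : IsCone X) {σ : ℂ × ℂ → EN N} {τ : EN N → ℂ × ℂ} (h : IsGermChart X σ τ) :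
    ∃ χ : Chart X, σ 0 ∈ χ.U ∧ χ.q (σ 0) = 0 := by
  have hσ0 : σ 0 ≠ 0 := by
    intro h0
    have h1 := h.σ_mem.self_of_nhds
    rw [h0] at h1
    exact hX.zero_notMem h1
  -- the linear form
  obtain ⟨ℓ, hℓ⟩ : ∃ ℓ : EN N →L[ℂ] ℂ, ℓ (σ 0) = 1 := by
    have hne : inner ℂ (σ 0) (σ 0) ≠ (0 : ℂ) := inner_self_ne_zero.mpr hσ0
    refine ⟨(inner ℂ (σ 0) (σ 0) : ℂ)⁻¹ • innerSL ℂ (σ 0), ?_⟩
    simp only [_root_.smul_apply, innerSL_apply_apply, smul_eq_mul]
    exact inv_mul_cancel₀ hne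
  -- the normalised parametrisation
  have hℓσ : ContinuousAt (fun p => ℓ (σ p)) 0 := ℓ.continuous.continuousAt.comp h.σ_an.continuousAt
  have hℓne : ∀ᶠ p in 𝓝 (0 : ℂ × ℂ), ℓ (σ p) ≠ 0 := hℓσ.eventually_ne (by rw [hℓ]; exact one_ne_zero)
  have hinvσ : ∀ᶠ p in 𝓝 (0 : ℂ × ℂ), τ ((ℓ (σ p))⁻¹ • σ p) = τ (σ p) := by
    have hc : Tendsto (fun p => (σ p, (ℓ (σ p))⁻¹)) (𝓝 (0 : ℂ × ℂ)) (𝓝 (σ 0, (1 : ℂ))) := by
      have h1 : Tendsto (fun p => (ℓ (σ p))⁻¹) (𝓝 (0 : ℂ × ℂ)) (𝓝 (ℓ (σ 0))⁻¹) := hℓσ.inv₀ (by rw [hℓ]; exact one_ne_zero)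
      rw [hℓ, inv_one] at h1
      exact h.σ_an.continuousAt.prodMk_nhds h1
    exact hc.eventually h.inv
  -- the neighbourhood W₀
  have hW : ∀ᶠ y in 𝓝 (σ 0), AnalyticAt ℂ τ y ∧ (y ∈ X → ∃ c : ℂ, c ≠ 0 ∧ y = c • σ (τ y)) := h.τ_an.eventually_analyticAt.and h.right
  obtain ⟨W₀, hW₀s, hW₀o, hW₀m⟩ := _root_.eventually_nhds_iff.mp hW
  have hσ₁ : Tendsto (fun p => (ℓ (σ p))⁻¹ • σ p) (𝓝 (0 : ℂ × ℂ)) (𝓝 (σ 0)) := by
    have h1 : Tendsto (fun p => (ℓ (σ p))⁻¹) (𝓝 (0 : ℂ × ℂ)) (𝓝 (ℓ (σ 0))⁻¹) := hℓσ.inv₀ (by rw [hℓ]; exact one_ne_zero)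
    have h2 := h1.smul h.σ_an.continuousAt
    rwa [hℓ, inv_one, one_smul] at h2
  have hσ₁W : ∀ᶠ p in 𝓝 (0 : ℂ × ℂ), (ℓ (σ p))⁻¹ • σ p ∈ W₀ := hσ₁.eventually (hW₀o.mem_nhds hW₀m)
  obtain ⟨R, hR, hall⟩ := Metric.eventually_nhds_iff_ball.mp
    (((((h.σ_an.eventually_analyticAt.and h.σ_mem).and h.left).and hℓne).and hinvσ).and hσ₁W)
  set r : ℝ := R / 2 with hr
  have hr0 : 0 < r := by rw [hr]; positivity
  have hrC : (r : ℂ) ≠ 0 := by exact_mod_cast hr0.ne'
  have hball : ∀ p ∈ ball (0 : ℂ × ℂ) 2, (r : ℂ) • p ∈ ball (0 : ℂ × ℂ) R := by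
    intro p hp
    rw [mem_ball_zero_iff] at hp ⊢
    rw [norm_smul, Complex.norm_real, Real.norm_of_nonneg hr0.le, hr]
    nlinarith
  have hτσ : ∀ p ∈ ball (0 : ℂ × ℂ) R, τ ((ℓ (σ p))⁻¹ • σ p) = p := by
    intro p hp
    rw [(hall p hp).1.2, (hall p hp).1.1.1.2]
  set U : Set (EN N) := {x | ℓ x ≠ 0 ∧ (ℓ x)⁻¹ • x ∈ W₀ ∧ ‖τ ((ℓ x)⁻¹ • x)‖ < R} with hU
  have hmaps : ∀ x : EN N, ℓ x ≠ 0 → ∀ c : ℂ, c ≠ 0 → (ℓ (c • x))⁻¹ • (c • x) = (ℓ x)⁻¹ • x := by
    intro x hx c hc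
    rw [map_smul, smul_eq_mul, smul_smul, mul_inv, mul_comm c⁻¹, mul_assoc, inv_mul_cancel₀ hc, mul_one]
  have han1 : ∀ x : EN N, ℓ x ≠ 0 → AnalyticAt ℂ (fun y : EN N => (ℓ y)⁻¹ • y) x := by
    intro x hx
    exact ((ℓ.analyticAt x).inv hx).smul analyticAt_id
  have hanq : ∀ x ∈ U, AnalyticAt ℂ (fun y : EN N => τ ((ℓ y)⁻¹ • y)) x := by
    intro x hx
    exact AnalyticAt.fun_comp (hW₀s _ hx.2.1).1 (han1 x hx.1)
  have hUopen : IsOpen U := by
    rw [isOpen_iff_mem_nhds]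
    intro x hx
    have h1 : ∀ᶠ y in 𝓝 x, ℓ y ≠ 0 := ℓ.continuous.continuousAt.eventually_ne hx.1
    have h2 : ∀ᶠ y in 𝓝 x, (ℓ y)⁻¹ • y ∈ W₀ := (han1 x hx.1).continuousAt.eventually (hW₀o.mem_nhds hx.2.1)
    have h3 : ∀ᶠ y in 𝓝 x, ‖τ ((ℓ y)⁻¹ • y)‖ < R := (hanq x hx).continuousAt.norm.eventually_lt_const hx.2.2
    filter_upwards [h1, h2, h3] with y h4 h5 h6
    exact ⟨h4, h5, h6⟩
  let χ : Chart X :=
    { σ := fun p => (ℓ (σ ((r : ℂ) • p)))⁻¹ • σ ((r : ℂ) • p)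
      U := U
      q := fun x => (r : ℂ)⁻¹ • τ ((ℓ x)⁻¹ • x)
      isOpen_U := hUopen
      smul_U := by
        rintro x ⟨h1, h2, h3⟩ c hc
        refine ⟨?_, ?_, ?_⟩
        · rw [map_smul, smul_eq_mul]
          exact mul_ne_zero hc h1
        · rw [hmaps x h1 c hc]; exact h2
        · rw [hmaps x h1 c hc]; exact h3
      σ_an := by
        intro p hp
        have h1 := (hall _ (hball p hp)).1.1.1.1.1
        have h2 : AnalyticAt ℂ (fun p : ℂ × ℂ => σ ((r : ℂ) • p)) p :=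
          AnalyticAt.fun_comp h1 (analyticAt_const.fun_smul analyticAt_id)
        have h3 : AnalyticAt ℂ (fun p : ℂ × ℂ => ℓ (σ ((r : ℂ) • p))) p := (ℓ.analyticAt _).fun_comp h2
        exact (h3.inv (hall _ (hball p hp)).1.1.2).smul h2
      q_an := by
        intro x hx
        exact analyticAt_const.fun_smul (hanq x hx)
      q_smul := by
        rintro x ⟨h1, h2, h3⟩ c hc
        show (r : ℂ)⁻¹ • τ ((ℓ (c • x))⁻¹ • (c • x)) = _
        rw [hmaps x h1 c hc]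
      σ_mem := by
        intro p hp
        have hb := hball p hp
        have hh := hall _ hb
        have hne := hh.1.1.2
        have h1 : ℓ ((ℓ (σ ((r : ℂ) • p)))⁻¹ • σ ((r : ℂ) • p)) = 1 := by
          rw [map_smul, smul_eq_mul, inv_mul_cancel₀ hne]
        have h2 : τ ((ℓ (σ ((r : ℂ) • p)))⁻¹ • σ ((r : ℂ) • p)) = (r : ℂ) • p := hτσ _ hb
        refine ⟨hX.smul_mem _ hh.1.1.1.1.2 _ (inv_ne_zero hne), ⟨?_, ?_, ?_⟩, ?_⟩
        · rw [h1]; exact one_ne_zero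
        · rw [h1, inv_one, one_smul]; exact hh.2
        · rw [h1, inv_one, one_smul, h2]
          exact mem_ball_zero_iff.mp hb
        · show (r : ℂ)⁻¹ • τ ((ℓ ((ℓ (σ ((r : ℂ) • p)))⁻¹ • σ ((r : ℂ) • p)))⁻¹ • ((ℓ (σ ((r : ℂ) • p)))⁻¹ • σ ((r : ℂ) • p))) = p
          rw [h1, inv_one, one_smul, h2, smul_smul, inv_mul_cancel₀ hrC, one_smul]
      surj := by
        rintro x hxX ⟨h1, h2, h3⟩
        have hyX : (ℓ x)⁻¹ • x ∈ X := hX.smul_mem _ hxX _ (inv_ne_zero h1)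
        obtain ⟨c, hc0, hc⟩ := (hW₀s _ h2).2 hyX
        have hτb : τ ((ℓ x)⁻¹ • x) ∈ ball (0 : ℂ × ℂ) R := mem_ball_zero_iff.mpr h3
        have hrq : (r : ℂ) • ((r : ℂ)⁻¹ • τ ((ℓ x)⁻¹ • x)) = τ ((ℓ x)⁻¹ • x) := by
          rw [smul_smul, mul_inv_cancel₀ hrC, one_smul]
        refine ⟨?_, ?_⟩
        · show (r : ℂ)⁻¹ • τ ((ℓ x)⁻¹ • x) ∈ ball (0 : ℂ × ℂ) 2
          rw [mem_ball_zero_iff, norm_smul, norm_inv, Complex.norm_real, Real.norm_of_nonneg hr0.le, inv_mul_lt_iff₀ hr0, hr]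
          linarith
        · refine ⟨ℓ x * c * ℓ (σ (τ ((ℓ x)⁻¹ • x))), ?_, ?_⟩
          · exact mul_ne_zero (mul_ne_zero h1 hc0) (hall _ hτb).1.1.2
          · show x = (ℓ x * c * ℓ (σ (τ ((ℓ x)⁻¹ • x)))) •
              ((ℓ (σ ((r : ℂ) • ((r : ℂ)⁻¹ • τ ((ℓ x)⁻¹ • x)))))⁻¹ • σ ((r : ℂ) • ((r : ℂ)⁻¹ • τ ((ℓ x)⁻¹ • x))))
            rw [hrq, smul_smul, mul_assoc, mul_inv_cancel₀ (hall _ hτb).1.1.2, mul_one, mul_smul, ← hc, smul_smul, mul_inv_cancel₀ h1, one_smul] }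
  have h0b : (0 : ℂ × ℂ) ∈ ball (0 : ℂ × ℂ) R := mem_ball_self hR
  have hτ0 : τ (σ 0) = 0 := (hall 0 h0b).1.1.1.2
  refine ⟨χ, ⟨?_, ?_, ?_⟩, ?_⟩
  · rw [hℓ]; exact one_ne_zero
  · rw [hℓ, inv_one, one_smul]; exact hW₀m
  · rw [hℓ, inv_one, one_smul, hτ0, norm_zero]; exact hR
  · show (r : ℂ)⁻¹ • τ ((ℓ (σ 0))⁻¹ • σ 0) = 0
    rw [hℓ, inv_one, one_smul, hτ0, smul_zero]

end Pool.Agent.H62.EF

end

section

/-!
# EF MaxI: a maximum principle

`Φ z = h z * ⟨Fh z₀, Fh z⟩ * exp (-2 κ conj (z₀ - c) (z - z₀))` is holomorphic on `ball z₀ r`.  Maximum principle on `closedBall z₀ r₀`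
(`Complex.exists_mem_frontier_isMaxOn_norm`): there is `z` with `‖z - z₀‖ = r₀` and `‖Φ z₀‖ ≤ ‖Φ z‖`.  Here `‖Φ z₀‖ = ‖h z₀‖ ‖Fh z₀‖²`, and
`‖Φ z‖ ≤ ‖h z‖ γ ‖Fh z₀‖ ‖Fh z‖ exp (-2 κ Re (conj (z₀ - c) (z - z₀)))`; multiply by `exp (-κ ‖z₀ - c‖²) / ‖Fh z₀‖` and use
`‖z - c‖² = ‖z₀ - c‖² + 2 Re (conj (z₀ - c) (z - z₀)) + r₀²`.
-/

set_option autoImplicit false

open Topology Filter Metric

namespace Pool.Agent.H62.EF

attribute [-instance] ProperSMul.toContinuousSMul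

open Pool.Agent.H36.BP (EN fs wd)

variable {N : ℕ}

theorem max_ineq {h : ℂ → ℂ} {Fh : ℂ → EN N} {z₀ : ℂ} {r₀ r : ℝ} (hr₀ : 0 < r₀) (hr : r₀ < r)
    (hh : DifferentiableOn ℂ h (ball z₀ r)) (hFh : DifferentiableOn ℂ Fh (ball z₀ r)) (h0 : Fh z₀ ≠ 0) {γ : ℝ}
    (hγ : ∀ z ∈ sphere z₀ r₀, ‖inner ℂ (Fh z₀) (Fh z)‖ ≤ γ * (‖Fh z₀‖ * ‖Fh z‖)) (κ : ℝ) (c : ℂ) :
    ∃ z ∈ sphere z₀ r₀, ‖h z₀‖ * ‖Fh z₀‖ * Real.exp (-κ * ‖z₀ - c‖ ^ 2) ≤
      Real.exp (κ * r₀ ^ 2) * γ * (‖h z‖ * ‖Fh z‖ * Real.exp (-κ * ‖z - c‖ ^ 2)) := by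
  set a : ℂ := (starRingEnd ℂ) (z₀ - c) with ha
  set Φ : ℂ → ℂ := fun z => h z * inner ℂ (Fh z₀) (Fh z) * Complex.exp (-(2 * (κ : ℂ)) * a * (z - z₀)) with hΦ
  have hsub : closedBall z₀ r₀ ⊆ ball z₀ r := closedBall_subset_ball hr
  have hd : DifferentiableOn ℂ Φ (closedBall z₀ r₀) := by
    have h1 : DifferentiableOn ℂ h (closedBall z₀ r₀) := hh.mono hsub
    have h2 : DifferentiableOn ℂ (fun z => (innerSL ℂ (Fh z₀)) (Fh z)) (closedBall z₀ r₀) :=
      (innerSL ℂ (Fh z₀)).differentiable.comp_differentiableOn (hFh.mono hsub)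
    have h3 : DifferentiableOn ℂ (fun z : ℂ => Complex.exp (-(2 * (κ : ℂ)) * a * (z - z₀))) (closedBall z₀ r₀) := by
      apply Differentiable.differentiableOn
      fun_prop
    exact (h1.mul h2).mul h3
  have hcl : DiffContOnCl ℂ Φ (ball z₀ r₀) := by
    apply DifferentiableOn.diffContOnCl
    rw [closure_ball z₀ hr₀.ne']
    exact hd
  obtain ⟨z, hz, hmax⟩ := Complex.exists_mem_frontier_isMaxOn_norm isBounded_ball (nonempty_ball.2 hr₀) hcl
  rw [frontier_ball z₀ hr₀.ne'] at hz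
  have hzr : ‖z - z₀‖ = r₀ := by rw [← dist_eq_norm]; exact hz
  have hle : ‖Φ z₀‖ ≤ ‖Φ z‖ := by
    have h0m : z₀ ∈ closure (ball z₀ r₀) := subset_closure (mem_ball_self hr₀)
    exact hmax h0m
  refine ⟨z, hz, ?_⟩
  set R : ℝ := (a * (z - z₀)).re with hR
  have e0 : ‖Φ z₀‖ = ‖h z₀‖ * ‖Fh z₀‖ ^ 2 := by
    simp only [hΦ, sub_self, mul_zero, Complex.exp_zero, mul_one, norm_mul]
    rw [inner_self_eq_norm_sq_to_K]
    simp
  have e1 : ‖Φ z‖ = ‖h z‖ * ‖inner ℂ (Fh z₀) (Fh z)‖ * Real.exp (-(2 * κ) * R) := by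
    simp only [hΦ, norm_mul, Complex.norm_exp]
    congr 2
    have : -(2 * (κ : ℂ)) * a * (z - z₀) = ((-(2 * κ) : ℝ) : ℂ) * (a * (z - z₀)) := by
      push_cast
      ring
    rw [this, Complex.re_ofReal_mul]
  have hq : ‖z - c‖ ^ 2 = ‖z₀ - c‖ ^ 2 + 2 * R + r₀ ^ 2 := by
    rw [← hzr, hR, ha]
    rw [← Complex.normSq_eq_norm_sq, ← Complex.normSq_eq_norm_sq, ← Complex.normSq_eq_norm_sq]
    simp only [Complex.normSq_apply, Complex.sub_re, Complex.sub_im, Complex.mul_re, map_sub, Complex.conj_re,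
      Complex.conj_im]
    ring
  have hF : 0 < ‖Fh z₀‖ := norm_pos_iff.2 h0
  have hg := hγ z hz
  have key : ‖h z₀‖ * ‖Fh z₀‖ ≤ ‖h z‖ * (γ * ‖Fh z‖) * Real.exp (-(2 * κ) * R) := by
    have h1 : ‖h z₀‖ * ‖Fh z₀‖ ^ 2 ≤ ‖h z‖ * (γ * (‖Fh z₀‖ * ‖Fh z‖)) * Real.exp (-(2 * κ) * R) := by
      rw [← e0]
      refine hle.trans ?_
      rw [e1]
      gcongr
    have h2 : (‖h z₀‖ * ‖Fh z₀‖) * ‖Fh z₀‖ ≤ (‖h z‖ * (γ * ‖Fh z‖) * Real.exp (-(2 * κ) * R)) * ‖Fh z₀‖ := by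
      calc (‖h z₀‖ * ‖Fh z₀‖) * ‖Fh z₀‖ = ‖h z₀‖ * ‖Fh z₀‖ ^ 2 := by ring
        _ ≤ _ := h1
        _ = _ := by ring
    exact le_of_mul_le_mul_right h2 hF
  have hE : Real.exp (-(2 * κ) * R) * Real.exp (-κ * ‖z₀ - c‖ ^ 2) =
      Real.exp (κ * r₀ ^ 2) * Real.exp (-κ * ‖z - c‖ ^ 2) := by
    rw [← Real.exp_add, ← Real.exp_add, hq]
    congr 1
    ring
  calc ‖h z₀‖ * ‖Fh z₀‖ * Real.exp (-κ * ‖z₀ - c‖ ^ 2)
      ≤ ‖h z‖ * (γ * ‖Fh z‖) * Real.exp (-(2 * κ) * R) * Real.exp (-κ * ‖z₀ - c‖ ^ 2) :=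
        mul_le_mul_of_nonneg_right key (Real.exp_pos _).le
    _ = ‖h z‖ * (γ * ‖Fh z‖) * (Real.exp (-(2 * κ) * R) * Real.exp (-κ * ‖z₀ - c‖ ^ 2)) := by ring
    _ = Real.exp (κ * r₀ ^ 2) * γ * (‖h z‖ * ‖Fh z‖ * Real.exp (-κ * ‖z - c‖ ^ 2)) := by
        rw [hE]
        ring

end Pool.Agent.H62.EF

end

section

open MvPolynomial
open Pool.Agent.H17GT (coordFun functionField)

noncomputable section

namespace Pool.Agent.H62.FC

attribute [-instance] ProperSMul.toContinuousSMul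

variable {N : ℕ} {O : Finset (Fin (N + 1))} {P : Ideal (MvPolynomial (Fin (N + 1)) ℂ)}

end Pool.Agent.H62.FC

end
end

section

/-!
# Fermat covers: the components
-/

open MvPolynomial Topology Filter
open Pool.Agent.H17 (PN VanishesAt ZariskiClosedIn HolomorphicInto puncturedDisc PseudoBrodyHyperbolic PseudoPicardHyperbolic)
open Pool.Agent.H17GT (coordFun functionField)
open Pool.Agent.H17LG.Variety (FunField)

noncomputable section

namespace Pool.Agent.H62.FC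

attribute [-instance] ProperSMul.toContinuousSMul

variable {N : ℕ} {κ : Type} {A : κ → MvPolynomial (Fin (N + 1)) ℂ} {e : κ → ℕ}
  {O : Finset (Fin (N + 1))} {P : Ideal (MvPolynomial (Fin (N + 1)) ℂ)}

/-- The union of the images of the non-constant holomorphic maps `ℂ → X`. -/
def entireCurves (X : Set (PN N)) : Set (PN N) :=
  {x | ∃ f : ℂ → PN N, HolomorphicInto f Set.univ ∧ (∀ z, f z ∈ X) ∧ (∃ z w, f z ≠ f w) ∧
    ∃ z, f z = x}

/-- A variety of positive dimension has a non-zero coordinate. -/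
lemma exists_X_notMem [P.IsPrime] {r : ℕ} (hr : 1 ≤ r)
    (hz : ∃ z : Fin r → FunField P, IsTranscendenceBasis ℂ z) : ∃ i, X i ∉ P := by
  by_contra hcon
  push Not at hcon
  obtain ⟨z, hz⟩ := hz
  have h1 : functionField P = ⊥ := by
    rw [functionField, IntermediateField.adjoin_eq_bot_iff]
    rintro f ⟨i, j, rfl⟩
    have h2 : coordFun P i = 0 := by
      rw [coordFun, Ideal.Quotient.eq_zero_iff_mem.mpr (hcon i), map_zero]
    rw [h2, zero_div]
    exact zero_mem _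
  have h2 : Transcendental ℂ (z ⟨0, hr⟩) := by
    have := hz.1.transcendental ⟨0, hr⟩
    exact this
  apply h2
  set y : functionField P := z ⟨0, hr⟩ with hy
  have h3 : (y : FractionRing (MvPolynomial (Fin (N + 1)) ℂ ⧸ P)) ∈
      (⊥ : IntermediateField ℂ (FractionRing (MvPolynomial (Fin (N + 1)) ℂ ⧸ P))) := by
    rw [← h1]
    exact y.2
  obtain ⟨c, hc⟩ := IntermediateField.mem_bot.mp h3
  have h4 : y = algebraMap ℂ (functionField P) c := Subtype.ext hc.symm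
  have h5 : IsAlgebraic ℂ y := by
    rw [h4]
    exact isAlgebraic_algebraMap c
  exact h5

end Pool.Agent.H62.FC

end
end

section

/-!
# TH Bas: basic properties of symmetric differentials

`tC θ χ` is the expression of `θ` in the chart `χ`; `SymDiff.curve` is the value of `θ` on the derivative of a curve, `SymDiff.lift_eq` says
that it does not depend on the lift, `SymDiff.curve_an` that it is holomorphic, and `SymDiff.bound` compares `θ` with the metric `fs`.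
-/

set_option autoImplicit false

open Topology Filter Metric

namespace Pool.Agent.H92.TH

attribute [-instance] ProperSMul.toContinuousSMul

open Pool.Agent.H36.BP (EN fs wd)
open Pool.Agent.H14.PP (IsCone Chart Form Tan CurveAt)

variable {N : ℕ} {X : Set (EN N)} {m : ℕ}

theorem tan_smul (hX : IsCone X) {x v : EN N} (h : Tan X x v) {c : ℂ} (hc : c ≠ 0) : Tan X (c • x) (c • v) := by
  obtain ⟨F, ⟨hF, hFX⟩, h0, hd⟩ := h
  have hcF : AnalyticAt ℂ (fun z => c • F z) 0 := by fun_prop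
  refine ⟨fun z => c • F z, ⟨hcF, ?_⟩, ?_, ?_⟩
  · filter_upwards [hFX] with z hz
    exact hX.smul_mem _ hz c hc
  · simp only [h0]
  · have h1 := hF.differentiableAt.hasDerivAt.const_smul c
    have h2 : deriv (fun z => c • F z) 0 = c • deriv F 0 := h1.deriv
    rw [h2, hd]

end Pool.Agent.H92.TH

end
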