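import Pool.Agent.H94.CB.M41
import Pool.Agent.H94.CB.M47
import Pool.Agent.H94.CB.M58

/-! The parts of this file: H36.BP.Nodal, H14.KB.KobNodal, H36.BPL.NodalK, H36.BPL.Wrap. -/

section

/-!
# BP Nodal: the nodal theorem for surfaces in `ℙ(V)`

Transport of the metric theorem and of `picard_cone` along a linear isomorphism `V ≃ EN N`.
-/

set_option autoImplicit false

namespace Pool.Agent.H36.BP

attribute [-instance] ProperSMul.toContinuousSMul

open Filter Topology Metric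

open Pool.Agent.H17 (PN HolomorphicInto puncturedDisc)
open Pool.Agent.H17BP (Surface IsChart IsForm NoZeros NodalAt)

variable {V : Type} [NormedAddCommGroup V] [NormedSpace ℂ V] {N : ℕ}

/-- holomorphic maps into the projective space of `V` -/
def HolInto (f : ℂ → Projectivization ℂ V) (U : Set ℂ) : Prop :=
  ∀ z₀ ∈ U, ∃ φ : ℂ → V, AnalyticAt ℂ φ z₀ ∧ ∀ᶠ z in 𝓝 z₀, ∃ h : φ z ≠ 0, f z = Projectivization.mk ℂ (φ z) h

/-- the point of `ℙ^N` of a point of `ℙ(V)` -/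
noncomputable def toPN (L : V ≃L[ℂ] EN N) (p : Projectivization ℂ V) : PN N :=
  Projectivization.mk ℂ (L p.rep).ofLp (ofLp_ne_zero fun h => p.rep_nonzero (L.map_eq_zero_iff.mp h))

/-- the point of `ℙ(V)` of a point of `ℙ^N` -/
noncomputable def ofPN (L : V ≃L[ℂ] EN N) (p : PN N) : Projectivization ℂ V :=
  Projectivization.mk ℂ (L.symm (WithLp.toLp 2 p.rep)) (by
    intro h
    have h1 := L.symm.map_eq_zero_iff.mp h
    exact p.rep_nonzero (congrArg WithLp.ofLp h1))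

theorem rep_mk {x : V} (hx : x ≠ 0) : ∃ a : ℂ, a ≠ 0 ∧ (Projectivization.mk ℂ x hx).rep = a • x := by
  obtain ⟨a, ha⟩ := Projectivization.exists_smul_eq_mk_rep ℂ x hx
  exact ⟨a, a.ne_zero, by rw [← ha]; rfl⟩

theorem toPN_mk (L : V ≃L[ℂ] EN N) {x : V} (hx : x ≠ 0) (h : (L x).ofLp ≠ 0) :
    toPN L (Projectivization.mk ℂ x hx) = Projectivization.mk ℂ (L x).ofLp h := by
  obtain ⟨a, ha, h1⟩ := rep_mk hx
  unfold toPN
  rw [Projectivization.mk_eq_mk_iff']
  refine ⟨a, ?_⟩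
  rw [h1, map_smul]
  rfl

theorem ofPN_mk (L : V ≃L[ℂ] EN N) {x : Fin (N + 1) → ℂ} (hx : x ≠ 0) (h : L.symm (WithLp.toLp 2 x) ≠ 0) :
    ofPN L (Projectivization.mk ℂ x hx) = Projectivization.mk ℂ (L.symm (WithLp.toLp 2 x)) h := by
  obtain ⟨a, ha, h1⟩ := rep_mk hx
  unfold ofPN
  rw [Projectivization.mk_eq_mk_iff']
  refine ⟨a, ?_⟩
  rw [h1, WithLp.toLp_smul, map_smul]

theorem ofPN_toPN (L : V ≃L[ℂ] EN N) (p : Projectivization ℂ V) : ofPN L (toPN L p) = p := by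
  have h0 : (L p.rep).ofLp ≠ 0 := ofLp_ne_zero fun h => p.rep_nonzero (L.map_eq_zero_iff.mp h)
  have h1 : L.symm (WithLp.toLp 2 (L p.rep).ofLp) = p.rep := by
    rw [WithLp.toLp_ofLp, L.symm_apply_apply]
  have h2 : toPN L p = Projectivization.mk ℂ (L p.rep).ofLp h0 := rfl
  rw [h2, ofPN_mk L h0 (by rw [h1]; exact p.rep_nonzero)]
  conv_rhs => rw [← Projectivization.mk_rep p]
  congr 1

theorem holomorphicInto_toPN (L : V ≃L[ℂ] EN N) {f : ℂ → Projectivization ℂ V} {U : Set ℂ} (hf : HolInto f U) :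
    HolomorphicInto (fun z => toPN L (f z)) U := by
  intro z₀ hz₀
  obtain ⟨φ, hφ, he⟩ := hf z₀ hz₀
  refine ⟨fun z => (L (φ z)).ofLp, analyticAt_ofLp (((L : V →L[ℂ] EN N).analyticAt _).comp hφ), ?_⟩
  filter_upwards [he] with z hz
  obtain ⟨h1, h2⟩ := hz
  have h3 : (L (φ z)).ofLp ≠ 0 := ofLp_ne_zero fun h => h1 (L.map_eq_zero_iff.mp h)
  exact ⟨h3, by rw [h2, toPN_mk L h1 h3]⟩

theorem holInto_ofPN (L : V ≃L[ℂ] EN N) {g : ℂ → PN N} {U : Set ℂ} (hg : HolomorphicInto g U) :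
    HolInto (fun z => ofPN L (g z)) U := by
  intro z₀ hz₀
  obtain ⟨φ, hφ, he⟩ := hg z₀ hz₀
  refine ⟨fun z => L.symm (WithLp.toLp 2 (φ z)), ((L.symm : EN N →L[ℂ] V).analyticAt _).comp (analyticAt_toLp hφ), ?_⟩
  filter_upwards [he] with z hz
  obtain ⟨h1, h2⟩ := hz
  have h3 : L.symm (WithLp.toLp 2 (φ z)) ≠ 0 := by
    intro h
    exact h1 (congrArg WithLp.ofLp (L.symm.map_eq_zero_iff.mp h))
  exact ⟨h3, by rw [h2, ofPN_mk L h1 h3]⟩

theorem toPN_mem (L : V ≃L[ℂ] EN N) {X : Set V} (hX : ∀ x ∈ X, ∀ c : ℂ, c ≠ 0 → c • x ∈ X) (p : Projectivization ℂ V) :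
    (WithLp.toLp 2 (toPN L p).rep : EN N) ∈ (L.symm ⁻¹' X : Set (EN N)) ↔ p.rep ∈ X := by
  have h0 : (L p.rep).ofLp ≠ 0 := ofLp_ne_zero fun h => p.rep_nonzero (L.map_eq_zero_iff.mp h)
  obtain ⟨a, ha, h1⟩ := rep_mk (V := Fin (N + 1) → ℂ) h0
  have h2 : (toPN L p).rep = a • (L p.rep).ofLp := h1
  have h3 : L.symm (WithLp.toLp 2 (toPN L p).rep) = a • p.rep := by
    rw [h2, WithLp.toLp_smul, WithLp.toLp_ofLp, map_smul, L.symm_apply_apply]
  show L.symm (WithLp.toLp 2 (toPN L p).rep) ∈ X ↔ p.rep ∈ X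
  rw [h3]
  constructor
  · intro h
    have h4 := hX _ h a⁻¹ (inv_ne_zero ha)
    rwa [smul_smul, inv_mul_cancel₀ ha, one_smul] at h4
  · intro h
    exact hX _ h a ha

/-! ### transport of the surface -/

theorem isCone_transport (L : V ≃L[ℂ] EN N) {X : Set V} (hX : Surface X) : Pool.Agent.H14.PP.IsCone (L.symm ⁻¹' X : Set (EN N)) := by
  refine ⟨?_, ?_, ?_⟩
  · show L.symm 0 ∉ X
    rw [map_zero]
    exact hX.zero
  · intro x hx c hc
    show L.symm (c • x) ∈ X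
    rw [map_smul]
    exact hX.smul _ hx c hc
  · rw [← closure_subset_iff_isClosed]
    intro y hy
    rw [Set.insert_eq, closure_union, closure_singleton] at hy
    rcases hy with hy | hy
    · exact Or.inl hy
    · by_cases h0 : y = 0
      · exact Or.inl h0
      · right
        have h1 : L.symm y ∈ closure X := by
          have h2 : closure (L.symm ⁻¹' X : Set (EN N)) = L.symm ⁻¹' (closure X) := by
            exact (L.symm.toHomeomorph.preimage_closure X).symm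
          rw [h2] at hy
          exact hy
        exact hX.closed _ h1 fun h => h0 (L.symm.map_eq_zero_iff.mp h)

theorem germ_transport (L : V ≃L[ℂ] EN N) {X : Set V} {σ : ℂ × ℂ → V} {τ : V → ℂ × ℂ} (h : IsChart X σ τ) :
    IsGermChart (L.symm ⁻¹' X : Set (EN N)) (fun p => L (σ p)) (fun y => τ (L.symm y)) := by
  have hL : ∀ᶠ y in 𝓝 (L (σ 0)), (fun y => L.symm y) y = L.symm y := Filter.Eventually.of_forall fun _ => rfl
  have ht : Tendsto (fun y => L.symm y) (𝓝 (L (σ 0))) (𝓝 (σ 0)) := by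
    have := L.symm.continuous.tendsto (L (σ 0))
    rwa [L.symm_apply_apply] at this
  refine ⟨((L : V →L[ℂ] EN N).analyticAt _).comp h.σ_an, ?_, ?_, ?_, ?_, ?_⟩
  · filter_upwards [h.σ_mem] with p hp
    show L.symm (L (σ p)) ∈ X
    rwa [L.symm_apply_apply]
  · have h1 : AnalyticAt ℂ τ ((fun y => L.symm y) (L (σ 0))) := by
      show AnalyticAt ℂ τ (L.symm (L (σ 0)))
      rw [L.symm_apply_apply]; exact h.τ_an
    exact h1.comp ((L.symm : EN N →L[ℂ] V).analyticAt _)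
  · filter_upwards [h.left] with p hp
    rw [L.symm_apply_apply, hp]
  · filter_upwards [ht.eventually h.right] with y hy hyX
    obtain ⟨c, hc, h1⟩ := hy hyX
    refine ⟨c, hc, ?_⟩
    have h2 : L (L.symm y) = L (c • σ (τ (L.symm y))) := congrArg L h1
    rwa [L.apply_symm_apply, map_smul] at h2
  · have ht2 : Tendsto (fun z : EN N × ℂ => (L.symm z.1, z.2)) (𝓝 (L (σ 0), (1 : ℂ))) (𝓝 (σ 0, (1 : ℂ))) := by
      have h1 : Continuous (fun z : EN N × ℂ => (L.symm z.1, z.2)) := (L.symm.continuous.comp continuous_fst).prodMk continuous_snd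
      have h2 := h1.tendsto (L (σ 0), (1 : ℂ))
      simpa using h2
    filter_upwards [ht2.eventually h.inv] with z hz
    rw [map_smul]
    exact hz

theorem tan_transport (L : V ≃L[ℂ] EN N) {X : Set V} {x v : EN N} (h : Pool.Agent.H14.PP.Tan (L.symm ⁻¹' X : Set (EN N)) x v) :
    L.symm v ∈ Pool.Agent.H17BP.Tan X (L.symm x) := by
  obtain ⟨F, ⟨hF, hFX⟩, h0, h1⟩ := h
  refine ⟨fun z => L.symm (F z), ((L.symm : EN N →L[ℂ] V).analyticAt _).comp hF, hFX, by simp only [h0], ?_⟩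
  have h2 : HasDerivAt (fun z => L.symm (F z)) (L.symm (deriv F 0)) 0 :=
    (L.symm : EN N →L[ℂ] V).hasFDerivAt.comp_hasDerivAt 0 hF.differentiableAt.hasDerivAt
  rw [h2.deriv, h1]

/-- the transported form -/
noncomputable def formT (L : V ≃L[ℂ] EN N) {X : Set V} {m j : ℕ} {Ω : V → V → V → ℂ} (hΩ : IsForm X m j Ω) :
    Pool.Agent.H14.PP.Form (L.symm ⁻¹' X : Set (EN N)) m j where
  toFun x v w := Ω (L.symm x) (L.symm v) (L.symm w)
  add_smul x hx v w hv hw a b := by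
    rw [map_add, map_add, map_smul, map_smul]
    exact hΩ.add_smul _ hx _ (tan_transport L hv) _ (tan_transport L hw) a b
  det x hx v w hv hw a b c d := by
    rw [map_add, map_add, map_smul, map_smul, map_smul, map_smul]
    exact hΩ.det _ hx _ (tan_transport L hv) _ (tan_transport L hw) a b c d
  scale x hx v w hv hw c hc := by
    rw [map_smul, map_smul, map_smul]
    exact hΩ.scale _ hx _ (tan_transport L hv) _ (tan_transport L hw) c hc
  analytic φ p hφ hφX := by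
    have h1 : AnalyticAt ℂ (fun y => L.symm (φ y)) p := ((L.symm : EN N →L[ℂ] V).analyticAt _).comp hφ
    have h2 := hΩ.analytic _ p h1 hφX
    refine h2.congr ?_
    filter_upwards [hφ.eventually_analyticAt] with y hy
    have h3 : HasFDerivAt (fun y => L.symm (φ y)) ((L.symm : EN N →L[ℂ] V).comp (fderiv ℂ φ y)) y :=
      (L.symm : EN N →L[ℂ] V).hasFDerivAt.comp y hy.differentiableAt.hasFDerivAt
    rw [h3.fderiv]
    rfl

end Pool.Agent.H36.BP

end

section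

/-!
# Kobayashi hyperbolicity modulo the curve: the nodal case
-/

open Topology Filter Metric

noncomputable section

namespace Pool.Agent.H14.KB

attribute [-instance] ProperSMul.toContinuousSMul

open Pool.Agent Pool.Agent.H17BP
open Pool.Agent.H17 (PN HolomorphicInto)
open Pool.Agent.H36.BP

/-- the point of `ℙ^N` of a vector -/
def ptN {N : ℕ} (x₁ : Fin (N + 1) → ℂ) (hx₁ : x₁ ≠ 0) (x : Fin (N + 1) → ℂ) : PN N :=
  open Classical in if h : x ≠ 0 then Projectivization.mk ℂ x h else Projectivization.mk ℂ x₁ hx₁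

theorem ptN_eq {N : ℕ} (x₁ : Fin (N + 1) → ℂ) (hx₁ : x₁ ≠ 0) {x y : Fin (N + 1) → ℂ} (hy : y ≠ 0)
    (h : Pr x y) : ptN x₁ hx₁ x = Projectivization.mk ℂ y hy := by
  obtain ⟨c, hc, rfl⟩ := h
  have h1 : c • y ≠ 0 := smul_ne_zero hc hy
  unfold ptN
  rw [dif_pos h1, Projectivization.mk_eq_mk_iff']
  exact ⟨c, rfl⟩

/-- the set of points of `ℙ^N` of a cone -/
def ptsOf {N : ℕ} (X' : Set (EN N)) : Set (PN N) := {p | (WithLp.toLp 2 p.rep : EN N) ∈ X'}

theorem coneOf_ptsOf {N : ℕ} {X' : Set (EN N)} (h0 : (0 : EN N) ∉ X')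
    (hs : ∀ x ∈ X', ∀ c : ℂ, c ≠ 0 → c • x ∈ X') : coneOf (ptsOf X') = X' := by
  ext x
  constructor
  · rintro ⟨h, h1⟩
    obtain ⟨a, ha, h2⟩ := rep_mk (V := Fin (N + 1) → ℂ) h
    have h3 : (WithLp.toLp 2 (Projectivization.mk ℂ x.ofLp h).rep : EN N) ∈ X' := h1
    rw [h2, WithLp.toLp_smul, WithLp.toLp_ofLp] at h3
    have h4 := hs _ h3 a⁻¹ (inv_ne_zero ha)
    rwa [smul_smul, inv_mul_cancel₀ ha, one_smul] at h4
  · intro hx
    have hx0 : x ≠ 0 := fun e => h0 (e ▸ hx)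
    refine ⟨ofLp_ne_zero hx0, ?_⟩
    show (WithLp.toLp 2 (Projectivization.mk ℂ x.ofLp (ofLp_ne_zero hx0)).rep : EN N) ∈ X'
    obtain ⟨a, ha, h2⟩ := rep_mk (V := Fin (N + 1) → ℂ) (ofLp_ne_zero hx0)
    rw [h2, WithLp.toLp_smul, WithLp.toLp_ofLp]
    exact hs _ hx a ha

end Pool.Agent.H14.KB

end
end

section

/-!
# BPL NodalK: the nodal theorem for open surfaces
-/

set_option autoImplicit false

namespace Pool.Agent.H36.BPL

attribute [-instance] ProperSMul.toContinuousSMul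

open Filter Topology Metric
open Pool.Agent.H17 (PN HolomorphicInto puncturedDisc)
open Pool.Agent.H17BP (Surface IsChart IsForm NoZeros NodalAt)
open Pool.Agent.H36.BP
open Pool.Agent.H14.PP (IsCone IsOpenPart IsNodal Chart HasType DType gD aCoef Form IsEq)

variable {V : Type} [NormedAddCommGroup V] [NormedSpace ℂ V] {N : ℕ}

theorem analyticAt_gD (d : Bool × Bool) (p : ℂ × ℂ) : AnalyticAt ℂ (gD d) p := by
  unfold gD
  refine AnalyticAt.mul ?_ ?_
  · split_ifs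
    · exact analyticAt_fst
    · exact analyticAt_const
  · split_ifs
    · exact analyticAt_snd
    · exact analyticAt_const

/-- points with non-zero coordinates near a given point -/
theorem freq_ne (p : ℂ × ℂ) : ∃ᶠ y in 𝓝 p, y.1 ≠ 0 ∧ y.2 ≠ 0 := by
  have h1 : Tendsto (fun e : ℂ => (p.1 + e, p.2 + e)) (𝓝[≠] 0) (𝓝 p) := by
    have h2 : Continuous (fun e : ℂ => (p.1 + e, p.2 + e)) := by fun_prop
    have h3 := h2.tendsto 0
    simp only [add_zero] at h3
    exact h3.mono_left nhdsWithin_le_nhds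
  refine h1.frequently (Filter.Eventually.frequently ?_)
  have h4 : ∀ a : ℂ, ∀ᶠ e : ℂ in 𝓝[≠] 0, a + e ≠ 0 := by
    intro a
    by_cases ha : a = 0
    · rw [ha]
      filter_upwards [self_mem_nhdsWithin] with e he
      simpa using he
    · have h5 : ContinuousAt (fun e : ℂ => a + e) 0 := (continuous_const.add continuous_id).continuousAt
      have h6 : ∀ᶠ e : ℂ in 𝓝 0, a + e ≠ 0 := h5.eventually_ne (by simpa using ha)
      exact h6.filter_mono nhdsWithin_le_nhds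
  filter_upwards [h4 p.1, h4 p.2] with e h5 h6
  exact ⟨h5, h6⟩

/-- the pole bound in a chart -/
theorem poleBound_transport (L : V ≃L[ℂ] EN N) {X K : Set V} {m j : ℕ} {Ω : V → V → V → ℂ} (hΩ : IsForm K m j Ω)
    (hp : PoleLE X K (m - 1) Ω) : (formT L hΩ).PoleBound (L.symm ⁻¹' X : Set (EN N)) := by
  classical
  intro χ d hd
  set φ : ℂ × ℂ → V := fun p => L.symm (χ.σ p) with hφ
  have hφa : ∀ p ∈ ball (0 : ℂ × ℂ) 2, AnalyticAt ℂ φ p := fun p hp =>
    ((L.symm : EN N →L[ℂ] V).analyticAt _).comp (χ.σ_an p hp)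
  have hφd : ∀ p ∈ ball (0 : ℂ × ℂ) 2, ∀ v, fderiv ℂ φ p v = L.symm (fderiv ℂ χ.σ p v) := by
    intro p hp v
    have h3 : HasFDerivAt φ ((L.symm : EN N →L[ℂ] V).comp (fderiv ℂ χ.σ p)) p :=
      (L.symm : EN N →L[ℂ] V).hasFDerivAt.comp p (χ.σ_an p hp).differentiableAt.hasFDerivAt
    rw [h3.fderiv]
    rfl
  have hφX : ∀ p ∈ ball (0 : ℂ × ℂ) 2, φ p ∈ X := fun p hp => (χ.σ_mem p hp).1
  have hφK : ∀ p ∈ ball (0 : ℂ × ℂ) 2, (φ p ∉ K ↔ (d.1 = true ∧ p.1 = 0) ∨ (d.2 = true ∧ p.2 = 0)) := fun p hp => hd p hp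
  have hco : ∀ p ∈ ball (0 : ℂ × ℂ) 2, aCoef (formT L hΩ) χ p = Ω (φ p) (fderiv ℂ φ p (1, 0)) (fderiv ℂ φ p (0, 1)) := by
    intro p hp
    rw [hφd p hp, hφd p hp]
    rfl
  have hex : ∀ p ∈ ball (0 : ℂ × ℂ) 2, ∃ b : ℂ × ℂ → ℂ, AnalyticAt ℂ b p ∧
      ∀ᶠ y in 𝓝 p, φ y ∈ K → b y = gD d y ^ (m - 1) * Ω (φ y) (fderiv ℂ φ y (1, 0)) (fderiv ℂ φ y (0, 1)) := by
    intro p hpb
    refine hp.pow (hφa p hpb) ?_ (analyticAt_gD d p) ?_
    · filter_upwards [isOpen_ball.mem_nhds hpb] with y hy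
      exact hφX y hy
    · filter_upwards [isOpen_ball.mem_nhds hpb] with y hy h1
      rcases (hφK y hy).mp h1 with h2 | h2
      · simp [gD, h2.1, h2.2]
      · simp [gD, h2.1, h2.2]
  choose! B hBa hBe using hex
  set b : ℂ × ℂ → ℂ := fun p => if φ p ∈ K then gD d p ^ (m - 1) * Ω (φ p) (fderiv ℂ φ p (1, 0)) (fderiv ℂ φ p (0, 1)) else B p p with hb
  refine ⟨b, fun p hpb => ?_, fun p hpb hpK => ?_⟩
  · refine (hBa p hpb).congr ?_
    have h1 := (hBe p hpb).eventually_nhds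
    filter_upwards [(hBa p hpb).eventually_analyticAt, h1, isOpen_ball.mem_nhds hpb] with y hy1 hy2 hy3
    by_cases hyK : φ y ∈ K
    · have h2 : b y = gD d y ^ (m - 1) * Ω (φ y) (fderiv ℂ φ y (1, 0)) (fderiv ℂ φ y (0, 1)) := if_pos hyK
      rw [h2]
      exact hy2.self_of_nhds hyK
    · have h2 : b y = B y y := if_neg hyK
      rw [h2]
      have h3 : ∃ᶠ q in 𝓝 y, B p q = B y q := by
        refine ((freq_ne y).and_eventually (hy2.and ((hBe y hy3).and (isOpen_ball.mem_nhds hy3)))).mono ?_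
        rintro q ⟨⟨hq1, hq2⟩, hq3, hq4, hq5⟩
        have hqK : φ q ∈ K := by
          by_contra hcon
          rcases (hφK q hq5).mp hcon with h | h
          · exact hq1 h.2
          · exact hq2 h.2
        rw [hq3 hqK, hq4 hqK]
      have h4 : ContinuousAt (fun q => B p q - B y q) y := hy1.continuousAt.sub (hBa y hy3).continuousAt
      by_contra hne
      have h5 : (fun q => B p q - B y q) y ≠ 0 := sub_ne_zero.mpr hne
      exact h3 ((h4.eventually_ne h5).mono fun q hq h6 => hq (sub_eq_zero.mpr h6))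
  · show b p = gD d p ^ (m - 1) * aCoef (formT L hΩ) χ p
    have h2 : b p = gD d p ^ (m - 1) * Ω (φ p) (fderiv ℂ φ p (1, 0)) (fderiv ℂ φ p (0, 1)) := if_pos hpK
    rw [h2, hco p hpb]

/-- transport of a proper map -/
theorem affProper_transport (L : V ≃L[ℂ] EN N) {X K : Set V} {M : ℕ} {Φ : V → Fin M → ℂ} (h : AffProper X K Φ) :
    AffProper (L.symm ⁻¹' X : Set (EN N)) (L.symm ⁻¹' K) (fun y => Φ (L.symm y)) where
  smul x hx c hc := by
    rw [map_smul]
    exact h.smul _ hx c hc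
  cont := h.cont.comp L.symm.continuous.continuousOn fun x hx => hx
  hol F z₀ hF hFK := h.hol (fun z => L.symm (F z)) z₀ (((L.symm : EN N →L[ℂ] V).analyticAt _).comp hF) hFK
  proper x hx hxK R := (L.symm.continuous.tendsto x).eventually (h.proper _ hx hxK R)
  iso F z₀ hF hFX := h.iso (fun z => L.symm (F z)) z₀ (((L.symm : EN N →L[ℂ] V).analyticAt _).comp hF) hFX

end Pool.Agent.H36.BPL

end

section

/-!
# BPL Wrap: from maps into the projective space to functions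
-/

set_option autoImplicit false

open Topology Filter

noncomputable section

namespace Pool.Agent.H36.BPL

attribute [-instance] ProperSMul.toContinuousSMul

open Pool.Agent.H17 (puncturedDisc)
open Pool.Agent.H36.BP (HolInto rep_mk OrdTwo)
open Pool.Agent.H17BP (Surface IsChart IsForm NoZeros NodalAt Pr HolP Picard Eqs)

variable {V : Type} [NormedAddCommGroup V] [NormedSpace ℂ V]

/-- the point of the projective space of a vector -/
def W_pt (x₁ : V) (hx₁ : x₁ ≠ 0) (x : V) : Projectivization ℂ V :=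
  open Classical in if h : x ≠ 0 then Projectivization.mk ℂ x h else Projectivization.mk ℂ x₁ hx₁

theorem W_pt_eq (x₁ : V) (hx₁ : x₁ ≠ 0) {x y : V} (hy : y ≠ 0) (h : Pr x y) : W_pt x₁ hx₁ x = Projectivization.mk ℂ y hy := by
  obtain ⟨c, hc, rfl⟩ := h
  have h1 : c • y ≠ 0 := smul_ne_zero hc hy
  unfold W_pt
  rw [dif_pos h1, Projectivization.mk_eq_mk_iff']
  exact ⟨c, rfl⟩

theorem W_pr_of_mk {x y : V} (hx : x ≠ 0) (hy : y ≠ 0) (h : Projectivization.mk ℂ x hx = Projectivization.mk ℂ y hy) : Pr x y := by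
  rw [Projectivization.mk_eq_mk_iff'] at h
  obtain ⟨c, hc⟩ := h
  refine ⟨c, ?_, hc.symm⟩
  rintro rfl
  rw [zero_smul] at hc
  exact hx hc.symm

/-- the family of equations as one function -/
def W_Q {κ : Type} [Fintype κ] (Q : κ → V → ℂ) (x : V) : EuclideanSpace ℂ κ := WithLp.toLp 2 fun i => Q i x

theorem W_mem {z : ℂ} : z ∈ puncturedDisc ↔ z ≠ 0 ∧ ‖z‖ < 1 := by
  unfold puncturedDisc
  simp [and_comm]

theorem W_brody {X B : Set V} (hX : ∀ x ∈ X, ∀ c : ℂ, c ≠ 0 → c • x ∈ X) (h : Brody2 X B) (f : ℂ → Projectivization ℂ V)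
    (hf : HolInto f Set.univ) (hfX : ∀ z, (f z).rep ∈ X) (hord : OrdTwo (fun z => (f z).rep)) (hne : ∃ z w, f z ≠ f w) : ∀ z, (f z).rep ∈ B := by
  by_contra hcon
  push Not at hcon
  have h1 := h (fun z => (f z).rep) (fun z₀ => by
    obtain ⟨φ, hφ, he⟩ := hf z₀ (Set.mem_univ _)
    refine ⟨φ, hφ, he.self_of_nhds.1, ?_⟩
    filter_upwards [he] with z hz
    obtain ⟨h1, h2⟩ := hz
    obtain ⟨a, ha, h3⟩ := rep_mk h1
    exact ⟨a, ha, by rw [h2, h3]⟩) hfX hord hcon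
  obtain ⟨z, w, hzw⟩ := hne
  apply hzw
  obtain ⟨c, hc, h2⟩ := h1 z w
  rw [← (f z).mk_rep, ← (f w).mk_rep, Projectivization.mk_eq_mk_iff']
  exact ⟨c, h2.symm⟩

/-- from maps into the projective space to functions -/
theorem W_picard {X B : Set V} (h0 : (0 : V) ∉ X) (hX : ∀ x ∈ X, ∀ c : ℂ, c ≠ 0 → c • x ∈ X) (hB : ∀ x ∈ B, ∀ c : ℂ, c ≠ 0 → c • x ∈ B)
    (hP : ∀ f : ℂ → Projectivization ℂ V, HolInto f puncturedDisc → (∀ z ∈ puncturedDisc, (f z).rep ∈ X) →
      (∃ z ∈ puncturedDisc, (f z).rep ∉ B) →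
      ∃ g : ℂ → Projectivization ℂ V, HolInto g (Metric.ball 0 1) ∧ ∀ z ∈ puncturedDisc, g z = f z) : Picard X B := by
  intro r hr f hf hfB
  obtain ⟨z₁, hz₁, hz₁r, hz₁B⟩ := hfB
  have hne : ∀ x ∈ X, x ≠ 0 := fun x hx e => h0 (e ▸ hx)
  have hx₁ : f z₁ ≠ 0 := hne _ (hf z₁ hz₁ hz₁r).2
  have hrC : (r : ℂ) ≠ 0 := by exact_mod_cast hr.ne'
  have hsc : ∀ z ∈ puncturedDisc, (r : ℂ) * z ≠ 0 ∧ ‖(r : ℂ) * z‖ < r := by
    intro z hz
    obtain ⟨h1, h2⟩ := W_mem.mp hz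
    refine ⟨mul_ne_zero hrC h1, ?_⟩
    rw [norm_mul, Complex.norm_real, Real.norm_of_nonneg hr.le]
    nlinarith
  set p : ℂ → Projectivization ℂ V := fun z => W_pt (f z₁) hx₁ (f (r * z)) with hp
  have hrefl : ∀ x : V, Pr x x := fun x => ⟨1, one_ne_zero, (one_smul _ _).symm⟩
  have hpz : ∀ z ∈ puncturedDisc, ∀ h : f (r * z) ≠ 0, p z = Projectivization.mk ℂ (f (r * z)) h :=
    fun z _ h => W_pt_eq _ _ h (hrefl _)
  obtain ⟨g, hg, hgf⟩ := hP p (fun z₀ hz₀ => by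
    obtain ⟨h1, h2⟩ := hsc z₀ hz₀
    obtain ⟨F, hF, hF0, hFe⟩ := (hf _ h1 h2).1
    have hmul : AnalyticAt ℂ (fun z : ℂ => (r : ℂ) * z) z₀ := analyticAt_const.mul analyticAt_id
    have hF' : AnalyticAt ℂ (fun z : ℂ => F ((r : ℂ) * z)) z₀ := AnalyticAt.comp (g := F) (f := fun z : ℂ => (r : ℂ) * z) hF hmul
    refine ⟨fun z => F (r * z), hF', ?_⟩
    filter_upwards [hF'.continuousAt.eventually_ne hF0, hmul.continuousAt.eventually hFe] with z h3 h4
    exact ⟨h3, W_pt_eq _ _ h3 h4⟩) (fun z hz => by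
    obtain ⟨h1, h2⟩ := hsc z hz
    have h3 := (hf _ h1 h2).2
    rw [hpz z hz (hne _ h3)]
    obtain ⟨a, ha, h4⟩ := rep_mk (hne _ h3)
    rw [h4]
    exact hX _ h3 a ha) ⟨z₁ / r, by
      rw [W_mem]
      constructor
      · exact div_ne_zero hz₁ hrC
      · rw [norm_div, Complex.norm_real, Real.norm_of_nonneg hr.le, div_lt_one hr]
        exact hz₁r, by
      have h1 : (r : ℂ) * (z₁ / r) = z₁ := by field_simp
      have h2 : p (z₁ / r) = Projectivization.mk ℂ (f z₁) hx₁ := by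
        rw [hp]
        simp only [h1]
        exact W_pt_eq _ _ hx₁ (hrefl _)
      rw [h2]
      obtain ⟨a, ha, h4⟩ := rep_mk hx₁
      rw [h4]
      intro h5
      apply hz₁B
      have h6 := hB _ h5 a⁻¹ (inv_ne_zero ha)
      rwa [smul_smul, inv_mul_cancel₀ ha, one_smul] at h6⟩
  obtain ⟨φ, hφ, hφe⟩ := hg 0 (Metric.mem_ball_self one_pos)
  have hdiv : AnalyticAt ℂ (fun z : ℂ => z / (r : ℂ)) 0 := analyticAt_id.div analyticAt_const hrC
  have hφ0 : φ 0 ≠ 0 := hφe.self_of_nhds.1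
  refine ⟨fun z => φ (z / r), AnalyticAt.comp (g := φ) (f := fun z : ℂ => z / (r : ℂ)) (by rw [zero_div]; exact hφ) hdiv, by simpa using hφ0, ?_⟩
  have ht : Tendsto (fun z : ℂ => z / (r : ℂ)) (𝓝 0) (𝓝 0) := by
    have := hdiv.continuousAt.tendsto
    rwa [zero_div] at this
  have hnear : ∀ᶠ z : ℂ in 𝓝 0, ‖z‖ < r := by
    have : ContinuousAt (fun z : ℂ => ‖z‖) 0 := continuous_norm.continuousAt
    exact this.eventually_lt continuousAt_const (by simpa using hr)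
  rw [eventually_nhdsWithin_iff]
  filter_upwards [ht.eventually hφe, hnear] with z h1 h2 h3
  obtain ⟨h4, h5⟩ := h1
  have hz0 : z ≠ 0 := h3
  have hzp : z / r ∈ puncturedDisc := by
    rw [W_mem]
    constructor
    · exact div_ne_zero hz0 hrC
    · rw [norm_div, Complex.norm_real, Real.norm_of_nonneg hr.le, div_lt_one hr]
      exact h2
  have h6 := hgf _ hzp
  have h7 : (r : ℂ) * (z / r) = z := by field_simp
  have h8 : f z ≠ 0 := hne _ (hf z hz0 h2).2
  have h9 := hpz _ hzp (by rw [h7]; exact h8)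
  rw [h5, h9] at h6
  have h10 := W_pr_of_mk _ _ h6.symm
  rwa [h7] at h10

/-- A closed surface `X`, an open part `K` of it, a curve `T ⊇ X ∖ K`, a section `Ω` of `m K_X - j H` on `K` without zeros outside `T` and with
poles of order at most `m - 1` along `X ∖ K`, such that every entire curve of order at most two in `K` which is not a map into `T` is constant. -/
structure ModelK (X K T : Set V) (m j : ℕ) (Ω : V → V → V → ℂ) {κ : Type} (Q : κ → V → ℂ) (D : ℕ) : Prop where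
  surf : Surface X
  opn : OpenPart X K
  aff : ∃ (M : ℕ) (Φ : V → Fin M → ℂ), AffProper X K Φ
  sub : ∀ x ∈ X, x ∉ K → x ∈ T
  one_m : 1 ≤ m
  one_j : 1 ≤ j
  form : IsForm K m j Ω
  noZeros : NoZeros K T Ω
  pole : PoleLE X K (m - 1) Ω
  eqs : Eqs X T Q D
  thin : ∀ σ τ, IsChart X σ τ → ∃ᶠ p in 𝓝 (0 : ℂ × ℂ), σ p ∉ T
  brody : Brody2 K T

end Pool.Agent.H36.BPL

end
end
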