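import Pool.Agent.H94.CB.H17EF.PNDefs
import Pool.Agent.H94.CB.H62.EF.PrLip
import Pool.Agent.H94.CB.H62.SA.Defs
import Pool.Agent.H94.CB.H92.TH.Defs
import Pool.Agent.H94.CB.M09
import Pool.Agent.H94.CB.M11
import Pool.Agent.H94.CB.M18
import Pool.Agent.H94.CB.M21
import Pool.Agent.H94.CB.M32
import Pool.Agent.H94.CB.M34
import Pool.Agent.H94.CB.M52

/-! The parts of this file: H17EF.Up, H62.EF.AffA, H5.BD.CAff, H62.EF.TorB, H62.EF.TorC, H62.EF.Aff, H17EF.Four, H92.TH.Bas_1, H14.V.Fam. -/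

section

/-!
# EF Up: an entire curve with bounded derivative has order at most two
-/

set_option autoImplicit false

namespace Pool.Agent.H17EF

attribute [-instance] ProperSMul.toContinuousSMul

open Pool.Agent.H36.BP Metric Filter Topology

variable {N : ℕ}

/-- an entire curve with bounded derivative has `T_f(r) = O(r²)` -/
theorem ordTwo_of_fs {F : ℂ → EN N} (hF : Differentiable ℂ F) (h0 : ∀ z, F z ≠ 0) {L : ℝ}
    (hL : ∀ z, fs (F z) (deriv F z) ≤ L) : OrdTwo F := by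
  obtain ⟨a, ha⟩ : ∃ a : ℝ, a = L ^ 2 / 2 + 1 := ⟨_, rfl⟩
  have ha0 : 0 < a := by rw [ha]; positivity
  refine ⟨a + 2 + |Real.log ‖F 0‖|, fun r hr => ?_⟩
  have hlogc : Continuous fun z => Real.log ‖F z‖ := by
    refine Continuous.log hF.continuous.norm fun z => ?_
    exact norm_ne_zero_iff.2 (h0 z)
  obtain ⟨p, hp⟩ := exists_poly_re hr (u := fun z => Real.log ‖F z‖ + 1) (hlogc.add continuous_const).continuousOn one_pos
  have hlt : ∀ z : ℂ, ‖z‖ = r → Real.log ‖F z‖ ≤ (p.eval z).re ∧ (p.eval z).re ≤ Real.log ‖F z‖ + 2 := by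
    intro z hz
    have := abs_lt.1 (hp z hz)
    constructor <;> linarith [this.1, this.2]
  have hpd : Differentiable ℂ fun z : ℂ => p.eval z := p.differentiable
  -- the upper bound at the centre
  have hval : (p.eval 0).re ≤ Real.log ‖F 0‖ + 2 + a * r ^ 2 := by
    set u : ℂ → ℝ := fun z => ‖F z‖ ^ (-1 : ℝ) * ‖Complex.exp (p.eval z)‖ * Real.exp (a * ‖z‖ ^ 2) with hu
    have hmax := max_principle (S := closedBall (0 : ℂ) r) (U := ball (0 : ℂ) r) (isCompact_closedBall _ _) isOpen_ball ball_subset_closedBall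
      (u := u) ?_ ?_ (A := Real.exp (2 + a * r ^ 2)) (Real.exp_pos _).le ?_ 0 (mem_closedBall_self hr.le)
    · rw [hu] at hmax
      simp only [norm_zero] at hmax
      rw [Real.rpow_neg_one, Complex.norm_exp, ← Real.exp_log (norm_pos_iff.2 (h0 0)), ← Real.exp_neg, ← Real.exp_add, ← Real.exp_add,
        Real.exp_le_exp] at hmax
      nlinarith
    · apply ContinuousOn.upperSemicontinuousOn
      apply Continuous.continuousOn
      have h1 : Continuous fun z => ‖F z‖ ^ (-1 : ℝ) :=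
        hF.continuous.norm.rpow_const fun z => Or.inl (norm_ne_zero_iff.2 (h0 z))
      have h2 : Continuous fun z : ℂ => ‖Complex.exp (p.eval z)‖ := by
        have := hpd.continuous
        fun_prop
      have h3 : Continuous fun z : ℂ => Real.exp (a * ‖z‖ ^ 2) := by fun_prop
      exact (h1.mul h2).mul h3
    · intro z _ _
      have s1 := Sub.norm_rpow (hF.analyticAt z) (h0 z) (-1)
      have s2 := Sub.of_holo (h := fun z => Complex.exp (p.eval z)) (z₀ := z) ((hpd.analyticAt z).cexp) (Complex.exp_ne_zero _)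
      have s3 := Sub.exp_sq (t := fun z => z) (z₀ := z) analyticAt_id a
      refine ⟨_, ?_, (s1.mul s2).mul s3⟩
      have h10 : deriv (fun z : ℂ => z) z = 1 := deriv_id z
      rw [h10, norm_one]
      have h11 := hL z
      have h12 : fs (F z) (deriv F z) ^ 2 ≤ L ^ 2 := pow_le_pow_left₀ (fs_nonneg _ _) h11 2
      rw [ha]
      nlinarith
    · intro z hz
      have hzn : ‖z‖ = r := by
        have h13 := hz.1
        have h14 := hz.2
        simp only [mem_closedBall, mem_ball, dist_zero_right, not_lt] at h13 h14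
        exact le_antisymm h13 h14
      have h1 := (hlt z hzn).2
      rw [hu]
      simp only
      rw [Real.rpow_neg_one, Complex.norm_exp, hzn]
      have h2 : ‖F z‖⁻¹ = Real.exp (-Real.log ‖F z‖) := by
        rw [Real.exp_neg, Real.exp_log (norm_pos_iff.2 (h0 z))]
      rw [h2, ← Real.exp_add, ← Real.exp_add]
      apply Real.exp_le_exp.2
      linarith
  refine ⟨fun z => Complex.exp (-p.eval z) • F z, ?_, ?_, ?_, ?_⟩
  · have h1 : Differentiable ℂ fun z => Complex.exp (-p.eval z) := by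
      fun_prop
    exact (h1.smul hF).differentiableOn
  · intro z hz
    have hd : DiffContOnCl ℂ (fun z => Complex.exp (-p.eval z) • F z) (ball 0 r) := by
      have h1 : Differentiable ℂ fun z => Complex.exp (-p.eval z) := by
        fun_prop
      exact (h1.smul hF).diffContOnCl
    refine Complex.norm_le_of_forall_mem_frontier_norm_le isBounded_ball hd ?_ (subset_closure hz)
    intro ζ hζ
    rw [frontier_ball _ hr.ne', mem_sphere_zero_iff_norm] at hζ
    rw [norm_smul, Complex.norm_exp, Complex.neg_re]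
    have h2 := (hlt ζ hζ).1
    have h3 : ‖F ζ‖ ≤ Real.exp (p.eval ζ).re := by
      rw [← Real.exp_log (norm_pos_iff.2 (h0 ζ))]
      exact Real.exp_le_exp.2 h2
    calc Real.exp (-(p.eval ζ).re) * ‖F ζ‖ ≤ Real.exp (-(p.eval ζ).re) * Real.exp (p.eval ζ).re :=
          mul_le_mul_of_nonneg_left h3 (Real.exp_pos _).le
      _ = 1 := by rw [← Real.exp_add]; simp
  · rw [norm_smul, Complex.norm_exp, Complex.neg_re]
    have h5 : ‖F 0‖ = Real.exp (Real.log ‖F 0‖) := (Real.exp_log (norm_pos_iff.2 (h0 0))).symm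
    rw [h5, ← Real.exp_add, Real.exp_le_exp, Real.log_exp]
    have h8 : 0 ≤ |Real.log ‖F 0‖| * (1 + r ^ 2) := by positivity
    nlinarith [sq_nonneg r]
  · intro z _
    refine Or.inr ⟨Complex.exp (p.eval z), Complex.exp_ne_zero _, ?_⟩
    rw [smul_smul, ← Complex.exp_add]
    simp

end Pool.Agent.H17EF

end

section

/-!
# EF AffA: the mean value inequality for `log ‖F‖ - c ‖D‖²`

Let `r > 0`.  By `circle_approx` (`H36/BP/CirA.lean`) there are entire functions `g₁`, `g₂` with `|Re g₁ - log ‖F‖| ≤ 1` and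
`|Re g₂ - c ‖D‖²| ≤ 1` on the circle `‖z‖ = r`.  For `ε > 0` the function
`w z = ‖F z‖ * ‖exp (- g₁ z)‖ * ‖exp (g₂ z)‖ * exp (- c ‖D z‖²) * exp (ε ‖z‖²)` is continuous and positive, with `Sub` exponent
`fs² / 2 - c ‖D'‖² + ε ≥ ε > 0` at every point (`Sub.norm_rpow` with `a = 1`, `Sub.of_holo`, `exp_sq` twice, `Sub.mul`, `Sub.mono`);
`w ≤ e² exp (ε r²)` on the circle, so (`max_principle`) `w 0 ≤ e² exp (ε r²)`; let `ε → 0`:
`log ‖F 0‖ - Re g₁ 0 + Re g₂ 0 - c ‖D 0‖² ≤ 2`.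
`Re g₁ 0` is the mean value of `Re g₁` (`circleAverage` of a harmonic/holomorphic function: e.g. the real part of `circleAverage g₁ 0 r = g₁ 0`), so
`Re g₁ 0 ≤ mean log ‖F‖ + 1` and `Re g₂ 0 ≥ c mean ‖D‖² - 1`.
-/

set_option autoImplicit false

open Topology Filter Metric

namespace Pool.Agent.H62.EF

attribute [-instance] ProperSMul.toContinuousSMul

open Pool.Agent.H36.BP (EN fs wd)

variable {N : ℕ}

private theorem AffA_avg_re {g : ℂ → ℂ} (hg : Differentiable ℂ g) (r : ℝ) :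
    Real.circleAverage (fun z => (g z).re) 0 r = (g 0).re := by
  have h1 : CircleIntegrable g 0 r := hg.continuous.continuousOn.circleIntegrable'
  have h2 := Complex.reCLM.circleAverage_comp_comm h1
  have h3 : Real.circleAverage g 0 r = g 0 := hg.diffContOnCl.circleAverage
  rw [h3] at h2
  exact h2

theorem mean_ineq {F : ℂ → EN N} (hF : Differentiable ℂ F) (h0 : ∀ z, F z ≠ 0) {D : ℂ → ℂ} (hD : Differentiable ℂ D) {c : ℝ} (hc : 0 < c)
    (hfs : ∀ z, c * ‖deriv D z‖ ^ 2 ≤ fs (F z) (deriv F z) ^ 2 / 2) {r : ℝ} (hr : 0 < r) :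
    c * Real.circleAverage (fun z => ‖D z‖ ^ 2) 0 r ≤
      4 + Real.circleAverage (fun z => Real.log ‖F z‖) 0 r - Real.log ‖F 0‖ + c * ‖D 0‖ ^ 2 := by
  have hFc : Continuous F := hF.continuous
  have hlogc : Continuous fun z => Real.log ‖F z‖ :=
    (hFc.norm).log fun z => norm_ne_zero_iff.mpr (h0 z)
  have hDc : Continuous fun z => c * ‖D z‖ ^ 2 := continuous_const.mul (hD.continuous.norm.pow 2)
  obtain ⟨g₁, hg₁, hb₁⟩ := Pool.Agent.H36.BP.circle_approx hr (fun z => Real.log ‖F z‖) hlogc.continuousOn one_pos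
  obtain ⟨g₂, hg₂, hb₂⟩ := Pool.Agent.H36.BP.circle_approx hr (fun z => c * ‖D z‖ ^ 2) hDc.continuousOn one_pos
  have hself : Real.log ‖F 0‖ - (g₁ 0).re + (g₂ 0).re - c * ‖D 0‖ ^ 2 ≤ 2 := by
    refine le_of_forall_pos_le_add fun δ hδ => ?_
    obtain ⟨ε, hε, hεδ⟩ : ∃ ε : ℝ, 0 < ε ∧ ε * r ^ 2 = δ := by
      refine ⟨δ / r ^ 2, by positivity, ?_⟩
      field_simp
    let w : ℂ → ℝ := fun z => ‖F z‖ ^ (1 : ℝ) * ‖Complex.exp (-g₁ z)‖ * ‖Complex.exp (g₂ z)‖ *
      Real.exp (-c * ‖D z‖ ^ 2) * Real.exp (ε * ‖z‖ ^ 2)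
    have hwl : ∀ z, w z = Real.exp (Real.log ‖F z‖ - (g₁ z).re + (g₂ z).re - c * ‖D z‖ ^ 2 + ε * ‖z‖ ^ 2) := by
      intro z
      have hn : 0 < ‖F z‖ := norm_pos_iff.mpr (h0 z)
      simp only [w]
      rw [Real.rpow_one, Complex.norm_exp, Complex.norm_exp, Real.exp_add, Real.exp_sub, Real.exp_add, Real.exp_sub,
        Real.exp_log hn, Complex.neg_re, Real.exp_neg, neg_mul, Real.exp_neg]
      field_simp
    have hwc : Continuous w := by
      have : w = fun z => Real.exp (Real.log ‖F z‖ - (g₁ z).re + (g₂ z).re - c * ‖D z‖ ^ 2 + ε * ‖z‖ ^ 2) := funext hwl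
      rw [this]
      refine Real.continuous_exp.comp ?_
      refine Continuous.add (Continuous.sub (Continuous.add (Continuous.sub hlogc ?_) ?_) hDc) ?_
      · exact Complex.continuous_re.comp hg₁.continuous
      · exact Complex.continuous_re.comp hg₂.continuous
      · exact continuous_const.mul (continuous_norm.pow 2)
    have hsub : ∀ z, Pool.Agent.H36.BP.Sub w z
        (1 * fs (F z) (deriv F z) ^ 2 / 2 + 0 + 0 + -c * ‖deriv D z‖ ^ 2 + ε) := by
      intro z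
      have s1 := Pool.Agent.H36.BP.Sub.norm_rpow (hF.analyticAt z) (h0 z) 1
      have s2 := Pool.Agent.H36.BP.Sub.of_holo (h := fun z => Complex.exp (-g₁ z)) (z₀ := z)
        (hg₁.neg.analyticAt z).cexp (Complex.exp_ne_zero _)
      have s3 := Pool.Agent.H36.BP.Sub.of_holo (h := fun z => Complex.exp (g₂ z)) (z₀ := z)
        (hg₂.analyticAt z).cexp (Complex.exp_ne_zero _)
      have s4 := Pool.Agent.H36.BP.Sub.exp_sq (hD.analyticAt z) (-c)
      have s5 := Pool.Agent.H36.BP.Sub.exp_sq (t := fun z : ℂ => z) (z₀ := z) analyticAt_id ε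
      have hd : deriv (fun z : ℂ => z) z = 1 := deriv_id z
      rw [hd, norm_one, one_pow, mul_one] at s5
      exact (((s1.mul s2).mul s3).mul s4).mul s5
    have hmax := Pool.Agent.H36.BP.max_principle (S := closedBall (0 : ℂ) r) (U := ball (0 : ℂ) r)
      (isCompact_closedBall 0 r) isOpen_ball ball_subset_closedBall (u := w) hwc.continuousOn.upperSemicontinuousOn
      (fun z _ _ => ⟨_, by
        have := hfs z
        have h2 : 0 < 1 * fs (F z) (deriv F z) ^ 2 / 2 + 0 + 0 + -c * ‖deriv D z‖ ^ 2 + ε := by linarith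
        exact h2, hsub z⟩) (A := Real.exp (2 + ε * r ^ 2)) (Real.exp_pos _).le
      (fun z hz => by
        have hzr : ‖z‖ = r := by
          rcases hz with ⟨h1, h2⟩
          rw [mem_closedBall_zero_iff] at h1
          rw [mem_ball_zero_iff, not_lt] at h2
          exact le_antisymm h1 h2
        have hzs : z ∈ sphere (0 : ℂ) r := mem_sphere_zero_iff_norm.mpr hzr
        have h1 := abs_le.mp (hb₁ z hzs)
        have h2 := abs_le.mp (hb₂ z hzs)
        rw [hwl z, Real.exp_le_exp, hzr]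
        linarith [h1.1, h2.2])
    have h1 := hmax 0 (mem_closedBall_self hr.le)
    rw [hwl 0, Real.exp_le_exp, norm_zero, hεδ] at h1
    have h2 : ε * (0 : ℝ) ^ 2 = 0 := by ring
    linarith
  have hi₁ : CircleIntegrable (fun z => (g₁ z).re) 0 r :=
    (Complex.continuous_re.comp hg₁.continuous).continuousOn.circleIntegrable'
  have hi₂ : CircleIntegrable (fun z => (g₂ z).re) 0 r :=
    (Complex.continuous_re.comp hg₂.continuous).continuousOn.circleIntegrable'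
  have hj₁ : CircleIntegrable (fun z => Real.log ‖F z‖ + 1) 0 r :=
    (hlogc.add continuous_const).continuousOn.circleIntegrable'
  have hj₂ : CircleIntegrable (fun z => c * ‖D z‖ ^ 2) 0 r := hDc.continuousOn.circleIntegrable'
  have hj₁' : CircleIntegrable (fun z => Real.log ‖F z‖) 0 r := hlogc.continuousOn.circleIntegrable'
  have hi₂' : CircleIntegrable (fun z => (g₂ z).re + 1) 0 r :=
    ((Complex.continuous_re.comp hg₂.continuous).add continuous_const).continuousOn.circleIntegrable'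
  have hconst : ∀ (a : ℝ), Real.circleAverage (fun _ : ℂ => a) 0 r = a := fun a => Real.circleAverage_const a 0 r
  have e₁ : (g₁ 0).re ≤ Real.circleAverage (fun z => Real.log ‖F z‖) 0 r + 1 := by
    rw [← AffA_avg_re hg₁ r]
    calc Real.circleAverage (fun z => (g₁ z).re) 0 r ≤ Real.circleAverage (fun z => Real.log ‖F z‖ + 1) 0 r := by
          refine Real.circleAverage_mono hi₁ hj₁ fun z hz => ?_
          rw [abs_of_pos hr] at hz
          have := (abs_le.mp (hb₁ z hz)).2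
          linarith
      _ = Real.circleAverage (fun z => Real.log ‖F z‖) 0 r + 1 := by
          rw [Real.circleAverage_fun_add hj₁' (circleIntegrable_const _ _ _), hconst]
  have e₂ : c * Real.circleAverage (fun z => ‖D z‖ ^ 2) 0 r ≤ (g₂ 0).re + 1 := by
    rw [← AffA_avg_re hg₂ r]
    calc c * Real.circleAverage (fun z => ‖D z‖ ^ 2) 0 r = Real.circleAverage (fun z => c * ‖D z‖ ^ 2) 0 r := by
          have := Real.circleAverage_fun_smul (a := c) (f := fun z => ‖D z‖ ^ 2) (c := 0) (R := r)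
          simp only [smul_eq_mul] at this
          exact this.symm
      _ ≤ Real.circleAverage (fun z => (g₂ z).re + 1) 0 r := by
          refine Real.circleAverage_mono hj₂ hi₂' fun z hz => ?_
          rw [abs_of_pos hr] at hz
          have := (abs_le.mp (hb₂ z hz)).1
          linarith
      _ = Real.circleAverage (fun z => (g₂ z).re) 0 r + 1 := by
          rw [Real.circleAverage_fun_add hi₂ (circleIntegrable_const _ _ _), hconst]
  linarith

end Pool.Agent.H62.EF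

end

section

/-!
# BD CAff: the change of the variable is affine
-/

set_option autoImplicit false

open Topology Filter Metric

namespace Pool.Agent.H5.BD

attribute [-instance] ProperSMul.toContinuousSMul

open Pool.Agent.H36.BP (EN fs wd)
open Pool.Agent.H14.PP (IsCone Chart Form Tan jac)
open Pool.Agent.H62.EF (MN pr det2)

variable {N : ℕ} {X : Set (EN N)} {A : Atlas X} {c L r₀ c₁ K₀ r₂ r₃ ε₃ K : ℝ}

/-- an entire function which is locally Lipschitz with a uniform constant is affine -/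
theorem affine_of_lip {ψ : ℂ → ℂ} {r B : ℝ} (hr : 0 < r) (hB : 0 ≤ B) (hψ : Differentiable ℂ ψ) (hl : ∀ z z', ‖z - z'‖ ≤ r → ‖ψ z - ψ z'‖ ≤ B * ‖z - z'‖) :
    ∃ a, ∀ z, ψ z = a * z + ψ 0 := by
  have h1 : ∀ z, ‖deriv ψ z‖ ≤ B := by
    intro z
    refine (hψ z).hasDerivAt.le_of_lip' hB ?_
    filter_upwards [closedBall_mem_nhds z hr] with w hw
    exact hl w z (by rwa [mem_closedBall, dist_eq_norm] at hw)
  have h2 : Differentiable ℂ (deriv ψ) := fun z => (hψ.analyticAt z).deriv.differentiableAt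
  have h3 : ∀ z, deriv ψ z = deriv ψ 0 := fun z => h2.apply_eq_apply_of_bounded
    (isBounded_iff_forall_norm_le.2 ⟨B, by rintro _ ⟨w, rfl⟩; exact h1 w⟩) z 0
  refine ⟨deriv ψ 0, fun z => ?_⟩
  have h4 : ∀ z, HasDerivAt (fun z => ψ z - deriv ψ 0 * z) 0 z := by
    intro z
    have h5 := (hψ z).hasDerivAt.sub ((hasDerivAt_id z).const_mul (deriv ψ 0))
    rw [h3 z, mul_one, sub_self] at h5
    exact h5
  have h6 := is_const_of_deriv_eq_zero (fun z => (h4 z).differentiableAt) (fun z => (h4 z).deriv) z 0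
  simp only [mul_zero, sub_zero] at h6
  rw [← h6]
  ring

theorem MC.rel_affine (h : MC A c L r₀ c₁ K₀ r₂ r₃ ε₃ K) {r : ℝ} (hr : 0 < r) {F G : ℂ → EN N} (hF : F ∈ BC X c L) (hG : G ∈ BC X c L)
    (hrel : Rel evp r₂ r F G) : ∃ a b : ℂ, a ≠ 0 ∧ ‖b‖ ≤ r₂ ∧ ∀ z, evp G z = evp F (a * z + b) := by
  obtain ⟨ψ, hψ, hψr, hψ0⟩ := hrel
  have hK : 0 < K := lt_of_lt_of_le one_pos (h.lc.one_le.trans h.le_K)
  have hL := h.lc.L_pos
  have hr₂ := h.r₂_pos
  have hr₃ := h.r₃_pos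
  have hlip : ∀ z z', ‖z - z'‖ ≤ r → ‖ψ z - ψ z'‖ ≤ (2 * L * K) * ‖z - z'‖ := by
    intro z z' hz
    have h1 := h.emb F hF (ψ z) (ψ z') ((hψr z z' hz).trans (by linarith))
    have h2 := h.lc.lip G hG z z'
    have h3 : dist (pr (F (ψ z))) (pr (F (ψ z'))) = dist (pr (G z)) (pr (G z')) := by
      have e1 : pr (G z) = pr (F (ψ z)) := hψ z
      have e2 : pr (G z') = pr (F (ψ z')) := hψ z'
      rw [e1, e2]
    rw [h3] at h1
    have h4 := h1.trans h2
    rw [inv_mul_le_iff₀ hK] at h4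
    linarith
  have hdiff : Differentiable ℂ ψ := by
    intro z₀
    have e0 : pr (G z₀) = pr (F (ψ z₀)) := hψ z₀
    obtain ⟨e, ψ', hm⟩ := h.matching F hF G hG (ψ z₀) z₀ (by rw [e0, dist_self]; exact h.ε₃_pos.le)
    have heq : ψ =ᶠ[𝓝 z₀] ψ' := by
      filter_upwards [ball_mem_nhds z₀ hr, ball_mem_nhds z₀ (by positivity : (0 : ℝ) < 2 * r₃)] with z hz hz'
      rw [mem_ball, dist_eq_norm] at hz
      have hw : ψ z ∈ closedBall (ψ z₀) (2 * r₂) := by
        rw [mem_closedBall, dist_eq_norm]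
        exact (hψr z z₀ hz.le).trans (by linarith)
      have h1 := hm.near z hz' (ψ z) hw
      have h2 := A.le_dist _ _ _ (hm.goodF _ hw) (hm.goodG z hz')
      have e1 : pr (G z) = pr (F (ψ z)) := hψ z
      rw [e1, dist_self, mul_zero] at h2
      have h3 : ‖qc A (A.idx (pr (F (ψ z₀)))) F (ψ z) - qc A (A.idx (pr (F (ψ z₀)))) G z‖ ≤ 0 := h2
      have h4 : ‖ψ z - ψ' z‖ ≤ 0 := h1.trans (by nlinarith [norm_nonneg (qc A (A.idx (pr (F (ψ z₀)))) F (ψ z) - qc A (A.idx (pr (F (ψ z₀)))) G z)])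
      exact sub_eq_zero.1 (norm_le_zero_iff.1 h4)
    exact ((hm.hol z₀ (mem_ball_self (by positivity))).differentiableAt (ball_mem_nhds z₀ (by positivity))).congr_of_eventuallyEq heq
  obtain ⟨a, ha⟩ := affine_of_lip hr (by positivity) hdiff hlip
  refine ⟨a, ψ 0, ?_, hψ0, fun z => ?_⟩
  · rintro rfl
    have h1 := h.emb G hG r₂ 0 (by
      rw [sub_zero, Complex.norm_real, Real.norm_eq_abs, abs_of_pos hr₂]
      linarith)
    have e1 : pr (G r₂) = pr (F (ψ r₂)) := hψ r₂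
    have e2 : pr (G 0) = pr (F (ψ 0)) := hψ 0
    rw [e1, e2, ha r₂, zero_mul, zero_add, dist_self, sub_zero, Complex.norm_real, Real.norm_eq_abs, abs_of_pos hr₂] at h1
    have h2 : 0 < K⁻¹ * r₂ := by positivity
    linarith
  · rw [hψ z, ha z]

end Pool.Agent.H5.BD

end

section

/-!
# EF TorB: lifting `u ∘ F` to a holomorphic function

Local: for `z₁` in the domain let `v` be the local lift of `u` at `F z₁`; `E = v ∘ F` is analytic at `z₁`, `u (F z) - E z ∈ Λ` near `z₁`.  Two such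
local lifts differ near `z₁` by a continuous function with values in `Λ`, so by a constant; so the function
`d z₁ = deriv (E_{z₁}) z₁` is `deriv E_{z₁}` near `z₁`, and `d` is holomorphic.  On the ball it has a primitive `D`
(`DifferentiableOn.isExactOn_ball` in `Mathlib/Analysis/Complex/HasPrimitives.lean`); normalise `D z₀ = u (F z₀)`.  Near every `z₁` the function `D - E_{z₁}` is
constant.  The set of the `z₁` in the ball with `u (F z₁) - D z₁ ∈ Λ` contains `z₀`, it is open and its complement is open (near `z₁`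
`u (F z) - D z = (E_{z₁} - D) + (element of Λ)`), so it is the ball.
`lift`: for every `n` take the lift `D_n` on `ball 0 (n + 1)`, normalised by `D_n 0 = u (F 0)`; `D_m = D_n` on the smaller ball (`Lat.const`);
`D z = D_n z` for `n > ‖z‖`.
`lift_sub`: the difference of two lifts is constant.
-/

set_option autoImplicit false

open Topology Filter Metric

namespace Pool.Agent.H62.EF

attribute [-instance] ProperSMul.toContinuousSMul

open Pool.Agent.H36.BP (EN fs wd)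
open Pool.Agent.H14.PP (IsCone)

variable {N : ℕ} {X : Set (EN N)} {Λ : AddSubgroup ℂ} {u : EN N → ℂ}

/-- local lifts -/
private theorem torB_local (hu : TorusMap X Λ u) {F : ℂ → EN N} {z₁ : ℂ} (hF : AnalyticAt ℂ F z₁)
    (hX₁ : F z₁ ∈ X) (hFX : ∀ᶠ z in 𝓝 z₁, F z ∈ X) :
    ∃ E : ℂ → ℂ, AnalyticAt ℂ E z₁ ∧ ∀ᶠ z in 𝓝 z₁, u (F z) - E z ∈ Λ := by
  obtain ⟨v, hv, hv2⟩ := hu.loc (F z₁) hX₁
  refine ⟨v ∘ F, hv.comp hF, ?_⟩
  filter_upwards [hF.continuousAt.eventually hv2, hFX] with z h1 h2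
  exact h1 h2

/-- two local lifts differ by a constant -/
private theorem torB_const (hΛ : Lat Λ) {w : ℂ → ℂ} {E E' : ℂ → ℂ} {z₁ : ℂ} (hE : AnalyticAt ℂ E z₁)
    (hE' : AnalyticAt ℂ E' z₁) (h : ∀ᶠ z in 𝓝 z₁, w z - E z ∈ Λ)
    (h' : ∀ᶠ z in 𝓝 z₁, w z - E' z ∈ Λ) : ∃ c : ℂ, ∀ᶠ z in 𝓝 z₁, E z = E' z + c := by
  obtain ⟨ε, hε, hb⟩ := Metric.eventually_nhds_iff_ball.mp
    (hE.eventually_analyticAt.and (hE'.eventually_analyticAt.and (h.and h')))
  have hc : ContinuousOn (fun z => E z - E' z) (ball z₁ ε) := fun z hz =>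
    ((hb z hz).1.continuousAt.sub (hb z hz).2.1.continuousAt).continuousWithinAt
  have hm : ∀ z ∈ ball z₁ ε, E z - E' z ∈ Λ := by
    intro z hz
    have := Λ.sub_mem (hb z hz).2.2.2 (hb z hz).2.2.1
    simpa using this
  have hk := hΛ.const (convex_ball z₁ ε).isPreconnected hc hm
  refine ⟨E z₁ - E' z₁, ?_⟩
  filter_upwards [ball_mem_nhds z₁ hε] with z hz
  have h5 : E z - E' z = E z₁ - E' z₁ := hk z hz z₁ (mem_ball_self hε)
  rw [← h5]
  ring

/-- the lift on a domain where holomorphic functions have primitives -/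
private theorem torB_gen (hu : TorusMap X Λ u) (hΛ : Lat Λ) {F : ℂ → EN N} {U : Set ℂ} (hU : IsOpen U)
    (hUc : IsPreconnected U) (hex : ∀ d : ℂ → ℂ, DifferentiableOn ℂ d U → Complex.IsExactOn d U)
    {z₀ : ℂ} (hz₀ : z₀ ∈ U) (hF : DifferentiableOn ℂ F U) (hFX : ∀ z ∈ U, F z ∈ X) :
    ∃ D : ℂ → ℂ, DifferentiableOn ℂ D U ∧ D z₀ = u (F z₀) ∧ ∀ z ∈ U, u (F z) - D z ∈ Λ := by
  have h1 : ∀ z₁ : ℂ, ∃ E : ℂ → ℂ, z₁ ∈ U →
      AnalyticAt ℂ E z₁ ∧ ∀ᶠ z in 𝓝 z₁, u (F z) - E z ∈ Λ := by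
    intro z₁
    by_cases hz : z₁ ∈ U
    · obtain ⟨E, hE⟩ := torB_local hu (hF.analyticAt (hU.mem_nhds hz)) (hFX _ hz)
        (by filter_upwards [hU.mem_nhds hz] with z h using hFX z h)
      exact ⟨E, fun _ => hE⟩
    · exact ⟨0, fun h => absurd h hz⟩
  choose E hE using h1
  set d : ℂ → ℂ := fun z => deriv (E z) z with hd
  have h2 : ∀ z₁ ∈ U, d =ᶠ[𝓝 z₁] deriv (E z₁) := by
    intro z₁ hz₁
    obtain ⟨hA, hL⟩ := hE z₁ hz₁
    filter_upwards [hA.eventually_analyticAt, hL.eventually_nhds, hU.mem_nhds hz₁] with z hz1 hz2 hz3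
    obtain ⟨hA', hL'⟩ := hE z hz3
    obtain ⟨c, hc⟩ := torB_const hΛ hA' hz1 hL' hz2
    have h5 : deriv (E z) z = deriv (fun w => E z₁ w + c) z := Filter.EventuallyEq.deriv_eq hc
    show deriv (E z) z = deriv (E z₁) z
    rw [h5, deriv_add_const]
  have h3 : DifferentiableOn ℂ d U := by
    intro z₁ hz₁
    have h5 := (hE z₁ hz₁).1.deriv
    exact (h5.differentiableAt.congr_of_eventuallyEq (h2 z₁ hz₁)).differentiableWithinAt
  obtain ⟨D, hD0, hD⟩ := (hex d h3).with_val_at z₀ (u (F z₀))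
  refine ⟨D, fun z hz => (hD z hz).differentiableAt.differentiableWithinAt, hD0, ?_⟩
  have h4 : ∀ z₁ ∈ U, ∃ c : ℂ, ∀ᶠ z in 𝓝 z₁, D z = E z₁ z + c := by
    intro z₁ hz₁
    obtain ⟨hA, _⟩ := hE z₁ hz₁
    obtain ⟨ε, hε, hb⟩ := Metric.eventually_nhds_iff_ball.mp
      (hA.eventually_analyticAt.and ((h2 z₁ hz₁).and (hU.mem_nhds hz₁)))
    obtain ⟨c, hc⟩ := isOpen_ball.exists_eq_add_of_deriv_eq (convex_ball z₁ ε).isPreconnected
      (f := D) (g := E z₁)
      (fun z hz => (hD z (hb z hz).2.2).differentiableAt.differentiableWithinAt)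
      (fun z hz => (hb z hz).1.differentiableAt.differentiableWithinAt)
      (fun z hz => by rw [(hD z (hb z hz).2.2).deriv]; exact (hb z hz).2.1)
    refine ⟨c, ?_⟩
    filter_upwards [ball_mem_nhds z₁ hε] with z hz
    exact hc hz
  have h5 : ∀ z₁ ∈ U, ∀ᶠ z in 𝓝 z₁, (u (F z₁) - D z₁ ∈ Λ ↔ u (F z) - D z ∈ Λ) := by
    intro z₁ hz₁
    obtain ⟨c, hc⟩ := h4 z₁ hz₁
    obtain ⟨_, hL⟩ := hE z₁ hz₁
    have h6 : ∀ z, D z = E z₁ z + c → u (F z) - E z₁ z ∈ Λ → (u (F z) - D z ∈ Λ ↔ c ∈ Λ) := by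
      intro z ha hb
      have h7 : u (F z) - D z = (u (F z) - E z₁ z) - c := by rw [ha]; ring
      rw [h7]
      constructor
      · intro h8
        have := Λ.sub_mem hb h8
        simpa using this
      · intro h8
        exact Λ.sub_mem hb h8
    have h7 := h6 z₁ hc.self_of_nhds hL.self_of_nhds
    filter_upwards [hc, hL] with z ha hb
    rw [h7, h6 z ha hb]
  intro z hz
  have h6 := hUc.induction₂ (fun a b => (u (F a) - D a ∈ Λ ↔ u (F b) - D b ∈ Λ))
    (fun x hx => (h5 x hx).filter_mono nhdsWithin_le_nhds)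
    (fun x y w _ _ _ h h' => h.trans h') (fun x y _ _ h => h.symm) hz₀ hz
  apply h6.mp
  rw [hD0, sub_self]
  exact Λ.zero_mem

theorem TorusMap.lift (hu : TorusMap X Λ u) (hΛ : Lat Λ) {F : ℂ → EN N} (hF : Differentiable ℂ F) (hFX : ∀ z, F z ∈ X) :
    ∃ D : ℂ → ℂ, Differentiable ℂ D ∧ ∀ z, u (F z) - D z ∈ Λ := by
  obtain ⟨D, hD, _, hL⟩ := torB_gen hu hΛ isOpen_univ isPreconnected_univ
    (fun d hd => (differentiableOn_univ.mp hd).isExactOn_univ) (Set.mem_univ (0 : ℂ))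
    hF.differentiableOn (fun z _ => hFX z)
  exact ⟨D, differentiableOn_univ.mp hD, fun z => hL z (Set.mem_univ z)⟩

end Pool.Agent.H62.EF

end

section

/-!
# EF TorC: the derivative of `u` is bounded with respect to the Fubini-Study metric

Local bound: let `x ∈ X`, `v` the local lift of `u` at `x`, analytic near `x`.  For `y ∈ X` near `x`: `v (c • y) - v y ∈ Λ` for `c` near `1`
(`u (c • y) - u y ∈ Λ`), it tends to `0` for `c → 1`, so it is `0` for `c` near `1` and `fderiv ℂ v y y = 0`.  Let `F` be analytic at `z` with `F z = y`,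
values in `X` near `z`, `D` analytic at `z`, `u (F w) - D w ∈ Λ` near `z`.  `D - v ∘ F` is continuous with values in `Λ` near `z`, so constant:
`D' z = fderiv ℂ v y (F' z) = fderiv ℂ v y (F' z - a • y)` for every `a`; with `a = ⟨y, F' z⟩ / ‖y‖²`: `‖F' z - a y‖ = wd y (F' z) / ‖y‖`
(`wd_sq`), so `‖D' z‖ ≤ ‖fderiv ℂ v y‖ * ‖y‖ * fs y (F' z)`, and `‖fderiv ℂ v y‖ ‖y‖` is bounded for `y` near `x`.
Global: `X ∩ sphere 0 1` is compact; finitely many neighbourhoods as above cover it.  For general `F`, `z` replace `F` by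
`c • F` with the constant `c = 1 / ‖F z‖`: `fs` does not change (`fs (c x) (c v) = fs x v`), and `u (c • F w) - u (F w) ∈ Λ`.
-/

set_option autoImplicit false

open Topology Filter Metric

namespace Pool.Agent.H62.EF

attribute [-instance] ProperSMul.toContinuousSMul

open Pool.Agent.H36.BP (EN fs wd)
open Pool.Agent.H14.PP (IsCone)

variable {N : ℕ} {X : Set (EN N)} {Λ : AddSubgroup ℂ} {u : EN N → ℂ}

/-- the bound at the points over `y` -/
private def Bd (X : Set (EN N)) (Λ : AddSubgroup ℂ) (u : EN N → ℂ) (C : ℝ) (y : EN N) : Prop :=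
  ∀ (F : ℂ → EN N) (D : ℂ → ℂ) (z : ℂ), AnalyticAt ℂ F z → (∀ᶠ w in 𝓝 z, F w ∈ X) → F z = y → AnalyticAt ℂ D z →
      (∀ᶠ w in 𝓝 z, u (F w) - D w ∈ Λ) → ‖deriv D z‖ ≤ C * fs (F z) (deriv F z)

private theorem euler (hX : IsCone X) (hu : TorusMap X Λ u) (hΛ : Lat Λ) {v : EN N → ℂ} {y : EN N} (hy : y ∈ X)
    (hv : AnalyticAt ℂ v y) (hvu : ∀ᶠ w in 𝓝 y, w ∈ X → u w - v w ∈ Λ) : fderiv ℂ v y y = 0 := by
  obtain ⟨δ, hδ, hd⟩ := hΛ.discrete
  have h1 : HasDerivAt (fun c : ℂ => c • y) y 1 := by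
    simpa using (hasDerivAt_id (1 : ℂ)).smul_const y
  have h2 : HasFDerivAt v (fderiv ℂ v y) ((1 : ℂ) • y) := by
    rw [one_smul]; exact hv.differentiableAt.hasFDerivAt
  have h3 : HasDerivAt (fun c : ℂ => v (c • y)) (fderiv ℂ v y y) 1 := h2.comp_hasDerivAt (1 : ℂ) h1
  have hct : Tendsto (fun c : ℂ => c • y) (𝓝 1) (𝓝 y) := by
    simpa using h1.continuousAt.tendsto
  have hsm : ∀ᶠ c in 𝓝 (1 : ℂ), ‖v (c • y) - v y‖ < δ := by
    have h4 : Tendsto (fun c : ℂ => ‖v (c • y) - v y‖) (𝓝 1) (𝓝 0) := by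
      have := (hv.continuousAt.tendsto.comp hct).sub_const (v y)
      simpa using this.norm
    exact h4.eventually (gt_mem_nhds hδ)
  have hne : ∀ᶠ c in 𝓝 (1 : ℂ), c ≠ 0 := isOpen_ne.mem_nhds one_ne_zero
  have h0 : u y - v y ∈ Λ := hvu.self_of_nhds hy
  have hz : ∀ᶠ c in 𝓝 (1 : ℂ), v (c • y) = v y := by
    filter_upwards [hsm, hne, hct.eventually hvu] with c h5 h6 h7
    have h8 : u (c • y) - v (c • y) ∈ Λ := h7 (hX.smul_mem y hy c h6)
    have h9 : u (c • y) - u y ∈ Λ := hu.smul y hy c h6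
    have h10 : v (c • y) - v y ∈ Λ := by
      have := Λ.add_mem (Λ.sub_mem h9 h8) h0
      have e : u (c • y) - u y - (u (c • y) - v (c • y)) + (u y - v y) = v (c • y) - v y := by ring
      rwa [e] at this
    exact sub_eq_zero.mp (hd _ h10 h5)
  have h11 : HasDerivAt (fun c : ℂ => v (c • y)) 0 1 :=
    (hasDerivAt_const (1 : ℂ) (v y)).congr_of_eventuallyEq hz
  exact h3.unique h11

private theorem chain (hΛ : Lat Λ) {v : EN N → ℂ} {F : ℂ → EN N} {D : ℂ → ℂ} {z : ℂ}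
    (hv : AnalyticAt ℂ v (F z)) (hvu : ∀ᶠ w in 𝓝 (F z), w ∈ X → u w - v w ∈ Λ) (hF : AnalyticAt ℂ F z)
    (hFX : ∀ᶠ w in 𝓝 z, F w ∈ X) (hD : AnalyticAt ℂ D z) (hDu : ∀ᶠ w in 𝓝 z, u (F w) - D w ∈ Λ) :
    deriv D z = fderiv ℂ v (F z) (deriv F z) := by
  obtain ⟨δ, hδ, hd⟩ := hΛ.discrete
  have h1 : HasDerivAt (fun w => v (F w)) (fderiv ℂ v (F z) (deriv F z)) z :=
    hv.differentiableAt.hasFDerivAt.comp_hasDerivAt z hF.differentiableAt.hasDerivAt
  have h2 : HasDerivAt D (deriv D z) z := hD.differentiableAt.hasDerivAt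
  have h3 : HasDerivAt (fun w => D w - v (F w)) (deriv D z - fderiv ℂ v (F z) (deriv F z)) z := h2.sub h1
  have hmem : ∀ᶠ w in 𝓝 z, D w - v (F w) ∈ Λ := by
    filter_upwards [hFX, hDu, hF.continuousAt.tendsto.eventually hvu] with w h4 h5 h6
    have := Λ.sub_mem (h6 h4) h5
    have e : u (F w) - v (F w) - (u (F w) - D w) = D w - v (F w) := by ring
    rwa [e] at this
  have hm0 := hmem.self_of_nhds
  have hsm : ∀ᶠ w in 𝓝 z, ‖(D w - v (F w)) - (D z - v (F z))‖ < δ := by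
    have h4 : Tendsto (fun w => ‖(D w - v (F w)) - (D z - v (F z))‖) (𝓝 z) (𝓝 0) := by
      have := h3.continuousAt.tendsto.sub_const (D z - v (F z))
      simpa using this.norm
    exact h4.eventually (gt_mem_nhds hδ)
  have hz : (fun w => D w - v (F w)) =ᶠ[𝓝 z] fun _ => D z - v (F z) := by
    filter_upwards [hmem, hsm] with w h5 h6
    exact sub_eq_zero.mp (hd _ (Λ.sub_mem h5 hm0) h6)
  have h11 : HasDerivAt (fun w => D w - v (F w)) 0 z :=
    (hasDerivAt_const z (D z - v (F z))).congr_of_eventuallyEq hz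
  exact sub_eq_zero.mp (h3.unique h11)

private theorem perp (y w : EN N) (hy : y ≠ 0) : ∃ a : ℂ, ‖w - a • y‖ = ‖y‖ * fs y w := by
  have hyn : (‖y‖ : ℝ) ≠ 0 := norm_ne_zero_iff.mpr hy
  have hyc : ((‖y‖ : ℝ) : ℂ) ≠ 0 := by exact_mod_cast hyn
  refine ⟨inner ℂ y w / ((‖y‖ : ℝ) : ℂ) ^ 2, ?_⟩
  set a : ℂ := inner ℂ y w / ((‖y‖ : ℝ) : ℂ) ^ 2 with ha
  have h1 : inner ℂ y (w - a • y) = 0 := by
    rw [inner_sub_right, inner_smul_right, inner_self_eq_norm_sq_to_K]
    simp only [Complex.coe_algebraMap]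
    rw [ha]
    field_simp
    ring
  have h2 : wd y (w - a • y) = wd y w := by
    have := Pool.Agent.H36.BP.wd_inv y w 1 (-a)
    simp only [one_smul, norm_one, one_pow, one_mul] at this
    rw [← this]
    congr 1
    rw [neg_smul, sub_eq_add_neg]
  have h3 : wd y w ^ 2 = (‖y‖ * ‖w - a • y‖) ^ 2 := by
    rw [← h2, Pool.Agent.H36.BP.wd_sq, h1]
    simp
    ring
  have h4 : wd y w = ‖y‖ * ‖w - a • y‖ :=
    (sq_eq_sq₀ (Pool.Agent.H36.BP.wd_nonneg y w) (by positivity)).mp h3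
  unfold fs
  rw [h4]
  field_simp

private theorem du_local (hX : IsCone X) (hu : TorusMap X Λ u) (hΛ : Lat Λ) (x : EN N) (hx : x ∈ X) :
    ∃ C : ℝ, 0 < C ∧ ∀ᶠ y in 𝓝 x, y ∈ X → Bd X Λ u C y := by
  obtain ⟨v, hv, hvu⟩ := hu.loc x hx
  have hcont : ContinuousAt (fun y => ‖fderiv ℂ v y‖ * ‖y‖) x :=
    hv.fderiv.continuousAt.norm.mul continuous_norm.continuousAt
  refine ⟨‖fderiv ℂ v x‖ * ‖x‖ + 1, by positivity, ?_⟩
  have hb : ∀ᶠ y in 𝓝 x, ‖fderiv ℂ v y‖ * ‖y‖ < ‖fderiv ℂ v x‖ * ‖x‖ + 1 :=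
    hcont.tendsto.eventually (gt_mem_nhds (lt_add_one _))
  filter_upwards [hb, hv.eventually_analyticAt, hvu.eventually_nhds] with y h1 h2 h3 hy
  intro F D z hF hFX hFz hD hDu
  subst hFz
  have hyne : F z ≠ 0 := fun h => hX.zero_notMem (h ▸ hy)
  have h4 := euler hX hu hΛ hy h2 h3
  have h5 := chain hΛ h2 h3 hF hFX hD hDu
  obtain ⟨a, ha⟩ := perp (F z) (deriv F z) hyne
  have h6 : deriv D z = fderiv ℂ v (F z) (deriv F z - a • F z) := by
    rw [map_sub, map_smul, h4, smul_zero, sub_zero, h5]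
  have hfs := Pool.Agent.H36.BP.fs_nonneg (F z) (deriv F z)
  calc ‖deriv D z‖ = ‖fderiv ℂ v (F z) (deriv F z - a • F z)‖ := by rw [h6]
    _ ≤ ‖fderiv ℂ v (F z)‖ * ‖deriv F z - a • F z‖ := ContinuousLinearMap.le_opNorm _ _
    _ = (‖fderiv ℂ v (F z)‖ * ‖F z‖) * fs (F z) (deriv F z) := by rw [ha]; ring
    _ ≤ (‖fderiv ℂ v x‖ * ‖x‖ + 1) * fs (F z) (deriv F z) := mul_le_mul_of_nonneg_right h1.le hfs

private theorem Bd.mono {C C' : ℝ} {y : EN N} (h : Bd X Λ u C y) (hC : C ≤ C') : Bd X Λ u C' y := by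
  intro F D z h1 h2 h3 h4 h5
  exact (h F D z h1 h2 h3 h4 h5).trans
    (mul_le_mul_of_nonneg_right hC (Pool.Agent.H36.BP.fs_nonneg _ _))

private theorem du_sphere (hX : IsCone X) (hu : TorusMap X Λ u) (hΛ : Lat Λ) :
    ∃ C : ℝ, 0 < C ∧ ∀ y ∈ X ∩ sphere (0 : EN N) 1, Bd X Λ u C y := by
  have hc : IsCompact (X ∩ sphere (0 : EN N) 1) := by
    have h1 : X ∩ sphere (0 : EN N) 1 = sphere (0 : EN N) 1 ∩ insert 0 X := by
      ext y
      constructor
      · rintro ⟨h2, h3⟩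
        exact ⟨h3, Or.inr h2⟩
      · rintro ⟨h2, h3⟩
        rcases h3 with h3 | h3
        · exfalso
          rw [h3] at h2
          simp at h2
        · exact ⟨h3, h2⟩
    rw [h1]
    exact (isCompact_sphere (0 : EN N) 1).inter_right hX.closed
  refine hc.induction_on (p := fun s => ∃ C : ℝ, 0 < C ∧ ∀ y ∈ s, Bd X Λ u C y)
    ⟨1, one_pos, fun y hy => absurd hy (Set.notMem_empty y)⟩ ?_ ?_ ?_
  · rintro s t hst ⟨C, hC, h⟩
    exact ⟨C, hC, fun y hy => h y (hst hy)⟩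
  · rintro s t ⟨C, hC, h⟩ ⟨C', hC', h'⟩
    refine ⟨max C C', lt_max_of_lt_left hC, ?_⟩
    rintro y (hy | hy)
    · exact (h y hy).mono (le_max_left _ _)
    · exact (h' y hy).mono (le_max_right _ _)
  · intro x hx
    obtain ⟨C, hC, h⟩ := du_local hX hu hΛ x hx.1
    refine ⟨(X ∩ sphere (0 : EN N) 1) ∩ {y | y ∈ X → Bd X Λ u C y}, ?_, C, hC, fun y hy => hy.2 hy.1.1⟩
    exact inter_mem self_mem_nhdsWithin (mem_nhdsWithin_of_mem_nhds h)

private theorem fs_scale (x w : EN N) (c : ℂ) (hc : c ≠ 0) : fs (c • x) (c • w) = fs x w := by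
  have h1 : wd (c • x) (c • w) = ‖c‖ ^ 2 * wd x w := by
    have := Pool.Agent.H36.BP.wd_inv x w c 0
    rwa [zero_smul, add_zero] at this
  have h2 : ‖c‖ ≠ 0 := norm_ne_zero_iff.mpr hc
  unfold fs
  rw [h1, norm_smul, mul_pow]
  exact mul_div_mul_left _ _ (pow_ne_zero 2 h2)

theorem TorusMap.du_bound (hX : IsCone X) (hu : TorusMap X Λ u) (hΛ : Lat Λ) : ∃ C : ℝ, 0 < C ∧
    ∀ (F : ℂ → EN N) (D : ℂ → ℂ) (z : ℂ), AnalyticAt ℂ F z → (∀ᶠ w in 𝓝 z, F w ∈ X) → AnalyticAt ℂ D z →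
      (∀ᶠ w in 𝓝 z, u (F w) - D w ∈ Λ) → ‖deriv D z‖ ≤ C * fs (F z) (deriv F z) := by
  obtain ⟨C, hC, h⟩ := du_sphere hX hu hΛ
  refine ⟨C, hC, ?_⟩
  intro F D z hF hFX hD hDu
  have hz : F z ∈ X := hFX.self_of_nhds
  have hne : F z ≠ 0 := fun h0 => hX.zero_notMem (h0 ▸ hz)
  have hn : ‖F z‖ ≠ 0 := norm_ne_zero_iff.mpr hne
  set c : ℂ := ((‖F z‖⁻¹ : ℝ) : ℂ) with hcdef
  have hc : c ≠ 0 := by
    rw [hcdef]; exact_mod_cast inv_ne_zero hn
  have hcn : ‖c‖ = ‖F z‖⁻¹ := by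
    rw [hcdef, Complex.norm_real, Real.norm_eq_abs, abs_of_nonneg (by positivity)]
  have hmem : c • F z ∈ X ∩ sphere (0 : EN N) 1 := by
    refine ⟨hX.smul_mem _ hz c hc, ?_⟩
    rw [mem_sphere_zero_iff_norm, norm_smul, hcn]
    exact inv_mul_cancel₀ hn
  have hG : AnalyticAt ℂ (fun w => c • F w) z := by
    exact (analyticAt_const : AnalyticAt ℂ (fun _ : ℂ => c) z).smul hF
  have h1 := h (c • F z) hmem (fun w => c • F w) D z hG
    (hFX.mono fun w hw => hX.smul_mem _ hw c hc) rfl hD (by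
      filter_upwards [hFX, hDu] with w h2 h3
      have := Λ.add_mem (hu.smul (F w) h2 c hc) h3
      have e : u (c • F w) - u (F w) + (u (F w) - D w) = u (c • F w) - D w := by ring
      rwa [e] at this)
  have h2 : deriv (fun w => c • F w) z = c • deriv F z := by
    exact (hF.differentiableAt.hasDerivAt.const_smul c).deriv
  simp only [h2] at h1
  rwa [fs_scale _ _ c hc] at h1

end Pool.Agent.H62.EF

end

section

/-!
# EF Aff: entire curves of order two are sections up to an affine change of the variable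
-/

set_option autoImplicit false

open Topology Filter Metric

namespace Pool.Agent.H62.EF

attribute [-instance] ProperSMul.toContinuousSMul

open Pool.Agent.H36.BP (EN fs wd)
open Pool.Agent.H14.PP (IsCone)

variable {N : ℕ} {X : Set (EN N)} {Λ : AddSubgroup ℂ} {u : EN N → ℂ}

theorem affine_lift (hX : IsCone X) (hu : TorusMap X Λ u) (hΛ : Lat Λ) {F : ℂ → EN N} (hF : Differentiable ℂ F) (hFX : ∀ z, F z ∈ X)
    {A : ℝ} (hA : ∀ r : ℝ, 0 < r → Real.circleAverage (fun z => Real.log ‖F z‖) 0 r ≤ A * (1 + r ^ 2)) :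
    ∃ α β : ℂ, ∀ z, u (F z) - (α * z + β) ∈ Λ := by
  obtain ⟨D, hD, hDu⟩ := hu.lift hΛ hF hFX
  obtain ⟨C, hC, hCb⟩ := hu.du_bound hX hΛ
  have h0 : ∀ z, F z ≠ 0 := fun z h => hX.zero_notMem (h ▸ hFX z)
  obtain ⟨c, hc, hcC⟩ : ∃ c : ℝ, 0 < c ∧ c * C ^ 2 = 1 / 2 := ⟨1 / (2 * C ^ 2), by positivity, by field_simp⟩
  have hfs : ∀ z, c * ‖deriv D z‖ ^ 2 ≤ fs (F z) (deriv F z) ^ 2 / 2 := by
    intro z
    have h1 := hCb F D z (hF.analyticAt z) (Filter.Eventually.of_forall hFX) (hD.analyticAt z) (Filter.Eventually.of_forall hDu)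
    have h2 : ‖deriv D z‖ ^ 2 ≤ (C * fs (F z) (deriv F z)) ^ 2 := pow_le_pow_left₀ (norm_nonneg _) h1 2
    calc c * ‖deriv D z‖ ^ 2 ≤ c * (C * fs (F z) (deriv F z)) ^ 2 := mul_le_mul_of_nonneg_left h2 hc.le
      _ = (c * C ^ 2) * fs (F z) (deriv F z) ^ 2 := by ring
      _ = fs (F z) (deriv F z) ^ 2 / 2 := by rw [hcC]; ring
  obtain ⟨α, β, hαβ⟩ := affine_of_mean hD (A := (4 + |A| + |Real.log ‖F 0‖| + c * ‖D 0‖ ^ 2) / c) (by
    intro r hr
    have h1 := mean_ineq hF h0 hD hc hfs hr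
    have h2 := hA r hr
    have h3 : (0 : ℝ) ≤ r ^ 2 := sq_nonneg r
    rw [div_mul_eq_mul_div, le_div_iff₀ hc, mul_comm]
    have h4 : A * (1 + r ^ 2) ≤ |A| * (1 + r ^ 2) := mul_le_mul_of_nonneg_right (le_abs_self A) (by linarith)
    have h5 := neg_abs_le (Real.log ‖F 0‖)
    have h6 : (0 : ℝ) ≤ c * ‖D 0‖ ^ 2 := by positivity
    have h7 := abs_nonneg (Real.log ‖F 0‖)
    have h8 : (4 + |Real.log ‖F 0‖| + c * ‖D 0‖ ^ 2) * 1 ≤ (4 + |Real.log ‖F 0‖| + c * ‖D 0‖ ^ 2) * (1 + r ^ 2) :=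
      mul_le_mul_of_nonneg_left (by linarith) (by linarith)
    nlinarith)
  exact ⟨α, β, fun z => by rw [← hαβ]; exact hDu z⟩

end Pool.Agent.H62.EF

end

section

/-!
# EF Four: the four properties of the Green–Griffiths–Lang conjecture
-/

set_option autoImplicit false

open MvPolynomial

noncomputable section

namespace Pool.Agent.H17EF

attribute [-instance] ProperSMul.toContinuousSMul

open Pool.Agent.H17 (PN VanishesAt ZariskiClosedIn HolomorphicInto puncturedDisc)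
open Pool.Agent.H17LG.Variety (FunField IsLogGeneralType)

variable {N : ℕ}

theorem locVar_one (P : Ideal (MvPolynomial (Fin (N + 1)) ℂ)) :
    Pool.Agent.H62.SA.locVar P (fun _ : Fin 1 => (1 : MvPolynomial (Fin (N + 1)) ℂ)) = projVar P := by
  ext x
  constructor
  · exact fun h => h.1
  · intro h
    refine ⟨h, 0, ?_⟩
    unfold VanishesAt
    simp

theorem onBd_one (P : Ideal (MvPolynomial (Fin (N + 1)) ℂ)) [P.IsPrime] (k : ℕ) :
    (Pool.Agent.H62.SA.OnBd P (fun _ : Fin 1 => (1 : MvPolynomial (Fin (N + 1)) ℂ)) (k := k)) = fun _ => False := by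
  funext E
  apply propext
  constructor
  · rintro ⟨j, -, -, h⟩
    have := h 0
    rw [map_one] at this
    rw [E.ord.map_one] at this
    exact absurd this (lt_irrefl _)
  · exact False.elim

theorem two_of_basis {K : Type} [Field K] [Algebra ℂ K] {w : ℕ} (h : ∃ z : Fin 2 → K, IsTranscendenceBasis ℂ z)
    (hw : ∃ z : Fin w → K, IsTranscendenceBasis ℂ z) : w = 2 := by
  obtain ⟨z, hz⟩ := h
  obtain ⟨z', hz'⟩ := hw
  have h1 := hz.lift_cardinalMk_eq_trdeg
  have h2 := hz'.lift_cardinalMk_eq_trdeg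
  rw [← h1] at h2
  have h3 : ((w : ℕ) : Cardinal) = ((2 : ℕ) : Cardinal) := by simpa using h2
  exact_mod_cast h3

section

variable {P : Ideal (MvPolynomial (Fin (N + 1)) ℂ)} [P.IsPrime] {z : Fin 2 → FunField P}

end

end Pool.Agent.H17EF

end
end

section

/-!
# TH Bas: basic properties of symmetric differentials

`tC θ χ` is the expression of `θ` in the chart `χ`; `SymDiff.curve` is the value of `θ` on the derivative of a curve, `SymDiff.lift_eq` says
that it does not depend on the lift, `SymDiff.curve_an` that it is holomorphic, and `SymDiff.bound` compares `θ` with the metric `fs`.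
-/

set_option autoImplicit false

open Topology Filter Metric

namespace Pool.Agent.H92.TH

attribute [-instance] ProperSMul.toContinuousSMul

open Pool.Agent.H36.BP (EN fs wd)
open Pool.Agent.H14.PP (IsCone Chart Form Tan CurveAt IsOpenPart)
open Pool.Agent.H62.EF (Charts)

variable {N : ℕ} {X : Set (EN N)} {m : ℕ}

theorem isOpenPart_self (hX : IsCone X) : IsOpenPart X X :=
  ⟨subset_rfl, hX.smul_mem, fun _ _ => Eventually.of_forall fun _ h => h⟩

theorem tan_sigma (hX : IsCone X) (χ : Chart X) {p : ℂ × ℂ} (hp : p ∈ ball (0 : ℂ × ℂ) 2) (w : ℂ × ℂ) :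
    Tan X (χ.σ p) (fderiv ℂ χ.σ p w) :=
  χ.tan (isOpenPart_self hX) hp (χ.σ_mem p hp).1 w

/-- The expression of the differential in a chart. -/
noncomputable def tC (θ : SymDiff X m) (χ : Chart X) (y : (ℂ × ℂ) × (ℂ × ℂ)) : ℂ := θ.toFun (χ.σ y.1) (fderiv ℂ χ.σ y.1 y.2)

theorem tC_an (θ : SymDiff X m) (χ : Chart X) {p : ℂ × ℂ} (hp : p ∈ ball (0 : ℂ × ℂ) 2) (w : ℂ × ℂ) :
    AnalyticAt ℂ (tC θ χ) (p, w) := by
  refine θ.analytic χ.σ p w (χ.σ_an p hp) ?_
  filter_upwards [isOpen_ball.mem_nhds hp] with y hy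
  exact (χ.σ_mem y hy).1

theorem tC_smul (hX : IsCone X) (θ : SymDiff X m) (χ : Chart X) {p : ℂ × ℂ} (hp : p ∈ ball (0 : ℂ × ℂ) 2) (a : ℂ) (w : ℂ × ℂ) :
    tC θ χ (p, a • w) = a ^ m * tC θ χ (p, w) := by
  unfold tC
  simp only [map_smul]
  exact θ.smul _ (χ.σ_mem p hp).1 _ (tan_sigma hX χ hp w) a

/-- The value of `θ` on the derivative of a curve. -/
theorem SymDiff.curve (hX : IsCone X) (θ : SymDiff X m) (χ : Chart X) {F : ℂ → EN N} {z₀ : ℂ} (hF : CurveAt X F z₀) (hU : F z₀ ∈ χ.U) :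
    θ.toFun (F z₀) (deriv F z₀) = tC θ χ (χ.q (F z₀), deriv (fun z => χ.q (F z)) z₀) := by
  obtain ⟨hq, _, c, hc, hc0, hev⟩ := χ.curve hX hF hU
  have hp : χ.q (F z₀) ∈ ball (0 : ℂ × ℂ) 2 := hev.self_of_nhds.1
  have hF0 : F z₀ = c z₀ • χ.σ (χ.q (F z₀)) := hev.self_of_nhds.2
  have h1 : HasDerivAt (fun z => χ.σ (χ.q (F z))) (fderiv ℂ χ.σ (χ.q (F z₀)) (deriv (fun z => χ.q (F z)) z₀)) z₀ :=
    (χ.σ_an _ hp).differentiableAt.hasFDerivAt.comp_hasDerivAt z₀ hq.differentiableAt.hasDerivAt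
  have h2 : HasDerivAt (fun z => c z • χ.σ (χ.q (F z))) (c z₀ • fderiv ℂ χ.σ (χ.q (F z₀)) (deriv (fun z => χ.q (F z)) z₀) +
      deriv c z₀ • χ.σ (χ.q (F z₀))) z₀ := hc.differentiableAt.hasDerivAt.smul h1
  have h3 : F =ᶠ[𝓝 z₀] fun z => c z • χ.σ (χ.q (F z)) := by
    filter_upwards [hev] with z hz
    exact hz.2
  have h4 : deriv F z₀ = c z₀ • fderiv ℂ χ.σ (χ.q (F z₀)) (deriv (fun z => χ.q (F z)) z₀) +
      (deriv c z₀ * (c z₀)⁻¹) • (c z₀ • χ.σ (χ.q (F z₀))) := by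
    rw [h3.deriv_eq, h2.deriv, smul_smul, mul_assoc, inv_mul_cancel₀ hc0, mul_one]
  have ht := tan_sigma hX χ hp (deriv (fun z => χ.q (F z)) z₀)
  have hm := (χ.σ_mem _ hp).1
  unfold tC
  simp only
  generalize χ.q (F z₀) = p at hp hF0 h4 ht hm ⊢
  generalize deriv (fun z => χ.q (F z)) z₀ = w at h4 ht ⊢
  rw [h4, hF0, θ.add_smul _ (hX.smul_mem _ hm _ hc0) _ (tan_smul hX ht hc0), θ.scale _ hm _ ht _ hc0]

/-- The value of `θ` on the derivative of a holomorphic curve is a holomorphic function. -/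
theorem SymDiff.curve_an (hX : IsCone X) (hch : Charts X) (θ : SymDiff X m) {F : ℂ → EN N} {z₀ : ℂ} (hF : CurveAt X F z₀) :
    AnalyticAt ℂ (fun z => θ.toFun (F z) (deriv F z)) z₀ := by
  obtain ⟨χ, hU, _⟩ := hch (F z₀) hF.2.self_of_nhds
  obtain ⟨hq, _, _, _, _, hev⟩ := χ.curve hX hF hU
  have h1 : AnalyticAt ℂ (fun z => tC θ χ (χ.q (F z), deriv (fun z => χ.q (F z)) z)) z₀ := by
    have h2 : AnalyticAt ℂ (fun z => (χ.q (F z), deriv (fun z => χ.q (F z)) z)) z₀ := hq.prod hq.deriv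
    exact AnalyticAt.comp (g := tC θ χ) (f := fun z => (χ.q (F z), deriv (fun z => χ.q (F z)) z))
      (tC_an θ χ hev.self_of_nhds.1 _) h2
  refine h1.congr ?_
  filter_upwards [hF.1.eventually_analyticAt, hF.2.eventually_nhds, hF.1.continuousAt (χ.isOpen_U.mem_nhds hU)] with z h3 h4 h5
  exact (SymDiff.curve hX θ χ ⟨h3, h4⟩ h5).symm

/-- The value of `θ` on a tangent vector. -/
theorem SymDiff.eq_tC (hX : IsCone X) (θ : SymDiff X m) (χ : Chart X) {x v : EN N} (h : Tan X x v) (hU : x ∈ χ.U) :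
    θ.toFun x v = tC θ χ (χ.q x, fderiv ℂ χ.q x v) := by
  obtain ⟨F, hF, h0, hd⟩ := h
  subst h0 hd
  rw [SymDiff.curve hX θ χ hF hU, (χ.curve hX hF hU).2.1]

theorem fs_scale {x : EN N} (hx : x ≠ 0) (v : EN N) {c : ℂ} (hc : c ≠ 0) : fs (c • x) (c • v) = fs x v := by
  have h := Pool.Agent.H36.BP.fs_inv hx v hc 0
  rwa [zero_smul, add_zero] at h

/-- The local bound. -/
theorem SymDiff.bound_chart (hX : IsCone X) (θ : SymDiff X m) (χ : Chart X) :
    ∃ C : ℝ, 0 < C ∧ ∀ x ∈ X, x ∈ χ.U → ‖χ.q x‖ ≤ 1 → ∀ v, Tan X x v → ‖θ.toFun x v‖ ≤ C * fs x v ^ m := by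
  obtain ⟨C₂, hC₂, h2, _⟩ := χ.exists_fs_bound hX
  have hsub : closedBall (0 : ℂ × ℂ) 1 ⊆ ball (0 : ℂ × ℂ) 2 := closedBall_subset_ball (by norm_num)
  have hcomp : IsCompact (closedBall (0 : ℂ × ℂ) 1 ×ˢ closedBall (0 : ℂ × ℂ) 1) :=
    (isCompact_closedBall _ _).prod (isCompact_closedBall _ _)
  obtain ⟨C₁, hC₁⟩ := hcomp.exists_bound_of_continuousOn (f := tC θ χ) (by
    rintro ⟨p, w⟩ ⟨hp, _⟩
    exact (tC_an θ χ (hsub hp) w).continuousAt.continuousWithinAt)
  have hC₁0 : 0 ≤ C₁ := (norm_nonneg _).trans (hC₁ ((0 : ℂ × ℂ), (0 : ℂ × ℂ))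
    ⟨mem_closedBall_self zero_le_one, mem_closedBall_self zero_le_one⟩)
  refine ⟨(C₁ + 1) * C₂ ^ m, by positivity, ?_⟩
  intro x hx hU hq v hv
  rw [SymDiff.eq_tC hX θ χ hv hU]
  set w := fderiv ℂ χ.q x v with hw
  have hp : χ.q x ∈ closedBall (0 : ℂ × ℂ) 1 := by rwa [mem_closedBall_zero_iff]
  have h3 : ‖tC θ χ (χ.q x, w)‖ ≤ C₁ * ‖w‖ ^ m := by
    obtain ⟨u, hu, hwu⟩ : ∃ u : ℂ × ℂ, ‖u‖ ≤ 1 ∧ w = ((‖w‖ : ℝ) : ℂ) • u := by
      by_cases h0 : w = 0
      · exact ⟨0, by simp, by simp [h0]⟩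
      · have hn : ‖w‖ ≠ 0 := norm_ne_zero_iff.mpr h0
        refine ⟨((‖w‖⁻¹ : ℝ) : ℂ) • w, ?_, ?_⟩
        · rw [norm_smul, Complex.norm_real, Real.norm_of_nonneg (by positivity), inv_mul_cancel₀ hn]
        · rw [smul_smul, ← Complex.ofReal_mul, mul_inv_cancel₀ hn, Complex.ofReal_one, one_smul]
    have h4 : tC θ χ (χ.q x, w) = ((‖w‖ : ℝ) : ℂ) ^ m * tC θ χ (χ.q x, u) := by
      conv_lhs => rw [hwu]
      exact tC_smul hX θ χ (hsub hp) _ u
    rw [h4, norm_mul, norm_pow, Complex.norm_real, Real.norm_of_nonneg (norm_nonneg _), mul_comm]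
    exact mul_le_mul_of_nonneg_right (hC₁ (χ.q x, u) ⟨hp, by rwa [mem_closedBall_zero_iff]⟩) (by positivity)
  have h5 : ‖w‖ ≤ C₂ * fs x v := h2 x hx hU hq v
  have h6 : ‖w‖ ^ m ≤ (C₂ * fs x v) ^ m := pow_le_pow_left₀ (norm_nonneg _) h5 m
  have h7 : 0 ≤ (C₂ * fs x v) ^ m := le_trans (by positivity) h6
  calc ‖tC θ χ (χ.q x, w)‖ ≤ C₁ * ‖w‖ ^ m := h3
    _ ≤ C₁ * (C₂ * fs x v) ^ m := mul_le_mul_of_nonneg_left h6 hC₁0
    _ ≤ (C₁ + 1) * (C₂ * fs x v) ^ m := mul_le_mul_of_nonneg_right (by linarith) h7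
    _ = (C₁ + 1) * C₂ ^ m * fs x v ^ m := by rw [mul_pow]; ring

/-- `θ` is bounded by the metric. -/
theorem SymDiff.bound (hX : IsCone X) (hch : Charts X) (θ : SymDiff X m) :
    ∃ C : ℝ, 0 < C ∧ ∀ x ∈ X, ∀ v, Tan X x v → ‖θ.toFun x v‖ ≤ C * fs x v ^ m := by
  have hX0 : ∀ x ∈ X, x ≠ 0 := fun x hx h => hX.zero_notMem (h ▸ hx)
  have hcomp : IsCompact (sphere (0 : EN N) 1 ∩ insert 0 X) := (isCompact_sphere _ _).inter_right hX.closed
  have hloc : ∃ C : ℝ, 0 < C ∧ ∀ x ∈ sphere (0 : EN N) 1 ∩ insert 0 X, x ∈ X → ∀ v, Tan X x v → ‖θ.toFun x v‖ ≤ C * fs x v ^ m := by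
    refine hcomp.induction_on (p := fun S => ∃ C : ℝ, 0 < C ∧ ∀ x ∈ S, x ∈ X → ∀ v, Tan X x v → ‖θ.toFun x v‖ ≤ C * fs x v ^ m)
      ⟨1, one_pos, fun x hx => absurd hx (Set.notMem_empty x)⟩ ?_ ?_ ?_
    · rintro S T hST ⟨C, hC, h⟩
      exact ⟨C, hC, fun x hx => h x (hST hx)⟩
    · rintro S T ⟨C, hC, h⟩ ⟨C', hC', h'⟩
      refine ⟨max C C', lt_max_of_lt_left hC, fun x hx hxX v hv => ?_⟩
      have hf : 0 ≤ fs x v ^ m := pow_nonneg (Pool.Agent.H36.BP.fs_nonneg x v) m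
      rcases hx with hx | hx
      · exact (h x hx hxX v hv).trans (mul_le_mul_of_nonneg_right (le_max_left _ _) hf)
      · exact (h' x hx hxX v hv).trans (mul_le_mul_of_nonneg_right (le_max_right _ _) hf)
    · rintro x ⟨hx1, hx2⟩
      have hx0 : x ≠ 0 := by
        rintro rfl
        simp at hx1
      have hxX : x ∈ X := by
        rcases hx2 with h | h
        · exact absurd h hx0
        · exact h
      obtain ⟨χ, hU, hq⟩ := hch x hxX
      obtain ⟨C, hC, h⟩ := SymDiff.bound_chart hX θ χ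
      refine ⟨{y | y ∈ χ.U ∧ ‖χ.q y‖ ≤ 1}, ?_, C, hC, fun y hy hyX v hv => h y hyX hy.1 hy.2 v hv⟩
      refine mem_nhdsWithin_of_mem_nhds ?_
      have h1 : ∀ᶠ y in 𝓝 x, ‖χ.q y‖ < 1 := by
        have h2 : ContinuousAt (fun y => ‖χ.q y‖) x := (χ.q_an x hU).continuousAt.norm
        exact h2.eventually_lt_const (by simp [hq])
      filter_upwards [χ.isOpen_U.mem_nhds hU, h1] with y hy1 hy2
      exact ⟨hy1, hy2.le⟩
  obtain ⟨C, hC, h⟩ := hloc
  refine ⟨C, hC, fun x hx v hv => ?_⟩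
  have hx0 := hX0 x hx
  have hn : ‖x‖ ≠ 0 := norm_ne_zero_iff.mpr hx0
  set c : ℂ := ((‖x‖⁻¹ : ℝ) : ℂ) with hcdef
  have hc : c ≠ 0 := by
    rw [hcdef]
    exact_mod_cast inv_ne_zero hn
  have hcx : c • x ∈ X := hX.smul_mem x hx c hc
  have h1 : ‖c • x‖ = 1 := by
    rw [norm_smul, hcdef, Complex.norm_real, Real.norm_of_nonneg (by positivity), inv_mul_cancel₀ hn]
  have h2 := h (c • x) ⟨by rwa [mem_sphere_zero_iff_norm], Or.inr hcx⟩ hcx (c • v) (tan_smul hX hv hc)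
  rwa [θ.scale x hx v hv c hc, fs_scale hx0 v hc] at h2

end Pool.Agent.H92.TH

end

section

/-!
# V Fam: curves of order two on surfaces with symmetric differentials
-/

set_option autoImplicit false

open Topology Filter Metric

namespace Pool.Agent.H14.V

attribute [-instance] ProperSMul.toContinuousSMul

open Pool.Agent.H36.BP (EN fs wd)
open Pool.Agent.H14.PP (IsCone Chart Form Tan)
open Pool.Agent.H62.EF (MN pr Charts)
open Pool.Agent.H92.TH (SymDiff)

variable {N : ℕ} {X : Set (EN N)}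

theorem tan_of_curve {F : ℂ → EN N} (hF : Differentiable ℂ F) (hFX : ∀ z, F z ∈ X) (z : ℂ) : Tan X (F z) (deriv F z) := by
  refine ⟨fun w => F (z + w), ⟨(hF.comp (differentiable_id.const_add z)).analyticAt 0, Eventually.of_forall fun w => hFX _⟩, by simp, ?_⟩
  have := deriv_comp_const_add (f := F) z 0
  simpa using this

theorem theta_entire (hX : IsCone X) (hch : Charts X) {m : ℕ} (θ : SymDiff X m) {F : ℂ → EN N} (hF : Differentiable ℂ F)
    (hFX : ∀ z, F z ∈ X) : Differentiable ℂ fun z => θ.toFun (F z) (deriv F z) :=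
  fun z => (θ.curve_an hX hch ⟨hF.analyticAt z, Eventually.of_forall hFX⟩).differentiableAt

theorem fs_smul_right (x v : EN N) (a : ℂ) : fs x (a • v) = ‖a‖ * fs x v := by
  unfold fs wd
  rw [norm_smul, inner_smul_right, norm_mul]
  have : ‖x‖ ^ 2 * (‖a‖ * ‖v‖) ^ 2 - (‖a‖ * ‖inner ℂ x v‖) ^ 2 = ‖a‖ ^ 2 * (‖x‖ ^ 2 * ‖v‖ ^ 2 - ‖inner ℂ x v‖ ^ 2) := by ring
  rw [this, Real.sqrt_mul (by positivity), Real.sqrt_sq (norm_nonneg _)]
  ring

/-- a curve with derivative zero is constant -/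
theorem pr_const {F : ℂ → EN N} (hF : Differentiable ℂ F) (h0 : ∀ z, F z ≠ 0) (h : ∀ z, fs (F z) (deriv F z) = 0) (z w : ℂ) :
    pr (F z) = pr (F w) := by
  have h1 := Pool.Agent.H62.EF.pr_lipschitz isOpen_univ convex_univ hF.differentiableOn (fun z _ => h0 z) (L := 0)
    (fun z _ => (h z).le) z (Set.mem_univ _) w (Set.mem_univ _)
  rw [mul_zero, zero_mul] at h1
  exact dist_le_zero.1 h1

end Pool.Agent.H14.V

end
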