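import Pool.Agent.H94.CB.H13.OT.Wrap
import Pool.Agent.H94.CB.H17EF.Bridge
import Pool.Agent.H94.CB.M84

/-! The parts of this file: H17EF.Closed, H17EF.MainE. -/

section

/-!
# EF Closed: unions of closed subsets of a projective variety
-/

set_option autoImplicit false

open Topology Filter MvPolynomial

noncomputable section

namespace Pool.Agent.H17EF

attribute [-instance] ProperSMul.toContinuousSMul

open Pool.Agent.H17 (PN VanishesAt HolomorphicInto ZariskiClosedIn)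
open Pool.Agent.H62.FC (Homog)

variable {N : ℕ} {P : Ideal (MvPolynomial (Fin (N + 1)) ℂ)}

/-- A form which is not in the homogeneous prime ideal `P` does not vanish at some point of the variety of `P`. -/
theorem exists_point [hPp : P.IsPrime] (hP : Homog P) (hX : ∃ i, (X i : MvPolynomial (Fin (N + 1)) ℂ) ∉ P)
    {Q : MvPolynomial (Fin (N + 1)) ℂ} (hQP : Q ∉ P) {n : ℕ} (hQ : Q.IsHomogeneous n) : ∃ x ∈ projVar P, ¬ VanishesAt Q x := by
  obtain ⟨i, hi⟩ := hX
  have h1 : Q * X i ∉ P := fun h => (hPp.mem_or_mem h).elim hQP hi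
  obtain ⟨x, hx, hx'⟩ : ∃ x : Fin (N + 1) → ℂ, (∀ R ∈ P, eval x R = 0) ∧ eval x (Q * X i) ≠ 0 := by
    by_contra hcon
    push Not at hcon
    apply h1
    rw [← hPp.radical, ← MvPolynomial.vanishingIdeal_zeroLocus_eq_radical (K := ℂ) P, MvPolynomial.mem_vanishingIdeal_iff]
    intro x hx
    rw [MvPolynomial.mem_zeroLocus_iff] at hx
    rw [MvPolynomial.aeval_eq_eval]
    exact hcon x fun R hR => by
      have := hx R hR
      rwa [MvPolynomial.aeval_eq_eval] at this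
  rw [map_mul, eval_X] at hx'
  have hx0 : x ≠ 0 := by
    rintro rfl
    simp at hx'
  refine ⟨Projectivization.mk ℂ x hx0, (mk_mem_projVar hP hx0).2 ⟨hx0, hx⟩, ?_⟩
  unfold VanishesAt
  obtain ⟨a, ha, hrep⟩ := Pool.Agent.H36.BP.rep_mk hx0
  rw [hrep, mk_mem_projVar.eval_smul_form' hQ]
  exact mul_ne_zero (pow_ne_zero n ha) (left_ne_zero_of_mul hx')

/-- if the variety of `P` is not empty, some coordinate is not in `P` -/
theorem exists_coord {x : PN N} (hx : x ∈ projVar P) : ∃ i, (X i : MvPolynomial (Fin (N + 1)) ℂ) ∉ P := by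
  by_contra hcon
  push Not at hcon
  apply x.rep_nonzero
  funext i
  have := hx _ (hcon i) 1 (isHomogeneous_X ℂ i)
  unfold VanishesAt at this
  simpa using this

/-- A proper closed subset lies in a hypersurface which does not contain the variety. -/
theorem exists_form_of_ne {Ξ : Set (PN N)} (hΞ : ZariskiClosedIn (projVar P) Ξ) (hne : Ξ ≠ projVar P) :
    ∃ (R : MvPolynomial (Fin (N + 1)) ℂ) (n : ℕ), R.IsHomogeneous n ∧ R ∉ P ∧ ∀ x ∈ Ξ, VanishesAt R x := by
  obtain ⟨S, hS, rfl⟩ := hΞ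
  obtain ⟨x, hx, R, hR, hRx⟩ : ∃ x ∈ projVar P, ∃ R ∈ S, ¬ VanishesAt R x := by
    by_contra hcon
    push Not at hcon
    exact hne (Set.Subset.antisymm (fun x hx => hx.1) fun x hx => ⟨hx, hcon x hx⟩)
  obtain ⟨n, hn⟩ := hS R hR
  exact ⟨R, n, hn, fun h => hRx (hx R h n hn), fun y hy => hy.2 R hR⟩

theorem closed_union {X A B : Set (PN N)} (hA : ZariskiClosedIn X A) (hB : ZariskiClosedIn X B) : ZariskiClosedIn X (A ∪ B) := by
  obtain ⟨S, hS, rfl⟩ := hA
  obtain ⟨T, hT, rfl⟩ := hB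
  refine ⟨{R | ∃ Q ∈ S, ∃ Q' ∈ T, R = Q * Q'}, ?_, ?_⟩
  · rintro _ ⟨Q, hQ, Q', hQ', rfl⟩
    obtain ⟨n, hn⟩ := hS Q hQ
    obtain ⟨m, hm⟩ := hT Q' hQ'
    exact ⟨n + m, hn.mul hm⟩
  · ext x
    constructor
    · rintro (⟨hx, h⟩ | ⟨hx, h⟩)
      · refine ⟨hx, ?_⟩
        rintro _ ⟨Q, hQ, Q', hQ', rfl⟩
        unfold VanishesAt
        have := h Q hQ
        unfold VanishesAt at this
        rw [map_mul, this, zero_mul]
      · refine ⟨hx, ?_⟩
        rintro _ ⟨Q, hQ, Q', hQ', rfl⟩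
        unfold VanishesAt
        have := h Q' hQ'
        unfold VanishesAt at this
        rw [map_mul, this, mul_zero]
    · rintro ⟨hx, h⟩
      by_cases hA : ∀ Q ∈ S, VanishesAt Q x
      · exact Or.inl ⟨hx, hA⟩
      · right
        refine ⟨hx, fun Q' hQ' => ?_⟩
        push Not at hA
        obtain ⟨Q, hQ, hQx⟩ := hA
        have := h (Q * Q') ⟨Q, hQ, Q', hQ', rfl⟩
        unfold VanishesAt at this hQx ⊢
        rw [map_mul] at this
        exact (mul_eq_zero.1 this).resolve_left hQx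

theorem closed_biUnion {X : Set (PN N)} {ι : Type*} {I : Set ι} (hI : I.Finite) {A : ι → Set (PN N)}
    (hA : ∀ i ∈ I, ZariskiClosedIn X (A i)) : ZariskiClosedIn X (⋃ i ∈ I, A i) := by
  induction I, hI using Set.Finite.induction_on with
  | empty =>
    refine ⟨{1}, ?_, ?_⟩
    · intro R hR
      rw [Set.mem_singleton_iff.1 hR]
      exact ⟨0, isHomogeneous_one _ _⟩
    · ext x
      simp [VanishesAt]
  | @insert a s _ _ ih =>
    rw [Set.biUnion_insert]
    exact closed_union (hA a (Set.mem_insert _ _)) (ih fun i hi => hA i (Set.mem_insert_of_mem _ hi))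

/-- a product of forms -/
theorem exists_prod [hPp : P.IsPrime] {ι : Type*} {I : Set ι} (hI : I.Finite) {A : ι → Set (PN N)}
    (hA : ∀ i ∈ I, ∃ (R : MvPolynomial (Fin (N + 1)) ℂ) (n : ℕ), R.IsHomogeneous n ∧ R ∉ P ∧ ∀ x ∈ A i, VanishesAt R x) :
    ∃ (R : MvPolynomial (Fin (N + 1)) ℂ) (n : ℕ), R.IsHomogeneous n ∧ R ∉ P ∧ ∀ x ∈ ⋃ i ∈ I, A i, VanishesAt R x := by
  induction I, hI using Set.Finite.induction_on with
  | empty =>
    refine ⟨1, 0, isHomogeneous_one _ _, fun h => hPp.ne_top ((Ideal.eq_top_iff_one P).2 h), ?_⟩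
    intro x hx
    simp at hx
  | @insert a s _ _ ih =>
    obtain ⟨R, n, hR, hRP, h⟩ := ih fun i hi => hA i (Set.mem_insert_of_mem _ hi)
    obtain ⟨R', n', hR', hRP', h'⟩ := hA a (Set.mem_insert _ _)
    refine ⟨R' * R, n' + n, hR'.mul hR, fun hm => (hPp.mem_or_mem hm).elim hRP' hRP, ?_⟩
    rw [Set.biUnion_insert]
    rintro x (hx | hx)
    · have := h' x hx
      unfold VanishesAt at this ⊢
      rw [map_mul, this, zero_mul]
    · have := h x hx
      unfold VanishesAt at this ⊢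
      rw [map_mul, this, mul_zero]

/-- The Zariski closure of the image of a map. -/
def zariskiClosure (f : ℂ → PN N) : Set (PN N) :=
  {x | ∀ (Q : MvPolynomial (Fin (N + 1)) ℂ) (n : ℕ), Q.IsHomogeneous n → (∀ z, VanishesAt Q (f z)) → VanishesAt Q x}

theorem closed_zariskiClosure {f : ℂ → PN N} (hf : ∀ z, f z ∈ projVar P) : ZariskiClosedIn (projVar P) (zariskiClosure f) := by
  refine ⟨{Q | (∃ n, Q.IsHomogeneous n) ∧ ∀ z, VanishesAt Q (f z)}, fun Q hQ => hQ.1, ?_⟩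
  ext x
  constructor
  · intro hx
    refine ⟨fun Q hQ n hn => hx Q n hn fun z => hf z Q hQ n hn, fun Q hQ => ?_⟩
    obtain ⟨n, hn⟩ := hQ.1
    exact hx Q n hn hQ.2
  · rintro ⟨-, hx⟩ Q n hn hQ
    exact hx Q ⟨⟨n, hn⟩, hQ⟩

end Pool.Agent.H17EF

end
end

section

/-!
# EF MainE: surfaces of general type with a map to an elliptic curve
-/

set_option autoImplicit false

open Topology Filter MvPolynomial Metric

noncomputable section

namespace Pool.Agent.H17EF

attribute [-instance] ProperSMul.toContinuousSMul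

open Pool.Agent.H17 (PN VanishesAt HolomorphicInto ZariskiClosedIn)
open Pool.Agent.H62.FC (Homog)
open Pool.Agent.H62.EF
open Pool.Agent.H17BP (Surface IsChart IsForm NoZeros)
open Pool.Agent.H17LG.Variety (FunField IsLogGeneralType)
open Pool.Agent.H13.SM (conTan cone)
open Pool.Agent.H36.BP (EN fs wd formT isCone_transport germ_transport tan_transport OrdTwo)
open Pool.Agent.H14.PP (IsCone Chart Form)
open Pool.Agent.H13.OT (OrderTwo)

variable {N : ℕ}

section core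

variable {P : Ideal (MvPolynomial (Fin (N + 1)) ℂ)} [P.IsPrime] {z : Fin 2 → FunField P}

/-- general type -/
def GT (P : Ideal (MvPolynomial (Fin (N + 1)) ℂ)) [P.IsPrime] (k : ℕ) : Prop :=
  IsLogGeneralType (K := FunField P) (k := k) (fun _ => False)

/-- the projection matrix of a point -/
def prP (x : PN N) : MN N := pr ((LE N) x.rep)

theorem prP_mk {x : Fin (N + 1) → ℂ} (hx : x ≠ 0) : prP (Projectivization.mk ℂ x hx) = pr ((LE N) x) := by
  obtain ⟨a, ha, h⟩ := Pool.Agent.H36.BP.rep_mk hx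
  unfold prP
  rw [h, map_smul, pr_smul _ ha]

theorem LE_ne_zero {x : Fin (N + 1) → ℂ} (hx : x ≠ 0) : (LE N) x ≠ 0 := fun h => hx ((LE N).map_eq_zero_iff.1 h)

theorem prP_injective : Function.Injective (prP (N := N)) := by
  intro x y h
  unfold prP at h
  obtain ⟨c, hc, h'⟩ := (pr_eq_iff (LE_ne_zero x.rep_nonzero) (LE_ne_zero y.rep_nonzero)).1 h
  rw [← map_smul] at h'
  have h1 := (LE N).injective h'
  rw [← x.mk_rep, ← y.mk_rep, Projectivization.mk_eq_mk_iff']
  exact ⟨c, h1.symm⟩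

/-- the lift of a section -/
theorem exists_sec (hP : Homog P) {Λ : AddSubgroup ℂ} {u : PN N → ℂ ⧸ Λ} {f : ℂ → PN N} (hf : f ∈ sections (projVar P) Λ u) :
    ∃ F ∈ Sec (coneE P) Λ (uE Λ u), ∀ z, ∃ h : (LE N).symm (F z) ≠ 0, f z = Projectivization.mk ℂ ((LE N).symm (F z)) h := by
  obtain ⟨hf1, hf2, hf3⟩ := hf
  obtain ⟨F, hF, hFf⟩ := exists_lift hf1
  refine ⟨F, ⟨hF, fun z => ?_, fun z => ?_⟩, hFf⟩
  · obtain ⟨h, h'⟩ := hFf z
    exact (mem_coneE hP).2 ⟨h, h' ▸ hf2 z⟩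
  · obtain ⟨h, h'⟩ := hFf z
    rw [sub_mem_iff, uE_eq Λ u h, ← h']
    exact hf3 z

theorem mk_symm {F : EN N} (h : (LE N).symm F ≠ 0) : prP (Projectivization.mk ℂ ((LE N).symm F) h) = pr F := by
  rw [prP_mk, ContinuousLinearEquiv.apply_symm_apply]

/-- the sections are doubly periodic -/
theorem sections_periodic (hP : Homog P) {Λ : AddSubgroup ℂ} {u : PN N → ℂ ⧸ Λ} (hfin : (SS (coneE P) Λ (uE Λ u)).Finite) :
    ∃ m : ℕ, 1 ≤ m ∧ ∀ f ∈ sections (projVar P) Λ u, ∀ l ∈ Λ, ∀ z, f (z + (m : ℂ) * l) = f z := by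
  obtain ⟨m, hm, h⟩ := periodic hfin
  refine ⟨m, hm, fun f hf l hl z => ?_⟩
  obtain ⟨F, hF, hFf⟩ := exists_sec hP hf
  obtain ⟨h1, h1'⟩ := hFf (z + (m : ℂ) * l)
  obtain ⟨h2, h2'⟩ := hFf z
  apply prP_injective
  rw [h1', h2', mk_symm h1, mk_symm h2]
  exact h F hF l hl z

/-- orders for the two norms -/
theorem ordTwo_symm {F : ℂ → EN N} (h : OrdTwo F) : OrdTwo fun z => (LE N).symm (F z) := by
  set M : ℝ := max ‖((LE N : (Fin (N + 1) → ℂ) →L[ℂ] EN N))‖ 1 with hM
  have hM0 : 0 < M := lt_of_lt_of_le one_pos (le_max_right _ _)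
  refine OrdTwo.map ((LE N).symm : EN N →L[ℂ] (Fin (N + 1) → ℂ)) h (c := M⁻¹) (inv_pos.mpr hM0) fun x => ?_
  rw [inv_mul_le_iff₀ hM0]
  have h1 := (LE N : (Fin (N + 1) → ℂ) →L[ℂ] EN N).le_opNorm ((LE N).symm x)
  have h2 : (LE N : (Fin (N + 1) → ℂ) →L[ℂ] EN N) ((LE N).symm x) = x := (LE N).apply_symm_apply x
  rw [h2] at h1
  exact h1.trans (mul_le_mul_of_nonneg_right (le_max_left _ _) (norm_nonneg _))

/-- entire curves of order two are sections up to an affine change of the variable, or vertical -/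
theorem exists_affine (hP : Homog P) (hz : IsTranscendenceBasis ℂ z)
    (hsm : ∀ y : Fin (N + 1) → ℂ, y ≠ 0 → (∀ Q ∈ P, eval y Q = 0) → Module.finrank ℂ (conTan P y) ≤ 3)
    {Λ : AddSubgroup ℂ} (hΛ : Lat Λ) {u : PN N → ℂ ⧸ Λ} (hu : IsHolomorphicMap (projVar P) Λ u) {g : ℂ → PN N}
    (hg : HolomorphicInto g Set.univ) (hgo : OrderTwo g) (hgX : ∀ z, g z ∈ projVar P) :
    (∀ z w, u (g z) = u (g w)) ∨ ∃ f ∈ sections (projVar P) Λ u, ∃ a b : ℂ, a ≠ 0 ∧ ∀ z, g z = f (a * z + b) := by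
  have hS : Surface (cone P) := Pool.Agent.H13.SM.surface_cone hP hz fun y hy => hsm y hy.1 hy.2
  obtain ⟨G, A, hG, hGg, hA⟩ := hgo
  -- the lift in the Euclidean space
  have h0 : ∀ z, G z ≠ 0 := fun z => (hGg z).1
  have hE : Differentiable ℂ fun z => (LE N) (G z) := (LE N).differentiable.comp hG
  have hE0 : ∀ z, (LE N) (G z) ≠ 0 := fun z => LE_ne_zero (h0 z)
  obtain ⟨C, hC0, hC⟩ : ∃ C : ℝ, 0 < C ∧ ∀ x, ‖(LE N) x‖ ≤ C * ‖x‖ := by
    refine ⟨‖((LE N : (Fin (N + 1) → ℂ) →L[ℂ] EN N))‖ + 1, by positivity, fun x => ?_⟩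
    refine ((LE N : (Fin (N + 1) → ℂ) →L[ℂ] EN N).le_opNorm x).trans ?_
    exact mul_le_mul_of_nonneg_right (by linarith) (norm_nonneg x)
  have hA' : ∀ r : ℝ, 0 < r → Real.circleAverage (fun z => Real.log ‖(LE N) (G z)‖) 0 r ≤ (|A| + |Real.log C|) * (1 + r ^ 2) := by
    intro r hr
    have hc1 : Continuous fun z => Real.log ‖(LE N) (G z)‖ := Continuous.log hE.continuous.norm fun z => norm_ne_zero_iff.2 (hE0 z)
    have hc2 : Continuous fun z => Real.log ‖G z‖ := Continuous.log hG.continuous.norm fun z => norm_ne_zero_iff.2 (h0 z)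
    have h1 : Real.circleAverage (fun z => Real.log ‖(LE N) (G z)‖) 0 r ≤ Real.circleAverage (fun z => Real.log C + Real.log ‖G z‖) 0 r := by
      apply Real.circleAverage_mono hc1.continuousOn.circleIntegrable' (continuous_const.add hc2).continuousOn.circleIntegrable'
      intro z _
      show Real.log ‖(LE N) (G z)‖ ≤ Real.log C + Real.log ‖G z‖
      rw [← Real.log_mul hC0.ne' (norm_ne_zero_iff.2 (h0 z))]
      exact Real.log_le_log (norm_pos_iff.2 (hE0 z)) (hC _)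
    rw [Real.circleAverage_fun_add (continuous_const.continuousOn.circleIntegrable') (hc2.continuousOn.circleIntegrable'),
      Real.circleAverage_const] at h1
    have h2 := hA r hr
    have h3 : A * (1 + r ^ 2) ≤ |A| * (1 + r ^ 2) := mul_le_mul_of_nonneg_right (le_abs_self A) (by positivity)
    have h4 : |Real.log C| * 1 ≤ |Real.log C| * (1 + r ^ 2) := mul_le_mul_of_nonneg_left (by nlinarith [sq_nonneg r]) (abs_nonneg _)
    have h5 := le_abs_self (Real.log C)
    nlinarith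
  have hEX : ∀ z, (LE N) (G z) ∈ coneE P := by
    intro z
    show (LE N).symm ((LE N) (G z)) ∈ cone P
    rw [ContinuousLinearEquiv.symm_apply_apply]
    obtain ⟨h1, h1'⟩ := hGg z
    exact (mk_mem_projVar hP h1).1 (h1' ▸ hgX z)
  obtain ⟨a, b, hab⟩ := affine_lift (isCone_transport (LE N) hS) (torusMap hP hu) hΛ hE hEX hA'
  have hug : ∀ z, u (g z) = ((a * z + b : ℂ) : ℂ ⧸ Λ) := by
    intro z
    obtain ⟨h1, h1'⟩ := hGg z
    have h2 := sub_mem_iff.1 (hab z)
    have h3 : (LE N).symm ((LE N) (G z)) ≠ 0 := by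
      rw [ContinuousLinearEquiv.symm_apply_apply]
      exact h1
    rw [uE_eq Λ u h3] at h2
    rw [← h2, h1']
    congr 1
  by_cases ha : a = 0
  · left
    intro z w
    rw [hug z, hug w, ha, zero_mul, zero_mul]
  · right
    refine ⟨fun z => g (a⁻¹ * (z - b)), ⟨?_, fun z => hgX _, fun z => ?_⟩, a, b, ha, fun z => ?_⟩
    · intro z₀ _
      obtain ⟨φ, hφ, hφ'⟩ := hg (a⁻¹ * (z₀ - b)) (Set.mem_univ _)
      have h1 : AnalyticAt ℂ (fun z : ℂ => a⁻¹ * (z - b)) z₀ := by fun_prop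
      refine ⟨fun z => φ (a⁻¹ * (z - b)), AnalyticAt.comp (g := φ) (f := fun z : ℂ => a⁻¹ * (z - b)) hφ h1, ?_⟩
      exact h1.continuousAt.tendsto.eventually hφ'
    · have h1 : a * (a⁻¹ * (z - b)) + b = z := by
        rw [mul_inv_cancel_left₀ ha, sub_add_cancel]
      show u (g (a⁻¹ * (z - b))) = _
      rw [hug, h1]
    · show g z = g (a⁻¹ * (a * z + b - b))
      rw [add_sub_cancel_right, inv_mul_cancel_left₀ ha]

end core

end Pool.Agent.H17EF

end
end
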