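import Pool.Agent.H94.CB.H19OL.Norm
import Pool.Agent.H94.CB.H62.Et.Hat
import Pool.Agent.H94.CB.H62.Qe.Defs
import Pool.Agent.H94.CB.M131
import Pool.Agent.H94.CB.M199
import Pool.Agent.H94.CB.M224
import Pool.Agent.H94.CB.M83
import Pool.Agent.H94.CB.M85

/-! The parts of this file: H62.Qe.Unr, H19Q.Reg, H19Q.Mod. -/

section

/-!
# Qe Unr: a map which is unramified over a smooth open surface is etale over it (adapted from `Pool.Agent.H62.Et.Unr`)
-/

set_option autoImplicit false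

open Topology Filter MvPolynomial

noncomputable section

namespace Pool.Agent.H62.Qe

attribute [-instance] ProperSMul.toContinuousSMul

open Pool.Agent.H17 (PN VanishesAt HolomorphicInto)
open Pool.Agent.H62.FC (Homog)
open Pool.Agent.H17LG.Variety (FunField)
open Pool.Agent.H13.SM (conTan)
open Pool.Agent.H17EF (projVar)
open Pool.Agent.H62.SA (locVar)
open Pool.Agent.H62.Et (dvals)

variable {N M : ℕ} {P : Ideal (MvPolynomial (Fin (N + 1)) ℂ)} {P' : Ideal (MvPolynomial (Fin (M + 1)) ℂ)} {p : PN M → PN N}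

open Pool.Agent.H13.SM (cone surface_cone)
open Pool.Agent.H17BP (IsChart Surface Bihol bihol_iff)
open Pool.Agent.H7.Bir (vals rmap vals_smul)
open Pool.Agent.H17EF (mk_mem_projVar)

private theorem Unr_dual {V : Type} [NormedAddCommGroup V] [NormedSpace ℂ V] {x : V} (hx : x ≠ 0) : ∃ Λ : V →L[ℂ] ℂ, Λ x ≠ 0 := by
  obtain ⟨Λ, hΛ⟩ := exists_dual_vector ℂ x (norm_ne_zero_iff.mpr hx)
  refine ⟨Λ, ?_⟩
  rw [hΛ.2]
  simpa using hx

/-- proportional points near `σ 0` have the same coordinates -/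
private theorem Unr_tau {V T : Type} [NormedAddCommGroup V] [NormedSpace ℂ V] {X : Set V} {σ : ℂ × ℂ → V} {τ : V → ℂ × ℂ}
    (h : IsChart X σ τ) {l : Filter T} {f g : T → V} (hf : Tendsto f l (𝓝 (σ 0))) (hg : Tendsto g l (𝓝 (σ 0))) :
    ∀ᶠ t in l, (∃ c : ℂ, f t = c • g t) → τ (f t) = τ (g t) := by
  obtain ⟨Λ, hΛ⟩ := Unr_dual h.ne
  have h1 : Tendsto (fun t => Λ (f t)) l (𝓝 (Λ (σ 0))) := (Λ.continuous.tendsto _).comp hf
  have h2 : Tendsto (fun t => Λ (g t)) l (𝓝 (Λ (σ 0))) := (Λ.continuous.tendsto _).comp hg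
  have h3 : Tendsto (fun t => (g t, Λ (f t) / Λ (g t))) l (𝓝 (σ 0, (1 : ℂ))) := by
    have := h1.div h2 hΛ
    rw [div_self hΛ] at this
    exact hg.prodMk_nhds this
  filter_upwards [h3.eventually h.inv, h2.eventually_ne hΛ] with t h4 h5
  rintro ⟨c, hc⟩
  have h6 : Λ (f t) / Λ (g t) = c := by
    rw [hc, map_smul, smul_eq_mul, mul_div_assoc, div_self h5, mul_one]
  rw [h6] at h4
  rw [hc]
  exact h4

/-- an injective endomorphism of `ℂ²` has a determinant which is not zero -/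
private theorem Unr_det (L : ℂ × ℂ →L[ℂ] ℂ × ℂ) (hinj : ∀ v : ℂ × ℂ, L v = 0 → v = 0) :
    (L (1, 0)).1 * (L (0, 1)).2 - (L (0, 1)).1 * (L (1, 0)).2 ≠ 0 := by
  intro hdet
  have hap : ∀ x : ℂ × ℂ, L x = (x.1 * (L (1, 0)).1 + x.2 * (L (0, 1)).1, x.1 * (L (1, 0)).2 + x.2 * (L (0, 1)).2) := by
    intro x
    have h1 : x = x.1 • ((1, 0) : ℂ × ℂ) + x.2 • ((0, 1) : ℂ × ℂ) := by
      ext <;> simp
    conv_lhs => rw [h1]
    rw [map_add, map_smul, map_smul]
    ext <;> simp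
  have e1 := hinj ((L (0, 1)).2, -(L (1, 0)).2) (by
    rw [hap]
    ext
    · simp only [Prod.fst_zero]
      linear_combination hdet
    · simp only [Prod.snd_zero]
      ring)
  have e2 := hinj ((L (0, 1)).1, -(L (1, 0)).1) (by
    rw [hap]
    ext
    · simp only [Prod.fst_zero]
      ring
    · simp only [Prod.snd_zero]
      linear_combination -hdet)
  have e3 := hinj (1, 0) (by
    ext
    · have := congrArg Prod.snd e2
      simpa using this
    · have := congrArg Prod.snd e1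
      simpa using this)
  have := congrArg Prod.fst e3
  simp at this

/-- the derivative of a polynomial along a curve -/
private theorem Unr_poly {K : ℕ} (Q : MvPolynomial (Fin (K + 1)) ℂ) {c : ℂ → Fin (K + 1) → ℂ} {c' : Fin (K + 1) → ℂ} {t : ℂ}
    (hc : HasDerivAt c c' t) : HasDerivAt (fun s => eval (c s) Q) (∑ i, eval (c t) (pderiv i Q) * c' i) t := by
  have hci : ∀ i, HasDerivAt (fun s => c s i) (c' i) t := fun i => (hasDerivAt_pi.1 hc) i
  induction Q using MvPolynomial.induction_on with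
  | C a =>
    have h1 : (fun s => eval (c s) (C a : MvPolynomial (Fin (K + 1)) ℂ)) = fun _ => a := by
      funext s
      simp
    have h2 : (∑ i, eval (c t) (pderiv i (C a : MvPolynomial (Fin (K + 1)) ℂ)) * c' i) = 0 := by
      refine Finset.sum_eq_zero fun i _ => ?_
      simp
    rw [h1, h2]
    exact hasDerivAt_const t a
  | add p q hp hq =>
    have h1 : (fun s => eval (c s) (p + q)) = fun s => eval (c s) p + eval (c s) q := by
      funext s
      simp
    have h2 : (∑ i, eval (c t) (pderiv i (p + q)) * c' i) =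
        (∑ i, eval (c t) (pderiv i p) * c' i) + ∑ i, eval (c t) (pderiv i q) * c' i := by
      rw [← Finset.sum_add_distrib]
      refine Finset.sum_congr rfl fun i _ => ?_
      rw [map_add, map_add, add_mul]
    rw [h1, h2]
    exact hp.fun_add hq
  | mul_X p j hp =>
    have h1 : (fun s => eval (c s) (p * X j)) = fun s => eval (c s) p * c s j := by
      funext s
      simp
    have h2 : (∑ i, eval (c t) (pderiv i (p * X j)) * c' i) =
        (∑ i, eval (c t) (pderiv i p) * c' i) * c t j + eval (c t) p * c' j := by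
      have h3 : ∀ i, eval (c t) (pderiv i (p * X j)) * c' i =
          eval (c t) (pderiv i p) * c' i * c t j + (if i = j then eval (c t) p * c' i else 0) := by
        intro i
        rw [Derivation.leibniz, pderiv_X, map_add, smul_eq_mul, smul_eq_mul, map_mul, map_mul, eval_X]
        by_cases hij : j = i
        · subst hij
          simp
          ring
        · rw [Pi.single_eq_of_ne hij, if_neg fun h => hij h.symm]
          simp
          ring
      rw [Finset.sum_congr rfl fun i _ => h3 i, Finset.sum_add_distrib, Finset.sum_ite_eq', if_pos (Finset.mem_univ j),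
        Finset.sum_mul]
    rw [h1, h2]
    exact hp.fun_mul (hci j)

private theorem Unr_vals_an {K L : ℕ} (γ : Fin (K + 1) → MvPolynomial (Fin (L + 1)) ℂ) (y : Fin (L + 1) → ℂ) : AnalyticAt ℂ (vals γ) y := by
  rw [analyticAt_pi_iff]
  intro i
  have h1 : AnalyticAt ℂ (fun w : Fin (L + 1) → ℂ => MvPolynomial.aeval w (γ i)) y :=
    AnalyticAt.aeval_mvPolynomial (fun i => (ContinuousLinearMap.proj (R := ℂ) (φ := fun _ : Fin (L + 1) => ℂ) i).analyticAt y) (γ i)
  exact h1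

/-- The local form of an unramified map. -/
private theorem Unr_local [P.IsPrime] [P'.IsPrime] (hP : Homog P) (hP' : Homog P') (hmaps : ∀ y ∈ projVar P', p y ∈ projVar P)
    {y : Fin (M + 1) → ℂ}
    {γ : Fin (N + 1) → MvPolynomial (Fin (M + 1)) ℂ}
    (hγp : ∀ (y' : Fin (M + 1) → ℂ) (hy' : y' ≠ 0) (h : vals γ y' ≠ 0), Projectivization.mk ℂ y' hy' ∈ projVar P' →
        p (Projectivization.mk ℂ y' hy') = Projectivization.mk ℂ (vals γ y') h)
    (hinj : ∀ v ∈ conTan P' y, ∀ c : ℂ, dvals γ y v = c • vals γ y → ∃ a : ℂ, v = a • y)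
    {σ' : ℂ × ℂ → Fin (M + 1) → ℂ} {τ' : (Fin (M + 1) → ℂ) → ℂ × ℂ} (h' : IsChart (cone P') σ' τ') (h0' : σ' 0 = y)
    {σ : ℂ × ℂ → Fin (N + 1) → ℂ} {τ : (Fin (N + 1) → ℂ) → ℂ × ℂ} (h : IsChart (cone P) σ τ) (h0 : σ 0 = vals γ y) :
    Bihol fun q => τ (vals γ (σ' q)) := by
  have hcone : ∀ y' ∈ cone P', vals γ y' ≠ 0 → vals γ y' ∈ cone P := by
    intro y' hy' hv'
    have h1 := (mk_mem_projVar hP' hy'.1).2 hy'
    have h2 := hmaps _ h1
    rw [hγp y' hy'.1 hv' h1] at h2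
    exact (mk_mem_projVar hP hv').1 h2
  have hφan : AnalyticAt ℂ (fun q => τ (vals γ (σ' q))) 0 := by
    have h1 : AnalyticAt ℂ (fun q => vals γ (σ' q)) 0 := (Unr_vals_an γ (σ' 0)).comp h'.σ_an
    refine AnalyticAt.comp (g := τ) (f := fun q => vals γ (σ' q)) ?_ h1
    rw [h0', ← h0]
    exact h.τ_an
  have hφ0 : τ (vals γ (σ' 0)) = 0 := by
    rw [h0', ← h0]
    exact h.left.self_of_nhds
  rw [bihol_iff hφan hφ0]
  refine Unr_det _ fun v hLv => ?_
  -- the curve `t ↦ σ' (t v)`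
  have hline : HasDerivAt (fun t : ℂ => t • v) v 0 := by
    have := (hasDerivAt_id (0 : ℂ)).smul_const v
    simpa using this
  have hline0 : (0 : ℂ) • v = 0 := zero_smul _ _
  have hlinet : Tendsto (fun t : ℂ => t • v) (𝓝 0) (𝓝 0) := by
    have := hline.continuousAt.tendsto
    rwa [hline0] at this
  set w : Fin (M + 1) → ℂ := fderiv ℂ σ' 0 v with hw
  have hc : HasDerivAt (fun t : ℂ => σ' (t • v)) w 0 := by
    have h1 : HasFDerivAt σ' (fderiv ℂ σ' 0) ((0 : ℂ) • v) := by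
      rw [hline0]
      exact h'.σ_an.differentiableAt.hasFDerivAt
    exact h1.comp_hasDerivAt (0 : ℂ) hline
  have hc0 : σ' ((0 : ℂ) • v) = y := by rw [hline0, h0']
  have hct : Tendsto (fun t : ℂ => σ' (t • v)) (𝓝 0) (𝓝 y) := by
    have := hc.continuousAt.tendsto
    rwa [hc0] at this
  -- `w` is a tangent vector
  have hwT : w ∈ conTan P' y := by
    intro Q hQ
    have h1 := Unr_poly Q hc
    rw [hc0] at h1
    have h2 : HasDerivAt (fun s : ℂ => eval (σ' (s • v)) Q) 0 0 := by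
      refine (hasDerivAt_const (0 : ℂ) (0 : ℂ)).congr_of_eventuallyEq ?_
      filter_upwards [hlinet.eventually h'.σ_mem] with s hs
      exact hs.2 Q hQ
    have h3 := h1.unique h2
    rw [← h3]
    exact Finset.sum_congr rfl fun i _ => mul_comm _ _
  -- the curve `t ↦ vals γ (σ' (t v))`
  have hg : HasDerivAt (fun t : ℂ => vals γ (σ' (t • v))) (dvals γ y w) 0 := by
    rw [hasDerivAt_pi]
    intro i
    have h1 := Unr_poly (γ i) hc
    rw [hc0] at h1
    exact h1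
  have hgt : Tendsto (fun t : ℂ => vals γ (σ' (t • v))) (𝓝 0) (𝓝 (σ 0)) := by
    have := hg.continuousAt.tendsto
    rw [hc0] at this
    rwa [h0]
  have hτg : HasDerivAt (fun t : ℂ => τ (vals γ (σ' (t • v)))) 0 0 := by
    have h1 : HasFDerivAt (fun q => τ (vals γ (σ' q))) (fderiv ℂ (fun q => τ (vals γ (σ' q))) 0) ((0 : ℂ) • v) := by
      rw [hline0]
      exact hφan.differentiableAt.hasFDerivAt
    have h2 := h1.comp_hasDerivAt (0 : ℂ) hline
    rw [hLv] at h2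
    exact h2
  have hs : HasDerivAt (fun t : ℂ => σ (τ (vals γ (σ' (t • v))))) 0 0 := by
    have h1 : HasFDerivAt σ (fderiv ℂ σ 0) (τ (vals γ (σ' ((0 : ℂ) • v)))) := by
      rw [hline0, hφ0]
      exact h.σ_an.differentiableAt.hasFDerivAt
    have h2 := h1.comp_hasDerivAt (0 : ℂ) hτg
    rw [map_zero] at h2
    exact h2
  obtain ⟨Λ, hΛ⟩ := Unr_dual h.ne
  have hs0 : σ (τ (vals γ (σ' ((0 : ℂ) • v)))) = σ 0 := by rw [hline0, hφ0]
  have hg0 : vals γ (σ' ((0 : ℂ) • v)) = σ 0 := by rw [hline0, h0', h0]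
  have hΛs : HasDerivAt (fun t : ℂ => Λ (σ (τ (vals γ (σ' (t • v)))))) 0 0 := by
    have h2 := (Λ.hasFDerivAt (x := σ (τ (vals γ (σ' ((0 : ℂ) • v)))))).comp_hasDerivAt (0 : ℂ) hs
    rw [map_zero] at h2
    exact h2
  have hΛg : HasDerivAt (fun t : ℂ => Λ (vals γ (σ' (t • v)))) (Λ (dvals γ y w)) 0 :=
    (Λ.hasFDerivAt (x := vals γ (σ' ((0 : ℂ) • v)))).comp_hasDerivAt (0 : ℂ) hg
  have e1 := hΛs.fun_smul hg
  have e2 := hΛg.fun_smul hs
  have heq : (fun t : ℂ => Λ (σ (τ (vals γ (σ' (t • v))))) • vals γ (σ' (t • v))) =ᶠ[𝓝 0]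
      fun t : ℂ => Λ (vals γ (σ' (t • v))) • σ (τ (vals γ (σ' (t • v)))) := by
    have hne : ∀ᶠ t : ℂ in 𝓝 0, vals γ (σ' (t • v)) ≠ 0 := hgt.eventually_ne h.ne
    filter_upwards [hlinet.eventually h'.σ_mem, hgt.eventually h.right, hne] with t k1 k2 k3
    obtain ⟨c, hc1, hc2⟩ := k2 (hcone _ k1 k3)
    have k4 : Λ (vals γ (σ' (t • v))) = c * Λ (σ (τ (vals γ (σ' (t • v))))) := by
      conv_lhs => rw [hc2]
      rw [map_smul, smul_eq_mul]
    rw [k4]
    conv_lhs => rw [hc2]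
    rw [smul_smul, mul_comm]
    congr 3
    all_goals first | rfl | exact hc2.symm | rw [← hc2]
  have e3 := e1.unique (e2.congr_of_eventuallyEq heq)
  rw [hs0, hg0, smul_zero, zero_smul, add_zero, zero_add] at e3
  have e4 : dvals γ y w = ((Λ (σ 0))⁻¹ * Λ (dvals γ y w)) • vals γ y := by
    rw [mul_smul, ← h0, ← e3, smul_smul, inv_mul_cancel₀ hΛ, one_smul]
  obtain ⟨a, ha⟩ := hinj w hwT _ e4
  -- the derivative of `τ'`
  have hτd : HasFDerivAt τ' (fderiv ℂ τ' y) y := by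
    have := h'.τ_an
    rw [h0'] at this
    exact this.differentiableAt.hasFDerivAt
  have f1 : fderiv ℂ τ' y w = v := by
    have h1 : HasFDerivAt τ' (fderiv ℂ τ' y) (σ' ((0 : ℂ) • v)) := by rwa [hc0]
    have h2 := h1.comp_hasDerivAt (0 : ℂ) hc
    have h3 : HasDerivAt (τ' ∘ fun t : ℂ => σ' (t • v)) v 0 := by
      refine hline.congr_of_eventuallyEq ?_
      filter_upwards [hlinet.eventually h'.left] with t ht
      exact ht
    exact h2.unique h3
  have f2 : fderiv ℂ τ' y y = 0 := by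
    have k1 : HasDerivAt (fun t : ℂ => (1 + t) • y) y 0 := by
      have := ((hasDerivAt_id (0 : ℂ)).const_add 1).smul_const y
      simpa using this
    have k2 : ((1 : ℂ) + 0) • y = y := by rw [add_zero, one_smul]
    have h1 : HasFDerivAt τ' (fderiv ℂ τ' y) (((1 : ℂ) + 0) • y) := by rwa [k2]
    have h2 := h1.comp_hasDerivAt (0 : ℂ) k1
    have k3 : Tendsto (fun t : ℂ => (y, 1 + t)) (𝓝 0) (𝓝 (σ' 0, (1 : ℂ))) := by
      have k4 : Continuous fun t : ℂ => (y, 1 + t) := by fun_prop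
      have := k4.tendsto (0 : ℂ)
      rw [add_zero] at this
      rwa [h0']
    have h3 : HasDerivAt (τ' ∘ fun t : ℂ => (1 + t) • y) 0 0 := by
      refine (hasDerivAt_const (0 : ℂ) (τ' y)).congr_of_eventuallyEq ?_
      filter_upwards [k3.eventually h'.inv] with t ht
      exact ht
    exact h2.unique h3
  rw [← f1, ha, map_smul, f2, smul_zero]

theorem isEtaleOver_of_isUnramifiedOver [P.IsPrime] [P'.IsPrime] (hP : Homog P) (hP' : Homog P') {z : Fin 2 → FunField P}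
    (hz : IsTranscendenceBasis ℂ z) {z' : Fin 2 → FunField P'} (hz' : IsTranscendenceBasis ℂ z') {s s' : ℕ}
    {G : Fin s → MvPolynomial (Fin (N + 1)) ℂ} {G' : Fin s' → MvPolynomial (Fin (M + 1)) ℂ}
    (hsm : ∀ (y : Fin (N + 1) → ℂ) (hy : y ≠ 0), Projectivization.mk ℂ y hy ∈ locVar P G → Module.finrank ℂ (conTan P y) ≤ 3)
    (hsm' : ∀ (y : Fin (M + 1) → ℂ) (hy : y ≠ 0), Projectivization.mk ℂ y hy ∈ locVar P' G' → Module.finrank ℂ (conTan P' y) ≤ 3)
    (hp : IsUnramifiedOver P P' G G' p) : IsEtaleOver P P' G G' p := by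
  have hcone : ∀ (D : ℕ) (γ : Fin (N + 1) → MvPolynomial (Fin (M + 1)) ℂ),
      (∀ (y' : Fin (M + 1) → ℂ) (hy' : y' ≠ 0) (h : vals γ y' ≠ 0), Projectivization.mk ℂ y' hy' ∈ projVar P' →
        p (Projectivization.mk ℂ y' hy') = Projectivization.mk ℂ (vals γ y') h) →
      ∀ y' ∈ cone P', vals γ y' ≠ 0 → vals γ y' ∈ cone P := by
    intro D γ hγp y' hy' hv'
    have h1 := (mk_mem_projVar hP' hy'.1).2 hy'
    have h2 := hp.maps _ h1
    rw [hγp y' hy'.1 hv' h1] at h2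
    exact (mk_mem_projVar hP hv').1 h2
  refine ⟨⟨hp.maps, hp.surj, ?_⟩, hp.inv, ?_, ?_⟩
  · intro y hy
    obtain ⟨D, γ, h1, h2, h3, -⟩ := hp.regular y.rep y.rep_nonzero (by rwa [Projectivization.mk_rep])
    refine ⟨D, γ, h1, h2, fun y' hy' hv => ?_⟩
    have h4 := h3 y'.rep y'.rep_nonzero hv (by rwa [Projectivization.mk_rep])
    rw [Projectivization.mk_rep] at h4
    rw [h4]
    unfold Pool.Agent.H7.Bir.rmap
    rw [dif_pos hv]
  · intro y hy hyU
    have hyX : Projectivization.mk ℂ y hy ∈ projVar P' := hyU.1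
    obtain ⟨D, γ, hγ, hv, hγp, hinj'⟩ := hp.regular y hy hyX
    have hinj := hinj' hyU
    have hxU : Projectivization.mk ℂ (vals γ y) hv ∈ locVar P G := by
      rw [← hγp y hy hv hyX]
      exact (hp.inv _ hyX).2 hyU
    have hyc : y ∈ cone P' := (mk_mem_projVar hP' hy).1 hyX
    have hxc : vals γ y ∈ cone P := hcone D γ hγp y hyc hv
    obtain ⟨σ', τ', h', h0'⟩ := exists_isChart hP' hz' hyc (hsm' y hy hyU)
    obtain ⟨σ, τ, h, h0⟩ := exists_isChart hP hz hxc (hsm _ hv hxU)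
    have hB := Unr_local hP hP' hp.maps hγp hinj h' h0' h h0
    obtain ⟨ψ, hψ1, hψ2, hψ3, hψ4⟩ := hB.inv
    have hval : Tendsto (vals γ) (𝓝 y) (𝓝 (σ 0)) := by
      rw [h0]
      exact (Unr_vals_an γ y).continuousAt.tendsto
    have hτ' : Tendsto τ' (𝓝 y) (𝓝 0) := by
      have h1 := h'.τ_an.continuousAt.tendsto
      rwa [h'.left.self_of_nhds, h0'] at h1
    have hσ' : Tendsto (fun q => σ' (τ' q)) (𝓝 y) (𝓝 y) := by
      have h1 := h'.σ_an.continuousAt.tendsto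
      rw [h0'] at h1
      exact h1.comp hτ'
    have hright : ∀ᶠ q in 𝓝 y, q ∈ cone P' → ∃ c : ℂ, c ≠ 0 ∧ q = c • σ' (τ' q) := by
      rw [← h0']
      exact h'.right
    -- the coordinates of the image
    have h1 : ∀ᶠ q in 𝓝 y, q ∈ cone P' → (∃ c : ℂ, c ≠ 0 ∧ q = c • σ' (τ' q)) ∧ vals γ q ≠ 0 ∧ ψ (τ (vals γ q)) = τ' q := by
      filter_upwards [hright, Unr_tau h hval (hval.comp hσ'), hval.eventually_ne h.ne, hτ'.eventually hψ3] with q k1 k2 k3 k4 k5
      obtain ⟨c, hc, hq⟩ := k1 k5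
      refine ⟨⟨c, hc, hq⟩, k3, ?_⟩
      have k6 : vals γ q = c ^ D • vals γ (σ' (τ' q)) := by
        conv_lhs => rw [hq]
        rw [vals_smul hγ]
      have k7 := k2 ⟨c ^ D, k6⟩
      rw [k7]
      exact k4
    have h2 : ∀ᶠ q in 𝓝 (y, y), (∃ c : ℂ, vals γ q.1 = c • vals γ q.2) → τ (vals γ q.1) = τ (vals γ q.2) :=
      Unr_tau h (hval.comp (continuous_fst.tendsto' (y, y) y rfl)) (hval.comp (continuous_snd.tendsto' (y, y) y rfl))
    filter_upwards [(continuous_fst.tendsto' (y, y) y rfl).eventually h1, (continuous_snd.tendsto' (y, y) y rfl).eventually h1, h2] with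
      q k1 k2 k3 hq1 hq2 hm1 hm2 heq
    obtain ⟨⟨c1, hc1, e1⟩, n1, g1⟩ := k1 ((mk_mem_projVar hP' hq1).1 hm1)
    obtain ⟨⟨c2, hc2, e2⟩, n2, g2⟩ := k2 ((mk_mem_projVar hP' hq2).1 hm2)
    rw [hγp _ hq1 n1 hm1, hγp _ hq2 n2 hm2, Projectivization.mk_eq_mk_iff'] at heq
    obtain ⟨c, hc⟩ := heq
    have k4 := k3 ⟨c, hc.symm⟩
    have k5 : τ' q.1 = τ' q.2 := by rw [← g1, ← g2, k4]
    rw [Projectivization.mk_eq_mk_iff']
    refine ⟨c1 * c2⁻¹, ?_⟩
    rw [k5] at e1
    have e3 : σ' (τ' q.2) = c2⁻¹ • q.2 := by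
      have := congrArg (fun u => c2⁻¹ • u) e2
      simp only [smul_smul, inv_mul_cancel₀ hc2, one_smul] at this
      exact this.symm
    rw [e3, smul_smul] at e1
    exact e1.symm
  · intro y hy hyU
    have hyX : Projectivization.mk ℂ y hy ∈ projVar P' := hyU.1
    obtain ⟨D, γ, hγ, hv, hγp, hinj'⟩ := hp.regular y hy hyX
    have hinj := hinj' hyU
    have hxU : Projectivization.mk ℂ (vals γ y) hv ∈ locVar P G := by
      rw [← hγp y hy hv hyX]
      exact (hp.inv _ hyX).2 hyU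
    have hyc : y ∈ cone P' := (mk_mem_projVar hP' hy).1 hyX
    have hxc : vals γ y ∈ cone P := hcone D γ hγp y hyc hv
    obtain ⟨σ', τ', h', h0'⟩ := exists_isChart hP' hz' hyc (hsm' y hy hyU)
    obtain ⟨σ, τ, h, h0⟩ := exists_isChart hP hz hxc (hsm _ hv hxU)
    have hB := Unr_local hP hP' hp.maps hγp hinj h' h0' h h0
    obtain ⟨ψ, hψ1, hψ2, hψ3, hψ4⟩ := hB.inv
    have hτ0 : τ (vals γ y) = 0 := by
      rw [← h0]
      exact h.left.self_of_nhds
    have hτ : Tendsto τ (𝓝 (vals γ y)) (𝓝 0) := by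
      have h1 := h.τ_an.continuousAt.tendsto
      rwa [h0, hτ0] at h1
    have hψt : Tendsto ψ (𝓝 0) (𝓝 0) := by
      have h1 := hψ1.continuousAt.tendsto
      rwa [hψ2] at h1
    have hq : Tendsto (fun x' => ψ (τ x')) (𝓝 (vals γ y)) (𝓝 0) := hψt.comp hτ
    have hσ't : Tendsto σ' (𝓝 0) (𝓝 y) := by
      have h1 := h'.σ_an.continuousAt.tendsto
      rwa [h0'] at h1
    have hval : Tendsto (fun q => vals γ (σ' q)) (𝓝 0) (𝓝 (σ 0)) := by
      rw [h0]
      exact (Unr_vals_an γ y).continuousAt.tendsto.comp hσ't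
    refine ⟨vals γ y, hv, fun x' => σ' (ψ (τ x')), hγp y hy hv hyX, ?_, ?_, ?_⟩
    · have h1 : AnalyticAt ℂ τ (vals γ y) := by
        rw [← h0]
        exact h.τ_an
      have h2 : AnalyticAt ℂ (fun x' => ψ (τ x')) (vals γ y) := by
        refine AnalyticAt.comp (g := ψ) (f := τ) ?_ h1
        rwa [hτ0]
      refine AnalyticAt.comp (g := σ') (f := fun x' => ψ (τ x')) ?_ h2
      rw [hτ0, hψ2]
      exact h'.σ_an
    · change σ' (ψ (τ (vals γ y))) = y
      rw [hτ0, hψ2, h0']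
    · have hr : ∀ᶠ x' in 𝓝 (vals γ y), x' ∈ cone P → ∃ c : ℂ, c ≠ 0 ∧ x' = c • σ (τ x') := by
        rw [← h0]
        exact h.right
      filter_upwards [hr, hq.eventually h'.σ_mem, hq.eventually (hval.eventually_ne h.ne), hq.eventually (hval.eventually h.right),
        hτ.eventually hψ4] with x' k1 k2 k3 k4 k5 hx' hx'X
      have k6 := (mk_mem_projVar hP' k2.1).2 k2
      refine ⟨k2.1, k6, ?_⟩
      rw [hγp _ k2.1 k3 k6, Projectivization.mk_eq_mk_iff']
      obtain ⟨c, hc, e1⟩ := k1 ((mk_mem_projVar hP hx').1 hx'X)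
      obtain ⟨d, hd, e2⟩ := k4 (hcone D γ hγp _ k2 k3)
      rw [k5] at e2
      refine ⟨d * c⁻¹, ?_⟩
      rw [e2]
      conv_lhs => rw [e1]
      rw [smul_smul, mul_assoc, inv_mul_cancel₀ hc, mul_one]

end Pool.Agent.H62.Qe

end
end

section

/-!
# Q Reg: surjective regular maps of projective varieties

* `IsRegularOnto`: `p : X' → X` is regular and onto.
* `IsRegularOnto.exists_cover`: finitely many systems of forms represent `p`.
* `IsRegularOnto.dominant`: each of them defines a dominant rational map.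
* `IsRegularOnto.exists_image_form`: a proper closed subset of `X'` has its image in a proper closed subset of `X` (equal dimensions).
* `IsRegularOnto.comp`: the composition with a holomorphic map is holomorphic.
-/

set_option autoImplicit false

open Topology Filter MvPolynomial

noncomputable section

namespace Pool.Agent.H19Q

attribute [-instance] ProperSMul.toContinuousSMul

open Pool.Agent.H17 (PN VanishesAt HolomorphicInto vanishesAt_mk_iff)
open Pool.Agent.H62.FC (Homog)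
open Pool.Agent.H17LG.Variety (FunField)
open Pool.Agent.H17EF (projVar)
open Pool.Agent.H62.EF (MN)
open Pool.Agent.H62.Et (pn pn_near isCompact_pn)
open Pool.Agent.H7.Bir (vals rmap)

variable {N M : ℕ} {P : Ideal (MvPolynomial (Fin (N + 1)) ℂ)} {P' : Ideal (MvPolynomial (Fin (M + 1)) ℂ)} {p : PN M → PN N}

namespace IsRegularOnto

private theorem Reg_aeval_homog {γ : Fin (N + 1) → MvPolynomial (Fin (M + 1)) ℂ} {D : ℕ} (hγ : ∀ i, (γ i).IsHomogeneous D) {n : ℕ}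
    {Q : MvPolynomial (Fin (N + 1)) ℂ} (hQ : Q.IsHomogeneous n) : (aeval γ Q).IsHomogeneous (D * n) :=
  hQ.aeval _ hγ

private theorem Reg_smul {n : ℕ} {Q : MvPolynomial (Fin (N + 1)) ℂ} (hQ : Q.IsHomogeneous n) (c : ℂ) (x : Fin (N + 1) → ℂ) :
    eval (c • x) Q = c ^ n * eval x Q :=
  Pool.Agent.H17BP.eval_smul_form hQ c x

/-- two systems of forms which represent `p` are proportional at every point -/
private theorem Reg_prop {γ γ' : Fin (N + 1) → MvPolynomial (Fin (M + 1)) ℂ}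
    (hrep : ∀ y ∈ projVar P', vals γ y.rep ≠ 0 → p y = rmap γ y) (hrep' : ∀ y ∈ projVar P', vals γ' y.rep ≠ 0 → p y = rmap γ' y)
    {y : PN M} (hy : y ∈ projVar P') (i j : Fin (N + 1)) :
    eval y.rep (γ i) * eval y.rep (γ' j) = eval y.rep (γ j) * eval y.rep (γ' i) := by
  by_cases h1 : vals γ y.rep = 0
  · have h2 : ∀ i, eval y.rep (γ i) = 0 := fun i => congrFun h1 i
    rw [h2 i, h2 j]
    ring
  by_cases h3 : vals γ' y.rep = 0
  · have h2 : ∀ i, eval y.rep (γ' i) = 0 := fun i => congrFun h3 i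
    rw [h2 i, h2 j]
    ring
  have h4 : rmap γ y = rmap γ' y := by
    rw [← hrep y hy h1, ← hrep' y hy h3]
  unfold Pool.Agent.H7.Bir.rmap at h4
  rw [dif_pos h1, dif_pos h3, Projectivization.mk_eq_mk_iff'] at h4
  obtain ⟨a, ha⟩ := h4
  have h5 : ∀ i, eval y.rep (γ i) = a * eval y.rep (γ' i) := fun i => (congrFun ha i).symm
  rw [h5 i, h5 j]
  ring

/-- forms which represent `p` near some point define a dominant rational map -/
theorem dominant [P.IsPrime] [P'.IsPrime] (hP : Homog P) (hP' : Homog P') (hX : ∃ i, (X i : MvPolynomial (Fin (N + 1)) ℂ) ∉ P)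
    (hp : IsRegularOnto P P' p) {D : ℕ} {γ : Fin (N + 1) → MvPolynomial (Fin (M + 1)) ℂ} (hγ : ∀ i, (γ i).IsHomogeneous D)
    (hrep : ∀ y ∈ projVar P', vals γ y.rep ≠ 0 → p y = rmap γ y) (hne : ∃ y ∈ projVar P', vals γ y.rep ≠ 0) (n : ℕ)
    (Q : MvPolynomial (Fin (N + 1)) ℂ) (hQ : Q.IsHomogeneous n) : aeval γ Q ∈ P' ↔ Q ∈ P := by
  obtain ⟨y₀, hy₀, hne⟩ := hne
  have hX' := Pool.Agent.H17EF.exists_coord hy₀
  constructor
  · intro h
    by_contra hQP
    obtain ⟨x, hx, hxQ⟩ := Pool.Agent.H17EF.exists_point hP hX hQP hQ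
    obtain ⟨y', hy', rfl⟩ := hp.surj x hx
    obtain ⟨D', γ', hγ', hne', hrep'⟩ := hp.regular y' hy'
    obtain ⟨j, hj⟩ : ∃ j, eval y₀.rep (γ j) ≠ 0 := by
      by_contra hcon
      push Not at hcon
      exact hne (funext hcon)
    have hjP : γ j ∉ P' := fun h1 => hj (hy₀ _ h1 D (hγ j))
    have hmem : γ j ^ n * aeval γ' Q ∈ P' := by
      by_contra h1
      have h2 : (γ j ^ n * aeval γ' Q).IsHomogeneous (D * n + D' * n) := ((hγ j).pow n).mul (Reg_aeval_homog hγ' hQ)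
      obtain ⟨y, hy, hyn⟩ := Pool.Agent.H17EF.exists_point hP' hX' h1 h2
      apply hyn
      have h3 : eval y.rep (aeval γ Q) = 0 := hy _ h _ (Reg_aeval_homog hγ hQ)
      unfold VanishesAt
      rw [map_mul, map_pow, Pool.Agent.H7.Bir.eval_comp, ← Reg_smul hQ]
      have h4 : eval y.rep (γ j) • vals γ' y.rep = eval y.rep (γ' j) • vals γ y.rep := by
        funext i
        have h5 := Reg_prop hrep hrep' hy j i
        change eval y.rep (γ j) * eval y.rep (γ' i) = eval y.rep (γ' j) * eval y.rep (γ i)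
        rw [h5, mul_comm]
      rw [h4, Reg_smul hQ, ← Pool.Agent.H7.Bir.eval_comp, h3, mul_zero]
    rcases Ideal.IsPrime.mem_or_mem inferInstance hmem with h1 | h1
    · exact hjP (Ideal.IsPrime.mem_of_pow_mem inferInstance n h1)
    · apply hxQ
      rw [hrep' y' hy' hne', Pool.Agent.H7.Bir.vanishesAt_rmap hne' hQ]
      exact hy' _ h1 _ (Reg_aeval_homog hγ' hQ)
  · intro h
    by_contra hcon
    obtain ⟨y, hy, hyn⟩ := Pool.Agent.H17EF.exists_point hP' hX' hcon (Reg_aeval_homog hγ hQ)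
    apply hyn
    by_cases h1 : vals γ y.rep = 0
    · unfold VanishesAt
      rw [Pool.Agent.H7.Bir.eval_comp, h1]
      have h2 : eval (p y).rep Q = 0 := hp.maps y hy Q h n hQ
      have h3 := Reg_smul hQ 0 (p y).rep
      rw [zero_smul, h2, mul_zero] at h3
      exact h3
    · rw [← Pool.Agent.H7.Bir.vanishesAt_rmap h1 hQ, ← hrep y hy h1]
      exact hp.maps y hy Q h n hQ

/-- finitely many systems of forms represent `p` -/
theorem exists_cover (hP' : Homog P') (hp : IsRegularOnto P P' p) : ∃ (n : ℕ) (D : Fin n → ℕ) (γ : Fin n → Fin (N + 1) → MvPolynomial (Fin (M + 1)) ℂ),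
    (∀ k i, (γ k i).IsHomogeneous (D k)) ∧ (∀ k, ∃ y ∈ projVar P', vals (γ k) y.rep ≠ 0) ∧
    (∀ k, ∀ y ∈ projVar P', vals (γ k) y.rep ≠ 0 → p y = rmap (γ k) y) ∧ ∀ y ∈ projVar P', ∃ k, vals (γ k) y.rep ≠ 0 := by
  have hloc : ∀ m ∈ pn '' projVar P', ∃ (D : ℕ) (γ : Fin (N + 1) → MvPolynomial (Fin (M + 1)) ℂ) (δ : ℝ), (∀ i, (γ i).IsHomogeneous D) ∧
      (∃ y ∈ projVar P', vals γ y.rep ≠ 0) ∧ (∀ y ∈ projVar P', vals γ y.rep ≠ 0 → p y = rmap γ y) ∧ 0 < δ ∧
      ∀ y : PN M, dist (pn y) m < δ → vals γ y.rep ≠ 0 := by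
    rintro _ ⟨y, hy, rfl⟩
    obtain ⟨D, γ, hγ, hne, hrep⟩ := hp.regular y hy
    have hU : {x : Fin (M + 1) → ℂ | vals γ x ≠ 0} ∈ 𝓝 y.rep := by
      have hc : Continuous (vals γ) := continuous_pi fun i => MvPolynomial.continuous_eval (γ i)
      exact (isOpen_ne.preimage hc).mem_nhds hne
    obtain ⟨δ, hδ, hnear⟩ := pn_near y.rep_nonzero hU
    refine ⟨D, γ, δ, hγ, ⟨y, hy, hne⟩, hrep, hδ, fun y' hy' => ?_⟩
    have hmk : Projectivization.mk ℂ y.rep y.rep_nonzero = y := Projectivization.mk_rep y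
    obtain ⟨x', hx', hx0, rfl⟩ := hnear y' (by rw [hmk]; exact hy')
    obtain ⟨a, ha⟩ := Projectivization.exists_smul_eq_mk_rep ℂ x' hx0
    have h1 : (Projectivization.mk ℂ x' hx0).rep = (a : ℂ) • x' := ha.symm
    rw [h1, Pool.Agent.H7.Bir.vals_smul hγ]
    exact smul_ne_zero (pow_ne_zero _ a.ne_zero) hx'
  choose! D γ δ h1 h2 h3 h4 h5 using hloc
  obtain ⟨t, ht, hcov⟩ := (isCompact_pn hP').elim_nhds_subcover (fun m => Metric.ball m (δ m)) fun m hm => Metric.ball_mem_nhds m (h4 m hm)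
  refine ⟨t.card, fun k => D (t.equivFin.symm k : MN M), fun k => γ (t.equivFin.symm k : MN M), fun k i => h1 _ (ht _ (t.equivFin.symm k).2) i,
    fun k => h2 _ (ht _ (t.equivFin.symm k).2), fun k => h3 _ (ht _ (t.equivFin.symm k).2), fun y hy => ?_⟩
  have h6 := hcov (Set.mem_image_of_mem pn hy)
  rw [Set.mem_iUnion₂] at h6
  obtain ⟨m, hm, hmy⟩ := h6
  refine ⟨t.equivFin ⟨m, hm⟩, ?_⟩
  change vals (γ (t.equivFin.symm (t.equivFin ⟨m, hm⟩) : MN M)) y.rep ≠ 0
  rw [Equiv.symm_apply_apply]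
  exact h5 m (ht m hm) y hmy

/-- The forms with `T (x) = 0` for all `x = p y` with `R' (y) = 0`. -/
theorem exists_image_form [P.IsPrime] [P'.IsPrime] (hP : Homog P) (hP' : Homog P') {k : ℕ}
    (hz : ∃ z : Fin (k + 1) → FunField P, IsTranscendenceBasis ℂ z) (hz' : ∃ z' : Fin (k + 1) → FunField P', IsTranscendenceBasis ℂ z')
    (hp : IsRegularOnto P P' p) {n' : ℕ} {R' : MvPolynomial (Fin (M + 1)) ℂ} (hR' : R'.IsHomogeneous n') (hRP' : R' ∉ P') :
    ∃ (T : MvPolynomial (Fin (N + 1)) ℂ) (n : ℕ), T.IsHomogeneous n ∧ T ∉ P ∧ ∀ y ∈ projVar P', VanishesAt R' y → VanishesAt T (p y) := by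
  classical
  obtain ⟨n, D, γ, hγ, hγne, hrep, hcov⟩ := exists_cover hP' hp
  have hX : ∃ i, (X i : MvPolynomial (Fin (N + 1)) ℂ) ∉ P := by
    obtain ⟨z, hz⟩ := hz
    obtain ⟨i, hi⟩ := Pool.Agent.H92.GT.Proj.exists_coordFun_ne_zero P z hz
    exact ⟨i, Pool.Agent.H17R.coordFun_ne_zero_iff.1 hi⟩
  choose R m hR hRP hRev using fun k => Pool.Agent.H19OL.exists_norm_form hz hz' (hγ k)
    (dominant hP hP' hX hp (hγ k) (hrep k) (hγne k)) hR' hRP'
  refine ⟨∏ k, R k, ∑ k, m k, MvPolynomial.IsHomogeneous.prod _ _ _ fun k _ => hR k, ?_, ?_⟩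
  · intro h
    obtain ⟨k, -, hk⟩ := ((inferInstance : P.IsPrime).prod_mem_iff).1 h
    exact hRP k hk
  · intro y hy hyR
    obtain ⟨k, hk⟩ := hcov y hy
    have h1 : VanishesAt (R k) (p y) := by
      rw [hrep k y hy hk]
      unfold Pool.Agent.H7.Bir.rmap
      rw [dif_pos hk, vanishesAt_mk_iff (hR k)]
      refine hRev k y.rep y.rep_nonzero (fun Q hQ => ?_) hyR
      rw [← MvPolynomial.sum_homogeneousComponent Q, map_sum]
      exact Finset.sum_eq_zero fun i _ => hy _ (hP' Q hQ i) i (homogeneousComponent_isHomogeneous i Q)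
    unfold VanishesAt at h1 ⊢
    rw [map_prod]
    exact Finset.prod_eq_zero (Finset.mem_univ k) h1

/-- The composition of a holomorphic map with a regular map is holomorphic. -/
theorem comp (hp : IsRegularOnto P P' p) {g : ℂ → PN M} {U : Set ℂ} (hU : IsOpen U) (hg : HolomorphicInto g U)
    (hgX : ∀ z ∈ U, g z ∈ projVar P') : HolomorphicInto (fun z => p (g z)) U := by
  intro z₀ hz₀
  obtain ⟨D, γ, hγ, hne, hrep⟩ := hp.regular (g z₀) (hgX z₀ hz₀)
  obtain ⟨φ, hφ, he⟩ := hg z₀ hz₀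
  obtain ⟨h0, h0'⟩ := he.self_of_nhds
  have hmk : ∀ (y : Fin (M + 1) → ℂ) (hy : y ≠ 0), vals γ y ≠ 0 ↔ vals γ (Projectivization.mk ℂ y hy).rep ≠ 0 := by
    intro y hy
    obtain ⟨a, ha⟩ := Projectivization.exists_smul_eq_mk_rep ℂ y hy
    have h1 : (Projectivization.mk ℂ y hy).rep = (a : ℂ) • y := ha.symm
    rw [h1, Pool.Agent.H7.Bir.vals_smul hγ, Ne, Ne, smul_eq_zero, not_or]
    exact ⟨fun h => ⟨pow_ne_zero _ a.ne_zero, h⟩, fun h => h.2⟩
  have hvan : AnalyticAt ℂ (fun w => vals γ (φ w)) z₀ := by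
    rw [analyticAt_pi_iff]
    intro i
    have h1 : AnalyticAt ℂ (fun w => MvPolynomial.aeval (φ w) (γ i)) z₀ :=
      AnalyticAt.aeval_mvPolynomial (fun i => analyticAt_pi_iff.mp hφ i) (γ i)
    exact h1
  have hv0 : vals γ (φ z₀) ≠ 0 := by
    rw [hmk _ h0, ← h0']
    exact hne
  refine ⟨fun w => vals γ (φ w), hvan, ?_⟩
  filter_upwards [he, hvan.continuousAt.eventually_ne hv0, hU.mem_nhds hz₀] with w h1 h2 h3
  obtain ⟨h4, h5⟩ := h1
  refine ⟨h2, ?_⟩
  have h6 : vals γ (g w).rep ≠ 0 := by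
    rw [h5, ← hmk _ h4]
    exact h2
  rw [hrep _ (hgX w h3) h6, h5, Pool.Agent.H7.Bir.rmap_mk hγ h4 h2]

end IsRegularOnto

end Pool.Agent.H19Q

end
end

section

/-!
# Q Mod: the properties go down along modifications

`IsModification P P' G G' p`: `p : X' → X` is a surjective regular map with a rational inverse, and `U' = p⁻¹ U` for the open subsets `U = locVar P G` of
`X` and `U' = locVar P' G'` of `X'`.  `mod_open`: if `U'` has the properties of the conjecture and `U` is a surface of log general type, then `U` has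
the properties.
-/

set_option autoImplicit false

open Topology Filter MvPolynomial

noncomputable section

namespace Pool.Agent.H19Q

attribute [-instance] ProperSMul.toContinuousSMul

open Pool.Agent.H17 (PN VanishesAt HolomorphicInto puncturedDisc vanishesAt_mk_iff ZariskiClosedIn)
open Pool.Agent.H62.FC (Homog)
open Pool.Agent.H62.SA (locVar OnBd)
open Pool.Agent.H17LG.Variety (FunField IsLogGeneralType)
open Pool.Agent.H17EF (projVar)
open Pool.Agent.H7.Bir (vals rmap GGL GGLOpen exists_comp pn_identity)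

variable {N M : ℕ}

/-- Holomorphic maps which do not lie in the bad locus lift. -/
theorem exists_lift_inverse {P : Ideal (MvPolynomial (Fin (N + 1)) ℂ)} {P' : Ideal (MvPolynomial (Fin (M + 1)) ℂ)} {p : PN M → PN N}
    (hp : IsRegularOnto P P' p) {D : ℕ} {α : Fin (M + 1) → MvPolynomial (Fin (N + 1)) ℂ} (hα : ∀ i, (α i).IsHomogeneous D)
    (hinv : ∀ y ∈ projVar P', vals α (p y).rep ≠ 0 → rmap α (p y) = y) {f : ℂ → PN N} {U : Set ℂ} (hUo : IsOpen U)
    (hUc : IsPreconnected U) (hf : HolomorphicInto f U) (hfX : ∀ z ∈ U, f z ∈ projVar P) {z₀ : ℂ} (hz₀ : z₀ ∈ U)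
    {i₀ : Fin (M + 1)} (h : ¬ VanishesAt (α i₀) (f z₀)) :
    ∃ g : ℂ → PN M, HolomorphicInto g U ∧ (∀ z ∈ U, g z ∈ projVar P') ∧ ∀ z ∈ U, p (g z) = f z := by
  obtain ⟨g, hg, hg1, -⟩ := exists_comp hα hUo hUc hf hz₀ h
  have hpt : ∀ z ∈ U, vals α (f z).rep ≠ 0 → g z ∈ projVar P' ∧ p (g z) = f z := by
    intro z hz hv
    obtain ⟨y, hy, hyf⟩ := hp.surj (f z) (hfX z hz)
    have h1 := hinv y hy (by rw [hyf]; exact hv)
    rw [hg1 z hz hv, ← hyf, h1]
    exact ⟨hy, rfl⟩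
  have hev : ∀ᶠ z in 𝓝 z₀, vals α (f z).rep ≠ 0 := by
    obtain ⟨φ, hφ, he⟩ := hf z₀ hz₀
    have hcont : ContinuousAt (fun z => eval (φ z) (α i₀)) z₀ := by
      have h4 : AnalyticAt ℂ (fun w => MvPolynomial.aeval (φ w) (α i₀)) z₀ :=
        AnalyticAt.aeval_mvPolynomial (fun i => analyticAt_pi_iff.mp hφ i) _
      exact h4.continuousAt
    have h0 : eval (φ z₀) (α i₀) ≠ 0 := by
      obtain ⟨h4, h5⟩ := he.self_of_nhds
      rw [h5, vanishesAt_mk_iff (hα i₀)] at h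
      exact h
    filter_upwards [he, hcont.eventually_ne h0] with z h4 h5 h6
    obtain ⟨h7, h8⟩ := h4
    apply h5
    have h9 : VanishesAt (α i₀) (f z) := congrFun h6 i₀
    rw [h8, vanishesAt_mk_iff (hα i₀)] at h9
    exact h9
  have hX' : ∀ z ∈ U, g z ∈ projVar P' := by
    have h4 := Pool.Agent.H36.BP.vanish_identity hUc hg (S := {R | R ∈ P' ∧ ∃ n, R.IsHomogeneous n}) (fun R hR => hR.2) hz₀ (by
      filter_upwards [hev, hUo.mem_nhds hz₀] with z hz hzU R hR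
      obtain ⟨hRP, n, hRn⟩ := hR
      exact (hpt z hzU hz).1 R hRP n hRn)
    intro z hz R hR n hRn
    exact h4 z hz R ⟨hR, n, hRn⟩
  refine ⟨g, hg, hX', pn_identity hUc (hp.comp hUo hg hX') hf hz₀ ?_⟩
  filter_upwards [hev, hUo.mem_nhds hz₀] with z hz hzU
  exact (hpt z hzU hz).2

/-- A form which does not vanish on `U`, for a form which is not in `P`. -/
theorem exists_open_point {P : Ideal (MvPolynomial (Fin (N + 1)) ℂ)} [hPp : P.IsPrime] (hP : Homog P) {s : ℕ}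
    {G : Fin s → MvPolynomial (Fin (N + 1)) ℂ} (hG : ∀ m, ∃ n, (G m).IsHomogeneous n) (hne : (locVar P G).Nonempty)
    {T : MvPolynomial (Fin (N + 1)) ℂ} {n : ℕ} (hT : T.IsHomogeneous n) (hTP : T ∉ P) : ∃ x ∈ locVar P G, ¬ VanishesAt T x := by
  by_contra hcon
  push Not at hcon
  exact hTP (Pool.Agent.H7.Bir.mem_of_open hP hG hne hT hcon)

/-- **The properties go down along modifications.** -/
theorem mod_open {P : Ideal (MvPolynomial (Fin (N + 1)) ℂ)} [hPp : P.IsPrime] {P' : Ideal (MvPolynomial (Fin (M + 1)) ℂ)} [P'.IsPrime]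
    (hP : Homog P) (hP' : Homog P') (hz : ∃ z : Fin 2 → FunField P, IsTranscendenceBasis ℂ z)
    (hz' : ∃ z' : Fin 2 → FunField P', IsTranscendenceBasis ℂ z') {s s' : ℕ} {G : Fin s → MvPolynomial (Fin (N + 1)) ℂ}
    {G' : Fin s' → MvPolynomial (Fin (M + 1)) ℂ} (hG : ∀ m, ∃ n, (G m).IsHomogeneous n)
    {p : PN M → PN N} (hp : IsModification P P' G G' p) (hgt : IsLogGeneralType (OnBd P G (k := 2))) {Ξ' : Set (PN M)}
    (h : GGLOpen P' G' Ξ') : ∃ Ξ, GGLOpen P G Ξ := by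
  obtain ⟨D, α, hα, ⟨x₀, hx₀, hαx₀⟩, hinv⟩ := hp.inverse
  obtain ⟨i₀, hi₀⟩ : ∃ i, eval x₀.rep (α i) ≠ 0 := by
    by_contra hcon
    push Not at hcon
    exact hαx₀ (funext hcon)
  have hαP : α i₀ ∉ P := fun h1 => hi₀ (hx₀ _ h1 D (hα i₀))
  -- the form which vanishes on the exceptional set of `U'`
  obtain ⟨S', hS', hΞ'⟩ := h.closed
  obtain ⟨y₀, hy₀⟩ : (locVar P' G').Nonempty := by
    by_contra hcon
    rw [Set.not_nonempty_iff_eq_empty] at hcon
    apply h.proper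
    rw [hΞ', hcon]
    ext x
    exact ⟨fun hx => hx.1, fun hx => absurd hx (Set.notMem_empty x)⟩
  obtain ⟨R', hR'S, hR'⟩ : ∃ R' ∈ S', R' ∉ P' := by
    by_contra hcon
    push Not at hcon
    apply h.proper
    rw [hΞ']
    ext x
    refine ⟨fun hx => hx.1, fun hx => ⟨hx, fun R hR => ?_⟩⟩
    obtain ⟨n, hn⟩ := hS' R hR
    exact hx.1 R (hcon R hR) n hn
  obtain ⟨n', hn'⟩ := hS' R' hR'S
  obtain ⟨T, n, hT, hTP, hTp⟩ := hp.toIsRegularOnto.exists_image_form hP hP' (k := 1) hz hz' hn' hR'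
  have hne : (locVar P G).Nonempty := ⟨p y₀, (hp.inv y₀ hy₀.1).2 hy₀⟩
  have hTα : T * α i₀ ∉ P := fun h1 => (hPp.mem_or_mem h1).elim hTP hαP
  obtain ⟨Ξ, hΞ⟩ : ∃ Ξ : Set (PN N), Ξ = {x | x ∈ locVar P G ∧ ∀ Q ∈ ({T * α i₀} : Set (MvPolynomial (Fin (N + 1)) ℂ)), VanishesAt Q x} :=
    ⟨_, rfl⟩
  have hclΞ : ZariskiClosedIn (locVar P G) Ξ :=
    ⟨{T * α i₀}, fun Q hQ => ⟨n + D, by rw [Set.mem_singleton_iff.1 hQ]; exact hT.mul (hα i₀)⟩, hΞ⟩
  have hmemΞ : ∀ x ∈ locVar P G, x ∉ Ξ → ¬ VanishesAt T x ∧ ¬ VanishesAt (α i₀) x := by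
    intro x hx hxΞ
    have h1 : ¬ VanishesAt (T * α i₀) x := by
      intro h2
      apply hxΞ
      rw [hΞ]
      exact ⟨hx, fun Q hQ => by rw [Set.mem_singleton_iff.1 hQ]; exact h2⟩
    unfold VanishesAt at h1 ⊢
    rw [map_mul, mul_eq_zero, not_or] at h1
    exact h1
  have hbrody : ∀ f : ℂ → PN N, HolomorphicInto f Set.univ → (∀ z, f z ∈ locVar P G) → (∃ z w, f z ≠ f w) → ∀ z, f z ∈ Ξ := by
    intro f hf hfU hfn z₀
    by_contra hz₀
    obtain ⟨h1, h2⟩ := hmemΞ _ (hfU z₀) hz₀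
    obtain ⟨g, hg, hgX, hgf⟩ := exists_lift_inverse hp.toIsRegularOnto hα hinv isOpen_univ isPreconnected_univ hf
      (fun z _ => (hfU z).1) (Set.mem_univ z₀) h2
    have hgU : ∀ z, g z ∈ locVar P' G' := fun z => (hp.inv _ (hgX z trivial)).1 (by rw [hgf z trivial]; exact hfU z)
    have hgn : ∃ z w, g z ≠ g w := by
      obtain ⟨z, w, hzw⟩ := hfn
      refine ⟨z, w, fun h3 => hzw ?_⟩
      rw [← hgf z trivial, ← hgf w trivial, h3]
    have h3 := h.brody g hg hgU hgn z₀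
    rw [hΞ'] at h3
    apply h1
    rw [← hgf z₀ trivial]
    exact hTp _ (hgX z₀ trivial) (h3.2 R' hR'S)
  refine ⟨Ξ, hclΞ, ?_, ?_, ?_, hbrody, ?_⟩
  · intro heq
    obtain ⟨x, hx, hxT⟩ := exists_open_point hP hG hne (hT.mul (hα i₀)) hTα
    rw [← heq, hΞ] at hx
    exact hxT (hx.2 _ rfl)
  · intro k _ hk
    obtain ⟨z₁, hz₁⟩ := hz
    obtain ⟨z₂, hz₂⟩ := hk
    have h5 := hz₂.cardinalMk_eq_trdeg
    rw [← hz₁.cardinalMk_eq_trdeg, Cardinal.mk_fin, Cardinal.mk_fin] at h5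
    have h4 : k = 2 := by exact_mod_cast h5
    subst h4
    exact hgt
  · rintro f hf hfU ⟨z₀, hz₀, hfz₀⟩
    obtain ⟨h1, h2⟩ := hmemΞ _ (hfU z₀ hz₀) hfz₀
    obtain ⟨g, hg, hgX, hgf⟩ := exists_lift_inverse hp.toIsRegularOnto hα hinv Pool.Agent.H7.Bir.punctured_open
      Pool.Agent.H36.BP.preconnected_puncturedDisc hf (fun z hz => (hfU z hz).1) hz₀ h2
    have hgU : ∀ z ∈ puncturedDisc, g z ∈ locVar P' G' := fun z hz => (hp.inv _ (hgX z hz)).1 (by rw [hgf z hz]; exact hfU z hz)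
    obtain ⟨H, hH, hHg⟩ := h.picard g hg hgU ⟨z₀, hz₀, fun h3 => h1 (by
      rw [hΞ'] at h3
      rw [← hgf z₀ hz₀]
      exact hTp _ (hgX z₀ hz₀) (h3.2 R' hR'S))⟩
    have hHX : ∀ z ∈ Metric.ball (0 : ℂ) 1, H z ∈ projVar P' := by
      have h4 := Pool.Agent.H36.BP.vanish_identity (convex_ball (0 : ℂ) 1).isPreconnected hH
        (S := {R | R ∈ P' ∧ ∃ n, R.IsHomogeneous n}) (fun R hR => hR.2) (z₀ := z₀) hz₀.1 (by
          filter_upwards [Pool.Agent.H7.Bir.punctured_open.mem_nhds hz₀] with z hz R hR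
          obtain ⟨hRP, n, hRn⟩ := hR
          rw [hHg z hz]
          exact hgX z hz R hRP n hRn)
      intro z hz R hR n hRn
      exact h4 z hz R ⟨hR, n, hRn⟩
    exact ⟨fun z => p (H z), hp.toIsRegularOnto.comp Metric.isOpen_ball hH hHX, fun z hz => by
      show p (H z) = f z
      rw [hHg z hz, hgf z hz]⟩
  · exact fun Q _ hQ hPQ hsub k hk hz' => Pool.Agent.H13.CV.strongly_of_brodyL P hP hz hG hclΞ hgt hbrody Q hQ hPQ hsub k hk hz'

end Pool.Agent.H19Q

end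
end
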