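import Pool.Agent.H94.CB.H19OL.Norm
import Pool.Agent.H94.CB.H62.Et.Hat
import Pool.Agent.H94.CB.H62.Qe.Defs
import Pool.Agent.H94.CB.M131
import Pool.Agent.H94.CB.M85

/-! The parts of this file: H62.Qe.Ext, H62.Qe.Dom, H7.Qup.An. -/

section

/-!
# Qe Ext: extension of holomorphic maps of the punctured disc
-/

set_option autoImplicit false

open Topology Filter MvPolynomial

noncomputable section

namespace Pool.Agent.H62.Qe

attribute [-instance] ProperSMul.toContinuousSMul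

open Pool.Agent.H17 (PN VanishesAt HolomorphicInto puncturedDisc vanishesAt_mk_iff)
open Pool.Agent.H62.FC (Homog)
open Pool.Agent.H17EF (projVar)
open Pool.Agent.H7.Bir (vals rmap rmap_mk vals_smul)

variable {N M : ℕ}

/-- If `f (z ^ k)` is given by holomorphic homogeneous coordinates near `0` then `f` extends to the disc. -/
theorem extend_of_pow {f : ℂ → PN N} (hf : HolomorphicInto f puncturedDisc) {k : ℕ} (hk : 1 ≤ k) {Φ : ℂ → Fin (N + 1) → ℂ}
    (hΦ : ContinuousAt Φ 0) (hΦ0 : Φ 0 ≠ 0) (hΦf : ∀ᶠ z in 𝓝 (0 : ℂ), z ≠ 0 → ∃ h : Φ z ≠ 0, f (z ^ k) = Projectivization.mk ℂ (Φ z) h) :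
    ∃ g : ℂ → PN N, HolomorphicInto g (Metric.ball 0 1) ∧ ∀ z ∈ puncturedDisc, g z = f z := by
  classical
  obtain ⟨j, hj⟩ : ∃ j, Φ 0 j ≠ 0 := by
    by_contra hcon
    push Not at hcon
    exact hΦ0 (funext hcon)
  set S : ℂ → Fin (N + 1) → ℂ := fun w => ((f w).rep j)⁻¹ • (f w).rep with hS
  -- ratios of homogeneous coordinates
  have hSmk : ∀ (w : ℂ) (x : Fin (N + 1) → ℂ) (hx : x ≠ 0), f w = Projectivization.mk ℂ x hx → S w = (x j)⁻¹ • x := by
    intro w x hx h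
    obtain ⟨a, ha⟩ := Projectivization.exists_smul_eq_mk_rep ℂ x hx
    have h1 : (f w).rep = (a : ℂ) • x := by rw [h]; exact ha.symm
    rw [hS]
    simp only [h1, Pi.smul_apply, smul_eq_mul]
    rw [smul_smul, mul_inv, mul_comm (a : ℂ)⁻¹, mul_assoc, inv_mul_cancel₀ a.ne_zero, mul_one]
  -- a punctured neighbourhood on which the coordinates are controlled
  have h1 : ContinuousAt (fun z => (Φ z j)⁻¹ • Φ z) 0 := by
    have h2 : ContinuousAt (fun z => Φ z j) 0 := (continuous_apply j).continuousAt.comp hΦ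
    exact (h2.inv₀ hj).smul hΦ
  have h2 : ∀ᶠ z in 𝓝 (0 : ℂ), ‖(Φ z j)⁻¹ • Φ z‖ < ‖(Φ 0 j)⁻¹ • Φ 0‖ + 1 :=
    h1.norm.eventually_lt continuousAt_const (lt_add_one _)
  have h3 : ∀ᶠ z in 𝓝 (0 : ℂ), Φ z j ≠ 0 := ((continuous_apply j).continuousAt.comp hΦ).eventually_ne hj
  obtain ⟨ρ, hρ, hρb⟩ := Metric.eventually_nhds_iff_ball.1 ((hΦf.and h2).and h3)
  set r : ℝ := min (ρ ^ k) 1 with hr
  have hr0 : 0 < r := lt_min (pow_pos hρ k) one_pos
  have hroot : ∀ w ∈ Metric.ball (0 : ℂ) r \ {0}, ∃ z ∈ Metric.ball (0 : ℂ) ρ, z ≠ 0 ∧ z ^ k = w := by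
    intro w hw
    obtain ⟨z, hz⟩ := IsAlgClosed.exists_pow_nat_eq w (by omega : 0 < k)
    refine ⟨z, ?_, ?_, hz⟩
    · rw [mem_ball_zero_iff]
      by_contra hcon
      push Not at hcon
      have h4 : ρ ^ k ≤ ‖z‖ ^ k := pow_le_pow_left₀ hρ.le hcon k
      rw [← norm_pow, hz] at h4
      have h5 : ‖w‖ < r := by
        rw [← mem_ball_zero_iff]
        exact hw.1
      exact absurd (lt_of_lt_of_le h5 (min_le_left _ _)) (not_lt.2 h4)
    · rintro rfl
      apply hw.2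
      rw [Set.mem_singleton_iff, ← hz, zero_pow (by omega)]
  have hmem : ∀ w ∈ Metric.ball (0 : ℂ) r \ {0}, w ∈ puncturedDisc := fun w hw =>
    ⟨Metric.ball_subset_ball (min_le_right _ _) hw.1, hw.2⟩
  have hval : ∀ w ∈ Metric.ball (0 : ℂ) r \ {0}, (f w).rep j ≠ 0 ∧ ‖S w‖ ≤ ‖(Φ 0 j)⁻¹ • Φ 0‖ + 1 := by
    intro w hw
    obtain ⟨z, hz, hz0, hzw⟩ := hroot w hw
    obtain ⟨⟨h4, h5⟩, h6⟩ := hρb z hz
    obtain ⟨h7, h8⟩ := h4 hz0
    rw [hzw] at h8
    refine ⟨?_, ?_⟩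
    · obtain ⟨a, ha⟩ := Projectivization.exists_smul_eq_mk_rep ℂ (Φ z) h7
      have h9 : (f w).rep = (a : ℂ) • Φ z := by rw [h8]; exact ha.symm
      rw [h9]
      exact mul_ne_zero a.ne_zero h6
    · rw [hSmk w _ h7 h8]
      exact h5.le
  have hd : DifferentiableOn ℂ S (Metric.ball (0 : ℂ) r \ {0}) := by
    intro w hw
    obtain ⟨φ, h4, h5⟩ := hf w (hmem w hw)
    have h6 : φ w j ≠ 0 := by
      obtain ⟨h7, h8⟩ := h5.self_of_nhds
      obtain ⟨a, ha⟩ := Projectivization.exists_smul_eq_mk_rep ℂ (φ w) h7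
      have h9 : (f w).rep = (a : ℂ) • φ w := by rw [h8]; exact ha.symm
      have h10 := (hval w hw).1
      rw [h9] at h10
      exact right_ne_zero_of_mul h10
    have h7 : AnalyticAt ℂ (fun z => (φ z j)⁻¹ • φ z) w := by
      have h8 : AnalyticAt ℂ (fun z => φ z j) w := analyticAt_pi_iff.1 h4 j
      exact (h8.inv h6).smul h4
    refine DifferentiableAt.differentiableWithinAt (h7.differentiableAt.congr_of_eventuallyEq ?_)
    filter_upwards [h5] with z hz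
    obtain ⟨h8, h9⟩ := hz
    exact hSmk z _ h8 h9
  have hb : BddAbove (norm ∘ S '' (Metric.ball (0 : ℂ) r \ {0})) := by
    refine ⟨‖(Φ 0 j)⁻¹ • Φ 0‖ + 1, ?_⟩
    rintro _ ⟨w, hw, rfl⟩
    exact (hval w hw).2
  have hu := Complex.differentiableOn_update_limUnder_of_bddAbove (Metric.ball_mem_nhds (0 : ℂ) hr0) hd hb
  set S' : ℂ → Fin (N + 1) → ℂ := Function.update S 0 (limUnder (𝓝[≠] 0) S) with hS'
  have hS'a : AnalyticAt ℂ S' 0 := hu.analyticAt (Metric.ball_mem_nhds (0 : ℂ) hr0)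
  have hS'eq : ∀ w, w ≠ 0 → S' w = S w := fun w hw => Function.update_of_ne hw _ _
  have hS'j : ∀ᶠ w in 𝓝[≠] (0 : ℂ), S' w j = 1 := by
    have h4 : Metric.ball (0 : ℂ) r \ {0} ∈ 𝓝[≠] (0 : ℂ) := sdiff_mem_nhdsWithin_compl (Metric.ball_mem_nhds _ hr0) _
    filter_upwards [h4] with w hw
    rw [hS'eq w hw.2]
    exact inv_mul_cancel₀ (hval w hw).1
  have hS'0 : S' 0 j = 1 := by
    have h4 : Tendsto (fun w => S' w j) (𝓝[≠] (0 : ℂ)) (𝓝 (S' 0 j)) :=
      ((continuous_apply j).continuousAt.comp hS'a.continuousAt).tendsto.mono_left nhdsWithin_le_nhds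
    have h5 : Tendsto (fun w => S' w j) (𝓝[≠] (0 : ℂ)) (𝓝 1) := tendsto_const_nhds.congr' (hS'j.mono fun w hw => hw.symm)
    exact tendsto_nhds_unique h4 h5
  have hne : S' 0 ≠ 0 := by
    intro h
    rw [h] at hS'0
    exact zero_ne_one hS'0
  have hS'ne : ∀ᶠ w in 𝓝 (0 : ℂ), S' w ≠ 0 := hS'a.continuousAt.eventually_ne hne
  refine ⟨fun w => if w = 0 then Projectivization.mk ℂ (S' 0) hne else f w, fun w₀ hw₀ => ?_, fun w hw => if_neg hw.2⟩
  by_cases h0 : w₀ = 0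
  · subst h0
    refine ⟨S', hS'a, ?_⟩
    filter_upwards [hS'ne, Metric.ball_mem_nhds (0 : ℂ) hr0] with w h4 h5
    refine ⟨h4, ?_⟩
    by_cases hw : w = 0
    · subst hw
      rw [if_pos rfl]
    · rw [if_neg hw, ← Projectivization.mk_rep (f w), Projectivization.mk_eq_mk_iff']
      have h6 := (hval w ⟨h5, hw⟩).1
      refine ⟨(f w).rep j, ?_⟩
      rw [hS'eq w hw]
      show (f w).rep j • (((f w).rep j)⁻¹ • (f w).rep) = (f w).rep
      rw [smul_smul, mul_inv_cancel₀ h6, one_smul]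
  · obtain ⟨φ, h4, h5⟩ := hf w₀ ⟨hw₀, h0⟩
    refine ⟨φ, h4, ?_⟩
    filter_upwards [h5, isOpen_ne.mem_nhds h0] with w h6 h7
    rw [if_neg h7]
    exact h6

/-- If a lift `g` of `f (z ^ k)` extends to the disc, then `f` extends. -/
theorem extend_of_lift {P : Ideal (MvPolynomial (Fin (N + 1)) ℂ)} {P' : Ideal (MvPolynomial (Fin (M + 1)) ℂ)} {p : PN M → PN N}
    (hp : IsReg P P' p) {f : ℂ → PN N} (hf : HolomorphicInto f puncturedDisc) {k : ℕ} (hk : 1 ≤ k) {g ĝ : ℂ → PN M}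
    (hgX : ∀ z ∈ puncturedDisc, g z ∈ projVar P') (hgf : ∀ z ∈ puncturedDisc, p (g z) = f (z ^ k))
    (hĝ : HolomorphicInto ĝ (Metric.ball 0 1)) (hgg : ∀ z ∈ puncturedDisc, ĝ z = g z) :
    ∃ g₀ : ℂ → PN N, HolomorphicInto g₀ (Metric.ball 0 1) ∧ ∀ z ∈ puncturedDisc, g₀ z = f z := by
  obtain ⟨ψ, hψ, hψg⟩ := hĝ 0 (Metric.mem_ball_self one_pos)
  obtain ⟨hψ0, hψ0g⟩ := hψg.self_of_nhds
  have hD : ∀ᶠ z in 𝓝 (0 : ℂ), z ≠ 0 → z ∈ puncturedDisc := by
    filter_upwards [Metric.ball_mem_nhds (0 : ℂ) one_pos] with z h1 h2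
    exact ⟨h1, h2⟩
  -- the value at `0` belongs to `X'`
  have h0X : ĝ 0 ∈ projVar P' := by
    intro Q hQ n hn
    rw [hψ0g, vanishesAt_mk_iff hn]
    have h1 : Tendsto (fun z => eval (ψ z) Q) (𝓝[≠] (0 : ℂ)) (𝓝 (eval (ψ 0) Q)) := by
      have h2 : ContinuousAt (fun z => eval (ψ z) Q) 0 :=
        ContinuousAt.comp (g := fun x => eval x Q) (f := ψ) (MvPolynomial.continuous_eval Q).continuousAt hψ.continuousAt
      exact h2.tendsto.mono_left nhdsWithin_le_nhds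
    have h2 : Tendsto (fun z => eval (ψ z) Q) (𝓝[≠] (0 : ℂ)) (𝓝 0) := by
      refine tendsto_const_nhds.congr' ?_
      rw [EventuallyEq, eventually_nhdsWithin_iff]
      filter_upwards [hψg, hD] with z h3 h4 h5
      obtain ⟨h6, h7⟩ := h3
      have h8 := hgX z (h4 h5)
      rw [← hgg z (h4 h5), h7] at h8
      have h9 := h8 Q hQ n hn
      rw [vanishesAt_mk_iff hn] at h9
      exact h9.symm
    exact tendsto_nhds_unique h1 h2
  obtain ⟨D, γ, hγ, hγ0, hγp⟩ := hp.regular (ĝ 0) h0X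
  have hrep : ∀ (x : Fin (M + 1) → ℂ) (hx : x ≠ 0), vals γ (Projectivization.mk ℂ x hx).rep ≠ 0 ↔ vals γ x ≠ 0 := by
    intro x hx
    obtain ⟨a, ha⟩ := Projectivization.exists_smul_eq_mk_rep ℂ x hx
    have h1 : (Projectivization.mk ℂ x hx).rep = (a : ℂ) • x := ha.symm
    rw [h1, vals_smul hγ]
    constructor
    · intro h h2
      rw [h2, smul_zero] at h
      exact h rfl
    · exact fun h => smul_ne_zero (pow_ne_zero _ a.ne_zero) h
  have hv0 : vals γ (ψ 0) ≠ 0 := by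
    rw [← hrep _ hψ0, ← hψ0g]
    exact hγ0
  have hvc : ContinuousAt (fun z => vals γ (ψ z)) 0 := by
    have hc : Continuous fun x : Fin (M + 1) → ℂ => vals γ x := continuous_pi fun i => MvPolynomial.continuous_eval (γ i)
    exact ContinuousAt.comp (g := fun x => vals γ x) (f := ψ) hc.continuousAt hψ.continuousAt
  refine extend_of_pow hf hk hvc hv0 ?_
  filter_upwards [hψg, hD, hvc.eventually_ne hv0] with z h1 h2 h3 h4
  obtain ⟨h5, h6⟩ := h1
  refine ⟨h3, ?_⟩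
  have h7 : ĝ z ∈ projVar P' := by
    rw [hgg z (h2 h4)]
    exact hgX z (h2 h4)
  have h8 : vals γ (ĝ z).rep ≠ 0 := by
    rw [h6, hrep _ h5]
    exact h3
  rw [← hgf z (h2 h4), ← hgg z (h2 h4), hγp _ h7 h8, h6, rmap_mk hγ h5 h3]

end Pool.Agent.H62.Qe

end
end

section

/-!
# Qe Dom: the forms which define a regular map (adapted from `Pool.Agent.H62.Et.Dom`)
-/

set_option autoImplicit false

open Topology Filter MvPolynomial

noncomputable section

namespace Pool.Agent.H62.Qe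

attribute [-instance] ProperSMul.toContinuousSMul

open Pool.Agent.H17 (PN VanishesAt HolomorphicInto)
open Pool.Agent.H62.FC (Homog)
open Pool.Agent.H17EF (projVar)
open Pool.Agent.H62.EF (MN)
open Pool.Agent.H62.Et (pn pn_mk pn_injective pn_near pn_continuousAt pn_continuous isCompact_pn)
open Pool.Agent.H17LG.Variety (FunField)
open Pool.Agent.H17 (vanishesAt_mk_iff)
open Pool.Agent.H7.Bir (vals rmap)

variable {N M : ℕ} {P : Ideal (MvPolynomial (Fin (N + 1)) ℂ)} {P' : Ideal (MvPolynomial (Fin (M + 1)) ℂ)} {p : PN M → PN N}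

private theorem Dom_aeval_homog {γ : Fin (N + 1) → MvPolynomial (Fin (M + 1)) ℂ} {D : ℕ} (hγ : ∀ i, (γ i).IsHomogeneous D) {n : ℕ}
    {Q : MvPolynomial (Fin (N + 1)) ℂ} (hQ : Q.IsHomogeneous n) : (aeval γ Q).IsHomogeneous (D * n) :=
  hQ.aeval _ hγ

private theorem Dom_smul {n : ℕ} {Q : MvPolynomial (Fin (N + 1)) ℂ} (hQ : Q.IsHomogeneous n) (c : ℂ) (x : Fin (N + 1) → ℂ) :
    eval (c • x) Q = c ^ n * eval x Q :=
  Pool.Agent.H17BP.eval_smul_form hQ c x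

/-- two systems of forms which represent `p` are proportional at every point -/
private theorem Dom_prop {γ γ' : Fin (N + 1) → MvPolynomial (Fin (M + 1)) ℂ}
    (hrep : ∀ y ∈ projVar P', vals γ y.rep ≠ 0 → p y = rmap γ y) (hrep' : ∀ y ∈ projVar P', vals γ' y.rep ≠ 0 → p y = rmap γ' y)
    {y : PN M} (hy : y ∈ projVar P') (i j : Fin (N + 1)) :
    eval y.rep (γ i) * eval y.rep (γ' j) = eval y.rep (γ j) * eval y.rep (γ' i) := by
  by_cases h1 : vals γ y.rep = 0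
  · have h2 : ∀ i, eval y.rep (γ i) = 0 := fun i => congrFun h1 i
    rw [h2 i, h2 j]
    ring
  by_cases h3 : vals γ' y.rep = 0
  · have h2 : ∀ i, eval y.rep (γ' i) = 0 := fun i => congrFun h3 i
    rw [h2 i, h2 j]
    ring
  have h4 : rmap γ y = rmap γ' y := by
    rw [← hrep y hy h1, ← hrep' y hy h3]
  unfold Pool.Agent.H7.Bir.rmap at h4
  rw [dif_pos h1, dif_pos h3, Projectivization.mk_eq_mk_iff'] at h4
  obtain ⟨a, ha⟩ := h4
  have h5 : ∀ i, eval y.rep (γ i) = a * eval y.rep (γ' i) := fun i => (congrFun ha i).symm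
  rw [h5 i, h5 j]
  ring

/-- forms which represent `p` near some point define a dominant rational map -/
theorem dominant [P.IsPrime] [P'.IsPrime] (hP : Homog P) (hP' : Homog P') (hX : ∃ i, (X i : MvPolynomial (Fin (N + 1)) ℂ) ∉ P)
    (hp : IsReg P P' p) {D : ℕ} {γ : Fin (N + 1) → MvPolynomial (Fin (M + 1)) ℂ} (hγ : ∀ i, (γ i).IsHomogeneous D)
    (hrep : ∀ y ∈ projVar P', vals γ y.rep ≠ 0 → p y = rmap γ y) (hne : ∃ y ∈ projVar P', vals γ y.rep ≠ 0) (n : ℕ)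
    (Q : MvPolynomial (Fin (N + 1)) ℂ) (hQ : Q.IsHomogeneous n) : aeval γ Q ∈ P' ↔ Q ∈ P := by
  obtain ⟨y₀, hy₀, hne⟩ := hne
  have hX' := Pool.Agent.H17EF.exists_coord hy₀
  constructor
  · intro h
    by_contra hQP
    obtain ⟨x, hx, hxQ⟩ := Pool.Agent.H17EF.exists_point hP hX hQP hQ
    obtain ⟨y', hy', rfl⟩ := hp.surj x hx
    obtain ⟨D', γ', hγ', hne', hrep'⟩ := hp.regular y' hy'
    obtain ⟨j, hj⟩ : ∃ j, eval y₀.rep (γ j) ≠ 0 := by
      by_contra hcon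
      push Not at hcon
      exact hne (funext hcon)
    have hjP : γ j ∉ P' := fun h1 => hj (hy₀ _ h1 D (hγ j))
    have hmem : γ j ^ n * aeval γ' Q ∈ P' := by
      by_contra h1
      have h2 : (γ j ^ n * aeval γ' Q).IsHomogeneous (D * n + D' * n) := ((hγ j).pow n).mul (Dom_aeval_homog hγ' hQ)
      obtain ⟨y, hy, hyn⟩ := Pool.Agent.H17EF.exists_point hP' hX' h1 h2
      apply hyn
      have h3 : eval y.rep (aeval γ Q) = 0 := hy _ h _ (Dom_aeval_homog hγ hQ)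
      unfold VanishesAt
      rw [map_mul, map_pow, Pool.Agent.H7.Bir.eval_comp, ← Dom_smul hQ]
      have h4 : eval y.rep (γ j) • vals γ' y.rep = eval y.rep (γ' j) • vals γ y.rep := by
        funext i
        have h5 := Dom_prop hrep hrep' hy j i
        change eval y.rep (γ j) * eval y.rep (γ' i) = eval y.rep (γ' j) * eval y.rep (γ i)
        rw [h5, mul_comm]
      rw [h4, Dom_smul hQ, ← Pool.Agent.H7.Bir.eval_comp, h3, mul_zero]
    rcases Ideal.IsPrime.mem_or_mem inferInstance hmem with h1 | h1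
    · exact hjP (Ideal.IsPrime.mem_of_pow_mem inferInstance n h1)
    · apply hxQ
      rw [hrep' y' hy' hne', Pool.Agent.H7.Bir.vanishesAt_rmap hne' hQ]
      exact hy' _ h1 _ (Dom_aeval_homog hγ' hQ)
  · intro h
    by_contra hcon
    obtain ⟨y, hy, hyn⟩ := Pool.Agent.H17EF.exists_point hP' hX' hcon (Dom_aeval_homog hγ hQ)
    apply hyn
    by_cases h1 : vals γ y.rep = 0
    · unfold VanishesAt
      rw [Pool.Agent.H7.Bir.eval_comp, h1]
      have h2 : eval (p y).rep Q = 0 := hp.maps y hy Q h n hQ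
      have h3 := Dom_smul hQ 0 (p y).rep
      rw [zero_smul, h2, mul_zero] at h3
      exact h3
    · rw [← Pool.Agent.H7.Bir.vanishesAt_rmap h1 hQ, ← hrep y hy h1]
      exact hp.maps y hy Q h n hQ

/-- finitely many systems of forms represent `p` -/
theorem exists_cover (hP' : Homog P') (hp : IsReg P P' p) : ∃ (n : ℕ) (D : Fin n → ℕ) (γ : Fin n → Fin (N + 1) → MvPolynomial (Fin (M + 1)) ℂ),
    (∀ k i, (γ k i).IsHomogeneous (D k)) ∧ (∀ k, ∃ y ∈ projVar P', vals (γ k) y.rep ≠ 0) ∧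
    (∀ k, ∀ y ∈ projVar P', vals (γ k) y.rep ≠ 0 → p y = rmap (γ k) y) ∧ ∀ y ∈ projVar P', ∃ k, vals (γ k) y.rep ≠ 0 := by
  have hloc : ∀ m ∈ pn '' projVar P', ∃ (D : ℕ) (γ : Fin (N + 1) → MvPolynomial (Fin (M + 1)) ℂ) (δ : ℝ), (∀ i, (γ i).IsHomogeneous D) ∧
      (∃ y ∈ projVar P', vals γ y.rep ≠ 0) ∧ (∀ y ∈ projVar P', vals γ y.rep ≠ 0 → p y = rmap γ y) ∧ 0 < δ ∧
      ∀ y : PN M, dist (pn y) m < δ → vals γ y.rep ≠ 0 := by
    rintro _ ⟨y, hy, rfl⟩
    obtain ⟨D, γ, hγ, hne, hrep⟩ := hp.regular y hy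
    have hU : {x : Fin (M + 1) → ℂ | vals γ x ≠ 0} ∈ 𝓝 y.rep := by
      have hc : Continuous (vals γ) := continuous_pi fun i => MvPolynomial.continuous_eval (γ i)
      exact (isOpen_ne.preimage hc).mem_nhds hne
    obtain ⟨δ, hδ, hnear⟩ := pn_near y.rep_nonzero hU
    refine ⟨D, γ, δ, hγ, ⟨y, hy, hne⟩, hrep, hδ, fun y' hy' => ?_⟩
    have hmk : Projectivization.mk ℂ y.rep y.rep_nonzero = y := Projectivization.mk_rep y
    obtain ⟨x', hx', hx0, rfl⟩ := hnear y' (by rw [hmk]; exact hy')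
    obtain ⟨a, ha⟩ := Projectivization.exists_smul_eq_mk_rep ℂ x' hx0
    have h1 : (Projectivization.mk ℂ x' hx0).rep = (a : ℂ) • x' := ha.symm
    rw [h1, Pool.Agent.H7.Bir.vals_smul hγ]
    exact smul_ne_zero (pow_ne_zero _ a.ne_zero) hx'
  choose! D γ δ h1 h2 h3 h4 h5 using hloc
  obtain ⟨t, ht, hcov⟩ := (isCompact_pn hP').elim_nhds_subcover (fun m => Metric.ball m (δ m)) fun m hm => Metric.ball_mem_nhds m (h4 m hm)
  refine ⟨t.card, fun k => D (t.equivFin.symm k : MN M), fun k => γ (t.equivFin.symm k : MN M), fun k i => h1 _ (ht _ (t.equivFin.symm k).2) i,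
    fun k => h2 _ (ht _ (t.equivFin.symm k).2), fun k => h3 _ (ht _ (t.equivFin.symm k).2), fun y hy => ?_⟩
  have h6 := hcov (Set.mem_image_of_mem pn hy)
  rw [Set.mem_iUnion₂] at h6
  obtain ⟨m, hm, hmy⟩ := h6
  refine ⟨t.equivFin ⟨m, hm⟩, ?_⟩
  change vals (γ (t.equivFin.symm (t.equivFin ⟨m, hm⟩) : MN M)) y.rep ≠ 0
  rw [Equiv.symm_apply_apply]
  exact h5 m (ht m hm) y hmy

/-- The forms with `T (x) = 0` for all `x = p y` with `R' (y) = 0`. -/
theorem exists_image_form {P : Ideal (MvPolynomial (Fin (N + 1)) ℂ)} [P.IsPrime] {P' : Ideal (MvPolynomial (Fin (M + 1)) ℂ)} [P'.IsPrime]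
    (hP : Homog P) (hP' : Homog P') (hX : ∃ i, (X i : MvPolynomial (Fin (N + 1)) ℂ) ∉ P) (hz : ∃ z : Fin 2 → FunField P, IsTranscendenceBasis ℂ z)
    (hz' : ∃ z' : Fin 2 → FunField P', IsTranscendenceBasis ℂ z') {p : PN M → PN N} (hp : IsReg P P' p) {n' : ℕ}
    {R' : MvPolynomial (Fin (M + 1)) ℂ} (hR' : R'.IsHomogeneous n') (hRP' : R' ∉ P') :
    ∃ (T : MvPolynomial (Fin (N + 1)) ℂ) (n : ℕ), T.IsHomogeneous n ∧ T ∉ P ∧ ∀ y ∈ projVar P', VanishesAt R' y → VanishesAt T (p y) := by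
  classical
  obtain ⟨n, D, γ, hγ, hγne, hrep, hcov⟩ := exists_cover hP' hp
  choose R m hR hRP hRev using fun k => Pool.Agent.H19OL.exists_norm_form hz hz' (hγ k)
    (dominant hP hP' hX hp (hγ k) (hrep k) (hγne k)) hR' hRP'
  refine ⟨∏ k, R k, ∑ k, m k, MvPolynomial.IsHomogeneous.prod _ _ _ fun k _ => hR k, ?_, ?_⟩
  · intro h
    obtain ⟨k, -, hk⟩ := ((inferInstance : P.IsPrime).prod_mem_iff).1 h
    exact hRP k hk
  · intro y hy hyR
    obtain ⟨k, hk⟩ := hcov y hy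
    have h1 : VanishesAt (R k) (p y) := by
      rw [hrep k y hy hk]
      unfold Pool.Agent.H7.Bir.rmap
      rw [dif_pos hk, vanishesAt_mk_iff (hR k)]
      refine hRev k y.rep y.rep_nonzero (fun Q hQ => ?_) hyR
      rw [← MvPolynomial.sum_homogeneousComponent Q, map_sum]
      exact Finset.sum_eq_zero fun i _ => hy _ (hP' Q hQ i) i (homogeneousComponent_isHomogeneous i Q)
    unfold VanishesAt at h1 ⊢
    rw [map_prod]
    exact Finset.prod_eq_zero (Finset.mem_univ k) h1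

end Pool.Agent.H62.Qe

end
end

section

/-!
# Qup An: holomorphic maps and dominant regular maps
-/

set_option autoImplicit false

open Topology Filter MvPolynomial

noncomputable section

namespace Pool.Agent.H7.Qup

attribute [-instance] ProperSMul.toContinuousSMul

open Pool.Agent.H17 (PN VanishesAt HolomorphicInto puncturedDisc vanishesAt_mk_iff)
open Pool.Agent.H62.FC (Homog)
open Pool.Agent.H62.SA (locVar)
open Pool.Agent.H7.Bir (vals rmap mem_of_open vals_smul rmap_mk pn_identity)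

variable {N M : ℕ} {P : Ideal (MvPolynomial (Fin (N + 1)) ℂ)} {P' : Ideal (MvPolynomial (Fin (M + 1)) ℂ)} {s s' : ℕ}
  {G : Fin s → MvPolynomial (Fin (N + 1)) ℂ} {G' : Fin s' → MvPolynomial (Fin (M + 1)) ℂ} {p : PN M → PN N}

theorem vals_rep_ne {D : ℕ} {γ : Fin (N + 1) → MvPolynomial (Fin (M + 1)) ℂ} (hγ : ∀ i, (γ i).IsHomogeneous D)
    {y : Fin (M + 1) → ℂ} (hy : y ≠ 0) : vals γ (Projectivization.mk ℂ y hy).rep ≠ 0 ↔ vals γ y ≠ 0 := by
  obtain ⟨a, ha⟩ := Projectivization.exists_smul_eq_mk_rep ℂ y hy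
  have h1 : (Projectivization.mk ℂ y hy).rep = (a : ℂ) • y := ha.symm
  rw [h1, vals_smul hγ, smul_ne_zero_iff]
  exact ⟨fun h => h.2, fun h => ⟨pow_ne_zero _ a.ne_zero, h⟩⟩

theorem Rep.map_mk {D : ℕ} {γ : Fin (N + 1) → MvPolynomial (Fin (M + 1)) ℂ} (h : Rep P' G' p D γ) {y : Fin (M + 1) → ℂ} (hy : y ≠ 0)
    (hU : Projectivization.mk ℂ y hy ∈ locVar P' G') (hv : vals γ y ≠ 0) :
    p (Projectivization.mk ℂ y hy) = Projectivization.mk ℂ (vals γ y) hv := by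
  rw [h.rep _ hU ((vals_rep_ne h.hom hy).2 hv), rmap_mk h.hom hy hv]

theorem analyticAt_vals {φ : ℂ → Fin (M + 1) → ℂ} {z : ℂ} (hφ : AnalyticAt ℂ φ z)
    (γ : Fin (N + 1) → MvPolynomial (Fin (M + 1)) ℂ) : AnalyticAt ℂ (fun w => vals γ (φ w)) z := by
  rw [analyticAt_pi_iff]
  intro i
  have h1 : AnalyticAt ℂ (fun w => MvPolynomial.aeval (φ w) (γ i)) z :=
    AnalyticAt.aeval_mvPolynomial (fun i => analyticAt_pi_iff.mp hφ i) (γ i)
  exact h1

/-- The composition of a holomorphic map into `U'` with the regular map. -/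
theorem holo_comp (hp : IsDominantMap P P' G G' p) {f : ℂ → PN M} {U : Set ℂ} (hUo : IsOpen U) (hf : HolomorphicInto f U)
    (hfU : ∀ z ∈ U, f z ∈ locVar P' G') : HolomorphicInto (fun z => p (f z)) U := by
  intro z hz
  obtain ⟨φ, hφ, he⟩ := hf z hz
  obtain ⟨D, γ, hγ, hv⟩ := hp.exists_rep (hfU z hz)
  obtain ⟨h1, h2⟩ := he.self_of_nhds
  rw [h2, vals_rep_ne hγ.hom h1] at hv
  have h3 := analyticAt_vals hφ γ
  refine ⟨fun w => vals γ (φ w), h3, ?_⟩
  filter_upwards [he, hUo.mem_nhds hz, h3.continuousAt.eventually_ne hv] with w h4 h5 h6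
  obtain ⟨h7, h8⟩ := h4
  refine ⟨h6, ?_⟩
  have h9 := hfU w h5
  rw [h8] at h9 ⊢
  exact hγ.map_mk h7 h9 h6

/-- A continuous function with values in the roots of a polynomial. -/
theorem const_of_root {m : ℕ} {b : Fin (m + 1) → ℂ} (hb : b (Fin.last m) ≠ 0) {ρ : ℂ → ℂ} {z₀ : ℂ} {r : ℝ}
    (hρ : ContinuousOn ρ (Metric.ball z₀ r)) (h : ∀ z ∈ Metric.ball z₀ r, ∑ l : Fin (m + 1), b l * ρ z ^ (l : ℕ) = 0) :
    ∀ z ∈ Metric.ball z₀ r, ρ z = ρ z₀ := by
  intro z hz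
  have hr : 0 < r := Metric.pos_of_mem_ball hz
  set q : Polynomial ℂ := ∑ l : Fin (m + 1), Polynomial.C (b l) * Polynomial.X ^ (l : ℕ) with hq
  have hq0 : q ≠ 0 := by
    intro h0
    have h1 : q.coeff m = b (Fin.last m) := by
      rw [hq, Polynomial.finsetSum_coeff, Finset.sum_eq_single (Fin.last m)]
      · rw [Polynomial.coeff_C_mul, Polynomial.coeff_X_pow, Fin.val_last, if_pos rfl, mul_one]
      · intro l _ hl
        rw [Polynomial.coeff_C_mul, Polynomial.coeff_X_pow, if_neg, mul_zero]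
        intro h2
        exact hl (Fin.ext (by rw [Fin.val_last]; exact h2.symm))
      · exact fun h2 => absurd (Finset.mem_univ _) h2
    rw [h0, Polynomial.coeff_zero] at h1
    exact hb h1.symm
  have hmaps : Set.MapsTo ρ (Metric.ball z₀ r) (q.roots.toFinset : Set ℂ) := by
    intro w hw
    rw [Finset.mem_coe, Multiset.mem_toFinset, Polynomial.mem_roots hq0, Polynomial.IsRoot.def, hq, Polynomial.eval_finsetSum]
    rw [← h w hw]
    refine Finset.sum_congr rfl fun l _ => ?_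
    rw [Polynomial.eval_mul, Polynomial.eval_C, Polynomial.eval_pow, Polynomial.eval_X]
  exact (convex_ball z₀ r).isPreconnected.constant_of_mapsTo (Finset.finite_toSet _).isDiscrete hρ hmaps hz (Metric.mem_ball_self hr)

/-- If `p ∘ f` is constant near a point then so is `f`. -/
theorem const_near {j : Fin (M + 1)} {m : Fin (M + 1) → ℕ} {α : ∀ i, Fin (m i + 1) → MvPolynomial (Fin (N + 1)) ℂ}
    (hrel : ∀ i (y : Fin (M + 1) → ℂ) (hy : y ≠ 0) (x : Fin (N + 1) → ℂ) (hx : x ≠ 0), Projectivization.mk ℂ y hy ∈ locVar P' G' →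
        p (Projectivization.mk ℂ y hy) = Projectivization.mk ℂ x hx →
        ∑ l : Fin (m i + 1), eval x (α i l) * y i ^ (l : ℕ) * y j ^ (m i - (l : ℕ)) = 0)
    {f : ℂ → PN M} {z₀ : ℂ} {φ : ℂ → Fin (M + 1) → ℂ} (hφ : AnalyticAt ℂ φ z₀)
    (he : ∀ᶠ z in 𝓝 z₀, ∃ h : φ z ≠ 0, f z = Projectivization.mk ℂ (φ z) h) (hfU : ∀ᶠ z in 𝓝 z₀, f z ∈ locVar P' G')
    (hj : φ z₀ j ≠ 0) {x : Fin (N + 1) → ℂ} (hx : x ≠ 0) (hα : ∀ i, eval x (α i (Fin.last (m i))) ≠ 0)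
    (hpf : ∀ᶠ z in 𝓝 z₀, p (f z) = Projectivization.mk ℂ x hx) : ∀ᶠ z in 𝓝 z₀, f z = f z₀ := by
  have hcj : ContinuousAt (fun z => φ z j) z₀ := (continuous_apply j).continuousAt.comp hφ.continuousAt
  obtain ⟨r, hr, hball⟩ := Metric.eventually_nhds_iff_ball.1
    ((((he.and hfU).and hpf).and (hcj.eventually_ne hj)).and hφ.eventually_analyticAt)
  have hz₀ : z₀ ∈ Metric.ball z₀ r := Metric.mem_ball_self hr
  have hconst : ∀ i, ∀ z ∈ Metric.ball z₀ r, φ z i / φ z j = φ z₀ i / φ z₀ j := by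
    intro i
    refine const_of_root (b := fun l => eval x (α i l)) (hα i) (ρ := fun z => φ z i / φ z j) (fun z hz => ?_) fun z hz => ?_
    · have h1 := (hball z hz).2.continuousAt
      exact (((continuous_apply i).continuousAt.comp h1).div ((continuous_apply j).continuousAt.comp h1) (hball z hz).1.2).continuousWithinAt
    · obtain ⟨⟨⟨⟨h1, h2⟩, h3⟩, h4⟩, -⟩ := hball z hz
      obtain ⟨h5, h6⟩ := h1
      rw [h6] at h2 h3
      have h7 := hrel i (φ z) h5 x hx h2 h3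
      have h8 : ∀ l : Fin (m i + 1), eval x (α i l) * φ z i ^ (l : ℕ) * φ z j ^ (m i - (l : ℕ)) =
          φ z j ^ m i * (eval x (α i l) * (φ z i / φ z j) ^ (l : ℕ)) := by
        intro l
        have h9 : (l : ℕ) ≤ m i := Nat.lt_succ_iff.1 l.2
        have h10 : φ z j ^ m i = φ z j ^ (l : ℕ) * φ z j ^ (m i - (l : ℕ)) := by
          rw [← pow_add, Nat.add_sub_cancel' h9]
        rw [h10, div_pow]
        field_simp
      rw [Finset.sum_congr rfl fun l _ => h8 l, ← Finset.mul_sum, mul_eq_zero] at h7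
      exact h7.resolve_left (pow_ne_zero _ h4)
  filter_upwards [Metric.ball_mem_nhds z₀ hr] with z hz
  obtain ⟨⟨⟨⟨⟨h5, h6⟩, h2⟩, h3⟩, h4⟩, -⟩ := hball z hz
  obtain ⟨⟨⟨⟨⟨h5', h6'⟩, h2'⟩, h3'⟩, h4'⟩, -⟩ := hball z₀ hz₀
  rw [h6, h6', Projectivization.mk_eq_mk_iff']
  refine ⟨φ z j / φ z₀ j, ?_⟩
  funext i
  have h7 := hconst i z hz
  change φ z j / φ z₀ j * φ z₀ i = φ z i
  rw [div_eq_div_iff h4 h4'] at h7
  field_simp
  linear_combination -h7

/-- The bound of a root. -/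
theorem root_bound {m : ℕ} {b : Fin (m + 1) → ℂ} {C : ℝ} (hb : ∀ l, ‖b l‖ ≤ C) {ρ : ℂ}
    (h : ∑ l : Fin (m + 1), b l * ρ ^ (l : ℕ) = 0) : ‖b (Fin.last m) * ρ‖ ≤ C * (m + 1) := by
  have hC : 0 ≤ C := (norm_nonneg _).trans (hb 0)
  have hm : (0 : ℝ) ≤ m := Nat.cast_nonneg m
  rcases le_or_gt ‖ρ‖ 1 with h1 | h1
  · rw [norm_mul]
    calc ‖b (Fin.last m)‖ * ‖ρ‖ ≤ C * 1 := mul_le_mul (hb _) h1 (norm_nonneg _) hC
      _ ≤ C * (m + 1) := mul_le_mul_of_nonneg_left (by linarith) hC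
  · have hρ : 0 < ‖ρ‖ := zero_lt_one.trans h1
    rcases Nat.eq_zero_or_pos m with rfl | hmp
    · rw [Fin.sum_univ_one, Fin.val_zero, pow_zero, mul_one] at h
      have h2 : b (Fin.last 0) = 0 := h
      rw [h2, zero_mul, norm_zero]
      exact mul_nonneg hC (by linarith)
    · rw [Fin.sum_univ_castSucc, Fin.val_last, add_comm] at h
      have h2 : b (Fin.last m) * ρ ^ m = -∑ l : Fin m, b l.castSucc * ρ ^ ((l.castSucc : Fin (m + 1)) : ℕ) := eq_neg_of_add_eq_zero_left h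
      have h3 : ‖b (Fin.last m) * ρ ^ m‖ ≤ (C * m) * ‖ρ‖ ^ (m - 1) := by
        rw [h2, norm_neg]
        refine (norm_sum_le _ _).trans ?_
        have h4 : ∀ l : Fin m, ‖b l.castSucc * ρ ^ ((l.castSucc : Fin (m + 1)) : ℕ)‖ ≤ C * ‖ρ‖ ^ (m - 1) := by
          intro l
          rw [norm_mul, norm_pow]
          refine mul_le_mul (hb _) (pow_le_pow_right₀ h1.le ?_) (pow_nonneg hρ.le _) hC
          have := l.2
          rw [Fin.val_castSucc]
          omega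
        refine (Finset.sum_le_sum fun l _ => h4 l).trans ?_
        rw [Finset.sum_const, Finset.card_univ, Fintype.card_fin, nsmul_eq_mul]
        nlinarith
      have h5 : ‖b (Fin.last m) * ρ ^ m‖ = ‖b (Fin.last m) * ρ‖ * ‖ρ‖ ^ (m - 1) := by
        rw [norm_mul, norm_mul, norm_pow, mul_assoc, ← pow_succ', Nat.sub_add_cancel hmp]
      rw [h5] at h3
      have h6 := le_of_mul_le_mul_right h3 (pow_pos hρ _)
      refine h6.trans ?_
      nlinarith

/-- **Extension over the puncture.** -/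
theorem extend_of_alg {j : Fin (M + 1)} {m : Fin (M + 1) → ℕ} {α : ∀ i, Fin (m i + 1) → MvPolynomial (Fin (N + 1)) ℂ}
    (hrel : ∀ i (y : Fin (M + 1) → ℂ) (hy : y ≠ 0) (x : Fin (N + 1) → ℂ) (hx : x ≠ 0), Projectivization.mk ℂ y hy ∈ locVar P' G' →
        p (Projectivization.mk ℂ y hy) = Projectivization.mk ℂ x hx →
        ∑ l : Fin (m i + 1), eval x (α i l) * y i ^ (l : ℕ) * y j ^ (m i - (l : ℕ)) = 0)
    {f : ℂ → PN M} (hf : HolomorphicInto f puncturedDisc) (hfU : ∀ z ∈ puncturedDisc, f z ∈ locVar P' G')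
    {ψ : ℂ → Fin (N + 1) → ℂ} (hψ : AnalyticAt ℂ ψ 0)
    (hpf : ∀ᶠ z in 𝓝 (0 : ℂ), z ≠ 0 → ∃ h : ψ z ≠ 0, p (f z) = Projectivization.mk ℂ (ψ z) h)
    (hα : ∀ i, ¬ ∀ᶠ z in 𝓝 (0 : ℂ), eval (ψ z) (α i (Fin.last (m i))) = 0) :
    ∃ g : ℂ → PN M, HolomorphicInto g (Metric.ball 0 1) ∧ ∀ z ∈ puncturedDisc, g z = f z := by
  classical
  have han : ∀ Q : MvPolynomial (Fin (N + 1)) ℂ, AnalyticAt ℂ (fun z => eval (ψ z) Q) 0 := by
    intro Q
    have h1 : AnalyticAt ℂ (fun w => MvPolynomial.aeval (ψ w) Q) 0 :=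
      AnalyticAt.aeval_mvPolynomial (fun i => analyticAt_pi_iff.mp hψ i) Q
    exact h1
  set a : Fin (M + 1) → ℂ → ℂ := fun i z => eval (ψ z) (α i (Fin.last (m i))) with ha
  have hane : ∀ i, ∀ᶠ z in 𝓝[≠] (0 : ℂ), a i z ≠ 0 := by
    intro i
    exact (han _).eventually_eq_zero_or_eventually_ne_zero.resolve_left (hα i)
  -- bounds of the coefficients
  have hbd : ∀ i, ∃ C : ℝ, ∀ᶠ z in 𝓝 (0 : ℂ), ∀ l, ‖eval (ψ z) (α i l)‖ ≤ C := by
    intro i
    have h1 : ∀ l, ∃ C : ℝ, ∀ᶠ z in 𝓝 (0 : ℂ), ‖eval (ψ z) (α i l)‖ ≤ C := fun l =>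
      ⟨‖eval (ψ 0) (α i l)‖ + 1, ((han (α i l)).continuousAt.norm.eventually_lt continuousAt_const (lt_add_one _)).mono fun z hz => hz.le⟩
    choose C hC using h1
    refine ⟨∑ l, |C l|, ?_⟩
    filter_upwards [eventually_all.2 hC] with z hz l
    exact ((hz l).trans (le_abs_self _)).trans (Finset.single_le_sum (f := fun l => |C l|) (fun l _ => abs_nonneg _) (Finset.mem_univ l))
  choose C hC using hbd
  have hev : ∀ᶠ z in 𝓝[≠] (0 : ℂ), z ∈ puncturedDisc ∧ (∃ h : ψ z ≠ 0, p (f z) = Projectivization.mk ℂ (ψ z) h) ∧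
      (∀ i l, ‖eval (ψ z) (α i l)‖ ≤ C i) ∧ ∀ i, a i z ≠ 0 := by
    have h1 : ∀ᶠ z in 𝓝[≠] (0 : ℂ), z ∈ puncturedDisc := by
      have h4 : Metric.ball (0 : ℂ) 1 \ {0} ∈ 𝓝[≠] (0 : ℂ) := sdiff_mem_nhdsWithin_compl (Metric.ball_mem_nhds _ one_pos) _
      exact h4
    have h2 : ∀ᶠ z in 𝓝[≠] (0 : ℂ), ∃ h : ψ z ≠ 0, p (f z) = Projectivization.mk ℂ (ψ z) h :=
      eventually_nhdsWithin_iff.2 (hpf.mono fun z hz h => hz h)
    filter_upwards [h1, h2, (eventually_all.2 hC).filter_mono nhdsWithin_le_nhds, eventually_all.2 hane] with z h3 h4 h5 h6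
    exact ⟨h3, h4, h5, h6⟩
  obtain ⟨r, hr, hball⟩ : ∃ r > 0, ∀ z ∈ Metric.ball (0 : ℂ) r \ {0}, z ∈ puncturedDisc ∧
      (∃ h : ψ z ≠ 0, p (f z) = Projectivization.mk ℂ (ψ z) h) ∧ (∀ i l, ‖eval (ψ z) (α i l)‖ ≤ C i) ∧ ∀ i, a i z ≠ 0 := by
    obtain ⟨r, hr, h1⟩ := Metric.eventually_nhds_iff_ball.1 (eventually_nhdsWithin_iff.1 hev)
    exact ⟨r, hr, fun z hz => h1 z hz.1 hz.2⟩
  -- the coordinate `j` does not vanish
  have hj : ∀ z ∈ Metric.ball (0 : ℂ) r \ {0}, (f z).rep j ≠ 0 := by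
    intro z hz h0
    obtain ⟨h1, ⟨h2, h3⟩, -, h5⟩ := hball z hz
    apply (f z).rep_nonzero
    funext i
    have h6 := hrel i (f z).rep (f z).rep_nonzero (ψ z) h2 (by rw [(f z).mk_rep]; exact hfU z h1) (by rw [(f z).mk_rep]; exact h3)
    rw [Fin.sum_univ_castSucc] at h6
    have h7 : ∀ l : Fin (m i), eval (ψ z) (α i l.castSucc) * (f z).rep i ^ ((l.castSucc : Fin (m i + 1)) : ℕ) *
        (f z).rep j ^ (m i - ((l.castSucc : Fin (m i + 1)) : ℕ)) = 0 := by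
      intro l
      have h8 : m i - ((l.castSucc : Fin (m i + 1)) : ℕ) ≠ 0 := by
        have := l.2
        rw [Fin.val_castSucc]
        omega
      rw [h0, zero_pow h8, mul_zero]
    rw [Finset.sum_eq_zero fun l _ => h7 l, zero_add, Fin.val_last, Nat.sub_self, pow_zero, mul_one, mul_eq_zero] at h6
    exact eq_zero_of_pow_eq_zero (h6.resolve_left (h5 i))
  -- the normalized lift
  set S : ℂ → Fin (M + 1) → ℂ := fun w => ((f w).rep j)⁻¹ • (f w).rep with hS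
  have hSmk : ∀ (w : ℂ) (x : Fin (M + 1) → ℂ) (hx : x ≠ 0), f w = Projectivization.mk ℂ x hx → S w = (x j)⁻¹ • x := by
    intro w x hx h
    obtain ⟨a, ha⟩ := Projectivization.exists_smul_eq_mk_rep ℂ x hx
    have h1 : (f w).rep = (a : ℂ) • x := by rw [h]; exact ha.symm
    rw [hS]
    simp only [h1, Pi.smul_apply, smul_eq_mul]
    rw [smul_smul, mul_inv, mul_comm (a : ℂ)⁻¹, mul_assoc, inv_mul_cancel₀ a.ne_zero, mul_one]
  set A : ℂ → ℂ := fun z => ∏ i, a i z with hA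
  have hAan : AnalyticAt ℂ A 0 := by
    have h1 : AnalyticAt ℂ (fun z => ∏ i, a i z) 0 := Finset.analyticAt_fun_prod _ fun i _ => han _
    exact h1
  -- the function is bounded and holomorphic
  obtain ⟨r', hr', hr'r, haball⟩ : ∃ r' > 0, r' ≤ r ∧ ∀ z ∈ Metric.ball (0 : ℂ) r', AnalyticAt ℂ A z := by
    obtain ⟨ρ, hρ, h1⟩ := Metric.eventually_nhds_iff_ball.1 hAan.eventually_analyticAt
    exact ⟨min ρ r, lt_min hρ hr, min_le_right _ _, fun z hz => h1 z (Metric.ball_subset_ball (min_le_left _ _) hz)⟩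
  have hsub : ∀ z ∈ Metric.ball (0 : ℂ) r' \ {0}, z ∈ Metric.ball (0 : ℂ) r \ {0} := fun z hz =>
    ⟨Metric.ball_subset_ball hr'r hz.1, hz.2⟩
  have hd : DifferentiableOn ℂ (fun z => A z • S z) (Metric.ball (0 : ℂ) r' \ {0}) := by
    intro w hw
    obtain ⟨φ, h4, h5⟩ := hf w (hball w (hsub w hw)).1
    have h6 : φ w j ≠ 0 := by
      obtain ⟨h7, h8⟩ := h5.self_of_nhds
      obtain ⟨a, ha⟩ := Projectivization.exists_smul_eq_mk_rep ℂ (φ w) h7
      have h9 : (f w).rep = (a : ℂ) • φ w := by rw [h8]; exact ha.symm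
      have h10 := hj w (hsub w hw)
      rw [h9] at h10
      exact right_ne_zero_of_mul h10
    have h7 : AnalyticAt ℂ (fun z => (φ z j)⁻¹ • φ z) w := by
      have h8 : AnalyticAt ℂ (fun z => φ z j) w := analyticAt_pi_iff.1 h4 j
      exact (h8.inv h6).smul h4
    have h8 : AnalyticAt ℂ (fun z => A z • ((φ z j)⁻¹ • φ z)) w := (haball w hw.1).smul h7
    refine DifferentiableAt.differentiableWithinAt (h8.differentiableAt.congr_of_eventuallyEq ?_)
    filter_upwards [h5] with z hz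
    obtain ⟨h8, h9⟩ := hz
    rw [hSmk z _ h8 h9]
  have hratio : ∀ z ∈ Metric.ball (0 : ℂ) r \ {0}, ∀ i, ‖a i z * S z i‖ ≤ C i * (m i + 1) := by
    intro z hz i
    obtain ⟨h1, ⟨h2, h3⟩, h4, h5⟩ := hball z hz
    have h6 := hrel i (f z).rep (f z).rep_nonzero (ψ z) h2 (by rw [(f z).mk_rep]; exact hfU z h1) (by rw [(f z).mk_rep]; exact h3)
    have hjz := hj z hz
    have h8 : ∀ l : Fin (m i + 1), eval (ψ z) (α i l) * (f z).rep i ^ (l : ℕ) * (f z).rep j ^ (m i - (l : ℕ)) =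
        (f z).rep j ^ m i * (eval (ψ z) (α i l) * (S z i) ^ (l : ℕ)) := by
      intro l
      have h9 : (l : ℕ) ≤ m i := Nat.lt_succ_iff.1 l.2
      have h10 : (f z).rep j ^ m i = (f z).rep j ^ (l : ℕ) * (f z).rep j ^ (m i - (l : ℕ)) := by
        rw [← pow_add, Nat.add_sub_cancel' h9]
      have h11 : S z i = (f z).rep i / (f z).rep j := by
        change ((f z).rep j)⁻¹ * (f z).rep i = _
        rw [div_eq_inv_mul]
      rw [h10, h11, div_pow]
      field_simp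
    rw [Finset.sum_congr rfl fun l _ => h8 l, ← Finset.mul_sum, mul_eq_zero] at h6
    exact root_bound (h4 i) (h6.resolve_left (pow_ne_zero _ hjz))
  have hb : BddAbove (norm ∘ (fun z => A z • S z) '' (Metric.ball (0 : ℂ) r' \ {0})) := by
    refine ⟨∑ i, (C i * (m i + 1)) * ∏ i' ∈ Finset.univ.erase i, C i', ?_⟩
    rintro _ ⟨w, hw, rfl⟩
    have hw' := hsub w hw
    obtain ⟨-, -, h4, -⟩ := hball w hw'
    have hC0 : ∀ i, 0 ≤ C i := fun i => (norm_nonneg _).trans (h4 i 0)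
    have hterm : ∀ i, 0 ≤ (C i * (m i + 1)) * ∏ i' ∈ Finset.univ.erase i, C i' := fun i =>
      mul_nonneg (mul_nonneg (hC0 i) (by positivity)) (Finset.prod_nonneg fun i' _ => hC0 i')
    change ‖A w • S w‖ ≤ _
    rw [pi_norm_le_iff_of_nonneg (Finset.sum_nonneg fun i _ => hterm i)]
    intro i
    refine le_trans ?_ (Finset.single_le_sum (f := fun i => (C i * (m i + 1)) * ∏ i' ∈ Finset.univ.erase i, C i')
      (fun i _ => hterm i) (Finset.mem_univ i))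
    change ‖A w * S w i‖ ≤ _
    have h5 : A w * S w i = (a i w * S w i) * ∏ i' ∈ Finset.univ.erase i, a i' w := by
      rw [hA]
      simp only
      rw [← Finset.mul_prod_erase Finset.univ (fun i => a i w) (Finset.mem_univ i)]
      ring
    rw [h5, norm_mul, norm_prod]
    refine mul_le_mul (hratio w hw' i) (Finset.prod_le_prod (fun i' _ => norm_nonneg _) fun i' _ => h4 i' _)
      (Finset.prod_nonneg fun i' _ => norm_nonneg _) (mul_nonneg (hC0 i) (by positivity))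
  have hu := Complex.differentiableOn_update_limUnder_of_bddAbove (Metric.ball_mem_nhds (0 : ℂ) hr') hd hb
  set S' : ℂ → Fin (M + 1) → ℂ := Function.update (fun z => A z • S z) 0 (limUnder (𝓝[≠] 0) fun z => A z • S z) with hS'
  have hS'a : AnalyticAt ℂ S' 0 := hu.analyticAt (Metric.ball_mem_nhds (0 : ℂ) hr')
  have hS'eq : ∀ w, w ≠ 0 → S' w = A w • S w := fun w hw => Function.update_of_ne hw _ _
  have hAne : ∀ z ∈ Metric.ball (0 : ℂ) r \ {0}, A z ≠ 0 := fun z hz => Finset.prod_ne_zero_iff.2 fun i _ => (hball z hz).2.2.2 i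
  have hSj : ∀ z ∈ Metric.ball (0 : ℂ) r \ {0}, S z j = 1 := fun z hz => inv_mul_cancel₀ (hj z hz)
  have hS'ne : ∀ z ∈ Metric.ball (0 : ℂ) r \ {0}, S' z ≠ 0 := by
    intro z hz h0
    have h1 := congrFun h0 j
    rw [hS'eq z hz.2] at h1
    change A z * S z j = 0 at h1
    rw [hSj z hz, mul_one] at h1
    exact hAne z hz h1
  have hnz : ¬ ∀ᶠ z in 𝓝 (0 : ℂ), S' z = 0 := by
    intro h0
    have h1 : ∀ᶠ z in 𝓝[≠] (0 : ℂ), z ∈ Metric.ball (0 : ℂ) r \ {0} :=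
      sdiff_mem_nhdsWithin_compl (Metric.ball_mem_nhds _ hr) _
    obtain ⟨z, h2, h3⟩ := ((h0.filter_mono nhdsWithin_le_nhds).and h1).exists
    exact hS'ne z h3 h2
  obtain ⟨n, Φ, hΦ, hΦ0, hΦe⟩ := (hS'a.exists_eventuallyEq_pow_smul_nonzero_iff).2 hnz
  refine Pool.Agent.H62.Qe.extend_of_pow hf le_rfl hΦ.continuousAt hΦ0 ?_
  filter_upwards [hΦe, Metric.ball_mem_nhds (0 : ℂ) hr] with z h1 h2 h3
  have h4 : z ∈ Metric.ball (0 : ℂ) r \ {0} := ⟨h2, h3⟩
  have h5 := hS'ne z h4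
  have h6 : Φ z ≠ 0 := by
    intro h7
    rw [h7, smul_zero] at h1
    exact h5 h1
  refine ⟨h6, ?_⟩
  rw [pow_one, ← (f z).mk_rep, Projectivization.mk_eq_mk_iff']
  rw [hS'eq z h3, sub_zero] at h1
  have h7 : A z ≠ 0 := hAne z h4
  have h8 : (f z).rep j ≠ 0 := hj z h4
  refine ⟨(f z).rep j * (A z)⁻¹ * z ^ n, ?_⟩
  rw [mul_smul, ← h1, smul_smul, mul_assoc, inv_mul_cancel₀ h7, mul_one]
  change (f z).rep j • (((f z).rep j)⁻¹ • (f z).rep) = _
  rw [smul_smul, mul_inv_cancel₀ h8, one_smul]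

end Pool.Agent.H7.Qup

end
end
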