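import Pool.Agent.H94.CB.H17EF.Bridge
import Pool.Agent.H94.CB.H92.TH.Defs

/-! The parts of this file: H19OL.Wr, H19OL.Defs. -/

section

/-!
# OL Wr: the Wronskian of a pair of functions
-/

set_option autoImplicit false

open Topology Filter

namespace Pool.Agent.H19OL

/-- The Wronskian `a b' - b a'` of a pair of functions. -/
noncomputable def wronskian (ρ : ℂ → Fin 2 → ℂ) (z : ℂ) : ℂ :=
  ρ z 0 * deriv (fun w => ρ w 1) z - ρ z 1 * deriv (fun w => ρ w 0) z

theorem wronskian_eq {ρ : ℂ → Fin 2 → ℂ} {z a b : ℂ} (h0 : HasDerivAt (fun w => ρ w 0) a z) (h1 : HasDerivAt (fun w => ρ w 1) b z) :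
    wronskian ρ z = ρ z 0 * b - ρ z 1 * a := by
  unfold wronskian
  rw [h0.deriv, h1.deriv]

theorem wronskian_congr {ρ ρ' : ℂ → Fin 2 → ℂ} {z : ℂ} (h : ∀ᶠ w in 𝓝 z, ρ w = ρ' w) : wronskian ρ z = wronskian ρ' z := by
  unfold wronskian
  have h0 : (fun w => ρ w 0) =ᶠ[𝓝 z] fun w => ρ' w 0 := h.mono fun w hw => congrFun hw 0
  have h1 : (fun w => ρ w 1) =ᶠ[𝓝 z] fun w => ρ' w 1 := h.mono fun w hw => congrFun hw 1
  rw [h0.deriv_eq, h1.deriv_eq, h.self_of_nhds]

/-- The Wronskian of `s • ρ ∘ h`. -/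
theorem wronskian_smul_comp {ρ : ℂ → Fin 2 → ℂ} {s h : ℂ → ℂ} {z : ℂ} (hρ : DifferentiableAt ℂ ρ (h z))
    (hs : DifferentiableAt ℂ s z) (hh : DifferentiableAt ℂ h z) :
    wronskian (fun w => s w • ρ (h w)) z = s z ^ 2 * (deriv h z * wronskian ρ (h z)) := by
  have h1 : ∀ i, HasDerivAt (fun w => (s w • ρ (h w)) i) (deriv s z * ρ (h z) i + s z * (deriv (fun w => ρ w i) (h z) * deriv h z)) z := by
    intro i
    have h2 : DifferentiableAt ℂ (fun w => ρ w i) (h z) := (differentiableAt_pi.1 hρ) i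
    have h3 : HasDerivAt (fun w => ρ (h w) i) (deriv (fun w => ρ w i) (h z) * deriv h z) z :=
      h2.hasDerivAt.comp z hh.hasDerivAt
    exact hs.hasDerivAt.mul h3
  rw [wronskian_eq (h1 0) (h1 1)]
  unfold wronskian
  simp only [Pi.smul_apply, smul_eq_mul]
  ring

/-- The derivative of the quotient of two linear forms. -/
theorem hasDerivAt_quot {T : ℂ → Fin 2 → ℂ} {z : ℂ} (hT : DifferentiableAt ℂ T z) (v α : Fin 2 → ℂ)
    (h : α 0 * T z 0 + α 1 * T z 1 ≠ 0) :
    HasDerivAt (fun w => (v 0 * T w 1 - v 1 * T w 0) / (α 0 * T w 0 + α 1 * T w 1))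
      ((α 0 * v 0 + α 1 * v 1) * wronskian T z / (α 0 * T z 0 + α 1 * T z 1) ^ 2) z := by
  have h0 : HasDerivAt (fun w => T w 0) (deriv (fun w => T w 0) z) z := ((differentiableAt_pi.1 hT) 0).hasDerivAt
  have h1 : HasDerivAt (fun w => T w 1) (deriv (fun w => T w 1) z) z := ((differentiableAt_pi.1 hT) 1).hasDerivAt
  have h2 := ((h1.const_mul (v 0)).sub (h0.const_mul (v 1))).div ((h0.const_mul (α 0)).add (h1.const_mul (α 1))) h
  refine h2.congr_deriv ?_
  unfold wronskian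
  simp only [Pi.sub_apply, Pi.add_apply]
  congr 1
  ring

/-- An analytic function whose derivative is zero near a point is constant near the point. -/
theorem eventually_const {f : ℂ → ℂ} {z₀ : ℂ} (hf : AnalyticAt ℂ f z₀) (h : ∀ᶠ z in 𝓝 z₀, deriv f z = 0) :
    ∀ᶠ z in 𝓝 z₀, f z = f z₀ := by
  obtain ⟨ε, hε, hb⟩ := Metric.eventually_nhds_iff_ball.1 (hf.eventually_analyticAt.and h)
  filter_upwards [Metric.ball_mem_nhds z₀ hε] with z hz
  exact Metric.isOpen_ball.is_const_of_deriv_eq_zero (convex_ball z₀ ε).isPreconnected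
    (fun w hw => (hb w hw).1.differentiableAt.differentiableWithinAt) (fun w hw => (hb w hw).2) hz (Metric.mem_ball_self hε)

/-- The determinant of the coordinates. -/
theorem norm_ne_zero' {v : Fin 2 → ℂ} (hv : v ≠ 0) :
    (starRingEnd ℂ) (v 0) * v 0 + (starRingEnd ℂ) (v 1) * v 1 ≠ 0 := by
  intro h
  rw [← Complex.normSq_eq_conj_mul_self, ← Complex.normSq_eq_conj_mul_self] at h
  have h1 : Complex.normSq (v 0) + Complex.normSq (v 1) = 0 := by exact_mod_cast h
  have h2 := Complex.normSq_nonneg (v 0)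
  have h3 := Complex.normSq_nonneg (v 1)
  have h4 : v 0 = 0 := Complex.normSq_eq_zero.1 (by linarith)
  have h5 : v 1 = 0 := Complex.normSq_eq_zero.1 (by linarith)
  apply hv
  funext i
  fin_cases i
  · exact h4
  · exact h5

end Pool.Agent.H19OL

end

section

/-!
# OL Defs: surfaces with a rational map to the projective line whose orbifold base has Kodaira dimension `0`

The orbifold base of the rational map `t = (A : B) : X ⇢ ℙ¹` (in the sense of Campana: the multiplicity of a point is the minimum of the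
multiplicities of the components of the fibre) has Kodaira dimension `0` in the cases `(2, 2, 2, 2)`, `(3, 3, 3)`, `(2, 4, 4)`, `(2, 3, 6)`.  Then there
are an elliptic curve `ℂ / Λ`, a covering `R : ℂ / Λ → ℙ¹` and a binary form `Φ` of degree `2 m` (`m = 2, 3, 4, 6`) with
`(R₀ R₁' - R₁ R₀') ^ m = Φ (R₀, R₁)` (`IsOrbifoldCover`), and `Θ = (A dB - B dA) ^ m / Φ (A, B)` is a holomorphic symmetric differential on `X`
(`IsPullback`).  The Zariski closure of `{(x, c) : t x = R c}` in `X × ℂ / Λ` is given by the ideal `fibreProduct`.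
-/

set_option autoImplicit false

open Topology Filter MvPolynomial

noncomputable section

namespace Pool.Agent.H19OL

open Pool.Agent.H17 (PN HolomorphicInto)
open Pool.Agent.H13.SM (cone)
open Pool.Agent.H17EF (coneE)
open Pool.Agent.H36.BP (EN)
open Pool.Agent.H92.TH (SymDiff)

variable {N M r : ℕ}

/-- `y` is a vector of homogeneous coordinates of the point `p`. -/
def Rep (y : Fin (r + 1) → ℂ) (p : PN r) : Prop := ∃ h : y ≠ 0, p = Projectivization.mk ℂ y h

/-- The values of two polynomials. -/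
def pair (A B : MvPolynomial (Fin (N + 1)) ℂ) (x : Fin (N + 1) → ℂ) : Fin 2 → ℂ := ![eval x A, eval x B]

/-- `R : ℂ / Λ → ℙ¹` is holomorphic and onto, and `(ρ₀ ρ₁' - ρ₁ ρ₀') ^ m = Φ (ρ₀, ρ₁)` for every local holomorphic representation `(ρ₀ : ρ₁)` of `R`,
where `Φ` is a binary form of degree `2 m`. -/
structure IsOrbifoldCover {Λ : AddSubgroup ℂ} (R : ℂ ⧸ Λ → PN 1) (m : ℕ) (Φ : MvPolynomial (Fin 2) ℂ) : Prop where
  form : Φ.IsHomogeneous (2 * m)
  holomorphic : HolomorphicInto (fun z : ℂ => R z) Set.univ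
  onto : Function.Surjective R
  equation : ∀ (ρ : ℂ → Fin 2 → ℂ) (z : ℂ), AnalyticAt ℂ ρ z → (∀ᶠ w : ℂ in 𝓝 z, Rep (ρ w) (R w)) → wronskian ρ z ^ m = eval (ρ z) Φ

/-- `Θ` is the symmetric differential `(A dB - B dA) ^ m / Φ (A, B)` on the variety of `P`: this holds for all holomorphic curves `F` in the cone. -/
def IsPullback (P : Ideal (MvPolynomial (Fin (N + 1)) ℂ)) (A B : MvPolynomial (Fin (N + 1)) ℂ) {m : ℕ} (Θ : SymDiff (coneE P) m)
    (Φ : MvPolynomial (Fin 2) ℂ) : Prop :=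
  ∀ (F : ℂ → EN N) (z : ℂ), AnalyticAt ℂ F z → (∀ᶠ w in 𝓝 z, F w ∈ coneE P) →
    wronskian (fun w => pair A B (F w).ofLp) z ^ m = Θ.toFun (F z) (deriv F z) * eval (pair A B (F z).ofLp) Φ

/-- The Segre product `(x i * y j)` of two vectors; `ε` is a numbering of the pairs `(i, j)`. -/
def segre (ε : Fin (M + 1) ≃ Fin (N + 1) × Fin (r + 1)) (x : Fin (N + 1) → ℂ) (y : Fin (r + 1) → ℂ) : Fin (M + 1) → ℂ :=
  fun k => x (ε k).1 * y (ε k).2

/-- The homogeneous coordinates of the points `(x, c)` of `X × ℂ / Λ` with `(A x : B x) = R c`, where `X` is the variety of `P`, and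
`e : ℂ / Λ → ℙ^r`. -/
def fibreGraph (P : Ideal (MvPolynomial (Fin (N + 1)) ℂ)) (A B : MvPolynomial (Fin (N + 1)) ℂ) {Λ : AddSubgroup ℂ} (R : ℂ ⧸ Λ → PN 1)
    (e : ℂ ⧸ Λ → PN r) (ε : Fin (M + 1) ≃ Fin (N + 1) × Fin (r + 1)) : Set (Fin (M + 1) → ℂ) :=
  {v | ∃ (x : Fin (N + 1) → ℂ) (y : Fin (r + 1) → ℂ) (c : ℂ ⧸ Λ), x ∈ cone P ∧ Rep y (e c) ∧ Rep (pair A B x) (R c) ∧ v = segre ε x y}

/-- The ideal of the polynomials which vanish on `fibreGraph`. -/
def fibreProduct (P : Ideal (MvPolynomial (Fin (N + 1)) ℂ)) (A B : MvPolynomial (Fin (N + 1)) ℂ) {Λ : AddSubgroup ℂ} (R : ℂ ⧸ Λ → PN 1)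
    (e : ℂ ⧸ Λ → PN r) (ε : Fin (M + 1) ≃ Fin (N + 1) × Fin (r + 1)) : Ideal (MvPolynomial (Fin (M + 1)) ℂ) :=
  vanishingIdeal ℂ (fibreGraph P A B R e ε)

end Pool.Agent.H19OL

end
end
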