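import Pool.Agent.H94.CB.M29
import Pool.Agent.H94.CB.M30
import Pool.Agent.H94.CB.M34

/-! The parts of this file: H68.KR.EV, H68.KR.EM. -/

section

/-!
# KR EV: evaluation of the function field at a generic point with values in a field

`P` is prime, `FunField P` has positive transcendence degree.  Let `x : Fin (N+1) → FunField P` be the point of
`exists_point` (file `Pt`) (`aeval x G = 0 ↔ G ∈ P` for homogeneous `G`, `x i / x j = ratio P i j`,
`adjoin ℂ {x i / x j} = ⊤`, `x i = 0 ↔ coordFun P i = 0`; `coordFun P i = 0 ↔ X i ∈ P`; note that `FunField P` and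
`functionField P` are the same type with the same instances).

For `G : MvPolynomial (Fin (N+1)) ℂ` of total degree `≤ n` let `G^h = hmz l n G` (file `HZ`), homogeneous of degree
`n`.  For a point `y` of a field `F` over `ℂ` with `y l ≠ 0`: `G^h (y) = y_l ^ n G (y / y_l)` (`eval₂_hmz`).  So for a point `y` with the property
`hy : ∀ d Q, Q.IsHomogeneous d → (eval₂ ι y Q = 0 ↔ Q ∈ P)` and `y l ≠ 0`: `G (y / y_l) = 0 ↔ G^h ∈ P`.

`exists_eval`: choose `l` with `X l ∉ P` (exists, otherwise all `x i = 0` and `adjoin = ⊥`, but there is a transcendental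
element `z 0`); then `x l ≠ 0` and `y l ≠ 0`.  By the remark (for `x` and for `y`) the ring homomorphisms
`α : G ↦ G (x / x_l)`, `β : G ↦ G (y / y_l)` of `MvPolynomial` have the same kernel.  So `β` induces an injective ring
homomorphism of the range `A` of `α` into `F` (`RingHom.liftOfSurjective` / `Ideal.Quotient` / by choice), and
`FunField P` is the fraction field of `A` (every element of `adjoin ℂ {x i / x l}` is a quotient of two elements of
`A`: `IntermediateField.mem_adjoin_range_iff`, or `IsFractionRing.of_field`; the field generated by the `x i / x l`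
contains `x i / x j`, so it is `⊤`).  `IsFractionRing.lift`.  Then `E (ratio P i l) = y i / y l` and
`ratio P i j = ratio P i l / ratio P j l` if `X j ∉ P`; if `X j ∈ P`, `ratio P i j = 0` (division by `0`) and `y j = 0`.

`exists_hom_rep`: `f = α G₁ / α G₂`, `α G₂ ≠ 0`; take `n ≥` both total degrees, `A = G₁^h`, `B = G₂^h` (for one `l₀`),
`f * B (x) = A (x)` and then for every `l` with `x l ≠ 0` divide by `x_l ^ n`.
-/

set_option autoImplicit false

open MvPolynomial
open Pool.Agent.H17GT (coordFun functionField)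
open Pool.Agent.H17LG.Variety (FunField ratio)

noncomputable section

namespace Pool.Agent.H68.KR

attribute [-instance] ProperSMul.toContinuousSMul

variable {N : ℕ} (P : Ideal (MvPolynomial (Fin (N + 1)) ℂ)) [P.IsPrime]

theorem coordFun_eq_zero_iff (i : Fin (N + 1)) : coordFun P i = 0 ↔ X i ∈ P := by
  unfold Pool.Agent.H17GT.coordFun
  rw [map_eq_zero_iff _ (IsFractionRing.injective (MvPolynomial (Fin (N + 1)) ℂ ⧸ P)
    (FractionRing (MvPolynomial (Fin (N + 1)) ℂ ⧸ P))), Ideal.Quotient.eq_zero_iff_mem]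

private theorem EV_smul {F : Type} [Field F] (ι : ℂ →+* F) {d : ℕ} {Q : MvPolynomial (Fin (N + 1)) ℂ}
    (hQ : Q.IsHomogeneous d) {l : Fin (N + 1)} (y : Fin (N + 1) → F) :
    eval₂ ι (fun i => y i / y l) Q = (y l)⁻¹ ^ d * eval₂ ι y Q := by
  have h1 : (fun i => y i / y l) = fun i => (y l)⁻¹ * y i := by
    funext i
    rw [div_eq_inv_mul]
  rw [h1, eval₂_of_isHomogeneous ι hQ]

/-- rational functions as quotients of polynomials in the ratios -/
private theorem EV_quot {x : Fin (N + 1) → FunField P} (hgen : IntermediateField.adjoin ℂ {y | ∃ i j, y = x i / x j} = ⊤)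
    {l : Fin (N + 1)} (hl : x l ≠ 0) (f : FunField P) :
    ∃ G₁ G₂ : MvPolynomial (Fin (N + 1)) ℂ, aeval (fun i => x i / x l) G₂ ≠ 0 ∧
      f * aeval (fun i => x i / x l) G₂ = aeval (fun i => x i / x l) G₁ := by
  have hf : f ∈ IntermediateField.adjoin ℂ {y | ∃ i j, y = x i / x j} := by
    rw [hgen]
    exact IntermediateField.mem_top
  induction hf using IntermediateField.adjoin_induction with
  | mem y hy =>
    obtain ⟨i, j, rfl⟩ := hy
    by_cases hj : x j = 0
    · refine ⟨0, 1, ?_, ?_⟩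
      · rw [map_one]
        exact one_ne_zero
      · rw [hj, div_zero, zero_mul, map_zero]
    · refine ⟨X i, X j, ?_, ?_⟩
      · rw [aeval_X]
        exact div_ne_zero hj hl
      · rw [aeval_X, aeval_X]
        field_simp
  | algebraMap c =>
    refine ⟨C c, 1, ?_, ?_⟩
    · rw [map_one]
      exact one_ne_zero
    · rw [map_one, mul_one, algHom_C]
  | add a b _ _ ha hb =>
    obtain ⟨A₁, A₂, hA, hA'⟩ := ha
    obtain ⟨B₁, B₂, hB, hB'⟩ := hb
    refine ⟨A₁ * B₂ + B₁ * A₂, A₂ * B₂, ?_, ?_⟩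
    · rw [map_mul]
      exact mul_ne_zero hA hB
    · rw [map_mul, map_add, map_mul, map_mul, ← hA', ← hB']
      ring
  | inv a _ ha =>
    obtain ⟨A₁, A₂, hA, hA'⟩ := ha
    by_cases h0 : a = 0
    · refine ⟨0, 1, ?_, ?_⟩
      · rw [map_one]
        exact one_ne_zero
      · rw [h0, inv_zero, zero_mul, map_zero]
    · refine ⟨A₂, A₁, ?_, ?_⟩
      · rw [← hA']
        exact mul_ne_zero h0 hA
      · rw [← hA', ← mul_assoc, inv_mul_cancel₀ h0, one_mul]
  | mul a b _ _ ha hb =>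
    obtain ⟨A₁, A₂, hA, hA'⟩ := ha
    obtain ⟨B₁, B₂, hB, hB'⟩ := hb
    refine ⟨A₁ * B₁, A₂ * B₂, ?_, ?_⟩
    · rw [map_mul]
      exact mul_ne_zero hA hB
    · rw [map_mul, map_mul, ← hA', ← hB']
      ring

/-- The evaluation at a generic point with values in `F`. -/
theorem exists_eval {k : ℕ} (z : Fin (k + 1) → FunField P) (hz : IsTranscendenceBasis ℂ z)
    {F : Type} [Field F] (ι : ℂ →+* F) (y : Fin (N + 1) → F)
    (hy : ∀ (d : ℕ) (Q : MvPolynomial (Fin (N + 1)) ℂ), Q.IsHomogeneous d →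
      (eval₂ ι y Q = 0 ↔ Q ∈ P)) :
    ∃ E : FunField P →+* F, (∀ c : ℂ, E (algebraMap ℂ (FunField P) c) = ι c) ∧
      ∀ i j, E (ratio P i j) = y i / y j := by
  obtain ⟨x, hx0, hgen, -, hxP, hxc, hxr⟩ := exists_point P z hz
  obtain ⟨l, hl⟩ : ∃ l, x l ≠ 0 := by
    by_contra hcon
    push Not at hcon
    exact hx0 (funext hcon)
  have hlP : X l ∉ P := by
    rw [← coordFun_eq_zero_iff, ← hxc]
    exact hl
  have hyl : y l ≠ 0 := by
    intro h0
    apply hlP
    rw [← hy 1 (X l) (isHomogeneous_X ℂ l), eval₂_X]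
    exact h0
  -- the two evaluations
  obtain ⟨α, hα⟩ : ∃ α : MvPolynomial (Fin (N + 1)) ℂ →+* FunField P, ∀ G, α G = aeval (fun i => x i / x l) G :=
    ⟨(aeval (fun i => x i / x l) : MvPolynomial (Fin (N + 1)) ℂ →ₐ[ℂ] FunField P).toRingHom, fun G => rfl⟩
  obtain ⟨β, hβ⟩ : ∃ β : MvPolynomial (Fin (N + 1)) ℂ →+* F, ∀ G, β G = eval₂ ι (fun i => y i / y l) G :=
    ⟨eval₂Hom ι (fun i => y i / y l), fun G => rfl⟩
  have hker : ∀ G, α G = 0 ↔ β G = 0 := by
    intro G
    have h1 := eval₂_hmz ι (le_refl G.totalDegree) hyl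
    have h2 := eval₂_hmz (algebraMap ℂ (FunField P)) (le_refl G.totalDegree) hl
    have h3 := hxP _ _ (hmz_isHomogeneous l G.totalDegree G)
    have h4 := hy _ _ (hmz_isHomogeneous l G.totalDegree G)
    rw [h1] at h4
    rw [aeval_def, h2] at h3
    rw [hα, hβ, aeval_def]
    constructor
    · intro h5
      have h6 := h4.mpr (h3.mp (by rw [h5, mul_zero]))
      exact (mul_eq_zero.mp h6).resolve_left (pow_ne_zero _ hyl)
    · intro h5
      have h6 := h3.mpr (h4.mp (by rw [h5, mul_zero]))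
      exact (mul_eq_zero.mp h6).resolve_left (pow_ne_zero _ hl)
  -- the range of `α`
  have hsurj : Function.Surjective α.rangeRestrict := α.rangeRestrict_surjective
  have hker' : RingHom.ker α.rangeRestrict ≤ RingHom.ker β := by
    intro G hG
    rw [RingHom.mem_ker] at hG ⊢
    rw [← hker]
    exact congrArg Subtype.val hG
  obtain ⟨g, hg⟩ : ∃ g : α.range →+* F, ∀ G, g (α.rangeRestrict G) = β G :=
    ⟨RingHom.liftOfSurjective α.rangeRestrict hsurj ⟨β, hker'⟩, fun G =>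
      RingHom.liftOfRightInverse_comp_apply α.rangeRestrict _ (Function.rightInverse_surjInv hsurj) ⟨β, hker'⟩ G⟩
  have hginj : Function.Injective g := by
    rw [injective_iff_map_eq_zero]
    intro a ha
    obtain ⟨G, rfl⟩ := hsurj a
    rw [hg, ← hker] at ha
    exact Subtype.ext ha
  let _ : Algebra α.range (FunField P) := α.range.subtype.toAlgebra
  have hfaith : FaithfulSMul α.range (FunField P) := by
    rw [faithfulSMul_iff_algebraMap_injective]
    exact Subtype.val_injective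
  have hfrac : IsFractionRing α.range (FunField P) := by
    refine IsFractionRing.of_field _ _ fun f => ?_
    obtain ⟨G₁, G₂, h1, h2⟩ := EV_quot P hgen hl f
    refine ⟨α.rangeRestrict G₁, α.rangeRestrict G₂, ?_⟩
    have e1 : (algebraMap α.range (FunField P)) (α.rangeRestrict G₁) = aeval (fun i => x i / x l) G₁ := hα G₁
    have e2 : (algebraMap α.range (FunField P)) (α.rangeRestrict G₂) = aeval (fun i => x i / x l) G₂ := hα G₂
    rw [e1, e2, ← h2, mul_div_assoc, div_self h1, mul_one]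
  obtain ⟨E, hE⟩ : ∃ E : FunField P →+* F, ∀ a : α.range, E a = g a :=
    ⟨IsFractionRing.lift (A := α.range) (K := FunField P) hginj, fun a => IsFractionRing.lift_algebraMap hginj a⟩
  have hEα : ∀ G, E (α G) = β G := fun G => by
    rw [← hg]
    exact hE (α.rangeRestrict G)
  have hEx : ∀ i, E (x i / x l) = y i / y l := fun i => by
    have h1 := hEα (X i)
    rw [hα, hβ, aeval_X, eval₂_X] at h1
    exact h1
  refine ⟨E, fun c => ?_, fun i j => ?_⟩
  · have h1 := hEα (C c)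
    rw [hα, hβ, eval₂_C, algHom_C] at h1
    exact h1
  · have h1 : ratio P i j = (x i / x l) / (x j / x l) := by
      rw [div_div_div_cancel_right₀ hl, hxr]
    rw [h1, map_div₀, hEx, hEx, div_div_div_cancel_right₀ hyl]

/-- Rational functions are quotients of homogeneous polynomials. -/
theorem exists_hom_rep {k : ℕ} (z : Fin (k + 1) → FunField P) (hz : IsTranscendenceBasis ℂ z)
    (f : FunField P) : ∃ (d : ℕ) (A B : MvPolynomial (Fin (N + 1)) ℂ), A.IsHomogeneous d ∧
      B.IsHomogeneous d ∧ B ∉ P ∧ (f ≠ 0 → A ∉ P) ∧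
      ∀ l, X l ∉ P → f * aeval (fun i => ratio P i l) B = aeval (fun i => ratio P i l) A := by
  obtain ⟨x, hx0, hgen, -, hxP, hxc, hxr⟩ := exists_point P z hz
  obtain ⟨l, hl⟩ : ∃ l, x l ≠ 0 := by
    by_contra hcon
    push Not at hcon
    exact hx0 (funext hcon)
  obtain ⟨G₁, G₂, h1, h2⟩ := EV_quot P hgen hl f
  obtain ⟨n, hn⟩ : ∃ n, n = max G₁.totalDegree G₂.totalDegree := ⟨_, rfl⟩
  have e1 := eval₂_hmz (algebraMap ℂ (FunField P)) (l := l) (n := n) (G := G₁) (by rw [hn]; exact le_max_left _ _) hl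
  have e2 := eval₂_hmz (algebraMap ℂ (FunField P)) (l := l) (n := n) (G := G₂) (by rw [hn]; exact le_max_right _ _) hl
  rw [← aeval_def, ← aeval_def] at e1 e2
  have hH1 := hmz_isHomogeneous l n G₁
  have hH2 := hmz_isHomogeneous l n G₂
  refine ⟨n, hmz l n G₁, hmz l n G₂, hH1, hH2, ?_, ?_, ?_⟩
  · intro hmem
    rw [← hxP _ _ hH2, e2] at hmem
    exact (mul_ne_zero (pow_ne_zero _ hl) h1) hmem
  · intro hf hmem
    rw [← hxP _ _ hH1, e1, ← h2] at hmem
    exact (mul_ne_zero (pow_ne_zero _ hl) (mul_ne_zero hf h1)) hmem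
  · intro l' hl'
    have e3 : (fun i => ratio P i l') = fun i => x i / x l' := by
      funext i
      rw [hxr]
    rw [e3, aeval_def, aeval_def, EV_smul _ hH1, EV_smul _ hH2, ← aeval_def, ← aeval_def, e1, e2, ← h2]
    ring

/-- The evaluation of a quotient of homogeneous polynomials. -/
theorem eval_hom_rep {F : Type} [Field F] (ι : ℂ →+* F) (y : Fin (N + 1) → F)
    (E : FunField P →+* F) (hE : ∀ c : ℂ, E (algebraMap ℂ (FunField P) c) = ι c)
    (hr : ∀ i j, E (ratio P i j) = y i / y j) {l : Fin (N + 1)} (hl : y l ≠ 0) {d : ℕ}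
    {A B : MvPolynomial (Fin (N + 1)) ℂ} (hA : A.IsHomogeneous d) (hB : B.IsHomogeneous d)
    {f : FunField P} (hf : f * aeval (fun i => ratio P i l) B = aeval (fun i => ratio P i l) A) :
    E f * eval₂ ι y B = eval₂ ι y A := by
  have hcomp : E.comp (algebraMap ℂ (FunField P)) = ι := RingHom.ext hE
  have h1 : ∀ G : MvPolynomial (Fin (N + 1)) ℂ, E (aeval (fun i => ratio P i l) G) = eval₂ ι (fun i => y i / y l) G := by
    intro G
    rw [aeval_def, hom_eval₂, hcomp]
    congr 1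
    funext i
    exact hr i l
  have h2 := congrArg E hf
  rw [map_mul, h1, h1, EV_smul ι hA, EV_smul ι hB] at h2
  have h3 : (y l)⁻¹ ^ d ≠ 0 := pow_ne_zero _ (inv_ne_zero hl)
  have h4 : (y l)⁻¹ ^ d * (E f * eval₂ ι y B) = (y l)⁻¹ ^ d * eval₂ ι y A := by
    rw [← h2]
    ring
  exact mul_left_cancel₀ h3 h4

/-- A relation between the coordinate ratios holds at all points. -/
theorem eval_eq_zero_of_relation {k : ℕ} (z : Fin (k + 1) → FunField P) (hz : IsTranscendenceBasis ℂ z)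
    {l : Fin (N + 1)} (hl : X l ∉ P) {G : MvPolynomial (Fin (N + 1)) ℂ}
    (hG : aeval (fun i => ratio P i l) G = 0) {x : Fin (N + 1) → ℂ} (hx : ∀ Q ∈ P, eval x Q = 0)
    (hxl : x l ≠ 0) : eval (fun i => x i / x l) G = 0 := by
  obtain ⟨w, hw0, hgen, -, hwP, hwc, hwr⟩ := exists_point P z hz
  have hwl : w l ≠ 0 := by
    intro h0
    rw [hwc, coordFun_eq_zero_iff] at h0
    exact hl h0
  have e1 := eval₂_hmz (algebraMap ℂ (FunField P)) (le_refl G.totalDegree) hwl
  have e2 : (fun i => ratio P i l) = fun i => w i / w l := by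
    funext i
    rw [hwr]
  rw [e2, aeval_def] at hG
  rw [hG, mul_zero, ← aeval_def, hwP _ _ (hmz_isHomogeneous l _ G)] at e1
  have e3 := hx _ e1
  have e4 := eval₂_hmz (RingHom.id ℂ) (le_refl G.totalDegree) hxl
  have e5 : eval₂ (RingHom.id ℂ) x (hmz l G.totalDegree G) = 0 := e3
  rw [e5] at e4
  exact (mul_eq_zero.mp e4.symm).resolve_left (pow_ne_zero _ hxl)

end Pool.Agent.H68.KR

end
end

section

/-!
# KR EM: the embedding of the function field given by an analytic map into the cone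

Proof of `exists_embedding`.  Let `y i = emb (t2 (φ · i))`.  For every polynomial `Q`:
`eval₂ cst y Q = emb (t2 (fun u => eval (φ u) Q))` (`t2_eval`, `MvPolynomial.hom_eval₂`,
`emb.comp (C.comp C) = cst` by `emb_C_C`).  So for homogeneous `Q`: `eval₂ cst y Q = 0 ↔ Q ∈ P` by `hmem`, `hnd`
(`emb_injective`, `t2_eq_zero_iff`, `analyticAt_eval`).  `exists_eval` gives `E` with `E (ratio i j) = y i / y j`.
Third statement: choose `l` with `X l ∉ P` (`exists_point`: some `x i ≠ 0`), then `y l ≠ 0`, and use `eval_hom_rep`.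
Fourth statement: `y (s 0) ≠ 0`.  For an additive map `D` of the field `LL` with the Leibniz rule:
`D (a / b) = (D a * b - a * D b) / b ^ 2` for `b ≠ 0` (from `a = (a / b) * b`).  So the left hand side is
`(1 / y₀^4) ((DX y₁ y₀ - y₁ DX y₀) (DT y₂ y₀ - y₂ DT y₀) - (DX y₂ y₀ - y₂ DX y₀) (DT y₁ y₀ - y₁ DT y₀))
  = D3 s y (DX ∘ y) (DT ∘ y) / y₀ ^ 3` (`field_simp; ring`),
and `DX (y i) = emb (pX (t2 (φ · i))) = emb (t2 (dx (φ · i))) = emb (t2 (d1 φ · i))` (`DX_emb`, `t2_dx`, `d1_apply`,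
`t2_congr`), similarly `DT`; finally `D3 s y … = emb (t2 (D3 s φ (d1 φ) (d2 φ)))` by `t2_mul`, `t2_add` (and the
consequence `t2_sub`, e.g. from `t2_add`, `t2_mul`, `t2_const (-1)`).
-/

set_option autoImplicit false

open MvPolynomial Topology Filter
open Pool.Agent.H17LG.Variety (FunField ratio)

noncomputable section

namespace Pool.Agent.H68.KR

attribute [-instance] ProperSMul.toContinuousSMul

private theorem EM_div {F : Type} [Field F] {D : F → F} (hD : ∀ a b, D (a * b) = a * D b + b * D a) (a b : F)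
    (hb : b ≠ 0) : D (a / b) = (D a * b - a * D b) / b ^ 2 := by
  have h1 : D a = D (a / b * b) := by rw [div_mul_cancel₀ a hb]
  rw [hD] at h1
  rw [h1, eq_div_iff (pow_ne_zero 2 hb)]
  field_simp
  ring

private theorem EM_jac {F : Type} [Field F] {D D' : F → F} (hD : ∀ a b, D (a * b) = a * D b + b * D a)
    (hD' : ∀ a b, D' (a * b) = a * D' b + b * D' a) (a b c : F) (ha : a ≠ 0) :
    D (b / a) * D' (c / a) - D (c / a) * D' (b / a) =
      (a * (D b * D' c - D c * D' b) - b * (D a * D' c - D c * D' a) + c * (D a * D' b - D b * D' a)) /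
        a ^ 3 := by
  rw [EM_div hD _ _ ha, EM_div hD _ _ ha, EM_div hD' _ _ ha, EM_div hD' _ _ ha]
  field_simp
  ring

private theorem EM_sub {f g : ℂ × ℂ → ℂ} (hf : AnalyticAt ℂ f 0) (hg : AnalyticAt ℂ g 0) :
    t2 (fun u => f u - g u) = t2 f - t2 g := by
  have h1 : t2 (fun u => (-1 : ℂ) * g u) = - t2 g := by
    rw [t2_mul analyticAt_const hg, t2_const]
    simp
  have h2 := t2_add hf (g := fun u => (-1 : ℂ) * g u) (analyticAt_const.mul hg)
  rw [h1] at h2
  rw [sub_eq_add_neg, ← h2]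
  congr 1
  funext u
  ring

private theorem EM_comp {n : ℕ} {ψ : ℂ × ℂ → Fin n → ℂ} (h : AnalyticAt ℂ ψ 0) (i : Fin n) :
    AnalyticAt ℂ (fun u => ψ u i) 0 :=
  (analyticAt_pi_iff.1 h) i

private theorem EM_DX {n : ℕ} {φ : ℂ × ℂ → Fin (n + 1) → ℂ} (hφ : AnalyticAt ℂ φ 0) (i : Fin (n + 1)) :
    DX (emb (t2 fun u => φ u i)) = emb (t2 fun u => d1 φ u i) := by
  rw [DX_emb, t2_dx (EM_comp hφ i)]
  congr 1
  refine t2_congr ?_
  filter_upwards [hφ.eventually_analyticAt] with u hu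
  exact (d1_apply hu i).symm

private theorem EM_DT {n : ℕ} {φ : ℂ × ℂ → Fin (n + 1) → ℂ} (hφ : AnalyticAt ℂ φ 0) (i : Fin (n + 1)) :
    DT (emb (t2 fun u => φ u i)) = emb (t2 fun u => d2 φ u i) := by
  rw [DT_emb, t2_dy (EM_comp hφ i)]
  congr 1
  refine t2_congr ?_
  filter_upwards [hφ.eventually_analyticAt] with u hu
  exact (d2_apply hu i).symm

private theorem EM_D3 {n : ℕ} {φ ψ χ : ℂ × ℂ → Fin (n + 1) → ℂ} (hφ : AnalyticAt ℂ φ 0)
    (hψ : AnalyticAt ℂ ψ 0) (hχ : AnalyticAt ℂ χ 0) (s : Fin 3 → Fin (n + 1)) :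
    emb (t2 fun u => D3 s (φ u) (ψ u) (χ u)) =
      D3 s (fun i => emb (t2 fun u => φ u i)) (fun i => emb (t2 fun u => ψ u i))
        (fun i => emb (t2 fun u => χ u i)) := by
  have hm : ∀ i j, AnalyticAt ℂ (fun u => ψ u i * χ u j) 0 := fun i j =>
    (EM_comp hψ i).mul (EM_comp hχ j)
  have hd : ∀ i j, AnalyticAt ℂ (fun u => ψ u i * χ u j - ψ u j * χ u i) 0 := fun i j =>
    (hm i j).sub (hm j i)
  have ht : ∀ k i j, AnalyticAt ℂ (fun u => φ u k * (ψ u i * χ u j - ψ u j * χ u i)) 0 := fun k i j =>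
    (EM_comp hφ k).mul (hd i j)
  have h1 : ∀ i j, emb (t2 fun u => ψ u i * χ u j - ψ u j * χ u i) =
      emb (t2 fun u => ψ u i) * emb (t2 fun u => χ u j) -
        emb (t2 fun u => ψ u j) * emb (t2 fun u => χ u i) := by
    intro i j
    rw [EM_sub (hm i j) (hm j i), t2_mul (EM_comp hψ i) (EM_comp hχ j),
      t2_mul (EM_comp hψ j) (EM_comp hχ i), map_sub, map_mul, map_mul]
  have h2 : ∀ k i j, emb (t2 fun u => φ u k * (ψ u i * χ u j - ψ u j * χ u i)) =
      emb (t2 fun u => φ u k) * (emb (t2 fun u => ψ u i) * emb (t2 fun u => χ u j) -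
        emb (t2 fun u => ψ u j) * emb (t2 fun u => χ u i)) := by
    intro k i j
    rw [t2_mul (EM_comp hφ k) (hd i j), map_mul, h1]
  have h3 : (fun u => D3 s (φ u) (ψ u) (χ u)) = fun u =>
      (φ u (s 0) * (ψ u (s 1) * χ u (s 2) - ψ u (s 2) * χ u (s 1)) -
        φ u (s 1) * (ψ u (s 0) * χ u (s 2) - ψ u (s 2) * χ u (s 0))) +
      φ u (s 2) * (ψ u (s 0) * χ u (s 1) - ψ u (s 1) * χ u (s 0)) := rfl
  have h4 : t2 (fun u => D3 s (φ u) (ψ u) (χ u)) =
      t2 (fun u => φ u (s 0) * (ψ u (s 1) * χ u (s 2) - ψ u (s 2) * χ u (s 1))) -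
        t2 (fun u => φ u (s 1) * (ψ u (s 0) * χ u (s 2) - ψ u (s 2) * χ u (s 0))) +
      t2 (fun u => φ u (s 2) * (ψ u (s 0) * χ u (s 1) - ψ u (s 1) * χ u (s 0))) := by
    rw [h3, ← EM_sub (ht (s 0) (s 1) (s 2)) (ht (s 1) (s 0) (s 2))]
    exact t2_add ((ht (s 0) (s 1) (s 2)).sub (ht (s 1) (s 0) (s 2))) (ht (s 2) (s 0) (s 1))
  rw [h4, map_add, map_sub, h2, h2, h2]
  rfl

theorem exists_embedding {N : ℕ} (P : Ideal (MvPolynomial (Fin (N + 1)) ℂ)) [P.IsPrime] {k : ℕ}
    (z : Fin (k + 1) → FunField P) (hz : IsTranscendenceBasis ℂ z) {φ : ℂ × ℂ → Fin (N + 1) → ℂ}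
    (hφ : AnalyticAt ℂ φ 0) (hmem : ∀ᶠ u in 𝓝 (0 : ℂ × ℂ), ∀ Q ∈ P, eval (φ u) Q = 0)
    (hnd : ∀ (d : ℕ) (Q : MvPolynomial (Fin (N + 1)) ℂ), Q.IsHomogeneous d → Q ∉ P →
      ¬ ∀ᶠ u in 𝓝 (0 : ℂ × ℂ), eval (φ u) Q = 0) :
    ∃ E : FunField P →+* LL, (∀ c : ℂ, E (algebraMap ℂ (FunField P) c) = cst c) ∧
      (∀ i j, E (ratio P i j) = emb (t2 fun u => φ u i) / emb (t2 fun u => φ u j)) ∧
      (∀ (d : ℕ) (A B : MvPolynomial (Fin (N + 1)) ℂ) (f : FunField P), A.IsHomogeneous d →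
        B.IsHomogeneous d →
        (∀ l, X l ∉ P → f * aeval (fun i => ratio P i l) B = aeval (fun i => ratio P i l) A) →
        E f * emb (t2 fun u => eval (φ u) B) = emb (t2 fun u => eval (φ u) A)) ∧
      ∀ s : Fin 3 → Fin (N + 1), X (s 0) ∉ P →
        DX (E (ratio P (s 1) (s 0))) * DT (E (ratio P (s 2) (s 0))) -
            DX (E (ratio P (s 2) (s 0))) * DT (E (ratio P (s 1) (s 0))) =
          emb (t2 fun u => D3 s (φ u) (d1 φ u) (d2 φ u)) / emb (t2 fun u => φ u (s 0)) ^ 3 := by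
  classical
  set y : Fin (N + 1) → LL := fun i => emb (t2 fun u => φ u i) with hy0
  have key : ∀ Q : MvPolynomial (Fin (N + 1)) ℂ,
      eval₂ cst y Q = emb (t2 fun u => eval (φ u) Q) := by
    intro Q
    have h1 := MvPolynomial.hom_eval₂ (S₂ := LL) Q ((PowerSeries.C : PowerSeries ℂ →+* PowerSeries (PowerSeries ℂ)).comp
        (PowerSeries.C : ℂ →+* PowerSeries ℂ)) emb (fun i => t2 (fun u => φ u i))
    have h2 : emb.comp ((PowerSeries.C : PowerSeries ℂ →+* PowerSeries (PowerSeries ℂ)).comp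
        (PowerSeries.C : ℂ →+* PowerSeries ℂ)) = cst := RingHom.ext fun c => (emb_C_C c)
    rw [h2] at h1
    rw [t2_eval hφ Q]
    exact h1.symm
  have hy : ∀ (d : ℕ) (Q : MvPolynomial (Fin (N + 1)) ℂ), Q.IsHomogeneous d →
      (eval₂ cst y Q = 0 ↔ Q ∈ P) := by
    intro d Q hQ
    rw [key, map_eq_zero_iff emb emb_injective, t2_eq_zero_iff (analyticAt_eval hφ Q)]
    constructor
    · intro h
      by_contra hc
      exact hnd d Q hQ hc h
    · intro h
      exact hmem.mono fun u hu => hu Q h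
  have hyl : ∀ l, X l ∉ P → y l ≠ 0 := by
    intro l hl h0
    apply hl
    rw [← hy 1 (X l) (isHomogeneous_X ℂ l), eval₂_X, h0]
  obtain ⟨l, hl⟩ : ∃ l, X l ∉ P := by
    obtain ⟨x, hx0, -, -, -, hx, -⟩ := exists_point P z hz
    by_contra hc
    push Not at hc
    apply hx0
    funext i
    exact (hx i).2 ((coordFun_eq_zero_iff P i).2 (hc i))
  obtain ⟨E, hE, hr⟩ := exists_eval P z hz cst y hy
  refine ⟨E, hE, hr, ?_, ?_⟩
  · intro d A B f hA hB hf
    have h1 := eval_hom_rep (F := LL) P cst y E hE hr (hyl l hl) hA hB (hf l hl)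
    rw [key, key] at h1
    exact h1
  · intro s hs
    have h0 : y (s 0) ≠ 0 := hyl _ hs
    have hd1 : AnalyticAt ℂ (d1 φ) 0 := analyticAt_d1 hφ
    have hd2 : AnalyticAt ℂ (d2 φ) 0 := analyticAt_d2 hφ
    have hx : ∀ i, emb (t2 fun u => d1 φ u i) = DX (y i) := fun i => (EM_DX hφ i).symm
    have ht : ∀ i, emb (t2 fun u => d2 φ u i) = DT (y i) := fun i => (EM_DT hφ i).symm
    rw [EM_D3 hφ hd1 hd2 s, hr (s 1) (s 0), hr (s 2) (s 0)]
    have h1 := EM_jac (F := LL) (D := DX) (D' := DT) DX_mul DT_mul (y (s 0)) (y (s 1)) (y (s 2)) h0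
    rw [← hx, ← hx, ← hx, ← ht, ← ht, ← ht] at h1
    exact h1

end Pool.Agent.H68.KR

end
end
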