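import Pool.Agent.H94.CB.M32
import Pool.Agent.H94.CB.M39
import Pool.Agent.H94.CB.M44
import Pool.Agent.H94.CB.M48
import Pool.Agent.H94.CB.M49

/-! The parts of this file: H68.KR.EXT, H68.KR.Main. -/

section

/-!
# KR EXT: the canonical form extends to all charts

Proof of `exists_ext`.  Let `A' u = eval (σ u) A * D3 t₀ (σ u) (d1 σ u) (d2 σ u) ^ M`, `B' u = eval (σ u) (B * X (t₀ 0) ^ (3 M + 1))`
(analytic at `0`; `B'` is not `0` near `0`, `nd`).  Assume that there is no extension.  Let `U` be the set of the `p` such that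
`σ` is analytic at `p`, near `p` the conditions `mem, c0, c1, c2` hold, and `nd_near` at `p`.  `exists_curve` gives
`m, x₁, c, j < k`; let `θ = shear m x₁ c`, `ψ = σ ∘ θ`.  `θ` is analytic at `0`, and has the continuous inverse
`η v = (v.1 - m v.2 - x₁, v.2 - c (v.1 - m v.2 - x₁))` near `θ 0` (`θ (η v) = v`, `η (θ 0) = 0`); so
`eval (ψ u) Q = 0` near `0` implies `eval (σ v) Q = 0` near `θ 0`: `ψ` satisfies the hypotheses of `exists_embedding`.
Let `E` be the embedding, `y i = emb (t2 (ψ · i))`, `l = t 0`, `x = σ 0`.  `y l = cst (x l)`,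
`y (t 1) = cst (x (t 1)) + cst (x l) * emb (t2 θ₁)`, `y (t 2) = …`; with
`s = ratio (t 1) l - m * ratio (t 2) l`: `E s = cst b + xx` because `θ₁ - m θ₂ = x₁ + u.1`.
`X l ∉ P` because `x l ≠ 0` and `x` is in the zero set.
`pole_free` with `H * ratio P l o`: `0 ≤ vT (E (H * ratio P l o) * (E W * J) ^ M)`, where
`J = emb (t2 (D3 t₀ ψ (d1 ψ) (d2 ψ))) / y (t₀ 0) ^ 3`.
Put `F = H * ratio P (t₀ 0) o * W ^ M`: `E F * emb (t2 (eval ψ B)) = emb (t2 (eval ψ A))`.  In `LL` (a field; `y o`,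
`y (t₀ 0)`, `y l`, `emb (t2 (eval ψ B))` are not `0`, the forms `X o`, … are not in `P`):
`E (H * ratio P l o) * (E W) ^ M = E F * (y l / y (t₀ 0))`, so
`E (H * ratio P l o) * (E W * J) ^ M * emb (t2 (eval ψ B)) * y (t₀ 0) ^ (3 M + 1) = y l * emb (t2 (eval ψ A)) * emb (t2 (D3 …)) ^ M`.
`D3 t₀ (ψ …) = jac θ * D3 t₀ (σ …) ∘ θ` (`D3_comp` with `c = 1`) and `jac θ = 1` near `0`.  So the right side is
`y l * emb (t2 (A' ∘ θ))` and `emb (t2 (eval ψ B)) * y (t₀ 0) ^ (3 M + 1) = emb (t2 (B' ∘ θ))`.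
Orders: `vT (y l) = 0`, `vT (emb (t2 (A' ∘ θ))) = j`, `vT (emb (t2 (B' ∘ θ))) = k`: `k ≤ 0 + j`, against `j < k`.

Proof of `exists_jacobian`.  `ratio (t₀ 1) (t₀ 0), ratio (t₀ 2) (t₀ 0)`: by `exists_form_mk` for the transcendence basis
`ratio (t 1) (t 0), ratio (t 2) (t 0)`: `Form.mk 1 ![ratio (t₀ 1) (t₀ 0), ratio (t₀ 2) (t₀ 0)] = Form.mk f ![ratio (t 1) (t 0), …]`.
Let `A, B` be the representation of `f` (`exists_hom_rep`).  For a chart `σ` at `x` with the triple `t`: the embedding `E` of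
`φ = σ` and the Jacobian functional (`exists_jac` with `DX`, `DT`) give
`emb (t2 D3 t₀) / y (t₀ 0) ^ 3 = E f * emb (t2 D3 t) / y (t 0) ^ 3`, and `D3 t = x (t 0) ^ 3`, `y (t 0) = cst (x (t 0))`.  So
`emb (t2 (D3 t₀ …)) * emb (t2 (eval σ B)) = y (t₀ 0) ^ 3 * emb (t2 (eval σ A))`; `emb`, `t2` are injective: the functions
`D3 t₀ (…) * eval (σ u) B` and `(σ u (t₀ 0)) ^ 3 * eval (σ u) A` agree near `0`; take `u = 0`.
`f ≠ 0`: `Form.mk 1 ![…] ≠ 0` because the family `ratio (t₀ 1) (t₀ 0), …` is a transcendence basis (its image under the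
Jacobian functional is `emb (t2 D3 t₀) / … ≠ 0` for a chart with the triple `t₀`; or: if `Form.mk 1 ![…] = 0` then
`exists_form_mk` gives that all forms are `0`, but `Form.mk 1` of the basis `t` is not `0` as `D3 t = x (t 0) ^ 3 ≠ 0`).
So `A ∉ P` (last but one clause of `exists_hom_rep`; this uses the existence of a chart, therefore `A ∉ P` is inside).

Proof of `CChart.isTranscendenceBasis`.  `X (t 0) ∉ P` because `x` is a zero of `P` with `x (t 0) ≠ 0`.  Let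
`p : MvPolynomial (Fin 2) ℂ` with `aeval ![ratio (t 1) (t 0), ratio (t 2) (t 0)] p = 0` and
`G = aeval ![X (t 1), X (t 2)] p`, so `aeval (ratio · (t 0)) G = 0`.  By `eval_eq_zero_of_relation` at the points `σ u`
(`σ u (t 0) = x (t 0) ≠ 0`) and `c0, c1, c2`: `eval ![x (t 1) / x (t 0) + u.1, x (t 2) / x (t 0) + u.2] p = 0` for `u` near `0`,
so `p = 0` (`MvPolynomial.funext_set` on a product of two small discs).  So the family is algebraically independent, and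
it has as many elements as the transcendence basis `z` (`AlgebraicIndependent.isTranscendenceBasis_of_…`, `Algebra.trdeg`
finite, `IsTranscendenceBasis.lift_cardinalMk_eq_trdeg`).
-/

set_option autoImplicit false

open MvPolynomial Topology Filter
open Pool.Agent.H23.Fano (Form regularForms PrimeDivisorOver)
open Pool.Agent.H17LG.Variety (FunField ratio PoleAtMost)

noncomputable section

namespace Pool.Agent.H68.KR

attribute [-instance] ProperSMul.toContinuousSMul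

variable {N : ℕ} (P : Ideal (MvPolynomial (Fin (N + 1)) ℂ)) [P.IsPrime]

private theorem EXT_an_snd {c : ℂ → ℂ} (hc : AnalyticAt ℂ c 0) :
    AnalyticAt ℂ (fun u : ℂ × ℂ => c u.1 + u.2) 0 := by
  have h1 : AnalyticAt ℂ (fun u : ℂ × ℂ => u.1) 0 := analyticAt_fst
  have h2 : AnalyticAt ℂ (fun u : ℂ × ℂ => c u.1) 0 :=
    AnalyticAt.fun_comp (g := c) (f := fun u : ℂ × ℂ => u.1) hc h1
  exact h2.add analyticAt_snd

private theorem EXT_an_shear {m x₁ : ℂ} {c : ℂ → ℂ} (hc : AnalyticAt ℂ c 0) :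
    AnalyticAt ℂ (shear m x₁ c) 0 := by
  have h2 := EXT_an_snd hc
  have h1 : AnalyticAt ℂ (fun u : ℂ × ℂ => x₁ + u.1 + m * (c u.1 + u.2)) 0 :=
    (analyticAt_const.add analyticAt_fst).add (analyticAt_const.mul h2)
  exact h1.prod h2

private theorem EXT_jac_shear {m x₁ : ℂ} {c : ℂ → ℂ} {u : ℂ × ℂ}
    (hc : DifferentiableAt ℂ c u.1) : jac (shear m x₁ c) u = 1 := by
  have h2 : HasFDerivAt (fun v : ℂ × ℂ => c v.1 + v.2)
      (deriv c u.1 • ContinuousLinearMap.fst ℂ ℂ ℂ + ContinuousLinearMap.snd ℂ ℂ ℂ) u := by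
    exact (hc.hasDerivAt.comp_hasFDerivAt u hasFDerivAt_fst).add hasFDerivAt_snd
  have h1 : HasFDerivAt (fun v : ℂ × ℂ => x₁ + v.1 + m * (c v.1 + v.2))
      (ContinuousLinearMap.fst ℂ ℂ ℂ + m • (deriv c u.1 • ContinuousLinearMap.fst ℂ ℂ ℂ +
        ContinuousLinearMap.snd ℂ ℂ ℂ)) u := by
    exact (hasFDerivAt_fst.const_add x₁).add (h2.const_mul m)
  simp only [jac, shear, dx, dy]
  rw [h1.fderiv, h2.fderiv]
  simp

/-- Non-degeneracy is preserved by the shear. -/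
private theorem EXT_nd {m x₁ : ℂ} {c : ℂ → ℂ} (hc : AnalyticAt ℂ c 0) {g : ℂ × ℂ → ℂ}
    (hg : ∀ᶠ u in 𝓝 (0 : ℂ × ℂ), g (shear m x₁ c u) = 0) :
    ∀ᶠ v in 𝓝 (shear m x₁ c 0), g v = 0 := by
  have h0 : (shear m x₁ c 0).1 - m * (shear m x₁ c 0).2 - x₁ = 0 := by
    simp only [shear, Prod.fst_zero, Prod.snd_zero]
    ring
  have hcont : ContinuousAt (fun v : ℂ × ℂ => ((v.1 - m * v.2 - x₁, v.2 - c (v.1 - m * v.2 - x₁)) : ℂ × ℂ))
      (shear m x₁ c 0) := by
    have ha : ContinuousAt (fun v : ℂ × ℂ => v.1 - m * v.2 - x₁) (shear m x₁ c 0) := by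
      fun_prop
    have hb : ContinuousAt (fun v : ℂ × ℂ => c (v.1 - m * v.2 - x₁)) (shear m x₁ c 0) :=
      ContinuousAt.comp' (f := fun v : ℂ × ℂ => v.1 - m * v.2 - x₁) (g := c)
        (by rw [h0]; exact hc.continuousAt) ha
    exact ha.prodMk (continuousAt_snd.sub hb)
  have heta : ((fun v : ℂ × ℂ => ((v.1 - m * v.2 - x₁, v.2 - c (v.1 - m * v.2 - x₁)) : ℂ × ℂ))
      (shear m x₁ c 0)) = 0 := by
    simp only [h0]
    simp [shear]
  have h1 : ∀ᶠ v in 𝓝 (shear m x₁ c 0), g (shear m x₁ c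
      ((fun v : ℂ × ℂ => ((v.1 - m * v.2 - x₁, v.2 - c (v.1 - m * v.2 - x₁)) : ℂ × ℂ)) v)) = 0 := by
    have h3 := hcont.tendsto
    have h4 : (((shear m x₁ c 0).1 - m * (shear m x₁ c 0).2 - x₁,
        (shear m x₁ c 0).2 - c ((shear m x₁ c 0).1 - m * (shear m x₁ c 0).2 - x₁)) : ℂ × ℂ) = 0 := heta
    rw [h4] at h3
    exact h3.eventually hg
  refine h1.mono fun v hv => ?_
  have h2 : shear m x₁ c (v.1 - m * v.2 - x₁, v.2 - c (v.1 - m * v.2 - x₁)) = v := by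
    simp only [shear]
    ext
    · simp only
      ring
    · simp only
      ring
  simpa only [h2] using hv

private theorem EXT_alg {F : Type} [Field F] (EH EW e1 e2 y0 yo yl : F) (h0 : y0 ≠ 0)
    (ho : yo ≠ 0) (M : ℕ) :
    EH * (yl / yo) * (EW * (e1 / y0 ^ 3)) ^ M * (e2 * y0 ^ (3 * M + 1)) =
      yl * (EH * (y0 / yo) * EW ^ M * e2 * e1 ^ M) := by
  have h1 : (y0 ^ 3) ^ M ≠ 0 := pow_ne_zero _ (pow_ne_zero _ h0)
  have h2 : y0 ^ (3 * M + 1) = (y0 ^ 3) ^ M * y0 := by rw [pow_succ, pow_mul]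
  rw [mul_pow, div_pow, h2]
  field_simp

theorem exists_ext {k : ℕ} (z : Fin (k + 1) → FunField P) (hz : IsTranscendenceBasis ℂ z)
    {t₀ : Fin 3 → Fin (N + 1)} (ht₀ : X (t₀ 0) ∉ P) {o : Fin (N + 1)} (ho : X o ∉ P) {M : ℕ}
    {H W : FunField P}
    (hpole : ∀ l, X l ∉ P → ∀ D : PrimeDivisorOver (FunField P) 2, PoleAtMost 0 D M (H * ratio P l o)
      (Form.mk W ![ratio P (t₀ 1) (t₀ 0), ratio P (t₀ 2) (t₀ 0)]))
    {d : ℕ} {A B : MvPolynomial (Fin (N + 1)) ℂ} (hA : A.IsHomogeneous d) (hB : B.IsHomogeneous d)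
    (hBP : B ∉ P)
    (hrep : ∀ l, X l ∉ P → (H * ratio P (t₀ 0) o * W ^ M) * aeval (fun i => ratio P i l) B =
      aeval (fun i => ratio P i l) A)
    {x : Fin (N + 1) → ℂ} {t : Fin 3 → Fin (N + 1)} {σ : ℂ × ℂ → Fin (N + 1) → ℂ}
    (h : CChart P x t σ) : ∃ Φ, Ext M t₀ A (B * X (t₀ 0) ^ (3 * M + 1)) σ Φ 0 := by
  classical
  by_contra hne
  have hBX : (B * X (t₀ 0) ^ (3 * M + 1)).IsHomogeneous (d + (3 * M + 1)) :=
    hB.mul (isHomogeneous_X_pow _ _)
  have hBXP : B * X (t₀ 0) ^ (3 * M + 1) ∉ P := by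
    intro hmem
    rcases (inferInstance : P.IsPrime).mem_or_mem hmem with h1 | h1
    · exact hBP h1
    · exact ht₀ ((inferInstance : P.IsPrime).mem_of_pow_mem _ h1)
  have hA'an : AnalyticAt ℂ
      (fun u => eval (σ u) A * D3 t₀ (σ u) (d1 σ u) (d2 σ u) ^ M) 0 :=
    (analyticAt_eval h.an A).mul ((analyticAt_D3 t₀ h.an).pow M)
  have hB'an : AnalyticAt ℂ (fun u => eval (σ u) (B * X (t₀ 0) ^ (3 * M + 1))) 0 :=
    analyticAt_eval h.an _
  have hB'0 : ¬ ∀ᶠ u in 𝓝 (0 : ℂ × ℂ), eval (σ u) (B * X (t₀ 0) ^ (3 * M + 1)) = 0 :=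
    h.nd _ _ hBX hBXP
  have hne' : ¬ ∃ Φ : ℂ × ℂ → ℂ, AnalyticAt ℂ Φ 0 ∧ ∀ᶠ u in 𝓝 (0 : ℂ × ℂ),
      (fun u => eval (σ u) A * D3 t₀ (σ u) (d1 σ u) (d2 σ u) ^ M) u =
        (fun u => eval (σ u) (B * X (t₀ 0) ^ (3 * M + 1))) u * Φ u := by
    rintro ⟨Φ, hΦ, hΦ'⟩
    exact hne ⟨Φ, hΦ, hΦ'.mono fun u hu => hu.symm⟩
  have hU : {p : ℂ × ℂ | AnalyticAt ℂ σ p ∧ (∀ᶠ u in 𝓝 p, ∀ Q ∈ P, eval (σ u) Q = 0) ∧
      (∀ᶠ u in 𝓝 p, σ u (t 0) = x (t 0)) ∧ (∀ᶠ u in 𝓝 p, σ u (t 1) = x (t 1) + x (t 0) * u.1) ∧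
      (∀ᶠ u in 𝓝 p, σ u (t 2) = x (t 2) + x (t 0) * u.2) ∧
      ∀ (d : ℕ) (Q : MvPolynomial (Fin (N + 1)) ℂ), Q.IsHomogeneous d → Q ∉ P →
        ¬ ∀ᶠ u in 𝓝 p, eval (σ u) Q = 0} ∈ 𝓝 (0 : ℂ × ℂ) :=
    h.an.eventually_analyticAt.and (h.mem.eventually_nhds.and (h.c0.eventually_nhds.and
      (h.c1.eventually_nhds.and (h.c2.eventually_nhds.and h.nd_near))))
  obtain ⟨m, x₁, c, j, k', hc, ⟨hσ, hmem, hc0, hc1, hc2, hnd⟩, hordA, hordB, hjk⟩ :=
    exists_curve hA'an hB'an hB'0 hne' hU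
  have hθ : AnalyticAt ℂ (shear m x₁ c) 0 := EXT_an_shear hc
  have hψ : AnalyticAt ℂ (fun u => σ (shear m x₁ c u)) 0 :=
    AnalyticAt.fun_comp (g := σ) (f := shear m x₁ c) hσ hθ
  have hmemψ : ∀ᶠ u in 𝓝 (0 : ℂ × ℂ), ∀ Q ∈ P, eval (σ (shear m x₁ c u)) Q = 0 :=
    hθ.continuousAt.eventually hmem
  have hndψ : ∀ (d : ℕ) (Q : MvPolynomial (Fin (N + 1)) ℂ), Q.IsHomogeneous d → Q ∉ P →
      ¬ ∀ᶠ u in 𝓝 (0 : ℂ × ℂ), eval (σ (shear m x₁ c u)) Q = 0 := fun d Q hQ hQP hQ0 =>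
    hnd d Q hQ hQP (EXT_nd hc hQ0)
  have hψi : ∀ i, AnalyticAt ℂ (fun u => σ (shear m x₁ c u) i) 0 := fun i => by
    have h1 := analyticAt_eval hψ (X i)
    simpa only [eval_X] using h1
  have hψ0 : ∀ᶠ u in 𝓝 (0 : ℂ × ℂ), σ (shear m x₁ c u) (t 0) = x (t 0) :=
    hθ.continuousAt.eventually hc0
  have hψ1 : ∀ᶠ u in 𝓝 (0 : ℂ × ℂ), σ (shear m x₁ c u) (t 1) =
      x (t 1) + x (t 0) * (shear m x₁ c u).1 := hθ.continuousAt.eventually hc1
  have hψ2 : ∀ᶠ u in 𝓝 (0 : ℂ × ℂ), σ (shear m x₁ c u) (t 2) =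
      x (t 2) + x (t 0) * (shear m x₁ c u).2 := hθ.continuousAt.eventually hc2
  obtain ⟨E, hE1, hE2, hE3, hE4⟩ := exists_embedding P z hz hψ hmemψ hndψ
  have hy : ∀ i, X i ∉ P → emb (t2 fun u => σ (shear m x₁ c u) i) ≠ 0 := by
    intro i hi h0
    have h1 : t2 (fun u => σ (shear m x₁ c u) i) = 0 := by
      apply emb_injective
      rw [h0, map_zero]
    rw [t2_eq_zero_iff (hψi i)] at h1
    refine hndψ 1 (X i) (isHomogeneous_X _ _) hi (h1.mono fun u hu => ?_)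
    rw [eval_X]
    exact hu
  have hl : X (t 0) ∉ P := by
    intro hmem0
    have h1 := h.mem.self_of_nhds (X (t 0)) hmem0
    rw [eval_X, h.zero] at h1
    exact h.ne h1
  have hcst : ∀ a : ℂ, emb (t2 fun _ => a) = cst a := fun a => by
    rw [t2_const, emb_C_C]
  have hyl : emb (t2 fun u => σ (shear m x₁ c u) (t 0)) = cst (x (t 0)) := by
    rw [t2_congr hψ0, hcst]
  have hxl : cst (x (t 0)) ≠ 0 := by
    rw [← hyl]
    exact hy _ hl
  -- the coordinate function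
  have hs : E (ratio P (t 1) (t 0) - algebraMap ℂ (FunField P) m * ratio P (t 2) (t 0)) =
      cst ((x (t 1) - m * x (t 2)) / x (t 0) + x₁) + xx := by
    have h1 : t2 (fun u => σ (shear m x₁ c u) (t 1)) =
        t2 (fun u => m * σ (shear m x₁ c u) (t 2) +
          ((x (t 1) - m * x (t 2) + x (t 0) * x₁) + x (t 0) * u.1)) := by
      apply t2_congr
      filter_upwards [hψ1, hψ2] with u h1 h2
      rw [h1, h2]
      simp only [shear]
      ring
    have hfst : AnalyticAt ℂ (fun u : ℂ × ℂ => u.1) 0 := analyticAt_fst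
    have h2 : t2 (fun u : ℂ × ℂ => u.1) = PowerSeries.C PowerSeries.X := by
      have := t2_of_fst (f := fun a : ℂ => a) analyticAt_id
      rw [this, t1_id]
    have h3 : emb (t2 fun u => σ (shear m x₁ c u) (t 1)) =
        cst m * emb (t2 fun u => σ (shear m x₁ c u) (t 2)) +
          (cst (x (t 1) - m * x (t 2) + x (t 0) * x₁) + cst (x (t 0)) * xx) := by
      have h4 : AnalyticAt ℂ (fun u => m * σ (shear m x₁ c u) (t 2)) 0 :=
        analyticAt_const.fun_mul (hψi (t 2))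
      have h5 : AnalyticAt ℂ (fun u : ℂ × ℂ => x (t 0) * u.1) 0 := analyticAt_const.fun_mul hfst
      have h6 : AnalyticAt ℂ (fun u : ℂ × ℂ =>
          (x (t 1) - m * x (t 2) + x (t 0) * x₁) + x (t 0) * u.1) 0 := analyticAt_const.fun_add h5
      rw [h1, t2_add h4 h6, t2_mul analyticAt_const (hψi (t 2)),
        t2_add analyticAt_const h5, t2_mul analyticAt_const hfst, h2]
      simp only [map_add, map_mul, hcst, emb_C_X]
    have h7 : cst ((x (t 1) - m * x (t 2)) / x (t 0) + x₁) * cst (x (t 0)) =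
        cst (x (t 1) - m * x (t 2) + x (t 0) * x₁) := by
      rw [← map_mul]
      congr 1
      have := h.ne
      field_simp
    rw [map_sub, map_mul, hE1, hE2, hE2, h3, hyl, ← h7]
    field_simp
    ring
  have hpf := pole_free E hE1 _ _ hs M (H * ratio P (t 0) o) W
    ![ratio P (t₀ 1) (t₀ 0), ratio P (t₀ 2) (t₀ 0)] (hpole (t 0) hl)
  have hJ := hE4 t₀ ht₀
  simp only [Matrix.cons_val_zero, Matrix.cons_val_one] at hpf
  rw [hJ] at hpf
  have hrepE := hE3 d A B _ hA hB hrep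
  -- the Jacobian
  have hD3 : t2 (fun u => D3 t₀ (σ (shear m x₁ c u)) (d1 (fun u => σ (shear m x₁ c u)) u)
      (d2 (fun u => σ (shear m x₁ c u)) u)) =
      t2 (fun u => D3 t₀ (σ (shear m x₁ c u)) (d1 σ (shear m x₁ c u)) (d2 σ (shear m x₁ c u))) := by
    apply t2_congr
    have h1 := D3_comp t₀ (φ := fun u => σ (shear m x₁ c u)) (c := fun _ => (1 : ℂ))
      (analyticAt_const (x := (0 : ℂ × ℂ))) hθ hσ (Filter.Eventually.of_forall fun u => (one_smul ℂ _).symm)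
    have h2 : ∀ᶠ u in 𝓝 (0 : ℂ × ℂ), DifferentiableAt ℂ c u.1 := by
      have h3 : ∀ᶠ a in 𝓝 ((0 : ℂ × ℂ).1), DifferentiableAt ℂ c a :=
        hc.eventually_analyticAt.mono fun a ha => ha.differentiableAt
      exact continuousAt_fst.eventually h3
    filter_upwards [h1, h2] with u h1 h2
    rw [h1, EXT_jac_shear h2]
    ring
  have hD3an : AnalyticAt ℂ (fun u => D3 t₀ (σ (shear m x₁ c u)) (d1 σ (shear m x₁ c u))
      (d2 σ (shear m x₁ c u))) 0 :=
    AnalyticAt.fun_comp (g := fun v => D3 t₀ (σ v) (d1 σ v) (d2 σ v)) (f := shear m x₁ c)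
      (analyticAt_D3 t₀ hσ) hθ
  have hAan : AnalyticAt ℂ (fun u => eval (σ (shear m x₁ c u)) A) 0 := analyticAt_eval hψ A
  have hBan : AnalyticAt ℂ (fun u => eval (σ (shear m x₁ c u)) B) 0 := analyticAt_eval hψ B
  have hA2 : t2 (fun u => (fun u => eval (σ u) A * D3 t₀ (σ u) (d1 σ u) (d2 σ u) ^ M)
      (shear m x₁ c u)) = t2 (fun u => eval (σ (shear m x₁ c u)) A) *
        t2 (fun u => D3 t₀ (σ (shear m x₁ c u)) (d1 σ (shear m x₁ c u))
          (d2 σ (shear m x₁ c u))) ^ M := by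
    rw [← t2_pow hD3an, ← t2_mul hAan (hD3an.fun_pow M)]
  have hB2 : t2 (fun u => (fun u => eval (σ u) (B * X (t₀ 0) ^ (3 * M + 1))) (shear m x₁ c u)) =
      t2 (fun u => eval (σ (shear m x₁ c u)) B) *
        t2 (fun u => σ (shear m x₁ c u) (t₀ 0)) ^ (3 * M + 1) := by
    rw [← t2_pow (hψi (t₀ 0)), ← t2_mul hBan ((hψi (t₀ 0)).fun_pow _)]
    simp only [map_mul, map_pow, eval_X]
  have hvA : vT (emb (t2 fun u => eval (σ (shear m x₁ c u)) A) *
      emb (t2 (fun u => D3 t₀ (σ (shear m x₁ c u)) (d1 σ (shear m x₁ c u))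
          (d2 σ (shear m x₁ c u)))) ^ M) = (j : ℤ) := by
    rw [← map_pow, ← map_mul, ← hA2]
    exact vT_emb hordA
  have hvB : vT (emb (t2 fun u => eval (σ (shear m x₁ c u)) B) *
      emb (t2 fun u => σ (shear m x₁ c u) (t₀ 0)) ^ (3 * M + 1)) = (k' : ℤ) := by
    rw [← map_pow, ← map_mul, ← hB2]
    exact vT_emb hordB
  have hvl : vT (cst (x (t 0))) = 0 := by
    change vT (HahnSeries.C (HahnSeries.C (x (t 0)))) = 0
    apply vT_C
    intro h0
    apply hxl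
    change HahnSeries.C (HahnSeries.C (x (t 0))) = 0
    rw [h0, map_zero]
  have hyo := hy o ho
  have hyt := hy (t₀ 0) ht₀
  -- the identity
  have hid : (E (H * ratio P (t 0) o) * (E W * (emb (t2 fun u =>
      D3 t₀ (σ (shear m x₁ c u)) (d1 (fun u => σ (shear m x₁ c u)) u)
        (d2 (fun u => σ (shear m x₁ c u)) u)) / emb (t2 fun u => σ (shear m x₁ c u) (t₀ 0)) ^ 3)) ^ M) *
      (emb (t2 fun u => eval (σ (shear m x₁ c u)) B) *
        emb (t2 fun u => σ (shear m x₁ c u) (t₀ 0)) ^ (3 * M + 1)) =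
      cst (x (t 0)) * (emb (t2 fun u => eval (σ (shear m x₁ c u)) A) *
        emb (t2 (fun u => D3 t₀ (σ (shear m x₁ c u)) (d1 σ (shear m x₁ c u))
          (d2 σ (shear m x₁ c u)))) ^ M) := by
    rw [← hrepE, hD3]
    simp only [map_mul, map_pow, hE2, hyl]
    exact EXT_alg (F := LL) (E H) (E W) _ _ _ _ _ hyt hyo M
  have hv := congrArg vT hid
  rw [AddValuation.map_mul vT (E (H * ratio P (t 0) o) * _) _,
    AddValuation.map_mul vT (cst (x (t 0))) _, hvA, hvB, hvl, zero_add] at hv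
  have h1 : ((k' : ℤ) : WithTop ℤ) ≤ ((j : ℤ) : WithTop ℤ) := by
    rw [← hv]
    exact le_add_of_nonneg_left hpf
  have h2 : (k' : ℤ) ≤ (j : ℤ) := WithTop.coe_le_coe.1 h1
  have h3 : k' ≤ j := by exact_mod_cast h2
  omega

private theorem EXTb_sub {f g : ℂ × ℂ → ℂ} (hf : AnalyticAt ℂ f 0) (hg : AnalyticAt ℂ g 0)
    (h : t2 f = t2 g) : f 0 = g 0 := by
  have hg' : AnalyticAt ℂ (fun u => (-1 : ℂ) * g u) 0 := analyticAt_const.mul hg
  have hfg : AnalyticAt ℂ (fun u => f u + (-1 : ℂ) * g u) 0 := hf.add hg'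
  have hc : AnalyticAt ℂ (fun _ : ℂ × ℂ => (-1 : ℂ)) 0 := analyticAt_const
  have h1 : t2 (fun u => f u + (-1 : ℂ) * g u) = 0 := by
    rw [t2_add hf hg', t2_mul hc hg, t2_const, h, map_neg, map_neg, map_one, map_one, neg_one_mul,
      add_neg_cancel]
  have h2 := (t2_eq_zero_iff hfg).1 h1
  have h3 : f 0 + (-1) * g 0 = 0 := h2.self_of_nhds
  linear_combination h3

private theorem EXTb_apply {φ : ℂ × ℂ → Fin (N + 1) → ℂ} (h : AnalyticAt ℂ φ 0) (i : Fin (N + 1)) :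
    AnalyticAt ℂ (fun u => φ u i) 0 := by
  have h1 := analyticAt_eval h (X i : MvPolynomial (Fin (N + 1)) ℂ)
  simpa using h1

private theorem EXTb_ne {x : Fin (N + 1) → ℂ} {t : Fin 3 → Fin (N + 1)} {σ : ℂ × ℂ → Fin (N + 1) → ℂ}
    (h : CChart P x t σ) {i : Fin (N + 1)} (hi : X i ∉ P) : emb (t2 fun u => σ u i) ≠ 0 := by
  intro h0
  have h1 : t2 (fun u => σ u i) = 0 := emb_injective (by rw [h0, map_zero])
  have h2 := (t2_eq_zero_iff (EXTb_apply h.an i)).1 h1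
  refine h.nd 1 (X i) (isHomogeneous_X _ _) hi ?_
  filter_upwards [h2] with u hu
  rw [eval_X]
  exact hu

private theorem EXTb_mk_smul {K : Type} [Field K] [Algebra ℂ K] (c : K) (a : Fin 2 → K) :
    Form.mk c a = c • Form.mk (1 : K) a := by
  have h1 : ∀ v : Form K 2, c • v = c • (1 : K) • v := fun v => by rw [one_smul]
  exact h1 _

private theorem EXTb_one {F : Type} [Field F] {y : F} (h : y ≠ 0) : y ^ 3 / y ^ 3 = 1 :=
  div_self (pow_ne_zero 3 h)

private theorem EXTb_mo {F : Type} [Field F] (a : F) : a * 1 = a := mul_one a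

private theorem EXTb_mz {F : Type} [Field F] (a : F) : a * 0 = 0 := mul_zero a

private theorem EXTb_ne1 {F : Type} [Field F] {a : F} (h1 : a = 1) (h0 : a = 0) : False :=
  one_ne_zero (h1.symm.trans h0)

private theorem EXTb_fld {F : Type} [Field F] {D y e a b : F} (h : y ≠ 0) (h1 : e = D / y ^ 3)
    (h2 : e * b = a) : D * b = y ^ 3 * a := by
  rw [← h2, h1]
  field_simp

/-- The embedding and the Jacobian functional of a chart. -/
private theorem EXTb_chart {k : ℕ} (z : Fin (k + 1) → FunField P) (hz : IsTranscendenceBasis ℂ z)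
    {t : Fin 3 → Fin (N + 1)} (ht : X (t 0) ∉ P) {x : Fin (N + 1) → ℂ} {σ : ℂ × ℂ → Fin (N + 1) → ℂ}
    (h : CChart P x t σ) :
    ∃ (E : FunField P →+* LL) (J : Form (FunField P) 2 →+ LL),
      (∀ (g : FunField P) (η : Form (FunField P) 2), J (g • η) = E g * J η) ∧
      (∀ (d : ℕ) (A B : MvPolynomial (Fin (N + 1)) ℂ) (f : FunField P), A.IsHomogeneous d →
        B.IsHomogeneous d →
        (∀ l, X l ∉ P → f * aeval (fun i => ratio P i l) B = aeval (fun i => ratio P i l) A) →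
        E f * emb (t2 fun u => eval (σ u) B) = emb (t2 fun u => eval (σ u) A)) ∧
      (∀ s : Fin 3 → Fin (N + 1), X (s 0) ∉ P →
        J (Form.mk 1 ![ratio P (s 1) (s 0), ratio P (s 2) (s 0)]) =
          emb (t2 fun u => D3 s (σ u) (d1 σ u) (d2 σ u)) / emb (t2 fun u => σ u (s 0)) ^ 3) ∧
      J (Form.mk 1 ![ratio P (t 1) (t 0), ratio P (t 2) (t 0)]) = 1 := by
  obtain ⟨E, hE, -, hrep, hjac⟩ := exists_embedding P z hz h.an h.mem h.nd
  have hX : ∀ c : ℂ, DX (E (algebraMap ℂ (FunField P) c)) = 0 := fun c => by rw [hE]; exact DX_cst c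
  have hT : ∀ c : ℂ, DT (E (algebraMap ℂ (FunField P) c)) = 0 := fun c => by rw [hE]; exact DT_cst c
  obtain ⟨J, hJs, hJm⟩ := exists_jac (F := LL) E DX DT (fun a b => DX_mul a b)
    (fun a b => DT_mul a b) hX hT
  have hJ : ∀ s : Fin 3 → Fin (N + 1), X (s 0) ∉ P →
      J (Form.mk 1 ![ratio P (s 1) (s 0), ratio P (s 2) (s 0)]) =
        emb (t2 fun u => D3 s (σ u) (d1 σ u) (d2 σ u)) / emb (t2 fun u => σ u (s 0)) ^ 3 := by
    intro s hs
    refine (hJm 1 _).trans ?_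
    rw [map_one]
    exact (one_mul _).trans (hjac s hs)
  refine ⟨E, J, hJs, hrep, hJ, ?_⟩
  have h1 : t2 (fun u => D3 t (σ u) (d1 σ u) (d2 σ u)) = t2 (fun _ => x (t 0) ^ 3) :=
    t2_congr h.D3_eq
  have h2 : t2 (fun u => σ u (t 0)) = t2 (fun _ => x (t 0)) := t2_congr h.c0
  have h3 : (cst (x (t 0)) : LL) ≠ 0 := by
    have h4 := EXTb_ne P h ht
    rw [h2, t2_const, emb_C_C] at h4
    exact h4
  rw [hJ t ht, h1, h2, t2_const, t2_const, emb_C_C, emb_C_C, map_pow]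
  exact EXTb_one (F := LL) h3

theorem exists_jacobian {k : ℕ} (z : Fin (k + 1) → FunField P) (hz : IsTranscendenceBasis ℂ z)
    {t₀ t : Fin 3 → Fin (N + 1)} (ht₀ : X (t₀ 0) ∉ P) (ht : X (t 0) ∉ P)
    (hb₀ : IsTranscendenceBasis ℂ ![ratio P (t₀ 1) (t₀ 0), ratio P (t₀ 2) (t₀ 0)])
    (hb : IsTranscendenceBasis ℂ ![ratio P (t 1) (t 0), ratio P (t 2) (t 0)]) :
    ∃ (e : ℕ) (A B : MvPolynomial (Fin (N + 1)) ℂ), A.IsHomogeneous e ∧ B.IsHomogeneous e ∧
      B ∉ P ∧ ∀ (x : Fin (N + 1) → ℂ) (σ : ℂ × ℂ → Fin (N + 1) → ℂ), CChart P x t σ →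
        A ∉ P ∧ D3 t₀ x (d1 σ 0) (d2 σ 0) * eval x B = x (t₀ 0) ^ 3 * eval x A := by
  obtain ⟨f, hf⟩ := exists_form_mk hb
    (Form.mk 1 ![ratio P (t₀ 1) (t₀ 0), ratio P (t₀ 2) (t₀ 0)])
  obtain ⟨e, A, B, hA, hB, hBP, hfA, hrep⟩ := exists_hom_rep P z hz f
  refine ⟨e, A, B, hA, hB, hBP, fun x σ h => ?_⟩
  obtain ⟨E, J, hJs, hE, hJ, hJt⟩ := EXTb_chart P z hz ht h
  have hf1 : J (Form.mk 1 ![ratio P (t₀ 1) (t₀ 0), ratio P (t₀ 2) (t₀ 0)]) = E f := by
    rw [hf, EXTb_mk_smul, hJs, hJt]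
    exact EXTb_mo (F := LL) (E f)
  have hf0 : f ≠ 0 := by
    intro h0
    obtain ⟨W, hW⟩ := exists_form_mk hb₀ (Form.mk 1 ![ratio P (t 1) (t 0), ratio P (t 2) (t 0)])
    have h1 : J (Form.mk 1 ![ratio P (t 1) (t 0), ratio P (t 2) (t 0)]) = 0 := by
      rw [hW, EXTb_mk_smul, hJs, hf1, h0, map_zero]
      exact EXTb_mz (F := LL) (E W)
    exact EXTb_ne1 (F := LL) hJt h1
  refine ⟨hfA hf0, ?_⟩
  have hy := EXTb_ne P h ht₀
  have h1 := hE e A B f hA hB hrep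
  have h2 := hJ t₀ ht₀
  rw [hf1] at h2
  have h1' := EXTb_fld (F := LL) hy h2 h1
  have hD := analyticAt_D3 t₀ h.an
  have hsa := EXTb_apply h.an (t₀ 0)
  have hs3 : AnalyticAt ℂ (fun u => σ u (t₀ 0) ^ 3) 0 := hsa.pow 3
  have hAa := analyticAt_eval h.an A
  have hBa := analyticAt_eval h.an B
  have h3 : t2 (fun u => D3 t₀ (σ u) (d1 σ u) (d2 σ u) * eval (σ u) B) =
      t2 (fun u => σ u (t₀ 0) ^ 3 * eval (σ u) A) := by
    apply emb_injective
    rw [t2_mul hD hBa, t2_mul hs3 hAa, t2_pow hsa, map_mul, map_mul, map_pow]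
    exact h1'
  have h4 := EXTb_sub (hD.mul hBa) (hs3.mul hAa) h3
  simp only [Pi.mul_apply, h.zero] at h4
  exact h4

/-- The coordinate ratios of a chart are a transcendence basis. -/
theorem CChart.isTranscendenceBasis {z : Fin 2 → FunField P} (hz : IsTranscendenceBasis ℂ z)
    {x : Fin (N + 1) → ℂ} {t : Fin 3 → Fin (N + 1)} {σ : ℂ × ℂ → Fin (N + 1) → ℂ}
    (h : CChart P x t σ) : X (t 0) ∉ P ∧
      IsTranscendenceBasis ℂ ![ratio P (t 1) (t 0), ratio P (t 2) (t 0)] := by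
  have hxP : ∀ Q ∈ P, eval x Q = 0 := by
    have h1 := h.mem.self_of_nhds
    rw [h.zero] at h1
    exact h1
  have ht : X (t 0) ∉ P := by
    intro h1
    have h2 := hxP _ h1
    rw [eval_X] at h2
    exact h.ne h2
  refine ⟨ht, ?_⟩
  have hind : AlgebraicIndependent ℂ ![ratio P (t 1) (t 0), ratio P (t 2) (t 0)] := by
    rw [algebraicIndependent_iff]
    intro p hp
    let G : MvPolynomial (Fin (N + 1)) ℂ := aeval ![X (t 1), X (t 2)] p
    have hG : aeval (fun i => ratio P i (t 0)) G = 0 := by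
      have h1 := comp_aeval_apply (f := ![X (t 1), X (t 2)])
        (aeval (fun i => ratio P i (t 0)) : MvPolynomial (Fin (N + 1)) ℂ →ₐ[ℂ] FunField P) p
      refine h1.trans ?_
      rw [← hp]
      congr 2
      funext i
      fin_cases i
      · simp
      · simp
    have hev : ∀ y : Fin (N + 1) → ℂ, eval y G = eval ![y (t 1), y (t 2)] p := by
      intro y
      have h1 := comp_aeval_apply (f := ![X (t 1), X (t 2)])
        (aeval y : MvPolynomial (Fin (N + 1)) ℂ →ₐ[ℂ] ℂ) p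
      have h2 : eval y G = aeval y G := rfl
      have h3 : eval ![y (t 1), y (t 2)] p = aeval ![y (t 1), y (t 2)] p := rfl
      rw [h2, h3]
      refine h1.trans ?_
      congr 2
      funext i
      fin_cases i
      · simp
      · simp
    have hnear : ∀ᶠ u in 𝓝 (0 : ℂ × ℂ),
        eval ![x (t 1) / x (t 0) + u.1, x (t 2) / x (t 0) + u.2] p = 0 := by
      filter_upwards [h.mem, h.c0, h.c1, h.c2] with u hm h0 h1 h2
      have h3 : σ u (t 0) ≠ 0 := by
        rw [h0]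
        exact h.ne
      have h4 := eval_eq_zero_of_relation P (k := 1) z hz ht hG hm h3
      rw [hev, h0, h1, h2, add_div, add_div, mul_div_cancel_left₀ _ h.ne,
        mul_div_cancel_left₀ _ h.ne] at h4
      exact h4
    obtain ⟨r, hr, hball⟩ := Metric.eventually_nhds_iff_ball.1 hnear
    refine funext_set (fun i : Fin 2 => Metric.ball (![x (t 1) / x (t 0), x (t 2) / x (t 0)] i) r)
      (fun i => ?_) (fun v hv => ?_)
    · exact infinite_of_mem_nhds _ (Metric.ball_mem_nhds _ hr)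
    · have hv0 := hv 0 (Set.mem_univ _)
      have hv1 := hv 1 (Set.mem_univ _)
      have h1 := hball (v 0 - x (t 1) / x (t 0), v 1 - x (t 2) / x (t 0)) (by
        rw [mem_ball_zero_iff, Prod.norm_def, max_lt_iff]
        exact ⟨by simpa [dist_eq_norm] using hv0, by simpa [dist_eq_norm] using hv1⟩)
      rw [map_zero]
      refine Eq.trans ?_ h1
      congr 2
      funext i
      fin_cases i
      · simp
      · simp
  refine hind.isTranscendenceBasis_of_trdeg_le_of_finite ?_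
  rw [← hz.cardinalMk_eq_trdeg]

end Pool.Agent.H68.KR

end
end

section

/-!
# KR Main: surfaces of general type carry a holomorphic section of `M K - H`
-/

set_option autoImplicit false

open MvPolynomial Topology Filter
open Pool.Agent.H23.Fano (Form regularForms PrimeDivisorOver)
open Pool.Agent.H17LG.Variety (FunField ratio PoleAtMost IsLogGeneralType)
open Pool.Agent.H17BP (Tan IsForm NoZeros)
open Pool.Agent.H17GT (coordFun)

noncomputable section

namespace Pool.Agent.H68.KR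

attribute [-instance] ProperSMul.toContinuousSMul

variable {N : ℕ} (P : Ideal (MvPolynomial (Fin (N + 1)) ℂ)) [P.IsPrime]

theorem ratio_ne_zero {i j : Fin (N + 1)} (hi : X i ∉ P) (hj : X j ∉ P) : ratio P i j ≠ 0 := by
  intro h
  have h1 : coordFun P i / coordFun P j = 0 := congrArg Subtype.val h
  rcases div_eq_zero_iff.1 h1 with h2 | h2
  · exact hi ((coordFun_eq_zero_iff P i).1 h2)
  · exact hj ((coordFun_eq_zero_iff P j).1 h2)

/-- The Jacobian of a chart with respect to the fixed pair of coordinate ratios is the quotient of two forms. -/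
theorem exists_jacobian_form {z : Fin 2 → FunField P} (hz : IsTranscendenceBasis ℂ z)
    {t₀ : Fin 3 → Fin (N + 1)} (ht₀ : X (t₀ 0) ∉ P)
    (hb₀ : IsTranscendenceBasis ℂ ![ratio P (t₀ 1) (t₀ 0), ratio P (t₀ 2) (t₀ 0)])
    (t : Fin 3 → Fin (N + 1)) :
    ∃ (e : ℕ) (R : MvPolynomial (Fin (N + 1)) ℂ), R.IsHomogeneous e ∧ R ∉ P ∧
      ∀ (x : Fin (N + 1) → ℂ) (σ : ℂ × ℂ → Fin (N + 1) → ℂ), CChart P x t σ → x (t₀ 0) ≠ 0 →
        eval x R ≠ 0 → D3 t₀ x (d1 σ 0) (d2 σ 0) ≠ 0 := by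
  by_cases hex : ∃ x σ, CChart P x t σ
  · obtain ⟨x, σ, hσ⟩ := hex
    obtain ⟨ht, hb⟩ := hσ.isTranscendenceBasis P hz
    obtain ⟨e, A, B, hA, hB, hBP, hmain⟩ := exists_jacobian P z hz ht₀ ht hb₀ hb
    have hAP : A ∉ P := (hmain x σ hσ).1
    refine ⟨e + e, A * B, hA.mul hB, fun h => ?_, fun y τ hτ hy hR hD => ?_⟩
    · rcases Ideal.IsPrime.mem_or_mem inferInstance h with h1 | h1
      · exact hAP h1
      · exact hBP h1
    · have h1 := (hmain y τ hτ).2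
      rw [hD, zero_mul] at h1
      rw [map_mul] at hR
      have h2 : eval y A ≠ 0 := left_ne_zero_of_mul hR
      exact (mul_ne_zero (pow_ne_zero 3 hy) h2) h1.symm
  · exact ⟨0, 1, isHomogeneous_one _ _, fun h => (Ideal.ne_top_iff_one P).1 Ideal.IsPrime.ne_top' h,
      fun x σ hσ => absurd ⟨x, σ, hσ⟩ hex⟩

theorem exists_form (hP : ∀ p ∈ P, ∀ n, homogeneousComponent n p ∈ P) {z : Fin 2 → FunField P}
    (hz : IsTranscendenceBasis ℂ z)
    (hgt : IsLogGeneralType (K := FunField P) (k := 2) fun _ => False)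
    (hsm : ∀ x ∈ cone P, ∃ t σ, CChart P x t σ) :
    ∃ (M : ℕ) (Om : (Fin (N + 1) → ℂ) → (Fin (N + 1) → ℂ) → (Fin (N + 1) → ℂ) → ℂ) (D₀ : ℕ)
      (Q₀ : MvPolynomial (Fin (N + 1)) ℂ), 1 ≤ M ∧ Q₀.IsHomogeneous D₀ ∧ Q₀ ∉ P ∧
      IsForm (cone P) M 1 Om ∧ NoZeros (cone P) {x | x ∈ cone P ∧ eval x Q₀ = 0} Om := by
  by_cases hne : (cone P).Nonempty
  swap
  · have hemp : ∀ x, x ∉ cone P := fun x hx => hne ⟨x, hx⟩
    refine ⟨1, fun _ _ _ => 0, 0, 1, le_rfl, isHomogeneous_one _ _,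
      fun h => (Ideal.ne_top_iff_one P).1 Ideal.IsPrime.ne_top' h, ⟨?_, ?_, ?_, ?_⟩, ?_⟩
    · exact fun x hx => absurd hx (hemp x)
    · exact fun x hx => absurd hx (hemp x)
    · exact fun x hx => absurd hx (hemp x)
    · exact fun φ p _ h => absurd h.self_of_nhds (hemp _)
    · exact fun x hx => absurd hx (hemp x)
  obtain ⟨x₀, hx₀⟩ := hne
  obtain ⟨t₀, σ₀, hσ₀⟩ := hsm x₀ hx₀
  obtain ⟨ht₀, hb₀⟩ := hσ₀.isTranscendenceBasis P hz
  obtain ⟨ω, hω, M, H, o, hM, hH, ho, hpole⟩ := kodaira P z hz hgt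
  obtain ⟨W, rfl⟩ := exists_form_mk hb₀ ω
  have hW : W ≠ 0 := by
    rintro rfl
    apply hω
    unfold Form.mk
    exact zero_smul _ _
  obtain ⟨d, A, B, hA, hB, hBP, hAP, hrep⟩ :=
    exists_hom_rep P z hz (H * ratio P (t₀ 0) o * W ^ M)
  have hAP' : A ∉ P := hAP (mul_ne_zero (mul_ne_zero hH (ratio_ne_zero P ht₀ ho)) (pow_ne_zero _ hW))
  have hext : ∀ x t σ, CChart P x t σ → ∃ Φ, Ext M t₀ A (B * X (t₀ 0) ^ (3 * M + 1)) σ Φ 0 :=
    fun x t σ h => exists_ext P z hz ht₀ ho hpole hA hB hBP hrep h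
  have hB' : (B * X (t₀ 0) ^ (3 * M + 1)).IsHomogeneous (d + 3 * M + 1) := by
    have := hB.mul (isHomogeneous_X_pow (R := ℂ) (t₀ 0) (3 * M + 1))
    rwa [← add_assoc] at this
  have hBP' : B * X (t₀ 0) ^ (3 * M + 1) ∉ P := by
    intro h
    rcases Ideal.IsPrime.mem_or_mem inferInstance h with h1 | h1
    · exact hBP h1
    · exact ht₀ (Ideal.IsPrime.mem_of_pow_mem inferInstance _ h1)
  obtain ⟨Om, h1, h2⟩ := exists_om (P := P) hA hB' hsm hext
  have hform : IsForm (cone P) M 1 Om := isForm_om hP hA hB' hBP' hsm hext h1 h2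
  choose e R hR hRP hRne using exists_jacobian_form P hz ht₀ hb₀
  set B' := B * X (t₀ 0) ^ (3 * M + 1) with hB'def
  have hprod : (∏ t, R t).IsHomogeneous (∑ t, e t) := IsHomogeneous.prod _ _ _ fun t _ => hR t
  have hprodP : (∏ t, R t) ∉ P := by
    intro h
    obtain ⟨t, -, ht⟩ := (Ideal.IsPrime.prod_mem_iff (p := P)).1 h
    exact hRP t ht
  refine ⟨M, Om, (d + (d + 3 * M + 1)) + 1 + ∑ t, e t, A * B' * X (t₀ 0) * ∏ t, R t, hM,
    ((hA.mul hB').mul (isHomogeneous_X _ _)).mul hprod, fun h => ?_, hform, ?_⟩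
  · rcases Ideal.IsPrime.mem_or_mem inferInstance h with h3 | h3
    · rcases Ideal.IsPrime.mem_or_mem inferInstance h3 with h4 | h4
      · rcases Ideal.IsPrime.mem_or_mem inferInstance h4 with h5 | h5
        · exact hAP' h5
        · exact hBP' h5
      · exact ht₀ h4
    · exact hprodP h3
  · intro x hx hxB v hv w hw hind
    have hQ : eval x (A * B' * X (t₀ 0) * ∏ t, R t) ≠ 0 := fun h => hxB ⟨hx, h⟩
    rw [map_mul, map_mul, map_mul, eval_X, map_prod] at hQ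
    have hQR := right_ne_zero_of_mul hQ
    have hQ1 := left_ne_zero_of_mul hQ
    have hx0 := right_ne_zero_of_mul hQ1
    have hQ2 := left_ne_zero_of_mul hQ1
    have hxA := left_ne_zero_of_mul hQ2
    have hxB' := right_ne_zero_of_mul hQ2
    rw [Finset.prod_ne_zero_iff] at hQR
    obtain ⟨t, σ, hσ⟩ := hsm x hx
    obtain ⟨Φ, hΦ⟩ := hext x t σ hσ
    have hD := hRne t x σ hσ hx0 (hQR t (Finset.mem_univ t))
    have hnd : ¬ ∀ᶠ u in 𝓝 (0 : ℂ × ℂ), eval (σ u) B' = 0 := hσ.nd _ _ hB' hBP'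
    have h3 : Om x (d1 σ 0) (d2 σ 0) = Φ 0 := h1 x hx σ 0 Φ hσ.an hσ.mem hσ.zero hΦ hnd
    have h4 := hΦ.2.self_of_nhds
    rw [hσ.zero] at h4
    have hΦ0 : Φ 0 ≠ 0 := by
      intro h0
      rw [h0, mul_zero] at h4
      exact (mul_ne_zero hxA (pow_ne_zero M hD)) h4.symm
    obtain ⟨a, b, c, hvv⟩ := hσ.tan hv
    obtain ⟨a', b', c', hww⟩ := hσ.tan hw
    obtain ⟨s, C, hC⟩ := h2 x hx
    have h5 : Om x v w = (a * b' - b * a') ^ M * Om x (d1 σ 0) (d2 σ 0) := by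
      rw [hC, hC, hvv, hww, D3_add_smul, D3_det, mul_pow]
      ring
    rw [h5, h3]
    refine mul_ne_zero (pow_ne_zero M fun hdet => ?_) hΦ0
    -- a linear relation
    rw [Fintype.linearIndependent_iff] at hind
    by_cases hab : a = 0 ∧ b = 0
    · have h6 := hind ![-c, 1, 0] (by
        simp [Fin.sum_univ_three, hvv, hab.1, hab.2]) 1
      simp at h6
    · have h6 := hind ![-(c * b' - c' * b), b', -b] (by
        simp only [Fin.sum_univ_three, Matrix.cons_val_zero, Matrix.cons_val_one,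
          Matrix.cons_val_two, Matrix.head_cons, Matrix.tail_cons]
        rw [hvv, hww]
        ext i
        simp only [Pi.add_apply, Pi.smul_apply, smul_eq_mul, Pi.zero_apply]
        linear_combination (d1 σ 0 i) * hdet)
      have h7 := hind ![-(c' * a - c * a'), -a', a] (by
        simp only [Fin.sum_univ_three, Matrix.cons_val_zero, Matrix.cons_val_one,
          Matrix.cons_val_two, Matrix.head_cons, Matrix.tail_cons]
        rw [hvv, hww]
        ext i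
        simp only [Pi.add_apply, Pi.smul_apply, smul_eq_mul, Pi.zero_apply]
        linear_combination (d2 σ 0 i) * hdet)
      apply hab
      have h8 := h6 2
      have h9 := h7 2
      simp at h8 h9
      exact ⟨h9, h8⟩

end Pool.Agent.H68.KR

end
end
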