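import Pool.Agent.H94.CB.H13.SM.Cone
import Pool.Agent.H94.CB.M43
import Pool.Agent.H94.CB.M46
import Pool.Agent.H94.CB.M47
import Pool.Agent.H94.CB.M50
import Pool.Agent.H94.CB.M51

/-! The parts of this file: H68.KR.SMC, H62.SA.MainF. -/

section

/-!
# KR SMC: smooth surfaces of general type carry a holomorphic section of `M K - H`
-/

set_option autoImplicit false

open MvPolynomial Topology Filter
open Pool.Agent.H17LG.Variety (FunField ratio PoleAtMost IsLogGeneralType)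
open Pool.Agent.H17BP (Tan IsForm NoZeros)
open Pool.Agent.H62.FC (Homog LogGeneralType)
open Pool.Agent.H13.SM (conTan)

noncomputable section

namespace Pool.Agent.H68.KR

attribute [-instance] ProperSMul.toContinuousSMul

variable {N : ℕ} {P : Ideal (MvPolynomial (Fin (N + 1)) ℂ)}

theorem exists_cchart [P.IsPrime] (hP : Homog P) {z : Fin 2 → FunField P}
    (hz : IsTranscendenceBasis ℂ z)
    (hsm : ∀ y : Fin (N + 1) → ℂ, y ≠ 0 → (∀ Q ∈ P, eval y Q = 0) →
      Module.finrank ℂ (conTan P y) ≤ 2 + 1) :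
    ∀ x ∈ cone P, ∃ t σ, CChart P x t σ := by
  intro x hx
  obtain ⟨l, hl⟩ : ∃ l, x l ≠ 0 := by
    by_contra h
    push Not at h
    exact hx.1 (funext h)
  obtain ⟨I, σ, han, h0, hmem, hsurj, hnd⟩ := Pool.Agent.H13.SM.exists_coneChart hP hz hsm hx.2 hl
  -- the linear map `u ↦ ![u.1, u.2]`
  set e : (ℂ × ℂ) → (Fin 2 → ℂ) := fun u => ![u.1, u.2] with he
  have hean : AnalyticAt ℂ e 0 := by
    rw [analyticAt_pi_iff]
    intro i
    fin_cases i
    · exact analyticAt_fst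
    · exact analyticAt_snd
  have he0 : e 0 = 0 := by
    funext i
    fin_cases i <;> rfl
  have het : Tendsto e (𝓝 0) (𝓝 0) := by
    have := hean.continuousAt.tendsto
    rwa [he0] at this
  have hinv : ∀ w : Fin 2 → ℂ, e (w 0, w 1) = w := by
    intro w
    funext i
    fin_cases i <;> rfl
  refine ⟨![l, I 0, I 1], fun u => σ (e u), ?_⟩
  have hm := het.eventually hmem
  refine
    { an := ?_
      zero := ?_
      ne := hl
      mem := hm.mono fun u hu => hu.1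
      c0 := hm.mono fun u hu => hu.2.1
      c1 := hm.mono fun u hu => hu.2.2 0
      c2 := hm.mono fun u hu => hu.2.2 1
      surj := ?_
      nd := ?_ }
  · have h1 : AnalyticAt ℂ σ (e 0) := by rw [he0]; exact han
    exact h1.comp hean
  · simp only [he0, h0]
  · filter_upwards [hsurj] with y hy hyP
    have h1 := hy hyP
    rw [← hinv (fun k => y (I k) / y l - x (I k) / x l)] at h1
    exact h1
  · intro d Q hQ hQP h
    apply hnd d Q hQ hQP
    have hpr : Tendsto (fun w : Fin 2 → ℂ => (w 0, w 1)) (𝓝 0) (𝓝 (0 : ℂ × ℂ)) := by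
      have h2 : Continuous fun w : Fin 2 → ℂ => (w 0, w 1) := by fun_prop
      have := h2.tendsto 0
      exact this
    have h3 := hpr.eventually h
    filter_upwards [h3] with w hw
    rw [hinv] at hw
    exact hw

/-- **Kodaira's lemma for surfaces**: a smooth projective surface of general type has a holomorphic section of
`M K - H` for some `M ≥ 1`, without zeros outside a hypersurface section. -/
theorem exists_form_of_smooth [P.IsPrime] (hP : Homog P) {z : Fin 2 → FunField P}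
    (hz : IsTranscendenceBasis ℂ z)
    (hsm : ∀ y : Fin (N + 1) → ℂ, y ≠ 0 → (∀ Q ∈ P, eval y Q = 0) →
      Module.finrank ℂ (conTan P y) ≤ 2 + 1)
    (hgt : LogGeneralType P ∅ 2) :
    ∃ (M : ℕ) (Om : (Fin (N + 1) → ℂ) → (Fin (N + 1) → ℂ) → (Fin (N + 1) → ℂ) → ℂ) (D₀ : ℕ)
      (Q₀ : MvPolynomial (Fin (N + 1)) ℂ), 1 ≤ M ∧ Q₀.IsHomogeneous D₀ ∧ Q₀ ∉ P ∧
      IsForm {x | x ≠ 0 ∧ ∀ Q ∈ P, eval x Q = 0} M 1 Om ∧
      NoZeros {x | x ≠ 0 ∧ ∀ Q ∈ P, eval x Q = 0}
        {x | (x ≠ 0 ∧ ∀ Q ∈ P, eval x Q = 0) ∧ eval x Q₀ = 0} Om := by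
  refine exists_form P hP hz ?_ (exists_cchart hP hz hsm)
  have h1 : (Pool.Agent.H62.FC.OnBoundary P ∅ (w := 2)) = fun _ => False := by
    funext E
    apply propext
    constructor
    · rintro ⟨j, -, -, i, hi, -⟩
      exact absurd hi (Finset.notMem_empty i)
    · exact False.elim
  have h2 := hgt
  unfold LogGeneralType at h2
  rw [h1] at h2
  exact h2

end Pool.Agent.H68.KR

end
end

section

/-!
# SA MainF: open surfaces of log general type carry a section of `M (K + D) - H` with poles of order at most `M`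

As `Pool.Agent.H68.KR.MainG` (written by helper68), the boundary `D` is the common zero set of the forms `Hf i`.
-/

set_option autoImplicit false

open MvPolynomial Topology Filter
open Pool.Agent.H23.Fano (Form regularForms PrimeDivisorOver)
open Pool.Agent.H17LG.Variety (FunField ratio PoleAtMost IsLogGeneralType)
open Pool.Agent.H17BP (Tan IsForm NoZeros)
open Pool.Agent.H17GT (coordFun)
open Pool.Agent.H36.BPL (PoleLE VanOff OpenPart)
open Pool.Agent.H68.KR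

noncomputable section

namespace Pool.Agent.H62.SA

attribute [-instance] ProperSMul.toContinuousSMul

variable {N : ℕ} (P : Ideal (MvPolynomial (Fin (N + 1)) ℂ))

/-- The part of the cone of `P` where some `Hf i` does not vanish. -/
def locCone {s : ℕ} (Hf : Fin s → MvPolynomial (Fin (N + 1)) ℂ) : Set (Fin (N + 1) → ℂ) :=
  {x | x ∈ cone P ∧ ∃ i, eval x (Hf i) ≠ 0}

variable {P} {s : ℕ}

theorem locCone_subset (Hf : Fin s → MvPolynomial (Fin (N + 1)) ℂ) : locCone P Hf ⊆ cone P :=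
  fun _ hx => hx.1

theorem locCone_smul (hP : ∀ p ∈ P, ∀ n, homogeneousComponent n p ∈ P) {e : Fin s → ℕ}
    {Hf : Fin s → MvPolynomial (Fin (N + 1)) ℂ} (hHf : ∀ i, (Hf i).IsHomogeneous (e i)) :
    ∀ x ∈ locCone P Hf, ∀ c : ℂ, c ≠ 0 → c • x ∈ locCone P Hf := by
  rintro x ⟨hx, i, hi⟩ c hc
  refine ⟨cone_smul hP hx hc, i, ?_⟩
  have h : eval (c • x) (Hf i) = c ^ e i * eval x (Hf i) := eval₂_of_isHomogeneous (RingHom.id ℂ) (hHf i) c x
  rw [h]
  exact mul_ne_zero (pow_ne_zero _ hc) hi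

theorem locCone_open (Hf : Fin s → MvPolynomial (Fin (N + 1)) ℂ) :
    ∀ x ∈ locCone P Hf, ∀ᶠ y in 𝓝 x, (∀ Q ∈ P, eval y Q = 0) → y ∈ locCone P Hf := by
  rintro x ⟨hx, i, hi⟩
  have h1 : ∀ᶠ y in 𝓝 x, eval y (Hf i) ≠ 0 :=
    (MvPolynomial.continuous_eval (Hf i)).continuousAt.eventually_ne hi
  have h2 : ∀ᶠ y in 𝓝 x, y ≠ 0 := continuousAt_id.eventually_ne hx.1
  filter_upwards [h1, h2] with y h3 h4 h5
  exact ⟨⟨h4, h5⟩, i, h3⟩

variable {M a : ℕ} {t₀ : Fin 3 → Fin (N + 1)} {A B : MvPolynomial (Fin (N + 1)) ℂ}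

/-- The zero set of an analytic function which does not vanish near `p` contains no open set near `p`. -/
private theorem MainF_ident {f : ℂ × ℂ → ℂ} {p : ℂ × ℂ} (hf : AnalyticAt ℂ f p) (h0 : ¬ ∀ᶠ u in 𝓝 p, f u = 0) :
    ∀ᶠ q in 𝓝 p, ¬ ∀ᶠ u in 𝓝 q, f u = 0 := by
  obtain ⟨r, hr, hB⟩ := Metric.eventually_nhds_iff_ball.1 hf.eventually_analyticAt
  filter_upwards [Metric.ball_mem_nhds p hr] with q hq hcon
  have h1 : AnalyticOnNhd ℂ f (Metric.ball p r) := fun u hu => hB u hu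
  have h2 := h1.eqOn_zero_of_preconnected_of_eventuallyEq_zero
    (convex_ball p r).isPreconnected hq hcon
  refine h0 ?_
  filter_upwards [Metric.ball_mem_nhds p hr] with u hu
  exact h2 hu

/-- The pole estimate for maps, from the extension statement at the point `0`. -/
private theorem MainF_pole {Hf : Fin s → MvPolynomial (Fin (N + 1)) ℂ} (hM : 1 ≤ M)
    (hA : A.IsHomogeneous a) (hB : B.IsHomogeneous (a + 3 * M + 1)) (hBP : B ∉ P)
    (hsm : ∀ x ∈ cone P, ∃ t σ, CChart P x t σ)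
    (hext0 : ∀ (φ : ℂ × ℂ → Fin (N + 1) → ℂ), AnalyticAt ℂ φ 0 → (∀ᶠ u in 𝓝 (0 : ℂ × ℂ), φ u ∈ cone P) →
      ∀ G : List (ℂ × ℂ → ℂ), G.length = M → (∀ g ∈ G, AnalyticAt ℂ g 0) →
      (∀ g ∈ G, ∀ᶠ u in 𝓝 (0 : ℂ × ℂ), (∀ i, eval (φ u) (Hf i) = 0) → g u = 0) →
      ∃ Φ : ℂ × ℂ → ℂ, AnalyticAt ℂ Φ 0 ∧ ∀ᶠ u in 𝓝 (0 : ℂ × ℂ),
        eval (φ u) B * Φ u = (G.map fun g => g u).prod * (eval (φ u) A * D3 t₀ (φ u) (d1 φ u) (d2 φ u) ^ M))
    (hext : ∀ x ∈ locCone P Hf, ∀ t σ, CChart P x t σ → ∃ Φ, Ext M t₀ A B σ Φ 0)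
    {Om : (Fin (N + 1) → ℂ) → (Fin (N + 1) → ℂ) → (Fin (N + 1) → ℂ) → ℂ}
    (h1 : ∀ x ∈ locCone P Hf, ∀ (φ : ℂ × ℂ → Fin (N + 1) → ℂ) (p : ℂ × ℂ) (Φ : ℂ × ℂ → ℂ), AnalyticAt ℂ φ p →
        (∀ᶠ u in 𝓝 p, ∀ Q ∈ P, eval (φ u) Q = 0) → φ p = x → Ext M t₀ A B φ Φ p →
        (¬ ∀ᶠ u in 𝓝 p, eval (φ u) B = 0) → Om x (d1 φ p) (d2 φ p) = Φ p)
    (h2 : ∀ x ∈ locCone P Hf, ∃ (t : Fin 3 → Fin (N + 1)) (C : ℂ), ∀ v w, Om x v w = C * D3 t x v w ^ M) :
    PoleLE (cone P) (locCone P Hf) M Om := by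
  intro φ p hφ hφX G hG hGv
  by_cases hB0 : ∀ᶠ u in 𝓝 p, eval (φ u) B = 0
  · -- the map is degenerate
    have hdeg : ∀ s : Fin 3 → Fin (N + 1), ∀ᶠ u in 𝓝 p, D3 s (φ u) (d1 φ u) (d2 φ u) = 0 := by
      intro s
      by_contra hs
      exact nd_of_D3 P hsm hφ hφX hs _ B hB hBP hB0
    refine ⟨fun _ => 0, analyticAt_const, ?_⟩
    filter_upwards [Filter.eventually_all.2 hdeg] with y hy hyK
    obtain ⟨t, C, hC⟩ := h2 (φ y) hyK
    have h3 : Om (φ y) (fderiv ℂ φ y (1, 0)) (fderiv ℂ φ y (0, 1)) = 0 := by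
      rw [hC]
      have h4 := hy t
      unfold d1 d2 at h4
      rw [h4, zero_pow (by omega), mul_zero]
    rw [h3, mul_zero]
  -- the translated map
  have hpt : Tendsto (fun u : ℂ × ℂ => p + u) (𝓝 0) (𝓝 p) := by
    have h : Continuous fun u : ℂ × ℂ => p + u := by fun_prop
    have := h.tendsto 0
    simpa using this
  have hmt : Tendsto (fun u : ℂ × ℂ => u - p) (𝓝 p) (𝓝 0) := by
    have h : Continuous fun u : ℂ × ℂ => u - p := by fun_prop
    have := h.tendsto p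
    simpa using this
  have htan : AnalyticAt ℂ (fun u : ℂ × ℂ => p + u) 0 := analyticAt_const.add analyticAt_id
  have hman : AnalyticAt ℂ (fun u : ℂ × ℂ => u - p) p := analyticAt_id.sub analyticAt_const
  have hφ' : AnalyticAt ℂ (fun u => φ (p + u)) 0 :=
    AnalyticAt.fun_comp (g := φ) (f := fun u : ℂ × ℂ => p + u) (by simpa using hφ) htan
  have hd1 : ∀ u, d1 (fun u => φ (p + u)) u = d1 φ (p + u) := by
    intro u
    unfold d1
    rw [fderiv_comp_add_left]
  have hd2 : ∀ u, d2 (fun u => φ (p + u)) u = d2 φ (p + u) := by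
    intro u
    unfold d2
    rw [fderiv_comp_add_left]
  obtain ⟨Φ, hΦ1, hΦ2⟩ := hext0 (fun u => φ (p + u)) hφ' (hpt.eventually hφX)
    (G.map fun g => fun u => g (p + u)) (by rw [List.length_map, hG]) (by
      intro g' hg'
      obtain ⟨g, hg, rfl⟩ := List.mem_map.1 hg'
      exact AnalyticAt.fun_comp (g := g) (f := fun u : ℂ × ℂ => p + u) (by simpa using (hGv g hg).1) htan) (by
      intro g' hg'
      obtain ⟨g, hg, rfl⟩ := List.mem_map.1 hg'
      filter_upwards [hpt.eventually (hGv g hg).2] with u hu h0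
      exact hu fun hK => hK.2.elim fun i hi => hi (h0 i))
  refine ⟨fun y => Φ (y - p), ?_, ?_⟩
  · exact AnalyticAt.fun_comp (g := Φ) (f := fun u : ℂ × ℂ => u - p) (by simpa using hΦ1) hman
  have hb : ∀ᶠ y in 𝓝 p, eval (φ y) B * Φ (y - p) =
      (G.map fun g => g y).prod * (eval (φ y) A * D3 t₀ (φ y) (d1 φ y) (d2 φ y) ^ M) := by
    filter_upwards [hmt.eventually hΦ2] with y hy
    simp only [hd1, hd2, List.map_map, Function.comp_def, add_sub_cancel] at hy
    exact hy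
  have hban : AnalyticAt ℂ (fun y => Φ (y - p)) p :=
    AnalyticAt.fun_comp (g := Φ) (f := fun u : ℂ × ℂ => u - p) (by simpa using hΦ1) hman
  have hGprod : AnalyticAt ℂ (fun u => (G.map fun g => g u).prod) p :=
    Pool.Agent.H36.BPL.analyticAt_listProd fun g hg => (hGv g hg).1
  filter_upwards [hφ.eventually_analyticAt, hφX.eventually_nhds, hban.eventually_analyticAt,
    hb.eventually_nhds, MainF_ident (analyticAt_eval hφ B) hB0, hGprod.eventually_analyticAt] with u a1 a2 a3 a4 a5 a6 hu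
  obtain ⟨Ψ, hΨ⟩ := exists_ext_map hA hB (fun x hx => hsm x hx.1) hext a1 (a2.mono fun y hy => hy.2) hu
  have h3 : Om (φ u) (d1 φ u) (d2 φ u) = Ψ u :=
    h1 (φ u) hu φ u Ψ a1 (a2.mono fun y hy => hy.2) rfl hΨ a5
  change Φ (u - p) = (G.map fun g => g u).prod * Om (φ u) (d1 φ u) (d2 φ u)
  rw [h3]
  by_contra hne
  apply a5
  have hg : ContinuousAt (fun u => Φ (u - p) - (G.map fun g => g u).prod * Ψ u) u :=
    a3.continuousAt.sub (a6.continuousAt.mul hΨ.1.continuousAt)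
  have hg0 : ∀ᶠ u' in 𝓝 u, Φ (u' - p) - (G.map fun g => g u').prod * Ψ u' ≠ 0 :=
    hg.eventually_ne (sub_ne_zero.2 hne)
  filter_upwards [hg0, a4, hΨ.2] with u' k1 k2 k3
  have h4 : eval (φ u') B * (Φ (u' - p) - (G.map fun g => g u').prod * Ψ u') = 0 := by
    linear_combination k2 - (G.map fun g => g u').prod * k3
  exact (mul_eq_zero.1 h4).resolve_right k1

variable (P)

theorem exists_formF [P.IsPrime] (hP : ∀ p ∈ P, ∀ n, homogeneousComponent n p ∈ P)
    {z : Fin 2 → FunField P} (hz : IsTranscendenceBasis ℂ z)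
    {e : Fin s → ℕ} {Hf : Fin s → MvPolynomial (Fin (N + 1)) ℂ} (hHf : ∀ i, (Hf i).IsHomogeneous (e i))
    (hgt : IsLogGeneralType (K := FunField P) (k := 2) (OnBd P Hf))
    (hsm : ∀ x ∈ cone P, ∃ t σ, CChart P x t σ) :
    ∃ (M : ℕ) (Om : (Fin (N + 1) → ℂ) → (Fin (N + 1) → ℂ) → (Fin (N + 1) → ℂ) → ℂ) (D₀ : ℕ)
      (Q₀ : MvPolynomial (Fin (N + 1)) ℂ), 1 ≤ M ∧ Q₀.IsHomogeneous D₀ ∧ Q₀ ∉ P ∧
      IsForm (locCone P Hf) M 1 Om ∧
      NoZeros (locCone P Hf) {x | x ∈ locCone P Hf ∧ eval x Q₀ = 0} Om ∧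
      PoleLE (cone P) (locCone P Hf) M Om := by
  have hKP : locCone P Hf ⊆ cone P := locCone_subset Hf
  by_cases hne : (cone P).Nonempty
  swap
  · have hemp : ∀ x, x ∉ cone P := fun x hx => hne ⟨x, hx⟩
    have hemp' : ∀ x, x ∉ locCone P Hf := fun x hx => hemp x hx.1
    refine ⟨1, fun _ _ _ => 0, 0, 1, le_rfl, isHomogeneous_one _ _,
      fun h => (Ideal.ne_top_iff_one P).1 Ideal.IsPrime.ne_top' h, ⟨?_, ?_, ?_, ?_⟩, ?_, ?_⟩
    · exact fun x hx => absurd hx (hemp' x)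
    · exact fun x hx => absurd hx (hemp' x)
    · exact fun x hx => absurd hx (hemp' x)
    · exact fun φ p _ h => absurd h.self_of_nhds (hemp' _)
    · exact fun x hx => absurd hx (hemp' x)
    · exact fun φ p _ h => absurd h.self_of_nhds (hemp _)
  obtain ⟨x₀, hx₀⟩ := hne
  obtain ⟨t₀, σ₀, hσ₀⟩ := hsm x₀ hx₀
  obtain ⟨ht₀, hb₀⟩ := hσ₀.isTranscendenceBasis P hz
  obtain ⟨ω, hω, M, H, o, hM, hH, ho, hpole⟩ := kodaira_log P z hz hgt
  obtain ⟨W, rfl⟩ := exists_form_mk hb₀ ω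
  have hW : W ≠ 0 := by
    rintro rfl
    apply hω
    unfold Form.mk
    exact zero_smul _ _
  obtain ⟨d, A, B, hA, hB, hBP, hAP, hrep⟩ :=
    exists_hom_rep P z hz (H * ratio P (t₀ 0) o * W ^ M)
  have hAP' : A ∉ P := hAP (mul_ne_zero (mul_ne_zero hH (ratio_ne_zero P ht₀ ho)) (pow_ne_zero _ hW))
  have hextG := fun (φ : ℂ × ℂ → Fin (N + 1) → ℂ) (hφ : AnalyticAt ℂ φ 0)
      (hφX : ∀ᶠ u in 𝓝 (0 : ℂ × ℂ), φ u ∈ cone P) G hG hGan hG0 =>
    exists_extF P z hz hsm ht₀ ho hM hHf hpole hA hB hBP hrep hφ hφX G hG hGan hG0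
  set B' := B * X (t₀ 0) ^ (3 * M + 1) with hB'def
  have hext : ∀ x ∈ locCone P Hf, ∀ t σ, CChart P x t σ → ∃ Φ, Ext M t₀ A B' σ Φ 0 := by
    intro x hx t σ h
    obtain ⟨i₀, hi₀⟩ := hx.2
    have hne0 : ∀ᶠ u in 𝓝 (0 : ℂ × ℂ), eval (σ u) (Hf i₀) ≠ 0 := by
      refine (analyticAt_eval h.an (Hf i₀)).continuousAt.eventually_ne ?_
      rw [h.zero]
      exact hi₀
    obtain ⟨Φ, h1, h2⟩ := hextG σ h.an h.mem_cone (List.replicate M fun _ => 1) List.length_replicate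
      (fun g hg => by
        rw [List.eq_of_mem_replicate hg]
        exact analyticAt_const)
      (fun g hg => by
        filter_upwards [hne0] with u hu h0
        exact absurd (h0 i₀) hu)
    refine ⟨Φ, h1, ?_⟩
    filter_upwards [h2] with u hu
    rw [hu, List.map_replicate, List.prod_replicate, one_pow, one_mul]
  have hB' : B'.IsHomogeneous (d + 3 * M + 1) := by
    have := hB.mul (isHomogeneous_X_pow (R := ℂ) (t₀ 0) (3 * M + 1))
    rwa [← add_assoc] at this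
  have hBP' : B' ∉ P := by
    intro h
    rcases Ideal.IsPrime.mem_or_mem inferInstance h with h1 | h1
    · exact hBP h1
    · exact ht₀ (Ideal.IsPrime.mem_of_pow_mem inferInstance _ h1)
  have hsmK : ∀ x ∈ locCone P Hf, ∃ t σ, CChart P x t σ := fun x hx => hsm x hx.1
  obtain ⟨Om, h1, h2⟩ := exists_omK (P := P) hKP hA hB' hsmK hext
  have hform : IsForm (locCone P Hf) M 1 Om :=
    isForm_omK hKP (locCone_smul hP hHf) (locCone_open Hf) hP hA hB' hBP' hsmK hext h1 h2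
  choose e' R hR hRP hRne using exists_jacobian_form P hz ht₀ hb₀
  have hprod : (∏ t, R t).IsHomogeneous (∑ t, e' t) := IsHomogeneous.prod _ _ _ fun t _ => hR t
  have hprodP : (∏ t, R t) ∉ P := by
    intro h
    obtain ⟨t, -, ht⟩ := (Ideal.IsPrime.prod_mem_iff (p := P)).1 h
    exact hRP t ht
  refine ⟨M, Om, (d + (d + 3 * M + 1)) + 1 + ∑ t, e' t, A * B' * X (t₀ 0) * ∏ t, R t, hM,
    ((hA.mul hB').mul (isHomogeneous_X _ _)).mul hprod, fun h => ?_, hform, ?_, ?_⟩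
  · rcases Ideal.IsPrime.mem_or_mem inferInstance h with h3 | h3
    · rcases Ideal.IsPrime.mem_or_mem inferInstance h3 with h4 | h4
      · rcases Ideal.IsPrime.mem_or_mem inferInstance h4 with h5 | h5
        · exact hAP' h5
        · exact hBP' h5
      · exact ht₀ h4
    · exact hprodP h3
  · intro x hx hxB v hv w hw hind
    have hQ : eval x (A * B' * X (t₀ 0) * ∏ t, R t) ≠ 0 := fun h => hxB ⟨hx, h⟩
    rw [map_mul, map_mul, map_mul, eval_X, map_prod] at hQ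
    have hQR := right_ne_zero_of_mul hQ
    have hQ1 := left_ne_zero_of_mul hQ
    have hx0 := right_ne_zero_of_mul hQ1
    have hQ2 := left_ne_zero_of_mul hQ1
    have hxA := left_ne_zero_of_mul hQ2
    rw [Finset.prod_ne_zero_iff] at hQR
    obtain ⟨t, σ, hσ⟩ := hsmK x hx
    obtain ⟨Φ, hΦ⟩ := hext x hx t σ hσ
    have hD := hRne t x σ hσ hx0 (hQR t (Finset.mem_univ t))
    have hnd : ¬ ∀ᶠ u in 𝓝 (0 : ℂ × ℂ), eval (σ u) B' = 0 := hσ.nd _ _ hB' hBP'
    have h3 : Om x (d1 σ 0) (d2 σ 0) = Φ 0 := h1 x hx σ 0 Φ hσ.an hσ.mem hσ.zero hΦ hnd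
    have h4 := hΦ.2.self_of_nhds
    rw [hσ.zero] at h4
    have hΦ0 : Φ 0 ≠ 0 := by
      intro h0
      rw [h0, mul_zero] at h4
      exact (mul_ne_zero hxA (pow_ne_zero M hD)) h4.symm
    have htan : ∀ v ∈ Tan (locCone P Hf) x, v ∈ Tan (cone P) x := by
      rintro v ⟨γ, g1, g2, g3, g4⟩
      exact ⟨γ, g1, g2.mono fun z hz => hKP hz, g3, g4⟩
    obtain ⟨a, b, c, hvv⟩ := hσ.tan (htan v hv)
    obtain ⟨a', b', c', hww⟩ := hσ.tan (htan w hw)
    obtain ⟨s, C, hC⟩ := h2 x hx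
    have h5 : Om x v w = (a * b' - b * a') ^ M * Om x (d1 σ 0) (d2 σ 0) := by
      rw [hC, hC, hvv, hww, D3_add_smul, D3_det, mul_pow]
      ring
    rw [h5, h3]
    refine mul_ne_zero (pow_ne_zero M fun hdet => ?_) hΦ0
    -- a linear relation
    rw [Fintype.linearIndependent_iff] at hind
    by_cases hab : a = 0 ∧ b = 0
    · have h6 := hind ![-c, 1, 0] (by
        simp [Fin.sum_univ_three, hvv, hab.1, hab.2]) 1
      simp at h6
    · have h6 := hind ![-(c * b' - c' * b), b', -b] (by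
        simp only [Fin.sum_univ_three, Matrix.cons_val_zero, Matrix.cons_val_one,
          Matrix.cons_val_two, Matrix.head_cons, Matrix.tail_cons]
        rw [hvv, hww]
        ext i
        simp only [Pi.add_apply, Pi.smul_apply, smul_eq_mul, Pi.zero_apply]
        linear_combination (d1 σ 0 i) * hdet)
      have h7 := hind ![-(c' * a - c * a'), -a', a] (by
        simp only [Fin.sum_univ_three, Matrix.cons_val_zero, Matrix.cons_val_one,
          Matrix.cons_val_two, Matrix.head_cons, Matrix.tail_cons]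
        rw [hvv, hww]
        ext i
        simp only [Pi.add_apply, Pi.smul_apply, smul_eq_mul, Pi.zero_apply]
        linear_combination (d2 σ 0 i) * hdet)
      apply hab
      have h8 := h6 2
      have h9 := h7 2
      simp at h8 h9
      exact ⟨h9, h8⟩
  · exact MainF_pole hM hA hB' hBP' hsm hextG hext h1 h2

/-- **Kodaira's lemma for open surfaces**: the complement of an arbitrary curve in a smooth projective surface, of log general type, has
a holomorphic section of `M (K + D) - H` for some `M ≥ 1`, without zeros outside a hypersurface section. -/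
theorem exists_formF_of_smooth [P.IsPrime] (hP : Pool.Agent.H62.FC.Homog P) {z : Fin 2 → FunField P}
    (hz : IsTranscendenceBasis ℂ z) {e : Fin s → ℕ} {Hf : Fin s → MvPolynomial (Fin (N + 1)) ℂ} (hHf : ∀ i, (Hf i).IsHomogeneous (e i))
    (hsm : ∀ y : Fin (N + 1) → ℂ, y ≠ 0 → (∀ Q ∈ P, eval y Q = 0) →
      Module.finrank ℂ (Pool.Agent.H13.SM.conTan P y) ≤ 2 + 1)
    (hgt : IsLogGeneralType (K := FunField P) (k := 2) (OnBd P Hf)) :
    ∃ (M : ℕ) (Om : (Fin (N + 1) → ℂ) → (Fin (N + 1) → ℂ) → (Fin (N + 1) → ℂ) → ℂ) (D₀ : ℕ)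
      (Q₀ : MvPolynomial (Fin (N + 1)) ℂ), 1 ≤ M ∧ Q₀.IsHomogeneous D₀ ∧ Q₀ ∉ P ∧
      IsForm (locCone P Hf) M 1 Om ∧
      NoZeros (locCone P Hf) {x | x ∈ locCone P Hf ∧ eval x Q₀ = 0} Om ∧
      PoleLE (cone P) (locCone P Hf) M Om :=
  exists_formF P hP hz hHf hgt (exists_cchart hP hz hsm)

end Pool.Agent.H62.SA

end
end
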