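import Pool.Agent.H94.CB.M53
import Pool.Agent.H94.CB.M79

/-! The parts of this file: H17BP.ArtA, H17BP.TanK, H17BP.PowF, H17BP.Art. -/

section

/-!
# Resolution of the singularities of a plane curve germ: the inner induction

`claim_inner`, strong induction on `K`.  `g = D₁^a D₂^b (W u)`.
1. Some `j < k` has `analyticOrderAt (c j) 0 < k + 1 - j`: `exists_slice` gives `SliceLE k W` (`v = (1, v)`), hence
   `SliceLE k (W u)` (the slice of the unit `u` has order `0`; `analyticOrderAt_mul`), and `hk` finishes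
   (`W u` is analytic at `0`: it agrees near `0` with `(∑ …) u`; note `W` itself is only eventually equal to an analytic
   function, which suffices).
2. Otherwise `nf_blow` applies.  `S = {c₀ | P c₀ = 0}`, `P c₀ = ∑ γ_j c₀^j + U₀ c₀^(k+1)`, is finite
   (`finite_roots`); use `uniform`.  For every `c₀`: near `0`, with `mono_bl`,
   `g (bl c₀ x) = x^(a+b) D^b' e ⬝ x^(k+1) ψ u'` (`u' = u ∘ bl c₀`), that is
   `x^(a+b+k+1) D^b' (ψ u' e)`, with `(x, D)` local coordinates and `e, u'` units.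
   * `c₀ ∉ S`: `ψ 0 = P c₀ ≠ 0`: `Mono`.
   * `c₀ ∈ S`, some `γ_j ≠ 0` (`j < k`): by `order_root` the slice of `ψ` along `(0, 1)` has order `≤ k`: `hk` for
     `ψ u' e` and the coordinates `(x, D)`.
   * `c₀ ∈ S`, all `γ_j = 0`: then `U₀ c₀^(k+1) = 0`, so `c₀ = 0`, and `IsNF k c' ψ`; for the given `j` with
     `analyticOrderAt (c j) 0 = K`: `K = (k+1-j) + ord (c' j)`, so `ord (c' j) = K' < K`: induction hypothesis with
     `W := ψ`, the unit `u' e` and the coordinates `(x, D)`.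
   * the chart `blInf`: `mono_blInf`, `g (blInf x) = y^(a+b+k+1) D^b' (ψ u' e)` with `ψ 0 ≠ 0`: `Mono` (coordinates
     `(y, D)`).
-/

open Topology Filter

noncomputable section

namespace Pool.Agent.H17BP

attribute [-instance] ProperSMul.toContinuousSMul

/-- The order of some slice is at most `m`. -/
def SliceLE (m : ℕ) (φ : ℂ × ℂ → ℂ) : Prop :=
  ∃ v : ℂ × ℂ, analyticOrderAt (fun z : ℂ => φ (z * v.1, z * v.2)) 0 ≤ (m : ℕ∞)

/-- The induction hypothesis of the resolution theorem. -/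
def Claim (m : ℕ) : Prop :=
  ∀ φ : ℂ × ℂ → ℂ, AnalyticAt ℂ φ 0 → SliceLE m φ → ∀ D₁ D₂, Coord D₁ D₂ → ∀ a b : ℕ,
    ∃ N, ResN N (fun x => D₁ x ^ a * D₂ x ^ b * φ x)

/-- slices are analytic -/
theorem ArtA_slice_an {φ : ℂ × ℂ → ℂ} (hφ : AnalyticAt ℂ φ 0) (v : ℂ × ℂ) :
    AnalyticAt ℂ (fun z : ℂ => φ (z * v.1, z * v.2)) 0 := by
  have h1 : AnalyticAt ℂ (fun z : ℂ => (z * v.1, z * v.2)) 0 :=
    (analyticAt_id.mul analyticAt_const).prod (analyticAt_id.mul analyticAt_const)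
  have h2 : AnalyticAt ℂ φ ((fun z : ℂ => (z * v.1, z * v.2)) 0) := by
    have h3 : (fun z : ℂ => (z * v.1, z * v.2)) 0 = 0 := by simp
    rw [h3]
    exact hφ
  exact AnalyticAt.comp (g := φ) (f := fun z : ℂ => (z * v.1, z * v.2)) h2 h1

/-- a unit does not change the order of a slice -/
theorem ArtA_slice_mul {φ u : ℂ × ℂ → ℂ} (hφ : AnalyticAt ℂ φ 0) (hu : AnalyticAt ℂ u 0) (hu0 : u 0 ≠ 0)
    {m : ℕ} (h : SliceLE m φ) : SliceLE m (fun x => φ x * u x) := by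
  obtain ⟨v, hv⟩ := h
  refine ⟨v, ?_⟩
  have h1 := ArtA_slice_an hφ v
  have h2 := ArtA_slice_an hu v
  have h3 : analyticOrderAt (fun z : ℂ => u (z * v.1, z * v.2)) 0 = 0 := by
    rw [h2.analyticOrderAt_eq_zero]
    have h5 : ((0 : ℂ) * v.1, (0 : ℂ) * v.2) = 0 := by simp
    rw [h5]
    exact hu0
  have h4 : (fun z : ℂ => (fun x => φ x * u x) (z * v.1, z * v.2)) =
      (fun z : ℂ => φ (z * v.1, z * v.2)) * fun z : ℂ => u (z * v.1, z * v.2) := rfl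
  rw [h4, analyticOrderAt_mul h1 h2, h3, add_zero]
  exact hv

/-- functions in normal form are analytic -/
theorem ArtA_nf_an {k : ℕ} {c : ℕ → ℂ → ℂ} {W : ℂ × ℂ → ℂ} (h : IsNF k c W) : AnalyticAt ℂ W 0 := by
  obtain ⟨h1, U, hU, -, h2⟩ := h
  have h3 : AnalyticAt ℂ (fun x : ℂ × ℂ => ∑ j ∈ Finset.range k, c j x.1 * x.2 ^ j + x.2 ^ (k + 1) * U x) 0 := by
    refine AnalyticAt.add ?_ ((analyticAt_snd.pow _).mul hU)
    refine Finset.analyticAt_fun_sum _ fun j hj => ?_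
    have h4 : AnalyticAt ℂ (c j) ((fun x : ℂ × ℂ => x.1) 0) := (h1 j (Finset.mem_range.1 hj)).1
    exact (AnalyticAt.comp (g := c j) (f := fun x : ℂ × ℂ => x.1) h4 analyticAt_fst).mul (analyticAt_snd.pow _)
  exact h3.congr (h2.mono fun x hx => hx.symm)

/-- composition of a unit with a chart -/
theorem ArtA_comp_an {u : ℂ × ℂ → ℂ} {β : ℂ × ℂ → ℂ × ℂ} (hu : AnalyticAt ℂ u 0) (hβ : AnalyticAt ℂ β 0)
    (h0 : β 0 = 0) : AnalyticAt ℂ (fun x => u (β x)) 0 := by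
  have h1 : AnalyticAt ℂ u (β 0) := by
    rw [h0]
    exact hu
  exact AnalyticAt.comp (g := u) (f := β) h1 hβ

/-- the order of `x ^ n * f` -/
theorem ArtA_order {f g : ℂ → ℂ} {n K : ℕ} (hg : AnalyticAt ℂ g 0) (h : ∀ᶠ x in 𝓝 (0 : ℂ), f x = x ^ n * g x)
    (hK : analyticOrderAt f 0 = (K : ℕ∞)) : n ≤ K ∧ analyticOrderAt g 0 = ((K - n : ℕ) : ℕ∞) := by
  have h1 : analyticOrderAt f 0 = analyticOrderAt ((fun x : ℂ => x ^ n) * g) 0 := analyticOrderAt_congr h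
  have h2 : AnalyticAt ℂ (fun x : ℂ => x ^ n) 0 := analyticAt_id.pow n
  have h3 : analyticOrderAt (fun x : ℂ => x ^ n) 0 = (n : ℕ∞) := by
    rw [h2.analyticOrderAt_eq_natCast]
    refine ⟨fun _ => 1, analyticAt_const, one_ne_zero, ?_⟩
    filter_upwards with z
    simp
  rw [h1, analyticOrderAt_mul h2 hg, h3] at hK
  have h4 : analyticOrderAt g 0 ≠ ⊤ := by
    intro h5
    rw [h5, add_top] at hK
    exact ENat.top_ne_natCast K hK
  obtain ⟨L, hL⟩ := ENat.ne_top_iff_exists.1 h4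
  rw [← hL] at hK ⊢
  have h6 : n + L = K := by exact_mod_cast hK
  refine ⟨by omega, ?_⟩
  have h7 : L = K - n := by omega
  rw [h7]

theorem claim_inner {k : ℕ} (hk : Claim k) (K : ℕ) : ∀ {c : ℕ → ℂ → ℂ} {W : ℂ × ℂ → ℂ}, IsNF k c W →
    (∃ j < k, analyticOrderAt (c j) 0 = (K : ℕ∞)) → ∀ {D₁ D₂ : ℂ × ℂ → ℂ}, Coord D₁ D₂ → ∀ (a b : ℕ)
    {u : ℂ × ℂ → ℂ}, AnalyticAt ℂ u 0 → u 0 ≠ 0 →
    ∃ N, ResN N (fun x => D₁ x ^ a * D₂ x ^ b * (W x * u x)) := by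
  induction K using Nat.strong_induction_on with
  | _ K ih =>
  intro c W hW hj D₁ D₂ hD a b u hu hu0
  have hWan := ArtA_nf_an hW
  by_cases hs : ∃ j < k, analyticOrderAt (c j) 0 < ((k + 1 - j : ℕ) : ℕ∞)
  · obtain ⟨v, hv⟩ := exists_slice hW hs
    have h1 : SliceLE k W := by
      refine ⟨(1, v), ?_⟩
      simpa using hv
    exact hk _ (hWan.mul hu) (ArtA_slice_mul hWan hu hu0 h1) D₁ D₂ hD a b
  · push Not at hs
    obtain ⟨γ, U₀, c', hU₀, hc', hψ, ψ', hψ', hψ'0, hψ'e⟩ := nf_blow hW hs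
    have hpart : ∀ c₀ : ℂ, ∃ (D : ℂ × ℂ → ℂ) (b' : ℕ) (e ψ : ℂ × ℂ → ℂ), Coord (fun x => x.1) D ∧
        AnalyticAt ℂ e 0 ∧ e 0 ≠ 0 ∧ AnalyticAt ℂ ψ 0 ∧
        (∀ᶠ x in 𝓝 (0 : ℂ × ℂ), D₁ (bl c₀ x) ^ a * D₂ (bl c₀ x) ^ b * (W (bl c₀ x) * u (bl c₀ x)) =
          x.1 ^ (a + b + (k + 1)) * D x ^ b' * (ψ x * e x)) ∧
        (∀ᶠ w in 𝓝 (0 : ℂ), ψ (0, w) =
          ∑ j ∈ Finset.range k, γ j * (c₀ + w) ^ j + U₀ * (c₀ + w) ^ (k + 1)) ∧
        (c₀ = 0 → (∀ j < k, γ j = 0) → IsNF k c' ψ) := by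
      intro c₀
      obtain ⟨D, b', e, hDc, he, he0, hee⟩ := mono_bl hD a b c₀
      obtain ⟨ψ, hψa, hψe, hψw, hψn⟩ := hψ c₀
      have hu' := ArtA_comp_an hu (analyticAt_bl c₀ 0) (bl_zero c₀)
      refine ⟨D, b', fun x => u (bl c₀ x) * e x, ψ, hDc, hu'.mul he, ?_, hψa, ?_, hψw, hψn⟩
      · simp only [bl_zero]
        exact mul_ne_zero hu0 he0
      · filter_upwards [hee, hψe] with x h1 h2
        rw [h1, h2, pow_add x.1 (a + b) (k + 1)]
        ring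
    have hval : ∀ (c₀ : ℂ) (ψ : ℂ × ℂ → ℂ), (∀ᶠ w in 𝓝 (0 : ℂ), ψ (0, w) =
        ∑ j ∈ Finset.range k, γ j * (c₀ + w) ^ j + U₀ * (c₀ + w) ^ (k + 1)) →
        ψ 0 = ∑ j ∈ Finset.range k, γ j * c₀ ^ j + U₀ * c₀ ^ (k + 1) := by
      intro c₀ ψ h
      have h1 := h.self_of_nhds
      simp only [add_zero] at h1
      exact h1
    refine uniform (S := {c₀ : ℂ | ∑ j ∈ Finset.range k, γ j * c₀ ^ j + U₀ * c₀ ^ (k + 1) = 0})
      (finite_roots hU₀) ?_ ?_ ?_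
    · intro c₀ hc₀
      obtain ⟨D, b', e, ψ, hDc, he, he0, hψa, hψe, hψw, -⟩ := hpart c₀
      refine ⟨fun x => x.1, D, a + b + (k + 1), b', fun x => ψ x * e x, hDc, hψa.mul he, ?_, hψe⟩
      refine mul_ne_zero ?_ he0
      rw [hval c₀ ψ hψw]
      exact hc₀
    · intro c₀ hc₀
      obtain ⟨D, b', e, ψ, hDc, he, he0, hψa, hψe, hψw, hψn⟩ := hpart c₀
      by_cases hγ : ∃ j < k, γ j ≠ 0
      · have h1 : SliceLE k ψ := by
          refine ⟨(0, 1), ?_⟩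
          have h2 := order_root hU₀ hγ c₀
          have h3 : analyticOrderAt (fun z : ℂ => ψ (z * (0, (1 : ℂ)).1, z * ((0 : ℂ), (1 : ℂ)).2)) 0 =
              analyticOrderAt (fun w : ℂ => ∑ j ∈ Finset.range k, γ j * (c₀ + w) ^ j +
                U₀ * (c₀ + w) ^ (k + 1)) 0 := by
            refine analyticOrderAt_congr ?_
            filter_upwards [hψw] with w hw
            simpa using hw
          exact h3.trans_le h2
        obtain ⟨N, hN⟩ := hk _ (hψa.mul he) (ArtA_slice_mul hψa he he0 h1) _ _ hDc (a + b + (k + 1)) b'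
        exact ⟨N, hN.congr hψe⟩
      · push Not at hγ
        have hz : c₀ = 0 := by
          have h1 : ∑ j ∈ Finset.range k, γ j * c₀ ^ j + U₀ * c₀ ^ (k + 1) = 0 := hc₀
          rw [Finset.sum_eq_zero (fun j hj => by rw [hγ j (Finset.mem_range.1 hj), zero_mul]), zero_add] at h1
          rcases mul_eq_zero.1 h1 with h2 | h2
          · exact absurd h2 hU₀
          · exact eq_zero_of_pow_eq_zero h2
        have hn := hψn hz hγ
        obtain ⟨j, hjk, hjK⟩ := hj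
        obtain ⟨hc1, hc2, hc3⟩ := hc' j hjk
        obtain ⟨h4, h5⟩ := ArtA_order hc1 hc3 hjK
        obtain ⟨N, hN⟩ := ih (K - (k + 1 - j)) (by omega) hn ⟨j, hjk, h5⟩ hDc (a + b + (k + 1)) b' he he0
        exact ⟨N, hN.congr hψe⟩
    · obtain ⟨D, b', e, hDc, he, he0, hee⟩ := mono_blInf hD a b
      have hu' := ArtA_comp_an hu (analyticAt_blInf 0) blInf_zero
      refine ⟨0, ResN.of_mono ⟨fun x => x.2, D, a + b + (k + 1), b', fun x => ψ' x * (u (blInf x) * e x), hDc,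
        hψ'.mul (hu'.mul he), ?_, ?_⟩ 0⟩
      · refine mul_ne_zero hψ'0 (mul_ne_zero ?_ he0)
        simp only [blInf_zero]
        exact hu0
      · filter_upwards [hee, hψ'e] with x h1 h2
        simp only [Function.comp_apply]
        rw [h1, h2, pow_add x.2 (a + b) (k + 1)]
        ring

end Pool.Agent.H17BP

end
end

section

/-!
# A smooth curve tangent to an exceptional curve

Induction on `k` (the exponent is `k + 1`), `g = x^a y^b (x - y^(k+1) v(y))^n u`.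
Chart `blInf` (`x ↦ x y, y ↦ y`): `x^a y^(a+b+n) (x - y^k v(y))^n u'`, `u' = u ∘ blInf`.  If `k ≥ 1` this is the
induction hypothesis (with `b := a + b + n`); if `k = 0` the factor `x - v(y)` is a unit at `0`, so `Mono` with
`S = x.1, T = x.2`.
Chart `bl c` (`x ↦ x, y ↦ x (c + w)`): `x^(a+b+n) (c+w)^b (1 - x^k (c+w)^(k+1) v(x(c+w)))^n u'`.
 * `k ≥ 1`: the last factor is a unit at `0`, and `(c+w)^b` is a unit if `c ≠ 0` and `w^b` if `c = 0`: `Mono`.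
 * `k = 0`: `F' = 1 - (c+w) v(x(c+w))`.  `c = 0`: `F'` is a unit, `w^b`: `Mono`.  `c ≠ 0`: `(c+w)^b` is a unit; if
   `1 - c v(0) ≠ 0`: `F'` is a unit: `Mono` (`T = x.2`, exponent `0`); otherwise `F' 0 = 0`, `dy F' 0 = - v 0 ≠ 0`, so
   `(x, F')` are local coordinates (`coord_iff`): `Mono` with `S = x.1, T = F'`.
Use `resN_succ` (with `n = k`) and `ResN.of_mono`.
-/

open Topology Filter

noncomputable section

namespace Pool.Agent.H17BP

attribute [-instance] ProperSMul.toContinuousSMul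

private theorem TanK_unit_pow {f : ℂ × ℂ → ℂ} (hf : AnalyticAt ℂ f 0) (h0 : f 0 ≠ 0) (n : ℕ) :
    AnalyticAt ℂ (fun x => f x ^ n) 0 ∧ f 0 ^ n ≠ 0 := ⟨hf.pow n, pow_ne_zero n h0⟩

private theorem TanK_dy {f : ℂ × ℂ → ℂ} (hf : AnalyticAt ℂ f 0) {a : ℂ}
    (h : HasDerivAt (fun w : ℂ => f (0, w)) a 0) : dy f 0 = a := by
  have h1 : HasDerivAt (fun w : ℂ => ((0 : ℂ), w)) ((0 : ℂ), (1 : ℂ)) 0 :=
    (hasDerivAt_const (0 : ℂ) (0 : ℂ)).prodMk (hasDerivAt_id' (0 : ℂ))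
  have h2 : HasFDerivAt f (fderiv ℂ f 0) ((fun w : ℂ => ((0 : ℂ), w)) 0) :=
    hf.differentiableAt.hasFDerivAt
  have h3 := HasFDerivAt.comp_hasDerivAt (0 : ℂ) h2 h1
  exact h3.unique h

/-- the charts at the finite points -/
private theorem TanK_bl (k : ℕ) {v : ℂ → ℂ} (hv : AnalyticAt ℂ v 0) (hv0 : v 0 ≠ 0) (a b n : ℕ)
    {u : ℂ × ℂ → ℂ} (hu : AnalyticAt ℂ u 0) (hu0 : u 0 ≠ 0) (c : ℂ) :
    Mono ((fun x => x.1 ^ a * x.2 ^ b * (x.1 - x.2 ^ (k + 1) * v x.2) ^ n * u x) ∘ bl c) := by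
  have hub : AnalyticAt ℂ (fun x => u (bl c x)) 0 := by
    have h2 : AnalyticAt ℂ u (bl c 0) := by rw [bl_zero]; exact hu
    exact h2.comp (analyticAt_bl c 0)
  have hub0 : u (bl c 0) ≠ 0 := by rw [bl_zero]; exact hu0
  obtain ⟨ℓ, hℓ⟩ : ∃ ℓ : ℂ × ℂ → ℂ, ℓ = fun x => c + x.2 := ⟨_, rfl⟩
  have hℓa : AnalyticAt ℂ ℓ 0 := by
    rw [hℓ]
    exact analyticAt_const.add analyticAt_snd
  have hℓ0 : ℓ 0 = c := by rw [hℓ]; simp
  have hvc : AnalyticAt ℂ (fun x : ℂ × ℂ => v (x.1 * ℓ x)) 0 := by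
    have h2 : AnalyticAt ℂ v ((fun x : ℂ × ℂ => x.1 * ℓ x) 0) := by
      simpa using hv
    exact AnalyticAt.comp (g := v) (f := fun x : ℂ × ℂ => x.1 * ℓ x) h2 (analyticAt_fst.mul hℓa)
  obtain ⟨F, hF⟩ : ∃ F : ℂ × ℂ → ℂ, F = fun x => 1 - x.1 ^ k * ℓ x ^ (k + 1) * v (x.1 * ℓ x) :=
    ⟨_, rfl⟩
  have hFa : AnalyticAt ℂ F 0 := by
    rw [hF]
    exact analyticAt_const.sub (((analyticAt_fst.pow k).mul (hℓa.pow (k + 1))).mul hvc)
  have hF0 : F 0 = 1 - 0 ^ k * c ^ (k + 1) * v 0 := by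
    rw [hF]
    simp only [hℓ0, Prod.fst_zero, zero_mul]
  have hg : ∀ x, ((fun x : ℂ × ℂ => x.1 ^ a * x.2 ^ b * (x.1 - x.2 ^ (k + 1) * v x.2) ^ n * u x) ∘
      bl c) x = x.1 ^ (a + b + n) * (ℓ x ^ b * F x ^ n * u (bl c x)) := by
    intro x
    have e1 : x.1 - (x.1 * ℓ x) ^ (k + 1) * v (x.1 * ℓ x) = x.1 * F x := by
      rw [hF]
      ring
    have e2 : (bl c x).2 = x.1 * ℓ x := by rw [hℓ]; rfl
    have e3 : (bl c x).1 = x.1 := rfl
    simp only [Function.comp_apply]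
    rw [e2, e3, e1]
    ring
  by_cases h0 : F 0 = 0
  · -- the curve passes through this point
    have hk : k = 0 := by
      by_contra hk
      rw [hF0, zero_pow hk, zero_mul, zero_mul, sub_zero] at h0
      exact one_ne_zero h0
    subst hk
    have hc : c ≠ 0 := by
      intro hc
      rw [hF0, hc] at h0
      simp at h0
    have hdy : dy F 0 = -v 0 := by
      refine TanK_dy hFa ?_
      have e1 : (fun w : ℂ => F (0, w)) = fun w => 1 - (c + w) * v 0 := by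
        funext w
        rw [hF, hℓ]
        simp
      rw [e1]
      have h1 : HasDerivAt (fun w : ℂ => (c + w) * v 0) (1 * v 0) 0 :=
        ((hasDerivAt_id' (0 : ℂ)).const_add c).mul_const (v 0)
      have h2 := h1.const_sub 1
      rw [one_mul] at h2
      exact h2
    have hcoord : Coord (fun x => x.1) F := by
      rw [coord_iff analyticAt_fst hFa rfl h0, hdy]
      have e1 : dx (fun x : ℂ × ℂ => x.1) 0 = 1 := by
        unfold dx
        rw [fderiv_fst]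
        rfl
      have e2 : dy (fun x : ℂ × ℂ => x.1) 0 = 0 := by
        unfold dy
        rw [fderiv_fst]
        rfl
      rw [e1, e2]
      simpa using hv0
    obtain ⟨p1, p2⟩ := TanK_unit_pow hℓa (by rw [hℓ0]; exact hc) b
    refine ⟨fun x => x.1, F, a + b + n, n, fun x => ℓ x ^ b * u (bl c x), hcoord, p1.mul hub,
      mul_ne_zero p2 hub0, Eventually.of_forall fun x => ?_⟩
    rw [hg x]
    ring
  · obtain ⟨q1, q2⟩ := TanK_unit_pow hFa h0 n
    by_cases hc : c = 0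
    · refine ⟨fun x => x.1, fun x => x.2, a + b + n, b, fun x => F x ^ n * u (bl c x),
        coord_fst_snd, q1.mul hub, mul_ne_zero q2 hub0, Eventually.of_forall fun x => ?_⟩
      have e1 : ℓ x = x.2 := by rw [hℓ, hc]; simp
      rw [hg x, e1]
      ring
    · obtain ⟨p1, p2⟩ := TanK_unit_pow hℓa (by rw [hℓ0]; exact hc) b
      refine ⟨fun x => x.1, fun x => x.2, a + b + n, 0,
        fun x => ℓ x ^ b * F x ^ n * u (bl c x), coord_fst_snd, (p1.mul q1).mul hub,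
        mul_ne_zero (mul_ne_zero p2 q2) hub0, Eventually.of_forall fun x => ?_⟩
      rw [hg x]
      ring

theorem res_tangent (k : ℕ) : ∀ {v : ℂ → ℂ} (_ : AnalyticAt ℂ v 0) (_ : v 0 ≠ 0) (a b n : ℕ)
    {u : ℂ × ℂ → ℂ} (_ : AnalyticAt ℂ u 0) (_ : u 0 ≠ 0),
    ResN (k + 1) (fun x => x.1 ^ a * x.2 ^ b * (x.1 - x.2 ^ (k + 1) * v x.2) ^ n * u x) := by
  have huc : ∀ {u : ℂ × ℂ → ℂ}, AnalyticAt ℂ u 0 → u 0 ≠ 0 →
      AnalyticAt ℂ (fun x => u (blInf x)) 0 ∧ u (blInf 0) ≠ 0 := by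
    intro u hu hu0
    have h2 : AnalyticAt ℂ u (blInf 0) := by rw [blInf_zero]; exact hu
    exact ⟨h2.comp (analyticAt_blInf 0), by rw [blInf_zero]; exact hu0⟩
  induction k with
  | zero =>
    intro v hv hv0 a b n u hu hu0
    refine resN_succ (fun c => ResN.of_mono (TanK_bl 0 hv hv0 a b n hu hu0 c) 0) ?_
    obtain ⟨w1, w2⟩ := huc hu hu0
    have hw : AnalyticAt ℂ (fun x : ℂ × ℂ => x.1 - v x.2) 0 := by
      have h2 : AnalyticAt ℂ v ((0 : ℂ × ℂ).2) := by simpa using hv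
      exact analyticAt_fst.sub (AnalyticAt.comp (g := v) (f := fun x : ℂ × ℂ => x.2) h2 analyticAt_snd)
    obtain ⟨q1, q2⟩ := TanK_unit_pow hw (by simpa using hv0) n
    refine ⟨fun x => x.1, fun x => x.2, a, a + b + n,
      fun x => (x.1 - v x.2) ^ n * u (blInf x), coord_fst_snd, q1.mul w1, mul_ne_zero q2 w2,
      Eventually.of_forall fun x => ?_⟩
    have e1 : (blInf x).1 = x.1 * x.2 := rfl
    have e2 : (blInf x).2 = x.2 := rfl
    have e3 : x.1 * x.2 - x.2 ^ (0 + 1) * v x.2 = x.2 * (x.1 - v x.2) := by ring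
    simp only [Function.comp_apply]
    rw [e1, e2, e3, mul_pow x.2]
    ring
  | succ k ih =>
    intro v hv hv0 a b n u hu hu0
    refine resN_succ (fun c => ResN.of_mono (TanK_bl (k + 1) hv hv0 a b n hu hu0 c) (k + 1)) ?_
    obtain ⟨w1, w2⟩ := huc hu hu0
    refine (ih hv hv0 a (a + b + n) n w1 w2).congr (Eventually.of_forall fun x => ?_)
    have e1 : (blInf x).1 = x.1 * x.2 := rfl
    have e2 : (blInf x).2 = x.2 := rfl
    have e3 : x.1 * x.2 - x.2 ^ (k + 1 + 1) * v x.2 = x.2 * (x.1 - x.2 ^ (k + 1) * v x.2) := by ring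
    simp only [Function.comp_apply]
    rw [e1, e2, e3, mul_pow x.2]
    ring

end Pool.Agent.H17BP

end
end

section

/-!
# A power of a smooth germ times exceptional curves

Let `θ'` be the inverse of the coordinate change `θ = (D₁, D₂)`; by `ResN.of_comp` (with `θ'`) it is enough to treat
`g ∘ θ' = x^a y^b (F ∘ θ')^n (u ∘ θ')`, and `F' = F ∘ θ'` has `F' 0 = 0` and a non-zero partial derivative (chain
rule: `fderiv F' 0 = fderiv F 0 ∘ fderiv θ' 0` and `fderiv θ' 0` is surjective).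
If `dx F' 0 ≠ 0`: `smooth_normal`: either `F' = x u'`: `Mono` with `S = x, T = y`, exponents `a + n`, `b`; or
`F' = (x - y^(k+1) v) u'`: `res_tangent`.
If `dy F' 0 ≠ 0`: compose with the swap (a `Bihol` map, `ResN.of_comp`) and exchange `a` and `b`.
-/

open Topology Filter

noncomputable section

namespace Pool.Agent.H17BP

attribute [-instance] ProperSMul.toContinuousSMul

private theorem PowF_lin (L : ℂ × ℂ →L[ℂ] ℂ) (h1 : L (1, 0) = 0) (h2 : L (0, 1) = 0) (w : ℂ × ℂ) : L w = 0 := by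
  have e : w = w.1 • ((1 : ℂ), (0 : ℂ)) + w.2 • ((0 : ℂ), (1 : ℂ)) := by
    ext <;> simp
  rw [e, map_add, map_smul, map_smul, h1, h2]
  simp

private theorem PowF_an {f : ℂ × ℂ → ℂ} (hf : AnalyticAt ℂ f 0) {θ : ℂ × ℂ → ℂ × ℂ} (hθ : Bihol θ) :
    AnalyticAt ℂ (fun x => f (θ x)) 0 := by
  have h2 : AnalyticAt ℂ f (θ 0) := by rw [hθ.zero]; exact hf
  exact AnalyticAt.comp (g := f) (f := θ) h2 hθ.an

private theorem PowF_x {F : ℂ × ℂ → ℂ} (hF : AnalyticAt ℂ F 0) (h0 : F 0 = 0) (h1 : dx F 0 ≠ 0) (a b n : ℕ)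
    {u : ℂ × ℂ → ℂ} (hu : AnalyticAt ℂ u 0) (hu0 : u 0 ≠ 0) :
    ∃ N, ResN N (fun x => x.1 ^ a * x.2 ^ b * F x ^ n * u x) := by
  obtain ⟨w, hw, hw0, h | ⟨k, v, hv, hv0, h⟩⟩ := smooth_normal hF h0 h1
  · refine ⟨0, fun x => x.1, fun x => x.2, a + n, b, fun x => w x ^ n * u x, coord_fst_snd, (hw.pow n).mul hu,
      mul_ne_zero (pow_ne_zero n hw0) hu0, ?_⟩
    filter_upwards [h] with x hx
    rw [hx]; ring
  · refine ⟨k + 1, (res_tangent k hv hv0 a b n (u := fun x => w x ^ n * u x) ((hw.pow n).mul hu)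
      (mul_ne_zero (pow_ne_zero n hw0) hu0)).congr ?_⟩
    filter_upwards [h] with x hx
    rw [hx, mul_pow]; ring

private theorem PowF_xy {F : ℂ × ℂ → ℂ} (hF : AnalyticAt ℂ F 0) (h0 : F 0 = 0) (h1 : dx F 0 ≠ 0 ∨ dy F 0 ≠ 0)
    (a b n : ℕ) {u : ℂ × ℂ → ℂ} (hu : AnalyticAt ℂ u 0) (hu0 : u 0 ≠ 0) :
    ∃ N, ResN N (fun x => x.1 ^ a * x.2 ^ b * F x ^ n * u x) := by
  rcases h1 with h1 | h1
  · exact PowF_x hF h0 h1 a b n hu hu0
  · have hs : Bihol (fun x : ℂ × ℂ => (x.2, x.1)) := coord_fst_snd.symm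
    have hd : dx (fun x : ℂ × ℂ => F (x.2, x.1)) 0 = dy F 0 := by
      have h3 : HasFDerivAt (fun x : ℂ × ℂ => (x.2, x.1))
          ((ContinuousLinearMap.snd ℂ ℂ ℂ).prod (ContinuousLinearMap.fst ℂ ℂ ℂ)) 0 :=
        hasFDerivAt_snd.prodMk hasFDerivAt_fst
      have h4 : HasFDerivAt F (fderiv ℂ F 0) ((fun x : ℂ × ℂ => (x.2, x.1)) 0) := hF.differentiableAt.hasFDerivAt
      have h5 := h4.comp (0 : ℂ × ℂ) h3
      unfold dx dy
      have h6 : fderiv ℂ (fun x : ℂ × ℂ => F (x.2, x.1)) 0 = (fderiv ℂ F 0).comp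
          ((ContinuousLinearMap.snd ℂ ℂ ℂ).prod (ContinuousLinearMap.fst ℂ ℂ ℂ)) := h5.fderiv
      rw [h6]
      simp
    obtain ⟨N, hN⟩ := PowF_x (PowF_an hF hs) h0 (by rw [hd]; exact h1) b a n (PowF_an hu hs) hu0
    refine ⟨N, ResN.of_comp hs (hN.congr (Eventually.of_forall fun x => ?_))⟩
    simp only [Function.comp_apply]
    ring

theorem res_pow {F : ℂ × ℂ → ℂ} (hF : AnalyticAt ℂ F 0) (h0 : F 0 = 0) (h1 : dx F 0 ≠ 0 ∨ dy F 0 ≠ 0)
    {D₁ D₂ : ℂ × ℂ → ℂ} (hD : Coord D₁ D₂) (a b n : ℕ) {u : ℂ × ℂ → ℂ} (hu : AnalyticAt ℂ u 0)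
    (hu0 : u 0 ≠ 0) : ∃ N, ResN N (fun x => D₁ x ^ a * D₂ x ^ b * F x ^ n * u x) := by
  have hD' : Bihol (fun x => (D₁ x, D₂ x)) := hD
  obtain ⟨θ', hθ', h3, h4⟩ := hD'.exists_inv
  have hF' := PowF_an hF hθ'
  have h1' : dx (fun x => F (θ' x)) 0 ≠ 0 ∨ dy (fun x => F (θ' x)) 0 ≠ 0 := by
    by_contra hcon
    rw [not_or, not_not, not_not] at hcon
    have hz := PowF_lin (fderiv ℂ (fun x => F (θ' x)) 0) hcon.1 hcon.2
    have hev : F =ᶠ[𝓝 0] (fun x => F (θ' x)) ∘ (fun x => (D₁ x, D₂ x)) := by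
      filter_upwards [h3] with x hx
      simp only [Function.comp_apply]
      rw [hx]
    have h5 : HasFDerivAt (fun x => F (θ' x)) (fderiv ℂ (fun x => F (θ' x)) 0) ((fun x => (D₁ x, D₂ x)) 0) := by
      have h8 : (fun x => (D₁ x, D₂ x)) (0 : ℂ × ℂ) = 0 := hD'.zero
      rw [h8]
      exact hF'.differentiableAt.hasFDerivAt
    have h6 := h5.comp (0 : ℂ × ℂ) hD'.an.differentiableAt.hasFDerivAt
    have h7 := (h6.congr_of_eventuallyEq hev).fderiv
    rcases h1 with h1 | h1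
    · apply h1
      unfold dx
      rw [h7]
      exact hz _
    · apply h1
      unfold dy
      rw [h7]
      exact hz _
  obtain ⟨N, hN⟩ := PowF_xy hF' (by simp only [hθ'.zero]; exact h0) h1' a b n (PowF_an hu hθ')
    (by simp only [hθ'.zero]; exact hu0)
  refine ⟨N, ResN.of_comp hθ' (hN.congr ?_)⟩
  filter_upwards [h4] with x hx
  have e1 : D₁ (θ' x) = x.1 := congrArg Prod.fst hx
  have e2 : D₂ (θ' x) = x.2 := congrArg Prod.snd hx
  simp only [Function.comp_apply]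
  rw [e1, e2]

end Pool.Agent.H17BP

end
end

section

/-!
# Resolution of the singularities of a plane curve germ

`claim_zero`: a slice of order `0` means `φ 0 ≠ 0` (the slice at `z = 0` is `φ 0`): `Mono`, `ResN 0`.
`claim_succ`: let the slice of `φ` along `v` have order `≤ k + 1`.  If it is `≤ k`: `hk`.  So let it be `k + 1`; then
`v ≠ 0` (the slice along `0` is constant: order `0` or `⊤`).  `exists_lin`: `θ` with `θ (0, y) = y v`, so
`φ₁ = φ ∘ θ` has `analyticOrderAt (fun y => φ₁ (0, y)) 0 = k + 1`; `exists_nf`: with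
`θ₂ (x, y) = (x, y + ρ x)` (`bihol_shift`) `φ₁ ∘ θ₂` is `IsNF k c`.  Let `Θ = θ ∘ θ₂`; by `ResN.of_comp` it is enough
to treat `(D₁ ∘ Θ)^a (D₂ ∘ Θ)^b (φ ∘ Θ)`, with `φ ∘ Θ` in normal form `IsNF k c` and `Coord (D₁ ∘ Θ) (D₂ ∘ Θ)`
(`Bihol.comp`).  If some `c j`, `j < k`, has finite order: `claim_inner` with `u = 1`.  Otherwise all `c j` vanish
near `0` and `φ ∘ Θ = y^(k+1) U` near `0` (the condition near `x = 0` pulls back to the product neighbourhood):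
`res_pow` with `F = x.2` (`dy F 0 = 1`), `n = k + 1`.
-/

open Topology Filter

noncomputable section

namespace Pool.Agent.H17BP

attribute [-instance] ProperSMul.toContinuousSMul

theorem claim_zero : Claim 0 := by
  intro φ hφ hs D₁ D₂ hD a b
  obtain ⟨v, hv⟩ := hs
  have h1 : analyticOrderAt (fun z : ℂ => φ (z * v.1, z * v.2)) 0 = 0 := by
    simpa using hv
  rw [(ArtA_slice_an hφ v).analyticOrderAt_eq_zero] at h1
  have h2 : ((0 : ℂ) * v.1, (0 : ℂ) * v.2) = 0 := by simp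
  rw [h2] at h1
  exact ⟨0, D₁, D₂, a, b, φ, hD, hφ, h1, Eventually.of_forall fun x => rfl⟩

theorem claim_succ {k : ℕ} (hk : Claim k) : Claim (k + 1) := by
  intro φ hφ hs D₁ D₂ hD a b
  by_cases hs1 : SliceLE k φ
  · exact hk φ hφ hs1 D₁ D₂ hD a b
  obtain ⟨v, hv⟩ := hs
  have hv1 : ((k : ℕ) : ℕ∞) < analyticOrderAt (fun z : ℂ => φ (z * v.1, z * v.2)) 0 := by
    by_contra h
    push Not at h
    exact hs1 ⟨v, h⟩
  have hv2 : analyticOrderAt (fun z : ℂ => φ (z * v.1, z * v.2)) 0 = ((k + 1 : ℕ) : ℕ∞) := by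
    refine le_antisymm hv ?_
    have h1 := Order.add_one_le_of_lt hv1
    exact_mod_cast h1
  have hv0 : v ≠ 0 := by
    intro h
    subst h
    have h1 := ArtA_slice_an hφ 0
    have h2 : analyticOrderAt (fun z : ℂ => φ (z * (0 : ℂ × ℂ).1, z * (0 : ℂ × ℂ).2)) 0 ≠ ⊤ := by
      rw [hv2]
      exact ENat.natCast_ne_top _
    have h3 : analyticOrderAt (fun z : ℂ => φ (z * (0 : ℂ × ℂ).1, z * (0 : ℂ × ℂ).2)) 0 ≠ 0 := by
      rw [hv2]
      exact_mod_cast Nat.succ_ne_zero k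
    rw [Ne, h1.analyticOrderAt_eq_zero, not_not] at h3
    rw [Ne, analyticOrderAt_eq_top] at h2
    refine h2 (Eventually.of_forall fun z => ?_)
    simpa using h3
  obtain ⟨θ, hθ, hθy⟩ := exists_lin hv0
  have hφ1 : AnalyticAt ℂ (fun x => φ (θ x)) 0 := ArtA_comp_an hφ hθ.an hθ.zero
  have ho : analyticOrderAt (fun y : ℂ => (fun x => φ (θ x)) (0, y)) 0 = ((k + 1 : ℕ) : ℕ∞) := by
    have h1 : (fun y : ℂ => (fun x => φ (θ x)) (0, y)) = fun z : ℂ => φ (z * v.1, z * v.2) := by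
      funext y
      simp only [hθy]
    rw [h1]
    exact hv2
  obtain ⟨ρ, hρ, hρ0, c, hc⟩ := exists_nf hφ1 ho
  have hθ2 := bihol_shift hρ hρ0
  have hΘ := hθ.comp hθ2
  obtain ⟨Θ, hΘe⟩ : ∃ Θ : ℂ × ℂ → ℂ × ℂ, Θ = θ ∘ fun x : ℂ × ℂ => (x.1, x.2 + ρ x.1) := ⟨_, rfl⟩
  rw [← hΘe] at hΘ
  have hc' : IsNF k c (φ ∘ Θ) := by
    rw [hΘe]
    exact hc
  have hDΘ : Coord (D₁ ∘ Θ) (D₂ ∘ Θ) := Bihol.comp hD hΘ
  have hfin : ∃ N, ResN N ((fun x => D₁ x ^ a * D₂ x ^ b * φ x) ∘ Θ) := by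
    by_cases hf : ∃ j < k, analyticOrderAt (c j) 0 ≠ ⊤
    · obtain ⟨j, hjk, hj⟩ := hf
      obtain ⟨K, hK⟩ := ENat.ne_top_iff_exists.1 hj
      obtain ⟨N, hN⟩ := claim_inner hk K hc' ⟨j, hjk, hK.symm⟩ hDΘ a b (u := fun _ => 1) analyticAt_const
        one_ne_zero
      refine ⟨N, hN.congr (Eventually.of_forall fun x => ?_)⟩
      simp
    · push Not at hf
      obtain ⟨-, U, hU, hU0, hUe⟩ := hc'
      have h1 : ∀ᶠ x in 𝓝 (0 : ℂ × ℂ), ∀ j ∈ Finset.range k, c j x.1 = 0 := by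
        rw [Finset.eventually_all]
        intro j hj
        have h2 := analyticOrderAt_eq_top.1 (hf j (Finset.mem_range.1 hj))
        have h3 : Tendsto (fun x : ℂ × ℂ => x.1) (𝓝 0) (𝓝 0) := continuous_fst.tendsto 0
        exact h3.eventually h2
      obtain ⟨N, hN⟩ := res_pow (F := fun x : ℂ × ℂ => x.2) analyticAt_snd rfl (Or.inr (by
        have h2 : fderiv ℂ (fun x : ℂ × ℂ => x.2) 0 = ContinuousLinearMap.snd ℂ ℂ ℂ := fderiv_snd
        unfold dy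
        rw [h2]
        simp)) hDΘ a b (k + 1) hU hU0
      refine ⟨N, hN.congr ?_⟩
      filter_upwards [hUe, h1] with x h2 h3
      simp only [Function.comp_apply] at h2 ⊢
      rw [h2, Finset.sum_eq_zero (fun j hj => by rw [h3 j hj, zero_mul]), zero_add]
      ring
  obtain ⟨N, hN⟩ := hfin
  exact ⟨N, ResN.of_comp hΘ hN⟩

theorem claim (m : ℕ) : Claim m := by
  induction m with
  | zero => exact claim_zero
  | succ k ih => exact claim_succ ih

/-- **Resolution of a plane curve germ** by finitely many point blow-ups. -/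
theorem exists_resN {g : ℂ × ℂ → ℂ} (hg : AnalyticAt ℂ g 0) (h : ¬ ∀ᶠ x in 𝓝 (0 : ℂ × ℂ), g x = 0) :
    ∃ n, ResN n g := by
  obtain ⟨m, v, hv⟩ := exists_slice_of_ne hg h
  obtain ⟨N, hN⟩ := claim m g hg ⟨v, hv⟩ _ _ coord_fst_snd 0 0
  exact ⟨N, hN.congr (Eventually.of_forall fun x => by simp)⟩

end Pool.Agent.H17BP

end
end
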