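import Pool.Agent.H94.CB.M32
import Pool.Agent.H94.CB.M66
import Pool.Agent.H94.CB.M70
import Pool.Agent.H94.CB.M88

/-! The parts of this file: H17BP.ResS_1, H17BP.BlowM. -/

section

/-!
# The resolution number at a point of the surface

* `ResAt.chart`: let `σ, τ, g` be as in `ResAt`; `σ' p = c • σ (θ p)`, `c ≠ 0` near `0` (`IsChart.trans`).  As `B` is a cone,
  `σ' p ∈ B ↔ σ (θ p) ∈ B ↔ g (θ p) = 0`: `g ∘ θ` is a local equation, `ResN.comp`.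
* `ResAt.pr`: `IsChart.scale` of the chart (the value at `0` is `a • x = y`) and `ResAt.chart`.
* `ResAt.near`: for `y ∈ X` near `x`: `y = c • σ (τ y)`, `p = τ y` near `0` (`τ x = 0`); `p ≠ 0` because `y` is not proportional
  to `x = σ 0`.  `IsChart.near`: `x ↦ σ (p + x)` is a chart at `σ p`, `g (p + ·)` a local equation
  (`eventually_eventually_nhds`), `Mono` by `ResN.near`.  So `ResAt X B (σ p) 0`, then `ResAt.pr`.
* `exists_resAt`: choose a chart `σ` at `x` (`Surface.chart`) and `i` (`Eqs.gen`); `g p = Q i (σ p)` is analytic at `0`, and for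
  `p` near `0`: `σ p ∈ B ↔ g p = 0` (`mem_iff`, `gen`); `g` does not vanish identically near `0` by `thin`; `exists_resN`.
* `ResAt.of_notMem`: `x ∉ B`: with `i` and `g` as before, `g 0 = Q i x ≠ 0` (otherwise `x ∈ B` by `gen`,
  `self_of_nhds`), so `Mono g` with `a = b = 0`.
* `ResAt.nodal`: `g = S^a T^b u`.  Let `θ = (S, T)`, `θ'` the inverse germ; the chart `σ ∘ θ'` (`IsChart.comp`), in
  which `B` is given by `g (θ' x) = x.1^a x.2^b u(θ' x) = 0`.  If `a = b = 0`: not in `B` near `0`; `b = 0`, `a ≠ 0`: `x.1 = 0`;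
  `a ≠ 0`, `b ≠ 0`: `x.1 x.2 = 0`; `a = 0`, `b ≠ 0`: exchange `S`, `T` (`Coord.symm`).
-/

open Topology Filter

noncomputable section

namespace Pool.Agent.H17BP

attribute [-instance] ProperSMul.toContinuousSMul

variable {V : Type} [NormedAddCommGroup V] [NormedSpace ℂ V] {X B : Set V} {σ' : ℂ × ℂ → V} {τ' : V → ℂ × ℂ}
  {x y : V} {n k : ℕ}

theorem ResAt.mono_le (h : ResAt X B x n) (hnk : n ≤ k) : ResAt X B x k := by
  obtain ⟨σ, τ, g, h1, h2, h3, h4⟩ := h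
  exact ⟨σ, τ, g, h1, h2, h3, h4.mono_le hnk⟩

theorem ResAt.chart (hX : ∀ x ∈ X, ∀ c : ℂ, c ≠ 0 → c • x ∈ X) (hB : ∀ x ∈ B, ∀ c : ℂ, c ≠ 0 → c • x ∈ B)
    (h : ResAt X B x n) (h' : IsChart X σ' τ') (h0 : Pr (σ' 0) x) : ∃ g, LocalEq B σ' g ∧ ResN n g := by
  obtain ⟨σ, τ, g, hc, hx, hg, hr⟩ := h
  rw [← hx] at h0
  obtain ⟨θ, hθ, hev⟩ := IsChart.trans hX hc h' h0
  refine ⟨g ∘ θ, ⟨?_, ?_⟩, hr.comp hθ⟩
  · have h1 : AnalyticAt ℂ g (θ 0) := by rw [hθ.zero]; exact hg.1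
    exact h1.comp hθ.an
  · filter_upwards [hev, hθ.tendsto.eventually hg.2] with p hp1 hp2
    rw [ResS_pr_mem hB hp1]
    exact hp2

/-- Near `x` the curve is a monomial in local coordinates at all points different from `x`. -/
theorem ResAt.near [FiniteDimensional ℂ V] (hX : ∀ x ∈ X, ∀ c : ℂ, c ≠ 0 → c • x ∈ X) (hB : ∀ x ∈ B, ∀ c : ℂ, c ≠ 0 → c • x ∈ B)
    (h : ResAt X B x n) : ∀ᶠ y in 𝓝 x, y ∈ X → ¬ Pr y x → ResAt X B y 0 := by
  obtain ⟨σ, τ, g, hc, hx, hg, hr⟩ := h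
  have hτ0 : τ (σ 0) = 0 := hc.left.self_of_nhds
  have hτ : Tendsto τ (𝓝 (σ 0)) (𝓝 0) := by
    have h1 := hc.τ_an.continuousAt.tendsto
    rwa [hτ0] at h1
  have hadd : ∀ p : ℂ × ℂ, Tendsto (fun x : ℂ × ℂ => p + x) (𝓝 0) (𝓝 p) := fun p => by
    have h1 : Continuous fun x : ℂ × ℂ => p + x := by fun_prop
    have h2 := h1.tendsto 0
    simpa using h2
  have e1 : ∀ᶠ p in 𝓝 (0 : ℂ × ℂ), LocalEq B (fun x => σ (p + x)) (fun x => g (p + x)) := by
    filter_upwards [hg.1.eventually_analyticAt, eventually_eventually_nhds.2 hg.2] with p hp1 hp2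
    refine ⟨?_, (hadd p).eventually hp2⟩
    have h1 : AnalyticAt ℂ (fun x : ℂ × ℂ => p + x) 0 := analyticAt_const.add analyticAt_id
    have h2 : AnalyticAt ℂ g ((fun x : ℂ × ℂ => p + x) 0) := by
      simp only [add_zero]
      exact hp1
    exact h2.comp h1
  have e2 : ∀ᶠ p in 𝓝 (0 : ℂ × ℂ), p ≠ 0 → Mono fun x => g (p + x) :=
    eventually_nhdsWithin_iff.1 (ResN.near hr)
  have e3 : ∀ᶠ p in 𝓝 (0 : ℂ × ℂ), p ≠ 0 → ResAt X B (σ p) 0 := by
    filter_upwards [hc.near, e1, e2] with p hp1 hp2 hp3 hp0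
    exact ⟨_, _, _, hp1, by simp, hp2, hp3 hp0⟩
  rw [← hx]
  filter_upwards [hc.right, hτ.eventually e3] with y hy1 hy2 hyX hyn
  obtain ⟨c, hc0, hyc⟩ := hy1 hyX
  have hne : τ y ≠ 0 := by
    intro h0
    rw [h0] at hyc
    exact hyn ⟨c, hc0, hyc⟩
  exact (hy2 hne).pr hX hB ⟨c, hc0, hyc⟩

private theorem ResS_localEq (hX : Surface X) {κ : Type} {Q : κ → V → ℂ} {D : ℕ} (hE : Eqs X B Q D)
    (hx : x ∈ X) : ∃ σ τ g, IsChart X σ τ ∧ σ 0 = x ∧ LocalEq B σ g := by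
  obtain ⟨σ, τ, hc, hσ⟩ := hX.chart x hx
  obtain ⟨i, hi⟩ := hE.gen x hx
  refine ⟨σ, τ, fun p => Q i (σ p), hc, hσ, (hE.an i (σ 0)).comp hc.σ_an, ?_⟩
  have ht : Tendsto σ (𝓝 0) (𝓝 x) := by
    have h1 := hc.σ_an.continuousAt.tendsto
    rwa [hσ] at h1
  filter_upwards [hc.σ_mem, ht.eventually hi] with p hp1 hp2
  exact ⟨fun h => ((hE.mem_iff _).1 h).2 i, fun h => hp2 hp1 h⟩

theorem exists_resAt (hX : Surface X) {κ : Type} {Q : κ → V → ℂ} {D : ℕ} (hE : Eqs X B Q D)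
    (ht : ∀ σ τ, IsChart X σ τ → ∃ᶠ p in 𝓝 (0 : ℂ × ℂ), σ p ∉ B) (hx : x ∈ X) : ∃ n, ResAt X B x n := by
  obtain ⟨σ, τ, g, hc, hσ, hg⟩ := ResS_localEq hX hE hx
  have hne : ¬ ∀ᶠ p in 𝓝 (0 : ℂ × ℂ), g p = 0 := by
    intro h0
    have h1 := ht σ τ hc
    refine h1 ?_
    filter_upwards [hg.2, h0] with p hp1 hp2 hp3
    exact hp3 (hp1.2 hp2)
  obtain ⟨n, hn⟩ := exists_resN hg.1 hne
  exact ⟨n, σ, τ, g, hc, hσ, hg, hn⟩

theorem ResAt.of_notMem (hX : Surface X) {κ : Type} {Q : κ → V → ℂ} {D : ℕ} (hE : Eqs X B Q D) (hx : x ∈ X)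
    (hB : x ∉ B) : ResAt X B x 0 := by
  obtain ⟨σ, τ, g, hc, hσ, hg⟩ := ResS_localEq hX hE hx
  have h1 := hg.2.self_of_nhds
  rw [hσ] at h1
  have hne : g 0 ≠ 0 := fun h0 => hB (h1.2 h0)
  have hm : Mono g := ⟨_, _, 0, 0, g, coord_fst_snd, hg.1, hne, Eventually.of_forall fun p => by simp⟩
  exact ⟨σ, τ, g, hc, hσ, hg, hm⟩

private theorem ResS_nodal_aux {σ : ℂ × ℂ → V} {τ : V → ℂ × ℂ} {g : ℂ × ℂ → ℂ} (hc : IsChart X σ τ)
    (hx : σ 0 = x) (hg : LocalEq B σ g) {S T u : ℂ × ℂ → ℂ} {a b : ℕ} (hST : Coord S T)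
    (hu : AnalyticAt ℂ u 0) (hu0 : u 0 ≠ 0) (hev : ∀ᶠ x in 𝓝 0, g x = S x ^ a * T x ^ b * u x)
    (hab : a = 0 → b = 0) : NodalAt X B x := by
  have hθ : Bihol fun x => (S x, T x) := hST
  obtain ⟨θ', hθ', h1, h2⟩ := hθ.exists_inv
  have hne : ∀ᶠ p in 𝓝 (0 : ℂ × ℂ), u p ≠ 0 := hu.continuousAt.eventually_ne hu0
  have hkey : ∀ᶠ p in 𝓝 (0 : ℂ × ℂ), (σ (θ' p) ∈ B ↔ p.1 ^ a * p.2 ^ b = 0) := by
    filter_upwards [hθ'.tendsto.eventually hg.2, hθ'.tendsto.eventually hev, hθ'.tendsto.eventually hne, h2]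
      with p hp1 hp2 hp3 hp4
    have e1 : S (θ' p) = p.1 := congrArg Prod.fst hp4
    have e2 : T (θ' p) = p.2 := congrArg Prod.snd hp4
    rw [hp1, hp2, e1, e2, mul_eq_zero]
    exact ⟨fun h => h.resolve_right hp3, Or.inl⟩
  refine ⟨_, _, hc.comp hθ' hθ h2 h1, ?_, ?_⟩
  · show σ (θ' 0) = x
    rw [hθ'.zero, hx]
  · by_cases ha : a = 0
    · left
      have hb := hab ha
      subst ha
      subst hb
      filter_upwards [hkey] with p hp h3
      have h4 := hp.1 h3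
      simp at h4
    · right
      by_cases hb : b = 0
      · left
        subst hb
        filter_upwards [hkey] with p hp
        rw [hp, pow_zero, mul_one]
        exact ⟨fun h => eq_zero_of_pow_eq_zero h, fun h => by rw [h, zero_pow ha]⟩
      · right
        filter_upwards [hkey] with p hp
        rw [hp, mul_eq_zero, mul_eq_zero]
        refine or_congr ?_ ?_
        · exact ⟨fun h => eq_zero_of_pow_eq_zero h, fun h => by rw [h, zero_pow ha]⟩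
        · exact ⟨fun h => eq_zero_of_pow_eq_zero h, fun h => by rw [h, zero_pow hb]⟩

theorem ResAt.nodal (h : ResAt X B x 0) : NodalAt X B x := by
  obtain ⟨σ, τ, g, hc, hx, hg, hr⟩ := h
  obtain ⟨S, T, a, b, u, hST, hu, hu0, hev⟩ := (hr : Mono g)
  by_cases hab : a = 0 → b = 0
  · exact ResS_nodal_aux hc hx hg hST hu hu0 hev hab
  · push Not at hab
    refine ResS_nodal_aux hc hx hg hST.symm hu hu0 (a := b) (b := a) ?_ (fun h => absurd h hab.2)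
    filter_upwards [hev] with p hp
    rw [hp, mul_comm (S p ^ a)]

end Pool.Agent.H17BP

end
end

section

/-!
# The blow-up of a model at a point of the curve

* `exists_forms`: choose a continuous linear form `Λ` with `Λ q = 1` and a basis of `V` with coordinate forms `e_i`
  (`Module.finBasis`, `LinearMap.toContinuousLinearMap`); `l i v = e_i (v - Λ v • q)`.  All `l i v = 0` iff `v = Λ v • q`.
* `eqs_blow`: `mem_iff` is `H62.BU.total_eq`.  `gen` at `y ∈ blow`: choose `b` with `y b ≠ 0` (`exists_ne`) and `i` for the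
  point `y b ∈ X`.  For `y'` near `y` in the blow-up: `y' b ≠ 0`, `y' b ∈ X` near `y b`; `Q i (y' b) = 0` gives `y' b ∈ B`,
  so `y' ∈ total` (`mem_total_iff`).
* `thin_blow`: let `σ1` be a chart of the blow-up, `y = σ1 0`; take a chart `σ` of `X` at `q` and the chart of
  `H62.BU.blow_local` at `y`; by `IsChart.trans` (and the cone property of `total`) it is enough to treat this chart (if
  `σ1 p ∈ total` for all `p` near `0` then the same holds for the other chart: `Pr (σ1' p) (σ1 (θ p))`, `θ p → 0`).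
  First case: `thin` for the chart `σ'` of `X`.  Second case: otherwise `σ (e (p.1, p.1 * p.2)) ∈ B` for all `p` near `0`; so
  for a local equation `g` of `B` in the chart `σ` (`Eqs.gen`, `g = Q i ∘ σ`) `g (e (s, s * t)) = 0` for small `s, t`.
  `g ∘ e` is analytic on a ball around `0` and vanishes at `(s, u)` for small `s` and `|u| < δ |s|`, i.e. near the point
  `(s₀, 0)`, `s₀ ≠ 0` small; identity theorem on the ball (`AnalyticOnNhd.eqOn_zero_of_preconnected_of_eventuallyEq_zero`):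
  `g ∘ e = 0` near `0`, `g = 0` near `0`, against `thin` for `σ`.
* `resAt_blow`: let `σ, τ, g` be as in `ResAt X B q (n + 1)`.  As `Mono g` would give `ResAt X B q 0`, `ResN n (g ∘ β)` for all
  `BChart β`.  `H62.BU.blow_local` with the chart `σ` at `y`: second case: `β p = e (p.1, p.1 * p.2)` is a `BChart`
  (`e` is `Bihol`, `β = e ∘ bl 0 ∘ id`), `g ∘ β` is a local equation of `total` in the chart `σ1`.  First case:
  `x = σ' 0`, `y = c • phi l x`, `¬ Pr x q` because `l b x ≠ 0`; if `ResAt X B x k` then (`ResAt.chart`) there is `g` with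
  `LocalEq B σ' g`, `ResN k g`, and `LocalEq (total l X B) σ1 g`.
-/

open Topology Filter

noncomputable section

namespace Pool.Agent.H17BP

attribute [-instance] ProperSMul.toContinuousSMul

open Pool.Agent.H62.BU (blow total Ker phi)

variable {V : Type} [NormedAddCommGroup V] [NormedSpace ℂ V] {ι : Type} [Fintype ι] {l : ι → V →L[ℂ] ℂ}
  {X B : Set V} {q : V} {m j : ℕ} {Ω : V → V → V → ℂ} {κ : Type} {Q : κ → V → ℂ} {D : ℕ}

theorem exists_forms [FiniteDimensional ℂ V] (hq : q ≠ 0) : ∃ (r : ℕ) (l : Fin r → V →L[ℂ] ℂ), Ker l q := by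
  obtain ⟨Λ, hΛ⟩ := exists_dual_vector ℂ q (norm_ne_zero_iff.mpr hq)
  have hΛ0 : Λ q ≠ 0 := by
    rw [hΛ.2]
    simpa using hq
  obtain ⟨b, hb⟩ : ∃ b : Module.Basis (Fin (Module.finrank ℂ V)) ℂ V, b = Module.finBasis ℂ V :=
    ⟨_, rfl⟩
  refine ⟨Module.finrank ℂ V, fun i => (LinearMap.toContinuousLinearMap (b.coord i)).comp
    (Λ q • ContinuousLinearMap.id ℂ V - Λ.smulRight q), fun v => ?_⟩
  have hl : ∀ i, ((LinearMap.toContinuousLinearMap (b.coord i)).comp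
      (Λ q • ContinuousLinearMap.id ℂ V - Λ.smulRight q)) v = b.coord i (Λ q • v - Λ v • q) := by
    intro i
    simp
  constructor
  · intro h
    have h1 : Λ q • v - Λ v • q = 0 := by
      rw [← b.forall_coord_eq_zero_iff]
      intro i
      rw [← hl i]
      exact h i
    refine ⟨(Λ q)⁻¹ * Λ v, ?_⟩
    rw [mul_smul, ← sub_eq_zero.1 h1, smul_smul, inv_mul_cancel₀ hΛ0, one_smul]
  · rintro ⟨c, hc⟩ i
    rw [hl i]
    have h1 : Λ q • v - Λ v • q = 0 := by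
      rw [hc, map_smul, smul_eq_mul, smul_smul, mul_comm, sub_self]
    rw [h1, map_zero]

private theorem BlowM_proj {κ' : Type} (b : ι) {R : κ' → V → ℂ} {i : κ'} {x : ι → V}
    (h : AnalyticAt ℂ (R i) (x b)) : AnalyticAt ℂ (fun y : ι → V => R i (y b)) x :=
  AnalyticAt.comp (g := R i) (f := fun y : ι → V => y b) h
    ((ContinuousLinearMap.proj (R := ℂ) (φ := fun _ : ι => V) b).analyticAt x)

theorem eqs_blow (hX : Surface X) (hE : Eqs X B Q D) :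
    Eqs (blow l X) (total l X B) (fun (p : κ × ι) (y : ι → V) => Q p.1 (y p.2)) D := by
  have hX' := surface_iff.2 hX
  refine ⟨hE.pos, fun i x => BlowM_proj i.2 (hE.an i.1 _), fun i c x => hE.smul i.1 c _,
    fun y => ?_, fun y hy => ?_⟩
  · rw [H62.BU.total_eq hX' (by have := hE.pos; omega) hE.smul hE.mem_iff]
    exact ⟨fun h => ⟨h.1, fun i => h.2 i.1 i.2⟩, fun h => ⟨h.1, fun i b => h.2 (i, b)⟩⟩
  · obtain ⟨b, hb⟩ := H62.BU.exists_ne y hy
    obtain ⟨i, hi⟩ := hE.gen (y b) (H62.BU.comp_mem hX' y hy hb)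
    refine ⟨(i, b), ?_⟩
    have h1 : Tendsto (fun y' : ι → V => y' b) (𝓝 y) (𝓝 (y b)) := (continuous_apply b).tendsto y
    filter_upwards [h1.eventually hi, h1.eventually_ne hb] with y' h2 h3 hy' hQ
    rw [H62.BU.mem_total_iff hX' (hE.cone hX.smul) y' hy' h3]
    exact h2 (H62.BU.comp_mem hX' y' hy' h3) hQ

/-- a local equation -/
private theorem BlowM_eq (hE : Eqs X B Q D) {σ : ℂ × ℂ → V} {τ : V → ℂ × ℂ} (h : IsChart X σ τ) :
    ∃ g, LocalEq B σ g := by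
  obtain ⟨i, hi⟩ := hE.gen (σ 0) h.σ_mem.self_of_nhds
  refine ⟨fun p => Q i (σ p), (hE.an i _).comp h.σ_an, ?_⟩
  have h1 : Tendsto σ (𝓝 0) (𝓝 (σ 0)) := h.σ_an.continuousAt
  filter_upwards [h1.eventually hi, h.σ_mem] with p h2 h3
  exact ⟨fun h4 => ((hE.mem_iff _).1 h4).2 i, fun h4 => h2 h3 h4⟩

/-- a germ which vanishes after the blow-up vanishes -/
private theorem BlowM_van {G : ℂ × ℂ → ℂ} (hG : AnalyticAt ℂ G 0)
    (h : ∀ᶠ p : ℂ × ℂ in 𝓝 0, G (p.1, p.1 * p.2) = 0) : ∀ᶠ p in 𝓝 (0 : ℂ × ℂ), G p = 0 := by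
  obtain ⟨r, hr, hGr⟩ := hG.exists_ball_analyticOnNhd
  have ht : Tendsto (fun s : ℂ => ((s, 0) : ℂ × ℂ)) (𝓝[≠] 0) (𝓝 0) := by
    have h1 : Tendsto (fun s : ℂ => ((s, 0) : ℂ × ℂ)) (𝓝 0) (𝓝 (0, 0)) :=
      (continuous_id.prodMk continuous_const).tendsto 0
    exact h1.mono_left nhdsWithin_le_nhds
  obtain ⟨s, ⟨h1, h2⟩, h3⟩ := ((ht.eventually (h.eventually_nhds.and (Metric.ball_mem_nhds 0 hr))).and
    (self_mem_nhdsWithin : ∀ᶠ s in 𝓝[≠] (0 : ℂ), s ∈ ({0}ᶜ : Set ℂ))).exists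
  have hs : s ≠ 0 := h3
  have hψ : Tendsto (fun w : ℂ × ℂ => ((w.1, w.2 / w.1) : ℂ × ℂ)) (𝓝 (s, 0)) (𝓝 (s, 0)) := by
    have h4 : ContinuousAt (fun w : ℂ × ℂ => ((w.1, w.2 / w.1) : ℂ × ℂ)) (s, 0) :=
      continuousAt_fst.prodMk (continuousAt_snd.div continuousAt_fst hs)
    have h5 := h4.tendsto
    simp only [zero_div] at h5
    exact h5
  have hne : ∀ᶠ w : ℂ × ℂ in 𝓝 (s, 0), w.1 ≠ 0 := continuousAt_fst.eventually_ne hs
  have h6 : G =ᶠ[𝓝 (s, 0)] 0 := by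
    filter_upwards [hψ.eventually h1, hne] with w h7 h8
    rw [mul_div_cancel₀ _ h8] at h7
    exact h7
  have h7 := hGr.eqOn_zero_of_preconnected_of_eventuallyEq_zero
    (convex_ball (0 : ℂ × ℂ) r).isPreconnected h2 h6
  filter_upwards [Metric.ball_mem_nhds (0 : ℂ × ℂ) hr] with p hp
  exact h7 hp

private theorem BlowM_tendsto (e : (ℂ × ℂ) ≃L[ℂ] (ℂ × ℂ)) : Tendsto (fun p => e p) (𝓝 0) (𝓝 0) := by
  have h1 : Tendsto (fun p : ℂ × ℂ => e p) (𝓝 0) (𝓝 (e 0)) := e.continuous.tendsto 0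
  rwa [map_zero] at h1

/-- `B` is a proper subset also after the blow-up -/
private theorem BlowM_thin (hE : Eqs X B Q D) {σ : ℂ × ℂ → V} {τ : V → ℂ × ℂ} (h : IsChart X σ τ)
    (ht : ∃ᶠ p in 𝓝 (0 : ℂ × ℂ), σ p ∉ B) (e : (ℂ × ℂ) ≃L[ℂ] (ℂ × ℂ)) :
    ∃ᶠ p in 𝓝 (0 : ℂ × ℂ), σ (e (p.1, p.1 * p.2)) ∉ B := by
  intro hcon
  simp only [not_not] at hcon
  obtain ⟨g, hg, hgB⟩ := BlowM_eq hE h
  have hm : Tendsto (fun p : ℂ × ℂ => e (p.1, p.1 * p.2)) (𝓝 0) (𝓝 0) := by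
    refine (BlowM_tendsto e).comp ?_
    have h1 : Continuous (fun p : ℂ × ℂ => ((p.1, p.1 * p.2) : ℂ × ℂ)) := by fun_prop
    have h2 := h1.tendsto 0
    have e0 : ((0 : ℂ × ℂ).1, (0 : ℂ × ℂ).1 * (0 : ℂ × ℂ).2) = (0 : ℂ × ℂ) := by
      ext <;> simp
    rwa [e0] at h2
  have hG : AnalyticAt ℂ (fun p => g (e p)) 0 := by
    have h1 : AnalyticAt ℂ g (e 0) := by rw [map_zero]; exact hg
    exact h1.comp (e.toContinuousLinearMap.analyticAt 0)
  have h1 : ∀ᶠ p : ℂ × ℂ in 𝓝 0, g (e (p.1, p.1 * p.2)) = 0 := by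
    filter_upwards [hcon, hm.eventually hgB] with p h2 h3
    exact h3.1 h2
  have h2 := BlowM_van hG h1
  have h3 : ∀ᶠ p in 𝓝 (0 : ℂ × ℂ), g p = 0 := by
    filter_upwards [(BlowM_tendsto e.symm).eventually h2] with p h4
    rwa [ContinuousLinearEquiv.apply_symm_apply] at h4
  refine ht ?_
  filter_upwards [h3, hgB] with p h4 h5
  exact not_not.2 (h5.2 h4)

theorem thin_blow [FiniteDimensional ℂ V] (hX : Surface X) (hE : Eqs X B Q D)
    (ht : ∀ σ τ, IsChart X σ τ → ∃ᶠ p in 𝓝 (0 : ℂ × ℂ), σ p ∉ B) (hl : Ker l q) (hq : q ∈ B)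
    {σ1 : ℂ × ℂ → ι → V} {τ1 : (ι → V) → ℂ × ℂ} (h : IsChart (blow l X) σ1 τ1) :
    ∃ᶠ p in 𝓝 (0 : ℂ × ℂ), σ1 p ∉ total l X B := by
  have hX' := surface_iff.2 hX
  have hBc := hE.cone hX.smul
  have htc : ∀ x ∈ total l X B, ∀ c : ℂ, c ≠ 0 → c • x ∈ total l X B :=
    (eqs_blow (l := l) hX hE).cone H62.BU.blow_smul
  obtain ⟨σ, τ, hσ, hσ0⟩ := hX.chart q (hE.sub hq)
  -- it is enough to treat one chart
  have key : ∀ {σ2 : ℂ × ℂ → ι → V} {τ2 : (ι → V) → ℂ × ℂ}, IsChart (blow l X) σ2 τ2 →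
      σ2 0 = σ1 0 → (∃ᶠ p in 𝓝 (0 : ℂ × ℂ), σ2 p ∉ total l X B) →
      ∃ᶠ p in 𝓝 (0 : ℂ × ℂ), σ1 p ∉ total l X B := by
    intro σ2 τ2 h2 h20 hfr hcon
    simp only [not_not] at hcon
    obtain ⟨θ, hθ, hp⟩ := IsChart.trans H62.BU.blow_smul h h2 (by rw [h20]; exact Pr.refl _)
    refine hfr ?_
    filter_upwards [hp, hθ.tendsto.eventually hcon] with p h3 h4
    obtain ⟨c, hc, h5⟩ := h3
    rw [not_not, h5]
    exact htc _ h4 c hc
  rcases H62.BU.blow_local hX' hl (chart_iff.2 hσ) hσ0 hBc (σ1 0) h.σ_mem.self_of_nhds with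
    ⟨σ', τ', h1, -, σ2, τ2, h2, h3, -, h4⟩ | ⟨e, σ2, τ2, h2, h3, h4⟩
  · refine key (chart_iff.1 h2) h3 ?_
    refine ((ht σ' τ' (chart_iff.1 h1)).and_eventually h4).mono ?_
    rintro p ⟨h5, h6⟩ h7
    exact h5 (h6.1 h7)
  · refine key (chart_iff.1 h2) h3 ?_
    refine ((BlowM_thin hE hσ (ht σ τ hσ) e).and_eventually h4).mono ?_
    rintro p ⟨h5, h6⟩ h7
    exact h5 (h6.1 h7)

private theorem BlowM_bihol (e : (ℂ × ℂ) ≃L[ℂ] (ℂ × ℂ)) : Bihol (fun x => e x) :=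
  ⟨e.toContinuousLinearMap.analyticAt 0, map_zero e, fun x => e.symm x,
    e.symm.toContinuousLinearMap.analyticAt 0, map_zero e.symm,
    Eventually.of_forall fun x => e.symm_apply_apply x,
    Eventually.of_forall fun x => e.apply_symm_apply x⟩

theorem resAt_blow [FiniteDimensional ℂ V] (hX : Surface X) (hE : Eqs X B Q D) (hl : Ker l q) (hq : q ∈ B) {n : ℕ}
    (hn : ResAt X B q (n + 1)) (h0 : ¬ ResAt X B q 0) {y : ι → V} (hy : y ∈ blow l X) :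
    ResAt (blow l X) (total l X B) y n ∨ ∃ x ∈ X, ¬ Pr x q ∧ Pr y (phi l x) ∧
      ∀ k, ResAt X B x k → ResAt (blow l X) (total l X B) y k := by
  obtain ⟨σ, τ, g, hσ, hσ0, hg, hN⟩ := hn
  have hN' : ∀ β, BChart β → ResN n (g ∘ β) := by
    rcases hN with hN | hN
    · exact absurd ⟨σ, τ, g, hσ, hσ0, hg, hN⟩ h0
    · exact hN
  rcases H62.BU.blow_local (surface_iff.2 hX) hl (chart_iff.2 hσ) hσ0 (hE.cone hX.smul) y hy with
    ⟨σ', τ', h1, ⟨b, hb⟩, σ1, τ1, h2, h3, ⟨c, hc, hc2⟩, h4⟩ | ⟨e, σ1, τ1, h2, h3, h4⟩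
  · right
    have h1' := chart_iff.1 h1
    refine ⟨σ' 0, h1'.σ_mem.self_of_nhds, ?_, ⟨c, hc, ?_⟩, fun k hk => ?_⟩
    · rintro ⟨a, -, ha⟩
      have h5 : l b q = 0 := (hl q).2 ⟨1, (one_smul _ _).symm⟩ b
      rw [ha, map_smul, h5, smul_zero] at hb
      exact hb rfl
    · rw [← h3]
      exact hc2 0
    · obtain ⟨g', ⟨hg1, hg2⟩, hg3⟩ := hk.chart hX.smul (hE.cone hX.smul) h1' (Pr.refl _)
      refine ⟨σ1, τ1, g', chart_iff.1 h2, h3, ⟨hg1, ?_⟩, hg3⟩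
      filter_upwards [hg2, h4] with p h5 h6
      exact h6.trans h5
  · left
    obtain ⟨β, hβ⟩ : ∃ β : ℂ × ℂ → ℂ × ℂ, β = fun p => e (p.1, p.1 * p.2) := ⟨_, rfl⟩
    have hBC : BChart β := by
      refine ⟨fun x => e x, fun x => x, BlowM_bihol e, Bihol.id, Eventually.of_forall fun x => ?_⟩
      rw [hβ]
      simp only [bl, zero_add]
    refine ⟨σ1, τ1, g ∘ β, chart_iff.1 h2, h3, ⟨?_, ?_⟩, hN' β hBC⟩
    · have h5 : AnalyticAt ℂ g (β 0) := by rw [hBC.zero]; exact hg.1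
      exact h5.comp hBC.an
    · filter_upwards [hBC.tendsto.eventually hg.2, h4] with p h5 h6
      rw [h6]
      rw [hβ] at h5 ⊢
      exact h5

end Pool.Agent.H17BP

end
end
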