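import Pool.Agent.H94.CB.H14.PP.Metric_1
import Pool.Agent.H94.CB.M64
import Pool.Agent.H94.CB.M71
import Pool.Agent.H94.CB.M74
import Pool.Agent.H94.CB.M77
import Pool.Agent.H94.CB.M89

/-! The parts of this file: H36.BPL.NodalK_1, H36.BPL.Wrap_1, H36.BPL.IndK. -/

section

/-!
# BPL NodalK: the nodal theorem for open surfaces
-/

set_option autoImplicit false

namespace Pool.Agent.H36.BPL

attribute [-instance] ProperSMul.toContinuousSMul

open Filter Topology Metric
open Pool.Agent.H17 (PN HolomorphicInto puncturedDisc)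
open Pool.Agent.H17BP (Surface IsChart IsForm NoZeros NodalAt)
open Pool.Agent.H36.BP
open Pool.Agent.H14.PP (IsCone IsOpenPart IsNodal Chart HasType DType gD aCoef Form IsEq)

variable {V : Type} [NormedAddCommGroup V] [NormedSpace ℂ V] {N : ℕ}

/-- **The nodal theorem for open surfaces**: `X` is a smooth closed surface in `ℙ(V)`, `K` an open part which is proper over an affine variety,
`T ⊇ X ∖ K` a curve with at most nodes, `Ω` a section of `m K_X - j H` on `K`, with poles of order at most `m - 1` along `X ∖ K` and without zeros in `K ∖ T`: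
if all nonconstant entire curves of order at most two in `K` lie in `T` then all holomorphic maps of the punctured disc into `K` which do not lie in `T` extend. -/
theorem nodalK_picard [FiniteDimensional ℂ V] {W : Type} [NormedAddCommGroup W] [InnerProductSpace ℂ W] {X K T : Set V} {m j M : ℕ} {Ω : V → V → V → ℂ}
    {Q : V → W} {D : ℕ} {Φ : V → Fin M → ℂ} (hX : Surface X) (hK : OpenPart X K) (hΦ : AffProper X K Φ) (hKT : ∀ x ∈ X, x ∉ K → x ∈ T)
    (hQ : ∀ x, AnalyticAt ℂ Q x) (hQs : ∀ (c : ℂ) (x : V), Q (c • x) = c ^ D • Q x)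
    (hT : ∀ x, x ∈ T ↔ x ∈ X ∧ Q x = 0) (hn : ∀ x ∈ T, PairNodalAt X K T x) (hm : 1 ≤ m) (hj : 1 ≤ j) (hΩ : IsForm K m j Ω) (hz : NoZeros K T Ω)
    (hpl : PoleLE X K (m - 1) Ω)
    (hBrody : ∀ h : ℂ → Projectivization ℂ V, HolInto h Set.univ → (∀ z, (h z).rep ∈ K) → OrdTwo (fun z => (h z).rep) → (∃ z w, h z ≠ h w) →
      ∀ z, (h z).rep ∈ T)
    (f : ℂ → Projectivization ℂ V) (hf : HolInto f puncturedDisc) (hfK : ∀ z ∈ puncturedDisc, (f z).rep ∈ K)
    (hfT : ∃ z ∈ puncturedDisc, (f z).rep ∉ T) :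
    ∃ g : ℂ → Projectivization ℂ V, HolInto g (ball 0 1) ∧ ∀ z ∈ puncturedDisc, g z = f z := by
  -- the isomorphism
  obtain ⟨z₁, hz₁, hz₁T⟩ := hfT
  have hpos : 0 < Module.finrank ℂ V := Module.finrank_pos_iff_exists_ne_zero.mpr ⟨(f z₁).rep, (f z₁).rep_nonzero⟩
  obtain ⟨N, hN⟩ : ∃ N, Module.finrank ℂ V = N + 1 := ⟨Module.finrank ℂ V - 1, by omega⟩
  let L : V ≃L[ℂ] EN N := ContinuousLinearEquiv.ofFinrankEq (by rw [hN]; simp)
  set X' : Set (EN N) := L.symm ⁻¹' X with hX'
  set K' : Set (EN N) := L.symm ⁻¹' K with hK'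
  set T' : Set (EN N) := L.symm ⁻¹' T with hT'
  have hTs : ∀ x ∈ T, ∀ c : ℂ, c ≠ 0 → c • x ∈ T := by
    intro x hx c hc
    obtain ⟨h1, h2⟩ := (hT x).mp hx
    exact (hT _).mpr ⟨hX.smul x h1 c hc, by rw [hQs, h2, smul_zero]⟩
  have hTX : T ⊆ X := fun x hx => ((hT x).mp hx).1
  have hcone : IsCone X' := isCone_transport L hX
  have hT's : ∀ x ∈ T', ∀ c : ℂ, c ≠ 0 → c • x ∈ T' := by
    intro x hx c hc
    show L.symm (c • x) ∈ T
    rw [map_smul]
    exact hTs _ hx c hc
  have hK's : ∀ x ∈ K', ∀ c : ℂ, c ≠ 0 → c • x ∈ K' := by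
    intro x hx c hc
    show L.symm (c • x) ∈ K
    rw [map_smul]
    exact hK.smul _ hx c hc
  have hopen : IsOpenPart X' K' := ⟨fun x hx => hK.sub hx, hK's, fun x hx => (L.symm.continuous.tendsto x).eventually (hK.rel _ hx)⟩
  have hnodal : IsNodal X' K' T' := by
    intro x hx
    have hxT : L.symm x ∈ T := hx
    obtain ⟨σ, τ, hc, h0, nd, d, hnd, hd, hdn⟩ := hn (L.symm x) hxT
    have hg := germ_transport L hc
    have hLσ0 : L (σ 0) = x := by rw [h0, L.apply_symm_apply]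
    have hnd' : ∀ᶠ p in 𝓝 (0 : ℂ × ℂ), (L (σ p) ∈ T' ↔ p.1 = 0 ∨ (nd = true ∧ p.2 = 0)) := by
      filter_upwards [hnd] with p hp
      rw [← hp]
      show L.symm (L (σ p)) ∈ T ↔ _
      rw [L.symm_apply_apply]
    have hd' : ∀ᶠ p in 𝓝 (0 : ℂ × ℂ), (L (σ p) ∉ K' ↔ (d.1 = true ∧ p.1 = 0) ∨ (d.2 = true ∧ p.2 = 0)) := by
      filter_upwards [hd] with p hp
      rw [← hp]
      show L.symm (L (σ p)) ∉ K ↔ _
      rw [L.symm_apply_apply]
    obtain ⟨χ, h2, h3, h4, h5⟩ := exists_chart hcone hK's hT's hg hnd' hd'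
    refine ⟨χ, nd, d, ?_, ?_, h4, h5, hdn⟩
    · rwa [hLσ0] at h2
    · rwa [hLσ0] at h3
  have heq : IsEq X' T' (fun y => Q (L.symm y)) D := by
    refine ⟨fun x => (hQ _).comp ((L.symm : EN N →L[ℂ] V).analyticAt x), fun c x => ?_, fun x => ?_⟩
    · show Q (L.symm (c • x)) = _
      rw [map_smul, hQs]
    · exact hT (L.symm x)
  have hnz : (formT L hΩ).NoZeroOff T' := by
    intro x hx hxT v w hv hw hli
    refine hz (L.symm x) hx hxT _ (tan_transport L hv) _ (tan_transport L hw) ?_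
    have h1 := hli.map' ((L.symm : EN N →L[ℂ] V) : EN N →ₗ[ℂ] V) (LinearMap.ker_eq_bot.mpr L.symm.injective)
    have h2 : (((L.symm : EN N →L[ℂ] V) : EN N →ₗ[ℂ] V) ∘ ![x, v, w]) = ![L.symm x, L.symm v, L.symm w] := by
      funext i
      fin_cases i <;> rfl
    rw [h2] at h1
    exact h1
  have hpole : (formT L hΩ).PoleBound X' := poleBound_transport L hΩ hpl
  have hclX : ∀ x ∈ closure X', x ≠ 0 → x ∈ X' := fun x hx hx0 =>
    (hcone.closed.closure_subset_iff.mpr (Set.subset_insert 0 X') hx).resolve_left hx0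
  obtain ⟨M', c₀, C, G, hM⟩ := Pool.Agent.H14.PP.exists_metric hcone hopen (fun x hx hxn => hKT _ hx hxn) heq hnodal hm hj (formT L hΩ) hnz hpole
    (hur_of_affProper (fun x hx hx0 => hclX x (closure_mono hopen.subset hx) hx0) hK's (affProper_transport L hΦ))
  -- Brody
  have hbm : BrodyMod2 K' (K' ∩ T') := by
    intro F hF hFK hne hord z
    have hF0 : ∀ z, L.symm (F z) ≠ 0 := by
      intro z h
      apply hX.zero
      rw [← h]
      exact hK.sub (hFK z)
    have h1 : HolInto (fun z => Projectivization.mk ℂ (L.symm (F z)) (hF0 z)) Set.univ := by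
      intro z₀ _
      exact ⟨fun z => L.symm (F z), ((L.symm : EN N →L[ℂ] V).analyticAt _).comp (hF.analyticAt z₀),
        Filter.Eventually.of_forall fun z => ⟨hF0 z, rfl⟩⟩
    have h2 : ∀ z, (Projectivization.mk ℂ (L.symm (F z)) (hF0 z)).rep ∈ K := by
      intro z
      obtain ⟨a, ha, h3⟩ := rep_mk (hF0 z)
      rw [h3]
      exact hK.smul _ (hFK z) a ha
    have h20 : OrdTwo (fun z => (Projectivization.mk ℂ (L.symm (F z)) (hF0 z)).rep) := by
      refine (hord.equiv L.symm).congr fun z => ?_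
      obtain ⟨a, ha, h3⟩ := rep_mk (hF0 z)
      exact ⟨a, ha, h3⟩
    have h3 := hBrody _ h1 h2 h20 (by
      obtain ⟨a, b, hab⟩ := hne
      refine ⟨a, b, fun h => ?_⟩
      rw [Projectivization.mk_eq_mk_iff'] at h
      obtain ⟨c, hc⟩ := h
      apply hab c
      apply L.symm.injective
      rw [map_smul]
      exact hc.symm) z
    obtain ⟨a, ha, h4⟩ := rep_mk (hF0 z)
    rw [h4] at h3
    have h5 := hTs _ h3 a⁻¹ (inv_ne_zero ha)
    rw [smul_smul, inv_mul_cancel₀ ha, one_smul] at h5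
    exact ⟨hFK z, h5⟩
  have hρ : ∀ x ∈ K', x ∈ K' ∩ T' → Pool.Agent.H14.PP.rho (fun y => Q (L.symm y)) D x = 0 := by
    intro x _ hx
    have h1 := ((hT _).mp hx.2).2
    unfold Pool.Agent.H14.PP.rho
    simp only
    rw [h1, norm_zero, zero_div]
  obtain ⟨g, hg, hgf⟩ := picard_cone2 hM hbm (fun x hx c hc => ⟨hK's x hx.1 c hc, hT's x hx.2 c hc⟩) hρ (fun z => toPN L (f z)) (holomorphicInto_toPN L hf)
    (fun z hz => (toPN_mem L hK.smul (f z)).mpr (hfK z hz)) ⟨z₁, hz₁, fun h => hz₁T ((toPN_mem L hTs (f z₁)).mp h.2)⟩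
  exact ⟨fun z => ofPN L (g z), holInto_ofPN L hg, fun z hz => by simp only; rw [hgf z hz, ofPN_toPN]⟩

end Pool.Agent.H36.BPL

end

section

/-!
# BPL Wrap: from maps into the projective space to functions
-/

set_option autoImplicit false

open Topology Filter

noncomputable section

namespace Pool.Agent.H36.BPL

attribute [-instance] ProperSMul.toContinuousSMul

open Pool.Agent.H17 (puncturedDisc)
open Pool.Agent.H36.BP (HolInto rep_mk OrdTwo)
open Pool.Agent.H17BP (Surface IsChart IsForm NoZeros NodalAt Pr HolP Picard Eqs)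

variable {V : Type} [NormedAddCommGroup V] [NormedSpace ℂ V]

/-- The extension theorem for an open surface with a nodal curve. -/
theorem nodalK [FiniteDimensional ℂ V] {X K T : Set V}
    {m j : ℕ} {Ω : V → V → V → ℂ} {κ : Type} [Fintype κ] {Q : κ → V → ℂ} {D : ℕ} (h : ModelK X K T m j Ω Q D)
    (hn : ∀ x ∈ X, NodalAt X T x) : Picard K T := by
  have hX := h.surf.smul
  have hT : ∀ x ∈ T, ∀ c : ℂ, c ≠ 0 → c • x ∈ T := by
    intro x hx c hc
    have h1 := (h.eqs.mem_iff x).1 hx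
    exact (h.eqs.mem_iff _).2 ⟨hX x h1.1 c hc, fun i => by rw [h.eqs.smul, h1.2 i, mul_zero]⟩
  have hTX : ∀ x ∈ T, x ∈ X := fun x hx => ((h.eqs.mem_iff x).1 hx).1
  obtain ⟨M, Φ, hΦ⟩ := h.aff
  refine W_picard (fun h0 => h.surf.zero (h.opn.sub h0)) h.opn.smul hT fun f hf hfX hfB => ?_
  refine nodalK_picard (Q := W_Q Q) (D := D) h.surf h.opn hΦ h.sub (fun x => ?_) (fun c x => ?_) (fun x => ?_)
    (fun x hx => pairNodal_of_nodal h.opn h.sub (hTX x hx) hx (hn x (hTX x hx))) h.one_m h.one_j h.form h.noZeros h.pole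
    (W_brody h.opn.smul h.brody) f hf hfX hfB
  · have h1 : AnalyticAt ℂ (fun x : V => fun i => Q i x) x := by
      rw [analyticAt_pi_iff]
      exact fun i => h.eqs.an i x
    exact AnalyticAt.comp (g := (WithLp.toLp 2 : (κ → ℂ) → EuclideanSpace ℂ κ)) (f := fun x : V => fun i => Q i x)
      ((EuclideanSpace.equiv κ ℂ).symm.analyticAt _) h1
  · unfold W_Q
    rw [← WithLp.toLp_smul]
    congr 1
    funext i
    simp [h.eqs.smul]
  · rw [h.eqs.mem_iff]
    unfold W_Q
    constructor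
    · rintro ⟨h1, h2⟩
      refine ⟨h1, ?_⟩
      have h3 : (fun i => Q i x) = (0 : κ → ℂ) := funext h2
      rw [h3]
      rfl
    · rintro ⟨h1, h2⟩
      refine ⟨h1, fun i => ?_⟩
      have h3 := congrFun (congrArg WithLp.ofLp h2) i
      exact h3

end Pool.Agent.H36.BPL

end
end

section

/-!
# BPL IndK: the induction over the blow-ups for open surfaces
-/

set_option autoImplicit false

open Topology Filter

noncomputable section

namespace Pool.Agent.H36.BPL

attribute [-instance] ProperSMul.toContinuousSMul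

open Pool.Agent.H62.BU (blow total Ker phi om phi_smul)
open Pool.Agent.H17BP (Surface IsChart IsForm NoZeros NodalAt Pr HolP Picard Eqs ResAt eqs_blow thin_blow resAt_blow exists_forms exists_finset_of_isolated exists_resAt)

/-- The blow-up of a model at a point of the curve is a model. -/
theorem modelK_blow {V : Type} [NormedAddCommGroup V] [NormedSpace ℂ V] [FiniteDimensional ℂ V] {ι : Type} [Fintype ι] {l : ι → V →L[ℂ] ℂ}
    {X K T : Set V} {q : V} {m j : ℕ} {Ω : V → V → V → ℂ} {κ : Type} {Q : κ → V → ℂ} {D : ℕ} (h : ModelK X K T m j Ω Q D) (hl : Ker l q) (hq : q ∈ T) :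
    ModelK (blow l X) (total l X K) (total l X T) (2 * m) j (om l j Ω) (fun (p : κ × ι) (y : ι → V) => Q p.1 (y p.2)) D where
  surf := Pool.Agent.H17BP.surface_iff.1 (Pool.Agent.H62.BU.surface_blow (Pool.Agent.H17BP.surface_iff.2 h.surf) hl (h.eqs.sub hq))
  opn := openPart_blow h.surf h.opn
  aff := by
    obtain ⟨M, Φ, hΦ⟩ := h.aff
    obtain ⟨Ψ, hΨ⟩ := affProper_blow (l := l) h.surf h.opn hΦ
    exact ⟨M, Ψ, hΨ⟩
  sub y hy hyK := by
    refine ⟨hy, fun b hb => ?_⟩
    have h1 : y b ∉ K := fun h2 => hyK ((mem_totalK h.surf h.opn.smul hy hb).mpr h2)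
    exact h.sub _ (comp_mem h.surf hy hb) h1
  one_m := by have := h.one_m; omega
  one_j := h.one_j
  form := Pool.Agent.H62.BU.formK h.opn h.form
  noZeros := Pool.Agent.H62.BU.noZerosK h.surf h.opn h.form (h.eqs.cone h.surf.smul) hl hq h.noZeros
  pole := (Pool.Agent.H62.BU.poleLE_om h.surf h.opn h.form h.pole).mono (by have := h.one_m; omega)
  eqs := eqs_blow h.surf h.eqs
  thin := fun σ τ h' => thin_blow h.surf h.eqs h.thin hl hq h'
  brody := brodyK_blow h.surf hl h.opn.smul (h.eqs.cone h.surf.smul) hq h.brody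

/-- The extension theorem for models which are resolved by `n` blow-ups over every point. -/
def PicardKN (n : ℕ) : Prop :=
  ∀ (V : Type) [NormedAddCommGroup V] [NormedSpace ℂ V] [FiniteDimensional ℂ V] (X K T : Set V) (m j : ℕ)
    (Ω : V → V → V → ℂ) (κ : Type) [Fintype κ] (Q : κ → V → ℂ) (D : ℕ), ModelK X K T m j Ω Q D →
    (∀ x ∈ X, ResAt X T x n) → Picard K T

theorem picardKN_zero : PicardKN 0 := by
  intro V _ _ _ X K T m j Ω κ _ Q D h h0
  exact nodalK h fun x hx => (h0 x hx).nodal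

theorem phi_pr {V : Type} [NormedAddCommGroup V] [NormedSpace ℂ V] {ι : Type} [Fintype ι]
    {l : ι → V →L[ℂ] ℂ} {x y : V} (h : Pr x y) : Pr (phi l x) (phi l y) := by
  obtain ⟨c, hc, rfl⟩ := h
  exact ⟨c ^ 2, pow_ne_zero _ hc, phi_smul c y⟩

theorem picardKN_step {n : ℕ} (ih : PicardKN n) : ∀ (k : ℕ) (V : Type) [NormedAddCommGroup V] [NormedSpace ℂ V]
    [FiniteDimensional ℂ V] (X K T : Set V) (m j : ℕ) (Ω : V → V → V → ℂ) (κ : Type) [Fintype κ]
    (Q : κ → V → ℂ) (D : ℕ), ModelK X K T m j Ω Q D → (∀ x ∈ X, ResAt X T x (n + 1)) →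
    (∃ F : Finset V, F.card ≤ k ∧ ∀ x ∈ X, ResAt X T x n ∨ ∃ q ∈ F, Pr x q) → Picard K T := by
  intro k
  induction k with
  | zero =>
    intro V _ _ _ X K T m j Ω κ _ Q D h h0 hF
    obtain ⟨F, hF1, hF2⟩ := hF
    have hF0 : F = ∅ := Finset.card_eq_zero.1 (by omega)
    refine ih V X K T m j Ω κ Q D h fun x hx => ?_
    rcases hF2 x hx with h1 | ⟨q, hq, -⟩
    · exact h1
    · rw [hF0] at hq
      simp at hq
  | succ k ihk =>
    intro V _ _ _ X K T m j Ω κ _ Q D h h0 hF
    obtain ⟨F, hF1, hF2⟩ := hF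
    have hX := h.surf.smul
    have hB := h.eqs.cone h.surf.smul
    by_cases hall : ∀ x ∈ X, ResAt X T x n
    · exact ih V X K T m j Ω κ Q D h hall
    push Not at hall
    obtain ⟨x₀, hx₀, hx₀n⟩ := hall
    rcases hF2 x₀ hx₀ with h1 | ⟨q, hqF, hxq⟩
    · exact absurd h1 hx₀n
    have hqX : q ∈ X := (hxq.mem_iff hX).1 hx₀
    have hqn : ¬ ResAt X T q n := fun h1 => hx₀n (h1.pr hX hB hxq)
    have hq0 : ¬ ResAt X T q 0 := fun h1 => hqn (h1.mono_le (Nat.zero_le n))
    have hqB : q ∈ T := by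
      by_contra hqB
      exact hq0 (ResAt.of_notMem h.surf h.eqs hqX hqB)
    have hqne : q ≠ 0 := fun e => h.surf.zero (e ▸ hqX)
    obtain ⟨r, l, hl⟩ := exists_forms hqne
    classical
    refine picardK_blow h.surf hl h.opn.sub h.opn.smul h.eqs.sub hB hqB ?_
    refine ihk (Fin r → V) (blow l X) (total l X K) (total l X T) (2 * m) j (om l j Ω) (κ × Fin r) _ D
      (modelK_blow h hl hqB) ?_ ⟨(F.erase q).image (phi l), ?_, ?_⟩
    · intro y hy
      rcases resAt_blow h.surf h.eqs hl hqB (h0 q hqX) hq0 hy with h1 | ⟨x, hx, -, -, h2⟩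
      · exact h1.mono_le (Nat.le_succ n)
      · exact h2 _ (h0 x hx)
    · have h1 := Finset.card_image_le (s := F.erase q) (f := phi l)
      have h2 := Finset.card_erase_of_mem hqF
      omega
    · intro y hy
      rcases resAt_blow h.surf h.eqs hl hqB (h0 q hqX) hq0 hy with h1 | ⟨x, hx, hxq', hyx, h2⟩
      · exact Or.inl h1
      · rcases hF2 x hx with h3 | ⟨q', hq'F, hxq''⟩
        · exact Or.inl (h2 _ h3)
        · refine Or.inr ⟨phi l q', Finset.mem_image_of_mem _ (Finset.mem_erase.2 ⟨?_, hq'F⟩),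
            hyx.trans (phi_pr hxq'')⟩
          rintro rfl
          exact hxq' hxq''

/-- At all but finitely many points the curve is a monomial in local coordinates. -/
theorem ModelK.exists_finset {V : Type} [NormedAddCommGroup V] [NormedSpace ℂ V] [FiniteDimensional ℂ V]
    {X K T : Set V} {m j : ℕ} {Ω : V → V → V → ℂ} {κ : Type} {Q : κ → V → ℂ} {D : ℕ}
    (h : ModelK X K T m j Ω Q D) :
    ∃ F : Finset V, (∀ q ∈ F, q ∈ X) ∧ ∀ x ∈ X, ResAt X T x 0 ∨ ∃ q ∈ F, Pr x q := by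
  have hX := h.surf.smul
  have hB := h.eqs.cone h.surf.smul
  refine exists_finset_of_isolated h.surf (fun x y hxy hy => hy.pr hX hB hxy) fun x hx => ?_
  obtain ⟨n, hn⟩ := exists_resAt h.surf h.eqs h.thin hx
  exact hn.near hX hB

theorem picardKN (n : ℕ) : PicardKN n := by
  induction n with
  | zero => exact picardKN_zero
  | succ n ih =>
    intro V _ _ _ X K T m j Ω κ _ Q D h h0
    obtain ⟨F, -, hF⟩ := h.exists_finset
    refine picardKN_step ih F.card V X K T m j Ω κ Q D h h0 ⟨F, le_rfl, fun x hx => ?_⟩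
    rcases hF x hx with h1 | h1
    · exact Or.inl (h1.mono_le (Nat.zero_le n))
    · exact Or.inr h1

/-- **The extension theorem.** -/
theorem picard_of_modelK {V : Type} [NormedAddCommGroup V] [NormedSpace ℂ V] [FiniteDimensional ℂ V]
    {X K T : Set V} {m j : ℕ} {Ω : V → V → V → ℂ} {κ : Type} [Fintype κ] {Q : κ → V → ℂ} {D : ℕ}
    (h : ModelK X K T m j Ω Q D) : Picard K T := by
  classical
  have hX := h.surf.smul
  have hB := h.eqs.cone h.surf.smul
  obtain ⟨F, hFX, hF⟩ := h.exists_finset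
  have h1 : ∀ q : V, ∃ n, q ∈ F → ResAt X T q n := by
    intro q
    by_cases hq : q ∈ F
    · obtain ⟨n, hn⟩ := exists_resAt h.surf h.eqs h.thin (hFX q hq)
      exact ⟨n, fun _ => hn⟩
    · exact ⟨0, fun h2 => absurd h2 hq⟩
  choose n hn using h1
  refine picardKN (F.sup n) V X K T m j Ω κ Q D h fun x hx => ?_
  rcases hF x hx with h2 | ⟨q, hq, hxq⟩
  · exact h2.mono_le (Nat.zero_le _)
  · exact ((hn q hq).mono_le (Finset.le_sup (f := n) hq)).pr hX hB hxq

end Pool.Agent.H36.BPL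

end
end
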