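import Pool.Agent.H94.CB.M46
import Pool.Agent.H94.CB.M52
import Pool.Agent.H94.CB.M53
import Pool.Agent.H94.CB.M55
import Pool.Agent.H94.CB.M61
import Pool.Agent.H94.CB.M66

/-! The parts of this file: H13.CV.RatB, H13.CV.FunF, H62.FC.Trdeg, H17BP.TrdegLt. -/

section

/-!
# CV RatB: rational function fields

Let `K = ℂ(t)`; `t` is transcendental (`hK.exists_tr`: if `t` were algebraic then all elements of `K` would be algebraic).
(1) `mob`: `IntermediateField.adjoin ℂ {t'} = ⊤` for `t' = t - c`, `t⁻¹`, `c t` (`c ≠ 0`): `t` is in `adjoin ℂ {t'}`.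
(2) `oz_eq`: if `adjoin ℂ {s} = ⊤` then there is at most one place with `0 < ord s`, and `oz E s = 1` there (`sum_le` with `L = ⊤ = ℂ(s)`, `finrank ⊤ K = 1`, or with `T = {E}` and `T = {E, E'}`).  The same
for `ord s < 0` and `oz E s = -1` (`s⁻¹`).
(3) Given places `E₁ ≠ E₂` there is `s` with `adjoin ℂ {s} = ⊤`, `0 < ord_{E₁} s`, `ord_{E₂} s < 0`: replacing `t` by `t⁻¹` if necessary we may assume that `t` has a value `c₂` at `E₂` (`exists_value`), replacing it by
`(t - c₂)⁻¹` we may assume that `ord_{E₂} t < 0`; by (2) `t` has no pole at `E₁`, so it has a value `c₁`: `s = t - c₁`.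
(4) If all places in `B` are among two places `E₁, E₂`: if `E₁ ≠ E₂` take `t' = s` as in (3); if `E₁ = E₂` choose `t' = t - c` or `t` with `oz E₁ t' ≠ 0`.  If `B` is empty: `t' = t`.
(5) Otherwise there are three different places `E₁, E₂, E₃` in `B`.  `s` as in (3); at `E₃` it has no pole and no zero (2), so it has a value `c ≠ 0`; replace `s` by `s / c`, so that the value at `E₃` is `1`.
`lgt_of_forms` with `m = 1`, `ω = dx s`, `f₀ = s⁻¹`, `f₁ = (s - 1)⁻¹`; `f₁ / f₀ = s / (s - 1)` is not a constant.  Check at a place `E` with `pole_mk` (`p = 1` in `B`, `p = 0` otherwise):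
* `0 < ord s`: `E = E₁`, `oz E s = 1`, `oz E f₀ = -1`, `oz E f₁ = 0`: `-1 + (1 - 1) + 1 ≥ 0`.
* `ord s < 0`: `E = E₂`, `oz E s = -1`, `oz E f₀ = oz E f₁ = 1`: `1 + (-1 - 1) + 1 ≥ 0`.
* otherwise `s` has a value `c ≠ 0` at `E`; `dx s = dx (s - c)` (`dx_sub_const`) and `oz E (s - c) = 1` by (2).  If `c = 1` then `E = E₃` by (2) for `s - 1`: `oz E f₁ = -1`, `oz E f₀ = 0`: `-1 + 0 + 1 ≥ 0`.
If `c ≠ 1`: `oz E f₀ = oz E f₁ = 0`.
-/

set_option autoImplicit false

open Pool.Agent.H23.Fano (PrimeDivisorOver Form regularForms)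
open Pool.Agent.H17LG.Variety (PoleAtMost IsLogGeneralType)

noncomputable section

namespace Pool.Agent.H13.CV

attribute [-instance] ProperSMul.toContinuousSMul

variable {K : Type} [Field K] [Algebra ℂ K]

private lemma tr_of_top (hK : CurveField K) {t : K} (ht : IntermediateField.adjoin ℂ {t} = ⊤) : Transcendental ℂ t := by
  by_contra hal
  obtain ⟨c, hc⟩ : ∃ c : ℂ, t = algebraMap ℂ K c := by
    by_contra h
    push Not at h
    exact hal (transcendental_of_not_const h)
  obtain ⟨x, hx⟩ := hK.exists_tr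
  have h1 : IntermediateField.adjoin ℂ {t} = (⊥ : IntermediateField ℂ K) := by
    rw [IntermediateField.adjoin_simple_eq_bot_iff, IntermediateField.mem_bot]
    exact ⟨c, hc.symm⟩
  have h2 : x ∈ (⊥ : IntermediateField ℂ K) := by
    rw [← h1, ht]
    exact IntermediateField.mem_top
  rw [IntermediateField.mem_bot] at h2
  obtain ⟨d, hd⟩ := h2
  exact hx (hd ▸ isAlgebraic_algebraMap d)

private lemma gen_top (hK : CurveField K) {t : K} (ht : IntermediateField.adjoin ℂ {t} = ⊤) : Gen (⊤ : IntermediateField ℂ K) t :=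
  ⟨tr_of_top hK ht, ht.symm⟩

private lemma fin_top : FiniteDimensional (⊤ : IntermediateField ℂ K) K :=
  Module.finite_of_finrank_pos (by rw [IntermediateField.finrank_top]; norm_num)

private lemma one_le_oz {s : K} (hs : Gen (⊤ : IntermediateField ℂ K) s) {E : Place K} (hE : 0 < E.ord s) : 1 ≤ oz E s :=
  (pos_iff.1 hE).resolve_left hs.ne_zero

private lemma oz_zero_eq {s : K} (hs : Gen (⊤ : IntermediateField ℂ K) s) {E : Place K} (hE : 0 < E.ord s) : oz E s = 1 := by
  have := fin_top (K := K)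
  have h1 := sum_le hs {E} (by
    intro E' hE'
    rw [Finset.mem_singleton] at hE'
    rwa [hE'])
  rw [Finset.sum_singleton, IntermediateField.finrank_top] at h1
  have h2 := one_le_oz hs hE
  push_cast at h1
  omega

private lemma zero_uniq {s : K} (hs : Gen (⊤ : IntermediateField ℂ K) s) {E E' : Place K} (hE : 0 < E.ord s) (hE' : 0 < E'.ord s) : E = E' := by
  classical
  by_contra hne
  have := fin_top (K := K)
  have h1 := sum_le hs {E, E'} (by
    intro E'' hE''
    rw [Finset.mem_insert, Finset.mem_singleton] at hE''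
    rcases hE'' with h | h
    · rwa [h]
    · rwa [h])
  rw [Finset.sum_pair hne, IntermediateField.finrank_top] at h1
  have h2 := one_le_oz hs hE
  have h3 := one_le_oz hs hE'
  push_cast at h1
  omega

private lemma oz_pole_eq {s : K} (hs : Gen (⊤ : IntermediateField ℂ K) s) {E : Place K} (hE : E.ord s < 0) : oz E s = -1 := by
  have h1 := oz_zero_eq hs.inv ((inv_pos_iff hs.ne_zero).2 hE)
  rw [oz_inv] at h1
  omega

private lemma pole_uniq {s : K} (hs : Gen (⊤ : IntermediateField ℂ K) s) {E E' : Place K} (hE : E.ord s < 0) (hE' : E'.ord s < 0) : E = E' :=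
  zero_uniq hs.inv ((inv_pos_iff hs.ne_zero).2 hE) ((inv_pos_iff hs.ne_zero).2 hE')

private lemma pole_sub {s : K} {E : Place K} (hE : E.ord s < 0) (c : ℂ) : E.ord (s - algebraMap ℂ K c) < 0 := by
  by_contra h
  push Not at h
  have h1 := nonneg_add h (const_nonneg E c)
  rw [sub_add_cancel] at h1
  exact absurd hE (not_lt.2 h1)

private lemma oz_sub {s : K} (hs : Gen (⊤ : IntermediateField ℂ K) s) {E : Place K} {a b : ℂ} (h : 0 < E.ord (s - algebraMap ℂ K a)) (hab : a ≠ b) :
    oz E (s - algebraMap ℂ K b) = 0 := by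
  have h1 : oz E (s - algebraMap ℂ K a) = 1 := oz_zero_eq (hs.sub_const a) h
  have h2 : (algebraMap ℂ K (a - b)) ≠ 0 := by
    rw [Ne, map_eq_zero, sub_eq_zero]
    exact hab
  have h3 := (oz_add_of_lt E h2 (hs.sub_const a).ne_zero (by rw [oz_const, h1]; norm_num)).2
  rw [oz_const] at h3
  rw [← h3]
  congr 1
  rw [map_sub]
  ring

private lemma exists_two (hK : CurveField K) {t : K} (ht : Gen (⊤ : IntermediateField ℂ K) t) {E₁ E₂ : Place K} (hne : E₁ ≠ E₂) :
    ∃ s : K, Gen (⊤ : IntermediateField ℂ K) s ∧ 0 < E₁.ord s ∧ E₂.ord s < 0 := by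
  obtain ⟨t', ht', hp⟩ : ∃ t' : K, Gen (⊤ : IntermediateField ℂ K) t' ∧ E₂.ord t' < 0 := by
    by_cases h : E₂.ord t < 0
    · exact ⟨t, ht, h⟩
    · push Not at h
      obtain ⟨c, hc⟩ := exists_value hK h
      refine ⟨(t - algebraMap ℂ K c)⁻¹, (ht.sub_const c).inv, ?_⟩
      rw [neg_iff, oz_inv, oz_zero_eq (ht.sub_const c) hc]
      norm_num
  have h1 : 0 ≤ E₁.ord t' := by
    by_contra h
    push Not at h
    exact hne (pole_uniq ht' h hp)
  obtain ⟨c, hc⟩ := exists_value hK h1
  exact ⟨t' - algebraMap ℂ K c, ht'.sub_const c, hc, pole_sub hp c⟩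

private lemma lgt_three (hK : CurveField K) {B : Place K → Prop} {s : K} (hs : Gen (⊤ : IntermediateField ℂ K) s) {E₁ E₂ E₃ : Place K}
    (hB₁ : B E₁) (hB₂ : B E₂) (hB₃ : B E₃) (h13 : E₁ ≠ E₃) (h23 : E₂ ≠ E₃) (h1 : 0 < E₁.ord s) (h2 : E₂.ord s < 0) : IsLogGeneralType B := by
  have h3 : 0 ≤ E₃.ord s := by
    by_contra h
    push Not at h
    exact h23 (pole_uniq hs h2 h)
  obtain ⟨c, hc⟩ := exists_value hK h3
  have hc0 : c ≠ 0 := by
    rintro rfl
    rw [map_zero, sub_zero] at hc
    exact h13 (zero_uniq hs h1 hc)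
  have h1' : 0 < E₁.ord (s - algebraMap ℂ K 0) := by rwa [map_zero, sub_zero]
  have hs0 : s ≠ 0 := hs.ne_zero
  have hsc : s - algebraMap ℂ K c ≠ 0 := (hs.sub_const c).ne_zero
  -- the orders of the two forms
  have key : ∀ E : Place K, (¬ B E → PoleAtMost 0 E 1 s⁻¹ (dx s) ∧ PoleAtMost 0 E 1 (s - algebraMap ℂ K c)⁻¹ (dx s)) ∧
      (B E → PoleAtMost 1 E 1 s⁻¹ (dx s) ∧ PoleAtMost 1 E 1 (s - algebraMap ℂ K c)⁻¹ (dx s)) := by
    intro E
    by_cases hpos : 0 < E.ord s
    · obtain rfl := zero_uniq hs h1 hpos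
      have e1 := oz_zero_eq hs h1
      have e2 := oz_sub hs h1' hc0.symm
      refine ⟨fun h => absurd hB₁ h, fun _ => ⟨pole_mk _ hs0 (Or.inr ?_), pole_mk _ hs0 (Or.inr ?_)⟩⟩
      · rw [oz_inv, e1]; norm_num
      · rw [oz_inv, e2, e1]; norm_num
    by_cases hneg : E.ord s < 0
    · obtain rfl := pole_uniq hs h2 hneg
      have e1 := oz_pole_eq hs h2
      have e2 := oz_pole_eq (hs.sub_const c) (pole_sub h2 c)
      refine ⟨fun h => absurd hB₂ h, fun _ => ⟨pole_mk _ hs0 (Or.inr ?_), pole_mk _ hs0 (Or.inr ?_)⟩⟩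
      · rw [oz_inv, e1]; norm_num
      · rw [oz_inv, e2, e1]; norm_num
    push Not at hneg
    obtain ⟨c', hc'⟩ := exists_value hK hneg
    have hc'0 : c' ≠ 0 := by
      rintro rfl
      rw [map_zero, sub_zero] at hc'
      exact hpos hc'
    have e0 : oz E s = 0 := by
      have := oz_sub hs hc' hc'0
      rwa [map_zero, sub_zero] at this
    have e1 : oz E (s - algebraMap ℂ K c') = 1 := oz_zero_eq (hs.sub_const c') hc'
    have hsc' : s - algebraMap ℂ K c' ≠ 0 := (hs.sub_const c').ne_zero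
    rw [← dx_sub_const s c']
    by_cases hcc : c' = c
    · subst hcc
      obtain rfl := zero_uniq (hs.sub_const c') hc hc'
      refine ⟨fun h => absurd hB₃ h, fun _ => ⟨pole_mk _ hsc' (Or.inr ?_), pole_mk _ hsc' (Or.inr ?_)⟩⟩
      · rw [oz_inv, e0, e1]; norm_num
      · rw [oz_inv, e1]; norm_num
    · have e2 : oz E (s - algebraMap ℂ K c) = 0 := oz_sub hs hc' hcc
      refine ⟨fun _ => ⟨pole_mk _ hsc' (Or.inr ?_), pole_mk _ hsc' (Or.inr ?_)⟩, fun _ => ⟨pole_mk _ hsc' (Or.inr ?_), pole_mk _ hsc' (Or.inr ?_)⟩⟩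
      · rw [oz_inv, e0, e1]; norm_num
      · rw [oz_inv, e2, e1]; norm_num
      · rw [oz_inv, e0, e1]; norm_num
      · rw [oz_inv, e2, e1]; norm_num
  refine lgt_of_forms hK (dx_ne_zero hs.tr) le_rfl (inv_ne_zero hs0) (f₁ := (s - algebraMap ℂ K c)⁻¹) ?_
    (fun E => ⟨fun h => ((key E).1 h).1, fun h => ((key E).2 h).1⟩) (fun E => ⟨fun h => ((key E).1 h).2, fun h => ((key E).2 h).2⟩)
  apply tr_of_oz_ne (E := E₁)
  rw [oz_div E₁ (inv_ne_zero hsc) (inv_ne_zero hs0), oz_inv, oz_inv, oz_sub hs h1' hc0.symm, oz_zero_eq hs h1]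
  norm_num

theorem rat_cases (hK : CurveField K) {t : K} (ht : IntermediateField.adjoin ℂ {t} = ⊤) (B : Place K → Prop) :
    IsLogGeneralType B ∨ ∃ t' : K, IntermediateField.adjoin ℂ {t'} = ⊤ ∧ ∀ E, B E → oz E t' ≠ 0 := by
  have hg := gen_top hK ht
  by_cases h3 : ∃ E₁ E₂ E₃ : Place K, B E₁ ∧ B E₂ ∧ B E₃ ∧ E₁ ≠ E₂ ∧ E₁ ≠ E₃ ∧ E₂ ≠ E₃
  · left
    obtain ⟨E₁, E₂, E₃, hB₁, hB₂, hB₃, h12, h13, h23⟩ := h3
    obtain ⟨s, hs, h1, h2⟩ := exists_two hK hg h12
    exact lgt_three hK hs hB₁ hB₂ hB₃ h13 h23 h1 h2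
  right
  by_cases h2 : ∃ E₁ E₂ : Place K, B E₁ ∧ B E₂ ∧ E₁ ≠ E₂
  · obtain ⟨E₁, E₂, hB₁, hB₂, h12⟩ := h2
    obtain ⟨s, hs, h1, h2⟩ := exists_two hK hg h12
    refine ⟨s, hs.eq.symm, fun E hE => ?_⟩
    by_cases hE1 : E = E₁
    · rw [hE1, oz_zero_eq hs h1]
      norm_num
    by_cases hE2 : E = E₂
    · rw [hE2, oz_pole_eq hs h2]
      norm_num
    exact absurd ⟨E₁, E₂, E, hB₁, hB₂, hE, h12, fun h => hE1 h.symm, fun h => hE2 h.symm⟩ h3
  by_cases h1 : ∃ E₁ : Place K, B E₁
  · obtain ⟨E₁, hB₁⟩ := h1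
    have hall : ∀ E, B E → E = E₁ := fun E hE => by
      by_contra hne
      exact h2 ⟨E, E₁, hE, hB₁, hne⟩
    by_cases hneg : E₁.ord t < 0
    · refine ⟨t, ht, fun E hE => ?_⟩
      rw [hall E hE, oz_pole_eq hg hneg]
      norm_num
    · push Not at hneg
      obtain ⟨c, hc⟩ := exists_value hK hneg
      refine ⟨t - algebraMap ℂ K c, (hg.sub_const c).eq.symm, fun E hE => ?_⟩
      rw [hall E hE, oz_zero_eq (hg.sub_const c) hc]
      norm_num
  · exact ⟨t, ht, fun E hE => absurd ⟨E, hE⟩ h1⟩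

end Pool.Agent.H13.CV

end
end

section

/-!
# CV FunF: the function field of a curve in projective space

`FunField Q` is generated over `ℂ` by the finitely many functions `ratio Q i j`.  `exists_tr`: the member of the transcendence basis.  `fin`: let `x` be transcendental.  The transcendence degree is `1`, so `x` is
a transcendence basis (`AlgebraicIndependent.isTranscendenceBasis_of_trdeg_le_of_finite` or similar, see the proof of `trdeg_lt` in `Pool/Agent/H17BP/TrdegLt.lean`), and `K` is algebraic over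
`ℂ(x)` and generated by finitely many elements, so it is finite over `ℂ(x)` (`IntermediateField.finiteDimensional_adjoin`, `IntermediateField.finiteDimensional_of_exists_…`,
`IntermediateField.essFiniteType`, `Algebra.IsAlgebraic` + `Algebra.EssFiniteType` → `Module.Finite`: `Algebra.finite_of_essFiniteType_of_isAlgebraic`-like; there is also
`Pool.Agent.H23` material with `[Algebra.EssFiniteType ℂ K]`).
-/

set_option autoImplicit false

open MvPolynomial
open Pool.Agent.H17LG.Variety (FunField IsLogGeneralType)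

noncomputable section

namespace Pool.Agent.H13.CV

attribute [-instance] ProperSMul.toContinuousSMul

variable {N : ℕ}

private lemma funF_core {K : Type} [Field K] [Algebra ℂ K] (y : Fin (N + 1) → K)
    (hy : IntermediateField.adjoin ℂ (Set.range y) = ⊤) {z : Fin 1 → K} (hz : IsTranscendenceBasis ℂ z) :
    CurveField K := by
  refine ⟨⟨z 0, hz.1.transcendental 0⟩, fun x hx => ?_⟩
  have hind : AlgebraicIndependent ℂ (fun _ : Fin 1 => x) := algebraicIndependent_unique_type_iff.2 hx
  have h2 := IsTranscendenceBasis.cardinalMk_eq_trdeg (R := ℂ) (A := K) (x := z) hz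
  have hbasis : IsTranscendenceBasis ℂ fun _ : Fin 1 => x :=
    hind.isTranscendenceBasis_of_trdeg_le_of_finite h2.ge
  have halg := hbasis.isAlgebraic_field
  have hr : Set.range (fun _ : Fin 1 => x) = {x} := Set.range_const
  rw [hr] at halg
  have hfin : FiniteDimensional (IntermediateField.adjoin ℂ {x})
      (IntermediateField.adjoin (IntermediateField.adjoin ℂ {x}) (Set.range y)) :=
    IntermediateField.finiteDimensional_adjoin fun u _ => (halg.isAlgebraic u).isIntegral
  have htop : IntermediateField.adjoin (IntermediateField.adjoin ℂ {x}) (Set.range y) = ⊤ := by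
    rw [eq_top_iff]
    intro u _
    have hu : u ∈ IntermediateField.adjoin ℂ (Set.range y) := by
      rw [hy]
      exact IntermediateField.mem_top
    have hle : IntermediateField.adjoin ℂ (Set.range y) ≤
        (IntermediateField.adjoin (IntermediateField.adjoin ℂ {x}) (Set.range y)).restrictScalars ℂ := by
      rw [IntermediateField.adjoin_le_iff]
      exact IntermediateField.subset_adjoin (IntermediateField.adjoin ℂ {x}) (Set.range y)
    exact hle hu
  rw [htop] at hfin
  exact FiniteDimensional.of_surjective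
    ((⊤ : IntermediateField (IntermediateField.adjoin ℂ {x}) K).val.toLinearMap)
    (fun u => ⟨⟨u, IntermediateField.mem_top⟩, rfl⟩)

theorem curveField_funField (Q : Ideal (MvPolynomial (Fin (N + 1)) ℂ)) [Q.IsPrime] (hz : ∃ z : Fin 1 → FunField Q, IsTranscendenceBasis ℂ z) :
    CurveField (FunField Q) := by
  obtain ⟨z, hz⟩ := hz
  obtain ⟨j, hj⟩ := Pool.Agent.H92.GT.Proj.exists_coordFun_ne_zero Q (k := 0) z hz
  obtain ⟨y, -, hygen, -⟩ := Pool.Agent.H92.GT.Proj.proj_point Q hj
  exact funF_core (K := FunField Q) y hygen hz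

end Pool.Agent.H13.CV

end
end

section

/-!
# Fermat covers: the dimension is monotone

For homogeneous prime ideals `P ≤ Q` the transcendence degree of the function field of `Q` is at
most the transcendence degree of the function field of `P`: coordinates whose ratios are
algebraically independent on the variety of `Q` have the same property on the variety of `P`.
-/

noncomputable section

namespace Pool.Agent.H62.FC

attribute [-instance] ProperSMul.toContinuousSMul

open MvPolynomial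
open Pool.Agent.H17GT (coordFun)
open Pool.Agent.H17LG.Variety (FunField)

variable {N : ℕ} {P : Ideal (MvPolynomial (Fin (N + 1)) ℂ)}

/-- Coordinates which are algebraically independent on the smaller variety are so on the larger
one. -/
private lemma Trdeg_indep {K L : Type} [Field K] [Algebra ℂ K] [Field L] [Algebra ℂ L] {k : ℕ}
    {j : Fin (N + 1)} {x : Fin (N + 1) → K} {y : Fin (N + 1) → L} (hx : x j = 1) (hy : y j = 1)
    (h : ∀ (n : ℕ) (G : MvPolynomial (Fin (N + 1)) ℂ), G.IsHomogeneous n → aeval x G = 0 →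
      aeval y G = 0) {J : Fin k → Fin (N + 1)} (hJ : AlgebraicIndependent ℂ fun i => y (J i)) :
    AlgebraicIndependent ℂ fun i => x (J i) := by
  rw [algebraicIndependent_iff] at hJ ⊢
  intro p hp
  apply hJ
  set Af : Fin (k + 1) → MvPolynomial (Fin (N + 1)) ℂ := Fin.cons (X j) fun i => X (J i) with hAf
  have hAfhom : ∀ i, IsWeightedHomogeneous (1 : Fin (N + 1) → ℕ) (Af i) 1 := by
    intro i
    refine Fin.cases ?_ (fun i => ?_) i
    · exact isHomogeneous_X ℂ j
    · exact isHomogeneous_X ℂ (J i)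
  have key : ∀ {K : Type} [Field K] [Algebra ℂ K] {x : Fin (N + 1) → K}, x j = 1 →
      aeval x (Pool.Agent.H92.GT.hmg p Af) = aeval (fun i => x (J i)) p := by
    intro K _ _ x hx
    rw [Pool.Agent.H92.GT.map_hmg]
    have h0 : aeval x (Af 0) = 1 := by
      change aeval x (X j) = 1
      rw [aeval_X, hx]
    rw [Pool.Agent.H92.GT.hmg_eq p (by rw [h0]; exact one_ne_zero), h0, one_pow, one_mul]
    congr 2
    funext i
    change aeval x (X (J i)) / 1 = x (J i)
    rw [aeval_X, div_one]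
  rw [← key hy]
  exact h _ _ (Pool.Agent.H92.GT.hmg_isWeightedHomogeneous p hAfhom) (by rw [key hx, hp])

theorem trdeg_mono [P.IsPrime] {Q : Ideal (MvPolynomial (Fin (N + 1)) ℂ)} [Q.IsPrime]
    (hP : Homog P) (hQ : Homog Q) (hPQ : P ≤ Q) {r w : ℕ} (hr : ∃ z : Fin r → FunField P,
      IsTranscendenceBasis ℂ z) (hw : ∃ z : Fin w → FunField Q, IsTranscendenceBasis ℂ z) :
    w ≤ r := by
  rcases w with - | w
  · exact Nat.zero_le _
  obtain ⟨z, hz⟩ := hw
  obtain ⟨z', hz'⟩ := hr
  obtain ⟨j, hj⟩ := Pool.Agent.H92.GT.Proj.exists_coordFun_ne_zero Q (k := w) z hz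
  have hj' : coordFun P j ≠ 0 := by
    intro h0
    apply hj
    have h1 := (Pool.Agent.H92.GT.Proj.aeval_coordFun_eq_zero_iff P (X j)).1
      (by rw [aeval_X]; exact h0)
    have h2 := (Pool.Agent.H92.GT.Proj.aeval_coordFun_eq_zero_iff Q (X j)).2 (hPQ h1)
    rwa [aeval_X] at h2
  obtain ⟨y, hy1, hygen, hyker⟩ := Pool.Agent.H92.GT.Proj.proj_point Q hj
  obtain ⟨x, hx1, -, hxker⟩ := Pool.Agent.H92.GT.Proj.proj_point P hj'
  have halg : Algebra.IsAlgebraic (IntermediateField.adjoin ℂ (Set.range y))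
      (H17GT.functionField Q) := by
    rw [hygen]
    exact ⟨fun f => isAlgebraic_algebraMap (⟨f, IntermediateField.mem_top⟩ :
      (⊤ : IntermediateField ℂ (H17GT.functionField Q)))⟩
  obtain ⟨J, hJ⟩ := Pool.Agent.H92.GT.exists_index halg (z := z) hz
  have hind : AlgebraicIndependent ℂ fun i => x (J i) :=
    Trdeg_indep hx1 hy1 (fun n G hG h => (hyker n G hG).2 (hPQ ((hxker n G hG).1 h))) hJ.1
  have h1 := hind.cardinalMk_le_trdeg
  have h2 := IsTranscendenceBasis.cardinalMk_eq_trdeg (R := ℂ) (A := H17GT.functionField P)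
    (x := z') hz'
  rw [← h2, Cardinal.mk_fin, Cardinal.mk_fin, Nat.cast_le] at h1
  exact h1

end Pool.Agent.H62.FC

end
end

section

/-!
# The dimension of a proper closed subvariety is smaller

Start as in the proof of `trdeg_mono` (`Pool/Agent/H62/FC/Trdeg.lean`): `j` with `coordFun Q j ≠ 0` (from `hX`:
`aeval_coordFun_eq_zero_iff Q (X j)`), so `coordFun P j ≠ 0`; `proj_point` gives `y` in `K_Q = functionField Q` and `x` in
`K_P = functionField P` with `y j = 1`, `x j = 1`, and `aeval y G = 0 ↔ G ∈ Q`, `aeval x G = 0 ↔ G ∈ P` for forms `G`;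
`exists_index` (needs `halg`) gives `J : Fin w → Fin (N + 1)` such that `y ∘ J` is a transcendence basis of `K_Q`, and
`x ∘ J` is algebraically independent (`Trdeg_indep` is private there: copy it).

(a) For ALL polynomials `H` (not only forms): `aeval x H = 0 → aeval y H = 0`: let `d` be the total degree of `H`; the form
`H' = ∑ k ≤ d, X j ^ (d - k) * homogeneousComponent k H` has degree `d` and `aeval x H' = aeval x H` as `x j = 1`, the same for
`y` (`sum_homogeneousComponent`).  So `H' ∈ P ≤ Q` and `aeval y H = 0`.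

(b) By `trdeg_mono`, `w ≤ r`.  Suppose `w = r`.  There is `F ∈ Q`, `F ∉ P`, and by `Homog Q` one may take `F` a form (some
homogeneous component of `F` is not in `P`, all are in `Q`).  `f = aeval x F ≠ 0` and `aeval y F = 0`.  `f` is algebraic
over `A = Algebra.adjoin ℂ (range (x ∘ J))`, because `x ∘ J` is algebraically independent with `w = r = trdeg` elements
(otherwise `f` together with `x ∘ J` would be algebraically independent with `r + 1` elements:
`AlgebraicIndependent.cardinalMk_le_trdeg`; or: a finite algebraically independent family with `trdeg` elements is a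
transcendence basis).  As `f ≠ 0` and `A` is a domain: there is a polynomial `q` over `A` with `q.coeff 0 ≠ 0` and
`aeval f q = 0` (`exists_nonzero_coeff_and_aeval_eq_zero`).  Every coefficient of `q` is `aeval (x ∘ J) (c i)` with
`c i : MvPolynomial (Fin w) ℂ`, `c 0 ≠ 0`.  Let `H = ∑ i, rename J (c i) * F ^ i`: `aeval x H = 0`, so by (a)
`aeval y H = 0`; but `aeval y F = 0`, so `aeval y H = aeval (y ∘ J) (c 0) ≠ 0` (independence of `y ∘ J`): contradiction.
-/

open MvPolynomial
open Pool.Agent.H17GT (coordFun)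
open Pool.Agent.H17LG.Variety (FunField)
open Pool.Agent.H62.FC (Homog trdeg_mono)

noncomputable section

namespace Pool.Agent.H17BP

attribute [-instance] ProperSMul.toContinuousSMul

variable {N : ℕ} {P Q : Ideal (MvPolynomial (Fin (N + 1)) ℂ)}

/-- Coordinates which are algebraically independent on the smaller variety are so on the larger
one. -/
private lemma TrdegLt_indep {K L : Type} [Field K] [Algebra ℂ K] [Field L] [Algebra ℂ L] {k : ℕ}
    {x : Fin (N + 1) → K} {y : Fin (N + 1) → L}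
    (h : ∀ G : MvPolynomial (Fin (N + 1)) ℂ, aeval x G = 0 → aeval y G = 0)
    {J : Fin k → Fin (N + 1)} (hJ : AlgebraicIndependent ℂ fun i => y (J i)) :
    AlgebraicIndependent ℂ fun i => x (J i) := by
  rw [algebraicIndependent_iff] at hJ ⊢
  intro p hp
  apply hJ
  have h1 : aeval y (rename J p) = 0 := by
    apply h
    rw [aeval_rename]
    exact hp
  rw [aeval_rename] at h1
  exact h1

private lemma TrdegLt_hom {K L : Type} [Field K] [Algebra ℂ K] [Field L] [Algebra ℂ L]
    {j : Fin (N + 1)} {x : Fin (N + 1) → K} {y : Fin (N + 1) → L} (hx : x j = 1) (hy : y j = 1)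
    (h : ∀ (n : ℕ) (G : MvPolynomial (Fin (N + 1)) ℂ), G.IsHomogeneous n → aeval x G = 0 →
      aeval y G = 0) (H : MvPolynomial (Fin (N + 1)) ℂ) (hH : aeval x H = 0) : aeval y H = 0 := by
  have key : ∀ {K : Type} [Field K] [Algebra ℂ K] {x : Fin (N + 1) → K}, x j = 1 →
      aeval x (∑ k ∈ Finset.range (H.totalDegree + 1),
        X j ^ (H.totalDegree - k) * homogeneousComponent k H) = aeval x H := by
    intro K _ _ x hx
    conv_rhs => rw [← MvPolynomial.sum_homogeneousComponent H]
    rw [map_sum, map_sum]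
    refine Finset.sum_congr rfl fun k _ => ?_
    rw [map_mul, map_pow, aeval_X, hx, one_pow, one_mul]
  rw [← key hy]
  refine h H.totalDegree _ ?_ (by rw [key hx, hH])
  apply MvPolynomial.IsHomogeneous.sum
  intro d hd
  have h1 : d ≤ H.totalDegree := Nat.lt_succ_iff.1 (Finset.mem_range.1 hd)
  have h2 := (MvPolynomial.isHomogeneous_X_pow (R := ℂ) j (H.totalDegree - d)).mul
    (MvPolynomial.homogeneousComponent_isHomogeneous d H)
  rwa [Nat.sub_add_cancel h1] at h2

private lemma TrdegLt_core {K L : Type} [Field K] [Algebra ℂ K] [Field L] [Algebra ℂ L] {w : ℕ}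
    {x : Fin (N + 1) → K} {y : Fin (N + 1) → L} {J : Fin w → Fin (N + 1)}
    (hxJ : IsTranscendenceBasis ℂ fun i => x (J i)) (hyJ : AlgebraicIndependent ℂ fun i => y (J i))
    (hxy : ∀ H : MvPolynomial (Fin (N + 1)) ℂ, aeval x H = 0 → aeval y H = 0)
    {F : MvPolynomial (Fin (N + 1)) ℂ} (hF : aeval x F ≠ 0) (hF' : aeval y F = 0) : False := by
  have halg := hxJ.isAlgebraic
  obtain ⟨q, hq0, hq⟩ := (halg.isAlgebraic (aeval x F)).exists_nonzero_coeff_and_aeval_eq_zero
    (mem_nonZeroDivisors_of_ne_zero hF)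
  have hc : ∀ u : Algebra.adjoin ℂ (Set.range fun i => x (J i)),
      ∃ c : MvPolynomial (Fin w) ℂ, aeval (fun i => x (J i)) c = (u : K) := by
    have h1 : ∀ u ∈ Algebra.adjoin ℂ (Set.range fun i => x (J i)),
        ∃ c : MvPolynomial (Fin w) ℂ, aeval (fun i => x (J i)) c = u := by
      intro u hu
      rw [Algebra.adjoin_range_eq_range_aeval] at hu
      exact hu
    exact fun u => h1 _ u.2
  choose c hc using hc
  have h1 : aeval x (∑ i ∈ Finset.range (q.natDegree + 1), rename J (c (q.coeff i)) * F ^ i) = 0 := by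
    rw [map_sum, ← hq, Polynomial.aeval_eq_sum_range]
    refine Finset.sum_congr rfl fun i _ => ?_
    rw [map_mul, map_pow, aeval_rename, Algebra.smul_def]
    congr 1
    exact hc _
  have h2 := hxy _ h1
  rw [map_sum, Finset.sum_range_succ', Finset.sum_eq_zero, zero_add, map_mul, map_pow, pow_zero,
    mul_one, aeval_rename] at h2
  · rw [algebraicIndependent_iff] at hyJ
    have h3 : c (q.coeff 0) = 0 := hyJ _ h2
    have h4 := hc (q.coeff 0)
    rw [h3, map_zero] at h4
    exact hq0 (Subtype.ext h4.symm)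
  · intro i _
    rw [map_mul, map_pow, hF', zero_pow (Nat.succ_ne_zero i), mul_zero]

theorem trdeg_lt [P.IsPrime] [Q.IsPrime] (hP : Homog P) (hQ : Homog Q) (hPQ : P ≤ Q) (hne : ¬ Q ≤ P)
    (hX : ∃ i, (X i : MvPolynomial (Fin (N + 1)) ℂ) ∉ Q) {r w : ℕ}
    (hr : ∃ z : Fin r → FunField P, IsTranscendenceBasis ℂ z)
    (hw : ∃ z : Fin w → FunField Q, IsTranscendenceBasis ℂ z) : w < r := by
  refine lt_of_le_of_ne (trdeg_mono hP hQ hPQ hr hw) ?_
  rintro rfl
  obtain ⟨z, hz⟩ := hw
  obtain ⟨z', hz'⟩ := hr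
  obtain ⟨j, hj0⟩ := hX
  have hj : coordFun Q j ≠ 0 := by
    intro h0
    exact hj0 ((Pool.Agent.H92.GT.Proj.aeval_coordFun_eq_zero_iff Q (X j)).1
      (by rw [aeval_X]; exact h0))
  have hj' : coordFun P j ≠ 0 := by
    intro h0
    apply hj
    have h1 := (Pool.Agent.H92.GT.Proj.aeval_coordFun_eq_zero_iff P (X j)).1
      (by rw [aeval_X]; exact h0)
    have h2 := (Pool.Agent.H92.GT.Proj.aeval_coordFun_eq_zero_iff Q (X j)).2 (hPQ h1)
    rwa [aeval_X] at h2
  obtain ⟨y, hy1, hygen, hyker⟩ := Pool.Agent.H92.GT.Proj.proj_point Q hj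
  obtain ⟨x, hx1, -, hxker⟩ := Pool.Agent.H92.GT.Proj.proj_point P hj'
  have halg : Algebra.IsAlgebraic (IntermediateField.adjoin ℂ (Set.range y))
      (H17GT.functionField Q) := by
    rw [hygen]
    exact ⟨fun f => isAlgebraic_algebraMap (⟨f, IntermediateField.mem_top⟩ :
      (⊤ : IntermediateField ℂ (H17GT.functionField Q)))⟩
  obtain ⟨J, hJ⟩ := Pool.Agent.H92.GT.exists_index halg (z := z) hz
  have hxy : ∀ H : MvPolynomial (Fin (N + 1)) ℂ, aeval x H = 0 → aeval y H = 0 :=
    TrdegLt_hom hx1 hy1 fun n G hG h => (hyker n G hG).2 (hPQ ((hxker n G hG).1 h))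
  have hind : AlgebraicIndependent ℂ fun i => x (J i) := TrdegLt_indep hxy hJ.1
  have h2 := IsTranscendenceBasis.cardinalMk_eq_trdeg (R := ℂ) (A := H17GT.functionField P)
    (x := z') hz'
  have hbasis : IsTranscendenceBasis ℂ fun i => x (J i) :=
    hind.isTranscendenceBasis_of_trdeg_le_of_finite h2.ge
  obtain ⟨F₀, hF₀Q, hF₀P⟩ := Set.not_subset.1 hne
  obtain ⟨n, hn⟩ : ∃ n, homogeneousComponent n F₀ ∉ P := by
    by_contra hcon
    push Not at hcon
    apply hF₀P
    change F₀ ∈ P
    rw [← MvPolynomial.sum_homogeneousComponent F₀]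
    exact Ideal.sum_mem _ fun i _ => hcon i
  have hFQ := hQ F₀ hF₀Q n
  exact TrdegLt_core hbasis hJ.1 hxy
    (fun h => hn ((hxker n _ (homogeneousComponent_isHomogeneous n F₀)).1 h))
    ((hyker n _ (homogeneousComponent_isHomogeneous n F₀)).2 hFQ)

end Pool.Agent.H17BP

end
end
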