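import Pool.Agent.H94.CB.H14.KB.KobFinal
import Pool.Agent.H94.CB.H14.KB.KobKNodal
import Pool.Agent.H94.CB.M69
import Pool.Agent.H94.CB.M90

/-! The parts of this file: H14.KB.KobKInd, H14.KB.KobKFinal. -/

section

/-!
# Kobayashi hyperbolicity modulo the curve: open surfaces, the general case
-/

open Topology Filter

noncomputable section

namespace Pool.Agent.H14.KB

attribute [-instance] ProperSMul.toContinuousSMul

open Pool.Agent Pool.Agent.H17BP
open Pool.Agent.H36.BPL (ModelK modelK_blow ModelK.exists_finset phi_pr)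
open Pool.Agent.H62.BU (blow total Ker phi om phi_smul)

/-- The boundedness theorem for models which are resolved by `n` blow-ups over every point. -/
def KobKN (n : ℕ) : Prop :=
  ∀ (V : Type) [NormedAddCommGroup V] [NormedSpace ℂ V] [FiniteDimensional ℂ V] (X K B : Set V) (m j : ℕ)
    (Ω : V → V → V → ℂ) (κ : Type) [Fintype κ] (Q : κ → V → ℂ) (D : ℕ), ModelK X K B m j Ω Q D →
    (∀ x ∈ X, ResAt X B x n) → Kob K Q D

theorem kobKN_zero : KobKN 0 := by
  intro V _ _ _ X K B m j Ω κ _ Q D h h0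
  exact nodalK_kob h fun x hx => (h0 x hx).nodal

theorem kobKN_step {n : ℕ} (ih : KobKN n) : ∀ (k : ℕ) (V : Type) [NormedAddCommGroup V] [NormedSpace ℂ V]
    [FiniteDimensional ℂ V] (X K B : Set V) (m j : ℕ) (Ω : V → V → V → ℂ) (κ : Type) [Fintype κ]
    (Q : κ → V → ℂ) (D : ℕ), ModelK X K B m j Ω Q D → (∀ x ∈ X, ResAt X B x (n + 1)) →
    (∃ F : Finset V, F.card ≤ k ∧ ∀ x ∈ X, ResAt X B x n ∨ ∃ q ∈ F, Pr x q) → Kob K Q D := by
  intro k
  induction k with
  | zero =>
    intro V _ _ _ X K B m j Ω κ _ Q D h h0 hF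
    obtain ⟨F, hF1, hF2⟩ := hF
    have hF0 : F = ∅ := Finset.card_eq_zero.1 (by omega)
    refine ih V X K B m j Ω κ Q D h fun x hx => ?_
    rcases hF2 x hx with h1 | ⟨q, hq, -⟩
    · exact h1
    · rw [hF0] at hq
      simp at hq
  | succ k ihk =>
    intro V _ _ _ X K B m j Ω κ _ Q D h h0 hF
    obtain ⟨F, hF1, hF2⟩ := hF
    have hX := h.surf.smul
    have hB := h.eqs.cone h.surf.smul
    by_cases hall : ∀ x ∈ X, ResAt X B x n
    · exact ih V X K B m j Ω κ Q D h hall
    push Not at hall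
    obtain ⟨x₀, hx₀, hx₀n⟩ := hall
    rcases hF2 x₀ hx₀ with h1 | ⟨q, hqF, hxq⟩
    · exact absurd h1 hx₀n
    have hqX : q ∈ X := (hxq.mem_iff hX).1 hx₀
    have hqn : ¬ ResAt X B q n := fun h1 => hx₀n (h1.pr hX hB hxq)
    have hq0 : ¬ ResAt X B q 0 := fun h1 => hqn (h1.mono_le (Nat.zero_le n))
    have hqB : q ∈ B := by
      by_contra hqB
      exact hq0 (ResAt.of_notMem h.surf h.eqs hqX hqB)
    have hqne : q ≠ 0 := fun e => h.surf.zero (e ▸ hqX)
    obtain ⟨r, l, hl⟩ := exists_forms hqne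
    classical
    refine kobK_blow h.surf hl h.eqs h.opn.sub h.opn.smul hqB ?_
    refine ihk (Fin r → V) (blow l X) (total l X K) (total l X B) (2 * m) j (om l j Ω) (κ × Fin r) _ D
      (modelK_blow h hl hqB) ?_ ⟨(F.erase q).image (phi l), ?_, ?_⟩
    · intro y hy
      rcases resAt_blow h.surf h.eqs hl hqB (h0 q hqX) hq0 hy with h1 | ⟨x, hx, -, -, h2⟩
      · exact h1.mono_le (Nat.le_succ n)
      · exact h2 _ (h0 x hx)
    · have h1 := Finset.card_image_le (s := F.erase q) (f := phi l)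
      have h2 := Finset.card_erase_of_mem hqF
      omega
    · intro y hy
      rcases resAt_blow h.surf h.eqs hl hqB (h0 q hqX) hq0 hy with h1 | ⟨x, hx, hxq', hyx, h2⟩
      · exact Or.inl h1
      · rcases hF2 x hx with h3 | ⟨q', hq'F, hxq''⟩
        · exact Or.inl (h2 _ h3)
        · refine Or.inr ⟨phi l q', Finset.mem_image_of_mem _ (Finset.mem_erase.2 ⟨?_, hq'F⟩),
            hyx.trans (phi_pr hxq'')⟩
          rintro rfl
          exact hxq' hxq''

theorem kobKN (n : ℕ) : KobKN n := by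
  induction n with
  | zero => exact kobKN_zero
  | succ n ih =>
    intro V _ _ _ X K B m j Ω κ _ Q D h h0
    obtain ⟨F, -, hF⟩ := h.exists_finset
    refine kobKN_step ih F.card V X K B m j Ω κ Q D h h0 ⟨F, le_rfl, fun x hx => ?_⟩
    rcases hF x hx with h1 | h1
    · exact Or.inl (h1.mono_le (Nat.zero_le n))
    · exact Or.inr h1

/-- **The boundedness theorem.** -/
theorem kob_of_modelK {V : Type} [NormedAddCommGroup V] [NormedSpace ℂ V] [FiniteDimensional ℂ V]
    {X K B : Set V} {m j : ℕ} {Ω : V → V → V → ℂ} {κ : Type} [Fintype κ] {Q : κ → V → ℂ} {D : ℕ}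
    (h : ModelK X K B m j Ω Q D) : Kob K Q D := by
  classical
  have hX := h.surf.smul
  have hB := h.eqs.cone h.surf.smul
  obtain ⟨F, hFX, hF⟩ := h.exists_finset
  have h1 : ∀ q : V, ∃ n, q ∈ F → ResAt X B q n := by
    intro q
    by_cases hq : q ∈ F
    · obtain ⟨n, hn⟩ := exists_resAt h.surf h.eqs h.thin (hFX q hq)
      exact ⟨n, fun _ => hn⟩
    · exact ⟨0, fun h2 => absurd h2 hq⟩
  choose n hn using h1
  refine kobKN (F.sup n) V X K B m j Ω κ Q D h fun x hx => ?_
  rcases hF x hx with h2 | ⟨q, hq, hxq⟩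
  · exact h2.mono_le (Nat.zero_le _)
  · exact ((hn q hq).mono_le (Finset.le_sup (f := n) hq)).pr hX hB hxq

end Pool.Agent.H14.KB

end
end

section

/-!
# Open surfaces: from functions to maps into projective space
-/

open Topology Filter MvPolynomial Metric

noncomputable section

namespace Pool.Agent.H14.KB

attribute [-instance] ProperSMul.toContinuousSMul

open Pool.Agent Pool.Agent.H17BP
open Pool.Agent.H17 (PN VanishesAt ZariskiClosedIn HolomorphicInto puncturedDisc)
open Pool.Agent.H36.BPL (ModelK)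

variable {N : ℕ}

/-- from functions to maps into projective space -/
theorem kobayashi_of_kobK {U : Set (PN N)} {K : Set (Fin (N + 1) → ℂ)} (hUK : ∀ x ∈ U, x.rep ∈ K)
    {Q : MvPolynomial (Fin (N + 1)) ℂ} {D : ℕ}
    (h : Kob K (fun (_ : Unit) x => eval x Q) D) :
    KobayashiHyperbolicModulo U Q D := by
  obtain ⟨M, C, -, -, hk⟩ := h
  refine ⟨M, C, fun f F hf hfX hF hFf => ?_⟩
  obtain ⟨a, ha⟩ := hk (fun z => (f z).rep) F (fun z hz => by
    have hz' : z ∈ ball (0 : ℂ) 1 := by simpa using hz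
    exact ⟨holP_rep hf hz', hUK _ (hfX z hz')⟩) hF hFf.self_of_nhds.1 (by
    filter_upwards [hFf] with z hz
    obtain ⟨h1, h2⟩ := hz
    obtain ⟨c, hc, h3⟩ := rep_mk_fin h1
    exact ⟨c, hc, by rw [h2, h3]⟩)
  refine ⟨a, ?_⟩
  have h1 : rhoS (fun (_ : Unit) x => eval x Q) D (F 0) = ‖eval (F 0) Q‖ / ‖F 0‖ ^ D := by
    unfold rhoS
    congr 1
    refine le_antisymm ((pi_norm_le_iff_of_nonneg (norm_nonneg _)).mpr fun _ => le_rfl) ?_
    exact norm_le_pi_norm (fun _ : Unit => eval (F 0) Q) ()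
  rw [h1] at ha
  exact ha

/-- **Kobayashi hyperbolicity of an open surface modulo a curve**, with respect to the metric of the projective space. -/
theorem kobayashi_of_modelK {U : Set (PN N)} {X K T : Set (Fin (N + 1) → ℂ)} (hUK : ∀ x ∈ U, x.rep ∈ K)
    {Q : MvPolynomial (Fin (N + 1)) ℂ} {D m j : ℕ}
    {Ω : (Fin (N + 1) → ℂ) → (Fin (N + 1) → ℂ) → (Fin (N + 1) → ℂ) → ℂ}
    (h : ModelK X K T m j Ω (fun (_ : Unit) x => eval x Q) D) : KobayashiHyperbolicModulo U Q D :=
  kobayashi_of_kobK hUK (kob_of_modelK h)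

end Pool.Agent.H14.KB

end
end
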