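import Pool.Agent.H94.CB.H13.SM.Surf
import Pool.Agent.H94.CB.H62.SA.StartF
import Pool.Agent.H94.CB.M67
import Pool.Agent.H94.CB.M68
import Pool.Agent.H94.CB.M80
import Pool.Agent.H94.CB.M91

/-! The parts of this file: H62.SA.FinalF, H62.SA.SameF. -/

section

/-!
# SA FinalF: surfaces of log general type which are proper over an affine variety
-/

set_option autoImplicit false

open Topology Filter MvPolynomial

noncomputable section

namespace Pool.Agent.H62.SA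

attribute [-instance] ProperSMul.toContinuousSMul

open Pool.Agent.H17 (PN VanishesAt ZariskiClosedIn HolomorphicInto puncturedDisc PseudoBrodyHyperbolic PseudoPicardHyperbolic)
open Pool.Agent.H62.FC (Homog)
open Pool.Agent.H17BP (Surface IsChart IsForm NoZeros)
open Pool.Agent.H17LG.Variety (FunField IsLogGeneralType)
open Pool.Agent.H13.SM (conTan)
open Pool.Agent.H13.OT (OrderTwo PseudoBrodyOrderTwo)
open Pool.Agent.H14.KB (KobayashiHyperbolicModulo PseudoKobayashiHyperbolic)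
open Pool.Agent.H68.KR (cone)

variable {N : ℕ} {P : Ideal (MvPolynomial (Fin (N + 1)) ℂ)} {s M : ℕ} {G : Fin s → MvPolynomial (Fin (N + 1)) ℂ}
  {F : Fin s → Fin (M + 1) → MvPolynomial (Fin (N + 1)) ℂ} {e : Fin s → ℕ}

/-- **The main theorem.** -/
theorem proper_surface [P.IsPrime] (hP : Homog P) {z : Fin 2 → FunField P} (hz : IsTranscendenceBasis ℂ z)
    (hsm : ∀ y : Fin (N + 1) → ℂ, y ≠ 0 → (∀ Q ∈ P, eval y Q = 0) → Module.finrank ℂ (conTan P y) ≤ 3)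
    (h : IsProperMap P G F e) (hgt : IsLogGeneralType (K := FunField P) (k := 2) (OnBd P G))
    {Ξ : Set (PN N)} (hΞ : ZariskiClosedIn (locVar P G) Ξ) (hne : Ξ ≠ locVar P G)
    (hbr : ∀ f : ℂ → PN N, HolomorphicInto f Set.univ → OrderTwo f → (∀ z, f z ∈ locVar P G) →
      (∃ z w, f z ≠ f w) → ∀ z, f z ∈ Ξ) :
    ∃ (Q : MvPolynomial (Fin (N + 1)) ℂ) (D : ℕ), Q.IsHomogeneous D ∧
      (∃ x ∈ locVar P G, ¬ VanishesAt Q x) ∧ (∀ x ∈ Ξ, VanishesAt Q x) ∧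
      KobayashiHyperbolicModulo (locVar P G) Q D ∧
      ∀ f : ℂ → PN N, HolomorphicInto f puncturedDisc → (∀ z ∈ puncturedDisc, f z ∈ locVar P G) →
        (∃ z ∈ puncturedDisc, ¬ VanishesAt Q (f z)) →
        ∃ g : ℂ → PN N, HolomorphicInto g (Metric.ball 0 1) ∧ ∀ z ∈ puncturedDisc, g z = f z := by
  have hX : Surface (cone P) := Pool.Agent.H13.SM.surface_cone hP hz fun y hy => hsm y hy.1 hy.2
  have hthin : ∀ σ τ, IsChart (cone P) σ τ → ∀ (d : ℕ) (Q : MvPolynomial (Fin (N + 1)) ℂ), Q.IsHomogeneous d →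
      Q ∉ P → ∃ᶠ p in 𝓝 (0 : ℂ × ℂ), eval (σ p) Q ≠ 0 := fun σ τ h d Q hQ hQP =>
    Pool.Agent.H13.SM.frequently_ne_zero hP hz (fun y hy => hsm y hy.1 hy.2) h hQ hQP
  obtain ⟨k, Ω, D₀, Q₀, hk, hQ₀, hQ₀P, hΩ, hnz, hpole⟩ := exists_formF_of_smooth P hP hz h.homG hsm hgt
  obtain ⟨Q, D, hQ, -, hex, hQΞ, m, j, Ω', hmodel⟩ := exists_modelF hP h hX hthin hk hΩ hpole hQ₀ hQ₀P hnz hΞ hne hbr
  refine ⟨Q, D, hQ, hex, hQΞ, ?_, fun f hf hfX hfQ => extends_of_modelF hP hmodel hf hfX hfQ⟩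
  exact Pool.Agent.H14.KB.kobayashi_of_modelK (fun x hx => (rep_mem_locCone hP).2 hx) hmodel

end Pool.Agent.H62.SA

end
end

section

/-!
# SA SameF: the same exceptional set, for surfaces which are proper over an affine variety

As `Pool.Agent.H17BP.SameK` (written by helper17), for the complement of the common zero set of several forms.
-/

set_option autoImplicit false

open Topology Filter MvPolynomial

noncomputable section

namespace Pool.Agent.H62.SA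

attribute [-instance] ProperSMul.toContinuousSMul

open Pool.Agent.H17 (PN VanishesAt ZariskiClosedIn HolomorphicInto puncturedDisc)
open Pool.Agent.H17LG.Variety (FunField IsLogGeneralType)
open Pool.Agent.H62.FC (Homog exists_fin_basis trdeg_mono)
open Pool.Agent.H17BP (Pr HolP Picard Brody variety mapIdeal mapIdeal_isPrime exists_X_notMem mk_mem_variety mem_mapIdeal_form vanishesAt_mk le_mapIdeal mapIdeal_homog trdeg_lt eq_of_trdeg_zero mem_variety_mapIdeal rep_mem_cone cone_closed cone_smul' isPreconnected_puncturedDisc extend_of_picard holP_rep)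
open Pool.Agent.H36.BPL (Brody2 analyticAt_form curve_picard2)
open Pool.Agent.H36.BP (OrdTwo)
open Pool.Agent.H13.SM (conTan)
open Pool.Agent.H13.OT (OrderTwo mk_eq_of_pr pr_of_mk_eq holomorphicInto_mk OrdTwo.orderTwo)
open Pool.Agent.H14.KB (KobayashiHyperbolicModulo)
open Pool.Agent.H68.KR (cone)

variable {N : ℕ} {P I : Ideal (MvPolynomial (Fin (N + 1)) ℂ)} {s M : ℕ} {G : Fin s → MvPolynomial (Fin (N + 1)) ℂ}
  {F : Fin s → Fin (M + 1) → MvPolynomial (Fin (N + 1)) ℂ} {e : Fin s → ℕ}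

/-- A closed subvariety is proper over the same affine variety. -/
theorem IsProperMap.mono (h : IsProperMap P G F e) (hPI : P ≤ I) : IsProperMap I G F e where
  hom := h.hom
  zero := h.zero
  rel m n j := hPI (h.rel m n j)
  noZero x hx := h.noZero x fun Q hQ => hx Q (hPI hQ)

/-- A holomorphic disc in the intersection of a variety of dimension at most one with hypersurfaces is constant. -/
theorem disc_constF [I.IsPrime] (hI : Homog I) {w : ℕ} (hw : ∃ z : Fin w → FunField I, IsTranscendenceBasis ℂ z)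
    (hw2 : w < 2) (hG : ∀ m, (G m).IsHomogeneous (e m)) {m : Fin s} (hGI : G m ∉ I) {f : ℂ → Fin (N + 1) → ℂ} {z₀ : ℂ}
    (hf : AnalyticAt ℂ f z₀) (h : ∀ᶠ z in 𝓝 z₀, f z ∈ cone I ∧ f z ∉ locCone I G) :
    ∀ᶠ z in 𝓝 z₀, Pr (f z) (f z₀) := by
  classical
  have hm : ∀ᶠ z in 𝓝 z₀, eval (f z) (G m) = 0 := by
    filter_upwards [h] with z hz
    by_contra hcon
    exact hz.2 ⟨hz.1, m, hcon⟩
  obtain ⟨r, hr, hball⟩ := Metric.eventually_nhds_iff_ball.1 ((hf.eventually_analyticAt.and h).and hm)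
  set U := Metric.ball z₀ r with hU
  have hz₀U : z₀ ∈ U := Metric.mem_ball_self hr
  have hne0 : f z₀ ≠ 0 := (hball z₀ hz₀U).1.2.1.1
  let g : ℂ → PN N := fun z => if hz : f z ≠ 0 then Projectivization.mk ℂ (f z) hz else Projectivization.mk ℂ (f z₀) hne0
  have hg : ∀ z ∈ U, ∃ hz : f z ≠ 0, g z = Projectivization.mk ℂ (f z) hz := by
    intro z hz
    have h1 : f z ≠ 0 := (hball z hz).1.2.1.1
    exact ⟨h1, dif_pos h1⟩
  have hgh : HolomorphicInto g U := by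
    intro z hz
    refine ⟨f, (hball z hz).1.1, ?_⟩
    filter_upwards [Metric.isOpen_ball.mem_nhds hz] with y hy
    exact hg y hy
  have hJp : (mapIdeal g U).IsPrime :=
    mapIdeal_isPrime Metric.isOpen_ball (convex_ball z₀ r).isPreconnected ⟨z₀, hz₀U⟩ hgh
  have hJX := exists_X_notMem (f := g) (U := U) ⟨z₀, hz₀U⟩
  have hgI : ∀ z ∈ U, g z ∈ variety I := by
    intro z hz
    obtain ⟨h1, h2⟩ := hg z hz
    rw [h2, mk_mem_variety hI h1 (cone_smul' hI)]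
    exact (hball z hz).1.2.1
  have hGJ : G m ∈ mapIdeal g U := by
    rw [mem_mapIdeal_form (hG m)]
    intro z hz
    obtain ⟨h1, h2⟩ := hg z hz
    rw [h2, vanishesAt_mk (hG m)]
    exact (hball z hz).2
  obtain ⟨w', hw'⟩ := exists_fin_basis (P := mapIdeal g U) hJX
  have hlt : w' < w := trdeg_lt hI mapIdeal_homog (le_mapIdeal hI hgI) (fun h1 => hGI (h1 hGJ)) hJX hw hw'
  have hw0 : w' = 0 := by omega
  subst hw0
  filter_upwards [Metric.ball_mem_nhds z₀ hr] with z hz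
  have h1 := eq_of_trdeg_zero mapIdeal_homog hJX hw' (g z) (mem_variety_mapIdeal hz) (g z₀)
    (mem_variety_mapIdeal hz₀U)
  obtain ⟨h2, h3⟩ := hg z hz
  obtain ⟨h4, h5⟩ := hg z₀ hz₀U
  rw [h3, h5] at h1
  exact pr_of_mk_eq h2 h4 h1

/-- Holomorphic maps to an open curve which is not contained in the exceptional set. -/
theorem curve_caseF [P.IsPrime] (hP : Homog P) {z : Fin 2 → FunField P} (hz : IsTranscendenceBasis ℂ z)
    (h : IsProperMap P G F e)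
    {S : Set (MvPolynomial (Fin (N + 1)) ℂ)} (hS : ∀ Q ∈ S, ∃ n, Q.IsHomogeneous n)
    (hbr : ∀ f : ℂ → PN N, HolomorphicInto f Set.univ → OrderTwo f → (∀ z, f z ∈ locVar P G) →
      (∃ z w, f z ≠ f w) → ∀ z, f z ∈ {x | x ∈ locVar P G ∧ ∀ Q ∈ S, VanishesAt Q x})
    {d : ℕ} {Q : MvPolynomial (Fin (N + 1)) ℂ} (hQ : Q.IsHomogeneous d) (hQP : Q ∉ P) {U : Set ℂ} (hUo : IsOpen U)
    (hUc : IsPreconnected U) {f : ℂ → PN N} (hf : HolomorphicInto f U) (hfX : ∀ z ∈ U, f z ∈ locVar P G)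
    (hfQ : ∀ z ∈ U, VanishesAt Q (f z))
    (hfS : ∃ z ∈ U, f z ∉ {x | x ∈ locVar P G ∧ ∀ Q ∈ S, VanishesAt Q x}) :
    ∃ I : Ideal (MvPolynomial (Fin (N + 1)) ℂ), Homog I ∧ (∀ z ∈ U, (f z).rep ∈ locCone I G) ∧
      Picard (locCone I G) ∅ ∧ Brody (locCone I G) ∅ := by
  obtain ⟨z₁, hz₁, hz₁S⟩ := hfS
  have hne : U.Nonempty := ⟨z₁, hz₁⟩
  set I := mapIdeal f U with hI
  have hIp : I.IsPrime := mapIdeal_isPrime hUo hUc hne hf
  have hIh : Homog I := mapIdeal_homog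
  have hfP : ∀ z ∈ U, f z ∈ variety P := fun z hz => ⟨(hfX z hz).1, fun m => m.elim0⟩
  have hPI : P ≤ I := le_mapIdeal hP hfP
  have hIX : ∃ i, (X i : MvPolynomial (Fin (N + 1)) ℂ) ∉ I := exists_X_notMem hne
  obtain ⟨w, hw⟩ := exists_fin_basis (P := I) hIX
  have hw2 : w < 2 := trdeg_lt hP hIh hPI (fun h => hQP (h ((mem_mapIdeal_form hQ).2 hfQ))) hIX ⟨z, hz⟩ hw
  obtain ⟨-, m, hm⟩ := hfX z₁ hz₁
  have hGI : G m ∉ I := fun h1 => hm ((mem_mapIdeal_form (h.homG m)).1 h1 z₁ hz₁)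
  obtain ⟨R, hRS, hRz⟩ : ∃ R ∈ S, ¬ VanishesAt R (f z₁) := by
    by_contra hcon
    push Not at hcon
    exact hz₁S ⟨hfX z₁ hz₁, hcon⟩
  obtain ⟨n, hR⟩ := hS R hRS
  have hRI : R ∉ I := fun h => hRz ((mem_mapIdeal_form hR).1 h z₁ hz₁)
  have hI' : IsProperMap I G F e := h.mono hPI
  refine ⟨I, hIh, fun z hz => (rep_mem_locCone hIh).2 ⟨(mem_variety_mapIdeal hz).1, (hfX z hz).2⟩, ?_⟩
  have hO := openPart_locCone hI' hIh
  refine curve_picard2 (X := cone I) (K := locCone I G) (fun h => h.1 rfl) cone_closed hO.sub hO.smul hO.rel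
    (affProper_locCone hI' hIh) (fun f z₀ hf h1 => ?_) ?_
  · filter_upwards [disc_constF hIh hw hw2 h.homG hGI hf h1] with z hz
    obtain ⟨c, -, hc⟩ := hz
    exact ⟨c, hc⟩
  -- there are no entire curves of order two
  rintro h₁ hh hhK hord ⟨z₂, -⟩ a c
  by_contra hac
  have hh0 : ∀ z, h₁ z ≠ 0 := fun z => (hhK z).1.1
  let g : ℂ → PN N := fun z => Projectivization.mk ℂ (h₁ z) (hh0 z)
  have hg : HolomorphicInto g Set.univ := holomorphicInto_mk hh0 hh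
  have hgI : ∀ z, g z ∈ locVar I G := fun z => (mk_mem_locVar hIh h.homG (hh0 z)).2 (hhK z)
  have hgP : ∀ z, g z ∈ locVar P G := fun z => ⟨fun Q hQ n hn => (hgI z).1 Q (hPI hQ) n hn, (hgI z).2⟩
  have hgS := hbr g hg (OrdTwo.orderTwo hh0 hh hord) hgP ⟨a, c, fun he => hac (pr_of_mk_eq _ _ he)⟩
  have hJp : (mapIdeal g Set.univ).IsPrime := mapIdeal_isPrime isOpen_univ isPreconnected_univ Set.univ_nonempty hg
  have hJX := exists_X_notMem (f := g) Set.univ_nonempty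
  have hIJ : I ≤ mapIdeal g Set.univ := le_mapIdeal hIh fun z _ => ⟨(hgI z).1, fun m => m.elim0⟩
  have hRJ : R ∈ mapIdeal g Set.univ := (mem_mapIdeal_form hR).2 fun z _ => (hgS z).2 R hRS
  obtain ⟨w', hw'⟩ := exists_fin_basis (P := mapIdeal g Set.univ) hJX
  have hlt : w' < w := trdeg_lt hIh mapIdeal_homog hIJ (fun h => hRI (h hRJ)) hJX hw hw'
  have hw0 : w' = 0 := by omega
  subst hw0
  exact hac (pr_of_mk_eq _ _ (eq_of_trdeg_zero mapIdeal_homog hJX hw' (g a) (mem_variety_mapIdeal (Set.mem_univ a))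
    (g c) (mem_variety_mapIdeal (Set.mem_univ c))))

/-- The extension theorem with the same exceptional set. -/
theorem picard_sameF [P.IsPrime] (hP : Homog P) {z : Fin 2 → FunField P} (hz : IsTranscendenceBasis ℂ z)
    (h : IsProperMap P G F e) {Ξ : Set (PN N)} (hΞ : ZariskiClosedIn (locVar P G) Ξ)
    (hbr : ∀ f : ℂ → PN N, HolomorphicInto f Set.univ → OrderTwo f → (∀ z, f z ∈ locVar P G) →
      (∃ z w, f z ≠ f w) → ∀ z, f z ∈ Ξ)
    {d : ℕ} {Q : MvPolynomial (Fin (N + 1)) ℂ} (hQ : Q.IsHomogeneous d) (hQP : Q ∉ P)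
    (hpic : ∀ f : ℂ → PN N, HolomorphicInto f puncturedDisc → (∀ z ∈ puncturedDisc, f z ∈ locVar P G) →
      (∃ z ∈ puncturedDisc, ¬ VanishesAt Q (f z)) →
      ∃ g : ℂ → PN N, HolomorphicInto g (Metric.ball 0 1) ∧ ∀ z ∈ puncturedDisc, g z = f z)
    {f : ℂ → PN N} (hf : HolomorphicInto f puncturedDisc) (hfX : ∀ z ∈ puncturedDisc, f z ∈ locVar P G)
    (hfΞ : ∃ z ∈ puncturedDisc, f z ∉ Ξ) :
    ∃ g : ℂ → PN N, HolomorphicInto g (Metric.ball 0 1) ∧ ∀ z ∈ puncturedDisc, g z = f z := by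
  by_cases hfQ : ∃ z ∈ puncturedDisc, ¬ VanishesAt Q (f z)
  · exact hpic f hf hfX hfQ
  push Not at hfQ
  obtain ⟨S, hS, rfl⟩ := hΞ
  obtain ⟨I, -, hK, hpI, -⟩ := curve_caseF hP hz h hS hbr hQ hQP (Metric.isOpen_ball.sdiff isClosed_singleton)
    isPreconnected_puncturedDisc hf hfX hfQ hfΞ
  obtain ⟨z₁, hz₁, -⟩ := hfΞ
  exact extend_of_picard hpI hf hK ⟨z₁, hz₁, Set.notMem_empty _⟩

/-- Entire curves of arbitrary order, with the same exceptional set. -/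
theorem brody_sameF [P.IsPrime] (hP : Homog P) {z : Fin 2 → FunField P} (hz : IsTranscendenceBasis ℂ z)
    (h : IsProperMap P G F e) {Ξ : Set (PN N)} (hΞ : ZariskiClosedIn (locVar P G) Ξ)
    (hbr : ∀ f : ℂ → PN N, HolomorphicInto f Set.univ → OrderTwo f → (∀ z, f z ∈ locVar P G) →
      (∃ z w, f z ≠ f w) → ∀ z, f z ∈ Ξ)
    {d : ℕ} {Q : MvPolynomial (Fin (N + 1)) ℂ} (hQ : Q.IsHomogeneous d) (hQP : Q ∉ P)
    (hpic : ∀ f : ℂ → PN N, HolomorphicInto f Set.univ → (∀ z, f z ∈ locVar P G) →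
      (∃ z w, f z ≠ f w) → ∀ z, VanishesAt Q (f z))
    {f : ℂ → PN N} (hf : HolomorphicInto f Set.univ) (hfX : ∀ z, f z ∈ locVar P G)
    (hne : ∃ z w, f z ≠ f w) : ∀ z, f z ∈ Ξ := by
  intro z₀
  by_contra hcon
  obtain ⟨S, hS, rfl⟩ := hΞ
  obtain ⟨I, -, hK, -, hbI⟩ := curve_caseF hP hz h hS hbr hQ hQP isOpen_univ isPreconnected_univ hf
    (fun z _ => hfX z) (fun z _ => hpic f hf hfX hne z) ⟨z₀, Set.mem_univ _, hcon⟩
  obtain ⟨a, c, hac⟩ := hne
  apply hac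
  have h1 := hbI (fun z => (f z).rep) (fun z => holP_rep hf (Set.mem_univ z)) (fun z => hK z (Set.mem_univ z))
    ⟨z₀, Set.notMem_empty _⟩ a c
  have h2 := h1.mk_eq (f a).rep_nonzero (f c).rep_nonzero
  rwa [Projectivization.mk_rep, Projectivization.mk_rep] at h2

/-- **The main theorem, with the exceptional set `Ξ`.** -/
theorem proper_main [hPp : P.IsPrime] (hP : Homog P) {z : Fin 2 → FunField P} (hz : IsTranscendenceBasis ℂ z)
    (hsm : ∀ y : Fin (N + 1) → ℂ, y ≠ 0 → (∀ Q ∈ P, eval y Q = 0) → Module.finrank ℂ (conTan P y) ≤ 3)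
    (h : IsProperMap P G F e) (hgt : IsLogGeneralType (K := FunField P) (k := 2) (OnBd P G))
    {Ξ : Set (PN N)} (hΞ : ZariskiClosedIn (locVar P G) Ξ) (hne : Ξ ≠ locVar P G)
    (hbr : ∀ f : ℂ → PN N, HolomorphicInto f Set.univ → OrderTwo f → (∀ z, f z ∈ locVar P G) →
      (∃ z w, f z ≠ f w) → ∀ z, f z ∈ Ξ) :
    (∀ f : ℂ → PN N, HolomorphicInto f Set.univ → (∀ z, f z ∈ locVar P G) →
      (∃ z w, f z ≠ f w) → ∀ z, f z ∈ Ξ) ∧
    (∀ f : ℂ → PN N, HolomorphicInto f puncturedDisc → (∀ z ∈ puncturedDisc, f z ∈ locVar P G) →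
      (∃ z ∈ puncturedDisc, f z ∉ Ξ) →
      ∃ g : ℂ → PN N, HolomorphicInto g (Metric.ball 0 1) ∧ ∀ z ∈ puncturedDisc, g z = f z) ∧
    ∃ (Q : MvPolynomial (Fin (N + 1)) ℂ) (D : ℕ), Q.IsHomogeneous D ∧
      (∃ x ∈ locVar P G, ¬ VanishesAt Q x) ∧ (∀ x ∈ Ξ, VanishesAt Q x) ∧
      KobayashiHyperbolicModulo (locVar P G) Q D := by
  obtain ⟨Q, D, hQ, ⟨x, hx, hxQ⟩, hQΞ, hkob, hpic⟩ := proper_surface hP hz hsm h hgt hΞ hne hbr
  have hQP : Q ∉ P := fun h => hxQ (hx.1 Q h D hQ)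
  refine ⟨fun f hf hfX hfn => brody_sameF hP hz h hΞ hbr hQ hQP
      (fun f hf hfX hfn z => Pool.Agent.H14.KB.brody_of_kobayashi hQ hkob hf hfX hfn z) hf hfX hfn,
    fun f hf hfX hfΞ => picard_sameF hP hz h hΞ hbr hQ hQP hpic hf hfX hfΞ,
    Q, D, hQ, ⟨x, hx, hxQ⟩, hQΞ, hkob⟩

end Pool.Agent.H62.SA

end
end
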