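import Pool.Agent.H94.CB.H62.Et.Hat
import Pool.Agent.H94.CB.M83
import Pool.Agent.H94.CB.M85
import Pool.Agent.H94.CB.M92
import Pool.Agent.H94.CB.M95

/-! The parts of this file: H17G.FourG, H62.Et.Dom, H62.Et.Four. -/

section

/-!
# G FourG: the four properties of the Green–Griffiths–Lang conjecture from the degeneracy of entire curves of order two
-/

set_option autoImplicit false

open MvPolynomial

noncomputable section

namespace Pool.Agent.H17G

attribute [-instance] ProperSMul.toContinuousSMul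

open Pool.Agent.H17 (PN VanishesAt ZariskiClosedIn HolomorphicInto puncturedDisc)
open Pool.Agent.H62.FC (Homog closureIn entireCurves)
open Pool.Agent.H17LG.Variety (FunField IsLogGeneralType)
open Pool.Agent.H13.SM (conTan)
open Pool.Agent.H14.KB (KobayashiHyperbolicModulo)
open Pool.Agent.H13.OT (OrderTwo)
open Pool.Agent.H17EF (projVar GT locVar_one onBd_one exists_coord exists_point closed_union exists_form_of_ne)

variable {N : ℕ}

theorem closed_closureIn (X S : Set (PN N)) : ZariskiClosedIn X (closureIn X S) := by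
  refine ⟨{Q | (∃ n, Q.IsHomogeneous n) ∧ ∀ y ∈ S, VanishesAt Q y}, fun Q hQ => hQ.1, ?_⟩
  ext x
  constructor
  · rintro ⟨hx, h⟩
    exact ⟨hx, fun Q ⟨⟨n, hn⟩, hQ⟩ => h n Q hn hQ⟩
  · rintro ⟨hx, h⟩
    exact ⟨hx, fun n Q hn hQ => h Q ⟨⟨n, hn⟩, hQ⟩⟩

theorem closed_form (X : Set (PN N)) {R : MvPolynomial (Fin (N + 1)) ℂ} {n : ℕ} (hR : R.IsHomogeneous n) :
    ZariskiClosedIn X {x | x ∈ X ∧ VanishesAt R x} := by
  refine ⟨{R}, fun Q hQ => ?_, ?_⟩
  · rw [Set.mem_singleton_iff.1 hQ]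
    exact ⟨n, hR⟩
  · ext x
    constructor
    · rintro ⟨hx, h⟩
      exact ⟨hx, fun Q hQ => by rw [Set.mem_singleton_iff.1 hQ]; exact h⟩
    · rintro ⟨hx, h⟩
      exact ⟨hx, h R rfl⟩

section

variable {P : Ideal (MvPolynomial (Fin (N + 1)) ℂ)} [P.IsPrime] {z : Fin 2 → FunField P}

/-- The Zariski closure of the union of the images of the non-constant entire curves. -/
def excG (P : Ideal (MvPolynomial (Fin (N + 1)) ℂ)) : Set (PN N) := closureIn (projVar P) (entireCurves (projVar P))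

theorem nonempty_coord (hz : IsTranscendenceBasis ℂ z) : ∃ i, (X i : MvPolynomial (Fin (N + 1)) ℂ) ∉ P := by
  by_contra hcon
  push Not at hcon
  have h0 : ∀ i, Pool.Agent.H17GT.coordFun P i = 0 := by
    intro i
    unfold Pool.Agent.H17GT.coordFun
    rw [Ideal.Quotient.eq_zero_iff_mem.2 (hcon i), map_zero]
  have hbot : Pool.Agent.H17GT.functionField P = ⊥ := by
    unfold Pool.Agent.H17GT.functionField
    rw [eq_bot_iff, IntermediateField.adjoin_le_iff]
    rintro y ⟨i, j, rfl⟩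
    rw [h0 i, zero_div]
    exact zero_mem _
  have h1 : Transcendental ℂ (z 0) := hz.1.transcendental 0
  apply h1
  have h2 : (show Pool.Agent.H17GT.functionField P from z 0).1 ∈
      (⊥ : IntermediateField ℂ (FractionRing (MvPolynomial (Fin (N + 1)) ℂ ⧸ P))) := by
    rw [← hbot]
    exact (show Pool.Agent.H17GT.functionField P from z 0).2
  obtain ⟨c, hc⟩ := IntermediateField.mem_bot.1 h2
  have h3 : z 0 = algebraMap ℂ (FunField P) c := Subtype.ext hc.symm
  rw [h3]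
  exact isAlgebraic_algebraMap c

theorem four_of_orderTwo (hP : Homog P) (hz : IsTranscendenceBasis ℂ z)
    (hsm : ∀ y : Fin (N + 1) → ℂ, y ≠ 0 → (∀ Q ∈ P, eval y Q = 0) → Module.finrank ℂ (conTan P y) ≤ 3) (hgt : GT P 2)
    (hbr : ∃ (R : MvPolynomial (Fin (N + 1)) ℂ) (n : ℕ), R.IsHomogeneous n ∧ R ∉ P ∧ ∀ f : ℂ → PN N, HolomorphicInto f Set.univ →
      OrderTwo f → (∀ z, f z ∈ projVar P) → (∃ z w, f z ≠ f w) → ∀ z, VanishesAt R (f z)) :
    (ZariskiClosedIn (projVar P) (excG P) ∧ excG P ≠ projVar P) ∧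
    (∀ f : ℂ → PN N, HolomorphicInto f Set.univ → (∀ z, f z ∈ projVar P) → (∃ z w, f z ≠ f w) → ∀ z, f z ∈ excG P) ∧
    (∀ f : ℂ → PN N, HolomorphicInto f puncturedDisc → (∀ z ∈ puncturedDisc, f z ∈ projVar P) → (∃ z ∈ puncturedDisc, f z ∉ excG P) →
      ∃ g : ℂ → PN N, HolomorphicInto g (Metric.ball 0 1) ∧ ∀ z ∈ puncturedDisc, g z = f z) ∧
    (∀ (Q : Ideal (MvPolynomial (Fin (N + 1)) ℂ)) [Q.IsPrime], Homog Q → P ≤ Q → ¬ projVar Q ⊆ excG P →
      ∀ k, 1 ≤ k → (∃ z : Fin k → FunField Q, IsTranscendenceBasis ℂ z) → GT Q k) ∧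
    ∃ (Q : MvPolynomial (Fin (N + 1)) ℂ) (D : ℕ), Q.IsHomogeneous D ∧ (∃ x ∈ projVar P, ¬ VanishesAt Q x) ∧
      (∀ x ∈ excG P, VanishesAt Q x) ∧ KobayashiHyperbolicModulo (projVar P) Q D := by
  obtain ⟨R, n, hR, hRP, hbr⟩ := hbr
  have hX := nonempty_coord hz
  have hlv := locVar_one P
  have hproper : Pool.Agent.H62.SA.IsProperMap P (fun _ : Fin 1 => (1 : MvPolynomial (Fin (N + 1)) ℂ))
      (fun _ (_ : Fin (0 + 1)) => 1) (fun _ => 0) := by
    refine ⟨fun _ _ => isHomogeneous_one _ _, fun _ => rfl, fun _ _ _ => ?_, fun x _ => ⟨0, 0, ?_⟩⟩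
    · rw [mul_one, sub_self]
      exact P.zero_mem
    · unfold VanishesAt
      simp
  have hgt' : IsLogGeneralType (K := FunField P) (k := 2)
      (Pool.Agent.H62.SA.OnBd P (fun _ : Fin 1 => (1 : MvPolynomial (Fin (N + 1)) ℂ))) := by
    rw [onBd_one]
    exact hgt
  -- a first exceptional set
  set Ξ₀ : Set (PN N) := {x | x ∈ projVar P ∧ VanishesAt R x} with hΞ₀
  have hcl₀ : ZariskiClosedIn (projVar P) Ξ₀ := closed_form _ hR
  obtain ⟨x₀, hx₀, hRx₀⟩ := exists_point hP hX hRP hR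
  have hne₀ : Ξ₀ ≠ projVar P := by
    intro h
    rw [← h] at hx₀
    exact hRx₀ hx₀.2
  have hmain₀ := Pool.Agent.H62.SA.proper_main (G := fun _ : Fin 1 => (1 : MvPolynomial (Fin (N + 1)) ℂ)) hP hz hsm hproper hgt'
    (Ξ := Ξ₀) (by rw [hlv]; exact hcl₀) (by rw [hlv]; exact hne₀) (by
      rw [hlv]
      exact fun f hf hfo hfX hfn z => ⟨hfX z, hbr f hf hfo hfX hfn z⟩)
  rw [hlv] at hmain₀
  obtain ⟨hbrody₀, -, -⟩ := hmain₀
  -- the closure of the union of all entire curves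
  have hcl : ZariskiClosedIn (projVar P) (excG P) := closed_closureIn _ _
  have hne : excG P ≠ projVar P := by
    intro h
    rw [← h] at hx₀
    apply hRx₀
    refine hx₀.2 n R hR ?_
    rintro _ ⟨f, hf, hfX, hfn, z, rfl⟩
    exact (hbrody₀ f hf hfX hfn z).2
  have hbr' : ∀ f : ℂ → PN N, HolomorphicInto f Set.univ → (∀ z, f z ∈ projVar P) → (∃ z w, f z ≠ f w) → ∀ z, f z ∈ excG P :=
    fun f hf hfX hfn z => ⟨hfX z, fun k Q _ hQ => hQ _ ⟨f, hf, hfX, hfn, z, rfl⟩⟩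
  have hmain := Pool.Agent.H62.SA.proper_main (G := fun _ : Fin 1 => (1 : MvPolynomial (Fin (N + 1)) ℂ)) hP hz hsm hproper hgt'
    (Ξ := excG P) (by rw [hlv]; exact hcl) (by rw [hlv]; exact hne) (by
      rw [hlv]
      exact fun f hf _ hfX hfn z => hbr' f hf hfX hfn z)
  rw [hlv] at hmain
  obtain ⟨hbrody, hpicard, Q, D, hQ, hQx, hQΞ, hkob⟩ := hmain
  refine ⟨⟨hcl, hne⟩, hbrody, hpicard, ?_, Q, D, hQ, hQx, hQΞ, hkob⟩
  intro Q _ hQ hPQ hsub k hk hz'
  have h1 := Pool.Agent.H13.CV.strongly_of_brodyL P hP ⟨z, hz⟩ (G := fun _ : Fin 1 => (1 : MvPolynomial (Fin (N + 1)) ℂ))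
    (fun _ => ⟨0, isHomogeneous_one _ _⟩) (Ξ := excG P) (by rw [hlv]; exact hcl) hgt' (by rw [hlv]; exact hbrody) Q hQ hPQ
    (by rw [locVar_one]; exact hsub) k hk hz'
  rw [onBd_one] at h1
  exact h1

end

end Pool.Agent.H17G

end
end

section

/-!
# Et Dom: the forms which define an etale covering

Proof of `dominant`.  Values: for `y = mk y₀` with `vals γ y₀ ≠ 0` and a form `Q` of degree `n`: `VanishesAt Q (rmap γ y) ↔ VanishesAt (aeval γ Q) y`
(`Pool.Agent.H7.Bir.vanishesAt_rmap`).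
(←) If `Q ∈ P` then `aeval γ Q` (a form of degree `D n`, `IsHomogeneous.aeval`) vanishes at all `y ∈ projVar P'`: if `vals γ y.rep ≠ 0` because
`p y = rmap γ y ∈ projVar P`; if `vals γ y.rep = 0` and `n ≥ 1` because the value is `Q(0) = 0`; if `n = 0`, `Q` is a constant in the proper ideal `P`, so `0`.  So
it is in `P'` (`Pool.Agent.H17EF.exists_point`, `exists_coord`).
(→) Let `aeval γ Q ∈ P'` and suppose `Q ∉ P`.  By `exists_point` there is `x ∈ projVar P` with `Q(x) ≠ 0`, `x = p y'` (`surj`), and `γ'` from `hp.regular y'`,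
`p = rmap γ'` where `vals γ' ≠ 0`.  For all `i, j` the form `γ i * γ' j - γ j * γ' i` vanishes on `projVar P'` (where both are defined
`rmap γ y = p y = rmap γ' y`; where one of the tuples is `0` trivially), so it is in `P'`.  Choose `j` with `γ j ∉ P'` (by `hne`).  Then
`(γ j)^n * aeval γ' Q - (γ' j)^n * aeval γ Q ∈ P'` (`Q` homogeneous: `Q(γ j • γ') = Q(γ' j • γ)` modulo `P'`; work in the domain `MvPolynomial ⧸ P'`), so
`aeval γ' Q ∈ P'`, so `Q(vals γ' y') = 0`, contradiction to `Q(p y') ≠ 0`.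
Proof of `exists_cover`: for every `y ∈ projVar P'` take `γ` from `hp.regular`; the set of `y'` with `vals γ y'.rep ≠ 0` contains all `y'` with `pn y'` near `pn y`
(`pn_near`); `pn '' projVar P'` is compact (`isCompact_pn`): finitely many suffice (`IsCompact.elim_nhds_subcover` or `elim_finite_subcover`).
-/

set_option autoImplicit false

open Topology Filter MvPolynomial

noncomputable section

namespace Pool.Agent.H62.Et

attribute [-instance] ProperSMul.toContinuousSMul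

open Pool.Agent.H17 (PN VanishesAt HolomorphicInto)
open Pool.Agent.H62.FC (Homog)
open Pool.Agent.H17EF (projVar)
open Pool.Agent.H62.EF (MN)
open Pool.Agent.H7.Bir (vals rmap)

variable {N M : ℕ} {P : Ideal (MvPolynomial (Fin (N + 1)) ℂ)} {P' : Ideal (MvPolynomial (Fin (M + 1)) ℂ)} {p : PN M → PN N}

private theorem Dom_aeval_homog {γ : Fin (N + 1) → MvPolynomial (Fin (M + 1)) ℂ} {D : ℕ} (hγ : ∀ i, (γ i).IsHomogeneous D) {n : ℕ}
    {Q : MvPolynomial (Fin (N + 1)) ℂ} (hQ : Q.IsHomogeneous n) : (aeval γ Q).IsHomogeneous (D * n) :=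
  hQ.aeval _ hγ

private theorem Dom_smul {n : ℕ} {Q : MvPolynomial (Fin (N + 1)) ℂ} (hQ : Q.IsHomogeneous n) (c : ℂ) (x : Fin (N + 1) → ℂ) :
    eval (c • x) Q = c ^ n * eval x Q :=
  Pool.Agent.H17BP.eval_smul_form hQ c x

/-- two systems of forms which represent `p` are proportional at every point -/
private theorem Dom_prop {γ γ' : Fin (N + 1) → MvPolynomial (Fin (M + 1)) ℂ}
    (hrep : ∀ y ∈ projVar P', vals γ y.rep ≠ 0 → p y = rmap γ y) (hrep' : ∀ y ∈ projVar P', vals γ' y.rep ≠ 0 → p y = rmap γ' y)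
    {y : PN M} (hy : y ∈ projVar P') (i j : Fin (N + 1)) :
    eval y.rep (γ i) * eval y.rep (γ' j) = eval y.rep (γ j) * eval y.rep (γ' i) := by
  by_cases h1 : vals γ y.rep = 0
  · have h2 : ∀ i, eval y.rep (γ i) = 0 := fun i => congrFun h1 i
    rw [h2 i, h2 j]
    ring
  by_cases h3 : vals γ' y.rep = 0
  · have h2 : ∀ i, eval y.rep (γ' i) = 0 := fun i => congrFun h3 i
    rw [h2 i, h2 j]
    ring
  have h4 : rmap γ y = rmap γ' y := by
    rw [← hrep y hy h1, ← hrep' y hy h3]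
  unfold Pool.Agent.H7.Bir.rmap at h4
  rw [dif_pos h1, dif_pos h3, Projectivization.mk_eq_mk_iff'] at h4
  obtain ⟨a, ha⟩ := h4
  have h5 : ∀ i, eval y.rep (γ i) = a * eval y.rep (γ' i) := fun i => (congrFun ha i).symm
  rw [h5 i, h5 j]
  ring

/-- forms which represent `p` near some point define a dominant rational map -/
theorem dominant [P.IsPrime] [P'.IsPrime] (hP : Homog P) (hP' : Homog P') (hX : ∃ i, (X i : MvPolynomial (Fin (N + 1)) ℂ) ∉ P)
    (hp : IsEtale P P' p) {D : ℕ} {γ : Fin (N + 1) → MvPolynomial (Fin (M + 1)) ℂ} (hγ : ∀ i, (γ i).IsHomogeneous D)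
    (hrep : ∀ y ∈ projVar P', vals γ y.rep ≠ 0 → p y = rmap γ y) (hne : ∃ y ∈ projVar P', vals γ y.rep ≠ 0) (n : ℕ)
    (Q : MvPolynomial (Fin (N + 1)) ℂ) (hQ : Q.IsHomogeneous n) : aeval γ Q ∈ P' ↔ Q ∈ P := by
  obtain ⟨y₀, hy₀, hne⟩ := hne
  have hX' := Pool.Agent.H17EF.exists_coord hy₀
  constructor
  · intro h
    by_contra hQP
    obtain ⟨x, hx, hxQ⟩ := Pool.Agent.H17EF.exists_point hP hX hQP hQ
    obtain ⟨y', hy', rfl⟩ := hp.surj x hx
    obtain ⟨D', γ', hγ', hne', hrep'⟩ := hp.regular y' hy'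
    obtain ⟨j, hj⟩ : ∃ j, eval y₀.rep (γ j) ≠ 0 := by
      by_contra hcon
      push Not at hcon
      exact hne (funext hcon)
    have hjP : γ j ∉ P' := fun h1 => hj (hy₀ _ h1 D (hγ j))
    have hmem : γ j ^ n * aeval γ' Q ∈ P' := by
      by_contra h1
      have h2 : (γ j ^ n * aeval γ' Q).IsHomogeneous (D * n + D' * n) := ((hγ j).pow n).mul (Dom_aeval_homog hγ' hQ)
      obtain ⟨y, hy, hyn⟩ := Pool.Agent.H17EF.exists_point hP' hX' h1 h2
      apply hyn
      have h3 : eval y.rep (aeval γ Q) = 0 := hy _ h _ (Dom_aeval_homog hγ hQ)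
      unfold VanishesAt
      rw [map_mul, map_pow, Pool.Agent.H7.Bir.eval_comp, ← Dom_smul hQ]
      have h4 : eval y.rep (γ j) • vals γ' y.rep = eval y.rep (γ' j) • vals γ y.rep := by
        funext i
        have h5 := Dom_prop hrep hrep' hy j i
        change eval y.rep (γ j) * eval y.rep (γ' i) = eval y.rep (γ' j) * eval y.rep (γ i)
        rw [h5, mul_comm]
      rw [h4, Dom_smul hQ, ← Pool.Agent.H7.Bir.eval_comp, h3, mul_zero]
    rcases Ideal.IsPrime.mem_or_mem inferInstance hmem with h1 | h1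
    · exact hjP (Ideal.IsPrime.mem_of_pow_mem inferInstance n h1)
    · apply hxQ
      rw [hrep' y' hy' hne', Pool.Agent.H7.Bir.vanishesAt_rmap hne' hQ]
      exact hy' _ h1 _ (Dom_aeval_homog hγ' hQ)
  · intro h
    by_contra hcon
    obtain ⟨y, hy, hyn⟩ := Pool.Agent.H17EF.exists_point hP' hX' hcon (Dom_aeval_homog hγ hQ)
    apply hyn
    by_cases h1 : vals γ y.rep = 0
    · unfold VanishesAt
      rw [Pool.Agent.H7.Bir.eval_comp, h1]
      have h2 : eval (p y).rep Q = 0 := hp.maps y hy Q h n hQ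
      have h3 := Dom_smul hQ 0 (p y).rep
      rw [zero_smul, h2, mul_zero] at h3
      exact h3
    · rw [← Pool.Agent.H7.Bir.vanishesAt_rmap h1 hQ, ← hrep y hy h1]
      exact hp.maps y hy Q h n hQ

/-- finitely many systems of forms represent `p` -/
theorem exists_cover (hP' : Homog P') (hp : IsEtale P P' p) : ∃ (n : ℕ) (D : Fin n → ℕ) (γ : Fin n → Fin (N + 1) → MvPolynomial (Fin (M + 1)) ℂ),
    (∀ k i, (γ k i).IsHomogeneous (D k)) ∧ (∀ k, ∃ y ∈ projVar P', vals (γ k) y.rep ≠ 0) ∧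
    (∀ k, ∀ y ∈ projVar P', vals (γ k) y.rep ≠ 0 → p y = rmap (γ k) y) ∧ ∀ y ∈ projVar P', ∃ k, vals (γ k) y.rep ≠ 0 := by
  have hloc : ∀ m ∈ pn '' projVar P', ∃ (D : ℕ) (γ : Fin (N + 1) → MvPolynomial (Fin (M + 1)) ℂ) (δ : ℝ), (∀ i, (γ i).IsHomogeneous D) ∧
      (∃ y ∈ projVar P', vals γ y.rep ≠ 0) ∧ (∀ y ∈ projVar P', vals γ y.rep ≠ 0 → p y = rmap γ y) ∧ 0 < δ ∧
      ∀ y : PN M, dist (pn y) m < δ → vals γ y.rep ≠ 0 := by
    rintro _ ⟨y, hy, rfl⟩
    obtain ⟨D, γ, hγ, hne, hrep⟩ := hp.regular y hy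
    have hU : {x : Fin (M + 1) → ℂ | vals γ x ≠ 0} ∈ 𝓝 y.rep := by
      have hc : Continuous (vals γ) := continuous_pi fun i => MvPolynomial.continuous_eval (γ i)
      exact (isOpen_ne.preimage hc).mem_nhds hne
    obtain ⟨δ, hδ, hnear⟩ := pn_near y.rep_nonzero hU
    refine ⟨D, γ, δ, hγ, ⟨y, hy, hne⟩, hrep, hδ, fun y' hy' => ?_⟩
    have hmk : Projectivization.mk ℂ y.rep y.rep_nonzero = y := Projectivization.mk_rep y
    obtain ⟨x', hx', hx0, rfl⟩ := hnear y' (by rw [hmk]; exact hy')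
    obtain ⟨a, ha⟩ := Projectivization.exists_smul_eq_mk_rep ℂ x' hx0
    have h1 : (Projectivization.mk ℂ x' hx0).rep = (a : ℂ) • x' := ha.symm
    rw [h1, Pool.Agent.H7.Bir.vals_smul hγ]
    exact smul_ne_zero (pow_ne_zero _ a.ne_zero) hx'
  choose! D γ δ h1 h2 h3 h4 h5 using hloc
  obtain ⟨t, ht, hcov⟩ := (isCompact_pn hP').elim_nhds_subcover (fun m => Metric.ball m (δ m)) fun m hm => Metric.ball_mem_nhds m (h4 m hm)
  refine ⟨t.card, fun k => D (t.equivFin.symm k : MN M), fun k => γ (t.equivFin.symm k : MN M), fun k i => h1 _ (ht _ (t.equivFin.symm k).2) i,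
    fun k => h2 _ (ht _ (t.equivFin.symm k).2), fun k => h3 _ (ht _ (t.equivFin.symm k).2), fun y hy => ?_⟩
  have h6 := hcov (Set.mem_image_of_mem pn hy)
  rw [Set.mem_iUnion₂] at h6
  obtain ⟨m, hm, hmy⟩ := h6
  refine ⟨t.equivFin ⟨m, hm⟩, ?_⟩
  change vals (γ (t.equivFin.symm (t.equivFin ⟨m, hm⟩) : MN M)) y.rep ≠ 0
  rw [Equiv.symm_apply_apply]
  exact h5 m (ht m hm) y hmy

end Pool.Agent.H62.Et

end
end

section

/-!
# Et Four: the four properties follow from the degeneracy of the entire curves of order two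
-/

set_option autoImplicit false

open MvPolynomial

noncomputable section

namespace Pool.Agent.H62.Et

attribute [-instance] ProperSMul.toContinuousSMul

open Pool.Agent.H17 (PN VanishesAt ZariskiClosedIn HolomorphicInto puncturedDisc)
open Pool.Agent.H62.FC (Homog)
open Pool.Agent.H17LG.Variety (FunField IsLogGeneralType)
open Pool.Agent.H13.SM (conTan)
open Pool.Agent.H13.OT (OrderTwo)
open Pool.Agent.H14.KB (KobayashiHyperbolicModulo)
open Pool.Agent.H17EF (projVar)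
open Pool.Agent.H17G (excG)
open Pool.Agent.H7.Bir (GGL)

variable {N : ℕ}

/-- The properties of the conjecture, with the exceptional set `excG P` (the Zariski closure of the union of the nonconstant entire curves), and the
estimate of the Kobayashi pseudometric. -/
def GGLK (P : Ideal (MvPolynomial (Fin (N + 1)) ℂ)) [P.IsPrime] : Prop :=
  GGL P (excG P) ∧ ∃ (Q : MvPolynomial (Fin (N + 1)) ℂ) (D : ℕ), Q.IsHomogeneous D ∧ (∃ x ∈ projVar P, ¬ VanishesAt Q x) ∧
    (∀ x ∈ excG P, VanishesAt Q x) ∧ KobayashiHyperbolicModulo (projVar P) Q D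

theorem ggl_of_orderTwo {P : Ideal (MvPolynomial (Fin (N + 1)) ℂ)} [P.IsPrime] {z : Fin 2 → FunField P} (hP : Homog P)
    (hz : IsTranscendenceBasis ℂ z)
    (hsm : ∀ y : Fin (N + 1) → ℂ, y ≠ 0 → (∀ Q ∈ P, eval y Q = 0) → Module.finrank ℂ (conTan P y) ≤ 3)
    (hgt : IsLogGeneralType (K := FunField P) (k := 2) fun _ => False) {R : MvPolynomial (Fin (N + 1)) ℂ} {n : ℕ} (hR : R.IsHomogeneous n)
    (hRP : R ∉ P) (hbr : ∀ f : ℂ → PN N, HolomorphicInto f Set.univ → OrderTwo f → (∀ z, f z ∈ projVar P) → (∃ z w, f z ≠ f w) →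
      ∀ z, VanishesAt R (f z)) : GGLK P := by
  obtain ⟨hΞ, hbrody, hpicard, hstr, hkob⟩ := Pool.Agent.H17G.four_of_orderTwo hP hz hsm hgt ⟨R, n, hR, hRP, hbr⟩
  refine ⟨⟨hΞ.1, hΞ.2, ?_, hpicard, hbrody, hstr⟩, hkob⟩
  intro k _ hk
  have h4 := Pool.Agent.H17EF.two_of_basis ⟨z, hz⟩ hk
  subst h4
  exact hgt

end Pool.Agent.H62.Et

end
end
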