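import Pool.Agent.H94.CB.H19Q.Surf
import Pool.Agent.H94.CB.M132
import Pool.Agent.H94.CB.M134
import Pool.Agent.H94.CB.M173
import Pool.Agent.H94.CB.M177
import Pool.Agent.H94.CB.M191
import Pool.Agent.H94.CB.M199

/-! The parts of this file: H19Q.ClassQ, H19Q.Induct, H7.Qup.Main. -/

section

/-!
# Q ClassQ: operations on quasi-projective surfaces
-/

set_option autoImplicit false

open MvPolynomial

noncomputable section

namespace Pool.Agent.H19Q

attribute [-instance] ProperSMul.toContinuousSMul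

open Pool.Agent.H17 (PN HolomorphicInto)
open Pool.Agent.H17EF (projVar coneE)
open Pool.Agent.H92.TH (SymDiff)
open Pool.Agent.H19OL (IsOrbifoldCover IsPullback fibreProduct)

/-- `U` is projective (`U = X`). -/
def QSurface.Projective (U : QSurface) : Prop := ∃ m, U.G m = 1

/-- The smallest class of quasi-projective surfaces which contains the surfaces with the property `B` and has the following properties. -/
inductive LogClass (B : QSurface → Prop) : QSurface → Prop
  /-- the basic surfaces -/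
  | base (U : QSurface) (hU : B U) : LogClass B U
  /-- The class contains `U` if there is a dominant regular map `U → U'` and `U'` is in the class and of log general type. -/
  | dominant (U U' : QSurface) (p : PN U.N → PN U'.N) (hp : Pool.Agent.H7.Qup.IsDominantMap U'.P U.P U'.G U.G p) (hgt : U'.LogGeneralType)
      (h : LogClass B U') : LogClass B U
  /-- The class contains `U` if it contains a surface `U'` with a modification `U' → U`. -/
  | modification (U U' : QSurface) (p : PN U'.N → PN U.N) (hp : IsModification U.P U'.P U.G U'.G p) (h : LogClass B U') : LogClass B U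
  /-- The class contains the smooth surface `U` if it contains a smooth surface `U'` with a finite unramified covering `U' → U`. -/
  | unramified (U U' : QSurface) (hs : U.Smooth) (hs' : U'.Smooth) (p : PN U'.N → PN U.N)
      (hp : Pool.Agent.H62.Qe.IsUnramifiedOver U.P U'.P U.G U'.G p) (h : LogClass B U') : LogClass B U
  /-- The class contains the smooth projective surface `X` if there are a rational map `(A : B)` from `X` to `ℙ¹` and a holomorphic map `R` from an
  elliptic curve `ℂ / L` (embedded in `ℙ^r` by `e`) onto `ℙ¹` with `(R₀ R₁' - R₁ R₀') ^ m = Φ (R₀, R₁)` for a binary form `Φ` of degree `2 m`, such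
  that `(A dB - B dA) ^ m / Φ (A, B)` is a holomorphic symmetric differential `Θ` on `X`, and the class contains the fibre product of `X` and `ℂ / L`
  over `ℙ¹`, which is assumed to be irreducible. -/
  | orbifold {r : ℕ} (U U' : QSurface) (hU : U.Projective) (hU' : U'.Projective) (hs : U.Smooth)
      (A B' : MvPolynomial (Fin (U.N + 1)) ℂ) (d : ℕ) (hA : A.IsHomogeneous d) (hB : B'.IsHomogeneous d) (hAB : A ∉ U.P ∨ B' ∉ U.P)
      (w : Fin 2 → ℂ) (hw : LinearIndependent ℝ w) (R : ℂ ⧸ AddSubgroup.closure (Set.range w) → PN 1)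
      (m : ℕ) (hm : 1 ≤ m) (Φ : MvPolynomial (Fin 2) ℂ) (hR : IsOrbifoldCover R m Φ)
      (Θ : SymDiff (coneE U.P) m) (hΘ : IsPullback U.P A B' Θ Φ)
      (e : ℂ ⧸ AddSubgroup.closure (Set.range w) → PN r) (he : HolomorphicInto (fun z : ℂ => e z) Set.univ) (he' : Function.Injective e)
      (ε : Fin (U'.N + 1) ≃ Fin (U.N + 1) × Fin (r + 1)) (hV : U'.P = fibreProduct U.P A B' R e ε) (h : LogClass B U') : LogClass B U

end Pool.Agent.H19Q

end
end

section

/-!
# Q Induct: the Green–Griffiths–Lang conjecture for the surfaces of the class `LogClass B`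
-/

set_option autoImplicit false

open Topology Filter MvPolynomial

noncomputable section

namespace Pool.Agent.H19Q

attribute [-instance] ProperSMul.toContinuousSMul

open Pool.Agent.H17 (PN VanishesAt HolomorphicInto ZariskiClosedIn)
open Pool.Agent.H13.SM (conTan)
open Pool.Agent.H62.FC (Homog)
open Pool.Agent.H62.SA (locVar OnBd)
open Pool.Agent.H17LG.Variety (FunField IsLogGeneralType)
open Pool.Agent.H17EF (projVar coneE GT exists_form_of_ne mk_mem_projVar)
open Pool.Agent.H7.Bir (GGL GGLOpen vals rmap mem_of_open)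
open Pool.Agent.H7.Qup (IsDominantMap)
open Pool.Agent.H62.Qe (IsUnramifiedOver)

variable {N M s s' : ℕ} {P : Ideal (MvPolynomial (Fin (N + 1)) ℂ)} {P' : Ideal (MvPolynomial (Fin (M + 1)) ℂ)}
  {G : Fin s → MvPolynomial (Fin (N + 1)) ℂ} {G' : Fin s' → MvPolynomial (Fin (M + 1)) ℂ} {p : PN M → PN N}

/-- a surjective regular map restricts to a dominant regular map of open subsets -/
theorem IsRegularOnto.isDominantMap [P.IsPrime] (hp : IsRegularOnto P P' p) (hinv : ∀ y ∈ projVar P', p y ∈ locVar P G ↔ y ∈ locVar P' G')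
    (hP : Homog P) (hG : ∀ m, ∃ n, (G m).IsHomogeneous n) (hne : (locVar P G).Nonempty) : IsDominantMap P P' G G' p := by
  refine ⟨fun y hy => (hinv y hy.1).2 hy, fun y hy => ?_, fun Q n hQ h => ?_⟩
  · obtain ⟨D, γ, h1, h2, h3⟩ := hp.regular y hy.1
    exact ⟨D, γ, h1, h2, fun y' hy' => h3 y' hy'.1⟩
  · refine mem_of_open hP hG hne hQ fun x hx => ?_
    obtain ⟨y, hy, rfl⟩ := hp.surj x hx.1
    exact h y ((hinv y hy).1 hx)

/-- a covering is a surjective regular map -/
theorem regularOnto_of_unramified (hp : IsUnramifiedOver P P' G G' p) : IsRegularOnto P P' p := by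
  refine ⟨hp.maps, hp.surj, fun y hy => ?_⟩
  obtain ⟨D, γ, hγ, hne, hrep, -⟩ := hp.regular y.rep y.rep_nonzero (by rw [Projectivization.mk_rep]; exact hy)
  refine ⟨D, γ, hγ, hne, fun y' hy' hv => ?_⟩
  have h1 := hrep y'.rep y'.rep_nonzero hv (by rw [Projectivization.mk_rep]; exact hy')
  rw [Projectivization.mk_rep] at h1
  rw [h1]
  unfold Pool.Agent.H7.Bir.rmap
  rw [dif_pos hv]

/-- if some form is `1` there is no boundary -/
theorem onBd_projective (P : Ideal (MvPolynomial (Fin (N + 1)) ℂ)) [P.IsPrime] (h : ∃ m, G m = 1) (k : ℕ) :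
    (OnBd P G (k := k)) = fun _ => False := by
  obtain ⟨m, hm⟩ := h
  funext E
  apply propext
  constructor
  · rintro ⟨j, -, -, h⟩
    have := h m
    rw [hm, map_one, E.ord.map_one] at this
    exact absurd this (lt_irrefl _)
  · exact False.elim

theorem locVar_projective (h : ∃ m, G m = 1) : locVar P G = projVar P := by
  obtain ⟨m, hm⟩ := h
  ext x
  refine ⟨fun hx => hx.1, fun hx => ⟨hx, m, fun h1 => ?_⟩⟩
  unfold VanishesAt at h1
  rw [hm, map_one] at h1
  exact one_ne_zero h1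

theorem QSurface.Projective.gt {U : QSurface} (hU : U.Projective) (h : U.LogGeneralType) : GT U.P 2 := by
  unfold QSurface.LogGeneralType at h
  rw [onBd_projective U.P hU 2] at h
  exact h

theorem QSurface.Projective.smooth {U : QSurface} (hU : U.Projective) (hs : U.Smooth) (y : Fin (U.N + 1) → ℂ) (hy : y ≠ 0)
    (h : ∀ Q ∈ U.P, eval y Q = 0) : Module.finrank ℂ (conTan U.P y) ≤ 3 := by
  refine hs y hy ?_
  rw [locVar_projective hU]
  exact (mk_mem_projVar U.homog hy).2 ⟨hy, h⟩

theorem dim_congr {P P' : Ideal (MvPolynomial (Fin (N + 1)) ℂ)} [P.IsPrime] [P'.IsPrime] (h : P = P')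
    (hz : ∃ z : Fin 2 → FunField P, IsTranscendenceBasis ℂ z) : ∃ z : Fin 2 → FunField P', IsTranscendenceBasis ℂ z := by
  subst h
  exact hz

theorem gt_congr {P P' : Ideal (MvPolynomial (Fin (N + 1)) ℂ)} [P.IsPrime] [P'.IsPrime] (h : P = P') (hP : GT P 2) : GT P' 2 := by
  subst h
  exact hP

end Pool.Agent.H19Q

end
end

section

/-!
# Qup Main: the properties of the conjecture go up along dominant regular maps of quasi-projective surfaces

`open_dominant`: let `p : U' → U` be a dominant regular map of quasi-projective surfaces.  If `U` has the four properties then so has `U'`.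
-/

set_option autoImplicit false

open Topology Filter MvPolynomial

noncomputable section

namespace Pool.Agent.H7.Qup

attribute [-instance] ProperSMul.toContinuousSMul

open Pool.Agent.H17 (PN VanishesAt HolomorphicInto puncturedDisc vanishesAt_mk_iff ZariskiClosedIn)
open Pool.Agent.H17LG.Variety (FunField IsLogGeneralType)
open Pool.Agent.H62.FC (Homog)
open Pool.Agent.H62.SA (locVar OnBd)
open Pool.Agent.H17EF (projVar)
open Pool.Agent.H7.Bir (GGLOpen mem_of_open vals rmap pn_identity punctured_open)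

variable {N M : ℕ} {P : Ideal (MvPolynomial (Fin (N + 1)) ℂ)} {P' : Ideal (MvPolynomial (Fin (M + 1)) ℂ)} {s s' : ℕ}
  {G : Fin s → MvPolynomial (Fin (N + 1)) ℂ} {G' : Fin s' → MvPolynomial (Fin (M + 1)) ℂ} {p : PN M → PN N}

theorem IsDominantMap.nonempty [P.IsPrime] (hp : IsDominantMap P P' G G' p) : (locVar P' G').Nonempty := by
  by_contra hcon
  rw [Set.not_nonempty_iff_eq_empty] at hcon
  refine (Ideal.ne_top_iff_one P).1 (Ideal.IsPrime.ne_top inferInstance) (hp.dense 1 0 (isHomogeneous_one _ _) fun y hy => ?_)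
  rw [hcon] at hy
  exact absurd hy (Set.notMem_empty y)

/-- **Dominant regular maps of quasi-projective surfaces.** -/
theorem open_dominant {P : Ideal (MvPolynomial (Fin (N + 1)) ℂ)} [P.IsPrime] {P' : Ideal (MvPolynomial (Fin (M + 1)) ℂ)} [P'.IsPrime]
    (hP' : Homog P') (hz : ∃ z : Fin 2 → FunField P, IsTranscendenceBasis ℂ z)
    (hz' : ∃ z' : Fin 2 → FunField P', IsTranscendenceBasis ℂ z') {s s' : ℕ}
    {G : Fin s → MvPolynomial (Fin (N + 1)) ℂ} {G' : Fin s' → MvPolynomial (Fin (M + 1)) ℂ} (hG : ∀ m, ∃ n, (G m).IsHomogeneous n)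
    (hG' : ∀ m, ∃ n, (G' m).IsHomogeneous n) {p : PN M → PN N} (hp : IsDominantMap P P' G G' p) {Ξ : Set (PN N)}
    (h : GGLOpen P G Ξ) : ∃ Ξ' : Set (PN M), GGLOpen P' G' Ξ' := by
  have hne := hp.nonempty
  obtain ⟨y₀, hy₀⟩ := hne
  have hne : (locVar P' G').Nonempty := ⟨y₀, hy₀⟩
  obtain ⟨z, hz1⟩ := hz
  obtain ⟨z', hz1'⟩ := hz'
  -- a form which vanishes on the exceptional set
  obtain ⟨S, hS, hΞS⟩ := h.closed
  obtain ⟨x₁, hx₁, R, hRS, hRx₁⟩ : ∃ x ∈ locVar P G, ∃ R ∈ S, ¬ VanishesAt R x := by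
    by_contra hcon
    push Not at hcon
    apply h.proper
    rw [hΞS]
    ext y
    exact ⟨fun hy => hy.1, fun hy => ⟨hy, fun R hR => hcon y hy R hR⟩⟩
  obtain ⟨nR, hnR⟩ := hS R hRS
  have hRP : R ∉ P := fun h1 => hRx₁ (hx₁.1 R h1 nR hnR)
  have hRv : ∀ x ∈ Ξ, VanishesAt R x := by
    intro x hx
    rw [hΞS] at hx
    exact hx.2 R hRS
  -- the equations of the coordinates
  obtain ⟨j, hj⟩ := exists_coord hy₀
  choose m D₁ α hα hαP hrel using exists_eq hp hP' hG' hne hz1 hz1' hj
  obtain ⟨D, γ, hγ, hv⟩ := hp.exists_rep hy₀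
  have hmaps := hp.maps_iff hP' hG' hγ ⟨y₀, hy₀, hv⟩
  obtain ⟨k₀, hk₀⟩ : ∃ k, eval y₀.rep (γ k) ≠ 0 := by
    by_contra hcon
    push Not at hcon
    exact hv (funext hcon)
  have hkP : γ k₀ ∉ P' := fun h1 => hk₀ (hy₀.1 _ h1 D (hγ.hom k₀))
  set B : MvPolynomial (Fin (N + 1)) ℂ := R * ∏ i, α i (Fin.last (m i)) with hB
  have hBhom : B.IsHomogeneous (nR + ∑ i, D₁ i) := hnR.mul (IsHomogeneous.prod _ _ _ fun i _ => hα i _)
  have hBP : B ∉ P := by
    intro h1
    rcases Ideal.IsPrime.mem_or_mem inferInstance h1 with h2 | h2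
    · exact hRP h2
    · obtain ⟨i, -, h3⟩ := (Ideal.IsPrime.prod_mem_iff (p := P)).1 h2
      exact hαP i h3
  set T : MvPolynomial (Fin (M + 1)) ℂ := aeval γ B * γ k₀ * X j with hT
  have hThom : T.IsHomogeneous (D * (nR + ∑ i, D₁ i) + D + 1) := ((aeval_homog hγ.hom hBhom).mul (hγ.hom k₀)).mul (isHomogeneous_X ℂ j)
  have hTP : T ∉ P' := by
    intro h1
    rcases Ideal.IsPrime.mem_or_mem inferInstance h1 with h2 | h2
    · rcases Ideal.IsPrime.mem_or_mem inferInstance h2 with h3 | h3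
      · exact hBP ((hmaps _ B hBhom).1 h3)
      · exact hkP h3
    · exact hj h2
  -- points outside of the exceptional set
  have key : ∀ y ∈ locVar P' G', ¬ VanishesAt T y → y.rep j ≠ 0 ∧ ¬ VanishesAt R (p y) ∧ ∀ i, ¬ VanishesAt (α i (Fin.last (m i))) (p y) := by
    intro y hy hTy
    unfold VanishesAt at hTy
    rw [hT, map_mul, map_mul, mul_eq_zero, mul_eq_zero, not_or, not_or, eval_X] at hTy
    obtain ⟨⟨h1, h2⟩, h3⟩ := hTy
    have h4 : vals γ y.rep ≠ 0 := fun h0 => h2 (congrFun h0 k₀)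
    have h5 : ¬ VanishesAt B (p y) := by
      rw [hγ.vanishes_iff hy h4 hBhom]
      exact h1
    unfold VanishesAt at h5
    rw [hB, map_mul, mul_eq_zero, not_or, map_prod, Finset.prod_eq_zero_iff] at h5
    push Not at h5
    exact ⟨h3, h5.1, fun i => h5.2 i (Finset.mem_univ i)⟩
  -- the exceptional set
  refine ⟨{x | x ∈ locVar P' G' ∧ VanishesAt T x}, ?_⟩
  have hclosed : ZariskiClosedIn (locVar P' G') {x | x ∈ locVar P' G' ∧ VanishesAt T x} := by
    refine ⟨{T}, fun R hR => ?_, ?_⟩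
    · rw [Set.mem_singleton_iff.1 hR]
      exact ⟨_, hThom⟩
    · ext x
      constructor
      · rintro ⟨h1, h2⟩
        refine ⟨h1, fun R hR => ?_⟩
        rw [Set.mem_singleton_iff.1 hR]
        exact h2
      · rintro ⟨h1, h2⟩
        exact ⟨h1, h2 T rfl⟩
  have hgt : IsLogGeneralType (K := FunField P') (k := 2) (OnBd P' G') :=
    logGT_up hp hP' hG hG' hne ⟨z, hz1⟩ ⟨z', hz1'⟩ (h.logGeneralType 2 (by norm_num) ⟨z, hz1⟩)
  have hbrody : ∀ f : ℂ → PN M, HolomorphicInto f Set.univ → (∀ z, f z ∈ locVar P' G') → (∃ z w, f z ≠ f w) →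
      ∀ z, f z ∈ {x | x ∈ locVar P' G' ∧ VanishesAt T x} := by
    intro f hf hfU hfn z₀
    refine ⟨hfU z₀, ?_⟩
    by_contra hTz
    obtain ⟨h1, h2, h3⟩ := key _ (hfU z₀) hTz
    have hg : HolomorphicInto (fun z => p (f z)) Set.univ := holo_comp hp isOpen_univ hf fun z _ => hfU z
    have hconst : ∀ z w, p (f z) = p (f w) := by
      by_contra hcon
      push Not at hcon
      exact h2 (hRv _ (h.brody _ hg (fun z => hp.maps _ (hfU z)) hcon z₀))
    obtain ⟨φ, hφ, he⟩ := hf z₀ (Set.mem_univ z₀)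
    have hφj : φ z₀ j ≠ 0 := by
      obtain ⟨h7, h8⟩ := he.self_of_nhds
      obtain ⟨a, ha⟩ := Projectivization.exists_smul_eq_mk_rep ℂ (φ z₀) h7
      have h9 : (f z₀).rep = (a : ℂ) • φ z₀ := by rw [h8]; exact ha.symm
      rw [h9] at h1
      exact right_ne_zero_of_mul h1
    have hnear : ∀ᶠ z in 𝓝 z₀, f z = (fun _ => f z₀) z := by
      refine const_near hrel hφ he (Eventually.of_forall hfU) hφj (p (f z₀)).rep_nonzero h3 (Eventually.of_forall fun z => ?_)
      rw [(p (f z₀)).mk_rep]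
      exact hconst z z₀
    have hc : HolomorphicInto (fun _ : ℂ => f z₀) Set.univ := by
      intro z _
      exact ⟨fun _ => (f z₀).rep, analyticAt_const, Eventually.of_forall fun _ => ⟨(f z₀).rep_nonzero, (f z₀).mk_rep.symm⟩⟩
    have h4 := pn_identity isPreconnected_univ hf hc (Set.mem_univ z₀) hnear
    obtain ⟨z, w, hzw⟩ := hfn
    exact hzw ((h4 z (Set.mem_univ z)).trans (h4 w (Set.mem_univ w)).symm)
  refine ⟨hclosed, ?_, ?_, ?_, hbrody, ?_⟩
  · intro heq
    apply hTP
    refine mem_of_open hP' hG' hne hThom fun x hx => ?_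
    rw [← heq] at hx
    exact hx.2
  · intro w _ hw
    obtain rfl := Pool.Agent.H17EF.two_of_basis ⟨z', hz1'⟩ hw
    exact hgt
  · rintro f hf hfU ⟨z₀, hz₀, hfz₀⟩
    have hTz : ¬ VanishesAt T (f z₀) := fun h1 => hfz₀ ⟨hfU z₀ hz₀, h1⟩
    obtain ⟨h1, h2, h3⟩ := key _ (hfU z₀ hz₀) hTz
    have hg : HolomorphicInto (fun z => p (f z)) puncturedDisc := holo_comp hp punctured_open hf hfU
    obtain ⟨ĝ, hĝ, hgg⟩ := h.picard _ hg (fun z hz => hp.maps _ (hfU z hz)) ⟨z₀, hz₀, fun h4 => h2 (hRv _ h4)⟩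
    obtain ⟨ψ, hψ, hψg⟩ := hĝ 0 (Metric.mem_ball_self one_pos)
    refine extend_of_alg hrel hf hfU hψ ?_ fun i hi => ?_
    · filter_upwards [hψg, Metric.ball_mem_nhds (0 : ℂ) one_pos] with z h4 h5 h6
      obtain ⟨h7, h8⟩ := h4
      exact ⟨h7, by rw [← h8, hgg z ⟨h5, h6⟩]⟩
    · apply h3 i
      have h4 := Pool.Agent.H36.BP.vanish_identity (convex_ball (0 : ℂ) 1).isPreconnected hĝ (S := {α i (Fin.last (m i))}) (by
        intro Q hQ
        rw [Set.mem_singleton_iff] at hQ
        subst hQ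
        exact ⟨_, hα i _⟩) (Metric.mem_ball_self one_pos) (by
        filter_upwards [hi, hψg] with z h5 h6 Q hQ
        rw [Set.mem_singleton_iff] at hQ
        subst hQ
        obtain ⟨h7, h8⟩ := h6
        rw [h8, vanishesAt_mk_iff (hα i _)]
        exact h5) z₀ hz₀.1 _ rfl
      rw [hgg z₀ hz₀] at h4
      exact h4
  · intro Q _ hQ hPQ hsub w hw hzw
    exact Pool.Agent.H13.CV.strongly_of_brodyL P' hP' ⟨z', hz1'⟩ hG' hclosed hgt hbrody Q hQ hPQ hsub w hw hzw

end Pool.Agent.H7.Qup

end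
end
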