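import Pool.Agent.H94.CB.H19OL.Core
import Pool.Agent.H94.CB.M133
import Pool.Agent.H94.CB.M225
import Pool.Agent.H94.CB.M226

/-! The parts of this file: H62.Qe.Main, H19Q.Induct_1. -/

section

/-!
# Qe Main: the properties of the Green–Griffiths–Lang conjecture descend along finite etale coverings of quasi-projective surfaces
-/

set_option autoImplicit false

open Topology Filter MvPolynomial

noncomputable section

namespace Pool.Agent.H62.Qe

attribute [-instance] ProperSMul.toContinuousSMul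

open Pool.Agent.H17 (PN VanishesAt ZariskiClosedIn HolomorphicInto puncturedDisc vanishesAt_mk_iff)
open Pool.Agent.H62.FC (Homog)
open Pool.Agent.H17LG.Variety (FunField IsLogGeneralType)
open Pool.Agent.H13.SM (conTan)
open Pool.Agent.H17EF (projVar)
open Pool.Agent.H62.SA (locVar OnBd)
open Pool.Agent.H7.Bir (GGLOpen mem_of_open)

variable {N M : ℕ}

/-- **Etale coverings of quasi-projective surfaces**: the analytic form. -/
theorem etaleOver_open {P : Ideal (MvPolynomial (Fin (N + 1)) ℂ)} [P.IsPrime] {P' : Ideal (MvPolynomial (Fin (M + 1)) ℂ)} [P'.IsPrime]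
    (hP : Homog P) (hP' : Homog P') (hz : ∃ z : Fin 2 → FunField P, IsTranscendenceBasis ℂ z)
    (hz' : ∃ z' : Fin 2 → FunField P', IsTranscendenceBasis ℂ z') {s s' : ℕ}
    {G : Fin s → MvPolynomial (Fin (N + 1)) ℂ} {G' : Fin s' → MvPolynomial (Fin (M + 1)) ℂ} (hG : ∀ m, ∃ n, (G m).IsHomogeneous n)
    {p : PN M → PN N} (hp : IsEtaleOver P P' G G' p) (hgt : IsLogGeneralType (K := FunField P) (k := 2) (OnBd P G)) {Ξ' : Set (PN M)}
    (h : GGLOpen P' G' Ξ') : ∃ Ξ : Set (PN N), GGLOpen P G Ξ := by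
  -- a form which vanishes on the exceptional set
  obtain ⟨S, hS, hΞS⟩ := h.closed
  obtain ⟨y₀, hy₀, R', hR'S, hR'y₀⟩ : ∃ y ∈ locVar P' G', ∃ R ∈ S, ¬ VanishesAt R y := by
    by_contra hcon
    push Not at hcon
    apply h.proper
    rw [hΞS]
    ext y
    exact ⟨fun hy => hy.1, fun hy => ⟨hy, fun R hR => hcon y hy R hR⟩⟩
  obtain ⟨n', hn'⟩ := hS R' hR'S
  have hR'P : R' ∉ P' := fun h1 => hR'y₀ (hy₀.1 R' h1 n' hn')
  have hR'v : ∀ y ∈ Ξ', VanishesAt R' y := by
    intro y hy
    rw [hΞS] at hy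
    exact hy.2 R' hR'S
  obtain ⟨T, n, hT, hTP, hTv⟩ := exists_image_form hP hP' (Pool.Agent.H17EF.exists_coord (hp.reg.maps y₀ hy₀.1)) hz hz' hp.reg hn' hR'P
  have hne : (locVar P G).Nonempty := ⟨p y₀, (hp.inv y₀ hy₀.1).2 hy₀⟩
  -- the exceptional set
  refine ⟨{x | x ∈ locVar P G ∧ VanishesAt T x}, ?_⟩
  have hclosed : ZariskiClosedIn (locVar P G) {x | x ∈ locVar P G ∧ VanishesAt T x} := by
    refine ⟨{T}, fun R hR => ?_, ?_⟩
    · rw [Set.mem_singleton_iff.1 hR]
      exact ⟨n, hT⟩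
    · ext x
      constructor
      · rintro ⟨h1, h2⟩
        refine ⟨h1, fun R hR => ?_⟩
        rw [Set.mem_singleton_iff.1 hR]
        exact h2
      · rintro ⟨h1, h2⟩
        exact ⟨h1, h2 T rfl⟩
  have hbrody : ∀ f : ℂ → PN N, HolomorphicInto f Set.univ → (∀ z, f z ∈ locVar P G) → (∃ z w, f z ≠ f w) →
      ∀ z, f z ∈ {x | x ∈ locVar P G ∧ VanishesAt T x} := by
    intro f hf hfU hfn z
    obtain ⟨g, hg, hgU, hgf⟩ := lift_entire hP' hp hf hfU
    have hgn : ∃ z w, g z ≠ g w := by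
      obtain ⟨a, b, hab⟩ := hfn
      refine ⟨a, b, fun h1 => hab ?_⟩
      rw [← hgf a, ← hgf b, h1]
    refine ⟨hfU z, ?_⟩
    rw [← hgf z]
    exact hTv _ (hgU z).1 (hR'v _ (h.brody g hg hgU hgn z))
  refine ⟨hclosed, ?_, ?_, ?_, hbrody, ?_⟩
  · intro heq
    apply hTP
    refine mem_of_open hP hG hne hT fun x hx => ?_
    rw [← heq] at hx
    exact hx.2
  · intro w _ hw
    obtain rfl := Pool.Agent.H17EF.two_of_basis hz hw
    exact hgt
  · intro f hf hfU hfΞ
    obtain ⟨k, g, hk, hg, hgU, hgf⟩ := lift_punctured hP' hp hf hfU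
    have hgΞ : ∃ z ∈ puncturedDisc, g z ∉ Ξ' := by
      by_contra hcon
      push Not at hcon
      obtain ⟨w, hw, hwΞ⟩ := hfΞ
      apply hwΞ
      refine ⟨hfU w hw, ?_⟩
      obtain ⟨z, hz⟩ := IsAlgClosed.exists_pow_nat_eq w (by omega : 0 < k)
      have hzD : z ∈ puncturedDisc := by
        refine ⟨?_, ?_⟩
        · rw [mem_ball_zero_iff]
          by_contra h1
          push Not at h1
          have h2 : 1 ≤ ‖z‖ ^ k := one_le_pow₀ h1
          rw [← norm_pow, hz] at h2
          have h3 : ‖w‖ < 1 := by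
            rw [← mem_ball_zero_iff]
            exact hw.1
          linarith
        · rintro rfl
          apply hw.2
          rw [Set.mem_singleton_iff, ← hz, zero_pow (by omega)]
      rw [← hz, ← hgf z hzD]
      exact hTv _ (hgU z hzD).1 (hR'v _ (hcon z hzD))
    obtain ⟨ĝ, hĝ, hgg⟩ := h.picard g hg hgU hgΞ
    exact extend_of_lift hp.reg hf hk (fun z hz => (hgU z hz).1) hgf hĝ hgg
  · intro Q _ hQ hPQ hsub w hw hzw
    exact Pool.Agent.H13.CV.strongly_of_brodyL P hP hz hG hclosed hgt hbrody Q hQ hPQ hsub w hw hzw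

/-- **Etale coverings of quasi-projective surfaces**: if `U' → U` is a finite etale covering of smooth quasi-projective surfaces (the restriction over
the open set `U` of a surjective regular map of projective surfaces) and `U'` has the four properties, then `U` has the four properties if it is of log
general type. -/
theorem etale_open {P : Ideal (MvPolynomial (Fin (N + 1)) ℂ)} [P.IsPrime] {P' : Ideal (MvPolynomial (Fin (M + 1)) ℂ)} [P'.IsPrime]
    (hP : Homog P) (hP' : Homog P') (hz : ∃ z : Fin 2 → FunField P, IsTranscendenceBasis ℂ z)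
    (hz' : ∃ z' : Fin 2 → FunField P', IsTranscendenceBasis ℂ z') {s s' : ℕ}
    {G : Fin s → MvPolynomial (Fin (N + 1)) ℂ} {G' : Fin s' → MvPolynomial (Fin (M + 1)) ℂ} (hG : ∀ m, ∃ n, (G m).IsHomogeneous n)
    (hsm : ∀ (y : Fin (N + 1) → ℂ) (hy : y ≠ 0), Projectivization.mk ℂ y hy ∈ locVar P G → Module.finrank ℂ (conTan P y) ≤ 3)
    (hsm' : ∀ (y : Fin (M + 1) → ℂ) (hy : y ≠ 0), Projectivization.mk ℂ y hy ∈ locVar P' G' → Module.finrank ℂ (conTan P' y) ≤ 3)
    {p : PN M → PN N} (hp : IsUnramifiedOver P P' G G' p) (hgt : IsLogGeneralType (K := FunField P) (k := 2) (OnBd P G)) {Ξ' : Set (PN M)}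
    (h : GGLOpen P' G' Ξ') : ∃ Ξ : Set (PN N), GGLOpen P G Ξ := by
  obtain ⟨z, hz1⟩ := hz
  obtain ⟨z', hz1'⟩ := hz'
  exact etaleOver_open hP hP' ⟨z, hz1⟩ ⟨z', hz1'⟩ hG (isEtaleOver_of_isUnramifiedOver hP hP' hz1 hz1' hsm hsm' hp) hgt h

end Pool.Agent.H62.Qe

end
end

section

/-!
# Q Induct: the Green–Griffiths–Lang conjecture for the surfaces of the class `LogClass B`
-/

set_option autoImplicit false

open Topology Filter MvPolynomial

noncomputable section

namespace Pool.Agent.H19Q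

attribute [-instance] ProperSMul.toContinuousSMul

open Pool.Agent.H17 (PN VanishesAt HolomorphicInto ZariskiClosedIn)
open Pool.Agent.H13.SM (conTan)
open Pool.Agent.H62.FC (Homog)
open Pool.Agent.H62.SA (locVar OnBd)
open Pool.Agent.H17LG.Variety (FunField IsLogGeneralType)
open Pool.Agent.H17EF (projVar coneE GT exists_form_of_ne mk_mem_projVar)
open Pool.Agent.H7.Bir (GGL GGLOpen vals rmap mem_of_open)
open Pool.Agent.H7.Qup (IsDominantMap)
open Pool.Agent.H62.Qe (IsUnramifiedOver)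
open Pool.Agent.H62.Et (GGLK)

variable {N M s s' : ℕ} {P : Ideal (MvPolynomial (Fin (N + 1)) ℂ)} {P' : Ideal (MvPolynomial (Fin (M + 1)) ℂ)}
  {G : Fin s → MvPolynomial (Fin (N + 1)) ℂ} {G' : Fin s' → MvPolynomial (Fin (M + 1)) ℂ} {p : PN M → PN N}

/-- **The conjecture for the surfaces of the class.** -/
theorem LogClass.main {B : QSurface → Prop} (hB : ∀ U, B U → U.LogGeneralType → ∃ Ξ, GGLOpen U.P U.G Ξ) {U : QSurface} (h : LogClass B U) :
    U.LogGeneralType → ∃ Ξ, GGLOpen U.P U.G Ξ := by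
  induction h with
  | base U hU => exact hB U hU
  | dominant U U' p hp hgt' h ih =>
    intro _
    obtain ⟨Ξ, hΞ⟩ := ih hgt'
    exact Pool.Agent.H7.Qup.open_dominant U.homog U'.dim U.dim U'.form U.form hp hΞ
  | modification U U' p hp h ih =>
    intro hgt
    have hgt' : U'.LogGeneralType := Pool.Agent.H7.Qup.logGT_up
      (hp.toIsRegularOnto.isDominantMap hp.inv U.homog U.form U.nonempty) U'.homog U.form U'.form U'.nonempty U.dim U'.dim hgt
    obtain ⟨Ξ, hΞ⟩ := ih hgt'
    exact mod_open U.homog U'.homog U.dim U'.dim U.form hp hgt hΞ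
  | unramified U U' hs hs' p hp h ih =>
    intro hgt
    have hgt' : U'.LogGeneralType := Pool.Agent.H7.Qup.logGT_up
      ((regularOnto_of_unramified hp).isDominantMap hp.inv U.homog U.form U.nonempty) U'.homog U.form U'.form U'.nonempty U.dim U'.dim hgt
    obtain ⟨Ξ, hΞ⟩ := ih hgt'
    exact Pool.Agent.H62.Qe.etale_open U.homog U'.homog U.dim U'.dim U.form hs hs' hp hgt hΞ
  | orbifold U U' hU hU' hs A B' d hA hB' hAB w hw R m hm Φ hR Θ hΘ e he he' ε hV h ih =>
    intro hgt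
    have hsm := hU.smooth hs
    have hgtX := hU.gt hgt
    obtain ⟨z, hz⟩ := U.dim
    have hprime : (Pool.Agent.H19OL.fibreProduct U.P A B' R e ε).IsPrime := hV ▸ U'.prime
    have hdim := dim_congr hV U'.dim
    have hgt' := Pool.Agent.H19OL.gt_fib (k := 1) U.homog ⟨z, hz⟩ hgtX hA hB' hAB hR.onto hdim
    obtain ⟨Ξ, hΞ⟩ := ih (by
      unfold QSurface.LogGeneralType
      rw [onBd_projective U'.P hU' 2]
      exact gt_congr hV.symm hgt')
    have hcl := hΞ.closed
    have hpr := hΞ.proper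
    have hbr := hΞ.brody
    rw [locVar_projective hU', hV] at hcl hpr hbr
    obtain ⟨Ξ₁, hΞ₁⟩ := Pool.Agent.H19OL.ggl_of_cover U.homog hz hsm hgtX hA hB' hAB hm hR hΘ he hdim hcl hpr hbr
    exact ⟨_, Pool.Agent.H7.Bir.open_four U.homog U.form U.nonempty hΞ₁⟩

/-- For a smooth projective surface of the class the exceptional set is the closure of the union of the entire curves. -/
theorem LogClass.gglk {B : QSurface → Prop} (hB : ∀ U, B U → U.LogGeneralType → ∃ Ξ, GGLOpen U.P U.G Ξ) {U : QSurface} (h : LogClass B U)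
    (hgt : U.LogGeneralType) (hU : U.Projective) (hs : U.Smooth) : GGLK U.P := by
  obtain ⟨Ξ, hΞ⟩ := h.main hB hgt
  obtain ⟨z, hz⟩ := U.dim
  have hcl := hΞ.closed
  have hpr := hΞ.proper
  have hbr := hΞ.brody
  rw [locVar_projective hU] at hcl hpr hbr
  obtain ⟨S, n, hS, hSP, hSΞ⟩ := exists_form_of_ne hcl hpr
  exact Pool.Agent.H62.Et.ggl_of_orderTwo U.homog hz (hU.smooth hs) (hU.gt hgt) hS hSP fun f hf _ hfX hfn z => hSΞ _ (hbr f hf hfX hfn z)

end Pool.Agent.H19Q

end
end
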