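import Pool.Agent.H94.CB.M207
import Pool.Agent.H94.CB.M221
import Pool.Agent.H94.CB.M223

/-! The parts of this file: H18.LU.HoS, H86.LU.Cpt, H86.LU.Fin, H18.LU.Base. -/

section

/-!
# LU HoS: the start of the continuation

`hole_start`: `z₀ = b + exp t₀`, `p t = q (F (b + exp t))`, `p' t = q (G (b + exp t))` (`q = (H.χ i).q`), analytic at `t₀`.  `exists_cell_of` (`EG/RL/Sec`; `hole_L`, `hole_u`: `M.u i (p t) = exp t` near `t₀`): `μ`, `hf` with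
`M.X i μ t (hf t) = p t` near `t₀`.  `hg`: if `ex i = true`: `hg t = hf t + v₀ + Complex.log (((p' t).2 / (p' t₀).2) * ((p t₀).2 / (p t).2))`, otherwise `hg t = (p' t).2`; analytic at `t₀`, `hg t₀ = hf t₀ + v₀`,
the second coordinate of `M.X i μ t (hg t)` is `(p' t).2`; the quotient of the first coordinates is `1` at `t₀` (`pth_X`, `hv`) and an `a`-th root of unity near `t₀` (`M.u i (p' t) = exp t = M.u i (M.X ..)`: `u_X`), so it is `1` near `t₀` (`root_near`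
in `EG/RL/Sec`).  `Dat` for `f` and `g`: `Cen` (`CenS` implies `Cen`).
The equation: for `t` near `t₀`, `z = b + exp t`: the path `θ ↦ M.X i μ t (hf t + θ (hg t - hf t))`, `θ ∈ [0, 1]`, is in `ball 0 2` and `pr (σ ..)` is within `r` of `pr (F z)` (true at `t₀` with `ε' < r` by `hpath` and `pth_X`; `[0, 1]` is
compact: `generalized tube lemma` / `IsCompact.eventually_forall_..`).  Local logarithm: `T` analytic at `z`, `exp (T ζ) = ζ - b` near `z`, `T z = t`.  `Φ (ζ, w) = σ (M.X i μ (T ζ) w)`: analytic at `(z, w)` for the `w` on the segment, `Φ p ∈ X \ P`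
(`P_iff`: the second coordinate is `≠ 0` if `ex`), `u (Φ p) - p.1 ∈ Λ` (`u_eq`, `u_X`: `M.u i (M.X i μ (T ζ) w) = exp (T ζ) = ζ - b`).  `II_param` (`V = X \ P`, `E.vCone`, `E.vTor`, `hcap` at `z`, `y = pr (F z) = pr (σ (p t))`):
`II α ε z _ _ = ∫ θ, (hg t - hf t) * α.toFun z (Φ ..) (∂₁ Φ) (∂₂ Φ)`.  Chain rule: `∂₁ Φ = T' • Dσ (∂_t X)`, `T' z = exp (-t)`, `∂₂ Φ = Dσ (∂_h X)`, so (`det` of `TForm`; tangent vectors: `Tan` of the curves) the integrand is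
`(hg t - hf t) exp (-t) jac X * coefficient`, `jac X = M.L i (X) / a` (`jac_X`), and `M.L * coefficient = M.g i t` (`g_eq`), so it is `(hg t - hf t) exp (-t) M.phi i μ t (..)`.  `P_deriv` (`EG/RL/Prim`) along the segment and the fundamental theorem
of calculus: the integral is `exp (-t) (M.P i μ t (hg t) - M.P i μ t (hf t))`.
-/

set_option autoImplicit false

open Topology Filter Metric

namespace Pool.Agent.H18.LU

attribute [-instance] ProperSMul.toContinuousSMul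

open Pool.Agent.H36.BP (EN fs wd IsGermChart)
open Pool.Agent.H14.PP (IsCone Chart Tan CurveAt jac)
open Pool.Agent.H62.EF (Lat MN pr TorusMap Sec Charts DU)
open Pool.Agent.H62.EL (Gd Ag BadSet IsNC TForm Mon mo Cap IRel II)
open Pool.Agent.EG.RL (Model Atl Cen Bphi Start)
open Pool.Agent.EG.LE (cf cf_change)

variable {N : ℕ} {X D P : Set (EN N)} {Λ Γ : AddSubgroup ℂ} {u : EN N → ℂ} {B : Set ℂ} {δ : ℝ} {b : ℂ} {α : TForm (X \ P) Λ u}

/-- the integral of the density along a segment -/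
private theorem hs_seg {ι Y : Type} (M : Model ι Y) {i : ι} {μ t w₀ w₁ : ℂ} (hμ : M.k i * μ ^ M.a i = 1) (ht : ‖Complex.exp t‖ < M.ρ)
    (hX : ∀ θ ∈ Set.Icc (0 : ℝ) 1, M.X i μ t (w₀ + θ * (w₁ - w₀)) ∈ ball (0 : ℂ × ℂ) 2) :
    (∫ θ in (0 : ℝ)..1, (w₁ - w₀) * M.phi i μ t (w₀ + θ * (w₁ - w₀))) = M.P i μ t w₁ - M.P i μ t w₀ := by
  have hder : ∀ θ ∈ Set.Icc (0 : ℝ) 1, HasDerivAt (fun θ : ℝ => M.P i μ t (w₀ + θ * (w₁ - w₀)))
      ((w₁ - w₀) * M.phi i μ t (w₀ + θ * (w₁ - w₀))) θ := by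
    intro θ hθ
    have h2 := Pool.Agent.EG.RL.P_deriv M hμ ht (hX θ hθ)
    have h3 : HasDerivAt (fun θ : ℝ => w₀ + (θ : ℂ) * (w₁ - w₀)) (w₁ - w₀) θ := by
      have h4 : HasDerivAt (fun θ : ℝ => (θ : ℂ)) 1 θ := Complex.ofRealCLM.hasDerivAt
      have h5 := (h4.mul_const (w₁ - w₀)).const_add w₀
      rwa [one_mul] at h5
    have h6 := HasDerivAt.comp (𝕜 := ℝ) (𝕜' := ℂ) (h := fun θ : ℝ => w₀ + (θ : ℂ) * (w₁ - w₀)) θ h2 h3
    have h7 : M.phi i μ t (w₀ + θ * (w₁ - w₀)) * (w₁ - w₀) = (w₁ - w₀) * M.phi i μ t (w₀ + θ * (w₁ - w₀)) := mul_comm _ _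
    rw [h7] at h6
    exact h6
  have hcont : ContinuousOn (fun θ : ℝ => (w₁ - w₀) * M.phi i μ t (w₀ + θ * (w₁ - w₀))) (Set.Icc 0 1) := by
    intro θ hθ
    have h2 := (Pool.Agent.EG.RL.phi_an M hμ (p := (t, w₀ + (θ : ℂ) * (w₁ - w₀))) (hX θ hθ)).continuousAt
    have h3 : ContinuousAt (fun θ : ℝ => ((t, w₀ + (θ : ℂ) * (w₁ - w₀)) : ℂ × ℂ)) θ := by fun_prop
    have h4 : ContinuousAt (fun θ : ℝ => M.phi i μ t (w₀ + θ * (w₁ - w₀))) θ :=
      ContinuousAt.comp (g := fun p : ℂ × ℂ => M.phi i μ p.1 p.2) (f := fun θ : ℝ => ((t, w₀ + (θ : ℂ) * (w₁ - w₀)) : ℂ × ℂ)) h2 h3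
    exact (continuousAt_const.mul h4).continuousWithinAt
  rw [intervalIntegral.integral_eq_sub_of_hasDerivAt (f := fun θ : ℝ => M.P i μ t (w₀ + θ * (w₁ - w₀)))]
  · simp only [Complex.ofReal_one, one_mul, add_sub_cancel, Complex.ofReal_zero, zero_mul, add_zero]
  · intro θ hθ
    rw [Set.uIcc_of_le zero_le_one] at hθ
    exact hder θ hθ
  · exact (hcont.mono (by rw [Set.uIcc_of_le zero_le_one])).intervalIntegrable

/-- the coefficient of the form in the family of curves `(ζ, w) ↦ σ (X (T ζ) w)` -/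
private theorem hs_cf (E : LData X D P Λ Γ u B δ) (H : Hole X P Λ u b α) {i : H.ι} {μ t w : ℂ} (hμ : H.M.k i * μ ^ H.M.a i = 1)
    (hX : H.M.X i μ t w ∈ ball (0 : ℂ × ℂ) 2) {T : ℂ → ℂ} (hT : AnalyticAt ℂ T (b + Complex.exp t)) (hTt : T (b + Complex.exp t) = t)
    (hTe : ∀ᶠ ζ in 𝓝 (b + Complex.exp t), Complex.exp (T ζ) = ζ - b) :
    AnalyticAt ℂ (fun q : ℂ × ℂ => (H.χ i).σ (H.M.X i μ (T q.1) q.2)) (b + Complex.exp t, w) ∧
      (∀ᶠ q in 𝓝 ((b + Complex.exp t, w) : ℂ × ℂ), (H.χ i).σ (H.M.X i μ (T q.1) q.2) ∈ X \ P ∧ u ((H.χ i).σ (H.M.X i μ (T q.1) q.2)) - q.1 ∈ Λ) ∧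
      cf α (fun q : ℂ × ℂ => (H.χ i).σ (H.M.X i μ (T q.1) q.2)) (b + Complex.exp t) (b + Complex.exp t, w) * Complex.exp t = H.M.phi i μ t w := by
  set z := b + Complex.exp t with hz
  have hTq : AnalyticAt ℂ (fun q : ℂ × ℂ => T q.1) (z, w) := AnalyticAt.fun_comp (g := T) (f := fun q : ℂ × ℂ => q.1) hT analyticAt_fst
  have hpair : AnalyticAt ℂ (fun q : ℂ × ℂ => ((T q.1, q.2) : ℂ × ℂ)) (z, w) := hTq.prod analyticAt_snd
  have hXX : AnalyticAt ℂ (fun q : ℂ × ℂ => H.M.X i μ q.1 q.2) (T z, w) := Pool.Agent.EG.RL.X_an H.M i μ (T z, w)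
  have hτ : AnalyticAt ℂ (fun q : ℂ × ℂ => H.M.X i μ (T q.1) q.2) (z, w) :=
    AnalyticAt.fun_comp (g := fun q : ℂ × ℂ => H.M.X i μ q.1 q.2) (f := fun q : ℂ × ℂ => ((T q.1, q.2) : ℂ × ℂ)) hXX hpair
  have hXz : H.M.X i μ (T z) w ∈ ball (0 : ℂ × ℂ) 2 := by
    rw [hTt]
    exact hX
  have hσ : AnalyticAt ℂ (H.χ i).σ (H.M.X i μ (T z) w) := (H.χ i).σ_an _ hXz
  have hΦ : AnalyticAt ℂ (fun q : ℂ × ℂ => (H.χ i).σ (H.M.X i μ (T q.1) q.2)) (z, w) :=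
    AnalyticAt.fun_comp (g := (H.χ i).σ) (f := fun q : ℂ × ℂ => H.M.X i μ (T q.1) q.2) hσ hτ
  have hmem : ∀ p ∈ ball (0 : ℂ × ℂ) 2, H.M.L i p ≠ 0 → (H.χ i).σ p ∈ X \ P := fun p hp hL => by
    refine ⟨((H.χ i).σ_mem p hp).1, fun hP => ?_⟩
    obtain ⟨h1, h2, h3⟩ := (H.P_iff i p hp).1 hP
    apply hL
    unfold Atl.L
    rw [if_pos h1, h3, mul_zero]
  have hev : ∀ᶠ q in 𝓝 ((z, w) : ℂ × ℂ), (H.χ i).σ (H.M.X i μ (T q.1) q.2) ∈ X \ P ∧ u ((H.χ i).σ (H.M.X i μ (T q.1) q.2)) - q.1 ∈ Λ := by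
    have h1 : ∀ᶠ q in 𝓝 ((z, w) : ℂ × ℂ), H.M.X i μ (T q.1) q.2 ∈ ball (0 : ℂ × ℂ) 2 :=
      hτ.continuousAt.eventually_mem (isOpen_ball.mem_nhds hXz)
    have h2 : ∀ᶠ q in 𝓝 ((z, w) : ℂ × ℂ), Complex.exp (T q.1) = q.1 - b :=
      (continuous_fst.tendsto ((z, w) : ℂ × ℂ)).eventually hTe
    filter_upwards [h1, h2] with q hq1 hq2
    refine ⟨hmem _ hq1 (Pool.Agent.EG.RL.L_X_ne H.M hμ _ _), ?_⟩
    have h3 := H.u_eq i _ hq1
    rw [Pool.Agent.EG.RL.u_X H.M hμ, hq2, add_sub_cancel] at h3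
    exact h3
  refine ⟨hΦ, hev, ?_⟩
  have h0 : (0 : EN N) ∉ X \ P := fun h => E.cone.zero_notMem h.1
  have hsm : ∀ x ∈ X \ P, ∀ c : ℂ, c ≠ 0 → c • x ∈ X \ P := E.vCone.smul_mem
  have hVev : ∀ᶠ y in 𝓝 (H.M.X i μ (T z) w), (H.χ i).σ y ∈ X \ P := by
    have h1 : ContinuousAt (fun p : ℂ × ℂ => H.M.L i p) (H.M.X i μ (T z) w) := by
      unfold Atl.L
      split_ifs <;> fun_prop
    filter_upwards [isOpen_ball.mem_nhds hXz, h1.eventually_ne (Pool.Agent.EG.RL.L_X_ne H.M hμ _ _)] with y hy hL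
    exact hmem y hy hL
  have hcf := cf_change (α := α) h0 hsm (φ := fun q : ℂ × ℂ => (H.χ i).σ (H.M.X i μ (T q.1) q.2)) (ψ := (H.χ i).σ)
    (τ := fun q : ℂ × ℂ => H.M.X i μ (T q.1) q.2) (p := (z, w)) (t := z) hΦ hσ hτ hVev hev.self_of_nhds.2
    (Eventually.of_forall fun y => ⟨1, one_ne_zero, (one_smul _ _).symm⟩)
  rw [hcf]
  -- the jacobian
  have hTd : HasDerivAt T (Complex.exp (-t)) z := by
    have h1 := hT.differentiableAt.hasDerivAt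
    have h2 : HasDerivAt (fun ζ => Complex.exp (T ζ)) (Complex.exp (T z) * deriv T z) z := h1.cexp
    have h3 : HasDerivAt (fun ζ : ℂ => ζ - b) 1 z := (hasDerivAt_id z).sub_const b
    have h4 : HasDerivAt (fun ζ => Complex.exp (T ζ)) 1 z := h3.congr_of_eventuallyEq hTe
    have h5 := h2.unique h4
    rw [hTt] at h5
    have h6 : deriv T z = Complex.exp (-t) := by
      rw [Complex.exp_neg]
      exact eq_inv_of_mul_eq_one_right h5
    rw [← h6]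
    exact h1
  have hjac : jac (fun q : ℂ × ℂ => H.M.X i μ (T q.1) q.2) (z, w) = Complex.exp (-t) * (H.M.L i (H.M.X i μ t w) / H.M.a i) := by
    have h1 := Pool.Agent.EG.RL.jac_X H.M i μ (t, w)
    have hTz : T z = t := hTt
    rw [hTz] at hXX
    have h2 : HasFDerivAt (fun q : ℂ × ℂ => H.M.X i μ q.1 q.2) (fderiv ℂ (fun q : ℂ × ℂ => H.M.X i μ q.1 q.2) (t, w)) (T z, w) := by
      rw [hTz]
      exact hXX.differentiableAt.hasFDerivAt
    have h3 : HasFDerivAt (fun q : ℂ × ℂ => ((T q.1, q.2) : ℂ × ℂ))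
        ((Complex.exp (-t) • ContinuousLinearMap.fst ℂ ℂ ℂ).prod (ContinuousLinearMap.snd ℂ ℂ ℂ)) (z, w) := by
      refine HasFDerivAt.prodMk ?_ hasFDerivAt_snd
      exact HasDerivAt.comp_hasFDerivAt (z, w) (h₂ := T) hTd hasFDerivAt_fst
    have h4 := HasFDerivAt.comp (z, w) (g := fun q : ℂ × ℂ => H.M.X i μ q.1 q.2) h2 h3
    have h5 : fderiv ℂ (fun q : ℂ × ℂ => H.M.X i μ (T q.1) q.2) (z, w) =
        (fderiv ℂ (fun q : ℂ × ℂ => H.M.X i μ q.1 q.2) (t, w)).comp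
          ((Complex.exp (-t) • ContinuousLinearMap.fst ℂ ℂ ℂ).prod (ContinuousLinearMap.snd ℂ ℂ ℂ)) := h4.fderiv
    rw [← h1]
    unfold jac
    rw [h5]
    have h6 : ((Complex.exp (-t) • ContinuousLinearMap.fst ℂ ℂ ℂ).prod (ContinuousLinearMap.snd ℂ ℂ ℂ)) (1, 0) =
        Complex.exp (-t) • ((1, 0) : ℂ × ℂ) := by
      simp
    have h7 : ((Complex.exp (-t) • ContinuousLinearMap.fst ℂ ℂ ℂ).prod (ContinuousLinearMap.snd ℂ ℂ ℂ)) (0, 1) = ((0, 1) : ℂ × ℂ) := by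
      simp
    rw [ContinuousLinearMap.comp_apply, ContinuousLinearMap.comp_apply, h6, h7, map_smul]
    simp only [Prod.smul_fst, Prod.smul_snd, smul_eq_mul]
    ring
  rw [hjac]
  have hcfX : cf α (H.χ i).σ z (H.M.X i μ t w) * H.M.L i (H.M.X i μ t w) = H.M.g i t (H.M.X i μ t w) := by
    rw [H.g_eq i t _ hX (Pool.Agent.EG.RL.L_X_ne H.M hμ _ _) (Pool.Agent.EG.RL.u_X H.M hμ t w).symm, mul_comm]
    rfl
  simp only [hTt]
  unfold Atl.phi
  rw [← hcfX, Complex.exp_neg]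
  field_simp

/-- the integral of the form in one cell -/
private theorem hs_int (E : LData X D P Λ Γ u B δ) (H : Hole X P Λ u b α) {i : H.ι} {μ t w₀ w₁ : ℂ} (hμ : H.M.k i * μ ^ H.M.a i = 1)
    (ht : ‖Complex.exp t‖ < H.M.ρ) {ε r : ℝ} (hεr : ε ≤ r) {χ' : Chart (X \ P)} {c : ℂ} {ρ : ℝ}
    (hcap : Cap Λ u χ' c ρ (b + Complex.exp t) (pr ((H.χ i).σ (H.M.X i μ t w₀))) r)
    (hrel : ∃ v, IRel α ε (b + Complex.exp t) (pr ((H.χ i).σ (H.M.X i μ t w₀))) (pr ((H.χ i).σ (H.M.X i μ t w₁))) v)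
    (hX : ∀ θ ∈ Set.Icc (0 : ℝ) 1, H.M.X i μ t (w₀ + θ * (w₁ - w₀)) ∈ ball (0 : ℂ × ℂ) 2 ∧
      dist (pr ((H.χ i).σ (H.M.X i μ t (w₀ + θ * (w₁ - w₀))))) (pr ((H.χ i).σ (H.M.X i μ t w₀))) ≤ r) :
    II α ε (b + Complex.exp t) (pr ((H.χ i).σ (H.M.X i μ t w₀))) (pr ((H.χ i).σ (H.M.X i μ t w₁))) * Complex.exp t =
      H.M.P i μ t w₁ - H.M.P i μ t w₀ := by
  obtain ⟨T, hT, hTt, hTe⟩ : ∃ T : ℂ → ℂ, AnalyticAt ℂ T (b + Complex.exp t) ∧ T (b + Complex.exp t) = t ∧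
      ∀ᶠ ζ in 𝓝 (b + Complex.exp t), Complex.exp (T ζ) = ζ - b := by
    refine ⟨fun ζ => t + Complex.log ((ζ - b) / Complex.exp t), ?_, ?_, ?_⟩
    · refine analyticAt_const.add (AnalyticAt.clog ?_ ?_)
      · exact (analyticAt_id.sub analyticAt_const).div analyticAt_const (Complex.exp_ne_zero t)
      · rw [add_sub_cancel_left, div_self (Complex.exp_ne_zero t)]
        exact Complex.one_mem_slitPlane
    · show t + Complex.log ((b + Complex.exp t - b) / Complex.exp t) = t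
      rw [add_sub_cancel_left, div_self (Complex.exp_ne_zero t), Complex.log_one, add_zero]
    · have h1 : ∀ᶠ ζ in 𝓝 (b + Complex.exp t), ζ ≠ b := by
        refine isOpen_ne.mem_nhds ?_
        intro h
        simp at h
      filter_upwards [h1] with ζ hζ
      rw [Complex.exp_add, Complex.exp_log (div_ne_zero (sub_ne_zero.2 hζ) (Complex.exp_ne_zero t)), mul_div_cancel₀ _ (Complex.exp_ne_zero t)]
  have key : ∀ θ ∈ Set.Icc (0 : ℝ) 1, _ := fun θ hθ => hs_cf E H hμ (hX θ hθ).1 hT hTt hTe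
  have h1 := II_param E.vCone E.vTor E.dsc hcap hεr hrel (Φ := fun q : ℂ × ℂ => (H.χ i).σ (H.M.X i μ (T q.1) q.2)) (w₀ := w₀) (w₁ := w₁)
    (fun θ hθ => ⟨(key θ hθ).1, (key θ hθ).2.1, by
      show dist (pr ((H.χ i).σ (H.M.X i μ (T (b + Complex.exp t)) (w₀ + θ * (w₁ - w₀))))) _ ≤ r
      rw [hTt]
      exact (hX θ hθ).2⟩)
    (by
      show pr ((H.χ i).σ (H.M.X i μ (T (b + Complex.exp t)) w₀)) = _
      rw [hTt]) (by
      show pr ((H.χ i).σ (H.M.X i μ (T (b + Complex.exp t)) w₁)) = _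
      rw [hTt])
  rw [h1, ← hs_seg H.M hμ ht fun θ hθ => (hX θ hθ).1, ← intervalIntegral.integral_mul_const]
  refine intervalIntegral.integral_congr fun θ hθ => ?_
  rw [Set.uIcc_of_le zero_le_one] at hθ
  show (w₁ - w₀) * _ * Complex.exp t = (w₁ - w₀) * _
  rw [mul_assoc, ← (key θ hθ).2.2]
  rfl

theorem hole_start (E : LData X D P Λ Γ u B δ) (H : Hole X P Λ u b α) {F G : ℂ → EN N} {t₀ : ℂ} (ht₀ : ‖Complex.exp t₀‖ < H.M.ρ)
    (hF : SecAt X D Λ u F (b + Complex.exp t₀)) (hG : SecAt X D Λ u G (b + Complex.exp t₀)) {ε ε' r : ℝ} (hε' : ε' < r) (hεr : ε ≤ r)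
    (hcap : ∀ᶠ z in 𝓝 (b + Complex.exp t₀), (∃ (χ : Chart (X \ P)) (c : ℂ) (ρ : ℝ), Cap Λ u χ c ρ z (pr (F z)) r) ∧
      ∃ v, IRel α ε z (pr (F z)) (pr (G z)) v) {i : H.ι} (hi : F (b + Complex.exp t₀) ∈ (H.χ i).U)
    (hc : CenS ((H.χ i).q (F (b + Complex.exp t₀)))) (hi' : G (b + Complex.exp t₀) ∈ (H.χ i).U)
    (hc' : Cen ((H.χ i).q (G (b + Complex.exp t₀)))) {v₀ : ℂ}
    (hv : pth H.M.toAtl i ((H.χ i).q (F (b + Complex.exp t₀))) v₀ = (H.χ i).q (G (b + Complex.exp t₀)))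
    (hpath : ∀ θ ∈ Set.Icc (0 : ℝ) 1, pth H.M.toAtl i ((H.χ i).q (F (b + Complex.exp t₀))) (θ * v₀) ∈ ball (0 : ℂ × ℂ) 2 ∧
      dist (pr ((H.χ i).σ (pth H.M.toAtl i ((H.χ i).q (F (b + Complex.exp t₀))) (θ * v₀)))) (pr (F (b + Complex.exp t₀))) ≤ ε') :
    Start H.M (fun w => pr (F (b + w))) (fun w => pr (G (b + w)))
      (fun w => II α ε (b + w) (pr (F (b + w))) (pr (G (b + w)))) t₀ := by
  have hM := H.M
  have hz₀ : b + Complex.exp t₀ ∈ ball b H.M.ρ := by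
    rw [mem_ball, dist_eq_norm, add_sub_cancel_left]
    exact ht₀
  have hz₀b : b + Complex.exp t₀ ≠ b := by
    intro h
    simp at h
  have hexp : AnalyticAt ℂ (fun t : ℂ => b + Complex.exp t) t₀ := by fun_prop
  have htend : Tendsto (fun t : ℂ => b + Complex.exp t) (𝓝 t₀) (𝓝 (b + Complex.exp t₀)) := hexp.continuousAt
  have hball : ∀ᶠ t in 𝓝 t₀, b + Complex.exp t ∈ ball b H.M.ρ ∧ ‖Complex.exp t‖ < H.M.ρ := by
    filter_upwards [htend.eventually_mem (isOpen_ball.mem_nhds hz₀)] with t ht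
    refine ⟨ht, ?_⟩
    rw [mem_ball, dist_eq_norm, add_sub_cancel_left] at ht
    exact ht
  -- a section in the chart `i`
  have hsec : ∀ F' : ℂ → EN N, SecAt X D Λ u F' (b + Complex.exp t₀) → F' (b + Complex.exp t₀) ∈ (H.χ i).U →
      AnalyticAt ℂ (fun t => (H.χ i).q (F' (b + Complex.exp t))) t₀ ∧ H.M.L i ((H.χ i).q (F' (b + Complex.exp t₀))) ≠ 0 ∧
      ∀ᶠ t in 𝓝 t₀, H.M.u i ((H.χ i).q (F' (b + Complex.exp t))) = Complex.exp t ∧
        pr (F' (b + Complex.exp t)) = pr ((H.χ i).σ ((H.χ i).q (F' (b + Complex.exp t)))) := by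
    intro F' hF' hU
    have h1 : AnalyticAt ℂ (fun t : ℂ => F' (b + Complex.exp t)) t₀ := AnalyticAt.fun_comp (g := F') (f := fun t : ℂ => b + Complex.exp t) hF'.1 hexp
    refine ⟨AnalyticAt.fun_comp (g := (H.χ i).q) (f := fun t : ℂ => F' (b + Complex.exp t)) ((H.χ i).q_an _ hU) h1, ?_, ?_⟩
    · have h2 := hF'.2.self_of_nhds
      exact hole_L E H h2.1 (fun hP => h2.2.1 (E.P_sub hP)) hU hz₀ hz₀b h2.2.2
    · filter_upwards [hball, htend.eventually hF'.2, h1.continuousAt.eventually_mem ((H.χ i).isOpen_U.mem_nhds hU)] with t h2 h3 h4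
      refine ⟨?_, ?_⟩
      · rw [hole_u E H h3.1 h4 h2.1 h3.2.2, add_sub_cancel_left]
      · obtain ⟨_, c, hc, h5⟩ := (H.χ i).surj _ h3.1 h4
        exact (congrArg pr h5).trans (Pool.Agent.H62.EF.pr_smul _ hc)
  obtain ⟨hFan, hFL, hFev⟩ := hsec F hF hi
  obtain ⟨hGan, hGL, hGev⟩ := hsec G hG hi'
  set pF : ℂ → ℂ × ℂ := fun t => (H.χ i).q (F (b + Complex.exp t)) with hpF
  set pG : ℂ → ℂ × ℂ := fun t => (H.χ i).q (G (b + Complex.exp t)) with hpG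
  have hF0 : (H.χ i).q (F (b + Complex.exp t₀)) = pF t₀ := rfl
  have hG0 : (H.χ i).q (G (b + Complex.exp t₀)) = pG t₀ := rfl
  rw [hF0] at hc hv hFL hpath
  rw [hG0] at hc' hv hGL
  obtain ⟨μ, hf, hμ, hfan, hfX⟩ := Pool.Agent.EG.RL.exists_cell_of H.M (p := pF) hFan hFL (hFev.mono fun t ht => ht.1)
  have hfX0 := hfX.self_of_nhds
  have hF1 : (pF t₀).1 ≠ 0 := left_ne_zero_of_mul hFL
  have hG1 : (pG t₀).1 ≠ 0 := left_ne_zero_of_mul hGL
  -- the second function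
  obtain ⟨hg, hgan, hg0, hg2⟩ : ∃ hg : ℂ → ℂ, AnalyticAt ℂ hg t₀ ∧ hg t₀ = hf t₀ + v₀ ∧ ∀ᶠ t in 𝓝 t₀, (H.M.X i μ t (hg t)).2 = (pG t).2 := by
    have hv2 := congrArg Prod.snd hv
    by_cases hex : H.M.ex i = true
    · have hF2 : (pF t₀).2 ≠ 0 := by
        have h1 := right_ne_zero_of_mul hFL
        rwa [if_pos hex] at h1
      have hG2 : (pG t₀).2 ≠ 0 := by
        have h1 := right_ne_zero_of_mul hGL
        rwa [if_pos hex] at h1
      have hFan2 : AnalyticAt ℂ (fun t => (pF t).2) t₀ := AnalyticAt.fun_comp (g := Prod.snd) (f := pF) analyticAt_snd hFan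
      have hGan2 : AnalyticAt ℂ (fun t => (pG t).2) t₀ := AnalyticAt.fun_comp (g := Prod.snd) (f := pG) analyticAt_snd hGan
      have hq0 : (pG t₀).2 / (pG t₀).2 * ((pF t₀).2 / (pF t₀).2) = 1 := by
        rw [div_self hG2, div_self hF2, one_mul]
      refine ⟨fun t => hf t + v₀ + Complex.log ((pG t).2 / (pG t₀).2 * ((pF t₀).2 / (pF t).2)), ?_, ?_, ?_⟩
      · refine (hfan.add analyticAt_const).add (AnalyticAt.clog ?_ ?_)
        · exact (hGan2.div analyticAt_const hG2).mul (analyticAt_const.div hFan2 hF2)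
        · rw [hq0]
          exact Complex.one_mem_slitPlane
      · show hf t₀ + v₀ + Complex.log ((pG t₀).2 / (pG t₀).2 * ((pF t₀).2 / (pF t₀).2)) = _
        rw [hq0, Complex.log_one, add_zero]
      · filter_upwards [hfX, hFan2.continuousAt.eventually_ne hF2, hGan2.continuousAt.eventually_ne hG2] with t h1 h2 h3
        have h4 : (H.M.X i μ t (hf t)).2 = Complex.exp (hf t) := by
          show Pool.Agent.EG.RL.yb (H.M.ex i) (hf t) = _
          rw [hex, Pool.Agent.EG.RL.yb_true]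
        rw [h1] at h4
        show Pool.Agent.EG.RL.yb (H.M.ex i) _ = _
        rw [hex, Pool.Agent.EG.RL.yb_true, Complex.exp_add, Complex.exp_add, ← h4, Complex.exp_log (by positivity)]
        unfold pth at hv2
        simp only [hex, if_true] at hv2
        rw [← hv2]
        field_simp
    · have hex' : H.M.ex i = false := by simpa using hex
      have hGan2 : AnalyticAt ℂ (fun t => (pG t).2) t₀ := AnalyticAt.fun_comp (g := Prod.snd) (f := pG) analyticAt_snd hGan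
      refine ⟨fun t => (pG t).2, hGan2, ?_, ?_⟩
      · unfold pth at hv2
        simp only [hex', Bool.false_eq_true, if_false] at hv2
        have h4 : (H.M.X i μ t₀ (hf t₀)).2 = hf t₀ := by
          show Pool.Agent.EG.RL.yb (H.M.ex i) (hf t₀) = _
          rw [hex', Pool.Agent.EG.RL.yb_false]
        rw [hfX0] at h4
        rw [← h4]
        exact hv2.symm
      · refine Eventually.of_forall fun t => ?_
        show Pool.Agent.EG.RL.yb (H.M.ex i) _ = _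
        rw [hex', Pool.Agent.EG.RL.yb_false]
  -- the first coordinates
  have hX0 : H.M.X i μ t₀ (hg t₀) = pG t₀ := by
    rw [hg0, ← pth_X, hfX0]
    exact hv
  have hgX : ∀ᶠ t in 𝓝 t₀, H.M.X i μ t (hg t) = pG t := by
    have hXan : AnalyticAt ℂ (fun t => H.M.X i μ t (hg t)) t₀ :=
      AnalyticAt.fun_comp (g := fun q : ℂ × ℂ => H.M.X i μ q.1 q.2) (f := fun t => ((t, hg t) : ℂ × ℂ)) (Pool.Agent.EG.RL.X_an H.M i μ (t₀, hg t₀))
        (analyticAt_id.prod hgan)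
    have hX1 : ∀ t, (H.M.X i μ t (hg t)).1 ≠ 0 := fun t => Pool.Agent.EG.RL.X_fst_ne H.M hμ _ _
    have hζ : ContinuousAt (fun t => (pG t).1 / (H.M.X i μ t (hg t)).1) t₀ :=
      hGan.continuousAt.fst.div hXan.continuousAt.fst (hX1 t₀)
    have hζ0 : (fun t => (pG t).1 / (H.M.X i μ t (hg t)).1) t₀ = 1 := by
      show (pG t₀).1 / (H.M.X i μ t₀ (hg t₀)).1 = 1
      rw [hX0, div_self hG1]
    have h1 := Pool.Agent.EG.RL.root_near (H.M.a_pos i) hζ hζ0 (by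
      filter_upwards [hg2, hGev] with t h2 h3
      have h4 := Pool.Agent.EG.RL.u_X H.M hμ t (hg t)
      rw [← h3.1] at h4
      unfold Atl.u at h4
      have h5 : (pG t).2 ^ H.M.b i ≠ 0 := by
        have h6 : H.M.u i (pG t) ≠ 0 := by
          rw [h3.1]
          exact Complex.exp_ne_zero t
        exact right_ne_zero_of_mul h6
      rw [h2] at h4
      have h6 := mul_right_cancel₀ h5 h4
      have h7 := mul_left_cancel₀ (Pool.Agent.EG.RL.k_ne H.M i) h6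
      show ((pG t).1 / (H.M.X i μ t (hg t)).1) ^ H.M.a i = 1
      rw [div_pow, h7, div_self]
      exact h7 ▸ pow_ne_zero _ (hX1 t))
    filter_upwards [h1, hg2] with t h2 h3
    refine Prod.ext ?_ h3
    have h4 : (pG t).1 / (H.M.X i μ t (hg t)).1 = 1 := h2
    rw [div_eq_one_iff_eq (hX1 t)] at h4
    exact h4.symm
  -- the path
  have hpath0 : ∀ θ ∈ Set.Icc (0 : ℝ) 1, H.M.X i μ t₀ (hf t₀ + θ * (hg t₀ - hf t₀)) ∈ ball (0 : ℂ × ℂ) 2 ∧
      dist (pr ((H.χ i).σ (H.M.X i μ t₀ (hf t₀ + θ * (hg t₀ - hf t₀))))) (pr ((H.χ i).σ (H.M.X i μ t₀ (hf t₀)))) < r := by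
    intro θ hθ
    have h1 := hpath θ hθ
    have h2 : hg t₀ - hf t₀ = v₀ := by
      rw [hg0, add_sub_cancel_left]
    rw [h2, ← pth_X, hfX0]
    refine ⟨h1.1, ?_⟩
    have h3 := hFev.self_of_nhds.2
    have h4 : pr (F (b + Complex.exp t₀)) = pr ((H.χ i).σ (pF t₀)) := h3
    rw [← h4]
    exact h1.2.trans_lt hε'
  have hpathev : ∀ᶠ t in 𝓝 t₀, ∀ θ ∈ Set.Icc (0 : ℝ) 1, H.M.X i μ t (hf t + θ * (hg t - hf t)) ∈ ball (0 : ℂ × ℂ) 2 ∧
      dist (pr ((H.χ i).σ (H.M.X i μ t (hf t + θ * (hg t - hf t))))) (pr ((H.χ i).σ (H.M.X i μ t (hf t)))) < r := by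
    have h1 : ∀ θ ∈ Set.Icc (0 : ℝ) 1, ∀ᶠ q in 𝓝 ((θ, t₀) : ℝ × ℂ), H.M.X i μ q.2 (hf q.2 + q.1 * (hg q.2 - hf q.2)) ∈ ball (0 : ℂ × ℂ) 2 ∧
        dist (pr ((H.χ i).σ (H.M.X i μ q.2 (hf q.2 + q.1 * (hg q.2 - hf q.2))))) (pr ((H.χ i).σ (H.M.X i μ q.2 (hf q.2)))) < r := by
      intro θ hθ
      have hfc : ContinuousAt (fun q : ℝ × ℂ => hf q.2) (θ, t₀) := ContinuousAt.comp (g := hf) (f := fun q : ℝ × ℂ => q.2) hfan.continuousAt continuousAt_snd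
      have hgc : ContinuousAt (fun q : ℝ × ℂ => hg q.2) (θ, t₀) := ContinuousAt.comp (g := hg) (f := fun q : ℝ × ℂ => q.2) hgan.continuousAt continuousAt_snd
      have hwc : ContinuousAt (fun q : ℝ × ℂ => hf q.2 + q.1 * (hg q.2 - hf q.2)) (θ, t₀) := by
        refine hfc.add (ContinuousAt.mul ?_ (hgc.sub hfc))
        exact (Complex.continuous_ofReal.comp continuous_fst).continuousAt
      have hXc : ∀ w : ℝ × ℂ → ℂ, ContinuousAt w (θ, t₀) → ContinuousAt (fun q : ℝ × ℂ => H.M.X i μ q.2 (w q)) (θ, t₀) := by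
        intro w hw
        have h2 : ContinuousAt (fun q : ℝ × ℂ => ((q.2, w q) : ℂ × ℂ)) (θ, t₀) := continuousAt_snd.prodMk hw
        exact ContinuousAt.comp (g := fun p : ℂ × ℂ => H.M.X i μ p.1 p.2) (f := fun q : ℝ × ℂ => ((q.2, w q) : ℂ × ℂ))
          (Pool.Agent.EG.RL.X_an H.M i μ (t₀, w (θ, t₀))).continuousAt h2
      have hprc : ∀ w : ℝ × ℂ → ℂ, ContinuousAt w (θ, t₀) → H.M.X i μ t₀ (w (θ, t₀)) ∈ ball (0 : ℂ × ℂ) 2 →
          ContinuousAt (fun q : ℝ × ℂ => pr ((H.χ i).σ (H.M.X i μ q.2 (w q)))) (θ, t₀) := by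
        intro w hw hb
        have h2 : ContinuousAt (fun q : ℝ × ℂ => (H.χ i).σ (H.M.X i μ q.2 (w q))) (θ, t₀) :=
          ContinuousAt.comp (g := (H.χ i).σ) (f := fun q : ℝ × ℂ => H.M.X i μ q.2 (w q)) ((H.χ i).σ_an _ hb).continuousAt (hXc w hw)
        refine ContinuousAt.comp (g := pr) (f := fun q : ℝ × ℂ => (H.χ i).σ (H.M.X i μ q.2 (w q))) (Pool.Agent.H62.EF.continuousAt_pr ?_) h2
        intro h0
        have h3 := ((H.χ i).σ_mem _ hb).1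
        have h4 : (H.χ i).σ (H.M.X i μ t₀ (w (θ, t₀))) = 0 := h0
        rw [h4] at h3
        exact E.cone.zero_notMem h3
      have h00 : H.M.X i μ t₀ (hf t₀) ∈ ball (0 : ℂ × ℂ) 2 := by
        have h2 := (hpath0 0 ⟨le_rfl, zero_le_one⟩).1
        simpa using h2
      have hXθ := hpath0 θ hθ
      have h2 := (hXc _ hwc).eventually_mem (isOpen_ball.mem_nhds hXθ.1)
      have h3 : ContinuousAt (fun q : ℝ × ℂ => dist (pr ((H.χ i).σ (H.M.X i μ q.2 (hf q.2 + q.1 * (hg q.2 - hf q.2)))))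
          (pr ((H.χ i).σ (H.M.X i μ q.2 (hf q.2))))) (θ, t₀) := (hprc _ hwc hXθ.1).dist (hprc _ hfc h00)
      have h4 := h3.eventually_lt continuousAt_const hXθ.2
      exact h2.and h4
    have h5 := isCompact_Icc.eventually_forall_of_forall_eventually (x₀ := t₀) (K := Set.Icc (0 : ℝ) 1)
      (P := fun t θ => H.M.X i μ t (hf t + (θ : ℝ) * (hg t - hf t)) ∈ ball (0 : ℂ × ℂ) 2 ∧
        dist (pr ((H.χ i).σ (H.M.X i μ t (hf t + (θ : ℝ) * (hg t - hf t))))) (pr ((H.χ i).σ (H.M.X i μ t (hf t)))) < r) (by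
        intro θ hθ
        exact (continuous_swap.tendsto ((t₀, θ) : ℂ × ℝ)).eventually (h1 θ hθ))
    exact h5
  refine ⟨i, μ, hf, hg, ⟨hμ, hfan, ?_, ?_⟩, ⟨hμ, hgan, ?_, ?_⟩, ?_⟩
  · rw [hfX0]
    exact ⟨by linarith [hc.1], by linarith [hc.2]⟩
  · filter_upwards [hfX, hFev] with t h1 h2
    show pr (F (b + Complex.exp t)) = H.M.s i (H.M.X i μ t (hf t))
    rw [h1, H.s_eq]
    exact h2.2
  · rw [hX0]
    exact hc'
  · filter_upwards [hgX, hGev] with t h1 h2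
    show pr (G (b + Complex.exp t)) = H.M.s i (H.M.X i μ t (hg t))
    rw [h1, H.s_eq]
    exact h2.2
  · filter_upwards [hfX, hgX, hFev, hGev, hpathev, htend.eventually hcap, hball] with t h1 h2 h3 h4 h5 h6 h7
    have h8 : pr (F (b + Complex.exp t)) = pr ((H.χ i).σ (H.M.X i μ t (hf t))) := by
      rw [h1]
      exact h3.2
    have h9 : pr (G (b + Complex.exp t)) = pr ((H.χ i).σ (H.M.X i μ t (hg t))) := by
      rw [h2]
      exact h4.2
    obtain ⟨⟨χ', c, ρ, hcap'⟩, hrel⟩ := h6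
    show II α ε (b + Complex.exp t) (pr (F (b + Complex.exp t))) (pr (G (b + Complex.exp t))) * Complex.exp t = _
    rw [h8] at hcap' hrel ⊢
    rw [h9] at hrel ⊢
    exact hs_int E H hμ h7.2 hεr hcap' hrel fun θ hθ => ⟨(h5 θ hθ).1, (h5 θ hθ).2.le⟩

end Pool.Agent.H18.LU

end

section

/-!
# LU Cpt: the compact case
-/

set_option autoImplicit false

open Topology Filter Metric

namespace Pool.Agent.H86.LU

attribute [-instance] ProperSMul.toContinuousSMul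

open Pool.Agent.H36.BP (EN fs wd IsGermChart)
open Pool.Agent.H14.PP (IsCone Chart Tan CurveAt)
open Pool.Agent.H62.EF (Lat MN pr TorusMap Sec Charts DU det2 pr_smul pr_eq_iff near_of_pr isCompact_pr sec_uniq)
open Pool.Agent.H62.EL (TForm Per VanZero Thin tc)
open Pool.Agent.H18.LU (OCone Dsc LogP HorAt ResBd LBase EBase part Nb)

variable {N : ℕ} {X D : Set (EN N)} {Λ Γ : AddSubgroup ℂ} {u : EN N → ℂ} {B : Set ℂ} {δ : ℝ}

theorem dsc_closed (hΛ : Dsc Λ) : IsClosed (Λ : Set ℂ) := by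
  refine isClosed_of_closure_subset fun a ha => ?_
  refine hΛ.mem_of_close fun ε hε => ?_
  obtain ⟨b, hb, hd⟩ := Metric.mem_closure_iff.1 ha ε hε
  exact ⟨b, hb, by rwa [dist_eq_norm] at hd⟩

theorem mem_Nb (hΛ : Dsc Λ) {R : ℝ} {z : ℂ} : z ∈ Nb Λ R ↔ infDist z (Λ : Set ℂ) ≤ R := by
  constructor
  · rintro ⟨l, hl, h⟩
    exact (infDist_le_dist_of_mem hl).trans (by rwa [dist_eq_norm])
  · intro h
    obtain ⟨l, hl, h1⟩ := (dsc_closed hΛ).exists_infDist_eq_dist ⟨0, Λ.zero_mem⟩ z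
    exact ⟨l, hl, by rw [← dist_eq_norm, ← h1]; exact h⟩

theorem Nb_add {R : ℝ} {z w : ℂ} (h : z ∈ Nb Λ R) (hzw : w - z ∈ Λ) : w ∈ Nb Λ R := by
  obtain ⟨l, hl, h1⟩ := h
  refine ⟨l + (w - z), Λ.add_mem hl hzw, ?_⟩
  have e : w - (l + (w - z)) = z - l := by ring
  rw [e]
  exact h1

theorem part_closed (hX : IsCone X) (hu : TorusMap X Λ u) (hΛ : Dsc Λ) (R : ℝ) : IsClosed (insert 0 (part X Λ u R)) := by
  refine isClosed_of_closure_subset fun x hx => ?_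
  by_cases hx0 : x = 0
  · exact Or.inl hx0
  right
  have hxX : x ∈ X := by
    have h1 : x ∈ closure (insert 0 X) := closure_mono (Set.insert_subset_insert fun y hy => hy.1) hx
    rw [hX.closed.closure_eq] at h1
    exact h1.resolve_left hx0
  refine ⟨hxX, ?_⟩
  obtain ⟨v, hv, hvu⟩ := hu.loc x hxX
  have h1 : v x ∈ Nb Λ R := by
    rw [mem_Nb hΛ]
    by_contra h2
    push Not at h2
    have h3 : ContinuousAt (fun y => infDist (v y) (Λ : Set ℂ)) x :=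
      ContinuousAt.comp (g := fun z => infDist z (Λ : Set ℂ)) (f := v) (continuous_infDist_pt _).continuousAt hv.continuousAt
    have h4 : ∀ᶠ y in 𝓝 x, R < infDist (v y) (Λ : Set ℂ) := h3.eventually_const_lt h2
    have h5 : ∀ᶠ y in 𝓝 x, y ≠ 0 := continuousAt_id.eventually_ne hx0
    obtain ⟨y, hy, h6, h7, h8⟩ := ((mem_closure_iff_frequently.1 hx).and_eventually (h4.and (h5.and hvu))).exists
    have hy2 : y ∈ part X Λ u R := hy.resolve_left h7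
    have h9 := (mem_Nb hΛ).1 (Nb_add hy2.2 (w := v y) (by
      have := Λ.neg_mem (h8 hy2.1)
      rwa [neg_sub] at this))
    exact absurd h6 (not_lt.2 h9)
  exact Nb_add h1 (hvu.self_of_nhds hxX)

theorem lbase (E : EBase X D Λ Γ u B δ) : LBase X D Λ Γ u B δ where
  cone := E.cone.ocone
  closed := part_closed E.cone E.tor E.lat.dsc
  charts := E.charts
  tor := E.tor
  dsc := E.lat.dsc
  le := E.le
  cof := by
    obtain ⟨R, hR, h⟩ := E.latΓ.cocompact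
    exact ⟨R, hR, fun l _ => h l⟩
  bad := E.bad
  zero := E.zero
  D_sub := E.D_sub
  D_smul := E.D_smul
  D_closed := E.D_closed
  hor := E.hor
  horB := E.horB
  nc := E.nc
  fib := E.fib

/-- all points of `D` have adapted coordinates -/
theorem hor_all (L : LBase X D Λ Γ u B δ) : ∀ x ∈ D, ∃ (b : ℂ) (i : ℕ), 1 ≤ i ∧ HorAt X Λ u D x b i := by
  intro x hx
  by_cases h : ∃ b ∈ B, u x - b ∈ Λ
  · obtain ⟨b, hb, hbx⟩ := h
    obtain ⟨i, hi, h1⟩ := L.horB b hb x hx hbx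
    exact ⟨b, i, hi, h1⟩
  · push Not at h
    exact ⟨u x, 1, le_rfl, L.hor x hx h⟩

theorem RA.per {α : TForm (X \ D) Λ u} (hX : OCone X) (hs : ∀ x ∈ D, ∀ c : ℂ, c ≠ 0 → c • x ∈ D) (hcl : ∀ x ∈ X, x ∉ D → ∀ᶠ y in 𝓝 x, y ∉ D)
    (hper : Per α Γ) (hle : Γ ≤ Λ) {x : EN N} {z ρ l : ℂ} (hl : l ∈ Γ) (h : RA α x z ρ) : RA α x (z + l) ρ := by
  obtain ⟨σ, τ, g, h1, h0, hD, hlf, hg, hge, hρ⟩ := h
  have hY := ocone_sdiff hX hs
  refine ⟨σ, τ, g, h1, h0, hD, ?_, hg, ?_, hρ⟩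
  · filter_upwards [hlf] with p hp
    have h2 := Λ.sub_mem hp (hle hl)
    have e : u (σ p) - (z + p.1) - l = u (σ p) - (z + l + p.1) := by ring
    rwa [e] at h2
  · filter_upwards [hge, hlf, hD, h1.σ_mem.eventually_nhds, h1.σ_an.eventually_analyticAt] with p h2 h3 h4 h5 h6 h7
    have hmX : σ p ∈ X := h5.self_of_nhds
    have hmD : σ p ∉ D := fun h8 => h7 (h4.1 h8)
    have hmem : ∀ᶠ q in 𝓝 p, σ q ∈ X \ D := by
      filter_upwards [h5, h6.continuousAt.eventually (hcl _ hmX hmD)] with q h9 h10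
      exact ⟨h9, h10⟩
    have htA : ∀ A : ℂ × ℂ, Tan (X \ D) (σ p) (fderiv ℂ σ p A) := by
      intro A
      have := tan_param hY h6 hmem A 0
      rwa [zero_smul, add_zero] at this
    rw [← h2 h7]
    show p.2 * α.toFun (z + l + p.1) (σ p) _ _ = p.2 * α.toFun (z + p.1) (σ p) _ _
    have e : z + l + p.1 = z + p.1 + l := by ring
    rw [e, hper (z + p.1) l hl (σ p) ⟨hmX, hmD⟩ h3 _ _ (htA (1, 0)) (htA (0, 1))]

theorem isolated_pts (hu : TorusMap X Λ u) (hΛ : Dsc Λ) (hsub : D ⊆ X) (hX0 : (0 : EN N) ∉ X)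
    (hs : ∀ x ∈ D, ∀ c : ℂ, c ≠ 0 → c • x ∈ D) (hcl : ∀ x ∈ X, x ∉ D → ∀ᶠ y in 𝓝 x, y ∉ D)
    (hh : ∀ x ∈ D, ∃ (b : ℂ) (i : ℕ), 1 ≤ i ∧ HorAt X Λ u D x b i) {x₀ : EN N} (hx₀ : x₀ ∈ X) :
    ∃ ε : ℝ, 0 < ε ∧ ∀ x ∈ D, u x ∈ Λ → dist (pr x) (pr x₀) < ε → pr x = pr x₀ := by
  have hx0 : x₀ ≠ 0 := fun h => hX0 (h ▸ hx₀)
  by_cases hD : x₀ ∈ D
  · obtain ⟨b, i, hi, hb⟩ := hh x₀ hD
    obtain ⟨σ, τ, r, B, h0, hg⟩ := exists_bx_at hb
    have hcov := B.cover hs hsub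
    rw [h0] at hcov
    have hτ0 : τ x₀ = 0 := by
      have h6 := hg.left.self_of_nhds
      rwa [h0] at h6
    have hτa : AnalyticAt ℂ τ x₀ := by
      have h6 := hg.τ_an
      rwa [h0] at h6
    have hτc : ContinuousAt (fun y => (τ y).1 ^ i) x₀ := hτa.continuousAt.fst.pow i
    have hτ00 : (τ x₀).1 ^ i = 0 := by
      rw [hτ0]
      exact zero_pow (by omega)
    have hz : ∀ᶠ y in 𝓝 x₀, b + (τ y).1 ^ i ∈ Λ → (τ y).1 ^ i = 0 := by
      by_cases hbΛ : b ∈ Λ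
      · filter_upwards [dsc_eq hΛ hτc hτ00] with y h1 h2
        apply h1
        have h3 := Λ.sub_mem h2 hbΛ
        rwa [add_sub_cancel_left] at h3
      · have h1 : ContinuousAt (fun y => b + (τ y).1 ^ i) x₀ := continuousAt_const.add hτc
        have h2 : ∀ᶠ y in 𝓝 x₀, b + (τ y).1 ^ i ∈ ((Λ : Set ℂ))ᶜ := by
          apply h1.eventually_mem
          refine (dsc_closed hΛ).isOpen_compl.mem_nhds ?_
          show b + (τ x₀).1 ^ i ∉ (Λ : Set ℂ)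
          rw [hτ00, add_zero]
          exact hbΛ
        filter_upwards [h2] with y h3 h4
        exact absurd h4 h3
    obtain ⟨ε, hε, h1⟩ := near_of_pr hx0 (hz.and hcov)
    refine ⟨ε, hε, fun x hx hux hd => ?_⟩
    have hxX : x ∈ X := hsub hx
    obtain ⟨c, hc, h2, h3⟩ := h1 x (fun h => hX0 (h ▸ hxX)) hd
    obtain ⟨c', s, hc', hsr, h4, h5⟩ := h3 (hs x hx c hc)
    have h6 : b + s ^ i ∈ Λ := by
      have hm := mem_ball_s0 hsr
      have h7 := B.lift _ hm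
      have h8 := hu.smul _ (B.mem _ hm) c' hc'
      rw [← h4] at h8
      have h9 := Λ.add_mem (hu.smul x hxX c hc) hux
      rw [sub_add_cancel] at h9
      have h10 := Λ.sub_mem h9 (Λ.add_mem h8 h7)
      have e : u (c • x) - (u (c • x) - u (σ (s, 0)) + (u (σ (s, 0)) - (b + ((s, 0) : ℂ × ℂ).1 ^ i))) = b + s ^ i := by ring
      rwa [e] at h10
    rw [h5] at h2
    have h7 : s = 0 := by
      have := h2 h6
      exact pow_eq_zero_iff (by omega) |>.1 this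
    rw [← pr_smul x hc, h4, h7, pr_smul _ hc', ← h0]
    rfl
  · obtain ⟨ε, hε, h1⟩ := near_of_pr hx0 (hcl x₀ hx₀ hD)
    refine ⟨ε, hε, fun x hx hux hd => ?_⟩
    obtain ⟨c, hc, h2⟩ := h1 x (fun h => hX0 (h ▸ hsub hx)) hd
    exact absurd (hs x hx c hc) h2

theorem finite_pts (hX : IsCone X) (hu : TorusMap X Λ u) (hΛ : Dsc Λ) (hsub : D ⊆ X)
    (hs : ∀ x ∈ D, ∀ c : ℂ, c ≠ 0 → c • x ∈ D) (hcl : ∀ x ∈ X, x ∉ D → ∀ᶠ y in 𝓝 x, y ∉ D)
    (hh : ∀ x ∈ D, ∃ (b : ℂ) (i : ℕ), 1 ≤ i ∧ HorAt X Λ u D x b i) : {y : MN N | ∃ x ∈ D, u x ∈ Λ ∧ pr x = y}.Finite := by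
  set S : Set (MN N) := {y : MN N | ∃ x ∈ D, u x ∈ Λ ∧ pr x = y} with hS
  have h1 : (S ∩ pr '' X).Finite := by
    refine (isCompact_pr hX).induction_on (p := fun t => (S ∩ t).Finite) (by simp) ?_ ?_ ?_
    · intro s t hst ht
      exact ht.subset (Set.inter_subset_inter_right S hst)
    · intro s t h2 h3
      rw [Set.inter_union_distrib_left]
      exact h2.union h3
    · rintro _ ⟨x₀, hx₀, rfl⟩
      obtain ⟨ε, hε, h2⟩ := isolated_pts hu hΛ hsub hX.zero_notMem hs hcl hh hx₀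
      refine ⟨ball (pr x₀) ε, nhdsWithin_le_nhds (ball_mem_nhds _ hε), ?_⟩
      refine (Set.finite_singleton (pr x₀)).subset ?_
      rintro y ⟨⟨x, hx, hux, rfl⟩, hy⟩
      exact h2 x hx hux hy
  refine h1.subset ?_
  rintro y ⟨x, hx, hux, rfl⟩
  exact ⟨⟨x, hx, hux, rfl⟩, x, hsub hx, rfl⟩

/-- two sections in `D` with the same value at `0` agree -/
theorem sec_D_uniq (hX : IsCone X) (hu : TorusMap X Λ u) (hΛ : Dsc Λ) (hsub : D ⊆ X)
    (hs : ∀ x ∈ D, ∀ c : ℂ, c ≠ 0 → c • x ∈ D) (hh : ∀ x ∈ D, ∃ (b : ℂ) (i : ℕ), 1 ≤ i ∧ HorAt X Λ u D x b i)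
    {F G : ℂ → EN N} (hF : Differentiable ℂ F) (hFD : ∀ z, F z ∈ D) (hFu : ∀ z, u (F z) - z ∈ Λ)
    (hG : Differentiable ℂ G) (hGD : ∀ z, G z ∈ D) (hGu : ∀ z, u (G z) - z ∈ Λ) (h0 : pr (F 0) = pr (G 0)) (z : ℂ) : pr (F z) = pr (G z) := by
  have hne : ∀ x ∈ D, x ≠ 0 := fun x hx h => hX.zero_notMem (h ▸ hsub hx)
  obtain ⟨c₀, hc₀, h1⟩ := (pr_eq_iff (hne _ (hFD 0)) (hne _ (hGD 0))).1 h0
  obtain ⟨σ, τ, r, B, h2, -⟩ := sec_chart hu hΛ hsub hs hh hG hGD hGu 0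
  have h3 := sec_near hu hΛ hsub hs hG hGD hGu B h2
  have h4 := sec_near hu hΛ hsub hs (F := fun z => c₀⁻¹ • F z) (hF.const_smul c₀⁻¹) (fun z => hs _ (hFD z) _ (inv_ne_zero hc₀)) (fun z => by
    have h5 := Λ.add_mem (hu.smul _ (hsub (hFD z)) c₀⁻¹ (inv_ne_zero hc₀)) (hFu z)
    have e : u (c₀⁻¹ • F z) - u (F z) + (u (F z) - z) = u (c₀⁻¹ • F z) - z := by ring
    rwa [e] at h5) B (by rw [h2, h1, smul_smul, inv_mul_cancel₀ hc₀, one_smul])
  refine sec_uniq hX (z₀ := 0) ⟨hF, fun z => hsub (hFD z), hFu⟩ ⟨hG, fun z => hsub (hGD z), hGu⟩ ?_ z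
  filter_upwards [h3, h4] with w h5 h6
  obtain ⟨-, c, hc, h7⟩ := h5
  obtain ⟨-, c', hc', h8⟩ := h6
  rw [h7, pr_smul _ hc, ← pr_smul (F w) (inv_ne_zero hc₀), h8, pr_smul _ hc']

theorem resBd (E : EBase X D Λ Γ u B δ) {α : TForm (X \ D) Λ u} (hlog : LogP α) (hper : Per α Γ) : ResBd α := by
  have hX := E.cone.ocone
  have hΛ := E.lat.dsc
  have hh := hor_all (lbase E)
  intro F hF hFD hFu
  obtain ⟨ρ, hρ, hRA⟩ := res_fun hX E.tor hΛ E.D_sub E.D_smul E.D_closed hh hlog hF hFD hFu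
  have hne : ∀ x ∈ D, x ≠ 0 := fun x hx h => E.cone.zero_notMem (h ▸ E.D_sub hx)
  -- the periods
  have hP1 : ∀ l ∈ Γ, (∀ z, pr (F (z + l)) = pr (F z)) → ∀ z, ρ (z + l) = ρ z := by
    intro l hl h1 z
    obtain ⟨c, hc, h2⟩ := (pr_eq_iff (hne _ (hFD _)) (hne _ (hFD _))).1 (h1 z)
    have h3 := ((hRA z).per hX E.D_smul E.D_closed hper E.le hl).smul hX E.tor E.D_smul E.D_closed hc
    rw [← h2] at h3
    exact RA.unique hX E.tor hΛ E.D_smul E.D_closed (hRA (z + l)) h3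
  have hfin : ((fun l : ℂ => pr (F l)) '' (Γ : Set ℂ)).Finite := by
    refine (finite_pts E.cone E.tor hΛ E.D_sub E.D_smul E.D_closed hh).subset ?_
    rintro _ ⟨l, hl, rfl⟩
    refine ⟨F l, hFD l, ?_, rfl⟩
    have h1 := Λ.add_mem (hFu l) (E.le hl)
    rwa [sub_add_cancel] at h1
  have hrep : ∀ y ∈ (fun l : ℂ => pr (F l)) '' (Γ : Set ℂ), ∃ l ∈ Γ, pr (F l) = y := fun y hy => hy
  choose! φ hφ using hrep
  obtain ⟨M, hM⟩ : ∃ M : ℝ, ∀ y ∈ (fun l : ℂ => pr (F l)) '' (Γ : Set ℂ), ‖φ y‖ ≤ M := by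
    obtain ⟨M, hM⟩ := (hfin.image fun y => ‖φ y‖).bddAbove
    exact ⟨M, fun y hy => hM ⟨y, hy, rfl⟩⟩
  obtain ⟨R, hR, hcc⟩ := E.latΓ.cocompact
  obtain ⟨C, hC⟩ : ∃ C : ℝ, ∀ z ∈ closedBall (0 : ℂ) (R + M), ‖ρ z‖ ≤ C := by
    have h1 := (isCompact_closedBall (0 : ℂ) (R + M)).exists_bound_of_continuousOn hρ.continuous.continuousOn
    exact h1
  have hbd : ∀ z, ‖ρ z‖ ≤ C := by
    intro z
    obtain ⟨l, hl, hd⟩ := hcc z
    have hmem : pr (F l) ∈ (fun l : ℂ => pr (F l)) '' (Γ : Set ℂ) := ⟨l, hl, rfl⟩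
    obtain ⟨h1, h2⟩ := hφ _ hmem
    set l' : ℂ := φ (pr (F l)) with hl'
    have h3 : ∀ w, pr (F (w + l)) = pr (F (w + l')) := by
      intro w
      have e1 : ∀ {m : ℂ}, m ∈ Γ → Differentiable ℂ (fun z => F (z + m)) ∧ (∀ z, F (z + m) ∈ D) ∧ ∀ z, u (F (z + m)) - z ∈ Λ := by
        intro m hm
        have := sec_shift hF hFD hFu (E.le (Γ.neg_mem hm))
        simpa only [sub_neg_eq_add] using this
      obtain ⟨a1, a2, a3⟩ := e1 hl
      obtain ⟨b1, b2, b3⟩ := e1 h1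
      exact sec_D_uniq E.cone E.tor hΛ E.D_sub E.D_smul hh a1 a2 a3 b1 b2 b3 (by rw [zero_add, zero_add, h2]) w
    have h4 : ∀ w, pr (F (w + (l - l'))) = pr (F w) := by
      intro w
      have h5 := h3 (w - l')
      rw [sub_add_cancel] at h5
      have e : w - l' + l = w + (l - l') := by ring
      rwa [e] at h5
    have h5 := hP1 (l - l') (Γ.sub_mem hl h1) h4 (z - (l - l'))
    rw [sub_add_cancel] at h5
    rw [h5]
    apply hC
    rw [mem_closedBall_zero_iff]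
    have e : z - (l - l') = (z - l) + l' := by ring
    rw [e]
    exact (norm_add_le _ _).trans (add_le_add hd (hM _ hmem))
  refine ⟨C, ?_⟩
  intro z₀ σ τ h1 h2 h3 h4
  obtain ⟨g, hg, hge⟩ := hlog σ τ (fun p => z₀ + p.1) h1 h3 (analyticAt_const.add analyticAt_fst) h4
  refine ⟨g, hg, ?_, hge⟩
  have h5 : RA α (F z₀) z₀ (g 0) := ⟨σ, τ, g, h1, h2, h3, h4, hg, hge, rfl⟩
  rw [RA.unique hX E.tor hΛ E.D_smul E.D_closed h5 (hRA z₀)]
  exact hbd z₀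

end Pool.Agent.H86.LU

end

section

/-!
# LU Fin: `exists_P`
-/

set_option autoImplicit false

open Topology Filter Metric

namespace Pool.Agent.H86.LU

attribute [-instance] ProperSMul.toContinuousSMul

open Pool.Agent.H36.BP (EN fs wd IsGermChart)
open Pool.Agent.H14.PP (IsCone Chart Tan CurveAt)
open Pool.Agent.H62.EF (Lat MN pr TorusMap Sec Charts DU det2)
open Pool.Agent.H62.EL (TForm Per VanZero Thin tc IsNC)
open Pool.Agent.H18.LU (OCone Dsc LogP HorAt ResBd LBase EBase LData)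

variable {N : ℕ} {X D P : Set (EN N)} {Λ Γ : AddSubgroup ℂ} {u : EN N → ℂ} {B : Set ℂ} {δ : ℝ}

/-- the proof of `exists_chart_of_germ` (`H62/EF/ChEx.lean`) for open cones -/
theorem exists_chartO (hX : OCone X) {σ : ℂ × ℂ → EN N} {τ : EN N → ℂ × ℂ} (h : IsGermChart X σ τ) :
    ∃ χ : Chart X, σ 0 ∈ χ.U ∧ χ.q (σ 0) = 0 ∧ χ.σ 0 = σ 0 := by
  have hσ0 : σ 0 ≠ 0 := by
    intro h0
    have h1 := h.σ_mem.self_of_nhds
    rw [h0] at h1
    exact hX.zero_notMem h1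
  -- the linear form
  obtain ⟨ℓ, hℓ⟩ : ∃ ℓ : EN N →L[ℂ] ℂ, ℓ (σ 0) = 1 := by
    have hne : inner ℂ (σ 0) (σ 0) ≠ (0 : ℂ) := inner_self_ne_zero.mpr hσ0
    refine ⟨(inner ℂ (σ 0) (σ 0) : ℂ)⁻¹ • innerSL ℂ (σ 0), ?_⟩
    simp only [_root_.smul_apply, innerSL_apply_apply, smul_eq_mul]
    exact inv_mul_cancel₀ hne
  -- the normalised parametrisation
  have hℓσ : ContinuousAt (fun p => ℓ (σ p)) 0 := ℓ.continuous.continuousAt.comp h.σ_an.continuousAt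
  have hℓne : ∀ᶠ p in 𝓝 (0 : ℂ × ℂ), ℓ (σ p) ≠ 0 := hℓσ.eventually_ne (by rw [hℓ]; exact one_ne_zero)
  have hinvσ : ∀ᶠ p in 𝓝 (0 : ℂ × ℂ), τ ((ℓ (σ p))⁻¹ • σ p) = τ (σ p) := by
    have hc : Tendsto (fun p => (σ p, (ℓ (σ p))⁻¹)) (𝓝 (0 : ℂ × ℂ)) (𝓝 (σ 0, (1 : ℂ))) := by
      have h1 : Tendsto (fun p => (ℓ (σ p))⁻¹) (𝓝 (0 : ℂ × ℂ)) (𝓝 (ℓ (σ 0))⁻¹) := hℓσ.inv₀ (by rw [hℓ]; exact one_ne_zero)
      rw [hℓ, inv_one] at h1
      exact h.σ_an.continuousAt.prodMk_nhds h1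
    exact hc.eventually h.inv
  -- the neighbourhood W₀
  have hW : ∀ᶠ y in 𝓝 (σ 0), AnalyticAt ℂ τ y ∧ (y ∈ X → ∃ c : ℂ, c ≠ 0 ∧ y = c • σ (τ y)) := h.τ_an.eventually_analyticAt.and h.right
  obtain ⟨W₀, hW₀s, hW₀o, hW₀m⟩ := _root_.eventually_nhds_iff.mp hW
  have hσ₁ : Tendsto (fun p => (ℓ (σ p))⁻¹ • σ p) (𝓝 (0 : ℂ × ℂ)) (𝓝 (σ 0)) := by
    have h1 : Tendsto (fun p => (ℓ (σ p))⁻¹) (𝓝 (0 : ℂ × ℂ)) (𝓝 (ℓ (σ 0))⁻¹) := hℓσ.inv₀ (by rw [hℓ]; exact one_ne_zero)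
    have h2 := h1.smul h.σ_an.continuousAt
    rwa [hℓ, inv_one, one_smul] at h2
  have hσ₁W : ∀ᶠ p in 𝓝 (0 : ℂ × ℂ), (ℓ (σ p))⁻¹ • σ p ∈ W₀ := hσ₁.eventually (hW₀o.mem_nhds hW₀m)
  obtain ⟨R, hR, hall⟩ := Metric.eventually_nhds_iff_ball.mp
    (((((h.σ_an.eventually_analyticAt.and h.σ_mem).and h.left).and hℓne).and hinvσ).and hσ₁W)
  set r : ℝ := R / 2 with hr
  have hr0 : 0 < r := by rw [hr]; positivity
  have hrC : (r : ℂ) ≠ 0 := by exact_mod_cast hr0.ne'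
  have hball : ∀ p ∈ ball (0 : ℂ × ℂ) 2, (r : ℂ) • p ∈ ball (0 : ℂ × ℂ) R := by
    intro p hp
    rw [mem_ball_zero_iff] at hp ⊢
    rw [norm_smul, Complex.norm_real, Real.norm_of_nonneg hr0.le, hr]
    nlinarith
  have hτσ : ∀ p ∈ ball (0 : ℂ × ℂ) R, τ ((ℓ (σ p))⁻¹ • σ p) = p := by
    intro p hp
    rw [(hall p hp).1.2, (hall p hp).1.1.1.2]
  set U : Set (EN N) := {x | ℓ x ≠ 0 ∧ (ℓ x)⁻¹ • x ∈ W₀ ∧ ‖τ ((ℓ x)⁻¹ • x)‖ < R} with hU
  have hmaps : ∀ x : EN N, ℓ x ≠ 0 → ∀ c : ℂ, c ≠ 0 → (ℓ (c • x))⁻¹ • (c • x) = (ℓ x)⁻¹ • x := by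
    intro x hx c hc
    rw [map_smul, smul_eq_mul, smul_smul, mul_inv, mul_comm c⁻¹, mul_assoc, inv_mul_cancel₀ hc, mul_one]
  have han1 : ∀ x : EN N, ℓ x ≠ 0 → AnalyticAt ℂ (fun y : EN N => (ℓ y)⁻¹ • y) x := by
    intro x hx
    exact ((ℓ.analyticAt x).inv hx).smul analyticAt_id
  have hanq : ∀ x ∈ U, AnalyticAt ℂ (fun y : EN N => τ ((ℓ y)⁻¹ • y)) x := by
    intro x hx
    exact AnalyticAt.fun_comp (hW₀s _ hx.2.1).1 (han1 x hx.1)
  have hUopen : IsOpen U := by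
    rw [isOpen_iff_mem_nhds]
    intro x hx
    have h1 : ∀ᶠ y in 𝓝 x, ℓ y ≠ 0 := ℓ.continuous.continuousAt.eventually_ne hx.1
    have h2 : ∀ᶠ y in 𝓝 x, (ℓ y)⁻¹ • y ∈ W₀ := (han1 x hx.1).continuousAt.eventually (hW₀o.mem_nhds hx.2.1)
    have h3 : ∀ᶠ y in 𝓝 x, ‖τ ((ℓ y)⁻¹ • y)‖ < R := (hanq x hx).continuousAt.norm.eventually_lt_const hx.2.2
    filter_upwards [h1, h2, h3] with y h4 h5 h6
    exact ⟨h4, h5, h6⟩
  let χ : Chart X :=
    { σ := fun p => (ℓ (σ ((r : ℂ) • p)))⁻¹ • σ ((r : ℂ) • p)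
      U := U
      q := fun x => (r : ℂ)⁻¹ • τ ((ℓ x)⁻¹ • x)
      isOpen_U := hUopen
      smul_U := by
        rintro x ⟨h1, h2, h3⟩ c hc
        refine ⟨?_, ?_, ?_⟩
        · rw [map_smul, smul_eq_mul]
          exact mul_ne_zero hc h1
        · rw [hmaps x h1 c hc]; exact h2
        · rw [hmaps x h1 c hc]; exact h3
      σ_an := by
        intro p hp
        have h1 := (hall _ (hball p hp)).1.1.1.1.1
        have h2 : AnalyticAt ℂ (fun p : ℂ × ℂ => σ ((r : ℂ) • p)) p :=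
          AnalyticAt.fun_comp h1 (analyticAt_const.fun_smul analyticAt_id)
        have h3 : AnalyticAt ℂ (fun p : ℂ × ℂ => ℓ (σ ((r : ℂ) • p))) p := (ℓ.analyticAt _).fun_comp h2
        exact (h3.inv (hall _ (hball p hp)).1.1.2).smul h2
      q_an := by
        intro x hx
        exact analyticAt_const.fun_smul (hanq x hx)
      q_smul := by
        rintro x ⟨h1, h2, h3⟩ c hc
        show (r : ℂ)⁻¹ • τ ((ℓ (c • x))⁻¹ • (c • x)) = _
        rw [hmaps x h1 c hc]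
      σ_mem := by
        intro p hp
        have hb := hball p hp
        have hh := hall _ hb
        have hne := hh.1.1.2
        have h1 : ℓ ((ℓ (σ ((r : ℂ) • p)))⁻¹ • σ ((r : ℂ) • p)) = 1 := by
          rw [map_smul, smul_eq_mul, inv_mul_cancel₀ hne]
        have h2 : τ ((ℓ (σ ((r : ℂ) • p)))⁻¹ • σ ((r : ℂ) • p)) = (r : ℂ) • p := hτσ _ hb
        refine ⟨hX.smul_mem _ hh.1.1.1.1.2 _ (inv_ne_zero hne), ⟨?_, ?_, ?_⟩, ?_⟩
        · rw [h1]; exact one_ne_zero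
        · rw [h1, inv_one, one_smul]; exact hh.2
        · rw [h1, inv_one, one_smul, h2]
          exact mem_ball_zero_iff.mp hb
        · show (r : ℂ)⁻¹ • τ ((ℓ ((ℓ (σ ((r : ℂ) • p)))⁻¹ • σ ((r : ℂ) • p)))⁻¹ • ((ℓ (σ ((r : ℂ) • p)))⁻¹ • σ ((r : ℂ) • p))) = p
          rw [h1, inv_one, one_smul, h2, smul_smul, inv_mul_cancel₀ hrC, one_smul]
      surj := by
        rintro x hxX ⟨h1, h2, h3⟩
        have hyX : (ℓ x)⁻¹ • x ∈ X := hX.smul_mem _ hxX _ (inv_ne_zero h1)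
        obtain ⟨c, hc0, hc⟩ := (hW₀s _ h2).2 hyX
        have hτb : τ ((ℓ x)⁻¹ • x) ∈ ball (0 : ℂ × ℂ) R := mem_ball_zero_iff.mpr h3
        have hrq : (r : ℂ) • ((r : ℂ)⁻¹ • τ ((ℓ x)⁻¹ • x)) = τ ((ℓ x)⁻¹ • x) := by
          rw [smul_smul, mul_inv_cancel₀ hrC, one_smul]
        refine ⟨?_, ?_⟩
        · show (r : ℂ)⁻¹ • τ ((ℓ x)⁻¹ • x) ∈ ball (0 : ℂ × ℂ) 2
          rw [mem_ball_zero_iff, norm_smul, norm_inv, Complex.norm_real, Real.norm_of_nonneg hr0.le, inv_mul_lt_iff₀ hr0, hr]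
          linarith
        · refine ⟨ℓ x * c * ℓ (σ (τ ((ℓ x)⁻¹ • x))), ?_, ?_⟩
          · exact mul_ne_zero (mul_ne_zero h1 hc0) (hall _ hτb).1.1.2
          · show x = (ℓ x * c * ℓ (σ (τ ((ℓ x)⁻¹ • x)))) •
              ((ℓ (σ ((r : ℂ) • ((r : ℂ)⁻¹ • τ ((ℓ x)⁻¹ • x)))))⁻¹ • σ ((r : ℂ) • ((r : ℂ)⁻¹ • τ ((ℓ x)⁻¹ • x))))
            rw [hrq, smul_smul, mul_assoc, mul_inv_cancel₀ (hall _ hτb).1.1.2, mul_one, mul_smul, ← hc, smul_smul, mul_inv_cancel₀ h1, one_smul] }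
  have h0b : (0 : ℂ × ℂ) ∈ ball (0 : ℂ × ℂ) R := mem_ball_self hR
  have hτ0 : τ (σ 0) = 0 := (hall 0 h0b).1.1.1.2
  refine ⟨χ, ⟨?_, ?_, ?_⟩, ?_, ?_⟩
  · rw [hℓ]; exact one_ne_zero
  · rw [hℓ, inv_one, one_smul]; exact hW₀m
  · rw [hℓ, inv_one, one_smul, hτ0, norm_zero]; exact hR
  · show (r : ℂ)⁻¹ • τ ((ℓ (σ 0))⁻¹ • σ 0) = 0
    rw [hℓ, inv_one, one_smul, hτ0, smul_zero]
  · show (ℓ (σ ((r : ℂ) • (0 : ℂ × ℂ))))⁻¹ • σ ((r : ℂ) • (0 : ℂ × ℂ)) = σ 0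
    rw [smul_zero, hℓ, inv_one, one_smul]

theorem germ_sdiff {σ : ℂ × ℂ → EN N} {τ : EN N → ℂ × ℂ} (h : IsGermChart X σ τ) (hcl : ∀ x ∈ X, x ∉ D → ∀ᶠ y in 𝓝 x, y ∉ D)
    (h0 : σ 0 ∉ D) : IsGermChart (X \ D) σ τ := by
  have h1 := hcl _ h.σ_mem.self_of_nhds h0
  refine ⟨h.σ_an, ?_, h.τ_an, h.left, ?_, h.inv⟩
  · filter_upwards [h.σ_mem, h.σ_an.continuousAt.eventually h1] with p h2 h3
    exact ⟨h2, h3⟩
  · filter_upwards [h.right] with y h2 h3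
    exact h2 h3.1

/-- a chart of `X \ P` is a germ chart of `X` at each of its points -/
theorem chart_germ (hcl : ∀ x ∈ X, x ∉ P → ∀ᶠ y in 𝓝 x, y ∉ P) (χ : Chart (X \ P)) {p : ℂ × ℂ} (hp : p ∈ ball (0 : ℂ × ℂ) 2) :
    IsGermChart X (fun q => χ.σ (p + q)) (fun y => χ.q y - p) := by
  have hm := χ.σ_mem p hp
  have ht : Tendsto (fun q : ℂ × ℂ => p + q) (𝓝 0) (𝓝 p) := by
    have : ContinuousAt (fun q : ℂ × ℂ => p + q) 0 := by fun_prop
    have h7 := this.tendsto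
    rwa [add_zero] at h7
  have hb : ∀ᶠ q in 𝓝 (0 : ℂ × ℂ), p + q ∈ ball (0 : ℂ × ℂ) 2 := ht.eventually (isOpen_ball.mem_nhds hp)
  have hU : ∀ᶠ y in 𝓝 (χ.σ p), y ∈ χ.U := χ.isOpen_U.mem_nhds hm.2.1
  refine ⟨?_, ?_, ?_, ?_, ?_, ?_⟩
  · have h8 : AnalyticAt ℂ (fun q : ℂ × ℂ => p + q) 0 := by fun_prop
    exact AnalyticAt.comp (g := χ.σ) (f := fun q : ℂ × ℂ => p + q) (by rw [add_zero]; exact χ.σ_an p hp) h8
  · filter_upwards [hb] with q hq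
    exact (χ.σ_mem _ hq).1.1
  · rw [add_zero]
    exact (χ.q_an _ hm.2.1).sub analyticAt_const
  · filter_upwards [hb] with q hq
    rw [(χ.σ_mem _ hq).2.2, add_sub_cancel_left]
  · rw [add_zero]
    filter_upwards [hU, hcl _ hm.1.1 hm.1.2] with y h1 h2 h3
    obtain ⟨-, c, hc, h4⟩ := χ.surj y ⟨h3, h2⟩ h1
    refine ⟨c, hc, ?_⟩
    rw [add_sub_cancel]
    exact h4
  · rw [add_zero]
    have h1 : Tendsto (fun z : EN N × ℂ => z.1) (𝓝 (χ.σ p, (1 : ℂ))) (𝓝 (χ.σ p)) := continuousAt_fst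
    have h2 : ∀ᶠ z in 𝓝 (χ.σ p, (1 : ℂ)), z.2 ≠ 0 := continuousAt_snd.eventually_ne one_ne_zero
    filter_upwards [h1.eventually hU, h2] with z h3 h4
    rw [χ.q_smul _ h3 _ h4]

theorem exists_P (E : LBase X D Λ Γ u B δ) (α : TForm (X \ D) Λ u) (hlog : LogP α) (hres : ResBd α) (hper : Per α Γ) (hvan : VanZero α)
    (hthin : Thin α) : ∃ P : Set (EN N), LData X D P Λ Γ u B δ ∧ ∃ α' : TForm (X \ P) Λ u,
      (∀ z, ∀ x ∈ X, x ∉ D → ∀ v w, α'.toFun z x v w = α.toFun z x v w) ∧ LogP α' ∧ Per α' Γ ∧ VanZero α' ∧ Thin α' := by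
  have hX := E.cone
  have hu := E.tor
  have hΛ := E.dsc
  have hsub := E.D_sub
  have hs := E.D_smul
  have hcl := E.D_closed
  have hh := hor_all E
  have hh' : ∀ x ∈ D, ∃ (b : ℂ) (i : ℕ), HorAt X Λ u D x b i := fun x hx => by
    obtain ⟨b, i, -, h⟩ := hh x hx
    exact ⟨b, i, h⟩
  set P : Set (EN N) := D \ QQ α with hP
  have hPsub : P ⊆ D := fun x hx => hx.1
  have hPs : ∀ x ∈ P, ∀ c : ℂ, c ≠ 0 → c • x ∈ P := by
    intro x hx c hc
    refine ⟨hs x hx.1 c hc, fun h => hx.2 ?_⟩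
    have h1 := QQ_smul hX hu hsub hs hcl h (inv_ne_zero hc)
    rwa [smul_smul, inv_mul_cancel₀ hc, one_smul] at h1
  have hPcl : ∀ x ∈ X, x ∉ P → ∀ᶠ y in 𝓝 x, y ∉ P := by
    intro x hx hxP
    by_cases hxD : x ∈ D
    · have hxQ : x ∈ QQ α := by
        by_contra h
        exact hxP ⟨hxD, h⟩
      filter_upwards [QQ_open hX hu hΛ hsub hs hcl hh' hlog hxQ] with y h1 h2
      exact h2.2 (h1 h2.1)
    · filter_upwards [hcl x hx hxD] with y h1 h2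
      exact h1 h2.1
  have hPop : ∀ x ∈ P, ∀ᶠ y in 𝓝 x, y ∈ D → y ∈ P := by
    intro x hx
    filter_upwards [QQ_closed hX hu hΛ hsub hs hcl hh' hlog hx.1 hx.2] with y h1 h2
    exact ⟨h2, h1 h2⟩
  have hQ : ∀ x ∈ D, x ∉ P → x ∈ QQ α := by
    intro x hx hxP
    by_contra h
    exact hxP ⟨hx, h⟩
  refine ⟨P, ?_, ?_⟩
  · refine ⟨E.toLFib, hPsub, hPs, hPcl, hPop, ?_, ?_, ?_⟩
    · intro b hb x hx hbx
      obtain ⟨i, hi, σ, τ, h1, h2, h3, h4⟩ := E.horB b hb x hx.1 hbx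
      refine ⟨i, hi, σ, τ, h1, h2, h3, ?_⟩
      have hσc : Tendsto σ (𝓝 0) (𝓝 x) := by
        have := h1.σ_an.continuousAt.tendsto
        rwa [h2] at this
      filter_upwards [h4, hσc.eventually (hPop x hx)] with p h5 h6
      rw [← h5]
      exact ⟨fun h => h.1, h6⟩
    · intro b hb x hx hxP hbx
      by_cases hxD : x ∈ D
      · obtain ⟨i, hi, σ, τ, h1, h2, h3, h4⟩ := E.horB b hb x hxD hbx
        refine ⟨σ, τ, i, 0, h1, h2, by omega, ?_⟩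
        filter_upwards [h3] with p h5
        rw [pow_zero, mul_one]
        exact h5
      · exact E.nc b hb x hx hxD hbx
    · intro F hF hFP hFu
      exact (hFP 0).2 (sec_QQ hX hu hΛ hsub hs hcl hh hlog hres hvan hF (fun z => (hFP z).1) hFu)
  -- the extension of the form
  have hext : ∀ x ∈ D, x ∉ P → ∃ (σ : ℂ × ℂ → EN N) (τ : EN N → ℂ × ℂ) (υ : ℂ × ℂ → ℂ), IsGermChart X σ τ ∧ σ 0 = x ∧ AnalyticAt ℂ υ 0 ∧
      (∀ᶠ p in 𝓝 (0 : ℂ × ℂ), u (σ p) - υ p ∈ Λ) ∧ (∀ᶠ p in 𝓝 (0 : ℂ × ℂ), ∃ᶠ q in 𝓝 p, σ q ∉ D) ∧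
      ∀ l ∈ Λ, ∃ g : ℂ × ℂ → ℂ, AnalyticAt ℂ g 0 ∧ ∀ᶠ p in 𝓝 (0 : ℂ × ℂ), σ p ∉ D →
        α.toFun (υ p + l) (σ p) (fderiv ℂ σ p (1, 0)) (fderiv ℂ σ p (0, 1)) = g p := by
    intro x hxD hxP
    have hxQ := hQ x hxD hxP
    obtain ⟨b, i, hb⟩ := hh' x hxD
    obtain ⟨σ, τ, r, Bx, h0, hg⟩ := exists_bx_at hb
    have hball : ∀ᶠ p in 𝓝 (0 : ℂ × ℂ), p ∈ ball (0 : ℂ × ℂ) r := isOpen_ball.mem_nhds (mem_ball_self Bx.pos)
    refine ⟨σ, τ, fun p => b + p.1 ^ i, hg, h0, Bx.υ_an 0 (mem_ball_self Bx.pos), hball.mono Bx.lift, ?_, ?_⟩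
    · filter_upwards [hball] with p hp
      have h1 : ∃ᶠ q in 𝓝 p, q.2 ≠ 0 := by
        have h2 : Tendsto (fun t : ℂ => (p.1, p.2 + t)) (𝓝[≠] 0) (𝓝 p) := by
          have h3 : ContinuousAt (fun t : ℂ => (p.1, p.2 + t)) 0 := by fun_prop
          have h4 := h3.tendsto
          rw [add_zero] at h4
          exact h4.mono_left nhdsWithin_le_nhds
        refine h2.frequently ?_
        have h3 : ∀ᶠ t in 𝓝[≠] (0 : ℂ), p.2 + t ≠ 0 := by
          by_cases hp2 : p.2 = 0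
          · filter_upwards [self_mem_nhdsWithin] with t ht
            rw [hp2, zero_add]
            exact ht
          · have h4 : ContinuousAt (fun t : ℂ => p.2 + t) 0 := by fun_prop
            exact nhdsWithin_le_nhds (h4.eventually_ne (by rw [add_zero]; exact hp2))
        exact h3.frequently
      refine (h1.and_eventually (isOpen_ball.mem_nhds hp)).mono ?_
      rintro q ⟨h2, h3⟩ h4
      exact h2 ((Bx.D_iff q h3).1 h4)
    · intro l hl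
      obtain ⟨G, hGa, hG⟩ := Bx.num hcl hlog hl
      have h1 := hxQ.2 (b + (0 : ℂ × ℂ).1 ^ i + l) (by
        have h3 := Λ.sub_mem (Bx.lift 0 (mem_ball_self Bx.pos)) hl
        rw [h0] at h3
        have e : u x - (b + (0 : ℂ × ℂ).1 ^ i) - l = u x - (b + (0 : ℂ × ℂ).1 ^ i + l) := by ring
        rwa [e] at h3)
      have h2 := Bx.zero_of_exd hX hΛ hl hGa hG (mem_ball_self Bx.pos) rfl (by rw [h0]; exact h1)
      exact coef_of_num_zero (α := α) (υ := fun p => b + p.1 ^ i + l) (hball.mono Bx.D_iff) (hGa 0 (mem_ball_self Bx.pos)) (hball.mono hG) h2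
  obtain ⟨α', hα'⟩ := tform_extend hX E.charts hΛ hu hPsub hsub hs hPs hcl hPcl α hext
  refine ⟨α', hα', ?_, ?_, ?_, ?_⟩
  · -- logarithmic poles
    intro σ τ υ h1 h2 h3 h4
    have hx : σ 0 ∈ P := h2.self_of_nhds.2 rfl
    have hD : ∀ᶠ p in 𝓝 (0 : ℂ × ℂ), σ p ∈ D ↔ p.2 = 0 := by
      filter_upwards [h2, h1.σ_an.continuousAt.eventually (hPop _ hx)] with p h5 h6
      rw [← h5]
      exact ⟨h6, fun h => h.1⟩
    obtain ⟨g, hg, hge⟩ := hlog σ τ υ h1 hD h3 h4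
    refine ⟨g, hg, ?_⟩
    filter_upwards [hge, hD, h1.σ_mem] with p h5 h6 h7 h8
    rw [hα' _ _ h7 (fun h9 => h8 (h6.1 h9))]
    exact h5 h8
  · -- periods
    rintro z l hl x ⟨hxX, hxP⟩ hz v w hv hw
    have hv1 : Tan X x v := tan_mono (fun _ h => h.1) hv
    have hw1 : Tan X x w := tan_mono (fun _ h => h.1) hw
    by_cases hxD : x ∈ D
    · obtain ⟨σ, τ, υ, h1, h2, h3, h4, h5, -⟩ := hext x hxD hxP
      have hYP := ocone_sdiff hX hPs
      have hYD := ocone_sdiff hX hs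
      have hτ0 : τ x = 0 := by rw [← h2]; exact h1.left.self_of_nhds
      have hm : z - υ 0 ∈ Λ := by
        have h6 := h4.self_of_nhds
        rw [h2] at h6
        have h7 := Λ.sub_mem h6 hz
        have e : u x - υ 0 - (u x - z) = z - υ 0 := by ring
        rwa [e] at h7
      have hlf : ∀ m ∈ Λ, ∀ᶠ p in 𝓝 (0 : ℂ × ℂ), u (σ p) - (υ p + m) ∈ Λ := by
        intro m hm
        filter_upwards [h4] with p hp
        have h7 := Λ.sub_mem hp hm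
        have e : u (σ p) - υ p - m = u (σ p) - (υ p + m) := by ring
        rwa [e] at h7
      have hσP : ∀ᶠ p in 𝓝 (0 : ℂ × ℂ), σ p ∈ X \ P := by
        have h6 := h1.σ_an.continuousAt.eventually (hPcl _ (by rw [h2]; exact hxX) (by rw [h2]; exact hxP))
        filter_upwards [h1.σ_mem, h6] with p h7 h8
        exact ⟨h7, h8⟩
      have hcont : ∀ m ∈ Λ, ContinuousAt (cf α' σ (fun p => υ p + m)) 0 := by
        intro m hm
        have h6 := α'.analytic σ (fun p => υ p + m) 0 h1.σ_an (h3.add analyticAt_const) (hσP.and (hlf m hm))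
        exact h6.continuousAt
      have hform : ∀ m ∈ Λ, α'.toFun (υ 0 + m) x v w = cf α' σ (fun p => υ p + m) 0 * det2 (fderiv ℂ τ x v) (fderiv ℂ τ x w) := by
        intro m hm
        have h6 := (germ_form hX hu hPs hPcl α' h1 (hlf m hm)).self_of_nhds (by rw [h2]; exact hxX) (by rw [h2]; exact hxP)
        rw [h2] at h6
        have h7 := h6.2 v w hv1 hw1
        rw [hτ0] at h7
        exact h7
      have hml : z - υ 0 + l ∈ Λ := Λ.add_mem hm (E.le hl)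
      have e1 : z = υ 0 + (z - υ 0) := by ring
      have e2 : z + l = υ 0 + (z - υ 0 + l) := by ring
      have h6 : cf α' σ (fun p => υ p + (z - υ 0 + l)) 0 = cf α' σ (fun p => υ p + (z - υ 0)) 0 := by
        by_contra hne
        have h7 := ((hcont _ hml).sub (hcont _ hm)).eventually_ne (sub_ne_zero.2 hne)
        have hf : ∃ᶠ q in 𝓝 (0 : ℂ × ℂ), σ q ∉ D := h5.self_of_nhds
        obtain ⟨q, hq1, hq2, hq3, hq4, hq5⟩ := (hf.and_eventually (h7.and ((hlf _ hm).and (h1.σ_mem.eventually_nhds.and h1.σ_an.eventually_analyticAt)))).exists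
        apply hq2
        have hmX : σ q ∈ X := hq4.self_of_nhds
        have hmem : ∀ᶠ q in 𝓝 q, σ q ∈ X \ D := by
          filter_upwards [hq4, hq5.continuousAt.eventually (hcl _ hmX hq1)] with q h9 h10
          exact ⟨h9, h10⟩
        have htA : ∀ A : ℂ × ℂ, Tan (X \ D) (σ q) (fderiv ℂ σ q A) := by
          intro A
          have := tan_param hYD hq5 hmem A 0
          rwa [zero_smul, add_zero] at this
        show α'.toFun (υ q + (z - υ 0 + l)) (σ q) _ _ - α'.toFun (υ q + (z - υ 0)) (σ q) _ _ = 0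
        rw [hα' _ _ hmX hq1, hα' _ _ hmX hq1]
        have e3 : υ q + (z - υ 0 + l) = υ q + (z - υ 0) + l := by ring
        rw [e3, hper _ l hl (σ q) ⟨hmX, hq1⟩ hq3 _ _ (htA (1, 0)) (htA (0, 1)), sub_self]
      rw [e2, hform _ hml, h6]
      conv_rhs => rw [e1]
      rw [hform _ hm]
    · rw [hα' _ _ hxX hxD, hα' _ _ hxX hxD]
      exact hper z l hl x ⟨hxX, hxD⟩ hz v w (tan_sdiff hcl hxX hxD hv1) (tan_sdiff hcl hxX hxD hw1)
  · -- the fibre over `0`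
    rintro x ⟨hxX, hxP⟩ hz v w hv hw
    have hv1 : Tan X x v := tan_mono (fun _ h => h.1) hv
    have hw1 : Tan X x w := tan_mono (fun _ h => h.1) hw
    by_cases hxD : x ∈ D
    · obtain ⟨b, i, hb⟩ := hh' x hxD
      obtain ⟨σ, τ, r, Bx, h2, h1⟩ := exists_bx_at hb
      have hYD := ocone_sdiff hX hs
      have hτ0 : τ x = 0 := by rw [← h2]; exact h1.left.self_of_nhds
      set z₀ : ℂ := b + (0 : ℂ × ℂ).1 ^ i with hz₀
      have hm : z₀ ∈ Λ := by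
        have h6 := Bx.lift 0 (mem_ball_self Bx.pos)
        rw [h2] at h6
        have h7 := Λ.sub_mem hz h6
        have e : u x - (u x - (b + (0 : ℂ × ℂ).1 ^ i)) = z₀ := by rw [hz₀]; ring
        rwa [e] at h7
      have hball : ∀ᶠ p in 𝓝 (0 : ℂ × ℂ), p ∈ ball (0 : ℂ × ℂ) r := isOpen_ball.mem_nhds (mem_ball_self Bx.pos)
      have hlf : ∀ᶠ p in 𝓝 (0 : ℂ × ℂ), u (σ p) - (b + p.1 ^ i - z₀) ∈ Λ := by
        filter_upwards [hball] with p hp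
        have h7 := Λ.add_mem (Bx.lift p hp) hm
        have e : u (σ p) - (b + p.1 ^ i) + z₀ = u (σ p) - (b + p.1 ^ i - z₀) := by ring
        rwa [e] at h7
      have hσP : ∀ᶠ p in 𝓝 (0 : ℂ × ℂ), σ p ∈ X \ P := by
        have h6 := h1.σ_an.continuousAt.eventually (hPcl _ (by rw [h2]; exact hxX) (by rw [h2]; exact hxP))
        filter_upwards [h1.σ_mem, h6] with p h7 h8
        exact ⟨h7, h8⟩
      have hcont : ContinuousAt (cf α' σ (fun p => b + p.1 ^ i - z₀)) 0 :=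
        (α'.analytic σ (fun p => b + p.1 ^ i - z₀) 0 h1.σ_an ((analyticAt_const.add (analyticAt_fst.pow i)).sub analyticAt_const)
          (hσP.and hlf)).continuousAt
      have h6 := (germ_form hX hu hPs hPcl α' h1 hlf).self_of_nhds (by rw [h2]; exact hxX) (by rw [h2]; exact hxP)
      rw [h2] at h6
      have h7 := h6.2 v w hv1 hw1
      rw [hτ0] at h7
      have e0 : b + (0 : ℂ × ℂ).1 ^ i - z₀ = 0 := by rw [hz₀]; ring
      rw [e0] at h7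
      rw [h7]
      have h8 : cf α' σ (fun p => b + p.1 ^ i - z₀) 0 = 0 := by
        have hct : Tendsto (fun t : ℂ => ((0, t) : ℂ × ℂ)) (𝓝 0) (𝓝 0) := by
          have h1 : Continuous fun t : ℂ => ((0, t) : ℂ × ℂ) := by fun_prop
          exact h1.tendsto' 0 0 rfl
        have hL1 : Tendsto (fun t : ℂ => cf α' σ (fun p => b + p.1 ^ i - z₀) (0, t)) (𝓝[≠] 0) (𝓝 (cf α' σ (fun p => b + p.1 ^ i - z₀) 0)) :=
          (hcont.tendsto.comp hct).mono_left nhdsWithin_le_nhds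
        refine tendsto_nhds_unique (hL1.congr' ?_) tendsto_const_nhds
        filter_upwards [nhdsWithin_le_nhds (hct.eventually hball), self_mem_nhdsWithin] with t h9 h10
        have ht : t ≠ 0 := h10
        have hmX : σ (0, t) ∈ X := Bx.mem _ h9
        have hmD : σ (0, t) ∉ D := fun h11 => ht ((Bx.D_iff _ h9).1 h11)
        have h12 : ∀ᶠ q in 𝓝 ((0, t) : ℂ × ℂ), q ∈ ball (0 : ℂ × ℂ) r := isOpen_ball.mem_nhds h9
        have hmem : ∀ᶠ q in 𝓝 ((0, t) : ℂ × ℂ), σ q ∈ X \ D := by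
          filter_upwards [h12, (Bx.σ_an _ h9).continuousAt.eventually (hcl _ hmX hmD)] with q h9 h10
          exact ⟨Bx.mem _ h9, h10⟩
        have htA : ∀ A : ℂ × ℂ, Tan (X \ D) (σ (0, t)) (fderiv ℂ σ (0, t) A) := by
          intro A
          have := tan_param hYD (Bx.σ_an _ h9) hmem A 0
          rwa [zero_smul, add_zero] at this
        have hut : u (σ (0, t)) ∈ Λ := by
          have h13 := Λ.add_mem (Bx.lift _ h9) hm
          have e : u (σ (0, t)) - (b + ((0, t) : ℂ × ℂ).1 ^ i) + z₀ = u (σ (0, t)) := by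
            rw [hz₀]
            show u (σ (0, t)) - (b + (0 : ℂ) ^ i) + (b + (0 : ℂ) ^ i) = u (σ (0, t))
            ring
          rwa [e] at h13
        show α'.toFun (b + ((0, t) : ℂ × ℂ).1 ^ i - z₀) (σ (0, t)) _ _ = 0
        have e1 : b + ((0, t) : ℂ × ℂ).1 ^ i - z₀ = 0 := by
          rw [hz₀]
          show b + (0 : ℂ) ^ i - (b + (0 : ℂ) ^ i) = 0
          ring
        rw [e1, hα' _ _ hmX hmD]
        exact hvan (σ (0, t)) ⟨hmX, hmD⟩ hut _ _ (htA (1, 0)) (htA (0, 1))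
      rw [h8, zero_mul]
    · rw [hα' _ _ hxX hxD]
      exact hvan x ⟨hxX, hxD⟩ hz v w (tan_sdiff hcl hxX hxD hv1) (tan_sdiff hcl hxX hxD hw1)
  · -- not locally `0`
    intro χ υ p hp hυ hlf h0
    -- a point outside `D`
    obtain ⟨p', hp', hp'D, hυ', hlf', h0'⟩ : ∃ p' ∈ ball (0 : ℂ × ℂ) 2, χ.σ p' ∉ D ∧ AnalyticAt ℂ υ p' ∧
        (∀ᶠ y in 𝓝 p', u (χ.σ y) - υ y ∈ Λ) ∧ ∀ᶠ y in 𝓝 p', tc α' χ υ y = 0 := by
      have hall : ∀ᶠ p' in 𝓝 p, p' ∈ ball (0 : ℂ × ℂ) 2 ∧ AnalyticAt ℂ υ p' ∧ (∀ᶠ y in 𝓝 p', u (χ.σ y) - υ y ∈ Λ) ∧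
          ∀ᶠ y in 𝓝 p', tc α' χ υ y = 0 := by
        filter_upwards [isOpen_ball.mem_nhds hp, hυ.eventually_analyticAt, hlf.eventually_nhds, h0.eventually_nhds] with p' a1 a2 a3 a4
        exact ⟨a1, a2, a3, a4⟩
      by_cases hxD : χ.σ p ∈ D
      · have hm := χ.σ_mem p hp
        obtain ⟨b, i, hb⟩ := hh' _ hxD
        obtain ⟨σ, τ, r, Bx, h2, h1⟩ := exists_bx_at hb
        have hball : ∀ᶠ p in 𝓝 (0 : ℂ × ℂ), p ∈ ball (0 : ℂ × ℂ) r := isOpen_ball.mem_nhds (mem_ball_self Bx.pos)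
        have hct : Tendsto (fun t : ℂ => ((0, t) : ℂ × ℂ)) (𝓝[≠] 0) (𝓝 0) := by
          have h1 : Continuous fun t : ℂ => ((0, t) : ℂ × ℂ) := by fun_prop
          exact (h1.tendsto' 0 0 rfl).mono_left nhdsWithin_le_nhds
        have hσc : Tendsto (fun t : ℂ => σ (0, t)) (𝓝[≠] 0) (𝓝 (χ.σ p)) := by
          rw [← h2]
          exact h1.σ_an.continuousAt.tendsto.comp hct
        have hqc : Tendsto (fun t : ℂ => χ.q (σ (0, t))) (𝓝[≠] 0) (𝓝 p) := by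
          have h3 := (χ.q_an _ hm.2.1).continuousAt.tendsto
          rw [hm.2.2] at h3
          exact h3.comp hσc
        obtain ⟨t, a1, a2, a3, a4, a5⟩ := ((hqc.eventually hall).and ((hσc.eventually (χ.isOpen_U.mem_nhds hm.2.1)).and
          ((hct.eventually hball).and ((hσc.eventually (hPcl _ hm.1.1 hm.1.2)).and self_mem_nhdsWithin)))).exists
        have ht : t ≠ 0 := a5
        have hσX : σ (0, t) ∈ X := Bx.mem _ a3
        obtain ⟨-, c, hc, a6⟩ := χ.surj (σ (0, t)) ⟨hσX, a4⟩ a2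
        refine ⟨χ.q (σ (0, t)), a1.1, ?_, a1.2.1, a1.2.2.1, a1.2.2.2⟩
        intro a7
        have a8 := hs _ a7 c hc
        rw [← a6] at a8
        exact ht ((Bx.D_iff _ a3).1 a8)
      · obtain ⟨a1, a2, a3, a4⟩ := hall.self_of_nhds
        exact ⟨p, a1, hxD, a2, a3, a4⟩
    have hm := χ.σ_mem p' hp'
    have hg := chart_germ hPcl χ hp'
    have hgD : IsGermChart (X \ D) (fun q => χ.σ (p' + q)) (fun y => χ.q y - p') := germ_sdiff hg hcl (by rw [add_zero]; exact hp'D)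
    obtain ⟨χ', hU', hq', hσ'⟩ := exists_chartO (ocone_sdiff hX hs) hgD
    rw [add_zero] at hU' hq' hσ'
    have ht : Tendsto (fun q : ℂ × ℂ => p' + q) (𝓝 0) (𝓝 p') := by
      have : ContinuousAt (fun q : ℂ × ℂ => p' + q) 0 := by fun_prop
      have h7 := this.tendsto
      rwa [add_zero] at h7
    have hlg : ∀ᶠ q in 𝓝 (0 : ℂ × ℂ), u (χ.σ (p' + q)) - υ (p' + q) ∈ Λ := ht.eventually hlf'
    have hform := germ_form hX hu hs hcl α hg hlg
    have hlift := germ_lift hu hg hlg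
    simp only [add_zero] at hform hlift
    -- the coefficient vanishes
    have hcf : ∀ᶠ q in 𝓝 (0 : ℂ × ℂ), cf α (fun q => χ.σ (p' + q)) (fun q => υ (p' + q)) q = 0 := by
      have h1 : ∀ᶠ y in 𝓝 p', χ.σ y ∉ D := (χ.σ_an p' hp').continuousAt.eventually (hcl _ hm.1.1 hp'D)
      filter_upwards [ht.eventually h0', ht.eventually h1, ht.eventually (isOpen_ball.mem_nhds hp')] with q a1 a2 a3
      show α.toFun (υ (p' + q)) (χ.σ (p' + q)) (fderiv ℂ (fun q => χ.σ (p' + q)) q (1, 0)) (fderiv ℂ (fun q => χ.σ (p' + q)) q (0, 1)) = 0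
      rw [fderiv_shift, ← hα' _ _ (χ.σ_mem _ a3).1.1 a2]
      exact a1
    have hb0 : (0 : ℂ × ℂ) ∈ ball (0 : ℂ × ℂ) 2 := mem_ball_self two_pos
    have hχc : Tendsto χ'.σ (𝓝 0) (𝓝 (χ.σ p')) := by
      rw [← hσ']
      exact (χ'.σ_an 0 hb0).continuousAt
    have hqc : Tendsto (fun q => χ.q (χ'.σ q)) (𝓝 0) (𝓝 p') := by
      have h3 := (χ.q_an _ hm.2.1).continuousAt.tendsto
      rw [hm.2.2] at h3
      exact h3.comp hχc
    have hqan : AnalyticAt ℂ (fun q => χ.q (χ'.σ q)) 0 :=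
      AnalyticAt.comp (g := χ.q) (f := χ'.σ) (by rw [hσ']; exact χ.q_an _ hm.2.1) (χ'.σ_an 0 hb0)
    refine hthin χ' (fun q => υ (χ.q (χ'.σ q))) 0 hb0 ?_ ?_ ?_
    · exact AnalyticAt.comp (g := υ) (f := fun q => χ.q (χ'.σ q)) (by rw [hσ', hm.2.2]; exact hυ') hqan
    · filter_upwards [hχc.eventually hlift, isOpen_ball.mem_nhds hb0] with q a1 a2
      have a3 := a1 (χ'.σ_mem q a2).1.1
      rw [add_sub_cancel] at a3
      exact a3
    · have hq0 : Tendsto (fun q => χ.q (χ'.σ q) - p') (𝓝 0) (𝓝 0) := by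
        have h3 := hqc.sub_const p'
        rwa [sub_self] at h3
      filter_upwards [hχc.eventually hform, isOpen_ball.mem_nhds hb0, hq0.eventually hcf] with q a1 a2 a3
      have a4 := (χ'.σ_mem q a2).1
      have hmemN : ∀ᶠ q' in 𝓝 q, χ'.σ q' ∈ X := by
        filter_upwards [isOpen_ball.mem_nhds a2] with q' a5
        exact (χ'.σ_mem q' a5).1.1
      have htA : ∀ A : ℂ × ℂ, Tan X (χ'.σ q) (fderiv ℂ χ'.σ q A) := by
        intro A
        have := tan_param hX (χ'.σ_an q a2) hmemN A 0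
        rwa [zero_smul, add_zero] at this
      have a5 := (a1 a4.1 a4.2).2 _ _ (htA (1, 0)) (htA (0, 1))
      rw [add_sub_cancel, a3, zero_mul] at a5
      exact a5

end Pool.Agent.H86.LU

end

section

/-!
# LU Base: the data with the whole boundary `D`; the part `P` with poles

The definitions are in `BaseDefs`, the proofs in `H86/LU`.
-/

set_option autoImplicit false

open Topology Filter Metric

namespace Pool.Agent.H18.LU

attribute [-instance] ProperSMul.toContinuousSMul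

open Pool.Agent.H36.BP (EN fs wd IsGermChart)
open Pool.Agent.H14.PP (IsCone Chart Tan CurveAt)
open Pool.Agent.H62.EF (Lat MN pr TorusMap Sec Charts DU)
open Pool.Agent.H62.EL (Gd Ag BadSet IsNC TForm Per VanZero Thin)

variable {N : ℕ} {X D : Set (EN N)} {Λ Γ : AddSubgroup ℂ} {u : EN N → ℂ} {B : Set ℂ} {δ : ℝ}

/-- **Extension of forms.** `D₀ ⊇ D` closed parts of `X`, the form on `X \ D₀` has an analytic coefficient near every point of `D₀ \ D`, in the coordinates of one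
germ chart in which `D₀` is nowhere dense. -/
theorem tform_extend (hX : OCone X) (hc : Charts X) (hΛ : Dsc Λ) (hu : TorusMap X Λ u) {D₀ : Set (EN N)} (hD : D ⊆ D₀) (hD₀ : D₀ ⊆ X)
    (hs : ∀ x ∈ D₀, ∀ c : ℂ, c ≠ 0 → c • x ∈ D₀) (hsD : ∀ x ∈ D, ∀ c : ℂ, c ≠ 0 → c • x ∈ D)
    (hcl : ∀ x ∈ X, x ∉ D₀ → ∀ᶠ y in 𝓝 x, y ∉ D₀) (hclD : ∀ x ∈ X, x ∉ D → ∀ᶠ y in 𝓝 x, y ∉ D) (α : TForm (X \ D₀) Λ u)
    (h : ∀ x ∈ D₀, x ∉ D → ∃ (σ : ℂ × ℂ → EN N) (τ : EN N → ℂ × ℂ) (υ : ℂ × ℂ → ℂ), IsGermChart X σ τ ∧ σ 0 = x ∧ AnalyticAt ℂ υ 0 ∧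
      (∀ᶠ p in 𝓝 (0 : ℂ × ℂ), u (σ p) - υ p ∈ Λ) ∧ (∀ᶠ p in 𝓝 (0 : ℂ × ℂ), ∃ᶠ q in 𝓝 p, σ q ∉ D₀) ∧
      ∀ l ∈ Λ, ∃ g : ℂ × ℂ → ℂ, AnalyticAt ℂ g 0 ∧ ∀ᶠ p in 𝓝 (0 : ℂ × ℂ), σ p ∉ D₀ →
        α.toFun (υ p + l) (σ p) (fderiv ℂ σ p (1, 0)) (fderiv ℂ σ p (0, 1)) = g p) :
    ∃ α' : TForm (X \ D) Λ u, ∀ z, ∀ x ∈ X, x ∉ D₀ → ∀ v w, α'.toFun z x v w = α.toFun z x v w := by
  exact Pool.Agent.H86.LU.tform_extend hX hc hΛ hu hD hD₀ hs hsD hcl hclD α h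

theorem EBase.lbase (E : EBase X D Λ Γ u B δ) : LBase X D Λ Γ u B δ := by
  exact Pool.Agent.H86.LU.lbase E

/-- in the compact case residues are bounded -/
theorem EBase.resBd (E : EBase X D Λ Γ u B δ) {α : TForm (X \ D) Λ u} (hlog : LogP α) (hper : Per α Γ) : ResBd α := by
  exact Pool.Agent.H86.LU.resBd E hlog hper

/-- the part `P` of `D` where the residue is not `0` contains no entire sections -/
theorem exists_P (E : LBase X D Λ Γ u B δ) (α : TForm (X \ D) Λ u) (hlog : LogP α) (hres : ResBd α) (hper : Per α Γ) (hvan : VanZero α)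
    (hthin : Thin α) : ∃ P : Set (EN N), LData X D P Λ Γ u B δ ∧ ∃ α' : TForm (X \ P) Λ u,
      (∀ z, ∀ x ∈ X, x ∉ D → ∀ v w, α'.toFun z x v w = α.toFun z x v w) ∧ LogP α' ∧ Per α' Γ ∧ VanZero α' ∧ Thin α' := by
  exact Pool.Agent.H86.LU.exists_P E α hlog hres hper hvan hthin

end Pool.Agent.H18.LU

end
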