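import Pool.Agent.H94.CB.M201
import Pool.Agent.H94.CB.M208
import Pool.Agent.H94.CB.M214
import Pool.Agent.H94.CB.M228

/-! The parts of this file: H6.LU.Re, H6.LU.En, H87.LV.EndT, H87.LV.EndU. -/

section

/-!
# LU Re: the residues along entire sections in the boundary curve are bounded
-/

set_option autoImplicit false

open Topology Filter Metric

noncomputable section

namespace Pool.Agent.H6.LU

attribute [-instance] ProperSMul.toContinuousSMul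

open Pool.Agent.H17 (PN HolomorphicInto)
open Pool.Agent.H36.BP (EN coneOf coneOf_smul ne_zero_of_ofLp ofLp_ne_zero IsGermChart)
open Pool.Agent.H4.LU (Mem val IsParam IsInner IsHorChart IsEndChart IsEnd IsRegularEnd IsModel Over IsTangent IsLogForm VanishesOver IsNowhereZero)
open Pool.Agent.H18.LU (OCone Dsc Nb part HorAt LFib LBase LogP ResBd)
open Pool.Agent.H62.EF (TorusMap Charts pr MN sec_uniq pr_smul pr_eq_iff isCompact_pr)
open Pool.Agent.H62.EL (BadSet IsNC TForm Per VanZero Thin tc)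
open Pool.Agent.H14.PP (Tan CurveAt Chart jac IsCone)
open Pool.Agent.H86.LU (RA germ_shift isolated_pts hor_all sec_chart sec_near res_fun sec_shift)
open Pool.Agent.EG.LE (cf cf_change)

variable {M : ℕ} {Y V : Set (PN M)} {e : PN M → ℂ} {m : ℕ} {Ω : ℂ → (Fin (M + 1) → ℂ) → (Fin (M + 1) → ℂ) → (Fin (M + 1) → ℂ) → ℂ}

theorem isCone_Y (h : IsModel Y V e) : IsCone (coneOf Y) where
  zero_notMem := zero_notMem_coneOf Y
  smul_mem := fun x hx c hc => coneOf_smul hx hc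
  closed := by
    refine isClosed_of_closure_subset fun x hx => ?_
    by_cases hx0 : x = 0
    · exact Or.inl hx0
    · right
      refine closed_coneOf h x ?_ hx0
      rw [Set.insert_eq, closure_union, closure_singleton] at hx
      exact hx.resolve_left hx0

/-- `e'` is `e` or `1 / e` -/
def EE (e e' : PN M → ℂ) (ε : ℂ) : Prop := (ε = 1 ∧ e' = e) ∨ (ε = -1 ∧ e' = fun y => (e y)⁻¹)

theorem EE.eps {e e' : PN M → ℂ} {ε : ℂ} (h : EE e e' ε) : ε = 1 ∨ ε = -1 := by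
  rcases h with ⟨h, -⟩ | ⟨h, -⟩
  · exact Or.inl h
  · exact Or.inr h

/-- limits of `e'` -/
theorem EE.lim {e e' : PN M → ℂ} {ε : ℂ} (he : EE e e' ε) {x : EN M} (hx : x ∈ XX Y V e) :
    ∃ w : ℂ, w ≠ 0 ∧ Tendsto (ev e') (𝓝[coneOf V] x) (𝓝 w) := by
  obtain ⟨hxY, w, hw, hlim⟩ := hx
  rcases he with ⟨-, rfl⟩ | ⟨-, rfl⟩
  · exact ⟨w, hw, hlim⟩
  · exact ⟨w⁻¹, inv_ne_zero hw, tendsto_inv hw hlim⟩

theorem EE.mem {e e' : PN M → ℂ} {ε : ℂ} (h : IsModel Y V e) (he : EE e e' ε) {x : EN M} (hx : x ∈ coneOf Y) {w : ℂ} (hw : w ≠ 0)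
    (hlim : Tendsto (ev e') (𝓝[coneOf V] x) (𝓝 w)) (a : ℂ) : x ∈ XX Y V e ∧ Complex.exp (ε * uu V e a x) = Complex.exp (-(ε * a)) * w := by
  rcases he with ⟨rfl, rfl⟩ | ⟨rfl, rfl⟩
  · refine ⟨⟨hx, w, hw, hlim⟩, ?_⟩
    rw [one_mul, one_mul, exp_uu h hx hw hlim, mul_comm]
  · have h1 := tendsto_of_inv hw hlim
    refine ⟨⟨hx, _, inv_ne_zero hw, h1⟩, ?_⟩
    rw [neg_one_mul, neg_one_mul, neg_neg, Complex.exp_neg, exp_uu h hx (inv_ne_zero hw) h1, mul_inv, inv_inv, ← Complex.exp_neg, neg_neg, mul_comm]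

/-- the points over `0` or `∞` come from the charts of the model -/
theorem exists_endchart (h : IsModel Y V e) {e' : PN M → ℂ} {ε : ℂ} (he : EE e e' ε) {x : EN M} (hx : x ∈ DD Y V e') :
    ∃ (k : ℕ) (nd hor : Bool) (σ₀ : ℂ × ℂ → Fin (M + 1) → ℂ) (τ₀ : (Fin (M + 1) → ℂ) → ℂ × ℂ) (y : PN M) (c : ℂ),
      IsEndChart Y V e' k nd hor σ₀ τ₀ y ∧ c ≠ 0 ∧ c • lp M (σ₀ 0) = x := by
  obtain ⟨hxY, hlim⟩ := id hx
  have hX : x ∉ XX Y V e := by
    intro hX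
    obtain ⟨w, hw, hlim'⟩ := he.lim hX
    have := neBot_V h hxY
    exact hw (tendsto_nhds_unique hlim' hlim)
  obtain ⟨hx0, hxY'⟩ := id hxY
  rcases h.point _ hxY' with h1 | ⟨σ, τ, h1⟩ | ⟨k, nd, hor, σ, τ, h1⟩ | ⟨k, nd, hor, σ, τ, h1⟩
  · exfalso
    obtain ⟨σ, τ, c, i, j, h2⟩ := mch_of_inner h1 (x := x) ⟨hx0, rfl⟩
    exact hX (h2.mem_XX h)
  · exfalso
    obtain ⟨c, hc, hcx⟩ := exists_scale h1.1 (x := x) ⟨hx0, rfl⟩
    obtain ⟨c', i, h2⟩ := mch_of_hor h1 hc hcx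
    exact hX (h2.mem_XX h)
  · obtain ⟨c, hc, hcx⟩ := exists_scale h1.1 (x := x) ⟨hx0, rfl⟩
    have h2 := ech_of_end h1 hc hcx
    rcases he with ⟨-, rfl⟩ | ⟨-, rfl⟩
    · exact ⟨k, nd, hor, σ, τ, _, c, h1, hc, hcx⟩
    · exfalso
      exact tendsto_inv_unique h hxY (h2.tendsto h.sub) hlim
  · obtain ⟨c, hc, hcx⟩ := exists_scale h1.1 (x := x) ⟨hx0, rfl⟩
    have h2 := ech_of_end h1 hc hcx
    rcases he with ⟨-, rfl⟩ | ⟨-, rfl⟩
    · exfalso
      exact tendsto_inv_unique h hxY hlim (h2.tendsto h.sub)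
    · exact ⟨k, nd, hor, σ, τ, _, c, h1, hc, hcx⟩

/-- the bound of the form in an end chart -/
theorem end_bound (h : IsModel Y V e) (hΩ : IsLogForm Y V e m Ω) (a : ℂ) {K : Set (EN M)} (hK : K = coneOf V) {e' : PN M → ℂ} {ε : ℂ} (he : EE e e' ε)
    {k : ℕ} {nd hor : Bool} {σ₀ : ℂ × ℂ → Fin (M + 1) → ℂ} {τ₀ : (Fin (M + 1) → ℂ) → ℂ × ℂ} {y : PN M} (hch : IsEndChart Y V e' k nd hor σ₀ τ₀ y)
    {c : ℂ} (hc : c ≠ 0) : ∃ C : ℝ, 0 ≤ C ∧ ∀ᶠ p in 𝓝 (0 : ℂ × ℂ), c • lp M (σ₀ p) ∈ coneOf V → ∀ t : ℂ, uu V e a (c • lp M (σ₀ p)) - t ∈ Lam →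
      ‖(if nd = true ∨ hor = true then p.1 * p.2 else p.1) * cf (tf h hΩ a hK) (fun p => c • lp M (σ₀ p)) t p‖ ≤ C := by
  obtain ⟨C, hC⟩ : ∃ C : ℝ, ∀ᶠ p in 𝓝 (0 : ℂ × ℂ), ∀ z, Over V e z (σ₀ p) →
      ‖(if nd = true ∨ hor = true then p.1 * p.2 else p.1) * Ω z (σ₀ p) (fderiv ℂ σ₀ p (1, 0)) (fderiv ℂ σ₀ p (0, 1))‖ ≤ C := by
    rcases he with ⟨-, rfl⟩ | ⟨-, rfl⟩
    · exact hΩ.zero k nd hor σ₀ τ₀ y hch
    · exact hΩ.infty k nd hor σ₀ τ₀ y hch
  obtain ⟨hp, -, -, hf⟩ := hch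
  refine ⟨max C 0, le_max_right _ _, ?_⟩
  filter_upwards [hC, hf.eventually_nhds, hp.analytic.eventually_analyticAt] with p h1 h2 h3 hV t ht
  have hV0 : Mem V (σ₀ p) := (coneOf_smul_iff hc).1 hV
  have hp0 := h2.self_of_nhds.1.1 hV0
  have hVe : ∀ᶠ q in 𝓝 p, Mem V (σ₀ q) := by
    have h4 : ∀ᶠ q : ℂ × ℂ in 𝓝 p, q.1 ≠ 0 := continuousAt_fst.eventually_ne hp0.1
    by_cases hb : nd = true ∨ hor = true
    · have h5 : ∀ᶠ q : ℂ × ℂ in 𝓝 p, q.2 ≠ 0 := continuousAt_snd.eventually_ne (hp0.2 hb)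
      filter_upwards [h2, h4, h5] with q hq1 hq2 hq3
      exact hq1.1.2 ⟨hq2, fun _ => hq3⟩
    · filter_upwards [h2, h4] with q hq1 hq2
      exact hq1.1.2 ⟨hq2, fun h6 => absurd h6 hb⟩
  have hov : Over V e (t + a) (σ₀ p) := by
    obtain ⟨h6, h7⟩ := (over_iff h hV a t).1 ht
    refine ⟨hV0, ?_⟩
    have h8 : ev e (c • lp M (σ₀ p)) = Complex.exp (t + a) := h7
    rw [ev_smul _ _ hc] at h8
    exact h8
  rw [cf_eq h hΩ a hK h3 hVe hc hov]
  exact (h1 _ hov).trans (le_max_left _ _)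

/-- at the end charts where the boundary curve does not pass there are no points of the boundary curve over `ℂ^*` -/
theorem no_DH (h : IsModel Y V e) {e' : PN M → ℂ} {ε : ℂ} (he : EE e e' ε) {k : ℕ} {nd hor : Bool} {σ : ℂ × ℂ → EN M} {τ : EN M → ℂ × ℂ} {x : EN M}
    (hx : ECh Y V e' k nd hor σ τ x) (hb : nd = true ∨ hor = false) : ∀ᶠ y in 𝓝 x, y ∉ DH Y V e := by
  filter_upwards [hx.loc hx.limit univ_mem] with y hy hyD
  obtain ⟨a, p, ha, -, hpW, hyp, -, hV, -⟩ := hy hyD.1.1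
  obtain ⟨w, hw, hlim⟩ := he.lim hyD.1
  have h1 : Tendsto (ev e') (𝓝[coneOf V] (σ p)) (𝓝 w) := by
    have h2 := tendsto_ev_smul (inv_ne_zero ha) hlim
    rwa [hyp, smul_smul, inv_mul_cancel₀ ha, one_smul] at h2
  have h3 : w = if nd = true then p.1 * p.2 else p.1 := hpW w h1
  apply hyD.2
  rw [hV]
  rcases hb with rfl | rfl
  · rw [if_pos rfl] at h3
    rw [h3] at hw
    exact ⟨left_ne_zero_of_mul hw, fun _ => right_ne_zero_of_mul hw⟩
  · cases nd with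
    | true =>
      rw [if_pos rfl] at h3
      rw [h3] at hw
      exact ⟨left_ne_zero_of_mul hw, fun _ => right_ne_zero_of_mul hw⟩
    | false =>
      have h4 : w = p.1 := by simpa using h3
      rw [h4] at hw
      exact ⟨hw, fun h5 => by simp at h5⟩

theorem DH_sub : DH Y V e ⊆ XX Y V e := fun _ hx => hx.1

theorem DH_smul : ∀ x ∈ DH Y V e, ∀ c : ℂ, c ≠ 0 → c • x ∈ DH Y V e := fun x hx c hc =>
  ⟨(ocone_XX Y V e).smul_mem _ hx.1 c hc, fun h => hx.2 ((coneOf_smul_iff hc).1 h)⟩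

theorem DH_closed (h : IsModel Y V e) : ∀ x ∈ XX Y V e, x ∉ DH Y V e → ∀ᶠ y in 𝓝 x, y ∉ DH Y V e := by
  intro x hx hxD
  have hxV : x ∈ coneOf V := by
    by_contra h1
    exact hxD ⟨hx, h1⟩
  filter_upwards [V_open h hxV] with y hy hyD
  exact hyD.2 (hy hyD.1.1)

/-- local bounds of the residues -/
theorem local_res (h : IsModel Y V e) (hΩ : IsLogForm Y V e m Ω) (a : ℂ) {x : EN M} (hx : x ∈ coneOf Y) :
    ∃ C R : ℝ, ∀ᶠ y in 𝓝 x, y ∈ DH Y V e → ∀ z ρ, uu V e a y - z ∈ Lam → R ≤ |z.re| → RA (tf h hΩ a (XX_diff h)) y z ρ → ‖ρ‖ ≤ C := by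
  have hend : ∀ (e' : PN M → ℂ) (ε : ℂ), EE e e' ε → x ∈ DD Y V e' → ∃ C R : ℝ, ∀ᶠ y in 𝓝 x, y ∈ DH Y V e → ∀ z ρ, uu V e a y - z ∈ Lam → R ≤ |z.re| →
      RA (tf h hΩ a (XX_diff h)) y z ρ → ‖ρ‖ ≤ C := by
    intro e' ε he hx'
    obtain ⟨k, nd, hor, σ₀, τ₀, y₀, c, hch, hc, hcx⟩ := exists_endchart h he hx'
    have hE := ech_of_end hch hc hcx
    by_cases hb : nd = true ∨ hor = false
    · refine ⟨0, 0, ?_⟩
      filter_upwards [no_DH h he hE hb] with y hy hyD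
      exact absurd hyD hy
    · push Not at hb
      obtain ⟨hnd, hho⟩ := hb
      have hnd' : nd = false := by simpa using hnd
      have hho' : hor = true := by simpa using hho
      subst hnd' hho'
      have hk : k = 1 := hE.nd_k rfl
      subst hk
      obtain ⟨C, hC0, hC⟩ := end_bound h hΩ a (XX_diff h) he hch hc
      refine ⟨C, 0, ?_⟩
      have hgerm := hE.gp.germ
      have hlimE := tendsto_chart (e := e') (V := V) h.sub hE.gp (E := fun p => p.1) (Eventually.of_forall fun p => continuousAt_fst) (by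
        filter_upwards [hE.form] with p hp hpV
        have := hp.2 hpV
        simpa using this)
      have hform : ∀ᶠ p in 𝓝 (0 : ℂ × ℂ), p.1 ≠ 0 → c • lp M (σ₀ p) ∈ XX Y V e ∧ (c • lp M (σ₀ p) ∈ DH Y V e ↔ p.2 = 0) ∧
          Complex.exp (ε * uu V e a (c • lp M (σ₀ p))) = Complex.exp (-(ε * a)) * p.1 := by
        filter_upwards [hlimE, hE.form, hE.gp.mem] with p h1 h2 h3 hp
        obtain ⟨h4, h5⟩ := he.mem h h3 hp h1 a
        refine ⟨h4, ?_, h5⟩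
        constructor
        · rintro ⟨-, h6⟩
          by_contra h7
          exact h6 (h2.1.2 ⟨hp, fun _ => h7⟩)
        · intro h6
          exact ⟨h4, fun h7 => (h2.1.1 h7).2 (Or.inr rfl) h6⟩
      have hax : ∀ᶠ p in 𝓝 (0 : ℂ × ℂ), p.1 = 0 → c • lp M (σ₀ p) ∉ XX Y V e := by
        filter_upwards [hlimE, hE.gp.mem] with p h1 h2 h3 h4
        obtain ⟨w, hw, hlim⟩ := he.lim h4
        have := neBot_V h h2
        have h5 : w = p.1 := tendsto_nhds_unique hlim h1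
        exact hw (h5.trans h3)
      have hb' : ∀ᶠ p in 𝓝 (0 : ℂ × ℂ), p.1 ≠ 0 → p.2 ≠ 0 → ∀ t : ℂ, uu V e a (c • lp M (σ₀ p)) - t ∈ Lam →
          ‖p.1 * p.2 * cf (tf h hΩ a (XX_diff h)) (fun p => c • lp M (σ₀ p)) t p‖ ≤ C := by
        filter_upwards [hC, hE.form] with p h1 h2 hp1 hp2 t ht
        have h3 : c • lp M (σ₀ p) ∈ coneOf V := h2.1.2 ⟨hp1, fun _ => hp2⟩
        have h4 := h1 h3 t ht
        simpa using h4
      have key := end_res (K := coneOf Y) (ocone_XX Y V e) (torus_XX h a) dsc_Lam DH_smul (DH_closed h) DH_sub (logP_tf h hΩ a)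
        (fun w => mem_Lam) (fun x hx => hx.1) hgerm he.eps hform hax hb'
      have hc0 : c • lp M (σ₀ 0) = x := hcx
      rw [hc0] at key
      filter_upwards [key] with y hy hyD z ρ hz _ hρ
      exact hy hyD z ρ hz hρ
  rcases cover h hx with hX | hD | hD
  · obtain ⟨hor, σ, τ, c, i, j, h1⟩ := exists_mch h hX
    refine ⟨0, |(c - a).re| + 2, ?_⟩
    have h2 : ∀ᶠ y in 𝓝 x, ‖(τ y).1 ^ i * (τ y).2 ^ j‖ < 1 := by
      have h3 : ContinuousAt (fun y => ‖(τ y).1 ^ i * (τ y).2 ^ j‖) x := by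
        have h4 := h1.gp.τ_an.continuousAt
        exact ((h4.fst.pow i).mul (h4.snd.pow j)).norm
      refine h3.eventually_lt_const ?_
      have h5 : τ x = 0 := h1.gp.tau_zero le_rfl
      have h6 : (τ x).1 ^ i = 0 := by
        rw [h5, Prod.fst_zero, zero_pow]
        exact Nat.one_le_iff_ne_zero.1 h1.i_pos
      show ‖(τ x).1 ^ i * (τ x).2 ^ j‖ < 1
      rw [h6, zero_mul, norm_zero]
      exact one_pos
    filter_upwards [h1.uu_sub h a, h2] with y h3 h4 hyD z ρ hz hR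
    exfalso
    have h5 := (h3 hyD.1.1).2
    have h6 := Lam.sub_mem h5 hz
    have h7 := Lam_re h6
    have h8 : z.re = (c - a).re + ((τ y).1 ^ i * (τ y).2 ^ j).re := by
      have e : uu V e a y - (c - a + (τ y).1 ^ i * (τ y).2 ^ j) - (uu V e a y - z) = z - (c - a) - (τ y).1 ^ i * (τ y).2 ^ j := by ring
      rw [e, Complex.sub_re, Complex.sub_re] at h7
      linarith
    have h9 : |((τ y).1 ^ i * (τ y).2 ^ j).re| ≤ 1 := (Complex.abs_re_le_norm _).trans h4.le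
    have h10 : |z.re| ≤ |(c - a).re| + 1 := by
      rw [h8]
      exact (abs_add_le _ _).trans (by linarith)
    linarith
  · exact hend e 1 (Or.inl ⟨rfl, rfl⟩) hD
  · exact hend _ (-1) (Or.inr ⟨rfl, rfl⟩) hD

/-- the residues far from the middle part -/
theorem ends_res (h : IsModel Y V e) (hΩ : IsLogForm Y V e m Ω) (a : ℂ) :
    ∃ C R : ℝ, ∀ y ∈ DH Y V e, ∀ z ρ, uu V e a y - z ∈ Lam → R ≤ |z.re| → RA (tf h hΩ a (XX_diff h)) y z ρ → ‖ρ‖ ≤ C := by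
  have h1 : ∃ C R : ℝ, ∀ y ∈ {x : EN M | x ∈ coneOf Y ∧ ‖x‖ = 1}, y ∈ DH Y V e → ∀ z ρ, uu V e a y - z ∈ Lam → R ≤ |z.re| →
      RA (tf h hΩ a (XX_diff h)) y z ρ → ‖ρ‖ ≤ C := by
    refine (isCompact_unit h).induction_on (p := fun S => ∃ C R : ℝ, ∀ y ∈ S, y ∈ DH Y V e → ∀ z ρ, uu V e a y - z ∈ Lam → R ≤ |z.re| →
      RA (tf h hΩ a (XX_diff h)) y z ρ → ‖ρ‖ ≤ C) ⟨0, 0, fun y hy => absurd hy (Set.notMem_empty y)⟩ ?_ ?_ ?_
    · rintro S T hST ⟨C, R, hC⟩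
      exact ⟨C, R, fun y hy => hC y (hST hy)⟩
    · rintro S T ⟨C, R, hC⟩ ⟨C', R', hC'⟩
      refine ⟨max C C', max R R', fun y hy hyD z ρ hz hR hρ => ?_⟩
      rcases hy with hy | hy
      · exact (hC y hy hyD z ρ hz ((le_max_left _ _).trans hR) hρ).trans (le_max_left _ _)
      · exact (hC' y hy hyD z ρ hz ((le_max_right _ _).trans hR) hρ).trans (le_max_right _ _)
    · rintro x ⟨hx, -⟩
      obtain ⟨C, R, hC⟩ := local_res h hΩ a hx
      exact ⟨_, mem_nhdsWithin_of_mem_nhds hC, C, R, fun y hy => hy⟩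
  obtain ⟨C, R, hC⟩ := h1
  refine ⟨C, R, fun y hy z ρ hz hR hρ => ?_⟩
  have hy0 : y ≠ 0 := coneOf_ne hy.1.1
  have hc : ((‖y‖⁻¹ : ℝ) : ℂ) ≠ 0 := by
    exact_mod_cast inv_ne_zero (norm_ne_zero_iff.2 hy0)
  refine hC (((‖y‖⁻¹ : ℝ) : ℂ) • y) ⟨coneOf_smul hy.1.1 hc, ?_⟩ (DH_smul _ hy _ hc) z ρ ?_ hR
    (hρ.smul (ocone_XX Y V e) (torus_XX h a) DH_smul (DH_closed h) hc)
  · rw [norm_smul, Complex.norm_real, norm_inv, norm_norm, inv_mul_cancel₀ (norm_ne_zero_iff.2 hy0)]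
  · have h2 := Lam.add_mem ((torus_XX h a).smul _ hy.1 _ hc) hz
    rwa [sub_add_sub_cancel] at h2

/-- **Residues are bounded.** -/
theorem resBd_tf (h : IsModel Y V e) (hm : 1 ≤ m) (hΩ : IsLogForm Y V e m Ω) {B₁ : Set ℂ} {a : ℂ} {δ : ℝ}
    (E : LBase (XX Y V e) (DH Y V e) Lam (Gam m) (uu V e a) (BB B₁ a) δ) : ResBd (tf h hΩ a (XX_diff h)) := by
  set α := tf h hΩ a (XX_diff h) with hα
  have hX := E.cone
  have hΛ := E.dsc
  have hh := hor_all E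
  have hlog : LogP α := logP_tf h hΩ a
  have hper : Per α (Gam m) := per_tf h hm hΩ a (XX_diff h)
  intro F hF hFD hFu
  obtain ⟨ρ, hρ, hRA⟩ := res_fun hX E.tor hΛ E.D_sub E.D_smul E.D_closed hh hlog hF hFD hFu
  have hne : ∀ x ∈ DH Y V e, x ≠ 0 := fun x hx => coneOf_ne hx.1.1
  have hP1 : ∀ l ∈ Gam m, (∀ z, pr (F (z + l)) = pr (F z)) → ∀ z, ρ (z + l) = ρ z := by
    intro l hl h1 z
    obtain ⟨c, hc, h2⟩ := (pr_eq_iff (hne _ (hFD _)) (hne _ (hFD _))).1 (h1 z)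
    have h3 := ((hRA z).per hX E.D_smul E.D_closed hper E.le hl).smul hX E.tor E.D_smul E.D_closed hc
    rw [← h2] at h3
    exact RA.unique hX E.tor hΛ E.D_smul E.D_closed (hRA (z + l)) h3
  -- finitely many points over `Λ`
  have hcone : IsCone (part (XX Y V e) Lam (uu V e a) 0) := by
    refine ⟨fun h0 => hX.zero_notMem h0.1, fun x hx c hc => ⟨hX.smul_mem _ hx.1 c hc, ?_⟩, E.closed 0⟩
    obtain ⟨l, hl, hl1⟩ := hx.2
    refine ⟨l + (uu V e a (c • x) - uu V e a x), Lam.add_mem hl (E.tor.smul _ hx.1 c hc), ?_⟩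
    have e1 : uu V e a (c • x) - (l + (uu V e a (c • x) - uu V e a x)) = uu V e a x - l := by ring
    rw [e1]
    exact hl1
  have hfin0 : {y : MN M | ∃ x ∈ DH Y V e, uu V e a x ∈ Lam ∧ pr x = y}.Finite := by
    set S : Set (MN M) := {y : MN M | ∃ x ∈ DH Y V e, uu V e a x ∈ Lam ∧ pr x = y} with hS
    have h1 : (S ∩ pr '' (part (XX Y V e) Lam (uu V e a) 0)).Finite := by
      refine (isCompact_pr hcone).induction_on (p := fun t => (S ∩ t).Finite) (by simp) ?_ ?_ ?_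
      · intro s t hst ht
        exact ht.subset (Set.inter_subset_inter_right S hst)
      · intro s t h2 h3
        rw [Set.inter_union_distrib_left]
        exact h2.union h3
      · rintro _ ⟨x₀, hx₀, rfl⟩
        obtain ⟨ε, hε, h2⟩ := isolated_pts E.tor hΛ E.D_sub hX.zero_notMem E.D_smul E.D_closed hh hx₀.1
        refine ⟨ball (pr x₀) ε, nhdsWithin_le_nhds (ball_mem_nhds _ hε), ?_⟩
        refine (Set.finite_singleton (pr x₀)).subset ?_
        rintro y ⟨⟨x, hx, hux, rfl⟩, hy⟩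
        exact h2 x hx hux hy
    refine h1.subset ?_
    rintro y ⟨x, hx, hux, rfl⟩
    exact ⟨⟨x, hx, hux, rfl⟩, x, ⟨E.D_sub hx, _, hux, by rw [sub_self, norm_zero]⟩, rfl⟩
  -- a period
  obtain ⟨l₀, hl₀, hl₀0, hl₀p⟩ : ∃ l₀ ∈ Gam m, l₀ ≠ 0 ∧ ∀ z, pr (F (z + l₀)) = pr (F z) := by
    set g : ℤ → ℂ := fun n => n * (2 * Real.pi * Complex.I * m) with hgdef
    have hgΓ : ∀ n, g n ∈ Gam m := fun n => (mem_Gam_iff hm).2 ⟨n, rfl⟩
    have hgne : (2 * Real.pi * Complex.I * m : ℂ) ≠ 0 := by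
      have h1 : (m : ℂ) ≠ 0 := by exact_mod_cast Nat.one_le_iff_ne_zero.1 hm
      exact mul_ne_zero Complex.two_pi_I_ne_zero h1
    have hginj : Function.Injective g := by
      intro n n' hnn
      have h1 := mul_right_cancel₀ hgne hnn
      exact_mod_cast h1
    have hmaps : ∀ n : ℤ, pr (F (g n)) ∈ {y : MN M | ∃ x ∈ DH Y V e, uu V e a x ∈ Lam ∧ pr x = y} := by
      intro n
      refine ⟨F (g n), hFD _, ?_, rfl⟩
      have h1 := Lam.add_mem (hFu (g n)) (E.le (hgΓ n))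
      rwa [sub_add_cancel] at h1
    obtain ⟨n, -, n', -, hnn, heq⟩ := Set.infinite_univ.exists_ne_map_eq_of_mapsTo (f := fun n : ℤ => pr (F (g n)))
      (s := Set.univ) (fun n _ => hmaps n) hfin0
    refine ⟨g n - g n', (Gam m).sub_mem (hgΓ n) (hgΓ n'), sub_ne_zero.2 fun h1 => hnn (hginj h1), ?_⟩
    -- the two translates agree
    have e1 : ∀ {b : ℂ}, b ∈ Gam m → Differentiable ℂ (fun z => F (z + b)) ∧ (∀ z, F (z + b) ∈ DH Y V e) ∧ ∀ z, uu V e a (F (z + b)) - z ∈ Lam := by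
      intro b hb
      have := sec_shift hF hFD hFu (E.le ((Gam m).neg_mem hb))
      simpa only [sub_neg_eq_add] using this
    obtain ⟨a1, a2, a3⟩ := e1 (hgΓ n)
    obtain ⟨b1, b2, b3⟩ := e1 (hgΓ n')
    have h0 : pr (F (0 + g n)) = pr (F (0 + g n')) := by
      rw [zero_add, zero_add]
      exact heq
    obtain ⟨c₀, hc₀, h1⟩ := (pr_eq_iff (hne _ (a2 0)) (hne _ (b2 0))).1 h0
    obtain ⟨σ, τ, r, B, h2, -⟩ := sec_chart E.tor hΛ E.D_sub E.D_smul hh b1 b2 b3 0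
    have h3 := sec_near E.tor hΛ E.D_sub E.D_smul b1 b2 b3 B h2
    have h4 := sec_near E.tor hΛ E.D_sub E.D_smul (F := fun z => c₀⁻¹ • F (z + g n)) (a1.const_smul c₀⁻¹)
      (fun z => E.D_smul _ (a2 z) _ (inv_ne_zero hc₀)) (fun z => by
      have h5 := Lam.add_mem (E.tor.smul _ (E.D_sub (a2 z)) c₀⁻¹ (inv_ne_zero hc₀)) (a3 z)
      have e : uu V e a (c₀⁻¹ • F (z + g n)) - uu V e a (F (z + g n)) + (uu V e a (F (z + g n)) - z) = uu V e a (c₀⁻¹ • F (z + g n)) - z := by ring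
      rwa [e] at h5) B (by rw [h2, h1, smul_smul, inv_mul_cancel₀ hc₀, one_smul])
    have h5 : ∀ w, pr (F (w + g n)) = pr (F (w + g n')) := by
      intro w
      refine sec_uniq (isCone_Y h) (Λ := ⊤) (u := uu V e a) (z₀ := 0) (F := fun z => F (z + g n)) (G := fun z => F (z + g n'))
        ⟨a1, fun z => (a2 z).1.1, fun z => AddSubgroup.mem_top _⟩ ⟨b1, fun z => (b2 z).1.1, fun z => AddSubgroup.mem_top _⟩ ?_ w
      filter_upwards [h3, h4] with w h5 h6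
      obtain ⟨-, c, hc, h7⟩ := h5
      obtain ⟨-, c', hc', h8⟩ := h6
      rw [h7, pr_smul _ hc, ← pr_smul (F (w + g n)) (inv_ne_zero hc₀), h8, pr_smul _ hc']
    intro w
    have h6 := h5 (w - g n')
    rw [sub_add_cancel] at h6
    have e2 : w - g n' + g n = w + (g n - g n') := by ring
    rwa [e2] at h6
  -- the bound
  obtain ⟨C₁, R₁, hends⟩ := ends_res h hΩ a
  have hperρ := hP1 l₀ hl₀ hl₀p
  have hperZ : ∀ (n : ℤ) (z : ℂ), ρ (z + n * l₀) = ρ z := by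
    intro n
    induction n using Int.induction_on with
    | zero => intro z; simp
    | succ n ih =>
      intro z
      have e : z + ((n : ℤ) + 1 : ℤ) * l₀ = (z + (n : ℤ) * l₀) + l₀ := by push_cast; ring
      rw [e, hperρ, ih]
    | pred n ih =>
      intro z
      have h1 := hperρ (z + ((-(n : ℤ) - 1 : ℤ) : ℂ) * l₀)
      have e : z + ((-(n : ℤ) - 1 : ℤ) : ℂ) * l₀ + l₀ = z + ((-(n : ℤ) : ℤ) : ℂ) * l₀ := by push_cast; ring
      rw [e, ih] at h1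
      exact h1.symm
  have hl₀re : l₀.re = 0 := Lam_re (E.le hl₀)
  have hl₀im : l₀.im ≠ 0 := fun h1 => hl₀0 (Complex.ext hl₀re h1)
  set R : ℝ := max R₁ 0 + |l₀.im| with hR
  obtain ⟨C₂, hC₂⟩ : ∃ C : ℝ, ∀ z ∈ closedBall (0 : ℂ) R, ‖ρ z‖ ≤ C :=
    (isCompact_closedBall (0 : ℂ) R).exists_bound_of_continuousOn hρ.continuous.continuousOn
  have hbd : ∀ z, ‖ρ z‖ ≤ max C₁ C₂ := by
    intro z
    by_cases hz : R₁ ≤ |z.re|
    · refine (hends (F z) (hFD z) z (ρ z) (hFu z) hz (hRA z)).trans (le_max_left _ _)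
    · push Not at hz
      set n : ℤ := -round (z.im / l₀.im) with hn
      have h1 := hperZ n z
      rw [← h1]
      refine (hC₂ _ ?_).trans (le_max_right _ _)
      rw [mem_closedBall_zero_iff]
      have h2 : (z + n * l₀).re = z.re := by
        rw [Complex.add_re, ← Complex.ofReal_intCast, Complex.re_ofReal_mul, hl₀re, mul_zero, add_zero]
      have h3 : (z + n * l₀).im = z.im - round (z.im / l₀.im) * l₀.im := by
        rw [Complex.add_im, ← Complex.ofReal_intCast, Complex.im_ofReal_mul, hn]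
        push_cast
        ring
      have h4 : |(z + n * l₀).im| ≤ |l₀.im| := by
        rw [h3]
        have h5 : z.im - round (z.im / l₀.im) * l₀.im = (z.im / l₀.im - round (z.im / l₀.im)) * l₀.im := by
          field_simp
        rw [h5, abs_mul]
        have h6 := abs_sub_round (z.im / l₀.im)
        calc |z.im / l₀.im - round (z.im / l₀.im)| * |l₀.im| ≤ 1 * |l₀.im| := by
              gcongr
              linarith
          _ = |l₀.im| := one_mul _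
      calc ‖z + n * l₀‖ ≤ |(z + n * l₀).re| + |(z + n * l₀).im| := Complex.norm_le_abs_re_add_abs_im _
        _ ≤ max R₁ 0 + |l₀.im| := by
          rw [h2]
          gcongr
          exact hz.le.trans (le_max_left _ _)
  refine ⟨max C₁ C₂, ?_⟩
  intro z₀ σ τ h1 h2 h3 h4
  obtain ⟨g, hg, hge⟩ := hlog σ τ (fun p => z₀ + p.1) h1 h3 (analyticAt_const.add analyticAt_fst) h4
  refine ⟨g, hg, ?_, hge⟩
  have h5 : RA α (F z₀) z₀ (g 0) := ⟨σ, τ, g, h1, h2, h3, h4, hg, hge, rfl⟩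
  rw [RA.unique hX E.tor hΛ E.D_smul E.D_closed h5 (hRA z₀)]
  exact hbd z₀

end Pool.Agent.H6.LU

end
end

section

/-!
# LU En: the data at the ends, from the charts at the ends
-/

set_option autoImplicit false

open Topology Filter Metric

noncomputable section

namespace Pool.Agent.H6.LU

attribute [-instance] ProperSMul.toContinuousSMul

open Pool.Agent.H17 (PN HolomorphicInto)
open Pool.Agent.H36.BP (EN coneOf coneOf_smul ne_zero_of_ofLp ofLp_ne_zero IsGermChart)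
open Pool.Agent.H4.LU (Mem val IsParam IsInner IsHorChart IsEndChart IsEnd IsRegularEnd IsModel Over IsTangent IsLogForm VanishesOver IsNowhereZero)
open Pool.Agent.H62.EF (TorusMap pr MN pr_smul pr_eq_iff)
open Pool.Agent.H62.EL (TForm)
open Pool.Agent.EG.LE (cf Typ IsEndT EndData)

variable {M : ℕ} {Y V : Set (PN M)} {e : PN M → ℂ}

theorem exp_neg_mul {ε : ℂ} (hε : ε = 1 ∨ ε = -1) {w : ℂ} : w ∈ Lam → ε * w ∈ Lam := by
  intro hw
  rcases hε with rfl | rfl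
  · rwa [one_mul]
  · rw [neg_one_mul]
    exact Lam.neg_mem hw

/-- `XX` is open in the cone over `Y` -/
theorem XX_open (h : IsModel Y V e) {x : EN M} (hx : x ∈ XX Y V e) : ∀ᶠ y in 𝓝 x, y ∈ coneOf Y → y ∈ XX Y V e := by
  obtain ⟨hor, σ, τ, c, i, j, h1⟩ := exists_mch h hx
  filter_upwards [h1.uu_sub h 0] with y hy hyY
  exact (hy hyY).1

theorem DD_smul (e' : PN M → ℂ) : ∀ x ∈ DD Y V e', ∀ c : ℂ, c ≠ 0 → c • x ∈ DD Y V e' := fun x hx c hc =>
  ⟨coneOf_smul hx.1 hc, tendsto_ev_smul hc hx.2⟩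

/-- away from the end over `0` (of `e'`) the function `exp u'` is bounded from below -/
theorem D_char (h : IsModel Y V e) (a : ℂ) {e' : PN M → ℂ} {ε : ℂ} (he : EE e e' ε) {u' : EN M → ℂ} (hu' : ∀ x, u' x = ε * uu V e a x) {x : EN M}
    (hx : x ∈ coneOf Y) (hxD : x ∉ DD Y V e') : ∃ c : ℝ, 0 < c ∧ ∀ᶠ y in 𝓝 x, y ∈ XX Y V e → c ≤ ‖Complex.exp (u' y)‖ := by
  have hmid : x ∈ XX Y V e → ∃ c : ℝ, 0 < c ∧ ∀ᶠ y in 𝓝 x, y ∈ XX Y V e → c ≤ ‖Complex.exp (u' y)‖ := by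
    intro hxX
    obtain ⟨hor, σ, τ, c, i, j, h1⟩ := exists_mch h hxX
    have hcont : ContinuousAt (fun y => ‖Complex.exp (ε * (c - a + (τ y).1 ^ i * (τ y).2 ^ j))‖) x := by
      have h4 := h1.gp.τ_an.continuousAt
      exact ((continuousAt_const.mul (continuousAt_const.add ((h4.fst.pow i).mul (h4.snd.pow j)))).cexp).norm
    have hpos : 0 < ‖Complex.exp (ε * (c - a + (τ x).1 ^ i * (τ x).2 ^ j))‖ := norm_pos_iff.2 (Complex.exp_ne_zero _)
    refine ⟨‖Complex.exp (ε * (c - a + (τ x).1 ^ i * (τ x).2 ^ j))‖ / 2, half_pos hpos, ?_⟩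
    filter_upwards [hcont.eventually_const_lt (half_lt_self hpos), h1.uu_sub h a] with y h2 h3 hy
    have h4 := exp_neg_mul he.eps (h3 hy.1).2
    have h5 : Complex.exp (u' y) = Complex.exp (ε * (c - a + (τ y).1 ^ i * (τ y).2 ^ j)) := by
      rw [hu' y]
      refine sub_mem_Lam.1 ?_
      rwa [← mul_sub]
    rw [h5]
    exact h2.le
  -- the other end
  have hoth : ∀ e'' : PN M → ℂ, EE e e'' (-ε) → x ∈ DD Y V e'' → ∃ c : ℝ, 0 < c ∧ ∀ᶠ y in 𝓝 x, y ∈ XX Y V e → c ≤ ‖Complex.exp (u' y)‖ := by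
    intro e'' he'' hxD''
    have hpos : 0 < ‖Complex.exp (ε * a)‖ := norm_pos_iff.2 (Complex.exp_ne_zero _)
    refine ⟨‖Complex.exp (ε * a)‖⁻¹, inv_pos.2 hpos, ?_⟩
    filter_upwards [small_near hxD''.2 one_pos] with y h1 hy
    obtain ⟨w, hw, hlim⟩ := he''.lim hy
    have h2 := h1 w (neBot_V h hy.1) hlim
    obtain ⟨-, h3⟩ := he''.mem h hy.1 hw hlim a
    have h4 : Complex.exp (u' y) = (Complex.exp (ε * a) * w)⁻¹ := by
      rw [hu' y]
      have e1 : ε * uu V e a y = -(-ε * uu V e a y) := by ring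
      have e2 : -(-ε * a) = ε * a := by ring
      rw [e1, Complex.exp_neg, h3, e2]
    rw [h4, norm_inv, norm_mul, mul_inv]
    have h5 : 0 < ‖w‖ := norm_pos_iff.2 hw
    have h6 : 1 ≤ ‖w‖⁻¹ := (one_le_inv₀ h5).2 h2
    calc ‖Complex.exp (ε * a)‖⁻¹ = ‖Complex.exp (ε * a)‖⁻¹ * 1 := (mul_one _).symm
      _ ≤ ‖Complex.exp (ε * a)‖⁻¹ * ‖w‖⁻¹ := by gcongr
  rcases cover h hx with h1 | h1 | h1
  · exact hmid h1
  · rcases id he with ⟨rfl, rfl⟩ | ⟨rfl, rfl⟩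
    · exact absurd h1 hxD
    · exact hoth e (Or.inl ⟨neg_neg _, rfl⟩) h1
  · rcases id he with ⟨rfl, rfl⟩ | ⟨rfl, rfl⟩
    · exact hoth _ (Or.inr ⟨rfl, rfl⟩) h1
    · exact absurd h1 hxD

/-- the centre of a parametrization in projective space -/
theorem mk_center {k : ℕ} {σ₀ : ℂ × ℂ → Fin (M + 1) → ℂ} {τ₀ : (Fin (M + 1) → ℂ) → ℂ × ℂ} {y : PN M} (hp : IsParam Y k σ₀ τ₀ y) {c : ℂ}
    (hc : c ≠ 0) {x : EN M} (hcx : c • lp M (σ₀ 0) = x) (hx : x.ofLp ≠ 0) : Projectivization.mk ℂ x.ofLp hx = y := by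
  obtain ⟨h0, h1⟩ := hp.center
  rw [← h1, Projectivization.mk_eq_mk_iff']
  refine ⟨c, ?_⟩
  rw [← hcx]
  rfl

/-- the charts at the end: for every chart of the model a type -/
def HasTyp (Y V : Set (PN M)) (e e' : PN M → ℂ) (P : Set (EN M)) {u' : EN M → ℂ} (α : TForm (XX Y V e \ P) Lam u') : Prop :=
  ∀ (k : ℕ) (nd hor : Bool) (σ₀ : ℂ × ℂ → Fin (M + 1) → ℂ) (τ₀ : (Fin (M + 1) → ℂ) → ℂ × ℂ) (y : PN M) (c : ℂ), IsEndChart Y V e' k nd hor σ₀ τ₀ y →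
    c ≠ 0 → ∃ T : Typ, T.eu = (nd || hor) ∧ IsEndT (coneOf Y) (XX Y V e \ P) (XX Y V e \ DH Y V e) α T (c • lp M (σ₀ 0))

/-- **The data at the ends.** -/
theorem endData (h : IsModel Y V e) (a : ℂ) {P : Set (EN M)} (hPD : P ⊆ DH Y V e) (hPs : ∀ x ∈ P, ∀ c : ℂ, c ≠ 0 → c • x ∈ P)
    (hPc : ∀ x ∈ XX Y V e, x ∉ P → ∀ᶠ y in 𝓝 x, y ∉ P) {e' : PN M → ℂ} {ε : ℂ} (he : EE e e' ε) {u' : EN M → ℂ} (hu' : ∀ x, u' x = ε * uu V e a x)
    {α : TForm (XX Y V e \ P) Lam u'} (hT : HasTyp Y V e e' P α) (hfin : {y ∈ Y | IsEnd Y V e' y ∧ ¬ IsRegularEnd Y V e' y}.Finite)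
    (hhyp : ∀ f : ℂ → PN M, HolomorphicInto f Set.univ → (∀ z, IsRegularEnd Y V e' (f z)) → ∀ z w, f z = f w) :
    EndData (coneOf Y) (XX Y V e \ P) (XX Y V e \ DH Y V e) (DD Y V e') Lam u' α where
  cone := isCone_Y h
  lat := fun w => Iff.rfl
  V_sub := fun x hx => hx.1.1
  U_sub := fun x hx => ⟨hx.1, fun h1 => hx.2 (hPD h1)⟩
  V_smul := by
    intro x hx c hc
    refine ⟨(ocone_XX Y V e).smul_mem _ hx.1 c hc, fun h1 => hx.2 ?_⟩
    have h2 := hPs _ h1 c⁻¹ (inv_ne_zero hc)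
    rwa [smul_smul, inv_mul_cancel₀ hc, one_smul] at h2
  U_smul := by
    intro x hx c hc
    rw [XX_diff h] at hx ⊢
    exact coneOf_smul hx hc
  V_open := by
    intro x hx
    filter_upwards [XX_open h hx.1, hPc x hx.1 hx.2] with y h1 h2 hy
    exact ⟨h1 hy, h2⟩
  u_smul := by
    intro x hx c hc
    rw [hu', hu', ← mul_sub]
    exact exp_neg_mul he.eps ((torus_XX h a).smul x hx.1 c hc)
  u_loc := by
    intro x hx
    obtain ⟨v, hv, h1⟩ := (torus_XX h a).loc x hx.1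
    refine ⟨fun y => ε * v y, analyticAt_const.mul hv, ?_⟩
    filter_upwards [h1] with y hy hyV
    rw [hu', ← mul_sub]
    exact exp_neg_mul he.eps (hy hyV.1)
  D_sub := fun x hx => hx.1
  D_smul := DD_smul e'
  D_char := by
    intro x hx hxD
    obtain ⟨c, hc, h1⟩ := D_char h a he hu' hx hxD
    refine ⟨c, hc, ?_⟩
    filter_upwards [h1] with y hy hyV
    exact hy hyV.1
  D_end := by
    intro x hx
    obtain ⟨k, nd, hor, σ₀, τ₀, y, c, hch, hc, hcx⟩ := exists_endchart h he hx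
    obtain ⟨T, -, h2⟩ := hT k nd hor σ₀ τ₀ y c hch hc
    rw [hcx] at h2
    exact ⟨T, h2⟩
  D_fin := by
    refine ((hfin.image fun y => pr (WithLp.toLp 2 y.rep : EN M))).subset ?_
    rintro _ ⟨x, ⟨hxD, hnT⟩, rfl⟩
    obtain ⟨k, nd, hor, σ₀, τ₀, y, c, hch, hc, hcx⟩ := exists_endchart h he hxD
    obtain ⟨hx0, hxY⟩ := id hxD.1
    have hy : Projectivization.mk ℂ x.ofLp hx0 = y := mk_center hch.1 hc hcx hx0
    refine ⟨y, ⟨?_, ⟨k, nd, hor, σ₀, τ₀, hch⟩, ?_⟩, ?_⟩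
    · rw [← hy]
      exact hxY
    · rintro ⟨σ', τ', hch'⟩
      obtain ⟨c', hc', hcx'⟩ := exists_scale hch'.1 (x := x) ⟨hx0, hy⟩
      obtain ⟨T, hT1, hT2⟩ := hT 1 false false σ' τ' y c' hch' hc'
      rw [hcx'] at hT2
      refine hnT ⟨T, ?_, hT2⟩
      by_contra h3
      have h4 : T.ex = true := by simpa using h3
      have h5 := T.ex_eu h4
      rw [hT1] at h5
      simp at h5
    · have h1 : Projectivization.mk ℂ y.rep y.rep_nonzero = Projectivization.mk ℂ x.ofLp hx0 := by rw [Projectivization.mk_rep, hy]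
      rw [Projectivization.mk_eq_mk_iff'] at h1
      obtain ⟨b, hb⟩ := h1
      have hb0 : b ≠ 0 := by
        rintro rfl
        rw [zero_smul] at hb
        exact y.rep_nonzero hb.symm
      have h2 : (WithLp.toLp 2 y.rep : EN M) = b • x := by
        ext i
        exact (congrFun hb i).symm
      show pr (WithLp.toLp 2 y.rep : EN M) = pr x
      rw [h2, pr_smul _ hb0]
  hyp := by
    refine ⟨{x | ∃ hx : x.ofLp ≠ 0, IsRegularEnd Y V e' (Projectivization.mk ℂ x.ofLp hx)}, ?_, ?_⟩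
    · intro x hxD
      obtain ⟨k, nd, hor, σ₀, τ₀, y, c, hch, hc, hcx⟩ := exists_endchart h he hxD
      obtain ⟨hx0, hxY⟩ := id hxD.1
      have hy : Projectivization.mk ℂ x.ofLp hx0 = y := mk_center hch.1 hc hcx hx0
      by_cases hb : (nd || hor) = true
      · right
        obtain ⟨T, hT1, hT2⟩ := hT k nd hor σ₀ τ₀ y c hch hc
        rw [hcx] at hT2
        exact ⟨T, hT1.trans hb, hT2⟩
      · left
        have hnd : nd = false := by
          cases nd with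
          | false => rfl
          | true => simp at hb
        have hho : hor = false := by
          cases hor with
          | false => rfl
          | true => simp at hb
        subst hnd hho
        have hk : k = 1 := hch.2.2.1 rfl
        subst hk
        refine ⟨hx0, ?_⟩
        rw [hy]
        exact ⟨σ₀, τ₀, hch⟩
    · intro F hF hFR z w
      have hne : ∀ z, (F z).ofLp ≠ 0 := fun z => (hFR z).1
      have hall := hhyp (fun z => Projectivization.mk ℂ (F z).ofLp (hne z)) (by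
        intro z _
        exact ⟨fun w => (F w).ofLp, Pool.Agent.H36.BP.analyticAt_ofLp (hF.analyticAt z), Eventually.of_forall fun w => ⟨hne w, rfl⟩⟩) (fun z => (hFR z).2)
      have h2 := hall z w
      rw [Projectivization.mk_eq_mk_iff'] at h2
      obtain ⟨b, hb⟩ := h2
      refine ⟨b, ?_⟩
      ext i
      exact (congrFun hb i).symm

end Pool.Agent.H6.LU

end
end

section

/-!
# LV EndT: the charts over `0` and `∞` (the field `D_end` of `EndData`)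

`endF`: the sets `XX`, `V` and the function `u` in an end chart.  `exists_ex`: near the centre of the chart the boundary curve is in `P` or not in `P`.
`endB`: the bound of the form (if the boundary curve is not in `P`: maximum principle in the second variable).
-/

set_option autoImplicit false

open Topology Filter Metric

noncomputable section

namespace Pool.Agent.H87.LV

attribute [-instance] ProperSMul.toContinuousSMul

open Pool.Agent.H17 (PN HolomorphicInto)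
open Pool.Agent.H36.BP (EN coneOf coneOf_smul ne_zero_of_ofLp ofLp_ne_zero IsGermChart)
open Pool.Agent.H4.LU (Mem val IsParam IsInner IsHorChart IsEndChart IsEnd IsRegularEnd IsModel Over IsTangent IsLogForm)
open Pool.Agent.H62.EL (TForm)
open Pool.Agent.H14.PP (jac)
open Pool.Agent.EG.LE (cf cf_change Lp Typ IsEndT)
open Pool.Agent.EG.RL (rot)
open Pool.Agent.H6.LU

variable {M : ℕ} {Y V : Set (PN M)} {e : PN M → ℂ} {m : ℕ} {Ω : ℂ → (Fin (M + 1) → ℂ) → (Fin (M + 1) → ℂ) → (Fin (M + 1) → ℂ) → ℂ}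
  {P : Set (EN M)} {a : ℂ}

/-- the sets and the function in an end chart -/
theorem endF (h : IsModel Y V e) (a : ℂ) {e' : PN M → ℂ} {ε : ℂ} (he : EE e e' ε) {k : ℕ} {nd hor : Bool} {σ : ℂ × ℂ → EN M} {τ : EN M → ℂ × ℂ}
    {x : EN M} (hE : ECh Y V e' k nd hor σ τ x) : ∀ᶠ p in 𝓝 (0 : ℂ × ℂ), σ p ∈ coneOf Y ∧ (σ p ∈ XX Y V e ↔ p.1 ≠ 0 ∧ (nd = true → p.2 ≠ 0)) ∧
      (σ p ∈ coneOf V ↔ p.1 ≠ 0 ∧ (nd = true ∨ hor = true → p.2 ≠ 0)) ∧
      (σ p ∈ XX Y V e → Complex.exp (ε * uu V e a (σ p)) = Complex.exp (-(ε * a)) * (p.1 * p.2 ^ (if nd = true then 1 else 0))) := by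
  have hval : ∀ p : ℂ × ℂ, (if nd = true then p.1 * p.2 else p.1) = p.1 * p.2 ^ (if nd = true then 1 else 0) := by
    intro p
    by_cases hn : nd = true
    · simp [hn]
    · simp [hn]
  have hback : ∀ᶠ p in 𝓝 (0 : ℂ × ℂ), p.1 ≠ 0 → (nd = true → p.2 ≠ 0) → σ p ∈ XX Y V e := by
    cases nd with
    | true =>
      filter_upwards [hE.form] with p hp h1 h2
      exact V_sub_XX h (hp.1.2 ⟨h1, fun _ => h2 rfl⟩)
    | false =>
      have hk : k = 1 := hE.nd_k rfl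
      subst hk
      have hlim := tendsto_chart (e := e') (V := V) h.sub hE.gp (E := fun p => p.1) (Eventually.of_forall fun p => continuousAt_fst) (by
        filter_upwards [hE.form] with p hp hpV
        have := hp.2 hpV
        simpa using this)
      filter_upwards [hlim, hE.gp.mem] with p h1 h2 h3 _
      exact (he.mem h h2 h3 h1 a).1
  filter_upwards [hE.limit, hback, hE.form, hE.gp.mem] with p h1 h2 h3 h4
  have h5 : σ p ∈ XX Y V e → ∃ w : ℂ, w ≠ 0 ∧ Tendsto (ev e') (𝓝[coneOf V] (σ p)) (𝓝 w) ∧ w = if nd = true then p.1 * p.2 else p.1 := by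
    intro hX
    obtain ⟨w, hw, hlim⟩ := he.lim hX
    exact ⟨w, hw, hlim, h1 w hlim⟩
  refine ⟨h4, ⟨fun hX => ?_, fun hp => h2 hp.1 hp.2⟩, h3.1, fun hX => ?_⟩
  · obtain ⟨w, hw, -, hw'⟩ := h5 hX
    by_cases hn : nd = true
    · rw [if_pos hn] at hw'
      rw [hw'] at hw
      exact ⟨left_ne_zero_of_mul hw, fun _ => right_ne_zero_of_mul hw⟩
    · rw [if_neg hn] at hw'
      rw [hw'] at hw
      exact ⟨hw, fun h6 => absurd h6 hn⟩
  · obtain ⟨w, hw, hlim, hw'⟩ := h5 hX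
    rw [(he.mem h h4 hw hlim a).2, hw', hval]

/-- near the centre of an end chart the boundary curve is in `P` or not in `P` -/
theorem exists_ex (h : IsModel Y V e) (a : ℂ) {e' : PN M → ℂ} {ε : ℂ} (he : EE e e' ε) {k : ℕ} {nd hor : Bool} {σ : ℂ × ℂ → EN M} {τ : EN M → ℂ × ℂ}
    {x : EN M} (hE : ECh Y V e' k nd hor σ τ x) (P_sub : P ⊆ DH Y V e) (P_closed : ∀ x ∈ XX Y V e, x ∉ P → ∀ᶠ y in 𝓝 x, y ∉ P)
    (P_open : ∀ x ∈ P, ∀ᶠ y in 𝓝 x, y ∈ DH Y V e → y ∈ P) : ∃ ex : Bool, (nd = true → ex = true) ∧ (ex = true → (nd || hor) = true) ∧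
      ∀ᶠ p in 𝓝 (0 : ℂ × ℂ), σ p ∈ XX Y V e \ P ↔ p.1 ≠ 0 ∧ (ex = true → p.2 ≠ 0) := by
  have hF := endF h a he hE
  have hσ : Tendsto σ (𝓝 0) (𝓝 x) := by
    have h1 := hE.gp.σ_an.continuousAt.tendsto
    rwa [hE.gp.center] at h1
  by_cases hb : nd = true ∨ hor = false
  · have h1 := hσ.eventually (no_DH h he hE hb)
    refine ⟨nd, id, fun hn => by simp [hn], ?_⟩
    filter_upwards [hF, h1] with p hp h2
    rw [← hp.2.1]
    exact ⟨fun h3 => h3.1, fun h3 => ⟨h3, fun h4 => h2 (P_sub h4)⟩⟩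
  · push Not at hb
    obtain ⟨hnd, hho⟩ := hb
    have hnd' : nd = false := by simpa using hnd
    have hho' : hor = true := by simpa using hho
    subst hnd' hho'
    obtain ⟨r, hr, hball⟩ := Metric.eventually_nhds_iff_ball.1 (hF.and hE.gp.σ_an.eventually_analyticAt)
    have hmem : ∀ s : ℂ, s ∈ ball (0 : ℂ) r → ((s, 0) : ℂ × ℂ) ∈ ball (0 : ℂ × ℂ) r := by
      intro s hs
      rw [mem_ball_zero_iff] at hs
      rw [mem_ball_zero_iff, Prod.norm_def, max_lt_iff]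
      exact ⟨hs, by simpa using hr⟩
    have hDH : ∀ s : ℂ, s ∈ ball (0 : ℂ) r → s ≠ 0 → σ (s, 0) ∈ DH Y V e := by
      intro s hs hs0
      have h1 := (hball _ (hmem s hs)).1
      refine ⟨h1.2.1.2 ⟨hs0, fun h2 => by simp at h2⟩, fun h2 => ?_⟩
      exact (h1.2.2.1.1 h2).2 (Or.inr rfl) rfl
    have hcs : ∀ s : ℂ, s ∈ ball (0 : ℂ) r → Tendsto (fun s' : ℂ => σ (s', 0)) (𝓝 s) (𝓝 (σ (s, 0))) := by
      intro s hs
      have h1 := (hball _ (hmem s hs)).2.continuousAt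
      have h2 : Tendsto (fun s' : ℂ => ((s', 0) : ℂ × ℂ)) (𝓝 s) (𝓝 (s, 0)) := by
        have h3 : Continuous fun s' : ℂ => ((s', 0) : ℂ × ℂ) := by fun_prop
        exact h3.tendsto s
      exact h1.tendsto.comp h2
    have hU : IsOpen {s : ℂ | ∀ᶠ s' in 𝓝 s, σ (s', 0) ∈ P} := isOpen_setOfPred_eventually_nhds
    have hU' : IsOpen {s : ℂ | ∀ᶠ s' in 𝓝 s, σ (s', 0) ∉ P} := isOpen_setOfPred_eventually_nhds
    have hdis : Disjoint {s : ℂ | ∀ᶠ s' in 𝓝 s, σ (s', 0) ∈ P} {s : ℂ | ∀ᶠ s' in 𝓝 s, σ (s', 0) ∉ P} := by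
      rw [Set.disjoint_left]
      intro s h1 h2
      exact h2.self_of_nhds h1.self_of_nhds
    have hcov : ball (0 : ℂ) r \ {0} ⊆ {s : ℂ | ∀ᶠ s' in 𝓝 s, σ (s', 0) ∈ P} ∪ {s : ℂ | ∀ᶠ s' in 𝓝 s, σ (s', 0) ∉ P} := by
      rintro s ⟨hs, hs0⟩
      by_cases hsP : σ (s, 0) ∈ P
      · left
        have h1 := (hcs s hs).eventually (P_open _ hsP)
        have h2 : ∀ᶠ s' in 𝓝 s, s' ∈ ball (0 : ℂ) r := isOpen_ball.mem_nhds hs
        have h3 : ∀ᶠ s' in 𝓝 s, s' ≠ 0 := isOpen_compl_singleton.mem_nhds hs0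
        show ∀ᶠ s' in 𝓝 s, σ (s', 0) ∈ P
        filter_upwards [h1, h2, h3] with s' h4 h5 h6
        exact h4 (hDH s' h5 h6)
      · right
        exact (hcs s hs).eventually (P_closed _ (hDH s hs hs0).1 hsP)
    have hpre := preconnected_punct 0 r
    have key : (∀ s ∈ ball (0 : ℂ) r, s ≠ 0 → σ (s, 0) ∈ P) ∨ ∀ s ∈ ball (0 : ℂ) r, s ≠ 0 → σ (s, 0) ∉ P := by
      rcases hpre.subset_or_subset hU hU' hdis hcov with h1 | h1
      · left
        intro s hs hs0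
        exact (h1 ⟨hs, hs0⟩).self_of_nhds
      · right
        intro s hs hs0
        exact (h1 ⟨hs, hs0⟩).self_of_nhds
    have hfst : ∀ p : ℂ × ℂ, p ∈ ball (0 : ℂ × ℂ) r → p.1 ∈ ball (0 : ℂ) r := by
      intro p hp
      rw [mem_ball_zero_iff, Prod.norm_def, max_lt_iff] at hp
      rw [mem_ball_zero_iff]
      exact hp.1
    have hPV : ∀ p : ℂ × ℂ, p ∈ ball (0 : ℂ × ℂ) r → p.2 ≠ 0 → σ p ∉ P := by
      intro p hp hp2 hP
      obtain ⟨h1, h2⟩ := P_sub hP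
      have h3 := (hball p hp).1
      exact h2 (h3.2.2.1.2 ⟨(h3.2.1.1 h1).1, fun _ => hp2⟩)
    rcases key with h1 | h1
    · refine ⟨true, fun _ => rfl, fun _ => rfl, ?_⟩
      filter_upwards [ball_mem_nhds (0 : ℂ × ℂ) hr] with p hp
      have h3 := (hball p hp).1
      constructor
      · rintro ⟨h4, h5⟩
        have h6 := (h3.2.1.1 h4).1
        refine ⟨h6, fun _ h7 => h5 ?_⟩
        have h8 : p = (p.1, 0) := Prod.ext rfl h7
        rw [h8]
        exact h1 p.1 (hfst p hp) h6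
      · rintro ⟨h4, h5⟩
        exact ⟨h3.2.1.2 ⟨h4, fun h6 => by simp at h6⟩, hPV p hp (h5 rfl)⟩
    · refine ⟨false, fun h2 => h2, fun h2 => by simp at h2, ?_⟩
      filter_upwards [ball_mem_nhds (0 : ℂ × ℂ) hr] with p hp
      have h3 := (hball p hp).1
      constructor
      · rintro ⟨h4, -⟩
        exact ⟨(h3.2.1.1 h4).1, fun h6 => by simp at h6⟩
      · rintro ⟨h4, -⟩
        refine ⟨h3.2.1.2 ⟨h4, fun h6 => by simp at h6⟩, ?_⟩
        by_cases h5 : p.2 = 0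
        · have h8 : p = (p.1, 0) := Prod.ext rfl h5
          rw [h8]
          exact h1 p.1 (hfst p hp) h4
        · exact hPV p hp h5

end Pool.Agent.H87.LV

end
end

section

/-!
# LV EndU: the bound of the form in the charts over `0` and `∞`; the charts of `EndData`
-/

set_option autoImplicit false

open Topology Filter Metric

noncomputable section

namespace Pool.Agent.H87.LV

attribute [-instance] ProperSMul.toContinuousSMul

open Pool.Agent.H17 (PN HolomorphicInto)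
open Pool.Agent.H36.BP (EN coneOf coneOf_smul ne_zero_of_ofLp ofLp_ne_zero IsGermChart)
open Pool.Agent.H4.LU (Mem val IsParam IsInner IsHorChart IsEndChart IsEnd IsRegularEnd IsModel Over IsTangent IsLogForm)
open Pool.Agent.H62.EL (TForm)
open Pool.Agent.H14.PP (jac)
open Pool.Agent.EG.LE (cf cf_change Lp Typ IsEndT)
open Pool.Agent.EG.RL (rot)
open Pool.Agent.H6.LU

variable {M : ℕ} {Y V : Set (PN M)} {e : PN M → ℂ} {m : ℕ} {Ω : ℂ → (Fin (M + 1) → ℂ) → (Fin (M + 1) → ℂ) → (Fin (M + 1) → ℂ) → ℂ}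
  {P : Set (EN M)} {a : ℂ}

/-- membership in the period group -/
theorem lam_iff {ε : ℂ} (hε : ε = 1 ∨ ε = -1) {w t : ℂ} : w - t ∈ Lam ↔ Complex.exp (ε * w) = Complex.exp (ε * t) := by
  rw [sub_mem_Lam]
  rcases hε with rfl | rfl
  · rw [one_mul, one_mul]
  · rw [neg_one_mul, neg_one_mul, Complex.exp_neg, Complex.exp_neg, inv_inj]

/-- the bound of the form in an end chart -/
theorem endB (h : IsModel Y V e) (hΩ : IsLogForm Y V e m Ω) (a : ℂ) {α' : TForm (XX Y V e \ P) Lam (uu V e a)}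
    (hal : ∀ z, ∀ x ∈ XX Y V e, x ∉ DH Y V e → ∀ v w, α'.toFun z x v w = (tf h hΩ a (XX_diff h)).toFun z x v w)
    {e' : PN M → ℂ} {ε : ℂ} (he : EE e e' ε) {k : ℕ} {nd hor : Bool} {σ₀ : ℂ × ℂ → Fin (M + 1) → ℂ} {τ₀ : (Fin (M + 1) → ℂ) → ℂ × ℂ} {y : PN M}
    {c : ℂ} (hc : c ≠ 0) (hch : IsEndChart Y V e' k nd hor σ₀ τ₀ y) {ex : Bool} (hnd : nd = true → ex = true) (hex : ex = true → (nd || hor) = true)
    (hP : ∀ᶠ p in 𝓝 (0 : ℂ × ℂ), c • lp M (σ₀ p) ∈ XX Y V e \ P ↔ p.1 ≠ 0 ∧ (ex = true → p.2 ≠ 0)) :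
    ∃ C : ℝ, ∀ᶠ p in 𝓝 (0 : ℂ × ℂ), Lp ex p ≠ 0 → ∀ t : ℂ, uu V e a (c • lp M (σ₀ p)) - t ∈ Lam →
      ‖Lp ex p * cf α' (fun p => c • lp M (σ₀ p)) t p‖ ≤ C := by
  have hE := ech_of_end (x := c • lp M (σ₀ 0)) hch hc rfl
  have hF := endF h a he hE
  obtain ⟨C₀, hC₀, hbd⟩ := end_bound h hΩ a (XX_diff h) he hch hc
  have hcf : ∀ p : ℂ × ℂ, c • lp M (σ₀ p) ∈ coneOf V → ∀ t : ℂ, cf α' (fun p => c • lp M (σ₀ p)) t p =
      cf (tf h hΩ a (XX_diff h)) (fun p => c • lp M (σ₀ p)) t p := by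
    intro p hp t
    unfold cf
    exact hal t _ (V_sub_XX h hp) (fun h1 => h1.2 hp) _ _
  by_cases hcase : ex = true ∨ (nd || hor) = false
  · refine ⟨C₀, ?_⟩
    filter_upwards [hF, hbd] with p h1 h2 hL t ht
    have hV : c • lp M (σ₀ p) ∈ coneOf V := by
      rw [h1.2.2.1]
      rcases hcase with h3 | h3
      · unfold Lp at hL
        rw [if_pos h3] at hL
        exact ⟨left_ne_zero_of_mul hL, fun _ => right_ne_zero_of_mul hL⟩
      · have h4 : ¬ (nd = true ∨ hor = true) := by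
          rw [← Bool.or_eq_true, h3]
          simp
        have h5 : ex ≠ true := by
          intro h6
          have h7 := hex h6
          rw [h3] at h7
          simp at h7
        unfold Lp at hL
        rw [if_neg h5, mul_one] at hL
        exact ⟨hL, fun h6 => absurd h6 h4⟩
    rw [hcf p hV]
    have h3 := h2 hV t ht
    have h4 : (if nd = true ∨ hor = true then p.1 * p.2 else p.1) = Lp ex p := by
      unfold Lp
      rcases hcase with h5 | h5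
      · rw [if_pos h5, if_pos]
        rw [← Bool.or_eq_true]
        exact hex h5
      · have h6 : ¬ (nd = true ∨ hor = true) := by
          rw [← Bool.or_eq_true, h5]
          simp
        have h7 : ex ≠ true := by
          intro h8
          have h9 := hex h8
          rw [h5] at h9
          simp at h9
        rw [if_neg h6, if_neg h7, mul_one]
    rwa [h4] at h3
  · push Not at hcase
    obtain ⟨hx1, hx2⟩ := hcase
    have hx : ex = false := by simpa using hx1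
    have hor' : (nd || hor) = true := Bool.eq_true_of_not_eq_false hx2
    have hnd' : nd = false := by
      by_contra h1
      have h2 : nd = true := by simpa using h1
      exact hx1 (hnd h2)
    subst hx hnd'
    have hho : hor = true := by simpa using hor'
    subst hho
    obtain ⟨r, hr, hball⟩ := Metric.eventually_nhds_iff_ball.1 (((hF.and hE.gp.σ_an.eventually_analyticAt).and hbd).and hP)
    refine ⟨C₀ / (r / 2), ?_⟩
    filter_upwards [ball_mem_nhds (0 : ℂ × ℂ) (half_pos hr)] with p hp hL t ht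
    have hL' : Lp false p = p.1 := by
      unfold Lp
      simp
    rw [hL'] at hL ⊢
    rw [mem_ball_zero_iff, Prod.norm_def, max_lt_iff] at hp
    have hmem : ∀ s : ℂ, ‖s‖ < r → ((p.1, s) : ℂ × ℂ) ∈ ball (0 : ℂ × ℂ) r := by
      intro s hs
      rw [mem_ball_zero_iff, Prod.norm_def, max_lt_iff]
      exact ⟨by linarith [hp.1], hs⟩
    have hexp : ∀ s : ℂ, ‖s‖ < r → Complex.exp (ε * uu V e a (c • lp M (σ₀ (p.1, s)))) = Complex.exp (-(ε * a)) * p.1 := by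
      intro s hs
      have h1 := (hball _ (hmem s hs)).1.1.1
      have h2 := h1.2.2.2 (h1.2.1.2 ⟨hL, fun h3 => by simp at h3⟩)
      simpa using h2
    have hpp : p = (p.1, p.2) := rfl
    have hexpt : Complex.exp (ε * t) = Complex.exp (-(ε * a)) * p.1 := by
      rw [← (lam_iff he.eps).1 ht, hpp]
      exact hexp p.2 (by linarith [hp.2])
    have hut : ∀ s : ℂ, ‖s‖ < r → uu V e a (c • lp M (σ₀ (p.1, s))) - t ∈ Lam := by
      intro s hs
      rw [lam_iff he.eps, hexp s hs, hexpt]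
    have hεε : ε * ε = 1 := by
      rcases he.eps with rfl | rfl <;> norm_num
    -- the function on the line
    have han : ∀ s : ℂ, ‖s‖ < r → AnalyticAt ℂ (fun s : ℂ => p.1 * cf α' (fun p => c • lp M (σ₀ p)) t (p.1, s)) s := by
      intro s hs
      have hq := hball _ (hmem s hs)
      have hυ : AnalyticAt ℂ (fun q : ℂ × ℂ => t + ε * Complex.log (q.1 / p.1)) (p.1, s) := by
        have h1 : AnalyticAt ℂ (fun q : ℂ × ℂ => q.1 / p.1) (p.1, s) := analyticAt_fst.div analyticAt_const hL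
        refine analyticAt_const.add (analyticAt_const.mul (h1.clog ?_))
        show p.1 / p.1 ∈ Complex.slitPlane
        rw [div_self hL]
        exact Complex.one_mem_slitPlane
      have hev : ∀ᶠ q in 𝓝 ((p.1, s) : ℂ × ℂ), c • lp M (σ₀ q) ∈ XX Y V e \ P ∧ uu V e a (c • lp M (σ₀ q)) - (t + ε * Complex.log (q.1 / p.1)) ∈ Lam := by
        have h1 : ∀ᶠ q : ℂ × ℂ in 𝓝 (p.1, s), q.1 ≠ 0 := continuousAt_fst.eventually_ne hL
        filter_upwards [h1, isOpen_ball.mem_nhds (hmem s hs)] with q hq1 hq2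
        have h2 := hball q hq2
        have h3 : c • lp M (σ₀ q) ∈ XX Y V e := h2.1.1.1.2.1.2 ⟨hq1, fun h4 => by simp at h4⟩
        refine ⟨h2.2.2 ⟨hq1, fun h4 => by simp at h4⟩, ?_⟩
        have h4 := h2.1.1.1.2.2.2 h3
        have h5 : ε * (t + ε * Complex.log (q.1 / p.1)) = ε * t + Complex.log (q.1 / p.1) := by
          rw [mul_add, ← mul_assoc, hεε, one_mul]
        rw [lam_iff he.eps, h4, h5, Complex.exp_add, hexpt, Complex.exp_log (div_ne_zero hq1 hL)]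
        simp only [Bool.false_eq_true, if_false, pow_zero, mul_one]
        field_simp
      have h1 := α'.analytic (fun q => c • lp M (σ₀ q)) (fun q => t + ε * Complex.log (q.1 / p.1)) (p.1, s) hq.1.1.2 hυ hev
      have h2 : AnalyticAt ℂ (fun s' : ℂ => ((p.1, s') : ℂ × ℂ)) s := analyticAt_const.prod analyticAt_id
      have h3 := AnalyticAt.comp (f := fun s' : ℂ => ((p.1, s') : ℂ × ℂ)) h1 h2
      refine analyticAt_const.mul (h3.congr ?_)
      filter_upwards with s'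
      show α'.toFun (t + ε * Complex.log (p.1 / p.1)) _ _ _ = cf α' (fun p => c • lp M (σ₀ p)) t (p.1, s')
      rw [div_self hL, Complex.log_one, mul_zero, add_zero]
      rfl
    have hbs : ∀ s : ℂ, ‖s‖ = r / 2 → ‖p.1 * cf α' (fun p => c • lp M (σ₀ p)) t (p.1, s)‖ ≤ C₀ / (r / 2) := by
      intro s hs
      have hsr : ‖s‖ < r := by
        rw [hs]
        linarith
      have hs0 : s ≠ 0 := by
        rintro rfl
        rw [norm_zero] at hs
        linarith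
      have h1 := hball _ (hmem s hsr)
      have hV : c • lp M (σ₀ (p.1, s)) ∈ coneOf V := h1.1.1.1.2.2.1.2 ⟨hL, fun _ => hs0⟩
      have h2 := h1.1.2 hV t (hut s hsr)
      rw [if_pos (Or.inr rfl)] at h2
      rw [hcf _ hV, le_div_iff₀ (by linarith), ← hs, ← norm_mul]
      have h3 : p.1 * cf (tf h hΩ a (XX_diff h)) (fun p => c • lp M (σ₀ p)) t (p.1, s) * s =
          (p.1, s).1 * (p.1, s).2 * cf (tf h hΩ a (XX_diff h)) (fun p => c • lp M (σ₀ p)) t (p.1, s) := by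
        show _ = p.1 * s * _
        ring
      rw [h3]
      exact h2
    have hmax := Complex.norm_le_of_forall_mem_frontier_norm_le (f := fun s : ℂ => p.1 * cf α' (fun p => c • lp M (σ₀ p)) t (p.1, s))
      (U := ball (0 : ℂ) (r / 2)) (C := C₀ / (r / 2)) (z := p.2) isBounded_ball ?_ ?_ (subset_closure ?_)
    · exact hmax
    · refine DifferentiableOn.diffContOnCl fun s hs => ?_
      have h1 : s ∈ closedBall (0 : ℂ) (r / 2) := closure_ball_subset_closedBall hs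
      rw [mem_closedBall_zero_iff] at h1
      exact (han s (by linarith)).differentiableAt.differentiableWithinAt
    · intro s hs
      rw [frontier_ball (0 : ℂ) (by positivity : r / 2 ≠ 0), mem_sphere_zero_iff_norm] at hs
      exact hbs s hs
    · rw [mem_ball_zero_iff]
      exact hp.2

/-- the scaling of the first coordinate -/
def scl (κ : ℂ) : ℂ × ℂ →L[ℂ] ℂ × ℂ := (κ • ContinuousLinearMap.fst ℂ ℂ ℂ).prod (ContinuousLinearMap.snd ℂ ℂ ℂ)

theorem scl_apply (κ : ℂ) (q : ℂ × ℂ) : scl κ q = (κ * q.1, q.2) := rfl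

theorem jac_scl (κ : ℂ) (q : ℂ × ℂ) : jac (scl κ) q = κ := by
  unfold jac
  rw [(scl κ).fderiv, scl_apply, scl_apply]
  simp

theorem scl_tendsto (κ : ℂ) : Tendsto (scl κ) (𝓝 0) (𝓝 0) := by
  have h1 := (scl κ).continuous.tendsto 0
  rwa [map_zero] at h1

/-- the charts, for both ends -/
theorem endE (h : IsModel Y V e) (hΩ : IsLogForm Y V e m Ω) (a : ℂ) (P_sub : P ⊆ DH Y V e) (P_smul : ∀ x ∈ P, ∀ c : ℂ, c ≠ 0 → c • x ∈ P)
    (P_closed : ∀ x ∈ XX Y V e, x ∉ P → ∀ᶠ y in 𝓝 x, y ∉ P) (P_open : ∀ x ∈ P, ∀ᶠ y in 𝓝 x, y ∈ DH Y V e → y ∈ P)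
    {α' : TForm (XX Y V e \ P) Lam (uu V e a)}
    (hal : ∀ z, ∀ x ∈ XX Y V e, x ∉ DH Y V e → ∀ v w, α'.toFun z x v w = (tf h hΩ a (XX_diff h)).toFun z x v w)
    {e' : PN M → ℂ} {ε : ℂ} (he : EE e e' ε) {k : ℕ} {nd hor : Bool} {σ₀ : ℂ × ℂ → Fin (M + 1) → ℂ} {τ₀ : (Fin (M + 1) → ℂ) → ℂ × ℂ} {y : PN M}
    {c : ℂ} (hc : c ≠ 0) (hch : IsEndChart Y V e' k nd hor σ₀ τ₀ y) :
    ∃ (T : Typ) (σ : ℂ × ℂ → EN M) (τ : EN M → ℂ × ℂ), T.eu = (nd || hor) ∧ AnalyticAt ℂ σ 0 ∧ AnalyticAt ℂ τ (c • lp M (σ₀ 0)) ∧ σ 0 = c • lp M (σ₀ 0) ∧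
      (∀ᶠ q in 𝓝 ((1, 0) : ℂ × ℂ × ℂ), τ (q.1 • σ q.2) = (q.2.1 ^ T.k, q.2.2 ^ T.k)) ∧
      (∀ᶠ p in 𝓝 (0 : ℂ × ℂ), σ p ∈ coneOf Y ∧ (σ p ∈ XX Y V e \ P ↔ p.1 ≠ 0 ∧ (T.ex = true → p.2 ≠ 0)) ∧
        (σ p ∈ XX Y V e \ DH Y V e ↔ p.1 ≠ 0 ∧ (T.eu = true → p.2 ≠ 0)) ∧
        (σ p ∈ XX Y V e \ P → Complex.exp (ε * uu V e a (σ p)) = p.1 * p.2 ^ T.b)) ∧
      (∀ W ∈ 𝓝 (0 : ℂ × ℂ), ∀ᶠ y in 𝓝 (c • lp M (σ₀ 0)), y ∈ coneOf Y → ∃ p ∈ W, ∃ c : ℂ, c ≠ 0 ∧ y = c • σ p) ∧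
      (∀ ζ : ℂ, ζ ^ T.k = 1 → ∀ᶠ p in 𝓝 (0 : ℂ × ℂ), ∃ c : ℂ, c ≠ 0 ∧ σ (rot ζ p) = c • σ p) ∧
      ∃ C : ℝ, ∀ᶠ p in 𝓝 (0 : ℂ × ℂ), Lp T.ex p ≠ 0 → ∀ t : ℂ, Complex.exp t = p.1 * p.2 ^ T.b → ‖Lp T.ex p * cf α' σ (ε * t) p‖ ≤ C := by
  have hE := ech_of_end (x := c • lp M (σ₀ 0)) hch hc rfl
  have hF := endF h a he hE
  obtain ⟨ex, hnd, hex, hP⟩ := exists_ex h a he hE P_sub P_closed P_open
  obtain ⟨C, hC⟩ := endB h hΩ a hal he hc hch hnd hex hP
  set κ : ℂ := Complex.exp (ε * a) with hκ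
  have hκ0 : κ ≠ 0 := Complex.exp_ne_zero _
  set σ₁ : ℂ × ℂ → EN M := fun p => c • lp M (σ₀ p) with hσ₁
  set τ₁ : EN M → ℂ × ℂ := fun x => τ₀ (pl M (c⁻¹ • x)) with hτ₁
  have hgp : GP (coneOf Y) k σ₁ τ₁ (c • lp M (σ₀ 0)) := hE.gp
  have hk := hE.k_pos
  have hx0 : c • lp M (σ₀ 0) ≠ 0 := hE.ne
  have hS := scl_tendsto κ
  have hs0 : scl κ 0 = 0 := map_zero _
  have hεε : ε * ε = 1 := by
    rcases he.eps with rfl | rfl <;> norm_num
  have hb01 : (if nd = true then 1 else 0 : ℕ) ≤ 1 := by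
    by_cases hn : nd = true
    · simp [hn]
    · simp [hn]
  have hσan : AnalyticAt ℂ (fun q => σ₁ (scl κ q)) 0 := by
    have h1 : AnalyticAt ℂ σ₁ (scl κ 0) := by
      rw [hs0]
      exact hgp.σ_an
    exact h1.comp ((scl κ).analyticAt 0)
  refine ⟨⟨ex, (nd || hor), if nd = true then 1 else 0, k, hex, hb01, ?_, hk, ?_⟩, fun q => σ₁ (scl κ q), fun x => (κ⁻¹ ^ k * (τ₁ x).1, (τ₁ x).2), rfl,
    hσan, ?_, ?_, ?_, ?_, ?_, ?_, C, ?_⟩
  · intro hb
    by_cases hn : nd = true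
    · exact hnd hn
    · simp [hn] at hb
  · by_cases hn : nd = true
    · right
      simp [hn]
    · left
      exact hE.nd_k (by simpa using hn)
  · have h1 := hgp.τ_an
    exact (analyticAt_const.mul (analyticAt_fst.comp h1)).prod (analyticAt_snd.comp h1)
  · show σ₁ (scl κ 0) = _
    rw [hs0]
  · -- the coordinates
    have h1 : ∀ᶠ q in 𝓝 ((1, 0) : ℂ × ℂ × ℂ), τ₁ (q.1 • σ₁ (scl κ q.2)) = τ₁ (σ₁ (scl κ q.2)) := by
      have h2 : Tendsto (fun q : ℂ × ℂ × ℂ => (σ₁ (scl κ q.2), q.1)) (𝓝 (1, 0)) (𝓝 (c • lp M (σ₀ 0), 1)) := by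
        have h3 : ContinuousAt (fun q : ℂ × ℂ × ℂ => σ₁ (scl κ q.2)) (1, 0) :=
          ContinuousAt.comp (g := fun q => σ₁ (scl κ q)) (f := fun q : ℂ × ℂ × ℂ => q.2) (x := ((1, 0) : ℂ × ℂ × ℂ)) hσan.continuousAt continuousAt_snd
        have h4 := h3.prodMk (continuousAt_fst : ContinuousAt (fun q : ℂ × ℂ × ℂ => q.1) (1, 0))
        have h5 : (σ₁ (scl κ ((1, 0) : ℂ × ℂ × ℂ).2), ((1, 0) : ℂ × ℂ × ℂ).1) = (c • lp M (σ₀ 0), (1 : ℂ)) := by
          show (σ₁ (scl κ 0), (1 : ℂ)) = _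
          rw [hs0]
        have h6 := h4.tendsto
        rwa [h5] at h6
      exact h2.eventually hgp.inv
    have h2 : ∀ᶠ q in 𝓝 ((1, 0) : ℂ × ℂ × ℂ), τ₁ (σ₁ (scl κ q.2)) = ((scl κ q.2).1 ^ k, (scl κ q.2).2 ^ k) := by
      have h3 : Tendsto (fun q : ℂ × ℂ × ℂ => scl κ q.2) (𝓝 (1, 0)) (𝓝 0) := by
        have h4 : Tendsto (fun q : ℂ × ℂ × ℂ => q.2) (𝓝 (1, 0)) (𝓝 0) := continuous_snd.tendsto _
        exact hS.comp h4
      exact h3.eventually hgp.coord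
    filter_upwards [h1, h2] with q h3 h4
    show (κ⁻¹ ^ k * (τ₁ (q.1 • σ₁ (scl κ q.2))).1, (τ₁ (q.1 • σ₁ (scl κ q.2))).2) = (q.2.1 ^ k, q.2.2 ^ k)
    rw [h3, h4, scl_apply]
    show (κ⁻¹ ^ k * (κ * q.2.1) ^ k, q.2.2 ^ k) = (q.2.1 ^ k, q.2.2 ^ k)
    rw [← mul_pow, ← mul_assoc, inv_mul_cancel₀ hκ0, one_mul]
  · -- the sets
    filter_upwards [hS.eventually hF, hS.eventually hP] with q h1 h2
    have h3 : (scl κ q).1 ≠ 0 ↔ q.1 ≠ 0 := by
      rw [scl_apply]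
      show κ * q.1 ≠ 0 ↔ _
      rw [mul_ne_zero_iff]
      exact ⟨fun h => h.2, fun h => ⟨hκ0, h⟩⟩
    refine ⟨h1.1, ?_, ?_, fun hq => ?_⟩
    · show σ₁ (scl κ q) ∈ _ ↔ _
      rw [h2, h3]
      rfl
    · show σ₁ (scl κ q) ∈ _ ↔ _
      rw [XX_diff h, h1.2.2.1, h3]
      show _ ∧ (_ → q.2 ≠ 0) ↔ q.1 ≠ 0 ∧ ((nd || hor) = true → q.2 ≠ 0)
      rw [Bool.or_eq_true]
    · show Complex.exp (ε * uu V e a (σ₁ (scl κ q))) = q.1 * q.2 ^ (if nd = true then 1 else 0)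
      rw [h1.2.2.2 hq.1, scl_apply]
      show Complex.exp (-(ε * a)) * (κ * q.1 * q.2 ^ _) = _
      rw [Complex.exp_neg, ← hκ]
      field_simp
  · intro W hW
    have h1 : (scl κ⁻¹) ⁻¹' W ∈ 𝓝 (0 : ℂ × ℂ) := scl_tendsto κ⁻¹ hW
    filter_upwards [hgp.near hk hx0 h1 univ_mem] with y hy hyY
    obtain ⟨b, p, hb, -, hp, hyp, -⟩ := hy hyY
    refine ⟨scl κ⁻¹ p, hp, b, hb, ?_⟩
    show y = b • σ₁ (scl κ (scl κ⁻¹ p))
    have h2 : scl κ (scl κ⁻¹ p) = p := by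
      rw [scl_apply, scl_apply]
      show (κ * (κ⁻¹ * p.1), p.2) = p
      rw [← mul_assoc, mul_inv_cancel₀ hκ0, one_mul]
    rw [h2]
    exact hyp
  · intro ζ hζ
    filter_upwards [hS.eventually hgp.quot] with q hq
    obtain ⟨b, hb, h1⟩ := hq ζ hζ
    refine ⟨b, hb, ?_⟩
    show σ₁ (scl κ (rot ζ q)) = b • σ₁ (scl κ q)
    rw [← h1]
    congr 1
    rw [scl_apply, scl_apply]
    show (κ * (ζ * q.1), ζ⁻¹ * q.2) = (ζ * (κ * q.1), ζ⁻¹ * q.2)
    rw [mul_left_comm]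
  · -- the bound
    filter_upwards [hS.eventually hC, hS.eventually hF, hS.eventually hP.eventually_nhds, hS.eventually hgp.σ_an.eventually_analyticAt]
      with q h1 h2 h3 h4 hL t ht
    have hL1 : Lp ex (scl κ q) = κ * Lp ex q := by
      unfold Lp
      rw [scl_apply]
      show κ * q.1 * _ = κ * (q.1 * _)
      ring
    have hL2 : Lp ex (scl κ q) ≠ 0 := by
      rw [hL1]
      exact mul_ne_zero hκ0 hL
    have hq1 : q.1 ≠ 0 := by
      have h5 : Lp ex q ≠ 0 := hL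
      unfold Lp at h5
      exact left_ne_zero_of_mul h5
    have hq2 : ex = true → q.2 ≠ 0 := by
      intro h6
      have h5 : Lp ex q ≠ 0 := hL
      unfold Lp at h5
      rw [if_pos h6] at h5
      exact right_ne_zero_of_mul h5
    have hmem : σ₁ (scl κ q) ∈ XX Y V e \ P := h3.self_of_nhds.2 ⟨by
      rw [scl_apply]
      exact mul_ne_zero hκ0 hq1, hq2⟩
    have hut : uu V e a (σ₁ (scl κ q)) - ε * t ∈ Lam := by
      rw [lam_iff he.eps, ← mul_assoc, hεε, one_mul, h2.2.2.2 hmem.1, ht, scl_apply]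
      show Complex.exp (-(ε * a)) * (κ * q.1 * q.2 ^ _) = _
      rw [Complex.exp_neg, ← hκ]
      field_simp
    have hVev : ∀ᶠ p in 𝓝 (scl κ q), σ₁ p ∈ XX Y V e \ P := by
      have h5 : ∀ᶠ p : ℂ × ℂ in 𝓝 (scl κ q), p.1 ≠ 0 := continuousAt_fst.eventually_ne (by
        rw [scl_apply]
        exact mul_ne_zero hκ0 hq1)
      by_cases h6 : ex = true
      · have h7 : ∀ᶠ p : ℂ × ℂ in 𝓝 (scl κ q), p.2 ≠ 0 := continuousAt_snd.eventually_ne (hq2 h6)
        filter_upwards [h3, h5, h7] with p h8 h9 h10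
        exact h8.2 ⟨h9, fun _ => h10⟩
      · filter_upwards [h3, h5] with p h8 h9
        exact h8.2 ⟨h9, fun h10 => absurd h10 h6⟩
    have hcone : ∀ x ∈ XX Y V e \ P, ∀ c : ℂ, c ≠ 0 → c • x ∈ XX Y V e \ P := by
      rintro x ⟨hx, hxP⟩ b hb
      refine ⟨(ocone_XX Y V e).smul_mem _ hx b hb, fun h5 => hxP ?_⟩
      have h6 := P_smul _ h5 b⁻¹ (inv_ne_zero hb)
      rwa [smul_smul, inv_mul_cancel₀ hb, one_smul] at h6
    have hcf := cf_change (α := α') (fun h5 => (ocone_XX Y V e).zero_notMem h5.1) hcone (φ := fun q => σ₁ (scl κ q)) (ψ := σ₁) (τ := scl κ) (p := q)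
      (t := ε * t) (h4.comp ((scl κ).analyticAt q)) h4 ((scl κ).analyticAt q) hVev hut (Eventually.of_forall fun p => ⟨1, one_ne_zero, (one_smul _ _).symm⟩)
    have h5 := h1 hL2 (ε * t) hut
    show ‖Lp ex q * cf α' (fun q => σ₁ (scl κ q)) (ε * t) q‖ ≤ C
    rw [hcf, jac_scl]
    have h6 : Lp ex q * (cf α' σ₁ (ε * t) (scl κ q) * κ) = Lp ex (scl κ q) * cf α' σ₁ (ε * t) (scl κ q) := by
      rw [hL1]
      ring
    rw [h6]
    exact h5

/-- **The charts over `0`.** -/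
theorem endT_left (h : IsModel Y V e) (hΩ : IsLogForm Y V e m Ω) (a : ℂ) (P_sub : P ⊆ DH Y V e) (P_smul : ∀ x ∈ P, ∀ c : ℂ, c ≠ 0 → c • x ∈ P)
    (P_closed : ∀ x ∈ XX Y V e, x ∉ P → ∀ᶠ y in 𝓝 x, y ∉ P) (P_open : ∀ x ∈ P, ∀ᶠ y in 𝓝 x, y ∈ DH Y V e → y ∈ P)
    {α' : TForm (XX Y V e \ P) Lam (uu V e a)}
    (hal : ∀ z, ∀ x ∈ XX Y V e, x ∉ DH Y V e → ∀ v w, α'.toFun z x v w = (tf h hΩ a (XX_diff h)).toFun z x v w)
    {k : ℕ} {nd hor : Bool} {σ₀ : ℂ × ℂ → Fin (M + 1) → ℂ} {τ₀ : (Fin (M + 1) → ℂ) → ℂ × ℂ} {y : PN M}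
    {c : ℂ} (hc : c ≠ 0) (hch : IsEndChart Y V e k nd hor σ₀ τ₀ y) :
    ∃ T : Typ, T.eu = (nd || hor) ∧ IsEndT (coneOf Y) (XX Y V e \ P) (XX Y V e \ DH Y V e) α' T (c • lp M (σ₀ 0)) := by
  obtain ⟨T, σ, τ, h0, h1, h2, h3, h4, h5, h6, h7, h8⟩ := endE h hΩ a P_sub P_smul P_closed P_open hal (Or.inl ⟨rfl, rfl⟩ : EE e e 1) hc hch
  simp only [one_mul] at h5 h8
  exact ⟨T, h0, σ, τ, h1, h2, h3, h4, h5, h6, h7, h8⟩

/-- **The charts over `∞`.** -/
theorem endT_right (h : IsModel Y V e) (hΩ : IsLogForm Y V e m Ω) (a : ℂ) (P_sub : P ⊆ DH Y V e) (P_smul : ∀ x ∈ P, ∀ c : ℂ, c ≠ 0 → c • x ∈ P)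
    (P_closed : ∀ x ∈ XX Y V e, x ∉ P → ∀ᶠ y in 𝓝 x, y ∉ P) (P_open : ∀ x ∈ P, ∀ᶠ y in 𝓝 x, y ∈ DH Y V e → y ∈ P)
    {α' : TForm (XX Y V e \ P) Lam (uu V e a)}
    (hal : ∀ z, ∀ x ∈ XX Y V e, x ∉ DH Y V e → ∀ v w, α'.toFun z x v w = (tf h hΩ a (XX_diff h)).toFun z x v w)
    {k : ℕ} {nd hor : Bool} {σ₀ : ℂ × ℂ → Fin (M + 1) → ℂ} {τ₀ : (Fin (M + 1) → ℂ) → ℂ × ℂ} {y : PN M}
    {c : ℂ} (hc : c ≠ 0) (hch : IsEndChart Y V (fun y => (e y)⁻¹) k nd hor σ₀ τ₀ y) :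
    ∃ T : Typ, T.eu = (nd || hor) ∧ IsEndT (coneOf Y) (XX Y V e \ P) (XX Y V e \ DH Y V e) α'.refl T (c • lp M (σ₀ 0)) := by
  obtain ⟨T, σ, τ, h0, h1, h2, h3, h4, h5, h6, h7, C, h8⟩ := endE h hΩ a P_sub P_smul P_closed P_open hal
    (Or.inr ⟨rfl, rfl⟩ : EE e (fun y => (e y)⁻¹) (-1)) hc hch
  simp only [neg_one_mul] at h5 h8
  refine ⟨T, h0, σ, τ, h1, h2, h3, h4, h5, h6, h7, C, ?_⟩
  filter_upwards [h8] with p hp hL t ht
  have h9 := hp hL t ht
  have h10 : cf α'.refl σ t p = -cf α' σ (-t) p := rfl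
  rw [h10, mul_neg, norm_neg]
  exact h9

end Pool.Agent.H87.LV

end
end
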