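import Pool.Agent.H94.CB.M02
import Pool.Agent.H94.CB.M11
import Pool.Agent.H94.CB.M20
import Pool.Agent.H94.CB.M21
import Pool.Agent.H94.CB.M34

/-! The parts of this file: H15.V.Liou, H5.BD.CDm. -/

section

/-!
# V Liou: differentials of bounded weight are constant along entire curves of order two

`F` is an entire curve (without zeros) with `mean log ‖F‖ ≤ A (1 + r²)` over the circles of radius `r`, and `s` is an entire function with
`‖s‖ ≤ C fs (F, F') ^ m`.  Then `s` is constant.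

If not, then the averages of `‖s‖ ^ (2/m)` over large circles are large (`growth`), so the averages of `fs²` over finitely many rotations
are large on `t₁ ≤ ‖z‖ ≤ r` (`riemann`); the product of the functions `‖F (rot z)‖ ^ (1/N)` is compared with the radial function
`β z = b (‖z‖² - t₁² - 2 t₁² log (‖z‖ / t₁))` (`barrier`).
-/

set_option autoImplicit false

open Topology Filter Metric

namespace Pool.Agent.H15.V

attribute [-instance] ProperSMul.toContinuousSMul

open Pool.Agent.H36.BP (EN fs wd Sub)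

variable {N : ℕ}

theorem Sub_prod {ι : Type} (S : Finset ι) {u : ι → ℂ → ℝ} {z₀ : ℂ} {c : ι → ℝ} (h : ∀ j ∈ S, Sub (u j) z₀ (c j)) :
    Sub (fun z => ∏ j ∈ S, u j z) z₀ (∑ j ∈ S, c j) := by
  classical
  induction S using Finset.induction_on with
  | empty =>
    refine (Pool.Agent.H36.BP.Sub.const one_pos z₀).congr (Filter.Eventually.of_forall fun z => ?_)
    simp
  | insert a S ha ih =>
    rw [Finset.sum_insert ha]
    refine ((h a (Finset.mem_insert_self _ _)).mul (ih fun j hj => h j (Finset.mem_insert_of_mem hj))).congr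
      (Filter.Eventually.of_forall fun z => ?_)
    rw [Finset.prod_insert ha]

/-- the radial barrier -/
noncomputable def bar (b t₁ x : ℝ) : ℝ := b * (x ^ 2 - t₁ ^ 2 - 2 * t₁ ^ 2 * Real.log (x / t₁))

theorem bar_nonneg {b t₁ x : ℝ} (hb : 0 ≤ b) (ht : 0 < t₁) (hx : 0 < x) : 0 ≤ bar b t₁ x := by
  refine mul_nonneg hb ?_
  have h1 : 2 * Real.log (x / t₁) = Real.log ((x / t₁) ^ 2) := by
    rw [Real.log_pow]
    norm_num
  have h2 := Real.log_le_sub_one_of_pos (show 0 < (x / t₁) ^ 2 by positivity)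
  have h3 : t₁ ^ 2 * (2 * Real.log (x / t₁)) ≤ t₁ ^ 2 * ((x / t₁) ^ 2 - 1) := by
    rw [h1]
    exact mul_le_mul_of_nonneg_left h2 (by positivity)
  have h4 : t₁ ^ 2 * ((x / t₁) ^ 2 - 1) = x ^ 2 - t₁ ^ 2 := by field_simp
  linarith

theorem bar_self {b t₁ : ℝ} (ht : 0 < t₁) : bar b t₁ t₁ = 0 := by
  rw [bar, div_self ht.ne', Real.log_one]
  ring

theorem Sub_bar {b t₁ : ℝ} (hb : 0 ≤ b) (ht : 0 < t₁) {z₀ : ℂ} (hz : t₁ ≤ ‖z₀‖) :
    Sub (fun z => Real.exp (-bar b t₁ (max ‖z‖ t₁))) z₀ (-b) := by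
  have hz0 : z₀ ≠ 0 := fun h => by rw [h, norm_zero] at hz; linarith
  have h1 : Sub (fun z : ℂ => Real.exp (-b * ‖z‖ ^ 2)) z₀ (-b) := by
    have h := Pool.Agent.H36.BP.Sub.exp_sq (t := fun z : ℂ => z) (z₀ := z₀) analyticAt_id (-b)
    simpa using h
  have h2 : Sub (fun z : ℂ => ‖z‖ ^ (2 * b * t₁ ^ 2)) z₀ 0 := by
    have h := (Pool.Agent.H36.BP.Sub.of_holo (h := fun z : ℂ => z) (z₀ := z₀) analyticAt_id hz0).rpow (r := 2 * b * t₁ ^ 2) (by positivity)
    simpa using h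
  have h3 := (h1.mul h2).const_mul (a := Real.exp (b * t₁ ^ 2 - 2 * b * t₁ ^ 2 * Real.log t₁)) (Real.exp_pos _)
  rw [add_zero] at h3
  have hq : ∀ z : ℂ, z ≠ 0 → Real.exp (b * t₁ ^ 2 - 2 * b * t₁ ^ 2 * Real.log t₁) * (Real.exp (-b * ‖z‖ ^ 2) * ‖z‖ ^ (2 * b * t₁ ^ 2)) =
      Real.exp (-bar b t₁ ‖z‖) := by
    intro z hz
    have hzn := norm_pos_iff.2 hz
    rw [Real.rpow_def_of_pos hzn, ← Real.exp_add, ← Real.exp_add, bar, Real.log_div hzn.ne' ht.ne']
    congr 1
    ring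
  have hne : ∀ᶠ z in 𝓝 z₀, z ≠ 0 := isOpen_ne.mem_nhds hz0
  refine h3.mono ?_ ?_
  · show Real.exp _ * _ = _
    rw [hq z₀ hz0, max_eq_left hz]
  · filter_upwards [hne] with z hz'
    show Real.exp _ * _ ≤ _
    rw [hq z hz', Real.exp_le_exp, neg_le_neg_iff]
    rcases le_total t₁ ‖z‖ with h | h
    · rw [max_eq_left h]
    · rw [max_eq_right h, bar_self ht]
      exact bar_nonneg hb ht (norm_pos_iff.2 hz')

theorem barrier {F : ℂ → EN N} (hF : Differentiable ℂ F) (h0 : ∀ z, F z ≠ 0) {n : ℕ} (hn : 1 ≤ n) {b t₁ r : ℝ} (hb : 0 < b) (ht : 0 < t₁)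
    (htr : t₁ < r) (hlow : ∀ z : ℂ, t₁ ≤ ‖z‖ → ‖z‖ ≤ r →
      b ≤ (n : ℝ)⁻¹ * ∑ j ∈ Finset.range n, fs (F (rot n j * z)) (deriv F (rot n j * z)) ^ 2 / 2) :
    bar b t₁ r ≤ Real.circleAverage (fun z => Real.log ‖F z‖) 0 r - Real.log ‖F 0‖ + 2 := by
  have hr : 0 < r := ht.trans htr
  have hn0 : (0 : ℝ) < n := by exact_mod_cast hn
  obtain ⟨W, hW⟩ : ∃ W : ℂ → ℝ, ∀ z, W z = ∏ j ∈ Finset.range n, ‖F (rot n j * z)‖ ^ ((n : ℝ)⁻¹) := ⟨_, fun _ => rfl⟩
  have hWpos : ∀ z, 0 < W z := fun z => by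
    rw [hW]
    exact Finset.prod_pos fun j _ => Real.rpow_pos_of_pos (norm_pos_iff.2 (h0 _)) _
  have hlogW : ∀ z, Real.log (W z) = (n : ℝ)⁻¹ * ∑ j ∈ Finset.range n, Real.log ‖F (rot n j * z)‖ := by
    intro z
    rw [hW, Real.log_prod (fun j _ => (Real.rpow_pos_of_pos (norm_pos_iff.2 (h0 _)) _).ne'), Finset.mul_sum]
    exact Finset.sum_congr rfl fun j _ => Real.log_rpow (norm_pos_iff.2 (h0 _)) _
  have hcF : ∀ j, Continuous fun z => ‖F (rot n j * z)‖ := fun j =>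
    (hF.continuous.comp (continuous_const.mul continuous_id)).norm
  have hWc : Continuous W := by
    have : W = fun z => ∏ j ∈ Finset.range n, ‖F (rot n j * z)‖ ^ ((n : ℝ)⁻¹) := funext hW
    rw [this]
    exact continuous_finsetProd _ fun j _ => (hcF j).rpow_const fun z => Or.inr (inv_pos.2 hn0).le
  have hlogFc : Continuous fun z => Real.log ‖F z‖ := hF.continuous.norm.log fun z => norm_ne_zero_iff.2 (h0 z)
  have hlogWc : Continuous fun z => Real.log (W z) := hWc.log fun z => (hWpos z).ne'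
  have hWsub : ∀ z₀, Sub W z₀ ((n : ℝ)⁻¹ * ∑ j ∈ Finset.range n, fs (F (rot n j * z₀)) (deriv F (rot n j * z₀)) ^ 2 / 2) := by
    intro z₀
    have hj : ∀ j ∈ Finset.range n, Sub (fun z => ‖F (rot n j * z)‖ ^ ((n : ℝ)⁻¹)) z₀
        ((n : ℝ)⁻¹ * fs (F (rot n j * z₀)) (deriv F (rot n j * z₀)) ^ 2 / 2) := by
      intro j _
      have hd : HasDerivAt (fun z => F (rot n j * z)) (rot n j • deriv F (rot n j * z₀)) z₀ := by
        have h1 : HasDerivAt (fun z : ℂ => rot n j * z) (rot n j) z₀ := by simpa using (hasDerivAt_id z₀).const_mul (rot n j)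
        exact HasDerivAt.scomp z₀ (hF (rot n j * z₀)).hasDerivAt h1
      have han : AnalyticAt ℂ (fun z => F (rot n j * z)) z₀ :=
        (hF.comp ((differentiable_const _).mul differentiable_id)).analyticAt z₀
      have h2 := Pool.Agent.H36.BP.Sub.norm_rpow han (h0 _) ((n : ℝ)⁻¹)
      rw [hd.deriv, Pool.Agent.H36.BP.fs_smul_right, norm_rot, one_mul] at h2
      exact h2
    have h3 := Sub_prod (Finset.range n) hj
    have e : ∑ j ∈ Finset.range n, ((n : ℝ)⁻¹ * fs (F (rot n j * z₀)) (deriv F (rot n j * z₀)) ^ 2 / 2) =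
        (n : ℝ)⁻¹ * ∑ j ∈ Finset.range n, fs (F (rot n j * z₀)) (deriv F (rot n j * z₀)) ^ 2 / 2 := by
      rw [Finset.mul_sum]
      exact Finset.sum_congr rfl fun j _ => by ring
    rw [e] at h3
    exact h3.congr (Filter.Eventually.of_forall fun z => (hW z).symm)
  obtain ⟨g, hg, hgW⟩ := Pool.Agent.H36.BP.circle_approx hr (fun z => Real.log (W z)) hlogWc.continuousOn one_pos
  have hMc : Continuous fun z : ℂ => max ‖z‖ t₁ := continuous_norm.max continuous_const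
  have hM0 : ∀ z : ℂ, 0 < max ‖z‖ t₁ := fun z => lt_max_of_lt_right ht
  have hbc : Continuous fun z : ℂ => bar b t₁ (max ‖z‖ t₁) := by
    unfold bar
    refine continuous_const.mul (((hMc.pow 2).sub continuous_const).sub (continuous_const.mul ?_))
    exact (hMc.div_const t₁).log fun z => (div_pos (hM0 z) ht).ne'
  have key : ∀ ε : ℝ, 0 < ε → Real.log (W 0) - (g 0).re ≤ 1 - bar b t₁ r + ε * r ^ 2 := by
    intro ε hε
    obtain ⟨w, hw⟩ : ∃ w : ℂ → ℝ, ∀ z, w z = W z * ‖Complex.exp (-g z)‖ * Real.exp (-bar b t₁ (max ‖z‖ t₁)) * Real.exp (ε * ‖z‖ ^ 2) :=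
      ⟨_, fun _ => rfl⟩
    have hwc : Continuous w := by
      have : w = fun z => W z * ‖Complex.exp (-g z)‖ * Real.exp (-bar b t₁ (max ‖z‖ t₁)) * Real.exp (ε * ‖z‖ ^ 2) := funext hw
      rw [this]
      have h1 : Continuous fun z => ‖Complex.exp (-g z)‖ := (Complex.continuous_exp.comp hg.continuous.neg).norm
      exact ((hWc.mul h1).mul (Real.continuous_exp.comp hbc.neg)).mul
        (Real.continuous_exp.comp (continuous_const.mul (continuous_norm.pow 2)))
    have hsub : ∀ z ∈ ball (0 : ℂ) r, 0 < w z → ∃ c, 0 < c ∧ Sub w z c := by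
      intro z₀ hz₀ _
      rw [mem_ball_zero_iff] at hz₀
      have hS1 := hWsub z₀
      have hS2 : Sub (fun z => ‖Complex.exp (-g z)‖) z₀ 0 :=
        Pool.Agent.H36.BP.Sub.of_holo ((hg.analyticAt z₀).neg.cexp) (Complex.exp_ne_zero _)
      have hS4 : Sub (fun z : ℂ => Real.exp (ε * ‖z‖ ^ 2)) z₀ ε := by
        have h := Pool.Agent.H36.BP.Sub.exp_sq (t := fun z : ℂ => z) (z₀ := z₀) analyticAt_id ε
        simpa using h
      rcases lt_or_ge ‖z₀‖ t₁ with hlt | hge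
      · have hS3 : Sub (fun z => Real.exp (-bar b t₁ (max ‖z‖ t₁))) z₀ 0 := by
          refine (Pool.Agent.H36.BP.Sub.const one_pos z₀).congr ?_
          have hev : ∀ᶠ z in 𝓝 z₀, ‖z‖ < t₁ := (isOpen_lt continuous_norm continuous_const).mem_nhds hlt
          filter_upwards [hev] with z hz
          rw [max_eq_right hz.le, bar_self ht, neg_zero, Real.exp_zero]
        have hS := ((hS1.mul hS2).mul hS3).mul hS4
        refine ⟨_, ?_, hS.congr (Filter.Eventually.of_forall fun z => (hw z).symm)⟩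
        have hnn : 0 ≤ (n : ℝ)⁻¹ * ∑ j ∈ Finset.range n, fs (F (rot n j * z₀)) (deriv F (rot n j * z₀)) ^ 2 / 2 :=
          mul_nonneg (inv_pos.2 hn0).le (Finset.sum_nonneg fun j _ => by positivity)
        linarith
      · have hS3 := Sub_bar hb.le ht hge
        have hS := ((hS1.mul hS2).mul hS3).mul hS4
        refine ⟨_, ?_, hS.congr (Filter.Eventually.of_forall fun z => (hw z).symm)⟩
        have := hlow z₀ hge hz₀.le
        linarith
    have hmax := Pool.Agent.H36.BP.max_principle (isCompact_closedBall (0 : ℂ) r) isOpen_ball ball_subset_closedBall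
      hwc.continuousOn.upperSemicontinuousOn hsub (A := Real.exp (1 - bar b t₁ r + ε * r ^ 2)) (Real.exp_pos _).le (by
        rintro z ⟨hz1, hz2⟩
        have hzr : ‖z‖ = r := by
          rw [mem_closedBall_zero_iff] at hz1
          rw [mem_ball_zero_iff, not_lt] at hz2
          exact le_antisymm hz1 hz2
        have h1 := hgW z (by rw [mem_sphere_zero_iff_norm]; exact hzr)
        rw [hw, ← Real.exp_log (hWpos z), Complex.norm_exp, ← Real.exp_add, ← Real.exp_add, ← Real.exp_add, hzr,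
          max_eq_left htr.le, Real.exp_le_exp]
        have h2 := (abs_le.1 h1).1
        simp only [Complex.neg_re]
        linarith)
    have h1 := hmax 0 (mem_closedBall_self hr.le)
    rw [hw, ← Real.exp_log (hWpos 0), Complex.norm_exp, ← Real.exp_add, ← Real.exp_add, ← Real.exp_add, norm_zero,
      max_eq_right ht.le, bar_self ht, Real.exp_le_exp] at h1
    simp only [Complex.neg_re] at h1
    linarith
  have key2 : Real.log (W 0) - (g 0).re ≤ 1 - bar b t₁ r := by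
    refine le_of_forall_pos_le_add fun δ hδ => ?_
    have h1 := key (δ / r ^ 2) (by positivity)
    rwa [div_mul_cancel₀ _ (by positivity)] at h1
  have hW0 : Real.log (W 0) = Real.log ‖F 0‖ := by
    rw [hlogW]
    simp only [mul_zero, Finset.sum_const, Finset.card_range, nsmul_eq_mul]
    field_simp
  have hgre : (g 0).re = Real.circleAverage (fun z => (g z).re) 0 r := by
    have hgd : DiffContOnCl ℂ g (ball 0 |r|) := hg.diffContOnCl
    have h1 := hgd.circleAverage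
    have h2 := ContinuousLinearMap.circleAverage_comp_comm Complex.reCLM (f := g) (c := (0 : ℂ)) (R := r)
      (hg.continuous.continuousOn.circleIntegrable')
    rw [h1] at h2
    exact h2.symm
  have hav : Real.circleAverage (fun z => (g z).re) 0 r ≤ Real.circleAverage (fun z => Real.log ‖F z‖) 0 r + 1 := by
    have hlogWint : CircleIntegrable (fun z => Real.log (W z)) 0 r := hlogWc.continuousOn.circleIntegrable'
    have h1 : Real.circleAverage (fun z => (g z).re) 0 r ≤ Real.circleAverage (fun z => Real.log (W z) + 1) 0 r := by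
      refine Real.circleAverage_mono (Complex.continuous_re.comp hg.continuous).continuousOn.circleIntegrable'
        (hlogWc.add continuous_const).continuousOn.circleIntegrable' fun z hz => ?_
      rw [abs_of_pos hr] at hz
      have := (abs_le.1 (hgW z hz)).2
      show (g z).re ≤ Real.log (W z) + 1
      linarith
    have h2 : Real.circleAverage (fun z => Real.log (W z) + 1) 0 r = Real.circleAverage (fun z => Real.log (W z)) 0 r + 1 := by
      rw [Real.circleAverage_fun_add hlogWint (circleIntegrable_const _ _ _), Real.circleAverage_const]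
    have h3 : Real.circleAverage (fun z => Real.log (W z)) 0 r = Real.circleAverage (fun z => Real.log ‖F z‖) 0 r := by
      have e1 : (fun z => Real.log (W z)) = fun z => (n : ℝ)⁻¹ • ∑ j ∈ Finset.range n, Real.log ‖F (rot n j * z)‖ := by
        funext z
        rw [hlogW, smul_eq_mul]
      rw [e1, Real.circleAverage_fun_smul]
      have e2 : (fun z => ∑ j ∈ Finset.range n, Real.log ‖F (rot n j * z)‖) = fun z => ∑ j ∈ Finset.range n, (fun j z => Real.log ‖F (rot n j * z)‖) j z := rfl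
      have hint : ∀ j ∈ Finset.range n, CircleIntegrable (fun z => Real.log ‖F (rot n j * z)‖) 0 r := fun j _ =>
        ((hcF j).log fun z => norm_ne_zero_iff.2 (h0 _)).continuousOn.circleIntegrable'
      rw [Real.circleAverage_fun_sum hint]
      have e3 : ∀ j ∈ Finset.range n, Real.circleAverage (fun z => Real.log ‖F (rot n j * z)‖) 0 r = Real.circleAverage (fun z => Real.log ‖F z‖) 0 r :=
        fun j _ => circleAverage_rot (fun z => Real.log ‖F z‖) n j hr.le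
      rw [Finset.sum_congr rfl e3, Finset.sum_const, Finset.card_range, nsmul_eq_mul, smul_eq_mul]
      field_simp
    rw [h2, h3] at h1
    exact h1
  rw [hW0] at key2
  linarith

end Pool.Agent.H15.V

end

section

/-!
# BD CDm: the functions `d = qc A i F (ψ z) - qc A i G z` and `Dm`

Let `h : MC ...` with constants `c₁`, `K ≥ K₀ ≥ 1`, `C = A.C`, and `K₂ = 100 C K³ (1 + 1 / c₁)` or a similar constant.
(1) Let `w ∈ closedBall w₀ (2 r₂)` with `dist (pr (G z)) (pr (F w)) ≤ ε`; `‖qc A i F w - qc A i G z‖ ≤ C ε` (`le_dist`, `goodF`, `goodG`), by `near` `‖w - ψ z‖ ≤ K C ε`, and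
`‖qc A i F w - qc A i F (ψ z)‖ ≤ K ‖w - ψ z‖` (mean value inequality on the convex set `closedBall w₀ (2 r₂)`, `der_le` for the good points).  So `‖d z‖ ≤ (1 + K²) C ε`.
(2) `d` is holomorphic on `ball z₀ (2 r₃)`.  For `z ∈ closedBall z₀ (s / 2)` Cauchy's estimate on `ball z (s / 2) ⊆ closedBall z₀ s` gives `‖d' z‖ ≤ 2 (1 + K²) C ε / s`.  `d' = ψ' • p_F' (ψ) - p_G'` with
`p_F' = deriv (qc A i F)`, `p_G' = deriv (qc A i G)` (chain rule).  `det2` is bilinear and alternating, so `det2 (p_F' (ψ z)) (p_G' z) = - det2 (p_F' (ψ z)) (d' z)`, of norm `≤ 2 K ‖d' z‖`.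
(3) `co e (d z) = 0` on `ball z₀ (2 r₃)`, so `co e (d' z) = 0`, `co e (p_G' z) = ψ' z * co e (p_F' (ψ z))`, and (both cases of `e`) `‖Dm z‖ = ‖d z‖ ‖co e (p_G' z)‖`.  By `coF`
`‖co e (p_G' z)‖ ≥ ‖ψ' z‖ / K`, and `c₁ ≤ ‖p_G' z‖ ≤ ‖ψ' z‖ K + ‖d' z‖`; if `‖d' z‖ ≤ c₁ / 2` then `‖ψ' z‖ ≥ c₁ / (2 K)` and `‖d z‖ ≤ (2 K² / c₁) ‖Dm z‖`.
(4) `Dm` is holomorphic.
-/

set_option autoImplicit false

open Topology Filter Metric

namespace Pool.Agent.H5.BD

attribute [-instance] ProperSMul.toContinuousSMul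

open Pool.Agent.H36.BP (EN fs wd)
open Pool.Agent.H14.PP (IsCone Chart Form Tan jac)
open Pool.Agent.H62.EF (MN pr det2)

variable {N : ℕ} {X : Set (EN N)} {A : Atlas X} {c L r₀ c₁ K₀ r₂ r₃ ε₃ K : ℝ}

/-- bounds for `d` and `Dm` -/
structure DmBound (A : Atlas X) (F G : ℂ → EN N) (i : Fin A.n) (z₀ : ℂ) (ψ : ℂ → ℂ) (s ε K₂ : ℝ) : Prop where
  le : ∀ z ∈ closedBall z₀ s, ‖qc A i F (ψ z) - qc A i G z‖ ≤ K₂ * ε
  angle : ∀ z ∈ closedBall z₀ (s / 2), ‖det2 (deriv (qc A i F) (ψ z)) (deriv (qc A i G) z)‖ ≤ K₂ * (ε / s)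
  lower : K₂ * (ε / s) ≤ 1 → ∀ z ∈ closedBall z₀ (s / 2), ‖qc A i F (ψ z) - qc A i G z‖ ≤ K₂ * ‖Dm A F G i ψ z‖

private theorem CDm_co_fst_snd (e : Bool) (p q : ℂ × ℂ) : co e (p - q) = co e p - co e q := by
  cases e <;> simp [co]

private theorem CDm_det2_norm (a b : ℂ × ℂ) : ‖det2 a b‖ ≤ 2 * ‖a‖ * ‖b‖ := by
  unfold det2
  have h1 : ‖a.1 * b.2‖ ≤ ‖a‖ * ‖b‖ := by
    rw [norm_mul]
    exact mul_le_mul (norm_fst_le a) (norm_snd_le b) (norm_nonneg _) (norm_nonneg _)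
  have h2 : ‖a.2 * b.1‖ ≤ ‖a‖ * ‖b‖ := by
    rw [norm_mul]
    exact mul_le_mul (norm_snd_le a) (norm_fst_le b) (norm_nonneg _) (norm_nonneg _)
  calc ‖a.1 * b.2 - a.2 * b.1‖ ≤ ‖a.1 * b.2‖ + ‖a.2 * b.1‖ := norm_sub_le _ _
    _ ≤ 2 * ‖a‖ * ‖b‖ := by nlinarith

private theorem CDm_det2_co (e : Bool) (d b : ℂ × ℂ) (h : co e d = 0) : ‖det2 d b‖ = ‖d‖ * ‖co e b‖ := by
  cases e
  · have h2 : d.2 = 0 := by simpa [co] using h
    have h3 : ‖d‖ = ‖d.1‖ := by
      rw [Prod.norm_def, h2, norm_zero]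
      exact max_eq_left (norm_nonneg _)
    have h4 : co false b = b.2 := by simp [co]
    unfold det2
    rw [h3, h4, h2, zero_mul, sub_zero, norm_mul]
  · have h2 : d.1 = 0 := by simpa [co] using h
    have h3 : ‖d‖ = ‖d.2‖ := by
      rw [Prod.norm_def, h2, norm_zero]
      exact max_eq_right (norm_nonneg _)
    have h4 : co true b = b.1 := by simp [co]
    unfold det2
    rw [h3, h4, h2, zero_mul, zero_sub, norm_neg, norm_mul]

private theorem CDm_co_deriv (e : Bool) {f : ℂ → ℂ × ℂ} {v : ℂ × ℂ} {z : ℂ} (hf : HasDerivAt f v z) :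
    HasDerivAt (fun z => co e (f z)) (co e v) z := by
  cases e
  · have h1 := (hasFDerivAt_snd (𝕜 := ℂ) (E := ℂ) (F := ℂ) (p := f z)).comp_hasDerivAt z hf
    simpa [co, Function.comp_def] using h1
  · have h1 := (hasFDerivAt_fst (𝕜 := ℂ) (E := ℂ) (F := ℂ) (p := f z)).comp_hasDerivAt z hf
    simpa [co, Function.comp_def] using h1

private theorem CDm_hasDeriv (h : MC A c L r₀ c₁ K₀ r₂ r₃ ε₃ K) {F G : ℂ → EN N} (hF : F ∈ BC X c L) (hG : G ∈ BC X c L)
    {i : Fin A.n} {w₀ z₀ : ℂ} {e : Bool} {ψ : ℂ → ℂ} (hm : Match A r₂ r₃ K F G i w₀ z₀ e ψ) {z : ℂ} (hz : z ∈ ball z₀ (2 * r₃)) :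
    HasDerivAt (fun z => qc A i F (ψ z) - qc A i G z) (deriv ψ z • deriv (qc A i F) (ψ z) - deriv (qc A i G) z) z := by
  have h1 : HasDerivAt ψ (deriv ψ z) z := ((hm.hol z hz).differentiableAt (isOpen_ball.mem_nhds hz)).hasDerivAt
  have hψ : ψ z ∈ closedBall w₀ (2 * r₂) := by
    have := hm.mem z hz
    rw [mem_closedBall] at this ⊢
    have h2 := h.r₂_pos
    linarith
  have h2 : HasDerivAt (qc A i F) (deriv (qc A i F) (ψ z)) (ψ z) :=
    (h.lc.an F hF i _ (hm.goodF _ hψ)).differentiableAt.hasDerivAt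
  have h3 : HasDerivAt (qc A i G) (deriv (qc A i G) z) z :=
    (h.lc.an G hG i _ (hm.goodG _ hz)).differentiableAt.hasDerivAt
  have h4 : HasDerivAt (fun z => qc A i F (ψ z)) (deriv ψ z • deriv (qc A i F) (ψ z)) z := h2.scomp z h1
  exact h4.sub h3

theorem MC.d_hol (h : MC A c L r₀ c₁ K₀ r₂ r₃ ε₃ K) {F G : ℂ → EN N} (hF : F ∈ BC X c L) (hG : G ∈ BC X c L) {i : Fin A.n} {w₀ z₀ : ℂ}
    {e : Bool} {ψ : ℂ → ℂ} (hm : Match A r₂ r₃ K F G i w₀ z₀ e ψ) :
    DifferentiableOn ℂ (fun z => qc A i F (ψ z) - qc A i G z) (ball z₀ (2 * r₃)) := by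
  intro z hz
  exact (CDm_hasDeriv h hF hG hm hz).differentiableAt.differentiableWithinAt

theorem MC.Dm_hol (h : MC A c L r₀ c₁ K₀ r₂ r₃ ε₃ K) {F G : ℂ → EN N} (hF : F ∈ BC X c L) (hG : G ∈ BC X c L) {i : Fin A.n} {w₀ z₀ : ℂ}
    {e : Bool} {ψ : ℂ → ℂ} (hm : Match A r₂ r₃ K F G i w₀ z₀ e ψ) : DifferentiableOn ℂ (Dm A F G i ψ) (ball z₀ (2 * r₃)) := by
  intro z hz
  have h1 : DifferentiableAt ℂ (fun z => qc A i F (ψ z) - qc A i G z) z := (CDm_hasDeriv h hF hG hm hz).differentiableAt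
  have h2 : DifferentiableAt ℂ (deriv (qc A i G)) z := (h.lc.an G hG i _ (hm.goodG _ hz)).deriv.differentiableAt
  have h3 : DifferentiableAt ℂ (Dm A F G i ψ) z := by
    have h4 : DifferentiableAt ℂ (fun z => ((qc A i F (ψ z) - qc A i G z).1 * (deriv (qc A i G) z).2 -
        (qc A i F (ψ z) - qc A i G z).2 * (deriv (qc A i G) z).1)) z :=
      (h1.fst.mul h2.snd).sub (h1.snd.mul h2.fst)
    exact h4
  exact h3.differentiableWithinAt

theorem MC.exists_dmBound (h : MC A c L r₀ c₁ K₀ r₂ r₃ ε₃ K) : ∃ K₂ : ℝ, 1 ≤ K₂ ∧ ∀ F ∈ BC X c L, ∀ G ∈ BC X c L, ∀ i w₀ z₀ e ψ,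
    Match A r₂ r₃ K F G i w₀ z₀ e ψ → ∀ s ε : ℝ, 0 < s → s ≤ r₃ → 0 ≤ ε →
      (∀ z ∈ closedBall z₀ s, ∃ w ∈ closedBall w₀ (2 * r₂), dist (pr (G z)) (pr (F w)) ≤ ε) → DmBound A F G i z₀ ψ s ε K₂ := by
  have hK₀ : 1 ≤ K₀ := h.lc.one_le
  have hK : 1 ≤ K := hK₀.trans h.le_K
  have hC : 1 ≤ A.C := A.one_le
  have hc₁ : 0 < c₁ := h.lc.c₁_pos
  have hr₂ : 0 < r₂ := h.r₂_pos
  have hr₃ : 0 < r₃ := h.r₃_pos
  set M : ℝ := (1 + K ^ 2) * A.C with hMdef
  have hM1 : 1 ≤ M := by rw [hMdef]; nlinarith [sq_nonneg K]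
  have hM0 : 0 < M := by linarith
  have p1 : 0 ≤ 4 * K * M := by positivity
  have p2 : 0 ≤ 4 * M / c₁ := by positivity
  have p3 : 0 ≤ 2 * K ^ 2 / c₁ := by positivity
  refine ⟨M + 4 * K * M + 4 * M / c₁ + 2 * K ^ 2 / c₁, by linarith, ?_⟩
  intro F hF G hG i w₀ z₀ e ψ hm s ε hs hsr hε hw
  have hsub : closedBall z₀ s ⊆ ball z₀ (2 * r₃) := closedBall_subset_ball (by linarith)
  -- (1)
  have hd : ∀ z ∈ closedBall z₀ s, ‖qc A i F (ψ z) - qc A i G z‖ ≤ M * ε := by
    intro z hz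
    obtain ⟨w, hwm, hwd⟩ := hw z hz
    have hzb := hsub hz
    have e1 : ‖qc A i F w - qc A i G z‖ ≤ A.C * ε := by
      have := A.le_dist i (F w) (G z) (hm.goodF w hwm) (hm.goodG z hzb)
      rw [dist_comm] at this
      exact this.trans (mul_le_mul_of_nonneg_left hwd (by linarith))
    have e2 : ‖w - ψ z‖ ≤ K * (A.C * ε) :=
      (hm.near z hzb w hwm).trans (mul_le_mul_of_nonneg_left e1 (by linarith))
    have hψ : ψ z ∈ closedBall w₀ (2 * r₂) := closedBall_subset_closedBall (by linarith) (hm.mem z hzb)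
    have e3 : ‖qc A i F (ψ z) - qc A i F w‖ ≤ K * ‖ψ z - w‖ := by
      refine Convex.norm_image_sub_le_of_norm_deriv_le (𝕜 := ℂ) (s := closedBall w₀ (2 * r₂)) ?_ ?_
        (convex_closedBall _ _) hwm hψ
      · intro x hx
        exact (h.lc.an F hF i x (hm.goodF x hx)).differentiableAt
      · intro x hx
        exact (h.lc.der_le F hF i x (hm.goodF x hx)).trans h.le_K
    have e4 : ‖ψ z - w‖ ≤ K * (A.C * ε) := by rw [norm_sub_rev]; exact e2
    have e5 : qc A i F (ψ z) - qc A i G z = (qc A i F (ψ z) - qc A i F w) + (qc A i F w - qc A i G z) := by abel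
    rw [e5]
    refine (norm_add_le _ _).trans ?_
    have e6 : K * ‖ψ z - w‖ ≤ K * (K * (A.C * ε)) := mul_le_mul_of_nonneg_left e4 (by linarith)
    have e7 : K * (K * (A.C * ε)) + A.C * ε = M * ε := by rw [hMdef]; ring
    linarith
  -- (2)
  have hd' : ∀ z ∈ closedBall z₀ (s / 2), ‖deriv ψ z • deriv (qc A i F) (ψ z) - deriv (qc A i G) z‖ ≤ 2 * M * (ε / s) := by
    intro z hz
    have hzs : closedBall z (s / 2) ⊆ closedBall z₀ s := by
      apply closedBall_subset_closedBall'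
      rw [mem_closedBall] at hz
      linarith
    have hzb : z ∈ ball z₀ (2 * r₃) := hsub (hzs (mem_closedBall_self (by linarith)))
    have h1 := (CDm_hasDeriv h hF hG hm hzb).deriv
    rw [← h1]
    have h2 : DifferentiableOn ℂ (fun z => qc A i F (ψ z) - qc A i G z) (closedBall z (s / 2)) :=
      (h.d_hol hF hG hm).mono (hzs.trans hsub)
    have h3 : DiffContOnCl ℂ (fun z => qc A i F (ψ z) - qc A i G z) (ball z (s / 2)) :=
      h2.diffContOnCl_ball subset_rfl
    have h4 := Complex.norm_deriv_le_of_forall_mem_sphere_norm_le (by linarith : 0 < s / 2) h3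
      (fun u hu => hd u (hzs (sphere_subset_closedBall hu)))
    refine h4.trans (le_of_eq ?_)
    field_simp
  have hψm : ∀ z ∈ closedBall z₀ (s / 2), z ∈ ball z₀ (2 * r₃) ∧ ψ z ∈ closedBall w₀ (2 * r₂) := by
    intro z hz
    have hzb : z ∈ ball z₀ (2 * r₃) := hsub (closedBall_subset_closedBall (by linarith) hz)
    exact ⟨hzb, closedBall_subset_closedBall (by linarith) (hm.mem z hzb)⟩
  have hεs : 0 ≤ ε / s := by positivity
  refine ⟨?_, ?_, ?_⟩
  · intro z hz
    refine (hd z hz).trans ?_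
    apply mul_le_mul_of_nonneg_right _ hε
    linarith
  · intro z hz
    obtain ⟨hzb, hψ⟩ := hψm z hz
    have a1 := hd' z hz
    set a := deriv (qc A i F) (ψ z) with ha
    set b := deriv (qc A i G) z with hb
    set d' := deriv ψ z • a - b with hd'def
    have a2 : det2 a b = - det2 a d' := by
      have : b = deriv ψ z • a - d' := by rw [hd'def]; abel
      rw [hd'def]
      simp only [det2, Prod.fst_sub, Prod.snd_sub, Prod.smul_fst, Prod.smul_snd, smul_eq_mul]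
      ring
    rw [a2, norm_neg]
    have a3 : ‖a‖ ≤ K := (h.lc.der_le F hF i _ (hm.goodF _ hψ)).trans h.le_K
    calc ‖det2 a d'‖ ≤ 2 * ‖a‖ * ‖d'‖ := CDm_det2_norm a d'
      _ ≤ 2 * K * (2 * M * (ε / s)) := by
          apply mul_le_mul _ a1 (norm_nonneg _) (by positivity)
          linarith
      _ = 4 * K * M * (ε / s) := by ring
      _ ≤ (M + 4 * K * M + 4 * M / c₁ + 2 * K ^ 2 / c₁) * (ε / s) := by
          apply mul_le_mul_of_nonneg_right _ hεs
          linarith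
  · intro hsmall z hz
    obtain ⟨hzb, hψ⟩ := hψm z hz
    have a1 := hd' z hz
    have hco0 : co e (qc A i F (ψ z) - qc A i G z) = 0 := by
      rw [CDm_co_fst_snd, hm.eq z hzb, sub_self]
    have hcod : co e (deriv ψ z • deriv (qc A i F) (ψ z) - deriv (qc A i G) z) = 0 := by
      have h1 := CDm_co_deriv e (CDm_hasDeriv h hF hG hm hzb)
      have h2 : HasDerivAt (fun z => co e (qc A i F (ψ z) - qc A i G z)) 0 z := by
        apply (hasDerivAt_const z (0 : ℂ)).congr_of_eventuallyEq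
        filter_upwards [isOpen_ball.mem_nhds hzb] with u hu
        rw [CDm_co_fst_snd, hm.eq u hu, sub_self]
      exact h1.unique h2
    set a := deriv (qc A i F) (ψ z) with ha
    set b := deriv (qc A i G) z with hb
    have a3 : ‖a‖ ≤ K := (h.lc.der_le F hF i _ (hm.goodF _ hψ)).trans h.le_K
    have a4 : c₁ ≤ ‖b‖ := h.lc.der_ge G hG i _ (hm.goodG _ hzb)
    have a5 : 1 ≤ K * ‖co e a‖ := hm.coF _ hψ
    have a6 : co e b = deriv ψ z * co e a := by
      have : co e (deriv ψ z • a) = deriv ψ z * co e a := by cases e <;> simp [co]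
      rw [CDm_co_fst_snd, this] at hcod
      exact (sub_eq_zero.1 hcod).symm
    have a7 : ‖deriv ψ z • a - b‖ ≤ c₁ / 2 := by
      refine a1.trans ?_
      have h1 : 4 * M / c₁ * (ε / s) ≤ 1 := by
        refine le_trans ?_ hsmall
        apply mul_le_mul_of_nonneg_right _ hεs
        linarith
      have h2 : 2 * M * (ε / s) = (c₁ / 2) * (4 * M / c₁ * (ε / s)) := by
        field_simp
        ring
      rw [h2]
      have := mul_le_mul_of_nonneg_left h1 (by positivity : 0 ≤ c₁ / 2)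
      linarith
    have a8 : c₁ / 2 ≤ K * ‖deriv ψ z‖ := by
      have h1 : b = deriv ψ z • a - (deriv ψ z • a - b) := by abel
      have h2 : ‖b‖ ≤ ‖deriv ψ z • a‖ + ‖deriv ψ z • a - b‖ := by
        calc ‖b‖ = ‖deriv ψ z • a - (deriv ψ z • a - b)‖ := by rw [← h1]
          _ ≤ _ := norm_sub_le _ _
      rw [norm_smul] at h2
      have h3 : ‖deriv ψ z‖ * ‖a‖ ≤ ‖deriv ψ z‖ * K := mul_le_mul_of_nonneg_left a3 (norm_nonneg _)
      nlinarith
    have a9 : c₁ / 2 ≤ K ^ 2 * ‖co e b‖ := by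
      rw [a6, norm_mul]
      have h1 : ‖deriv ψ z‖ * 1 ≤ ‖deriv ψ z‖ * (K * ‖co e a‖) := mul_le_mul_of_nonneg_left a5 (norm_nonneg _)
      have h2 : K * (‖deriv ψ z‖ * 1) ≤ K * (‖deriv ψ z‖ * (K * ‖co e a‖)) := mul_le_mul_of_nonneg_left h1 (by linarith)
      calc c₁ / 2 ≤ K * ‖deriv ψ z‖ := a8
        _ = K * (‖deriv ψ z‖ * 1) := by ring
        _ ≤ K * (‖deriv ψ z‖ * (K * ‖co e a‖)) := h2
        _ = K ^ 2 * (‖deriv ψ z‖ * ‖co e a‖) := by ring
    have a10 : ‖Dm A F G i ψ z‖ = ‖qc A i F (ψ z) - qc A i G z‖ * ‖co e b‖ := by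
      unfold Dm
      exact CDm_det2_co e _ _ hco0
    have a11 : ‖qc A i F (ψ z) - qc A i G z‖ ≤ 2 * K ^ 2 / c₁ * ‖Dm A F G i ψ z‖ := by
      rw [a10]
      have h1 : ‖qc A i F (ψ z) - qc A i G z‖ * (c₁ / 2) ≤ ‖qc A i F (ψ z) - qc A i G z‖ * (K ^ 2 * ‖co e b‖) :=
        mul_le_mul_of_nonneg_left a9 (norm_nonneg _)
      have h2 : 2 * K ^ 2 / c₁ * (‖qc A i F (ψ z) - qc A i G z‖ * ‖co e b‖) =
          (2 / c₁) * (‖qc A i F (ψ z) - qc A i G z‖ * (K ^ 2 * ‖co e b‖)) := by ring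
      rw [h2]
      have h3 : ‖qc A i F (ψ z) - qc A i G z‖ = (2 / c₁) * (‖qc A i F (ψ z) - qc A i G z‖ * (c₁ / 2)) := by
        field_simp
      calc ‖qc A i F (ψ z) - qc A i G z‖ = (2 / c₁) * (‖qc A i F (ψ z) - qc A i G z‖ * (c₁ / 2)) := h3
        _ ≤ _ := mul_le_mul_of_nonneg_left h1 (by positivity)
    refine a11.trans ?_
    apply mul_le_mul_of_nonneg_right _ (norm_nonneg _)
    linarith

end Pool.Agent.H5.BD

end
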