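import Pool.Agent.H94.CB.H62.EF.LimL
import Pool.Agent.H94.CB.M35
import Pool.Agent.H94.CB.M58
import Pool.Agent.H94.CB.M60
import Pool.Agent.H94.CB.M79

/-! The parts of this file: H5.BD.CDet, H5.BD.CRho, H62.EF.IsoA, H5.BD.CZ, H5.BD.CIso, H5.BD.CTr. -/

section

/-!
# BD CDet: comparison of `Dm` with the determinant for the nearest point, in another chart

Let `K₂` be as in `exists_dmBound`, `C = A.C`.  `ε` is small, depending on `s` and `η` (`ε ≤ ε₃`, `ε ≤ A.δ / 2`, `K₂ ε / s ≤ 1`, ...).  Let `F, G, z₀, φ, e, ψ, z, w` be as in the statement,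
`k = A.idx (pr (F (φ z₀)))`, `i = A.idx (pr (G z))`, `x = G z`, `y = F w`, `y' = F (ψ z)`, `t = ‖(χ k).q y' - (χ k).q x‖ = ‖qc A k F (ψ z) - qc A k G z‖`.  `FolAt` gives the hypothesis of
`exists_dmBound` (`φ z ∈ closedBall (φ z₀) (r₂ / 4)`), so `t ≤ K₂ ε`, `t ≤ K₂ ‖Dm z‖`, and `‖det2 (p_F' (ψ z)) g'‖ ≤ K₂ ε / s` where `p_F' = deriv (qc A k F)`, `g' = deriv (qc A k G) z`, `‖g'‖ ≤ K`.
`w ∈ closedBall (φ z) r₂ ⊆ closedBall (φ z₀) (2 r₂)`, so `y` is good for `k` (`goodF`), `x` is good for `k` (`goodG`).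
(a) `ψ z ∈ closedBall (φ z) r₂`: by `near` for `φ z`: `‖φ z - ψ z‖ ≤ K ‖qc A k F (φ z) - qc A k G z‖ ≤ K C ε ≤ r₂`.  So `dist (pr x) (pr y) ≤ dist (pr x) (pr y') ≤ C t` (`dist_le`), and
`‖(χ k).q y - (χ k).q x‖ ≤ C² t`; by `near` `‖w - ψ z‖ ≤ K C² t`.
(b) Let `ν = (χ k).q y - (χ k).q x`, `ν' = (χ k).q y' - (χ k).q x`.  `ν - ν' = p_F (w) - p_F (ψ z) = p_F' (ψ z) (w - ψ z) + E₁`, `‖E₁‖ ≤ K ‖w - ψ z‖²` (`der_lip`; the points are in `ball (φ z₀) (r₀ / 2)`).  So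
`‖det2 ν g' - Dm z‖ ≤ (K₂ ε / s) K C² t + 2 K K (K C² t)² ≤ K₃ (ε / s + ε) t`.
(c) `x, y` are good for `i` (`dist (pr x) (pr y) ≤ C t ≤ A.δ`, `A.good`).  `T = fderiv (fun p => (χ i).q ((χ k).σ p)) ((χ k).q x)`: `A.trans` (with `i := k`, `j := i`) `(χ i).q y - (χ i).q x = T ν + E₂`,
`‖E₂‖ ≤ C ‖ν‖² ≤ C (C² t)²`.  Chain rule: `deriv (qc A i G) z = T g'` (near `z` `qc A i G = (χ i).q ∘ (χ k).σ ∘ qc A k G` because `G = a • (χ k).σ (qc A k G)`).  `det2 (T ν) (T g') = jac * det2 ν g'`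
where `jac` is the Jacobian (`T` has the matrix in the definition of `jac`).  So the determinant in the chart `i` differs from `jac * det2 ν g'` by at most `2 C (C² t)² C K`.
(d) Together: `‖det2 ((χ i).q y - (χ i).q x) (deriv (qc A i G) z) - jac * Dm z‖ ≤ K₄ (ε + ε / s) t ≤ K₄ (ε + ε / s) K₂ ‖Dm z‖ ≤ K₄ K₂ C (ε + ε / s) ‖jac‖ ‖Dm z‖` (`jac_ge`).  If `ε` is so small that
`K₄ K₂ C (ε + ε / s) ≤ 1 - exp (-η)` this gives both inequalities (`1 - exp (-η) ≤ exp η - 1`).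
-/

set_option autoImplicit false

open Topology Filter Metric

namespace Pool.Agent.H5.BD

attribute [-instance] ProperSMul.toContinuousSMul

open Pool.Agent.H36.BP (EN fs wd)
open Pool.Agent.H14.PP (IsCone Chart Form Tan jac)
open Pool.Agent.H62.EF (MN pr det2)

variable {N : ℕ} {X : Set (EN N)} {A : Atlas X} {c L r₀ c₁ K₀ r₂ r₃ ε₃ K : ℝ}

private theorem CDet_norm (a b : ℂ × ℂ) : ‖det2 a b‖ ≤ 2 * (‖a‖ * ‖b‖) := by
  unfold det2
  have h1 : ‖a.1 * b.2‖ ≤ ‖a‖ * ‖b‖ := by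
    rw [norm_mul]
    exact mul_le_mul (norm_fst_le a) (norm_snd_le b) (norm_nonneg _) (norm_nonneg _)
  have h2 : ‖a.2 * b.1‖ ≤ ‖a‖ * ‖b‖ := by
    rw [norm_mul]
    exact mul_le_mul (norm_snd_le a) (norm_fst_le b) (norm_nonneg _) (norm_nonneg _)
  calc ‖a.1 * b.2 - a.2 * b.1‖ ≤ ‖a.1 * b.2‖ + ‖a.2 * b.1‖ := norm_sub_le _ _
    _ ≤ 2 * (‖a‖ * ‖b‖) := by linarith

private theorem CDet_map (T : ℂ × ℂ →L[ℂ] ℂ × ℂ) (a b : ℂ × ℂ) :
    det2 (T a) (T b) = ((T (1, 0)).1 * (T (0, 1)).2 - (T (0, 1)).1 * (T (1, 0)).2) * det2 a b := by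
  have h : ∀ v : ℂ × ℂ, T v = v.1 • T (1, 0) + v.2 • T (0, 1) := by
    intro v
    have h1 : v = v.1 • ((1 : ℂ), (0 : ℂ)) + v.2 • ((0 : ℂ), (1 : ℂ)) := by
      ext <;> simp
    conv_lhs => rw [h1]
    rw [map_add, map_smul, map_smul]
  rw [h a, h b]
  unfold det2
  simp only [Prod.fst_add, Prod.snd_add, Prod.smul_fst, Prod.smul_snd, smul_eq_mul]
  ring

/-- second order Taylor estimate -/
private theorem CDet_taylor {p : ℂ → ℂ × ℂ} {w₀ : ℂ} {ρ M : ℝ} (hp : ∀ u ∈ ball w₀ ρ, DifferentiableAt ℂ p u)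
    (hM : ∀ u ∈ ball w₀ ρ, ∀ u' ∈ ball w₀ ρ, ‖deriv p u - deriv p u'‖ ≤ M * ‖u - u'‖) (hM0 : 0 ≤ M) {w w' : ℂ} (hw : w ∈ ball w₀ ρ)
    (hw' : w' ∈ ball w₀ ρ) : ‖p w - p w' - (w - w') • deriv p w'‖ ≤ M * ‖w - w'‖ ^ 2 := by
  have hconv : Convex ℝ (ball w₀ ρ ∩ closedBall w' ‖w - w'‖) := (convex_ball _ _).inter (convex_closedBall _ _)
  have h1 := hconv.norm_image_sub_le_of_norm_hasDerivWithin_le (𝕜 := ℂ) (f := fun u => p u - u • deriv p w')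
    (f' := fun u => deriv p u - (1 : ℂ) • deriv p w') (C := M * ‖w - w'‖) (x := w') (y := w) ?_ ?_ ?_ ?_
  · have h2 : p w - w • deriv p w' - (p w' - w' • deriv p w') = p w - p w' - (w - w') • deriv p w' := by
      rw [sub_smul]; abel
    rw [h2] at h1
    calc ‖p w - p w' - (w - w') • deriv p w'‖ ≤ M * ‖w - w'‖ * ‖w - w'‖ := h1
      _ = M * ‖w - w'‖ ^ 2 := by ring
  · intro u hu
    exact (((hp u hu.1).hasDerivAt).sub ((hasDerivAt_id u).smul_const (deriv p w'))).hasDerivWithinAt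
  · intro u hu
    rw [one_smul]
    refine (hM u hu.1 w' hw').trans (mul_le_mul_of_nonneg_left ?_ hM0)
    have h3 := hu.2
    rwa [mem_closedBall, dist_eq_norm] at h3
  · exact ⟨hw', mem_closedBall_self (norm_nonneg _)⟩
  · refine ⟨hw, ?_⟩
    rw [mem_closedBall, dist_eq_norm]

/-- the chain rule for the change of charts -/
private theorem CDet_chain (hX : IsCone X) {G : ℂ → EN N} (hG : Differentiable ℂ G) (hGX : ∀ z, G z ∈ X) {χ χ' : Chart X} {z : ℂ}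
    (h : Good χ (G z)) (h' : Good χ' (G z)) :
    deriv (fun z => χ'.q (G z)) z = fderiv ℂ (fun p => χ'.q (χ.σ p)) (χ.q (G z)) (deriv (fun z => χ.q (G z)) z) := by
  have hcurve : Pool.Agent.H14.PP.CurveAt X G z := ⟨hG.analyticAt z, Eventually.of_forall hGX⟩
  obtain ⟨han, -, a, -, -, hev⟩ := χ.curve hX hcurve h.2.1
  have hb : χ.q (G z) ∈ ball (0 : ℂ × ℂ) 2 := (χ.surj _ h.1 h.2.1).1
  obtain ⟨a₀, ha₀, hGz⟩ := (χ.surj _ h.1 h.2.1).2
  have hσU : χ.σ (χ.q (G z)) ∈ χ'.U := by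
    have h1 := χ'.smul_U _ h'.2.1 a₀⁻¹ (inv_ne_zero ha₀)
    rw [hGz] at h1
    rw [smul_smul, inv_mul_cancel₀ ha₀, one_smul] at h1
    convert h1 using 3
  have hd : DifferentiableAt ℂ (fun p => χ'.q (χ.σ p)) (χ.q (G z)) := by
    have h1 : AnalyticAt ℂ (fun p => χ'.q (χ.σ p)) (χ.q (G z)) :=
      AnalyticAt.comp (g := χ'.q) (f := χ.σ) (χ'.q_an _ hσU) (χ.σ_an _ hb)
    exact h1.differentiableAt
  have heq : (fun z => χ'.q (G z)) =ᶠ[𝓝 z] fun z => (fun p => χ'.q (χ.σ p)) (χ.q (G z)) := by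
    have hU' : ∀ᶠ u in 𝓝 z, G u ∈ χ'.U := (hG.continuous.continuousAt).eventually_mem (χ'.isOpen_U.mem_nhds h'.2.1)
    filter_upwards [hev, hU'] with u hu huU
    have ha : a u ≠ 0 := by
      intro h0
      have h1 := hGX u
      rw [hu.2, h0, zero_smul] at h1
      exact hX.zero_notMem h1
    have h1 : χ.σ (χ.q (G u)) ∈ χ'.U := by
      have h2 := χ'.smul_U _ huU (a u)⁻¹ (inv_ne_zero ha)
      have h3 : (a u)⁻¹ • G u = χ.σ (χ.q (G u)) := by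
        conv_lhs => rw [hu.2]
        rw [smul_smul, inv_mul_cancel₀ ha, one_smul]
      rwa [h3] at h2
    show χ'.q (G u) = χ'.q (χ.σ (χ.q (G u)))
    conv_lhs => rw [hu.2]
    exact χ'.q_smul _ h1 _ ha
  rw [heq.deriv_eq]
  exact (hd.hasFDerivAt.comp_hasDerivAt z han.differentiableAt.hasDerivAt).deriv

/-- the numerical conclusion -/
private theorem CDet_num {η a J D E : ℝ} (hJD : 0 ≤ J * D) (h : |a - J * D| ≤ E * (J * D)) (hE : E ≤ 1 - Real.exp (-η)) :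
    Real.exp (-η) * (J * D) ≤ a ∧ a ≤ Real.exp η * (J * D) := by
  have h1 : E * (J * D) ≤ (1 - Real.exp (-η)) * (J * D) := mul_le_mul_of_nonneg_right hE hJD
  have h2 := abs_le.1 (h.trans h1)
  have h3 : 2 ≤ Real.exp η + Real.exp (-η) := by
    linarith [Real.add_one_le_exp η, Real.add_one_le_exp (-η)]
  constructor
  · linarith [h2.1]
  · linarith [h2.2, mul_le_mul_of_nonneg_right h3 hJD]

/-- the estimate for one configuration -/
private theorem CDet_main (hX : IsCone X) (h : MC A c L r₀ c₁ K₀ r₂ r₃ ε₃ K) {K₂ s ε : ℝ} (hK₂ : 1 ≤ K₂) (hs : 0 < s) (hs₃ : s ≤ r₃) (hε : 0 < ε)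
    (hε1 : K₂ * (ε / s) ≤ 1) (hε2 : K * (A.C * ε) ≤ r₂) (hε3 : A.C * (K₂ * ε) ≤ A.δ) {F G : ℂ → EN N} (hF : F ∈ BC X c L) (hG : G ∈ BC X c L)
    {z₀ : ℂ} {φ : ℂ → ℂ} (hfol : FolAt evp r₂ s ε F G z₀ φ) {e : Bool} {ψ : ℂ → ℂ} {k : Fin A.n} (hk : k = A.idx (pr (F (φ z₀))))
    (hm : Match A r₂ r₃ K F G k (φ z₀) z₀ e ψ) (hD : DmBound A F G k z₀ ψ s ε K₂) {z : ℂ} (hz : z ∈ closedBall z₀ (s / 2)) {w : ℂ}
    (hw : w ∈ closedBall (φ z) r₂) (hmin : ∀ w' ∈ closedBall (φ z) r₂, dist (pr (G z)) (pr (F w)) ≤ dist (pr (G z)) (pr (F w'))) {i : Fin A.n}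
    (hi : i = A.idx (pr (G z))) :
    ‖det2 (qc A i F w - qc A i G z) (deriv (qc A i G) z) - jac (fun p => (A.χ i).q ((A.χ k).σ p)) (qc A k G z) * Dm A F G k ψ z‖ ≤
      (K * A.C ^ 2 * K₂ ^ 2 * (ε / s) + (2 * K₀ ^ 2 * K ^ 2 * A.C ^ 4 * K₂ ^ 2 + 2 * K₀ * A.C ^ 6 * K₂ ^ 2) * ε) *
        (‖jac (fun p => (A.χ i).q ((A.χ k).σ p)) (qc A k G z)‖ * ‖Dm A F G k ψ z‖) := by
  have hC : 1 ≤ A.C := A.one_le
  have hK₀ : 1 ≤ K₀ := h.lc.one_le
  have hK : 1 ≤ K := hK₀.trans h.le_K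
  have hr₂ := h.r₂_pos
  have hr₃ := h.r₃_pos
  have hzn : ‖z - z₀‖ ≤ s / 2 := by rwa [mem_closedBall, dist_eq_norm] at hz
  have hzs : z ∈ closedBall z₀ s := by rw [mem_closedBall, dist_eq_norm]; linarith
  have hzb : z ∈ ball z₀ (2 * r₃) := by rw [mem_ball, dist_eq_norm]; linarith
  obtain ⟨hd1, hd2⟩ := hfol z hzs
  have hd1' : dist (pr (G z)) (pr (F (φ z))) ≤ ε := hd1
  have hφz : φ z ∈ closedBall (φ z₀) (2 * r₂) := by rw [mem_closedBall, dist_eq_norm]; linarith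
  have hwn : ‖w - φ z‖ ≤ r₂ := by rwa [mem_closedBall, dist_eq_norm] at hw
  have hwn' : ‖w - φ z₀‖ ≤ r₂ + r₂ / 4 := by
    calc ‖w - φ z₀‖ = ‖(w - φ z) + (φ z - φ z₀)‖ := by rw [sub_add_sub_cancel]
      _ ≤ ‖w - φ z‖ + ‖φ z - φ z₀‖ := norm_add_le _ _
      _ ≤ r₂ + r₂ / 4 := add_le_add hwn hd2
  have hw2 : w ∈ closedBall (φ z₀) (2 * r₂) := by rw [mem_closedBall, dist_eq_norm]; linarith
  have hψm : ‖ψ z - φ z₀‖ ≤ r₂ := by
    have h1 := hm.mem z hzb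
    rwa [mem_closedBall, dist_eq_norm] at h1
  have hψ2 : ψ z ∈ closedBall (φ z₀) (2 * r₂) := by rw [mem_closedBall, dist_eq_norm]; linarith
  have gx : Good (A.χ k) (G z) := hm.goodG z hzb
  have gy : Good (A.χ k) (F w) := hm.goodF w hw2
  have gy' : Good (A.χ k) (F (ψ z)) := hm.goodF (ψ z) hψ2
  have gφ : Good (A.χ k) (F (φ z)) := hm.goodF (φ z) hφz
  obtain ⟨t, ht⟩ : ∃ t : ℝ, t = ‖qc A k F (ψ z) - qc A k G z‖ := ⟨_, rfl⟩
  have ht0 : 0 ≤ t := by rw [ht]; exact norm_nonneg _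
  have ht1 : t ≤ K₂ * ε := by rw [ht]; exact hD.le z hzs
  have ht2 : t ≤ K₂ * ‖Dm A F G k ψ z‖ := by rw [ht]; exact hD.lower hε1 z hz
  -- (a)
  have hψφ : ψ z ∈ closedBall (φ z) r₂ := by
    rw [mem_closedBall, dist_eq_norm, norm_sub_rev]
    have h1 := hm.near z hzb (φ z) hφz
    have h2 : ‖qc A k F (φ z) - qc A k G z‖ ≤ A.C * ε := by
      have h3 := A.le_dist k _ _ gφ gx
      rw [dist_comm] at h3
      exact h3.trans (mul_le_mul_of_nonneg_left hd1' (by linarith))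
    exact h1.trans ((mul_le_mul_of_nonneg_left h2 (by linarith)).trans hε2)
  have hxy : dist (pr (G z)) (pr (F w)) ≤ A.C * t := by
    refine (hmin (ψ z) hψφ).trans ?_
    have h1 := A.dist_le k _ _ gx gy'
    rw [norm_sub_rev] at h1
    rw [ht]
    exact h1
  have hν : ‖qc A k F w - qc A k G z‖ ≤ A.C ^ 2 * t := by
    have h1 := A.le_dist k _ _ gy gx
    rw [dist_comm] at h1
    have h2 := h1.trans (mul_le_mul_of_nonneg_left hxy (by linarith))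
    calc ‖qc A k F w - qc A k G z‖ ≤ A.C * (A.C * t) := h2
      _ = A.C ^ 2 * t := by ring
  have hwψ : ‖w - ψ z‖ ≤ K * (A.C ^ 2 * t) :=
    (hm.near z hzb w hw2).trans (mul_le_mul_of_nonneg_left hν (by linarith))
  -- (b)
  have hgoodF : ∀ u ∈ ball (φ z₀) r₀, Good (A.χ k) (F u) := by
    rw [hk]
    exact h.lc.good F hF _ (hF.2.1 _) (φ z₀) (by rw [dist_self]; have := A.δ_pos; linarith)
  have hr₀ := h.lc.r₀_pos
  have hr₂₀ := h.r₂_le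
  have htay : ‖qc A k F w - qc A k F (ψ z) - (w - ψ z) • deriv (qc A k F) (ψ z)‖ ≤ K₀ * ‖w - ψ z‖ ^ 2 := by
    refine CDet_taylor (w₀ := φ z₀) (ρ := r₀ / 2) ?_ ?_ (by linarith) ?_ ?_
    · intro u hu
      exact (h.lc.an F hF k u (hgoodF u (ball_subset_ball (by linarith) hu))).differentiableAt
    · exact h.lc.der_lip F hF k (φ z₀) hgoodF
    · rw [mem_ball, dist_eq_norm]; linarith
    · rw [mem_ball, dist_eq_norm]; linarith
  obtain ⟨g', hg'⟩ : ∃ g' : ℂ × ℂ, g' = deriv (qc A k G) z := ⟨_, rfl⟩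
  have hg'n : ‖g'‖ ≤ K₀ := by rw [hg']; exact h.lc.der_le G hG k z gx
  have hang : ‖det2 (deriv (qc A k F) (ψ z)) g'‖ ≤ K₂ * (ε / s) := by rw [hg']; exact hD.angle z hz
  obtain ⟨E₁, hE₁⟩ : ∃ E₁ : ℂ × ℂ, E₁ = qc A k F w - qc A k F (ψ z) - (w - ψ z) • deriv (qc A k F) (ψ z) := ⟨_, rfl⟩
  obtain ⟨ν, hνd⟩ : ∃ ν : ℂ × ℂ, ν = qc A k F w - qc A k G z := ⟨_, rfl⟩
  have hν' : ‖ν‖ ≤ A.C ^ 2 * t := by rw [hνd]; exact hν
  have hb1 : det2 ν g' - Dm A F G k ψ z = (w - ψ z) * det2 (deriv (qc A k F) (ψ z)) g' + det2 E₁ g' := by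
    rw [hνd, hE₁, hg']
    unfold Dm det2
    simp only [Prod.fst_sub, Prod.snd_sub, Prod.smul_fst, Prod.smul_snd, smul_eq_mul]
    ring
  have hb2 : ‖det2 ν g' - Dm A F G k ψ z‖ ≤ (K * A.C ^ 2 * K₂ * (ε / s) + 2 * K₀ ^ 2 * K ^ 2 * A.C ^ 4 * K₂ * ε) * t := by
    have hwψ2 : ‖w - ψ z‖ ^ 2 ≤ (K * (A.C ^ 2 * t)) ^ 2 := pow_le_pow_left₀ (norm_nonneg _) hwψ 2
    have h1 : ‖(w - ψ z) * det2 (deriv (qc A k F) (ψ z)) g'‖ ≤ (K * (A.C ^ 2 * t)) * (K₂ * (ε / s)) := by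
      rw [norm_mul]
      exact mul_le_mul hwψ hang (norm_nonneg _) (by positivity)
    have h2 : ‖det2 E₁ g'‖ ≤ 2 * ((K₀ * (K * (A.C ^ 2 * t)) ^ 2) * K₀) := by
      refine (CDet_norm _ _).trans (mul_le_mul_of_nonneg_left ?_ (by norm_num))
      refine mul_le_mul ?_ hg'n (norm_nonneg _) (by positivity)
      rw [hE₁]
      exact htay.trans (mul_le_mul_of_nonneg_left hwψ2 (by linarith))
    have h3 : t ^ 2 ≤ K₂ * ε * t := by rw [pow_two]; exact mul_le_mul_of_nonneg_right ht1 ht0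
    rw [hb1]
    calc ‖(w - ψ z) * det2 (deriv (qc A k F) (ψ z)) g' + det2 E₁ g'‖
        ≤ ‖(w - ψ z) * det2 (deriv (qc A k F) (ψ z)) g'‖ + ‖det2 E₁ g'‖ := norm_add_le _ _
      _ ≤ (K * (A.C ^ 2 * t)) * (K₂ * (ε / s)) + 2 * ((K₀ * (K * (A.C ^ 2 * t)) ^ 2) * K₀) := add_le_add h1 h2
      _ = K * A.C ^ 2 * K₂ * (ε / s) * t + 2 * K₀ ^ 2 * K ^ 2 * A.C ^ 4 * t ^ 2 := by ring
      _ ≤ K * A.C ^ 2 * K₂ * (ε / s) * t + 2 * K₀ ^ 2 * K ^ 2 * A.C ^ 4 * (K₂ * ε * t) := by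
          have h4 : 0 ≤ 2 * K₀ ^ 2 * K ^ 2 * A.C ^ 4 := by positivity
          have h5 := mul_le_mul_of_nonneg_left h3 h4
          linarith
      _ = (K * A.C ^ 2 * K₂ * (ε / s) + 2 * K₀ ^ 2 * K ^ 2 * A.C ^ 4 * K₂ * ε) * t := by ring
  -- (c)
  have gxi : Good (A.χ i) (G z) := by
    rw [hi]
    exact A.good _ (hG.2.1 z) _ (hG.2.1 z) (by rw [dist_self]; exact A.δ_pos.le)
  have gyi : Good (A.χ i) (F w) := by
    rw [hi]
    refine A.good _ (hG.2.1 z) _ (hF.2.1 w) (hxy.trans ((mul_le_mul_of_nonneg_left ht1 (by linarith)).trans hε3))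
  obtain ⟨T, hT⟩ : ∃ T : ℂ × ℂ →L[ℂ] ℂ × ℂ, T = fderiv ℂ (fun p => (A.χ i).q ((A.χ k).σ p)) (qc A k G z) := ⟨_, rfl⟩
  obtain ⟨E₂, hE₂⟩ : ∃ E₂ : ℂ × ℂ, E₂ = qc A i F w - qc A i G z - T ν := ⟨_, rfl⟩
  have hE₂n : ‖E₂‖ ≤ A.C ^ 5 * K₂ * ε * t := by
    have h1 := A.trans k i _ _ gx gxi gy gyi
    have h2 : ‖E₂‖ ≤ A.C * ‖ν‖ ^ 2 := by
      rw [hE₂, hνd, hT]
      exact h1
    have h3 : ‖ν‖ ^ 2 ≤ (A.C ^ 2 * t) ^ 2 := pow_le_pow_left₀ (norm_nonneg _) hν' 2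
    have h4 : t ^ 2 ≤ K₂ * ε * t := by rw [pow_two]; exact mul_le_mul_of_nonneg_right ht1 ht0
    calc ‖E₂‖ ≤ A.C * ‖ν‖ ^ 2 := h2
      _ ≤ A.C * (A.C ^ 2 * t) ^ 2 := mul_le_mul_of_nonneg_left h3 (by linarith)
      _ = A.C ^ 5 * t ^ 2 := by ring
      _ ≤ A.C ^ 5 * (K₂ * ε * t) := mul_le_mul_of_nonneg_left h4 (by positivity)
      _ = A.C ^ 5 * K₂ * ε * t := by ring
  have hchain : deriv (qc A i G) z = T g' := by
    rw [hT, hg']
    exact CDet_chain hX hG.1 hG.2.1 gx gxi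
  have hTg : ‖T g'‖ ≤ K₀ := by
    rw [← hchain]
    exact h.lc.der_le G hG i z gxi
  obtain ⟨j, hj⟩ : ∃ j : ℂ, j = jac (fun p => (A.χ i).q ((A.χ k).σ p)) (qc A k G z) := ⟨_, rfl⟩
  have hjT : det2 (T ν) (T g') = j * det2 ν g' := by
    rw [CDet_map, hj, hT]
    rfl
  have hjC : 1 ≤ A.C * ‖j‖ := by
    rw [hj]
    exact A.jac_ge k i _ gx gxi
  -- (d)
  rw [hchain, ← hj]
  have hd3 : det2 (qc A i F w - qc A i G z) (T g') - j * Dm A F G k ψ z =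
      j * (det2 ν g' - Dm A F G k ψ z) + det2 E₂ (T g') := by
    have h1 : det2 (qc A i F w - qc A i G z) (T g') = det2 (T ν) (T g') + det2 E₂ (T g') := by
      rw [hE₂]
      unfold det2
      simp only [Prod.fst_sub, Prod.snd_sub]
      ring
    rw [h1, hjT]
    ring
  rw [hd3]
  obtain ⟨D, hDd⟩ : ∃ D : ℝ, D = ‖Dm A F G k ψ z‖ := ⟨_, rfl⟩
  rw [← hDd] at ht2 ⊢
  have hD0 : 0 ≤ D := by rw [hDd]; exact norm_nonneg _
  have hj0 : 0 ≤ ‖j‖ := norm_nonneg _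
  have hes : 0 ≤ ε / s := by positivity
  have f1 : ‖j * (det2 ν g' - Dm A F G k ψ z)‖ ≤
      ‖j‖ * ((K * A.C ^ 2 * K₂ * (ε / s) + 2 * K₀ ^ 2 * K ^ 2 * A.C ^ 4 * K₂ * ε) * (K₂ * D)) := by
    rw [norm_mul]
    refine mul_le_mul_of_nonneg_left (hb2.trans (mul_le_mul_of_nonneg_left ht2 (by positivity))) hj0
  have f2 : ‖det2 E₂ (T g')‖ ≤ 2 * (A.C ^ 5 * K₂ * ε * (K₂ * D) * K₀) := by
    refine (CDet_norm _ _).trans (mul_le_mul_of_nonneg_left ?_ (by norm_num))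
    refine mul_le_mul (hE₂n.trans (mul_le_mul_of_nonneg_left ht2 (by positivity))) hTg (norm_nonneg _) (by positivity)
  have f3 : 2 * (A.C ^ 5 * K₂ * ε * (K₂ * D) * K₀) ≤ (A.C * ‖j‖) * (2 * (A.C ^ 5 * K₂ * ε * (K₂ * D) * K₀)) :=
    le_mul_of_one_le_left (by positivity) hjC
  calc ‖j * (det2 ν g' - Dm A F G k ψ z) + det2 E₂ (T g')‖
      ≤ ‖j * (det2 ν g' - Dm A F G k ψ z)‖ + ‖det2 E₂ (T g')‖ := norm_add_le _ _
    _ ≤ ‖j‖ * ((K * A.C ^ 2 * K₂ * (ε / s) + 2 * K₀ ^ 2 * K ^ 2 * A.C ^ 4 * K₂ * ε) * (K₂ * D)) +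
        (A.C * ‖j‖) * (2 * (A.C ^ 5 * K₂ * ε * (K₂ * D) * K₀)) := add_le_add f1 (f2.trans f3)
    _ = (K * A.C ^ 2 * K₂ ^ 2 * (ε / s) + (2 * K₀ ^ 2 * K ^ 2 * A.C ^ 4 * K₂ ^ 2 + 2 * K₀ * A.C ^ 6 * K₂ ^ 2) * ε) *
        (‖j‖ * D) := by ring

theorem MC.det_comp (hX : IsCone X) (h : MC A c L r₀ c₁ K₀ r₂ r₃ ε₃ K) {s η : ℝ} (hs : 0 < s) (hs₃ : s ≤ r₃) (hη : 0 < η) :
    ∃ ε : ℝ, 0 < ε ∧ ε ≤ ε₃ ∧ ∀ F ∈ BC X c L, ∀ G ∈ BC X c L, ∀ z₀ φ, FolAt evp r₂ s ε F G z₀ φ → ∀ e ψ,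
      Match A r₂ r₃ K F G (A.idx (pr (F (φ z₀)))) (φ z₀) z₀ e ψ → ∀ z ∈ closedBall z₀ (s / 2), ∀ w ∈ closedBall (φ z) r₂,
      (∀ w' ∈ closedBall (φ z) r₂, dist (pr (G z)) (pr (F w)) ≤ dist (pr (G z)) (pr (F w'))) → ∀ i k J D,
      i = A.idx (pr (G z)) → k = A.idx (pr (F (φ z₀))) → J = ‖jac (fun p => (A.χ i).q ((A.χ k).σ p)) (qc A k G z)‖ → D = ‖Dm A F G k ψ z‖ →
        Real.exp (-η) * (J * D) ≤ ‖det2 (qc A i F w - qc A i G z) (deriv (qc A i G) z)‖ ∧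
          ‖det2 (qc A i F w - qc A i G z) (deriv (qc A i G) z)‖ ≤ Real.exp η * (J * D) := by
  obtain ⟨K₂, hK₂, hbd⟩ := h.exists_dmBound
  have hC : 1 ≤ A.C := A.one_le
  have hK₀ : 1 ≤ K₀ := h.lc.one_le
  have hK : 1 ≤ K := hK₀.trans h.le_K
  have hτ : 0 < 1 - Real.exp (-η) := by
    have h1 : Real.exp (-η) < Real.exp 0 := Real.exp_lt_exp.2 (by linarith)
    rw [Real.exp_zero] at h1
    linarith
  obtain ⟨M₁, hM₁⟩ : ∃ M₁ : ℝ, M₁ = K * A.C ^ 2 * K₂ ^ 2 := ⟨_, rfl⟩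
  obtain ⟨M₂, hM₂⟩ : ∃ M₂ : ℝ, M₂ = 2 * K₀ ^ 2 * K ^ 2 * A.C ^ 4 * K₂ ^ 2 + 2 * K₀ * A.C ^ 6 * K₂ ^ 2 := ⟨_, rfl⟩
  have hM₁0 : 0 < M₁ := by rw [hM₁]; positivity
  have hM₂0 : 0 < M₂ := by rw [hM₂]; positivity
  have hM : 0 < M₁ / s + M₂ := by positivity
  have hr₂ := h.r₂_pos
  have hδ := A.δ_pos
  obtain ⟨ε, hε⟩ : ∃ ε : ℝ, ε = min (min ε₃ (s / K₂)) (min (min (r₂ / (K * A.C)) (A.δ / (A.C * K₂))) ((1 - Real.exp (-η)) / (M₁ / s + M₂))) :=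
    ⟨_, rfl⟩
  have e0 : 0 < ε := by
    rw [hε]
    refine lt_min (lt_min h.ε₃_pos (by positivity)) (lt_min (lt_min (by positivity) (by positivity)) (div_pos hτ hM))
  have e1 : ε ≤ ε₃ := by rw [hε]; exact (min_le_left _ _).trans (min_le_left _ _)
  have e2 : ε ≤ s / K₂ := by rw [hε]; exact (min_le_left _ _).trans (min_le_right _ _)
  have e3 : ε ≤ r₂ / (K * A.C) := by rw [hε]; exact (min_le_right _ _).trans ((min_le_left _ _).trans (min_le_left _ _))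
  have e4 : ε ≤ A.δ / (A.C * K₂) := by rw [hε]; exact (min_le_right _ _).trans ((min_le_left _ _).trans (min_le_right _ _))
  have e5 : ε ≤ (1 - Real.exp (-η)) / (M₁ / s + M₂) := by rw [hε]; exact (min_le_right _ _).trans (min_le_right _ _)
  have e2' : K₂ * (ε / s) ≤ 1 := by
    rw [le_div_iff₀ (by linarith)] at e2
    rw [← mul_div_assoc, div_le_one hs]
    linarith
  have e3' : K * (A.C * ε) ≤ r₂ := by
    rw [le_div_iff₀ (by positivity)] at e3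
    linarith
  have e4' : A.C * (K₂ * ε) ≤ A.δ := by
    rw [le_div_iff₀ (by positivity)] at e4
    linarith
  have e5' : M₁ * (ε / s) + M₂ * ε ≤ 1 - Real.exp (-η) := by
    rw [le_div_iff₀ hM] at e5
    have : M₁ * (ε / s) + M₂ * ε = ε * (M₁ / s + M₂) := by ring
    linarith
  refine ⟨ε, e0, e1, ?_⟩
  intro F hF G hG z₀ φ hfol e ψ hm z hz w hw hmin i k J D hi hk hJ hD
  rw [← hk] at hm
  have hbd' : DmBound A F G k z₀ ψ s ε K₂ := by
    refine hbd F hF G hG k (φ z₀) z₀ e ψ hm s ε hs hs₃ e0.le ?_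
    intro z' hz'
    obtain ⟨h1, h2⟩ := hfol z' hz'
    refine ⟨φ z', ?_, h1⟩
    rw [mem_closedBall, dist_eq_norm]
    linarith
  have hmain := CDet_main hX h hK₂ hs hs₃ e0 e2' e3' e4' hF hG hfol hk hm hbd' hz hw hmin hi
  rw [← hM₁, ← hM₂, ← hJ, ← hD] at hmain
  have hJ0 : 0 ≤ J := by rw [hJ]; exact norm_nonneg _
  have hD0 : 0 ≤ D := by rw [hD]; exact norm_nonneg _
  refine CDet_num (mul_nonneg hJ0 hD0) ?_ e5'
  refine le_trans ?_ hmain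
  have h1 := abs_norm_sub_norm_le (det2 (qc A i F w - qc A i G z) (deriv (qc A i G) z))
    (jac (fun p => (A.χ i).q ((A.χ k).σ p)) (qc A k G z) * Dm A F G k ψ z)
  rw [norm_mul, ← hJ, ← hD] at h1
  exact h1

end Pool.Agent.H5.BD

end

section

/-!
# BD CRho: the function `rh`

`nearest_spec`: `w' ↦ dist y (pr (F w'))` is continuous on the compact set `closedBall w r₂` (`LC.lip`); `IsCompact.exists_isMinOn`.
`rh_bdd`: `B₁` bounds `‖aCoef Ω (A.χ i) p‖ * ‖(A.χ i).σ p‖` for all `i` and `‖p‖ ≤ 1 / 2` (compact, `aCoef_analytic` with `K = X`, `σ_an`).  Let `dist (pr (G z)) (pr (F w)) ≤ ε := A.δ`, `i = A.idx (pr (G z))`,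
`w' = nearest ..`; `dist (pr (G z)) (pr (F w')) ≤ dist (pr (G z)) (pr (F w)) ≤ A.δ`, so `G z` and `F w'` are good for `i` (`A.good`), so the difference of the coordinates has norm `≤ 1`, the derivative has
norm `≤ K` (`der_le`), the determinant is at most `2 K`: `rh ≤ B₁ (2 K)^m`.
`coef_trans`: `ACoef_trans` (`H14/PP/FormTrans.lean`) for `K = X`, `p = (A.χ k).q x`: `x = a • (A.χ k).σ p`, so `(A.χ i).q ((A.χ k).σ p) = (A.χ i).q x`; take the `m`-th power (`ACoef = ‖aCoef‖ ^ (1 / m) ‖σ‖ ^ (1 / m)`).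
`rh_cmp`: `det_comp` with `η / m`, `w = nearest r₂ F (φ z) (pr (G z))` (`nearest_spec`), `coef_trans` for `x = G z` (good for `k` by `goodG`, good for `i` by `A.good`):
`‖aCoef_k‖ ‖σ_k‖ D ^ m = ‖aCoef_i‖ ‖σ_i‖ (J D) ^ m`.
-/

set_option autoImplicit false

open Topology Filter Metric

namespace Pool.Agent.H5.BD

attribute [-instance] ProperSMul.toContinuousSMul

open Pool.Agent.H36.BP (EN fs wd)
open Pool.Agent.H14.PP (IsCone Chart Form Tan aCoef jac)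
open Pool.Agent.H62.EF (MN pr det2)

variable {N : ℕ} {X : Set (EN N)} {A : Atlas X} {c L r₀ c₁ K₀ r₂ r₃ ε₃ K : ℝ} {m : ℕ}

open Classical in
/-- the parameter of the point of the plaque of `F` at `w` which is nearest to `y` -/
noncomputable def nearest (r₂ : ℝ) (F : ℂ → EN N) (w : ℂ) (y : MN N) : ℂ :=
  if h : ∃ w' ∈ closedBall w r₂, ∀ w'' ∈ closedBall w r₂, dist y (pr (F w')) ≤ dist y (pr (F w'')) then h.choose else w

theorem MC.nearest_spec (h : MC A c L r₀ c₁ K₀ r₂ r₃ ε₃ K) {F : ℂ → EN N} (hF : F ∈ BC X c L) (w : ℂ) (y : MN N) :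
    nearest r₂ F w y ∈ closedBall w r₂ ∧ ∀ w' ∈ closedBall w r₂, dist y (pr (F (nearest r₂ F w y))) ≤ dist y (pr (F w')) := by
  have hcont : Continuous (fun z => pr (F z)) :=
    (LipschitzWith.of_dist_le_mul (K := (2 * L).toNNReal) fun z w => by
      rw [Real.coe_toNNReal _ (mul_nonneg zero_le_two h.lc.L_pos.le), dist_eq_norm z w]
      exact h.lc.lip F hF z w).continuous
  have hex : ∃ w' ∈ closedBall w r₂, ∀ w'' ∈ closedBall w r₂, dist y (pr (F w')) ≤ dist y (pr (F w'')) := by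
    obtain ⟨x, hx, hmin⟩ := (isCompact_closedBall w r₂).exists_isMinOn
      ⟨w, mem_closedBall_self h.r₂_pos.le⟩ (continuous_const.dist hcont).continuousOn
    exact ⟨x, hx, fun w'' hw'' => hmin hw''⟩
  have hn : nearest r₂ F w y = hex.choose := by
    unfold nearest
    rw [dif_pos hex]
  rw [hn]
  exact hex.choose_spec

/-- the norm of the form at `x`, in the chart `i` -/
noncomputable def cf (A : Atlas X) (Ω : Form X m 1) (i : Fin A.n) (x : EN N) : ℝ :=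
  ‖aCoef Ω (A.χ i) ((A.χ i).q x)‖ * ‖(A.χ i).σ ((A.χ i).q x)‖

/-- the distance of `G z` to the plaque of `F` at `w`, measured by the form `Ω` and `G' z` -/
noncomputable def rh (A : Atlas X) (Ω : Form X m 1) (r₂ : ℝ) (F : ℂ → EN N) (w : ℂ) (G : ℂ → EN N) (z : ℂ) : ℝ :=
  cf A Ω (A.idx (pr (G z))) (G z) *
    ‖det2 (qc A (A.idx (pr (G z))) F (nearest r₂ F w (pr (G z))) - qc A (A.idx (pr (G z))) G z) (deriv (qc A (A.idx (pr (G z))) G) z)‖ ^ m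

private theorem CRho_open (hX : IsCone X) : Pool.Agent.H14.PP.IsOpenPart X X :=
  ⟨subset_rfl, hX.smul_mem, fun _ _ => Eventually.of_forall fun _ hy => hy⟩

private theorem CRho_cf_nonneg (A : Atlas X) (Ω : Form X m 1) (i : Fin A.n) (x : EN N) : 0 ≤ cf A Ω i x :=
  mul_nonneg (norm_nonneg _) (norm_nonneg _)

private theorem CRho_sub {p : ℂ × ℂ} (hp : ‖p‖ ≤ 1 / 2) : p ∈ ball (0 : ℂ × ℂ) 2 := by
  rw [mem_ball_zero_iff]
  exact hp.trans_lt (by norm_num)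

private theorem CRho_cf_bdd (hX : IsCone X) (A : Atlas X) (Ω : Form X m 1) :
    ∃ B : ℝ, 0 ≤ B ∧ ∀ i x, Good (A.χ i) x → cf A Ω i x ≤ B := by
  have h1 : ∀ i, ∃ b : ℝ, ∀ p ∈ closedBall (0 : ℂ × ℂ) (1 / 2), ‖aCoef Ω (A.χ i) p‖ * ‖(A.χ i).σ p‖ ≤ b := by
    intro i
    have hc : ContinuousOn (fun p => ‖aCoef Ω (A.χ i) p‖ * ‖(A.χ i).σ p‖) (closedBall (0 : ℂ × ℂ) (1 / 2)) := by
      intro p hp
      have hp' := CRho_sub (mem_closedBall_zero_iff.1 hp)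
      have h2 := (Pool.Agent.H14.PP.aCoef_analytic (CRho_open hX) Ω (A.χ i) hp' ((A.χ i).σ_mem p hp').1).continuousAt
      have h3 := ((A.χ i).σ_an p hp').continuousAt
      exact (h2.norm.mul h3.norm).continuousWithinAt
    obtain ⟨b, hb⟩ := (isCompact_closedBall (0 : ℂ × ℂ) (1 / 2)).exists_bound_of_continuousOn hc
    exact ⟨b, fun p hp => (le_abs_self _).trans (hb p hp)⟩
  choose b hb using h1
  refine ⟨∑ i, |b i|, Finset.sum_nonneg fun i _ => abs_nonneg _, fun i x hx => ?_⟩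
  calc cf A Ω i x ≤ b i := hb i _ (mem_closedBall_zero_iff.2 hx.2.2)
    _ ≤ |b i| := le_abs_self _
    _ ≤ ∑ i, |b i| := Finset.single_le_sum (f := fun i => |b i|) (fun _ _ => abs_nonneg _) (Finset.mem_univ i)

private theorem CRho_det (a b : ℂ × ℂ) : ‖det2 a b‖ ≤ 2 * (‖a‖ * ‖b‖) := by
  unfold det2
  have h1 : ‖a.1 * b.2‖ ≤ ‖a‖ * ‖b‖ := by
    rw [norm_mul]
    exact mul_le_mul (norm_fst_le a) (norm_snd_le b) (norm_nonneg _) (norm_nonneg _)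
  have h2 : ‖a.2 * b.1‖ ≤ ‖a‖ * ‖b‖ := by
    rw [norm_mul]
    exact mul_le_mul (norm_snd_le a) (norm_fst_le b) (norm_nonneg _) (norm_nonneg _)
  calc ‖a.1 * b.2 - a.2 * b.1‖ ≤ ‖a.1 * b.2‖ + ‖a.2 * b.1‖ := norm_sub_le _ _
    _ ≤ ‖a‖ * ‖b‖ + ‖a‖ * ‖b‖ := add_le_add h1 h2
    _ = 2 * (‖a‖ * ‖b‖) := by ring

private theorem CRho_good (A : Atlas X) {x : EN N} (hx : x ∈ X) : Good (A.χ (A.idx (pr x))) x :=
  A.good x hx x hx (by rw [dist_self]; exact A.δ_pos.le)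

theorem rh_bdd (hX : IsCone X) (h : MC A c L r₀ c₁ K₀ r₂ r₃ ε₃ K) (Ω : Form X m 1) : ∃ B ε : ℝ, 0 ≤ B ∧ 0 < ε ∧
    ∀ F ∈ BC X c L, ∀ G ∈ BC X c L, ∀ w z, dist (evp G z) (evp F w) ≤ ε → 0 ≤ rh A Ω r₂ F w G z ∧ rh A Ω r₂ F w G z ≤ B := by
  obtain ⟨B₁, hB₁, hB⟩ := CRho_cf_bdd hX A Ω
  have hK₀ : 0 ≤ K₀ := zero_le_one.trans h.lc.one_le
  refine ⟨B₁ * (2 * K₀) ^ m, A.δ, by positivity, A.δ_pos, fun F hF G hG w z hd => ?_⟩
  have hGX : G z ∈ X := hG.2.1 z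
  obtain ⟨-, hmin⟩ := h.nearest_spec hF w (pr (G z))
  have hd' : dist (pr (G z)) (pr (F (nearest r₂ F w (pr (G z))))) ≤ A.δ :=
    (hmin w (mem_closedBall_self h.r₂_pos.le)).trans hd
  have hg := CRho_good A hGX
  have hg' : Good (A.χ (A.idx (pr (G z)))) (F (nearest r₂ F w (pr (G z)))) := A.good _ hGX _ (hF.2.1 _) hd'
  constructor
  · exact mul_nonneg (CRho_cf_nonneg _ _ _ _) (pow_nonneg (norm_nonneg _) _)
  · unfold rh
    refine mul_le_mul (hB _ _ hg) (pow_le_pow_left₀ (norm_nonneg _) ?_ _) (pow_nonneg (norm_nonneg _) _) hB₁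
    refine (CRho_det _ _).trans ?_
    have h1 : ‖qc A (A.idx (pr (G z))) F (nearest r₂ F w (pr (G z))) - qc A (A.idx (pr (G z))) G z‖ ≤ 1 := by
      refine (norm_sub_le _ _).trans ?_
      have h2 := hg.2.2
      have h3 := hg'.2.2
      unfold qc
      linarith
    have h2 := h.lc.der_le G hG _ z hg
    calc 2 * (‖qc A (A.idx (pr (G z))) F (nearest r₂ F w (pr (G z))) - qc A (A.idx (pr (G z))) G z‖ *
          ‖deriv (qc A (A.idx (pr (G z))) G) z‖) ≤ 2 * (1 * K₀) := by gcongr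
      _ = 2 * K₀ := by ring

private theorem CRho_pow {j : ℕ} (hj : j = 1) (hm : 1 ≤ m) (Ω : Form X m j) (χ : Chart X) (p : ℂ × ℂ) :
    Pool.Agent.H14.PP.ACoef Ω χ p ^ m = ‖aCoef Ω χ p‖ * ‖χ.σ p‖ := by
  subst hj
  have hm0 : (m : ℝ) ≠ 0 := by
    have : (1 : ℝ) ≤ m := by exact_mod_cast hm
    linarith
  unfold Pool.Agent.H14.PP.ACoef
  rw [mul_pow, ← Real.rpow_natCast (‖aCoef Ω χ p‖ ^ (1 / (m : ℝ))) m,
    ← Real.rpow_natCast (‖χ.σ p‖ ^ (((1 : ℕ) : ℝ) / m)) m, ← Real.rpow_mul (norm_nonneg _),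
    ← Real.rpow_mul (norm_nonneg _), Nat.cast_one, one_div_mul_cancel hm0, Real.rpow_one, Real.rpow_one]

theorem coef_trans (hX : IsCone X) (A : Atlas X) (hm : 1 ≤ m) (Ω : Form X m 1) {i k : Fin A.n} {x : EN N} (hk : Good (A.χ k) x)
    (hi : Good (A.χ i) x) : cf A Ω k x = ‖jac (fun p => (A.χ i).q ((A.χ k).σ p)) ((A.χ k).q x)‖ ^ m * cf A Ω i x := by
  have hp := CRho_sub hk.2.2
  obtain ⟨-, a, ha, hxa⟩ := (A.χ k).surj x hk.1 hk.2.1
  have hσ : (A.χ k).σ ((A.χ k).q x) = a⁻¹ • x := by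
    conv_rhs => rw [hxa]
    rw [smul_smul, inv_mul_cancel₀ ha, one_smul]
  have hU : (A.χ k).σ ((A.χ k).q x) ∈ (A.χ i).U := by
    rw [hσ]
    exact (A.χ i).smul_U x hi.2.1 _ (inv_ne_zero ha)
  have hq : (A.χ i).q ((A.χ k).σ ((A.χ k).q x)) = (A.χ i).q x := by
    rw [hσ, (A.χ i).q_smul x hi.2.1 _ (inv_ne_zero ha)]
  have h1 := Pool.Agent.H14.PP.ACoef_trans hX (CRho_open hX) hm Ω (A.χ k) (A.χ i) hp ((A.χ k).σ_mem _ hp).1 hU
  unfold cf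
  rw [← CRho_pow rfl hm Ω (A.χ k), ← CRho_pow rfl hm Ω (A.χ i), h1, mul_pow, hq]

theorem rh_cmp (hX : IsCone X) (h : MC A c L r₀ c₁ K₀ r₂ r₃ ε₃ K) (hm : 1 ≤ m) (Ω : Form X m 1) {s η : ℝ} (hs : 0 < s) (hs₃ : s ≤ r₃)
    (hη : 0 < η) : ∃ ε : ℝ, 0 < ε ∧ ε ≤ ε₃ ∧ ∀ F ∈ BC X c L, ∀ G ∈ BC X c L, ∀ z₀ φ, FolAt evp r₂ s ε F G z₀ φ → ∀ e ψ,
      Match A r₂ r₃ K F G (A.idx (pr (F (φ z₀)))) (φ z₀) z₀ e ψ → ∀ z ∈ closedBall z₀ (s / 2), ∀ k, k = A.idx (pr (F (φ z₀))) →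
        Real.exp (-η) * (cf A Ω k (G z) * ‖Dm A F G k ψ z‖ ^ m) ≤ rh A Ω r₂ F (φ z) G z ∧
          rh A Ω r₂ F (φ z) G z ≤ Real.exp η * (cf A Ω k (G z) * ‖Dm A F G k ψ z‖ ^ m) := by
  have hm0 : (0 : ℝ) < m := by exact_mod_cast hm
  obtain ⟨ε, hε, hε₃, H⟩ := h.det_comp hX hs hs₃ (div_pos hη hm0)
  refine ⟨ε, hε, hε₃, ?_⟩
  intro F hF G hG z₀ φ hfol e ψ hM z hz k hk
  obtain ⟨hn, hmin⟩ := h.nearest_spec hF (φ z) (pr (G z))
  obtain ⟨hlo, hup⟩ := H F hF G hG z₀ φ hfol e ψ hM z hz (nearest r₂ F (φ z) (pr (G z))) hn hmin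
    (A.idx (pr (G z))) k _ _ rfl hk rfl rfl
  have hzb : z ∈ ball z₀ (2 * r₃) := by
    rw [mem_closedBall] at hz
    rw [mem_ball]
    have := h.r₃_pos
    linarith
  have hgk : Good (A.χ k) (G z) := by
    rw [hk]
    exact hM.goodG z hzb
  have hgi := CRho_good A (hG.2.1 z)
  have hct := coef_trans hX A hm Ω hgk hgi
  have hcf := CRho_cf_nonneg A Ω (A.idx (pr (G z))) (G z)
  have hexp : ∀ t : ℝ, Real.exp (t / m) ^ m = Real.exp t := by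
    intro t
    rw [← Real.exp_nat_mul, mul_div_cancel₀ _ hm0.ne']
  have hexp' : Real.exp (-(η / m)) ^ m = Real.exp (-η) := by
    rw [← neg_div, hexp]
  have hkey : ∀ t : ℝ, t ^ m * (cf A Ω k (G z) * ‖Dm A F G k ψ z‖ ^ m) =
      cf A Ω (A.idx (pr (G z))) (G z) *
        (t * (‖jac (fun p => (A.χ (A.idx (pr (G z)))).q ((A.χ k).σ p)) (qc A k G z)‖ * ‖Dm A F G k ψ z‖)) ^ m := by
    intro t
    rw [hct, mul_pow, mul_pow]
    unfold qc
    ring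
  constructor
  · rw [← hexp', hkey]
    unfold rh
    refine mul_le_mul_of_nonneg_left (pow_le_pow_left₀ ?_ hlo _) hcf
    positivity
  · rw [← hexp, hkey]
    unfold rh
    exact mul_le_mul_of_nonneg_left (pow_le_pow_left₀ (norm_nonneg _) hup _) hcf

end Pool.Agent.H5.BD

end

section

/-!
# EF IsoA: an analytic function which vanishes on a smooth curve

`exists_power`: let `g` be analytic at `0` and not identically `0` near `0`.  Then there are arbitrarily small `x` such that, for some `δ > 0`,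
`g (x', y) = 0` implies `y = 0` for `‖x' - x‖ < δ`, `‖y‖ < δ`.
Proof.  `exists_slice_of_ne` (`H17BP/SliceF.lean`): some slice `t ↦ g (t v)` has finite order `k` at `0`.  Induction on `k`.
* If `x ↦ g (x, 0)` is not identically `0` near `0`: there are arbitrarily small `x` with `g (x, 0) ≠ 0`, and `g ≠ 0` near `(x, 0)` (continuity).
* Otherwise `g (x, 0) = 0` for all small `x`, so (`exists_div_y`, `H17BP/NF.lean` or `Div.lean`) `g (x, y) = y * g₁ (x, y)` near `0` with `g₁` analytic at `0`.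
  The slice of `g₁` along the same `v` has order `k - 1` (`v.2 ≠ 0` because the slice of `g` is not identically `0`).  Apply the induction hypothesis to `g₁`: for
  small `x` (so that `g = y g₁` near `(x, 0)`) `g (x', y) = 0` implies `y = 0` or `g₁ (x', y) = 0`, hence `y = 0`.

`exists_isolated`: let `π : ℂ → ℂ × ℂ` be analytic at `0` with `π 0 = p₀`, `π' 0 ≠ 0`, and let `G` be analytic at `p₀`, not identically `0` near `p₀`,
with `G (π z) = 0` for `z` near `0`.  Then there are arbitrarily small `z₁` and `δ > 0` such that every zero `p` of `G` with `‖p - π z₁‖ < δ` is of the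
form `p = π z` with `‖z - z₁‖ < ε'` (for every prescribed `ε' > 0`).
Proof.  Let `e` be a vector which is not a multiple of `π' 0`, `Φ (z, w) = π z + w • e - p₀`: a local biholomorphic map (`bihol_iff`: the derivative at `0` has the columns
`π' 0`, `e`).  `g = G (p₀ + Φ ·)` is analytic at `0` and not identically `0` near `0`.  Take `z₁` as in `exists_power` for `g`, small.  `Φ` is a homeomorphism from a
neighbourhood of `0` to a neighbourhood of `0` (inverse germ `Φ'`, analytic near `0`), so every `p` near `π z₁` is `p₀ + Φ (z, w)` with `(z, w) = Φ' (p - p₀)` near `(z₁, 0)`;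
`G p = 0` gives `g (z, w) = 0`, `w = 0`, `p = π z`.
-/

set_option autoImplicit false

open Topology Filter Metric

namespace Pool.Agent.H62.EF

attribute [-instance] ProperSMul.toContinuousSMul

private theorem pow_aux (k : ℕ) : ∀ {g : ℂ × ℂ → ℂ} (v : ℂ × ℂ), AnalyticAt ℂ g 0 →
    analyticOrderAt (fun z : ℂ => g (z * v.1, z * v.2)) 0 ≤ (k : ℕ∞) → ∀ {ε : ℝ}, 0 < ε →
    ∃ (x : ℂ) (δ : ℝ), ‖x‖ < ε ∧ 0 < δ ∧ ∀ x' y : ℂ, ‖x' - x‖ < δ → ‖y‖ < δ → g (x', y) = 0 → y = 0 := by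
  -- the case that `g (x, 0)` is not identically zero
  have case1 : ∀ {g : ℂ × ℂ → ℂ}, AnalyticAt ℂ g 0 → (¬ ∀ᶠ x in 𝓝 (0 : ℂ), g (x, 0) = 0) →
      ∀ {ε : ℝ}, 0 < ε → ∃ (x : ℂ) (δ : ℝ), ‖x‖ < ε ∧ 0 < δ ∧
        ∀ x' y : ℂ, ‖x' - x‖ < δ → ‖y‖ < δ → g (x', y) = 0 → y = 0 := by
    intro g hg h0 ε hε
    have hf : ∃ᶠ x in 𝓝 (0 : ℂ), g (x, 0) ≠ 0 := not_eventually.1 h0
    have ht : Tendsto (fun x : ℂ => ((x, 0) : ℂ × ℂ)) (𝓝 0) (𝓝 0) :=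
      (continuous_id.prodMk continuous_const).tendsto' _ _ rfl
    have han : ∀ᶠ x in 𝓝 (0 : ℂ), AnalyticAt ℂ g (x, 0) := ht.eventually hg.eventually_analyticAt
    have hε' : ∀ᶠ x in 𝓝 (0 : ℂ), ‖x‖ < ε := by
      filter_upwards [Metric.ball_mem_nhds (0 : ℂ) hε] with x hx
      exact mem_ball_zero_iff.1 hx
    obtain ⟨x, hx0, hx1, hx2⟩ := (hf.and_eventually (han.and hε')).exists
    have hne : ∀ᶠ p in 𝓝 ((x, 0) : ℂ × ℂ), g p ≠ 0 := hx1.continuousAt.eventually_ne hx0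
    obtain ⟨δ, hδ, hδ'⟩ := Metric.eventually_nhds_iff.1 hne
    refine ⟨x, δ, hx2, hδ, fun x' y h1 h2 h3 => ?_⟩
    have hd : dist ((x', y) : ℂ × ℂ) (x, 0) < δ := by
      rw [Prod.dist_eq]
      refine max_lt ?_ ?_
      · simpa [dist_eq_norm] using h1
      · simpa [dist_eq_norm] using h2
    exact absurd h3 (hδ' hd)
  induction k with
  | zero =>
    intro g v hg ho ε hε
    refine case1 hg ?_ hε
    intro h
    -- the slice has order zero but vanishes at zero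
    have h1 : analyticOrderAt (fun z : ℂ => g (z * v.1, z * v.2)) 0 = 0 := by
      simpa using ho
    have han : AnalyticAt ℂ (fun z : ℂ => g (z * v.1, z * v.2)) 0 := by
      refine AnalyticAt.comp_of_eq (g := g) (f := fun z : ℂ => ((z * v.1, z * v.2) : ℂ × ℂ)) hg ?_ ?_
      · exact (analyticAt_id.mul analyticAt_const).prod (analyticAt_id.mul analyticAt_const)
      · simp
    rw [han.analyticOrderAt_eq_zero] at h1
    apply h1
    simp only [zero_mul]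
    exact h.self_of_nhds
  | succ k ih =>
    intro g v hg ho ε hε
    by_cases h : ∀ᶠ x in 𝓝 (0 : ℂ), g (x, 0) = 0
    · obtain ⟨g₁, hg₁, he⟩ := Pool.Agent.H17BP.exists_div_y hg h
      have hl : AnalyticAt ℂ (fun z : ℂ => ((z * v.1, z * v.2) : ℂ × ℂ)) 0 :=
        (analyticAt_id.mul analyticAt_const).prod (analyticAt_id.mul analyticAt_const)
      have han : AnalyticAt ℂ (fun z : ℂ => g₁ (z * v.1, z * v.2)) 0 :=
        AnalyticAt.comp_of_eq (g := g₁) (f := fun z : ℂ => ((z * v.1, z * v.2) : ℂ × ℂ)) hg₁ hl (by simp)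
      have hlt : Tendsto (fun z : ℂ => ((z * v.1, z * v.2) : ℂ × ℂ)) (𝓝 0) (𝓝 0) := by
        have h1 : Continuous (fun z : ℂ => ((z * v.1, z * v.2) : ℂ × ℂ)) := by fun_prop
        exact h1.tendsto' _ _ (by simp)
      have hm : AnalyticAt ℂ (fun z : ℂ => z * v.2) 0 := analyticAt_id.mul analyticAt_const
      have hcongr : (fun z : ℂ => g (z * v.1, z * v.2)) =ᶠ[𝓝 0]
          ((fun z : ℂ => z * v.2) * fun z : ℂ => g₁ (z * v.1, z * v.2)) := by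
        filter_upwards [hlt.eventually he] with z hz
        rw [hz]
        rfl
      rw [analyticOrderAt_congr hcongr, analyticOrderAt_mul hm han] at ho
      have h1 : 1 ≤ analyticOrderAt (fun z : ℂ => z * v.2) 0 := by
        rw [Order.one_le_iff_ne_zero, hm.analyticOrderAt_ne_zero]
        exact zero_mul _
      have h2 : analyticOrderAt (fun z : ℂ => g₁ (z * v.1, z * v.2)) 0 ≤ (k : ℕ∞) := by
        have h3 : 1 + analyticOrderAt (fun z : ℂ => g₁ (z * v.1, z * v.2)) 0 ≤ ((k + 1 : ℕ) : ℕ∞) :=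
          le_trans (by gcongr) ho
        rw [Nat.cast_add, Nat.cast_one, add_comm] at h3
        exact (ENat.add_le_add_iff_right (by simp)).1 h3
      obtain ⟨r, hr, hr'⟩ := Metric.eventually_nhds_iff.1 he
      obtain ⟨x, δ, hx, hδ, hx'⟩ := ih v hg₁ h2 (lt_min hε hr)
      have hxr : ‖x‖ < r := lt_of_lt_of_le hx (min_le_right _ _)
      refine ⟨x, min δ (r - ‖x‖), lt_of_lt_of_le hx (min_le_left _ _), lt_min hδ (by linarith), ?_⟩
      intro x' y h3 h4 h5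
      have h6 : dist ((x', y) : ℂ × ℂ) 0 < r := by
        rw [dist_zero_right, Prod.norm_def]
        refine max_lt ?_ ?_
        · have h7 := lt_of_lt_of_le h3 (min_le_right _ _)
          have h8 : ‖x'‖ ≤ ‖x' - x‖ + ‖x‖ := by
            calc ‖x'‖ = ‖(x' - x) + x‖ := by rw [sub_add_cancel]
              _ ≤ _ := norm_add_le _ _
          simp only
          linarith
        · have h7 := lt_of_lt_of_le h4 (min_le_right _ _)
          have h8 := norm_nonneg x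
          simp only
          linarith
      have h7 := hr' h6
      rw [h5, smul_eq_mul] at h7
      rcases mul_eq_zero.1 h7.symm with h8 | h8
      · exact h8
      · exact hx' x' y (lt_of_lt_of_le h3 (min_le_left _ _)) (lt_of_lt_of_le h4 (min_le_left _ _)) h8
    · exact case1 hg h hε

theorem exists_power {g : ℂ × ℂ → ℂ} (hg : AnalyticAt ℂ g 0) (h0 : ¬ ∀ᶠ x in 𝓝 (0 : ℂ × ℂ), g x = 0) {ε : ℝ} (hε : 0 < ε) :
    ∃ (x : ℂ) (δ : ℝ), ‖x‖ < ε ∧ 0 < δ ∧ ∀ x' y : ℂ, ‖x' - x‖ < δ → ‖y‖ < δ → g (x', y) = 0 → y = 0 := by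
  obtain ⟨m, v, hm⟩ := Pool.Agent.H17BP.exists_slice_of_ne hg h0
  exact pow_aux m v hg hm hε

theorem exists_isolated {π : ℂ → ℂ × ℂ} (hπ : AnalyticAt ℂ π 0) (hπ' : deriv π 0 ≠ 0) {G : ℂ × ℂ → ℂ} (hG : AnalyticAt ℂ G (π 0))
    (h0 : ¬ ∀ᶠ p in 𝓝 (π 0), G p = 0) {ε : ℝ} (hε : 0 < ε) :
    ∃ z₁ : ℂ, ‖z₁‖ < ε ∧ ∀ ε' : ℝ, 0 < ε' → ∃ δ : ℝ, 0 < δ ∧ ∀ p : ℂ × ℂ, ‖p - π z₁‖ < δ → G p = 0 → ∃ z : ℂ, ‖z - z₁‖ < ε' ∧ p = π z := by
  -- a vector which is not a multiple of the derivative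
  obtain ⟨e, he⟩ : ∃ e : ℂ × ℂ, (deriv π 0).1 * e.2 - e.1 * (deriv π 0).2 ≠ 0 := by
    by_cases h1 : (deriv π 0).1 = 0
    · refine ⟨(1, 0), ?_⟩
      have h2 : (deriv π 0).2 ≠ 0 := fun h2 => hπ' (Prod.ext h1 h2)
      simpa using h2
    · exact ⟨(0, 1), by simpa using h1⟩
  set Φ : ℂ × ℂ → ℂ × ℂ := fun x => π x.1 + x.2 • e - π 0 with hΦdef
  have hπ1 : AnalyticAt ℂ (fun x : ℂ × ℂ => π x.1) 0 :=
    AnalyticAt.comp_of_eq (g := π) (f := fun x : ℂ × ℂ => x.1) hπ analyticAt_fst rfl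
  have hΦan : AnalyticAt ℂ Φ 0 := (hπ1.add (analyticAt_snd.smul analyticAt_const)).sub analyticAt_const
  have hΦ0 : Φ 0 = 0 := by
    simp [hΦdef]
  have hd1 : HasFDerivAt π (ContinuousLinearMap.toSpanSingleton ℂ (deriv π 0)) ((0 : ℂ × ℂ).1) :=
    hπ.differentiableAt.hasDerivAt.hasFDerivAt
  have hd2 : HasFDerivAt (fun x : ℂ × ℂ => π x.1)
      ((ContinuousLinearMap.toSpanSingleton ℂ (deriv π 0)).comp (ContinuousLinearMap.fst ℂ ℂ ℂ)) 0 :=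
    HasFDerivAt.comp (g := π) (0 : ℂ × ℂ) hd1 hasFDerivAt_fst
  have hd3 : HasFDerivAt (fun x : ℂ × ℂ => x.2 • e) ((ContinuousLinearMap.snd ℂ ℂ ℂ).smulRight e) 0 :=
    (hasFDerivAt_snd (𝕜 := ℂ) (E := ℂ) (F := ℂ) (p := (0 : ℂ × ℂ))).smul_const e
  have hd4 : HasFDerivAt Φ ((ContinuousLinearMap.toSpanSingleton ℂ (deriv π 0)).comp (ContinuousLinearMap.fst ℂ ℂ ℂ) +
      (ContinuousLinearMap.snd ℂ ℂ ℂ).smulRight e) 0 := (hd2.add hd3).sub_const (π 0)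
  have hbi : Pool.Agent.H17BP.Bihol Φ := by
    rw [Pool.Agent.H17BP.bihol_iff hΦan hΦ0, hd4.fderiv]
    simpa using he
  obtain ⟨Φ', hΦ', hinv1, hinv2⟩ := hbi.exists_inv
  -- the function in the new coordinates
  have hgan : AnalyticAt ℂ (fun x : ℂ × ℂ => G (π 0 + Φ x)) 0 := by
    refine AnalyticAt.comp_of_eq (g := G) (f := fun x : ℂ × ℂ => π 0 + Φ x) hG ?_ ?_
    · exact analyticAt_const.add hΦan
    · rw [hΦ0, add_zero]
  have hsub : Tendsto (fun p : ℂ × ℂ => p - π 0) (𝓝 (π 0)) (𝓝 0) := by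
    have h1 : Continuous (fun p : ℂ × ℂ => p - π 0) := by fun_prop
    exact h1.tendsto' _ _ (sub_self _)
  have hgne : ¬ ∀ᶠ x in 𝓝 (0 : ℂ × ℂ), G (π 0 + Φ x) = 0 := by
    intro h
    apply h0
    filter_upwards [(hΦ'.tendsto.comp hsub).eventually h, hsub.eventually hinv2] with p h1 h2
    simp only [Function.comp_apply] at h1
    rw [h2, add_sub_cancel] at h1
    exact h1
  -- smallness
  have hline : Tendsto (fun z : ℂ => ((z, 0) : ℂ × ℂ)) (𝓝 0) (𝓝 0) :=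
    (continuous_id.prodMk continuous_const).tendsto' _ _ rfl
  have e1 : ∀ᶠ z in 𝓝 (0 : ℂ), Φ' (Φ (z, 0)) = (z, 0) := hline.eventually hinv1
  have e2 : ∀ᶠ z in 𝓝 (0 : ℂ), AnalyticAt ℂ Φ' (Φ (z, 0)) :=
    (hbi.tendsto.comp hline).eventually hΦ'.an.eventually_analyticAt
  have e3 : ∀ᶠ z in 𝓝 (0 : ℂ), ∀ᶠ q in 𝓝 (Φ (z, 0)), Φ (Φ' q) = q :=
    (hbi.tendsto.comp hline).eventually hinv2.eventually_nhds
  obtain ⟨r, hr, hr'⟩ := Metric.eventually_nhds_iff.1 (e1.and (e2.and e3))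
  obtain ⟨z₁, δ₀, hz₁, hδ₀, hz₁'⟩ := exists_power hgan hgne (lt_min hε hr)
  obtain ⟨f1, f2, f3⟩ := hr' (y := z₁) (by
    rw [dist_zero_right]
    exact lt_of_lt_of_le hz₁ (min_le_right _ _))
  refine ⟨z₁, lt_of_lt_of_le hz₁ (min_le_left _ _), fun ε' hε' => ?_⟩
  have hΦz : Φ (z₁, 0) = π z₁ - π 0 := by
    simp [hΦdef]
  have hcont : Tendsto Φ' (𝓝 (Φ (z₁, 0))) (𝓝 (z₁, 0)) := by
    have := f2.continuousAt.tendsto
    rwa [f1] at this
  have g1 : ∀ᶠ q in 𝓝 (Φ (z₁, 0)), dist (Φ' q) (z₁, 0) < min δ₀ ε' :=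
    hcont.eventually (Metric.ball_mem_nhds _ (lt_min hδ₀ hε'))
  obtain ⟨δ, hδ, hδ'⟩ := Metric.eventually_nhds_iff.1 (g1.and f3)
  refine ⟨δ, hδ, fun p hp hGp => ?_⟩
  obtain ⟨k1, k2⟩ := hδ' (y := p - π 0) (by
    rw [hΦz, dist_eq_norm, sub_sub_sub_cancel_right]
    exact hp)
  rw [Prod.dist_eq] at k1
  have k3 : ‖(Φ' (p - π 0)).1 - z₁‖ < min δ₀ ε' := by
    have := lt_of_le_of_lt (le_max_left _ _) k1
    rwa [dist_eq_norm] at this
  have k4 : ‖(Φ' (p - π 0)).2‖ < min δ₀ ε' := by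
    have := lt_of_le_of_lt (le_max_right _ _) k1
    simpa [dist_eq_norm] using this
  have k5 : (Φ' (p - π 0)).2 = 0 := by
    refine hz₁' (Φ' (p - π 0)).1 (Φ' (p - π 0)).2 (lt_of_lt_of_le k3 (min_le_left _ _))
      (lt_of_lt_of_le k4 (min_le_left _ _)) ?_
    simp only [Prod.mk.eta]
    rw [k2, add_sub_cancel]
    exact hGp
  refine ⟨(Φ' (p - π 0)).1, lt_of_lt_of_le k3 (min_le_right _ _), ?_⟩
  have k6 : Φ (Φ' (p - π 0)) = π (Φ' (p - π 0)).1 - π 0 := by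
    simp only [hΦdef]
    rw [k5, zero_smul, add_zero]
  rw [k6] at k2
  exact (sub_left_injective k2).symm

end Pool.Agent.H62.EF

end

section

/-!
# BD CZ: the zero set of the form

`mem_ZΩ`: let `Good χ x`, `p = χ.q x`, `x = a • χ.σ p`, `a ≠ 0`.  Every tangent vector at `y = χ.σ p` is `v = dσ_p ξ + b • y` (`Chart.curve` for a curve `F` with `F 0 = y`, `F' 0 = v`: `F z = c z • σ (q (F z))` near `0`,
`c 0 = 1`), so `Ω y v w = det (ξ, ξ')^m aCoef Ω χ p` (`add_smul`, `det`), and `dσ_p (1, 0)`, `dσ_p (0, 1)` are tangent vectors (`Chart.tan`).  So `Ω y v w = 0` for all tangent `v, w` iff `aCoef Ω χ p = 0`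
(`m ≥ 1`).  By `scale` the condition is invariant under `y ↦ a • y` (`Tan` is), and `pr x = pr x'` iff `x, x'` are proportional (`pr_eq_iff`).
`isClosed_ZΩ`: let `y n ∈ ZΩ Ω`, `y n → y`; `y ∈ pr '' X` (compact, `isCompact_pr`), `y = pr x`; let `i = A.idx (pr x)`; for large `n` `y n = pr (x n)`, `x n` good for `i` (`A.good`), `aCoef (q (x n)) = 0`,
`q (x n) → q x` (`A.le_dist`), `aCoef` is continuous, so `aCoef (q x) = 0`.
`ZΩ_small`: otherwise there are `η > 0`, `i n`, `x n` good for `i n`, with `cf A Ω (i n) (x n) → 0` and no point of `ZΩ Ω` at distance `≤ η` of `pr (x n)`; along an ultrafilter `i n = i` is constant, `p n = q (x n) → p`, `‖p‖ ≤ 1 / 2`;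
`‖aCoef Ω (A.χ i) p‖ ‖σ p‖ = 0`, so `aCoef = 0`, `pr (σ p) ∈ ZΩ Ω` and `pr (x n) = pr (σ (p n)) → pr (σ p)`: contradiction.
`ZΩ_dense`: `F` is continuous; near every `z₁` with `i = A.idx (pr (F z₁))` `pr (F z) ∈ ZΩ Ω` iff `aCoef Ω (A.χ i) (qc A i F z) = 0`, an analytic function of `z`; so
(`AnalyticAt.eventually_eq_zero_or_eventually_ne_zero`) it is `0` near `z₁` or `≠ 0` for `z ≠ z₁` near `z₁`.  Both sets of points `z₁` are open and disjoint, their union is `ℂ` (connected).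
-/

set_option autoImplicit false

open Topology Filter Metric

namespace Pool.Agent.H5.BD

attribute [-instance] ProperSMul.toContinuousSMul

open Pool.Agent.H36.BP (EN fs wd)
open Pool.Agent.H14.PP (IsCone Chart Form Tan aCoef jac)
open Pool.Agent.H62.EF (MN pr det2)

variable {N : ℕ} {X : Set (EN N)} {m : ℕ}

/-- the zero set of the form `Ω` in the projective space -/
def ZΩ (Ω : Form X m 1) : Set (MN N) := {y | ∃ x ∈ X, y = pr x ∧ ∀ v w, Tan X x v → Tan X x w → Ω.toFun x v w = 0}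

private theorem cz_open (hX : IsCone X) : Pool.Agent.H14.PP.IsOpenPart X X :=
  ⟨subset_rfl, hX.smul_mem, fun _ _ => Filter.Eventually.of_forall fun _ h => h⟩

private theorem cz_ball {χ : Chart X} {x : EN N} (hx : Good χ x) : χ.q x ∈ ball (0 : ℂ × ℂ) 2 := by
  rw [mem_ball_zero_iff]
  have := hx.2.2
  linarith

private theorem cz_tan_smul (hX : IsCone X) {x v : EN N} (h : Tan X x v) {c : ℂ} (hc : c ≠ 0) :
    Tan X (c • x) (c • v) := by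
  obtain ⟨F, ⟨hF, hFX⟩, h0, h1⟩ := h
  refine ⟨fun z => c • F z, ⟨?_, ?_⟩, ?_, ?_⟩
  · exact AnalyticAt.fun_const_smul hF
  · filter_upwards [hFX] with z hz
    exact hX.smul_mem _ hz c hc
  · simp only [h0]
  · rw [← h1]
    exact (hF.differentiableAt.hasDerivAt.const_smul c).deriv

/-- the tangent vectors in a chart -/
private theorem cz_tan (hX : IsCone X) (χ : Chart X) {p : ℂ × ℂ} (hp : p ∈ ball (0 : ℂ × ℂ) 2) {v : EN N}
    (hv : Tan X (χ.σ p) v) : ∃ (ξ : ℂ × ℂ) (b : ℂ), v = fderiv ℂ χ.σ p ξ + b • χ.σ p := by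
  obtain ⟨F, hF, h0, h1⟩ := hv
  have hσ := χ.σ_mem p hp
  have hU : F 0 ∈ χ.U := by rw [h0]; exact hσ.2.1
  obtain ⟨a1, _, c, hc, hc0, hev⟩ := Chart.curve hX χ hF hU
  have hq0 : χ.q (F 0) = p := by rw [h0]; exact hσ.2.2
  have hne : χ.σ p ≠ 0 := Chart.sigma_ne_zero hX χ hp
  have e0 := hev.self_of_nhds.2
  rw [hq0, h0] at e0
  have hc1 : c 0 = 1 := by
    have h2 : (1 : ℂ) • χ.σ p = c 0 • χ.σ p := by rw [one_smul]; exact e0
    exact (smul_left_injective ℂ hne h2).symm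
  have hσd : DifferentiableAt ℂ χ.σ p := (χ.σ_an p hp).differentiableAt
  have hg : HasDerivAt (fun z => χ.q (F z)) (deriv (fun z => χ.q (F z)) 0) 0 :=
    a1.differentiableAt.hasDerivAt
  have hσF : HasFDerivAt χ.σ (fderiv ℂ χ.σ p) (χ.q (F 0)) := by
    rw [hq0]; exact hσd.hasFDerivAt
  have hcomp : HasDerivAt (fun z => χ.σ (χ.q (F z)))
      (fderiv ℂ χ.σ p (deriv (fun z => χ.q (F z)) 0)) 0 := hσF.comp_hasDerivAt (0 : ℂ) hg
  have hprod := hc.differentiableAt.hasDerivAt.smul hcomp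
  have heq : F =ᶠ[𝓝 0] fun z => c z • χ.σ (χ.q (F z)) := hev.mono fun z hz => hz.2
  have hd := heq.deriv_eq
  have hd2 : deriv (fun z => c z • χ.σ (χ.q (F z))) 0
      = c 0 • fderiv ℂ χ.σ p (deriv (fun z => χ.q (F z)) 0) + deriv c 0 • χ.σ (χ.q (F 0)) :=
    hprod.deriv
  refine ⟨deriv (fun z => χ.q (F z)) 0, deriv c 0, ?_⟩
  rw [← h1, hd, hd2, hc1, one_smul, hq0]

private theorem cz_vanish (hX : IsCone X) (Ω : Form X m 1) (χ : Chart X) {p : ℂ × ℂ}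
    (hp : p ∈ ball (0 : ℂ × ℂ) 2) :
    (∀ v w, Tan X (χ.σ p) v → Tan X (χ.σ p) w → Ω.toFun (χ.σ p) v w = 0) ↔ aCoef Ω χ p = 0 := by
  have hσ := χ.σ_mem p hp
  have ht : ∀ w : ℂ × ℂ, Tan X (χ.σ p) (fderiv ℂ χ.σ p w) := fun w =>
    Chart.tan (cz_open hX) χ hp hσ.1 w
  constructor
  · intro h
    exact h _ _ (ht (1, 0)) (ht (0, 1))
  · intro h v w hv hw
    obtain ⟨ξ, b, rfl⟩ := cz_tan hX χ hp hv
    obtain ⟨ξ', b', rfl⟩ := cz_tan hX χ hp hw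
    rw [Ω.add_smul _ hσ.1 _ _ (ht ξ) (ht ξ')]
    have hl : ∀ ζ : ℂ × ℂ, fderiv ℂ χ.σ p ζ
        = ζ.1 • fderiv ℂ χ.σ p (1, 0) + ζ.2 • fderiv ℂ χ.σ p (0, 1) := by
      intro ζ
      rw [← map_smul, ← map_smul, ← map_add]
      congr 1
      ext <;> simp
    rw [hl ξ, hl ξ', Ω.det _ hσ.1 _ _ (ht (1, 0)) (ht (0, 1))]
    have h2 : Ω.toFun (χ.σ p) (fderiv ℂ χ.σ p (1, 0)) (fderiv ℂ χ.σ p (0, 1)) = 0 := h
    rw [h2, mul_zero]

theorem mem_ZΩ (hX : IsCone X) (hm : 1 ≤ m) (Ω : Form X m 1) (χ : Chart X) {x : EN N} (hx : Good χ x) :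
    pr x ∈ ZΩ Ω ↔ aCoef Ω χ (χ.q x) = 0 := by
  have hp := cz_ball hx
  have hσ := χ.σ_mem _ hp
  have hne : χ.σ (χ.q x) ≠ 0 := Chart.sigma_ne_zero hX χ hp
  obtain ⟨_, a, ha, hxa⟩ := χ.surj x hx.1 hx.2.1
  have hpr : pr x = pr (χ.σ (χ.q x)) := by
    conv_lhs => rw [hxa]
    exact Pool.Agent.H62.EF.pr_smul _ ha
  rw [← cz_vanish hX Ω χ hp]
  constructor
  · rintro ⟨x', hx', he, h⟩ v w hv hw
    rw [hpr] at he
    obtain ⟨c, hc, hc'⟩ := (Pool.Agent.H62.EF.pr_eq_iff hne (fun h0 => hX.zero_notMem (h0 ▸ hx'))).1 he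
    have h1 := Ω.scale _ hσ.1 v w hv hw c⁻¹ (inv_ne_zero hc)
    have h2 : c⁻¹ • χ.σ (χ.q x) = x' := by rw [hc', smul_smul, inv_mul_cancel₀ hc, one_smul]
    have hv' := cz_tan_smul hX hv (inv_ne_zero hc)
    have hw' := cz_tan_smul hX hw (inv_ne_zero hc)
    rw [h2] at hv' hw' h1
    rw [← h1, h _ _ hv' hw', mul_zero]
  · intro h
    exact ⟨χ.σ (χ.q x), hσ.1, hpr, h⟩

private theorem cz_aC (hX : IsCone X) (Ω : Form X m 1) (χ : Chart X) {p : ℂ × ℂ}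
    (hp : p ∈ ball (0 : ℂ × ℂ) 2) : AnalyticAt ℂ (aCoef Ω χ) p :=
  Pool.Agent.H14.PP.aCoef_analytic (cz_open hX) Ω χ hp (χ.σ_mem p hp).1

theorem isClosed_ZΩ (hX : IsCone X) (A : Atlas X) (hm : 1 ≤ m) (Ω : Form X m 1) : IsClosed (ZΩ Ω) := by
  apply IsSeqClosed.isClosed
  intro y y₀ hy hlim
  have hsub : ∀ n, y n ∈ pr '' X := fun n => by
    obtain ⟨x, hx, h, _⟩ := hy n
    exact ⟨x, hx, h.symm⟩
  have h0 : y₀ ∈ pr '' X :=
    (Pool.Agent.H62.EF.isCompact_pr hX).isClosed.mem_of_tendsto hlim (Filter.Eventually.of_forall hsub)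
  obtain ⟨x, hx, rfl⟩ := h0
  choose x' hx' hy' using hsub
  obtain ⟨i, hi⟩ : ∃ i, i = A.idx (pr x) := ⟨_, rfl⟩
  have hgx : Good (A.χ i) x := by
    rw [hi]
    exact A.good x hx x hx (by rw [dist_self]; exact A.δ_pos.le)
  rw [mem_ZΩ hX hm Ω (A.χ i) hgx]
  have hdist : Tendsto (fun n => dist (y n) (pr x)) atTop (𝓝 0) := tendsto_iff_dist_tendsto_zero.1 hlim
  have hg : ∀ᶠ n in atTop, Good (A.χ i) (x' n) := by
    filter_upwards [hdist.eventually (gt_mem_nhds A.δ_pos)] with n hn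
    rw [hi]
    refine A.good x hx (x' n) (hx' n) ?_
    rw [dist_comm, hy' n]
    exact hn.le
  have hq : Tendsto (fun n => (A.χ i).q (x' n)) atTop (𝓝 ((A.χ i).q x)) := by
    rw [tendsto_iff_norm_sub_tendsto_zero]
    have h3 : Tendsto (fun n => A.C * dist (y n) (pr x)) atTop (𝓝 0) := by
      have := hdist.const_mul A.C
      rwa [mul_zero] at this
    refine squeeze_zero' (Filter.Eventually.of_forall fun _ => norm_nonneg _) ?_ h3
    filter_upwards [hg] with n hn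
    have := A.le_dist i (x' n) x hn hgx
    rwa [hy' n] at this
  have hc := ((cz_aC hX Ω (A.χ i) (cz_ball hgx)).continuousAt.tendsto).comp hq
  refine tendsto_nhds_unique hc ?_
  refine tendsto_const_nhds.congr' ?_
  filter_upwards [hg] with n hn
  have h4 := hy n
  rw [← hy' n, mem_ZΩ hX hm Ω (A.χ i) hn] at h4
  exact h4.symm

private theorem cz_small (hX : IsCone X) (hm : 1 ≤ m) (Ω : Form X m 1) (χ : Chart X) {η : ℝ} (hη : 0 < η) :
    ∃ δ : ℝ, 0 < δ ∧ ∀ x, Good χ x → ‖aCoef Ω χ (χ.q x)‖ * ‖χ.σ (χ.q x)‖ ≤ δ →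
      ∃ y ∈ ZΩ Ω, dist (pr x) y ≤ η := by
  have hB : ∀ p ∈ closedBall (0 : ℂ × ℂ) (1 / 2), p ∈ ball (0 : ℂ × ℂ) 2 := fun p hp => by
    rw [mem_closedBall_zero_iff] at hp
    rw [mem_ball_zero_iff]
    linarith
  have hσc : ∀ p ∈ closedBall (0 : ℂ × ℂ) (1 / 2), ContinuousAt χ.σ p := fun p hp =>
    (χ.σ_an p (hB p hp)).continuousAt
  have hprc : ContinuousOn (fun p => pr (χ.σ p)) (closedBall (0 : ℂ × ℂ) (1 / 2)) := fun p hp =>
    (ContinuousAt.comp (Pool.Agent.H62.EF.continuousAt_pr (Chart.sigma_ne_zero hX χ (hB p hp)))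
      (hσc p hp)).continuousWithinAt
  have hfc : ContinuousOn (fun p => ‖aCoef Ω χ p‖ * ‖χ.σ p‖) (closedBall (0 : ℂ × ℂ) (1 / 2)) :=
    fun p hp => ((cz_aC hX Ω χ (hB p hp)).continuousAt.norm.mul (hσc p hp).norm).continuousWithinAt
  obtain ⟨Cs, hCs⟩ : ∃ Cs : Set (MN N), Cs = {y' | ∀ y ∈ ZΩ Ω, η ≤ dist y' y} := ⟨_, rfl⟩
  have hCcl : IsClosed Cs := by
    have h1 : Cs = ⋂ y ∈ ZΩ Ω, {y' | η ≤ dist y' y} := by
      rw [hCs]
      ext y'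
      simp
    rw [h1]
    exact isClosed_biInter fun y _ => isClosed_le continuous_const (continuous_id.dist continuous_const)
  obtain ⟨S, hS⟩ : ∃ S : Set (ℂ × ℂ), S = closedBall (0 : ℂ × ℂ) (1 / 2) ∩ (fun p => pr (χ.σ p)) ⁻¹' Cs :=
    ⟨_, rfl⟩
  have hScl : IsClosed S := by
    rw [hS]
    exact hprc.preimage_isClosed_of_isClosed isClosed_closedBall hCcl
  have hSc : IsCompact S := by
    refine (isCompact_closedBall (0 : ℂ × ℂ) (1 / 2)).of_isClosed_subset hScl ?_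
    rw [hS]
    exact Set.inter_subset_left
  have hgood : ∀ p ∈ closedBall (0 : ℂ × ℂ) (1 / 2), Good χ (χ.σ p) := fun p hp => by
    have h1 := χ.σ_mem p (hB p hp)
    refine ⟨h1.1, h1.2.1, ?_⟩
    rw [h1.2.2]
    exact mem_closedBall_zero_iff.1 hp
  have hpos : ∀ p ∈ S, 0 < ‖aCoef Ω χ p‖ * ‖χ.σ p‖ := by
    intro p hp
    rw [hS] at hp
    have hne : χ.σ p ≠ 0 := Chart.sigma_ne_zero hX χ (hB p hp.1)
    refine mul_pos (norm_pos_iff.2 fun h0 => ?_) (norm_pos_iff.2 hne)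
    have h1 : pr (χ.σ p) ∈ ZΩ Ω := by
      rw [mem_ZΩ hX hm Ω χ (hgood p hp.1), (χ.σ_mem p (hB p hp.1)).2.2]
      exact h0
    have h2 := hp.2
    rw [Set.mem_preimage, hCs] at h2
    have h3 := h2 _ h1
    rw [dist_self] at h3
    linarith
  have hmin : ∃ δ : ℝ, 0 < δ ∧ ∀ p ∈ S, δ < ‖aCoef Ω χ p‖ * ‖χ.σ p‖ := by
    rcases S.eq_empty_or_nonempty with h0 | h0
    · exact ⟨1, one_pos, fun p hp => by rw [h0] at hp; exact absurd hp (Set.notMem_empty p)⟩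
    · have hSsub : S ⊆ closedBall (0 : ℂ × ℂ) (1 / 2) := by
        rw [hS]
        exact Set.inter_subset_left
      obtain ⟨p, hp, hpm⟩ := hSc.exists_isMinOn h0 (hfc.mono hSsub)
      refine ⟨(‖aCoef Ω χ p‖ * ‖χ.σ p‖) / 2, half_pos (hpos p hp), fun p' hp' => ?_⟩
      have h1 : ‖aCoef Ω χ p‖ * ‖χ.σ p‖ ≤ ‖aCoef Ω χ p'‖ * ‖χ.σ p'‖ := hpm hp'
      have h2 := hpos p hp
      linarith
  obtain ⟨δ, hδ, hδ'⟩ := hmin
  refine ⟨δ, hδ, fun x hx hle => ?_⟩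
  have hpx : χ.q x ∈ closedBall (0 : ℂ × ℂ) (1 / 2) := mem_closedBall_zero_iff.2 hx.2.2
  have hnS : χ.q x ∉ S := fun h => absurd hle (not_le.2 (hδ' _ h))
  rw [hS, Set.mem_inter_iff, not_and, Set.mem_preimage, hCs] at hnS
  have h2 := hnS hpx
  obtain ⟨_, a, ha, hxa⟩ := χ.surj x hx.1 hx.2.1
  have hpr : pr x = pr (χ.σ (χ.q x)) := by
    conv_lhs => rw [hxa]
    exact Pool.Agent.H62.EF.pr_smul _ ha
  rw [← hpr] at h2
  by_contra hcon
  apply h2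
  intro y hy
  by_contra h3
  exact hcon ⟨y, hy, (not_le.1 h3).le⟩

theorem ZΩ_small (hX : IsCone X) (A : Atlas X) (hm : 1 ≤ m) (Ω : Form X m 1) {η : ℝ} (hη : 0 < η) :
    ∃ δ : ℝ, 0 < δ ∧ ∀ i x, Good (A.χ i) x → cf A Ω i x ≤ δ → ∃ y ∈ ZΩ Ω, dist (pr x) y ≤ η := by
  choose d hd hd' using fun i => cz_small hX hm Ω (A.χ i) hη
  rcases isEmpty_or_nonempty (Fin A.n) with h0 | h0
  · exact ⟨1, one_pos, fun i => isEmptyElim i⟩
  · obtain ⟨i₀, hi₀⟩ := Finite.exists_min d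
    exact ⟨d i₀, hd i₀, fun i x hx hle => hd' i x hx (hle.trans (hi₀ i))⟩

theorem ZΩ_dense (hX : IsCone X) (A : Atlas X) (hm : 1 ≤ m) (Ω : Form X m 1) {F : ℂ → EN N} (hF : Differentiable ℂ F) (hFX : ∀ z, F z ∈ X) :
    (∀ z, evp F z ∈ ZΩ Ω) ∨ ∀ z₀, ∀ᶠ z in 𝓝[≠] z₀, evp F z ∉ ZΩ Ω := by
  have hne : ∀ z, F z ≠ 0 := fun z h0 => hX.zero_notMem (h0 ▸ hFX z)
  have hcont : Continuous fun z => pr (F z) := continuous_iff_continuousAt.2 fun z =>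
    ContinuousAt.comp (g := pr) (f := F) (Pool.Agent.H62.EF.continuousAt_pr (hne z)) hF.continuous.continuousAt
  have hdich : ∀ z₁, (∀ᶠ z in 𝓝 z₁, evp F z ∈ ZΩ Ω) ∨ ∀ᶠ z in 𝓝[≠] z₁, evp F z ∉ ZΩ Ω := by
    intro z₁
    obtain ⟨i, hi⟩ : ∃ i, i = A.idx (pr (F z₁)) := ⟨_, rfl⟩
    have hg : ∀ᶠ z in 𝓝 z₁, Good (A.χ i) (F z) := by
      have h1 : Tendsto (fun z => dist (pr (F z₁)) (pr (F z))) (𝓝 z₁) (𝓝 0) := by
        have h2 : Continuous fun z => dist (pr (F z₁)) (pr (F z)) := continuous_const.dist hcont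
        have h3 := h2.tendsto z₁
        rwa [dist_self] at h3
      filter_upwards [h1.eventually (gt_mem_nhds A.δ_pos)] with z hz
      rw [hi]
      exact A.good _ (hFX z₁) _ (hFX z) hz.le
    have hg1 := hg.self_of_nhds
    have ha : AnalyticAt ℂ (fun z => aCoef Ω (A.χ i) ((A.χ i).q (F z))) z₁ := by
      have h1 : AnalyticAt ℂ F z₁ := hF.analyticAt z₁
      have h2 : AnalyticAt ℂ (fun z => (A.χ i).q (F z)) z₁ :=
        AnalyticAt.fun_comp ((A.χ i).q_an _ hg1.2.1) h1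
      exact AnalyticAt.fun_comp (f := fun z => (A.χ i).q (F z)) (cz_aC hX Ω (A.χ i) (cz_ball hg1)) h2
    rcases ha.eventually_eq_zero_or_eventually_ne_zero with h | h
    · left
      filter_upwards [h, hg] with z hz hz'
      exact (mem_ZΩ hX hm Ω (A.χ i) hz').2 hz
    · right
      filter_upwards [h, hg.filter_mono nhdsWithin_le_nhds] with z hz hz'
      exact fun h' => hz ((mem_ZΩ hX hm Ω (A.χ i) hz').1 h')
  by_cases hall : ∀ z₀, ∀ᶠ z in 𝓝[≠] z₀, evp F z ∉ ZΩ Ω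
  · exact Or.inr hall
  · left
    push Not at hall
    obtain ⟨z₀, hz₀⟩ := hall
    obtain ⟨U, hU⟩ : ∃ U : Set ℂ, U = {z₁ | ∀ᶠ z in 𝓝 z₁, evp F z ∈ ZΩ Ω} := ⟨_, rfl⟩
    have hUo : IsOpen U := by
      rw [hU, isOpen_iff_mem_nhds]
      intro z hz
      exact eventually_eventually_nhds.2 hz
    have hUc : IsClosed U := by
      rw [← isOpen_compl_iff, isOpen_iff_mem_nhds]
      intro z hz
      rcases hdich z with h | h
      · exact absurd (by rw [hU]; exact h) hz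
      · rw [eventually_nhdsWithin_iff] at h
        filter_upwards [h] with z' hz' hz'U
        by_cases he : z' = z
        · rw [he] at hz'U
          exact hz hz'U
        · have h1 : ∀ᶠ w in 𝓝 z', evp F w ∈ ZΩ Ω := by rw [hU] at hz'U; exact hz'U
          exact hz' he h1.self_of_nhds
    have hUn : U.Nonempty := by
      refine ⟨z₀, ?_⟩
      rcases hdich z₀ with h | h
      · rw [hU]; exact h
      · exact absurd h hz₀
    have huniv : U = Set.univ := IsClopen.eq_univ ⟨hUc, hUo⟩ hUn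
    intro z
    have h1 : z ∈ U := by rw [huniv]; exact Set.mem_univ z
    rw [hU] at h1
    exact (show ∀ᶠ w in 𝓝 z, evp F w ∈ ZΩ Ω from h1).self_of_nhds

end Pool.Agent.H5.BD

end

section

/-!
# BD CIso: curves in `Z` near a generic point of a curve in `Z`

Let `i = A.idx (pr (G 0))`, `π = qc A i G`, analytic at `0` (`LC.an`; `G 0` is good for `i` by `A.good`), `π' 0 ≠ 0` (`der_ge`).  `g = aCoef Ω (A.χ i)` is analytic at `π 0` and not identically `0` near `π 0` (`hΩ`; `‖π 0‖ ≤ 1 / 2`).  By `mem_ZΩ`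
`g (π z) = 0` for `z` near `0`.  `exists_isolated` (`H62/EF/IsoA.lean`) with a small `ε ≤ η` (so small that `G z` is good for `i` for `‖z‖ < 2 ε`, `LC.good`: `ε ≤ r₀ / 2`, and `dist (pr (G z)) (pr (G 0)) ≤ A.δ / 2`) gives `z₁`.
Given `η'` let `δ'` be the number of `exists_isolated` for `ε' = min η' ε`, and `δ = min (A.δ / 2) (δ' / (2 A.C))`.  Let `F` be in `Z` and `dist (evp F w) (evp G z₁) < δ`.  Then `dist (pr (F w)) (pr (G 0)) ≤ A.δ`, so `F w` is good for `i`,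
`aCoef Ω (A.χ i) (qc A i F w) = 0` (`mem_ZΩ`), `‖qc A i F w - π z₁‖ ≤ A.C δ < δ'` (`le_dist`), so `qc A i F w = π z'` with `‖z' - z₁‖ < ε'`; `G z'` is good for `i`, and `dist_le` gives `evp F w = evp G z'`.
-/

set_option autoImplicit false

open Topology Filter Metric

namespace Pool.Agent.H5.BD

attribute [-instance] ProperSMul.toContinuousSMul

open Pool.Agent.H36.BP (EN fs wd)
open Pool.Agent.H14.PP (IsCone Chart Form Tan aCoef jac)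
open Pool.Agent.H62.EF (MN pr det2)

variable {N : ℕ} {X : Set (EN N)} {A : Atlas X} {c L r₀ c₁ K₀ r₂ r₃ ε₃ K : ℝ} {m : ℕ}

/-- the form is not identically zero near any point -/
def Thin (Ω : Form X m 1) : Prop := ∀ (χ : Chart X), ∀ p ∈ ball (0 : ℂ × ℂ) 2, ∃ᶠ p' in 𝓝 p, aCoef Ω χ p' ≠ 0

theorem MC.iso (hX : IsCone X) (h : MC A c L r₀ c₁ K₀ r₂ r₃ ε₃ K) (hm : 1 ≤ m) (Ω : Form X m 1) (hΩ : Thin Ω) :
    ∀ G ∈ BC X c L, (∀ z, evp G z ∈ ZΩ Ω) → ∀ η : ℝ, 0 < η → ∃ z₁ : ℂ, ‖z₁‖ < η ∧ ∀ η' : ℝ, 0 < η' → ∃ δ : ℝ, 0 < δ ∧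
      ∀ F ∈ BC X c L, (∀ z, evp F z ∈ ZΩ Ω) → ∀ w, dist (evp F w) (evp G z₁) < δ → ∃ z', ‖z' - z₁‖ < η' ∧ evp F w = evp G z' := by
  intro G hG hGZ η hη
  have hlc := h.lc
  have hδ := A.δ_pos
  have hC : 0 < A.C := lt_of_lt_of_le one_pos A.one_le
  have hL := hlc.L_pos
  have hr := hlc.r₀_pos
  have hgood : ∀ z : ℂ, ‖z‖ < r₀ → Good (A.χ (A.idx (pr (G 0)))) (G z) := by
    intro z hz
    refine hlc.good G hG (G 0) (hG.2.1 0) 0 ?_ z ?_
    · rw [dist_self]; positivity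
    · rw [mem_ball_zero_iff]; exact hz
  have hg0 : Good (A.χ (A.idx (pr (G 0)))) (G 0) := hgood 0 (by rw [norm_zero]; exact hr)
  set i := A.idx (pr (G 0)) with hi
  have hπ : AnalyticAt ℂ (qc A i G) 0 := hlc.an G hG i 0 hg0
  have hπ' : deriv (qc A i G) 0 ≠ 0 := by
    intro h0
    have h1 := hlc.der_ge G hG i 0 hg0
    rw [h0, norm_zero] at h1
    exact absurd h1 (not_le.2 hlc.c₁_pos)
  have hball : qc A i G 0 ∈ ball (0 : ℂ × ℂ) 2 := by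
    rw [mem_ball_zero_iff]
    exact lt_of_le_of_lt hg0.2.2 (by norm_num)
  have hK : Pool.Agent.H14.PP.IsOpenPart X X :=
    ⟨subset_rfl, hX.smul_mem, fun x _ => Filter.Eventually.of_forall fun y hy => hy⟩
  have han : AnalyticAt ℂ (aCoef Ω (A.χ i)) (qc A i G 0) :=
    Pool.Agent.H14.PP.aCoef_analytic hK Ω (A.χ i) hball ((A.χ i).σ_mem _ hball).1
  have hne : ¬ ∀ᶠ p in 𝓝 (qc A i G 0), aCoef Ω (A.χ i) p = 0 := by
    intro h0
    have h1 := hΩ (A.χ i) (qc A i G 0) hball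
    exact h1 (h0.mono fun p hp => not_not.2 hp)
  obtain ⟨z₁, hz₁, hiso⟩ := Pool.Agent.H62.EF.exists_isolated hπ hπ' han hne
    (ε := min η (min (r₀ / 2) (A.δ / (4 * L)))) (by positivity)
  have hz₁η : ‖z₁‖ < η := lt_of_lt_of_le hz₁ (min_le_left _ _)
  have hz₁r : ‖z₁‖ < r₀ / 2 := lt_of_lt_of_le hz₁ ((min_le_right _ _).trans (min_le_left _ _))
  have hz₁L : ‖z₁‖ < A.δ / (4 * L) := lt_of_lt_of_le hz₁ ((min_le_right _ _).trans (min_le_right _ _))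
  refine ⟨z₁, hz₁η, ?_⟩
  intro η' hη'
  obtain ⟨δ', hδ', hp⟩ := hiso (min η' (r₀ / 2)) (by positivity)
  refine ⟨min (A.δ / 2) (δ' / (2 * A.C)), by positivity, ?_⟩
  intro F hF hFZ w hw
  have hw1 : dist (pr (F w)) (pr (G z₁)) < A.δ / 2 := lt_of_lt_of_le hw (min_le_left _ _)
  have hw2 : dist (pr (F w)) (pr (G z₁)) < δ' / (2 * A.C) := lt_of_lt_of_le hw (min_le_right _ _)
  have h01 : dist (pr (G 0)) (pr (G z₁)) ≤ A.δ / 2 := by
    have h1 := hlc.lip G hG 0 z₁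
    have h2 : ‖(0 : ℂ) - z₁‖ = ‖z₁‖ := by rw [zero_sub, norm_neg]
    rw [h2] at h1
    have h3 : ‖z₁‖ * (4 * L) < A.δ := by rwa [lt_div_iff₀ (by positivity)] at hz₁L
    linarith
  have hdist : dist (pr (G 0)) (pr (F w)) ≤ A.δ := by
    have h1 := dist_triangle_right (pr (G 0)) (pr (F w)) (pr (G z₁))
    linarith
  have hgF : Good (A.χ i) (F w) := A.good (G 0) (hG.2.1 0) (F w) (hF.2.1 w) hdist
  have hgz₁ : Good (A.χ i) (G z₁) := hgood z₁ (by linarith)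
  have hzero : aCoef Ω (A.χ i) (qc A i F w) = 0 := (mem_ZΩ hX hm Ω (A.χ i) hgF).1 (hFZ w)
  have hnear : ‖qc A i F w - qc A i G z₁‖ < δ' := by
    have h1 := A.le_dist i (F w) (G z₁) hgF hgz₁
    have h2 : dist (pr (F w)) (pr (G z₁)) * (2 * A.C) < δ' := by rwa [lt_div_iff₀ (by positivity)] at hw2
    have h3 : 0 ≤ A.C * dist (pr (F w)) (pr (G z₁)) := by positivity
    have h4 : ‖qc A i F w - qc A i G z₁‖ ≤ A.C * dist (pr (F w)) (pr (G z₁)) := h1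
    linarith
  obtain ⟨z', hz', heq⟩ := hp (qc A i F w) hnear hzero
  refine ⟨z', lt_of_lt_of_le hz' (min_le_left _ _), ?_⟩
  have hz'r : ‖z'‖ < r₀ := by
    have h1 : ‖z' - z₁‖ < r₀ / 2 := lt_of_lt_of_le hz' (min_le_right _ _)
    have h2 : ‖z'‖ ≤ ‖z' - z₁‖ + ‖z₁‖ := by simpa using norm_add_le (z' - z₁) z₁
    linarith
  have hgz' : Good (A.χ i) (G z') := hgood z' hz'r
  have h5 := A.dist_le i (F w) (G z') hgF hgz'
  have h6 : (A.χ i).q (F w) - (A.χ i).q (G z') = 0 := sub_eq_zero.2 heq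
  rw [h6, norm_zero, mul_zero] at h5
  exact dist_le_zero.1 h5

end Pool.Agent.H5.BD

end

section

/-!
# BD CTr: translates and limits of curves with bounded distortion

`bc_trans`: clear (`deriv_comp_add_const`).
`bc_lim`: `limit_curves` (`H62/EF/LimL.lean`) with `ρ n = n` (`h𝒰`) gives `G` entire with values in `X`, `pr (F n z) → pr (G z)`, `fs (F n z) ((F n)' z) → fs (G z) (G' z)`, so `c ≤ fs (G z) (G' z) ≤ L`.
`bc_affine`: if `F ∈ BC X c L`, `‖a‖ = 1`, then `z ↦ F (a z + b)` is in `BC X c L` (`fs x (a • v) = ‖a‖ fs x v`).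
-/

set_option autoImplicit false

open Topology Filter Metric

namespace Pool.Agent.H5.BD

attribute [-instance] ProperSMul.toContinuousSMul

open Pool.Agent.H36.BP (EN fs wd)
open Pool.Agent.H14.PP (IsCone Chart Form Tan jac)
open Pool.Agent.H62.EF (MN pr det2)

variable {N : ℕ} {X : Set (EN N)} {c L : ℝ}

theorem bc_trans {F : ℂ → EN N} (hF : F ∈ BC X c L) (a : ℂ) : (fun z => F (z + a)) ∈ BC X c L := by
  obtain ⟨h1, h2, h3⟩ := hF
  refine ⟨h1.comp (differentiable_id.add_const a), fun z => h2 (z + a), fun z => ?_⟩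
  have h4 : deriv (fun z => F (z + a)) z = deriv F (z + a) := deriv_comp_add_const F a z
  rw [h4]
  exact h3 (z + a)

theorem bc_lim (hX : IsCone X) (hL : 0 < L) (𝒰 : Ultrafilter ℕ) (h𝒰 : (𝒰 : Filter ℕ) ≤ atTop) (F : ℕ → ℂ → EN N)
    (hF : ∀ᶠ n in (𝒰 : Filter ℕ), F n ∈ BC X c L) : ∃ G ∈ BC X c L, ∀ z, Tendsto (fun n => evp (F n) z) 𝒰 (𝓝 (evp G z)) := by
  obtain ⟨G, hG, hGX, hlim, hfs, -⟩ := Pool.Agent.H62.EF.limit_curves hX hL 𝒰 F (fun n => (n : ℝ))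
    (tendsto_natCast_atTop_atTop.mono_left h𝒰)
    (hF.mono fun n hn => ⟨hn.1.differentiableOn, fun z _ => ⟨hn.2.1 z, (hn.2.2 z).2⟩⟩)
  refine ⟨G, ⟨hG, hGX, fun z => ⟨?_, ?_⟩⟩, hlim⟩
  · exact ge_of_tendsto (hfs z) (hF.mono fun n hn => (hn.2.2 z).1)
  · exact le_of_tendsto (hfs z) (hF.mono fun n hn => (hn.2.2 z).2)

end Pool.Agent.H5.BD

end
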