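import Pool.Agent.H94.CB.M207
import Pool.Agent.H94.CB.M222
import Pool.Agent.H94.CB.M94

/-! The parts of this file: H18.LU.CpL_1, H18.LU.IzL. -/

section

/-!
# LU CpL: uniform charts along the limits of the sections

`V = X \ P` is an open cone (`OCone`) with charts: `vCone`, `vTor` clear; `vCharts`: a chart of `X` at `x ∉ P` gives a germ chart (`IsGermChart X σ τ`, with `σ = a • χ.σ`, `τ = χ.q`), which is a germ chart of `V`
(`P_closed`), and `exists_small_chartO`.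

`cap_of_smallO`, `cap_mono`: copies of `cap_of_small`, `cp_cap_mono` (EL Cp) for an open cone `V`.
`exists_capP`: `so_unif` with `Q r z y := ∃ χ c ρ, Cap Λ u χ c ρ z y r ∧ Pr χ` (`Cap` is monotone in `r`; translation by `l ∈ Γ`: `c + l`, `Mon` with `c + l` because `l ∈ Λ`).  Translation of `Pr`: not needed, `Pr χ` does not
depend on `z`.  `hloc` at `(f, w)`: `so_notP`, `so_liftV` gives a lift `Ψ` in `V` near `w`; `hP` gives `η`; `exists_str_of_liftO` (for `V`, charts smaller than `η` and small with respect to `Λ`), `cap_of_smallO`, `cap_mono`.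

`irel_loc`: as in `exists_irel` (EL Cp): a straight chart `χ` at the lift in `V` (`so_notP`, `so_liftV`, `exists_str_of_liftO`), all of whose points are `ε/2`-near `f w`, `Cap`; the lifts of points near `f w` have `χ.q _` near `0`,
the same first coordinate (over `z`), and the segment stays in the chart.
`exists_irelL`: `so_unif` with `Q r z y := ∀ x ∈ V, ∀ x' ∈ V, u x - z ∈ Λ → u x' - z ∈ Λ → pr x = y → dist y (pr x') ≤ r → ∀ α : TForm V Λ u, ∃ v, IRel α ε z y (pr x') v`; the translation (`htr`): `IRel` at `z + l` from `IRel` at `z` for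
another form (replace `c` by `c + l`; the primitive of the form: use `cpRel` as in EL Cp: state `Q` with the existence of the chart and the points, and add a primitive `A` at the end by `exists_prim`).  `hloc`: `irel_loc` (its proof gives the version with
`cpRel`).  For the conclusion: `exists_deep` gives `x ∈ V` with `pr x = f z`; take the larger `r₁`.
`exists_deep`: `deepP` and `so_lift_at` (`z ∈ ball z r₁`, `z ∉ B` because `z ∈ Gd B δ'`): `f z = pr x`, `x ∈ X`; `x ∈ P` would give `0 < r ≤ dist (pr x) (f z) = 0`.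
-/

set_option autoImplicit false

open Topology Filter Metric

namespace Pool.Agent.H18.LU

attribute [-instance] ProperSMul.toContinuousSMul

open Pool.Agent.H36.BP (EN fs wd IsGermChart)
open Pool.Agent.H14.PP (IsCone Chart Tan CurveAt)
open Pool.Agent.H62.EF (Lat MN pr TorusMap Sec Charts DU)
open Pool.Agent.H62.EL (Gd Ag BadSet IsNC TForm Mon mo Cap IRel II tc IsPrim)

variable {N : ℕ} {X D P : Set (EN N)} {Λ Γ : AddSubgroup ℂ} {u : EN N → ℂ} {B : Set ℂ} {δ : ℝ}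

/-- a straight chart at a point of a limit -/
private lemma cpl_chart (E : LData X D P Λ Γ u B δ) {f : ℂ → MN N} (hf : f ∈ SO X D Λ u B Set.univ) {w : ℂ} (hw : w ∉ B) {η : ℝ}
    (hη : 0 < η) : ∃ (x₀ : EN N) (χ : Chart (X \ P)) (ρ r : ℝ), x₀ ∈ X \ P ∧ pr x₀ = f w ∧ x₀ ∈ χ.U ∧ χ.q x₀ = 0 ∧ 0 < r ∧
      Cap Λ u χ w ρ w (f w) r ∧ ∀ p ∈ ball (0 : ℂ × ℂ) 2, dist (pr (χ.σ p)) (f w) < η := by
  obtain ⟨r₀, Ψ, hr₀, -, hΨ, hΨX⟩ := so_liftV E isOpen_univ hf (Set.mem_univ w) hw (so_notP E hf hw)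
  obtain ⟨d, hd, hdis⟩ := E.dsc.discrete
  have hη' : 0 < min η (d / 2) := lt_min hη (by linarith)
  obtain ⟨χ, ρ, hU, hq, hm, hr⟩ := exists_str_of_liftO E.vCone E.vCharts E.vTor E.dsc hr₀ hΨ
    (fun z hz => ⟨(hΨX z hz).2.1, (hΨX z hz).2.2.1⟩) hη'
  obtain ⟨-, hx, hux, hpr⟩ := hΨX w (mem_ball_self hr₀)
  obtain ⟨r, hr1, hcap⟩ := cap_of_smallO E.vCone E.vTor hx hux hm hU hq
    (fun l hl hl' => hdis l hl (lt_of_lt_of_le hl' (by have := min_le_right η (d / 2); linarith))) (fun p hp => (hr p hp).2)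
  rw [hpr] at hcap hr
  exact ⟨Ψ w, χ, ρ, r, hx, hpr, hU, hq, hr1, hcap, fun p hp => lt_of_lt_of_le (hr p hp).1 (min_le_left _ _)⟩

theorem exists_capP (E : LData X D P Λ Γ u B δ) {δ' : ℝ} (hδ' : 0 < δ') (R : ℝ) (Pr : Chart (X \ P) → Prop)
    (hP : ∀ w ∈ Gd B δ', w ∈ Nb Λ R → ∀ f ∈ SO X D Λ u B Set.univ, ∃ η : ℝ, 0 < η ∧
      ∀ χ : Chart (X \ P), (∀ p ∈ ball (0 : ℂ × ℂ) 2, dist (pr (χ.σ p)) (f w) < η) → Pr χ) :
    ∃ r₁ r : ℝ, 0 < r₁ ∧ 0 < r ∧ ∀ z ∈ Gd B δ', z ∈ Nb Λ R → ∀ f ∈ SO X D Λ u B (ball z r₁), ∃ (χ : Chart (X \ P)) (c : ℂ) (ρ : ℝ),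
      Cap Λ u χ c ρ z (f z) r ∧ Pr χ := by
  refine so_unif E hδ' R (fun r z y => ∃ (χ : Chart (X \ P)) (c : ℂ) (ρ : ℝ), Cap Λ u χ c ρ z y r ∧ Pr χ) ?_ ?_ ?_
  · rintro r r' z y - hr ⟨χ, c, ρ, h1, h2⟩
    exact ⟨χ, c, ρ, cpl_cap_le h1 hr, h2⟩
  · rintro r z y l hl ⟨χ, c, ρ, h1, h2⟩
    exact ⟨χ, c + l, ρ, cpl_cap_add h1 (E.le hl), h2⟩
  · intro f hf w hw hwR
    obtain ⟨η, hη, hPη⟩ := hP w hw hwR f hf
    obtain ⟨x₀, χ, ρ, r, -, -, -, -, hr, hcap, hχ⟩ := cpl_chart E hf (Pool.Agent.H62.EL.gd_notMem hδ' hw) hη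
    refine ⟨r / 2, half_pos hr, fun z hz y hy => ⟨χ, w, ρ, cap_mono hcap le_rfl (mem_closedBall.1 hz) (mem_closedBall.1 hy), hPη χ hχ⟩⟩

private lemma cpl_rel_loc (E : LData X D P Λ Γ u B δ) {ε : ℝ} (hε : 0 < ε) {f : ℂ → MN N} (hf : f ∈ SO X D Λ u B Set.univ) {w : ℂ}
    (hw : w ∉ B) : ∃ ε₀ : ℝ, 0 < ε₀ ∧ ∀ z ∈ closedBall w ε₀, ∀ x ∈ X \ P, ∀ x' ∈ X \ P, u x - z ∈ Λ → u x' - z ∈ Λ →
      dist (pr x) (f w) ≤ ε₀ → dist (pr x') (f w) ≤ ε₀ → cplRel (X \ P) Λ u ε z (pr x) (pr x') := by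
  obtain ⟨x₀, χ, ρ, r, hx₀, hpr, hU, hq, hr, hcap, -⟩ := cpl_chart E hf hw one_pos
  -- continuity of the chart at `0`
  have hσ0 : pr (χ.σ 0) = f w := by
    rw [← hpr, ← cpl_pr_q hx₀ hU, hq]
  have h0 : (0 : ℂ × ℂ) ∈ ball (0 : ℂ × ℂ) 2 := mem_ball_self two_pos
  have hcont : ContinuousAt (fun p => pr (χ.σ p)) (0 : ℂ × ℂ) := by
    have h1 : ContinuousAt pr (χ.σ 0) := Pool.Agent.H62.EF.continuousAt_pr (E.vCone.ne_zero (χ.σ_mem 0 h0).1)
    exact ContinuousAt.comp (f := χ.σ) h1 (χ.σ_an 0 h0).continuousAt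
  obtain ⟨s₀, hs₀, hs⟩ := Metric.continuousAt_iff.1 hcont (ε / 2) (half_pos hε)
  rw [hσ0] at hs
  have hs2 : 0 < min s₀ 2 := lt_min hs₀ two_pos
  obtain ⟨d, hd, hqs⟩ := cpl_q_small E.vCone hx₀ hU hq hs2
  rw [hpr] at hqs
  set m : ℝ := min (min r d) ε / 4 with hm
  have hm0 : 0 < m := by
    have : 0 < min (min r d) ε := lt_min (lt_min hr hd) hε
    linarith
  have hmr : 4 * m ≤ r := by
    have := (min_le_left (min r d) ε).trans (min_le_left r d)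
    linarith
  have hmd : 4 * m ≤ d := by
    have := (min_le_left (min r d) ε).trans (min_le_right r d)
    linarith
  have hmε : 4 * m ≤ ε := by
    have := min_le_right (min r d) ε
    linarith
  refine ⟨m, hm0, fun z hz x hx x' hx' hxz hxz' hd1 hd2 => ?_⟩
  have hzc : z ∈ closedBall w r := closedBall_subset_closedBall (by linarith) hz
  obtain ⟨hU1, hq1, hc1⟩ := hcap.cap z hzc _ hx hxz (by linarith)
  obtain ⟨hU2, hq2, hc2⟩ := hcap.cap z hzc _ hx' hxz' (by linarith)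
  have hs1 := (hqs _ hx (by linarith)).2
  have hs2' := (hqs _ hx' (by linarith)).2
  refine ⟨χ, w, ρ, χ.q x, χ.q x', hcap.mon, (χ.surj _ hx hU1).1, (χ.surj _ hx' hU2).1, hc1, hc2, cpl_pr_q hx hU1, cpl_pr_q hx' hU2, ?_⟩
  intro θ hθ
  have hmem : χ.q x + (θ : ℂ) • (χ.q x' - χ.q x) ∈ ball (0 : ℂ × ℂ) (min s₀ 2) := by
    have e : χ.q x + (θ : ℂ) • (χ.q x' - χ.q x) = (1 - θ) • χ.q x + θ • χ.q x' := by
      have e1 : ∀ v : ℂ × ℂ, (θ : ℂ) • v = θ • v := fun v => by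
        ext <;> simp
      rw [e1, smul_sub, sub_smul, one_smul]
      abel
    rw [e]
    exact (convex_ball (0 : ℂ × ℂ) (min s₀ 2)) (by rw [mem_ball, dist_zero_right]; exact hs1)
      (by rw [mem_ball, dist_zero_right]; exact hs2') (by linarith [hθ.2]) hθ.1 (by ring)
  have h6 := hs (lt_of_lt_of_le (mem_ball.1 hmem) (min_le_left _ _))
  have h7 := dist_triangle (pr (χ.σ (χ.q x + (θ : ℂ) • (χ.q x' - χ.q x)))) (f w) (pr x)
  rw [dist_comm (f w)] at h7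
  linarith

/-- near a point of a limit all pairs of points are joined by short paths -/
theorem irel_loc (E : LData X D P Λ Γ u B δ) {ε : ℝ} (hε : 0 < ε) {f : ℂ → MN N} (hf : f ∈ SO X D Λ u B Set.univ) {w : ℂ} (hw : w ∉ B) :
    ∃ ε₀ : ℝ, 0 < ε₀ ∧ ∀ z ∈ closedBall w ε₀, ∀ x ∈ X \ P, ∀ x' ∈ X \ P, u x - z ∈ Λ → u x' - z ∈ Λ → dist (pr x) (f w) ≤ ε₀ →
      dist (pr x') (f w) ≤ ε₀ → ∀ α : TForm (X \ P) Λ u, ∃ v, IRel α ε z (pr x) (pr x') v := by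
  obtain ⟨ε₀, hε₀, h⟩ := cpl_rel_loc E hε hf hw
  exact ⟨ε₀, hε₀, fun z hz x hx x' hx' h1 h2 h3 h4 α => cpl_rel_irel (h z hz x hx x' hx' h1 h2 h3 h4) α⟩

/-- sections over large balls are not in `P` -/
theorem exists_deep (E : LData X D P Λ Γ u B δ) {δ' : ℝ} (hδ' : 0 < δ') (R : ℝ) : ∃ r₁ : ℝ, 0 < r₁ ∧ ∀ z ∈ Gd B δ', z ∈ Nb Λ R →
    ∀ f ∈ SO X D Λ u B (ball z r₁), ∃ x ∈ X \ P, u x - z ∈ Λ ∧ pr x = f z := by
  obtain ⟨r₁, r, hr₁, hr, h⟩ := deepP E hδ' R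
  refine ⟨r₁, hr₁, fun z hz hzR f hf => ?_⟩
  obtain ⟨x, hx, hxz, hpr⟩ := so_lift_at E isOpen_ball hf (mem_ball_self hr₁) (Pool.Agent.H62.EL.gd_notMem hδ' hz)
  refine ⟨x, ⟨hx, fun hxP => ?_⟩, hxz, hpr⟩
  have h1 := h z hz hzR f hf x hxP
  rw [hpr, dist_self] at h1
  linarith

theorem exists_irelL (E : LData X D P Λ Γ u B δ) {δ' ε : ℝ} (hδ' : 0 < δ') (hε : 0 < ε) (R : ℝ) : ∃ r₁ ε₀ : ℝ, 0 < r₁ ∧ 0 < ε₀ ∧
    ∀ z ∈ Gd B δ', z ∈ Nb Λ R → ∀ f ∈ SO X D Λ u B (ball z r₁), ∀ x ∈ X \ P, u x - z ∈ Λ → dist (f z) (pr x) ≤ ε₀ →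
      ∀ α : TForm (X \ P) Λ u, ∃ v, IRel α ε z (f z) (pr x) v := by
  have key : ∃ r₁ r : ℝ, 0 < r₁ ∧ 0 < r ∧ ∀ z ∈ Gd B δ', z ∈ Nb Λ R → ∀ f ∈ SO X D Λ u B (ball z r₁), ∀ x ∈ X \ P, ∀ x' ∈ X \ P,
      u x - z ∈ Λ → u x' - z ∈ Λ → pr x = f z → dist (f z) (pr x') ≤ r → cplRel (X \ P) Λ u ε z (f z) (pr x') := by
    refine so_unif E hδ' R (fun r z y => ∀ x ∈ X \ P, ∀ x' ∈ X \ P, u x - z ∈ Λ → u x' - z ∈ Λ → pr x = y →
      dist y (pr x') ≤ r → cplRel (X \ P) Λ u ε z y (pr x')) ?_ ?_ ?_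
    · intro r r' z y _ hr hQ x hx x' hx' h1 h2 h3 h4
      exact hQ x hx x' hx' h1 h2 h3 (h4.trans hr)
    · intro r z y l hl hQ x hx x' hx' h1 h2 h3 h4
      have hl' : l ∈ Λ := E.le hl
      have e : ∀ x : EN N, u x - z = (u x - (z + l)) + l := fun x => by ring
      refine cpl_rel_add (hQ x hx x' hx' ?_ ?_ h3 h4) hl'
      · rw [e]
        exact Λ.add_mem h1 hl'
      · rw [e]
        exact Λ.add_mem h2 hl'
    · intro f hf w hw _
      obtain ⟨ε₀, hε₀, h⟩ := cpl_rel_loc E hε hf (Pool.Agent.H62.EL.gd_notMem hδ' hw)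
      refine ⟨ε₀ / 2, half_pos hε₀, fun z hz y hy x hx x' hx' h1 h2 h3 h4 => ?_⟩
      rw [mem_closedBall] at hy
      rw [← h3] at hy h4 ⊢
      refine h z (closedBall_subset_closedBall (by linarith) hz) x hx x' hx' h1 h2 (by linarith) ?_
      have h5 := dist_triangle (pr x') (pr x) (f w)
      rw [dist_comm (pr x') (pr x)] at h5
      linarith
  obtain ⟨r₁, r, hr₁, hr, h⟩ := key
  obtain ⟨r₂, hr₂, hdeep⟩ := exists_deep E hδ' R
  refine ⟨max r₁ r₂, r, lt_max_of_lt_left hr₁, hr, fun z hz hzR f hf x hx hxz hd α => ?_⟩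
  obtain ⟨x₀, hx₀, hx₀z, hpr⟩ := hdeep z hz hzR f (so_anti (ball_subset_ball (le_max_right _ _)) hf)
  exact cpl_rel_irel (h z hz hzR f (so_anti (ball_subset_ball (le_max_left _ _)) hf) x₀ hx₀ x hx hx₀z hxz hpr hd) α

end Pool.Agent.H18.LU

end

section

/-!
# LU IzL: the limits of sections inside the zeros of the form are isolated

Port of `iso_zr` (EL Iz; read its header).  `ball 0 (2δ) ⊆ Gd B (2δ)` by `E.zero`.  The comparison is with points `x'` of `V = X \ P` over `z` instead of sections `g`; if there is no `v` with `IRel` for `(e z, pr x')` then `II = 0`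
by definition: this case is excluded by `irel_loc` (at `w = 0`, `f = e`; `e z = pr x` with `x ∈ V` over `z`, `so_notP`, `so_lift_at`), for `ε'` and `r'` small.  `e z` is close to `e 0` for `z` near `0` (`so_cont`).
-/

set_option autoImplicit false

open Topology Filter Metric

namespace Pool.Agent.H18.LU

attribute [-instance] ProperSMul.toContinuousSMul

open Pool.Agent.H36.BP (EN fs wd IsGermChart)
open Pool.Agent.H14.PP (IsCone Chart Tan CurveAt)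
open Pool.Agent.H62.EF (Lat MN pr TorusMap Sec Charts DU)
open Pool.Agent.H62.EL (Gd Ag BadSet IsNC TForm Mon mo Cap IRel II tc IsPrim Per Zr Thin)

variable {N : ℕ} {X D P : Set (EN N)} {Λ Γ : AddSubgroup ℂ} {u : EN N → ℂ} {B : Set ℂ} {δ : ℝ}

private theorem IzL_mo (c : ℂ) (ρ : ℝ) (p : ℂ × ℂ) : mo c ρ 1 0 p = c + ρ * p.1 := by
  simp [mo]

theorem iso_zrL (E : LData X D P Λ Γ u B δ) {α : TForm (X \ P) Λ u} (hthin : Thin α) {δ' R r₁ ε r : ℝ} (hδ' : 0 < δ') (hδ'' : δ' ≤ 2 * δ)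
    (hε : 0 < ε) (hR : 0 ≤ R) (hr₁ : 0 < r₁) (hr : ε < r) (hcap : HasCap X D P Λ u B δ' R r₁ r) {e : ℂ → MN N}
    (he : e ∈ SO X D Λ u B Set.univ) : ∃ (z₀ : ℂ) (r' ε' : ℝ), 0 < r' ∧ 0 < ε' ∧ ball z₀ r' ⊆ ball 0 (2 * δ) ∧
      ∀ z ∈ ball z₀ r', ∀ x ∈ X \ P, u x - z ∈ Λ → dist (pr x) (e z) < ε' → (II α ε z (e z) (pr x) = 0 ∨ Zr α z (pr x)) → pr x = e z := by
  have hr0 : 0 < r := lt_trans hε hr
  have hX : OCone (X \ P) := E.vCone
  have hX0 : ∀ w ∈ X \ P, w ≠ 0 := fun w hw => OCone.ne_zero hX hw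
  have hδ0 : 0 < δ := E.bad.pos
  have hballG : ∀ z : ℂ, ‖z‖ < 2 * δ → z ∈ Gd B (2 * δ) := by
    intro z hz b hb
    have h1 := E.zero b hb
    have h2 : ‖b‖ ≤ ‖z - b‖ + ‖z‖ := by
      calc ‖b‖ = ‖z - (z - b)‖ := by rw [sub_sub_cancel]
        _ ≤ ‖z‖ + ‖z - b‖ := norm_sub_le _ _
        _ = _ := add_comm _ _
    linarith
  have hGG : ∀ z ∈ Gd B (2 * δ), z ∈ Gd B δ' := fun z hz b hb => le_trans hδ'' (hz b hb)
  have hGB : ∀ z ∈ Gd B (2 * δ), z ∉ B := by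
    intro z hz hzB
    have := hz z hzB
    rw [sub_self, norm_zero] at this
    linarith
  have h0G : (0 : ℂ) ∈ Gd B (2 * δ) := hballG 0 (by rw [norm_zero]; linarith)
  have h0B : (0 : ℂ) ∉ B := hGB 0 h0G
  have h0N : (0 : ℂ) ∈ Nb Λ R := ⟨0, Λ.zero_mem, by rw [sub_zero, norm_zero]; exact hR⟩
  obtain ⟨χ, c, ρ, hc⟩ := hcap 0 (hGG 0 h0G) h0N e (so_anti (Set.subset_univ _) he)
  have hm := hc.mon
  have hρ : (ρ : ℂ) ≠ 0 := by exact_mod_cast hm.pos.ne'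
  obtain ⟨A, hA⟩ := Pool.Agent.H62.EL.exists_prim α χ hm
  obtain ⟨ε₀, hε₀, hrel⟩ := irel_loc E hε he h0B
  obtain ⟨r₁', Ψ, hr₁', _, hΨ, hΨX⟩ := so_liftV E isOpen_univ he (Set.mem_univ 0) h0B (so_notP E he h0B)
  have hΨc : ∀ z ∈ ball (0 : ℂ) r₁', ContinuousAt (fun z => pr (Ψ z)) z := by
    intro z hz
    have h1 : ContinuousAt Ψ z := (hΨ z hz).continuousWithinAt.continuousAt (isOpen_ball.mem_nhds hz)
    exact (Pool.Agent.H62.EF.continuousAt_pr (hX0 _ (hΨX z hz).2.1)).comp h1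
  have he0 : pr (Ψ 0) = e 0 := (hΨX 0 (mem_ball_self hr₁')).2.2.2
  -- a good ball
  have hgood : ∀ᶠ z in 𝓝 (0 : ℂ), z ∈ ball (0 : ℂ) r₁' ∧ ‖z‖ < r ∧ ‖z‖ < 2 * δ ∧ dist (pr (Ψ z)) (e 0) < (r - ε) / 2 ∧ ‖z‖ < ε₀ ∧
      dist (pr (Ψ z)) (e 0) < ε₀ / 2 := by
    have h1 : ∀ {s : ℝ}, 0 < s → ∀ᶠ z in 𝓝 (0 : ℂ), ‖z‖ < s := by
      intro s hs
      filter_upwards [ball_mem_nhds (0 : ℂ) hs] with z hz using mem_ball_zero_iff.mp hz
    have h3 : ∀ {s : ℝ}, 0 < s → ∀ᶠ z in 𝓝 (0 : ℂ), dist (pr (Ψ z)) (e 0) < s := by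
      intro s hs
      have h4 := (hΨc 0 (mem_ball_self hr₁')).tendsto
      rw [he0] at h4
      exact h4.eventually (ball_mem_nhds _ hs)
    have hrε : 0 < (r - ε) / 2 := by linarith
    have h2δ : 0 < 2 * δ := by linarith
    filter_upwards [ball_mem_nhds (0 : ℂ) hr₁', h1 hr0, h1 h2δ, h3 hrε, h1 hε₀, h3 (half_pos hε₀)] with z a1 a2 a3 a4 a5 a6
    exact ⟨a1, a2, a3, a4, a5, a6⟩
  obtain ⟨η, hη, hηg⟩ := Metric.eventually_nhds_iff_ball.mp hgood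
  have hcapΨ : ∀ z ∈ ball (0 : ℂ) η, Ψ z ∈ χ.U ∧ χ.q (Ψ z) ∈ closedBall (0 : ℂ × ℂ) 1 ∧ c + ρ * (χ.q (Ψ z)).1 = z := by
    intro z hz
    obtain ⟨h1, h2, h3, h4, _, _⟩ := hηg z hz
    obtain ⟨_, h5, h6, _⟩ := hΨX z h1
    refine hc.cap z ?_ _ h5 h6 (by linarith)
    rw [mem_closedBall_zero_iff]
    exact h2.le
  set π : ℂ → ℂ × ℂ := fun z => χ.q (Ψ z) with hπdef
  have h0η : (0 : ℂ) ∈ ball (0 : ℂ) η := mem_ball_self hη
  have hΨan : AnalyticAt ℂ Ψ 0 := hΨ.analyticAt (isOpen_ball.mem_nhds (mem_ball_self hr₁'))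
  have hπ : AnalyticAt ℂ π 0 := AnalyticAt.comp (g := χ.q) (f := Ψ) (χ.q_an _ (hcapΨ 0 h0η).1) hΨan
  have hπ' : deriv π 0 ≠ 0 := by
    intro h1
    have h2 : HasDerivAt π 0 0 := by
      rw [← h1]
      exact hπ.differentiableAt.hasDerivAt
    have h3 : HasDerivAt (fun z => (π z).1) (0 : ℂ × ℂ).1 0 :=
      (ContinuousLinearMap.fst ℂ ℂ ℂ).hasFDerivAt.comp_hasDerivAt 0 h2
    have h4 : HasDerivAt (fun z => c + ρ * (π z).1) (ρ * (0 : ℂ × ℂ).1) 0 := (h3.const_mul (ρ : ℂ)).const_add c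
    have h5 : (fun z => c + ρ * (π z).1) =ᶠ[𝓝 0] fun z => z := by
      filter_upwards [isOpen_ball.mem_nhds h0η] with z hz using (hcapΨ z hz).2.2
    have h6 : HasDerivAt (fun z => c + ρ * (π z).1) 1 0 := (hasDerivAt_id (0 : ℂ)).congr_of_eventuallyEq h5
    have h7 := h4.unique h6
    simp at h7
  have hp₀ : π 0 ∈ ball (0 : ℂ × ℂ) 2 := closedBall_subset_ball (by norm_num) (hcapΨ 0 h0η).2.1
  set a : ℂ × ℂ → ℂ := tc α χ (mo c ρ 1 0) with hadef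
  have haan : ∀ p ∈ ball (0 : ℂ × ℂ) 2, AnalyticAt ℂ a p := by
    intro p hp
    refine Pool.Agent.H62.EL.tc_an α χ hp (mo_an c ρ 1 0 p) ?_
    filter_upwards [isOpen_ball.mem_nhds hp] with y hy using hm.lift y hy
  set h : ℂ × ℂ → ℂ := fun p => A p - A (π (c + ρ * p.1)) with hhdef
  have hin0 : c + ρ * (π 0).1 = 0 := (hcapΨ 0 h0η).2.2
  have hhan : AnalyticAt ℂ h (π 0) := by
    have h1 : AnalyticAt ℂ (fun p : ℂ × ℂ => c + ρ * p.1) (π 0) := analyticAt_const.add (analyticAt_const.mul analyticAt_fst)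
    have h2 : AnalyticAt ℂ π (c + ρ * (π 0).1) := by rw [hin0]; exact hπ
    have h3 : AnalyticAt ℂ (fun p : ℂ × ℂ => π (c + ρ * p.1)) (π 0) :=
      AnalyticAt.comp (g := π) (f := fun p : ℂ × ℂ => c + ρ * p.1) h2 h1
    have h4 : AnalyticAt ℂ A (π (c + ρ * (π 0).1)) := by rw [hin0]; exact hA.an _ hp₀
    have h5 : AnalyticAt ℂ (fun p : ℂ × ℂ => A (π (c + ρ * p.1))) (π 0) :=
      AnalyticAt.comp (g := A) (f := fun p : ℂ × ℂ => π (c + ρ * p.1)) h4 h3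
    exact (hA.an _ hp₀).sub h5
  have hGan : AnalyticAt ℂ (fun p => h p * a p) (π 0) := hhan.mul (haan _ hp₀)
  have hG0 : ¬ ∀ᶠ p in 𝓝 (π 0), h p * a p = 0 := by
    intro hcon
    obtain ⟨s, hs, hsb⟩ := Metric.eventually_nhds_iff_ball.mp
      (hcon.and (hhan.eventually_analyticAt.and (isOpen_ball.mem_nhds hp₀)))
    have hthin' := hthin χ (mo c ρ 1 0) (π 0) hp₀ (mo_an c ρ 1 0 _)
      (by filter_upwards [isOpen_ball.mem_nhds hp₀] with y hy using hm.lift y hy)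
    obtain ⟨y, hy1, hy2⟩ := ((not_eventually.mp hthin').and_eventually (ball_mem_nhds (π 0) hs)).exists
    have hay : ∀ᶠ p in 𝓝 y, a p ≠ 0 := (haan y (hsb y hy2).2.2).continuousAt.eventually_ne hy1
    have hhy : h =ᶠ[𝓝 y] 0 := by
      filter_upwards [hay, isOpen_ball.mem_nhds hy2] with p h1 h2
      exact (mul_eq_zero.mp (hsb p h2).1).resolve_right h1
    have hhan' : AnalyticOnNhd ℂ h (ball (π 0) s) := fun p hp => (hsb p hp).2.1
    have hzero := hhan'.eqOn_zero_of_preconnected_of_eventuallyEq_zero (convex_ball _ _).isPreconnected hy2 hhy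
    -- the derivative in the direction of the second variable
    have hline : HasDerivAt (fun t : ℂ => y + t • ((0, 1) : ℂ × ℂ)) ((0, 1) : ℂ × ℂ) 0 := by
      have h1 := ((hasDerivAt_id (0 : ℂ)).smul_const ((0, 1) : ℂ × ℂ)).const_add y
      rw [one_smul] at h1
      exact h1
    have hy0 : y + (0 : ℂ) • ((0, 1) : ℂ × ℂ) = y := by simp
    have h1 : HasFDerivAt A (fderiv ℂ A y) (y + (0 : ℂ) • ((0, 1) : ℂ × ℂ)) := by
      rw [hy0]
      exact (hA.an y (hsb y hy2).2.2).differentiableAt.hasFDerivAt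
    have h2 : HasDerivAt (fun t : ℂ => A (y + t • ((0, 1) : ℂ × ℂ))) (fderiv ℂ A y (0, 1)) 0 := h1.comp_hasDerivAt 0 hline
    have h3 : (fun t : ℂ => A (y + t • ((0, 1) : ℂ × ℂ))) =ᶠ[𝓝 0] fun _ => A (π (c + ρ * y.1)) := by
      have h4 : ∀ᶠ t : ℂ in 𝓝 0, y + t • ((0, 1) : ℂ × ℂ) ∈ ball (π 0) s := by
        have h5 := hline.continuousAt.tendsto
        rw [hy0] at h5
        exact h5.eventually (isOpen_ball.mem_nhds hy2)
      filter_upwards [h4] with t ht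
      have h5 : h (y + t • ((0, 1) : ℂ × ℂ)) = 0 := hzero ht
      have h6 : (y + t • ((0, 1) : ℂ × ℂ)).1 = y.1 := by simp
      simp only [hhdef] at h5
      rw [h6] at h5
      exact sub_eq_zero.mp h5
    have h4 : HasDerivAt (fun t : ℂ => A (y + t • ((0, 1) : ℂ × ℂ))) 0 0 := (hasDerivAt_const (0 : ℂ) _).congr_of_eventuallyEq h3
    have h5 := h2.unique h4
    rw [hA.der y (hsb y hy2).2.2] at h5
    exact hy1 h5
  obtain ⟨z₁, hz₁, hiso⟩ := Pool.Agent.H62.EF.exists_isolated hπ hπ' hGan hG0 (half_pos hη)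
  have hz₁η : z₁ ∈ ball (0 : ℂ) η := by
    rw [mem_ball_zero_iff]
    linarith
  obtain ⟨d, hd, hdiso⟩ := hiso (η / 2) (half_pos hη)
  -- nearby points
  have hU : {x : EN N | x ∈ χ.U ∧ ‖χ.q x - χ.q (Ψ z₁)‖ < d} ∈ 𝓝 (Ψ z₁) := by
    have h1 := (hcapΨ z₁ hz₁η).1
    have h2 : ContinuousAt (fun x => ‖χ.q x - χ.q (Ψ z₁)‖) (Ψ z₁) := ((χ.q_an _ h1).continuousAt.sub continuousAt_const).norm
    have h3 : ∀ᶠ x in 𝓝 (Ψ z₁), ‖χ.q x - χ.q (Ψ z₁)‖ < d := h2.eventually_lt_const (by simpa using hd)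
    filter_upwards [χ.isOpen_U.mem_nhds h1, h3] with x a1 a2
    exact ⟨a1, a2⟩
  obtain ⟨d', hd', hnear⟩ := Pool.Agent.H62.EF.near_of_pr (hX0 _ (hΨX z₁ (hηg z₁ hz₁η).1).2.1) hU
  have he1 : pr (Ψ z₁) = e z₁ := (hΨX z₁ (hηg z₁ hz₁η).1).2.2.2
  have hloc : ∀ᶠ z in 𝓝 z₁, z ∈ ball (0 : ℂ) η ∧ dist (pr (Ψ z)) (e z₁) < d' / 2 := by
    have h1 := (hΨc z₁ (hηg z₁ hz₁η).1).tendsto
    rw [he1] at h1
    have h2 : ∀ᶠ z in 𝓝 z₁, dist (pr (Ψ z)) (e z₁) < d' / 2 := h1.eventually (ball_mem_nhds _ (half_pos hd'))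
    filter_upwards [isOpen_ball.mem_nhds hz₁η, h2] with z a1 a2
    exact ⟨a1, a2⟩
  obtain ⟨r', hr', hr'b⟩ := Metric.eventually_nhds_iff_ball.mp hloc
  refine ⟨z₁, r', min (ε₀ / 2) (min ((r - ε) / 2) (d' / 2)), hr', lt_min (half_pos hε₀) (lt_min (by linarith) (half_pos hd')), ?_, ?_⟩
  · intro z hz
    rw [mem_ball_zero_iff]
    exact (hηg z (hr'b z hz).1).2.2.1
  · intro z hz x hx1 hx2 hdist hor
    obtain ⟨hzη, hzd⟩ := hr'b z hz
    obtain ⟨hz1, hz2, hz3, hz4, hz5, hz6⟩ := hηg z hzη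
    have hzr : z ∈ closedBall (0 : ℂ) r := by
      rw [mem_closedBall_zero_iff]
      exact hz2.le
    have hez : pr (Ψ z) = e z := (hΨX z hz1).2.2.2
    have hd1 : dist (pr x) (e z) < ε₀ / 2 := lt_of_lt_of_le hdist (min_le_left _ _)
    have hd2 : dist (pr x) (e z) < (r - ε) / 2 := lt_of_lt_of_le hdist ((min_le_right _ _).trans (min_le_left _ _))
    have hd3 : dist (pr x) (e z) < d' / 2 := lt_of_lt_of_le hdist ((min_le_right _ _).trans (min_le_right _ _))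
    have hdeq : pr (Ψ z) = e z := hez
    rw [hez] at hz4 hz6 hzd
    have htri := dist_triangle (pr x) (e z) (e 0)
    obtain ⟨hxU, hxq, hxc⟩ := hc.cap z hzr _ hx1 hx2 (by linarith)
    have hpb : χ.q x ∈ ball (0 : ℂ × ℂ) 2 := closedBall_subset_ball (by norm_num) hxq
    have hpd : ‖χ.q x - π z₁‖ < d := by
      have h1 : dist (pr x) (pr (Ψ z₁)) < d' := by
        rw [he1]
        have := dist_triangle (pr x) (e z) (e z₁)
        linarith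
      obtain ⟨k, hk, hkU⟩ := hnear _ (hX0 _ hx1) h1
      have h2 := hkU.2
      rwa [χ.q_smul _ hxU k hk] at h2
    obtain ⟨_, a', ha', hxa⟩ := χ.surj _ hx1 hxU
    have hprx : pr (χ.σ (χ.q x)) = pr x := by
      conv_rhs => rw [hxa]
      rw [Pool.Agent.H62.EF.pr_smul _ ha']
    have hG : h (χ.q x) * a (χ.q x) = 0 := by
      rcases hor with hII | hZ
      · have hzε : z ∈ closedBall (0 : ℂ) ε₀ := by
          rw [mem_closedBall_zero_iff]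
          exact hz5.le
        have hrel' := hrel z hzε (Ψ z) (hΨX z hz1).2.1 x hx1 (hΨX z hz1).2.2.1 hx2 (by rw [hdeq]; linarith) (by linarith) α
        rw [hdeq] at hrel'
        have h1 := II_eqO hX E.vTor E.dsc hrel' hc hA hzr (by linarith) (hΨX z hz1).2.1 hx1 hez rfl
        rw [hII] at h1
        have h2 : A (χ.q x) - A (χ.q (Ψ z)) = 0 := by
          have h3 := h1.symm
          rcases div_eq_zero_iff.mp h3 with h4 | h4
          · exact h4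
          · exact absurd h4 hρ
        have h3 : h (χ.q x) = 0 := by
          simp only [hhdef, hπdef]
          rw [hxc]
          exact h2
        rw [h3, zero_mul]
      · have h1 : Zr α (mo c ρ 1 0 (χ.q x)) (pr (χ.σ (χ.q x))) := by
          rw [IzL_mo, hxc, hprx]
          exact hZ
        have h2 := (zr_iffO hX E.vTor α χ hpb (hm.lift _ hpb)).mp h1
        rw [hadef, h2, mul_zero]
    obtain ⟨z', hz', hpz⟩ := hdiso _ hpd hG
    have hz'η : z' ∈ ball (0 : ℂ) η := by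
      rw [mem_ball_zero_iff]
      calc ‖z'‖ = ‖(z' - z₁) + z₁‖ := by rw [sub_add_cancel]
        _ ≤ ‖z' - z₁‖ + ‖z₁‖ := norm_add_le _ _
        _ < η := by linarith
    have hzz : z' = z := by
      have h1 := (hcapΨ z' hz'η).2.2
      rw [← h1, ← hxc, hpz]
    rw [hzz] at hpz
    obtain ⟨_, b', hb', hxb⟩ := χ.surj _ (hΨX z hz1).2.1 (hcapΨ z hzη).1
    rw [← hprx, hpz, ← hez]
    conv_rhs => rw [hxb]
    rw [Pool.Agent.H62.EF.pr_smul _ hb']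

end Pool.Agent.H18.LU

end
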