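import Pool.Agent.H94.CB.M161
import Pool.Agent.H94.CB.M208
import Pool.Agent.H94.CB.M214
import Pool.Agent.H94.CB.M224
import Pool.Agent.H94.CB.M230

/-! The parts of this file: H87.LV.UdA, H87.LV.UdB, H87.LV.UdC. -/

section

/-!
# LV UdA: the middle part and the approximation, for the family `TT (X \ D)` of the true sections
-/

set_option autoImplicit false

open Topology Filter Metric

namespace Pool.Agent.H87.LV

attribute [-instance] ProperSMul.toContinuousSMul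

open Pool.Agent.H36.BP (EN fs wd IsGermChart)
open Pool.Agent.H14.PP (IsCone Chart Tan CurveAt)
open Pool.Agent.H62.EF (Lat MN pr TorusMap Sec Charts DU)
open Pool.Agent.H62.EL (Ag BadSet IsNC TForm Mon mo Cap IRel II Per VanZero Thin Zr)
open Pool.Agent.H18.LU (SecAt SO Nb part LFib LData CstL HasCap HasRel)
open Pool.Agent.EG.LE (SecOn TT)
open Pool.Agent.H87.LU (UDyn Mid Appr Sh)

variable {N : ℕ} {X D P : Set (EN N)} {Λ Γ : AddSubgroup ℂ} {u : EN N → ℂ} {B : Set ℂ} {δ : ℝ}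

theorem secOn_secAt {Ω : Set ℂ} (hΩ : IsOpen Ω) {F : ℂ → EN N} (h : SecOn (X \ D) Λ u Ω F) {z : ℂ} (hz : z ∈ Ω) : SecAt X D Λ u F z := by
  refine ⟨h.1.analyticAt (hΩ.mem_nhds hz), ?_⟩
  filter_upwards [hΩ.mem_nhds hz] with w hw
  obtain ⟨⟨h1, h2⟩, h3⟩ := h.2 w hw
  exact ⟨h1, h2, h3⟩

theorem secAt_secOn {Ω : Set ℂ} {F : ℂ → EN N} (h : ∀ z ∈ Ω, SecAt X D Λ u F z) : SecOn (X \ D) Λ u Ω F := by
  refine ⟨fun z hz => (h z hz).1.differentiableAt.differentiableWithinAt, fun z hz => ?_⟩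
  obtain ⟨h1, h2, h3⟩ := (h z hz).2.self_of_nhds
  exact ⟨⟨h1, h2⟩, h3⟩

theorem secOn_mono {U : Set (EN N)} {Ω Ω' : Set ℂ} {F : ℂ → EN N} (h : SecOn U Λ u Ω F) (hΩ : Ω' ⊆ Ω) : SecOn U Λ u Ω' F :=
  ⟨h.1.mono hΩ, fun z hz => h.2 z (hΩ hz)⟩

theorem tt_mono {U : Set (EN N)} {Ω Ω' : Set ℂ} (hΩ : Ω' ⊆ Ω) : TT U Λ u Ω ⊆ TT U Λ u Ω' := by
  rintro f ⟨F, hF, hf⟩
  exact ⟨F, secOn_mono hF hΩ, fun z hz => hf z (hΩ hz)⟩

theorem secOn_so {Ω : Set ℂ} (hΩ : IsOpen Ω) {F : ℂ → EN N} (hF : SecOn (X \ D) Λ u Ω F) {f : ℂ → MN N} (hf : ∀ z ∈ Ω, f z = pr (F z)) :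
    f ∈ SO X D Λ u B Ω := by
  intro K hK _ δ' ε _ hε
  refine ⟨F, fun z hz => secOn_secAt hΩ hF (hK hz), fun z hz _ => ?_⟩
  rw [hf z (hK hz), dist_self]
  exact hε

theorem tt_so {Ω : Set ℂ} (hΩ : IsOpen Ω) {f : ℂ → MN N} (hf : f ∈ TT (X \ D) Λ u Ω) : f ∈ SO X D Λ u B Ω := by
  obtain ⟨F, hF, hf⟩ := hf
  exact secOn_so hΩ hF hf


theorem isOpen_strip (W : ℝ) : IsOpen {z : ℂ | |z.re| < W} :=
  isOpen_lt (continuous_abs.comp Complex.continuous_re) continuous_const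

/-- the function `J` in the middle -/
theorem mid_of (E : LData X D P Λ Γ u B δ) {α : TForm (X \ P) Λ u} {R r₁ ε ε₀ C W : ℝ} (hc : CstL D B δ R α r₁ ε ε₀ C)
    (hR : ∀ z : ℂ, |z.re| ≤ W → z ∈ Nb Λ R) (hBW : ∀ b ∈ B, |b.re| + 4 * δ ≤ W) :
    Mid (TT (X \ D) Λ u) (II α ε) B δ W ε₀ (r₁ + 6 * δ) C := by
  intro c R' hcre f hf g hg hcl
  obtain ⟨F, hF, hfF⟩ := hf
  obtain ⟨G, hG, hgG⟩ := hg
  have hδ := E.bad.pos
  obtain ⟨J, hJ1, hJ2, hJ3⟩ := Pool.Agent.H18.LU.exists_J E hc (V := {z : ℂ | |z.re| < W}) (C' := {z : ℂ | |z.re| ≤ W}) (isOpen_strip W)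
    (fun z (hz : |z.re| < W) => (le_of_lt hz : |z.re| ≤ W)) hR (fun z _ b hb _ w hw => by
      rw [mem_closedBall, dist_eq_norm] at hw
      have h1 := (Complex.abs_re_le_norm (w - b)).trans hw
      rw [Complex.sub_re] at h1
      have h2 := hBW b hb
      have h3 : |w.re| ≤ |b.re| + |w.re - b.re| := by
        have h4 := abs_add_le b.re (w.re - b.re)
        have h5 : b.re + (w.re - b.re) = w.re := by ring
        rwa [h5] at h4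
      show |w.re| ≤ W
      linarith) (c := c) (R' := R') (F := F) (G := G)
    (fun z hz => ⟨secOn_secAt isOpen_ball hF hz, secOn_secAt isOpen_ball hG hz⟩) (fun z hz hzG hzC => by
      rw [← hfF z hz, ← hgG z hz]
      exact hcl z hz hzG hzC)
  have hsub : ∀ z ∈ ball c (R' - (r₁ + 6 * δ)), z ∈ ball c (R' - r₁ - 6 * δ) := by
    intro z hz
    rw [mem_ball] at hz ⊢
    linarith
  have hsub2 : ∀ z ∈ ball c (R' - (r₁ + 6 * δ)), z ∈ ball c R' := by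
    intro z hz
    have hr₁ := hc.r₁_pos
    rw [mem_ball] at hz ⊢
    linarith
  refine ⟨J, hJ1.mono fun z hz => ⟨hz.2, hsub z hz.1⟩, fun z hz hzW => hJ2 z ⟨hzW, hsub z hz⟩, fun z hz hzG hzW => ?_⟩
  rw [hJ3 z ⟨hzW, hsub z hz⟩ hzG, hfF z (hsub2 z hz), hgG z (hsub2 z hz)]

/-- the members of `SO` are limits of true sections -/
theorem appr_of (E : LData X D P Λ Γ u B δ) {α : TForm (X \ P) Λ u} {R r₁ ε ε₀ C W : ℝ} (hc : CstL D B δ R α r₁ ε ε₀ C)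
    (hR : ∀ z : ℂ, |z.re| ≤ W → z ∈ Nb Λ R) : Appr (TT (X \ D) Λ u) (SO X D Λ u B) (II α ε) B δ W (ε₀ / 2) r₁ where
  appr := by
    intro c R R' ε δ' hcre hRR' hε hδ' f hf
    obtain ⟨F, hF, hFd⟩ := hf (closedBall c R') (closedBall_subset_ball hRR') (isCompact_closedBall c R') δ' ε hδ' hε
    refine ⟨fun z => pr (F z), ⟨F, secAt_secOn fun z hz => hF z (ball_subset_closedBall hz), fun z _ => rfl⟩, fun z hz hzG => ?_⟩
    exact hFd z (ball_subset_closedBall hz) hzG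
  cont := by
    intro c R' hcre f hf g hg z hz hzG hzW hfg η hη
    have hδ := E.bad.pos
    have hsub : ∀ {R'' : ℝ}, z ∈ ball c (R'' - r₁) → ball z r₁ ⊆ ball c R'' := by
      intro R'' h
      rw [mem_ball] at h
      exact ball_subset_ball' (by linarith)
    obtain ⟨κ, hκ, hκ'⟩ := Pool.Agent.H18.LU.II_approx E hc (z := z) (fun b hb => by
      have := hzG b hb
      linarith) (hR z hzW) (so_anti (hsub hz) hf) (so_anti (hsub hz) hg) hfg hη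
    refine ⟨κ, hκ, fun R'' F G hF hG hz' hFf hGg => ?_⟩
    exact hκ' F (so_anti (hsub hz') (tt_so isOpen_ball hF)) G (so_anti (hsub hz') (tt_so isOpen_ball hG)) hFf hGg

end Pool.Agent.H87.LV

end

section

/-!
# LV UdB: the hypotheses `HasII` and `Away` of the ends
-/

set_option autoImplicit false

open Topology Filter Metric

namespace Pool.Agent.H87.LV

attribute [-instance] ProperSMul.toContinuousSMul

open Pool.Agent.H36.BP (EN fs wd IsGermChart)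
open Pool.Agent.H14.PP (IsCone Chart Tan CurveAt)
open Pool.Agent.H62.EF (Lat MN pr TorusMap Sec Charts DU)
open Pool.Agent.H62.EL (Ag BadSet IsNC TForm Mon mo Cap IRel II Per VanZero Thin Zr)
open Pool.Agent.H18.LU (SecAt SO Nb part LFib LData CstL HasCap HasRel)
open Pool.Agent.EG.LE (SecOn TT HasII Away cf)
open Pool.Agent.H87.LU (UDyn Mid Appr Sh rfT rfI)

variable {N : ℕ} {X D P : Set (EN N)} {Λ Γ : AddSubgroup ℂ} {u : EN N → ℂ} {B : Set ℂ} {δ : ℝ}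

/-- the values of the sections over large balls are in a compact subset of `pr '' (X \ P)` -/
theorem away_of (E : LData X D P Λ Γ u B δ) {δ' : ℝ} (hδ' : 0 < δ') (R : ℝ) : ∃ (r₁ : ℝ) (K₁ : Set (MN N)), 0 < r₁ ∧ IsCompact K₁ ∧
    K₁ ⊆ pr '' (X \ P) ∧ ∀ z ∈ Pool.Agent.H62.EL.Gd B δ', z ∈ Nb Λ R → ∀ f ∈ SO X D Λ u B (ball z r₁), f z ∈ K₁ := by
  obtain ⟨r₁, r, hr₁, hr, h⟩ := Pool.Agent.H18.LU.deepP E hδ' R
  have hc := Pool.Agent.H62.EF.isCompact_pr (E.part_isCone R)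
  refine ⟨r₁, pr '' part X Λ u R ∩ ⋂ x ∈ P, {y | r ≤ dist (pr x) y}, hr₁, hc.inter_right ?_, ?_, fun z hz hzR f hf => ?_⟩
  · exact isClosed_biInter fun x _ => isClosed_le continuous_const (continuous_const.dist continuous_id)
  · rintro _ ⟨⟨x, hx, rfl⟩, hy⟩
    refine ⟨x, ⟨hx.1, fun hxP => ?_⟩, rfl⟩
    have h1 : r ≤ dist (pr x) (pr x) := (Set.mem_iInter₂.1 hy) x hxP
    rw [dist_self] at h1
    linarith
  · refine ⟨Pool.Agent.H18.LU.so_mem E hf (mem_ball_self hr₁) (Pool.Agent.H62.EL.gd_notMem hδ' hz) hzR, ?_⟩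
    exact Set.mem_iInter₂.2 fun x hx => h z hz hzR f hf x hx

theorem tan_of {V : Set (EN N)} {ψ : ℂ × ℂ → EN N} {q : ℂ × ℂ} (hψ : AnalyticAt ℂ ψ q) (hV : ∀ᶠ y in 𝓝 q, ψ y ∈ V) (w : ℂ × ℂ) :
    Tan V (ψ q) (fderiv ℂ ψ q w) := by
  have hl : AnalyticAt ℂ (fun z : ℂ => q + z • w) 0 := by fun_prop
  have hl0 : q + (0 : ℂ) • w = q := by rw [zero_smul, add_zero]
  refine ⟨fun z => ψ (q + z • w), ⟨?_, ?_⟩, ?_, ?_⟩
  · have h1 : AnalyticAt ℂ ψ ((fun z : ℂ => q + z • w) 0) := by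
      show AnalyticAt ℂ ψ (q + (0 : ℂ) • w)
      rw [hl0]
      exact hψ
    exact h1.comp (f := fun z : ℂ => q + z • w) hl
  · have h1 : Tendsto (fun z : ℂ => q + z • w) (𝓝 0) (𝓝 q) := by
      have := hl.continuousAt.tendsto
      rwa [hl0] at this
    exact h1.eventually hV
  · show ψ (q + (0 : ℂ) • w) = ψ q
    rw [hl0]
  · have h1 : HasDerivAt (fun z : ℂ => q + z • w) w 0 := by
      have := ((hasDerivAt_id (0 : ℂ)).smul_const w).const_add q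
      simpa using this
    have h2 : HasFDerivAt ψ (fderiv ℂ ψ q) ((fun z : ℂ => q + z • w) 0) := by
      show HasFDerivAt ψ (fderiv ℂ ψ q) (q + (0 : ℂ) • w)
      rw [hl0]
      exact hψ.differentiableAt.hasFDerivAt
    exact (h2.comp_hasDerivAt (0 : ℂ) h1).deriv

/-- the reflection of the first coordinate -/
noncomputable def rfl1 : ℂ × ℂ →L[ℂ] ℂ × ℂ := (-(ContinuousLinearMap.fst ℂ ℂ ℂ)).prod (ContinuousLinearMap.snd ℂ ℂ ℂ)

theorem rfl1_apply (q : ℂ × ℂ) : rfl1 q = (-q.1, q.2) := rfl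

/-- the coefficient of the reflected form -/
theorem cf_refl {V : Set (EN N)} (α : TForm V Λ u) {Φ : ℂ × ℂ → EN N} {z w : ℂ} (hΦ : AnalyticAt ℂ Φ (z, w))
    (hV : ∀ᶠ q in 𝓝 (z, w), Φ q ∈ V ∧ -u (Φ q) - q.1 ∈ Λ) : cf α (fun q => Φ (rfl1 q)) (-z) (-z, w) = cf α.refl Φ z (z, w) := by
  have hq : rfl1 (-z, w) = (z, w) := by rw [rfl1_apply, neg_neg]
  have hΦ' : HasFDerivAt Φ (fderiv ℂ Φ (z, w)) (rfl1 (-z, w)) := by
    rw [hq]
    exact hΦ.differentiableAt.hasFDerivAt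
  have h1 : fderiv ℂ (fun q => Φ (rfl1 q)) (-z, w) = (fderiv ℂ Φ (z, w)).comp rfl1 := (hΦ'.comp (-z, w) rfl1.hasFDerivAt).fderiv
  have h2 : rfl1 ((1 : ℂ), (0 : ℂ)) = (-1 : ℂ) • ((1 : ℂ), (0 : ℂ)) := by
    rw [rfl1_apply]
    simp
  have h3 : rfl1 ((0 : ℂ), (1 : ℂ)) = ((0 : ℂ), (1 : ℂ)) := by
    rw [rfl1_apply]
    simp
  unfold cf
  simp only
  rw [h1, ContinuousLinearMap.comp_apply, ContinuousLinearMap.comp_apply, h2, h3, map_smul, hq]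
  have h4 := hV.self_of_nhds
  have h5 : ∀ᶠ q in 𝓝 (z, w), Φ q ∈ V := hV.mono fun q h => h.1
  have h6 := α.det (-z) (Φ (z, w)) h4.1 (neg_mem_iff.1 h4.2) _ _ (tan_of hΦ h5 (1, 0)) (tan_of hΦ h5 (0, 1)) (-1) 0 0 1
  rw [zero_smul, add_zero, zero_smul, zero_add, one_smul] at h6
  rw [h6]
  show _ = -α.toFun (-z) (Φ (z, w)) _ _
  ring

/-- `HasII` on the left -/
theorem hasII_left (E : LData X D P Λ Γ u B δ) {α : TForm (X \ P) Λ u} {R r₁ r₂ ε ε₀ C W₀ W₁ : ℝ} (hc : CstL D B δ R α r₁ ε ε₀ C)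
    (hr : r₁ ≤ r₂) (hR : ∀ z : ℂ, W₀ ≤ z.re → z.re ≤ W₁ → z ∈ Nb Λ R ∧ z ∈ Pool.Agent.H62.EL.Gd B δ) :
    HasII (X \ D) α (II α ε) r₂ W₀ W₁ := by
  refine ⟨min ε₀ ε, lt_min hc.ε₀_pos hc.ε_pos, fun z w₀ w₁ Φ F G h0 h1 hF _ hF0 _ hΦ hd => ?_⟩
  obtain ⟨hzR, hzG⟩ := hR z h0 h1
  have hf : (fun z => pr (F z)) ∈ SO X D Λ u B (ball z r₁) := so_anti (ball_subset_ball hr) (secOn_so isOpen_ball hF fun _ _ => rfl)
  have h := hc.param E hzG hzR hf (Φ := Φ) (w₀ := w₀) (w₁ := w₁) (fun θ hθ => ⟨(hΦ θ hθ).1, (hΦ θ hθ).2, by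
    show dist _ (pr (F z)) ≤ _
    rw [hF0]
    exact hd θ hθ⟩) hF0.symm
  rw [← hF0]
  exact h

/-- `HasII` for the reflected situation -/
theorem hasII_right (E : LData X D P Λ Γ u B δ) {α : TForm (X \ P) Λ u} {R r₁ r₂ ε ε₀ C W₀ W₁ : ℝ} (hc : CstL D B δ R α r₁ ε ε₀ C)
    (hr : r₁ ≤ r₂) (hR : ∀ z : ℂ, W₀ ≤ z.re → z.re ≤ W₁ → -z ∈ Nb Λ R ∧ -z ∈ Pool.Agent.H62.EL.Gd B δ) :
    HasII (X \ D) α.refl (rfI (II α ε)) r₂ W₀ W₁ := by
  refine ⟨min ε₀ ε, lt_min hc.ε₀_pos hc.ε_pos, fun z w₀ w₁ Φ F G h0 h1 hF _ hF0 _ hΦ hd => ?_⟩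
  obtain ⟨hzR, hzG⟩ := hR z h0 h1
  have hF' : SecOn (X \ D) Λ u (ball (-z) r₂) (fun z => F (-z)) := by
    have h2 := secOn_refl' hF
    rwa [neg_ball] at h2
  have hf : (fun z => pr (F (-z))) ∈ SO X D Λ u B (ball (-z) r₁) := so_anti (ball_subset_ball hr) (secOn_so isOpen_ball hF' fun _ _ => rfl)
  have hz : ∀ w : ℂ, rfl1 (-z, w) = (z, w) := fun w => by rw [rfl1_apply, neg_neg]
  have h := hc.param E hzG hzR hf (Φ := fun q => Φ (rfl1 q)) (w₀ := w₀) (w₁ := w₁) (fun θ hθ => ⟨?_, ?_, ?_⟩) ?_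
  · simp only [neg_neg] at h
    rw [← hF0]
    show II α ε (-z) (pr (F z)) (pr (Φ (z, w₁))) = _
    rw [← hz w₁, h]
    refine intervalIntegral.integral_congr fun θ hθ => ?_
    rw [Set.uIcc_of_le zero_le_one] at hθ
    have h3 := cf_refl α (hΦ θ hθ).1 (hΦ θ hθ).2
    unfold cf at h3
    unfold cf
    rw [h3]
  · have h2 := (hΦ θ hθ).1
    rw [← hz] at h2
    exact h2.comp (rfl1.analyticAt _)
  · have h2 := (hΦ θ hθ).2
    have h3 : Tendsto rfl1 (𝓝 (-z, w₀ + θ * (w₁ - w₀))) (𝓝 (z, w₀ + θ * (w₁ - w₀))) := by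
      have h4 := rfl1.continuous.tendsto (-z, w₀ + θ * (w₁ - w₀))
      rwa [hz] at h4
    filter_upwards [h3.eventually h2] with q hq
    refine ⟨hq.1, ?_⟩
    have h5 := neg_mem_iff.1 hq.2
    rw [rfl1_apply, neg_neg] at h5
    rw [rfl1_apply]
    exact h5
  · simp only [neg_neg, hz]
    rw [hF0]
    exact hd θ hθ
  · simp only [neg_neg, hz]
    exact hF0.symm

/-- `Away` on the left -/
theorem away_left {R T₁ r₁ r₂ : ℝ} {K₁ : Set (MN N)} (hK : IsCompact K₁) (hKX : K₁ ⊆ pr '' (X \ P)) (hr : r₁ ≤ r₂)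
    (h : ∀ z ∈ Pool.Agent.H62.EL.Gd B δ, z ∈ Nb Λ R → ∀ f ∈ SO X D Λ u B (ball z r₁), f z ∈ K₁)
    (hR : ∀ z : ℂ, -T₁ - 10 ≤ z.re → z.re ≤ -T₁ → z ∈ Nb Λ R ∧ z ∈ Pool.Agent.H62.EL.Gd B δ) : Away (X \ P) (X \ D) Λ u T₁ r₂ := by
  refine ⟨K₁, hK, hKX, fun z F h0 h1 hF => ?_⟩
  obtain ⟨hzR, hzG⟩ := hR z h0 h1
  exact h z hzG hzR (fun z => pr (F z)) (so_anti (ball_subset_ball hr) (secOn_so isOpen_ball hF fun _ _ => rfl))

/-- `Away` on the right -/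
theorem away_right {R T₁ r₁ r₂ : ℝ} {K₁ : Set (MN N)} (hK : IsCompact K₁) (hKX : K₁ ⊆ pr '' (X \ P)) (hr : r₁ ≤ r₂)
    (h : ∀ z ∈ Pool.Agent.H62.EL.Gd B δ, z ∈ Nb Λ R → ∀ f ∈ SO X D Λ u B (ball z r₁), f z ∈ K₁)
    (hR : ∀ z : ℂ, -T₁ - 10 ≤ z.re → z.re ≤ -T₁ → -z ∈ Nb Λ R ∧ -z ∈ Pool.Agent.H62.EL.Gd B δ) :
    Away (X \ P) (X \ D) Λ (fun x => -u x) T₁ r₂ := by
  refine ⟨K₁, hK, hKX, fun z F h0 h1 hF => ?_⟩
  obtain ⟨hzR, hzG⟩ := hR z h0 h1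
  have hF' : SecOn (X \ D) Λ u (ball (-z) r₂) (fun z => F (-z)) := by
    have h2 := secOn_refl' hF
    rwa [neg_ball] at h2
  have h3 := h (-z) hzG hzR (fun z => pr (F (-z))) (so_anti (ball_subset_ball hr) (secOn_so isOpen_ball hF' fun _ _ => rfl))
  simpa only [neg_neg] using h3

end Pool.Agent.H87.LV

end

section

/-!
# LV UdC: the fields of `UDyn`
-/

set_option autoImplicit false

open Topology Filter Metric

namespace Pool.Agent.H87.LV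

attribute [-instance] ProperSMul.toContinuousSMul

open Pool.Agent.H36.BP (EN fs wd IsGermChart)
open Pool.Agent.H14.PP (IsCone Chart Tan CurveAt)
open Pool.Agent.H62.EF (Lat MN pr TorusMap Sec Charts DU)
open Pool.Agent.H62.EL (Ag BadSet IsNC TForm Mon mo Cap IRel II Per VanZero Thin Zr)
open Pool.Agent.H18.LU (SecAt SO Nb part LFib LData CstL HasCap HasRel)
open Pool.Agent.H87.LU (UDyn Sh)

variable {N : ℕ} {X D P : Set (EN N)} {Λ Γ : AddSubgroup ℂ} {u : EN N → ℂ} {B : Set ℂ} {δ : ℝ}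

/-- the field `iso` -/
theorem iso_of (E : LData X D P Λ Γ u B δ) {α : TForm (X \ P) Λ u} (hthin : Thin α) {R r₁ ε ε₀ C W : ℝ} (hc : CstL D B δ R α r₁ ε ε₀ C)
    (hR0 : 0 ≤ R) (hW : 4 * δ ≤ W) {e : ℂ → MN N} (he : e ∈ SO X D Λ u B Set.univ) :
    ∃ (z₀ : ℂ) (r ε' : ℝ), 0 < r ∧ 0 < ε' ∧ ball z₀ r ⊆ Pool.Agent.H87.LU.Gd B (2 * δ) ∩ {z | |z.re| ≤ W} ∧
      ∀ Ω : Set ℂ, IsOpen Ω → Convex ℝ Ω → ball z₀ r ⊆ Ω → ∀ g ∈ SO X D Λ u B Ω, ∀ z ∈ ball z₀ r, dist (g z) (e z) < ε' →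
        (II α ε z (e z) (g z) = 0 ∨ Zr α z (g z)) → g z = e z := by
  have hδ := E.bad.pos
  obtain ⟨z₀, r', ε', hr', hε', hball, hiso⟩ := Pool.Agent.H18.LU.iso_zrL E hthin (δ' := 2 * δ) (r := 3 * ε) (by linarith) le_rfl hc.ε_pos hR0
    hc.r₁_pos (by linarith [hc.ε_pos]) (Pool.Agent.H18.LU.cap_mono' hc.cap (by linarith) le_rfl le_rfl le_rfl) he
  have hgd : ∀ z ∈ ball (0 : ℂ) (2 * δ), z ∈ Pool.Agent.H62.EL.Gd B (2 * δ) ∧ |z.re| ≤ W := by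
    intro z hz
    rw [mem_ball_zero_iff] at hz
    refine ⟨fun b hb => ?_, ?_⟩
    · have h1 := E.zero b hb
      have h2 : ‖b‖ ≤ ‖z - b‖ + ‖z‖ := by
        have h3 : b = z - (z - b) := by ring
        calc ‖b‖ = ‖z - (z - b)‖ := by rw [← h3]
          _ ≤ ‖z‖ + ‖z - b‖ := norm_sub_le _ _
          _ = _ := add_comm _ _
      linarith
    · exact (Complex.abs_re_le_norm z).trans (by linarith)
  have hz₀ : z₀ ∈ ball (0 : ℂ) (2 * δ) := hball (mem_ball_self hr')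
  have hz₀B : z₀ ∉ B := Pool.Agent.H62.EL.gd_notMem (by linarith) (hgd z₀ hz₀).1
  obtain ⟨x₀, hx₀, hx₀z, hx₀e⟩ := Pool.Agent.H18.LU.so_lift_at E isOpen_univ he (Set.mem_univ z₀) hz₀B
  have hx₀P : x₀ ∉ P := fun h => Pool.Agent.H18.LU.so_notP E he hz₀B ⟨x₀, h, hx₀e⟩
  obtain ⟨ρ, hρ, hρP⟩ := Pool.Agent.H18.LU.pr_closed E.cone E.P_smul (E.P_sub.trans E.D_sub) hx₀ (E.P_closed x₀ hx₀ hx₀P)
  have hcont := Pool.Agent.H18.LU.so_cont E isOpen_univ he (Set.mem_univ z₀) hz₀B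
  have h1 : ∀ᶠ z in 𝓝 z₀, dist (e z) (e z₀) < ρ / 2 := Metric.tendsto_nhds.1 hcont _ (by linarith)
  obtain ⟨r₂, hr₂, hr₂'⟩ := Metric.eventually_nhds_iff_ball.1 h1
  refine ⟨z₀, min r' r₂, min ε' (ρ / 2), lt_min hr' hr₂, lt_min hε' (by linarith), ?_, ?_⟩
  · exact fun z hz => hgd z (hball (ball_subset_ball (min_le_left _ _) hz))
  · intro Ω hΩ _ hΩb g hg z hz hd hzr
    have hz' := ball_subset_ball (min_le_left _ _) hz
    have hzB : z ∉ B := Pool.Agent.H62.EL.gd_notMem (by linarith) (hgd z (hball hz')).1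
    obtain ⟨x, hx, hxz, hxg⟩ := Pool.Agent.H18.LU.so_lift_at E hΩ hg (hΩb hz) hzB
    have hxP : x ∉ P := by
      intro hxP
      have h2 := hρP x hxP
      rw [hxg, hx₀e] at h2
      have h3 := hr₂' z (ball_subset_ball (min_le_right _ _) hz)
      have h4 := hd.trans_le (min_le_right _ _)
      have h5 := dist_triangle (g z) (e z) (e z₀)
      linarith
    rw [← hxg] at hd hzr ⊢
    exact hiso z hz' x ⟨hx, hxP⟩ hxz (hd.trans_le (min_le_left _ _)) hzr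

theorem udyn_of (E : LData X D P Λ Γ u B δ) {p : ℝ} (hp : 0 < p) (hpΓ : (p : ℂ) * Complex.I ∈ Γ)
    (hNb : ∀ R' : ℝ, ∃ R'' : ℝ, ∀ z : ℂ, |z.re| ≤ R' → z ∈ Nb Λ R'') {α : TForm (X \ P) Λ u} (hper : Per α Γ) (hthin : Thin α)
    {R r₁ ε ε₀ C W : ℝ} (hc : CstL D B δ R α r₁ ε ε₀ C) (hR0 : 0 ≤ R) (hR : ∀ z : ℂ, |z.re| ≤ W → z ∈ Nb Λ R) (hBW : ∀ b ∈ B, |b.re| + 4 * δ ≤ W)
    (hW : 4 * δ ≤ W)
    (hJ : ∃ (ε₀ r₁ C : ℝ) (k : ℕ) (a : ℂ), 0 < ε₀ ∧ 0 < r₁ ∧ 0 ≤ C ∧ ∀ (c : ℂ) (R : ℝ), c.re = 0 → r₁ < R → ∀ f ∈ SO X D Λ u B (ball c R),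
      ∀ g ∈ SO X D Λ u B (ball c R), (∀ z ∈ ball c R, z ∈ Pool.Agent.H87.LU.Gd B δ → |z.re| ≤ W → dist (f z) (g z) ≤ ε₀) →
      ∃ J : ℂ → ℂ, DifferentiableOn ℂ J (ball c (R - r₁)) ∧ (∀ z ∈ ball c (R - r₁), ‖J z‖ ≤ C * (1 + R) ^ k) ∧
        (∀ z ∈ ball c (R - r₁), z ∈ Pool.Agent.H87.LU.Gd B (2 * δ) → |z.re| < W → J z = II α ε z (f z) (g z)) ∧
        ∀ l : ℤ, a + p * l * Complex.I ∈ ball c (R - r₁) → J (a + p * l * Complex.I) = 0) :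
    UDyn (KN N) p B δ W (SO X D Λ u B) (Zr α) (II α ε) := by
  have hδ := E.bad.pos
  have hl : ∀ l : ℤ, (p : ℂ) * l * Complex.I ∈ Γ := by
    intro l
    have h1 := Γ.zsmul_mem hpΓ l
    rw [zsmul_eq_mul] at h1
    have h2 : (p : ℂ) * l * Complex.I = (l : ℂ) * (p * Complex.I) := by ring
    rw [h2]
    exact h1
  have hne : ∀ x ∈ X, x ≠ 0 := fun x hx => E.cone.ne_zero hx
  have hcap : HasCap X D P Λ u B (2 * δ) R r₁ (3 * ε) := Pool.Agent.H18.LU.cap_mono' hc.cap (by linarith) le_rfl le_rfl le_rfl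
  have hrel : HasRel D B α (2 * δ) R r₁ ε ε₀ := Pool.Agent.H18.LU.rel_mono' hc.rel (by linarith) le_rfl le_rfl le_rfl
  refine
    { compact := isCompact_KN
      p_pos := hp
      δ_pos := hδ
      W_pos := by linarith
      B_inv := fun b hb l => E.bad.inv b hb _ (E.le (hl l))
      B_sep := E.bad.sep
      B_re := hBW
      anti := fun Ω Ω' _ _ _ _ h => so_anti h
      mem := fun Ω _ _ f hf z hz hzB => so_mem hne E.bad hf hz hzB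
      lip := ?_
      trans := fun Ω _ _ f hf l => Pool.Agent.H18.LU.so_trans E hf (E.le (hl l))
      lim := fun 𝒰 Ω F f _ hΩ hF hf => Pool.Agent.H18.LU.so_lim E 𝒰 Ω hΩ F f hF hf
      uniq := fun Ω hΩ hΩc f hf g hg z₀ hz₀ hz₀B h => Pool.Agent.H18.LU.so_uniq E hΩ hΩc hf hg hz₀ hz₀B h
      Z_inv := fun z y => Pool.Agent.H62.EL.zr_per E.le hper hpΓ z y
      Z_lim := ?_
      II_inv := fun z y y' => Pool.Agent.H62.EL.II_per E.vTor E.le hper hpΓ ε z y y'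
      near := ?_
      iso := fun e he _ => iso_of E hthin hc hR0 hW he
      J := hJ }
  · intro δ' R' hδ'
    obtain ⟨R'', hR''⟩ := hNb R'
    obtain ⟨L, hL, hlip⟩ := Pool.Agent.H18.LU.so_lip E hδ' R''
    refine ⟨L, hL, fun Ω _ _ f hf z hz hzR hsub w hw => ?_⟩
    exact hlip Ω f hf z hz (hR'' z hzR) hsub z (mem_closedBall_self (by linarith)) w hw
  · intro 𝒰 Ω F f hf _ hΩ hF hFf z hz hzW hZ
    have hzB : z ∉ B := Pool.Agent.H62.EL.gd_notMem (by linarith : 0 < 2 * δ) hz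
    obtain ⟨x, hx, hxz, hxf⟩ := Pool.Agent.H18.LU.so_lift_at E isOpen_univ hf (Set.mem_univ z) hzB
    have hxP : x ∉ P := fun h => Pool.Agent.H18.LU.so_notP E hf hzB ⟨x, h, hxf⟩
    have h1 := hFf z hzB
    rw [← hxf] at h1 ⊢
    exact Pool.Agent.H18.LU.zr_closedO E.vCone E.vCharts E.vTor E.dsc ⟨hx, hxP⟩ hxz h1 hZ
  · intro 𝒰 Ω F G w f hf _ hΩ hFG hF hG z hz hzW hw h
    exact Pool.Agent.H18.LU.near_zrL E (δ' := 2 * δ) (R := R) (ε₀ := ε₀) (r := 3 * ε) (by linarith) hc.ε₀_pos (by linarith [hc.ε_pos]) hc.r₁_pos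
      hcap hrel 𝒰 Ω hΩ F G w hf hz (hR z hzW) hFG hF hG hw (by
        filter_upwards [h] with n hn
        exact ⟨hn.1, hR _ hn.2.1, hn.2.2.1, hn.2.2.2⟩)

end Pool.Agent.H87.LV

end
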