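import Pool.Agent.H94.CB.M195
import Pool.Agent.H94.CB.M206

/-! The parts of this file: EG.RL.LinkR, EG.RL.LinkS, EG.RL.PLeft, EG.RL.Q, EG.RL.End, EG.RL.Main_1. -/

section

/-!
# EG RL LinkR: two cells in different charts
-/

set_option autoImplicit false

open Topology Filter Metric Set

namespace Pool.Agent.EG.RL

attribute [-instance] ProperSMul.toContinuousSMul

variable {ι Y : Type}

theorem root_const {S : Set (ℂ × ℂ)} (hS : IsPreconnected S) {R : ℂ × ℂ → ℂ} (hc : ContinuousOn R S) {n : ℕ}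
    (hn : 1 ≤ n) (hR : ∀ x ∈ S, R x ^ n = 1) {x y : ℂ × ℂ} (hx : x ∈ S) (hy : y ∈ S) : R x = R y := by
  have hfin : ({z : ℂ | z ^ n = 1} : Set ℂ).Finite := by
    have h : ({z : ℂ | z ^ n = 1} : Set ℂ) ⊆ ((Polynomial.nthRoots n (1 : ℂ)).toFinset : Set ℂ) := by
      intro z hz
      simp only [Set.mem_ofPred_eq] at hz
      simp only [Finset.mem_coe, Multiset.mem_toFinset]
      exact (Polynomial.mem_nthRoots (by omega)).2 hz
    exact (Finset.finite_toSet _).subset h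
  have hf : Finite ({z : ℂ | z ^ n = 1} : Set ℂ) := hfin.to_subtype
  have hd : DiscreteTopology ({z : ℂ | z ^ n = 1} : Set ℂ) := inferInstance
  exact hS.constant_of_mapsTo (isDiscrete_iff_discreteTopology.2 hd) hc (fun z hz => hR z hz) hx hy

theorem strip_convex (t₀ : ℂ) (ε : ℝ) : Convex ℝ (Strip t₀ ε) := by
  have h : Strip t₀ ε = {t : ℂ | t.re < t₀.re + ε} ∩ ({t : ℂ | t.im < t₀.im + ε} ∩ {t : ℂ | t₀.im - ε < t.im}) := by
    ext t
    simp only [Strip, Set.mem_ofPred_eq, mem_inter_iff, abs_lt]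
    constructor
    · rintro ⟨h1, h2, h3⟩; exact ⟨h1, by linarith, by linarith⟩
    · rintro ⟨h1, h2, h3⟩; exact ⟨h1, by linarith, by linarith⟩
  rw [h]
  exact (convex_halfSpace_re_lt _).inter ((convex_halfSpace_im_lt _).inter (convex_halfSpace_im_gt _))

/-- the map `(t, h) ↦ X j ν t h` stays near `q` -/
theorem X_near_eta (M : Model ι Y) {j : ι} {ν t₀ h₁ : ℂ} {η ε : ℝ} (hη : 0 < η) (hq : ‖(M.X j ν t₀ h₁).1‖ ≤ η / 4) (hε : 0 < ε)
    (e2 : Real.exp (ε * (1 + |(M.b j : ℝ)|)) ≤ 2) (e3 : ∀ h ∈ ball h₁ ε, dist (yb (M.ex j) h) (yb (M.ex j) h₁) < η)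
    {t h : ℂ} (ht : t ∈ Strip t₀ ε) (hh : h ∈ ball h₁ ε) : M.X j ν t h ∈ ball (M.X j ν t₀ h₁) η := by
  have ha : (1 : ℝ) ≤ M.a j := by exact_mod_cast M.a_pos j
  have ha0 := a_ne M j
  rw [mem_ball, Prod.dist_eq, max_lt_iff]
  constructor
  · have hx : (M.X j ν t h).1 = (M.X j ν t₀ h₁).1 * Complex.exp (((t - t₀) - M.b j * (h - h₁)) / M.a j) := by
      simp only [Atl.X]
      rw [mul_assoc, ← Complex.exp_add]
      congr 2
      field_simp
      ring
    have hre : ((((t - t₀) - M.b j * (h - h₁)) / M.a j : ℂ)).re ≤ ε * (1 + |(M.b j : ℝ)|) := by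
      have h1 : ((((t - t₀) - M.b j * (h - h₁)) / M.a j : ℂ)).re = ((t.re - t₀.re) - M.b j * (h.re - h₁.re)) / M.a j := by
        rw [show ((M.a j : ℕ) : ℂ) = (((M.a j : ℕ) : ℝ) : ℂ) by push_cast; rfl, Complex.div_ofReal_re]
        simp
      rw [h1]
      have h2 : |h.re - h₁.re| ≤ ε := by
        have : ‖h - h₁‖ < ε := by simpa [dist_eq_norm] using hh
        have h3 := Complex.abs_re_le_norm (h - h₁)
        simp only [Complex.sub_re] at h3
        linarith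
      have hb : (0 : ℝ) ≤ |(M.b j : ℝ)| := abs_nonneg _
      have h4 : (t.re - t₀.re) - M.b j * (h.re - h₁.re) ≤ ε * (1 + |(M.b j : ℝ)|) := by
        have h5 : t.re - t₀.re ≤ ε := by have := ht.1; linarith
        have h6 : -(M.b j * (h.re - h₁.re)) ≤ |(M.b j : ℝ)| * ε := by
          have h7 : |(M.b j : ℝ) * (h.re - h₁.re)| ≤ |(M.b j : ℝ)| * ε := by
            rw [abs_mul]
            exact mul_le_mul_of_nonneg_left h2 hb
          have h8 := neg_abs_le ((M.b j : ℝ) * (h.re - h₁.re))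
          linarith
        linarith
      have h7 : (0 : ℝ) ≤ ε * (1 + |(M.b j : ℝ)|) := by positivity
      rw [div_le_iff₀ (by linarith)]
      nlinarith
    have hn : ‖(M.X j ν t h).1‖ ≤ η / 2 := by
      rw [hx, norm_mul, Complex.norm_exp]
      calc _ ≤ (η / 4) * 2 := by
            apply mul_le_mul hq _ (Real.exp_nonneg _) (by positivity)
            exact (Real.exp_le_exp.2 hre).trans e2
        _ = η / 2 := by ring
    rw [dist_eq_norm]
    calc _ ≤ ‖(M.X j ν t h).1‖ + ‖(M.X j ν t₀ h₁).1‖ := norm_sub_le _ _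
      _ ≤ η / 2 + η / 4 := add_le_add hn hq
      _ < η := by linarith
  · exact e3 h hh

theorem link_reg (M : Model ι Y) {C₀ κ : ℝ} (hC₀ : 0 ≤ C₀) (hB : Bphi M C₀ κ) {i j : ι} {μ ν t₀ h₀ h₁ : ℂ} {ε : ℝ} (e0 : 0 < ε)
    (e1 : Real.exp (t₀.re + ε) ≤ M.ρ) (e2 : Real.exp (ε * (1 + |(M.b j : ℝ)|)) ≤ 2)
    (e3 : ∀ h ∈ ball h₁ ε, dist (yb (M.ex j) h) (yb (M.ex j) h₁) < M.η) (hμ : M.k i * μ ^ M.a i = 1) (hν : M.k j * ν ^ M.a j = 1)
    (hc : Cen (M.X i μ t₀ h₀)) (hc' : Cen (M.X j ν t₀ h₁))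
    (hr : M.Rg M.η i j (M.X i μ t₀ h₀) (M.X j ν t₀ h₁)) : LinkQ M κ i μ j ν t₀ h₀ h₁ ε (2 * C₀) := by
  obtain ⟨τ, hτq, hτ, hp2, hq2, hq1⟩ := hr
  set p : ℂ × ℂ := M.X i μ t₀ h₀ with hp
  set q : ℂ × ℂ := M.X j ν t₀ h₁ with hq
  have hη := M.η_pos
  have hη4 := M.η_le
  have hnear : ∀ t ∈ Strip t₀ ε, ∀ h ∈ ball h₁ ε, M.X j ν t h ∈ ball q M.η := by
    intro t ht h hh
    exact X_near_eta M hη hq1 e0 e2 e3 ht hh
  have ht₀ : t₀ ∈ Strip t₀ ε := ⟨by linarith, by simpa using e0⟩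
  have hh₁ : h₁ ∈ ball h₁ ε := mem_ball_self e0
  have hpn : ‖p‖ < 1 := by
    rw [Prod.norm_def, max_lt_iff]; exact ⟨by linarith [hc.1], hc.2⟩
  have hqn : ‖q‖ < 1 := by
    rw [Prod.norm_def, max_lt_iff]; exact ⟨by linarith [hc'.1], hc'.2⟩
  -- the quotient of the second coordinates
  have hw : M.ex i = true → ∀ x ∈ ball q M.η, ‖(τ x).2 / p.2 - 1‖ ≤ 1 / 2 := by
    intro hb x hx
    have h1 := hp2 hb
    have hp0 : p.2 ≠ 0 := by
      intro h; rw [h, norm_zero] at h1; norm_num at h1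
    have h2 : ‖(τ x).2 - p.2‖ < 1 / 4 := by
      have := (hτ x hx).2.1
      rw [mem_ball, Prod.dist_eq, max_lt_iff] at this
      rw [← dist_eq_norm]; exact this.2
    have h3 : (τ x).2 / p.2 - 1 = ((τ x).2 - p.2) / p.2 := by field_simp
    rw [h3, norm_div, div_le_iff₀ (by linarith)]
    linarith
  set H : ℂ → ℂ → ℂ := fun t h => if M.ex i = true then h₀ + Complex.log ((τ (M.X j ν t h)).2 / p.2) else (τ (M.X j ν t h)).2 with hHdef
  have hslit : M.ex i = true → ∀ x ∈ ball q M.η, (τ x).2 / p.2 ∈ Complex.slitPlane := by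
    intro hb x hx
    have h1 := hw hb x hx
    have h2 := Complex.mem_slitPlane_of_norm_lt_one (z := (τ x).2 / p.2 - 1) (by linarith)
    simpa using h2
  have hyp : yb (M.ex i) h₀ = p.2 := rfl
  -- the second coordinates agree
  have hsec : ∀ t ∈ Strip t₀ ε, ∀ h ∈ ball h₁ ε, yb (M.ex i) (H t h) = (τ (M.X j ν t h)).2 := by
    intro t ht h hh
    by_cases hb : M.ex i = true
    · have hy : Complex.exp h₀ = p.2 := by rw [← hyp]; simp only [yb, if_pos hb]
      have hp0 : p.2 ≠ 0 := by rw [← hy]; exact Complex.exp_ne_zero _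
      simp only [hHdef, yb, if_pos hb]
      rw [Complex.exp_add, Complex.exp_log (Complex.slitPlane_ne_zero (hslit hb _ (hnear t ht h hh))), hy]
      field_simp
    · simp only [hHdef, yb, if_neg hb]
  have hXan : ∀ p : ℂ × ℂ, AnalyticAt ℂ (fun p : ℂ × ℂ => M.X j ν p.1 p.2) p := X_an M j ν
  have hτan : ∀ t ∈ Strip t₀ ε, ∀ h ∈ ball h₁ ε, AnalyticAt ℂ (fun p : ℂ × ℂ => τ (M.X j ν p.1 p.2)) (t, h) := by
    intro t ht h hh
    exact AnalyticAt.fun_comp (g := τ) (f := fun p : ℂ × ℂ => M.X j ν p.1 p.2) (x := ((t, h) : ℂ × ℂ)) (hτ _ (hnear t ht h hh)).1 (hXan (t, h))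
  have hHan : ∀ t ∈ Strip t₀ ε, ∀ h ∈ ball h₁ ε, AnalyticAt ℂ (fun p : ℂ × ℂ => H p.1 p.2) (t, h) := by
    intro t ht h hh
    have h2 : AnalyticAt ℂ (fun p : ℂ × ℂ => (τ (M.X j ν p.1 p.2)).2) (t, h) :=
      analyticAt_snd.fun_comp (hτan t ht h hh)
    by_cases hb : M.ex i = true
    · simp only [hHdef, if_pos hb]
      refine analyticAt_const.add ?_
      exact (h2.div_const).clog (hslit hb _ (hnear t ht h hh))
    · simpa only [hHdef, if_neg hb] using h2
  have hH₀ : H t₀ h₁ = h₀ := by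
    by_cases hb : M.ex i = true
    · have hy : Complex.exp h₀ = p.2 := by rw [← hyp]; simp only [yb, if_pos hb]
      have hp0 : p.2 ≠ 0 := by rw [← hy]; exact Complex.exp_ne_zero _
      simp only [hHdef, if_pos hb]
      rw [← hq, hτq, div_self hp0, Complex.log_one, add_zero]
    · simp only [hHdef, if_neg hb]
      rw [← hq, hτq, ← hyp]
      simp only [yb, if_neg hb]
  -- the first coordinates agree
  have hfst : ∀ t ∈ Strip t₀ ε, ∀ h ∈ ball h₁ ε, (M.X i μ t (H t h)).1 = (τ (M.X j ν t h)).1 := by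
    have hA0 : ∀ t h : ℂ, (M.X i μ t h).1 ≠ 0 := X_fst_ne M hμ
    have hconv : IsPreconnected (Strip t₀ ε ×ˢ ball h₁ ε) :=
      ((strip_convex t₀ ε).prod (convex_ball h₁ ε)).isPreconnected
    have hcA : ContinuousOn (fun x : ℂ × ℂ => (M.X i μ x.1 (H x.1 x.2)).1) (Strip t₀ ε ×ˢ ball h₁ ε) := by
      intro x hx
      have h1 : AnalyticAt ℂ (fun x : ℂ × ℂ => (x.1, H x.1 x.2)) x := analyticAt_fst.prod (hHan x.1 hx.1 x.2 hx.2)
      have h2 : AnalyticAt ℂ (fun x : ℂ × ℂ => M.X i μ x.1 (H x.1 x.2)) x :=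
        AnalyticAt.fun_comp (f := fun x : ℂ × ℂ => (x.1, H x.1 x.2)) (g := fun x : ℂ × ℂ => M.X i μ x.1 x.2) (X_an M i μ _) h1
      exact (continuous_fst.continuousAt.comp h2.continuousAt).continuousWithinAt
    have hcB : ContinuousOn (fun x : ℂ × ℂ => (τ (M.X j ν x.1 x.2)).1) (Strip t₀ ε ×ˢ ball h₁ ε) := by
      intro x hx
      exact (continuous_fst.continuousAt.comp (hτan x.1 hx.1 x.2 hx.2).continuousAt).continuousWithinAt
    have hR : ∀ x ∈ Strip t₀ ε ×ˢ ball h₁ ε,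
        ((τ (M.X j ν x.1 x.2)).1 / (M.X i μ x.1 (H x.1 x.2)).1) ^ M.a i = 1 := by
      rintro ⟨t, h⟩ ⟨ht, hh⟩
      simp only at ht hh ⊢
      have h1 := u_X M hμ t (H t h)
      have h2 := ((hτ _ (hnear t ht h hh)).2.2 (X_fst_ne M hν t h)).2.1
      rw [u_X M hν] at h2
      simp only [Atl.u] at h1 h2
      have h3 : (M.X i μ t (H t h)).2 = (τ (M.X j ν t h)).2 := hsec t ht h hh
      rw [h3] at h1
      have hE := Complex.exp_ne_zero t
      have hk := k_ne M i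
      have hy : (τ (M.X j ν t h)).2 ^ M.b i ≠ 0 := by
        intro h0; rw [h0, mul_zero] at h1; exact hE h1.symm
      have h4 : (τ (M.X j ν t h)).1 ^ M.a i = (M.X i μ t (H t h)).1 ^ M.a i := by
        have h5 : M.k i * (τ (M.X j ν t h)).1 ^ M.a i * (τ (M.X j ν t h)).2 ^ M.b i =
            M.k i * (M.X i μ t (H t h)).1 ^ M.a i * (τ (M.X j ν t h)).2 ^ M.b i := by rw [h1, h2]
        exact mul_left_cancel₀ hk (mul_right_cancel₀ hy h5)
      rw [div_pow, h4, div_self (pow_ne_zero _ (hA0 _ _))]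
    intro t ht h hh
    have h1 : (τ (M.X j ν t h)).1 / (M.X i μ t (H t h)).1 = (τ (M.X j ν t₀ h₁)).1 / (M.X i μ t₀ (H t₀ h₁)).1 :=
      root_const hconv (hcB.div hcA (fun x hx => hA0 _ _)) (M.a_pos i) hR
        (x := (t, h)) (y := (t₀, h₁)) ⟨ht, hh⟩ ⟨ht₀, hh₁⟩
    rw [hH₀, ← hq, hτq, ← hp, div_self (hA0 t₀ h₀)] at h1
    exact ((div_eq_one_iff_eq (hA0 _ _)).1 h1).symm
  refine link_of M hC₀ hB (ε := ε) (H := H) (τ := τ) hμ hν e0 e1 hHan hH₀ ?_ ?_
  · intro t ht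
    have hb : ‖H t h₁‖ ≤ ‖h₀‖ + 5 / 4 := by
      have hx := hnear t ht h₁ hh₁
      by_cases hb : M.ex i = true
      · simp only [hHdef, if_pos hb]
        have h1 := Complex.norm_log_one_add_half_le_self (hw hb _ hx)
        rw [add_sub_cancel] at h1
        have h2 := hw hb _ hx
        have h3 := norm_add_le h₀ (Complex.log ((τ (M.X j ν t h₁)).2 / p.2))
        linarith
      · simp only [hHdef, if_neg hb]
        have h1 := (hτ _ hx).2.1
        have h2 : ‖(τ (M.X j ν t h₁)).2‖ ≤ ‖τ (M.X j ν t h₁)‖ := norm_snd_le _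
        have h3 : ‖τ (M.X j ν t h₁)‖ ≤ ‖p‖ + 1 / 4 := by
          have h4 : ‖τ (M.X j ν t h₁) - p‖ < 1 / 4 := by rw [← dist_eq_norm]; exact h1
          have h5 := norm_sub_norm_le (τ (M.X j ν t h₁)) p
          linarith
        have := norm_nonneg h₀
        linarith
    have h0 := norm_nonneg h₀
    have h1 := norm_nonneg (t - t₀)
    linarith
  · intro t ht h hh
    have hx := hnear t ht h hh
    obtain ⟨h1, h2, h3⟩ := hτ _ hx
    obtain ⟨h4, h5, h6⟩ := h3 (X_fst_ne M hν t h)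
    refine ⟨?_, ?_, h1, h4, h6 t (u_X M hν t h).symm, ?_⟩
    · rw [mem_ball, dist_zero_right]
      have h6 : ‖M.X j ν t h - q‖ < M.η := by rw [← dist_eq_norm]; exact hx
      have h7 := norm_sub_norm_le (M.X j ν t h) q
      linarith
    · rw [mem_ball, dist_zero_right]
      have h6 : ‖τ (M.X j ν t h) - p‖ < 1 / 4 := by rw [← dist_eq_norm]; exact h2
      have h7 := norm_sub_norm_le (τ (M.X j ν t h)) p
      linarith
    · exact Prod.ext (hfst t ht h hh) (hsec t ht h hh)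

end Pool.Agent.EG.RL

end

section

/-!
# EG RL LinkS: two cells in the same chart, and in exchanged charts
-/

set_option autoImplicit false

open Topology Filter Metric Set

namespace Pool.Agent.EG.RL

attribute [-instance] ProperSMul.toContinuousSMul

open Pool.Agent.H14.PP (jac)

variable {ι Y : Type}

theorem exp_half_le : Real.exp (1 / 2) ≤ 2 := by
  have h := Real.add_one_le_exp (-(1 / 2 : ℝ))
  rw [Real.exp_neg] at h
  have hp := Real.exp_pos (1 / 2 : ℝ)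
  have h2 : (1 / 2 : ℝ) ≤ (Real.exp (1 / 2))⁻¹ := by linarith
  have h3 := mul_le_mul_of_nonneg_right h2 hp.le
  rw [inv_mul_cancel₀ hp.ne'] at h3
  linarith

/-- near a central point the cell stays in the bidisc of radius `2` -/
theorem X_near (M : Model ι Y) (i : ι) {μ t₀ h₁ t h : ℂ} {ε : ℝ} (hc : Cen (M.X i μ t₀ h₁))
    (hε : ε * (1 + |(M.b i : ℝ)|) ≤ 1 / 2) (ht : t ∈ Strip t₀ ε) (hh : h ∈ ball h₁ ε) :
    M.X i μ t h ∈ ball (0 : ℂ × ℂ) 2 := by
  have hε0 : 0 < ε := pos_of_mem_ball hh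
  have hb0 : (0 : ℝ) ≤ |(M.b i : ℝ)| := abs_nonneg _
  have ha1 : (1 : ℝ) ≤ M.a i := by exact_mod_cast M.a_pos i
  have hε1 : ε ≤ 1 / 2 := by nlinarith
  have h1 : t.re - t₀.re < ε := by have := ht.1; linarith
  have h2 : ‖h - h₁‖ < ε := by rwa [← dist_eq_norm]
  have h3 : |h.re - h₁.re| < ε := by
    have := Complex.abs_re_le_norm (h - h₁)
    rw [Complex.sub_re] at this
    linarith
  rw [mem_bi]
  constructor
  · have e1 : ∀ t h : ℂ, ‖(M.X i μ t h).1‖ = ‖μ‖ * Real.exp ((t.re - M.b i * h.re) / M.a i) := by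
      intro t h
      rw [X_norm, mul_assoc, ← Real.exp_add]
      congr 2
      ring
    have hc1 := hc.1
    rw [e1] at hc1 ⊢
    have e2 : (t.re - M.b i * h.re) / M.a i =
        (t₀.re - M.b i * h₁.re) / M.a i + ((t.re - t₀.re) - M.b i * (h.re - h₁.re)) / M.a i := by ring
    rw [e2, Real.exp_add, ← mul_assoc]
    have h4 : ((t.re - t₀.re) - M.b i * (h.re - h₁.re)) / M.a i ≤ 1 / 2 := by
      rw [div_le_iff₀ (by linarith)]
      have : -(M.b i * (h.re - h₁.re)) ≤ |(M.b i : ℝ)| * ε := by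
        have h5 : |(M.b i : ℝ) * (h.re - h₁.re)| ≤ |(M.b i : ℝ)| * ε := by
          rw [abs_mul]
          exact mul_le_mul_of_nonneg_left h3.le hb0
        have h6 := neg_abs_le ((M.b i : ℝ) * (h.re - h₁.re))
        linarith
      nlinarith
    have h5 : Real.exp (((t.re - t₀.re) - M.b i * (h.re - h₁.re)) / M.a i) ≤ 2 :=
      (Real.exp_le_exp.2 h4).trans exp_half_le
    have h6 : 0 ≤ ‖μ‖ * Real.exp ((t₀.re - M.b i * h₁.re) / M.a i) := by positivity
    calc _ ≤ ‖μ‖ * Real.exp ((t₀.re - M.b i * h₁.re) / M.a i) * 2 :=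
          mul_le_mul_of_nonneg_left h5 h6
      _ < 2 := by linarith
  · have hc2 := hc.2
    simp only [Atl.X, yb] at hc2 ⊢
    split_ifs at hc2 ⊢ with hb
    · rw [Complex.norm_exp] at hc2 ⊢
      have e2 : h.re = h₁.re + (h.re - h₁.re) := by ring
      rw [e2, Real.exp_add]
      have h5 : Real.exp (h.re - h₁.re) ≤ 2 :=
        (Real.exp_le_exp.2 (by linarith [(abs_lt.1 h3).2])).trans exp_half_le
      have := Real.exp_pos (h₁.re)
      have := Real.exp_pos (h.re - h₁.re)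
      nlinarith
    · calc ‖h‖ = ‖h₁ + (h - h₁)‖ := by ring_nf
        _ ≤ ‖h₁‖ + ‖h - h₁‖ := norm_add_le _ _
        _ < 2 := by linarith

theorem rot_an (ζ : ℂ) (p : ℂ × ℂ) : AnalyticAt ℂ (rot ζ) p :=
  (analyticAt_const.mul analyticAt_fst).prod (analyticAt_const.mul analyticAt_snd)

private theorem LinkS_jac_rot {ζ : ℂ} (hζ : ζ ≠ 0) (p : ℂ × ℂ) : jac (rot ζ) p = 1 := by
  have h : HasFDerivAt (rot ζ) ((ζ • ContinuousLinearMap.fst ℂ ℂ ℂ).prod (ζ⁻¹ • ContinuousLinearMap.snd ℂ ℂ ℂ)) p :=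
    (hasFDerivAt_fst.const_mul ζ).prodMk (hasFDerivAt_snd.const_mul ζ⁻¹)
  simp [jac, h.fderiv, hζ]

private theorem LinkS_jac_swap {ζ : ℂ} (hζ : ζ ≠ 0) (p : ℂ × ℂ) : jac (fun p => rot ζ p.swap) p = -1 := by
  have h : HasFDerivAt (fun p : ℂ × ℂ => rot ζ p.swap)
      ((ζ • ContinuousLinearMap.snd ℂ ℂ ℂ).prod (ζ⁻¹ • ContinuousLinearMap.fst ℂ ℂ ℂ)) p :=
    (hasFDerivAt_snd.const_mul ζ).prodMk (hasFDerivAt_fst.const_mul ζ⁻¹)
  simp [jac, h.fderiv, hζ]

/-- two cells of the same chart through the same point differ by a translation of `h` -/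
theorem X_shift (M : Model ι Y) {i : ι} {μ ν t₀ h₀ h₁ ζ : ℂ} (hζ : ζ ≠ 0) (ho : M.ex i = false → ζ = 1)
    (h : M.X i μ t₀ h₀ = rot ζ (M.X i ν t₀ h₁)) (t h' : ℂ) : M.X i μ t (h' + (h₀ - h₁)) = rot ζ (M.X i ν t h') := by
  have h1 := congrArg Prod.fst h
  have h2 := congrArg Prod.snd h
  simp only [Atl.X, yb, rot] at h1 h2 ⊢
  by_cases hb : M.ex i = true
  · rw [if_pos hb, if_pos hb] at h2
    rw [if_pos hb, if_pos hb]
    refine Prod.ext ?_ ?_
    · show μ * Complex.exp ((t - M.b i * (h' + (h₀ - h₁))) / M.a i) = ζ * (ν * Complex.exp ((t - M.b i * h') / M.a i))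
      have e1 : (t - M.b i * (h' + (h₀ - h₁))) / (M.a i : ℂ) =
          (t₀ - M.b i * h₀) / M.a i + ((t - t₀) - M.b i * (h' - h₁)) / M.a i := by ring
      have e2 : (t - M.b i * h') / (M.a i : ℂ) =
          (t₀ - M.b i * h₁) / M.a i + ((t - t₀) - M.b i * (h' - h₁)) / M.a i := by ring
      rw [e1, e2, Complex.exp_add, Complex.exp_add, ← mul_assoc, ← mul_assoc, ← mul_assoc, h1]
      ring
    · show Complex.exp (h' + (h₀ - h₁)) = ζ⁻¹ * Complex.exp h'
      rw [Complex.exp_add, Complex.exp_sub, h2]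
      field_simp
  · rw [if_neg hb, if_neg hb] at h2
    rw [if_neg hb, if_neg hb]
    have hb0 := M.b_ex i (by simpa using hb)
    have hz := ho (by simpa using hb)
    subst hz
    simp only [hb0, Int.cast_zero, zero_mul, sub_zero, one_mul, inv_one] at h1 h2 ⊢
    subst h2
    have h3 : μ = ν := mul_right_cancel₀ (Complex.exp_ne_zero _) h1
    rw [h3, sub_self, add_zero]

theorem link_same (M : Model ι Y) {C₀ κ : ℝ} (hC₀ : 0 ≤ C₀) (hB : Bphi M C₀ κ) {i : ι} {μ ν t₀ h₀ h₁ ζ : ℂ} {ε : ℝ} (hε : 0 < ε)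
    (he : Real.exp (t₀.re + ε) ≤ M.ρ) (hεb : ε * (1 + |(M.b i : ℝ)|) ≤ 1 / 2) (hμ : M.k i * μ ^ M.a i = 1)
    (hν : M.k i * ν ^ M.a i = 1) (hζ : ζ ^ M.orb i = 1)
    (hc' : Cen (M.X i ν t₀ h₁)) (h : M.X i μ t₀ h₀ = rot ζ (M.X i ν t₀ h₁)) : LinkQ M κ i μ i ν t₀ h₀ h₁ ε (2 * C₀) := by
  have hζ0 := orb_ne_zero (M.orb_pos i) hζ
  have ho : M.ex i = false → ζ = 1 := by
    intro he
    rcases M.orb_eq i with h1 | h1
    · rw [h1, pow_one] at hζ
      exact hζ
    · rw [he] at h1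
      exact absurd h1 (by simp)
  refine link_of M hC₀ hB (ε := ε) (H := fun _ h => h + (h₀ - h₁)) (τ := rot ζ) hμ hν hε he ?_ ?_ ?_ ?_
  · intro t _ h' _
    exact analyticAt_snd.add analyticAt_const
  · ring
  · intro t _
    have e : h₁ + (h₀ - h₁) = h₀ := by ring
    rw [e]
    nlinarith [norm_nonneg h₀, norm_nonneg (t - t₀)]
  · intro t ht' h' hh'
    have hm := X_near M i hc' hεb ht' hh'
    have hr := rot_norm (M.orb_pos i) hζ (M.X i ν t h')
    have hL := L_X_ne M hν t h'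
    obtain ⟨hs, hg⟩ := M.rot_eq i ζ hζ _ hm hL
    refine ⟨hm, ?_, rot_an ζ _, hs.symm, ?_, X_shift M hζ0 ho h t h'⟩
    · rw [mem_bi] at hm ⊢
      rw [hr.1, hr.2]
      exact hm
    · rw [LinkS_jac_rot hζ0, mul_one, hg t (u_X M hν t h').symm]
      congr 1
      unfold Atl.L rot
      by_cases he : M.ex i = true
      · rw [if_pos he, if_pos he]
        field_simp
      · rw [if_neg he, if_neg he]
        rw [ho (by simpa using he), one_mul]

theorem link_swap (M : Model ι Y) {C₀ κ : ℝ} (hC₀ : 0 ≤ C₀) (hB : Bphi M C₀ κ) {i j : ι} {μ ν t₀ h₀ h₁ ζ : ℂ} {ε : ℝ} (hε : 0 < ε)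
    (he : Real.exp (t₀.re + ε) ≤ M.ρ) (hεb : ε * (1 + |(M.b j : ℝ)|) ≤ 1 / 2) (hs : M.Sw i j) (hμ : M.k i * μ ^ M.a i = 1)
    (hν : M.k j * ν ^ M.a j = 1) (hζ : ζ ^ M.orb i = 1) (hc' : Cen (M.X j ν t₀ h₁))
    (h : M.X i μ t₀ h₀ = rot ζ (M.X j ν t₀ h₁).swap) : LinkQ M κ i μ j ν t₀ h₀ h₁ ε (2 * C₀) := by
  obtain ⟨hei, hej, hbi, haj, hbj, hkj, hsw⟩ := hs
  have hζ0 := orb_ne_zero (M.orb_pos i) hζ
  have ha := a_ne M i
  have hbi0 : M.b i ≠ 0 := by omega
  have hb : (M.b i : ℂ) ≠ 0 := by exact_mod_cast hbi0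
  have haj' : (M.a j : ℂ) = M.b i := by exact_mod_cast congrArg (Int.cast (R := ℂ)) haj
  have hbj' : (M.b j : ℂ) = M.a i := by exact_mod_cast congrArg (Int.cast (R := ℂ)) hbj
  have h1 := congrArg Prod.fst h
  have h2 := congrArg Prod.snd h
  simp only [Atl.X, yb, rot, Prod.fst_swap, Prod.snd_swap, if_pos hei, if_pos hej] at h1 h2
  rw [haj', hbj'] at h2
  have key : ∀ t h' : ℂ, M.X i μ t (h₀ + ((t - t₀) - M.a i * (h' - h₁)) / M.b i) = rot ζ (M.X j ν t h').swap := by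
    intro t h'
    simp only [Atl.X, yb, rot, Prod.swap_prod_mk, if_pos hei, if_pos hej]
    rw [haj', hbj']
    refine Prod.ext ?_ ?_
    · show μ * Complex.exp ((t - M.b i * (h₀ + ((t - t₀) - M.a i * (h' - h₁)) / M.b i)) / M.a i) = ζ * Complex.exp h'
      have e1 : (t - M.b i * (h₀ + ((t - t₀) - M.a i * (h' - h₁)) / M.b i)) / (M.a i : ℂ) =
          (t₀ - M.b i * h₀) / M.a i + (h' - h₁) := by
        field_simp
        ring
      rw [e1, Complex.exp_add, ← mul_assoc, h1, mul_assoc, ← Complex.exp_add]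
      congr 2
      ring
    · show Complex.exp (h₀ + ((t - t₀) - M.a i * (h' - h₁)) / M.b i) = ζ⁻¹ * (ν * Complex.exp ((t - M.a i * h') / M.b i))
      rw [Complex.exp_add, h2, mul_assoc, mul_assoc, ← Complex.exp_add]
      congr 3
      field_simp
      ring
  refine link_of M hC₀ hB (ε := ε)
    (H := fun t h' => h₀ + ((t - t₀) - M.a i * (h' - h₁)) / M.b i) (τ := fun p => rot ζ p.swap) hμ hν hε he ?_ ?_ ?_ ?_
  · intro t _ h' _
    have h3 : AnalyticAt ℂ (fun p : ℂ × ℂ => (p.1 - t₀) - M.a i * (p.2 - h₁)) (t, h') :=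
      (analyticAt_fst.sub analyticAt_const).sub (analyticAt_const.mul (analyticAt_snd.sub analyticAt_const))
    exact analyticAt_const.add (h3.div analyticAt_const hb)
  · simp
  · intro t _
    have e : h₀ + ((t - t₀) - M.a i * (h₁ - h₁)) / (M.b i : ℂ) = h₀ + (t - t₀) / M.b i := by ring
    rw [e]
    have h3 : ‖(t - t₀) / (M.b i : ℂ)‖ ≤ ‖t - t₀‖ := by
      rw [norm_div, Complex.norm_intCast]
      refine div_le_self (norm_nonneg _) ?_
      have h4 : (1 : ℝ) ≤ M.b i := by exact_mod_cast hbi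
      exact h4.trans (le_abs_self _)
    have h5 := norm_add_le h₀ ((t - t₀) / (M.b i : ℂ))
    have := norm_nonneg h₀
    have := norm_nonneg (t - t₀)
    linarith
  · intro t ht' h' hh'
    have hm := X_near M j hc' hεb ht' hh'
    have hL := L_X_ne M hν t h'
    have hm1 : (M.X j ν t h').swap ∈ ball (0 : ℂ × ℂ) 2 := by
      rw [mem_bi] at hm ⊢
      exact ⟨hm.2, hm.1⟩
    have hL1 : M.L i (M.X j ν t h').swap ≠ 0 := by
      unfold Atl.L at hL ⊢
      rw [if_pos hej] at hL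
      rw [if_pos hei, Prod.fst_swap, Prod.snd_swap, mul_comm]
      exact hL
    have hu1 : Complex.exp t = M.u i (M.X j ν t h').swap := by
      have h3 := u_X M hν t h'
      unfold Atl.u at h3 ⊢
      rw [← h3, Prod.fst_swap, Prod.snd_swap, hkj, hbj, ← haj, zpow_natCast, zpow_natCast]
      ring
    have hr := rot_norm (M.orb_pos i) hζ (M.X j ν t h').swap
    obtain ⟨hs1, hg1⟩ := M.rot_eq i ζ hζ _ hm1 hL1
    refine ⟨hm, ?_, ?_, ?_, ?_, key t h'⟩
    · rw [mem_bi] at hm1 ⊢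
      rw [hr.1, hr.2]
      exact hm1
    · exact (analyticAt_const.mul analyticAt_snd).prod (analyticAt_const.mul analyticAt_fst)
    · rw [hs1]
      exact (hsw _ hm hL).1
    · rw [LinkS_jac_swap hζ0, hg1 t hu1, (hsw _ hm hL).2 t (u_X M hν t h').symm]
      unfold Atl.L rot
      rw [if_pos hei, if_pos hej, Prod.fst_swap, Prod.snd_swap]
      field_simp

end Pool.Agent.EG.RL

end

section

/-!
# EG RL PLeft: functions with the decay `exp (κ Re t)` (`κ > 0`) and linear growth extend to the left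
-/

set_option autoImplicit false

open Topology Filter Metric Set

namespace Pool.Agent.EG.RL

attribute [-instance] ProperSMul.toContinuousSMul

variable {ι Y : Type}

theorem strip_open (t₀ : ℂ) (ε : ℝ) : IsOpen (Strip t₀ ε) := by
  have h1 : IsOpen {t : ℂ | t.re < t₀.re + ε} := isOpen_lt Complex.continuous_re continuous_const
  have h2 : IsOpen {t : ℂ | |t.im - t₀.im| < ε} :=
    isOpen_lt ((Complex.continuous_im.sub continuous_const).abs) continuous_const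
  exact h1.inter h2

private theorem PLeft_bound {κ B K : ℝ} (hκ : 0 < κ) (hB : 1 ≤ B) (hK : 0 ≤ K) (δ : ℝ)
    (hδ : 0 < δ) : ∃ R : ℝ, R ≤ 0 ∧ ∀ x : ℝ, x < R → K * (B - x) * Real.exp (κ * x) < δ := by
  have hm : 0 < min 1 (κ / 2) := lt_min one_pos (by positivity)
  have hlim : Tendsto (fun x : ℝ => Real.exp (κ / 2 * x)) atBot (𝓝 0) :=
    Real.tendsto_exp_atBot.comp (tendsto_id.const_mul_atBot (by positivity))
  have hpos : 0 < δ * min 1 (κ / 2) / (K * B + 1) := by positivity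
  obtain ⟨R, hR⟩ := Filter.eventually_atBot.1 (hlim.eventually_lt_const hpos)
  refine ⟨min R 0, min_le_right _ _, fun x hx => ?_⟩
  have hx0 : x < 0 := lt_of_lt_of_le hx (min_le_right _ _)
  have h1 := hR x (le_of_lt (lt_of_lt_of_le hx (min_le_left _ _)))
  have h2 : min 1 (κ / 2) * (1 - x) * Real.exp (κ / 2 * x) ≤ 1 := by
    have h3 : min 1 (κ / 2) * (1 - x) ≤ Real.exp (-(κ / 2 * x)) := by
      have h4 := Real.add_one_le_exp (-(κ / 2 * x))
      have h5 : min 1 (κ / 2) ≤ 1 := min_le_left _ _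
      have h6 : min 1 (κ / 2) ≤ κ / 2 := min_le_right _ _
      nlinarith
    have h7 := mul_le_mul_of_nonneg_right h3 (Real.exp_pos (κ / 2 * x)).le
    rwa [← Real.exp_add, neg_add_cancel, Real.exp_zero] at h7
  have h8 : Real.exp (κ * x) = Real.exp (κ / 2 * x) * Real.exp (κ / 2 * x) := by
    rw [← Real.exp_add]
    congr 1
    ring
  have h9 : K * (B - x) ≤ K * B * (1 - x) := by
    have : B - x ≤ B * (1 - x) := by nlinarith
    calc K * (B - x) ≤ K * (B * (1 - x)) := mul_le_mul_of_nonneg_left this hK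
      _ = K * B * (1 - x) := by ring
  have he := Real.exp_pos (κ / 2 * x)
  have h10 : (K * B + 1) * Real.exp (κ / 2 * x) < δ * min 1 (κ / 2) := by
    rwa [lt_div_iff₀ (by positivity), mul_comm] at h1
  have h11 : min 1 (κ / 2) * (K * (B - x) * Real.exp (κ * x)) ≤
      K * B * Real.exp (κ / 2 * x) := by
    rw [h8]
    calc min 1 (κ / 2) * (K * (B - x) * (Real.exp (κ / 2 * x) * Real.exp (κ / 2 * x)))
        ≤ min 1 (κ / 2) * (K * B * (1 - x) * (Real.exp (κ / 2 * x) * Real.exp (κ / 2 * x))) := by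
          gcongr
      _ = K * B * Real.exp (κ / 2 * x) * (min 1 (κ / 2) * (1 - x) * Real.exp (κ / 2 * x)) := by
          ring
      _ ≤ K * B * Real.exp (κ / 2 * x) * 1 := by
          gcongr
      _ = K * B * Real.exp (κ / 2 * x) := mul_one _
  have h12 : min 1 (κ / 2) * (K * (B - x) * Real.exp (κ * x)) < min 1 (κ / 2) * δ := by
    nlinarith
  exact lt_of_mul_lt_mul_left h12 hm.le

/-- a function with decay -/
theorem left_of_decay {D : ℂ → ℂ} {t₀ : ℂ} {ε κ K : ℝ} (hκ : 0 < κ) (hε : 0 < ε) (hD : DifferentiableOn ℂ D (Strip t₀ ε))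
    (hK : ∀ t ∈ Strip t₀ ε, ‖D t‖ ≤ K * Real.exp (κ * t.re) * (1 + ‖t‖)) : Left (fun t => D t / Complex.exp t) t₀ := by
  refine ⟨ε, hε, hD.div Complex.differentiable_exp.differentiableOn fun t _ => Complex.exp_ne_zero t, fun δ hδ => ?_⟩
  obtain ⟨R, hR0, hR⟩ := PLeft_bound (κ := κ) (B := 1 + |t₀.im| + ε) (K := |K|) hκ
    (by have := abs_nonneg t₀.im; linarith) (by positivity) δ hδ
  refine ⟨R, fun t ht htR => ?_⟩
  have ht0 : t.re ≤ 0 := (htR.le).trans hR0
  rw [div_mul_cancel₀ _ (Complex.exp_ne_zero t)]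
  have h4 : ‖t‖ ≤ |t.re| + |t.im| := Complex.norm_le_abs_re_add_abs_im t
  have h5 : |t.re| = -t.re := abs_of_nonpos ht0
  have h6 : |t.im| ≤ |t₀.im| + ε := by
    have h7 := ht.2.le
    have h8 : |t.im| ≤ |t.im - t₀.im| + |t₀.im| := by
      have := abs_add_le (t.im - t₀.im) t₀.im
      rwa [sub_add_cancel] at this
    linarith
  calc ‖D t‖ ≤ K * Real.exp (κ * t.re) * (1 + ‖t‖) := hK t ht
    _ ≤ |K| * Real.exp (κ * t.re) * (1 + ‖t‖) := by
      gcongr
      exact le_abs_self K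
    _ ≤ |K| * Real.exp (κ * t.re) * (1 + |t₀.im| + ε - t.re) := by
      gcongr
      linarith
    _ = |K| * (1 + |t₀.im| + ε - t.re) * Real.exp (κ * t.re) := by ring
    _ < δ := hR t.re htR

theorem P_left (M : Model ι Y) {C₀ κ : ℝ} (hC₀ : 0 ≤ C₀) (hκ : 0 < κ) (hB : Bphi M C₀ κ) {i : ι} {μ t₀ : ℂ} {ε C : ℝ} {h : ℂ → ℂ}
    (hμ : M.k i * μ ^ M.a i = 1) (hε : 0 < ε) (he : Real.exp (t₀.re + ε) ≤ M.ρ) (hh : DifferentiableOn ℂ h (Strip t₀ ε))
    (hX : ∀ t ∈ Strip t₀ ε, M.X i μ t (h t) ∈ ball (0 : ℂ × ℂ) 2) (hC : ∀ t ∈ Strip t₀ ε, ‖h t‖ ≤ C * (1 + ‖t‖)) :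
    Left (fun t => M.P i μ t (h t) / Complex.exp t) t₀ := by
  have hexp : ∀ t ∈ Strip t₀ ε, ‖Complex.exp t‖ < M.ρ := by
    intro t ht
    rw [Complex.norm_exp]
    exact lt_of_lt_of_le (Real.exp_lt_exp.2 ht.1) he
  refine left_of_decay (K := C₀ * C) hκ hε ?_ ?_
  · intro t ht
    have h1 : AnalyticAt ℂ h t := hh.analyticAt ((strip_open t₀ ε).mem_nhds ht)
    exact (P_an M hμ (hexp t ht) h1 (hX t ht)).differentiableAt.differentiableWithinAt
  · intro t ht
    have h1 := P_le hB hμ (hX t ht) (hexp t ht)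
    have h2 : 0 ≤ C₀ * Real.exp (κ * t.re) := mul_nonneg hC₀ (Real.exp_pos _).le
    have h3 := mul_le_mul_of_nonneg_left (hC t ht) h2
    calc _ ≤ _ := h1
      _ ≤ _ := h3
      _ = _ := by ring

end Pool.Agent.EG.RL

end

section

/-!
# EG RL Q: the link theorem
-/

set_option autoImplicit false

open Topology Filter Metric Set

namespace Pool.Agent.EG.RL

attribute [-instance] ProperSMul.toContinuousSMul

variable {ι Y : Type}

/-- two frozen curves through the same central point are linked on a strip of uniform width, with uniform linear growth -/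
theorem linkQ (M : Model ι Y) [Finite ι] {C₀ κ : ℝ} (hC₀ : 0 ≤ C₀) (hB : Bphi M C₀ κ) :
    ∃ ε : ℝ, 0 < ε ∧ ∀ (i j : ι) (μ ν t₀ h₀ h₁ : ℂ), M.k i * μ ^ M.a i = 1 → M.k j * ν ^ M.a j = 1 → ‖Complex.exp t₀‖ ≤ M.ρ / 2 →
      Cen (M.X i μ t₀ h₀) → Cen (M.X j ν t₀ h₁) → M.s i (M.X i μ t₀ h₀) = M.s j (M.X j ν t₀ h₁) →
      LinkQ M κ i μ j ν t₀ h₀ h₁ ε (2 * C₀) := by
  obtain ⟨B, hBb⟩ : ∃ B : ℕ, ∀ i, (M.b i).natAbs ≤ B := by
    have h1 : (Set.range fun i => (M.b i).natAbs).Finite := Set.finite_range _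
    obtain ⟨B, hB⟩ := h1.bddAbove
    exact ⟨B, fun i => hB ⟨i, rfl⟩⟩
  have hη := M.η_pos
  have hη4 := M.η_le
  have hBp : (0 : ℝ) < 1 + B := by positivity
  refine ⟨min (1 / (2 * (1 + B))) (M.η / 4), lt_min (by positivity) (by positivity), ?_⟩
  set ε : ℝ := min (1 / (2 * (1 + B))) (M.η / 4) with hε
  have hε0 : 0 < ε := lt_min (by positivity) (by positivity)
  have hε1 : ε ≤ 1 / (2 * (1 + B)) := min_le_left _ _
  have hε2 : ε ≤ M.η / 4 := min_le_right _ _
  have hεB : ε * (1 + B) ≤ 1 / 2 := by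
    have h1 := mul_le_mul_of_nonneg_right hε1 hBp.le
    have h2 : 1 / (2 * (1 + (B : ℝ))) * (1 + B) = 1 / 2 := by field_simp
    linarith
  have hεb : ∀ i, ε * (1 + |(M.b i : ℝ)|) ≤ 1 / 2 := by
    intro i
    have h1 : |(M.b i : ℝ)| ≤ B := by
      have h2 : |(M.b i : ℝ)| = ((M.b i).natAbs : ℝ) := by
        rw [Nat.cast_natAbs, Int.cast_abs]
      rw [h2]
      exact_mod_cast hBb i
    have h2 := mul_le_mul_of_nonneg_left (by linarith : 1 + |(M.b i : ℝ)| ≤ 1 + B) hε0.le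
    linarith
  have hεh : ε ≤ 1 / 2 := by linarith
  intro i j μ ν t₀ h₀ h₁ hμ hν ht hc hc' h
  have hρ := M.ρ_pos
  have he : Real.exp (t₀.re + ε) ≤ M.ρ := by
    rw [Real.exp_add, ← Complex.norm_exp]
    have h1 : Real.exp ε ≤ 2 := (Real.exp_le_exp.mpr hεh).trans exp_half_le
    have h2 := Real.exp_pos ε
    have h3 := norm_nonneg (Complex.exp t₀)
    nlinarith
  have hu : M.u i (M.X i μ t₀ h₀) = Complex.exp t₀ := u_X M hμ t₀ h₀
  rcases M.trans i j _ _ hc hc' h (L_X_ne M hμ _ _) (L_X_ne M hν _ _) (by rw [hu]; linarith) with h1 | h1 | h1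
  · subst h1
    obtain ⟨ζ, hζ, h2⟩ := M.inj i _ _ (cen_ball hc') (cen_ball hc) (L_X_ne M hν _ _) (L_X_ne M hμ _ _) h.symm
    exact link_same M hC₀ hB hε0 he (hεb i) hμ hν hζ hc' h2
  · have h2 := (h1.2.2.2.2.2.2 _ (cen_ball hc') (L_X_ne M hν _ _)).1
    rw [h2] at h
    have h4 : (M.X j ν t₀ h₁).swap ∈ ball (0 : ℂ × ℂ) 2 := by
      have h3 := cen_ball hc'
      rw [mem_bi] at h3 ⊢
      exact ⟨h3.2, h3.1⟩
    have h5 : M.L i (M.X j ν t₀ h₁).swap ≠ 0 := by
      have h3 := L_X_ne M hν t₀ h₁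
      unfold Atl.L at h3 ⊢
      rw [if_pos h1.2.1] at h3
      rw [if_pos h1.1, Prod.fst_swap, Prod.snd_swap, mul_comm]
      exact h3
    obtain ⟨ζ, hζ, h3⟩ := M.inj i _ _ h4 (cen_ball hc) h5 (L_X_ne M hμ _ _) h.symm
    exact link_swap M hC₀ hB hε0 he (hεb j) h1 hμ hν hζ hc' h3
  · refine link_reg M hC₀ hB hε0 he ?_ ?_ hμ hν hc hc' h1
    · exact (Real.exp_le_exp.mpr (hεb j)).trans exp_half_le
    · intro h' hh'
      unfold yb
      by_cases hb : M.ex j = true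
      · rw [if_pos hb, if_pos hb]
        have h2 : ‖Complex.exp h₁‖ < 1 := by
          have h3 := hc'.2
          simp only [Atl.X, yb, if_pos hb] at h3
          exact h3
        have h4 : ‖h' - h₁‖ < ε := by rw [← dist_eq_norm]; exact mem_ball.mp hh'
        have h5 : Complex.exp h' - Complex.exp h₁ = Complex.exp h₁ * (Complex.exp (h' - h₁) - 1) := by
          rw [mul_sub, ← Complex.exp_add]
          ring_nf
        have h6 : ‖Complex.exp (h' - h₁) - 1‖ ≤ 2 * ‖h' - h₁‖ := by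
          have := Complex.norm_exp_sub_one_le (x := h' - h₁) (by linarith)
          linarith
        rw [dist_eq_norm, h5, norm_mul]
        have h7 := norm_nonneg (Complex.exp (h' - h₁) - 1)
        nlinarith [norm_nonneg (h' - h₁), norm_nonneg (Complex.exp h₁)]
      · rw [if_neg hb, if_neg hb]
        have := mem_ball.mp hh'
        linarith

end Pool.Agent.EG.RL

end

section

/-!
# EG RL End: a section near the fibre over `0`
-/

set_option autoImplicit false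

open Topology Filter Metric Set

namespace Pool.Agent.EG.RL

attribute [-instance] ProperSMul.toContinuousSMul

variable {ι Y : Type}

/-- the curve `f (exp t)` is in one cell near `t₁`, and its primitive extends to the left -/
def EndAt (M : Model ι Y) (f : ℂ → Y) (t₁ : ℂ) : Prop :=
  ∃ i μ h, Dat M (fun t => f (Complex.exp t)) i μ h t₁ ∧ Left (fun t => M.P i μ t (h t) / Complex.exp t) t₁

/-- the conclusion from a curve in one cell for all small `exp t` -/
private theorem End_fin (M : Model ι Y) {C₀ κ : ℝ} (hC₀ : 0 ≤ C₀) (hκ : 0 < κ) (hB : Bphi M C₀ κ) {f : ℂ → Y} {i : ι} {μ : ℂ}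
    {P : ℂ → ℂ × ℂ} {h : ℂ → ℂ} {r C : ℝ}
    (hr : 0 < r) (hμ : M.k i * μ ^ M.a i = 1)
    (hP : ∀ z : ℂ, ‖z‖ < r → Cen (P z) ∧ f z = M.s i (P z))
    (hh : ∀ t : ℂ, ‖Complex.exp t‖ < r → AnalyticAt ℂ h t ∧ M.X i μ t (h t) = P (Complex.exp t) ∧
      ‖h t‖ ≤ C * (1 + ‖t‖)) :
    ∃ R : ℝ, ∀ t₁ : ℂ, t₁.re < R → EndAt M f t₁ := by
  refine ⟨Real.log (min r M.ρ) - 1, fun t₁ ht₁ => ⟨i, μ, h, ?_, ?_⟩⟩
  · have hm : 0 < min r M.ρ := lt_min hr M.ρ_pos
    have h1 : ‖Complex.exp t₁‖ < r := by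
      rw [Complex.norm_exp]
      have : Real.exp t₁.re < min r M.ρ := by
        rw [← Real.lt_log_iff_exp_lt hm]
        linarith
      exact this.trans_le (min_le_left _ _)
    refine ⟨hμ, (hh t₁ h1).1, ?_, ?_⟩
    · rw [(hh t₁ h1).2.1]
      exact (hP _ h1).1
    · have h2 : ∀ᶠ t in 𝓝 t₁, ‖Complex.exp t‖ < r :=
        (Complex.continuous_exp.norm.tendsto t₁).eventually (gt_mem_nhds h1)
      filter_upwards [h2] with t ht
      rw [(hh t ht).2.1]
      exact (hP _ ht).2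
  · have hm : 0 < min r M.ρ := lt_min hr M.ρ_pos
    have h1 : ∀ t ∈ Strip t₁ 1, ‖Complex.exp t‖ < r := by
      intro t ht
      rw [Complex.norm_exp]
      have h2 : t.re < t₁.re + 1 := ht.1
      have : Real.exp t.re < min r M.ρ := by
        rw [← Real.lt_log_iff_exp_lt hm]
        linarith
      exact this.trans_le (min_le_left _ _)
    refine P_left M hC₀ hκ hB (ε := 1) (C := C) hμ one_pos ?_ ?_ ?_ ?_
    · have h2 : Real.exp (t₁.re + 1) < min r M.ρ := by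
        rw [← Real.lt_log_iff_exp_lt hm]
        linarith
      exact h2.le.trans (min_le_right _ _)
    · intro t ht
      exact (hh t (h1 t ht)).1.differentiableAt.differentiableWithinAt
    · intro t ht
      rw [(hh t (h1 t ht)).2.1]
      exact cen_ball (hP _ (h1 t ht)).1
    · intro t ht
      exact (hh t (h1 t ht)).2.2

/-- the logarithm of an analytic function near a nonzero value -/
private theorem End_log {g : ℂ → ℂ} (hg : AnalyticAt ℂ g 0) (h0 : g 0 ≠ 0) :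
    ∃ L : ℂ → ℂ, ∀ᶠ z in 𝓝 0, AnalyticAt ℂ L z ∧ Complex.exp (L z) = g z ∧ ‖L z‖ ≤ ‖L 0‖ + 1 := by
  have h1 : AnalyticAt ℂ (fun t => g t / g 0) 0 := hg.div analyticAt_const h0
  have h3 : AnalyticAt ℂ (fun t => Complex.log (g 0) + Complex.log (g t / g 0)) 0 := by
    refine analyticAt_const.add (AnalyticAt.clog h1 ?_)
    show g 0 / g 0 ∈ Complex.slitPlane
    rw [div_self h0]
    exact Complex.one_mem_slitPlane
  refine ⟨fun t => Complex.log (g 0) + Complex.log (g t / g 0), ?_⟩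
  have h4 : ∀ᶠ t in 𝓝 (0 : ℂ), g t ≠ 0 := hg.continuousAt.eventually_ne h0
  have h5 : ∀ᶠ t in 𝓝 (0 : ℂ), ‖Complex.log (g 0) + Complex.log (g t / g 0)‖ <
      ‖Complex.log (g 0) + Complex.log (g 0 / g 0)‖ + 1 :=
    h3.continuousAt.norm.eventually (gt_mem_nhds (lt_add_one _))
  filter_upwards [h3.eventually_analyticAt, h4, h5] with z e1 e2 e3
  refine ⟨e1, ?_, e3.le⟩
  rw [Complex.exp_add, Complex.exp_log h0, Complex.exp_log (div_ne_zero e2 h0), mul_div_cancel₀ _ h0]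

/-- a simple zero -/
private theorem End_simple {m : ℕ} (hm : 1 ≤ m) {g c : ℂ → ℂ} (hg : AnalyticAt ℂ g 0) (hc : AnalyticAt ℂ c 0) (h0 : g 0 = 0)
    (he : ∀ᶠ z in 𝓝 (0 : ℂ), c z * g z ^ m = z) : m = 1 ∧ c 0 ≠ 0 := by
  have d1 := (hg.differentiableAt.hasDerivAt).fun_pow m
  have d3 := (hc.differentiableAt.hasDerivAt).mul d1
  have d4 : HasDerivAt (fun z : ℂ => z) 1 0 := hasDerivAt_id 0
  have d5 : (fun z : ℂ => z) =ᶠ[𝓝 0] (c * fun z => g z ^ m) := by
    filter_upwards [he] with z hz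
    exact hz.symm
  have d6 := (d4.congr_of_eventuallyEq d5.symm).unique d3
  rw [h0, zero_pow (show m ≠ 0 by omega)] at d6
  constructor
  · by_contra hne
    rw [zero_pow (show m - 1 ≠ 0 by omega)] at d6
    simp at d6
  · intro hc0
    rw [hc0] at d6
    simp at d6

theorem exists_end (M : Model ι Y) {C₀ κ : ℝ} (hC₀ : 0 ≤ C₀) (hκ : 0 < κ) (hB : Bphi M C₀ κ) {f : ℂ → Y} (hf : M.Hol f 0)
    (hc : M.Cov f 0) : ∃ R : ℝ, ∀ t₁ : ℂ, t₁.re < R → EndAt M f t₁ := by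
  obtain ⟨i, p, hp, hok, hfp⟩ := hc
  obtain ⟨P, hPa, hP0, hPe⟩ := hf i p (cen_ball hp) hok hfp
  have ha := M.a_pos i
  have hk := k_ne M i
  have hP1 : AnalyticAt ℂ (fun z => (P z).1) 0 := AnalyticAt.comp analyticAt_fst hPa
  have hP2 : AnalyticAt ℂ (fun z => (P z).2) 0 := AnalyticAt.comp analyticAt_snd hPa
  have hu0 : M.k i * p.1 ^ M.a i * p.2 ^ M.b i = 0 := by
    have := hPe.self_of_nhds.2
    rw [hP0] at this
    exact this
  have hcen : ∀ᶠ z in 𝓝 (0 : ℂ), Cen (P z) :=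
    hPa.continuousAt.eventually (cen_open.mem_nhds (by
      show Cen (P 0)
      rw [hP0]
      exact hp))
  have hneg : M.b i < 0 → p.2 ≠ 0 := by
    intro hb
    refine hok ?_ hb.le
    by_contra he
    have := M.b_ex i (by simpa using he)
    omega
  by_cases hp1 : p.1 = 0
  · -- `a = 1`
    have hca : AnalyticAt ℂ (fun z => M.k i * (P z).2 ^ M.b i) 0 := by
      refine analyticAt_const.mul ?_
      by_cases h2 : p.2 = 0
      · have hb : 0 ≤ M.b i := by
          by_contra h3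
          exact hneg (by omega) h2
        obtain ⟨m, hm⟩ := Int.eq_ofNat_of_zero_le hb
        rw [hm]
        simp only [zpow_natCast]
        exact hP2.pow m
      · exact hP2.zpow (by rw [hP0]; exact h2)
    obtain ⟨ha1, hc0⟩ := End_simple ha hP1 hca (by rw [hP0]; exact hp1) (by
      filter_upwards [hPe] with z hz
      have h1 : M.k i * (P z).1 ^ M.a i * (P z).2 ^ M.b i = z := hz.2
      rw [mul_right_comm]
      exact h1)
    have hb : p.2 ^ M.b i ≠ 0 := by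
      have := right_ne_zero_of_mul hc0
      rwa [hP0] at this
    have hμ : M.k i * (M.k i)⁻¹ ^ M.a i = 1 := by
      rw [ha1, pow_one, mul_inv_cancel₀ hk]
    -- the coordinate `h`
    obtain ⟨g, hg⟩ : ∃ g : ℂ → ℂ, ∃ C : ℝ, 0 ≤ C ∧ ∀ᶠ z in 𝓝 (0 : ℂ), AnalyticAt ℂ g z ∧
        yb (M.ex i) (g z) = (P z).2 ∧ Complex.exp (M.b i * g z) = (P z).2 ^ M.b i ∧ ‖g z‖ ≤ C := by
      by_cases he : M.ex i = true
      · have hp2 : (P 0).2 ≠ 0 := by
          rw [hP0]
          by_cases hb0 : M.b i ≤ 0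
          · exact hok he hb0
          · intro h
            apply hb
            rw [h, zero_zpow _ (by omega)]
        obtain ⟨L, hL⟩ := End_log hP2 hp2
        refine ⟨L, ‖L 0‖ + 1, by positivity, ?_⟩
        filter_upwards [hL] with z e1
        refine ⟨e1.1, ?_, ?_, e1.2.2⟩
        · rw [he, yb_true]
          exact e1.2.1
        · rw [Complex.exp_int_mul, e1.2.1]
      · refine ⟨fun z => (P z).2, 1, zero_le_one, ?_⟩
        filter_upwards [hP2.eventually_analyticAt, hcen] with z e1 e2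
        have he' : M.ex i = false := by simpa using he
        have hb0 := M.b_ex i he'
        rw [he', hb0]
        refine ⟨e1, yb_false, ?_, e2.2.le⟩
        simp
    obtain ⟨C, hC0, hg⟩ := hg
    obtain ⟨r, hr, hball⟩ := Metric.eventually_nhds_iff_ball.mp (hPe.and (hcen.and hg))
    refine End_fin M hC₀ hκ hB (i := i) (μ := (M.k i)⁻¹) (P := P) (h := fun t => g (Complex.exp t)) (C := C) hr hμ
      (fun z hz => ?_) (fun t ht => ?_)
    · have h1 := hball z (by rwa [mem_ball_zero_iff])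
      exact ⟨h1.2.1, h1.1.1⟩
    · obtain ⟨h1, h2, h3, h4, h5, h6⟩ := hball (Complex.exp t) (by rwa [mem_ball_zero_iff])
      refine ⟨h3.fun_comp (Complex.differentiable_exp.analyticAt t), Prod.ext ?_ h4, ?_⟩
      · show (M.k i)⁻¹ * Complex.exp ((t - M.b i * g (Complex.exp t)) / M.a i) = (P (Complex.exp t)).1
        have h7 : M.k i * (P (Complex.exp t)).1 ^ M.a i * (P (Complex.exp t)).2 ^ M.b i = Complex.exp t := h1.2
        have h8 : (P (Complex.exp t)).2 ^ M.b i ≠ 0 := by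
          intro h
          rw [h, mul_zero] at h7
          exact Complex.exp_ne_zero t h7.symm
        have h9 : Complex.exp t / (P (Complex.exp t)).2 ^ M.b i = M.k i * (P (Complex.exp t)).1 ^ M.a i :=
          (div_eq_iff h8).mpr h7.symm
        rw [ha1] at h9 ⊢
        rw [Nat.cast_one, div_one, Complex.exp_sub, h5, h9, pow_one, inv_mul_cancel_left₀ hk]
      · have := norm_nonneg t
        nlinarith
  · -- `b = 1`
    have hb0 : p.2 ^ M.b i = 0 := by
      rcases mul_eq_zero.mp hu0 with h | h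
      · exact absurd h (mul_ne_zero hk (pow_ne_zero _ hp1))
      · exact h
    have hbne : M.b i ≠ 0 := by
      intro h
      rw [h, zpow_zero] at hb0
      exact one_ne_zero hb0
    have hp2 : p.2 = 0 := by
      by_contra h
      exact zpow_ne_zero _ h hb0
    have hbpos : 0 < M.b i := by
      rcases lt_trichotomy (M.b i) 0 with h | h | h
      · exact absurd hp2 (hneg h)
      · exact absurd h hbne
      · exact h
    have hex : M.ex i = true := by
      by_contra he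
      have := M.b_ex i (by simpa using he)
      omega
    obtain ⟨m, hm⟩ := Int.eq_ofNat_of_zero_le hbpos.le
    obtain ⟨hm1, -⟩ := End_simple (m := m) (by omega) hP2 (c := fun z => M.k i * (P z).1 ^ M.a i)
      (analyticAt_const.mul (hP1.pow _)) (by rw [hP0]; exact hp2) (by
      filter_upwards [hPe] with z hz
      have h1 : M.k i * (P z).1 ^ M.a i * (P z).2 ^ M.b i = z := hz.2
      rw [hm, zpow_natCast] at h1
      exact h1)
    have hb1 : M.b i = 1 := by omega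
    have hp1' : (P 0).1 ≠ 0 := by
      rw [hP0]
      exact hp1
    have ha0 := a_ne M i
    obtain ⟨L, hL⟩ := End_log hP1 hp1'
    obtain ⟨c, hc⟩ : ∃ c : ℂ, Complex.exp c = M.k i := ⟨Complex.log (M.k i), Complex.exp_log hk⟩
    have hμ : M.k i * (Complex.exp (-c / M.a i)) ^ M.a i = 1 := by
      rw [← Complex.exp_nat_mul, mul_div_cancel₀ _ ha0, Complex.exp_neg, hc, mul_inv_cancel₀ hk]
    obtain ⟨r, hr, hball⟩ := Metric.eventually_nhds_iff_ball.mp (hPe.and (hcen.and hL))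
    refine End_fin M hC₀ hκ hB (i := i) (μ := Complex.exp (-c / M.a i)) (P := P)
      (h := fun t => t - c - M.a i * L (Complex.exp t)) (C := 1 + ‖c‖ + M.a i * (‖L 0‖ + 1)) hr hμ
      (fun z hz => ?_) (fun t ht => ?_)
    · have h1 := hball z (by rwa [mem_ball_zero_iff])
      exact ⟨h1.2.1, h1.1.1⟩
    · obtain ⟨h1, h2, h3, h4, h5⟩ := hball (Complex.exp t) (by rwa [mem_ball_zero_iff])
      have h7 : M.k i * (P (Complex.exp t)).1 ^ M.a i * (P (Complex.exp t)).2 ^ M.b i = Complex.exp t := h1.2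
      rw [hb1, zpow_one] at h7
      have h8 : (P (Complex.exp t)).1 ^ M.a i ≠ 0 := by
        intro h
        rw [h, mul_zero, zero_mul] at h7
        exact Complex.exp_ne_zero t h7.symm
      refine ⟨?_, Prod.ext ?_ ?_, ?_⟩
      · exact (analyticAt_id.sub analyticAt_const).sub
          (analyticAt_const.mul (h3.fun_comp (Complex.differentiable_exp.analyticAt t)))
      · show Complex.exp (-c / M.a i) * Complex.exp ((t - M.b i * (t - c - M.a i * L (Complex.exp t))) / M.a i) =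
          (P (Complex.exp t)).1
        rw [hb1, Int.cast_one, one_mul, ← Complex.exp_add, ← h4]
        congr 1
        field_simp
        ring
      · show yb (M.ex i) (t - c - M.a i * L (Complex.exp t)) = (P (Complex.exp t)).2
        rw [hex, yb_true, Complex.exp_sub, Complex.exp_sub, Complex.exp_nat_mul, h4, hc, div_div,
          div_eq_iff (mul_ne_zero hk h8)]
        exact h7.symm.trans (mul_comm _ _)
      · have e1 : ‖t - c - M.a i * L (Complex.exp t)‖ ≤ ‖t‖ + ‖c‖ + M.a i * (‖L 0‖ + 1) := by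
          refine (norm_sub_le _ _).trans (add_le_add (norm_sub_le _ _) ?_)
          rw [norm_mul, Complex.norm_natCast]
          exact mul_le_mul_of_nonneg_left h5 (Nat.cast_nonneg _)
        refine e1.trans ?_
        have e2 := norm_nonneg t
        have e3 := norm_nonneg c
        have e4 : 0 ≤ (M.a i : ℝ) * (‖L 0‖ + 1) := by positivity
        nlinarith

end Pool.Agent.EG.RL

end

section

/-!
# EG RL Main: continuation along a ray, and the extension theorem (holes)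

`z = exp t` is a coordinate near a bad value, `f`, `g` are sections near `z = 0` (holomorphic also at `0`, they avoid the horizontal boundary).
`A z` is the integral of `α / dz` from `f z` to `g z`, so `exp t * A (exp t) = P t (h_g t) - P t (h_f t)` if `f` and `g` are in the same cell (`Start`).  Then `A` extends to
the disc (`rl`).
-/

set_option autoImplicit false

open Topology Filter Metric Set

namespace Pool.Agent.EG.RL

attribute [-instance] ProperSMul.toContinuousSMul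

variable {ι Y : Type}

theorem link_dat (M : Model ι Y) [Finite ι] {C₀ κ : ℝ} (hC₀ : 0 ≤ C₀) (hκ : 0 < κ) (hB : Bphi M C₀ κ) {f : ℂ → Y} {i j : ι}
    {μ ν t₀ : ℂ} {hi hj : ℂ → ℂ} (ht : ‖Complex.exp t₀‖ ≤ M.ρ / 2) (h₁ : Dat M f i μ hi t₀) (h₂ : Dat M f j ν hj t₀) :
    ∃ D : ℂ → ℂ, Left (fun t => D t / Complex.exp t) t₀ ∧ ∀ᶠ t in 𝓝 t₀, M.P i μ t (hi t) - M.P j ν t (hj t) = D t := by
  obtain ⟨hμ, hia, hic, hif⟩ := h₁
  obtain ⟨hν, hja, hjc, hjf⟩ := h₂
  have h3 : ∀ᶠ t in 𝓝 t₀, M.s i (M.X i μ t (hi t)) = M.s j (M.X j ν t (hj t)) := by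
    filter_upwards [hif, hjf] with t h4 h5
    rw [← h4, ← h5]
  obtain ⟨ε, hε, hl⟩ := linkQ M hC₀ hB
  obtain ⟨D, hD, hD', h4⟩ := hl i j μ ν t₀ _ _ hμ hν ht hic hjc h3.self_of_nhds
  refine ⟨D, left_of_decay (K := 2 * C₀ * (1 + ‖t₀‖ + ‖hi t₀‖ + ‖hj t₀‖)) hκ hε hD fun t ht' => ?_,
    h4 hi hj hia hja rfl rfl h3⟩
  have h5 := hD' t ht'
  have h6 : 1 + ‖t - t₀‖ + ‖hi t₀‖ + ‖hj t₀‖ ≤ (1 + ‖t₀‖ + ‖hi t₀‖ + ‖hj t₀‖) * (1 + ‖t‖) := by
    have h7 := norm_sub_le t t₀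
    have h8 := norm_nonneg t
    have h9 := norm_nonneg t₀
    have h10 := norm_nonneg (hi t₀)
    have h11 := norm_nonneg (hj t₀)
    nlinarith
  have h7 : 0 ≤ 2 * C₀ * Real.exp (κ * t.re) := by positivity
  calc _ ≤ _ := h5
    _ ≤ 2 * C₀ * Real.exp (κ * t.re) * ((1 + ‖t₀‖ + ‖hi t₀‖ + ‖hj t₀‖) * (1 + ‖t‖)) := mul_le_mul_of_nonneg_left h6 h7
    _ = _ := by ring

/-- it is enough to extend for one choice of the cells -/
theorem ext_of (M : Model ι Y) [Finite ι] {C₀ κ : ℝ} (hC₀ : 0 ≤ C₀) (hκ : 0 < κ) (hB : Bphi M C₀ κ) {f g : ℂ → Y} {t₀ : ℂ}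
    (ht : ‖Complex.exp t₀‖ ≤ M.ρ / 2) {i j : ι} {μ ν : ℂ} {hf hg L : ℂ → ℂ}
    (h₁ : Dat M (fun t => f (Complex.exp t)) i μ hf t₀) (h₂ : Dat M (fun t => g (Complex.exp t)) j ν hg t₀) (hL : Left L t₀)
    (h : ∀ᶠ t in 𝓝 t₀, L t = (M.P j ν t (hg t) - M.P i μ t (hf t)) / Complex.exp t) : Ext M f g t₀ := by
  intro i' μ' hf' j' ν' hg' h₁' h₂'
  obtain ⟨D₁, hD₁, h3⟩ := link_dat M hC₀ hκ hB ht h₁' h₁
  obtain ⟨D₂, hD₂, h4⟩ := link_dat M hC₀ hκ hB ht h₂' h₂
  refine ⟨fun t => (L t + D₂ t / Complex.exp t) - D₁ t / Complex.exp t, (hL.add hD₂).sub hD₁, ?_⟩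
  filter_upwards [h, h3, h4] with t h5 h6 h7
  rw [h5, ← h6, ← h7]
  ring

theorem cont (M : Model ι Y) [Finite ι] {C₀ κ : ℝ} (hC₀ : 0 ≤ C₀) (hκ : 0 < κ) (hB : Bphi M C₀ κ) {f g : ℂ → Y} {r : ℝ}
    (hr : r ≤ M.ρ / 2) (hf : ∀ z : ℂ, ‖z‖ < r → M.Hol f z ∧ M.Cov f z)
    (hg : ∀ z : ℂ, ‖z‖ < r → M.Hol g z ∧ M.Cov g z) {t₀ : ℂ} (ht₀ : ‖Complex.exp t₀‖ < r) : Ext M f g t₀ := by
  have hr0 : 0 < r := lt_of_le_of_lt (norm_nonneg _) ht₀
  have hρ := M.ρ_pos
  have hrρ : r ≤ M.ρ := by linarith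
  obtain ⟨R₁, hR₁⟩ := exists_end M hC₀ hκ hB (hf 0 (by rw [norm_zero]; exact hr0)).1 (hf 0 (by rw [norm_zero]; exact hr0)).2
  obtain ⟨R₂, hR₂⟩ := exists_end M hC₀ hκ hB (hg 0 (by rw [norm_zero]; exact hr0)).1 (hg 0 (by rw [norm_zero]; exact hr0)).2
  set x₁ : ℝ := min t₀.re (min R₁ R₂ - 1) with hx₁
  have hx₁0 : x₁ ≤ t₀.re := min_le_left _ _
  have hx₁1 : x₁ ≤ min R₁ R₂ - 1 := min_le_right _ _
  set q : ℝ → ℂ := fun x => ⟨x, t₀.im⟩ with hq
  have hqre : ∀ x, (q x).re = x := fun x => rfl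
  have hqim : ∀ x, (q x).im = t₀.im := fun x => rfl
  have hexp : ∀ x : ℝ, x ≤ t₀.re → ‖Complex.exp (q x)‖ < r := by
    intro x hx
    rw [Complex.norm_exp] at ht₀ ⊢
    exact lt_of_le_of_lt (Real.exp_le_exp.mpr (by rw [hqre]; exact hx)) ht₀
  have hq0 : q t₀.re = t₀ := Complex.ext rfl rfl
  have hdist : ∀ x y : ℝ, dist (q x) (q y) = |x - y| := by
    intro x y
    rw [Complex.dist_eq]
    have h1 : q x - q y = ((x - y : ℝ) : ℂ) := by
      apply Complex.ext <;> simp [hq]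
    rw [h1, Complex.norm_real, Real.norm_eq_abs]
  have key : Ext M f g (q t₀.re) := by
    refine real_ind (E := fun x => Ext M f g (q x)) hx₁0 ?_ ?_
    · obtain ⟨i, μ, hi, h1, h2⟩ := hR₁ (q x₁) (by rw [hqre]; have := min_le_left R₁ R₂; linarith)
      obtain ⟨j, ν, hj, h3, h4⟩ := hR₂ (q x₁) (by rw [hqre]; have := min_le_right R₁ R₂; linarith)
      exact ext_of M hC₀ hκ hB ((hexp x₁ hx₁0).le.trans hr) h1 h3 (h4.sub h2)
        (Eventually.of_forall fun t => (sub_div _ _ _).symm)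
    · intro x hx
      have hxr := hexp x hx.2
      obtain ⟨i, μ, hi, h1⟩ := exists_dat M (hf _ hxr).1 (hf _ hxr).2
      obtain ⟨j, ν, hj, h2⟩ := exists_dat M (hg _ hxr).1 (hg _ hxr).2
      have hev : ∀ᶠ t in 𝓝 (q x), ‖Complex.exp t‖ < r :=
        (Complex.continuous_exp.norm.continuousAt).eventually (gt_mem_nhds hxr)
      obtain ⟨δ, hδ, h3⟩ := Metric.eventually_nhds_iff.mp ((dat_eventually M h1).and ((dat_eventually M h2).and hev))
      refine ⟨δ, hδ, fun y hy z hz hyx hzx hyz hE => ?_⟩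
      have hyb : q y ∈ ball (q x) δ := by rw [mem_ball, hdist]; exact hyx
      have hzb : q z ∈ ball (q x) δ := by rw [mem_ball, hdist]; exact hzx
      obtain ⟨hy1, hy2, -⟩ := h3 hyb
      obtain ⟨hz1, hz2, -⟩ := h3 hzb
      obtain ⟨L, hL, hLe⟩ := hE i μ hi j ν hj hy1 hy2
      have hF : DifferentiableOn ℂ (fun t => (M.P j ν t (hj t) - M.P i μ t (hi t)) / Complex.exp t) (ball (q x) δ) := by
        intro t ht
        obtain ⟨h4, h5, h6⟩ := h3 ht
        exact (((P_an M h5.1 (h6.trans_le hrρ) h5.2.1 (cen_ball h5.2.2.1)).sub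
          (P_an M h4.1 (h6.trans_le hrρ) h4.2.1 (cen_ball h4.2.2.1))).differentiableAt.div
          Complex.differentiable_exp.differentiableAt (Complex.exp_ne_zero t)).differentiableWithinAt
      obtain ⟨L', hL', hLe'⟩ := left_glue (t₂ := q z) hL rfl hyz hF hyb hzb hLe
      exact ext_of M hC₀ hκ hB ((hexp z hz.2).le.trans hr) hz1 hz2 hL' hLe'
  rw [hq0] at key
  exact key

/-- the extension theorem -/
theorem rl (M : Model ι Y) [Finite ι] {C₀ κ : ℝ} (hC₀ : 0 ≤ C₀) (hκ : 0 < κ) (hB : Bphi M C₀ κ) {f g : ℂ → Y} {A : ℂ → ℂ}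
    {r r' : ℝ} (hr : 0 < r) (hr' : r < r') (hρ : r' ≤ M.ρ / 2) (hf : ∀ z : ℂ, ‖z‖ < r' → M.Hol f z ∧ M.Cov f z)
    (hg : ∀ z : ℂ, ‖z‖ < r' → M.Hol g z ∧ M.Cov g z) (hA : ∀ t₀ : ℂ, t₀.re = Real.log r → Start M f g A t₀) :
    ∃ (B : ℂ → ℂ) (R : ℝ), r < R ∧ DifferentiableOn ℂ B (ball 0 R) ∧ ∀ z : ℂ, ‖z‖ = r → ∀ᶠ w in 𝓝 z, B w = A w := by
  refine glue hr fun t₀ ht₀ => ?_
  obtain ⟨i, μ, hi, hj, h1, h2, h3⟩ := hA t₀ ht₀
  have h4 : ‖Complex.exp t₀‖ < r' := by
    rw [Complex.norm_exp, ht₀, Real.exp_log hr]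
    exact hr'
  obtain ⟨L, hL, h5⟩ := cont M hC₀ hκ hB hρ hf hg h4 i μ hi i μ hj h1 h2
  refine ⟨L, hL, ?_⟩
  filter_upwards [h3, h5] with t h6 h7
  rw [h7, ← h6, mul_div_cancel_right₀ _ (Complex.exp_ne_zero t)]

end Pool.Agent.EG.RL

end
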