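import Pool.Agent.H94.CB.M195
import Pool.Agent.H94.CB.M196
import Pool.Agent.H94.CB.M200

/-! The parts of this file: H18.LU.HoM, H18.LU.HoT, H18.LU.HoA, H18.LU.HoF. -/

section

/-!
# LU HoM: the family of charts is a model

Compare `exists_model` in `EG/TM/ExM.lean` (team-store `eg_tm.tgz`, or ask helper18).  `ι = {a : Fin n × Bool // a.2 = true → 1 ≤ (c a.1).c}`; the charts `χ a = if a.2 then swp (c a.1).χ else (c a.1).χ`; `M.s a p = pr ((χ a).σ p)`,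
`ex a = decide ((c a.1).Sp)`, `(a, b)`-exponents `(c.a, c.c)` resp. exchanged `(c.c, c.a)` (both `≥ 1`), `k = (c a.1).ρ`,
`g a t p = M.L a p * α.toFun (b + exp t) ((χ a).σ p) (∂₁) (∂₂)`, `orb = 1`, `C₀`, `κ` from `bphi_hole`.
`η_M`: the minimum of `1/4` and of the numbers of the following uniformity for all pairs of indices with different base charts: for `x` in the compact set `closedBall 0 1` with `(χ j).σ x ∈ (χ i).U`, `(χ i).q ((χ j).σ x) ∈ closedBall 0 1`: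
all `y ∈ ball x η_M` are in `ball 0 2`, `(χ j).σ y ∈ (χ i).U`, `‖(χ i).q ((χ j).σ y) - (χ i).q ((χ j).σ x)‖ < 1/4`.  [The set of these `x` is compact: it is the set of the `x ∈ closedBall 0 1` with
`pr ((χ j).σ x) ∈ pr '' ((χ i).σ '' closedBall 0 1)`: if `pr ((χ j).σ x) = pr ((χ i).σ p)` then `(χ j).σ x` is a multiple of `(χ i).σ p`, so it is in `(χ i).U` with `q = p`; and the map `(χ i).q ∘ (χ j).σ` is continuous near it.]
`ρ_M`: positive, `≤ η`, `≤ s` (of `cov`), `≤ ‖k i‖`, `≤ η_M * ‖k i‖ / 8 / 2 ^ (b i)` for all `i`.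
Fields of `Model`: `inj`: `pr (σ p) = pr (σ q)` gives `q = p` (`pr_eq_iff`, `q_smul`, `σ_mem`); `ζ = 1`.  `rot_eq`: `ζ = 1`.  `g_an`: `TForm.analytic` for `X \ P` (`υ q = b + exp (t q) = b + M.u i q`; `σ q ∉ P` near `p`: `P_iff` and `L i p ≠ 0`), `Mon.lift`.
`trans`: same base chart: equal or exchanged (`Sw`: `σ (p.swap)`; the derivatives are exchanged, `det` of `TForm` with `(0, 1, 1, 0)` gives the sign); different base charts: `Rg` with `τ y = (χ i).q ((χ j).σ y)`: analytic;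
`(χ j).σ y = c • (χ i).σ (τ y)` (`surj`); `M.u i (τ y) = M.u j y`: `u_eq`, `TorusMap.smul`, and `inj` (both `< η`); for `y.1 ≠ 0`: the form: as in `tc_transO` (the coefficient of `χ j` at `y` is `jac τ y` times the one of `χ i` at `τ y`),
the point is outside `P` (see below).  `1 / 2 ≤ ‖p.2‖` if `ex i`: otherwise `‖p.1‖, ‖p.2‖ ≤ 1/2` and `(χ i).σ p ∈ (χ j).U` contradicts `sep` (also for exchanged charts); same for `q`.  `P`: if `ex i = true`, `τ y ∈ ball p (1/4)`, so `(τ y).2 ≠ 0`, and if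
`ex i = false` the chart does not meet `P`.  `‖q.1‖ ≤ η_M / 4`: `‖k_j‖ ‖q.1‖ ^ a ‖q.2‖ ^ b = ‖u‖ < ρ_M`, `‖q.2‖ ^ b ≥ 2 ^ (-b)`, and `‖q.1‖ ^ a ≤ (η_M/4) ^ a` must follow: take `ρ_M ≤ (η_M / 4) ^ a * ‖k‖ / 2 ^ (b + 1)` for all `i`.
`bphi`: `bphi_hole` (`EG/RL/Bd`): `‖g‖ = ‖p.1‖ ‖p.2‖^{[ex]} ‖coefficient‖`, `HBd`; for exchanged charts `‖p.1‖ ‖p.2‖` is symmetric.
`cov` from `HFam.cov`.
-/

set_option autoImplicit false

open Topology Filter Metric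

namespace Pool.Agent.H18.LU

attribute [-instance] ProperSMul.toContinuousSMul

open Pool.Agent.H36.BP (EN fs wd IsGermChart)
open Pool.Agent.H14.PP (IsCone Chart Tan CurveAt jac)
open Pool.Agent.H62.EF (Lat MN pr TorusMap Sec Charts DU)
open Pool.Agent.H62.EL (Gd Ag BadSet IsNC TForm Mon mo tc)
open Pool.Agent.EG.RL (Model Atl Cen Bphi rot)
open Pool.Agent.EG.LE (cf cf_change)

variable {N : ℕ} {X D P : Set (EN N)} {Λ Γ : AddSubgroup ℂ} {u : EN N → ℂ} {B : Set ℂ} {δ : ℝ}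

private theorem HoM_cone (E : LData X D P Λ Γ u B δ) : OCone (X \ P) := by
  refine ⟨fun h => E.cone.zero_notMem h.1, fun x hx c hc => ⟨E.cone.smul_mem x hx.1 c hc, fun h => hx.2 ?_⟩⟩
  have h1 := E.P_smul _ h c⁻¹ (inv_ne_zero hc)
  rwa [smul_smul, inv_mul_cancel₀ hc, one_smul] at h1

/-- the chart with constants, coordinates exchanged -/
private noncomputable def HoM_sw (S : HCh X) : HCh X := ⟨swp S.χ, S.ρ, S.c, S.a, S.hor⟩

private theorem HoM_mo (b : ℂ) (ρ : ℝ) (i j : ℕ) (p : ℂ × ℂ) : mo b ρ j i p = mo b ρ i j p.swap := by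
  simp only [mo, Prod.fst_swap, Prod.snd_swap]
  ring

private theorem HoM_swb {p : ℂ × ℂ} {r : ℝ} (h : p ∈ ball (0 : ℂ × ℂ) r) : p.swap ∈ ball (0 : ℂ × ℂ) r := by
  rw [mem_ball_zero_iff, Prod.norm_def] at h ⊢
  rw [max_comm]
  exact h

private theorem HoM_ok {b : ℂ} {η : ℝ} {S : HCh X} (h : HOk P Λ u b η S) (hc : 1 ≤ S.c) : HOk P Λ u b η (HoM_sw S) where
  mon := ⟨h.mon.pos, by
    have := h.mon.ij
    show 0 < S.c + S.a
    omega, fun p hp => by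
    show u (S.χ.σ p.swap) - mo b S.ρ S.c S.a p ∈ Λ
    rw [HoM_mo]
    exact h.mon.lift _ (HoM_swb hp)⟩
  a_pos := hc
  hor_c := fun h' => absurd (h.hor_c h') (by omega)
  P_iff := fun p hp => by
    show S.χ.σ p.swap ∈ P ↔ S.hor = true ∧ p.2 = 0
    rw [h.P_iff _ (HoM_swb hp)]
    constructor
    · rintro ⟨h1, -⟩
      exact absurd (h.hor_c h1) (by omega)
    · rintro ⟨h1, -⟩
      exact absurd (h.hor_c h1) (by omega)
  small := fun p hp => by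
    show ‖mo b S.ρ S.c S.a p - b‖ < η
    rw [HoM_mo]
    exact h.small _ (HoM_swb hp)

private theorem HoM_jac (p : ℂ × ℂ) : jac (fun y : ℂ × ℂ => y.swap) p = -1 := by
  have h : HasFDerivAt (fun y : ℂ × ℂ => y.swap) ((ContinuousLinearMap.snd ℂ ℂ ℂ).prod (ContinuousLinearMap.fst ℂ ℂ ℂ)) p :=
    HasFDerivAt.prodMk hasFDerivAt_snd hasFDerivAt_fst
  unfold jac
  rw [h.fderiv]
  simp

/-- near a point outside `P` -/
private theorem HoM_near (E : LData X D P Λ Γ u B δ) (χ : Chart X) {p : ℂ × ℂ} (hp : p ∈ ball (0 : ℂ × ℂ) 2) (hP : χ.σ p ∉ P) :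
    ∀ᶠ y in 𝓝 p, χ.σ y ∈ X \ P := by
  filter_upwards [isOpen_ball.mem_nhds hp, (χ.σ_an p hp).continuousAt.eventually (E.P_closed _ (χ.σ_mem p hp).1 hP)] with y hy hy2
  exact ⟨(χ.σ_mem y hy).1, hy2⟩

/-- change of charts -/
private theorem HoM_form (E : LData X D P Λ Γ u B δ) (α : TForm (X \ P) Λ u) (χ χ' : Chart X) {p : ℂ × ℂ} (hp : p ∈ ball (0 : ℂ × ℂ) 2)
    (hU : χ'.σ p ∈ χ.U) (hP : χ'.σ p ∉ P) {t : ℂ} (ht : u (χ'.σ p) - t ∈ Λ) :
    cf α χ'.σ t p = cf α χ.σ t (χ.q (χ'.σ p)) * jac (fun y => χ.q (χ'.σ y)) p := by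
  obtain ⟨hq, c, hc, hx⟩ := χ.surj _ (χ'.σ_mem p hp).1 hU
  have hPq : χ.σ (χ.q (χ'.σ p)) ∉ P := fun h => hP (by rw [hx]; exact E.P_smul _ h c hc)
  have hτ : AnalyticAt ℂ (fun y => χ.q (χ'.σ y)) p :=
    AnalyticAt.comp (g := χ.q) (f := χ'.σ) (χ.q_an _ hU) (χ'.σ_an p hp)
  have hut : u (χ.σ (χ.q (χ'.σ p))) - t ∈ Λ := by
    have h1 := E.tor.smul _ (χ.σ_mem _ hq).1 c hc
    rw [← hx] at h1
    have h2 := Λ.sub_mem ht h1
    have e : u (χ'.σ p) - t - (u (χ'.σ p) - u (χ.σ (χ.q (χ'.σ p)))) = u (χ.σ (χ.q (χ'.σ p))) - t := by ring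
    rwa [e] at h2
  refine cf_change (α := α) (HoM_cone E).zero_notMem (HoM_cone E).smul_mem (φ := χ'.σ) (ψ := χ.σ) (τ := fun y => χ.q (χ'.σ y)) (χ'.σ_an p hp)
    (χ.σ_an _ hq) hτ (HoM_near E χ hq hPq) hut ?_
  filter_upwards [isOpen_ball.mem_nhds hp, (χ'.σ_an p hp).continuousAt.eventually (χ.isOpen_U.mem_nhds hU)] with y hy hyU
  obtain ⟨-, c, hc, h⟩ := χ.surj _ (χ'.σ_mem y hy).1 hyU
  exact ⟨c, hc, h⟩

/-- exchanged coordinates -/
private theorem HoM_swf (E : LData X D P Λ Γ u B δ) (α : TForm (X \ P) Λ u) (χ : Chart X) {p : ℂ × ℂ} (hp : p ∈ ball (0 : ℂ × ℂ) 2)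
    (hP : χ.σ p.swap ∉ P) {t : ℂ} (ht : u (χ.σ p.swap) - t ∈ Λ) : cf α (swp χ).σ t p = -cf α χ.σ t p.swap := by
  have h1 : AnalyticAt ℂ (fun y : ℂ × ℂ => y.swap) p := analyticAt_snd.prod analyticAt_fst
  have h2 := cf_change (α := α) (HoM_cone E).zero_notMem (HoM_cone E).smul_mem (φ := (swp χ).σ) (ψ := χ.σ) (τ := fun y => y.swap) ((swp χ).σ_an p hp)
    (χ.σ_an _ (HoM_swb hp)) h1 (HoM_near E χ (HoM_swb hp) hP) ht (Eventually.of_forall fun y => ⟨1, one_ne_zero, (one_smul _ _).symm⟩)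
  rw [h2, HoM_jac, mul_neg_one]

private theorem HoM_bd (E : LData X D P Λ Γ u B δ) {α : TForm (X \ P) Λ u} {b : ℂ} {η : ℝ} {S : HCh X} (h : HOk P Λ u b η S) (hc : 1 ≤ S.c)
    (hb : HBd α b S) : HBd α b (HoM_sw S) := by
  obtain ⟨C, hC⟩ := hb
  have hh : S.hor ≠ true := fun h' => absurd (h.hor_c h') (by omega)
  refine ⟨C, fun p hp hP => ?_⟩
  have hP' : S.χ.σ p.swap ∉ P := hP
  have h1 := hC _ (HoM_swb hp) hP'
  rw [if_neg hh, one_mul] at h1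
  have h2 := HoM_swf E α S.χ hp hP' (t := mo b S.ρ S.a S.c p.swap) (h.mon.lift _ (HoM_swb hp))
  show ‖(if S.hor = true then p.2 else 1) * cf α (swp S.χ).σ (mo b S.ρ S.c S.a p) p‖ ≤ C
  rw [if_neg hh, one_mul, HoM_mo, h2, norm_neg]
  exact h1

/-- type of the chart -/
private def HoM_ex (S : HCh X) : Bool := S.hor || decide (1 ≤ S.c)

private theorem HoM_ex_iff (S : HCh X) : HoM_ex S = true ↔ S.Sp := by
  unfold HoM_ex HCh.Sp
  simp

/-- the frame -/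
private def HoM_L (S : HCh X) (p : ℂ × ℂ) : ℂ := p.1 * (if HoM_ex S = true then p.2 else 1)

/-- the function -/
private noncomputable def HoM_u (S : HCh X) (p : ℂ × ℂ) : ℂ := (S.ρ : ℂ) * p.1 ^ S.a * p.2 ^ (S.c : ℤ)

private theorem HoM_u_eq (S : HCh X) (b : ℂ) (p : ℂ × ℂ) : mo b S.ρ S.a S.c p = b + HoM_u S p := by
  unfold mo HoM_u
  rw [zpow_natCast]
  ring

private theorem HoM_L_P {b : ℂ} {η : ℝ} {S : HCh X} (h : HOk P Λ u b η S) {p : ℂ × ℂ} (hp : p ∈ ball (0 : ℂ × ℂ) 2) (hL : HoM_L S p ≠ 0) :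
    S.χ.σ p ∉ P := by
  intro hP
  obtain ⟨h1, h2⟩ := (h.P_iff p hp).1 hP
  apply hL
  unfold HoM_L
  rw [if_pos ((HoM_ex_iff S).2 (Or.inl h1)), h2, mul_zero]

private theorem HoM_L_an (S : HCh X) (p : ℂ × ℂ) : AnalyticAt ℂ (HoM_L S) p := by
  unfold HoM_L
  split_ifs
  · exact analyticAt_fst.mul analyticAt_snd
  · exact analyticAt_fst.mul analyticAt_const

/-- the coefficient is analytic -/
private theorem HoM_an (_E : LData X D P Λ Γ u B δ) (α : TForm (X \ P) Λ u) {b : ℂ} {η : ℝ} {S : HCh X} (h : HOk P Λ u b η S) {p : ℂ × ℂ}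
    (hp : p ∈ ball (0 : ℂ × ℂ) 2) (hL : HoM_L S p ≠ 0) {t : ℂ × ℂ → ℂ} (ht : AnalyticAt ℂ t p) (hte : ∀ᶠ q in 𝓝 p, Complex.exp (t q) = HoM_u S q) :
    AnalyticAt ℂ (fun q => HoM_L S q * cf α S.χ.σ (b + Complex.exp (t q)) q) p := by
  refine (HoM_L_an S p).mul ?_
  refine α.analytic S.χ.σ (fun q => b + Complex.exp (t q)) p (S.χ.σ_an p hp) (analyticAt_const.add ht.cexp) ?_
  filter_upwards [hte, isOpen_ball.mem_nhds hp, (HoM_L_an S p).continuousAt.eventually_ne hL] with q h1 h2 h3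
  refine ⟨⟨(S.χ.σ_mem q h2).1, HoM_L_P h h2 h3⟩, ?_⟩
  rw [h1, ← HoM_u_eq]
  exact h.mon.lift q h2

/-- uniform size of the overlaps -/
private theorem HoM_unif (hX : OCone X) (χ χ' : Chart X) : ∃ r : ℝ, 0 < r ∧ ∀ x ∈ closedBall (0 : ℂ × ℂ) 1, χ'.σ x ∈ χ.U →
    χ.q (χ'.σ x) ∈ closedBall (0 : ℂ × ℂ) 1 → ∀ y ∈ ball x r, y ∈ ball (0 : ℂ × ℂ) 2 ∧ χ'.σ y ∈ χ.U ∧
      ‖χ.q (χ'.σ y) - χ.q (χ'.σ x)‖ < 1 / 4 := by
  have h12 : ∀ x ∈ closedBall (0 : ℂ × ℂ) 1, x ∈ ball (0 : ℂ × ℂ) 2 := fun x hx => by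
    rw [mem_closedBall_zero_iff] at hx
    rw [mem_ball_zero_iff]
    linarith
  have hcont : ∀ χ : Chart X, ContinuousOn (fun x => pr (χ.σ x)) (closedBall (0 : ℂ × ℂ) 1) := fun χ x hx =>
    ((Pool.Agent.H62.EF.continuousAt_pr (hX.ne_zero (χ.σ_mem x (h12 x hx)).1)).comp
      (χ.σ_an x (h12 x hx)).continuousAt).continuousWithinAt
  have hcpt : IsCompact ((fun x => pr (χ.σ x)) '' closedBall (0 : ℂ × ℂ) 1) :=
    (isCompact_closedBall (0 : ℂ × ℂ) 1).image_of_continuousOn (hcont χ)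
  have hK : IsCompact (closedBall (0 : ℂ × ℂ) 1 ∩ (fun x => pr (χ'.σ x)) ⁻¹' ((fun x => pr (χ.σ x)) '' closedBall (0 : ℂ × ℂ) 1)) :=
    (isCompact_closedBall (0 : ℂ × ℂ) 1).of_isClosed_subset ((hcont χ').preimage_isClosed_of_isClosed isClosed_closedBall hcpt.isClosed)
      Set.inter_subset_left
  set K := closedBall (0 : ℂ × ℂ) 1 ∩ (fun x => pr (χ'.σ x)) ⁻¹' ((fun x => pr (χ.σ x)) '' closedBall (0 : ℂ × ℂ) 1) with hKd
  have hKU : ∀ x ∈ K, χ'.σ x ∈ χ.U := by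
    rintro x ⟨hx, y, hy, hxy⟩
    obtain ⟨h1, h2, -⟩ := χ.σ_mem y (h12 y hy)
    obtain ⟨c, hc, h4⟩ := (Pool.Agent.H62.EF.pr_eq_iff (hX.ne_zero (χ'.σ_mem x (h12 x hx)).1) (hX.ne_zero h1)).1 hxy.symm
    rw [h4]
    exact χ.smul_U _ h2 c hc
  have hloc : ∀ x : K, ∃ r : ℝ, 0 < r ∧ ∀ y ∈ ball (x : ℂ × ℂ) r, y ∈ ball (0 : ℂ × ℂ) 2 ∧ χ'.σ y ∈ χ.U ∧
      ‖χ.q (χ'.σ y) - χ.q (χ'.σ x)‖ < 1 / 8 := by
    rintro ⟨x, hx⟩
    have hx2 := h12 x hx.1
    have h1 := isOpen_ball.mem_nhds hx2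
    have h2 := (χ'.σ_an x hx2).continuousAt.eventually (χ.isOpen_U.mem_nhds (hKU x hx))
    have h3 : ContinuousAt (fun y => χ.q (χ'.σ y)) x :=
      ContinuousAt.comp (g := χ.q) (f := χ'.σ) (χ.q_an _ (hKU x hx)).continuousAt (χ'.σ_an x hx2).continuousAt
    have h4 : ∀ᶠ y in 𝓝 x, ‖χ.q (χ'.σ y) - χ.q (χ'.σ x)‖ < 1 / 8 := by
      have := h3.eventually (ball_mem_nhds _ (by norm_num : (0 : ℝ) < 1 / 8))
      filter_upwards [this] with y hy
      rwa [dist_eq_norm] at hy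
    obtain ⟨r, hr, h5⟩ := Metric.eventually_nhds_iff_ball.1 ((h2.and h4).and (Filter.eventually_mem_set.2 h1))
    exact ⟨r, hr, fun y hy => ⟨(h5 y hy).2, (h5 y hy).1.1, (h5 y hy).1.2⟩⟩
  choose r hr hr' using hloc
  obtain ⟨e, he, he'⟩ := lebesgue_number_lemma_of_metric hK (c := fun x : K => ball (x : ℂ × ℂ) (r x)) (fun x => isOpen_ball)
    (fun x hx => Set.mem_iUnion.2 ⟨⟨x, hx⟩, mem_ball_self (hr _)⟩)
  refine ⟨e, he, fun x hx hxU hxq y hy => ?_⟩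
  have hxK : x ∈ K := by
    refine ⟨hx, χ.q (χ'.σ x), hxq, ?_⟩
    obtain ⟨h1, c, hc, h2⟩ := χ.surj _ (χ'.σ_mem x (h12 x hx)).1 hxU
    exact ((Pool.Agent.H62.EF.pr_eq_iff (hX.ne_zero (χ'.σ_mem x (h12 x hx)).1) (hX.ne_zero (χ.σ_mem _ h1).1)).2 ⟨c, hc, h2⟩).symm
  obtain ⟨x₀, hx₀⟩ := he' x hxK
  obtain ⟨h1, h2, h3⟩ := hr' x₀ y (hx₀ hy)
  obtain ⟨-, -, h6⟩ := hr' x₀ x (hx₀ (mem_ball_self he))
  refine ⟨h1, h2, ?_⟩
  have h7 : χ.q (χ'.σ y) - χ.q (χ'.σ x) = (χ.q (χ'.σ y) - χ.q (χ'.σ x₀)) - (χ.q (χ'.σ x) - χ.q (χ'.σ x₀)) := by abel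
  rw [h7]
  refine (norm_sub_le _ _).trans_lt ?_
  linarith

/-- the overlap of two charts -/
private theorem HoM_rg (E : LData X D P Λ Γ u B δ) (α : TForm (X \ P) Λ u) {b : ℂ} {η : ℝ} {S T : HCh X} (hS : HOk P Λ u b η S)
    (hT : HOk P Λ u b η T) (hinj : ∀ l ∈ Λ, ‖l‖ < 2 * η → l = 0) {x : ℂ × ℂ} (hx : x ∈ ball (0 : ℂ × ℂ) 2) (hU : T.χ.σ x ∈ S.χ.U) :
    AnalyticAt ℂ (fun y => S.χ.q (T.χ.σ y)) x ∧ pr (T.χ.σ x) = pr (S.χ.σ (S.χ.q (T.χ.σ x))) ∧ HoM_u S (S.χ.q (T.χ.σ x)) = HoM_u T x ∧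
      (T.χ.σ x ∉ P → ∀ t, Complex.exp t = HoM_u T x → HoM_L T x * cf α T.χ.σ (b + Complex.exp t) x * HoM_L S (S.χ.q (T.χ.σ x)) =
        HoM_L S (S.χ.q (T.χ.σ x)) * cf α S.χ.σ (b + Complex.exp t) (S.χ.q (T.χ.σ x)) * jac (fun y => S.χ.q (T.χ.σ y)) x * HoM_L T x) := by
  obtain ⟨hq, c, hc, hxc⟩ := S.χ.surj _ (T.χ.σ_mem x hx).1 hU
  refine ⟨AnalyticAt.comp (g := S.χ.q) (f := T.χ.σ) (S.χ.q_an _ hU) (T.χ.σ_an x hx),
    (Pool.Agent.H62.EF.pr_eq_iff (E.cone.ne_zero (T.χ.σ_mem x hx).1) (E.cone.ne_zero (S.χ.σ_mem _ hq).1)).2 ⟨c, hc, hxc⟩, ?_, ?_⟩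
  · have h1 := E.tor.smul _ (S.χ.σ_mem _ hq).1 c hc
    rw [← hxc] at h1
    have h2 := hS.mon.lift _ hq
    have h3 := hT.mon.lift _ hx
    rw [HoM_u_eq] at h2 h3
    have h4 : HoM_u S (S.χ.q (T.χ.σ x)) - HoM_u T x ∈ Λ := by
      have h5 := Λ.sub_mem (Λ.sub_mem h3 h1) h2
      have e : u (T.χ.σ x) - (b + HoM_u T x) - (u (T.χ.σ x) - u (S.χ.σ (S.χ.q (T.χ.σ x)))) -
          (u (S.χ.σ (S.χ.q (T.χ.σ x))) - (b + HoM_u S (S.χ.q (T.χ.σ x)))) = HoM_u S (S.χ.q (T.χ.σ x)) - HoM_u T x := by ring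
      rwa [e] at h5
    have h5 := hS.small _ hq
    have h6 := hT.small _ hx
    rw [HoM_u_eq, add_sub_cancel_left] at h5 h6
    refine sub_eq_zero.1 (hinj _ h4 ?_)
    refine (norm_sub_le _ _).trans_lt ?_
    linarith
  · intro hP t ht
    have h1 : u (T.χ.σ x) - (b + Complex.exp t) ∈ Λ := by
      rw [ht, ← HoM_u_eq]
      exact hT.mon.lift _ hx
    rw [HoM_form E α S.χ T.χ hx hU hP h1]
    ring

/-- the index set -/
private abbrev HoM_ix {n : ℕ} (c : Fin n → HCh X) : Type := {a : Fin n × Bool // a.2 = true → 1 ≤ (c a.1).c}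

/-- the charts -/
private noncomputable def HoM_ch {n : ℕ} (c : Fin n → HCh X) (i : HoM_ix c) : HCh X := if i.1.2 = true then HoM_sw (c i.1.1) else c i.1.1

/-- the charts -/
private noncomputable def HoM_atl (α : TForm (X \ P) Λ u) (b : ℂ) {n : ℕ} (c : Fin n → HCh X) : Pool.Agent.EG.RL.Atl (HoM_ix c) (MN N) where
  s := fun i p => pr ((HoM_ch c i).χ.σ p)
  ex := fun i => HoM_ex (HoM_ch c i)
  a := fun i => (HoM_ch c i).a
  b := fun i => ((HoM_ch c i).c : ℤ)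
  k := fun i => ((HoM_ch c i).ρ : ℂ)
  g := fun i t p => HoM_L (HoM_ch c i) p * cf α (HoM_ch c i).χ.σ (b + Complex.exp t) p

private theorem HoM_min {α : Type} [Finite α] (f : α → ℝ) (hf : ∀ a, 0 < f a) : ∃ r : ℝ, 0 < r ∧ ∀ a, r ≤ f a := by
  have h : ∀ᶠ r : ℝ in 𝓝[>] 0, ∀ a, r ≤ f a := by
    rw [eventually_all]
    intro a
    exact (eventually_le_nhds (hf a)).filter_mono nhdsWithin_le_nhds
  obtain ⟨r, h1, h2⟩ := (h.and self_mem_nhdsWithin).exists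
  exact ⟨r, h2, h1⟩

private theorem HoM_rot (p : ℂ × ℂ) : rot 1 p = p := by
  unfold rot
  rw [inv_one, one_mul, one_mul]

/-- the exchanged charts -/
private theorem HoM_sws (E : LData X D P Λ Γ u B δ) (α : TForm (X \ P) Λ u) {b : ℂ} {η : ℝ} {n : ℕ} (c : Fin n → HCh X) {S : HCh X}
    (hS : HOk P Λ u b η S) (hc : 1 ≤ S.c) {i j : HoM_ix c} (hi : HoM_ch c i = S) (hj : HoM_ch c j = HoM_sw S) :
    (HoM_atl α b c).Sw i j ∧ (HoM_atl α b c).Sw j i := by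
  have hex1 : HoM_ex S = true := (HoM_ex_iff S).2 (Or.inr hc)
  have hex2 : HoM_ex (HoM_sw S) = true := (HoM_ex_iff _).2 (Or.inr hS.a_pos)
  have hT := HoM_ok hS hc
  have ha := hS.a_pos
  constructor
  · refine ⟨?_, ?_, ?_, ?_, ?_, ?_, fun p hp hL => ?_⟩
    · show HoM_ex (HoM_ch c i) = true
      rw [hi]; exact hex1
    · show HoM_ex (HoM_ch c j) = true
      rw [hj]; exact hex2
    · show (1 : ℤ) ≤ ((HoM_ch c i).c : ℤ)
      rw [hi]; exact_mod_cast hc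
    · show ((HoM_ch c j).a : ℤ) = ((HoM_ch c i).c : ℤ)
      rw [hi, hj]; rfl
    · show ((HoM_ch c j).c : ℤ) = ((HoM_ch c i).a : ℤ)
      rw [hi, hj]; rfl
    · show ((HoM_ch c j).ρ : ℂ) = ((HoM_ch c i).ρ : ℂ)
      rw [hi, hj]; rfl
    · have hL' : HoM_L (HoM_ch c j) p ≠ 0 := hL
      show pr ((HoM_ch c j).χ.σ p) = pr ((HoM_ch c i).χ.σ p.swap) ∧ ∀ t, Complex.exp t = HoM_u (HoM_ch c j) p →
        HoM_L (HoM_ch c j) p * cf α (HoM_ch c j).χ.σ (b + Complex.exp t) p =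
          -(HoM_L (HoM_ch c i) p.swap * cf α (HoM_ch c i).χ.σ (b + Complex.exp t) p.swap)
      rw [hj] at hL' ⊢
      rw [hi]
      refine ⟨rfl, fun t ht => ?_⟩
      have h1 := HoM_L_P hT hp hL'
      have h2 : u (S.χ.σ p.swap) - (b + Complex.exp t) ∈ Λ := by
        rw [ht, ← HoM_u_eq]
        exact hT.mon.lift p hp
      have h3 : cf α (HoM_sw S).χ.σ (b + Complex.exp t) p = -cf α S.χ.σ (b + Complex.exp t) p.swap := HoM_swf E α S.χ hp h1 h2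
      rw [h3]
      unfold HoM_L
      rw [if_pos hex1, if_pos hex2, Prod.fst_swap, Prod.snd_swap]
      ring
  · refine ⟨?_, ?_, ?_, ?_, ?_, ?_, fun p hp hL => ?_⟩
    · show HoM_ex (HoM_ch c j) = true
      rw [hj]; exact hex2
    · show HoM_ex (HoM_ch c i) = true
      rw [hi]; exact hex1
    · show (1 : ℤ) ≤ ((HoM_ch c j).c : ℤ)
      rw [hj]; exact_mod_cast ha
    · show ((HoM_ch c i).a : ℤ) = ((HoM_ch c j).c : ℤ)
      rw [hi, hj]; rfl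
    · show ((HoM_ch c i).c : ℤ) = ((HoM_ch c j).a : ℤ)
      rw [hi, hj]; rfl
    · show ((HoM_ch c i).ρ : ℂ) = ((HoM_ch c j).ρ : ℂ)
      rw [hi, hj]; rfl
    · have hL' : HoM_L (HoM_ch c i) p ≠ 0 := hL
      show pr ((HoM_ch c i).χ.σ p) = pr ((HoM_ch c j).χ.σ p.swap) ∧ ∀ t, Complex.exp t = HoM_u (HoM_ch c i) p →
        HoM_L (HoM_ch c i) p * cf α (HoM_ch c i).χ.σ (b + Complex.exp t) p =
          -(HoM_L (HoM_ch c j) p.swap * cf α (HoM_ch c j).χ.σ (b + Complex.exp t) p.swap)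
      rw [hi] at hL' ⊢
      rw [hj]
      refine ⟨rfl, fun t ht => ?_⟩
      have h1 := HoM_L_P hS hp hL'
      have h2 : u (S.χ.σ p) - (b + Complex.exp t) ∈ Λ := by
        rw [ht, ← HoM_u_eq]
        exact hS.mon.lift p hp
      have h3 : cf α (HoM_sw S).χ.σ (b + Complex.exp t) p.swap = -cf α S.χ.σ (b + Complex.exp t) p.swap.swap :=
        HoM_swf E α S.χ (HoM_swb hp) (by rw [Prod.swap_swap]; exact h1) (by rw [Prod.swap_swap]; exact h2)
      rw [h3, Prod.swap_swap]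
      unfold HoM_L
      rw [if_pos hex1, if_pos hex2, Prod.fst_swap, Prod.snd_swap]
      ring

private theorem HoM_cen {p : ℂ × ℂ} (hp : Cen p) : p ∈ ball (0 : ℂ × ℂ) 1 := by
  rw [mem_ball_zero_iff, Prod.norm_def]
  exact max_lt (by have := hp.1; linarith) hp.2

/-- the model -/
private theorem HoM_model (E : LData X D P Λ Γ u B δ) (α : TForm (X \ P) Λ u) {b : ℂ} {η : ℝ} {n : ℕ} {c : Fin n → HCh X} (hη : 0 < η)
    (hinj : ∀ l ∈ Λ, ‖l‖ < 2 * η → l = 0) (hok0 : ∀ k, HOk P Λ u b η (c k))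
    (hch0 : ∀ i : HoM_ix c, i.1.2 = false → HoM_ch c i = c i.1.1) (hch1 : ∀ i : HoM_ix c, i.1.2 = true → HoM_ch c i = HoM_sw (c i.1.1))
    (hok : ∀ i : HoM_ix c, HOk P Λ u b η (HoM_ch c i))
    (hsep : ∀ i j : HoM_ix c, i.1.1 ≠ j.1.1 → HoM_ex (HoM_ch c i) = true → ∀ p : ℂ × ℂ, ‖p.1‖ ≤ 1 / 2 → ‖p.2‖ ≤ 1 / 2 →
      (HoM_ch c i).χ.σ p ∉ (HoM_ch c j).χ.U) {s : ℝ} (hs : 0 < s) :
    ∃ M : Model (HoM_ix c) (MN N), M.toAtl = HoM_atl α b c ∧ M.ρ ≤ η ∧ M.ρ ≤ s := by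
  have hfin : Finite (HoM_ix c) := inferInstance
  choose f hf1 hf2 using fun a : HoM_ix c × HoM_ix c => HoM_unif E.cone (HoM_ch c a.1).χ (HoM_ch c a.2).χ
  obtain ⟨e₀, he₀, he₀'⟩ := HoM_min f hf1
  obtain ⟨e, he⟩ : ∃ e : ℝ, e = min e₀ (1 / 4) := ⟨_, rfl⟩
  have he1 : 0 < e := by
    rw [he]
    exact lt_min he₀ (by norm_num)
  have he2 : e ≤ 1 / 4 := by
    rw [he]
    exact min_le_right _ _
  have he3 : ∀ a, e ≤ f a := fun a => by
    rw [he]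
    exact (min_le_left _ _).trans (he₀' a)
  obtain ⟨ρ₀, hρ₀, hρ₀'⟩ := HoM_min (fun i : HoM_ix c => min (HoM_ch c i).ρ ((e / 4) ^ (HoM_ch c i).a * (HoM_ch c i).ρ * (1 / 2) ^ (HoM_ch c i).c))
    (fun i => lt_min (hok i).mon.pos (by have := (hok i).mon.pos; positivity))
  obtain ⟨ρ, hρ⟩ : ∃ ρ : ℝ, ρ = min ρ₀ (min η s) := ⟨_, rfl⟩
  have hρ1 : 0 < ρ := by
    rw [hρ]
    exact lt_min hρ₀ (lt_min hη hs)
  have hρη : ρ ≤ η := by
    rw [hρ]
    exact (min_le_right _ _).trans (min_le_left _ _)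
  have hρs : ρ ≤ s := by
    rw [hρ]
    exact (min_le_right _ _).trans (min_le_right _ _)
  have hρa : ∀ i, ρ ≤ (HoM_ch c i).ρ := fun i => by
    rw [hρ]
    exact (min_le_left _ _).trans ((hρ₀' i).trans (min_le_left _ _))
  have hρb : ∀ i, ρ ≤ (e / 4) ^ (HoM_ch c i).a * (HoM_ch c i).ρ * (1 / 2) ^ (HoM_ch c i).c := fun i => by
    rw [hρ]
    exact (min_le_left _ _).trans ((hρ₀' i).trans (min_le_right _ _))
  have hL0 : ∀ (i : HoM_ix c) (p : ℂ × ℂ), (HoM_atl α b c).L i p = HoM_L (HoM_ch c i) p := fun i p => rfl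
  have hu0 : ∀ (i : HoM_ix c) (p : ℂ × ℂ), (HoM_atl α b c).u i p = HoM_u (HoM_ch c i) p := fun i p => rfl
  have hnρ : ∀ i, ‖(HoM_atl α b c).k i‖ = (HoM_ch c i).ρ := fun i => by
    show ‖((HoM_ch c i).ρ : ℂ)‖ = _
    rw [Complex.norm_real, Real.norm_eq_abs, abs_of_pos (hok i).mon.pos]
  refine ⟨⟨HoM_atl α b c, ρ, e, fun _ => 1, hρ1, fun i => ?_, he1, he2, fun i => (hok i).a_pos, fun i h => ?_, fun _ => le_rfl, fun _ => Or.inl rfl,
    fun i p q hp hq _ _ h => ⟨1, one_pow _, ?_⟩, fun i ζ hζ p _ _ => ?_, fun i p hp hL t ht hte => HoM_an E α (hok i) hp hL ht hte,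
    fun i j p q hp hq h hLp hLq hu => ?_⟩, rfl, hρη, hρs⟩
  · rw [hnρ]
    exact hρa i
  · have h1 : HoM_ex (HoM_ch c i) = false := h
    have h2 : ¬ (HoM_ch c i).Sp := fun h3 => by
      rw [← HoM_ex_iff, h1] at h3
      exact Bool.false_ne_true h3
    have h4 : (HoM_ch c i).c = 0 := by
      by_contra h5
      exact h2 (Or.inr (by omega))
    show ((HoM_ch c i).c : ℤ) = 0
    rw [h4]
    rfl
  · rw [HoM_rot]
    have h' : pr ((HoM_ch c i).χ.σ p) = pr ((HoM_ch c i).χ.σ q) := h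
    obtain ⟨h1, h2, h3⟩ := (HoM_ch c i).χ.σ_mem p hp
    obtain ⟨h4, h5, h6⟩ := (HoM_ch c i).χ.σ_mem q hq
    obtain ⟨a, ha, h7⟩ := (Pool.Agent.H62.EF.pr_eq_iff (E.cone.ne_zero h1) (E.cone.ne_zero h4)).1 h'
    rw [← h3, ← h6, h7, (HoM_ch c i).χ.q_smul _ h5 a ha, h6]
  · rw [pow_one] at hζ
    rw [hζ, HoM_rot]
    exact ⟨rfl, fun _ _ => rfl⟩
  · by_cases hij : i.1.1 = j.1.1
    · cases hi : i.1.2 with
      | false =>
        cases hj : j.1.2 with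
        | false => exact Or.inl (Subtype.ext (Prod.ext hij (hi.trans hj.symm)))
        | true =>
          refine Or.inr (Or.inl (HoM_sws E α c (hok0 j.1.1) (j.2 hj) ?_ (hch1 j hj)).1)
          rw [hch0 i hi, hij]
      | true =>
        cases hj : j.1.2 with
        | false =>
          refine Or.inr (Or.inl (HoM_sws E α c (hok0 i.1.1) (i.2 hi) ?_ (hch1 i hi)).2)
          rw [hch0 j hj, hij]
        | true => exact Or.inl (Subtype.ext (Prod.ext hij (hi.trans hj.symm)))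
    · right
      right
      have h' : pr ((HoM_ch c i).χ.σ p) = pr ((HoM_ch c j).χ.σ q) := h
      have hp1 := HoM_cen hp
      have hq1 := HoM_cen hq
      have hp2 : p ∈ ball (0 : ℂ × ℂ) 2 := ball_subset_ball (by norm_num) hp1
      have hq2 : q ∈ ball (0 : ℂ × ℂ) 2 := ball_subset_ball (by norm_num) hq1
      obtain ⟨p3, p4, p5⟩ := (HoM_ch c i).χ.σ_mem p hp2
      obtain ⟨q3, q4, q5⟩ := (HoM_ch c j).χ.σ_mem q hq2
      obtain ⟨a, ha, h7⟩ := (Pool.Agent.H62.EF.pr_eq_iff (E.cone.ne_zero p3) (E.cone.ne_zero q3)).1 h'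
      have h8 : (HoM_ch c j).χ.σ q = a⁻¹ • (HoM_ch c i).χ.σ p := by
        rw [h7, smul_smul, inv_mul_cancel₀ ha, one_smul]
      have hUi : (HoM_ch c i).χ.σ p ∈ (HoM_ch c j).χ.U := by
        rw [h7]
        exact (HoM_ch c j).χ.smul_U _ q4 a ha
      have hUj : (HoM_ch c j).χ.σ q ∈ (HoM_ch c i).χ.U := by
        rw [h8]
        exact (HoM_ch c i).χ.smul_U _ p4 _ (inv_ne_zero ha)
      have hqp : (HoM_ch c i).χ.q ((HoM_ch c j).χ.σ q) = p := by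
        rw [h8, (HoM_ch c i).χ.q_smul _ p4 _ (inv_ne_zero ha), p5]
      have hun := hf2 (i, j) q (ball_subset_closedBall hq1) hUj (by rw [hqp]; exact ball_subset_closedBall hp1)
      have hpe : HoM_ex (HoM_ch c i) = true → 1 / 2 ≤ ‖p.2‖ := by
        intro hex
        by_contra hcon
        push Not at hcon
        exact hsep i j hij hex p hp.1.le hcon.le hUi
      have hqe : HoM_ex (HoM_ch c j) = true → 1 / 2 ≤ ‖q.2‖ := by
        intro hex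
        by_contra hcon
        push Not at hcon
        exact hsep j i (fun h => hij h.symm) hex q hq.1.le hcon.le hUj
      refine ⟨fun y => (HoM_ch c i).χ.q ((HoM_ch c j).χ.σ y), hqp, fun y hy => ?_, hpe, hqe, ?_⟩
      · obtain ⟨y1, y2, y3⟩ := hun y (ball_subset_ball (he3 (i, j)) hy)
        obtain ⟨r1, r2, r3, r4⟩ := HoM_rg E α (hok i) (hok j) hinj y1 y2
        refine ⟨r1, ?_, fun hy1 => ⟨r2, r3, fun t ht => r4 ?_ t ht⟩⟩
        · rw [mem_ball_iff_norm]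
          rw [hqp] at y3
          exact y3
        · intro hP
          obtain ⟨t1, t2⟩ := ((hok j).P_iff y y1).1 hP
          have h9 := hqe ((HoM_ex_iff _).2 (Or.inl t1))
          have h10 : ‖q.2 - y.2‖ ≤ ‖q - y‖ := by
            rw [Prod.norm_def]
            exact le_max_right _ _
          rw [mem_ball_iff_norm, norm_sub_rev] at hy
          rw [t2, sub_zero] at h10
          linarith
      · have h9 : HoM_u (HoM_ch c i) p = HoM_u (HoM_ch c j) q := by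
          obtain ⟨-, -, r3, -⟩ := HoM_rg E α (hok i) (hok j) hinj hq2 hUj
          rw [hqp] at r3
          exact r3
        have h10 : ‖HoM_u (HoM_ch c j) q‖ < ρ := by
          rw [← h9]
          exact hu
        have h11 : ‖HoM_u (HoM_ch c j) q‖ = (HoM_ch c j).ρ * ‖q.1‖ ^ (HoM_ch c j).a * ‖q.2‖ ^ (HoM_ch c j).c := by
          unfold HoM_u
          rw [zpow_natCast, norm_mul, norm_mul, norm_pow, norm_pow, Complex.norm_real, Real.norm_eq_abs, abs_of_pos (hok j).mon.pos]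
        have h12 : (1 / 2 : ℝ) ^ (HoM_ch c j).c ≤ ‖q.2‖ ^ (HoM_ch c j).c := by
          rcases Nat.eq_zero_or_pos (HoM_ch c j).c with hc | hc
          · rw [hc, pow_zero, pow_zero]
          · exact pow_le_pow_left₀ (by norm_num) (hqe ((HoM_ex_iff _).2 (Or.inr hc))) _
        have hk := (hok j).mon.pos
        have h13 : (HoM_ch c j).ρ * ‖q.1‖ ^ (HoM_ch c j).a * (1 / 2) ^ (HoM_ch c j).c <
            (e / 4) ^ (HoM_ch c j).a * (HoM_ch c j).ρ * (1 / 2) ^ (HoM_ch c j).c := by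
          refine lt_of_le_of_lt ?_ (h10.trans_le (hρb j))
          rw [h11]
          exact mul_le_mul_of_nonneg_left h12 (by positivity)
        have h14 := lt_of_mul_lt_mul_right h13 (by positivity)
        have h15 : ‖q.1‖ ^ (HoM_ch c j).a < (e / 4) ^ (HoM_ch c j).a := by
          rw [mul_comm] at h14
          exact lt_of_mul_lt_mul_right h14 hk.le
        exact (lt_of_pow_lt_pow_left₀ _ (by positivity) h15).le

theorem exists_hole_of (E : LData X D P Λ Γ u B δ) {α : TForm (X \ P) Λ u} {b : ℂ} {η : ℝ} {n : ℕ} {c : Fin n → HCh X} (hη : 0 < η)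
    (hF : HFam P Λ u b η (Fin n) c) (hbd : ∀ k, HBd α b (c k)) : Nonempty (Hole X P Λ u b α) := by
  have hfin : Finite (HoM_ix c) := inferInstance
  have hch0 : ∀ i : HoM_ix c, i.1.2 = false → HoM_ch c i = c i.1.1 := fun i hi => by
    unfold HoM_ch
    rw [if_neg (by rw [hi]; exact Bool.false_ne_true)]
  have hch1 : ∀ i : HoM_ix c, i.1.2 = true → HoM_ch c i = HoM_sw (c i.1.1) := fun i hi => by
    unfold HoM_ch
    rw [if_pos hi]
  have hok : ∀ i : HoM_ix c, HOk P Λ u b η (HoM_ch c i) := fun i => by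
    cases hi : i.1.2 with
    | false => rw [hch0 i hi]; exact hF.ok _
    | true => rw [hch1 i hi]; exact HoM_ok (hF.ok _) (i.2 hi)
  have hbd' : ∀ i : HoM_ix c, HBd α b (HoM_ch c i) := fun i => by
    cases hi : i.1.2 with
    | false => rw [hch0 i hi]; exact hbd _
    | true => rw [hch1 i hi]; exact HoM_bd E (hF.ok _) (i.2 hi) (hbd _)
  have hU : ∀ i : HoM_ix c, (HoM_ch c i).χ.U = (c i.1.1).χ.U := fun i => by
    cases hi : i.1.2 with
    | false => rw [hch0 i hi]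
    | true => rw [hch1 i hi]; rfl
  have hsep : ∀ i j : HoM_ix c, i.1.1 ≠ j.1.1 → HoM_ex (HoM_ch c i) = true → ∀ p : ℂ × ℂ, ‖p.1‖ ≤ 1 / 2 → ‖p.2‖ ≤ 1 / 2 →
      (HoM_ch c i).χ.σ p ∉ (HoM_ch c j).χ.U := by
    intro i j hij hex p h1 h2
    rw [hU j]
    rw [HoM_ex_iff] at hex
    cases hi : i.1.2 with
    | false =>
      rw [hch0 i hi] at hex ⊢
      exact hF.sep _ _ hij hex p h1 h2
    | true =>
      rw [hch1 i hi]
      exact hF.sep _ _ hij (Or.inr (i.2 hi)) p.swap h2 h1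
  obtain ⟨s, hs, hcov⟩ := hF.cov
  obtain ⟨M, hM, hMη, hMs⟩ := HoM_model E α hη hF.inj hF.ok hch0 hch1 hok hsep hs
  have hMex : ∀ i, M.ex i = HoM_ex (HoM_ch c i) := fun i => by
    rw [hM]; rfl
  have hMb : ∀ i, M.b i = ((HoM_ch c i).c : ℤ) := fun i => by
    rw [hM]; rfl
  have hMs : ∀ i p, M.s i p = pr ((HoM_ch c i).χ.σ p) := fun i p => by
    rw [hM]; rfl
  have hMu : ∀ i p, M.u i p = HoM_u (HoM_ch c i) p := fun i p => by
    rw [hM]; rfl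
  have hML : ∀ i p, M.L i p = HoM_L (HoM_ch c i) p := fun i p => by
    rw [hM]; rfl
  have hMg : ∀ i t p, M.g i t p = HoM_L (HoM_ch c i) p * cf α (HoM_ch c i).χ.σ (b + Complex.exp t) p := fun i t p => by
    rw [hM]; rfl
  obtain ⟨C₀, κ, hC₀, hκ, hB⟩ := Pool.Agent.EG.RL.bphi_hole M (fun i => by rw [hMb]; positivity) (by
    intro i
    obtain ⟨C, hC⟩ := hbd' i
    refine ⟨C, fun p hp hL t ht => ?_⟩
    rw [hML] at hL
    rw [hMu] at ht
    rw [hMg, hMb]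
    have h1 := hC p hp (HoM_L_P (hok i) hp hL)
    rw [HoM_u_eq, ← ht] at h1
    have h1' : ‖(if (HoM_ch c i).hor = true then p.2 else 1) * cf α (HoM_ch c i).χ.σ (b + Complex.exp t) p‖ ≤ C := h1
    unfold HoM_L
    by_cases hc : 1 ≤ (HoM_ch c i).c
    · have hh : (HoM_ch c i).hor ≠ true := fun h' => absurd ((hok i).hor_c h') (by omega)
      rw [if_neg hh, one_mul] at h1'
      rw [if_pos ((HoM_ex_iff _).2 (Or.inr hc)), if_neg (by omega), norm_mul, norm_mul, mul_comm]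
      exact mul_le_mul_of_nonneg_right h1' (by positivity)
    · have hc0 : (HoM_ch c i).c = 0 := by omega
      have hz : ((HoM_ch c i).c : ℤ) = 0 := by rw [hc0]; rfl
      rw [if_pos hz, mul_one]
      by_cases hh : (HoM_ch c i).hor = true
      · rw [if_pos hh] at h1'
        rw [if_pos ((HoM_ex_iff _).2 (Or.inl hh)), mul_assoc, norm_mul, mul_comm]
        exact mul_le_mul_of_nonneg_right h1' (norm_nonneg _)
      · rw [if_neg hh, one_mul] at h1'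
        have hne : HoM_ex (HoM_ch c i) ≠ true := fun h' => by
          rcases (HoM_ex_iff _).1 h' with h2 | h2
          · exact hh h2
          · exact hc h2
        rw [if_neg hne, mul_one, norm_mul, mul_comm]
        exact mul_le_mul_of_nonneg_right h1' (norm_nonneg _))
  refine ⟨⟨HoM_ix c, hfin, M, fun i => (HoM_ch c i).χ, C₀, κ, η, hC₀, hκ, hMs, fun i => by rw [hMb]; positivity, fun i p hp => ?_, hF.inj,
    fun i p hp => ?_, hMη, fun i p hp => ?_, fun i t p hp hL ht => ?_, fun z hz x hx hxz => ?_, hB⟩⟩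
  · rw [hMu, ← HoM_u_eq]
    exact (hok i).mon.lift p hp
  · have h1 := (hok i).small p hp
    rw [HoM_u_eq, add_sub_cancel_left] at h1
    rw [hMu]
    exact h1
  · rw [hMex, hMb, (hok i).P_iff p hp, HoM_ex_iff]
    constructor
    · rintro ⟨h1, h2⟩
      exact ⟨Or.inl h1, by rw [(hok i).hor_c h1]; rfl, h2⟩
    · rintro ⟨h1 | h1, h2, h3⟩
      · exact ⟨h1, h3⟩
      · omega
  · rw [hMg, hML]
    rfl
  · obtain ⟨k, h1, h2⟩ := hcov z (ball_subset_ball (by assumption) hz) x hx hxz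
    rcases h2 with h2 | ⟨h2, h3⟩
    · refine ⟨⟨(k, false), fun h => absurd h Bool.false_ne_true⟩, ?_⟩
      rw [hch0 _ rfl]
      exact ⟨h1, h2⟩
    · refine ⟨⟨(k, true), fun _ => h2⟩, ?_⟩
      rw [hch1 _ rfl]
      exact ⟨h1, h3⟩

end Pool.Agent.H18.LU

end

section

/-!
# LU HoT: the centres of special charts are isolated

`hsp_iso`: let `S` be a chart, `x' ∈ S.χ.U` over `b`, `p' = S.χ.q x' ≠ 0`, or `S` not special; then `x'` is not the centre of a special chart `S'` (`S'.χ.q x' = 0`, `x' ∈ S'.χ.U`).  Proof: `κ = S.χ.q ∘ S'.χ.σ` is analytic near `0`,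
`κ 0 = p'` (`x'` is a multiple of `S'.χ.σ 0`: `surj`, `q_smul`), with inverse `S'.χ.q ∘ S.χ.σ` near `p'` (composition is the identity near the points: `surj`, `q_smul`, `σ_mem`; `U` is open), so `fderiv κ 0` is bijective
(chain rule).  For `p` near `0`: `S.χ.σ (κ p)` is a multiple of `S'.χ.σ p`, so `mo b S.ρ S.a S.c (κ p) - mo b S'.ρ S'.a S'.c p ∈ Λ` (`Mon.lift`, `TorusMap.smul`), both are within `η` resp. `η'` of `b` and
`‖l‖ < η + η' → l = 0`: equal.  As `x'` is over `b`: `p'.1 ^ a * p'.2 ^ c = 0` (`mo b .. p' - b ∈ Λ`, small).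
(i) `S'.hor = true`: then `x' ∈ P` (`P_iff` for `S'` at `0`, `P_smul`), so `P_iff` for `S`: `S.hor = true`, `p'.2 = 0`, `S.c = 0`, so `p'.1 ^ S.a = 0`, `p'.1 = 0`: `p' = 0` and `S` is special: contradiction.
(ii) `S'.hor = false`, `1 ≤ S'.c`: `x' ∉ P`; `κ` maps `{p.1 = 0}` and `{p.2 = 0}` (near `0`) into `{p.1 ^ a * p.2 ^ c = 0}`.  If `S.c = 0`: `(κ p).1 = 0` on both axes, so both partial derivatives of `(κ p).1` at `0` are `0`: `fderiv κ 0` is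
not surjective.  If `1 ≤ S.c` then `S` is special, so `p' ≠ 0`: exactly one coordinate of `p'` is `0`, say `p'.1 = 0 ≠ p'.2` (resp. `p'.2 = 0 ≠ p'.1`); near `p'` the other one is `≠ 0`, so `(κ p).1 = 0` (resp. `(κ p).2 = 0`) on both
axes: the same contradiction.
-/

set_option autoImplicit false

open Topology Filter Metric

namespace Pool.Agent.H18.LU

attribute [-instance] ProperSMul.toContinuousSMul

open Pool.Agent.H36.BP (EN fs wd IsGermChart)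
open Pool.Agent.H14.PP (IsCone Chart Tan CurveAt)
open Pool.Agent.H62.EF (Lat MN pr TorusMap Sec Charts DU)
open Pool.Agent.H62.EL (Gd Ag BadSet IsNC TForm Mon mo tc)

variable {N : ℕ} {X D P : Set (EN N)} {Λ Γ : AddSubgroup ℂ} {u : EN N → ℂ} {B : Set ℂ} {δ : ℝ}

private theorem HoT_axes {f : ℂ × ℂ → ℂ × ℂ} {L : ℂ × ℂ →L[ℂ] ℂ × ℂ} (hf : HasFDerivAt f L 0)
    (hL : Function.Surjective L) (ℓ : ℂ × ℂ →L[ℂ] ℂ) {v₀ : ℂ × ℂ} (hℓ : ℓ v₀ ≠ 0)
    (h1 : ∀ᶠ z in 𝓝 (0 : ℂ), ℓ (f (z, 0)) = 0) (h2 : ∀ᶠ z in 𝓝 (0 : ℂ), ℓ (f (0, z)) = 0) : False := by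
  have a1 : HasDerivAt (fun z : ℂ => ((z, 0) : ℂ × ℂ)) (1, 0) 0 := (hasDerivAt_id 0).prodMk (hasDerivAt_const 0 0)
  have a2 : HasDerivAt (fun z : ℂ => ((0, z) : ℂ × ℂ)) (0, 1) 0 := (hasDerivAt_const 0 0).prodMk (hasDerivAt_id 0)
  have b1 : HasDerivAt (fun z : ℂ => ℓ (f (z, 0))) (ℓ (L (1, 0))) 0 :=
    ℓ.hasFDerivAt.comp_hasDerivAt 0 (HasFDerivAt.comp_hasDerivAt (l := f) (f := fun z : ℂ => ((z, 0) : ℂ × ℂ)) 0 hf a1)
  have b2 : HasDerivAt (fun z : ℂ => ℓ (f (0, z))) (ℓ (L (0, 1))) 0 :=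
    ℓ.hasFDerivAt.comp_hasDerivAt 0 (HasFDerivAt.comp_hasDerivAt (l := f) (f := fun z : ℂ => ((0, z) : ℂ × ℂ)) 0 hf a2)
  have c1 : ℓ (L (1, 0)) = 0 := b1.unique ((hasDerivAt_const (0 : ℂ) (0 : ℂ)).congr_of_eventuallyEq h1)
  have c2 : ℓ (L (0, 1)) = 0 := b2.unique ((hasDerivAt_const (0 : ℂ) (0 : ℂ)).congr_of_eventuallyEq h2)
  obtain ⟨w, hw⟩ := hL v₀
  apply hℓ
  have hw' : w = w.1 • ((1, 0) : ℂ × ℂ) + w.2 • ((0, 1) : ℂ × ℂ) := by ext <;> simp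
  rw [← hw, hw', map_add, map_smul, map_smul, map_add, map_smul, map_smul, c1, c2, smul_zero, smul_zero, add_zero]

theorem hsp_iso (E : LData X D P Λ Γ u B δ) {b : ℂ} {η η' : ℝ} (hinj : ∀ l ∈ Λ, ‖l‖ < η + η' → l = 0) {S S' : HCh X} (hS : HOk P Λ u b η S)
    (hS' : HOk P Λ u b η' S') (hsp : S'.Sp) {x : EN N} (hx : x ∈ X) (hxb : u x - b ∈ Λ) (hU : x ∈ S.χ.U) (hU' : x ∈ S'.χ.U)
    (hq' : S'.χ.q x = 0) : S.Sp ∧ S.χ.q x = 0 := by
  classical
  obtain ⟨hp'b, c₁, hc₁, hx₁⟩ := S.χ.surj x hx hU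
  obtain ⟨-, c₂, hc₂, hx₂⟩ := S'.χ.surj x hx hU'
  rw [hq'] at hx₂
  set p' : ℂ × ℂ := S.χ.q x with hp'
  have h0b : (0 : ℂ × ℂ) ∈ ball (0 : ℂ × ℂ) 2 := mem_ball_self two_pos
  -- the two parametrizations at the point
  have hy : S'.χ.σ 0 = c₂⁻¹ • x := by
    have h := congrArg (fun z => c₂⁻¹ • z) hx₂
    simp only [smul_smul, inv_mul_cancel₀ hc₂, one_smul] at h
    exact h.symm
  have hz : S.χ.σ p' = c₁⁻¹ • x := by
    have h := congrArg (fun z => c₁⁻¹ • z) hx₁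
    simp only [smul_smul, inv_mul_cancel₀ hc₁, one_smul] at h
    exact h.symm
  have hyU : S'.χ.σ 0 ∈ S.χ.U := by rw [hy]; exact S.χ.smul_U x hU _ (inv_ne_zero hc₂)
  have hyq : S.χ.q (S'.χ.σ 0) = p' := by rw [hy, S.χ.q_smul x hU _ (inv_ne_zero hc₂)]
  have hzU : S.χ.σ p' ∈ S'.χ.U := by rw [hz]; exact S'.χ.smul_U x hU' _ (inv_ne_zero hc₁)
  have hzq : S'.χ.q (S.χ.σ p') = 0 := by rw [hz, S'.χ.q_smul x hU' _ (inv_ne_zero hc₁), hq']
  -- the transition maps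
  set κ : ℂ × ℂ → ℂ × ℂ := fun p => S.χ.q (S'.χ.σ p) with hκ
  set κ' : ℂ × ℂ → ℂ × ℂ := fun p => S'.χ.q (S.χ.σ p) with hκ'
  have hκ0 : κ 0 = p' := hyq
  have hκan : AnalyticAt ℂ κ 0 :=
    AnalyticAt.comp (g := S.χ.q) (f := S'.χ.σ) (S.χ.q_an _ hyU) (S'.χ.σ_an 0 h0b)
  have hκan' : AnalyticAt ℂ κ' p' :=
    AnalyticAt.comp (g := S'.χ.q) (f := S.χ.σ) (S'.χ.q_an _ hzU) (S.χ.σ_an p' hp'b)
  have hevU : ∀ᶠ p in 𝓝 (0 : ℂ × ℂ), S'.χ.σ p ∈ S.χ.U :=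
    (S'.χ.σ_an 0 h0b).continuousAt.eventually_mem (S.χ.isOpen_U.mem_nhds hyU)
  have hevb : ∀ᶠ p in 𝓝 (0 : ℂ × ℂ), p ∈ ball (0 : ℂ × ℂ) 2 := isOpen_ball.mem_nhds h0b
  have hη' : 0 < η' := (norm_nonneg _).trans_lt (hS'.small 0 h0b)
  have hη : 0 < η := (norm_nonneg _).trans_lt (hS.small 0 h0b)
  -- local description
  have hev : ∀ᶠ p in 𝓝 (0 : ℂ × ℂ), κ' (κ p) = p ∧
      mo b S.ρ S.a S.c (κ p) = mo b S'.ρ S'.a S'.c p := by
    filter_upwards [hevU, hevb] with p h1 h2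
    obtain ⟨h3, h4, h5⟩ := S'.χ.σ_mem p h2
    obtain ⟨h6, c, hc, h7⟩ := S.χ.surj _ h3 h1
    have h7' : S.χ.σ (κ p) = c⁻¹ • S'.χ.σ p := by
      have h := congrArg (fun z => c⁻¹ • z) h7
      simp only [smul_smul, inv_mul_cancel₀ hc, one_smul] at h
      exact h.symm
    constructor
    · change S'.χ.q (S.χ.σ (κ p)) = p
      rw [h7', S'.χ.q_smul _ h4 _ (inv_ne_zero hc), h5]
    · have e1 := hS.mon.lift (κ p) h6
      have e2 := hS'.mon.lift p h2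
      have e3 : u (c⁻¹ • S'.χ.σ p) - u (S'.χ.σ p) ∈ Λ := E.tor.smul _ h3 _ (inv_ne_zero hc)
      rw [← h7'] at e3
      have e4 : mo b S.ρ S.a S.c (κ p) - mo b S'.ρ S'.a S'.c p ∈ Λ := by
        have : mo b S.ρ S.a S.c (κ p) - mo b S'.ρ S'.a S'.c p =
            (u (S'.χ.σ p) - mo b S'.ρ S'.a S'.c p) - (u (S.χ.σ (κ p)) - mo b S.ρ S.a S.c (κ p)) +
              (u (S.χ.σ (κ p)) - u (S'.χ.σ p)) := by ring
        rw [this]
        exact Λ.add_mem (Λ.sub_mem e2 e1) e3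
      have e5 : ‖mo b S.ρ S.a S.c (κ p) - mo b S'.ρ S'.a S'.c p‖ < η + η' := by
        have : mo b S.ρ S.a S.c (κ p) - mo b S'.ρ S'.a S'.c p =
            (mo b S.ρ S.a S.c (κ p) - b) - (mo b S'.ρ S'.a S'.c p - b) := by ring
        rw [this]
        exact (norm_sub_le _ _).trans_lt (add_lt_add (hS.small _ h6) (hS'.small _ h2))
      exact sub_eq_zero.1 (hinj _ e4 e5)
  have hmo : ∀ᶠ p in 𝓝 (0 : ℂ × ℂ), (S.ρ : ℂ) * ((κ p).1 ^ S.a * (κ p).2 ^ S.c) =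
      S'.ρ * (p.1 ^ S'.a * p.2 ^ S'.c) := by
    filter_upwards [hev] with p hp
    exact add_left_cancel hp.2
  have hρ : (S.ρ : ℂ) ≠ 0 := Complex.ofReal_ne_zero.2 hS.mon.pos.ne'
  -- the value at the point
  have hval : p'.1 ^ S.a * p'.2 ^ S.c = 0 := by
    have e1 := hS.mon.lift p' hp'b
    have e3 : u (c₁⁻¹ • x) - u x ∈ Λ := E.tor.smul _ hx _ (inv_ne_zero hc₁)
    rw [← hz] at e3
    have e4 : mo b S.ρ S.a S.c p' - b ∈ Λ := by
      have : mo b S.ρ S.a S.c p' - b = (u x - b) - (u (S.χ.σ p') - mo b S.ρ S.a S.c p') +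
          (u (S.χ.σ p') - u x) := by ring
      rw [this]
      exact Λ.add_mem (Λ.sub_mem hxb e1) e3
    have e5 : ‖mo b S.ρ S.a S.c p' - b‖ < η + η' := (hS.small _ hp'b).trans (by linarith)
    have e6 := hinj _ e4 e5
    have e7 : (S.ρ : ℂ) * (p'.1 ^ S.a * p'.2 ^ S.c) = 0 := by
      rw [← e6]; simp [mo]
    exact (mul_eq_zero.1 e7).resolve_left hρ
  have ha : S.a ≠ 0 := by have := hS.a_pos; omega
  have ha' : S'.a ≠ 0 := by have := hS'.a_pos; omega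
  by_cases hh : S'.hor = true
  · -- the point is in `P`
    have h1 : S'.χ.σ 0 ∈ P := (hS'.P_iff 0 h0b).2 ⟨hh, rfl⟩
    have h2 : x ∈ P := by rw [hx₂]; exact E.P_smul _ h1 _ hc₂
    have h3 : S.χ.σ p' ∈ P := by rw [hz]; exact E.P_smul _ h2 _ (inv_ne_zero hc₁)
    obtain ⟨h4, h5⟩ := (hS.P_iff p' hp'b).1 h3
    have h6 := hS.hor_c h4
    rw [h6, pow_zero, mul_one] at hval
    exact ⟨Or.inl h4, Prod.ext (pow_eq_zero_iff ha |>.1 hval) h5⟩
  · -- the transition map has an invertible derivative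
    have hc' : 1 ≤ S'.c := hsp.resolve_left hh
    have hc'0 : S'.c ≠ 0 := by omega
    have hsurj : Function.Surjective (fderiv ℂ κ 0) := by
      have d1 : HasFDerivAt κ (fderiv ℂ κ 0) 0 := hκan.differentiableAt.hasFDerivAt
      have d2 : HasFDerivAt κ' (fderiv ℂ κ' p') (κ 0) := by
        rw [hκ0]; exact hκan'.differentiableAt.hasFDerivAt
      have d3 := d2.comp 0 d1
      have d4 : HasFDerivAt (κ' ∘ κ) (ContinuousLinearMap.id ℂ (ℂ × ℂ)) 0 :=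
        (hasFDerivAt_id 0).congr_of_eventuallyEq (hev.mono fun p hp => hp.1)
      have d5 := d3.unique d4
      have hinjL : Function.Injective (fderiv ℂ κ 0).toLinearMap := by
        intro v w hvw
        have e1 : (fderiv ℂ κ' p') ((fderiv ℂ κ 0) v) = v := by
          have := congrArg (fun L : ℂ × ℂ →L[ℂ] ℂ × ℂ => L v) d5
          simpa using this
        have e2 : (fderiv ℂ κ' p') ((fderiv ℂ κ 0) w) = w := by
          have := congrArg (fun L : ℂ × ℂ →L[ℂ] ℂ × ℂ => L w) d5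
          simpa using this
        have e3 : (fderiv ℂ κ 0) v = (fderiv ℂ κ 0) w := hvw
        rw [← e1, ← e2, e3]
      exact LinearMap.injective_iff_surjective.1 hinjL
    have hd : HasFDerivAt κ (fderiv ℂ κ 0) 0 := hκan.differentiableAt.hasFDerivAt
    -- the axes
    have t1 : Tendsto (fun z : ℂ => ((z, 0) : ℂ × ℂ)) (𝓝 0) (𝓝 0) :=
      Continuous.tendsto' (by fun_prop) _ _ rfl
    have t2 : Tendsto (fun z : ℂ => ((0, z) : ℂ × ℂ)) (𝓝 0) (𝓝 0) :=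
      Continuous.tendsto' (by fun_prop) _ _ rfl
    have ax1 : ∀ᶠ z in 𝓝 (0 : ℂ), (κ (z, 0)).1 ^ S.a * (κ (z, 0)).2 ^ S.c = 0 := by
      filter_upwards [t1.eventually hmo] with z hz
      simp only [zero_pow hc'0, mul_zero] at hz
      exact (mul_eq_zero.1 hz).resolve_left hρ
    have ax2 : ∀ᶠ z in 𝓝 (0 : ℂ), (κ (0, z)).1 ^ S.a * (κ (0, z)).2 ^ S.c = 0 := by
      filter_upwards [t2.eventually hmo] with z hz
      simp only [zero_pow ha', zero_mul, mul_zero] at hz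
      exact (mul_eq_zero.1 hz).resolve_left hρ
    by_cases hc : S.c = 0
    · exfalso
      refine HoT_axes hd hsurj (ContinuousLinearMap.fst ℂ ℂ ℂ) (v₀ := (1, 0)) (by simp) ?_ ?_
      · filter_upwards [ax1] with z hz
        rw [hc, pow_zero, mul_one] at hz
        exact pow_eq_zero_iff ha |>.1 hz
      · filter_upwards [ax2] with z hz
        rw [hc, pow_zero, mul_one] at hz
        exact pow_eq_zero_iff ha |>.1 hz
    · refine ⟨Or.inr (Nat.one_le_iff_ne_zero.2 hc), ?_⟩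
      by_contra hne
      have hcont : ContinuousAt κ 0 := hκan.continuousAt
      rcases mul_eq_zero.1 hval with h | h
      · have h1 : p'.1 = 0 := pow_eq_zero_iff ha |>.1 h
        have h2 : (κ 0).2 ≠ 0 := by
          rw [hκ0]
          intro h2
          exact hne (Prod.ext h1 h2)
        have h3 : ∀ᶠ p in 𝓝 (0 : ℂ × ℂ), (κ p).2 ≠ 0 := (continuous_snd.continuousAt.comp hcont).eventually_ne h2
        refine HoT_axes hd hsurj (ContinuousLinearMap.fst ℂ ℂ ℂ) (v₀ := (1, 0)) (by simp) ?_ ?_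
        · filter_upwards [ax1, t1.eventually h3] with z hz hz'
          exact pow_eq_zero_iff ha |>.1 ((mul_eq_zero.1 hz).resolve_right (pow_ne_zero _ hz'))
        · filter_upwards [ax2, t2.eventually h3] with z hz hz'
          exact pow_eq_zero_iff ha |>.1 ((mul_eq_zero.1 hz).resolve_right (pow_ne_zero _ hz'))
      · have h1 : p'.2 = 0 := pow_eq_zero_iff hc |>.1 h
        have h2 : (κ 0).1 ≠ 0 := by
          rw [hκ0]
          intro h2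
          exact hne (Prod.ext h2 h1)
        have h3 : ∀ᶠ p in 𝓝 (0 : ℂ × ℂ), (κ p).1 ≠ 0 := (continuous_fst.continuousAt.comp hcont).eventually_ne h2
        refine HoT_axes hd hsurj (ContinuousLinearMap.snd ℂ ℂ ℂ) (v₀ := (0, 1)) (by simp) ?_ ?_
        · filter_upwards [ax1, t1.eventually h3] with z hz hz'
          exact pow_eq_zero_iff hc |>.1 ((mul_eq_zero.1 hz).resolve_left (pow_ne_zero _ hz'))
        · filter_upwards [ax2, t2.eventually h3] with z hz hz'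
          exact pow_eq_zero_iff hc |>.1 ((mul_eq_zero.1 hz).resolve_left (pow_ne_zero _ hz'))

end Pool.Agent.H18.LU

end

section

/-!
# LU HoA: charts at the points of a bad fibre

`hch_nc`: `E.nc`, `exists_small_chartO` for the germ chart `σ`, `τ` of `IsNC` (as in the proof of `exists_nc_chartO`; the chart is `χ.σ p = a • σ (r p)`, `ρ = r ^ (i+j)`); by `P_closed` all points of a small chart are outside
`P`.  If `i = 0` use the germ chart with the coordinates exchanged (`swp χ`), so `1 ≤ a`.  Boundedness (`HBd` with `hor = false`): the function `p ↦ α.toFun (b + p.1 ^ i * p.2 ^ j) (σ p) (∂₁ σ p) (∂₂ σ p)` is analytic at `0`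
(`TForm.analytic`), so bounded near `0`; the coefficient in the chart `χ` is `r²` times its value at `r p` (`χ.σ p = a p • σ (r p)`, `a` differentiable: `fderiv χ.σ p v = a • fderiv σ (r p) (r v) + (..) • χ.σ p`, use
`add_smul`, `scale`, `det` of `TForm`; `a p` is analytic near every point of the bidisc; see the proof of `tc_transO`; `mo b ρ i j p = b + (r p.1) ^ i (r p.2) ^ j`).
It is perhaps simpler to take any chart `χ₀` as in `exists_nc_chartO` and to restrict it: the chart with `σ p = χ₀.σ (p / 2)`, `U = {x ∈ χ₀.U | 2 • q x ∈ ball 0 2}` (open cone; for `x ∈ χ₀.U \ X` nothing is required of `q`), `q x = 2 • χ₀.q x`,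
`ρ' = ρ / 2 ^ (i+j)`: the coefficient is `1/4` of the one of `χ₀` at `p / 2`, and `closedBall 0 1` is compact (`tc_an`).
`hch_hor`: the same with `HorAt` from `horP`: `u = b + s ^ i`, `P = {t = 0}`, `hor = true`, `a = i`, `c = 0`; boundedness of `p.2 *` coefficient: `LogP` for the germ chart `σ` with `υ p = b + p.1 ^ i` (and the scaling), in
the first way.
`exists_hch`: `x ∉ P`: `hch_nc`, otherwise `hch_hor`.
-/

set_option autoImplicit false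

open Topology Filter Metric

namespace Pool.Agent.H18.LU

attribute [-instance] ProperSMul.toContinuousSMul

open Pool.Agent.H36.BP (EN fs wd IsGermChart)
open Pool.Agent.H14.PP (IsCone Chart Tan CurveAt)
open Pool.Agent.H62.EF (Lat MN pr TorusMap Sec Charts DU)
open Pool.Agent.H62.EL (Gd Ag BadSet IsNC TForm Mon mo tc)

variable {N : ℕ} {X D P : Set (EN N)} {Λ Γ : AddSubgroup ℂ} {u : EN N → ℂ} {B : Set ℂ} {δ : ℝ}

/-- the chart restricted to the bidisc of radius `1` and rescaled -/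
private noncomputable def HoA_half (χ : Chart X) : Chart X where
  σ := fun p => χ.σ ((1 / 2 : ℂ) • p)
  U := {x | x ∈ χ.U ∧ ‖χ.q x‖ < 1}
  q := fun x => (2 : ℂ) • χ.q x
  isOpen_U := by
    rw [isOpen_iff_mem_nhds]
    rintro x ⟨h1, h2⟩
    have h3 : ∀ᶠ y in 𝓝 x, y ∈ χ.U := χ.isOpen_U.mem_nhds h1
    have h4 : ∀ᶠ y in 𝓝 x, ‖χ.q y‖ < 1 := (χ.q_an x h1).continuousAt.norm.eventually_lt_const h2
    filter_upwards [h3, h4] with y h5 h6
    exact ⟨h5, h6⟩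
  smul_U := by
    rintro x ⟨h1, h2⟩ c hc
    exact ⟨χ.smul_U x h1 c hc, by rw [χ.q_smul x h1 c hc]; exact h2⟩
  σ_an := fun p hp => by
    have h1 : (1 / 2 : ℂ) • p ∈ ball (0 : ℂ × ℂ) 2 := by
      rw [mem_ball_zero_iff] at hp ⊢
      rw [norm_smul]
      have h2 : ‖(1 / 2 : ℂ)‖ = 1 / 2 := by norm_num
      rw [h2]
      linarith [norm_nonneg p]
    exact AnalyticAt.fun_comp (χ.σ_an _ h1) (analyticAt_const.fun_smul analyticAt_id)
  q_an := fun x hx => analyticAt_const.fun_smul (χ.q_an x hx.1)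
  q_smul := fun x hx c hc => by rw [χ.q_smul x hx.1 c hc]
  σ_mem := fun p hp => by
    have h2 : ‖(1 / 2 : ℂ)‖ = 1 / 2 := by norm_num
    have h0 : ‖(1 / 2 : ℂ) • p‖ < 1 := by
      rw [mem_ball_zero_iff] at hp
      rw [norm_smul, h2]
      linarith [norm_nonneg p]
    have h1 : (1 / 2 : ℂ) • p ∈ ball (0 : ℂ × ℂ) 2 := by
      rw [mem_ball_zero_iff]
      linarith
    obtain ⟨h3, h4, h5⟩ := χ.σ_mem _ h1
    refine ⟨h3, ⟨h4, by rw [h5]; exact h0⟩, ?_⟩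
    rw [h5, smul_smul]
    norm_num
  surj := by
    rintro x hx ⟨h1, h2⟩
    obtain ⟨h3, c, hc, h4⟩ := χ.surj x hx h1
    refine ⟨?_, c, hc, ?_⟩
    · rw [mem_ball_zero_iff, norm_smul]
      have h5 : ‖(2 : ℂ)‖ = 2 := by norm_num
      rw [h5]
      linarith
    · rw [smul_smul]
      have h5 : (1 / 2 : ℂ) * 2 = 1 := by norm_num
      rw [h5, one_smul]
      exact h4

private theorem HoA_half_mem {p : ℂ × ℂ} (hp : p ∈ ball (0 : ℂ × ℂ) 2) : (1 / 2 : ℂ) • p ∈ closedBall (0 : ℂ × ℂ) 1 := by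
  rw [mem_ball_zero_iff] at hp
  rw [mem_closedBall_zero_iff, norm_smul]
  have h2 : ‖(1 / 2 : ℂ)‖ = 1 / 2 := by norm_num
  rw [h2]
  linarith [norm_nonneg p]

private theorem HoA_mo (b : ℂ) (ρ : ℝ) (i j : ℕ) (p : ℂ × ℂ) : mo b (ρ / 2 ^ (i + j)) i j p = mo b ρ i j ((1 / 2 : ℂ) • p) := by
  unfold mo
  have h1 : ((1 / 2 : ℂ) • p).1 = (1 / 2 : ℂ) * p.1 := rfl
  have h2 : ((1 / 2 : ℂ) • p).2 = (1 / 2 : ℂ) * p.2 := rfl
  rw [h1, h2, mul_pow, mul_pow, pow_add, one_div_pow, one_div_pow]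
  push_cast
  have h3 : (2 : ℂ) ^ i ≠ 0 := pow_ne_zero _ two_ne_zero
  have h4 : (2 : ℂ) ^ j ≠ 0 := pow_ne_zero _ two_ne_zero
  field_simp

private theorem HoA_mo_an (b : ℂ) (ρ : ℝ) (i j : ℕ) (p : ℂ × ℂ) : AnalyticAt ℂ (mo b ρ i j) p := by
  show AnalyticAt ℂ (fun p : ℂ × ℂ => b + ρ * (p.1 ^ i * p.2 ^ j)) p
  exact analyticAt_const.add (analyticAt_const.mul ((analyticAt_fst.pow i).mul (analyticAt_snd.pow j)))

private theorem HoA_open (E : LData X D P Λ Γ u B δ) : Pool.Agent.H14.PP.IsOpenPart X (X \ P) := by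
  refine ⟨Set.sdiff_subset, ?_, ?_⟩
  · rintro x ⟨h1, h2⟩ c hc
    refine ⟨E.cone.smul_mem x h1 c hc, fun h3 => h2 ?_⟩
    have h4 := E.P_smul _ h3 c⁻¹ (inv_ne_zero hc)
    rwa [smul_smul, inv_mul_cancel₀ hc, one_smul] at h4
  · rintro x ⟨h1, h2⟩
    filter_upwards [E.P_closed x h1 h2] with y hy hyX
    exact ⟨hyX, hy⟩

/-- local boundedness of the coefficient (up to the pole) -/
private theorem HoA_loc (E : LData X D P Λ Γ u B δ) (α : TForm (X \ P) Λ u) {b : ℂ} (χ : Chart X) {ρ : ℝ} {i j : ℕ} {hor : Bool}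
    (hmon : Mon Λ u χ b ρ i j) (hP : ∀ p ∈ ball (0 : ℂ × ℂ) 2, χ.σ p ∈ P ↔ hor = true ∧ p.2 = 0) (hlog : hor = true → LogP α)
    {p₀ : ℂ × ℂ} (hp₀ : p₀ ∈ ball (0 : ℂ × ℂ) 2) : ∃ C : ℝ, ∀ᶠ p in 𝓝 p₀, χ.σ p ∉ P → ‖(if hor = true then p.2 else 1) *
      α.toFun (mo b ρ i j p) (χ.σ p) (fderiv ℂ χ.σ p (1, 0)) (fderiv ℂ χ.σ p (0, 1))‖ ≤ C := by
  have hball : ∀ᶠ p in 𝓝 p₀, p ∈ ball (0 : ℂ × ℂ) 2 := isOpen_ball.mem_nhds hp₀
  have hbd : ∀ f : ℂ × ℂ → ℂ, ContinuousAt f p₀ → ∀ᶠ p in 𝓝 p₀, ‖f p‖ ≤ ‖f p₀‖ + 1 := by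
    intro f hf
    have h1 : ∀ᶠ p in 𝓝 p₀, ‖f p‖ < ‖f p₀‖ + 1 := hf.norm.eventually_lt_const (lt_add_one _)
    exact h1.mono fun p hp => hp.le
  by_cases h0 : χ.σ p₀ ∈ P
  · obtain ⟨hh, h2⟩ := (hP p₀ hp₀).1 h0
    have hadd : ContinuousAt (fun p : ℂ × ℂ => p₀ + p) 0 := by fun_prop
    have hadd' : Tendsto (fun p : ℂ × ℂ => p₀ + p) (𝓝 0) (𝓝 p₀) := by
      have h1 := hadd.tendsto
      rwa [add_zero] at h1
    have hb : ∀ᶠ p in 𝓝 (0 : ℂ × ℂ), p₀ + p ∈ ball (0 : ℂ × ℂ) 2 := hadd'.eventually hball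
    have hladd : AnalyticAt ℂ (fun p : ℂ × ℂ => p₀ + p) 0 := analyticAt_const.add analyticAt_id
    have hm := χ.σ_mem p₀ hp₀
    have hG : IsGermChart X (fun p => χ.σ (p₀ + p)) (fun x => χ.q x - p₀) := by
      refine ⟨?_, ?_, ?_, ?_, ?_, ?_⟩
      · have h3 : AnalyticAt ℂ χ.σ ((fun p : ℂ × ℂ => p₀ + p) 0) := by
          simp only [add_zero]
          exact χ.σ_an _ hp₀
        exact AnalyticAt.fun_comp h3 hladd
      · filter_upwards [hb] with p hp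
        exact (χ.σ_mem _ hp).1
      · simp only [add_zero]
        exact (χ.q_an _ hm.2.1).sub analyticAt_const
      · filter_upwards [hb] with p hp
        rw [(χ.σ_mem _ hp).2.2]
        simp
      · simp only [add_zero]
        filter_upwards [χ.isOpen_U.mem_nhds hm.2.1] with y hy hyX
        obtain ⟨-, c, hc, h4⟩ := χ.surj y hyX hy
        refine ⟨c, hc, ?_⟩
        rw [add_sub_cancel]
        exact h4
      · simp only [add_zero]
        have h1 : ∀ᶠ w in 𝓝 (χ.σ p₀, (1 : ℂ)), w.1 ∈ χ.U := continuousAt_fst.tendsto.eventually (χ.isOpen_U.mem_nhds hm.2.1)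
        have h20 : ∀ᶠ c in 𝓝 (1 : ℂ), c ≠ 0 := eventually_ne_nhds one_ne_zero
        have h2 : ∀ᶠ w in 𝓝 (χ.σ p₀, (1 : ℂ)), w.2 ≠ 0 := by
          have h21 : Tendsto (Prod.snd : EN N × ℂ → ℂ) (𝓝 (χ.σ p₀, (1 : ℂ))) (𝓝 1) := continuousAt_snd
          exact h21.eventually h20
        filter_upwards [h1, h2] with w hw1 hw2
        rw [χ.q_smul _ hw1 _ hw2]
    have hPe : ∀ᶠ p in 𝓝 (0 : ℂ × ℂ), χ.σ (p₀ + p) ∈ P ↔ p.2 = 0 := by
      filter_upwards [hb] with p hp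
      rw [hP _ hp, Prod.snd_add, h2, zero_add]
      exact ⟨fun h => h.2, fun h => ⟨hh, h⟩⟩
    have hυ : AnalyticAt ℂ (fun p : ℂ × ℂ => mo b ρ i j (p₀ + p)) 0 :=
      AnalyticAt.fun_comp (HoA_mo_an b ρ i j _) hladd
    have hυl : ∀ᶠ p in 𝓝 (0 : ℂ × ℂ), u (χ.σ (p₀ + p)) - mo b ρ i j (p₀ + p) ∈ Λ := by
      filter_upwards [hb] with p hp
      exact hmon.lift _ hp
    obtain ⟨g, hg, hge⟩ := hlog hh _ _ _ hG hPe hυ hυl
    have hsub : ContinuousAt (fun p : ℂ × ℂ => p - p₀) p₀ := by fun_prop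
    have hsub' : Tendsto (fun p : ℂ × ℂ => p - p₀) (𝓝 p₀) (𝓝 0) := by
      have h1 := hsub.tendsto
      rwa [sub_self] at h1
    have hgc : ContinuousAt (fun p : ℂ × ℂ => g (p - p₀)) p₀ := by
      refine ContinuousAt.comp (f := fun p : ℂ × ℂ => p - p₀) (g := g) ?_ hsub
      rw [sub_self]
      exact hg.continuousAt
    refine ⟨‖g (p₀ - p₀)‖ + 1, ?_⟩
    · filter_upwards [hbd _ hgc, hsub'.eventually hge, hball] with p hp1 hp2 hp3 hp4
      have h5 : (p - p₀).2 ≠ 0 := by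
        intro h6
        apply hp4
        rw [hP p hp3]
        refine ⟨hh, ?_⟩
        rw [Prod.snd_sub, h2, sub_zero] at h6
        exact h6
      have h6 := hp2 h5
      have h7 : (p - p₀).2 = p.2 := by rw [Prod.snd_sub, h2, sub_zero]
      have h8 : fderiv ℂ (fun p => χ.σ (p₀ + p)) (p - p₀) = fderiv ℂ χ.σ p := by
        rw [fderiv_comp_add_left, add_sub_cancel]
      rw [h8, h7, add_sub_cancel] at h6
      rw [if_pos hh, h6]
      exact hp1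
  · have hm := χ.σ_mem p₀ hp₀
    have h1 : ∀ᶠ p in 𝓝 p₀, χ.σ p ∉ P := (χ.σ_an p₀ hp₀).continuousAt.tendsto.eventually (E.P_closed _ hm.1 h0)
    have h2 : ∀ᶠ p in 𝓝 p₀, χ.σ p ∈ X \ P ∧ u (χ.σ p) - mo b ρ i j p ∈ Λ := by
      filter_upwards [h1, hball] with p hp1 hp2
      exact ⟨⟨(χ.σ_mem p hp2).1, hp1⟩, hmon.lift p hp2⟩
    have h3 := α.analytic χ.σ (mo b ρ i j) p₀ (χ.σ_an p₀ hp₀) (HoA_mo_an b ρ i j p₀) h2
    have h4 : ContinuousAt (fun p : ℂ × ℂ => if hor = true then p.2 else (1 : ℂ)) p₀ := by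
      by_cases hh : hor = true
      · simp only [hh, if_true]
        exact continuousAt_snd
      · simp only [hh]
        exact continuousAt_const
    have h5 := hbd _ (h4.mul h3.continuousAt)
    exact ⟨_, h5.mono fun p hp _ => hp⟩

private theorem HoA_cpt {f : ℂ × ℂ → ℝ} {Q : ℂ × ℂ → Prop} (h : ∀ p₀ ∈ ball (0 : ℂ × ℂ) 2, ∃ C : ℝ, ∀ᶠ p in 𝓝 p₀, Q p → f p ≤ C) :
    ∃ C : ℝ, ∀ p ∈ closedBall (0 : ℂ × ℂ) 1, Q p → f p ≤ C := by
  have hc : IsCompact (closedBall (0 : ℂ × ℂ) 1) := isCompact_closedBall _ _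
  refine hc.induction_on (p := fun s => ∃ C : ℝ, ∀ p ∈ s, Q p → f p ≤ C) ⟨0, fun p hp => hp.elim⟩ ?_ ?_ ?_
  · rintro s t hst ⟨C, hC⟩
    exact ⟨C, fun p hp => hC p (hst hp)⟩
  · rintro s t ⟨C, hC⟩ ⟨C', hC'⟩
    refine ⟨max C C', fun p hp hQ => ?_⟩
    rcases hp with hp | hp
    · exact (hC p hp hQ).trans (le_max_left _ _)
    · exact (hC' p hp hQ).trans (le_max_right _ _)
  · intro p hp
    have hp2 : p ∈ ball (0 : ℂ × ℂ) 2 := by
      rw [mem_closedBall_zero_iff] at hp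
      rw [mem_ball_zero_iff]
      linarith
    obtain ⟨C, hC⟩ := h p hp2
    obtain ⟨t, ht, ht'⟩ := hC.exists_mem
    exact ⟨t, mem_nhdsWithin_of_mem_nhds ht, C, ht'⟩

/-- the restricted chart -/
private theorem HoA_main (E : LData X D P Λ Γ u B δ) (α : TForm (X \ P) Λ u) {b : ℂ} {x : EN N} (χ : Chart X) (hxU : x ∈ χ.U)
    (hq : χ.q x = 0) {ρ : ℝ} {i j : ℕ} {hor : Bool} (hmon : Mon Λ u χ b ρ i j) (hi : 1 ≤ i) (hj : hor = true → j = 0)
    (hP : ∀ p ∈ ball (0 : ℂ × ℂ) 2, χ.σ p ∈ P ↔ hor = true ∧ p.2 = 0) (hlog : hor = true → LogP α) {η : ℝ}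
    (hsm : ∀ p ∈ ball (0 : ℂ × ℂ) 2, dist (pr (χ.σ p)) (pr x) < η ∧ ‖mo b ρ i j p - b‖ < η) :
    ∃ S : HCh X, HOk P Λ u b η S ∧ HBd α b S ∧ x ∈ S.χ.U ∧ S.χ.q x = 0 ∧ S.hor = hor ∧
      ∀ p ∈ ball (0 : ℂ × ℂ) 2, dist (pr (S.χ.σ p)) (pr x) < η := by
  have hsub : ∀ p ∈ ball (0 : ℂ × ℂ) 2, (1 / 2 : ℂ) • p ∈ ball (0 : ℂ × ℂ) 2 := fun p hp =>
    closedBall_subset_ball one_lt_two (HoA_half_mem hp)
  refine ⟨⟨HoA_half χ, ρ / 2 ^ (i + j), i, j, hor⟩, ⟨⟨?_, hmon.ij, ?_⟩, hi, hj, ?_, ?_⟩, ?_, ⟨hxU, ?_⟩, ?_, rfl, ?_⟩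
  · exact div_pos hmon.pos (by positivity)
  · intro p hp
    rw [HoA_mo]
    exact hmon.lift _ (hsub p hp)
  · intro p hp
    show χ.σ ((1 / 2 : ℂ) • p) ∈ P ↔ _
    rw [hP _ (hsub p hp)]
    have h1 : ((1 / 2 : ℂ) • p).2 = (1 / 2 : ℂ) * p.2 := rfl
    rw [h1]
    constructor
    · rintro ⟨h2, h3⟩
      refine ⟨h2, ?_⟩
      rcases mul_eq_zero.1 h3 with h4 | h4
      · norm_num at h4
      · exact h4
    · rintro ⟨h2, h3⟩
      exact ⟨h2, by rw [h3, mul_zero]⟩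
  · intro p hp
    show ‖mo b (ρ / 2 ^ (i + j)) i j p - b‖ < η
    rw [HoA_mo]
    exact (hsm _ (hsub p hp)).2
  · obtain ⟨C, hC⟩ := HoA_cpt (fun p₀ hp₀ => HoA_loc E α χ hmon hP hlog hp₀)
    refine ⟨2 * |C|, fun p hp hpP => ?_⟩
    change χ.σ ((1 / 2 : ℂ) • p) ∉ P at hpP
    have h1 := hC _ (HoA_half_mem hp) hpP
    show ‖(if hor = true then p.2 else 1) * α.toFun (mo b (ρ / 2 ^ (i + j)) i j p) (χ.σ ((1 / 2 : ℂ) • p))
      (fderiv ℂ (fun p => χ.σ ((1 / 2 : ℂ) • p)) p (1, 0)) (fderiv ℂ (fun p => χ.σ ((1 / 2 : ℂ) • p)) p (0, 1))‖ ≤ 2 * |C|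
    have h2 : ∀ v : ℂ × ℂ, fderiv ℂ (fun p => χ.σ ((1 / 2 : ℂ) • p)) p v = (1 / 2 : ℂ) • fderiv ℂ χ.σ ((1 / 2 : ℂ) • p) v := by
      intro v
      have h3 : HasFDerivAt χ.σ (fderiv ℂ χ.σ ((1 / 2 : ℂ) • p)) ((1 / 2 : ℂ) • p) :=
        (χ.σ_an _ (hsub p hp)).differentiableAt.hasFDerivAt
      have h4 : HasFDerivAt (fun p : ℂ × ℂ => (1 / 2 : ℂ) • p) ((1 / 2 : ℂ) • ContinuousLinearMap.id ℂ (ℂ × ℂ)) p :=
        (hasFDerivAt_id p).const_smul (1 / 2 : ℂ)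
      have h5 : HasFDerivAt (fun p => χ.σ ((1 / 2 : ℂ) • p)) ((fderiv ℂ χ.σ ((1 / 2 : ℂ) • p)).comp
        ((1 / 2 : ℂ) • ContinuousLinearMap.id ℂ (ℂ × ℂ))) p := h3.comp p h4
      rw [h5.fderiv]
      show fderiv ℂ χ.σ ((1 / 2 : ℂ) • p) ((1 / 2 : ℂ) • v) = _
      rw [map_smul]
    have hm := χ.σ_mem _ (hsub p hp)
    have hxm : χ.σ ((1 / 2 : ℂ) • p) ∈ X \ P := ⟨hm.1, hpP⟩
    have ht1 := χ.tan (HoA_open E) (hsub p hp) hxm (1, 0)
    have ht2 := χ.tan (HoA_open E) (hsub p hp) hxm (0, 1)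
    have h6 := α.det (mo b ρ i j ((1 / 2 : ℂ) • p)) _ hxm (hmon.lift _ (hsub p hp)) _ _ ht1 ht2 (1 / 2) 0 0 (1 / 2)
    rw [zero_smul, zero_smul, add_zero, zero_add] at h6
    rw [h2, h2, HoA_mo, h6]
    by_cases hh : hor = true
    · rw [if_pos hh] at h1 ⊢
      have h7 : ((1 / 2 : ℂ) • p).2 = (1 / 2 : ℂ) * p.2 := rfl
      rw [h7, mul_assoc, norm_mul] at h1
      have h8 : ‖(1 / 2 : ℂ)‖ = 1 / 2 := by norm_num
      rw [h8] at h1
      rw [mul_left_comm, norm_mul]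
      have h9 : ‖((1 / 2 : ℂ) * (1 / 2) - 0 * 0)‖ = 1 / 4 := by norm_num
      rw [h9]
      have h10 := le_abs_self C
      have h11 := abs_nonneg C
      linarith
    · rw [if_neg hh, one_mul] at h1
      rw [if_neg hh, one_mul, norm_mul]
      have h9 : ‖((1 / 2 : ℂ) * (1 / 2) - 0 * 0)‖ = 1 / 4 := by norm_num
      rw [h9]
      have h10 := le_abs_self C
      have h11 := abs_nonneg C
      linarith
  · rw [hq, norm_zero]
    exact one_pos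
  · show (2 : ℂ) • χ.q x = 0
    rw [hq, smul_zero]
  · intro p hp
    exact (hsm _ (hsub p hp)).1

theorem hch_nc (E : LData X D P Λ Γ u B δ) (α : TForm (X \ P) Λ u) {b : ℂ} {x : EN N} (hx : x ∈ X) (hP : x ∉ P) (h : IsNC X Λ u x b) {η : ℝ}
    (hη : 0 < η) : ∃ S : HCh X, HOk P Λ u b η S ∧ HBd α b S ∧ x ∈ S.χ.U ∧ S.χ.q x = 0 ∧ S.hor = false ∧
      ∀ p ∈ ball (0 : ℂ × ℂ) 2, dist (pr (S.χ.σ p)) (pr x) < η := by
  obtain ⟨r, hr, hrP⟩ := pr_closed E.cone E.P_smul (E.P_sub.trans E.D_sub) hx (E.P_closed x hx hP)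
  obtain ⟨χ, ρ, i, j, hxU, hq, hmon, hsm⟩ := exists_nc_chartO E.cone E.tor h (lt_min hη hr)
  have hsm' : ∀ p ∈ ball (0 : ℂ × ℂ) 2, dist (pr (χ.σ p)) (pr x) < η ∧ ‖mo b ρ i j p - b‖ < η := fun p hp =>
    ⟨(hsm p hp).1.trans_le (min_le_left _ _), (hsm p hp).2.trans_le (min_le_left _ _)⟩
  have hPn : ∀ p ∈ ball (0 : ℂ × ℂ) 2, χ.σ p ∉ P := fun p hp hpP =>
    absurd ((hsm p hp).1.trans_le (min_le_right _ _)) (not_lt.2 (hrP _ hpP))
  have hff : (false = true) → LogP α := fun h => absurd h (by decide)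
  have hfj : ∀ k : ℕ, (false = true) → k = 0 := fun k h => absurd h (by decide)
  by_cases hi : 1 ≤ i
  · exact HoA_main E α χ hxU hq hmon hi (hfj j) (fun p hp => ⟨fun h => absurd h (hPn p hp), fun h => absurd h.1 (by decide)⟩) hff hsm'
  · have hi0 : i = 0 := by omega
    have hj : 1 ≤ j := by have := hmon.ij; omega
    have hsw : ∀ p ∈ ball (0 : ℂ × ℂ) 2, p.swap ∈ ball (0 : ℂ × ℂ) 2 := by
      intro p hp
      rw [mem_ball_zero_iff, Prod.norm_def] at hp ⊢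
      rw [max_comm]
      exact hp
    have hmo : ∀ p : ℂ × ℂ, mo b ρ j i p = mo b ρ i j p.swap := by
      intro p
      unfold mo
      rw [Prod.fst_swap, Prod.snd_swap, mul_comm (p.1 ^ j)]
    refine HoA_main E α (swp χ) hxU ?_ (i := j) (j := i) ⟨hmon.pos, by rw [add_comm]; exact hmon.ij, ?_⟩ hj (hfj i)
      (fun p hp => ⟨fun h => absurd h (hPn _ (hsw p hp)), fun h => absurd h.1 (by decide)⟩) hff ?_
    · show (χ.q x).swap = 0
      rw [hq]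
      rfl
    · intro p hp
      rw [hmo]
      exact hmon.lift _ (hsw p hp)
    · intro p hp
      rw [hmo]
      exact hsm' _ (hsw p hp)

theorem hch_hor (E : LData X D P Λ Γ u B δ) {α : TForm (X \ P) Λ u} (hlog : LogP α) {b : ℂ} {x : EN N} {i : ℕ} (hi : 1 ≤ i)
    (h : HorAt X Λ u P x b i) {η : ℝ} (hη : 0 < η) : ∃ S : HCh X, HOk P Λ u b η S ∧ HBd α b S ∧ x ∈ S.χ.U ∧ S.χ.q x = 0 ∧ S.hor = true ∧
      ∀ p ∈ ball (0 : ℂ × ℂ) 2, dist (pr (S.χ.σ p)) (pr x) < η := by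
  obtain ⟨σ, τ, hg, hσ0, hev, hevP⟩ := h
  obtain ⟨η', hη', hall⟩ := Metric.eventually_nhds_iff_ball.mp ((hev.and hevP).and hg.σ_mem)
  obtain ⟨χ, r, hr, hU, hq, hch⟩ := exists_small_chartO E.cone hg (lt_min (lt_min hη' hη) one_pos)
  have hri : (0 : ℝ) < r ^ i := pow_pos hr _
  have hkey : ∀ p : ℂ × ℂ, mo b (r ^ i) i 0 p = b + ((r : ℂ) • p).1 ^ i := by
    intro p
    have h1 : ((r : ℂ) • p).1 = (r : ℂ) * p.1 := rfl
    unfold mo
    rw [h1]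
    push_cast
    ring
  have hb : ∀ p ∈ ball (0 : ℂ × ℂ) 2, (r : ℂ) • p ∈ ball (0 : ℂ × ℂ) η' := fun p hp =>
    mem_ball_zero_iff.mpr ((hch p hp).1.trans_le ((min_le_left _ _).trans (min_le_left _ _)))
  rw [hσ0] at hU hq
  have hPs : ∀ (y : EN N) (a : ℂ), a ≠ 0 → (a • y ∈ P ↔ y ∈ P) := by
    intro y a ha
    refine ⟨fun h => ?_, fun h => E.P_smul y h a ha⟩
    have h4 := E.P_smul _ h a⁻¹ (inv_ne_zero ha)
    rwa [smul_smul, inv_mul_cancel₀ ha, one_smul] at h4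
  refine HoA_main E α χ hU hq (i := i) (j := 0) (ρ := r ^ i) ⟨hri, by omega, ?_⟩ hi (fun _ => rfl) ?_ (fun _ => hlog) ?_
  · intro p hp
    obtain ⟨-, -, a, ha, hap⟩ := hch p hp
    have h1 := hall _ (hb p hp)
    have h2 := E.tor.smul _ h1.2 a ha
    rw [hap, hkey p]
    have h3 := Λ.add_mem h2 h1.1.1
    convert h3 using 1
    ring
  · intro p hp
    obtain ⟨-, -, a, ha, hap⟩ := hch p hp
    have h1 := (hall _ (hb p hp)).1.2
    rw [hap, hPs _ _ ha, h1]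
    have h2 : ((r : ℂ) • p).2 = (r : ℂ) * p.2 := rfl
    rw [h2, mul_eq_zero]
    have h3 : (r : ℂ) ≠ 0 := by exact_mod_cast hr.ne'
    constructor
    · rintro (h4 | h4)
      · exact absurd h4 h3
      · exact ⟨rfl, h4⟩
    · rintro ⟨-, h4⟩
      exact Or.inr h4
  · intro p hp
    obtain ⟨h0, h1, -⟩ := hch p hp
    refine ⟨?_, ?_⟩
    · rw [← hσ0]
      exact h1.trans_le ((min_le_left _ _).trans (min_le_right _ _))
    · rw [hkey p, add_sub_cancel_left, norm_pow]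
      have h2 : ‖((r : ℂ) • p).1‖ ≤ ‖(r : ℂ) • p‖ := norm_fst_le ((r : ℂ) • p)
      have h3 : ‖((r : ℂ) • p).1‖ < 1 := h2.trans_lt (h0.trans_le (min_le_right _ _))
      have h4 : ‖((r : ℂ) • p).1‖ < η := h2.trans_lt (h0.trans_le ((min_le_left _ _).trans (min_le_right _ _)))
      calc ‖((r : ℂ) • p).1‖ ^ i ≤ ‖((r : ℂ) • p).1‖ ^ 1 := pow_le_pow_of_le_one (norm_nonneg _) h3.le hi
        _ = ‖((r : ℂ) • p).1‖ := pow_one _
        _ < η := h4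

theorem exists_hch (E : LData X D P Λ Γ u B δ) {α : TForm (X \ P) Λ u} (hlog : LogP α) {b : ℂ} (hb : b ∈ B) {x : EN N} (hx : x ∈ X)
    (hxb : u x - b ∈ Λ) {η : ℝ} (hη : 0 < η) : ∃ S : HCh X, HOk P Λ u b η S ∧ HBd α b S ∧ x ∈ S.χ.U ∧ S.χ.q x = 0 ∧
      ∀ p ∈ ball (0 : ℂ × ℂ) 2, dist (pr (S.χ.σ p)) (pr x) < η := by
  by_cases hP : x ∈ P
  · obtain ⟨i, hi, h⟩ := E.horP b hb x hP hxb
    obtain ⟨S, h1, h2, h3, h4, -, h5⟩ := hch_hor E hlog hi h hη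
    exact ⟨S, h1, h2, h3, h4, h5⟩
  · obtain ⟨S, h1, h2, h3, h4, -, h5⟩ := hch_nc E α hx hP (E.nc b hb x hx hP hxb) hη
    exact ⟨S, h1, h2, h3, h4, h5⟩

end Pool.Agent.H18.LU

end

section

/-!
# LU HoF: a finite family of charts

`exists_hfam`: `η` with `∀ l ∈ Λ, ‖l‖ < 2 η → l = 0` (`E.dsc.discrete`).  Let `R = ‖b‖`, `X₁ = part X Λ u (R + 1)`, a cone in the old sense; `𝓕 = pr '' {x ∈ X | u x - b ∈ Λ}` is compact (closed subset of the compact set `pr '' X₁`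
(`Pool.Agent.H62.EF.isCompact_pr`, `part_isCone`): if `pr x n → pr x`, `x n`, `x ∈ X₁`, then by `part_unif` `u x - b` is a limit of elements of `Λ`; `Dsc.mem_of_close`).
`T ⊆ 𝓕`: the points `pr x` such that `x` is the centre of a special chart `S` (`HOk P Λ u b η S`, `S.Sp`, `x ∈ S.χ.U`, `S.χ.q x = 0`).  By `hsp_iso` and `exists_hch` every point of `𝓕` has a neighbourhood which contains at most one point of
`T` (the points `pr y`, `y ∈ S.χ.U`: an open set, see `near_of_pr`; a point `pr y ∈ T` with `y ∈ S.χ.U`, `u y - b ∈ Λ` has `S.χ.q y = 0`, so `pr y = pr (S.χ.σ 0)`).  So `T` is finite (`IsCompact.elim_nhds_subcover`).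
Choose `r > 0` such that different points of `T` have distance `≥ 4 r`.  For `t ∈ T` take a special chart `S_t` with centre `t`, `HBd`, all points `r`-near `t` (`exists_hch` at `x` with `η' = min η r`; it is special: by `hsp_iso` with `S` the new
chart and `S'` the special chart which exists by definition of `T`); so the charts `S_t` are pairwise disjoint and `S_t.χ.σ p ∉ S_{t'}.χ.U` (`surj`: points of `X ∩ U` are `r`-near `t'`).
`K' = 𝓕 \ ⋃_t {y | ∃ p, ‖p.1‖ < 7/8 ∧ ‖p.2‖ < 7/8, y = pr (S_t.χ.σ p)}` is compact (these sets are relatively open in `pr '' X`: `pr x` with `x ∈ U`, `q x` in the open set).  For `y ∈ K'`, `y = pr x`: `y ∉ T`, and `y` has positive distance to the compact sets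
`C_t = pr '' (S_t.χ.σ '' {p | ‖p.1‖ ≤ 1/2 ∧ ‖p.2‖ ≤ 1/2})` (if `y = pr (S_t.χ.σ p)` with such `p` then `y` is not in `K'`).  `exists_hch` at `x` with `η'` smaller than half of this distance and `≤ η`: a chart `S_y`, all points `η'`-near `y`; not special, because
`y ∉ T`.  Finitely many of the open sets `{pr x' | x' ∈ S_y.χ.U, CenS (S_y.χ.q x')}` cover `K'`.  The family: all `S_t` and these `S_y`.
`ok`: `HOk` is monotone in `η` (`small`).  `sep`: `i` special is `S_t`; `j = S_{t'}`: disjoint; `j = S_y`: `C_t` is not near `y`.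
`cov`: let `O` be the union of the sets `{x | x ∈ (c k).χ.U, CenS (q x) ∨ 1 ≤ (c k).c ∧ CenS (q x).swap}` (open cones).  Points over `b` are in `O`: `pr x ∈ K'`: one of the `S_y`; otherwise `x = a • S_t.χ.σ p`, `‖p.1‖, ‖p.2‖ < 7/8`, `p.1 ^ a * p.2 ^ c = 0`: if
`p.1 = 0`: `CenS p`; if `p.1 ≠ 0` then `1 ≤ c`, `p.2 = 0`: `CenS p.swap`.  If no `s` works: `x n ∈ X \ O`, `u x n - z n ∈ Λ`, `z n → b`; `x n ∈ X₁`; a limit point `pr x` of `pr x n`, `x ∈ X₁`, `u x - b ∈ Λ` (`part_unif`), `x ∈ O`, so `x n ∈ O` for some `n`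
(`near_of_pr`, `O` is an open cone): contradiction.
-/

set_option autoImplicit false

open Topology Filter Metric

namespace Pool.Agent.H18.LU

attribute [-instance] ProperSMul.toContinuousSMul

open Pool.Agent.H36.BP (EN fs wd IsGermChart)
open Pool.Agent.H14.PP (IsCone Chart Tan CurveAt)
open Pool.Agent.H62.EF (Lat MN pr TorusMap Sec Charts DU)
open Pool.Agent.H62.EL (Gd Ag BadSet IsNC TForm Mon mo tc)

variable {N : ℕ} {X D P : Set (EN N)} {Λ Γ : AddSubgroup ℂ} {u : EN N → ℂ} {B : Set ℂ} {δ : ℝ}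

private theorem HoF_near {O : Set (EN N)} (hO : IsOpen O) (hs : ∀ x ∈ O, ∀ c : ℂ, c ≠ 0 → c • x ∈ O) {x : EN N} (hx : x ∈ O) (h0 : x ≠ 0) :
    ∃ r : ℝ, 0 < r ∧ ∀ y : EN N, y ≠ 0 → dist (pr y) (pr x) < r → y ∈ O := by
  obtain ⟨r, hr, h⟩ := Pool.Agent.H62.EF.near_of_pr h0 (hO.mem_nhds hx)
  refine ⟨r, hr, fun y hy hd => ?_⟩
  obtain ⟨c, hc, h1⟩ := h y hy hd
  have h2 := hs _ h1 c⁻¹ (inv_ne_zero hc)
  rwa [smul_smul, inv_mul_cancel₀ hc, one_smul] at h2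

/-- points over values near `b` are near the fibre over `b` -/
private theorem HoF_lim (E : LFib X D Λ Γ u B δ) (b : ℂ) {O : Set (EN N)} (hO : IsOpen O)
    (hs : ∀ x ∈ O, ∀ c : ℂ, c ≠ 0 → c • x ∈ O) (h : ∀ x ∈ X, u x - b ∈ Λ → x ∈ O) :
    ∃ s : ℝ, 0 < s ∧ ∀ z ∈ ball b s, ∀ x ∈ X, u x - z ∈ Λ → x ∈ O := by
  by_contra hcon
  push Not at hcon
  have h1 : ∀ n : ℕ, ∃ z ∈ ball b (1 / ((n : ℝ) + 1)), ∃ x ∈ X, u x - z ∈ Λ ∧ x ∉ O := fun n => hcon _ (by positivity)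
  choose z hz x hxX hxz hxO using h1
  have hzb : ∀ n, ‖z n - b‖ < 1 / ((n : ℝ) + 1) := fun n => mem_ball_iff_norm.mp (hz n)
  have h2 : ∀ n, x n ∈ part X Λ u (‖b‖ + 1) := by
    intro n
    refine part_mem_of_val (hxX n) (nb_mono ?_ (mem_nb_norm (z n))) (hxz n)
    have e1 : z n = b + (z n - b) := by ring
    have e2 : ‖z n‖ ≤ ‖b‖ + ‖z n - b‖ := by
      conv_lhs => rw [e1]
      exact norm_add_le _ _
    have e3 : 1 / ((n : ℝ) + 1) ≤ 1 := by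
      rw [div_le_one (by positivity)]
      have : (0 : ℝ) ≤ n := n.cast_nonneg
      linarith
    have e4 := hzb n
    linarith
  obtain ⟨y, ⟨x', hx', rfl⟩, φ, hφ, hlim⟩ := (Pool.Agent.H62.EF.isCompact_pr (E.part_isCone (‖b‖ + 1))).tendsto_subseq
    (fun n => Set.mem_image_of_mem pr (h2 n))
  have hxX' : x' ∈ X := hx'.1
  have hd : ∀ r : ℝ, 0 < r → ∀ᶠ n in atTop, dist (pr (x (φ n))) (pr x') < r := fun r hr =>
    hlim.eventually (Metric.ball_mem_nhds _ hr)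
  have h3 : u x' - b ∈ Λ := by
    apply E.dsc.mem_of_close
    intro ε hε
    obtain ⟨η, hη, h4⟩ := E.part_unif (‖b‖ + 1) (half_pos hε)
    have h6 : ∀ᶠ n in atTop, ‖z (φ n) - b‖ < ε / 2 := by
      have h7 : Tendsto (fun n : ℕ => 1 / ((n : ℝ) + 1)) atTop (𝓝 0) := tendsto_one_div_add_atTop_nhds_zero_nat
      have h8 : ∀ᶠ n : ℕ in atTop, 1 / ((n : ℝ) + 1) < ε / 2 := h7.eventually_lt_const (half_pos hε)
      filter_upwards [hφ.tendsto_atTop.eventually h8] with n hn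
      exact lt_trans (hzb _) hn
    obtain ⟨n, hn1, hn2⟩ := ((hd η hη).and h6).exists
    obtain ⟨l, hl, h7⟩ := h4 x' hx' (x (φ n)) (h2 _) (by rw [dist_comm]; exact hn1)
    refine ⟨l + (u (x (φ n)) - z (φ n)), Λ.add_mem hl (hxz _), ?_⟩
    have e1 : u x' - b - (l + (u (x (φ n)) - z (φ n))) = (u x' - u (x (φ n)) - l) + (z (φ n) - b) := by ring
    rw [e1]
    have e2 := norm_add_le (u x' - u (x (φ n)) - l) (z (φ n) - b)
    linarith
  obtain ⟨r, hr, h4⟩ := HoF_near hO hs (h x' hxX' h3) (E.cone.ne_zero hxX')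
  obtain ⟨n, hn⟩ := (hd r hr).exists
  exact hxO _ (h4 _ (E.cone.ne_zero (hxX _)) hn)

/-- the fibre over `b` -/
private def HoFb (X : Set (EN N)) (Λ : AddSubgroup ℂ) (u : EN N → ℂ) (b : ℂ) : Set (EN N) := {x | x ∈ X ∧ u x - b ∈ Λ}

private theorem HoF_cone (E : LFib X D Λ Γ u B δ) (b : ℂ) : IsCone (HoFb X Λ u b) := by
  refine ⟨fun h => E.cone.zero_notMem h.1, fun x hx c hc => ⟨E.cone.smul_mem x hx.1 c hc, ?_⟩, ?_⟩
  · have e1 : u (c • x) - b = (u (c • x) - u x) + (u x - b) := by ring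
    rw [e1]
    exact Λ.add_mem (E.tor.smul x hx.1 c hc) hx.2
  · rw [isClosed_iff_frequently]
    intro x hx
    have h1 : x ∈ insert 0 (part X Λ u ‖b‖) := by
      refine (isClosed_iff_frequently.mp (E.closed ‖b‖)) x (hx.mono ?_)
      rintro y (rfl | hy)
      · exact Set.mem_insert _ _
      · exact Set.mem_insert_of_mem _ (part_mem_of_val hy.1 (mem_nb_norm b) hy.2)
    rcases h1 with h1 | h1
    · exact Or.inl h1
    · right
      have hxX : x ∈ X := h1.1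
      refine ⟨hxX, ?_⟩
      obtain ⟨v, hv, hvu⟩ := E.tor.loc x hxX
      apply E.dsc.mem_of_close
      intro ε hε
      have h2 : ∀ᶠ y in 𝓝 x, ‖v y - v x‖ < ε := by
        have h3 := hv.continuousAt.eventually (Metric.ball_mem_nhds (v x) hε)
        filter_upwards [h3] with y hy
        exact mem_ball_iff_norm.mp hy
      have h3 : ∀ᶠ y in 𝓝 x, y ≠ 0 := (isOpen_ne).mem_nhds (E.cone.ne_zero hxX)
      obtain ⟨y, hy, ⟨h4, h5⟩, h6⟩ := (hx.and_eventually ((h2.and h3).and hvu)).exists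
      rcases hy with hy | hy
      · exact absurd hy h5
      · have h7 := h6 hy.1
        have h8 := hvu.self_of_nhds hxX
        refine ⟨(u x - v x) - (u y - v y) + (u y - b), Λ.add_mem (Λ.sub_mem h8 h7) hy.2, ?_⟩
        have e1 : u x - b - ((u x - v x) - (u y - v y) + (u y - b)) = -(v y - v x) := by ring
        rw [e1, norm_neg]
        exact h4

private theorem HoF_of_pr (hX : OCone X) (χ : Chart X) {x : EN N} (hx : x ≠ 0) {p : ℂ × ℂ} (hp : p ∈ ball (0 : ℂ × ℂ) 2)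
    (h : pr x = pr (χ.σ p)) : x ∈ χ.U ∧ χ.q x = p := by
  obtain ⟨h1, h2, h3⟩ := χ.σ_mem p hp
  obtain ⟨c, hc, rfl⟩ := (Pool.Agent.H62.EF.pr_eq_iff hx (hX.ne_zero h1)).mp h
  exact ⟨χ.smul_U _ h2 c hc, by rw [χ.q_smul _ h2 c hc, h3]⟩

private theorem HoF_pr (χ : Chart X) {x : EN N} (hx : x ∈ X) (hU : x ∈ χ.U) : pr x = pr (χ.σ (χ.q x)) := by
  obtain ⟨_, c, hc, h⟩ := χ.surj x hx hU
  conv_lhs => rw [h]
  exact Pool.Agent.H62.EF.pr_smul _ hc

private theorem HoF_mono {b : ℂ} {η η' : ℝ} (h : η ≤ η') {S : HCh X} (hS : HOk P Λ u b η S) : HOk P Λ u b η' S :=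
  ⟨hS.mon, hS.a_pos, hS.hor_c, hS.P_iff, fun p hp => lt_of_lt_of_le (hS.small p hp) h⟩

private theorem HoF_open (χ : Chart X) {A : Set (ℂ × ℂ)} (hA : IsOpen A) : IsOpen {x | x ∈ χ.U ∧ χ.q x ∈ A} := by
  have h1 : ContinuousOn χ.q χ.U := fun x hx => (χ.q_an x hx).continuousAt.continuousWithinAt
  exact h1.isOpen_inter_preimage χ.isOpen_U hA

private theorem HoF_smul (χ : Chart X) {A : Set (ℂ × ℂ)} {x : EN N} (hx : x ∈ χ.U ∧ χ.q x ∈ A) {c : ℂ} (hc : c ≠ 0) :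
    c • x ∈ χ.U ∧ χ.q (c • x) ∈ A :=
  ⟨χ.smul_U _ hx.1 c hc, by rw [χ.q_smul _ hx.1 c hc]; exact hx.2⟩

/-- the centres of the special charts -/
private def HoTb (X P : Set (EN N)) (Λ : AddSubgroup ℂ) (u : EN N → ℂ) (b : ℂ) (η : ℝ) : Set (MN N) :=
  {t | ∃ x ∈ HoFb X Λ u b, pr x = t ∧ ∃ S : HCh X, HOk P Λ u b η S ∧ S.Sp ∧ x ∈ S.χ.U ∧ S.χ.q x = 0}

private theorem HoF_fin (E : LData X D P Λ Γ u B δ) {α : TForm (X \ P) Λ u} (hlog : LogP α) {b : ℂ} (hb : b ∈ B) {η : ℝ} (hη : 0 < η)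
    (hinj : ∀ l ∈ Λ, ‖l‖ < η + η → l = 0) : (HoTb X P Λ u b η).Finite := by
  have hK : IsCompact (pr '' HoFb X Λ u b) := Pool.Agent.H62.EF.isCompact_pr (HoF_cone E.toLFib b)
  have h1 : ∀ y ∈ pr '' HoFb X Λ u b, ∃ V ∈ 𝓝 y, (V ∩ HoTb X P Λ u b η).Subsingleton := by
    rintro y ⟨x, hx, rfl⟩
    obtain ⟨S, hS, _, hxU, _, _⟩ := exists_hch E hlog hb hx.1 hx.2 hη
    obtain ⟨r, hr, h2⟩ := HoF_near S.χ.isOpen_U S.χ.smul_U hxU (E.cone.ne_zero hx.1)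
    refine ⟨ball (pr x) r, Metric.ball_mem_nhds _ hr, ?_⟩
    have h3 : ∀ t ∈ ball (pr x) r ∩ HoTb X P Λ u b η, t = pr (S.χ.σ 0) := by
      rintro t ⟨ht, x', hx', rfl, S', hS', hsp, hU', hq'⟩
      have hU : x' ∈ S.χ.U := h2 x' (E.cone.ne_zero hx'.1) ht
      have h4 := (hsp_iso E hinj hS hS' hsp hx'.1 hx'.2 hU hU' hq').2
      rw [HoF_pr S.χ hx'.1 hU, h4]
    intro t ht t' ht'
    rw [h3 t ht, h3 t' ht']
  choose! V hV hsub using h1
  obtain ⟨t, ht, hcov⟩ := hK.elim_nhds_subcover V hV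
  refine (t.finite_toSet.biUnion (t := fun y => V y ∩ HoTb X P Λ u b η) (fun y hy => (hsub y (ht y hy)).finite)).subset ?_
  intro y hy
  obtain ⟨x, hx, hxy, _⟩ := id hy
  have h2 := hcov (Set.mem_image_of_mem pr hx)
  rw [hxy] at h2
  simp only [Set.mem_iUnion] at h2 ⊢
  obtain ⟨i, hi, h3⟩ := h2
  exact ⟨i, hi, h3, hy⟩

private theorem HoF_sep {T : Set (MN N)} (hT : T.Finite) : ∃ r : ℝ, 0 < r ∧ ∀ t ∈ T, ∀ t' ∈ T, t ≠ t' → 4 * r ≤ dist t t' := by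
  have h1 : ∀ᶠ r : ℝ in 𝓝[>] 0, ∀ t ∈ T, ∀ t' ∈ T, t ≠ t' → 4 * r ≤ dist t t' := by
    rw [Filter.eventually_all_finite hT]
    intro t ht
    rw [Filter.eventually_all_finite hT]
    intro t' ht'
    by_cases h : t = t'
    · exact Filter.Eventually.of_forall fun r h' => absurd h h'
    · have h2 : 0 < dist t t' := dist_pos.mpr h
      have h3 : ∀ᶠ r : ℝ in 𝓝[>] 0, r < dist t t' / 4 := by
        have h4 : ∀ᶠ r : ℝ in 𝓝 0, r < dist t t' / 4 := Iio_mem_nhds (by positivity)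
        exact h4.filter_mono nhdsWithin_le_nhds
      filter_upwards [h3] with r hr _
      linarith
  obtain ⟨r, h2, h3⟩ := (h1.and self_mem_nhdsWithin).exists
  exact ⟨r, h3, h2⟩

private theorem HoF_tr {b : ℂ} {η : ℝ} {ι κ : Type} (e : ι ≃ κ) {c : ι → HCh X} (h : HFam P Λ u b η ι c) :
    HFam P Λ u b η κ (fun k => c (e.symm k)) := by
  refine ⟨fun k => h.ok _, h.inj, fun i j hij => h.sep _ _ (fun h' => hij (e.symm.injective h')), ?_⟩
  obtain ⟨s, hs, h1⟩ := h.cov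
  refine ⟨s, hs, fun z hz x hx hux => ?_⟩
  obtain ⟨k, hk⟩ := h1 z hz x hx hux
  refine ⟨e k, ?_⟩
  simp only [Equiv.symm_apply_apply]
  exact hk

/-- the cross is covered -/
private theorem HoF_cross (hu : TorusMap X Λ u) {b : ℂ} {η : ℝ} (hinj : ∀ l ∈ Λ, ‖l‖ < η + η → l = 0) {S : HCh X} (hS : HOk P Λ u b η S)
    (hη : 0 < η) {x : EN N} (hx : x ∈ HoFb X Λ u b) (hU : x ∈ S.χ.U) (hq : S.χ.q x ∈ ball (0 : ℂ × ℂ) (7 / 8)) :
    CenS (S.χ.q x) ∨ 1 ≤ S.c ∧ CenS (S.χ.q x).swap := by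
  obtain ⟨h1, c, hc, h2⟩ := S.χ.surj x hx.1 hU
  obtain ⟨h3, h4, h5⟩ := S.χ.σ_mem _ h1
  have hn : ‖S.χ.q x‖ < 7 / 8 := mem_ball_zero_iff.mp hq
  have hn1 : ‖(S.χ.q x).1‖ < 7 / 8 := lt_of_le_of_lt (norm_fst_le _) hn
  have hn2 : ‖(S.χ.q x).2‖ < 7 / 8 := lt_of_le_of_lt (norm_snd_le _) hn
  have h6 : u (S.χ.σ (S.χ.q x)) - mo b S.ρ S.a S.c (S.χ.q x) ∈ Λ := hS.mon.lift _ h1
  have h7 : u x - u (S.χ.σ (S.χ.q x)) ∈ Λ := by
    have := hu.smul _ h3 c hc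
    rwa [← h2] at this
  have h8 : mo b S.ρ S.a S.c (S.χ.q x) - b ∈ Λ := by
    have e1 : mo b S.ρ S.a S.c (S.χ.q x) - b = (u x - b) - (u x - u (S.χ.σ (S.χ.q x))) - (u (S.χ.σ (S.χ.q x)) - mo b S.ρ S.a S.c (S.χ.q x)) := by
      ring
    rw [e1]
    exact Λ.sub_mem (Λ.sub_mem hx.2 h7) h6
  have h9 := hinj _ h8 (lt_trans (hS.small _ h1) (by linarith))
  have h10 : (S.ρ : ℂ) * ((S.χ.q x).1 ^ S.a * (S.χ.q x).2 ^ S.c) = 0 := by
    have e1 : mo b S.ρ S.a S.c (S.χ.q x) - b = (S.ρ : ℂ) * ((S.χ.q x).1 ^ S.a * (S.χ.q x).2 ^ S.c) := by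
      unfold mo
      ring
    rw [← e1]
    exact h9
  have h11 : (S.ρ : ℂ) ≠ 0 := by exact_mod_cast hS.mon.pos.ne'
  rcases mul_eq_zero.mp (by simpa [h11] using h10 : (S.χ.q x).1 ^ S.a * (S.χ.q x).2 ^ S.c = 0) with h12 | h12
  · left
    have h13 : (S.χ.q x).1 = 0 := by
      have := hS.a_pos
      exact pow_eq_zero_iff (by omega) |>.mp h12
    refine ⟨?_, hn2⟩
    rw [h13, norm_zero]
    norm_num
  · right
    have h14 : S.c ≠ 0 := by
      intro h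
      rw [h, pow_zero] at h12
      exact one_ne_zero h12
    have h13 : (S.χ.q x).2 = 0 := (pow_eq_zero_iff h14).mp h12
    refine ⟨by omega, ?_, hn1⟩
    show ‖(S.χ.q x).2‖ < 3 / 8
    rw [h13, norm_zero]
    norm_num

theorem exists_hfam (E : LData X D P Λ Γ u B δ) {α : TForm (X \ P) Λ u} (hlog : LogP α) {b : ℂ} (hb : b ∈ B) :
    ∃ (η : ℝ) (n : ℕ) (c : Fin n → HCh X), 0 < η ∧ HFam P Λ u b η (Fin n) c ∧ ∀ k, HBd α b (c k) := by
  classical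
  obtain ⟨δ₀, hδ₀, hinj0⟩ := E.dsc.discrete
  obtain ⟨η, hη, hηd⟩ : ∃ η : ℝ, 0 < η ∧ η + η ≤ δ₀ := ⟨δ₀ / 2, by positivity, by linarith⟩
  have hinj : ∀ l ∈ Λ, ‖l‖ < η + η → l = 0 := fun l hl h => hinj0 l hl (lt_of_lt_of_le h hηd)
  have hT : (HoTb X P Λ u b η).Finite := HoF_fin E hlog hb hη hinj
  obtain ⟨r, hr, hrT⟩ := HoF_sep hT
  have hK : IsCompact (pr '' HoFb X Λ u b) := Pool.Agent.H62.EF.isCompact_pr (HoF_cone E.toLFib b)
  -- the special charts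
  have hSt : ∀ t : HoTb X P Λ u b η, ∃ S : HCh X, HOk P Λ u b η S ∧ HBd α b S ∧ S.Sp ∧ pr (S.χ.σ 0) = t ∧
      ∀ p ∈ ball (0 : ℂ × ℂ) 2, dist (pr (S.χ.σ p)) t < r := by
    rintro ⟨t, x, hx, rfl, S', hS', hsp, hU', hq'⟩
    obtain ⟨S, hS, hbd, hxU, hxq, hd⟩ := exists_hch E hlog hb hx.1 hx.2 (lt_min hη hr)
    have hS2 : HOk P Λ u b η S := HoF_mono (min_le_left _ _) hS
    refine ⟨S, hS2, hbd, (hsp_iso E hinj hS2 hS' hsp hx.1 hx.2 hxU hU' hq').1, ?_, fun p hp => lt_of_lt_of_le (hd p hp) (min_le_right _ _)⟩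
    show pr (S.χ.σ 0) = pr x
    rw [HoF_pr S.χ hx.1 hxU, hxq]
  choose St hok hbd hsp hcen hnear using hSt
  have hTfin : Finite (HoTb X P Λ u b η) := hT.to_subtype
  -- the compact set of the centres
  have hball : ∀ p ∈ closedBall (0 : ℂ × ℂ) (1 / 2), p ∈ ball (0 : ℂ × ℂ) 2 := fun p hp => by
    rw [mem_closedBall_zero_iff] at hp
    rw [mem_ball_zero_iff]
    linarith
  obtain ⟨C, hCdef⟩ : ∃ C : Set (MN N), C = ⋃ t, (fun p => pr ((St t).χ.σ p)) '' closedBall (0 : ℂ × ℂ) (1 / 2) := ⟨_, rfl⟩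
  have hC : IsCompact C := by
    rw [hCdef]
    refine isCompact_iUnion fun t => (isCompact_closedBall _ _).image_of_continuousOn fun p hp => ?_
    have h1 := hball p hp
    exact (ContinuousAt.comp (g := pr) (Pool.Agent.H62.EF.continuousAt_pr (E.cone.ne_zero ((St t).χ.σ_mem p h1).1))
      ((St t).χ.σ_an p h1).continuousAt).continuousWithinAt
  have hCmem : ∀ (t : HoTb X P Λ u b η), ∀ p ∈ closedBall (0 : ℂ × ℂ) (1 / 2), pr ((St t).χ.σ p) ∈ C := fun t p hp => by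
    rw [hCdef]
    exact Set.mem_iUnion.mpr ⟨t, p, hp, rfl⟩
  -- the open cone of the special charts
  obtain ⟨OT, hOTdef⟩ : ∃ OT : Set (EN N), OT = ⋃ t, {x | x ∈ (St t).χ.U ∧ (St t).χ.q x ∈ ball (0 : ℂ × ℂ) (7 / 8)} := ⟨_, rfl⟩
  have hOTo : IsOpen OT := by
    rw [hOTdef]
    exact isOpen_iUnion fun t => HoF_open (St t).χ isOpen_ball
  have hOTs : ∀ x ∈ OT, ∀ c : ℂ, c ≠ 0 → c • x ∈ OT := by
    intro x hx c hc
    rw [hOTdef] at hx ⊢
    obtain ⟨t, ht⟩ := Set.mem_iUnion.mp hx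
    exact Set.mem_iUnion.mpr ⟨t, HoF_smul (St t).χ ht hc⟩
  -- the cover
  have hcov : ∀ y ∈ pr '' HoFb X Λ u b, ∃ V ∈ 𝓝 y, (∀ x ∈ HoFb X Λ u b, pr x ∈ V → x ∈ OT) ∨
      ∃ S : HCh X, HOk P Λ u b η S ∧ HBd α b S ∧ ¬ S.Sp ∧ (∀ p ∈ ball (0 : ℂ × ℂ) 2, pr (S.χ.σ p) ∉ C) ∧
        ∀ x ∈ HoFb X Λ u b, pr x ∈ V → x ∈ S.χ.U ∧ CenS (S.χ.q x) := by
    rintro y ⟨x, hx, rfl⟩
    have hx0 : x ≠ 0 := E.cone.ne_zero hx.1
    by_cases hxO : x ∈ OT
    · obtain ⟨r', hr', h1⟩ := HoF_near hOTo hOTs hxO hx0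
      exact ⟨ball (pr x) r', Metric.ball_mem_nhds _ hr', Or.inl fun x' hx' hd => h1 x' (E.cone.ne_zero hx'.1) hd⟩
    · have hxC : pr x ∉ C := by
        intro h
        rw [hCdef] at h
        obtain ⟨t, p, hp, h1⟩ := Set.mem_iUnion.mp h
        obtain ⟨h2, h3⟩ := HoF_of_pr E.cone (St t).χ hx0 (hball p hp) h1.symm
        apply hxO
        rw [hOTdef]
        refine Set.mem_iUnion.mpr ⟨t, h2, ?_⟩
        rw [h3, mem_ball_zero_iff]
        rw [mem_closedBall_zero_iff] at hp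
        linarith
      have hxT : pr x ∉ HoTb X P Λ u b η := by
        intro h
        obtain ⟨h2, h3⟩ := HoF_of_pr E.cone (St ⟨_, h⟩).χ hx0 (mem_ball_self (by norm_num)) (hcen ⟨_, h⟩).symm
        apply hxO
        rw [hOTdef]
        refine Set.mem_iUnion.mpr ⟨⟨_, h⟩, h2, ?_⟩
        rw [h3]
        exact mem_ball_self (by norm_num)
      obtain ⟨d, hd, hdC⟩ := Metric.isOpen_iff.mp hC.isClosed.isOpen_compl (pr x) hxC
      obtain ⟨S, hS, hbdS, hxU, hxq, hnr⟩ := exists_hch E hlog hb hx.1 hx.2 (lt_min hη hd)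
      have hS2 : HOk P Λ u b η S := HoF_mono (min_le_left _ _) hS
      have hA : IsOpen {p : ℂ × ℂ | CenS p} := by
        have h1 : {p : ℂ × ℂ | CenS p} = {p : ℂ × ℂ | ‖p.1‖ < 3 / 8} ∩ {p : ℂ × ℂ | ‖p.2‖ < 7 / 8} := rfl
        rw [h1]
        exact (isOpen_lt (continuous_norm.comp continuous_fst) continuous_const).inter
          (isOpen_lt (continuous_norm.comp continuous_snd) continuous_const)
      have hx1 : x ∈ {x | x ∈ S.χ.U ∧ S.χ.q x ∈ {p : ℂ × ℂ | CenS p}} := by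
        refine ⟨hxU, ?_⟩
        rw [hxq]
        constructor
        · show ‖(0 : ℂ)‖ < 3 / 8
          rw [norm_zero]
          norm_num
        · show ‖(0 : ℂ)‖ < 7 / 8
          rw [norm_zero]
          norm_num
      obtain ⟨r', hr', h1⟩ := HoF_near (HoF_open S.χ hA) (fun x hx c hc => HoF_smul S.χ hx hc) hx1 hx0
      refine ⟨ball (pr x) r', Metric.ball_mem_nhds _ hr', Or.inr ⟨S, hS2, hbdS, ?_, ?_, fun x' hx' hd' => h1 x' (E.cone.ne_zero hx'.1) hd'⟩⟩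
      · intro hsp'
        exact hxT ⟨x, hx, rfl, S, hS2, hsp', hxU, hxq⟩
      · intro p hp h
        exact hdC (lt_of_lt_of_le (hnr p hp) (min_le_right _ _)) h
  choose! V hV hVS using hcov
  obtain ⟨t, htK, htcov⟩ := hK.elim_nhds_subcover V hV
  obtain ⟨J, hJdef⟩ : ∃ J : Set (MN N), J = {y | y ∈ t ∧ ∃ S : HCh X, HOk P Λ u b η S ∧ HBd α b S ∧ ¬ S.Sp ∧
    (∀ p ∈ ball (0 : ℂ × ℂ) 2, pr (S.χ.σ p) ∉ C) ∧ ∀ x ∈ HoFb X Λ u b, pr x ∈ V y → x ∈ S.χ.U ∧ CenS (S.χ.q x)} := ⟨_, rfl⟩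
  have hJfin : Finite J := by
    have h1 : J.Finite := t.finite_toSet.subset (by rw [hJdef]; exact fun y hy => hy.1)
    exact h1.to_subtype
  have hJS : ∀ j : J, ∃ S : HCh X, HOk P Λ u b η S ∧ HBd α b S ∧ ¬ S.Sp ∧
      (∀ p ∈ ball (0 : ℂ × ℂ) 2, pr (S.χ.σ p) ∉ C) ∧ ∀ x ∈ HoFb X Λ u b, pr x ∈ V j → x ∈ S.χ.U ∧ CenS (S.χ.q x) := by
    rintro ⟨j, hj⟩
    rw [hJdef] at hj
    exact hj.2
  choose SJ hokJ hbdJ hspJ hfarJ hcovJ using hJS
  obtain ⟨cc, hcc⟩ : ∃ cc : (HoTb X P Λ u b η) ⊕ J → HCh X, cc = Sum.elim St SJ := ⟨_, rfl⟩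
  have hfam : HFam P Λ u b η ((HoTb X P Λ u b η) ⊕ J) cc := by
    refine ⟨?_, fun l hl h => hinj l hl (by linarith), ?_, ?_⟩
    · rintro (k | k)
      · rw [hcc]; exact hok k
      · rw [hcc]; exact hokJ k
    · rintro (i | i) j hij hspi p hp1 hp2 hmem
      · have hp : p ∈ closedBall (0 : ℂ × ℂ) (1 / 2) := by
          rw [mem_closedBall_zero_iff, Prod.norm_def]
          exact max_le hp1 hp2
        have hp' := hball p hp
        rw [hcc] at hmem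
        have hX1 : (St i).χ.σ p ∈ X := ((St i).χ.σ_mem p hp').1
        rcases j with j | j
        · have hmem' : (St i).χ.σ p ∈ (St j).χ.U := hmem
          have h1 := HoF_pr (St j).χ hX1 hmem'
          have h2 := ((St j).χ.surj _ hX1 hmem').1
          have h3 := hnear j _ h2
          have h4 := hnear i p hp'
          rw [h1] at h4
          have hne : (i : MN N) ≠ j := fun h => hij (by rw [Subtype.ext h])
          have h5 := hrT i i.2 j j.2 hne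
          have h6 := dist_triangle_left (i : MN N) j (pr ((St j).χ.σ ((St j).χ.q ((St i).χ.σ p))))
          linarith
        · have hmem' : (St i).χ.σ p ∈ (SJ j).χ.U := hmem
          have h1 := HoF_pr (SJ j).χ hX1 hmem'
          have h2 := ((SJ j).χ.surj _ hX1 hmem').1
          apply hfarJ j _ h2
          rw [← h1]
          exact hCmem i p hp
      · rw [hcc] at hspi
        exact hspJ i hspi
    · obtain ⟨O, hOdef⟩ : ∃ O : Set (EN N), O = ⋃ k, {x | x ∈ (cc k).χ.U ∧ (cc k).χ.q x ∈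
        {p : ℂ × ℂ | CenS p ∨ 1 ≤ (cc k).c ∧ CenS p.swap}} := ⟨_, rfl⟩
      have hOo : IsOpen O := by
        rw [hOdef]
        refine isOpen_iUnion fun k => HoF_open (cc k).χ ?_
        have hA : IsOpen {p : ℂ × ℂ | CenS p} := by
          have h1 : {p : ℂ × ℂ | CenS p} = {p : ℂ × ℂ | ‖p.1‖ < 3 / 8} ∩ {p : ℂ × ℂ | ‖p.2‖ < 7 / 8} := rfl
          rw [h1]
          exact (isOpen_lt (continuous_norm.comp continuous_fst) continuous_const).inter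
            (isOpen_lt (continuous_norm.comp continuous_snd) continuous_const)
        have hA' : IsOpen {p : ℂ × ℂ | CenS p.swap} := hA.preimage continuous_swap
        by_cases hc : 1 ≤ (cc k).c
        · have h1 : {p : ℂ × ℂ | CenS p ∨ 1 ≤ (cc k).c ∧ CenS p.swap} = {p : ℂ × ℂ | CenS p} ∪ {p : ℂ × ℂ | CenS p.swap} := by
            ext p
            simp [hc]
          rw [h1]
          exact hA.union hA'
        · have h1 : {p : ℂ × ℂ | CenS p ∨ 1 ≤ (cc k).c ∧ CenS p.swap} = {p : ℂ × ℂ | CenS p} := by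
            ext p
            simp [hc]
          rw [h1]
          exact hA
      have hOs : ∀ x ∈ O, ∀ c : ℂ, c ≠ 0 → c • x ∈ O := by
        intro x hx c hc
        rw [hOdef] at hx ⊢
        obtain ⟨k, hk⟩ := Set.mem_iUnion.mp hx
        exact Set.mem_iUnion.mpr ⟨k, HoF_smul (cc k).χ hk hc⟩
      have hOF : ∀ x ∈ X, u x - b ∈ Λ → x ∈ O := by
        intro x hx hux
        have hxF : x ∈ HoFb X Λ u b := ⟨hx, hux⟩
        have h1 := htcov (Set.mem_image_of_mem pr hxF)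
        simp only [Set.mem_iUnion] at h1
        obtain ⟨y, hy, hxV⟩ := h1
        rw [hOdef]
        rcases hVS y (htK y hy) with h2 | h2
        · have h3 := h2 x hxF hxV
          rw [hOTdef] at h3
          obtain ⟨t', h4, h5⟩ := Set.mem_iUnion.mp h3
          refine Set.mem_iUnion.mpr ⟨Sum.inl t', ?_⟩
          rw [hcc]
          exact ⟨h4, HoF_cross E.tor hinj (hok t') hη hxF h4 h5⟩
        · have hyJ : y ∈ J := by
            rw [hJdef]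
            exact ⟨hy, h2⟩
          have h3 := hcovJ ⟨y, hyJ⟩ x hxF hxV
          refine Set.mem_iUnion.mpr ⟨Sum.inr ⟨y, hyJ⟩, ?_⟩
          rw [hcc]
          exact ⟨h3.1, Or.inl h3.2⟩
      obtain ⟨s, hs, h1⟩ := HoF_lim E.toLFib b hOo hOs hOF
      refine ⟨s, hs, fun z hz x hx hux => ?_⟩
      have h2 := h1 z hz x hx hux
      rw [hOdef] at h2
      obtain ⟨k, hk⟩ := Set.mem_iUnion.mp h2
      exact ⟨k, hk.1, hk.2⟩
  obtain ⟨n, ⟨e⟩⟩ := Finite.exists_equiv_fin ((HoTb X P Λ u b η) ⊕ J)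
  refine ⟨η, n, fun k => cc (e.symm k), hη, HoF_tr e hfam, fun k => ?_⟩
  show HBd α b (cc (e.symm k))
  rcases e.symm k with k' | k'
  · rw [hcc]; exact hbd k'
  · rw [hcc]; exact hbdJ k'

end Pool.Agent.H18.LU

end
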