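import Pool.Agent.H94.CB.M224
import Pool.Agent.H94.CB.M228
import Pool.Agent.H94.CB.M230
import Pool.Agent.H94.CB.M232
import Pool.Agent.H94.CB.M233

/-! The parts of this file: H18.LU.HoN_1, H18.LU.HoX, H18.LU.JnL_1, H18.LU.CsL_1. -/

section

/-!
# LU HoN: near points near a bad fibre are near in a cell

`pth M i p v` is the point with `h`-coordinate `h + v` if `p` has `h`-coordinate `h` (`pth_X`: direct computation with `Complex.exp_add`).

`hole_near`: `so_unifK` with `K = {z | r₀ ≤ ‖z - b‖ ∧ ‖z - b‖ ≤ R₀}` and `Q r z y :=` the conclusion for all `x, x'` with `pr x = y`, `dist (pr x') y ≤ r`.  `hloc` at `(f, w)`: `f w = pr x₀`, `x₀ ∈ X` (`so_lift_at`), `x₀ ∉ P` (`so_notP`).  Suppose that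
no `r` works: for `r = 1/(n+1)` there are `z n → w`, `y n → f w`, `x n`, `x' n`, `i n` with `pr (x n) = y n`, `pr (x' n) → f w` for which the conclusion is false; along an ultrafilter `i n = i` is constant (`H.fin`) and `p n = q (x n) → p₀` (`CenS` is
bounded), `‖p₀.1‖ ≤ 3/8`, `‖p₀.2‖ ≤ 7/8`, so `p₀ ∈ ball 0 1`, `Cen p₀`, `pr (σ p₀) = f w` (`y n = pr (σ (p n))` by `surj`).  So `x₀ ∈ U`, `q x₀ = p₀` (`hole_point`); `x' n ∈ U` and `q (x' n) → p₀` (`near_of_pr` at `x₀`: `U` is an open cone, `q` is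
continuous and invariant).  `M.u i (p n) = z n - b = M.u i (q (x' n))` (`hole_u`); in the limit `M.u i p₀ = w - b ≠ 0`, so `p₀.1 ≠ 0`, and `p₀.2 ≠ 0` if `ex i` (`hole_L`).
With `p = p n`, `p' = q (x' n)`: `v = Complex.log (p'.2 / p.2)` if `ex i = true`, `v = p'.2 - p.2` otherwise; `v → 0`.  The second coordinate of `pth p v` is `p'.2`; the quotient `ζ` of the first coordinates satisfies `ζ ^ a = 1`
(`p.1 ^ a p.2 ^ b = p'.1 ^ a p'.2 ^ b`; if `ex = false` then `b = 0`: `H.M.b_ex`) and `ζ → 1`, so `ζ = 1` eventually (`(ζ - 1) ∑ ζ ^ j = 0`, the sum tends to `a ≠ 0`).  `pth p (θ v) → p₀` uniformly in `θ ∈ [0, 1]`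
(`‖θ v‖ ≤ ‖v‖ → 0`, `pth` is continuous at `(p₀, 0)`), so it is in `ball 0 2` and `dist (pr (σ (pth p (θ v)))) (y n) ≤ ε` eventually (`pr ∘ σ` is continuous at `p₀`).  `Cen p'` eventually.  Contradiction.
-/

set_option autoImplicit false

open Topology Filter Metric

namespace Pool.Agent.H18.LU

attribute [-instance] ProperSMul.toContinuousSMul

open Pool.Agent.H36.BP (EN fs wd IsGermChart)
open Pool.Agent.H14.PP (IsCone Chart Tan CurveAt)
open Pool.Agent.H62.EF (Lat MN pr TorusMap Sec Charts DU)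
open Pool.Agent.H62.EL (Gd Ag BadSet IsNC TForm Mon mo)
open Pool.Agent.EG.RL (Model Atl Cen Bphi)

variable {N : ℕ} {X D P : Set (EN N)} {Λ Γ : AddSubgroup ℂ} {u : EN N → ℂ} {B : Set ℂ} {δ : ℝ} {b : ℂ} {α : TForm (X \ P) Λ u}

theorem hole_near (E : LData X D P Λ Γ u B δ) (H : Hole X P Λ u b α) {r₀ R₀ ε : ℝ} (hr₀ : 0 < r₀) (hR₀ : R₀ < H.M.ρ)
    (hB : ∀ z, r₀ ≤ ‖z - b‖ → ‖z - b‖ ≤ R₀ → z ∉ B) (hε : 0 < ε) : ∃ r₁ ε₀ : ℝ, 0 < r₁ ∧ 0 < ε₀ ∧
    ∀ z, r₀ ≤ ‖z - b‖ → ‖z - b‖ ≤ R₀ → ∀ f ∈ SO X D Λ u B (ball z r₁), ∀ x ∈ X \ P, ∀ x' ∈ X \ P, u x - z ∈ Λ → u x' - z ∈ Λ → pr x = f z →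
      dist (pr x') (f z) ≤ ε₀ → ∀ i, x ∈ (H.χ i).U → CenS ((H.χ i).q x) → x' ∈ (H.χ i).U ∧ Cen ((H.χ i).q x') ∧
        ∃ v : ℂ, pth H.M.toAtl i ((H.χ i).q x) v = (H.χ i).q x' ∧ ∀ θ ∈ Set.Icc (0 : ℝ) 1,
          pth H.M.toAtl i ((H.χ i).q x) (θ * v) ∈ ball (0 : ℂ × ℂ) 2 ∧ dist (pr ((H.χ i).σ (pth H.M.toAtl i ((H.χ i).q x) (θ * v)))) (f z) ≤ ε := by
  have hfin := H.fin
  set K : Set ℂ := {z | r₀ ≤ ‖z - b‖ ∧ ‖z - b‖ ≤ R₀} with hKdef
  have hK : IsCompact K := by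
    refine (isCompact_closedBall b R₀).of_isClosed_subset ?_ ?_
    · have hc : Continuous (fun z : ℂ => ‖z - b‖) := by fun_prop
      exact (isClosed_le continuous_const hc).inter (isClosed_le hc continuous_const)
    · intro z hz
      rw [mem_closedBall, dist_eq_norm]
      exact hz.2
  set Q : ℝ → ℂ → MN N → Prop := fun r z y => ∀ x ∈ X \ P, ∀ x' ∈ X \ P, u x - z ∈ Λ → u x' - z ∈ Λ → pr x = y →
      dist (pr x') y ≤ r → ∀ i, x ∈ (H.χ i).U → CenS ((H.χ i).q x) → x' ∈ (H.χ i).U ∧ Cen ((H.χ i).q x') ∧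
        ∃ v : ℂ, pth H.M.toAtl i ((H.χ i).q x) v = (H.χ i).q x' ∧ ∀ θ ∈ Set.Icc (0 : ℝ) 1,
          pth H.M.toAtl i ((H.χ i).q x) (θ * v) ∈ ball (0 : ℂ × ℂ) 2 ∧
            dist (pr ((H.χ i).σ (pth H.M.toAtl i ((H.χ i).q x) (θ * v)))) y ≤ ε with hQdef
  have key := so_unifK E hK (fun z hz => hB z hz.1 hz.2) Q ?_ ?_
  · obtain ⟨r₁, ε₀, h1, h2, h3⟩ := key
    exact ⟨r₁, ε₀, h1, h2, fun z hz1 hz2 f hf x hx x' hx' hux hux' hpx hpx' i => h3 z ⟨hz1, hz2⟩ f hf x hx x' hx' hux hux' hpx hpx' i⟩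
  · intro r r' z y _ hle hQ x hx x' hx' hux hux' hpx hpx' i
    exact hQ x hx x' hx' hux hux' hpx (hpx'.trans hle) i
  · intro f hf w hw
    have hwB : w ∉ B := hB w hw.1 hw.2
    have hwρ : w ∈ ball b H.M.ρ := by
      rw [mem_ball, dist_eq_norm]
      exact lt_of_le_of_lt hw.2 hR₀
    have hwb : w ≠ b := by
      rintro rfl
      have := hw.1
      rw [sub_self, norm_zero] at this
      exact absurd hr₀ (not_lt.2 this)
    obtain ⟨x₁, hx₁X, hx₁u, hx₁f⟩ := so_lift_at E isOpen_univ hf (Set.mem_univ w) hwB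
    have hnP := so_notP E hf hwB
    -- the statement for the points in a set, in one chart
    have hall : ∀ i, ∀ᶠ r in 𝓝[>] (0 : ℝ), HoN_R E H R₀ ε f w i {p | ‖p.1‖ ≤ 3 / 8 ∧ ‖p.2‖ ≤ 7 / 8} r := by
      intro i
      have hC : IsCompact {p : ℂ × ℂ | ‖p.1‖ ≤ 3 / 8 ∧ ‖p.2‖ ≤ 7 / 8} := by
        refine ((isCompact_closedBall (0 : ℂ) (3 / 8)).prod (isCompact_closedBall (0 : ℂ) (7 / 8))).of_isClosed_subset ?_ ?_
        · have hc1 : Continuous (fun p : ℂ × ℂ => ‖p.1‖) := by fun_prop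
          have hc2 : Continuous (fun p : ℂ × ℂ => ‖p.2‖) := by fun_prop
          exact (isClosed_le hc1 continuous_const).inter (isClosed_le hc2 continuous_const)
        · rintro p ⟨h1, h2⟩
          exact ⟨by simpa using h1, by simpa using h2⟩
      refine hC.induction_on (p := fun S => ∀ᶠ r in 𝓝[>] (0 : ℝ), HoN_R E H R₀ ε f w i S r) ?_ ?_ ?_ ?_
      · exact Filter.Eventually.of_forall fun r z _ y _ x _ x' _ _ _ _ _ _ hmem => absurd hmem (Set.notMem_empty _)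
      · intro S T hST hT
        filter_upwards [hT] with r hr z hz y hy x hx x' hx' hux hux' hpx hpx' hxU hmem
        exact hr z hz y hy x hx x' hx' hux hux' hpx hpx' hxU (hST hmem)
      · intro S T hS hT
        filter_upwards [hS, hT] with r hr hr' z hz y hy x hx x' hx' hux hux' hpx hpx' hxU hmem
        rcases hmem with hmem | hmem
        · exact hr z hz y hy x hx x' hx' hux hux' hpx hpx' hxU hmem
        · exact hr' z hz y hy x hx x' hx' hux hux' hpx hpx' hxU hmem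
      · intro p₀ hp₀
        obtain ⟨V, hV, hVr⟩ := HoN_point E H hR₀ hε (f := f) hwρ hwb hx₁X hx₁u hx₁f hnP i hp₀.1 hp₀.2
        exact ⟨V, mem_nhdsWithin_of_mem_nhds hV, hVr⟩
    have hall' := (Filter.eventually_all.2 hall).and self_mem_nhdsWithin
    obtain ⟨r, hr, hr0⟩ := hall'.exists
    refine ⟨r, hr0, fun z hz hzw y hy x hx x' hx' hux hux' hpx hpx' i hxU hCen => ?_⟩
    exact hr i z hz.2 y hy x hx x' hx' hux hux' hpx hpx' hxU ⟨hCen.1.le, hCen.2.le⟩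

end Pool.Agent.H18.LU

end

section

/-!
# LU HoX: the integral extends over the bad fibre

`exists_hole`: `exists_hfam`, `exists_hole_of`.
`ring_gd`: `BadSet.sep`: the other points of `B` are at distance `≥ 8δ - 3δ`.
`hole_cross`: `r₂`, `ε₀` from `hole_near` (with `r₀ = δ`, `R₀ = 3δ`, `ε := 2ε`), `r₂ ≥ r₁`, `ε₀ ≤ ε₁`.  Let `A w = II α ε (b + w) (pr (F (b + w))) (pr (G (b + w)))`.  For `z` with `δ ≤ ‖z - b‖ ≤ 3δ`: `ball z r₂ ⊆ ball b (3δ + r₂)`, so
`pr ∘ F`, `pr ∘ G ∈ SO (ball z r₂)` (`sec_so`) and `hcap`, `hrel` apply (`z ∈ Gd B δ`, `ring_gd`).  `A` is analytic for `δ < ‖w‖ < 3δ` (`II_analyticL` with `Ω = ball b (3δ + r₂)`).  `rl` with `r = 2δ`, `r' = 5δ/2 < 3δ ≤ H.M.ρ / 2`: `Hol`, `Cov`: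
`hole_sec`; `Start` at `t₀`, `re t₀ = log (2δ)`: `‖exp t₀‖ = 2δ`; `H.cov` at `F (b + exp t₀)` gives `i`; `hole_near` (`x = F z₀`, `x' = G z₀`, both in `X \ P`: `P ⊆ D`) and `hole_start` with `ε' = 2ε < r = 3ε`.
Result: `B` on `ball 0 R`, `2δ < R`, `B = A` near the circle `‖w‖ = 2δ`.  `J z = if ‖z - b‖ < 2δ then B (z - b) else A (z - b)`: differentiable on `ball b (3δ)` (near the circle it is both).  `J = A` for `δ < ‖w‖ < 2δ`: identity theorem on the
annulus `δ < ‖w‖ < min R (3δ)` (preconnected, e.g. image of a connected set under `exp`).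
-/

set_option autoImplicit false

open Topology Filter Metric

namespace Pool.Agent.H18.LU

attribute [-instance] ProperSMul.toContinuousSMul

open Pool.Agent.H36.BP (EN fs wd IsGermChart)
open Pool.Agent.H14.PP (IsCone Chart Tan CurveAt)
open Pool.Agent.H62.EF (Lat MN pr TorusMap Sec Charts DU)
open Pool.Agent.H62.EL (Gd Ag BadSet IsNC TForm Mon mo Cap IRel II)
open Pool.Agent.EG.RL (Model Atl Cen Bphi Start)

variable {N : ℕ} {X D P : Set (EN N)} {Λ Γ : AddSubgroup ℂ} {u : EN N → ℂ} {B : Set ℂ} {δ : ℝ} {b : ℂ} {α : TForm (X \ P) Λ u}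

theorem exists_hole (E : LData X D P Λ Γ u B δ) (hlog : LogP α) (hb : b ∈ B) : Nonempty (Hole X P Λ u b α) := by
  obtain ⟨η, n, c, hη, hF, hbd⟩ := exists_hfam E hlog hb
  exact exists_hole_of E hη hF hbd

theorem ring_gd (hB : BadSet B Λ δ) (hb : b ∈ B) {z : ℂ} (h1 : δ ≤ ‖z - b‖) (h2 : ‖z - b‖ ≤ 3 * δ) : z ∈ Gd B δ := by
  intro b' hb'
  by_cases hbb : b = b'
  · rw [← hbb]
    exact h1
  · have h8 := hB.sep b hb b' hb' hbb
    have h0 := hB.pos
    have h9 : ‖b - b'‖ ≤ ‖z - b'‖ + ‖z - b‖ := by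
      have : b - b' = (z - b') - (z - b) := by ring
      rw [this]
      exact norm_sub_le _ _
    linarith

private theorem HoX_preconn {a c : ℝ} (ha : 0 < a) (hc : 0 < c) : IsPreconnected {z : ℂ | a < ‖z‖ ∧ ‖z‖ < c} := by
  have h1 : IsPreconnected ({z : ℂ | Real.log a < z.re} ∩ {z : ℂ | z.re < Real.log c}) :=
    ((convex_halfSpace_re_gt (Real.log a)).inter (convex_halfSpace_re_lt (Real.log c))).isPreconnected
  have h2 := h1.image Complex.exp Complex.continuous_exp.continuousOn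
  have h3 : Complex.exp '' ({z : ℂ | Real.log a < z.re} ∩ {z : ℂ | z.re < Real.log c}) = {z : ℂ | a < ‖z‖ ∧ ‖z‖ < c} := by
    ext z
    constructor
    · rintro ⟨w, ⟨hw1, hw2⟩, rfl⟩
      have hw1' : Real.log a < w.re := hw1
      have hw2' : w.re < Real.log c := hw2
      refine ⟨?_, ?_⟩
      · rw [Complex.norm_exp]
        exact (Real.log_lt_iff_lt_exp ha).1 hw1'
      · rw [Complex.norm_exp]
        exact (Real.lt_log_iff_exp_lt hc).1 hw2'
    · rintro ⟨hz0, hz1⟩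
      have h0 : z ≠ 0 := norm_pos_iff.1 (ha.trans hz0)
      refine ⟨Complex.log z, ⟨?_, ?_⟩, Complex.exp_log h0⟩
      · show Real.log a < (Complex.log z).re
        rw [Complex.log_re]
        exact Real.log_lt_log ha hz0
      · show (Complex.log z).re < Real.log c
        rw [Complex.log_re]
        exact Real.log_lt_log (ha.trans hz0) hz1
  rwa [h3] at h2

theorem hole_cross (E : LData X D P Λ Γ u B δ) (hb : b ∈ B) (H : Hole X P Λ u b α) (hρ : 6 * δ < H.M.ρ) {ε ε₁ r₁ R : ℝ} (hε : 0 < ε)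
    (hε₁ : 0 < ε₁) (hr₁ : 0 < r₁) (hR : ∀ z, ‖z - b‖ ≤ 3 * δ → z ∈ Nb Λ R) (hcap : HasCap X D P Λ u B δ R r₁ (3 * ε))
    (hrel : HasRel D B α δ R r₁ ε ε₁) : ∃ r₂ ε₀ : ℝ, 0 < r₂ ∧ 0 < ε₀ ∧ ∀ F G : ℂ → EN N,
      (∀ z ∈ ball b (3 * δ + r₂), SecAt X D Λ u F z ∧ SecAt X D Λ u G z) →
      (∀ z, δ ≤ ‖z - b‖ → ‖z - b‖ ≤ 3 * δ → dist (pr (F z)) (pr (G z)) ≤ ε₀) →
      ∃ J : ℂ → ℂ, DifferentiableOn ℂ J (ball b (3 * δ)) ∧
        ∀ z, δ < ‖z - b‖ → ‖z - b‖ < 3 * δ → J z = II α ε z (pr (F z)) (pr (G z)) := by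
  have hδ := E.bad.pos
  have hringB : ∀ z, δ ≤ ‖z - b‖ → ‖z - b‖ ≤ 3 * δ → z ∉ B := by
    intro z h1 h2 hzB
    have h3 := ring_gd E.bad hb h1 h2 z hzB
    rw [sub_self, norm_zero] at h3
    linarith
  obtain ⟨r₂, ε₂, hr₂, hε₂, hnear⟩ := hole_near E H (r₀ := δ) (R₀ := 3 * δ) (ε := 2 * ε) hδ (by linarith) hringB (by linarith)
  refine ⟨max r₁ r₂, min ε₁ ε₂, lt_max_of_lt_left hr₁, lt_min hε₁ hε₂, fun F G hFG hcl => ?_⟩
  set r₃ : ℝ := max r₁ r₂ with hr₃
  have hr₁₃ : r₁ ≤ r₃ := le_max_left _ _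
  have hr₂₃ : r₂ ≤ r₃ := le_max_right _ _
  have hr₃0 : 0 < r₃ := hr₁.trans_le hr₁₃
  have hfS : (fun z => pr (F z)) ∈ SO X D Λ u B (ball b (3 * δ + r₃)) := sec_so fun z hz => (hFG z hz).1
  have hgS : (fun z => pr (G z)) ∈ SO X D Λ u B (ball b (3 * δ + r₃)) := sec_so fun z hz => (hFG z hz).2
  have hsub : ∀ (z : ℂ) (r : ℝ), ‖z - b‖ ≤ 3 * δ → r ≤ r₃ → ball z r ⊆ ball b (3 * δ + r₃) := by
    intro z r hz hr
    refine ball_subset_ball' ?_
    rw [dist_eq_norm]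
    linarith
  have hmem : ∀ z : ℂ, ‖z - b‖ ≤ 3 * δ → z ∈ ball b (3 * δ + r₃) := fun z hz => by
    rw [mem_ball, dist_eq_norm]
    linarith
  have hsec : ∀ z : ℂ, ‖z - b‖ ≤ 3 * δ → SecAt X D Λ u F z ∧ SecAt X D Λ u G z := fun z hz => hFG z (hmem z hz)
  have hnotP : ∀ {F : ℂ → EN N} {z : ℂ}, SecAt X D Λ u F z → F z ∈ X \ P := fun h =>
    ⟨h.mem.1, fun hP => h.mem.2.1 (E.P_sub hP)⟩
  -- the integral near the ring
  have hcapz : ∀ z : ℂ, δ ≤ ‖z - b‖ → ‖z - b‖ ≤ 3 * δ →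
      (∃ (χ : Chart (X \ P)) (c : ℂ) (ρ : ℝ), Cap Λ u χ c ρ z (pr (F z)) (3 * ε)) ∧ ∃ v, IRel α ε z (pr (F z)) (pr (G z)) v := by
    intro z h1 h2
    have hgd := ring_gd E.bad hb h1 h2
    have hfz := so_anti (hsub z r₁ h2 hr₁₃) hfS
    refine ⟨hcap z hgd (hR z h2) _ hfz, ?_⟩
    exact hrel z hgd (hR z h2) _ hfz (G z) (hnotP (hsec z h2).2) (hsec z h2).2.mem.2.2 ((hcl z h1 h2).trans (min_le_left _ _))
  have hring : ∀ z : ℂ, δ < ‖z - b‖ → ‖z - b‖ < 3 * δ → ∀ᶠ w in 𝓝 z, δ < ‖w - b‖ ∧ ‖w - b‖ < 3 * δ := by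
    intro z h1 h2
    have hc : ContinuousAt (fun w : ℂ => ‖w - b‖) z := (continuous_id.sub continuous_const).norm.continuousAt
    exact (hc.eventually (lt_mem_nhds h1)).and (hc.eventually (gt_mem_nhds h2))
  have hcapev : ∀ z : ℂ, δ < ‖z - b‖ → ‖z - b‖ < 3 * δ → ∀ᶠ w in 𝓝 z,
      (∃ (χ : Chart (X \ P)) (c : ℂ) (ρ : ℝ), Cap Λ u χ c ρ w (pr (F w)) (3 * ε)) ∧ ∃ v, IRel α ε w (pr (F w)) (pr (G w)) v := by
    intro z h1 h2
    filter_upwards [hring z h1 h2] with w hw using hcapz w hw.1.le hw.2.le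
  set A' : ℂ → ℂ := fun z => II α ε z (pr (F z)) (pr (G z)) with hA'
  have hA'an : ∀ z : ℂ, δ < ‖z - b‖ → ‖z - b‖ < 3 * δ → AnalyticAt ℂ A' z := by
    intro z h1 h2
    obtain ⟨⟨χ, c, ρ, hχ⟩, -⟩ := hcapz z h1.le h2.le
    exact II_analyticL E (Ω := ball b (3 * δ + r₃)) isOpen_ball hfS hgS (hmem z h2.le) (hringB z h1.le h2.le) hχ (by linarith)
      ((hcapev z h1 h2).mono fun w hw => hw.2)
  -- the extension theorem
  have := H.fin
  obtain ⟨Bf, R', hR', hBd, hBA⟩ := Pool.Agent.EG.RL.rl H.M H.C₀_nonneg H.κ_pos H.bphi (f := fun w => pr (F (b + w)))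
    (g := fun w => pr (G (b + w))) (A := fun w => A' (b + w)) (r := 2 * δ) (r' := 5 * δ / 2) (by linarith) (by linarith) (by linarith)
    (fun z hz => hole_sec E H (by linarith) (hsec (b + z) (by
      rw [add_sub_cancel_left]
      linarith)).1)
    (fun z hz => hole_sec E H (by linarith) (hsec (b + z) (by
      rw [add_sub_cancel_left]
      linarith)).2) (by
      intro t₀ ht₀
      have hn : ‖Complex.exp t₀‖ = 2 * δ := by
        rw [Complex.norm_exp, ht₀, Real.exp_log (by linarith)]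
      have hz₀ : ‖b + Complex.exp t₀ - b‖ = 2 * δ := by rw [add_sub_cancel_left, hn]
      have h1 : δ ≤ ‖b + Complex.exp t₀ - b‖ := by rw [hz₀]; linarith
      have h2 : ‖b + Complex.exp t₀ - b‖ ≤ 3 * δ := by rw [hz₀]; linarith
      obtain ⟨hF, hG⟩ := hsec _ h2
      have hball : b + Complex.exp t₀ ∈ ball b H.M.ρ := by
        rw [mem_ball, dist_eq_norm, hz₀]
        linarith
      obtain ⟨i, hi, hci⟩ := H.cov _ hball _ hF.mem.1 hF.mem.2.2
      obtain ⟨hi', hci', v, hv, hpath⟩ := hnear _ h1 h2 (fun z => pr (F z)) (so_anti (hsub _ r₂ h2 hr₂₃) hfS) _ (hnotP hF) _ (hnotP hG)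
        hF.mem.2.2 hG.mem.2.2 rfl (by
          rw [dist_comm]
          exact (hcl _ h1 h2).trans (min_le_right _ _)) i hi hci
      exact hole_start E H (by rw [hn]; linarith) hF hG (ε := ε) (ε' := 2 * ε) (r := 3 * ε) (by linarith) (by linarith)
        (hcapev _ (by rw [hz₀]; linarith) (by rw [hz₀]; linarith)) hi hci hi' hci' hv hpath)
  -- glue
  have hannA : AnalyticOnNhd ℂ (fun w => A' (b + w)) {w : ℂ | δ < ‖w‖ ∧ ‖w‖ < min R' (3 * δ)} := by
    intro w hw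
    have h1 := hA'an (b + w) (by rw [add_sub_cancel_left]; exact hw.1) (by
      rw [add_sub_cancel_left]
      exact hw.2.trans_le (min_le_right _ _))
    exact AnalyticAt.fun_comp (f := fun w : ℂ => b + w) h1 (analyticAt_const.add analyticAt_id)
  have hannB : AnalyticOnNhd ℂ Bf {w : ℂ | δ < ‖w‖ ∧ ‖w‖ < min R' (3 * δ)} := by
    intro w hw
    have h1 : w ∈ ball (0 : ℂ) R' := by
      rw [mem_ball_zero_iff]
      exact hw.2.trans_le (min_le_left _ _)
    exact hBd.analyticAt (isOpen_ball.mem_nhds h1)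
  have heq : Set.EqOn Bf (fun w => A' (b + w)) {w : ℂ | δ < ‖w‖ ∧ ‖w‖ < min R' (3 * δ)} := by
    have h2δ : ‖((2 * δ : ℝ) : ℂ)‖ = 2 * δ := by
      rw [Complex.norm_real, Real.norm_eq_abs, abs_of_pos (by linarith)]
    refine hannB.eqOn_of_preconnected_of_eventuallyEq hannA (HoX_preconn hδ (lt_min (by linarith) (by linarith)))
      (z₀ := ((2 * δ : ℝ) : ℂ)) ?_ (hBA _ h2δ)
    refine ⟨?_, ?_⟩
    · rw [h2δ]
      linarith
    · rw [h2δ]
      exact lt_min hR' (by linarith)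
  refine ⟨fun z => if ‖z - b‖ < 2 * δ then Bf (z - b) else A' z, ?_, ?_⟩
  · intro z hz
    rw [mem_ball, dist_eq_norm] at hz
    refine DifferentiableAt.differentiableWithinAt ?_
    rcases lt_trichotomy ‖z - b‖ (2 * δ) with h | h | h
    · have hc : ContinuousAt (fun w : ℂ => ‖w - b‖) z := (continuous_id.sub continuous_const).norm.continuousAt
      have hev : (fun z => if ‖z - b‖ < 2 * δ then Bf (z - b) else A' z) =ᶠ[𝓝 z] fun w => Bf (w - b) := by
        filter_upwards [hc.eventually (gt_mem_nhds h)] with w hw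
        exact if_pos hw
      refine DifferentiableAt.congr_of_eventuallyEq ?_ hev
      have h1 : DifferentiableAt ℂ Bf (z - b) := hBd.differentiableAt (isOpen_ball.mem_nhds (by
        rw [mem_ball_zero_iff]
        linarith))
      exact h1.comp z (differentiableAt_id.sub_const b)
    · have h1 := (hA'an z (by linarith) (by linarith))
      refine DifferentiableAt.congr_of_eventuallyEq h1.differentiableAt ?_
      have h2 := hBA (z - b) h
      have h3 : Tendsto (fun w : ℂ => w - b) (𝓝 z) (𝓝 (z - b)) := (continuous_id.sub continuous_const).continuousAt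
      filter_upwards [h3.eventually h2] with w hw
      show (if ‖w - b‖ < 2 * δ then Bf (w - b) else A' w) = A' w
      split_ifs with h4
      · rw [hw]
        show A' (b + (w - b)) = A' w
        rw [add_sub_cancel]
      · rfl
    · have hc : ContinuousAt (fun w : ℂ => ‖w - b‖) z := (continuous_id.sub continuous_const).norm.continuousAt
      have hev : (fun z => if ‖z - b‖ < 2 * δ then Bf (z - b) else A' z) =ᶠ[𝓝 z] A' := by
        filter_upwards [hc.eventually (lt_mem_nhds h)] with w hw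
        exact if_neg (not_lt.2 (le_of_lt hw))
      exact DifferentiableAt.congr_of_eventuallyEq (hA'an z (by linarith) hz).differentiableAt hev
  · intro z h1 h2
    show (if ‖z - b‖ < 2 * δ then Bf (z - b) else A' z) = A' z
    split_ifs with h3
    · have h4 := heq (x := z - b) ⟨h1, lt_min (by linarith) h2⟩
      rw [h4]
      show A' (b + (z - b)) = A' z
      rw [add_sub_cancel]
    · rfl

end Pool.Agent.H18.LU

end

section

/-!
# LU JnL: properties of the integral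

`II_contO`: `II_eqO` for the two pairs: `IRel` gives lifts in `V` over `z` of the four points; for `y₁` near `y` (`dist y₁ y + ε ≤ r`) both values are `(A (χ.q x') - A (χ.q x)) / ρ` (`A` a primitive, `exists_prim`);
`χ.q` of the lifts depends continuously on `pr` (the private lemma `tendsto_q` of EL Jan, copy it; `dist y' y ≤ ε < r`, so the lift of `y'` is in `χ.U`, by `Cap.cap`), `A` is continuous.
`II_analyticL`: port of `II_analytic` (EL Jan): lifts in `V` from `so_liftV` (`f z₀ ∉ pr '' P` because of `hrel` at `z₀`: `f z₀ = pr (χ'.σ p)`, `χ'.σ p ∈ V = X \ P`, and `P` is a cone; same for `g`).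
`II_bddL`: `so_unif` with `Q s z y := ∀ y', ‖II α ε z y y'‖ ≤ 1 / s`; translation: `II_per` (EL JanA; `E.vTor`).  `hloc` at `(f, w)`: `hcap` at `w` for `f ∈ SO univ ⊆ SO (ball w r₁)`: `Cap` of radius `r > ε`, primitive `A`, bounded by `M`
on `closedBall 0 1`.  For `z ∈ closedBall w s`, `dist y (f w) ≤ s`, `s ≤ r - ε` small: if there is no `v` with `IRel`, `II = 0`; otherwise `II_eqO`: both lifts have `χ.q _ ∈ closedBall 0 1` (`Cap.cap`; `dist y' (f w) ≤ ε + s ≤ r`):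
`‖II‖ ≤ 2 M / ρ ≤ 1 / s` for `s` small.
-/

set_option autoImplicit false

open Topology Filter Metric

namespace Pool.Agent.H18.LU

attribute [-instance] ProperSMul.toContinuousSMul

open Pool.Agent.H36.BP (EN fs wd IsGermChart)
open Pool.Agent.H14.PP (IsCone Chart Tan CurveAt)
open Pool.Agent.H62.EF (Lat MN pr TorusMap Sec Charts DU)
open Pool.Agent.H62.EL (Gd Ag BadSet IsNC TForm Mon mo Cap IRel II tc IsPrim Per)

variable {N : ℕ} {X D P : Set (EN N)} {Λ Γ : AddSubgroup ℂ} {u : EN N → ℂ} {B : Set ℂ} {δ : ℝ}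

theorem II_bddL (E : LData X D P Λ Γ u B δ) {α : TForm (X \ P) Λ u} (hper : Per α Γ) {δ' R r₁ ε r : ℝ} (hδ' : 0 < δ') (hr : ε < r)
    (hr₁ : 0 < r₁) (hcap : HasCap X D P Λ u B δ' R r₁ r) :
    ∃ r₂ C : ℝ, 0 < r₂ ∧ 0 ≤ C ∧ ∀ z ∈ Gd B δ', z ∈ Nb Λ R → ∀ f ∈ SO X D Λ u B (ball z r₂), ∀ y' : MN N, ‖II α ε z (f z) y'‖ ≤ C := by
  obtain ⟨Q, hQ⟩ : ∃ Q : ℝ → ℂ → MN N → Prop, Q = fun s z y => ∀ y' : MN N, ‖II α ε z y y'‖ ≤ 1 / s := ⟨_, rfl⟩
  suffices hsuf : ∃ r₂ s : ℝ, 0 < r₂ ∧ 0 < s ∧ ∀ z ∈ Gd B δ', z ∈ Nb Λ R → ∀ f ∈ SO X D Λ u B (ball z r₂), Q s z (f z) by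
    obtain ⟨r₂, s, hr₂, hs, h⟩ := hsuf
    rw [hQ] at h
    exact ⟨r₂, 1 / s, hr₂, (one_div_pos.2 hs).le, h⟩
  refine so_unif E hδ' R Q ?_ ?_ ?_ <;> rw [hQ]
  · intro t t' z y ht' htt h y'
    exact (h y').trans (one_div_le_one_div_of_le ht' htt)
  · intro t z y l hl h y'
    rw [Pool.Agent.H62.EL.II_per E.vTor E.le hper hl ε z y y']
    exact h y'
  · intro f hf w hw hwR
    obtain ⟨χ, c, ρ, hc⟩ := hcap w hw hwR f (so_anti (Set.subset_univ _) hf)
    obtain ⟨A, hA⟩ := Pool.Agent.H62.EL.exists_prim α χ hc.mon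
    have hAc : ContinuousOn A (closedBall (0 : ℂ × ℂ) 1) := fun p hp => (hA.an p (JnL_sub hp)).continuousAt.continuousWithinAt
    obtain ⟨M, hM⟩ := (isCompact_closedBall (0 : ℂ × ℂ) 1).exists_bound_of_continuousOn hAc
    have hM0 : 0 ≤ M := (norm_nonneg _).trans (hM 0 (mem_closedBall_self zero_le_one))
    have hρ := hc.mon.pos
    have hMρ : 0 < 2 * M / ρ + 1 := by positivity
    refine ⟨min (r - ε) (2 * M / ρ + 1)⁻¹, lt_min (by linarith) (inv_pos.2 hMρ), ?_⟩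
    intro z hz y hy y'
    have hspos : 0 < min (r - ε) (2 * M / ρ + 1)⁻¹ := lt_min (by linarith) (inv_pos.2 hMρ)
    have hs1 : 2 * M / ρ + 1 ≤ 1 / min (r - ε) (2 * M / ρ + 1)⁻¹ := by
      rw [le_div_iff₀ hspos]
      have h1 := mul_le_mul_of_nonneg_left (min_le_right (r - ε) (2 * M / ρ + 1)⁻¹) hMρ.le
      rwa [mul_inv_cancel₀ hMρ.ne'] at h1
    by_cases hex : ∃ v, IRel α ε z y y' v
    · obtain ⟨⟨x, hxV, hxu, hxy⟩, ⟨x', hxV', hxu', hxy'⟩, hε, hyy⟩ := JnL_lifts hex.choose_spec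
      have hz1 : dist z w ≤ r - ε := (mem_closedBall.1 hz).trans (min_le_left _ _)
      have hy1 : dist y (f w) ≤ r - ε := (mem_closedBall.1 hy).trans (min_le_left _ _)
      have hzr : z ∈ closedBall w r := mem_closedBall.2 (by linarith)
      obtain ⟨-, hq, -⟩ := hc.cap z hzr x hxV hxu (by rw [hxy]; linarith)
      obtain ⟨-, hq', -⟩ := hc.cap z hzr x' hxV' hxu' (by
        rw [hxy']
        have := dist_triangle y' y (f w)
        linarith)
      rw [II_eqO E.vCone E.vTor E.dsc hex hc hA hzr (by linarith) hxV hxV' hxy hxy', norm_div, Complex.norm_real, Real.norm_of_nonneg hρ.le]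
      have h5 : ‖A (χ.q x') - A (χ.q x)‖ ≤ 2 * M := by
        have h6 := norm_sub_le (A (χ.q x')) (A (χ.q x))
        have h7 := hM _ hq
        have h8 := hM _ hq'
        linarith
      have h9 : ‖A (χ.q x') - A (χ.q x)‖ / ρ ≤ 2 * M / ρ := div_le_div_of_nonneg_right h5 hρ.le
      linarith
    · have h1 : II α ε z y y' = 0 := by
        unfold II
        rw [dif_neg hex]
      rw [h1, norm_zero]
      exact (one_div_pos.2 hspos).le

end Pool.Agent.H18.LU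

end

section

/-!
# LU CsL: the constants

`LData.mono`: clear.  `cap_mono'`: `HasCap` is monotone in `δ'` (larger), `R` (smaller), `r₁` (larger: `so_anti`), `r` (smaller: `cap_mono` is for `r / 2`; direct: `Cap` of a smaller radius).  `rel_mono` similar (`ε₀` smaller).

`exists_cstL`: `R₁` from `exists_rep R`; `ℬ = {b ∈ B | ‖b‖ ≤ R₁}` is finite (`8 δ₀`-separated and bounded, see `exists_reps` in EL Cst).  For `b ∈ ℬ`: a hole `H_b` (`exists_hole`).  Choose `0 < δ ≤ δ₀` with `6 δ < H_b.M.ρ` for all `b ∈ ℬ`; `E.mono`.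
`exists_capP` (`Pr = True`) with `δ' = δ`: `r₁`, `r`; `ε = r / 3`; `exists_irelL` with `ε`: `r₁'`, `ε₁`; `exists_deep`; `II_bddL`: `r₂`, `C`; `hole_cross` for the `b ∈ ℬ` with `closedBall b (3δ) ⊆ Nb Λ R`: `r_b`, `ε_b`.  `r₁` := the maximum, `ε₀` := the minimum.
`cross` for `b ∈ B`: `l ∈ Γ` with `‖b - l‖ ≤ R₁` (`b ∈ Nb Λ R`), `b' = b - l ∈ ℬ` (`BadSet.inv`, `E.le`), `closedBall b' (3δ) ⊆ Nb Λ R` (`nb_add`); apply `hole_cross` for `b'` to `F (· + l)`, `G (· + l)` (`secAt_add`), `J z = J' (z - l)` (`II_per`, `E.vTor`).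
-/

set_option autoImplicit false

open Topology Filter Metric

namespace Pool.Agent.H18.LU

attribute [-instance] ProperSMul.toContinuousSMul

open Pool.Agent.H36.BP (EN fs wd IsGermChart)
open Pool.Agent.H14.PP (IsCone Chart Tan CurveAt)
open Pool.Agent.H62.EF (Lat MN pr TorusMap Sec Charts DU)
open Pool.Agent.H62.EL (Gd Ag BadSet IsNC TForm Mon mo Cap IRel II Per)

variable {N : ℕ} {X D P : Set (EN N)} {Λ Γ : AddSubgroup ℂ} {u : EN N → ℂ} {B : Set ℂ} {δ : ℝ}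

theorem exists_cstL (E : LData X D P Λ Γ u B δ) {α : TForm (X \ P) Λ u} (hlog : LogP α) (hper : Per α Γ) (R : ℝ) :
    ∃ δ' : ℝ, 0 < δ' ∧ δ' ≤ δ ∧ LData X D P Λ Γ u B δ' ∧ ∃ r₁ ε ε₀ C : ℝ, CstL D B δ' R α r₁ ε ε₀ C := by
  classical
  obtain ⟨R₁, hR₁, hrep⟩ := E.exists_rep R
  set ℬ : Set ℂ := B ∩ closedBall (0 : ℂ) R₁ with hℬ
  have hfin : ℬ.Finite := CsL_fin E.bad R₁
  -- the holes
  have hH : ∀ b : ℂ, ∃ ρ : ℝ, 0 < ρ ∧ (b ∈ B → ∃ H : Hole X P Λ u b α, H.M.ρ = ρ) := by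
    intro b
    by_cases hb : b ∈ B
    · obtain ⟨H⟩ := exists_hole E hlog hb
      exact ⟨H.M.ρ, H.M.ρ_pos, fun _ => ⟨H, rfl⟩⟩
    · exact ⟨1, one_pos, fun h => absurd h hb⟩
  choose ρ hρ0 hρ using hH
  obtain ⟨m, hm, hmρ⟩ := CsL_lb hfin ρ hρ0
  obtain ⟨δ', hδ'd⟩ : ∃ δ' : ℝ, δ' = min δ (m / 7) := ⟨_, rfl⟩
  have hδ' : 0 < δ' := by
    rw [hδ'd]
    exact lt_min E.bad.pos (by linarith)
  have hδδ : δ' ≤ δ := by
    rw [hδ'd]
    exact min_le_left _ _
  have hδm : 6 * δ' < m := by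
    have : δ' ≤ m / 7 := by
      rw [hδ'd]
      exact min_le_right _ _
    linarith
  have E' := E.mono hδ' hδδ
  refine ⟨δ', hδ', hδδ, E', ?_⟩
  -- uniform charts
  obtain ⟨ra, r, hra, hr, hcap⟩ := exists_capP E' hδ' R (fun _ => True) (fun w _ _ f _ => ⟨1, one_pos, fun _ _ => trivial⟩)
  have hcap' : HasCap X D P Λ u B δ' R ra r := by
    intro z hz hzR f hf
    obtain ⟨χ, c, ρ, h, -⟩ := hcap z hz hzR f hf
    exact ⟨χ, c, ρ, h⟩
  have hε : 0 < r / 3 := by positivity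
  have h3 : 3 * (r / 3) = r := by ring
  obtain ⟨rb, εb, hrb, hεb, hirel⟩ := exists_irelL E' hδ' hε R
  obtain ⟨rc, hrc, hdeep⟩ := exists_deep E' hδ' R
  obtain ⟨rd, C, hrd, hC, hbdd⟩ := II_bddL E' hper hδ' (by linarith : r / 3 < r) hra hcap'
  set re : ℝ := max ra rb with hre
  have hre0 : 0 < re := lt_max_of_lt_left hra
  have hcape : HasCap X D P Λ u B δ' R re (3 * (r / 3)) := cap_mono' hcap' le_rfl le_rfl (le_max_left _ _) h3.le
  have hrele : HasRel D B α δ' R re (r / 3) εb := fun z hz hzR f hf x hx hxz hd =>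
    hirel z hz hzR f (so_anti (ball_subset_ball (le_max_right _ _)) hf) x hx hxz hd α
  -- crossing
  have hcr : ∀ b : ℂ, ∃ rb' εb' : ℝ, 0 < rb' ∧ 0 < εb' ∧ (b ∈ ℬ → closedBall b (3 * δ') ⊆ Nb Λ R → ∀ F G : ℂ → EN N,
      (∀ z ∈ ball b (3 * δ' + rb'), SecAt X D Λ u F z ∧ SecAt X D Λ u G z) →
      (∀ z, δ' ≤ ‖z - b‖ → ‖z - b‖ ≤ 3 * δ' → dist (pr (F z)) (pr (G z)) ≤ εb') →
      ∃ J : ℂ → ℂ, DifferentiableOn ℂ J (ball b (3 * δ')) ∧
        ∀ z, δ' < ‖z - b‖ → ‖z - b‖ < 3 * δ' → J z = II α (r / 3) z (pr (F z)) (pr (G z))) := by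
    intro b
    by_cases hb : b ∈ ℬ ∧ closedBall b (3 * δ') ⊆ Nb Λ R
    · obtain ⟨H, hHρ⟩ := hρ b hb.1.1
      have hbm := hmρ b hb.1
      obtain ⟨r₂, ε₂, h4, h5, h6⟩ := hole_cross E' hb.1.1 H (by rw [hHρ]; linarith) hε hεb hre0
        (fun z hz => hb.2 (by rw [mem_closedBall, dist_eq_norm]; exact hz)) hcape hrele
      exact ⟨r₂, ε₂, h4, h5, fun _ _ => h6⟩
    · exact ⟨1, 1, one_pos, one_pos, fun h1 h2 => absurd ⟨h1, h2⟩ hb⟩
  choose rf εf hrf hεf hcr using hcr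
  obtain ⟨Mr, hMr, hMr'⟩ := CsL_ub hfin rf
  obtain ⟨me, hme, hme'⟩ := CsL_lb hfin εf hεf
  set r₁ : ℝ := max (max re (max rc rd)) Mr with hr₁
  have hr₁0 : 0 < r₁ := lt_max_of_lt_right hMr
  have k1 : re ≤ r₁ := (le_max_left _ _).trans (le_max_left _ _)
  have k2 : rc ≤ r₁ := ((le_max_left _ _).trans (le_max_right _ _)).trans (le_max_left _ _)
  have k3 : rd ≤ r₁ := ((le_max_right _ _).trans (le_max_right _ _)).trans (le_max_left _ _)
  have k4 : Mr ≤ r₁ := le_max_right _ _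
  refine ⟨r₁, r / 3, min εb me, C, hr₁0, hε, lt_min hεb hme, hC, cap_mono' hcape le_rfl le_rfl k1 le_rfl, ?_,
    rel_mono' hrele le_rfl le_rfl k1 (min_le_left _ _), ?_, ?_⟩
  · intro z hz hzR f hf
    exact hdeep z hz hzR f (so_anti (ball_subset_ball k2) hf)
  · intro z hz hzR f hf y'
    exact hbdd z hz hzR f (so_anti (ball_subset_ball k3) hf) y'
  · intro b hb hbR F G hFG hcl
    obtain ⟨l, hl, hbl⟩ := hrep b (hbR (mem_closedBall_self (by linarith)))
    set b' : ℂ := b - l with hb'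
    have hlΛ : l ∈ Λ := E.le hl
    have hb'B : b' ∈ ℬ := by
      refine ⟨?_, ?_⟩
      · have := E.bad.inv b hb (-l) (Λ.neg_mem hlΛ)
        rw [← sub_eq_add_neg] at this
        exact this
      · rw [mem_closedBall_zero_iff]
        exact hbl
    have hb'R : closedBall b' (3 * δ') ⊆ Nb Λ R := by
      intro z hz
      have h1 : z + l ∈ closedBall b (3 * δ') := by
        rw [mem_closedBall, dist_eq_norm] at hz ⊢
        have e : z + l - b = z - b' := by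
          rw [hb']
          ring
        rw [e]
        exact hz
      exact (nb_add hlΛ).1 (hbR h1)
    have hn : ∀ z : ℂ, z + l - b = z - b' := fun z => by
      rw [hb']
      ring
    obtain ⟨J, hJ, hJz⟩ := hcr b' hb'B hb'R (fun z => F (z + l)) (fun z => G (z + l)) (by
      intro z hz
      have h1 : z + l ∈ ball b (3 * δ' + r₁) := by
        rw [mem_ball, dist_eq_norm] at hz ⊢
        rw [hn]
        have := (hMr' b' hb'B).trans k4
        linarith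
      exact ⟨(secAt_add hlΛ).2 (hFG _ h1).1, (secAt_add hlΛ).2 (hFG _ h1).2⟩) (by
      intro z hz1 hz2
      refine (hcl (z + l) ?_ ?_).trans ((min_le_right _ _).trans (hme' b' hb'B))
      · rw [hn]
        exact hz1
      · rw [hn]
        exact hz2)
    refine ⟨fun z => J (z - l), ?_, ?_⟩
    · refine hJ.comp (differentiable_id.sub_const l).differentiableOn ?_
      intro z hz
      rw [mem_ball, dist_eq_norm] at hz ⊢
      have : z - l - b' = z - b := by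
        rw [hb']
        ring
      show ‖z - l - b'‖ < 3 * δ'
      rw [this]
      exact hz
    · intro z hz1 hz2
      have e : z - l - b' = z - b := by
        rw [hb']
        ring
      have h2 := hJz (z - l) (by rw [e]; exact hz1) (by rw [e]; exact hz2)
      have h3 := Pool.Agent.H62.EL.II_per E.vTor E.le hper hl (r / 3) (z - l) (pr (F z)) (pr (G z))
      simp only [sub_add_cancel] at h2 h3
      show J (z - l) = _
      rw [h2, h3]

end Pool.Agent.H18.LU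

end
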