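import Pool.Agent.H94.CB.EG.LE.Grow
import Pool.Agent.H94.CB.M210
import Pool.Agent.H94.CB.M213
import Pool.Agent.H94.CB.M215
import Pool.Agent.H94.CB.M231
import Pool.Agent.H94.CB.M234

/-! The parts of this file: EG.LE.Main, H87.LV.Core. -/

section

/-!
# EG LE Main: the left end of a log surface over `ℂ^*`
-/

set_option autoImplicit false

open Topology Filter Metric Set

namespace Pool.Agent.EG.LE

attribute [-instance] ProperSMul.toContinuousSMul

open Pool.Agent.H36.BP (EN fs wd)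
open Pool.Agent.H14.PP (IsCone Tan jac)
open Pool.Agent.H62.EF (MN pr)
open Pool.Agent.H62.EL (TForm)
open Pool.Agent.EG.RL (rot Cen Model Bphi)
open Pool.Agent.H87.LU (LEnd)

variable {N : ℕ} {Xb V U D : Set (EN N)} {Λ : AddSubgroup ℂ} {u : EN N → ℂ} {α : TForm V Λ u} {κ : Type}

theorem cenS_cen {p : ℂ × ℂ} (hp : CenS p) : Cen p := ⟨by linarith [hp.1], by linarith [hp.2]⟩

/-- the cells -/
theorem cells (h : EndData Xb V U D Λ u α) (F : LFam Xb V U D α κ) : ∃ X₀ : ℝ, ∀ T₁ r₂ : ℝ, X₀ ≤ T₁ → 0 < r₂ → Away V U Λ u T₁ r₂ →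
    ∃ C r₁ : ℝ, 0 ≤ C ∧ 4 ≤ r₁ ∧ r₂ + 4 ≤ r₁ ∧ ∀ (c : ℂ) (R : ℝ) (f : ℂ → EN N) (t₁ : ℂ), c.re = 0 → SecOn U Λ u (ball c R) f →
      t₁ ∈ ball c (R - r₁) → t₁.re ≤ -T₁ → ∃ (x : Ix F) (w : ℂ → ℂ), DifferentiableOn ℂ w (ball t₁ 4) ∧
        ∀ t ∈ ball t₁ 4, CenS (F.XX x t (w t)) ∧ pr (f t) = pr (F.Phi x t (w t)) ∧ ‖w t‖ ≤ C * (1 + R) ^ 4 := by
  obtain ⟨r, X₁, hr5, hchart⟩ := cell_chart h F 5 (by norm_num)
  obtain ⟨X₂, hgrow⟩ := hbound h F
  refine ⟨max X₁ X₂, fun T₁ r₂ hT hr₂ hA => ?_⟩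
  obtain ⟨C, r₁, hC, hr₁, hb⟩ := hgrow T₁ r₂ ((le_max_right _ _).trans hT) hr₂ hA
  refine ⟨9 * C + 8 + 9 * Real.pi + 1, max (max r₁ r) (r₂ + 4), by positivity, ?_, le_max_right _ _, fun c R f t₁ hc hf ht hT1 => ?_⟩
  · exact ((by linarith : (4 : ℝ) ≤ r).trans (le_max_right _ _)).trans (le_max_left _ _)
  have hRr₁ : r₁ ≤ max (max r₁ r) (r₂ + 4) := (le_max_left _ _).trans (le_max_left _ _)
  have hRr : r ≤ max (max r₁ r) (r₂ + 4) := (le_max_right _ _).trans (le_max_left _ _)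
  set r' : ℝ := max (max r₁ r) (r₂ + 4) with hr'
  have hR : 0 < R := by
    rw [mem_ball] at ht
    have := dist_nonneg.trans_lt ht
    linarith
  have hsub : ball t₁ r ⊆ ball c R := by
    rw [mem_ball] at ht
    exact ball_subset_ball' (by linarith)
  have hfr : SecOn U Λ u (ball t₁ r) f := ⟨hf.1.mono hsub, fun s hs => hf.2 s (hsub hs)⟩
  obtain ⟨x, hx⟩ := hchart t₁ f (by linarith [(le_max_left X₁ X₂).trans hT]) hfr
  have hsub5 : ball t₁ 5 ⊆ ball t₁ r := ball_subset_ball hr5.le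
  obtain ⟨g, hg, hgim, hgX⟩ := exists_cell h F x (by norm_num : (0 : ℝ) < 5) (hfr.1.mono hsub5)
    (fun z hz => ⟨h.U_sub (hfr.2 z (hsub5 hz)).1, (hfr.2 z (hsub5 hz)).2⟩) hx
  have h45 : ball t₁ 4 ⊆ ball t₁ 5 := ball_subset_ball (by norm_num)
  refine ⟨x, g, hg.mono h45, fun t ht4 => ?_⟩
  obtain ⟨hc1, a, ha, hfa⟩ := hgX t (h45 ht4)
  refine ⟨hc1, ?_, ?_⟩
  · rw [hfa]
    exact Pool.Agent.H62.EF.pr_smul _ ha
  have h1R : (1 : ℝ) ≤ (1 + R) ^ 4 := one_le_pow₀ (by linarith)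
  by_cases hex : (F.ch x).ex = true
  · have hX2 : ∀ z, (F.XX x z (g z)).2 = Complex.exp (g z) := fun z => by
      rw [XX_eq]
      simp only [hex, if_true]
    have hre : ∀ z ∈ ball t₁ 5, (g z).re ≤ 1 := fun z hz => by
      have h1 := (hgX z hz).1.2
      rw [hX2, Complex.norm_exp] at h1
      have h2 : Real.exp (g z).re < Real.exp 0 := by
        rw [Real.exp_zero]
        linarith
      linarith [Real.exp_lt_exp.1 h2]
    have ht₁ : t₁ ∈ ball t₁ 5 := mem_ball_self (by norm_num)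
    have hre1 : |(g t₁).re| ≤ C * (1 + R) ^ 4 := by
      obtain ⟨hc2, a', ha', hfa'⟩ := hgX t₁ ht₁
      have h1 := hb c R f t₁ x _ hc hf (ball_subset_ball (by linarith) ht) hT1 hex hc2 ⟨a', ha', hfa'⟩
      rw [hX2, Complex.norm_exp, Real.log_exp] at h1
      have h2 : (g t₁).re ≤ 0 := by
        have h3 := hc2.2
        rw [hX2, Complex.norm_exp] at h3
        have h4 : Real.exp (g t₁).re < Real.exp 0 := by
          rw [Real.exp_zero]
          linarith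
        exact (Real.exp_lt_exp.1 h4).le
      rw [abs_of_nonpos h2]
      exact h1
    have hn1 : ‖g t₁‖ ≤ C * (1 + R) ^ 4 + Real.pi := (Complex.norm_le_abs_re_add_abs_im _).trans (add_le_add hre1 (hgim hex))
    have hbc := Complex.borelCaratheodory (M := 1) (R := 5) (f := fun s => g (t₁ + s)) (z := t - t₁) one_pos ?_ ?_ (by norm_num) ?_
    · rw [mem_ball, dist_eq_norm] at ht4
      simp only [add_sub_cancel, add_zero, mul_one] at hbc
      have hn := norm_nonneg (t - t₁)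
      have h5 : (0 : ℝ) < 5 - ‖t - t₁‖ := by linarith
      have h6 : 2 * ‖t - t₁‖ / (5 - ‖t - t₁‖) ≤ 8 := by
        rw [div_le_iff₀ h5]
        nlinarith
      have h7 : ‖g t₁‖ * (5 + ‖t - t₁‖) / (5 - ‖t - t₁‖) ≤ 9 * ‖g t₁‖ := by
        rw [div_le_iff₀ h5]
        nlinarith [norm_nonneg (g t₁)]
      have h8 := Real.pi_pos
      nlinarith
    · refine hg.comp (by fun_prop) fun s hs => ?_
      rw [mem_ball, dist_eq_norm, add_sub_cancel_left]
      rwa [mem_ball_zero_iff] at hs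
    · intro s hs
      refine hre _ ?_
      rw [mem_ball, dist_eq_norm, add_sub_cancel_left]
      rwa [mem_ball_zero_iff] at hs
    · rw [mem_ball_zero_iff, ← dist_eq_norm]
      exact h45 ht4
  · have hX2 : (F.XX x t (g t)).2 = g t := by
      rw [XX_eq]
      simp only [hex, Bool.false_eq_true, if_false]
    have h1 := hc1.2
    rw [hX2] at h1
    have h2 := Real.pi_pos
    nlinarith

theorem leftEnd (h : EndData Xb V U D Λ u α) : ∃ X₀ : ℝ, ∀ T₁ : ℝ, X₀ ≤ T₁ → ∀ (II : ℂ → MN N → MN N → ℂ) (r₂ : ℝ), 0 < r₂ →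
    HasII U α II r₂ (-T₁ - 10) (-T₁) → Away V U Λ u T₁ r₂ → Nonempty (LEnd (TT U Λ u) II T₁) := by
  obtain ⟨κ, ⟨F⟩⟩ := exists_fam h
  obtain ⟨M, hM⟩ := exists_model h F
  obtain ⟨C₀, hC₀, hB⟩ := bphi h F hM
  obtain ⟨ε, hε, hlink⟩ := Pool.Agent.EG.RL.linkQ M hC₀ hB
  obtain ⟨X₁, hcells⟩ := cells h F
  have hρ := M.ρ_pos
  refine ⟨max X₁ (4 - Real.log (M.ρ / 2)), fun T₁ hT II r₂ hr₂ hII hA => ?_⟩
  obtain ⟨C, r₁, hC, hr4, hr24, hcell⟩ := hcells T₁ r₂ ((le_max_left _ _).trans hT) hr₂ hA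
  have hT4 : Real.exp (-T₁ + 4) ≤ M.ρ / 2 := by
    have h1 := (le_max_right X₁ (4 - Real.log (M.ρ / 2))).trans hT
    rw [← Real.exp_log (half_pos hρ)]
    exact Real.exp_le_exp.2 (by linarith)
  have hT0 : Real.exp (-T₁) < M.ρ := by
    have h1 : Real.exp (-T₁) ≤ Real.exp (-T₁ + 4) := Real.exp_le_exp.2 (by linarith)
    linarith
  obtain ⟨ε', hε', hseam⟩ := seam h F hM hII hA hT0
  have hmu : ∀ x : Ix F, M.k x * (F.ch x).κ⁻¹ ^ M.a x = 1 := fun x => by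
    rw [hM]
    exact k_mu F x
  have hMX : ∀ (x : Ix F) (t w : ℂ), M.X x (F.ch x).κ⁻¹ t w = F.XX x t w := fun x t w => by
    rw [hM]
    rfl
  have hMP : ∀ (x : Ix F) (t w : ℂ), M.P x (F.ch x).κ⁻¹ t w = F.PP x t w := fun x t w => by
    rw [hM]
    rfl
  have hMs : ∀ (x : Ix F) (t w : ℂ), M.s x (F.XX x t w) = pr (F.Phi x t w) := fun x t w => by
    rw [hM]
    rfl
  have ht4 : ∀ t₁ t : ℂ, t₁.re ≤ -T₁ → t ∈ ball t₁ 4 → ‖Complex.exp t‖ ≤ M.ρ / 2 := fun t₁ t h1 h2 => by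
    rw [mem_ball, dist_eq_norm] at h2
    have h3 := (Complex.abs_re_le_norm (t - t₁)).trans_lt h2
    rw [Complex.sub_re, abs_lt] at h3
    rw [Complex.norm_exp]
    exact (Real.exp_le_exp.2 (by linarith [h3.2])).trans hT4
  refine ⟨{ ι := Ix F, Φ := fun x t w => pr (F.Phi x t w), P := F.PP,
            Cn := fun x => {q | Cen (F.XX x q.1 q.2) ∧ ‖Complex.exp q.1‖ ≤ M.ρ / 2},
            Cs := fun x => {q | CenS (F.XX x q.1 q.2) ∧ ‖Complex.exp q.1‖ ≤ M.ρ / 2},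
            C := max (max (2 * C₀) C) 1, k := 4, r₁ := r₁, ε := ε, C_nonneg := ?_, r₁_ge := hr4, ε_pos := hε, sub := ?_, P_an := ?_, P_le := ?_,
            cell := ?_, link := ?_, seam := ?_ }⟩
  · exact zero_le_one.trans (le_max_right _ _)
  · exact fun x q hq => ⟨cenS_cen hq.1, hq.2⟩
  · intro x O w hO hw hq t ht
    have h1 := hq t ht
    have h2 := Pool.Agent.EG.RL.P_an M (h := w) (hmu x) (t₀ := t) (h1.2.trans_lt (by linarith)) (hw.analyticAt (hO.mem_nhds ht)) (by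
      rw [hMX]
      exact Pool.Agent.EG.RL.cen_ball h1.1)
    simp only [hMP] at h2
    exact h2.differentiableAt.differentiableWithinAt
  · intro x t w hq
    have h2 := Pool.Agent.EG.RL.P_le hB (hmu x) (t := t) (h := w) (by
      rw [hMX]
      exact Pool.Agent.EG.RL.cen_ball hq.1) (hq.2.trans_lt (by linarith))
    rw [hMP, zero_mul, Real.exp_zero, mul_one] at h2
    refine h2.trans (mul_le_mul_of_nonneg_right ?_ (norm_nonneg _))
    exact (by linarith : C₀ ≤ 2 * C₀).trans ((le_max_left _ _).trans (le_max_left _ _))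
  · rintro c R hc f ⟨f', hf', hff'⟩ t₁ ht₁ hT1
    obtain ⟨x, w, hw, hx⟩ := hcell c R f' t₁ hc hf' ht₁ hT1
    refine ⟨x, w, hw, fun t ht => ⟨⟨(hx t ht).1, ht4 t₁ t hT1 ht⟩, ?_, ?_⟩⟩
    · rw [hff' t ?_]
      · exact (hx t ht).2.1
      · rw [mem_ball] at ht ht₁ ⊢
        linarith [dist_triangle t t₁ c]
    · have hR : 0 < R := by
        rw [mem_ball] at ht₁
        have := dist_nonneg.trans_lt ht₁
        linarith
      refine (hx t ht).2.2.trans (mul_le_mul_of_nonneg_right ?_ (by positivity))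
      exact (le_max_right _ _).trans (le_max_left _ _)
  · intro x y t₀ h₀ h₁ hT0' hx hy he
    have h1 := hlink x y (F.ch x).κ⁻¹ (F.ch y).κ⁻¹ t₀ h₀ h₁ (hmu x) (hmu y) hx.2 (by
      rw [hMX]
      exact hx.1) (by
      rw [hMX]
      exact hy.1) (by
      rw [hMX, hMX, hMs, hMs]
      exact he)
    obtain ⟨Df, hD1, hD2, hD3⟩ := h1
    refine ⟨Df, hD1, fun t ht => ?_, fun hi hj hai haj hi0 hj0 hev => ?_⟩
    · have h2 := hD2 t ht
      rw [zero_mul, Real.exp_zero, mul_one] at h2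
      refine h2.trans (mul_le_mul_of_nonneg_right ?_ (by positivity))
      exact (le_max_left _ _).trans (le_max_left _ _)
    · have h2 := hD3 hi hj hai haj hi0 hj0 (by
        filter_upwards [hev] with t ht
        rw [hMX, hMX, hMs, hMs]
        exact ht.2.2)
      filter_upwards [h2] with t ht
      rw [hMP, hMP] at ht
      exact ht
  · refine ⟨ε', hε', ?_⟩
    rintro t₁ x w f g ht1 ht2 ⟨f', hf', hff'⟩ ⟨g', hg', hgg'⟩ hw hfw hd
    have hmem : ∀ t ∈ ball t₁ 4, t ∈ ball t₁ r₁ := fun t ht => ball_subset_ball hr4 ht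
    obtain ⟨w', hw', hx⟩ := hseam t₁ x w f' g' r₁ hr24 hr4 ht1 ht2 hf' hg' hw
      (fun t ht => ⟨(hfw t ht).1.1, by
        rw [← hff' t (hmem t ht)]
        exact (hfw t ht).2⟩)
      (fun t ht => by
        rw [← hff' t (hmem t ht), ← hgg' t (hmem t ht)]
        exact hd t ht)
    have h34 : ball t₁ 3 ⊆ ball t₁ 4 := ball_subset_ball (by norm_num)
    refine ⟨w', hw'.mono h34, fun t ht => ?_⟩
    have ht := h34 ht
    obtain ⟨h1, h2, h3, h4⟩ := hx t ht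
    refine ⟨⟨h1, (hfw t ht).1.2⟩, ?_, ?_, ?_⟩
    · rw [hgg' t (hmem t ht)]
      exact h2
    · exact h3.trans (by linarith [le_max_right (max (2 * C₀) C) 1])
    · rw [hff' t (hmem t ht), hgg' t (hmem t ht)]
      exact h4

end Pool.Agent.EG.LE

end

section

/-!
# LV Core: the dynamics of the sections of a log surface over `ℂ^*`, at the level of cones
-/

set_option autoImplicit false

open Topology Filter Metric

namespace Pool.Agent.H87.LV

attribute [-instance] ProperSMul.toContinuousSMul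

open Pool.Agent.H36.BP (EN fs wd IsGermChart)
open Pool.Agent.H14.PP (IsCone Chart Tan CurveAt)
open Pool.Agent.H62.EF (Lat MN pr TorusMap Sec Charts DU)
open Pool.Agent.H62.EL (Ag BadSet IsNC TForm Mon mo Cap IRel II Per VanZero Thin Zr)
open Pool.Agent.H18.LU (SecAt SO Nb part LFib LData CstL HasCap HasRel LogP)
open Pool.Agent.EG.LE (SecOn TT HasII Away EndData)
open Pool.Agent.H87.LU (UDyn Mid Appr Sh rfT rfI LEnd HP AgO)

variable {N : ℕ} {X D P : Set (EN N)} {Λ Γ : AddSubgroup ℂ} {u : EN N → ℂ} {B : Set ℂ} {δ : ℝ}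

theorem _root_.Pool.Agent.H87.LU.Mid.mono {Y : Type} [MetricSpace Y] {T : Set ℂ → Set (ℂ → Y)} {II : ℂ → Y → Y → ℂ} {δ W ε₀ r₁ C ε₀' r₁' : ℝ}
    (h : Mid T II B δ W ε₀ r₁ C) (h1 : ε₀' ≤ ε₀) (h2 : r₁ ≤ r₁') : Mid T II B δ W ε₀' r₁' C := by
  intro c R hc f hf g hg hcl
  obtain ⟨J, hJ1, hJ2, hJ3⟩ := h c R hc f hf g hg fun z hz hzG hzW => (hcl z hz hzG hzW).trans h1
  have hsub : ∀ z ∈ ball c (R - r₁'), z ∈ ball c (R - r₁) := fun z hz => ball_subset_ball (by linarith) hz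
  exact ⟨J, hJ1.mono fun z hz => ⟨hsub z hz.1, hz.2⟩, fun z hz => hJ2 z (hsub z hz), fun z hz => hJ3 z (hsub z hz)⟩

theorem _root_.Pool.Agent.H87.LU.Appr.mono {Y : Type} [MetricSpace Y] {T S : Set ℂ → Set (ℂ → Y)} {II : ℂ → Y → Y → ℂ} {δ W ε₀ r₁ ε₀' r₁' : ℝ}
    (h : Appr T S II B δ W ε₀ r₁) (h1 : ε₀' ≤ ε₀) (h2 : r₁ ≤ r₁') : Appr T S II B δ W ε₀' r₁' where
  appr := h.appr
  cont := by
    intro c R hc f hf g hg z hz hzG hzW hfg η hη
    have hsub : ∀ R : ℝ, ball c (R - r₁') ⊆ ball c (R - r₁) := fun R => ball_subset_ball (by linarith)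
    obtain ⟨ε, hε, h⟩ := h.cont c R hc f hf g hg z (hsub R hz) hzG hzW (hfg.trans h1) η hη
    exact ⟨ε, hε, fun R' F G hF hG hz' => h R' F G hF hG (hsub R' hz')⟩

/-- every point is near a point of `2 π i ℤ` in the vertical direction -/
theorem nb_strip (hΛ : ∀ w : ℂ, w ∈ Λ ↔ Complex.exp w = 1) (R : ℝ) (z : ℂ) (hz : |z.re| ≤ R) : z ∈ Nb Λ (R + 4) := by
  refine ⟨2 * Real.pi * (round (z.im / (2 * Real.pi)) : ℤ) * Complex.I, ?_, ?_⟩
  · rw [hΛ, Complex.exp_eq_one_iff]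
    exact ⟨round (z.im / (2 * Real.pi)), by ring⟩
  · have hπ := Real.pi_pos
    have h1 := abs_sub_round (z.im / (2 * Real.pi))
    have h2 : |z.im - 2 * Real.pi * (round (z.im / (2 * Real.pi)) : ℤ)| ≤ Real.pi := by
      have h3 : z.im - 2 * Real.pi * (round (z.im / (2 * Real.pi)) : ℤ) = 2 * Real.pi * (z.im / (2 * Real.pi) - (round (z.im / (2 * Real.pi)) : ℤ)) := by
        field_simp
      rw [h3, abs_mul, abs_of_pos (by positivity : (0 : ℝ) < 2 * Real.pi)]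
      nlinarith
    refine (Complex.norm_le_abs_re_add_abs_im _).trans ?_
    have h4 : (z - 2 * Real.pi * (round (z.im / (2 * Real.pi)) : ℤ) * Complex.I).re = z.re := by simp
    have h5 : (z - 2 * Real.pi * (round (z.im / (2 * Real.pi)) : ℤ) * Complex.I).im = z.im - 2 * Real.pi * (round (z.im / (2 * Real.pi)) : ℤ) := by simp
    rw [h4, h5]
    linarith [Real.pi_le_four]

/-- the abstract situation for the sections of a log surface over `ℂ^*` -/
theorem exists_udyn (E : LData X D P Λ Γ u B δ) {p : ℝ} (hp : 0 < p) (hpΓ : (p : ℂ) * Complex.I ∈ Γ)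
    {α : TForm (X \ P) Λ u} (hlog : LogP α) (hper : Per α Γ) (hvan : VanZero α) (hthin : Thin α) {Xb D₀ D₁ : Set (EN N)}
    (h₀ : EndData Xb (X \ P) (X \ D) D₀ Λ u α) (h₁ : EndData Xb (X \ P) (X \ D) D₁ Λ (fun x => -u x) α.refl) {W₁ : ℝ}
    (hB : ∀ b ∈ B, |b.re| ≤ W₁) : ∃ δ' W ε : ℝ, UDyn (KN N) p B δ' W (SO X D Λ u B) (Zr α) (II α ε) := by
  have hδ := E.bad.pos
  obtain ⟨X₀, hX₀⟩ := Pool.Agent.EG.LE.leftEnd h₀
  obtain ⟨X₁, hX₁⟩ := Pool.Agent.EG.LE.leftEnd h₁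
  obtain ⟨T₁, hT0, hT1, hTW, hT5⟩ : ∃ T₁ : ℝ, X₀ ≤ T₁ ∧ X₁ ≤ T₁ ∧ W₁ + 5 ≤ T₁ ∧ 5 ≤ T₁ :=
    ⟨max (max X₀ X₁) (max (W₁ + 5) 5), (le_max_left _ _).trans (le_max_left _ _), (le_max_right _ _).trans (le_max_left _ _),
      (le_max_left _ _).trans (le_max_right _ _), (le_max_right _ _).trans (le_max_right _ _)⟩
  have hR : ∀ z : ℂ, |z.re| ≤ T₁ + 10 → z ∈ Nb Λ (T₁ + 10 + 4) := nb_strip h₀.lat (T₁ + 10)
  have E₀ := E.mono (lt_min hδ one_pos) (min_le_left δ 1)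
  obtain ⟨δ', hδ', hδ'', E', r₁, ε, ε₀, C, hc⟩ := Pool.Agent.H18.LU.exists_cstL E₀ hlog hper (T₁ + 10 + 4)
  have hδ1 : δ' ≤ 1 := hδ''.trans (min_le_right _ _)
  obtain ⟨r₂, K₁, hr₂, hK₁, hK₁X, hK⟩ := away_of E' hδ' (T₁ + 10 + 4)
  have hgdL : ∀ z : ℂ, T₁ ≤ |z.re| → z ∈ Pool.Agent.H62.EL.Gd B δ' := by
    intro z hz b hb
    have h1 := hB b hb
    have h2 := Complex.abs_re_le_norm (z - b)
    rw [Complex.sub_re] at h2
    have h3 : |z.re| ≤ |z.re - b.re| + |b.re| := by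
      have h4 := abs_add_le (z.re - b.re) b.re
      have h5 : z.re - b.re + b.re = z.re := by ring
      rwa [h5] at h4
    linarith
  have hstrip : ∀ z : ℂ, -T₁ - 10 ≤ z.re → z.re ≤ -T₁ → z ∈ Nb Λ (T₁ + 10 + 4) ∧ z ∈ Pool.Agent.H62.EL.Gd B δ' := by
    intro z h1 h2
    have h3 : |z.re| = -z.re := abs_of_nonpos (by linarith)
    exact ⟨hR z (by rw [h3]; linarith), hgdL z (by rw [h3]; linarith)⟩
  have hstrip' : ∀ z : ℂ, -T₁ - 10 ≤ z.re → z.re ≤ -T₁ → -z ∈ Nb Λ (T₁ + 10 + 4) ∧ -z ∈ Pool.Agent.H62.EL.Gd B δ' := by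
    intro z h1 h2
    have h3 : |(-z).re| = -z.re := by
      rw [Complex.neg_re]
      exact abs_of_nonneg (by linarith)
    exact ⟨hR _ (by rw [h3]; linarith), hgdL _ (by rw [h3]; linarith)⟩
  have hr₁ := hc.r₁_pos
  obtain ⟨EL⟩ := hX₀ T₁ hT0 (II α ε) (max r₁ r₂) (lt_max_of_lt_left hr₁) (hasII_left E' hc (le_max_left _ _) hstrip)
    (away_left hK₁ hK₁X (le_max_right _ _) hK hstrip)
  obtain ⟨ER⟩ := hX₁ T₁ hT1 (rfI (II α ε)) (max r₁ r₂) (lt_max_of_lt_left hr₁) (hasII_right E' hc (le_max_left _ _) hstrip')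
    (away_right hK₁ hK₁X (le_max_right _ _) hK hstrip')
  rw [tt_refl] at ER
  have hBW : ∀ b ∈ B, |b.re| + 4 * δ' ≤ T₁ + 10 := fun b hb => by linarith [hB b hb]
  have hM := (mid_of E' hc hR hBW).mono (ε₀' := ε₀ / 2) (r₁' := r₁ + 6 * δ') (by linarith [hc.ε₀_pos]) le_rfl
  have hA := (appr_of E' hc hR).mono (ε₀' := ε₀ / 2) (r₁' := r₁ + 6 * δ') le_rfl (by linarith)
  have hε₀ := hc.ε₀_pos
  have hl : ∀ l : ℤ, (p : ℂ) * l * Complex.I ∈ Γ := by
    intro l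
    have h1 := Γ.zsmul_mem hpΓ l
    rw [zsmul_eq_mul] at h1
    have h2 : (p : ℂ) * l * Complex.I = (l : ℂ) * (p * Complex.I) := by ring
    rw [h2]
    exact h1
  have hJ := Pool.Agent.H87.LU.exists_J (p := p) EL ER hM hA (by linarith) hc.C_nonneg (by linarith) hδ' hδ1 (fun b hb => by linarith [hB b hb])
    (fun b hb l => E'.bad.inv b hb _ (E'.le (hl l))) (fun c c' R R' h => tt_mono h)
    (fun z y y' => Pool.Agent.H62.EL.II_per E'.vTor E'.le hper hpΓ ε z y y') (a := 0) (fun b hb => by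
      have h1 := E'.zero b hb
      rw [zero_sub, norm_neg]
      linarith) (by
      rw [Complex.zero_re, abs_zero]
      linarith) (fun y y' => Pool.Agent.H62.EL.II_zero E'.vTor E'.le hper hvan Γ.zero_mem ε y y')
  refine ⟨δ', T₁ + 10, ε, udyn_of E' hp hpΓ (fun R' => ⟨R' + 4, nb_strip h₀.lat R'⟩) hper hthin hc (by linarith) hR hBW (by linarith) hJ⟩

/-- **The dynamics of the sections.**  The limits of sections over `ℂ` are finitely many, periodic maps, the limits of sections over a half plane are restrictions of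
these maps, and these maps are almost constant on discs of bounded radius far to the left and to the right. -/
theorem core (E : LData X D P Λ Γ u B δ) {p : ℝ} (hp : 0 < p) (hpΓ : (p : ℂ) * Complex.I ∈ Γ)
    {α : TForm (X \ P) Λ u} (hlog : LogP α) (hper : Per α Γ) (hvan : VanZero α) (hthin : Thin α) {Xb D₀ D₁ : Set (EN N)}
    (h₀ : EndData Xb (X \ P) (X \ D) D₀ Λ u α) (h₁ : EndData Xb (X \ P) (X \ D) D₁ Λ (fun x => -u x) α.refl) {W₁ : ℝ}
    (hB : ∀ b ∈ B, |b.re| ≤ W₁) : ∃ (q : ℕ) (𝓕 : Set (ℂ → MN N)), 1 ≤ q ∧ 𝓕.Finite ∧ 𝓕 ⊆ SO X D Λ u B Set.univ ∧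
      (∀ f ∈ SO X D Λ u B Set.univ, ∃ g ∈ 𝓕, ∀ z, z ∉ B → f z = g z) ∧
      (∀ σ ρ : ℝ, σ = 1 ∨ σ = -1 → ∀ f ∈ SO X D Λ u B (HP σ ρ), ∃ g ∈ 𝓕, ∀ z ∈ HP σ ρ, z ∉ B → f z = g z) ∧
      (∀ f ∈ SO X D Λ u B Set.univ, ∀ z, z ∉ B → f (z + p * q * Complex.I) = f z) ∧
      ∀ R ε : ℝ, 0 < ε → ∃ X₀ : ℝ, ∀ f ∈ SO X D Λ u B Set.univ, ∀ z w : ℂ, X₀ < |z.re| → ‖w - z‖ ≤ R → dist (f w) (f z) < ε := by
  obtain ⟨δ', W, ε, U⟩ := exists_udyn E hp hpΓ hlog hper hvan hthin h₀ h₁ hB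
  obtain ⟨𝓕, hfin, hsub, h𝓕⟩ := U.finite
  have hBl : ∀ (n : ℕ) (z : ℂ), z ∉ B → z + p * n * Complex.I ∉ B := by
    intro n z hz h
    have h1 := U.B_inv _ h (-(n : ℤ))
    have h2 : z + p * n * Complex.I + p * ((-(n : ℤ) : ℤ) : ℂ) * Complex.I = z := by
      push_cast
      ring
    rw [h2] at h1
    exact hz h1
  choose! q hq1 hq using fun f (hf : f ∈ SO X D Λ u B Set.univ) => U.period hf
  have hmul : ∀ f ∈ SO X D Λ u B Set.univ, ∀ (n : ℕ) (z : ℂ), z ∉ B → f (z + p * (n * q f : ℕ) * Complex.I) = f z := by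
    intro f hf n
    induction n with
    | zero =>
      intro z _
      simp
    | succ n ih =>
      intro z hz
      have h1 := hq f hf (z + p * (n * q f : ℕ) * Complex.I) (hBl _ z hz)
      rw [ih z hz] at h1
      rw [← h1]
      congr 1
      push_cast
      ring
  have hdvd : ∀ f ∈ 𝓕, q f ∣ ∏ g ∈ hfin.toFinset, q g := fun f hf => Finset.dvd_prod_of_mem q (hfin.mem_toFinset.2 hf)
  refine ⟨∏ g ∈ hfin.toFinset, q g, 𝓕, ?_, hfin, hsub, ?_, ?_, ?_, ?_⟩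
  · exact Nat.one_le_iff_ne_zero.2 (Finset.prod_ne_zero_iff.2 fun g hg => by
      have := hq1 g (hsub (hfin.mem_toFinset.1 hg))
      omega)
  · intro f hf
    obtain ⟨g, hg, hfg⟩ := h𝓕 f hf
    exact ⟨g, hg, fun z hz => hfg z (Set.mem_univ z) hz⟩
  · intro σ ρ hσ f hf
    obtain ⟨G, hG, hfG⟩ := U.arm hσ hf
    obtain ⟨g, hg, hGg⟩ := h𝓕 G hG
    exact ⟨g, hg, fun z hz hzB => (hfG z hz hzB).trans (hGg z (Set.mem_univ z) hzB)⟩
  · intro f hf z hz
    obtain ⟨g, hg, hfg⟩ := h𝓕 f hf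
    obtain ⟨n, hn⟩ := hdvd g hg
    have h1 := hmul g (hsub hg) n z hz
    rw [hfg _ (Set.mem_univ _) (hBl _ z hz), hfg z (Set.mem_univ z) hz, ← h1]
    congr 1
    rw [hn]
    push_cast
    ring
  · intro R ε' hε'
    obtain ⟨r, Y₀, hr, hRr, hL⟩ := Pool.Agent.EG.LE.der_small h₀ R (ε' / 3) (by linarith)
    obtain ⟨r', Y₁, hr', hRr', hR⟩ := Pool.Agent.EG.LE.der_small h₁ R (ε' / 3) (by linarith)
    refine ⟨max (max Y₀ Y₁) (W₁ + r + r' + 1), fun f hf z w hz hw => ?_⟩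
    have hzY0 := ((le_max_left Y₀ Y₁).trans (le_max_left _ (W₁ + r + r' + 1))).trans_lt hz
    have hzY1 := ((le_max_right Y₀ Y₁).trans (le_max_left _ (W₁ + r + r' + 1))).trans_lt hz
    have hzW := (le_max_right (max Y₀ Y₁) (W₁ + r + r' + 1)).trans_lt hz
    have hgd : ∀ y : ℂ, ‖y - z‖ ≤ R → y ∈ Pool.Agent.H62.EL.Gd B 1 := by
      intro y hy b hb
      have h1 := hB b hb
      have h2 := Complex.abs_re_le_norm (y - b)
      rw [Complex.sub_re] at h2
      have h3 := Complex.abs_re_le_norm (y - z)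
      rw [Complex.sub_re] at h3
      have h4 : |z.re| ≤ |y.re - z.re| + |y.re - b.re| + |b.re| := by
        have h5 : z.re = -(y.re - z.re) + (y.re - b.re) + b.re := by ring
        calc |z.re| = |-(y.re - z.re) + (y.re - b.re) + b.re| := by rw [← h5]
          _ ≤ |-(y.re - z.re)| + |y.re - b.re| + |b.re| := abs_add_three _ _ _
          _ = _ := by rw [abs_neg]
      linarith
    have hR0 : 0 ≤ R := (norm_nonneg _).trans hw
    have hmax : r ≤ r + r' ∧ r' ≤ r + r' := ⟨by linarith, by linarith⟩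
    obtain ⟨F, hF, hFd⟩ := hf (closedBall z (r + r')) (Set.subset_univ _) (isCompact_closedBall _ _) 1 (ε' / 3) one_pos (by linarith)
    have hzc : z ∈ closedBall z (r + r') := mem_closedBall_self (by linarith)
    have hwc : w ∈ closedBall z (r + r') := by
      rw [mem_closedBall, dist_eq_norm]
      linarith
    have h1 := hFd z hzc (hgd z (by rw [sub_self, norm_zero]; exact hR0))
    have h2 := hFd w hwc (hgd w hw)
    have h3 : dist (pr (F w)) (pr (F z)) < ε' / 3 := by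
      rcases le_total z.re 0 with hre | hre
      · rw [abs_of_nonpos hre] at hzY0
        have hsec : SecOn (X \ D) Λ u (ball z r) F := secAt_secOn fun y hy =>
          hF y (closedBall_subset_closedBall hmax.1 (ball_subset_closedBall hy))
        exact (hL z F (by linarith) hsec w (by rw [mem_closedBall, dist_eq_norm]; exact hw)).2
      · rw [abs_of_nonneg hre] at hzY1
        have hsec : SecOn (X \ D) Λ u (ball z r') F := secAt_secOn fun y hy =>
          hF y (closedBall_subset_closedBall hmax.2 (ball_subset_closedBall hy))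
        have hsec' : SecOn (X \ D) Λ (fun x => -u x) (ball (-z) r') (fun y => F (-y)) := by
          refine secOn_refl ?_
          rwa [neg_ball, neg_neg]
        have h4 := (hR (-z) (fun y => F (-y)) (by rw [Complex.neg_re]; linarith) hsec' (-w) (by
          rw [mem_closedBall, dist_eq_norm]
          have h5 : -w - -z = -(w - z) := by ring
          rw [h5, norm_neg]
          exact hw)).2
        simpa only [neg_neg] using h4
    have h4 := dist_triangle4 (f w) (pr (F w)) (pr (F z)) (f z)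
    have h5 : dist (f w) (pr (F w)) = dist (pr (F w)) (f w) := dist_comm _ _
    linarith

end Pool.Agent.H87.LV

end
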