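import Pool.Agent.H94.CB.M192
import Pool.Agent.H94.CB.M229
import Pool.Agent.H94.CB.M235
import Pool.Agent.H94.CB.M77

/-! The parts of this file: H6.LU.As, H6.LU.Ot. -/

section

/-!
# LU As: from the data in projective space to the conclusion of the dynamical part
-/

set_option autoImplicit false

open Topology Filter Metric

noncomputable section

namespace Pool.Agent.H6.LU

attribute [-instance] ProperSMul.toContinuousSMul

open Pool.Agent.H17 (PN HolomorphicInto)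
open Pool.Agent.H36.BP (EN coneOf coneOf_smul ne_zero_of_ofLp ofLp_ne_zero IsGermChart)
open Pool.Agent.H4.LU (Mem val IsParam IsInner IsHorChart IsEndChart IsEnd IsRegularEnd IsModel Over IsTangent IsLogForm VanishesOver IsNowhereZero IsHyperbolic HasLogForms)
open Pool.Agent.H18.LU (OCone Dsc Nb part HorAt LFib LBase LData LogP ResBd SO exists_P)
open Pool.Agent.H62.EF (TorusMap pr MN)
open Pool.Agent.H62.EL (TForm BadSet Per VanZero Thin)
open Pool.Agent.EG.LE (cf Typ IsEndT EndData)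
open Pool.Agent.H87.LU (HP)

variable {M : ℕ} {Y V : Set (PN M)} {e : PN M → ℂ}

/-- the bad values -/
theorem exists_bad (h : IsModel Y V e) (hH : IsHyperbolic Y V e) : ∃ B₁ : Set ℂ, B₁.Finite ∧ (0 : ℂ) ∉ B₁ ∧ CV Y V e ⊆ B₁ ∧
    ∀ c, c ∉ B₁ → ∀ f : ℂ → PN M, HolomorphicInto f Set.univ → (∀ z, f z ∈ V ∧ e (f z) = c) → ∀ z w, f z = f w := by
  obtain ⟨B₀, hB₀, hfib⟩ := hH.fibre
  refine ⟨(B₀ ∪ CV Y V e) \ {0}, (hB₀.union (finite_CV h)).subset Set.sdiff_subset, fun h1 => h1.2 rfl, ?_, ?_⟩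
  · rintro w hw
    refine ⟨Or.inr hw, ?_⟩
    obtain ⟨x, σ, τ, c, i, j, -, -, rfl⟩ := hw
    exact Complex.exp_ne_zero c
  · intro c hc f hf hfV
    by_cases h0 : c = 0
    · exfalso
      obtain ⟨h1, h2⟩ := hfV 0
      have h3 : (WithLp.toLp 2 (f 0).rep : EN M) ∈ coneOf V := by
        refine ⟨(f 0).rep_nonzero, ?_⟩
        show Projectivization.mk ℂ (f 0).rep (f 0).rep_nonzero ∈ V
        rw [Projectivization.mk_rep]
        exact h1
      refine ev_ne_zero h h3 ?_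
      rw [ev_of h3.1]
      show e (Projectivization.mk ℂ (f 0).rep (f 0).rep_nonzero) = 0
      rw [Projectivization.mk_rep, h2, h0]
    · exact hfib c (fun h1 => hc ⟨Or.inl h1, h0⟩) f hf hfV

/-- the choice of the base point -/
theorem exists_base {B₁ : Set ℂ} (hB : B₁.Finite) (hL : HasLogForms Y V e) : ∃ (m : ℕ) (a : ℂ)
    (Ω : ℂ → (Fin (M + 1) → ℂ) → (Fin (M + 1) → ℂ) → (Fin (M + 1) → ℂ) → ℂ), 1 ≤ m ∧ Complex.exp a ∉ B₁ ∧ IsLogForm Y V e m Ω ∧
      IsNowhereZero V e Ω ∧ VanishesOver V e Ω a := by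
  obtain ⟨m, hm, hinf⟩ := hL
  have hm0 : m ≠ 0 := Nat.one_le_iff_ne_zero.1 hm
  have hfin : {v : ℂ | v = 0 ∨ v ^ m ∈ B₁}.Finite := by
    have h1 : {v : ℂ | v ^ m ∈ B₁}.Finite := by
      have h2 : {v : ℂ | v ^ m ∈ B₁} = ⋃ c ∈ B₁, {v : ℂ | v ^ m = c} := by
        ext v
        simp
      rw [h2]
      refine hB.biUnion fun c _ => ?_
      have h3 : {v : ℂ | v ^ m = c} ⊆ ((Polynomial.X ^ m - Polynomial.C c : Polynomial ℂ).roots.toFinset : Set ℂ) := by
        intro v hv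
        have hne : (Polynomial.X ^ m - Polynomial.C c : Polynomial ℂ) ≠ 0 := Polynomial.X_pow_sub_C_ne_zero (Nat.pos_of_ne_zero hm0) c
        rw [Finset.mem_coe, Multiset.mem_toFinset, Polynomial.mem_roots hne, Polynomial.IsRoot.def]
        simp only [Polynomial.eval_sub, Polynomial.eval_pow, Polynomial.eval_X, Polynomial.eval_C]
        rw [Set.mem_ofPred_eq] at hv
        rw [hv, sub_self]
      exact (Finset.finite_toSet _).subset h3
    exact (Set.finite_singleton (0 : ℂ)).union h1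
  obtain ⟨v, ⟨Ω, h1, h2, h3⟩, hv⟩ := (hinf.sdiff hfin).nonempty
  rw [Set.mem_ofPred_eq, not_or] at hv
  have hmC : (m : ℂ) ≠ 0 := by exact_mod_cast hm0
  have he : Complex.exp ((m * Complex.log v) / m) = v := by
    rw [mul_div_cancel_left₀ _ hmC, Complex.exp_log hv.1]
  refine ⟨m, m * Complex.log v, Ω, hm, ?_, h1, h2, h3 _ he⟩
  rw [Complex.exp_nat_mul, Complex.exp_log hv.1]
  exact hv.2

/-- **The dynamical part, for families over `ℂ^*` in projective space.** -/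
theorem exists_core (h : IsModel Y V e) (hH : IsHyperbolic Y V e) (hL : HasLogForms Y V e) :
    ∃ (m : ℕ) (a : ℂ) (B₁ : Set ℂ) (δ : ℝ) (P : Set (EN M)) (q : ℕ) (𝓕 : Set (ℂ → MN M)), 1 ≤ m ∧ B₁.Finite ∧ (0 : ℂ) ∉ B₁ ∧
      LData (XX Y V e) (DH Y V e) P Lam (Gam m) (uu V e a) (BB B₁ a) δ ∧
      1 ≤ q ∧ 𝓕.Finite ∧ 𝓕 ⊆ SO (XX Y V e) (DH Y V e) Lam (uu V e a) (BB B₁ a) Set.univ ∧
      (∀ f ∈ SO (XX Y V e) (DH Y V e) Lam (uu V e a) (BB B₁ a) Set.univ, ∃ g ∈ 𝓕, ∀ z, z ∉ BB B₁ a → f z = g z) ∧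
      (∀ σ ρ : ℝ, σ = 1 ∨ σ = -1 → ∀ f ∈ SO (XX Y V e) (DH Y V e) Lam (uu V e a) (BB B₁ a) (HP σ ρ), ∃ g ∈ 𝓕, ∀ z ∈ HP σ ρ, z ∉ BB B₁ a → f z = g z) ∧
      (∀ f ∈ SO (XX Y V e) (DH Y V e) Lam (uu V e a) (BB B₁ a) Set.univ, ∀ z, z ∉ BB B₁ a →
        f (z + (2 * Real.pi * m : ℝ) * q * Complex.I) = f z) ∧
      ∀ R ε : ℝ, 0 < ε → ∃ X₀ : ℝ, ∀ f ∈ SO (XX Y V e) (DH Y V e) Lam (uu V e a) (BB B₁ a) Set.univ, ∀ z w : ℂ,
        X₀ < |z.re| → ‖w - z‖ ≤ R → dist (f w) (f z) < ε := by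
  obtain ⟨B₁, hB, h0, hCV, hfib⟩ := exists_bad h hH
  obtain ⟨m, a, Ω, hm, ha, hΩ, hn, hv⟩ := exists_base hB hL
  obtain ⟨δ, hδ, hbs⟩ := bad_set hB h0 ha
  obtain ⟨hbad, hzero⟩ := hbs δ hδ le_rfl
  obtain ⟨W, -, hW⟩ := bad_re hB a
  have E := lbase h hm hbad hzero hCV hfib
  obtain ⟨P, E', α', hα', hlog, hper, hvan, hthin⟩ := exists_P E (tf h hΩ a (XX_diff h)) (logP_tf h hΩ a) (resBd_tf h hm hΩ E)
    (per_tf h hm hΩ a (XX_diff h)) (vanZero_tf h hΩ hv (XX_diff h)) (thin_tf h hΩ hn a (XX_diff h))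
  have h₀ : EndData (coneOf Y) (XX Y V e \ P) (XX Y V e \ DH Y V e) (DD Y V e) Lam (uu V e a) α' :=
    endData h a E'.P_sub E'.P_smul E'.P_closed (Or.inl ⟨rfl, rfl⟩) (fun x => (one_mul _).symm)
      (fun k nd hor σ₀ τ₀ y c hch hc => Pool.Agent.H87.LV.endT_left h hΩ a E'.P_sub E'.P_smul E'.P_closed E'.P_open hα' hc hch) h.zero hH.zero
  have h₁ : EndData (coneOf Y) (XX Y V e \ P) (XX Y V e \ DH Y V e) (DD Y V fun y => (e y)⁻¹) Lam (fun x => -uu V e a x) α'.refl :=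
    endData h a E'.P_sub E'.P_smul E'.P_closed (Or.inr ⟨rfl, rfl⟩) (fun x => (neg_one_mul _).symm)
      (fun k nd hor σ₀ τ₀ y c hch hc => Pool.Agent.H87.LV.endT_right h hΩ a E'.P_sub E'.P_smul E'.P_closed E'.P_open hα' hc hch) h.infty hH.infty
  have hp : 0 < 2 * Real.pi * (m : ℝ) := by
    have h1 : (0 : ℝ) < m := by exact_mod_cast hm
    positivity
  have hpΓ : ((2 * Real.pi * (m : ℝ) : ℝ) : ℂ) * Complex.I ∈ Gam m := by
    rw [mem_Gam_iff hm]
    refine ⟨1, ?_⟩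
    push_cast
    ring
  obtain ⟨q, 𝓕, h1, h2, h3, h4, h5, h6, h7⟩ := Pool.Agent.H87.LV.core E' hp hpΓ hlog hper hvan hthin h₀ h₁ hW
  exact ⟨m, a, B₁, δ, P, q, 𝓕, hm, hB, h0, E', h1, h2, h3, h4, h5, h6, h7⟩

end Pool.Agent.H6.LU

end
end

section

/-!
# LU Ot: back to projective space
-/

set_option autoImplicit false

open Topology Filter Metric

noncomputable section

namespace Pool.Agent.H6.LU

attribute [-instance] ProperSMul.toContinuousSMul

open Pool.Agent.H17 (PN HolomorphicInto)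
open Pool.Agent.H36.BP (EN coneOf coneOf_smul ne_zero_of_ofLp ofLp_ne_zero IsGermChart lift_disc)
open Pool.Agent.H36.LB (ConvPN)
open Pool.Agent.H4.LU (Mem val IsModel IsHyperbolic HasLogForms SecPN LimSec HPl Out)
open Pool.Agent.H18.LU (OCone Dsc Nb part LData SO SecAt so_limO so_mem so_lift mem_nb_norm)
open Pool.Agent.H62.EF (TorusMap pr MN pr_smul pr_eq_iff isCompact_pr continuousAt_pr)
open Pool.Agent.H62.EL (BadSet Gd)
open Pool.Agent.H87.LU (HP)
open Pool.Agent.H7.Per (prP prP_mk toLp_ne)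

variable {M : ℕ} {Y V : Set (PN M)} {e : PN M → ℂ}

theorem toLp_ofLp (x : EN M) : (WithLp.toLp 2 x.ofLp : EN M) = x := rfl

theorem prP_inj {x y : PN M} (h : prP x = prP y) : x = y := by
  obtain ⟨c, hc, h1⟩ := (pr_eq_iff (toLp_ne x.rep_nonzero) (toLp_ne y.rep_nonzero)).1 h
  rw [← x.mk_rep, ← y.mk_rep, Projectivization.mk_eq_mk_iff']
  refine ⟨c, ?_⟩
  have h2 := congrArg (fun x : EN M => x.ofLp) h1
  exact h2.symm

/-- the point of projective space with a given matrix -/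
def tp (y : MN M) : PN M := by
  classical exact if h : ∃ x : PN M, prP x = y then h.choose else Projectivization.mk ℂ (fun _ => 1) (by
    intro h1
    have h2 := congrFun h1 0
    exact one_ne_zero h2)

theorem tp_prP (x : PN M) : tp (prP x) = x := by
  have h : ∃ x' : PN M, prP x' = prP x := ⟨x, rfl⟩
  unfold tp
  rw [dif_pos h]
  exact prP_inj h.choose_spec

theorem prP_of {x : EN M} (hx : x.ofLp ≠ 0) : prP (Projectivization.mk ℂ x.ofLp hx) = pr x := by
  rw [prP_mk (h := hx) rfl, toLp_ofLp]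

/-- the lift of a holomorphic map on a ball -/
theorem lift_ball {f : ℂ → PN M} {c : ℂ} {R r : ℝ} (hr : 0 < r) (hrR : r < R) (hf : HolomorphicInto f (ball c R)) :
    ∃ F : ℂ → EN M, DifferentiableOn ℂ F (ball c r) ∧ ∀ z ∈ ball c r, ∃ h : (F z).ofLp ≠ 0, f z = Projectivization.mk ℂ (F z).ofLp h := by
  have hR : 0 < R := hr.trans hrR
  have hRC : (R : ℂ) ≠ 0 := by exact_mod_cast hR.ne'
  have h1 : HolomorphicInto (fun w => f (c + R * w)) (ball 0 1) := by
    intro w hw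
    have hm : c + R * w ∈ ball c R := by
      rw [mem_ball_zero_iff] at hw
      rw [mem_ball, dist_eq_norm, add_sub_cancel_left, norm_mul, Complex.norm_real, Real.norm_of_nonneg hR.le]
      nlinarith
    obtain ⟨φ, hφ, he⟩ := hf _ hm
    have ha : AnalyticAt ℂ (fun w : ℂ => c + R * w) w := by fun_prop
    exact ⟨fun w => φ (c + R * w), AnalyticAt.comp (g := φ) (f := fun w : ℂ => c + R * w) hφ ha, ha.continuousAt.tendsto.eventually he⟩
  obtain ⟨F, hF, hFf⟩ := lift_disc h1 (r := r / R) (by positivity) ((div_lt_one hR).2 hrR)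
  have hmap : ∀ z ∈ ball c r, (z - c) / R ∈ ball (0 : ℂ) (r / R) := by
    intro z hz
    rw [mem_ball, dist_eq_norm] at hz
    rw [mem_ball_zero_iff, norm_div, Complex.norm_real, Real.norm_of_nonneg hR.le]
    exact div_lt_div_of_pos_right hz hR
  refine ⟨fun z => F ((z - c) / R), ?_, fun z hz => ?_⟩
  · refine hF.comp ?_ hmap
    exact ((differentiable_id.sub_const c).div_const _).differentiableOn
  · obtain ⟨h2, h3⟩ := hFf _ (hmap z hz)
    refine ⟨h2, ?_⟩
    have h4 : c + R * ((z - c) / R) = z := by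
      rw [mul_div_cancel₀ _ hRC]
      ring
    rw [← h3, h4]

/-- a lift of a section is a section -/
theorem secAt_of (h : IsModel Y V e) {a : ℂ} {G : ℂ → PN M} {F : ℂ → EN M} {z : ℂ} (hF : AnalyticAt ℂ F z)
    (hFG : ∀ᶠ w in 𝓝 z, ∃ h : (F w).ofLp ≠ 0, G (w + a) = Projectivization.mk ℂ (F w).ofLp h) (hG : SecPN V e G (z + a)) :
    SecAt (XX Y V e) (DH Y V e) Lam (uu V e a) F z := by
  have ht : Tendsto (fun w : ℂ => w + a) (𝓝 z) (𝓝 (z + a)) := (continuous_id.add continuous_const).tendsto z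
  refine ⟨hF, ?_⟩
  filter_upwards [hFG, ht.eventually hG.2] with w h1 h2
  obtain ⟨h3, h4⟩ := h1
  have hV : F w ∈ coneOf V := ⟨h3, h4 ▸ h2.1⟩
  refine ⟨V_sub_XX h hV, fun h5 => h5.2 hV, (uu_sub_iff h hV a w).2 ?_⟩
  rw [ev_of h3, ← h4]
  exact h2.2

/-- the balls in a domain -/
structure Balls (Ω : Set ℂ) (c : ℕ → ℂ) (R : ℕ → ℝ) : Prop where
  pos : ∀ n, 0 < R n
  mono : ∀ n, ball (c n) (R n) ⊆ ball (c (n + 1)) (R (n + 1))
  sub : ∀ n, closedBall (c n) (R n) ⊆ Ω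
  exh : ∀ K : Set ℂ, K ⊆ Ω → IsCompact K → ∃ n, K ⊆ ball (c n) (R n)

theorem Balls.le {Ω : Set ℂ} {c : ℕ → ℂ} {R : ℕ → ℝ} (h : Balls Ω c R) {n k : ℕ} (hnk : n ≤ k) : ball (c n) (R n) ⊆ ball (c k) (R k) := by
  induction k, hnk using Nat.le_induction with
  | base => exact subset_rfl
  | succ k _ ih => exact ih.trans (h.mono k)

theorem balls_univ : Balls Set.univ (fun _ => 0) fun n => n + 1 where
  pos := fun n => by positivity
  mono := fun n => ball_subset_ball (by push_cast; linarith)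
  sub := fun n => Set.subset_univ _
  exh := by
    intro K _ hK
    obtain ⟨R, hR⟩ := hK.isBounded.subset_ball (0 : ℂ)
    obtain ⟨n, hn⟩ := exists_nat_ge R
    exact ⟨n, hR.trans (ball_subset_ball (by linarith))⟩

/-- the balls in a half plane -/
theorem balls_half {σ : ℝ} (hσ : σ = 1 ∨ σ = -1) (ρ : ℝ) :
    Balls (HPl σ ρ) (fun n => (σ * (ρ + 1 / (n + 1) + (n + 1)) : ℝ) * Complex.I) fun n => n + 1 := by
  have hσ2 : σ * σ = 1 := by rcases hσ with rfl | rfl <;> norm_num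
  have hσa : |σ| = 1 := by rcases hσ with rfl | rfl <;> simp
  have himI : ∀ (z : ℂ) (x : ℝ), (z - (x : ℂ) * Complex.I).im = z.im - x := by
    intro z x
    simp
  refine ⟨fun n => by positivity, fun n => ?_, fun n => ?_, fun K hK hKc => ?_⟩
  · refine ball_subset_ball' ?_
    have h1 : dist (((σ * (ρ + 1 / ((n : ℝ) + 1) + (n + 1)) : ℝ) : ℂ) * Complex.I)
        (((σ * (ρ + 1 / (((n + 1 : ℕ) : ℝ) + 1) + ((n + 1 : ℕ) + 1)) : ℝ) : ℂ) * Complex.I) = |1 / ((n : ℝ) + 1) - 1 / ((n : ℝ) + 1 + 1) - 1| := by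
      rw [dist_eq_norm, ← sub_mul, norm_mul, Complex.norm_I, mul_one, ← Complex.ofReal_sub, Complex.norm_real, Real.norm_eq_abs]
      have h2 : σ * (ρ + 1 / ((n : ℝ) + 1) + (n + 1)) - σ * (ρ + 1 / (((n + 1 : ℕ) : ℝ) + 1) + ((n + 1 : ℕ) + 1)) =
          σ * (1 / ((n : ℝ) + 1) - 1 / ((n : ℝ) + 1 + 1) - 1) := by
        push_cast
        ring
      rw [h2, abs_mul, hσa, one_mul]
    have hn : (0 : ℝ) ≤ n := Nat.cast_nonneg n
    have h3 : 1 / ((n : ℝ) + 1 + 1) ≤ 1 / ((n : ℝ) + 1) := one_div_le_one_div_of_le (by positivity) (by linarith)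
    have h4 : 1 / ((n : ℝ) + 1) ≤ 1 := by
      rw [div_le_one (by positivity)]
      linarith
    have h5 : 0 < 1 / ((n : ℝ) + 1 + 1) := by positivity
    have h6 : |1 / ((n : ℝ) + 1) - 1 / ((n : ℝ) + 1 + 1) - 1| ≤ 1 := abs_le.2 ⟨by linarith, by linarith⟩
    rw [h1]
    push_cast
    linarith
  · intro z hz
    rw [mem_closedBall, dist_eq_norm] at hz
    have h1 := (Complex.abs_im_le_norm _).trans hz
    have h2 : (z - ((σ * (ρ + 1 / ((n : ℝ) + 1) + (n + 1)) : ℝ) : ℂ) * Complex.I).im = z.im - σ * (ρ + 1 / ((n : ℝ) + 1) + (n + 1)) := himI _ _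
    rw [h2] at h1
    have h3 : |σ * z.im - (ρ + 1 / ((n : ℝ) + 1) + (n + 1))| ≤ n + 1 := by
      have h4 : σ * z.im - (ρ + 1 / ((n : ℝ) + 1) + (n + 1)) = σ * (z.im - σ * (ρ + 1 / ((n : ℝ) + 1) + (n + 1))) := by
        rw [mul_sub, ← mul_assoc, hσ2, one_mul]
      rw [h4, abs_mul, hσa, one_mul]
      exact h1
    have h5 := (abs_le.1 h3).1
    have h6 : 0 < 1 / ((n : ℝ) + 1) := by positivity
    show ρ < σ * z.im
    linarith
  · -- the minimum of `σ Im` on `K`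
    obtain ⟨η, hη, hηK⟩ : ∃ η : ℝ, 0 < η ∧ ∀ z ∈ K, ρ + η ≤ σ * z.im := by
      rcases K.eq_empty_or_nonempty with rfl | hne
      · exact ⟨1, one_pos, fun z hz => absurd hz (Set.notMem_empty z)⟩
      · have hcont : ContinuousOn (fun z : ℂ => σ * z.im) K := (continuous_const.mul Complex.continuous_im).continuousOn
        obtain ⟨z₀, hz₀, hmin⟩ := hKc.exists_isMinOn hne hcont
        have h1 : ρ < σ * z₀.im := hK hz₀
        refine ⟨σ * z₀.im - ρ, by linarith, fun z hz => ?_⟩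
        have h2 : σ * z₀.im ≤ σ * z.im := hmin hz
        linarith
    obtain ⟨A, hA⟩ := hKc.isBounded.subset_closedBall (0 : ℂ)
    set T : ℝ := A ^ 2 + (A + |ρ| + 1) ^ 2 with hT
    obtain ⟨n, hn⟩ := exists_nat_gt (max (2 / η) (T / η))
    have hn1 : 2 / η < n := (le_max_left _ _).trans_lt hn
    have hn2 : T / η < n := (le_max_right _ _).trans_lt hn
    have hn0 : (0 : ℝ) ≤ n := Nat.cast_nonneg n
    rw [div_lt_iff₀ hη] at hn1 hn2
    refine ⟨n, fun z hz => ?_⟩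
    have h1 := hηK z hz
    have h2 : ‖z‖ ≤ A := by
      have := hA hz
      rwa [mem_closedBall_zero_iff] at this
    have hre : |z.re| ≤ A := (Complex.abs_re_le_norm z).trans h2
    have him : |z.im| ≤ A := (Complex.abs_im_le_norm z).trans h2
    have hA0 : 0 ≤ A := (norm_nonneg z).trans h2
    have hinv : 1 / ((n : ℝ) + 1) ≤ η / 2 := by
      rw [div_le_div_iff₀ (by positivity) two_pos]
      nlinarith
    have hinv0 : 0 < 1 / ((n : ℝ) + 1) := by positivity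
    have hinv1 : 1 / ((n : ℝ) + 1) ≤ 1 := by
      rw [div_le_one (by positivity)]
      linarith
    set t : ℝ := σ * z.im - ρ - 1 / ((n : ℝ) + 1) with ht
    have ht0 : η / 2 ≤ t := by linarith
    have ht1 : t ≤ A + |ρ| + 1 := by
      have h3 : σ * z.im ≤ A := by
        have h4 : |σ * z.im| ≤ A := by rw [abs_mul, hσa, one_mul]; exact him
        exact (le_abs_self _).trans h4
      have h5 := neg_abs_le ρ
      linarith
    rw [mem_ball, dist_eq_norm]
    have h3 : ‖z - ((σ * (ρ + 1 / ((n : ℝ) + 1) + (n + 1)) : ℝ) : ℂ) * Complex.I‖ ^ 2 = z.re ^ 2 + (t - (n + 1)) ^ 2 := by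
      rw [← Complex.normSq_eq_norm_sq, Complex.normSq_apply]
      have h4 : (z - ((σ * (ρ + 1 / ((n : ℝ) + 1) + (n + 1)) : ℝ) : ℂ) * Complex.I).re = z.re := by simp
      have h5 : (z - ((σ * (ρ + 1 / ((n : ℝ) + 1) + (n + 1)) : ℝ) : ℂ) * Complex.I).im = σ * (t - (n + 1)) := by
        have h6 : (z - ((σ * (ρ + 1 / ((n : ℝ) + 1) + (n + 1)) : ℝ) : ℂ) * Complex.I).im = z.im - σ * (ρ + 1 / ((n : ℝ) + 1) + (n + 1)) := himI _ _
        rw [h6, ht]
        have h7 : σ * (σ * z.im - ρ - 1 / ((n : ℝ) + 1) - (n + 1)) = σ * σ * z.im - σ * (ρ + 1 / ((n : ℝ) + 1) + (n + 1)) := by ring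
        rw [h7, hσ2, one_mul]
      rw [h4, h5]
      have h8 : σ * (t - (n + 1)) * (σ * (t - (n + 1))) = σ * σ * (t - (n + 1)) ^ 2 := by ring
      rw [h8, hσ2]
      ring
    have h4 : z.re ^ 2 ≤ A ^ 2 := sq_le_sq' (by linarith [(abs_le.1 hre).1]) (abs_le.1 hre).2
    have h5 : t ^ 2 ≤ (A + |ρ| + 1) ^ 2 := sq_le_sq' (by linarith [abs_nonneg ρ]) ht1
    have h6 : ‖z - ((σ * (ρ + 1 / ((n : ℝ) + 1) + (n + 1)) : ℝ) : ℂ) * Complex.I‖ ^ 2 < ((n : ℝ) + 1) ^ 2 := by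
      rw [h3]
      have h7 : η * (n + 1) ≤ 2 * t * (n + 1) := by
        have : η ≤ 2 * t := by linarith
        exact mul_le_mul_of_nonneg_right this (by positivity)
      nlinarith
    exact lt_of_pow_lt_pow_left₀ 2 (by positivity) h6

theorem secPN_hol {G : ℂ → PN M} {A : Set ℂ} (h : ∀ z ∈ A, SecPN V e G z) : HolomorphicInto G A := fun z hz => (h z hz).1

/-- limits of sections in projective space are members of `SO` -/
theorem limSec_so (h : IsModel Y V e) {m : ℕ} {a : ℂ} {B₁ : Set ℂ} {δ : ℝ} {P : Set (EN M)}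
    (E : LData (XX Y V e) (DH Y V e) P Lam (Gam m) (uu V e a) (BB B₁ a) δ) {Ω : Set ℂ} (hΩ : IsOpen Ω) {c : ℕ → ℂ} {R : ℕ → ℝ} (hb : Balls Ω c R)
    {Z : Set ℂ} {g : ℂ → PN M} (hg : LimSec V e Ω Z g) : ∃ f ∈ SO (XX Y V e) (DH Y V e) Lam (uu V e a) (BB B₁ a) {z | z + a ∈ Ω},
      ∀ z, z + a ∈ Ω → z + a ∉ Z → f z = prP (g (z + a)) := by
  obtain ⟨-, l, G, hl, hG, hconv⟩ := hg
  set 𝒰 : Ultrafilter ℕ := Ultrafilter.of l with h𝒰
  have h𝒰l : (𝒰 : Filter ℕ) ≤ l := Ultrafilter.of_le l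
  have hta : Continuous fun z : ℂ => z + a := continuous_id.add continuous_const
  have hΩ' : IsOpen {z | z + a ∈ Ω} := hΩ.preimage hta
  -- the domains
  set O : ℕ → Set ℂ := fun n => {z | ∃ k, z + a ∈ ball (c k) (R k) ∧ ∀ w ∈ closedBall (c k) (R k), SecPN V e (G n) w} with hO
  have hOK : ∀ K : Set ℂ, K ⊆ {z | z + a ∈ Ω} → IsCompact K → ∀ᶠ n in (𝒰 : Filter ℕ), K ⊆ O n := by
    intro K hK hKc
    obtain ⟨k, hk⟩ := hb.exh ((fun z => z + a) '' K) (by rintro _ ⟨z, hz, rfl⟩; exact hK hz) (hKc.image hta)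
    filter_upwards [h𝒰l (hG _ (hb.sub k) (isCompact_closedBall _ _))] with n hn z hz
    exact ⟨k, hk ⟨z, hz, rfl⟩, hn⟩
  have hFO : ∀ n, (fun z => prP (G n (z + a))) ∈ SO (XX Y V e) (DH Y V e) Lam (uu V e a) (BB B₁ a) (O n) := by
    intro n K hK hKc δ' ε hδ' hε
    rcases K.eq_empty_or_nonempty with rfl | hne
    · exact ⟨fun _ => 0, fun z hz => absurd hz (Set.notMem_empty z), fun z hz => absurd hz (Set.notMem_empty z)⟩
    -- one ball contains `K`
    set good : ℕ → Prop := fun k => ∀ w ∈ closedBall (c k) (R k), SecPN V e (G n) w with hgood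
    set U : ℕ → Set ℂ := fun k => {z | z + a ∈ ball (c k) (R k) ∧ good k} with hU
    have hUo : ∀ k, IsOpen (U k) := by
      intro k
      by_cases hk : good k
      · have h1 : U k = {z | z + a ∈ ball (c k) (R k)} := by
          ext z
          exact ⟨fun h2 => h2.1, fun h2 => ⟨h2, hk⟩⟩
        rw [h1]
        exact isOpen_ball.preimage hta
      · have h1 : U k = ∅ := by
          ext z
          exact ⟨fun h2 => absurd h2.2 hk, fun h2 => absurd h2 (Set.notMem_empty z)⟩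
        rw [h1]
        exact isOpen_empty
    have hdir : Directed (· ⊆ ·) U := by
      have h1 : ∀ i j, i ≤ j → ∃ k, U i ⊆ U k ∧ U j ⊆ U k := by
        intro i j hij
        by_cases hj : good j
        · exact ⟨j, fun z hz => ⟨hb.le hij hz.1, hj⟩, subset_rfl⟩
        · exact ⟨i, subset_rfl, fun z hz => absurd hz.2 hj⟩
      intro i j
      rcases le_total i j with hij | hij
      · exact h1 i j hij
      · obtain ⟨k, h2, h3⟩ := h1 j i hij
        exact ⟨k, h3, h2⟩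
    obtain ⟨k, hk⟩ := hKc.elim_directed_cover U hUo (fun z hz => by
      obtain ⟨k, h1, h2⟩ := hK hz
      exact Set.mem_iUnion.2 ⟨k, h1, h2⟩) hdir
    obtain ⟨z₁, hz₁⟩ := hne
    have hgk : good k := (hk hz₁).2
    obtain ⟨r, ⟨hr0, hrR⟩, hrK⟩ := exists_pos_lt_subset_ball (hb.pos k) (hKc.image hta).isClosed (x := c k) (s := (fun z => z + a) '' K) (by
      rintro _ ⟨z, hz, rfl⟩
      exact (hk hz).1)
    obtain ⟨F, hF, hFG⟩ := lift_ball hr0 hrR (secPN_hol (V := V) (e := e) fun z hz => hgk z (ball_subset_closedBall hz))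
    have hmem : ∀ z ∈ K, z + a ∈ ball (c k) r := fun z hz => hrK ⟨z, hz, rfl⟩
    refine ⟨fun z => F (z + a), fun z hz => ?_, fun z hz _ => ?_⟩
    · refine secAt_of h ?_ ?_ (hgk _ (ball_subset_closedBall (ball_subset_ball hrR.le (hmem z hz))))
      · have h1 : AnalyticAt ℂ F (z + a) := hF.analyticAt (isOpen_ball.mem_nhds (hmem z hz))
        have h2 : AnalyticAt ℂ (fun z : ℂ => z + a) z := analyticAt_id.add analyticAt_const
        exact AnalyticAt.comp (g := F) (f := fun z : ℂ => z + a) h1 h2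
      · filter_upwards [hta.continuousAt.eventually (isOpen_ball.mem_nhds (hmem z hz))] with w hw
        exact hFG _ hw
    · obtain ⟨h1, h2⟩ := hFG _ (hmem z hz)
      show dist (pr (F (z + a))) (prP (G n (z + a))) < ε
      rw [h2, prP_of, dist_self]
      exact hε
  -- the limits
  have hlim : ∀ z : ℂ, ∃ y : MN M, (z + a ∈ Ω → z ∉ BB B₁ a → Tendsto (fun n => prP (G n (z + a))) 𝒰 (𝓝 y)) ∧
      (z + a ∈ Ω → z + a ∉ Z → y = prP (g (z + a))) := by
    intro z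
    by_cases hzΩ : z + a ∈ Ω
    · by_cases hzZ : z + a ∈ Z
      · by_cases hzB : z ∈ BB B₁ a
        · exact ⟨pr 0, fun _ h1 => absurd hzB h1, fun _ h1 => absurd hzZ h1⟩
        · have h1 : ∀ᶠ n in (𝒰 : Filter ℕ), prP (G n (z + a)) ∈ pr '' (part (XX Y V e) Lam (uu V e a) ‖z‖) := by
            filter_upwards [hOK {z} (Set.singleton_subset_iff.2 hzΩ) isCompact_singleton] with n hn
            exact so_mem E (hFO n) (hn rfl) hzB (mem_nb_norm z)
          have h2 : ((𝒰.map fun n => prP (G n (z + a)) : Ultrafilter (MN M)) : Filter (MN M)) ≤ 𝓟 (pr '' (part (XX Y V e) Lam (uu V e a) ‖z‖)) := by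
            rw [Filter.le_principal_iff]
            exact h1
          obtain ⟨y, -, hy⟩ := (isCompact_pr (E.part_isCone ‖z‖)).ultrafilter_le_nhds _ h2
          exact ⟨y, fun _ _ => hy, fun _ h1 => absurd hzZ h1⟩
      · refine ⟨prP (g (z + a)), fun _ _ => ?_, fun _ _ => rfl⟩
        obtain ⟨s, Φ, Φ₀, hs, h1, -, h3, h4⟩ := hconv _ hzΩ hzZ
        obtain ⟨h5, h6⟩ := h3 _ (mem_ball_self hs)
        have h7 : Tendsto (fun n => Φ n (z + a)) 𝒰 (𝓝 (Φ₀ (z + a))) := (h4.tendsto_at (mem_ball_self hs)).mono_left h𝒰l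
        have h8 : Tendsto (fun n => pr (WithLp.toLp 2 (Φ n (z + a)) : EN M)) 𝒰 (𝓝 (pr (WithLp.toLp 2 (Φ₀ (z + a)) : EN M))) := by
          have h9 : Tendsto (fun n => (WithLp.toLp 2 (Φ n (z + a)) : EN M)) 𝒰 (𝓝 (WithLp.toLp 2 (Φ₀ (z + a)) : EN M)) :=
            ((PiLp.continuous_toLp 2 _).tendsto _).comp h7
          exact (continuousAt_pr (toLp_ne h5)).tendsto.comp h9
        rw [prP_mk h6]
        refine h8.congr' ?_
        filter_upwards [h𝒰l h1] with n hn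
        obtain ⟨h9, h10⟩ := hn.2 _ (mem_ball_self hs)
        exact (prP_mk h10).symm
    · exact ⟨pr 0, fun h1 => absurd h1 hzΩ, fun h1 => absurd h1 hzΩ⟩
  choose f hf1 hf2 using hlim
  refine ⟨f, so_limO E 𝒰 O hΩ' hOK (fun n z => prP (G n (z + a))) f (Eventually.of_forall hFO) (fun z hz hzB => hf1 z hz hzB), fun z hz hzZ => hf2 z hz hzZ⟩

/-- members of `SO` as maps to projective space -/
theorem so_hol (h : IsModel Y V e) {m : ℕ} {a : ℂ} {B₁ : Set ℂ} {δ : ℝ} {P : Set (EN M)}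
    (E : LData (XX Y V e) (DH Y V e) P Lam (Gam m) (uu V e a) (BB B₁ a) δ) {Ω : Set ℂ} (hΩ : IsOpen Ω) {f : ℂ → MN M}
    (hf : f ∈ SO (XX Y V e) (DH Y V e) Lam (uu V e a) (BB B₁ a) Ω) {z : ℂ} (hz : z - a ∈ Ω) (hzB : z - a ∉ BB B₁ a) :
    (∃ φ : ℂ → Fin (M + 1) → ℂ, AnalyticAt ℂ φ z ∧ ∀ᶠ w in 𝓝 z, ∃ h : φ w ≠ 0, tp (f (w - a)) = Projectivization.mk ℂ (φ w) h) ∧
      prP (tp (f (z - a))) = f (z - a) := by
  obtain ⟨r, Ψ, hr, -, hΨ, hΨf, -⟩ := so_lift E hΩ hf hz hzB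
  have hsub : Continuous fun z : ℂ => z - a := continuous_id.sub continuous_const
  have hne : ∀ w ∈ ball (z - a) r, (Ψ w).ofLp ≠ 0 := fun w hw => (hΨf w hw).2.1.1.1
  have hkey : ∀ w ∈ ball (z - a) r, ∃ h : (Ψ w).ofLp ≠ 0, tp (f w) = Projectivization.mk ℂ (Ψ w).ofLp h := by
    intro w hw
    refine ⟨hne w hw, ?_⟩
    rw [← (hΨf w hw).2.2.2, ← prP_of (hne w hw), tp_prP]
  refine ⟨⟨fun w => (Ψ (w - a)).ofLp, ?_, ?_⟩, ?_⟩
  · have h1 : AnalyticAt ℂ Ψ (z - a) := hΨ.analyticAt (isOpen_ball.mem_nhds (mem_ball_self hr))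
    have h2 : AnalyticAt ℂ (fun z : ℂ => z - a) z := analyticAt_id.sub analyticAt_const
    exact Pool.Agent.H36.BP.analyticAt_ofLp (AnalyticAt.comp (g := Ψ) (f := fun z : ℂ => z - a) h1 h2)
  · filter_upwards [hsub.continuousAt.eventually (isOpen_ball.mem_nhds (mem_ball_self hr))] with w hw
    exact hkey _ hw
  · obtain ⟨h1, h2⟩ := hkey _ (mem_ball_self hr)
    rw [h2, prP_of]
    exact (hΨf _ (mem_ball_self hr)).2.2.2

/-- **The output of the dynamical part.** -/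
theorem exists_out (h : IsModel Y V e) (hH : IsHyperbolic Y V e) (hL : HasLogForms Y V e) :
    ∃ (q : ℕ) (B : Set ℂ) (ι : Type) (f : ι → ℂ → PN M), Finite ι ∧ Out V e q B f := by
  obtain ⟨m, a, B₁, δ, P, q, 𝓕, hm, hB, h0, E, hq, hfin, hsub, hfull, hhalf, hper, hshort⟩ := exists_core h hH hL
  obtain ⟨W, hW0, hW⟩ := bad_re hB 0
  have hBB : ∀ z : ℂ, Complex.exp z ∈ B₁ ↔ z - a ∈ BB B₁ a := by
    intro z
    show Complex.exp z ∈ B₁ ↔ Complex.exp (z - a + a) ∈ B₁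
    rw [sub_add_cancel]
  have hreB : ∀ z : ℂ, Complex.exp z ∈ B₁ → |z.re| ≤ W := by
    intro z hz
    refine hW z ?_
    show Complex.exp (z + 0) ∈ B₁
    rwa [add_zero]
  refine ⟨m * q, {z | Complex.exp z ∈ B₁}, {f // f ∈ 𝓕}, fun f z => tp (f.1 (z - a)), hfin.to_subtype, ?_⟩
  have hmq : (1 : ℕ) ≤ m * q := Nat.one_le_iff_ne_zero.2 (mul_ne_zero (Nat.one_le_iff_ne_zero.1 hm) (Nat.one_le_iff_ne_zero.1 hq))
  refine
    { q_pos := hmq
      closed := hB.isClosed.preimage Complex.continuous_exp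
      discrete := ?_
      B_inv := ?_
      B_re := ⟨W, hreB⟩
      hol := ?_
      per := ?_
      short := ?_
      full := ?_
      half := ?_ }
  · intro z
    have h1 := Pool.Agent.H87.LV.badSet_disc E.bad (z - a)
    have h2 : Tendsto (fun w : ℂ => w - a) (𝓝[≠] z) (𝓝[≠] (z - a)) := by
      refine tendsto_nhdsWithin_iff.2 ⟨(((continuous_id.sub continuous_const).tendsto z).mono_left nhdsWithin_le_nhds), ?_⟩
      filter_upwards [self_mem_nhdsWithin] with w hw h3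
      exact hw (sub_left_injective h3)
    filter_upwards [h2.eventually h1] with w hw h3
    exact hw ((hBB w).1 h3)
  · intro b hb k
    show Complex.exp (b + k * (2 * Real.pi * Complex.I * (m * q : ℕ))) ∈ B₁
    have h1 : Complex.exp (k * (2 * Real.pi * Complex.I * (m * q : ℕ))) = 1 := by
      rw [Complex.exp_eq_one_iff]
      exact ⟨k * (m * q : ℕ), by push_cast; ring⟩
    rw [Complex.exp_add, h1, mul_one]
    exact hb
  · intro f z hz
    exact (so_hol h E isOpen_univ (hsub f.2) (Set.mem_univ _) (fun h1 => hz ((hBB z).2 h1))).1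
  · intro f z hz
    show tp (f.1 (z + 2 * Real.pi * Complex.I * (m * q : ℕ) - a)) = tp (f.1 (z - a))
    have h1 := hper f.1 (hsub f.2) (z - a) (fun h1 => hz ((hBB z).2 h1))
    have h2 : z - a + (2 * Real.pi * m : ℝ) * q * Complex.I = z + 2 * Real.pi * Complex.I * (m * q : ℕ) - a := by
      push_cast
      ring
    rw [h2] at h1
    rw [h1]
  · intro f R ε hε
    obtain ⟨X₀, hX₀⟩ := hshort R ε hε
    refine ⟨max (X₀ + |a.re|) (W + R), fun z w hz hwz => ?_⟩
    have hz1 : X₀ + |a.re| < |z.re| := (le_max_left _ _).trans_lt hz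
    have hz2 : W + R < |z.re| := (le_max_right _ _).trans_lt hz
    have hR0 : 0 ≤ R := (norm_nonneg _).trans hwz
    have hzB : z - a ∉ BB B₁ a := by
      intro h1
      have h2 := hreB z ((hBB z).2 h1)
      linarith
    have hwB : w - a ∉ BB B₁ a := by
      intro h1
      have h2 := hreB w ((hBB w).2 h1)
      have h3 : |z.re| ≤ |w.re| + ‖w - z‖ := by
        have h4 := Complex.abs_re_le_norm (w - z)
        rw [Complex.sub_re] at h4
        have h5 : |z.re| ≤ |w.re| + |w.re - z.re| := by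
          have h6 : z.re = w.re - (w.re - z.re) := by ring
          calc |z.re| = |w.re - (w.re - z.re)| := by rw [← h6]
            _ ≤ |w.re| + |w.re - z.re| := abs_sub _ _
        linarith
      linarith
    show dist (prP (tp (f.1 (w - a)))) (prP (tp (f.1 (z - a)))) < ε
    rw [(so_hol h E isOpen_univ (hsub f.2) (Set.mem_univ _) hwB).2, (so_hol h E isOpen_univ (hsub f.2) (Set.mem_univ _) hzB).2]
    refine hX₀ f.1 (hsub f.2) (z - a) (w - a) ?_ ?_
    · rw [Complex.sub_re]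
      have h6 : |z.re| ≤ |z.re - a.re| + |a.re| := by
        have h7 : z.re = (z.re - a.re) + a.re := by ring
        calc |z.re| = |(z.re - a.re) + a.re| := by rw [← h7]
          _ ≤ |z.re - a.re| + |a.re| := abs_add_le _ _
      linarith
    · have h1 : w - a - (z - a) = w - z := by ring
      rw [h1]
      exact hwz
  · intro Z g hg
    obtain ⟨f, hf, hfg⟩ := limSec_so h E isOpen_univ balls_univ hg
    have h1 : {z : ℂ | z + a ∈ Set.univ} = Set.univ := Set.eq_univ_of_forall fun z => Set.mem_univ _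
    rw [h1] at hf
    obtain ⟨f', hf', hff'⟩ := hfull f hf
    refine ⟨⟨f', hf'⟩, fun z hzB hzZ => ?_⟩
    have h2 := hff' (z - a) (fun h3 => hzB ((hBB z).2 h3))
    have h3 := hfg (z - a) (Set.mem_univ _) (by rwa [sub_add_cancel])
    rw [sub_add_cancel] at h3
    show g z = tp (f' (z - a))
    rw [← h2, h3, tp_prP]
  · intro σ ρ hσ Z g hg
    have hO : IsOpen (HPl σ ρ) := isOpen_lt continuous_const (continuous_const.mul Complex.continuous_im)
    obtain ⟨f, hf, hfg⟩ := limSec_so h E hO (balls_half hσ ρ) hg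
    have h1 : {z : ℂ | z + a ∈ HPl σ ρ} = HP σ (ρ - σ * a.im) := by
      ext z
      show ρ < σ * (z + a).im ↔ ρ - σ * a.im < σ * z.im
      rw [Complex.add_im, mul_add]
      constructor <;> intro h2 <;> linarith
    rw [h1] at hf
    obtain ⟨f', hf', hff'⟩ := hhalf σ _ hσ f hf
    refine ⟨⟨f', hf'⟩, fun z hz hzB hzZ => ?_⟩
    have h4 : z - a ∈ HP σ (ρ - σ * a.im) := by
      rw [← h1]
      show z - a + a ∈ HPl σ ρ
      rwa [sub_add_cancel]
    have h2 := hff' (z - a) h4 (fun h3 => hzB ((hBB z).2 h3))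
    have h3 := hfg (z - a) (by rwa [sub_add_cancel]) (by rwa [sub_add_cancel])
    rw [sub_add_cancel] at h3
    show g z = tp (f' (z - a))
    rw [← h2, h3, tp_prP]

end Pool.Agent.H6.LU

end
end
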