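import Pool.Agent.H94.CB.M211
import Pool.Agent.H94.CB.M220
import Pool.Agent.H94.CB.M227
import Pool.Agent.H94.CB.M236
import Pool.Agent.H94.CB.M237

/-! The parts of this file: H4.LU.Main, H4.LU2.Main. -/

section

/-!
# LU Main: the conclusions
-/

set_option autoImplicit false

open Topology Filter MvPolynomial Metric

noncomputable section

namespace Pool.Agent.H4.LU

attribute [-instance] ProperSMul.toContinuousSMul

open Pool.Agent.H17 (PN VanishesAt HolomorphicInto ZariskiClosedIn)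
open Pool.Agent.H62.SA (locVar OnBd)
open Pool.Agent.H13.OT (OrderTwo)
open Pool.Agent.H14.KB (KobayashiHyperbolicModulo)
open Pool.Agent.H7.Bir (GGLOpen pn_identity)
open Pool.Agent.H36.LB (ConvPN IsLimitPN LimModPN)
open Pool.Agent.H19Q (QSurface)

variable {M N : ℕ}

/-- the basic surfaces -/
theorem base_main (U : QSurface) (hU : IsBaseU U) (hgt : U.LogGeneralType) :
    ∃ Ξ : Set (PN U.N), GGLOpen U.P U.G Ξ ∧ ∃ (Q : MvPolynomial (Fin (U.N + 1)) ℂ) (D : ℕ), Q.IsHomogeneous D ∧
      (∃ x ∈ locVar U.P U.G, ¬ VanishesAt Q x) ∧ (∀ x, x ∈ Ξ ↔ x ∈ locVar U.P U.G ∧ VanishesAt Q x) ∧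
        KobayashiHyperbolicModulo (locVar U.P U.G) Q D := by
  obtain ⟨z, hz⟩ := U.dim
  obtain ⟨M, Y, V, e, j, hY, hh, hF, hj⟩ := hU.model
  obtain ⟨q, B, ι, f, hι, O⟩ := Pool.Agent.H6.LU.exists_out hY hh hF
  obtain ⟨B₀, hB₀f, hB₀⟩ := exists_const hY hh
  obtain ⟨p, hp⟩ := caught_of_out hj hB₀ O
  haveI := hι
  refine ggl_of_caught U.homog hz hU.smooth U.form U.nonempty hU.curve hgt hj p hB₀f ?_
  intro A B' D hA hB' hAB hBP heq l F g hl hord hne
  exact hp B' l F g hl hne fun hv => Pool.Agent.H13.LU.exists_lim hY hj hA hB' heq hl hord hv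

/-- a section is a limit of sections -/
theorem limSec_of_section {V : Set (PN M)} {e : PN M → ℂ} {f : ℂ → PN M} (hf : f ∈ sections V e) : LimSec V e Set.univ ∅ f := by
  obtain ⟨h1, h2, h3⟩ := hf
  refine ⟨fun z _ => by simp, atTop, fun _ => f, inferInstance, fun K _ _ => Eventually.of_forall fun n z _ => ⟨h1 z (Set.mem_univ z),
    Eventually.of_forall fun w => ⟨h2 w, h3 w⟩⟩, fun z _ _ => ?_⟩
  obtain ⟨φ, hφ, he⟩ := h1 z (Set.mem_univ _)
  obtain ⟨s, hs, hsb⟩ := Metric.eventually_nhds_iff_ball.1 (hφ.eventually_analyticAt.and he)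
  refine ⟨s, fun _ => φ, φ, hs, Eventually.of_forall fun n => ⟨fun z hz => (hsb z hz).1.differentiableAt.differentiableWithinAt,
    fun z hz => (hsb z hz).2⟩, fun z hz => (hsb z hz).1.differentiableAt.differentiableWithinAt, fun z hz => (hsb z hz).2, ?_⟩
  rw [Metric.tendstoLocallyUniformlyOn_iff]
  intro ε hε z hz
  exact ⟨Set.univ, univ_mem, Eventually.of_forall fun n w _ => by simpa using hε⟩

/-- **The sections.** -/
theorem sections_main {Y V : Set (PN M)} {e : PN M → ℂ} (hY : IsModel Y V e) (hh : IsHyperbolic Y V e) (hF : HasLogForms Y V e) :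
    (sections V e).Finite ∧ ∃ k : ℕ, 1 ≤ k ∧ ∀ f ∈ sections V e, ∃ p : Fin (M + 1) → Polynomial ℂ,
      ∀ z, ∃ h : (fun a => (p a).eval (Complex.exp (z / k))) ≠ 0, f z = Projectivization.mk ℂ _ h := by
  obtain ⟨q, B, ι, g, hι, O⟩ := Pool.Agent.H6.LU.exists_out hY hh hF
  have hkey : ∀ f ∈ sections V e, ∃ i, ∀ z, z ∉ B → f z = g i z := fun f hf => by
    obtain ⟨i, hi⟩ := O.full ∅ f (limSec_of_section hf)
    exact ⟨i, fun z hz => hi z hz (Set.notMem_empty z)⟩
  refine ⟨?_, q, O.q_pos, fun f hf => ?_⟩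
  · -- sections which agree outside `B` are equal
    haveI := hι
    rcases isEmpty_or_nonempty ι with hem | hem
    · convert Set.finite_empty
      rw [Set.eq_empty_iff_forall_notMem]
      intro f hf
      obtain ⟨i, -⟩ := hkey f hf
      exact hem.elim i
    choose! i hi using hkey
    refine Set.Finite.of_finite_image (f := i) (Set.toFinite _) fun f hf f' hf' hff' => ?_
    obtain ⟨z₀, hz₀⟩ : ∃ z₀, z₀ ∉ B := (O.discrete 0).exists
    funext z
    refine pn_identity isPreconnected_univ hf.1 hf'.1 (Set.mem_univ z₀) ?_ z (Set.mem_univ z)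
    filter_upwards [O.closed.isOpen_compl.mem_nhds hz₀] with w hw
    rw [hi f hf w hw, hi f' hf' w hw, hff']
  · obtain ⟨i, hi⟩ := hkey f hf
    exact poly_of_entire O hf.1 hi

end Pool.Agent.H4.LU

end
end

section

/-!
# LU2 Main: the conclusions
-/

set_option autoImplicit false

open Topology Filter MvPolynomial Metric

noncomputable section

namespace Pool.Agent.H4.LU2

attribute [-instance] ProperSMul.toContinuousSMul

open Pool.Agent.H17 (PN VanishesAt)
open Pool.Agent.H62.SA (locVar)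
open Pool.Agent.H14.KB (KobayashiHyperbolicModulo)
open Pool.Agent.H7.Bir (GGLOpen)
open Pool.Agent.H19Q (QSurface IsModification LogClass)
open Pool.Agent.H4.LU (IsBaseU)
open Pool.Agent.H46.LR (IsBaseR)
open Pool.Agent.H62.LR (mainN mainI)

/-- the basic surfaces -/
theorem base_main2 (U : QSurface) (hU : IsBaseU U ∨ IsBaseR U) (hgt : U.LogGeneralType) :
    ∃ Ξ : Set (PN U.N), GGLOpen U.P U.G Ξ ∧ ∃ (Q : MvPolynomial (Fin (U.N + 1)) ℂ) (D : ℕ), Q.IsHomogeneous D ∧
      (∃ x ∈ locVar U.P U.G, ¬ VanishesAt Q x) ∧ (∀ x, x ∈ Ξ ↔ x ∈ locVar U.P U.G ∧ VanishesAt Q x) ∧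
        KobayashiHyperbolicModulo (locVar U.P U.G) Q D := by
  rcases hU with hU | hU
  · exact Pool.Agent.H4.LU.base_main U hU hgt
  · exact Pool.Agent.H46.LR.base_mainR mainN mainI hU hgt

theorem OverUnits.logClass {U : QSurface} (h : OverUnits U) : LogClass (fun U => IsBaseU U ∨ IsBaseR U) U := by
  induction h with
  | base U hU => exact .base U (Or.inl hU)
  | rational U hU => exact .base U (Or.inr hU)
  | modification U U' p hp _ ih => exact .modification U U' p hp ih
  | unramified U U' hs hs' p hp _ ih => exact .unramified U U' hs hs' p hp ih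
  | dominant U U' p hp hgt _ ih => exact .dominant U U' p hp hgt ih

/-- **The main theorem.** -/
theorem OverUnits.main {U : QSurface} (h : OverUnits U) (hgt : U.LogGeneralType) :
    ∃ Ξ : Set (PN U.N), GGLOpen U.P U.G Ξ :=
  h.logClass.main (fun U hU hgt => by
    obtain ⟨Ξ, hΞ, -⟩ := base_main2 U hU hgt
    exact ⟨Ξ, hΞ⟩) hgt

end Pool.Agent.H4.LU2

end
end
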