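import Pool.Agent.H94.CB.M163
import Pool.Agent.H94.CB.M47
import Pool.Agent.H94.CB.M88

/-! The parts of this file: H17N.GermD, H17N.LiftS, H17N.BlowF. -/

section

/-!
# H17N GermD: the zero set of a germ is covered by finitely many discs

`discs_near`: let `g` be analytic at `0`, not identically zero near `0`.  For every `ε > 0` there are finitely many analytic maps `ψ i` from the disc of radius `2` to the ball of radius `ε`, with
`g (ψ i t) = 0`, such that near `0` every zero of `g` is `ψ i t` for some `i` and some `t` with `‖t‖ < 1`.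
By `exists_resN` (H17BP/Art) there is `n` with `ResN n g`; induction on `n` (statement: for all `g` with `ResN n g`).
- Invariance: if the statement is true for `g ∘ θ'` (`θ'` biholomorphic germ) it is true for `g` (compose the discs with `θ'`; take `ε' ` small enough that `θ'` is analytic on the ball of radius `ε'` and maps it
  into the ball of radius `ε`).
- `Mono g`: after a change of coordinates the zero set is that of `p.1 ^ a * p.2 ^ b`: the discs `t ↦ (0, ε t / 4)` (if `a ≥ 1`) and `t ↦ (ε t / 4, 0)` (if `b ≥ 1`); no disc if `a = b = 0`.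
- step: `ResN n (g ∘ β)` for all `BChart β` (and `g 0 = 0`; if `g 0 ≠ 0` no disc is needed).  For every `c : ℂ` apply the induction hypothesis to `g ∘ bl c` with `ε_c` so small that `bl c` maps the ball of radius `ε_c` into the
  ball of radius `ε`; it gives discs and a radius `δ_c`; the same for `g ∘ blInf` with `δ_∞`.  Compactness: the directions `c` with `‖c‖ ≤ 1 / δ_∞` are covered by finitely many balls `ball c δ_c`.  Let `δ ≤` all the
  finitely many `δ_c`, `δ_∞` used.  Let `‖p‖ < δ`, `g p = 0`.  If `p.1 ≠ 0` and `‖p.2 / p.1‖ ≤ 1 / δ_∞` then `p.2 / p.1 ∈ ball c δ_c` for one of the chosen `c`, and `p = bl c (p.1, p.2 / p.1 - c)`: covered by a disc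
  for `g ∘ bl c`, composed with `bl c`.  Otherwise `p.2 ≠ 0` (unless `p = 0`) and `‖p.1 / p.2‖ < δ_∞`: `p = blInf (p.1 / p.2, p.2)`.  `p = 0`: constant disc `ψ = 0` (analytic, `g 0 = 0`).
-/

set_option autoImplicit false

open Topology Filter Metric

namespace Pool.Agent.H17N

attribute [-instance] ProperSMul.toContinuousSMul

open Pool.Agent.H17BP (Bihol Coord Mono bl blInf BChart ResN exists_resN)

private theorem GD_pow {z : ℂ} {a : ℕ} (h : z ^ a = 0) : z = 0 ∧ a ≠ 0 := by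
  refine ⟨eq_zero_of_pow_eq_zero h, ?_⟩
  rintro rfl
  rw [pow_zero] at h
  exact one_ne_zero h

/-- the statement for one germ and one radius -/
private def GD (g : ℂ × ℂ → ℂ) (ε : ℝ) : Prop :=
  ∃ (n : ℕ) (ψ : Fin n → ℂ → ℂ × ℂ) (δ : ℝ), 0 < δ ∧
    (∀ i, ∀ t ∈ ball (0 : ℂ) 2, AnalyticAt ℂ (ψ i) t ∧ ψ i t ∈ ball (0 : ℂ × ℂ) ε ∧ g (ψ i t) = 0) ∧
    ∀ p ∈ ball (0 : ℂ × ℂ) δ, g p = 0 → ∃ i, ∃ t ∈ ball (0 : ℂ) 1, ψ i t = p

private theorem GD_mk {g : ℂ × ℂ → ℂ} {ε : ℝ} {ι : Type} [Finite ι] (ψ : ι → ℂ → ℂ × ℂ) {δ : ℝ} (hδ : 0 < δ)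
    (h1 : ∀ i, ∀ t ∈ ball (0 : ℂ) 2, AnalyticAt ℂ (ψ i) t ∧ ψ i t ∈ ball (0 : ℂ × ℂ) ε ∧ g (ψ i t) = 0)
    (h2 : ∀ p ∈ ball (0 : ℂ × ℂ) δ, g p = 0 → ∃ i, ∃ t ∈ ball (0 : ℂ) 1, ψ i t = p) : GD g ε := by
  obtain ⟨n, ⟨e⟩⟩ := Finite.exists_equiv_fin ι
  refine ⟨n, fun i => ψ (e.symm i), δ, hδ, fun i t ht => h1 _ t ht, fun p hp hg => ?_⟩
  obtain ⟨i, t, ht, he⟩ := h2 p hp hg
  refine ⟨e i, t, ht, ?_⟩
  change ψ (e.symm (e i)) t = p
  rw [e.symm_apply_apply]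
  exact he

/-- only the zero set matters -/
private theorem GD_congr {g g₁ : ℂ × ℂ → ℂ} (h : ∀ᶠ x in 𝓝 (0 : ℂ × ℂ), g x = 0 ↔ g₁ x = 0)
    (h₁ : ∀ ε : ℝ, 0 < ε → GD g₁ ε) : ∀ ε : ℝ, 0 < ε → GD g ε := by
  intro ε hε
  obtain ⟨r, hr, hr'⟩ := Metric.eventually_nhds_iff_ball.1 h
  obtain ⟨n, ψ, δ, hδ, h2, h3⟩ := h₁ (min ε r) (lt_min hε hr)
  refine ⟨n, ψ, min δ r, lt_min hδ hr, fun i t ht => ?_, fun p hp hg => ?_⟩
  · obtain ⟨h4, h5, h6⟩ := h2 i t ht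
    exact ⟨h4, ball_subset_ball (min_le_left _ _) h5, (hr' _ (ball_subset_ball (min_le_right _ _) h5)).2 h6⟩
  · exact h3 p (ball_subset_ball (min_le_left _ _) hp) ((hr' _ (ball_subset_ball (min_le_right _ _) hp)).1 hg)

/-- change of coordinates -/
private theorem GD_of_comp {g : ℂ × ℂ → ℂ} {θ : ℂ × ℂ → ℂ × ℂ} (hθ : Bihol θ)
    (h₁ : ∀ ε : ℝ, 0 < ε → GD (g ∘ θ) ε) : ∀ ε : ℝ, 0 < ε → GD g ε := by
  intro ε hε
  have h1 : ∀ᶠ x in 𝓝 (0 : ℂ × ℂ), AnalyticAt ℂ θ x ∧ θ x ∈ ball (0 : ℂ × ℂ) ε :=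
    hθ.an.eventually_analyticAt.and (hθ.tendsto.eventually (ball_mem_nhds 0 hε))
  obtain ⟨r, hr, hr'⟩ := Metric.eventually_nhds_iff_ball.1 h1
  obtain ⟨n, ψ, δ, hδ, h2, h3⟩ := h₁ r hr
  obtain ⟨θ', h4, -, h5⟩ := hθ.exists_inv
  obtain ⟨δ', hδ', h6⟩ := Metric.eventually_nhds_iff_ball.1 (h5.and (h4.tendsto.eventually (ball_mem_nhds 0 hδ)))
  refine ⟨n, fun i t => θ (ψ i t), δ', hδ', fun i t ht => ?_, fun p hp hg => ?_⟩
  · obtain ⟨h7, h8, h9⟩ := h2 i t ht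
    exact ⟨(hr' _ h8).1.comp h7, (hr' _ h8).2, h9⟩
  · obtain ⟨h7, h8⟩ := h6 p hp
    obtain ⟨i, t, ht, h9⟩ := h3 (θ' p) h8 (by rw [Function.comp_apply, h7, hg])
    exact ⟨i, t, ht, by change θ (ψ i t) = p; rw [h9, h7]⟩

private theorem GD_monomial (a b : ℕ) {ε : ℝ} (hε : 0 < ε) : GD (fun p => p.1 ^ a * p.2 ^ b) ε := by
  have hb : ∀ t ∈ ball (0 : ℂ) 2, ‖(ε : ℂ) / 4 * t‖ < ε := by
    intro t ht
    rw [mem_ball_zero_iff] at ht
    rw [norm_mul, norm_div, Complex.norm_real, Real.norm_of_nonneg hε.le]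
    have : ‖(4 : ℂ)‖ = 4 := by simp
    rw [this]
    nlinarith
  have hc : ∀ z : ℂ, ‖z‖ < ε / 4 → 4 / (ε : ℂ) * z ∈ ball (0 : ℂ) 1 ∧ (ε : ℂ) / 4 * (4 / (ε : ℂ) * z) = z := by
    intro z hz
    have hε' : (ε : ℂ) ≠ 0 := by exact_mod_cast hε.ne'
    constructor
    · rw [mem_ball_zero_iff, norm_mul, norm_div, Complex.norm_real, Real.norm_of_nonneg hε.le]
      have : ‖(4 : ℂ)‖ = 4 := by simp
      rw [this, div_mul_eq_mul_div, div_lt_one hε]
      linarith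
    · field_simp
  refine GD_mk (ι := {i : Bool // if i then a ≠ 0 else b ≠ 0})
    (fun i t => if i.1 then ((0 : ℂ), (ε : ℂ) / 4 * t) else ((ε : ℂ) / 4 * t, (0 : ℂ))) (δ := ε / 4) (by positivity) ?_ ?_
  · rintro ⟨i, hi⟩ t ht
    cases i
    · simp only [Bool.false_eq_true, if_false] at hi ⊢
      refine ⟨(analyticAt_const.mul analyticAt_id).prod analyticAt_const, ?_, ?_⟩
      · rw [mem_ball_zero_iff, Prod.norm_def, max_lt_iff]
        exact ⟨hb t ht, by simpa using hε⟩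
      · rw [zero_pow hi, mul_zero]
    · simp only [if_true] at hi ⊢
      refine ⟨analyticAt_const.prod (analyticAt_const.mul analyticAt_id), ?_, ?_⟩
      · rw [mem_ball_zero_iff, Prod.norm_def, max_lt_iff]
        exact ⟨by simpa using hε, hb t ht⟩
      · rw [zero_pow hi, zero_mul]
  · intro p hp hg
    rw [mem_ball_zero_iff, Prod.norm_def, max_lt_iff] at hp
    rcases mul_eq_zero.1 hg with h | h
    · obtain ⟨h1, h2⟩ := GD_pow h
      exact ⟨⟨true, by simpa using h2⟩, 4 / (ε : ℂ) * p.2, (hc _ hp.2).1, by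
        simp only [if_true]
        rw [(hc _ hp.2).2, ← h1]⟩
    · obtain ⟨h1, h2⟩ := GD_pow h
      exact ⟨⟨false, by simpa using h2⟩, 4 / (ε : ℂ) * p.1, (hc _ hp.1).1, by
        simp only [Bool.false_eq_true, if_false]
        rw [(hc _ hp.1).2, ← h1]⟩

private theorem GD_mono {g : ℂ × ℂ → ℂ} (h : Mono g) : ∀ ε : ℝ, 0 < ε → GD g ε := by
  obtain ⟨S, T, a, b, u, hST, hu, hu0, hg⟩ := h
  obtain ⟨θ', h1, -, h3⟩ := hST.exists_inv
  have h4 : ∀ᶠ x in 𝓝 (0 : ℂ × ℂ), g x = 0 ↔ (fun x => S x ^ a * T x ^ b) x = 0 := by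
    filter_upwards [hg, hu.continuousAt.eventually_ne hu0] with x hx hx'
    rw [hx]
    simp [hx']
  refine GD_congr h4 (GD_of_comp h1 ?_)
  refine GD_congr ?_ (fun ε hε => GD_monomial a b hε)
  filter_upwards [h3] with x hx
  have h5 : S (θ' x) = x.1 := congrArg Prod.fst hx
  have h6 : T (θ' x) = x.2 := congrArg Prod.snd hx
  simp only [Function.comp_apply]
  rw [h5, h6]

/-- transport by a blow-up chart -/
private theorem GD_push {g : ℂ × ℂ → ℂ} {β : ℂ × ℂ → ℂ × ℂ} (hβ : ∀ x, AnalyticAt ℂ β x) (hβ0 : β 0 = 0)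
    (h₁ : ∀ ε : ℝ, 0 < ε → GD (g ∘ β) ε) {ε : ℝ} (hε : 0 < ε) :
    ∃ (n : ℕ) (ψ : Fin n → ℂ → ℂ × ℂ) (δ : ℝ), 0 < δ ∧
      (∀ i, ∀ t ∈ ball (0 : ℂ) 2, AnalyticAt ℂ (ψ i) t ∧ ψ i t ∈ ball (0 : ℂ × ℂ) ε ∧ g (ψ i t) = 0) ∧
      ∀ p ∈ ball (0 : ℂ × ℂ) δ, g (β p) = 0 → ∃ i, ∃ t ∈ ball (0 : ℂ) 1, ψ i t = β p := by
  have h1 : ∀ᶠ x in 𝓝 (0 : ℂ × ℂ), β x ∈ ball (0 : ℂ × ℂ) ε := by
    have h2 := (hβ 0).continuousAt.tendsto
    rw [hβ0] at h2
    exact h2.eventually (ball_mem_nhds 0 hε)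
  obtain ⟨r, hr, hr'⟩ := Metric.eventually_nhds_iff_ball.1 h1
  obtain ⟨n, ψ, δ, hδ, h2, h3⟩ := h₁ r hr
  refine ⟨n, fun i t => β (ψ i t), δ, hδ, fun i t ht => ?_, fun p hp hg => ?_⟩
  · obtain ⟨h7, h8, h9⟩ := h2 i t ht
    exact ⟨(hβ _).comp h7, hr' _ h8, h9⟩
  · obtain ⟨i, t, ht, h9⟩ := h3 p hp hg
    exact ⟨i, t, ht, by change β (ψ i t) = β p; rw [h9]⟩

private theorem GD_step {g : ℂ × ℂ → ℂ} (hc : ∀ c : ℂ, ∀ ε : ℝ, 0 < ε → GD (g ∘ bl c) ε)
    (hinf : ∀ ε : ℝ, 0 < ε → GD (g ∘ blInf) ε) : ∀ ε : ℝ, 0 < ε → GD g ε := by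
  intro ε hε
  have h1 := fun c => GD_push (Pool.Agent.H17BP.analyticAt_bl c) (Pool.Agent.H17BP.bl_zero c) (hc c) hε
  choose n ψ δ hδ hd hcov using h1
  obtain ⟨n', ψ', δ', hδ', hd', hcov'⟩ :=
    GD_push Pool.Agent.H17BP.analyticAt_blInf Pool.Agent.H17BP.blInf_zero hinf hε
  obtain ⟨T, -, hT⟩ := (isCompact_closedBall (0 : ℂ) (1 / δ')).elim_nhds_subcover (fun c => ball c (δ c))
    (fun c _ => ball_mem_nhds c (hδ c))
  obtain ⟨δ₀, hδ₀, hδ₁, hδ₂⟩ : ∃ δ₀ : ℝ, 0 < δ₀ ∧ δ₀ ≤ δ' ∧ ∀ c ∈ T, δ₀ ≤ δ c := by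
    have h2 : ∀ᶠ x in 𝓝[>] (0 : ℝ), x ≤ δ' ∧ ∀ c ∈ T, x ≤ δ c := by
      refine Filter.Eventually.and ?_ ((Filter.eventually_all_finset T).2 fun c _ => ?_)
      · exact mem_nhdsWithin_of_mem_nhds (Iic_mem_nhds hδ')
      · exact mem_nhdsWithin_of_mem_nhds (Iic_mem_nhds (hδ c))
    obtain ⟨x, hx, hx'⟩ := (h2.and (eventually_mem_nhdsWithin)).exists
    exact ⟨x, hx', hx.1, hx.2⟩
  refine GD_mk (ι := {_u : Unit // g 0 = 0} ⊕ (Fin n' ⊕ (Σ c : T, Fin (n c.1))))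
    (Sum.elim (fun _ _ => 0) (Sum.elim ψ' fun i => ψ i.1.1 i.2)) hδ₀ ?_ ?_
  · rintro (⟨-, h0⟩ | i | ⟨c, i⟩) t ht
    · exact ⟨analyticAt_const, mem_ball_self hε, h0⟩
    · exact hd' i t ht
    · exact hd c.1 i t ht
  · intro p hp hg
    by_cases hp0 : p = 0
    · subst hp0
      exact ⟨Sum.inl ⟨(), hg⟩, 0, mem_ball_self one_pos, rfl⟩
    have hp' := hp
    rw [mem_ball_zero_iff, Prod.norm_def, max_lt_iff] at hp'
    by_cases hA : p.1 ≠ 0 ∧ ‖p.2 / p.1‖ ≤ 1 / δ'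
    · obtain ⟨hp1, hp2⟩ := hA
      have h3 := hT (mem_closedBall_zero_iff.2 hp2)
      rw [Set.mem_iUnion₂] at h3
      obtain ⟨c, hcT, h4⟩ := h3
      have h5 : bl c (p.1, p.2 / p.1 - c) = p := by
        unfold bl
        ext
        · rfl
        · simp only
          field_simp
          ring
      obtain ⟨i, t, ht, h6⟩ := hcov c (p.1, p.2 / p.1 - c) (by
        rw [mem_ball_zero_iff, Prod.norm_def, max_lt_iff]
        refine ⟨hp'.1.trans_le (hδ₂ c hcT), ?_⟩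
        rwa [mem_ball_iff_norm] at h4) (by rw [h5]; exact hg)
      exact ⟨Sum.inr (Sum.inr ⟨⟨c, hcT⟩, i⟩), t, ht, by rw [h5] at h6; exact h6⟩
    · have hp2 : p.2 ≠ 0 := by
        intro h0
        refine hA ⟨fun h => hp0 (Prod.ext h h0), ?_⟩
        rw [h0, zero_div, norm_zero]
        positivity
      have h3 : ‖p.1 / p.2‖ < δ' := by
        by_cases hp1 : p.1 = 0
        · rw [hp1, zero_div, norm_zero]
          exact hδ'
        · have h4 : 1 / δ' < ‖p.2 / p.1‖ := by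
            by_contra hcon
            exact hA ⟨hp1, not_lt.1 hcon⟩
          rw [norm_div] at h4 ⊢
          have h5 : 0 < ‖p.1‖ := norm_pos_iff.2 hp1
          have h6 : 0 < ‖p.2‖ := norm_pos_iff.2 hp2
          rw [div_lt_div_iff₀ hδ' h5, one_mul] at h4
          rw [div_lt_iff₀ h6]
          linarith
      have h5 : blInf (p.1 / p.2, p.2) = p := by
        unfold blInf
        ext
        · simp only
          field_simp
        · rfl
      obtain ⟨i, t, ht, h6⟩ := hcov' (p.1 / p.2, p.2) (by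
        rw [mem_ball_zero_iff, Prod.norm_def, max_lt_iff]
        exact ⟨h3, hp'.2.trans_le hδ₁⟩) (by rw [h5]; exact hg)
      exact ⟨Sum.inr (Sum.inl i), t, ht, by rw [h5] at h6; exact h6⟩

private theorem GD_res {n : ℕ} : ∀ {g : ℂ × ℂ → ℂ}, ResN n g → ∀ ε : ℝ, 0 < ε → GD g ε := by
  induction n with
  | zero => intro g h; exact GD_mono h
  | succ n ih =>
    intro g h
    rcases h with h | h
    · exact GD_mono h
    · exact GD_step (fun c => ih (h (bl c) (Pool.Agent.H17BP.bchart_bl c)))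
        (ih (h blInf Pool.Agent.H17BP.bchart_blInf))

theorem discs_near {g : ℂ × ℂ → ℂ} (hg : AnalyticAt ℂ g 0) (hne : ¬ ∀ᶠ p in 𝓝 (0 : ℂ × ℂ), g p = 0) {ε : ℝ} (hε : 0 < ε) :
    ∃ (n : ℕ) (ψ : Fin n → ℂ → ℂ × ℂ) (δ : ℝ), 0 < δ ∧
      (∀ i, ∀ t ∈ ball (0 : ℂ) 2, AnalyticAt ℂ (ψ i) t ∧ ψ i t ∈ ball (0 : ℂ × ℂ) ε ∧ g (ψ i t) = 0) ∧
      ∀ p ∈ ball (0 : ℂ × ℂ) δ, g p = 0 → ∃ i, ∃ t ∈ ball (0 : ℂ) 1, ψ i t = p := by
  obtain ⟨n, hn⟩ := exists_resN hg hne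
  exact GD_res hn ε hε

end Pool.Agent.H17N

end

section

/-!
# H17N LiftS: the curves `f` with `u (f z) = z` lift to the blow-up

Let `f ∈ HSec X Λ u`.  Near every `z₀` the points with `Pr (f z) q` are isolated, because `u (f z) - z ∈ Λ` and `u (f z) - u q ∈ Λ` (`tor.smul`) give `z - u q ∈ Λ`, and `Λ` is discrete.  The lift: `H17BP.exists_lift` (TrP.lean) is stated for the punctured discs `z ≠ 0, ‖z‖ < r`; we need it on all of `ℂ`: copy its
proof (local lifts by `H62.BU.lift_curve`, `TrP_local`, `TrP_prop` are private: copy them; drop `z ≠ 0`, `‖z‖ < r`).  Result: `h : ℂ → ι → V`, `HolP h z`, `h z ∈ blow l X`, `h z b ≠ 0 → Pr (f z) (h z b)`.  So `uB u (h z) - z ∈ Λ` (`uB_eq`, `tor.smul`), that is `h ∈ HSec (blow l X) Λ (uB u)`.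
If `S` is the finite set for the blow-up, take the images `z ↦ cmp (g z)` for `g ∈ S`: if `Pr (h z) (g z)` then a component of `h z` which is `≠ 0` is proportional to the same component of `g z`, which is proportional to `cmp (g z)` (`g z = c⁻¹ • h z ∈ blow l X`, `H62.BU.comp_smul`).
-/

set_option autoImplicit false

open Topology Filter

namespace Pool.Agent.H17N

attribute [-instance] ProperSMul.toContinuousSMul

open Pool.Agent.H17BP (Surface IsChart Tan Pr HolP ResN)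
open Pool.Agent.H62.BU (blow phi Ker)

variable {V : Type} [NormedAddCommGroup V] [NormedSpace ℂ V] {ι : Type} [Fintype ι] {l : ι → V →L[ℂ] ℂ} {X : Set V} {q : V}
  {Λ : AddSubgroup ℂ} {u : V → ℂ}

private theorem LiftS_forms (hl : Ker l q) {x y : V} (h : Pr x y) (hy : y ≠ 0) : Pr x q ↔ ∀ b, l b y = 0 := by
  constructor
  · intro hx b
    obtain ⟨c, hc, e⟩ := h.symm.trans hx
    rw [e, map_smul, (hl q).2 ⟨1, (one_smul _ _).symm⟩ b, smul_zero]
  · intro hb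
    obtain ⟨c, hc⟩ := (hl y).1 hb
    refine h.trans ⟨c, ?_, hc⟩
    rintro rfl
    rw [zero_smul] at hc
    exact hy hc

private theorem LiftS_phi {x y : V} {c : ℂ} (h : x = c • y) : phi l x = c ^ 2 • phi l y := by
  rw [h, H62.BU.phi_smul]

/-- The local lift. -/
private theorem LiftS_local (hX : Surface X) (hl : Ker l q) {f : ℂ → V}
    (hf : ∀ z : ℂ, HolP f z ∧ f z ∈ X)
    (hi : ∀ z₀ : ℂ, ∀ᶠ z in 𝓝[≠] z₀, ¬ Pr (f z) q) (z₀ : ℂ) :
    ∃ (F : ℂ → V) (G : ℂ → ι → V) (k : ℕ), AnalyticAt ℂ F z₀ ∧ F z₀ ≠ 0 ∧ (∀ᶠ z in 𝓝 z₀, Pr (f z) (F z)) ∧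
      AnalyticAt ℂ G z₀ ∧ (∀ᶠ z in 𝓝 z₀, G z ∈ blow l X) ∧
      ∀ᶠ z in 𝓝 z₀, phi l (F z) = (z - z₀) ^ k • G z := by
  obtain ⟨F, hF, hF0, hfF⟩ := (hf z₀).1
  have hFX : ∀ᶠ z in 𝓝 z₀, F z ∈ X := by
    filter_upwards [hfF] with z h1
    exact (Pr.mem_iff hX.smul h1).1 (hf z).2
  have hne : ∃ᶠ z in 𝓝[≠] z₀, ∃ b, l b (F z) ≠ 0 := by
    refine Eventually.frequently ?_
    filter_upwards [hi z₀, hfF.filter_mono nhdsWithin_le_nhds,
      (hF.continuousAt.eventually_ne hF0).filter_mono nhdsWithin_le_nhds] with z h1 h2 h3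
    by_contra h4
    push Not at h4
    exact h1 ((LiftS_forms hl h2 h3).2 h4)
  obtain ⟨k, G, hG, hGb, hGe⟩ := H62.BU.lift_curve hF hFX hne
  exact ⟨F, G, k, hF, hF0, hfF, hG, hGb, hGe⟩

private theorem LiftS_prop {F : ℂ → V} {G : ℂ → ι → V} {k : ℕ} {z : ℂ} (hF : AnalyticAt ℂ F z)
    (hF0 : F z ≠ 0) (hG : AnalyticAt ℂ G z) (h : ∀ᶠ w in 𝓝 z, phi l (F w) = (w - z) ^ k • G w) {b : ι}
    (hb : G z b ≠ 0) : Pr (F z) (G z b) := by
  obtain ⟨Λ, hΛ1, hΛ2⟩ := exists_dual_vector ℂ (F z) (norm_ne_zero_iff.mpr hF0)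
  have hΛ : Λ (F z) ≠ 0 := by
    rw [hΛ2]
    simpa using hF0
  have hGb : ContinuousAt (fun w => G w b) z := (continuous_apply b).continuousAt.comp hG.continuousAt
  have h1 : Tendsto (fun w => Λ (F w) • G w b) (𝓝[≠] z) (𝓝 (Λ (F z) • G z b)) := by
    refine Tendsto.mono_left ?_ nhdsWithin_le_nhds
    exact ((Λ.continuous.continuousAt.comp hF.continuousAt).smul hGb).tendsto
  have h2 : Tendsto (fun w => Λ (G w b) • F w) (𝓝[≠] z) (𝓝 (Λ (G z b) • F z)) := by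
    refine Tendsto.mono_left ?_ nhdsWithin_le_nhds
    exact ((Λ.continuous.continuousAt.comp hGb).smul hF.continuousAt).tendsto
  have h3 : ∀ᶠ w in 𝓝[≠] z, Λ (F w) • G w b = Λ (G w b) • F w := by
    filter_upwards [h.filter_mono nhdsWithin_le_nhds, self_mem_nhdsWithin] with w h4 h5
    have h6 : (w - z) ^ k ≠ 0 := pow_ne_zero _ (sub_ne_zero.2 h5)
    have h7 : l b (F w) • F w = (w - z) ^ k • G w b := congrFun h4 b
    have h8 : (w - z) ^ k • (Λ (F w) • G w b) = (w - z) ^ k • (Λ (G w b) • F w) := by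
      have h9 : (w - z) ^ k * Λ (G w b) = l b (F w) * Λ (F w) := by
        have h10 := congrArg Λ h7
        rw [map_smul, map_smul, smul_eq_mul, smul_eq_mul] at h10
        exact h10.symm
      rw [smul_comm, ← h7, smul_smul ((w - z) ^ k), h9, smul_smul, mul_comm]
    exact (smul_right_injective V h6) h8
  have h4 : Λ (F z) • G z b = Λ (G z b) • F z :=
    tendsto_nhds_unique_of_eventuallyEq h1 h2 h3
  have h5 : G z b = ((Λ (F z))⁻¹ * Λ (G z b)) • F z := by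
    rw [mul_smul, ← h4, smul_smul, inv_mul_cancel₀ hΛ, one_smul]
  refine Pr.symm ⟨(Λ (F z))⁻¹ * Λ (G z b), ?_, h5⟩
  intro h0
  rw [h0, zero_smul] at h5
  exact hb h5

/-- The lift of an entire curve to the blow-up. -/
private theorem LiftS_exists (hX : Surface X) (hl : Ker l q) {f : ℂ → V}
    (hf : ∀ z : ℂ, HolP f z ∧ f z ∈ X)
    (hi : ∀ z₀ : ℂ, ∀ᶠ z in 𝓝[≠] z₀, ¬ Pr (f z) q) :
    ∃ h : ℂ → ι → V, (∀ z : ℂ, HolP h z ∧ h z ∈ blow l X) ∧
      ∀ z : ℂ, ∀ b, h z b ≠ 0 → Pr (f z) (h z b) := by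
  classical
  choose F G k hFG using LiftS_local (ι := ι) hX hl hf hi
  have hf0 : ∀ z : ℂ, f z ≠ 0 := fun z h3 => hX.zero (h3 ▸ (hf z).2)
  refine ⟨fun z => if ∃ b, l b (f z) ≠ 0 then phi l (f z) else G z z, ?_, ?_⟩
  · intro z₀
    obtain ⟨hF, hF0, hfF, hG, hGb, hGe⟩ := hFG z₀
    refine ⟨⟨G z₀, hG, hGb.self_of_nhds.2, ?_⟩, ?_⟩
    · have hi' : ∀ᶠ z in 𝓝 z₀, z ≠ z₀ → ¬ Pr (f z) q := by
        have := hi z₀
        rwa [eventually_nhdsWithin_iff] at this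
      filter_upwards [hfF, hGe, hi'] with z h1 h2 h3
      split_ifs with h5
      · obtain ⟨c, hc, e⟩ := h1
        have h6 : phi l (f z) = (c ^ 2 * (z - z₀) ^ k z₀) • G z₀ z := by
          rw [LiftS_phi e, h2, smul_smul]
        refine ⟨_, ?_, h6⟩
        intro h7
        rw [h7, zero_smul] at h6
        exact H62.BU.phi_ne h5 h6
      · push Not at h5
        have h6 : z = z₀ := by
          by_contra h7
          exact h3 h7 ((LiftS_forms hl (Pr.refl (f z)) (hf0 z)).2 h5)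
        rw [h6]
        exact Pr.refl _
    · show (if ∃ b, l b (f z₀) ≠ 0 then phi l (f z₀) else G z₀ z₀) ∈ blow l X
      split_ifs with h5
      · exact H62.BU.dense_sub (H62.BU.phi_mem_dense (hf z₀).2 h5)
      · exact hGb.self_of_nhds
  · intro z b
    obtain ⟨hF, hF0, hfF, hG, hGb, hGe⟩ := hFG z
    simp only
    split_ifs with h5
    · intro h6
      have h7 : phi l (f z) b = l b (f z) • f z := rfl
      rw [h7] at h6 ⊢
      have h8 : l b (f z) ≠ 0 := by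
        intro h9
        rw [h9, zero_smul] at h6
        exact h6 rfl
      exact Pr.symm ⟨_, h8, rfl⟩
    · intro h6
      exact (hfF.self_of_nhds).trans (LiftS_prop hF hF0 hG hGe h6)

theorem exists_lift_sec (hΛ : ∃ δ : ℝ, 0 < δ ∧ ∀ l ∈ Λ, ‖l‖ < δ → l = 0) (hX : Surface X) (hu : TMap X Λ u) (hl : Ker l q) (hq : q ∈ X) {f : ℂ → V}
    (hf : f ∈ HSec X Λ u) : ∃ h ∈ HSec (blow l X) Λ (uB u), ∀ z b, h z b ≠ 0 → Pr (f z) (h z b) := by
  obtain ⟨δ, hδ, hΛ⟩ := hΛ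
  have hpt : ∀ z, Pr (f z) q → z - u q ∈ Λ := by
    rintro z ⟨c, hc, e⟩
    have h1 := hu.smul q hq c hc
    have h2 := hf.2.2 z
    rw [e] at h2
    have h3 := Λ.sub_mem h1 h2
    have e2 : z - u q = u (c • q) - u q - (u (c • q) - z) := by ring
    rw [e2]; exact h3
  have hi : ∀ z₀ : ℂ, ∀ᶠ z in 𝓝[≠] z₀, ¬ Pr (f z) q := by
    intro z₀
    by_cases hz : ∃ z1 : ℂ, z1 ≠ z₀ ∧ dist z1 z₀ < δ / 2 ∧ z1 - u q ∈ Λ
    · obtain ⟨z1, h1, h2, h3⟩ := hz
      have h4 : ∀ᶠ z in 𝓝 z₀, z ≠ z1 := eventually_ne_nhds (Ne.symm h1)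
      filter_upwards [h4.filter_mono nhdsWithin_le_nhds,
        (Metric.ball_mem_nhds z₀ (half_pos hδ) : Metric.ball z₀ (δ / 2) ∈ 𝓝 z₀) |> (mem_nhdsWithin_of_mem_nhds ·)] with z h5 h6 h7
      have h8 := Λ.sub_mem (hpt z h7) h3
      have e3 : z - u q - (z1 - u q) = z - z1 := by ring
      rw [e3] at h8
      have h9 : ‖z - z1‖ < δ := by
        have h10 : dist z z₀ < δ / 2 := h6
        have h11 := dist_triangle_right z z1 z₀
        rw [dist_eq_norm] at h11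
        linarith
      exact h5 (sub_eq_zero.1 (hΛ _ h8 h9))
    · push Not at hz
      filter_upwards [self_mem_nhdsWithin,
        (Metric.ball_mem_nhds z₀ (half_pos hδ) : Metric.ball z₀ (δ / 2) ∈ 𝓝 z₀) |> (mem_nhdsWithin_of_mem_nhds ·)] with z h5 h6 h7
      exact hz z h5 h6 (hpt z h7)
  obtain ⟨h, h1, h2⟩ := LiftS_exists hX hl (fun z => ⟨hf.1 z, hf.2.1 z⟩) hi
  refine ⟨h, ⟨fun z => (h1 z).1, fun z => (h1 z).2, fun z => ?_⟩, h2⟩
  obtain ⟨b, hb⟩ := H62.BU.exists_ne (h z) (h1 z).2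
  have h3 := uB_eq hX hu (h1 z).2 hb
  have h4 := h2 z b hb
  have hbX : h z b ∈ X := (Pr.mem_iff hX.smul h4).1 (hf.2.1 z)
  obtain ⟨c, hc, e⟩ := h4
  have h5 := hu.smul _ hbX c hc
  rw [← e] at h5
  have h6 := hf.2.2 z
  have h7 := Λ.add_mem (Λ.sub_mem h3 h5) h6
  have e4 : uB u (h z) - z = uB u (h z) - u (h z b) - (u (f z) - u (h z b)) + (u (f z) - z) := by ring
  rw [e4]; exact h7

theorem finSec_of_blow (hΛ : ∃ δ : ℝ, 0 < δ ∧ ∀ l ∈ Λ, ‖l‖ < δ → l = 0) (hX : Surface X) (hu : TMap X Λ u) (hl : Ker l q) (hq : q ∈ X)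
    (h : FinSec (blow l X) Λ (uB u)) : FinSec X Λ u := by
  classical
  obtain ⟨S, hS, hS2⟩ := h
  refine ⟨(fun (g : ℂ → ι → V) z => cmp (g z)) '' S, hS.image _, fun f hf => ?_⟩
  obtain ⟨h1, hh, h2⟩ := exists_lift_sec hΛ hX hu hl hq hf
  obtain ⟨g, hg, h3⟩ := hS2 h1 hh
  refine ⟨_, Set.mem_image_of_mem _ hg, fun z => ?_⟩
  obtain ⟨b, hb⟩ := H62.BU.exists_ne (h1 z) (hh.2.1 z)
  obtain ⟨c, hc, e⟩ := h3 z
  have hgb : ∃ b, g z b ≠ 0 := by
    refine ⟨b, fun h0 => hb ?_⟩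
    rw [e, Pi.smul_apply, h0, smul_zero]
  have h4 : cmp (g z) = g z hgb.choose := by
    unfold cmp
    rw [dif_pos hgb]
  have h5 : g z hgb.choose ≠ 0 := hgb.choose_spec
  have h6 : h1 z hgb.choose = c • g z hgb.choose := by rw [e]; rfl
  show Pr (f z) (cmp (g z))
  rw [h4]
  exact (h2 z _ (by rw [h6]; exact smul_ne_zero hc h5)).trans ⟨c, hc, h6⟩

end Pool.Agent.H17N

end

section

/-!
# H17N BlowF: the form on the blow-up (pattern: H62/BU/FormB.lean, `om_eq`, `isForm_om`, and H17BP/BlowM.lean, `thin_blow`)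

* `aB_eq`: independence of the component: copy of the private lemma `FormB_indep` (with `j = 0` and without the square): `comp_smul`, `tan_rel`, `tan_comp` (H62/BU/TanB.lean), `add_smul`, `scale`.  `u (y b) - z ∈ Λ` from `uB_eq`.
* `tf_blow`: copy of `isForm_om`; in `analytic` the extra datum `υ` is passed through: near `p` a fixed component `b` of `φ` is `≠ 0`, the function is `α (υ y) (φ y b) (fderiv (φ · b) y (1,0)) (fderiv (φ · b) y (0,1))`.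
* `per_blow`, `van_blow`: immediate from `aB_eq` and `tan_comp`.
-/

set_option autoImplicit false

open Topology Filter

namespace Pool.Agent.H17N

attribute [-instance] ProperSMul.toContinuousSMul

open Pool.Agent.H17BP (Surface IsChart Tan Pr HolP ResN)
open Pool.Agent.H62.BU (blow phi Ker)

variable {V : Type} [NormedAddCommGroup V] [NormedSpace ℂ V] {ι : Type} [Fintype ι] {l : ι → V →L[ℂ] ℂ} {X : Set V} {q : V}
  {Λ Γ : AddSubgroup ℂ} {u : V → ℂ} {α : ℂ → V → V → V → ℂ}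

theorem tan_comp' (hX : Surface X) {y v : ι → V} (hy : y ∈ blow l X) (hv : v ∈ Tan (blow l X) y) {b : ι} (hb : y b ≠ 0) : v b ∈ Tan X (y b) := 
  H62.BU.tan_comp (H17BP.surface_iff.2 hX) hy hv hb

private theorem BlowF_tan_smul {W : Type} [NormedAddCommGroup W] [NormedSpace ℂ W] {Y : Set W}
    (hY : ∀ x ∈ Y, ∀ c : ℂ, c ≠ 0 → c • x ∈ Y) {x v : W} (hv : v ∈ Tan Y x) {c : ℂ} (hc : c ≠ 0) :
    c • v ∈ Tan Y (c • x) := by
  obtain ⟨γ, hγ, hmem, h0, hd⟩ := hv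
  refine ⟨fun z => c • γ z, analyticAt_const.smul hγ, ?_, by show c • γ 0 = c • x; rw [h0], ?_⟩
  · filter_upwards [hmem] with z hz
    exact hY _ hz c hc
  · have h1 : HasDerivAt γ v 0 := by
      rw [← hd]; exact hγ.differentiableAt.hasDerivAt
    exact (h1.const_smul c).deriv

/-- the value of `u` at a component -/
private theorem BlowF_u (hX : Surface X) (hu : TMap X Λ u) {z : ℂ} {y : ι → V} (hy : y ∈ blow l X) (hz : uB u y - z ∈ Λ)
    {b : ι} (hb : y b ≠ 0) : u (y b) - z ∈ Λ := by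
  have h1 := uB_eq hX hu hy hb
  have h2 := Λ.sub_mem hz h1
  have h3 : uB u y - z - (uB u y - u (y b)) = u (y b) - z := by ring
  rwa [h3] at h2

private theorem BlowF_indep (hX : Surface X) (hu : TMap X Λ u) (hα : TF X Λ u α) {z : ℂ} {y v w : ι → V} (hy : y ∈ blow l X)
    (hz : uB u y - z ∈ Λ) (hv : v ∈ Tan (blow l X) y) (hw : w ∈ Tan (blow l X) y) {b b' : ι} (hb : y b ≠ 0) (hb' : y b' ≠ 0) :
    α z (y b') (v b') (w b') = α z (y b) (v b) (w b) := by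
  have hX' := H17BP.surface_iff.2 hX
  obtain ⟨c, hc⟩ := H62.BU.comp_smul y hy hb b'
  have hc0 : c ≠ 0 := by
    rintro rfl
    rw [zero_smul] at hc
    exact hb' hc
  obtain ⟨μ, hμ⟩ := H62.BU.tan_rel hy hv hb b'
  obtain ⟨ν, hν⟩ := H62.BU.tan_rel hy hw hb b'
  have e1 := hμ c hc
  have e2 := hν c hc
  have hyb : y b ∈ X := H62.BU.comp_mem hX' y hy hb
  have hcy : c • y b ∈ X := hX.smul _ hyb c hc0
  have tv := tan_comp' hX hy hv hb
  have tw := tan_comp' hX hy hw hb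
  have tv' := BlowF_tan_smul hX.smul tv hc0
  have tw' := BlowF_tan_smul hX.smul tw hc0
  have hu1 := BlowF_u hX hu hy hz hb
  have hu2 : u (c • y b) - z ∈ Λ := by
    have h1 := Λ.add_mem (hu.smul (y b) hyb c hc0) hu1
    have h2 : u (c • y b) - u (y b) + (u (y b) - z) = u (c • y b) - z := by ring
    rwa [h2] at h1
  have e4 : α z (y b') (v b') (w b') = α z (c • y b) (c • v b) (c • w b) := by
    have h1 := hα.add_smul z (c • y b) hcy hu2 (c • v b) tv' (c • w b) tw' (μ / c) (ν / c)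
    rw [smul_smul, smul_smul, div_mul_cancel₀ _ hc0, div_mul_cancel₀ _ hc0] at h1
    rw [e1, e2, hc]
    exact h1
  rw [e4, hα.scale z (y b) hyb hu1 (v b) tv (w b) tw c hc0]

theorem aB_eq (hX : Surface X) (hu : TMap X Λ u) (hα : TF X Λ u α) {z : ℂ} {y v w : ι → V} (hy : y ∈ blow l X) (hz : uB u y - z ∈ Λ)
    (hv : v ∈ Tan (blow l X) y) (hw : w ∈ Tan (blow l X) y) {b : ι} (hb : y b ≠ 0) : aB α z y v w = α z (y b) (v b) (w b) := by
  have h : ∃ b, y b ≠ 0 := ⟨b, hb⟩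
  rw [aB, dif_pos h]
  exact BlowF_indep hX hu hα hy hz hv hw hb h.choose_spec

private theorem BlowF_def {y : ι → V} (hy : y ∈ blow l X) :
    ∃ b, y b ≠ 0 ∧ ∀ (z : ℂ) (v w : ι → V), aB α z y v w = α z (y b) (v b) (w b) := by
  have h : ∃ b, y b ≠ 0 := H62.BU.exists_ne y hy
  refine ⟨h.choose, h.choose_spec, fun z v w => ?_⟩
  rw [aB, dif_pos h]

private theorem BlowF_analytic [FiniteDimensional ℂ V] (hX : Surface X) (hu : TMap X Λ u) (hα : TF X Λ u α) (φ : ℂ × ℂ → ι → V)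
    (υ : ℂ × ℂ → ℂ) (p : ℂ × ℂ) (hφ : AnalyticAt ℂ φ p) (hυ : AnalyticAt ℂ υ p)
    (hmem : ∀ᶠ y in 𝓝 p, φ y ∈ blow l X ∧ uB u (φ y) - υ y ∈ Λ) :
    AnalyticAt ℂ (fun y => aB α (υ y) (φ y) (fderiv ℂ φ y (1, 0)) (fderiv ℂ φ y (0, 1))) p := by
  have : CompleteSpace V := FiniteDimensional.complete ℂ V
  have hX' := H17BP.surface_iff.2 hX
  have hp : φ p ∈ blow l X := hmem.self_of_nhds.1
  obtain ⟨b, hb⟩ := H62.BU.exists_ne (φ p) hp
  have hψ : AnalyticAt ℂ (fun y => φ y b) p :=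
    AnalyticAt.comp ((ContinuousLinearMap.proj (R := ℂ) (φ := fun _ : ι => V) b).analyticAt _) hφ
  have hne : ∀ᶠ y in 𝓝 p, φ y b ≠ 0 := by
    have h1 : Tendsto (fun y => φ y b) (𝓝 p) (𝓝 (φ p b)) := hψ.continuousAt
    exact h1.eventually_ne hb
  have hψX : ∀ᶠ y in 𝓝 p, φ y b ∈ X ∧ u (φ y b) - υ y ∈ Λ := by
    filter_upwards [hmem, hne] with y h1 h2
    exact ⟨H62.BU.comp_mem hX' _ h1.1 h2, BlowF_u hX hu h1.1 h1.2 h2⟩
  have hαa := hα.analytic (fun y => φ y b) υ p hψ hυ hψX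
  refine hαa.congr ?_
  filter_upwards [eventually_eventually_nhds.mpr hmem, hne, hφ.eventually_analyticAt] with y h1 h2 h3
  have h4 : ∀ w : ℂ × ℂ, fderiv ℂ (fun y => φ y b) y w = (fderiv ℂ φ y w) b := by
    intro w
    have h5 := h3.differentiableAt.hasFDerivAt
    have h6 : HasFDerivAt (fun y => φ y b)
        ((ContinuousLinearMap.proj (R := ℂ) (φ := fun _ : ι => V) b).comp (fderiv ℂ φ y)) y :=
      ((ContinuousLinearMap.proj (R := ℂ) (φ := fun _ : ι => V) b).hasFDerivAt (x := φ y)).comp y h5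
    rw [h6.fderiv]
    rfl
  have h7 : ∀ᶠ y in 𝓝 y, φ y ∈ blow l X := h1.mono fun y hy => hy.1
  rw [aB_eq hX hu hα h7.self_of_nhds h1.self_of_nhds.2 (H62.BU.tan_fderiv h3 h7 (1, 0)) (H62.BU.tan_fderiv h3 h7 (0, 1)) h2]
  simp only [h4]

theorem tf_blow [FiniteDimensional ℂ V] (hX : Surface X) (hu : TMap X Λ u) (hα : TF X Λ u α) : TF (blow l X) Λ (uB u) (aB α) := by
  have hX' := H17BP.surface_iff.2 hX
  refine ⟨?_, ?_, ?_, ?_⟩
  · intro z y hy hz v hv w hw a b'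
    obtain ⟨b, hb, hom⟩ := BlowF_def (l := l) (α := α) hy
    rw [hom, hom]
    have h1 := hα.add_smul z (y b) (H62.BU.comp_mem hX' y hy hb) (BlowF_u hX hu hy hz hb) (v b) (tan_comp' hX hy hv hb) (w b)
      (tan_comp' hX hy hw hb) a b'
    simp only [Pi.add_apply, Pi.smul_apply]
    exact h1
  · intro z y hy hz v hv w hw a b' c d
    obtain ⟨b, hb, hom⟩ := BlowF_def (l := l) (α := α) hy
    rw [hom, hom]
    have h1 := hα.det z (y b) (H62.BU.comp_mem hX' y hy hb) (BlowF_u hX hu hy hz hb) (v b) (tan_comp' hX hy hv hb) (w b)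
      (tan_comp' hX hy hw hb) a b' c d
    simp only [Pi.add_apply, Pi.smul_apply]
    exact h1
  · intro z y hy hz v hv w hw c hc
    obtain ⟨b, hb, hom⟩ := BlowF_def (l := l) (α := α) hy
    have hcy : c • y ∈ blow l X := H62.BU.blow_smul y hy c hc
    have hcb : (c • y) b ≠ 0 := by
      rw [Pi.smul_apply]
      exact smul_ne_zero hc hb
    have hyb : y b ∈ X := H62.BU.comp_mem hX' y hy hb
    have hu1 := BlowF_u hX hu hy hz hb
    have hz2 : uB u (c • y) - z ∈ Λ := by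
      have h1 := uB_eq hX hu hcy hcb
      have h2 := hu.smul (y b) hyb c hc
      have h3 := Λ.add_mem (Λ.add_mem h1 h2) hu1
      have h4 : uB u (c • y) - u ((c • y) b) + (u (c • y b) - u (y b)) + (u (y b) - z) = uB u (c • y) - z := by
        rw [Pi.smul_apply]
        ring
      rwa [h4] at h3
    rw [hom, aB_eq hX hu hα hcy hz2 (BlowF_tan_smul H62.BU.blow_smul hv hc) (BlowF_tan_smul H62.BU.blow_smul hw hc) hcb]
    simp only [Pi.smul_apply]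
    exact hα.scale z (y b) hyb hu1 (v b) (tan_comp' hX hy hv hb) (w b) (tan_comp' hX hy hw hb) c hc
  · intro φ υ p hφ hυ hmem
    exact BlowF_analytic hX hu hα φ υ p hφ hυ hmem

theorem per_blow (hX : Surface X) (hu : TMap X Λ u) (hα : TF X Λ u α) (hle : Γ ≤ Λ)
    (hper : ∀ z, ∀ l ∈ Γ, ∀ x ∈ X, u x - z ∈ Λ → ∀ v ∈ Tan X x, ∀ w ∈ Tan X x, α (z + l) x v w = α z x v w) :
    ∀ z, ∀ c ∈ Γ, ∀ y ∈ blow l X, uB u y - z ∈ Λ → ∀ v ∈ Tan (blow l X) y, ∀ w ∈ Tan (blow l X) y, aB α (z + c) y v w = aB α z y v w := by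
  intro z c hc y hy hz v hv w hw
  obtain ⟨b, hb, hom⟩ := BlowF_def (l := l) (α := α) hy
  rw [hom, hom]
  exact hper z c hc (y b) (H62.BU.comp_mem (H17BP.surface_iff.2 hX) y hy hb) (BlowF_u hX hu hy hz hb) (v b) (tan_comp' hX hy hv hb) (w b)
    (tan_comp' hX hy hw hb)

theorem van_blow (hX : Surface X) (hu : TMap X Λ u) (hα : TF X Λ u α)
    (hvan : ∀ x ∈ X, u x ∈ Λ → ∀ v ∈ Tan X x, ∀ w ∈ Tan X x, α 0 x v w = 0) :
    ∀ y ∈ blow l X, uB u y ∈ Λ → ∀ v ∈ Tan (blow l X) y, ∀ w ∈ Tan (blow l X) y, aB α 0 y v w = 0 := by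
  intro y hy hz v hv w hw
  obtain ⟨b, hb, hom⟩ := BlowF_def (l := l) (α := α) hy
  rw [hom]
  have h1 : u (y b) - 0 ∈ Λ := BlowF_u hX hu hy (by rwa [sub_zero]) hb
  rw [sub_zero] at h1
  exact hvan (y b) (H62.BU.comp_mem (H17BP.surface_iff.2 hX) y hy hb) h1 (v b) (tan_comp' hX hy hv hb) (w b)
    (tan_comp' hX hy hw hb)

end Pool.Agent.H17N

end
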