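import Pool.Agent.H94.CB.M07

/-! The parts of this file: H17G.PNG, H17N.PNDefs. -/

section

/-!
# G PNG: projective surfaces with a holomorphic map to an elliptic curve, definitions
-/

set_option autoImplicit false

open Topology Filter MvPolynomial

noncomputable section

namespace Pool.Agent.H17G

open Pool.Agent.H17 (PN VanishesAt HolomorphicInto)

variable {N : ℕ}

/-- The point of `X` with the homogeneous coordinates `x` lies over `z`: the pair is a point of the covering `{(x, z) : u x = z mod Λ}` of `X`. -/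
def Over (X : Set (PN N)) (Λ : AddSubgroup ℂ) (u : PN N → ℂ ⧸ Λ) (z : ℂ) (x : Fin (N + 1) → ℂ) : Prop :=
  ∃ h : x ≠ 0, Projectivization.mk ℂ x h ∈ X ∧ u (Projectivization.mk ℂ x h) = (z : ℂ ⧸ Λ)

/-- `v` is a tangent vector at `x` of the affine cone over `X`. -/
def IsTangent (X : Set (PN N)) (x v : Fin (N + 1) → ℂ) : Prop :=
  ∃ γ : ℂ → Fin (N + 1) → ℂ, AnalyticAt ℂ γ 0 ∧ γ 0 = x ∧ deriv γ 0 = v ∧ ∀ᶠ z in 𝓝 (0 : ℂ), ∃ h : γ z ≠ 0, Projectivization.mk ℂ (γ z) h ∈ X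

/-- `Ω` is a holomorphic `2`-form on the surface `X' = {(x, c) ∈ X × ℂ / Γ : u x = c mod Λ}` (`Γ` a subgroup of `Λ`; for `Γ = Λ` this is the surface
`X`).  It is given as a function of `c`, the homogeneous coordinates of `x`, and two tangent vectors of the cone over `X`. -/
structure IsTwoForm (X : Set (PN N)) (Λ Γ : AddSubgroup ℂ) (u : PN N → ℂ ⧸ Λ)
    (Ω : ℂ → (Fin (N + 1) → ℂ) → (Fin (N + 1) → ℂ) → (Fin (N + 1) → ℂ) → ℂ) : Prop where
  /-- the form depends only on `z` modulo `Γ` -/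
  periodic : ∀ z, ∀ l ∈ Γ, ∀ x, Over X Λ u z x → ∀ v w, IsTangent X x v → IsTangent X x w → Ω (z + l) x v w = Ω z x v w
  /-- the form depends only on the images of the tangent vectors in the tangent space of the projective space -/
  horizontal : ∀ z x, Over X Λ u z x → ∀ v w, IsTangent X x v → IsTangent X x w → ∀ a b : ℂ, Ω z x (v + a • x) (w + b • x) = Ω z x v w
  /-- the form is bilinear and alternating -/
  alternating : ∀ z x, Over X Λ u z x → ∀ v w, IsTangent X x v → IsTangent X x w → ∀ a b c d : ℂ,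
    Ω z x (a • v + b • w) (c • v + d • w) = (a * d - b * c) * Ω z x v w
  /-- the form does not depend on the choice of the homogeneous coordinates -/
  homogeneous : ∀ z x, Over X Λ u z x → ∀ v w, IsTangent X x v → IsTangent X x w → ∀ c : ℂ, c ≠ 0 → Ω z (c • x) (c • v) (c • w) = Ω z x v w
  /-- the form is holomorphic -/
  holomorphic : ∀ (φ : ℂ × ℂ → Fin (N + 1) → ℂ) (υ : ℂ × ℂ → ℂ) (p : ℂ × ℂ), AnalyticAt ℂ φ p → AnalyticAt ℂ υ p →
    (∀ᶠ y in 𝓝 p, Over X Λ u (υ y) (φ y)) → AnalyticAt ℂ (fun y => Ω (υ y) (φ y) (fderiv ℂ φ y (1, 0)) (fderiv ℂ φ y (0, 1))) p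

/-- The form `Ω` is `0` at all points of the fibre over `z`. -/
def VanishesOver (X : Set (PN N)) (Λ : AddSubgroup ℂ) (u : PN N → ℂ ⧸ Λ)
    (Ω : ℂ → (Fin (N + 1) → ℂ) → (Fin (N + 1) → ℂ) → (Fin (N + 1) → ℂ) → ℂ) (z : ℂ) : Prop :=
  ∀ x, Over X Λ u z x → ∀ v w, IsTangent X x v → IsTangent X x w → Ω z x v w = 0

/-- The form `Ω` is `0` on no nonempty open set. -/
def IsNowhereZero (X : Set (PN N)) (Λ : AddSubgroup ℂ) (u : PN N → ℂ ⧸ Λ)
    (Ω : ℂ → (Fin (N + 1) → ℂ) → (Fin (N + 1) → ℂ) → (Fin (N + 1) → ℂ) → ℂ) : Prop :=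
  ∀ z x, Over X Λ u z x → ∃ᶠ q in 𝓝 (z, x), Over X Λ u q.1 q.2 ∧ ∃ v w, IsTangent X q.2 v ∧ IsTangent X q.2 w ∧ Ω q.1 q.2 v w ≠ 0

/-- For infinitely many points `c` of `ℂ / Γ` there is a holomorphic `2`-form on the surface `X' = {(x, c') ∈ X × ℂ / Γ : u x = c' mod Λ}`
which is `0` at all points over `c`, but on no nonempty open set. -/
def HasForms (X : Set (PN N)) (Λ Γ : AddSubgroup ℂ) (u : PN N → ℂ ⧸ Λ) : Prop :=
  {c : ℂ ⧸ Γ | ∃ Ω, IsTwoForm X Λ Γ u Ω ∧ IsNowhereZero X Λ u Ω ∧ ∀ z : ℂ, (z : ℂ ⧸ Γ) = c → VanishesOver X Λ u Ω z}.Infinite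

end Pool.Agent.H17G

end
end

section

/-!
# H17N PNDefs: a map which is constant on no open set
-/

set_option autoImplicit false

open Topology Filter

namespace Pool.Agent.H17N

open Pool.Agent.H17 (PN)

variable {N : ℕ}

/-- The map `u` is constant on no nonempty open subset of `X`: near every point `x` of `X` there are points `y` of `X` with `u y ≠ u x`. -/
def NowhereConstant {A : Type} (X : Set (PN N)) (u : PN N → A) : Prop :=
  ∀ (x : Fin (N + 1) → ℂ) (hx : x ≠ 0), Projectivization.mk ℂ x hx ∈ X →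
    ∃ᶠ y in 𝓝 x, ∃ hy : y ≠ 0, Projectivization.mk ℂ y hy ∈ X ∧ u (Projectivization.mk ℂ y hy) ≠ u (Projectivization.mk ℂ x hx)

end Pool.Agent.H17N

end
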