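import Pool.Agent.H94.CB.H62.EF.LimL
import Pool.Agent.H94.CB.M196
import Pool.Agent.H94.CB.M22

/-! The parts of this file: H18.LU.Nm, H18.LU.SoA, H18.LU.SoB. -/

section

/-!
# LU Nm: local sections are uniformly Lipschitz away from the bad fibres

Port of `H62/EL/Zl.lean`, with local sections.

`disc_boundL`: suppose not: for every `n` there are `F n`, `υ n` with `fs (F n 0) ((F n)' 0) > 4 (n + 1)`.  Translate by `Γ` (`LFib.exists_rep`, replace `υ n` by `υ n - l n`; `BadSet.gd_add`, `nb_add` with `E.le`): `‖υ n 0‖ ≤ R₁`, so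
`‖υ n‖ ≤ R₁ + 1` on the disc.  Rescale as in the private lemma `rescale_fs_half` of `H62/EL/Zl.lean` (maximum of `fs (F z) (F' z) (1/2 - ‖z‖)` on `closedBall 0 (1/2)`; it only uses that `F n` is analytic on
`closedBall 0 1`): `G n ζ = F n (w n + ζ / a n)`, `‖w n‖ ≤ 1/2`, `a n → ∞`, analytic on `ball 0 (n + 1)` with `w n + ζ / a n ∈ ball 0 1`, there `G n ζ ∈ X \ D`; all values are in `part X Λ u R`, a cone in the old sense (`LFib.part_isCone`), so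
`Pool.Agent.H62.EF.limit_curves` applies with it: `H` entire in this part, `fs (H 0) (H' 0) = 1`.  `υ n (w n + ζ / a n)`: `‖υ n'‖ ≤ 4` on `ball 0 (3/4)` (Cauchy, `‖υ n - υ n 0‖ ≤ 1`), so it has the same limit `w` as `υ n (w n)` (along the ultrafilter):
`u (H ζ) - w ∈ Λ` for all `ζ` (`part_unif`, `Dsc.mem_of_close`), `w ∈ Gd B δ'` (`isClosed_gd`).  As `w ∉ B` (and `B` is invariant) no value `u (H ζ) - b`, `b ∈ B`, is in `Λ`.  `limit_dich`: `H` is in `D` or avoids `D`.  In `D`: `hor` at `H 0`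
(`u (H 0)`), `hor_fibre` gives `fs (H 0) (H' 0) = 0`: contradiction.  If `H` avoids `D`: `E.fib` gives `b ∈ B` with `u (H 0) - b ∈ Λ`: contradiction.
(`∃ z w, ∀ c, H z ≠ c • H w`: otherwise `fs (H 0) (H' 0) = 0`, as in EL Zl.)

`sec_boundL`: `disc_boundL` for `δ' / 2`, `R + 1` and `ζ ↦ F (z + r ζ)`, `υ ζ = z + r ζ`, `r = min (δ' / 2) 1`; `fs` of the derivative is multiplied by `r`.

`sec_lipL`: as `sec_lip_gd` (`pr_lipschitz` on the convex set `ball z (3δ'/4)`; its points `y` are in `Gd B (δ'/4)` and `closedBall y (δ'/4) ⊆ closedBall z δ'`, `y ∈ Nb Λ (R + δ')`).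
-/

set_option autoImplicit false

open Topology Filter Metric

namespace Pool.Agent.H18.LU

attribute [-instance] ProperSMul.toContinuousSMul

open Pool.Agent.H36.BP (EN fs wd IsGermChart)
open Pool.Agent.H14.PP (IsCone Chart Tan CurveAt)
open Pool.Agent.H62.EF (Lat MN pr TorusMap Sec Charts DU)
open Pool.Agent.H62.EL (Gd Ag BadSet IsNC TForm)

variable {N : ℕ} {X D P : Set (EN N)} {Λ Γ : AddSubgroup ℂ} {u : EN N → ℂ} {B : Set ℂ} {δ : ℝ}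

private theorem rescaleL {F : ℂ → EN N} (hF : ∀ w ∈ closedBall (0 : ℂ) 1, AnalyticAt ℂ F w)
    (h0 : ∀ w ∈ closedBall (0 : ℂ) 1, F w ≠ 0) (n : ℕ) (hbig : 4 * ((n : ℝ) + 1) < fs (F 0) (deriv F 0)) :
    ∃ (z₀ : ℂ) (a : ℝ), ‖z₀‖ ≤ 1 / 2 ∧ 4 * ((n : ℝ) + 1) < a ∧
      fs (F z₀) (deriv (fun ζ => F (z₀ + ((a⁻¹ : ℝ) : ℂ) * ζ)) 0) = 1 ∧
      ∀ ζ ∈ ball (0 : ℂ) (n + 1), ‖z₀ + ((a⁻¹ : ℝ) : ℂ) * ζ‖ ≤ 1 / 2 ∧
        fs (F (z₀ + ((a⁻¹ : ℝ) : ℂ) * ζ)) (deriv (fun ζ => F (z₀ + ((a⁻¹ : ℝ) : ℂ) * ζ)) ζ) ≤ 2 := by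
  have hn : (0 : ℝ) ≤ n := Nat.cast_nonneg n
  have hsub : ∀ z ∈ closedBall (0 : ℂ) (1 / 2), z ∈ closedBall (0 : ℂ) 1 := fun z hz =>
    closedBall_subset_closedBall (by norm_num) hz
  have hgc : ContinuousOn (fun z : ℂ => fs (F z) (deriv F z)) (closedBall (0 : ℂ) (1 / 2)) := by
    intro z hz
    have h1 : ContinuousAt F z := (hF z (hsub z hz)).continuousAt
    have h2 : ContinuousAt (deriv F) z := (hF z (hsub z hz)).deriv.continuousAt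
    have h3 : ContinuousAt (fun z : ℂ => fs (F z) (deriv F z)) z := by
      unfold fs
      refine (Pool.Agent.H36.BP.wd_cont.continuousAt.comp (h1.prodMk h2)).div (h1.norm.pow 2) ?_
      exact pow_ne_zero 2 (norm_ne_zero_iff.mpr (h0 z (hsub z hz)))
    exact h3.continuousWithinAt
  set v : ℂ → ℝ := fun z => fs (F z) (deriv F z) * (1 / 2 - ‖z‖) with hv
  have hvc : ContinuousOn v (closedBall (0 : ℂ) (1 / 2)) :=
    hgc.mul (continuous_const.sub continuous_norm).continuousOn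
  obtain ⟨z₀, hz₀, hmax⟩ := (isCompact_closedBall (0 : ℂ) (1 / 2)).exists_isMaxOn ⟨0, by simp⟩ hvc
  have hz₀n : ‖z₀‖ ≤ 1 / 2 := by simpa using hz₀
  have hv0z : v 0 ≤ v z₀ := hmax (by simp : (0 : ℂ) ∈ closedBall (0 : ℂ) (1 / 2))
  have hv0 : v 0 = fs (F 0) (deriv F 0) / 2 := by simp only [hv, norm_zero]; ring
  have hm : 2 * ((n : ℝ) + 1) < v z₀ := by rw [hv0] at hv0z; linarith
  set d : ℝ := 1 / 2 - ‖z₀‖ with hd
  have hd0 : 0 ≤ d := by rw [hd]; linarith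
  set a : ℝ := fs (F z₀) (deriv F z₀) with ha
  have ha0 : 0 ≤ a := Pool.Agent.H36.BP.fs_nonneg _ _
  have hvz : v z₀ = a * d := rfl
  have hpos : 0 < a * d := by rw [← hvz]; linarith
  have hapos : 0 < a := by
    rcases ha0.lt_or_eq with h | h
    · exact h
    · rw [← h] at hpos; simp at hpos
  have hdpos : 0 < d := by
    rcases hd0.lt_or_eq with h | h
    · exact h
    · rw [← h] at hpos; simp at hpos
  have hd2 : d ≤ 1 / 2 := by rw [hd]; linarith [norm_nonneg z₀]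
  have haL : 4 * ((n : ℝ) + 1) < a := by
    have h1 : a * d ≤ a * (1 / 2) := mul_le_mul_of_nonneg_left hd2 ha0
    rw [hvz] at hm
    linarith
  set φ : ℂ → ℂ := fun ζ => z₀ + ((a⁻¹ : ℝ) : ℂ) * ζ with hφ
  have hφd : ∀ ζ, HasDerivAt φ ((a⁻¹ : ℝ) : ℂ) ζ := by
    intro ζ
    have := ((hasDerivAt_id ζ).const_mul ((a⁻¹ : ℝ) : ℂ)).const_add z₀
    simpa [hφ] using this
  have hkey : ∀ ζ ∈ ball (0 : ℂ) (n + 1), ‖φ ζ‖ ≤ 1 / 2 - d / 2 := by
    intro ζ hζ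
    have hζn : ‖ζ‖ < n + 1 := by simpa using hζ
    have h1 : ‖φ ζ‖ ≤ ‖z₀‖ + a⁻¹ * ‖ζ‖ := by
      calc ‖φ ζ‖ ≤ ‖z₀‖ + ‖((a⁻¹ : ℝ) : ℂ) * ζ‖ := norm_add_le _ _
        _ = ‖z₀‖ + a⁻¹ * ‖ζ‖ := by
          rw [norm_mul, Complex.norm_real, Real.norm_of_nonneg (by positivity)]
    have h2 : a⁻¹ * ‖ζ‖ ≤ d / 2 := by
      rw [inv_mul_le_iff₀ hapos]
      rw [hvz] at hm
      linarith
    have h3 : ‖z₀‖ = 1 / 2 - d := by rw [hd]; ring
    linarith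
  have hball : ∀ ζ ∈ ball (0 : ℂ) (n + 1), φ ζ ∈ closedBall (0 : ℂ) (1 / 2) := by
    intro ζ hζ
    have := hkey ζ hζ
    rw [mem_closedBall_zero_iff]
    linarith
  have hder : ∀ ζ ∈ ball (0 : ℂ) (n + 1), deriv (fun ζ => F (φ ζ)) ζ = ((a⁻¹ : ℝ) : ℂ) • deriv F (φ ζ) := by
    intro ζ hζ
    exact ((hF (φ ζ) (hsub _ (hball ζ hζ))).differentiableAt.hasDerivAt.scomp ζ (hφd ζ)).deriv
  have hfs : ∀ ζ ∈ ball (0 : ℂ) (n + 1), fs (F (φ ζ)) (deriv (fun ζ => F (φ ζ)) ζ) = a⁻¹ * fs (F (φ ζ)) (deriv F (φ ζ)) := by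
    intro ζ hζ
    rw [hder ζ hζ, Pool.Agent.H36.BP.fs_smul_right, Complex.norm_real, Real.norm_of_nonneg (by positivity)]
  have hφ0 : φ 0 = z₀ := by simp [hφ]
  refine ⟨z₀, a, hz₀n, haL, ?_, ?_⟩
  · have h1 := hfs 0 (mem_ball_self (by positivity))
    rw [hφ0, ← ha, inv_mul_cancel₀ hapos.ne'] at h1
    exact h1
  · intro ζ hζ
    refine ⟨by
      have := hball ζ hζ
      rwa [mem_closedBall_zero_iff] at this, ?_⟩
    change fs (F (φ ζ)) (deriv (fun ζ => F (φ ζ)) ζ) ≤ 2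
    rw [hfs ζ hζ]
    have h1 : v (φ ζ) ≤ v z₀ := hmax (hball ζ hζ)
    have h2 := hkey ζ hζ
    have h3 : fs (F (φ ζ)) (deriv F (φ ζ)) * (1 / 2 - ‖φ ζ‖) ≤ a * d := h1
    have h4 : 0 ≤ fs (F (φ ζ)) (deriv F (φ ζ)) := Pool.Agent.H36.BP.fs_nonneg _ _
    have h5 : fs (F (φ ζ)) (deriv F (φ ζ)) * (d / 2) ≤ a * d :=
      le_trans (mul_le_mul_of_nonneg_left (by linarith) h4) h3
    have h6 : fs (F (φ ζ)) (deriv F (φ ζ)) ≤ 2 * a := by
      by_contra hc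
      push Not at hc
      have : 2 * a * (d / 2) < fs (F (φ ζ)) (deriv F (φ ζ)) * (d / 2) := mul_lt_mul_of_pos_right hc (by linarith)
      linarith
    rw [inv_mul_le_iff₀ hapos]
    linarith

private theorem lip6 {υ : ℂ → ℂ} (hυ : ∀ w ∈ closedBall (0 : ℂ) 1, AnalyticAt ℂ υ w)
    (h1 : ∀ w ∈ closedBall (0 : ℂ) 1, ‖υ w - υ 0‖ ≤ 1) {z₀ z : ℂ} (hz₀ : ‖z₀‖ ≤ 1 / 2) (hz : ‖z - z₀‖ < 1 / 2) :
    ‖υ z - υ z₀‖ ≤ 4 * ‖z - z₀‖ := by
  have hsub : ∀ y ∈ ball z₀ (1 / 2), y ∈ closedBall (0 : ℂ) 1 := by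
    intro y hy
    rw [mem_ball, dist_eq_norm] at hy
    rw [mem_closedBall_zero_iff]
    have h2 : y = (y - z₀) + z₀ := by ring
    rw [h2]
    refine (norm_add_le _ _).trans ?_
    linarith
  have hd : DifferentiableOn ℂ υ (ball z₀ (1 / 2)) := fun y hy =>
    (hυ y (hsub y hy)).differentiableAt.differentiableWithinAt
  have hz₀m : z₀ ∈ closedBall (0 : ℂ) 1 := hsub z₀ (mem_ball_self (by norm_num))
  have hmaps : Set.MapsTo υ (ball z₀ (1 / 2)) (closedBall (υ z₀) 2) := by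
    intro y hy
    rw [mem_closedBall, dist_eq_norm]
    have h2 : υ y - υ z₀ = (υ y - υ 0) - (υ z₀ - υ 0) := by ring
    rw [h2]
    refine (norm_sub_le _ _).trans ?_
    have h3 := h1 y (hsub y hy)
    have h4 := h1 z₀ hz₀m
    linarith
  have h5 : z ∈ ball z₀ (1 / 2) := by rwa [mem_ball, dist_eq_norm]
  have h6 := Complex.dist_le_div_mul_dist_of_mapsTo_ball hd hmaps h5
  rw [dist_eq_norm, dist_eq_norm] at h6
  refine h6.trans (le_of_eq ?_)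
  norm_num

/-- curves in `X \ D` over small discs of the base, away from the bad values, have bounded derivative -/
theorem disc_boundL (E : LFib X D Λ Γ u B δ) {δ' : ℝ} (hδ' : 0 < δ') (R : ℝ) : ∃ L : ℝ, 0 < L ∧ ∀ (F : ℂ → EN N) (υ : ℂ → ℂ),
      (∀ w ∈ closedBall (0 : ℂ) 1, AnalyticAt ℂ F w ∧ AnalyticAt ℂ υ w ∧ F w ∈ X ∧ F w ∉ D ∧ u (F w) - υ w ∈ Λ ∧ υ w ∈ Gd B δ' ∧ υ w ∈ Nb Λ R ∧
        ‖υ w - υ 0‖ ≤ 1) → fs (F 0) (deriv F 0) ≤ L := by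
  have hX := E.cone
  have hu := E.tor
  have hΛ := E.dsc
  by_contra hcon
  push Not at hcon
  obtain ⟨R₁, hR₁, hrep⟩ := E.exists_rep R
  have hmem0 : (0 : ℂ) ∈ closedBall (0 : ℂ) 1 := mem_closedBall_self (by norm_num)
  have hbig : ∀ n : ℕ, ∃ (F : ℂ → EN N) (υ : ℂ → ℂ), (∀ w ∈ closedBall (0 : ℂ) 1, AnalyticAt ℂ F w ∧ AnalyticAt ℂ υ w ∧ F w ∈ X ∧ F w ∉ D ∧
      u (F w) - υ w ∈ Λ ∧ υ w ∈ Gd B δ' ∧ υ w ∈ Nb Λ R ∧ ‖υ w - υ 0‖ ≤ 1) ∧ ‖υ 0‖ ≤ R₁ ∧ 4 * ((n : ℝ) + 1) < fs (F 0) (deriv F 0) := by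
    intro n
    obtain ⟨F, υ, hFυ, hb⟩ := hcon (4 * ((n : ℝ) + 1)) (by positivity)
    obtain ⟨l, hl, hlR⟩ := hrep (υ 0) (hFυ 0 hmem0).2.2.2.2.2.2.1
    have hlΛ : l ∈ Λ := E.le hl
    refine ⟨F, fun w => υ w - l, fun w hw => ?_, hlR, hb⟩
    obtain ⟨h1, h2, h3, h4, h5, h6, h7, h8⟩ := hFυ w hw
    refine ⟨h1, h2.sub analyticAt_const, h3, h4, ?_, ?_, ?_, ?_⟩
    · have := Λ.add_mem h5 hlΛ
      convert this using 1
      ring
    · rw [← BadSet.gd_add E.bad δ' hlΛ, sub_add_cancel]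
      exact h6
    · rw [← nb_add (Λ := Λ) (R := R) hlΛ, sub_add_cancel]
      exact h7
    · have h9 : υ w - l - (υ 0 - l) = υ w - υ 0 := by ring
      show ‖υ w - l - (υ 0 - l)‖ ≤ 1
      rw [h9]
      exact h8
  choose F υ hFυ hυR hbF using hbig
  have hF0 : ∀ n, ∀ w ∈ closedBall (0 : ℂ) 1, F n w ≠ 0 := fun n w hw => hX.ne_zero (hFυ n w hw).2.2.1
  have hresc := fun n : ℕ => rescaleL (fun w hw => (hFυ n w hw).1) (hF0 n) n (hbF n)
  choose z₀ a hz₀ ha h1 h2 using hresc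
  have ha0 : ∀ n, 0 < a n := fun n => lt_trans (by positivity) (ha n)
  set G : ℕ → ℂ → EN N := fun n ζ => F n (z₀ n + (((a n)⁻¹ : ℝ) : ℂ) * ζ) with hGdef
  set w : ℕ → ℂ := fun n => υ n (z₀ n) with hwdef
  have hin : ∀ n : ℕ, ∀ ζ ∈ ball (0 : ℂ) ((n : ℝ) + 1), z₀ n + (((a n)⁻¹ : ℝ) : ℂ) * ζ ∈ closedBall (0 : ℂ) 1 := by
    intro n ζ hζ
    have := (h2 n ζ hζ).1
    rw [mem_closedBall_zero_iff]
    linarith
  have hz₀m : ∀ n, z₀ n ∈ closedBall (0 : ℂ) 1 := by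
    intro n
    rw [mem_closedBall_zero_iff]
    have := hz₀ n
    linarith
  have hGd : ∀ n : ℕ, DifferentiableOn ℂ (G n) (ball 0 ((n : ℝ) + 1)) := by
    intro n ζ hζ
    have h3 : DifferentiableAt ℂ (F n) (z₀ n + (((a n)⁻¹ : ℝ) : ℂ) * ζ) := (hFυ n _ (hin n ζ hζ)).1.differentiableAt
    have h4 : DifferentiableAt ℂ (fun ζ : ℂ => z₀ n + (((a n)⁻¹ : ℝ) : ℂ) * ζ) ζ :=
      (differentiableAt_id.const_mul _).const_add _
    exact (DifferentiableAt.comp (f := fun ζ : ℂ => z₀ n + (((a n)⁻¹ : ℝ) : ℂ) * ζ) (g := F n) ζ h3 h4).differentiableWithinAt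
  have hGu : ∀ n : ℕ, ∀ ζ ∈ ball (0 : ℂ) ((n : ℝ) + 1), u (G n ζ) - υ n (z₀ n + (((a n)⁻¹ : ℝ) : ℂ) * ζ) ∈ Λ :=
    fun n ζ hζ => (hFυ n _ (hin n ζ hζ)).2.2.2.2.1
  have hGX : ∀ n : ℕ, ∀ ζ ∈ ball (0 : ℂ) ((n : ℝ) + 1), G n ζ ∈ X ∧ G n ζ ∉ D := fun n ζ hζ =>
    ⟨(hFυ n _ (hin n ζ hζ)).2.2.1, (hFυ n _ (hin n ζ hζ)).2.2.2.1⟩
  have hGP : ∀ n : ℕ, ∀ ζ ∈ ball (0 : ℂ) ((n : ℝ) + 1), G n ζ ∈ part X Λ u R := fun n ζ hζ =>
    part_mem_of_val (hGX n ζ hζ).1 (hFυ n _ (hin n ζ hζ)).2.2.2.2.2.2.1 (hGu n ζ hζ)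
  have hG1 : ∀ n, fs (G n 0) (deriv (G n) 0) = 1 := by
    intro n
    have := h1 n
    rw [hGdef]
    simpa only [mul_zero, add_zero] using this
  have hwG : ∀ n, w n ∈ Gd B δ' := fun n => (hFυ n _ (hz₀m n)).2.2.2.2.2.1
  have hwR : ∀ n, w n ∈ closedBall (0 : ℂ) (R₁ + 1) := by
    intro n
    rw [mem_closedBall_zero_iff]
    have h3 : w n = υ n 0 + (υ n (z₀ n) - υ n 0) := by rw [hwdef]; ring
    rw [h3]
    exact (norm_add_le _ _).trans (add_le_add (hυR n) (hFυ n _ (hz₀m n)).2.2.2.2.2.2.2)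
  set 𝒰 : Ultrafilter ℕ := hyperfilter ℕ with h𝒰
  have hle : (𝒰 : Filter ℕ) ≤ atTop := Nat.hyperfilter_le_atTop
  obtain ⟨w₀, -, hw₀⟩ := (isCompact_closedBall (0 : ℂ) (R₁ + 1)).ultrafilter_le_nhds (𝒰.map w) (by
    rw [Filter.le_principal_iff, Ultrafilter.coe_map, Filter.mem_map]
    exact Filter.univ_mem' hwR)
  have hwt : Tendsto w 𝒰 (𝓝 w₀) := hw₀
  have hw₀G : w₀ ∈ Gd B δ' :=
    (Pool.Agent.H62.EL.isClosed_gd (B := B) δ').mem_of_tendsto hwt (Eventually.of_forall hwG)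
  have hρ : Tendsto (fun n : ℕ => (n : ℝ) + 1) 𝒰 atTop :=
    (tendsto_atTop_add_const_right _ _ tendsto_natCast_atTop_atTop).mono_left hle
  have hainv : Tendsto (fun n => (a n)⁻¹) 𝒰 (𝓝 0) := by
    have h3 : Tendsto a 𝒰 atTop := by
      refine tendsto_atTop_mono (fun n => ?_) hρ
      have := ha n
      have h4 : (0 : ℝ) ≤ n := Nat.cast_nonneg n
      linarith
    exact tendsto_inv_atTop_zero.comp h3
  obtain ⟨H, hH, hHP, hpr, hfs, hloc⟩ := Pool.Agent.H62.EF.limit_curves (E.part_isCone R) (L := 2) two_pos 𝒰 G (fun n : ℕ => (n : ℝ) + 1) hρ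
    (Eventually.of_forall fun n => ⟨hGd n, fun z hz => ⟨hGP n z hz, (h2 n z hz).2⟩⟩)
  have hHX : ∀ z, H z ∈ X := fun z => (hHP z).1
  have hH0 : ∀ z, H z ≠ 0 := fun z => hX.ne_zero (hHX z)
  -- the limit is not constant
  have hone : fs (H 0) (deriv H 0) = 1 := by
    have h3 := hfs 0
    simp only [hG1] at h3
    exact tendsto_nhds_unique h3 tendsto_const_nhds |>.symm ▸ rfl
  have hnc : ∃ z w, ∀ c : ℂ, H z ≠ c • H w := by
    by_contra hc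
    push Not at hc
    obtain ⟨b, hb⟩ := Pool.Agent.H36.BP.Brody_deriv_line (hH 0) (fun z => hc z 0)
    have h3 : wd (H 0) (deriv H 0) = 0 := (Pool.Agent.H36.BP.wd_eq_zero (hH0 0)).mpr ⟨b, hb⟩
    unfold fs at hone
    rw [h3, zero_div] at hone
    exact zero_ne_one hone
  -- the limit is in the fibre over `w₀`
  have hevn : ∀ ζ : ℂ, ∀ᶠ n : ℕ in (𝒰 : Filter ℕ), ζ ∈ ball (0 : ℂ) ((n : ℝ) + 1) := by
    intro ζ
    filter_upwards [hρ.eventually_gt_atTop ‖ζ‖] with n hn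
    rw [mem_ball_zero_iff]
    exact hn
  have hval : ∀ ζ, u (H ζ) - w₀ ∈ Λ := by
    intro ζ
    refine hΛ.mem_of_close fun ε hε => ?_
    obtain ⟨η, hη, h3⟩ := E.part_unif R (ε := ε / 3) (by positivity)
    have h4 : ∀ᶠ n in (𝒰 : Filter ℕ), dist (pr (G n ζ)) (pr (H ζ)) < η := (hpr ζ).eventually (ball_mem_nhds _ hη)
    have h5 : ∀ᶠ n in (𝒰 : Filter ℕ), dist (w n) w₀ < ε / 3 := hwt.eventually (ball_mem_nhds _ (by positivity))
    have h6 : ∀ᶠ n in (𝒰 : Filter ℕ), 4 * ((a n)⁻¹ * ‖ζ‖) < ε / 3 := by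
      have h7 : Tendsto (fun n => 4 * ((a n)⁻¹ * ‖ζ‖)) 𝒰 (𝓝 (4 * (0 * ‖ζ‖))) := (hainv.mul_const _).const_mul _
      rw [zero_mul, mul_zero] at h7
      exact h7.eventually_lt_const (by positivity)
    obtain ⟨n, hn1, hn2, hn3, hn4⟩ := (h4.and (h5.and (h6.and (hevn ζ)))).exists
    rw [dist_comm] at hn1
    obtain ⟨l, hl, hll⟩ := h3 _ (hHP ζ) _ (hGP n ζ hn4) hn1
    set y : ℂ := z₀ n + (((a n)⁻¹ : ℝ) : ℂ) * ζ with hy
    have hyz : ‖y - z₀ n‖ = (a n)⁻¹ * ‖ζ‖ := by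
      rw [hy, add_sub_cancel_left, norm_mul, Complex.norm_real, Real.norm_of_nonneg (inv_nonneg.2 (ha0 n).le)]
    have hyh : ‖y - z₀ n‖ < 1 / 2 := by
      rw [hyz, inv_mul_lt_iff₀ (ha0 n)]
      rw [mem_ball_zero_iff] at hn4
      have := ha n
      have h8 : (0 : ℝ) ≤ n := Nat.cast_nonneg n
      linarith
    have h9 := lip6 (fun w hw => (hFυ n w hw).2.1) (fun w hw => (hFυ n w hw).2.2.2.2.2.2.2) (hz₀ n) hyh
    rw [hyz] at h9
    refine ⟨l + (u (G n ζ) - υ n y), Λ.add_mem hl (hGu n ζ hn4), ?_⟩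
    have h10 : u (H ζ) - w₀ - (l + (u (G n ζ) - υ n y)) = (u (H ζ) - u (G n ζ) - l) + (υ n y - υ n (z₀ n)) + (w n - w₀) := by
      rw [hwdef]
      ring
    rw [h10]
    rw [dist_eq_norm] at hn2
    calc _ ≤ ‖(u (H ζ) - u (G n ζ) - l) + (υ n y - υ n (z₀ n))‖ + ‖w n - w₀‖ := norm_add_le _ _
      _ ≤ ‖u (H ζ) - u (G n ζ) - l‖ + ‖υ n y - υ n (z₀ n)‖ + ‖w n - w₀‖ := by
        gcongr
        exact norm_add_le _ _
      _ < ε := by linarith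
  have hB : ∀ z, ∀ b ∈ B, u (H z) - b ∉ Λ := by
    intro z b hb hzb
    have h3 : w₀ - b ∈ Λ := by
      have := Λ.sub_mem hzb (hval z)
      convert this using 1
      ring
    have h4 := E.bad.inv b hb _ h3
    rw [add_sub_cancel] at h4
    exact Pool.Agent.H62.EL.gd_notMem hδ' hw₀G h4
  rcases limit_dich E 𝒰 G (fun n : ℕ => (n : ℝ) + 1) hρ (Eventually.of_forall fun n => ⟨hGd n, fun z hz => hGX n z hz⟩) hH hHX hB hloc with hD | hD
  · have h3 := hor_fibre E.cone E.D_smul hu hΛ le_rfl (E.hor (H 0) (hD 0) (hB 0)) (hH.analyticAt 0)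
      (Eventually.of_forall fun z => ⟨hHX z, hD z⟩) (c₀ := w₀) (Eventually.of_forall hval)
    rw [h3] at hone
    exact zero_ne_one hone
  · obtain ⟨b, hb, hHb⟩ := E.fib H hH (fun z => ⟨hHX z, hD z⟩) (fun z w => by
      have := Λ.sub_mem (hval z) (hval w)
      convert this using 1
      ring) hnc
    exact hB 0 b hb hHb

theorem sec_boundL (E : LFib X D Λ Γ u B δ) {δ' : ℝ} (hδ' : 0 < δ') (R : ℝ) :
    ∃ L : ℝ, 0 < L ∧ ∀ (F : ℂ → EN N) (z : ℂ), z ∈ Gd B δ' → z ∈ Nb Λ R → (∀ w ∈ closedBall z δ', SecAt X D Λ u F w) →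
      fs (F z) (deriv F z) ≤ L := by
  obtain ⟨L, hL, h⟩ := disc_boundL E (δ' := δ' / 2) (by positivity) (R + 1)
  set r : ℝ := min (δ' / 2) 1 with hr
  have hr0 : 0 < r := lt_min (by positivity) one_pos
  have hr1 : r ≤ 1 := min_le_right _ _
  have hr2 : r ≤ δ' / 2 := min_le_left _ _
  refine ⟨L / r, by positivity, fun F z hz hzR hF => ?_⟩
  have hdist : ∀ w ∈ closedBall (0 : ℂ) 1, ‖(z + (r : ℂ) * w) - z‖ ≤ r := by
    intro w hw
    rw [add_sub_cancel_left, norm_mul, Complex.norm_real, Real.norm_of_nonneg hr0.le]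
    rw [mem_closedBall_zero_iff] at hw
    exact mul_le_of_le_one_right hr0.le hw
  have hin : ∀ w ∈ closedBall (0 : ℂ) 1, z + (r : ℂ) * w ∈ closedBall z δ' := by
    intro w hw
    rw [mem_closedBall, dist_eq_norm]
    have := hdist w hw
    linarith
  have h1 := h (fun ζ => F (z + (r : ℂ) * ζ)) (fun ζ => z + (r : ℂ) * ζ) (fun w hw => by
    have hS := hF _ (hin w hw)
    obtain ⟨hm1, hm2, hm3⟩ := hS.mem
    have hφ : AnalyticAt ℂ (fun ζ : ℂ => z + (r : ℂ) * ζ) w := by fun_prop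
    refine ⟨AnalyticAt.comp (g := F) (f := fun ζ : ℂ => z + (r : ℂ) * ζ) hS.1 hφ, hφ, hm1, hm2, hm3, ?_, ?_, ?_⟩
    · intro b hb
      have h3 := hz b hb
      have h4 : ‖z - b‖ ≤ ‖z + (r : ℂ) * w - b‖ + ‖z + (r : ℂ) * w - z‖ := by
        have h5 : z - b = (z + (r : ℂ) * w - b) - (z + (r : ℂ) * w - z) := by ring
        rw [h5]
        exact norm_sub_le _ _
      have h6 := hdist w hw
      linarith
    · exact nb_near hzR ((hdist w hw).trans hr1)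
    · have h3 : z + (r : ℂ) * w - (z + (r : ℂ) * 0) = z + (r : ℂ) * w - z := by ring
      rw [h3]
      exact (hdist w hw).trans hr1)
  have h2 : HasDerivAt (fun ζ : ℂ => z + (r : ℂ) * ζ) (r : ℂ) 0 := by
    simpa using ((hasDerivAt_id (0 : ℂ)).const_mul (r : ℂ)).const_add z
  have h3 : deriv (fun ζ => F (z + (r : ℂ) * ζ)) 0 = (r : ℂ) • deriv F z := by
    have h4 : HasDerivAt F (deriv F (z + (r : ℂ) * 0)) (z + (r : ℂ) * 0) := by
      rw [mul_zero, add_zero]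
      exact (hF z (mem_closedBall_self hδ'.le)).1.differentiableAt.hasDerivAt
    have h5 := (h4.scomp 0 h2).deriv
    rw [mul_zero, add_zero] at h5
    exact h5
  rw [h3, Pool.Agent.H36.BP.fs_smul_right, Complex.norm_real, Real.norm_of_nonneg hr0.le, mul_zero, add_zero] at h1
  rw [le_div_iff₀ hr0]
  linarith

theorem sec_lipL (E : LFib X D Λ Γ u B δ) {δ' : ℝ} (hδ' : 0 < δ') (R : ℝ) :
    ∃ L : ℝ, 0 < L ∧ ∀ (F : ℂ → EN N) (z : ℂ), z ∈ Gd B δ' → z ∈ Nb Λ R → (∀ w ∈ closedBall z δ', SecAt X D Λ u F w) →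
      ∀ w ∈ closedBall z (δ' / 2), ∀ w' ∈ closedBall z (δ' / 2), dist (pr (F w)) (pr (F w')) ≤ L * ‖w - w'‖ := by
  obtain ⟨L, hL, hb⟩ := sec_boundL E (δ' := δ' / 4) (by positivity) (R + δ')
  refine ⟨2 * L, by positivity, fun F z hz hzR hF w hw w' hw' => ?_⟩
  have hn : ∀ y ∈ ball z (3 * δ' / 4), ‖y - z‖ < 3 * δ' / 4 := by
    intro y hy
    rwa [mem_ball, dist_eq_norm] at hy
  have hcl : ∀ y ∈ ball z (3 * δ' / 4), ∀ x ∈ closedBall y (δ' / 4), x ∈ closedBall z δ' := by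
    intro y hy x hx
    rw [mem_closedBall, dist_eq_norm] at hx
    rw [mem_closedBall, dist_eq_norm]
    have h1 : x - z = (x - y) + (y - z) := by ring
    rw [h1]
    refine (norm_add_le _ _).trans ?_
    have := hn y hy
    linarith
  have hsub : ∀ y ∈ ball z (3 * δ' / 4), y ∈ Gd B (δ' / 4) := by
    intro y hy b hbB
    have h0 := hn y hy
    have h1 := hz b hbB
    have h2 : ‖z - b‖ ≤ ‖y - b‖ + ‖y - z‖ := by
      have h3 : z - b = (y - b) - (y - z) := by ring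
      rw [h3]
      exact norm_sub_le _ _
    linarith
  have hS : ∀ y ∈ ball z (3 * δ' / 4), SecAt X D Λ u F y := fun y hy =>
    hF y (hcl y hy y (mem_closedBall_self (by positivity)))
  have h0 : ∀ y ∈ ball z (3 * δ' / 4), F y ≠ 0 := fun y hy => E.cone.ne_zero (hS y hy).mem.1
  have hd : DifferentiableOn ℂ F (ball z (3 * δ' / 4)) := fun y hy =>
    (hS y hy).1.differentiableAt.differentiableWithinAt
  have hball : ∀ y ∈ closedBall z (δ' / 2), y ∈ ball z (3 * δ' / 4) := by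
    intro y hy
    rw [mem_closedBall] at hy
    rw [mem_ball]
    linarith
  refine Pool.Agent.H62.EF.pr_lipschitz isOpen_ball (convex_ball z (3 * δ' / 4)) hd h0
    (fun y hy => hb F y (hsub y hy) (nb_near hzR ?_) fun x hx => hF x (hcl y hy x hx)) w (hball w hw) w' (hball w' hw')
  have := hn y hy
  linarith

end Pool.Agent.H18.LU

end

section

/-!
# LU SoA: the limits of the sections, first facts

`so_lip`: `L` from `sec_lipL` for `δ'`, `R`.  Let `f ∈ SO Ω`, `closedBall z δ' ⊆ Ω`, `w, w' ∈ closedBall z (δ'/2)` and `ε > 0`; definition of `SO` for `K = closedBall z δ'`, `δ'/2`: there is `F` with `SecAt` on `K` and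
`dist (pr (F y)) (f y) < ε` at `y = w, w'` (they are in `Gd B (δ'/2)`); so `dist (f w) (f w') ≤ L ‖w - w'‖ + 2ε`.
`so_mem`: `z ∈ Gd B δ'` for some `δ' > 0` (`BadSet.exists_gd`); with `K = {z}`: `f z` is a limit of `pr (F n z)`, `F n z ∈ part X Λ u R`, `R = ‖z‖` (`mem_nb_norm`); `pr '' part` is compact (`isCompact_pr`).
`so_trans`: `K + l` is compact, `F (· + l)`, `secAt_add`, `gd_add`.
-/

set_option autoImplicit false

open Topology Filter Metric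

namespace Pool.Agent.H18.LU

attribute [-instance] ProperSMul.toContinuousSMul

open Pool.Agent.H36.BP (EN fs wd IsGermChart)
open Pool.Agent.H14.PP (IsCone Chart Tan CurveAt)
open Pool.Agent.H62.EF (Lat MN pr TorusMap Sec Charts DU)
open Pool.Agent.H62.EL (Gd Ag BadSet IsNC TForm)

variable {N : ℕ} {X D P : Set (EN N)} {Λ Γ : AddSubgroup ℂ} {u : EN N → ℂ} {B : Set ℂ} {δ : ℝ}

theorem so_anti {Ω Ω' : Set ℂ} (h : Ω' ⊆ Ω) : SO X D Λ u B Ω ⊆ SO X D Λ u B Ω' := fun _ hf K hK => hf K (hK.trans h)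

theorem sec_so {Ω : Set ℂ} {F : ℂ → EN N} (h : ∀ z ∈ Ω, SecAt X D Λ u F z) : (fun z => pr (F z)) ∈ SO X D Λ u B Ω := by
  intro K hK _ δ' ε _ hε
  refine ⟨F, fun z hz => h z (hK hz), fun z _ _ => ?_⟩
  rw [dist_self]
  exact hε

theorem so_congr {Ω : Set ℂ} {f g : ℂ → MN N} (hf : f ∈ SO X D Λ u B Ω) (h : ∀ z ∈ Ω, z ∉ B → g z = f z) : g ∈ SO X D Λ u B Ω := by
  intro K hK hKc δ' ε hδ' hε
  obtain ⟨F, hF, hFd⟩ := hf K hK hKc δ' ε hδ' hε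
  refine ⟨F, hF, fun z hz hzG => ?_⟩
  rw [h z (hK hz) (Pool.Agent.H62.EL.gd_notMem hδ' hzG)]
  exact hFd z hz hzG

theorem so_trans (E : LData X D P Λ Γ u B δ) {Ω : Set ℂ} {f : ℂ → MN N} (hf : f ∈ SO X D Λ u B Ω) {l : ℂ} (hl : l ∈ Λ) :
    (fun z => f (z + l)) ∈ SO X D Λ u B {z | z + l ∈ Ω} := by
  intro K hK hKc δ' ε hδ' hε
  have hcont : Continuous fun z : ℂ => z + l := continuous_id.add continuous_const
  obtain ⟨F, hF, hFd⟩ := hf ((fun z => z + l) '' K) (by rintro _ ⟨z, hz, rfl⟩; exact hK hz) (hKc.image hcont) δ' ε hδ' hε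
  refine ⟨fun z => F (z + l), fun z hz => (secAt_add hl).2 (hF _ ⟨z, hz, rfl⟩), fun z hz hzG => ?_⟩
  exact hFd _ ⟨z, hz, rfl⟩ ((E.bad.gd_add δ' hl).2 hzG)

theorem so_lip (E : LData X D P Λ Γ u B δ) {δ' : ℝ} (hδ' : 0 < δ') (R : ℝ) : ∃ L : ℝ, 0 < L ∧ ∀ (Ω : Set ℂ), ∀ f ∈ SO X D Λ u B Ω,
    ∀ z ∈ Gd B δ', z ∈ Nb Λ R → closedBall z δ' ⊆ Ω → ∀ w ∈ closedBall z (δ' / 2), ∀ w' ∈ closedBall z (δ' / 2),
      dist (f w) (f w') ≤ L * ‖w - w'‖ := by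
  obtain ⟨L, hL0, hlip⟩ := sec_lipL E.toLFib hδ' R
  refine ⟨L, hL0, fun Ω f hf z hz hzR hsub w hw w' hw' => ?_⟩
  refine le_of_forall_pos_le_add fun ε hε => ?_
  obtain ⟨F, hF, hFd⟩ := hf (closedBall z δ') hsub (isCompact_closedBall z δ') (δ' / 2) (ε / 2) (by linarith) (by linarith)
  have hgd : ∀ y ∈ closedBall z (δ' / 2), y ∈ closedBall z δ' ∧ y ∈ Gd B (δ' / 2) := by
    intro y hy
    refine ⟨closedBall_subset_closedBall (by linarith) hy, fun b hb => ?_⟩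
    have h1 := hz b hb
    rw [mem_closedBall, dist_comm, dist_eq_norm] at hy
    have h2 : ‖z - b‖ ≤ ‖z - y‖ + ‖y - b‖ := by
      have h3 : z - b = (z - y) + (y - b) := by ring
      rw [h3]
      exact norm_add_le _ _
    linarith
  have h1 := hFd w (hgd w hw).1 (hgd w hw).2
  have h2 := hFd w' (hgd w' hw').1 (hgd w' hw').2
  have h3 := hlip F z hz hzR hF w hw w' hw'
  calc dist (f w) (f w') ≤ dist (f w) (pr (F w)) + dist (pr (F w)) (pr (F w')) + dist (pr (F w')) (f w') :=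
        dist_triangle4 _ _ _ _
    _ ≤ ε / 2 + L * ‖w - w'‖ + ε / 2 := by
        rw [dist_comm (f w)]
        linarith
    _ = L * ‖w - w'‖ + ε := by ring

theorem so_mem (E : LData X D P Λ Γ u B δ) {Ω : Set ℂ} {f : ℂ → MN N} (hf : f ∈ SO X D Λ u B Ω) {z : ℂ} (hz : z ∈ Ω) (hzB : z ∉ B) {R : ℝ}
    (hR : z ∈ Nb Λ R) : f z ∈ pr '' part X Λ u R := by
  obtain ⟨δ', hδ', hz'⟩ := E.bad.exists_gd hzB
  have hc := (Pool.Agent.H62.EF.isCompact_pr (E.part_isCone R)).isClosed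
  rw [← hc.closure_eq, Metric.mem_closure_iff]
  intro ε hε
  obtain ⟨F, hF, hFd⟩ := hf {z} (Set.singleton_subset_iff.2 hz) isCompact_singleton δ' ε hδ' hε
  obtain ⟨h1, -, h3⟩ := (hF z rfl).mem
  refine ⟨pr (F z), ⟨F z, part_mem_of_val h1 hR h3, rfl⟩, ?_⟩
  rw [dist_comm]
  exact hFd z rfl hz'

end Pool.Agent.H18.LU

end

section

/-!
# LU SoB: limits of members of `SO`

`so_limO`: port of `sb_lim` (EL SbA).  Let `K ⊆ Ω` be compact, `δ', ε > 0`.  `Ω` is open, so `cthickening s K ⊆ Ω` for some `s ≤ δ'` (`IsCompact.exists_cthickening_subset_open`), a compact set; `K ⊆ Nb Λ R` for `R` large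
(`mem_nb_norm`).  For `𝒰`-almost all `n`: `cthickening s K ⊆ Ω n`, `F n ∈ SO (Ω n)`.  `so_lip` with `s`: on `K ∩ Gd B δ'` (`⊆ Gd B s`) the `F n` and the limit `f` satisfy `dist (F n w) (F n w') ≤ L ‖w - w'‖` for
`‖w - w'‖ ≤ s/2` (centre `w`).  `K ∩ Gd B δ'` is compact (`isClosed_gd`): finite net of mesh `≤ min (s/2) (ε/(8L))`; so there is `n` with `dist (F n z) (f z) < ε/2` for all `z ∈ K ∩ Gd B δ'`; then take `F` for `F n` with
`ε/2` (`K ⊆ Ω n`).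
`so_exists_lim`: for `z ∉ B` the values `F n z` are for almost all `n` in the compact set `pr '' part X Λ u ‖z‖` (`so_mem`), so they converge along `𝒰`; define `f z` as the limit (`f z = 0` for `z ∈ B`); `so_limO`.
`so_centre`: `l n ∈ Γ` with `‖z n - l n‖ ≤ R₁` (`LData.exists_rep`) for the `n` with `z n ∈ Nb Λ R` (otherwise `l n = 0`); `F n (· + l n) ∈ SO` of the translated ball (`so_trans`, `E.le`); `z n - l n → w` along `𝒰`
(bounded), `w ∈ Gd B δ'` (`isClosed_gd`, `gd_add`), `w ∈ Nb Λ R` (`isClosed_nb`, `nb_add`); the translated balls contain `ball 0 R'` eventually; `so_exists_lim`, `so_along` (at `w`, along `z n - l n`).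
`so_along`: `z ∈ Gd B δ'` (`exists_gd`), `dist (F n (w n)) (F n z) ≤ L ‖w n - z‖ → 0` by `so_lip` (centre `z`, `closedBall z δ' ⊆ Ω n` for almost all `n`).
-/

set_option autoImplicit false

open Topology Filter Metric

namespace Pool.Agent.H18.LU

attribute [-instance] ProperSMul.toContinuousSMul

open Pool.Agent.H36.BP (EN fs wd IsGermChart)
open Pool.Agent.H14.PP (IsCone Chart Tan CurveAt)
open Pool.Agent.H62.EF (Lat MN pr TorusMap Sec Charts DU)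
open Pool.Agent.H62.EL (Gd Ag BadSet IsNC TForm)

variable {N : ℕ} {X D P : Set (EN N)} {Λ Γ : AddSubgroup ℂ} {u : EN N → ℂ} {B : Set ℂ} {δ : ℝ}

theorem so_limO (E : LData X D P Λ Γ u B δ) (𝒰 : Ultrafilter ℕ) (Ω : ℕ → Set ℂ) {Ω' : Set ℂ} (hΩ' : IsOpen Ω')
    (hΩ : ∀ K : Set ℂ, K ⊆ Ω' → IsCompact K → ∀ᶠ n in (𝒰 : Filter ℕ), K ⊆ Ω n) (F : ℕ → ℂ → MN N) (f : ℂ → MN N)
    (hF : ∀ᶠ n in (𝒰 : Filter ℕ), F n ∈ SO X D Λ u B (Ω n)) (hf : ∀ z ∈ Ω', z ∉ B → Tendsto (fun n => F n z) 𝒰 (𝓝 (f z))) :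
    f ∈ SO X D Λ u B Ω' := by
  intro K hK hKc δ' ε hδ' hε
  obtain ⟨s₀, hs₀, hs₀K⟩ := hKc.exists_cthickening_subset_open hΩ' hK
  obtain ⟨s, hs, hss₀, hsδ⟩ : ∃ s : ℝ, 0 < s ∧ s ≤ s₀ ∧ s ≤ δ' := ⟨min s₀ δ', lt_min hs₀ hδ', min_le_left _ _, min_le_right _ _⟩
  have hsub : cthickening s K ⊆ Ω' := (cthickening_mono hss₀ K).trans hs₀K
  have hbig := hΩ (cthickening s K) hsub hKc.cthickening
  have hcl : ∀ z ∈ K, closedBall z s ⊆ cthickening s K := fun z hz => closedBall_subset_cthickening hz s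
  obtain ⟨R, hR⟩ := hKc.isBounded.subset_closedBall (0 : ℂ)
  have hnb : ∀ z ∈ K, z ∈ Nb Λ R := fun z hz => by
    have h1 := hR hz
    rw [mem_closedBall_zero_iff] at h1
    exact nb_mono h1 (mem_nb_norm z)
  obtain ⟨L, hL0, hlip⟩ := so_lip E hs R
  have hgs : ∀ z ∈ Gd B δ', z ∈ Gd B s := fun z hz => Pool.Agent.H62.EL.gd_mono hsδ hz
  have hgd : ∀ z ∈ Gd B δ', ∀ w ∈ closedBall z (s / 2), w ∉ B := by
    intro z hz w hw hwB
    have h1 := hz w hwB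
    rw [mem_closedBall, dist_comm, dist_eq_norm] at hw
    linarith
  have hself : ∀ z : ℂ, z ∈ closedBall z (s / 2) := fun z => mem_closedBall_self (by linarith)
  have hflip : ∀ z ∈ K, z ∈ Gd B δ' → ∀ w ∈ closedBall z (s / 2), dist (f z) (f w) ≤ L * ‖z - w‖ := by
    intro z hzK hz w hw
    have hwΩ : w ∈ Ω' := hsub (hcl z hzK (closedBall_subset_closedBall (by linarith) hw))
    refine le_of_tendsto ((hf z (hK hzK) (Pool.Agent.H62.EL.gd_notMem hδ' hz)).dist (hf w hwΩ (hgd z hz w hw))) ?_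
    filter_upwards [hF, hbig] with n hn hn2 using hlip (Ω n) (F n) hn z (hgs z hz) (hnb z hzK) ((hcl z hzK).trans hn2) z (hself z) w hw
  have hcomp : IsCompact (K ∩ Gd B δ') := hKc.inter_right (Pool.Agent.H62.EL.isClosed_gd δ')
  have hs' : 0 < min (s / 2) (ε / (8 * L)) := by positivity
  obtain ⟨t, htS, htf, hcov⟩ := hcomp.finite_cover_balls hs'
  have hev : ∀ᶠ n in (𝒰 : Filter ℕ), (F n ∈ SO X D Λ u B (Ω n) ∧ cthickening s K ⊆ Ω n) ∧ ∀ y ∈ t, dist (F n y) (f y) < ε / 8 := by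
    refine (hF.and hbig).and ((Filter.eventually_all_finite htf).2 fun y hy => ?_)
    exact (Metric.tendsto_nhds.1 (hf y (hK (htS hy).1) (Pool.Agent.H62.EL.gd_notMem hδ' (htS hy).2))) (ε / 8) (by linarith)
  obtain ⟨n, ⟨hn, hnb'⟩, hnt⟩ := hev.exists
  obtain ⟨G, hG, hGd⟩ := hn K (fun z hz => hnb' (hcl z hz (mem_closedBall_self hs.le))) hKc δ' (ε / 2) hδ' (by linarith)
  refine ⟨G, hG, fun z hz hzG => ?_⟩
  have h1 := hGd z hz hzG
  obtain ⟨y, hyt, hzy⟩ : ∃ y ∈ t, z ∈ ball y (min (s / 2) (ε / (8 * L))) := by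
    have h2 := hcov ⟨hz, hzG⟩
    obtain ⟨y, hy, hzy⟩ := Set.mem_iUnion₂.1 h2
    exact ⟨y, hy, hzy⟩
  have hzy' : z ∈ closedBall y (s / 2) := ball_subset_closedBall (ball_subset_ball (min_le_left _ _) hzy)
  obtain ⟨hyK, hy⟩ := htS hyt
  have hyz : ‖y - z‖ ≤ ε / (8 * L) := by
    rw [mem_ball, dist_comm, dist_eq_norm] at hzy
    exact hzy.le.trans (min_le_right _ _)
  have hLz : L * ‖y - z‖ ≤ ε / 8 := by
    calc L * ‖y - z‖ ≤ L * (ε / (8 * L)) := mul_le_mul_of_nonneg_left hyz hL0.le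
      _ = ε / 8 := by field_simp
  have h3 := hlip (Ω n) (F n) hn y (hgs y hy) (hnb y hyK) ((hcl y hyK).trans hnb') y (hself y) z hzy'
  have h4 := hflip y hyK hy z hzy'
  have h5 := hnt y hyt
  have h6 : dist (F n z) (f z) ≤ dist (F n z) (F n y) + dist (F n y) (f y) + dist (f y) (f z) :=
    dist_triangle4 _ _ _ _
  rw [dist_comm (F n z) (F n y)] at h6
  have h7 := dist_triangle (pr (G z)) (F n z) (f z)
  linarith

theorem so_lim (E : LData X D P Λ Γ u B δ) (𝒰 : Ultrafilter ℕ) (Ω : ℕ → Set ℂ) (hΩ : ∀ R : ℝ, ∀ᶠ n in (𝒰 : Filter ℕ), ball 0 R ⊆ Ω n)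
    (F : ℕ → ℂ → MN N) (f : ℂ → MN N) (hF : ∀ᶠ n in (𝒰 : Filter ℕ), F n ∈ SO X D Λ u B (Ω n))
    (hf : ∀ z, z ∉ B → Tendsto (fun n => F n z) 𝒰 (𝓝 (f z))) : f ∈ SO X D Λ u B Set.univ := by
  refine so_limO E 𝒰 Ω isOpen_univ (fun K _ hK => ?_) F f hF fun z _ hz => hf z hz
  obtain ⟨R, hR⟩ := hK.isBounded.subset_ball (0 : ℂ)
  filter_upwards [hΩ R] with n hn using hR.trans hn

/-- along an ultrafilter every sequence which is eventually in a compact set converges -/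
private theorem exists_tendsto {Y : Type} [TopologicalSpace Y] {K : Set Y} (hK : IsCompact K) (𝒰 : Ultrafilter ℕ) (y : ℕ → Y)
    (h : ∀ᶠ n in (𝒰 : Filter ℕ), y n ∈ K) : ∃ a ∈ K, Tendsto y 𝒰 (𝓝 a) := by
  have h1 : ((𝒰.map y : Ultrafilter Y) : Filter Y) ≤ 𝓟 K := by
    rw [Filter.le_principal_iff]
    exact h
  obtain ⟨a, ha, h2⟩ := hK.ultrafilter_le_nhds (𝒰.map y) h1
  exact ⟨a, ha, h2⟩

theorem so_exists_lim (E : LData X D P Λ Γ u B δ) (𝒰 : Ultrafilter ℕ) (Ω : ℕ → Set ℂ) (hΩ : ∀ R : ℝ, ∀ᶠ n in (𝒰 : Filter ℕ), ball 0 R ⊆ Ω n)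
    (F : ℕ → ℂ → MN N) (hF : ∀ᶠ n in (𝒰 : Filter ℕ), F n ∈ SO X D Λ u B (Ω n)) :
    ∃ f ∈ SO X D Λ u B Set.univ, ∀ z, z ∉ B → Tendsto (fun n => F n z) 𝒰 (𝓝 (f z)) := by
  have h1 : ∀ z : ℂ, ∃ y : MN N, z ∉ B → Tendsto (fun n => F n z) 𝒰 (𝓝 y) := by
    intro z
    by_cases hz : z ∈ B
    · exact ⟨pr 0, fun h => absurd hz h⟩
    · obtain ⟨y, -, hy⟩ := exists_tendsto (Pool.Agent.H62.EF.isCompact_pr (E.part_isCone ‖z‖)) 𝒰 (fun n => F n z) (by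
        filter_upwards [hF, hΩ (‖z‖ + 1)] with n hn hn2
        exact so_mem E hn (hn2 (by
          rw [mem_ball_zero_iff]
          linarith)) hz (mem_nb_norm z))
      exact ⟨y, fun _ => hy⟩
  choose f hf using h1
  exact ⟨f, so_lim E 𝒰 Ω hΩ F f hF hf, hf⟩

theorem so_along (E : LData X D P Λ Γ u B δ) (𝒰 : Ultrafilter ℕ) (Ω : ℕ → Set ℂ) (hΩ : ∀ R : ℝ, ∀ᶠ n in (𝒰 : Filter ℕ), ball 0 R ⊆ Ω n)
    (F : ℕ → ℂ → MN N) {f : ℂ → MN N} (hF : ∀ᶠ n in (𝒰 : Filter ℕ), F n ∈ SO X D Λ u B (Ω n))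
    (hf : ∀ z, z ∉ B → Tendsto (fun n => F n z) 𝒰 (𝓝 (f z))) {w : ℕ → ℂ} {z : ℂ} (hz : z ∉ B) (hw : Tendsto w 𝒰 (𝓝 z)) :
    Tendsto (fun n => F n (w n)) 𝒰 (𝓝 (f z)) := by
  obtain ⟨δ', hδ', hz'⟩ := E.bad.exists_gd hz
  obtain ⟨L, hL0, hlip⟩ := so_lip E hδ' ‖z‖
  rw [Metric.tendsto_nhds]
  intro ε hε
  have h1 : ∀ᶠ n in (𝒰 : Filter ℕ), dist (w n) z < min (δ' / 2) (ε / (2 * L)) :=
    Metric.tendsto_nhds.1 hw _ (lt_min (by linarith) (by positivity))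
  have h2 : ∀ᶠ n in (𝒰 : Filter ℕ), dist (F n z) (f z) < ε / 2 := Metric.tendsto_nhds.1 (hf z hz) _ (by linarith)
  filter_upwards [h1, h2, hF, hΩ (‖z‖ + δ' + 1)] with n h3 h4 h5 h6
  have hcl : closedBall z δ' ⊆ Ω n := fun y hy => h6 (by
    rw [mem_closedBall, dist_eq_norm] at hy
    rw [mem_ball_zero_iff]
    have h7 : y = (y - z) + z := by ring
    rw [h7]
    refine (norm_add_le _ _).trans_lt ?_
    linarith)
  have h8 := hlip (Ω n) (F n) h5 z hz' (mem_nb_norm z) hcl (w n) (by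
    rw [mem_closedBall]
    exact (h3.trans_le (min_le_left _ _)).le) z (mem_closedBall_self (by linarith))
  have h9 : L * ‖w n - z‖ < ε / 2 := by
    rw [dist_eq_norm] at h3
    calc L * ‖w n - z‖ < L * (ε / (2 * L)) := mul_lt_mul_of_pos_left (h3.trans_le (min_le_right _ _)) hL0
      _ = ε / 2 := by field_simp
  have h10 := dist_triangle (F n (w n)) (F n z) (f z)
  linarith

/-- the compactness principle for the centre: balls with centres `z n` at bounded distance from `Λ` and radii which tend to infinity -/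
theorem so_centre (E : LData X D P Λ Γ u B δ) {δ' R : ℝ} (𝒰 : Ultrafilter ℕ) (z : ℕ → ℂ) (ρ : ℕ → ℝ) (hρ : Tendsto ρ 𝒰 atTop)
    (hz : ∀ᶠ n in (𝒰 : Filter ℕ), z n ∈ Gd B δ' ∧ z n ∈ Nb Λ R) (F : ℕ → ℂ → MN N)
    (hF : ∀ᶠ n in (𝒰 : Filter ℕ), F n ∈ SO X D Λ u B (ball (z n) (ρ n))) (hδ' : 0 < δ') :
    ∃ (l : ℕ → ℂ) (w : ℂ) (f : ℂ → MN N), (∀ n, l n ∈ Γ) ∧ w ∈ Gd B δ' ∧ w ∈ Nb Λ R ∧ Tendsto (fun n => z n - l n) 𝒰 (𝓝 w) ∧
      f ∈ SO X D Λ u B Set.univ ∧ (∀ᶠ n in (𝒰 : Filter ℕ), (fun y => F n (y + l n)) ∈ SO X D Λ u B (ball (z n - l n) (ρ n))) ∧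
      (∀ y, y ∉ B → Tendsto (fun n => F n (y + l n)) 𝒰 (𝓝 (f y))) ∧ Tendsto (fun n => F n (z n)) 𝒰 (𝓝 (f w)) := by
  obtain ⟨R₁, hR₁, hrep⟩ := E.toLFib.exists_rep R
  have h1 : ∀ n, ∃ l ∈ Γ, z n ∈ Nb Λ R → ‖z n - l‖ ≤ R₁ := by
    intro n
    by_cases h : z n ∈ Nb Λ R
    · obtain ⟨l, hl, hl'⟩ := hrep (z n) h
      exact ⟨l, hl, fun _ => hl'⟩
    · exact ⟨0, Γ.zero_mem, fun h' => absurd h' h⟩
  choose l hl hlz using h1
  have hlΛ : ∀ n, l n ∈ Λ := fun n => E.le (hl n)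
  have hzl : ∀ n, z n - l n + l n = z n := fun n => sub_add_cancel _ _
  obtain ⟨w, -, hw⟩ := exists_tendsto (isCompact_closedBall (0 : ℂ) R₁) 𝒰 (fun n => z n - l n) (by
    filter_upwards [hz] with n hn
    rw [mem_closedBall_zero_iff]
    exact hlz n hn.2)
  have hgd : ∀ᶠ n in (𝒰 : Filter ℕ), z n - l n ∈ Gd B δ' := by
    filter_upwards [hz] with n hn
    rw [← E.bad.gd_add δ' (hlΛ n), hzl]
    exact hn.1
  have hnb : ∀ᶠ n in (𝒰 : Filter ℕ), z n - l n ∈ Nb Λ R := by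
    filter_upwards [hz] with n hn
    rw [← nb_add (hlΛ n), hzl]
    exact hn.2
  have hwG : w ∈ Gd B δ' := (Pool.Agent.H62.EL.isClosed_gd δ').mem_of_tendsto hw hgd
  have hwN : w ∈ Nb Λ R := (isClosed_nb E.dsc R).mem_of_tendsto hw hnb
  have hFl : ∀ᶠ n in (𝒰 : Filter ℕ), (fun y => F n (y + l n)) ∈ SO X D Λ u B (ball (z n - l n) (ρ n)) := by
    filter_upwards [hF] with n hn
    have h2 := so_trans E hn (hlΛ n)
    have h3 : {y : ℂ | y + l n ∈ ball (z n) (ρ n)} = ball (z n - l n) (ρ n) := by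
      ext y
      show y + l n ∈ ball (z n) (ρ n) ↔ _
      rw [mem_ball, mem_ball, dist_eq_norm, dist_eq_norm]
      have h4 : y + l n - z n = y - (z n - l n) := by ring
      rw [h4]
    rwa [h3] at h2
  have hball : ∀ R' : ℝ, ∀ᶠ n in (𝒰 : Filter ℕ), ball 0 R' ⊆ ball (z n - l n) (ρ n) := by
    intro R'
    filter_upwards [Metric.tendsto_nhds.1 hw 1 one_pos, hρ.eventually_ge_atTop (R' + 1 + ‖w‖)] with n h2 h3
    refine ball_subset_ball' ?_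
    have h4 : dist (0 : ℂ) (z n - l n) ≤ dist (0 : ℂ) w + dist w (z n - l n) := dist_triangle _ _ _
    have h5 : dist (0 : ℂ) w = ‖w‖ := dist_zero_left _
    have h6 : dist w (z n - l n) = dist (z n - l n) w := dist_comm _ _
    linarith
  obtain ⟨f, hf, hf'⟩ := so_exists_lim E 𝒰 (fun n => ball (z n - l n) (ρ n)) hball (fun n y => F n (y + l n)) hFl
  refine ⟨l, w, f, hl, hwG, hwN, hw, hf, hFl, hf', ?_⟩
  have h2 := so_along E 𝒰 (fun n => ball (z n - l n) (ρ n)) hball (fun n y => F n (y + l n)) hFl hf'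
    (Pool.Agent.H62.EL.gd_notMem hδ' hwG) hw
  refine h2.congr fun n => ?_
  show F n (z n - l n + l n) = F n (z n)
  rw [hzl]

end Pool.Agent.H18.LU

end
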