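import Pool.Agent.H94.CB.H17EF.PNDefs
import Pool.Agent.H94.CB.H46.LR.Defs
import Pool.Agent.H94.CB.M195
import Pool.Agent.H94.CB.M197

/-! The parts of this file: H18.LU.Lc, H46.LR.Alg. -/

section

/-!
# LU Lc: limit curves which are not sections

`LCur`: entire curves in `X` which are limits, outside a closed discrete set, of curves in `X \ D` over larger and larger discs (no condition on `u`).

`lcur_of_limit`: `IsLimit K l F H` (BPB Defs) with `K = X \ D`: `Z = {z | ¬ ConvAt l F H z}` is closed (`ConvAt` is open) and discrete (`conv`).  `K₀` compact, disjoint from `Z`: near each point of `K₀` `φ n • F n → H` uniformly, so `pr (F n) → pr H`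
uniformly (`pr` is continuous and invariant; `H ≠ 0`; uniform continuity on compact sets), finitely many points suffice; `l` is not trivial and `≤ atTop`, so there is such an `n ≥ R`.
`lcur_fibre`: `R = ‖c‖ + 1`, `3 δ' ≤ ` the distance of `c` to `B` (`BadSet.exists_gd` for `c ∉ B`), `δ' ≤ 1`.  Let `K = closedBall 0 r`.  Take `G n` as in the definition with `R := r + 3`, `ε = 1/(n+1)`, compact sets `K n` exhausting the complement of `Z` in
`closedBall 0 (r + 3)`.  `u ∘ G n` has a holomorphic lift `υ n` on `ball 0 (r + 3)` (local lifts `v ∘ G n` of `TorusMap.loc`, the disc is simply connected: see `Pool.Agent.H62.EF` (LI, `exists_global_lift` is for the cone) — or: the derivative of the local lifts is a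
holomorphic function on the disc, take a primitive).  On circles `‖z - z₀‖ = s` which do not meet `Z`: `u (G n z) - c` is near `Λ` uniformly (`part_unif` for `part X Λ u R`; `G n z ∈ part` because ... `pr (G n z)` is near `pr (H z)`; use `TorusMap.loc` at the
points `H z`), so after adding an element of `Λ` `υ n → c` uniformly on a connected compact set `closedBall 0 (r+2) \ ⋃ balls around the points of Z`, and by the maximum principle on `closedBall 0 (r + 2)`.  So for large `n`: `υ n ∈ closedBall c δ'` there: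
`disc_boundL` on the discs `z + ball 0 1`, `z ∈ closedBall 0 (r+1)`: `fs (G n z) (G n' z) ≤ L`; the curves are uniformly Lipschitz (`pr_lipschitz`), so `pr (G n) → pr H` uniformly on `closedBall 0 (r + 1)` (density of the complement of `Z`), with
lifts (private lemma `SbB_local` of EL SbB, `so_lift` is similar).  So `H` is locally the limit of multiples of the `G n`: `limit_dich` (values of `H` are `c ∉ B`): `H` is in `D` or avoids `D`.  `D`: `hor_fibre` at every point gives `fs (H z) (H' z) = 0`; so `pr ∘ H` is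
constant (`pr_lipschitz` with `L = 0`).  `H` avoids `D`: `E.fib`: `u (H 0) - b ∈ Λ` contradicts `c ∉ B` (`BadSet.inv`), so all `H z`, `H w` are proportional.
`lcur_aff`: put `φ z = a z + c`, `f z = pr (H ((z - c) / a))`, `F z = H ((z - c) / a) ∈ Sec X Λ u`.  `Z' = φ Z`.  Given `R`, `ε`, `K`: take `G n` for the radius `R₁ = (R + ‖c‖ + 3) / ‖a‖` and compact sets exhausting the complement of `Z`, `ε → 0`; lifts `υ n` of `u ∘ G n` on
`ball 0 R₁` with `υ n → φ` uniformly on compact sets (as above).  For large `n` `υ n` is injective on a slightly smaller disc, with `ball 0 (R + 1) ⊆ υ n (..)`: (`‖υ n' - a‖ ≤ ‖a‖ / 2` gives injectivity on convex sets, and the image: Rouché or the open mapping /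
Banach fixed point argument `z ↦ z - (υ n z - w) / a`).  `G n ∘ (υ n)⁻¹` is the required section over `closedBall 0 R` (the inverse is holomorphic: `HasStrictDerivAt.to_localInverse` or `DifferentiableOn` of the inverse of an injective holomorphic function), and
`(υ n)⁻¹ → φ⁻¹` uniformly; on `K` (disjoint from `Z'`) the curves `pr (G n)` converge uniformly near `φ⁻¹ K` and `pr ∘ H` is uniformly continuous there.
-/

set_option autoImplicit false

open Topology Filter Metric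

namespace Pool.Agent.H18.LU

attribute [-instance] ProperSMul.toContinuousSMul

open Pool.Agent.H36.BP (EN fs wd IsGermChart)
open Pool.Agent.H14.PP (IsCone Chart Tan CurveAt)
open Pool.Agent.H62.EF (Lat MN pr TorusMap Sec Charts DU)
open Pool.Agent.H62.EL (Gd Ag BadSet IsNC TForm)

variable {N : ℕ} {X D : Set (EN N)} {Λ Γ : AddSubgroup ℂ} {u : EN N → ℂ} {B : Set ℂ} {δ : ℝ}

/-! ### lifts over discs (copy of EF TorB for discrete groups) -/

private theorem lc_local (hu : TorusMap X Λ u) {F : ℂ → EN N} {z₁ : ℂ} (hF : AnalyticAt ℂ F z₁)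
    (hX₁ : F z₁ ∈ X) (hFX : ∀ᶠ z in 𝓝 z₁, F z ∈ X) :
    ∃ E : ℂ → ℂ, AnalyticAt ℂ E z₁ ∧ ∀ᶠ z in 𝓝 z₁, u (F z) - E z ∈ Λ := by
  obtain ⟨v, hv, hv2⟩ := hu.loc (F z₁) hX₁
  refine ⟨v ∘ F, hv.comp hF, ?_⟩
  filter_upwards [hF.continuousAt.eventually hv2, hFX] with z h1 h2
  exact h1 h2

private theorem lc_const (hΛ : Dsc Λ) {w : ℂ → ℂ} {E E' : ℂ → ℂ} {z₁ : ℂ} (hE : AnalyticAt ℂ E z₁)
    (hE' : AnalyticAt ℂ E' z₁) (h : ∀ᶠ z in 𝓝 z₁, w z - E z ∈ Λ)
    (h' : ∀ᶠ z in 𝓝 z₁, w z - E' z ∈ Λ) : ∃ c : ℂ, ∀ᶠ z in 𝓝 z₁, E z = E' z + c := by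
  obtain ⟨ε, hε, hb⟩ := Metric.eventually_nhds_iff_ball.mp
    (hE.eventually_analyticAt.and (hE'.eventually_analyticAt.and (h.and h')))
  have hc : ContinuousOn (fun z => E z - E' z) (ball z₁ ε) := fun z hz =>
    ((hb z hz).1.continuousAt.sub (hb z hz).2.1.continuousAt).continuousWithinAt
  have hm : ∀ z ∈ ball z₁ ε, E z - E' z ∈ Λ := by
    intro z hz
    have := Λ.sub_mem (hb z hz).2.2.2 (hb z hz).2.2.1
    simpa using this
  have hk := hΛ.const (convex_ball z₁ ε).isPreconnected hc hm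
  refine ⟨E z₁ - E' z₁, ?_⟩
  filter_upwards [ball_mem_nhds z₁ hε] with z hz
  have h5 : E z - E' z = E z₁ - E' z₁ := hk z hz z₁ (mem_ball_self hε)
  rw [← h5]
  ring

private theorem lc_lift_ball (hu : TorusMap X Λ u) (hΛ : Dsc Λ) {F : ℂ → EN N} {z₀ : ℂ} {r : ℝ} (hr : 0 < r)
    (hF : DifferentiableOn ℂ F (ball z₀ r)) (hFX : ∀ z ∈ ball z₀ r, F z ∈ X) :
    ∃ D : ℂ → ℂ, DifferentiableOn ℂ D (ball z₀ r) ∧ D z₀ = u (F z₀) ∧ ∀ z ∈ ball z₀ r, u (F z) - D z ∈ Λ := by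
  have hU : IsOpen (ball z₀ r) := isOpen_ball
  have hUc : IsPreconnected (ball z₀ r) := (convex_ball z₀ r).isPreconnected
  have hz₀ : z₀ ∈ ball z₀ r := mem_ball_self hr
  have h1 : ∀ z₁ : ℂ, ∃ E : ℂ → ℂ, z₁ ∈ ball z₀ r →
      AnalyticAt ℂ E z₁ ∧ ∀ᶠ z in 𝓝 z₁, u (F z) - E z ∈ Λ := by
    intro z₁
    by_cases hz : z₁ ∈ ball z₀ r
    · obtain ⟨E, hE⟩ := lc_local hu (hF.analyticAt (hU.mem_nhds hz)) (hFX _ hz)
        (by filter_upwards [hU.mem_nhds hz] with z h using hFX z h)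
      exact ⟨E, fun _ => hE⟩
    · exact ⟨0, fun h => absurd h hz⟩
  choose E hE using h1
  set d : ℂ → ℂ := fun z => deriv (E z) z with hd
  have h2 : ∀ z₁ ∈ ball z₀ r, d =ᶠ[𝓝 z₁] deriv (E z₁) := by
    intro z₁ hz₁
    obtain ⟨hA, hL⟩ := hE z₁ hz₁
    filter_upwards [hA.eventually_analyticAt, hL.eventually_nhds, hU.mem_nhds hz₁] with z hz1 hz2 hz3
    obtain ⟨hA', hL'⟩ := hE z hz3
    obtain ⟨c, hc⟩ := lc_const hΛ hA' hz1 hL' hz2
    have h5 : deriv (E z) z = deriv (fun w => E z₁ w + c) z := Filter.EventuallyEq.deriv_eq hc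
    show deriv (E z) z = deriv (E z₁) z
    rw [h5, deriv_add_const]
  have h3 : DifferentiableOn ℂ d (ball z₀ r) := by
    intro z₁ hz₁
    have h5 := (hE z₁ hz₁).1.deriv
    exact (h5.differentiableAt.congr_of_eventuallyEq (h2 z₁ hz₁)).differentiableWithinAt
  obtain ⟨D, hD0, hD⟩ := (h3.isExactOn_ball).with_val_at z₀ (u (F z₀))
  refine ⟨D, fun z hz => (hD z hz).differentiableAt.differentiableWithinAt, hD0, ?_⟩
  have h4 : ∀ z₁ ∈ ball z₀ r, ∃ c : ℂ, ∀ᶠ z in 𝓝 z₁, D z = E z₁ z + c := by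
    intro z₁ hz₁
    obtain ⟨hA, _⟩ := hE z₁ hz₁
    obtain ⟨ε, hε, hb⟩ := Metric.eventually_nhds_iff_ball.mp
      (hA.eventually_analyticAt.and ((h2 z₁ hz₁).and (hU.mem_nhds hz₁)))
    obtain ⟨c, hc⟩ := isOpen_ball.exists_eq_add_of_deriv_eq (convex_ball z₁ ε).isPreconnected
      (f := D) (g := E z₁)
      (fun z hz => (hD z (hb z hz).2.2).differentiableAt.differentiableWithinAt)
      (fun z hz => (hb z hz).1.differentiableAt.differentiableWithinAt)
      (fun z hz => by rw [(hD z (hb z hz).2.2).deriv]; exact (hb z hz).2.1)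
    refine ⟨c, ?_⟩
    filter_upwards [ball_mem_nhds z₁ hε] with z hz
    exact hc hz
  have h5 : ∀ z₁ ∈ ball z₀ r, ∀ᶠ z in 𝓝 z₁, (u (F z₁) - D z₁ ∈ Λ ↔ u (F z) - D z ∈ Λ) := by
    intro z₁ hz₁
    obtain ⟨c, hc⟩ := h4 z₁ hz₁
    obtain ⟨_, hL⟩ := hE z₁ hz₁
    have h6 : ∀ z, D z = E z₁ z + c → u (F z) - E z₁ z ∈ Λ → (u (F z) - D z ∈ Λ ↔ c ∈ Λ) := by
      intro z ha hb
      have h7 : u (F z) - D z = (u (F z) - E z₁ z) - c := by rw [ha]; ring
      rw [h7]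
      constructor
      · intro h8
        have := Λ.sub_mem hb h8
        simpa using this
      · intro h8
        exact Λ.sub_mem hb h8
    have h7 := h6 z₁ hc.self_of_nhds hL.self_of_nhds
    filter_upwards [hc, hL] with z ha hb
    rw [h7, h6 z ha hb]
  intro z hz
  have h6 := hUc.induction₂ (fun a b => (u (F a) - D a ∈ Λ ↔ u (F b) - D b ∈ Λ))
    (fun x hx => (h5 x hx).filter_mono nhdsWithin_le_nhds)
    (fun x y w _ _ _ h h' => h.trans h') (fun x y _ _ h => h.symm) hz₀ hz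
  apply h6.mp
  rw [hD0, sub_self]
  exact Λ.zero_mem

/-! ### closeness modulo `Λ` -/

/-- a continuous function which is near `Λ` on a connected set is near one element -/
private theorem lc_conn {S : Set ℂ} (hS : IsPreconnected S) {d ε : ℝ} (hd : ∀ l ∈ Λ, ‖l‖ < d → l = 0) (hε : 0 < ε) (hεd : 4 * ε ≤ d)
    {g : ℂ → ℂ} (hg : ContinuousOn g S) (h : ∀ w ∈ S, ∃ l ∈ Λ, ‖g w - l‖ ≤ ε) : ∃ l ∈ Λ, ∀ w ∈ S, ‖g w - l‖ ≤ 2 * ε := by
  by_cases hne : S.Nonempty
  swap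
  · exact ⟨0, Λ.zero_mem, fun w hw => absurd ⟨w, hw⟩ hne⟩
  obtain ⟨w₀, hw₀⟩ := hne
  obtain ⟨l₀, hl₀, h0⟩ := h w₀ hw₀
  refine ⟨l₀, hl₀, ?_⟩
  have hU : IsOpen (ball l₀ (2 * ε)) := isOpen_ball
  have hV : IsOpen {z : ℂ | 2 * ε < ‖z - l₀‖} :=
    isOpen_lt continuous_const ((continuous_id.sub continuous_const).norm)
  have hdis : Disjoint (ball l₀ (2 * ε)) {z : ℂ | 2 * ε < ‖z - l₀‖} := by
    rw [Set.disjoint_left]
    intro z hz hz2
    rw [mem_ball, dist_eq_norm] at hz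
    exact absurd hz2 (not_lt.2 hz.le)
  have hsub : g '' S ⊆ ball l₀ (2 * ε) ∪ {z : ℂ | 2 * ε < ‖z - l₀‖} := by
    rintro _ ⟨w, hw, rfl⟩
    obtain ⟨l, hl, h1⟩ := h w hw
    by_cases hll : l = l₀
    · left
      rw [mem_ball, dist_eq_norm, ← hll]
      linarith
    · right
      show 2 * ε < ‖g w - l₀‖
      have h2 : d ≤ ‖l - l₀‖ := by
        by_contra hlt
        push Not at hlt
        exact hll (sub_eq_zero.1 (hd _ (Λ.sub_mem hl hl₀) hlt))
      have h3 : l - l₀ = (g w - l₀) - (g w - l) := by ring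
      rw [h3] at h2
      have h4 := norm_sub_le (g w - l₀) (g w - l)
      linarith
  have hpre : IsPreconnected (g '' S) := hS.image g hg
  have hfin := hpre.subset_left_of_subset_union hU hV hdis hsub
    ⟨g w₀, ⟨w₀, hw₀, rfl⟩, by rw [mem_ball, dist_eq_norm]; linarith⟩
  intro w hw
  have h1 := hfin ⟨w, hw, rfl⟩
  rw [mem_ball, dist_eq_norm] at h1
  exact h1.le

/-- `u` is continuous modulo `Λ` in terms of `pr` -/
private theorem lc_pt (hX : OCone X) (hu : TorusMap X Λ u) {x₀ : EN N} (hx₀ : x₀ ∈ X) {ε : ℝ} (hε : 0 < ε) :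
    ∃ η : ℝ, 0 < η ∧ ∀ x ∈ X, dist (pr x) (pr x₀) < η → ∃ l ∈ Λ, ‖u x - u x₀ - l‖ < ε := by
  obtain ⟨v, hv, hvu⟩ := hu.loc x₀ hx₀
  have hvc : ∀ᶠ z in 𝓝 x₀, ‖v z - v x₀‖ < ε := by
    have := Metric.tendsto_nhds.1 hv.continuousAt ε hε
    simpa [dist_eq_norm] using this
  have hnb : {y | (y ∈ X → u y - v y ∈ Λ) ∧ ‖v y - v x₀‖ < ε} ∈ 𝓝 x₀ := hvu.and hvc
  obtain ⟨η, hη, h⟩ := Pool.Agent.H62.EF.near_of_pr (hX.ne_zero hx₀) hnb
  refine ⟨η, hη, fun x hx hd => ?_⟩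
  obtain ⟨c, hc, h1, h2⟩ := h x (hX.ne_zero hx) hd
  have h3 := h1 (hX.smul_mem x hx c hc)
  have h4 := hvu.self_of_nhds hx₀
  have h5 := hu.smul x hx c hc
  refine ⟨-(u (c • x) - u x) + (u (c • x) - v (c • x)) - (u x₀ - v x₀), Λ.sub_mem (Λ.add_mem (Λ.neg_mem h5) h3) h4, ?_⟩
  have h6 : u x - u x₀ - (-(u (c • x) - u x) + (u (c • x) - v (c • x)) - (u x₀ - v x₀)) = v (c • x) - v x₀ := by ring
  rw [h6]
  exact h2

private theorem lc_unif (hX : OCone X) (hu : TorusMap X Λ u) {H : ℂ → EN N} (hH : Continuous H) (hHX : ∀ z, H z ∈ X) {K : Set ℂ}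
    (hK : IsCompact K) {ε : ℝ} (hε : 0 < ε) :
    ∃ η : ℝ, 0 < η ∧ ∀ z ∈ K, ∀ x ∈ X, dist (pr x) (pr (H z)) < η → ∃ l ∈ Λ, ‖u x - u (H z) - l‖ < ε := by
  refine hK.induction_on (p := fun S => ∃ η : ℝ, 0 < η ∧ ∀ z ∈ S, ∀ x ∈ X, dist (pr x) (pr (H z)) < η → ∃ l ∈ Λ, ‖u x - u (H z) - l‖ < ε)
    ⟨1, one_pos, fun z hz => absurd hz (Set.notMem_empty z)⟩ ?_ ?_ ?_
  · rintro s t hst ⟨η, hη, h⟩
    exact ⟨η, hη, fun z hz => h z (hst hz)⟩
  · rintro s t ⟨η, hη, h⟩ ⟨η', hη', h'⟩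
    refine ⟨min η η', lt_min hη hη', fun z hz x hx hd => ?_⟩
    rcases hz with hz | hz
    · exact h z hz x hx (hd.trans_le (min_le_left _ _))
    · exact h' z hz x hx (hd.trans_le (min_le_right _ _))
  · intro z₀ _
    obtain ⟨η, hη, h⟩ := lc_pt hX hu (hHX z₀) (half_pos hε)
    have hc : ContinuousAt (fun z => pr (H z)) z₀ :=
      (Pool.Agent.H62.EF.continuousAt_pr (hX.ne_zero (hHX z₀))).comp hH.continuousAt
    have hev : ∀ᶠ z in 𝓝 z₀, dist (pr (H z)) (pr (H z₀)) < η / 2 := Metric.tendsto_nhds.1 hc _ (by positivity)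
    refine ⟨{z | dist (pr (H z)) (pr (H z₀)) < η / 2}, mem_nhdsWithin_of_mem_nhds hev, η / 2, by positivity, ?_⟩
    intro z hz x hx hd
    have hz' : dist (pr (H z)) (pr (H z₀)) < η / 2 := hz
    obtain ⟨l, hl, h1⟩ := h x hx ((dist_triangle _ (pr (H z)) _).trans_lt (by linarith))
    obtain ⟨m, hm, h2⟩ := h (H z) (hHX z) (hz'.trans (by linarith))
    refine ⟨l - m, Λ.sub_mem hl hm, ?_⟩
    have h3 : u x - u (H z) - (l - m) = (u x - u (H z₀) - l) - (u (H z) - u (H z₀) - m) := by ring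
    rw [h3]
    refine (norm_sub_le _ _).trans_lt ?_
    linarith

/-- a function on a disc, near `Λ` on a circle, is near one element of `Λ` inside -/
private theorem lc_circle {z₀ : ℂ} {s d ε : ℝ} (hs : 0 < s) (hd : ∀ l ∈ Λ, ‖l‖ < d → l = 0) (hε : 0 < ε) (hεd : 4 * ε ≤ d) {g : ℂ → ℂ}
    (hg : ∀ z ∈ closedBall z₀ s, AnalyticAt ℂ g z) (h : ∀ w ∈ sphere z₀ s, ∃ l ∈ Λ, ‖g w - l‖ ≤ ε) :
    ∃ l ∈ Λ, ∀ w ∈ closedBall z₀ s, ‖g w - l‖ ≤ 2 * ε := by
  have hpre : IsPreconnected (sphere z₀ s) := isPreconnected_sphere (by simp) z₀ s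
  have hc : ContinuousOn g (sphere z₀ s) := fun z hz => (hg z (sphere_subset_closedBall hz)).continuousAt.continuousWithinAt
  obtain ⟨l, hl, h1⟩ := lc_conn hpre hd hε hεd hc h
  refine ⟨l, hl, ?_⟩
  intro w hw
  have hdc : DiffContOnCl ℂ (fun z => g z - l) (ball z₀ s) := by
    refine DifferentiableOn.diffContOnCl ?_
    rw [closure_ball z₀ hs.ne']
    intro z hz
    exact ((hg z hz).differentiableAt.sub_const l).differentiableWithinAt
  refine Complex.norm_le_of_forall_mem_frontier_norm_le isBounded_ball hdc (C := 2 * ε) ?_ (z := w) ?_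
  · intro z hz
    rw [frontier_ball z₀ hs.ne'] at hz
    exact h1 z hz
  · rw [closure_ball z₀ hs.ne']
    exact hw

/-- convergence of the lifts -/
private theorem lc_lift (hX : OCone X) (hu : TorusMap X Λ u) (hΛ : Dsc Λ) {H : ℂ → EN N} (hH : Continuous H) (hHX : ∀ z, H z ∈ X)
    {ψ : ℂ → ℂ} (hψ : Differentiable ℂ ψ) (hψu : ∀ z, u (H z) - ψ z ∈ Λ) {Z : Set ℂ} (hZ : ∀ z, ∀ᶠ w in 𝓝[≠] z, w ∉ Z)
    {R : ℝ} (hR : 0 ≤ R) {ε : ℝ} (hε : 0 < ε) :
    ∃ η : ℝ, 0 < η ∧ ∃ K : Set ℂ, IsCompact K ∧ (∀ z ∈ K, z ∉ Z ∧ ‖z‖ ≤ R + 1) ∧ ∀ G : ℂ → EN N,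
      (∀ z ∈ closedBall (0 : ℂ) (R + 1), AnalyticAt ℂ G z ∧ G z ∈ X) → (∀ z ∈ K, dist (pr (G z)) (pr (H z)) < η) →
      ∃ υ : ℂ → ℂ, DifferentiableOn ℂ υ (ball 0 (R + 1)) ∧ (∀ z ∈ ball (0 : ℂ) (R + 1), u (G z) - υ z ∈ Λ) ∧
        ∀ z ∈ closedBall (0 : ℂ) R, ‖υ z - ψ z‖ < ε := by
  obtain ⟨d, hd0, hd⟩ := hΛ.discrete
  set ε₀ : ℝ := min ε d / 16 with hε₀
  have hm : 0 < min ε d := lt_min hε hd0
  have hε0 : 0 < ε₀ := by positivity
  have hεε : 16 * ε₀ ≤ ε := by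
    have : min ε d ≤ ε := min_le_left _ _
    rw [hε₀]; linarith
  have hεd : 16 * ε₀ ≤ d := by
    have : min ε d ≤ d := min_le_right _ _
    rw [hε₀]; linarith
  have main : ∃ η : ℝ, 0 < η ∧ ∃ K : Set ℂ, IsCompact K ∧ (∀ z ∈ K, z ∉ Z ∧ ‖z‖ ≤ R + 1) ∧ ∀ (G : ℂ → EN N) (υ : ℂ → ℂ),
      (∀ z ∈ K, G z ∈ X) → (∀ z ∈ K, dist (pr (G z)) (pr (H z)) < η) → DifferentiableOn ℂ υ (ball 0 (R + 1)) →
      (∀ z ∈ ball (0 : ℂ) (R + 1), u (G z) - υ z ∈ Λ) → ∀ z ∈ closedBall (0 : ℂ) R, ∃ l ∈ Λ, ‖υ z - ψ z - l‖ ≤ 2 * ε₀ := by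
    refine (isCompact_closedBall (0 : ℂ) R).induction_on (p := fun S => ∃ η : ℝ, 0 < η ∧ ∃ K : Set ℂ, IsCompact K ∧
      (∀ z ∈ K, z ∉ Z ∧ ‖z‖ ≤ R + 1) ∧ ∀ (G : ℂ → EN N) (υ : ℂ → ℂ),
      (∀ z ∈ K, G z ∈ X) → (∀ z ∈ K, dist (pr (G z)) (pr (H z)) < η) → DifferentiableOn ℂ υ (ball 0 (R + 1)) →
      (∀ z ∈ ball (0 : ℂ) (R + 1), u (G z) - υ z ∈ Λ) → ∀ z ∈ S, ∃ l ∈ Λ, ‖υ z - ψ z - l‖ ≤ 2 * ε₀) ?_ ?_ ?_ ?_
    · exact ⟨1, one_pos, ∅, isCompact_empty, fun z hz => absurd hz (Set.notMem_empty z), fun _ _ _ _ _ _ z hz => absurd hz (Set.notMem_empty z)⟩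
    · rintro s t hst ⟨η, hη, K, hK, hKZ, h⟩
      exact ⟨η, hη, K, hK, hKZ, fun G υ a b c e z hz => h G υ a b c e z (hst hz)⟩
    · rintro s t ⟨η, hη, K, hK, hKZ, h⟩ ⟨η', hη', K', hK', hKZ', h'⟩
      refine ⟨min η η', lt_min hη hη', K ∪ K', hK.union hK', ?_, ?_⟩
      · rintro z (hz | hz)
        · exact hKZ z hz
        · exact hKZ' z hz
      · intro G υ a b c e z hz
        rcases hz with hz | hz
        · exact h G υ (fun z hz => a z (Or.inl hz)) (fun z hz => (b z (Or.inl hz)).trans_le (min_le_left _ _)) c e z hz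
        · exact h' G υ (fun z hz => a z (Or.inr hz)) (fun z hz => (b z (Or.inr hz)).trans_le (min_le_right _ _)) c e z hz
    · intro z₀ hz₀
      have hz0 : ‖z₀‖ ≤ R := by simpa using hz₀
      -- a circle around `z₀` which does not meet `Z`
      obtain ⟨r, hr, hrZ⟩ := Metric.mem_nhdsWithin_iff.1 (hZ z₀)
      set s : ℝ := min r 1 / 2 with hs
      have hs0 : 0 < s := by positivity
      have hsr : s < r := by
        have h1 : min r 1 ≤ r := min_le_left _ _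
        rw [hs]; linarith
      have hs1 : s < 1 := by
        have h1 : min r 1 ≤ 1 := min_le_right _ _
        rw [hs]; linarith
      have hball : closedBall z₀ s ⊆ ball (0 : ℂ) (R + 1) := by
        intro z hz
        rw [mem_closedBall, dist_eq_norm] at hz
        rw [mem_ball, dist_zero_right]
        have h1 : z = z₀ + (z - z₀) := by ring
        rw [h1]
        refine (norm_add_le _ _).trans_lt ?_
        linarith
      have hKc : IsCompact (sphere z₀ s) := isCompact_sphere z₀ s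
      obtain ⟨η, hη, hun⟩ := lc_unif hX hu hH hHX hKc hε0
      refine ⟨closedBall z₀ s, mem_nhdsWithin_of_mem_nhds (closedBall_mem_nhds z₀ hs0), η, hη, sphere z₀ s, hKc, ?_, ?_⟩
      · intro z hz
        have hzs : dist z z₀ = s := hz
        refine ⟨hrZ ⟨?_, ?_⟩, ?_⟩
        · rw [mem_ball, hzs]; exact hsr
        · intro h
          have h' : z = z₀ := h
          rw [h', dist_self] at hzs
          exact hs0.ne hzs
        · have h1 := hball (sphere_subset_closedBall hz)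
          rw [mem_ball, dist_zero_right] at h1
          exact h1.le
      · intro G υ hG hd1 hυ hυu z hz
        have hg : ∀ z ∈ closedBall z₀ s, AnalyticAt ℂ (fun w => υ w - ψ w) z := fun z hz =>
          (hυ.analyticAt (isOpen_ball.mem_nhds (hball hz))).sub (hψ.analyticAt z)
        have hnear : ∀ w ∈ sphere z₀ s, ∃ l ∈ Λ, ‖(fun w => υ w - ψ w) w - l‖ ≤ ε₀ := by
          intro w hw
          obtain ⟨l, hl, h1⟩ := hun w hw (G w) (hG w hw) (hd1 w hw)
          have h2 := hυu w (hball (sphere_subset_closedBall hw))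
          have h3 := hψu w
          refine ⟨l - (u (G w) - υ w) + (u (H w) - ψ w), Λ.add_mem (Λ.sub_mem hl h2) h3, ?_⟩
          have h4 : υ w - ψ w - (l - (u (G w) - υ w) + (u (H w) - ψ w)) = u (G w) - u (H w) - l := by ring
          show ‖υ w - ψ w - (l - (u (G w) - υ w) + (u (H w) - ψ w))‖ ≤ ε₀
          rw [h4]
          exact h1.le
        obtain ⟨l, hl, h1⟩ := lc_circle hs0 hd hε0 (by linarith) hg hnear
        exact ⟨l, hl, h1 z hz⟩
  obtain ⟨η, hη, K, hK, hKZ, h⟩ := main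
  refine ⟨η, hη, K, hK, hKZ, ?_⟩
  intro G hG hdG
  have hR1 : 0 < R + 1 := by linarith
  have hGd : DifferentiableOn ℂ G (ball 0 (R + 1)) := fun z hz =>
    (hG z (ball_subset_closedBall hz)).1.differentiableAt.differentiableWithinAt
  obtain ⟨υ, hυ, -, hυu⟩ := lc_lift_ball hu hΛ hR1 hGd (fun z hz => (hG z (ball_subset_closedBall hz)).2)
  have hKb : ∀ z ∈ K, z ∈ closedBall (0 : ℂ) (R + 1) := fun z hz => by
    rw [mem_closedBall, dist_zero_right]
    exact (hKZ z hz).2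
  have h1 := h G υ (fun z hz => (hG z (hKb z hz)).2) hdG hυ hυu
  have hsub : closedBall (0 : ℂ) R ⊆ ball 0 (R + 1) := closedBall_subset_ball (by linarith)
  have hc : ContinuousOn (fun w => υ w - ψ w) (closedBall (0 : ℂ) R) :=
    (hυ.continuousOn.mono hsub).sub hψ.continuous.continuousOn
  obtain ⟨l, hl, h2⟩ := lc_conn (convex_closedBall (0 : ℂ) R).isPreconnected hd (ε := 2 * ε₀) (by linarith) (by linarith) hc h1
  refine ⟨fun z => υ z - l, hυ.sub_const l, ?_, ?_⟩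
  · intro z hz
    have h3 : u (G z) - (υ z - l) = (u (G z) - υ z) + l := by ring
    rw [h3]
    exact Λ.add_mem (hυu z hz) hl
  · intro z hz
    have h3 := h2 z hz
    have h4 : υ z - l - ψ z = υ z - ψ z - l := by ring
    show ‖υ z - l - ψ z‖ < ε
    rw [h4]
    refine h3.trans_lt ?_
    linarith

/-! ### the inverse of a holomorphic function near the identity -/

private theorem lc_inverse {ρ ε : ℝ} (hε : 0 < ε) (hε1 : ε ≤ 1 / 4) {θ : ℂ → ℂ}
    (hθ : DifferentiableOn ℂ θ (ball 0 (ρ + 3))) (hn : ∀ w ∈ ball (0 : ℂ) (ρ + 3), ‖θ w - w‖ < ε) :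
    ∃ κ : ℂ → ℂ, DifferentiableOn ℂ κ (ball 0 (ρ + 1)) ∧ ∀ w ∈ ball (0 : ℂ) (ρ + 1), θ (κ w) = w ∧ ‖κ w - w‖ ≤ ε := by
  -- `h = θ - id` is Lipschitz with constant `1/4` on `ball 0 (ρ + 2)`
  have hlip : ∀ z ∈ ball (0 : ℂ) (ρ + 2), ∀ w ∈ ball (0 : ℂ) (ρ + 2), ‖(θ z - z) - (θ w - w)‖ ≤ 1 / 4 * ‖z - w‖ := by
    have hder : ∀ z ∈ ball (0 : ℂ) (ρ + 2), DifferentiableAt ℂ (fun z => θ z - z) z ∧ ‖deriv (fun z => θ z - z) z‖ ≤ 1 / 4 := by
      intro z hz
      have hz' : ‖z‖ < ρ + 2 := by simpa using hz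
      have hsub : closedBall z 1 ⊆ ball (0 : ℂ) (ρ + 3) := by
        intro w hw
        rw [mem_closedBall, dist_eq_norm] at hw
        rw [mem_ball, dist_zero_right]
        have h1 : w = z + (w - z) := by ring
        rw [h1]
        refine (norm_add_le _ _).trans_lt ?_
        linarith
      have hd : DifferentiableOn ℂ (fun z => θ z - z) (ball 0 (ρ + 3)) := hθ.sub differentiableOn_id
      refine ⟨hd.differentiableAt (isOpen_ball.mem_nhds (hsub (mem_closedBall_self zero_le_one))), ?_⟩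
      have hdc : DiffContOnCl ℂ (fun z => θ z - z) (ball z 1) := by
        refine DifferentiableOn.diffContOnCl ?_
        rw [closure_ball z one_ne_zero]
        exact hd.mono hsub
      have h1 := Complex.norm_deriv_le_of_forall_mem_sphere_norm_le (one_pos) hdc (C := ε)
        (fun w hw => (hn w (hsub (sphere_subset_closedBall hw))).le)
      rw [div_one] at h1
      exact h1.trans hε1
    intro z hz w hw
    have h1 := (convex_ball (0 : ℂ) (ρ + 2)).norm_image_sub_le_of_norm_deriv_le (fun x hx => (hder x hx).1) (fun x hx => (hder x hx).2) hw hz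
    exact h1
  -- existence
  have hex : ∀ w ∈ ball (0 : ℂ) (ρ + 1), ∃ z, ‖z - w‖ ≤ ε ∧ θ z = w := by
    intro w hw
    have hw' : ‖w‖ < ρ + 1 := by simpa using hw
    have hin : ∀ z ∈ closedBall w ε, z ∈ ball (0 : ℂ) (ρ + 2) := by
      intro z hz
      rw [mem_closedBall, dist_eq_norm] at hz
      rw [mem_ball, dist_zero_right]
      have h1 : z = w + (z - w) := by ring
      rw [h1]
      refine (norm_add_le _ _).trans_lt ?_
      linarith
    have hmaps : Set.MapsTo (fun z => w - (θ z - z)) (closedBall w ε) (closedBall w ε) := by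
      intro z hz
      have h1 := hn z (ball_subset_ball (by linarith) (hin z hz))
      rw [mem_closedBall, dist_eq_norm]
      have h2 : w - (θ z - z) - w = -(θ z - z) := by ring
      show ‖w - (θ z - z) - w‖ ≤ ε
      rw [h2, norm_neg]
      exact h1.le
    have hcon : ContractingWith (1 / 4 : NNReal) (hmaps.restrict (fun z => w - (θ z - z)) (closedBall w ε) (closedBall w ε)) := by
      refine ⟨by norm_num, LipschitzWith.of_dist_le_mul ?_⟩
      intro x y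
      have h1 := hlip x.1 (hin x.1 x.2) y.1 (hin y.1 y.2)
      have h2 : dist (hmaps.restrict (fun z => w - (θ z - z)) (closedBall w ε) (closedBall w ε) x)
          (hmaps.restrict (fun z => w - (θ z - z)) (closedBall w ε) (closedBall w ε) y) = ‖(θ x.1 - x.1) - (θ y.1 - y.1)‖ := by
        show dist (w - (θ x.1 - x.1)) (w - (θ y.1 - y.1)) = _
        rw [dist_eq_norm]
        have h3 : w - (θ x.1 - x.1) - (w - (θ y.1 - y.1)) = -((θ x.1 - x.1) - (θ y.1 - y.1)) := by ring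
        rw [h3, norm_neg]
      rw [h2]
      have h4 : dist x y = ‖x.1 - y.1‖ := by
        rw [Subtype.dist_eq, dist_eq_norm]
      rw [h4]
      simpa using h1
    obtain ⟨z, hz, hfix, -⟩ := ContractingWith.exists_fixedPoint' (isClosed_closedBall.isComplete) hmaps hcon (x := w)
      (mem_closedBall_self hε.le) (edist_ne_top _ _)
    refine ⟨z, by rwa [mem_closedBall, dist_eq_norm] at hz, ?_⟩
    have h1 : w - (θ z - z) = z := hfix
    linear_combination -h1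
  have hex' : ∀ w : ℂ, ∃ z : ℂ, w ∈ ball (0 : ℂ) (ρ + 1) → ‖z - w‖ ≤ ε ∧ θ z = w := by
    intro w
    by_cases hw : w ∈ ball (0 : ℂ) (ρ + 1)
    · obtain ⟨z, hz⟩ := hex w hw
      exact ⟨z, fun _ => hz⟩
    · exact ⟨0, fun h => absurd h hw⟩
  choose κ hκ using hex'
  have hκb : ∀ w ∈ ball (0 : ℂ) (ρ + 1), κ w ∈ ball (0 : ℂ) (ρ + 2) := by
    intro w hw
    have hw' : ‖w‖ < ρ + 1 := by simpa using hw
    rw [mem_ball, dist_zero_right]
    have h1 : κ w = w + (κ w - w) := by ring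
    rw [h1]
    refine (norm_add_le _ _).trans_lt ?_
    have := (hκ w hw).1
    linarith
  have hκl : ∀ w ∈ ball (0 : ℂ) (ρ + 1), ∀ w' ∈ ball (0 : ℂ) (ρ + 1), ‖κ w - κ w'‖ ≤ 2 * ‖w - w'‖ := by
    intro w hw w' hw'
    have h1 := hlip (κ w) (hκb w hw) (κ w') (hκb w' hw')
    rw [(hκ w hw).2, (hκ w' hw').2] at h1
    have h2 : κ w - κ w' = (w - w') - ((w - κ w) - (w' - κ w')) := by ring
    have h3 : ‖κ w - κ w'‖ ≤ ‖w - w'‖ + ‖(w - κ w) - (w' - κ w')‖ := by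
      conv_lhs => rw [h2]
      exact norm_sub_le _ _
    linarith [norm_nonneg (κ w - κ w'), norm_nonneg (w - w')]
  refine ⟨κ, ?_, fun w hw => ⟨(hκ w hw).2, (hκ w hw).1⟩⟩
  intro w hw
  have hnb : ball (0 : ℂ) (ρ + 1) ∈ 𝓝 w := isOpen_ball.mem_nhds hw
  have hcont : ContinuousAt κ w := by
    rw [Metric.continuousAt_iff]
    intro ε' hε'
    obtain ⟨r, hr, hrb⟩ := Metric.mem_nhds_iff.1 hnb
    refine ⟨min r (ε' / 2), lt_min hr (by positivity), fun {w'} hw' => ?_⟩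
    rw [dist_eq_norm]
    have h1 := hκl w' (hrb (hw'.trans_le (min_le_left _ _))) w hw
    rw [dist_eq_norm] at hw'
    have h2 := hw'.trans_le (min_le_right _ _)
    linarith
  have hda : DifferentiableAt ℂ θ (κ w) :=
    hθ.differentiableAt (isOpen_ball.mem_nhds (ball_subset_ball (by linarith) (hκb w hw)))
  have hne : deriv θ (κ w) ≠ 0 := by
    intro h0
    -- `θ - id` has derivative `-1` at `κ w`, but it is Lipschitz with constant `1/4`
    have h1 : HasDerivAt (fun z => θ z - z) (deriv θ (κ w) - 1) (κ w) := hda.hasDerivAt.sub (hasDerivAt_id (κ w))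
    rw [h0, zero_sub] at h1
    have h2 : ‖(-1 : ℂ)‖ ≤ 1 / 4 := by
      refine h1.le_of_lip' (by norm_num) ?_
      filter_upwards [isOpen_ball.mem_nhds (hκb w hw)] with z hz
      exact hlip z hz (κ w) (hκb w hw)
    rw [norm_neg, norm_one] at h2
    linarith
  have hinv : ∀ᶠ y in 𝓝 w, θ (κ y) = y := by
    filter_upwards [hnb] with y hy
    exact (hκ y hy).2
  exact (HasDerivAt.of_local_left_inverse hcont hda.hasDerivAt hne hinv).differentiableAt.differentiableWithinAt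

/-! ### the main statements -/

/-- entire curves in `X` which are limits, outside a closed discrete set, of curves in `X \ D` over larger and larger discs -/
def LCur (X D : Set (EN N)) : Set (ℂ → EN N) :=
  {H | Differentiable ℂ H ∧ (∀ z, H z ∈ X) ∧ ∃ Z : Set ℂ, IsClosed Z ∧ (∀ z, ∀ᶠ w in 𝓝[≠] z, w ∉ Z) ∧
    ∀ R ε : ℝ, 0 < ε → ∀ K : Set ℂ, IsCompact K → (∀ z ∈ K, z ∉ Z) →
      ∃ G : ℂ → EN N, (∀ z ∈ closedBall (0 : ℂ) R, AnalyticAt ℂ G z ∧ G z ∈ X ∧ G z ∉ D) ∧ ∀ z ∈ K, ‖z‖ ≤ R → dist (pr (G z)) (pr (H z)) < ε}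

/-- a local limit of curves with bounded derivatives (copy of the private lemma of EL SbB) -/
private theorem lc_montel (hX : IsCone X) {L : ℝ} (hL : 0 < L) (𝒰 : Ultrafilter ℕ) (F : ℕ → ℂ → EN N) {z₀ : ℂ} {r₀ : ℝ}
    (hr₀ : 0 < r₀) (hF : ∀ᶠ n in (𝒰 : Filter ℕ), DifferentiableOn ℂ (F n) (ball z₀ r₀) ∧
      ∀ z ∈ ball z₀ r₀, F n z ∈ X ∧ fs (F n z) (deriv (F n) z) ≤ L) :
    ∃ (r : ℝ) (φ : ℕ → ℂ → EN N) (ψ : ℂ → EN N), 0 < r ∧ r ≤ r₀ ∧
        (∀ᶠ n in (𝒰 : Filter ℕ), DifferentiableOn ℂ (φ n) (ball z₀ r) ∧ ∀ z ∈ ball z₀ r, F n z ∈ X ∧ ∃ c : ℂ, c ≠ 0 ∧ φ n z = c • F n z) ∧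
        DifferentiableOn ℂ ψ (ball z₀ r) ∧ (∀ z ∈ ball z₀ r, ψ z ∈ X) ∧
        TendstoLocallyUniformlyOn φ ψ 𝒰 (ball z₀ r) := by
  have hne0 : ∀ {x : EN N}, x ∈ X → x ≠ 0 := fun {x} hx h0 => hX.zero_notMem (h0 ▸ hx)
  set r : ℝ := min r₀ (1 / (8 * L)) with hr
  have hr0 : 0 < r := lt_min hr₀ (by positivity)
  have hrr : r ≤ r₀ := min_le_left _ _
  have hrL : r ≤ 1 / (8 * L) := min_le_right _ _
  have hz₀ : z₀ ∈ ball z₀ r := mem_ball_self hr0
  have hev : ∀ᶠ n in (𝒰 : Filter ℕ), DifferentiableOn ℂ (F n) (ball z₀ r) ∧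
      ∀ z ∈ ball z₀ r, F n z ∈ X ∧ ‖F n z₀‖ * ‖F n z‖ ≤ 2 * ‖inner ℂ (F n z₀) (F n z)‖ := by
    filter_upwards [hF] with n h1
    obtain ⟨h1, h3⟩ := h1
    have hsub : ball z₀ r ⊆ ball z₀ r₀ := ball_subset_ball hrr
    refine ⟨h1.mono hsub, fun z hz => ⟨(h3 z (hsub hz)).1, ?_⟩⟩
    have hx0 : F n z₀ ≠ 0 := hne0 (h3 z₀ (hsub hz₀)).1
    have hy0 : F n z ≠ 0 := hne0 (h3 z (hsub hz)).1
    have hlip := Pool.Agent.H62.EF.pr_lipschitz isOpen_ball (convex_ball z₀ r) (h1.mono hsub)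
      (fun w hw => hne0 (h3 w (hsub hw)).1) (fun w hw => (h3 w (hsub hw)).2) z₀ hz₀ z hz
    have h4 : ‖z₀ - z‖ ≤ r := by
      rw [← dist_eq_norm, dist_comm]
      exact (mem_ball.mp hz).le
    have h5 : dist (pr (F n z₀)) (pr (F n z)) ≤ 1 / 4 := by
      calc dist (pr (F n z₀)) (pr (F n z)) ≤ 2 * L * ‖z₀ - z‖ := hlip
        _ ≤ 2 * L * (1 / (8 * L)) := by gcongr; exact h4.trans hrL
        _ = 1 / 4 := by field_simp; norm_num
    have h6 := Pool.Agent.H62.EF.norm_inner_sq hx0 hy0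
    have h7 : dist (pr (F n z₀)) (pr (F n z)) ^ 2 ≤ 1 := by
      exact (pow_le_pow_left₀ dist_nonneg h5 2).trans (by norm_num)
    have h8 : (‖F n z₀‖ * ‖F n z‖) ^ 2 ≤ (2 * ‖inner ℂ (F n z₀) (F n z)‖) ^ 2 := by
      rw [mul_pow, mul_pow, h6]
      have h9 : 0 ≤ ‖F n z₀‖ ^ 2 * ‖F n z‖ ^ 2 := by positivity
      linarith [mul_le_mul_of_nonneg_left h7 h9]
    exact abs_le_of_sq_le_sq' h8 (by positivity) |>.2
  set φ : ℕ → ℂ → EN N := fun n z => (((‖F n z₀‖ : ℝ) : ℂ) / inner ℂ (F n z₀) (F n z)) • F n z with hφ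
  have hev2 : ∀ᶠ n in (𝒰 : Filter ℕ), DifferentiableOn ℂ (F n) (ball z₀ r) ∧ DifferentiableOn ℂ (φ n) (ball z₀ r) ∧
      ∀ z ∈ ball z₀ r, F n z ∈ X ∧ (∃ c : ℂ, c ≠ 0 ∧ φ n z = c • F n z) ∧ ‖φ n z‖ ≤ 2 ∧ 1 ≤ ‖φ n z‖ := by
    filter_upwards [hev] with n h1
    obtain ⟨h1, h2⟩ := h1
    have hx0 : F n z₀ ≠ 0 := hne0 (h2 z₀ hz₀).1
    have hxn : 0 < ‖F n z₀‖ := norm_pos_iff.mpr hx0
    have hin : ∀ z ∈ ball z₀ r, (inner ℂ (F n z₀) (F n z) : ℂ) ≠ 0 := by
      intro z hz h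
      have h3 := (h2 z hz).2
      have hyn : 0 < ‖F n z‖ := norm_pos_iff.mpr (hne0 (h2 z hz).1)
      rw [h, norm_zero, mul_zero] at h3
      have : 0 < ‖F n z₀‖ * ‖F n z‖ := mul_pos hxn hyn
      linarith
    refine ⟨h1, ?_, fun z hz => ⟨(h2 z hz).1, ⟨_, ?_, rfl⟩, ?_, ?_⟩⟩
    · have h3 : DifferentiableOn ℂ (fun z => (inner ℂ (F n z₀) (F n z) : ℂ)) (ball z₀ r) :=
        (innerSL ℂ (F n z₀)).differentiable.comp_differentiableOn h1
      have h4 : DifferentiableOn ℂ (fun z => ((‖F n z₀‖ : ℝ) : ℂ) / (inner ℂ (F n z₀) (F n z) : ℂ)) (ball z₀ r) :=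
        (differentiableOn_const _).div h3 hin
      exact h4.smul h1
    · exact div_ne_zero (Complex.ofReal_ne_zero.mpr hxn.ne') (hin z hz)
    · have h3 := (h2 z hz).2
      have h4 : 0 < ‖(inner ℂ (F n z₀) (F n z) : ℂ)‖ := norm_pos_iff.mpr (hin z hz)
      simp only [hφ]
      rw [norm_smul, norm_div, Complex.norm_real, norm_norm, div_mul_eq_mul_div, div_le_iff₀ h4]
      exact h3
    · have h4 : 0 < ‖(inner ℂ (F n z₀) (F n z) : ℂ)‖ := norm_pos_iff.mpr (hin z hz)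
      simp only [hφ]
      rw [norm_smul, norm_div, Complex.norm_real, norm_norm, div_mul_eq_mul_div, le_div_iff₀ h4, one_mul]
      exact norm_inner_le_norm _ _
  obtain ⟨ψ, hψ, hconv⟩ := Pool.Agent.H17.montel_ultrafilter 𝒰 (F := φ) (a := z₀) (r := r) (B := 2)
    (hev2.mono fun n h => h.2.1) (hev2.mono fun n h z hz => ((h.2.2 z hz).2.2.1))
  refine ⟨r, φ, ψ, hr0, hrr, hev2.mono fun n h => ⟨h.2.1, fun z hz => ⟨(h.2.2 z hz).1, (h.2.2 z hz).2.1⟩⟩, hψ, ?_, hconv⟩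
  intro z hz
  have h1 : Tendsto (fun n => φ n z) 𝒰 (𝓝 (ψ z)) := hconv.tendsto_at hz
  have h2 : ψ z ∈ insert 0 X := by
    refine hX.closed.mem_of_tendsto h1 ?_
    filter_upwards [hev2] with n h
    obtain ⟨h3, ⟨c, hc, h4⟩, -⟩ := h.2.2 z hz
    rw [h4]
    exact Or.inr (hX.smul_mem _ h3 c hc)
  have h3 : 1 ≤ ‖ψ z‖ := by
    refine ge_of_tendsto h1.norm ?_
    filter_upwards [hev2] with n h
    exact (h.2.2 z hz).2.2.2
  rcases h2 with h2 | h2
  · rw [h2, norm_zero] at h3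
    linarith
  · exact h2

/-- the sequence of curves near a limit curve in a fibre -/
private theorem lc_seq (E : LFib X D Λ Γ u B δ) {H : ℂ → EN N} (hHd : Differentiable ℂ H) (hHX : ∀ z, H z ∈ X) {Z : Set ℂ}
    (hZd : ∀ z, ∀ᶠ w in 𝓝[≠] z, w ∉ Z)
    (hap : ∀ R ε : ℝ, 0 < ε → ∀ K : Set ℂ, IsCompact K → (∀ z ∈ K, z ∉ Z) →
      ∃ G : ℂ → EN N, (∀ z ∈ closedBall (0 : ℂ) R, AnalyticAt ℂ G z ∧ G z ∈ X ∧ G z ∉ D) ∧ ∀ z ∈ K, ‖z‖ ≤ R → dist (pr (G z)) (pr (H z)) < ε)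
    {c : ℂ} (hc : ∀ z, u (H z) - c ∈ Λ) {δ' : ℝ} (hδ' : 0 < δ') (n : ℕ) :
    ∃ (G : ℂ → EN N) (υ : ℂ → ℂ), (∀ z ∈ closedBall (0 : ℂ) ((n : ℝ) + 2 + 1), AnalyticAt ℂ G z ∧ G z ∈ X ∧ G z ∉ D) ∧
      DifferentiableOn ℂ υ (ball 0 ((n : ℝ) + 2 + 1)) ∧ (∀ z ∈ ball (0 : ℂ) ((n : ℝ) + 2 + 1), u (G z) - υ z ∈ Λ) ∧
      (∀ z ∈ closedBall (0 : ℂ) ((n : ℝ) + 2), ‖υ z - c‖ < δ') ∧
      ∀ z, ‖z‖ ≤ n → (∀ w ∈ Z, 1 / ((n : ℝ) + 1) ≤ dist z w) → dist (pr (G z)) (pr (H z)) < 1 / ((n : ℝ) + 1) := by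
  have hn0 : (0 : ℝ) ≤ (n : ℝ) + 2 := by positivity
  have hn1 : (0 : ℝ) < 1 / ((n : ℝ) + 1) := by positivity
  obtain ⟨η, hη, K, hK, hKZ, hlift⟩ := lc_lift (ψ := fun _ => c) E.cone E.tor E.dsc hHd.continuous hHX (differentiable_const c) hc hZd hn0 hδ'
  set Kn : Set ℂ := {z | ‖z‖ ≤ n ∧ ∀ w ∈ Z, 1 / ((n : ℝ) + 1) ≤ dist z w} with hKn
  have hKnc : IsCompact Kn := by
    refine (isCompact_closedBall (0 : ℂ) n).of_isClosed_subset ?_ (fun z hz => by simpa using hz.1)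
    have h1 : Kn = {z | ‖z‖ ≤ n} ∩ ⋂ w ∈ Z, {z | 1 / ((n : ℝ) + 1) ≤ dist z w} := by
      ext z
      simp only [hKn, Set.mem_inter_iff, Set.mem_iInter, Set.mem_ofPred_eq]
    rw [h1]
    refine (isClosed_le continuous_norm continuous_const).inter ?_
    exact isClosed_biInter fun w _ => isClosed_le continuous_const (continuous_id.dist continuous_const)
  have hKnZ : ∀ z ∈ Kn, z ∉ Z := by
    intro z hz hzZ
    have h1 := hz.2 z hzZ
    rw [dist_self] at h1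
    linarith
  obtain ⟨G, hG1, hG2⟩ := hap ((n : ℝ) + 2 + 1) (min η (1 / ((n : ℝ) + 1))) (lt_min hη hn1) (K ∪ Kn) (hK.union hKnc)
    (by
      rintro z (hz | hz)
      · exact (hKZ z hz).1
      · exact hKnZ z hz)
  obtain ⟨υ, hυ1, hυ2, hυ3⟩ := hlift G (fun z hz => ⟨(hG1 z hz).1, (hG1 z hz).2.1⟩)
    (fun z hz => (hG2 z (Or.inl hz) (hKZ z hz).2).trans_le (min_le_left _ _))
  refine ⟨G, υ, hG1, hυ1, hυ2, hυ3, fun z hz1 hz2 => ?_⟩
  exact (hG2 z (Or.inr ⟨hz1, hz2⟩) (by linarith)).trans_le (min_le_right _ _)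

theorem lcur_fibre (E : LFib X D Λ Γ u B δ) {H : ℂ → EN N} (hH : H ∈ LCur X D) {c : ℂ} (hc : ∀ z, u (H z) - c ∈ Λ) (hcB : c ∉ B) (z w : ℂ) :
    pr (H z) = pr (H w) := by
  obtain ⟨hHd, hHX, Z, hZc, hZd, hap⟩ := hH
  have hH0 : ∀ z, H z ≠ 0 := fun z => E.cone.ne_zero (hHX z)
  have hB : ∀ z, ∀ b ∈ B, u (H z) - b ∉ Λ := by
    intro z b hb hmem
    have h1 : c - b ∈ Λ := by
      have h2 := Λ.sub_mem hmem (hc z)
      have h3 : u (H z) - b - (u (H z) - c) = c - b := by ring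
      rwa [h3] at h2
    have h2 := E.bad.inv b hb _ h1
    have h3 : b + (c - b) = c := by ring
    rw [h3] at h2
    exact hcB h2
  obtain ⟨δ₂, hδ₂, hcg⟩ := E.bad.exists_gd hcB
  set δ' : ℝ := min (δ₂ / 2) (1 / 2) with hδ'
  have hδ'0 : 0 < δ' := lt_min (by positivity) (by norm_num)
  have hδ'2 : δ' ≤ δ₂ / 2 := min_le_left _ _
  have hδ'1 : δ' ≤ 1 / 2 := min_le_right _ _
  have hgd : ∀ y : ℂ, ‖y - c‖ < δ' → y ∈ Gd B δ' := by
    intro y hy b hb
    have h1 := hcg b hb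
    have h2 : c - b = (y - b) - (y - c) := by ring
    rw [h2] at h1
    have h3 := norm_sub_le (y - b) (y - c)
    linarith
  have hnb : ∀ y : ℂ, ‖y - c‖ < δ' → y ∈ Nb Λ (‖c‖ + 1) := by
    intro y hy
    refine ⟨0, Λ.zero_mem, ?_⟩
    have h2 : y - 0 = c + (y - c) := by ring
    rw [h2]
    have h3 := norm_add_le c (y - c)
    linarith
  obtain ⟨L, hL0, hL⟩ := disc_boundL E hδ'0 (‖c‖ + 1)
  choose G υ hG hυd hυu hυc hGH using fun n => lc_seq E hHd hHX hZd hap hc hδ'0 n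
  -- the bound for the derivatives
  have hbd : ∀ n : ℕ, ∀ z ∈ ball (0 : ℂ) ((n : ℝ) + 1), fs (G n z) (deriv (G n) z) ≤ L := by
    intro n z hz
    rw [mem_ball, dist_zero_right] at hz
    have hzw : ∀ w ∈ closedBall (0 : ℂ) 1, z + w ∈ closedBall (0 : ℂ) ((n : ℝ) + 2) := by
      intro w hw
      rw [mem_closedBall, dist_zero_right] at hw ⊢
      refine (norm_add_le _ _).trans ?_
      linarith
    have hsub1 : closedBall (0 : ℂ) ((n : ℝ) + 2) ⊆ ball 0 ((n : ℝ) + 2 + 1) := closedBall_subset_ball (by linarith)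
    have h1 := hL (fun w => G n (z + w)) (fun w => υ n (z + w)) ?_
    · have h2 : deriv (fun w => G n (z + w)) 0 = deriv (G n) z := by
        rw [deriv_comp_const_add, add_zero]
      rw [h2] at h1
      simpa only [add_zero] using h1
    · intro w hw
      have hzw' := hzw w hw
      have hzw'' := hsub1 hzw'
      have hc0 := hυc n (z + w) hzw'
      have hadd : AnalyticAt ℂ (fun w : ℂ => z + w) w := analyticAt_const.add analyticAt_id
      refine ⟨?_, ?_, ?_, ?_, ?_, ?_, ?_, ?_⟩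
      · exact AnalyticAt.fun_comp (hG n _ (ball_subset_closedBall hzw'')).1 hadd
      · exact AnalyticAt.fun_comp ((hυd n).analyticAt (isOpen_ball.mem_nhds hzw'')) hadd
      · exact (hG n _ (ball_subset_closedBall hzw'')).2.1
      · exact (hG n _ (ball_subset_closedBall hzw'')).2.2
      · exact hυu n _ hzw''
      · exact hgd _ hc0
      · exact hnb _ hc0
      · have hc1 := hυc n (z + 0) (hzw 0 (mem_closedBall_self zero_le_one))
        have h4 : υ n (z + w) - υ n (z + 0) = (υ n (z + w) - c) - (υ n (z + 0) - c) := by ring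
        show ‖υ n (z + w) - υ n (z + 0)‖ ≤ 1
        rw [h4]
        have h5 := norm_sub_le (υ n (z + w) - c) (υ n (z + 0) - c)
        linarith
  have hpart : ∀ n : ℕ, ∀ z ∈ ball (0 : ℂ) ((n : ℝ) + 1), G n z ∈ part X Λ u (‖c‖ + 1) := by
    intro n z hz
    rw [mem_ball, dist_zero_right] at hz
    have h1 : z ∈ closedBall (0 : ℂ) ((n : ℝ) + 2) := by
      rw [mem_closedBall, dist_zero_right]
      linarith
    have h2 : z ∈ ball (0 : ℂ) ((n : ℝ) + 2 + 1) := closedBall_subset_ball (by linarith) h1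
    exact part_mem_of_val (hG n z (ball_subset_closedBall h2)).2.1 (hnb _ (hυc n z h1)) (hυu n z h2)
  have hGd : ∀ n : ℕ, DifferentiableOn ℂ (G n) (ball 0 ((n : ℝ) + 1)) := by
    intro n z hz
    refine (hG n z ?_).1.differentiableAt.differentiableWithinAt
    rw [mem_ball, dist_zero_right] at hz
    rw [mem_closedBall, dist_zero_right]
    linarith
  set 𝒰 : Ultrafilter ℕ := hyperfilter ℕ with h𝒰
  have h𝒰t : (𝒰 : Filter ℕ) ≤ atTop := Nat.hyperfilter_le_atTop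
  have hρ : Tendsto (fun n : ℕ => (n : ℝ) + 1) 𝒰 atTop :=
    (tendsto_natCast_atTop_atTop.atTop_add tendsto_const_nhds).mono_left h𝒰t
  have h0 : Tendsto (fun n : ℕ => 1 / ((n : ℝ) + 1)) 𝒰 (𝓝 0) := tendsto_one_div_add_atTop_nhds_zero_nat.mono_left h𝒰t
  -- convergence outside `Z`
  have hlim : ∀ z, z ∉ Z → Tendsto (fun n => pr (G n z)) 𝒰 (𝓝 (pr (H z))) := by
    intro z hz
    obtain ⟨s, hs, hsb⟩ := Metric.mem_nhds_iff.1 (hZc.isOpen_compl.mem_nhds hz)
    have e1 : ∀ᶠ n : ℕ in 𝒰, 1 / ((n : ℝ) + 1) < s := h0.eventually_lt_const hs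
    have e2 : ∀ᶠ n : ℕ in 𝒰, ‖z‖ + 1 < (n : ℝ) + 1 := hρ.eventually_gt_atTop _
    rw [tendsto_iff_dist_tendsto_zero]
    refine squeeze_zero' (Filter.Eventually.of_forall fun n => dist_nonneg) ?_ h0
    filter_upwards [e1, e2] with n h1 h2
    refine (hGH n z (by linarith) ?_).le
    intro w hw
    by_contra hlt
    push Not at hlt
    have h3 : w ∈ ball z s := by
      rw [mem_ball, dist_comm]
      exact hlt.trans h1
    exact hsb h3 hw
  have hloc : ∀ z₀, ∃ (r : ℝ) (φ : ℕ → ℂ → EN N) (ψ : ℂ → EN N), 0 < r ∧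
        (∀ᶠ n in (𝒰 : Filter ℕ), DifferentiableOn ℂ (φ n) (ball z₀ r) ∧ ∀ z ∈ ball z₀ r, ∃ c : ℂ, c ≠ 0 ∧ φ n z = c • G n z) ∧
        DifferentiableOn ℂ ψ (ball z₀ r) ∧ (∀ z ∈ ball z₀ r, ∃ c : ℂ, c ≠ 0 ∧ ψ z = c • H z) ∧
        TendstoLocallyUniformlyOn φ ψ 𝒰 (ball z₀ r) := by
    intro z₀
    have e1 : ∀ᶠ n in (𝒰 : Filter ℕ), DifferentiableOn ℂ (G n) (ball z₀ 1) ∧
      ∀ z ∈ ball z₀ 1, G n z ∈ part X Λ u (‖c‖ + 1) ∧ fs (G n z) (deriv (G n) z) ≤ L := by
      filter_upwards [hρ.eventually_gt_atTop (‖z₀‖ + 1)] with n hn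
      have hsub : ball z₀ 1 ⊆ ball (0 : ℂ) ((n : ℝ) + 1) := by
        intro y hy
        rw [mem_ball, dist_eq_norm] at hy
        rw [mem_ball, dist_zero_right]
        have h1 : y = z₀ + (y - z₀) := by ring
        rw [h1]
        refine (norm_add_le _ _).trans_lt ?_
        linarith
      exact ⟨(hGd n).mono hsub, fun z hz => ⟨hpart n z (hsub hz), hbd n z (hsub hz)⟩⟩
    have hcone := E.part_isCone (‖c‖ + 1)
    obtain ⟨r, φ, ψ, hr, hr1, hφ, hψd, hψX, hconv⟩ := lc_montel hcone hL0 𝒰 G one_pos e1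
    have hψ0 : ∀ z ∈ ball z₀ r, ψ z ≠ 0 := fun z hz h0 => hcone.zero_notMem (h0 ▸ hψX z hz)
    have hprψ : ∀ z ∈ ball z₀ r, Tendsto (fun n => pr (G n z)) 𝒰 (𝓝 (pr (ψ z))) := by
      intro z hz
      have h1 : Tendsto (fun n => φ n z) 𝒰 (𝓝 (ψ z)) := hconv.tendsto_at hz
      have h2 : Tendsto (fun n => pr (φ n z)) 𝒰 (𝓝 (pr (ψ z))) :=
        (Pool.Agent.H62.EF.continuousAt_pr (hψ0 z hz)).tendsto.comp h1
      refine h2.congr' ?_
      filter_upwards [hφ] with n h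
      obtain ⟨-, c, hc, h4⟩ := h.2 z hz
      rw [h4, Pool.Agent.H62.EF.pr_smul _ hc]
    have hoff : ∀ z ∈ ball z₀ r, z ∉ Z → pr (ψ z) = pr (H z) := fun z hz hzZ =>
      tendsto_nhds_unique (hprψ z hz) (hlim z hzZ)
    have hall : ∀ z ∈ ball z₀ r, pr (ψ z) = pr (H z) := by
      intro z hz
      have c1 : ContinuousAt (fun z => pr (ψ z)) z :=
        (Pool.Agent.H62.EF.continuousAt_pr (hψ0 z hz)).comp (hψd.differentiableAt (isOpen_ball.mem_nhds hz)).continuousAt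
      have c2 : ContinuousAt (fun z => pr (H z)) z :=
        (Pool.Agent.H62.EF.continuousAt_pr (hH0 z)).comp hHd.continuous.continuousAt
      have t1 : Tendsto (fun z => pr (ψ z)) (𝓝[≠] z) (𝓝 (pr (ψ z))) := c1.tendsto.mono_left nhdsWithin_le_nhds
      have t2 : Tendsto (fun z => pr (H z)) (𝓝[≠] z) (𝓝 (pr (H z))) := c2.tendsto.mono_left nhdsWithin_le_nhds
      refine tendsto_nhds_unique (t1.congr' ?_) t2
      filter_upwards [hZd z, mem_nhdsWithin_of_mem_nhds (isOpen_ball.mem_nhds hz)] with y hy1 hy2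
      exact hoff y hy2 hy1
    refine ⟨r, φ, ψ, hr, hφ.mono fun n h => ⟨h.1, fun z hz => (h.2 z hz).2⟩, hψd, fun z hz => ?_, hconv⟩
    exact (Pool.Agent.H62.EF.pr_eq_iff (hψ0 z hz) (hH0 z)).1 (hall z hz)
  have hdich := limit_dich E 𝒰 G (fun n : ℕ => (n : ℝ) + 1) hρ
    (Filter.Eventually.of_forall fun n => ⟨hGd n, fun z hz => by
      have h1 : z ∈ closedBall (0 : ℂ) ((n : ℝ) + 2 + 1) := by
        rw [mem_ball, dist_zero_right] at hz
        rw [mem_closedBall, dist_zero_right]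
        linarith
      exact (hG n z h1).2⟩) hHd hHX hB hloc
  rcases hdich with hinD | hoffD
  · have hfs : ∀ z₀, fs (H z₀) (deriv H z₀) ≤ 0 := by
      intro z₀
      exact (hor_fibre E.cone E.D_smul E.tor E.dsc le_rfl (E.hor (H z₀) (hinD z₀) (hB z₀)) (hHd.analyticAt z₀)
        (Filter.Eventually.of_forall fun z => ⟨hHX z, hinD z⟩) (c₀ := c) (Filter.Eventually.of_forall hc)).le
    have h1 := Pool.Agent.H62.EF.pr_lipschitz isOpen_univ convex_univ hHd.differentiableOn (fun z _ => hH0 z) (fun z _ => hfs z)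
      z (Set.mem_univ z) w (Set.mem_univ w)
    rw [mul_zero, zero_mul] at h1
    exact dist_le_zero.1 h1
  · by_contra hne
    obtain ⟨b, hb, hb2⟩ := E.fib H hHd (fun z => ⟨hHX z, hoffD z⟩)
      (fun z w => by
        have h1 := Λ.sub_mem (hc z) (hc w)
        have h2 : u (H z) - c - (u (H w) - c) = u (H z) - u (H w) := by ring
        rwa [h2] at h1)
      ⟨z, w, fun c' he => by
        have hc' : c' ≠ 0 := by
          rintro rfl
          rw [zero_smul] at he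
          exact hH0 z he
        apply hne
        rw [he, Pool.Agent.H62.EF.pr_smul _ hc']⟩
    exact hB 0 b hb hb2

theorem lcur_aff (hX : OCone X) (hcl : ∀ R : ℝ, IsClosed (insert 0 (part X Λ u R))) (hu : TorusMap X Λ u) (hΛ : Dsc Λ)
    (hD : ∀ x ∈ X, x ∉ D → ∀ᶠ y in 𝓝 x, y ∉ D) {H : ℂ → EN N} (hH : H ∈ LCur X D) {a c : ℂ} (ha : a ≠ 0)
    (h : ∀ z, u (H z) - (a * z + c) ∈ Λ) : (fun z => pr (H ((z - c) / a))) ∈ LSec X D Λ u := by
  obtain ⟨hHd, hHX, Z, hZc, hZd, hap⟩ := hH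
  obtain ⟨σ, hσ⟩ : ∃ σ : ℂ → ℂ, σ = fun z => (z - c) / a := ⟨_, rfl⟩
  have hσd : Differentiable ℂ σ := by
    rw [hσ]
    exact (differentiable_id.sub_const c).div_const a
  have hσc : Continuous σ := hσd.continuous
  have hσv : ∀ z, a * σ z + c = z := by
    intro z
    rw [hσ]
    field_simp
    ring
  have hσs : ∀ z w, σ z - σ w = (z - w) / a := by
    intro z w
    rw [hσ]
    field_simp
    ring
  have hσinj : Function.Injective σ := by
    intro z w hzw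
    rw [← hσv z, ← hσv w, hzw]
  have hgoal : (fun z => pr (H ((z - c) / a))) = fun z => pr (H (σ z)) := by rw [hσ]
  rw [hgoal]
  have hprc : Continuous (fun z => pr (H z)) := continuous_iff_continuousAt.2 fun z =>
    (Pool.Agent.H62.EF.continuousAt_pr (hX.ne_zero (hHX z))).comp hHd.continuous.continuousAt
  refine ⟨⟨fun z => H (σ z), ⟨hHd.comp hσd, fun z => hHX _, fun z => ?_⟩, fun z => rfl⟩, σ ⁻¹' Z, hZc.preimage hσc, ?_, ?_⟩
  · have h1 := h (σ z)
    rwa [hσv z] at h1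
  · intro z
    have h1 : Tendsto σ (𝓝[≠] z) (𝓝[≠] (σ z)) :=
      tendsto_nhdsWithin_of_tendsto_nhds_of_eventually_within σ (hσc.continuousAt.mono_left nhdsWithin_le_nhds)
        (by filter_upwards [self_mem_nhdsWithin] with w hw; exact fun e => hw (hσinj e))
    exact h1.eventually (hZd (σ z))
  · intro R ε hε K hK hKZ
    have ha0 : 0 < ‖a‖ := norm_pos_iff.2 ha
    have hR' : R ≤ |R| := le_abs_self R
    have hR0 : 0 ≤ |R| := abs_nonneg R
    set R₁ : ℝ := (|R| + 3 + ‖c‖) / ‖a‖ with hR₁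
    have hR₁0 : 0 ≤ R₁ := by positivity
    have hσb : ∀ w : ℂ, ‖w‖ < |R| + 3 → ‖σ w‖ ≤ R₁ := by
      intro w hw
      rw [hσ, hR₁]
      show ‖(w - c) / a‖ ≤ _
      rw [norm_div]
      gcongr
      exact (norm_sub_le _ _).trans (by linarith)
    have hLc : IsCompact (σ '' K) := hK.image hσc
    have hLZ : σ '' K ⊆ Zᶜ := by
      rintro _ ⟨w, hw, rfl⟩
      exact hKZ w hw
    obtain ⟨s, hs, hsZ⟩ := hLc.exists_cthickening_subset_open hZc.isOpen_compl hLZ
    have hL'c : IsCompact (cthickening s (σ '' K)) := hLc.cthickening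
    obtain ⟨t, ht, hut⟩ := Metric.uniformContinuousOn_iff.1 (hL'c.uniformContinuousOn_of_continuous hprc.continuousOn) (ε / 2) (by positivity)
    set ε₁ : ℝ := min (1 / 4) (‖a‖ * min s (t / 2)) with hε₁
    have hst : 0 < min s (t / 2) := lt_min hs (by positivity)
    have hε₁0 : 0 < ε₁ := lt_min (by norm_num) (mul_pos ha0 hst)
    have hε₁1 : ε₁ ≤ 1 / 4 := min_le_left _ _
    have hε₁2 : ε₁ / ‖a‖ ≤ min s (t / 2) := by
      rw [div_le_iff₀ ha0, mul_comm]
      exact min_le_right _ _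
    obtain ⟨η, hη, Kl, hKl, hKlZ, hlift⟩ := lc_lift (ψ := fun z => a * z + c) hX hu hΛ hHd.continuous hHX
      ((differentiable_id.const_mul a).add_const c) h hZd hR₁0 hε₁0
    obtain ⟨G, hG1, hG2⟩ := hap (R₁ + 1) (min η (ε / 2)) (lt_min hη (by positivity)) (Kl ∪ cthickening s (σ '' K)) (hKl.union hL'c)
      (by
        rintro z (hz | hz)
        · exact (hKlZ z hz).1
        · exact hsZ hz)
    obtain ⟨υ, hυ1, hυ2, hυ3⟩ := hlift G (fun z hz => ⟨(hG1 z hz).1, (hG1 z hz).2.1⟩)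
      (fun z hz => (hG2 z (Or.inl hz) (hKlZ z hz).2).trans_le (min_le_left _ _))
    have hσm : ∀ w ∈ ball (0 : ℂ) (|R| + 3), σ w ∈ closedBall (0 : ℂ) R₁ := by
      intro w hw
      rw [mem_closedBall, dist_zero_right]
      exact hσb w (by simpa using hw)
    have hsub1 : closedBall (0 : ℂ) R₁ ⊆ ball 0 (R₁ + 1) := closedBall_subset_ball (by linarith)
    obtain ⟨κ, hκ1, hκ2⟩ := lc_inverse (ρ := |R|) hε₁0 hε₁1 (θ := fun w => υ (σ w))
      (hυ1.comp hσd.differentiableOn fun w hw => hsub1 (hσm w hw))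
      (fun w hw => by
        have h1 := hυ3 (σ w) (hσm w hw)
        have h2 : a * σ w + c = w := hσv w
        have h1' : ‖υ (σ w) - (a * σ w + c)‖ < ε₁ := h1
        rw [h2] at h1'
        exact h1')
    have hκb : ∀ w ∈ ball (0 : ℂ) (|R| + 1), κ w ∈ ball (0 : ℂ) (|R| + 3) := by
      intro w hw
      rw [mem_ball, dist_zero_right] at hw ⊢
      have h1 : κ w = w + (κ w - w) := by ring
      rw [h1]
      refine (norm_add_le _ _).trans_lt ?_
      have := (hκ2 w (by simpa using hw)).2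
      linarith
    have hKb : ∀ z : ℂ, ‖z‖ ≤ R → z ∈ ball (0 : ℂ) (|R| + 1) := by
      intro z hz
      rw [mem_ball, dist_zero_right]
      linarith
    refine ⟨fun w => G (σ (κ w)), ?_, ?_⟩
    · intro z hz
      have hzb := hKb z (by simpa using hz)
      have hmem : ∀ w ∈ ball (0 : ℂ) (|R| + 1), σ (κ w) ∈ closedBall (0 : ℂ) R₁ := fun w hw => hσm _ (hκb w hw)
      refine ⟨?_, ?_⟩
      · have h1 : AnalyticAt ℂ κ z := hκ1.analyticAt (isOpen_ball.mem_nhds hzb)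
        have h2 : AnalyticAt ℂ (fun w => σ (κ w)) z := AnalyticAt.fun_comp (hσd.analyticAt (κ z)) h1
        exact AnalyticAt.fun_comp (f := fun w => σ (κ w)) (hG1 _ (closedBall_subset_closedBall (by linarith) (hmem z hzb))).1 h2
      · filter_upwards [isOpen_ball.mem_nhds hzb] with w hw
        have h1 := hG1 _ (closedBall_subset_closedBall (by linarith) (hmem w hw))
        refine ⟨h1.2.1, h1.2.2, ?_⟩
        have h2 := hυ2 _ (hsub1 (hmem w hw))
        have h3 : υ (σ (κ w)) = w := (hκ2 w hw).1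
        rw [h3] at h2
        exact h2
    · intro z hz hzR
      have hzb := hKb z hzR
      have h1 := (hκ2 z hzb).2
      have hy : σ z ∈ σ '' K := ⟨z, hz, rfl⟩
      have hy' : σ z ∈ cthickening s (σ '' K) := self_subset_cthickening _ hy
      have hd : dist (σ (κ z)) (σ z) ≤ min s (t / 2) := by
        rw [dist_eq_norm, hσs, norm_div]
        refine le_trans ?_ hε₁2
        gcongr
      have hy2 : σ (κ z) ∈ cthickening s (σ '' K) := mem_cthickening_of_dist_le _ _ _ _ hy (hd.trans (min_le_left _ _))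
      have h3 : dist (pr (H (σ (κ z)))) (pr (H (σ z))) < ε / 2 := by
        refine hut _ hy2 _ hy' (hd.trans_lt ?_)
        have : min s (t / 2) ≤ t / 2 := min_le_right _ _
        linarith
      have h4 := hG2 (σ (κ z)) (Or.inr hy2) (by
        have := hσb (κ z) (by simpa using hκb z hzb)
        linarith)
      have h5 := h4.trans_le (min_le_right _ _)
      exact (dist_triangle _ (pr (H (σ (κ z)))) _).trans_lt (by linarith)

end Pool.Agent.H18.LU

end

section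

/-!
# LR Alg: polynomials in `e`, `w` as forms; the curves on which `e` and `w` are constant

* `homF`: the form `B ^ d W₂ ^ d Φ (A / B, W₁ / W₂)`.
* `exists_polyForm`: if `Φ ≠ 0` then `Φ (e, w) = 0` only on a proper closed subset.
* `exists_constForm`: outside a proper closed subset the fibres of `(e, w)` are finite.
-/

set_option autoImplicit false

open Topology Filter MvPolynomial

noncomputable section

namespace Pool.Agent.H46.LR

attribute [-instance] ProperSMul.toContinuousSMul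

open Pool.Agent.H17 (PN VanishesAt)
open Pool.Agent.H17GT (coordFun functionField)
open Pool.Agent.H17LG.Variety (FunField ratio)
open Pool.Agent.H17R (gen gen_eq_zero_iff ratio_self coordFun_ne_zero_iff)
open Pool.Agent.H17EF (projVar)
open Pool.Agent.H62.FC (Homog)
open Pool.Agent.H62.SA (locVar)

variable {N : ℕ}

/-- the form `B ^ d W₂ ^ d Φ (A / B, W₁ / W₂)` -/
def homF (A B W₁ W₂ : MvPolynomial (Fin (N + 1)) ℂ) (d : ℕ) (Φ : MvPolynomial (Fin 2) ℂ) : MvPolynomial (Fin (N + 1)) ℂ :=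
  ∑ m ∈ Φ.support, C (coeff m Φ) * ((A ^ m 0 * B ^ (d - m 0)) * (W₁ ^ m 1 * W₂ ^ (d - m 1)))

theorem le_of_mem {Φ : MvPolynomial (Fin 2) ℂ} {d : ℕ} (hd : Φ.totalDegree ≤ d) {m : Fin 2 →₀ ℕ} (hm : m ∈ Φ.support) (i : Fin 2) : m i ≤ d := by
  have h1 : (m.sum fun _ e => e) ≤ Φ.totalDegree := le_totalDegree hm
  refine le_trans ?_ (h1.trans hd)
  rw [Finsupp.sum_fintype _ _ (fun _ => rfl), Fin.sum_univ_two]
  fin_cases i <;> simp

theorem homF_hom {A B W₁ W₂ : MvPolynomial (Fin (N + 1)) ℂ} {D D' d : ℕ} (hA : A.IsHomogeneous D) (hB : B.IsHomogeneous D)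
    (hW₁ : W₁.IsHomogeneous D') (hW₂ : W₂.IsHomogeneous D') {Φ : MvPolynomial (Fin 2) ℂ} (hd : Φ.totalDegree ≤ d) :
    (homF A B W₁ W₂ d Φ).IsHomogeneous (D * d + D' * d) := by
  refine IsHomogeneous.sum _ _ _ fun m hm => ?_
  have h0 := le_of_mem hd hm 0
  have h1 := le_of_mem hd hm 1
  have h2 := ((hA.pow (m 0)).mul (hB.pow (d - m 0))).mul ((hW₁.pow (m 1)).mul (hW₂.pow (d - m 1)))
  have h3 := (isHomogeneous_C (Fin (N + 1)) (coeff m Φ)).mul h2
  have h4 : 0 + (D * m 0 + D * (d - m 0) + (D' * m 1 + D' * (d - m 1))) = D * d + D' * d := by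
    rw [← Nat.mul_add, ← Nat.mul_add, Nat.add_sub_cancel' h0, Nat.add_sub_cancel' h1, zero_add]
  rw [h4] at h3
  exact h3

theorem homF_map {L : Type} [Field L] [Algebra ℂ L] (ρ : MvPolynomial (Fin (N + 1)) ℂ →ₐ[ℂ] L) {A B W₁ W₂ : MvPolynomial (Fin (N + 1)) ℂ}
    (hB : ρ B ≠ 0) (hW : ρ W₂ ≠ 0) {d : ℕ} {Φ : MvPolynomial (Fin 2) ℂ} (hd : Φ.totalDegree ≤ d) :
    ρ (homF A B W₁ W₂ d Φ) = ρ B ^ d * ρ W₂ ^ d * aeval ![ρ A / ρ B, ρ W₁ / ρ W₂] Φ := by
  unfold homF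
  rw [map_sum, aeval_def, eval₂_eq', Finset.mul_sum]
  refine Finset.sum_congr rfl fun m hm => ?_
  have h0 := le_of_mem hd hm 0
  have h1 := le_of_mem hd hm 1
  rw [Fin.prod_univ_two]
  simp only [Matrix.cons_val_zero, Matrix.cons_val_one, map_mul, map_pow]
  have h2 : ρ (C (coeff m Φ)) = algebraMap ℂ L (coeff m Φ) := ρ.commutes _
  have e0 : ρ B ^ d = ρ B ^ m 0 * ρ B ^ (d - m 0) := by rw [← pow_add, Nat.add_sub_cancel' h0]
  have e1 : ρ W₂ ^ d = ρ W₂ ^ m 1 * ρ W₂ ^ (d - m 1) := by rw [← pow_add, Nat.add_sub_cancel' h1]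
  rw [h2, e0, e1, div_pow, div_pow]
  field_simp

theorem eval_homF {A B W₁ W₂ : MvPolynomial (Fin (N + 1)) ℂ} (x : Fin (N + 1) → ℂ) (hB : eval x B ≠ 0) (hW : eval x W₂ ≠ 0) {d : ℕ}
    {Φ : MvPolynomial (Fin 2) ℂ} (hd : Φ.totalDegree ≤ d) :
    eval x (homF A B W₁ W₂ d Φ) = eval x B ^ d * eval x W₂ ^ d * eval ![eval x A / eval x B, eval x W₁ / eval x W₂] Φ := by
  have h1 := homF_map (L := ℂ) (aeval x) (A := A) (B := B) (W₁ := W₁) (W₂ := W₂) (d := d) (Φ := Φ)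
  simp only [MvPolynomial.aeval_eq_eval] at h1
  exact h1 hB hW hd

theorem sum_aux {L : Type} [Field L] (a : L) (f g : ℕ → L) (n : ℕ) (h : ∀ k ∈ Finset.range n, f k = a * g k)
    (hg : ∑ k ∈ Finset.range n, g k = 0) : ∑ k ∈ Finset.range n, f k = 0 := by
  rw [Finset.sum_congr rfl h, ← Finset.mul_sum, hg, mul_zero]

section

variable {P : Ideal (MvPolynomial (Fin (N + 1)) ℂ)} {s : ℕ} {G : Fin s → MvPolynomial (Fin (N + 1)) ℂ} {A B W₁ W₂ : MvPolynomial (Fin (N + 1)) ℂ}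

theorem homF_not_mem (h : IsPair P G A B W₁ W₂) {Φ : MvPolynomial (Fin 2) ℂ} (hΦ : Φ ≠ 0) {d : ℕ} (hd : Φ.totalDegree ≤ d) :
    homF A B W₁ W₂ d Φ ∉ P := by
  obtain ⟨D, hA, hB⟩ := h.form
  obtain ⟨D', hW₁, hW₂⟩ := h.form'
  obtain ⟨x, hx, hBx, hWx, hΦx⟩ := h.indep Φ hΦ
  intro hmem
  have h1 := hx.1 _ hmem _ (homF_hom hA hB hW₁ hW₂ hd)
  unfold VanishesAt at h1 hBx hWx
  rw [eval_homF x.rep hBx hWx hd] at h1
  exact mul_ne_zero (mul_ne_zero (pow_ne_zero _ hBx) (pow_ne_zero _ hWx)) hΦx h1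

/-- `Φ (e, w) = 0` only on a proper closed subset. -/
theorem exists_polyForm (h : IsPair P G A B W₁ W₂) {Φ : MvPolynomial (Fin 2) ℂ} (hΦ : Φ ≠ 0) :
    ∃ (n : ℕ) (R : MvPolynomial (Fin (N + 1)) ℂ), R.IsHomogeneous n ∧ R ∉ P ∧ ∀ x : PN N, ¬ VanishesAt B x → ¬ VanishesAt W₂ x →
      eval ![eval x.rep A / eval x.rep B, eval x.rep W₁ / eval x.rep W₂] Φ = 0 → VanishesAt R x := by
  obtain ⟨D, hA, hB⟩ := h.form
  obtain ⟨D', hW₁, hW₂⟩ := h.form'
  refine ⟨_, homF A B W₁ W₂ Φ.totalDegree Φ, homF_hom hA hB hW₁ hW₂ le_rfl, homF_not_mem h hΦ le_rfl, fun x hBx hWx hx => ?_⟩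
  unfold VanishesAt
  rw [eval_homF x.rep hBx hWx le_rfl, hx, mul_zero]

theorem IsPair.B_notMem (h : IsPair P G A B W₁ W₂) : B ∉ P := by
  obtain ⟨D, -, hB⟩ := h.form
  obtain ⟨x, hx, hBx, -, -⟩ := h.indep 1 one_ne_zero
  exact fun hmem => hBx (hx.1 _ hmem _ hB)

theorem IsPair.W_notMem (h : IsPair P G A B W₁ W₂) : W₂ ∉ P := by
  obtain ⟨D, -, hW⟩ := h.form'
  obtain ⟨x, hx, -, hWx, -⟩ := h.indep 1 one_ne_zero
  exact fun hmem => hWx (hx.1 _ hmem _ hW)

theorem IsPair.sub_notMem (h : IsPair P G A B W₁ W₂) (c : ℂ) : A - C c * B ∉ P := by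
  obtain ⟨D, hA, hB⟩ := h.form
  have hΦ : (X 0 - C c : MvPolynomial (Fin 2) ℂ) ≠ 0 := by
    intro h0
    have h1 := congrArg (eval (fun _ => c + 1)) h0
    simp at h1
  obtain ⟨x, hx, hBx, -, hΦx⟩ := h.indep _ hΦ
  intro hmem
  have hAc : (A - C c * B).IsHomogeneous D := by
    have h1 := (isHomogeneous_C (Fin (N + 1)) c).mul hB
    rw [zero_add] at h1
    exact hA.sub h1
  have h1 := hx.1 _ hmem _ hAc
  unfold VanishesAt at h1 hBx
  apply hΦx
  rw [map_sub, map_mul, eval_C] at h1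
  rw [map_sub, eval_X, eval_C, Matrix.cons_val_zero, sub_eq_zero.1 h1, mul_div_assoc, div_self hBx, mul_one, sub_self]

/-- **The fibres of `(e, w)`**: outside a proper closed subset they are finite. -/
theorem exists_constForm [P.IsPrime] {z : Fin 2 → FunField P} (hz : IsTranscendenceBasis ℂ z) (h : IsPair P G A B W₁ W₂) :
    ∃ (n : ℕ) (R : MvPolynomial (Fin (N + 1)) ℂ), R.IsHomogeneous n ∧ R ∉ P ∧ ∀ e₀ w₀ : ℂ,
      {x : PN N | x ∈ projVar P ∧ ¬ VanishesAt B x ∧ ¬ VanishesAt W₂ x ∧ ¬ VanishesAt R x ∧ eval x.rep A / eval x.rep B = e₀ ∧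
        eval x.rep W₁ / eval x.rep W₂ = w₀}.Finite := by
  classical
  obtain ⟨D, hA, hB⟩ := h.form
  obtain ⟨D', hW₁, hW₂⟩ := h.form'
  -- a coordinate which is not zero
  obtain ⟨x₀, hx₀, -⟩ := h.indep 1 one_ne_zero
  obtain ⟨j, hj⟩ : ∃ j, (X j : MvPolynomial (Fin (N + 1)) ℂ) ∉ P := by
    by_contra hcon
    push Not at hcon
    apply x₀.rep_nonzero
    funext i
    have := hx₀.1 _ (hcon i) 1 (isHomogeneous_X ℂ i)
    unfold VanishesAt at this
    rwa [eval_X] at this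
  have hcj : coordFun P j ≠ 0 := coordFun_ne_zero_iff.2 hj
  set η : Fin (N + 1) → FunField P := fun i => ratio P i j with hη
  have hηj : η j = 1 := ratio_self hcj
  have hgen : ∀ (n : ℕ) (Q : MvPolynomial (Fin (N + 1)) ℂ), Q.IsHomogeneous n → (aeval η Q = 0 ↔ Q ∈ P) := fun n Q hQ => gen_eq_zero_iff hcj hQ
  have hBη : aeval η B ≠ 0 := fun h0 => h.B_notMem ((hgen _ _ hB).1 h0)
  have hWη : aeval η W₂ ≠ 0 := fun h0 => h.W_notMem ((hgen _ _ hW₂).1 h0)
  set y : Fin 2 → FunField P := ![aeval η A / aeval η B, aeval η W₁ / aeval η W₂] with hy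
  have hind : AlgebraicIndependent ℂ y := by
    rw [algebraicIndependent_iff]
    intro Φ hΦ
    by_contra h0
    apply homF_not_mem h h0 le_rfl
    rw [← hgen _ _ (homF_hom hA hB hW₁ hW₂ le_rfl), homF_map (aeval η) hBη hWη le_rfl, ← hy, hΦ, mul_zero]
  have hbas : IsTranscendenceBasis ℂ y := by
    refine hind.isTranscendenceBasis_of_trdeg_le_of_finite ?_
    rw [hz.cardinalMk_eq_trdeg]
  have halg := hbas.isAlgebraic
  -- the coordinates are algebraic over `ℂ (e, w)`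
  have hcoord : ∀ i : Fin (N + 1), ∃ (d m : ℕ) (c : ℕ → MvPolynomial (Fin 2) ℂ), (∀ k ≤ m, (c k).totalDegree ≤ d) ∧ c m ≠ 0 ∧
      (∃ n, (∑ k ∈ Finset.range (m + 1), homF A B W₁ W₂ d (c k) * (X i ^ k * X j ^ (m - k))).IsHomogeneous n) ∧
      (∑ k ∈ Finset.range (m + 1), homF A B W₁ W₂ d (c k) * (X i ^ k * X j ^ (m - k))) ∈ P := by
    intro i
    obtain ⟨p, hp0, hp⟩ := halg.isAlgebraic (η i)
    have hmem : ∀ a ∈ Algebra.adjoin ℂ (Set.range y), ∃ c : MvPolynomial (Fin 2) ℂ, aeval y c = a := by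
      intro a ha
      rw [Algebra.adjoin_range_eq_range_aeval] at ha
      exact ha
    have hc : ∀ k, ∃ c : MvPolynomial (Fin 2) ℂ, aeval y c = ((p.coeff k : Algebra.adjoin ℂ (Set.range y)) : FunField P) := fun k =>
      hmem _ (p.coeff k).2
    choose c hc using hc
    rw [Polynomial.aeval_eq_sum_range] at hp
    have hp' : ∑ k ∈ Finset.range (p.natDegree + 1), aeval y (c k) * η i ^ k = 0 := by
      rw [← hp]
      refine Finset.sum_congr rfl fun k _ => ?_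
      rw [hc]
      rfl
    have hdeg : ∀ k ≤ p.natDegree, (c k).totalDegree ≤ ∑ k ∈ Finset.range (p.natDegree + 1), (c k).totalDegree := fun k hk =>
      Finset.single_le_sum (f := fun k => (c k).totalDegree) (fun _ _ => Nat.zero_le _) (Finset.mem_range.2 (Nat.lt_succ_of_le hk))
    have hF : (∑ k ∈ Finset.range (p.natDegree + 1), homF A B W₁ W₂ (∑ k ∈ Finset.range (p.natDegree + 1), (c k).totalDegree) (c k) *
        (X i ^ k * X j ^ (p.natDegree - k))).IsHomogeneous (D * (∑ k ∈ Finset.range (p.natDegree + 1), (c k).totalDegree) +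
          D' * (∑ k ∈ Finset.range (p.natDegree + 1), (c k).totalDegree) + p.natDegree) := by
      refine IsHomogeneous.sum _ _ _ fun k hk => ?_
      have hk' : k ≤ p.natDegree := Nat.lt_succ_iff.1 (Finset.mem_range.1 hk)
      have h1 := (isHomogeneous_X_pow (R := ℂ) i k).mul (isHomogeneous_X_pow (R := ℂ) j (p.natDegree - k))
      rw [Nat.add_sub_cancel' hk'] at h1
      exact (homF_hom hA hB hW₁ hW₂ (hdeg k hk')).mul h1
    refine ⟨∑ k ∈ Finset.range (p.natDegree + 1), (c k).totalDegree, p.natDegree, c, hdeg, ?_, ⟨_, hF⟩, ?_⟩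
    · intro h0
      have h1 := hc p.natDegree
      rw [h0, map_zero] at h1
      have h2 : p.coeff p.natDegree = 0 := Subtype.ext h1.symm
      exact hp0 (Polynomial.leadingCoeff_eq_zero.1 h2)
    · set d := ∑ k ∈ Finset.range (p.natDegree + 1), (c k).totalDegree with hd
      rw [← hgen _ _ hF, map_sum]
      refine sum_aux (aeval η B ^ d * aeval η W₂ ^ d) _ _ _ (fun k hk => ?_) hp'
      have hk' : k ≤ p.natDegree := Nat.lt_succ_iff.1 (Finset.mem_range.1 hk)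
      rw [map_mul, homF_map (aeval η) hBη hWη (hdeg k hk'), ← hy, map_mul, map_pow, map_pow, aeval_X, aeval_X, hηj, one_pow, mul_one,
        mul_assoc]
  choose d m c hd hcm hhom hmem using hcoord
  refine ⟨_, X j * ∏ i, homF A B W₁ W₂ (d i) (c i (m i)), (isHomogeneous_X ℂ j).mul (IsHomogeneous.prod _ _ _ fun i _ =>
    homF_hom hA hB hW₁ hW₂ (hd i (m i) le_rfl)), ?_, fun e₀ w₀ => ?_⟩
  · intro hmem'
    rcases Ideal.IsPrime.mem_or_mem inferInstance hmem' with h1 | h1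
    · exact hj h1
    · obtain ⟨i, -, hi⟩ := (Ideal.IsPrime.prod_mem_iff (s := Finset.univ)).1 h1
      exact homF_not_mem h (hcm i) (hd i (m i) le_rfl) hi
  · rcases Set.eq_empty_or_nonempty {x : PN N | x ∈ projVar P ∧ ¬ VanishesAt B x ∧ ¬ VanishesAt W₂ x ∧
      ¬ VanishesAt (X j * ∏ i, homF A B W₁ W₂ (d i) (c i (m i))) x ∧ eval x.rep A / eval x.rep B = e₀ ∧ eval x.rep W₁ / eval x.rep W₂ = w₀} with hem | hnem
    · rw [hem]
      exact Set.finite_empty
    -- the polynomials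
    let q : Fin (N + 1) → Polynomial ℂ := fun i => ∑ k ∈ Finset.range (m i + 1), Polynomial.C (eval ![e₀, w₀] (c i k)) * Polynomial.X ^ k
    have hq : ∀ i, q i ≠ 0 := by
      intro i h0
      obtain ⟨x, hx, hBx, hWx, hRx, rfl, rfl⟩ := hnem
      apply hRx
      have h1 := congrArg (fun p : Polynomial ℂ => p.coeff (m i)) h0
      simp only [q, Polynomial.finsetSum_coeff, Polynomial.coeff_C_mul, Polynomial.coeff_X_pow, Polynomial.coeff_zero] at h1
      rw [Finset.sum_eq_single (m i)] at h1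
      · rw [if_pos rfl, mul_one] at h1
        unfold VanishesAt at hBx hWx ⊢
        rw [map_mul, map_prod, Finset.prod_eq_zero (Finset.mem_univ i), mul_zero]
        rw [eval_homF x.rep hBx hWx (hd i (m i) le_rfl), h1, mul_zero]
      · intro k _ hk
        rw [if_neg (Ne.symm hk), mul_zero]
      · exact fun h => absurd (Finset.mem_range.2 (Nat.lt_succ_self _)) h
    have hfin : (Set.univ.pi fun i => {t : ℂ | (q i).IsRoot t}).Finite := Set.Finite.pi fun i => Polynomial.finite_setOfPred_isRoot (hq i)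
    refine Set.Finite.of_finite_image (f := fun (x : PN N) i => x.rep i / x.rep j) (hfin.subset ?_) ?_
    · rintro _ ⟨x, ⟨hx, hBx, hWx, hRx, he, hw⟩, rfl⟩
      intro i _
      show (q i).IsRoot (x.rep i / x.rep j)
      have hxj : x.rep j ≠ 0 := by
        intro h0
        apply hRx
        unfold VanishesAt
        rw [map_mul, eval_X, h0, zero_mul]
      have hF := hx _ (hmem i) _ (hhom i).choose_spec
      unfold VanishesAt at hF hBx hWx
      rw [map_sum] at hF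
      have h1 : ∀ k ∈ Finset.range (m i + 1), eval x.rep (homF A B W₁ W₂ (d i) (c i k) * (X i ^ k * X j ^ (m i - k))) =
          (eval x.rep B ^ d i * eval x.rep W₂ ^ d i * x.rep j ^ m i) * (eval ![e₀, w₀] (c i k) * (x.rep i / x.rep j) ^ k) := by
        intro k hk
        have hk' : k ≤ m i := Nat.lt_succ_iff.1 (Finset.mem_range.1 hk)
        have e1 : x.rep j ^ m i = x.rep j ^ k * x.rep j ^ (m i - k) := by rw [← pow_add, Nat.add_sub_cancel' hk']
        rw [map_mul, eval_homF x.rep hBx hWx (hd i k hk'), he, hw, map_mul, map_pow, map_pow, eval_X, eval_X, div_pow, e1]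
        field_simp
      rw [Finset.sum_congr rfl h1, ← Finset.mul_sum] at hF
      have h2 := (mul_eq_zero.1 hF).resolve_left (mul_ne_zero (mul_ne_zero (pow_ne_zero _ hBx) (pow_ne_zero _ hWx)) (pow_ne_zero _ hxj))
      rw [Polynomial.IsRoot.def, Polynomial.eval_finsetSum]
      simp only [Polynomial.eval_mul, Polynomial.eval_C, Polynomial.eval_pow, Polynomial.eval_X]
      exact h2
    · rintro x ⟨-, -, -, hRx, -, -⟩ x' ⟨-, -, -, hRx', -, -⟩ hxx'
      have hxj : x.rep j ≠ 0 := by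
        intro h0
        apply hRx
        unfold VanishesAt
        rw [map_mul, eval_X, h0, zero_mul]
      have hxj' : x'.rep j ≠ 0 := by
        intro h0
        apply hRx'
        unfold VanishesAt
        rw [map_mul, eval_X, h0, zero_mul]
      rw [← x.mk_rep, ← x'.mk_rep, Projectivization.mk_eq_mk_iff']
      refine ⟨x.rep j / x'.rep j, ?_⟩
      funext i
      have h1 := congrFun hxx' i
      simp only at h1
      rw [Pi.smul_apply, smul_eq_mul]
      rw [div_eq_div_iff hxj hxj'] at h1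
      field_simp
      linear_combination -h1

end

end Pool.Agent.H46.LR

end
end
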