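import Pool.Agent.H94.CB.M162
import Pool.Agent.H94.CB.M66
import Pool.Agent.H94.CB.M88

/-! The parts of this file: EG.HyLvlA, EG.HyLvl, H17N.GermC, H17N.ResU. -/

section

/-!
# EG HyLvlA: functions which vanish along a germ of a level set of `x ^ a * y ^ b`

`root_const`: the set `{t | t ^ a = 1}` is finite (roots of `X ^ a - 1`), so there is a neighbourhood of `1` whose only point in it is `1`.

`lvl_ab` (`1 ≤ a`, `1 ≤ b`).  Let `x₀ = (π 0).1`, `y₀ = (π 0).2`; both are `≠ 0`.  `η z = log ((π z).2 / y₀)` is analytic at `0`, `η 0 = 0`, and near `0` `exp (η z) = (π z).2 / y₀`.  The function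
`r z = (π z).1 / (x₀ * exp (- (b / a) * η z))` is continuous at `0`, `r 0 = 1`, and `(r z) ^ a = 1` near `0` (`(π z).1 ^ a * (π z).2 ^ b = x₀ ^ a * y₀ ^ b`, `exp (- (b / a) η) ^ a = exp (- b η) = (y₀ / (π z).2) ^ b`); by `root_const`
`r z = 1` near `0`.  So near `0` `π z = Φ (η z)`, `Φ η = (x₀ * exp (- (b / a) * η), y₀ * exp η)`.  `deriv η 0 ≠ 0` (else `deriv π 0 = deriv η 0 • Φ' 0 = 0`).  Let `F η = Q (Φ η)`: analytic on the set
`S = {η | ‖x₀‖ * exp (- (b / a) * re η) < 2 ∧ ‖y₀‖ * exp (re η) < 2}`, which is open and convex (`re ⁻¹' (an order connected subset of ℝ)`; or: intersection of two half planes) and contains `0`.  `F (η z) = 0` for `z` near `0`; as `deriv η 0 ≠ 0`,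
`η z ≠ 0` for `z ≠ 0` near `0` (`HasDerivAt.eventually_ne`), so `∃ᶠ η in 𝓝[≠] 0, F η = 0`, and `F = 0` on `S` (`AnalyticOnNhd.eqOn_zero_of_preconnected_of_frequently_eq_zero`).  For `y` with `‖y₀‖ ≤ ‖y‖ < 2` take `η = log (y / y₀)`: `re η = log (‖y‖ / ‖y₀‖) ≥ 0`,
`y₀ * exp η = y`, `x = x₀ * exp (- (b / a) * η)`, `‖x‖ ≤ ‖x₀‖`, `x ≠ 0`.

`lvl_a` (`1 ≤ a`, `b = 0`).  As above `(π z).1 = x₀` near `0` (`x₀ ≠ 0`), so `deriv (fun z => (π z).2) 0 ≠ 0`, so `Q (x₀, ·)`, analytic on `ball 0 2`, has zeros which accumulate at `y₀`, and is zero on `ball 0 2`.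
-/

set_option autoImplicit false

open Topology Filter Metric

namespace Pool.Agent.EG

attribute [-instance] ProperSMul.toContinuousSMul

theorem root_const {a : ℕ} (ha : 1 ≤ a) : ∀ᶠ t in 𝓝 (1 : ℂ), t ^ a = 1 → t = 1 := by
  have h1 : HasDerivAt (fun t : ℂ => t ^ a) ((a : ℂ) * 1 ^ (a - 1)) 1 := hasDerivAt_pow a 1
  have h2 : ((a : ℂ) * 1 ^ (a - 1)) ≠ 0 := by
    rw [one_pow, mul_one]
    exact_mod_cast (by omega : a ≠ 0)
  have h3 : ∀ᶠ z in 𝓝[≠] (1 : ℂ), z ^ a ≠ 1 := h1.eventually_ne h2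
  rw [eventually_nhdsWithin_iff] at h3
  filter_upwards [h3] with t ht h4
  by_contra hne
  exact ht hne h4

private theorem HyLvlA_fst {π : ℂ → ℂ × ℂ} (hπ : AnalyticAt ℂ π 0) : AnalyticAt ℂ (fun z => (π z).1) 0 :=
  ((ContinuousLinearMap.fst ℂ ℂ ℂ).analyticAt _).comp hπ

private theorem HyLvlA_snd {π : ℂ → ℂ × ℂ} (hπ : AnalyticAt ℂ π 0) : AnalyticAt ℂ (fun z => (π z).2) 0 :=
  ((ContinuousLinearMap.snd ℂ ℂ ℂ).analyticAt _).comp hπ

private theorem HyLvlA_punct {η : ℂ → ℂ} {c : ℂ} (hη : AnalyticAt ℂ η 0) (h0 : η 0 = c) (hd : deriv η 0 ≠ 0) {p : ℂ → Prop}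
    (hp : ∀ᶠ z in 𝓝 (0 : ℂ), p (η z)) : ∃ᶠ w in 𝓝[≠] c, p w := by
  have h1 : ∀ᶠ z in 𝓝[≠] (0 : ℂ), η z ≠ c := hη.differentiableAt.hasDerivAt.eventually_ne hd
  have h2 : Tendsto η (𝓝[≠] 0) (𝓝 c) := by
    have h3 := hη.continuousAt.tendsto
    rw [h0] at h3
    exact h3.mono_left nhdsWithin_le_nhds
  have h4 : Tendsto η (𝓝[≠] 0) (𝓝[≠] c) := tendsto_nhdsWithin_iff.2 ⟨h2, h1⟩
  have h5 : ∀ᶠ z in 𝓝[≠] (0 : ℂ), p (η z) := hp.filter_mono nhdsWithin_le_nhds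
  exact h4.frequently h5.frequently

theorem lvl_ab {Q : ℂ × ℂ → ℂ} (hQ : ∀ p ∈ ball (0 : ℂ × ℂ) 2, AnalyticAt ℂ Q p) {a b : ℕ} (ha : 1 ≤ a) (hb : 1 ≤ b) {π : ℂ → ℂ × ℂ}
    (hπ : AnalyticAt ℂ π 0) (h2 : π 0 ∈ ball (0 : ℂ × ℂ) 2) (hne : (π 0).1 ^ a * (π 0).2 ^ b ≠ 0)
    (hlev : ∀ᶠ z in 𝓝 (0 : ℂ), (π z).1 ^ a * (π z).2 ^ b = (π 0).1 ^ a * (π 0).2 ^ b) (hz : ∀ᶠ z in 𝓝 (0 : ℂ), Q (π z) = 0)
    (hd : deriv π 0 ≠ 0) {y : ℂ} (hy : ‖(π 0).2‖ ≤ ‖y‖) (hy2 : ‖y‖ < 2) : ∃ x : ℂ, x ≠ 0 ∧ ‖x‖ ≤ ‖(π 0).1‖ ∧ Q (x, y) = 0 := by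
  have hP1 := HyLvlA_fst hπ
  have hP2 := HyLvlA_snd hπ
  set x₀ : ℂ := (π 0).1 with hx₀
  set y₀ : ℂ := (π 0).2 with hy₀
  have hx0 : x₀ ≠ 0 := by
    intro h
    apply hne
    rw [h, zero_pow (by omega), zero_mul]
  have hy0 : y₀ ≠ 0 := by
    intro h
    apply hne
    rw [h, zero_pow (by omega), mul_zero]
  have haC : (a : ℂ) ≠ 0 := by exact_mod_cast (by omega : a ≠ 0)
  have hball : ‖x₀‖ < 2 ∧ ‖y₀‖ < 2 := by
    rw [mem_ball_zero_iff, Prod.norm_def, max_lt_iff] at h2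
    exact h2
  have hxn : 0 < ‖x₀‖ := norm_pos_iff.2 hx0
  have hyn : 0 < ‖y₀‖ := norm_pos_iff.2 hy0
  -- the parameter
  set η : ℂ → ℂ := fun z => Complex.log ((π z).2 / y₀) with hη
  have hη0 : η 0 = 0 := by
    simp only [hη]
    rw [← hy₀, div_self hy0, Complex.log_one]
  have hdiv : AnalyticAt ℂ (fun z => (π z).2 / y₀) 0 := hP2.div analyticAt_const hy0
  have hηa : AnalyticAt ℂ η 0 := by
    refine hdiv.clog ?_
    simp only [← hy₀, div_self hy0]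
    exact Complex.one_mem_slitPlane
  have hexp : ∀ᶠ z in 𝓝 (0 : ℂ), y₀ * Complex.exp (η z) = (π z).2 := by
    have h1 : ∀ᶠ z in 𝓝 (0 : ℂ), (π z).2 ≠ 0 := hP2.continuousAt.eventually_ne hy0
    filter_upwards [h1] with z hz1
    simp only [hη]
    rw [Complex.exp_log (div_ne_zero hz1 hy0), mul_div_cancel₀ _ hy0]
  set Φ : ℂ → ℂ × ℂ := fun w => (x₀ * Complex.exp (-((b : ℂ) / a) * w), y₀ * Complex.exp w) with hΦ
  have hπΦ : ∀ᶠ z in 𝓝 (0 : ℂ), π z = Φ (η z) := by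
    set r : ℂ → ℂ := fun z => (π z).1 / (x₀ * Complex.exp (-((b : ℂ) / a) * η z)) with hr
    have hrc : ContinuousAt r 0 := by
      refine hP1.continuousAt.div ?_ (mul_ne_zero hx0 (Complex.exp_ne_zero _))
      exact continuousAt_const.mul (Complex.continuous_exp.continuousAt.comp (continuousAt_const.mul hηa.continuousAt))
    have hr0 : r 0 = 1 := by
      simp only [hr]
      rw [hη0, mul_zero, Complex.exp_zero, mul_one, ← hx₀, div_self hx0]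
    have hr1 : ∀ᶠ z in 𝓝 (0 : ℂ), r z ^ a = 1 → r z = 1 := by
      have h1 := root_const ha
      rw [← hr0] at h1
      have h2 := hrc.eventually h1
      rw [hr0] at h2
      exact h2
    filter_upwards [hr1, hexp, hlev] with z h1 h3 h4
    have h5 : r z ^ a = 1 := by
      simp only [hr]
      have hy1 : (π z).2 ≠ 0 := by
        rw [← h3]
        exact mul_ne_zero hy0 (Complex.exp_ne_zero _)
      have h6 : Complex.exp (-((b : ℂ) / a) * η z) ^ a * (π z).2 ^ b = y₀ ^ b := by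
        rw [← Complex.exp_nat_mul, ← h3, mul_pow, ← Complex.exp_nat_mul]
        have h7 : (a : ℂ) * (-((b : ℂ) / a) * η z) = -((b : ℂ) * η z) := by
          field_simp
        rw [h7, Complex.exp_neg]
        have h8 := Complex.exp_ne_zero ((b : ℂ) * η z)
        field_simp
      rw [div_pow, mul_pow, div_eq_one_iff_eq (mul_ne_zero (pow_ne_zero _ hx0) (pow_ne_zero _ (Complex.exp_ne_zero _)))]
      have h9 : (π z).2 ^ b ≠ 0 := pow_ne_zero _ hy1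
      apply mul_right_cancel₀ h9
      rw [h4, mul_assoc, h6]
    have h6 := h1 h5
    simp only [hr] at h6
    rw [div_eq_one_iff_eq (mul_ne_zero hx0 (Complex.exp_ne_zero _))] at h6
    simp only [hΦ]
    rw [← h6, h3]
  have hΦd : ∀ w : ℂ, AnalyticAt ℂ Φ w := by
    intro w
    have h1 : AnalyticAt ℂ (fun w : ℂ => x₀ * Complex.exp (-((b : ℂ) / a) * w)) w := by
      refine analyticAt_const.mul ?_
      exact (analyticAt_const.mul analyticAt_id).cexp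
    have h3 : AnalyticAt ℂ (fun w : ℂ => y₀ * Complex.exp w) w := analyticAt_const.mul analyticAt_id.cexp
    exact h1.prod h3
  have hηd : deriv η 0 ≠ 0 := by
    intro h
    apply hd
    have h1 : HasDerivAt η 0 0 := by
      have := hηa.differentiableAt.hasDerivAt
      rwa [h] at this
    have h3 : HasDerivAt (fun z => Φ (η z)) ((0 : ℂ) • deriv Φ (η 0)) 0 :=
      HasDerivAt.scomp (h := η) (𝕜' := ℂ) 0 (hΦd (η 0)).differentiableAt.hasDerivAt h1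
    rw [zero_smul] at h3
    have h4 : π =ᶠ[𝓝 0] fun z => Φ (η z) := hπΦ
    rw [h4.deriv_eq]
    exact h3.deriv
  -- the half plane
  set S : Set ℂ := {w : ℂ | w.re < Real.log (2 / ‖y₀‖) ∧ -((b : ℝ) / a) * w.re < Real.log (2 / ‖x₀‖)} with hS
  have hSc : IsPreconnected S := by
    have h1 : Convex ℝ {w : ℂ | w.re < Real.log (2 / ‖y₀‖)} := by
      refine convex_halfSpace_lt (f := fun w : ℂ => w.re) ⟨fun x y => ?_, fun c x => ?_⟩ _
      · simp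
      · simp
    have h3 : Convex ℝ {w : ℂ | -((b : ℝ) / a) * w.re < Real.log (2 / ‖x₀‖)} := by
      refine convex_halfSpace_lt (f := fun w : ℂ => -((b : ℝ) / a) * w.re) ⟨fun x y => ?_, fun c x => ?_⟩ _
      · simp only [Complex.add_re]
        ring
      · simp only [Complex.real_smul, Complex.re_ofReal_mul, smul_eq_mul]
        ring
    exact (h1.inter h3).isPreconnected
  have hS0 : (0 : ℂ) ∈ S := by
    refine ⟨?_, ?_⟩
    · rw [Complex.zero_re]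
      exact Real.log_pos (by rw [lt_div_iff₀ hyn]; linarith [hball.2])
    · rw [Complex.zero_re, mul_zero]
      exact Real.log_pos (by rw [lt_div_iff₀ hxn]; linarith [hball.1])
  have hnx : ∀ w : ℂ, ‖x₀ * Complex.exp (-((b : ℂ) / a) * w)‖ = ‖x₀‖ * Real.exp (-((b : ℝ) / a) * w.re) := by
    intro w
    rw [norm_mul, Complex.norm_exp]
    congr 2
    have h1 : (-((b : ℂ) / a) : ℂ) = ((-((b : ℝ) / a) : ℝ) : ℂ) := by push_cast; ring
    rw [h1, Complex.re_ofReal_mul]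
  have hny : ∀ w : ℂ, ‖y₀ * Complex.exp w‖ = ‖y₀‖ * Real.exp w.re := by
    intro w
    rw [norm_mul, Complex.norm_exp]
  have hΦS : ∀ w ∈ S, Φ w ∈ ball (0 : ℂ × ℂ) 2 := by
    rintro w ⟨h1, h3⟩
    rw [mem_ball_zero_iff, Prod.norm_def, max_lt_iff]
    simp only [hΦ]
    rw [hnx, hny]
    constructor
    · rw [Real.lt_log_iff_exp_lt (by positivity), lt_div_iff₀ hxn] at h3
      linarith
    · rw [Real.lt_log_iff_exp_lt (by positivity), lt_div_iff₀ hyn] at h1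
      linarith
  have hFa : AnalyticOnNhd ℂ (fun w => Q (Φ w)) S := by
    intro w hw
    exact AnalyticAt.comp (g := Q) (f := Φ) (hQ _ (hΦS w hw)) (hΦd w)
  have hFz : ∀ᶠ z in 𝓝 (0 : ℂ), Q (Φ (η z)) = 0 := by
    filter_upwards [hπΦ, hz] with z h1 h3
    rw [← h1]
    exact h3
  have hfreq : ∃ᶠ w in 𝓝[≠] (0 : ℂ), Q (Φ w) = 0 := HyLvlA_punct hηa hη0 hηd (p := fun w => Q (Φ w) = 0) hFz
  have hzero := hFa.eqOn_zero_of_preconnected_of_frequently_eq_zero hSc hS0 hfreq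
  -- the point
  have hyne : y ≠ 0 := by
    rintro rfl
    rw [norm_zero] at hy
    linarith
  have hypos : 0 < ‖y‖ := norm_pos_iff.2 hyne
  set w : ℂ := Complex.log (y / y₀) with hw
  have hwre : w.re = Real.log (‖y‖ / ‖y₀‖) := by
    rw [hw, Complex.log_re, norm_div]
  have hw0 : 0 ≤ w.re := by
    rw [hwre]
    exact Real.log_nonneg (by rw [le_div_iff₀ hyn]; linarith)
  have hab0 : 0 ≤ (b : ℝ) / a := by positivity
  have hwS : w ∈ S := by
    refine ⟨?_, ?_⟩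
    · rw [hwre]
      exact Real.log_lt_log (by positivity) (by gcongr)
    · have h1 : -((b : ℝ) / a) * w.re ≤ 0 := by nlinarith
      have h3 := hS0.2
      rw [Complex.zero_re, mul_zero] at h3
      linarith
  refine ⟨x₀ * Complex.exp (-((b : ℂ) / a) * w), mul_ne_zero hx0 (Complex.exp_ne_zero _), ?_, ?_⟩
  · rw [hnx]
    have h1 : Real.exp (-((b : ℝ) / a) * w.re) ≤ 1 := by
      rw [Real.exp_le_one_iff]
      nlinarith
    nlinarith
  · have h1 : y₀ * Complex.exp w = y := by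
      rw [hw, Complex.exp_log (div_ne_zero hyne hy0), mul_div_cancel₀ _ hy0]
    have h3 := hzero hwS
    simp only [hΦ, Pi.zero_apply] at h3
    rw [h1] at h3
    exact h3

theorem lvl_a {Q : ℂ × ℂ → ℂ} (hQ : ∀ p ∈ ball (0 : ℂ × ℂ) 2, AnalyticAt ℂ Q p) {a : ℕ} (ha : 1 ≤ a) {π : ℂ → ℂ × ℂ}
    (hπ : AnalyticAt ℂ π 0) (h2 : π 0 ∈ ball (0 : ℂ × ℂ) 2) (hne : (π 0).1 ^ a ≠ 0)
    (hlev : ∀ᶠ z in 𝓝 (0 : ℂ), (π z).1 ^ a = (π 0).1 ^ a) (hz : ∀ᶠ z in 𝓝 (0 : ℂ), Q (π z) = 0)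
    (hd : deriv π 0 ≠ 0) {y : ℂ} (hy2 : ‖y‖ < 2) : Q ((π 0).1, y) = 0 := by
  have hP1 := HyLvlA_fst hπ
  have hP2 := HyLvlA_snd hπ
  set x₀ : ℂ := (π 0).1 with hx₀
  set y₀ : ℂ := (π 0).2 with hy₀
  have hx0 : x₀ ≠ 0 := by
    intro h
    apply hne
    rw [h, zero_pow (by omega)]
  have hball : ‖x₀‖ < 2 ∧ ‖y₀‖ < 2 := by
    rw [mem_ball_zero_iff, Prod.norm_def, max_lt_iff] at h2
    exact h2
  have hconst : ∀ᶠ z in 𝓝 (0 : ℂ), (π z).1 = x₀ := by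
    have hrc : ContinuousAt (fun z => (π z).1 / x₀) 0 := hP1.continuousAt.div_const _
    have hr0 : (fun z => (π z).1 / x₀) 0 = 1 := div_self hx0
    have h1 := root_const ha
    rw [← hr0] at h1
    have h3 := hrc.eventually h1
    rw [hr0] at h3
    filter_upwards [h3, hlev] with z h4 h5
    have h6 : (π z).1 / x₀ = 1 := by
      apply h4
      rw [div_pow, h5, div_self (pow_ne_zero _ hx0)]
    exact (div_eq_one_iff_eq hx0).1 h6
  have hd2 : deriv (fun z => (π z).2) 0 ≠ 0 := by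
    intro h
    apply hd
    have h1 : HasDerivAt (fun z => (π z).2) 0 0 := by
      have := hP2.differentiableAt.hasDerivAt
      rwa [h] at this
    have h3 : HasDerivAt (fun z => (π z).1) 0 0 := by
      have h4 : (fun z => (π z).1) =ᶠ[𝓝 0] fun _ => x₀ := hconst
      exact (hasDerivAt_const (0 : ℂ) x₀).congr_of_eventuallyEq h4
    have h5 : HasDerivAt (fun z => ((π z).1, (π z).2)) ((0 : ℂ), (0 : ℂ)) 0 := h3.prodMk h1
    exact h5.deriv
  have hGa : AnalyticOnNhd ℂ (fun y => Q (x₀, y)) (ball 0 2) := by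
    intro w hw
    have h1 : AnalyticAt ℂ (fun y : ℂ => ((x₀, y) : ℂ × ℂ)) w := analyticAt_const.prod analyticAt_id
    refine AnalyticAt.comp (g := Q) (f := fun y : ℂ => ((x₀, y) : ℂ × ℂ)) (hQ _ ?_) h1
    rw [mem_ball_zero_iff, Prod.norm_def, max_lt_iff]
    exact ⟨hball.1, mem_ball_zero_iff.1 hw⟩
  have hfz : ∀ᶠ z in 𝓝 (0 : ℂ), Q (x₀, (π z).2) = 0 := by
    filter_upwards [hconst, hz] with z h1 h3
    rw [← h1]
    exact h3
  have hfreq : ∃ᶠ w in 𝓝[≠] y₀, Q (x₀, w) = 0 := HyLvlA_punct hP2 rfl hd2 (p := fun w => Q (x₀, w) = 0) hfz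
  have hzero := hGa.eqOn_zero_of_preconnected_of_frequently_eq_zero (convex_ball _ _).isPreconnected
    (mem_ball_zero_iff.2 hball.2) hfreq
  exact hzero (mem_ball_zero_iff.2 hy2)

end Pool.Agent.EG

end

section

/-!
# EG HyLvl: functions which vanish along germs of level sets of `x ^ a * y ^ b` near the origin

`level_set`.  Case `1 ≤ a`.  Otherwise for every `n` there is `π n` as in the statement with `‖π n 0‖ < 1 / (n + 1)`, `deriv (π n) 0 ≠ 0`.  Let `‖y‖ < 2`, `y ≠ 0`.  For large `n` `‖π n 0‖ ≤ ‖y‖`, so by `lvl_ab` (`1 ≤ b`) or `lvl_a` (`b = 0`; `x = (π n 0).1 ≠ 0`)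
there is `x n ≠ 0` with `‖x n‖ ≤ ‖π n 0‖ < 1 / (n + 1)` and `Q (x n, y) = 0`.  So the function `x ↦ Q (x, y)`, analytic on `ball 0 2`, vanishes frequently in `𝓝[≠] 0`, so it is `0` on `ball 0 2`
(`AnalyticOnNhd.eqOn_zero_of_preconnected_of_frequently_eq_zero`).  So `Q (x, y) = 0` for `‖x‖ < 2`, `0 < ‖y‖ < 2`; for `y = 0` by continuity of `Q` at `(x, 0)`.  This contradicts `h0` (norm of the product = maximum: `Prod.norm_def`).
Case `a = 0`, `1 ≤ b`: apply the first case to `Q ∘ Prod.swap`, `(b, a)` and `Prod.swap ∘ π` (`Prod.swap` is a continuous linear isometry of `ℂ × ℂ`).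
-/

set_option autoImplicit false

open Topology Filter Metric

namespace Pool.Agent.EG

attribute [-instance] ProperSMul.toContinuousSMul

private theorem HyLvl_fst {Q : ℂ × ℂ → ℂ} (hQ : ∀ p ∈ ball (0 : ℂ × ℂ) 2, AnalyticAt ℂ Q p) (h0 : ¬ ∀ᶠ p in 𝓝 (0 : ℂ × ℂ), Q p = 0) {a b : ℕ}
    (ha : 1 ≤ a) : ∃ δ : ℝ, 0 < δ ∧ ∀ π : ℂ → ℂ × ℂ, AnalyticAt ℂ π 0 → π 0 ∈ ball (0 : ℂ × ℂ) δ → (π 0).1 ^ a * (π 0).2 ^ b ≠ 0 →
      (∀ᶠ z in 𝓝 (0 : ℂ), (π z).1 ^ a * (π z).2 ^ b = (π 0).1 ^ a * (π 0).2 ^ b) → (∀ᶠ z in 𝓝 (0 : ℂ), Q (π z) = 0) → deriv π 0 = 0 := by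
  by_contra hcon
  push Not at hcon
  have hmem : ∀ x y : ℂ, ‖x‖ < 2 → ‖y‖ < 2 → (x, y) ∈ ball (0 : ℂ × ℂ) 2 := by
    intro x y hx hy
    rw [mem_ball_zero_iff, Prod.norm_def]
    exact max_lt hx hy
  have key : ∀ y : ℂ, ‖y‖ < 2 → y ≠ 0 → ∀ x : ℂ, ‖x‖ < 2 → Q (x, y) = 0 := by
    intro y hy2 hy0 x hx
    have hypos : 0 < ‖y‖ := norm_pos_iff.2 hy0
    have hfr : ∃ᶠ x in 𝓝[≠] (0 : ℂ), Q (x, y) = 0 := by
      intro hev
      rw [eventually_nhdsWithin_iff, Metric.eventually_nhds_iff] at hev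
      obtain ⟨ε, hε, hev⟩ := hev
      obtain ⟨π, hπ, hπδ, hne, hlev, hz, hd⟩ := hcon (min ε ‖y‖) (lt_min hε hypos)
      rw [mem_ball_zero_iff, Prod.norm_def, max_lt_iff] at hπδ
      have h1 : ‖(π 0).1‖ < ε := hπδ.1.trans_le (min_le_left _ _)
      have h2 : ‖(π 0).2‖ < ‖y‖ := hπδ.2.trans_le (min_le_right _ _)
      have h3 : ‖(π 0).1‖ < ‖y‖ := hπδ.1.trans_le (min_le_right _ _)
      have h4 : π 0 ∈ ball (0 : ℂ × ℂ) 2 := hmem (π 0).1 (π 0).2 (h3.trans hy2) (h2.trans hy2)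
      obtain ⟨x', hx0, hxn, hxQ⟩ : ∃ x : ℂ, x ≠ 0 ∧ ‖x‖ ≤ ‖(π 0).1‖ ∧ Q (x, y) = 0 := by
        rcases Nat.eq_zero_or_pos b with hb | hb
        · subst hb
          simp only [pow_zero, mul_one] at hne hlev
          refine ⟨(π 0).1, ?_, le_rfl, lvl_a hQ ha hπ h4 hne hlev hz hd hy2⟩
          intro h5
          rw [h5, zero_pow (by omega)] at hne
          exact hne rfl
        · exact lvl_ab hQ ha hb hπ h4 hne hlev hz hd h2.le hy2
      exact hev (by rw [dist_zero_right]; exact hxn.trans_lt h1) hx0 hxQ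
    have han : AnalyticOnNhd ℂ (fun x => Q (x, y)) (ball (0 : ℂ) 2) := by
      intro x hx
      have h1 : AnalyticAt ℂ (fun x : ℂ => (x, y)) x := analyticAt_id.prod analyticAt_const
      exact AnalyticAt.fun_comp (hQ (x, y) (hmem x y (mem_ball_zero_iff.1 hx) hy2)) h1
    exact han.eqOn_zero_of_preconnected_of_frequently_eq_zero (convex_ball (0 : ℂ) 2).isPreconnected (mem_ball_self two_pos) hfr
      (mem_ball_zero_iff.2 hx)
  apply h0
  filter_upwards [ball_mem_nhds (0 : ℂ × ℂ) two_pos] with p hp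
  rw [mem_ball_zero_iff, Prod.norm_def, max_lt_iff] at hp
  by_cases hy : p.2 = 0
  · have h1 : ContinuousAt (fun y : ℂ => Q (p.1, y)) 0 := by
      have h2 : AnalyticAt ℂ (fun y : ℂ => (p.1, y)) 0 := analyticAt_const.prod analyticAt_id
      exact (AnalyticAt.fun_comp (hQ (p.1, 0) (hmem p.1 0 hp.1 (by simp))) h2).continuousAt
    have h2 : Tendsto (fun y : ℂ => Q (p.1, y)) (𝓝[≠] 0) (𝓝 (Q (p.1, 0))) := h1.tendsto.mono_left nhdsWithin_le_nhds
    have h3 : Tendsto (fun y : ℂ => Q (p.1, y)) (𝓝[≠] 0) (𝓝 0) := by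
      refine tendsto_const_nhds.congr' ?_
      rw [EventuallyEq, eventually_nhdsWithin_iff]
      filter_upwards [ball_mem_nhds (0 : ℂ) two_pos] with y hy2 hy0
      exact (key y (mem_ball_zero_iff.1 hy2) hy0 p.1 hp.1).symm
    have h4 := tendsto_nhds_unique h2 h3
    rw [show p = (p.1, p.2) from rfl, hy]
    exact h4
  · exact key p.2 hp.2 hy p.1 hp.1

theorem level_set {Q : ℂ × ℂ → ℂ} (hQ : ∀ p ∈ ball (0 : ℂ × ℂ) 2, AnalyticAt ℂ Q p) (h0 : ¬ ∀ᶠ p in 𝓝 (0 : ℂ × ℂ), Q p = 0) {a b : ℕ}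
    (hab : 1 ≤ a + b) : ∃ δ : ℝ, 0 < δ ∧ ∀ π : ℂ → ℂ × ℂ, AnalyticAt ℂ π 0 → π 0 ∈ ball (0 : ℂ × ℂ) δ → (π 0).1 ^ a * (π 0).2 ^ b ≠ 0 →
      (∀ᶠ z in 𝓝 (0 : ℂ), (π z).1 ^ a * (π z).2 ^ b = (π 0).1 ^ a * (π 0).2 ^ b) → (∀ᶠ z in 𝓝 (0 : ℂ), Q (π z) = 0) → deriv π 0 = 0 := by
  rcases Nat.eq_zero_or_pos a with ha | ha
  · have hb : 1 ≤ b := by omega
    have hsw : ∀ p : ℂ × ℂ, AnalyticAt ℂ (fun p : ℂ × ℂ => p.swap) p := fun p => analyticAt_snd.prod analyticAt_fst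
    have hnorm : ∀ p : ℂ × ℂ, ‖p.swap‖ = ‖p‖ := fun p => by
      rw [Prod.norm_def, Prod.norm_def, Prod.fst_swap, Prod.snd_swap, max_comm]
    have hQ' : ∀ p ∈ ball (0 : ℂ × ℂ) 2, AnalyticAt ℂ (fun p : ℂ × ℂ => Q p.swap) p := by
      intro p hp
      refine AnalyticAt.fun_comp (g := Q) (f := fun p : ℂ × ℂ => p.swap) (hQ _ ?_) (hsw p)
      rw [mem_ball_zero_iff, hnorm]
      exact mem_ball_zero_iff.1 hp
    have h0' : ¬ ∀ᶠ p in 𝓝 (0 : ℂ × ℂ), Q p.swap = 0 := by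
      intro h
      apply h0
      have h1 : Tendsto (fun p : ℂ × ℂ => p.swap) (𝓝 0) (𝓝 0) := by
        have h2 := (hsw 0).continuousAt.tendsto
        exact h2
      have h2 := h1.eventually h
      filter_upwards [h2] with p hp
      rwa [Prod.swap_swap] at hp
    obtain ⟨δ, hδ, h⟩ := HyLvl_fst (b := a) hQ' h0' hb
    refine ⟨δ, hδ, fun π hπ hπδ hne hlev hz => ?_⟩
    have hd := h (fun z => (π z).swap) (AnalyticAt.fun_comp (hsw _) hπ) (by
      rw [mem_ball_zero_iff] at hπδ ⊢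
      rwa [hnorm]) (by
      simp only [Prod.fst_swap, Prod.snd_swap]
      rwa [mul_comm]) (by
      filter_upwards [hlev] with z hz
      simp only [Prod.fst_swap, Prod.snd_swap]
      rw [mul_comm, hz, mul_comm]) (by
      filter_upwards [hz] with z hz
      rwa [Prod.swap_swap])
    have h1 : HasDerivAt (fun z => ((π z).swap).swap) ((deriv (fun z => (π z).swap) 0).swap) 0 := by
      have h2 : DifferentiableAt ℂ (fun z => (π z).swap) 0 := (AnalyticAt.fun_comp (hsw _) hπ).differentiableAt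
      have h3 : HasFDerivAt (fun p : ℂ × ℂ => p.swap) ((ContinuousLinearEquiv.prodComm ℂ ℂ ℂ : (ℂ × ℂ) →L[ℂ] (ℂ × ℂ))) ((π 0).swap) :=
        (ContinuousLinearEquiv.prodComm ℂ ℂ ℂ : (ℂ × ℂ) →L[ℂ] (ℂ × ℂ)).hasFDerivAt
      exact h3.comp_hasDerivAt 0 h2.hasDerivAt
    simp only [Prod.swap_swap] at h1
    have h2 : deriv π 0 = (deriv (fun z => (π z).swap) 0).swap := h1.deriv
    rw [h2, hd]
    rfl
  · exact HyLvl_fst hQ h0 ha

end Pool.Agent.EG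

end

section

/-!
# H17N GermC: critical points and level curves near a point

`g` is the germ of an analytic function on `ℂ²` with `g 0 = 0`.

* `crit_near`: near `0` all critical points of `g` are zeros of `g`.  If `g` vanishes identically near `0` this is trivial.  Otherwise there is `n` with
  `ResN n g` (`exists_resN`, H17BP/Art); induction on `n`.
  - `Mono g`: `g x = S x ^ a * T x ^ b * v x`, `S, T` local coordinates, `v 0 ≠ 0`.  `θ = (S, T)` is biholomorphic, so with `θ'` its inverse germ (`Bihol.exists_inv`) it is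
    enough to treat `g ∘ θ'`, that is `G p = p.1 ^ a * p.2 ^ b * w p`, `w 0 ≠ 0`: if `p.1, p.2 ≠ 0` (they are `≠ 0` when the exponent is `≠ 0` and `G p ≠ 0`) and, say, `a ≥ 1`:
    `∂₁ G (p) * p.1 = p.1 ^ a * p.2 ^ b * (a * w p + p.1 * ∂₁ w p)`, and `a * w p + p.1 ∂₁ w p → a * w 0 ≠ 0`.  `a = b = 0` is excluded by `g 0 = 0`.
  - step: suppose `ResN n (g ∘ β)` for all `BChart β`.  If the statement is false there is an ultrafilter `U ≤ 𝓝 0` with `g p ≠ 0`, `fderiv ℂ g p = 0` for `U`-almost all `p`.  `p ≠ 0`.  As in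
    the private lemmas `FinG_key1`, `FinG_key2`, `FinG_lim` of H17BP/FinG.lean: either `p.2 / p.1 → c` along `U` and `p.1 ≠ 0`: then `p = bl c (p.1, p.2 / p.1 - c)`, and the point
    `(p.1, p.2 / p.1 - c)` tends to `0`; `(g ∘ bl c)` is `≠ 0` there and its derivative is `fderiv g p ∘ ... = 0`: contradiction to the induction hypothesis for `g ∘ bl c`
    (`BChart (bl c)`; a proof that `bl c` and `blInf` are `BChart`s is in H17BP); or the same with `blInf` (`p.1 / p.2 → 0`, `p.2 ≠ 0`).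
* `level_near`: the same induction; `Q` is composed with `bl c`, `blInf` (it does not vanish identically after the blow-up: compare the private lemma `BlowM_van` of H17BP/BlowM.lean), the curve
  `π` is replaced by `z ↦ ((π z).1, (π z).2 / (π z).1 - c)`, which is analytic at `0` because `(π 0).1 ≠ 0`, and its derivative vanishes only if `deriv π 0 = 0`.
  `Mono g`: after the change of coordinates by `θ'`, and the unit absorbed in one coordinate (`v = k ^ a` near `0`, if `a ≥ 1`: `(S * k, T)` are coordinates), `g` is `p.1 ^ a * p.2 ^ b` and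
  this is `EG.level_set` (for the function `Q` on a small ball; scale the ball to radius `2`).  It is convenient to prove the invariance of the two statements under `Bihol` first.
-/

set_option autoImplicit false

open Topology Filter Metric

namespace Pool.Agent.H17N

attribute [-instance] ProperSMul.toContinuousSMul

open Pool.Agent.H17BP (Bihol Coord Mono bl blInf BChart ResN exists_resN)

/-- `β` has an analytic right inverse at `β p` with value `p`. -/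
private def GermC_Rt (β : ℂ × ℂ → ℂ × ℂ) (p : ℂ × ℂ) : Prop :=
  ∃ γ : ℂ × ℂ → ℂ × ℂ, AnalyticAt ℂ γ (β p) ∧ γ (β p) = p ∧ ∀ᶠ q in 𝓝 (β p), β (γ q) = q

/-- the two properties at the point `p` -/
private def GermC_Gd (g Q : ℂ × ℂ → ℂ) (p : ℂ × ℂ) : Prop :=
  (g p ≠ 0 → fderiv ℂ g p ≠ 0) ∧
  ∀ π : ℂ → ℂ × ℂ, AnalyticAt ℂ π 0 → π 0 = p → g p ≠ 0 → (∀ᶠ z in 𝓝 (0 : ℂ), g (π z) = g p) →
    (∀ᶠ z in 𝓝 (0 : ℂ), Q (π z) = 0) → deriv π 0 = 0

private theorem GermC_push {g Q : ℂ × ℂ → ℂ} {β : ℂ × ℂ → ℂ × ℂ} {p : ℂ × ℂ} (hβ : AnalyticAt ℂ β p)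
    (hg : AnalyticAt ℂ g (β p)) (hr : GermC_Rt β p) (h : GermC_Gd (g ∘ β) (Q ∘ β) p) : GermC_Gd g Q (β p) := by
  obtain ⟨γ, h1, h2, h3⟩ := hr
  refine ⟨fun h4 h5 => h.1 h4 ?_, fun π hπ hp h4 h5 h6 => ?_⟩
  · rw [fderiv_comp p hg.differentiableAt hβ.differentiableAt, h5, ContinuousLinearMap.zero_comp]
  · have h7 : AnalyticAt ℂ (fun z => γ (π z)) 0 := AnalyticAt.fun_comp (by rw [hp]; exact h1) hπ
    have h8 : ∀ᶠ z in 𝓝 (0 : ℂ), β (γ (π z)) = π z := by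
      have h9 : Tendsto π (𝓝 0) (𝓝 (β p)) := by
        have h10 := hπ.continuousAt.tendsto
        rwa [hp] at h10
      exact h9.eventually h3
    have h9 : deriv (fun z => γ (π z)) 0 = 0 := by
      refine h.2 _ h7 ?_ h4 ?_ ?_
      · simp only [hp, h2]
      · filter_upwards [h5, h8] with z a b
        simp only [Function.comp_apply, b, a]
      · filter_upwards [h6, h8] with z a b
        simp only [Function.comp_apply, b, a]
    have h10 : deriv π 0 = deriv (fun z => β (γ (π z))) 0 :=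
      Filter.EventuallyEq.deriv_eq (h8.mono fun z hz => hz.symm)
    rw [h10]
    have h11 : HasDerivAt (fun z => γ (π z)) 0 0 := by
      have h12 := h7.differentiableAt.hasDerivAt
      rwa [h9] at h12
    have h12 : HasFDerivAt β (fderiv ℂ β p) (γ (π 0)) := by
      rw [hp, h2]
      exact hβ.differentiableAt.hasFDerivAt
    have h13 := (h12.comp_hasDerivAt 0 h11).deriv
    rw [map_zero] at h13
    exact h13

private theorem GermC_congr {g g₁ Q : ℂ × ℂ → ℂ} {p : ℂ × ℂ} (he : ∀ᶠ x in 𝓝 p, g₁ x = g x)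
    (h : GermC_Gd g Q p) : GermC_Gd g₁ Q p := by
  have h0 : g₁ p = g p := he.self_of_nhds
  refine ⟨fun h4 => ?_, fun π hπ hp h4 h5 h6 => ?_⟩
  · rw [Filter.EventuallyEq.fderiv_eq he]
    exact h.1 (by rwa [h0] at h4)
  · refine h.2 π hπ hp (by rwa [h0] at h4) ?_ h6
    have h9 : Tendsto π (𝓝 0) (𝓝 p) := by
      have h10 := hπ.continuousAt.tendsto
      rwa [hp] at h10
    filter_upwards [h5, h9.eventually he] with z a b
    rw [← b, a, h0]

private theorem GermC_congr_near {g g₁ Q : ℂ × ℂ → ℂ} (he : ∀ᶠ x in 𝓝 (0 : ℂ × ℂ), g₁ x = g x)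
    (h : ∀ᶠ p in 𝓝 (0 : ℂ × ℂ), GermC_Gd g Q p) : ∀ᶠ p in 𝓝 (0 : ℂ × ℂ), GermC_Gd g₁ Q p := by
  filter_upwards [he.eventually_nhds, h] with p h1 h2
  exact GermC_congr h1 h2

private theorem GermC_bihol {g Q : ℂ × ℂ → ℂ} {θ : ℂ × ℂ → ℂ × ℂ} (hθ : Bihol θ) (hg : AnalyticAt ℂ g 0)
    (h : ∀ᶠ p in 𝓝 (0 : ℂ × ℂ), GermC_Gd (g ∘ θ) (Q ∘ θ) p) : ∀ᶠ p in 𝓝 (0 : ℂ × ℂ), GermC_Gd g Q p := by
  obtain ⟨θ', h1, h2, h3⟩ := hθ.exists_inv
  filter_upwards [h3.eventually_nhds, h1.tendsto.eventually h, h1.tendsto.eventually hθ.an.eventually_analyticAt,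
    hg.eventually_analyticAt, h1.an.eventually_analyticAt] with q a1 a2 a3 a4 a5
  have e : θ (θ' q) = q := a1.self_of_nhds
  have h4 := GermC_push (g := g) (Q := Q) a3 (by rw [e]; exact a4)
    ⟨θ', by rw [e]; exact a5, by rw [e], by rw [e]; exact a1⟩ a2
  rwa [e] at h4

/-- a non-zero germ does not vanish identically after the composition with `β` -/
private theorem GermC_van {Q : ℂ × ℂ → ℂ} {β : ℂ × ℂ → ℂ × ℂ} (hQ : AnalyticAt ℂ Q 0) (hβ : AnalyticAt ℂ β 0)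
    (hβ0 : β 0 = 0) (hr : ∃ᶠ p in 𝓝 (0 : ℂ × ℂ), GermC_Rt β p) (h : ∀ᶠ p in 𝓝 (0 : ℂ × ℂ), (Q ∘ β) p = 0) :
    ∀ᶠ p in 𝓝 (0 : ℂ × ℂ), Q p = 0 := by
  obtain ⟨r, hr0, hQr⟩ := hQ.exists_ball_analyticOnNhd
  have ht : Tendsto β (𝓝 0) (𝓝 0) := by
    have h1 := hβ.continuousAt.tendsto
    rwa [hβ0] at h1
  obtain ⟨p, ⟨γ, h1, h2, h3⟩, h4, h5⟩ :=
    (hr.and_eventually (h.eventually_nhds.and (ht.eventually (Metric.ball_mem_nhds 0 hr0)))).exists
  have h6 : Tendsto γ (𝓝 (β p)) (𝓝 p) := by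
    have h7 := h1.continuousAt.tendsto
    rwa [h2] at h7
  have h7 : Q =ᶠ[𝓝 (β p)] 0 := by
    filter_upwards [h3, h6.eventually h4] with q a b
    simp only [Function.comp_apply, a] at b
    exact b
  have h8 := hQr.eqOn_zero_of_preconnected_of_eventuallyEq_zero
    (convex_ball (0 : ℂ × ℂ) r).isPreconnected h5 h7
  filter_upwards [Metric.ball_mem_nhds (0 : ℂ × ℂ) hr0] with q hq
  exact h8 hq

private theorem GermC_rt_bl (c : ℂ) {p : ℂ × ℂ} (hp : p.1 ≠ 0) : GermC_Rt (bl c) p := by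
  have h0 : (bl c p).1 ≠ 0 := hp
  refine ⟨fun q => (q.1, q.2 / q.1 - c), ?_, ?_, ?_⟩
  · exact analyticAt_fst.prod ((analyticAt_snd.div analyticAt_fst h0).sub analyticAt_const)
  · unfold Pool.Agent.H17BP.bl
    ext
    · rfl
    · simp only
      field_simp
      ring
  · have h1 : ∀ᶠ q : ℂ × ℂ in 𝓝 (bl c p), q.1 ≠ 0 := continuousAt_fst.eventually_ne h0
    filter_upwards [h1] with q hq
    unfold Pool.Agent.H17BP.bl
    ext
    · rfl
    · simp only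
      field_simp
      ring

private theorem GermC_rt_blInf {p : ℂ × ℂ} (hp : p.2 ≠ 0) : GermC_Rt blInf p := by
  have h0 : (blInf p).2 ≠ 0 := hp
  refine ⟨fun q => (q.1 / q.2, q.2), ?_, ?_, ?_⟩
  · exact (analyticAt_fst.div analyticAt_snd h0).prod analyticAt_snd
  · unfold Pool.Agent.H17BP.blInf
    ext
    · simp only
      field_simp
    · rfl
  · have h1 : ∀ᶠ q : ℂ × ℂ in 𝓝 (blInf p), q.2 ≠ 0 := continuousAt_snd.eventually_ne h0
    filter_upwards [h1] with q hq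
    unfold Pool.Agent.H17BP.blInf
    ext
    · simp only
      field_simp
    · rfl

/-- bounded functions converge along an ultrafilter -/
private theorem GermC_lim {U : Ultrafilter (ℂ × ℂ)} {f : ℂ × ℂ → ℂ}
    (h : ∀ᶠ p in (U : Filter (ℂ × ℂ)), ‖f p‖ ≤ 1) : ∃ c : ℂ, Tendsto f U (𝓝 c) := by
  have h1 : ((U.map f : Ultrafilter ℂ) : Filter ℂ) ≤ 𝓟 (Metric.closedBall (0 : ℂ) 1) := by
    rw [Filter.le_principal_iff, Ultrafilter.coe_map, Filter.mem_map]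
    filter_upwards [h] with p hp
    simpa using hp
  obtain ⟨c, -, hc⟩ := (isCompact_closedBall (0 : ℂ) 1).ultrafilter_le_nhds (U.map f) h1
  exact ⟨c, hc⟩

private theorem GermC_key1 {P : ℂ × ℂ → Prop} {U : Ultrafilter (ℂ × ℂ)} (hU0 : (U : Filter (ℂ × ℂ)) ≤ 𝓝 0)
    (hbad : ∀ᶠ p in (U : Filter (ℂ × ℂ)), ¬ P p) {c : ℂ}
    (hc : Tendsto (fun p : ℂ × ℂ => p.2 / p.1) U (𝓝 c)) (h1 : ∀ᶠ p in (U : Filter (ℂ × ℂ)), p.1 ≠ 0)
    (hih : ∀ᶠ p in 𝓝 (0 : ℂ × ℂ), p.1 ≠ 0 → P (bl c p)) : False := by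
  have ht1 : Tendsto (fun p : ℂ × ℂ => p.1) U (𝓝 0) := by
    have h2 : Tendsto (fun p : ℂ × ℂ => p.1) (𝓝 0) (𝓝 (0 : ℂ × ℂ).1) := continuous_fst.tendsto 0
    exact h2.mono_left hU0
  have ht2 : Tendsto (fun p : ℂ × ℂ => p.2 / p.1 - c) U (𝓝 0) := by
    have h2 := hc.sub_const c
    rwa [sub_self] at h2
  have ht : Tendsto (fun p : ℂ × ℂ => (p.1, p.2 / p.1 - c)) U (𝓝 0) := ht1.prodMk_nhds ht2
  obtain ⟨p, hp1, hp2, hp3⟩ := ((ht.eventually hih).and (h1.and hbad)).exists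
  apply hp3
  have h4 : bl c (p.1, p.2 / p.1 - c) = p := by
    unfold Pool.Agent.H17BP.bl
    ext
    · rfl
    · simp only
      field_simp
      ring
  have h5 := hp1 hp2
  rwa [h4] at h5

private theorem GermC_key2 {P : ℂ × ℂ → Prop} {U : Ultrafilter (ℂ × ℂ)} (hU0 : (U : Filter (ℂ × ℂ)) ≤ 𝓝 0)
    (hbad : ∀ᶠ p in (U : Filter (ℂ × ℂ)), ¬ P p)
    (hc : Tendsto (fun p : ℂ × ℂ => p.1 / p.2) U (𝓝 0)) (h1 : ∀ᶠ p in (U : Filter (ℂ × ℂ)), p.2 ≠ 0)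
    (hih : ∀ᶠ p in 𝓝 (0 : ℂ × ℂ), p.2 ≠ 0 → P (blInf p)) : False := by
  have ht1 : Tendsto (fun p : ℂ × ℂ => p.2) U (𝓝 0) := by
    have h2 : Tendsto (fun p : ℂ × ℂ => p.2) (𝓝 0) (𝓝 (0 : ℂ × ℂ).2) := continuous_snd.tendsto 0
    exact h2.mono_left hU0
  have ht : Tendsto (fun p : ℂ × ℂ => (p.1 / p.2, p.2)) U (𝓝 0) := hc.prodMk_nhds ht1
  obtain ⟨p, hp1, hp2, hp3⟩ := ((ht.eventually hih).and (h1.and hbad)).exists
  apply hp3
  have h4 : blInf (p.1 / p.2, p.2) = p := by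
    unfold Pool.Agent.H17BP.blInf
    ext
    · simp only
      field_simp
    · rfl
  have h5 := hp1 hp2
  rwa [h4] at h5

/-- the charts of the blow-up cover a punctured neighbourhood of `0` -/
private theorem GermC_cover {P : ℂ × ℂ → Prop} (h : ∀ c, ∀ᶠ p in 𝓝 (0 : ℂ × ℂ), p.1 ≠ 0 → P (bl c p))
    (h' : ∀ᶠ p in 𝓝 (0 : ℂ × ℂ), p.2 ≠ 0 → P (blInf p)) : ∀ᶠ p in 𝓝[≠] (0 : ℂ × ℂ), P p := by
  by_contra hne
  have hf : ∃ᶠ p in 𝓝[≠] (0 : ℂ × ℂ), ¬ P p := Filter.not_eventually.mp hne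
  have hnb := Filter.frequently_iff_neBot.mp hf
  obtain ⟨U, hU⟩ := Ultrafilter.exists_le (𝓝[≠] (0 : ℂ × ℂ) ⊓ 𝓟 {p | ¬ P p})
  have hU1 : (U : Filter (ℂ × ℂ)) ≤ 𝓝[≠] 0 := hU.trans inf_le_left
  have hU0 : (U : Filter (ℂ × ℂ)) ≤ 𝓝 0 := hU1.trans nhdsWithin_le_nhds
  have hbad : ∀ᶠ p in (U : Filter (ℂ × ℂ)), ¬ P p := Filter.le_principal_iff.mp (hU.trans inf_le_right)
  have hne0 : ∀ᶠ p in (U : Filter (ℂ × ℂ)), p ≠ 0 := by
    have h1 : ∀ᶠ p in 𝓝[≠] (0 : ℂ × ℂ), p ≠ 0 := eventually_mem_nhdsWithin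
    exact h1.filter_mono hU1
  rcases U.em (fun p => ‖p.2‖ ≤ ‖p.1‖) with h1 | h1
  · have h2 : ∀ᶠ p in (U : Filter (ℂ × ℂ)), p.1 ≠ 0 := by
      filter_upwards [h1, hne0] with p hp1 hp2 h0
      apply hp2
      rw [h0, norm_zero] at hp1
      exact Prod.ext h0 (norm_le_zero_iff.mp hp1)
    obtain ⟨c, hc⟩ := GermC_lim (U := U) (f := fun p => p.2 / p.1) (by
      filter_upwards [h1] with p hp
      rw [norm_div]
      exact div_le_one_of_le₀ hp (norm_nonneg _))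
    exact GermC_key1 hU0 hbad hc h2 (h c)
  · have h2 : ∀ᶠ p in (U : Filter (ℂ × ℂ)), p.2 ≠ 0 := by
      filter_upwards [h1] with p hp1 h0
      apply hp1
      rw [h0, norm_zero]
      exact norm_nonneg _
    obtain ⟨c, hc⟩ := GermC_lim (U := U) (f := fun p => p.1 / p.2) (by
      filter_upwards [h1] with p hp
      rw [norm_div]
      exact div_le_one_of_le₀ (not_le.mp hp).le (norm_nonneg _))
    by_cases hc0 : c = 0
    · rw [hc0] at hc
      exact GermC_key2 hU0 hbad hc h2 h'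
    · have h3 : ∀ᶠ p in (U : Filter (ℂ × ℂ)), p.1 ≠ 0 := by
        filter_upwards [hc.eventually_ne hc0] with p hp h0
        apply hp
        rw [h0, zero_div]
      have h4 : Tendsto (fun p : ℂ × ℂ => p.2 / p.1) U (𝓝 c⁻¹) := by
        have h5 := hc.inv₀ hc0
        refine h5.congr ?_
        intro p
        rw [inv_div]
      exact GermC_key1 hU0 hbad h4 h3 (h c⁻¹)

/-- an `a`-th root of a unit -/
private theorem GermC_root {v : ℂ × ℂ → ℂ} (hv : AnalyticAt ℂ v 0) (hv0 : v 0 ≠ 0) {a : ℕ} (ha : 0 < a) :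
    ∃ k : ℂ × ℂ → ℂ, AnalyticAt ℂ k 0 ∧ k 0 ≠ 0 ∧ ∀ᶠ x in 𝓝 (0 : ℂ × ℂ), k x ^ a = v x := by
  obtain ⟨c, hc⟩ := IsAlgClosed.exists_pow_nat_eq (v 0) ha
  have hc0 : c ≠ 0 := by
    intro h
    rw [h, zero_pow ha.ne'] at hc
    exact hv0 hc.symm
  have ha0 : (a : ℂ) ≠ 0 := by exact_mod_cast ha.ne'
  refine ⟨fun x => c * Complex.exp (Complex.log (v x / v 0) / a), ?_, ?_, ?_⟩
  · refine analyticAt_const.mul (AnalyticAt.cexp (AnalyticAt.div (AnalyticAt.clog (hv.div analyticAt_const hv0) ?_)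
      analyticAt_const ha0))
    rw [div_self hv0]
    exact Complex.one_mem_slitPlane
  · exact mul_ne_zero hc0 (Complex.exp_ne_zero _)
  · filter_upwards [hv.continuousAt.eventually_ne hv0] with x hx
    rw [mul_pow, hc, ← Complex.exp_nat_mul, mul_div_cancel₀ _ ha0, Complex.exp_log (div_ne_zero hx hv0)]
    field_simp

/-- the first coordinate can be multiplied by a unit -/
private theorem GermC_coord {S T k : ℂ × ℂ → ℂ} (h : Coord S T) (hk : AnalyticAt ℂ k 0) (hk0 : k 0 ≠ 0) :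
    Coord (fun x => S x * k x) T := by
  obtain ⟨hS, hT, hS0, hT0⟩ := h.parts
  have h1 := (Pool.Agent.H17BP.coord_iff hS hT hS0 hT0).1 h
  have hSk : AnalyticAt ℂ (fun x => S x * k x) 0 := hS.mul hk
  refine (Pool.Agent.H17BP.coord_iff hSk hT (by simp only [hS0, zero_mul]) hT0).2 ?_
  have h2 : fderiv ℂ (fun x => S x * k x) 0 = k 0 • fderiv ℂ S 0 := by
    have h3 : fderiv ℂ (fun x => S x * k x) 0 = S 0 • fderiv ℂ k 0 + k 0 • fderiv ℂ S 0 :=
      (hS.differentiableAt.hasFDerivAt.mul hk.differentiableAt.hasFDerivAt).fderiv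
    rw [h3, hS0]
    ext <;> simp
  unfold Pool.Agent.H17BP.dx Pool.Agent.H17BP.dy at h1 ⊢
  rw [h2]
  intro h4
  apply h1
  apply mul_left_cancel₀ hk0
  rw [mul_zero]
  refine Eq.trans ?_ h4
  simp only [_root_.smul_apply, smul_eq_mul]
  ring

/-- a germ with `Mono` is a monomial in suitable coordinates -/
private theorem GermC_mono {g : ℂ × ℂ → ℂ} (h : Mono g) (h0 : g 0 = 0) : ∃ (θ : ℂ × ℂ → ℂ × ℂ) (a b : ℕ),
    Bihol θ ∧ 1 ≤ a + b ∧ ∀ᶠ p in 𝓝 (0 : ℂ × ℂ), (g ∘ θ) p = p.1 ^ a * p.2 ^ b := by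
  have key : ∀ (S T : ℂ × ℂ → ℂ) (a b : ℕ), Coord S T → 1 ≤ a + b →
      (∀ᶠ x in 𝓝 (0 : ℂ × ℂ), g x = S x ^ a * T x ^ b) → ∃ (θ : ℂ × ℂ → ℂ × ℂ) (a b : ℕ),
      Bihol θ ∧ 1 ≤ a + b ∧ ∀ᶠ p in 𝓝 (0 : ℂ × ℂ), (g ∘ θ) p = p.1 ^ a * p.2 ^ b := by
    intro S T a b hc hab he
    obtain ⟨θ, h1, h2, h3⟩ := Bihol.exists_inv hc
    refine ⟨θ, a, b, h1, hab, ?_⟩
    filter_upwards [h1.tendsto.eventually he, h3] with p a1 a2
    have a3 : S (θ p) = p.1 := congrArg Prod.fst a2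
    have a4 : T (θ p) = p.2 := congrArg Prod.snd a2
    simp only [Function.comp_apply]
    rw [a1, a3, a4]
  obtain ⟨S, T, a, b, v, h1, h2, h3, h4⟩ := h
  obtain ⟨hS, hT, hS0, hT0⟩ := h1.parts
  rcases Nat.eq_zero_or_pos a with ha | ha
  · rcases Nat.eq_zero_or_pos b with hb | hb
    · exfalso
      have h5 := h4.self_of_nhds
      rw [h0, ha, hb] at h5
      simp only [pow_zero, one_mul] at h5
      exact h3 h5.symm
    · obtain ⟨k, k1, k2, k3⟩ := GermC_root h2 h3 hb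
      refine key (fun x => T x * k x) S b a (GermC_coord h1.symm k1 k2) (by omega) ?_
      filter_upwards [h4, k3] with x a1 a2
      rw [a1, ← a2, mul_pow]
      ring
  · obtain ⟨k, k1, k2, k3⟩ := GermC_root h2 h3 ha
    refine key (fun x => S x * k x) T a b (GermC_coord h1 k1 k2) (by omega) ?_
    filter_upwards [h4, k3] with x a1 a2
    rw [a1, ← a2, mul_pow]
    ring

private theorem GermC_monomial {Q : ℂ × ℂ → ℂ} (hQ : AnalyticAt ℂ Q 0) (hQ0 : ¬ ∀ᶠ p in 𝓝 (0 : ℂ × ℂ), Q p = 0) {a b : ℕ}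
    (hab : 1 ≤ a + b) : ∀ᶠ p in 𝓝 (0 : ℂ × ℂ), GermC_Gd (fun p => p.1 ^ a * p.2 ^ b) Q p := by
  obtain ⟨r, hr, hQr⟩ := hQ.exists_ball_analyticOnNhd
  set s : ℂ := ((r / 2 : ℝ) : ℂ) with hs
  have hs0 : s ≠ 0 := by
    rw [hs]
    exact_mod_cast (by positivity : (r / 2 : ℝ) ≠ 0)
  have hsn : ‖s‖ = r / 2 := by
    rw [hs, Complex.norm_real, Real.norm_of_nonneg (by positivity)]
  have hsa : ∀ p : ℂ × ℂ, AnalyticAt ℂ (fun p : ℂ × ℂ => s • p) p := fun p =>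
    AnalyticAt.smul (f := fun _ : ℂ × ℂ => s) (g := fun p : ℂ × ℂ => p) analyticAt_const analyticAt_id
  obtain ⟨δ, hδ, h⟩ := Pool.Agent.EG.level_set (Q := fun p => Q (s • p)) (a := a) (b := b) (by
      intro p hp
      refine AnalyticAt.fun_comp (g := Q) (f := fun p : ℂ × ℂ => s • p) (hQr _ ?_) (hsa p)
      rw [mem_ball_zero_iff] at hp ⊢
      rw [norm_smul, hsn]
      have h1 : r / 2 * ‖p‖ < r / 2 * 2 := mul_lt_mul_of_pos_left hp (by positivity)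
      linarith) (by
      intro h1
      apply hQ0
      have h2 : Tendsto (fun p : ℂ × ℂ => s⁻¹ • p) (𝓝 0) (𝓝 0) := by
        have h3 : Continuous (fun p : ℂ × ℂ => s⁻¹ • p) := by fun_prop
        have h4 := h3.tendsto 0
        rwa [smul_zero] at h4
      filter_upwards [h2.eventually h1] with p hp
      rwa [smul_smul, mul_inv_cancel₀ hs0, one_smul] at hp) hab
  have hball : ball (0 : ℂ × ℂ) (r / 2 * δ) ∈ 𝓝 (0 : ℂ × ℂ) := ball_mem_nhds _ (by positivity)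
  filter_upwards [hball] with p hp
  refine ⟨fun h4 h5 => ?_, fun π hπ hp0 h4 h5 h6 => ?_⟩
  · have h6 : HasDerivAt (fun t : ℂ => (t * p.1) ^ a * (t * p.2) ^ b) (((a + b : ℕ) : ℂ) * (p.1 ^ a * p.2 ^ b)) 1 := by
      have h7 : (fun t : ℂ => (t * p.1) ^ a * (t * p.2) ^ b) = fun t : ℂ => t ^ (a + b) * (p.1 ^ a * p.2 ^ b) := by
        funext t
        rw [mul_pow, mul_pow, pow_add]
        ring
      rw [h7]
      have h8 := (hasDerivAt_pow (a + b) (1 : ℂ)).mul_const (p.1 ^ a * p.2 ^ b)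
      rw [one_pow, mul_one] at h8
      exact h8
    have h7 : HasDerivAt (fun t : ℂ => (t * p.1) ^ a * (t * p.2) ^ b) 0 1 := by
      have h8 : DifferentiableAt ℂ (fun p : ℂ × ℂ => p.1 ^ a * p.2 ^ b) ((1 : ℂ) • p) := by fun_prop
      have h9 : HasDerivAt (fun t : ℂ => t • p) p 1 := by
        have h10 := (hasDerivAt_id (1 : ℂ)).smul_const p
        rwa [one_smul] at h10
      have h10 := h8.hasFDerivAt.comp_hasDerivAt (1 : ℂ) h9
      rw [one_smul, h5] at h10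
      exact h10
    have h8 := h6.unique h7
    rcases mul_eq_zero.1 h8 with h9 | h9
    · have h10 : a + b = 0 := by exact_mod_cast h9
      omega
    · exact h4 h9
  · have h7 : deriv (fun z => s⁻¹ • π z) 0 = 0 := by
      have hm : ∀ q : ℂ × ℂ, (s⁻¹ • q).1 ^ a * (s⁻¹ • q).2 ^ b = s⁻¹ ^ (a + b) * (q.1 ^ a * q.2 ^ b) := by
        intro q
        simp only [Prod.smul_fst, Prod.smul_snd, smul_eq_mul, mul_pow, pow_add]
        ring
      refine h (fun z => s⁻¹ • π z) (AnalyticAt.smul (f := fun _ : ℂ => s⁻¹) (g := π) analyticAt_const hπ) ?_ ?_ ?_ ?_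
      · rw [mem_ball_zero_iff] at hp ⊢
        rw [norm_smul, hp0, norm_inv, hsn, inv_mul_lt_iff₀ (by positivity)]
        exact hp
      · rw [hm, hp0]
        exact mul_ne_zero (pow_ne_zero _ (inv_ne_zero hs0)) h4
      · filter_upwards [h5] with z hz
        rw [hm, hm, hz, hp0]
      · filter_upwards [h6] with z hz
        rwa [smul_smul, mul_inv_cancel₀ hs0, one_smul]
    have h8 : HasDerivAt (fun z => s⁻¹ • π z) (s⁻¹ • deriv π 0) 0 := hπ.differentiableAt.hasDerivAt.const_smul s⁻¹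
    rw [h8.deriv] at h7
    exact (smul_eq_zero.1 h7).resolve_left (inv_ne_zero hs0)

private theorem GermC_main (n : ℕ) : ∀ {g Q : ℂ × ℂ → ℂ}, ResN n g → AnalyticAt ℂ g 0 → g 0 = 0 → AnalyticAt ℂ Q 0 →
    (¬ ∀ᶠ p in 𝓝 (0 : ℂ × ℂ), Q p = 0) → ∀ᶠ p in 𝓝 (0 : ℂ × ℂ), GermC_Gd g Q p := by
  have hmono : ∀ {g Q : ℂ × ℂ → ℂ}, Mono g → AnalyticAt ℂ g 0 → g 0 = 0 → AnalyticAt ℂ Q 0 →
      (¬ ∀ᶠ p in 𝓝 (0 : ℂ × ℂ), Q p = 0) → ∀ᶠ p in 𝓝 (0 : ℂ × ℂ), GermC_Gd g Q p := by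
    intro g Q hm hg h0 hQ hQ0
    obtain ⟨θ, a, b, h1, h2, h3⟩ := GermC_mono hm h0
    refine GermC_bihol h1 hg (GermC_congr_near h3 (GermC_monomial ?_ ?_ h2))
    · have h4 : AnalyticAt ℂ Q (θ 0) := by rw [h1.zero]; exact hQ
      exact h4.comp h1.an
    · intro h4
      apply hQ0
      obtain ⟨θ', h5, h6, h7⟩ := h1.exists_inv
      filter_upwards [h5.tendsto.eventually h4, h7] with p a1 a2
      simp only [Function.comp_apply] at a1
      rwa [a2] at a1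
  induction n with
  | zero => intro g Q h; exact hmono h
  | succ n ih =>
    intro g Q h hg h0 hQ hQ0
    rcases h with h | h
    · exact hmono h hg h0 hQ hQ0
    · have hstep : ∀ (β : ℂ × ℂ → ℂ × ℂ) (D : ℂ × ℂ → Prop), BChart β → (∀ p, AnalyticAt ℂ β p) →
          (∃ᶠ p in 𝓝 (0 : ℂ × ℂ), D p) → (∀ p, D p → GermC_Rt β p) → ∀ᶠ p in 𝓝 (0 : ℂ × ℂ), D p → GermC_Gd g Q (β p) := by
        intro β D hβ hβa hD hR
        have hg' : AnalyticAt ℂ (g ∘ β) 0 := by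
          have h1 : AnalyticAt ℂ g (β 0) := by rw [hβ.zero]; exact hg
          exact h1.comp hβ.an
        have hQ' : AnalyticAt ℂ (Q ∘ β) 0 := by
          have h1 : AnalyticAt ℂ Q (β 0) := by rw [hβ.zero]; exact hQ
          exact h1.comp hβ.an
        have h1 := ih (h β hβ) hg' (by simp [hβ.zero, h0]) hQ' (fun h2 =>
          hQ0 (GermC_van hQ hβ.an hβ.zero (hD.mono hR) h2))
        filter_upwards [h1, hβ.tendsto.eventually hg.eventually_analyticAt] with p a1 a2 a3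
        exact GermC_push (hβa p) a2 (hR p a3) a1
      have hfr1 : ∃ᶠ p in 𝓝 (0 : ℂ × ℂ), p.1 ≠ 0 := by
        have h1 : Tendsto (fun s : ℂ => ((s, 0) : ℂ × ℂ)) (𝓝[≠] 0) (𝓝 0) := by
          have h2 : Tendsto (fun s : ℂ => ((s, 0) : ℂ × ℂ)) (𝓝 0) (𝓝 (0, 0)) :=
            (continuous_id.prodMk continuous_const).tendsto 0
          exact h2.mono_left nhdsWithin_le_nhds
        refine h1.frequently ?_
        have h2 : ∀ᶠ s in 𝓝[≠] (0 : ℂ), s ≠ 0 := eventually_mem_nhdsWithin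
        exact h2.frequently
      have hfr2 : ∃ᶠ p in 𝓝 (0 : ℂ × ℂ), p.2 ≠ 0 := by
        have h1 : Tendsto (fun s : ℂ => ((0, s) : ℂ × ℂ)) (𝓝[≠] 0) (𝓝 0) := by
          have h2 : Tendsto (fun s : ℂ => ((0, s) : ℂ × ℂ)) (𝓝 0) (𝓝 (0, 0)) :=
            (continuous_const.prodMk continuous_id).tendsto 0
          exact h2.mono_left nhdsWithin_le_nhds
        refine h1.frequently ?_
        have h2 : ∀ᶠ s in 𝓝[≠] (0 : ℂ), s ≠ 0 := eventually_mem_nhdsWithin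
        exact h2.frequently
      have hc := GermC_cover (P := fun p => GermC_Gd g Q p)
        (fun c => hstep (bl c) (fun p => p.1 ≠ 0) (Pool.Agent.H17BP.bchart_bl c) (Pool.Agent.H17BP.analyticAt_bl c)
          hfr1 fun p hp => GermC_rt_bl c hp)
        (hstep blInf (fun p => p.2 ≠ 0) Pool.Agent.H17BP.bchart_blInf Pool.Agent.H17BP.analyticAt_blInf
          hfr2 fun p hp => GermC_rt_blInf hp)
      rw [eventually_nhdsWithin_iff] at hc
      filter_upwards [hc] with p hp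
      by_cases hp0 : p = 0
      · rw [hp0]
        exact ⟨fun h1 => absurd h0 h1, fun π _ _ h1 => absurd h0 h1⟩
      · exact hp hp0

theorem crit_near {g : ℂ × ℂ → ℂ} (hg : AnalyticAt ℂ g 0) (h0 : g 0 = 0) : ∀ᶠ p in 𝓝 (0 : ℂ × ℂ), g p ≠ 0 → fderiv ℂ g p ≠ 0 := by
  by_cases hz : ∀ᶠ x in 𝓝 (0 : ℂ × ℂ), g x = 0
  · filter_upwards [hz] with p hp h
    exact absurd hp h
  · obtain ⟨n, hn⟩ := exists_resN hg hz
    have h1 := GermC_main n (Q := fun _ => 1) hn hg h0 analyticAt_const (fun h => one_ne_zero h.self_of_nhds)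
    exact h1.mono fun p hp => hp.1

theorem level_near {g Q : ℂ × ℂ → ℂ} (hg : AnalyticAt ℂ g 0) (h0 : g 0 = 0) (hQ : AnalyticAt ℂ Q 0) (hQ0 : ¬ ∀ᶠ p in 𝓝 (0 : ℂ × ℂ), Q p = 0) :
    ∃ δ : ℝ, 0 < δ ∧ ∀ π : ℂ → ℂ × ℂ, AnalyticAt ℂ π 0 → π 0 ∈ ball (0 : ℂ × ℂ) δ → g (π 0) ≠ 0 →
      (∀ᶠ z in 𝓝 (0 : ℂ), g (π z) = g (π 0)) → (∀ᶠ z in 𝓝 (0 : ℂ), Q (π z) = 0) → deriv π 0 = 0 := by
  have h1 : ∀ᶠ p in 𝓝 (0 : ℂ × ℂ), ∀ π : ℂ → ℂ × ℂ, AnalyticAt ℂ π 0 → π 0 = p → g p ≠ 0 →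
      (∀ᶠ z in 𝓝 (0 : ℂ), g (π z) = g p) → (∀ᶠ z in 𝓝 (0 : ℂ), Q (π z) = 0) → deriv π 0 = 0 := by
    by_cases hz : ∀ᶠ x in 𝓝 (0 : ℂ × ℂ), g x = 0
    · filter_upwards [hz] with p hp π _ _ h
      exact absurd hp h
    · obtain ⟨n, hn⟩ := exists_resN hg hz
      exact (GermC_main n hn hg h0 hQ hQ0).mono fun p hp => hp.2
  rw [Metric.eventually_nhds_iff_ball] at h1
  obtain ⟨δ, hδ, h⟩ := h1
  exact ⟨δ, hδ, fun π hπ hπδ hne h2 h3 => h (π 0) hπδ π hπ rfl hne h2 h3⟩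

end Pool.Agent.H17N

end

section

/-!
# H17N ResU: local equations of the fibres

* `exists_lu`: `tor.loc` at `σ 0` gives `v`; `g p = v (σ p) - v (σ 0)`; `u (σ p) - v (σ p) ∈ Λ` for all `p` near `0`.
* `LU.mul_smul`-type facts are not needed: `u` is invariant under scaling modulo `Λ` (`tor.smul`).
* `RU.chart` (pattern: `H17BP.ResAt.chart`): `IsChart.trans` gives `θ` with `σ' p = c • σ (θ p)` near `0`; `g ∘ θ` is the germ for `σ'` (`Bihol`, `ResN.comp`).  (`u (σ' p) - u (σ (θ p)) ∈ Λ`, `u (σ' 0) - u (σ 0) ∈ Λ`, `g (θ 0) = g 0 = 0`.)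
* `RU.pr` (pattern: `ResAt.pr`), `RU.mono_le`.
* `RU.near` (pattern: `ResAt.near`): let `σ, τ, g` be as in `RU`.  `y ∈ X` near `x`: `y = c • σ p`, `p = τ y` near `0`, `p ≠ 0`.  `x' ↦ σ (p + x')` is a chart at `σ p` (`IsChart.near`) with the germ `x' ↦ g (p + x') - g p`.  If `g p = 0` it is `Mono` by
  `ResN.near` (H17BP/FinG); if `g p ≠ 0` then `fderiv ℂ g p ≠ 0` by `crit_near` (GermC), so `ru0_of_ne`-argument.  Then `RU.pr`.
* `exists_ru`: `exists_resN` for the germ `g` of `exists_lu` (it does not vanish identically by `NonConst`).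
-/

set_option autoImplicit false

open Topology Filter

namespace Pool.Agent.H17N

attribute [-instance] ProperSMul.toContinuousSMul

open Pool.Agent.H17BP (Surface IsChart Tan Pr HolP ResN)

variable {V : Type} [NormedAddCommGroup V] [NormedSpace ℂ V] {X : Set V} {Λ : AddSubgroup ℂ} {u : V → ℂ} {σ' : ℂ × ℂ → V} {τ' : V → ℂ × ℂ}
  {x y : V} {n k : ℕ}

private theorem ResU_pr (hu : TMap X Λ u) (hx : y ∈ X) (h : Pr x y) : u x - u y ∈ Λ := by
  obtain ⟨c, hc, rfl⟩ := h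
  exact hu.smul y hx c hc

theorem exists_lu (hu : TMap X Λ u) (h : IsChart X σ' τ') : ∃ g, LU Λ u σ' g := by
  have hmem : σ' 0 ∈ X := h.σ_mem.self_of_nhds
  obtain ⟨v, hv, hev⟩ := hu.loc _ hmem
  have h0 : u (σ' 0) - v (σ' 0) ∈ Λ := hev.self_of_nhds hmem
  refine ⟨fun p => v (σ' p) - v (σ' 0), (hv.comp h.σ_an).sub analyticAt_const, sub_self _, ?_⟩
  filter_upwards [h.σ_mem, h.σ_an.continuousAt.tendsto.eventually hev] with p hp1 hp2
  have h1 : u (σ' p) - u (σ' 0) - (v (σ' p) - v (σ' 0)) = (u (σ' p) - v (σ' p)) - (u (σ' 0) - v (σ' 0)) := by ring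
  rw [h1]
  exact Λ.sub_mem (hp2 hp1) h0

theorem RU.mono_le (h : RU X Λ u x n) (hnk : n ≤ k) : RU X Λ u x k := by
  obtain ⟨σ, τ, g, h1, h2, h3, h4⟩ := h
  exact ⟨σ, τ, g, h1, h2, h3, h4.mono_le hnk⟩

theorem RU.chart (hX : ∀ x ∈ X, ∀ c : ℂ, c ≠ 0 → c • x ∈ X) (hu : TMap X Λ u) (h : RU X Λ u x n) (h' : IsChart X σ' τ') (h0 : Pr (σ' 0) x) :
    ∃ g, LU Λ u σ' g ∧ ResN n g := by
  obtain ⟨σ, τ, g, hc, hx, hg, hr⟩ := h
  rw [← hx] at h0
  obtain ⟨θ, hθ, hev⟩ := IsChart.trans hX hc h' h0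
  have hσ0 : σ 0 ∈ X := hc.σ_mem.self_of_nhds
  have h00 : u (σ' 0) - u (σ 0) ∈ Λ := ResU_pr hu hσ0 h0
  refine ⟨g ∘ θ, ⟨?_, ?_, ?_⟩, hr.comp hθ⟩
  · have h1 : AnalyticAt ℂ g (θ 0) := by rw [hθ.zero]; exact hg.1
    exact h1.comp hθ.an
  · show g (θ 0) = 0
    rw [hθ.zero]
    exact hg.2.1
  · filter_upwards [hev, hθ.tendsto.eventually hg.2.2, hθ.tendsto.eventually hc.σ_mem] with p hp1 hp2 hp3
    have h1 : u (σ' p) - u (σ (θ p)) ∈ Λ := ResU_pr hu hp3 hp1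
    have h2 : u (σ' p) - u (σ' 0) - (g ∘ θ) p = (u (σ' p) - u (σ (θ p))) + (u (σ (θ p)) - u (σ 0) - g (θ p)) - (u (σ' 0) - u (σ 0)) := by
      simp only [Function.comp_apply]
      ring
    rw [h2]
    exact Λ.sub_mem (Λ.add_mem h1 hp2) h00

theorem RU.pr (hX : ∀ x ∈ X, ∀ c : ℂ, c ≠ 0 → c • x ∈ X) (hu : TMap X Λ u) (h : RU X Λ u x n) (hy : Pr y x) : RU X Λ u y n := by
  obtain ⟨σ, τ, g, hc, hx, hg, hr⟩ := h
  obtain ⟨a, ha, rfl⟩ := hy
  refine ⟨fun p => a • σ p, fun y => τ (a⁻¹ • y), g, hc.scale hX ha, ?_, ⟨hg.1, hg.2.1, ?_⟩, hr⟩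
  · show a • σ 0 = a • x
    rw [hx]
  · have h0 : u (a • σ 0) - u (σ 0) ∈ Λ := hu.smul _ hc.σ_mem.self_of_nhds a ha
    filter_upwards [hg.2.2, hc.σ_mem] with p hp1 hp2
    have h1 : u (a • σ p) - u (σ p) ∈ Λ := hu.smul _ hp2 a ha
    have h2 : u (a • σ p) - u (a • σ 0) - g p = (u (a • σ p) - u (σ p)) + (u (σ p) - u (σ 0) - g p) - (u (a • σ 0) - u (σ 0)) := by ring
    rw [h2]
    exact Λ.sub_mem (Λ.add_mem h1 hp1) h0

theorem RU.near [FiniteDimensional ℂ V] (hX : ∀ x ∈ X, ∀ c : ℂ, c ≠ 0 → c • x ∈ X) (hu : TMap X Λ u) (h : RU X Λ u x n) :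
    ∀ᶠ y in 𝓝 x, y ∈ X → ¬ Pr y x → RU X Λ u y 0 := by
  obtain ⟨σ, τ, g, hc, hx, hg, hr⟩ := h
  have hτ0 : τ (σ 0) = 0 := hc.left.self_of_nhds
  have hτ : Tendsto τ (𝓝 (σ 0)) (𝓝 0) := by
    have h1 := hc.τ_an.continuousAt.tendsto
    rwa [hτ0] at h1
  have hadd : ∀ p : ℂ × ℂ, Tendsto (fun x : ℂ × ℂ => p + x) (𝓝 0) (𝓝 p) := fun p => by
    have h1 : Continuous fun x : ℂ × ℂ => p + x := by fun_prop
    have h2 := h1.tendsto 0
    simpa using h2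
  have e1 : ∀ᶠ p in 𝓝 (0 : ℂ × ℂ), LU Λ u (fun x => σ (p + x)) (fun x => g (p + x) - g p) := by
    filter_upwards [hg.1.eventually_analyticAt, eventually_eventually_nhds.2 hg.2.2] with p hp1 hp2
    refine ⟨?_, by simp, ?_⟩
    · have h1 : AnalyticAt ℂ (fun x : ℂ × ℂ => p + x) 0 := analyticAt_const.add analyticAt_id
      have h2 : AnalyticAt ℂ g ((fun x : ℂ × ℂ => p + x) 0) := by
        simp only [add_zero]
        exact hp1
      exact (h2.comp h1).sub analyticAt_const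
    · have h0 := hp2.self_of_nhds
      filter_upwards [(hadd p).eventually hp2] with x hx2
      have h2 : u (σ (p + x)) - u (σ (p + 0)) - (g (p + x) - g p) = (u (σ (p + x)) - u (σ 0) - g (p + x)) - (u (σ p) - u (σ 0) - g p) := by
        rw [add_zero]
        ring
      rw [h2]
      exact Λ.sub_mem hx2 h0
  have e2 : ∀ᶠ p in 𝓝 (0 : ℂ × ℂ), p ≠ 0 → Pool.Agent.H17BP.Mono fun x => g (p + x) :=
    eventually_nhdsWithin_iff.1 (ResN.near hr)
  have e4 := crit_near hg.1 hg.2.1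
  have e3 : ∀ᶠ p in 𝓝 (0 : ℂ × ℂ), p ≠ 0 → RU X Λ u (σ p) 0 := by
    filter_upwards [hc.near, e1, e2, e4, hg.1.eventually_analyticAt] with p hp1 hp2 hp3 hp4 hp5 hp0
    by_cases hgp : g p = 0
    · refine ⟨_, _, _, hp1, by simp, hp2, ?_⟩
      have h1 : (fun x => g (p + x) - g p) = fun x => g (p + x) := by
        funext x
        rw [hgp, sub_zero]
      rw [h1]
      exact hp3 hp0
    · have hd : fderiv ℂ (fun x => g (p + x) - g p) 0 ≠ 0 := by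
        have h1 : fderiv ℂ (fun x => g (p + x) - g p) 0 = fderiv ℂ g p := by
          rw [fderiv_sub_const, fderiv_comp_add_left, add_zero]
        rw [h1]
        exact hp4 hgp
      have h2 := ru0_of_ne hp1 hp2 hd
      simpa using h2
  rw [← hx]
  filter_upwards [hc.right, hτ.eventually e3] with y hy1 hy2 hyX hyn
  obtain ⟨c, hc0, hyc⟩ := hy1 hyX
  have hne : τ y ≠ 0 := by
    intro h0
    rw [h0] at hyc
    exact hyn ⟨c, hc0, hyc⟩
  exact (hy2 hne).pr hX hu ⟨c, hc0, hyc⟩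

theorem exists_ru (hX : Surface X) (hu : TMap X Λ u) (hn : NonConst X Λ u) (hx : x ∈ X) : ∃ n, RU X Λ u x n := by
  obtain ⟨σ, τ, hc, hσ⟩ := hX.chart x hx
  obtain ⟨g, hg⟩ := exists_lu hu hc
  obtain ⟨n, hr⟩ := Pool.Agent.H17BP.exists_resN hg.1 (hn σ τ g hc hg)
  exact ⟨n, σ, τ, g, hc, hσ, hg, hr⟩

end Pool.Agent.H17N

end
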