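import Pool.Agent.H94.CB.M18
import Pool.Agent.H94.CB.M20

/-! The parts of this file: H17N.Defs, H17N.ResV, EG.HyDef, H62.EL.Bl. -/

section

/-!
# H17N Defs: a surface with a holomorphic map to an elliptic curve, in a general vector space

`V` is a finite dimensional complex normed space, a projective surface is given by its cone `X ⊆ V ∖ {0}` (`H17BP.Surface`), a holomorphic map to
`ℂ / Λ` by a function `u : V → ℂ` (only the class modulo `Λ` matters), and a `2`-form on the covering `{(x, z) : u x = z mod Λ}` by a function `α`.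
-/

set_option autoImplicit false

open Topology Filter

namespace Pool.Agent.H17N

attribute [-instance] ProperSMul.toContinuousSMul

open Pool.Agent.H17BP (Surface IsChart Tan Pr HolP ResN)

variable {V : Type} [NormedAddCommGroup V] [NormedSpace ℂ V]

/-- `u` is a holomorphic map from the surface to `ℂ / Λ` -/
structure TMap (X : Set V) (Λ : AddSubgroup ℂ) (u : V → ℂ) : Prop where
  smul : ∀ x ∈ X, ∀ c : ℂ, c ≠ 0 → u (c • x) - u x ∈ Λ
  loc : ∀ x ∈ X, ∃ v : V → ℂ, AnalyticAt ℂ v x ∧ ∀ᶠ y in 𝓝 x, y ∈ X → u y - v y ∈ Λ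

/-- `g` is the germ of `u ∘ σ - u (σ 0)` modulo `Λ` -/
def LU (Λ : AddSubgroup ℂ) (u : V → ℂ) (σ : ℂ × ℂ → V) (g : ℂ × ℂ → ℂ) : Prop :=
  AnalyticAt ℂ g 0 ∧ g 0 = 0 ∧ ∀ᶠ p in 𝓝 (0 : ℂ × ℂ), u (σ p) - u (σ 0) - g p ∈ Λ

/-- the fibre of `u` through `x` has normal crossings after at most `n` point blow-ups over every point -/
def RU (X : Set V) (Λ : AddSubgroup ℂ) (u : V → ℂ) (x : V) (n : ℕ) : Prop :=
  ∃ σ τ g, IsChart X σ τ ∧ σ 0 = x ∧ LU Λ u σ g ∧ ResN n g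

/-- `α` is a holomorphic `2`-form on `{(x, z) : u x = z mod Λ}` -/
structure TF (X : Set V) (Λ : AddSubgroup ℂ) (u : V → ℂ) (α : ℂ → V → V → V → ℂ) : Prop where
  add_smul : ∀ z, ∀ x ∈ X, u x - z ∈ Λ → ∀ v ∈ Tan X x, ∀ w ∈ Tan X x, ∀ a b : ℂ, α z x (v + a • x) (w + b • x) = α z x v w
  det : ∀ z, ∀ x ∈ X, u x - z ∈ Λ → ∀ v ∈ Tan X x, ∀ w ∈ Tan X x, ∀ a b c d : ℂ,
    α z x (a • v + b • w) (c • v + d • w) = (a * d - b * c) * α z x v w
  scale : ∀ z, ∀ x ∈ X, u x - z ∈ Λ → ∀ v ∈ Tan X x, ∀ w ∈ Tan X x, ∀ c : ℂ, c ≠ 0 → α z (c • x) (c • v) (c • w) = α z x v w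
  analytic : ∀ (φ : ℂ × ℂ → V) (υ : ℂ × ℂ → ℂ) (p : ℂ × ℂ), AnalyticAt ℂ φ p → AnalyticAt ℂ υ p →
    (∀ᶠ y in 𝓝 p, φ y ∈ X ∧ u (φ y) - υ y ∈ Λ) →
    AnalyticAt ℂ (fun y => α (υ y) (φ y) (fderiv ℂ φ y (1, 0)) (fderiv ℂ φ y (0, 1))) p

/-- the map `u` is constant on no open set -/
def NonConst (X : Set V) (Λ : AddSubgroup ℂ) (u : V → ℂ) : Prop :=
  ∀ σ τ g, IsChart X σ τ → LU Λ u σ g → ¬ ∀ᶠ p in 𝓝 (0 : ℂ × ℂ), g p = 0

/-- the form `α` is `0` on no open set -/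
def ThinF (X : Set V) (Λ : AddSubgroup ℂ) (u : V → ℂ) (α : ℂ → V → V → V → ℂ) : Prop :=
  ∀ σ τ υ, IsChart X σ τ → AnalyticAt ℂ υ 0 → (∀ᶠ p in 𝓝 (0 : ℂ × ℂ), u (σ p) - υ p ∈ Λ) →
    ¬ ∀ᶠ p in 𝓝 (0 : ℂ × ℂ), α (υ p) (σ p) (fderiv ℂ σ p (1, 0)) (fderiv ℂ σ p (0, 1)) = 0

/-- the non-constant entire curves in the fibres lie in fibres over `B` -/
def FibB (X : Set V) (Λ : AddSubgroup ℂ) (u : V → ℂ) (B : Set ℂ) : Prop :=
  ∀ f : ℂ → V, (∀ z, HolP f z) → (∀ z, f z ∈ X) → (∀ z w, u (f z) - u (f w) ∈ Λ) → (∃ z w, ¬ Pr (f z) (f w)) →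
    ∃ b ∈ B, u (f 0) - b ∈ Λ

/-- all the data -/
structure UData (X : Set V) (Λ Γ : AddSubgroup ℂ) (u : V → ℂ) (B : Set ℂ) (α : ℂ → V → V → V → ℂ) : Prop where
  surf : Surface X
  tor : TMap X Λ u
  nonconst : NonConst X Λ u
  form : TF X Λ u α
  per : ∀ z, ∀ l ∈ Γ, ∀ x ∈ X, u x - z ∈ Λ → ∀ v ∈ Tan X x, ∀ w ∈ Tan X x, α (z + l) x v w = α z x v w
  van : ∀ x ∈ X, u x ∈ Λ → ∀ v ∈ Tan X x, ∀ w ∈ Tan X x, α 0 x v w = 0
  thin : ThinF X Λ u α
  fib : FibB X Λ u B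
  crit : ∀ x ∈ X, (∀ b ∈ B, u x - b ∉ Λ) → RU X Λ u x 0

/-- the entire curves `f` with `u (f z) = z` modulo `Λ` -/
def HSec (X : Set V) (Λ : AddSubgroup ℂ) (u : V → ℂ) : Set (ℂ → V) :=
  {f | (∀ z, HolP f z) ∧ (∀ z, f z ∈ X) ∧ ∀ z, u (f z) - z ∈ Λ}

/-- there are only finitely many of them (as maps to the projective space) -/
def FinSec (X : Set V) (Λ : AddSubgroup ℂ) (u : V → ℂ) : Prop :=
  ∃ S : Set (ℂ → V), S.Finite ∧ ∀ f ∈ HSec X Λ u, ∃ g ∈ S, ∀ z, Pr (f z) (g z)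

variable {ι : Type} [Fintype ι]

open Classical in
/-- a component of `y` which is not `0` -/
noncomputable def cmp (y : ι → V) : V := if h : ∃ b, y b ≠ 0 then y h.choose else 0

/-- the map `u` on the blow-up -/
noncomputable def uB (u : V → ℂ) (y : ι → V) : ℂ := u (cmp y)

open Classical in
/-- the form on the blow-up -/
noncomputable def aB (α : ℂ → V → V → V → ℂ) (z : ℂ) (y v w : ι → V) : ℂ :=
  if h : ∃ b, y b ≠ 0 then α z (y h.choose) (v h.choose) (w h.choose) else 0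

end Pool.Agent.H17N

end

section

/-!
# H17N ResV: normal crossing points

* `ru0_of_ne`: if `fderiv ℂ g 0 ≠ 0` for a germ `g` of `u` in a chart then `RU X Λ u x 0`: `g` is a coordinate (`Mono g` with `S = g`, `T` = a linear form such that the derivative of `(g, T)` is an isomorphism; the inverse function
  theorem gives `Coord g T`; compare `H62.BU.local_inverse` (H62/BU/Inv.lean) and its uses in H17BP), `a = 1`, `b = 0`, `u = 1`.
* `ru0_nc`: `Mono g`: `g = S^a T^b v`, `v 0 ≠ 0`, `a + b > 0` because `g 0 = 0` (`S 0 = T 0 = 0`).  If `a ≥ 1` let `k` be analytic at `0` with `k ^ a = v` near `0`, `k 0 ≠ 0` (root of a unit, exists in H17BP (RootP.lean) or by `Complex.exp`/`log` or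
  `cpow`); `(S k, T)` are coordinates (`Coord`: the derivative at `0`, or see the lemmas on units in H17BP/Nodal.lean, MonoOpen.lean); so `g = S'^a T^b`.  If `a = 0`, `b ≥ 1`: the same for `T`.  Then take the chart `σ ∘ θ'`, `θ'` = inverse germ of the coordinates
  (`IsChart.comp`, as in the proof of `ResAt.nodal`).
-/

set_option autoImplicit false

open Topology Filter

namespace Pool.Agent.H17N

attribute [-instance] ProperSMul.toContinuousSMul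

open Pool.Agent.H17BP (Surface IsChart Tan Pr HolP ResN Mono Coord Bihol dx dy coord_iff)

variable {V : Type} [NormedAddCommGroup V] [NormedSpace ℂ V] {X : Set V} {Λ : AddSubgroup ℂ} {u : V → ℂ} {σ' : ℂ × ℂ → V} {τ' : V → ℂ × ℂ}
  {x : V}

private theorem ResV_mono {g : ℂ × ℂ → ℂ} (hg : AnalyticAt ℂ g 0) (h0 : g 0 = 0) (hd : fderiv ℂ g 0 ≠ 0) : Mono g := by
  have hF : AnalyticAt ℂ (fun x : ℂ × ℂ => x.1) 0 := analyticAt_fst
  have hS : AnalyticAt ℂ (fun x : ℂ × ℂ => x.2) 0 := analyticAt_snd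
  have f1 : fderiv ℂ (fun x : ℂ × ℂ => x.1) 0 = ContinuousLinearMap.fst ℂ ℂ ℂ := (hasFDerivAt_fst).fderiv
  have f2 : fderiv ℂ (fun x : ℂ × ℂ => x.2) 0 = ContinuousLinearMap.snd ℂ ℂ ℂ := (hasFDerivAt_snd).fderiv
  by_cases h1 : dx g 0 = 0
  · have h2 : dy g 0 ≠ 0 := by
      intro h2
      apply hd
      ext
      · simpa [dx] using h1
      · simpa [dy] using h2
    refine ⟨g, fun x => x.1, 1, 0, fun _ => 1, (coord_iff hg hF h0 rfl).2 ?_, analyticAt_const, one_ne_zero, Eventually.of_forall fun x => by simp⟩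
    have e1 : dy (fun x : ℂ × ℂ => x.1) 0 = 0 := by simp [dy, f1]
    have e2 : dx (fun x : ℂ × ℂ => x.1) 0 = 1 := by simp [dx, f1]
    rw [e1, e2, mul_zero, mul_one, zero_sub]
    exact neg_ne_zero.2 h2
  · refine ⟨g, fun x => x.2, 1, 0, fun _ => 1, (coord_iff hg hS h0 rfl).2 ?_, analyticAt_const, one_ne_zero, Eventually.of_forall fun x => by simp⟩
    have e1 : dy (fun x : ℂ × ℂ => x.2) 0 = 1 := by simp [dy, f2]
    have e2 : dx (fun x : ℂ × ℂ => x.2) 0 = 0 := by simp [dx, f2]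
    rw [e1, e2, mul_zero, mul_one, sub_zero]
    exact h1

private theorem ResV_root {v : ℂ × ℂ → ℂ} (hv : AnalyticAt ℂ v 0) (h0 : v 0 ≠ 0) {a : ℕ} (ha : 0 < a) :
    ∃ k : ℂ × ℂ → ℂ, AnalyticAt ℂ k 0 ∧ k 0 ≠ 0 ∧ ∀ᶠ x in 𝓝 0, k x ^ a = v x := by
  obtain ⟨c, hc⟩ := IsAlgClosed.exists_pow_nat_eq (v 0) ha
  have haC : (a : ℂ) ≠ 0 := by exact_mod_cast ha.ne'
  have hc0 : c ≠ 0 := by
    intro h
    rw [h, zero_pow ha.ne'] at hc
    exact h0 hc.symm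
  have h1 : AnalyticAt ℂ (fun x => v x / v 0) 0 := hv.div analyticAt_const h0
  have h2 : (fun x => v x / v 0) 0 ∈ Complex.slitPlane := by
    simp only [div_self h0]
    exact Complex.one_mem_slitPlane
  refine ⟨fun x => c * Complex.exp (Complex.log (v x / v 0) / a), ?_, ?_, ?_⟩
  · exact analyticAt_const.mul (((h1.clog h2).div analyticAt_const haC).cexp)
  · exact mul_ne_zero hc0 (Complex.exp_ne_zero _)
  · have h3 : ∀ᶠ x in 𝓝 (0 : ℂ × ℂ), v x ≠ 0 := hv.continuousAt.eventually_ne h0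
    filter_upwards [h3] with x hx
    rw [mul_pow, hc, ← Complex.exp_nat_mul, mul_div_cancel₀ _ haC, Complex.exp_log (div_ne_zero hx h0), mul_div_cancel₀ _ h0]

private theorem ResV_coord {S T k : ℂ × ℂ → ℂ} (h : Coord S T) (hk : AnalyticAt ℂ k 0) (hk0 : k 0 ≠ 0) : Coord (fun x => S x * k x) T := by
  obtain ⟨h1, h2, h3, h4⟩ := h.parts
  rw [coord_iff h1 h2 h3 h4] at h
  have hSk : AnalyticAt ℂ (fun x => S x * k x) 0 := h1.mul hk
  rw [coord_iff hSk h2 (by rw [h3, zero_mul]) h4]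
  have e : fderiv ℂ (fun x => S x * k x) 0 = k 0 • fderiv ℂ S 0 := by
    have := (h1.differentiableAt.hasFDerivAt.mul hk.differentiableAt.hasFDerivAt).fderiv
    refine this.trans ?_
    rw [h3]
    ext <;> simp
  have e1 : dx (fun x => S x * k x) 0 = k 0 * dx S 0 := by
    simp [dx, e]
  have e2 : dy (fun x => S x * k x) 0 = k 0 * dy S 0 := by
    simp [dy, e]
  rw [e1, e2]
  intro h5
  apply h
  have h6 : k 0 * (dx S 0 * dy T 0 - dy S 0 * dx T 0) = 0 := by linear_combination h5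
  exact (mul_eq_zero.1 h6).resolve_left hk0

private theorem ResV_aux {σ : ℂ × ℂ → V} {τ : V → ℂ × ℂ} {g S T v : ℂ × ℂ → ℂ} {a b : ℕ} (hc : IsChart X σ τ) (hx : σ 0 = x) (hg : LU Λ u σ g)
    (hST : Coord S T) (hv : AnalyticAt ℂ v 0) (hv0 : v 0 ≠ 0) (hev : ∀ᶠ x in 𝓝 0, g x = S x ^ a * T x ^ b * v x) (ha : 0 < a) :
    ∃ (σ : ℂ × ℂ → V) (τ : V → ℂ × ℂ) (i j : ℕ), IsChart X σ τ ∧ σ 0 = x ∧ 0 < i + j ∧
    ∀ᶠ p in 𝓝 (0 : ℂ × ℂ), u (σ p) - (u x + p.1 ^ i * p.2 ^ j) ∈ Λ := by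
  obtain ⟨k, hk, hk0, hkv⟩ := ResV_root hv hv0 ha
  have hC := ResV_coord hST hk hk0
  have hθ : Bihol fun x => (S x * k x, T x) := hC
  obtain ⟨θ', hθ', h1, h2⟩ := hθ.exists_inv
  refine ⟨_, _, a, b, hc.comp hθ' hθ h2 h1, ?_, by omega, ?_⟩
  · show σ (θ' 0) = x
    rw [hθ'.zero, hx]
  · filter_upwards [hθ'.tendsto.eventually hg.2.2, hθ'.tendsto.eventually hev, hθ'.tendsto.eventually hkv, h2] with p hp1 hp2 hp3 hp4
    have e1 : S (θ' p) * k (θ' p) = p.1 := congrArg Prod.fst hp4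
    have e2 : T (θ' p) = p.2 := congrArg Prod.snd hp4
    have e3 : g (θ' p) = p.1 ^ a * p.2 ^ b := by
      rw [hp2, ← hp3, ← e1, ← e2]
      ring
    rw [hx, e3] at hp1
    have e4 : u (σ (θ' p)) - (u x + p.1 ^ a * p.2 ^ b) = u (σ (θ' p)) - u x - p.1 ^ a * p.2 ^ b := by ring
    rw [e4]
    exact hp1

theorem ru0_of_ne (h : IsChart X σ' τ') {g : ℂ × ℂ → ℂ} (hg : LU Λ u σ' g) (hd : fderiv ℂ g 0 ≠ 0) : RU X Λ u (σ' 0) 0 :=
  ⟨σ', τ', g, h, rfl, hg, ResV_mono hg.1 hg.2.1 hd⟩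

theorem ru0_nc (h : RU X Λ u x 0) : ∃ (σ : ℂ × ℂ → V) (τ : V → ℂ × ℂ) (i j : ℕ), IsChart X σ τ ∧ σ 0 = x ∧ 0 < i + j ∧
    ∀ᶠ p in 𝓝 (0 : ℂ × ℂ), u (σ p) - (u x + p.1 ^ i * p.2 ^ j) ∈ Λ := by
  obtain ⟨σ, τ, g, hc, hx, hg, hr⟩ := h
  obtain ⟨S, T, a, b, v, hST, hv, hv0, hev⟩ := (hr : Mono g)
  rcases Nat.eq_zero_or_pos a with ha | ha
  · have hb : 0 < b := by
      rcases Nat.eq_zero_or_pos b with hb | hb
      · exfalso
        have h1 := hev.self_of_nhds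
        rw [hg.2.1, ha, hb, pow_zero, pow_zero, one_mul, one_mul] at h1
        exact hv0 h1.symm
      · exact hb
    refine ResV_aux hc hx hg hST.symm hv hv0 (a := b) (b := a) ?_ hb
    filter_upwards [hev] with p hp
    rw [hp, mul_comm (S p ^ a)]
  · exact ResV_aux hc hx hg hST hv hv0 hev ha

end Pool.Agent.H17N

end

section

/-!
# EG HyDef: regular values, normal crossings, bad values
-/

set_option autoImplicit false

open Topology Filter Metric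

namespace Pool.Agent.EG

attribute [-instance] ProperSMul.toContinuousSMul

open Pool.Agent.H36.BP (EN fs wd)
open Pool.Agent.H14.PP (IsCone Chart Form Tan)
open Pool.Agent.H62.EF (Lat TorusMap Charts DU pr pr_smul pr_eq_iff near_of_pr continuousAt_pr)

variable {N : ℕ}

/-- `c` is a regular value of `u` -/
def Reg (X : Set (EN N)) (Λ : AddSubgroup ℂ) (u : EN N → ℂ) (c : ℂ) : Prop :=
  ∀ x ∈ X, u x - c ∈ Λ → ∃ w : EN N, DU X Λ u x w 1

/-- `q` vanishes along a germ of a curve in the fibre over `c` -/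
def BadQ (X : Set (EN N)) (Λ : AddSubgroup ℂ) (u q : EN N → ℂ) (c : ℂ) : Prop :=
  ∃ γ : ℂ → EN N, AnalyticAt ℂ γ 0 ∧ (∀ᶠ z in 𝓝 (0 : ℂ), γ z ∈ X ∧ u (γ z) - c ∈ Λ ∧ q (γ z) = 0) ∧ 0 < wd (γ 0) (deriv γ 0)

/-- the bad values -/
def Bad (X : Set (EN N)) (Λ : AddSubgroup ℂ) (u q : EN N → ℂ) : Set ℂ := {c | ¬ Reg X Λ u c ∨ BadQ X Λ u q c}

variable {X : Set (EN N)} {Λ : AddSubgroup ℂ} {u q : EN N → ℂ}

theorem sub_iff {a c l : ℂ} (hl : l ∈ Λ) : a - (c + l) ∈ Λ ↔ a - c ∈ Λ := by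
  constructor
  · intro h
    have := Λ.add_mem h hl
    rwa [show a - (c + l) + l = a - c by ring] at this
  · intro h
    have := Λ.sub_mem h hl
    rwa [show a - c - l = a - (c + l) by ring] at this

theorem Bad.add {c l : ℂ} (hc : c ∈ Bad X Λ u q) (hl : l ∈ Λ) : c + l ∈ Bad X Λ u q := by
  rcases hc with h | ⟨γ, h1, h2, h3⟩
  · left
    intro h'
    refine h fun x hx hux => h' x hx ((sub_iff hl).2 hux)
  · right
    refine ⟨γ, h1, ?_, h3⟩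
    filter_upwards [h2] with z hz
    exact ⟨hz.1, (sub_iff hl).2 hz.2.1, hz.2.2⟩

theorem Bad.reg {c : ℂ} (hc : c ∉ Bad X Λ u q) : Reg X Λ u c := by
  by_contra h
  exact hc (Or.inl h)

/-- the derivative of a curve in a fibre is vertical -/
theorem DU_vert {G : ℂ → EN N} {c z : ℂ} (hG : AnalyticAt ℂ G z) (hGX : ∀ᶠ ζ in 𝓝 z, G ζ ∈ X ∧ u (G ζ) - c ∈ Λ) :
    DU X Λ u (G z) (deriv G z) 0 := by
  have h0 : Tendsto (fun ζ : ℂ => z + ζ) (𝓝 0) (𝓝 z) := by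
    have h : Continuous fun ζ : ℂ => z + ζ := by fun_prop
    simpa using h.tendsto 0
  have hla : AnalyticAt ℂ (fun ζ : ℂ => z + ζ) 0 := analyticAt_const.add analyticAt_id
  have hGa : AnalyticAt ℂ G (z + 0) := by rwa [add_zero]
  refine ⟨fun ζ => G (z + ζ), fun _ => c, AnalyticAt.fun_comp hGa hla, ?_, by simp, ?_, analyticAt_const, ?_, deriv_const _ _⟩
  · filter_upwards [h0.eventually hGX] with ζ h using h.1
  · rw [deriv_comp_const_add, add_zero]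
  · filter_upwards [h0.eventually hGX] with ζ h using h.2

/-- the limit of points of the fibres over `c n` is in the fibre over the limit of `c n` -/
theorem mem_fibre_of_tendsto (hX : IsCone X) (hu : TorusMap X Λ u) (hΛ : Lat Λ) {ι : Type*} {l : Filter ι} [l.NeBot] {x : ι → EN N}
    {x₀ : EN N} {c : ι → ℂ} {c₀ : ℂ} (hx : ∀ᶠ n in l, x n ∈ X ∧ u (x n) - c n ∈ Λ) (hx₀ : x₀ ∈ X)
    (hlim : Tendsto (fun n => pr (x n)) l (𝓝 (pr x₀))) (hc : Tendsto c l (𝓝 c₀)) : u x₀ - c₀ ∈ Λ := by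
  refine hΛ.mem_of_close fun ε hε => ?_
  obtain ⟨δ, hδ, h⟩ := TorusMap.unif hX hu (half_pos hε)
  have h1 : ∀ᶠ n in l, dist (pr (x n)) (pr x₀) < δ := hlim.eventually (ball_mem_nhds _ hδ)
  have h2 : ∀ᶠ n in l, dist (c n) c₀ < ε / 2 := hc.eventually (ball_mem_nhds _ (half_pos hε))
  obtain ⟨n, ⟨h3, h4⟩, h5, h6⟩ := (hx.and (h1.and h2)).exists
  obtain ⟨m, hm, h7⟩ := h x₀ hx₀ (x n) h3 (by rw [dist_comm]; exact h5)
  refine ⟨m + (u (x n) - c n), Λ.add_mem hm h4, ?_⟩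
  have h8 : u x₀ - c₀ - (m + (u (x n) - c n)) = (u x₀ - u (x n) - m) + (c n - c₀) := by ring
  rw [h8]
  rw [dist_eq_norm] at h6
  calc _ ≤ ‖u x₀ - u (x n) - m‖ + ‖c n - c₀‖ := norm_add_le _ _
    _ < ε := by linarith

/-- a point whose projection is near the projection of `x₀` lies in the domain of a chart at `x₀`, near the centre -/
theorem near_chart (hX : IsCone X) (χ : Chart X) {x₀ : EN N} (hx₀ : x₀ ∈ X) (hU : x₀ ∈ χ.U) (hq : χ.q x₀ = 0) {ε : ℝ} (hε : 0 < ε) :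
    ∃ δ : ℝ, 0 < δ ∧ ∀ x ∈ X, dist (pr x) (pr x₀) < δ → x ∈ χ.U ∧ ‖χ.q x‖ < ε := by
  have hx0 : x₀ ≠ 0 := fun h => hX.zero_notMem (h ▸ hx₀)
  have h1 : ∀ᶠ x in 𝓝 x₀, x ∈ χ.U ∧ ‖χ.q x‖ < ε := by
    have h2 : Tendsto χ.q (𝓝 x₀) (𝓝 0) := by
      have := (χ.q_an x₀ hU).continuousAt.tendsto
      rwa [hq] at this
    have h3 : ∀ᶠ x in 𝓝 x₀, ‖χ.q x‖ < ε := by
      have := h2.eventually (ball_mem_nhds _ hε)
      filter_upwards [this] with x hx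
      rwa [dist_zero_right] at hx
    have h4 : ∀ᶠ x in 𝓝 x₀, x ∈ χ.U := χ.isOpen_U.mem_nhds hU
    exact h4.and h3
  obtain ⟨δ, hδ, h⟩ := near_of_pr hx0 h1
  refine ⟨δ, hδ, fun x hx hd => ?_⟩
  have hx' : x ≠ 0 := fun h => hX.zero_notMem (h ▸ hx)
  obtain ⟨c, hc, h4, h5⟩ := h x hx' hd
  have h6 : x = c⁻¹ • (c • x) := by rw [smul_smul, inv_mul_cancel₀ hc, one_smul]
  have h7 : x ∈ χ.U := by
    rw [h6]
    exact χ.smul_U _ h4 _ (inv_ne_zero hc)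
  refine ⟨h7, ?_⟩
  rwa [χ.q_smul x h7 c hc] at h5

end Pool.Agent.EG

end

section

/-!
# EL Bl: a bounded holomorphic function which vanishes on a lattice decays on large discs

Let `R₀ > 0` be the covering radius of `Γ` (`Lat.cocompact`): every disc of radius `R₀` contains a point of `Γ`.  `r₀ = 4 R₀`.
(1) Local inequality: `J` holomorphic on a neighbourhood of `closedBall z₀ r₀` (or continuous there and holomorphic inside), `|J| ≤ m` on the circle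
`sphere z₀ r₀`, `J l = 0` for a point `l` with `‖l - z₀‖ ≤ R₀`: then `|J z₀| ≤ m / 4`.  [The function `J z (r₀² - conj (l - z₀) (z - z₀)) / (r₀ (z - l))`
is holomorphic (removable singularity: `dslope J l`), has modulus `|J z|` on the circle; at `z₀` it is `J z₀ r₀² / (r₀ (z₀ - l))`, modulus
`|J z₀| r₀ / ‖z₀ - l‖ ≥ 4 |J z₀|`.  If `l = z₀`, `J z₀ = 0`.]  Simpler variant without the Blaschke factor: `G z = dslope J l z`, on the circle
`|G| ≤ m / (r₀ - R₀)`, so `|J z₀| = |G z₀| ‖z₀ - l‖ ≤ m R₀ / (r₀ - R₀) = m / 3` by the maximum principle (`J l = 0`): enough.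
(2) With `κ = 1 / (32 R₀²)`... : let `κ r₀² ≤ 1/2`, so `exp (κ r₀²) ≤ 2`, `θ = 2/3`.  For every `c` and `z₀` as in (1):
`|J z₀| exp (-κ ‖z₀ - c‖²) ≤ θ sup_{z ∈ sphere z₀ r₀} |J z| exp (-κ ‖z - c‖²)`: apply (1) to the function `J z * exp (-2 κ (z - z₀) conj (z₀ - c))`
and use `‖z - c‖² = ‖z₀ - c‖² + 2 re ((z - z₀) conj (z₀ - c)) + r₀²` on the circle.
(3) Let `z₁ ∈ ball c R`, `R ≥ r₀`, `‖z₁ - c‖ < R' < R`.  The continuous function `Φ z = |J z| exp (-κ ‖z - c‖²)` has a maximum on `closedBall c R'` at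
a point `z₀`.  If `‖z₀ - c‖ ≤ R' - r₀` then `Φ z₀ ≤ θ Φ z₀` by (2), so `Φ z₀ = 0` and `J z₁ = 0`.  Otherwise `Φ z₁ ≤ Φ z₀ ≤ C exp (-κ (R' - r₀)²)`
(for `R' ≥ r₀`), so `|J z₁| ≤ C exp (-κ ((R' - r₀)² - ‖z₁ - c‖²))`; let `R' → R`.
-/

set_option autoImplicit false

open Topology Filter Metric

namespace Pool.Agent.H62.EL

attribute [-instance] ProperSMul.toContinuousSMul

open Pool.Agent.H62.EF (Lat)

/-- step (1): a holomorphic function which vanishes at a point close to the centre is small at the centre -/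
private theorem bl_local {U : Set ℂ} (hU : IsOpen U) {G : ℂ → ℂ} (hG : DifferentiableOn ℂ G U) {z₀ l : ℂ} {R₀ m : ℝ} (hR₀ : 0 < R₀)
    (hsub : closedBall z₀ (4 * R₀) ⊆ U) (hl : ‖z₀ - l‖ ≤ R₀) (hGl : G l = 0)
    (hm : ∀ z ∈ sphere z₀ (4 * R₀), ‖G z‖ ≤ m) : ‖G z₀‖ ≤ m / 3 := by
  have hlball : l ∈ ball z₀ (4 * R₀) := by
    rw [mem_ball, dist_comm, dist_eq_norm]
    linarith
  have hlU : l ∈ U := hsub (ball_subset_closedBall hlball)
  have hlN : U ∈ 𝓝 l := hU.mem_nhds hlU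
  have hD : DifferentiableOn ℂ (dslope G l) U := (Complex.differentiableOn_dslope hlN).2 hG
  have hDC : DiffContOnCl ℂ (dslope G l) (ball z₀ (4 * R₀)) := by
    apply DifferentiableOn.diffContOnCl
    exact hD.mono (closure_ball_subset_closedBall.trans hsub)
  have hfac : ∀ z, G z = (z - l) * dslope G l z := by
    intro z
    have := sub_smul_dslope G l z
    rw [hGl, sub_zero, smul_eq_mul] at this
    exact this.symm
  have hbound : ∀ z ∈ frontier (ball z₀ (4 * R₀)), ‖dslope G l z‖ ≤ m / (3 * R₀) := by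
    intro z hz
    have hz' : z ∈ sphere z₀ (4 * R₀) := frontier_ball_subset_sphere hz
    have hzn : ‖z - z₀‖ = 4 * R₀ := by
      rw [mem_sphere, dist_eq_norm] at hz'
      exact hz'
    have hzl : 3 * R₀ ≤ ‖z - l‖ := by
      have h1 : ‖z - z₀‖ ≤ ‖z - l‖ + ‖z₀ - l‖ := by
        have : z - z₀ = (z - l) - (z₀ - l) := by ring
        rw [this]
        exact norm_sub_le _ _
      linarith
    have h2 := hm z hz'
    rw [hfac z, norm_mul] at h2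
    rw [le_div_iff₀ (by positivity)]
    calc ‖dslope G l z‖ * (3 * R₀) ≤ ‖dslope G l z‖ * ‖z - l‖ := by gcongr
      _ = ‖z - l‖ * ‖dslope G l z‖ := mul_comm _ _
      _ ≤ m := h2
  have hmax : ‖dslope G l z₀‖ ≤ m / (3 * R₀) := by
    apply Complex.norm_le_of_forall_mem_frontier_norm_le (isBounded_ball) hDC hbound
    exact subset_closure (mem_ball_self (by positivity))
  rw [hfac z₀, norm_mul]
  have h0 : 0 ≤ m / (3 * R₀) := (norm_nonneg _).trans hmax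
  calc ‖z₀ - l‖ * ‖dslope G l z₀‖ ≤ R₀ * (m / (3 * R₀)) := by gcongr
    _ = m / 3 := by field_simp

/-- step (2): the weighted modulus cannot have a positive maximum at a point far from the boundary -/
private theorem bl_weight {Γ : AddSubgroup ℂ} {R₀ : ℝ} (hR₀ : 0 < R₀) (hcov : ∀ z : ℂ, ∃ l ∈ Γ, ‖z - l‖ ≤ R₀) {J : ℂ → ℂ} {c z₀ : ℂ} {R R' : ℝ}
    (hR' : R' < R) (hJ : DifferentiableOn ℂ J (ball c R)) (hΓ : ∀ l ∈ Γ, l ∈ ball c R → J l = 0)
    (hz₀ : ‖z₀ - c‖ ≤ R' - 4 * R₀)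
    (hmax : ∀ z ∈ closedBall c R', ‖J z‖ * Real.exp (-(1 / (32 * R₀ ^ 2)) * ‖z - c‖ ^ 2) ≤
      ‖J z₀‖ * Real.exp (-(1 / (32 * R₀ ^ 2)) * ‖z₀ - c‖ ^ 2)) : ‖J z₀‖ = 0 := by
  set κ : ℝ := 1 / (32 * R₀ ^ 2) with hκ
  have hκ0 : 0 < κ := by positivity
  have hκr : κ * (4 * R₀) ^ 2 = 1 / 2 := by
    rw [hκ]
    field_simp
    norm_num
  have hsub' : closedBall z₀ (4 * R₀) ⊆ closedBall c R' := by
    apply closedBall_subset_closedBall'
    rw [dist_eq_norm]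
    linarith
  have hsub : closedBall z₀ (4 * R₀) ⊆ ball c R := hsub'.trans (closedBall_subset_ball hR')
  obtain ⟨l, hlΓ, hl⟩ := hcov z₀
  have hlball : l ∈ ball c R := by
    apply hsub
    rw [mem_closedBall, dist_comm, dist_eq_norm]
    linarith
  set w : ℂ := (starRingEnd ℂ) (z₀ - c) with hw
  set G : ℂ → ℂ := fun z => J z * Complex.exp (((-2 * κ : ℝ) : ℂ) * ((z - z₀) * w)) with hGdef
  have hGd : DifferentiableOn ℂ G (ball c R) := by
    apply hJ.mul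
    apply Differentiable.differentiableOn
    fun_prop
  have hGl : G l = 0 := by
    simp only [hGdef, hΓ l hlΓ hlball, zero_mul]
  have hG0 : ‖G z₀‖ = ‖J z₀‖ := by
    simp [hGdef]
  have hnG : ∀ z, ‖G z‖ = ‖J z‖ * Real.exp (-2 * κ * ((z - z₀) * w).re) := by
    intro z
    simp only [hGdef, norm_mul, Complex.norm_exp, Complex.re_ofReal_mul]
  have hexp : ∀ z, ‖z - c‖ ^ 2 = ‖z₀ - c‖ ^ 2 + 2 * ((z - z₀) * w).re + ‖z - z₀‖ ^ 2 := by
    intro z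
    rw [hw, ← Complex.normSq_eq_norm_sq, ← Complex.normSq_eq_norm_sq, ← Complex.normSq_eq_norm_sq]
    simp only [Complex.normSq_apply, Complex.mul_re, Complex.sub_re, Complex.sub_im, Complex.conj_re, Complex.conj_im, map_sub]
    ring
  set M : ℝ := ‖J z₀‖ * Real.exp (-κ * ‖z₀ - c‖ ^ 2) with hM
  have hM0 : 0 ≤ M := by positivity
  have hmb : ∀ z ∈ sphere z₀ (4 * R₀), ‖G z‖ ≤ M * (Real.exp (κ * ‖z₀ - c‖ ^ 2) * Real.exp (1 / 2)) := by
    intro z hz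
    have h1 := hmax z (hsub' (sphere_subset_closedBall hz))
    have hzn : ‖z - z₀‖ = 4 * R₀ := by
      rw [mem_sphere, dist_eq_norm] at hz
      exact hz
    rw [hnG z]
    have h2 : Real.exp (-2 * κ * ((z - z₀) * w).re) =
        Real.exp (-κ * ‖z - c‖ ^ 2) * (Real.exp (κ * ‖z₀ - c‖ ^ 2) * Real.exp (1 / 2)) := by
      rw [← Real.exp_add, ← Real.exp_add]
      congr 1
      rw [hexp z, hzn, ← hκr]
      ring
    rw [h2, ← mul_assoc]
    gcongr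
  have h3 := bl_local isOpen_ball hGd hR₀ hsub hl hGl hmb
  rw [hG0] at h3
  have h4 : M * Real.exp (κ * ‖z₀ - c‖ ^ 2) = ‖J z₀‖ := by
    rw [hM, mul_assoc, ← Real.exp_add]
    have : -κ * ‖z₀ - c‖ ^ 2 + κ * ‖z₀ - c‖ ^ 2 = 0 := by ring
    rw [this, Real.exp_zero, mul_one]
  rw [← mul_assoc, h4] at h3
  have h5 : Real.exp (1 / 2) ≤ 2 := by
    have h := Real.log_two_gt_d9
    calc Real.exp (1 / 2) ≤ Real.exp (Real.log 2) := by
          apply Real.exp_le_exp.2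
          linarith
      _ = 2 := Real.exp_log (by norm_num)
  have h6 : ‖J z₀‖ * Real.exp (1 / 2) ≤ ‖J z₀‖ * 2 := by gcongr
  have h7 := norm_nonneg (J z₀)
  linarith

theorem lattice_decay {Γ : AddSubgroup ℂ} (hΓ : Lat Γ) : ∃ κ r₀ : ℝ, 0 < κ ∧ 0 < r₀ ∧ ∀ (J : ℂ → ℂ) (c : ℂ) (R C : ℝ), r₀ ≤ R →
    DifferentiableOn ℂ J (ball c R) → (∀ z ∈ ball c R, ‖J z‖ ≤ C) → (∀ l ∈ Γ, l ∈ ball c R → J l = 0) →
    ∀ z ∈ ball c R, ‖J z‖ ≤ C * Real.exp (-κ * ((R - r₀) ^ 2 - ‖z - c‖ ^ 2)) := by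
  obtain ⟨R₀, hR₀, hcov⟩ := hΓ.cocompact
  refine ⟨1 / (32 * R₀ ^ 2), 4 * R₀, by positivity, by positivity, ?_⟩
  intro J c R C hR hJ hC hJl z₁ hz₁
  set κ : ℝ := 1 / (32 * R₀ ^ 2) with hκ
  have hκ0 : 0 < κ := by positivity
  have hRpos : 0 < R := by linarith
  have hC0 : 0 ≤ C := (norm_nonneg _).trans (hC z₁ hz₁)
  have hz₁' : ‖z₁ - c‖ < R := by
    rw [mem_ball, dist_eq_norm] at hz₁
    exact hz₁
  -- the estimate on the smaller disc
  have key : ∀ R', ‖z₁ - c‖ < R' → R' < R → ‖J z₁‖ ≤ C * Real.exp (-κ * ((max 0 (R' - 4 * R₀)) ^ 2 - ‖z₁ - c‖ ^ 2)) := by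
    intro R' h1 h2
    have hsub : closedBall c R' ⊆ ball c R := closedBall_subset_ball h2
    have hcont : ContinuousOn (fun z => ‖J z‖ * Real.exp (-κ * ‖z - c‖ ^ 2)) (closedBall c R') := by
      apply ContinuousOn.mul
      · exact (hJ.continuousOn.mono hsub).norm
      · fun_prop
    have hne : (closedBall c R').Nonempty := ⟨z₁, by rw [mem_closedBall, dist_eq_norm]; exact h1.le⟩
    obtain ⟨z₀, hz₀, hmax⟩ := (isCompact_closedBall c R').exists_isMaxOn hne hcont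
    have hmax' : ∀ z ∈ closedBall c R', ‖J z‖ * Real.exp (-κ * ‖z - c‖ ^ 2) ≤ ‖J z₀‖ * Real.exp (-κ * ‖z₀ - c‖ ^ 2) := fun z hz => hmax hz
    have hz₁m := hmax' z₁ (by rw [mem_closedBall, dist_eq_norm]; exact h1.le)
    have hfin : ∀ B : ℝ, ‖J z₁‖ * Real.exp (-κ * ‖z₁ - c‖ ^ 2) ≤ B → ‖J z₁‖ ≤ B * Real.exp (κ * ‖z₁ - c‖ ^ 2) := by
      intro B hB
      have : ‖J z₁‖ = ‖J z₁‖ * Real.exp (-κ * ‖z₁ - c‖ ^ 2) * Real.exp (κ * ‖z₁ - c‖ ^ 2) := by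
        rw [mul_assoc, ← Real.exp_add]
        have : -κ * ‖z₁ - c‖ ^ 2 + κ * ‖z₁ - c‖ ^ 2 = 0 := by ring
        rw [this, Real.exp_zero, mul_one]
      rw [this]
      gcongr
    by_cases hfar : ‖z₀ - c‖ ≤ R' - 4 * R₀
    · have h0 := bl_weight hR₀ hcov h2 hJ hJl hfar hmax'
      rw [h0, zero_mul] at hz₁m
      have := hfin 0 hz₁m
      rw [zero_mul] at this
      exact this.trans (by positivity)
    · push Not at hfar
      have h3 : (max 0 (R' - 4 * R₀)) ^ 2 ≤ ‖z₀ - c‖ ^ 2 := by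
        have : max 0 (R' - 4 * R₀) ≤ ‖z₀ - c‖ := max_le (norm_nonneg _) hfar.le
        have h0 : 0 ≤ max 0 (R' - 4 * R₀) := le_max_left _ _
        gcongr
      have h4 : ‖J z₀‖ * Real.exp (-κ * ‖z₀ - c‖ ^ 2) ≤ C * Real.exp (-κ * (max 0 (R' - 4 * R₀)) ^ 2) := by
        have h5 : ‖J z₀‖ ≤ C := hC z₀ (hsub hz₀)
        have h6 : Real.exp (-κ * ‖z₀ - c‖ ^ 2) ≤ Real.exp (-κ * (max 0 (R' - 4 * R₀)) ^ 2) := by
          apply Real.exp_le_exp.2
          nlinarith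
        gcongr
      have h7 := hfin _ (hz₁m.trans h4)
      refine h7.trans (le_of_eq ?_)
      rw [mul_assoc, ← Real.exp_add]
      congr 2
      ring
  -- the limit
  have hlim : Tendsto (fun R' : ℝ => C * Real.exp (-κ * ((max 0 (R' - 4 * R₀)) ^ 2 - ‖z₁ - c‖ ^ 2))) (𝓝[<] R)
      (𝓝 (C * Real.exp (-κ * ((max 0 (R - 4 * R₀)) ^ 2 - ‖z₁ - c‖ ^ 2)))) := by
    apply tendsto_nhdsWithin_of_tendsto_nhds
    apply Continuous.tendsto
    fun_prop
  have hmaxR : max 0 (R - 4 * R₀) = R - 4 * R₀ := max_eq_right (by linarith)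
  rw [hmaxR] at hlim
  refine ge_of_tendsto hlim ?_
  have : ∀ᶠ R' in 𝓝[<] R, ‖z₁ - c‖ < R' := by
    apply mem_nhdsWithin_of_mem_nhds
    exact lt_mem_nhds hz₁'
  filter_upwards [this, self_mem_nhdsWithin] with R' h1 h2
  exact key R' h1 h2

end Pool.Agent.H62.EL

end
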