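import Pool.Agent.H94.CB.M156

/-! The parts of this file: H62.Bl.Blaschke, H86.LR.Hole, H86.LR.Fam. -/

section

/-!
# Bl Blaschke: zeros of a function of polynomial growth on a half plane (project LOG-U, condition form')

`bb a z = (z - a) / (z - conj a)` is the Blaschke factor of the upper half plane.  `prod_bound`: a function bounded by `M` with zeros at the points of a finite set `s` is
bounded by `M * ∏ ‖bb a z‖`.
-/

set_option autoImplicit false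

open Topology Filter Metric

namespace Pool.Agent.H62.Bl

attribute [-instance] ProperSMul.toContinuousSMul

/-- the upper half plane -/
def Hp : Set ℂ := {z | 0 < z.im}

/-- the Blaschke factor -/
noncomputable def bb (a z : ℂ) : ℂ := (z - a) / (z - (starRingEnd ℂ) a)

/-- the inverse map -/
noncomputable def ps (a w : ℂ) : ℂ := (a - (starRingEnd ℂ) a * w) / (1 - w)

theorem den_ne {a z : ℂ} (ha : 0 < a.im) (hz : 0 < z.im) : z - (starRingEnd ℂ) a ≠ 0 := by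
  intro h
  have h1 := congrArg Complex.im h
  rw [Complex.sub_im, Complex.conj_im, Complex.zero_im] at h1
  linarith

/-- the identity for the Blaschke factor -/
theorem one_sub_bb {a z : ℂ} (ha : 0 < a.im) (hz : 0 < z.im) : 1 - ‖bb a z‖ ^ 2 = 4 * a.im * z.im / ‖z - (starRingEnd ℂ) a‖ ^ 2 := by
  have h1 := den_ne ha hz
  have h2 : 0 < ‖z - (starRingEnd ℂ) a‖ := norm_pos_iff.2 h1
  unfold bb
  rw [norm_div, div_pow, eq_div_iff (by positivity), sub_mul, div_mul_cancel₀ _ (by positivity), one_mul, Complex.sq_norm, Complex.sq_norm,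
    Complex.normSq_apply, Complex.normSq_apply, Complex.sub_re, Complex.sub_im, Complex.sub_re, Complex.sub_im, Complex.conj_re, Complex.conj_im]
  ring

theorem norm_bb_lt {a z : ℂ} (ha : 0 < a.im) (hz : 0 < z.im) : ‖bb a z‖ < 1 := by
  have h1 := one_sub_bb ha hz
  have h2 : 0 < ‖z - (starRingEnd ℂ) a‖ := norm_pos_iff.2 (den_ne ha hz)
  have h3 : 0 < 4 * a.im * z.im / ‖z - (starRingEnd ℂ) a‖ ^ 2 := by positivity
  rw [← h1] at h3
  nlinarith [norm_nonneg (bb a z)]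

/-- the exponential estimate of the Blaschke factor -/
theorem norm_bb_le {a z : ℂ} (ha : 0 < a.im) (hz : 0 < z.im) : ‖bb a z‖ ≤ Real.exp (-(2 * a.im * z.im / ‖z - (starRingEnd ℂ) a‖ ^ 2)) := by
  have h1 := one_sub_bb ha hz
  set t := 2 * a.im * z.im / ‖z - (starRingEnd ℂ) a‖ ^ 2 with ht
  have h2 : 4 * a.im * z.im / ‖z - (starRingEnd ℂ) a‖ ^ 2 = 2 * t := by
    rw [ht]
    ring
  rw [h2] at h1
  have h3 : ‖bb a z‖ ^ 2 ≤ Real.exp (-t) ^ 2 := by
    rw [← Real.exp_nat_mul]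
    have h4 := Real.add_one_le_exp (((2 : ℕ) : ℝ) * -t)
    push_cast at h4 ⊢
    linarith
  exact (pow_le_pow_iff_left₀ (norm_nonneg _) (Real.exp_pos _).le two_ne_zero).1 h3

theorem ps_im {a w : ℂ} (ha : 0 < a.im) (hw : ‖w‖ < 1) : 0 < (ps a w).im := by
  have h0 : (1 : ℂ) - w ≠ 0 := by
    intro h
    rw [sub_eq_zero] at h
    rw [← h, norm_one] at hw
    exact lt_irrefl _ hw
  have h1 : 0 < Complex.normSq (1 - w) := Complex.normSq_pos.2 h0
  unfold ps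
  rw [Complex.div_im]
  have h2 : ((a - (starRingEnd ℂ) a * w).im * (1 - w).re / Complex.normSq (1 - w) - (a - (starRingEnd ℂ) a * w).re * (1 - w).im / Complex.normSq (1 - w)) =
      a.im * (1 - ‖w‖ ^ 2) / Complex.normSq (1 - w) := by
    rw [← sub_div]
    congr 1
    rw [Complex.sq_norm, Complex.normSq_apply]
    simp only [Complex.sub_re, Complex.sub_im, Complex.mul_re, Complex.mul_im, Complex.conj_re, Complex.conj_im, Complex.one_re, Complex.one_im]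
    ring
  rw [h2]
  have h3 : 0 < 1 - ‖w‖ ^ 2 := by nlinarith [norm_nonneg w]
  positivity

theorem ps_bb {a z : ℂ} (ha : 0 < a.im) (hz : 0 < z.im) : ps a (bb a z) = z := by
  have h1 := den_ne ha hz
  have h2 : a - (starRingEnd ℂ) a ≠ 0 := den_ne ha ha
  have h3 : 1 - bb a z = (a - (starRingEnd ℂ) a) / (z - (starRingEnd ℂ) a) := by
    unfold bb
    field_simp
    ring
  unfold ps
  rw [h3, div_eq_iff (div_ne_zero h2 h1)]
  unfold bb
  field_simp
  ring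

theorem ps_zero (a : ℂ) : ps a 0 = a := by
  unfold ps
  simp

theorem bb_ne {a z : ℂ} (ha : 0 < a.im) (hz : 0 < z.im) (h : z ≠ a) : bb a z ≠ 0 := div_ne_zero (sub_ne_zero.2 h) (den_ne ha hz)

theorem differentiableOn_ps (a : ℂ) : DifferentiableOn ℂ (ps a) (ball 0 1) := by
  intro w hw
  rw [mem_ball_zero_iff] at hw
  have h0 : (1 : ℂ) - w ≠ 0 := by
    intro h
    rw [sub_eq_zero] at h
    rw [← h, norm_one] at hw
    exact lt_irrefl _ hw
  unfold ps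
  exact (DifferentiableAt.div (by fun_prop) (by fun_prop) h0).differentiableWithinAt

theorem differentiableOn_bb {a : ℂ} (ha : 0 < a.im) : DifferentiableOn ℂ (bb a) Hp := by
  intro z hz
  unfold bb
  exact (DifferentiableAt.div (differentiableAt_id.sub_const a) (differentiableAt_id.sub_const ((starRingEnd ℂ) a)) (den_ne ha hz)).differentiableWithinAt

/-- **One factor.** -/
theorem exists_factor {F : ℂ → ℂ} {M : ℝ} (hF : DifferentiableOn ℂ F Hp) (hM : ∀ z ∈ Hp, ‖F z‖ ≤ M) {a : ℂ} (ha : a ∈ Hp) (h0 : F a = 0) :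
    ∃ F₁ : ℂ → ℂ, DifferentiableOn ℂ F₁ Hp ∧ (∀ z ∈ Hp, ‖F₁ z‖ ≤ M) ∧ ∀ z ∈ Hp, F z = bb a z * F₁ z := by
  have ha' : 0 < a.im := ha
  set G : ℂ → ℂ := fun w => F (ps a w) with hG
  have hmaps : Set.MapsTo (ps a) (ball 0 1) Hp := fun w hw => ps_im ha' (mem_ball_zero_iff.1 hw)
  have hGd : DifferentiableOn ℂ G (ball 0 1) := hF.comp (differentiableOn_ps a) hmaps
  have hG0 : G 0 = 0 := by
    show F (ps a 0) = 0
    rw [ps_zero, h0]
  have hDd : DifferentiableOn ℂ (dslope G 0) (ball 0 1) := (Complex.differentiableOn_dslope (ball_mem_nhds 0 one_pos)).2 hGd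
  have hDb : ∀ w ∈ ball (0 : ℂ) 1, ‖dslope G 0 w‖ ≤ M := by
    intro w hw
    have h1 := Complex.norm_dslope_le_div_of_mapsTo_ball (R₂ := M) hGd (fun v hv => ?_) hw
    · rwa [div_one] at h1
    · rw [hG0, mem_closedBall_zero_iff]
      exact hM _ (hmaps hv)
  have hbm : Set.MapsTo (bb a) Hp (ball 0 1) := fun z hz => mem_ball_zero_iff.2 (norm_bb_lt ha' hz)
  refine ⟨fun z => dslope G 0 (bb a z), hDd.comp (differentiableOn_bb ha') hbm, fun z hz => hDb _ (hbm hz), fun z hz => ?_⟩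
  have h1 : F z = G (bb a z) := by
    show F z = F (ps a (bb a z))
    rw [ps_bb ha' hz]
  have h2 := sub_smul_dslope G 0 (bb a z)
  rw [sub_zero, hG0, sub_zero, smul_eq_mul] at h2
  rw [h1, h2]

/-- **Finitely many zeros.** -/
theorem prod_bound (s : Finset ℂ) : ∀ {F : ℂ → ℂ} {M : ℝ}, DifferentiableOn ℂ F Hp → (∀ z ∈ Hp, ‖F z‖ ≤ M) → (∀ a ∈ s, a ∈ Hp ∧ F a = 0) →
    ∀ z ∈ Hp, ‖F z‖ ≤ M * ∏ a ∈ s, ‖bb a z‖ := by
  induction s using Finset.induction_on with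
  | empty =>
    intro F M _ hM _ z hz
    rw [Finset.prod_empty, mul_one]
    exact hM z hz
  | insert a s has ih =>
    intro F M hF hM h0 z hz
    obtain ⟨ha, ha0⟩ := h0 a (Finset.mem_insert_self a s)
    obtain ⟨F₁, h1, h2, h3⟩ := exists_factor hF hM ha ha0
    have h4 := ih h1 h2 (fun c hc => ⟨(h0 c (Finset.mem_insert_of_mem hc)).1, by
      obtain ⟨hc1, hc2⟩ := h0 c (Finset.mem_insert_of_mem hc)
      have h5 := h3 c hc1
      rw [hc2] at h5
      have h6 : c ≠ a := fun h => has (h ▸ hc)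
      exact (mul_eq_zero.1 h5.symm).resolve_left (bb_ne ha hc1 h6)⟩) z hz
    rw [h3 z hz, norm_mul, Finset.prod_insert has]
    calc ‖bb a z‖ * ‖F₁ z‖ ≤ ‖bb a z‖ * (M * ∏ c ∈ s, ‖bb c z‖) := mul_le_mul_of_nonneg_left h4 (norm_nonneg _)
      _ = M * (‖bb a z‖ * ∏ c ∈ s, ‖bb c z‖) := by ring

/-- **The Blaschke condition.** -/
theorem summable_of_ne {F : ℂ → ℂ} {M : ℝ} (hF : DifferentiableOn ℂ F Hp) (hM : ∀ z ∈ Hp, ‖F z‖ ≤ M) {ι : Type*} {a : ι → ℂ} (hinj : Function.Injective a)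
    (h0 : ∀ i, a i ∈ Hp ∧ F (a i) = 0) {z : ℂ} (hz : z ∈ Hp) (hne : F z ≠ 0) : Summable fun i => (a i).im / ‖z - (starRingEnd ℂ) (a i)‖ ^ 2 := by
  classical
  have hz' : 0 < z.im := hz
  have hpos : 0 < ‖F z‖ := norm_pos_iff.2 hne
  have hMpos : 0 < M := lt_of_lt_of_le hpos (hM z hz)
  refine summable_of_sum_le (c := Real.log (M / ‖F z‖) / (2 * z.im)) (fun i => div_nonneg (le_of_lt (h0 i).1) (by positivity)) fun s => ?_
  have h1 := prod_bound (s.image a) hF hM (fun c hc => by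
    obtain ⟨i, -, rfl⟩ := Finset.mem_image.1 hc
    exact h0 i) z hz
  rw [Finset.prod_image fun i _ j _ h => hinj h] at h1
  have h2 : ∏ i ∈ s, ‖bb (a i) z‖ ≤ ∏ i ∈ s, Real.exp (-(2 * (a i).im * z.im / ‖z - (starRingEnd ℂ) (a i)‖ ^ 2)) :=
    Finset.prod_le_prod (fun i _ => norm_nonneg _) fun i _ => norm_bb_le (h0 i).1 hz'
  rw [← Real.exp_sum, Finset.sum_neg_distrib] at h2
  set T := ∑ i ∈ s, 2 * (a i).im * z.im / ‖z - (starRingEnd ℂ) (a i)‖ ^ 2 with hT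
  have h3 : T = 2 * z.im * ∑ i ∈ s, (a i).im / ‖z - (starRingEnd ℂ) (a i)‖ ^ 2 := by
    rw [hT, Finset.mul_sum]
    refine Finset.sum_congr rfl fun i _ => ?_
    ring
  have h4 : ‖F z‖ ≤ M * Real.exp (-T) := h1.trans (mul_le_mul_of_nonneg_left h2 hMpos.le)
  have h5 : T ≤ Real.log (M / ‖F z‖) := by
    rw [Real.le_log_iff_exp_le (by positivity), le_div_iff₀ hpos]
    rw [Real.exp_neg] at h4
    have h6 : 0 < Real.exp T := Real.exp_pos T
    calc Real.exp T * ‖F z‖ ≤ Real.exp T * (M * (Real.exp T)⁻¹) := mul_le_mul_of_nonneg_left h4 h6.le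
      _ = M := by field_simp
  rw [le_div_iff₀ (by positivity)]
  linarith

end Pool.Agent.H62.Bl

end

section

/-!
# LR Hole: meromorphic functions near `1` on circles, bounded functions on a half plane with zeros at a lattice
-/

set_option autoImplicit false

open Topology Filter Metric

namespace Pool.Agent.H86.LR

attribute [-instance] ProperSMul.toContinuousSMul

open Pool.Agent.H62.EL (Gd BadSet)
open Pool.Agent.H62.EF (Lat)
open Pool.Agent.H62.Bl (Hp summable_of_ne)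

/-- a function with a finite limit at `b`, near `1` on a circle about `b` -/
theorem hole_ext {q : ℂ → ℂ} {b c : ℂ} {r ε : ℝ} (hr : 0 < r) (hq : ∀ z ∈ closedBall b r, z ≠ b → AnalyticAt ℂ q z)
    (hc : Tendsto q (𝓝[≠] b) (𝓝 c)) (hs : ∀ z ∈ sphere b r, ‖q z - 1‖ ≤ ε) :
    (∀ z ∈ closedBall b r, z ≠ b → ‖q z - 1‖ ≤ ε) ∧ ‖c - 1‖ ≤ ε := by
  classical
  set Q := Function.update q b c with hQ
  have hQa : ∀ z ∈ closedBall b r, DifferentiableAt ℂ Q z := by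
    intro z hz
    by_cases hzb : z = b
    · rw [hzb]
      refine (Complex.analyticAt_of_differentiable_on_punctured_nhds_of_continuousAt ?_ (continuousAt_update_same.2 hc)).differentiableAt
      have h1 : ∀ᶠ w in 𝓝[≠] b, w ∈ closedBall b r := nhdsWithin_le_nhds (closedBall_mem_nhds b hr)
      filter_upwards [h1, self_mem_nhdsWithin] with w hw hwb
      refine (hq w hw hwb).differentiableAt.congr_of_eventuallyEq ?_
      filter_upwards [isOpen_ne.mem_nhds hwb] with v hv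
      exact Function.update_of_ne hv _ _
    · refine (hq z hz hzb).differentiableAt.congr_of_eventuallyEq ?_
      filter_upwards [isOpen_ne.mem_nhds hzb] with v hv
      exact Function.update_of_ne hv _ _
  have hd : DiffContOnCl ℂ (fun z => Q z - 1) (ball b r) := by
    refine DifferentiableOn.diffContOnCl ?_
    rw [closure_ball b hr.ne']
    exact fun z hz => ((hQa z hz).sub_const 1).differentiableWithinAt
  have hmain : ∀ z ∈ closedBall b r, ‖Q z - 1‖ ≤ ε := by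
    intro z hz
    refine Complex.norm_le_of_forall_mem_frontier_norm_le isBounded_ball hd (fun w hw => ?_) (by rwa [closure_ball b hr.ne'])
    rw [frontier_ball b hr.ne'] at hw
    have hwb : w ≠ b := by
      rintro rfl
      rw [mem_sphere, dist_self] at hw
      exact hr.ne hw
    show ‖Q w - 1‖ ≤ ε
    rw [hQ, Function.update_of_ne hwb]
    exact hs w hw
  refine ⟨fun z hz hzb => ?_, ?_⟩
  · have h1 := hmain z hz
    rwa [hQ, Function.update_of_ne hzb] at h1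
  · have h1 := hmain b (mem_closedBall_self hr.le)
    rwa [hQ, Function.update_self] at h1

/-- **Holes.** A meromorphic function whose only zero or pole in a disc is its center, and which is near `1` on the circle, is near `1` in the disc. -/
theorem hole {q : ℂ → ℂ} {b : ℂ} {r ε : ℝ} (hr : 0 < r) (hε : ε < 1 / 2) (hq : ∀ z ∈ closedBall b r, z ≠ b → AnalyticAt ℂ q z ∧ q z ≠ 0)
    (hm : MeromorphicAt q b) (hs : ∀ z ∈ sphere b r, ‖q z - 1‖ ≤ ε) : ∀ z ∈ closedBall b r, z ≠ b → ‖q z - 1‖ ≤ ε := by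
  rcases lt_or_ge (meromorphicOrderAt q b) 0 with ho | ho
  · exfalso
    have h1 := tendsto_cobounded_of_meromorphicOrderAt_neg ho
    have h2 : Tendsto (fun z => (q z)⁻¹) (𝓝[≠] b) (𝓝 0) := tendsto_inv₀_cobounded.comp h1
    have h3 := hole_ext (q := fun z => (q z)⁻¹) (ε := ε / (1 - ε)) hr (fun z hz hzb => (hq z hz hzb).1.inv (hq z hz hzb).2) h2 (by
      intro z hz
      have hzb : z ≠ b := by
        rintro rfl
        rw [mem_sphere, dist_self] at hz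
        exact hr.ne hz
      have hq0 := (hq z (sphere_subset_closedBall hz) hzb).2
      have h4 := hs z hz
      have h5 : 1 - ε ≤ ‖q z‖ := by
        have h6 := norm_sub_norm_le (1 : ℂ) (1 - q z)
        rw [norm_one, sub_sub_cancel, norm_sub_rev] at h6
        linarith
      have h6 : (q z)⁻¹ - 1 = (1 - q z) / q z := by field_simp
      rw [h6, norm_div, norm_sub_rev]
      exact div_le_div₀ ((norm_nonneg _).trans h4) h4 (by linarith) h5)
    have h4 := h3.2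
    rw [zero_sub, norm_neg, norm_one, le_div_iff₀ (by linarith)] at h4
    linarith
  · obtain ⟨c, hc⟩ := tendsto_nhds_of_meromorphicOrderAt_nonneg hm ho
    exact (hole_ext hr (fun z hz hzb => (hq z hz hzb).1) hc hs).1

/-- a half plane -/
def HPl (p c : ℂ) (t : ℝ) : Set ℂ := {z | t < ((z - p) / c).im}

theorem hpl_near {p c : ℂ} (hc : ‖c‖ = 1) {s t : ℝ} {z w : ℂ} (hz : z ∈ HPl p c t) (hw : ‖w - z‖ ≤ t - s) : w ∈ HPl p c s := by
  have h1 : t < ((z - p) / c).im := hz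
  have h2 : (w - p) / c = (z - p) / c + (w - z) / c := by rw [← add_div]; congr 1; ring
  have h3 : |((w - z) / c).im| ≤ ‖w - z‖ := by
    refine (Complex.abs_im_le_norm _).trans ?_
    rw [norm_div, hc, div_one]
  show s < ((w - p) / c).im
  rw [h2, Complex.add_im]
  have h4 := (abs_le.1 h3).1
  linarith

theorem hpl_mono {p c : ℂ} {s t : ℝ} (h : s ≤ t) : HPl p c t ⊆ HPl p c s := fun _ hz => lt_of_le_of_lt h hz

theorem isOpen_hpl (p c : ℂ) (t : ℝ) : IsOpen (HPl p c t) := by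
  have hcont : Continuous fun z : ℂ => ((z - p) / c).im := by
    have h1 : Continuous fun z : ℂ => (z - p) / c := (continuous_id.sub continuous_const).div_const c
    exact Complex.continuous_im.comp h1
  exact isOpen_lt continuous_const hcont

variable {Λ : AddSubgroup ℂ} {B : Set ℂ} {δ : ℝ}

theorem sphere_gd (hB : BadSet B Λ δ) {b : ℂ} (hb : b ∈ B) {z : ℂ} (hz : z ∈ sphere b δ) : z ∈ Gd B δ := by
  have hδ := hB.pos
  rw [mem_sphere, dist_eq_norm] at hz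
  intro b' hb'
  by_cases h : b' = b
  · rw [h, hz]
  · have h1 := hB.sep b' hb' b hb h
    have h2 : b' - b = (z - b) - (z - b') := by ring
    rw [h2] at h1
    have h3 := norm_sub_le (z - b) (z - b')
    linarith

theorem closedBall_notMem (hB : BadSet B Λ δ) {b : ℂ} (hb : b ∈ B) {z : ℂ} (hz : z ∈ closedBall b δ) (hzb : z ≠ b) : z ∉ B := by
  have hδ := hB.pos
  intro hzB
  rw [mem_closedBall, dist_eq_norm] at hz
  have h1 := hB.sep z hzB b hb hzb
  linarith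

/-- `hole` in a half plane -/
theorem hole_half (hB : BadSet B Λ δ) {p c : ℂ} (hc : ‖c‖ = 1) {q : ℂ → ℂ} {ε : ℝ} (hε : ε < 1 / 2)
    (hq : ∀ z ∈ HPl p c 0, z ∉ B → AnalyticAt ℂ q z ∧ q z ≠ 0) (hm : ∀ b ∈ HPl p c 0, b ∈ B → MeromorphicAt q b)
    (hs : ∀ z ∈ HPl p c 0, z ∈ Gd B δ → ‖q z - 1‖ ≤ ε) : ∀ z ∈ HPl p c (2 * δ), z ∉ B → ‖q z - 1‖ ≤ ε := by
  intro z hz hzB
  have hδ := hB.pos
  by_cases hg : z ∈ Gd B δ
  · exact hs z (hpl_mono (by linarith) hz) hg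
  · have h1 : ∃ b ∈ B, ‖z - b‖ < δ := by
      by_contra hcon
      push Not at hcon
      exact hg hcon
    obtain ⟨b, hb, hzb⟩ := h1
    have h2 : ∀ w ∈ closedBall b δ, w ∈ HPl p c 0 := by
      intro w hw
      refine hpl_near hc hz ?_
      rw [mem_closedBall, dist_eq_norm] at hw
      have h3 : w - z = (w - b) - (z - b) := by ring
      rw [h3]
      have h4 := norm_sub_le (w - b) (z - b)
      linarith
    refine hole hB.pos hε (fun w hw hwb => hq w (h2 w hw) (closedBall_notMem hB hb hw hwb)) (hm b (h2 b (mem_closedBall_self hδ.le)) hb)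
      (fun w hw => hs w (h2 w (sphere_subset_closedBall hw)) (sphere_gd hB hb hw)) z ?_ ?_
    · rw [mem_closedBall, dist_eq_norm]
      exact hzb.le
    · rintro rfl
      exact hzB hb

/-- the points of `B` are isolated -/
theorem eventually_notMem (hB : BadSet B Λ δ) (z : ℂ) : ∀ᶠ w in 𝓝[≠] z, w ∉ B := by
  have hδ := hB.pos
  by_cases h : ∃ b ∈ B, ‖z - b‖ < 2 * δ ∧ b ≠ z
  · obtain ⟨b, hb, hzb, hne⟩ := h
    have hpos : 0 < ‖z - b‖ := norm_pos_iff.2 (sub_ne_zero.2 fun e => hne e.symm)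
    have h1 : ∀ᶠ w in 𝓝[≠] z, w ∈ ball z (min ‖z - b‖ δ) := nhdsWithin_le_nhds (ball_mem_nhds z (lt_min hpos hδ))
    filter_upwards [h1] with w hw hwB
    rw [mem_ball, dist_eq_norm] at hw
    have hw1 := hw.trans_le (min_le_left _ _)
    have hw2 := hw.trans_le (min_le_right _ _)
    have hwb : w ≠ b := by
      rintro rfl
      rw [norm_sub_rev] at hw1
      exact lt_irrefl _ hw1
    have h2 := hB.sep w hwB b hb hwb
    have h3 : w - b = (w - z) + (z - b) := by ring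
    rw [h3] at h2
    have h4 := norm_add_le (w - z) (z - b)
    linarith
  · push Not at h
    have h1 : ∀ᶠ w in 𝓝[≠] z, w ∈ ball z δ := nhdsWithin_le_nhds (ball_mem_nhds z hδ)
    filter_upwards [h1, self_mem_nhdsWithin] with w hw hwz hwB
    rw [mem_ball, dist_eq_norm] at hw
    refine hwz (h w hwB ?_)
    rw [norm_sub_rev]
    linarith

theorem isClosed_bad (hB : BadSet B Λ δ) : IsClosed B := by
  rw [← isOpen_compl_iff, isOpen_iff_mem_nhds]
  intro z hz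
  have h1 := eventually_notMem hB z
  rw [eventually_nhdsWithin_iff] at h1
  filter_upwards [h1] with w hw
  by_cases h : w = z
  · rw [h]
    exact hz
  · exact hw h

theorem notMem_nhds (hB : BadSet B Λ δ) {z : ℂ} (hz : z ∉ B) : ∀ᶠ w in 𝓝 z, w ∉ B :=
  (isClosed_bad hB).isOpen_compl.mem_nhds hz

/-- **Bounded functions on a half plane which vanish at the points of a translate of the lattice are zero.** -/
theorem kl (hΛ : Lat Λ) (hB : BadSet B Λ δ) (b₀ : ℂ) {p c : ℂ} (hc : ‖c‖ = 1) {t M : ℝ} {E : ℂ → ℂ}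
    (hE : ∀ z ∈ HPl p c t, z ∉ B → AnalyticAt ℂ E z) (hM : ∀ z ∈ HPl p c t, z ∉ B → ‖E z‖ ≤ M)
    (h0 : ∀ b ∈ HPl p c t, b - b₀ ∈ Λ → Tendsto E (𝓝[≠] b) (𝓝 0)) : ∀ z ∈ HPl p c t, z ∉ B → E z = 0 := by
  have hc0 : c ≠ 0 := by
    rintro rfl
    rw [norm_zero] at hc
    exact zero_ne_one hc
  set F : ℂ → ℂ := fun z => limUnder (𝓝[≠] z) E with hF
  have hlim : ∀ z ∈ HPl p c t, Tendsto E (𝓝[≠] z) (𝓝 (F z)) := by
    intro z hz
    have hop : ∀ᶠ w in 𝓝[≠] z, w ∈ HPl p c t := nhdsWithin_le_nhds ((isOpen_hpl p c t).mem_nhds hz)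
    refine Complex.tendsto_limUnder_of_differentiable_on_punctured_nhds_of_bounded_under ?_ ?_
    · filter_upwards [hop, eventually_notMem hB z] with w h1 h2
      exact (hE w h1 h2).differentiableAt
    · refine ⟨M + ‖E z‖, ?_⟩
      rw [eventually_map]
      filter_upwards [hop, eventually_notMem hB z] with w h1 h2
      exact (norm_sub_le _ _).trans (add_le_add (hM w h1 h2) le_rfl)
  have hFE : ∀ z ∈ HPl p c t, z ∉ B → F z = E z := fun z hz hzB =>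
    tendsto_nhds_unique (hlim z hz) ((hE z hz hzB).continuousAt.tendsto.mono_left nhdsWithin_le_nhds)
  have hFd : ∀ z ∈ HPl p c t, DifferentiableAt ℂ F z := by
    intro z hz
    have hop : ∀ᶠ w in 𝓝[≠] z, w ∈ HPl p c t := nhdsWithin_le_nhds ((isOpen_hpl p c t).mem_nhds hz)
    have hev : ∀ᶠ w in 𝓝[≠] z, F w = E w := by
      filter_upwards [hop, eventually_notMem hB z] with w h1 h2
      exact hFE w h1 h2
    refine (Complex.analyticAt_of_differentiable_on_punctured_nhds_of_continuousAt ?_ ?_).differentiableAt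
    · filter_upwards [hop, eventually_notMem hB z] with w h1 h2
      refine (hE w h1 h2).differentiableAt.congr_of_eventuallyEq ?_
      filter_upwards [(isOpen_hpl p c t).mem_nhds h1, notMem_nhds hB h2] with v h3 h4
      exact hFE v h3 h4
    · rw [continuousAt_iff_punctured_nhds]
      exact (hlim z hz).congr' (hev.mono fun w hw => hw.symm)
  have hFM : ∀ z ∈ HPl p c t, ‖F z‖ ≤ M := by
    intro z hz
    refine le_of_tendsto (hlim z hz).norm ?_
    have hop : ∀ᶠ w in 𝓝[≠] z, w ∈ HPl p c t := nhdsWithin_le_nhds ((isOpen_hpl p c t).mem_nhds hz)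
    filter_upwards [hop, eventually_notMem hB z] with w h1 h2
    exact hM w h1 h2
  have hF0 : ∀ b ∈ HPl p c t, b - b₀ ∈ Λ → F b = 0 := fun b hb hbΛ => tendsto_nhds_unique (hlim b hb) (h0 b hb hbΛ)
  -- the map to the half plane
  set φ : ℂ → ℂ := fun ζ => p + c * (ζ + (t : ℂ) * Complex.I) with hφ
  have hφm : ∀ ζ ∈ Hp, φ ζ ∈ HPl p c t := by
    intro ζ hζ
    have h1 : 0 < ζ.im := hζ
    show t < ((p + c * (ζ + (t : ℂ) * Complex.I) - p) / c).im
    rw [add_sub_cancel_left, mul_div_cancel_left₀ _ hc0]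
    simp
    linarith
  have hφd : Differentiable ℂ φ := by
    intro ζ
    exact ((differentiableAt_id.add_const _).const_mul c).const_add p
  obtain ⟨R, hR, hco⟩ := hΛ.cocompact
  -- the zeros
  have hz : ∀ k : ℕ, ∃ a : ℂ, φ a - b₀ ∈ Λ ∧ ‖a - ((4 * R * ((k : ℝ) + 1) : ℝ) : ℂ) * Complex.I‖ ≤ R := by
    intro k
    obtain ⟨l, hl, hl'⟩ := hco (φ (((4 * R * ((k : ℝ) + 1) : ℝ) : ℂ) * Complex.I) - b₀)
    refine ⟨(b₀ + l - p) / c - (t : ℂ) * Complex.I, ?_, ?_⟩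
    · have h1 : φ ((b₀ + l - p) / c - (t : ℂ) * Complex.I) - b₀ = l := by
        rw [hφ]
        show p + c * ((b₀ + l - p) / c - (t : ℂ) * Complex.I + (t : ℂ) * Complex.I) - b₀ = l
        rw [sub_add_cancel, mul_div_cancel₀ _ hc0]
        ring
      rw [h1]
      exact hl
    · have h1 : (b₀ + l - p) / c - (t : ℂ) * Complex.I - ((4 * R * ((k : ℝ) + 1) : ℝ) : ℂ) * Complex.I =
          -(φ (((4 * R * ((k : ℝ) + 1) : ℝ) : ℂ) * Complex.I) - b₀ - l) / c := by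
        rw [hφ]
        field_simp
        ring
      rw [h1, norm_div, norm_neg, hc, div_one]
      exact hl'
  choose a ha ha' using hz
  have haim : ∀ k : ℕ, 3 * R * ((k : ℝ) + 1) ≤ (a k).im := by
    intro k
    have h1 := (Complex.abs_im_le_norm _).trans (ha' k)
    have h2 := (abs_le.1 h1).1
    rw [Complex.sub_im, Complex.mul_I_im, Complex.ofReal_re] at h2
    have h3 : 0 ≤ (k : ℝ) := Nat.cast_nonneg k
    nlinarith
  have hkpos : ∀ k : ℕ, 0 < 3 * R * ((k : ℝ) + 1) := fun k => by positivity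
  have hinj : Function.Injective a := by
    intro j k hjk
    by_contra hne
    have h1 := ha' j
    have h2 := ha' k
    rw [hjk] at h1
    have h3 : ((4 * R * ((j : ℝ) + 1) : ℝ) : ℂ) * Complex.I - ((4 * R * ((k : ℝ) + 1) : ℝ) : ℂ) * Complex.I =
        (a k - ((4 * R * ((k : ℝ) + 1) : ℝ) : ℂ) * Complex.I) - (a k - ((4 * R * ((j : ℝ) + 1) : ℝ) : ℂ) * Complex.I) := by ring
    have h4 := norm_sub_le (a k - ((4 * R * ((k : ℝ) + 1) : ℝ) : ℂ) * Complex.I) (a k - ((4 * R * ((j : ℝ) + 1) : ℝ) : ℂ) * Complex.I)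
    rw [← h3, ← sub_mul, norm_mul, Complex.norm_I, mul_one, ← Complex.ofReal_sub, Complex.norm_real, Real.norm_eq_abs] at h4
    have h5 : (4 * R * ((j : ℝ) + 1)) - (4 * R * ((k : ℝ) + 1)) = 4 * R * ((j : ℝ) - k) := by ring
    rw [h5, abs_mul, abs_of_pos (by positivity : 0 < 4 * R)] at h4
    have h6 : (1 : ℝ) ≤ |(j : ℝ) - k| := by
      have h7 : (1 : ℤ) ≤ |(j : ℤ) - k| := Int.one_le_abs (sub_ne_zero.2 (by exact_mod_cast hne))
      have h8 : ((1 : ℤ) : ℝ) ≤ ((|(j : ℤ) - k| : ℤ) : ℝ) := by exact_mod_cast h7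
      push_cast at h8
      exact h8
    nlinarith
  have hmem : ∀ k, a k ∈ Hp ∧ (F ∘ φ) (a k) = 0 := fun k => by
    have h1 : a k ∈ Hp := lt_of_lt_of_le (hkpos k) (haim k)
    exact ⟨h1, hF0 _ (hφm _ h1) (ha k)⟩
  have hzero : ∀ ζ ∈ Hp, (F ∘ φ) ζ = 0 := by
    intro ζ hζ
    by_contra hne
    have hsum := summable_of_ne (F := F ∘ φ) (M := M)
      (fun ξ hξ => ((hFd _ (hφm _ hξ)).comp ξ (hφd ξ)).differentiableWithinAt) (fun ξ hξ => hFM _ (hφm _ hξ)) hinj hmem hζ hne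
    set A : ℝ := ‖ζ‖ + 5 * R with hA
    have hApos : 0 < A := by positivity
    have hle : ∀ k : ℕ, 3 * R / A ^ 2 * (1 / ((k : ℝ) + 1)) ≤ (a k).im / ‖ζ - (starRingEnd ℂ) (a k)‖ ^ 2 := by
      intro k
      have hk : 0 ≤ (k : ℝ) := Nat.cast_nonneg k
      have h1 : ‖ζ - (starRingEnd ℂ) (a k)‖ ≤ A * ((k : ℝ) + 1) := by
        have h2 := norm_sub_le ζ ((starRingEnd ℂ) (a k))
        rw [Complex.norm_conj] at h2
        have h3 : ‖a k‖ ≤ R + 4 * R * ((k : ℝ) + 1) := by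
          have h4 : a k = (a k - ((4 * R * ((k : ℝ) + 1) : ℝ) : ℂ) * Complex.I) + ((4 * R * ((k : ℝ) + 1) : ℝ) : ℂ) * Complex.I := by ring
          rw [h4]
          refine (norm_add_le _ _).trans (add_le_add (ha' k) (le_of_eq ?_))
          rw [norm_mul, Complex.norm_I, mul_one, Complex.norm_real, Real.norm_of_nonneg (by positivity)]
        have h5 := norm_nonneg ζ
        rw [hA]
        nlinarith
      have h2 : 0 < ‖ζ - (starRingEnd ℂ) (a k)‖ := by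
        rw [norm_pos_iff]
        exact Pool.Agent.H62.Bl.den_ne (hmem k).1 hζ
      rw [div_mul_div_comm, mul_one, div_le_div_iff₀ (by positivity) (by positivity)]
      calc 3 * R * ‖ζ - (starRingEnd ℂ) (a k)‖ ^ 2 ≤ 3 * R * (A * ((k : ℝ) + 1)) ^ 2 := by gcongr
        _ = 3 * R * ((k : ℝ) + 1) * (A ^ 2 * ((k : ℝ) + 1)) := by ring
        _ ≤ (a k).im * (A ^ 2 * ((k : ℝ) + 1)) := by gcongr; exact haim k
    have hs2 : Summable fun k : ℕ => 3 * R / A ^ 2 * (1 / ((k : ℝ) + 1)) :=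
      Summable.of_nonneg_of_le (fun k => by positivity) hle hsum
    have hne0 : (3 * R / A ^ 2) ≠ 0 := by positivity
    rw [summable_mul_left_iff hne0] at hs2
    have hs3 : Summable fun k : ℕ => 1 / (((k + 1 : ℕ)) : ℝ) := by
      refine hs2.congr fun k => ?_
      push_cast
      rfl
    exact Real.not_summable_one_div_natCast ((summable_nat_add_iff 1).1 hs3)
  intro z hz hzB
  rw [← hFE z hz hzB]
  have h1 : z = φ ((z - p) / c - (t : ℂ) * Complex.I) := by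
    rw [hφ]
    show z = p + c * ((z - p) / c - (t : ℂ) * Complex.I + (t : ℂ) * Complex.I)
    rw [sub_add_cancel, mul_div_cancel₀ _ hc0]
    ring
  rw [h1]
  refine hzero _ ?_
  have h2 : t < ((z - p) / c).im := hz
  show 0 < ((z - p) / c - (t : ℂ) * Complex.I).im
  simp
  linarith

end Pool.Agent.H86.LR

end

section

/-!
# LR Fam: the abstract argument (first exit) for families of meromorphic functions with finitely many exceptional sections
-/

set_option autoImplicit false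

open Topology Filter Metric

namespace Pool.Agent.H86.LR

attribute [-instance] ProperSMul.toContinuousSMul

open Pool.Agent.H62.EL (Gd BadSet gd_notMem isClosed_gd Ag gd_mono)
open Pool.Agent.H62.EF (Lat)

variable {Λ : AddSubgroup ℂ} {B : Set ℂ} {δ : ℝ}

/-- continuous convergence on `Ω` along an ultrafilter -/
def CV (𝒰 : Ultrafilter ℕ) (F : ℕ → ℂ → ℂ) (f : ℂ → ℂ) (Ω : Set ℂ) : Prop :=
  ∀ z₀ ∈ Ω, ∀ z : ℕ → ℂ, Tendsto z 𝒰 (𝓝 z₀) → Tendsto (fun n => F n (z n)) 𝒰 (𝓝 (f z₀))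

theorem CV.pt {𝒰 : Ultrafilter ℕ} {F : ℕ → ℂ → ℂ} {f : ℂ → ℂ} {Ω : Set ℂ} (h : CV 𝒰 F f Ω) {z : ℂ} (hz : z ∈ Ω) :
    Tendsto (fun n => F n z) 𝒰 (𝓝 (f z)) := h z hz (fun _ => z) tendsto_const_nhds

/-- convergence on a compact set: bounds for the norms -/
theorem CV.lt_on {𝒰 : Ultrafilter ℕ} {F : ℕ → ℂ → ℂ} {f : ℂ → ℂ} {Ω : Set ℂ} (h : CV 𝒰 F f Ω) {K : Set ℂ} (hK : IsCompact K) (hKΩ : K ⊆ Ω)
    {M : ℝ} (hM : ∀ z ∈ K, ‖f z‖ < M) : ∀ᶠ n in (𝒰 : Filter ℕ), ∀ z ∈ K, ‖F n z‖ < M := by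
  by_contra hcon
  rw [← Ultrafilter.eventually_not] at hcon
  have h1 : ∀ n, ∃ z, (¬ ∀ z ∈ K, ‖F n z‖ < M) → z ∈ K ∧ M ≤ ‖F n z‖ := by
    intro n
    by_cases hn : ∀ z ∈ K, ‖F n z‖ < M
    · exact ⟨0, fun hn' => absurd hn hn'⟩
    · have hn' := hn
      push Not at hn'
      obtain ⟨z, hz, hz'⟩ := hn'
      exact ⟨z, fun _ => ⟨hz, hz'⟩⟩
  choose z hz using h1
  have h2 : ∀ᶠ n in (𝒰 : Filter ℕ), z n ∈ K := hcon.mono fun n hn => (hz n hn).1
  obtain ⟨z₀, hz₀, hlim⟩ := hK.ultrafilter_le_nhds (𝒰.map z) (by rw [le_principal_iff]; exact h2)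
  have h3 := (h z₀ (hKΩ hz₀) z hlim).norm
  have h4 : M ≤ ‖f z₀‖ := ge_of_tendsto h3 (hcon.mono fun n hn => (hz n hn).2)
  exact absurd (hM z₀ hz₀) (not_lt.2 h4)

/-- **The first exit.** -/
theorem exit (hΛ : Lat Λ) (𝒰 : Ultrafilter ℕ) {X : ℕ → Set ℂ} (hX : ∀ n, IsClosed (X n)) (hne : ∀ᶠ n in (𝒰 : Filter ℕ), (X n).Nonempty)
    (hesc : ∀ R : ℝ, ∀ᶠ n in (𝒰 : Filter ℕ), ∀ w ∈ X n, R < ‖w‖) :
    ∃ (w l : ℕ → ℂ) (p c : ℂ), ‖c‖ = 1 ∧ (∀ᶠ n in (𝒰 : Filter ℕ), w n ∈ X n) ∧ (∀ n, l n ∈ Λ) ∧ Tendsto (fun n => w n - l n) 𝒰 (𝓝 p) ∧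
      ∀ z ∈ HPl p c 0, ∀ᶠ n in (𝒰 : Filter ℕ), z + l n ∉ X n := by
  have h1 : ∀ n, ∃ w, (X n).Nonempty → w ∈ X n ∧ ∀ v ∈ X n, ‖w‖ ≤ ‖v‖ := by
    intro n
    by_cases hn : (X n).Nonempty
    · obtain ⟨w, hw, hw'⟩ := (hX n).exists_infDist_eq_dist hn 0
      refine ⟨w, fun _ => ⟨hw, fun v hv => ?_⟩⟩
      have h2 := infDist_le_dist_of_mem (x := (0 : ℂ)) hv
      rw [hw', dist_zero_left, dist_zero_left] at h2
      exact h2
    · exact ⟨0, fun h => absurd h hn⟩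
  choose w hw using h1
  obtain ⟨R, hR, hco⟩ := hΛ.cocompact
  choose l hl hlR using fun n => hco (w n)
  have hwX : ∀ᶠ n in (𝒰 : Filter ℕ), w n ∈ X n := hne.mono fun n hn => (hw n hn).1
  -- the limits
  obtain ⟨p, -, hp⟩ := (isCompact_closedBall (0 : ℂ) R).ultrafilter_le_nhds (𝒰.map fun n => w n - l n) (by
    rw [le_principal_iff]
    refine Filter.mem_map.2 (Filter.univ_mem' fun n => ?_)
    show w n - l n ∈ closedBall (0 : ℂ) R
    rw [mem_closedBall_zero_iff]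
    exact hlR n)
  have hwpos : ∀ᶠ n in (𝒰 : Filter ℕ), 0 < ‖w n‖ := by
    filter_upwards [hesc 0, hwX] with n h1 h2
    exact h1 _ h2
  obtain ⟨e, he, hlime⟩ := (isCompact_sphere (0 : ℂ) 1).ultrafilter_le_nhds (𝒰.map fun n => w n / ((‖w n‖ : ℝ) : ℂ)) (by
    rw [le_principal_iff]
    refine Filter.mem_map.2 (hwpos.mono fun n hn => ?_)
    show w n / ((‖w n‖ : ℝ) : ℂ) ∈ sphere (0 : ℂ) 1
    rw [mem_sphere_zero_iff_norm, norm_div, Complex.norm_real, norm_norm, div_self hn.ne'])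
  have hp' : Tendsto (fun n => w n - l n) 𝒰 (𝓝 p) := hp
  have he' : Tendsto (fun n => w n / ((‖w n‖ : ℝ) : ℂ)) 𝒰 (𝓝 e) := hlime
  rw [mem_sphere_zero_iff_norm] at he
  have hec : e ≠ 0 := by
    rintro rfl
    rw [norm_zero] at he
    exact zero_ne_one he
  refine ⟨w, l, p, Complex.I * e, by rw [norm_mul, Complex.norm_I, he, mul_one], hwX, hl, hp', ?_⟩
  intro z hz
  have hz' : 0 < ((z - p) / (Complex.I * e)).im := hz
  -- `Re (conj e (z - p)) < 0`
  have hee : (starRingEnd ℂ) e * e = 1 := by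
    rw [mul_comm, Complex.mul_conj, Complex.normSq_eq_norm_sq, he]
    norm_num
  have h2 : ((starRingEnd ℂ) e * (z - p)).re < 0 := by
    have h3 : (z - p) / (Complex.I * e) = -(Complex.I * ((starRingEnd ℂ) e * (z - p))) := by
      rw [div_eq_iff (mul_ne_zero Complex.I_ne_zero hec)]
      calc z - p = -(Complex.I * Complex.I) * ((starRingEnd ℂ) e * e) * (z - p) := by rw [Complex.I_mul_I, hee]; ring
        _ = _ := by ring
    rw [h3, Complex.neg_im, Complex.I_mul_im] at hz'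
    linarith
  have hv : Tendsto (fun n => z + l n - w n) 𝒰 (𝓝 (z - p)) := by
    have h3 : (fun n => z + l n - w n) = fun n => z - (w n - l n) := by
      funext n
      ring
    rw [h3]
    exact tendsto_const_nhds.sub hp'
  have hdot : Tendsto (fun n => ((starRingEnd ℂ) (w n / ((‖w n‖ : ℝ) : ℂ)) * (z + l n - w n)).re) 𝒰 (𝓝 ((starRingEnd ℂ) e * (z - p)).re) := by
    have h3 : Tendsto (fun n => (starRingEnd ℂ) (w n / ((‖w n‖ : ℝ) : ℂ))) 𝒰 (𝓝 ((starRingEnd ℂ) e)) :=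
      (Complex.continuous_conj.tendsto e).comp he'
    exact (Complex.continuous_re.tendsto _).comp (h3.mul hv)
  set s : ℝ := ((starRingEnd ℂ) e * (z - p)).re with hs
  have h3 : ∀ᶠ n in (𝒰 : Filter ℕ), ((starRingEnd ℂ) (w n / ((‖w n‖ : ℝ) : ℂ)) * (z + l n - w n)).re < s / 2 :=
    hdot.eventually_lt_const (by linarith)
  have h4 : ∀ᶠ n in (𝒰 : Filter ℕ), ‖z + l n - w n‖ < ‖z - p‖ + 1 := hv.norm.eventually_lt_const (by linarith)
  filter_upwards [h3, h4, hwX, hwpos, hesc ((‖z - p‖ + 1) ^ 2 / (-s)), hne] with n h3 h4 h5 h6 h7 hn hmem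
  have h8 := (hw n hn).2 _ hmem
  have h9 := h7 _ h5
  set v := z + l n - w n with hvdef
  have h10 : z + l n = w n + v := by rw [hvdef]; ring
  rw [h10] at h8
  have h11 : ‖w n + v‖ ^ 2 = ‖w n‖ ^ 2 + 2 * ((starRingEnd ℂ) (w n) * v).re + ‖v‖ ^ 2 := by
    rw [Complex.sq_norm, Complex.sq_norm, Complex.sq_norm, Complex.normSq_apply, Complex.normSq_apply, Complex.normSq_apply, Complex.mul_re,
      Complex.add_re, Complex.add_im, Complex.conj_re, Complex.conj_im]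
    ring
  have h12 : ((starRingEnd ℂ) (w n) * v).re = ‖w n‖ * ((starRingEnd ℂ) (w n / ((‖w n‖ : ℝ) : ℂ)) * v).re := by
    have h13 : (starRingEnd ℂ) (w n) * v = ((‖w n‖ : ℝ) : ℂ) * ((starRingEnd ℂ) (w n / ((‖w n‖ : ℝ) : ℂ)) * v) := by
      rw [map_div₀, Complex.conj_ofReal]
      have h14 : ((‖w n‖ : ℝ) : ℂ) ≠ 0 := by exact_mod_cast h6.ne'
      field_simp
    rw [h13, Complex.re_ofReal_mul]
  have h13 : ‖w n‖ ^ 2 ≤ ‖w n + v‖ ^ 2 := pow_le_pow_left₀ (norm_nonneg _) h8 2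
  rw [h11, h12] at h13
  have h14 : ‖v‖ ^ 2 ≤ (‖z - p‖ + 1) ^ 2 := pow_le_pow_left₀ (norm_nonneg _) h4.le 2
  have h15 : (‖z - p‖ + 1) ^ 2 < ‖w n‖ * (-s) := by
    rwa [div_lt_iff₀ (by linarith)] at h9
  have h16 : ‖w n‖ * ((starRingEnd ℂ) (w n / ((‖w n‖ : ℝ) : ℂ)) * v).re ≤ ‖w n‖ * (s / 2) := mul_le_mul_of_nonneg_left h3.le h6.le
  nlinarith

/-- the abstract situation -/
structure Fam (Λ : AddSubgroup ℂ) (B : Set ℂ) (δ : ℝ) {ι : Type} (o : ι) (S : Set ℂ → Set (ℂ → ℂ)) (T : ι → (ℂ → ℂ) → ℂ → ℂ) : Prop where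
  lat : Lat Λ
  bad : BadSet B Λ δ
  mono : ∀ {Ω Ω' : Set ℂ}, Ω' ⊆ Ω → S Ω ⊆ S Ω'
  an : ∀ {Ω : Set ℂ} {f : ℂ → ℂ}, f ∈ S Ω → ∀ z ∈ Ω, z ∉ B → AnalyticAt ℂ f z ∧ f z ≠ 0
  trans : ∀ {f : ℂ → ℂ}, f ∈ S Set.univ → ∀ l ∈ Λ, (fun z => f (z + l)) ∈ S Set.univ
  Tmem : ∀ {Ω : Set ℂ} {f : ℂ → ℂ}, f ∈ S Ω → ∀ i, T i f ∈ S Ω
  Ttrans : ∀ i f, ∀ l ∈ Λ, ∀ z, T i (fun z => f (z + l)) z = T i f (z + l)
  Tzero : ∀ f, T o f = f
  compact : ∀ (𝒰 : Ultrafilter ℕ) (F : ℕ → ℂ → ℂ) (R : ℕ → ℝ), Tendsto R 𝒰 atTop → (∀ n, F n ∈ S (ball 0 (R n))) →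
    (∃ f ∈ S Set.univ, CV 𝒰 F f Bᶜ) ∨ ∃ i, CV 𝒰 (fun n => T i (F n)) (fun _ => 0) Bᶜ
  near : ∃ δ₁ c₁ : ℝ, 0 < δ₁ ∧ 0 < c₁ ∧
    (∀ p c : ℂ, ‖c‖ = 1 → ∀ f ∈ S (HPl p c 0), ¬ ∀ z ∈ HPl p c 0, z ∈ Gd B δ → ‖f z‖ ≤ δ₁) ∧
    ∀ i, i ≠ o → ∀ (Ω : Set ℂ), ∀ f ∈ S Ω, ∀ z ∈ Ω, z ∈ Gd B δ → ‖f z‖ ≤ δ₁ → c₁ ≤ ‖T i f z‖
  pair : ∀ δ₀ : ℝ, 0 < δ₀ → ∃ ε : ℝ, 0 < ε ∧ ∀ p c : ℂ, ‖c‖ = 1 → ∀ f ∈ S (HPl p c 0), ∀ g ∈ S (HPl p c 0),
    (∀ i, ∀ z ∈ HPl p c 0, z ∈ Gd B δ → δ₀ ≤ ‖T i f z‖ ∧ δ₀ ≤ ‖T i g z‖) → (∀ z ∈ HPl p c 0, z ∈ Gd B δ → ‖f z - g z‖ ≤ ε) →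
    ∀ z ∈ HPl p c (2 * δ), z ∉ B → f z = g z

theorem isPreconnected_compl (hB : BadSet B Λ δ) : IsPreconnected (Bᶜ : Set ℂ) := by
  have hd : B.PairwiseDisjoint (fun b => ball b (4 * δ)) := by
    intro b hb b' hb' hne
    refine ball_disjoint_ball ?_
    rw [dist_eq_norm]
    have := hB.sep b hb b' hb' hne
    linarith
  have hc : B.Countable := hd.countable_of_isOpen (fun _ _ => isOpen_ball) fun b _ => ⟨b, mem_ball_self (by linarith [hB.pos])⟩
  have h1 : 1 < Module.rank ℝ ℂ := by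
    rw [Complex.rank_real_complex]
    exact Cardinal.one_lt_two
  exact (hc.isPathConnected_compl_of_one_lt_rank h1).isConnected.isPreconnected

/-- the identity theorem -/
theorem identity (hB : BadSet B Λ δ) {f g : ℂ → ℂ} (hf : ∀ z, z ∉ B → AnalyticAt ℂ f z) (hg : ∀ z, z ∉ B → AnalyticAt ℂ g z)
    {z₀ : ℂ} (hz₀ : z₀ ∉ B) (h : ∀ᶠ z in 𝓝 z₀, f z = g z) : Ag B f g := fun _ hz =>
  (show AnalyticOnNhd ℂ f Bᶜ from fun z hz => hf z hz).eqOn_of_preconnected_of_eventuallyEq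
    (show AnalyticOnNhd ℂ g Bᶜ from fun z hz => hg z hz) (isPreconnected_compl hB) hz₀ h hz

/-- there is a good point in every half plane -/
theorem exists_gd_hpl (hΛ : Lat Λ) (hB : BadSet B Λ δ) {p c : ℂ} (hc : ‖c‖ = 1) (t : ℝ) : ∃ z ∈ HPl p c t, z ∈ Gd B δ := by
  have hc0 : c ≠ 0 := by
    rintro rfl
    rw [norm_zero] at hc
    exact zero_ne_one hc
  obtain ⟨R, hR, hco⟩ := hΛ.cocompact
  obtain ⟨z₁, hz₁⟩ := hB.nonempty
  obtain ⟨l, hl, hl'⟩ := hco (p + c * (((t + R + 1 : ℝ) : ℂ) * Complex.I) - z₁)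
  refine ⟨z₁ + l, ?_, gd_mono (by linarith [hB.pos]) ((hB.gd_add _ hl).2 hz₁)⟩
  refine hpl_near hc (t := t + R) (z := p + c * (((t + R + 1 : ℝ) : ℂ) * Complex.I)) ?_ ?_
  · show t + R < ((p + c * (((t + R + 1 : ℝ) : ℂ) * Complex.I) - p) / c).im
    rw [add_sub_cancel_left, mul_div_cancel_left₀ _ hc0]
    simp
  · rw [norm_sub_rev]
    have h1 : p + c * (((t + R + 1 : ℝ) : ℂ) * Complex.I) - (z₁ + l) = p + c * (((t + R + 1 : ℝ) : ℂ) * Complex.I) - z₁ - l := by ring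
    rw [h1]
    linarith

section

variable {ι : Type} {o : ι} {S : Set ℂ → Set (ℂ → ℂ)} {T : ι → (ℂ → ℂ) → ℂ → ℂ}

theorem Fam.compactU (E : Fam Λ B δ o S T) (𝒰 : Ultrafilter ℕ) (h𝒰 : (𝒰 : Filter ℕ) ≤ atTop) (F : ℕ → ℂ → ℂ) (hF : ∀ n, F n ∈ S Set.univ) :
    (∃ f ∈ S Set.univ, CV 𝒰 F f Bᶜ) ∨ ∃ i, CV 𝒰 (fun n => T i (F n)) (fun _ => 0) Bᶜ :=
  E.compact 𝒰 F (fun n => n) (tendsto_natCast_atTop_atTop.mono_left h𝒰) fun n => E.mono (Set.subset_univ _) (hF n)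

/-- **The members over `ℂ` are uniformly away from the sections.** -/
theorem Fam.far (E : Fam Λ B δ o S T) : ∃ δ₀ : ℝ, 0 < δ₀ ∧ ∀ f ∈ S Set.univ, ∀ i, ∀ z ∈ Gd B δ, δ₀ ≤ ‖T i f z‖ := by
  by_contra hcon
  push Not at hcon
  have hB := E.bad
  have hδ := hB.pos
  obtain ⟨R₀, hR₀, hco⟩ := E.lat.cocompact
  obtain ⟨δ₁, c₁, hδ₁, hc₁, hnear, hsep⟩ := E.near
  -- the sequence
  have hseq : ∀ n : ℕ, ∃ f ∈ S Set.univ, ∃ z ∈ Gd B δ, ‖z‖ ≤ R₀ ∧ ‖f z‖ < 1 / ((n : ℝ) + 1) := by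
    intro n
    obtain ⟨f, hf, i, z, hz, hlt⟩ := hcon (1 / ((n : ℝ) + 1)) (by positivity)
    obtain ⟨l, hl, hl'⟩ := hco z
    refine ⟨fun z => T i f (z + l), E.trans (E.Tmem hf i) l hl, z - l, ?_, hl', ?_⟩
    · have h1 := (hB.gd_add δ (z := z) (Λ.neg_mem hl)).2 hz
      rwa [← sub_eq_add_neg] at h1
    · show ‖T i f (z - l + l)‖ < _
      rwa [sub_add_cancel]
  choose F hF ζ hζ hζR hlt using hseq
  set 𝒰 : Ultrafilter ℕ := hyperfilter ℕ with h𝒰def
  have h𝒰 : (𝒰 : Filter ℕ) ≤ atTop := Nat.hyperfilter_le_atTop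
  obtain ⟨ζ₀, -, hζ₀⟩ := (isCompact_closedBall (0 : ℂ) R₀).ultrafilter_le_nhds (𝒰.map ζ) (by
    rw [le_principal_iff]
    exact Filter.mem_map.2 (Filter.univ_mem' fun n => mem_closedBall_zero_iff.2 (hζR n)))
  have hζ₀' : Tendsto ζ 𝒰 (𝓝 ζ₀) := hζ₀
  have hζG : ζ₀ ∈ Gd B δ := (isClosed_gd δ).mem_of_tendsto hζ₀' (Eventually.of_forall hζ)
  have hζB : ζ₀ ∉ B := gd_notMem hδ hζG
  have hone : Tendsto (fun n : ℕ => 1 / ((n : ℝ) + 1)) 𝒰 (𝓝 0) := tendsto_one_div_add_atTop_nhds_zero_nat.mono_left h𝒰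
  have hF0 : Tendsto (fun n => F n (ζ n)) 𝒰 (𝓝 0) := squeeze_zero_norm (fun n => (hlt n).le) hone
  -- the limit is the section
  have hCV : CV 𝒰 F (fun _ => 0) Bᶜ := by
    rcases E.compactU 𝒰 h𝒰 F hF with ⟨f, hf, hcv⟩ | ⟨i, hi⟩
    · exfalso
      exact (E.an hf ζ₀ (Set.mem_univ _) hζB).2 (tendsto_nhds_unique (hcv ζ₀ hζB ζ hζ₀') hF0)
    · by_cases hio : i = o
      · rw [hio] at hi
        intro z₀ hz₀ z hz
        have h1 := hi z₀ hz₀ z hz
        simp only [E.Tzero] at h1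
        exact h1
      · exfalso
        have h1 := (hi ζ₀ hζB ζ hζ₀').norm
        rw [norm_zero] at h1
        have h2 : ∀ᶠ n in (𝒰 : Filter ℕ), c₁ ≤ ‖T i (F n) (ζ n)‖ := by
          have h3 : ∀ᶠ n in (𝒰 : Filter ℕ), ‖F n (ζ n)‖ < δ₁ := by
            have h4 := hF0.norm
            rw [norm_zero] at h4
            exact h4.eventually_lt_const hδ₁
          filter_upwards [h3] with n hn
          exact hsep i hio Set.univ (F n) (hF n) (ζ n) (Set.mem_univ _) (hζ n) hn.le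
        exact absurd (ge_of_tendsto h1 h2) (not_le.2 hc₁)
  -- the exit sets
  set X : ℕ → Set ℂ := fun n => {w | w ∈ Gd B δ ∧ δ₁ ≤ ‖F n w‖} with hX
  have hXc : ∀ n, IsClosed (X n) := by
    intro n
    have h1 : ContinuousOn (fun w => ‖F n w‖) (Gd B δ) := fun w hw =>
      (E.an (hF n) w (Set.mem_univ _) (gd_notMem hδ hw)).1.continuousAt.continuousWithinAt.norm
    exact h1.preimage_isClosed_of_isClosed (isClosed_gd δ) isClosed_Ici
  have hne : ∀ n, (X n).Nonempty := by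
    intro n
    have h1 := hnear 0 1 (by simp) (F n) (E.mono (Set.subset_univ _) (hF n))
    push Not at h1
    obtain ⟨z, -, hz, hz'⟩ := h1
    exact ⟨z, hz, hz'.le⟩
  have hesc : ∀ R : ℝ, ∀ᶠ n in (𝒰 : Filter ℕ), ∀ w ∈ X n, R < ‖w‖ := by
    intro R
    have hK : IsCompact (Gd B δ ∩ closedBall 0 R) := (isCompact_closedBall (0 : ℂ) R).inter_left (isClosed_gd δ)
    have h1 := hCV.lt_on hK (fun w hw => gd_notMem hδ hw.1) (M := δ₁) (fun w hw => by rwa [norm_zero])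
    filter_upwards [h1] with n hn w hw
    by_contra hcon
    rw [not_lt] at hcon
    exact absurd (hn w ⟨hw.1, mem_closedBall_zero_iff.2 hcon⟩) (not_lt.2 hw.2)
  obtain ⟨w, l, p, c, hc, hwX, hl, hwl, hout⟩ := exit E.lat 𝒰 hXc (Eventually.of_forall hne) hesc
  have hpG : p ∈ Gd B δ := (isClosed_gd δ).mem_of_tendsto hwl (hwX.mono fun n hn => by
    have h1 := (hB.gd_add δ (z := w n) (Λ.neg_mem (hl n))).2 hn.1
    rwa [← sub_eq_add_neg] at h1)
  have hpB : p ∉ B := gd_notMem hδ hpG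
  have hpt : ∀ z ∈ HPl p c 0, z ∈ Gd B δ → ∀ᶠ n in (𝒰 : Filter ℕ), ‖F n (z + l n)‖ < δ₁ := by
    intro z hz hzG
    filter_upwards [hout z hz] with n hn
    by_contra hcon
    exact hn ⟨(hB.gd_add δ (hl n)).2 hzG, not_lt.1 hcon⟩
  rcases E.compactU 𝒰 h𝒰 (fun n z => F n (z + l n)) (fun n => E.trans (hF n) _ (hl n)) with ⟨g, hg, hcv⟩ | ⟨i, hi⟩
  · refine hnear p c hc g (E.mono (Set.subset_univ _) hg) fun z hz hzG => ?_
    exact le_of_tendsto (hcv.pt (gd_notMem hδ hzG)).norm ((hpt z hz hzG).mono fun n hn => hn.le)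
  · by_cases hio : i = o
    · rw [hio] at hi
      have h1 := (hi p hpB _ hwl).norm
      simp only [E.Tzero, sub_add_cancel, norm_zero] at h1
      exact absurd (ge_of_tendsto h1 (hwX.mono fun n hn => hn.2)) (not_le.2 hδ₁)
    · obtain ⟨z, hz, hzG⟩ := exists_gd_hpl E.lat hB (p := p) hc 0
      have h1 := (hi.pt (gd_notMem hδ hzG)).norm
      rw [norm_zero] at h1
      have h2 : ∀ᶠ n in (𝒰 : Filter ℕ), c₁ ≤ ‖T i (fun z => F n (z + l n)) z‖ := by
        filter_upwards [hpt z hz hzG] with n hn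
        exact hsep i hio Set.univ _ (E.trans (hF n) _ (hl n)) z (Set.mem_univ _) hzG hn.le
      exact absurd (ge_of_tendsto h1 h2) (not_le.2 hc₁)

/-- a limit of members over `ℂ` is a member -/
theorem Fam.limU (E : Fam Λ B δ o S T) (𝒰 : Ultrafilter ℕ) (h𝒰 : (𝒰 : Filter ℕ) ≤ atTop) (F : ℕ → ℂ → ℂ) (hF : ∀ n, F n ∈ S Set.univ) :
    ∃ f ∈ S Set.univ, CV 𝒰 F f Bᶜ := by
  rcases E.compactU 𝒰 h𝒰 F hF with h | ⟨i, hi⟩
  · exact h
  · exfalso
    obtain ⟨δ₀, hδ₀, hfar⟩ := E.far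
    obtain ⟨z, -, hz⟩ := exists_gd_hpl E.lat E.bad (p := 0) (c := 1) (by simp) 0
    have h1 := (hi.pt (gd_notMem E.bad.pos hz)).norm
    rw [norm_zero] at h1
    exact absurd (ge_of_tendsto h1 (Eventually.of_forall fun n => hfar _ (hF n) i z hz)) (not_le.2 hδ₀)

/-- **There are only finitely many members over `ℂ`.** -/
theorem Fam.finite (E : Fam Λ B δ o S T) (F : ℕ → ℂ → ℂ) (hF : ∀ n, F n ∈ S Set.univ) : ∃ m n, m ≠ n ∧ Ag B (F m) (F n) := by
  by_contra hcon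
  push Not at hcon
  have hB := E.bad
  have hδ := hB.pos
  obtain ⟨δ₀, hδ₀, hfar⟩ := E.far
  obtain ⟨ε, hε, hpair⟩ := E.pair δ₀ hδ₀
  set 𝒰 : Ultrafilter ℕ := hyperfilter ℕ with h𝒰def
  have h𝒰 : (𝒰 : Filter ℕ) ≤ atTop := Nat.hyperfilter_le_atTop
  obtain ⟨f, hf, hCV⟩ := E.limU 𝒰 h𝒰 F hF
  have hanF : ∀ g ∈ S Set.univ, ∀ z, z ∉ B → AnalyticAt ℂ g z := fun g hg z hz => (E.an hg z (Set.mem_univ _) hz).1
  have hpair' : ∀ g ∈ S Set.univ, ∀ h ∈ S Set.univ, ∀ p c : ℂ, ‖c‖ = 1 → (∀ z ∈ HPl p c 0, z ∈ Gd B δ → ‖g z - h z‖ ≤ ε) → Ag B g h := by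
    intro g hg h hh p c hc hle
    have h1 := hpair p c hc g (E.mono (Set.subset_univ _) hg) h (E.mono (Set.subset_univ _) hh)
      (fun i z _ hz => ⟨hfar g hg i z hz, hfar h hh i z hz⟩) hle
    obtain ⟨z, hz, hzG⟩ := exists_gd_hpl E.lat hB (p := p) hc (2 * δ)
    refine identity hB (hanF g hg) (hanF h hh) (gd_notMem hδ hzG) ?_
    filter_upwards [(isOpen_hpl p c (2 * δ)).mem_nhds hz, notMem_nhds hB (gd_notMem hδ hzG)] with w hw1 hw2
    exact h1 w hw1 hw2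
  -- the members of the sequence are different from the limit
  have hev : ∀ᶠ n in (𝒰 : Filter ℕ), ¬ Ag B (F n) f := by
    by_contra hcon'
    rw [Ultrafilter.eventually_not, not_not] at hcon'
    obtain ⟨m, hm⟩ := hcon'.exists
    have h1 : ∀ᶠ n in (𝒰 : Filter ℕ), m < n := h𝒰 (eventually_gt_atTop m)
    obtain ⟨n, hn, hmn⟩ := (hcon'.and h1).exists
    exact hcon m n hmn.ne fun z hz => (hm z hz).trans (hn z hz).symm
  set X : ℕ → Set ℂ := fun n => {w | w ∈ Gd B δ ∧ ε ≤ ‖F n w - f w‖} with hX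
  have hXc : ∀ n, IsClosed (X n) := by
    intro n
    have h1 : ContinuousOn (fun w => ‖F n w - f w‖) (Gd B δ) := fun w hw =>
      ((hanF _ (hF n) w (gd_notMem hδ hw)).continuousAt.continuousWithinAt.sub (hanF _ hf w (gd_notMem hδ hw)).continuousAt.continuousWithinAt).norm
    exact h1.preimage_isClosed_of_isClosed (isClosed_gd δ) isClosed_Ici
  have hne : ∀ᶠ n in (𝒰 : Filter ℕ), (X n).Nonempty := by
    filter_upwards [hev] with n hn
    by_contra hcon'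
    rw [Set.not_nonempty_iff_eq_empty, Set.eq_empty_iff_forall_notMem] at hcon'
    refine hn (hpair' _ (hF n) _ hf 0 1 (by simp) fun z _ hz => ?_)
    by_contra h2
    exact hcon' z ⟨hz, (not_le.1 h2).le⟩
  have hCV' : CV 𝒰 (fun n z => F n z - f z) (fun _ => 0) Bᶜ := by
    intro z₀ hz₀ z hz
    have h1 := hCV z₀ hz₀ z hz
    have h2 : Tendsto (fun n => f (z n)) 𝒰 (𝓝 (f z₀)) := (hanF f hf z₀ hz₀).continuousAt.tendsto.comp hz
    have h3 := h1.sub h2
    rwa [sub_self] at h3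
  have hesc : ∀ R : ℝ, ∀ᶠ n in (𝒰 : Filter ℕ), ∀ w ∈ X n, R < ‖w‖ := by
    intro R
    have hK : IsCompact (Gd B δ ∩ closedBall 0 R) := (isCompact_closedBall (0 : ℂ) R).inter_left (isClosed_gd δ)
    have h1 := hCV'.lt_on hK (fun w hw => gd_notMem hδ hw.1) (M := ε) (fun w hw => by rwa [norm_zero])
    filter_upwards [h1] with n hn w hw
    by_contra hcon
    rw [not_lt] at hcon
    exact absurd (hn w ⟨hw.1, mem_closedBall_zero_iff.2 hcon⟩) (not_lt.2 hw.2)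
  obtain ⟨w, l, p, c, hc, hwX, hl, hwl, hout⟩ := exit E.lat 𝒰 hXc hne hesc
  have hpG : p ∈ Gd B δ := (isClosed_gd δ).mem_of_tendsto hwl (hwX.mono fun n hn => by
    have h1 := (hB.gd_add δ (z := w n) (Λ.neg_mem (hl n))).2 hn.1
    rwa [← sub_eq_add_neg] at h1)
  have hpB : p ∉ B := gd_notMem hδ hpG
  obtain ⟨g, hg, hgcv⟩ := E.limU 𝒰 h𝒰 (fun n z => F n (z + l n)) (fun n => E.trans (hF n) _ (hl n))
  obtain ⟨h, hh, hhcv⟩ := E.limU 𝒰 h𝒰 (fun n z => f (z + l n)) (fun n => E.trans hf _ (hl n))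
  have hgh : Ag B g h := by
    refine hpair' g hg h hh p c hc fun z hz hzG => ?_
    have hzB := gd_notMem hδ hzG
    refine le_of_tendsto ((hgcv.pt hzB).sub (hhcv.pt hzB)).norm ?_
    filter_upwards [hout z hz] with n hn
    by_contra hcon
    exact hn ⟨(hB.gd_add δ (hl n)).2 hzG, (not_le.1 hcon).le⟩
  have h1 := ((hgcv p hpB _ hwl).sub (hhcv p hpB _ hwl)).norm
  rw [hgh p hpB, sub_self, norm_zero] at h1
  simp only [sub_add_cancel] at h1
  exact absurd (ge_of_tendsto h1 (hwX.mono fun n hn => hn.2)) (not_le.2 hε)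

/-- representatives -/
theorem Fam.reps (E : Fam Λ B δ o S T) : ∃ L : List (ℂ → ℂ), (∀ f ∈ L, f ∈ S Set.univ) ∧ ∀ f ∈ S Set.univ, ∃ g ∈ L, Ag B f g := by
  classical
  by_contra hcon
  push Not at hcon
  -- a list of `n` members which do not agree
  have hex : ∀ L : List (ℂ → ℂ), (∀ f ∈ L, f ∈ S Set.univ) → ∃ f, f ∈ S Set.univ ∧ ∀ g ∈ L, ¬ Ag B f g := fun L hL => by
    obtain ⟨f, hf, h⟩ := hcon L hL
    exact ⟨f, hf, h⟩
  let next : {L : List (ℂ → ℂ) // ∀ f ∈ L, f ∈ S Set.univ} → {L : List (ℂ → ℂ) // ∀ f ∈ L, f ∈ S Set.univ} := fun L =>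
    ⟨(hex L.1 L.2).choose :: L.1, by
      intro f hf
      rcases List.mem_cons.1 hf with rfl | hf
      · exact (hex L.1 L.2).choose_spec.1
      · exact L.2 f hf⟩
  let seq : ℕ → {L : List (ℂ → ℂ) // ∀ f ∈ L, f ∈ S Set.univ} := fun n => next^[n] ⟨[], fun f hf => absurd hf (List.not_mem_nil)⟩
  let G : ℕ → ℂ → ℂ := fun n => (hex (seq n).1 (seq n).2).choose
  have hG : ∀ n, G n ∈ S Set.univ ∧ ∀ g ∈ (seq n).1, ¬ Ag B (G n) g := fun n => (hex (seq n).1 (seq n).2).choose_spec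
  have hsucc : ∀ n, (seq (n + 1)).1 = G n :: (seq n).1 := by
    intro n
    show (next^[n + 1] _).1 = _
    rw [Function.iterate_succ_apply']
  have hmem : ∀ m n : ℕ, m < n → G m ∈ (seq n).1 := by
    intro m n hmn
    induction n with
    | zero => omega
    | succ n ih =>
      rw [hsucc]
      rcases Nat.lt_succ_iff_lt_or_eq.1 hmn with h | h
      · exact List.mem_cons_of_mem _ (ih h)
      · rw [h]
        exact List.mem_cons_self
  obtain ⟨m, n, hmn, hag⟩ := E.finite G fun n => (hG n).1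
  rcases lt_or_gt_of_ne hmn with h | h
  · exact (hG n).2 _ (hmem m n h) fun z hz => (hag z hz).symm
  · exact (hG m).2 _ (hmem n m h) hag

end

end Pool.Agent.H86.LR

end
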