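import Pool.Agent.H94.CB.M11
import Pool.Agent.H94.CB.M162
import Pool.Agent.H94.CB.M191
import Pool.Agent.H94.CB.M239
import Pool.Agent.H94.CB.M65

/-! The parts of this file: H17L.GermM, H17L.Defs, H86.LR.OneDefs, H86.LS.Defs, H86.LR.Cpt. -/

section

/-!
# H17L GermM: germs in two variables with few zeros

* `mono_div`: `S, T` coordinates, `g` a germ (not `0`) whose zeros lie in `{S T = 0}`; then `g = S^i T^j v`, `v` a unit.  Proof.  By a change of coordinates (`Coord S T`: compose with the inverse `θ'` of `x ↦ (S x, T x)`) one may take `S = p.1`, `T = p.2`.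
  Divide `g` by `p.1` and by `p.2` as long as possible (`exists_div_x`, `exists_div_y` in H17BP/Div; this stops: e.g. by `H17BP.exists_taylor`-type arguments, or: the analytic order of `g` restricted to a line `t ↦ g (t a)` on which `g` is not identically `0` (such a line exists because `g` is not `0` near `0`) drops by one at every
  division, for a line with `a.1, a.2 ≠ 0`; strong induction over this order).  So let `g (0, t)` and `g (s, 0)` be not identically `0` near `0`; claim `g 0 ≠ 0`.  Suppose `g 0 = 0`.  Choose `r > 0` small such that `g` is analytic near the closed bidisc of radius `r`, its zeros in it lie in `{s t = 0}`, `g (0, t) ≠ 0` for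
  `0 < ‖t‖ ≤ r` and `g (s, 0) ≠ 0` for `0 < ‖s‖ ≤ r` (isolated zeros).  For `s ≠ 0` small the function `t ↦ g (s, t)` has no zeros in `‖t‖ ≤ r` (a zero `(s, t)` has `s t = 0`, so `t = 0`, excluded).  The continuous function `‖g (0, t)‖` on the circle `‖t‖ = r` has a minimum `m > 0`, so `‖g (s, t)‖ ≥ m/2` for `‖t‖ = r`, `s` near `0` (compactness), and by the
  maximum principle for `1 / g (s, ·)` (`Complex.norm_le_of_forall_mem_frontier_norm_le`) `‖g (s, 0)‖ ≥ m/2` for `s ≠ 0` near `0`, hence `‖g 0‖ ≥ m/2`: contradiction.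

* `mono_of_zero`: `G = S^a T^b w`, `w` a unit: `G p = 0` implies `S p = 0 ∨ T p = 0` near `0`; `mono_div`.

* `mono_hor`: `G = S^a T^b w`.  `{p.2 = 0} ⊆ {G = 0} ⊆ {S T = 0}` near `0`: the product `S (s, 0) T (s, 0)` is `0` for `s` near `0`, so one factor vanishes identically near `0` (isolated zeros, `AnalyticAt.eventually_eq_zero_or_eventually_ne_zero`); exchange `S` and `T` if necessary: `T (s, 0) = 0` near `0`.  `T = p.2 κ` (`exists_div_y`), `κ 0 ≠ 0` because the derivative of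
  `T` at `0` is not `0` (`Coord`, `coord_iff`).  By `mono_div` (zeros of `g` are zeros of `G`) `g = S^i T^j v`; `j = 0` because `g (s, 0)` is not identically `0`; `1 ≤ i` because `g 0 = 0`, `v 0 ≠ 0`.  An `i`-th root `k` of `v` (copy the private lemmas `ResV_root`, `ResV_coord` of H17N/ResV, or GermC): `g = (S k)^i`, and `η x = (S x * k x, T x)` is biholomorphic (`Coord`);
  take for `θ` the inverse of `η`, `θ' = η`: `g (θ p) = p.1 ^ i`, `T (θ p) = p.2`, and `T = p.2 κ` with `κ` a unit gives `(θ p).2 = 0 ↔ p.2 = 0` near `0`.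
-/

set_option autoImplicit false

open Topology Filter Metric

namespace Pool.Agent.H17L

attribute [-instance] ProperSMul.toContinuousSMul

open Pool.Agent.H17BP (Bihol Coord Mono)

private theorem GermM_line {g : ℂ × ℂ → ℂ} (hg : AnalyticAt ℂ g 0) (a : ℂ × ℂ) : AnalyticAt ℂ (fun t : ℂ => g (t • a)) 0 := by
  have h1 : AnalyticAt ℂ (fun t : ℂ => t • a) 0 := by fun_prop
  have h2 : AnalyticAt ℂ g ((fun t : ℂ => t • a) 0) := by
    simp only [zero_smul]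
    exact hg
  exact AnalyticAt.fun_comp (g := g) (f := fun t : ℂ => t • a) h2 h1

private theorem GermM_lineT (a : ℂ × ℂ) : Tendsto (fun t : ℂ => t • a) (𝓝 0) (𝓝 (0 : ℂ × ℂ)) := by
  have h : Continuous fun t : ℂ => t • a := by fun_prop
  exact h.tendsto' 0 0 (zero_smul ℂ a)

/-- the order on a line drops by one after the division by a linear form -/
private theorem GermM_ord {g g₁ : ℂ × ℂ → ℂ} (c : ℂ × ℂ →L[ℂ] ℂ) {a : ℂ × ℂ} (ha : c a ≠ 0) (h₁ : AnalyticAt ℂ g₁ 0)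
    (h : ∀ᶠ p in 𝓝 (0 : ℂ × ℂ), g p = c p * g₁ p) {n : ℕ} (hn : analyticOrderAt (fun t : ℂ => g (t • a)) 0 = ((n + 1 : ℕ) : ℕ∞)) :
    analyticOrderAt (fun t : ℂ => g₁ (t • a)) 0 = (n : ℕ∞) := by
  have e1 : (fun t : ℂ => g (t • a)) =ᶠ[𝓝 0] (id : ℂ → ℂ) * ((fun _ : ℂ => c a) * (fun t : ℂ => g₁ (t • a))) := by
    filter_upwards [(GermM_lineT a).eventually h] with t ht
    rw [ht]
    simp only [Pi.mul_apply, map_smul, smul_eq_mul, id]
    ring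
  have a1 : AnalyticAt ℂ (fun t : ℂ => g₁ (t • a)) 0 := GermM_line h₁ a
  have a2 : AnalyticAt ℂ (fun _ : ℂ => c a) 0 := analyticAt_const
  have o1 : analyticOrderAt (fun _ : ℂ => c a) 0 = 0 := analyticOrderAt_eq_zero.2 (Or.inr ha)
  rw [analyticOrderAt_congr e1, analyticOrderAt_mul analyticAt_id (a2.mul a1), analyticOrderAt_mul a2 a1, analyticOrderAt_id, o1, zero_add] at hn
  have h3 : (((n + 1 : ℕ) : ℕ∞)) = 1 + (n : ℕ∞) := by
    rw [Nat.cast_add, Nat.cast_one, add_comm]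
  rw [h3] at hn
  exact ENat.add_right_injective_of_ne_top (n := 1) (by simp) hn

/-- a line on which the germ does not vanish identically -/
private theorem GermM_ex {g : ℂ × ℂ → ℂ} (hg : AnalyticAt ℂ g 0) (hne : ¬ ∀ᶠ p in 𝓝 (0 : ℂ × ℂ), g p = 0) :
    ∃ a : ℂ × ℂ, a.1 ≠ 0 ∧ a.2 ≠ 0 ∧ ∃ n : ℕ, analyticOrderAt (fun t : ℂ => g (t • a)) 0 = (n : ℕ∞) := by
  by_contra hcon
  push Not at hcon
  obtain ⟨r, hr, hgr⟩ := hg.exists_ball_analyticOnNhd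
  have key : ∀ a : ℂ × ℂ, a ∈ ball (0 : ℂ × ℂ) r → a.1 ≠ 0 → a.2 ≠ 0 → g a = 0 := by
    intro a ha h1 h2
    have h3 : analyticOrderAt (fun t : ℂ => g (t • a)) 0 = ⊤ := by
      by_contra h4
      obtain ⟨n, hn⟩ := ENat.ne_top_iff_exists.mp h4
      exact hcon a h1 h2 n hn.symm
    have h4 : ∀ᶠ t in 𝓝 (0 : ℂ), g (t • a) = 0 := analyticOrderAt_eq_top.mp h3
    have ha' : ‖a‖ < r := by simpa using ha
    have ha0 : 0 < ‖a‖ := by
      refine norm_pos_iff.mpr fun h5 => h1 ?_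
      rw [h5]
      rfl
    have h5 : AnalyticOnNhd ℂ (fun t : ℂ => g (t • a)) (ball 0 (r / ‖a‖)) := by
      intro t ht
      have h6 : t • a ∈ ball (0 : ℂ × ℂ) r := by
        rw [mem_ball_zero_iff, norm_smul]
        rw [mem_ball_zero_iff, lt_div_iff₀ ha0] at ht
        exact ht
      have h7 : AnalyticAt ℂ (fun t : ℂ => t • a) t := by fun_prop
      exact AnalyticAt.fun_comp (g := g) (f := fun t : ℂ => t • a) (hgr _ h6) h7
    have h6 := h5.eqOn_zero_of_preconnected_of_eventuallyEq_zero (convex_ball (0 : ℂ) _).isPreconnected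
      (mem_ball_self (div_pos hr ha0)) h4
    have h7 : (1 : ℂ) ∈ ball (0 : ℂ) (r / ‖a‖) := by
      rw [mem_ball_zero_iff, norm_one, one_lt_div ha0]
      exact ha'
    have h8 := h6 h7
    simpa using h8
  apply hne
  filter_upwards [ball_mem_nhds (0 : ℂ × ℂ) hr] with p hp
  -- approach `p` by points with nonzero components
  have h1 : Tendsto (fun t : ℂ => (p.1 + t, p.2 + t)) (𝓝[≠] 0) (𝓝 p) := by
    have h2 : Continuous fun t : ℂ => (p.1 + t, p.2 + t) := by fun_prop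
    exact (h2.tendsto' 0 p (by simp)).mono_left nhdsWithin_le_nhds
  have h3 : ∀ᶠ t in 𝓝[≠] (0 : ℂ), g (p.1 + t, p.2 + t) = 0 := by
    have e1 : ∀ c : ℂ, ∀ᶠ t in 𝓝[≠] (0 : ℂ), c + t ≠ 0 := by
      intro c
      by_cases hc : c = 0
      · filter_upwards [self_mem_nhdsWithin] with t ht
        rw [hc, zero_add]
        exact ht
      · have h4 : ∀ᶠ t in 𝓝 (0 : ℂ), c + t ≠ 0 := by
          have h5 : Continuous fun t : ℂ => c + t := by fun_prop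
          exact h5.continuousAt.eventually_ne (by simpa using hc)
        exact h4.filter_mono nhdsWithin_le_nhds
    filter_upwards [e1 p.1, e1 p.2, h1.eventually (isOpen_ball.mem_nhds hp)] with t h4 h5 h6
    exact key _ h6 h4 h5
  have h4 : Tendsto (fun t : ℂ => g (p.1 + t, p.2 + t)) (𝓝[≠] 0) (𝓝 (g p)) := (hgr p hp).continuousAt.tendsto.comp h1
  have h5 : Tendsto (fun t : ℂ => g (p.1 + t, p.2 + t)) (𝓝[≠] 0) (𝓝 0) :=
    tendsto_const_nhds.congr' (h3.mono fun t ht => ht.symm)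
  exact tendsto_nhds_unique h4 h5

/-- a germ whose zeros are in the union of the axes and which does not vanish identically on the axes is a unit -/
private theorem GermM_unit {g : ℂ × ℂ → ℂ} (hg : AnalyticAt ℂ g 0) (hz : ∀ᶠ p in 𝓝 (0 : ℂ × ℂ), g p = 0 → p.1 = 0 ∨ p.2 = 0)
    (h1 : ¬ ∀ᶠ t in 𝓝 (0 : ℂ), g (0, t) = 0) (h2 : ¬ ∀ᶠ s in 𝓝 (0 : ℂ), g (s, 0) = 0) : g 0 ≠ 0 := by
  intro h0
  have c1 : AnalyticAt ℂ (fun t : ℂ => g (0, t)) 0 := by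
    have h3 : AnalyticAt ℂ (fun t : ℂ => ((0 : ℂ), t)) 0 := by fun_prop
    exact AnalyticAt.fun_comp (g := g) (f := fun t : ℂ => ((0 : ℂ), t)) hg h3
  have c2 : AnalyticAt ℂ (fun s : ℂ => g (s, 0)) 0 := by
    have h3 : AnalyticAt ℂ (fun s : ℂ => (s, (0 : ℂ))) 0 := by fun_prop
    exact AnalyticAt.fun_comp (g := g) (f := fun s : ℂ => (s, (0 : ℂ))) hg h3
  have d1 := c1.eventually_eq_zero_or_eventually_ne_zero.resolve_left h1
  have d2 := c2.eventually_eq_zero_or_eventually_ne_zero.resolve_left h2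
  rw [eventually_nhdsWithin_iff] at d1 d2
  obtain ⟨r, hr, hr1⟩ := Metric.nhds_basis_closedBall.eventually_iff.mp
    ((hg.eventually_analyticAt.and hz).and ((continuous_fst.tendsto' (0 : ℂ × ℂ) 0 rfl).eventually d2 |>.and
      ((continuous_snd.tendsto' (0 : ℂ × ℂ) 0 rfl).eventually d1)))
  have hpt : ∀ s t : ℂ, ‖s‖ ≤ r → ‖t‖ ≤ r → (s, t) ∈ closedBall (0 : ℂ × ℂ) r := by
    intro s t hs ht
    rw [mem_closedBall_zero_iff, Prod.norm_def]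
    exact max_le hs ht
  have hne : ∀ s : ℂ, s ≠ 0 → ‖s‖ ≤ r → ∀ t : ℂ, ‖t‖ ≤ r → g (s, t) ≠ 0 := by
    intro s hs0 hs t ht h3
    have h4 := hr1 (hpt s t hs ht)
    rcases h4.1.2 h3 with h5 | h5
    · exact hs0 h5
    · have h6 : t = 0 := h5
      rw [h6] at h3
      exact h4.2.1 hs0 h3
  -- the minimum on the circle
  have hcirc : ∀ t ∈ sphere (0 : ℂ) r, g (0, t) ≠ 0 := by
    intro t ht
    have h3 : ‖t‖ = r := by simpa using ht
    have h4 : t ≠ 0 := by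
      intro h5
      rw [h5, norm_zero] at h3
      exact hr.ne h3
    exact (hr1 (hpt 0 t (by simpa using hr.le) h3.le)).2.2 h4
  have hcg : ∀ s t : ℂ, ‖s‖ ≤ r → ‖t‖ ≤ r → ContinuousAt g (s, t) := fun s t hs ht => (hr1 (hpt s t hs ht)).1.1.continuousAt
  have hcc : ContinuousOn (fun t : ℂ => ‖g (0, t)‖) (sphere (0 : ℂ) r) := by
    intro t ht
    have h3 : ‖t‖ = r := by simpa using ht
    have h4 : ContinuousAt (fun t : ℂ => ((0 : ℂ), t)) t := by fun_prop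
    exact ((hcg 0 t (by simpa using hr.le) h3.le).comp h4).norm.continuousWithinAt
  obtain ⟨t₀, ht₀, hmin⟩ := (isCompact_sphere (0 : ℂ) r).exists_isMinOn ⟨(r : ℂ), by simp [abs_of_pos hr]⟩ hcc
  set m : ℝ := ‖g (0, t₀)‖ with hm
  have hm0 : 0 < m := norm_pos_iff.mpr (hcirc t₀ ht₀)
  have hK : ∀ᶠ s in 𝓝 (0 : ℂ), ∀ t ∈ sphere (0 : ℂ) r, m / 2 < ‖g (s, t)‖ := by
    refine (isCompact_sphere (0 : ℂ) r).eventually_forall_of_forall_eventually (P := fun s t => m / 2 < ‖g (s, t)‖) ?_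
    intro t ht
    have h3 : ‖t‖ = r := by simpa using ht
    have h4 : ContinuousAt (fun z : ℂ × ℂ => ‖g z‖) (0, t) := (hcg 0 t (by simpa using hr.le) h3.le).norm
    have h5 : m ≤ ‖g (0, t)‖ := hmin ht
    exact h4.eventually_const_lt (show m / 2 < ‖g (0, t)‖ by linarith)
  have hlow : ∀ᶠ s in 𝓝[≠] (0 : ℂ), m / 2 ≤ ‖g (s, 0)‖ := by
    filter_upwards [hK.filter_mono nhdsWithin_le_nhds, self_mem_nhdsWithin,
      (closedBall_mem_nhds (0 : ℂ) hr : closedBall (0 : ℂ) r ∈ 𝓝 0) |> fun h => nhdsWithin_le_nhds h] with s h3 h4 h5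
    have hs : ‖s‖ ≤ r := by simpa using h5
    have hs0 : s ≠ 0 := h4
    have hd : DiffContOnCl ℂ (fun t : ℂ => (g (s, t))⁻¹) (ball 0 r) := by
      refine DifferentiableOn.diffContOnCl ?_
      rw [closure_ball _ hr.ne']
      intro t ht
      have ht' : ‖t‖ ≤ r := by simpa using ht
      have h6 : DifferentiableAt ℂ (fun t : ℂ => g (s, t)) t := by
        have h7 : DifferentiableAt ℂ (fun t : ℂ => (s, t)) t := by fun_prop
        exact DifferentiableAt.fun_comp' t (hr1 (hpt s t hs ht')).1.1.differentiableAt h7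
      exact (h6.inv (hne s hs0 hs t ht')).differentiableWithinAt
    have h6 := Complex.norm_le_of_forall_mem_frontier_norm_le (C := (m / 2)⁻¹) isBounded_ball hd (fun t ht => by
      rw [frontier_ball _ hr.ne'] at ht
      rw [norm_inv]
      exact inv_anti₀ (half_pos hm0) (h3 t ht).le) (z := 0) (subset_closure (mem_ball_self hr))
    rw [norm_inv] at h6
    exact (inv_le_inv₀ (norm_pos_iff.mpr (hne s hs0 hs 0 (by simpa using hr.le))) (half_pos hm0)).mp h6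
  have h3 : Tendsto (fun s : ℂ => ‖g (s, 0)‖) (𝓝[≠] 0) (𝓝 0) := by
    have h4 := c2.continuousAt.norm.tendsto
    have h5 : ‖g ((0 : ℂ), (0 : ℂ))‖ = 0 := by
      rw [norm_eq_zero]
      exact h0
    simp only [h5] at h4
    exact h4.mono_left nhdsWithin_le_nhds
  have h4 : m / 2 ≤ 0 := ge_of_tendsto h3 hlow
  linarith

private theorem GermM_axes (n : ℕ) : ∀ (g : ℂ × ℂ → ℂ), AnalyticAt ℂ g 0 → (∀ᶠ p in 𝓝 (0 : ℂ × ℂ), g p = 0 → p.1 = 0 ∨ p.2 = 0) →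
    ∀ a : ℂ × ℂ, a.1 ≠ 0 → a.2 ≠ 0 → analyticOrderAt (fun t : ℂ => g (t • a)) 0 = (n : ℕ∞) →
    ∃ (i j : ℕ) (v : ℂ × ℂ → ℂ), AnalyticAt ℂ v 0 ∧ v 0 ≠ 0 ∧ ∀ᶠ p in 𝓝 (0 : ℂ × ℂ), g p = p.1 ^ i * p.2 ^ j * v p := by
  induction n with
  | zero =>
    intro g hg _ a _ _ hn
    have h1 : g 0 ≠ 0 := by
      have h2 := (analyticOrderAt_eq_zero.mp (by simpa using hn)).resolve_left (not_not.mpr (GermM_line hg a))
      simpa using h2
    exact ⟨0, 0, g, hg, h1, Eventually.of_forall fun p => by simp⟩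
  | succ n ih =>
    intro g hg hz a ha1 ha2 hn
    by_cases h1 : ∀ᶠ t in 𝓝 (0 : ℂ), g (0, t) = 0
    · obtain ⟨g₁, hg₁, he⟩ := Pool.Agent.H17BP.exists_div_x hg h1
      have ho := GermM_ord (ContinuousLinearMap.fst ℂ ℂ ℂ) ha1 hg₁ (by simpa using he) hn
      obtain ⟨i, j, v, hv, hv0, hev⟩ := ih g₁ hg₁ (by
        filter_upwards [hz, he] with p h3 h4 h5
        refine h3 ?_
        rw [h4, h5, smul_zero]) a ha1 ha2 ho
      refine ⟨i + 1, j, v, hv, hv0, ?_⟩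
      filter_upwards [he, hev] with p h3 h4
      rw [h3, h4, smul_eq_mul]
      ring
    · by_cases h2 : ∀ᶠ s in 𝓝 (0 : ℂ), g (s, 0) = 0
      · obtain ⟨g₁, hg₁, he⟩ := Pool.Agent.H17BP.exists_div_y hg h2
        have ho := GermM_ord (ContinuousLinearMap.snd ℂ ℂ ℂ) ha2 hg₁ (by simpa using he) hn
        obtain ⟨i, j, v, hv, hv0, hev⟩ := ih g₁ hg₁ (by
          filter_upwards [hz, he] with p h3 h4 h5
          refine h3 ?_
          rw [h4, h5, smul_zero]) a ha1 ha2 ho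
        refine ⟨i, j + 1, v, hv, hv0, ?_⟩
        filter_upwards [he, hev] with p h3 h4
        rw [h3, h4, smul_eq_mul]
        ring
      · exact ⟨0, 0, g, hg, GermM_unit hg hz h1 h2, Eventually.of_forall fun p => by simp⟩

theorem mono_div {S T g : ℂ × ℂ → ℂ} (h : Coord S T) (hg : AnalyticAt ℂ g 0) (hne : ¬ ∀ᶠ p in 𝓝 (0 : ℂ × ℂ), g p = 0)
    (hz : ∀ᶠ p in 𝓝 (0 : ℂ × ℂ), g p = 0 → S p = 0 ∨ T p = 0) :
    ∃ (i j : ℕ) (v : ℂ × ℂ → ℂ), AnalyticAt ℂ v 0 ∧ v 0 ≠ 0 ∧ ∀ᶠ p in 𝓝 (0 : ℂ × ℂ), g p = S p ^ i * T p ^ j * v p := by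
  have hθ : Bihol fun x => (S x, T x) := h
  obtain ⟨θ', h1, h2, h3⟩ := hθ.exists_inv
  have hg' : AnalyticAt ℂ (g ∘ θ') 0 := by
    have h4 : AnalyticAt ℂ g (θ' 0) := by rw [h1.zero]; exact hg
    exact h4.comp h1.an
  have hne' : ¬ ∀ᶠ p in 𝓝 (0 : ℂ × ℂ), (g ∘ θ') p = 0 := by
    intro h4
    apply hne
    filter_upwards [h2, hθ.tendsto.eventually h4] with x h5 h6
    simp only [Function.comp_apply] at h6
    rw [h5] at h6
    exact h6
  have hz' : ∀ᶠ p in 𝓝 (0 : ℂ × ℂ), (g ∘ θ') p = 0 → p.1 = 0 ∨ p.2 = 0 := by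
    filter_upwards [h3, h1.tendsto.eventually hz] with p h5 h6 h7
    have e1 : S (θ' p) = p.1 := congrArg Prod.fst h5
    have e2 : T (θ' p) = p.2 := congrArg Prod.snd h5
    rw [← e1, ← e2]
    exact h6 h7
  obtain ⟨a, ha1, ha2, n, hn⟩ := GermM_ex hg' hne'
  obtain ⟨i, j, v, hv, hv0, hev⟩ := GermM_axes n _ hg' hz' a ha1 ha2 hn
  refine ⟨i, j, fun x => v (S x, T x), ?_, ?_, ?_⟩
  · have h4 : (S 0, T 0) = (0 : ℂ × ℂ) := hθ.zero
    have h5 : AnalyticAt ℂ v (S 0, T 0) := by rw [h4]; exact hv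
    exact AnalyticAt.fun_comp (g := v) (f := fun x => (S x, T x)) h5 hθ.an
  · have h4 : (S 0, T 0) = (0 : ℂ × ℂ) := hθ.zero
    show v (S 0, T 0) ≠ 0
    rw [h4]
    exact hv0
  · filter_upwards [h2, hθ.tendsto.eventually hev] with x h5 h6
    simp only [Function.comp_apply] at h6
    rw [h5] at h6
    exact h6

theorem mono_of_zero {G g : ℂ × ℂ → ℂ} (hG : Mono G) (hg : AnalyticAt ℂ g 0) (hne : ¬ ∀ᶠ p in 𝓝 (0 : ℂ × ℂ), g p = 0)
    (hz : ∀ᶠ p in 𝓝 (0 : ℂ × ℂ), g p = 0 → G p = 0) : Mono g := by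
  obtain ⟨S, T, a, b, w, hST, hw, hw0, hev⟩ := hG
  have hz' : ∀ᶠ p in 𝓝 (0 : ℂ × ℂ), g p = 0 → S p = 0 ∨ T p = 0 := by
    filter_upwards [hz, hev, hw.continuousAt.eventually_ne hw0] with p h1 h2 h3 h4
    have h5 := h1 h4
    rw [h2] at h5
    rcases mul_eq_zero.mp h5 with h6 | h6
    · rcases mul_eq_zero.mp h6 with h7 | h7
      · exact Or.inl (eq_zero_of_pow_eq_zero h7)
      · exact Or.inr (eq_zero_of_pow_eq_zero h7)
    · exact absurd h6 h3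
  obtain ⟨i, j, v, hv, hv0, h1⟩ := mono_div hST hg hne hz'
  exact ⟨S, T, i, j, v, hST, hv, hv0, h1⟩

private theorem GermM_root {v : ℂ × ℂ → ℂ} (hv : AnalyticAt ℂ v 0) (h0 : v 0 ≠ 0) {a : ℕ} (ha : 0 < a) :
    ∃ k : ℂ × ℂ → ℂ, AnalyticAt ℂ k 0 ∧ k 0 ≠ 0 ∧ ∀ᶠ x in 𝓝 0, k x ^ a = v x := by
  obtain ⟨c, hc⟩ := IsAlgClosed.exists_pow_nat_eq (v 0) ha
  have haC : (a : ℂ) ≠ 0 := by exact_mod_cast ha.ne'
  have hc0 : c ≠ 0 := by
    intro h
    rw [h, zero_pow ha.ne'] at hc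
    exact h0 hc.symm
  have h1 : AnalyticAt ℂ (fun x => v x / v 0) 0 := hv.div analyticAt_const h0
  have h2 : (fun x => v x / v 0) 0 ∈ Complex.slitPlane := by
    simp only [div_self h0]
    exact Complex.one_mem_slitPlane
  refine ⟨fun x => c * Complex.exp (Complex.log (v x / v 0) / a), ?_, ?_, ?_⟩
  · exact analyticAt_const.mul (((h1.clog h2).div analyticAt_const haC).cexp)
  · exact mul_ne_zero hc0 (Complex.exp_ne_zero _)
  · have h3 : ∀ᶠ x in 𝓝 (0 : ℂ × ℂ), v x ≠ 0 := hv.continuousAt.eventually_ne h0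
    filter_upwards [h3] with x hx
    rw [mul_pow, hc, ← Complex.exp_nat_mul, mul_div_cancel₀ _ haC, Complex.exp_log (div_ne_zero hx h0), mul_div_cancel₀ _ h0]

private theorem GermM_coord {S T k : ℂ × ℂ → ℂ} (h : Coord S T) (hk : AnalyticAt ℂ k 0) (hk0 : k 0 ≠ 0) : Coord (fun x => S x * k x) T := by
  obtain ⟨h1, h2, h3, h4⟩ := h.parts
  rw [Pool.Agent.H17BP.coord_iff h1 h2 h3 h4] at h
  have hSk : AnalyticAt ℂ (fun x => S x * k x) 0 := h1.mul hk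
  rw [Pool.Agent.H17BP.coord_iff hSk h2 (by rw [h3, zero_mul]) h4]
  have e : fderiv ℂ (fun x => S x * k x) 0 = k 0 • fderiv ℂ S 0 := by
    have := (h1.differentiableAt.hasFDerivAt.mul hk.differentiableAt.hasFDerivAt).fderiv
    refine this.trans ?_
    rw [h3]
    ext <;> simp
  have e1 : Pool.Agent.H17BP.dx (fun x => S x * k x) 0 = k 0 * Pool.Agent.H17BP.dx S 0 := by
    simp [Pool.Agent.H17BP.dx, e]
  have e2 : Pool.Agent.H17BP.dy (fun x => S x * k x) 0 = k 0 * Pool.Agent.H17BP.dy S 0 := by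
    simp [Pool.Agent.H17BP.dy, e]
  rw [e1, e2]
  intro h5
  apply h
  have h6 : k 0 * (Pool.Agent.H17BP.dx S 0 * Pool.Agent.H17BP.dy T 0 - Pool.Agent.H17BP.dy S 0 * Pool.Agent.H17BP.dx T 0) = 0 := by
    linear_combination h5
  exact (mul_eq_zero.1 h6).resolve_left hk0

/-- a coordinate which vanishes on the axis `p.2 = 0` is `p.2` times a unit -/
private theorem GermM_axis {S T : ℂ × ℂ → ℂ} (h : Coord S T) (hT0 : ∀ᶠ s in 𝓝 (0 : ℂ), T (s, 0) = 0) :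
    ∃ κ : ℂ × ℂ → ℂ, AnalyticAt ℂ κ 0 ∧ κ 0 ≠ 0 ∧ ∀ᶠ p in 𝓝 (0 : ℂ × ℂ), T p = p.2 * κ p := by
  obtain ⟨h1, h2, h3, h4⟩ := h.parts
  obtain ⟨κ, hκ, he⟩ := Pool.Agent.H17BP.exists_div_y h2 hT0
  refine ⟨κ, hκ, ?_, by simpa using he⟩
  intro hκ0
  have e1 : fderiv ℂ T 0 = 0 := by
    have e2 : T =ᶠ[𝓝 0] fun p : ℂ × ℂ => p.2 * κ p := by
      filter_upwards [he] with p hp
      rw [hp, smul_eq_mul]
    rw [e2.fderiv_eq]
    have e3 : HasFDerivAt (fun p : ℂ × ℂ => p.2) (ContinuousLinearMap.snd ℂ ℂ ℂ) 0 := hasFDerivAt_snd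
    have e4 := (e3.mul hκ.differentiableAt.hasFDerivAt).fderiv
    refine e4.trans ?_
    rw [hκ0]
    ext <;> simp
  rw [Pool.Agent.H17BP.coord_iff h1 h2 h3 h4] at h
  apply h
  simp [Pool.Agent.H17BP.dx, Pool.Agent.H17BP.dy, e1]

private theorem GermM_hor {S T g : ℂ × ℂ → ℂ} (hST : Coord S T) (hg : AnalyticAt ℂ g 0) (hg0 : g 0 = 0)
    (hne : ¬ ∀ᶠ s in 𝓝 (0 : ℂ), g (s, 0) = 0) (hz : ∀ᶠ p in 𝓝 (0 : ℂ × ℂ), g p = 0 → S p = 0 ∨ T p = 0)
    (hT0 : ∀ᶠ s in 𝓝 (0 : ℂ), T (s, 0) = 0) :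
    ∃ (θ θ' : ℂ × ℂ → ℂ × ℂ) (i : ℕ), Bihol θ ∧ Bihol θ' ∧ (∀ᶠ x in 𝓝 (0 : ℂ × ℂ), θ' (θ x) = x) ∧ (∀ᶠ x in 𝓝 (0 : ℂ × ℂ), θ (θ' x) = x) ∧
      1 ≤ i ∧ (∀ᶠ p in 𝓝 (0 : ℂ × ℂ), (θ p).2 = 0 ↔ p.2 = 0) ∧ ∀ᶠ p in 𝓝 (0 : ℂ × ℂ), g (θ p) = p.1 ^ i := by
  have hax : Tendsto (fun s : ℂ => (s, (0 : ℂ))) (𝓝 0) (𝓝 (0 : ℂ × ℂ)) := by
    have h : Continuous fun s : ℂ => (s, (0 : ℂ)) := by fun_prop
    exact h.tendsto' 0 0 rfl
  have hne' : ¬ ∀ᶠ p in 𝓝 (0 : ℂ × ℂ), g p = 0 := fun h => hne (hax.eventually h)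
  obtain ⟨i, j, v, hv, hv0, hev⟩ := mono_div hST hg hne' hz
  have hj : j = 0 := by
    by_contra hj
    apply hne
    filter_upwards [hax.eventually hev, hT0] with s h1 h2
    rw [h1, h2, zero_pow hj, mul_zero, zero_mul]
  have hi : 1 ≤ i := by
    by_contra hi
    have hi0 : i = 0 := by omega
    have h1 := hev.self_of_nhds
    rw [hi0, hj, pow_zero, pow_zero, one_mul, one_mul, hg0] at h1
    exact hv0 h1.symm
  obtain ⟨κ, hκ, hκ0, heκ⟩ := GermM_axis hST hT0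
  obtain ⟨k, hk, hk0, hkv⟩ := GermM_root hv hv0 hi
  have hη : Bihol fun x => (S x * k x, T x) := GermM_coord hST hk hk0
  obtain ⟨θ, hθ, e1, e2⟩ := hη.exists_inv
  refine ⟨θ, fun x => (S x * k x, T x), i, hθ, hη, e2, e1, hi, ?_, ?_⟩
  · filter_upwards [e2, hθ.tendsto.eventually heκ, hθ.tendsto.eventually (hκ.continuousAt.eventually_ne hκ0)] with p h1 h2 h3
    have h4 : T (θ p) = p.2 := congrArg Prod.snd h1
    rw [← h4, h2, mul_eq_zero]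
    exact ⟨fun h => Or.inl h, fun h => h.resolve_right h3⟩
  · filter_upwards [e2, hθ.tendsto.eventually hev, hθ.tendsto.eventually hkv] with p h1 h2 h3
    have h4 : S (θ p) * k (θ p) = p.1 := congrArg Prod.fst h1
    rw [h2, hj, pow_zero, mul_one, ← h3, ← mul_pow, h4]

theorem mono_hor {G g : ℂ × ℂ → ℂ} (hG : Mono G) (hg : AnalyticAt ℂ g 0) (hg0 : g 0 = 0) (hne : ¬ ∀ᶠ s in 𝓝 (0 : ℂ), g (s, 0) = 0)
    (hz : ∀ᶠ p in 𝓝 (0 : ℂ × ℂ), G p = 0 ↔ (g p = 0 ∨ p.2 = 0)) :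
    ∃ (θ θ' : ℂ × ℂ → ℂ × ℂ) (i : ℕ), Bihol θ ∧ Bihol θ' ∧ (∀ᶠ x in 𝓝 (0 : ℂ × ℂ), θ' (θ x) = x) ∧ (∀ᶠ x in 𝓝 (0 : ℂ × ℂ), θ (θ' x) = x) ∧
      1 ≤ i ∧ (∀ᶠ p in 𝓝 (0 : ℂ × ℂ), (θ p).2 = 0 ↔ p.2 = 0) ∧ ∀ᶠ p in 𝓝 (0 : ℂ × ℂ), g (θ p) = p.1 ^ i := by
  obtain ⟨S, T, a, b, w, hST, hw, hw0, hev⟩ := hG
  have hGz : ∀ᶠ p in 𝓝 (0 : ℂ × ℂ), G p = 0 → S p = 0 ∨ T p = 0 := by
    filter_upwards [hev, hw.continuousAt.eventually_ne hw0] with p h2 h3 h5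
    rw [h2] at h5
    rcases mul_eq_zero.mp h5 with h6 | h6
    · rcases mul_eq_zero.mp h6 with h7 | h7
      · exact Or.inl (eq_zero_of_pow_eq_zero h7)
      · exact Or.inr (eq_zero_of_pow_eq_zero h7)
    · exact absurd h6 h3
  have hz' : ∀ᶠ p in 𝓝 (0 : ℂ × ℂ), g p = 0 → S p = 0 ∨ T p = 0 := by
    filter_upwards [hGz, hz] with p h1 h2 h3
    exact h1 (h2.mpr (Or.inl h3))
  obtain ⟨hS, hT, -, -⟩ := hST.parts
  have hax : Tendsto (fun s : ℂ => (s, (0 : ℂ))) (𝓝 0) (𝓝 (0 : ℂ × ℂ)) := by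
    have h : Continuous fun s : ℂ => (s, (0 : ℂ)) := by fun_prop
    exact h.tendsto' 0 0 rfl
  have h3 : AnalyticAt ℂ (fun s : ℂ => (s, (0 : ℂ))) 0 := by fun_prop
  have hSa : AnalyticAt ℂ (fun s : ℂ => S (s, 0)) 0 := AnalyticAt.fun_comp (g := S) (f := fun s : ℂ => (s, (0 : ℂ))) hS h3
  have hTa : AnalyticAt ℂ (fun s : ℂ => T (s, 0)) 0 := AnalyticAt.fun_comp (g := T) (f := fun s : ℂ => (s, (0 : ℂ))) hT h3
  rcases hTa.eventually_eq_zero_or_eventually_ne_zero with hT0 | hT0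
  · exact GermM_hor hST hg hg0 hne hz' hT0
  rcases hSa.eventually_eq_zero_or_eventually_ne_zero with hS0 | hS0
  · refine GermM_hor hST.symm hg hg0 hne ?_ hS0
    filter_upwards [hz'] with p h1 h2
    exact (h1 h2).symm
  exfalso
  have h4 : ∀ᶠ s in 𝓝 (0 : ℂ), S (s, 0) = 0 ∨ T (s, 0) = 0 := by
    filter_upwards [hax.eventually hGz, hax.eventually hz] with s h5 h6
    exact h5 (h6.mpr (Or.inr rfl))
  obtain ⟨s, h5, h6, h7⟩ := ((h4.filter_mono nhdsWithin_le_nhds).and (hS0.and hT0)).exists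
  exact h5.elim h6 h7

end Pool.Agent.H17L

end

section

/-!
# H17L Defs: a surface with a smooth curve `D` and a map to an elliptic curve, in a general vector space

As in H17N Defs the surface is given by its cone `X ⊆ V ∖ {0}` and the map to `ℂ / Λ` by a function `u : V → ℂ`.  `D ⊆ X` is (the cone over) a smooth closed curve, `u` is constant on no
open part of `D` (so `D` has no component in a fibre of `u`).  `B ⊆ ℂ` is the set of the bad values.  The `2`-form `α` lives on the part of the covering over `X ∖ Zs`, where `Zs` consists of `D` and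
the fibres over `B`; it has at most logarithmic poles along `D` and extends over the fibres over `B` (`LogV`).  The strict transform of `D` in the blow-up `blow l X` (H62/BU/Alg) is `blow l D`.
-/

set_option autoImplicit false

open Topology Filter

namespace Pool.Agent.H17L

attribute [-instance] ProperSMul.toContinuousSMul

open Pool.Agent.H17BP (Surface IsChart Tan Pr HolP ResN)
open Pool.Agent.H17N (TMap LU RU TF NonConst ThinF FibB HSec uB aB)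

variable {V : Type} [NormedAddCommGroup V] [NormedSpace ℂ V]

/-- the chart `σ` is adapted to the curve `D`: `D = {t = 0}` -/
def AD (D : Set V) (σ : ℂ × ℂ → V) : Prop := ∀ᶠ p in 𝓝 (0 : ℂ × ℂ), σ p ∈ D ↔ p.2 = 0

/-- `D` is a smooth closed curve in the surface `X`, the map `u` is constant on no open part of `D` -/
structure CurveD (X D : Set V) (Λ : AddSubgroup ℂ) (u : V → ℂ) : Prop where
  sub : D ⊆ X
  smul : ∀ x ∈ D, ∀ c : ℂ, c ≠ 0 → c • x ∈ D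
  closed : ∀ x ∈ X, x ∉ D → ∀ᶠ y in 𝓝 x, y ∉ D
  smooth : ∀ x ∈ D, ∃ σ τ g, IsChart X σ τ ∧ σ 0 = x ∧ AD D σ ∧ LU Λ u σ g ∧ ¬ ∀ᶠ s in 𝓝 (0 : ℂ), g (s, 0) = 0

/-- the union of `D` and the fibres over `B` -/
def Zs (X D : Set V) (Λ : AddSubgroup ℂ) (u : V → ℂ) (B : Set ℂ) : Set V := {x | x ∈ D ∨ (x ∈ X ∧ ∃ b ∈ B, u x - b ∈ Λ)}

/-- the union of `D` and of the fibre of `u` through `x` has normal crossings after at most `n` point blow-ups over every point -/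
def RUD (X D : Set V) (Λ : AddSubgroup ℂ) (u : V → ℂ) (x : V) (n : ℕ) : Prop :=
  ∃ σ τ g G, IsChart X σ τ ∧ σ 0 = x ∧ LU Λ u σ g ∧ AnalyticAt ℂ G 0 ∧ (∀ᶠ p in 𝓝 (0 : ℂ × ℂ), G p = 0 ↔ (g p = 0 ∨ σ p ∈ D)) ∧ ResN n G

/-- at the point `x` of `D` the curve `D` is transversal to the fibre of `u` -/
def TrV (X D : Set V) (Λ : AddSubgroup ℂ) (u : V → ℂ) (x : V) : Prop :=
  ∃ σ τ g, IsChart X σ τ ∧ σ 0 = x ∧ AD D σ ∧ LU Λ u σ g ∧ fderiv ℂ g 0 (1, 0) ≠ 0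

/-- the coefficient of the form in the chart `σ`, for the lift `υ` of `u` -/
noncomputable def cf (α : ℂ → V → V → V → ℂ) (υ : ℂ × ℂ → ℂ) (σ : ℂ × ℂ → V) (p : ℂ × ℂ) : ℂ :=
  α (υ p) (σ p) (fderiv ℂ σ p (1, 0)) (fderiv ℂ σ p (0, 1))

/-- `υ` is a lift of `u` in the chart `σ` -/
def Lf (Λ : AddSubgroup ℂ) (u : V → ℂ) (σ : ℂ × ℂ → V) (υ : ℂ × ℂ → ℂ) : Prop :=
  AnalyticAt ℂ υ 0 ∧ ∀ᶠ p in 𝓝 (0 : ℂ × ℂ), u (σ p) - υ p ∈ Λ

/-- the form has at most logarithmic poles along `D`, and it extends over the other points of `Z` -/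
def LogV (X D Z : Set V) (Λ : AddSubgroup ℂ) (u : V → ℂ) (α : ℂ → V → V → V → ℂ) : Prop :=
  ∀ x ∈ X, ∃ σ τ, IsChart X σ τ ∧ σ 0 = x ∧
    ((x ∉ D ∧ ∀ υ, Lf Λ u σ υ → ∃ g, AnalyticAt ℂ g 0 ∧ ∀ᶠ p in 𝓝 (0 : ℂ × ℂ), σ p ∉ Z → cf α υ σ p = g p) ∨
      (AD D σ ∧ ∀ υ, Lf Λ u σ υ → ∃ g, AnalyticAt ℂ g 0 ∧ ∀ᶠ p in 𝓝 (0 : ℂ × ℂ), σ p ∉ Z → p.2 * cf α υ σ p = g p))

/-- the form is `Γ`-periodic -/
def PerV (X : Set V) (Λ Γ : AddSubgroup ℂ) (u : V → ℂ) (α : ℂ → V → V → V → ℂ) : Prop :=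
  ∀ z, ∀ l ∈ Γ, ∀ x ∈ X, u x - z ∈ Λ → ∀ v ∈ Tan X x, ∀ w ∈ Tan X x, α (z + l) x v w = α z x v w

/-- the form is `0` over `0` -/
def VanV (X : Set V) (Λ : AddSubgroup ℂ) (u : V → ℂ) (α : ℂ → V → V → V → ℂ) : Prop :=
  ∀ x ∈ X, u x ∈ Λ → ∀ v ∈ Tan X x, ∀ w ∈ Tan X x, α 0 x v w = 0

/-- all the data -/
structure DData (X D : Set V) (Λ Γ : AddSubgroup ℂ) (u : V → ℂ) (B : Set ℂ) (α : ℂ → V → V → V → ℂ) : Prop where
  surf : Surface X
  tor : TMap X Λ u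
  nonconst : NonConst X Λ u
  curve : CurveD X D Λ u
  form : TF (X \ Zs X D Λ u B) Λ u α
  log : LogV X D (Zs X D Λ u B) Λ u α
  per : PerV (X \ Zs X D Λ u B) Λ Γ u α
  van : VanV (X \ Zs X D Λ u B) Λ u α
  thin : ThinF (X \ Zs X D Λ u B) Λ u α
  fib : FibB (X \ D) Λ u B
  crit : ∀ x ∈ X, (∀ b ∈ B, u x - b ∉ Λ) → RU X Λ u x 0
  good : ∀ x ∈ D, (∀ b ∈ B, u x - b ∉ Λ) → TrV X D Λ u x

/-- near `z` the curve `f` is a section of `X ∖ D` -/
def SecV (X D : Set V) (Λ : AddSubgroup ℂ) (u : V → ℂ) (f : ℂ → V) (z : ℂ) : Prop :=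
  HolP f z ∧ ∀ᶠ w in 𝓝 z, f w ∈ X ∧ f w ∉ D ∧ u (f w) - w ∈ Λ

/-- the points of the projective space given by `x` and `y` are close to each other -/
def Cl (ε : ℝ) (x y : V) : Prop := ∃ c : ℂ, c ≠ 0 ∧ ‖c • x - y‖ < ε * ‖y‖

/-- the entire section `f` of `X` is, outside a closed discrete set `Z`, a limit of sections of `X ∖ D` over larger and larger discs -/
def LimSec (X D : Set V) (Λ : AddSubgroup ℂ) (u : V → ℂ) (f : ℂ → V) : Prop :=
  f ∈ HSec X Λ u ∧ ∃ Z : Set ℂ, IsClosed Z ∧ (∀ z, ∀ᶠ w in 𝓝[≠] z, w ∉ Z) ∧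
    ∀ R ε : ℝ, 0 < ε → ∀ K : Set ℂ, IsCompact K → (∀ z ∈ K, z ∉ Z) →
      ∃ G : ℂ → V, (∀ z ∈ Metric.closedBall (0 : ℂ) R, SecV X D Λ u G z) ∧ ∀ z ∈ K, ‖z‖ ≤ R → Cl ε (G z) (f z)

/-- there are only finitely many such limits (as maps to the projective space) -/
def FinL (X D : Set V) (Λ : AddSubgroup ℂ) (u : V → ℂ) : Prop :=
  ∃ S : Set (ℂ → V), S.Finite ∧ ∀ f, LimSec X D Λ u f → ∃ g ∈ S, ∀ z, Pr (f z) (g z)

end Pool.Agent.H17L

end

section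

/-!
# LR OneDefs: the interface between the one-variable part and the geometry, over an elliptic curve (project LOG-R)
-/

set_option autoImplicit false

open Topology Filter Metric MvPolynomial

noncomputable section

namespace Pool.Agent.H86.LR

attribute [-instance] ProperSMul.toContinuousSMul

open Pool.Agent.H46.LR (Approx)

variable {Λ : AddSubgroup ℂ}

/-- Where the class of `ψ z` is not in `B₀` the meromorphic function `g` has a finite value, not `0` and not `1`. -/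
def OmitsAt (B₀ : Set (ℂ ⧸ Λ)) (ψ g : ℂ → ℂ) (z : ℂ) : Prop :=
  ((ψ z : ℂ) : ℂ ⧸ Λ) ∉ B₀ → ∃ w, w ≠ 0 ∧ w ≠ 1 ∧ Tendsto g (𝓝[≠] z) (𝓝 w)

/-- Where the class of `ψ z` is not in `B₀` the value of `g` is not `L (ψ z)`. -/
def OmitsSecAt (B₀ : Set (ℂ ⧸ Λ)) (L : ℂ → ℂ) (ψ g : ℂ → ℂ) (z : ℂ) : Prop :=
  ((ψ z : ℂ) : ℂ ⧸ Λ) ∉ B₀ → AnalyticAt ℂ L (ψ z) → ∀ w, Tendsto g (𝓝[≠] z) (𝓝 w) → w ≠ L (ψ z)

/-- Where the class of `ψ z` is `c` the value of `g` is one of the finitely many points `[s.1 : s.2]` of `ℙ¹`. -/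
def FinAt (c : ℂ ⧸ Λ) (S : Finset (ℂ × ℂ)) (ψ g : ℂ → ℂ) (z : ℂ) : Prop :=
  ((ψ z : ℂ) : ℂ ⧸ Λ) = c → ∃ s ∈ S, (s.2 ≠ 0 ∧ Tendsto g (𝓝[≠] z) (𝓝 (s.1 / s.2))) ∨ (s.2 = 0 ∧ Tendsto g (𝓝[≠] z) (Bornology.cobounded ℂ))

/-- the conclusion: the limits are algebraic over the function `h` on the elliptic curve -/
def Algebraic (B₀ : Set (ℂ ⧸ Λ)) (h : ℂ → ℂ) (K : (ℂ → ℂ) → (ℂ → ℂ) → ℂ → Prop) : Prop :=
  ∃ 𝓕 : Set (MvPolynomial (Fin 2) ℂ), 𝓕.Finite ∧ (∀ Φ ∈ 𝓕, Φ ≠ 0) ∧ ∀ (φ g₀ : ℂ → ℂ) (z₀ : ℂ) (r : ℝ), 0 < r → DifferentiableOn ℂ g₀ (ball z₀ r) →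
    Approx K φ g₀ z₀ r →
      (∀ a c : ℂ, a ≠ 0 → (∀ z, φ z = a * z + c) → ∃ Φ ∈ 𝓕, ∀ᶠ z in 𝓝[≠] z₀, eval ![h (φ z), g₀ z] Φ = 0) ∧
      ∀ c : ℂ, ((c : ℂ) : ℂ ⧸ Λ) ∉ B₀ → (∀ z, φ z = c) → ∀ z ∈ ball z₀ r, g₀ z = g₀ z₀

end Pool.Agent.H86.LR

end
end

section

/-!
# LS Defs: complements of curves in a surface over an elliptic curve

`X` is the cone (without `0`) over a projective variety, `u` a holomorphic map to `ℂ / Λ`, the `G i` are forms of positive degree with the zero sets `D i`.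
The entire curves in the fibres of `u` which for each `i` avoid `D i` or lie in `D i` lie over the bad set `B` (`fib`).
-/

set_option autoImplicit false

open Topology Filter Metric

namespace Pool.Agent.H86.LS

attribute [-instance] ProperSMul.toContinuousSMul

open Pool.Agent.H36.BP (EN fs)
open Pool.Agent.H14.PP (IsCone)
open Pool.Agent.H62.EF (Lat TorusMap Sec)
open Pool.Agent.H62.EL (BadSet Gd)

variable {N s : ℕ}

/-- the geometric data -/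
structure LData (X : Set (EN N)) (Λ : AddSubgroup ℂ) (u : EN N → ℂ) (B : Set ℂ) (δ : ℝ) (G : Fin s → EN N → ℂ) (m : Fin s → ℕ) : Prop where
  cone : IsCone X
  tor : TorusMap X Λ u
  lat : Lat Λ
  bad : BadSet B Λ δ
  dif : ∀ i, Differentiable ℂ (G i)
  hom : ∀ i (c : ℂ) (x : EN N), G i (c • x) = c ^ m i * G i x
  pos : ∀ i, 0 < m i
  fib : ∀ F : ℂ → EN N, Differentiable ℂ F → (∀ z, F z ∈ X) → (∀ i, (∀ z, G i (F z) ≠ 0) ∨ ∀ z, G i (F z) = 0) →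
    (∀ z w, u (F z) - u (F w) ∈ Λ) → (∃ z w, ∀ c : ℂ, F z ≠ c • F w) → ∃ b ∈ B, u (F 0) - b ∈ Λ

/-- the sections which avoid the `D i` -/
def SG (X : Set (EN N)) (Λ : AddSubgroup ℂ) (u : EN N → ℂ) (G : Fin s → EN N → ℂ) : Set (ℂ → EN N) :=
  {F | F ∈ Sec X Λ u ∧ ∀ i z, G i (F z) ≠ 0}

theorem sg_trans {X : Set (EN N)} {Λ : AddSubgroup ℂ} {u : EN N → ℂ} {G : Fin s → EN N → ℂ} {F : ℂ → EN N} (hF : F ∈ SG X Λ u G) {l : ℂ}
    (hl : l ∈ Λ) : (fun z => F (z + l)) ∈ SG X Λ u G :=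
  ⟨Pool.Agent.H62.EF.sec_trans hF.1 hl, fun i z => hF.2 i (z + l)⟩

/-- `Ψ` is a local limit of the curves `F n` at `z₀` -/
structure LocLim (X : Set (EN N)) (Λ : AddSubgroup ℂ) (u : EN N → ℂ) (𝒰 : Ultrafilter ℕ) (F : ℕ → ℂ → EN N) (x : ℂ → EN N) (z₀ : ℂ) (r : ℝ)
    (φ : ℕ → ℂ → EN N) (Ψ : ℂ → EN N) : Prop where
  pos : 0 < r
  app : ∀ᶠ n in (𝒰 : Filter ℕ), DifferentiableOn ℂ (φ n) (ball z₀ r) ∧ ∀ z ∈ ball z₀ r, ∃ c : ℂ, c ≠ 0 ∧ φ n z = c • F n z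
  dif : DifferentiableOn ℂ Ψ (ball z₀ r)
  mem : ∀ z ∈ ball z₀ r, Ψ z ∈ X ∧ u (Ψ z) - z ∈ Λ ∧ ∃ c : ℂ, c ≠ 0 ∧ Ψ z = c • x z
  conv : TendstoLocallyUniformlyOn φ Ψ 𝒰 (ball z₀ r)

/-- `x` is the limit of the curves `F n` outside of `B` -/
def IsLim (X : Set (EN N)) (Λ : AddSubgroup ℂ) (u : EN N → ℂ) (B : Set ℂ) (𝒰 : Ultrafilter ℕ) (F : ℕ → ℂ → EN N) (x : ℂ → EN N) : Prop :=
  ∀ z₀, z₀ ∉ B → ∃ (r : ℝ) (φ : ℕ → ℂ → EN N) (Ψ : ℂ → EN N), LocLim X Λ u 𝒰 F x z₀ r φ Ψ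

/-- no limit of the sections which avoid the `D i` lies in all the `D i` -/
def NoLim (X : Set (EN N)) (Λ : AddSubgroup ℂ) (u : EN N → ℂ) (B : Set ℂ) (G : Fin s → EN N → ℂ) : Prop :=
  ∀ (𝒰 : Ultrafilter ℕ) (F : ℕ → ℂ → EN N), (∀ n, F n ∈ SG X Λ u G) → ∀ x : ℂ → EN N, IsLim X Λ u B 𝒰 F x →
    ¬ ∀ i z, z ∉ B → G i (x z) = 0

end Pool.Agent.H86.LS

end

section

/-!
# LR Cpt: compactness of the families of functions which omit `0`, `1` and the functions in `𝓛`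
-/

set_option autoImplicit false

open Topology Filter Metric

namespace Pool.Agent.H86.LR

attribute [-instance] ProperSMul.toContinuousSMul

open Pool.Agent.H62.EL (Gd BadSet gd_notMem isClosed_gd Ag gd_mono)
open Pool.Agent.H62.EF (Lat)
open Pool.Agent.H41.LR (Om EvD EvO montel picard schottky all_of_clopen)

variable {Λ : AddSubgroup ℂ} {B : Set ℂ} {δ : ℝ}

/-- the functions which omit `0`, `1` and the functions in `𝓛` outside `B`, with values in `A ∪ {∞}` at the points of `C` -/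
def Tm (B : Set ℂ) (𝓛 : Set (ℂ → ℂ)) (C A : Set ℂ) (Ω : Set ℂ) : Set (ℂ → ℂ) :=
  {f | (∀ z ∈ Ω, MeromorphicAt f z) ∧ (∀ z ∈ Ω, z ∉ B → AnalyticAt ℂ f z ∧ f z ≠ 0 ∧ f z ≠ 1 ∧ ∀ L ∈ 𝓛, f z ≠ L z) ∧
    ∀ b ∈ Ω, b ∈ C → ∀ a : ℂ, Tendsto f (𝓝[≠] b) (𝓝 a) → a ∈ A}

theorem Tm.mono {𝓛 : Set (ℂ → ℂ)} {C A Ω Ω' : Set ℂ} (h : Ω' ⊆ Ω) : Tm B 𝓛 C A Ω ⊆ Tm B 𝓛 C A Ω' :=
  fun _ hf => ⟨fun z hz => hf.1 z (h hz), fun z hz => hf.2.1 z (h hz), fun b hb => hf.2.2 b (h hb)⟩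

theorem CV.congr {𝒰 : Ultrafilter ℕ} {F : ℕ → ℂ → ℂ} {f g : ℂ → ℂ} {Ω : Set ℂ} (h : CV 𝒰 F f Ω) (he : ∀ z ∈ Ω, f z = g z) : CV 𝒰 F g Ω := by
  intro z₀ hz₀ z hz
  rw [← he z₀ hz₀]
  exact h z₀ hz₀ z hz

theorem CV.inv {𝒰 : Ultrafilter ℕ} {F : ℕ → ℂ → ℂ} {f : ℂ → ℂ} {Ω : Set ℂ} (h : CV 𝒰 F f Ω) (h0 : ∀ z ∈ Ω, f z ≠ 0) :
    CV 𝒰 (fun n z => (F n z)⁻¹) (fun z => (f z)⁻¹) Ω := fun z₀ hz₀ z hz => (h z₀ hz₀ z hz).inv₀ (h0 z₀ hz₀)

theorem cv_of_tlu {𝒰 : Ultrafilter ℕ} {F : ℕ → ℂ → ℂ} {f : ℂ → ℂ} {Ω : Set ℂ} (hΩ : IsOpen Ω) (hf : DifferentiableOn ℂ f Ω)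
    (h : TendstoLocallyUniformlyOn F f (𝒰 : Filter ℕ) Ω) : CV 𝒰 F f Ω := by
  intro z₀ hz₀ z hz
  refine h.tendsto_comp (hf.continuousOn z₀ hz₀) hz₀ ?_
  rw [hΩ.nhdsWithin_eq hz₀]
  exact hz

/-- **Hurwitz** -/
theorem hurCV {𝒰 : Ultrafilter ℕ} {φ : ℕ → ℂ → ℂ} {ψ : ℂ → ℂ} {Ω : Set ℂ} (hΩ : IsOpen Ω) (hc : IsPreconnected Ω)
    (hψ : DifferentiableOn ℂ ψ Ω) (h : CV 𝒰 φ ψ Ω) (hE : EvD 𝒰 φ Ω) :
    (∀ z ∈ Ω, ψ z = 0) ∨ ∀ z ∈ Ω, ψ z ≠ 0 := by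
  have hloc : ∀ z ∈ Ω, ∃ r : ℝ, 0 < r ∧ ball z r ⊆ Ω ∧ ((∀ w ∈ ball z r, ψ w = 0) ∨ ∀ w ∈ ball z r, ψ w ≠ 0) := by
    intro z hz
    obtain ⟨r, hr, h1⟩ := hE z hz
    obtain ⟨s, hs, hsΩ⟩ := Metric.isOpen_iff.1 hΩ z hz
    have hsub : ball z (min r s) ⊆ ball z r := ball_subset_ball (min_le_left _ _)
    have hsub' : ball z (min r s) ⊆ Ω := (ball_subset_ball (min_le_right _ _)).trans hsΩ
    refine ⟨min r s, lt_min hr hs, hsub', ?_⟩
    refine Pool.Agent.H62.Log.hurwitz 𝒰 (φ := φ) ?_ ?_ (hψ.mono hsub') ?_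
    · exact h1.mono fun n hn => hn.1.mono hsub
    · exact h1.mono fun n hn w hw => hn.2 w (hsub hw)
    · intro w w₀ hw₀ hw
      exact h w₀ (hsub' hw₀) w hw
  by_cases hex : ∃ z₀ ∈ Ω, ψ z₀ = 0
  · obtain ⟨z₀, hz₀, h0⟩ := hex
    left
    refine all_of_clopen (A := {z | ψ z = 0}) hc ?_ ?_ hz₀ h0
    · intro z hz hzA
      obtain ⟨r, hr, -, h1 | h1⟩ := hloc z hz
      · exact mem_of_superset (ball_mem_nhds z hr) h1
      · exact absurd hzA (h1 z (mem_ball_self hr))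
    · intro z hz hzA
      exact ((hψ.differentiableAt (hΩ.mem_nhds hz)).continuousAt).eventually_ne hzA
  · right
    push Not at hex
    exact hex

/-- Schwarz' lemma for a function with a limit at the centre -/
theorem schwarz_lim {q : ℂ → ℂ} {b c : ℂ} {r M : ℝ} (hr : 0 < r) (hq : ∀ z ∈ closedBall b r, z ≠ b → AnalyticAt ℂ q z)
    (hc : Tendsto q (𝓝[≠] b) (𝓝 c)) (hs : ∀ z ∈ sphere b r, ‖q z‖ ≤ M) : ∀ z ∈ ball b r, z ≠ b → ‖q z - c‖ ≤ 2 * M / r * ‖z - b‖ := by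
  classical
  set Q := Function.update q b c with hQ
  have hQa : ∀ z ∈ closedBall b r, DifferentiableAt ℂ Q z := by
    intro z hz
    by_cases hzb : z = b
    · rw [hzb]
      refine (Complex.analyticAt_of_differentiable_on_punctured_nhds_of_continuousAt ?_ (continuousAt_update_same.2 hc)).differentiableAt
      have h1 : ∀ᶠ w in 𝓝[≠] b, w ∈ closedBall b r := nhdsWithin_le_nhds (closedBall_mem_nhds b hr)
      filter_upwards [h1, self_mem_nhdsWithin] with w hw hwb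
      refine (hq w hw hwb).differentiableAt.congr_of_eventuallyEq ?_
      filter_upwards [isOpen_ne.mem_nhds hwb] with v hv
      exact Function.update_of_ne hv _ _
    · refine (hq z hz hzb).differentiableAt.congr_of_eventuallyEq ?_
      filter_upwards [isOpen_ne.mem_nhds hzb] with v hv
      exact Function.update_of_ne hv _ _
  have hd : DiffContOnCl ℂ Q (ball b r) := by
    refine DifferentiableOn.diffContOnCl ?_
    rw [closure_ball b hr.ne']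
    exact fun z hz => (hQa z hz).differentiableWithinAt
  have hmain : ∀ z ∈ closedBall b r, ‖Q z‖ ≤ M := by
    intro z hz
    refine Complex.norm_le_of_forall_mem_frontier_norm_le isBounded_ball hd (fun w hw => ?_) (by rwa [closure_ball b hr.ne'])
    rw [frontier_ball b hr.ne'] at hw
    have hwb : w ≠ b := by
      rintro rfl
      rw [mem_sphere, dist_self] at hw
      exact hr.ne hw
    show ‖Q w‖ ≤ M
    rw [hQ, Function.update_of_ne hwb]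
    exact hs w hw
  intro z hz hzb
  have h1 := Complex.dist_le_div_mul_dist_of_mapsTo_ball (f := Q) (c := b) (R₁ := r) (R₂ := 2 * M)
    (fun w hw => (hQa w (ball_subset_closedBall hw)).differentiableWithinAt) (fun w hw => by
      rw [mem_closedBall, dist_eq_norm]
      have h2 := norm_sub_le (Q w) (Q b)
      have h3 := hmain w (ball_subset_closedBall hw)
      have h4 := hmain b (mem_closedBall_self hr.le)
      linarith) hz
  rw [hQ, Function.update_of_ne hzb, Function.update_self, dist_eq_norm, dist_eq_norm] at h1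
  exact h1

/-- the value of the limit at a point of `C` -/
theorem value_limit (hB : BadSet B Λ δ) {𝓛 : Set (ℂ → ℂ)} {C A : Set ℂ} (hA : A.Finite) {𝒰 : Ultrafilter ℕ} {F : ℕ → ℂ → ℂ} {R : ℕ → ℝ}
    (hR : Tendsto R 𝒰 atTop) (hF : ∀ n, F n ∈ Tm B 𝓛 C A (ball 0 (R n))) {G : ℂ → ℂ} (hG : ∀ z, z ∉ B → AnalyticAt ℂ G z) (hG0 : ∀ z, z ∉ B → G z ≠ 0)
    (hCV : CV 𝒰 F G Bᶜ) {b : ℂ} (hbB : b ∈ B) (hb : b ∈ C) {a : ℂ} (ha : Tendsto G (𝓝[≠] b) (𝓝 a)) : a ∈ A := by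
  have hδ := hB.pos
  have hsph : ∀ z ∈ sphere b δ, z ∉ B := fun z hz => gd_notMem hδ (sphere_gd hB hbB hz)
  have hbound : ∀ g : ℂ → ℂ, (∀ z, z ∉ B → ContinuousAt g z) → ∃ M : ℝ, ∀ z ∈ sphere b δ, ‖g z‖ < M := by
    intro g hg
    obtain ⟨M, hM⟩ := (isCompact_sphere b δ).bddAbove_image (f := fun z => ‖g z‖) fun z hz => (hg z (hsph z hz)).continuousWithinAt.norm
    exact ⟨M + 1, fun z hz => lt_of_le_of_lt (hM ⟨z, hz, rfl⟩) (lt_add_one M)⟩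
  obtain ⟨M, hM⟩ := hbound G fun z hz => (hG z hz).continuousAt
  obtain ⟨M', hM'⟩ := hbound (fun z => (G z)⁻¹) fun z hz => (hG z hz).continuousAt.inv₀ (hG0 z hz)
  have h1 := hCV.lt_on (isCompact_sphere b δ) hsph hM
  have h2 := (hCV.inv (fun z hz => hG0 z hz)).lt_on (isCompact_sphere b δ) hsph hM'
  have hbig : ∀ᶠ n in (𝒰 : Filter ℕ), ‖b‖ + δ < R n := hR.eventually_gt_atTop _
  have hball : ∀ n, ‖b‖ + δ < R n → ∀ z ∈ closedBall b δ, z ∈ ball (0 : ℂ) (R n) := by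
    intro n hn z hz
    rw [mem_closedBall, dist_eq_norm] at hz
    rw [mem_ball_zero_iff]
    have h3 : z = (z - b) + b := by ring
    rw [h3]
    exact lt_of_le_of_lt (norm_add_le _ _) (by linarith)
  have hpunct : ∀ᶠ z in 𝓝[≠] b, z ∈ ball b δ ∧ z ≠ b ∧ z ∉ B := by
    have h3 : ∀ᶠ z in 𝓝[≠] b, z ∈ ball b δ := nhdsWithin_le_nhds (ball_mem_nhds b hδ)
    filter_upwards [h3, self_mem_nhdsWithin] with z h4 h5
    exact ⟨h4, h5, closedBall_notMem hB hbB (ball_subset_closedBall h4) h5⟩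
  have hzero : Tendsto (fun z : ℂ => ‖z - b‖) (𝓝[≠] b) (𝓝 0) := by
    have h3 : ContinuousAt (fun z : ℂ => ‖z - b‖) b := (continuousAt_id.sub continuousAt_const).norm
    have h4 := h3.tendsto
    simp only [sub_self, norm_zero] at h4
    exact h4.mono_left nhdsWithin_le_nhds
  by_cases hord : ∀ᶠ n in (𝒰 : Filter ℕ), 0 ≤ meromorphicOrderAt (F n) b
  · -- finite values
    have h3 : ∀ᶠ n in (𝒰 : Filter ℕ), ∃ a' ∈ A, Tendsto (F n) (𝓝[≠] b) (𝓝 a') := by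
      filter_upwards [hord, hbig] with n hn hn'
      have hbn := hball n hn' b (mem_closedBall_self hδ.le)
      obtain ⟨a', ha'⟩ := tendsto_nhds_of_meromorphicOrderAt_nonneg ((hF n).1 b hbn) hn
      exact ⟨a', (hF n).2.2 b hbn hb a' ha', ha'⟩
    obtain ⟨a', ha'A, ha'⟩ := (Ultrafilter.eventually_exists_mem_iff (f := 𝒰) hA).1 h3
    have h4 : ∀ᶠ z in 𝓝[≠] b, ‖G z - a'‖ ≤ 2 * M / δ * ‖z - b‖ := by
      filter_upwards [hpunct] with z hz
      refine le_of_tendsto ((hCV.pt (z := z) hz.2.2).sub_const a').norm ?_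
      filter_upwards [ha', h1, hbig] with n hn1 hn2 hn3
      exact schwarz_lim hδ (fun w hw hwb => ((hF n).2.1 w (hball n hn3 w hw) (closedBall_notMem hB hbB hw hwb)).1) hn1
        (fun w hw => (hn2 w hw).le) z hz.1 hz.2.1
    have h5 : Tendsto (fun z => G z - a') (𝓝[≠] b) (𝓝 0) := by
      refine squeeze_zero_norm' h4 ?_
      have h6 := hzero.const_mul (2 * M / δ)
      rwa [mul_zero] at h6
    have h6 : Tendsto G (𝓝[≠] b) (𝓝 a') := by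
      have h7 := h5.add_const a'
      simpa using h7
    rw [tendsto_nhds_unique ha h6]
    exact ha'A
  · -- infinite values
    exfalso
    rw [← Ultrafilter.eventually_not] at hord
    have h4 : ∀ᶠ z in 𝓝[≠] b, ‖(G z)⁻¹‖ ≤ 2 * M' / δ * ‖z - b‖ := by
      filter_upwards [hpunct] with z hz
      have hi := (hCV.inv (fun z hz => hG0 z hz)).pt (z := z) hz.2.2
      refine le_of_tendsto hi.norm ?_
      filter_upwards [hord, h2, hbig] with n hn1 hn2 hn3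
      have h6 : Tendsto (fun z => (F n z)⁻¹) (𝓝[≠] b) (𝓝 0) :=
        tendsto_inv₀_cobounded.comp (tendsto_cobounded_of_meromorphicOrderAt_neg (not_le.1 hn1))
      have h7 := schwarz_lim (q := fun z => (F n z)⁻¹) hδ (fun w hw hwb => by
        obtain ⟨h8, h9, -⟩ := (hF n).2.1 w (hball n hn3 w hw) (closedBall_notMem hB hbB hw hwb)
        exact h8.inv h9) h6 (fun w hw => (hn2 w hw).le) z hz.1 hz.2.1
      rwa [sub_zero] at h7
    have h5 : Tendsto (fun z => ‖(G z)⁻¹‖ * ‖G z‖) (𝓝[≠] b) (𝓝 (0 * ‖a‖)) := by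
      refine Tendsto.mul ?_ ha.norm
      refine squeeze_zero' (Eventually.of_forall fun z => norm_nonneg _) h4 ?_
      have h6 := hzero.const_mul (2 * M' / δ)
      rwa [mul_zero] at h6
    have h6 : ∀ᶠ z in 𝓝[≠] b, ‖(G z)⁻¹‖ * ‖G z‖ = 1 := by
      filter_upwards [hpunct] with z hz
      rw [norm_inv, inv_mul_cancel₀ (norm_ne_zero_iff.2 (hG0 z hz.2.2))]
    have h7 := h5.congr' h6
    rw [zero_mul] at h7
    exact one_ne_zero (tendsto_nhds_unique tendsto_const_nhds h7)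

/-- **Compactness.** -/
theorem cpt (hB : BadSet B Λ δ) {𝓛 : Set (ℂ → ℂ)} (hL : ∀ L ∈ 𝓛, ∀ z, z ∉ B → AnalyticAt ℂ L z) {C A : Set ℂ} (hC : C ⊆ B) (hA : A.Finite)
    {𝒰 : Ultrafilter ℕ} {F : ℕ → ℂ → ℂ} {R : ℕ → ℝ} (hR : Tendsto R 𝒰 atTop) (hF : ∀ n, F n ∈ Tm B 𝓛 C A (ball 0 (R n))) :
    (∃ f ∈ Tm B 𝓛 C A Set.univ, CV 𝒰 F f Bᶜ) ∨ CV 𝒰 F (fun _ => 0) Bᶜ ∨ CV 𝒰 F (fun _ => 1) Bᶜ ∨ (∃ L ∈ 𝓛, CV 𝒰 F L Bᶜ) ∨
      CV 𝒰 (fun n z => (F n z)⁻¹) (fun _ => 0) Bᶜ := by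
  have hBo : IsOpen (Bᶜ : Set ℂ) := (isClosed_bad hB).isOpen_compl
  have hBc := isPreconnected_compl hB
  -- balls
  have hball : ∀ z ∈ (Bᶜ : Set ℂ), ∃ r : ℝ, 0 < r ∧ ball z r ⊆ Bᶜ ∧ ∀ᶠ n in (𝒰 : Filter ℕ), ball z r ⊆ ball 0 (R n) := by
    intro z hz
    obtain ⟨r, hr, hr'⟩ := Metric.isOpen_iff.1 hBo z hz
    refine ⟨r, hr, hr', ?_⟩
    filter_upwards [hR.eventually_gt_atTop (‖z‖ + r)] with n hn w hw
    rw [mem_ball, dist_eq_norm] at hw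
    rw [mem_ball_zero_iff]
    have h3 : w = (w - z) + z := by ring
    rw [h3]
    exact lt_of_le_of_lt (norm_add_le _ _) (by linarith)
  have hEvO : EvO 𝒰 F Bᶜ := by
    intro z hz
    obtain ⟨r, hr, hr', hr''⟩ := hball z hz
    refine ⟨r, hr, hr''.mono fun n hn => ⟨fun w hw => ?_, fun w hw => ?_⟩⟩
    · exact ((hF n).2.1 w (hn hw) (hr' hw)).1.differentiableAt.differentiableWithinAt
    · obtain ⟨-, h1, h2, -⟩ := (hF n).2.1 w (hn hw) (hr' hw)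
      exact ⟨h1, h2⟩
  obtain ⟨z₀, hz₀⟩ : ∃ z₀, z₀ ∈ (Bᶜ : Set ℂ) := by
    obtain ⟨z, hz⟩ := hB.nonempty
    exact ⟨z, gd_notMem (by linarith [hB.pos]) hz⟩
  by_cases hbd : ∃ M : ℝ, ∀ᶠ n in (𝒰 : Filter ℕ), ‖F n z₀‖ ≤ M
  · obtain ⟨M, hM⟩ := hbd
    obtain ⟨G, hGd, hG, hcase⟩ := montel schottky hBo hBc hEvO hz₀ hM
    have hCV := cv_of_tlu hBo hGd hG
    rcases hcase with hO | h0 | h1
    · by_cases hex : ∃ L ∈ 𝓛, ∀ z ∈ (Bᶜ : Set ℂ), G z = L z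
      · obtain ⟨L, hL', he⟩ := hex
        exact Or.inr (Or.inr (Or.inr (Or.inl ⟨L, hL', hCV.congr he⟩)))
      · left
        have hGa : ∀ z, z ∉ B → AnalyticAt ℂ G z := fun z hz => hGd.analyticAt (hBo.mem_nhds hz)
        refine ⟨G, ⟨fun z _ => ?_, fun z _ hz => ⟨hGa z hz, (hO z hz).1, (hO z hz).2, fun L hL' => ?_⟩, fun b _ hb a ha => ?_⟩, hCV⟩
        · by_cases hz : z ∈ B
          · have hsub : ball z δ \ {z} ⊆ Bᶜ := fun w hw => closedBall_notMem hB hz (ball_subset_closedBall hw.1) hw.2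
            exact picard schottky hB.pos (hGd.mono hsub) (hO.mono hsub)
          · exact (hGa z hz).meromorphicAt
        · have h1 : CV 𝒰 (fun n z => F n z - L z) (fun z => G z - L z) Bᶜ := fun w hw v hv =>
            (hCV w hw v hv).sub ((hL L hL' w hw).continuousAt.tendsto.comp hv)
          have h2 : EvD 𝒰 (fun n z => F n z - L z) Bᶜ := by
            intro w hw
            obtain ⟨r, hr, hr', hr''⟩ := hball w hw
            refine ⟨r, hr, hr''.mono fun n hn => ⟨fun v hv => ?_, fun v hv => ?_⟩⟩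
            · exact (((hF n).2.1 v (hn hv) (hr' hv)).1.differentiableAt.sub (hL L hL' v (hr' hv)).differentiableAt).differentiableWithinAt
            · obtain ⟨-, -, -, h3⟩ := (hF n).2.1 v (hn hv) (hr' hv)
              exact sub_ne_zero.2 (h3 L hL')
          have h3 := hurCV hBo hBc (hGd.sub fun w hw => (hL L hL' w hw).differentiableAt.differentiableWithinAt) h1 h2
          rcases h3 with h3 | h3
          · exact absurd ⟨L, hL', fun w hw => sub_eq_zero.1 (h3 w hw)⟩ hex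
          · exact sub_ne_zero.1 (h3 z hz)
        · exact value_limit hB hA hR hF hGa (fun z hz => (hO z hz).1) hCV (hC hb) hb ha
    · exact Or.inr (Or.inl (hCV.congr h0))
    · exact Or.inr (Or.inr (Or.inl (hCV.congr h1)))
  · -- unbounded
    refine Or.inr (Or.inr (Or.inr (Or.inr ?_)))
    have hinf : ∀ M : ℝ, ∀ᶠ n in (𝒰 : Filter ℕ), M < ‖F n z₀‖ := by
      intro M
      have h1 : ∀ᶠ n in (𝒰 : Filter ℕ), ¬ ‖F n z₀‖ ≤ M := Ultrafilter.eventually_not.2 fun h => hbd ⟨M, h⟩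
      exact h1.mono fun n hn => not_le.1 hn
    have hle : ∀ᶠ n in (𝒰 : Filter ℕ), ‖(F n z₀)⁻¹‖ ≤ 1 := by
      filter_upwards [hinf 1] with n hn
      rw [norm_inv]
      exact inv_le_one_of_one_le₀ hn.le
    obtain ⟨G, hGd, hG, hcase⟩ := montel schottky hBo hBc hEvO.inv hz₀ hle
    have hCV := cv_of_tlu hBo hGd hG
    have hG0 : G z₀ = 0 := by
      refine tendsto_nhds_unique (hCV.pt hz₀) ?_
      rw [tendsto_zero_iff_norm_tendsto_zero, Metric.tendsto_nhds]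
      intro ε hε
      filter_upwards [hinf ε⁻¹] with n hn
      rw [dist_zero_right, norm_norm, norm_inv]
      exact inv_lt_of_inv_lt₀ hε hn
    rcases hcase with hO | h0 | h1
    · exact absurd hG0 (hO z₀ hz₀).1
    · exact hCV.congr h0
    · rw [h1 z₀ hz₀] at hG0
      exact absurd hG0 one_ne_zero

end Pool.Agent.H86.LR

end
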