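import Pool.Agent.H94.CB.M15
import Pool.Agent.H94.CB.M194
import Pool.Agent.H94.CB.M240
import Pool.Agent.H94.CB.M74
import Pool.Agent.H94.CB.M88

/-! The parts of this file: H17V.GermT, H17L.ClD, H17L.FormA, H17L.LiftD. -/

section

/-!
# H17V GermT: transversality of the branches of a curve germ to the level sets of a function

`g 0 = 0`, `h` not identically `0`.  Claim: for all `p` near `0` with `g p ≠ 0`, `h p = 0` the zero set of `h` near `p` is a smooth curve transversal to the level set of `g`.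

Proof: induction over the resolution of `g * h` (if `g` is identically `0` near `0` there is nothing to prove), exactly as `GermC_main`, `crit_near` in H17N/GermC.lean (copy the private lemmas `GermC_Rt`, `GermC_push`, `GermC_congr`, `GermC_congr_near`, `GermC_bihol`, `GermC_van`, `GermC_rt_bl`, `GermC_rt_blInf`, `GermC_lim`, `GermC_key1`, `GermC_key2`, `GermC_cover`), with the property
`Gt g h p : g p ≠ 0 → h p = 0 → ∃ T, Coord (fun x => g (p + x) - g p) T ∧ ∀ᶠ x in 𝓝 0, h (p + x) = 0 ↔ T x = 0` in place of `GermC_Gd` and `ResN n (g * h)` in place of `ResN n g`.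

* transport under a map `β` which is biholomorphic near `p` (an analytic right inverse at `β p` with value `p`; here one needs a local biholomorphism: for the charts `bl c` at points with `p.1 ≠ 0`, `blInf` at points with `p.2 ≠ 0` see `bl_near`, `blInf_near` in H17BP/FinG.lean, for `Bihol θ` see `Bihol.near` in H17BP/MonoOpen.lean): if `Gt (g ∘ β) (h ∘ β) p` then `Gt g h (β p)`:
  compose `T` with the inverse of `x ↦ β (p + x) - β p`.
* base case: `g * h` is `Mono`: `g h = S^a T^b v`.  By `H17L.mono_div` (zeros of `g` and of `h` are zeros of `g h`, so `S = 0` or `T = 0`) `g = S^i T^j v₁`, `h = S^k T^l v₂` near `0`, `v₁, v₂` units, and `1 ≤ i + j` because `g 0 = 0`.  Let `p` be near `0`, `g p ≠ 0`, `h p = 0`.  Then `S p = 0` or `T p = 0`; by symmetry let `S p = 0`.  Then `i = 0` (otherwise `g p = 0`), so `1 ≤ j`, `T p ≠ 0`, and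
  `1 ≤ k` (otherwise `h p ≠ 0`).  Near `p`: `h = 0 ↔ S = 0`.  `(g (p + x) - g p, S (p + x))` are coordinates at `x = 0`: in the coordinates `(S, T)` the function `g = T^j v₁` has `∂_T g = T^(j-1) (j v₁ + T ∂_T v₁) ≠ 0` for `T ≠ 0` small.
-/

set_option autoImplicit false

open Topology Filter Metric

namespace Pool.Agent.H17V

attribute [-instance] ProperSMul.toContinuousSMul

open Pool.Agent.H17BP (Bihol Coord Mono bl blInf BChart ResN exists_resN)

/-- `β` has an analytic right inverse at `β p` with value `p`. -/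
private def GermT_Rt (β : ℂ × ℂ → ℂ × ℂ) (p : ℂ × ℂ) : Prop :=
  ∃ γ : ℂ × ℂ → ℂ × ℂ, AnalyticAt ℂ γ (β p) ∧ γ (β p) = p ∧ ∀ᶠ q in 𝓝 (β p), β (γ q) = q

/-- transversality at the point `p` -/
private def GermT_Gd (g h : ℂ × ℂ → ℂ) (p : ℂ × ℂ) : Prop :=
  g p ≠ 0 → h p = 0 → ∃ T : ℂ × ℂ → ℂ, AnalyticAt ℂ T p ∧ T p = 0 ∧
    (∀ v : ℂ × ℂ, fderiv ℂ g p v = 0 → fderiv ℂ T p v = 0 → v = 0) ∧ ∀ᶠ x in 𝓝 p, h x = 0 ↔ T x = 0

private theorem GermT_push {g h : ℂ × ℂ → ℂ} {β : ℂ × ℂ → ℂ × ℂ} {p : ℂ × ℂ} (hβ : AnalyticAt ℂ β p)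
    (hg : AnalyticAt ℂ g (β p)) (hr : GermT_Rt β p) (h1 : GermT_Gd (g ∘ β) (h ∘ β) p) : GermT_Gd g h (β p) := by
  obtain ⟨γ, h2, h3, h4⟩ := hr
  intro h5 h6
  obtain ⟨T, k1, k2, k3, k4⟩ := h1 h5 h6
  have hγt : Tendsto γ (𝓝 (β p)) (𝓝 p) := by
    have h7 := h2.continuousAt.tendsto
    rwa [h3] at h7
  have k1' : AnalyticAt ℂ T (γ (β p)) := by rw [h3]; exact k1
  have hβ' : AnalyticAt ℂ β (γ (β p)) := by rw [h3]; exact hβ
  have hcomp : (fderiv ℂ β p).comp (fderiv ℂ γ (β p)) = ContinuousLinearMap.id ℂ (ℂ × ℂ) := by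
    have h7 : HasFDerivAt (fun q => β (γ q)) ((fderiv ℂ β (γ (β p))).comp (fderiv ℂ γ (β p))) (β p) :=
      hβ'.differentiableAt.hasFDerivAt.comp (β p) h2.differentiableAt.hasFDerivAt
    have h8 : HasFDerivAt (fun q : ℂ × ℂ => q) ((fderiv ℂ β (γ (β p))).comp (fderiv ℂ γ (β p))) (β p) :=
      h7.congr_of_eventuallyEq (h4.mono fun q hq => hq.symm)
    rw [h3] at h8
    exact h8.unique (hasFDerivAt_id (β p))
  refine ⟨fun q => T (γ q), AnalyticAt.fun_comp k1' h2, by simp only [h3, k2], fun v a b => ?_, ?_⟩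
  · have e1 : fderiv ℂ β p (fderiv ℂ γ (β p) v) = v := by
      have h7 := congrArg (fun L : ℂ × ℂ →L[ℂ] ℂ × ℂ => L v) hcomp
      simpa using h7
    have e2 : fderiv ℂ (g ∘ β) p (fderiv ℂ γ (β p) v) = 0 := by
      rw [fderiv_comp p hg.differentiableAt hβ.differentiableAt, ContinuousLinearMap.comp_apply, e1, a]
    have e3 : fderiv ℂ T p (fderiv ℂ γ (β p) v) = 0 := by
      have h7 : HasFDerivAt (fun q => T (γ q)) ((fderiv ℂ T (γ (β p))).comp (fderiv ℂ γ (β p))) (β p) :=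
        k1'.differentiableAt.hasFDerivAt.comp (β p) h2.differentiableAt.hasFDerivAt
      rw [h7.fderiv, ContinuousLinearMap.comp_apply, h3] at b
      exact b
    have e4 := k3 _ e2 e3
    rw [← e1, e4, map_zero]
  · filter_upwards [h4, hγt.eventually k4] with q a b
    simp only [Function.comp_apply, a] at b
    exact b

private theorem GermT_congr {g g₁ h h₁ : ℂ × ℂ → ℂ} {p : ℂ × ℂ} (he : ∀ᶠ x in 𝓝 p, g₁ x = g x) (he' : ∀ᶠ x in 𝓝 p, h₁ x = h x)
    (h1 : GermT_Gd g h p) : GermT_Gd g₁ h₁ p := by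
  intro h4 h5
  rw [he.self_of_nhds] at h4
  rw [he'.self_of_nhds] at h5
  obtain ⟨T, k1, k2, k3, k4⟩ := h1 h4 h5
  refine ⟨T, k1, k2, fun v a b => k3 v ?_ b, ?_⟩
  · rwa [Filter.EventuallyEq.fderiv_eq he] at a
  · filter_upwards [k4, he'] with x a b
    rw [b]
    exact a

private theorem GermT_congr_near {g g₁ h h₁ : ℂ × ℂ → ℂ} (he : ∀ᶠ x in 𝓝 (0 : ℂ × ℂ), g₁ x = g x) (he' : ∀ᶠ x in 𝓝 (0 : ℂ × ℂ), h₁ x = h x)
    (h1 : ∀ᶠ p in 𝓝 (0 : ℂ × ℂ), GermT_Gd g h p) : ∀ᶠ p in 𝓝 (0 : ℂ × ℂ), GermT_Gd g₁ h₁ p := by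
  filter_upwards [he.eventually_nhds, he'.eventually_nhds, h1] with p a b c
  exact GermT_congr a b c

private theorem GermT_bihol {g h : ℂ × ℂ → ℂ} {θ : ℂ × ℂ → ℂ × ℂ} (hθ : Bihol θ) (hg : AnalyticAt ℂ g 0)
    (h1 : ∀ᶠ p in 𝓝 (0 : ℂ × ℂ), GermT_Gd (g ∘ θ) (h ∘ θ) p) : ∀ᶠ p in 𝓝 (0 : ℂ × ℂ), GermT_Gd g h p := by
  obtain ⟨θ', h2, h3, h4⟩ := hθ.exists_inv
  filter_upwards [h4.eventually_nhds, h2.tendsto.eventually h1, h2.tendsto.eventually hθ.an.eventually_analyticAt,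
    hg.eventually_analyticAt, h2.an.eventually_analyticAt] with q a1 a2 a3 a4 a5
  have e : θ (θ' q) = q := a1.self_of_nhds
  have h5 := GermT_push (g := g) (h := h) a3 (by rw [e]; exact a4)
    ⟨θ', by rw [e]; exact a5, by rw [e], by rw [e]; exact a1⟩ a2
  rwa [e] at h5

/-- a non-zero germ does not vanish identically after the composition with `β` -/
private theorem GermT_van {Q : ℂ × ℂ → ℂ} {β : ℂ × ℂ → ℂ × ℂ} (hQ : AnalyticAt ℂ Q 0) (hβ : AnalyticAt ℂ β 0)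
    (hβ0 : β 0 = 0) (hr : ∃ᶠ p in 𝓝 (0 : ℂ × ℂ), GermT_Rt β p) (h : ∀ᶠ p in 𝓝 (0 : ℂ × ℂ), (Q ∘ β) p = 0) :
    ∀ᶠ p in 𝓝 (0 : ℂ × ℂ), Q p = 0 := by
  obtain ⟨r, hr0, hQr⟩ := hQ.exists_ball_analyticOnNhd
  have ht : Tendsto β (𝓝 0) (𝓝 0) := by
    have h1 := hβ.continuousAt.tendsto
    rwa [hβ0] at h1
  obtain ⟨p, ⟨γ, h1, h2, h3⟩, h4, h5⟩ :=
    (hr.and_eventually (h.eventually_nhds.and (ht.eventually (Metric.ball_mem_nhds 0 hr0)))).exists
  have h6 : Tendsto γ (𝓝 (β p)) (𝓝 p) := by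
    have h7 := h1.continuousAt.tendsto
    rwa [h2] at h7
  have h7 : Q =ᶠ[𝓝 (β p)] 0 := by
    filter_upwards [h3, h6.eventually h4] with q a b
    simp only [Function.comp_apply, a] at b
    exact b
  have h8 := hQr.eqOn_zero_of_preconnected_of_eventuallyEq_zero
    (convex_ball (0 : ℂ × ℂ) r).isPreconnected h5 h7
  filter_upwards [Metric.ball_mem_nhds (0 : ℂ × ℂ) hr0] with q hq
  exact h8 hq

private theorem GermT_rt_bl (c : ℂ) {p : ℂ × ℂ} (hp : p.1 ≠ 0) : GermT_Rt (bl c) p := by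
  have h0 : (bl c p).1 ≠ 0 := hp
  refine ⟨fun q => (q.1, q.2 / q.1 - c), ?_, ?_, ?_⟩
  · exact analyticAt_fst.prod ((analyticAt_snd.div analyticAt_fst h0).sub analyticAt_const)
  · unfold Pool.Agent.H17BP.bl
    ext
    · rfl
    · simp only
      field_simp
      ring
  · have h1 : ∀ᶠ q : ℂ × ℂ in 𝓝 (bl c p), q.1 ≠ 0 := continuousAt_fst.eventually_ne h0
    filter_upwards [h1] with q hq
    unfold Pool.Agent.H17BP.bl
    ext
    · rfl
    · simp only
      field_simp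
      ring

private theorem GermT_rt_blInf {p : ℂ × ℂ} (hp : p.2 ≠ 0) : GermT_Rt blInf p := by
  have h0 : (blInf p).2 ≠ 0 := hp
  refine ⟨fun q => (q.1 / q.2, q.2), ?_, ?_, ?_⟩
  · exact (analyticAt_fst.div analyticAt_snd h0).prod analyticAt_snd
  · unfold Pool.Agent.H17BP.blInf
    ext
    · simp only
      field_simp
    · rfl
  · have h1 : ∀ᶠ q : ℂ × ℂ in 𝓝 (blInf p), q.2 ≠ 0 := continuousAt_snd.eventually_ne h0
    filter_upwards [h1] with q hq
    unfold Pool.Agent.H17BP.blInf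
    ext
    · simp only
      field_simp
    · rfl

/-- bounded functions converge along an ultrafilter -/
private theorem GermT_lim {U : Ultrafilter (ℂ × ℂ)} {f : ℂ × ℂ → ℂ}
    (h : ∀ᶠ p in (U : Filter (ℂ × ℂ)), ‖f p‖ ≤ 1) : ∃ c : ℂ, Tendsto f U (𝓝 c) := by
  have h1 : ((U.map f : Ultrafilter ℂ) : Filter ℂ) ≤ 𝓟 (Metric.closedBall (0 : ℂ) 1) := by
    rw [Filter.le_principal_iff, Ultrafilter.coe_map, Filter.mem_map]
    filter_upwards [h] with p hp
    simpa using hp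
  obtain ⟨c, -, hc⟩ := (isCompact_closedBall (0 : ℂ) 1).ultrafilter_le_nhds (U.map f) h1
  exact ⟨c, hc⟩

private theorem GermT_key1 {P : ℂ × ℂ → Prop} {U : Ultrafilter (ℂ × ℂ)} (hU0 : (U : Filter (ℂ × ℂ)) ≤ 𝓝 0)
    (hbad : ∀ᶠ p in (U : Filter (ℂ × ℂ)), ¬ P p) {c : ℂ}
    (hc : Tendsto (fun p : ℂ × ℂ => p.2 / p.1) U (𝓝 c)) (h1 : ∀ᶠ p in (U : Filter (ℂ × ℂ)), p.1 ≠ 0)
    (hih : ∀ᶠ p in 𝓝 (0 : ℂ × ℂ), p.1 ≠ 0 → P (bl c p)) : False := by
  have ht1 : Tendsto (fun p : ℂ × ℂ => p.1) U (𝓝 0) := by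
    have h2 : Tendsto (fun p : ℂ × ℂ => p.1) (𝓝 0) (𝓝 (0 : ℂ × ℂ).1) := continuous_fst.tendsto 0
    exact h2.mono_left hU0
  have ht2 : Tendsto (fun p : ℂ × ℂ => p.2 / p.1 - c) U (𝓝 0) := by
    have h2 := hc.sub_const c
    rwa [sub_self] at h2
  have ht : Tendsto (fun p : ℂ × ℂ => (p.1, p.2 / p.1 - c)) U (𝓝 0) := ht1.prodMk_nhds ht2
  obtain ⟨p, hp1, hp2, hp3⟩ := ((ht.eventually hih).and (h1.and hbad)).exists
  apply hp3
  have h4 : bl c (p.1, p.2 / p.1 - c) = p := by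
    unfold Pool.Agent.H17BP.bl
    ext
    · rfl
    · simp only
      field_simp
      ring
  have h5 := hp1 hp2
  rwa [h4] at h5

private theorem GermT_key2 {P : ℂ × ℂ → Prop} {U : Ultrafilter (ℂ × ℂ)} (hU0 : (U : Filter (ℂ × ℂ)) ≤ 𝓝 0)
    (hbad : ∀ᶠ p in (U : Filter (ℂ × ℂ)), ¬ P p)
    (hc : Tendsto (fun p : ℂ × ℂ => p.1 / p.2) U (𝓝 0)) (h1 : ∀ᶠ p in (U : Filter (ℂ × ℂ)), p.2 ≠ 0)
    (hih : ∀ᶠ p in 𝓝 (0 : ℂ × ℂ), p.2 ≠ 0 → P (blInf p)) : False := by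
  have ht1 : Tendsto (fun p : ℂ × ℂ => p.2) U (𝓝 0) := by
    have h2 : Tendsto (fun p : ℂ × ℂ => p.2) (𝓝 0) (𝓝 (0 : ℂ × ℂ).2) := continuous_snd.tendsto 0
    exact h2.mono_left hU0
  have ht : Tendsto (fun p : ℂ × ℂ => (p.1 / p.2, p.2)) U (𝓝 0) := hc.prodMk_nhds ht1
  obtain ⟨p, hp1, hp2, hp3⟩ := ((ht.eventually hih).and (h1.and hbad)).exists
  apply hp3
  have h4 : blInf (p.1 / p.2, p.2) = p := by
    unfold Pool.Agent.H17BP.blInf
    ext
    · simp only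
      field_simp
    · rfl
  have h5 := hp1 hp2
  rwa [h4] at h5

/-- the charts of the blow-up cover a punctured neighbourhood of `0` -/
private theorem GermT_cover {P : ℂ × ℂ → Prop} (h : ∀ c, ∀ᶠ p in 𝓝 (0 : ℂ × ℂ), p.1 ≠ 0 → P (bl c p))
    (h' : ∀ᶠ p in 𝓝 (0 : ℂ × ℂ), p.2 ≠ 0 → P (blInf p)) : ∀ᶠ p in 𝓝[≠] (0 : ℂ × ℂ), P p := by
  by_contra hne
  have hf : ∃ᶠ p in 𝓝[≠] (0 : ℂ × ℂ), ¬ P p := Filter.not_eventually.mp hne
  have hnb := Filter.frequently_iff_neBot.mp hf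
  obtain ⟨U, hU⟩ := Ultrafilter.exists_le (𝓝[≠] (0 : ℂ × ℂ) ⊓ 𝓟 {p | ¬ P p})
  have hU1 : (U : Filter (ℂ × ℂ)) ≤ 𝓝[≠] 0 := hU.trans inf_le_left
  have hU0 : (U : Filter (ℂ × ℂ)) ≤ 𝓝 0 := hU1.trans nhdsWithin_le_nhds
  have hbad : ∀ᶠ p in (U : Filter (ℂ × ℂ)), ¬ P p := Filter.le_principal_iff.mp (hU.trans inf_le_right)
  have hne0 : ∀ᶠ p in (U : Filter (ℂ × ℂ)), p ≠ 0 := by
    have h1 : ∀ᶠ p in 𝓝[≠] (0 : ℂ × ℂ), p ≠ 0 := eventually_mem_nhdsWithin
    exact h1.filter_mono hU1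
  rcases U.em (fun p => ‖p.2‖ ≤ ‖p.1‖) with h1 | h1
  · have h2 : ∀ᶠ p in (U : Filter (ℂ × ℂ)), p.1 ≠ 0 := by
      filter_upwards [h1, hne0] with p hp1 hp2 h0
      apply hp2
      rw [h0, norm_zero] at hp1
      exact Prod.ext h0 (norm_le_zero_iff.mp hp1)
    obtain ⟨c, hc⟩ := GermT_lim (U := U) (f := fun p => p.2 / p.1) (by
      filter_upwards [h1] with p hp
      rw [norm_div]
      exact div_le_one_of_le₀ hp (norm_nonneg _))
    exact GermT_key1 hU0 hbad hc h2 (h c)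
  · have h2 : ∀ᶠ p in (U : Filter (ℂ × ℂ)), p.2 ≠ 0 := by
      filter_upwards [h1] with p hp1 h0
      apply hp1
      rw [h0, norm_zero]
      exact norm_nonneg _
    obtain ⟨c, hc⟩ := GermT_lim (U := U) (f := fun p => p.1 / p.2) (by
      filter_upwards [h1] with p hp
      rw [norm_div]
      exact div_le_one_of_le₀ (not_le.mp hp).le (norm_nonneg _))
    by_cases hc0 : c = 0
    · rw [hc0] at hc
      exact GermT_key2 hU0 hbad hc h2 h'
    · have h3 : ∀ᶠ p in (U : Filter (ℂ × ℂ)), p.1 ≠ 0 := by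
        filter_upwards [hc.eventually_ne hc0] with p hp h0
        apply hp
        rw [h0, zero_div]
      have h4 : Tendsto (fun p : ℂ × ℂ => p.2 / p.1) U (𝓝 c⁻¹) := by
        have h5 := hc.inv₀ hc0
        refine h5.congr ?_
        intro p
        rw [inv_div]
      exact GermT_key1 hU0 hbad h4 h3 (h c⁻¹)

private theorem GermT_pow {a : ℂ} {n : ℕ} (h : a ^ n = 0) : a = 0 := by
  by_contra h1
  exact pow_ne_zero n h1 h

/-- the germs of analytic functions have no zero divisors -/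
private theorem GermT_prod {g h : ℂ × ℂ → ℂ} (hg : AnalyticAt ℂ g 0) (hh : AnalyticAt ℂ h 0)
    (hgh : ∀ᶠ p in 𝓝 (0 : ℂ × ℂ), g p * h p = 0) : (∀ᶠ p in 𝓝 (0 : ℂ × ℂ), g p = 0) ∨ ∀ᶠ p in 𝓝 (0 : ℂ × ℂ), h p = 0 := by
  obtain ⟨r, hr, hgr⟩ := hg.exists_ball_analyticOnNhd
  obtain ⟨r', hr', hhr⟩ := hh.exists_ball_analyticOnNhd
  by_contra hcon
  rw [not_or] at hcon
  obtain ⟨h1, h2⟩ := hcon
  have b1 : ∀ᶠ q in 𝓝 (0 : ℂ × ℂ), q ∈ ball (0 : ℂ × ℂ) r := ball_mem_nhds _ hr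
  have b2 : ∀ᶠ q in 𝓝 (0 : ℂ × ℂ), q ∈ ball (0 : ℂ × ℂ) r' := ball_mem_nhds _ hr'
  obtain ⟨p, hp1, hp2, hp3⟩ := ((Filter.not_eventually.1 h1).and_eventually (hgh.eventually_nhds.and (b1.and b2))).exists
  apply h2
  have h3 : h =ᶠ[𝓝 p] 0 := by
    filter_upwards [hp2, (hgr p hp3.1).continuousAt.eventually_ne hp1] with q a b
    exact (mul_eq_zero.1 a).resolve_left b
  have h4 := hhr.eqOn_zero_of_preconnected_of_eventuallyEq_zero (convex_ball (0 : ℂ × ℂ) r').isPreconnected hp3.2 h3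
  filter_upwards [ball_mem_nhds (0 : ℂ × ℂ) hr'] with q hq
  exact h4 hq

/-- the case of two monomials times units -/
private theorem GermT_monomial {v w : ℂ × ℂ → ℂ} (hv : AnalyticAt ℂ v 0) (hv0 : v 0 ≠ 0) (hw : AnalyticAt ℂ w 0) (hw0 : w 0 ≠ 0)
    {i j k l : ℕ} (hij : 1 ≤ i + j) :
    ∀ᶠ p in 𝓝 (0 : ℂ × ℂ), GermT_Gd (fun p => p.1 ^ i * p.2 ^ j * v p) (fun p => p.1 ^ k * p.2 ^ l * w p) p := by
  have hij0 : (((i + j : ℕ)) : ℂ) ≠ 0 := by exact_mod_cast (by omega : i + j ≠ 0)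
  -- the derivative in the radial direction
  have hE : ∀ᶠ p in 𝓝 (0 : ℂ × ℂ), ((i + j : ℕ) : ℂ) * v p + fderiv ℂ v p p ≠ 0 := by
    have h1 : ContinuousAt (fun p : ℂ × ℂ => ((i + j : ℕ) : ℂ) * v p + fderiv ℂ v p p) 0 :=
      (continuousAt_const.mul hv.continuousAt).add (hv.fderiv.continuousAt.clm_apply continuousAt_id)
    refine h1.eventually_ne ?_
    rw [map_zero, add_zero]
    exact mul_ne_zero hij0 hv0
  filter_upwards [hE, hv.eventually_analyticAt, (hw.continuousAt.eventually_ne hw0).eventually_nhds] with p h1 h2 h3 h4 h5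
  obtain ⟨g, hg⟩ : ∃ g : ℂ × ℂ → ℂ, g = fun p => p.1 ^ i * p.2 ^ j * v p := ⟨_, rfl⟩
  have hga : AnalyticAt ℂ g p := by
    rw [hg]
    exact ((analyticAt_fst.pow i).mul (analyticAt_snd.pow j)).mul h2
  have hrad : fderiv ℂ g p p = p.1 ^ i * p.2 ^ j * (((i + j : ℕ) : ℂ) * v p + fderiv ℂ v p p) := by
    have h9 : HasDerivAt (fun t : ℂ => t • p) p 1 := by
      have h10 := (hasDerivAt_id (1 : ℂ)).smul_const p
      rwa [one_smul] at h10
    have e1 : HasDerivAt (fun t : ℂ => g (t • p)) (fderiv ℂ g p p) 1 := by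
      have h10 : HasFDerivAt g (fderiv ℂ g p) ((1 : ℂ) • p) := by
        rw [one_smul]
        exact hga.differentiableAt.hasFDerivAt
      exact h10.comp_hasDerivAt (1 : ℂ) h9
    have e2 : HasDerivAt (fun t : ℂ => v (t • p)) (fderiv ℂ v p p) 1 := by
      have h10 : HasFDerivAt v (fderiv ℂ v p) ((1 : ℂ) • p) := by
        rw [one_smul]
        exact h2.differentiableAt.hasFDerivAt
      exact h10.comp_hasDerivAt (1 : ℂ) h9
    have e3 : (fun t : ℂ => g (t • p)) = fun t : ℂ => t ^ (i + j) * (p.1 ^ i * p.2 ^ j) * v (t • p) := by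
      funext t
      rw [hg]
      simp only [Prod.smul_fst, Prod.smul_snd, smul_eq_mul, mul_pow, pow_add]
      ring
    have e4 : HasDerivAt (fun t : ℂ => t ^ (i + j) * (p.1 ^ i * p.2 ^ j)) (((i + j : ℕ) : ℂ) * (p.1 ^ i * p.2 ^ j)) 1 := by
      have h8 := (hasDerivAt_pow (i + j) (1 : ℂ)).mul_const (p.1 ^ i * p.2 ^ j)
      rw [one_pow, mul_one] at h8
      exact h8
    have e5 := e4.mul e2
    rw [e3] at e1
    have e6 := e1.unique e5
    rw [e6, one_smul, one_pow, one_mul]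
    ring
  have hpne : p ≠ 0 := by
    rintro rfl
    apply h4
    rcases Nat.eq_zero_or_pos i with hi | hi
    · have hj : j ≠ 0 := by omega
      simp [hj]
    · have hi' : i ≠ 0 := by omega
      simp [hi']
  have hmne : p.1 ^ i * p.2 ^ j ≠ 0 := left_ne_zero_of_mul h4
  have hradne : fderiv ℂ g p p ≠ 0 := by
    rw [hrad]
    exact mul_ne_zero hmne h1
  have h3p := h3.self_of_nhds
  have h6 : p.1 ^ k * p.2 ^ l = 0 := by
    rcases mul_eq_zero.1 h5 with h7 | h7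
    · exact h7
    · exact absurd h7 h3p
  rw [← hg]
  rcases mul_eq_zero.1 h6 with h7 | h7
  · have hk : k ≠ 0 := by
      rintro rfl
      rw [pow_zero] at h7
      exact one_ne_zero h7
    have hp1 : p.1 = 0 := pow_eq_zero_iff hk |>.1 h7
    have hp2 : p.2 ≠ 0 := fun h8 => hpne (Prod.ext hp1 h8)
    refine ⟨fun x => x.1, analyticAt_fst, hp1, fun z a b => ?_, ?_⟩
    · have hz1 : z.1 = 0 := by
        have h8 : fderiv ℂ (fun x : ℂ × ℂ => x.1) p z = z.1 := by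
          rw [(hasFDerivAt_fst (𝕜 := ℂ) (E := ℂ) (F := ℂ) (p := p)).fderiv]
          rfl
        rwa [h8] at b
      have hz : z = (z.2 / p.2) • p := by
        ext
        · simp [hz1, hp1]
        · simp only [Prod.smul_snd, smul_eq_mul]
          rw [div_mul_cancel₀ _ hp2]
      rw [hz, map_smul, smul_eq_mul] at a
      rcases mul_eq_zero.1 a with h8 | h8
      · rw [hz, h8, zero_smul]
      · exact absurd h8 hradne
    · have h8 : ∀ᶠ x : ℂ × ℂ in 𝓝 p, x.2 ≠ 0 := continuousAt_snd.eventually_ne hp2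
      filter_upwards [h3, h8] with x a b
      constructor
      · intro h9
        rcases mul_eq_zero.1 h9 with h10 | h10
        · rcases mul_eq_zero.1 h10 with h11 | h11
          · exact (pow_eq_zero_iff hk).1 h11
          · exact absurd h11 (pow_ne_zero _ b)
        · exact absurd h10 a
      · intro h9
        rw [h9, zero_pow hk, zero_mul, zero_mul]
  · have hl : l ≠ 0 := by
      rintro rfl
      rw [pow_zero] at h7
      exact one_ne_zero h7
    have hp2 : p.2 = 0 := pow_eq_zero_iff hl |>.1 h7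
    have hp1 : p.1 ≠ 0 := fun h8 => hpne (Prod.ext h8 hp2)
    refine ⟨fun x => x.2, analyticAt_snd, hp2, fun z a b => ?_, ?_⟩
    · have hz2 : z.2 = 0 := by
        have h8 : fderiv ℂ (fun x : ℂ × ℂ => x.2) p z = z.2 := by
          rw [(hasFDerivAt_snd (𝕜 := ℂ) (E := ℂ) (F := ℂ) (p := p)).fderiv]
          rfl
        rwa [h8] at b
      have hz : z = (z.1 / p.1) • p := by
        ext
        · simp only [Prod.smul_fst, smul_eq_mul]
          rw [div_mul_cancel₀ _ hp1]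
        · simp [hz2, hp2]
      rw [hz, map_smul, smul_eq_mul] at a
      rcases mul_eq_zero.1 a with h8 | h8
      · rw [hz, h8, zero_smul]
      · exact absurd h8 hradne
    · have h8 : ∀ᶠ x : ℂ × ℂ in 𝓝 p, x.1 ≠ 0 := continuousAt_fst.eventually_ne hp1
      filter_upwards [h3, h8] with x a b
      constructor
      · intro h9
        rcases mul_eq_zero.1 h9 with h10 | h10
        · rcases mul_eq_zero.1 h10 with h11 | h11
          · exact absurd h11 (pow_ne_zero _ b)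
          · exact (pow_eq_zero_iff hl).1 h11
        · exact absurd h10 a
      · intro h9
        rw [h9, zero_pow hl, mul_zero, zero_mul]

private theorem GermT_mono {g h : ℂ × ℂ → ℂ} (hm : Mono fun x => g x * h x) (hg : AnalyticAt ℂ g 0) (h0 : g 0 = 0)
    (hgne : ¬ ∀ᶠ p in 𝓝 (0 : ℂ × ℂ), g p = 0) (hh : AnalyticAt ℂ h 0) (hne : ¬ ∀ᶠ p in 𝓝 (0 : ℂ × ℂ), h p = 0) :
    ∀ᶠ p in 𝓝 (0 : ℂ × ℂ), GermT_Gd g h p := by
  obtain ⟨S, T, a, b, u, hc, hu, hu0, he⟩ := hm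
  have hune := hu.continuousAt.eventually_ne hu0
  have hz : ∀ᶠ p in 𝓝 (0 : ℂ × ℂ), g p * h p = 0 → S p = 0 ∨ T p = 0 := by
    filter_upwards [he, hune] with p h1 h2 h3
    rw [h1] at h3
    rcases mul_eq_zero.1 h3 with h4 | h4
    · rcases mul_eq_zero.1 h4 with h5 | h5
      · exact Or.inl (GermT_pow h5)
      · exact Or.inr (GermT_pow h5)
    · exact absurd h4 h2
  obtain ⟨i, j, v, hv, hv0, hgv⟩ := Pool.Agent.H17L.mono_div hc hg hgne (by
    filter_upwards [hz] with p h1 h2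
    exact h1 (by rw [h2, zero_mul]))
  obtain ⟨k, l, w, hw, hw0, hhw⟩ := Pool.Agent.H17L.mono_div hc hh hne (by
    filter_upwards [hz] with p h1 h2
    exact h1 (by rw [h2, mul_zero]))
  have hij : 1 ≤ i + j := by
    by_contra hlt
    have hi : i = 0 := by omega
    have hj : j = 0 := by omega
    have h1 := hgv.self_of_nhds
    rw [h0, hi, hj] at h1
    simp only [pow_zero, one_mul] at h1
    exact hv0 h1.symm
  obtain ⟨θ, h1, h2, h3⟩ := Bihol.exists_inv hc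
  have hθ0 := h1.zero
  have hv' : AnalyticAt ℂ (fun p => v (θ p)) 0 := AnalyticAt.fun_comp (by rw [hθ0]; exact hv) h1.an
  have hw' : AnalyticAt ℂ (fun p => w (θ p)) 0 := AnalyticAt.fun_comp (by rw [hθ0]; exact hw) h1.an
  refine GermT_bihol h1 hg (GermT_congr_near ?_ ?_ (GermT_monomial (v := fun p => v (θ p)) (w := fun p => w (θ p)) (i := i) (j := j)
    (k := k) (l := l) hv' (by rw [hθ0]; exact hv0) hw' (by rw [hθ0]; exact hw0) hij))
  · filter_upwards [h1.tendsto.eventually hgv, h3] with p a1 a2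
    have a3 : S (θ p) = p.1 := congrArg Prod.fst a2
    have a4 : T (θ p) = p.2 := congrArg Prod.snd a2
    simp only [Function.comp_apply]
    rw [a1, a3, a4]
  · filter_upwards [h1.tendsto.eventually hhw, h3] with p a1 a2
    have a3 : S (θ p) = p.1 := congrArg Prod.fst a2
    have a4 : T (θ p) = p.2 := congrArg Prod.snd a2
    simp only [Function.comp_apply]
    rw [a1, a3, a4]

private theorem GermT_main (n : ℕ) : ∀ {g h : ℂ × ℂ → ℂ}, ResN n (fun x => g x * h x) → AnalyticAt ℂ g 0 → g 0 = 0 →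
    (¬ ∀ᶠ p in 𝓝 (0 : ℂ × ℂ), g p = 0) → AnalyticAt ℂ h 0 → (¬ ∀ᶠ p in 𝓝 (0 : ℂ × ℂ), h p = 0) →
    ∀ᶠ p in 𝓝 (0 : ℂ × ℂ), GermT_Gd g h p := by
  induction n with
  | zero =>
    intro g h hm hg h0 hgne hh hne
    exact GermT_mono hm hg h0 hgne hh hne
  | succ n ih =>
    intro g h hm hg h0 hgne hh hne
    rcases hm with hm | hm
    · exact GermT_mono hm hg h0 hgne hh hne
    · have hstep : ∀ (β : ℂ × ℂ → ℂ × ℂ) (D : ℂ × ℂ → Prop), BChart β → (∀ p, AnalyticAt ℂ β p) →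
          (∃ᶠ p in 𝓝 (0 : ℂ × ℂ), D p) → (∀ p, D p → GermT_Rt β p) → ∀ᶠ p in 𝓝 (0 : ℂ × ℂ), D p → GermT_Gd g h (β p) := by
        intro β D hβ hβa hD hR
        have hg' : AnalyticAt ℂ (g ∘ β) 0 := by
          have h1 : AnalyticAt ℂ g (β 0) := by rw [hβ.zero]; exact hg
          exact h1.comp hβ.an
        have hh' : AnalyticAt ℂ (h ∘ β) 0 := by
          have h1 : AnalyticAt ℂ h (β 0) := by rw [hβ.zero]; exact hh
          exact h1.comp hβ.an
        have h1 := ih (g := g ∘ β) (h := h ∘ β) (hm β hβ) hg' (by simp [hβ.zero, h0]) (fun h2 =>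
          hgne (GermT_van hg hβ.an hβ.zero (hD.mono hR) h2)) hh' (fun h2 =>
          hne (GermT_van hh hβ.an hβ.zero (hD.mono hR) h2))
        filter_upwards [h1, hβ.tendsto.eventually hg.eventually_analyticAt] with p a1 a2 a3
        exact GermT_push (hβa p) a2 (hR p a3) a1
      have hfr1 : ∃ᶠ p in 𝓝 (0 : ℂ × ℂ), p.1 ≠ 0 := by
        have h1 : Tendsto (fun s : ℂ => ((s, 0) : ℂ × ℂ)) (𝓝[≠] 0) (𝓝 0) := by
          have h2 : Tendsto (fun s : ℂ => ((s, 0) : ℂ × ℂ)) (𝓝 0) (𝓝 (0, 0)) :=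
            (continuous_id.prodMk continuous_const).tendsto 0
          exact h2.mono_left nhdsWithin_le_nhds
        refine h1.frequently ?_
        have h2 : ∀ᶠ s in 𝓝[≠] (0 : ℂ), s ≠ 0 := eventually_mem_nhdsWithin
        exact h2.frequently
      have hfr2 : ∃ᶠ p in 𝓝 (0 : ℂ × ℂ), p.2 ≠ 0 := by
        have h1 : Tendsto (fun s : ℂ => ((0, s) : ℂ × ℂ)) (𝓝[≠] 0) (𝓝 0) := by
          have h2 : Tendsto (fun s : ℂ => ((0, s) : ℂ × ℂ)) (𝓝 0) (𝓝 (0, 0)) :=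
            (continuous_const.prodMk continuous_id).tendsto 0
          exact h2.mono_left nhdsWithin_le_nhds
        refine h1.frequently ?_
        have h2 : ∀ᶠ s in 𝓝[≠] (0 : ℂ), s ≠ 0 := eventually_mem_nhdsWithin
        exact h2.frequently
      have hc := GermT_cover (P := fun p => GermT_Gd g h p)
        (fun c => hstep (bl c) (fun p => p.1 ≠ 0) (Pool.Agent.H17BP.bchart_bl c) (Pool.Agent.H17BP.analyticAt_bl c)
          hfr1 fun p hp => GermT_rt_bl c hp)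
        (hstep blInf (fun p => p.2 ≠ 0) Pool.Agent.H17BP.bchart_blInf Pool.Agent.H17BP.analyticAt_blInf
          hfr2 fun p hp => GermT_rt_blInf hp)
      rw [eventually_nhdsWithin_iff] at hc
      filter_upwards [hc] with p hp
      by_cases hp0 : p = 0
      · rw [hp0]
        exact fun h1 => absurd h0 h1
      · exact hp hp0

private theorem GermT_det {L M : ℂ × ℂ →L[ℂ] ℂ} (h : ∀ v : ℂ × ℂ, L v = 0 → M v = 0 → v = 0) :
    L (1, 0) * M (0, 1) - L (0, 1) * M (1, 0) ≠ 0 := by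
  intro h0
  have hL : ∀ a b : ℂ, L (a, b) = a * L (1, 0) + b * L (0, 1) := by
    intro a b
    have h1 : ((a, b) : ℂ × ℂ) = a • (1, 0) + b • (0, 1) := by ext <;> simp
    rw [h1, map_add, map_smul, map_smul, smul_eq_mul, smul_eq_mul]
  have hM : ∀ a b : ℂ, M (a, b) = a * M (1, 0) + b * M (0, 1) := by
    intro a b
    have h1 : ((a, b) : ℂ × ℂ) = a • (1, 0) + b • (0, 1) := by ext <;> simp
    rw [h1, map_add, map_smul, map_smul, smul_eq_mul, smul_eq_mul]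
  have h1 := h (L (0, 1), -L (1, 0)) (by rw [hL]; ring) (by rw [hM]; linear_combination -h0)
  have h2 := h (M (0, 1), -M (1, 0)) (by rw [hL]; linear_combination h0) (by rw [hM]; ring)
  rw [Prod.ext_iff] at h1 h2
  have e1 : L (0, 1) = 0 := h1.1
  have e2 : L (1, 0) = 0 := neg_eq_zero.1 h1.2
  have e3 : M (0, 1) = 0 := h2.1
  have e4 : M (1, 0) = 0 := neg_eq_zero.1 h2.2
  have h3 := h (1, 0) e2 e4
  rw [Prod.ext_iff] at h3
  exact one_ne_zero h3.1

private theorem GermT_shift {f : ℂ × ℂ → ℂ} {p : ℂ × ℂ} (hf : AnalyticAt ℂ f p) (c : ℂ) :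
    AnalyticAt ℂ (fun x => f (p + x) - c) 0 ∧ fderiv ℂ (fun x => f (p + x) - c) 0 = fderiv ℂ f p := by
  have h0 : p + (0 : ℂ × ℂ) = p := add_zero p
  have hf' : AnalyticAt ℂ f (p + 0) := by rw [h0]; exact hf
  have h1 : AnalyticAt ℂ (fun x : ℂ × ℂ => p + x) 0 := analyticAt_const.add analyticAt_id
  refine ⟨(AnalyticAt.fun_comp hf' h1).sub analyticAt_const, ?_⟩
  have h2 : HasFDerivAt (fun x : ℂ × ℂ => p + x) (ContinuousLinearMap.id ℂ (ℂ × ℂ)) 0 := (hasFDerivAt_id (0 : ℂ × ℂ)).const_add p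
  have h3 : HasFDerivAt (fun x => f (p + x)) ((fderiv ℂ f (p + 0)).comp (ContinuousLinearMap.id ℂ (ℂ × ℂ))) 0 :=
    hf'.differentiableAt.hasFDerivAt.comp 0 h2
  have h4 := (h3.sub_const c).fderiv
  rw [h4, h0, ContinuousLinearMap.comp_id]

theorem trans_near {g h : ℂ × ℂ → ℂ} (hg : AnalyticAt ℂ g 0) (h0 : g 0 = 0) (hh : AnalyticAt ℂ h 0) (hne : ¬ ∀ᶠ p in 𝓝 (0 : ℂ × ℂ), h p = 0) :
    ∀ᶠ p in 𝓝 (0 : ℂ × ℂ), g p ≠ 0 → h p = 0 → ∃ T : ℂ × ℂ → ℂ, Coord (fun x => g (p + x) - g p) T ∧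
      ∀ᶠ x in 𝓝 (0 : ℂ × ℂ), h (p + x) = 0 ↔ T x = 0 := by
  by_cases hz : ∀ᶠ x in 𝓝 (0 : ℂ × ℂ), g x = 0
  · filter_upwards [hz] with p hp h1
    exact absurd hp h1
  have hprod : ¬ ∀ᶠ p in 𝓝 (0 : ℂ × ℂ), g p * h p = 0 := by
    intro hgh
    have h1 : ∀ᶠ p in 𝓝 (0 : ℂ × ℂ), g p * h p = 0 := hgh
    rcases GermT_prod hg hh h1 with h2 | h2
    · exact hz h2
    · exact hne h2
  obtain ⟨n, hn⟩ := exists_resN (hg.mul hh) hprod
  filter_upwards [GermT_main n hn hg h0 hz hh hne, hg.eventually_analyticAt] with p h1 h2 h3 h4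
  obtain ⟨T, k1, k2, k3, k4⟩ := h1 h3 h4
  obtain ⟨a1, a2⟩ := GermT_shift h2 (g p)
  obtain ⟨b1, b2⟩ := GermT_shift k1 0
  simp only [sub_zero] at b1 b2
  refine ⟨fun x => T (p + x), ?_, ?_⟩
  · rw [Pool.Agent.H17BP.coord_iff a1 b1 (by simp) (by simp [k2])]
    unfold Pool.Agent.H17BP.dx Pool.Agent.H17BP.dy
    rw [a2, b2]
    exact GermT_det k3
  · have h5 : Tendsto (fun x : ℂ × ℂ => p + x) (𝓝 0) (𝓝 p) := by
      have h6 : Continuous (fun x : ℂ × ℂ => p + x) := by fun_prop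
      have h7 := h6.tendsto 0
      rwa [add_zero] at h7
    exact h5.eventually k4

end Pool.Agent.H17V

end

section

/-!
# H17L ClD: closeness of points of the projective space

* `cl_of_dist`, `dist_of_cl`: the distance of the points of the projective space (`pr`, H62/EF) and `Cl`.  Both relations are invariant under scaling of `x` and `y`, so let `‖x‖ = ‖y‖ = 1`.  `dist_of_cl`: `pr` is continuous outside `0`, hence uniformly continuous near the compact unit sphere: `‖c • x - y‖ < ε'` small gives `dist (pr (c • x)) (pr y) < ε`, `pr_smul`.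
  `cl_of_dist`: otherwise there are unit vectors `x_n, y_n` with `dist (pr x_n) (pr y_n) → 0` and not `Cl ε x_n y_n`; for limits `x, y` of a subsequence `pr x = pr y`, so `y = c • x` with `‖c‖ = 1` (`pr_eq_iff`), and `‖c • x_n - y_n‖ → 0`: contradiction.
-/

set_option autoImplicit false

open Topology Filter

namespace Pool.Agent.H17L

attribute [-instance] ProperSMul.toContinuousSMul

open Pool.Agent.H17BP (Surface IsChart Tan Pr HolP ResN)
open Pool.Agent.H36.BP (EN)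
open Pool.Agent.H62.EF (Lat MN pr pr_smul pr_eq_iff)
open Pool.Agent.H17N (TMap HSec)

variable {V : Type} [NormedAddCommGroup V] [NormedSpace ℂ V] [FiniteDimensional ℂ V] {X D : Set V} {Λ : AddSubgroup ℂ} {u : V → ℂ} {M N : ℕ}

theorem dist_of_cl {ε : ℝ} (hε : 0 < ε) : ∃ ε' : ℝ, 0 < ε' ∧ ∀ x y : EN M, x ≠ 0 → y ≠ 0 → Cl ε' x y → dist (pr x) (pr y) < ε := by
  refine ⟨ε / 2, by linarith, fun x y hx hy hxy => ?_⟩
  obtain ⟨c, hc, hcl⟩ := hxy
  have hcx : c • x ≠ 0 := smul_ne_zero hc hx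
  rw [← pr_smul x hc, Pool.Agent.H62.EF.dist_pr hcx hy]
  obtain ⟨x', hx'⟩ : ∃ x', x' = c • x := ⟨_, rfl⟩
  rw [← hx'] at hcl hcx ⊢
  have h1 : Pool.Agent.H36.BP.wd x' y = Pool.Agent.H36.BP.wd x' (y - x') := by
    have h2 := Pool.Agent.H36.BP.wd_inv x' (y - x') 1 1
    rw [one_smul, one_smul, sub_add_cancel, norm_one, one_pow, one_mul] at h2
    exact h2
  have h3 : Pool.Agent.H36.BP.wd x' y ≤ ‖x'‖ * ‖y - x'‖ := by
    rw [h1]
    exact Pool.Agent.H36.BP.wd_le _ _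
  have hx0 : 0 < ‖x'‖ := norm_pos_iff.2 hcx
  have hy0 : 0 < ‖y‖ := norm_pos_iff.2 hy
  have h4 : Pool.Agent.H36.BP.wd x' y / (‖x'‖ * ‖y‖) < ε / 2 := by
    rw [div_lt_iff₀ (by positivity)]
    rw [norm_sub_rev] at h3
    calc Pool.Agent.H36.BP.wd x' y ≤ ‖x'‖ * ‖x' - y‖ := h3
      _ < ‖x'‖ * (ε / 2 * ‖y‖) := mul_lt_mul_of_pos_left hcl hx0
      _ = ε / 2 * (‖x'‖ * ‖y‖) := by ring
  have h5 : Real.sqrt 2 ≤ 2 := by
    rw [Real.sqrt_le_left (by norm_num)]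
    norm_num
  have h6 : 0 ≤ Pool.Agent.H36.BP.wd x' y / (‖x'‖ * ‖y‖) := by
    have := Pool.Agent.H36.BP.wd_nonneg x' y
    positivity
  calc Real.sqrt 2 * (Pool.Agent.H36.BP.wd x' y / (‖x'‖ * ‖y‖)) ≤ 2 * (Pool.Agent.H36.BP.wd x' y / (‖x'‖ * ‖y‖)) :=
        mul_le_mul_of_nonneg_right h5 h6
    _ < 2 * (ε / 2) := by linarith
    _ = ε := by ring

theorem cl_of_dist {ε : ℝ} (hε : 0 < ε) : ∃ ε' : ℝ, 0 < ε' ∧ ∀ x y : EN M, x ≠ 0 → y ≠ 0 → dist (pr x) (pr y) < ε' → Cl ε x y := by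
  refine ⟨min ε 1, lt_min hε one_pos, fun x y hx hy hd => ?_⟩
  have hdε : dist (pr x) (pr y) < ε := hd.trans_le (min_le_left _ _)
  have hd1 : dist (pr x) (pr y) < 1 := hd.trans_le (min_le_right _ _)
  have hd0 : 0 ≤ dist (pr x) (pr y) := dist_nonneg
  have hx0 : 0 < ‖x‖ := norm_pos_iff.2 hx
  have hy0 : 0 < ‖y‖ := norm_pos_iff.2 hy
  have hin := Pool.Agent.H62.EF.norm_inner_sq hx hy
  obtain ⟨d, hdd⟩ : ∃ d, d = dist (pr x) (pr y) := ⟨_, rfl⟩
  rw [← hdd] at hdε hd1 hd0 hin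
  obtain ⟨w, hw⟩ : ∃ w : ℂ, w = inner ℂ x y := ⟨_, rfl⟩
  rw [← hw] at hin
  have hwpos : 0 < ‖w‖ ^ 2 := by
    rw [hin]
    have : 0 < 1 - d ^ 2 / 2 := by nlinarith
    positivity
  have hw0 : w ≠ 0 := by
    rintro rfl
    simp at hwpos
  have hxn : ((‖x‖ ^ 2 : ℝ) : ℂ) ≠ 0 := by
    exact_mod_cast (pow_pos hx0 2).ne'
  refine ⟨w / ((‖x‖ ^ 2 : ℝ) : ℂ), div_ne_zero hw0 hxn, ?_⟩
  have h1 : ‖(w / ((‖x‖ ^ 2 : ℝ) : ℂ)) • x - y‖ ^ 2 = ‖y‖ ^ 2 * (d ^ 2 / 2) := by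
    rw [norm_sub_sq (𝕜 := ℂ), inner_smul_left, ← hw, norm_smul, norm_div, Complex.norm_real, norm_pow, norm_norm, map_div₀,
      Complex.conj_ofReal]
    have h2 : (starRingEnd ℂ) w / ((‖x‖ ^ 2 : ℝ) : ℂ) * w = ((‖w‖ ^ 2 / ‖x‖ ^ 2 : ℝ) : ℂ) := by
      have h3 : (starRingEnd ℂ) w * w = ((‖w‖ ^ 2 : ℝ) : ℂ) := by
        rw [Complex.conj_mul']
        push_cast
        rfl
      rw [div_mul_eq_mul_div, h3]
      push_cast
      rfl
    rw [h2]
    simp only [RCLike.re_to_complex, Complex.ofReal_re]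
    have h4 : (‖w‖ / ‖x‖ ^ 2 * ‖x‖) ^ 2 = ‖w‖ ^ 2 / ‖x‖ ^ 2 := by
      field_simp
    rw [h4, hin]
    field_simp
    ring
  have h5 : ‖(w / ((‖x‖ ^ 2 : ℝ) : ℂ)) • x - y‖ ^ 2 < (ε * ‖y‖) ^ 2 := by
    rw [h1]
    have h6 : d ^ 2 < ε ^ 2 := pow_lt_pow_left₀ hdε hd0 two_ne_zero
    have h7 : 0 < ‖y‖ ^ 2 := by positivity
    have h8 : 0 ≤ d ^ 2 := by positivity
    nlinarith
  exact lt_of_pow_lt_pow_left₀ 2 (by positivity) h5

end Pool.Agent.H17L

end

section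

/-!
# H17L FormA: transport to a Euclidean space, extension of the form

`L : V ≃L[ℂ] EN M`, `X' = L.symm ⁻¹' X`, `D' = L.symm ⁻¹' D`, `u' x = u (L.symm x)`, `D₀ = L.symm ⁻¹' Zs X D Λ u B` (closed in `X'` by `zs_closed`, invariant under scaling, nowhere dense by `zs_thin`).

The form on `X' \ D₀`: `toFun z x v w = α z (L.symm x) (L.symm v) (L.symm w)`; model `tformN` in H17N/BaseA.lean (with `X \ Zs` in place of `X`; `tan_transport`).  `exists_ext`: `H18.LU.tform_extend` with `D₀`, `D'`: for `x ∈ D₀`, `x ∉ D'`: `h.log` at `L.symm x ∈ X \ D`: first alternative (in the second one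
`L.symm x = σ 0 ∈ D`), chart `L ∘ σ` (`germ_transport`), any lift `υ` (`tor.loc`), for `l ∈ Λ` the lift `υ + l`; nowhere dense by `zs_thin`.
-/

set_option autoImplicit false

open Topology Filter

namespace Pool.Agent.H17L

attribute [-instance] ProperSMul.toContinuousSMul

open Pool.Agent.H17BP (Surface IsChart Tan Pr HolP ResN)
open Pool.Agent.H36.BP (EN isCone_transport germ_transport tan_transport)
open Pool.Agent.H62.EF (Lat)
open Pool.Agent.H62.EL (TForm Per VanZero Thin BadSet)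
open Pool.Agent.H17N (TMap LU RU TF NonConst ThinF FibB HSec)

variable {V : Type} [NormedAddCommGroup V] [NormedSpace ℂ V] [FiniteDimensional ℂ V] {X D : Set V} {Λ Γ : AddSubgroup ℂ} {u : V → ℂ}
  {B : Set ℂ} {α : ℂ → V → V → V → ℂ} {δ : ℝ} {M : ℕ}

/-- the form `α'` is, off `Z`, the transported form -/
def Agr (L : V ≃L[ℂ] EN M) (X D Z : Set V) (α : ℂ → V → V → V → ℂ)
    (α' : TForm ((L.symm ⁻¹' X : Set (EN M)) \ (L.symm ⁻¹' D : Set (EN M))) Λ (fun x => u (L.symm x))) : Prop :=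
  ∀ z, ∀ x : EN M, L.symm x ∈ X → L.symm x ∉ Z → ∀ v w, α'.toFun z x v w = α z (L.symm x) (L.symm v) (L.symm w)

/-- the transported form on `X' \ D₀` -/
noncomputable def tformL (L : V ≃L[ℂ] EN M) (h : DData X D Λ Γ u B α) :
    TForm ((L.symm ⁻¹' X : Set (EN M)) \ (L.symm ⁻¹' Zs X D Λ u B : Set (EN M))) Λ (fun x => u (L.symm x)) where
  toFun z x v w := α z (L.symm x) (L.symm v) (L.symm w)
  add_smul z x hx hz v w hv hw a b := by
    rw [map_add, map_add, map_smul, map_smul]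
    exact h.form.add_smul z _ hx hz _ (tan_transport (X := X \ Zs X D Λ u B) L hv) _ (tan_transport (X := X \ Zs X D Λ u B) L hw) a b
  det z x hx hz v w hv hw a b c d := by
    rw [map_add, map_add, map_smul, map_smul, map_smul, map_smul]
    exact h.form.det z _ hx hz _ (tan_transport (X := X \ Zs X D Λ u B) L hv) _ (tan_transport (X := X \ Zs X D Λ u B) L hw) a b c d
  scale z x hx hz v w hv hw c hc := by
    rw [map_smul, map_smul, map_smul]
    exact h.form.scale z _ hx hz _ (tan_transport (X := X \ Zs X D Λ u B) L hv) _ (tan_transport (X := X \ Zs X D Λ u B) L hw) c hc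
  analytic φ υ p hφ hυ hφX := by
    have h1 : AnalyticAt ℂ (fun y => L.symm (φ y)) p := ((L.symm : EN M →L[ℂ] V).analyticAt _).comp hφ
    have h2 := h.form.analytic _ υ p h1 hυ hφX
    refine h2.congr ?_
    filter_upwards [hφ.eventually_analyticAt] with y hy
    have h3 : HasFDerivAt (fun y => L.symm (φ y)) ((L.symm : EN M →L[ℂ] V).comp (fderiv ℂ φ y)) y :=
      (L.symm : EN M →L[ℂ] V).hasFDerivAt.comp y hy.differentiableAt.hasFDerivAt
    rw [h3.fderiv]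
    rfl

end Pool.Agent.H17L

end

section

/-!
# H17L LiftD: lift of a section over a disc

* `exists_lift_ball`: `f` with `SecV` (so `HolP`) at all points of the closed ball.  The set where `SecV` holds is open, so it contains a larger ball (compactness), radius `R'`.  Let `ξ` be a linear form with `ξ (L (f 0)) ≠ 0` (if `R < 0` there is nothing to do).  `F₀ z = (ξ (L (f z)))⁻¹ • L (f z)` is, near every point `z₀` of the larger ball, of the form `(ξ (G z))⁻¹ • G z`, `G` analytic without zeros, proportional to `L ∘ f`;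
  `ξ ∘ G` is not identically `0` near `z₀` (identity theorem on the ball: the set of the points near which `ξ ∘ L ∘ f` is identically `0` is open and closed in the ball), so `F₀` is meromorphic; it has finitely many poles in the closed ball of radius `R`; multiply by `∏ (z - a_i) ^ k_i`, `k_i` the order of the zero of `ξ ∘ G` at `a_i`: the result (suitably defined at the `a_i`) is analytic and without zeros near the closed ball and proportional to `L ∘ f`.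
  (Alternatively use `H17EF.exists_lift`-type results if there is a version for discs.)
-/

set_option autoImplicit false

open Topology Filter

namespace Pool.Agent.H17L

attribute [-instance] ProperSMul.toContinuousSMul

open Pool.Agent.H17BP (Surface IsChart Tan Pr HolP ResN)
open Pool.Agent.H36.BP (EN)
open Pool.Agent.H62.EF (Lat MN Sec pr)
open Pool.Agent.H18.LU (SecAt)
open Pool.Agent.H17N (TMap HSec)

variable {V : Type} [NormedAddCommGroup V] [NormedSpace ℂ V] [FiniteDimensional ℂ V] {X D : Set V} {Λ : AddSubgroup ℂ} {u : V → ℂ} {M N : ℕ}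

/-- lift over a ball -/
private theorem LiftD_ball {W : Type} [NormedAddCommGroup W] [NormedSpace ℂ W] {f : ℂ → W} {r R : ℝ} (hRr : R < r) (hR : 0 < R)
    (hf : ∀ z ∈ Metric.ball (0 : ℂ) r, HolP f z) (ξ : W →L[ℂ] ℂ) (hξ : ξ (f 0) ≠ 0) :
    ∃ F : ℂ → W, ∀ z ∈ Metric.ball (0 : ℂ) R, AnalyticAt ℂ F z ∧ ∃ c : ℂ, c ≠ 0 ∧ F z = c • f z := by
  classical
  have hsub : ∀ z ∈ Metric.closedBall (0 : ℂ) R, z ∈ Metric.ball (0 : ℂ) r := fun z hz =>
    Metric.closedBall_subset_ball hRr hz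
  choose! φ hφa hφ0 hφe using hf
  have hφξ : ∀ z₀ ∈ Metric.ball (0 : ℂ) r, AnalyticAt ℂ (fun z => ξ (φ z₀ z)) z₀ := fun z₀ hz₀ =>
    (ξ.analyticAt _).comp (hφa z₀ hz₀)
  -- comparison
  have hz : ∀ z₀ ∈ Metric.ball (0 : ℂ) r, ∀ᶠ z in 𝓝 z₀, (ξ (φ z₀ z) = 0 ↔ ξ (f z) = 0) := by
    intro z₀ hz₀
    filter_upwards [hφe z₀ hz₀] with z hz
    obtain ⟨c, hc, h1⟩ := hz
    rw [h1, map_smul, smul_eq_mul, mul_eq_zero]
    exact ⟨fun h => Or.inr h, fun h => h.resolve_left hc⟩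
  have hcmp : ∀ z₀ ∈ Metric.ball (0 : ℂ) r, ∀ᶠ z in 𝓝 z₀, ∃ c : ℂ, c ≠ 0 ∧ φ z₀ z = c • φ z z := by
    intro z₀ hz₀
    filter_upwards [hφe z₀ hz₀, Metric.isOpen_ball.eventually_mem hz₀] with z h1 h2
    obtain ⟨c, hc, h3⟩ := h1
    obtain ⟨d, hd, h4⟩ := (hφe z h2).self_of_nhds
    refine ⟨c⁻¹ * d, mul_ne_zero (inv_ne_zero hc) hd, ?_⟩
    rw [mul_smul, ← h4, h3, smul_smul, inv_mul_cancel₀ hc, one_smul]
  -- identity theorem
  set A : Set ℂ := {z | ∀ᶠ y in 𝓝 z, ξ (f y) = 0} with hA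
  set B : Set ℂ := {z | ∀ᶠ y in 𝓝[≠] z, ξ (f y) ≠ 0} with hB
  have hAo : IsOpen A := by
    rw [isOpen_iff_mem_nhds]
    intro z hz
    exact eventually_eventually_nhds.2 hz
  have hBo : IsOpen B := by
    rw [isOpen_iff_mem_nhds]
    intro z hz
    have h1 : ∀ᶠ y in 𝓝 z, y ≠ z → ξ (f y) ≠ 0 := eventually_nhdsWithin_iff.1 hz
    filter_upwards [h1.eventually_nhds] with y hy
    rcases eq_or_ne y z with rfl | hne
    · exact hz
    · have h2 : ∀ᶠ w in 𝓝 y, w ≠ z := isOpen_ne.eventually_mem hne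
      have h3 : ∀ᶠ w in 𝓝 y, ξ (f w) ≠ 0 := by
        filter_upwards [hy, h2] with w hw hw' using hw hw'
      exact h3.filter_mono nhdsWithin_le_nhds
  have hdis : Disjoint B A := by
    rw [Set.disjoint_left]
    intro z h1 h2
    have h3 : ∀ᶠ y in 𝓝[≠] z, ξ (f y) = 0 := Eventually.filter_mono nhdsWithin_le_nhds h2
    obtain ⟨y, hy, hy'⟩ := (h3.and h1).exists
    exact hy' hy
  have hcov : Metric.ball (0 : ℂ) r ⊆ B ∪ A := by
    intro z hz'
    rcases (hφξ z hz').eventually_eq_zero_or_eventually_ne_zero with h | h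
    · right
      show ∀ᶠ y in 𝓝 z, ξ (f y) = 0
      filter_upwards [h, hz z hz'] with y h1 h2 using h2.1 h1
    · left
      show ∀ᶠ y in 𝓝[≠] z, ξ (f y) ≠ 0
      filter_upwards [h, (hz z hz').filter_mono nhdsWithin_le_nhds] with y h1 h2 h3 using h1 (h2.2 h3)
  have h0r : (0 : ℂ) ∈ Metric.ball (0 : ℂ) r := Metric.mem_ball_self (hR.trans hRr)
  have h0B : (0 : ℂ) ∈ B := by
    rcases hcov h0r with h | h
    · exact h
    · have h' : ∀ᶠ y in 𝓝 (0 : ℂ), ξ (f y) = 0 := h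
      exact absurd h'.self_of_nhds hξ
  have hballB : Metric.ball (0 : ℂ) r ⊆ B :=
    IsPreconnected.subset_left_of_subset_union hBo hAo hdis hcov ⟨0, h0r, h0B⟩ (convex_ball (0 : ℂ) r).isPreconnected
  have hne : ∀ z₀ ∈ Metric.ball (0 : ℂ) r, ∀ᶠ z in 𝓝[≠] z₀, ξ (φ z₀ z) ≠ 0 := by
    intro z₀ hz₀
    have h1 : ∀ᶠ y in 𝓝[≠] z₀, ξ (f y) ≠ 0 := hballB hz₀
    filter_upwards [h1, (hz z₀ hz₀).filter_mono nhdsWithin_le_nhds] with y h2 h3 h4 using h2 (h3.1 h4)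
  have hfin : ∀ z₀ ∈ Metric.ball (0 : ℂ) r, analyticOrderAt (fun z => ξ (φ z₀ z)) z₀ ≠ ⊤ := by
    intro z₀ hz₀ h
    rw [analyticOrderAt_eq_top] at h
    obtain ⟨y, hy, hy'⟩ := ((h.filter_mono nhdsWithin_le_nhds).and (hne z₀ hz₀)).exists
    exact hy' hy
  set D : ℂ → ℕ := fun z => if z ∈ Metric.closedBall (0 : ℂ) R then analyticOrderNatAt (fun y => ξ (φ z y)) z else 0 with hD
  have hDord : ∀ z ∈ Metric.closedBall (0 : ℂ) R, analyticOrderAt (fun y => ξ (φ z y)) z = D z := by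
    intro z hz'
    rw [hD]
    simp only [if_pos hz']
    exact (Nat.cast_analyticOrderNatAt (hfin z (hsub z hz'))).symm
  have hDfin : ∀ S : ℝ, {z ∈ Metric.closedBall (0 : ℂ) S | D z ≠ 0}.Finite := by
    intro S
    have hmem : ∀ z, D z ≠ 0 → z ∈ Metric.closedBall (0 : ℂ) R := by
      intro z hDz
      by_contra hc
      exact hDz (if_neg hc)
    by_contra hinf
    obtain ⟨y, hyR, hy⟩ := Set.Infinite.exists_accPt_of_subset_isCompact hinf
      (isCompact_closedBall (0 : ℂ) R) (fun z hz => hmem z hz.2)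
    rw [accPt_iff_frequently_nhdsNE] at hy
    obtain ⟨z, hz1, hz2, hz3⟩ := (hy.and_eventually ((hne y (hsub y hyR)).and
      ((hcmp y (hsub y hyR)).filter_mono nhdsWithin_le_nhds))).exists
    obtain ⟨c, hc, h4⟩ := hz3
    apply hz1.2
    have h5 : ξ (φ z z) ≠ 0 := by
      intro h
      apply hz2
      rw [h4, map_smul, h, smul_zero]
    have hzR := hmem z hz1.2
    have h6 := hDord z hzR
    rw [(hφξ z (hsub z hzR)).analyticOrderAt_eq_zero.mpr h5] at h6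
    exact_mod_cast h6.symm
  obtain ⟨w, hw⟩ := Pool.Agent.H17.exists_entire_with_orders D hDfin
  have hq : ∀ z₀ ∈ Metric.ball (0 : ℂ) R, ∃ q : ℂ → ℂ, AnalyticAt ℂ q z₀ ∧ q z₀ ≠ 0 ∧ ∀ᶠ z in 𝓝 z₀, (w : ℂ → ℂ) z = q z * ξ (φ z₀ z) := by
    intro z₀ hz₀
    have hz₁ := Metric.ball_subset_closedBall hz₀
    exact Pool.Agent.H17.exists_unit_quotient (w.analyticAt z₀) (hφξ z₀ (hsub z₀ hz₁)) (hw z₀) (hDord z₀ hz₁)
  choose! q hqa hq0 hqe using hq
  have hloc : ∀ z₀ ∈ Metric.ball (0 : ℂ) R, (fun z => q z z • φ z z) =ᶠ[𝓝 z₀] fun z => q z₀ z • φ z₀ z := by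
    intro z₀ hz₀
    have hz₁ := hsub z₀ (Metric.ball_subset_closedBall hz₀)
    have h1 := eventually_nhdsWithin_iff.mp (hne z₀ hz₁)
    filter_upwards [h1, hcmp z₀ hz₁, hqe z₀ hz₀, Metric.isOpen_ball.eventually_mem hz₀] with z h2 h3 h4 h4'
    by_cases hzz : z = z₀
    · rw [hzz]
    · obtain ⟨c, hc, h5⟩ := h3
      have h6 := h2 hzz
      have h7 : (w : ℂ → ℂ) z = q z z * ξ (φ z z) := (hqe z h4').self_of_nhds
      have h8 : ξ (φ z z) ≠ 0 := by
        intro h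
        apply h6
        rw [h5, map_smul, h, smul_zero]
      have h9 : q z₀ z * c = q z z := by
        apply mul_right_cancel₀ h8
        rw [← h7, h4, h5, map_smul, smul_eq_mul]
        ring
      show q z z • φ z z = q z₀ z • φ z₀ z
      rw [h5, ← h9, smul_smul]
  refine ⟨fun z => q z z • φ z z, fun z hzR => ⟨?_, ?_⟩⟩
  · exact ((hqa z hzR).smul (hφa z (hsub z (Metric.ball_subset_closedBall hzR)))).congr (hloc z hzR).symm
  · obtain ⟨c, hc, h1⟩ := (hφe z (hsub z (Metric.ball_subset_closedBall hzR))).self_of_nhds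
    refine ⟨q z z * c⁻¹, mul_ne_zero (hq0 z hzR) (inv_ne_zero hc), ?_⟩
    show q z z • φ z z = _
    rw [h1, smul_smul, mul_assoc, inv_mul_cancel₀ hc, mul_one]

private theorem LiftD_open {f : ℂ → V} {z : ℂ} (h : SecV X D Λ u f z) : ∀ᶠ w in 𝓝 z, SecV X D Λ u f w := by
  haveI : CompleteSpace V := FiniteDimensional.complete ℂ V
  obtain ⟨⟨F, hF, hF0, hF1⟩, h2⟩ := h
  filter_upwards [hF.eventually_analyticAt, hF.continuousAt.eventually_ne hF0, hF1.eventually_nhds, h2.eventually_nhds] with w h3 h4 h5 h6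
  exact ⟨⟨F, h3, h4, h5⟩, h6⟩

theorem exists_lift_ball (L : V ≃L[ℂ] EN M) (hX : Surface X) (hu : TMap X Λ u) (hD : ∀ x ∈ D, ∀ c : ℂ, c ≠ 0 → c • x ∈ D) {f : ℂ → V} {R : ℝ}
    (hf : ∀ z ∈ Metric.closedBall (0 : ℂ) R, SecV X D Λ u f z) :
    ∃ F : ℂ → EN M, (∀ z ∈ Metric.closedBall (0 : ℂ) R, SecAt (L.symm ⁻¹' X : Set (EN M)) (L.symm ⁻¹' D : Set (EN M)) Λ (fun x => u (L.symm x)) F z) ∧
      ∀ z ∈ Metric.closedBall (0 : ℂ) R, ∃ c : ℂ, c ≠ 0 ∧ F z = c • L (f z) := by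
  rcases lt_or_ge R 0 with hR | hR
  · refine ⟨fun _ => 0, fun z hz => ?_, fun z hz => ?_⟩ <;>
      exact absurd hz (by rw [Metric.closedBall_eq_empty.2 hR]; exact Set.notMem_empty z)
  -- a larger ball
  have hU : IsOpen {z | SecV X D Λ u f z} := by
    rw [isOpen_iff_mem_nhds]
    exact fun z hz => LiftD_open hz
  obtain ⟨δ, hδ, hδ'⟩ := (isCompact_closedBall (0 : ℂ) R).exists_thickening_subset_open hU hf
  rw [thickening_closedBall hδ hR] at hδ'
  have h0 : (0 : ℂ) ∈ Metric.closedBall (0 : ℂ) R := Metric.mem_closedBall_self hR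
  have hf0 : f 0 ≠ 0 := fun h => hX.zero (h ▸ (hf 0 h0).2.self_of_nhds.1)
  have hL0 : L (f 0) ≠ 0 := fun h => hf0 (by simpa using h)
  obtain ⟨j, hj⟩ : ∃ j, (L (f 0)) j ≠ 0 := by
    by_contra hc
    push Not at hc
    exact hL0 (by ext j; exact hc j)
  obtain ⟨F, hF⟩ := LiftD_ball (f := f) (r := δ + R) (R := δ / 2 + R) (by linarith) (by linarith) (fun z hz => (hδ' hz).1)
    ((EuclideanSpace.proj (𝕜 := ℂ) (ι := Fin (M + 1)) j : EN M →L[ℂ] ℂ).comp (L : V →L[ℂ] EN M)) hj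
  have hsub : ∀ z ∈ Metric.closedBall (0 : ℂ) R, z ∈ Metric.ball (0 : ℂ) (δ / 2 + R) := fun z hz =>
    Metric.closedBall_subset_ball (by linarith) hz
  refine ⟨fun z => L (F z), fun z hz => ⟨?_, ?_⟩, fun z hz => ?_⟩
  · exact ((L : V →L[ℂ] EN M).analyticAt _).comp (hF z (hsub z hz)).1
  · filter_upwards [(hf z hz).2, Metric.isOpen_ball.eventually_mem (hsub z hz)] with w hw hw'
    obtain ⟨-, c, hc, h1⟩ := hF w hw'
    obtain ⟨h2, h3, h4⟩ := hw
    refine ⟨?_, ?_, ?_⟩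
    · change L.symm (L (F w)) ∈ X
      rw [ContinuousLinearEquiv.symm_apply_apply, h1]
      exact hX.smul _ h2 c hc
    · intro h5
      change L.symm (L (F w)) ∈ D at h5
      rw [ContinuousLinearEquiv.symm_apply_apply, h1] at h5
      apply h3
      have h6 := hD _ h5 c⁻¹ (inv_ne_zero hc)
      rwa [smul_smul, inv_mul_cancel₀ hc, one_smul] at h6
    · change u (L.symm (L (F w))) - w ∈ Λ
      rw [ContinuousLinearEquiv.symm_apply_apply, h1]
      have h5 := Λ.add_mem (hu.smul _ h2 c hc) h4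
      rwa [sub_add_sub_cancel] at h5
  · obtain ⟨-, c, hc, h1⟩ := hF z (hsub z hz)
    refine ⟨c, hc, ?_⟩
    show L (F z) = c • L (f z)
    rw [h1, map_smul]

end Pool.Agent.H17L

end
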