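import Pool.Agent.H94.CB.H17EF.PNDefs
import Pool.Agent.H94.CB.H19Q.Surf
import Pool.Agent.H94.CB.M10
import Pool.Agent.H94.CB.M172

/-! The parts of this file: H17L.PNDefs, H19E.Defs4. -/

section

/-!
# H17L PNDefs: logarithmic `2`-forms on a surface over an elliptic curve, definitions
-/

set_option autoImplicit false

open Topology Filter

namespace Pool.Agent.H17L

open Pool.Agent.H17 (PN)
open Pool.Agent.H17G (Over IsTwoForm IsNowhereZero VanishesOver)

variable {N : ℕ}

/-- `σ` is a parametrisation of a neighbourhood of the point `x` of the surface `X` by holomorphic coordinates `s, t`, with the inverse `τ` (in homogeneous coordinates),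
and `D` is given by the equation `t = 0`. -/
structure IsAdaptedChart (X D : Set (PN N)) (x : PN N) (σ : ℂ × ℂ → Fin (N + 1) → ℂ) (τ : (Fin (N + 1) → ℂ) → ℂ × ℂ) : Prop where
  analytic : AnalyticAt ℂ σ 0
  analytic_inv : AnalyticAt ℂ τ (σ 0)
  center : ∃ h : σ 0 ≠ 0, Projectivization.mk ℂ (σ 0) h = x
  left : ∀ᶠ p in 𝓝 (0 : ℂ × ℂ), τ (σ p) = p
  right : ∀ᶠ y in 𝓝 (σ 0), ∀ hy : y ≠ 0, Projectivization.mk ℂ y hy ∈ X → ∃ a : ℂ, a ≠ 0 ∧ y = a • σ (τ y)
  homogeneous : ∀ᶠ p in 𝓝 (σ 0, (1 : ℂ)), τ (p.2 • p.1) = τ p.1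
  mem : ∀ᶠ p in 𝓝 (0 : ℂ × ℂ), ∃ h : σ p ≠ 0, Projectivization.mk ℂ (σ p) h ∈ X ∧ (Projectivization.mk ℂ (σ p) h ∈ D ↔ p.2 = 0)

/-- The curve `D` in the surface `X` is smooth, and the `2`-form `Ω` has at most logarithmic poles along `D`: near every point of `D` there are holomorphic coordinates
`s, t` of `X` with `D = {t = 0}` in which `Ω` is `(g / t) ds ∧ dt`, `g` holomorphic. -/
def IsLogAlong (X D : Set (PN N)) (Λ : AddSubgroup ℂ) (u : PN N → ℂ ⧸ Λ)
    (Ω : ℂ → (Fin (N + 1) → ℂ) → (Fin (N + 1) → ℂ) → (Fin (N + 1) → ℂ) → ℂ) : Prop :=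
  ∀ x ∈ D, ∃ (σ : ℂ × ℂ → Fin (N + 1) → ℂ) (τ : (Fin (N + 1) → ℂ) → ℂ × ℂ), IsAdaptedChart X D x σ τ ∧
    ∀ υ : ℂ × ℂ → ℂ, AnalyticAt ℂ υ 0 → (∀ᶠ p in 𝓝 (0 : ℂ × ℂ), Over X Λ u (υ p) (σ p)) →
      ∃ g : ℂ × ℂ → ℂ, AnalyticAt ℂ g 0 ∧ ∀ᶠ p in 𝓝 (0 : ℂ × ℂ), p.2 ≠ 0 →
        p.2 * Ω (υ p) (σ p) (fderiv ℂ σ p (1, 0)) (fderiv ℂ σ p (0, 1)) = g p

/-- For infinitely many points `c` of `ℂ / Γ` there is a holomorphic `2`-form on the surface `{(x, c') ∈ (X ∖ D) × ℂ / Γ : u x = c' mod Λ}` with at most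
logarithmic poles along (the inverse image of) `D` which is `0` at all points over `c`, but on no nonempty open set. -/
def HasLogForms (X D : Set (PN N)) (Λ Γ : AddSubgroup ℂ) (u : PN N → ℂ ⧸ Λ) : Prop :=
  {c : ℂ ⧸ Γ | ∃ Ω, IsTwoForm (X \ D) Λ Γ u Ω ∧ IsLogAlong X D Λ u Ω ∧ IsNowhereZero (X \ D) Λ u Ω ∧
    ∀ z : ℂ, (z : ℂ ⧸ Γ) = c → VanishesOver (X \ D) Λ u Ω z}.Infinite

end Pool.Agent.H17L

end

section

/-!
# H19E Defs4: quasi-projective surfaces over an elliptic curve, definitions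
-/

set_option autoImplicit false

open Topology Filter MvPolynomial

noncomputable section

namespace Pool.Agent.H19E.V4

open Pool.Agent.H17 (PN VanishesAt ZariskiClosedIn HolomorphicInto)
open Pool.Agent.H62.SA (locVar)
open Pool.Agent.H17EF (projVar IsHolomorphicMap)
open Pool.Agent.H17G (IsTangent)
open Pool.Agent.H17N (NowhereConstant)
open Pool.Agent.H17L (HasLogForms)
open Pool.Agent.H19Q (QSurface)

variable {N M r s : ℕ}

/-- `x` is a vector of homogeneous coordinates of the point `p`. -/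
def Rep (x : Fin (N + 1) → ℂ) (p : PN N) : Prop := ∃ h : x ≠ 0, p = Projectivization.mk ℂ x h

/-- the points of the quasi-projective surface `U` -/
def pts (U : QSurface) : Set (PN U.N) := locVar U.P U.G

/-- the points of the closure `X` of `U` in the projective space -/
def cl (U : QSurface) : Set (PN U.N) := projVar U.P

/-- `X` is smooth at the points of `S`: at each of them there are `N - 2` elements of the ideal of `X` whose gradients are linearly independent. -/
def SmoothOn (U : QSurface) (S : Set (PN U.N)) : Prop :=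
  ∀ x, ∀ p ∈ S, Rep x p → ∃ f : Fin (U.N - 2) → MvPolynomial (Fin (U.N + 1)) ℂ, (∀ j, f j ∈ U.P) ∧
    LinearIndependent ℂ fun (j : Fin (U.N - 2)) (i : Fin (U.N + 1)) => eval x (pderiv i (f j))

/-- the values of the polynomials `γ i` at `x` -/
def vals (γ : Fin (N + 1) → MvPolynomial (Fin (M + 1)) ℂ) (x : Fin (M + 1) → ℂ) : Fin (N + 1) → ℂ := fun i => eval x (γ i)

/-- The `γ i` are forms of the same degree which give the map `p` on `S`, at the points at which they do not all vanish. -/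
def Gives (S : Set (PN M)) (p : PN M → PN N) (γ : Fin (N + 1) → MvPolynomial (Fin (M + 1)) ℂ) : Prop :=
  (∃ d, ∀ i, (γ i).IsHomogeneous d) ∧ ∀ x, ∀ y ∈ S, Rep x y → vals γ x ≠ 0 → Rep (vals γ x) (p y)

/-- `p` is a regular map on `S`: near every point it is given by forms. -/
def IsRegular (S : Set (PN M)) (p : PN M → PN N) : Prop := ∀ x, ∀ y ∈ S, Rep x y → ∃ γ, Gives S p γ ∧ vals γ x ≠ 0

/-- `p` is a dominant regular map `U' → U`. -/
structure IsDominant (U' U : QSurface) (p : PN U'.N → PN U.N) : Prop where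
  maps : ∀ y ∈ pts U', p y ∈ pts U
  regular : IsRegular (pts U') p
  /-- the image is Zariski dense -/
  dense : ∀ (Q : MvPolynomial (Fin (U.N + 1)) ℂ) (n : ℕ), Q.IsHomogeneous n → (∀ y ∈ pts U', VanishesAt Q (p y)) → Q ∈ U.P

/-- `p` is a surjective regular map `X' → X` of the closures of `U'` and `U`, and `U'` is the inverse image of `U`. -/
structure IsProper (U' U : QSurface) (p : PN U'.N → PN U.N) : Prop where
  maps : ∀ y ∈ cl U', p y ∈ cl U
  surj : ∀ x ∈ cl U, ∃ y ∈ cl U', p y = x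
  regular : IsRegular (cl U') p
  inv : ∀ y ∈ cl U', p y ∈ pts U ↔ y ∈ pts U'

/-- `p` is a modification `X' → X`, and `U'` is the inverse image of `U`: `p` has a rational inverse. -/
structure IsModification (U' U : QSurface) (p : PN U'.N → PN U.N) : Prop extends IsProper U' U p where
  inverse : ∃ (d : ℕ) (α : Fin (U'.N + 1) → MvPolynomial (Fin (U.N + 1)) ℂ), (∀ i, (α i).IsHomogeneous d) ∧
    (∃ x, ∃ q ∈ cl U, Rep x q ∧ vals α x ≠ 0) ∧ ∀ x, ∀ y ∈ cl U', Rep x (p y) → vals α x ≠ 0 → Rep (vals α x) y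

/-- `U` and `U'` are smooth, and `p` is a finite unramified covering `U' → U` (which extends to a regular map of the closures): if a tangent vector `v` of
the affine cone over `U'` is mapped to a multiple of the image of the point, then it is a multiple of the point. -/
structure IsUnramified (U' U : QSurface) (p : PN U'.N → PN U.N) : Prop extends IsProper U' U p where
  smooth : SmoothOn U (pts U)
  smooth' : SmoothOn U' (pts U')
  immersive : ∀ x, ∀ y ∈ pts U', Rep x y → ∀ γ, Gives (cl U') p γ → vals γ x ≠ 0 → ∀ v : Fin (U'.N + 1) → ℂ,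
    (∀ Q ∈ U'.P, ∑ i, v i * eval x (pderiv i Q) = 0) → ∀ c : ℂ, (fun i => ∑ j, eval x (pderiv j (γ i)) * v j) = c • vals γ x → ∃ a : ℂ, v = a • x

/-- `θ` is a holomorphic symmetric differential of degree `m` on the surface `X`: it is given as a function `θ x v` of the homogeneous coordinates `x` and
the tangent vectors `v` at `x` of the affine cone over `X`. -/
structure IsSymDiff (X : Set (PN N)) (m : ℕ) (θ : (Fin (N + 1) → ℂ) → (Fin (N + 1) → ℂ) → ℂ) : Prop where
  horizontal : ∀ x v, IsTangent X x v → ∀ a : ℂ, θ x (v + a • x) = θ x v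
  homogeneous : ∀ x v, IsTangent X x v → ∀ a : ℂ, θ x (a • v) = a ^ m * θ x v
  scale : ∀ x v, IsTangent X x v → ∀ c : ℂ, c ≠ 0 → θ (c • x) (c • v) = θ x v
  holomorphic : ∀ (φ : ℂ × ℂ → Fin (N + 1) → ℂ) (p w : ℂ × ℂ), AnalyticAt ℂ φ p → (∀ᶠ y in 𝓝 p, ∃ q ∈ X, Rep (φ y) q) →
    AnalyticAt ℂ (fun y : (ℂ × ℂ) × (ℂ × ℂ) => θ (φ y.1) (fderiv ℂ φ y.1 y.2)) (p, w)

/-- the Wronskian `a b' - b a'` of the pair `ρ = (a, b)` -/
def wronskian (ρ : ℂ → Fin 2 → ℂ) (z : ℂ) : ℂ := ρ z 0 * deriv (fun w => ρ w 1) z - ρ z 1 * deriv (fun w => ρ w 0) z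

/-- `R : ℂ / Λ → ℙ¹` is holomorphic and onto, and `(ρ₀ ρ₁' - ρ₁ ρ₀') ^ m = Φ (ρ₀, ρ₁)` for every local holomorphic representation `(ρ₀ : ρ₁)` of `R`,
where `Φ` is a binary form of degree `2 m`. -/
structure IsOrbifoldCover {Λ : AddSubgroup ℂ} (R : ℂ ⧸ Λ → PN 1) (m : ℕ) (Φ : MvPolynomial (Fin 2) ℂ) : Prop where
  form : Φ.IsHomogeneous (2 * m)
  holomorphic : HolomorphicInto (fun z : ℂ => R z) Set.univ
  onto : Function.Surjective R
  equation : ∀ (ρ : ℂ → Fin 2 → ℂ) (z : ℂ), AnalyticAt ℂ ρ z → (∀ᶠ w : ℂ in 𝓝 z, Rep (ρ w) (R w)) → wronskian ρ z ^ m = eval (ρ z) Φ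

/-- `U = X` is projective. -/
def Projective (U : QSurface) : Prop := cl U ⊆ pts U

/-- `X = U` is a smooth projective surface with the rational map `(A 0 : A 1)` to `ℙ¹`, `R : ℂ / Λ → ℙ¹` is an orbifold covering such that
`(A 0 d (A 1) - A 1 d (A 0)) ^ m / Φ (A 0, A 1)` is a holomorphic symmetric differential `θ` on `X`, and the projective surface `X' = U'` is the
fibre product of `X` and `ℂ / Λ` over `ℙ¹`: the Zariski closure of `{(x, c) : A x = R c}` (`ℂ / Λ` is embedded in `ℙ^r` by `e`, and `ε` is a numbering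
of the coordinates `x i * y j` of the Segre product). -/
structure IsOrbifoldCovering (U' U : QSurface) {Λ : AddSubgroup ℂ} (A : Fin 2 → MvPolynomial (Fin (U.N + 1)) ℂ) (R : ℂ ⧸ Λ → PN 1) (m : ℕ)
    (Φ : MvPolynomial (Fin 2) ℂ) (e : ℂ ⧸ Λ → PN r) (ε : Fin (U'.N + 1) ≃ Fin (U.N + 1) × Fin (r + 1)) : Prop where
  projective : Projective U
  projective' : Projective U'
  smooth : SmoothOn U (cl U)
  forms : ∃ d, ∀ i, (A i).IsHomogeneous d
  ne : ∃ i, A i ∉ U.P
  pos : 1 ≤ m
  cover : IsOrbifoldCover R m Φ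
  differential : ∃ θ, IsSymDiff (cl U) m θ ∧ ∀ (F : ℂ → Fin (U.N + 1) → ℂ) (z : ℂ), AnalyticAt ℂ F z → (∀ᶠ w in 𝓝 z, ∃ q ∈ cl U, Rep (F w) q) →
    wronskian (fun w => vals A (F w)) z ^ m = θ (F z) (deriv F z) * eval (vals A (F z)) Φ
  embedding : HolomorphicInto (fun z : ℂ => e z) Set.univ ∧ Function.Injective e
  product : U'.P = vanishingIdeal ℂ {v | ∃ x, ∃ q ∈ cl U, ∃ y c, Rep x q ∧ Rep y (e c) ∧ Rep (vals A x) (R c) ∧ v = fun k => x (ε k).1 * y (ε k).2}

/-- The closure `X` of `U` is a smooth projective surface, the boundary `X ∖ U` is a curve, and `u` is a holomorphic map from `X` to the elliptic curve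
`ℂ / L`, `L = ℤ w 0 + ℤ w 1`, which is constant on no nonempty open subset of `X`. -/
structure IsOver (U : QSurface) (w : Fin 2 → ℂ) (u : PN U.N → ℂ ⧸ AddSubgroup.closure (Set.range w)) : Prop where
  smooth : SmoothOn U (cl U)
  /-- near every point of `X` the boundary is given by one equation -/
  curve : ∀ x ∈ cl U, ∃ (A R : MvPolynomial (Fin (U.N + 1)) ℂ) (a r : ℕ), A.IsHomogeneous a ∧ R.IsHomogeneous r ∧ ¬ VanishesAt A x ∧
    ∀ y ∈ cl U, ¬ VanishesAt A y → (y ∈ pts U ↔ ¬ VanishesAt R y)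
  lattice : LinearIndependent ℝ w
  holomorphic : IsHolomorphicMap (cl U) (AddSubgroup.closure (Set.range w)) u
  nonconstant : NowhereConstant (cl U) u

/-- `D` is a closed subset of the boundary which contains all its components on which `u` is not constant; `D` is smooth, and for infinitely many `c` there is
a `2`-form on the fibre product of `X ∖ D` and `ℂ / L'` over `ℂ / L`, `L' = ℤ w' 0 + ℤ w' 1 ⊆ L`, with at most logarithmic poles along `D`, which is `0` over
`c`, but on no nonempty open set. -/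
structure HasFormsAlong (U : QSurface) (w w' : Fin 2 → ℂ) (u : PN U.N → ℂ ⧸ AddSubgroup.closure (Set.range w)) (D : Set (PN U.N)) : Prop where
  /-- `D` is Zariski closed -/
  closed : ZariskiClosedIn (cl U) D
  /-- `D` is a part of the boundary -/
  boundary : ∀ x ∈ D, x ∉ pts U
  /-- `u` is constant on no nonempty open subset of `D` -/
  horizontal : NowhereConstant D u
  /-- `u` has only finitely many values on the remaining part of the boundary -/
  vertical : (u '' (cl U \ (pts U ∪ D))).Finite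
  /-- `L'` is a lattice and contained in `L` -/
  lattice : LinearIndependent ℝ w' ∧ ∀ i, w' i ∈ AddSubgroup.closure (Set.range w)
  /-- the forms -/
  forms : HasLogForms (cl U) D (AddSubgroup.closure (Set.range w)) (AddSubgroup.closure (Set.range w')) u

/-- The rational map `(W 0 : W 1)` from `X` to `ℙ¹` is regular at the point `x` of `X`, and its value is `q`. -/
def HasValue (U : QSurface) (W : Fin 2 → MvPolynomial (Fin (U.N + 1)) ℂ) (x : PN U.N) (q : PN 1) : Prop :=
  ∃ γ : Fin 2 → MvPolynomial (Fin (U.N + 1)) ℂ, (∃ d, ∀ i, (γ i).IsHomogeneous d) ∧ γ 0 * W 1 - γ 1 * W 0 ∈ U.P ∧ ∃ y, Rep y x ∧ Rep (vals γ y) q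

/-- The map `S` from `ℂ / Λ` to `ℙ¹` is holomorphic and not constant. -/
def IsElliptic {Λ : AddSubgroup ℂ} (S : ℂ ⧸ Λ → PN 1) : Prop := HolomorphicInto (fun z : ℂ => S z) Set.univ ∧ ∃ c c', S c ≠ S c'

/-- `w = (W 0 : W 1)` is a rational function on `X` which is independent of `u`, such that outside the fibres of `u` over a finite set `B` it is regular on `U`
and omits the values `0`, `1`, `∞`, and either it omits there the values of `S ∘ u` for a nonconstant function `S` on the elliptic curve, or, for one point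
`c`, it is a regular map to `ℙ¹` at all points of `U` over `c`, with finitely many values at these points. -/
structure HasFunction (U : QSurface) {Λ : AddSubgroup ℂ} (u : PN U.N → ℂ ⧸ Λ) (W : Fin 2 → MvPolynomial (Fin (U.N + 1)) ℂ) : Prop where
  forms : ∃ d, ∀ i, (W i).IsHomogeneous d
  /-- for a nonconstant function `R` on the elliptic curve the functions `R ∘ u = (A 0 : A 1)` and `(W 0 : W 1)` are algebraically independent -/
  independent : ∃ (R : ℂ ⧸ Λ → PN 1) (A : Fin 2 → MvPolynomial (Fin (U.N + 1)) ℂ), IsElliptic R ∧ (∃ d, ∀ i, (A i).IsHomogeneous d) ∧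
    (∀ x ∈ pts U, HasValue U A x (R (u x))) ∧ ∀ Φ : MvPolynomial (Fin 2) ℂ, Φ ≠ 0 → ∃ y, ∃ x ∈ pts U, Rep y x ∧
      eval y (A 1) ≠ 0 ∧ eval y (W 1) ≠ 0 ∧ eval ![eval y (A 0) / eval y (A 1), eval y (W 0) / eval y (W 1)] Φ ≠ 0
  omits : ∃ B : Set (ℂ ⧸ Λ), B.Finite ∧
    (∀ x ∈ pts U, u x ∉ B → ∃ q, HasValue U W x q ∧ ¬ Rep ![0, 1] q ∧ ¬ Rep ![1, 1] q ∧ ¬ Rep ![1, 0] q) ∧
    ((∃ S : ℂ ⧸ Λ → PN 1, IsElliptic S ∧ ∀ x ∈ pts U, u x ∉ B → ∀ q, HasValue U W x q → q ≠ S (u x)) ∨
      ∃ (c : ℂ ⧸ Λ) (T : Set (PN 1)), T.Finite ∧ ∀ x ∈ pts U, u x = c → ∃ q ∈ T, HasValue U W x q)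

/-- `U` is the complement in `X` of the hypersurfaces `H i = 0` (so `U` is affine), and every holomorphic map from `ℂ` to the intersection of `X` and all these
hypersurfaces is constant. -/
structure IsComplement (U : QSurface) (H : Fin s → MvPolynomial (Fin (U.N + 1)) ℂ) : Prop where
  /-- the `H i` are forms of positive degree -/
  forms : ∀ i, ∃ d, 0 < d ∧ (H i).IsHomogeneous d
  /-- `U` is the complement of the hypersurfaces `H i = 0` -/
  complement : ∀ x ∈ cl U, x ∈ pts U ↔ ∀ i, ¬ VanishesAt (H i) x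
  /-- there are no non-constant entire curves in the intersection of the hypersurfaces -/
  curves : ∀ f : ℂ → PN U.N, HolomorphicInto f Set.univ → (∀ z, f z ∈ cl U) → (∀ i z, VanishesAt (H i) (f z)) → ∀ z w, f z = f w

/-- `U` is one of the basic surfaces over an elliptic curve. -/
def IsBasic (U : QSurface) : Prop :=
  ∃ (w : Fin 2 → ℂ) (u : PN U.N → ℂ ⧸ AddSubgroup.closure (Set.range w)), IsOver U w u ∧
    ((∃ w' D, HasFormsAlong U w w' u D) ∨ (∃ W, HasFunction U u W) ∨ ∃ (s : ℕ) (H : Fin s → MvPolynomial (Fin (U.N + 1)) ℂ), IsComplement U H)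

/-- The smallest class of quasi-projective surfaces with the following properties. -/
inductive OverElliptic : QSurface → Prop
  /-- The class contains the basic surfaces over an elliptic curve. -/
  | basic (U : QSurface) (h : IsBasic U) : OverElliptic U
  /-- The class contains `U'` if there is a dominant regular map `U' → U` and `U` is in the class and of log general type. -/
  | dominant (U' U : QSurface) (p : PN U'.N → PN U.N) (hp : IsDominant U' U p) (hgt : U.LogGeneralType) (h : OverElliptic U) : OverElliptic U'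
  /-- The class contains `U` if it contains a surface `U'` with a modification `U' → U`. -/
  | modification (U' U : QSurface) (p : PN U'.N → PN U.N) (hp : IsModification U' U p) (h : OverElliptic U') : OverElliptic U
  /-- The class contains `U` if it contains a surface `U'` with an unramified covering `U' → U`. -/
  | unramified (U' U : QSurface) (p : PN U'.N → PN U.N) (hp : IsUnramified U' U p) (h : OverElliptic U') : OverElliptic U
  /-- The class contains `U` if it contains a surface `U'` with an orbifold covering `U' → U` as in `IsOrbifoldCovering`. -/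
  | orbifold (U' U : QSurface) (r : ℕ) (w : Fin 2 → ℂ) (hw : LinearIndependent ℝ w) (A : Fin 2 → MvPolynomial (Fin (U.N + 1)) ℂ)
      (R : ℂ ⧸ AddSubgroup.closure (Set.range w) → PN 1) (m : ℕ) (Φ : MvPolynomial (Fin 2) ℂ) (e : ℂ ⧸ AddSubgroup.closure (Set.range w) → PN r)
      (ε : Fin (U'.N + 1) ≃ Fin (U.N + 1) × Fin (r + 1)) (hp : IsOrbifoldCovering U' U A R m Φ e ε) (h : OverElliptic U') : OverElliptic U

end Pool.Agent.H19E.V4

end
end
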