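import Pool.Agent.H94.CB.H17EF.Bridge
import Pool.Agent.H94.CB.M168
import Pool.Agent.H94.CB.M243
import Pool.Agent.H94.CB.M244

/-! The parts of this file: H17L.ZsL, H17L.FormC, H17L.StartLA. -/

section

/-!
# H17L ZsL: the set `Zs` is closed and nowhere dense

* `zs_closed`: `x ∈ X`, `x ∉ Zs`: near `x` the points are not in `D` (`CurveD.closed`); let `v` be a local lift of `u` at `x` (`tor.loc`); `B` is invariant under `Λ` and `8 δ`-separated, so the distance of `v x` from `B` is positive, hence the values `u y`, `y ∈ X` near `x`, are not in `B`.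
* `zs_thin`: every chart `σ`: near `0`, arbitrarily near every `p` there are `p'` with `σ p' ∉ Zs`.  `Zs` is near `σ 0` contained in `D ∪ {u = b}` for one value `b` (or in `D`).  Suppose `σ p' ∈ Zs` for all `p'` near `p` (`p` near `0`).  `D` is given by `t = 0` in adapted charts (`smooth`, `IsChart.trans` or `IsChart.near`), so it has empty interior; so `u (σ p') - b ∈ Λ` on a nonempty open set, and `u` is constant on an open set, contradiction to
  `NonConst` for the chart `IsChart.near` at such a point.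
-/

set_option autoImplicit false

open Topology Filter

namespace Pool.Agent.H17L

attribute [-instance] ProperSMul.toContinuousSMul

open Pool.Agent.H17BP (Surface IsChart Tan Pr HolP ResN)
open Pool.Agent.H62.EF (Lat)
open Pool.Agent.H62.EL (BadSet)
open Pool.Agent.H17N (TMap LU RU TF NonConst ThinF FibB HSec)

variable {V : Type} [NormedAddCommGroup V] [NormedSpace ℂ V] [FiniteDimensional ℂ V] {X D : Set V} {Λ Γ : AddSubgroup ℂ} {u : V → ℂ}
  {B : Set ℂ} {δ : ℝ}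

/-- the bad set is closed -/
private theorem zsL_bad (hbad : BadSet B Λ δ) {a : ℂ} (ha : a ∉ B) : ∀ᶠ z in 𝓝 a, z ∉ B := by
  have hδ := hbad.pos
  by_cases hex : ∃ b ∈ B, ‖b - a‖ < 4 * δ
  · obtain ⟨b, hb, hba⟩ := hex
    have hne : b ≠ a := fun h => ha (h ▸ hb)
    have hpos : 0 < ‖b - a‖ := norm_pos_iff.2 (sub_ne_zero.2 hne)
    filter_upwards [Metric.ball_mem_nhds a hpos] with z hz hzB
    rw [Metric.mem_ball, dist_eq_norm] at hz
    by_cases hzb : z = b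
    · rw [hzb] at hz
      exact lt_irrefl _ hz
    · have h1 := hbad.sep z hzB b hb hzb
      have h2 : ‖z - b‖ ≤ ‖z - a‖ + ‖b - a‖ := by
        have h3 : z - b = (z - a) - (b - a) := by ring
        rw [h3]
        exact norm_sub_le _ _
      linarith
  · push Not at hex
    filter_upwards [Metric.ball_mem_nhds a (show 0 < 4 * δ by positivity)] with z hz hzB
    rw [Metric.mem_ball, dist_eq_norm] at hz
    exact absurd hz (not_lt.2 (hex z hzB))

/-- the curve `D` has empty interior -/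
private theorem zsL_int (hX : Surface X) (hD : CurveD X D Λ u) {σ : ℂ × ℂ → V} {τ : V → ℂ × ℂ} (h : IsChart X σ τ) :
    ∃ᶠ p in 𝓝 (0 : ℂ × ℂ), σ p ∉ D := by
  intro hcon
  simp only [not_not] at hcon
  obtain ⟨σ₁, τ₁, g₁, h1, h2, h3, -, -⟩ := hD.smooth _ hcon.self_of_nhds
  obtain ⟨θ, hθ, hev⟩ := IsChart.trans hX.smul h h1 (by rw [h2]; exact Pool.Agent.H17BP.Pr.refl _)
  have h4 : ∀ᶠ p in 𝓝 (0 : ℂ × ℂ), p.2 = 0 := by
    filter_upwards [hev, hθ.tendsto.eventually hcon, h3] with p hp1 hp2 hp3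
    refine hp3.1 ?_
    obtain ⟨c, hc, hp4⟩ := hp1
    rw [hp4]
    exact hD.smul _ hp2 c hc
  have h5 : Tendsto (fun t : ℂ => ((0 : ℂ), t)) (𝓝 0) (𝓝 (0 : ℂ × ℂ)) :=
    (Continuous.prodMk_right (0 : ℂ)).tendsto 0
  have h6 : ∀ᶠ t in 𝓝 (0 : ℂ), t = 0 := h5.eventually h4
  have h7 : ∀ᶠ t in 𝓝[≠] (0 : ℂ), t = 0 := h6.filter_mono nhdsWithin_le_nhds
  obtain ⟨t, ht1, ht2⟩ := (h7.and self_mem_nhdsWithin).exists
  exact ht2 ht1

/-- the values of a local lift of `u` at the points over `B` -/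
private theorem zsL_mem (hbad : BadSet B Λ δ) {a b c : ℂ} (h1 : a - b ∈ Λ) (hb : b ∈ B) (h2 : a - c ∈ Λ) : c ∈ B := by
  have h3 : c = b + ((a - b) - (a - c)) := by ring
  rw [h3]
  exact hbad.inv b hb _ (Λ.sub_mem h1 h2)

theorem zs_closed (hbad : BadSet B Λ δ) (hu : TMap X Λ u) (hD : CurveD X D Λ u) {x : V} (hx : x ∈ X) (hxZ : x ∉ Zs X D Λ u B) :
    ∀ᶠ y in 𝓝 x, y ∉ Zs X D Λ u B := by
  have hxD : x ∉ D := fun h => hxZ (Or.inl h)
  obtain ⟨v, hv, hev⟩ := hu.loc x hx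
  have h0 : u x - v x ∈ Λ := hev.self_of_nhds hx
  have hvx : v x ∉ B := fun h => hxZ (Or.inr ⟨hx, v x, h, h0⟩)
  filter_upwards [hD.closed x hx hxD, hev, hv.continuousAt.tendsto.eventually (zsL_bad hbad hvx)] with y hy1 hy2 hy3 hyZ
  rcases hyZ with hyD | ⟨hyX, b, hb, hyb⟩
  · exact hy1 hyD
  · exact hy3 (zsL_mem hbad hyb hb (hy2 hyX))

private theorem zsL_freq (hbad : BadSet B Λ δ) (hX : Surface X) (hu : TMap X Λ u) (hn : NonConst X Λ u) (hD : CurveD X D Λ u) {σ : ℂ × ℂ → V}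
    {τ : V → ℂ × ℂ} (h : IsChart X σ τ) : ∃ᶠ p in 𝓝 (0 : ℂ × ℂ), σ p ∉ Zs X D Λ u B := by
  intro hcon
  simp only [not_not] at hcon
  have hδ := hbad.pos
  obtain ⟨g, hg⟩ := Pool.Agent.H17N.exists_lu hu h
  have hsm : ∀ᶠ p in 𝓝 (0 : ℂ × ℂ), ‖g p‖ < 4 * δ := by
    have h1 : Tendsto (fun p => ‖g p‖) (𝓝 (0 : ℂ × ℂ)) (𝓝 ‖g 0‖) := hg.1.continuousAt.norm
    rw [hg.2.1, norm_zero] at h1
    exact h1.eventually_lt_const (by positivity)
  obtain ⟨p, hpD, hp1, hp2, hp3, hp4, hp5, hp6, hp7⟩ := ((zsL_int hX hD h).and_eventually (h.near.and (hcon.eventually_nhds.and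
    (hg.2.2.eventually_nhds.and (hsm.eventually_nhds.and (hg.1.eventually_analyticAt.and (h.σ_an.eventually_analyticAt.and
      h.σ_mem))))))).exists
  have hnD : ∀ᶠ x in 𝓝 p, σ x ∉ D := hp6.continuousAt.tendsto.eventually (hD.closed _ hp7 hpD)
  have hB : ∀ᶠ x in 𝓝 p, u (σ 0) + g x ∈ B := by
    filter_upwards [hnD, hp2, hp3] with x hx1 hx2 hx3
    rcases hx2 with hx2 | ⟨-, b, hb, hx2⟩
    · exact absurd hx2 hx1
    · refine zsL_mem hbad hx2 hb ?_
      have h1 : u (σ x) - (u (σ 0) + g x) = u (σ x) - u (σ 0) - g x := by ring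
      rw [h1]
      exact hx3
  have hc : ∀ᶠ x in 𝓝 p, g x = g p := by
    filter_upwards [hB, hp4] with x hx1 hx2
    by_contra hne
    have h1 := hbad.sep _ hx1 _ hB.self_of_nhds (fun h => hne (add_left_cancel h))
    have h2 : ‖u (σ 0) + g x - (u (σ 0) + g p)‖ ≤ ‖g x‖ + ‖g p‖ := by
      have h3 : u (σ 0) + g x - (u (σ 0) + g p) = g x - g p := by ring
      rw [h3]
      exact norm_sub_le _ _
    have h4 := hp4.self_of_nhds
    linarith
  have ht : Tendsto (fun x : ℂ × ℂ => p + x) (𝓝 0) (𝓝 p) := by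
    have := (continuous_const_add p).tendsto (0 : ℂ × ℂ)
    rwa [add_zero] at this
  refine hn _ _ (fun x => g (p + x) - g p) hp1 ⟨?_, ?_, ?_⟩ ?_
  · refine AnalyticAt.sub ?_ analyticAt_const
    refine AnalyticAt.comp (g := g) (f := fun x : ℂ × ℂ => p + x) ?_ (analyticAt_const.add analyticAt_id)
    rw [add_zero]
    exact hp5
  · show g (p + 0) - g p = 0
    rw [add_zero, sub_self]
  · filter_upwards [ht.eventually hp3] with x hx
    show u (σ (p + x)) - u (σ (p + 0)) - (g (p + x) - g p) ∈ Λ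
    rw [add_zero]
    have h1 : u (σ (p + x)) - u (σ p) - (g (p + x) - g p) = (u (σ (p + x)) - u (σ 0) - g (p + x)) - (u (σ p) - u (σ 0) - g p) := by ring
    rw [h1]
    exact Λ.sub_mem hx hp3.self_of_nhds
  · filter_upwards [ht.eventually hc] with x hx
    show g (p + x) - g p = 0
    rw [hx, sub_self]

theorem zs_thin (hΛ : Lat Λ) (hbad : BadSet B Λ δ) (hX : Surface X) (hu : TMap X Λ u) (hn : NonConst X Λ u) (hD : CurveD X D Λ u) {σ : ℂ × ℂ → V}
    {τ : V → ℂ × ℂ} (h : IsChart X σ τ) : ∀ᶠ p in 𝓝 (0 : ℂ × ℂ), ∃ᶠ p' in 𝓝 p, σ p' ∉ Zs X D Λ u B := by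
  filter_upwards [h.near] with p hp
  have ht : Tendsto (fun x : ℂ × ℂ => p + x) (𝓝 0) (𝓝 p) := by
    have := (continuous_const_add p).tendsto (0 : ℂ × ℂ)
    rwa [add_zero] at this
  exact ht.frequently (zsL_freq hbad hX hu hn hD hp)

end Pool.Agent.H17L

end

section

/-!
# H17L FormC: the extended form is periodic, zero over `0`, nowhere zero

Notation as in FormA; `α'` agrees with the transported form off `D₀ = L.symm ⁻¹' Zs`.

* `per_ext`: `x ∈ X' \ D'`, `u' x - z ∈ Λ`; in a chart `σ` at `x` and the lift `υ` with `υ 0 = z` the coefficients of `α'` for `υ` and `υ + l` are continuous near `0` (`α'.analytic`) and agree where `σ p ∉ D₀` (`h.per`), and these points accumulate at `0` (`zs_thin`); hence they agree at `0`; and `α' z x v w`, `α' (z + l) x v w` are determined by these coefficients (`v, w` are combinations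
  of `∂σ`, `x`: tangent vectors of the cone, see the private `st_tanv` in H17N/Start.lean; `det`, `add_smul`).
* `van_ext`: the points over `0` are not over `B` (`4 δ ≤ ‖b‖` for `b ∈ B`, `B` invariant under `Λ`, so `0 ∉ B + Λ`), so they are in `X' \ D₀`; tangent vectors of `X' \ D'` at `x` are tangent vectors of `X' \ D₀` (`zs_closed`; `tan_transport`); `h.van`.
* `thin_ext`: a chart `χ` of `X' \ D'` and a nonempty open set where the coefficient is `0`; choose in it a point with `χ.σ p ∉ D₀` (`zs_thin` for the germ of the chart at a point); near this point `α'` is the transported form: contradiction to `h.thin` (pattern: `exists_tform` in H17N/BaseA.lean; `IsChart (X \ Zs)` because `Zs` is closed, `zs_closed`).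
-/

set_option autoImplicit false
set_option linter.unusedSectionVars false

open Topology Filter

namespace Pool.Agent.H17L

attribute [-instance] ProperSMul.toContinuousSMul

open Pool.Agent.H17BP (Surface IsChart Tan Pr HolP ResN)
open Pool.Agent.H36.BP (EN isCone_transport germ_transport tan_transport)
open Pool.Agent.H62.EF (Lat)
open Pool.Agent.H62.EL (TForm Per VanZero Thin BadSet)
open Pool.Agent.H17N (TMap LU RU TF NonConst ThinF FibB HSec)

variable {V : Type} [NormedAddCommGroup V] [NormedSpace ℂ V] [FiniteDimensional ℂ V] {X D : Set V} {Λ Γ : AddSubgroup ℂ} {u : V → ℂ}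
  {B : Set ℂ} {α : ℂ → V → V → V → ℂ} {δ : ℝ} {M : ℕ}

/-! ## auxiliary lemmas -/

private theorem fc_add (p : ℂ × ℂ) : Tendsto (fun y : ℂ × ℂ => p + y) (𝓝 0) (𝓝 p) := by
  have h0 : Continuous (fun y : ℂ × ℂ => p + y) := continuous_const.add continuous_id
  have h1 : Tendsto (fun y : ℂ × ℂ => p + y) (𝓝 0) (𝓝 (p + 0)) := h0.tendsto 0
  rwa [add_zero] at h1

/-- the tangent vectors at `σ 0` -/
private theorem fc_tan0 {X : Set V} {σ : ℂ × ℂ → V} {τ : V → ℂ × ℂ} (h : IsChart X σ τ) {v : V} (hv : v ∈ Tan X (σ 0)) :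
    ∃ (e : ℂ × ℂ) (a : ℂ), v = fderiv ℂ σ 0 e + a • σ 0 := by
  obtain ⟨F, hF, hFX, hF0, hFv⟩ := hv
  obtain ⟨ℓ, hℓ⟩ : ∃ ℓ : V →L[ℂ] ℂ, ℓ (σ 0) ≠ 0 := by
    obtain ⟨ℓ, hℓ⟩ := exists_dual_vector ℂ (σ 0) (norm_ne_zero_iff.mpr h.ne)
    refine ⟨ℓ, ?_⟩
    rw [hℓ.2]
    simpa using h.ne
  have hτ0 : τ (σ 0) = 0 := h.left.self_of_nhds
  have hτF : AnalyticAt ℂ (fun z => τ (F z)) 0 := AnalyticAt.fun_comp (g := τ) (by rw [hF0]; exact h.τ_an) hF
  have hτF0 : τ (F 0) = 0 := by rw [hF0, hτ0]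
  have hσF : AnalyticAt ℂ (fun z => σ (τ (F z))) 0 := AnalyticAt.fun_comp (g := σ) (by rw [hτF0]; exact h.σ_an) hτF
  have hLσ : AnalyticAt ℂ (fun z => ℓ (σ (τ (F z)))) 0 := AnalyticAt.fun_comp (g := fun x => ℓ x) (ℓ.analyticAt _) hσF
  have hLF : AnalyticAt ℂ (fun z => ℓ (F z)) 0 := AnalyticAt.fun_comp (g := fun x => ℓ x) (ℓ.analyticAt _) hF
  have hL0 : ℓ (σ (τ (F 0))) ≠ 0 := by rw [hτF0]; exact hℓ
  have hg : AnalyticAt ℂ (fun z => ℓ (F z) / ℓ (σ (τ (F z)))) 0 := hLF.div hLσ hL0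
  have hFt : Tendsto F (𝓝 0) (𝓝 (σ 0)) := by
    have h5 := hF.continuousAt.tendsto
    rwa [hF0] at h5
  have hev : F =ᶠ[𝓝 0] fun z => (ℓ (F z) / ℓ (σ (τ (F z)))) • σ (τ (F z)) := by
    filter_upwards [hFt.eventually h.right, hFX, hLσ.continuousAt.eventually_ne hL0] with z g1 g2 g3
    obtain ⟨a, ha, g4⟩ := g1 g2
    have g5 : ℓ (F z) = a * ℓ (σ (τ (F z))) := by
      conv_lhs => rw [g4]
      rw [map_smul, smul_eq_mul]
    rw [g5, mul_div_cancel_right₀ _ g3]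
    exact g4
  have hg0 : ℓ (F 0) / ℓ (σ (τ (F 0))) = 1 := by
    rw [hτF0, hF0, div_self hℓ]
  have hd1 : HasDerivAt (fun z => σ (τ (F z))) (fderiv ℂ σ 0 (deriv (fun z => τ (F z)) 0)) 0 := by
    have g1 : HasFDerivAt σ (fderiv ℂ σ 0) (τ (F 0)) := by
      rw [hτF0]
      exact h.σ_an.differentiableAt.hasFDerivAt
    exact g1.comp_hasDerivAt (0 : ℂ) hτF.differentiableAt.hasDerivAt
  have hd2 := hg.differentiableAt.hasDerivAt.smul hd1
  have hd3 : HasDerivAt F v 0 := by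
    rw [← hFv]
    exact hF.differentiableAt.hasDerivAt
  have hd4 := hd3.unique (hd2.congr_of_eventuallyEq hev)
  refine ⟨deriv (fun z => τ (F z)) 0, deriv (fun z => ℓ (F z) / ℓ (σ (τ (F z)))) 0, ?_⟩
  rw [hd4, hg0, hτF0, one_smul]

/-- a tangent vector of `X` at a point of the open part `W` -/
private theorem fc_tan_mono {X W : Set V} {x v : V} (hW : ∀ᶠ y in 𝓝 x, y ∈ X → y ∈ W) (hv : v ∈ Tan X x) : v ∈ Tan W x := by
  obtain ⟨F, hF, hFX, hF0, hFv⟩ := hv
  refine ⟨F, hF, ?_, hF0, hFv⟩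
  have hFt : Tendsto F (𝓝 0) (𝓝 x) := by
    have h5 := hF.continuousAt.tendsto
    rwa [hF0] at h5
  filter_upwards [hFX, hFt.eventually hW] with z h1 h2
  exact h2 h1

/-- the partial derivatives are tangent vectors -/
private theorem fc_tan_fderiv {X : Set V} {σ : ℂ × ℂ → V} {p : ℂ × ℂ} (hσ : AnalyticAt ℂ σ p) (hX : ∀ᶠ y in 𝓝 p, σ y ∈ X) (e : ℂ × ℂ) :
    fderiv ℂ σ p e ∈ Tan X (σ p) := by
  have h0 : p + (0 : ℂ) • e = p := by rw [zero_smul, add_zero]
  have h1 : AnalyticAt ℂ (fun z : ℂ => p + z • e) 0 := by fun_prop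
  have h2 : Tendsto (fun z : ℂ => p + z • e) (𝓝 0) (𝓝 p) := by
    have h3 := h1.continuousAt.tendsto
    rwa [h0] at h3
  refine ⟨fun z => σ (p + z • e), AnalyticAt.fun_comp (g := σ) (by rw [h0]; exact hσ) h1, h2.eventually hX, by simp only [h0], ?_⟩
  have h3 : HasFDerivAt σ (fderiv ℂ σ p) (p + (0 : ℂ) • e) := by
    rw [h0]
    exact hσ.differentiableAt.hasFDerivAt
  have h4 : HasDerivAt (fun z : ℂ => p + z • e) e 0 := by
    have h5 := ((hasDerivAt_id (0 : ℂ)).smul_const e).const_add p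
    simpa using h5
  exact (h3.comp_hasDerivAt (0 : ℂ) h4).deriv

/-- the partial derivatives of the transported chart are tangent vectors of the transported surface -/
private theorem fc_tan_tr (L : V ≃L[ℂ] EN M) {W : Set V} {x v : V} (hv : v ∈ Tan W x) :
    Pool.Agent.H14.PP.Tan (L.symm ⁻¹' W : Set (EN M)) (L x) (L v) := by
  obtain ⟨F, hF, hFX, hF0, hFv⟩ := hv
  refine ⟨fun z => L (F z), ⟨((L : V →L[ℂ] EN M).analyticAt _).comp hF, ?_⟩, by simp only [hF0], ?_⟩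
  · filter_upwards [hFX] with z hz
    show L.symm (L (F z)) ∈ W
    rwa [ContinuousLinearEquiv.symm_apply_apply]
  · have h2 : HasDerivAt (fun z => L (F z)) (L (deriv F 0)) 0 :=
      (L : V →L[ℂ] EN M).hasFDerivAt.comp_hasDerivAt 0 hF.differentiableAt.hasDerivAt
    rw [h2.deriv, hFv]

private theorem fc_fderiv (L : V ≃L[ℂ] EN M) {σ : ℂ × ℂ → V} {p : ℂ × ℂ} (hσ : AnalyticAt ℂ σ p) (e : ℂ × ℂ) :
    fderiv ℂ (fun y => L (σ y)) p e = L (fderiv ℂ σ p e) := by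
  have h2 : HasFDerivAt (fun y => L (σ y)) ((L : V →L[ℂ] EN M).comp (fderiv ℂ σ p)) p :=
    (L : V →L[ℂ] EN M).hasFDerivAt.comp p hσ.differentiableAt.hasFDerivAt
  rw [h2.fderiv]
  rfl

/-- a continuous function which vanishes at points arbitrarily near `p` vanishes at `p` -/
private theorem fc_freq {f g : ℂ × ℂ → ℂ} {p : ℂ × ℂ} (hf : ContinuousAt f p) (hg : ContinuousAt g p) (h : ∃ᶠ y in 𝓝 p, f y = g y) :
    f p = g p := by
  by_contra hne
  apply h
  have h1 : ContinuousAt (fun y => f y - g y) p := hf.sub hg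
  filter_upwards [h1.eventually_ne (sub_ne_zero.mpr hne)] with y hy
  exact fun h2 => hy (sub_eq_zero.mpr h2)

theorem per_ext (L : V ≃L[ℂ] EN M) (hΛ : Lat Λ) (hle : Γ ≤ Λ) (hbad : BadSet B Λ δ) (h : DData X D Λ Γ u B α)
    {α' : TForm ((L.symm ⁻¹' X : Set (EN M)) \ (L.symm ⁻¹' D : Set (EN M))) Λ (fun x => u (L.symm x))} (hα : Agr L X D (Zs X D Λ u B) α α') :
    Per α' Γ := by
  intro z l hl x hx hxz v w hv hw
  obtain ⟨hxX, hxD⟩ := hx
  have hxX' : L.symm x ∈ X := hxX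
  have hxD' : L.symm x ∉ D := hxD
  have hxz' : u (L.symm x) - z ∈ Λ := hxz
  obtain ⟨σ, τ, hc, hσ0⟩ := h.surf.chart (L.symm x) hxX'
  obtain ⟨v₀, hv₀, hv₀u⟩ := h.tor.loc (L.symm x) hxX'
  have hσt : Tendsto σ (𝓝 0) (𝓝 (L.symm x)) := by
    have h1 := hc.σ_an.continuousAt.tendsto
    rwa [hσ0] at h1
  have hLx : L (σ 0) = x := by rw [hσ0, ContinuousLinearEquiv.apply_symm_apply]
  have hσD : ∀ᶠ p in 𝓝 (0 : ℂ × ℂ), σ p ∉ D := hσt.eventually (h.curve.closed _ hxX' hxD')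
  -- the lift
  have hυ0 : z - v₀ (L.symm x) ∈ Λ := by
    have h1 := hv₀u.self_of_nhds hxX'
    have h2 := Λ.sub_mem h1 hxz'
    rwa [sub_sub_sub_cancel_left] at h2
  have hυ : AnalyticAt ℂ (fun p => v₀ (σ p) + (z - v₀ (L.symm x))) 0 := by
    refine AnalyticAt.add ?_ analyticAt_const
    exact AnalyticAt.fun_comp (g := v₀) (by rw [hσ0]; exact hv₀) hc.σ_an
  have hlift : ∀ᶠ p in 𝓝 (0 : ℂ × ℂ), u (σ p) - (v₀ (σ p) + (z - v₀ (L.symm x))) ∈ Λ := by
    filter_upwards [hσt.eventually hv₀u, hc.σ_mem] with p h1 h2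
    have h3 := Λ.sub_mem (h1 h2) hυ0
    rwa [sub_sub] at h3
  set υ : ℂ × ℂ → ℂ := fun p => v₀ (σ p) + (z - v₀ (L.symm x)) with hυdef
  have hυz : υ 0 = z := by
    simp only [hυdef, hσ0]
    ring
  have hφ : AnalyticAt ℂ (fun p => L (σ p)) 0 := ((L : V →L[ℂ] EN M).analyticAt _).comp hc.σ_an
  -- the two coefficients are analytic
  have hA : AnalyticAt ℂ (fun y => α'.toFun (υ y) (L (σ y)) (fderiv ℂ (fun p => L (σ p)) y (1, 0)) (fderiv ℂ (fun p => L (σ p)) y (0, 1))) 0 := by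
    refine α'.analytic (fun p => L (σ p)) υ 0 hφ hυ ?_
    filter_upwards [hc.σ_mem, hσD, hlift] with p h1 h2 h3
    refine ⟨⟨?_, ?_⟩, ?_⟩
    · show L.symm (L (σ p)) ∈ X
      rwa [ContinuousLinearEquiv.symm_apply_apply]
    · show L.symm (L (σ p)) ∉ D
      rwa [ContinuousLinearEquiv.symm_apply_apply]
    · show u (L.symm (L (σ p))) - υ p ∈ Λ
      rwa [ContinuousLinearEquiv.symm_apply_apply]
  have hA' : AnalyticAt ℂ (fun y => α'.toFun (υ y + l) (L (σ y)) (fderiv ℂ (fun p => L (σ p)) y (1, 0)) (fderiv ℂ (fun p => L (σ p)) y (0, 1))) 0 := by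
    refine α'.analytic (fun p => L (σ p)) (fun y => υ y + l) 0 hφ (hυ.add analyticAt_const) ?_
    filter_upwards [hc.σ_mem, hσD, hlift] with p h1 h2 h3
    refine ⟨⟨?_, ?_⟩, ?_⟩
    · show L.symm (L (σ p)) ∈ X
      rwa [ContinuousLinearEquiv.symm_apply_apply]
    · show L.symm (L (σ p)) ∉ D
      rwa [ContinuousLinearEquiv.symm_apply_apply]
    · show u (L.symm (L (σ p))) - (υ p + l) ∈ Λ
      rw [ContinuousLinearEquiv.symm_apply_apply, ← sub_sub]
      exact Λ.sub_mem h3 (hle hl)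
  have hthin := (zs_thin hΛ hbad h.surf h.tor h.nonconst h.curve hc).self_of_nhds
  have hkey := fc_freq hA'.continuousAt hA.continuousAt (by
    refine (hthin.and_eventually ((hc.σ_mem.and hlift).and (hc.σ_an.eventually_analyticAt.and (hc.σ_mem.eventually_nhds)))).mono ?_
    rintro p ⟨hp, ⟨h1, h2⟩, h3, h4⟩
    have hLp : L.symm (L (σ p)) = σ p := ContinuousLinearEquiv.symm_apply_apply _ _
    rw [hα _ _ (by rwa [hLp]) (by rwa [hLp]), hα _ _ (by rwa [hLp]) (by rwa [hLp]), fc_fderiv L h3, fc_fderiv L h3, hLp,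
      ContinuousLinearEquiv.symm_apply_apply, ContinuousLinearEquiv.symm_apply_apply]
    have h5 : ∀ᶠ y in 𝓝 (σ p), y ∈ X → y ∈ X \ Zs X D Λ u B := by
      filter_upwards [zs_closed hbad h.tor h.curve h1 hp] with y h6 h7
      exact ⟨h7, h6⟩
    exact h.per (υ p) l hl (σ p) ⟨h1, hp⟩ h2 _ (fc_tan_mono h5 (fc_tan_fderiv h3 h4 _)) _ (fc_tan_mono h5 (fc_tan_fderiv h3 h4 _)))
  simp only [hυz, hLx] at hkey
  -- general tangent vectors
  have hTX : ∀ {w : EN M}, Pool.Agent.H14.PP.Tan ((L.symm ⁻¹' X : Set (EN M)) \ (L.symm ⁻¹' D : Set (EN M))) x w →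
      ∃ (e : ℂ × ℂ) (a : ℂ), w = fderiv ℂ (fun p => L (σ p)) 0 e + a • x := by
    intro w hw
    have h1 : L.symm w ∈ Tan (X \ D) (L.symm x) := tan_transport L (X := X \ D) hw
    have h2 : L.symm w ∈ Tan X (σ 0) := by
      rw [hσ0]
      exact fc_tan_mono (Eventually.of_forall fun y hy => hy.1) h1
    obtain ⟨e, a, he⟩ := fc_tan0 hc h2
    refine ⟨e, a, ?_⟩
    rw [fc_fderiv L hc.σ_an, ← hLx, ← map_smul, ← map_add, ← he, ContinuousLinearEquiv.apply_symm_apply]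
  obtain ⟨e, a, rfl⟩ := hTX hv
  obtain ⟨e', a', rfl⟩ := hTX hw
  have hT : ∀ e : ℂ × ℂ, Pool.Agent.H14.PP.Tan ((L.symm ⁻¹' X : Set (EN M)) \ (L.symm ⁻¹' D : Set (EN M))) x (fderiv ℂ (fun p => L (σ p)) 0 e) := by
    intro e
    have h1 : ∀ᶠ y in 𝓝 (0 : ℂ × ℂ), σ y ∈ X \ D := by
      filter_upwards [hc.σ_mem, hσD] with y h1 h2
      exact ⟨h1, h2⟩
    have h2 := fc_tan_tr L (fc_tan_fderiv hc.σ_an h1 e)
    rw [hLx] at h2
    rw [fc_fderiv L hc.σ_an]
    exact h2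
  have hlin : ∀ e : ℂ × ℂ, fderiv ℂ (fun p => L (σ p)) 0 e =
      e.1 • fderiv ℂ (fun p => L (σ p)) 0 (1, 0) + e.2 • fderiv ℂ (fun p => L (σ p)) 0 (0, 1) := by
    intro e
    have h1 : e = e.1 • ((1 : ℂ), (0 : ℂ)) + e.2 • ((0 : ℂ), (1 : ℂ)) := by
      ext <;> simp
    conv_lhs => rw [h1]
    rw [map_add, map_smul, map_smul]
  have hx : x ∈ (L.symm ⁻¹' X : Set (EN M)) \ (L.symm ⁻¹' D : Set (EN M)) := ⟨hxX, hxD⟩
  have hxl : u (L.symm x) - (z + l) ∈ Λ := by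
    rw [← sub_sub]
    exact Λ.sub_mem hxz' (hle hl)
  rw [α'.add_smul (z + l) x hx hxl _ _ (hT e) (hT e'), α'.add_smul z x hx hxz _ _ (hT e) (hT e'), hlin e, hlin e',
    α'.det (z + l) x hx hxl _ _ (hT _) (hT _), α'.det z x hx hxz _ _ (hT _) (hT _), hkey]

theorem van_ext (L : V ≃L[ℂ] EN M) (hΛ : Lat Λ) (hbad : BadSet B Λ δ) (h0 : ∀ b ∈ B, 4 * δ ≤ ‖b‖) (h : DData X D Λ Γ u B α)
    {α' : TForm ((L.symm ⁻¹' X : Set (EN M)) \ (L.symm ⁻¹' D : Set (EN M))) Λ (fun x => u (L.symm x))} (hα : Agr L X D (Zs X D Λ u B) α α') :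
    VanZero α' := by
  intro x hx hxz v w hv hw
  obtain ⟨hxX, hxD⟩ := hx
  have hxX' : L.symm x ∈ X := hxX
  have hxD' : L.symm x ∉ D := hxD
  have hxz' : u (L.symm x) ∈ Λ := hxz
  have hxZ : L.symm x ∉ Zs X D Λ u B := by
    rintro (h1 | ⟨-, b, hb, h2⟩)
    · exact hxD' h1
    · have h3 : b ∈ Λ := by
        have h4 := Λ.sub_mem hxz' h2
        rwa [sub_sub_cancel] at h4
      have h4 := hbad.inv b hb (-b) (Λ.neg_mem h3)
      rw [add_neg_cancel] at h4
      have h5 := h0 0 h4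
      rw [norm_zero] at h5
      linarith [hbad.pos]
  rw [hα 0 x hxX' hxZ]
  have h5 : ∀ᶠ y in 𝓝 (L.symm x), y ∈ X \ D → y ∈ X \ Zs X D Λ u B := by
    filter_upwards [zs_closed hbad h.tor h.curve hxX' hxZ] with y h6 h7
    exact ⟨h7.1, h6⟩
  exact h.van (L.symm x) ⟨hxX', hxZ⟩ hxz' _ (fc_tan_mono h5 (tan_transport L (X := X \ D) hv)) _ (fc_tan_mono h5 (tan_transport L (X := X \ D) hw))

/-- a chart of an open part is a chart -/
private theorem fc_open {X W : Set V} {σ : ℂ × ℂ → V} {τ : V → ℂ × ℂ} (hc : IsChart X σ τ) (hW : ∀ᶠ y in 𝓝 (σ 0), y ∈ X ↔ y ∈ W) : IsChart W σ τ := by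
  refine ⟨hc.σ_an, ?_, hc.ne, hc.τ_an, hc.left, ?_, hc.inv⟩
  · filter_upwards [hc.σ_mem, hc.σ_an.continuousAt.tendsto.eventually hW] with p h1 h2
    exact h2.1 h1
  · filter_upwards [hc.right, hW] with y h1 h2 h3
    exact h1 (h2.2 h3)

/-- the chart at a point of a chart of the transported surface -/
private theorem fc_chart (L : V ≃L[ℂ] EN M) (hX0 : (0 : V) ∉ X) (χ : Pool.Agent.H14.PP.Chart ((L.symm ⁻¹' X : Set (EN M)) \ (L.symm ⁻¹' D : Set (EN M))))
    {p : ℂ × ℂ} (hp : p ∈ Metric.ball (0 : ℂ × ℂ) 2) :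
    IsChart (X \ D) (fun y => L.symm (χ.σ (p + y))) (fun x => χ.q (L x) - p) := by
  have hadd := fc_add p
  have hball : ∀ᶠ y in 𝓝 (0 : ℂ × ℂ), p + y ∈ Metric.ball (0 : ℂ × ℂ) 2 :=
    hadd.eventually (Metric.isOpen_ball.mem_nhds hp)
  have hanadd : AnalyticAt ℂ (fun y : ℂ × ℂ => p + y) 0 := analyticAt_const.add analyticAt_id
  have hσ0 : L (L.symm (χ.σ (p + 0))) = χ.σ p := by
    rw [ContinuousLinearEquiv.apply_symm_apply, add_zero]
  have hσX : ∀ y : ℂ × ℂ, p + y ∈ Metric.ball (0 : ℂ × ℂ) 2 → L.symm (χ.σ (p + y)) ∈ X \ D :=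
    fun y hy => (χ.σ_mem _ hy).1
  have hLt : Tendsto (fun x : V => L x) (𝓝 (L.symm (χ.σ (p + 0)))) (𝓝 (χ.σ p)) := by
    have := L.continuous.tendsto (L.symm (χ.σ (p + 0)))
    rwa [hσ0] at this
  have hU : ∀ᶠ x in 𝓝 (L.symm (χ.σ (p + 0))), L x ∈ χ.U :=
    hLt.eventually (χ.isOpen_U.mem_nhds (χ.σ_mem p hp).2.1)
  refine ⟨?_, ?_, ?_, ?_, ?_, ?_, ?_⟩
  · have h1 : AnalyticAt ℂ χ.σ (p + 0) := by
      rw [add_zero]
      exact χ.σ_an p hp
    have h2 : AnalyticAt ℂ (fun y => χ.σ (p + y)) 0 :=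
      AnalyticAt.comp (g := χ.σ) (f := fun y : ℂ × ℂ => p + y) h1 hanadd
    exact AnalyticAt.comp (g := fun y : EN M => L.symm y) (f := fun y => χ.σ (p + y))
      ((L.symm : EN M →L[ℂ] V).analyticAt _) h2
  · filter_upwards [hball] with y hy
    exact hσX y hy
  · intro h1
    have h2 : L.symm (χ.σ (p + 0)) ∈ X := (hσX 0 (by rwa [add_zero])).1
    have h3 : L.symm (χ.σ (p + 0)) = 0 := h1
    rw [h3] at h2
    exact hX0 h2
  · have h1 : AnalyticAt ℂ χ.q (L (L.symm (χ.σ (p + 0)))) := by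
      rw [hσ0]
      exact χ.q_an _ (χ.σ_mem p hp).2.1
    exact (AnalyticAt.comp (g := χ.q) (f := fun x : V => L x) h1
      ((L : V →L[ℂ] EN M).analyticAt _)).sub analyticAt_const
  · filter_upwards [hball] with y hy
    show χ.q (L (L.symm (χ.σ (p + y)))) - p = y
    rw [ContinuousLinearEquiv.apply_symm_apply, (χ.σ_mem _ hy).2.2]
    abel
  · filter_upwards [hU] with x hx hxX
    have hx' : L x ∈ (L.symm ⁻¹' X : Set (EN M)) \ (L.symm ⁻¹' D : Set (EN M)) := by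
      constructor
      · show L.symm (L x) ∈ X
        rw [ContinuousLinearEquiv.symm_apply_apply]
        exact hxX.1
      · show L.symm (L x) ∉ D
        rw [ContinuousLinearEquiv.symm_apply_apply]
        exact hxX.2
    obtain ⟨-, c, hc, hcx⟩ := χ.surj (L x) hx' hx
    refine ⟨c, hc, ?_⟩
    show x = c • L.symm (χ.σ (p + (χ.q (L x) - p)))
    have h1 : p + (χ.q (L x) - p) = χ.q (L x) := by abel
    rw [h1, ← map_smul, ← hcx, ContinuousLinearEquiv.symm_apply_apply]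
  · have h1 : ∀ᶠ z in 𝓝 (L.symm (χ.σ (p + 0)), (1 : ℂ)), L z.1 ∈ χ.U :=
      (continuous_fst.tendsto (L.symm (χ.σ (p + 0)), (1 : ℂ))).eventually hU
    have h2 : ∀ᶠ z in 𝓝 (L.symm (χ.σ (p + 0)), (1 : ℂ)), z.2 ≠ 0 :=
      (continuous_snd.tendsto (L.symm (χ.σ (p + 0)), (1 : ℂ))).eventually
        (isOpen_ne.mem_nhds one_ne_zero)
    filter_upwards [h1, h2] with z hz1 hz2
    show χ.q (L (z.2 • z.1)) - p = χ.q (L z.1) - p
    rw [map_smul, χ.q_smul _ hz1 _ hz2]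

theorem thin_ext (L : V ≃L[ℂ] EN M) (hΛ : Lat Λ) (hbad : BadSet B Λ δ) (h : DData X D Λ Γ u B α)
    {α' : TForm ((L.symm ⁻¹' X : Set (EN M)) \ (L.symm ⁻¹' D : Set (EN M))) Λ (fun x => u (L.symm x))} (hα : Agr L X D (Zs X D Λ u B) α α') :
    Thin α' := by
  intro χ υ p hp hυ hl ht
  have hadd := fc_add p
  have hball : ∀ᶠ y in 𝓝 (0 : ℂ × ℂ), p + y ∈ Metric.ball (0 : ℂ × ℂ) 2 :=
    hadd.eventually (Metric.isOpen_ball.mem_nhds hp)
  have hcD := fc_chart (D := D) L h.surf.zero χ hp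
  have hx0 : L.symm (χ.σ (p + 0)) ∈ X \ D := hcD.σ_mem.self_of_nhds
  have hcX : IsChart X (fun y => L.symm (χ.σ (p + y))) (fun x => χ.q (L x) - p) := by
    refine fc_open hcD ?_
    filter_upwards [h.curve.closed _ hx0.1 hx0.2] with y hy
    exact ⟨fun h1 => h1.1, fun h1 => ⟨h1, hy⟩⟩
  have hthin := (zs_thin hΛ hbad h.surf h.tor h.nonconst h.curve hcX).self_of_nhds
  obtain ⟨q, hq1, hq2, hq3, hq4, hq5, hq6⟩ := (hthin.and_eventually (hball.and ((hadd.eventually hl.eventually_nhds).and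
    ((hadd.eventually ht.eventually_nhds).and ((hadd.eventually hυ.eventually_analyticAt).and hball.eventually_nhds))))).exists
  have hq1' : L.symm (χ.σ (p + q)) ∉ Zs X D Λ u B := hq1
  have hcq := fc_chart (D := D) L h.surf.zero χ hq2
  have hxq : L.symm (χ.σ (p + q + 0)) ∈ X \ D := hcq.σ_mem.self_of_nhds
  have hxqZ : L.symm (χ.σ (p + q + 0)) ∉ Zs X D Λ u B := by rwa [add_zero]
  have hcZ : IsChart (X \ Zs X D Λ u B) (fun y => L.symm (χ.σ (p + q + y))) (fun x => χ.q (L x) - (p + q)) := by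
    refine fc_open hcq ?_
    filter_upwards [zs_closed hbad h.tor h.curve hxq.1 hxqZ] with y hy
    exact ⟨fun h1 => ⟨h1.1, hy⟩, fun h1 => ⟨h1.1, fun h2 => hy (Or.inl h2)⟩⟩
  have haddq := fc_add (p + q)
  have hυ1 : AnalyticAt ℂ (fun y => υ (p + q + y)) 0 := by
    refine AnalyticAt.comp (g := υ) (f := fun y : ℂ × ℂ => p + q + y) ?_ (analyticAt_const.add analyticAt_id)
    show AnalyticAt ℂ υ (p + q + 0)
    rwa [add_zero]
  refine h.thin _ _ _ hcZ hυ1 ?_ ?_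
  · exact haddq.eventually hq3
  · have hballq : ∀ᶠ y in 𝓝 (0 : ℂ × ℂ), p + q + y ∈ Metric.ball (0 : ℂ × ℂ) 2 :=
      haddq.eventually (Metric.isOpen_ball.mem_nhds hq2)
    filter_upwards [haddq.eventually hq4, hballq, hcZ.σ_mem] with y hy hyb hyZ
    have hyZ1 : L.symm (χ.σ (p + q + y)) ∈ X := hyZ.1
    have hyZ2 : L.symm (χ.σ (p + q + y)) ∉ Zs X D Λ u B := hyZ.2
    have h1 : HasFDerivAt χ.σ (fderiv ℂ χ.σ (p + q + y)) (p + q + y) :=
      (χ.σ_an _ hyb).differentiableAt.hasFDerivAt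
    have h2 : HasFDerivAt (fun y : ℂ × ℂ => p + q + y) (ContinuousLinearMap.id ℂ (ℂ × ℂ)) y :=
      (hasFDerivAt_id y).const_add (p + q)
    have h3 : HasFDerivAt (fun y => χ.σ (p + q + y)) (fderiv ℂ χ.σ (p + q + y)) y := by
      have := HasFDerivAt.comp (g := χ.σ) (f := fun y : ℂ × ℂ => p + q + y) y h1 h2
      rwa [ContinuousLinearMap.comp_id] at this
    have h4 : HasFDerivAt (fun y => L.symm (χ.σ (p + q + y)))
        ((L.symm : EN M →L[ℂ] V).comp (fderiv ℂ χ.σ (p + q + y))) y :=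
      HasFDerivAt.comp (g := fun y : EN M => L.symm y) (f := fun y => χ.σ (p + q + y)) y
        ((L.symm : EN M →L[ℂ] V).hasFDerivAt) h3
    rw [h4.fderiv]
    have h5 : α'.toFun (υ (p + q + y)) (χ.σ (p + q + y)) (fderiv ℂ χ.σ (p + q + y) (1, 0)) (fderiv ℂ χ.σ (p + q + y) (0, 1)) = 0 := hy
    rw [hα _ _ hyZ1 hyZ2] at h5
    exact h5

end Pool.Agent.H17L

end

section

/-!
# H17L StartLA: the geometric data of a projective surface with a curve

Model: H17N/Start.lean (`st_tmap`, `st_over`, `st_mem`, `st_tan`, the part `nonconst` of `udata_start`, private: copy).  `u₀ x = uE Λ u (LE N x)`.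

* `tmap_start`: `st_tmap` with `c₀ = 0`.  `nonconst_start`: the part `nonconst` of `udata_start`.
* `curve_start`: `sub`: `ZariskiClosedIn` gives `D ⊆ projVar P`; `mk_mem_projVar`.  `smul`: `mk (c • x) = mk x`.  `closed`: `x ∈ cone P`, its point is not in `D`, so by `ZariskiClosedIn` some homogeneous polynomial which vanishes on `D` does not vanish at `x`, hence not near `x`.
  `smooth`: `x ∈ cnD D`; `IsLogAlong` gives an adapted chart `σ, τ` at the point of `x`, `x = c • σ 0`; take `c • σ` and `y ↦ τ (c⁻¹ • y)` (`IsChart.scale`; the fields of `IsChart` from those of `IsAdaptedChart`, `mk_mem_projVar`), `AD` from `mem`; `g` from `exists_lu` (H17N/ResU).  If `g (s, 0) = 0` for `s` near `0` then `u` is constant on `D` near the point of `x` (the points of `D` near it are the points of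
  `σ (s, 0)`, by `right`, `mem`; `u₀ (σ (s, 0)) - u₀ (σ 0) ∈ Λ`), contradiction to `NowhereConstant D u`.
-/

set_option autoImplicit false

open Topology Filter MvPolynomial

namespace Pool.Agent.H17L

attribute [-instance] ProperSMul.toContinuousSMul

open Pool.Agent.H17 (PN VanishesAt HolomorphicInto ZariskiClosedIn)
open Pool.Agent.H62.FC (Homog)
open Pool.Agent.H17BP (Surface IsChart Tan Pr HolP ResN)
open Pool.Agent.H36.BP (EN)
open Pool.Agent.H62.EF (Lat)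
open Pool.Agent.H17EF (projVar IsHolomorphicMap coneE uE LE mk_mem_projVar sub_mem_iff uE_eq)
open Pool.Agent.H13.SM (cone)
open Pool.Agent.H17G (IsTwoForm IsNowhereZero VanishesOver)
open Pool.Agent.H17N (TMap LU RU TF NonConst ThinF FibB NowhereConstant)

/-- the cone over a subset of the projective space -/
def cnD {N : ℕ} (D : Set (PN N)) : Set (Fin (N + 1) → ℂ) := {x | ∃ h : x ≠ 0, Projectivization.mk ℂ x h ∈ D}

variable {N : ℕ} {P : Ideal (MvPolynomial (Fin (N + 1)) ℂ)} {Λ : AddSubgroup ℂ} {u : PN N → ℂ ⧸ Λ} {D : Set (PN N)}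

private theorem sla_mem {x : Fin (N + 1) → ℂ} : LE N x ∈ coneE P ↔ x ∈ cone P := by
  show (LE N).symm (LE N x) ∈ cone P ↔ _
  rw [ContinuousLinearEquiv.symm_apply_apply]

private theorem sla_tau {V : Type} [NormedAddCommGroup V] [NormedSpace ℂ V] {X : Set V} {σ : ℂ × ℂ → V} {τ : V → ℂ × ℂ} (h : IsChart X σ τ) :
    Tendsto τ (𝓝 (σ 0)) (𝓝 0) := by
  have h1 := h.τ_an.continuousAt.tendsto
  rwa [h.left.self_of_nhds] at h1

private theorem sla_eval {Q : MvPolynomial (Fin (N + 1)) ℂ} {n : ℕ} (hQ : Q.IsHomogeneous n) (a : ℂ) (x : Fin (N + 1) → ℂ) :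
    eval (a • x) Q = a ^ n * eval x Q := by
  rw [eval_eq, eval_eq, Finset.mul_sum]
  refine Finset.sum_congr rfl fun d hd => ?_
  have h1 : ∑ i ∈ d.support, d i = n := by
    have h2 := hQ (mem_support_iff.1 hd)
    rw [← h2, Finsupp.weight_apply, Finsupp.sum]
    simp
  have h2 : ∏ i ∈ d.support, (a • x) i ^ d i = a ^ n * ∏ i ∈ d.support, x i ^ d i := by
    rw [← h1, ← Finset.prod_pow_eq_pow_sum, ← Finset.prod_mul_distrib]
    refine Finset.prod_congr rfl fun i _ => ?_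
    rw [Pi.smul_apply, smul_eq_mul, mul_pow]
  rw [h2]
  ring

private theorem sla_val {X : Set (Fin (N + 1) → ℂ)} {u₀ : (Fin (N + 1) → ℂ) → ℂ} (hT : TMap X Λ u₀) {σ : ℂ × ℂ → Fin (N + 1) → ℂ}
    {g : ℂ × ℂ → ℂ} {p : ℂ × ℂ} {y : Fin (N + 1) → ℂ} {c : ℂ} (h4 : σ p ∈ X) (hc0 : c ≠ 0) (h5 : y = c • σ p)
    (h2 : u₀ (σ p) - u₀ (σ 0) - g p ∈ Λ) (h3 : g p = 0) : u₀ y - u₀ (σ 0) ∈ Λ := by
  have h7 := hT.smul _ h4 c hc0
  rw [← h5] at h7
  rw [h3] at h2
  have h8 := Λ.add_mem h7 h2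
  have h9 : u₀ y - u₀ (σ 0) = u₀ y - u₀ (σ p) + (u₀ (σ p) - u₀ (σ 0) - 0) := by ring
  rw [h9]
  exact h8

private theorem sla_eq {x y : Fin (N + 1) → ℂ} (hy : y ≠ 0) (hx : x ≠ 0) (h6 : uE Λ u (LE N y) - uE Λ u (LE N x) ∈ Λ) :
    u (Projectivization.mk ℂ y hy) = u (Projectivization.mk ℂ x hx) := by
  have hL1 : (LE N).symm (LE N y) ≠ 0 := by rw [ContinuousLinearEquiv.symm_apply_apply]; exact hy
  have hL2 : (LE N).symm (LE N x) ≠ 0 := by rw [ContinuousLinearEquiv.symm_apply_apply]; exact hx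
  rw [sub_mem_iff, uE_eq Λ u hL1, uE_eq Λ u hL2] at h6
  simpa only [ContinuousLinearEquiv.symm_apply_apply] using h6

theorem tmap_start (hP : Homog P) (hu : IsHolomorphicMap (projVar P) Λ u) : TMap (cone P) Λ (fun x => uE Λ u (LE N x)) := by
  have hT := Pool.Agent.H17EF.torusMap hP hu
  constructor
  · intro x hx c hc
    have h1 := hT.smul (LE N x) (sla_mem.2 hx) c hc
    rw [← map_smul] at h1
    exact h1
  · intro x hx
    obtain ⟨v, hv, hv'⟩ := hT.loc (LE N x) (sla_mem.2 hx)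
    have hL : AnalyticAt ℂ (fun y : Fin (N + 1) → ℂ => LE N y) x := (LE N : (Fin (N + 1) → ℂ) →L[ℂ] EN N).analyticAt x
    refine ⟨fun y => v (LE N y), AnalyticAt.fun_comp (g := v) hv hL, ?_⟩
    filter_upwards [hL.continuousAt.tendsto.eventually hv'] with y hy hyX
    exact hy (sla_mem.2 hyX)

theorem nonconst_start (hP : Homog P) (hS : Surface (cone P)) (hΛ : Lat Λ) (hu : IsHolomorphicMap (projVar P) Λ u)
    (hnon : NowhereConstant (projVar P) u) : NonConst (cone P) Λ (fun x => uE Λ u (LE N x)) := by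
  have hT := tmap_start hP hu
  intro σ τ g hc hg hg0
  have hx : σ 0 ∈ cone P := hc.σ_mem.self_of_nhds
  refine (hnon (σ 0) hx.1 ((mk_mem_projVar hP hx.1).2 hx)) ?_
  filter_upwards [hc.right, (sla_tau hc).eventually hg.2.2, (sla_tau hc).eventually hg0, (sla_tau hc).eventually hc.σ_mem] with y h1 h2 h3 h4
  rintro ⟨hy, hyX, hne⟩
  apply hne
  have hyc : y ∈ cone P := (mk_mem_projVar hP hy).1 hyX
  obtain ⟨c, hc0, h5⟩ := h1 hyc
  have h6 := sla_val hT h4 hc0 h5 h2 h3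
  exact sla_eq hy hx.1 h6

theorem curve_start (hP : Homog P) (hS : Surface (cone P)) (hΛ : Lat Λ) (hu : IsHolomorphicMap (projVar P) Λ u) (hD : ZariskiClosedIn (projVar P) D)
    (hDn : NowhereConstant D u) {Ω : ℂ → (Fin (N + 1) → ℂ) → (Fin (N + 1) → ℂ) → (Fin (N + 1) → ℂ) → ℂ} (hlog : IsLogAlong (projVar P) D Λ u Ω) :
    CurveD (cone P) (cnD D) Λ (fun x => uE Λ u (LE N x)) := by
  have hT := tmap_start hP hu
  have hsub : D ⊆ projVar P := by
    obtain ⟨S, -, rfl⟩ := hD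
    exact fun x hx => hx.1
  have hsm : ∀ x ∈ cnD D, ∀ c : ℂ, c ≠ 0 → c • x ∈ cnD D := by
    rintro x ⟨hx, hxD⟩ c hc
    refine ⟨smul_ne_zero hc hx, ?_⟩
    have h1 : Projectivization.mk ℂ (c • x) (smul_ne_zero hc hx) = Projectivization.mk ℂ x hx := by
      rw [Projectivization.mk_eq_mk_iff']
      exact ⟨c, rfl⟩
    rw [h1]
    exact hxD
  refine ⟨?_, hsm, ?_, ?_⟩
  · rintro x ⟨hx, hxD⟩
    exact (mk_mem_projVar hP hx).1 (hsub hxD)
  · -- closed
    intro x hx hxD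
    obtain ⟨S, hS', rfl⟩ := hD
    have h1 : ∃ Q ∈ S, ¬ VanishesAt Q (Projectivization.mk ℂ x hx.1) := by
      by_contra hcon
      push Not at hcon
      exact hxD ⟨hx.1, (mk_mem_projVar hP hx.1).2 hx, hcon⟩
    obtain ⟨Q, hQ, hQv⟩ := h1
    obtain ⟨n, hn⟩ := hS' Q hQ
    have h2 : ∀ (y : Fin (N + 1) → ℂ) (hy : y ≠ 0), VanishesAt Q (Projectivization.mk ℂ y hy) ↔ eval y Q = 0 := by
      intro y hy
      obtain ⟨a, ha, hrep⟩ := Pool.Agent.H36.BP.rep_mk hy
      unfold VanishesAt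
      rw [hrep, sla_eval hn, mul_eq_zero, or_iff_right (pow_ne_zero n ha)]
    have h3 : eval x Q ≠ 0 := fun h => hQv ((h2 x hx.1).2 h)
    have h4 : Continuous fun y : Fin (N + 1) → ℂ => eval y Q := MvPolynomial.continuous_eval Q
    filter_upwards [h4.continuousAt.eventually_ne h3] with y hy
    rintro ⟨hy0, -, hyv⟩
    exact hy ((h2 y hy0).1 (hyv Q hQ))
  · -- smooth
    rintro x ⟨hx, hxD⟩
    obtain ⟨σ, τ, hA, -⟩ := hlog _ hxD
    obtain ⟨hσ0, hcen⟩ := hA.center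
    obtain ⟨c, hc⟩ : ∃ c : ℂ, c • σ 0 = x := by
      rw [eq_comm, Projectivization.mk_eq_mk_iff'] at hcen
      exact hcen
    have hc0 : c ≠ 0 := by
      rintro rfl
      rw [zero_smul] at hc
      exact hx hc.symm
    have hch0 : IsChart (cone P) σ τ := by
      refine ⟨hA.analytic, ?_, hσ0, hA.analytic_inv, hA.left, ?_, hA.homogeneous⟩
      · filter_upwards [hA.mem] with p hp
        obtain ⟨h1, h2, -⟩ := hp
        exact (mk_mem_projVar hP h1).1 h2
      · filter_upwards [hA.right] with y hy hyX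
        exact hy hyX.1 ((mk_mem_projVar hP hyX.1).2 hyX)
    have hch := hch0.scale hS.smul hc0
    have hAD : AD (cnD D) (fun p => c • σ p) := by
      unfold AD
      filter_upwards [hA.mem] with p hp
      obtain ⟨h1, h2, h3⟩ := hp
      rw [← h3]
      constructor
      · intro h4
        obtain ⟨h5, h6⟩ := hsm _ h4 c⁻¹ (inv_ne_zero hc0)
        have h7 : Projectivization.mk ℂ (c⁻¹ • c • σ p) h5 = Projectivization.mk ℂ (σ p) h1 := by
          rw [Projectivization.mk_eq_mk_iff']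
          exact ⟨c⁻¹ * c, by rw [smul_smul]⟩
        rw [h7] at h6
        exact h6
      · intro h4
        exact hsm _ ⟨h1, h4⟩ c hc0
    obtain ⟨g, hg⟩ := Pool.Agent.H17N.exists_lu hT hch
    refine ⟨fun p => c • σ p, fun y => τ (c⁻¹ • y), g, hch, hc, hAD, hg, ?_⟩
    intro hg0
    -- the map is constant on `D` near `x`
    obtain ⟨σ', hσ'⟩ : ∃ σ' : ℂ × ℂ → Fin (N + 1) → ℂ, σ' = fun p => c • σ p := ⟨_, rfl⟩
    obtain ⟨τ', hτ'⟩ : ∃ τ' : (Fin (N + 1) → ℂ) → ℂ × ℂ, τ' = fun y => τ (c⁻¹ • y) := ⟨_, rfl⟩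
    rw [← hσ', ← hτ'] at hch
    rw [← hσ'] at hAD hg
    have hx' : σ' 0 = x := by rw [hσ']; exact hc
    have hfst : Tendsto (fun p : ℂ × ℂ => p.1) (𝓝 0) (𝓝 0) := by
      have h1 : ContinuousAt (fun p : ℂ × ℂ => p.1) 0 := continuousAt_fst
      exact h1.tendsto
    have hxc : σ' 0 ∈ cone P := hch.σ_mem.self_of_nhds
    refine (hDn x hx hxD) ?_
    have hr := hch.right
    have ht := sla_tau hch
    rw [hx'] at hr ht
    filter_upwards [hr, ht.eventually hg.2.2, ht.eventually (hfst.eventually hg0), ht.eventually hch.σ_mem, ht.eventually hAD] with y h1 h2 h3 h4 h5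
    rintro ⟨hy, hyD, hne⟩
    apply hne
    have hyc : y ∈ cone P := (mk_mem_projVar hP hy).1 (hsub hyD)
    obtain ⟨a, ha0, h6⟩ := h1 hyc
    have h7 : σ' (τ' y) ∈ cnD D := by
      have h8 := hsm y ⟨hy, hyD⟩ a⁻¹ (inv_ne_zero ha0)
      have h9 : a⁻¹ • y = σ' (τ' y) := by
        conv_lhs => rw [h6]
        rw [smul_smul, inv_mul_cancel₀ ha0, one_smul]
      rwa [h9] at h8
    have h8 : (τ' y).2 = 0 := h5.1 h7
    have h9 : g (τ' y) = 0 := by
      have h10 : τ' y = ((τ' y).1, 0) := Prod.ext rfl h8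
      rw [h10]
      exact h3
    have h10 := sla_val hT h4 ha0 h6 h2 h9
    rw [hx'] at h10
    exact sla_eq hy hx h10

end Pool.Agent.H17L

end
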