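import Pool.Agent.H94.CB.H36.LB.PNDefs
import Pool.Agent.H94.CB.M175
import Pool.Agent.H94.CB.M198
import Pool.Agent.H94.CB.M245
import Pool.Agent.H94.CB.M77
import Pool.Agent.H94.CB.M85

/-! The parts of this file: H17L.StartLB, H19E.LimA. -/

section

/-!
# H17L StartLB: all the data of a projective surface with a curve and a form

Model: `udata_start` in H17N/Start.lean.  `u₀ x = uE Λ u (LE N x) - c₀`, `B' = {b | b + c₀ ∈ B}`, `Z = Zs (cone P) (cnD D) Λ u₀ B'`.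

* `surf`, `tor`, `nonconst`, `curve`: `hS`, StartLA, the shift by `c₀` changes nothing (`LU` is the same).  `crit`, `good`, `fib`: from the hypotheses, shifted (`RU`, `TrV` do not change).
* `form`: `Over (projVar P \ D) Λ u (z + c₀) x ↔ x ∈ cone P ∧ x ∉ cnD D ∧ u₀ x - z ∈ Λ` (as `st_over`); a tangent vector of `cone P \ Z` at `x` is `IsTangent (projVar P \ D) x` (as `st_tan`); the fields of `TF` from the fields of `IsTwoForm`.  `per`, `van`: the same.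
* `log`: `x ∈ cone P`.  If `x ∉ cnD D`: any chart `σ` at `x`; for a lift `υ` of `u₀`: `σ p ∈ cone P`, `σ p ∉ cnD D` near `0`, so `g = cf α υ σ` is analytic at `0` (`holomorphic`, with `υ + c₀`).  If `x ∈ cnD D`: the adapted chart `c • σ` of `IsLogAlong` (as in `curve_start`); for a lift `υ`: `Over (projVar P) Λ u (υ p + c₀) (σ p)` near `0`, so there is `g`; for `σ p ∉ Z`, `p.2 ≠ 0` and
  `p.2 * cf α υ (c • σ) p = g p` (`homogeneous` and `fderiv (c • σ) = c • fderiv σ`).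
* `thin`: as in `udata_start`: if the coefficient is `0` near `0` in a chart `σ` of `cone P \ Z` then `Ω` is `0` at all `(z, x)` near `(υ 0 + c₀, σ 0)` (`st_tanv`: the tangent vectors), contradiction to `IsNowhereZero (projVar P \ D)`.
-/

set_option autoImplicit false

open Topology Filter MvPolynomial

namespace Pool.Agent.H17L

attribute [-instance] ProperSMul.toContinuousSMul

open Pool.Agent.H17 (PN VanishesAt HolomorphicInto ZariskiClosedIn)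
open Pool.Agent.H62.FC (Homog)
open Pool.Agent.H17BP (Surface IsChart Tan Pr HolP ResN)
open Pool.Agent.H36.BP (EN)
open Pool.Agent.H62.EF (Lat)
open Pool.Agent.H17EF (projVar IsHolomorphicMap coneE uE LE mk_mem_projVar sub_mem_iff uE_eq)
open Pool.Agent.H13.SM (cone)
open Pool.Agent.H17G (IsTwoForm IsNowhereZero VanishesOver)
open Pool.Agent.H17N (TMap LU RU TF NonConst ThinF FibB NowhereConstant)

variable {N : ℕ} {P : Ideal (MvPolynomial (Fin (N + 1)) ℂ)} {Λ Γ : AddSubgroup ℂ} {u : PN N → ℂ ⧸ Λ} {D : Set (PN N)}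

private theorem slb_over (hP : Homog P) {z c₀ : ℂ} {x : Fin (N + 1) → ℂ} :
    Pool.Agent.H17G.Over (projVar P) Λ u (z + c₀) x ↔ x ∈ cone P ∧ uE Λ u (LE N x) - c₀ - z ∈ Λ := by
  have h := Pool.Agent.H17G.over_iff (Λ := Λ) (u := u) hP (z := z + c₀) (x := LE N x)
  rw [ContinuousLinearEquiv.symm_apply_apply] at h
  rw [h]
  have h1 : LE N x ∈ coneE P ↔ x ∈ cone P := by
    show (LE N).symm (LE N x) ∈ cone P ↔ _
    rw [ContinuousLinearEquiv.symm_apply_apply]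
  rw [h1, show uE Λ u (LE N x) - (z + c₀) = uE Λ u (LE N x) - c₀ - z by ring]

private theorem slb_overD (hP : Homog P) {z c₀ : ℂ} {x : Fin (N + 1) → ℂ} :
    Pool.Agent.H17G.Over (projVar P \ D) Λ u (z + c₀) x ↔ (x ∈ cone P ∧ x ∉ cnD D) ∧ uE Λ u (LE N x) - c₀ - z ∈ Λ := by
  constructor
  · rintro ⟨h, h1, h2⟩
    obtain ⟨h3, h4⟩ := (slb_over hP).1 ⟨h, h1.1, h2⟩
    exact ⟨⟨h3, fun ⟨_, h5⟩ => h1.2 h5⟩, h4⟩
  · rintro ⟨⟨h1, h2⟩, h3⟩
    obtain ⟨h, h4, h5⟩ := (slb_over hP).2 ⟨h1, h3⟩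
    exact ⟨h, ⟨h4, fun h6 => h2 ⟨h, h6⟩⟩, h5⟩

private theorem slb_tan (hP : Homog P) {x v : Fin (N + 1) → ℂ} :
    Pool.Agent.H17G.IsTangent (projVar P \ D) x v ↔ v ∈ Tan (cone P \ cnD D) x := by
  constructor
  · rintro ⟨γ, h1, h2, h3, h4⟩
    refine ⟨γ, h1, ?_, h2, h3⟩
    filter_upwards [h4] with z hz
    obtain ⟨h5, h6⟩ := hz
    exact ⟨(mk_mem_projVar hP h5).1 h6.1, fun ⟨_, h7⟩ => h6.2 h7⟩
  · rintro ⟨γ, h1, h2, h3, h4⟩
    refine ⟨γ, h1, h3, h4, ?_⟩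
    filter_upwards [h2] with z hz
    exact ⟨hz.1.1, (mk_mem_projVar hP hz.1.1).2 hz.1, fun h7 => hz.2 ⟨hz.1.1, h7⟩⟩

private theorem slb_tan_mono {V : Type} [NormedAddCommGroup V] [NormedSpace ℂ V] {X Y : Set V} (h : X ⊆ Y) {x v : V} (hv : v ∈ Tan X x) :
    v ∈ Tan Y x := by
  obtain ⟨γ, h1, h2, h3, h4⟩ := hv
  exact ⟨γ, h1, h2.mono fun _ hz => h hz, h3, h4⟩

private theorem slb_lu {V : Type} [NormedAddCommGroup V] [NormedSpace ℂ V] {u₀ : V → ℂ} {c₀ : ℂ} {σ : ℂ × ℂ → V} {g : ℂ × ℂ → ℂ} :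
    LU Λ (fun x => u₀ x - c₀) σ g ↔ LU Λ u₀ σ g := by
  unfold LU
  simp only [sub_sub_sub_cancel_right]

section gen

variable {V : Type} [NormedAddCommGroup V] [NormedSpace ℂ V] {X Z : Set V} {σ σ' : ℂ × ℂ → V} {τ τ' : V → ℂ × ℂ}

private theorem slb_tau (h : IsChart X σ τ) : Tendsto τ (𝓝 (σ 0)) (𝓝 0) := by
  have h1 := h.τ_an.continuousAt.tendsto
  rwa [h.left.self_of_nhds] at h1

/-- the derivatives of a parametrisation are tangent vectors -/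
private theorem slb_par {p : ℂ × ℂ} (h1 : AnalyticAt ℂ σ p) (h2 : ∀ᶠ y in 𝓝 p, σ y ∈ X) (e : ℂ × ℂ) : fderiv ℂ σ p e ∈ Tan X (σ p) := by
  have h0 : p + (0 : ℂ) • e = p := by rw [zero_smul, add_zero]
  have h3 : AnalyticAt ℂ (fun z : ℂ => p + z • e) 0 := by fun_prop
  have h4 : Tendsto (fun z : ℂ => p + z • e) (𝓝 0) (𝓝 p) := by
    have h5 := h3.continuousAt.tendsto
    rwa [h0] at h5
  refine ⟨fun z => σ (p + z • e), AnalyticAt.fun_comp (g := σ) (by rw [h0]; exact h1) h3, h4.eventually h2, by simp only [h0], ?_⟩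
  have h5 : HasFDerivAt σ (fderiv ℂ σ p) (p + (0 : ℂ) • e) := by
    rw [h0]
    exact h1.differentiableAt.hasFDerivAt
  have h6 : HasDerivAt (fun z : ℂ => p + z • e) e 0 := by
    have h7 := ((hasDerivAt_id (0 : ℂ)).smul_const e).const_add p
    simpa using h7
  exact (h5.comp_hasDerivAt (0 : ℂ) h6).deriv

/-- the tangent vectors at the points near `σ 0` -/
private theorem slb_tanv [FiniteDimensional ℂ V] (h : IsChart X σ τ) : ∀ᶠ y in 𝓝 (σ 0), y ∈ X → ∀ v ∈ Tan X y, ∀ c : ℂ, y = c • σ (τ y) → c ≠ 0 →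
    ∃ (e : ℂ × ℂ) (a : ℂ), c⁻¹ • v = fderiv ℂ σ (τ y) e + a • σ (τ y) := by
  have : CompleteSpace V := FiniteDimensional.complete ℂ V
  filter_upwards [h.τ_an.eventually_analyticAt, (slb_tau h).eventually h.σ_an.eventually_analyticAt, eventually_eventually_nhds.2 h.right,
    (slb_tau h).eventually (h.σ_an.continuousAt.eventually_ne h.ne)] with y h1 h2 h3 h4 hyX v hv c hyc hc
  obtain ⟨F, hF, hFX, hF0, hFv⟩ := hv
  obtain ⟨L, hL⟩ : ∃ L : V →L[ℂ] ℂ, L (σ (τ y)) ≠ 0 := by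
    obtain ⟨L, hL⟩ := exists_dual_vector ℂ (σ (τ y)) (norm_ne_zero_iff.mpr h4)
    refine ⟨L, ?_⟩
    rw [hL.2]
    simpa using h4
  have hτF : AnalyticAt ℂ (fun z => τ (F z)) 0 := AnalyticAt.fun_comp (g := τ) (by rw [hF0]; exact h1) hF
  have hσF : AnalyticAt ℂ (fun z => σ (τ (F z))) 0 := AnalyticAt.fun_comp (g := σ) (by rw [hF0]; exact h2) hτF
  have hLσ : AnalyticAt ℂ (fun z => L (σ (τ (F z)))) 0 := AnalyticAt.fun_comp (g := fun x => L x) (L.analyticAt _) hσF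
  have hLF : AnalyticAt ℂ (fun z => L (F z)) 0 := AnalyticAt.fun_comp (g := fun x => L x) (L.analyticAt _) hF
  have hL0 : L (σ (τ (F 0))) ≠ 0 := by rw [hF0]; exact hL
  have hg : AnalyticAt ℂ (fun z => L (F z) / L (σ (τ (F z)))) 0 := hLF.div hLσ hL0
  have hFt : Tendsto F (𝓝 0) (𝓝 y) := by
    have h5 := hF.continuousAt.tendsto
    rwa [hF0] at h5
  have hev : F =ᶠ[𝓝 0] fun z => (L (F z) / L (σ (τ (F z)))) • σ (τ (F z)) := by
    filter_upwards [hFt.eventually h3, hFX, hLσ.continuousAt.eventually_ne hL0] with z g1 g2 g3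
    obtain ⟨a, ha, g4⟩ := g1 g2
    have g5 : L (F z) = a * L (σ (τ (F z))) := by
      conv_lhs => rw [g4]
      rw [map_smul, smul_eq_mul]
    rw [g5, mul_div_cancel_right₀ _ g3]
    exact g4
  have hg0 : L (F 0) / L (σ (τ (F 0))) = c := by
    rw [hF0]
    have g5 : L y = c * L (σ (τ y)) := by
      conv_lhs => rw [hyc]
      rw [map_smul, smul_eq_mul]
    rw [g5, mul_div_cancel_right₀ _ hL]
  have hd1 : HasDerivAt (fun z => σ (τ (F z))) (fderiv ℂ σ (τ y) (deriv (fun z => τ (F z)) 0)) 0 := by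
    have g1 : HasFDerivAt σ (fderiv ℂ σ (τ y)) (τ (F 0)) := by
      rw [hF0]
      exact h2.differentiableAt.hasFDerivAt
    exact g1.comp_hasDerivAt (0 : ℂ) hτF.differentiableAt.hasDerivAt
  have hd2 := hg.differentiableAt.hasDerivAt.smul hd1
  have hd3 : HasDerivAt F v 0 := by
    rw [← hFv]
    exact hF.differentiableAt.hasDerivAt
  have hd4 := hd3.unique (hd2.congr_of_eventuallyEq hev)
  refine ⟨deriv (fun z => τ (F z)) 0, c⁻¹ * deriv (fun z => L (F z) / L (σ (τ (F z)))) 0, ?_⟩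
  rw [hd4, hg0, hF0, smul_add, smul_smul, smul_smul, inv_mul_cancel₀ hc, one_smul]

/-- comparison of a chart of an invariant subset with a chart of the surface -/
private theorem slb_trans (h : IsChart (X \ Z) σ τ) (h' : IsChart X σ' τ') (h0 : σ' 0 = σ 0) :
    ∀ᶠ p in 𝓝 (0 : ℂ × ℂ), τ (σ' (τ' (σ p))) = p ∧ ∃ c : ℂ, c ≠ 0 ∧ σ p = c • σ' (τ' (σ p)) := by
  obtain ⟨L, hL⟩ : ∃ L : V →L[ℂ] ℂ, L (σ 0) ≠ 0 := by
    obtain ⟨L, hL⟩ := exists_dual_vector ℂ (σ 0) (norm_ne_zero_iff.mpr h.ne)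
    refine ⟨L, ?_⟩
    rw [hL.2]
    simpa using h.ne
  have hσ : Tendsto σ (𝓝 0) (𝓝 (σ 0)) := h.σ_an.continuousAt.tendsto
  have hσ' : Tendsto σ' (𝓝 0) (𝓝 (σ 0)) := by
    have := h'.σ_an.continuousAt.tendsto
    rwa [h0] at this
  have hτ' : Tendsto τ' (𝓝 (σ 0)) (𝓝 0) := by
    have := h'.τ_an.continuousAt.tendsto
    rwa [h'.left.self_of_nhds, h0] at this
  have hθ' : Tendsto (fun p => σ' (τ' (σ p))) (𝓝 0) (𝓝 (σ 0)) := hσ'.comp (hτ'.comp hσ)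
  have h1 : Tendsto (fun p => L (σ p)) (𝓝 0) (𝓝 (L (σ 0))) := (L.continuous.tendsto _).comp hσ
  have h2 : Tendsto (fun p => L (σ' (τ' (σ p)))) (𝓝 0) (𝓝 (L (σ 0))) := (L.continuous.tendsto _).comp hθ'
  have h3 : Tendsto (fun p => (σ p, L (σ' (τ' (σ p))) / L (σ p))) (𝓝 0) (𝓝 (σ 0, (1 : ℂ))) := by
    have := h2.div h1 hL
    rw [div_self hL] at this
    exact hσ.prodMk_nhds this
  have h4 : ∀ᶠ y in 𝓝 (σ 0), y ∈ X → ∃ c : ℂ, c ≠ 0 ∧ y = c • σ' (τ' y) := by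
    rw [← h0]
    exact h'.right
  filter_upwards [hσ.eventually h4, h.σ_mem, h3.eventually h.inv, h.left, h1.eventually_ne hL, h2.eventually_ne hL]
    with p g1 g2 g3 g4 g5 g6
  obtain ⟨c, hc, g7⟩ := g1 g2.1
  have g8 : L (σ p) = c * L (σ' (τ' (σ p))) := by
    conv_lhs => rw [g7]
    rw [map_smul, smul_eq_mul]
  have g9 : L (σ' (τ' (σ p))) / L (σ p) = c⁻¹ := by
    rw [div_eq_iff g5, g8, ← mul_assoc, inv_mul_cancel₀ hc, one_mul]
  have g10 : σ' (τ' (σ p)) = c⁻¹ • σ p := by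
    have := congrArg (fun v => c⁻¹ • v) g7
    simp only [smul_smul, inv_mul_cancel₀ hc, one_smul] at this
    exact this.symm
  simp only [g9] at g3
  refine ⟨?_, c, hc, g7⟩
  rw [g10, g3, g4]

/-- the chart of an invariant subset shows that it is open near the point -/
private theorem slb_open (hX : Surface X) (hZ : ∀ x ∈ X, ∀ c : ℂ, c ≠ 0 → x ∈ Z → c • x ∈ Z) (h : IsChart (X \ Z) σ τ) :
    ∀ᶠ y in 𝓝 (σ 0), y ∈ X → y ∉ Z := by
  obtain ⟨σ', τ', h', h0⟩ := hX.chart (σ 0) h.σ_mem.self_of_nhds.1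
  have htr := slb_trans h h' h0
  have hτ0 : τ' (σ 0) = 0 := by
    have := h'.left.self_of_nhds
    rwa [h0] at this
  have hθ : AnalyticAt ℂ (fun p => τ' (σ p)) 0 :=
    AnalyticAt.fun_comp (g := τ') (by rw [← h0]; exact h'.τ_an) h.σ_an
  have hκ : AnalyticAt ℂ (fun p => τ (σ' p)) 0 :=
    AnalyticAt.fun_comp (g := τ) (by rw [h0]; exact h.τ_an) h'.σ_an
  have hsurj : (fderiv ℂ (fun p => τ' (σ p)) 0).range = ⊤ := by
    rw [LinearMap.range_eq_top]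
    have hinj : Function.Injective (fderiv ℂ (fun p => τ' (σ p)) 0) := by
      have h1 : HasFDerivAt (fun p => τ' (σ p)) (fderiv ℂ (fun p => τ' (σ p)) 0) 0 := hθ.differentiableAt.hasFDerivAt
      have h2 : HasFDerivAt (fun p => τ (σ' p)) (fderiv ℂ (fun p => τ (σ' p)) 0) (τ' (σ 0)) := by
        rw [hτ0]
        exact hκ.differentiableAt.hasFDerivAt
      have h3 := h2.comp (0 : ℂ × ℂ) h1
      have h4 : HasFDerivAt (fun p : ℂ × ℂ => p) (ContinuousLinearMap.id ℂ (ℂ × ℂ)) 0 := hasFDerivAt_id 0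
      have h5 : (fun p => τ (σ' (τ' (σ p)))) =ᶠ[𝓝 0] fun p => p := htr.mono fun p hp => hp.1
      have h6 := (h4.congr_of_eventuallyEq h5).unique h3
      intro v w hvw
      have h7 := DFunLike.congr_fun h6 v
      have h8 := DFunLike.congr_fun h6 w
      simp only [ContinuousLinearMap.coe_id', id_eq, ContinuousLinearMap.comp_apply] at h7 h8
      rw [h7, h8, hvw]
    exact (LinearMap.injective_iff_surjective (f := (fderiv ℂ (fun p => τ' (σ p)) 0 : (ℂ × ℂ) →ₗ[ℂ] (ℂ × ℂ)))).1 hinj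
  have hmap : Filter.map (fun p => τ' (σ p)) (𝓝 0) = 𝓝 (τ' (σ 0)) :=
    (hθ.hasStrictFDerivAt).map_nhds_eq_of_surj hsurj
  rw [hτ0] at hmap
  have hev : ∀ᶠ p in 𝓝 (0 : ℂ × ℂ), σ' p ∉ Z := by
    rw [← hmap, Filter.eventually_map]
    have hσ'm : ∀ᶠ p in 𝓝 (0 : ℂ × ℂ), σ' (τ' (σ p)) ∈ X := by
      have h1 : Tendsto (fun p => τ' (σ p)) (𝓝 0) (𝓝 0) := by
        have := hθ.continuousAt.tendsto
        rwa [hτ0] at this
      exact h1.eventually h'.σ_mem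
    filter_upwards [htr, h.σ_mem, hσ'm] with p h1 h2 h3 h4
    obtain ⟨-, c, hc, h5⟩ := h1
    apply h2.2
    rw [h5]
    exact hZ _ h3 c hc h4
  have hr := h'.right
  have ht := (slb_tau h').eventually hev
  rw [h0] at hr ht
  filter_upwards [hr, ht] with y h1 h2 hyX hyZ
  obtain ⟨c, hc, h3⟩ := h1 hyX
  apply h2
  have h4 : σ' (τ' y) = c⁻¹ • y := by
    conv_rhs => rw [h3]
    rw [smul_smul, inv_mul_cancel₀ hc, one_smul]
  rw [h4]
  exact hZ y hyX _ (inv_ne_zero hc) hyZ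

end gen

theorem ddata_start (hP : Homog P) (hS : Surface (cone P)) (hΛ : Lat Λ) (hu : IsHolomorphicMap (projVar P) Λ u)
    (hnon : NowhereConstant (projVar P) u) (hD : ZariskiClosedIn (projVar P) D) (hDn : NowhereConstant D u)
    {Ω : ℂ → (Fin (N + 1) → ℂ) → (Fin (N + 1) → ℂ) → (Fin (N + 1) → ℂ) → ℂ} (hΩ : IsTwoForm (projVar P \ D) Λ Γ u Ω)
    (hlog : IsLogAlong (projVar P) D Λ u Ω) (hnz : IsNowhereZero (projVar P \ D) Λ u Ω) {c₀ : ℂ} (hvan : VanishesOver (projVar P \ D) Λ u Ω c₀)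
    {B : Set ℂ} (hinv : ∀ b ∈ B, ∀ l ∈ Λ, b + l ∈ B)
    (hcrit : ∀ x ∈ cone P, (∀ b ∈ B, uE Λ u (LE N x) - b ∉ Λ) → RU (cone P) Λ (fun x => uE Λ u (LE N x)) x 0)
    (hgood : ∀ x ∈ cnD D, (∀ b ∈ B, uE Λ u (LE N x) - b ∉ Λ) → TrV (cone P) (cnD D) Λ (fun x => uE Λ u (LE N x)) x)
    (hfib : FibB (cone P \ cnD D) Λ (fun x => uE Λ u (LE N x)) B) :
    DData (cone P) (cnD D) Λ Γ (fun x => uE Λ u (LE N x) - c₀) {b | b + c₀ ∈ B} (fun z x v w => Ω (z + c₀) x v w) := by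
  have hT0 := tmap_start (P := P) (Λ := Λ) hP hu
  have hC0 := curve_start hP hS hΛ hu hD hDn hlog
  have hN0 := nonconst_start hP hS hΛ hu hnon
  have hcl : ∀ x ∈ cone P, ∀ c : ℂ, c ≠ 0 → uE Λ u (LE N (c • x)) - c₀ - (uE Λ u (LE N x) - c₀) ∈ Λ := by
    intro x hx c hc
    rw [sub_sub_sub_cancel_right]
    exact hT0.smul x hx c hc
  have hcD : ∀ x ∈ cone P \ Zs (cone P) (cnD D) Λ (fun x => uE Λ u (LE N x) - c₀) {b | b + c₀ ∈ B}, x ∈ cone P ∧ x ∉ cnD D :=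
    fun x hx => ⟨hx.1, fun h => hx.2 (Or.inl h)⟩
  have htm : ∀ {x v : Fin (N + 1) → ℂ}, v ∈ Tan (cone P \ Zs (cone P) (cnD D) Λ (fun x => uE Λ u (LE N x) - c₀) {b | b + c₀ ∈ B}) x →
      Pool.Agent.H17G.IsTangent (projVar P \ D) x v := fun hv => (slb_tan hP).2 (slb_tan_mono (fun y hy => hcD y hy) hv)
  refine ⟨hS, ?_, ?_, ?_, ?_, ?_, ?_, ?_, ?_, ?_, ?_, ?_⟩
  · -- tor
    constructor
    · exact hcl
    · intro x hx
      obtain ⟨v, hv, hv'⟩ := hT0.loc x hx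
      refine ⟨fun y => v y - c₀, hv.sub analyticAt_const, ?_⟩
      filter_upwards [hv'] with y hy hyX
      show uE Λ u (LE N y) - c₀ - (v y - c₀) ∈ Λ
      rw [sub_sub_sub_cancel_right]
      exact hy hyX
  · -- nonconst
    intro σ τ g hc hg
    exact hN0 σ τ g hc (slb_lu.1 hg)
  · -- curve
    refine ⟨hC0.sub, hC0.smul, hC0.closed, ?_⟩
    intro x hx
    obtain ⟨σ, τ, g, h1, h2, h3, h4, h5⟩ := hC0.smooth x hx
    exact ⟨σ, τ, g, h1, h2, h3, slb_lu.2 h4, h5⟩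
  · -- form
    constructor
    · intro z x hx hz v hv w hw a b
      exact hΩ.horizontal _ _ ((slb_overD hP).2 ⟨hcD x hx, hz⟩) _ _ (htm hv) (htm hw) a b
    · intro z x hx hz v hv w hw a b c d
      exact hΩ.alternating _ _ ((slb_overD hP).2 ⟨hcD x hx, hz⟩) _ _ (htm hv) (htm hw) a b c d
    · intro z x hx hz v hv w hw c hc
      exact hΩ.homogeneous _ _ ((slb_overD hP).2 ⟨hcD x hx, hz⟩) _ _ (htm hv) (htm hw) c hc
    · intro φ υ p hφ hυ hφX
      refine hΩ.holomorphic φ (fun y => υ y + c₀) p hφ (hυ.add analyticAt_const) ?_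
      filter_upwards [hφX] with y hy
      exact (slb_overD hP).2 ⟨hcD _ hy.1, hy.2⟩
  · -- log
    intro x hx
    by_cases hxD : x ∈ cnD D
    · -- a point of `D`
      obtain ⟨hx0, hxD'⟩ := hxD
      obtain ⟨σ, τ, hA, hform⟩ := hlog _ hxD'
      obtain ⟨h0, hcen⟩ := hA.center
      have hσX : ∀ᶠ p in 𝓝 (0 : ℂ × ℂ), σ p ∈ cone P ∧ (σ p ∈ cnD D ↔ p.2 = 0) := by
        filter_upwards [hA.mem] with p hp
        obtain ⟨h1, h2, h3⟩ := hp
        refine ⟨(mk_mem_projVar hP h1).1 h2, ?_⟩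
        rw [← h3]
        exact ⟨fun ⟨_, h4⟩ => h4, fun h4 => ⟨h1, h4⟩⟩
      have hc : IsChart (cone P) σ τ := by
        refine ⟨hA.analytic, hσX.mono fun p hp => hp.1, h0, hA.analytic_inv, hA.left, ?_, hA.homogeneous⟩
        filter_upwards [hA.right] with y hy hyX
        exact hy hyX.1 ((mk_mem_projVar hP hyX.1).2 hyX)
      rw [Projectivization.mk_eq_mk_iff'] at hcen
      obtain ⟨c', hc'⟩ := hcen
      have hc'0 : c' ≠ 0 := by
        rintro rfl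
        rw [zero_smul] at hc'
        exact h0 hc'.symm
      have hcx : c'⁻¹ • σ 0 = x := by rw [← hc', smul_smul, inv_mul_cancel₀ hc'0, one_smul]
      have hcne : c'⁻¹ ≠ 0 := inv_ne_zero hc'0
      refine ⟨fun p => c'⁻¹ • σ p, fun y => τ (c'⁻¹⁻¹ • y), hc.scale hS.smul hcne, hcx, Or.inr ⟨?_, ?_⟩⟩
      · filter_upwards [hσX] with p hp
        rw [← hp.2]
        constructor
        · intro h1
          have h2 := hC0.smul _ h1 c' hc'0
          rwa [smul_smul, mul_inv_cancel₀ hc'0, one_smul] at h2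
        · intro h1
          exact hC0.smul _ h1 _ hcne
      · intro υ hυ
        have hυl : ∀ᶠ p in 𝓝 (0 : ℂ × ℂ), uE Λ u (LE N (σ p)) - c₀ - υ p ∈ Λ := by
          filter_upwards [hυ.2, hσX] with p h1 h2
          have h3 := hcl _ h2.1 _ hcne
          have h4 := Λ.sub_mem h1 h3
          have h5 : uE Λ u (LE N (c'⁻¹ • σ p)) - c₀ - υ p - (uE Λ u (LE N (c'⁻¹ • σ p)) - c₀ - (uE Λ u (LE N (σ p)) - c₀)) =
              uE Λ u (LE N (σ p)) - c₀ - υ p := by ring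
          rw [← h5]
          exact h4
        obtain ⟨g, hg, hg'⟩ := hform (fun p => υ p + c₀) (hυ.1.add analyticAt_const) (by
          filter_upwards [hυl, hσX] with p h1 h2
          exact (slb_over hP).2 ⟨h2.1, h1⟩)
        refine ⟨g, hg, ?_⟩
        filter_upwards [hg', hυl, hσX, eventually_eventually_nhds.2 hσX, hA.analytic.eventually_analyticAt] with p h1 h2 h3 h4 h5 hpZ
        have hp2 : p.2 ≠ 0 := by
          intro h6
          exact hpZ (Or.inl (hC0.smul _ (h3.2.2 h6) _ hcne))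
        have h6 : ∀ᶠ y in 𝓝 p, σ y ∈ cone P \ cnD D := by
          filter_upwards [h4, continuousAt_snd.eventually_ne hp2] with y h7 h8
          exact ⟨h7.1, fun h9 => h8 (h7.2.1 h9)⟩
        have h7 : Pool.Agent.H17G.Over (projVar P \ D) Λ u (υ p + c₀) (σ p) :=
          (slb_overD hP).2 ⟨h6.self_of_nhds, h2⟩
        have h8 := hΩ.homogeneous _ _ h7 _ _ ((slb_tan hP).2 (slb_par h5 h6 (1, 0))) ((slb_tan hP).2 (slb_par h5 h6 (0, 1))) c'⁻¹ hcne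
        have h9 : fderiv ℂ (fun p => c'⁻¹ • σ p) p = c'⁻¹ • fderiv ℂ σ p :=
          fderiv_fun_const_smul h5.differentiableAt _
        show p.2 * Ω (υ p + c₀) (c'⁻¹ • σ p) (fderiv ℂ (fun p => c'⁻¹ • σ p) p (1, 0)) (fderiv ℂ (fun p => c'⁻¹ • σ p) p (0, 1)) = g p
        rw [h9]
        show p.2 * Ω (υ p + c₀) (c'⁻¹ • σ p) (c'⁻¹ • fderiv ℂ σ p (1, 0)) (c'⁻¹ • fderiv ℂ σ p (0, 1)) = g p
        rw [h8]
        exact h1 hp2
    · -- a point outside `D`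
      obtain ⟨σ, τ, hc, hσ0⟩ := hS.chart x hx
      refine ⟨σ, τ, hc, hσ0, Or.inl ⟨hxD, ?_⟩⟩
      intro υ hυ
      refine ⟨fun p => cf (fun z x v w => Ω (z + c₀) x v w) υ σ p, ?_, Eventually.of_forall fun p _ => rfl⟩
      refine hΩ.holomorphic σ (fun y => υ y + c₀) 0 hc.σ_an (hυ.1.add analyticAt_const) ?_
      have h1 : Tendsto σ (𝓝 0) (𝓝 x) := by
        rw [← hσ0]
        exact hc.σ_an.continuousAt.tendsto
      filter_upwards [hυ.2, hc.σ_mem, h1.eventually (hC0.closed x hx hxD)] with p h2 h3 h4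
      exact (slb_overD hP).2 ⟨⟨h3, h4⟩, h2⟩
  · -- per
    intro z l hl x hx hz v hv w hw
    have h1 := hΩ.periodic (z + c₀) l hl x ((slb_overD hP).2 ⟨hcD x hx, hz⟩) v w (htm hv) (htm hw)
    show Ω (z + l + c₀) x v w = Ω (z + c₀) x v w
    rw [show z + l + c₀ = z + c₀ + l by ring]
    exact h1
  · -- van
    intro x hx hz v hv w hw
    show Ω (0 + c₀) x v w = 0
    have h1 : Pool.Agent.H17G.Over (projVar P \ D) Λ u (0 + c₀) x := (slb_overD hP).2 ⟨hcD x hx, by rw [sub_zero]; exact hz⟩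
    rw [zero_add] at h1 ⊢
    exact hvan x h1 v w (htm hv) (htm hw)
  · -- thin
    intro σ τ υ hc0 hυ hlift htc
    have hZinv : ∀ x ∈ cone P, ∀ c : ℂ, c ≠ 0 → x ∈ Zs (cone P) (cnD D) Λ (fun x => uE Λ u (LE N x) - c₀) {b | b + c₀ ∈ B} →
        c • x ∈ Zs (cone P) (cnD D) Λ (fun x => uE Λ u (LE N x) - c₀) {b | b + c₀ ∈ B} := by
      intro x hx c hc hxZ
      rcases hxZ with h1 | ⟨h1, b, hb, h2⟩
      · exact Or.inl (hC0.smul x h1 c hc)
      · refine Or.inr ⟨hS.smul x h1 c hc, b, hb, ?_⟩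
        have h3 := Λ.add_mem (hcl x hx c hc) h2
        have h4 : uE Λ u (LE N (c • x)) - c₀ - (uE Λ u (LE N x) - c₀) + (uE Λ u (LE N x) - c₀ - b) = uE Λ u (LE N (c • x)) - c₀ - b := by ring
        rw [← h4]
        exact h3
    have hopen := slb_open hS hZinv hc0
    have hc : IsChart (cone P) σ τ := by
      refine ⟨hc0.σ_an, hc0.σ_mem.mono fun p hp => hp.1, hc0.ne, hc0.τ_an, hc0.left, ?_, hc0.inv⟩
      filter_upwards [hc0.right, hopen] with y h1 h2 h3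
      exact h1 ⟨h3, h2 h3⟩
    have hx : σ 0 ∈ cone P := hc.σ_mem.self_of_nhds
    refine (hnz _ _ ((slb_overD hP).2 ⟨hcD _ hc0.σ_mem.self_of_nhds, hlift.self_of_nhds⟩)) ?_
    obtain ⟨δ, hδ, hdisc⟩ := hΛ.discrete
    have hst : Tendsto (fun q : ℂ × (Fin (N + 1) → ℂ) => q.2) (𝓝 (υ 0 + c₀, σ 0)) (𝓝 (σ 0)) := continuousAt_snd
    have hqt : Tendsto (fun q : ℂ × (Fin (N + 1) → ℂ) => τ q.2) (𝓝 (υ 0 + c₀, σ 0)) (𝓝 0) := (slb_tau hc).comp hst
    have hev2 : ∀ᶠ y in 𝓝 (0 : ℂ × ℂ), ‖υ y - υ 0‖ < δ / 2 := by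
      have h1 : Tendsto (fun y => ‖υ y - υ 0‖) (𝓝 0) (𝓝 ‖υ 0 - υ 0‖) := (hυ.continuousAt.tendsto.sub_const _).norm
      rw [sub_self, norm_zero] at h1
      exact h1.eventually_lt_const (by positivity)
    have hev3 : ∀ᶠ q : ℂ × (Fin (N + 1) → ℂ) in 𝓝 (υ 0 + c₀, σ 0), ‖q.1 - (υ 0 + c₀)‖ < δ / 2 := by
      have h0 : Tendsto (fun q : ℂ × (Fin (N + 1) → ℂ) => q.1) (𝓝 (υ 0 + c₀, σ 0)) (𝓝 (υ 0 + c₀)) := continuousAt_fst
      have h1 : Tendsto (fun q : ℂ × (Fin (N + 1) → ℂ) => ‖q.1 - (υ 0 + c₀)‖) (𝓝 (υ 0 + c₀, σ 0)) (𝓝 ‖υ 0 + c₀ - (υ 0 + c₀)‖) :=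
        (h0.sub_const _).norm
      rw [sub_self, norm_zero] at h1
      exact h1.eventually_lt_const (by positivity)
    filter_upwards [hst.eventually hc.right, hst.eventually (slb_tanv hc), hev3, hqt.eventually hev2, hqt.eventually hlift, hqt.eventually htc,
      hqt.eventually hc0.σ_mem, hqt.eventually (eventually_eventually_nhds.2 hc0.σ_mem), hqt.eventually hc.σ_an.eventually_analyticAt]
      with q q1 q2 q3 q4 q5 q6 q7 q8 q9
    rintro ⟨hov, v, w, hv, hw, hne⟩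
    apply hne
    have hov' : Pool.Agent.H17G.Over (projVar P \ D) Λ u ((q.1 - c₀) + c₀) q.2 := by rw [sub_add_cancel]; exact hov
    obtain ⟨⟨hyX, -⟩, hyz⟩ := (slb_overD hP).1 hov'
    obtain ⟨c, hc0, hyc⟩ := q1 hyX
    -- the value of z
    have hz : q.1 = υ (τ q.2) + c₀ := by
      have h1 : uE Λ u (LE N q.2) - c₀ - (uE Λ u (LE N (σ (τ q.2))) - c₀) ∈ Λ := by
        have h2 := hcl _ q7.1 c hc0
        rwa [← hyc] at h2
      have h2 : q.1 - (υ (τ q.2) + c₀) ∈ Λ := by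
        have h3 := Λ.add_mem (Λ.sub_mem h1 hyz) q5
        have h4 : uE Λ u (LE N q.2) - c₀ - (uE Λ u (LE N (σ (τ q.2))) - c₀) - (uE Λ u (LE N q.2) - c₀ - (q.1 - c₀)) +
            (uE Λ u (LE N (σ (τ q.2))) - c₀ - υ (τ q.2)) = q.1 - (υ (τ q.2) + c₀) := by ring
        rwa [h4] at h3
      have h3 : ‖q.1 - (υ (τ q.2) + c₀)‖ < δ := by
        calc ‖q.1 - (υ (τ q.2) + c₀)‖ = ‖(q.1 - (υ 0 + c₀)) - (υ (τ q.2) - υ 0)‖ := by ring_nf
          _ ≤ ‖q.1 - (υ 0 + c₀)‖ + ‖υ (τ q.2) - υ 0‖ := norm_sub_le _ _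
          _ < δ / 2 + δ / 2 := add_lt_add q3 q4
          _ = δ := by ring
      exact sub_eq_zero.1 (hdisc _ h2 h3)
    have hv' := slb_tan_mono (fun _ hy => hy.1) ((slb_tan hP).1 hv)
    have hw' := slb_tan_mono (fun _ hy => hy.1) ((slb_tan hP).1 hw)
    obtain ⟨e, a, he⟩ := q2 hyX v hv' c hyc hc0
    obtain ⟨e', a', he'⟩ := q2 hyX w hw' c hyc hc0
    have hlc : ∀ e : ℂ × ℂ, Pool.Agent.H17G.IsTangent (projVar P \ D) (σ (τ q.2)) (fderiv ℂ σ (τ q.2) e) :=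
      fun e => htm (slb_par q9 q8 e)
    have hlin : ∀ e : ℂ × ℂ, fderiv ℂ σ (τ q.2) e = e.1 • fderiv ℂ σ (τ q.2) (1, 0) + e.2 • fderiv ℂ σ (τ q.2) (0, 1) := by
      intro e
      have h1 : e = e.1 • ((1 : ℂ), (0 : ℂ)) + e.2 • ((0 : ℂ), (1 : ℂ)) := by
        ext <;> simp
      conv_lhs => rw [h1]
      rw [map_add, map_smul, map_smul]
    have hxc' : c⁻¹ • q.2 = σ (τ q.2) := by
      conv_lhs => rw [hyc]
      rw [smul_smul, inv_mul_cancel₀ hc0, one_smul]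
    have hov2 : Pool.Agent.H17G.Over (projVar P \ D) Λ u q.1 (σ (τ q.2)) := by
      rw [hz]
      exact (slb_overD hP).2 ⟨hcD _ q7, q5⟩
    have h1 := hΩ.homogeneous q.1 q.2 hov v w hv hw c⁻¹ (inv_ne_zero hc0)
    rw [hxc', he, he', hΩ.horizontal _ _ hov2 _ _ (hlc e) (hlc e'), hlin e, hlin e', hΩ.alternating _ _ hov2 _ _ (hlc _) (hlc _)] at h1
    have h2 : Ω q.1 (σ (τ q.2)) (fderiv ℂ σ (τ q.2) (1, 0)) (fderiv ℂ σ (τ q.2) (0, 1)) = 0 := by
      rw [hz]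
      exact q6
    rw [h2, mul_zero] at h1
    exact h1.symm
  · -- fib
    intro f hf hfX hfu hne
    obtain ⟨b, hb, h1⟩ := hfib f hf hfX (fun z w => by
      have h2 := hfu z w
      rwa [sub_sub_sub_cancel_right] at h2) hne
    refine ⟨b - c₀, ?_, ?_⟩
    · show b - c₀ + c₀ ∈ B
      rwa [sub_add_cancel]
    · show uE Λ u (LE N (f 0)) - c₀ - (b - c₀) ∈ Λ
      rwa [sub_sub_sub_cancel_right]
  · -- crit
    intro x hx hb
    obtain ⟨σ, τ, g, h1, h2, h3, h4⟩ := hcrit x hx (fun b hbB h => hb (b - c₀) (by show b - c₀ + c₀ ∈ B; rwa [sub_add_cancel]) (by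
      show uE Λ u (LE N x) - c₀ - (b - c₀) ∈ Λ
      rwa [sub_sub_sub_cancel_right]))
    exact ⟨σ, τ, g, h1, h2, slb_lu.2 h3, h4⟩
  · -- good
    intro x hx hb
    obtain ⟨σ, τ, g, h1, h2, h3, h4, h5⟩ := hgood x hx (fun b hbB h => hb (b - c₀) (by show b - c₀ + c₀ ∈ B; rwa [sub_add_cancel]) (by
      show uE Λ u (LE N x) - c₀ - (b - c₀) ∈ Λ
      rwa [sub_sub_sub_cancel_right]))
    exact ⟨σ, τ, g, h1, h2, h3, slb_lu.2 h4, h5⟩

end Pool.Agent.H17L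

end

section

/-!
# H19E LimA: limits of discs in `ℙ^N` and limit curves in the cone
-/

set_option autoImplicit false

open Topology Filter MvPolynomial Metric

noncomputable section

namespace Pool.Agent.H19E

attribute [-instance] ProperSMul.toContinuousSMul

open Pool.Agent.H17 (PN VanishesAt HolomorphicInto ZariskiClosedIn)
open Pool.Agent.H62.FC (Homog)
open Pool.Agent.H62.EF (MN pr Lat TorusMap Sec pr_smul pr_eq_iff continuousAt_pr)
open Pool.Agent.H13.SM (cone)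
open Pool.Agent.H36.BP (EN fs wd)
open Pool.Agent.H17EF (projVar IsHolomorphicMap coneE uE LE prP prP_mk mk_symm prP_injective LE_ne_zero mem_coneE mk_mem_projVar exists_lift)
open Pool.Agent.H36.LB (ConvPN IsLimitPN)
open Pool.Agent.H18.LU (LCur)

variable {N : ℕ}

/-- a lift over a disc -/
theorem lift_big {f : ℂ → PN N} {r ρ : ℝ} (hr : 0 < r) (hρ : r < ρ) (hf : HolomorphicInto f (ball 0 ρ)) :
    ∃ F : ℂ → EN N, DifferentiableOn ℂ F (ball 0 r) ∧ ∀ z ∈ ball (0 : ℂ) r, ∃ h : (LE N).symm (F z) ≠ 0, f z = Projectivization.mk ℂ ((LE N).symm (F z)) h := by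
  have hρ0 : 0 < ρ := hr.trans hρ
  have hρc : (ρ : ℂ) ≠ 0 := by exact_mod_cast hρ0.ne'
  have hg : HolomorphicInto (fun z => f ((ρ : ℂ) * z)) (ball 0 1) := by
    intro z hz
    have h1 : (ρ : ℂ) * z ∈ ball (0 : ℂ) ρ := by
      rw [mem_ball_zero_iff] at hz ⊢
      rw [norm_mul, Complex.norm_real, Real.norm_of_nonneg hρ0.le]
      nlinarith
    obtain ⟨φ, hφ, hφ'⟩ := hf _ h1
    have h2 : AnalyticAt ℂ (fun z : ℂ => (ρ : ℂ) * z) z := analyticAt_const.mul analyticAt_id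
    exact ⟨fun z => φ ((ρ : ℂ) * z), AnalyticAt.fun_comp (g := φ) (f := fun z : ℂ => (ρ : ℂ) * z) hφ h2, h2.continuousAt.tendsto.eventually hφ'⟩
  obtain ⟨F, hF, hFf⟩ := Pool.Agent.H36.BP.lift_disc hg (r := r / ρ) (by positivity) ((div_lt_one hρ0).2 hρ)
  have hmap : ∀ z ∈ ball (0 : ℂ) r, z / (ρ : ℂ) ∈ ball (0 : ℂ) (r / ρ) := by
    intro z hz
    rw [mem_ball_zero_iff] at hz ⊢
    rw [norm_div, Complex.norm_real, Real.norm_of_nonneg hρ0.le]
    exact (div_lt_div_iff_of_pos_right hρ0).2 hz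
  refine ⟨fun z => F (z / (ρ : ℂ)), hF.comp (differentiable_id.div_const _).differentiableOn hmap, fun z hz => ?_⟩
  obtain ⟨h, h'⟩ := hFf _ (hmap z hz)
  have h2 : (ρ : ℂ) * (z / (ρ : ℂ)) = z := by field_simp
  have h3 : f z = f ((ρ : ℂ) * (z / (ρ : ℂ))) := by rw [h2]
  exact ⟨h, h3.trans h'⟩

theorem convPN_open {l : Filter ℕ} {F : ℕ → ℂ → PN N} {f : ℂ → PN N} : IsOpen {z | ConvPN l F f z} := by
  rw [Metric.isOpen_iff]
  rintro z ⟨s, Φ, Φ₀, hs, hΦ, hΦ₀, hf, hlim⟩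
  refine ⟨s, hs, fun w hw => ?_⟩
  obtain ⟨t, ht, htb⟩ := Metric.mem_nhds_iff.1 (isOpen_ball.mem_nhds hw)
  refine ⟨t, Φ, Φ₀, ht, ?_, hΦ₀.mono htb, fun y hy => hf y (htb hy), hlim.mono htb⟩
  filter_upwards [hΦ] with n hn
  exact ⟨hn.1.mono htb, fun y hy => hn.2 y (htb hy)⟩

/-- the convergence of the projections -/
theorem convPN_unif {l : Filter ℕ} {F : ℕ → ℂ → PN N} {f : ℂ → PN N} :
    TendstoLocallyUniformlyOn (fun n z => prP (F n z)) (fun z => prP (f z)) l {z | ConvPN l F f z} := by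
  rw [Metric.tendstoLocallyUniformlyOn_iff]
  intro ε hε z₀ hz₀
  obtain ⟨s, Φ, Φ₀, hs, hΦ, hΦ₀, hf, hlim⟩ := hz₀
  have hz₀s : z₀ ∈ ball z₀ s := mem_ball_self hs
  have hx0 : (LE N) (Φ₀ z₀) ≠ 0 := LE_ne_zero (hf z₀ hz₀s).1
  have hc : ContinuousAt (fun x : Fin (N + 1) → ℂ => pr ((LE N) x)) (Φ₀ z₀) :=
    (continuousAt_pr hx0).comp (LE N).continuous.continuousAt
  obtain ⟨η, hη, hpr⟩ := Metric.continuousAt_iff.1 hc (ε / 2) (by positivity)
  have hHc : ∀ᶠ z in 𝓝 z₀, dist (Φ₀ z) (Φ₀ z₀) < η / 2 :=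
    Metric.tendsto_nhds.1 (hΦ₀.continuousOn.continuousAt (isOpen_ball.mem_nhds hz₀s)) _ (by positivity)
  obtain ⟨t, ht, hev⟩ := (Metric.tendstoLocallyUniformlyOn_iff.1 hlim) (η / 2) (by positivity) z₀ hz₀s
  rw [isOpen_ball.nhdsWithin_eq hz₀s] at ht
  refine ⟨t ∩ ({z | dist (Φ₀ z) (Φ₀ z₀) < η / 2} ∩ ball z₀ s), mem_nhdsWithin_of_mem_nhds
    (inter_mem ht (inter_mem hHc (ball_mem_nhds z₀ hs))), ?_⟩
  filter_upwards [hev, hΦ] with n hn hφn
  rintro w ⟨hwt, hw1, hw2⟩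
  have hw1' : dist (Φ₀ w) (Φ₀ z₀) < η / 2 := hw1
  have h1 : dist (pr ((LE N) (Φ₀ w))) (pr ((LE N) (Φ₀ z₀))) < ε / 2 := hpr (hw1'.trans (by linarith))
  have h2 : dist (Φ n w) (Φ₀ z₀) < η := by
    have h3 := hn w hwt
    rw [dist_comm] at h3
    exact (dist_triangle _ (Φ₀ w) _).trans_lt (by linarith)
  have h3 : dist (pr ((LE N) (Φ n w))) (pr ((LE N) (Φ₀ z₀))) < ε / 2 := hpr h2
  obtain ⟨h4, h4'⟩ := hf w hw2
  obtain ⟨h5, h5'⟩ := hφn.2 w hw2
  show dist (prP (f w)) (prP (F n w)) < ε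
  rw [h4', h5', prP_mk, prP_mk]
  rw [dist_comm] at h3
  exact (dist_triangle _ (pr ((LE N) (Φ₀ z₀))) _).trans_lt (by linarith)

/-- limits of discs in `U ⊆ projVar P` are in `projVar P` -/
theorem limit_mem_projVar {P : Ideal (MvPolynomial (Fin (N + 1)) ℂ)} (hP : Homog P) {U : Set (PN N)} (hUP : U ⊆ projVar P)
    {l : Filter ℕ} {F : ℕ → ℂ → PN N} {f : ℂ → PN N} (hf : IsLimitPN U l F f) (z : ℂ) : f z ∈ projVar P := by
  obtain ⟨H, hHd, hHf⟩ := exists_lift hf.hol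
  obtain ⟨h0, hz⟩ := hHf z
  rw [hz, mk_mem_projVar hP h0]
  refine ⟨h0, fun Q hQ => ?_⟩
  have hc : ContinuousAt (fun w => eval ((LE N).symm (H w)) Q) z :=
    ((MvPolynomial.continuous_eval Q).comp ((LE N).symm.continuous.comp hHd.continuous)).continuousAt
  have h1 : Tendsto (fun w => eval ((LE N).symm (H w)) Q) (𝓝[≠] z) (𝓝 (eval ((LE N).symm (H z)) Q)) :=
    hc.tendsto.mono_left nhdsWithin_le_nhds
  have h2 : Tendsto (fun w => eval ((LE N).symm (H w)) Q) (𝓝[≠] z) (𝓝 0) := by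
    refine tendsto_const_nhds.congr' ?_
    filter_upwards [hf.conv z] with w hw
    obtain ⟨h3, hw'⟩ := hHf w
    have h4 := hUP (hf.mem_of_conv w hw)
    rw [hw', mk_mem_projVar hP h3] at h4
    exact (h4.2 Q hQ).symm
  exact tendsto_nhds_unique h1 h2

theorem lcur_of_limitPN {P : Ideal (MvPolynomial (Fin (N + 1)) ℂ)} (hP : Homog P) {U : Set (PN N)} {DE : Set (EN N)} (hUP : U ⊆ projVar P)
    (hD : ∀ (x : EN N) (h : (LE N).symm x ≠ 0), Projectivization.mk ℂ ((LE N).symm x) h ∈ U → x ∉ DE)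
    {l : Filter ℕ} {F : ℕ → ℂ → PN N} {f : ℂ → PN N} (hf : IsLimitPN U l F f) :
    ∃ H : ℂ → EN N, H ∈ LCur (coneE P) DE ∧ ∀ z, ∃ h : (LE N).symm (H z) ≠ 0, f z = Projectivization.mk ℂ ((LE N).symm (H z)) h := by
  obtain ⟨H, hHd, hHf⟩ := exists_lift hf.hol
  refine ⟨H, ⟨hHd, fun z => ?_, {z | ConvPN l F f z}ᶜ, convPN_open.isClosed_compl, ?_, ?_⟩, hHf⟩
  · obtain ⟨h0, hz⟩ := hHf z
    exact (mem_coneE hP).2 ⟨h0, hz ▸ limit_mem_projVar hP hUP hf z⟩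
  · intro z
    filter_upwards [hf.conv z] with w hw
    exact fun hn => hn hw
  · intro R ε hε K hK hKZ
    have hKC : K ⊆ {z | ConvPN l F f z} := fun z hz => not_not.1 (hKZ z hz)
    have h1 : TendstoUniformlyOn (fun n z => prP (F n z)) (fun z => prP (f z)) l K :=
      (tendstoLocallyUniformlyOn_iff_tendstoUniformlyOn_of_compact hK).1 (convPN_unif.mono hKC)
    have h2 := Metric.tendstoUniformlyOn_iff.1 h1 ε hε
    have h3 : ∀ᶠ n : ℕ in l, |R| + 1 < (n : ℝ) + 1 := by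
      refine hf.le_atTop ?_
      have : Tendsto (fun n : ℕ => (n : ℝ) + 1) atTop atTop := tendsto_natCast_atTop_atTop.atTop_add tendsto_const_nhds
      exact this.eventually_gt_atTop _
    have := hf.neBot
    obtain ⟨n, hn1, hn2⟩ := (h2.and h3).exists
    have hR : R ≤ |R| := le_abs_self R
    obtain ⟨G, hG, hGF⟩ := lift_big (r := |R| + 1) (by positivity) hn2 (hf.holF n)
    have hball : ∀ z : ℂ, ‖z‖ ≤ R → z ∈ ball (0 : ℂ) (|R| + 1) := fun z hz => by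
      rw [mem_ball_zero_iff]
      linarith
    refine ⟨G, fun z hz => ?_, fun z hz hzR => ?_⟩
    · have hzb := hball z (by simpa using hz)
      obtain ⟨h4, h4'⟩ := hGF z hzb
      have h5 : F n z ∈ U := hf.memF n z (by
        rw [mem_ball_zero_iff] at hzb ⊢
        linarith)
      rw [h4'] at h5
      exact ⟨hG.analyticAt (isOpen_ball.mem_nhds hzb), (mem_coneE hP).2 ⟨h4, hUP h5⟩, hD _ h4 h5⟩
    · obtain ⟨h4, h4'⟩ := hGF z (hball z hzR)
      obtain ⟨h5, h5'⟩ := hHf z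
      have h6 := hn1 z hz
      rw [h4', h5', mk_symm h4, mk_symm h5, dist_comm] at h6
      exact h6

end Pool.Agent.H19E

end
end
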