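import Pool.Agent.H94.CB.M11
import Pool.Agent.H94.CB.M156
import Pool.Agent.H94.CB.M18
import Pool.Agent.H94.CB.M20

/-! The parts of this file: H17G.BoundP, H62.EL.DyL, H62.EL.DyB, H62.EL.DyC, H62.EL.DyD, H62.EL.DyE, H62.EL.DyF. -/

section

/-!
# G BoundP: finitely many sections have bounded derivative

`periodic hfin` (`H62/EF/Core.lean`): there is `m ≥ 1` with `pr (F (z + m l)) = pr (F z)` for `F ∈ Sec`, `l ∈ Λ`.
(1) If `F, G` are holomorphic near `z`, not `0`, and `pr (F w) = pr (G w)` near `z` then `fs (F z) (deriv F z) = fs (G z) (deriv G z)`: `G = c • F` near `z` with `c` analytic (`pr_eq_iff`; `c = ℓ (G) / ℓ (F)` for a linear form with `ℓ (F z) ≠ 0`), so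
`deriv G z = c z • deriv F z + c' z • F z`, and `wd (c x) (c v + a x) = |c|² wd x v` (`Pool.Agent.H36.BP.wd_inv`), `fs x v = wd x v / ‖x‖²` (see the definition of `fs`).
(2) For `F ∈ Sec` the function `z ↦ fs (F z) (deriv F z)` is continuous (`F z ≠ 0`) and invariant under `z ↦ z + m l`, `l ∈ Λ` (apply (1) to `F` and `F (· + m l)`); every `z` is `w + m l` with `‖w‖ ≤ m R` (`Lat.cocompact` for `z / m`), so it is bounded by its maximum on
`closedBall 0 (m R)`.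
(3) By (1) the function depends only on `pr ∘ F`, and there are finitely many `pr ∘ F` (`hfin`): take the maximum of the finitely many bounds.
-/

set_option autoImplicit false

open Topology Filter Metric

namespace Pool.Agent.H17G

attribute [-instance] ProperSMul.toContinuousSMul

open Pool.Agent.H36.BP (EN fs wd)
open Pool.Agent.H14.PP (IsCone)
open Pool.Agent.H62.EF (MN pr Lat Sec SS)
open Pool.Agent.H36.BP (fs_inv wd_cont)
open Pool.Agent.H62.EF (pr_eq_iff periodic)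

variable {N : ℕ} {X : Set (EN N)} {Λ : AddSubgroup ℂ} {u : EN N → ℂ}

private theorem cone_ne (hX : IsCone X) {x : EN N} (hx : x ∈ X) : x ≠ 0 := by
  rintro rfl
  exact hX.zero_notMem hx

theorem fs_eq_of_pr {F G : ℂ → EN N} {z : ℂ} (hF : AnalyticAt ℂ F z) (hG : AnalyticAt ℂ G z) (hF0 : F z ≠ 0) (hG0 : G z ≠ 0)
    (h : ∀ᶠ w in 𝓝 z, pr (F w) = pr (G w)) : fs (F z) (deriv F z) = fs (G z) (deriv G z) := by
  obtain ⟨i, hi⟩ : ∃ i, F z i ≠ 0 := by
    by_contra hcon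
    push Not at hcon
    exact hF0 (by ext i; simpa using hcon i)
  have hFi : AnalyticAt ℂ (fun w => F w i) z := by
    have := (EuclideanSpace.proj (𝕜 := ℂ) i : EN N →L[ℂ] ℂ).analyticAt (F z)
    exact this.comp_of_eq hF rfl
  have hGi : AnalyticAt ℂ (fun w => G w i) z := by
    have := (EuclideanSpace.proj (𝕜 := ℂ) i : EN N →L[ℂ] ℂ).analyticAt (G z)
    exact this.comp_of_eq hG rfl
  have key : ∀ᶠ w in 𝓝 z, G w i ≠ 0 ∧ F w = (F w i / G w i) • G w := by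
    filter_upwards [h, hF.continuousAt.eventually_ne hF0, hG.continuousAt.eventually_ne hG0, hFi.continuousAt.eventually_ne hi] with w h1 h2 h3 h4
    obtain ⟨c, hc, he⟩ := (pr_eq_iff h2 h3).1 h1
    have h5 : F w i = c * G w i := by
      conv_lhs => rw [he]
      simp
    have h6 : G w i ≠ 0 := by
      intro h7
      rw [h7, mul_zero] at h5
      exact h4 h5
    refine ⟨h6, ?_⟩
    rw [h5, mul_div_assoc, div_self h6, mul_one]
    exact he
  have hz := key.self_of_nhds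
  have hc : AnalyticAt ℂ (fun w => F w i / G w i) z := hFi.div hGi hz.1
  have hd : deriv F z = (F z i / G z i) • deriv G z + deriv (fun w => F w i / G w i) z • G z := by
    have h1 : F =ᶠ[𝓝 z] fun w => (F w i / G w i) • G w := key.mono fun w hw => hw.2
    rw [h1.deriv_eq]
    exact deriv_fun_smul hc.differentiableAt hG.differentiableAt
  have hc0 : F z i / G z i ≠ 0 := div_ne_zero hi hz.1
  calc fs (F z) (deriv F z) = fs ((F z i / G z i) • G z) ((F z i / G z i) • deriv G z + deriv (fun w => F w i / G w i) z • G z) := by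
        rw [← hz.2, ← hd]
    _ = fs (G z) (deriv G z) := fs_inv hG0 _ hc0 _

private theorem fs_continuous {F : ℂ → EN N} (hFd : Differentiable ℂ F) (hF0 : ∀ z, F z ≠ 0) : Continuous fun z => fs (F z) (deriv F z) := by
  have h1 : Continuous (deriv F) := continuous_iff_continuousAt.2 fun z => (hFd.analyticAt z).deriv.continuousAt
  have h2 : Continuous (fun z => (F z, deriv F z)) := hFd.continuous.prodMk h1
  have h3 := (wd_cont (N := N)).comp h2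
  have h4 : Continuous fun z => ‖F z‖ ^ 2 := hFd.continuous.norm.pow 2
  have h5 : ∀ z, ‖F z‖ ^ 2 ≠ 0 := fun z => pow_ne_zero 2 (norm_ne_zero_iff.2 (hF0 z))
  exact Continuous.div h3 h4 h5

theorem bound_of_finite (hX : IsCone X) (hΛ : Lat Λ) (hfin : (SS X Λ u).Finite) :
    ∃ L : ℝ, 0 < L ∧ ∀ F ∈ Sec X Λ u, ∀ z, fs (F z) (deriv F z) ≤ L := by
  classical
  obtain ⟨m, hm, hper⟩ := periodic hfin
  obtain ⟨R, hR, hco⟩ := hΛ.cocompact
  have hm0 : (m : ℂ) ≠ 0 := by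
    have : m ≠ 0 := by omega
    exact_mod_cast this
  -- the bound for one section
  have hone : ∀ F ∈ Sec X Λ u, ∃ B : ℝ, ∀ z, fs (F z) (deriv F z) ≤ B := by
    intro F hF
    have hFd : Differentiable ℂ F := hF.1
    have hF0 : ∀ z, F z ≠ 0 := fun z => cone_ne hX (hF.2.1 z)
    have hcont : Continuous fun z => fs (F z) (deriv F z) := by
      exact fs_continuous hFd hF0
    obtain ⟨B, hB⟩ := (isCompact_closedBall (0 : ℂ) (m * R)).bddAbove_image hcont.continuousOn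
    refine ⟨B, fun z => ?_⟩
    obtain ⟨l, hl, hlz⟩ := hco (z / m)
    have hw : z - (m : ℂ) * l ∈ closedBall (0 : ℂ) (m * R) := by
      rw [mem_closedBall_zero_iff]
      have : z - (m : ℂ) * l = (m : ℂ) * (z / m - l) := by
        field_simp
      rw [this, norm_mul, Complex.norm_natCast]
      exact mul_le_mul_of_nonneg_left hlz (Nat.cast_nonneg m)
    have h3 := hB ⟨_, hw, rfl⟩
    have htr : deriv (fun w => F (w + (m : ℂ) * l)) (z - (m : ℂ) * l) = deriv F z := by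
      rw [deriv_comp_add_const]
      congr 1
      ring
    have h4 : fs (F (z - (m : ℂ) * l)) (deriv F (z - (m : ℂ) * l)) = fs (F z) (deriv F z) := by
      have h5 := fs_eq_of_pr (F := fun w => F (w + (m : ℂ) * l)) (G := F) (z := z - (m : ℂ) * l)
        ((hFd.comp (differentiable_id.add_const _)).analyticAt _) (hFd.analyticAt _) (hF0 _) (hF0 _)
        (Filter.Eventually.of_forall fun w => hper F hF l hl w)
      rw [htr] at h5
      simp only [sub_add_cancel] at h5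
      exact h5.symm
    rw [← h4]
    exact h3
  choose! B hB using hone
  -- one section for each map to the projective space
  have hsel : ∀ f ∈ SS X Λ u, ∃ F ∈ Sec X Λ u, f = fun z => pr (F z) := fun f hf => hf
  choose! σ hσ hσe using hsel
  obtain ⟨C, hC⟩ := (hfin.image fun f => B (σ f)).bddAbove
  refine ⟨max C 1, lt_max_of_lt_right one_pos, fun F hF z => ?_⟩
  have hf : (fun z => pr (F z)) ∈ SS X Λ u := ⟨F, hF, rfl⟩
  have h1 : fs (F z) (deriv F z) = fs (σ (fun z => pr (F z)) z) (deriv (σ fun z => pr (F z)) z) := by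
    refine fs_eq_of_pr (hF.1.analyticAt z) ((hσ _ hf).1.analyticAt z) (cone_ne hX (hF.2.1 z)) (cone_ne hX ((hσ _ hf).2.1 z))
      (Filter.Eventually.of_forall fun w => ?_)
    exact congrFun (hσe _ hf) w
  rw [h1]
  exact (hB _ (hσ _ hf) z).trans ((hC ⟨_, hf, rfl⟩).trans (le_max_left _ _))

end Pool.Agent.H17G

end

section

/-!
# EL DyL: limits

(1) `exists_lim`: for `z ∉ B` the values `F n z` are eventually in the compact set `K`, so they have a limit along `𝒰`; choose it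
(any value, e.g. `F 0 z`, on `B`) and use `lim`.
(2) `unif`: the set `Gd B δ' ∩ closedBall 0 R` is compact (`Gd` is closed).  Let `L` be the constant of `lip` for `δ'`, and
`s = min (δ'/2) (ε / (4L))`.  Cover it by finitely many balls of radius `s` about points `z_i` of the set; eventually
`dist (F n z_i) (f z_i) < ε/4` for all `i`; for `z` in the ball about `z_i`: `dist (F n z) (f z) ≤ L s + ε/4 + L s ≤ 3ε/4 < ε`
(`lip` for `F n ∈ S` and `f ∈ S`).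
(3) `tendsto_along`: `z ∈ Gd B δ'` for some `δ' > 0` (`exists_gd`); `dist (F n (w n)) (f z) ≤ L ‖w n - z‖ + dist (F n z) (f z)`.
(4) `exists_ne`: otherwise `f = g` at all points of `Gd B (2δ)` within `ε` of `z`; by `perfect` frequently in `𝓝[≠] z`; `uniq`.
-/

set_option autoImplicit false

open Topology Filter Metric

namespace Pool.Agent.H62.EL

attribute [-instance] ProperSMul.toContinuousSMul

open Pool.Agent.H62.EF (Lat)

variable {Y : Type} [MetricSpace Y] {K : Set Y} {Λ : AddSubgroup ℂ} {B : Set ℂ} {δ : ℝ} {S : Set (ℂ → Y)}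
  {Zr : ℂ → Y → Prop} {N : ℂ → Y → Y → ℝ}

theorem Dyn.exists_lim (h : Dyn K Λ B δ S Zr N) (𝒰 : Ultrafilter ℕ) (F : ℕ → ℂ → Y) (hF : ∀ᶠ n in (𝒰 : Filter ℕ), F n ∈ S) :
    ∃ f ∈ S, ∀ z, z ∉ B → Tendsto (fun n => F n z) 𝒰 (𝓝 (f z)) := by
  have key : ∀ z, ∃ y : Y, z ∉ B → Tendsto (fun n => F n z) 𝒰 (𝓝 y) := by
    intro z
    by_cases hz : z ∈ B
    · exact ⟨F 0 z, fun h' => absurd hz h'⟩
    · have h1 : ((𝒰.map fun n => F n z : Ultrafilter Y) : Filter Y) ≤ 𝓟 K := by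
        rw [Filter.le_principal_iff]
        show ∀ᶠ n in (𝒰 : Filter ℕ), F n z ∈ K
        filter_upwards [hF] with n hn
        exact h.mem _ hn z hz
      obtain ⟨y, _, hy⟩ := h.compact.ultrafilter_le_nhds _ h1
      exact ⟨y, fun _ => hy⟩
  choose f hf using key
  exact ⟨f, h.lim 𝒰 F f hF hf, hf⟩

theorem Dyn.unif (h : Dyn K Λ B δ S Zr N) (𝒰 : Ultrafilter ℕ) (F : ℕ → ℂ → Y) (hF : ∀ᶠ n in (𝒰 : Filter ℕ), F n ∈ S)
    {f : ℂ → Y} (hfS : f ∈ S) (hf : ∀ z, z ∉ B → Tendsto (fun n => F n z) 𝒰 (𝓝 (f z))) {δ' : ℝ} (hδ' : 0 < δ') (R ε : ℝ)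
    (hε : 0 < ε) : ∀ᶠ n in (𝒰 : Filter ℕ), ∀ z ∈ Gd B δ', ‖z‖ ≤ R → dist (F n z) (f z) < ε := by
  obtain ⟨L, hL, hlip⟩ := h.lip δ' hδ'
  have hcpt : IsCompact (Gd B δ' ∩ closedBall (0 : ℂ) R) := (isCompact_closedBall 0 R).inter_left (isClosed_gd δ')
  obtain ⟨s, hs⟩ : ∃ s : ℝ, s = min (δ' / 2) (ε / (4 * L)) := ⟨_, rfl⟩
  have hs0 : 0 < s := by
    rw [hs]
    exact lt_min (by positivity) (by positivity)
  have hs1 : s ≤ δ' / 2 := by rw [hs]; exact min_le_left _ _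
  have hs2 : L * s ≤ ε / 4 := by
    have h1 : s ≤ ε / (4 * L) := by rw [hs]; exact min_le_right _ _
    calc L * s ≤ L * (ε / (4 * L)) := mul_le_mul_of_nonneg_left h1 hL.le
      _ = ε / 4 := by field_simp
  obtain ⟨t, htC, htf, hcov⟩ := hcpt.finite_cover_balls hs0
  have hev : ∀ᶠ n in (𝒰 : Filter ℕ), ∀ x ∈ t, dist (F n x) (f x) < ε / 4 := by
    rw [Filter.eventually_all_finite htf]
    intro x hx
    have h1 := hf x (gd_notMem hδ' (htC hx).1)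
    exact (tendsto_iff_dist_tendsto_zero.mp h1).eventually_lt_const (by positivity)
  filter_upwards [hF, hev] with n hn hn2 z hz hzR
  have hzC : z ∈ Gd B δ' ∩ closedBall (0 : ℂ) R := ⟨hz, by rwa [mem_closedBall, dist_zero_right]⟩
  obtain ⟨x, hx, hzx⟩ := Set.mem_iUnion₂.mp (hcov hzC)
  have hxz : ‖x - z‖ < s := by
    rw [mem_ball, dist_comm, dist_eq_norm] at hzx
    exact hzx
  have hzx' : z ∈ closedBall x (δ' / 2) := by
    rw [mem_closedBall, dist_comm, dist_eq_norm]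
    linarith
  have h1 := hlip (F n) hn x (htC hx).1 z hzx'
  have h2 := hlip f hfS x (htC hx).1 z hzx'
  have h3 := hn2 x hx
  have h4 : L * ‖x - z‖ ≤ ε / 4 := (mul_le_mul_of_nonneg_left hxz.le hL.le).trans hs2
  have h5 := dist_triangle4 (F n z) (F n x) (f x) (f z)
  rw [dist_comm (F n z) (F n x)] at h5
  linarith

theorem Dyn.tendsto_along (h : Dyn K Λ B δ S Zr N) (𝒰 : Ultrafilter ℕ) (F : ℕ → ℂ → Y) (hF : ∀ᶠ n in (𝒰 : Filter ℕ), F n ∈ S)
    {f : ℂ → Y} (hf : ∀ z, z ∉ B → Tendsto (fun n => F n z) 𝒰 (𝓝 (f z))) {w : ℕ → ℂ} {z : ℂ} (hz : z ∉ B)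
    (hw : Tendsto w 𝒰 (𝓝 z)) : Tendsto (fun n => F n (w n)) 𝒰 (𝓝 (f z)) := by
  obtain ⟨δ', hδ', hzδ⟩ := h.bad.exists_gd hz
  obtain ⟨L, hL, hlip⟩ := h.lip δ' hδ'
  rw [tendsto_iff_dist_tendsto_zero]
  have h1 : Tendsto (fun n => L * dist z (w n) + dist (F n z) (f z)) 𝒰 (𝓝 (L * 0 + 0)) := by
    refine Tendsto.add (Tendsto.const_mul L ?_) (tendsto_iff_dist_tendsto_zero.mp (hf z hz))
    have h2 := tendsto_iff_dist_tendsto_zero.mp hw
    simp only [dist_comm z]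
    exact h2
  rw [mul_zero, add_zero] at h1
  refine squeeze_zero' (Eventually.of_forall fun _ => dist_nonneg) ?_ h1
  have h2 : ∀ᶠ n in (𝒰 : Filter ℕ), w n ∈ closedBall z (δ' / 2) :=
    hw.eventually (closedBall_mem_nhds z (by positivity))
  filter_upwards [hF, h2] with n hn hn2
  have h3 := hlip (F n) hn z hzδ (w n) hn2
  rw [← dist_eq_norm] at h3
  have h4 := dist_triangle_left (F n (w n)) (f z) (F n z)
  linarith

/-- two different members of `S` differ at points of `Gd B (2δ)` near any point of it -/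
theorem Dyn.exists_ne (h : Dyn K Λ B δ S Zr N) {f g : ℂ → Y} (hf : f ∈ S) (hg : g ∈ S) (hne : ¬ Ag B f g) {z : ℂ}
    (hz : z ∈ Gd B (2 * δ)) {ε : ℝ} (hε : 0 < ε) : ∃ w ∈ Gd B (2 * δ), ‖w - z‖ < ε ∧ f w ≠ g w := by
  by_contra hcon
  push Not at hcon
  apply hne
  refine h.uniq f hf g hg z (gd_notMem (by linarith [h.bad.pos]) hz) ?_
  have h1 : ∀ᶠ w in 𝓝[≠] z, ‖w - z‖ < ε := by
    have h2 : ∀ᶠ w in 𝓝 z, ‖w - z‖ < ε := by
      filter_upwards [ball_mem_nhds z hε] with w hw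
      rwa [mem_ball, dist_eq_norm] at hw
    exact h2.filter_mono nhdsWithin_le_nhds
  refine ((h.bad.perfect hz).and_eventually h1).mono ?_
  rintro w ⟨hw1, hw2⟩
  exact hcon w hw1 hw2

end Pool.Agent.H62.EL

end

section

/-!
# EL DyB: the members of `S` inside `Zr` are uniformly separated

By contradiction: for every `n` there are `e_n`, `g_n` in `ZS`, not in agreement, and `a_n` with `dist (e_n z) (g_n z) ≤ 1/(n+1)` for
`z ∈ Gd B δ`, `‖z - a_n‖ ≤ n`.  Choose `l_n ∈ Λ`, `‖a_n - l_n‖ ≤ R` (lattice) and translate: `e'_n = e_n (· + l_n)`, `g'_n`; they are in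
`ZS` (`zs_trans`: `trans`, `Z_inv`, `gd_add`), and `1/(n+1)`-close at the points of `Gd B δ` with `‖z‖ ≤ n - R`.  Let `𝒰` be an
ultrafilter `≤ atTop` and `e ∈ S` the limit of `e'_n` (`exists_lim`); `e ∈ ZS` by `Z_lim`; `g'_n` has the same limit.  Let `z₀, r, ε` be
from `iso e`.  By `unif` (`ball z₀ (r/2)` is bounded and inside `Gd B (2δ)`), eventually `dist (e'_n z) (e z) < ε` and
`dist (g'_n z) (e z) < ε` on `ball z₀ (r/2)`, so `e'_n z = e z = g'_n z` there (`iso`, second alternative; `e'_n, g'_n ∈ ZS`).  By `uniq`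
(`z₀ ∉ B`) `Ag B e'_n g'_n`, so `Ag B e_n g_n` (translate back): contradiction.
-/

set_option autoImplicit false

open Topology Filter Metric

namespace Pool.Agent.H62.EL

attribute [-instance] ProperSMul.toContinuousSMul

open Pool.Agent.H62.EF (Lat)

variable {Y : Type} [MetricSpace Y] {K : Set Y} {Λ : AddSubgroup ℂ} {B : Set ℂ} {δ : ℝ} {S : Set (ℂ → Y)}
  {Zr : ℂ → Y → Prop} {N : ℂ → Y → Y → ℝ}

theorem Dyn.zs_trans (h : Dyn K Λ B δ S Zr N) {e : ℂ → Y} (he : e ∈ ZS B δ S Zr) {l : ℂ} (hl : l ∈ Λ) :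
    (fun z => e (z + l)) ∈ ZS B δ S Zr := by
  refine ⟨h.trans e he.1 l hl, fun z hz => ?_⟩
  exact (h.Z_inv z l hl _).1 (he.2 (z + l) ((h.bad.gd_add (2 * δ) hl).2 hz))

theorem Dyn.zs_lim (h : Dyn K Λ B δ S Zr N) (𝒰 : Ultrafilter ℕ) (F : ℕ → ℂ → Y) (hF : ∀ᶠ n in (𝒰 : Filter ℕ), F n ∈ ZS B δ S Zr)
    {f : ℂ → Y} (hf : ∀ z, z ∉ B → Tendsto (fun n => F n z) 𝒰 (𝓝 (f z))) : f ∈ ZS B δ S Zr := by
  have h1 : ∀ᶠ n in (𝒰 : Filter ℕ), F n ∈ S := hF.mono fun n hn => hn.1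
  have h2 : f ∈ S := h.lim 𝒰 F f h1 hf
  refine ⟨h2, fun z hz => ?_⟩
  exact h.Z_lim 𝒰 F f h2 h1 hf z hz (hF.mono fun n hn => hn.2 z hz)

theorem Dyn.ag_trans (h : Dyn K Λ B δ S Zr N) {f g : ℂ → Y} {l : ℂ} (hl : l ∈ Λ) :
    Ag B (fun z => f (z + l)) (fun z => g (z + l)) ↔ Ag B f g := by
  constructor
  · intro h1 z hz
    have h2 : z - l ∉ B := by
      have h3 := (h.bad.notMem_add (z := z - l) hl).1
      rw [sub_add_cancel] at h3
      exact h3 hz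
    have h4 : f (z - l + l) = g (z - l + l) := h1 (z - l) h2
    rwa [sub_add_cancel] at h4
  · intro h1 z hz
    exact h1 (z + l) ((h.bad.notMem_add hl).2 hz)

theorem Dyn.sep (h : Dyn K Λ B δ S Zr N) : ∃ ε₁ n₁ : ℝ, 0 < ε₁ ∧ 0 < n₁ ∧ ∀ e ∈ ZS B δ S Zr, ∀ g ∈ ZS B δ S Zr, ∀ a : ℂ,
    (∀ z ∈ Gd B δ, ‖z - a‖ ≤ n₁ → dist (e z) (g z) ≤ ε₁) → Ag B e g := by
  by_contra hcon
  have hcon' : ∀ n : ℕ, ∃ e ∈ ZS B δ S Zr, ∃ g ∈ ZS B δ S Zr, ∃ a : ℂ,
      (∀ z ∈ Gd B δ, ‖z - a‖ ≤ (n : ℝ) + 1 → dist (e z) (g z) ≤ 1 / ((n : ℝ) + 1)) ∧ ¬ Ag B e g := by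
    intro n
    by_contra h1
    apply hcon
    refine ⟨1 / ((n : ℝ) + 1), (n : ℝ) + 1, by positivity, by positivity, ?_⟩
    intro e he g hg a h2
    by_contra h3
    exact h1 ⟨e, he, g, hg, a, h2, h3⟩
  choose e he g hg a hclose hne using hcon'
  obtain ⟨R, hR, hlat⟩ := h.lat.cocompact
  choose l hl hla using fun n => hlat (a n)
  have hpos := h.bad.pos
  obtain ⟨𝒰, h𝒰⟩ : ∃ 𝒰 : Ultrafilter ℕ, (𝒰 : Filter ℕ) ≤ atTop := ⟨Ultrafilter.of atTop, Ultrafilter.of_le _⟩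
  have he' : ∀ n, (fun z => e n (z + l n)) ∈ ZS B δ S Zr := fun n => h.zs_trans (he n) (hl n)
  have hg' : ∀ n, (fun z => g n (z + l n)) ∈ ZS B δ S Zr := fun n => h.zs_trans (hg n) (hl n)
  have hclose' : ∀ n : ℕ, ∀ z ∈ Gd B δ, ‖z‖ + R ≤ (n : ℝ) + 1 →
      dist (e n (z + l n)) (g n (z + l n)) ≤ 1 / ((n : ℝ) + 1) := by
    intro n z hz hzn
    refine hclose n (z + l n) ((h.bad.gd_add δ (hl n)).2 hz) ?_
    have h1 : z + l n - a n = z - (a n - l n) := by ring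
    rw [h1]
    exact (norm_sub_le _ _).trans (by linarith [hla n])
  obtain ⟨f, hfS, hf⟩ := h.exists_lim 𝒰 (fun n z => e n (z + l n)) (Filter.Eventually.of_forall fun n => (he' n).1)
  obtain ⟨f₂, hf₂S, hf₂⟩ := h.exists_lim 𝒰 (fun n z => g n (z + l n)) (Filter.Eventually.of_forall fun n => (hg' n).1)
  have hfZ : f ∈ ZS B δ S Zr := h.zs_lim 𝒰 (fun n z => e n (z + l n)) (Filter.Eventually.of_forall he') hf
  -- the two limits agree
  have heq : ∀ z ∈ Gd B δ, f z = f₂ z := by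
    intro z hz
    have hzB : z ∉ B := gd_notMem hpos hz
    have h1 : Tendsto (fun n : ℕ => dist (e n (z + l n)) (g n (z + l n))) 𝒰 (𝓝 0) := by
      have h2 : Tendsto (fun n : ℕ => 1 / ((n : ℝ) + 1)) 𝒰 (𝓝 0) :=
        tendsto_one_div_add_atTop_nhds_zero_nat.mono_left h𝒰
      refine tendsto_of_tendsto_of_tendsto_of_le_of_le' tendsto_const_nhds h2
        (Filter.Eventually.of_forall fun n => dist_nonneg) ?_
      have h3 : ∀ᶠ n : ℕ in atTop, ‖z‖ + R ≤ (n : ℝ) + 1 := by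
        filter_upwards [tendsto_natCast_atTop_atTop.eventually_ge_atTop (‖z‖ + R)] with n hn
        linarith
      filter_upwards [h𝒰 h3] with n hn
      exact hclose' n z hz hn
    exact tendsto_nhds_unique ((tendsto_iff_of_dist h1).1 (hf z hzB)) (hf₂ z hzB)
  obtain ⟨z₀, r, ε, hr, hε, hball, hiso⟩ := h.iso f hfS hfZ.2
  have hz₀ : z₀ ∈ ball z₀ r := mem_ball_self hr
  have hz₀B : z₀ ∉ B := gd_notMem (by positivity) (hball hz₀)
  have hAg : Ag B f f₂ := by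
    refine h.uniq f hfS f₂ hf₂S z₀ hz₀B (Filter.Eventually.frequently ?_)
    have h1 : ∀ᶠ z in 𝓝 z₀, f z = f₂ z := by
      filter_upwards [isOpen_ball.mem_nhds hz₀] with z hz
      exact heq z (gd_mono (by linarith) (hball hz))
    exact h1.filter_mono nhdsWithin_le_nhds
  have hf₂' : ∀ z, z ∉ B → Tendsto (fun n => g n (z + l n)) 𝒰 (𝓝 (f z)) := by
    intro z hz
    rw [hAg z hz]
    exact hf₂ z hz
  have hu1 := h.unif 𝒰 (fun n z => e n (z + l n)) (Filter.Eventually.of_forall fun n => (he' n).1) hfS hf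
    (δ' := 2 * δ) (by positivity) (‖z₀‖ + r) ε hε
  have hu2 := h.unif 𝒰 (fun n z => g n (z + l n)) (Filter.Eventually.of_forall fun n => (hg' n).1) hfS hf₂'
    (δ' := 2 * δ) (by positivity) (‖z₀‖ + r) ε hε
  obtain ⟨n, h1, h2⟩ := (hu1.and hu2).exists
  refine hne n ((h.ag_trans (hl n)).1 ?_)
  refine h.uniq _ (he' n).1 _ (hg' n).1 z₀ hz₀B (Filter.Eventually.frequently ?_)
  have h3 : ∀ᶠ z in 𝓝 z₀, e n (z + l n) = g n (z + l n) := by
    filter_upwards [isOpen_ball.mem_nhds hz₀] with z hz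
    have hzn : ‖z‖ ≤ ‖z₀‖ + r := by
      rw [mem_ball, dist_eq_norm] at hz
      have h4 : z = z₀ + (z - z₀) := by ring
      calc ‖z‖ = ‖z₀ + (z - z₀)‖ := by rw [← h4]
        _ ≤ ‖z₀‖ + ‖z - z₀‖ := norm_add_le _ _
        _ ≤ ‖z₀‖ + r := by linarith
    have h5 : e n (z + l n) = f z :=
      hiso _ (he' n).1 z hz (h1 z (hball hz) hzn) (Or.inr ((he' n).2 z (hball hz)))
    have h6 : g n (z + l n) = f z :=
      hiso _ (hg' n).1 z hz (h2 z (hball hz) hzn) (Or.inr ((hg' n).2 z (hball hz)))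
    rw [h5, h6]
  exact h3.filter_mono nhdsWithin_le_nhds

end Pool.Agent.H62.EL

end

section

/-!
# EL DyC: near pairs with `N = 0` are near a member of `ZS`

By contradiction: for every `n` there are `f_n, g_n ∈ S`, not in agreement, and `a_n`, with `dist (f_n z) (g_n z) ≤ 1/(n+1)` for
`z ∈ Gd B δ`, `‖z - a_n‖ ≤ n`, and `N z (f_n z) (g_n z) = 0` for `z ∈ Gd B (2δ)`, `‖z - a_n‖ ≤ n`, but no `e ∈ ZS` is `ε'`-close to
both on `Gd B δ ∩ closedBall a_n n₂`.  Translate by `l_n ∈ Λ`, `‖a_n - l_n‖ ≤ R`: `f'_n = f_n (· + l_n)`, `g'_n`.  Let `f ∈ S` be the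
limit of the `f'_n` along an ultrafilter `≤ atTop`; it is also the limit of the `g'_n` (a point `z ∉ B` is in `Gd B δ'` for some `δ'`,
BUT closeness is known only on `Gd B δ`: let `g ∈ S` be the limit of the `g'_n`; `f = g` on `Gd B δ`, hence `Ag B f g` by `uniq`,
as `Gd B (2δ)` is nonempty and its points are interior points of `Gd B δ`).  Claim `f ∈ ZS`: let `z ∈ Gd B (2δ)`.  By `exists_ne` choose
`w_n ∈ Gd B (2δ)`, `‖w_n - z‖ < 1/(n+1)`, `f'_n w_n ≠ g'_n w_n`; eventually `‖w_n + l_n - a_n‖ ≤ n`, so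
`N w_n (f'_n w_n) (g'_n w_n) = N (w_n + l_n) ... = 0` (`N_inv`); by `near`, `Zr z (f z)`.  By `unif`, for large `n`, `f'_n` and `g'_n` are
`ε'`-close to `f` on the points of `Gd B δ` of norm `≤ n₂ + R`; so `e := f (· - l_n) ∈ ZS` is `ε'`-close to `f_n`, `g_n` at the points of
`Gd B δ` with `‖z - a_n‖ ≤ n₂`: contradiction.
[If `Gd B (2δ)` were empty there is nothing to prove for the claim; nonempty: `b + 4δ` for `b ∈ B`, or `0` if `B = ∅`.]
-/

set_option autoImplicit false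

open Topology Filter Metric

namespace Pool.Agent.H62.EL

attribute [-instance] ProperSMul.toContinuousSMul

open Pool.Agent.H62.EF (Lat)

variable {Y : Type} [MetricSpace Y] {K : Set Y} {Λ : AddSubgroup ℂ} {B : Set ℂ} {δ : ℝ} {S : Set (ℂ → Y)}
  {Zr : ℂ → Y → Prop} {N : ℂ → Y → Y → ℝ}

theorem Dyn.near_zs (h : Dyn K Λ B δ S Zr N) {ε' : ℝ} (hε' : 0 < ε') (n₂ : ℝ) : ∃ ε₃ R₃ : ℝ, 0 < ε₃ ∧ 0 < R₃ ∧
    ∀ f ∈ S, ∀ g ∈ S, ¬ Ag B f g → ∀ a : ℂ, (∀ z ∈ Gd B δ, ‖z - a‖ ≤ R₃ → dist (f z) (g z) ≤ ε₃) →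
      (∀ z ∈ Gd B (2 * δ), ‖z - a‖ ≤ R₃ → N z (f z) (g z) = 0) →
      ∃ e ∈ ZS B δ S Zr, ∀ z ∈ Gd B δ, ‖z - a‖ ≤ n₂ → dist (f z) (e z) ≤ ε' ∧ dist (g z) (e z) ≤ ε' := by
  by_contra hcon
  push Not at hcon
  choose f hf g hg hne a hcl hN hbad using fun n : ℕ =>
    hcon (1 / ((n : ℝ) + 1)) ((n : ℝ) + 1) (by positivity) (by positivity)
  obtain ⟨R, hR, hRl⟩ := h.lat.cocompact
  choose l hl hla using fun n => hRl (a n)
  have hδ : 0 < δ := h.bad.pos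
  set 𝒰 : Ultrafilter ℕ := Filter.hyperfilter ℕ with h𝒰
  have hle : (𝒰 : Filter ℕ) ≤ atTop := by
    rw [h𝒰, ← Nat.cofinite_eq_atTop]
    exact Filter.hyperfilter_le_cofinite
  have hlarge : ∀ c : ℝ, ∀ᶠ n : ℕ in (𝒰 : Filter ℕ), c ≤ (n : ℝ) + 1 := by
    intro c
    have h1 : ∀ᶠ n : ℕ in atTop, c ≤ (n : ℝ) := tendsto_natCast_atTop_atTop.eventually_ge_atTop c
    filter_upwards [hle h1] with n hn
    linarith
  have hzero : Tendsto (fun n : ℕ => 1 / ((n : ℝ) + 1)) 𝒰 (𝓝 0) :=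
    Tendsto.mono_left (tendsto_one_div_add_atTop_nhds_zero_nat (𝕜 := ℝ)) hle
  set F : ℕ → ℂ → Y := fun n z => f n (z + l n) with hFdef
  set G : ℕ → ℂ → Y := fun n z => g n (z + l n) with hGdef
  have hFS : ∀ n, F n ∈ S := fun n => h.trans _ (hf n) _ (hl n)
  have hGS : ∀ n, G n ∈ S := fun n => h.trans _ (hg n) _ (hl n)
  have hFGne : ∀ n, ¬ Ag B (F n) (G n) := fun n hAg => hne n ((h.ag_trans (hl n)).mp hAg)
  obtain ⟨f₀, hf₀, hflim⟩ := h.exists_lim 𝒰 F (Filter.Eventually.of_forall hFS)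
  obtain ⟨g₀, hg₀, hglim⟩ := h.exists_lim 𝒰 G (Filter.Eventually.of_forall hGS)
  have hnorm : ∀ (z : ℂ) (n : ℕ), ‖z + l n - a n‖ ≤ ‖z‖ + R := by
    intro z n
    have h1 : z + l n - a n = z - (a n - l n) := by ring
    rw [h1]
    exact (norm_sub_le _ _).trans (by linarith [hla n])
  -- the two limits agree
  have heq : ∀ z ∈ Gd B δ, f₀ z = g₀ z := by
    intro z hz
    have hzB : z ∉ B := gd_notMem hδ hz
    have h1 : Tendsto (fun n => dist (F n z) (G n z)) 𝒰 (𝓝 (dist (f₀ z) (g₀ z))) := (hflim z hzB).dist (hglim z hzB)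
    have h2 : Tendsto (fun n => dist (F n z) (G n z)) 𝒰 (𝓝 0) := by
      refine squeeze_zero' (Filter.Eventually.of_forall fun n => dist_nonneg) ?_ hzero
      filter_upwards [hlarge (‖z‖ + R)] with n hn
      exact hcl n (z + l n) ((h.bad.gd_add δ (hl n)).mpr hz) ((hnorm z n).trans hn)
    exact dist_eq_zero.mp (tendsto_nhds_unique h1 h2)
  have hAg : Ag B f₀ g₀ := by
    obtain ⟨z₀, hz₀⟩ := h.bad.nonempty
    have h2δ : (0 : ℝ) < 2 * δ := by positivity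
    refine h.uniq f₀ hf₀ g₀ hg₀ z₀ (gd_notMem h2δ hz₀) ?_
    have h1 : ∀ᶠ z in 𝓝 z₀, f₀ z = g₀ z := by
      filter_upwards [ball_mem_nhds z₀ hδ] with z hz
      refine heq z fun b hb => ?_
      have h3 := hz₀ b hb
      have h4 : ‖z - z₀‖ < δ := by rwa [← mem_ball_iff_norm]
      have h5 : ‖z₀ - b‖ ≤ ‖z - z₀‖ + ‖z - b‖ := by
        have h6 : z₀ - b = -(z - z₀) + (z - b) := by ring
        rw [h6]
        exact (norm_add_le _ _).trans (by rw [norm_neg])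
      linarith
    exact (h1.filter_mono nhdsWithin_le_nhds).frequently
  have hGlim : ∀ z, z ∉ B → Tendsto (fun n => G n z) 𝒰 (𝓝 (f₀ z)) := by
    intro z hz
    rw [hAg z hz]
    exact hglim z hz
  -- the limit is in `ZS`
  have hZS : f₀ ∈ ZS B δ S Zr := by
    refine ⟨hf₀, fun z hz => ?_⟩
    choose w hw hwz hwne using fun n : ℕ =>
      h.exists_ne (hFS n) (hGS n) (hFGne n) hz (ε := 1 / ((n : ℝ) + 1)) (by positivity)
    have hwlim : Tendsto w 𝒰 (𝓝 z) := by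
      rw [tendsto_iff_norm_sub_tendsto_zero]
      exact squeeze_zero (fun n => norm_nonneg _) (fun n => (hwz n).le) hzero
    refine h.near 𝒰 F G w f₀ hf₀ z hz (Filter.Eventually.of_forall fun n => ⟨hFS n, hGS n⟩) hflim hGlim hwlim ?_
    filter_upwards [hlarge (1 + ‖z‖ + R)] with n hn
    refine ⟨hw n, hwne n, ?_⟩
    have h1 : ‖w n‖ ≤ 1 + ‖z‖ := by
      have h2 : ‖w n‖ ≤ ‖w n - z‖ + ‖z‖ := by
        have h3 : w n = (w n - z) + z := by ring
        calc ‖w n‖ = ‖(w n - z) + z‖ := by rw [← h3]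
          _ ≤ ‖w n - z‖ + ‖z‖ := norm_add_le _ _
      have h4 : 1 / ((n : ℝ) + 1) ≤ 1 := by
        rw [div_le_one (by positivity)]
        have : (0 : ℝ) ≤ (n : ℝ) := Nat.cast_nonneg n
        linarith
      linarith [hwz n]
    have h5 := hN n (w n + l n) ((h.bad.gd_add (2 * δ) (hl n)).mpr (hw n)) ((hnorm (w n) n).trans (by linarith))
    rw [h.N_inv (w n) (l n) (hl n)] at h5
    exact h5
  -- the contradiction
  have hu1 := h.unif 𝒰 F (Filter.Eventually.of_forall hFS) hf₀ hflim hδ (n₂ + R) ε' hε'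
  have hu2 := h.unif 𝒰 G (Filter.Eventually.of_forall hGS) hf₀ hGlim hδ (n₂ + R) ε' hε'
  obtain ⟨n, hn1, hn2⟩ := (hu1.and hu2).exists
  have hneg : -l n ∈ Λ := Λ.neg_mem (hl n)
  obtain ⟨z, hz, hza, hzc⟩ := hbad n (fun z => f₀ (z + -l n)) (h.zs_trans hZS hneg)
  have h1 : z + -l n ∈ Gd B δ := (h.bad.gd_add δ hneg).mpr hz
  have h2 : ‖z + -l n‖ ≤ n₂ + R := by
    have h3 : z + -l n = (z - a n) + (a n - l n) := by ring
    rw [h3]
    exact (norm_add_le _ _).trans (by linarith [hla n])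
  have h4 : z + -l n + l n = z := by ring
  have h5 := hn1 _ h1 h2
  have h6 := hn2 _ h1 h2
  simp only [hFdef, hGdef, h4] at h5 h6
  exact absurd (hzc h5.le) (not_lt.mpr h6.le)

end Pool.Agent.H62.EL

end

section

/-!
# EL DyD: rigidity of the members of `ZS`

By contradiction: `e_n ∈ ZS`, `g_n ∈ S`, `a_n`, not `Ag B e_n g_n`, `dist (g_n z) (e_n z) ≤ 1/(n+1)` on `Gd B δ ∩ closedBall a_n n` and
`N z (e_n z) (g_n z) = 0` on `Gd B (2δ) ∩ closedBall a_n n`.  Translate by `l_n`: `e'_n, g'_n`; limit `e` of the `e'_n`, `e ∈ ZS` (`zs_lim`),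
and `g'_n → e` on `Gd B δ`.  By `unif` (for the `e'_n`) and `sep`: `e'_n` is `ε₁`-close to `e` on `Gd B δ ∩ closedBall 0 n₁` for large `n`, so
`Ag B e'_n e`.  Let `z₀, r, ε` be from `iso e`.  For large `n`, `dist (g'_n z) (e z) ≤ 1/(n+1) < ε` for `z ∈ ball z₀ r` (there `e'_n z = e z`,
and `‖z + l_n - a_n‖ ≤ n`), and `N z (e z) (g'_n z) = N (z + l_n) (e_n (z + l_n)) (g_n (z + l_n)) = 0`.  So `g'_n z = e z = e'_n z` on `ball z₀ r`;
`uniq`: `Ag B g'_n e'_n`, so `Ag B e_n g_n`: contradiction.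
-/

set_option autoImplicit false

open Topology Filter Metric

namespace Pool.Agent.H62.EL

attribute [-instance] ProperSMul.toContinuousSMul

open Pool.Agent.H62.EF (Lat)

variable {Y : Type} [MetricSpace Y] {K : Set Y} {Λ : AddSubgroup ℂ} {B : Set ℂ} {δ : ℝ} {S : Set (ℂ → Y)}
  {Zr : ℂ → Y → Prop} {N : ℂ → Y → Y → ℝ}

theorem Dyn.rigid (h : Dyn K Λ B δ S Zr N) : ∃ ε₂ R₂ : ℝ, 0 < ε₂ ∧ 0 < R₂ ∧ ∀ e ∈ ZS B δ S Zr, ∀ g ∈ S, ∀ a : ℂ,
    (∀ z ∈ Gd B δ, ‖z - a‖ ≤ R₂ → dist (g z) (e z) ≤ ε₂) → (∀ z ∈ Gd B (2 * δ), ‖z - a‖ ≤ R₂ → N z (e z) (g z) = 0) →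
    Ag B e g := by
  by_contra hcon
  have hδ : 0 < δ := h.bad.pos
  have hex : ∀ n : ℕ, ∃ e ∈ ZS B δ S Zr, ∃ g ∈ S, ∃ a : ℂ,
      (∀ z ∈ Gd B δ, ‖z - a‖ ≤ (n : ℝ) + 1 → dist (g z) (e z) ≤ 1 / ((n : ℝ) + 1)) ∧
      (∀ z ∈ Gd B (2 * δ), ‖z - a‖ ≤ (n : ℝ) + 1 → N z (e z) (g z) = 0) ∧ ¬ Ag B e g := by
    intro n
    by_contra hn
    refine hcon ⟨1 / ((n : ℝ) + 1), (n : ℝ) + 1, by positivity, by positivity, ?_⟩
    intro e he g hg a h1 h2
    by_contra h3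
    exact hn ⟨e, he, g, hg, a, h1, h2, h3⟩
  choose e he g hg a h1 h2 h3 using hex
  obtain ⟨RL, _, hRL⟩ := h.lat.cocompact
  have hex2 : ∀ n : ℕ, ∃ l ∈ Λ, ‖a n - l‖ ≤ RL := fun n => hRL (a n)
  choose l hl hal using hex2
  obtain ⟨𝒰, h𝒰⟩ : ∃ 𝒰 : Ultrafilter ℕ, (𝒰 : Filter ℕ) ≤ atTop := ⟨Ultrafilter.of atTop, Ultrafilter.of_le atTop⟩
  have he' : ∀ n, (fun z => e n (z + l n)) ∈ ZS B δ S Zr := fun n => h.zs_trans (he n) (hl n)
  have hg' : ∀ n, (fun z => g n (z + l n)) ∈ S := fun n => h.trans _ (hg n) _ (hl n)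
  obtain ⟨e₀, he₀S, he₀⟩ := h.exists_lim 𝒰 (fun n z => e n (z + l n)) (Eventually.of_forall fun n => (he' n).1)
  have he₀Z : e₀ ∈ ZS B δ S Zr := h.zs_lim 𝒰 (fun n z => e n (z + l n)) (Eventually.of_forall he') he₀
  obtain ⟨ε₁, n₁, hε₁, hn₁, hsep⟩ := h.sep
  obtain ⟨z₀, r, ε, hr, hε, hball, hiso⟩ := h.iso e₀ he₀S he₀Z.2
  have ev1 : ∀ᶠ n in (𝒰 : Filter ℕ), ∀ z ∈ Gd B δ, ‖z‖ ≤ n₁ → dist (e n (z + l n)) (e₀ z) < ε₁ :=
    h.unif 𝒰 (fun n z => e n (z + l n)) (Eventually.of_forall fun n => (he' n).1) he₀S he₀ hδ n₁ ε₁ hε₁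
  have hinv : Tendsto (fun n : ℕ => 1 / ((n : ℝ) + 1)) atTop (𝓝 0) := tendsto_one_div_add_atTop_nhds_zero_nat
  have ev2 : ∀ᶠ n : ℕ in (𝒰 : Filter ℕ), 1 / ((n : ℝ) + 1) < ε := (hinv.eventually_lt_const hε).filter_mono h𝒰
  have ev3 : ∀ᶠ n : ℕ in (𝒰 : Filter ℕ), ‖z₀‖ + r + RL ≤ (n : ℝ) + 1 := by
    have : Tendsto (fun n : ℕ => (n : ℝ) + 1) atTop atTop :=
      tendsto_atTop_add_const_right _ _ tendsto_natCast_atTop_atTop
    exact (this.eventually_ge_atTop _).filter_mono h𝒰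
  obtain ⟨n, hn1, hn2, hn3⟩ := (ev1.and (ev2.and ev3)).exists
  have hag : Ag B (fun z => e n (z + l n)) e₀ :=
    hsep _ (he' n) _ he₀Z 0 (fun z hz hz' => (hn1 z hz (by rwa [sub_zero] at hz')).le)
  have key : ∀ z ∈ ball z₀ r, g n (z + l n) = e n (z + l n) := by
    intro z hz
    have hzG := hball hz
    have hzG1 : z ∈ Gd B δ := gd_mono (by linarith) hzG
    have hzB : z ∉ B := gd_notMem (by linarith) hzG
    have hez : e n (z + l n) = e₀ z := hag z hzB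
    have hz' : ‖z - z₀‖ < r := by rwa [mem_ball, dist_eq_norm] at hz
    have hnorm : ‖z + l n - a n‖ ≤ (n : ℝ) + 1 := by
      calc ‖z + l n - a n‖ = ‖(z - z₀) + z₀ - (a n - l n)‖ := by congr 1; ring
        _ ≤ ‖(z - z₀) + z₀‖ + ‖a n - l n‖ := norm_sub_le _ _
        _ ≤ ‖z - z₀‖ + ‖z₀‖ + ‖a n - l n‖ := by linarith [norm_add_le (z - z₀) z₀]
        _ ≤ (n : ℝ) + 1 := by linarith [hal n]
    have hd := h1 n (z + l n) ((h.bad.gd_add δ (hl n)).2 hzG1) hnorm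
    have hN := h2 n (z + l n) ((h.bad.gd_add (2 * δ) (hl n)).2 hzG) hnorm
    rw [h.N_inv z (l n) (hl n)] at hN
    rw [hez] at hd hN ⊢
    exact hiso _ (hg' n) z hz (lt_of_le_of_lt hd hn2) (Or.inl hN)
  have hz₀B : z₀ ∉ B := gd_notMem (by linarith) (hball (mem_ball_self hr))
  have hfreq : ∃ᶠ z in 𝓝[≠] z₀, (fun z => e n (z + l n)) z = (fun z => g n (z + l n)) z := by
    have hev : ∀ᶠ z in 𝓝[≠] z₀, (fun z => e n (z + l n)) z = (fun z => g n (z + l n)) z :=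
      nhdsWithin_le_nhds (mem_of_superset (ball_mem_nhds z₀ hr) fun z hz => (key z hz).symm)
    exact hev.frequently
  have hAg := h.uniq _ (he' n).1 _ (hg' n) z₀ hz₀B hfreq
  exact h3 n ((h.ag_trans (hl n)).1 hAg)

end Pool.Agent.H62.EL

end

section

/-!
# EL DyE: two members of `S` which are close on a half plane agree

`half_zero`: with `C, κ, r₁, ε₀` from `decay`; let `f, g` be `ε₀`-close on `Gd B δ ∩ {re (conj ζ z) ≤ t}`, `z ∈ Gd B (2δ)`,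
`re (conj ζ z) ≤ t - (r₁ + 1)`.  For `s > 0` put `c = z - s ζ`, `R = s + r₁ + 1`: the disc `‖w - c‖ ≤ R` is in the half plane
[`re (conj ζ w) ≤ re (conj ζ c) + R = re (conj ζ z) - s + R ≤ t`], and `‖z - c‖ = s ≤ R - r₁ = s + 1`.  So
`N z (f z) (g z) ≤ C exp (-κ ((s+1)² - s²)) ≤ C exp (-κ (2s + 1))` for all `s`: it is `0`.

`chain`: a transitive relation which holds for pairs of points of a convex set of distance `≤ 1` holds for all pairs (subdivide).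

`half_plane`: let `ε₁, n₁` be from `sep`, `ε₂, R₂` from `rigid`, `r₁', ε₀` from `half_zero`; `ε' = min (min (ε₁/2) ε₂) ε₀`, `n₂ = n₁ + 1`;
`ε₃, R₃` from `near_zs ε' n₂`.  `ε* = min ε₃ ε₀`.  Let `f, g` be `ε*`-close on `Gd B δ ∩ {re (conj ζ z) ≤ t}` and suppose not `Ag B f g`.
(1) `N z (f z) (g z) = 0` for `z ∈ Gd B (2δ)`, `re (conj ζ z) ≤ t - r₁'`.
(2) For every `a` in `H' = {re (conj ζ a) ≤ t - r₁' - R₃}` there is `e_a ∈ ZS` with `f`, `g` `ε'`-close to `e_a` on `Gd B δ ∩ closedBall a n₂`.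
(3) for `a, a' ∈ H'`, `‖a - a'‖ ≤ 1`: `e_a`, `e_a'` are `2ε' ≤ ε₁`-close on `Gd B δ ∩ closedBall a n₁`, so `Ag B e_a e_a'` (`sep`); by `chain` this
holds for all `a, a' ∈ H'`.  Fix `a₀ = (t - r₁' - R₃) ζ` and `e = e_{a₀}`.  So (take `a = z`; `Gd B δ` is disjoint from `B`) `f` and `g` are
`ε'`-close to `e` on `Gd B δ ∩ H'`.
(4) `half_zero` for `(e, f)` and `(e, g)` on `H'`: `N z (e z) (f z) = 0 = N z (e z) (g z)` for `z ∈ Gd B (2δ)`, `re (conj ζ z) ≤ t - 2r₁' - R₃`.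
(5) `rigid` with `a = (t - 2r₁' - R₃ - R₂) ζ`: `Ag B e f` and `Ag B e g`.  So `Ag B f g`: contradiction.
-/

set_option autoImplicit false

open Topology Filter Metric

namespace Pool.Agent.H62.EL

attribute [-instance] ProperSMul.toContinuousSMul

open Pool.Agent.H62.EF (Lat)

variable {Y : Type} [MetricSpace Y] {K : Set Y} {Λ : AddSubgroup ℂ} {B : Set ℂ} {δ : ℝ} {S : Set (ℂ → Y)}
  {Zr : ℂ → Y → Prop} {N : ℂ → Y → Y → ℝ}

private theorem dyE_re {ζ : ℂ} (hζ : ‖ζ‖ = 1) (z a : ℂ) :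
    ((starRingEnd ℂ) ζ * z).re ≤ ((starRingEnd ℂ) ζ * a).re + ‖z - a‖ := by
  have h1 : (starRingEnd ℂ) ζ * z = (starRingEnd ℂ) ζ * a + (starRingEnd ℂ) ζ * (z - a) := by ring
  have h2 : ((starRingEnd ℂ) ζ * (z - a)).re ≤ ‖z - a‖ := by
    refine (Complex.re_le_norm _).trans ?_
    rw [norm_mul, RCLike.norm_conj, hζ, one_mul]
  rw [h1, Complex.add_re]
  linarith

private theorem dyE_mul {ζ : ℂ} (hζ : ‖ζ‖ = 1) (s : ℝ) : ((starRingEnd ℂ) ζ * ((s : ℂ) * ζ)).re = s := by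
  have h1 : (starRingEnd ℂ) ζ * ((s : ℂ) * ζ) = (s : ℂ) * (ζ * (starRingEnd ℂ) ζ) := by ring
  have h2 : ζ * (starRingEnd ℂ) ζ = 1 := by
    rw [Complex.mul_conj, Complex.normSq_eq_norm_sq, hζ]
    norm_num
  rw [h1, h2, mul_one, Complex.ofReal_re]

theorem chain {H : Set ℂ} (hH : Convex ℝ H) {r : ℂ → ℂ → Prop} (htr : ∀ a b c, r a b → r b c → r a c)
    (h1 : ∀ a ∈ H, ∀ b ∈ H, ‖a - b‖ ≤ 1 → r a b) {a b : ℂ} (ha : a ∈ H) (hb : b ∈ H) : r a b := by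
  obtain ⟨n, hn⟩ := exists_nat_ge ‖b - a‖
  have hn0 : (0 : ℝ) < (n : ℝ) + 1 := by positivity
  have hp : ∀ i : ℕ, i ≤ n + 1 → a + (((i : ℝ) / ((n : ℝ) + 1) : ℝ) : ℂ) * (b - a) ∈ H := by
    intro i hi
    have h2 : (i : ℝ) / ((n : ℝ) + 1) ≤ 1 := by
      rw [div_le_one hn0]
      exact_mod_cast hi
    have h3 : 0 ≤ (i : ℝ) / ((n : ℝ) + 1) := by positivity
    have h4 := hH ha hb (sub_nonneg.mpr h2) h3 (by ring)
    have h5 : a + (((i : ℝ) / ((n : ℝ) + 1) : ℝ) : ℂ) * (b - a) =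
        (1 - (i : ℝ) / ((n : ℝ) + 1)) • a + ((i : ℝ) / ((n : ℝ) + 1)) • b := by
      rw [Complex.real_smul, Complex.real_smul]
      push_cast
      ring
    rw [h5]
    exact h4
  have key : ∀ i : ℕ, i ≤ n + 1 → r a (a + (((i : ℝ) / ((n : ℝ) + 1) : ℝ) : ℂ) * (b - a)) := by
    intro i
    induction i with
    | zero =>
      intro _
      have h2 : a + ((((0 : ℕ) : ℝ) / ((n : ℝ) + 1) : ℝ) : ℂ) * (b - a) = a := by simp
      rw [h2]
      refine h1 a ha a ha ?_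
      rw [sub_self, norm_zero]
      exact zero_le_one
    | succ i ih =>
      intro hi
      refine htr _ _ _ (ih (by omega)) (h1 _ (hp i (by omega)) _ (hp (i + 1) hi) ?_)
      have h2 : a + (((i : ℝ) / ((n : ℝ) + 1) : ℝ) : ℂ) * (b - a) -
          (a + ((((i + 1 : ℕ) : ℝ) / ((n : ℝ) + 1) : ℝ) : ℂ) * (b - a)) =
          (((-1 / ((n : ℝ) + 1) : ℝ)) : ℂ) * (b - a) := by
        push_cast
        ring
      rw [h2, norm_mul, Complex.norm_real, Real.norm_eq_abs, abs_div, abs_neg, abs_one, abs_of_pos hn0,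
        div_mul_eq_mul_div, one_mul, div_le_one hn0]
      linarith
  have h2 := key (n + 1) le_rfl
  have h3 : a + ((((n + 1 : ℕ) : ℝ) / ((n : ℝ) + 1) : ℝ) : ℂ) * (b - a) = b := by
    have h4 : (((n + 1 : ℕ) : ℝ) / ((n : ℝ) + 1)) = 1 := by
      push_cast
      exact div_self hn0.ne'
    rw [h4]
    push_cast
    ring
  rwa [h3] at h2

theorem Dyn.half_zero (h : Dyn K Λ B δ S Zr N) : ∃ r₁ ε₀ : ℝ, 0 < r₁ ∧ 0 < ε₀ ∧ ∀ f ∈ S, ∀ g ∈ S, ∀ (ζ : ℂ) (t : ℝ), ‖ζ‖ = 1 →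
    (∀ z ∈ Gd B δ, ((starRingEnd ℂ) ζ * z).re ≤ t → dist (f z) (g z) ≤ ε₀) →
    ∀ z ∈ Gd B (2 * δ), ((starRingEnd ℂ) ζ * z).re ≤ t - r₁ → N z (f z) (g z) = 0 := by
  obtain ⟨C, κ, r₁, ε₀, hC, hκ, hr₁, hε₀, hdec⟩ := h.decay
  refine ⟨r₁ + 1, ε₀, by linarith, hε₀, ?_⟩
  intro f hf g hg ζ t hζ hclose z hz hzt
  have key : ∀ s : ℕ, N z (f z) (g z) ≤ C * Real.exp (-κ * (2 * (s : ℝ) + 1)) := by
    intro s
    have hsn : ‖((s : ℝ) : ℂ) * ζ‖ = s := by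
      rw [norm_mul, hζ, mul_one, Complex.norm_real, Real.norm_eq_abs, abs_of_nonneg (Nat.cast_nonneg s)]
    have h1 := hdec f hf g hg (z - ((s : ℝ) : ℂ) * ζ) ((s : ℝ) + r₁ + 1) (fun w hw hwc => hclose w hw (by
      have h2 := dyE_re hζ w (z - ((s : ℝ) : ℂ) * ζ)
      rw [mul_sub, Complex.sub_re, dyE_mul hζ] at h2
      linarith)) z hz (by
        rw [sub_sub_cancel, hsn]
        linarith)
    rw [sub_sub_cancel, hsn] at h1
    have h2 : ((s : ℝ) + r₁ + 1 - r₁) ^ 2 - (s : ℝ) ^ 2 = 2 * (s : ℝ) + 1 := by ring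
    rwa [h2] at h1
  have hlim : Tendsto (fun s : ℕ => C * Real.exp (-κ * (2 * (s : ℝ) + 1))) atTop (𝓝 (C * 0)) := by
    refine Tendsto.const_mul C ?_
    refine Real.tendsto_exp_atBot.comp ?_
    have h1 : Tendsto (fun s : ℕ => 2 * (s : ℝ) + 1) atTop atTop :=
      tendsto_atTop_add_const_right _ _ (tendsto_natCast_atTop_atTop.const_mul_atTop two_pos)
    exact h1.const_mul_atTop_of_neg (by linarith)
  rw [mul_zero] at hlim
  exact le_antisymm (ge_of_tendsto' hlim key) (h.N_nonneg _ _ _)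

theorem Dyn.half_plane (h : Dyn K Λ B δ S Zr N) : ∃ ε : ℝ, 0 < ε ∧ ∀ f ∈ S, ∀ g ∈ S, ∀ (ζ : ℂ) (t : ℝ), ‖ζ‖ = 1 →
    (∀ z ∈ Gd B δ, ((starRingEnd ℂ) ζ * z).re ≤ t → dist (f z) (g z) ≤ ε) → Ag B f g := by
  obtain ⟨ε₁, n₁, hε₁, hn₁, hsep⟩ := h.sep
  obtain ⟨ε₂, R₂, hε₂, hR₂, hrig⟩ := h.rigid
  obtain ⟨r', ε₀, hr', hε₀, hzero⟩ := h.half_zero
  obtain ⟨ε', hε'def⟩ : ∃ ε' : ℝ, ε' = min (min (ε₁ / 2) ε₂) ε₀ := ⟨_, rfl⟩
  have hε' : 0 < ε' := by
    rw [hε'def]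
    exact lt_min (lt_min (by positivity) hε₂) hε₀
  have hε'1 : ε' ≤ ε₁ / 2 := by
    rw [hε'def]
    exact (min_le_left _ _).trans (min_le_left _ _)
  have hε'2 : ε' ≤ ε₂ := by
    rw [hε'def]
    exact (min_le_left _ _).trans (min_le_right _ _)
  have hε'0 : ε' ≤ ε₀ := by
    rw [hε'def]
    exact min_le_right _ _
  obtain ⟨ε₃, R₃, hε₃, hR₃, hnear⟩ := h.near_zs hε' (n₁ + 1)
  refine ⟨min ε₃ ε₀, lt_min hε₃ hε₀, ?_⟩
  intro f hf g hg ζ t hζ hclose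
  by_contra hag
  -- (1)
  have h1 : ∀ z ∈ Gd B (2 * δ), ((starRingEnd ℂ) ζ * z).re ≤ t - r' → N z (f z) (g z) = 0 :=
    hzero f hf g hg ζ t hζ (fun z hz hzt => (hclose z hz hzt).trans (min_le_right _ _))
  -- (2)
  have h2 : ∀ a : ℂ, ((starRingEnd ℂ) ζ * a).re ≤ t - r' - R₃ → ∃ e ∈ ZS B δ S Zr, ∀ z ∈ Gd B δ,
      ‖z - a‖ ≤ n₁ + 1 → dist (f z) (e z) ≤ ε' ∧ dist (g z) (e z) ≤ ε' := by
    intro a ha
    refine hnear f hf g hg hag a ?_ ?_
    · intro z hz hza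
      refine (hclose z hz ?_).trans (min_le_left _ _)
      have := dyE_re hζ z a
      linarith
    · intro z hz hza
      refine h1 z hz ?_
      have := dyE_re hζ z a
      linarith
  have : Nonempty (ℂ → Y) := ⟨f⟩
  choose! e heZ he using h2
  -- (3)
  have hconv : Convex ℝ {a : ℂ | ((starRingEnd ℂ) ζ * a).re ≤ t - r' - R₃} := by
    refine convex_halfSpace_le (f := fun a : ℂ => ((starRingEnd ℂ) ζ * a).re) ?_ _
    refine IsLinearMap.mk (fun x y => ?_) (fun c x => ?_)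
    · rw [mul_add, Complex.add_re]
    · rw [mul_smul_comm, Complex.real_smul, Complex.re_ofReal_mul, smul_eq_mul]
  have h3 : ∀ a b : ℂ, ((starRingEnd ℂ) ζ * a).re ≤ t - r' - R₃ → ((starRingEnd ℂ) ζ * b).re ≤ t - r' - R₃ →
      Ag B (e a) (e b) := by
    intro a b ha hb
    refine chain hconv (r := fun a b => Ag B (e a) (e b)) ?_ ?_ ha hb
    · intro a b c hab hbc z hz
      exact (hab z hz).trans (hbc z hz)
    · intro a ha b hb hab
      refine hsep _ (heZ a ha) _ (heZ b hb) a ?_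
      intro z hz hza
      have h4 := (he a ha z hz (by linarith)).1
      have h5 : ‖z - b‖ ≤ n₁ + 1 := by
        have h6 : z - b = (z - a) + (a - b) := by ring
        rw [h6]
        refine (norm_add_le _ _).trans ?_
        linarith
      have h7 := (he b hb z hz h5).1
      have h8 := dist_triangle_left (e a z) (e b z) (f z)
      linarith
  have ha₀ : ((starRingEnd ℂ) ζ * (((t - r' - R₃ : ℝ) : ℂ) * ζ)).re ≤ t - r' - R₃ := (dyE_mul hζ _).le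
  obtain ⟨E, hEdef⟩ : ∃ E, E = e (((t - r' - R₃ : ℝ) : ℂ) * ζ) := ⟨_, rfl⟩
  have hEZ : E ∈ ZS B δ S Zr := by
    rw [hEdef]
    exact heZ _ ha₀
  have h4 : ∀ z ∈ Gd B δ, ((starRingEnd ℂ) ζ * z).re ≤ t - r' - R₃ → dist (f z) (E z) ≤ ε' ∧ dist (g z) (E z) ≤ ε' := by
    intro z hz hzt
    have h5 := he z hzt z hz (by
      rw [sub_self, norm_zero]
      linarith)
    have h6 := h3 z _ hzt ha₀ z (gd_notMem h.bad.pos hz)
    rw [← hEdef] at h6
    rwa [h6] at h5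
  -- (4)
  have h5 : ∀ z ∈ Gd B (2 * δ), ((starRingEnd ℂ) ζ * z).re ≤ t - r' - R₃ - r' → N z (E z) (f z) = 0 :=
    hzero E hEZ.1 f hf ζ (t - r' - R₃) hζ (fun z hz hzt => by
      rw [dist_comm]
      exact (h4 z hz hzt).1.trans hε'0)
  have h6 : ∀ z ∈ Gd B (2 * δ), ((starRingEnd ℂ) ζ * z).re ≤ t - r' - R₃ - r' → N z (E z) (g z) = 0 :=
    hzero E hEZ.1 g hg ζ (t - r' - R₃) hζ (fun z hz hzt => by
      rw [dist_comm]
      exact (h4 z hz hzt).2.trans hε'0)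
  -- (5)
  have hre : ∀ z : ℂ, ‖z - (((t - r' - R₃ - r' - R₂ : ℝ) : ℂ) * ζ)‖ ≤ R₂ → ((starRingEnd ℂ) ζ * z).re ≤ t - r' - R₃ - r' := by
    intro z hz
    have h7 := dyE_re hζ z (((t - r' - R₃ - r' - R₂ : ℝ) : ℂ) * ζ)
    rw [dyE_mul hζ] at h7
    linarith
  have h7 : Ag B E f := hrig E hEZ f hf (((t - r' - R₃ - r' - R₂ : ℝ) : ℂ) * ζ)
    (fun z hz hza => (h4 z hz (by linarith [hre z hza])).1.trans hε'2) (fun z hz hza => h5 z hz (hre z hza))
  have h8 : Ag B E g := hrig E hEZ g hg (((t - r' - R₃ - r' - R₂ : ℝ) : ℂ) * ζ)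
    (fun z hz hza => (h4 z hz (by linarith [hre z hza])).2.trans hε'2) (fun z hz hza => h6 z hz (hre z hza))
  exact hag fun z hz => (h7 z hz).symm.trans (h8 z hz)

end Pool.Agent.H62.EL

end

section

/-!
# EL DyF: finiteness

Let `ε` be from `half_plane`.  Suppose the conclusion is false.
(1) There is a sequence `h_k ∈ S` with `¬ Ag B h_k h_j` for `k ≠ j` [otherwise a maximal set of pairwise not agreeing members is finite
and is the wanted set; e.g. `Ag B` is an equivalence relation: if the quotient of `S` is finite choose representatives, if it is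
infinite choose an injective sequence of classes and representatives].
(2) For every `n` there are `f_n, g_n ∈ S`, `¬ Ag B f_n g_n`, `dist (f_n z) (g_n z) ≤ ε` for `z ∈ Gd B δ`, `‖z‖ ≤ n`: let `h ∈ S` be the limit
of `h_k` along a free ultrafilter; by `unif` the set of `k` with `dist (h_k z) (h z) < ε/2` on `Gd B δ ∩ closedBall 0 n` is in the
ultrafilter, so it has two elements.
(3) Let `m_n ≥ n` be the least natural number such that `f_n, g_n` are not `ε`-close on `Gd B δ ∩ closedBall 0 (m_n + 1)` [exists: otherwise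
they are `ε`-close on `Gd B δ`, so `Ag B f_n g_n` by `half_plane` with `ζ = 1` and any `t`]: there is `z_n ∈ Gd B δ`, `m_n < ‖z_n‖ ≤ m_n + 1`,
`dist (f_n z_n) (g_n z_n) > ε`, and they are `ε`-close on `Gd B δ ∩ closedBall 0 m_n`.
(4) `l_n ∈ Λ`, `‖z_n - l_n‖ ≤ R`; `f'_n = f_n (· + l_n)`, `g'_n`; ultrafilter `𝒰 ≤ atTop`; limits `f', g' ∈ S`; `w = lim (z_n - l_n)`,
`w ∈ Gd B δ` (closed, invariant); by `tendsto_along` `dist (f' w) (g' w) ≥ ε`, so `¬ Ag B f' g'`.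
(5) `ζ = lim l_n / ‖l_n‖` (`‖l_n‖ → ∞`).  Let `z ∈ Gd B δ`, `re (conj ζ z) ≤ -(R + 3)`.  Then `‖z + l_n‖ ≤ m_n` eventually:
`‖z + l_n‖² = ‖l_n‖² + 2 re (conj l_n z) + ‖z‖²`, `re (conj l_n z) / ‖l_n‖ → re (conj ζ z)`, so `‖z + l_n‖² ≤ ‖l_n‖² - 2 (R + 2) ‖l_n‖ + ‖z‖² ≤
(‖l_n‖ - R - 1)² ≤ m_n²` eventually (`‖l_n‖ ≤ m_n + 1 + R`).  So `dist (f' z) (g' z) ≤ ε`.  By `half_plane` `Ag B f' g'`: contradiction.
-/

set_option autoImplicit false

open Topology Filter Metric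

namespace Pool.Agent.H62.EL

attribute [-instance] ProperSMul.toContinuousSMul

open Pool.Agent.H62.EF (Lat)

variable {Y : Type} [MetricSpace Y] {K : Set Y} {Λ : AddSubgroup ℂ} {B : Set ℂ} {δ : ℝ} {S : Set (ℂ → Y)}
  {Zr : ℂ → Y → Prop} {N : ℂ → Y → Y → ℝ}

private theorem dyF_two (h : Dyn K Λ B δ S Zr N)
    (hno : ¬ ∃ 𝓕 : Set (ℂ → Y), 𝓕.Finite ∧ 𝓕 ⊆ S ∧ ∀ f ∈ S, ∃ g ∈ 𝓕, Ag B f g) (R ε : ℝ) (hε : 0 < ε) :
    ∃ f ∈ S, ∃ g ∈ S, ¬ Ag B f g ∧ ∀ z ∈ Gd B δ, ‖z‖ ≤ R → dist (f z) (g z) < ε := by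
  let r : Setoid S :=
    { r := fun f g => Ag B f.1 g.1
      iseqv := ⟨fun f z _ => rfl, fun hfg z hz => (hfg z hz).symm, fun h1 h2 z hz => (h1 z hz).trans (h2 z hz)⟩ }
  have hinf : Infinite (Quotient r) := by
    by_contra hfin
    rw [not_infinite_iff_finite] at hfin
    apply hno
    refine ⟨Set.range fun q : Quotient r => (q.out : ℂ → Y), Set.finite_range _, ?_, ?_⟩
    · rintro _ ⟨q, rfl⟩
      exact q.out.2
    · intro f hf
      refine ⟨_, ⟨Quotient.mk r ⟨f, hf⟩, rfl⟩, ?_⟩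
      have h1 : Ag B ((Quotient.mk r ⟨f, hf⟩).out : ℂ → Y) f := Quotient.exact (Quotient.out_eq (Quotient.mk r ⟨f, hf⟩))
      exact fun z hz => (h1 z hz).symm
  let e := Infinite.natEmbedding (Quotient r)
  have hF : ∀ᶠ n in ((hyperfilter ℕ : Ultrafilter ℕ) : Filter ℕ), (fun k => ((e k).out : ℂ → Y)) n ∈ S :=
    Eventually.of_forall fun n => (e n).out.2
  obtain ⟨f, hf, hlim⟩ := h.exists_lim (hyperfilter ℕ) (fun k => ((e k).out : ℂ → Y)) hF
  have h1 := h.unif (hyperfilter ℕ) (fun k => ((e k).out : ℂ → Y)) hF hf hlim h.bad.pos R (ε / 2) (half_pos hε)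
  have h2 : {k : ℕ | ∀ z ∈ Gd B δ, ‖z‖ ≤ R → dist (((e k).out : ℂ → Y) z) (f z) < ε / 2}.Infinite := by
    intro hfin
    exact notMem_hyperfilter_of_finite hfin h1
  obtain ⟨i, hi, j, hj, hij⟩ := h2.nontrivial
  refine ⟨(e i).out, (e i).out.2, (e j).out, (e j).out.2, ?_, ?_⟩
  · intro heq
    apply hij
    apply e.injective
    rw [← Quotient.out_eq (e i), ← Quotient.out_eq (e j)]
    exact Quotient.sound heq
  · intro z hz hzR
    have h3 := hi z hz hzR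
    have h4 := hj z hz hzR
    calc dist (((e i).out : ℂ → Y) z) (((e j).out : ℂ → Y) z) ≤ dist (((e i).out : ℂ → Y) z) (f z) +
          dist (((e j).out : ℂ → Y) z) (f z) := dist_triangle_right _ _ _
      _ < ε / 2 + ε / 2 := add_lt_add h3 h4
      _ = ε := add_halves ε

private theorem dyF_max (h : Dyn K Λ B δ S Zr N) {ε : ℝ} (hε : 0 < ε)
    (hclose : ∀ f ∈ S, ∀ g ∈ S, (∀ z ∈ Gd B δ, dist (f z) (g z) ≤ ε) → Ag B f g)
    (hno : ¬ ∃ 𝓕 : Set (ℂ → Y), 𝓕.Finite ∧ 𝓕 ⊆ S ∧ ∀ f ∈ S, ∃ g ∈ 𝓕, Ag B f g) (n : ℕ) :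
    ∃ f ∈ S, ∃ g ∈ S, ∃ m : ℕ, n ≤ m ∧ (∃ z ∈ Gd B δ, (m : ℝ) < ‖z‖ ∧ ‖z‖ ≤ m + 1 ∧ ε < dist (f z) (g z)) ∧
      ∀ z ∈ Gd B δ, ‖z‖ ≤ m → dist (f z) (g z) ≤ ε := by
  obtain ⟨f, hf, g, hg, hne, hd⟩ := dyF_two h hno n ε hε
  classical
  have hex : ∃ m : ℕ, n ≤ m ∧ ¬ ∀ z ∈ Gd B δ, ‖z‖ ≤ m + 1 → dist (f z) (g z) ≤ ε := by
    by_contra hcon
    push Not at hcon
    apply hne
    apply hclose f hf g hg
    intro z hz
    obtain ⟨k, hk⟩ := exists_nat_ge ‖z‖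
    refine hcon (max n k) (le_max_left _ _) z hz ?_
    have h1 : (k : ℝ) ≤ ((max n k : ℕ) : ℝ) := by exact_mod_cast le_max_right n k
    linarith
  have hspec := Nat.find_spec hex
  set m := Nat.find hex with hm
  have hlow : ∀ z ∈ Gd B δ, ‖z‖ ≤ m → dist (f z) (g z) ≤ ε := by
    rcases hspec.1.eq_or_lt with heq | hlt
    · intro z hz hzm
      rw [← heq] at hzm
      exact (hd z hz hzm).le
    · have h1 : ¬ (n ≤ m - 1 ∧ ¬ ∀ z ∈ Gd B δ, ‖z‖ ≤ ((m - 1 : ℕ) : ℝ) + 1 → dist (f z) (g z) ≤ ε) :=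
        Nat.find_min hex (by omega)
      have h2 : n ≤ m - 1 := by omega
      have h3 : ∀ z ∈ Gd B δ, ‖z‖ ≤ ((m - 1 : ℕ) : ℝ) + 1 → dist (f z) (g z) ≤ ε := by
        by_contra h4
        exact h1 ⟨h2, h4⟩
      have h5 : ((m - 1 : ℕ) : ℝ) + 1 = m := by
        have : (m - 1) + 1 = m := by omega
        exact_mod_cast this
      rwa [h5] at h3
  obtain ⟨z, hz, hzm, hzd⟩ : ∃ z ∈ Gd B δ, ‖z‖ ≤ m + 1 ∧ ε < dist (f z) (g z) := by
    have h1 := hspec.2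
    push Not at h1
    obtain ⟨z, h2, h3, h4⟩ := h1
    exact ⟨z, h2, h3, h4⟩
  refine ⟨f, hf, g, hg, m, hspec.1, ⟨z, hz, ?_, hzm, hzd⟩, hlow⟩
  by_contra hle
  exact absurd (hlow z hz (not_lt.1 hle)) (not_le.2 hzd)

theorem Dyn.finite (h : Dyn K Λ B δ S Zr N) : ∃ 𝓕 : Set (ℂ → Y), 𝓕.Finite ∧ 𝓕 ⊆ S ∧ ∀ f ∈ S, ∃ g ∈ 𝓕, Ag B f g := by
  by_contra hno
  obtain ⟨ε, hε, hhp⟩ := h.half_plane
  obtain ⟨R, hR, hcoc⟩ := h.lat.cocompact
  have hclose : ∀ f ∈ S, ∀ g ∈ S, (∀ z ∈ Gd B δ, dist (f z) (g z) ≤ ε) → Ag B f g := fun f hf g hg hd =>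
    hhp f hf g hg 1 0 norm_one fun z hz _ => hd z hz
  choose f hf g hg m hm hz hlow using dyF_max h hε hclose hno
  choose z hzG hz1 hz2 hz3 using hz
  choose l hl hlR using fun n => hcoc (z n)
  set 𝒰 : Ultrafilter ℕ := hyperfilter ℕ with h𝒰
  have hf' : ∀ᶠ n in (𝒰 : Filter ℕ), (fun n x => f n (x + l n)) n ∈ S :=
    Eventually.of_forall fun n => h.trans _ (hf n) _ (hl n)
  have hg' : ∀ᶠ n in (𝒰 : Filter ℕ), (fun n x => g n (x + l n)) n ∈ S :=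
    Eventually.of_forall fun n => h.trans _ (hg n) _ (hl n)
  obtain ⟨F, hF, hFlim⟩ := h.exists_lim 𝒰 (fun n x => f n (x + l n)) hf'
  obtain ⟨G, hG, hGlim⟩ := h.exists_lim 𝒰 (fun n x => g n (x + l n)) hg'
  obtain ⟨w, hw⟩ : ∃ w : ℂ, Tendsto (fun n => z n - l n) 𝒰 (𝓝 w) := by
    obtain ⟨w, hw1, hw2⟩ := (isCompact_closedBall (0 : ℂ) R).ultrafilter_le_nhds
      (𝒰.map fun n => z n - l n) (by
        rw [Ultrafilter.coe_map, le_principal_iff, mem_map]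
        exact Filter.univ_mem' fun n => by simpa using hlR n)
    exact ⟨w, hw2⟩
  have hmlim : Tendsto (fun n => (m n : ℝ)) (𝒰 : Filter ℕ) atTop := by
    have h1 : Tendsto (fun n : ℕ => (m n : ℝ)) atTop atTop := by
      refine tendsto_atTop_mono (fun n => ?_) tendsto_natCast_atTop_atTop
      exact_mod_cast hm n
    exact h1.mono_left Nat.hyperfilter_le_atTop
  have hl1 : ∀ n, ‖l n‖ ≤ m n + 1 + R := by
    intro n
    have h1 : ‖l n‖ ≤ ‖z n‖ + ‖z n - l n‖ := by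
      have h2 := norm_sub_le (z n) (z n - l n)
      rwa [sub_sub_cancel] at h2
    have := hz2 n
    have := hlR n
    linarith
  have hl2 : ∀ n, (m n : ℝ) - R ≤ ‖l n‖ := by
    intro n
    have h1 : ‖z n‖ ≤ ‖z n - l n‖ + ‖l n‖ := by
      have h2 := norm_add_le (z n - l n) (l n)
      rwa [sub_add_cancel] at h2
    have := hz1 n
    have := hlR n
    linarith
  have hllim : Tendsto (fun n => ‖l n‖) (𝒰 : Filter ℕ) atTop :=
    tendsto_atTop_mono hl2 (tendsto_atTop_add_const_right _ _ hmlim)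
  have hlpos : ∀ᶠ n in (𝒰 : Filter ℕ), 0 < ‖l n‖ := hllim.eventually_gt_atTop 0
  obtain ⟨ζ, hζ, hζlim⟩ : ∃ ζ ∈ sphere (0 : ℂ) 1, Tendsto (fun n => l n / (‖l n‖ : ℂ)) 𝒰 (𝓝 ζ) := by
    obtain ⟨w, hw1, hw2⟩ := (isCompact_sphere (0 : ℂ) 1).ultrafilter_le_nhds
      (𝒰.map fun n => l n / (‖l n‖ : ℂ)) (by
        rw [Ultrafilter.coe_map, le_principal_iff, mem_map]
        filter_upwards [hlpos] with n hn
        have h1 : ‖l n‖ ≠ 0 := hn.ne'
        simp [h1])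
    exact ⟨w, hw1, hw2⟩
  have hζ1 : ‖ζ‖ = 1 := by simpa using hζ
  -- the limits differ at the point w
  have hwG : w ∈ Gd B δ :=
    (isClosed_gd δ).mem_of_tendsto hw (Eventually.of_forall fun n => by
      have h1 := (h.bad.gd_add δ (z := z n - l n) (hl n)).1
      rw [sub_add_cancel] at h1
      exact h1 (hzG n))
  have hwB : w ∉ B := gd_notMem h.bad.pos hwG
  have hFw := h.tendsto_along 𝒰 (fun n x => f n (x + l n)) hf' hFlim hwB hw
  have hGw := h.tendsto_along 𝒰 (fun n x => g n (x + l n)) hg' hGlim hwB hw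
  have hne : ¬ Ag B F G := by
    intro hag
    have h1 : ε ≤ dist (F w) (G w) :=
      ge_of_tendsto (hFw.dist hGw) (Eventually.of_forall fun n => by
        have h2 := (hz3 n).le
        simpa only [sub_add_cancel] using h2)
    rw [hag w hwB, dist_self] at h1
    linarith
  apply hne
  -- the half plane
  refine hhp F hF G hG ζ (-(R + 3)) hζ1 fun x hx hxr => ?_
  have hxB : x ∉ B := gd_notMem h.bad.pos hx
  have hin : ∀ᶠ n in (𝒰 : Filter ℕ), ‖x + l n‖ ≤ m n := by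
    have h2 : Tendsto (fun n => ((starRingEnd ℂ) (l n / (‖l n‖ : ℂ)) * x).re) 𝒰
        (𝓝 ((starRingEnd ℂ) ζ * x).re) :=
      (Complex.continuous_re.tendsto _).comp
        (((Complex.continuous_conj.tendsto _).comp hζlim).mul tendsto_const_nhds)
    have hxr' : ((starRingEnd ℂ) ζ * x).re < -(R + 2) := by linarith
    filter_upwards [h2.eventually (gt_mem_nhds hxr'), hlpos, hllim.eventually_ge_atTop (R + 1),
      hllim.eventually_ge_atTop (‖x‖ ^ 2)] with n hn1 hpos hn2 hn3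
    have h4 : ((starRingEnd ℂ) (l n) * x).re =
        ‖l n‖ * ((starRingEnd ℂ) (l n / (‖l n‖ : ℂ)) * x).re := by
      have h5 : l n = (‖l n‖ : ℂ) * (l n / (‖l n‖ : ℂ)) := by
        rw [mul_div_cancel₀]
        exact_mod_cast hpos.ne'
      conv_lhs => rw [h5, map_mul, Complex.conj_ofReal, mul_assoc]
      rw [Complex.re_ofReal_mul]
    have h6 : ‖x + l n‖ ^ 2 = ‖x‖ ^ 2 + ‖l n‖ ^ 2 + 2 * ((starRingEnd ℂ) (l n) * x).re := by
      rw [← Complex.normSq_eq_norm_sq, ← Complex.normSq_eq_norm_sq, ← Complex.normSq_eq_norm_sq,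
        Complex.normSq_add, mul_comm x]
    have h7 : ‖l n‖ * ((starRingEnd ℂ) (l n / (‖l n‖ : ℂ)) * x).re ≤ ‖l n‖ * (-(R + 2)) :=
      mul_le_mul_of_nonneg_left hn1.le hpos.le
    have h8 : ‖x + l n‖ ^ 2 ≤ (‖l n‖ - (R + 1)) ^ 2 := by
      rw [h6, h4]
      nlinarith
    have h9 : ‖x + l n‖ ≤ ‖l n‖ - (R + 1) :=
      (pow_le_pow_iff_left₀ (norm_nonneg _) (by linarith) two_ne_zero).1 h8
    have := hl1 n
    linarith
  refine le_of_tendsto ((hFlim x hxB).dist (hGlim x hxB)) ?_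
  filter_upwards [hin] with n hn
  exact hlow n _ ((h.bad.gd_add δ (hl n)).2 hx) hn

end Pool.Agent.H62.EL

end
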