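import Pool.Agent.H94.CB.M163
import Pool.Agent.H94.CB.M240

/-! The parts of this file: H17L.DTr, H17L.DTrB. -/

section

/-!
# H17L DTr: the strict transform of the curve `D`

`blow l X` is the blow-up of `X` at `q` (`Ker l q`), `blow l D` the strict transform of `D` (the closure of the part off the exceptional curve).  Facts on `blow l X` (H62/BU/Alg): `dense_sub`, `comp_mem`, `eq_phi`, `ne_of_ne`, `exists_ne`, `comp_smul`, `symm`, `prop` (the last five hold for any set in place of `X`).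

* `comp_mem_strict`: pattern `H62.BU.comp_mem`: `y ∈ closure (dense l D)`, the components of the points `y'` of `dense l D` near `y` are `c l_b x • x` with `x ∈ D`, not `0` (near `y b ≠ 0`), so they are in `D`; so `y b ∈ closure D`; `y b ∈ X` (`comp_mem`, `strict_sub`), and if `y b ∉ D` then no point near `y b` is in `D` (`closed`).
* `strict_sub`: `dense l D ⊆ dense l X`.
* `phi_mem_strict`: `←`: `dense_sub`, `dense_smul`, `phi_mem_dense`.  `→`: a component `c l_b x • x ≠ 0` of the point is in `D` (`comp_mem_strict`).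
* `strict_closed`: the complement: if frequently near `y` there are points of `blow l D` then `y ∈ closure (blow l D)`, `y ≠ 0`, `blow_closed`.
* `lu_off`: `y = c • phi l (σ p)`: its components `≠ 0` are multiples of `σ p`; `uB_eq`, `tor.smul`.  `off_chart`: `chart_off` (H62/BU/Off, H17BP/Conv `chart_iff`) and `IsChart.scale`.
* `exc_pt`: `p.1 ≠ 0` near `0`: `x = σ (e (p.1, p.1 * p.2)) ∈ X` is not a multiple of `q` (`τ x = e (..) ≠ 0 = τ q`; if `x = a • q` then `a` is near `1` and `τ (a • q) = τ q` by `inv`), so some `l b x ≠ 0` (`Ker`); `σ1 p ∈ blow l X` has a component `σ1 p b' ≠ 0`, proportional to `x`, so `l b (σ1 p b') ≠ 0`, and by `eq_phi` `σ1 p` is a multiple of `phi l (σ1 p b')`,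
  which is a multiple of `phi l x` (`phi_smul`).
* `lu_exc`: `uB u (σ1 p)` is `u (σ (e ..))` modulo `Λ` for all `p` near `0` (a component of `σ1 p` which is not `0` is proportional to `σ (e ..)`; see the private `BlowR_germ` in H17N/BlowR.lean), and `g (e (p.1, p.1 * p.2))` is analytic, `0` at `0`.
* `strict_off`: `exc_pt` and `phi_mem_strict` (and `smul`).
* `strict_none`: `q ∉ D`: a component `≠ 0` of `σ1 0` is proportional to `σ (e 0) = q`, not in `D`: `σ1 0 ∉ blow l D` (`comp_mem_strict`); `strict_closed`, continuity of `σ1`.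
* `strict_exc`: `AD D σ`, `σ 0 = q`.  Write `e (1, 0) = (a, c)`, `e (0, 1) = (b, d)`: `(e (s, s t)).2 = s (c + d t)`.  If `c = 0` then `a ≠ 0`, `d ≠ 0` (`e` is injective).  For `p.1 ≠ 0`: `σ1 p ∈ blow l D ↔ σ (e ..) ∈ D ↔ c + d p.2 = 0` (`strict_off`).  First case `c = 0`: `↔ p.2 = 0`.  For the points with `p.1 = 0`, `p.2 = 0` (that is `p = 0`): limits of `σ1 (s, 0)`,
  `blow_closed`.  For `p.1 = 0`, `p.2 ≠ 0` near `0`: suppose `σ1 p ∈ blow l D`; then there are points `y ∈ dense l D` arbitrarily near `σ1 p`; `y = a' • σ1 (τ1 y)` (`right`, valid near `σ1 0`, hence near `σ1 p` for `p` near `0`), `τ1 y` is near `τ1 (σ1 p) = p`, so `(τ1 y).2 ≠ 0`, and `(τ1 y).1 ≠ 0` because `σ1 (0, t)` has components proportional to `q` and so is not in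
  `dense l X` (`l_b' q = 0`, but a point `c • phi l x` of `dense` has a component `c l_b x • x` with `l_b (..) ≠ 0`): contradiction to `strict_off`.  Second case `c ≠ 0`: `c + d p.2 ≠ 0` near `0`; the same argument shows that no `y ∈ dense l D` is near `σ1 0`, so `σ1 0 ∉ blow l D`, and `strict_closed`.
* `curve_blow`: `smooth` at `y ∈ blow l D`: if a component `x = y b ≠ 0` is not a multiple of `q`: `x ∈ D`, `y` is a multiple of `phi l x` (`eq_phi`): the adapted chart `σ` at `x` gives `c • phi l (σ p)`; `phi_mem_strict`, `lu_off`.  Otherwise `q ∈ D`; take the adapted chart `σ` at `q`, `blow_chart` (H17N/BlowP; in its first alternative `σ1 0 = y` would be a multiple of `phi l (σ' 0)`,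
  whose components are multiples of `σ' 0`, which is not a multiple of `q` because `l b (σ' 0) ≠ 0`), `strict_exc`: since `y = σ1 0 ∈ blow l D`, `(e (1, 0)).2 = 0` and `AD (blow l D) σ1`; `lu_exc`: the germ on `t = 0` is `s ↦ g (s * a, 0)`, `a ≠ 0`, not identically `0`.
-/

set_option autoImplicit false
set_option linter.unusedSectionVars false
set_option linter.unusedVariables false

open Topology Filter

namespace Pool.Agent.H17L

attribute [-instance] ProperSMul.toContinuousSMul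

open Pool.Agent.H17BP (Surface IsChart Tan Pr HolP ResN)
open Pool.Agent.H62.BU (blow dense phi Ker)
open Pool.Agent.H17N (TMap LU RU TF NonConst ThinF FibB HSec uB aB blow_chart)

variable {V : Type} [NormedAddCommGroup V] [NormedSpace ℂ V] [FiniteDimensional ℂ V] {ι : Type} [Fintype ι] {l : ι → V →L[ℂ] ℂ} {X D : Set V} {q : V}
  {Λ : AddSubgroup ℂ} {u : V → ℂ} {σ : ℂ × ℂ → V} {τ : V → ℂ × ℂ} {e : (ℂ × ℂ) ≃L[ℂ] (ℂ × ℂ)} {σ1 : ℂ × ℂ → ι → V} {τ1 : (ι → V) → ℂ × ℂ}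

theorem strict_sub (hD : CurveD X D Λ u) : blow l D ⊆ blow l X := by
  have h1 : dense l D ⊆ dense l X := by
    rintro y ⟨x, hx, hb, c, hc, rfl⟩
    exact ⟨x, hD.sub hx, hb, c, hc, rfl⟩
  exact fun y hy => ⟨closure_mono h1 hy.1, hy.2⟩

theorem comp_mem_strict (hX : Surface X) (hD : CurveD X D Λ u) {y : ι → V} (hy : y ∈ blow l D) {b : ι} (hb : y b ≠ 0) : y b ∈ D := by
  have hX' := Pool.Agent.H17BP.surface_iff.2 hX
  by_contra hn
  have h1 := hD.closed _ (H62.BU.comp_mem hX' y (strict_sub hD hy) hb) hn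
  have hct : Tendsto (fun y : ι → V => y b) (𝓝 y) (𝓝 (y b)) := (continuous_apply b).tendsto y
  obtain ⟨y', hy', h2, h3⟩ := ((mem_closure_iff_frequently.mp hy.1).and_eventually
    ((hct.eventually h1).and (hct.eventually_ne hb))).exists
  obtain ⟨x, hx, -, c, hc, rfl⟩ := hy'
  have h4 : (c • phi l x) b = (c * l b x) • x := by
    simp only [phi, Pi.smul_apply, smul_smul]
  rw [h4] at h2 h3
  exact h2 (hD.smul x hx _ fun h5 => h3 (by rw [h5, zero_smul]))

theorem phi_mem_strict (hX : Surface X) (hD : CurveD X D Λ u) {x : V} (hx : x ∈ X) (hb : ∃ b, l b x ≠ 0) {c : ℂ} (hc : c ≠ 0) :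
    c • phi l x ∈ blow l D ↔ x ∈ D := by
  constructor
  · intro h
    obtain ⟨b, hb⟩ := hb
    have h4 : (c • phi l x) b = (c * l b x) • x := by
      simp only [phi, Pi.smul_apply, smul_smul]
    have h5 : c * l b x ≠ 0 := mul_ne_zero hc hb
    have hx0 : x ≠ 0 := fun h0 => hX.zero (h0 ▸ hx)
    have h6 := comp_mem_strict hX hD h (b := b) (by rw [h4]; exact smul_ne_zero h5 hx0)
    rw [h4] at h6
    have h7 := hD.smul _ h6 _ (inv_ne_zero h5)
    rwa [smul_smul, inv_mul_cancel₀ h5, one_smul] at h7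
  · intro h
    exact H62.BU.dense_sub ⟨x, h, hb, c, hc, rfl⟩

theorem strict_closed {y : ι → V} (hy : y ∈ blow l X) (hn : y ∉ blow l D) : ∀ᶠ y' in 𝓝 y, y' ∉ blow l D := by
  by_contra h
  apply hn
  refine H62.BU.blow_closed y (mem_closure_iff_frequently.mpr ?_) hy.2
  rw [Filter.not_eventually] at h
  exact h.mono fun y' hy' => not_not.mp hy'

/-- the chart of the blow-up at a point off the exceptional curve -/
theorem off_chart (hX : Surface X) (h : IsChart X σ τ) (hb : ∃ b, l b (σ 0) ≠ 0) {c : ℂ} (hc : c ≠ 0) :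
    ∃ τ', IsChart (blow l X) (fun p => c • phi l (σ p)) τ' := by
  have hX' := Pool.Agent.H17BP.surface_iff.2 hX
  obtain ⟨b, hb⟩ := hb
  exact ⟨_, H17BP.chart_iff.1 ((H62.BU.chart_off hX' (H17BP.chart_iff.2 h) hb).scale H62.BU.blow_smul hc)⟩

/-- the map at the points off the exceptional curve -/
private theorem DTr_uB (hX : Surface X) (hu : TMap X Λ u) {x : V} (hx : x ∈ X) {b : ι} (hb : l b x ≠ 0) {c : ℂ} (hc : c ≠ 0) :
    uB u (c • phi l x) - u x ∈ Λ := by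
  have h4 : (c • phi l x) b = (c * l b x) • x := by
    simp only [phi, Pi.smul_apply, smul_smul]
  have h5 : c * l b x ≠ 0 := mul_ne_zero hc hb
  have hx0 : x ≠ 0 := fun h0 => hX.zero (h0 ▸ hx)
  have h6 : c • phi l x ∈ blow l X := H62.BU.dense_sub ⟨x, hx, ⟨b, hb⟩, c, hc, rfl⟩
  have h7 := H17N.uB_eq hX hu h6 (b := b) (by rw [h4]; exact smul_ne_zero h5 hx0)
  have h8 := hu.smul x hx _ h5
  rw [h4] at h7
  have h9 := Λ.add_mem h7 h8
  have h10 : uB u (c • phi l x) - u ((c * l b x) • x) + (u ((c * l b x) • x) - u x) = uB u (c • phi l x) - u x := by ring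
  rwa [h10] at h9

theorem lu_off (hX : Surface X) (hu : TMap X Λ u) (h : IsChart X σ τ) (hb : ∃ b, l b (σ 0) ≠ 0) {c : ℂ} (hc : c ≠ 0) {g : ℂ × ℂ → ℂ} (hg : LU Λ u σ g) :
    LU Λ (uB u) (fun p => c • phi l (σ p)) g := by
  obtain ⟨b, hb⟩ := hb
  have h1 : ∀ᶠ p in 𝓝 (0 : ℂ × ℂ), l b (σ p) ≠ 0 := by
    have h2 : ContinuousAt (fun p => l b (σ p)) 0 := (l b).continuous.continuousAt.comp h.σ_an.continuousAt
    exact h2.eventually_ne hb
  have h0 := DTr_uB hX hu h.σ_mem.self_of_nhds hb hc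
  refine ⟨hg.1, hg.2.1, ?_⟩
  filter_upwards [h1, h.σ_mem, hg.2.2] with p h2 h3 h4
  have h5 := DTr_uB hX hu h3 h2 hc
  have h6 := Λ.add_mem (Λ.sub_mem h5 h0) h4
  have h7 : uB u (c • phi l (σ p)) - u (σ p) - (uB u (c • phi l (σ 0)) - u (σ 0)) + (u (σ p) - u (σ 0) - g p) =
      uB u (c • phi l (σ p)) - uB u (c • phi l (σ 0)) - g p := by ring
  rwa [h7] at h6

private theorem DTr_beta (e : (ℂ × ℂ) ≃L[ℂ] (ℂ × ℂ)) : AnalyticAt ℂ (fun p : ℂ × ℂ => e (p.1, p.1 * p.2)) 0 := by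
  have h4 : AnalyticAt ℂ (fun p : ℂ × ℂ => (p.1, p.1 * p.2)) 0 :=
    analyticAt_fst.prod (analyticAt_fst.mul analyticAt_snd)
  exact ((e : (ℂ × ℂ) →L[ℂ] (ℂ × ℂ)).analyticAt _).comp h4

private theorem DTr_beta0 (e : (ℂ × ℂ) ≃L[ℂ] (ℂ × ℂ)) : e ((0 : ℂ × ℂ).1, (0 : ℂ × ℂ).1 * (0 : ℂ × ℂ).2) = 0 := by simp

private theorem DTr_betaT (e : (ℂ × ℂ) ≃L[ℂ] (ℂ × ℂ)) : Tendsto (fun p : ℂ × ℂ => e (p.1, p.1 * p.2)) (𝓝 0) (𝓝 0) := by
  have h := (DTr_beta e).continuousAt.tendsto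
  rwa [DTr_beta0] at h

/-- the points of the chart at a point of the exceptional curve -/
theorem exc_pt (hX : Surface X) (hl : Ker l q) (h : IsChart X σ τ) (h0 : σ 0 = q) (h1 : IsChart (blow l X) σ1 τ1)
    (hpr : ∀ᶠ p in 𝓝 (0 : ℂ × ℂ), ∀ b, σ1 p b ≠ 0 → Pr (σ1 p b) (σ (e (p.1, p.1 * p.2)))) :
    ∀ᶠ p in 𝓝 (0 : ℂ × ℂ), p.1 ≠ 0 → σ (e (p.1, p.1 * p.2)) ∈ X ∧ (∃ b, l b (σ (e (p.1, p.1 * p.2))) ≠ 0) ∧
      ∃ c : ℂ, c ≠ 0 ∧ σ1 p = c • phi l (σ (e (p.1, p.1 * p.2))) := by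
  have ht := DTr_betaT e
  have hq0 : q ≠ 0 := h0 ▸ h.ne
  -- the chart `τ` is constant on the multiples of `q` near `q`
  have hinv : ∀ᶠ a in 𝓝 (1 : ℂ), τ (a • q) = τ q := by
    have h2 : Tendsto (fun a : ℂ => (q, a)) (𝓝 1) (𝓝 (σ 0, (1 : ℂ))) := by
      rw [h0]
      exact tendsto_const_nhds.prodMk_nhds tendsto_id
    exact h2.eventually h.inv
  obtain ⟨δ, hδ, hinv⟩ := Metric.eventually_nhds_iff.mp hinv
  have hτq : τ q = 0 := by
    have h2 := h.left.self_of_nhds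
    rwa [h0] at h2
  have hnear : ∀ᶠ p in 𝓝 (0 : ℂ × ℂ), ‖σ (e (p.1, p.1 * p.2)) - q‖ < δ * ‖q‖ := by
    have h2 : Tendsto σ (𝓝 0) (𝓝 (σ 0)) := h.σ_an.continuousAt
    rw [h0] at h2
    have h3 : Tendsto (fun p : ℂ × ℂ => ‖σ (e (p.1, p.1 * p.2)) - q‖) (𝓝 0) (𝓝 ‖q - q‖) :=
      ((h2.comp ht).sub tendsto_const_nhds).norm
    rw [sub_self, norm_zero] at h3
    exact h3.eventually_lt_const (mul_pos hδ (norm_pos_iff.mpr hq0))
  filter_upwards [ht.eventually h.σ_mem, ht.eventually h.left, hnear, hpr, h1.σ_mem] with p h2 h3 h4 h5 h6 hp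
  have hne : ∃ b, l b (σ (e (p.1, p.1 * p.2))) ≠ 0 := by
    by_contra hcon
    push Not at hcon
    obtain ⟨a, ha⟩ := (hl _).mp hcon
    have h7 : ‖a - 1‖ < δ := by
      have h8 : σ (e (p.1, p.1 * p.2)) - q = (a - 1) • q := by rw [ha, sub_smul, one_smul]
      rw [h8, norm_smul] at h4
      exact lt_of_mul_lt_mul_right h4 (norm_nonneg q)
    have h8 : τ (a • q) = τ q := hinv (by rwa [dist_eq_norm])
    rw [← ha, h3, hτq] at h8
    have h9 : ((p.1, p.1 * p.2) : ℂ × ℂ) = 0 := by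
      have h10 : e (p.1, p.1 * p.2) = e 0 := by rw [h8, map_zero]
      exact e.injective h10
    exact hp (congrArg Prod.fst h9)
  refine ⟨h2, hne, ?_⟩
  obtain ⟨b, hb⟩ := hne
  obtain ⟨b', hb'⟩ := H62.BU.exists_ne (σ1 p) h6
  obtain ⟨k, hk, h7⟩ := h5 b' hb'
  have h8 : l b (σ1 p b') ≠ 0 := by
    rw [h7, map_smul, smul_eq_mul]
    exact mul_ne_zero hk hb
  have h9 := H62.BU.ne_of_ne (σ1 p) h6 hb' h8
  refine ⟨(l b' (σ1 p b'))⁻¹ * k ^ 2, mul_ne_zero (inv_ne_zero h9) (pow_ne_zero 2 hk), ?_⟩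
  rw [mul_smul, ← H62.BU.phi_smul, ← h7]
  exact H62.BU.eq_phi (σ1 p) h6 hb' h8

theorem lu_exc (hX : Surface X) (hu : TMap X Λ u) (h : IsChart X σ τ) (h1 : IsChart (blow l X) σ1 τ1)
    (hpr : ∀ᶠ p in 𝓝 (0 : ℂ × ℂ), ∀ b, σ1 p b ≠ 0 → Pr (σ1 p b) (σ (e (p.1, p.1 * p.2)))) {g : ℂ × ℂ → ℂ} (hg : LU Λ u σ g) :
    LU Λ (uB u) σ1 (fun p => g (e (p.1, p.1 * p.2))) := by
  have ht := DTr_betaT e
  have key : ∀ᶠ p in 𝓝 (0 : ℂ × ℂ), uB u (σ1 p) - u (σ (e (p.1, p.1 * p.2))) ∈ Λ := by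
    filter_upwards [ht.eventually h.σ_mem, hpr, h1.σ_mem] with p h2 h3 h4
    obtain ⟨b, hb⟩ := H62.BU.exists_ne (σ1 p) h4
    have h5 := H17N.uB_eq hX hu h4 hb
    obtain ⟨k, hk, h6⟩ := h3 b hb
    have h7 := hu.smul _ h2 k hk
    rw [← h6] at h7
    have h8 := Λ.add_mem h5 h7
    have h9 : uB u (σ1 p) - u (σ1 p b) + (u (σ1 p b) - u (σ (e (p.1, p.1 * p.2)))) = uB u (σ1 p) - u (σ (e (p.1, p.1 * p.2))) := by ring
    rwa [h9] at h8
  have key0 := key.self_of_nhds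
  rw [DTr_beta0] at key0
  refine ⟨?_, ?_, ?_⟩
  · have h2 : AnalyticAt ℂ g ((fun p : ℂ × ℂ => e (p.1, p.1 * p.2)) 0) := by
      simp only [DTr_beta0]
      exact hg.1
    exact AnalyticAt.fun_comp (g := g) (f := fun p : ℂ × ℂ => e (p.1, p.1 * p.2)) h2 (DTr_beta e)
  · show g (e ((0 : ℂ × ℂ).1, (0 : ℂ × ℂ).1 * (0 : ℂ × ℂ).2)) = 0
    rw [DTr_beta0]
    exact hg.2.1
  · filter_upwards [key, ht.eventually hg.2.2] with p h2 h3
    have h4 := Λ.add_mem (Λ.sub_mem h2 key0) h3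
    have h5 : uB u (σ1 p) - u (σ (e (p.1, p.1 * p.2))) - (uB u (σ1 0) - u (σ 0)) +
        (u (σ (e (p.1, p.1 * p.2))) - u (σ 0) - g (e (p.1, p.1 * p.2))) =
        uB u (σ1 p) - uB u (σ1 0) - g (e (p.1, p.1 * p.2)) := by ring
    rwa [h5] at h4

theorem strict_off (hX : Surface X) (hD : CurveD X D Λ u) (hl : Ker l q) (h : IsChart X σ τ) (h0 : σ 0 = q) (h1 : IsChart (blow l X) σ1 τ1)
    (hpr : ∀ᶠ p in 𝓝 (0 : ℂ × ℂ), ∀ b, σ1 p b ≠ 0 → Pr (σ1 p b) (σ (e (p.1, p.1 * p.2)))) :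
    ∀ᶠ p in 𝓝 (0 : ℂ × ℂ), p.1 ≠ 0 → (σ1 p ∈ blow l D ↔ σ (e (p.1, p.1 * p.2)) ∈ D) := by
  filter_upwards [exc_pt hX hl h h0 h1 hpr] with p h2 hp
  obtain ⟨h3, h4, c, hc, h5⟩ := h2 hp
  rw [h5]
  exact phi_mem_strict hX hD h3 h4 hc

theorem strict_none (hX : Surface X) (hD : CurveD X D Λ u) (hq : q ∉ D) (h : IsChart X σ τ) (h0 : σ 0 = q) (h1 : IsChart (blow l X) σ1 τ1)
    (hpr : ∀ᶠ p in 𝓝 (0 : ℂ × ℂ), ∀ b, σ1 p b ≠ 0 → Pr (σ1 p b) (σ (e (p.1, p.1 * p.2)))) : ∀ᶠ p in 𝓝 (0 : ℂ × ℂ), σ1 p ∉ blow l D := by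
  have h2 : σ1 0 ∉ blow l D := by
    intro h3
    obtain ⟨b, hb⟩ := H62.BU.exists_ne (σ1 0) h3
    have h4 := comp_mem_strict hX hD h3 hb
    obtain ⟨k, hk, h5⟩ := hpr.self_of_nhds b hb
    rw [DTr_beta0, h0] at h5
    rw [h5] at h4
    have h6 := hD.smul _ h4 _ (inv_ne_zero hk)
    rw [smul_smul, inv_mul_cancel₀ hk, one_smul] at h6
    exact hq h6
  have h3 : Tendsto σ1 (𝓝 0) (𝓝 (σ1 0)) := h1.σ_an.continuousAt
  exact h3.eventually (strict_closed h1.σ_mem.self_of_nhds h2)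

end Pool.Agent.H17L

end

section

/-!
# H17L DTrB: the strict transform of the curve `D` near the exceptional curve (second part)

`blow l X` is the blow-up of `X` at `q` (`Ker l q`), `blow l D` the strict transform of `D` (the closure of the part off the exceptional curve).  Facts on `blow l X` (H62/BU/Alg): `dense_sub`, `comp_mem`, `eq_phi`, `ne_of_ne`, `exists_ne`, `comp_smul`, `symm`, `prop` (the last five hold for any set in place of `X`).

* `comp_mem_strict`: pattern `H62.BU.comp_mem`: `y ∈ closure (dense l D)`, the components of the points `y'` of `dense l D` near `y` are `c l_b x • x` with `x ∈ D`, not `0` (near `y b ≠ 0`), so they are in `D`; so `y b ∈ closure D`; `y b ∈ X` (`comp_mem`, `strict_sub`), and if `y b ∉ D` then no point near `y b` is in `D` (`closed`).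
* `strict_sub`: `dense l D ⊆ dense l X`.
* `phi_mem_strict`: `←`: `dense_sub`, `dense_smul`, `phi_mem_dense`.  `→`: a component `c l_b x • x ≠ 0` of the point is in `D` (`comp_mem_strict`).
* `strict_closed`: the complement: if frequently near `y` there are points of `blow l D` then `y ∈ closure (blow l D)`, `y ≠ 0`, `blow_closed`.
* `lu_off`: `y = c • phi l (σ p)`: its components `≠ 0` are multiples of `σ p`; `uB_eq`, `tor.smul`.  `off_chart`: `chart_off` (H62/BU/Off, H17BP/Conv `chart_iff`) and `IsChart.scale`.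
* `exc_pt`: `p.1 ≠ 0` near `0`: `x = σ (e (p.1, p.1 * p.2)) ∈ X` is not a multiple of `q` (`τ x = e (..) ≠ 0 = τ q`; if `x = a • q` then `a` is near `1` and `τ (a • q) = τ q` by `inv`), so some `l b x ≠ 0` (`Ker`); `σ1 p ∈ blow l X` has a component `σ1 p b' ≠ 0`, proportional to `x`, so `l b (σ1 p b') ≠ 0`, and by `eq_phi` `σ1 p` is a multiple of `phi l (σ1 p b')`,
  which is a multiple of `phi l x` (`phi_smul`).
* `lu_exc`: `uB u (σ1 p)` is `u (σ (e ..))` modulo `Λ` for all `p` near `0` (a component of `σ1 p` which is not `0` is proportional to `σ (e ..)`; see the private `BlowR_germ` in H17N/BlowR.lean), and `g (e (p.1, p.1 * p.2))` is analytic, `0` at `0`.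
* `strict_off`: `exc_pt` and `phi_mem_strict` (and `smul`).
* `strict_none`: `q ∉ D`: a component `≠ 0` of `σ1 0` is proportional to `σ (e 0) = q`, not in `D`: `σ1 0 ∉ blow l D` (`comp_mem_strict`); `strict_closed`, continuity of `σ1`.
* `strict_exc`: `AD D σ`, `σ 0 = q`.  Write `e (1, 0) = (a, c)`, `e (0, 1) = (b, d)`: `(e (s, s t)).2 = s (c + d t)`.  If `c = 0` then `a ≠ 0`, `d ≠ 0` (`e` is injective).  For `p.1 ≠ 0`: `σ1 p ∈ blow l D ↔ σ (e ..) ∈ D ↔ c + d p.2 = 0` (`strict_off`).  First case `c = 0`: `↔ p.2 = 0`.  For the points with `p.1 = 0`, `p.2 = 0` (that is `p = 0`): limits of `σ1 (s, 0)`,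
  `blow_closed`.  For `p.1 = 0`, `p.2 ≠ 0` near `0`: suppose `σ1 p ∈ blow l D`; then there are points `y ∈ dense l D` arbitrarily near `σ1 p`; `y = a' • σ1 (τ1 y)` (`right`, valid near `σ1 0`, hence near `σ1 p` for `p` near `0`), `τ1 y` is near `τ1 (σ1 p) = p`, so `(τ1 y).2 ≠ 0`, and `(τ1 y).1 ≠ 0` because `σ1 (0, t)` has components proportional to `q` and so is not in
  `dense l X` (`l_b' q = 0`, but a point `c • phi l x` of `dense` has a component `c l_b x • x` with `l_b (..) ≠ 0`): contradiction to `strict_off`.  Second case `c ≠ 0`: `c + d p.2 ≠ 0` near `0`; the same argument shows that no `y ∈ dense l D` is near `σ1 0`, so `σ1 0 ∉ blow l D`, and `strict_closed`.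
* `curve_blow`: `smooth` at `y ∈ blow l D`: if a component `x = y b ≠ 0` is not a multiple of `q`: `x ∈ D`, `y` is a multiple of `phi l x` (`eq_phi`): the adapted chart `σ` at `x` gives `c • phi l (σ p)`; `phi_mem_strict`, `lu_off`.  Otherwise `q ∈ D`; take the adapted chart `σ` at `q`, `blow_chart` (H17N/BlowP; in its first alternative `σ1 0 = y` would be a multiple of `phi l (σ' 0)`,
  whose components are multiples of `σ' 0`, which is not a multiple of `q` because `l b (σ' 0) ≠ 0`), `strict_exc`: since `y = σ1 0 ∈ blow l D`, `(e (1, 0)).2 = 0` and `AD (blow l D) σ1`; `lu_exc`: the germ on `t = 0` is `s ↦ g (s * a, 0)`, `a ≠ 0`, not identically `0`.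
-/

set_option autoImplicit false

open Topology Filter

namespace Pool.Agent.H17L

attribute [-instance] ProperSMul.toContinuousSMul

open Pool.Agent.H17BP (Surface IsChart Tan Pr HolP ResN)
open Pool.Agent.H62.BU (blow dense phi Ker)
open Pool.Agent.H17N (TMap LU RU TF NonConst ThinF FibB HSec uB aB blow_chart)

variable {V : Type} [NormedAddCommGroup V] [NormedSpace ℂ V] [FiniteDimensional ℂ V] {ι : Type} [Fintype ι] {l : ι → V →L[ℂ] ℂ} {X D : Set V} {q : V}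
  {Λ : AddSubgroup ℂ} {u : V → ℂ} {σ : ℂ × ℂ → V} {τ : V → ℂ × ℂ} {e : (ℂ × ℂ) ≃L[ℂ] (ℂ × ℂ)} {σ1 : ℂ × ℂ → ι → V} {τ1 : (ι → V) → ℂ × ℂ}

private theorem DTrB_lin (e : (ℂ × ℂ) ≃L[ℂ] (ℂ × ℂ)) (s t : ℂ) : e (s, s * t) = s • (e (1, 0) + t • e (0, 1)) := by
  have h1 : ((s, s * t) : ℂ × ℂ) = s • ((1, 0) + t • (0, 1)) := by
    ext <;> simp
  rw [h1, map_smul, map_add, map_smul]

private theorem DTrB_tendsto (e : (ℂ × ℂ) ≃L[ℂ] (ℂ × ℂ)) : Tendsto (fun p : ℂ × ℂ => e (p.1, p.1 * p.2)) (𝓝 0) (𝓝 0) := by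
  have h1 : Continuous fun p : ℂ × ℂ => e (p.1, p.1 * p.2) := by fun_prop
  have h2 := h1.tendsto (0 : ℂ × ℂ)
  have h3 : e ((0 : ℂ × ℂ).1, (0 : ℂ × ℂ).1 * (0 : ℂ × ℂ).2) = 0 := by simp
  rwa [h3] at h2

private theorem DTrB_exc (hl : Ker l q) (h0 : σ 0 = q)
    (hpr : ∀ᶠ p in 𝓝 (0 : ℂ × ℂ), ∀ b, σ1 p b ≠ 0 → Pr (σ1 p b) (σ (e (p.1, p.1 * p.2)))) :
    ∀ᶠ p in 𝓝 (0 : ℂ × ℂ), σ1 p ∈ dense l X → p.1 ≠ 0 := by
  filter_upwards [hpr] with p hp hd hp1
  obtain ⟨x, hx, ⟨b, hb⟩, k, hk, hk1⟩ := hd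
  have hx0 : x ≠ 0 := by
    rintro rfl
    exact hb (map_zero _)
  have h2 : σ1 p b = (k * l b x) • x := by
    rw [hk1, Pi.smul_apply, phi, smul_smul]
  have h3 : σ1 p b ≠ 0 := by
    rw [h2]
    exact smul_ne_zero (mul_ne_zero hk hb) hx0
  obtain ⟨k', hk', h4⟩ := hp b h3
  have h5 : σ (e (p.1, p.1 * p.2)) = q := by
    rw [hp1, zero_mul]
    have : ((0, 0) : ℂ × ℂ) = 0 := rfl
    rw [this, map_zero, h0]
  have h6 : l b q = 0 := (hl q).2 ⟨1, (one_smul _ _).symm⟩ b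
  have h7 : l b (σ1 p b) = 0 := by
    rw [h4, h5, map_smul, h6, smul_zero]
  rw [h2, map_smul, smul_eq_mul] at h7
  exact (mul_ne_zero (mul_ne_zero hk hb) hb) h7

private theorem DTrB_freq (hD : CurveD X D Λ u) (hl : Ker l q) (h0 : σ 0 = q) (h1 : IsChart (blow l X) σ1 τ1)
    (hpr : ∀ᶠ p in 𝓝 (0 : ℂ × ℂ), ∀ b, σ1 p b ≠ 0 → Pr (σ1 p b) (σ (e (p.1, p.1 * p.2)))) :
    ∀ᶠ p in 𝓝 (0 : ℂ × ℂ), σ1 p ∈ blow l D → ∃ᶠ p' in 𝓝 p, p'.1 ≠ 0 ∧ σ1 p' ∈ blow l D := by
  have hsub : dense l D ⊆ dense l X := by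
    rintro y ⟨x, hx, hb, c, hc, rfl⟩
    exact ⟨x, hD.sub hx, hb, c, hc, rfl⟩
  have hr := h1.σ_an.continuousAt.eventually h1.right.eventually_nhds
  have ht := h1.σ_an.continuousAt.eventually h1.τ_an.eventually_analyticAt
  have he := (DTrB_exc (X := X) hl h0 hpr).eventually_nhds
  filter_upwards [hr, ht, he, h1.left] with p hr ht he hleft hp
  have h2 : ∃ᶠ y in 𝓝 (σ1 p), y ∈ dense l D := mem_closure_iff_frequently.1 hp.1
  have h3 : Tendsto τ1 (𝓝 (σ1 p)) (𝓝 p) := by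
    have h4 := ht.continuousAt.tendsto
    rwa [hleft] at h4
  refine h3.frequently ((h2.and_eventually (hr.and (h3.eventually he))).mono ?_)
  rintro y ⟨hy, hy1, hy2⟩
  obtain ⟨c, hc, hyc⟩ := hy1 (Pool.Agent.H62.BU.dense_sub (hsub hy))
  have h5 : σ1 (τ1 y) = c⁻¹ • y := by
    nth_rw 2 [hyc]
    rw [smul_smul, inv_mul_cancel₀ hc, one_smul]
  have h6 : σ1 (τ1 y) ∈ dense l D := by
    rw [h5]
    exact Pool.Agent.H62.BU.dense_smul hy (inv_ne_zero hc)
  exact ⟨hy2 (hsub h6), Pool.Agent.H62.BU.dense_sub h6⟩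

theorem strict_exc (hX : Surface X) (hD : CurveD X D Λ u) (hl : Ker l q) (h : IsChart X σ τ) (h0 : σ 0 = q) (hA : AD D σ)
    (h1 : IsChart (blow l X) σ1 τ1) (hpr : ∀ᶠ p in 𝓝 (0 : ℂ × ℂ), ∀ b, σ1 p b ≠ 0 → Pr (σ1 p b) (σ (e (p.1, p.1 * p.2)))) :
    ((e (1, 0)).2 = 0 → AD (blow l D) σ1) ∧ ((e (1, 0)).2 ≠ 0 → ∀ᶠ p in 𝓝 (0 : ℂ × ℂ), σ1 p ∉ blow l D) := by
  have hoff : ∀ᶠ p in 𝓝 (0 : ℂ × ℂ), p.1 ≠ 0 → (σ1 p ∈ blow l D ↔ (e (1, 0)).2 + p.2 * (e (0, 1)).2 = 0) := by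
    filter_upwards [strict_off hX hD hl h h0 h1 hpr, (DTrB_tendsto e).eventually hA] with p hp hpA hp1
    rw [hp hp1, hpA, DTrB_lin]
    simp only [Prod.smul_snd, Prod.snd_add, smul_eq_mul, mul_eq_zero, hp1, false_or]
  have hcl : ∀ᶠ p in 𝓝 (0 : ℂ × ℂ), σ1 p ∈ blow l D → (e (1, 0)).2 + p.2 * (e (0, 1)).2 = 0 := by
    filter_upwards [DTrB_freq hD hl h0 h1 hpr, hoff.eventually_nhds] with p hp hpo hpD
    have h2 : ∃ᶠ p' in 𝓝 p, (e (1, 0)).2 + p'.2 * (e (0, 1)).2 = 0 := by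
      refine ((hp hpD).and_eventually hpo).mono ?_
      rintro p' ⟨⟨a1, a2⟩, a3⟩
      exact (a3 a1).1 a2
    have h3 : ContinuousAt (fun p' : ℂ × ℂ => (e (1, 0)).2 + p'.2 * (e (0, 1)).2) p := by fun_prop
    exact tendsto_nhds_unique_of_frequently_eq h3 tendsto_const_nhds h2
  constructor
  · intro hc
    have hd : (e (0, 1)).2 ≠ 0 := by
      intro hd
      have h2 : ∀ w : ℂ × ℂ, (e w).2 = 0 := by
        intro w
        have h3 : w = w.1 • ((1, 0) : ℂ × ℂ) + w.2 • ((0, 1) : ℂ × ℂ) := by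
          ext <;> simp
        rw [h3, map_add, map_smul, map_smul]
        simp [hc, hd]
      have h4 := h2 (e.symm (0, 1))
      rw [e.apply_symm_apply] at h4
      exact one_ne_zero h4
    have hz : σ1 0 ∈ blow l D := by
      refine Pool.Agent.H62.BU.blow_closed _ ?_ h1.ne
      have h2 : Tendsto (fun s : ℂ => ((s, 0) : ℂ × ℂ)) (𝓝[≠] 0) (𝓝 0) := by
        have h3 : Continuous fun s : ℂ => ((s, 0) : ℂ × ℂ) := by fun_prop
        exact (h3.tendsto 0).mono_left nhdsWithin_le_nhds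
      have h4 : Tendsto (fun s : ℂ => σ1 (s, 0)) (𝓝[≠] 0) (𝓝 (σ1 0)) := h1.σ_an.continuousAt.tendsto.comp h2
      refine mem_closure_of_tendsto h4 ?_
      filter_upwards [h2.eventually hoff, self_mem_nhdsWithin] with s hs hs1
      refine (hs hs1).2 ?_
      simp [hc]
    filter_upwards [hoff, hcl] with p hp hp1
    constructor
    · intro h2
      have h3 := hp1 h2
      rw [hc, zero_add] at h3
      exact (mul_eq_zero.1 h3).resolve_right hd
    · intro h2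
      by_cases h3 : p.1 = 0
      · have h4 : p = 0 := Prod.ext h3 h2
        rw [h4]
        exact hz
      · refine (hp h3).2 ?_
        rw [hc, h2]
        ring
  · intro hc
    have h2 : ∀ᶠ p in 𝓝 (0 : ℂ × ℂ), (e (1, 0)).2 + p.2 * (e (0, 1)).2 ≠ 0 := by
      have h3 : ContinuousAt (fun p' : ℂ × ℂ => (e (1, 0)).2 + p'.2 * (e (0, 1)).2) 0 := by fun_prop
      refine h3.eventually_ne ?_
      simpa using hc
    filter_upwards [hcl, h2] with p hp hp1 hp2
    exact hp1 (hp hp2)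

theorem curve_blow (hX : Surface X) (hu : TMap X Λ u) (hD : CurveD X D Λ u) (hl : Ker l q) (hq : q ∈ X) :
    CurveD (blow l X) (blow l D) Λ (uB u) := by
  refine ⟨strict_sub hD, fun y hy c hc => Pool.Agent.H62.BU.blow_smul y hy c hc, fun y hy hn => strict_closed hy hn, ?_⟩
  intro y hy
  have hyX := strict_sub (l := l) hD hy
  by_cases hcase : ∃ b b', y b ≠ 0 ∧ l b' (y b) ≠ 0
  · obtain ⟨b, b', hb, hb'⟩ := hcase
    have hxD : y b ∈ D := comp_mem_strict hX hD hy hb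
    have hk : l b (y b) ≠ 0 := Pool.Agent.H62.BU.ne_of_ne y hyX hb hb'
    have hk' : (l b (y b))⁻¹ ≠ 0 := inv_ne_zero hk
    obtain ⟨σ, τ, g, h, h0, hA, hg, hn⟩ := hD.smooth _ hxD
    have hbσ : ∃ b, l b (σ 0) ≠ 0 := ⟨b', by rw [h0]; exact hb'⟩
    obtain ⟨τ', h'⟩ := off_chart hX h hbσ hk'
    refine ⟨_, τ', g, h', ?_, ?_, lu_off hX hu h hbσ hk' hg, hn⟩
    · simp only [h0]
      exact (Pool.Agent.H62.BU.eq_phi y hyX hb hb').symm
    · have h2 : ∀ᶠ p in 𝓝 (0 : ℂ × ℂ), l b' (σ p) ≠ 0 := by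
        have h3 : ContinuousAt (fun p => l b' (σ p)) 0 := (l b').continuous.continuousAt.comp h.σ_an.continuousAt
        refine h3.eventually_ne ?_
        rw [h0]
        exact hb'
      filter_upwards [h.σ_mem, h2, hA] with p hp hp2 hpA
      rw [phi_mem_strict hX hD hp ⟨b', hp2⟩ hk', hpA]
  · push Not at hcase
    obtain ⟨b, hb⟩ := Pool.Agent.H62.BU.exists_ne y hyX
    obtain ⟨k, hk⟩ := (hl (y b)).1 fun b' => hcase b b' hb
    have hk0 : k ≠ 0 := by
      rintro rfl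
      rw [zero_smul] at hk
      exact hb hk
    have hqD : q ∈ D := by
      have h2 := hD.smul _ (comp_mem_strict hX hD hy hb) k⁻¹ (inv_ne_zero hk0)
      rwa [hk, smul_smul, inv_mul_cancel₀ hk0, one_smul] at h2
    obtain ⟨σ, τ, g, h, h0, hA, hg, hn⟩ := hD.smooth _ hqD
    rcases blow_chart hX hl h h0 hyX with ⟨σ', τ', σ1, τ1, h', ⟨b1, hb1⟩, h1, h10, ⟨c, hc, hc1⟩, -⟩ | ⟨e, σ1, τ1, h1, h10, hpr⟩
    · exfalso
      have h2 : y b1 = (c * l b1 (σ' 0)) • σ' 0 := by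
        rw [← h10, hc1, Pi.smul_apply, phi, smul_smul]
      have h3 : y b1 ≠ 0 := by
        rw [h2]
        exact smul_ne_zero (mul_ne_zero hc hb1) h'.ne
      have h4 := hcase b1 b1 h3
      rw [h2, map_smul, smul_eq_mul] at h4
      exact (mul_ne_zero (mul_ne_zero hc hb1) hb1) h4
    · obtain ⟨h2, h3⟩ := strict_exc hX hD hl h h0 hA h1 hpr
      have hc : (e (1, 0)).2 = 0 := by
        by_contra hc
        have h4 := (h3 hc).self_of_nhds
        rw [h10] at h4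
        exact h4 hy
      have ha : (e (1, 0)).1 ≠ 0 := by
        intro ha
        have h4 : e (1, 0) = 0 := Prod.ext ha hc
        have h5 : ((1, 0) : ℂ × ℂ) = 0 := e.injective (by rw [h4, map_zero])
        exact one_ne_zero (congrArg Prod.fst h5)
      refine ⟨σ1, τ1, _, h1, h10, h2 hc, lu_exc hX hu h h1 hpr hg, ?_⟩
      intro h4
      apply hn
      have h5 : Tendsto (fun s : ℂ => s * ((e (1, 0)).1)⁻¹) (𝓝 0) (𝓝 0) := by
        have h6 : Continuous fun s : ℂ => s * ((e (1, 0)).1)⁻¹ := by fun_prop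
        simpa using h6.tendsto 0
      filter_upwards [h5.eventually h4] with s hs
      simp only [DTrB_lin, zero_smul, add_zero] at hs
      have h6 : (s * ((e (1, 0)).1)⁻¹) • e (1, 0) = (s, 0) := by
        refine Prod.ext ?_ ?_
        · simp [ha]
        · simp [hc]
      rwa [h6] at hs

end Pool.Agent.H17L

end
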