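import Pool.Agent.H94.CB.M09
import Pool.Agent.H94.CB.M168
import Pool.Agent.H94.CB.M195
import Pool.Agent.H94.CB.M241
import Pool.Agent.H94.CB.M74

/-! The parts of this file: H17L.ResD, H17L.BlowRD, H17L.ResE, H17L.BaseLA. -/

section

/-!
# H17L ResD: local equations of the union of a fibre and of `D`

Models: H17N/ResU.lean, H17N/ResV.lean (the same statements for `RU`), H17BP/ResS.lean, H17BP/ChLem.lean.

* `RUD.mono_le`: `ResN` is monotone in `n` (see `RU.mono_le`).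
* `RUD.pr`: `y = c • x`: the chart `c • σ` (`IsChart.scale`), the same `g`, `G` (`hD.smul`, `hu.smul`).
* `exists_rud`: `x ∉ D`: chart at `x` (`hX.chart`), `g` by `exists_lu`, `G = g` (`σ p ∉ D` near `0` by `closed`), not `0` by `NonConst`, `exists_resN`.  `x ∈ D`: the adapted chart and `g` of `smooth`, `G = g * p.2`: not identically `0` near `0` (`g` is not `0` on `{t = 0}`, hence not on the open set `t ≠ 0` either: if `g p * p.2 = 0` near `0` then `g = 0` for `p.2 ≠ 0`, by continuity everywhere near `0`).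
* `rud_of_ru`: `x ∉ D`: the same chart, `G = g`.  `rud_of_trv`: `G = g * p.2`; `(g, p.2)` are coordinates (`coord_iff` in H17BP/Ift or H17BP/ChLem: the derivative of `g` in direction `(1, 0)` is not `0`), so `Mono G` with `a = b = 1`, unit `1`.
* `TrV.near`: adapted chart and `g` of `smooth` at `x`.  The function `s ↦ g (s, 0)` is analytic and not constant near `0` (`g 0 = 0`), so its derivative `fderiv ℂ g (s, 0) (1, 0)` does not vanish for `s ≠ 0` near `0`.  `y ∈ D` near `x`: `y = c • σ (τ y)`, `τ y = (s, 0)` (`AD`, `smul`), `s ≠ 0` because `y` is not a multiple of `x = σ 0`.  Chart at `y`: `c • σ ((s, 0) + ·)` (`IsChart.near`, `IsChart.scale`),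
  adapted, germ `g ((s, 0) + ·) - g (s, 0)`.
* `RUD.near`: chart `σ` with `g`, `G` at `x`; `y = c • σ p`, `p = τ y` near `0`, `p ≠ 0`.  If `y ∈ D`: `x ∈ D` (`closed`) and `TrV.near`, `rud_of_trv`.  If `y ∉ D` and `g p = 0`: the germ at `y` is `g (p + ·)`, and `G (p + ·)` is `Mono` by `ResN.near` (H17BP/FinG).  If `y ∉ D` and `g p ≠ 0`: `fderiv ℂ g p ≠ 0` (`H17N.crit_near`), `H17N.ru0_of_ne` (with `RU.pr` if necessary), `rud_of_ru`.
* `ru_of_rud`: `n = 0`, `x ∉ D`: `{G = 0} = {g = 0}` near `0`, `mono_of_zero` (`g` is not `0` near `0` by `NonConst`).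
* `rud_hor`: `x ∈ D`.  Let `σ₁, g₁` be the adapted chart and the germ of `smooth` at `x`, and `σ, g, G` those of `RUD`.  `IsChart.trans`: `Pr (σ₁ p) (σ (θ p))`, `θ` biholomorphic.  `g₁ = g ∘ θ` near `0` (`LU.unique` in H17N/BlowT, `hu.smul`, `hΛ`), `G₁ = G ∘ θ` is `Mono` (composition with a biholomorphic map: see `H17BP` `Mono.comp`/`ResN.comp` used in H17N/ResU), `G₁ p = 0 ↔ g₁ p = 0 ∨ σ₁ p ∈ D ↔ g₁ p = 0 ∨ p.2 = 0`.
  `mono_hor` gives `θ₁`; the chart `σ₁ ∘ θ₁` (`IsChart.comp`) is adapted and `u (σ₁ (θ₁ p)) = u x + p.1 ^ i` modulo `Λ`.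
* `trv_hor`: `η p = (g p, p.2)` is biholomorphic; the chart `σ ∘ η⁻¹`.
-/

set_option autoImplicit false

open Topology Filter

namespace Pool.Agent.H17L

attribute [-instance] ProperSMul.toContinuousSMul

open Pool.Agent.H17BP (Surface IsChart Tan Pr HolP ResN)
open Pool.Agent.H17N (TMap LU RU TF NonConst ThinF FibB HSec)

variable {V : Type} [NormedAddCommGroup V] [NormedSpace ℂ V] [FiniteDimensional ℂ V] {X D : Set V} {Λ : AddSubgroup ℂ} {u : V → ℂ} {x y : V} {n k : ℕ}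

omit [FiniteDimensional ℂ V] in
private theorem ResD_scale (hu : TMap X Λ u) {σ : ℂ × ℂ → V} {τ : V → ℂ × ℂ} {g : ℂ × ℂ → ℂ} (hc : IsChart X σ τ) (hg : LU Λ u σ g)
    {a : ℂ} (ha : a ≠ 0) : LU Λ u (fun p => a • σ p) g := by
  refine ⟨hg.1, hg.2.1, ?_⟩
  have h0 : u (a • σ 0) - u (σ 0) ∈ Λ := hu.smul _ hc.σ_mem.self_of_nhds a ha
  filter_upwards [hg.2.2, hc.σ_mem] with p hp1 hp2
  have h1 : u (a • σ p) - u (σ p) ∈ Λ := hu.smul _ hp2 a ha
  have h2 : u (a • σ p) - u (a • σ 0) - g p = (u (a • σ p) - u (σ p)) + (u (σ p) - u (σ 0) - g p) - (u (a • σ 0) - u (σ 0)) := by ring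
  rw [h2]
  exact Λ.sub_mem (Λ.add_mem h1 hp1) h0

omit [FiniteDimensional ℂ V] in
private theorem ResD_mem (hD : CurveD X D Λ u) {a : ℂ} (ha : a ≠ 0) (v : V) : a • v ∈ D ↔ v ∈ D := by
  constructor
  · intro h
    have h1 := hD.smul _ h a⁻¹ (inv_ne_zero ha)
    rwa [smul_smul, inv_mul_cancel₀ ha, one_smul] at h1
  · intro h
    exact hD.smul _ h a ha

private theorem ResD_add (p : ℂ × ℂ) : Tendsto (fun x : ℂ × ℂ => p + x) (𝓝 0) (𝓝 p) := by
  have h1 : Continuous fun x : ℂ × ℂ => p + x := by fun_prop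
  have h2 := h1.tendsto 0
  simpa using h2

omit [NormedSpace ℂ V] [FiniteDimensional ℂ V] in
private theorem ResD_near {σ : ℂ × ℂ → V} {g : ℂ × ℂ → ℂ} (hg : LU Λ u σ g) :
    ∀ᶠ p in 𝓝 (0 : ℂ × ℂ), LU Λ u (fun x => σ (p + x)) (fun x => g (p + x) - g p) := by
  filter_upwards [hg.1.eventually_analyticAt, eventually_eventually_nhds.2 hg.2.2] with p hp1 hp2
  refine ⟨?_, by simp, ?_⟩
  · have h1 : AnalyticAt ℂ (fun x : ℂ × ℂ => p + x) 0 := analyticAt_const.add analyticAt_id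
    have h2 : AnalyticAt ℂ g ((fun x : ℂ × ℂ => p + x) 0) := by
      simp only [add_zero]
      exact hp1
    exact (h2.comp h1).sub analyticAt_const
  · have h0 := hp2.self_of_nhds
    filter_upwards [(ResD_add p).eventually hp2] with x hx2
    have h2 : u (σ (p + x)) - u (σ (p + 0)) - (g (p + x) - g p) = (u (σ (p + x)) - u (σ 0) - g (p + x)) - (u (σ p) - u (σ 0) - g p) := by
      rw [add_zero]
      ring
    rw [h2]
    exact Λ.sub_mem hx2 h0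

omit [FiniteDimensional ℂ V] in
private theorem ResD_notMem (hD : CurveD X D Λ u) {σ : ℂ × ℂ → V} {τ : V → ℂ × ℂ} (hc : IsChart X σ τ) (h : σ 0 ∉ D) :
    ∀ᶠ p in 𝓝 (0 : ℂ × ℂ), σ p ∉ D :=
  hc.σ_an.continuousAt.tendsto.eventually (hD.closed _ hc.σ_mem.self_of_nhds h)

private theorem ResD_slice : Tendsto (fun s : ℂ => ((s, 0) : ℂ × ℂ)) (𝓝 0) (𝓝 0) := by
  have h1 : Continuous fun s : ℂ => ((s, 0) : ℂ × ℂ) := by fun_prop
  exact h1.tendsto 0

private theorem ResD_ne {g : ℂ × ℂ → ℂ} (hg : AnalyticAt ℂ g 0) (h : ¬ ∀ᶠ s in 𝓝 (0 : ℂ), g (s, 0) = 0) :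
    ¬ ∀ᶠ p in 𝓝 (0 : ℂ × ℂ), g p * p.2 = 0 := by
  intro h1
  apply h
  filter_upwards [ResD_slice.eventually hg.eventually_analyticAt, ResD_slice.eventually (eventually_eventually_nhds.2 h1)] with s hs1 hs2
  by_contra h2
  have h3 : ∀ᶠ p in 𝓝 ((s, 0) : ℂ × ℂ), p.2 = 0 := by
    filter_upwards [hs1.continuousAt.eventually_ne h2, hs2] with p hp1 hp2
    exact (mul_eq_zero.1 hp2).resolve_left hp1
  have h4 : Tendsto (fun t : ℂ => ((s, t) : ℂ × ℂ)) (𝓝 0) (𝓝 (s, 0)) := by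
    have h5 : Continuous fun t : ℂ => ((s, t) : ℂ × ℂ) := by fun_prop
    exact h5.tendsto 0
  have h6 : ∀ᶠ t in 𝓝[≠] (0 : ℂ), t = 0 := (h4.eventually h3).filter_mono nhdsWithin_le_nhds
  obtain ⟨t, ht1, ht2⟩ := (h6.and self_mem_nhdsWithin).exists
  exact ht2 ht1

private theorem ResD_der {g : ℂ × ℂ → ℂ} (hg : AnalyticAt ℂ g 0) (hg0 : g 0 = 0) (h : ¬ ∀ᶠ s in 𝓝 (0 : ℂ), g (s, 0) = 0) :
    ∀ᶠ s in 𝓝[≠] (0 : ℂ), fderiv ℂ g (s, 0) (1, 0) ≠ 0 := by
  have hs : AnalyticAt ℂ (fun s : ℂ => ((s, 0) : ℂ × ℂ)) 0 := analyticAt_id.prod analyticAt_const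
  have hd : AnalyticAt ℂ (fun s : ℂ => fderiv ℂ g (s, 0) (1, 0)) 0 := by
    have h1 : AnalyticAt ℂ (fun p : ℂ × ℂ => fderiv ℂ g p (1, 0)) ((fun s : ℂ => ((s, 0) : ℂ × ℂ)) 0) :=
      Pool.Agent.H17BP.analyticAt_dx hg
    exact AnalyticAt.comp (g := fun p : ℂ × ℂ => fderiv ℂ g p (1, 0)) (f := fun s : ℂ => ((s, 0) : ℂ × ℂ)) h1 hs
  rcases hd.eventually_eq_zero_or_eventually_ne_zero with h0 | h0
  · exfalso
    apply h
    obtain ⟨r, hr, hr1⟩ := Metric.eventually_nhds_iff_ball.1 (h0.and (ResD_slice.eventually hg.eventually_analyticAt))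
    have h5 : ∀ s ∈ Metric.ball (0 : ℂ) r, HasDerivAt (fun s : ℂ => g (s, 0)) 0 s := by
      intro s hs1
      have h6 := hr1 s hs1
      have h7 : HasDerivAt (fun s : ℂ => ((s, 0) : ℂ × ℂ)) (1, 0) s := (hasDerivAt_id s).prodMk (hasDerivAt_const s 0)
      have h8 := h6.2.differentiableAt.hasFDerivAt.comp_hasDerivAt s h7
      rw [h6.1] at h8
      exact h8
    have h6 : ∀ s ∈ Metric.ball (0 : ℂ) r, g (s, 0) = 0 := by
      intro s hs1
      have h7 : (fun s : ℂ => g (s, 0)) s = (fun s : ℂ => g (s, 0)) 0 :=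
        Metric.isOpen_ball.is_const_of_deriv_eq_zero (convex_ball (0 : ℂ) r).isPreconnected
          (fun z hz => (h5 z hz).differentiableAt.differentiableWithinAt) (fun z hz => (h5 z hz).deriv) hs1 (Metric.mem_ball_self hr)
      simp only at h7
      rw [h7]
      exact hg0
    filter_upwards [Metric.ball_mem_nhds (0 : ℂ) hr] with s hs1
    exact h6 s hs1
  · exact h0

theorem RUD.mono_le (h : RUD X D Λ u x n) (hnk : n ≤ k) : RUD X D Λ u x k := by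
  obtain ⟨σ, τ, g, G, h1, h2, h3, h4, h5, h6⟩ := h
  exact ⟨σ, τ, g, G, h1, h2, h3, h4, h5, h6.mono_le hnk⟩

theorem RUD.pr (hX : Surface X) (hu : TMap X Λ u) (hD : CurveD X D Λ u) (h : RUD X D Λ u x n) (hy : Pr y x) : RUD X D Λ u y n := by
  obtain ⟨σ, τ, g, G, hc, hx, hg, hG, hz, hr⟩ := h
  obtain ⟨a, ha, rfl⟩ := hy
  refine ⟨fun p => a • σ p, fun y => τ (a⁻¹ • y), g, G, hc.scale hX.smul ha, ?_, ResD_scale hu hc hg ha, hG, ?_, hr⟩
  · show a • σ 0 = a • x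
    rw [hx]
  · filter_upwards [hz] with p hp
    rw [hp, ResD_mem hD ha]

theorem exists_rud (hX : Surface X) (hu : TMap X Λ u) (hn : NonConst X Λ u) (hD : CurveD X D Λ u) (hx : x ∈ X) : ∃ n, RUD X D Λ u x n := by
  by_cases hxD : x ∈ D
  · obtain ⟨σ, τ, g, hc, hσ, hA, hg, hne⟩ := hD.smooth x hxD
    have hG : AnalyticAt ℂ (fun p : ℂ × ℂ => g p * p.2) 0 := hg.1.mul analyticAt_snd
    obtain ⟨n, hr⟩ := Pool.Agent.H17BP.exists_resN hG (ResD_ne hg.1 hne)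
    refine ⟨n, σ, τ, g, _, hc, hσ, hg, hG, ?_, hr⟩
    filter_upwards [hA] with p hp
    rw [mul_eq_zero, hp]
  · obtain ⟨σ, τ, hc, hσ⟩ := hX.chart x hx
    obtain ⟨g, hg⟩ := Pool.Agent.H17N.exists_lu hu hc
    obtain ⟨n, hr⟩ := Pool.Agent.H17BP.exists_resN hg.1 (hn σ τ g hc hg)
    refine ⟨n, σ, τ, g, g, hc, hσ, hg, hg.1, ?_, hr⟩
    rw [← hσ] at hxD
    filter_upwards [ResD_notMem hD hc hxD] with p hp
    exact ⟨Or.inl, fun h => h.resolve_right hp⟩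

theorem rud_of_ru (hD : CurveD X D Λ u) (hx : x ∈ X) (hxD : x ∉ D) (h : RU X Λ u x n) : RUD X D Λ u x n := by
  obtain ⟨σ, τ, g, hc, hσ, hg, hr⟩ := h
  refine ⟨σ, τ, g, g, hc, hσ, hg, hg.1, ?_, hr⟩
  rw [← hσ] at hxD
  filter_upwards [ResD_notMem hD hc hxD] with p hp
  exact ⟨Or.inl, fun h => h.resolve_right hp⟩

theorem rud_of_trv (h : TrV X D Λ u x) : RUD X D Λ u x 0 := by
  obtain ⟨σ, τ, g, hc, hσ, hA, hg, hd⟩ := h
  refine ⟨σ, τ, g, fun p => g p * p.2, hc, hσ, hg, hg.1.mul analyticAt_snd, ?_, ?_⟩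
  · filter_upwards [hA] with p hp
    rw [mul_eq_zero, hp]
  · have f2 : fderiv ℂ (fun x : ℂ × ℂ => x.2) 0 = ContinuousLinearMap.snd ℂ ℂ ℂ := (hasFDerivAt_snd).fderiv
    have e1 : Pool.Agent.H17BP.dy (fun x : ℂ × ℂ => x.2) 0 = 1 := by simp [Pool.Agent.H17BP.dy, f2]
    have e2 : Pool.Agent.H17BP.dx (fun x : ℂ × ℂ => x.2) 0 = 0 := by simp [Pool.Agent.H17BP.dx, f2]
    refine ⟨g, fun x => x.2, 1, 1, fun _ => 1, (Pool.Agent.H17BP.coord_iff hg.1 analyticAt_snd hg.2.1 rfl).2 ?_, analyticAt_const, one_ne_zero,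
      Eventually.of_forall fun x => by simp⟩
    rw [e1, e2, mul_zero, mul_one, sub_zero]
    exact hd

omit [FiniteDimensional ℂ V] in
private theorem ResD_trv_pr (hX : Surface X) (hu : TMap X Λ u) (hD : CurveD X D Λ u) (h : TrV X D Λ u x) (hy : Pr y x) : TrV X D Λ u y := by
  obtain ⟨σ, τ, g, hc, hx, hA, hg, hd⟩ := h
  obtain ⟨a, ha, rfl⟩ := hy
  refine ⟨fun p => a • σ p, fun y => τ (a⁻¹ • y), g, hc.scale hX.smul ha, ?_, ?_, ResD_scale hu hc hg ha, hd⟩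
  · show a • σ 0 = a • x
    rw [hx]
  · filter_upwards [hA] with p hp
    rw [ResD_mem hD ha, hp]

theorem TrV.near (hX : Surface X) (hu : TMap X Λ u) (hD : CurveD X D Λ u) (hx : x ∈ D) :
    ∀ᶠ y in 𝓝 x, y ∈ D → ¬ Pr y x → TrV X D Λ u y := by
  obtain ⟨σ, τ, g, hc, hσ, hA, hg, hne⟩ := hD.smooth x hx
  have hτ0 : τ (σ 0) = 0 := hc.left.self_of_nhds
  have hτ : Tendsto τ (𝓝 (σ 0)) (𝓝 0) := by
    have h1 := hc.τ_an.continuousAt.tendsto
    rwa [hτ0] at h1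
  have hder : ∀ᶠ p in 𝓝 (0 : ℂ × ℂ), p.1 ≠ 0 → fderiv ℂ g (p.1, 0) (1, 0) ≠ 0 := by
    have h1 : Tendsto (fun p : ℂ × ℂ => p.1) (𝓝 0) (𝓝 0) := continuous_fst.tendsto (0 : ℂ × ℂ)
    exact h1.eventually (eventually_nhdsWithin_iff.1 (ResD_der hg.1 hg.2.1 hne))
  have e3 : ∀ᶠ p in 𝓝 (0 : ℂ × ℂ), p ≠ 0 → σ p ∈ D → TrV X D Λ u (σ p) := by
    filter_upwards [hc.near, ResD_near hg, hder, eventually_eventually_nhds.2 hA] with p hp1 hp2 hp3 hp4 hp0 hpD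
    have h2 : p.2 = 0 := hp4.self_of_nhds.1 hpD
    have h1 : p.1 ≠ 0 := fun h => hp0 (Prod.ext h h2)
    have hp : (p.1, 0) = p := Prod.ext rfl h2.symm
    refine ⟨_, _, _, hp1, by simp, ?_, hp2, ?_⟩
    · filter_upwards [(ResD_add p).eventually hp4] with q hq
      rw [hq]
      show p.2 + q.2 = 0 ↔ q.2 = 0
      rw [h2, zero_add]
    · have h3 : fderiv ℂ (fun x => g (p + x) - g p) 0 = fderiv ℂ g p := by
        rw [fderiv_sub_const, fderiv_comp_add_left, add_zero]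
      rw [h3]
      have h4 := hp3 h1
      rwa [hp] at h4
  rw [← hσ]
  filter_upwards [hc.right, hτ.eventually e3] with y hy1 hy2 hyD hyn
  obtain ⟨c, hc0, hyc⟩ := hy1 (hD.sub hyD)
  have hne : τ y ≠ 0 := by
    intro h0
    rw [h0] at hyc
    exact hyn ⟨c, hc0, hyc⟩
  have hm : σ (τ y) ∈ D := by
    rw [hyc] at hyD
    exact (ResD_mem hD hc0 _).1 hyD
  exact ResD_trv_pr hX hu hD (hy2 hne hm) ⟨c, hc0, hyc⟩

theorem RUD.near (hX : Surface X) (hu : TMap X Λ u) (hD : CurveD X D Λ u) (hx : x ∈ X) (h : RUD X D Λ u x n) :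
    ∀ᶠ y in 𝓝 x, y ∈ X → ¬ Pr y x → RUD X D Λ u y 0 := by
  have hT : ∀ᶠ y in 𝓝 x, y ∈ D → ¬ Pr y x → RUD X D Λ u y 0 := by
    by_cases hxD : x ∈ D
    · filter_upwards [TrV.near hX hu hD hxD] with y hy h1 h2
      exact rud_of_trv (hy h1 h2)
    · filter_upwards [hD.closed x hx hxD] with y hy h1 _
      exact absurd h1 hy
  obtain ⟨σ, τ, g, G, hc, hσ, hg, hG, hz, hr⟩ := h
  have hτ0 : τ (σ 0) = 0 := hc.left.self_of_nhds
  have hτ : Tendsto τ (𝓝 (σ 0)) (𝓝 0) := by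
    have h1 := hc.τ_an.continuousAt.tendsto
    rwa [hτ0] at h1
  have e2 : ∀ᶠ p in 𝓝 (0 : ℂ × ℂ), p ≠ 0 → Pool.Agent.H17BP.Mono fun x => G (p + x) :=
    eventually_nhdsWithin_iff.1 (Pool.Agent.H17BP.ResN.near hr)
  have e3 : ∀ᶠ p in 𝓝 (0 : ℂ × ℂ), p ≠ 0 → σ p ∉ D → RUD X D Λ u (σ p) 0 := by
    filter_upwards [hc.near, ResD_near hg, e2, Pool.Agent.H17N.crit_near hg.1 hg.2.1, hG.eventually_analyticAt,
      eventually_eventually_nhds.2 hz, hc.σ_mem] with p hp1 hp2 hp3 hp4 hp5 hp6 hp7 hp0 hpD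
    by_cases hgp : g p = 0
    · refine ⟨_, _, _, fun x => G (p + x), hp1, by simp, hp2, ?_, ?_, hp3 hp0⟩
      · have h1 : AnalyticAt ℂ (fun x : ℂ × ℂ => p + x) 0 := analyticAt_const.add analyticAt_id
        have h2 : AnalyticAt ℂ G ((fun x : ℂ × ℂ => p + x) 0) := by
          simp only [add_zero]
          exact hp5
        exact h2.comp h1
      · filter_upwards [(ResD_add p).eventually hp6] with q hq
        rw [hq, hgp, sub_zero]
    · have hd : fderiv ℂ (fun x => g (p + x) - g p) 0 ≠ 0 := by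
        have h1 : fderiv ℂ (fun x => g (p + x) - g p) 0 = fderiv ℂ g p := by
          rw [fderiv_sub_const, fderiv_comp_add_left, add_zero]
        rw [h1]
        exact hp4 hgp
      have h2 := Pool.Agent.H17N.ru0_of_ne hp1 hp2 hd
      rw [add_zero] at h2
      exact rud_of_ru hD hp7 hpD h2
  rw [← hσ] at hT ⊢
  filter_upwards [hT, hc.right, hτ.eventually e3] with y hy0 hy1 hy2 hyX hyn
  by_cases hyD : y ∈ D
  · exact hy0 hyD hyn
  · obtain ⟨c, hc0, hyc⟩ := hy1 hyX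
    have hne : τ y ≠ 0 := by
      intro h0
      rw [h0] at hyc
      exact hyn ⟨c, hc0, hyc⟩
    have hm : σ (τ y) ∉ D := by
      intro h0
      apply hyD
      rw [hyc]
      exact hD.smul _ h0 c hc0
    exact (hy2 hne hm).pr hX hu hD ⟨c, hc0, hyc⟩

theorem ru_of_rud (hX : Surface X) (hn : NonConst X Λ u) (hD : CurveD X D Λ u) (hxD : x ∉ D) (h : RUD X D Λ u x 0) : RU X Λ u x 0 := by
  obtain ⟨σ, τ, g, G, hc, hσ, hg, hG, hz, hr⟩ := h
  refine ⟨σ, τ, g, hc, hσ, hg, ?_⟩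
  rw [← hσ] at hxD
  refine mono_of_zero hr hg.1 (hn σ τ g hc hg) ?_
  filter_upwards [hz] with p hp h1
  exact hp.2 (Or.inl h1)

end Pool.Agent.H17L

end

section

/-!
# H17L BlowRD: the resolution number on the blow-up

Model: H17N/BlowR.lean (`ru_blow`, `crit_blow`).

* `rud_blow`: take `σ, τ, g, G` of `hn` at `q` (`σ 0 = q`); `G` is not `Mono` (`h0`), so `ResN n (G ∘ β)` for every `BChart β`.  `blow_chart` (H17N/BlowP) at `y`.  Second alternative: `uB u y - u q ∈ Λ` (a component of `y = σ1 0` is a multiple of `σ (e 0) = q`), the germ of `uB u` is `g1 p = g (e (p.1, p.1 * p.2))` (`lu_exc`), and `G1 p = G (e (p.1, p.1 * p.2))`: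
  `G1 p = 0 ↔ (g1 p = 0 ∨ σ1 p ∈ blow l D)`: for `p.1 ≠ 0` near `0` by `strict_off` and the property of `G` at `e (p.1, p.1 * p.2)`; for `p.1 = 0` both sides are true (`G 0 = 0`, `g 0 = 0`).  `ResN n G1` because `p ↦ e (p.1, p.1 * p.2)` is a `BChart` (`bl 0` composed with the linear map; see BlowR).
  First alternative: `y = c • phi l (σ' 0)`; `x = σ' 0 ∈ X` with `l b x ≠ 0`, so `¬ Pr x q`.  If `RUD X D Λ u x k` with `σ₂, g₂, G₂`, `σ₂ 0 = x`: the chart `c • phi l (σ₂ p)` (`off_chart`), `lu_off`, and `c • phi l (σ₂ p) ∈ blow l D ↔ σ₂ p ∈ D` (`phi_mem_strict`), the same `G₂`.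
* `crit_blowD`, `good_blowD`: `y` has a component `x = y b ≠ 0`, `x ∈ X` (`comp_mem`) (`∈ D`, `comp_mem_strict`), `uB u y - u x ∈ Λ` (`uB_eq`), so `x` does not lie over `B`, and it is not a multiple of `q`.  So `l b' x ≠ 0` for some `b'`, `y = c • phi l x` (`eq_phi`); transport the chart at `x` as above (`off_chart`, `lu_off`, `phi_mem_strict`).
-/

set_option autoImplicit false

open Topology Filter

namespace Pool.Agent.H17L

attribute [-instance] ProperSMul.toContinuousSMul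

open Pool.Agent.H17BP (Surface IsChart Tan Pr HolP ResN)
open Pool.Agent.H62.BU (blow dense phi Ker)
open Pool.Agent.H17N (TMap LU RU TF NonConst ThinF FibB HSec uB aB blow_chart)

variable {V : Type} [NormedAddCommGroup V] [NormedSpace ℂ V] [FiniteDimensional ℂ V] {ι : Type} [Fintype ι] {l : ι → V →L[ℂ] ℂ} {X D : Set V} {q : V}
  {Λ : AddSubgroup ℂ} {u : V → ℂ} {B : Set ℂ}

private theorem BlowRD_val (hX : Surface X) (hu : TMap X Λ u) {y : ι → V} (hy : y ∈ blow l X) {x : V}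
    (h : ∀ b, y b ≠ 0 → Pr (y b) x) : uB u y - u x ∈ Λ := by
  obtain ⟨b, hb⟩ := H62.BU.exists_ne y hy
  have h1 := H17N.uB_eq hX hu hy hb
  have h2 : y b ∈ X := H62.BU.comp_mem (H17BP.surface_iff.2 hX) y hy hb
  obtain ⟨c, hc, h3⟩ := h b hb
  have h4 : x ∈ X := by
    have h5 := hX.smul _ h2 c⁻¹ (inv_ne_zero hc)
    rwa [h3, smul_smul, inv_mul_cancel₀ hc, one_smul] at h5
  have h5 := hu.smul x h4 c hc
  rw [← h3] at h5
  have h6 := Λ.add_mem h1 h5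
  rwa [sub_add_sub_cancel] at h6

private theorem BlowRD_bihol (e : (ℂ × ℂ) ≃L[ℂ] (ℂ × ℂ)) : H17BP.Bihol (fun x => e x) :=
  ⟨e.toContinuousLinearMap.analyticAt 0, map_zero e, fun x => e.symm x,
    e.symm.toContinuousLinearMap.analyticAt 0, map_zero e.symm,
    Eventually.of_forall fun x => e.symm_apply_apply x,
    Eventually.of_forall fun x => e.apply_symm_apply x⟩

/-- near the centre of a chart the points are not in the kernel -/
private theorem BlowRD_ne {σ : ℂ × ℂ → V} {τ : V → ℂ × ℂ} (h : IsChart X σ τ) (hb : ∃ b, l b (σ 0) ≠ 0) :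
    ∀ᶠ p in 𝓝 (0 : ℂ × ℂ), ∃ b, l b (σ p) ≠ 0 := by
  obtain ⟨b, hb⟩ := hb
  have h1 : ContinuousAt (fun p => l b (σ p)) 0 := (l b).continuous.continuousAt.comp h.σ_an.continuousAt
  filter_upwards [h1.eventually_ne hb] with p hp
  exact ⟨b, hp⟩

/-- membership in the strict transform off the exceptional curve -/
private theorem BlowRD_mem (hX : Surface X) (hD : CurveD X D Λ u) {σ : ℂ × ℂ → V} {τ : V → ℂ × ℂ} (h : IsChart X σ τ)
    (hb : ∃ b, l b (σ 0) ≠ 0) {c : ℂ} (hc : c ≠ 0) :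
    ∀ᶠ p in 𝓝 (0 : ℂ × ℂ), c • phi l (σ p) ∈ blow l D ↔ σ p ∈ D := by
  filter_upwards [BlowRD_ne h hb, h.σ_mem] with p h1 h2
  exact phi_mem_strict hX hD h2 h1 hc

/-- a point over a value which is not in `B` -/
private theorem BlowRD_pt (hX : Surface X) (hu : TMap X Λ u) (hl : Ker l q) (hq : q ∈ X) {B : Set ℂ}
    (hB : ∃ b ∈ B, u q - b ∈ Λ) {y : ι → V} (hy : y ∈ blow l X) (hyB : ∀ b ∈ B, uB u y - b ∉ Λ) :
    ∃ b, y b ≠ 0 ∧ y b ∈ X ∧ (∀ b' ∈ B, u (y b) - b' ∉ Λ) ∧ (∃ b', l b' (y b) ≠ 0) ∧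
      ∃ c : ℂ, c ≠ 0 ∧ y = c • phi l (y b) := by
  obtain ⟨b, hb⟩ := H62.BU.exists_ne y hy
  have h1 := H17N.uB_eq hX hu hy hb
  have h2 : y b ∈ X := H62.BU.comp_mem (H17BP.surface_iff.2 hX) y hy hb
  have h3 : ∀ b' ∈ B, u (y b) - b' ∉ Λ := by
    intro b' hb' h4
    refine hyB b' hb' ?_
    have h5 := Λ.add_mem h1 h4
    rwa [sub_add_sub_cancel] at h5
  have h4 : ∃ b', l b' (y b) ≠ 0 := by
    by_contra hcon
    push Not at hcon
    obtain ⟨c, hc⟩ := (hl (y b)).1 hcon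
    have hc0 : c ≠ 0 := by
      rintro rfl
      rw [zero_smul] at hc
      exact hb hc
    obtain ⟨b₀, hb₀, hqb⟩ := hB
    refine h3 b₀ hb₀ ?_
    have h5 := hu.smul q hq c hc0
    rw [← hc] at h5
    have h6 := Λ.add_mem h5 hqb
    rwa [sub_add_sub_cancel] at h6
  obtain ⟨b', hb'⟩ := h4
  exact ⟨b, hb, h2, h3, ⟨b', hb'⟩, _, inv_ne_zero (H62.BU.ne_of_ne y hy hb hb'), H62.BU.eq_phi y hy hb hb'⟩

theorem rud_blow (hX : Surface X) (hu : TMap X Λ u) (hD : CurveD X D Λ u) (hl : Ker l q) (hq : q ∈ X) {n : ℕ}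
    (hn : RUD X D Λ u q (n + 1)) (h0 : ¬ RUD X D Λ u q 0) {y : ι → V} (hy : y ∈ blow l X) :
    (uB u y - u q ∈ Λ ∧ RUD (blow l X) (blow l D) Λ (uB u) y n) ∨ ∃ x ∈ X, ¬ Pr x q ∧ Pr y (phi l x) ∧ uB u y - u x ∈ Λ ∧
      ∀ k, RUD X D Λ u x k → RUD (blow l X) (blow l D) Λ (uB u) y k := by
  obtain ⟨σ, τ, g, G, hσ, hσ0, hg, hG, hGz, hN⟩ := hn
  have hN' : ∀ β, H17BP.BChart β → ResN n (G ∘ β) := by
    rcases hN with hN | hN
    · exact absurd ⟨σ, τ, g, G, hσ, hσ0, hg, hG, hGz, hN⟩ h0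
    · exact hN
  rcases blow_chart hX hl hσ hσ0 hy with
    ⟨σ', τ', σ1, τ1, h1, ⟨b, hb⟩, h2, h3, ⟨c, hc, hc2⟩, h4⟩ | ⟨e, σ1, τ1, h2, h3, h4⟩
  · right
    refine ⟨σ' 0, h1.σ_mem.self_of_nhds, ?_, ⟨c, hc, ?_⟩, ?_, fun k hk => ?_⟩
    · rintro ⟨a, -, ha⟩
      have h5 : l b q = 0 := (hl q).2 ⟨1, (one_smul _ _).symm⟩ b
      rw [ha, map_smul, h5, smul_zero] at hb
      exact hb rfl
    · rw [← h3]
      exact hc2 0
    · refine BlowRD_val hX hu hy fun b' hb' => ?_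
      rw [← h3] at hb' ⊢
      exact h4.self_of_nhds b' hb'
    · obtain ⟨σ₂, τ₂, g₂, G₂, k1, k2, k3, k4, k5, k6⟩ := hk
      have hb2 : ∃ b, l b (σ₂ 0) ≠ 0 := ⟨b, by rw [k2]; exact hb⟩
      obtain ⟨τ₃, k7⟩ := off_chart (l := l) hX k1 hb2 hc
      refine ⟨fun p => c • phi l (σ₂ p), τ₃, g₂, G₂, k7, ?_, lu_off hX hu k1 hb2 hc k3, k4, ?_, k6⟩
      · show c • phi l (σ₂ 0) = y
        rw [k2, ← hc2 0, h3]
      · filter_upwards [k5, BlowRD_mem hX hD k1 hb2 hc] with p m1 m2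
        rw [m1, m2]
  · left
    obtain ⟨β, hβ⟩ : ∃ β : ℂ × ℂ → ℂ × ℂ, β = fun p => e (p.1, p.1 * p.2) := ⟨_, rfl⟩
    have hBC : H17BP.BChart β := by
      refine ⟨fun x => e x, fun x => x, BlowRD_bihol e, H17BP.Bihol.id, Eventually.of_forall fun x => ?_⟩
      rw [hβ]
      simp only [H17BP.bl, zero_add]
    refine ⟨?_, σ1, τ1, fun p => g (e (p.1, p.1 * p.2)), G ∘ β, h2, h3, lu_exc hX hu hσ h2 h4 hg, ?_, ?_, hN' β hBC⟩
    · refine BlowRD_val hX hu hy fun b' hb' => ?_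
      have h5 := h4.self_of_nhds b'
      rw [h3] at h5
      have h6 := h5 hb'
      have h7 : e (((0 : ℂ × ℂ).1, (0 : ℂ × ℂ).1 * (0 : ℂ × ℂ).2)) = 0 := by
        simp only [Prod.fst_zero, Prod.snd_zero, mul_zero]
        exact map_zero e
      rwa [h7, hσ0] at h6
    · have h5 : AnalyticAt ℂ G (β 0) := by rw [hBC.zero]; exact hG
      exact h5.comp hBC.an
    · have h6 : G 0 = 0 := hGz.self_of_nhds.2 (Or.inl hg.2.1)
      filter_upwards [strict_off hX hD hl hσ hσ0 h2 h4, hBC.tendsto.eventually hGz] with p h7 h8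
      rw [hβ] at h8
      by_cases hp : p.1 = 0
      · have h9 : e (p.1, p.1 * p.2) = 0 := by
          rw [hp, zero_mul]
          exact map_zero e
        show (G ∘ β) p = 0 ↔ (g (e (p.1, p.1 * p.2)) = 0 ∨ σ1 p ∈ blow l D)
        have h10 : (G ∘ β) p = 0 := by
          rw [hβ]
          show G (e (p.1, p.1 * p.2)) = 0
          rw [h9, h6]
        rw [h9]
        exact ⟨fun _ => Or.inl hg.2.1, fun _ => h10⟩
      · have h9 := h7 hp
        rw [h9]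
        rw [hβ]
        exact h8

theorem crit_blowD (hX : Surface X) (hu : TMap X Λ u) (hl : Ker l q) (hq : q ∈ X) (hB : ∃ b ∈ B, u q - b ∈ Λ)
    (hc : ∀ x ∈ X, (∀ b ∈ B, u x - b ∉ Λ) → RU X Λ u x 0) :
    ∀ y ∈ blow l X, (∀ b ∈ B, uB u y - b ∉ Λ) → RU (blow l X) Λ (uB u) y 0 := by
  intro y hy hyB
  obtain ⟨b, hb, h1, h2, h3, c, hc0, h4⟩ := BlowRD_pt hX hu hl hq hB hy hyB
  obtain ⟨σ, τ, g, k1, k2, k3, k4⟩ := hc (y b) h1 h2
  have hb2 : ∃ b, l b (σ 0) ≠ 0 := by rw [k2]; exact h3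
  obtain ⟨τ₃, k7⟩ := off_chart (l := l) hX k1 hb2 hc0
  refine ⟨fun p => c • phi l (σ p), τ₃, g, k7, ?_, lu_off hX hu k1 hb2 hc0 k3, k4⟩
  show c • phi l (σ 0) = y
  rw [k2]
  exact h4.symm

theorem good_blowD (hX : Surface X) (hu : TMap X Λ u) (hD : CurveD X D Λ u) (hl : Ker l q) (hq : q ∈ X) (hB : ∃ b ∈ B, u q - b ∈ Λ)
    (hg : ∀ x ∈ D, (∀ b ∈ B, u x - b ∉ Λ) → TrV X D Λ u x) :
    ∀ y ∈ blow l D, (∀ b ∈ B, uB u y - b ∉ Λ) → TrV (blow l X) (blow l D) Λ (uB u) y := by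
  intro y hyD hyB
  have hy : y ∈ blow l X := strict_sub hD hyD
  obtain ⟨b, hb, h1, h2, h3, c, hc0, h4⟩ := BlowRD_pt hX hu hl hq hB hy hyB
  obtain ⟨σ, τ, g, k1, k2, k3, k4, k5⟩ := hg (y b) (comp_mem_strict hX hD hyD hb) h2
  have hb2 : ∃ b, l b (σ 0) ≠ 0 := by rw [k2]; exact h3
  obtain ⟨τ₃, k7⟩ := off_chart (l := l) hX k1 hb2 hc0
  refine ⟨fun p => c • phi l (σ p), τ₃, g, k7, ?_, ?_, lu_off hX hu k1 hb2 hc0 k4, k5⟩
  · show c • phi l (σ 0) = y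
    rw [k2]
    exact h4.symm
  · filter_upwards [k3, BlowRD_mem hX hD k1 hb2 hc0] with p m1 m2
    rw [m2, m1]

end Pool.Agent.H17L

end

section

/-!
# H17L ResE: local equations of the union of a fibre and of `D` (second part: `rud_hor`, `trv_hor`)

Models: H17N/ResU.lean, H17N/ResV.lean (the same statements for `RU`), H17BP/ResS.lean, H17BP/ChLem.lean.

* `RUD.mono_le`: `ResN` is monotone in `n` (see `RU.mono_le`).
* `RUD.pr`: `y = c • x`: the chart `c • σ` (`IsChart.scale`), the same `g`, `G` (`hD.smul`, `hu.smul`).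
* `exists_rud`: `x ∉ D`: chart at `x` (`hX.chart`), `g` by `exists_lu`, `G = g` (`σ p ∉ D` near `0` by `closed`), not `0` by `NonConst`, `exists_resN`.  `x ∈ D`: the adapted chart and `g` of `smooth`, `G = g * p.2`: not identically `0` near `0` (`g` is not `0` on `{t = 0}`, hence not on the open set `t ≠ 0` either: if `g p * p.2 = 0` near `0` then `g = 0` for `p.2 ≠ 0`, by continuity everywhere near `0`).
* `rud_of_ru`: `x ∉ D`: the same chart, `G = g`.  `rud_of_trv`: `G = g * p.2`; `(g, p.2)` are coordinates (`coord_iff` in H17BP/Ift or H17BP/ChLem: the derivative of `g` in direction `(1, 0)` is not `0`), so `Mono G` with `a = b = 1`, unit `1`.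
* `TrV.near`: adapted chart and `g` of `smooth` at `x`.  The function `s ↦ g (s, 0)` is analytic and not constant near `0` (`g 0 = 0`), so its derivative `fderiv ℂ g (s, 0) (1, 0)` does not vanish for `s ≠ 0` near `0`.  `y ∈ D` near `x`: `y = c • σ (τ y)`, `τ y = (s, 0)` (`AD`, `smul`), `s ≠ 0` because `y` is not a multiple of `x = σ 0`.  Chart at `y`: `c • σ ((s, 0) + ·)` (`IsChart.near`, `IsChart.scale`),
  adapted, germ `g ((s, 0) + ·) - g (s, 0)`.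
* `RUD.near`: chart `σ` with `g`, `G` at `x`; `y = c • σ p`, `p = τ y` near `0`, `p ≠ 0`.  If `y ∈ D`: `x ∈ D` (`closed`) and `TrV.near`, `rud_of_trv`.  If `y ∉ D` and `g p = 0`: the germ at `y` is `g (p + ·)`, and `G (p + ·)` is `Mono` by `ResN.near` (H17BP/FinG).  If `y ∉ D` and `g p ≠ 0`: `fderiv ℂ g p ≠ 0` (`H17N.crit_near`), `H17N.ru0_of_ne` (with `RU.pr` if necessary), `rud_of_ru`.
* `ru_of_rud`: `n = 0`, `x ∉ D`: `{G = 0} = {g = 0}` near `0`, `mono_of_zero` (`g` is not `0` near `0` by `NonConst`).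
* `rud_hor`: `x ∈ D`.  Let `σ₁, g₁` be the adapted chart and the germ of `smooth` at `x`, and `σ, g, G` those of `RUD`.  `IsChart.trans`: `Pr (σ₁ p) (σ (θ p))`, `θ` biholomorphic.  `g₁ = g ∘ θ` near `0` (`LU.unique` in H17N/BlowT, `hu.smul`, `hΛ`), `G₁ = G ∘ θ` is `Mono` (composition with a biholomorphic map: see `H17BP` `Mono.comp`/`ResN.comp` used in H17N/ResU), `G₁ p = 0 ↔ g₁ p = 0 ∨ σ₁ p ∈ D ↔ g₁ p = 0 ∨ p.2 = 0`.
  `mono_hor` gives `θ₁`; the chart `σ₁ ∘ θ₁` (`IsChart.comp`) is adapted and `u (σ₁ (θ₁ p)) = u x + p.1 ^ i` modulo `Λ`.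
* `trv_hor`: `η p = (g p, p.2)` is biholomorphic; the chart `σ ∘ η⁻¹`.
-/

set_option autoImplicit false

open Topology Filter

namespace Pool.Agent.H17L

attribute [-instance] ProperSMul.toContinuousSMul

open Pool.Agent.H17BP (Surface IsChart Tan Pr HolP ResN)
open Pool.Agent.H17N (TMap LU RU TF NonConst ThinF FibB HSec)

variable {V : Type} [NormedAddCommGroup V] [NormedSpace ℂ V] [FiniteDimensional ℂ V] {X D : Set V} {Λ : AddSubgroup ℂ} {u : V → ℂ} {x y : V} {n k : ℕ}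

theorem rud_hor (hΛ : ∃ δ : ℝ, 0 < δ ∧ ∀ l ∈ Λ, ‖l‖ < δ → l = 0) (hX : Surface X) (hu : TMap X Λ u) (hD : CurveD X D Λ u) (hx : x ∈ D)
    (h : RUD X D Λ u x 0) : ∃ (σ : ℂ × ℂ → V) (τ : V → ℂ × ℂ) (i : ℕ), IsChart X σ τ ∧ σ 0 = x ∧ AD D σ ∧ 1 ≤ i ∧
      ∀ᶠ p in 𝓝 (0 : ℂ × ℂ), u (σ p) - (u x + p.1 ^ i) ∈ Λ := by
  obtain ⟨σ₁, τ₁, g₁, hc₁, hx₁, hA₁, hg₁, hne₁⟩ := hD.smooth x hx
  obtain ⟨σ, τ, g, G, hc, hxs, hg, hG, hz, hr⟩ := h
  have h00 : Pr (σ₁ 0) (σ 0) := ⟨1, one_ne_zero, by rw [hx₁, hxs, one_smul]⟩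
  obtain ⟨θ, hθ, hev⟩ := IsChart.trans hX.smul hc hc₁ h00
  have hgθ : AnalyticAt ℂ (g ∘ θ) 0 := by
    have h1 : AnalyticAt ℂ g (θ 0) := by rw [hθ.zero]; exact hg.1
    exact h1.comp hθ.an
  have h1 : ∀ᶠ p in 𝓝 (0 : ℂ × ℂ), g₁ p = (g ∘ θ) p := by
    refine Pool.Agent.H17N.LU.unique (a := fun p => u (σ₁ p) - u (σ₁ 0)) hΛ hg₁.1 hgθ hg₁.2.1 ?_ hg₁.2.2 ?_
    · show g (θ 0) = 0
      rw [hθ.zero]
      exact hg.2.1
    · filter_upwards [hev, hθ.tendsto.eventually hg.2.2, hθ.tendsto.eventually hc.σ_mem] with p hp1 hp2 hp3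
      have h2 : u (σ₁ p) - u (σ (θ p)) ∈ Λ := by
        obtain ⟨c, hc0, hpc⟩ := hp1
        rw [hpc]
        exact hu.smul _ hp3 c hc0
      have h3 : u (σ₁ p) - u (σ₁ 0) - (g ∘ θ) p = (u (σ₁ p) - u (σ (θ p))) + (u (σ (θ p)) - u (σ 0) - g (θ p)) := by
        rw [hx₁, hxs]
        simp only [Function.comp_apply]
        ring
      rw [h3]
      exact Λ.add_mem h2 hp2
  have hM : Pool.Agent.H17BP.Mono (G ∘ θ) := Pool.Agent.H17BP.Mono.comp hr hθ
  have h2 : ∀ᶠ p in 𝓝 (0 : ℂ × ℂ), (G ∘ θ) p = 0 ↔ (g₁ p = 0 ∨ p.2 = 0) := by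
    filter_upwards [h1, hev, hθ.tendsto.eventually hz, hA₁] with p hp1 hp2 hp3 hp4
    have h3 : σ (θ p) ∈ D ↔ σ₁ p ∈ D := by
      obtain ⟨c, hc0, hpc⟩ := hp2
      constructor
      · intro h4
        rw [hpc]
        exact hD.smul _ h4 c hc0
      · intro h4
        have h5 : σ (θ p) = c⁻¹ • σ₁ p := by
          rw [hpc, smul_smul, inv_mul_cancel₀ hc0, one_smul]
        rw [h5]
        exact hD.smul _ h4 _ (inv_ne_zero hc0)
    rw [← hp4, ← h3, hp1]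
    exact hp3
  obtain ⟨θ₁, θ₁', i, hθ₁, hθ₁', h3, h4, hi, h5, h6⟩ := mono_hor hM hg₁.1 hg₁.2.1 hne₁ h2
  refine ⟨_, _, i, hc₁.comp hθ₁ hθ₁' h3 h4, ?_, ?_, hi, ?_⟩
  · show σ₁ (θ₁ 0) = x
    rw [hθ₁.zero, hx₁]
  · show ∀ᶠ p in 𝓝 (0 : ℂ × ℂ), σ₁ (θ₁ p) ∈ D ↔ p.2 = 0
    filter_upwards [hθ₁.tendsto.eventually hA₁, h5] with p hp1 hp2
    rw [hp1, hp2]
  · filter_upwards [hθ₁.tendsto.eventually hg₁.2.2, h6] with p hp1 hp2
    rw [hx₁, hp2] at hp1
    have h7 : u (σ₁ (θ₁ p)) - (u x + p.1 ^ i) = u (σ₁ (θ₁ p)) - u x - p.1 ^ i := by ring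
    rw [h7]
    exact hp1

theorem trv_hor (h : TrV X D Λ u x) : ∃ (σ : ℂ × ℂ → V) (τ : V → ℂ × ℂ), IsChart X σ τ ∧ σ 0 = x ∧ AD D σ ∧
    ∀ᶠ p in 𝓝 (0 : ℂ × ℂ), u (σ p) - (u x + p.1) ∈ Λ := by
  obtain ⟨σ, τ, g, hc, hx, hA, hg, hd⟩ := h
  have hS : AnalyticAt ℂ (fun x : ℂ × ℂ => x.2) 0 := analyticAt_snd
  have f2 : fderiv ℂ (fun x : ℂ × ℂ => x.2) 0 = ContinuousLinearMap.snd ℂ ℂ ℂ := (hasFDerivAt_snd).fderiv
  have hC : Pool.Agent.H17BP.Coord g (fun x => x.2) := by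
    refine (Pool.Agent.H17BP.coord_iff hg.1 hS hg.2.1 rfl).2 ?_
    have e1 : Pool.Agent.H17BP.dy (fun x : ℂ × ℂ => x.2) 0 = 1 := by simp [Pool.Agent.H17BP.dy, f2]
    have e2 : Pool.Agent.H17BP.dx (fun x : ℂ × ℂ => x.2) 0 = 0 := by simp [Pool.Agent.H17BP.dx, f2]
    rw [e1, e2, mul_zero, mul_one, sub_zero]
    exact hd
  have hη : Pool.Agent.H17BP.Bihol fun x : ℂ × ℂ => (g x, x.2) := hC
  obtain ⟨θ', hθ', h1, h2⟩ := hη.exists_inv
  refine ⟨_, _, hc.comp hθ' hη h2 h1, ?_, ?_, ?_⟩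
  · show σ (θ' 0) = x
    rw [hθ'.zero, hx]
  · show ∀ᶠ p in 𝓝 (0 : ℂ × ℂ), σ (θ' p) ∈ D ↔ p.2 = 0
    filter_upwards [hθ'.tendsto.eventually hA, h2] with p hp1 hp2
    have e1 : (θ' p).2 = p.2 := (Prod.ext_iff.1 hp2).2
    rw [hp1, e1]
  · filter_upwards [hθ'.tendsto.eventually hg.2.2, h2] with p hp1 hp2
    have e1 : g (θ' p) = p.1 := (Prod.ext_iff.1 hp2).1
    rw [hx, e1] at hp1
    have h7 : u (σ (θ' p)) - (u x + p.1) = u (σ (θ' p)) - u x - p.1 := by ring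
    rw [h7]
    exact hp1

end Pool.Agent.H17L

end

section

/-!
# H17L BaseLA: transport to a Euclidean space, the geometric data

`L : V ≃L[ℂ] EN M`, `X' = L.symm ⁻¹' X`, `D' = L.symm ⁻¹' D`, `u' x = u (L.symm x)`.  Model: `edata` in H17N/BaseA.lean (copy; the fields `cone`, `charts`, `tor`, `lat`, `latΓ`, `le`, `bad`, `zero`).

* `D_sub`, `D_smul`, `D_closed`: from `CurveD` and continuity of `L.symm`.
* `hor`: `h.good` at `L.symm x` and `trv_hor`: `σ, τ`; the germ chart `L ∘ σ`, `τ ∘ L.symm` (`germ_transport`); `HorAt X' Λ u' D' x (u' x) 1`.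
* `horB`: `rud_hor` at `L.symm x`; `u' x - b ∈ Λ`, so `u (σ p) - (b + p.1 ^ i) ∈ Λ`.
* `nc`: `ru_of_rud`, then `H17N.ru0_nc` as in `edata`.
* `fib`: as in `edata`, from `FibB (X \ D) Λ u B`.
-/

set_option autoImplicit false

open Topology Filter

namespace Pool.Agent.H17L

attribute [-instance] ProperSMul.toContinuousSMul

open Pool.Agent.H17BP (Surface IsChart Tan Pr HolP ResN)
open Pool.Agent.H36.BP (EN isCone_transport germ_transport tan_transport)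
open Pool.Agent.H62.EF (Lat exists_chart_of_germ)
open Pool.Agent.H62.EL (TForm Per VanZero Thin BadSet)
open Pool.Agent.H18.LU (EBase LogP LSec)
open Pool.Agent.H17N (TMap LU RU TF NonConst ThinF FibB HSec)

variable {V : Type} [NormedAddCommGroup V] [NormedSpace ℂ V] [FiniteDimensional ℂ V] {X D : Set V} {Λ Γ : AddSubgroup ℂ} {u : V → ℂ}
  {B : Set ℂ} {α : ℂ → V → V → V → ℂ} {δ : ℝ} {M : ℕ}

omit [FiniteDimensional ℂ V] in
private theorem horAt_transport (L : V ≃L[ℂ] EN M) {x : EN M} {σ : ℂ × ℂ → V} {τ : V → ℂ × ℂ} {b : ℂ} {i : ℕ} (hc : IsChart X σ τ)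
    (hσ0 : σ 0 = L.symm x) (hAD : AD D σ) (hu : ∀ᶠ p in 𝓝 (0 : ℂ × ℂ), u (σ p) - (b + p.1 ^ i) ∈ Λ) :
    Pool.Agent.H18.LU.HorAt (L.symm ⁻¹' X : Set (EN M)) Λ (fun x => u (L.symm x)) (L.symm ⁻¹' D : Set (EN M)) x b i := by
  refine ⟨fun p => L (σ p), fun y => τ (L.symm y), germ_transport L hc, ?_, ?_, ?_⟩
  · show L (σ 0) = x
    rw [hσ0, ContinuousLinearEquiv.apply_symm_apply]
  · filter_upwards [hu] with p hp
    show u (L.symm (L (σ p))) - (b + p.1 ^ i) ∈ Λ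
    rwa [ContinuousLinearEquiv.symm_apply_apply]
  · filter_upwards [hAD] with p hp
    show L.symm (L (σ p)) ∈ D ↔ p.2 = 0
    rwa [ContinuousLinearEquiv.symm_apply_apply]

theorem ebase (L : V ≃L[ℂ] EN M) (hΛ : Lat Λ) (hΓ : Lat Γ) (hle : Γ ≤ Λ) (hbad : BadSet B Λ δ) (h0 : ∀ b ∈ B, 4 * δ ≤ ‖b‖)
    (h : DData X D Λ Γ u B α) (hr : ∀ x ∈ X, RUD X D Λ u x 0) :
    EBase (L.symm ⁻¹' X : Set (EN M)) (L.symm ⁻¹' D : Set (EN M)) Λ Γ (fun x => u (L.symm x)) B δ := by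
  refine ⟨isCone_transport L h.surf, ?_, ?_, hΛ, hΓ, hle, hbad, h0, ?_, ?_, ?_, ?_, ?_, ?_, ?_⟩
  · intro x hx
    obtain ⟨σ, τ, hc, hx0⟩ := h.surf.chart (L.symm x) hx
    have hg := germ_transport L hc
    obtain ⟨χ, h1, h2⟩ := exists_chart_of_germ (isCone_transport L h.surf) hg
    have h3 : L (σ 0) = x := by rw [hx0, ContinuousLinearEquiv.apply_symm_apply]
    rw [h3] at h1 h2
    exact ⟨χ, h1, h2⟩
  · constructor
    · intro x hx c hc
      have h1 := h.tor.smul (L.symm x) hx c hc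
      show u (L.symm (c • x)) - u (L.symm x) ∈ Λ
      rw [map_smul]
      exact h1
    · intro x hx
      obtain ⟨v, hv, hv'⟩ := h.tor.loc (L.symm x) hx
      refine ⟨fun y => v (L.symm y), ?_, ?_⟩
      · exact AnalyticAt.comp (g := v) (f := fun y : EN M => L.symm y) hv
          ((L.symm : EN M →L[ℂ] V).analyticAt x)
      · have h3 : Tendsto (fun y : EN M => L.symm y) (𝓝 x) (𝓝 (L.symm x)) := L.symm.continuous.tendsto x
        filter_upwards [h3.eventually hv'] with y hy hyX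
        exact hy hyX
  · intro x hx
    exact h.curve.sub hx
  · intro x hx c hc
    show L.symm (c • x) ∈ D
    rw [map_smul]
    exact h.curve.smul _ hx c hc
  · intro x hx hxD
    have h3 : Tendsto (fun y : EN M => L.symm y) (𝓝 x) (𝓝 (L.symm x)) := L.symm.continuous.tendsto x
    filter_upwards [h3.eventually (h.curve.closed (L.symm x) hx hxD)] with y hy hyD
    exact hy hyD
  · intro x hx hb
    obtain ⟨σ, τ, hc, hσ0, hAD, hu⟩ := trv_hor (h.good (L.symm x) hx hb)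
    refine horAt_transport L hc hσ0 hAD ?_
    filter_upwards [hu] with p hp
    rw [pow_one]
    exact hp
  · intro b _ x hx hub
    obtain ⟨σ, τ, i, hc, hσ0, hAD, hi, hu⟩ := rud_hor ⟨_, hΛ.discrete.choose_spec⟩ h.surf h.tor h.curve (show L.symm x ∈ D from hx)
      (hr (L.symm x) (h.curve.sub hx))
    refine ⟨i, hi, horAt_transport L hc hσ0 hAD ?_⟩
    filter_upwards [hu] with p hp
    have h1 := Λ.add_mem hp hub
    have h2 : u (σ p) - (u (L.symm x) + p.1 ^ i) + ((fun x => u (L.symm x)) x - b) = u (σ p) - (b + p.1 ^ i) := by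
      show u (σ p) - (u (L.symm x) + p.1 ^ i) + (u (L.symm x) - b) = u (σ p) - (b + p.1 ^ i)
      ring
    rwa [h2] at h1
  · intro b _ x hx hxD hub
    obtain ⟨σ, τ, i, j, hc, hσ0, hij, hu⟩ :=
      Pool.Agent.H17N.ru0_nc (ru_of_rud h.surf h.nonconst h.curve hxD (hr (L.symm x) hx))
    refine ⟨fun p => L (σ p), fun y => τ (L.symm y), i, j, germ_transport L hc, ?_, hij, ?_⟩
    · show L (σ 0) = x
      rw [hσ0, ContinuousLinearEquiv.apply_symm_apply]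
    · filter_upwards [hu] with p hp
      show u (L.symm (L (σ p))) - (b + p.1 ^ i * p.2 ^ j) ∈ Λ
      rw [ContinuousLinearEquiv.symm_apply_apply]
      have h1 := Λ.add_mem hp hub
      have h3 : u (σ p) - (u (L.symm x) + p.1 ^ i * p.2 ^ j) + ((fun x => u (L.symm x)) x - b) =
          u (σ p) - (b + p.1 ^ i * p.2 ^ j) := by
        show u (σ p) - (u (L.symm x) + p.1 ^ i * p.2 ^ j) + (u (L.symm x) - b) = u (σ p) - (b + p.1 ^ i * p.2 ^ j)
        ring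
      rwa [h3] at h1
  · intro F hF hFX hFu hne
    refine h.fib (fun z => L.symm (F z)) (fun z => ?_) (fun z => ⟨(hFX z).1, (hFX z).2⟩) hFu ?_
    · refine ⟨fun z => L.symm (F z), ((L.symm : EN M →L[ℂ] V).analyticAt _).comp (hF.analyticAt z), ?_,
        Eventually.of_forall fun w => ⟨1, one_ne_zero, (one_smul _ _).symm⟩⟩
      intro h1
      have h2 : L.symm (F z) ∈ X := (hFX z).1
      have h3 : L.symm (F z) = 0 := h1
      rw [h3] at h2
      exact h.surf.zero h2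
    · obtain ⟨z, w, hzw⟩ := hne
      refine ⟨z, w, ?_⟩
      rintro ⟨c, -, hc⟩
      apply hzw c
      have h1 := congrArg L hc
      rwa [map_smul, ContinuousLinearEquiv.apply_symm_apply, ContinuousLinearEquiv.apply_symm_apply] at h1

end Pool.Agent.H17L

end
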