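import Pool.Agent.H94.CB.H18.LU.Oc
import Pool.Agent.H94.CB.M08
import Pool.Agent.H94.CB.M240
import Pool.Agent.H94.CB.M47

/-! The parts of this file: H17L.CfT, H86.LR.AlgDep, H86.LR.Lift, H86.LS.Open, H86.LS.Pole. -/

section

/-!
# H17L CfT: the coefficients of a form in two proportional parametrisations

This is the private theorem `blowG_trans` of H17N/BlowG.lean: copy it (with its auxiliary lemmas).
-/

set_option autoImplicit false

open Topology Filter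

namespace Pool.Agent.H17L

attribute [-instance] ProperSMul.toContinuousSMul

open Pool.Agent.H17BP (Surface IsChart Tan Pr HolP ResN)
open Pool.Agent.H17N (TMap LU RU TF NonConst ThinF FibB HSec)

variable {V : Type} [NormedAddCommGroup V] [NormedSpace ℂ V] {X : Set V} {Λ : AddSubgroup ℂ} {u : V → ℂ} {α : ℂ → V → V → V → ℂ}

private theorem cfT_tan_smul (hX : ∀ x ∈ X, ∀ c : ℂ, c ≠ 0 → c • x ∈ X) {x v : V} (hv : v ∈ Tan X x) {c : ℂ} (hc : c ≠ 0) :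
    c • v ∈ Tan X (c • x) := by
  obtain ⟨γ, hγ, hmem, h0, hd⟩ := hv
  refine ⟨fun z => c • γ z, analyticAt_const.smul hγ, ?_, by show c • γ 0 = c • x; rw [h0], ?_⟩
  · filter_upwards [hmem] with z hz
    exact hX _ hz c hc
  · have h1 : HasDerivAt γ v 0 := by
      rw [← hd]; exact hγ.differentiableAt.hasDerivAt
    exact (h1.const_smul c).deriv

/-- the coefficients of the form in two parametrisations which are proportional -/
theorem cf_trans (hX : ∀ x ∈ X, ∀ c : ℂ, c ≠ 0 → c • x ∈ X) (hα : TF X Λ u α) {φ ψ : ℂ × ℂ → V} {β : ℂ × ℂ → ℂ × ℂ} {p : ℂ × ℂ}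
    (hφ : AnalyticAt ℂ φ p) (hβ : AnalyticAt ℂ β p) (hψ : AnalyticAt ℂ ψ (β p)) (hψX : ∀ᶠ y in 𝓝 (β p), ψ y ∈ X)
    (hne : ψ (β p) ≠ 0) (hpr : ∀ᶠ y in 𝓝 p, Pr (φ y) (ψ (β y))) {z : ℂ} (hz : u (φ p) - z ∈ Λ) (hz' : u (ψ (β p)) - z ∈ Λ) :
    α z (φ p) (fderiv ℂ φ p (1, 0)) (fderiv ℂ φ p (0, 1)) =
      ((fderiv ℂ β p (1, 0)).1 * (fderiv ℂ β p (0, 1)).2 - (fderiv ℂ β p (1, 0)).2 * (fderiv ℂ β p (0, 1)).1) *
        α z (ψ (β p)) (fderiv ℂ ψ (β p) (1, 0)) (fderiv ℂ ψ (β p) (0, 1)) := by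
  obtain ⟨M, hM⟩ := exists_dual_vector ℂ (ψ (β p)) (norm_ne_zero_iff.mpr hne)
  have hM0 : M (ψ (β p)) ≠ 0 := by
    rw [hM.2]
    simpa using hne
  have hψβ : AnalyticAt ℂ (fun y => ψ (β y)) p := AnalyticAt.comp (g := ψ) (f := β) hψ hβ
  have hMψ : AnalyticAt ℂ (fun y => M (ψ (β y))) p := AnalyticAt.comp (M.analyticAt _) hψβ
  have hMφ : AnalyticAt ℂ (fun y => M (φ y)) p := AnalyticAt.comp (M.analyticAt _) hφ
  obtain ⟨k, hk⟩ : ∃ k : ℂ × ℂ → ℂ, k = fun y => M (φ y) / M (ψ (β y)) := ⟨_, rfl⟩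
  have hka : AnalyticAt ℂ k p := by
    rw [hk]
    exact hMφ.div hMψ hM0
  have hkφ : ∀ᶠ y in 𝓝 p, φ y = k y • ψ (β y) := by
    filter_upwards [hpr, hMψ.continuousAt.eventually_ne hM0] with y h1 h2
    obtain ⟨c, hc, h3⟩ := h1
    rw [hk]
    simp only
    rw [h3, map_smul, smul_eq_mul, mul_div_cancel_right₀ _ h2]
  have hkp := hkφ.self_of_nhds
  obtain ⟨c, hc, hcp⟩ := hpr.self_of_nhds
  have hk0 : k p ≠ 0 := by
    have h1 : (k p - c) • ψ (β p) = 0 := by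
      rw [sub_smul, ← hkp, ← hcp, sub_self]
    rcases smul_eq_zero.1 h1 with h2 | h2
    · rw [sub_eq_zero.1 h2]; exact hc
    · exact absurd h2 hne
  have hxX : ψ (β p) ∈ X := hψX.self_of_nhds
  have hφX : φ p ∈ X := by
    rw [hkp]
    exact hX _ hxX _ hk0
  -- the derivative of `φ`
  have hd : ∀ w : ℂ × ℂ, fderiv ℂ φ p w = k p • fderiv ℂ ψ (β p) (fderiv ℂ β p w) + (fderiv ℂ k p w / k p) • φ p := by
    intro w
    have h1 : HasFDerivAt (fun y => k y • ψ (β y))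
        (k p • (fderiv ℂ ψ (β p)).comp (fderiv ℂ β p) + (fderiv ℂ k p).smulRight (ψ (β p))) p :=
      hka.differentiableAt.hasFDerivAt.smul
        (hψ.differentiableAt.hasFDerivAt.comp p hβ.differentiableAt.hasFDerivAt)
    have h2 : HasFDerivAt φ
        (k p • (fderiv ℂ ψ (β p)).comp (fderiv ℂ β p) + (fderiv ℂ k p).smulRight (ψ (β p))) p :=
      h1.congr_of_eventuallyEq hkφ
    rw [h2.fderiv]
    simp only [add_apply, smul_apply, ContinuousLinearMap.comp_apply,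
      ContinuousLinearMap.smulRight_apply]
    rw [hkp, smul_smul, div_mul_cancel₀ _ hk0]
  -- tangent vectors
  have ht : ∀ w : ℂ × ℂ, fderiv ℂ ψ (β p) w ∈ Tan X (ψ (β p)) := fun w => H62.BU.tan_fderiv hψ hψX w
  have hlin : ∀ a b : ℂ, fderiv ℂ ψ (β p) (a, b) = a • fderiv ℂ ψ (β p) (1, 0) + b • fderiv ℂ ψ (β p) (0, 1) := by
    intro a b
    rw [← map_smul, ← map_smul, ← map_add]
    simp
  have ht' : ∀ w : ℂ × ℂ, k p • fderiv ℂ ψ (β p) w ∈ Tan X (φ p) := fun w => by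
    rw [hkp]
    exact cfT_tan_smul hX (ht w) hk0
  rw [hd (1, 0), hd (0, 1), hα.add_smul z (φ p) hφX hz _ (ht' _) _ (ht' _)]
  conv_lhs => rw [hkp]
  rw [hα.scale z _ hxX hz' _ (ht _) _ (ht _) _ hk0]
  obtain ⟨⟨a, b⟩, h1⟩ : ∃ w, w = fderiv ℂ β p (1, 0) := ⟨_, rfl⟩
  obtain ⟨⟨c', d⟩, h2⟩ : ∃ w, w = fderiv ℂ β p (0, 1) := ⟨_, rfl⟩
  rw [← h1, ← h2, hlin a b, hlin c' d, hα.det z _ hxX hz' _ (ht _) _ (ht _)]

end Pool.Agent.H17L

end

section

/-!
# LR AlgDep: two meromorphic functions which are periodic for the same lattice are algebraically dependent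
-/

set_option autoImplicit false

open Topology Filter Metric

namespace Pool.Agent.H86.LR

attribute [-instance] ProperSMul.toContinuousSMul

open Pool.Agent.H62.EF (Lat)

/-- a function with limits everywhere is an entire function up to a discrete set -/
theorem exists_entire {φ : ℂ → ℂ} (hlim : ∀ z, ∃ a, Tendsto φ (𝓝[≠] z) (𝓝 a)) (han : ∀ z, ∀ᶠ w in 𝓝[≠] z, AnalyticAt ℂ φ w) :
    ∃ ψ : ℂ → ℂ, Differentiable ℂ ψ ∧ (∀ z, Tendsto φ (𝓝[≠] z) (𝓝 (ψ z))) ∧ ∀ z, AnalyticAt ℂ φ z → ψ z = φ z := by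
  choose ψ hψ using hlim
  have heq : ∀ z, AnalyticAt ℂ φ z → ψ z = φ z := fun z hz =>
    tendsto_nhds_unique (hψ z) (hz.continuousAt.tendsto.mono_left nhdsWithin_le_nhds)
  refine ⟨ψ, fun z => ?_, hψ, heq⟩
  have hev : ∀ᶠ w in 𝓝[≠] z, ψ w = φ w := (han z).mono fun w hw => heq w hw
  refine (Complex.analyticAt_of_differentiable_on_punctured_nhds_of_continuousAt ?_ ?_).differentiableAt
  · filter_upwards [han z] with w hw
    refine hw.differentiableAt.congr_of_eventuallyEq ?_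
    filter_upwards [hw.eventually_analyticAt] with v hv
    exact heq v hv
  · rw [continuousAt_iff_punctured_nhds]
    exact (hψ z).congr' (hev.mono fun w hw => hw.symm)

/-- the translation of a punctured neighbourhood -/
theorem tendsto_add_punct (z l : ℂ) : Tendsto (fun w : ℂ => w - l) (𝓝[≠] (z + l)) (𝓝[≠] z) := by
  refine tendsto_nhdsWithin_of_tendsto_nhds_of_eventually_within _ ?_ ?_
  · have h2 : ContinuousAt (fun w : ℂ => w - l) (z + l) := continuousAt_id.sub continuousAt_const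
    have h3 := h2.tendsto
    rw [add_sub_cancel_right] at h3
    exact h3.mono_left nhdsWithin_le_nhds
  · filter_upwards [self_mem_nhdsWithin] with w hw h2
    exact hw (by
      have h3 : w - l = z := h2
      have h4 : w = z + l := by linear_combination h3
      rw [h4]
      rfl)

/-- **Algebraic dependence of elliptic functions.** -/
theorem exists_dep {Γ : AddSubgroup ℂ} (hΓ : Lat Γ) {p g : ℂ → ℂ} (hp : ∀ z, MeromorphicAt p z) (hg : ∀ z, MeromorphicAt g z)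
    (hpp : ∀ l ∈ Γ, ∀ z, ∀ᶠ w in 𝓝[≠] z, p (w + l) = p w) (hgp : ∀ l ∈ Γ, ∀ z, ∀ᶠ w in 𝓝[≠] z, g (w + l) = g w) :
    ∃ Φ : MvPolynomial (Fin 2) ℂ, Φ ≠ 0 ∧ ∀ z, ∀ᶠ w in 𝓝[≠] z, MvPolynomial.eval ![p w, g w] Φ = 0 := by
  classical
  obtain ⟨R, hR, hco⟩ := hΓ.cocompact
  -- the bad points in a compact set
  have han : ∀ z, ∀ᶠ w in 𝓝[≠] z, AnalyticAt ℂ p w ∧ AnalyticAt ℂ g w := fun z => (hp z).eventually_analyticAt.and (hg z).eventually_analyticAt
  obtain ⟨S, hS⟩ : ∃ S : Finset ℂ, ∀ z ∈ closedBall (0 : ℂ) R, z ∉ S → AnalyticAt ℂ p z ∧ AnalyticAt ℂ g z := by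
    obtain ⟨t, -, ht⟩ := (isCompact_closedBall (0 : ℂ) R).elim_nhds_subcover (fun z => {w | w ≠ z → AnalyticAt ℂ p w ∧ AnalyticAt ℂ g w}) (fun z _ => by
      have h1 := han z
      rw [eventually_nhdsWithin_iff] at h1
      exact h1)
    refine ⟨t, fun z hz hzt => ?_⟩
    obtain ⟨x, hx, hzx⟩ := Set.mem_iUnion₂.1 (ht hz)
    exact hzx fun h => hzt (h ▸ hx)
  have hμ1 : ∀ s : ℂ, ∃ μ : ℕ, ∀ k, μ ≤ k → AnalyticAt ℂ (fun z => (z - s) ^ k * p z) s ∧ AnalyticAt ℂ (fun z => (z - s) ^ k * g z) s := by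
    intro s
    obtain ⟨a, ha⟩ := hp s
    obtain ⟨b, hb⟩ := hg s
    refine ⟨max a b, fun k hk => ?_⟩
    have hpw : ∀ j : ℕ, AnalyticAt ℂ (fun z : ℂ => (z - s) ^ j) s := fun j => (analyticAt_id.sub analyticAt_const).pow j
    constructor
    · have h1 : (fun z => (z - s) ^ k * p z) = fun z => (z - s) ^ (k - a) * ((z - s) ^ a • p z) := by
        funext z
        rw [smul_eq_mul, ← mul_assoc, ← pow_add, Nat.sub_add_cancel ((le_max_left a b).trans hk)]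
      rw [h1]
      exact (hpw _).mul ha
    · have h1 : (fun z => (z - s) ^ k * g z) = fun z => (z - s) ^ (k - b) * ((z - s) ^ b • g z) := by
        funext z
        rw [smul_eq_mul, ← mul_assoc, ← pow_add, Nat.sub_add_cancel ((le_max_right a b).trans hk)]
      rw [h1]
      exact (hpw _).mul hb
  choose μ' hμ' using hμ1
  set μ : ℕ := S.sup μ' with hμ
  have hPa : ∀ s ∈ S, AnalyticAt ℂ (fun z => (z - s) ^ μ * p z) s ∧ AnalyticAt ℂ (fun z => (z - s) ^ μ * g z) s := fun s hs =>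
    hμ' s μ (Finset.le_sup hs)
  obtain ⟨z₁, hz₁⟩ := (han 0).exists
  set M : ℕ := S.card * μ with hM
  set d : ℕ := 2 * M + 1 with hd
  -- the functions
  let ψ : ℂ → (Fin (d + 1) × Fin (d + 1) → ℂ) → ℂ → ℂ := fun s c z =>
    ∑ ij, c ij * ((z - s) ^ (μ * (2 * d - (ij.1.1 + ij.2.1))) * ((z - s) ^ μ * p z) ^ ij.1.1 * ((z - s) ^ μ * g z) ^ ij.2.1)
  let φ : (Fin (d + 1) × Fin (d + 1) → ℂ) → ℂ → ℂ := fun c z => ∑ ij, c ij * (p z ^ ij.1.1 * g z ^ ij.2.1)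
  have hψa : ∀ s ∈ S, ∀ c, AnalyticAt ℂ (ψ s c) s := by
    intro s hs c
    have h1 : ∀ ij : Fin (d + 1) × Fin (d + 1), AnalyticAt ℂ (fun z => c ij * ((z - s) ^ (μ * (2 * d - (ij.1.1 + ij.2.1))) * ((z - s) ^ μ * p z) ^ ij.1.1 *
        ((z - s) ^ μ * g z) ^ ij.2.1)) s := fun ij =>
      analyticAt_const.mul ((((analyticAt_id.sub analyticAt_const).pow _).mul ((hPa s hs).1.pow _)).mul ((hPa s hs).2.pow _))
    exact Finset.analyticAt_fun_sum _ fun ij _ => h1 ij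
  have hψadd : ∀ s c c', ψ s (c + c') = ψ s c + ψ s c' := by
    intro s c c'
    funext z
    simp only [ψ, Pi.add_apply, add_mul, Finset.sum_add_distrib]
  have hψsmul : ∀ s (a : ℂ) c, ψ s (a • c) = a • ψ s c := by
    intro s a c
    funext z
    simp only [ψ, Pi.smul_apply, smul_eq_mul, Finset.mul_sum, mul_assoc]
  -- the linear conditions
  let L : (Fin (d + 1) × Fin (d + 1) → ℂ) →ₗ[ℂ] ((S × Fin (μ * (2 * d)) → ℂ) × ℂ) :=
    { toFun := fun c => (fun sk => iteratedDeriv sk.2.1 (ψ sk.1.1 c) sk.1.1, φ c z₁)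
      map_add' := by
        intro c c'
        refine Prod.ext ?_ ?_
        · funext sk
          show iteratedDeriv sk.2.1 (ψ sk.1.1 (c + c')) sk.1.1 = iteratedDeriv sk.2.1 (ψ sk.1.1 c) sk.1.1 + iteratedDeriv sk.2.1 (ψ sk.1.1 c') sk.1.1
          rw [hψadd, iteratedDeriv_add (hψa _ sk.1.2 c).contDiffAt (hψa _ sk.1.2 c').contDiffAt]
        · show φ (c + c') z₁ = φ c z₁ + φ c' z₁
          simp only [φ, Pi.add_apply, add_mul, Finset.sum_add_distrib]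
      map_smul' := by
        intro a c
        refine Prod.ext ?_ ?_
        · funext sk
          show iteratedDeriv sk.2.1 (ψ sk.1.1 (a • c)) sk.1.1 = a * iteratedDeriv sk.2.1 (ψ sk.1.1 c) sk.1.1
          rw [hψsmul, iteratedDeriv_const_smul (hψa _ sk.1.2 c).contDiffAt]
          rfl
        · show φ (a • c) z₁ = a * φ c z₁
          simp only [φ, Pi.smul_apply, smul_eq_mul, Finset.mul_sum, mul_assoc] }
  have hlt : Module.finrank ℂ ((S × Fin (μ * (2 * d)) → ℂ) × ℂ) < Module.finrank ℂ (Fin (d + 1) × Fin (d + 1) → ℂ) := by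
    rw [Module.finrank_prod, Module.finrank_self, Module.finrank_fintype_fun_eq_card, Module.finrank_fintype_fun_eq_card, Fintype.card_prod,
      Fintype.card_prod, Fintype.card_fin, Fintype.card_fin, Fintype.card_coe]
    have h1 : S.card * (μ * (2 * d)) = M * (2 * d) := by rw [hM, mul_assoc]
    rw [h1, hd]
    nlinarith
  have hker : LinearMap.ker L ≠ ⊥ := LinearMap.ker_ne_bot_of_finrank_lt hlt
  obtain ⟨c, hc, hc0⟩ := (Submodule.ne_bot_iff _).1 hker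
  rw [LinearMap.mem_ker] at hc
  have hc1 : ∀ s ∈ S, ∀ k < μ * (2 * d), iteratedDeriv k (ψ s c) s = 0 := by
    intro s hs k hk
    exact congrFun (congrArg Prod.fst hc) (⟨s, hs⟩, ⟨k, hk⟩)
  have hc2 : φ c z₁ = 0 := congrArg Prod.snd hc
  -- analytic where `p` and `g` are
  have hφa : ∀ z, AnalyticAt ℂ p z → AnalyticAt ℂ g z → AnalyticAt ℂ (φ c) z := by
    intro z h1 h2
    exact Finset.analyticAt_fun_sum _ fun ij _ => analyticAt_const.mul ((h1.pow _).mul (h2.pow _))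
  have hφev : ∀ z, ∀ᶠ w in 𝓝[≠] z, AnalyticAt ℂ (φ c) w := fun z => (han z).mono fun w hw => hφa w hw.1 hw.2
  have hper : ∀ l ∈ Γ, ∀ z, ∀ᶠ w in 𝓝[≠] z, φ c (w + l) = φ c w := by
    intro l hl z
    filter_upwards [hpp l hl z, hgp l hl z] with w h1 h2
    show ∑ ij, c ij * (p (w + l) ^ ij.1.1 * g (w + l) ^ ij.2.1) = ∑ ij, c ij * (p w ^ ij.1.1 * g w ^ ij.2.1)
    rw [h1, h2]
  -- limits
  have hlimK : ∀ z ∈ closedBall (0 : ℂ) R, ∃ a, Tendsto (φ c) (𝓝[≠] z) (𝓝 a) := by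
    intro z hz
    by_cases hzS : z ∈ S
    · have h1 : ((μ * (2 * d) : ℕ) : ℕ∞) ≤ analyticOrderAt (ψ z c) z := by
        rw [natCast_le_analyticOrderAt_iff_iteratedDeriv_eq_zero (hψa z hzS c)]
        intro k hk
        exact hc1 z hzS k hk
      obtain ⟨h, hh, he⟩ := (natCast_le_analyticOrderAt (hψa z hzS c)).1 h1
      refine ⟨h z, ?_⟩
      have h2 : Tendsto h (𝓝[≠] z) (𝓝 (h z)) := hh.continuousAt.tendsto.mono_left nhdsWithin_le_nhds
      refine h2.congr' ?_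
      filter_upwards [nhdsWithin_le_nhds he, self_mem_nhdsWithin] with w hw hwz
      have hwz' : w - z ≠ 0 := sub_ne_zero.2 hwz
      have h3 : ψ z c w = (w - z) ^ (μ * (2 * d)) * φ c w := by
        show ∑ ij, c ij * ((w - z) ^ (μ * (2 * d - (ij.1.1 + ij.2.1))) * ((w - z) ^ μ * p w) ^ ij.1.1 * ((w - z) ^ μ * g w) ^ ij.2.1) =
          (w - z) ^ (μ * (2 * d)) * ∑ ij, c ij * (p w ^ ij.1.1 * g w ^ ij.2.1)
        rw [Finset.mul_sum]
        refine Finset.sum_congr rfl fun ij _ => ?_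
        have h4 : ij.1.1 ≤ d := Nat.lt_succ_iff.1 ij.1.2
        have h5 : ij.2.1 ≤ d := Nat.lt_succ_iff.1 ij.2.2
        have h6 : μ * (2 * d) = μ * (2 * d - (ij.1.1 + ij.2.1)) + μ * ij.1.1 + μ * ij.2.1 := by
          rw [← mul_add, ← mul_add]
          congr 1
          omega
        rw [h6, pow_add, pow_add, mul_pow, mul_pow, ← pow_mul, ← pow_mul]
        ring
      rw [smul_eq_mul, h3] at hw
      exact (mul_left_cancel₀ (pow_ne_zero _ hwz') hw).symm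
    · obtain ⟨h1, h2⟩ := hS z hz hzS
      exact ⟨_, (hφa z h1 h2).continuousAt.tendsto.mono_left nhdsWithin_le_nhds⟩
  have hlim : ∀ z, ∃ a, Tendsto (φ c) (𝓝[≠] z) (𝓝 a) := by
    intro z
    obtain ⟨l, hl, hl'⟩ := hco z
    obtain ⟨a, ha⟩ := hlimK (z - l) (mem_closedBall_zero_iff.2 hl')
    refine ⟨a, ?_⟩
    have h1 := tendsto_add_punct (z - l) l
    rw [sub_add_cancel] at h1
    refine (ha.comp h1).congr' ?_
    have h2 := h1.eventually (hper l hl (z - l))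
    filter_upwards [h2] with w hw
    rw [sub_add_cancel] at hw
    exact hw.symm
  obtain ⟨χ, hχd, hχ, hχe⟩ := exists_entire hlim hφev
  have hχper : ∀ l ∈ Γ, ∀ z, χ (z + l) = χ z := by
    intro l hl z
    have h1 := tendsto_add_punct z l
    refine tendsto_nhds_unique (hχ (z + l)) (((hχ z).comp h1).congr' ?_)
    filter_upwards [h1.eventually (hper l hl z)] with w hw
    rw [sub_add_cancel] at hw
    exact hw.symm
  have hbdd : Bornology.IsBounded (Set.range χ) := by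
    obtain ⟨B, hB⟩ := (isCompact_closedBall (0 : ℂ) R).exists_bound_of_continuousOn hχd.continuous.continuousOn
    rw [isBounded_iff_forall_norm_le]
    refine ⟨B, ?_⟩
    rintro _ ⟨z, rfl⟩
    obtain ⟨l, hl, hl'⟩ := hco z
    have h1 := hχper l hl (z - l)
    rw [sub_add_cancel] at h1
    rw [h1]
    exact hB _ (mem_closedBall_zero_iff.2 hl')
  have hχ0 : ∀ z, χ z = 0 := fun z => by
    rw [hχd.apply_eq_apply_of_bounded hbdd z z₁, hχe z₁ (hφa z₁ hz₁.1 hz₁.2)]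
    exact hc2
  -- the polynomial
  let e : Fin (d + 1) × Fin (d + 1) → (Fin 2 →₀ ℕ) := fun ij => Finsupp.single 0 ij.1.1 + Finsupp.single 1 ij.2.1
  have he : Function.Injective e := by
    intro x y hxy
    have h0 := DFunLike.congr_fun hxy 0
    have h1 := DFunLike.congr_fun hxy 1
    simp only [e, Finsupp.coe_add, Pi.add_apply, Finsupp.single_eq_same] at h0 h1
    rw [Finsupp.single_eq_of_ne (by decide), Finsupp.single_eq_of_ne (by decide)] at h0 h1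
    refine Prod.ext (Fin.ext ?_) (Fin.ext ?_)
    · simpa using h0
    · simpa using h1
  refine ⟨∑ ij, MvPolynomial.monomial (e ij) (c ij), ?_, ?_⟩
  · intro h0
    apply hc0
    funext ij
    have h1 := congrArg (MvPolynomial.coeff (e ij)) h0
    rw [MvPolynomial.coeff_sum, MvPolynomial.coeff_zero, Finset.sum_eq_single ij] at h1
    · rwa [MvPolynomial.coeff_monomial, if_pos rfl] at h1
    · intro x _ hx
      rw [MvPolynomial.coeff_monomial, if_neg (fun h => hx (he h))]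
    · intro h
      exact absurd (Finset.mem_univ _) h
  · intro z
    filter_upwards [hφev z] with w hw
    have h1 : φ c w = 0 := by rw [← hχe w hw, hχ0]
    rw [← h1, map_sum]
    refine Finset.sum_congr rfl fun ij _ => ?_
    rw [MvPolynomial.eval_monomial]
    simp only [e]
    rw [Finsupp.prod_add_index' (by simp) (by intro a b c; exact pow_add _ _ _), Finsupp.prod_single_index (by simp),
      Finsupp.prod_single_index (by simp)]
    simp only [Matrix.cons_val_zero, Matrix.cons_val_one, Matrix.cons_val_fin_one]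

end Pool.Agent.H86.LR

end

section

/-!
# LR Lift: lifts of the projections to the elliptic curve of convergent curves (the private lemmas of LU Lc)
-/

set_option autoImplicit false

open Topology Filter Metric

namespace Pool.Agent.H86.LR

attribute [-instance] ProperSMul.toContinuousSMul

open Pool.Agent.H36.BP (EN fs wd)
open Pool.Agent.H14.PP (IsCone Chart Tan CurveAt)
open Pool.Agent.H62.EF (Lat MN pr TorusMap Charts DU)
open Pool.Agent.H18.LU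

variable {N : ℕ} {X D : Set (EN N)} {Λ Γ : AddSubgroup ℂ} {u : EN N → ℂ} {B : Set ℂ} {δ : ℝ}

/-! ### lifts over discs (copy of EF TorB for discrete groups) -/

private theorem lr_local (hu : TorusMap X Λ u) {F : ℂ → EN N} {z₁ : ℂ} (hF : AnalyticAt ℂ F z₁)
    (hX₁ : F z₁ ∈ X) (hFX : ∀ᶠ z in 𝓝 z₁, F z ∈ X) :
    ∃ E : ℂ → ℂ, AnalyticAt ℂ E z₁ ∧ ∀ᶠ z in 𝓝 z₁, u (F z) - E z ∈ Λ := by
  obtain ⟨v, hv, hv2⟩ := hu.loc (F z₁) hX₁
  refine ⟨v ∘ F, hv.comp hF, ?_⟩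
  filter_upwards [hF.continuousAt.eventually hv2, hFX] with z h1 h2
  exact h1 h2

private theorem lr_const (hΛ : Dsc Λ) {w : ℂ → ℂ} {E E' : ℂ → ℂ} {z₁ : ℂ} (hE : AnalyticAt ℂ E z₁)
    (hE' : AnalyticAt ℂ E' z₁) (h : ∀ᶠ z in 𝓝 z₁, w z - E z ∈ Λ)
    (h' : ∀ᶠ z in 𝓝 z₁, w z - E' z ∈ Λ) : ∃ c : ℂ, ∀ᶠ z in 𝓝 z₁, E z = E' z + c := by
  obtain ⟨ε, hε, hb⟩ := Metric.eventually_nhds_iff_ball.mp
    (hE.eventually_analyticAt.and (hE'.eventually_analyticAt.and (h.and h')))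
  have hc : ContinuousOn (fun z => E z - E' z) (ball z₁ ε) := fun z hz =>
    ((hb z hz).1.continuousAt.sub (hb z hz).2.1.continuousAt).continuousWithinAt
  have hm : ∀ z ∈ ball z₁ ε, E z - E' z ∈ Λ := by
    intro z hz
    have := Λ.sub_mem (hb z hz).2.2.2 (hb z hz).2.2.1
    simpa using this
  have hk := hΛ.const (convex_ball z₁ ε).isPreconnected hc hm
  refine ⟨E z₁ - E' z₁, ?_⟩
  filter_upwards [ball_mem_nhds z₁ hε] with z hz
  have h5 : E z - E' z = E z₁ - E' z₁ := hk z hz z₁ (mem_ball_self hε)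
  rw [← h5]
  ring

private theorem lr_lift_ball (hu : TorusMap X Λ u) (hΛ : Dsc Λ) {F : ℂ → EN N} {z₀ : ℂ} {r : ℝ} (hr : 0 < r)
    (hF : DifferentiableOn ℂ F (ball z₀ r)) (hFX : ∀ z ∈ ball z₀ r, F z ∈ X) :
    ∃ D : ℂ → ℂ, DifferentiableOn ℂ D (ball z₀ r) ∧ D z₀ = u (F z₀) ∧ ∀ z ∈ ball z₀ r, u (F z) - D z ∈ Λ := by
  have hU : IsOpen (ball z₀ r) := isOpen_ball
  have hUc : IsPreconnected (ball z₀ r) := (convex_ball z₀ r).isPreconnected
  have hz₀ : z₀ ∈ ball z₀ r := mem_ball_self hr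
  have h1 : ∀ z₁ : ℂ, ∃ E : ℂ → ℂ, z₁ ∈ ball z₀ r →
      AnalyticAt ℂ E z₁ ∧ ∀ᶠ z in 𝓝 z₁, u (F z) - E z ∈ Λ := by
    intro z₁
    by_cases hz : z₁ ∈ ball z₀ r
    · obtain ⟨E, hE⟩ := lr_local hu (hF.analyticAt (hU.mem_nhds hz)) (hFX _ hz)
        (by filter_upwards [hU.mem_nhds hz] with z h using hFX z h)
      exact ⟨E, fun _ => hE⟩
    · exact ⟨0, fun h => absurd h hz⟩
  choose E hE using h1
  set d : ℂ → ℂ := fun z => deriv (E z) z with hd
  have h2 : ∀ z₁ ∈ ball z₀ r, d =ᶠ[𝓝 z₁] deriv (E z₁) := by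
    intro z₁ hz₁
    obtain ⟨hA, hL⟩ := hE z₁ hz₁
    filter_upwards [hA.eventually_analyticAt, hL.eventually_nhds, hU.mem_nhds hz₁] with z hz1 hz2 hz3
    obtain ⟨hA', hL'⟩ := hE z hz3
    obtain ⟨c, hc⟩ := lr_const hΛ hA' hz1 hL' hz2
    have h5 : deriv (E z) z = deriv (fun w => E z₁ w + c) z := Filter.EventuallyEq.deriv_eq hc
    show deriv (E z) z = deriv (E z₁) z
    rw [h5, deriv_add_const]
  have h3 : DifferentiableOn ℂ d (ball z₀ r) := by
    intro z₁ hz₁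
    have h5 := (hE z₁ hz₁).1.deriv
    exact (h5.differentiableAt.congr_of_eventuallyEq (h2 z₁ hz₁)).differentiableWithinAt
  obtain ⟨D, hD0, hD⟩ := (h3.isExactOn_ball).with_val_at z₀ (u (F z₀))
  refine ⟨D, fun z hz => (hD z hz).differentiableAt.differentiableWithinAt, hD0, ?_⟩
  have h4 : ∀ z₁ ∈ ball z₀ r, ∃ c : ℂ, ∀ᶠ z in 𝓝 z₁, D z = E z₁ z + c := by
    intro z₁ hz₁
    obtain ⟨hA, _⟩ := hE z₁ hz₁
    obtain ⟨ε, hε, hb⟩ := Metric.eventually_nhds_iff_ball.mp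
      (hA.eventually_analyticAt.and ((h2 z₁ hz₁).and (hU.mem_nhds hz₁)))
    obtain ⟨c, hc⟩ := isOpen_ball.exists_eq_add_of_deriv_eq (convex_ball z₁ ε).isPreconnected
      (f := D) (g := E z₁)
      (fun z hz => (hD z (hb z hz).2.2).differentiableAt.differentiableWithinAt)
      (fun z hz => (hb z hz).1.differentiableAt.differentiableWithinAt)
      (fun z hz => by rw [(hD z (hb z hz).2.2).deriv]; exact (hb z hz).2.1)
    refine ⟨c, ?_⟩
    filter_upwards [ball_mem_nhds z₁ hε] with z hz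
    exact hc hz
  have h5 : ∀ z₁ ∈ ball z₀ r, ∀ᶠ z in 𝓝 z₁, (u (F z₁) - D z₁ ∈ Λ ↔ u (F z) - D z ∈ Λ) := by
    intro z₁ hz₁
    obtain ⟨c, hc⟩ := h4 z₁ hz₁
    obtain ⟨_, hL⟩ := hE z₁ hz₁
    have h6 : ∀ z, D z = E z₁ z + c → u (F z) - E z₁ z ∈ Λ → (u (F z) - D z ∈ Λ ↔ c ∈ Λ) := by
      intro z ha hb
      have h7 : u (F z) - D z = (u (F z) - E z₁ z) - c := by rw [ha]; ring
      rw [h7]
      constructor
      · intro h8
        have := Λ.sub_mem hb h8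
        simpa using this
      · intro h8
        exact Λ.sub_mem hb h8
    have h7 := h6 z₁ hc.self_of_nhds hL.self_of_nhds
    filter_upwards [hc, hL] with z ha hb
    rw [h7, h6 z ha hb]
  intro z hz
  have h6 := hUc.induction₂ (fun a b => (u (F a) - D a ∈ Λ ↔ u (F b) - D b ∈ Λ))
    (fun x hx => (h5 x hx).filter_mono nhdsWithin_le_nhds)
    (fun x y w _ _ _ h h' => h.trans h') (fun x y _ _ h => h.symm) hz₀ hz
  apply h6.mp
  rw [hD0, sub_self]
  exact Λ.zero_mem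

/-! ### closeness modulo `Λ` -/

/-- a continuous function which is near `Λ` on a connected set is near one element -/
private theorem lr_conn {S : Set ℂ} (hS : IsPreconnected S) {d ε : ℝ} (hd : ∀ l ∈ Λ, ‖l‖ < d → l = 0) (hε : 0 < ε) (hεd : 4 * ε ≤ d)
    {g : ℂ → ℂ} (hg : ContinuousOn g S) (h : ∀ w ∈ S, ∃ l ∈ Λ, ‖g w - l‖ ≤ ε) : ∃ l ∈ Λ, ∀ w ∈ S, ‖g w - l‖ ≤ 2 * ε := by
  by_cases hne : S.Nonempty
  swap
  · exact ⟨0, Λ.zero_mem, fun w hw => absurd ⟨w, hw⟩ hne⟩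
  obtain ⟨w₀, hw₀⟩ := hne
  obtain ⟨l₀, hl₀, h0⟩ := h w₀ hw₀
  refine ⟨l₀, hl₀, ?_⟩
  have hU : IsOpen (ball l₀ (2 * ε)) := isOpen_ball
  have hV : IsOpen {z : ℂ | 2 * ε < ‖z - l₀‖} :=
    isOpen_lt continuous_const ((continuous_id.sub continuous_const).norm)
  have hdis : Disjoint (ball l₀ (2 * ε)) {z : ℂ | 2 * ε < ‖z - l₀‖} := by
    rw [Set.disjoint_left]
    intro z hz hz2
    rw [mem_ball, dist_eq_norm] at hz
    exact absurd hz2 (not_lt.2 hz.le)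
  have hsub : g '' S ⊆ ball l₀ (2 * ε) ∪ {z : ℂ | 2 * ε < ‖z - l₀‖} := by
    rintro _ ⟨w, hw, rfl⟩
    obtain ⟨l, hl, h1⟩ := h w hw
    by_cases hll : l = l₀
    · left
      rw [mem_ball, dist_eq_norm, ← hll]
      linarith
    · right
      show 2 * ε < ‖g w - l₀‖
      have h2 : d ≤ ‖l - l₀‖ := by
        by_contra hlt
        push Not at hlt
        exact hll (sub_eq_zero.1 (hd _ (Λ.sub_mem hl hl₀) hlt))
      have h3 : l - l₀ = (g w - l₀) - (g w - l) := by ring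
      rw [h3] at h2
      have h4 := norm_sub_le (g w - l₀) (g w - l)
      linarith
  have hpre : IsPreconnected (g '' S) := hS.image g hg
  have hfin := hpre.subset_left_of_subset_union hU hV hdis hsub
    ⟨g w₀, ⟨w₀, hw₀, rfl⟩, by rw [mem_ball, dist_eq_norm]; linarith⟩
  intro w hw
  have h1 := hfin ⟨w, hw, rfl⟩
  rw [mem_ball, dist_eq_norm] at h1
  exact h1.le

/-- `u` is continuous modulo `Λ` in terms of `pr` -/
private theorem lr_pt (hX : OCone X) (hu : TorusMap X Λ u) {x₀ : EN N} (hx₀ : x₀ ∈ X) {ε : ℝ} (hε : 0 < ε) :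
    ∃ η : ℝ, 0 < η ∧ ∀ x ∈ X, dist (pr x) (pr x₀) < η → ∃ l ∈ Λ, ‖u x - u x₀ - l‖ < ε := by
  obtain ⟨v, hv, hvu⟩ := hu.loc x₀ hx₀
  have hvc : ∀ᶠ z in 𝓝 x₀, ‖v z - v x₀‖ < ε := by
    have := Metric.tendsto_nhds.1 hv.continuousAt ε hε
    simpa [dist_eq_norm] using this
  have hnb : {y | (y ∈ X → u y - v y ∈ Λ) ∧ ‖v y - v x₀‖ < ε} ∈ 𝓝 x₀ := hvu.and hvc
  obtain ⟨η, hη, h⟩ := Pool.Agent.H62.EF.near_of_pr (hX.ne_zero hx₀) hnb
  refine ⟨η, hη, fun x hx hd => ?_⟩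
  obtain ⟨c, hc, h1, h2⟩ := h x (hX.ne_zero hx) hd
  have h3 := h1 (hX.smul_mem x hx c hc)
  have h4 := hvu.self_of_nhds hx₀
  have h5 := hu.smul x hx c hc
  refine ⟨-(u (c • x) - u x) + (u (c • x) - v (c • x)) - (u x₀ - v x₀), Λ.sub_mem (Λ.add_mem (Λ.neg_mem h5) h3) h4, ?_⟩
  have h6 : u x - u x₀ - (-(u (c • x) - u x) + (u (c • x) - v (c • x)) - (u x₀ - v x₀)) = v (c • x) - v x₀ := by ring
  rw [h6]
  exact h2

private theorem lr_unif (hX : OCone X) (hu : TorusMap X Λ u) {H : ℂ → EN N} (hH : Continuous H) (hHX : ∀ z, H z ∈ X) {K : Set ℂ}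
    (hK : IsCompact K) {ε : ℝ} (hε : 0 < ε) :
    ∃ η : ℝ, 0 < η ∧ ∀ z ∈ K, ∀ x ∈ X, dist (pr x) (pr (H z)) < η → ∃ l ∈ Λ, ‖u x - u (H z) - l‖ < ε := by
  refine hK.induction_on (p := fun S => ∃ η : ℝ, 0 < η ∧ ∀ z ∈ S, ∀ x ∈ X, dist (pr x) (pr (H z)) < η → ∃ l ∈ Λ, ‖u x - u (H z) - l‖ < ε)
    ⟨1, one_pos, fun z hz => absurd hz (Set.notMem_empty z)⟩ ?_ ?_ ?_
  · rintro s t hst ⟨η, hη, h⟩
    exact ⟨η, hη, fun z hz => h z (hst hz)⟩
  · rintro s t ⟨η, hη, h⟩ ⟨η', hη', h'⟩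
    refine ⟨min η η', lt_min hη hη', fun z hz x hx hd => ?_⟩
    rcases hz with hz | hz
    · exact h z hz x hx (hd.trans_le (min_le_left _ _))
    · exact h' z hz x hx (hd.trans_le (min_le_right _ _))
  · intro z₀ _
    obtain ⟨η, hη, h⟩ := lr_pt hX hu (hHX z₀) (half_pos hε)
    have hc : ContinuousAt (fun z => pr (H z)) z₀ :=
      (Pool.Agent.H62.EF.continuousAt_pr (hX.ne_zero (hHX z₀))).comp hH.continuousAt
    have hev : ∀ᶠ z in 𝓝 z₀, dist (pr (H z)) (pr (H z₀)) < η / 2 := Metric.tendsto_nhds.1 hc _ (by positivity)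
    refine ⟨{z | dist (pr (H z)) (pr (H z₀)) < η / 2}, mem_nhdsWithin_of_mem_nhds hev, η / 2, by positivity, ?_⟩
    intro z hz x hx hd
    have hz' : dist (pr (H z)) (pr (H z₀)) < η / 2 := hz
    obtain ⟨l, hl, h1⟩ := h x hx ((dist_triangle _ (pr (H z)) _).trans_lt (by linarith))
    obtain ⟨m, hm, h2⟩ := h (H z) (hHX z) (hz'.trans (by linarith))
    refine ⟨l - m, Λ.sub_mem hl hm, ?_⟩
    have h3 : u x - u (H z) - (l - m) = (u x - u (H z₀) - l) - (u (H z) - u (H z₀) - m) := by ring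
    rw [h3]
    refine (norm_sub_le _ _).trans_lt ?_
    linarith

/-- a function on a disc, near `Λ` on a circle, is near one element of `Λ` inside -/
private theorem lr_circle {z₀ : ℂ} {s d ε : ℝ} (hs : 0 < s) (hd : ∀ l ∈ Λ, ‖l‖ < d → l = 0) (hε : 0 < ε) (hεd : 4 * ε ≤ d) {g : ℂ → ℂ}
    (hg : ∀ z ∈ closedBall z₀ s, AnalyticAt ℂ g z) (h : ∀ w ∈ sphere z₀ s, ∃ l ∈ Λ, ‖g w - l‖ ≤ ε) :
    ∃ l ∈ Λ, ∀ w ∈ closedBall z₀ s, ‖g w - l‖ ≤ 2 * ε := by
  have hpre : IsPreconnected (sphere z₀ s) := isPreconnected_sphere (by simp) z₀ s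
  have hc : ContinuousOn g (sphere z₀ s) := fun z hz => (hg z (sphere_subset_closedBall hz)).continuousAt.continuousWithinAt
  obtain ⟨l, hl, h1⟩ := lr_conn hpre hd hε hεd hc h
  refine ⟨l, hl, ?_⟩
  intro w hw
  have hdc : DiffContOnCl ℂ (fun z => g z - l) (ball z₀ s) := by
    refine DifferentiableOn.diffContOnCl ?_
    rw [closure_ball z₀ hs.ne']
    intro z hz
    exact ((hg z hz).differentiableAt.sub_const l).differentiableWithinAt
  refine Complex.norm_le_of_forall_mem_frontier_norm_le isBounded_ball hdc (C := 2 * ε) ?_ (z := w) ?_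
  · intro z hz
    rw [frontier_ball z₀ hs.ne'] at hz
    exact h1 z hz
  · rw [closure_ball z₀ hs.ne']
    exact hw

/-- convergence of the lifts -/
theorem lift_conv (hX : OCone X) (hu : TorusMap X Λ u) (hΛ : Dsc Λ) {H : ℂ → EN N} (hH : Continuous H) (hHX : ∀ z, H z ∈ X)
    {ψ : ℂ → ℂ} (hψ : Differentiable ℂ ψ) (hψu : ∀ z, u (H z) - ψ z ∈ Λ) {Z : Set ℂ} (hZ : ∀ z, ∀ᶠ w in 𝓝[≠] z, w ∉ Z)
    {R : ℝ} (hR : 0 ≤ R) {ε : ℝ} (hε : 0 < ε) :
    ∃ η : ℝ, 0 < η ∧ ∃ K : Set ℂ, IsCompact K ∧ (∀ z ∈ K, z ∉ Z ∧ ‖z‖ ≤ R + 1) ∧ ∀ G : ℂ → EN N,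
      (∀ z ∈ closedBall (0 : ℂ) (R + 1), AnalyticAt ℂ G z ∧ G z ∈ X) → (∀ z ∈ K, dist (pr (G z)) (pr (H z)) < η) →
      ∃ υ : ℂ → ℂ, DifferentiableOn ℂ υ (ball 0 (R + 1)) ∧ (∀ z ∈ ball (0 : ℂ) (R + 1), u (G z) - υ z ∈ Λ) ∧
        ∀ z ∈ closedBall (0 : ℂ) R, ‖υ z - ψ z‖ < ε := by
  obtain ⟨d, hd0, hd⟩ := hΛ.discrete
  set ε₀ : ℝ := min ε d / 16 with hε₀
  have hm : 0 < min ε d := lt_min hε hd0
  have hε0 : 0 < ε₀ := by positivity
  have hεε : 16 * ε₀ ≤ ε := by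
    have : min ε d ≤ ε := min_le_left _ _
    rw [hε₀]; linarith
  have hεd : 16 * ε₀ ≤ d := by
    have : min ε d ≤ d := min_le_right _ _
    rw [hε₀]; linarith
  have main : ∃ η : ℝ, 0 < η ∧ ∃ K : Set ℂ, IsCompact K ∧ (∀ z ∈ K, z ∉ Z ∧ ‖z‖ ≤ R + 1) ∧ ∀ (G : ℂ → EN N) (υ : ℂ → ℂ),
      (∀ z ∈ K, G z ∈ X) → (∀ z ∈ K, dist (pr (G z)) (pr (H z)) < η) → DifferentiableOn ℂ υ (ball 0 (R + 1)) →
      (∀ z ∈ ball (0 : ℂ) (R + 1), u (G z) - υ z ∈ Λ) → ∀ z ∈ closedBall (0 : ℂ) R, ∃ l ∈ Λ, ‖υ z - ψ z - l‖ ≤ 2 * ε₀ := by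
    refine (isCompact_closedBall (0 : ℂ) R).induction_on (p := fun S => ∃ η : ℝ, 0 < η ∧ ∃ K : Set ℂ, IsCompact K ∧
      (∀ z ∈ K, z ∉ Z ∧ ‖z‖ ≤ R + 1) ∧ ∀ (G : ℂ → EN N) (υ : ℂ → ℂ),
      (∀ z ∈ K, G z ∈ X) → (∀ z ∈ K, dist (pr (G z)) (pr (H z)) < η) → DifferentiableOn ℂ υ (ball 0 (R + 1)) →
      (∀ z ∈ ball (0 : ℂ) (R + 1), u (G z) - υ z ∈ Λ) → ∀ z ∈ S, ∃ l ∈ Λ, ‖υ z - ψ z - l‖ ≤ 2 * ε₀) ?_ ?_ ?_ ?_
    · exact ⟨1, one_pos, ∅, isCompact_empty, fun z hz => absurd hz (Set.notMem_empty z), fun _ _ _ _ _ _ z hz => absurd hz (Set.notMem_empty z)⟩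
    · rintro s t hst ⟨η, hη, K, hK, hKZ, h⟩
      exact ⟨η, hη, K, hK, hKZ, fun G υ a b c e z hz => h G υ a b c e z (hst hz)⟩
    · rintro s t ⟨η, hη, K, hK, hKZ, h⟩ ⟨η', hη', K', hK', hKZ', h'⟩
      refine ⟨min η η', lt_min hη hη', K ∪ K', hK.union hK', ?_, ?_⟩
      · rintro z (hz | hz)
        · exact hKZ z hz
        · exact hKZ' z hz
      · intro G υ a b c e z hz
        rcases hz with hz | hz
        · exact h G υ (fun z hz => a z (Or.inl hz)) (fun z hz => (b z (Or.inl hz)).trans_le (min_le_left _ _)) c e z hz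
        · exact h' G υ (fun z hz => a z (Or.inr hz)) (fun z hz => (b z (Or.inr hz)).trans_le (min_le_right _ _)) c e z hz
    · intro z₀ hz₀
      have hz0 : ‖z₀‖ ≤ R := by simpa using hz₀
      -- a circle around `z₀` which does not meet `Z`
      obtain ⟨r, hr, hrZ⟩ := Metric.mem_nhdsWithin_iff.1 (hZ z₀)
      set s : ℝ := min r 1 / 2 with hs
      have hs0 : 0 < s := by positivity
      have hsr : s < r := by
        have h1 : min r 1 ≤ r := min_le_left _ _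
        rw [hs]; linarith
      have hs1 : s < 1 := by
        have h1 : min r 1 ≤ 1 := min_le_right _ _
        rw [hs]; linarith
      have hball : closedBall z₀ s ⊆ ball (0 : ℂ) (R + 1) := by
        intro z hz
        rw [mem_closedBall, dist_eq_norm] at hz
        rw [mem_ball, dist_zero_right]
        have h1 : z = z₀ + (z - z₀) := by ring
        rw [h1]
        refine (norm_add_le _ _).trans_lt ?_
        linarith
      have hKc : IsCompact (sphere z₀ s) := isCompact_sphere z₀ s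
      obtain ⟨η, hη, hun⟩ := lr_unif hX hu hH hHX hKc hε0
      refine ⟨closedBall z₀ s, mem_nhdsWithin_of_mem_nhds (closedBall_mem_nhds z₀ hs0), η, hη, sphere z₀ s, hKc, ?_, ?_⟩
      · intro z hz
        have hzs : dist z z₀ = s := hz
        refine ⟨hrZ ⟨?_, ?_⟩, ?_⟩
        · rw [mem_ball, hzs]; exact hsr
        · intro h
          have h' : z = z₀ := h
          rw [h', dist_self] at hzs
          exact hs0.ne hzs
        · have h1 := hball (sphere_subset_closedBall hz)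
          rw [mem_ball, dist_zero_right] at h1
          exact h1.le
      · intro G υ hG hd1 hυ hυu z hz
        have hg : ∀ z ∈ closedBall z₀ s, AnalyticAt ℂ (fun w => υ w - ψ w) z := fun z hz =>
          (hυ.analyticAt (isOpen_ball.mem_nhds (hball hz))).sub (hψ.analyticAt z)
        have hnear : ∀ w ∈ sphere z₀ s, ∃ l ∈ Λ, ‖(fun w => υ w - ψ w) w - l‖ ≤ ε₀ := by
          intro w hw
          obtain ⟨l, hl, h1⟩ := hun w hw (G w) (hG w hw) (hd1 w hw)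
          have h2 := hυu w (hball (sphere_subset_closedBall hw))
          have h3 := hψu w
          refine ⟨l - (u (G w) - υ w) + (u (H w) - ψ w), Λ.add_mem (Λ.sub_mem hl h2) h3, ?_⟩
          have h4 : υ w - ψ w - (l - (u (G w) - υ w) + (u (H w) - ψ w)) = u (G w) - u (H w) - l := by ring
          show ‖υ w - ψ w - (l - (u (G w) - υ w) + (u (H w) - ψ w))‖ ≤ ε₀
          rw [h4]
          exact h1.le
        obtain ⟨l, hl, h1⟩ := lr_circle hs0 hd hε0 (by linarith) hg hnear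
        exact ⟨l, hl, h1 z hz⟩
  obtain ⟨η, hη, K, hK, hKZ, h⟩ := main
  refine ⟨η, hη, K, hK, hKZ, ?_⟩
  intro G hG hdG
  have hR1 : 0 < R + 1 := by linarith
  have hGd : DifferentiableOn ℂ G (ball 0 (R + 1)) := fun z hz =>
    (hG z (ball_subset_closedBall hz)).1.differentiableAt.differentiableWithinAt
  obtain ⟨υ, hυ, -, hυu⟩ := lr_lift_ball hu hΛ hR1 hGd (fun z hz => (hG z (ball_subset_closedBall hz)).2)
  have hKb : ∀ z ∈ K, z ∈ closedBall (0 : ℂ) (R + 1) := fun z hz => by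
    rw [mem_closedBall, dist_zero_right]
    exact (hKZ z hz).2
  have h1 := h G υ (fun z hz => (hG z (hKb z hz)).2) hdG hυ hυu
  have hsub : closedBall (0 : ℂ) R ⊆ ball 0 (R + 1) := closedBall_subset_ball (by linarith)
  have hc : ContinuousOn (fun w => υ w - ψ w) (closedBall (0 : ℂ) R) :=
    (hυ.continuousOn.mono hsub).sub hψ.continuous.continuousOn
  obtain ⟨l, hl, h2⟩ := lr_conn (convex_closedBall (0 : ℂ) R).isPreconnected hd (ε := 2 * ε₀) (by linarith) (by linarith) hc h1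
  refine ⟨fun z => υ z - l, hυ.sub_const l, ?_, ?_⟩
  · intro z hz
    have h3 : u (G z) - (υ z - l) = (u (G z) - υ z) + l := by ring
    rw [h3]
    exact Λ.add_mem (hυu z hz) hl
  · intro z hz
    have h3 := h2 z hz
    have h4 : υ z - l - ψ z = υ z - ψ z - l := by ring
    show ‖υ z - l - ψ z‖ < ε
    rw [h4]
    refine h3.trans_lt ?_
    linarith

end Pool.Agent.H86.LR

end

section

/-!
# LS Open: the main theorem in the form `GGLOpen`
-/

set_option autoImplicit false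

open MvPolynomial

noncomputable section

namespace Pool.Agent.H86.LS

attribute [-instance] ProperSMul.toContinuousSMul

open Pool.Agent.H17 (PN VanishesAt ZariskiClosedIn HolomorphicInto puncturedDisc)
open Pool.Agent.H17LG.Variety (FunField IsLogGeneralType)

variable {N s : ℕ} {P : Ideal (MvPolynomial (Fin (N + 1)) ℂ)} [P.IsPrime] {z : Fin 2 → FunField P} {Λ : AddSubgroup ℂ} {u : PN N → ℂ ⧸ Λ}
  {H : Fin s → MvPolynomial (Fin (N + 1)) ℂ} {d : Fin s → ℕ} {B : Set (ℂ ⧸ Λ)} {Z : Set (PN N)}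

theorem eq_two_of_basis {K : Type} [Field K] [Algebra ℂ K] {w : ℕ} (h : ∃ z : Fin 2 → K, IsTranscendenceBasis ℂ z)
    (hw : ∃ z : Fin w → K, IsTranscendenceBasis ℂ z) : w = 2 := by
  obtain ⟨z, hz⟩ := h
  obtain ⟨z', hz'⟩ := hw
  have h1 := hz.lift_cardinalMk_eq_trdeg
  have h2 := hz'.lift_cardinalMk_eq_trdeg
  rw [← h1] at h2
  have h3 : ((w : ℕ) : Cardinal) = ((2 : ℕ) : Cardinal) := by simpa using h2
  exact_mod_cast h3

end Pool.Agent.H86.LS

end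
end

section

/-!
# LS Pole: a limit of the sections is not in all the `D i` if it has a pole

`ψ` is a holomorphic function near a fibre, outside of a part `D'` of the union of the `D i`, and its values on the limit tend to `∞` at a point.
The functions `ψ (F n z)` are holomorphic, they converge on a small circle, so they are bounded by the maximum principle.
-/

set_option autoImplicit false

open Topology Filter Metric

namespace Pool.Agent.H86.LS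

attribute [-instance] ProperSMul.toContinuousSMul

open Pool.Agent.H36.BP (EN fs wd)
open Pool.Agent.H14.PP (IsCone)
open Pool.Agent.H62.EF (Lat TorusMap Sec)
open Pool.Agent.H62.EL (BadSet Gd)

variable {N s : ℕ} {X : Set (EN N)} {Λ : AddSubgroup ℂ} {u : EN N → ℂ} {B : Set ℂ} {δ : ℝ} {G : Fin s → EN N → ℂ} {m : Fin s → ℕ}

/-- `ψ` is holomorphic near the fibre over `z₀`, outside of the part `D'` of the union of the `D i`, and tends to infinity at the point `z₀` of the curve `x`. -/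
structure PoleAt (X : Set (EN N)) (Λ : AddSubgroup ℂ) (u : EN N → ℂ) (B : Set ℂ) (G : Fin s → EN N → ℂ) (x : ℂ → EN N) (z₀ : ℂ) (ρ : ℝ)
    (ψ : EN N → ℂ) (D' : Set (EN N)) : Prop where
  pos : 0 < ρ
  sub : ∀ y ∈ X, y ∈ D' → ∃ i, G i y = 0
  hom : ∀ y ∈ X, ∀ c : ℂ, c ≠ 0 → ψ (c • y) = ψ y ∧ (c • y ∈ D' → y ∈ D')
  hol : ∀ y ∈ X, y ∉ D' → (∃ z ∈ ball z₀ ρ, u y - z ∈ Λ) → ∃ v : EN N → ℂ, AnalyticAt ℂ v y ∧ ∀ᶠ w in 𝓝 y, w ∈ X → ψ w = v w
  out : ∀ z ∈ ball z₀ ρ, z ≠ z₀ → z ∉ B → x z ∉ D'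
  lim : Tendsto (fun z => ‖ψ (x z)‖) (𝓝[≠] z₀) atTop

theorem isolated (E : LData X Λ u B δ G m) (z₀ : ℂ) : ∃ σ : ℝ, 0 < σ ∧ ∀ b ∈ B, b ≠ z₀ → σ ≤ ‖z₀ - b‖ := by
  by_cases h : z₀ ∈ B
  · refine ⟨8 * δ, by linarith [E.bad.pos], fun b hb hne => ?_⟩
    exact E.bad.sep z₀ h b hb (Ne.symm hne)
  · obtain ⟨δ', hδ', h1⟩ := E.bad.exists_gd h
    exact ⟨δ', hδ', fun b hb _ => h1 b hb⟩

/-- the values of `ψ` converge -/
theorem pole_local (E : LData X Λ u B δ G m) {𝒰 : Ultrafilter ℕ} {F : ℕ → ℂ → EN N} (hF : ∀ n, F n ∈ SG X Λ u G) {x : ℂ → EN N}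
    (hx : IsLim X Λ u B 𝒰 F x) {z₀ : ℂ} {ρ : ℝ} {ψ : EN N → ℂ} {D' : Set (EN N)} (P : PoleAt X Λ u B G x z₀ ρ ψ D') {w₀ : ℂ}
    (hw : w₀ ∈ ball z₀ ρ) (hne : w₀ ≠ z₀) (hwB : w₀ ∉ B) {ε : ℝ} (hε : 0 < ε) :
    ∃ V ∈ 𝓝 w₀, ∀ᶠ n in (𝒰 : Filter ℕ), ∀ z ∈ V, ‖ψ (F n z) - ψ (x w₀)‖ ≤ ε := by
  obtain ⟨r, φ, Ψ, h⟩ := hx w₀ hwB
  have hself : w₀ ∈ ball w₀ r := mem_ball_self h.pos
  obtain ⟨hΨX, hΨu, c, hc, hΨc⟩ := h.mem w₀ hself
  have hxX : x w₀ ∈ X := by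
    have h1 : x w₀ = c⁻¹ • Ψ w₀ := by rw [hΨc, smul_smul, inv_mul_cancel₀ hc, one_smul]
    rw [h1]
    exact E.cone.smul_mem _ hΨX _ (inv_ne_zero hc)
  have hΨD : Ψ w₀ ∉ D' := by
    intro h1
    rw [hΨc] at h1
    exact P.out w₀ hw hne hwB ((P.hom _ hxX c hc).2 h1)
  obtain ⟨v, hv, hvψ⟩ := P.hol _ hΨX hΨD ⟨w₀, hw, hΨu⟩
  have hv0 : v (Ψ w₀) = ψ (x w₀) := by
    rw [← hvψ.self_of_nhds hΨX, hΨc]
    exact (P.hom _ hxX c hc).1
  have h1 : ∀ᶠ w in 𝓝 (Ψ w₀), ‖v w - ψ (x w₀)‖ < ε := by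
    have h2 : Tendsto (fun w => ‖v w - ψ (x w₀)‖) (𝓝 (Ψ w₀)) (𝓝 ‖v (Ψ w₀) - ψ (x w₀)‖) :=
      (hv.continuousAt.tendsto.sub_const _).norm
    rw [hv0, sub_self, norm_zero] at h2
    exact h2.eventually_lt_const hε
  obtain ⟨η, hη, hball⟩ := Metric.eventually_nhds_iff_ball.1 (h1.and hvψ)
  obtain ⟨t, ht, hconv⟩ := Metric.tendstoLocallyUniformlyOn_iff.1 h.conv (η / 2) (by positivity) w₀ hself
  have ht' : t ∈ 𝓝 w₀ := by
    rwa [IsOpen.nhdsWithin_eq isOpen_ball hself] at ht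
  have hcont : ∀ᶠ z in 𝓝 w₀, dist (Ψ z) (Ψ w₀) < η / 2 := by
    have h2 := (h.dif.continuousOn.continuousAt (isOpen_ball.mem_nhds hself)).tendsto
    exact h2.eventually (ball_mem_nhds _ (by positivity))
  refine ⟨{z | dist (Ψ z) (Ψ w₀) < η / 2} ∩ (t ∩ ball w₀ r), inter_mem hcont (inter_mem ht' (isOpen_ball.mem_nhds hself)), ?_⟩
  filter_upwards [h.app, hconv] with n hn hcn z hz
  obtain ⟨hz1, hz2, hz3⟩ := hz
  obtain ⟨c', hc', hφ⟩ := hn.2 z hz3
  have hFX : F n z ∈ X := (hF n).1.2.1 z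
  have hφX : φ n z ∈ X := by
    rw [hφ]
    exact E.cone.smul_mem _ hFX _ hc'
  have h3 : φ n z ∈ ball (Ψ w₀) η := by
    rw [mem_ball]
    have h4 := hcn z hz2
    have h5 := dist_triangle (φ n z) (Ψ z) (Ψ w₀)
    rw [dist_comm (φ n z) (Ψ z)] at h5
    have h6 : dist (Ψ z) (Ψ w₀) < η / 2 := hz1
    linarith
  obtain ⟨h4, h5⟩ := hball _ h3
  have h6 : ψ (F n z) = v (φ n z) := by
    rw [← h5 hφX, hφ]
    exact (P.hom _ hFX c' hc').1.symm
  rw [h6]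
  exact h4.le

theorem pole_dif (E : LData X Λ u B δ G m) {F : ℂ → EN N} (hF : F ∈ SG X Λ u G) {x : ℂ → EN N}
    {z₀ : ℂ} {ρ : ℝ} {ψ : EN N → ℂ} {D' : Set (EN N)} (P : PoleAt X Λ u B G x z₀ ρ ψ D') : DifferentiableOn ℂ (fun z => ψ (F z)) (ball z₀ ρ) := by
  intro z hz
  have hFX := hF.1.2.1 z
  have hFD : F z ∉ D' := by
    intro h
    obtain ⟨i, hi⟩ := P.sub _ hFX h
    exact hF.2 i z hi
  obtain ⟨v, hv, hvψ⟩ := P.hol _ hFX hFD ⟨z, hz, hF.1.2.2 z⟩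
  have h1 : DifferentiableAt ℂ (fun z => v (F z)) z := hv.differentiableAt.comp z (hF.1.1 z)
  refine (h1.congr_of_eventuallyEq ?_).differentiableWithinAt
  filter_upwards [hF.1.1.continuous.continuousAt.eventually hvψ] with w hw
  exact hw (hF.1.2.1 w)

theorem pole_false (E : LData X Λ u B δ G m) {𝒰 : Ultrafilter ℕ} {F : ℕ → ℂ → EN N} (hF : ∀ n, F n ∈ SG X Λ u G) {x : ℂ → EN N}
    (hx : IsLim X Λ u B 𝒰 F x) {z₀ : ℂ} {ρ : ℝ} {ψ : EN N → ℂ} {D' : Set (EN N)} (P : PoleAt X Λ u B G x z₀ ρ ψ D') : False := by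
  obtain ⟨σ₀, hσ₀, hB⟩ := isolated E z₀
  set σ : ℝ := min ρ σ₀ / 2 with hσ
  have hσ0 : 0 < σ := half_pos (lt_min P.pos hσ₀)
  have hσρ : σ < ρ := by
    have := min_le_left ρ σ₀
    have := P.pos
    have : 0 < min ρ σ₀ := lt_min P.pos hσ₀
    linarith
  have hσσ : σ < σ₀ := by
    have := min_le_right ρ σ₀
    have : 0 < min ρ σ₀ := lt_min P.pos hσ₀
    linarith
  have hnB : ∀ z ∈ closedBall z₀ σ, z ≠ z₀ → z ∉ B := by
    intro z hz hne hzB
    have h1 := hB z hzB hne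
    rw [mem_closedBall, dist_comm, dist_eq_norm] at hz
    linarith
  have hbd : ∃ M : ℝ, ∀ᶠ n in (𝒰 : Filter ℕ), ∀ z ∈ sphere z₀ σ, ‖ψ (F n z)‖ ≤ M := by
    refine (isCompact_sphere z₀ σ).induction_on (p := fun S => ∃ M : ℝ, ∀ᶠ n in (𝒰 : Filter ℕ), ∀ z ∈ S, ‖ψ (F n z)‖ ≤ M) ?_ ?_ ?_ ?_
    · exact ⟨0, Eventually.of_forall fun n z hz => absurd hz (Set.notMem_empty z)⟩
    · rintro S T hST ⟨M, hM⟩
      exact ⟨M, hM.mono fun n hn z hz => hn z (hST hz)⟩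
    · rintro S T ⟨M, hM⟩ ⟨M', hM'⟩
      refine ⟨max M M', (hM.and hM').mono fun n hn z hz => ?_⟩
      rcases hz with hz | hz
      · exact (hn.1 z hz).trans (le_max_left _ _)
      · exact (hn.2 z hz).trans (le_max_right _ _)
    · intro w hw
      have hwb : w ∈ ball z₀ ρ := by
        rw [mem_sphere] at hw
        rw [mem_ball, hw]
        exact hσρ
      have hwne : w ≠ z₀ := by
        rintro rfl
        rw [mem_sphere, dist_self] at hw
        linarith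
      have hwB : w ∉ B := hnB w (sphere_subset_closedBall hw) hwne
      obtain ⟨V, hV, h1⟩ := pole_local E hF hx P hwb hwne hwB one_pos
      refine ⟨V, nhdsWithin_le_nhds hV, ‖ψ (x w)‖ + 1, h1.mono fun n hn z hz => ?_⟩
      have h2 := hn z hz
      have h3 := norm_le_norm_add_norm_sub' (ψ (F n z)) (ψ (x w))
      linarith
  obtain ⟨M, hM⟩ := hbd
  have hin : ∀ z ∈ ball z₀ σ, ∀ᶠ n in (𝒰 : Filter ℕ), ‖ψ (F n z)‖ ≤ M := by
    intro z hz
    filter_upwards [hM] with n hn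
    refine Complex.norm_le_of_forall_mem_frontier_norm_le (U := ball z₀ σ) isBounded_ball
      ((pole_dif E (hF n) P).diffContOnCl_ball (closedBall_subset_ball hσρ)) (fun w hw => ?_) (subset_closure hz)
    rw [frontier_ball z₀ hσ0.ne'] at hw
    exact hn w hw
  have hxz : ∀ z ∈ ball z₀ σ, z ≠ z₀ → ‖ψ (x z)‖ ≤ M + 1 := by
    intro z hz hne
    obtain ⟨V, hV, h1⟩ := pole_local E hF hx P (ball_subset_ball hσρ.le hz) hne (hnB z (ball_subset_closedBall hz) hne) one_pos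
    obtain ⟨n, h2, h3⟩ := (h1.and (hin z hz)).exists
    have h4 := h2 z (mem_of_mem_nhds hV)
    have h5 := norm_le_norm_add_norm_sub' (ψ (x z)) (ψ (F n z))
    rw [norm_sub_rev] at h4
    linarith
  have h1 : ∀ᶠ z in 𝓝[≠] z₀, M + 1 < ‖ψ (x z)‖ := P.lim.eventually_gt_atTop _
  have h2 : ∀ᶠ z in 𝓝[≠] z₀, z ∈ ball z₀ σ := nhdsWithin_le_nhds (ball_mem_nhds _ hσ0)
  obtain ⟨z, ⟨h3, h4⟩, h5⟩ := ((h1.and h2).and self_mem_nhdsWithin).exists
  have h6 := hxz z h4 h5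
  linarith

end Pool.Agent.H86.LS

end
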