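import Pool.Agent.H94.CB.EG.Bad
import Pool.Agent.H94.CB.M170
import Pool.Agent.H94.CB.M228
import Pool.Agent.H94.CB.M242
import Pool.Agent.H94.CB.M245
import Pool.Agent.H94.CB.M248

/-! The parts of this file: H17L.FormB, H17L.FormA_1, H17L.BaseLB, H19E.LimB, H19E.LimC, H17L.BadL. -/

section

/-!
# H17L FormB: the extended form has logarithmic poles

Notation as in FormA; `α'` agrees with the transported form off `D₀ = L.symm ⁻¹' Zs`.

`LogP α'`: let `σ, τ` be a germ chart of `X'` with `D' = {t = 0}`, `υ` a lift.  `x = σ 0 ∈ D'`.  `h.log` at `L.symm x`: second alternative: an adapted chart `σ₁` and for every lift a `g₁` with `p.2 * cf α υ₁ σ₁ p = g₁ p` off `Zs`.  `IsChart.trans` (H17BP/ChLem; transport `σ` to `V`: `L.symm ∘ σ`, `τ ∘ L`): `Pr (L.symm (σ p)) (σ₁ (θ p))`, `θ` biholomorphic,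
`(θ p).2 = 0 ↔ p.2 = 0` near `0`, so `(θ p).2 = p.2 * κ p`, `κ 0 ≠ 0` (`exists_div_y`, the derivative of `θ` at `0` is invertible).  Let `υ₁` be the lift of `u` along `σ₁` with `υ₁ (θ p) = υ p` (`υ ∘ θ⁻¹`).  For `L.symm (σ p) ∉ Zs`: coefficient in `σ` = `det (Dθ p) *` coefficient in `σ₁` at `θ p` (`cf_trans`), so `p.2 *` coefficient
`= det (Dθ p) / κ p * g₁ (θ p) =: g p`, analytic.  For all `p` with `p.2 ≠ 0` near `0`: both sides are continuous at `p` (`α'.analytic`, as `σ p ∉ D'`) and agree where `L.symm (σ p') ∉ Zs`, which accumulates at `p` (`zs_thin`).  So they agree.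
-/

set_option autoImplicit false

open Topology Filter

namespace Pool.Agent.H17L

attribute [-instance] ProperSMul.toContinuousSMul

open Pool.Agent.H17BP (Surface IsChart Tan Pr HolP ResN)
open Pool.Agent.H36.BP (EN isCone_transport germ_transport tan_transport)
open Pool.Agent.H62.EF (Lat)
open Pool.Agent.H62.EL (TForm Per VanZero Thin BadSet)
open Pool.Agent.H18.LU (LogP)
open Pool.Agent.H17N (TMap LU RU TF NonConst ThinF FibB HSec)

variable {V : Type} [NormedAddCommGroup V] [NormedSpace ℂ V] [FiniteDimensional ℂ V] {X D : Set V} {Λ Γ : AddSubgroup ℂ} {u : V → ℂ}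
  {B : Set ℂ} {α : ℂ → V → V → V → ℂ} {δ : ℝ} {M : ℕ}

/-- a germ chart of the transported surface gives a chart -/
private theorem formB_chart (L : V ≃L[ℂ] EN M) (hX : Surface X) {σ : ℂ × ℂ → EN M} {τ : EN M → ℂ × ℂ}
    (h : Pool.Agent.H36.BP.IsGermChart (L.symm ⁻¹' X : Set (EN M)) σ τ) :
    IsChart X (fun p => L.symm (σ p)) (fun y => τ (L y)) := by
  have hL : Tendsto (fun y => L y) (𝓝 (L.symm (σ 0))) (𝓝 (σ 0)) := by
    have := L.continuous.tendsto (L.symm (σ 0))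
    rwa [L.apply_symm_apply] at this
  refine ⟨((L.symm : EN M →L[ℂ] V).analyticAt _).comp h.σ_an, ?_, ?_, ?_, ?_, ?_, ?_⟩
  · filter_upwards [h.σ_mem] with p hp
    exact hp
  · intro h0
    have h1 : L.symm (σ 0) ∈ X := h.σ_mem.self_of_nhds
    have h2 : L.symm (σ 0) = 0 := h0
    rw [h2] at h1
    exact hX.zero h1
  · have h1 : AnalyticAt ℂ τ ((fun y => L y) (L.symm (σ 0))) := by
      show AnalyticAt ℂ τ (L (L.symm (σ 0)))
      rw [L.apply_symm_apply]; exact h.τ_an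
    exact AnalyticAt.comp h1 ((L : V →L[ℂ] EN M).analyticAt _)
  · filter_upwards [h.left] with p hp
    show τ (L (L.symm (σ p))) = p
    rw [L.apply_symm_apply, hp]
  · filter_upwards [hL.eventually h.right] with y hy hyX
    obtain ⟨c, hc, hy2⟩ := hy (by
      show L.symm (L y) ∈ X
      rwa [L.symm_apply_apply])
    refine ⟨c, hc, ?_⟩
    have := congrArg L.symm hy2
    rwa [L.symm_apply_apply, map_smul] at this
  · have h2 : Tendsto (fun p : V × ℂ => (L p.1, p.2)) (𝓝 (L.symm (σ 0), (1 : ℂ))) (𝓝 (σ 0, (1 : ℂ))) := by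
      have h3 : Continuous fun p : V × ℂ => (L p.1, p.2) := (L.continuous.comp continuous_fst).prodMk continuous_snd
      have := h3.tendsto (L.symm (σ 0), (1 : ℂ))
      simpa only [L.apply_symm_apply] using this
    filter_upwards [h2.eventually h.inv] with p hp
    show τ (L (p.2 • p.1)) = τ (L p.1)
    rw [map_smul]
    exact hp

private theorem formB_smul (hu : TMap X Λ u) (hX : Surface X) (hD : CurveD X D Λ u) {x : V} (hx : x ∈ Zs X D Λ u B) {c : ℂ} (hc : c ≠ 0) :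
    c • x ∈ Zs X D Λ u B := by
  rcases hx with hx | ⟨hx, b, hb, hxb⟩
  · exact Or.inl (hD.smul x hx c hc)
  · refine Or.inr ⟨hX.smul x hx c hc, b, hb, ?_⟩
    have h1 := Λ.add_mem (hu.smul x hx c hc) hxb
    have e : u (c • x) - u x + (u x - b) = u (c • x) - b := by ring
    rwa [e] at h1

theorem logP_ext (L : V ≃L[ℂ] EN M) (hΛ : Lat Λ) (hbad : BadSet B Λ δ) (h : DData X D Λ Γ u B α)
    {α' : TForm ((L.symm ⁻¹' X : Set (EN M)) \ (L.symm ⁻¹' D : Set (EN M))) Λ (fun x => u (L.symm x))} (hα : Agr L X D (Zs X D Λ u B) α α') :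
    LogP α' := by
  intro σ τ υ hσ hσD hυ hυu
  have hX := h.surf
  have hD := h.curve
  have hcV := formB_chart L hX hσ
  set φ : ℂ × ℂ → V := fun p => L.symm (σ p) with hφ
  have hx0 : φ 0 ∈ D := (hσD.self_of_nhds).2 rfl
  have hx : φ 0 ∈ X := hD.sub hx0
  have hφD : ∀ᶠ p in 𝓝 (0 : ℂ × ℂ), φ p ∈ D ↔ p.2 = 0 := hσD
  obtain ⟨σ₁, τ₁, hc₁, h0, halt⟩ := h.log (φ 0) hx
  obtain ⟨hAD, hlift⟩ : AD D σ₁ ∧ ∀ υ, Lf Λ u σ₁ υ → ∃ g, AnalyticAt ℂ g 0 ∧ ∀ᶠ p in 𝓝 (0 : ℂ × ℂ), σ₁ p ∉ Zs X D Λ u B →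
      p.2 * cf α υ σ₁ p = g p := by
    rcases halt with ⟨h1, -⟩ | h2
    · exact absurd hx0 h1
    · exact h2
  obtain ⟨θ, hθ, hpr⟩ := hc₁.trans hX.smul hcV ⟨1, one_ne_zero, by rw [one_smul, h0]⟩
  obtain ⟨θ', hθ', hi1, hi2⟩ := hθ.exists_inv
  -- the second component of `θ`
  have hθ2 : ∀ᶠ p in 𝓝 (0 : ℂ × ℂ), (θ p).2 = 0 ↔ p.2 = 0 := by
    filter_upwards [hpr, hφD, hθ.tendsto.eventually hAD] with p h1 h2 h3
    rw [← h2, ← h3]
    obtain ⟨c, hc, h4⟩ := h1
    have h4' : σ₁ (θ p) = c⁻¹ • φ p := by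
      rw [show φ p = c • σ₁ (θ p) from h4, smul_smul, inv_mul_cancel₀ hc, one_smul]
    constructor
    · intro h5
      rw [show φ p = c • σ₁ (θ p) from h4]
      exact hD.smul _ h5 _ hc
    · intro h5
      rw [h4']
      exact hD.smul _ h5 _ (inv_ne_zero hc)
  have hθ2an : AnalyticAt ℂ (fun p => (θ p).2) 0 := analyticAt_snd.comp hθ.an
  have hz : ∀ᶠ x in 𝓝 (0 : ℂ), (fun p => (θ p).2) (x, 0) = 0 := by
    have ht : Tendsto (fun x : ℂ => (x, (0 : ℂ))) (𝓝 0) (𝓝 (0 : ℂ × ℂ)) := by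
      have h1 : Continuous (fun x : ℂ => (x, (0 : ℂ))) := by fun_prop
      exact h1.tendsto 0
    filter_upwards [ht.eventually hθ2] with x hx
    exact hx.2 rfl
  obtain ⟨κ, hκ, hκe⟩ := Pool.Agent.H17BP.exists_div_y hθ2an hz
  -- `κ 0 ≠ 0`
  have hdθ : HasFDerivAt (fun p => (θ p).2) ((ContinuousLinearMap.snd ℂ ℂ ℂ).comp (fderiv ℂ θ 0)) (0 : ℂ × ℂ) := by
    have h1 : HasFDerivAt (fun q : ℂ × ℂ => q.2) (ContinuousLinearMap.snd ℂ ℂ ℂ) (θ 0) := hasFDerivAt_snd
    exact h1.comp (0 : ℂ × ℂ) hθ.an.differentiableAt.hasFDerivAt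
  have hdκ : HasFDerivAt (fun p : ℂ × ℂ => p.2 * κ p) ((0 : ℂ × ℂ).2 • fderiv ℂ κ 0 + κ 0 • ContinuousLinearMap.snd ℂ ℂ ℂ) (0 : ℂ × ℂ) :=
    HasFDerivAt.mul hasFDerivAt_snd hκ.differentiableAt.hasFDerivAt
  have hdeq : (ContinuousLinearMap.snd ℂ ℂ ℂ).comp (fderiv ℂ θ 0) = (0 : ℂ × ℂ).2 • fderiv ℂ κ 0 + κ 0 • ContinuousLinearMap.snd ℂ ℂ ℂ := by
    refine hdθ.unique (hdκ.congr_of_eventuallyEq ?_)
    filter_upwards [hκe] with p hp
    exact hp
  have hd1 : (fderiv ℂ θ 0 (1, 0)).2 = 0 := by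
    have := congrArg (fun A => A ((1 : ℂ), (0 : ℂ))) hdeq
    simpa using this
  have hd2 : (fderiv ℂ θ 0 (0, 1)).2 = κ 0 := by
    have := congrArg (fun A => A ((0 : ℂ), (1 : ℂ))) hdeq
    simpa using this
  have hκ0 : κ 0 ≠ 0 := by
    intro h1
    have h2 := (Pool.Agent.H17BP.bihol_iff hθ.an hθ.zero).1 hθ
    rw [hd1, hd2, h1] at h2
    simp at h2
  -- the lift along `σ₁`
  have hθ't : Tendsto θ' (𝓝 0) (𝓝 0) := hθ'.tendsto
  have hυ₁ : AnalyticAt ℂ (fun q => υ (θ' q)) 0 := by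
    refine AnalyticAt.comp (g := υ) (f := θ') ?_ hθ'.an
    rw [hθ'.zero]
    exact hυ
  have hL1 : Lf Λ u σ₁ (fun q => υ (θ' q)) := by
    refine ⟨hυ₁, ?_⟩
    have hσ₁ : ∀ᶠ q in 𝓝 (0 : ℂ × ℂ), σ₁ q ∈ X := hc₁.σ_mem
    filter_upwards [hi2, hσ₁, hθ't.eventually hpr, hθ't.eventually hυu] with q h1 h2 h3 h4
    rw [h1] at h3
    obtain ⟨c, hc, h5⟩ := h3
    have h6 := h.tor.smul (σ₁ q) h2 c hc
    rw [← h5] at h6
    have h7 : u (L.symm (σ (θ' q))) - υ (θ' q) ∈ Λ := h4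
    have h8 := Λ.sub_mem h7 h6
    have e : u (L.symm (σ (θ' q))) - υ (θ' q) - (u (L.symm (σ (θ' q))) - u (σ₁ q)) = u (σ₁ q) - υ (θ' q) := by ring
    rwa [e] at h8
  obtain ⟨g₁, hg₁, hg₁e⟩ := hlift _ hL1
  -- the determinant
  have hdet : AnalyticAt ℂ (fun p => (fderiv ℂ θ p (1, 0)).1 * (fderiv ℂ θ p (0, 1)).2 - (fderiv ℂ θ p (1, 0)).2 * (fderiv ℂ θ p (0, 1)).1) 0 := by
    have h1 : AnalyticAt ℂ (fun p => fderiv ℂ θ p (1, 0)) 0 :=
      ((ContinuousLinearMap.apply ℂ (ℂ × ℂ) ((1 : ℂ), (0 : ℂ))).analyticAt _).comp hθ.an.fderiv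
    have h2 : AnalyticAt ℂ (fun p => fderiv ℂ θ p (0, 1)) 0 :=
      ((ContinuousLinearMap.apply ℂ (ℂ × ℂ) ((0 : ℂ), (1 : ℂ))).analyticAt _).comp hθ.an.fderiv
    exact ((analyticAt_fst.comp h1).mul (analyticAt_snd.comp h2)).sub ((analyticAt_snd.comp h1).mul (analyticAt_fst.comp h2))
  have hg₁θ : AnalyticAt ℂ (fun p => g₁ (θ p)) 0 := by
    refine AnalyticAt.comp (g := g₁) (f := θ) ?_ hθ.an
    rw [hθ.zero]
    exact hg₁
  set dt : ℂ × ℂ → ℂ := fun p => (fderiv ℂ θ p (1, 0)).1 * (fderiv ℂ θ p (0, 1)).2 - (fderiv ℂ θ p (1, 0)).2 * (fderiv ℂ θ p (0, 1)).1 with hdt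
  have hG : AnalyticAt ℂ (fun p => dt p / κ p * g₁ (θ p)) 0 := (hdet.div hκ hκ0).mul hg₁θ
  refine ⟨fun p => dt p / κ p * g₁ (θ p), hG, ?_⟩
  -- the coefficient
  have hXZ : ∀ x ∈ X \ Zs X D Λ u B, ∀ c : ℂ, c ≠ 0 → c • x ∈ X \ Zs X D Λ u B := by
    intro x hx c hc
    refine ⟨hX.smul x hx.1 c hc, fun h1 => hx.2 ?_⟩
    have h2 := formB_smul (B := B) h.tor hX hD h1 (inv_ne_zero hc)
    rwa [smul_smul, inv_mul_cancel₀ hc, one_smul] at h2
  have key : ∀ᶠ p in 𝓝 (0 : ℂ × ℂ), φ p ∉ Zs X D Λ u B →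
      p.2 * α'.toFun (υ p) (σ p) (fderiv ℂ σ p (1, 0)) (fderiv ℂ σ p (0, 1)) = dt p / κ p * g₁ (θ p) := by
    filter_upwards [hσ.σ_an.eventually_analyticAt, hcV.σ_an.eventually_analyticAt, hcV.σ_mem, hθ.an.eventually_analyticAt,
      hθ.tendsto.eventually hc₁.σ_an.eventually_analyticAt, hpr.eventually_nhds, hυu, hθ.tendsto.eventually hg₁e, hκe,
      hκ.continuousAt.eventually_ne hκ0, hi1, hθ.tendsto.eventually hc₁.σ_mem.eventually_nhds] with p a1 a2 a3 a4 a5 a6 a7 a8 a9 a10 a11 a12 hpZ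
    have a3' : φ p ∈ X := a3
    obtain ⟨c, hc, hpc⟩ := a6.self_of_nhds
    have b1 : σ₁ (θ p) ∈ X := a12.self_of_nhds
    have b2 : σ₁ (θ p) ∉ Zs X D Λ u B := by
      intro h1
      apply hpZ
      rw [show φ p = c • σ₁ (θ p) from hpc]
      exact formB_smul h.tor hX hD h1 hc
    have b3 : ∀ᶠ y in 𝓝 (θ p), σ₁ y ∈ X \ Zs X D Λ u B := by
      have h1 : Tendsto σ₁ (𝓝 (θ p)) (𝓝 (σ₁ (θ p))) := a5.continuousAt.tendsto
      filter_upwards [a12, h1.eventually (zs_closed hbad h.tor hD b1 b2)] with y h2 h3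
      exact ⟨h2, h3⟩
    have b4 : σ₁ (θ p) ≠ 0 := fun h1 => hX.zero (h1 ▸ b1)
    have b5 : u (φ p) - υ p ∈ Λ := a7
    have b6 : u (σ₁ (θ p)) - υ p ∈ Λ := by
      have h1 := h.tor.smul _ b1 c hc
      rw [← hpc] at h1
      have h2 := Λ.sub_mem b5 h1
      have e : u (φ p) - υ p - (u (φ p) - u (σ₁ (θ p))) = u (σ₁ (θ p)) - υ p := by ring
      rwa [e] at h2
    have b7 := cf_trans hXZ h.form (φ := φ) (ψ := σ₁) (β := θ) (p := p) a2 a4 a5 b3 b4 a6 b5 b6
    have b8 : fderiv ℂ φ p = (L.symm : EN M →L[ℂ] V).comp (fderiv ℂ σ p) :=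
      ((L.symm : EN M →L[ℂ] V).hasFDerivAt.comp p a1.differentiableAt.hasFDerivAt).fderiv
    have b9 : α'.toFun (υ p) (σ p) (fderiv ℂ σ p (1, 0)) (fderiv ℂ σ p (0, 1)) =
        α (υ p) (φ p) (fderiv ℂ φ p (1, 0)) (fderiv ℂ φ p (0, 1)) := by
      rw [hα (υ p) (σ p) a3' hpZ, b8]
      rfl
    have b10 := a8 b2
    have b11 : cf α (fun q => υ (θ' q)) σ₁ (θ p) = α (υ p) (σ₁ (θ p)) (fderiv ℂ σ₁ (θ p) (1, 0)) (fderiv ℂ σ₁ (θ p) (0, 1)) := by
      show α (υ (θ' (θ p))) _ _ _ = _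
      rw [a11]
    rw [b11] at b10
    have b12 : (θ p).2 = p.2 * κ p := a9
    rw [b12] at b10
    rw [b9, b7, ← b10]
    show _ = dt p / κ p * _
    rw [hdt]
    field_simp
  -- the points of `Zs`
  filter_upwards [key.eventually_nhds, hG.eventually_analyticAt, zs_thin hΛ hbad hX h.tor h.nonconst hD hcV, hσ.σ_an.eventually_analyticAt,
    hυ.eventually_analyticAt, hυu.eventually_nhds, hσD.eventually_nhds, hσ.σ_mem.eventually_nhds] with p k1 k2 k3 k4 k5 k6 k7 k8 hp2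
  have k9 : ∀ᶠ y : ℂ × ℂ in 𝓝 p, y.2 ≠ 0 := continuous_snd.continuousAt.eventually_ne hp2
  have k10 : AnalyticAt ℂ (fun y => α'.toFun (υ y) (σ y) (fderiv ℂ σ y (1, 0)) (fderiv ℂ σ y (0, 1))) p := by
    refine α'.analytic σ υ p k4 k5 ?_
    filter_upwards [k6, k7, k8, k9] with y m1 m2 m3 m4
    exact ⟨⟨m3, fun h1 => m4 (m2.1 h1)⟩, m1⟩
  have k11 : Tendsto (fun y : ℂ × ℂ => y.2 * α'.toFun (υ y) (σ y) (fderiv ℂ σ y (1, 0)) (fderiv ℂ σ y (0, 1))) (𝓝 p)
      (𝓝 (p.2 * α'.toFun (υ p) (σ p) (fderiv ℂ σ p (1, 0)) (fderiv ℂ σ p (0, 1)))) :=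
    (continuous_snd.continuousAt (x := p)).tendsto.mul k10.continuousAt.tendsto
  refine tendsto_nhds_unique_of_frequently_eq k11 k2.continuousAt.tendsto ?_
  exact (k3.and_eventually k1).mono fun y hy => hy.2 hy.1

end Pool.Agent.H17L

end

section

/-!
# H17L FormA: transport to a Euclidean space, extension of the form

`L : V ≃L[ℂ] EN M`, `X' = L.symm ⁻¹' X`, `D' = L.symm ⁻¹' D`, `u' x = u (L.symm x)`, `D₀ = L.symm ⁻¹' Zs X D Λ u B` (closed in `X'` by `zs_closed`, invariant under scaling, nowhere dense by `zs_thin`).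

The form on `X' \ D₀`: `toFun z x v w = α z (L.symm x) (L.symm v) (L.symm w)`; model `tformN` in H17N/BaseA.lean (with `X \ Zs` in place of `X`; `tan_transport`).  `exists_ext`: `H18.LU.tform_extend` with `D₀`, `D'`: for `x ∈ D₀`, `x ∉ D'`: `h.log` at `L.symm x ∈ X \ D`: first alternative (in the second one
`L.symm x = σ 0 ∈ D`), chart `L ∘ σ` (`germ_transport`), any lift `υ` (`tor.loc`), for `l ∈ Λ` the lift `υ + l`; nowhere dense by `zs_thin`.
-/

set_option autoImplicit false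

open Topology Filter

namespace Pool.Agent.H17L

attribute [-instance] ProperSMul.toContinuousSMul

open Pool.Agent.H17BP (Surface IsChart Tan Pr HolP ResN)
open Pool.Agent.H36.BP (EN isCone_transport germ_transport tan_transport)
open Pool.Agent.H62.EF (Lat exists_chart_of_germ)
open Pool.Agent.H62.EL (TForm Per VanZero Thin BadSet)
open Pool.Agent.H18.LU (EBase LogP LSec)
open Pool.Agent.H17N (TMap LU RU TF NonConst ThinF FibB HSec)

variable {V : Type} [NormedAddCommGroup V] [NormedSpace ℂ V] [FiniteDimensional ℂ V] {X D : Set V} {Λ Γ : AddSubgroup ℂ} {u : V → ℂ}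
  {B : Set ℂ} {α : ℂ → V → V → V → ℂ} {δ : ℝ} {M : ℕ}

theorem exists_ext (L : V ≃L[ℂ] EN M) (hΛ : Lat Λ) (hbad : BadSet B Λ δ) (h : DData X D Λ Γ u B α) :
    ∃ α' : TForm ((L.symm ⁻¹' X : Set (EN M)) \ (L.symm ⁻¹' D : Set (EN M))) Λ (fun x => u (L.symm x)), Agr L X D (Zs X D Λ u B) α α' := by
  have hcone : Pool.Agent.H14.PP.IsCone (L.symm ⁻¹' X : Set (EN M)) := isCone_transport L h.surf
  have hcharts : Pool.Agent.H62.EF.Charts (L.symm ⁻¹' X : Set (EN M)) := by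
    intro x hx
    obtain ⟨σ, τ, hc, hx0⟩ := h.surf.chart (L.symm x) hx
    have hg := germ_transport L hc
    obtain ⟨χ, h1, h2⟩ := exists_chart_of_germ hcone hg
    have h3 : L (σ 0) = x := by rw [hx0, ContinuousLinearEquiv.apply_symm_apply]
    rw [h3] at h1 h2
    exact ⟨χ, h1, h2⟩
  have htor : Pool.Agent.H62.EF.TorusMap (L.symm ⁻¹' X : Set (EN M)) Λ (fun x => u (L.symm x)) := by
    constructor
    · intro x hx c hc
      have h1 := h.tor.smul (L.symm x) hx c hc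
      show u (L.symm (c • x)) - u (L.symm x) ∈ Λ
      rw [map_smul]
      exact h1
    · intro x hx
      obtain ⟨v, hv, hv'⟩ := h.tor.loc (L.symm x) hx
      refine ⟨fun y => v (L.symm y), ?_, ?_⟩
      · exact AnalyticAt.comp (g := v) (f := fun y : EN M => L.symm y) hv
          ((L.symm : EN M →L[ℂ] V).analyticAt x)
      · have h3 : Tendsto (fun y : EN M => L.symm y) (𝓝 x) (𝓝 (L.symm x)) := L.symm.continuous.tendsto x
        filter_upwards [h3.eventually hv'] with y hy hyX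
        exact hy hyX
  have hsub : Zs X D Λ u B ⊆ X := by
    rintro x (hx | hx)
    · exact h.curve.sub hx
    · exact hx.1
  have hZs : ∀ x ∈ Zs X D Λ u B, ∀ c : ℂ, c ≠ 0 → c • x ∈ Zs X D Λ u B := by
    rintro x (hx | ⟨hx, b, hb, hub⟩) c hc
    · exact Or.inl (h.curve.smul x hx c hc)
    · refine Or.inr ⟨h.surf.smul x hx c hc, b, hb, ?_⟩
      have h1 := Λ.add_mem (h.tor.smul x hx c hc) hub
      have h2 : u (c • x) - u x + (u x - b) = u (c • x) - b := by ring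
      rwa [h2] at h1
  have htend : ∀ x : EN M, Tendsto (fun y : EN M => L.symm y) (𝓝 x) (𝓝 (L.symm x)) := fun x => L.symm.continuous.tendsto x
  obtain ⟨α', hα'⟩ := Pool.Agent.H18.LU.tform_extend (X := (L.symm ⁻¹' X : Set (EN M))) (D := (L.symm ⁻¹' D : Set (EN M))) (Λ := Λ)
    (u := fun x => u (L.symm x)) hcone.ocone hcharts hΛ.dsc htor (D₀ := (L.symm ⁻¹' Zs X D Λ u B : Set (EN M)))
    (fun x hx => Or.inl hx) (fun x hx => hsub hx)
    (fun x hx c hc => by
      show L.symm (c • x) ∈ Zs X D Λ u B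
      rw [map_smul]
      exact hZs _ hx c hc)
    (fun x hx c hc => by
      show L.symm (c • x) ∈ D
      rw [map_smul]
      exact h.curve.smul _ hx c hc)
    (fun x hx hxZ => (htend x).eventually (zs_closed hbad h.tor h.curve hx hxZ))
    (fun x hx hxD => (htend x).eventually (h.curve.closed _ hx hxD))
    (tformL L h) (fun x hx hxD => by
      have hxX : L.symm x ∈ X := hsub hx
      obtain ⟨σ, τ, hc, hσ0, hlog⟩ := h.log (L.symm x) hxX
      have hlog' : ∀ υ, Lf Λ u σ υ → ∃ g, AnalyticAt ℂ g 0 ∧ ∀ᶠ p in 𝓝 (0 : ℂ × ℂ), σ p ∉ Zs X D Λ u B → cf α υ σ p = g p := by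
        rcases hlog with hlog | hlog
        · exact hlog.2
        · exfalso
          have h1 := hlog.1.self_of_nhds
          have h2 : σ 0 ∈ D := h1.2 rfl
          rw [hσ0] at h2
          exact hxD h2
      obtain ⟨v, hv, hv'⟩ := h.tor.loc (L.symm x) hxX
      rw [← hσ0] at hv hv'
      have hυ : AnalyticAt ℂ (fun p => v (σ p)) 0 := AnalyticAt.comp (g := v) (f := σ) hv hc.σ_an
      have hυl : ∀ᶠ p in 𝓝 (0 : ℂ × ℂ), u (σ p) - v (σ p) ∈ Λ := by
        filter_upwards [hc.σ_an.continuousAt.eventually hv', hc.σ_mem] with p hp hpX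
        exact hp hpX
      refine ⟨fun p => L (σ p), fun y => τ (L.symm y), fun p => v (σ p), germ_transport L hc, ?_, hυ, ?_, ?_, ?_⟩
      · show L (σ 0) = x
        rw [hσ0, ContinuousLinearEquiv.apply_symm_apply]
      · filter_upwards [hυl] with p hp
        show u (L.symm (L (σ p))) - v (σ p) ∈ Λ
        rwa [ContinuousLinearEquiv.symm_apply_apply]
      · filter_upwards [zs_thin hΛ hbad h.surf h.tor h.nonconst h.curve hc] with p hp
        refine hp.mono fun q hq => ?_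
        show L.symm (L (σ q)) ∉ Zs X D Λ u B
        rwa [ContinuousLinearEquiv.symm_apply_apply]
      · intro l hl
        obtain ⟨g, hg, hg'⟩ := hlog' (fun p => v (σ p) + l) ⟨hυ.add analyticAt_const, by
          filter_upwards [hυl] with p hp
          have h1 := Λ.sub_mem hp hl
          have h2 : u (σ p) - v (σ p) - l = u (σ p) - (v (σ p) + l) := by ring
          rwa [h2] at h1⟩
        refine ⟨g, hg, ?_⟩
        filter_upwards [hg', hc.σ_an.eventually_analyticAt] with p hp hpa hpZ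
        have hpZ' : σ p ∉ Zs X D Λ u B := by
          intro h1
          apply hpZ
          show L.symm (L (σ p)) ∈ Zs X D Λ u B
          rwa [ContinuousLinearEquiv.symm_apply_apply]
        have h3 : HasFDerivAt (fun p => L (σ p)) ((L : V →L[ℂ] EN M).comp (fderiv ℂ σ p)) p :=
          (L : V →L[ℂ] EN M).hasFDerivAt.comp p hpa.differentiableAt.hasFDerivAt
        rw [h3.fderiv, ← hp hpZ']
        show α (v (σ p) + l) (L.symm (L (σ p))) (L.symm (L (fderiv ℂ σ p (1, 0)))) (L.symm (L (fderiv ℂ σ p (0, 1)))) =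
          α (v (σ p) + l) (σ p) (fderiv ℂ σ p (1, 0)) (fderiv ℂ σ p (0, 1))
        rw [ContinuousLinearEquiv.symm_apply_apply, ContinuousLinearEquiv.symm_apply_apply, ContinuousLinearEquiv.symm_apply_apply])
  exact ⟨α', fun z x hx hxZ v w => hα' z x hx hxZ v w⟩

end Pool.Agent.H17L

end

section

/-!
# H17L BaseLB: transport to a Euclidean space, the form
-/

set_option autoImplicit false

open Topology Filter

namespace Pool.Agent.H17L

attribute [-instance] ProperSMul.toContinuousSMul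

open Pool.Agent.H17BP (Surface IsChart Tan Pr HolP ResN)
open Pool.Agent.H36.BP (EN isCone_transport germ_transport tan_transport)
open Pool.Agent.H62.EF (Lat exists_chart_of_germ)
open Pool.Agent.H62.EL (TForm Per VanZero Thin BadSet)
open Pool.Agent.H18.LU (EBase LogP LSec)
open Pool.Agent.H17N (TMap LU RU TF NonConst ThinF FibB HSec)

variable {V : Type} [NormedAddCommGroup V] [NormedSpace ℂ V] [FiniteDimensional ℂ V] {X D : Set V} {Λ Γ : AddSubgroup ℂ} {u : V → ℂ}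
  {B : Set ℂ} {α : ℂ → V → V → V → ℂ} {δ : ℝ} {M : ℕ}

theorem exists_formL (L : V ≃L[ℂ] EN M) (hΛ : Lat Λ) (hle : Γ ≤ Λ) (hbad : BadSet B Λ δ) (h0 : ∀ b ∈ B, 4 * δ ≤ ‖b‖) (h : DData X D Λ Γ u B α) :
    ∃ α' : TForm ((L.symm ⁻¹' X : Set (EN M)) \ (L.symm ⁻¹' D : Set (EN M))) Λ (fun x => u (L.symm x)),
      LogP α' ∧ Per α' Γ ∧ VanZero α' ∧ Thin α' := by
  obtain ⟨α', hα⟩ := exists_ext L hΛ hbad h
  exact ⟨α', logP_ext L hΛ hbad h hα, per_ext L hΛ hle hbad h hα, van_ext L hΛ hbad h0 h hα, thin_ext L hΛ hbad h hα⟩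

end Pool.Agent.H17L

end

section

/-!
# H19E LimB: finitely many limit sections are doubly periodic and degenerate
-/

set_option autoImplicit false

open Topology Filter MvPolynomial Metric

noncomputable section

namespace Pool.Agent.H19E

attribute [-instance] ProperSMul.toContinuousSMul

open Pool.Agent.H17 (PN VanishesAt HolomorphicInto ZariskiClosedIn)
open Pool.Agent.H62.FC (Homog)
open Pool.Agent.H62.EF (MN pr Lat TorusMap Sec pr_smul pr_eq_iff continuousAt_pr sec_trans)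
open Pool.Agent.H13.SM (cone)
open Pool.Agent.H36.BP (EN fs wd wd_cont)
open Pool.Agent.H17LG.Variety (FunField)
open Pool.Agent.H17EF (projVar IsHolomorphicMap coneE uE LE prP prP_mk mk_symm prP_injective LE_ne_zero mem_coneE mk_mem_projVar exists_lift lat_of_basis ordTwo_symm ordTwo_of_fs exists_form_of_periodic IsPeriod)
open Pool.Agent.H17G (fs_eq_of_pr)
open Pool.Agent.H18.LU (LSec SecAt secAt_add)

variable {N : ℕ} {X D : Set (EN N)} {Λ : AddSubgroup ℂ} {u : EN N → ℂ}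

theorem lsec_add {f : ℂ → MN N} (hf : f ∈ LSec X D Λ u) {l : ℂ} (hl : l ∈ Λ) : (fun z => f (z + l)) ∈ LSec X D Λ u := by
  obtain ⟨⟨F, hF, hFf⟩, Z, hZc, hZd, hap⟩ := hf
  have hc : Continuous (fun z : ℂ => z + l) := continuous_id.add continuous_const
  refine ⟨⟨fun z => F (z + l), sec_trans hF hl, fun z => hFf (z + l)⟩, (fun z => z + l) ⁻¹' Z, hZc.preimage hc, ?_, ?_⟩
  · intro z
    have h1 : Tendsto (fun z : ℂ => z + l) (𝓝[≠] z) (𝓝[≠] (z + l)) :=
      tendsto_nhdsWithin_of_tendsto_nhds_of_eventually_within _ (hc.continuousAt.mono_left nhdsWithin_le_nhds)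
        (by filter_upwards [self_mem_nhdsWithin] with w hw; exact fun e => hw (add_right_cancel e))
    exact h1.eventually (hZd (z + l))
  · intro R ε hε K hK hKZ
    obtain ⟨G, hG1, hG2⟩ := hap (R + ‖l‖) ε hε ((fun z => z + l) '' K) (hK.image hc) (by
      rintro _ ⟨z, hz, rfl⟩
      exact hKZ z hz)
    refine ⟨fun z => G (z + l), fun z hz => (secAt_add hl).2 (hG1 _ ?_), fun z hz hzR => hG2 _ ⟨z, hz, rfl⟩ ?_⟩
    · rw [mem_closedBall_zero_iff] at hz ⊢
      exact (norm_add_le _ _).trans (by linarith)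
    · exact (norm_add_le _ _).trans (by linarith)

theorem lsec_period (hfin : (LSec X D Λ u).Finite) {f : ℂ → MN N} (hf : f ∈ LSec X D Λ u) {l : ℂ} (hl : l ∈ Λ) :
    ∃ m : ℕ, 1 ≤ m ∧ ∀ z, f (z + (m : ℂ) * l) = f z := by
  have hmem : ∀ k : ℕ, (fun z => f (z + (k : ℂ) * l)) ∈ LSec X D Λ u := by
    intro k
    refine lsec_add hf ?_
    have : (k : ℂ) * l = k • l := by simp
    rw [this]
    exact Λ.nsmul_mem hl k
  have hfin' : Finite (LSec X D Λ u) := hfin
  obtain ⟨i, j, hij, he⟩ := Finite.exists_ne_map_eq_of_infinite (fun k : ℕ => (⟨_, hmem k⟩ : LSec X D Λ u))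
  have he' : (fun z => f (z + (i : ℂ) * l)) = fun z => f (z + (j : ℂ) * l) := congrArg Subtype.val he
  have hmain : ∀ i j : ℕ, i < j → (fun z => f (z + (i : ℂ) * l)) = (fun z => f (z + (j : ℂ) * l)) →
      ∃ m : ℕ, 1 ≤ m ∧ ∀ z, f (z + (m : ℂ) * l) = f z := by
    intro i j hij he
    refine ⟨j - i, by omega, fun z => ?_⟩
    have h1 : f (z - (i : ℂ) * l + (i : ℂ) * l) = f (z - (i : ℂ) * l + (j : ℂ) * l) := congrFun he (z - (i : ℂ) * l)
    rw [show z - (i : ℂ) * l + (i : ℂ) * l = z by ring] at h1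
    rw [h1]
    congr 1
    push_cast [Nat.cast_sub hij.le]
    ring
  rcases lt_or_gt_of_ne hij with h | h
  · exact hmain i j h he'
  · exact hmain j i h he'.symm

private theorem fs_continuous {F : ℂ → EN N} (hFd : Differentiable ℂ F) (hF0 : ∀ z, F z ≠ 0) : Continuous fun z => fs (F z) (deriv F z) := by
  have h1 : Continuous (deriv F) := continuous_iff_continuousAt.2 fun z => (hFd.analyticAt z).deriv.continuousAt
  have h2 : Continuous (fun z => (F z, deriv F z)) := hFd.continuous.prodMk h1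
  have h3 := (wd_cont (N := N)).comp h2
  have h4 : Continuous fun z => ‖F z‖ ^ 2 := hFd.continuous.norm.pow 2
  have h5 : ∀ z, ‖F z‖ ^ 2 ≠ 0 := fun z => pow_ne_zero 2 (norm_ne_zero_iff.2 (hF0 z))
  exact Continuous.div h3 h4 h5

/-- a doubly periodic curve has bounded derivative -/
theorem fs_bound_of_periods {F : ℂ → EN N} (hF : Differentiable ℂ F) (h0 : ∀ z, F z ≠ 0) {w : Fin 2 → ℂ} (hw : LinearIndependent ℝ w)
    (hper : ∀ i z, pr (F (z + w i)) = pr (F z)) : ∃ L : ℝ, ∀ z, fs (F z) (deriv F z) ≤ L := by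
  have hlat := lat_of_basis hw
  obtain ⟨R, hR, hco⟩ := hlat.cocompact
  -- all the elements of the lattice are periods
  let Λ' : AddSubgroup ℂ :=
    { carrier := {l | ∀ z, pr (F (z + l)) = pr (F z)}
      add_mem' := fun {a b} ha hb z => by
        rw [← add_assoc]
        exact (hb (z + a)).trans (ha z)
      zero_mem' := fun z => by rw [add_zero]
      neg_mem' := fun {a} ha z => by
        have h1 := ha (z + -a)
        rw [neg_add_cancel_right] at h1
        exact h1.symm }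
  have hle : AddSubgroup.closure (Set.range w) ≤ Λ' := by
    rw [AddSubgroup.closure_le]
    rintro _ ⟨i, rfl⟩
    exact hper i
  have hcont := fs_continuous hF h0
  obtain ⟨B, hB⟩ := (isCompact_closedBall (0 : ℂ) R).bddAbove_image hcont.continuousOn
  refine ⟨B, fun z => ?_⟩
  obtain ⟨l, hl, hlz⟩ := hco z
  have h3 := hB ⟨_, mem_closedBall_zero_iff.2 hlz, rfl⟩
  have htr : deriv (fun w => F (w + l)) (z - l) = deriv F z := by
    rw [deriv_comp_add_const]
    congr 1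
    ring
  have h4 : fs (F (z - l)) (deriv F (z - l)) = fs (F z) (deriv F z) := by
    have h5 := fs_eq_of_pr (F := fun w => F (w + l)) (G := F) (z := z - l)
      ((hF.comp (differentiable_id.add_const _)).analyticAt _) (hF.analyticAt _) (h0 _) (h0 _)
      (Filter.Eventually.of_forall fun w => hle hl w)
    rw [htr] at h5
    simp only [sub_add_cancel] at h5
    exact h5.symm
  rw [← h4]
  exact h3

/-- the limit sections are algebraically degenerate -/
theorem lsec_form {P : Ideal (MvPolynomial (Fin (N + 1)) ℂ)} [P.IsPrime] {z : Fin 2 → FunField P} (hz : IsTranscendenceBasis ℂ z)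
    {w : Fin 2 → ℂ} (hw : LinearIndependent ℝ w)
    (hfin : (LSec (coneE P) D (AddSubgroup.closure (Set.range w)) u).Finite) {f : ℂ → MN N}
    (hf : f ∈ LSec (coneE P) D (AddSubgroup.closure (Set.range w)) u) :
    ∃ (Q : MvPolynomial (Fin (N + 1)) ℂ) (d : ℕ), Q.IsHomogeneous d ∧ Q ∉ P ∧
      ∀ (z : ℂ) (x : EN N), (LE N).symm x ≠ 0 → pr x = f z → eval ((LE N).symm x) Q = 0 := by
  have hmem : ∀ i, w i ∈ AddSubgroup.closure (Set.range w) := fun i => AddSubgroup.subset_closure ⟨i, rfl⟩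
  obtain ⟨⟨F, hF, hFf⟩, -⟩ := id hf
  choose m hm hper using fun i => lsec_period hfin hf (hmem i)
  have h0E : ∀ z, (LE N).symm (F z) ≠ 0 := fun z => (hF.2.1 z).1
  have h0 : ∀ z, F z ≠ 0 := fun z h => h0E z (by rw [h, map_zero])
  have hind : LinearIndependent ℝ ![(m 0 : ℂ) * w 0, (m 1 : ℂ) * w 1] := by
    rw [LinearIndependent.pair_iff]
    intro a b hab
    have hww : LinearIndependent ℝ ![w 0, w 1] := by
      have h2 : ![w 0, w 1] = w := by
        funext i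
        fin_cases i <;> rfl
      rw [h2]
      exact hw
    have h1 := LinearIndependent.pair_iff.1 hww (a * m 0) (b * m 1) (by
        simp only [Complex.real_smul] at hab ⊢
        push_cast
        linear_combination hab)
    have hm0 : (m 0 : ℝ) ≠ 0 := by exact_mod_cast (by have := hm 0; omega : m 0 ≠ 0)
    have hm1 : (m 1 : ℝ) ≠ 0 := by exact_mod_cast (by have := hm 1; omega : m 1 ≠ 0)
    exact ⟨(mul_eq_zero.1 h1.1).resolve_right hm0, (mul_eq_zero.1 h1.2).resolve_right hm1⟩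
  have hperF : ∀ i z, pr (F (z + (m i : ℂ) * w i)) = pr (F z) := by
    intro i z
    rw [hFf, hFf]
    exact hper i z
  obtain ⟨L, hL⟩ := fs_bound_of_periods hF.1 h0 hind (by
    intro i z
    fin_cases i
    · exact hperF 0 z
    · exact hperF 1 z)
  have hord := ordTwo_symm (ordTwo_of_fs hF.1 h0 hL)
  have hd : Differentiable ℂ fun z => (LE N).symm (F z) := (LE N).symm.differentiable.comp hF.1
  have hP : ∀ i, IsPeriod (fun z => (LE N).symm (F z)) ((m i : ℂ) * w i) := by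
    intro i z
    obtain ⟨c, hc, he⟩ := (pr_eq_iff (h0 _) (h0 _)).1 (hperF i z)
    refine ⟨c, hc, ?_⟩
    show (LE N).symm (F (z + (m i : ℂ) * w i)) = c • (LE N).symm (F z)
    rw [he, map_smul]
  obtain ⟨Q, d, hQ, hQP, hQF⟩ := exists_form_of_periodic hz hd h0E hord (fun z Q hQ => (hF.2.1 z).2 Q hQ) hind (hP 0) (hP 1)
  refine ⟨Q, d, hQ, hQP, fun z x hx hxz => ?_⟩
  have hx0 : x ≠ 0 := fun h => hx (by rw [h, map_zero])
  rw [← hFf] at hxz
  obtain ⟨c, hc, he⟩ := (pr_eq_iff hx0 (h0 z)).1 hxz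
  rw [he, map_smul, Pool.Agent.H17EF.eval_smul_form hQ, hQF z, mul_zero]

end Pool.Agent.H19E

end
end

section

/-!
# H19E LimC: the data of the fibration off the bad fibres
-/

set_option autoImplicit false

open Topology Filter MvPolynomial Metric

noncomputable section

namespace Pool.Agent.H19E

attribute [-instance] ProperSMul.toContinuousSMul

open Pool.Agent.H17 (PN VanishesAt HolomorphicInto ZariskiClosedIn)
open Pool.Agent.H62.FC (Homog)
open Pool.Agent.H62.EF (MN pr Lat TorusMap Sec)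
open Pool.Agent.H62.EL (BadSet)
open Pool.Agent.H14.PP (IsCone)
open Pool.Agent.H13.SM (cone)
open Pool.Agent.H17BP (Surface)
open Pool.Agent.H36.BP (EN fs wd isCone_transport germ_transport)
open Pool.Agent.H17EF (projVar IsHolomorphicMap coneE uE LE torusMap)
open Pool.Agent.H17N (FibB)
open Pool.Agent.H17L (CurveD cnD TrV trv_hor)
open Pool.Agent.H18.LU (LFib OCone Dsc Nb part HorAt nb_add isClosed_nb)

variable {N : ℕ} {X : Set (EN N)} {Λ : AddSubgroup ℂ} {u : EN N → ℂ}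

/-- the part of a closed cone over a closed part of the base is closed -/
theorem isClosed_part (hX : IsCone X) (hu : TorusMap X Λ u) (hΛ : Dsc Λ) (R : ℝ) : IsClosed (insert 0 (part X Λ u R)) := by
  rw [← closure_subset_iff_isClosed]
  intro x hx
  by_cases hx0 : x = 0
  · rw [hx0]
    exact Set.mem_insert _ _
  refine Set.mem_insert_of_mem _ ?_
  have hxX : x ∈ X := by
    have h1 : x ∈ closure (insert 0 X) := closure_mono (Set.insert_subset_insert fun y hy => hy.1) hx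
    rw [hX.closed.closure_eq] at h1
    exact h1.resolve_left hx0
  refine ⟨hxX, ?_⟩
  obtain ⟨v, hv, hvu⟩ := hu.loc x hxX
  have h1 : v x ∈ Nb Λ R := by
    by_contra hcon
    have hev : ∀ᶠ y in 𝓝 x, v y ∉ Nb Λ R := hv.continuousAt.eventually ((isClosed_nb hΛ R).isOpen_compl.mem_nhds hcon)
    have hne : ∀ᶠ y in 𝓝 x, y ≠ 0 := isOpen_compl_singleton.mem_nhds hx0
    obtain ⟨y, hy, hy1, hy2, hy3⟩ := ((mem_closure_iff_frequently.1 hx).and_eventually (hev.and (hvu.and hne))).exists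
    rcases hy with hy | hy
    · exact hy3 hy
    · refine hy1 ?_
      have h2 := hy2 hy.1
      have h3 : v y = u y + -(u y - v y) := by ring
      rw [h3]
      exact (nb_add (Λ.neg_mem h2)).2 hy.2
  have h2 := hvu.self_of_nhds hxX
  have h3 : u x = v x + (u x - v x) := by ring
  rw [h3]
  exact (nb_add h2).2 h1

theorem lfib_of {P : Ideal (MvPolynomial (Fin (N + 1)) ℂ)} (hP : Homog P) (hS : Surface (cone P)) (hΛ : Lat Λ) {u : PN N → ℂ ⧸ Λ}
    (hu : IsHolomorphicMap (projVar P) Λ u) {D : Set (PN N)} (hD : CurveD (cone P) (cnD D) Λ (fun x => uE Λ u (LE N x)))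
    {B : Set ℂ} {δ : ℝ} {c₀ : ℂ} (hbad : BadSet {b | b + c₀ ∈ B} Λ δ) (h0 : ∀ b ∈ {b | b + c₀ ∈ B}, 4 * δ ≤ ‖b‖)
    (hgood : ∀ x ∈ cnD D, (∀ b ∈ B, uE Λ u (LE N x) - b ∉ Λ) → TrV (cone P) (cnD D) Λ (fun x => uE Λ u (LE N x)) x)
    (hfib : FibB (cone P \ cnD D) Λ (fun x => uE Λ u (LE N x)) B) :
    LFib (coneE P) ((LE N).symm ⁻¹' cnD D) Λ Λ (fun x => uE Λ u x - c₀) {b | b + c₀ ∈ B} δ := by
  have hcone := isCone_transport (LE N) hS
  have htor : TorusMap (coneE P) Λ (fun x => uE Λ u x - c₀) := by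
    have h1 := torusMap hP hu
    constructor
    · intro x hx c hc
      have h2 := h1.smul x hx c hc
      show uE Λ u (c • x) - c₀ - (uE Λ u x - c₀) ∈ Λ
      rwa [sub_sub_sub_cancel_right]
    · intro x hx
      obtain ⟨v, hv, hv'⟩ := h1.loc x hx
      refine ⟨fun y => v y - c₀, hv.sub analyticAt_const, ?_⟩
      filter_upwards [hv'] with y hy hyX
      show uE Λ u y - c₀ - (v y - c₀) ∈ Λ
      rw [sub_sub_sub_cancel_right]
      exact hy hyX
  have hLE : ∀ x : EN N, (LE N) ((LE N).symm x) = x := fun x => (LE N).apply_symm_apply x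
  exact
  { cone := hcone.ocone
    closed := isClosed_part hcone htor hΛ.dsc
    charts := Pool.Agent.H17EF.charts hS
    tor := htor
    dsc := hΛ.dsc
    le := le_rfl
    cof := ⟨1, one_pos, fun l hl => ⟨l, hl, by simp⟩⟩
    bad := hbad
    zero := h0
    D_sub := fun x hx => hD.sub hx
    D_smul := fun x hx c hc => by
      show (LE N).symm (c • x) ∈ cnD D
      rw [map_smul]
      exact hD.smul _ hx c hc
    D_closed := fun x hx hxD => (LE N).symm.continuous.continuousAt.eventually (hD.closed _ hx hxD)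
    hor := by
      intro x hx hxb
      have h1 : ∀ b ∈ B, uE Λ u (LE N ((LE N).symm x)) - b ∉ Λ := by
        intro b hb hmem
        rw [hLE] at hmem
        refine hxb (b - c₀) ?_ ?_
        · show b - c₀ + c₀ ∈ B
          rwa [sub_add_cancel]
        · show uE Λ u x - c₀ - (b - c₀) ∈ Λ
          rwa [sub_sub_sub_cancel_right]
      obtain ⟨σ, τ, hc, hσ0, hA, hσu⟩ := trv_hor (hgood _ hx h1)
      refine ⟨fun p => LE N (σ p), fun y => τ ((LE N).symm y), germ_transport (LE N) hc, ?_, ?_, ?_⟩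
      · show LE N (σ 0) = x
        rw [hσ0, hLE]
      · filter_upwards [hσu] with p hp
        show uE Λ u (LE N (σ p)) - c₀ - (uE Λ u x - c₀ + p.1 ^ 1) ∈ Λ
        rw [hLE] at hp
        have h2 : uE Λ u (LE N (σ p)) - c₀ - (uE Λ u x - c₀ + p.1 ^ 1) = uE Λ u (LE N (σ p)) - (uE Λ u x + p.1) := by ring
        rw [h2]
        exact hp
      · filter_upwards [hA] with p hp
        show (LE N).symm (LE N (σ p)) ∈ cnD D ↔ p.2 = 0
        rw [ContinuousLinearEquiv.symm_apply_apply]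
        exact hp
    fib := by
      intro F hF hFX hFu hne
      obtain ⟨b, hb, hb'⟩ := hfib (fun z => (LE N).symm (F z)) (fun z => by
        refine ⟨fun z => (LE N).symm (F z), (((LE N).symm : EN N →L[ℂ] (Fin (N + 1) → ℂ)).analyticAt _).comp (hF.analyticAt z), ?_,
          Eventually.of_forall fun w => ⟨1, one_ne_zero, (one_smul _ _).symm⟩⟩
        exact (hFX z).1.1) (fun z => ⟨(hFX z).1, (hFX z).2⟩) (fun z w => by
          show uE Λ u (LE N ((LE N).symm (F z))) - uE Λ u (LE N ((LE N).symm (F w))) ∈ Λ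
          rw [hLE, hLE]
          have h1 := hFu z w
          rwa [sub_sub_sub_cancel_right] at h1) (by
        obtain ⟨z, w, hzw⟩ := hne
        refine ⟨z, w, ?_⟩
        rintro ⟨c, -, hc⟩
        apply hzw c
        have h1 := congrArg (LE N) hc
        rwa [map_smul, hLE, hLE] at h1)
      refine ⟨b - c₀, ?_, ?_⟩
      · show b - c₀ + c₀ ∈ B
        rwa [sub_add_cancel]
      · show uE Λ u (F 0) - c₀ - (b - c₀) ∈ Λ
        rw [sub_sub_sub_cancel_right]
        have h2 : uE Λ u (LE N ((LE N).symm (F 0))) - b ∈ Λ := hb'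
        rwa [hLE] at h2 }

end Pool.Agent.H19E

end
end

section

/-!
# H17L BadL: the set of the bad values (proof of helper17, formalised by helper35)

`B = B₀ ∪ {c | ∃ x ∈ X, u x - c ∈ Λ ∧ ¬ RU X Λ u x 0} ∪ {c | ∃ x ∈ D, u x - c ∈ Λ ∧ ¬ TrV X D Λ u x}`.  Invariance is clear.  By `Pool.Agent.EG.separated` it is enough that every `c` has a neighbourhood without other points of `B`.  For `B₀`: `hsep`.  For the second set: otherwise there are `c_n → c`, `c_n ≠ c`, `x_n ∈ X` with `u (x_n) - c_n ∈ Λ`, `¬ RU X Λ u (x_n) 0`; we may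
take `‖x_n‖ = 1` (`RU.pr`, `tor.smul`), and after passing to a subsequence `x_n → x`, `x ∈ X` (`X` closed outside `0`, `‖x‖ = 1`; `V` is finite dimensional).  With a local lift `v` of `u` at `x` (`tor.loc`): `v (x_n) - c_n ∈ Λ`, `v (x_n) → v x`, so (discreteness) `v (x_n) - c_n = λ` is constant for large `n` and `v x - c = λ`, so `u x - c ∈ Λ`.
`exists_ru`, `RU.near` at `x`: for large `n` `Pr (x_n) x`, so `u (x_n) - u x ∈ Λ`, so `c_n - c ∈ Λ`, tends to `0`: `c_n = c`.  Contradiction.  Third set: the same with `D` (closed in `X`: `CurveD.closed`), `TrV.near`, and `TrV` is invariant under scaling (chart `c • σ`).  A formulation with filters or ultrafilters may be shorter than sequences.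
-/

set_option autoImplicit false

open Topology Filter

namespace Pool.Agent.H17L

attribute [-instance] ProperSMul.toContinuousSMul

open Pool.Agent.H17BP (Surface IsChart Tan Pr HolP ResN)
open Pool.Agent.H62.EF (Lat)
open Pool.Agent.H17N (TMap LU RU TF NonConst ThinF FibB HSec)

variable {V : Type} [NormedAddCommGroup V] [NormedSpace ℂ V] [FiniteDimensional ℂ V] {X D : Set V} {Λ : AddSubgroup ℂ} {u : V → ℂ}

omit [FiniteDimensional ℂ V] in
private theorem badL_pr (hu : TMap X Λ u) {x y : V} (hy : y ∈ X) (h : Pr x y) : u x - u y ∈ Λ := by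
  obtain ⟨c, hc, rfl⟩ := h
  exact hu.smul y hy c hc

/-- near every complex number there is no other point of a uniformly separated set -/
private theorem badL_sep {S : Set ℂ} {δ : ℝ} (hδ : 0 < δ) (hS : ∀ b ∈ S, ∀ b' ∈ S, b ≠ b' → δ ≤ ‖b - b'‖) (w : ℂ) :
    ∃ ε : ℝ, 0 < ε ∧ ∀ s ∈ S, ‖s - w‖ < ε → s = w := by
  by_cases h : ∃ s ∈ S, ‖s - w‖ < δ / 2
  · obtain ⟨s, hs, hsw⟩ := h
    have key : ∀ t ∈ S, ‖t - w‖ < δ / 2 → t = s := by
      intro t ht htw
      by_contra hne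
      have h1 := hS t ht s hs hne
      have h2 : ‖t - s‖ ≤ ‖t - w‖ + ‖s - w‖ := by
        have h3 : t - s = (t - w) - (s - w) := by ring
        rw [h3]
        exact norm_sub_le _ _
      linarith
    by_cases hsw' : s = w
    · exact ⟨δ / 2, by positivity, fun t ht h1 => (key t ht h1).trans hsw'⟩
    · have hpos : 0 < ‖s - w‖ := norm_pos_iff.2 (sub_ne_zero.2 hsw')
      refine ⟨‖s - w‖, hpos, fun t ht h1 => ?_⟩
      have h2 := key t ht (h1.trans hsw)
      rw [h2] at h1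
      exact absurd h1 (lt_irrefl _)
  · push Not at h
    exact ⟨δ / 2, by positivity, fun t ht h1 => absurd h1 (not_lt.2 (h t ht))⟩

private theorem badL_lat {δ : ℝ} (h : ∀ l ∈ Λ, ‖l‖ < δ → l = 0) : ∀ b ∈ (Λ : Set ℂ), ∀ b' ∈ (Λ : Set ℂ), b ≠ b' → δ ≤ ‖b - b'‖ := by
  intro b hb b' hb' hne
  by_contra h1
  exact hne (sub_eq_zero.1 (h _ (Λ.sub_mem hb hb') (not_le.1 h1)))

/-- the bad values of a closed cone are isolated, if the bad points are isolated in the projective space -/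
private theorem badL_iso (hΛ : Lat Λ) (hu : TMap X Λ u) {Y : Set V} (hYX : Y ⊆ X) (hY0 : (0 : V) ∉ Y) (hYs : ∀ x ∈ Y, ∀ c : ℂ, c ≠ 0 → c • x ∈ Y)
    (hYc : ∀ x ∈ closure Y, x ≠ 0 → x ∈ Y) {P : V → Prop} (hP : ∀ x ∈ Y, ∀ c : ℂ, c ≠ 0 → P (c • x) → P x)
    (hn : ∀ x ∈ Y, ∀ᶠ y in 𝓝 x, y ∈ Y → ¬ Pr y x → P y) (c : ℂ) :
    ∃ ε : ℝ, 0 < ε ∧ ∀ c' : ℂ, (∃ x ∈ Y, u x - c' ∈ Λ ∧ ¬ P x) → ‖c' - c‖ < ε → c' = c := by
  obtain ⟨δ, hδ, hdis⟩ := hΛ.discrete
  have : ProperSpace V := FiniteDimensional.proper ℂ V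
  have hK : IsCompact (closure Y ∩ Metric.sphere (0 : V) 1) := (isCompact_sphere (0 : V) 1).inter_left isClosed_closure
  have hev : ∀ᶠ c' in 𝓝 c, ∀ z ∈ closure Y ∩ Metric.sphere (0 : V) 1, z ∈ Y → u z - c' ∈ Λ → ¬ P z → c' = c := by
    refine hK.eventually_forall_of_forall_eventually (P := fun c' z => z ∈ Y → u z - c' ∈ Λ → ¬ P z → c' = c) ?_
    intro y hy
    have hy0 : y ≠ 0 := by
      have h1 := hy.2
      rw [mem_sphere_zero_iff_norm] at h1
      intro h2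
      rw [h2, norm_zero] at h1
      exact zero_ne_one h1
    have hyY : y ∈ Y := hYc y hy.1 hy0
    obtain ⟨v, hv, hvl⟩ := hu.loc y (hYX hyY)
    obtain ⟨ε, hε, hεw⟩ := badL_sep hδ (badL_lat hdis) (v y - c)
    have t1 : Tendsto (fun z : ℂ × V => z.1) (𝓝 (c, y)) (𝓝 c) := continuous_fst.tendsto _
    have t2 : Tendsto (fun z : ℂ × V => z.2) (𝓝 (c, y)) (𝓝 y) := continuous_snd.tendsto _
    have t3 : Tendsto (fun z : ℂ × V => v z.2 - z.1) (𝓝 (c, y)) (𝓝 (v y - c)) := (hv.continuousAt.tendsto.comp t2).sub t1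
    have e1 := t3.eventually (Metric.ball_mem_nhds (v y - c) hε)
    have e2 := t1.eventually (Metric.ball_mem_nhds c hδ)
    filter_upwards [e1, e2, t2.eventually hvl, t2.eventually (hn y hyY)] with z h1 h2 h3 h4 hzY hzc hzP
    have h5 : u z.2 - v z.2 ∈ Λ := h3 (hYX hzY)
    have h6 : v z.2 - z.1 ∈ Λ := by
      have h7 := Λ.sub_mem hzc h5
      have h8 : u z.2 - z.1 - (u z.2 - v z.2) = v z.2 - z.1 := by ring
      rwa [h8] at h7
    have h7 : v z.2 - z.1 = v y - c := hεw _ h6 (by rwa [dist_eq_norm] at h1)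
    have h8 : u y - c ∈ Λ := by
      have h9 := Λ.add_mem (hvl.self_of_nhds (hYX hyY)) (h7 ▸ h6)
      have h10 : u y - v y + (v y - c) = u y - c := by ring
      rwa [h10] at h9
    have h9 : Pr z.2 y := by
      by_contra h10
      exact hzP (h4 hzY h10)
    have h10 := badL_pr hu (hYX hyY) h9
    have h11 : z.1 - c ∈ Λ := by
      have h12 := Λ.sub_mem (Λ.add_mem h10 h8) hzc
      have h13 : u z.2 - u y + (u y - c) - (u z.2 - z.1) = z.1 - c := by ring
      rwa [h13] at h12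
    exact sub_eq_zero.1 (hdis _ h11 (by rwa [dist_eq_norm] at h2))
  obtain ⟨ε, hε, hball⟩ := Metric.eventually_nhds_iff.1 hev
  refine ⟨ε, hε, fun c' hc' hcc => ?_⟩
  obtain ⟨x, hx, hxc, hxP⟩ := hc'
  have hx0 : x ≠ 0 := fun h => hY0 (h ▸ hx)
  have hnx : ((‖x‖ : ℝ) : ℂ) ≠ 0 := by exact_mod_cast (norm_ne_zero_iff.2 hx0)
  have hne : ((‖x‖ : ℝ) : ℂ)⁻¹ ≠ 0 := inv_ne_zero hnx
  have hz : ((‖x‖ : ℝ) : ℂ)⁻¹ • x ∈ Y := hYs x hx _ hne
  have hnorm : ‖((‖x‖ : ℝ) : ℂ)⁻¹ • x‖ = 1 := by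
    rw [norm_smul, norm_inv, Complex.norm_real, norm_norm, inv_mul_cancel₀ (norm_ne_zero_iff.2 hx0)]
  refine hball (by rwa [dist_eq_norm]) _ ⟨subset_closure hz, by rw [mem_sphere_zero_iff_norm]; exact hnorm⟩ hz ?_ ?_
  · have h1 := Λ.add_mem (hu.smul x (hYX hx) _ hne) hxc
    have h2 : u (((‖x‖ : ℝ) : ℂ)⁻¹ • x) - u x + (u x - c') = u (((‖x‖ : ℝ) : ℂ)⁻¹ • x) - c' := by ring
    rwa [h2] at h1
  · exact fun h => hxP (hP x hx _ hne h)

omit [FiniteDimensional ℂ V] in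
private theorem badL_trv_scale (hX : Surface X) (hu : TMap X Λ u) (hD : CurveD X D Λ u) {x : V} {a : ℂ} (ha : a ≠ 0) (h : TrV X D Λ u (a • x)) :
    TrV X D Λ u x := by
  obtain ⟨σ, τ, g, hc, h0, hAD, hg, hd⟩ := h
  have hb : a⁻¹ ≠ 0 := inv_ne_zero ha
  refine ⟨fun p => a⁻¹ • σ p, fun y => τ (a⁻¹⁻¹ • y), g, hc.scale hX.smul hb, ?_, ?_, ⟨hg.1, hg.2.1, ?_⟩, hd⟩
  · show a⁻¹ • σ 0 = x
    rw [h0, smul_smul, inv_mul_cancel₀ ha, one_smul]
  · filter_upwards [hAD] with p hp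
    rw [← hp]
    constructor
    · intro h1
      have h2 := hD.smul _ h1 a ha
      rwa [smul_smul, mul_inv_cancel₀ ha, one_smul] at h2
    · intro h1
      exact hD.smul _ h1 _ hb
  · have hσ0 : σ 0 ∈ X := hc.σ_mem.self_of_nhds
    filter_upwards [hg.2.2, hc.σ_mem] with p hp1 hp2
    have h1 := hu.smul _ hp2 _ hb
    have h2 := hu.smul _ hσ0 _ hb
    have h3 := Λ.add_mem (Λ.sub_mem h1 h2) hp1
    have h4 : u (a⁻¹ • σ p) - u (σ p) - (u (a⁻¹ • σ 0) - u (σ 0)) + (u (σ p) - u (σ 0) - g p) = u (a⁻¹ • σ p) - u (a⁻¹ • σ 0) - g p := by ring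
    rwa [h4] at h3

theorem exists_badL (hΛ : Lat Λ) (hX : Surface X) (hu : TMap X Λ u) (hn : NonConst X Λ u) (hD : CurveD X D Λ u) {B₀ : Set ℂ}
    (hinv : ∀ b ∈ B₀, ∀ l ∈ Λ, b + l ∈ B₀) {δ₀ : ℝ} (hδ₀ : 0 < δ₀) (hsep : ∀ b ∈ B₀, ∀ b' ∈ B₀, b ≠ b' → δ₀ ≤ ‖b - b'‖) :
    ∃ B : Set ℂ, B₀ ⊆ B ∧ (∀ b ∈ B, ∀ l ∈ Λ, b + l ∈ B) ∧ (∃ δ : ℝ, 0 < δ ∧ ∀ b ∈ B, ∀ b' ∈ B, b ≠ b' → δ ≤ ‖b - b'‖) ∧
      (∀ x ∈ X, (∀ b ∈ B, u x - b ∉ Λ) → RU X Λ u x 0) ∧ ∀ x ∈ D, (∀ b ∈ B, u x - b ∉ Λ) → TrV X D Λ u x := by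
  have iso1 := badL_iso hΛ hu (Y := X) (P := fun x => RU X Λ u x 0) Set.Subset.rfl hX.zero hX.smul hX.closed
    (fun x _ c hc h => h.pr hX.smul hu ⟨c⁻¹, inv_ne_zero hc, by rw [smul_smul, inv_mul_cancel₀ hc, one_smul]⟩)
    (fun x hx => by
      obtain ⟨n, hr⟩ := Pool.Agent.H17N.exists_ru hX hu hn hx
      exact hr.near hX.smul hu)
  have iso2 := badL_iso hΛ hu (Y := D) (P := fun x => TrV X D Λ u x) hD.sub (fun h => hX.zero (hD.sub h)) hD.smul
    (fun x hx hx0 => by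
      have hxX : x ∈ X := hX.closed x (closure_mono hD.sub hx) hx0
      by_contra hxD
      exact (mem_closure_iff_frequently.1 hx) ((hD.closed x hxX hxD).mono fun y hy => hy))
    (fun x _ c hc h => badL_trv_scale hX hu hD hc h) (fun x hx => TrV.near hX hu hD hx)
  set B : Set ℂ := {c | c ∈ B₀ ∨ (∃ x ∈ X, u x - c ∈ Λ ∧ ¬ RU X Λ u x 0) ∨ ∃ x ∈ D, u x - c ∈ Λ ∧ ¬ TrV X D Λ u x} with hB
  have hshift : ∀ x c l : ℂ, l ∈ Λ → x - c ∈ Λ → x - (c + l) ∈ Λ := by
    intro x c l hl hx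
    have h1 := Λ.sub_mem hx hl
    have h2 : x - c - l = x - (c + l) := by ring
    rwa [h2] at h1
  have hBinv : ∀ b ∈ B, ∀ l ∈ Λ, b + l ∈ B := by
    rintro b (hb | ⟨x, hx, h1, h2⟩ | ⟨x, hx, h1, h2⟩) l hl
    · exact Or.inl (hinv b hb l hl)
    · exact Or.inr (Or.inl ⟨x, hx, hshift _ _ _ hl h1, h2⟩)
    · exact Or.inr (Or.inr ⟨x, hx, hshift _ _ _ hl h1, h2⟩)
  refine ⟨B, fun b hb => Or.inl hb, hBinv, Pool.Agent.EG.separated hΛ hBinv fun c => ?_, ?_, ?_⟩
  · obtain ⟨ε₀, hε₀, h0⟩ := badL_sep hδ₀ hsep c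
    obtain ⟨ε₁, hε₁, h1⟩ := iso1 c
    obtain ⟨ε₂, hε₂, h2⟩ := iso2 c
    refine ⟨min ε₀ (min ε₁ ε₂), lt_min hε₀ (lt_min hε₁ hε₂), ?_⟩
    rintro c' (hc | hc | hc) hlt
    · exact h0 c' hc (hlt.trans_le (min_le_left _ _))
    · exact h1 c' hc (hlt.trans_le ((min_le_right _ _).trans (min_le_left _ _)))
    · exact h2 c' hc (hlt.trans_le ((min_le_right _ _).trans (min_le_right _ _)))
  · intro x hx hxb
    by_contra h
    refine hxb (u x) (Or.inr (Or.inl ⟨x, hx, ?_, h⟩)) ?_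
    · rw [sub_self]
      exact Λ.zero_mem
    · rw [sub_self]
      exact Λ.zero_mem
  · intro x hx hxb
    by_contra h
    refine hxb (u x) (Or.inr (Or.inr ⟨x, hx, ?_, h⟩)) ?_
    · rw [sub_self]
      exact Λ.zero_mem
    · rw [sub_self]
      exact Λ.zero_mem

end Pool.Agent.H17L

end
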