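import Pool.Agent.H94.CB.M164
import Pool.Agent.H94.CB.M241

/-! The parts of this file: H17L.LiftL, H17L.BlowO. -/

section

/-!
# H17L LiftL: the limit sections lift to the blow-up

Model: H17N/LiftS.lean.

* `exists_lift_on`: copy of the private `LiftS_exists` (and `LiftS_forms`, `LiftS_phi`, `LiftS_local`, `LiftS_prop`) with `z ∈ U`, `U` open, in place of all `z` (near a point of `U` all points are in `U`).
* `limSec_blow`: let `f`, `Z` be as in `LimSec`.  `h` the lift of `f` (`exists_lift_sec`).  `Z' = Z ∪ {z | z - u q ∈ Λ}`: closed, and every point is isolated from it (`Λ` is discrete and closed).  Let `R, ε, K` be given, `K` compact, disjoint from `Z'`.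
  We use the approximation `G` of `f` for `(R, ε', K)`, `ε' > 0` small.  `U = {z | SecV X D Λ u G z}` is open and contains the closed ball.  For `z ∈ U`: `Pr (G z) q` implies `z - u q ∈ Λ`, so these points are isolated, and `exists_lift_on` gives `G' : ℂ → ι → V` over `U`.  For `z ∈ U` near `z₀ ∈ U`: `G' z ∈ blow l X`, `uB u (G' z) - z ∈ Λ` (`uB_eq`), and `G' z ∉ blow l D`,
  because its components `≠ 0` are multiples of `G z ∉ D` (`comp_mem_strict`).  So `SecV (blow l X) (blow l D) Λ (uB u) G' z` for `z ∈ U`.  Closeness: for `z ∈ K`, `‖z‖ ≤ R`: `f z`, `G z` are not multiples of `q` (`z - u q ∉ Λ`), so `h z = a • phi l (f z)`, `G' z = a' • phi l (G z)` (`eq_phi`).  `Cl ε' (G z) (f z)`: `x = c • G z`, `y = f z`, `‖x - y‖ < ε' ‖y‖`, `ε' ≤ 1`: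
  `‖phi l x - phi l y‖ ≤ C ε' ‖y‖ ^ 2` (`C` depends only on `l`; `phi l x - phi l y = l_b (x - y) • x + l_b y • (x - y)`), and `‖phi l (f z)‖ ≥ m ‖f z‖ ^ 2` for `z ∈ K`, `m > 0`: compactness of `K` (locally `f z` is proportional to a continuous function `F`, and `‖phi l (F z)‖ / ‖F z‖ ^ 2` is continuous, positive, invariant under scaling).  So `ε'` with `C ε' < ε m` works
  (`Cl ε (G' z) (h z)` does not depend on the factors).
* `finL_of_blow`: as `finSec_of_blow`.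
-/

set_option autoImplicit false

open Topology Filter

namespace Pool.Agent.H17L

attribute [-instance] ProperSMul.toContinuousSMul

open Pool.Agent.H17BP (Surface IsChart Tan Pr HolP ResN)
open Pool.Agent.H62.BU (blow dense phi Ker)
open Pool.Agent.H17N (TMap LU RU TF NonConst ThinF FibB HSec uB aB cmp)

variable {V : Type} [NormedAddCommGroup V] [NormedSpace ℂ V] [FiniteDimensional ℂ V] {ι : Type} [Fintype ι] {l : ι → V →L[ℂ] ℂ} {X D : Set V} {q : V}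
  {Λ : AddSubgroup ℂ} {u : V → ℂ}

omit [FiniteDimensional ℂ V] [Fintype ι] in
private theorem LiftL_forms (hl : Ker l q) {x y : V} (h : Pr x y) (hy : y ≠ 0) : Pr x q ↔ ∀ b, l b y = 0 := by
  constructor
  · intro hx b
    obtain ⟨c, hc, e⟩ := h.symm.trans hx
    rw [e, map_smul, (hl q).2 ⟨1, (one_smul _ _).symm⟩ b, smul_zero]
  · intro hb
    obtain ⟨c, hc⟩ := (hl y).1 hb
    refine h.trans ⟨c, ?_, hc⟩
    rintro rfl
    rw [zero_smul] at hc
    exact hy hc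

omit [FiniteDimensional ℂ V] in
private theorem LiftL_phi {x y : V} {c : ℂ} (h : x = c • y) : phi l x = c ^ 2 • phi l y := by
  rw [h, H62.BU.phi_smul]

omit [FiniteDimensional ℂ V] in
/-- The local lift. -/
private theorem LiftL_local (hX : Surface X) (hl : Ker l q) {U : Set ℂ} (hU : IsOpen U) {f : ℂ → V}
    (hf : ∀ z ∈ U, HolP f z ∧ f z ∈ X)
    (hi : ∀ z₀ ∈ U, ∀ᶠ z in 𝓝[≠] z₀, ¬ Pr (f z) q) (z₀ : ℂ) (hz : z₀ ∈ U) :
    ∃ (F : ℂ → V) (G : ℂ → ι → V) (k : ℕ), AnalyticAt ℂ F z₀ ∧ F z₀ ≠ 0 ∧ (∀ᶠ z in 𝓝 z₀, Pr (f z) (F z)) ∧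
      AnalyticAt ℂ G z₀ ∧ (∀ᶠ z in 𝓝 z₀, G z ∈ blow l X) ∧
      ∀ᶠ z in 𝓝 z₀, phi l (F z) = (z - z₀) ^ k • G z := by
  obtain ⟨F, hF, hF0, hfF⟩ := (hf z₀ hz).1
  have hFX : ∀ᶠ z in 𝓝 z₀, F z ∈ X := by
    filter_upwards [hfF, hU.mem_nhds hz] with z h1 h2
    exact (Pr.mem_iff hX.smul h1).1 (hf z h2).2
  have hne : ∃ᶠ z in 𝓝[≠] z₀, ∃ b, l b (F z) ≠ 0 := by
    refine Eventually.frequently ?_
    filter_upwards [hi z₀ hz, hfF.filter_mono nhdsWithin_le_nhds,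
      (hF.continuousAt.eventually_ne hF0).filter_mono nhdsWithin_le_nhds] with z h1 h2 h3
    by_contra h4
    push Not at h4
    exact h1 ((LiftL_forms hl h2 h3).2 h4)
  obtain ⟨k, G, hG, hGb, hGe⟩ := H62.BU.lift_curve hF hFX hne
  exact ⟨F, G, k, hF, hF0, hfF, hG, hGb, hGe⟩

omit [FiniteDimensional ℂ V] in
private theorem LiftL_prop {F : ℂ → V} {G : ℂ → ι → V} {k : ℕ} {z : ℂ} (hF : AnalyticAt ℂ F z)
    (hF0 : F z ≠ 0) (hG : AnalyticAt ℂ G z) (h : ∀ᶠ w in 𝓝 z, phi l (F w) = (w - z) ^ k • G w) {b : ι}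
    (hb : G z b ≠ 0) : Pr (F z) (G z b) := by
  obtain ⟨Λ, hΛ1, hΛ2⟩ := exists_dual_vector ℂ (F z) (norm_ne_zero_iff.mpr hF0)
  have hΛ : Λ (F z) ≠ 0 := by
    rw [hΛ2]
    simpa using hF0
  have hGb : ContinuousAt (fun w => G w b) z := (continuous_apply b).continuousAt.comp hG.continuousAt
  have h1 : Tendsto (fun w => Λ (F w) • G w b) (𝓝[≠] z) (𝓝 (Λ (F z) • G z b)) := by
    refine Tendsto.mono_left ?_ nhdsWithin_le_nhds
    exact ((Λ.continuous.continuousAt.comp hF.continuousAt).smul hGb).tendsto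
  have h2 : Tendsto (fun w => Λ (G w b) • F w) (𝓝[≠] z) (𝓝 (Λ (G z b) • F z)) := by
    refine Tendsto.mono_left ?_ nhdsWithin_le_nhds
    exact ((Λ.continuous.continuousAt.comp hGb).smul hF.continuousAt).tendsto
  have h3 : ∀ᶠ w in 𝓝[≠] z, Λ (F w) • G w b = Λ (G w b) • F w := by
    filter_upwards [h.filter_mono nhdsWithin_le_nhds, self_mem_nhdsWithin] with w h4 h5
    have h6 : (w - z) ^ k ≠ 0 := pow_ne_zero _ (sub_ne_zero.2 h5)
    have h7 : l b (F w) • F w = (w - z) ^ k • G w b := congrFun h4 b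
    have h8 : (w - z) ^ k • (Λ (F w) • G w b) = (w - z) ^ k • (Λ (G w b) • F w) := by
      have h9 : (w - z) ^ k * Λ (G w b) = l b (F w) * Λ (F w) := by
        have h10 := congrArg Λ h7
        rw [map_smul, map_smul, smul_eq_mul, smul_eq_mul] at h10
        exact h10.symm
      rw [smul_comm, ← h7, smul_smul ((w - z) ^ k), h9, smul_smul, mul_comm]
    exact (smul_right_injective V h6) h8
  have h4 : Λ (F z) • G z b = Λ (G z b) • F z :=
    tendsto_nhds_unique_of_eventuallyEq h1 h2 h3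
  have h5 : G z b = ((Λ (F z))⁻¹ * Λ (G z b)) • F z := by
    rw [mul_smul, ← h4, smul_smul, inv_mul_cancel₀ hΛ, one_smul]
  refine Pr.symm ⟨(Λ (F z))⁻¹ * Λ (G z b), ?_, h5⟩
  intro h0
  rw [h0, zero_smul] at h5
  exact hb h5

theorem exists_lift_on (hX : Surface X) (hl : Ker l q) {U : Set ℂ} (hU : IsOpen U) {f : ℂ → V} (hf : ∀ z ∈ U, HolP f z ∧ f z ∈ X)
    (hi : ∀ z₀ ∈ U, ∀ᶠ z in 𝓝[≠] z₀, ¬ Pr (f z) q) :
    ∃ h : ℂ → ι → V, (∀ z ∈ U, HolP h z ∧ h z ∈ blow l X) ∧ ∀ z ∈ U, ∀ b, h z b ≠ 0 → Pr (f z) (h z b) := by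
  classical
  have hloc : ∀ z₀ : ℂ, ∃ (F : ℂ → V) (G : ℂ → ι → V) (k : ℕ), z₀ ∈ U → (AnalyticAt ℂ F z₀ ∧ F z₀ ≠ 0 ∧ (∀ᶠ z in 𝓝 z₀, Pr (f z) (F z)) ∧
      AnalyticAt ℂ G z₀ ∧ (∀ᶠ z in 𝓝 z₀, G z ∈ blow l X) ∧
      ∀ᶠ z in 𝓝 z₀, phi l (F z) = (z - z₀) ^ k • G z) := by
    intro z₀
    by_cases hz : z₀ ∈ U
    · obtain ⟨F, G, k, h⟩ := LiftL_local (ι := ι) hX hl hU hf hi z₀ hz
      exact ⟨F, G, k, fun _ => h⟩
    · exact ⟨fun _ => 0, fun _ => 0, 0, fun h => absurd h hz⟩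
  choose F G k hFG using hloc
  have hf0 : ∀ z ∈ U, f z ≠ 0 := fun z hz h3 => hX.zero (h3 ▸ (hf z hz).2)
  refine ⟨fun z => if ∃ b, l b (f z) ≠ 0 then phi l (f z) else G z z, ?_, ?_⟩
  · intro z₀ hz₀
    obtain ⟨hF, hF0, hfF, hG, hGb, hGe⟩ := hFG z₀ hz₀
    refine ⟨⟨G z₀, hG, hGb.self_of_nhds.2, ?_⟩, ?_⟩
    · have hi' : ∀ᶠ z in 𝓝 z₀, z ≠ z₀ → ¬ Pr (f z) q := by
        have := hi z₀ hz₀
        rwa [eventually_nhdsWithin_iff] at this
      filter_upwards [hfF, hGe, hi', hU.mem_nhds hz₀] with z h1 h2 h3 hzU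
      split_ifs with h5
      · obtain ⟨c, hc, e⟩ := h1
        have h6 : phi l (f z) = (c ^ 2 * (z - z₀) ^ k z₀) • G z₀ z := by
          rw [LiftL_phi e, h2, smul_smul]
        refine ⟨_, ?_, h6⟩
        intro h7
        rw [h7, zero_smul] at h6
        exact H62.BU.phi_ne h5 h6
      · push Not at h5
        have h6 : z = z₀ := by
          by_contra h7
          exact h3 h7 ((LiftL_forms hl (Pr.refl (f z)) (hf0 z hzU)).2 h5)
        rw [h6]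
        exact Pr.refl _
    · show (if ∃ b, l b (f z₀) ≠ 0 then phi l (f z₀) else G z₀ z₀) ∈ blow l X
      split_ifs with h5
      · exact H62.BU.dense_sub (H62.BU.phi_mem_dense (hf z₀ hz₀).2 h5)
      · exact hGb.self_of_nhds
  · intro z hz b
    obtain ⟨hF, hF0, hfF, hG, hGb, hGe⟩ := hFG z hz
    simp only
    split_ifs with h5
    · intro h6
      have h7 : phi l (f z) b = l b (f z) • f z := rfl
      rw [h7] at h6 ⊢
      have h8 : l b (f z) ≠ 0 := by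
        intro h9
        rw [h9, zero_smul] at h6
        exact h6 rfl
      exact Pr.symm ⟨_, h8, rfl⟩
    · intro h6
      exact (hfF.self_of_nhds).trans (LiftL_prop hF hF0 hG hGe h6)

/-- the points over `q` are isolated -/
private theorem LiftL_iso (hΛ : ∃ δ : ℝ, 0 < δ ∧ ∀ l ∈ Λ, ‖l‖ < δ → l = 0) (a z₀ : ℂ) : ∀ᶠ z in 𝓝[≠] z₀, z - a ∉ Λ := by
  obtain ⟨δ, hδ, hΛ⟩ := hΛ
  by_cases hz : ∃ z1 : ℂ, z1 ≠ z₀ ∧ dist z1 z₀ < δ / 2 ∧ z1 - a ∈ Λ
  · obtain ⟨z1, h1, h2, h3⟩ := hz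
    have h4 : ∀ᶠ z in 𝓝 z₀, z ≠ z1 := eventually_ne_nhds (Ne.symm h1)
    filter_upwards [h4.filter_mono nhdsWithin_le_nhds,
      (Metric.ball_mem_nhds z₀ (half_pos hδ) : Metric.ball z₀ (δ / 2) ∈ 𝓝 z₀) |> (mem_nhdsWithin_of_mem_nhds ·)] with z h5 h6 h7
    have h8 := Λ.sub_mem h7 h3
    have e3 : z - a - (z1 - a) = z - z1 := by ring
    rw [e3] at h8
    have h9 : ‖z - z1‖ < δ := by
      have h10 : dist z z₀ < δ / 2 := h6
      have h11 := dist_triangle_right z z1 z₀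
      rw [dist_eq_norm] at h11
      linarith
    exact h5 (sub_eq_zero.1 (hΛ _ h8 h9))
  · push Not at hz
    filter_upwards [self_mem_nhdsWithin,
      (Metric.ball_mem_nhds z₀ (half_pos hδ) : Metric.ball z₀ (δ / 2) ∈ 𝓝 z₀) |> (mem_nhdsWithin_of_mem_nhds ·)] with z h5 h6 h7
    exact hz z h5 h6 h7

private theorem LiftL_closed {Z : Set ℂ} (h : ∀ z, ∀ᶠ w in 𝓝[≠] z, w ∉ Z) : IsClosed Z := by
  rw [← isOpen_compl_iff, isOpen_iff_eventually]
  intro z hz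
  have h1 := h z
  rw [eventually_nhdsWithin_iff] at h1
  filter_upwards [h1] with w hw
  by_cases hwz : w = z
  · rw [hwz]
    exact hz
  · exact hw hwz

private theorem LiftL_holP_open {f : ℂ → V} {z : ℂ} (h : HolP f z) : ∀ᶠ w in 𝓝 z, HolP f w := by
  obtain ⟨F, hF, hF0, hfF⟩ := h
  filter_upwards [hF.eventually_analyticAt, hF.continuousAt.eventually_ne hF0, eventually_eventually_nhds.2 hfF] with w h1 h2 h3
  exact ⟨F, h1, h2, h3⟩

private theorem LiftL_open {f : ℂ → V} : IsOpen {z | SecV X D Λ u f z} := by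
  rw [isOpen_iff_eventually]
  rintro z ⟨h1, h2⟩
  filter_upwards [LiftL_holP_open h1, eventually_eventually_nhds.2 h2] with w h3 h4
  exact ⟨h3, h4⟩

omit [FiniteDimensional ℂ V] in
/-- a lift is proportional to `phi` -/
private theorem LiftL_pr {x : V} {y : ι → V} (hy : y ∈ blow l X) (hc : ∀ b, y b ≠ 0 → Pr x (y b)) (hx : ∃ b, l b x ≠ 0) :
    ∃ a : ℂ, a ≠ 0 ∧ y = a • phi l x := by
  obtain ⟨b, hb⟩ := H62.BU.exists_ne y hy
  obtain ⟨b', hb'⟩ := hx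
  obtain ⟨c, hc0, e⟩ := (hc b hb).symm
  have h1 : l b' (y b) ≠ 0 := by
    rw [e, map_smul, smul_eq_mul]
    exact mul_ne_zero hc0 hb'
  have h2 := H62.BU.ne_of_ne y hy hb h1
  refine ⟨(l b (y b))⁻¹ * c ^ 2, mul_ne_zero (inv_ne_zero h2) (pow_ne_zero 2 hc0), ?_⟩
  rw [mul_smul, ← LiftL_phi e]
  exact H62.BU.eq_phi y hy hb h1

omit [FiniteDimensional ℂ V] in
private theorem LiftL_bound (l : ι → V →L[ℂ] ℂ) : ∃ C : ℝ, 0 ≤ C ∧ ∀ x y : V, ‖phi l x - phi l y‖ ≤ C * ‖x - y‖ * (‖x‖ + ‖y‖) := by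
  refine ⟨∑ b, ‖l b‖, Finset.sum_nonneg fun b _ => norm_nonneg _, fun x y => ?_⟩
  have h0 : 0 ≤ (∑ b, ‖l b‖) * ‖x - y‖ * (‖x‖ + ‖y‖) := by
    have h1 : 0 ≤ ∑ b, ‖l b‖ := Finset.sum_nonneg fun b _ => norm_nonneg _
    positivity
  rw [pi_norm_le_iff_of_nonneg h0]
  intro b
  have h1 : ‖l b‖ ≤ ∑ b, ‖l b‖ := Finset.single_le_sum (f := fun b => ‖l b‖) (fun b _ => norm_nonneg _) (Finset.mem_univ b)
  have h2 : (phi l x - phi l y) b = l b (x - y) • x + l b y • (x - y) := by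
    show l b x • x - l b y • y = _
    rw [map_sub, sub_smul, smul_sub]
    abel
  rw [h2]
  calc ‖l b (x - y) • x + l b y • (x - y)‖ ≤ ‖l b (x - y) • x‖ + ‖l b y • (x - y)‖ := norm_add_le _ _
    _ = ‖l b (x - y)‖ * ‖x‖ + ‖l b y‖ * ‖x - y‖ := by rw [norm_smul, norm_smul]
    _ ≤ (‖l b‖ * ‖x - y‖) * ‖x‖ + (‖l b‖ * ‖y‖) * ‖x - y‖ :=
        add_le_add (mul_le_mul_of_nonneg_right ((l b).le_opNorm _) (norm_nonneg _))
          (mul_le_mul_of_nonneg_right ((l b).le_opNorm _) (norm_nonneg _))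
    _ = ‖l b‖ * (‖x - y‖ * (‖x‖ + ‖y‖)) := by ring
    _ ≤ (∑ b, ‖l b‖) * (‖x - y‖ * (‖x‖ + ‖y‖)) := mul_le_mul_of_nonneg_right h1 (by positivity)
    _ = (∑ b, ‖l b‖) * ‖x - y‖ * (‖x‖ + ‖y‖) := by ring

omit [FiniteDimensional ℂ V] [Fintype ι] in
private theorem LiftL_phi_cont (l : ι → V →L[ℂ] ℂ) : Continuous (phi l) := by
  refine continuous_pi fun b => ?_
  exact ((l b).continuous).smul continuous_id

omit [FiniteDimensional ℂ V] in
/-- the lower bound on a compact set -/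
private theorem LiftL_low {f : ℂ → V} {K : Set ℂ} (hK : IsCompact K) (hf : ∀ z ∈ K, HolP f z ∧ ∃ b, l b (f z) ≠ 0) :
    ∃ m : ℝ, 0 < m ∧ ∀ z ∈ K, m * ‖f z‖ ^ 2 ≤ ‖phi l (f z)‖ := by
  refine hK.induction_on (p := fun S => ∃ m : ℝ, 0 < m ∧ ∀ z ∈ S, m * ‖f z‖ ^ 2 ≤ ‖phi l (f z)‖) ?_ ?_ ?_ ?_
  · exact ⟨1, one_pos, fun z hz => hz.elim⟩
  · rintro S T hST ⟨m, hm, h⟩
    exact ⟨m, hm, fun z hz => h z (hST hz)⟩
  · rintro S T ⟨m, hm, h⟩ ⟨m', hm', h'⟩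
    refine ⟨min m m', lt_min hm hm', ?_⟩
    rintro z (hz | hz)
    · exact (mul_le_mul_of_nonneg_right (min_le_left _ _) (by positivity)).trans (h z hz)
    · exact (mul_le_mul_of_nonneg_right (min_le_right _ _) (by positivity)).trans (h' z hz)
  · intro z₀ hz₀
    obtain ⟨⟨F, hF, hF0, hfF⟩, b, hb⟩ := hf z₀ hz₀
    have hphi : phi l (F z₀) ≠ 0 := by
      apply H62.BU.phi_ne
      obtain ⟨c, hc, e⟩ := hfF.self_of_nhds
      refine ⟨b, fun h0 => hb ?_⟩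
      rw [e, map_smul, h0, smul_zero]
    have hn0 : 0 < ‖F z₀‖ := norm_pos_iff.2 hF0
    have hp0 : 0 < ‖phi l (F z₀)‖ := norm_pos_iff.2 hphi
    set m : ℝ := ‖phi l (F z₀)‖ / (2 * ‖F z₀‖ ^ 2) with hm
    have hm0 : 0 < m := by positivity
    have h1 : m * ‖F z₀‖ ^ 2 < ‖phi l (F z₀)‖ := by
      rw [hm]
      field_simp
      linarith
    have hc1 : ContinuousAt (fun z => m * ‖F z‖ ^ 2) z₀ := (hF.continuousAt.norm.pow 2).const_mul m
    have hc2 : ContinuousAt (fun z => ‖phi l (F z)‖) z₀ :=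
      (ContinuousAt.comp (g := phi l) (f := F) (LiftL_phi_cont l).continuousAt hF.continuousAt).norm
    have h2 : ∀ᶠ z in 𝓝 z₀, m * ‖F z‖ ^ 2 < ‖phi l (F z)‖ := hc1.eventually_lt hc2 h1
    have h3 : ∀ᶠ z in 𝓝 z₀, m * ‖f z‖ ^ 2 ≤ ‖phi l (f z)‖ := by
      filter_upwards [h2, hfF] with z h4 h5
      obtain ⟨c, hc, e⟩ := h5
      rw [LiftL_phi e, norm_smul, e, norm_smul, norm_pow, mul_pow]
      have h6 : 0 ≤ ‖c‖ ^ 2 := by positivity
      nlinarith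
    exact ⟨{z | m * ‖f z‖ ^ 2 ≤ ‖phi l (f z)‖}, mem_nhdsWithin_of_mem_nhds h3, m, hm0, fun z hz => hz⟩

theorem limSec_blow (hΛ : ∃ δ : ℝ, 0 < δ ∧ ∀ l ∈ Λ, ‖l‖ < δ → l = 0) (hX : Surface X) (hu : TMap X Λ u) (hD : CurveD X D Λ u) (hl : Ker l q)
    (hq : q ∈ X) {f : ℂ → V} (hf : LimSec X D Λ u f) :
    ∃ h, LimSec (blow l X) (blow l D) Λ (uB u) h ∧ ∀ z b, h z b ≠ 0 → Pr (f z) (h z b) := by
  obtain ⟨hfS, Z, hZc, hZi, hZ⟩ := hf
  obtain ⟨h, hh, hhf⟩ := Pool.Agent.H17N.exists_lift_sec hΛ hX hu hl hq hfS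
  have hpr : ∀ (g : ℂ → V) (z : ℂ), u (g z) - z ∈ Λ → Pr (g z) q → z - u q ∈ Λ := by
    rintro g z h2 ⟨c, hc, e⟩
    have h1 := hu.smul q hq c hc
    rw [e] at h2
    have h3 := Λ.sub_mem h1 h2
    have e2 : z - u q = u (c • q) - u q - (u (c • q) - z) := by ring
    rw [e2]
    exact h3
  have hlne : ∀ (g : ℂ → V) (z : ℂ), g z ∈ X → u (g z) - z ∈ Λ → z - u q ∉ Λ → ∃ b, l b (g z) ≠ 0 := by
    intro g z h1 h2 h3
    by_contra h4
    push Not at h4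
    exact h3 (hpr g z h2 ((LiftL_forms hl (Pr.refl (g z)) (fun h0 => hX.zero (h0 ▸ h1))).2 h4))
  have hi2 : ∀ z, ∀ᶠ w in 𝓝[≠] z, w ∉ Z ∪ {w | w - u q ∈ Λ} := by
    intro z
    filter_upwards [hZi z, LiftL_iso hΛ (u q) z] with w h1 h2 h3
    rcases h3 with h3 | h3
    · exact h1 h3
    · exact h2 h3
  refine ⟨h, ⟨hh, Z ∪ {w | w - u q ∈ Λ}, LiftL_closed hi2, hi2, fun R ε hε K hK hKZ => ?_⟩, hhf⟩
  have hKZ1 : ∀ z ∈ K, z ∉ Z := fun z hz h1 => hKZ z hz (Or.inl h1)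
  have hKZ2 : ∀ z ∈ K, z - u q ∉ Λ := fun z hz h1 => hKZ z hz (Or.inr h1)
  have hfl : ∀ z ∈ K, ∃ b, l b (f z) ≠ 0 := fun z hz => hlne f z (hfS.2.1 z) (hfS.2.2 z) (hKZ2 z hz)
  obtain ⟨m, hm, hlow⟩ := LiftL_low (l := l) hK fun z hz => ⟨hfS.1 z, hfl z hz⟩
  obtain ⟨C, hC, hCb⟩ := LiftL_bound l
  set ε' : ℝ := min 1 (ε * m / (3 * C + 1)) with hε'
  have hε'0 : 0 < ε' := lt_min one_pos (by positivity)
  have hε'1 : ε' ≤ 1 := min_le_left _ _
  have hε'2 : ε' * (3 * C + 1) ≤ ε * m := by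
    have h1 : ε' ≤ ε * m / (3 * C + 1) := min_le_right _ _
    rwa [le_div_iff₀ (by positivity)] at h1
  obtain ⟨G, hG, hGf⟩ := hZ R ε' hε'0 K hK hKZ1
  set U : Set ℂ := {z | SecV X D Λ u G z} with hU
  have hUo : IsOpen U := LiftL_open
  have hUX : ∀ z ∈ U, G z ∈ X ∧ G z ∉ D ∧ u (G z) - z ∈ Λ := fun z hz => hz.2.self_of_nhds
  obtain ⟨G', hG'1, hG'2⟩ := exists_lift_on (ι := ι) (l := l) hX hl hUo (f := G) (fun z hz => ⟨hz.1, (hUX z hz).1⟩) (by
    intro z₀ hz₀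
    filter_upwards [LiftL_iso hΛ (u q) z₀, (hUo.mem_nhds hz₀ : U ∈ 𝓝 z₀) |> (mem_nhdsWithin_of_mem_nhds ·)] with z h1 h2 h3
    exact h1 (hpr G z (hUX z h2).2.2 h3))
  refine ⟨G', fun z hz => ?_, fun z hz hzR => ?_⟩
  · have hzU : z ∈ U := hG z hz
    refine ⟨(hG'1 z hzU).1, ?_⟩
    filter_upwards [hUo.mem_nhds hzU] with w hw
    have hb1 := (hG'1 w hw).2
    obtain ⟨b, hb⟩ := H62.BU.exists_ne (G' w) hb1
    have hp := hG'2 w hw b hb
    refine ⟨hb1, fun hD' => ?_, ?_⟩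
    · have h1 := comp_mem_strict hX hD hD' hb
      obtain ⟨c, hc, e⟩ := hp
      apply (hUX w hw).2.1
      rw [e]
      exact hD.smul _ h1 c hc
    · have h3 := Pool.Agent.H17N.uB_eq hX hu hb1 hb
      have hbX : G' w b ∈ X := (Pr.mem_iff hX.smul hp).1 (hUX w hw).1
      obtain ⟨c, hc, e⟩ := hp
      have h5 := hu.smul _ hbX c hc
      rw [← e] at h5
      have h7 := Λ.add_mem (Λ.sub_mem h3 h5) (hUX w hw).2.2
      have e4 : uB u (G' w) - w = uB u (G' w) - u (G' w b) - (u (G w) - u (G' w b)) + (u (G w) - w) := by ring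
      rw [e4]
      exact h7
  · have hzU : z ∈ U := hG z (by rw [mem_closedBall_zero_iff]; exact hzR)
    have hGl := hlne G z (hUX z hzU).1 (hUX z hzU).2.2 (hKZ2 z hz)
    obtain ⟨a, ha, hae⟩ := LiftL_pr (hh.2.1 z) (hhf z) (hfl z hz)
    obtain ⟨a', ha', hae'⟩ := LiftL_pr (hG'1 z hzU).2 (hG'2 z hzU) hGl
    obtain ⟨c, hc, hcl⟩ := hGf z hz hzR
    have hfz : f z ≠ 0 := fun h0 => hX.zero (h0 ▸ hfS.2.1 z)
    have hfp : 0 < ‖f z‖ := norm_pos_iff.2 hfz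
    have h1 := hCb (c • G z) (f z)
    have h2 : ‖c • G z‖ ≤ 2 * ‖f z‖ := by
      have h3 := norm_sub_norm_le (c • G z) (f z)
      nlinarith
    have h4 : ‖phi l (c • G z) - phi l (f z)‖ < ε * ‖phi l (f z)‖ := by
      have h5 : C * ‖c • G z - f z‖ * (‖c • G z‖ + ‖f z‖) ≤ C * (ε' * ‖f z‖) * (3 * ‖f z‖) := by
        apply mul_le_mul (mul_le_mul_of_nonneg_left hcl.le hC) (by linarith) (by positivity) (by positivity)
      have h6 := hlow z hz
      have h7 : C * (ε' * ‖f z‖) * (3 * ‖f z‖) < ε * (m * ‖f z‖ ^ 2) := by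
        have h8 : 0 < ‖f z‖ ^ 2 := by positivity
        have h9 : C * (ε' * ‖f z‖) * (3 * ‖f z‖) = (ε' * (3 * C)) * ‖f z‖ ^ 2 := by ring
        have h10 : ε * (m * ‖f z‖ ^ 2) = (ε * m) * ‖f z‖ ^ 2 := by ring
        rw [h9, h10]
        apply mul_lt_mul_of_pos_right _ h8
        nlinarith
      have h11 : ε * (m * ‖f z‖ ^ 2) ≤ ε * ‖phi l (f z)‖ := mul_le_mul_of_nonneg_left h6 hε.le
      linarith
    refine ⟨a * c ^ 2 * a'⁻¹, mul_ne_zero (mul_ne_zero ha (pow_ne_zero 2 hc)) (inv_ne_zero ha'), ?_⟩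
    have h12 : (a * c ^ 2 * a'⁻¹) • G' z - h z = a • (phi l (c • G z) - phi l (f z)) := by
      rw [hae', hae, smul_smul, mul_assoc, inv_mul_cancel₀ ha', mul_one, H62.BU.phi_smul, smul_sub, smul_smul]
    rw [h12, hae, norm_smul, norm_smul]
    have h13 : 0 < ‖a‖ := norm_pos_iff.2 ha
    nlinarith

theorem finL_of_blow (hΛ : ∃ δ : ℝ, 0 < δ ∧ ∀ l ∈ Λ, ‖l‖ < δ → l = 0) (hX : Surface X) (hu : TMap X Λ u) (hD : CurveD X D Λ u) (hl : Ker l q)
    (hq : q ∈ X) (h : FinL (blow l X) (blow l D) Λ (uB u)) : FinL X D Λ u := by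
  classical
  obtain ⟨S, hS, hS2⟩ := h
  refine ⟨(fun (g : ℂ → ι → V) z => Pool.Agent.H17N.cmp (g z)) '' S, hS.image _, fun f hf => ?_⟩
  obtain ⟨h1, hh, h2⟩ := limSec_blow hΛ hX hu hD hl hq hf
  obtain ⟨g, hg, h3⟩ := hS2 h1 hh
  refine ⟨_, Set.mem_image_of_mem _ hg, fun z => ?_⟩
  obtain ⟨b, hb⟩ := H62.BU.exists_ne (h1 z) (hh.1.2.1 z)
  obtain ⟨c, hc, e⟩ := h3 z
  have hgb : ∃ b, g z b ≠ 0 := by
    refine ⟨b, fun h0 => hb ?_⟩
    rw [e, Pi.smul_apply, h0, smul_zero]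
  have h4 : Pool.Agent.H17N.cmp (g z) = g z hgb.choose := by
    unfold Pool.Agent.H17N.cmp
    rw [dif_pos hgb]
  have h5 : g z hgb.choose ≠ 0 := hgb.choose_spec
  have h6 : h1 z hgb.choose = c • g z hgb.choose := by rw [e]; rfl
  show Pr (f z) (Pool.Agent.H17N.cmp (g z))
  rw [h4]
  exact (h2 z _ (by rw [h6]; exact smul_ne_zero hc h5)).trans ⟨c, hc, h6⟩

end Pool.Agent.H17L

end

section

/-!
# H17L BlowO: the open part of the blow-up

The blown up point `q` lies over `B`, so the part of the surface outside `D` and the fibres over `B` does not change.  Models: H17N/BlowF.lean, H17N/BlowG.lean, `fib_blow` in H17N/BlowT.lean.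

* `mem_open`: `→`: `y ∈ blow l X`, let `x = y b ≠ 0`, `x ∈ X` (`comp_mem`), `uB u y - u x ∈ Λ` (`uB_eq`), so `x` does not lie over `B`, so it is not a multiple of `q` (`tor.smul`), so some `l b' x ≠ 0` (`Ker`), `y = c • phi l x` (`eq_phi`), and `x ∉ D` by `phi_mem_strict`.  `←`: `x` does not lie over `B`, so it is not a multiple of `q` and
  `l b x ≠ 0` for some `b`; `dense_sub`, `phi_mem_strict`, `uB_eq`.
* `tf_open`: all components `≠ 0` of a point `y = c • phi l x` are multiples of `x`, so they are in `X \ Z`; tangent vectors `v` of `blow l X \ Z'` at `y` have components `v b ∈ Tan (X \ Z) (y b)` (the components of the curves); `aB α z y v w = α z (y b) (v b) (w b)` for every `b` with `y b ≠ 0` (pattern `BlowF_indep`, `aB_eq`: here directly: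
  a curve in `blow l X \ Z'` through `y` has proportional components, `y b' = a • y b`, and the derivatives satisfy `v b' = a • v b + a' • y b`, `a'` depending on `v`, by `H62.BU.prop`; `scale`, `add_smul`).  Then as in BlowF.
* `per_open`, `van_open`: immediate from `aB_openEq`.
* `thin_open`: let `σ1, τ1` be a chart of `blow l X \ Z'` at `y`, `b` with `l b (x) ≠ 0`, where `y = c • phi l x`; `σ p = σ1 p b` is a chart of `X \ Z` at `y b` with the inverse `x' ↦ τ1 (a • phi l x')`, `a` the constant with `a • phi l (y b) = y`; and `cf (aB α) υ σ1 p = cf α υ σ p` (`aB_openEq`; `fderiv` commutes with the projection to the component `b`).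
* `fib_blowD`: as `fib_blow`: let `f` be an entire curve in `blow l X \ blow l D`, in a fibre.  If the value is over `B` we are done.  Otherwise all components `≠ 0` of `f z` are not multiples of `q`, `f z = c • phi l (x z)`; `x z = cmp (f z)` is holomorphic (`HolP`), in `X \ D`, in a fibre, not constant; `FibB`.
-/

set_option autoImplicit false

open Topology Filter

namespace Pool.Agent.H17L

attribute [-instance] ProperSMul.toContinuousSMul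

open Pool.Agent.H17BP (Surface IsChart Tan Pr HolP ResN)
open Pool.Agent.H62.BU (blow dense phi Ker)
open Pool.Agent.H17N (TMap LU RU TF NonConst ThinF FibB HSec uB aB blow_chart)

variable {V : Type} [NormedAddCommGroup V] [NormedSpace ℂ V] [FiniteDimensional ℂ V] {ι : Type} [Fintype ι] {l : ι → V →L[ℂ] ℂ} {X D : Set V} {q : V}
  {Λ Γ : AddSubgroup ℂ} {u : V → ℂ} {B : Set ℂ} {α : ℂ → V → V → V → ℂ}

private theorem BlowO_tan_mono {W : Type} [NormedAddCommGroup W] [NormedSpace ℂ W] {Y Y' : Set W} (h : Y ⊆ Y') {x v : W}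
    (hv : v ∈ Tan Y x) : v ∈ Tan Y' x := by
  obtain ⟨γ, hγ, hmem, h0, hd⟩ := hv
  exact ⟨γ, hγ, hmem.mono fun z hz => h hz, h0, hd⟩

private theorem BlowO_tan_smul {W : Type} [NormedAddCommGroup W] [NormedSpace ℂ W] {Y : Set W}
    (hY : ∀ x ∈ Y, ∀ c : ℂ, c ≠ 0 → c • x ∈ Y) {x v : W} (hv : v ∈ Tan Y x) {c : ℂ} (hc : c ≠ 0) :
    c • v ∈ Tan Y (c • x) := by
  obtain ⟨γ, hγ, hmem, h0, hd⟩ := hv
  refine ⟨fun z => c • γ z, analyticAt_const.smul hγ, ?_, by show c • γ 0 = c • x; rw [h0], ?_⟩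
  · filter_upwards [hmem] with z hz
    exact hY _ hz c hc
  · have h1 : HasDerivAt γ v 0 := by
      rw [← hd]; exact hγ.differentiableAt.hasDerivAt
    exact (h1.const_smul c).deriv

/-- the value of `u` at a component -/
private theorem BlowO_u (hX : Surface X) (hu : TMap X Λ u) {z : ℂ} {y : ι → V} (hy : y ∈ blow l X) (hz : uB u y - z ∈ Λ)
    {b : ι} (hb : y b ≠ 0) : u (y b) - z ∈ Λ := by
  have h1 := H17N.uB_eq hX hu hy hb
  have h2 := Λ.sub_mem hz h1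
  have h3 : uB u y - z - (uB u y - u (y b)) = u (y b) - z := by ring
  rwa [h3] at h2

/-- a point of `X` not over `B` is not a multiple of `q` -/
private theorem BlowO_ker (hu : TMap X Λ u) (hl : Ker l q) (hq : q ∈ X) (hB : ∃ b ∈ B, u q - b ∈ Λ) {x : V}
    (hx0 : x ≠ 0) (hx : ¬ ∃ b ∈ B, u x - b ∈ Λ) : ∃ b, l b x ≠ 0 := by
  by_contra hall
  push Not at hall
  obtain ⟨c, e⟩ := (hl x).1 hall
  have hc : c ≠ 0 := by
    intro h0
    rw [h0, zero_smul] at e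
    exact hx0 e
  obtain ⟨b₁, hb₁, h1⟩ := hB
  refine hx ⟨b₁, hb₁, ?_⟩
  have h2 := hu.smul q hq c hc
  rw [← e] at h2
  have h3 := Λ.add_mem h2 h1
  have h4 : u x - u q + (u q - b₁) = u x - b₁ := by ring
  rwa [h4] at h3

/-- the open part is a cone -/
private theorem BlowO_smul (hX : Surface X) (hu : TMap X Λ u) (hD : CurveD X D Λ u) :
    ∀ x ∈ X \ Zs X D Λ u B, ∀ c : ℂ, c ≠ 0 → c • x ∈ X \ Zs X D Λ u B := by
  intro x hx c hc
  refine ⟨hX.smul x hx.1 c hc, ?_⟩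
  rintro (h1 | ⟨-, b, hb, h1⟩)
  · refine hx.2 (Or.inl ?_)
    have h2 := hD.smul _ h1 c⁻¹ (inv_ne_zero hc)
    rwa [smul_smul, inv_mul_cancel₀ hc, one_smul] at h2
  · refine hx.2 (Or.inr ⟨hx.1, b, hb, ?_⟩)
    have h2 := Λ.sub_mem h1 (hu.smul x hx.1 c hc)
    have h3 : u (c • x) - b - (u (c • x) - u x) = u x - b := by ring
    rwa [h3] at h2

/-- the components of the points of the open part of the blow-up -/
private theorem BlowO_comp (hX : Surface X) (hu : TMap X Λ u) (hD : CurveD X D Λ u) (hl : Ker l q) (hq : q ∈ X)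
    (hB : ∃ b ∈ B, u q - b ∈ Λ) {y : ι → V} (hy : y ∈ blow l X \ Zs (blow l X) (blow l D) Λ (uB u) B) {b : ι} (hb : y b ≠ 0) :
    y b ∈ X \ Zs X D Λ u B ∧ l b (y b) ≠ 0 ∧ y = (l b (y b))⁻¹ • phi l (y b) := by
  have hX' := H17BP.surface_iff.2 hX
  have hyX : y b ∈ X := H62.BU.comp_mem hX' y hy.1 hb
  have hnB : ¬ ∃ b₁ ∈ B, u (y b) - b₁ ∈ Λ := by
    rintro ⟨b₁, hb₁, h1⟩
    refine hy.2 (Or.inr ⟨hy.1, b₁, hb₁, ?_⟩)
    have h2 := Λ.add_mem (H17N.uB_eq hX hu hy.1 hb) h1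
    have h3 : uB u y - u (y b) + (u (y b) - b₁) = uB u y - b₁ := by ring
    rwa [h3] at h2
  obtain ⟨b', hb'⟩ := BlowO_ker hu hl hq hB hb hnB
  have h4 := H62.BU.ne_of_ne y hy.1 hb hb'
  have h5 := H62.BU.eq_phi y hy.1 hb hb'
  refine ⟨⟨hyX, ?_⟩, h4, h5⟩
  rintro (h6 | ⟨-, h6⟩)
  · refine hy.2 (Or.inl ?_)
    have h7 := (phi_mem_strict (l := l) hX hD hyX ⟨b, h4⟩ (inv_ne_zero h4)).2 h6
    rwa [← h5] at h7
  · exact hnB h6

theorem mem_open (hX : Surface X) (hu : TMap X Λ u) (hD : CurveD X D Λ u) (hl : Ker l q) (hq : q ∈ X) (hB : ∃ b ∈ B, u q - b ∈ Λ) {y : ι → V} :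
    y ∈ blow l X \ Zs (blow l X) (blow l D) Λ (uB u) B ↔ ∃ x ∈ X \ Zs X D Λ u B, ∃ c : ℂ, c ≠ 0 ∧ y = c • phi l x := by
  constructor
  · intro hy
    obtain ⟨b, hb⟩ := H62.BU.exists_ne y hy.1
    obtain ⟨h1, h2, h3⟩ := BlowO_comp hX hu hD hl hq hB hy hb
    exact ⟨y b, h1, (l b (y b))⁻¹, inv_ne_zero h2, h3⟩
  · rintro ⟨x, hx, c, hc, rfl⟩
    have hx0 : x ≠ 0 := fun h => hX.zero (h ▸ hx.1)
    obtain ⟨b, hb⟩ := BlowO_ker hu hl hq hB hx0 (fun h => hx.2 (Or.inr ⟨hx.1, h⟩))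
    have hblow : c • phi l x ∈ blow l X := H62.BU.dense_sub (H62.BU.dense_smul (H62.BU.phi_mem_dense hx.1 ⟨b, hb⟩) hc)
    refine ⟨hblow, ?_⟩
    rintro (h1 | ⟨-, b₁, hb₁, h1⟩)
    · exact hx.2 (Or.inl ((phi_mem_strict hX hD hx.1 ⟨b, hb⟩ hc).1 h1))
    · have hyb : (c • phi l x) b = (c * l b x) • x := by
        simp only [phi, Pi.smul_apply, smul_smul]
      have hk : c * l b x ≠ 0 := mul_ne_zero hc hb
      have hne : (c • phi l x) b ≠ 0 := by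
        rw [hyb]
        exact smul_ne_zero hk hx0
      have h2 := BlowO_u hX hu hblow h1 hne
      rw [hyb] at h2
      refine hx.2 (Or.inr ⟨hx.1, b₁, hb₁, ?_⟩)
      have h3 := Λ.sub_mem h2 (hu.smul x hx.1 _ hk)
      have h4 : u ((c * l b x) • x) - b₁ - (u ((c * l b x) • x) - u x) = u x - b₁ := by ring
      rwa [h4] at h3

private theorem BlowO_tan (hX : Surface X) (hu : TMap X Λ u) (hD : CurveD X D Λ u) (hl : Ker l q) (hq : q ∈ X)
    (hB : ∃ b ∈ B, u q - b ∈ Λ) {y v : ι → V} (hv : v ∈ Tan (blow l X \ Zs (blow l X) (blow l D) Λ (uB u) B) y) {b : ι}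
    (hb : y b ≠ 0) : v b ∈ Tan (X \ Zs X D Λ u B) (y b) := by
  obtain ⟨γ, hγ, hmem, h0, hd⟩ := hv
  have han : AnalyticAt ℂ (fun z => γ z b) 0 :=
    AnalyticAt.comp ((ContinuousLinearMap.proj (R := ℂ) (φ := fun _ : ι => V) b).analyticAt _) hγ
  refine ⟨fun z => γ z b, han, ?_, by show γ 0 b = y b; rw [h0], ?_⟩
  · have h1 : ∀ᶠ z in 𝓝 (0 : ℂ), γ z b ≠ 0 := by
      have h2 : Tendsto (fun z => γ z b) (𝓝 0) (𝓝 (γ 0 b)) := han.continuousAt
      rw [h0] at h2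
      exact h2.eventually_ne hb
    filter_upwards [hmem, h1] with z hz1 hz2
    exact (BlowO_comp hX hu hD hl hq hB hz1 hz2).1
  · have h1 : HasDerivAt γ v 0 := by
      rw [← hd]; exact hγ.differentiableAt.hasDerivAt
    exact (hasDerivAt_pi.mp h1 b).deriv

private theorem BlowO_indep (hX : Surface X) (hu : TMap X Λ u) (hD : CurveD X D Λ u) (hα : TF (X \ Zs X D Λ u B) Λ u α)
    (hl : Ker l q) (hq : q ∈ X) (hB : ∃ b ∈ B, u q - b ∈ Λ) {z : ℂ} {y v w : ι → V}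
    (hy : y ∈ blow l X \ Zs (blow l X) (blow l D) Λ (uB u) B) (hz : uB u y - z ∈ Λ)
    (hv : v ∈ Tan (blow l X \ Zs (blow l X) (blow l D) Λ (uB u) B) y)
    (hw : w ∈ Tan (blow l X \ Zs (blow l X) (blow l D) Λ (uB u) B) y) {b b' : ι} (hb : y b ≠ 0) (hb' : y b' ≠ 0) :
    α z (y b') (v b') (w b') = α z (y b) (v b) (w b) := by
  obtain ⟨c, hc⟩ := H62.BU.comp_smul y hy.1 hb b'
  have hc0 : c ≠ 0 := by
    rintro rfl
    rw [zero_smul] at hc
    exact hb' hc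
  have hsub : blow l X \ Zs (blow l X) (blow l D) Λ (uB u) B ⊆ blow l X := fun x hx => hx.1
  obtain ⟨μ, hμ⟩ := H62.BU.tan_rel hy.1 (BlowO_tan_mono hsub hv) hb b'
  obtain ⟨ν, hν⟩ := H62.BU.tan_rel hy.1 (BlowO_tan_mono hsub hw) hb b'
  have e1 := hμ c hc
  have e2 := hν c hc
  have hyb := (BlowO_comp hX hu hD hl hq hB hy hb).1
  have hcone := BlowO_smul (B := B) hX hu hD
  have hcy := hcone _ hyb c hc0
  have tv := BlowO_tan hX hu hD hl hq hB hv hb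
  have tw := BlowO_tan hX hu hD hl hq hB hw hb
  have tv' := BlowO_tan_smul hcone tv hc0
  have tw' := BlowO_tan_smul hcone tw hc0
  have hu1 := BlowO_u hX hu hy.1 hz hb
  have hu2 : u (c • y b) - z ∈ Λ := by
    have h1 := Λ.add_mem (hu.smul (y b) hyb.1 c hc0) hu1
    have h2 : u (c • y b) - u (y b) + (u (y b) - z) = u (c • y b) - z := by ring
    rwa [h2] at h1
  have e4 : α z (y b') (v b') (w b') = α z (c • y b) (c • v b) (c • w b) := by
    have h1 := hα.add_smul z (c • y b) hcy hu2 (c • v b) tv' (c • w b) tw' (μ / c) (ν / c)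
    rw [smul_smul, smul_smul, div_mul_cancel₀ _ hc0, div_mul_cancel₀ _ hc0] at h1
    rw [e1, e2, hc]
    exact h1
  rw [e4, hα.scale z (y b) hyb hu1 (v b) tv (w b) tw c hc0]

private theorem BlowO_def {y : ι → V} (hy : y ∈ blow l X) :
    ∃ b, y b ≠ 0 ∧ ∀ (z : ℂ) (v w : ι → V), aB α z y v w = α z (y b) (v b) (w b) := by
  have h : ∃ b, y b ≠ 0 := H62.BU.exists_ne y hy
  refine ⟨h.choose, h.choose_spec, fun z v w => ?_⟩
  rw [aB, dif_pos h]

theorem aB_openEq (hX : Surface X) (hu : TMap X Λ u) (hD : CurveD X D Λ u) (hα : TF (X \ Zs X D Λ u B) Λ u α) (hl : Ker l q) (hq : q ∈ X)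
    (hB : ∃ b ∈ B, u q - b ∈ Λ) {z : ℂ} {y v w : ι → V} (hy : y ∈ blow l X \ Zs (blow l X) (blow l D) Λ (uB u) B) (hz : uB u y - z ∈ Λ)
    (hv : v ∈ Tan (blow l X \ Zs (blow l X) (blow l D) Λ (uB u) B) y) (hw : w ∈ Tan (blow l X \ Zs (blow l X) (blow l D) Λ (uB u) B) y) {b : ι}
    (hb : y b ≠ 0) : aB α z y v w = α z (y b) (v b) (w b) := by
  have h : ∃ b, y b ≠ 0 := ⟨b, hb⟩
  rw [aB, dif_pos h]
  exact BlowO_indep hX hu hD hα hl hq hB hy hz hv hw hb h.choose_spec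

/-- the open part of the blow-up is a cone -/
private theorem BlowO_smulB (hX : Surface X) (hu : TMap X Λ u) (hD : CurveD X D Λ u) (hl : Ker l q) (hq : q ∈ X)
    (hB : ∃ b ∈ B, u q - b ∈ Λ) : ∀ y ∈ blow l X \ Zs (blow l X) (blow l D) Λ (uB u) B, ∀ c : ℂ, c ≠ 0 →
      c • y ∈ blow l X \ Zs (blow l X) (blow l D) Λ (uB u) B := by
  intro y hy c hc
  obtain ⟨x, hx, a, ha, rfl⟩ := (mem_open hX hu hD hl hq hB).1 hy
  exact (mem_open hX hu hD hl hq hB).2 ⟨x, hx, c * a, mul_ne_zero hc ha, by rw [smul_smul]⟩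

private theorem BlowO_analytic (hX : Surface X) (hu : TMap X Λ u) (hD : CurveD X D Λ u) (hα : TF (X \ Zs X D Λ u B) Λ u α)
    (hl : Ker l q) (hq : q ∈ X) (hB : ∃ b ∈ B, u q - b ∈ Λ) (φ : ℂ × ℂ → ι → V)
    (υ : ℂ × ℂ → ℂ) (p : ℂ × ℂ) (hφ : AnalyticAt ℂ φ p) (hυ : AnalyticAt ℂ υ p)
    (hmem : ∀ᶠ y in 𝓝 p, φ y ∈ blow l X \ Zs (blow l X) (blow l D) Λ (uB u) B ∧ uB u (φ y) - υ y ∈ Λ) :
    AnalyticAt ℂ (fun y => aB α (υ y) (φ y) (fderiv ℂ φ y (1, 0)) (fderiv ℂ φ y (0, 1))) p := by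
  have : CompleteSpace V := FiniteDimensional.complete ℂ V
  have hp := hmem.self_of_nhds.1
  obtain ⟨b, hb⟩ := H62.BU.exists_ne (φ p) hp.1
  have hψ : AnalyticAt ℂ (fun y => φ y b) p :=
    AnalyticAt.comp ((ContinuousLinearMap.proj (R := ℂ) (φ := fun _ : ι => V) b).analyticAt _) hφ
  have hne : ∀ᶠ y in 𝓝 p, φ y b ≠ 0 := by
    have h1 : Tendsto (fun y => φ y b) (𝓝 p) (𝓝 (φ p b)) := hψ.continuousAt
    exact h1.eventually_ne hb
  have hψX : ∀ᶠ y in 𝓝 p, φ y b ∈ X \ Zs X D Λ u B ∧ u (φ y b) - υ y ∈ Λ := by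
    filter_upwards [hmem, hne] with y h1 h2
    exact ⟨(BlowO_comp hX hu hD hl hq hB h1.1 h2).1, BlowO_u hX hu h1.1.1 h1.2 h2⟩
  have hαa := hα.analytic (fun y => φ y b) υ p hψ hυ hψX
  refine hαa.congr ?_
  filter_upwards [eventually_eventually_nhds.mpr hmem, hne, hφ.eventually_analyticAt] with y h1 h2 h3
  have h4 : ∀ w : ℂ × ℂ, fderiv ℂ (fun y => φ y b) y w = (fderiv ℂ φ y w) b := by
    intro w
    have h5 := h3.differentiableAt.hasFDerivAt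
    have h6 : HasFDerivAt (fun y => φ y b)
        ((ContinuousLinearMap.proj (R := ℂ) (φ := fun _ : ι => V) b).comp (fderiv ℂ φ y)) y :=
      ((ContinuousLinearMap.proj (R := ℂ) (φ := fun _ : ι => V) b).hasFDerivAt (x := φ y)).comp y h5
    rw [h6.fderiv]
    rfl
  have h7 : ∀ᶠ y in 𝓝 y, φ y ∈ blow l X \ Zs (blow l X) (blow l D) Λ (uB u) B := h1.mono fun y hy => hy.1
  rw [aB_openEq hX hu hD hα hl hq hB h7.self_of_nhds h1.self_of_nhds.2 (H62.BU.tan_fderiv h3 h7 (1, 0))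
    (H62.BU.tan_fderiv h3 h7 (0, 1)) h2]
  simp only [h4]

theorem tf_open (hX : Surface X) (hu : TMap X Λ u) (hD : CurveD X D Λ u) (hα : TF (X \ Zs X D Λ u B) Λ u α) (hl : Ker l q) (hq : q ∈ X)
    (hB : ∃ b ∈ B, u q - b ∈ Λ) : TF (blow l X \ Zs (blow l X) (blow l D) Λ (uB u) B) Λ (uB u) (aB α) := by
  refine ⟨?_, ?_, ?_, ?_⟩
  · intro z y hy hz v hv w hw a b'
    obtain ⟨b, hb, hom⟩ := BlowO_def (l := l) (α := α) hy.1
    rw [hom, hom]
    have h1 := hα.add_smul z (y b) (BlowO_comp hX hu hD hl hq hB hy hb).1 (BlowO_u hX hu hy.1 hz hb) (v b)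
      (BlowO_tan hX hu hD hl hq hB hv hb) (w b) (BlowO_tan hX hu hD hl hq hB hw hb) a b'
    simp only [Pi.add_apply, Pi.smul_apply]
    exact h1
  · intro z y hy hz v hv w hw a b' c d
    obtain ⟨b, hb, hom⟩ := BlowO_def (l := l) (α := α) hy.1
    rw [hom, hom]
    have h1 := hα.det z (y b) (BlowO_comp hX hu hD hl hq hB hy hb).1 (BlowO_u hX hu hy.1 hz hb) (v b)
      (BlowO_tan hX hu hD hl hq hB hv hb) (w b) (BlowO_tan hX hu hD hl hq hB hw hb) a b' c d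
    simp only [Pi.add_apply, Pi.smul_apply]
    exact h1
  · intro z y hy hz v hv w hw c hc
    obtain ⟨b, hb, hom⟩ := BlowO_def (l := l) (α := α) hy.1
    have hconeB := BlowO_smulB hX hu hD hl hq hB
    have hcy := hconeB y hy c hc
    have hcb : (c • y) b ≠ 0 := by
      rw [Pi.smul_apply]
      exact smul_ne_zero hc hb
    have hyb := (BlowO_comp hX hu hD hl hq hB hy hb).1
    have hu1 := BlowO_u hX hu hy.1 hz hb
    have hz2 : uB u (c • y) - z ∈ Λ := by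
      have h1 := H17N.uB_eq hX hu hcy.1 hcb
      have h2 := hu.smul (y b) hyb.1 c hc
      have h3 := Λ.add_mem (Λ.add_mem h1 h2) hu1
      have h4 : uB u (c • y) - u ((c • y) b) + (u (c • y b) - u (y b)) + (u (y b) - z) = uB u (c • y) - z := by
        rw [Pi.smul_apply]
        ring
      rwa [h4] at h3
    rw [hom, aB_openEq hX hu hD hα hl hq hB hcy hz2 (BlowO_tan_smul hconeB hv hc) (BlowO_tan_smul hconeB hw hc) hcb]
    simp only [Pi.smul_apply]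
    exact hα.scale z (y b) hyb hu1 (v b) (BlowO_tan hX hu hD hl hq hB hv hb) (w b) (BlowO_tan hX hu hD hl hq hB hw hb) c hc
  · intro φ υ p hφ hυ hmem
    exact BlowO_analytic hX hu hD hα hl hq hB φ υ p hφ hυ hmem

theorem per_open (hX : Surface X) (hu : TMap X Λ u) (hD : CurveD X D Λ u) (hα : TF (X \ Zs X D Λ u B) Λ u α) (hl : Ker l q) (hq : q ∈ X)
    (hB : ∃ b ∈ B, u q - b ∈ Λ) (hle : Γ ≤ Λ) (h : PerV (X \ Zs X D Λ u B) Λ Γ u α) :
    PerV (blow l X \ Zs (blow l X) (blow l D) Λ (uB u) B) Λ Γ (uB u) (aB α) := by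
  intro z c hc y hy hz v hv w hw
  obtain ⟨b, hb, hom⟩ := BlowO_def (l := l) (α := α) hy.1
  rw [hom, hom]
  exact h z c hc (y b) (BlowO_comp hX hu hD hl hq hB hy hb).1 (BlowO_u hX hu hy.1 hz hb) (v b)
    (BlowO_tan hX hu hD hl hq hB hv hb) (w b) (BlowO_tan hX hu hD hl hq hB hw hb)

theorem van_open (hX : Surface X) (hu : TMap X Λ u) (hD : CurveD X D Λ u) (hα : TF (X \ Zs X D Λ u B) Λ u α) (hl : Ker l q) (hq : q ∈ X)
    (hB : ∃ b ∈ B, u q - b ∈ Λ) (h : VanV (X \ Zs X D Λ u B) Λ u α) :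
    VanV (blow l X \ Zs (blow l X) (blow l D) Λ (uB u) B) Λ (uB u) (aB α) := by
  intro y hy hz v hv w hw
  obtain ⟨b, hb, hom⟩ := BlowO_def (l := l) (α := α) hy.1
  rw [hom]
  have h1 : u (y b) - 0 ∈ Λ := BlowO_u hX hu hy.1 (by rwa [sub_zero]) hb
  rw [sub_zero] at h1
  exact h (y b) (BlowO_comp hX hu hD hl hq hB hy hb).1 h1 (v b) (BlowO_tan hX hu hD hl hq hB hv hb) (w b)
    (BlowO_tan hX hu hD hl hq hB hw hb)

end Pool.Agent.H17L

end
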