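import Pool.Agent.H94.CB.M247
import Pool.Agent.H94.CB.M248
import Pool.Agent.H94.CB.M249
import Pool.Agent.H94.CB.M83
import Pool.Agent.H94.CB.M85
import Pool.Agent.H94.CB.M92
import Pool.Agent.H94.CB.M93

/-! The parts of this file: H17L.BlowQ, H86.LS.NoD, H86.LS.Bridge, H86.LS.Main. -/

section

/-!
# H17L BlowQ: the open part of the blow-up (second part: `thin_open`, `fib_blowD`)

The blown up point `q` lies over `B`, so the part of the surface outside `D` and the fibres over `B` does not change.  Models: H17N/BlowF.lean, H17N/BlowG.lean, `fib_blow` in H17N/BlowT.lean.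

* `mem_open`: `→`: `y ∈ blow l X`, let `x = y b ≠ 0`, `x ∈ X` (`comp_mem`), `uB u y - u x ∈ Λ` (`uB_eq`), so `x` does not lie over `B`, so it is not a multiple of `q` (`tor.smul`), so some `l b' x ≠ 0` (`Ker`), `y = c • phi l x` (`eq_phi`), and `x ∉ D` by `phi_mem_strict`.  `←`: `x` does not lie over `B`, so it is not a multiple of `q` and
  `l b x ≠ 0` for some `b`; `dense_sub`, `phi_mem_strict`, `uB_eq`.
* `tf_open`: all components `≠ 0` of a point `y = c • phi l x` are multiples of `x`, so they are in `X \ Z`; tangent vectors `v` of `blow l X \ Z'` at `y` have components `v b ∈ Tan (X \ Z) (y b)` (the components of the curves); `aB α z y v w = α z (y b) (v b) (w b)` for every `b` with `y b ≠ 0` (pattern `BlowF_indep`, `aB_eq`: here directly: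
  a curve in `blow l X \ Z'` through `y` has proportional components, `y b' = a • y b`, and the derivatives satisfy `v b' = a • v b + a' • y b`, `a'` depending on `v`, by `H62.BU.prop`; `scale`, `add_smul`).  Then as in BlowF.
* `per_open`, `van_open`: immediate from `aB_openEq`.
* `thin_open`: let `σ1, τ1` be a chart of `blow l X \ Z'` at `y`, `b` with `l b (x) ≠ 0`, where `y = c • phi l x`; `σ p = σ1 p b` is a chart of `X \ Z` at `y b` with the inverse `x' ↦ τ1 (a • phi l x')`, `a` the constant with `a • phi l (y b) = y`; and `cf (aB α) υ σ1 p = cf α υ σ p` (`aB_openEq`; `fderiv` commutes with the projection to the component `b`).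
* `fib_blowD`: as `fib_blow`: let `f` be an entire curve in `blow l X \ blow l D`, in a fibre.  If the value is over `B` we are done.  Otherwise all components `≠ 0` of `f z` are not multiples of `q`, `f z = c • phi l (x z)`; `x z = cmp (f z)` is holomorphic (`HolP`), in `X \ D`, in a fibre, not constant; `FibB`.
-/

set_option autoImplicit false

open Topology Filter

namespace Pool.Agent.H17L

attribute [-instance] ProperSMul.toContinuousSMul

open Pool.Agent.H17BP (Surface IsChart Tan Pr HolP ResN)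
open Pool.Agent.H62.BU (blow dense phi Ker)
open Pool.Agent.H17N (TMap LU RU TF NonConst ThinF FibB HSec uB aB blow_chart)

variable {V : Type} [NormedAddCommGroup V] [NormedSpace ℂ V] [FiniteDimensional ℂ V] {ι : Type} [Fintype ι] {l : ι → V →L[ℂ] ℂ} {X D : Set V} {q : V}
  {Λ Γ : AddSubgroup ℂ} {u : V → ℂ} {B : Set ℂ} {α : ℂ → V → V → V → ℂ}

private theorem blowQ_comp {φ : ℂ × ℂ → ι → V} {p : ℂ × ℂ} (hφ : AnalyticAt ℂ φ p) (b : ι) :
    AnalyticAt ℂ (fun y => φ y b) p ∧ ∀ w : ℂ × ℂ, fderiv ℂ (fun y => φ y b) p w = (fderiv ℂ φ p w) b := by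
  refine ⟨AnalyticAt.comp ((ContinuousLinearMap.proj (R := ℂ) (φ := fun _ : ι => V) b).analyticAt _) hφ, fun w => ?_⟩
  have h6 : HasFDerivAt (fun y => φ y b)
      ((ContinuousLinearMap.proj (R := ℂ) (φ := fun _ : ι => V) b).comp (fderiv ℂ φ p)) p :=
    ((ContinuousLinearMap.proj (R := ℂ) (φ := fun _ : ι => V) b).hasFDerivAt (x := φ p)).comp p hφ.differentiableAt.hasFDerivAt
  rw [h6.fderiv]
  rfl

private theorem blowQ_phi (l : ι → V →L[ℂ] ℂ) (a : ℂ) (x : V) : AnalyticAt ℂ (fun x : V => a • phi l x) x := by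
  have h1 : AnalyticAt ℂ (fun x : V => phi l x) x := by
    refine analyticAt_pi_iff.2 fun b => ?_
    show AnalyticAt ℂ (fun x : V => l b x • x) x
    exact ((l b).analyticAt x).smul analyticAt_id
  have h2 : AnalyticAt ℂ (fun _ : V => a) x := analyticAt_const
  exact h2.smul h1

/-- the open part is a cone -/
private theorem blowQ_smul (hX : Surface X) (hu : TMap X Λ u) (hD : CurveD X D Λ u) {x : V} (hx : x ∈ X \ Zs X D Λ u B) {c : ℂ} (hc : c ≠ 0) :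
    c • x ∈ X \ Zs X D Λ u B := by
  refine ⟨hX.smul x hx.1 c hc, ?_⟩
  rintro (h1 | ⟨-, b, hb, h1⟩)
  · refine hx.2 (Or.inl ?_)
    have h2 := hD.smul _ h1 c⁻¹ (inv_ne_zero hc)
    rwa [smul_smul, inv_mul_cancel₀ hc, one_smul] at h2
  · refine hx.2 (Or.inr ⟨hx.1, b, hb, ?_⟩)
    have h2 := hu.smul x hx.1 c hc
    have h3 := Λ.sub_mem h1 h2
    have h4 : u (c • x) - b - (u (c • x) - u x) = u x - b := by ring
    rwa [h4] at h3

/-- the component of a chart of the open part of the blow-up is a chart -/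
private theorem blowQ_chart (hX : Surface X) (hu : TMap X Λ u) (hD : CurveD X D Λ u) (hl : Ker l q) (hq : q ∈ X)
    (hB : ∃ b ∈ B, u q - b ∈ Λ) {σ1 : ℂ × ℂ → ι → V} {τ1 : (ι → V) → ℂ × ℂ}
    (h1 : IsChart (blow l X \ Zs (blow l X) (blow l D) Λ (uB u) B) σ1 τ1) :
    ∃ b τ, σ1 0 b ≠ 0 ∧ IsChart (X \ Zs X D Λ u B) (fun p => σ1 p b) τ := by
  obtain ⟨x, hx, c, hc, hyx⟩ := (mem_open hX hu hD hl hq hB).1 h1.σ_mem.self_of_nhds
  obtain ⟨b, hb0⟩ := H62.BU.exists_ne (σ1 0) h1.σ_mem.self_of_nhds.1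
  have hlb : l b x ≠ 0 := by
    intro h0
    refine hb0 ?_
    rw [hyx]
    show c • (l b x • x) = 0
    rw [h0, zero_smul, smul_zero]
  have hx0b : σ1 0 b = (c * l b x) • x := by
    rw [hyx]
    show c • (l b x • x) = _
    rw [smul_smul]
  have hl0 : l b (σ1 0 b) ≠ 0 := by
    rw [hx0b, map_smul, smul_eq_mul]
    exact mul_ne_zero (mul_ne_zero hc hlb) hlb
  obtain ⟨a, ha⟩ : ∃ a : ℂ, a = (l b (σ1 0 b))⁻¹ := ⟨_, rfl⟩
  have ha0 : a ≠ 0 := by rw [ha]; exact inv_ne_zero hl0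
  have hal : a * l b (σ1 0 b) = 1 := by rw [ha]; exact inv_mul_cancel₀ hl0
  have hphi : σ1 0 = a • phi l (σ1 0 b) := by
    rw [ha]
    exact H62.BU.eq_phi (σ1 0) h1.σ_mem.self_of_nhds.1 hb0 hl0
  have hσ := (blowQ_comp h1.σ_an b).1
  have hσc : Tendsto (fun p => σ1 p b) (𝓝 0) (𝓝 (σ1 0 b)) := hσ.continuousAt
  have hne : ∀ᶠ p in 𝓝 (0 : ℂ × ℂ), σ1 p b ≠ 0 := hσc.eventually_ne hb0
  have hlc : Tendsto (fun x' : V => l b x') (𝓝 (σ1 0 b)) (𝓝 (l b (σ1 0 b))) := (l b).continuous.tendsto _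
  have hPhi : Tendsto (fun x' : V => a • phi l x') (𝓝 (σ1 0 b)) (𝓝 (σ1 0)) := by
    have h2 := (blowQ_phi l a (σ1 0 b)).continuousAt.tendsto
    rwa [← hphi] at h2
  refine ⟨b, fun x' => τ1 (a • phi l x'), hb0, hσ, ?_, hb0, ?_, ?_, ?_, ?_⟩
  · filter_upwards [h1.σ_mem, hne] with p h2 h3
    obtain ⟨x', hx', c', hc', h4⟩ := (mem_open hX hu hD hl hq hB).1 h2
    have h5 : σ1 p b = (c' * l b x') • x' := by
      rw [h4]
      show c' • (l b x' • x') = _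
      rw [smul_smul]
    rw [h5]
    refine blowQ_smul hX hu hD hx' ?_
    intro h0
    rw [h0, zero_smul] at h5
    exact h3 h5
  · refine AnalyticAt.comp (g := τ1) (f := fun x' : V => a • phi l x') ?_ (blowQ_phi l a _)
    show AnalyticAt ℂ τ1 (a • phi l (σ1 0 b))
    rw [← hphi]
    exact h1.τ_an
  · have h2 : Tendsto (fun p : ℂ × ℂ => (σ1 p, a * l b (σ1 p b))) (𝓝 0) (𝓝 (σ1 0, (1 : ℂ))) := by
      refine h1.σ_an.continuousAt.tendsto.prodMk_nhds ?_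
      have h3 := (hlc.comp hσc).const_mul a
      rwa [hal] at h3
    filter_upwards [h2.eventually h1.inv, h1.σ_mem, hne, (hlc.comp hσc).eventually_ne hl0, h1.left] with p h3 h4 h5 h6 h7
    have h6' : l b (σ1 p b) ≠ 0 := h6
    have h8 := H62.BU.eq_phi (σ1 p) h4.1 h5 h6'
    have h9 : a • phi l (σ1 p b) = (a * l b (σ1 p b)) • σ1 p := by
      have h10 : a • phi l (σ1 p b) = (a * l b (σ1 p b)) • ((l b (σ1 p b))⁻¹ • phi l (σ1 p b)) := by
        rw [smul_smul, mul_assoc, mul_inv_cancel₀ h6', mul_one]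
      rw [← h8] at h10
      exact h10
    show τ1 (a • phi l (σ1 p b)) = p
    rw [h9]
    rw [h7] at h3
    exact h3
  · filter_upwards [hPhi.eventually h1.right, hlc.eventually_ne hl0] with x' h2 h3 h4
    obtain ⟨c', hc', h5⟩ := h2 ((mem_open hX hu hD hl hq hB).2 ⟨x', h4, a, ha0, rfl⟩)
    have h6 : (a * l b x') • x' = c' • σ1 (τ1 (a • phi l x')) b := by
      have h7 := congrFun h5 b
      have h8 : (a • phi l x') b = (a * l b x') • x' := by
        show a • (l b x' • x') = _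
        rw [smul_smul]
      rw [h8] at h7
      exact h7
    refine ⟨(a * l b x')⁻¹ * c', mul_ne_zero (inv_ne_zero (mul_ne_zero ha0 h3)) hc', ?_⟩
    show x' = ((a * l b x')⁻¹ * c') • σ1 (τ1 (a • phi l x')) b
    rw [← smul_smul, ← h6, smul_smul, inv_mul_cancel₀ (mul_ne_zero ha0 h3), one_smul]
  · have h2 : Tendsto (fun p : V × ℂ => (a • phi l p.1, p.2 ^ 2)) (𝓝 (σ1 0 b, (1 : ℂ))) (𝓝 (σ1 0, (1 : ℂ))) := by
      refine Tendsto.prodMk_nhds ?_ ?_
      · exact hPhi.comp (continuous_fst.tendsto (σ1 0 b, (1 : ℂ)))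
      · have h3 : Continuous (fun p : V × ℂ => p.2 ^ 2) := by fun_prop
        have h4 := h3.tendsto (σ1 0 b, (1 : ℂ))
        simpa using h4
    filter_upwards [h2.eventually h1.inv] with p h3
    show τ1 (a • phi l (p.2 • p.1)) = τ1 (a • phi l p.1)
    rw [H62.BU.phi_smul, smul_comm a]
    exact h3

theorem thin_open (hX : Surface X) (hu : TMap X Λ u) (hD : CurveD X D Λ u) (hα : TF (X \ Zs X D Λ u B) Λ u α) (hl : Ker l q) (hq : q ∈ X)
    (hB : ∃ b ∈ B, u q - b ∈ Λ) (h : ThinF (X \ Zs X D Λ u B) Λ u α) :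
    ThinF (blow l X \ Zs (blow l X) (blow l D) Λ (uB u) B) Λ (uB u) (aB α) := by
  intro σ1 τ1 υ1 h1 hυa hυ hv
  obtain ⟨b, τ, hb0, h2⟩ := blowQ_chart hX hu hD hl hq hB h1
  have hne : ∀ᶠ p in 𝓝 (0 : ℂ × ℂ), σ1 p b ≠ 0 := (blowQ_comp h1.σ_an b).1.continuousAt.eventually_ne hb0
  refine h (fun p => σ1 p b) τ υ1 h2 hυa ?_ ?_
  · filter_upwards [hυ, h1.σ_mem, hne] with p h3 h4 h5
    have h6 := H17N.uB_eq hX hu h4.1 h5
    have h7 := Λ.sub_mem h3 h6
    have h8 : uB u (σ1 p) - υ1 p - (uB u (σ1 p) - u (σ1 p b)) = u (σ1 p b) - υ1 p := by ring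
    rwa [h8] at h7
  · filter_upwards [hυ, h1.σ_mem.eventually_nhds, hne, hv, h1.σ_an.eventually_analyticAt] with p h3 h4 h5 h6 h7
    rw [(blowQ_comp h7 b).2, (blowQ_comp h7 b).2,
      ← aB_openEq hX hu hD hα hl hq hB h4.self_of_nhds h3 (H62.BU.tan_fderiv h7 h4 (1, 0)) (H62.BU.tan_fderiv h7 h4 (0, 1)) h5]
    exact h6

theorem fib_blowD (hX : Surface X) (hu : TMap X Λ u) (hD : CurveD X D Λ u) (hl : Ker l q) (hq : q ∈ X) (hB : ∃ b ∈ B, u q - b ∈ Λ)
    (h : FibB (X \ D) Λ u B) : FibB (blow l X \ blow l D) Λ (uB u) B := by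
  have hX' := Pool.Agent.H17BP.surface_iff.2 hX
  intro g hh hmem' hconst hnc
  have hmem : ∀ z, g z ∈ blow l X := fun z => (hmem' z).1
  by_contra hcon
  choose b hbne using fun z => Pool.Agent.H62.BU.exists_ne (g z) (hmem z)
  have hfX : ∀ z, g z (b z) ∈ X := fun z => Pool.Agent.H62.BU.comp_mem hX' (g z) (hmem z) (hbne z)
  have huf : ∀ z, uB u (g z) - u (g z (b z)) ∈ Λ := fun z => H17N.uB_eq hX hu (hmem z) (hbne z)
  have huc : ∀ z w, u (g z (b z)) - u (g w (b w)) ∈ Λ := by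
    intro z w
    have h1 := Λ.add_mem (Λ.sub_mem (hconst z w) (huf z)) (huf w)
    have h2 : uB u (g z) - uB u (g w) - (uB u (g z) - u (g z (b z))) + (uB u (g w) - u (g w (b w))) =
        u (g z (b z)) - u (g w (b w)) := by ring
    rwa [h2] at h1
  have hfin : ¬ ∃ b₁ ∈ B, u (g 0 (b 0)) - b₁ ∈ Λ := by
    rintro ⟨b₁, hb₁, h1⟩
    refine hcon ⟨b₁, hb₁, ?_⟩
    have h2 := Λ.add_mem (huf 0) h1
    have h3 : uB u (g 0) - u (g 0 (b 0)) + (u (g 0 (b 0)) - b₁) = uB u (g 0) - b₁ := by ring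
    rwa [h3] at h2
  -- the components are not multiples of `q`
  have hl' : ∀ z, ∃ b', l b' (g z (b z)) ≠ 0 := by
    intro z
    by_contra hl0
    push Not at hl0
    obtain ⟨c, e⟩ := (hl (g z (b z))).1 hl0
    have hc : c ≠ 0 := by
      intro h0
      rw [h0, zero_smul] at e
      exact hbne z e
    obtain ⟨b₁, hb₁, h1⟩ := hB
    refine hfin ⟨b₁, hb₁, ?_⟩
    have h2 := hu.smul q hq c hc
    rw [← e] at h2
    have h3 := Λ.add_mem (Λ.add_mem (huc 0 z) h2) h1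
    have h4 : u (g 0 (b 0)) - u (g z (b z)) + (u (g z (b z)) - u q) + (u q - b₁) = u (g 0 (b 0)) - b₁ := by ring
    rwa [h4] at h3
  have hphi : ∀ z, l (b z) (g z (b z)) ≠ 0 ∧ g z = (l (b z) (g z (b z)))⁻¹ • phi l (g z (b z)) := by
    intro z
    obtain ⟨b', hb'⟩ := hl' z
    exact ⟨Pool.Agent.H62.BU.ne_of_ne (g z) (hmem z) (hbne z) hb', Pool.Agent.H62.BU.eq_phi (g z) (hmem z) (hbne z) hb'⟩
  have hfD : ∀ z, g z (b z) ∈ X \ D := by
    intro z
    refine ⟨hfX z, fun h0 => (hmem' z).2 ?_⟩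
    rw [(hphi z).2]
    exact (phi_mem_strict hX hD (hfX z) (hl' z) (inv_ne_zero (hphi z).1)).2 h0
  have hHol : ∀ z₀, HolP (fun z => g z (b z)) z₀ := by
    intro z₀
    obtain ⟨H, hHan, hH0, hHe⟩ := hh z₀
    obtain ⟨b₀, hb₀⟩ := Function.ne_iff.1 hH0
    have hb₀' : H z₀ b₀ ≠ 0 := hb₀
    have han : AnalyticAt ℂ (fun z => H z b₀) z₀ := (analyticAt_pi_iff.1 hHan) b₀
    refine ⟨fun z => H z b₀, han, hb₀', ?_⟩
    filter_upwards [hHe, han.continuousAt.eventually_ne hb₀'] with z hz hz0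
    obtain ⟨c, hc, e⟩ := hz
    have e1 : g z b₀ = c • H z b₀ := congrFun e b₀
    have h1 : g z b₀ ≠ 0 := by
      rw [e1]
      exact smul_ne_zero hc hz0
    obtain ⟨c', e2⟩ := Pool.Agent.H62.BU.comp_smul (g z) (hmem z) h1 (b z)
    have hc' : c' ≠ 0 := by
      intro h0
      rw [h0, zero_smul] at e2
      exact hbne z e2
    refine ⟨c' * c, mul_ne_zero hc' hc, ?_⟩
    show g z (b z) = (c' * c) • H z b₀
    rw [e2, e1, smul_smul]
  by_cases hcase : ∃ z w, ¬ Pr (g z (b z)) (g w (b w))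
  · exact hfin (h (fun z => g z (b z)) hHol hfD huc hcase)
  · push Not at hcase
    obtain ⟨z, w, hzw⟩ := hnc
    apply hzw
    have hpz : ∀ z, Pr (g z) (phi l (g z (b z))) := fun z => ⟨_, inv_ne_zero (hphi z).1, (hphi z).2⟩
    have hpp : Pr (phi l (g z (b z))) (phi l (g w (b w))) := by
      obtain ⟨c, hc, e⟩ := hcase z w
      refine ⟨c ^ 2, pow_ne_zero 2 hc, ?_⟩
      rw [e, Pool.Agent.H62.BU.phi_smul]
    exact ((hpz z).trans hpp).trans (hpz w).symm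

end Pool.Agent.H17L

end

section

/-!
# LS NoD: a limit of the sections is not in all the `D i` if there are no entire curves in the intersection of the `D i`

The intersection is compact and contains no entire curves, so by Kwack's theorem a holomorphic map to it, defined on the complement of the discrete set `B`,
extends to an entire curve, and it is constant.
-/

set_option autoImplicit false

open Topology Filter Metric

namespace Pool.Agent.H86.LS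

attribute [-instance] ProperSMul.toContinuousSMul

open Pool.Agent.H36.BP (EN fs wd)
open Pool.Agent.H14.PP (IsCone)
open Pool.Agent.H62.EF (Lat MN pr TorusMap Sec)
open Pool.Agent.H62.EL (BadSet Gd isClosed_gd gd_notMem gd_mono)
open Pool.Agent.H17BP (Pr HolP Picard Brody)
open Pool.Agent.H36.BPL (Brody2 AffProper curve_picard2)

variable {N s : ℕ} {X : Set (EN N)} {Λ : AddSubgroup ℂ} {u : EN N → ℂ} {B : Set ℂ} {δ : ℝ} {G : Fin s → EN N → ℂ} {m : Fin s → ℕ}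

theorem lift_of_holP {f : ℂ → EN N} (hf : ∀ z, HolP f z) : ∃ F : ℂ → EN N, Differentiable ℂ F ∧ ∀ z, F z ≠ 0 ∧ Pr (F z) (f z) := by
  have h0 : ∀ z, (Pool.Agent.H17EF.LE N).symm (f z) ≠ 0 := by
    intro z h
    obtain ⟨F, -, hF0, hev⟩ := hf z
    obtain ⟨c, hc, hcz⟩ := hev.self_of_nhds
    have h1 : f z = 0 := (Pool.Agent.H17EF.LE N).symm.map_eq_zero_iff.1 h
    rw [h1] at hcz
    rcases smul_eq_zero.1 hcz.symm with h2 | h2
    · exact hc h2
    · exact hF0 h2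
  have hg : Pool.Agent.H17.HolomorphicInto (fun z => Projectivization.mk ℂ ((Pool.Agent.H17EF.LE N).symm (f z)) (h0 z)) Set.univ := by
    intro z _
    obtain ⟨F, hF, hF0, hev⟩ := hf z
    refine ⟨fun w => (Pool.Agent.H17EF.LE N).symm (F w),
      (((Pool.Agent.H17EF.LE N).symm : EN N →L[ℂ] (Fin (N + 1) → ℂ)).analyticAt _).comp hF, ?_⟩
    filter_upwards [hev, hF.continuousAt.eventually_ne hF0] with w hw hw0
    refine ⟨fun h => hw0 ((Pool.Agent.H17EF.LE N).symm.map_eq_zero_iff.1 h), ?_⟩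
    obtain ⟨c, hc, hcw⟩ := hw
    rw [Projectivization.mk_eq_mk_iff']
    exact ⟨c, by rw [hcw, map_smul]⟩
  obtain ⟨F, hF, hFg⟩ := Pool.Agent.H17EF.exists_lift hg
  refine ⟨F, hF, fun z => ?_⟩
  obtain ⟨h1, h2⟩ := hFg z
  refine ⟨fun h => h1 (by rw [h, map_zero]), ?_⟩
  rw [Projectivization.mk_eq_mk_iff'] at h2
  obtain ⟨c, hc⟩ := h2
  rw [← map_smul] at hc
  have h3 := (Pool.Agent.H17EF.LE N).symm.injective hc
  have hc0 : c ≠ 0 := by
    rintro rfl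
    rw [zero_smul] at h3
    exact h0 z (by rw [← h3, map_zero])
  exact ⟨c⁻¹, inv_ne_zero hc0, by rw [← h3, smul_smul, inv_mul_cancel₀ hc0, one_smul]⟩

theorem closed_D (E : LData X Λ u B δ G m) {y : EN N} (hy : y ∈ closure {x | x ∈ X ∧ ∀ i, G i x = 0}) (hy0 : y ≠ 0) : y ∈ X ∧ ∀ i, G i y = 0 := by
  constructor
  · have h1 : {x | x ∈ X ∧ ∀ i, G i x = 0} ⊆ insert 0 X := fun x hx => Or.inr hx.1
    have h2 := closure_minimal h1 E.cone.closed hy
    rcases h2 with h2 | h2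
    · exact absurd h2 hy0
    · exact h2
  · have h1 : {x | x ∈ X ∧ ∀ i, G i x = 0} ⊆ {x | ∀ i, G i x = 0} := fun x hx => hx.2
    have h2 : IsClosed {x : EN N | ∀ i, G i x = 0} := by
      simp only [Set.setOf_forall]
      exact isClosed_iInter fun i => isClosed_eq (E.dif i).continuous continuous_const
    exact closure_minimal h1 h2 hy

theorem picard_D (E : LData X Λ u B δ G m)
    (hno : ∀ F : ℂ → EN N, Differentiable ℂ F → (∀ z, F z ∈ X) → (∀ i z, G i (F z) = 0) → ∀ z w, ∃ c : ℂ, F z = c • F w) : Picard {x | x ∈ X ∧ ∀ i, G i x = 0} ∅ ∧ Brody {x | x ∈ X ∧ ∀ i, G i x = 0} ∅ := by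
  have hs : ∀ x ∈ {x | x ∈ X ∧ ∀ i, G i x = 0}, ∀ c : ℂ, c ≠ 0 → c • x ∈ {x | x ∈ X ∧ ∀ i, G i x = 0} := by
    rintro x ⟨hx, hx0⟩ c hc
    exact ⟨E.cone.smul_mem _ hx c hc, fun i => by rw [E.hom, hx0 i, mul_zero]⟩
  refine curve_picard2 (X := {x | x ∈ X ∧ ∀ i, G i x = 0}) (K := {x | x ∈ X ∧ ∀ i, G i x = 0}) (fun h => E.cone.zero_notMem h.1)
    (fun x hx hx0 => closed_D E hx hx0) (le_refl _) hs (fun x _ => Eventually.of_forall fun y hy => hy) (AffProper.closed _ hs) ?_ ?_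
  · intro F z₀ _ h
    exact absurd h.self_of_nhds.1 h.self_of_nhds.2
  · intro f hf hfD _ _ z w
    obtain ⟨F, hF, hFf⟩ := lift_of_holP hf
    have hFD : ∀ z, F z ∈ X ∧ ∀ i, G i (F z) = 0 := by
      intro z
      obtain ⟨-, c, hc, h⟩ := hFf z
      rw [h]
      exact hs _ (hfD z) c hc
    obtain ⟨c, hc⟩ := hno F hF (fun z => (hFD z).1) (fun i z => (hFD z).2 i) z w
    obtain ⟨h1, a, ha, h2⟩ := hFf z
    obtain ⟨h3, a', ha', h4⟩ := hFf w
    have hc0 : c ≠ 0 := by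
      rintro rfl
      rw [zero_smul] at hc
      exact h1 hc
    refine ⟨a⁻¹ * (c * a'), mul_ne_zero (inv_ne_zero ha) (mul_ne_zero hc0 ha'), ?_⟩
    have h5 : f z = a⁻¹ • F z := by rw [h2, smul_smul, inv_mul_cancel₀ ha, one_smul]
    rw [h5, hc, h4, smul_smul, smul_smul, mul_assoc]

theorem no_limit (E : LData X Λ u B δ G m)
    (hno : ∀ F : ℂ → EN N, Differentiable ℂ F → (∀ z, F z ∈ X) → (∀ i z, G i (F z) = 0) → ∀ z w, ∃ c : ℂ, F z = c • F w) {x : ℂ → EN N}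
    (hx : ∀ z₀, z₀ ∉ B → ∃ (r : ℝ) (Ψ : ℂ → EN N), 0 < r ∧ DifferentiableOn ℂ Ψ (ball z₀ r) ∧
      ∀ z ∈ ball z₀ r, Ψ z ∈ X ∧ u (Ψ z) - z ∈ Λ ∧ ∃ c : ℂ, c ≠ 0 ∧ Ψ z = c • x z)
    (h0 : ∀ i z, z ∉ B → G i (x z) = 0) : False := by
  classical
  obtain ⟨hpic, hbro⟩ := picard_D E hno
  have hδ := E.bad.pos
  have hxX : ∀ z, z ∉ B → x z ∈ X ∧ u (x z) - z ∈ Λ := by
    intro z hz
    obtain ⟨r, Ψ, hr, -, h⟩ := hx z hz
    obtain ⟨h1, h2, c, hc, h3⟩ := h z (mem_ball_self hr)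
    have h4 : x z = c⁻¹ • Ψ z := by rw [h3, smul_smul, inv_mul_cancel₀ hc, one_smul]
    have h5 : x z ∈ X := by
      rw [h4]
      exact E.cone.smul_mem _ h1 _ (inv_ne_zero hc)
    refine ⟨h5, ?_⟩
    have h6 := E.tor.smul (x z) h5 c hc
    rw [← h3] at h6
    have h7 := Λ.sub_mem h2 h6
    convert h7 using 1
    ring
  have hhol : ∀ z, z ∉ B → HolP x z := by
    intro z hz
    obtain ⟨r, Ψ, hr, hd, h⟩ := hx z hz
    refine ⟨Ψ, hd.analyticAt (isOpen_ball.mem_nhds (mem_ball_self hr)), ne_zero_of_mem E.cone (h z (mem_ball_self hr)).1, ?_⟩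
    filter_upwards [isOpen_ball.mem_nhds (mem_ball_self hr)] with w hw
    obtain ⟨-, -, c, hc, h3⟩ := h w hw
    exact ⟨c⁻¹, inv_ne_zero hc, by rw [h3, smul_smul, inv_mul_cancel₀ hc, one_smul]⟩
  -- the extension over the points of `B`
  have hnear : ∀ b ∈ B, ∀ z : ℂ, z ≠ 0 → ‖z‖ < 4 * δ → b + z ∉ B := by
    intro b hb z hz hzn hzB
    have h1 := E.bad.sep (b + z) hzB b hb (fun h => hz (by simpa using h))
    rw [add_sub_cancel_left] at h1
    linarith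
  have hext : ∀ b : ℂ, ∃ F : ℂ → EN N, b ∈ B → AnalyticAt ℂ F 0 ∧ F 0 ≠ 0 ∧ ∀ᶠ z in 𝓝[≠] (0 : ℂ), Pr (x (b + z)) (F z) := by
    intro b
    by_cases hb : b ∈ B
    swap
    · exact ⟨fun _ => 0, fun h => absurd h hb⟩
    have hin : ∀ z : ℂ, z ≠ 0 → ‖z‖ < 4 * δ → HolP (fun z => x (b + z)) z ∧ x (b + z) ∈ {x | x ∈ X ∧ ∀ i, G i x = 0} := by
      intro z hz hzn
      have h1 := hnear b hb z hz hzn
      refine ⟨?_, (hxX _ h1).1, fun i => h0 i _ h1⟩
      obtain ⟨Ψ, hΨ, hΨ0, hev⟩ := hhol _ h1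
      refine ⟨fun w => Ψ (b + w), ?_, hΨ0, ?_⟩
      · exact AnalyticAt.fun_comp (g := Ψ) (f := fun w => b + w) hΨ (analyticAt_const.add analyticAt_id)
      · have h2 : Tendsto (fun w => b + w) (𝓝 z) (𝓝 (b + z)) := (continuous_const.add continuous_id).tendsto z
        exact h2.eventually hev
    have hpt : ∃ z : ℂ, z ≠ 0 ∧ ‖z‖ < 4 * δ ∧ x (b + z) ∉ (∅ : Set (EN N)) := by
      refine ⟨((2 * δ : ℝ) : ℂ), Complex.ofReal_ne_zero.2 (by positivity), ?_, Set.notMem_empty _⟩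
      rw [Complex.norm_real, Real.norm_of_nonneg (by positivity)]
      linarith
    obtain ⟨F, hF⟩ := hpic (4 * δ) (by linarith) (fun z => x (b + z)) hin hpt
    exact ⟨F, fun _ => hF⟩
  choose F hF using hext
  set x' : ℂ → EN N := fun z => if z ∈ B then F z 0 else x z with hx'
  have hx'B : ∀ z ∈ B, x' z = F z 0 := fun z hz => if_pos hz
  have hx'n : ∀ z, z ∉ B → x' z = x z := fun z hz => if_neg hz
  have hnhds : ∀ z, z ∉ B → ∀ᶠ w in 𝓝 z, w ∉ B := by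
    intro z hz
    obtain ⟨δ', hδ', hg⟩ := E.bad.exists_gd hz
    filter_upwards [isOpen_ball.mem_nhds (mem_ball_self hδ' : z ∈ ball z δ')] with w hw hwB
    have h1 := hg w hwB
    rw [mem_ball, dist_comm, dist_eq_norm] at hw
    linarith
  have hnhdsB : ∀ b ∈ B, ∀ᶠ z in 𝓝[≠] b, z ∉ B := by
    intro b hb
    rw [eventually_nhdsWithin_iff]
    filter_upwards [isOpen_ball.mem_nhds (mem_ball_self (by linarith) : b ∈ ball b (4 * δ))] with w hw hwb
    have h1 := hnear b hb (w - b) (sub_ne_zero.2 hwb) (by rw [← dist_eq_norm]; exact hw)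
    rwa [add_sub_cancel] at h1
  have hPb : ∀ b ∈ B, ∀ᶠ z in 𝓝[≠] b, Pr (x z) (F b (z - b)) := by
    intro b hb
    have h1 := (hF b hb).2.2
    have h2 : Tendsto (fun z => z - b) (𝓝[≠] b) (𝓝[≠] 0) := by
      refine tendsto_nhdsWithin_iff.2 ⟨?_, ?_⟩
      · have h3 : Tendsto (fun z => z - b) (𝓝 b) (𝓝 (b - b)) := (continuous_id.sub continuous_const).tendsto b
        rw [sub_self] at h3
        exact h3.mono_left nhdsWithin_le_nhds
      · filter_upwards [self_mem_nhdsWithin] with z hz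
        exact sub_ne_zero.2 hz
    filter_upwards [h2.eventually h1] with z hz
    rwa [add_sub_cancel] at hz
  have hhol' : ∀ z, HolP x' z := by
    intro z
    by_cases hz : z ∈ B
    · obtain ⟨h1, h2, h3⟩ := hF z hz
      refine ⟨fun w => F z (w - z), ?_, by show F z (z - z) ≠ 0; rw [sub_self]; exact h2, ?_⟩
      · have h4 : AnalyticAt ℂ (F z) (z - z) := by rwa [sub_self]
        exact AnalyticAt.fun_comp (g := F z) (f := fun w => w - z) h4 (analyticAt_id.sub analyticAt_const)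
      · have h5 := (hPb z hz).and (hnhdsB z hz)
        rw [eventually_nhdsWithin_iff] at h5
        filter_upwards [h5] with w hw
        by_cases hwz : w = z
        · rw [hwz, hx'B z hz, sub_self]
          exact ⟨1, one_ne_zero, (one_smul _ _).symm⟩
        · rw [hx'n w (hw hwz).2]
          exact (hw hwz).1
    · obtain ⟨Ψ, hΨ, hΨ0, hev⟩ := hhol z hz
      refine ⟨Ψ, hΨ, hΨ0, ?_⟩
      filter_upwards [hev, hnhds z hz] with w hw hwB
      rw [hx'n w hwB]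
      exact hw
  have hD : ∀ z, x' z ∈ {x | x ∈ X ∧ ∀ i, G i x = 0} := by
    intro z
    by_cases hz : z ∈ B
    · obtain ⟨h1, h2, h3⟩ := hF z hz
      rw [hx'B z hz]
      refine closed_D E ?_ h2
      have h4 : Tendsto (fun w => F z (w - z)) (𝓝[≠] z) (𝓝 (F z 0)) := by
        have h5 : Tendsto (fun w => w - z) (𝓝 z) (𝓝 0) := by
          have h6 : Tendsto (fun w => w - z) (𝓝 z) (𝓝 (z - z)) := (continuous_id.sub continuous_const).tendsto z
          rwa [sub_self] at h6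
        exact (h1.continuousAt.tendsto.comp h5).mono_left nhdsWithin_le_nhds
      refine mem_closure_of_tendsto h4 ?_
      filter_upwards [hPb z hz, hnhdsB z hz] with w hw hwB
      obtain ⟨c, hc, hcw⟩ := hw
      have h6 : F z (w - z) = c⁻¹ • x w := by rw [hcw, smul_smul, inv_mul_cancel₀ hc, one_smul]
      rw [h6]
      exact ⟨E.cone.smul_mem _ (hxX w hwB).1 _ (inv_ne_zero hc), fun i => by rw [E.hom, h0 i w hwB, mul_zero]⟩
    · rw [hx'n z hz]
      exact ⟨(hxX z hz).1, fun i => h0 i z hz⟩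
  have hcon := hbro x' hhol' hD ⟨0, Set.notMem_empty _⟩
  -- the contradiction
  obtain ⟨z₀, hz₀⟩ := E.bad.nonempty
  have hz₀B : z₀ ∉ B := gd_notMem (by linarith) hz₀
  obtain ⟨ε, hε, hdisc⟩ := E.lat.discrete
  obtain ⟨w, hw1, hw2, hw3⟩ : ∃ w, w ∉ B ∧ w ≠ z₀ ∧ ‖w - z₀‖ < ε := by
    have h1 : ∀ᶠ w in 𝓝[≠] z₀, w ∉ B ∧ ‖w - z₀‖ < ε := by
      refine (((hnhds z₀ hz₀B).and ?_)).filter_mono nhdsWithin_le_nhds
      filter_upwards [isOpen_ball.mem_nhds (mem_ball_self hε : z₀ ∈ ball z₀ ε)] with w hw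
      rw [← dist_eq_norm]
      exact hw
    obtain ⟨w, ⟨h2, h3⟩, h4⟩ := (h1.and self_mem_nhdsWithin).exists
    exact ⟨w, h2, h4, h3⟩
  obtain ⟨c, hc, hcw⟩ := hcon w z₀
  rw [hx'n w hw1, hx'n z₀ hz₀B] at hcw
  have h1 := E.tor.smul (x z₀) (hxX z₀ hz₀B).1 c hc
  rw [← hcw] at h1
  have h2 := Λ.sub_mem (Λ.add_mem h1 (hxX z₀ hz₀B).2) (hxX w hw1).2
  have h3 : w - z₀ ∈ Λ := by
    convert h2 using 1
    ring
  exact hw2 (sub_eq_zero.1 (hdisc _ h3 hw3))

/-- `NoLim` if there are no entire curves in the intersection of the `D i` -/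
theorem noLim_of_noCurves (E : LData X Λ u B δ G m)
    (hno : ∀ F : ℂ → EN N, Differentiable ℂ F → (∀ z, F z ∈ X) → (∀ i z, G i (F z) = 0) → ∀ z w, ∃ c : ℂ, F z = c • F w) : NoLim X Λ u B G := by
  intro 𝒰 F _ x hx h0
  refine no_limit E hno (x := x) (fun z₀ hz₀ => ?_) h0
  obtain ⟨r, φ, Ψ, h1⟩ := hx z₀ hz₀
  exact ⟨r, Ψ, h1.pos, h1.dif, h1.mem⟩

end Pool.Agent.H86.LS

end

section

/-!
# LS Bridge: from the projective space to the cone
-/

set_option autoImplicit false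

open Topology Filter MvPolynomial Metric

noncomputable section

namespace Pool.Agent.H86.LS

attribute [-instance] ProperSMul.toContinuousSMul

open Pool.Agent.H17 (PN VanishesAt HolomorphicInto ZariskiClosedIn)
open Pool.Agent.H62.FC (Homog)
open Pool.Agent.H62.EF (Lat Sec TorusMap)
open Pool.Agent.H62.EL (BadSet)
open Pool.Agent.H17BP (Surface)
open Pool.Agent.H13.SM (conTan cone)
open Pool.Agent.H36.BP (EN isCone_transport)
open Pool.Agent.H17EF (projVar IsHolomorphicMap coneE uE sections exists_sec mk_mem_projVar mem_coneE uE_eq sub_mem_iff torusMap holomorphicInto_of_lift eval_smul_form)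

variable {N s : ℕ}

theorem coset_dist {Λ : AddSubgroup ℂ} (hΛ : Lat Λ) (c : ℂ) : ∃ ε : ℝ, 0 < ε ∧ ∀ l ∈ Λ, c + l ≠ 0 → ε ≤ ‖c + l‖ := by
  obtain ⟨δ, hδ, hd⟩ := hΛ.discrete
  by_cases h : ∃ l₀ ∈ Λ, c + l₀ ≠ 0 ∧ ‖c + l₀‖ < δ / 2
  · obtain ⟨l₀, hl₀, h0, h1⟩ := h
    refine ⟨‖c + l₀‖, norm_pos_iff.2 h0, fun l hl hne => ?_⟩
    by_contra hcon
    push Not at hcon
    have h2 : l - l₀ = 0 := by
      refine hd _ (Λ.sub_mem hl hl₀) ?_
      have h3 : l - l₀ = (c + l) - (c + l₀) := by ring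
      rw [h3]
      have h4 := norm_sub_le (c + l) (c + l₀)
      linarith
    rw [sub_eq_zero.1 h2] at hcon
    exact lt_irrefl _ hcon
  · push Not at h
    exact ⟨δ / 2, half_pos hδ, fun l hl hne => h l hl hne⟩

theorem badSet_of_finite {Λ : AddSubgroup ℂ} (hΛ : Lat Λ) {B : Set (ℂ ⧸ Λ)} (hB : B.Finite) :
    ∃ δ : ℝ, BadSet {b : ℂ | (b : ℂ ⧸ Λ) ∈ B} Λ δ := by
  have h1 : ∀ᶠ ε in 𝓝[>] (0 : ℝ), ∀ p ∈ B ×ˢ B, ∀ b b' : ℂ, (b : ℂ ⧸ Λ) = p.1 → (b' : ℂ ⧸ Λ) = p.2 → b ≠ b' → 8 * ε ≤ ‖b - b'‖ := by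
    refine (Filter.eventually_all_finite (hB.prod hB)).2 ?_
    rintro ⟨β, γ⟩ _
    obtain ⟨b₀, rfl⟩ := QuotientAddGroup.mk_surjective β
    obtain ⟨c₀, rfl⟩ := QuotientAddGroup.mk_surjective γ
    obtain ⟨ε, hε, h⟩ := coset_dist hΛ (b₀ - c₀)
    have h2 : ∀ᶠ t in 𝓝[>] (0 : ℝ), t < ε / 8 := nhdsWithin_le_nhds (gt_mem_nhds (by positivity))
    filter_upwards [h2] with t ht b b' hb hb' hne
    have h3 : b - b₀ ∈ Λ := sub_mem_iff.2 hb
    have h4 : b' - c₀ ∈ Λ := sub_mem_iff.2 hb'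
    have h5 : (b₀ - c₀) + ((b - b₀) - (b' - c₀)) = b - b' := by ring
    have h6 := h _ (Λ.sub_mem h3 h4) (by rw [h5]; exact sub_ne_zero.2 hne)
    rw [h5] at h6
    linarith
  obtain ⟨δ, hδ1, hδ⟩ := (h1.and self_mem_nhdsWithin).exists
  refine ⟨δ, hδ, fun b hb l hl => ?_, fun b hb b' hb' hne => hδ1 (_, _) ⟨hb, hb'⟩ b b' rfl rfl hne⟩
  have h2 : ((b + l : ℂ) : ℂ ⧸ Λ) = (b : ℂ ⧸ Λ) := by
    rw [← sub_mem_iff, add_sub_cancel_left]
    exact hl
  show ((b + l : ℂ) : ℂ ⧸ Λ) ∈ B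
  rw [h2]
  exact hb

/-- the forms as functions on the Euclidean space -/
def formE (H : Fin s → MvPolynomial (Fin (N + 1)) ℂ) (i : Fin s) (y : EN N) : ℂ := eval ((Pool.Agent.H17EF.LE N).symm y) (H i)

theorem formE_dif (H : Fin s → MvPolynomial (Fin (N + 1)) ℂ) (i : Fin s) : Differentiable ℂ (formE H i) := by
  intro y
  have h1 := Pool.Agent.H36.BPL.analyticAt_form (H i) ((Pool.Agent.H17EF.LE N).symm y)
  exact (AnalyticAt.comp (g := fun x : Fin (N + 1) → ℂ => eval x (H i)) (f := fun y : EN N => (Pool.Agent.H17EF.LE N).symm y) h1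
    (((Pool.Agent.H17EF.LE N).symm : EN N →L[ℂ] (Fin (N + 1) → ℂ)).analyticAt y)).differentiableAt

theorem formE_hom {H : Fin s → MvPolynomial (Fin (N + 1)) ℂ} {d : Fin s → ℕ} (hH : ∀ i, (H i).IsHomogeneous (d i)) (i : Fin s) (c : ℂ)
    (y : EN N) : formE H i (c • y) = c ^ d i * formE H i y := by
  unfold formE
  rw [map_smul, eval_smul_form (hH i)]

theorem vanishesAt_mk {n : ℕ} {Q : MvPolynomial (Fin (N + 1)) ℂ} (hQ : Q.IsHomogeneous n) {x : Fin (N + 1) → ℂ} (hx : x ≠ 0) :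
    VanishesAt Q (Projectivization.mk ℂ x hx) ↔ eval x Q = 0 := by
  obtain ⟨a, ha, hrep⟩ := Pool.Agent.H36.BP.rep_mk hx
  unfold VanishesAt
  rw [hrep, eval_smul_form hQ]
  constructor
  · exact fun h => (mul_eq_zero.1 h).resolve_left (pow_ne_zero _ ha)
  · intro h
    rw [h, mul_zero]

/-- Every non-constant entire curve in a fibre of `u` which for each `i` lies in the hypersurface `H i = 0` or does not meet it lies over `B`,
and in `Z` if it does not meet the hypersurfaces. -/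
def FibreCondition (X : Set (PN N)) (Λ : AddSubgroup ℂ) (u : PN N → ℂ ⧸ Λ) (H : Fin s → MvPolynomial (Fin (N + 1)) ℂ) (B : Set (ℂ ⧸ Λ))
    (Z : Set (PN N)) : Prop :=
  ∀ f : ℂ → PN N, HolomorphicInto f Set.univ → (∀ z, f z ∈ X) → (∀ z w, u (f z) = u (f w)) → (∃ z w, f z ≠ f w) →
    (∀ i, (∀ z, VanishesAt (H i) (f z)) ∨ ∀ z, ¬ VanishesAt (H i) (f z)) →
    u (f 0) ∈ B ∧ ((∀ i z, ¬ VanishesAt (H i) (f z)) → ∀ z, f z ∈ Z)

/-- The function `ψ` on the subset `X` of `ℙ^N` is holomorphic near the point `y`. -/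
def HolomorphicAt (X : Set (PN N)) (ψ : PN N → ℂ) (y : PN N) : Prop :=
  ∀ (x : Fin (N + 1) → ℂ) (hx : x ≠ 0), Projectivization.mk ℂ x hx = y → ∃ v : (Fin (N + 1) → ℂ) → ℂ, AnalyticAt ℂ v x ∧
    ∀ᶠ w in 𝓝 x, ∀ hw : w ≠ 0, Projectivization.mk ℂ w hw ∈ X → ψ (Projectivization.mk ℂ w hw) = v w

/-- There are a disc, a part `D` of the union of the hypersurfaces `H i = 0` and a holomorphic function `ψ` on the part of `X` over the disc, outside of `D`,
such that `ψ (e z)` tends to infinity if `z` tends to the centre of the disc. -/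
def HasPole (X : Set (PN N)) (Λ : AddSubgroup ℂ) (u : PN N → ℂ ⧸ Λ) (H : Fin s → MvPolynomial (Fin (N + 1)) ℂ) (B : Set (ℂ ⧸ Λ))
    (e : ℂ → PN N) : Prop :=
  ∃ (z₀ : ℂ) (ρ : ℝ) (D : Set (PN N)) (ψ : PN N → ℂ), 0 < ρ ∧ (∀ y ∈ X, y ∈ D → ∃ i, VanishesAt (H i) y) ∧
    (∀ y ∈ X, y ∉ D → (∃ z ∈ Metric.ball z₀ ρ, u y = (z : ℂ ⧸ Λ)) → HolomorphicAt X ψ y) ∧
    (∀ z ∈ Metric.ball z₀ ρ, z ≠ z₀ → (z : ℂ ⧸ Λ) ∉ B → e z ∉ D) ∧ Tendsto (fun z => ‖ψ (e z)‖) (𝓝[≠] z₀) atTop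

/-- `e` is a holomorphic section of `u` over the complement of `B` which lies in all the hypersurfaces `H i = 0`. -/
structure IsSectionIn (X : Set (PN N)) (Λ : AddSubgroup ℂ) (u : PN N → ℂ ⧸ Λ) (H : Fin s → MvPolynomial (Fin (N + 1)) ℂ) (B : Set (ℂ ⧸ Λ))
    (e : ℂ → PN N) : Prop where
  hol : HolomorphicInto e {z : ℂ | (z : ℂ ⧸ Λ) ∉ B}
  mem : ∀ z : ℂ, (z : ℂ ⧸ Λ) ∉ B → e z ∈ X
  sec : ∀ z : ℂ, (z : ℂ ⧸ Λ) ∉ B → u (e z) = (z : ℂ ⧸ Λ)
  inH : ∀ i, ∀ z : ℂ, (z : ℂ ⧸ Λ) ∉ B → VanishesAt (H i) (e z)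

variable {P : Ideal (MvPolynomial (Fin (N + 1)) ℂ)} [P.IsPrime]

theorem noLim_of_pole (hP : Homog P) {Λ : AddSubgroup ℂ} {u : PN N → ℂ ⧸ Λ}
    {H : Fin s → MvPolynomial (Fin (N + 1)) ℂ} {d : Fin s → ℕ}
    (hH : ∀ i, (H i).IsHomogeneous (d i)) {B : Set (ℂ ⧸ Λ)} {δ : ℝ}
    (E : LData (coneE P) Λ (uE Λ u) {b : ℂ | (b : ℂ ⧸ Λ) ∈ B} δ (formE H) d)
    (hpole : ∀ e : ℂ → PN N, IsSectionIn (projVar P) Λ u H B e → HasPole (projVar P) Λ u H B e) :
    NoLim (coneE P) Λ (uE Λ u) {b : ℂ | (b : ℂ ⧸ Λ) ∈ B} (formE H) := by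
  classical
  intro 𝒰 F hF x hx h0
  have hδ := E.bad.pos
  obtain ⟨z₁, hz₁⟩ := E.bad.nonempty
  have hz₁B : (z₁ : ℂ ⧸ Λ) ∉ B := Pool.Agent.H62.EL.gd_notMem (B := {b : ℂ | (b : ℂ ⧸ Λ) ∈ B}) (by linarith) hz₁
  have hxX : ∀ z : ℂ, (z : ℂ ⧸ Λ) ∉ B → x z ∈ coneE P ∧ uE Λ u (x z) - z ∈ Λ := by
    intro z hz
    obtain ⟨r, φ, Ψ, h⟩ := hx z hz
    obtain ⟨h1, h2, c, hc, h3⟩ := h.mem z (mem_ball_self h.pos)
    have h4 : x z = c⁻¹ • Ψ z := by rw [h3, smul_smul, inv_mul_cancel₀ hc, one_smul]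
    have h5 : x z ∈ coneE P := by
      rw [h4]
      exact E.cone.smul_mem _ h1 _ (inv_ne_zero hc)
    refine ⟨h5, ?_⟩
    have h6 := E.tor.smul (x z) h5 c hc
    rw [← h3] at h6
    have h7 := Λ.sub_mem h2 h6
    convert h7 using 1
    ring
  have hx0 : ∀ z : ℂ, (z : ℂ ⧸ Λ) ∉ B → (Pool.Agent.H17EF.LE N).symm (x z) ≠ 0 := fun z hz => ((mem_coneE hP).1 (hxX z hz).1).1
  set x' : ℂ → EN N := fun z => if (z : ℂ ⧸ Λ) ∈ B then x z₁ else x z with hx'
  have hx'n : ∀ z : ℂ, (z : ℂ ⧸ Λ) ∉ B → x' z = x z := fun z hz => if_neg hz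
  have hx'0 : ∀ z, (Pool.Agent.H17EF.LE N).symm (x' z) ≠ 0 := by
    intro z
    by_cases hz : (z : ℂ ⧸ Λ) ∈ B
    · rw [hx']
      simp only [if_pos hz]
      exact hx0 z₁ hz₁B
    · rw [hx'n z hz]
      exact hx0 z hz
  set e : ℂ → PN N := fun z => Projectivization.mk ℂ ((Pool.Agent.H17EF.LE N).symm (x' z)) (hx'0 z) with he
  have hmk : ∀ (z : ℂ) (y : EN N) (c : ℂ) (hy : (Pool.Agent.H17EF.LE N).symm y ≠ 0), (z : ℂ ⧸ Λ) ∉ B → y = c • x z →
      e z = Projectivization.mk ℂ ((Pool.Agent.H17EF.LE N).symm y) hy := by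
    intro z y c hy hz hyx
    have hc : c ≠ 0 := by
      rintro rfl
      rw [zero_smul] at hyx
      exact hy (by rw [hyx, map_zero])
    simp only [he]
    rw [Projectivization.mk_eq_mk_iff']
    refine ⟨c⁻¹, ?_⟩
    rw [hx'n z hz, hyx, map_smul, smul_smul, inv_mul_cancel₀ hc, one_smul]
  have hez : ∀ (z : ℂ) (hz : (z : ℂ ⧸ Λ) ∉ B), e z = Projectivization.mk ℂ ((Pool.Agent.H17EF.LE N).symm (x z)) (hx0 z hz) :=
    fun z hz => hmk z (x z) 1 (hx0 z hz) hz (one_smul _ _).symm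
  have hnhds : ∀ z : ℂ, (z : ℂ ⧸ Λ) ∉ B → ∀ᶠ w : ℂ in 𝓝 z, (w : ℂ ⧸ Λ) ∉ B := by
    intro z hz
    obtain ⟨δ', hδ', hg⟩ := E.bad.exists_gd (z := z) hz
    filter_upwards [isOpen_ball.mem_nhds (mem_ball_self hδ' : z ∈ ball z δ')] with w hw hwB
    have h1 := hg w hwB
    rw [mem_ball, dist_comm, dist_eq_norm] at hw
    linarith
  have hsec : IsSectionIn (projVar P) Λ u H B e := by
    refine ⟨?_, ?_, ?_, ?_⟩
    · intro z hz
      have hz' : (z : ℂ ⧸ Λ) ∉ B := hz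
      obtain ⟨r, φ, Ψ, h⟩ := hx z hz'
      have hself : z ∈ ball z r := mem_ball_self h.pos
      refine ⟨fun w => (Pool.Agent.H17EF.LE N).symm (Ψ w), (((Pool.Agent.H17EF.LE N).symm : EN N →L[ℂ] (Fin (N + 1) → ℂ)).analyticAt _).comp
        (h.dif.analyticAt (isOpen_ball.mem_nhds hself)), ?_⟩
      filter_upwards [isOpen_ball.mem_nhds hself, hnhds z hz'] with w hw hwB
      obtain ⟨h1, h2, c, hc, h3⟩ := h.mem w hw
      have h4 : (Pool.Agent.H17EF.LE N).symm (Ψ w) ≠ 0 := ((mem_coneE hP).1 h1).1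
      exact ⟨h4, hmk w (Ψ w) c h4 hwB h3⟩
    · intro z hz
      rw [hez z hz]
      exact ((mem_coneE hP).1 (hxX z hz).1).2
    · intro z hz
      rw [hez z hz, ← uE_eq Λ u (hx0 z hz), ← sub_mem_iff]
      exact (hxX z hz).2
    · intro i z hz
      rw [hez z hz, vanishesAt_mk (hH i)]
      exact h0 i z hz
  obtain ⟨z₀, ρ, D, ψ, hρ, hD, hψ, hout, hlim⟩ := hpole e hsec
  set ψE : EN N → ℂ := fun y => if h : (Pool.Agent.H17EF.LE N).symm y ≠ 0 then ψ (Projectivization.mk ℂ ((Pool.Agent.H17EF.LE N).symm y) h) else 0 with hψE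
  have hψE' : ∀ y (h : (Pool.Agent.H17EF.LE N).symm y ≠ 0), ψE y = ψ (Projectivization.mk ℂ ((Pool.Agent.H17EF.LE N).symm y) h) := fun y h => dif_pos h
  set DE : Set (EN N) := {y | ∃ h : (Pool.Agent.H17EF.LE N).symm y ≠ 0, Projectivization.mk ℂ ((Pool.Agent.H17EF.LE N).symm y) h ∈ D} with hDE
  have hmks : ∀ (y : EN N) (c : ℂ) (h : (Pool.Agent.H17EF.LE N).symm y ≠ 0) (h' : (Pool.Agent.H17EF.LE N).symm (c • y) ≠ 0),
      Projectivization.mk ℂ ((Pool.Agent.H17EF.LE N).symm (c • y)) h' = Projectivization.mk ℂ ((Pool.Agent.H17EF.LE N).symm y) h := by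
    intro y c h h'
    rw [Projectivization.mk_eq_mk_iff']
    exact ⟨c, (map_smul _ _ _).symm⟩
  have hpt : PoleAt (coneE P) Λ (uE Λ u) {b : ℂ | (b : ℂ ⧸ Λ) ∈ B} (formE H) x z₀ ρ ψE DE := by
    refine ⟨hρ, ?_, ?_, ?_, ?_, ?_⟩
    · rintro y hy ⟨h, hyD⟩
      obtain ⟨i, hi⟩ := hD _ ((mem_coneE hP).1 hy).2 hyD
      rw [vanishesAt_mk (hH i)] at hi
      exact ⟨i, hi⟩
    · intro y hy c hc
      have h1 : (Pool.Agent.H17EF.LE N).symm y ≠ 0 := ((mem_coneE hP).1 hy).1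
      have h2 : (Pool.Agent.H17EF.LE N).symm (c • y) ≠ 0 := by
        rw [map_smul]
        exact smul_ne_zero hc h1
      refine ⟨?_, ?_⟩
      · rw [hψE' _ h1, hψE' _ h2, hmks y c h1 h2]
      · rintro ⟨h3, h4⟩
        rw [hmks y c h1 h3] at h4
        exact ⟨h1, h4⟩
    · rintro y hy hyD ⟨z, hz, hyz⟩
      obtain ⟨h1, h2⟩ := (mem_coneE hP).1 hy
      have h3 : u (Projectivization.mk ℂ ((Pool.Agent.H17EF.LE N).symm y) h1) = (z : ℂ ⧸ Λ) := by
        rw [← uE_eq Λ u h1, ← sub_mem_iff]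
        exact hyz
      obtain ⟨v, hv, hv'⟩ := hψ _ h2 (fun h => hyD ⟨h1, h⟩) ⟨z, hz, h3⟩ _ h1 rfl
      refine ⟨fun y => v ((Pool.Agent.H17EF.LE N).symm y), ?_, ?_⟩
      · exact AnalyticAt.comp (g := v) (f := fun y : EN N => (Pool.Agent.H17EF.LE N).symm y) hv
          (((Pool.Agent.H17EF.LE N).symm : EN N →L[ℂ] (Fin (N + 1) → ℂ)).analyticAt y)
      · have h4 : Tendsto (fun y : EN N => (Pool.Agent.H17EF.LE N).symm y) (𝓝 y) (𝓝 ((Pool.Agent.H17EF.LE N).symm y)) :=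
          (Pool.Agent.H17EF.LE N).symm.continuous.tendsto y
        filter_upwards [h4.eventually hv'] with w hw hwX
        obtain ⟨h5, h6⟩ := (mem_coneE hP).1 hwX
        rw [hψE' w h5]
        exact hw h5 h6
    · rintro z hz hne hzB ⟨h1, h2⟩
      apply hout z hz hne hzB
      rw [hez z hzB]
      exact h2
    · refine hlim.congr' ?_
      obtain ⟨σ, hσ, hσB⟩ := isolated E z₀
      filter_upwards [nhdsWithin_le_nhds (ball_mem_nhds z₀ hσ), self_mem_nhdsWithin] with z hz hne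
      have hzB : (z : ℂ ⧸ Λ) ∉ B := by
        intro hzB
        have h1 := hσB z hzB hne
        rw [mem_ball, dist_comm, dist_eq_norm] at hz
        linarith
      rw [hez z hzB, hψE' _ (hx0 z hzB)]
  exact pole_false E hF hx hpt

/-- **There are no sections in the complement of the hypersurfaces.** -/
theorem no_section (hP : Homog P) (hS : Surface (cone P)) {Λ : AddSubgroup ℂ} (hΛ : Lat Λ) {u : PN N → ℂ ⧸ Λ}
    (hu : IsHolomorphicMap (projVar P) Λ u) {H : Fin s → MvPolynomial (Fin (N + 1)) ℂ} {d : Fin s → ℕ}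
    (hH : ∀ i, (H i).IsHomogeneous (d i)) (hd : ∀ i, 0 < d i) {B : Set (ℂ ⧸ Λ)} (hB : B.Finite)
    (hD : (∀ f : ℂ → PN N, HolomorphicInto f Set.univ → (∀ z, f z ∈ projVar P) → (∀ i z, VanishesAt (H i) (f z)) → ∀ z w, f z = f w) ∨
      ∀ e : ℂ → PN N, IsSectionIn (projVar P) Λ u H B e → HasPole (projVar P) Λ u H B e)
    {Z : Set (PN N)} (hfib : FibreCondition (projVar P) Λ u H B Z) {f : ℂ → PN N}
    (hf : f ∈ sections (projVar P) Λ u) : ¬ ∀ i z, ¬ VanishesAt (H i) (f z) := by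
  intro hfU
  obtain ⟨δ, hbad⟩ := badSet_of_finite hΛ hB
  -- lifts and maps
  have hmk : ∀ (F : ℂ → EN N), Differentiable ℂ F → (∀ z, F z ∈ coneE P) → ∃ g : ℂ → PN N, HolomorphicInto g Set.univ ∧
      ∀ z, ∃ h : (Pool.Agent.H17EF.LE N).symm (F z) ≠ 0, g z = Projectivization.mk ℂ ((Pool.Agent.H17EF.LE N).symm (F z)) h := by
    intro F hF hFX
    have h0 : ∀ z, (Pool.Agent.H17EF.LE N).symm (F z) ≠ 0 := fun z => ((mem_coneE hP).1 (hFX z)).1
    exact ⟨_, holomorphicInto_of_lift hF h0, fun z => ⟨h0 z, rfl⟩⟩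
  have hprop : ∀ {x y : EN N} (hx : (Pool.Agent.H17EF.LE N).symm x ≠ 0) (hy : (Pool.Agent.H17EF.LE N).symm y ≠ 0),
      Projectivization.mk ℂ ((Pool.Agent.H17EF.LE N).symm x) hx = Projectivization.mk ℂ ((Pool.Agent.H17EF.LE N).symm y) hy ↔
        ∃ c : ℂ, x = c • y := by
    intro x y hx hy
    rw [Projectivization.mk_eq_mk_iff']
    constructor
    · rintro ⟨c, hc⟩
      rw [← map_smul] at hc
      exact ⟨c, ((Pool.Agent.H17EF.LE N).symm.injective hc).symm⟩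
    · rintro ⟨c, hc⟩
      exact ⟨c, by rw [hc, map_smul]⟩
  have E : LData (coneE P) Λ (uE Λ u) {b : ℂ | (b : ℂ ⧸ Λ) ∈ B} δ (formE H) d := by
    refine ⟨isCone_transport (Pool.Agent.H17EF.LE N) hS, torusMap hP hu, hΛ, hbad, formE_dif H, formE_hom hH, hd, ?_⟩
    intro F hF hFX hdi hver hnc
    obtain ⟨g, hg, hgF⟩ := hmk F hF hFX
    have hgX : ∀ z, g z ∈ projVar P := by
      intro z
      obtain ⟨h, h'⟩ := hgF z
      rw [h']
      exact (mk_mem_projVar hP h).2 (hFX z)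
    have hval : ∀ z, ((uE Λ u (F z) : ℂ) : ℂ ⧸ Λ) = u (g z) := by
      intro z
      obtain ⟨h, h'⟩ := hgF z
      rw [uE_eq Λ u h, ← h']
    have hgu : ∀ z w, u (g z) = u (g w) := by
      intro z w
      rw [← hval, ← hval, ← sub_mem_iff]
      exact hver z w
    have hgn : ∃ z w, g z ≠ g w := by
      obtain ⟨z, w, hzw⟩ := hnc
      refine ⟨z, w, fun h => ?_⟩
      obtain ⟨h2, h2'⟩ := hgF z
      obtain ⟨h3, h3'⟩ := hgF w
      rw [h2', h3', hprop h2 h3] at h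
      obtain ⟨c, hc⟩ := h
      exact hzw c hc
    have hgv : ∀ i z, VanishesAt (H i) (g z) ↔ formE H i (F z) = 0 := by
      intro i z
      obtain ⟨h, h'⟩ := hgF z
      rw [h', vanishesAt_mk (hH i)]
      rfl
    have hmem : u (g 0) ∈ B := by
      refine (hfib g hg hgX hgu hgn fun i => ?_).1
      rcases hdi i with h0 | h0
      · exact Or.inr fun z h => h0 z ((hgv i z).1 h)
      · exact Or.inl fun z => (hgv i z).2 (h0 z)
    rw [← hval] at hmem
    exact ⟨uE Λ u (F 0), hmem, by rw [sub_self]; exact Λ.zero_mem⟩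
  have hno : NoLim (coneE P) Λ (uE Λ u) {b : ℂ | (b : ℂ ⧸ Λ) ∈ B} (formE H) := by
    rcases hD with hD | hD
    · refine noLim_of_noCurves E fun F hF hFX hF0 z w => ?_
      obtain ⟨g, hg, hgF⟩ := hmk F hF hFX
      have h1 := hD g hg (fun z => by
        obtain ⟨h, h'⟩ := hgF z
        rw [h']
        exact (mk_mem_projVar hP h).2 (hFX z)) (fun i z => by
        obtain ⟨h, h'⟩ := hgF z
        rw [h', vanishesAt_mk (hH i)]
        exact hF0 i z) z w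
      obtain ⟨h2, h2'⟩ := hgF z
      obtain ⟨h3, h3'⟩ := hgF w
      rw [h2', h3'] at h1
      exact (hprop h2 h3).1 h1
    · exact noLim_of_pole hP hH E hD
  obtain ⟨F, hF, hFf⟩ := exists_sec hP hf
  have hFS : F ∈ SG (coneE P) Λ (uE Λ u) (formE H) := by
    refine ⟨hF, fun i z h0 => ?_⟩
    obtain ⟨h, h'⟩ := hFf z
    apply hfU i z
    rw [h', vanishesAt_mk (hH i)]
    exact h0
  rw [sg_empty E hno] at hFS
  exact hFS

end Pool.Agent.H86.LS

end
end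

section

/-!
# LS Main: the four properties of the Green–Griffiths–Lang conjecture for complements of curves in surfaces over an elliptic curve
-/

set_option autoImplicit false

open MvPolynomial

noncomputable section

namespace Pool.Agent.H86.LS

attribute [-instance] ProperSMul.toContinuousSMul

open Pool.Agent.H17 (PN VanishesAt ZariskiClosedIn HolomorphicInto puncturedDisc)
open Pool.Agent.H62.FC (Homog)
open Pool.Agent.H62.SA (locVar OnBd IsProperMap proper_main)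
open Pool.Agent.H17LG.Variety (FunField IsLogGeneralType)
open Pool.Agent.H13.SM (conTan cone)
open Pool.Agent.H14.KB (KobayashiHyperbolicModulo)
open Pool.Agent.H13.OT (OrderTwo)
open Pool.Agent.H17BP (Surface)
open Pool.Agent.H17EF (projVar IsHolomorphicMap sections exists_affine exists_form_of_ne exists_point exists_coord lat_of_basis)

variable {N s : ℕ} {P : Ideal (MvPolynomial (Fin (N + 1)) ℂ)}

/-- the complement of a hypersurface section is affine -/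
theorem properMap_hyp (P : Ideal (MvPolynomial (Fin (N + 1)) ℂ)) {Q : MvPolynomial (Fin (N + 1)) ℂ} {e : ℕ} (hQ : Q.IsHomogeneous e) :
    IsProperMap P (fun _ : Fin 1 => Q) (fun _ => (Fin.cons Q fun i : Fin (N + 1) => X i ^ e : Fin (N + 1 + 1) → _)) (fun _ => e) := by
  refine ⟨fun m j => ?_, fun m => rfl, fun m n j => ?_, fun x hx => ?_⟩
  · refine Fin.cases ?_ (fun i => ?_) j
    · exact hQ
    · show (X i ^ e : MvPolynomial (Fin (N + 1)) ℂ).IsHomogeneous e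
      exact isHomogeneous_X_pow i e
  · rw [sub_self]
    exact P.zero_mem
  · obtain ⟨i, hi⟩ : ∃ i, x.rep i ≠ 0 := by
      by_contra hcon
      push Not at hcon
      exact x.rep_nonzero (funext hcon)
    refine ⟨0, i.succ, ?_⟩
    show ¬ VanishesAt (X i ^ e : MvPolynomial (Fin (N + 1)) ℂ) x
    unfold VanishesAt
    rw [map_pow, eval_X]
    exact pow_ne_zero e hi

theorem vanishesAt_mul {Q R : MvPolynomial (Fin (N + 1)) ℂ} {x : PN N} : VanishesAt (Q * R) x ↔ VanishesAt Q x ∨ VanishesAt R x := by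
  unfold VanishesAt
  rw [map_mul, mul_eq_zero]

theorem vanishesAt_prod {H : Fin s → MvPolynomial (Fin (N + 1)) ℂ} {x : PN N} : VanishesAt (∏ i, H i) x ↔ ∃ i, VanishesAt (H i) x := by
  unfold VanishesAt
  rw [map_prod, Finset.prod_eq_zero_iff]
  simp

section

variable [P.IsPrime] {z : Fin 2 → FunField P} {Λ : AddSubgroup ℂ} {u : PN N → ℂ ⧸ Λ} {H : Fin s → MvPolynomial (Fin (N + 1)) ℂ} {d : Fin s → ℕ}
  {B : Set (ℂ ⧸ Λ)} {Z : Set (PN N)}

/-- the entire curves of order two are vertical -/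
theorem vertical (hP : Homog P) (hz : IsTranscendenceBasis ℂ z)
    (hsm : ∀ y : Fin (N + 1) → ℂ, y ≠ 0 → (∀ Q ∈ P, eval y Q = 0) → Module.finrank ℂ (conTan P y) ≤ 3)
    (hΛ : Pool.Agent.H62.EF.Lat Λ) (hu : IsHolomorphicMap (projVar P) Λ u) (hH : ∀ i, (H i).IsHomogeneous (d i)) (hd : ∀ i, 0 < d i)
    (hB : B.Finite)
    (hD : (∀ f : ℂ → PN N, HolomorphicInto f Set.univ → (∀ z, f z ∈ projVar P) → (∀ i z, VanishesAt (H i) (f z)) → ∀ z w, f z = f w) ∨
      ∀ e : ℂ → PN N, IsSectionIn (projVar P) Λ u H B e → HasPole (projVar P) Λ u H B e)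
    (hfib : FibreCondition (projVar P) Λ u H B Z) {g : ℂ → PN N} (hg : HolomorphicInto g Set.univ) (hgo : OrderTwo g)
    (hgX : ∀ z, g z ∈ projVar P) (hgH : ∀ i z, ¬ VanishesAt (H i) (g z)) (z w : ℂ) : u (g z) = u (g w) := by
  have hS : Surface (cone P) := Pool.Agent.H13.SM.surface_cone hP hz fun y hy => hsm y hy.1 hy.2
  rcases exists_affine hP hz hsm hΛ hu hg hgo hgX with h | ⟨f, hf, a, b, ha, hgf⟩
  · exact h z w
  · exfalso
    refine no_section hP hS hΛ hu hH hd hB hD hfib hf fun i ζ h => ?_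
    apply hgH i ((ζ - b) / a)
    rw [hgf]
    have h1 : a * ((ζ - b) / a) + b = ζ := by
      field_simp
      ring
    rw [h1]
    exact h

theorem mem_compl_iff {x : PN N} : x ∈ locVar P (fun _ : Fin 1 => ∏ i, H i) ↔ x ∈ projVar P ∧ ∀ i, ¬ VanishesAt (H i) x := by
  constructor
  · rintro ⟨h1, _, h2⟩
    rw [vanishesAt_prod] at h2
    push Not at h2
    exact ⟨h1, h2⟩
  · rintro ⟨h1, h2⟩
    refine ⟨h1, 0, fun h => ?_⟩
    obtain ⟨i, hi⟩ := vanishesAt_prod.1 h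
    exact h2 i hi

theorem main_four (hP : Homog P) (hz : IsTranscendenceBasis ℂ z)
    (hsm : ∀ y : Fin (N + 1) → ℂ, y ≠ 0 → (∀ Q ∈ P, eval y Q = 0) → Module.finrank ℂ (conTan P y) ≤ 3)
    (hΛ : Pool.Agent.H62.EF.Lat Λ) (hu : IsHolomorphicMap (projVar P) Λ u) (hH : ∀ i, (H i).IsHomogeneous (d i)) (hd : ∀ i, 0 < d i)
    (hHP : ∀ i, H i ∉ P) (hgt : IsLogGeneralType (K := FunField P) (k := 2) (OnBd P (fun _ : Fin 1 => ∏ i, H i)))
    (hB : B.Finite)
    (hD : (∀ f : ℂ → PN N, HolomorphicInto f Set.univ → (∀ z, f z ∈ projVar P) → (∀ i z, VanishesAt (H i) (f z)) → ∀ z w, f z = f w) ∨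
      ∀ e : ℂ → PN N, IsSectionIn (projVar P) Λ u H B e → HasPole (projVar P) Λ u H B e)
    (hZ : ZariskiClosedIn (projVar P) Z) (hZX : Z ≠ projVar P) (hfib : FibreCondition (projVar P) Λ u H B Z) :
    (ZariskiClosedIn (locVar P fun _ : Fin 1 => ∏ i, H i) ((locVar P fun _ : Fin 1 => ∏ i, H i) ∩ Z) ∧
      (locVar P fun _ : Fin 1 => ∏ i, H i) ∩ Z ≠ locVar P fun _ : Fin 1 => ∏ i, H i) ∧
    (∀ f : ℂ → PN N, HolomorphicInto f Set.univ → (∀ z, f z ∈ locVar P fun _ : Fin 1 => ∏ i, H i) → (∃ z w, f z ≠ f w) →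
      ∀ z, f z ∈ (locVar P fun _ : Fin 1 => ∏ i, H i) ∩ Z) ∧
    (∀ f : ℂ → PN N, HolomorphicInto f puncturedDisc → (∀ z ∈ puncturedDisc, f z ∈ locVar P fun _ : Fin 1 => ∏ i, H i) →
      (∃ z ∈ puncturedDisc, f z ∉ (locVar P fun _ : Fin 1 => ∏ i, H i) ∩ Z) →
      ∃ g : ℂ → PN N, HolomorphicInto g (Metric.ball 0 1) ∧ ∀ z ∈ puncturedDisc, g z = f z) ∧
    (∀ (Q : Ideal (MvPolynomial (Fin (N + 1)) ℂ)) [Q.IsPrime], Homog Q → P ≤ Q →
      ¬ (locVar Q fun _ : Fin 1 => ∏ i, H i) ⊆ (locVar P fun _ : Fin 1 => ∏ i, H i) ∩ Z →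
      ∀ k, 1 ≤ k → (∃ z : Fin k → FunField Q, IsTranscendenceBasis ℂ z) →
      IsLogGeneralType (OnBd Q (fun _ : Fin 1 => ∏ i, H i) (k := k))) ∧
    ∃ (Q : MvPolynomial (Fin (N + 1)) ℂ) (D : ℕ), Q.IsHomogeneous D ∧ (∃ x ∈ (locVar P fun _ : Fin 1 => ∏ i, H i), ¬ VanishesAt Q x) ∧
      (∀ x ∈ (locVar P fun _ : Fin 1 => ∏ i, H i) ∩ Z, VanishesAt Q x) ∧
      KobayashiHyperbolicModulo (locVar P fun _ : Fin 1 => ∏ i, H i) Q D := by
  have hPp : P.IsPrime := inferInstance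
  have hHH : (∏ i, H i).IsHomogeneous (∑ i, d i) := MvPolynomial.IsHomogeneous.prod _ _ _ fun i _ => hH i
  have hHHP : ∏ i, H i ∉ P := fun h => by
    obtain ⟨i, -, hi⟩ := (Ideal.IsPrime.prod_mem_iff (s := Finset.univ) (x := H)).1 h
    exact hHP i hi
  set U : Set (PN N) := locVar P fun _ : Fin 1 => ∏ i, H i with hU
  have hmem : ∀ x, x ∈ U ↔ x ∈ projVar P ∧ ∀ i, ¬ VanishesAt (H i) x := fun x => mem_compl_iff
  obtain ⟨R, n, hR, hRP, hRZ⟩ := exists_form_of_ne hZ hZX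
  have hcl : ZariskiClosedIn U (U ∩ Z) := by
    obtain ⟨S, hS, rfl⟩ := hZ
    refine ⟨S, hS, ?_⟩
    ext x
    constructor
    · rintro ⟨h1, -, h2⟩
      exact ⟨h1, h2⟩
    · rintro ⟨h1, h2⟩
      exact ⟨h1, ((hmem x).1 h1).1, h2⟩
  have hX : ∃ i, (X i : MvPolynomial (Fin (N + 1)) ℂ) ∉ P := by
    by_contra hcon
    push Not at hcon
    have hempty : projVar P = ∅ := by
      rw [Set.eq_empty_iff_forall_notMem]
      intro x hx
      obtain ⟨i, hi⟩ := exists_coord hx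
      exact hi (hcon i)
    apply hZX
    obtain ⟨T, -, hT⟩ := hZ
    rw [hT, hempty]
    ext x
    simp
  have hne : U ∩ Z ≠ U := by
    intro heq
    obtain ⟨x, hx, hxR⟩ := exists_point hP hX (fun h : (∏ i, H i) * R ∈ P => (hPp.mem_or_mem h).elim hHHP hRP) (hHH.mul hR)
    rw [vanishesAt_mul, not_or] at hxR
    have hxU : x ∈ U := ⟨hx, 0, hxR.1⟩
    rw [← heq] at hxU
    exact hxR.2 (hRZ x hxU.2)
  have hbr : ∀ f : ℂ → PN N, HolomorphicInto f Set.univ → OrderTwo f → (∀ z, f z ∈ U) → (∃ z w, f z ≠ f w) → ∀ z, f z ∈ U ∩ Z := by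
    intro g hg hgo hgU hgn z
    have hgX : ∀ z, g z ∈ projVar P := fun z => ((hmem _).1 (hgU z)).1
    have hgH : ∀ i z, ¬ VanishesAt (H i) (g z) := fun i z => ((hmem _).1 (hgU z)).2 i
    have hver := vertical hP hz hsm hΛ hu hH hd hB hD hfib hg hgo hgX hgH
    exact ⟨hgU z, (hfib g hg hgX hver hgn fun i => Or.inr (hgH i)).2 hgH z⟩
  obtain ⟨hbrody, hpicard, Q, D, hQ, hQx, hQΞ, hkob⟩ := proper_main hP hz hsm (properMap_hyp P hHH) hgt hcl hne hbr
  refine ⟨⟨hcl, hne⟩, hbrody, hpicard, ?_, Q, D, hQ, hQx, hQΞ, hkob⟩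
  intro Q _ hQ hPQ hsub k hk hz'
  exact Pool.Agent.H13.CV.strongly_of_brodyL P hP ⟨z, hz⟩ (fun _ => ⟨_, hHH⟩) hcl hgt hbrody Q hQ hPQ hsub k hk hz'

end

end Pool.Agent.H86.LS

end
end
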