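import Pool.Agent.H94.CB.H17EF.Bridge
import Pool.Agent.H94.CB.M168
import Pool.Agent.H94.CB.M195
import Pool.Agent.H94.CB.M243
import Pool.Agent.H94.CB.M248
import Pool.Agent.H94.CB.M249

/-! The parts of this file: H17L.BlowL, H17L.BaseLC. -/

section

/-!
# H17L BlowL: logarithmic poles on the blow-up

`cf α υ σ p` is the coefficient of the form in the parametrisation `σ`.

* `cf_trans` (CfT): the coefficients in two parametrisations `φ`, `ψ ∘ β` which are proportional.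
* `logV_blow`.  Let `y ∈ blow l X`, `Z = Zs X D Λ u B`, `Z' = Zs (blow l X) (blow l D) Λ (uB u) B`.  `blow_chart` (H17N/BlowP) for the chart `σ` at `q` given by `h q`.
  First alternative (`y = c • phi l x`, `x = σ' 0 ∈ X`, `l b x ≠ 0`): take instead of `σ'` the chart `σ₂` at `x` given by `h x`; `σ1 = c • phi l (σ₂ p)` (`off_chart`) is a chart at `y`.  `AD D σ₂` gives `AD (blow l D) σ1` and `x ∉ D` gives `y ∉ blow l D` (`phi_mem_strict`).  A lift `υ` of `uB u` along `σ1` is a lift of `u` along `σ₂` (`uB_eq`, `smul`).  For `σ1 p ∉ Z'`: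
  `σ₂ p ∉ Z` and `cf (aB α) υ σ1 p = cf α υ (fun p => σ1 p b) p = cf α υ σ₂ p` (`aB_openEq`, then `cf_trans` with `β = id`, as `σ1 p b = (c l_b (σ₂ p)) • σ₂ p`), where `b` is fixed with `l b x ≠ 0`.  So the same `g` works.
  Second alternative: `σ1` with `Pr (σ1 p b) (σ (β p))`, `β p = e (p.1, p.1 * p.2)`, `y = σ1 0`.  Let `υ1` be a lift of `uB u` along `σ1`.  There is a lift `υ` of `u` along `σ` with `υ (β p) = υ1 p` for `p` near `0`: take any lift `υ'` (`tor.loc`); `υ1 - υ' ∘ β` has values in `Λ` near `0` (`uB_eq`, `smul`) and is continuous, so it is a constant `λ ∈ Λ` near `0` (discreteness of `Λ`); `υ = υ' + λ`.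
  For `σ1 p ∉ Z'`, `p` near `0`: `p.1 ≠ 0` (the points with `p.1 = 0` lie over `u q`, so over `B`), `σ (β p) ∉ Z` (`exc_pt`, `mem_open`/`phi_mem_strict`) and `cf (aB α) υ1 σ1 p = k * p.1 * cf α υ σ (β p)`, `k = det e ≠ 0` (`aB_openEq` for the component `b` with `σ1 0 b ≠ 0`, `cf_trans`; the Jacobian of `β` is `k * p.1`).
  (a) `q ∉ D`: `cf α υ σ (β p) = g (β p)`, so the coefficient is `k * p.1 * g (β p)`, analytic; `y ∉ blow l D` (`strict_none`).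
  (b) `AD D σ`: `(β p).2 = p.1 * (c + d * p.2)` with `e (1, 0) = (a, c)`, `e (0, 1) = (b', d)`; `(β p).2 * cf α υ σ (β p) = g (β p)`, so `(c + d * p.2) * cf (aB α) υ1 σ1 p = k * g (β p)` (as `p.1 ≠ 0`).  `strict_exc`: if `c ≠ 0` then `y ∉ blow l D` and the coefficient is the analytic function `k * g (β p) / (c + d * p.2)`; if `c = 0` then `d ≠ 0`, `AD (blow l D) σ1` and
  `p.2 * coefficient = k * g (β p) / d`.
-/

set_option autoImplicit false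

open Topology Filter

namespace Pool.Agent.H17L

attribute [-instance] ProperSMul.toContinuousSMul

open Pool.Agent.H17BP (Surface IsChart Tan Pr HolP ResN)
open Pool.Agent.H62.BU (blow dense phi Ker)
open Pool.Agent.H17N (TMap LU RU TF NonConst ThinF FibB HSec uB aB blow_chart)

variable {V : Type} [NormedAddCommGroup V] [NormedSpace ℂ V] [FiniteDimensional ℂ V] {ι : Type} [Fintype ι] {l : ι → V →L[ℂ] ℂ} {X D : Set V} {q : V}
  {Λ Γ : AddSubgroup ℂ} {u : V → ℂ} {B : Set ℂ} {α : ℂ → V → V → V → ℂ}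

private theorem BlowL_comp {φ : ℂ × ℂ → ι → V} {p : ℂ × ℂ} (hφ : AnalyticAt ℂ φ p) (b : ι) :
    AnalyticAt ℂ (fun y => φ y b) p ∧ ∀ w : ℂ × ℂ, fderiv ℂ (fun y => φ y b) p w = (fderiv ℂ φ p w) b := by
  refine ⟨AnalyticAt.comp ((ContinuousLinearMap.proj (R := ℂ) (φ := fun _ : ι => V) b).analyticAt _) hφ, fun w => ?_⟩
  have h6 : HasFDerivAt (fun y => φ y b)
      ((ContinuousLinearMap.proj (R := ℂ) (φ := fun _ : ι => V) b).comp (fderiv ℂ φ p)) p :=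
    ((ContinuousLinearMap.proj (R := ℂ) (φ := fun _ : ι => V) b).hasFDerivAt (x := φ p)).comp p hφ.differentiableAt.hasFDerivAt
  rw [h6.fderiv]
  rfl

/-- the complement of `Z` is open in the surface -/
private theorem BlowL_open {W : Type} [NormedAddCommGroup W] [NormedSpace ℂ W] {Y E : Set W} {w : W → ℂ} (hw : TMap Y Λ w)
    (hE : CurveD Y E Λ w) (hBc : ∀ z : ℂ, (∀ b ∈ B, z - b ∉ Λ) → ∀ᶠ w in 𝓝 z, ∀ b ∈ B, w - b ∉ Λ) {x : W} (hx : x ∈ Y)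
    (hz : x ∉ Zs Y E Λ w B) : ∀ᶠ y in 𝓝 x, y ∉ Zs Y E Λ w B := by
  have h1 : x ∉ E := fun h => hz (Or.inl h)
  have h2 : ∀ b ∈ B, w x - b ∉ Λ := fun b hb h => hz (Or.inr ⟨hx, b, hb, h⟩)
  obtain ⟨v, hv, hv2⟩ := hw.loc x hx
  have h3 := hv2.self_of_nhds hx
  have h4 : ∀ b ∈ B, v x - b ∉ Λ := by
    intro b hb h
    refine h2 b hb ?_
    have h5 := Λ.add_mem h3 h
    have h6 : w x - v x + (v x - b) = w x - b := by ring
    rwa [h6] at h5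
  have h5 := hv.continuousAt.eventually (hBc (v x) h4)
  filter_upwards [hE.closed x hx h1, hv2, h5] with y e1 e2 e3
  rintro (h | ⟨hy, b, hb, h⟩)
  · exact e1 h
  · refine e3 b hb ?_
    have h6 := Λ.sub_mem h (e2 hy)
    have h7 : w y - b - (w y - v y) = v y - b := by ring
    rwa [h7] at h6

private theorem BlowL_smul (hX : Surface X) (hu : TMap X Λ u) (hD : CurveD X D Λ u) :
    ∀ x ∈ X \ Zs X D Λ u B, ∀ c : ℂ, c ≠ 0 → c • x ∈ X \ Zs X D Λ u B := by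
  rintro x ⟨hx, hz⟩ c hc
  refine ⟨hX.smul x hx c hc, ?_⟩
  rintro (h | ⟨hy, b, hb, h⟩)
  · refine hz (Or.inl ?_)
    have h1 := hD.smul _ h c⁻¹ (inv_ne_zero hc)
    rwa [smul_smul, inv_mul_cancel₀ hc, one_smul] at h1
  · refine hz (Or.inr ⟨hx, b, hb, ?_⟩)
    have h1 := Λ.sub_mem h (hu.smul x hx c hc)
    have h2 : u (c • x) - b - (u (c • x) - u x) = u x - b := by ring
    rwa [h2] at h1

private theorem BlowL_pr (hu : TMap X Λ u) {x y : V} (hy : y ∈ X) (h : Pr x y) : u x - u y ∈ Λ := by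
  obtain ⟨c, hc, rfl⟩ := h
  exact hu.smul y hy c hc

/-- the comparison of the coefficients -/
private theorem BlowL_step (hX : Surface X) (hu : TMap X Λ u) (hD : CurveD X D Λ u)
    (hα : TF (X \ Zs X D Λ u B) Λ u α) (hl : Ker l q) (hq : q ∈ X) (hB : ∃ b ∈ B, u q - b ∈ Λ)
    (hBc : ∀ z : ℂ, (∀ b ∈ B, z - b ∉ Λ) → ∀ᶠ w in 𝓝 z, ∀ b ∈ B, w - b ∉ Λ)
    {σ1 : ℂ × ℂ → ι → V} {τ1 : (ι → V) → ℂ × ℂ} (h1 : IsChart (blow l X) σ1 τ1) {ψ : ℂ × ℂ → V} {τ : V → ℂ × ℂ} (hψ : IsChart X ψ τ)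
    {β : ℂ × ℂ → ℂ × ℂ} (hβ : AnalyticAt ℂ β 0) (hβ0 : β 0 = 0)
    (hpr : ∀ᶠ p in 𝓝 (0 : ℂ × ℂ), ∀ b, σ1 p b ≠ 0 → Pr (σ1 p b) (ψ (β p)))
    (hoff : ∀ᶠ p in 𝓝 (0 : ℂ × ℂ), σ1 p ∉ Zs (blow l X) (blow l D) Λ (uB u) B → ψ (β p) ∉ D)
    {υ1 : ℂ × ℂ → ℂ} (hυ : Lf Λ (uB u) σ1 υ1) :
    ∀ᶠ p in 𝓝 (0 : ℂ × ℂ), u (ψ (β p)) - υ1 p ∈ Λ ∧ (σ1 p ∉ Zs (blow l X) (blow l D) Λ (uB u) B → ψ (β p) ∉ Zs X D Λ u B ∧
      cf (aB α) υ1 σ1 p = ((fderiv ℂ β p (1, 0)).1 * (fderiv ℂ β p (0, 1)).2 - (fderiv ℂ β p (1, 0)).2 * (fderiv ℂ β p (0, 1)).1) *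
        α (υ1 p) (ψ (β p)) (fderiv ℂ ψ (β p) (1, 0)) (fderiv ℂ ψ (β p) (0, 1))) := by
  have hX' := H17BP.surface_iff.2 hX
  have hD' := curve_blow hX hu hD hl hq
  have hu' := H17N.tmap_blow (l := l) hX hu
  obtain ⟨b, hb0⟩ := H62.BU.exists_ne (σ1 0) h1.σ_mem.self_of_nhds
  have hβt : Tendsto β (𝓝 0) (𝓝 0) := by
    have := hβ.continuousAt.tendsto
    rwa [hβ0] at this
  have hne2 : ∀ᶠ p in 𝓝 (0 : ℂ × ℂ), σ1 p b ≠ 0 := (BlowL_comp h1.σ_an b).1.continuousAt.eventually_ne hb0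
  have hneσ : ∀ᶠ p in 𝓝 (0 : ℂ × ℂ), ψ (β p) ≠ 0 := hβt.eventually (hψ.σ_an.continuousAt.eventually_ne hψ.ne)
  filter_upwards [hne2.eventually_nhds, hneσ, hpr.eventually_nhds, hoff, hυ.2, h1.σ_an.eventually_analyticAt, h1.σ_mem.eventually_nhds,
    hβ.eventually_analyticAt, hβt.eventually hψ.σ_an.eventually_analyticAt, hβt.eventually hψ.σ_mem.eventually_nhds]
    with p e1 e2 e3 e4 e5 e6 e7 e8 e9 e10
  have f0 : σ1 p b ≠ 0 := e1.self_of_nhds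
  have f1 : Pr (σ1 p b) (ψ (β p)) := e3.self_of_nhds b f0
  have f2 : ψ (β p) ∈ X := e10.self_of_nhds
  have f3 := H17N.uB_eq hX hu e7.self_of_nhds f0
  have f4 := BlowL_pr hu f2 f1
  have f5 : u (σ1 p b) - υ1 p ∈ Λ := by
    have h2 := Λ.sub_mem e5 f3
    have h3 : uB u (σ1 p) - υ1 p - (uB u (σ1 p) - u (σ1 p b)) = u (σ1 p b) - υ1 p := by ring
    rwa [h3] at h2
  have f6 : u (ψ (β p)) - υ1 p ∈ Λ := by
    have h2 := Λ.sub_mem f5 f4
    have h3 : u (σ1 p b) - υ1 p - (u (σ1 p b) - u (ψ (β p))) = u (ψ (β p)) - υ1 p := by ring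
    rwa [h3] at h2
  refine ⟨f6, fun hz => ?_⟩
  have f7 : ψ (β p) ∉ Zs X D Λ u B := by
    rintro (h | ⟨hy, b', hb', h⟩)
    · exact e4 hz h
    · refine hz (Or.inr ⟨e7.self_of_nhds, b', hb', ?_⟩)
      have h2 := Λ.add_mem (Λ.add_mem f3 f4) h
      have h3 : uB u (σ1 p) - u (σ1 p b) + (u (σ1 p b) - u (ψ (β p))) + (u (ψ (β p)) - b') = uB u (σ1 p) - b' := by ring
      rwa [h3] at h2
  refine ⟨f7, ?_⟩
  have g1 : ∀ᶠ y in 𝓝 p, σ1 y ∈ blow l X \ Zs (blow l X) (blow l D) Λ (uB u) B := by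
    filter_upwards [e7, e6.continuousAt.eventually (BlowL_open hu' hD' hBc e7.self_of_nhds hz)] with y h2 h3
    exact ⟨h2, h3⟩
  have g2 : ∀ᶠ y in 𝓝 (β p), ψ y ∈ X \ Zs X D Λ u B := by
    filter_upwards [e10, e9.continuousAt.eventually (BlowL_open hu hD hBc f2 f7)] with y h2 h3
    exact ⟨h2, h3⟩
  show aB α (υ1 p) (σ1 p) (fderiv ℂ σ1 p (1, 0)) (fderiv ℂ σ1 p (0, 1)) = _
  rw [aB_openEq hX hu hD hα hl hq hB g1.self_of_nhds e5 (H62.BU.tan_fderiv e6 g1 (1, 0)) (H62.BU.tan_fderiv e6 g1 (0, 1)) f0,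
    ← (BlowL_comp e6 b).2, ← (BlowL_comp e6 b).2]
  exact cf_trans (φ := fun y => σ1 y b) (ψ := ψ) (β := β) (p := p) (BlowL_smul hX hu hD) hα (BlowL_comp e6 b).1 e8 e9 g2 e2 (by
    filter_upwards [e3, e1] with y h4 h5
    exact h4 b h5) f5 f6

/-- the lift of `u` -/
private theorem BlowL_lift (hΛ : ∃ δ : ℝ, 0 < δ ∧ ∀ l ∈ Λ, ‖l‖ < δ → l = 0) (hu : TMap X Λ u) {ψ : ℂ × ℂ → V} {τ : V → ℂ × ℂ}
    (hψ : IsChart X ψ τ) {β : ℂ × ℂ → ℂ × ℂ} (hβ : AnalyticAt ℂ β 0) (hβ0 : β 0 = 0) {υ1 : ℂ × ℂ → ℂ} (hυa : AnalyticAt ℂ υ1 0)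
    (h : ∀ᶠ p in 𝓝 (0 : ℂ × ℂ), u (ψ (β p)) - υ1 p ∈ Λ) :
    ∃ υ, Lf Λ u ψ υ ∧ ∀ᶠ p in 𝓝 (0 : ℂ × ℂ), υ (β p) = υ1 p := by
  obtain ⟨g, hga, hg0, hg⟩ := H17N.exists_lu hu hψ
  have h0 : u (ψ 0) - υ1 0 ∈ Λ := by
    have h3 := h.self_of_nhds
    rwa [hβ0] at h3
  have hlift : ∀ᶠ p in 𝓝 (0 : ℂ × ℂ), u (ψ p) - (υ1 0 + g p) ∈ Λ := by
    filter_upwards [hg] with p h3
    have h4 := Λ.add_mem h3 h0
    have h5 : u (ψ p) - u (ψ 0) - g p + (u (ψ 0) - υ1 0) = u (ψ p) - (υ1 0 + g p) := by ring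
    rwa [h5] at h4
  refine ⟨fun p => υ1 0 + g p, ⟨analyticAt_const.add hga, hlift⟩, ?_⟩
  have hβt : Tendsto β (𝓝 0) (𝓝 0) := by
    have := hβ.continuousAt.tendsto
    rwa [hβ0] at this
  have huniq : ∀ᶠ p in 𝓝 (0 : ℂ × ℂ), g (β p) = υ1 p - υ1 0 := by
    refine H17N.LU.unique (a := fun p => u (ψ (β p)) - υ1 0) (g := fun p => g (β p)) (g' := fun p => υ1 p - υ1 0) hΛ ?_ ?_ ?_ ?_ ?_ ?_
    · refine AnalyticAt.comp (g := g) (f := β) ?_ hβ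
      rw [hβ0]
      exact hga
    · exact hυa.sub analyticAt_const
    · simp only [hβ0, hg0]
    · simp only [sub_self]
    · filter_upwards [hβt.eventually hlift] with p h3
      have h5 : u (ψ (β p)) - υ1 0 - g (β p) = u (ψ (β p)) - (υ1 0 + g (β p)) := by ring
      rw [h5]
      exact h3
    · filter_upwards [h] with p h3
      have h5 : u (ψ (β p)) - υ1 0 - (υ1 p - υ1 0) = u (ψ (β p)) - υ1 p := by ring
      rw [h5]
      exact h3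
  filter_upwards [huniq] with p h3
  rw [h3]
  ring

private theorem BlowL_det (e : (ℂ × ℂ) ≃L[ℂ] (ℂ × ℂ)) : (e (1, 0)).1 * (e (0, 1)).2 - (e (1, 0)).2 * (e (0, 1)).1 ≠ 0 := by
  intro hdet
  have h4 : (e (0, 1)).2 • (1, 0) - (e (1, 0)).2 • (0, 1) = (0 : ℂ × ℂ) ∧ (e (0, 1)).1 • (1, 0) - (e (1, 0)).1 • (0, 1) = (0 : ℂ × ℂ) := by
    constructor
    · apply e.injective
      rw [map_sub, map_smul, map_smul, map_zero]
      ext
      · simp only [Prod.fst_sub, Prod.smul_fst, smul_eq_mul, Prod.fst_zero]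
        linear_combination hdet
      · simp only [Prod.snd_sub, Prod.smul_snd, smul_eq_mul, Prod.snd_zero]
        ring
    · apply e.injective
      rw [map_sub, map_smul, map_smul, map_zero]
      ext
      · simp only [Prod.fst_sub, Prod.smul_fst, smul_eq_mul, Prod.fst_zero]
        ring
      · simp only [Prod.snd_sub, Prod.smul_snd, smul_eq_mul, Prod.snd_zero]
        linear_combination -hdet
  obtain ⟨h5, h6⟩ := h4
  rw [Prod.ext_iff] at h5 h6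
  simp only [Prod.fst_sub, Prod.snd_sub, Prod.smul_fst, Prod.smul_snd, smul_eq_mul, mul_one, mul_zero, Prod.fst_zero,
    Prod.snd_zero, sub_zero, zero_sub, neg_eq_zero] at h5 h6
  have h7 : e (1, 0) = 0 := Prod.ext h6.2 h5.2
  have h8 := e.injective (h7.trans (map_zero e).symm)
  simp at h8

/-- the map `β` -/
private theorem BlowL_beta (e : (ℂ × ℂ) ≃L[ℂ] (ℂ × ℂ)) : AnalyticAt ℂ (fun p : ℂ × ℂ => e (p.1, p.1 * p.2)) 0 ∧
    (∀ p w : ℂ × ℂ, fderiv ℂ (fun p : ℂ × ℂ => e (p.1, p.1 * p.2)) p w = e (w.1, p.1 * w.2 + p.2 * w.1)) ∧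
    ∀ p : ℂ × ℂ, (fderiv ℂ (fun p : ℂ × ℂ => e (p.1, p.1 * p.2)) p (1, 0)).1 * (fderiv ℂ (fun p : ℂ × ℂ => e (p.1, p.1 * p.2)) p (0, 1)).2 -
      (fderiv ℂ (fun p : ℂ × ℂ => e (p.1, p.1 * p.2)) p (1, 0)).2 * (fderiv ℂ (fun p : ℂ × ℂ => e (p.1, p.1 * p.2)) p (0, 1)).1 =
      ((e (1, 0)).1 * (e (0, 1)).2 - (e (1, 0)).2 * (e (0, 1)).1) * p.1 := by
  have h0 : AnalyticAt ℂ (fun p : ℂ × ℂ => e (p.1, p.1 * p.2)) 0 := by
    refine AnalyticAt.comp (g := fun p => e p) (f := fun p : ℂ × ℂ => ((p.1, p.1 * p.2) : ℂ × ℂ))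
      (e.toContinuousLinearMap.analyticAt _) ?_
    exact analyticAt_fst.prod (analyticAt_fst.mul analyticAt_snd)
  have h1 : ∀ p w : ℂ × ℂ, fderiv ℂ (fun p : ℂ × ℂ => e (p.1, p.1 * p.2)) p w = e (w.1, p.1 * w.2 + p.2 * w.1) := by
    intro p w
    have hin : HasFDerivAt (fun p : ℂ × ℂ => ((p.1, p.1 * p.2) : ℂ × ℂ))
        ((ContinuousLinearMap.fst ℂ ℂ ℂ).prod (p.1 • ContinuousLinearMap.snd ℂ ℂ ℂ + p.2 • ContinuousLinearMap.fst ℂ ℂ ℂ)) p :=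
      hasFDerivAt_fst.prodMk (hasFDerivAt_fst.mul hasFDerivAt_snd)
    have h3 : HasFDerivAt (fun p : ℂ × ℂ => e (p.1, p.1 * p.2)) ((e.toContinuousLinearMap).comp
        ((ContinuousLinearMap.fst ℂ ℂ ℂ).prod (p.1 • ContinuousLinearMap.snd ℂ ℂ ℂ + p.2 • ContinuousLinearMap.fst ℂ ℂ ℂ))) p :=
      (e.toContinuousLinearMap.hasFDerivAt).comp p hin
    rw [h3.fderiv]
    simp
  refine ⟨h0, h1, fun p => ?_⟩
  rw [h1, h1]
  have h8 : ∀ a b : ℂ, e (a, b) = a • e (1, 0) + b • e (0, 1) := by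
    intro a b
    rw [← map_smul, ← map_smul, ← map_add]
    simp
  simp only
  rw [h8 1 (p.1 * 0 + p.2 * 1), h8 0 (p.1 * 1 + p.2 * 0)]
  simp only [Prod.fst_add, Prod.snd_add, Prod.smul_fst, Prod.smul_snd, smul_eq_mul]
  ring

theorem logV_blow (hΛ : ∃ δ : ℝ, 0 < δ ∧ ∀ l ∈ Λ, ‖l‖ < δ → l = 0) (hX : Surface X) (hu : TMap X Λ u) (hD : CurveD X D Λ u)
    (hα : TF (X \ Zs X D Λ u B) Λ u α) (hl : Ker l q) (hq : q ∈ X) (hB : ∃ b ∈ B, u q - b ∈ Λ)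
    (hBc : ∀ z : ℂ, (∀ b ∈ B, z - b ∉ Λ) → ∀ᶠ w in 𝓝 z, ∀ b ∈ B, w - b ∉ Λ) (h : LogV X D (Zs X D Λ u B) Λ u α) :
    LogV (blow l X) (blow l D) (Zs (blow l X) (blow l D) Λ (uB u) B) Λ (uB u) (aB α) := by
  intro y hy
  obtain ⟨σ, τ, hσ, hσ0, hprop⟩ := h q hq
  rcases blow_chart hX hl hσ hσ0 hy with ⟨σ', τ', σ1, τ1, h', ⟨b, hb⟩, h1, h10, ⟨c, hc, hc2⟩, -⟩ | ⟨e, σ1, τ1, h1, h10, hpr⟩
  · -- off the exceptional curve
    have hxX : σ' 0 ∈ X := h'.σ_mem.self_of_nhds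
    obtain ⟨ψ, τψ, hψ, hψ0, hp2⟩ := h (σ' 0) hxX
    have hb' : l b (ψ 0) ≠ 0 := by rw [hψ0]; exact hb
    obtain ⟨τ3, h3⟩ := off_chart (l := l) hX hψ ⟨b, hb'⟩ hc
    have hbe : ∀ᶠ p in 𝓝 (0 : ℂ × ℂ), l b (ψ p) ≠ 0 :=
      ((l b).continuous.continuousAt.comp hψ.σ_an.continuousAt).eventually_ne hb'
    have hD3 : ∀ᶠ p in 𝓝 (0 : ℂ × ℂ), c • phi l (ψ p) ∈ blow l D ↔ ψ p ∈ D := by
      filter_upwards [hbe, hψ.σ_mem] with p e1 e2
      exact phi_mem_strict hX hD e2 ⟨b, e1⟩ hc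
    have hy3 : c • phi l (ψ 0) = y := by rw [← h10, hc2, hψ0]
    have hpr3 : ∀ᶠ p in 𝓝 (0 : ℂ × ℂ), ∀ b, (c • phi l (ψ p)) b ≠ 0 → Pr ((c • phi l (ψ p)) b) (ψ p) := by
      refine Eventually.of_forall fun p b' hb2 => ⟨c * l b' (ψ p), ?_, ?_⟩
      · intro h3
        apply hb2
        simp only [phi, Pi.smul_apply, smul_smul, h3, zero_smul]
      · simp only [phi, Pi.smul_apply, smul_smul]
    have hoff : ∀ᶠ p in 𝓝 (0 : ℂ × ℂ), c • phi l (ψ p) ∉ Zs (blow l X) (blow l D) Λ (uB u) B → ψ p ∉ D := by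
      filter_upwards [hD3] with p e1 e2 e3
      exact e2 (Or.inl (e1.2 e3))
    have key : ∀ υ1, Lf Λ (uB u) (fun p => c • phi l (ψ p)) υ1 → ∃ υ, Lf Λ u ψ υ ∧ ∀ᶠ p in 𝓝 (0 : ℂ × ℂ),
        c • phi l (ψ p) ∉ Zs (blow l X) (blow l D) Λ (uB u) B → ψ p ∉ Zs X D Λ u B ∧
          cf (aB α) υ1 (fun p => c • phi l (ψ p)) p = cf α υ ψ p := by
      intro υ1 hυ1
      have hst := BlowL_step hX hu hD hα hl hq hB hBc h3 hψ (β := fun p => p) analyticAt_id rfl hpr3 hoff hυ1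
      obtain ⟨υ, hυ, hυe⟩ := BlowL_lift hΛ hu hψ (β := fun p => p) analyticAt_id rfl hυ1.1 (hst.mono fun p hp => hp.1)
      refine ⟨υ, hυ, ?_⟩
      filter_upwards [hst, hυe] with p e1 e2 e3
      obtain ⟨e4, e5⟩ := e1.2 e3
      refine ⟨e4, ?_⟩
      rw [e5]
      have h4 : fderiv ℂ (fun p : ℂ × ℂ => p) p = ContinuousLinearMap.id ℂ (ℂ × ℂ) := fderiv_id
      rw [h4, ← e2]
      simp [cf]
    refine ⟨_, τ3, h3, hy3, ?_⟩
    rcases hp2 with ⟨hn, hg⟩ | ⟨hA, hg⟩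
    · refine Or.inl ⟨?_, fun υ1 hυ1 => ?_⟩
      · rw [← hy3]
        intro h4
        have h5 := hD3.self_of_nhds.1 h4
        rw [hψ0] at h5
        exact hn h5
      · obtain ⟨υ, hυ, hk⟩ := key υ1 hυ1
        obtain ⟨g, hga, hge⟩ := hg υ hυ
        refine ⟨g, hga, ?_⟩
        filter_upwards [hk, hge] with p e1 e2 e3
        rw [(e1 e3).2]
        exact e2 (e1 e3).1
    · refine Or.inr ⟨?_, fun υ1 hυ1 => ?_⟩
      · unfold AD at hA ⊢
        filter_upwards [hD3, hA] with p e1 e2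
        exact e1.trans e2
      · obtain ⟨υ, hυ, hk⟩ := key υ1 hυ1
        obtain ⟨g, hga, hge⟩ := hg υ hυ
        refine ⟨g, hga, ?_⟩
        filter_upwards [hk, hge] with p e1 e2 e3
        rw [(e1 e3).2]
        exact e2 (e1 e3).1
  · -- at a point of the exceptional curve
    obtain ⟨hβa, hβd, hβJ⟩ := BlowL_beta e
    have hdet := BlowL_det e
    obtain ⟨k, hk⟩ : ∃ k, k = (e (1, 0)).1 * (e (0, 1)).2 - (e (1, 0)).2 * (e (0, 1)).1 := ⟨_, rfl⟩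
    rw [← hk] at hdet
    obtain ⟨β, hβ⟩ : ∃ β : ℂ × ℂ → ℂ × ℂ, β = fun p => e (p.1, p.1 * p.2) := ⟨_, rfl⟩
    rw [← hβ] at hβa hβJ
    have hβ0 : β 0 = 0 := by
      rw [hβ]
      simp
    have hβt : Tendsto β (𝓝 0) (𝓝 0) := by
      have := hβa.continuousAt.tendsto
      rwa [hβ0] at this
    have hβ2 : ∀ p : ℂ × ℂ, (β p).2 = p.1 * ((e (1, 0)).2 + (e (0, 1)).2 * p.2) := by
      intro p
      have h8 : e (p.1, p.1 * p.2) = p.1 • e (1, 0) + (p.1 * p.2) • e (0, 1) := by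
        rw [← map_smul, ← map_smul, ← map_add]
        simp
      rw [hβ]
      simp only
      rw [h8]
      simp only [Prod.snd_add, Prod.smul_snd, smul_eq_mul]
      ring
    have hpr' : ∀ᶠ p in 𝓝 (0 : ℂ × ℂ), ∀ b, σ1 p b ≠ 0 → Pr (σ1 p b) (σ (β p)) := by
      rw [hβ]
      exact hpr
    -- the points over `q`
    have hexc : ∀ᶠ p in 𝓝 (0 : ℂ × ℂ), σ1 p ∉ Zs (blow l X) (blow l D) Λ (uB u) B → p.1 ≠ 0 := by
      filter_upwards [hpr', h1.σ_mem] with p e1 e2 e3 e4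
      obtain ⟨b, hb⟩ := H62.BU.exists_ne (σ1 p) e2
      have h2 : β p = 0 := by
        rw [hβ]
        simp only [e4, zero_mul]
        exact map_zero e
      have h4 := e1 b hb
      rw [h2, hσ0] at h4
      obtain ⟨b', hb', h5⟩ := hB
      refine e3 (Or.inr ⟨e2, b', hb', ?_⟩)
      have h6 := Λ.add_mem (Λ.add_mem (H17N.uB_eq hX hu e2 hb) (BlowL_pr hu hq h4)) h5
      have h7 : uB u (σ1 p) - u (σ1 p b) + (u (σ1 p b) - u q) + (u q - b') = uB u (σ1 p) - b' := by ring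
      rwa [h7] at h6
    have hoff : ∀ᶠ p in 𝓝 (0 : ℂ × ℂ), σ1 p ∉ Zs (blow l X) (blow l D) Λ (uB u) B → σ (β p) ∉ D := by
      filter_upwards [hexc, strict_off hX hD hl hσ hσ0 h1 hpr] with p e1 e2 e3 e4
      refine e3 (Or.inl ((e2 (e1 e3)).2 ?_))
      rw [hβ] at e4
      exact e4
    have key : ∀ υ1, Lf Λ (uB u) σ1 υ1 → ∃ υ, Lf Λ u σ υ ∧ ∀ᶠ p in 𝓝 (0 : ℂ × ℂ),
        σ1 p ∉ Zs (blow l X) (blow l D) Λ (uB u) B → p.1 ≠ 0 ∧ σ (β p) ∉ Zs X D Λ u B ∧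
          cf (aB α) υ1 σ1 p = k * p.1 * cf α υ σ (β p) := by
      intro υ1 hυ1
      have hst := BlowL_step hX hu hD hα hl hq hB hBc h1 hσ hβa hβ0 hpr' hoff hυ1
      obtain ⟨υ, hυ, hυe⟩ := BlowL_lift hΛ hu hσ hβa hβ0 hυ1.1 (hst.mono fun p hp => hp.1)
      refine ⟨υ, hυ, ?_⟩
      filter_upwards [hst, hυe, hexc] with p e1 e2 e6 e3
      obtain ⟨e4, e5⟩ := e1.2 e3
      refine ⟨e6 e3, e4, ?_⟩
      rw [e5, hβJ, ← hk, ← e2]
      rfl
    have hgβ : ∀ g : ℂ × ℂ → ℂ, AnalyticAt ℂ g 0 → AnalyticAt ℂ (fun p => g (β p)) 0 := by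
      intro g hg
      refine AnalyticAt.comp (g := g) (f := β) ?_ hβa
      rw [hβ0]
      exact hg
    refine ⟨σ1, τ1, h1, h10, ?_⟩
    rcases hprop with ⟨hn, hg⟩ | ⟨hA, hg⟩
    · have h2 := strict_none hX hD hn hσ hσ0 h1 hpr
      refine Or.inl ⟨?_, fun υ1 hυ1 => ?_⟩
      · rw [← h10]
        exact h2.self_of_nhds
      · obtain ⟨υ, hυ, hk2⟩ := key υ1 hυ1
        obtain ⟨g, hga, hge⟩ := hg υ hυ
        refine ⟨fun p => k * p.1 * g (β p), (analyticAt_const.mul analyticAt_fst).mul (hgβ g hga), ?_⟩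
        filter_upwards [hk2, hβt.eventually hge] with p e1 e2 e3
        obtain ⟨e4, e5, e6⟩ := e1 e3
        rw [e6, e2 e5]
    · have h2 := strict_exc hX hD hl hσ hσ0 hA h1 hpr
      by_cases hc0 : (e (1, 0)).2 = 0
      · refine Or.inr ⟨h2.1 hc0, fun υ1 hυ1 => ?_⟩
        have hd0 : (e (0, 1)).2 ≠ 0 := by
          intro h3
          rw [hk, hc0, h3] at hdet
          simp at hdet
        obtain ⟨υ, hυ, hk2⟩ := key υ1 hυ1
        obtain ⟨g, hga, hge⟩ := hg υ hυ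
        refine ⟨fun p => k / (e (0, 1)).2 * g (β p), analyticAt_const.mul (hgβ g hga), ?_⟩
        filter_upwards [hk2, hβt.eventually hge] with p e1 e2 e3
        obtain ⟨e4, e5, e6⟩ := e1 e3
        have h3 := e2 e5
        rw [hβ2, hc0, zero_add] at h3
        rw [e6, ← h3]
        field_simp
      · refine Or.inl ⟨?_, fun υ1 hυ1 => ?_⟩
        · rw [← h10]
          exact (h2.2 hc0).self_of_nhds
        obtain ⟨υ, hυ, hk2⟩ := key υ1 hυ1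
        obtain ⟨g, hga, hge⟩ := hg υ hυ
        have hden : AnalyticAt ℂ (fun p : ℂ × ℂ => (e (1, 0)).2 + (e (0, 1)).2 * p.2) 0 :=
          analyticAt_const.add (analyticAt_const.mul analyticAt_snd)
        have hden0 : (e (1, 0)).2 + (e (0, 1)).2 * (0 : ℂ × ℂ).2 ≠ 0 := by
          simpa using hc0
        refine ⟨fun p => k * g (β p) / ((e (1, 0)).2 + (e (0, 1)).2 * p.2), (analyticAt_const.mul (hgβ g hga)).div hden hden0, ?_⟩
        filter_upwards [hk2, hβt.eventually hge, hden.continuousAt.eventually_ne hden0] with p e1 e2 e7 e3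
        obtain ⟨e4, e5, e6⟩ := e1 e3
        have h3 := e2 e5
        rw [hβ2] at h3
        rw [e6, ← h3, eq_div_iff e7]
        ring

end Pool.Agent.H17L

end

section

/-!
# H17L BaseLC: the limit sections in `V` and in a Euclidean space

Model: H17N/BaseB.lean.

* `finL_of_lsec`: `L : V ≃L[ℂ] EN M`.  Let `f` be a `LimSec`.  `F` the global lift (private `BaseB_lift` in H17N/BaseB.lean: copy), `F ∈ Sec`, and `z ↦ pr (F z)` is in `LSec`, with the same `Z`: for `R, ε, K` take `ε'` (`dist_of_cl`; `Cl` is compared through `L`: `‖L (c • x - y)‖ ≤ ‖L‖ ‖c • x - y‖`, `‖y‖ ≤ ‖L.symm‖ ‖L y‖`) and the approximation `G`; its lift over the closed ball (`exists_lift_ball`)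
  satisfies `SecAt`.  The finite set as in `finSec_of_ss`.
* `lsec_of_finL`: `V = Fin (N + 1) → ℂ`, `L = LE N`.  A point of `LSec` is `pr ∘ F`, `F ∈ Sec`; `f z = (LE N).symm (F z)` is a `LimSec` (`cl_of_dist`); the rest as in `ss_of_finSec`.
* `lsec_shift`: translation of the base, model `H17G.ss_shift`: `F ∈ Sec X Λ u` iff `z ↦ F (z + c₀)` is in `Sec X Λ (u - c₀)`; `Z`, `K` are translated; the closed ball of radius `R` around `c₀` lies in the closed ball of radius `R + ‖c₀‖` around `0`.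
-/

set_option autoImplicit false

open Topology Filter

namespace Pool.Agent.H17L

attribute [-instance] ProperSMul.toContinuousSMul

open Pool.Agent.H17BP (Surface IsChart Tan Pr HolP ResN)
open Pool.Agent.H36.BP (EN)
open Pool.Agent.H62.EF (Lat MN Sec pr pr_smul pr_eq_iff)
open Pool.Agent.H18.LU (LSec SecAt)
open Pool.Agent.H17N (TMap HSec)
open Pool.Agent.H17EF (coneE LE)
open Pool.Agent.H13.SM (cone)

variable {V : Type} [NormedAddCommGroup V] [NormedSpace ℂ V] [FiniteDimensional ℂ V] {X D : Set V} {Λ : AddSubgroup ℂ} {u : V → ℂ} {M N : ℕ}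

omit [FiniteDimensional ℂ V] in
/-- the global lift of a holomorphic map to the projective space -/
private theorem BaseLC_lift (L : V ≃L[ℂ] EN M) (hX : Surface X) {f : ℂ → V} (hf : ∀ z, HolP f z) (hfX : ∀ z, f z ∈ X) :
    ∃ F : ℂ → EN M, Differentiable ℂ F ∧ ∀ z, ∃ c : ℂ, c ≠ 0 ∧ F z = c • L (f z) := by
  have hf0 : ∀ z, f z ≠ 0 := fun z h0 => hX.zero (h0 ▸ hfX z)
  have hne : ∀ z, (LE M).symm (L (f z)) ≠ 0 := fun z h0 => hf0 z (by simpa using h0)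
  have hhol : Pool.Agent.H17.HolomorphicInto (fun z => Projectivization.mk ℂ ((LE M).symm (L (f z))) (hne z)) Set.univ := by
    intro z _
    obtain ⟨G, hG, hG0, hG1⟩ := hf z
    have h1 : AnalyticAt ℂ (fun w => L (G w)) z := ((L : V →L[ℂ] EN M).analyticAt _).comp hG
    refine ⟨fun w => (LE M).symm (L (G w)), (((LE M).symm : EN M →L[ℂ] (Fin (M + 1) → ℂ)).analyticAt _).comp h1, ?_⟩
    filter_upwards [hG1, hG.continuousAt.eventually_ne hG0] with w hw hw0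
    obtain ⟨c, hc, hw1⟩ := hw
    refine ⟨fun h0 => hw0 (by simpa using h0), ?_⟩
    rw [Projectivization.mk_eq_mk_iff']
    exact ⟨c, by rw [hw1, map_smul, map_smul]⟩
  obtain ⟨F, hF, hF1⟩ := Pool.Agent.H17EF.exists_lift hhol
  refine ⟨F, hF, fun z => ?_⟩
  obtain ⟨h0, h1⟩ := hF1 z
  rw [Projectivization.mk_eq_mk_iff'] at h1
  obtain ⟨a, ha⟩ := h1
  have h2 : a • F z = L (f z) := by
    have h3 := congrArg (fun y => (LE M) y) ha
    simpa using h3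
  have ha0 : a ≠ 0 := by
    rintro rfl
    rw [zero_smul] at h2
    exact hf0 z (by simpa using h2.symm)
  refine ⟨a⁻¹, inv_ne_zero ha0, ?_⟩
  rw [← h2, smul_smul, inv_mul_cancel₀ ha0, one_smul]

/-- `Cl` through a linear isomorphism -/
private theorem BaseLC_cl {V₁ V₂ : Type} [NormedAddCommGroup V₁] [NormedSpace ℂ V₁] [NormedAddCommGroup V₂] [NormedSpace ℂ V₂]
    (L : V₁ ≃L[ℂ] V₂) {ε : ℝ} (hε : 0 < ε) : ∃ ε' : ℝ, 0 < ε' ∧ ∀ x y : V₁, Cl ε' x y → Cl ε (L x) (L y) := by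
  have ha : 0 ≤ ‖(L : V₁ →L[ℂ] V₂)‖ := norm_nonneg _
  have hb : 0 ≤ ‖(L.symm : V₂ →L[ℂ] V₁)‖ := norm_nonneg _
  have hab : 0 < ‖(L : V₁ →L[ℂ] V₂)‖ * ‖(L.symm : V₂ →L[ℂ] V₁)‖ + 1 := by positivity
  refine ⟨ε / (‖(L : V₁ →L[ℂ] V₂)‖ * ‖(L.symm : V₂ →L[ℂ] V₁)‖ + 1), div_pos hε hab, ?_⟩
  rintro x y ⟨c, hc, h⟩
  refine ⟨c, hc, ?_⟩
  have hy : 0 < ‖y‖ := by
    by_contra hn
    have h0 : ‖y‖ = 0 := le_antisymm (not_lt.1 hn) (norm_nonneg _)
    rw [h0, mul_zero] at h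
    exact absurd h (not_lt.2 (norm_nonneg _))
  have h1 : ‖c • L x - L y‖ ≤ ‖(L : V₁ →L[ℂ] V₂)‖ * ‖c • x - y‖ := by
    have e : c • L x - L y = (L : V₁ →L[ℂ] V₂) (c • x - y) := by
      simp
    rw [e]
    exact ContinuousLinearMap.le_opNorm _ _
  have h2 : ‖y‖ ≤ ‖(L.symm : V₂ →L[ℂ] V₁)‖ * ‖L y‖ := by
    have e : y = (L.symm : V₂ →L[ℂ] V₁) (L y) := by
      simp
    calc ‖y‖ = ‖(L.symm : V₂ →L[ℂ] V₁) (L y)‖ := by rw [← e]
      _ ≤ _ := ContinuousLinearMap.le_opNorm _ _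
  have hLy : 0 < ‖L y‖ := by
    rw [norm_pos_iff]
    intro h0
    have h3 : y = 0 := by simpa using h0
    rw [h3, norm_zero] at hy
    exact lt_irrefl _ hy
  calc ‖c • L x - L y‖ ≤ ‖(L : V₁ →L[ℂ] V₂)‖ * ‖c • x - y‖ := h1
    _ ≤ ‖(L : V₁ →L[ℂ] V₂)‖ * (ε / (‖(L : V₁ →L[ℂ] V₂)‖ * ‖(L.symm : V₂ →L[ℂ] V₁)‖ + 1) * ‖y‖) :=
        mul_le_mul_of_nonneg_left h.le ha
    _ ≤ ‖(L : V₁ →L[ℂ] V₂)‖ * (ε / (‖(L : V₁ →L[ℂ] V₂)‖ * ‖(L.symm : V₂ →L[ℂ] V₁)‖ + 1) *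
          (‖(L.symm : V₂ →L[ℂ] V₁)‖ * ‖L y‖)) := by
        gcongr
    _ = (ε * ‖L y‖) * ((‖(L : V₁ →L[ℂ] V₂)‖ * ‖(L.symm : V₂ →L[ℂ] V₁)‖) /
          (‖(L : V₁ →L[ℂ] V₂)‖ * ‖(L.symm : V₂ →L[ℂ] V₁)‖ + 1)) := by ring
    _ < (ε * ‖L y‖) * 1 := by
        refine mul_lt_mul_of_pos_left ?_ (mul_pos hε hLy)
        rw [div_lt_one hab]
        exact lt_add_one _
    _ = ε * ‖L y‖ := mul_one _

theorem finL_of_lsec (L : V ≃L[ℂ] EN M) (hX : Surface X) (hu : TMap X Λ u) (hD : ∀ x ∈ D, ∀ c : ℂ, c ≠ 0 → c • x ∈ D)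
    (h : (LSec (L.symm ⁻¹' X : Set (EN M)) (L.symm ⁻¹' D : Set (EN M)) Λ (fun x => u (L.symm x))).Finite) : FinL X D Λ u := by
  classical
  have hS0 : ∀ F ∈ Sec (L.symm ⁻¹' X : Set (EN M)) Λ (fun x => u (L.symm x)), ∀ z, F z ≠ 0 := by
    intro F hF z h0
    have h1 : L.symm (F z) ∈ X := hF.2.1 z
    rw [h0, map_zero] at h1
    exact hX.zero h1
  let G : (ℂ → MN M) → ℂ → V := fun Φ =>
    if hΦ : Φ ∈ LSec (L.symm ⁻¹' X : Set (EN M)) (L.symm ⁻¹' D : Set (EN M)) Λ (fun x => u (L.symm x)) then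
      fun z => L.symm (hΦ.1.choose z) else fun _ => 0
  refine ⟨G '' LSec (L.symm ⁻¹' X : Set (EN M)) (L.symm ⁻¹' D : Set (EN M)) Λ (fun x => u (L.symm x)), h.image G, fun f hf => ?_⟩
  obtain ⟨hf, Z, hZ1, hZ2, hZ3⟩ := hf
  obtain ⟨F, hF, hFf⟩ := BaseLC_lift L hX hf.1 hf.2.1
  have hFS : F ∈ Sec (L.symm ⁻¹' X : Set (EN M)) Λ (fun x => u (L.symm x)) := by
    refine ⟨hF, fun z => ?_, fun z => ?_⟩
    · obtain ⟨c, hc, hz⟩ := hFf z
      change L.symm (F z) ∈ X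
      rw [hz, map_smul, ContinuousLinearEquiv.symm_apply_apply]
      exact hX.smul _ (hf.2.1 z) c hc
    · obtain ⟨c, hc, hz⟩ := hFf z
      change u (L.symm (F z)) - z ∈ Λ
      rw [hz, map_smul, ContinuousLinearEquiv.symm_apply_apply]
      have h1 := Λ.add_mem (hu.smul _ (hf.2.1 z) c hc) (hf.2.2 z)
      rwa [sub_add_sub_cancel] at h1
  have hf0 : ∀ z, L (f z) ≠ 0 := by
    intro z h0
    have h1 : f z = 0 := by simpa using h0
    exact hX.zero (h1 ▸ hf.2.1 z)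
  have hΦ : (fun z => pr (F z)) ∈ LSec (L.symm ⁻¹' X : Set (EN M)) (L.symm ⁻¹' D : Set (EN M)) Λ (fun x => u (L.symm x)) := by
    refine ⟨⟨F, hFS, fun z => rfl⟩, Z, hZ1, hZ2, fun R ε hε K hK hKZ => ?_⟩
    obtain ⟨ε₁, hε₁, hc₁⟩ := dist_of_cl (M := M) hε
    obtain ⟨ε₂, hε₂, hc₂⟩ := BaseLC_cl L hε₁
    obtain ⟨G₀, hG₀, hG₁⟩ := hZ3 R ε₂ hε₂ K hK hKZ
    obtain ⟨FG, hFG, hFG1⟩ := exists_lift_ball L hX hu hD hG₀
    refine ⟨FG, hFG, fun z hz hzR => ?_⟩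
    have hzb : z ∈ Metric.closedBall (0 : ℂ) R := by simpa [Metric.mem_closedBall, dist_eq_norm] using hzR
    obtain ⟨c, hc, h1⟩ := hFG1 z hzb
    obtain ⟨d, hd, h2⟩ := hFf z
    have hGX : G₀ z ∈ X := (hG₀ z hzb).2.self_of_nhds.1
    have hG0 : L (G₀ z) ≠ 0 := by
      intro h0
      have h3 : G₀ z = 0 := by simpa using h0
      exact hX.zero (h3 ▸ hGX)
    change dist (pr (FG z)) (pr (F z)) < ε
    rw [h1, h2, pr_smul _ hc, pr_smul _ hd]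
    exact hc₁ _ _ hG0 (hf0 z) (hc₂ _ _ (hG₁ z hz hzR))
  refine ⟨G fun z => pr (F z), Set.mem_image_of_mem G hΦ, fun z => ?_⟩
  have hG : G (fun z => pr (F z)) = fun z => L.symm (hΦ.1.choose z) := dif_pos hΦ
  rw [hG]
  have h1 := hΦ.1.choose_spec
  have h2 : pr (F z) = pr (hΦ.1.choose z) := (h1.2 z).symm
  obtain ⟨d, hd, h3⟩ := (pr_eq_iff (hS0 F hFS z) (hS0 _ h1.1 z)).1 h2
  obtain ⟨c, hc, hz⟩ := hFf z
  refine ⟨c⁻¹ * d, mul_ne_zero (inv_ne_zero hc) hd, ?_⟩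
  have h4 : f z = c⁻¹ • L.symm (F z) := by
    rw [hz, map_smul, ContinuousLinearEquiv.symm_apply_apply, smul_smul, inv_mul_cancel₀ hc, one_smul]
  rw [h4, h3, map_smul, smul_smul]

theorem lsec_of_finL {P : Ideal (MvPolynomial (Fin (N + 1)) ℂ)} (hS : Surface (cone P)) {D : Set (Fin (N + 1) → ℂ)} {w : EN N → ℂ}
    (h : FinL (cone P) D Λ (fun x => w (LE N x))) : (LSec (coneE P) ((LE N).symm ⁻¹' D : Set (EN N)) Λ w).Finite := by
  obtain ⟨S, hSf, hSm⟩ := h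
  refine (hSf.image fun g : ℂ → Fin (N + 1) → ℂ => fun z => pr (LE N (g z))).subset ?_
  rintro Φ ⟨⟨F, hF, hFΦ⟩, Z, hZ1, hZ2, hZ3⟩
  have hF0 : ∀ z, F z ≠ 0 := by
    intro z h0
    have h1 : (LE N).symm (F z) ∈ cone P := hF.2.1 z
    rw [h0, map_zero] at h1
    exact hS.zero h1
  have hf : (fun z => (LE N).symm (F z)) ∈ HSec (cone P) Λ (fun x => w (LE N x)) := by
    refine ⟨fun z => ⟨fun z => (LE N).symm (F z), ?_, ?_, Eventually.of_forall fun z => Pool.Agent.H17BP.Pr.refl _⟩, fun z => hF.2.1 z, fun z => ?_⟩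
    · exact (((LE N).symm : EN N →L[ℂ] (Fin (N + 1) → ℂ)).analyticAt _).comp (hF.1.analyticAt z)
    · exact (hF.2.1 z).1
    · change w (LE N ((LE N).symm (F z))) - z ∈ Λ
      rw [ContinuousLinearEquiv.apply_symm_apply]
      exact hF.2.2 z
  have hL : LimSec (cone P) D Λ (fun x => w (LE N x)) (fun z => (LE N).symm (F z)) := by
    refine ⟨hf, Z, hZ1, hZ2, fun R ε hε K hK hKZ => ?_⟩
    obtain ⟨ε₁, hε₁, hc₁⟩ := BaseLC_cl (LE N).symm hε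
    obtain ⟨ε₂, hε₂, hc₂⟩ := cl_of_dist (M := N) hε₁
    obtain ⟨G, hG, hG1⟩ := hZ3 R ε₂ hε₂ K hK hKZ
    refine ⟨fun z => (LE N).symm (G z), fun z hz => ⟨?_, ?_⟩, fun z hz hzR => ?_⟩
    · refine ⟨fun z => (LE N).symm (G z), ?_, ?_, Eventually.of_forall fun z => Pool.Agent.H17BP.Pr.refl _⟩
      · exact (((LE N).symm : EN N →L[ℂ] (Fin (N + 1) → ℂ)).analyticAt _).comp (hG z hz).1
      · intro h0
        have h1 : (LE N).symm (G z) ∈ cone P := (hG z hz).2.self_of_nhds.1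
        have h2 : (LE N).symm (G z) = 0 := h0
        rw [h2] at h1
        exact hS.zero h1
    · filter_upwards [(hG z hz).2] with y hy
      refine ⟨hy.1, hy.2.1, ?_⟩
      rw [ContinuousLinearEquiv.apply_symm_apply]
      exact hy.2.2
    · have hzb : z ∈ Metric.closedBall (0 : ℂ) R := by simpa [Metric.mem_closedBall, dist_eq_norm] using hzR
      have hG0 : G z ≠ 0 := by
        intro h0
        have h1 : (LE N).symm (G z) ∈ cone P := (hG z hzb).2.self_of_nhds.1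
        rw [h0, map_zero] at h1
        exact hS.zero h1
      have h2 := hG1 z hz hzR
      rw [← hFΦ z] at h2
      exact hc₁ _ _ (hc₂ _ _ hG0 (hF0 z) h2)
  obtain ⟨g, hg, hg1⟩ := hSm _ hL
  refine ⟨g, hg, ?_⟩
  funext z
  obtain ⟨c, hc, h1⟩ := hg1 z
  have h2 : F z = c • LE N (g z) := by
    have h3 := congrArg (fun y => (LE N) y) h1
    simpa using h3
  change pr (LE N (g z)) = Φ z
  rw [← hFΦ z, h2, pr_smul _ hc]

theorem lsec_shift {X D : Set (EN N)} {w : EN N → ℂ} (c₀ : ℂ) (h : (LSec X D Λ (fun x => w x - c₀)).Finite) : (LSec X D Λ w).Finite := by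
  have e : ∀ (a z : ℂ), a - c₀ - z = a - (z + c₀) := fun a z => by ring
  refine Set.Finite.of_finite_image (f := fun (f : ℂ → MN N) (z : ℂ) => f (z + c₀)) (h.subset ?_) ?_
  · rintro _ ⟨f, ⟨⟨F, hF, hFf⟩, Z, hZ1, hZ2, hZ3⟩, rfl⟩
    refine ⟨⟨fun z => F (z + c₀), ⟨?_, fun z => hF.2.1 _, fun z => ?_⟩, fun z => hFf (z + c₀)⟩, (fun z => z + c₀) ⁻¹' Z, ?_, ?_, ?_⟩
    · exact hF.1.comp (differentiable_id.add_const c₀)
    · have h1 := hF.2.2 (z + c₀)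
      change w (F (z + c₀)) - c₀ - z ∈ Λ
      rw [e]
      exact h1
    · exact hZ1.preimage (continuous_id.add continuous_const)
    · intro z
      have h1 := hZ2 (z + c₀)
      have h2 : Tendsto (fun y : ℂ => y + c₀) (𝓝[≠] z) (𝓝[≠] (z + c₀)) := by
        refine tendsto_nhdsWithin_of_tendsto_nhds_of_eventually_within _ ?_ ?_
        · exact ((continuous_id.add continuous_const).tendsto z).mono_left nhdsWithin_le_nhds
        · filter_upwards [self_mem_nhdsWithin] with y hy hy1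
          exact hy (add_right_cancel hy1)
      exact h2.eventually h1
    · intro R ε hε K hK hKZ
      have hK' : IsCompact ((fun z => z + c₀) '' K) := hK.image (continuous_id.add continuous_const)
      obtain ⟨G, hG, hG1⟩ := hZ3 (R + ‖c₀‖) ε hε _ hK' (by
        rintro _ ⟨z, hz, rfl⟩
        exact hKZ z hz)
      have hb : ∀ z : ℂ, ‖z‖ ≤ R → ‖z + c₀‖ ≤ R + ‖c₀‖ := fun z hz => (norm_add_le _ _).trans (by linarith)
      refine ⟨fun z => G (z + c₀), fun z hz => ?_, fun z hz hzR => ?_⟩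
      · have hzR : ‖z‖ ≤ R := by simpa [Metric.mem_closedBall, dist_eq_norm] using hz
        have hz' : z + c₀ ∈ Metric.closedBall (0 : ℂ) (R + ‖c₀‖) := by
          rw [Metric.mem_closedBall, dist_zero_right]
          exact hb z hzR
        obtain ⟨h1, h2⟩ := hG (z + c₀) hz'
        refine ⟨h1.comp_of_eq (analyticAt_id.add analyticAt_const) rfl, ?_⟩
        have h3 : Tendsto (fun y : ℂ => y + c₀) (𝓝 z) (𝓝 (z + c₀)) := (continuous_id.add continuous_const).tendsto z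
        filter_upwards [h3.eventually h2] with y hy
        refine ⟨hy.1, hy.2.1, ?_⟩
        rw [e]
        exact hy.2.2
      · exact hG1 (z + c₀) ⟨z, hz, rfl⟩ (hb z hzR)
  · intro f _ g _ hfg
    funext z
    have h1 := congrFun hfg (z - c₀)
    simpa using h1

end Pool.Agent.H17L

end
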