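import Pool.Agent.H94.CB.M161
import Pool.Agent.H94.CB.M162
import Pool.Agent.H94.CB.M170
import Pool.Agent.H94.CB.M234

/-! The parts of this file: H18.LU.FnA, H18.LU.FnL, H17L.CoreStub. -/

section

/-!
# LU FnA: the compact case: decay

`Λ`, `Γ` are lattices; `Nb Λ R = ℂ` for `R` large (`Lat.cocompact`).
`isCone_of_lat`: `X = part X Λ u R`, `part_isCone`.
`decay_secL`: `exists_J` with `V = C' = univ` on `ball c R'` (sections on `closedBall c R'`), `J l = 0` for `l ∈ Γ` (`l ∈ Gd B (2δ)`: `E.zero`, `BadSet.inv`; `II_zero`), `lattice_decay` on `ball c (R' - r₁ - 6δ)`; see `decay_sec` (EL Dc).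
`decay_soL`: definition of `SO` with `K = closedBall c (R' + 1)`, `δ' = δ`: sections near `f`, `g`; `decay_secL`; `II_approx` (`sec_so`, `so_anti`); see `decay_sb`.
-/

set_option autoImplicit false

open Topology Filter Metric

namespace Pool.Agent.H18.LU

attribute [-instance] ProperSMul.toContinuousSMul

open Pool.Agent.H36.BP (EN fs wd IsGermChart)
open Pool.Agent.H14.PP (IsCone Chart Tan CurveAt)
open Pool.Agent.H62.EF (Lat MN pr TorusMap Sec Charts DU)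
open Pool.Agent.H62.EL (Gd Ag BadSet IsNC TForm Mon mo Cap IRel II Per VanZero Thin Zr Dyn)

variable {N : ℕ} {X D P : Set (EN N)} {Λ Γ : AddSubgroup ℂ} {u : EN N → ℂ} {B : Set ℂ} {δ : ℝ}

theorem nb_univ (hΛ : Lat Λ) : ∃ R : ℝ, 0 < R ∧ ∀ z : ℂ, z ∈ Nb Λ R := hΛ.cocompact

theorem isCone_of_lat (E : LData X D P Λ Γ u B δ) (hΛ : Lat Λ) : IsCone X := by
  obtain ⟨R, hR, h⟩ := nb_univ hΛ
  have h1 : part X Λ u R = X := by
    ext x
    exact ⟨fun h2 => h2.1, fun h2 => ⟨h2, h _⟩⟩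
  rw [← h1]
  exact E.toLFib.part_isCone R

theorem decay_secL (E : LData X D P Λ Γ u B δ) (hΓ : Lat Γ) {α : TForm (X \ P) Λ u} (hper : Per α Γ) (hvan : VanZero α) {R r₁ ε ε₀ C : ℝ}
    (hR : ∀ z, z ∈ Nb Λ R) (hc : CstL D B δ R α r₁ ε ε₀ C) : ∃ κ r₂ : ℝ, 0 < κ ∧ 0 < r₂ ∧ ∀ (F G : ℂ → EN N) (c : ℂ) (R' : ℝ),
      (∀ z ∈ closedBall c R', SecAt X D Λ u F z ∧ SecAt X D Λ u G z) →
      (∀ z ∈ Gd B δ, ‖z - c‖ ≤ R' → dist (pr (F z)) (pr (G z)) ≤ ε₀) → ∀ z ∈ Gd B (2 * δ), ‖z - c‖ ≤ R' - r₂ →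
        ‖II α ε z (pr (F z)) (pr (G z))‖ ≤ C * Real.exp (-κ * ((R' - r₂) ^ 2 - ‖z - c‖ ^ 2)) := by
  have hδ := E.bad.pos
  have hr₁ := hc.r₁_pos
  obtain ⟨κ, r₀, hκ, hr₀, hdec⟩ := Pool.Agent.H62.EL.lattice_decay hΓ
  refine ⟨κ, r₀ + r₁ + 6 * δ, hκ, by linarith, fun F G c R' hFG hcl z₁ hz₁ hz₁c => ?_⟩
  have hn0 := norm_nonneg (z₁ - c)
  obtain ⟨J, hJd, hJb, hJe⟩ := exists_J E hc (V := Set.univ) (C' := Set.univ) isOpen_univ (Set.subset_univ _) (fun z _ => hR z)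
    (fun _ _ _ _ _ => Set.subset_univ _) (c := c) (R' := R') (F := F) (G := G) (fun z hz => hFG z (ball_subset_closedBall hz))
    (fun z hz hzG _ => hcl z hzG (by rw [mem_ball, dist_eq_norm] at hz; exact hz.le))
  rw [Set.univ_inter] at hJd hJb hJe
  have hzero : ∀ l ∈ Γ, l ∈ ball c (R' - r₁ - 6 * δ) → J l = 0 := by
    intro l hl hlb
    rw [hJe l hlb fun b hb => ?_]
    · exact Pool.Agent.H62.EL.II_zero E.vTor E.le hper hvan hl ε _ _
    · have h1 : b + -l ∈ B := E.bad.inv b hb (-l) (Λ.neg_mem (E.le hl))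
      have h2 := E.zero _ h1
      have e : ‖l - b‖ = ‖b + -l‖ := by
        rw [← norm_neg (l - b)]
        congr 1
        ring
      rw [e]
      linarith
  have hz₁b : z₁ ∈ ball c (R' - r₁ - 6 * δ) := by
    rw [mem_ball, dist_eq_norm]
    linarith
  have hmain := hdec J c (R' - r₁ - 6 * δ) C (by linarith) hJd hJb hzero z₁ hz₁b
  rw [hJe z₁ hz₁b hz₁] at hmain
  have e : R' - r₁ - 6 * δ - r₀ = R' - (r₀ + r₁ + 6 * δ) := by ring
  rw [e] at hmain
  exact hmain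

theorem decay_soL (E : LData X D P Λ Γ u B δ) (hΓ : Lat Γ) {α : TForm (X \ P) Λ u} (hper : Per α Γ) (hvan : VanZero α) {R r₁ ε ε₀ C : ℝ}
    (hR : ∀ z, z ∈ Nb Λ R) (hc : CstL D B δ R α r₁ ε ε₀ C) : ∃ κ r₂ : ℝ, 0 < κ ∧ 0 < r₂ ∧ ∀ f ∈ SO X D Λ u B Set.univ,
      ∀ g ∈ SO X D Λ u B Set.univ, ∀ (c : ℂ) (R' : ℝ), (∀ z ∈ Gd B δ, ‖z - c‖ ≤ R' → dist (f z) (g z) ≤ ε₀ / 2) →
      ∀ z ∈ Gd B (2 * δ), ‖z - c‖ ≤ R' - r₂ → ‖II α ε z (f z) (g z)‖ ≤ C * Real.exp (-κ * ((R' - r₂) ^ 2 - ‖z - c‖ ^ 2)) := by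
  have hδ := E.bad.pos
  have hε₀ := hc.ε₀_pos
  have hr₁ := hc.r₁_pos
  obtain ⟨κ, r₂, hκ, hr₂, hdec⟩ := decay_secL E hΓ hper hvan hR hc
  refine ⟨κ, r₂ + r₁, hκ, by linarith, fun f hf g hg c R' hcl z hz hzc => ?_⟩
  have hn0 := norm_nonneg (z - c)
  have hzδ : z ∈ Gd B δ := fun b hb => by linarith [hz b hb]
  have hzR : ‖z - c‖ ≤ R' := by linarith
  refine le_of_forall_pos_le_add fun η hη => ?_
  obtain ⟨κ', hκ', happ⟩ := II_approx E hc hzδ (hR z) (so_anti (Set.subset_univ _) hf) (so_anti (Set.subset_univ _) hg)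
    (hcl z hzδ hzR) hη
  obtain ⟨F, hF, hFf⟩ := hf (closedBall c (R' + r₁)) (Set.subset_univ _) (isCompact_closedBall _ _) δ (min κ' (ε₀ / 4)) hδ
    (lt_min hκ' (by linarith))
  obtain ⟨G, hG, hGg⟩ := hg (closedBall c (R' + r₁)) (Set.subset_univ _) (isCompact_closedBall _ _) δ (min κ' (ε₀ / 4)) hδ
    (lt_min hκ' (by linarith))
  have hsub : ball z r₁ ⊆ closedBall c (R' + r₁) := by
    intro w hw
    rw [mem_ball, dist_eq_norm] at hw
    rw [mem_closedBall, dist_eq_norm]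
    have e : w - c = (w - z) + (z - c) := by ring
    have := norm_add_le (w - z) (z - c)
    rw [e]
    linarith
  have hin : ∀ w : ℂ, ‖w - c‖ ≤ R' → w ∈ closedBall c (R' + r₁) := by
    intro w hw
    rw [mem_closedBall, dist_eq_norm]
    linarith
  have hclose : ∀ w ∈ Gd B δ, ‖w - c‖ ≤ R' → dist (pr (F w)) (pr (G w)) ≤ ε₀ := by
    intro w hw hwc
    have h1 := (hFf w (hin w hwc) hw).trans_le (min_le_right _ _)
    have h2 := (hGg w (hin w hwc) hw).trans_le (min_le_right _ _)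
    have h3 := hcl w hw hwc
    have h4 := dist_triangle4 (pr (F w)) (f w) (g w) (pr (G w))
    rw [dist_comm (g w)] at h4
    linarith
  have h1 := hdec F G c R' (fun w hw => ?_) hclose z hz (by linarith)
  swap
  · rw [mem_closedBall, dist_eq_norm] at hw
    exact ⟨hF w (hin w hw), hG w (hin w hw)⟩
  have h2 := happ (fun w => pr (F w)) (sec_so fun w hw => hF w (hsub hw)) (fun w => pr (G w)) (sec_so fun w hw => hG w (hsub hw))
    ((hFf z (hin z hzR) hzδ).trans_le (min_le_left _ _)) ((hGg z (hin z hzR) hzδ).trans_le (min_le_left _ _))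
  rw [dist_eq_norm] at h2
  have h3 : ‖II α ε z (f z) (g z)‖ ≤ ‖II α ε z (pr (F z)) (pr (G z))‖ +
      ‖II α ε z (pr (F z)) (pr (G z)) - II α ε z (f z) (g z)‖ := by
    have e : II α ε z (f z) (g z) = II α ε z (pr (F z)) (pr (G z)) - (II α ε z (pr (F z)) (pr (G z)) - II α ε z (f z) (g z)) := by
      ring
    calc ‖II α ε z (f z) (g z)‖ = ‖II α ε z (pr (F z)) (pr (G z)) - (II α ε z (pr (F z)) (pr (G z)) - II α ε z (f z) (g z))‖ := by
          rw [← e]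
      _ ≤ _ := norm_sub_le _ _
  have h4 : C * Real.exp (-κ * ((R' - r₂) ^ 2 - ‖z - c‖ ^ 2)) ≤ C * Real.exp (-κ * ((R' - (r₂ + r₁)) ^ 2 - ‖z - c‖ ^ 2)) := by
    refine mul_le_mul_of_nonneg_left (Real.exp_le_exp.2 ?_) hc.C_nonneg
    have h5 : (R' - (r₂ + r₁)) ^ 2 ≤ (R' - r₂) ^ 2 := by
      refine pow_le_pow_left₀ (by linarith) (by linarith) 2
    nlinarith
  linarith

end Pool.Agent.H18.LU

end

section

/-!
# LU FnL: the compact case: the limit sections are finitely many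

`Λ`, `Γ` are lattices.
`dynL`: see `dyn` in EL Core; `lip`: `so_lip` (`w' = z`: `dist (f z) (f w)`), `mem`: `so_mem`, `lim`: `so_lim` (`Ω = univ`), `uniq`: `so_uniq`, `Z_inv`: `zr_per` (EL Nr, for the form on `X \ P`), `Z_lim`: `so_notP`, `so_lift_at` (`f z = pr x`, `x ∈ X \ P`),
`zr_closedO`; `near`: `near_zrL`; `iso`: `iso_zrL` (`g z = pr x`, `x ∈ X \ P`: `so_lift_at`, `so_notP`).
`so_finite`: `exists_cstL`, `dynL`, `Dyn.finite`.
`lsec_so`: let `f ∈ LSec`, `Z` the exceptional set.  `K n = {z | ‖z‖ ≤ n ∧ 1/(n+1) ≤ infDist z Z}` (if `Z = ∅`: `closedBall 0 n`), compact, disjoint from `Z`; `G n` with `R = n + 1`, `ε = 1/(n+1)`, `K = K n`.  `pr ∘ G n ∈ SO (ball 0 (n + 1))` (`sec_so`).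
`so_exists_lim` along an ultrafilter `≤ atTop`: `h ∈ SO univ` with `pr (G n z) → h z` for `z ∉ B`; for `z ∉ Z` `pr (G n z) → f z`.  So `f = h` outside `B ∪ Z`; `f` is continuous (`F ∈ Sec` is), `h` is continuous at the points outside `B` (`so_cont`), the complement
of `B ∪ Z` is dense near such a point; so `f = h` outside `B` and `f ∈ SO univ` (`so_congr`).
`lsec_finite`: `E.lbase`, `exists_P` (`E.resBd`), `so_finite` for `LData X D P ..`; two members of `LSec` which agree outside `B` are equal (continuous; `Bᶜ` is dense).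
-/

set_option autoImplicit false

open Topology Filter Metric

namespace Pool.Agent.H18.LU

attribute [-instance] ProperSMul.toContinuousSMul

open Pool.Agent.H36.BP (EN fs wd IsGermChart)
open Pool.Agent.H14.PP (IsCone Chart Tan CurveAt)
open Pool.Agent.H62.EF (Lat MN pr TorusMap Sec Charts DU)
open Pool.Agent.H62.EL (Gd Ag BadSet IsNC TForm Mon mo Cap IRel II Per VanZero Thin Zr Dyn)

variable {N : ℕ} {X D P : Set (EN N)} {Λ Γ : AddSubgroup ℂ} {u : EN N → ℂ} {B : Set ℂ} {δ : ℝ}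

theorem dynL (E : LData X D P Λ Γ u B δ) (hΛ : Lat Λ) (hΓ : Lat Γ) {α : TForm (X \ P) Λ u} (hper : Per α Γ) (hvan : VanZero α)
    (hthin : Thin α) {R r₁ ε ε₀ C : ℝ} (hR : ∀ z, z ∈ Nb Λ R) (hc : CstL D B δ R α r₁ ε ε₀ C) :
    Dyn (pr '' X) Γ B δ (SO X D Λ u B Set.univ) (Zr α) (fun z y y' => ‖II α ε z y y'‖) := by
  have hr : ε < 3 * ε := by
    have := hc.ε_pos
    linarith
  have hd := E.bad.pos
  have hd2 : (0 : ℝ) < 2 * δ := by linarith
  have hdd : δ ≤ 2 * δ := by linarith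
  have hR0 : 0 ≤ R := by
    obtain ⟨l, -, hl⟩ := hR 0
    exact (norm_nonneg _).trans hl
  have hpt : ∀ f ∈ SO X D Λ u B Set.univ, ∀ z, z ∉ B → ∃ x ∈ X \ P, u x - z ∈ Λ ∧ pr x = f z := by
    intro f hf z hz
    obtain ⟨x, hx, hxz, hxf⟩ := so_lift_at E isOpen_univ hf (Set.mem_univ z) hz
    exact ⟨x, ⟨hx, fun hP => so_notP E hf hz ⟨x, hP, hxf⟩⟩, hxz, hxf⟩
  have hcap2 := cap_mono' hc.cap hdd le_rfl le_rfl (le_refl (3 * ε))
  have hrel2 := rel_mono' hc.rel hdd le_rfl le_rfl (le_refl ε₀)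
  refine
    { compact := Pool.Agent.H62.EF.isCompact_pr (isCone_of_lat E hΛ)
      lat := hΓ
      bad := ⟨E.bad.pos, fun b hb l hl => E.bad.inv b hb l (E.le hl), E.bad.sep⟩
      mem := fun f hf z hz => ?_
      lip := fun δ' hδ' => ?_
      trans := fun f hf l hl => ?_
      lim := fun 𝒰 F f hF hf => so_lim E 𝒰 (fun _ => Set.univ) (fun R => Eventually.of_forall fun _ => Set.subset_univ _) F f hF hf
      uniq := fun f hf g hg z₀ hz₀ h z hz => so_uniq E isOpen_univ convex_univ hf hg (Set.mem_univ z₀) hz₀ h z (Set.mem_univ z) hz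
      Z_inv := fun z l hl y => Pool.Agent.H62.EL.zr_per E.le hper hl z y
      Z_lim := fun 𝒰 F f hf hF hFf z hz h => ?_
      N_nonneg := fun z y y' => norm_nonneg _
      N_inv := fun z l hl y y' => by rw [Pool.Agent.H62.EL.II_per E.vTor E.le hper hl]
      decay := ?_
      near := ?_
      iso := ?_ }
  · obtain ⟨x, hx, hxf⟩ := so_mem E hf (Set.mem_univ z) hz (mem_nb_norm z)
    exact ⟨x, hx.1, hxf⟩
  · obtain ⟨L, hL, h⟩ := so_lip E hδ' R
    refine ⟨L, hL, fun f hf z hz w hw => ?_⟩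
    exact h Set.univ f hf z hz (hR z) (Set.subset_univ _) z (mem_closedBall_self (by linarith)) w hw
  · exact so_anti (fun _ _ => Set.mem_univ _) (so_trans E hf (E.le hl))
  · have hzB := Pool.Agent.H62.EL.gd_notMem hd2 hz
    obtain ⟨x, hx, hxz, hxf⟩ := hpt f hf z hzB
    have hy := hFf z hzB
    rw [← hxf] at hy ⊢
    exact zr_closedO E.vCone E.vCharts E.vTor E.dsc hx hxz hy h
  · obtain ⟨κ, r₂, hκ, hr₂, h⟩ := decay_soL E hΓ hper hvan hR hc
    exact ⟨C, κ, r₂, ε₀ / 2, hc.C_nonneg, hκ, hr₂, by have := hc.ε₀_pos; linarith, h⟩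
  · intro 𝒰 F G w f hf z hz hFG hF hG hw h
    refine near_zrL E hd2 hc.ε₀_pos hr hc.r₁_pos hcap2 hrel2 𝒰 (fun _ => Set.univ) (fun R => Eventually.of_forall fun _ => Set.subset_univ _)
      F G w hf hz (hR z) hFG hF hG hw ?_
    filter_upwards [h] with n hn using ⟨hn.1, hR _, hn.2.1, norm_eq_zero.1 hn.2.2⟩
  · intro e he _
    obtain ⟨z₀, r', ε', h1, h2, h3, h4⟩ := iso_zrL E hthin hd2 le_rfl hc.ε_pos hR0 hc.r₁_pos hr hcap2 he
    have h5 : ball (0 : ℂ) (2 * δ) ⊆ Gd B (2 * δ) := by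
      intro z hz b hb
      rw [mem_ball_zero_iff] at hz
      have h6 := E.zero b hb
      have h7 : ‖b‖ ≤ ‖z - b‖ + ‖z‖ := by
        have e : b = z - (z - b) := by ring
        calc ‖b‖ = ‖z - (z - b)‖ := by rw [← e]
          _ ≤ ‖z‖ + ‖z - b‖ := norm_sub_le _ _
          _ = _ := add_comm _ _
      linarith
    refine ⟨z₀, r', ε', h1, h2, h3.trans h5, fun g hg z hz hd h => ?_⟩
    have hzB := Pool.Agent.H62.EL.gd_notMem hd2 (h5 (h3 hz))
    obtain ⟨x, hx, hxz, hxg⟩ := hpt g hg z hzB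
    rw [← hxg] at hd h ⊢
    exact h4 z hz x hx hxz hd (h.imp (fun h => norm_eq_zero.1 h) id)

theorem so_finite (E : LData X D P Λ Γ u B δ) (hΛ : Lat Λ) (hΓ : Lat Γ) {α : TForm (X \ P) Λ u} (hlog : LogP α) (hper : Per α Γ)
    (hvan : VanZero α) (hthin : Thin α) : ∃ 𝓕 : Set (ℂ → MN N), 𝓕.Finite ∧ 𝓕 ⊆ SO X D Λ u B Set.univ ∧
      ∀ f ∈ SO X D Λ u B Set.univ, ∃ g ∈ 𝓕, Ag B f g := by
  obtain ⟨R, -, hR⟩ := nb_univ hΛ
  obtain ⟨δ', -, -, E', r₁, ε, ε₀, C, hc⟩ := exists_cstL E hlog hper R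
  exact (dynL E' hΛ hΓ hper hvan hthin hR hc).finite

private theorem FnL_punct (hB : BadSet B Λ δ) (z : ℂ) : ∀ᶠ w in 𝓝[≠] z, w ∉ B := by
  by_cases hz : z ∈ B
  · have h1 : ∀ᶠ w in 𝓝[≠] z, w ∈ ball z (8 * δ) :=
      mem_nhdsWithin_of_mem_nhds (ball_mem_nhds z (by have := hB.pos; positivity))
    have h2 : ∀ᶠ w in 𝓝[≠] z, w ≠ z := eventually_mem_nhdsWithin
    filter_upwards [h1, h2] with w hw1 hw2 hwB
    have h3 := hB.sep w hwB z hz hw2
    rw [mem_ball, dist_eq_norm] at hw1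
    linarith
  · obtain ⟨δ', hδ', h⟩ := hB.exists_gd hz
    have h1 : ∀ᶠ w in 𝓝 z, w ∈ ball z δ' := ball_mem_nhds z hδ'
    refine (h1.mono fun w hw hwB => ?_).filter_mono nhdsWithin_le_nhds
    have h2 := h w hwB
    rw [mem_ball, dist_comm, dist_eq_norm] at hw
    linarith

private theorem FnL_eq (hB : BadSet B Λ δ) {f g : ℂ → MN N} {Z : Set ℂ} (hZ : ∀ z, ∀ᶠ w in 𝓝[≠] z, w ∉ Z) {z : ℂ} (hf : ContinuousAt f z)
    (hg : ContinuousAt g z) (h : ∀ w, w ∉ B → w ∉ Z → f w = g w) : f z = g z := by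
  have h1 : f =ᶠ[𝓝[≠] z] g := by
    filter_upwards [FnL_punct hB z, hZ z] with w hw1 hw2 using h w hw1 hw2
  have h2 : Tendsto f (𝓝[≠] z) (𝓝 (f z)) := hf.tendsto.mono_left nhdsWithin_le_nhds
  have h3 : Tendsto g (𝓝[≠] z) (𝓝 (g z)) := hg.tendsto.mono_left nhdsWithin_le_nhds
  exact tendsto_nhds_unique_of_eventuallyEq h2 h3 h1

private theorem FnL_cont (hX : OCone X) {f : ℂ → MN N} (hf : f ∈ LSec X D Λ u) (z : ℂ) : ContinuousAt f z := by
  obtain ⟨⟨F, hF, hFf⟩, -⟩ := hf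
  have h1 : f = fun z => pr (F z) := funext fun z => (hFf z).symm
  rw [h1]
  exact (Pool.Agent.H62.EF.continuousAt_pr (hX.ne_zero (hF.2.1 z))).comp (f := F) (hF.1 z).continuousAt

theorem lsec_so (E : LData X D P Λ Γ u B δ) {f : ℂ → MN N} (hf : f ∈ LSec X D Λ u) : f ∈ SO X D Λ u B Set.univ := by
  have hcont := FnL_cont E.cone hf
  obtain ⟨-, Z, hZc, hZd, hG⟩ := hf
  have hK : ∀ n : ℕ, IsCompact (closedBall (0 : ℂ) n \ thickening (1 / ((n : ℝ) + 1)) Z) := fun n =>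
    (isCompact_closedBall _ _).diff isOpen_thickening
  have hKZ : ∀ n : ℕ, ∀ z ∈ closedBall (0 : ℂ) n \ thickening (1 / ((n : ℝ) + 1)) Z, z ∉ Z := by
    intro n z hz hzZ
    exact hz.2 (self_subset_thickening (by positivity) Z hzZ)
  choose G hGs hGd using fun n : ℕ => hG ((n : ℝ) + 1) (1 / ((n : ℝ) + 1)) (by positivity) _ (hK n) (hKZ n)
  set 𝒰 : Ultrafilter ℕ := Ultrafilter.of atTop with h𝒰
  have hle : (𝒰 : Filter ℕ) ≤ atTop := Ultrafilter.of_le _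
  obtain ⟨h, hh, hlim⟩ := so_exists_lim E 𝒰 (fun n => ball (0 : ℂ) ((n : ℝ) + 1)) (fun R => by
      refine hle ?_
      filter_upwards [eventually_ge_atTop ⌈R⌉₊] with n hn
      have h1 : R ≤ (n : ℝ) := (Nat.le_ceil R).trans (by exact_mod_cast hn)
      exact ball_subset_ball (by linarith))
    (fun n z => pr (G n z)) (Eventually.of_forall fun n => sec_so fun z hz => hGs n z (ball_subset_closedBall hz))
  have hfh : ∀ z, z ∉ B → z ∉ Z → f z = h z := by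
    intro z hzB hzZ
    refine tendsto_nhds_unique ?_ (hlim z hzB)
    obtain ⟨η, hη, hηZ⟩ := Metric.isOpen_iff.1 hZc.isOpen_compl z hzZ
    rw [Metric.tendsto_nhds]
    intro ε hε
    refine hle ?_
    obtain ⟨n₀, hn₀⟩ := exists_nat_one_div_lt (lt_min hη hε)
    filter_upwards [eventually_ge_atTop n₀, eventually_ge_atTop ⌈‖z‖⌉₊] with n hn1 hn2
    have h1 : 1 / ((n : ℝ) + 1) ≤ 1 / ((n₀ : ℝ) + 1) := by
      refine one_div_le_one_div_of_le (by positivity) ?_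
      have : (n₀ : ℝ) ≤ n := by exact_mod_cast hn1
      linarith
    have h2 : ‖z‖ ≤ (n : ℝ) := (Nat.le_ceil _).trans (by exact_mod_cast hn2)
    have h3 : z ∈ closedBall (0 : ℂ) n \ thickening (1 / ((n : ℝ) + 1)) Z := by
      refine ⟨by rw [mem_closedBall_zero_iff]; exact h2, fun h4 => ?_⟩
      obtain ⟨w, hw, hd⟩ := mem_thickening_iff.1 h4
      refine hηZ (?_ : w ∈ ball z η) hw
      rw [mem_ball, dist_comm]
      exact hd.trans (h1.trans_lt (hn₀.trans_le (min_le_left _ _)))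
    exact (hGd n z h3 (by linarith)).trans (h1.trans_lt (hn₀.trans_le (min_le_right _ _)))
  refine so_congr hh fun z _ hzB => ?_
  exact FnL_eq E.bad hZd (hcont z) (so_cont E isOpen_univ hh (Set.mem_univ z) hzB) hfh

/-- **The core theorem in the compact case.** -/
theorem lsec_finite (E : EBase X D Λ Γ u B δ) {α : TForm (X \ D) Λ u} (hlog : LogP α) (hper : Per α Γ) (hvan : VanZero α) (hthin : Thin α) :
    (LSec X D Λ u).Finite := by
  obtain ⟨P, L, α', -, hlog', hper', hvan', hthin'⟩ := exists_P E.lbase α hlog (E.resBd hlog hper) hper hvan hthin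
  obtain ⟨𝓕, h𝓕fin, -, h𝓕⟩ := so_finite L E.lat E.latΓ hlog' hper' hvan' hthin'
  choose! φ hφ𝓕 hφ using h𝓕
  refine Set.Finite.of_injOn (f := φ) (fun f hf => hφ𝓕 f (lsec_so L hf)) ?_ h𝓕fin
  intro f hf g hg hfg
  funext z
  refine FnL_eq E.bad (Z := ∅) (fun z => Eventually.of_forall fun _ => Set.notMem_empty _) (FnL_cont L.cone hf z) (FnL_cont L.cone hg z)
    fun w hw _ => ?_
  rw [hφ f (lsec_so L hf) w hw, hφ g (lsec_so L hg) w hw, hfg]

end Pool.Agent.H18.LU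

end

section

/-!
# H17L CoreStub: the finiteness theorem on surfaces with normal crossings (helper18, project LOG-E)
-/

set_option autoImplicit false

namespace Pool.Agent.H17L

attribute [-instance] ProperSMul.toContinuousSMul

open Pool.Agent.H36.BP (EN)
open Pool.Agent.H62.EL (TForm Per VanZero Thin)
open Pool.Agent.H18.LU (EBase LogP LSec)

theorem lsec_core {N : ℕ} {X D : Set (EN N)} {Λ Γ : AddSubgroup ℂ} {u : EN N → ℂ} {B : Set ℂ} {δ : ℝ} (E : EBase X D Λ Γ u B δ)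
    (α : TForm (X \ D) Λ u) (hlog : LogP α) (hper : Per α Γ) (hvan : VanZero α) (hthin : Thin α) : (LSec X D Λ u).Finite :=
  Pool.Agent.H18.LU.lsec_finite E hlog hper hvan hthin

end Pool.Agent.H17L

end
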