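import Pool.Agent.H94.CB.H17G.Shift
import Pool.Agent.H94.CB.M246
import Pool.Agent.H94.CB.M250
import Pool.Agent.H94.CB.M251
import Pool.Agent.H94.CB.M252
import Pool.Agent.H94.CB.M253

/-! The parts of this file: H17L.IndL, H17L.MainL. -/

section

/-!
# H17L IndL: the induction over the blow-ups

Model: H17N/Ind.lean (copy), with `RUD` in place of `RU`, `blow l D` for `D`.

* `cls_of_bad`: `z ∉ B` (otherwise `z - z = 0 ∈ Λ`); `B` is invariant under `Λ` and `8 δ`-separated, so at most one `b ∈ B` has `‖z - b‖ < δ`, and it is `≠ z`; hence no `w` near `z` is in `B`, and `w - b ∈ Λ` with `b ∈ B` would give `w = b + (w - b) ∈ B`.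
* `ddata_blow`: `surf`: `H62.BU.surface_blow` (as in Ind); `tor`: `tmap_blow`; `nonconst`: `nonconst_blow`; `curve`: `curve_blow`; `form`, `per`, `van`, `thin`, `fib`: BlowO; `log`: `logV_blow`; `crit`, `good`: BlowRD.
* `fin_zeroL`: `ebase`, `exists_formL`, `lsec_core`, `finL_of_lsec` (choose a continuous linear isomorphism `V ≃L[ℂ] EN M`).
* `finLN_step`, `finL_of_data`: the points `x` with `¬ RUD X D Λ u x 0` are finitely many up to factors (`exists_finset_of_isolated`, `RUD.near`, `RUD.pr`), they lie over `B` (off `B`: `crit`, `good`, `rud_of_ru`, `rud_of_trv`), and `RUD x n` for a common `n`; blow them up one after the other (`rud_blow`), `finL_of_blow`.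
-/

set_option autoImplicit false

open Topology Filter

namespace Pool.Agent.H17L

attribute [-instance] ProperSMul.toContinuousSMul

open Pool.Agent.H17BP (Surface IsChart Tan Pr HolP ResN exists_forms exists_finset_of_isolated)
open Pool.Agent.H62.BU (blow phi Ker phi_smul)
open Pool.Agent.H36.BP (EN)
open Pool.Agent.H62.EF (Lat)
open Pool.Agent.H62.EL (TForm Per VanZero Thin BadSet)
open Pool.Agent.H17N (TMap LU RU TF NonConst ThinF FibB HSec uB aB)

variable {V : Type} [NormedAddCommGroup V] [NormedSpace ℂ V] {X D : Set V} {Λ Γ : AddSubgroup ℂ} {u : V → ℂ}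
  {B : Set ℂ} {α : ℂ → V → V → V → ℂ} {δ : ℝ}

/-- the union of the classes of the bad values is closed -/
theorem cls_of_bad (hbad : BadSet B Λ δ) : ∀ z : ℂ, (∀ b ∈ B, z - b ∉ Λ) → ∀ᶠ w in 𝓝 z, ∀ b ∈ B, w - b ∉ Λ := by
  intro z hz
  have hzB : z ∉ B := fun hzB => hz z hzB (by rw [sub_self]; exact Λ.zero_mem)
  obtain ⟨δ', hδ', hgd⟩ := hbad.exists_gd hzB
  filter_upwards [Metric.ball_mem_nhds z hδ'] with w hw b hb hmem
  have h1 : w ∈ B := by
    have h2 := hbad.inv b hb _ hmem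
    rwa [add_sub_cancel] at h2
  have h3 := hgd w h1
  rw [Metric.mem_ball, dist_eq_norm, norm_sub_rev] at hw
  exact absurd h3 (not_le.2 hw)

theorem ddata_blow [FiniteDimensional ℂ V] {ι : Type} [Fintype ι] {l : ι → V →L[ℂ] ℂ} {q : V} (hΛ : Lat Λ) (hle : Γ ≤ Λ) (h : DData X D Λ Γ u B α)
    (hl : Ker l q) (hq : q ∈ X) (hB : ∃ b ∈ B, u q - b ∈ Λ) (hBc : ∀ z : ℂ, (∀ b ∈ B, z - b ∉ Λ) → ∀ᶠ w in 𝓝 z, ∀ b ∈ B, w - b ∉ Λ) :
    DData (blow l X) (blow l D) Λ Γ (uB u) B (aB α) :=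
  { surf := Pool.Agent.H17BP.surface_iff.1 (Pool.Agent.H62.BU.surface_blow (Pool.Agent.H17BP.surface_iff.2 h.surf) hl hq)
    tor := Pool.Agent.H17N.tmap_blow h.surf h.tor
    nonconst := Pool.Agent.H17N.nonconst_blow hΛ.discrete h.surf h.tor hl hq h.nonconst
    curve := curve_blow h.surf h.tor h.curve hl hq
    form := tf_open h.surf h.tor h.curve h.form hl hq hB
    log := logV_blow hΛ.discrete h.surf h.tor h.curve h.form hl hq hB hBc h.log
    per := per_open h.surf h.tor h.curve h.form hl hq hB hle h.per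
    van := van_open h.surf h.tor h.curve h.form hl hq hB h.van
    thin := thin_open h.surf h.tor h.curve h.form hl hq hB h.thin
    fib := fib_blowD h.surf h.tor h.curve hl hq hB h.fib
    crit := crit_blowD h.surf h.tor hl hq hB h.crit
    good := good_blowD h.surf h.tor h.curve hl hq hB h.good }

theorem fin_zeroL [FiniteDimensional ℂ V] (hΛ : Lat Λ) (hΓ : Lat Γ) (hle : Γ ≤ Λ) (hbad : BadSet B Λ δ) (h0 : ∀ b ∈ B, 4 * δ ≤ ‖b‖)
    (h : DData X D Λ Γ u B α) (hr : ∀ x ∈ X, RUD X D Λ u x 0) : FinL X D Λ u := by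
  rcases X.eq_empty_or_nonempty with hX | ⟨x₀, hx₀⟩
  · refine ⟨∅, Set.finite_empty, fun f hf => ?_⟩
    have h1 := hf.1.2.1 0
    rw [hX] at h1
    exact absurd h1 (Set.notMem_empty _)
  · have hx₀' : x₀ ≠ 0 := fun e => h.surf.zero (e ▸ hx₀)
    have hnt : Nontrivial V := ⟨⟨x₀, 0, hx₀'⟩⟩
    have hpos : 0 < Module.finrank ℂ V := Module.finrank_pos
    obtain ⟨M, hM⟩ : ∃ M, Module.finrank ℂ V = M + 1 := ⟨Module.finrank ℂ V - 1, by omega⟩
    have hE : Module.finrank ℂ V = Module.finrank ℂ (EN M) := by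
      rw [hM, finrank_euclideanSpace_fin]
    let L : V ≃L[ℂ] EN M := ContinuousLinearEquiv.ofFinrankEq hE
    obtain ⟨α', hlog, hper, hvan, hthin⟩ := exists_formL L hΛ hle hbad h0 h
    exact finL_of_lsec L h.surf h.tor h.curve.smul
      (lsec_core (ebase L hΛ hΓ hle hbad h0 h hr) α' hlog hper hvan hthin)

private theorem indL_phi_pr {V : Type} [NormedAddCommGroup V] [NormedSpace ℂ V] {ι : Type} [Fintype ι]
    {l : ι → V →L[ℂ] ℂ} {x y : V} (h : Pr x y) : Pr (phi l x) (phi l y) := by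
  obtain ⟨c, hc, rfl⟩ := h
  exact ⟨c ^ 2, pow_ne_zero _ hc, phi_smul c y⟩

private theorem indL_exists_finset [FiniteDimensional ℂ V] (h : DData X D Λ Γ u B α) :
    ∃ F : Finset V, (∀ q ∈ F, q ∈ X) ∧ ∀ x ∈ X, RUD X D Λ u x 0 ∨ ∃ q ∈ F, Pr x q := by
  refine exists_finset_of_isolated h.surf (fun x y hxy hy => hy.pr h.surf h.tor h.curve hxy) fun x hx => ?_
  obtain ⟨n, hn⟩ := exists_rud h.surf h.tor h.nonconst h.curve hx
  exact hn.near h.surf h.tor h.curve hx

/-- the points which are not resolved lie over the bad values -/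
private theorem indL_over [FiniteDimensional ℂ V] (h : DData X D Λ Γ u B α) {q : V} (hq : q ∈ X) (h0 : ¬ RUD X D Λ u q 0) :
    ∃ b ∈ B, u q - b ∈ Λ := by
  by_contra hB
  have hB' : ∀ b ∈ B, u q - b ∉ Λ := fun b hb hmem => hB ⟨b, hb, hmem⟩
  by_cases hqD : q ∈ D
  · exact h0 (rud_of_trv (h.good q hqD hB'))
  · exact h0 (rud_of_ru h.curve hq hqD (h.crit q hq hB'))

/-- the statement for surfaces which are resolved by `n` blow-ups over every point -/
def FinLN (Λ Γ : AddSubgroup ℂ) (B : Set ℂ) (n : ℕ) : Prop :=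
  ∀ (V : Type) [NormedAddCommGroup V] [NormedSpace ℂ V] [FiniteDimensional ℂ V] (X D : Set V) (u : V → ℂ) (α : ℂ → V → V → V → ℂ),
    DData X D Λ Γ u B α → (∀ x ∈ X, RUD X D Λ u x n) → FinL X D Λ u

theorem finLN_step (hΛ : Lat Λ) (hle : Γ ≤ Λ) (hBc : ∀ z : ℂ, (∀ b ∈ B, z - b ∉ Λ) → ∀ᶠ w in 𝓝 z, ∀ b ∈ B, w - b ∉ Λ) {n : ℕ} (ih : FinLN Λ Γ B n) : ∀ (k : ℕ) (V : Type) [NormedAddCommGroup V] [NormedSpace ℂ V]
    [FiniteDimensional ℂ V] (X D : Set V) (u : V → ℂ) (α : ℂ → V → V → V → ℂ), DData X D Λ Γ u B α → (∀ x ∈ X, RUD X D Λ u x (n + 1)) →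
    (∃ F : Finset V, F.card ≤ k ∧ ∀ x ∈ X, RUD X D Λ u x n ∨ ∃ q ∈ F, Pr x q) → FinL X D Λ u := by
  intro k
  induction k with
  | zero =>
    intro V _ _ _ X D u α h h0 hF
    obtain ⟨F, hF1, hF2⟩ := hF
    have hF0 : F = ∅ := Finset.card_eq_zero.1 (by omega)
    refine ih V X D u α h fun x hx => ?_
    rcases hF2 x hx with h1 | ⟨q, hq, -⟩
    · exact h1
    · rw [hF0] at hq
      simp at hq
  | succ k ihk =>
    intro V _ _ _ X D u α h h0 hF
    obtain ⟨F, hF1, hF2⟩ := hF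
    have hX := h.surf.smul
    by_cases hall : ∀ x ∈ X, RUD X D Λ u x n
    · exact ih V X D u α h hall
    push Not at hall
    obtain ⟨x₀, hx₀, hx₀n⟩ := hall
    rcases hF2 x₀ hx₀ with h1 | ⟨q, hqF, hxq⟩
    · exact absurd h1 hx₀n
    have hqX : q ∈ X := (hxq.mem_iff hX).1 hx₀
    have hqn : ¬ RUD X D Λ u q n := fun h1 => hx₀n (h1.pr h.surf h.tor h.curve hxq)
    have hq0 : ¬ RUD X D Λ u q 0 := fun h1 => hqn (h1.mono_le (Nat.zero_le n))
    have hqne : q ≠ 0 := fun e => h.surf.zero (e ▸ hqX)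
    have hB : ∃ b ∈ B, u q - b ∈ Λ := indL_over h hqX hq0
    obtain ⟨r, l, hl⟩ := exists_forms hqne
    classical
    refine finL_of_blow hΛ.discrete h.surf h.tor h.curve hl hqX ?_
    refine ihk (Fin r → V) (blow l X) (blow l D) (uB u) (aB α) (ddata_blow hΛ hle h hl hqX hB hBc) ?_
      ⟨(F.erase q).image (phi l), ?_, ?_⟩
    · intro y hy
      rcases rud_blow h.surf h.tor h.curve hl hqX (h0 q hqX) hq0 hy with ⟨-, h1⟩ | ⟨x, hx, -, -, -, h2⟩
      · exact h1.mono_le (Nat.le_succ n)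
      · exact h2 _ (h0 x hx)
    · have h1 := Finset.card_image_le (s := F.erase q) (f := phi l)
      have h2 := Finset.card_erase_of_mem hqF
      omega
    · intro y hy
      rcases rud_blow h.surf h.tor h.curve hl hqX (h0 q hqX) hq0 hy with ⟨-, h1⟩ | ⟨x, hx, hxq', hyx, -, h2⟩
      · exact Or.inl h1
      · rcases hF2 x hx with h3 | ⟨q', hq'F, hxq''⟩
        · exact Or.inl (h2 _ h3)
        · refine Or.inr ⟨phi l q', Finset.mem_image_of_mem _ (Finset.mem_erase.2 ⟨?_, hq'F⟩),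
            hyx.trans (indL_phi_pr hxq'')⟩
          rintro rfl
          exact hxq' hxq''

theorem finL_of_data [FiniteDimensional ℂ V] (hΛ : Lat Λ) (hΓ : Lat Γ) (hle : Γ ≤ Λ) (hbad : BadSet B Λ δ) (h0 : ∀ b ∈ B, 4 * δ ≤ ‖b‖)
    (h : DData X D Λ Γ u B α) : FinL X D Λ u := by
  classical
  have hN : ∀ n : ℕ, FinLN Λ Γ B n := by
    intro n
    induction n with
    | zero =>
      intro V _ _ _ X D u α h hr
      exact fin_zeroL hΛ hΓ hle hbad h0 h hr
    | succ n ih =>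
      intro V _ _ _ X D u α h hr
      obtain ⟨F, -, hF⟩ := indL_exists_finset h
      refine finLN_step hΛ hle (cls_of_bad hbad) ih F.card V X D u α h hr ⟨F, le_rfl, fun x hx => ?_⟩
      rcases hF x hx with h1 | h1
      · exact Or.inl (h1.mono_le (Nat.zero_le n))
      · exact Or.inr h1
  obtain ⟨F, hFX, hF⟩ := indL_exists_finset h
  have h1 : ∀ q : V, ∃ n, q ∈ F → RUD X D Λ u q n := by
    intro q
    by_cases hq : q ∈ F
    · obtain ⟨n, hn⟩ := exists_rud h.surf h.tor h.nonconst h.curve (hFX q hq)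
      exact ⟨n, fun _ => hn⟩
    · exact ⟨0, fun h2 => absurd h2 hq⟩
  choose n hn using h1
  refine hN (F.sup n) V X D u α h fun x hx => ?_
  rcases hF x hx with h2 | ⟨q, hq, hxq⟩
  · exact h2.mono_le (Nat.zero_le _)
  · exact ((hn q hq).mono_le (Finset.le_sup (f := n) hq)).pr h.surf h.tor h.curve hxq

end Pool.Agent.H17L

end

section

/-!
# H17L MainL: the limit sections are finite in number

`X = projVar P` a smooth projective surface, `u : X → ℂ / Λ` holomorphic, `D ⊆ X` a smooth curve, `u` constant on no open part of `X` or `D`; the non-constant entire curves in `X ∖ D` in fibres of `u` lie over finitely many points; logarithmic `2`-forms as in PNDefs.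
Then there are only finitely many entire sections of `u` which are limits of sections of `X ∖ D`.

Proof (model: `coreN_finite` in H17N/MainN.lean).  `B₁ = {b | (b : ℂ ⧸ Λ) ∈ B₀}`: invariant under `Λ`, and separated (`B₀` is finite and `Λ` discrete: `Pool.Agent.EG.separated`, or: `Pool.Agent.H17G` has lemmas on such sets).  One form `Ω` exists (`hform` is infinite), so `curve_start`; `exists_badL` gives `B`.  `FibB (cone P \ cnD D) Λ u₀ B`: let `f` be an entire curve (`HolP`) in a fibre, not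
constant; `z ↦ mk (f z)` is `HolomorphicInto`, in `projVar P \ D`, `u` is constant on it, so its value is in `B₀` (`hfib`), `u₀ (f 0) ∈ B₁ ⊆ B`, and `u₀ (f 0) - u₀ (f 0) = 0 ∈ Λ`.  As in `coreN_finite` choose `c₀ ∉ B` whose class has a form (`image_finite`), `exists_delta`, `ddata_start`, `finL_of_data`, `lsec_of_finL`, `lsec_shift`.
-/

set_option autoImplicit false

open Topology Filter MvPolynomial

namespace Pool.Agent.H17L

attribute [-instance] ProperSMul.toContinuousSMul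

open Pool.Agent.H17 (PN VanishesAt HolomorphicInto ZariskiClosedIn)
open Pool.Agent.H62.FC (Homog)
open Pool.Agent.H17BP (Surface IsChart Tan Pr HolP ResN)
open Pool.Agent.H36.BP (EN)
open Pool.Agent.H62.EF (Lat)
open Pool.Agent.H62.EL (BadSet)
open Pool.Agent.H17LG.Variety (FunField)
open Pool.Agent.H17EF (projVar IsHolomorphicMap coneE uE LE mk_mem_projVar sub_mem_iff uE_eq)
open Pool.Agent.H13.SM (cone conTan)
open Pool.Agent.H17G (IsTwoForm IsNowhereZero VanishesOver image_finite exists_delta)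
open Pool.Agent.H17N (TMap LU RU TF NonConst ThinF FibB NowhereConstant)
open Pool.Agent.H18.LU (LSec)

variable {N : ℕ} {P : Ideal (MvPolynomial (Fin (N + 1)) ℂ)} [P.IsPrime] {z : Fin 2 → FunField P}

/-- a set which is the inverse image of a finite subset of `ℂ / Λ` is separated -/
private theorem MainL_sep {Λ : AddSubgroup ℂ} (hΛ : Lat Λ) {B₀ : Set (ℂ ⧸ Λ)} (hB₀ : B₀.Finite) :
    ∃ δ : ℝ, 0 < δ ∧ ∀ b ∈ {b : ℂ | ((b : ℂ) : ℂ ⧸ Λ) ∈ B₀}, ∀ b' ∈ {b : ℂ | ((b : ℂ) : ℂ ⧸ Λ) ∈ B₀}, b ≠ b' → δ ≤ ‖b - b'‖ := by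
  obtain ⟨δ, hδ, hdisc⟩ := hΛ.discrete
  refine Pool.Agent.EG.separated hΛ (fun c hc l hl => ?_) fun c => ?_
  · have h1 : ((c + l : ℂ) : ℂ ⧸ Λ) = (c : ℂ ⧸ Λ) := by
      rw [← sub_mem_iff, add_sub_cancel_left]
      exact hl
    change ((c + l : ℂ) : ℂ ⧸ Λ) ∈ B₀
    rw [h1]
    exact hc
  · set T : Set ℂ := {b : ℂ | ((b : ℂ) : ℂ ⧸ Λ) ∈ B₀} ∩ Metric.ball c (δ / 2) with hT
    have hfin : T.Finite := by
      refine Set.Finite.of_finite_image (f := fun b : ℂ => ((b : ℂ) : ℂ ⧸ Λ)) (hB₀.subset ?_) ?_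
      · rintro _ ⟨b, hb, rfl⟩
        exact hb.1
      · intro b hb b' hb' h
        have h1 : b - b' ∈ Λ := sub_mem_iff.2 h
        have h2 : ‖b - b'‖ < δ := by
          have h3 := hb.2
          have h4 := hb'.2
          rw [Metric.mem_ball] at h3 h4
          rw [← dist_eq_norm]
          have h5 := dist_triangle_right b b' c
          linarith
        exact sub_eq_zero.1 (hdisc _ h1 h2)
    have hcl : IsClosed (T \ {c}) := (hfin.subset Set.sdiff_subset).isClosed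
    obtain ⟨ε, hε, h1⟩ := Metric.isOpen_iff.1 hcl.isOpen_compl c (fun h => h.2 rfl)
    refine ⟨min ε (δ / 2), lt_min hε (half_pos hδ), fun c' hc' hlt => ?_⟩
    by_contra hne
    refine h1 (show c' ∈ Metric.ball c ε from ?_) ⟨⟨hc', ?_⟩, hne⟩
    · rw [Metric.mem_ball, dist_eq_norm]
      exact hlt.trans_le (min_le_left _ _)
    · rw [Metric.mem_ball, dist_eq_norm]
      exact hlt.trans_le (min_le_right _ _)

/-- the value of `u` at a point of the cone -/
private theorem MainL_val {Λ : AddSubgroup ℂ} {u : PN N → ℂ ⧸ Λ} {x : Fin (N + 1) → ℂ} (hx : x ≠ 0) :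
    ((uE Λ u (LE N x) : ℂ) : ℂ ⧸ Λ) = u (Projectivization.mk ℂ x hx) := by
  have h1 : (LE N).symm (LE N x) ≠ 0 := by
    rw [ContinuousLinearEquiv.symm_apply_apply]
    exact hx
  rw [uE_eq Λ u h1]
  congr 2

omit [P.IsPrime] in
/-- the entire curves in the fibres -/
private theorem MainL_fib {Λ : AddSubgroup ℂ} {u : PN N → ℂ ⧸ Λ} {D : Set (PN N)} {B₀ : Set (ℂ ⧸ Λ)} (hP : Homog P)
    (hfib : ∀ f : ℂ → PN N, HolomorphicInto f Set.univ → (∀ z, f z ∈ projVar P \ D) → (∀ z w, u (f z) = u (f w)) → u (f 0) ∉ B₀ → ∀ z w, f z = f w)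
    {B : Set ℂ} (hB : {b : ℂ | ((b : ℂ) : ℂ ⧸ Λ) ∈ B₀} ⊆ B) : FibB (cone P \ cnD D) Λ (fun x => uE Λ u (LE N x)) B := by
  intro f hf hfX hfu hfn
  have hne : ∀ z, f z ≠ 0 := fun z => (hfX z).1.1
  set g : ℂ → PN N := fun z => Projectivization.mk ℂ (f z) (hne z) with hg
  have hgh : HolomorphicInto g Set.univ := by
    intro z₀ _
    obtain ⟨F, hF, hF0, he⟩ := hf z₀
    refine ⟨F, hF, ?_⟩
    filter_upwards [he, hF.continuousAt.eventually_ne hF0] with z h1 h2
    obtain ⟨c, hc, h3⟩ := h1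
    refine ⟨h2, ?_⟩
    change Projectivization.mk ℂ (f z) (hne z) = _
    rw [Projectivization.mk_eq_mk_iff']
    exact ⟨c, h3.symm⟩
  have hval : ∀ z, ((uE Λ u (LE N (f z)) : ℂ) : ℂ ⧸ Λ) = u (g z) := fun z => MainL_val (hne z)
  have hgu : ∀ z w, u (g z) = u (g w) := fun z w => by
    rw [← hval, ← hval]
    exact sub_mem_iff.1 (hfu z w)
  have h0 : u (g 0) ∈ B₀ := by
    by_contra hcon
    obtain ⟨z, w, hzw⟩ := hfn
    apply hzw
    have h1 := hfib g hgh (fun z => ⟨(mk_mem_projVar hP (hne z)).2 (hfX z).1, fun h => (hfX z).2 ⟨hne z, h⟩⟩) hgu hcon z w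
    have h2 : Projectivization.mk ℂ (f z) (hne z) = Projectivization.mk ℂ (f w) (hne w) := h1
    rw [Projectivization.mk_eq_mk_iff'] at h2
    obtain ⟨c, hc⟩ := h2
    refine ⟨c, ?_, hc.symm⟩
    rintro rfl
    rw [zero_smul] at hc
    exact hne z hc.symm
  refine ⟨uE Λ u (LE N (f 0)), hB ?_, ?_⟩
  · change ((uE Λ u (LE N (f 0)) : ℂ) : ℂ ⧸ Λ) ∈ B₀
    rw [hval]
    exact h0
  · change uE Λ u (LE N (f 0)) - uE Λ u (LE N (f 0)) ∈ Λ
    rw [sub_self]
    exact Λ.zero_mem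

/-- **The finiteness of the limit sections.** -/
theorem lsec_finite {Λ Γ : AddSubgroup ℂ} {u : PN N → ℂ ⧸ Λ} {D : Set (PN N)} {B₀ : Set (ℂ ⧸ Λ)} (hP : Homog P) (hz : IsTranscendenceBasis ℂ z)
    (hsm : ∀ y : Fin (N + 1) → ℂ, y ≠ 0 → (∀ Q ∈ P, eval y Q = 0) → Module.finrank ℂ (conTan P y) ≤ 3)
    (hΛ : Lat Λ) (hΓ : Lat Γ) (hle : Γ ≤ Λ) (hu : IsHolomorphicMap (projVar P) Λ u) (hnon : NowhereConstant (projVar P) u)
    (hD : ZariskiClosedIn (projVar P) D) (hDn : NowhereConstant D u) (hB₀ : B₀.Finite)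
    (hfib : ∀ f : ℂ → PN N, HolomorphicInto f Set.univ → (∀ z, f z ∈ projVar P \ D) → (∀ z w, u (f z) = u (f w)) → u (f 0) ∉ B₀ → ∀ z w, f z = f w)
    (hform : HasLogForms (projVar P) D Λ Γ u) :
    (LSec (coneE P) {x : EN N | ∃ h : (LE N).symm x ≠ 0, Projectivization.mk ℂ ((LE N).symm x) h ∈ D} Λ (uE Λ u)).Finite := by
  have hS : Surface (cone P) := Pool.Agent.H13.SM.surface_cone hP hz fun y hy => hsm y hy.1 hy.2
  -- the bad values
  obtain ⟨c', Ω', -, hlog', -, -⟩ := hform.nonempty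
  have hcurve := curve_start hP hS hΛ hu hD hDn hlog'
  obtain ⟨δ₁, hδ₁, hsep₁⟩ := MainL_sep hΛ hB₀
  obtain ⟨B, hBB, hinv, ⟨δ₀, hδ₀, hsep⟩, hcrit, hgood⟩ := exists_badL hΛ hS (tmap_start hP hu) (nonconst_start hP hS hΛ hu hnon) hcurve
    (B₀ := {b : ℂ | ((b : ℂ) : ℂ ⧸ Λ) ∈ B₀}) (fun b hb l hl => by
      have h1 : ((b + l : ℂ) : ℂ ⧸ Λ) = (b : ℂ ⧸ Λ) := by
        rw [← sub_mem_iff, add_sub_cancel_left]
        exact hl
      change ((b + l : ℂ) : ℂ ⧸ Λ) ∈ B₀
      rw [h1]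
      exact hb) hδ₁ hsep₁
  have hfibB := MainL_fib (u := u) (D := D) hP hfib hBB
  -- a fibre which is not bad
  obtain ⟨c, hcform, hcB⟩ : ∃ c : ℂ ⧸ Γ, (∃ Ω, IsTwoForm (projVar P \ D) Λ Γ u Ω ∧ IsLogAlong (projVar P) D Λ u Ω ∧
      IsNowhereZero (projVar P \ D) Λ u Ω ∧ ∀ z : ℂ, (z : ℂ ⧸ Γ) = c → VanishesOver (projVar P \ D) Λ u Ω z) ∧
      c ∉ (fun b : ℂ => (b : ℂ ⧸ Γ)) '' B := by
    have h1 := image_finite hΓ (fun b hb l hl => hinv b hb l (hle hl)) hδ₀ hsep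
    obtain ⟨c, hc, hcB⟩ := hform.exists_notMem_finite h1
    exact ⟨c, hc, hcB⟩
  obtain ⟨Ω, hΩ, hlog, hnz, hvan⟩ := hcform
  obtain ⟨c₀, rfl⟩ := QuotientAddGroup.mk_surjective c
  have hc₀ : c₀ ∉ B := fun h => hcB ⟨c₀, h, rfl⟩
  -- translation
  obtain ⟨δ, hbad, hδ⟩ := exists_delta (Λ := Λ) (B := {b | b + c₀ ∈ B}) hδ₀
    (fun b hb l hl => by
      show b + l + c₀ ∈ B
      rw [add_right_comm]
      exact hinv _ hb l hl)
    (fun b hb b' hb' hne => by
      have := hsep _ hb _ hb' fun h => hne (add_right_cancel h)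
      rwa [add_sub_add_right_eq_sub] at this)
    (by
      show ¬ (0 + c₀ ∈ B)
      rwa [zero_add])
  have hdd := ddata_start hP hS hΛ hu hnon hD hDn hΩ hlog hnz (hvan c₀ rfl) hinv hcrit hgood hfibB
  have hF := finL_of_data hΛ hΓ hle hbad hδ hdd
  exact lsec_shift c₀ (lsec_of_finL hS (w := fun x => uE Λ u x - c₀) hF)

end Pool.Agent.H17L

end
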