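import Pool.Agent.H94.CB.H62.EF.LimL
import Pool.Agent.H94.CB.M240
import Pool.Agent.H94.CB.M47

/-! The parts of this file: H17V.LogD, H17V.Defs, H17V.VFun, H17V.VBd, H86.LR.Inv, H86.LR.Seq. -/

section

/-!
# H17V LogD: the derivative of a function without zeros

* `log_deriv_bd`: `t` holomorphic on the disc of radius `r` around `0`, `0 < ‖t ζ‖ < 1`.  There is a holomorphic logarithm `l` of `t` on the disc (simply connected; e.g. primitive of `t' / t`), `Re l < 0`.  For a holomorphic map `l` of the disc to the left half plane `‖l' (0)‖ ≤ 2 |Re l (0)| / r` (Borel–Caratheodory, or Schwarz's lemma for `(l - l 0) / (l + conj (l 0))`).  So `‖t' (0)‖ ≤ (2 / r) ‖t 0‖ log (1 / ‖t 0‖)`.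
-/

set_option autoImplicit false

open Topology Filter

namespace Pool.Agent.H17V

attribute [-instance] ProperSMul.toContinuousSMul

theorem log_deriv_bd {r : ℝ} (hr : 0 < r) {t : ℂ → ℂ} (ht : DifferentiableOn ℂ t (Metric.ball 0 r)) (h0 : ∀ ζ ∈ Metric.ball (0 : ℂ) r, t ζ ≠ 0)
    (h1 : ∀ ζ ∈ Metric.ball (0 : ℂ) r, ‖t ζ‖ < 1) : ‖deriv t 0‖ ≤ 2 / r * (‖t 0‖ * Real.log (1 / ‖t 0‖)) := by
  have hb0 : (0 : ℂ) ∈ Metric.ball (0 : ℂ) r := Metric.mem_ball_self hr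
  have ho : IsOpen (Metric.ball (0 : ℂ) r) := Metric.isOpen_ball
  have hta : ∀ z ∈ Metric.ball (0 : ℂ) r, DifferentiableAt ℂ t z := fun z hz =>
    ht.differentiableAt (ho.mem_nhds hz)
  have hdt : DifferentiableOn ℂ (deriv t) (Metric.ball 0 r) := ht.deriv ho
  have hq : DifferentiableOn ℂ (fun z => deriv t z / t z) (Metric.ball 0 r) := hdt.div ht h0
  obtain ⟨l, hl0, hl⟩ := hq.isExactOn_ball.with_val_at 0 (Complex.log (t 0))
  -- `exp l = t`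
  have hexp : ∀ z ∈ Metric.ball (0 : ℂ) r, Complex.exp (l z) = t z := by
    intro z hz
    have hd : ∀ y ∈ Metric.ball (0 : ℂ) r, HasDerivAt (fun y => Complex.exp (-l y) * t y) 0 y := by
      intro y hy
      have e1 : HasDerivAt (fun y => Complex.exp (-l y) * t y)
          (Complex.exp (-l y) * -(deriv t y / t y) * t y + Complex.exp (-l y) * deriv t y) y :=
        ((hl y hy).neg.cexp).mul (hta y hy).hasDerivAt
      have e2 : Complex.exp (-l y) * -(deriv t y / t y) * t y + Complex.exp (-l y) * deriv t y = 0 := by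
        have := h0 y hy
        field_simp
        ring
      rw [e2] at e1
      exact e1
    have hc : Complex.exp (-l z) * t z = Complex.exp (-l 0) * t 0 := ho.is_const_of_deriv_eq_zero
      (f := fun y => Complex.exp (-l y) * t y) (convex_ball _ _).isPreconnected
      (fun y hy => (hd y hy).differentiableAt.differentiableWithinAt)
      (fun y hy => (hd y hy).deriv) hz hb0
    rw [hl0, Complex.exp_neg, Complex.exp_neg, Complex.exp_log (h0 0 hb0), inv_mul_cancel₀ (h0 0 hb0)] at hc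
    have := Complex.exp_ne_zero (l z)
    field_simp at hc
    exact hc.symm
  have hn : ∀ z ∈ Metric.ball (0 : ℂ) r, Real.exp (l z).re = ‖t z‖ := by
    intro z hz
    rw [← hexp z hz, Complex.norm_exp]
  have hre : ∀ z ∈ Metric.ball (0 : ℂ) r, (l z).re < 0 := by
    intro z hz
    have := h1 z hz
    rw [← hn z hz, Real.exp_lt_one_iff] at this
    exact this
  have hre0 : (l 0).re = Real.log ‖t 0‖ := by
    rw [← hn 0 hb0, Real.log_exp]
  -- Schwarz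
  have hden : ∀ z ∈ Metric.ball (0 : ℂ) r, l z + (starRingEnd ℂ) (l 0) ≠ 0 := by
    intro z hz h
    have e1 := congrArg Complex.re h
    rw [Complex.add_re, Complex.conj_re, Complex.zero_re] at e1
    have := hre z hz
    have := hre 0 hb0
    linarith
  obtain ⟨h, hh⟩ : ∃ h : ℂ → ℂ, h = fun z => (l z - l 0) / (l z + (starRingEnd ℂ) (l 0)) := ⟨_, rfl⟩
  have hh0 : h 0 = 0 := by rw [hh]; simp
  have hder : ∀ z ∈ Metric.ball (0 : ℂ) r, HasDerivAt h ((deriv t z / t z * (l z + (starRingEnd ℂ) (l 0)) -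
      (l z - l 0) * (deriv t z / t z)) / (l z + (starRingEnd ℂ) (l 0)) ^ 2) z := by
    intro z hz
    rw [hh]
    exact ((hl z hz).sub_const _).div ((hl z hz).add_const _) (hden z hz)
  have hmaps : Set.MapsTo h (Metric.ball 0 r) (Metric.closedBall (h 0) 1) := by
    intro z hz
    rw [hh0, mem_closedBall_zero_iff, hh]
    simp only
    rw [norm_div]
    refine div_le_one_of_le₀ ?_ (norm_nonneg _)
    refine le_of_sq_le_sq ?_ (norm_nonneg _)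
    rw [← Complex.normSq_eq_norm_sq, ← Complex.normSq_eq_norm_sq, Complex.normSq_apply, Complex.normSq_apply]
    simp only [Complex.sub_re, Complex.sub_im, Complex.add_re, Complex.add_im, Complex.conj_re, Complex.conj_im]
    have e1 := hre z hz
    have e2 := hre 0 hb0
    nlinarith [mul_pos_of_neg_of_neg e1 e2]
  have hS := Complex.norm_deriv_le_div_of_mapsTo_ball
    (fun z hz => (hder z hz).differentiableAt.differentiableWithinAt) hmaps hr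
  rw [(hder 0 hb0).deriv, sub_self, zero_mul, sub_zero, sq, mul_div_mul_right _ _ (hden 0 hb0),
    Complex.add_conj, norm_div, norm_div] at hS
  have e3 : ‖((2 * (l 0).re : ℝ) : ℂ)‖ = 2 * Real.log (1 / ‖t 0‖) := by
    rw [Complex.norm_real, Real.norm_eq_abs, abs_of_nonpos (by have := hre 0 hb0; linarith), hre0,
      one_div, Real.log_inv]
    ring
  have ht0 : 0 < ‖t 0‖ := norm_pos_iff.2 (h0 0 hb0)
  have hlog : 0 < Real.log (1 / ‖t 0‖) := by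
    rw [one_div, Real.log_inv, ← hre0]
    have := hre 0 hb0
    linarith
  rw [e3, div_div, div_le_div_iff₀ (by positivity) hr] at hS
  have e4 : 2 / r * (‖t 0‖ * Real.log (1 / ‖t 0‖)) = (1 * (‖t 0‖ * (2 * Real.log (1 / ‖t 0‖)))) / r := by ring
  rw [e4, le_div_iff₀ hr]
  exact hS

end Pool.Agent.H17V

end

section

/-!
# H17V Defs: entire curves in the fibres of an open surface of log general type over an elliptic curve

`X` is the cone (without `0`) over a smooth projective surface, `K ⊆ X` the cone over the complement of a curve, `u` a holomorphic map to `ℂ / Λ` (H17N Defs), `Ω` a section of `m (K_X + D) - H` over `K`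
with poles of order at most `m - 1` along `X ∖ K` and without zeros outside `{q = 0}`.
-/

set_option autoImplicit false

open Topology Filter

namespace Pool.Agent.H17V

attribute [-instance] ProperSMul.toContinuousSMul

open Pool.Agent.H17BP (Surface IsChart IsForm NoZeros Pr HolP)
open Pool.Agent.H17N (TMap)
open Pool.Agent.H36.BPL (OpenPart PoleLE)

variable {V : Type} [NormedAddCommGroup V] [NormedSpace ℂ V]

/-- the data -/
structure VData (X K : Set V) (Λ : AddSubgroup ℂ) (u : V → ℂ) (m : ℕ) (Ω : V → V → V → ℂ) (q : V → ℂ) (d : ℕ) : Prop where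
  surf : Surface X
  opn : OpenPart X K
  tor : TMap X Λ u
  one : 1 ≤ m
  form : IsForm K m 1 Ω
  pole : PoleLE X K (m - 1) Ω
  noZeros : NoZeros K {x | x ∈ X ∧ q x = 0} Ω
  an : ∀ x, AnalyticAt ℂ q x
  hom : ∀ (c : ℂ) (x : V), q (c • x) = c ^ d * q x
  thin : ∀ σ τ, IsChart X σ τ → ¬ ∀ᶠ p in 𝓝 (0 : ℂ × ℂ), q (σ p) = 0
  sub : ∀ x ∈ X, x ∉ K → q x = 0

/-- a chart `σ (s, t)` with `u = c + s`; the boundary `X ∖ K` is `{t = 0}` if it meets the chart -/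
structure SC (X K : Set V) (Λ : AddSubgroup ℂ) (u : V → ℂ) (c : ℂ) (σ : ℂ × ℂ → V) (τ : V → ℂ × ℂ) : Prop where
  chart : IsChart X σ τ
  lift : ∀ᶠ p in 𝓝 (0 : ℂ × ℂ), u (σ p) - (c + p.1) ∈ Λ
  bd : (∀ᶠ p in 𝓝 (0 : ℂ × ℂ), σ p ∈ K) ∨ ∀ᶠ p in 𝓝 (0 : ℂ × ℂ), σ p ∉ K ↔ p.2 = 0

/-- `c` is a good value: the fibre is smooth, transversal to the boundary, and not contained in `{q = 0}` near any of its points -/
def GoodC (X K : Set V) (Λ : AddSubgroup ℂ) (u : V → ℂ) (q : V → ℂ) (c : ℂ) : Prop :=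
  ∀ x ∈ X, u x - c ∈ Λ → ∃ σ τ, SC X K Λ u c σ τ ∧ σ 0 = x ∧ ¬ ∀ᶠ t in 𝓝 (0 : ℂ), q (σ (0, t)) = 0

/-- the second coordinate of the curve `H` -/
noncomputable def tco (τ : V → ℂ × ℂ) (H : ℂ → V) (z : ℂ) : ℂ := (τ (H z)).2

/-- the form on the derivative of a curve `H` in a fibre, multiplied by `H`, in a chart -/
noncomputable def loc (m : ℕ) (Ω : V → V → V → ℂ) (σ : ℂ × ℂ → V) (τ : V → ℂ × ℂ) (H : ℂ → V) (z : ℂ) : V :=
  ((deriv (tco τ H) z) ^ m * Ω (σ (0, tco τ H z)) (fderiv ℂ σ (0, tco τ H z) (1, 0)) (fderiv ℂ σ (0, tco τ H z) (0, 1))) • σ (0, tco τ H z)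

/-- `Φ` is the form on the derivative of the curve `H`, multiplied by `H` -/
def IsV (X K : Set V) (Λ : AddSubgroup ℂ) (u : V → ℂ) (m : ℕ) (Ω : V → V → V → ℂ) (c : ℂ) (H Φ : ℂ → V) : Prop :=
  ∀ σ τ, SC X K Λ u c σ τ → ∃ O ∈ 𝓝 (σ 0), ∀ z a : ℂ, a ≠ 0 → a • H z ∈ O → Φ z = loc m Ω σ τ (fun ζ => a • H ζ) z

end Pool.Agent.H17V

end

section

/-!
# H17V VFun: the form on the derivative of a curve in a fibre is holomorphic

`H` is a curve in `K` over `c`; for a straight chart `σ, τ` (`SC`) and `a • H z` near `σ 0`: `a • H ζ = A ζ • σ (0, t ζ)` near `z`, `t = tco τ (a • H)` analytic, and `loc` is `t' (z) ^ m Ω (σ (0, t); ∂_s σ, ∂_t σ) • σ (0, t)`.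

* one chart: for `y ∈ X` near `σ 0` with `u y - c ∈ Λ`: `τ y = (s, t)` with `s ∈ Λ` small (`lift`, `tor.smul`, `right`), so `s = 0`.  The set `O` is chosen such that for `y ∈ O ∩ X`: `y = a' • σ (τ y)`, `τ y` in a small bidisc in which `σ`, `lift`, `bd` are valid at all points and `σ (p + ·)` is a chart (`IsChart.near`).  Then `ζ ↦ loc m Ω σ τ (a • H) ζ` is analytic at `z` if `a • H z ∈ O` (`form.analytic` for
  `φ = σ` at the point `(0, t z)`, `σ (0, t z) ∈ K`).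
* two charts `σ, τ` and `σ', τ'`, `a • H z ∈ O`, `a' • H z ∈ O'`: the values of `loc` agree.  Let `p = τ (a • H z) = (0, t)`, `p' = τ' (a' • H z) = (0, t')`.  `σ' p'` is a multiple of `σ p`; `IsChart.trans` (H17BP/ChLem.lean) for the charts `σ (p + ·)`, `σ' (p' + ·)`: `σ' (p' + y)` is a multiple of `σ (p + θ y)`, `θ` biholomorphic, and `(θ y).1 = y.1` near `0` (both are `u - c` modulo `Λ`, continuous, `0` at `0`).
  So for `ζ` near `z`: `tco τ (a • H) ζ = t + (θ (0, tco τ' (a' • H) ζ - t')).2` and the derivative is `κ * deriv (tco τ' (a' • H)) z`, `κ = ∂_t θ₂ (0)`, the determinant of `Dθ (0)` is `κ` (`θ₁ = s`).  The form: `Ω (σ' p'; ∂_s σ', ∂_t σ') • σ' p' = κ ^ m Ω (σ p; ∂_s σ, ∂_t σ) • σ p`: `σ' (p' + y) = b (y) • σ (p + θ y)`, `b` analytic (`b y = ξ (σ' (p' + y)) / ξ (σ (p + θ y))`, `ξ` a linear form with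
  `ξ (σ p) ≠ 0`), `scale`, `add_smul`, `det` of `IsForm K m 1 Ω` (pattern: `cf_trans` in H17L/CfT.lean, the private `form_mul`, `form_well` in EG/HyAn.lean).
* `exists_vfun`: for every `z` choose by `GoodC` a chart `σ_z, τ_z` with `σ_z 0 = H z` and put `Φ z = loc m Ω σ_z τ_z H z` (`a = 1`).  By the two charts lemma `Φ z = loc m Ω σ τ (a • H) z` whenever `a • H z ∈ O`; in particular `Φ ζ = loc m Ω σ_z τ_z H ζ` for `ζ` near `z`, so `Φ` is analytic.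
-/

set_option autoImplicit false

open Topology Filter

namespace Pool.Agent.H17V

attribute [-instance] ProperSMul.toContinuousSMul

open Pool.Agent.H17BP (Surface IsChart IsForm NoZeros Pr HolP)
open Pool.Agent.H17N (TMap)
open Pool.Agent.H36.BPL (OpenPart PoleLE)
open Pool.Agent.H62.EF (Lat)

variable {V : Type} [NormedAddCommGroup V] [NormedSpace ℂ V] [FiniteDimensional ℂ V] {X K : Set V} {Λ : AddSubgroup ℂ} {u : V → ℂ} {m d : ℕ}
  {Ω : V → V → V → ℂ} {q : V → ℂ} {c : ℂ}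

omit [FiniteDimensional ℂ V] in
/-- `w` is a velocity of `K` at `x` on which `du` is `1` -/
private def VFun_U (K : Set V) (Λ : AddSubgroup ℂ) (u : V → ℂ) (x w : V) : Prop :=
  ∃ γ : ℂ → V, AnalyticAt ℂ γ 0 ∧ (∀ᶠ ζ in 𝓝 (0 : ℂ), γ ζ ∈ K) ∧ γ 0 = x ∧ deriv γ 0 = w ∧ ∀ᶠ ζ in 𝓝 (0 : ℂ), u (γ ζ) - u x - ζ ∈ Λ

omit [FiniteDimensional ℂ V] in
private theorem VFun_dual {x : V} (hx : x ≠ 0) : ∃ ξ : V →L[ℂ] ℂ, ξ x ≠ 0 := by
  obtain ⟨ξ, hξ⟩ := exists_dual_vector ℂ x (norm_ne_zero_iff.mpr hx)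
  refine ⟨ξ, ?_⟩
  rw [hξ.2]
  simpa using hx

private theorem VFun_rep {σ : ℂ × ℂ → V} {τ : V → ℂ × ℂ} (hc : IsChart X σ τ) :
    ∀ᶠ y in 𝓝 (σ 0), ∀ (G : ℂ → V) (z₀ : ℂ), AnalyticAt ℂ G z₀ → G z₀ = y → (∀ᶠ ζ in 𝓝 z₀, G ζ ∈ X) →
      AnalyticAt ℂ (fun ζ => τ (G ζ)) z₀ ∧ ∃ B : ℂ → ℂ, AnalyticAt ℂ B z₀ ∧ ∀ᶠ ζ in 𝓝 z₀, B ζ ≠ 0 ∧ G ζ = B ζ • σ (τ (G ζ)) := by
  have : CompleteSpace V := FiniteDimensional.complete ℂ V
  have hτ : Tendsto τ (𝓝 (σ 0)) (𝓝 0) := by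
    have h1 := hc.τ_an.continuousAt.tendsto
    rwa [hc.left.self_of_nhds] at h1
  filter_upwards [hc.τ_an.eventually_analyticAt, eventually_eventually_nhds.2 hc.right, hτ.eventually hc.σ_an.eventually_analyticAt,
    hτ.eventually (hc.σ_an.continuousAt.eventually_ne hc.ne)] with y h1 h2 h3 h4 G z₀ hG hy hGX
  subst hy
  have hτG : AnalyticAt ℂ (fun ζ => τ (G ζ)) z₀ := AnalyticAt.fun_comp h1 hG
  have hσG : AnalyticAt ℂ (fun ζ => σ (τ (G ζ))) z₀ := AnalyticAt.fun_comp (g := σ) (f := fun ζ => τ (G ζ)) h3 hτG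
  obtain ⟨ξ, hξ⟩ := VFun_dual h4
  have hnum : AnalyticAt ℂ (fun ζ => ξ (G ζ)) z₀ := AnalyticAt.fun_comp (ξ.analyticAt (G z₀)) hG
  have hden : AnalyticAt ℂ (fun ζ => ξ (σ (τ (G ζ)))) z₀ := AnalyticAt.fun_comp (g := ξ) (f := fun ζ => σ (τ (G ζ))) (ξ.analyticAt _) hσG
  refine ⟨hτG, fun ζ => ξ (G ζ) / ξ (σ (τ (G ζ))), hnum.fun_div hden hξ, ?_⟩
  filter_upwards [hG.continuousAt.tendsto.eventually h2, hGX, hden.continuousAt.eventually_ne hξ] with ζ g1 g2 g3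
  obtain ⟨b, hb, g4⟩ := g1 g2
  have g5 : ξ (G ζ) = b * ξ (σ (τ (G ζ))) := by
    conv_lhs => rw [g4]
    rw [map_smul, smul_eq_mul]
  have g6 : ξ (G ζ) / ξ (σ (τ (G ζ))) = b := by
    rw [g5, mul_div_assoc, div_self g3, mul_one]
  rw [g6]
  exact ⟨hb, g4⟩

omit [FiniteDimensional ℂ V] in
private theorem VFun_lin (l : ℂ × ℂ →L[ℂ] V) (e : ℂ × ℂ) : l e = e.1 • l (1, 0) + e.2 • l (0, 1) := by
  have h1 : e = e.1 • ((1 : ℂ), (0 : ℂ)) + e.2 • ((0 : ℂ), (1 : ℂ)) := by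
    ext <;> simp
  conv_lhs => rw [h1]
  rw [map_add, map_smul, map_smul]

omit [FiniteDimensional ℂ V] in
private theorem VFun_deriv {γ : ℂ → V} {B : ℂ → ℂ} {σ : ℂ × ℂ → V} {P : ℂ → ℂ × ℂ} {z₀ : ℂ} (hB : AnalyticAt ℂ B z₀) (hP : AnalyticAt ℂ P z₀)
    (hσ : AnalyticAt ℂ σ (P z₀)) (h : ∀ᶠ ζ in 𝓝 z₀, γ ζ = B ζ • σ (P ζ)) :
    deriv γ z₀ = B z₀ • ((deriv P z₀).1 • fderiv ℂ σ (P z₀) (1, 0) + (deriv P z₀).2 • fderiv ℂ σ (P z₀) (0, 1)) + deriv B z₀ • σ (P z₀) := by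
  have h7 : HasDerivAt (fun ζ => σ (P ζ)) (fderiv ℂ σ (P z₀) (deriv P z₀)) z₀ :=
    hσ.differentiableAt.hasFDerivAt.comp_hasDerivAt z₀ hP.differentiableAt.hasDerivAt
  have h5 : γ =ᶠ[𝓝 z₀] fun ζ => B ζ • σ (P ζ) := h
  rw [h5.deriv_eq, (hB.differentiableAt.hasDerivAt.fun_smul h7).deriv, VFun_lin]

omit [FiniteDimensional ℂ V] in
private theorem VFun_tan {σ : ℂ × ℂ → V} {P : ℂ × ℂ} (hσ : AnalyticAt ℂ σ P) (hK : ∀ᶠ q in 𝓝 P, σ q ∈ K)
    (hsm : ∀ x ∈ K, ∀ c : ℂ, c ≠ 0 → c • x ∈ K) {A : ℂ} (hA : A ≠ 0) (e : ℂ × ℂ) :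
    A • fderiv ℂ σ P e ∈ Pool.Agent.H17BP.Tan K (A • σ P) := by
  have hl : HasDerivAt (fun z : ℂ => P + z • e) e 0 := by
    have h2 := ((hasDerivAt_id (0 : ℂ)).smul_const e).const_add P
    simpa using h2
  have hla : AnalyticAt ℂ (fun z : ℂ => P + z • e) 0 := analyticAt_const.add (analyticAt_id.smul analyticAt_const)
  have h0 : P + (0 : ℂ) • e = P := by rw [zero_smul, add_zero]
  have h3 : Tendsto (fun z : ℂ => P + z • e) (𝓝 (0 : ℂ)) (𝓝 P) := by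
    have h4 := hla.continuousAt.tendsto
    rwa [h0] at h4
  have hσ' : AnalyticAt ℂ σ (P + (0 : ℂ) • e) := by
    rw [h0]
    exact hσ
  refine ⟨fun z => A • σ (P + z • e), ?_, ?_, by simp, ?_⟩
  · exact (AnalyticAt.fun_comp (g := σ) (f := fun z : ℂ => P + z • e) hσ' hla).const_smul (c := A)
  · filter_upwards [h3.eventually hK] with z hz
    exact hsm _ hz A hA
  · have h5 := (hσ'.differentiableAt.hasFDerivAt.comp_hasDerivAt (0 : ℂ) hl).const_smul A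
    rw [h0] at h5
    exact h5.deriv

omit [FiniteDimensional ℂ V] in
private theorem VFun_form (hΩ : IsForm K m 1 Ω) {σ : ℂ × ℂ → V} {P : ℂ × ℂ} (hσ : AnalyticAt ℂ σ P) (hK : ∀ᶠ q in 𝓝 P, σ q ∈ K)
    (hsm : ∀ x ∈ K, ∀ c : ℂ, c ≠ 0 → c • x ∈ K) {A : ℂ} (hA : A ≠ 0) (κ b b' t' : ℂ) :
    Ω (A • σ P) (A • ((1 : ℂ) • fderiv ℂ σ P (1, 0) + κ • fderiv ℂ σ P (0, 1)) + b • σ P)
      (A • ((0 : ℂ) • fderiv ℂ σ P (1, 0) + t' • fderiv ℂ σ P (0, 1)) + b' • σ P) • (A • σ P) =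
      (t' ^ m * Ω (σ P) (fderiv ℂ σ P (1, 0)) (fderiv ℂ σ P (0, 1))) • σ P := by
  have hx : A • σ P ∈ K := hsm _ hK.self_of_nhds A hA
  have e1 := VFun_tan hσ hK hsm hA (1, 0)
  have e2 := VFun_tan hσ hK hsm hA (0, 1)
  have e3 : ∀ s t : ℂ, A • (s • fderiv ℂ σ P (1, 0) + t • fderiv ℂ σ P (0, 1)) = s • (A • fderiv ℂ σ P (1, 0)) + t • (A • fderiv ℂ σ P (0, 1)) := by
    intro s t
    rw [smul_add, smul_comm A s, smul_comm A t]
  have e4 : ∀ s t : ℂ, A • (s • fderiv ℂ σ P (1, 0) + t • fderiv ℂ σ P (0, 1)) ∈ Pool.Agent.H17BP.Tan K (A • σ P) := by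
    intro s t
    have := VFun_tan hσ hK hsm hA (s, t)
    rwa [VFun_lin] at this
  have e5 : ∀ s : ℂ, s • σ P = (s * A⁻¹) • (A • σ P) := by
    intro s
    rw [smul_smul, mul_assoc, inv_mul_cancel₀ hA, mul_one]
  rw [e5 b, e5 b', hΩ.add_smul _ hx _ (e4 1 κ) _ (e4 0 t'), e3, e3, hΩ.det _ hx _ e1 _ e2]
  have t1 : fderiv ℂ σ P (1, 0) ∈ Pool.Agent.H17BP.Tan K (σ P) := by
    have := VFun_tan hσ hK hsm one_ne_zero (1, 0)
    rwa [one_smul, one_smul] at this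
  have t2 : fderiv ℂ σ P (0, 1) ∈ Pool.Agent.H17BP.Tan K (σ P) := by
    have := VFun_tan hσ hK hsm one_ne_zero (0, 1)
    rwa [one_smul, one_smul] at this
  have h1 := hΩ.scale _ hK.self_of_nhds _ t1 _ t2 A hA
  rw [pow_one] at h1
  rw [← h1, smul_smul]
  congr 1
  ring

private theorem VFun_lat (hΛ : Lat Λ) {f : ℂ → ℂ} {z₀ : ℂ} (hf : ContinuousAt f z₀) (h0 : f z₀ = 0) (h : ∀ᶠ ζ in 𝓝 z₀, f ζ ∈ Λ) :
    ∀ᶠ ζ in 𝓝 z₀, f ζ = 0 := by
  obtain ⟨δ, hδ, hd⟩ := hΛ.discrete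
  have h1 : Tendsto f (𝓝 z₀) (𝓝 0) := by
    have := hf.tendsto
    rwa [h0] at this
  filter_upwards [h, h1.eventually (Metric.ball_mem_nhds (0 : ℂ) hδ)] with ζ g1 g2
  exact hd _ g1 (by simpa using g2)

private theorem VFun_core (hΛ : Lat Λ) (h : VData X K Λ u m Ω q d) {σ : ℂ × ℂ → V} {τ : V → ℂ × ℂ} (hs : SC X K Λ u c σ τ) {H : ℂ → V}
    (hH : Differentiable ℂ H) (hHK : ∀ z, H z ∈ K ∧ u (H z) - c ∈ Λ) :
    ∃ O ∈ 𝓝 (σ 0), ∀ z a : ℂ, a ≠ 0 → a • H z ∈ O →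
      (∃ w, VFun_U K Λ u (H z) w) ∧ (∀ w, VFun_U K Λ u (H z) w → Ω (H z) w (deriv H z) • H z = loc m Ω σ τ (fun ζ => a • H ζ) z) ∧
      AnalyticAt ℂ (loc m Ω σ τ (fun ζ => a • H ζ)) z := by
  have : CompleteSpace V := FiniteDimensional.complete ℂ V
  have hc := hs.chart
  have hτ : Tendsto τ (𝓝 (σ 0)) (𝓝 0) := by
    have h1 := hc.τ_an.continuousAt.tendsto
    rwa [hc.left.self_of_nhds] at h1
  obtain ⟨δ, hδ, hd⟩ := hΛ.discrete
  have hG : ∀ᶠ p in 𝓝 (0 : ℂ × ℂ), AnalyticAt ℂ σ p ∧ (∀ᶠ q in 𝓝 p, σ q ∈ X) ∧ (∀ᶠ q in 𝓝 p, u (σ q) - (c + q.1) ∈ Λ) ∧ ‖p.1‖ < δ ∧ σ p ≠ 0 := by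
    have h1 : ∀ᶠ p in 𝓝 (0 : ℂ × ℂ), ‖p.1‖ < δ := by
      have h2 : Tendsto (fun p : ℂ × ℂ => p.1) (𝓝 0) (𝓝 0) := continuous_fst.tendsto (0 : ℂ × ℂ)
      filter_upwards [h2.eventually (Metric.ball_mem_nhds (0 : ℂ) hδ)] with p hp
      simpa using hp
    filter_upwards [hc.σ_an.eventually_analyticAt, eventually_eventually_nhds.2 hc.σ_mem, eventually_eventually_nhds.2 hs.lift, h1,
      hc.σ_an.continuousAt.eventually_ne hc.ne] with p a1 a2 a3 a4 a5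
    exact ⟨a1, a2, a3, a4, a5⟩
  refine ⟨_, (VFun_rep hc).and (hτ.eventually hG), ?_⟩
  rintro z a ha ⟨hrep, hσ, hσX, hlift, hn, hne⟩
  have hsmX := h.surf.smul
  have hsmK := h.opn.smul
  have hsm : ∀ x ∈ X, ∀ c : ℂ, c ≠ 0 → u (c • x) - u x ∈ Λ := h.tor.smul
  obtain ⟨G, hGdef⟩ : ∃ G : ℂ → V, G = fun ζ => a • H ζ := ⟨_, rfl⟩
  have hGz : a • H z = G z := by rw [hGdef]
  rw [hGz] at hrep hσ hσX hlift hn hne
  rw [← hGdef]
  have hHan : ∀ ζ, AnalyticAt ℂ H ζ := fun ζ => hH.analyticAt ζ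
  have hGan : ∀ ζ, AnalyticAt ℂ G ζ := fun ζ => by
    rw [hGdef]
    exact (hHan ζ).const_smul (c := a)
  have hGK : ∀ ζ, G ζ ∈ K := fun ζ => by
    rw [hGdef]
    exact hsmK _ (hHK ζ).1 a ha
  have hGX : ∀ ζ, G ζ ∈ X := fun ζ => h.opn.sub (hGK ζ)
  have hGu : ∀ ζ, u (G ζ) - c ∈ Λ := fun ζ => by
    have h1 := hsm _ (h.opn.sub (hHK ζ).1) a ha
    have h2 := Λ.add_mem h1 (hHK ζ).2
    rw [hGdef]
    have h3 : u (a • H ζ) - u (H ζ) + (u (H ζ) - c) = u (a • H ζ) - c := by ring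
    rwa [h3] at h2
  -- a curve in `X` near `G z`, in the chart
  have hcur : ∀ (γ : ℂ → V) (z₀ : ℂ) (κ : ℂ → ℂ), AnalyticAt ℂ γ z₀ → γ z₀ = G z → (∀ᶠ ζ in 𝓝 z₀, γ ζ ∈ X) → ContinuousAt κ z₀ → κ z₀ = 0 →
      (∀ᶠ ζ in 𝓝 z₀, u (γ ζ) - (c + κ ζ) ∈ Λ) → (τ (G z)).1 = 0 →
      ∀ᶠ ζ in 𝓝 z₀, (τ (γ ζ)).1 = κ ζ := by
    intro γ z₀ κ hγ hγ0 hγX hκ hκ0 hγu h0
    obtain ⟨hτγ, B, hB, hBev⟩ := hrep γ z₀ hγ hγ0 hγX
    have ht : Tendsto (fun ζ => τ (γ ζ)) (𝓝 z₀) (𝓝 (τ (G z))) := by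
      have := hτγ.continuousAt.tendsto
      rwa [hγ0] at this
    have h1 : ContinuousAt (fun ζ => (τ (γ ζ)).1 - κ ζ) z₀ :=
      (continuous_fst.continuousAt.comp (f := fun ζ => τ (γ ζ)) hτγ.continuousAt).sub hκ
    have h2 : ∀ᶠ ζ in 𝓝 z₀, (τ (γ ζ)).1 - κ ζ ∈ Λ := by
      filter_upwards [hBev, hγu, ht.eventually hσX, ht.eventually hlift] with ζ g1 g2 g3 g4
      have g5 := hsm _ g3 (B ζ) g1.1
      rw [← g1.2] at g5
      have g6 := Λ.sub_mem (Λ.sub_mem g2 g5) g4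
      have g7 : u (γ ζ) - (c + κ ζ) - (u (γ ζ) - u (σ (τ (γ ζ)))) - (u (σ (τ (γ ζ))) - (c + (τ (γ ζ)).1)) = (τ (γ ζ)).1 - κ ζ := by ring
      rwa [g7] at g6
    filter_upwards [VFun_lat hΛ h1 (by simp only [hγ0, h0, hκ0, sub_zero]) h2] with ζ hζ
    exact sub_eq_zero.1 hζ
  obtain ⟨hτG, B, hB, hBev⟩ := hrep G z (hGan z) rfl (Eventually.of_forall hGX)
  have htG : Tendsto (fun ζ => τ (G ζ)) (𝓝 z) (𝓝 (τ (G z))) := hτG.continuousAt.tendsto
  have hp0 : (τ (G z)).1 = 0 := by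
    apply hd _ _ hn
    have g1 := hBev.self_of_nhds
    have g5 := hsm _ hσX.self_of_nhds (B z) g1.1
    rw [← g1.2] at g5
    have g6 := Λ.sub_mem (Λ.sub_mem (hGu z) g5) hlift.self_of_nhds
    have g7 : u (G z) - c - (u (G z) - u (σ (τ (G z)))) - (u (σ (τ (G z))) - (c + (τ (G z)).1)) = (τ (G z)).1 := by ring
    rwa [g7] at g6
  have hfst : ∀ᶠ ζ in 𝓝 z, (τ (G ζ)).1 = 0 :=
    hcur G z (fun _ => 0) (hGan z) rfl (Eventually.of_forall hGX) continuousAt_const rfl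
      (Eventually.of_forall fun ζ => by rw [add_zero]; exact hGu ζ) hp0
  have hPt : ∀ᶠ ζ in 𝓝 z, τ (G ζ) = (0, tco τ G ζ) := by
    filter_upwards [hfst] with ζ hζ
    exact Prod.ext hζ rfl
  have hP : τ (G z) = (0, tco τ G z) := hPt.self_of_nhds
  have htan : AnalyticAt ℂ (tco τ G) z := by
    have : AnalyticAt ℂ (fun ζ => (τ (G ζ)).2) z := AnalyticAt.fun_comp (g := Prod.snd) (f := fun ζ => τ (G ζ)) analyticAt_snd hτG
    exact this
  have hB0 : B z ≠ 0 := hBev.self_of_nhds.1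
  have hA0 : a⁻¹ * B z ≠ 0 := mul_ne_zero (inv_ne_zero ha) hB0
  have hGz2 : G z = B z • σ (τ (G z)) := hBev.self_of_nhds.2
  have hHz : H z = (a⁻¹ * B z) • σ (τ (G z)) := by
    rw [mul_smul, ← hGz2, hGdef]
    show H z = a⁻¹ • (a • H z)
    rw [smul_smul, inv_mul_cancel₀ ha, one_smul]
  have hσK0 : σ (τ (G z)) ∈ K := by
    have h1 := hsmK _ (hGK z) (B z)⁻¹ (inv_ne_zero hB0)
    rw [hGz2, smul_smul, inv_mul_cancel₀ hB0, one_smul] at h1
    exact h1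
  have hσK : ∀ᶠ q in 𝓝 (τ (G z)), σ q ∈ K := by
    filter_upwards [hσ.continuousAt.tendsto.eventually (h.opn.rel _ hσK0), hσX] with q g1 g2
    exact g1 g2
  refine ⟨?_, ?_, ?_⟩
  · refine ⟨deriv (fun ζ : ℂ => (a⁻¹ * B z) • σ (ζ, tco τ G z)) 0, fun ζ => (a⁻¹ * B z) • σ (ζ, tco τ G z), ?_, ?_, ?_, rfl, ?_⟩
    · have h1 : AnalyticAt ℂ (fun ζ : ℂ => (ζ, tco τ G z)) 0 := analyticAt_id.prod analyticAt_const
      have h2 : AnalyticAt ℂ σ ((fun ζ : ℂ => (ζ, tco τ G z)) 0) := by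
        show AnalyticAt ℂ σ (0, tco τ G z)
        rw [← hP]
        exact hσ
      exact (AnalyticAt.fun_comp (g := σ) (f := fun ζ : ℂ => (ζ, tco τ G z)) h2 h1).const_smul (c := a⁻¹ * B z)
    · have h1 : Tendsto (fun ζ : ℂ => (ζ, tco τ G z)) (𝓝 0) (𝓝 (τ (G z))) := by
        rw [hP]
        exact Continuous.tendsto (by fun_prop) 0
      filter_upwards [h1.eventually hσK] with ζ hζ
      exact hsmK _ hζ _ hA0
    · show (a⁻¹ * B z) • σ (0, tco τ G z) = H z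
      rw [hHz, hP]
    · have h1 : Tendsto (fun ζ : ℂ => (ζ, tco τ G z)) (𝓝 0) (𝓝 (τ (G z))) := by
        rw [hP]
        exact Continuous.tendsto (by fun_prop) 0
      filter_upwards [h1.eventually hlift, h1.eventually hσX] with ζ g1 g2
      have g3 := hsm _ g2 _ hA0
      have g4 := Λ.sub_mem (Λ.add_mem g3 g1) (hHK z).2
      have g5 : u ((a⁻¹ * B z) • σ (ζ, tco τ G z)) - u (σ (ζ, tco τ G z)) + (u (σ (ζ, tco τ G z)) - (c + ζ)) - (u (H z) - c) =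
          u ((a⁻¹ * B z) • σ (ζ, tco τ G z)) - u (H z) - ζ := by ring
      rwa [g5] at g4
  · rintro w ⟨γ, hγ, hγK, hγ0, hγw, hγu⟩
    -- the curve `γ` in the chart
    have hγ' : AnalyticAt ℂ (fun ζ => a • γ ζ) 0 := hγ.const_smul (c := a)
    have hγ0' : (fun ζ => a • γ ζ) 0 = G z := by
      show a • γ 0 = G z
      rw [hγ0, hGdef]
    have hγX' : ∀ᶠ ζ in 𝓝 (0 : ℂ), a • γ ζ ∈ X := by
      filter_upwards [hγK] with ζ hζ
      exact hsmX _ (h.opn.sub hζ) a ha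
    have hγu' : ∀ᶠ ζ in 𝓝 (0 : ℂ), u (a • γ ζ) - (c + ζ) ∈ Λ := by
      filter_upwards [hγK, hγu] with ζ g1 g2
      have g3 := hsm _ (h.opn.sub g1) a ha
      have g4 := Λ.add_mem (Λ.add_mem g3 g2) (hHK z).2
      have g5 : u (a • γ ζ) - u (γ ζ) + (u (γ ζ) - u (H z) - ζ) + (u (H z) - c) = u (a • γ ζ) - (c + ζ) := by ring
      rwa [g5] at g4
    obtain ⟨hτγ, B₁, hB₁, hB₁ev⟩ := hrep (fun ζ => a • γ ζ) 0 hγ' hγ0' hγX'
    have h1 := hcur (fun ζ => a • γ ζ) 0 (fun ζ => ζ) hγ' hγ0' hγX' continuousAt_id rfl hγu' hp0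
    have hp1 : τ (a • γ 0) = τ (G z) := by
      rw [← hγ0']
    -- derivative of `γ`
    have h2 : deriv (fun ζ => τ (a • γ ζ)) 0 = (1, (deriv (fun ζ => τ (a • γ ζ)) 0).2) := by
      refine Prod.ext ?_ rfl
      have h3 : HasDerivAt (fun ζ => (τ (a • γ ζ)).1) ((deriv (fun ζ => τ (a • γ ζ)) 0).1) 0 :=
        (ContinuousLinearMap.fst ℂ ℂ ℂ).hasFDerivAt.comp_hasDerivAt (0 : ℂ) hτγ.differentiableAt.hasDerivAt
      have h4 : (fun ζ => (τ (a • γ ζ)).1) =ᶠ[𝓝 0] fun ζ => ζ := h1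
      have h5 := h4.deriv_eq
      rw [h3.deriv, deriv_id''] at h5
      exact h5
    have h3 : ∀ᶠ ζ in 𝓝 (0 : ℂ), γ ζ = (a⁻¹ * B₁ ζ) • σ (τ (a • γ ζ)) := by
      filter_upwards [hB₁ev] with ζ hζ
      rw [mul_smul, ← hζ.2, smul_smul, inv_mul_cancel₀ ha, one_smul]
    have hσ1 : AnalyticAt ℂ σ (τ (a • γ 0)) := by
      rw [hp1]
      exact hσ
    have h4 := VFun_deriv (γ := γ) (B := fun ζ => a⁻¹ * B₁ ζ) (σ := σ) (P := fun ζ => τ (a • γ ζ)) (z₀ := 0) (analyticAt_const.mul hB₁) hτγ hσ1 h3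
    rw [h2] at h4
    simp only [hp1] at h4
    have hBB : B₁ 0 = B z := by
      have e1 := hB₁ev.self_of_nhds.2
      simp only [hp1] at e1
      have e2 : a • γ 0 = G z := hγ0'
      rw [e2] at e1
      have e3 : (B₁ 0 - B z) • σ (τ (G z)) = 0 := by
        rw [sub_smul, ← hGz2]
        rw [sub_eq_zero]
        exact e1.symm
      rcases smul_eq_zero.1 e3 with h5 | h5
      · exact sub_eq_zero.1 h5
      · exact absurd h5 hne
    rw [hBB, hγw] at h4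
    -- derivative of `H`
    have h5 : ∀ᶠ ζ in 𝓝 z, H ζ = (a⁻¹ * B ζ) • σ (τ (G ζ)) := by
      filter_upwards [hBev] with ζ hζ
      rw [mul_smul, ← hζ.2, hGdef]
      show H ζ = a⁻¹ • (a • H ζ)
      rw [smul_smul, inv_mul_cancel₀ ha, one_smul]
    have h6 := VFun_deriv (γ := H) (B := fun ζ => a⁻¹ * B ζ) (σ := σ) (P := fun ζ => τ (G ζ)) (z₀ := z) (analyticAt_const.mul hB) hτG hσ h5
    have h7 : deriv (fun ζ => τ (G ζ)) z = (0, deriv (tco τ G) z) := by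
      have e1 : (fun ζ => τ (G ζ)) =ᶠ[𝓝 z] fun ζ => ((0 : ℂ), tco τ G ζ) := hPt
      rw [e1.deriv_eq]
      exact ((hasDerivAt_const z (0 : ℂ)).prodMk htan.differentiableAt.hasDerivAt).deriv
    rw [h7] at h6
    simp only at h4 h6
    rw [h4, h6, hHz]
    have h8 := VFun_form (Ω := Ω) h.form hσ hσK hsmK hA0 ((deriv (fun ζ => τ (a • γ ζ)) 0).2) (deriv (fun ζ => a⁻¹ * B₁ ζ) 0)
      (deriv (fun ζ => a⁻¹ * B ζ) z) (deriv (tco τ G) z)
    rw [h8]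
    unfold loc
    rw [hP]
  · have h1 : AnalyticAt ℂ (fun ζ => ((0 : ℂ), tco τ G ζ)) z := analyticAt_const.prod htan
    have h2 : AnalyticAt ℂ (fun y => Ω (σ y) (fderiv ℂ σ y (1, 0)) (fderiv ℂ σ y (0, 1))) ((fun ζ => ((0 : ℂ), tco τ G ζ)) z) := by
      show AnalyticAt ℂ (fun y => Ω (σ y) (fderiv ℂ σ y (1, 0)) (fderiv ℂ σ y (0, 1))) (0, tco τ G z)
      rw [← hP]
      exact h.form.analytic σ _ hσ hσK
    have h3 : AnalyticAt ℂ σ ((fun ζ => ((0 : ℂ), tco τ G ζ)) z) := by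
      show AnalyticAt ℂ σ (0, tco τ G z)
      rw [← hP]
      exact hσ
    have h4 := AnalyticAt.fun_comp (g := fun y => Ω (σ y) (fderiv ℂ σ y (1, 0)) (fderiv ℂ σ y (0, 1))) (f := fun ζ => ((0 : ℂ), tco τ G ζ)) h2 h1
    have h5 := AnalyticAt.fun_comp (g := σ) (f := fun ζ => ((0 : ℂ), tco τ G ζ)) h3 h1
    have h6 : AnalyticAt ℂ (fun ζ => deriv (tco τ G) ζ) z := htan.deriv
    exact ((h6.fun_pow m).fun_mul h4).fun_smul h5

open Classical in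
theorem exists_vfun (hΛ : Lat Λ) (h : VData X K Λ u m Ω q d) (hc : GoodC X K Λ u q c) {H : ℂ → V} (hH : Differentiable ℂ H)
    (hHK : ∀ z, H z ∈ K ∧ u (H z) - c ∈ Λ) : ∃ Φ : ℂ → V, Differentiable ℂ Φ ∧ IsV X K Λ u m Ω c H Φ := by
  obtain ⟨Φ, hΦ⟩ : ∃ Φ : ℂ → V, ∀ z, (∃ w, VFun_U K Λ u (H z) w) → ∃ w, VFun_U K Λ u (H z) w ∧ Φ z = Ω (H z) w (deriv H z) • H z := by
    refine ⟨fun z => if hz : ∃ w, VFun_U K Λ u (H z) w then Ω (H z) hz.choose (deriv H z) • H z else 0, ?_⟩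
    intro z hz
    exact ⟨hz.choose, hz.choose_spec, dif_pos hz⟩
  have key : ∀ (σ : ℂ × ℂ → V) (τ : V → ℂ × ℂ), SC X K Λ u c σ τ → ∃ O ∈ 𝓝 (σ 0), ∀ z a : ℂ, a ≠ 0 → a • H z ∈ O →
      Φ z = loc m Ω σ τ (fun ζ => a • H ζ) z ∧ AnalyticAt ℂ (loc m Ω σ τ (fun ζ => a • H ζ)) z := by
    intro σ τ hs
    obtain ⟨O, hO, hO'⟩ := VFun_core hΛ h hs hH hHK
    refine ⟨O, hO, fun z a ha hz => ?_⟩
    obtain ⟨h1, h2, h3⟩ := hO' z a ha hz
    obtain ⟨w, hw, hw'⟩ := hΦ z h1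
    exact ⟨hw'.trans (h2 w hw), h3⟩
  refine ⟨Φ, fun z => ?_, fun σ τ hs => ?_⟩
  · obtain ⟨σ, τ, hs, h0, -⟩ := hc (H z) (h.opn.sub (hHK z).1) (hHK z).2
    obtain ⟨O, hO, hO'⟩ := key σ τ hs
    rw [h0] at hO
    have h1 : ∀ᶠ ζ in 𝓝 z, Φ ζ = loc m Ω σ τ (fun ζ => (1 : ℂ) • H ζ) ζ := by
      filter_upwards [(hH z).continuousAt.tendsto.eventually hO] with ζ hζ
      refine (hO' ζ 1 one_ne_zero ?_).1
      rw [one_smul]
      exact hζ
    have h2 := (hO' z 1 one_ne_zero (by rw [one_smul]; exact mem_of_mem_nhds hO)).2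
    have h3 : loc m Ω σ τ (fun ζ => (1 : ℂ) • H ζ) =ᶠ[𝓝 z] Φ := by
      filter_upwards [h1] with ζ hζ using hζ.symm
    exact (h2.congr h3).differentiableAt
  · obtain ⟨O, hO, hO'⟩ := key σ τ hs
    exact ⟨O, hO, fun z a ha hz => (hO' z a ha hz).1⟩

end Pool.Agent.H17V

end

section

/-!
# H17V VBd: the function `Φ` is bounded

* `log_deriv_bd` (LogD): `‖t' (0)‖ ≤ (2 / r) ‖t 0‖ log (1 / ‖t 0‖)` if `0 < ‖t ζ‖ < 1` for `‖ζ‖ < r`.
* `vfun_bd`.  Suppose there are `z_n` with `‖Φ (z_n)‖ → ∞`.  Let `x_n = a_n • H (z_n)`, `‖x_n‖ = 1`; for a subsequence (or along an ultrafilter) `x_n → x₀`, `‖x₀‖ = 1`, `x₀ ∈ X` (`surf.closed`), `u x₀ - c ∈ Λ` (local lift of `u` at `x₀`, discreteness of `Λ`).  `GoodC` at `x₀`: chart `σ, τ`, `σ 0 = x₀`, and `O` from `IsV`.  Let `ξ` be a linear form on `V` with `ξ x₀ = 1`.  The curves have bounded derivative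
  (`fs ≤ C`, with respect to `L`), so there is `r > 0` (independent of `n`) such that for large `n` and `‖ζ‖ < r`: `ξ (H (z_n + ζ)) ≠ 0` and `y_n ζ = (ξ (H (z_n + ζ)))⁻¹ • H (z_n + ζ)` is in a given neighbourhood of `x₀` (the distance in the projective space of `H (z_n + ζ)` and `H (z_n)` is at most a constant times `C r`; see the lemmas on `fs` and `pr` in H62/EF, e.g. the Lipschitz estimate used in `LimL_local`; or a
  continuity argument on the segment from `0` to `ζ`: as long as `y_n` is in a compact neighbourhood of `x₀` its derivative is bounded).  `t_n ζ = (τ (y_n ζ)).2` is holomorphic on the disc, small, and `(τ (y_n ζ)).1 = 0`, and `tco τ (fun ζ => a • H ζ) (z_n + ζ) = t_n ζ` for `ζ` near `0` if `a = (ξ (H z_n))⁻¹` (`inv`).  `Φ (z_n) = loc m Ω σ τ (a • H) (z_n) = t_n' (0) ^ m Ω (σ (0, t_n 0); ..) • σ (0, t_n 0)`.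
  First case `σ p ∈ K` near `0`: `‖t_n' (0)‖` is bounded (Cauchy) and the coefficient is continuous (`form.analytic`): bounded.  Second case `σ p ∉ K ↔ p.2 = 0`: `t_n ζ ≠ 0` for `‖ζ‖ < r` because `H (z_n + ζ) ∈ K`; `PoleLE.pow` (H36/BPL/Defs.lean) with `φ = σ`, `g = p.2`: there is an analytic `b` with `b p = p.2 ^ (m - 1) * Ω (σ p; ..)` for `p.2 ≠ 0` near `0`; so
  `‖Φ (z_n)‖ ≤ C' ‖t_n' (0)‖ ^ m / ‖t_n 0‖ ^ (m - 1) ≤ C'' ‖t_n 0‖ (log (1 / ‖t_n 0‖)) ^ m`, bounded (`x (log (1 / x)) ^ m` is bounded on `(0, 1)`).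
-/

set_option autoImplicit false

open Topology Filter

namespace Pool.Agent.H17V

attribute [-instance] ProperSMul.toContinuousSMul

open Pool.Agent.H17BP (Surface IsChart IsForm NoZeros Pr HolP)
open Pool.Agent.H17N (TMap)
open Pool.Agent.H36.BPL (OpenPart PoleLE)
open Pool.Agent.H36.BP (EN fs wd)
open Pool.Agent.H62.EF (Lat)

variable {V : Type} [NormedAddCommGroup V] [NormedSpace ℂ V] [FiniteDimensional ℂ V] {X K : Set V} {Λ : AddSubgroup ℂ} {u : V → ℂ} {m d M : ℕ}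
  {Ω : V → V → V → ℂ} {q : V → ℂ} {c : ℂ}

omit [FiniteDimensional ℂ V] in
/-- the values at a limit point -/
private theorem VBd_fib (hΛ : Lat Λ) (hu : TMap X Λ u) {𝒰 : Ultrafilter ℕ} {x : ℕ → V} {x₀ : V} (hx : Tendsto x 𝒰 (𝓝 x₀))
    (h : ∀ᶠ n in (𝒰 : Filter ℕ), x n ∈ X ∧ u (x n) - c ∈ Λ) (h0 : x₀ ∈ X) : u x₀ - c ∈ Λ := by
  obtain ⟨v, hv, hv2⟩ := hu.loc x₀ h0
  obtain ⟨δ, hδ, hd⟩ := hΛ.discrete
  have h1 : Tendsto (fun n => v (x n)) 𝒰 (𝓝 (v x₀)) := hv.continuousAt.tendsto.comp hx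
  have h2 : ∀ᶠ n in (𝒰 : Filter ℕ), v (x n) - c ∈ Λ ∧ dist (v (x n)) (v x₀) < δ / 2 := by
    filter_upwards [h, hx.eventually hv2, h1.eventually (Metric.ball_mem_nhds _ (half_pos hδ))] with n e1 e2 e3
    refine ⟨?_, e3⟩
    have h3 := Λ.sub_mem e1.2 (e2 e1.1)
    have h4 : u (x n) - c - (u (x n) - v (x n)) = v (x n) - c := by ring
    rwa [h4] at h3
  obtain ⟨k, hk⟩ := h2.exists
  have h3 : ∀ᶠ n in (𝒰 : Filter ℕ), v (x n) = v (x k) := by
    filter_upwards [h2] with n hn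
    have h4 := Λ.sub_mem hn.1 hk.1
    have h5 : v (x n) - c - (v (x k) - c) = v (x n) - v (x k) := by ring
    rw [h5] at h4
    refine sub_eq_zero.1 (hd _ h4 ?_)
    rw [← dist_eq_norm]
    have h6 := dist_triangle_right (v (x n)) (v (x k)) (v x₀)
    linarith [hn.2, hk.2]
  have h4 : v x₀ = v (x k) := tendsto_nhds_unique h1 (tendsto_const_nhds.congr' (h3.mono fun n hn => hn.symm))
  have h5 := Λ.add_mem (hv2.self_of_nhds h0) hk.1
  rw [← h4] at h5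
  have h6 : u x₀ - v x₀ + (v x₀ - c) = u x₀ - c := by ring
  rwa [h6] at h5

private theorem VBd_snd : Tendsto (fun p : ℂ × ℂ => ((0, p.2) : ℂ × ℂ)) (𝓝 0) (𝓝 0) := by
  have h : Continuous (fun p : ℂ × ℂ => ((0, p.2) : ℂ × ℂ)) := by fun_prop
  exact h.tendsto 0

omit [FiniteDimensional ℂ V] in
/-- the coefficient of the form in a chart -/
private theorem VBd_coef (h : VData X K Λ u m Ω q d) {σ : ℂ × ℂ → V} {τ : V → ℂ × ℂ} (hs : SC X K Λ u c σ τ) : ∃ B S : ℝ, 0 ≤ B ∧ 0 ≤ S ∧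
    (∀ᶠ p in 𝓝 (0 : ℂ × ℂ), ‖σ (0, p.2)‖ ≤ S) ∧
    ((∀ᶠ p in 𝓝 (0 : ℂ × ℂ), ‖Ω (σ (0, p.2)) (fderiv ℂ σ (0, p.2) (1, 0)) (fderiv ℂ σ (0, p.2) (0, 1))‖ ≤ B) ∨
      ((∀ᶠ p in 𝓝 (0 : ℂ × ℂ), p.2 ≠ 0 →
        ‖p.2‖ ^ (m - 1) * ‖Ω (σ (0, p.2)) (fderiv ℂ σ (0, p.2) (1, 0)) (fderiv ℂ σ (0, p.2) (0, 1))‖ ≤ B) ∧
        ∀ᶠ p in 𝓝 (0 : ℂ × ℂ), σ p ∈ K → p.2 ≠ 0)) := by
  have hS : ∀ᶠ p in 𝓝 (0 : ℂ × ℂ), ‖σ (0, p.2)‖ ≤ ‖σ 0‖ + 1 := by
    have h1 : ∀ᶠ p in 𝓝 (0 : ℂ × ℂ), ‖σ p‖ < ‖σ 0‖ + 1 := hs.chart.σ_an.continuousAt.norm.eventually_lt_const (lt_add_one _)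
    exact (VBd_snd.eventually h1).mono fun p hp => hp.le
  rcases hs.bd with hb | hb
  · have h1 := h.form.analytic σ 0 hs.chart.σ_an hb
    refine ⟨‖Ω (σ 0) (fderiv ℂ σ 0 (1, 0)) (fderiv ℂ σ 0 (0, 1))‖ + 1, ‖σ 0‖ + 1, by positivity, by positivity, hS, Or.inl ?_⟩
    exact (VBd_snd.eventually (h1.continuousAt.norm.eventually_lt_const (lt_add_one _))).mono fun p hp => hp.le
  · obtain ⟨b, hb1, hb2⟩ := h.pole.pow hs.chart.σ_an hs.chart.σ_mem (g := fun p => p.2) analyticAt_snd (hb.mono fun p hp hK => hp.1 hK)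
    refine ⟨‖b 0‖ + 1, ‖σ 0‖ + 1, by positivity, by positivity, hS, Or.inr ⟨?_, ?_⟩⟩
    · filter_upwards [VBd_snd.eventually hb, VBd_snd.eventually hb2,
        VBd_snd.eventually (hb1.continuousAt.norm.eventually_lt_const (lt_add_one _))] with p e1 e2 e3 e4
      have h2 : σ (0, p.2) ∈ K := by
        by_contra h3
        exact e4 (e1.1 h3)
      have h4 := e2 h2
      rw [← norm_pow, ← norm_mul, ← h4]
      exact e3.le
    · filter_upwards [hb] with p hp hK h0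
      exact hp.2 h0 hK

private theorem VBd_log {x : ℝ} (h0 : 0 < x) (h1 : x < 1) (m : ℕ) : x * Real.log (1 / x) ^ m ≤ m.factorial := by
  have hy : 0 ≤ Real.log (1 / x) := Real.log_nonneg (by rw [le_div_iff₀ h0]; linarith)
  have h2 : Real.log (1 / x) ^ m / m.factorial ≤ Real.exp (Real.log (1 / x)) := Real.pow_div_factorial_le_exp _ hy m
  rw [Real.exp_log (by positivity)] at h2
  have h3 : (0 : ℝ) < m.factorial := by exact_mod_cast Nat.factorial_pos m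
  rw [div_le_iff₀ h3] at h2
  calc x * Real.log (1 / x) ^ m ≤ x * (1 / x * m.factorial) := by gcongr
    _ = m.factorial := by field_simp

/-- the bound for one curve -/
private theorem VBd_one {r B S : ℝ} (hr : 0 < r) (hB : 0 ≤ B) (hS : 0 ≤ S) (h1 : 1 ≤ m) {t : ℂ → ℂ}
    (ht : DifferentiableOn ℂ t (Metric.ball 0 r)) (ht1 : ∀ ζ ∈ Metric.ball (0 : ℂ) r, ‖t ζ‖ < 1) {w : ℂ} {s : V} (hs : ‖s‖ ≤ S)
    (hw : ‖w‖ ≤ B ∨ ((∀ ζ ∈ Metric.ball (0 : ℂ) r, t ζ ≠ 0) ∧ ‖t 0‖ ^ (m - 1) * ‖w‖ ≤ B)) :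
    ‖(deriv t 0 ^ m * w) • s‖ ≤ (2 / r) ^ m * B * S * (m.factorial + 1) := by
  have hf : (0 : ℝ) ≤ m.factorial := by positivity
  have h0r : (0 : ℂ) ∈ Metric.ball (0 : ℂ) r := Metric.mem_ball_self hr
  rw [norm_smul, norm_mul, norm_pow]
  rcases hw with hw | ⟨hne, hw⟩
  · have h2 : ‖deriv t 0‖ ≤ 1 / (r / 2) := by
      have hsub : Metric.closedBall (0 : ℂ) (r / 2) ⊆ Metric.ball 0 r := Metric.closedBall_subset_ball (by linarith)
      refine Complex.norm_deriv_le_of_forall_mem_sphere_norm_le (by positivity) ?_ ?_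
      · exact (ht.mono hsub).diffContOnCl_ball (by rfl)
      · intro z hz
        exact (ht1 z (hsub (Metric.sphere_subset_closedBall hz))).le
    have h3 : (1 : ℝ) / (r / 2) = 2 / r := by field_simp
    rw [h3] at h2
    calc ‖deriv t 0‖ ^ m * ‖w‖ * ‖s‖ ≤ (2 / r) ^ m * B * S := by gcongr
      _ ≤ (2 / r) ^ m * B * S * (m.factorial + 1) := by
        have h4 : 0 ≤ (2 / r) ^ m * B * S := by positivity
        nlinarith
  · have h2 := log_deriv_bd hr ht hne ht1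
    have hx : 0 < ‖t 0‖ := norm_pos_iff.2 (hne 0 h0r)
    have hx1 := ht1 0 h0r
    have hl : 0 ≤ Real.log (1 / ‖t 0‖) := Real.log_nonneg (by rw [le_div_iff₀ hx]; linarith)
    have h3 := VBd_log hx hx1 m
    have h4 : ‖t 0‖ ^ m = ‖t 0‖ ^ (m - 1) * ‖t 0‖ := by
      rw [← pow_succ]
      congr 1
      omega
    calc ‖deriv t 0‖ ^ m * ‖w‖ * ‖s‖ ≤ (2 / r * (‖t 0‖ * Real.log (1 / ‖t 0‖))) ^ m * ‖w‖ * S := by gcongr
      _ = (2 / r) ^ m * (‖t 0‖ ^ (m - 1) * ‖w‖) * S * (‖t 0‖ * Real.log (1 / ‖t 0‖) ^ m) := by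
        rw [mul_pow, mul_pow, h4]
        ring
      _ ≤ (2 / r) ^ m * B * S * (m.factorial + 1) := by
        have h5 : ‖t 0‖ * Real.log (1 / ‖t 0‖) ^ m ≤ m.factorial + 1 := by linarith
        gcongr

theorem vfun_bd (L : V ≃L[ℂ] EN M) (hΛ : Lat Λ) (h : VData X K Λ u m Ω q d) (hc : GoodC X K Λ u q c) {H : ℂ → V} (hH : Differentiable ℂ H)
    (hHK : ∀ z, H z ∈ K ∧ u (H z) - c ∈ Λ) {C : ℝ} (hC : ∀ z, fs (L (H z)) (deriv (fun ζ => L (H ζ)) z) ≤ C) {Φ : ℂ → V}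
    (hΦ : IsV X K Λ u m Ω c H Φ) : ∃ C' : ℝ, ∀ z, ‖Φ z‖ ≤ C' := by
  by_contra hcon
  push Not at hcon
  choose z hz using fun n : ℕ => hcon n
  obtain ⟨𝒰, h𝒰⟩ : ∃ 𝒰 : Ultrafilter ℕ, (𝒰 : Filter ℕ) ≤ atTop := ⟨hyperfilter ℕ, Nat.hyperfilter_le_atTop⟩
  -- the cone
  obtain ⟨X', hX'⟩ : ∃ X' : Set (EN M), X' = {w | L.symm w ∈ X} := ⟨_, rfl⟩
  have hcone : Pool.Agent.H14.PP.IsCone X' := by
    rw [hX']
    refine ⟨?_, ?_, ?_⟩
    · show ¬ (L.symm 0 ∈ X)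
      rw [map_zero]
      exact h.surf.zero
    · intro x hx c hc0
      show L.symm (c • x) ∈ X
      rw [map_smul]
      exact h.surf.smul _ hx c hc0
    · rw [← closure_subset_iff_isClosed]
      intro w hw
      by_cases hw0 : w = 0
      · exact Or.inl hw0
      · right
        have h1 : w ∈ closure {w : EN M | L.symm w ∈ X} := by
          rw [Set.insert_eq, closure_union, closure_singleton] at hw
          rcases hw with hw | hw
          · exact absurd hw hw0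
          · exact hw
        have h2 : L.symm w ∈ closure X := by
          have h3 : Set.MapsTo L.symm {w : EN M | L.symm w ∈ X} X := fun y hy => hy
          exact h3.closure L.symm.continuous h1
        exact h.surf.closed _ h2 (fun h3 => hw0 (by simpa using h3))
  -- the curves
  have hLH : Differentiable ℂ (fun ζ => L (H ζ)) := L.differentiable.comp hH
  have hρ : Tendsto (fun n : ℕ => (n : ℝ)) 𝒰 atTop := tendsto_natCast_atTop_atTop.mono_left h𝒰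
  obtain ⟨G, -, hGX, -, -, hloc⟩ := Pool.Agent.H62.EF.limit_curves hcone (L := max C 1) (lt_of_lt_of_le one_pos (le_max_right _ _)) 𝒰
    (fun n ζ => L (H (z n + ζ))) (fun n => (n : ℝ)) hρ (Eventually.of_forall fun n => by
      refine ⟨(hLH.comp ((differentiable_const _).add differentiable_id)).differentiableOn, fun w _ => ⟨?_, ?_⟩⟩
      · rw [hX']
        show L.symm (L (H (z n + w))) ∈ X
        rw [ContinuousLinearEquiv.symm_apply_apply]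
        exact h.opn.sub (hHK _).1
      · have h1 : deriv (fun ζ => L (H (z n + ζ))) w = deriv (fun ζ => L (H ζ)) (z n + w) :=
          deriv_comp_const_add (fun ζ => L (H ζ)) (z n) w
        rw [h1]
        exact (hC _).trans (le_max_left _ _))
  obtain ⟨r, φ, ψ, hr, hφ, hψd, hψG, hconv⟩ := hloc 0
  have h0r : (0 : ℂ) ∈ Metric.ball (0 : ℂ) r := Metric.mem_ball_self hr
  have hLX : ∀ w, w ∈ X' → L.symm w ∈ X := fun w hw => by
    rw [hX'] at hw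
    exact hw
  have hx₀ : L.symm (ψ 0) ∈ X := by
    obtain ⟨a, ha, ha2⟩ := hψG 0 h0r
    rw [ha2, map_smul]
    exact h.surf.smul _ (hLX _ (hGX 0)) a ha
  have hφ0 : Tendsto (fun n => L.symm (φ n 0)) 𝒰 (𝓝 (L.symm (ψ 0))) :=
    (L.symm.continuous.tendsto _).comp (hconv.tendsto_at h0r)
  have hφH : ∀ᶠ n in (𝒰 : Filter ℕ), ∀ ζ ∈ Metric.ball (0 : ℂ) r, ∃ a : ℂ, a ≠ 0 ∧ L.symm (φ n ζ) = a • H (z n + ζ) := by
    filter_upwards [hφ] with n hn ζ hζ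
    obtain ⟨a, ha, ha2⟩ := hn.2 ζ hζ
    refine ⟨a, ha, ?_⟩
    rw [ha2, map_smul, ContinuousLinearEquiv.symm_apply_apply]
  have hux₀ : u (L.symm (ψ 0)) - c ∈ Λ := by
    refine VBd_fib hΛ h.tor hφ0 ?_ hx₀
    filter_upwards [hφH] with n hn
    obtain ⟨a, ha, ha2⟩ := hn 0 h0r
    rw [ha2, add_zero]
    refine ⟨h.surf.smul _ (h.opn.sub (hHK _).1) a ha, ?_⟩
    have h1 := Λ.add_mem (h.tor.smul _ (h.opn.sub (hHK (z n)).1) a ha) (hHK (z n)).2
    have h2 : u (a • H (z n)) - u (H (z n)) + (u (H (z n)) - c) = u (a • H (z n)) - c := by ring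
    rwa [h2] at h1
  -- the chart
  obtain ⟨σ, τ, hs, hσ0, -⟩ := hc _ hx₀ hux₀
  obtain ⟨O, hO, hΦO⟩ := hΦ σ τ hs
  obtain ⟨B, S, hB, hS, hσS, hcoef⟩ := VBd_coef h hs
  rw [hσ0] at hO
  have hch := hs.chart
  have hτ0 : τ (σ 0) = 0 := hch.left.self_of_nhds
  have hτt : Tendsto τ (𝓝 (L.symm (ψ 0))) (𝓝 0) := by
    have h1 := hch.τ_an.continuousAt.tendsto
    rwa [hτ0, hσ0] at h1
  have hinv : ∀ᶠ y in 𝓝 (L.symm (ψ 0)), ∀ᶠ p in 𝓝 (y, (1 : ℂ)), τ (p.2 • p.1) = τ p.1 := by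
    have h1 : Tendsto (fun y : V => (y, (1 : ℂ))) (𝓝 (L.symm (ψ 0))) (𝓝 (σ 0, (1 : ℂ))) := by
      have h2 : Continuous (fun y : V => (y, (1 : ℂ))) := by fun_prop
      have h3 := h2.tendsto (L.symm (ψ 0))
      rwa [← hσ0] at h3 ⊢
    exact h1.eventually hch.inv.eventually_nhds
  have hsmall : ∀ᶠ p in 𝓝 (0 : ℂ × ℂ), ‖p.2‖ < 1 := by
    have h1 : Continuous (fun p : ℂ × ℂ => ‖p.2‖) := by fun_prop
    have h2 := h1.tendsto 0
    simp only [Prod.snd_zero, norm_zero] at h2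
    exact h2.eventually_lt_const one_pos
  have hτan : ∀ᶠ y in 𝓝 (L.symm (ψ 0)), AnalyticAt ℂ τ y := by
    have h1 := hch.τ_an.eventually_analyticAt
    rwa [hσ0] at h1
  have hright : ∀ᶠ y in 𝓝 (L.symm (ψ 0)), y ∈ X → ∃ c : ℂ, c ≠ 0 ∧ y = c • σ (τ y) := by
    have h1 := hch.right
    rwa [hσ0] at h1
  -- all together: the neighbourhood
  have hnear : ∀ P : V → Prop, (∀ᶠ y in 𝓝 (L.symm (ψ 0)), P y) →
      ∃ r' > 0, r' ≤ r ∧ ∀ᶠ n in (𝒰 : Filter ℕ), ∀ ζ ∈ Metric.ball (0 : ℂ) r', P (L.symm (φ n ζ)) := by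
    intro P hP
    have h1 : ∀ᶠ w in 𝓝 (ψ 0), P (L.symm w) := (L.symm.continuous.tendsto (ψ 0)).eventually hP
    obtain ⟨ε, hε, hε2⟩ := Metric.eventually_nhds_iff_ball.1 h1
    have hψc : ContinuousAt ψ 0 := (hψd.differentiableAt (Metric.ball_mem_nhds 0 hr)).continuousAt
    have h2 : ∀ᶠ ζ in 𝓝 (0 : ℂ), dist (ψ ζ) (ψ 0) < ε / 2 := hψc.eventually (Metric.ball_mem_nhds _ (half_pos hε))
    obtain ⟨t, ht, ht2⟩ := Metric.tendstoLocallyUniformlyOn_iff.1 hconv (ε / 2) (half_pos hε) 0 h0r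
    rw [nhdsWithin_eq_nhds.2 (Metric.ball_mem_nhds 0 hr)] at ht
    obtain ⟨r1, hr1, hr2⟩ := Metric.mem_nhds_iff.1 (Filter.inter_mem ht h2)
    refine ⟨min r1 r, lt_min hr1 hr, min_le_right _ _, ?_⟩
    filter_upwards [ht2] with n hn ζ hζ
    have h3 := hr2 (Metric.ball_subset_ball (min_le_left _ _) hζ)
    refine hε2 _ ?_
    rw [Metric.mem_ball]
    calc dist (φ n ζ) (ψ 0) ≤ dist (φ n ζ) (ψ ζ) + dist (ψ ζ) (ψ 0) := dist_triangle _ _ _
      _ < ε / 2 + ε / 2 := by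
        refine add_lt_add ?_ h3.2
        rw [dist_comm]
        exact hn ζ h3.1
      _ = ε := by ring
  -- the bound
  have hone : ∀ (n : ℕ) (r' : ℝ), 0 < r' → r' ≤ r → DifferentiableOn ℂ (φ n) (Metric.ball 0 r) →
      (∀ ζ ∈ Metric.ball (0 : ℂ) r, ∃ a : ℂ, a ≠ 0 ∧ L.symm (φ n ζ) = a • H (z n + ζ)) →
      (∀ ζ ∈ Metric.ball (0 : ℂ) r', L.symm (φ n ζ) ∈ O ∧ AnalyticAt ℂ τ (L.symm (φ n ζ)) ∧
        (∀ᶠ p in 𝓝 (L.symm (φ n ζ), (1 : ℂ)), τ (p.2 • p.1) = τ p.1) ∧ ‖(τ (L.symm (φ n ζ))).2‖ < 1 ∧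
        ‖σ (0, (τ (L.symm (φ n ζ))).2)‖ ≤ S) →
      (‖Ω (σ (0, (τ (L.symm (φ n 0))).2)) (fderiv ℂ σ (0, (τ (L.symm (φ n 0))).2) (1, 0)) (fderiv ℂ σ (0, (τ (L.symm (φ n 0))).2) (0, 1))‖ ≤ B ∨
        ((∀ ζ ∈ Metric.ball (0 : ℂ) r', (τ (L.symm (φ n ζ))).2 ≠ 0) ∧ ‖(τ (L.symm (φ n 0))).2‖ ^ (m - 1) *
          ‖Ω (σ (0, (τ (L.symm (φ n 0))).2)) (fderiv ℂ σ (0, (τ (L.symm (φ n 0))).2) (1, 0)) (fderiv ℂ σ (0, (τ (L.symm (φ n 0))).2) (0, 1))‖ ≤ B)) →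
      ‖Φ (z n)‖ ≤ (2 / r') ^ m * B * S * (m.factorial + 1) := by
    intro n r' hr' hrr hφd hφa hgood hw
    have h0r' : (0 : ℂ) ∈ Metric.ball (0 : ℂ) r' := Metric.mem_ball_self hr'
    have hsub : Metric.ball (0 : ℂ) r' ⊆ Metric.ball 0 r := Metric.ball_subset_ball hrr
    obtain ⟨t, ht⟩ : ∃ t : ℂ → ℂ, t = fun ζ => (τ (L.symm (φ n ζ))).2 := ⟨_, rfl⟩
    have hyd : ∀ ζ ∈ Metric.ball (0 : ℂ) r', DifferentiableAt ℂ (fun ζ => L.symm (φ n ζ)) ζ := fun ζ hζ =>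
      L.symm.differentiableAt.comp ζ (hφd.differentiableAt (Metric.isOpen_ball.mem_nhds (hsub hζ)))
    have htd : DifferentiableOn ℂ t (Metric.ball 0 r') := by
      intro ζ hζ
      rw [ht]
      have h1 : DifferentiableAt ℂ (fun ζ => τ (L.symm (φ n ζ))) ζ :=
        DifferentiableAt.comp ζ (hgood ζ hζ).2.1.differentiableAt (hyd ζ hζ)
      exact (differentiableAt_snd.comp ζ h1).differentiableWithinAt
    obtain ⟨a, ha, ha2⟩ := hφa 0 h0r
    rw [add_zero] at ha2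
    have hHz : H (z n) ≠ 0 := fun h1 => h.surf.zero (by rw [← h1]; exact h.opn.sub (hHK _).1)
    -- the second coordinate
    have hco : (fun ζ => tco τ (fun ζ => a • H ζ) (z n + ζ)) =ᶠ[𝓝 0] t := by
      obtain ⟨ξ, -, hξ⟩ := exists_dual_vector ℂ (H (z n)) (norm_ne_zero_iff.mpr hHz)
      have hξ0 : ξ (H (z n)) ≠ 0 := by
        rw [hξ]
        simpa using hHz
      have hHc : ContinuousAt (fun ζ => H (z n + ζ)) 0 := by
        have h1 : Continuous (fun ζ => H (z n + ζ)) := hH.continuous.comp (by fun_prop)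
        exact h1.continuousAt
      have hξc : ContinuousAt (fun ζ => ξ (H (z n + ζ))) 0 := ξ.continuous.continuousAt.comp hHc
      have hyc : ContinuousAt (fun ζ => L.symm (φ n ζ)) 0 := (hyd 0 h0r').continuousAt
      have hyξ : ContinuousAt (fun ζ => ξ (L.symm (φ n ζ))) 0 := ξ.continuous.continuousAt.comp hyc
      have hne : ξ (H (z n + 0)) ≠ 0 := by rw [add_zero]; exact hξ0
      have hyne : ξ (L.symm (φ n 0)) ≠ 0 := by
        rw [ha2, map_smul, smul_eq_mul]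
        exact mul_ne_zero ha hξ0
      have hcr : ContinuousAt (fun ζ => (L.symm (φ n ζ), a * ξ (H (z n + ζ)) / ξ (L.symm (φ n ζ)))) 0 :=
        hyc.prodMk ((continuousAt_const.mul hξc).div hyξ hyne)
      have hval : a * ξ (H (z n + 0)) / ξ (L.symm (φ n 0)) = 1 := by
        rw [add_zero, ha2, map_smul, smul_eq_mul]
        exact div_self (mul_ne_zero ha hξ0)
      have hev := (hgood 0 h0r').2.2.1
      rw [← hval] at hev
      filter_upwards [hcr.eventually hev, hξc.eventually_ne hne, hyξ.eventually_ne hyne, Metric.ball_mem_nhds (0 : ℂ) hr] with ζ e1 e2 e3 e4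
      obtain ⟨b, hb, hb2⟩ := hφa ζ e4
      show (τ (a • H (z n + ζ))).2 = t ζ
      rw [ht]
      simp only at e1 ⊢
      rw [← e1]
      congr 2
      have h2 : ξ (L.symm (φ n ζ)) = b * ξ (H (z n + ζ)) := by rw [hb2, map_smul, smul_eq_mul]
      rw [h2]
      have h3 : a * ξ (H (z n + ζ)) / (b * ξ (H (z n + ζ))) = a / b := by
        field_simp
      rw [h3, hb2, smul_smul, div_mul_cancel₀ _ hb]
    have hderiv : deriv (tco τ (fun ζ => a • H ζ)) (z n) = deriv t 0 := by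
      rw [← hco.deriv_eq]
      have h1 := deriv_comp_const_add (tco τ (fun ζ => a • H ζ)) (z n) 0
      rw [add_zero] at h1
      exact h1.symm
    have hval : tco τ (fun ζ => a • H ζ) (z n) = t 0 := by
      have h1 := hco.self_of_nhds
      simp only [add_zero] at h1
      exact h1
    have hmem : a • H (z n) ∈ O := by
      rw [← ha2]
      exact (hgood 0 h0r').1
    rw [hΦO (z n) a ha hmem]
    unfold loc
    rw [hderiv, hval]
    have ht0 : t 0 = (τ (L.symm (φ n 0))).2 := by rw [ht]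
    refine VBd_one hr' hB hS h.one htd ?_ ?_ ?_
    · intro ζ hζ
      rw [ht]
      exact (hgood ζ hζ).2.2.2.1
    · rw [ht0]
      exact (hgood 0 h0r').2.2.2.2
    · rw [ht0]
      rcases hw with hw | ⟨hw1, hw2⟩
      · exact Or.inl hw
      · refine Or.inr ⟨fun ζ hζ => ?_, hw2⟩
        rw [ht]
        exact hw1 ζ hζ
  -- the end
  have hend : ∀ r' : ℝ, ¬ ∀ᶠ n in (𝒰 : Filter ℕ), ‖Φ (z n)‖ ≤ (2 / r') ^ m * B * S * (m.factorial + 1) := by
    intro r' h1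
    obtain ⟨n, hn1, hn2⟩ := (h1.and (hρ.eventually_gt_atTop ((2 / r') ^ m * B * S * (m.factorial + 1)))).exists
    have h2 := hz n
    linarith
  have hbase : ∀ᶠ y in 𝓝 (L.symm (ψ 0)), y ∈ O ∧ AnalyticAt ℂ τ y ∧
        (∀ᶠ p in 𝓝 (y, (1 : ℂ)), τ (p.2 • p.1) = τ p.1) ∧ ‖(τ y).2‖ < 1 ∧ ‖σ (0, (τ y).2)‖ ≤ S := by
    filter_upwards [hO, hτan, hinv, hτt.eventually hsmall, hτt.eventually hσS] with y e1 e2 e3 e4 e5
    exact ⟨e1, e2, e3, e4, e5⟩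
  rcases hcoef with hcoef | ⟨hcoef, hK⟩
  · obtain ⟨r', hr', hrr, hev⟩ := hnear _ (hbase.and (hτt.eventually hcoef))
    refine hend r' ?_
    filter_upwards [hev, hφ, hφH] with n e1 e2 e3
    exact hone n r' hr' hrr e2.1 e3 (fun ζ hζ => (e1 ζ hζ).1) (Or.inl (e1 0 (Metric.mem_ball_self hr')).2)
  · obtain ⟨r', hr', hrr, hev⟩ := hnear _ (hbase.and ((hτt.eventually hcoef).and ((hτt.eventually hK).and hright)))
    refine hend r' ?_
    filter_upwards [hev, hφ, hφH] with n e1 e2 e3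
    have hne : ∀ ζ ∈ Metric.ball (0 : ℂ) r', (τ (L.symm (φ n ζ))).2 ≠ 0 := by
      intro ζ hζ
      obtain ⟨-, -, h3, h4⟩ := e1 ζ hζ
      obtain ⟨a, ha, ha2⟩ := e3 ζ (Metric.ball_subset_ball hrr hζ)
      have hyK : L.symm (φ n ζ) ∈ K := by
        rw [ha2]
        exact h.opn.smul _ (hHK _).1 a ha
      obtain ⟨b, hb, hb2⟩ := h4 (h.opn.sub hyK)
      refine h3 ?_
      have h5 : σ (τ (L.symm (φ n ζ))) = b⁻¹ • L.symm (φ n ζ) := by
        conv_rhs => rw [hb2]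
        rw [smul_smul, inv_mul_cancel₀ hb, one_smul]
      rw [h5]
      exact h.opn.smul _ hyK _ (inv_ne_zero hb)
    have h0r' := Metric.mem_ball_self (x := (0 : ℂ)) hr'
    exact hone n r' hr' hrr e2.1 e3 (fun ζ hζ => (e1 ζ hζ).1) (Or.inr ⟨hne, (e1 0 h0r').2.1 (hne 0 h0r')⟩)

end Pool.Agent.H17V

end

section

/-!
# LR Inv: the inverse of a holomorphic function near the identity
-/

set_option autoImplicit false

open Topology Filter Metric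

namespace Pool.Agent.H86.LR

attribute [-instance] ProperSMul.toContinuousSMul

/-- the inverse of a holomorphic function near the identity (after a private lemma of LU Lc) -/
theorem inverse_near {ρ ε : ℝ} (hε : 0 < ε) (hε1 : ε ≤ 1 / 4) {θ : ℂ → ℂ}
    (hθ : DifferentiableOn ℂ θ (ball 0 (ρ + 3))) (hn : ∀ w ∈ ball (0 : ℂ) (ρ + 3), ‖θ w - w‖ < ε) :
    ∃ κ : ℂ → ℂ, DifferentiableOn ℂ κ (ball 0 (ρ + 1)) ∧ ∀ w ∈ ball (0 : ℂ) (ρ + 1), θ (κ w) = w ∧ ‖κ w - w‖ ≤ ε := by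
  -- `h = θ - id` is Lipschitz with constant `1/4` on `ball 0 (ρ + 2)`
  have hlip : ∀ z ∈ ball (0 : ℂ) (ρ + 2), ∀ w ∈ ball (0 : ℂ) (ρ + 2), ‖(θ z - z) - (θ w - w)‖ ≤ 1 / 4 * ‖z - w‖ := by
    have hder : ∀ z ∈ ball (0 : ℂ) (ρ + 2), DifferentiableAt ℂ (fun z => θ z - z) z ∧ ‖deriv (fun z => θ z - z) z‖ ≤ 1 / 4 := by
      intro z hz
      have hz' : ‖z‖ < ρ + 2 := by simpa using hz
      have hsub : closedBall z 1 ⊆ ball (0 : ℂ) (ρ + 3) := by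
        intro w hw
        rw [mem_closedBall, dist_eq_norm] at hw
        rw [mem_ball, dist_zero_right]
        have h1 : w = z + (w - z) := by ring
        rw [h1]
        refine (norm_add_le _ _).trans_lt ?_
        linarith
      have hd : DifferentiableOn ℂ (fun z => θ z - z) (ball 0 (ρ + 3)) := hθ.sub differentiableOn_id
      refine ⟨hd.differentiableAt (isOpen_ball.mem_nhds (hsub (mem_closedBall_self zero_le_one))), ?_⟩
      have hdc : DiffContOnCl ℂ (fun z => θ z - z) (ball z 1) := by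
        refine DifferentiableOn.diffContOnCl ?_
        rw [closure_ball z one_ne_zero]
        exact hd.mono hsub
      have h1 := Complex.norm_deriv_le_of_forall_mem_sphere_norm_le (one_pos) hdc (C := ε)
        (fun w hw => (hn w (hsub (sphere_subset_closedBall hw))).le)
      rw [div_one] at h1
      exact h1.trans hε1
    intro z hz w hw
    have h1 := (convex_ball (0 : ℂ) (ρ + 2)).norm_image_sub_le_of_norm_deriv_le (fun x hx => (hder x hx).1) (fun x hx => (hder x hx).2) hw hz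
    exact h1
  -- existence
  have hex : ∀ w ∈ ball (0 : ℂ) (ρ + 1), ∃ z, ‖z - w‖ ≤ ε ∧ θ z = w := by
    intro w hw
    have hw' : ‖w‖ < ρ + 1 := by simpa using hw
    have hin : ∀ z ∈ closedBall w ε, z ∈ ball (0 : ℂ) (ρ + 2) := by
      intro z hz
      rw [mem_closedBall, dist_eq_norm] at hz
      rw [mem_ball, dist_zero_right]
      have h1 : z = w + (z - w) := by ring
      rw [h1]
      refine (norm_add_le _ _).trans_lt ?_
      linarith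
    have hmaps : Set.MapsTo (fun z => w - (θ z - z)) (closedBall w ε) (closedBall w ε) := by
      intro z hz
      have h1 := hn z (ball_subset_ball (by linarith) (hin z hz))
      rw [mem_closedBall, dist_eq_norm]
      have h2 : w - (θ z - z) - w = -(θ z - z) := by ring
      show ‖w - (θ z - z) - w‖ ≤ ε
      rw [h2, norm_neg]
      exact h1.le
    have hcon : ContractingWith (1 / 4 : NNReal) (hmaps.restrict (fun z => w - (θ z - z)) (closedBall w ε) (closedBall w ε)) := by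
      refine ⟨by norm_num, LipschitzWith.of_dist_le_mul ?_⟩
      intro x y
      have h1 := hlip x.1 (hin x.1 x.2) y.1 (hin y.1 y.2)
      have h2 : dist (hmaps.restrict (fun z => w - (θ z - z)) (closedBall w ε) (closedBall w ε) x)
          (hmaps.restrict (fun z => w - (θ z - z)) (closedBall w ε) (closedBall w ε) y) = ‖(θ x.1 - x.1) - (θ y.1 - y.1)‖ := by
        show dist (w - (θ x.1 - x.1)) (w - (θ y.1 - y.1)) = _
        rw [dist_eq_norm]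
        have h3 : w - (θ x.1 - x.1) - (w - (θ y.1 - y.1)) = -((θ x.1 - x.1) - (θ y.1 - y.1)) := by ring
        rw [h3, norm_neg]
      rw [h2]
      have h4 : dist x y = ‖x.1 - y.1‖ := by
        rw [Subtype.dist_eq, dist_eq_norm]
      rw [h4]
      simpa using h1
    obtain ⟨z, hz, hfix, -⟩ := ContractingWith.exists_fixedPoint' (isClosed_closedBall.isComplete) hmaps hcon (x := w)
      (mem_closedBall_self hε.le) (edist_ne_top _ _)
    refine ⟨z, by rwa [mem_closedBall, dist_eq_norm] at hz, ?_⟩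
    have h1 : w - (θ z - z) = z := hfix
    linear_combination -h1
  have hex' : ∀ w : ℂ, ∃ z : ℂ, w ∈ ball (0 : ℂ) (ρ + 1) → ‖z - w‖ ≤ ε ∧ θ z = w := by
    intro w
    by_cases hw : w ∈ ball (0 : ℂ) (ρ + 1)
    · obtain ⟨z, hz⟩ := hex w hw
      exact ⟨z, fun _ => hz⟩
    · exact ⟨0, fun h => absurd h hw⟩
  choose κ hκ using hex'
  have hκb : ∀ w ∈ ball (0 : ℂ) (ρ + 1), κ w ∈ ball (0 : ℂ) (ρ + 2) := by
    intro w hw
    have hw' : ‖w‖ < ρ + 1 := by simpa using hw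
    rw [mem_ball, dist_zero_right]
    have h1 : κ w = w + (κ w - w) := by ring
    rw [h1]
    refine (norm_add_le _ _).trans_lt ?_
    have := (hκ w hw).1
    linarith
  have hκl : ∀ w ∈ ball (0 : ℂ) (ρ + 1), ∀ w' ∈ ball (0 : ℂ) (ρ + 1), ‖κ w - κ w'‖ ≤ 2 * ‖w - w'‖ := by
    intro w hw w' hw'
    have h1 := hlip (κ w) (hκb w hw) (κ w') (hκb w' hw')
    rw [(hκ w hw).2, (hκ w' hw').2] at h1
    have h2 : κ w - κ w' = (w - w') - ((w - κ w) - (w' - κ w')) := by ring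
    have h3 : ‖κ w - κ w'‖ ≤ ‖w - w'‖ + ‖(w - κ w) - (w' - κ w')‖ := by
      conv_lhs => rw [h2]
      exact norm_sub_le _ _
    linarith [norm_nonneg (κ w - κ w'), norm_nonneg (w - w')]
  refine ⟨κ, ?_, fun w hw => ⟨(hκ w hw).2, (hκ w hw).1⟩⟩
  intro w hw
  have hnb : ball (0 : ℂ) (ρ + 1) ∈ 𝓝 w := isOpen_ball.mem_nhds hw
  have hcont : ContinuousAt κ w := by
    rw [Metric.continuousAt_iff]
    intro ε' hε'
    obtain ⟨r, hr, hrb⟩ := Metric.mem_nhds_iff.1 hnb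
    refine ⟨min r (ε' / 2), lt_min hr (by positivity), fun {w'} hw' => ?_⟩
    rw [dist_eq_norm]
    have h1 := hκl w' (hrb (hw'.trans_le (min_le_left _ _))) w hw
    rw [dist_eq_norm] at hw'
    have h2 := hw'.trans_le (min_le_right _ _)
    linarith
  have hda : DifferentiableAt ℂ θ (κ w) :=
    hθ.differentiableAt (isOpen_ball.mem_nhds (ball_subset_ball (by linarith) (hκb w hw)))
  have hne : deriv θ (κ w) ≠ 0 := by
    intro h0
    -- `θ - id` has derivative `-1` at `κ w`, but it is Lipschitz with constant `1/4`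
    have h1 : HasDerivAt (fun z => θ z - z) (deriv θ (κ w) - 1) (κ w) := hda.hasDerivAt.sub (hasDerivAt_id (κ w))
    rw [h0, zero_sub] at h1
    have h2 : ‖(-1 : ℂ)‖ ≤ 1 / 4 := by
      refine h1.le_of_lip' (by norm_num) ?_
      filter_upwards [isOpen_ball.mem_nhds (hκb w hw)] with z hz
      exact hlip z hz (κ w) (hκb w hw)
    rw [norm_neg, norm_one] at h2
    linarith
  have hinv : ∀ᶠ y in 𝓝 w, θ (κ y) = y := by
    filter_upwards [hnb] with y hy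
    exact (hκ y hy).2
  exact (HasDerivAt.of_local_left_inverse hcont hda.hasDerivAt hne hinv).differentiableAt.differentiableWithinAt

end Pool.Agent.H86.LR

end

section

/-!
# LR Seq: from the approximations to the members of the family
-/

set_option autoImplicit false

open Topology Filter Metric

namespace Pool.Agent.H86.LR

attribute [-instance] ProperSMul.toContinuousSMul

open Pool.Agent.H62.EL (Gd BadSet gd_notMem isClosed_gd Ag gd_mono)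
open Pool.Agent.H62.EF (Lat)
open Pool.Agent.H46.LR (Approx)
open Pool.Agent.H41.LR (Om EvD EvO montel schottky little_picard)

variable {Λ : AddSubgroup ℂ} {B : Set ℂ} {δ : ℝ}

/-- the value of a function in normal form -/
theorem nf_value' {g : ℂ → ℂ} {z w : ℂ} (hg : MeromorphicNFAt g z) (h : Tendsto g (𝓝[≠] z) (𝓝 w)) : AnalyticAt ℂ g z ∧ g z = w := by
  have h1 := (tendsto_nhds_iff_meromorphicOrderAt_nonneg hg.meromorphicAt).1 ⟨w, h⟩
  have h2 := hg.meromorphicOrderAt_nonneg_iff_analyticAt.1 h1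
  exact ⟨h2, tendsto_nhds_unique (h2.continuousAt.tendsto.mono_left nhdsWithin_le_nhds) h⟩

/-- the approximation in normal form -/
theorem Approx.nf {K : (ℂ → ℂ) → (ℂ → ℂ) → ℂ → Prop} {φ g₀ : ℂ → ℂ} {z₀ : ℂ} {r : ℝ} (h : Approx K φ g₀ z₀ r)
    (hg₀ : DifferentiableOn ℂ g₀ (ball z₀ r)) {R ε : ℝ} (hR : ‖z₀‖ + r ≤ R) (hr : 0 < r) (hε : 0 < ε) :
    ∃ ψ g g' : ℂ → ℂ, DifferentiableOn ℂ ψ (ball 0 R) ∧ (∀ z ∈ ball (0 : ℂ) R, ‖ψ z - φ z‖ < ε) ∧ (∀ z ∈ ball (0 : ℂ) R, K ψ g z) ∧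
      (∀ z ∈ ball (0 : ℂ) R, MeromorphicNFAt g' z ∧ g =ᶠ[𝓝[≠] z] g') ∧ ∀ z ∈ ball z₀ r, AnalyticAt ℂ g' z → ‖g' z - g₀ z‖ ≤ ε := by
  have hR0 : 0 < R := by
    have := norm_nonneg z₀
    linarith
  obtain ⟨ψ, g, hψ, hg, h1, h2, h3⟩ := h R ε hR0 hε
  refine ⟨ψ, g, toMeromorphicNFOn g (ball 0 R), hψ, h1, h3, fun z hz => ⟨meromorphicNFOn_toMeromorphicNFOn g (ball 0 R) hz,
    (hg.toMeromorphicNFOn_eq_self_on_nhdsNE hz).symm⟩, fun z hz hza => ?_⟩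
  have hzR : z ∈ ball (0 : ℂ) R := by
    rw [mem_ball, dist_eq_norm] at hz
    rw [mem_ball_zero_iff]
    have h4 : z = (z - z₀) + z₀ := by ring
    rw [h4]
    exact lt_of_le_of_lt (norm_add_le _ _) (by linarith)
  have h4 : Tendsto (fun w => ‖toMeromorphicNFOn g (ball 0 R) w - g₀ w‖) (𝓝[≠] z) (𝓝 ‖toMeromorphicNFOn g (ball 0 R) z - g₀ z‖) :=
    ((hza.continuousAt.tendsto.mono_left nhdsWithin_le_nhds).sub
      (((hg₀.differentiableAt (isOpen_ball.mem_nhds hz)).continuousAt.tendsto).mono_left nhdsWithin_le_nhds)).norm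
  refine le_of_tendsto h4 ?_
  have h5 : ∀ᶠ w in 𝓝[≠] z, w ∈ ball z₀ r := nhdsWithin_le_nhds (isOpen_ball.mem_nhds hz)
  filter_upwards [h5, hg.toMeromorphicNFOn_eq_self_on_nhdsNE hzR] with w hw hw'
  rw [hw']
  exact (h2 w hw).le

/-- **The functions of the family.** -/
theorem exists_seq {𝓛 : Set (ℂ → ℂ)} {C A : Set ℂ} {K : (ℂ → ℂ) → (ℂ → ℂ) → ℂ → Prop}
    (hK1 : ∀ ψ g z, K ψ g z → ψ z ∉ B → ∃ w, w ≠ 0 ∧ w ≠ 1 ∧ (∀ L ∈ 𝓛, w ≠ L (ψ z)) ∧ Tendsto g (𝓝[≠] z) (𝓝 w))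
    (hK2 : ∀ ψ g z, K ψ g z → ψ z ∈ C → ∀ a, Tendsto g (𝓝[≠] z) (𝓝 a) → a ∈ A)
    {φ g₀ : ℂ → ℂ} {z₀ : ℂ} {r : ℝ} (hr : 0 < r) (hg₀ : DifferentiableOn ℂ g₀ (ball z₀ r)) (h : Approx K φ g₀ z₀ r)
    {a c : ℂ} (ha : a ≠ 0) (hφ : ∀ z, φ z = a * z + c) :
    ∃ G : ℕ → ℂ → ℂ, (∀ n : ℕ, G n ∈ Tm B 𝓛 C A (ball 0 ((n : ℝ) + 1))) ∧
      ∀ z ∈ ball z₀ r, φ z ∉ B → Tendsto (fun n => G n (φ z)) atTop (𝓝 (g₀ z)) := by
  have ha0 : 0 < ‖a‖ := norm_pos_iff.2 ha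
  have hε : ∀ n : ℕ, (0 : ℝ) < 1 / (4 * ((n : ℝ) + 1)) := fun n => by positivity
  have hR : ∀ n : ℕ, ‖z₀‖ + r ≤ ((n : ℝ) + 3 + ‖c‖) / ‖a‖ + (‖z₀‖ + r) := fun n => by
    have : 0 ≤ ((n : ℝ) + 3 + ‖c‖) / ‖a‖ := by positivity
    linarith
  choose ψ g g' hψ h1 h2 h3 h4 using fun n : ℕ => Approx.nf h hg₀ (hR n) hr (hε n)
  have hRb : ∀ n : ℕ, ∀ w ∈ ball (0 : ℂ) ((n : ℝ) + 3), (w - c) / a ∈ ball (0 : ℂ) (((n : ℝ) + 3 + ‖c‖) / ‖a‖ + (‖z₀‖ + r)) := by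
    intro n w hw
    rw [mem_ball_zero_iff] at hw ⊢
    rw [norm_div]
    have h5 : ‖w - c‖ / ‖a‖ < ((n : ℝ) + 3 + ‖c‖) / ‖a‖ := by
      rw [div_lt_div_iff_of_pos_right ha0]
      exact lt_of_le_of_lt (norm_sub_le _ _) (by linarith)
    have := norm_nonneg z₀
    linarith
  have hval : ∀ w : ℂ, a * ((w - c) / a) + c = w := fun w => by
    rw [mul_div_cancel₀ _ ha]
    ring
  -- the inverse functions
  have hinv : ∀ n : ℕ, ∃ κ : ℂ → ℂ, DifferentiableOn ℂ κ (ball 0 ((n : ℝ) + 1)) ∧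
      ∀ w ∈ ball (0 : ℂ) ((n : ℝ) + 1), ψ n ((κ w - c) / a) = w ∧ ‖κ w - w‖ ≤ 1 / (4 * ((n : ℝ) + 1)) := by
    intro n
    refine inverse_near (ρ := n) (ε := 1 / (4 * ((n : ℝ) + 1))) (θ := fun w => ψ n ((w - c) / a)) (hε n) ?_ ?_ ?_
    · rw [div_le_div_iff₀ (by positivity) (by norm_num)]
      have : (0 : ℝ) ≤ n := Nat.cast_nonneg n
      linarith
    · exact (hψ n).comp ((differentiable_id.sub_const c).div_const a).differentiableOn (hRb n)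
    · intro w hw
      have h5 := h1 n _ (hRb n w hw)
      rwa [hφ, hval] at h5
  choose κ hκd hκ using hinv
  have hκb : ∀ n : ℕ, ∀ w ∈ ball (0 : ℂ) ((n : ℝ) + 1), κ n w ∈ ball (0 : ℂ) ((n : ℝ) + 3) := by
    intro n w hw
    have h5 := (hκ n w hw).2
    rw [mem_ball_zero_iff] at hw ⊢
    have h6 : κ n w = (κ n w - w) + w := by ring
    rw [h6]
    refine lt_of_le_of_lt (norm_add_le _ _) ?_
    have h7 : 1 / (4 * ((n : ℝ) + 1)) ≤ 1 := by
      rw [div_le_one (by positivity)]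
      have : (0 : ℝ) ≤ n := Nat.cast_nonneg n
      linarith
    linarith
  have hσa : ∀ n : ℕ, ∀ w ∈ ball (0 : ℂ) ((n : ℝ) + 1), AnalyticAt ℂ (fun w => (κ n w - c) / a) w := by
    intro n w hw
    exact (((hκd n).analyticAt (isOpen_ball.mem_nhds hw)).sub analyticAt_const).div_const
  -- the behaviour of `g'`
  have hg'1 : ∀ n : ℕ, ∀ w ∈ ball (0 : ℂ) ((n : ℝ) + 1), w ∉ B → AnalyticAt ℂ (g' n) ((κ n w - c) / a) ∧ g' n ((κ n w - c) / a) ≠ 0 ∧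
      g' n ((κ n w - c) / a) ≠ 1 ∧ ∀ L ∈ 𝓛, g' n ((κ n w - c) / a) ≠ L w := by
    intro n w hw hwB
    have hz := hRb n _ (hκb n w hw)
    obtain ⟨h5, h6⟩ := h3 n _ hz
    obtain ⟨v, hv0, hv1, hvL, hv⟩ := hK1 _ _ _ (h2 n _ hz) (by rwa [(hκ n w hw).1])
    obtain ⟨h7, h8⟩ := nf_value' h5 (hv.congr' h6)
    rw [(hκ n w hw).1] at hvL
    rw [h8]
    exact ⟨h7, hv0, hv1, hvL⟩
  refine ⟨fun (n : ℕ) w => g' n ((κ n w - c) / a), fun (n : ℕ) => ⟨fun w hw => ?_, fun w hw hwB => ?_, fun b hb hbC v hv => ?_⟩, fun z hz hzB => ?_⟩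
  · exact (h3 n _ (hRb n _ (hκb n w hw))).1.meromorphicAt.comp_analyticAt (g := fun w => (κ n w - c) / a) (hσa n w hw)
  · obtain ⟨h5, h6, h7, h8⟩ := hg'1 n w hw hwB
    exact ⟨AnalyticAt.comp (g := g' n) (f := fun w => (κ n w - c) / a) h5 (hσa n w hw), h6, h7, h8⟩
  · -- the values at the points of `C`
    have hz := hRb n _ (hκb n b hb)
    have hmer := (h3 n _ hz).1.meromorphicAt
    have hσ : Tendsto (fun w => (κ n w - c) / a) (𝓝[≠] b) (𝓝[≠] ((κ n b - c) / a)) := by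
      refine tendsto_nhdsWithin_of_tendsto_nhds_of_eventually_within _ ((hσa n b hb).continuousAt.tendsto.mono_left nhdsWithin_le_nhds) ?_
      have h5 : ∀ᶠ w in 𝓝[≠] b, w ∈ ball (0 : ℂ) ((n : ℝ) + 1) := nhdsWithin_le_nhds (isOpen_ball.mem_nhds hb)
      filter_upwards [h5, self_mem_nhdsWithin] with w hw hwb heq
      have h6 : (κ n w - c) / a = (κ n b - c) / a := heq
      have h7 := (hκ n w hw).1
      rw [h6, (hκ n b hb).1] at h7
      exact hwb h7.symm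
    have hK := h2 n _ hz
    have hmem := hK2 _ _ _ hK (by rwa [(hκ n b hb).1])
    rcases lt_or_ge (meromorphicOrderAt (g' n) ((κ n b - c) / a)) 0 with ho | ho
    · exfalso
      have h5 := (tendsto_cobounded_of_meromorphicOrderAt_neg ho).comp hσ
      rw [← tendsto_norm_atTop_iff_cobounded] at h5
      exact not_tendsto_nhds_of_tendsto_atTop h5 _ hv.norm
    · obtain ⟨v', hv'⟩ := tendsto_nhds_of_meromorphicOrderAt_nonneg hmer ho
      have h5 := hmem v' (hv'.congr' (h3 n _ hz).2.symm)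
      rwa [tendsto_nhds_unique hv (hv'.comp hσ)]
  · -- convergence
    have hzn : Tendsto (fun n => (κ n (φ z) - c) / a) atTop (𝓝 z) := by
      have h5 : Tendsto (fun n => κ n (φ z)) atTop (𝓝 (φ z)) := by
        rw [tendsto_iff_norm_sub_tendsto_zero]
        refine squeeze_zero' (Eventually.of_forall fun n => norm_nonneg _) (g := fun n : ℕ => 1 / (4 * ((n : ℝ) + 1))) ?_ ?_
        · filter_upwards [eventually_gt_atTop ⌈‖φ z‖⌉₊] with n hn
          refine (hκ n (φ z) ?_).2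
          rw [mem_ball_zero_iff]
          have h6 : ‖φ z‖ ≤ ⌈‖φ z‖⌉₊ := Nat.le_ceil _
          have h7 : ((⌈‖φ z‖⌉₊ : ℕ) : ℝ) < n := by exact_mod_cast hn
          linarith
        · have h6 : Tendsto (fun n : ℕ => 1 / ((n : ℝ) + 1)) atTop (𝓝 0) := tendsto_one_div_add_atTop_nhds_zero_nat
          have h7 := h6.const_mul (1 / 4 : ℝ)
          rw [mul_zero] at h7
          refine h7.congr fun n => ?_
          rw [div_mul_div_comm, one_mul]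
      have h6 := (h5.sub_const c).div_const a
      have h7 : (φ z - c) / a = z := by
        rw [hφ, add_sub_cancel_right, mul_div_cancel_left₀ _ ha]
      rwa [h7] at h6
    have hball : ∀ᶠ n in atTop, (κ n (φ z) - c) / a ∈ ball z₀ r := hzn.eventually (isOpen_ball.mem_nhds hz)
    have h5 : Tendsto (fun n => g₀ ((κ n (φ z) - c) / a)) atTop (𝓝 (g₀ z)) :=
      (hg₀.differentiableAt (isOpen_ball.mem_nhds hz)).continuousAt.tendsto.comp hzn
    have h6 : Tendsto (fun n => g' n ((κ n (φ z) - c) / a) - g₀ ((κ n (φ z) - c) / a)) atTop (𝓝 0) := by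
      refine squeeze_zero_norm' (a := fun n : ℕ => 1 / (4 * ((n : ℝ) + 1))) ?_ ?_
      · filter_upwards [hball, eventually_gt_atTop ⌈‖φ z‖⌉₊] with n hn hn'
        have hφn : φ z ∈ ball (0 : ℂ) ((n : ℝ) + 1) := by
          rw [mem_ball_zero_iff]
          have h6 : ‖φ z‖ ≤ ⌈‖φ z‖⌉₊ := Nat.le_ceil _
          have h7 : ((⌈‖φ z‖⌉₊ : ℕ) : ℝ) < n := by exact_mod_cast hn'
          linarith
        exact h4 n _ hn (hg'1 n _ hφn hzB).1
      · have h6 : Tendsto (fun n : ℕ => 1 / ((n : ℝ) + 1)) atTop (𝓝 0) := tendsto_one_div_add_atTop_nhds_zero_nat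
        have h7 := h6.const_mul (1 / 4 : ℝ)
        rw [mul_zero] at h7
        refine h7.congr fun n => ?_
        rw [div_mul_div_comm, one_mul]
    have h7 := h6.add h5
    simp only [sub_add_cancel, zero_add] at h7
    exact h7

/-- the case of a constant: Picard's theorem -/
theorem const_case {K : (ℂ → ℂ) → (ℂ → ℂ) → ℂ → Prop} {N : Set ℂ} (hN : IsClosed N)
    (hK1 : ∀ ψ g z, K ψ g z → ψ z ∉ N → ∃ w, w ≠ 0 ∧ w ≠ 1 ∧ Tendsto g (𝓝[≠] z) (𝓝 w))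
    {φ g₀ : ℂ → ℂ} {z₀ : ℂ} {r : ℝ} (hr : 0 < r) (hg₀ : DifferentiableOn ℂ g₀ (ball z₀ r)) (h : Approx K φ g₀ z₀ r)
    {c : ℂ} (hc : c ∉ N) (hφ : ∀ z, φ z = c) : ∀ z ∈ ball z₀ r, g₀ z = g₀ z₀ := by
  obtain ⟨η, hη, hηN⟩ := Metric.isOpen_iff.1 hN.isOpen_compl c hc
  have hε : ∀ n : ℕ, (0 : ℝ) < min η (1 / ((n : ℝ) + 1)) := fun n => by positivity
  have hR : ∀ n : ℕ, ‖z₀‖ + r ≤ (n : ℝ) + (‖z₀‖ + r) := fun n => by
    have : (0 : ℝ) ≤ n := Nat.cast_nonneg n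
    linarith
  choose ψ g g' hψ h1 h2 h3 h4 using fun n : ℕ => Approx.nf h hg₀ (hR n) hr (hε n)
  set 𝒰 : Ultrafilter ℕ := hyperfilter ℕ with h𝒰def
  have h𝒰 : (𝒰 : Filter ℕ) ≤ atTop := Nat.hyperfilter_le_atTop
  have hgood : ∀ n : ℕ, ∀ z ∈ ball (0 : ℂ) ((n : ℝ) + (‖z₀‖ + r)), AnalyticAt ℂ (g' n) z ∧ g' n z ≠ 0 ∧ g' n z ≠ 1 := by
    intro n z hz
    obtain ⟨h5, h6⟩ := h3 n z hz
    obtain ⟨v, hv0, hv1, hv⟩ := hK1 _ _ _ (h2 n z hz) (by
      have h7 := h1 n z hz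
      rw [hφ] at h7
      exact hηN (by rw [mem_ball, dist_eq_norm]; exact h7.trans_le (min_le_left _ _)))
    obtain ⟨h7, h8⟩ := nf_value' h5 (hv.congr' h6)
    rw [h8]
    exact ⟨h7, hv0, hv1⟩
  have hEvO : EvO 𝒰 g' Set.univ := by
    intro z _
    refine ⟨1, one_pos, ?_⟩
    have h5 : ∀ᶠ n : ℕ in (𝒰 : Filter ℕ), ‖z‖ + 1 ≤ (n : ℝ) :=
      (tendsto_natCast_atTop_atTop.mono_left h𝒰).eventually_ge_atTop _
    filter_upwards [h5] with n hn
    have hsub : ball z 1 ⊆ ball (0 : ℂ) ((n : ℝ) + (‖z₀‖ + r)) := by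
      intro w hw
      rw [mem_ball, dist_eq_norm] at hw
      rw [mem_ball_zero_iff]
      have h6 : w = (w - z) + z := by ring
      rw [h6]
      have := norm_nonneg z₀
      exact lt_of_le_of_lt (norm_add_le _ _) (by linarith)
    exact ⟨fun w hw => (hgood n w (hsub hw)).1.differentiableAt.differentiableWithinAt, fun w hw => ⟨(hgood n w (hsub hw)).2.1, (hgood n w (hsub hw)).2.2⟩⟩
  have hzR : ∀ n : ℕ, ∀ z ∈ ball z₀ r, z ∈ ball (0 : ℂ) ((n : ℝ) + (‖z₀‖ + r)) := by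
    intro n z hz
    rw [mem_ball, dist_eq_norm] at hz
    rw [mem_ball_zero_iff]
    have h6 : z = (z - z₀) + z₀ := by ring
    rw [h6]
    have : (0 : ℝ) ≤ n := Nat.cast_nonneg n
    exact lt_of_le_of_lt (norm_add_le _ _) (by linarith)
  have hconv : ∀ z ∈ ball z₀ r, Tendsto (fun n => g' n z) 𝒰 (𝓝 (g₀ z)) := by
    intro z hz
    rw [tendsto_iff_norm_sub_tendsto_zero]
    refine squeeze_zero (fun n => norm_nonneg _) (fun n => (h4 n z hz (hgood n z (hzR n z hz)).1).trans (min_le_right _ _)) ?_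
    exact tendsto_one_div_add_atTop_nhds_zero_nat.mono_left h𝒰
  have hz₀ : z₀ ∈ ball z₀ r := mem_ball_self hr
  obtain ⟨G, hGd, hG, hcase⟩ := montel schottky isOpen_univ isPreconnected_univ hEvO (Set.mem_univ z₀) (M := ‖g₀ z₀‖ + 1)
    (((hconv z₀ hz₀).norm.eventually_lt_const (lt_add_one _)).mono fun n hn => hn.le)
  have hCV := cv_of_tlu isOpen_univ hGd hG
  have hGg : ∀ z ∈ ball z₀ r, G z = g₀ z := fun z hz => tendsto_nhds_unique (hCV.pt (Set.mem_univ z)) (hconv z hz)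
  intro z hz
  rw [← hGg z hz, ← hGg z₀ hz₀]
  rcases hcase with hO | h0 | h0
  · exact little_picard (differentiableOn_univ.1 hGd) (fun w => hO w (Set.mem_univ w)) z z₀
  · rw [h0 z (Set.mem_univ z), h0 z₀ (Set.mem_univ z₀)]
  · rw [h0 z (Set.mem_univ z), h0 z₀ (Set.mem_univ z₀)]

end Pool.Agent.H86.LR

end
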