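import Pool.Agent.H94.CB.M240

/-! The parts of this file: H86.LR.CaseI, H86.LR.CaseN. -/

section

/-!
# LR CaseI: three constant sections, finitely many values over a point
-/

set_option autoImplicit false

open Topology Filter Metric

namespace Pool.Agent.H86.LR

attribute [-instance] ProperSMul.toContinuousSMul

open Pool.Agent.H62.EL (Gd BadSet gd_notMem isClosed_gd Ag gd_mono)
open Pool.Agent.H62.EF (Lat)

variable {Λ : AddSubgroup ℂ} {B : Set ℂ} {δ : ℝ}

/-- the Möbius transformations which permute `0`, `1`, `∞` -/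
noncomputable def TI (i : Fin 3) (f : ℂ → ℂ) (z : ℂ) : ℂ := ![f z, (f z)⁻¹, 1 - f z] i

/-- the hypotheses of the case (I) -/
structure DatI (Λ : AddSubgroup ℂ) (B : Set ℂ) (δ : ℝ) (b₀ : ℂ) (A : Set ℂ) : Prop where
  lat : Lat Λ
  bad : BadSet B Λ δ
  mem : b₀ ∈ B
  fin : A.Finite
  zero : (0 : ℂ) ∈ A
  inv : ∀ a ∈ A, a⁻¹ ∈ A
  sub : ∀ a ∈ A, 1 - a ∈ A

/-- a transformation of the functions preserves the family -/
theorem ti_mem {A C Ω : Set ℂ} (h0 : (0 : ℂ) ∈ A) (hi : ∀ a ∈ A, a⁻¹ ∈ A) (hs : ∀ a ∈ A, 1 - a ∈ A) {f : ℂ → ℂ}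
    (hf : f ∈ Tm B ∅ C A Ω) (i : Fin 3) : TI i f ∈ Tm B ∅ C A Ω := by
  fin_cases i
  · exact hf
  · show (fun z => (f z)⁻¹) ∈ Tm B ∅ C A Ω
    refine ⟨fun z hz => (hf.1 z hz).inv, fun z hz hzB => ?_, fun b hb hbC a ha => ?_⟩
    · obtain ⟨h1, h2, h3, -⟩ := hf.2.1 z hz hzB
      exact ⟨h1.inv h2, inv_ne_zero h2, fun h => h3 (inv_eq_one.1 h), fun L hL => absurd hL (Set.notMem_empty L)⟩
    · by_cases h : a = 0
      · rw [h]
        exact h0
      · have h1 : Tendsto f (𝓝[≠] b) (𝓝 a⁻¹) := by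
          have h2 := ha.inv₀ h
          simpa using h2
        have h2 := hi _ (hf.2.2 b hb hbC _ h1)
        rwa [inv_inv] at h2
  · show (fun z => 1 - f z) ∈ Tm B ∅ C A Ω
    refine ⟨fun z hz => (MeromorphicAt.const 1 z).sub (hf.1 z hz), fun z hz hzB => ?_, fun b hb hbC a ha => ?_⟩
    · obtain ⟨h1, h2, h3, -⟩ := hf.2.1 z hz hzB
      refine ⟨analyticAt_const.sub h1, fun h => h3 (sub_eq_zero.1 h).symm, fun h => h2 ?_, fun L hL => absurd hL (Set.notMem_empty L)⟩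
      have h' : 1 - f z = 1 := h
      linear_combination -h'
    · have h1 : Tendsto f (𝓝[≠] b) (𝓝 (1 - a)) := by
        have h2 := ha.const_sub 1
        simpa using h2
      have h2 := hs _ (hf.2.2 b hb hbC _ h1)
      rwa [sub_sub_cancel] at h2

/-- translations preserve the family -/
theorem tm_trans {𝓛 : Set (ℂ → ℂ)} {C A : Set ℂ} (hB : BadSet B Λ δ) (hL : ∀ L ∈ 𝓛, ∀ z, ∀ l ∈ Λ, L (z + l) = L z)
    (hC : ∀ b ∈ C, ∀ l ∈ Λ, b + l ∈ C) {f : ℂ → ℂ} (hf : f ∈ Tm B 𝓛 C A Set.univ) {l : ℂ} (hl : l ∈ Λ) :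
    (fun z => f (z + l)) ∈ Tm B 𝓛 C A Set.univ := by
  have han : ∀ z : ℂ, AnalyticAt ℂ (fun z : ℂ => z + l) z := fun z => analyticAt_id.add analyticAt_const
  refine ⟨fun z _ => ?_, fun z _ hz => ?_, fun b _ hb a ha => ?_⟩
  · exact (hf.1 (z + l) (Set.mem_univ _)).comp_analyticAt (f := f) (g := fun z : ℂ => z + l) (han z)
  · obtain ⟨h1, h2, h3, h4⟩ := hf.2.1 (z + l) (Set.mem_univ _) ((hB.notMem_add hl).2 hz)
    refine ⟨AnalyticAt.comp (g := f) (f := fun z : ℂ => z + l) h1 (han z), h2, h3, fun L hL' => ?_⟩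
    rw [← hL L hL' z l hl]
    exact h4 L hL'
  · refine hf.2.2 (b + l) (Set.mem_univ _) (hC b hb l hl) a ?_
    have h1 : Tendsto (fun z : ℂ => z - l) (𝓝[≠] (b + l)) (𝓝[≠] b) := by
      refine tendsto_nhdsWithin_of_tendsto_nhds_of_eventually_within _ ?_ ?_
      · have h2 : ContinuousAt (fun z : ℂ => z - l) (b + l) := continuousAt_id.sub continuousAt_const
        have h3 := h2.tendsto
        rw [add_sub_cancel_right] at h3
        exact h3.mono_left nhdsWithin_le_nhds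
      · filter_upwards [self_mem_nhdsWithin] with w hw h2
        exact hw (by
          have h3 : w - l = b := h2
          rw [← h3, sub_add_cancel]
          rfl)
    have h2 := ha.comp h1
    refine h2.congr fun z => ?_
    show f (z - l + l) = f z
    rw [sub_add_cancel]

/-- the case (I) -/
theorem DatI.fam {b₀ : ℂ} {A : Set ℂ} (D : DatI Λ B δ b₀ A) :
    Fam Λ B δ (0 : Fin 3) (Tm B ∅ {b | b - b₀ ∈ Λ} A) TI := by
  have hB := D.bad
  have hδ := hB.pos
  have hCB : {b | b - b₀ ∈ Λ} ⊆ B := by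
    intro b hb
    have h1 := hB.inv b₀ D.mem _ hb
    rwa [add_sub_cancel] at h1
  have hCinv : ∀ b ∈ {b | b - b₀ ∈ Λ}, ∀ l ∈ Λ, b + l ∈ {b | b - b₀ ∈ Λ} := by
    intro b hb l hl
    show b + l - b₀ ∈ Λ
    rw [add_sub_right_comm]
    exact Λ.add_mem hb hl
  have hCpunct : ∀ {p c : ℂ}, ∀ {t : ℝ}, ∀ b ∈ HPl p c t, ∀ᶠ z in 𝓝[≠] b, z ∈ HPl p c t ∧ z ∉ B := by
    intro p c t b hb
    have h1 : ∀ᶠ z in 𝓝[≠] b, z ∈ HPl p c t := nhdsWithin_le_nhds ((isOpen_hpl p c t).mem_nhds hb)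
    exact h1.and (eventually_notMem hB b)
  refine ⟨D.lat, hB, fun h => Tm.mono h, fun hf z hz hzB => ⟨(hf.2.1 z hz hzB).1, (hf.2.1 z hz hzB).2.1⟩, fun hf l hl => ?_, fun hf i => ?_,
    fun i f l _ z => rfl, fun f => rfl, ?_, ?_, ?_⟩
  · exact tm_trans hB (fun L hL => absurd hL (Set.notMem_empty L)) hCinv hf hl
  · exact ti_mem D.zero D.inv D.sub hf i
  · -- compactness
    intro 𝒰 F R hR hF
    rcases cpt hB (fun L hL => absurd hL (Set.notMem_empty L)) hCB D.fin hR hF with h | h | h | ⟨L, hL, -⟩ | h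
    · exact Or.inl h
    · exact Or.inr ⟨0, h⟩
    · refine Or.inr ⟨2, fun z₀ hz₀ z hz => ?_⟩
      have h1 := (h z₀ hz₀ z hz).const_sub 1
      rw [sub_self] at h1
      exact h1
    · exact absurd hL (Set.notMem_empty L)
    · exact Or.inr ⟨1, h⟩
  · -- near the section
    obtain ⟨η, hη, hsepA⟩ : ∃ η : ℝ, 0 < η ∧ ∀ a ∈ A, ‖a‖ ≤ η → a = 0 := by
      have h1 : (A \ {0}).Finite := D.fin.subset Set.sdiff_subset
      by_cases h2 : (A \ {0}).Nonempty
      · obtain ⟨a₀, ha₀, hmin⟩ := Set.exists_min_image _ (fun a : ℂ => ‖a‖) h1 h2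
        have h3 : 0 < ‖a₀‖ := norm_pos_iff.2 fun h => ha₀.2 h
        refine ⟨‖a₀‖ / 2, by positivity, fun a ha hle => ?_⟩
        by_contra hne
        have h4 : ‖a₀‖ ≤ ‖a‖ := hmin a ⟨ha, hne⟩
        linarith
      · refine ⟨1, one_pos, fun a ha _ => ?_⟩
        by_contra hne
        exact h2 ⟨a, ha, hne⟩
    refine ⟨min η (1 / 4), 1 / 2, lt_min hη (by norm_num), by norm_num, ?_, ?_⟩
    · intro p c hc f hf hle
      have hm : min η (1 / 4) < 1 / 2 := lt_of_le_of_lt (min_le_right _ _) (by norm_num)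
      have h1 := hole_half hB hc (q := fun z => 1 - f z) (ε := min η (1 / 4)) hm (fun z hz hzB => by
        obtain ⟨h1, h2, h3, -⟩ := hf.2.1 z hz hzB
        exact ⟨analyticAt_const.sub h1, fun h => h3 (sub_eq_zero.1 h).symm⟩)
        (fun b hb _ => (MeromorphicAt.const 1 b).sub (hf.1 b hb)) (fun z hz hzG => by
          rw [sub_sub_cancel_left, norm_neg]
          exact hle z hz hzG)
      have h2 : ∀ z ∈ HPl p c (2 * δ), z ∉ B → ‖f z‖ ≤ min η (1 / 4) := by
        intro z hz hzB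
        have h3 := h1 z hz hzB
        rwa [sub_sub_cancel_left, norm_neg] at h3
      have h3 := kl D.lat hB b₀ hc (E := f) (t := 2 * δ) (M := min η (1 / 4)) (fun z hz hzB => (hf.2.1 z (hpl_mono (by linarith) hz) hzB).1) h2 (by
        intro b hb hbΛ
        have hb0 := hpl_mono (s := 0) (t := 2 * δ) (by linarith) hb
        have hmer := hf.1 b hb0
        have hord : 0 ≤ meromorphicOrderAt f b := by
          by_contra hcon
          have h4 := tendsto_cobounded_of_meromorphicOrderAt_neg (not_le.1 hcon)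
          rw [← tendsto_norm_atTop_iff_cobounded] at h4
          obtain ⟨z, hz1, hz2, hz3⟩ := ((h4.eventually_gt_atTop (min η (1 / 4))).and (hCpunct b hb)).exists
          exact absurd (h2 z hz2 hz3) (not_le.2 hz1)
        obtain ⟨a, ha⟩ := tendsto_nhds_of_meromorphicOrderAt_nonneg hmer hord
        have haA := hf.2.2 b hb0 hbΛ a ha
        have hale : ‖a‖ ≤ η := (le_of_tendsto ha.norm ((hCpunct b hb).mono fun z hz => h2 z hz.1 hz.2)).trans (min_le_left _ _)
        rwa [hsepA a haA hale] at ha)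
      obtain ⟨z, hz, hzG⟩ := exists_gd_hpl D.lat hB (p := p) hc (2 * δ)
      have hzB := gd_notMem hδ hzG
      exact (hf.2.1 z (hpl_mono (by linarith) hz) hzB).2.1 (h3 z hz hzB)
    · intro i hi Ω f hf z hz hzG hle
      have hzB := gd_notMem hδ hzG
      obtain ⟨-, h2, -, -⟩ := hf.2.1 z hz hzB
      have hle' : ‖f z‖ ≤ 1 / 4 := hle.trans (min_le_right _ _)
      fin_cases i
      · exact absurd rfl hi
      · show 1 / 2 ≤ ‖(f z)⁻¹‖
        rw [norm_inv]
        have h3 : 0 < ‖f z‖ := norm_pos_iff.2 h2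
        rw [le_inv_comm₀ (by norm_num) h3]
        refine hle'.trans (by norm_num)
      · show 1 / 2 ≤ ‖1 - f z‖
        have h3 := norm_sub_norm_le (1 : ℂ) (f z)
        rw [norm_one] at h3
        linarith
  · -- pairs
    intro δ₀ hδ₀
    obtain ⟨η, hη, hsepA⟩ : ∃ η : ℝ, 0 < η ∧ ∀ a ∈ A, ∀ a' ∈ A, ‖a / a' - 1‖ ≤ η → a' ≠ 0 → a = a' := by
      have h1 : ((A ×ˢ A) ∩ {x | x.2 ≠ 0 ∧ x.1 ≠ x.2}).Finite := (D.fin.prod D.fin).subset Set.inter_subset_left
      by_cases h2 : ((A ×ˢ A) ∩ {x | x.2 ≠ 0 ∧ x.1 ≠ x.2}).Nonempty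
      · obtain ⟨x, ⟨-, hx0, hx1⟩, hmin⟩ := Set.exists_min_image _ (fun x : ℂ × ℂ => ‖x.1 / x.2 - 1‖) h1 h2
        have h3 : 0 < ‖x.1 / x.2 - 1‖ := norm_pos_iff.2 fun h => hx1 (by
          rw [sub_eq_zero, div_eq_one_iff_eq hx0] at h
          exact h)
        refine ⟨‖x.1 / x.2 - 1‖ / 2, by positivity, fun a ha a' ha' hle h0 => ?_⟩
        by_contra hne
        have h4 : ‖x.1 / x.2 - 1‖ ≤ ‖a / a' - 1‖ := hmin (a, a') ⟨⟨ha, ha'⟩, h0, hne⟩
        linarith
      · refine ⟨1, one_pos, fun a ha a' ha' _ h0 => ?_⟩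
        by_contra hne
        exact h2 ⟨(a, a'), ⟨ha, ha'⟩, h0, hne⟩
    set η' : ℝ := min η (1 / 4) with hη'
    have hη'0 : 0 < η' := lt_min hη (by norm_num)
    have hη'1 : η' ≤ 1 / 4 := min_le_right _ _
    have hη'2 : η' < 1 / 2 := by linarith
    refine ⟨η' * min δ₀ (δ₀ * δ₀), by positivity, fun p c hc f hf g hg hfar hle => ?_⟩
    have hm1 : min δ₀ (δ₀ * δ₀) ≤ δ₀ := min_le_left _ _
    have hm2 : min δ₀ (δ₀ * δ₀) ≤ δ₀ * δ₀ := min_le_right _ _
    -- the lower bounds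
    have hlow : ∀ z ∈ HPl p c 0, z ∈ Gd B δ → δ₀ ≤ ‖g z‖ ∧ δ₀ ≤ ‖g z - 1‖ ∧ δ₀ ≤ ‖f z - 1‖ := by
      intro z hz hzG
      have h2 := hfar 2 z hz hzG
      have h3 : ‖1 - f z‖ = ‖f z - 1‖ := norm_sub_rev _ _
      have h4 : ‖1 - g z‖ = ‖g z - 1‖ := norm_sub_rev _ _
      exact ⟨(hfar 0 z hz hzG).2, h4 ▸ h2.2, h3 ▸ h2.1⟩
    have hfB := hf.2.1
    have hgB := hg.2.1
    have hq1 := hole_half hB hc (q := fun z => f z / g z) (ε := η') hη'2 (fun z hz hzB => by
      obtain ⟨h1, h2, h3, -⟩ := hfB z hz hzB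
      obtain ⟨h4, h5, h6, -⟩ := hgB z hz hzB
      exact ⟨h1.div h4 h5, div_ne_zero h2 h5⟩) (fun b hb _ => (hf.1 b hb).div (hg.1 b hb)) (fun z hz hzG => by
        obtain ⟨h1, -, -⟩ := hlow z hz hzG
        have h0 : g z ≠ 0 := (hgB z hz (gd_notMem hδ hzG)).2.1
        have h2 : f z / g z - 1 = (f z - g z) / g z := by field_simp
        rw [h2, norm_div, div_le_iff₀ (norm_pos_iff.2 h0)]
        refine (hle z hz hzG).trans (mul_le_mul_of_nonneg_left (hm1.trans h1) hη'0.le))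
    have hq2 := hole_half hB hc (q := fun z => (f z - 1) / (g z - 1)) (ε := η') hη'2 (fun z hz hzB => by
      obtain ⟨h1, h2, h3, -⟩ := hfB z hz hzB
      obtain ⟨h4, h5, h6, -⟩ := hgB z hz hzB
      exact ⟨(h1.sub analyticAt_const).div (h4.sub analyticAt_const) (sub_ne_zero.2 h6), div_ne_zero (sub_ne_zero.2 h3) (sub_ne_zero.2 h6)⟩)
      (fun b hb _ => ((hf.1 b hb).sub (MeromorphicAt.const 1 b)).div ((hg.1 b hb).sub (MeromorphicAt.const 1 b))) (fun z hz hzG => by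
        obtain ⟨-, h1, -⟩ := hlow z hz hzG
        have h0 : g z - 1 ≠ 0 := sub_ne_zero.2 (hgB z hz (gd_notMem hδ hzG)).2.2.1
        have h2 : (f z - 1) / (g z - 1) - 1 = (f z - g z) / (g z - 1) := by
          field_simp
          ring
        rw [h2, norm_div, div_le_iff₀ (norm_pos_iff.2 h0)]
        refine (hle z hz hzG).trans (mul_le_mul_of_nonneg_left (hm1.trans h1) hη'0.le))
    have hq3 := hole_half hB hc (q := fun z => f z * (g z - 1) / (g z * (f z - 1))) (ε := η') hη'2 (fun z hz hzB => by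
      obtain ⟨h1, h2, h3, -⟩ := hfB z hz hzB
      obtain ⟨h4, h5, h6, -⟩ := hgB z hz hzB
      exact ⟨(h1.mul (h4.sub analyticAt_const)).div (h4.mul (h1.sub analyticAt_const)) (mul_ne_zero h5 (sub_ne_zero.2 h3)),
        div_ne_zero (mul_ne_zero h2 (sub_ne_zero.2 h6)) (mul_ne_zero h5 (sub_ne_zero.2 h3))⟩)
      (fun b hb _ => ((hf.1 b hb).mul ((hg.1 b hb).sub (MeromorphicAt.const 1 b))).div ((hg.1 b hb).mul ((hf.1 b hb).sub (MeromorphicAt.const 1 b))))
      (fun z hz hzG => by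
        obtain ⟨h1, -, h1'⟩ := hlow z hz hzG
        have h0 : g z ≠ 0 := (hgB z hz (gd_notMem hδ hzG)).2.1
        have h0' : f z - 1 ≠ 0 := sub_ne_zero.2 (hfB z hz (gd_notMem hδ hzG)).2.2.1
        have h2 : f z * (g z - 1) / (g z * (f z - 1)) - 1 = (g z - f z) / (g z * (f z - 1)) := by
          field_simp
          ring
        rw [h2, norm_div, norm_mul, div_le_iff₀ (mul_pos (norm_pos_iff.2 h0) (norm_pos_iff.2 h0')), norm_sub_rev]
        refine (hle z hz hzG).trans (mul_le_mul_of_nonneg_left (hm2.trans (mul_le_mul h1 h1' hδ₀.le (norm_nonneg _))) hη'0.le))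
    have h20 : ∀ {z : ℂ}, z ∈ HPl p c (2 * δ) → z ∈ HPl p c 0 := fun {z} hz => hpl_mono (by linarith) hz
    -- the product
    set E : ℂ → ℂ := fun z => (f z / g z - 1) * ((f z - 1) / (g z - 1) - 1) * (f z * (g z - 1) / (g z * (f z - 1)) - 1) with hE
    have hEle : ∀ z ∈ HPl p c (2 * δ), z ∉ B → ‖E z‖ ≤ ‖f z / g z - 1‖ ∧ ‖E z‖ ≤ ‖(f z - 1) / (g z - 1) - 1‖ ∧
        ‖E z‖ ≤ ‖f z * (g z - 1) / (g z * (f z - 1)) - 1‖ := by
      intro z hz hzB
      have h1 := hq1 z hz hzB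
      have h2 := hq2 z hz hzB
      have h3 := hq3 z hz hzB
      have n1 := norm_nonneg (f z / g z - 1)
      have n2 := norm_nonneg ((f z - 1) / (g z - 1) - 1)
      have n3 := norm_nonneg (f z * (g z - 1) / (g z * (f z - 1)) - 1)
      have hE' : ‖E z‖ = ‖f z / g z - 1‖ * ‖(f z - 1) / (g z - 1) - 1‖ * ‖f z * (g z - 1) / (g z * (f z - 1)) - 1‖ := by
        rw [hE]
        simp only [norm_mul]
      rw [hE']
      have m12 := mul_nonneg n1 n2
      have m23 := mul_nonneg n2 n3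
      have m13 := mul_nonneg n1 n3
      refine ⟨?_, ?_, ?_⟩
      · calc ‖f z / g z - 1‖ * ‖(f z - 1) / (g z - 1) - 1‖ * ‖f z * (g z - 1) / (g z * (f z - 1)) - 1‖
            ≤ ‖f z / g z - 1‖ * 1 * 1 := by gcongr <;> linarith
          _ = _ := by ring
      · calc ‖f z / g z - 1‖ * ‖(f z - 1) / (g z - 1) - 1‖ * ‖f z * (g z - 1) / (g z * (f z - 1)) - 1‖
            ≤ 1 * ‖(f z - 1) / (g z - 1) - 1‖ * 1 := by gcongr <;> linarith
          _ = _ := by ring
      · calc ‖f z / g z - 1‖ * ‖(f z - 1) / (g z - 1) - 1‖ * ‖f z * (g z - 1) / (g z * (f z - 1)) - 1‖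
            ≤ 1 * 1 * ‖f z * (g z - 1) / (g z * (f z - 1)) - 1‖ := by gcongr <;> linarith
          _ = _ := by ring
    have hkl := kl D.lat hB b₀ hc (E := E) (t := 2 * δ) (M := 1) (fun z hz hzB => by
      obtain ⟨h1, h2, h3, -⟩ := hfB z (h20 hz) hzB
      obtain ⟨h4, h5, h6, -⟩ := hgB z (h20 hz) hzB
      have hf1 : AnalyticAt ℂ (fun z => f z - 1) z := h1.sub analyticAt_const
      have hg1 : AnalyticAt ℂ (fun z => g z - 1) z := h4.sub analyticAt_const
      exact (((h1.div h4 h5).sub analyticAt_const).mul ((hf1.div hg1 (sub_ne_zero.2 h6)).sub analyticAt_const)).mul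
        (((h1.mul hg1).div (h4.mul hf1) (mul_ne_zero h5 (sub_ne_zero.2 h3))).sub analyticAt_const))
      (fun z hz hzB => ((hEle z hz hzB).1.trans (hq1 z hz hzB)).trans (by linarith)) (by
      intro b hb hbΛ
      have hb0 := h20 hb
      have hp := hCpunct b hb
      have hE1 : ∀ᶠ z in 𝓝[≠] b, ‖E z‖ ≤ ‖f z / g z - 1‖ := hp.mono fun z hz => (hEle z hz.1 hz.2).1
      have hE2 : ∀ᶠ z in 𝓝[≠] b, ‖E z‖ ≤ ‖(f z - 1) / (g z - 1) - 1‖ := hp.mono fun z hz => (hEle z hz.1 hz.2).2.1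
      have hE3 : ∀ᶠ z in 𝓝[≠] b, ‖E z‖ ≤ ‖f z * (g z - 1) / (g z * (f z - 1)) - 1‖ := hp.mono fun z hz => (hEle z hz.1 hz.2).2.2
      -- the comparison of `f` and `g`
      have hfg : ∀ᶠ z in 𝓝[≠] b, ‖g z‖ ≤ 2 * ‖f z‖ ∧ ‖f z‖ ≤ 2 * ‖g z‖ := by
        filter_upwards [hp] with z hz
        have h1 := hq1 z hz.1 hz.2
        have h0 : g z ≠ 0 := (hgB z (h20 hz.1) hz.2).2.1
        have hgpos : 0 < ‖g z‖ := norm_pos_iff.2 h0
        have h2 : f z / g z - 1 = (f z - g z) / g z := by field_simp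
        rw [h2, norm_div, div_le_iff₀ hgpos] at h1
        have h3 := norm_sub_norm_le (g z) (g z - f z)
        rw [sub_sub_cancel, norm_sub_rev] at h3
        have h4 := norm_add_le (f z - g z) (g z)
        rw [sub_add_cancel] at h4
        constructor <;> nlinarith
      by_cases hord : 0 ≤ meromorphicOrderAt f b
      · obtain ⟨a, ha⟩ := tendsto_nhds_of_meromorphicOrderAt_nonneg (hf.1 b hb0) hord
        have haA := hf.2.2 b hb0 hbΛ a ha
        by_cases ha0 : a = 0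
        · -- both vanish
          rw [ha0] at ha
          have hg0 : Tendsto g (𝓝[≠] b) (𝓝 0) := by
            refine squeeze_zero_norm' (hfg.mono fun z hz => hz.1) ?_
            have h1 := ha.norm.const_mul 2
            rwa [norm_zero, mul_zero] at h1
          refine squeeze_zero_norm' hE2 ?_
          have h1 : Tendsto (fun z => (f z - 1) / (g z - 1) - 1) (𝓝[≠] b) (𝓝 ((0 - 1) / (0 - 1) - 1)) :=
            ((ha.sub_const 1).div (hg0.sub_const 1) (by norm_num)).sub_const 1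
          have h2 := h1.norm
          rwa [div_self (by norm_num), sub_self, norm_zero] at h2
        · -- the value is finite and not zero
          have hgord : 0 ≤ meromorphicOrderAt g b := by
            by_contra hcon
            have h4 := tendsto_cobounded_of_meromorphicOrderAt_neg (not_le.1 hcon)
            rw [← tendsto_norm_atTop_iff_cobounded] at h4
            have h5 : ∀ᶠ z in 𝓝[≠] b, ‖f z‖ < ‖a‖ + 1 := ha.norm.eventually_lt_const (lt_add_one _)
            obtain ⟨z, ⟨hz1, hz2⟩, hz3, -⟩ := ((h4.eventually_gt_atTop (2 * (‖a‖ + 1))).and h5 |>.and hfg).exists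
            linarith
          obtain ⟨a', ha'⟩ := tendsto_nhds_of_meromorphicOrderAt_nonneg (hg.1 b hb0) hgord
          have ha'A := hg.2.2 b hb0 hbΛ a' ha'
          have ha'0 : a' ≠ 0 := by
            intro h
            rw [h] at ha'
            have h1 : ‖a‖ ≤ 2 * ‖(0 : ℂ)‖ := le_of_tendsto_of_tendsto ha.norm (ha'.norm.const_mul 2) (hfg.mono fun z hz => hz.2)
            rw [norm_zero, mul_zero] at h1
            exact ha0 (norm_le_zero_iff.1 h1)
          have hq : Tendsto (fun z => f z / g z - 1) (𝓝[≠] b) (𝓝 (a / a' - 1)) := (ha.div ha' ha'0).sub_const 1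
          have hle1 : ‖a / a' - 1‖ ≤ η := (le_of_tendsto hq.norm (hp.mono fun z hz => hq1 z hz.1 hz.2)).trans (min_le_left _ _)
          have haa := hsepA a haA a' ha'A hle1 ha'0
          refine squeeze_zero_norm' hE1 ?_
          have h2 := hq.norm
          rwa [haa, div_self ha'0, sub_self, norm_zero] at h2
      · -- the value is infinite
        have h4 := tendsto_cobounded_of_meromorphicOrderAt_neg (not_le.1 hord)
        have h5 : Tendsto (fun z => (f z - 1)⁻¹) (𝓝[≠] b) (𝓝 0) := by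
          refine tendsto_inv₀_cobounded.comp ?_
          rw [← tendsto_norm_atTop_iff_cobounded] at h4 ⊢
          refine tendsto_atTop_mono (fun z => ?_) (tendsto_atTop_add_const_right _ (-1) h4)
          have h6 := norm_sub_norm_le (f z) 1
          rw [norm_one] at h6
          linarith
        refine squeeze_zero_norm' (a := fun z => ‖(f z - 1)⁻¹‖) ?_ (by
          have h6 := h5.norm
          rwa [norm_zero] at h6)
        filter_upwards [hE3, hp] with z hz hz'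
        refine hz.trans ?_
        obtain ⟨-, -, h3, -⟩ := hfB z (h20 hz'.1) hz'.2
        have h0 : g z ≠ 0 := (hgB z (h20 hz'.1) hz'.2).2.1
        have h0' : f z - 1 ≠ 0 := sub_ne_zero.2 h3
        have h6 : f z * (g z - 1) / (g z * (f z - 1)) - 1 = -(f z / g z - 1) * (f z - 1)⁻¹ := by
          field_simp
          ring
        rw [h6, norm_mul, norm_neg]
        have h7 := hq1 z hz'.1 hz'.2
        calc ‖f z / g z - 1‖ * ‖(f z - 1)⁻¹‖ ≤ 1 * ‖(f z - 1)⁻¹‖ := by gcongr; linarith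
          _ = _ := one_mul _)
    intro z hz hzB
    have h1 := hkl z hz hzB
    obtain ⟨-, h2, h3, -⟩ := hfB z (h20 hz) hzB
    obtain ⟨-, h5, h6, -⟩ := hgB z (h20 hz) hzB
    have h6' : g z - 1 ≠ 0 := sub_ne_zero.2 h6
    have h3' : f z - 1 ≠ 0 := sub_ne_zero.2 h3
    have h7 : (f z / g z - 1) * ((f z - 1) / (g z - 1) - 1) * (f z * (g z - 1) / (g z * (f z - 1)) - 1) = 0 := h1
    rcases mul_eq_zero.1 h7 with h8 | h8
    · rcases mul_eq_zero.1 h8 with h9 | h9
      · rw [sub_eq_zero, div_eq_one_iff_eq h5] at h9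
        exact h9
      · rw [sub_eq_zero, div_eq_one_iff_eq h6'] at h9
        exact sub_left_injective h9
    · rw [sub_eq_zero, div_eq_one_iff_eq (mul_ne_zero h5 h3')] at h8
      linear_combination -h8

end Pool.Agent.H86.LR

end

section

/-!
# LR CaseN: four sections with a nonconstant cross ratio
-/

set_option autoImplicit false

open Topology Filter Metric

namespace Pool.Agent.H86.LR

attribute [-instance] ProperSMul.toContinuousSMul

open Pool.Agent.H62.EL (Gd BadSet gd_notMem isClosed_gd Ag gd_mono)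
open Pool.Agent.H62.EF (Lat)

variable {Λ : AddSubgroup ℂ} {B : Set ℂ} {δ : ℝ}

/-- the transformations of the Klein group for the sections `0`, `∞`, `1`, `L` -/
noncomputable def TN (L : ℂ → ℂ) (i : Fin 4) (f : ℂ → ℂ) (z : ℂ) : ℂ :=
  ![f z, L z / f z, L z * (f z - 1) / (f z - L z), (f z - L z) / (f z - 1)] i

/-- the hypotheses of the case (N) -/
structure DatN (Λ : AddSubgroup ℂ) (B : Set ℂ) (δ : ℝ) (b₀ : ℂ) (L : ℂ → ℂ) : Prop where
  lat : Lat Λ
  bad : BadSet B Λ δ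
  mer : ∀ z, MeromorphicAt L z
  an : ∀ z, z ∉ B → AnalyticAt ℂ L z ∧ L z ≠ 0 ∧ L z ≠ 1
  per : ∀ z, ∀ l ∈ Λ, L (z + l) = L z
  one : Tendsto L (𝓝[≠] b₀) (𝓝 1)

/-- a continuous periodic function is bounded on `Gd B δ` -/
theorem per_bdd (hΛ : Lat Λ) (hB : BadSet B Λ δ) {φ : ℂ → ℝ} (hc : ∀ z, z ∉ B → ContinuousAt φ z) (hper : ∀ z, ∀ l ∈ Λ, φ (z + l) = φ z) :
    ∃ M : ℝ, 0 < M ∧ ∀ z ∈ Gd B δ, φ z ≤ M := by
  obtain ⟨R, hR, hco⟩ := hΛ.cocompact
  have hK : IsCompact (Gd B δ ∩ closedBall 0 R) := (isCompact_closedBall (0 : ℂ) R).inter_left (isClosed_gd δ)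
  obtain ⟨M, hM⟩ := hK.bddAbove_image (f := φ) fun z hz => (hc z (gd_notMem hB.pos hz.1)).continuousWithinAt
  refine ⟨max M 1, lt_max_of_lt_right one_pos, fun z hz => ?_⟩
  obtain ⟨l, hl, hl'⟩ := hco z
  have h1 : z - l ∈ Gd B δ := by
    rw [sub_eq_add_neg]
    exact (hB.gd_add δ (Λ.neg_mem hl)).2 hz
  have h2 := hM ⟨z - l, ⟨h1, mem_closedBall_zero_iff.2 hl'⟩, rfl⟩
  have h3 := hper (z - l) l hl
  rw [sub_add_cancel] at h3
  rw [h3]
  exact h2.trans (le_max_left _ _)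

/-- the transformations preserve the family -/
theorem tn_mem {L : ℂ → ℂ} (hmer : ∀ z, MeromorphicAt L z) (hL : ∀ z, z ∉ B → AnalyticAt ℂ L z ∧ L z ≠ 0 ∧ L z ≠ 1) {Ω : Set ℂ} {f : ℂ → ℂ}
    (hf : f ∈ Tm B {L} ∅ ∅ Ω) (i : Fin 4) : TN L i f ∈ Tm B {L} ∅ ∅ Ω := by
  have hC : ∀ g : ℂ → ℂ, ∀ b ∈ Ω, b ∈ (∅ : Set ℂ) → ∀ a : ℂ, Tendsto g (𝓝[≠] b) (𝓝 a) → a ∈ (∅ : Set ℂ) :=
    fun g b _ hb => absurd hb (Set.notMem_empty b)
  fin_cases i
  · exact hf
  · show (fun z => L z / f z) ∈ Tm B {L} ∅ ∅ Ω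
    refine ⟨fun z hz => (hmer z).div (hf.1 z hz), fun z hz hzB => ?_, hC _⟩
    obtain ⟨h1, h2, h3, h4⟩ := hf.2.1 z hz hzB
    obtain ⟨h5, h6, h7⟩ := hL z hzB
    have h8 : f z ≠ L z := h4 L rfl
    refine ⟨h5.div h1 h2, div_ne_zero h6 h2, fun h => h8 ?_, fun L' hL' h => h3 ?_⟩
    · exact ((div_eq_one_iff_eq h2).1 h).symm
    · rw [Set.mem_singleton_iff.1 hL'] at h
      have h' : L z / f z = L z := h
      rw [div_eq_iff h2] at h'
      exact (mul_left_cancel₀ h6 ((mul_one _).trans h')).symm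
  · show (fun z => L z * (f z - 1) / (f z - L z)) ∈ Tm B {L} ∅ ∅ Ω
    refine ⟨fun z hz => ((hmer z).mul ((hf.1 z hz).sub (MeromorphicAt.const 1 z))).div ((hf.1 z hz).sub (hmer z)), fun z hz hzB => ?_, hC _⟩
    obtain ⟨h1, h2, h3, h4⟩ := hf.2.1 z hz hzB
    obtain ⟨h5, h6, h7⟩ := hL z hzB
    have h8 : f z - L z ≠ 0 := sub_ne_zero.2 (h4 L rfl)
    have h9 : f z - 1 ≠ 0 := sub_ne_zero.2 h3
    have h10 : L z - 1 ≠ 0 := sub_ne_zero.2 h7
    refine ⟨(h5.mul (h1.sub analyticAt_const)).div (h1.sub h5) h8, div_ne_zero (mul_ne_zero h6 h9) h8, fun h => ?_, fun L' hL' h => ?_⟩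
    · have h' : L z * (f z - 1) / (f z - L z) = 1 := h
      rw [div_eq_one_iff_eq h8] at h'
      have : f z * (L z - 1) = 0 := by linear_combination h'
      exact (mul_ne_zero h2 h10) this
    · rw [Set.mem_singleton_iff.1 hL'] at h
      have h' : L z * (f z - 1) / (f z - L z) = L z := h
      rw [div_eq_iff h8] at h'
      have h11 := mul_left_cancel₀ h6 h'
      exact h10 (by linear_combination h11)
  · show (fun z => (f z - L z) / (f z - 1)) ∈ Tm B {L} ∅ ∅ Ω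
    refine ⟨fun z hz => ((hf.1 z hz).sub (hmer z)).div ((hf.1 z hz).sub (MeromorphicAt.const 1 z)), fun z hz hzB => ?_, hC _⟩
    obtain ⟨h1, h2, h3, h4⟩ := hf.2.1 z hz hzB
    obtain ⟨h5, h6, h7⟩ := hL z hzB
    have h8 : f z - L z ≠ 0 := sub_ne_zero.2 (h4 L rfl)
    have h9 : f z - 1 ≠ 0 := sub_ne_zero.2 h3
    have h10 : L z - 1 ≠ 0 := sub_ne_zero.2 h7
    refine ⟨(h1.sub h5).div (h1.sub analyticAt_const) h9, div_ne_zero h8 h9, fun h => ?_, fun L' hL' h => ?_⟩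
    · have h' : (f z - L z) / (f z - 1) = 1 := h
      rw [div_eq_one_iff_eq h9] at h'
      exact h10 (by linear_combination -h')
    · rw [Set.mem_singleton_iff.1 hL'] at h
      have h' : (f z - L z) / (f z - 1) = L z := h
      rw [div_eq_iff h9] at h'
      have : f z * (L z - 1) = 0 := by linear_combination -h'
      exact (mul_ne_zero h2 h10) this

/-- the case (N) -/
theorem DatN.fam {b₀ : ℂ} {L : ℂ → ℂ} (D : DatN Λ B δ b₀ L) : Fam Λ B δ (0 : Fin 4) (Tm B {L} ∅ ∅) (TN L) := by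
  have hB := D.bad
  have hδ := hB.pos
  have hsing : ∀ L' ∈ ({L} : Set (ℂ → ℂ)), L' = L := fun L' h => h
  have hCpunct : ∀ {p c : ℂ}, ∀ {t : ℝ}, ∀ b ∈ HPl p c t, ∀ᶠ z in 𝓝[≠] b, z ∈ HPl p c t ∧ z ∉ B := by
    intro p c t b hb
    have h1 : ∀ᶠ z in 𝓝[≠] b, z ∈ HPl p c t := nhdsWithin_le_nhds ((isOpen_hpl p c t).mem_nhds hb)
    exact h1.and (eventually_notMem hB b)
  -- the limits of `L`
  have hone : ∀ b, b - b₀ ∈ Λ → Tendsto L (𝓝[≠] b) (𝓝 1) := by
    intro b hb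
    have h1 : Tendsto (fun z : ℂ => z - (b - b₀)) (𝓝[≠] b) (𝓝[≠] b₀) := by
      refine tendsto_nhdsWithin_of_tendsto_nhds_of_eventually_within _ ?_ ?_
      · have h2 : ContinuousAt (fun z : ℂ => z - (b - b₀)) b := continuousAt_id.sub continuousAt_const
        have h3 := h2.tendsto
        rw [sub_sub_cancel] at h3
        exact h3.mono_left nhdsWithin_le_nhds
      · filter_upwards [self_mem_nhdsWithin] with w hw h2
        exact hw (by
          have h3 : w - (b - b₀) = b₀ := h2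
          have h4 : w = b := by linear_combination h3
          rw [h4]
          rfl)
    refine (D.one.comp h1).congr fun z => ?_
    have h2 := D.per (z - (b - b₀)) (b - b₀) hb
    rw [sub_add_cancel] at h2
    exact h2.symm
  -- the bounds of `L`
  obtain ⟨M, hM0, hM⟩ := per_bdd D.lat hB (φ := fun z => ‖L z‖) (fun z hz => (D.an z hz).1.continuousAt.norm) (fun z l hl => by rw [D.per z l hl])
  obtain ⟨M₁, hM₁0, hM₁⟩ := per_bdd D.lat hB (φ := fun z => ‖(L z)⁻¹‖) (fun z hz => ((D.an z hz).1.continuousAt.inv₀ (D.an z hz).2.1).norm)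
    (fun z l hl => by rw [D.per z l hl])
  obtain ⟨M₂, hM₂0, hM₂⟩ := per_bdd D.lat hB (φ := fun z => ‖(L z - 1)⁻¹‖)
    (fun z hz => (((D.an z hz).1.continuousAt.sub continuousAt_const).inv₀ (sub_ne_zero.2 (D.an z hz).2.2)).norm) (fun z l hl => by rw [D.per z l hl])
  set m : ℝ := M₁⁻¹ with hm
  set m' : ℝ := M₂⁻¹ with hm'
  have hm0 : 0 < m := inv_pos.2 hM₁0
  have hm'0 : 0 < m' := inv_pos.2 hM₂0
  have hmL : ∀ z ∈ Gd B δ, m ≤ ‖L z‖ := by
    intro z hz
    have h1 := hM₁ z hz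
    rw [norm_inv] at h1
    have h2 : 0 < ‖L z‖ := norm_pos_iff.2 (D.an z (gd_notMem hδ hz)).2.1
    rw [hm]
    exact inv_le_of_inv_le₀ h2 h1
  have hm'L : ∀ z ∈ Gd B δ, m' ≤ ‖L z - 1‖ := by
    intro z hz
    have h1 := hM₂ z hz
    rw [norm_inv] at h1
    have h2 : 0 < ‖L z - 1‖ := norm_pos_iff.2 (sub_ne_zero.2 (D.an z (gd_notMem hδ hz)).2.2)
    rw [hm']
    exact inv_le_of_inv_le₀ h2 h1
  refine ⟨D.lat, hB, fun h => Tm.mono h, fun hf z hz hzB => ⟨(hf.2.1 z hz hzB).1, (hf.2.1 z hz hzB).2.1⟩, fun hf l hl => ?_, fun hf i => ?_,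
    fun i f l hl z => ?_, fun f => rfl, ?_, ?_, ?_⟩
  · exact tm_trans hB (fun L' hL' z l hl => by rw [hsing L' hL']; exact D.per z l hl) (fun b hb => absurd hb (Set.notMem_empty b)) hf hl
  · exact tn_mem D.mer D.an hf i
  · have h1 := D.per z l hl
    fin_cases i
    · rfl
    · show L z / f (z + l) = L (z + l) / f (z + l)
      rw [h1]
    · show L z * (f (z + l) - 1) / (f (z + l) - L z) = L (z + l) * (f (z + l) - 1) / (f (z + l) - L (z + l))
      rw [h1]
    · show (f (z + l) - L z) / (f (z + l) - 1) = (f (z + l) - L (z + l)) / (f (z + l) - 1)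
      rw [h1]
  · -- compactness
    intro 𝒰 F R hR hF
    have hLc : ∀ z₀ ∈ (Bᶜ : Set ℂ), ∀ z : ℕ → ℂ, Tendsto z 𝒰 (𝓝 z₀) → Tendsto (fun n => L (z n)) 𝒰 (𝓝 (L z₀)) :=
      fun z₀ hz₀ z hz => (D.an z₀ hz₀).1.continuousAt.tendsto.comp hz
    rcases cpt hB (fun L' hL' z hz => by rw [hsing L' hL']; exact (D.an z hz).1) (Set.empty_subset B) Set.finite_empty hR hF with
      h | h | h | ⟨L', hL', h⟩ | h
    · exact Or.inl h
    · exact Or.inr ⟨0, h⟩
    · refine Or.inr ⟨2, fun z₀ hz₀ z hz => ?_⟩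
      have h1 := h z₀ hz₀ z hz
      have h2 := hLc z₀ hz₀ z hz
      have h3 : (1 : ℂ) - L z₀ ≠ 0 := sub_ne_zero.2 fun h => (D.an z₀ hz₀).2.2 h.symm
      have h4 := (h2.mul (h1.sub_const 1)).div (h1.sub h2) h3
      rw [sub_self, mul_zero, zero_div] at h4
      exact h4
    · rw [hsing L' hL'] at h
      refine Or.inr ⟨3, fun z₀ hz₀ z hz => ?_⟩
      have h1 := h z₀ hz₀ z hz
      have h2 := hLc z₀ hz₀ z hz
      have h4 := (h1.sub h2).div (h1.sub_const 1) (sub_ne_zero.2 (D.an z₀ hz₀).2.2)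
      rw [sub_self, zero_div] at h4
      exact h4
    · refine Or.inr ⟨1, fun z₀ hz₀ z hz => ?_⟩
      have h1 := (hLc z₀ hz₀ z hz).mul (h z₀ hz₀ z hz)
      rw [mul_zero] at h1
      exact h1
  · -- near the section
    set δ₁ : ℝ := min (1 / 2) (min (m / 2) (m / (8 * (M + 1)))) with hδ₁
    have hδ₁0 : 0 < δ₁ := by positivity
    have hδ₁a : δ₁ ≤ 1 / 2 := min_le_left _ _
    have hδ₁b : δ₁ ≤ m / 2 := (min_le_right _ _).trans (min_le_left _ _)
    have hδ₁c : δ₁ ≤ m / (8 * (M + 1)) := (min_le_right _ _).trans (min_le_right _ _)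
    rw [le_div_iff₀ (by positivity)] at hδ₁c
    refine ⟨min δ₁ (1 / 4), m / (3 * (M + 1)), by positivity, by positivity, ?_, ?_⟩
    · intro p c hc f hf hle
      have hfB := hf.2.1
      have h1 := hole_half hB hc (q := fun z => 1 - f z) (ε := min δ₁ (1 / 4)) (lt_of_le_of_lt (min_le_right _ _) (by norm_num)) (fun z hz hzB => by
        obtain ⟨h1, h2, h3, -⟩ := hfB z hz hzB
        exact ⟨analyticAt_const.sub h1, fun h => h3 (sub_eq_zero.1 h).symm⟩)
        (fun b hb _ => (MeromorphicAt.const 1 b).sub (hf.1 b hb)) (fun z hz hzG => by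
          rw [sub_sub_cancel_left, norm_neg]
          exact hle z hz hzG)
      have h2 : ∀ z ∈ HPl p c (2 * δ), z ∉ B → ‖f z‖ ≤ 1 / 4 := by
        intro z hz hzB
        have h3 := h1 z hz hzB
        rw [sub_sub_cancel_left, norm_neg] at h3
        exact h3.trans (min_le_right _ _)
      have hid : ∀ z, z ∈ HPl p c 0 → z ∉ B → (L z - f z) / (L z * (1 - f z)) - 1 = f z * (L z - 1) / (L z * (1 - f z)) := by
        intro z hz hzB
        obtain ⟨-, h4, h5, -⟩ := hfB z hz hzB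
        have h6 : 1 - f z ≠ 0 := sub_ne_zero.2 fun h => h5 h.symm
        have h7 := (D.an z hzB).2.1
        field_simp
        ring
      have h3 := hole_half hB hc (q := fun z => (L z - f z) / (L z * (1 - f z))) (ε := 1 / 4) (by norm_num) (fun z hz hzB => by
        obtain ⟨h1, h2, h3, h4⟩ := hfB z hz hzB
        obtain ⟨h5, h6, h7⟩ := D.an z hzB
        have h8 : 1 - f z ≠ 0 := sub_ne_zero.2 fun h => h3 h.symm
        have h9 : L z - f z ≠ 0 := sub_ne_zero.2 fun h => h4 L rfl h.symm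
        exact ⟨(h5.sub h1).div (h5.mul (analyticAt_const.sub h1)) (mul_ne_zero h6 h8), div_ne_zero h9 (mul_ne_zero h6 h8)⟩)
        (fun b hb _ => ((D.mer b).sub (hf.1 b hb)).div ((D.mer b).mul ((MeromorphicAt.const 1 b).sub (hf.1 b hb)))) (fun z hz hzG => by
          have hzB := gd_notMem hδ hzG
          have hfz := (hle z hz hzG).trans (min_le_left _ _)
          have h4 : 1 / 2 ≤ ‖1 - f z‖ := by
            have h5 := norm_sub_norm_le (1 : ℂ) (f z)
            rw [norm_one] at h5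
            linarith
          have h5 := hmL z hzG
          have h6 := hM z hzG
          have h7 : ‖L z - 1‖ ≤ M + 1 := by
            have h8 := norm_sub_le (L z) 1
            rw [norm_one] at h8
            linarith
          show ‖(L z - f z) / (L z * (1 - f z)) - 1‖ ≤ 1 / 4
          rw [hid z hz hzB, norm_div, norm_mul, norm_mul]
          have h8 : ‖f z‖ * ‖L z - 1‖ ≤ δ₁ * (M + 1) := mul_le_mul hfz h7 (norm_nonneg _) hδ₁0.le
          have h9 : m * (1 / 2) ≤ ‖L z‖ * ‖1 - f z‖ := mul_le_mul h5 h4 (by norm_num) (norm_nonneg _)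
          rw [div_le_iff₀ (lt_of_lt_of_le (by positivity) h9)]
          nlinarith)
      have h4 := kl D.lat hB b₀ hc (E := fun z => (L z - f z) / (L z * (1 - f z)) - 1) (t := 2 * δ) (M := 1 / 4) (fun z hz hzB => by
        obtain ⟨h1, h2, h3, h4⟩ := hfB z (hpl_mono (by linarith) hz) hzB
        obtain ⟨h5, h6, h7⟩ := D.an z hzB
        have h8 : 1 - f z ≠ 0 := sub_ne_zero.2 fun h => h3 h.symm
        exact ((h5.sub h1).div (h5.mul (analyticAt_const.sub h1)) (mul_ne_zero h6 h8)).sub analyticAt_const) h3 (by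
        intro b hb hbΛ
        have h5 := hone b hbΛ
        have h6 : ∀ᶠ z in 𝓝[≠] b, 1 / 2 < ‖L z‖ := by
          have h7 := h5.norm
          rw [norm_one] at h7
          exact h7.eventually_const_lt (by norm_num)
        refine squeeze_zero_norm' (a := fun z => 2 * ‖L z - 1‖) ?_ (by
          have h7 := ((h5.sub_const 1).norm).const_mul 2
          rwa [sub_self, norm_zero, mul_zero] at h7)
        filter_upwards [h6, hCpunct b hb] with z hz hz'
        have hfz := h2 z hz'.1 hz'.2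
        have h8 : 3 / 4 ≤ ‖1 - f z‖ := by
          have h9 := norm_sub_norm_le (1 : ℂ) (f z)
          rw [norm_one] at h9
          linarith
        rw [hid z (hpl_mono (by linarith) hz'.1) hz'.2, norm_div, norm_mul, norm_mul]
        have h10 : (0 : ℝ) < ‖L z‖ * ‖1 - f z‖ := mul_pos (by linarith) (by linarith)
        rw [div_le_iff₀ h10]
        have h11 : 1 / 2 * (3 / 4) ≤ ‖L z‖ * ‖1 - f z‖ := mul_le_mul hz.le h8 (by norm_num) (norm_nonneg _)
        have h12 := norm_nonneg (L z - 1)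
        nlinarith [mul_le_mul_of_nonneg_right hfz h12, mul_le_mul_of_nonneg_left h11 h12])
      obtain ⟨z, hz, hzG⟩ := exists_gd_hpl D.lat hB (p := p) hc (2 * δ)
      have hzB := gd_notMem hδ hzG
      have hz0 : z ∈ HPl p c 0 := hpl_mono (by linarith) hz
      have h5 := h4 z hz hzB
      rw [hid z hz0 hzB] at h5
      obtain ⟨-, h7, h8, -⟩ := hfB z hz0 hzB
      have h9 : 1 - f z ≠ 0 := sub_ne_zero.2 fun h => h8 h.symm
      exact (div_ne_zero (mul_ne_zero h7 (sub_ne_zero.2 (D.an z hzB).2.2)) (mul_ne_zero (D.an z hzB).2.1 h9)) h5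
    · intro i hi Ω f hf z hz hzG hle
      have hzB := gd_notMem hδ hzG
      obtain ⟨-, h2, h3, h4⟩ := hf.2.1 z hz hzB
      have hL1 := hmL z hzG
      have hL2 := hM z hzG
      have hle1 : ‖f z‖ ≤ δ₁ := hle.trans (min_le_left _ _)
      have hle2 : ‖f z‖ ≤ 1 / 4 := hle.trans (min_le_right _ _)
      have hfpos : 0 < ‖f z‖ := norm_pos_iff.2 h2
      have h5 : ‖(1 : ℂ)‖ - ‖f z‖ ≤ ‖f z - 1‖ := by
        rw [norm_sub_rev]
        exact norm_sub_norm_le (1 : ℂ) (f z)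
      have h6 : ‖f z - 1‖ ≤ ‖f z‖ + ‖(1 : ℂ)‖ := norm_sub_le _ _
      have h7 : ‖L z‖ - ‖f z‖ ≤ ‖f z - L z‖ := by
        rw [norm_sub_rev]
        exact norm_sub_norm_le _ _
      have h8 : ‖f z - L z‖ ≤ ‖f z‖ + ‖L z‖ := norm_sub_le _ _
      rw [norm_one] at h5 h6
      fin_cases i
      · exact absurd rfl hi
      · show m / (3 * (M + 1)) ≤ ‖L z / f z‖
        rw [norm_div, div_le_div_iff₀ (by positivity) hfpos]
        nlinarith
      · show m / (3 * (M + 1)) ≤ ‖L z * (f z - 1) / (f z - L z)‖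
        rw [norm_div, norm_mul, div_le_div_iff₀ (by positivity) (norm_pos_iff.2 (sub_ne_zero.2 (h4 L rfl)))]
        have h9 : ‖f z - L z‖ ≤ M + 1 := by linarith
        have h10 : m * (3 / 4) ≤ ‖L z‖ * ‖f z - 1‖ := mul_le_mul hL1 (by linarith) (by norm_num) (norm_nonneg _)
        nlinarith [mul_le_mul_of_nonneg_left h9 hm0.le, mul_le_mul_of_nonneg_right h10 (by positivity : 0 ≤ 3 * (M + 1))]
      · show m / (3 * (M + 1)) ≤ ‖(f z - L z) / (f z - 1)‖
        rw [norm_div, div_le_div_iff₀ (by positivity) (norm_pos_iff.2 (sub_ne_zero.2 h3))]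
        have h9 : ‖f z - 1‖ ≤ 5 / 4 := by linarith
        have h10 : m / 2 ≤ ‖f z - L z‖ := by linarith
        nlinarith [mul_le_mul_of_nonneg_left h9 hm0.le, mul_le_mul_of_nonneg_right h10 (by positivity : 0 ≤ 3 * (M + 1))]
  · -- pairs
    intro δ₀ hδ₀
    set κ : ℝ := m' * δ₀ / (δ₀ + M) with hκ
    have hκ0 : 0 < κ := by positivity
    set κ₁ : ℝ := min δ₀ (min κ (δ₀ * κ)) with hκ₁
    have hκ₁0 : 0 < κ₁ := by positivity
    have hκa : κ₁ ≤ δ₀ := min_le_left _ _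
    have hκb : κ₁ ≤ κ := (min_le_right _ _).trans (min_le_left _ _)
    have hκc : κ₁ ≤ δ₀ * κ := (min_le_right _ _).trans (min_le_right _ _)
    -- the lower bounds
    have hlow : ∀ (g : ℂ → ℂ) (z : ℂ), z ∈ Gd B δ → g z ≠ 0 → g z ≠ 1 → g z ≠ L z → (∀ i, δ₀ ≤ ‖TN L i g z‖) →
        κ₁ ≤ ‖g z‖ ∧ κ₁ ≤ ‖g z - 1‖ ∧ κ₁ ≤ ‖g z - L z‖ := by
      intro g z hzG h0 h1 h2 hT
      have hT0 : δ₀ ≤ ‖g z‖ := hT 0
      have hT2 : δ₀ ≤ ‖L z * (g z - 1) / (g z - L z)‖ := hT 2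
      have hT3 : δ₀ ≤ ‖(g z - L z) / (g z - 1)‖ := hT 3
      have p1 : 0 < ‖g z - 1‖ := norm_pos_iff.2 (sub_ne_zero.2 h1)
      have p2 : 0 < ‖g z - L z‖ := norm_pos_iff.2 (sub_ne_zero.2 h2)
      rw [norm_div, norm_mul, le_div_iff₀ p2] at hT2
      rw [norm_div, le_div_iff₀ p1] at hT3
      have hL2 := hM z hzG
      have hm2 := hm'L z hzG
      have h3 : ‖L z - 1‖ ≤ ‖g z - 1‖ + ‖g z - L z‖ := by
        have h4 : L z - 1 = (g z - 1) - (g z - L z) := by ring
        rw [h4]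
        exact norm_sub_le _ _
      have h4 : κ ≤ ‖g z - 1‖ := by
        rw [hκ, div_le_iff₀ (by positivity)]
        have h5 : δ₀ * ‖g z - L z‖ ≤ M * ‖g z - 1‖ := hT2.trans (mul_le_mul_of_nonneg_right hL2 p1.le)
        nlinarith
      exact ⟨hκa.trans hT0, hκb.trans h4, hκc.trans ((mul_le_mul_of_nonneg_left h4 hδ₀.le).trans hT3)⟩
    have hε : (0 : ℝ) < min (κ₁ / 4) (κ₁ * κ₁ / (4 * (1 + M))) := by positivity
    refine ⟨min (κ₁ / 4) (κ₁ * κ₁ / (4 * (1 + M))), hε, fun p c hc f hf g hg hfar hle => ?_⟩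
    have hεa : min (κ₁ / 4) (κ₁ * κ₁ / (4 * (1 + M))) ≤ κ₁ / 4 := min_le_left _ _
    have hεb : min (κ₁ / 4) (κ₁ * κ₁ / (4 * (1 + M))) ≤ κ₁ * κ₁ / (4 * (1 + M)) := min_le_right _ _
    have hfB := hf.2.1
    have hgB := hg.2.1
    have hlf : ∀ z ∈ HPl p c 0, z ∈ Gd B δ → κ₁ ≤ ‖f z‖ ∧ κ₁ ≤ ‖f z - 1‖ ∧ κ₁ ≤ ‖f z - L z‖ := fun z hz hzG => by
      obtain ⟨-, h2, h3, h4⟩ := hfB z hz (gd_notMem hδ hzG)
      exact hlow f z hzG h2 h3 (h4 L rfl) fun i => (hfar i z hz hzG).1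
    have hlg : ∀ z ∈ HPl p c 0, z ∈ Gd B δ → κ₁ ≤ ‖g z‖ ∧ κ₁ ≤ ‖g z - 1‖ ∧ κ₁ ≤ ‖g z - L z‖ := fun z hz hzG => by
      obtain ⟨-, h2, h3, h4⟩ := hgB z hz (gd_notMem hδ hzG)
      exact hlow g z hzG h2 h3 (h4 L rfl) fun i => (hfar i z hz hzG).2
    have hfg1 : ∀ z ∈ HPl p c 0, z ∈ Gd B δ → ‖f z - g z‖ ≤ κ₁ / 4 := fun z hz hzG => (hle z hz hzG).trans hεa
    have hfg2 : ∀ z ∈ HPl p c 0, z ∈ Gd B δ → ‖f z - g z‖ * (4 * (1 + M)) ≤ κ₁ * κ₁ := fun z hz hzG => by
      have h1 := (hle z hz hzG).trans hεb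
      rwa [le_div_iff₀ (by positivity)] at h1
    have hfg3 : ∀ z ∈ HPl p c 0, z ∈ Gd B δ → ‖f z - g z‖ * 4 ≤ κ₁ * κ₁ := fun z hz hzG => by
      have h1 := hfg2 z hz hzG
      have h2 := norm_nonneg (f z - g z)
      nlinarith [mul_nonneg h2 hM0.le]
    -- the four quotients
    have hq1 := hole_half hB hc (q := fun z => f z / g z) (ε := 1 / 4) (by norm_num) (fun z hz hzB => by
      obtain ⟨h1, h2, h3, -⟩ := hfB z hz hzB
      obtain ⟨h4, h5, h6, -⟩ := hgB z hz hzB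
      exact ⟨h1.div h4 h5, div_ne_zero h2 h5⟩) (fun b hb _ => (hf.1 b hb).div (hg.1 b hb)) (fun z hz hzG => by
        have h0 : g z ≠ 0 := (hgB z hz (gd_notMem hδ hzG)).2.1
        have h2 : f z / g z - 1 = (f z - g z) / g z := by field_simp
        rw [h2, norm_div, div_le_iff₀ (norm_pos_iff.2 h0)]
        linarith [hfg1 z hz hzG, (hlg z hz hzG).1])
    have hq2 := hole_half hB hc (q := fun z => (f z - L z) * (g z - 1) / ((g z - L z) * (f z - 1))) (ε := 1 / 4) (by norm_num) (fun z hz hzB => by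
      obtain ⟨h1, h2, h3, h3'⟩ := hfB z hz hzB
      obtain ⟨h4, h5, h6, h6'⟩ := hgB z hz hzB
      obtain ⟨h7, -, -⟩ := D.an z hzB
      have e1 := sub_ne_zero.2 (h3' L rfl)
      have e2 := sub_ne_zero.2 (h6' L rfl)
      exact ⟨((h1.sub h7).mul (h4.sub analyticAt_const)).div ((h4.sub h7).mul (h1.sub analyticAt_const)) (mul_ne_zero e2 (sub_ne_zero.2 h3)),
        div_ne_zero (mul_ne_zero e1 (sub_ne_zero.2 h6)) (mul_ne_zero e2 (sub_ne_zero.2 h3))⟩)
      (fun b hb _ => (((hf.1 b hb).sub (D.mer b)).mul ((hg.1 b hb).sub (MeromorphicAt.const 1 b))).div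
        (((hg.1 b hb).sub (D.mer b)).mul ((hf.1 b hb).sub (MeromorphicAt.const 1 b)))) (fun z hz hzG => by
        have hzB := gd_notMem hδ hzG
        have h0 : g z - L z ≠ 0 := sub_ne_zero.2 ((hgB z hz hzB).2.2.2 L rfl)
        have h0' : f z - 1 ≠ 0 := sub_ne_zero.2 (hfB z hz hzB).2.2.1
        have h2 : (f z - L z) * (g z - 1) / ((g z - L z) * (f z - 1)) - 1 = (g z - f z) * (1 - L z) / ((g z - L z) * (f z - 1)) := by
          field_simp
          ring
        rw [h2, norm_div, norm_mul, norm_mul, div_le_iff₀ (mul_pos (norm_pos_iff.2 h0) (norm_pos_iff.2 h0')), norm_sub_rev (g z) (f z)]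
        have h3 : ‖1 - L z‖ ≤ 1 + M := by
          have h4 := norm_sub_le 1 (L z)
          rw [norm_one] at h4
          linarith [hM z hzG]
        have h4 : ‖f z - g z‖ * ‖1 - L z‖ ≤ ‖f z - g z‖ * (1 + M) := mul_le_mul_of_nonneg_left h3 (norm_nonneg _)
        have h5 : κ₁ * κ₁ ≤ ‖g z - L z‖ * ‖f z - 1‖ := mul_le_mul (hlg z hz hzG).2.2 (hlf z hz hzG).2.1 hκ₁0.le (norm_nonneg _)
        nlinarith [hfg2 z hz hzG])
    have hq3 := hole_half hB hc (q := fun z => (f z - L z) / (g z - L z)) (ε := 1 / 4) (by norm_num) (fun z hz hzB => by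
      obtain ⟨h1, h2, h3, h3'⟩ := hfB z hz hzB
      obtain ⟨h4, h5, h6, h6'⟩ := hgB z hz hzB
      obtain ⟨h7, -, -⟩ := D.an z hzB
      have e1 := sub_ne_zero.2 (h3' L rfl)
      have e2 := sub_ne_zero.2 (h6' L rfl)
      exact ⟨(h1.sub h7).div (h4.sub h7) e2, div_ne_zero e1 e2⟩)
      (fun b hb _ => ((hf.1 b hb).sub (D.mer b)).div ((hg.1 b hb).sub (D.mer b))) (fun z hz hzG => by
        have hzB := gd_notMem hδ hzG
        have h0 : g z - L z ≠ 0 := sub_ne_zero.2 ((hgB z hz hzB).2.2.2 L rfl)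
        have h2 : (f z - L z) / (g z - L z) - 1 = (f z - g z) / (g z - L z) := by
          field_simp
          ring
        rw [h2, norm_div, div_le_iff₀ (norm_pos_iff.2 h0)]
        linarith [hfg1 z hz hzG, (hlg z hz hzG).2.2])
    have hq4 := hole_half hB hc (q := fun z => f z * (g z - 1) / (g z * (f z - 1))) (ε := 1 / 4) (by norm_num) (fun z hz hzB => by
      obtain ⟨h1, h2, h3, -⟩ := hfB z hz hzB
      obtain ⟨h4, h5, h6, -⟩ := hgB z hz hzB
      exact ⟨(h1.mul (h4.sub analyticAt_const)).div (h4.mul (h1.sub analyticAt_const)) (mul_ne_zero h5 (sub_ne_zero.2 h3)),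
        div_ne_zero (mul_ne_zero h2 (sub_ne_zero.2 h6)) (mul_ne_zero h5 (sub_ne_zero.2 h3))⟩)
      (fun b hb _ => ((hf.1 b hb).mul ((hg.1 b hb).sub (MeromorphicAt.const 1 b))).div ((hg.1 b hb).mul ((hf.1 b hb).sub (MeromorphicAt.const 1 b))))
      (fun z hz hzG => by
        have hzB := gd_notMem hδ hzG
        have h0 : g z ≠ 0 := (hgB z hz hzB).2.1
        have h0' : f z - 1 ≠ 0 := sub_ne_zero.2 (hfB z hz hzB).2.2.1
        have h2 : f z * (g z - 1) / (g z * (f z - 1)) - 1 = (g z - f z) / (g z * (f z - 1)) := by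
          field_simp
          ring
        rw [h2, norm_div, norm_mul, div_le_iff₀ (mul_pos (norm_pos_iff.2 h0) (norm_pos_iff.2 h0')), norm_sub_rev (g z) (f z)]
        have h5 : κ₁ * κ₁ ≤ ‖g z‖ * ‖f z - 1‖ := mul_le_mul (hlg z hz hzG).1 (hlf z hz hzG).2.1 hκ₁0.le (norm_nonneg _)
        nlinarith [hfg3 z hz hzG])
    have h20 : ∀ {z : ℂ}, z ∈ HPl p c (2 * δ) → z ∈ HPl p c 0 := fun {z} hz => hpl_mono (by linarith) hz
    -- the product
    set E : ℂ → ℂ := fun z => (f z / g z - 1) * ((f z - L z) * (g z - 1) / ((g z - L z) * (f z - 1)) - 1) with hE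
    have hE1 : ∀ z ∈ HPl p c (2 * δ), z ∉ B → ‖E z‖ ≤ 1 := by
      intro z hz hzB
      rw [hE]
      simp only [norm_mul]
      calc ‖f z / g z - 1‖ * ‖(f z - L z) * (g z - 1) / ((g z - L z) * (f z - 1)) - 1‖ ≤ (1 / 4) * (1 / 4) :=
            mul_le_mul (hq1 z hz hzB) (hq2 z hz hzB) (norm_nonneg _) (by norm_num)
        _ ≤ 1 := by norm_num
    have hE2 : ∀ z ∈ HPl p c (2 * δ), z ∉ B → ‖E z‖ ≤ ‖L z - 1‖ := by
      intro z hz hzB
      obtain ⟨-, h2, h3, h3'⟩ := hfB z (h20 hz) hzB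
      obtain ⟨-, h5, h6, h6'⟩ := hgB z (h20 hz) hzB
      have e1 : f z - L z ≠ 0 := sub_ne_zero.2 (h3' L rfl)
      have e2 : g z - L z ≠ 0 := sub_ne_zero.2 (h6' L rfl)
      have e3 : f z - 1 ≠ 0 := sub_ne_zero.2 h3
      have hid : E z = (1 - L z) * (((f z - L z) / (g z - L z) - 1) * (f z * (g z - 1) / (g z * (f z - 1)) - 1)) := by
        rw [hE]
        field_simp
        ring
      rw [hid, norm_mul, norm_mul, norm_sub_rev 1 (L z)]
      calc ‖L z - 1‖ * (‖(f z - L z) / (g z - L z) - 1‖ * ‖f z * (g z - 1) / (g z * (f z - 1)) - 1‖) ≤ ‖L z - 1‖ * ((1 / 4) * (1 / 4)) := by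
            gcongr
            · exact hq3 z hz hzB
            · exact hq4 z hz hzB
        _ ≤ ‖L z - 1‖ := by nlinarith [norm_nonneg (L z - 1)]
    have hkl := kl D.lat hB b₀ hc (E := E) (t := 2 * δ) (M := 1) (fun z hz hzB => by
      obtain ⟨h1, h2, h3, h3'⟩ := hfB z (h20 hz) hzB
      obtain ⟨h4, h5, h6, h6'⟩ := hgB z (h20 hz) hzB
      obtain ⟨h7, -, -⟩ := D.an z hzB
      exact ((h1.div h4 h5).sub analyticAt_const).mul ((((h1.sub h7).mul (h4.sub analyticAt_const)).div ((h4.sub h7).mul (h1.sub analyticAt_const))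
        (mul_ne_zero (sub_ne_zero.2 (h6' L rfl)) (sub_ne_zero.2 h3))).sub analyticAt_const)) hE1 (by
      intro b hb hbΛ
      refine squeeze_zero_norm' (a := fun z => ‖L z - 1‖) ?_ (by
        have h7 := ((hone b hbΛ).sub_const 1).norm
        rwa [sub_self, norm_zero] at h7)
      filter_upwards [hCpunct b hb] with z hz
      exact hE2 z hz.1 hz.2)
    intro z hz hzB
    have h1 := hkl z hz hzB
    obtain ⟨-, h2, h3, h3'⟩ := hfB z (h20 hz) hzB
    obtain ⟨-, h5, h6, h6'⟩ := hgB z (h20 hz) hzB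
    have e2 : g z - L z ≠ 0 := sub_ne_zero.2 (h6' L rfl)
    have e3 : f z - 1 ≠ 0 := sub_ne_zero.2 h3
    have e4 : L z - 1 ≠ 0 := sub_ne_zero.2 (D.an z hzB).2.2
    have h7 : (f z / g z - 1) * ((f z - L z) * (g z - 1) / ((g z - L z) * (f z - 1)) - 1) = 0 := h1
    rcases mul_eq_zero.1 h7 with h8 | h8
    · rw [sub_eq_zero, div_eq_one_iff_eq h5] at h8
      exact h8
    · rw [sub_eq_zero, div_eq_one_iff_eq (mul_ne_zero e2 e3)] at h8
      have h9 : (f z - g z) * (L z - 1) = 0 := by linear_combination h8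
      exact sub_eq_zero.1 ((mul_eq_zero.1 h9).resolve_right e4)

end Pool.Agent.H86.LR

end
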