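import Pool.Agent.H94.CB.H17EF.Bridge
import Pool.Agent.H94.CB.M198
import Pool.Agent.H94.CB.M244
import Pool.Agent.H94.CB.M95

/-! The parts of this file: H86.LR.Defs, H19E.FunE, H86.LR.Ind. -/

section

/-!
# LR Defs: surfaces over an elliptic curve with a rational function `w` which omits `0`, `1`, and the values of an elliptic function, or has finitely many values on
one fibre (project LOG-R)
-/

set_option autoImplicit false

open MvPolynomial Topology Filter

noncomputable section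

namespace Pool.Agent.H86.LR

attribute [-instance] ProperSMul.toContinuousSMul

open Pool.Agent.H17 (PN VanishesAt)
open Pool.Agent.H13.SM (conTan)
open Pool.Agent.H17EF (projVar IsHolomorphicMap)
open Pool.Agent.H62.EF (Lat)
open Pool.Agent.H62.SA (locVar)
open Pool.Agent.H36.LB (IsCurveComplement)
open Pool.Agent.H19Q (QSurface)
open Pool.Agent.H46.LR (HasValue)

variable {N : ℕ}

/-- the rational functions `A / B` and `W₁ / W₂` are algebraically independent -/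
structure IsInd {s : ℕ} (P : Ideal (MvPolynomial (Fin (N + 1)) ℂ)) (G : Fin s → MvPolynomial (Fin (N + 1)) ℂ)
    (A B W₁ W₂ : MvPolynomial (Fin (N + 1)) ℂ) : Prop where
  form : ∃ D : ℕ, A.IsHomogeneous D ∧ B.IsHomogeneous D
  form' : ∃ D : ℕ, W₁.IsHomogeneous D ∧ W₂.IsHomogeneous D
  indep : ∀ Φ : MvPolynomial (Fin 2) ℂ, Φ ≠ 0 → ∃ x ∈ locVar P G, ¬ VanishesAt B x ∧ ¬ VanishesAt W₂ x ∧
    eval ![eval x.rep A / eval x.rep B, eval x.rep W₁ / eval x.rep W₂] Φ ≠ 0

/-- `h` is an elliptic function for the lattice `Λ`. -/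
structure IsElliptic (Λ : AddSubgroup ℂ) (h : ℂ → ℂ) : Prop where
  meromorphic : ∀ z, MeromorphicAt h z
  periodic : ∀ z, ∀ l ∈ Λ, h (z + l) = h z

/-- The rational function `A / B` on `U = locVar P G` is `h ∘ u`. -/
structure IsPullback {s : ℕ} (P : Ideal (MvPolynomial (Fin (N + 1)) ℂ)) (G : Fin s → MvPolynomial (Fin (N + 1)) ℂ) {Λ : AddSubgroup ℂ}
    (u : PN N → ℂ ⧸ Λ) (h : ℂ → ℂ) (A B : MvPolynomial (Fin (N + 1)) ℂ) : Prop where
  value : ∀ x ∈ locVar P G, ∀ z : ℂ, ((z : ℂ) : ℂ ⧸ Λ) = u x → ∀ v : ℂ, Tendsto h (𝓝[≠] z) (𝓝 v) → HasValue P A B x v 1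
  pole : ∀ x ∈ locVar P G, ∀ z : ℂ, ((z : ℂ) : ℂ ⧸ Λ) = u x → Tendsto h (𝓝[≠] z) (Bornology.cobounded ℂ) → HasValue P A B x 1 0

/-- At all points `x` of `U` with `u x ∉ B₀` the function `w` is regular and `w x ≠ 0, 1`. -/
def Omits {s : ℕ} (P : Ideal (MvPolynomial (Fin (N + 1)) ℂ)) (G : Fin s → MvPolynomial (Fin (N + 1)) ℂ) {Λ : AddSubgroup ℂ}
    (u : PN N → ℂ ⧸ Λ) (W₁ W₂ : MvPolynomial (Fin (N + 1)) ℂ) (B₀ : Set (ℂ ⧸ Λ)) : Prop :=
  ∀ x ∈ locVar P G, u x ∉ B₀ → ∃ w, w ≠ 0 ∧ w ≠ 1 ∧ HasValue P W₁ W₂ x w 1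

/-- At all points `x` of `U` with `u x ∉ B₀` one has `w x ≠ λ (u x)`; here `λ` is the function on `ℂ / Λ` which is given by the elliptic function `L`. -/
def OmitsSection {s : ℕ} (P : Ideal (MvPolynomial (Fin (N + 1)) ℂ)) (G : Fin s → MvPolynomial (Fin (N + 1)) ℂ) {Λ : AddSubgroup ℂ}
    (u : PN N → ℂ ⧸ Λ) (W₁ W₂ : MvPolynomial (Fin (N + 1)) ℂ) (B₀ : Set (ℂ ⧸ Λ)) (L : ℂ → ℂ) : Prop :=
  ∀ x ∈ locVar P G, u x ∉ B₀ → ∀ z w : ℂ, ((z : ℂ) : ℂ ⧸ Λ) = u x → AnalyticAt ℂ L z → HasValue P W₁ W₂ x w 1 → w ≠ L z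

/-- At all points of `U` with `u x = c` the map `w` to `ℙ¹` is regular, and it has finitely many values at these points. -/
def FiniteOver {s : ℕ} (P : Ideal (MvPolynomial (Fin (N + 1)) ℂ)) (G : Fin s → MvPolynomial (Fin (N + 1)) ℂ) {Λ : AddSubgroup ℂ}
    (u : PN N → ℂ ⧸ Λ) (W₁ W₂ : MvPolynomial (Fin (N + 1)) ℂ) (c : ℂ ⧸ Λ) : Prop :=
  ∃ S : Finset (ℂ × ℂ), ((0 : ℂ), (0 : ℂ)) ∉ S ∧ ∀ x ∈ locVar P G, u x = c → ∃ s ∈ S, HasValue P W₁ W₂ x s.1 s.2

/-- `U` is the complement of a curve in a smooth projective surface `X`, and there are a holomorphic map `u` from `X` to an elliptic curve `ℂ / Λ` and a rational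
function `w` which are independent (that is, `h ∘ u` and `w` are algebraically independent for some elliptic function `h`), such that, outside finitely many fibres
of `u`, the function `w` is regular and omits the values `0` and `1`, and either it omits also the values of the function `λ ∘ u` there, where `λ` is a nonconstant
function on the elliptic curve, or, near some fibre of `u`, `w` is a regular map to `ℙ¹`, with finitely many values on this fibre. -/
structure IsBaseRE (U : QSurface) : Prop where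
  /-- the closure of `U` is smooth -/
  smooth : ∀ y : Fin (U.N + 1) → ℂ, y ≠ 0 → (∀ Q ∈ U.P, eval y Q = 0) → Module.finrank ℂ (conTan U.P y) ≤ 3
  curve : IsCurveComplement U.P U.G
  model : ∃ (Λ : AddSubgroup ℂ) (u : PN U.N → ℂ ⧸ Λ) (h : ℂ → ℂ) (A B W₁ W₂ : MvPolynomial (Fin (U.N + 1)) ℂ) (B₀ : Set (ℂ ⧸ Λ)),
    Lat Λ ∧ IsHolomorphicMap (projVar U.P) Λ u ∧ IsElliptic Λ h ∧ IsPullback U.P U.G u h A B ∧ IsInd U.P U.G A B W₁ W₂ ∧ B₀.Finite ∧
    Omits U.P U.G u W₁ W₂ B₀ ∧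
      ((∃ L : ℂ → ℂ, IsElliptic Λ L ∧ (∀ κ : ℂ, ∃ z, AnalyticAt ℂ L z ∧ L z ≠ κ) ∧ OmitsSection U.P U.G u W₁ W₂ B₀ L) ∨
        ∃ c : ℂ ⧸ Λ, FiniteOver U.P U.G u W₁ W₂ c)

end Pool.Agent.H86.LR

end
end

section

/-!
# H19E FunE: translation of the definitions for surfaces with a rational function which omits values (project LOG-R)
-/

set_option autoImplicit false

open Topology Filter MvPolynomial

noncomputable section

namespace Pool.Agent.H19E.V4

attribute [-instance] ProperSMul.toContinuousSMul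

open Pool.Agent.H17 (PN VanishesAt HolomorphicInto)
open Pool.Agent.H62.SA (locVar)
open Pool.Agent.H19Q (QSurface)

variable {Λ : AddSubgroup ℂ}

theorem rep_pn (p : PN 1) : Rep ![p.rep 0, p.rep 1] p := by
  have h : ![p.rep 0, p.rep 1] = p.rep := by
    funext i
    fin_cases i <;> rfl
  rw [h]
  exact ⟨p.rep_nonzero, (Projectivization.mk_rep p).symm⟩

/-- coordinates of the same point -/
theorem Rep.ratio {v v' : Fin 2 → ℂ} {q : PN 1} (h : Rep v q) (h' : Rep v' q) : ∃ k : ℂ, k ≠ 0 ∧ v = k • v' := by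
  obtain ⟨h1, rfl⟩ := h
  obtain ⟨h2, h3⟩ := h'
  rw [Projectivization.mk_eq_mk_iff'] at h3
  obtain ⟨a, ha⟩ := h3
  refine ⟨a, fun h => h1 ?_, ha.symm⟩
  rw [← ha, h, zero_smul]

theorem Rep.congr {v v' : Fin 2 → ℂ} {q : PN 1} (h : Rep v q) {k : ℂ} (hk : v = k • v') : Rep v' q := by
  obtain ⟨h1, rfl⟩ := h
  have h2 : v' ≠ 0 := fun h => h1 (by rw [hk, h, smul_zero])
  refine ⟨h2, ?_⟩
  rw [Projectivization.mk_eq_mk_iff']
  exact ⟨k, hk.symm⟩

/-- the value in the other formulation -/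
theorem HasValue.tr {U : QSurface} {W : Fin 2 → MvPolynomial (Fin (U.N + 1)) ℂ} {x : PN U.N} {q : PN 1} (h : HasValue U W x q) {s t : ℂ}
    (hq : Rep ![s, t] q) : Pool.Agent.H46.LR.HasValue U.P (W 0) (W 1) x s t := by
  obtain ⟨γ, ⟨d, hd⟩, h1, y, ⟨hy, rfl⟩, h2⟩ := h
  obtain ⟨a, ha, hrep⟩ := Pool.Agent.H36.BP.rep_mk hy
  have hv : ∀ i, eval (Projectivization.mk ℂ y hy).rep (γ i) = a ^ d * eval y (γ i) := fun i => by
    rw [hrep]
    exact Pool.Agent.H17BP.eval_smul_form (hd i) a y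
  have had : a ^ d ≠ 0 := pow_ne_zero _ ha
  obtain ⟨k, hk, hkv⟩ := h2.ratio hq
  have h3 : eval y (γ 0) = k * s := congrFun hkv 0
  have h4 : eval y (γ 1) = k * t := congrFun hkv 1
  refine ⟨d, γ 0, γ 1, hd 0, hd 1, h1, ?_, ?_⟩
  · rintro ⟨h5, h6⟩
    unfold VanishesAt at h5 h6
    rw [hv] at h5 h6
    obtain ⟨hne, -⟩ := h2
    apply hne
    funext i
    fin_cases i
    · exact (mul_eq_zero.1 h5).resolve_left had
    · exact (mul_eq_zero.1 h6).resolve_left had
  · rw [hv, hv, h3, h4]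
    ring

theorem hasValue_of {U : QSurface} {W : Fin 2 → MvPolynomial (Fin (U.N + 1)) ℂ} {x : PN U.N} {w : ℂ}
    (h : Pool.Agent.H46.LR.HasValue U.P (W 0) (W 1) x w 1) (h1 : (![w, 1] : Fin 2 → ℂ) ≠ 0) : HasValue U W x (Projectivization.mk ℂ ![w, 1] h1) := by
  obtain ⟨d, a, b, ha, hb, h2, h3, h4⟩ := h
  rw [mul_one] at h4
  have hb0 : eval x.rep b ≠ 0 := by
    intro h5
    refine h3 ⟨?_, h5⟩
    unfold VanishesAt
    rw [h4, h5, zero_mul]
  refine ⟨![a, b], ⟨d, fun i => ?_⟩, h2, x.rep, ⟨x.rep_nonzero, (Projectivization.mk_rep x).symm⟩, ?_⟩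
  · fin_cases i
    · exact ha
    · exact hb
  · have h5 : vals ![a, b] x.rep = eval x.rep b • ![w, 1] := by
      funext i
      fin_cases i
      · exact h4
      · show eval x.rep b = eval x.rep b * 1
        rw [mul_one]
    refine ⟨by rw [h5]; exact smul_ne_zero hb0 h1, ?_⟩
    rw [Projectivization.mk_eq_mk_iff']
    refine ⟨(eval x.rep b)⁻¹, ?_⟩
    rw [h5, smul_smul, inv_mul_cancel₀ hb0, one_smul]

/-- the function given by a map to the projective line -/
def fn (S : ℂ ⧸ Λ → PN 1) (z : ℂ) : ℂ := (S z).rep 0 / (S z).rep 1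

theorem fn_eq {S : ℂ ⧸ Λ → PN 1} {z : ℂ} {v : Fin 2 → ℂ} (h : Rep v (S z)) : fn S z = v 0 / v 1 := by
  obtain ⟨k, hk, hkv⟩ := h.ratio (rep_pn (S z))
  have h0 : v 0 = k * (S z).rep 0 := congrFun hkv 0
  have h1 : v 1 = k * (S z).rep 1 := congrFun hkv 1
  unfold fn
  rw [h0, h1, mul_div_mul_left _ _ hk]

/-- The map `S` is constant near no point. -/
theorem IsElliptic.not_const {S : ℂ ⧸ Λ → PN 1} (hS : IsElliptic S) (z₀ : ℂ) (q : PN 1) : ¬ ∀ᶠ z : ℂ in 𝓝 z₀, S z = q := by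
  intro h
  have hc : HolomorphicInto (fun _ : ℂ => q) Set.univ := fun z _ =>
    ⟨fun _ => q.rep, analyticAt_const, Eventually.of_forall fun _ => ⟨q.rep_nonzero, (Projectivization.mk_rep q).symm⟩⟩
  have h1 := Pool.Agent.H7.Bir.pn_identity isPreconnected_univ hS.1 hc (Set.mem_univ z₀) h
  obtain ⟨c, c', hne⟩ := hS.2
  obtain ⟨z, rfl⟩ := QuotientAddGroup.mk_surjective c
  obtain ⟨z', rfl⟩ := QuotientAddGroup.mk_surjective c'
  exact hne ((h1 z (Set.mem_univ _)).trans (h1 z' (Set.mem_univ _)).symm)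

/-- local coordinates of the map near a point: no linear combination of the coordinates is zero near the point -/
theorem IsElliptic.local {S : ℂ ⧸ Λ → PN 1} (hS : IsElliptic S) (z₀ : ℂ) : ∃ φ : ℂ → Fin 2 → ℂ, AnalyticAt ℂ φ z₀ ∧ (∀ᶠ z : ℂ in 𝓝 z₀, Rep (φ z) (S z)) ∧
    ∀ a b : ℂ, (a ≠ 0 ∨ b ≠ 0) → ∀ᶠ z in 𝓝[≠] z₀, a * φ z 0 + b * φ z 1 ≠ 0 := by
  obtain ⟨φ, hφ, he⟩ := hS.1 z₀ (Set.mem_univ _)
  have hrep : ∀ᶠ z : ℂ in 𝓝 z₀, Rep (φ z) (S z) := he
  refine ⟨φ, hφ, hrep, fun a b hab => ?_⟩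
  have hφi : ∀ i, AnalyticAt ℂ (fun z => φ z i) z₀ := fun i => analyticAt_pi_iff.1 hφ i
  have h1 : AnalyticAt ℂ (fun z => a * φ z 0 + b * φ z 1) z₀ := (analyticAt_const.mul (hφi 0)).add (analyticAt_const.mul (hφi 1))
  refine h1.eventually_eq_zero_or_eventually_ne_zero.resolve_left fun h2 => ?_
  have hv : (![b, -a] : Fin 2 → ℂ) ≠ 0 := by
    intro h3
    have h4 : b = 0 := congrFun h3 0
    have h5 : -a = 0 := congrFun h3 1
    rcases hab with h6 | h6
    · exact h6 (neg_eq_zero.1 h5)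
    · exact h6 h4
  refine hS.not_const z₀ (Projectivization.mk ℂ ![b, -a] hv) ?_
  filter_upwards [h2, hrep] with z hz hz'
  obtain ⟨h3, h4⟩ := hz'
  rw [h4, Projectivization.mk_eq_mk_iff']
  -- `φ z` is a multiple of `(b, -a)`
  by_cases hb : b = 0
  · have ha : a ≠ 0 := hab.resolve_right fun h => h hb
    have h5 : φ z 0 = 0 := by
      rw [hb, zero_mul, add_zero] at hz
      exact (mul_eq_zero.1 hz).resolve_left ha
    refine ⟨-(φ z 1) / a, ?_⟩
    funext i
    fin_cases i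
    · show -(φ z 1) / a * b = φ z 0
      rw [hb, mul_zero, h5]
    · show -(φ z 1) / a * -a = φ z 1
      field_simp
  · refine ⟨φ z 0 / b, ?_⟩
    funext i
    fin_cases i
    · show φ z 0 / b * b = φ z 0
      field_simp
    · show φ z 0 / b * -a = φ z 1
      field_simp
      linear_combination -hz

theorem IsElliptic.mero {S : ℂ ⧸ Λ → PN 1} (hS : IsElliptic S) : Pool.Agent.H86.LR.IsElliptic Λ (fn S) where
  meromorphic := fun z => by
    obtain ⟨φ, hφ, he, -⟩ := hS.local z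
    have hφi : ∀ i, AnalyticAt ℂ (fun z => φ z i) z := fun i => analyticAt_pi_iff.1 hφ i
    refine ((hφi 0).meromorphicAt.div (hφi 1).meromorphicAt).congr ?_
    refine Filter.Eventually.filter_mono nhdsWithin_le_nhds ?_
    filter_upwards [he] with w hw
    exact (fn_eq hw).symm
  periodic := fun z l hl => by
    have h1 : ((z + l : ℂ) : ℂ ⧸ Λ) = (z : ℂ ⧸ Λ) := by
      rw [QuotientAddGroup.eq]
      rw [show -(z + l) + z = -l by ring]
      exact Λ.neg_mem hl
    unfold fn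
    rw [h1]

theorem IsElliptic.value {S : ℂ ⧸ Λ → PN 1} (hS : IsElliptic S) {z v : ℂ} (h : Tendsto (fn S) (𝓝[≠] z) (𝓝 v)) : Rep ![v, 1] (S z) := by
  obtain ⟨φ, hφ, he, hne⟩ := hS.local z
  have hφi : ∀ i, Tendsto (fun z => φ z i) (𝓝[≠] z) (𝓝 (φ z i)) := fun i =>
    ((analyticAt_pi_iff.1 hφ i).continuousAt.tendsto).mono_left nhdsWithin_le_nhds
  have h1 : Tendsto (fun w => φ w 0 - fn S w * φ w 1) (𝓝[≠] z) (𝓝 (φ z 0 - v * φ z 1)) := (hφi 0).sub (h.mul (hφi 1))
  have h2 : ∀ᶠ w in 𝓝[≠] z, φ w 0 - fn S w * φ w 1 = 0 := by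
    filter_upwards [hne 0 1 (Or.inr one_ne_zero), Filter.Eventually.filter_mono nhdsWithin_le_nhds he] with w hw hw'
    rw [zero_mul, zero_add, one_mul] at hw
    rw [fn_eq hw', div_mul_cancel₀ _ hw, sub_self]
  have h3 : φ z 0 - v * φ z 1 = 0 := tendsto_nhds_unique (h1.congr' h2) tendsto_const_nhds
  refine he.self_of_nhds.congr (k := φ z 1) ?_
  funext i
  fin_cases i
  · show φ z 0 = φ z 1 * v
    linear_combination h3
  · show φ z 1 = φ z 1 * 1
    rw [mul_one]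

theorem IsElliptic.pole {S : ℂ ⧸ Λ → PN 1} (hS : IsElliptic S) {z : ℂ} (h : Tendsto (fn S) (𝓝[≠] z) (Bornology.cobounded ℂ)) : Rep ![1, 0] (S z) := by
  obtain ⟨φ, hφ, he, hne⟩ := hS.local z
  have h1 : φ z 1 = 0 := by
    by_contra hcon
    have hφi : ∀ i, Tendsto (fun z => φ z i) (𝓝[≠] z) (𝓝 (φ z i)) := fun i =>
      ((analyticAt_pi_iff.1 hφ i).continuousAt.tendsto).mono_left nhdsWithin_le_nhds
    have h2 : Tendsto (fn S) (𝓝[≠] z) (𝓝 (φ z 0 / φ z 1)) := by
      refine ((hφi 0).div (hφi 1) hcon).congr' ?_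
      filter_upwards [Filter.Eventually.filter_mono nhdsWithin_le_nhds he] with w hw
      exact (fn_eq hw).symm
    have h3 := h2.norm
    exact not_tendsto_atTop_of_tendsto_nhds h3 (tendsto_norm_cobounded_atTop.comp h)
  refine he.self_of_nhds.congr (k := φ z 0) ?_
  funext i
  fin_cases i
  · show φ z 0 = φ z 0 * 1
    rw [mul_one]
  · show φ z 1 = φ z 0 * 0
    rw [mul_zero, h1]

theorem IsElliptic.ne_const {S : ℂ ⧸ Λ → PN 1} (hS : IsElliptic S) (κ : ℂ) : ∃ z, AnalyticAt ℂ (fn S) z ∧ fn S z ≠ κ := by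
  obtain ⟨φ, hφ, he, hne⟩ := hS.local 0
  have h1 := hne 0 1 (Or.inr one_ne_zero)
  have h2 := hne 1 (-κ) (Or.inl one_ne_zero)
  obtain ⟨w, ⟨h3, h4⟩, h5, h6⟩ := ((h1.and h2).and (Filter.Eventually.filter_mono nhdsWithin_le_nhds
    ((hφ.eventually_analyticAt).and (he.eventually_nhds)))).exists
  rw [zero_mul, zero_add, one_mul] at h3
  have hφi : ∀ i, AnalyticAt ℂ (fun z => φ z i) w := fun i => analyticAt_pi_iff.1 h5 i
  refine ⟨w, ((hφi 0).div (hφi 1) h3).congr ?_, fun h => h4 ?_⟩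
  · filter_upwards [h6] with z hz
    exact (fn_eq hz).symm
  · rw [fn_eq h6.self_of_nhds, div_eq_iff h3] at h
    rw [h]
    ring

/-- the basic surfaces with a rational function -/
theorem HasFunction.tr {U : QSurface} {w : Fin 2 → ℂ} {u : PN U.N → ℂ ⧸ AddSubgroup.closure (Set.range w)}
    {W : Fin 2 → MvPolynomial (Fin (U.N + 1)) ℂ}
    (hsm : ∀ y : Fin (U.N + 1) → ℂ, y ≠ 0 → (∀ Q ∈ U.P, eval y Q = 0) → Module.finrank ℂ (Pool.Agent.H13.SM.conTan U.P y) ≤ 3)
    (ho : IsOver U w u) (h : HasFunction U u W) : Pool.Agent.H86.LR.IsBaseRE U := by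
  obtain ⟨R, A, hR, ⟨dA, hA⟩, hval, hind⟩ := h.independent
  obtain ⟨B, hB, hom, hcase⟩ := h.omits
  obtain ⟨dW, hW⟩ := h.forms
  refine ⟨hsm, ho.curve, AddSubgroup.closure (Set.range w), u, fn R, A 0, A 1, W 0, W 1, B, Pool.Agent.H17EF.lat_of_basis ho.lattice, ho.holomorphic,
    hR.mero, ⟨fun x hx z hz v hv => ?_, fun x hx z hz hv => ?_⟩, ⟨⟨dA, hA 0, hA 1⟩, ⟨dW, hW 0, hW 1⟩, fun Φ hΦ => ?_⟩, hB, fun x hx hxB => ?_, ?_⟩
  · refine (hval x hx).tr ?_
    rw [← hz]
    exact hR.value hv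
  · refine (hval x hx).tr ?_
    rw [← hz]
    exact hR.pole hv
  · obtain ⟨y, x, hx, ⟨hy, rfl⟩, h1, h2, h3⟩ := hind Φ hΦ
    obtain ⟨a, ha, hrep⟩ := Pool.Agent.H36.BP.rep_mk hy
    have hvA : ∀ i, eval (Projectivization.mk ℂ y hy).rep (A i) = a ^ dA * eval y (A i) := fun i => by
      rw [hrep]
      exact Pool.Agent.H17BP.eval_smul_form (hA i) a y
    have hvW : ∀ i, eval (Projectivization.mk ℂ y hy).rep (W i) = a ^ dW * eval y (W i) := fun i => by
      rw [hrep]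
      exact Pool.Agent.H17BP.eval_smul_form (hW i) a y
    refine ⟨_, hx, ?_, ?_, ?_⟩
    · unfold VanishesAt
      rw [hvA]
      exact mul_ne_zero (pow_ne_zero _ ha) h1
    · unfold VanishesAt
      rw [hvW]
      exact mul_ne_zero (pow_ne_zero _ ha) h2
    · rw [hvA, hvA, hvW, hvW, mul_div_mul_left _ _ (pow_ne_zero _ ha), mul_div_mul_left _ _ (pow_ne_zero _ ha)]
      exact h3
  · obtain ⟨q, hq, h0, h1, h2⟩ := hom x hx hxB
    have hr := rep_pn q
    have hr1 : q.rep 1 ≠ 0 := by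
      intro h3
      refine h2 (hr.congr (k := q.rep 0) ?_)
      funext i
      fin_cases i
      · show q.rep 0 = q.rep 0 * 1
        rw [mul_one]
      · show q.rep 1 = q.rep 0 * 0
        rw [mul_zero, h3]
    have hr2 : Rep ![q.rep 0 / q.rep 1, 1] q := by
      refine hr.congr (k := q.rep 1) ?_
      funext i
      fin_cases i
      · show q.rep 0 = q.rep 1 * (q.rep 0 / q.rep 1)
        field_simp
      · show q.rep 1 = q.rep 1 * 1
        rw [mul_one]
    refine ⟨q.rep 0 / q.rep 1, fun h3 => h0 ?_, fun h3 => h1 ?_, hq.tr hr2⟩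
    · rwa [h3] at hr2
    · rwa [h3] at hr2
  · rcases hcase with ⟨S, hS, h1⟩ | ⟨c, T, hT, h1⟩
    · refine Or.inl ⟨fn S, hS.mero, hS.ne_const, fun x hx hxB z w hz hL hv heq => ?_⟩
      have h2 : (![w, 1] : Fin 2 → ℂ) ≠ 0 := fun h => one_ne_zero (congrFun h 1)
      refine h1 x hx hxB _ (hasValue_of hv h2) ?_
      rw [← hz]
      obtain ⟨h3, h4⟩ := hS.value (hL.continuousAt.tendsto.mono_left nhdsWithin_le_nhds)
      rw [h4]
      congr 1
      rw [heq]
    · classical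
      refine Or.inr ⟨c, hT.toFinset.image fun q => (q.rep 0, q.rep 1), fun h2 => ?_, fun x hx hxc => ?_⟩
      · obtain ⟨q, -, hq⟩ := Finset.mem_image.1 h2
        apply q.rep_nonzero
        funext i
        fin_cases i
        · exact (Prod.mk.inj hq).1
        · exact (Prod.mk.inj hq).2
      · obtain ⟨q, hq, hq'⟩ := h1 x hx hxc
        exact ⟨_, Finset.mem_image_of_mem _ (hT.mem_toFinset.2 hq), hq'.tr (rep_pn q)⟩

end Pool.Agent.H19E.V4

end
end

section

/-!
# LR Ind: the lemmas of helper46 (H46 LR Alg) for two independent rational functions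

* `exists_polyForm`: if `Φ ≠ 0` then `Φ (e, w) = 0` only on a proper closed subset.
* `exists_constForm`: outside a proper closed subset the fibres of `(e, w)` are finite.
-/

set_option autoImplicit false

open Topology Filter MvPolynomial

noncomputable section

namespace Pool.Agent.H86.LR

attribute [-instance] ProperSMul.toContinuousSMul

open Pool.Agent.H17 (PN VanishesAt)
open Pool.Agent.H17GT (coordFun functionField)
open Pool.Agent.H17LG.Variety (FunField ratio)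
open Pool.Agent.H17R (gen gen_eq_zero_iff ratio_self coordFun_ne_zero_iff)
open Pool.Agent.H17EF (projVar)
open Pool.Agent.H62.FC (Homog)
open Pool.Agent.H62.SA (locVar)
open Pool.Agent.H46.LR (homF le_of_mem homF_hom homF_map eval_homF sum_aux)

variable {N : ℕ}

section

variable {P : Ideal (MvPolynomial (Fin (N + 1)) ℂ)} {s : ℕ} {G : Fin s → MvPolynomial (Fin (N + 1)) ℂ} {A B W₁ W₂ : MvPolynomial (Fin (N + 1)) ℂ}

theorem homF_not_mem (h : IsInd P G A B W₁ W₂) {Φ : MvPolynomial (Fin 2) ℂ} (hΦ : Φ ≠ 0) {d : ℕ} (hd : Φ.totalDegree ≤ d) :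
    homF A B W₁ W₂ d Φ ∉ P := by
  obtain ⟨D, hA, hB⟩ := h.form
  obtain ⟨D', hW₁, hW₂⟩ := h.form'
  obtain ⟨x, hx, hBx, hWx, hΦx⟩ := h.indep Φ hΦ
  intro hmem
  have h1 := hx.1 _ hmem _ (homF_hom hA hB hW₁ hW₂ hd)
  unfold VanishesAt at h1 hBx hWx
  rw [eval_homF x.rep hBx hWx hd] at h1
  exact mul_ne_zero (mul_ne_zero (pow_ne_zero _ hBx) (pow_ne_zero _ hWx)) hΦx h1

/-- `Φ (e, w) = 0` only on a proper closed subset. -/
theorem exists_polyForm (h : IsInd P G A B W₁ W₂) {Φ : MvPolynomial (Fin 2) ℂ} (hΦ : Φ ≠ 0) :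
    ∃ (n : ℕ) (R : MvPolynomial (Fin (N + 1)) ℂ), R.IsHomogeneous n ∧ R ∉ P ∧ ∀ x : PN N, ¬ VanishesAt B x → ¬ VanishesAt W₂ x →
      eval ![eval x.rep A / eval x.rep B, eval x.rep W₁ / eval x.rep W₂] Φ = 0 → VanishesAt R x := by
  obtain ⟨D, hA, hB⟩ := h.form
  obtain ⟨D', hW₁, hW₂⟩ := h.form'
  refine ⟨_, homF A B W₁ W₂ Φ.totalDegree Φ, homF_hom hA hB hW₁ hW₂ le_rfl, homF_not_mem h hΦ le_rfl, fun x hBx hWx hx => ?_⟩
  unfold VanishesAt
  rw [eval_homF x.rep hBx hWx le_rfl, hx, mul_zero]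

theorem IsInd.B_notMem (h : IsInd P G A B W₁ W₂) : B ∉ P := by
  obtain ⟨D, -, hB⟩ := h.form
  obtain ⟨x, hx, hBx, -, -⟩ := h.indep 1 one_ne_zero
  exact fun hmem => hBx (hx.1 _ hmem _ hB)

theorem IsInd.W_notMem (h : IsInd P G A B W₁ W₂) : W₂ ∉ P := by
  obtain ⟨D, -, hW⟩ := h.form'
  obtain ⟨x, hx, -, hWx, -⟩ := h.indep 1 one_ne_zero
  exact fun hmem => hWx (hx.1 _ hmem _ hW)

theorem IsInd.sub_notMem (h : IsInd P G A B W₁ W₂) (c : ℂ) : A - C c * B ∉ P := by
  obtain ⟨D, hA, hB⟩ := h.form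
  have hΦ : (X 0 - C c : MvPolynomial (Fin 2) ℂ) ≠ 0 := by
    intro h0
    have h1 := congrArg (eval (fun _ => c + 1)) h0
    simp at h1
  obtain ⟨x, hx, hBx, -, hΦx⟩ := h.indep _ hΦ
  intro hmem
  have hAc : (A - C c * B).IsHomogeneous D := by
    have h1 := (isHomogeneous_C (Fin (N + 1)) c).mul hB
    rw [zero_add] at h1
    exact hA.sub h1
  have h1 := hx.1 _ hmem _ hAc
  unfold VanishesAt at h1 hBx
  apply hΦx
  rw [map_sub, map_mul, eval_C] at h1
  rw [map_sub, eval_X, eval_C, Matrix.cons_val_zero, sub_eq_zero.1 h1, mul_div_assoc, div_self hBx, mul_one, sub_self]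

/-- **The fibres of `(e, w)`**: outside a proper closed subset they are finite. -/
theorem exists_constForm [P.IsPrime] {z : Fin 2 → FunField P} (hz : IsTranscendenceBasis ℂ z) (h : IsInd P G A B W₁ W₂) :
    ∃ (n : ℕ) (R : MvPolynomial (Fin (N + 1)) ℂ), R.IsHomogeneous n ∧ R ∉ P ∧ ∀ e₀ w₀ : ℂ,
      {x : PN N | x ∈ projVar P ∧ ¬ VanishesAt B x ∧ ¬ VanishesAt W₂ x ∧ ¬ VanishesAt R x ∧ eval x.rep A / eval x.rep B = e₀ ∧
        eval x.rep W₁ / eval x.rep W₂ = w₀}.Finite := by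
  classical
  obtain ⟨D, hA, hB⟩ := h.form
  obtain ⟨D', hW₁, hW₂⟩ := h.form'
  -- a coordinate which is not zero
  obtain ⟨x₀, hx₀, -⟩ := h.indep 1 one_ne_zero
  obtain ⟨j, hj⟩ : ∃ j, (X j : MvPolynomial (Fin (N + 1)) ℂ) ∉ P := by
    by_contra hcon
    push Not at hcon
    apply x₀.rep_nonzero
    funext i
    have := hx₀.1 _ (hcon i) 1 (isHomogeneous_X ℂ i)
    unfold VanishesAt at this
    rwa [eval_X] at this
  have hcj : coordFun P j ≠ 0 := coordFun_ne_zero_iff.2 hj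
  set η : Fin (N + 1) → FunField P := fun i => ratio P i j with hη
  have hηj : η j = 1 := ratio_self hcj
  have hgen : ∀ (n : ℕ) (Q : MvPolynomial (Fin (N + 1)) ℂ), Q.IsHomogeneous n → (aeval η Q = 0 ↔ Q ∈ P) := fun n Q hQ => gen_eq_zero_iff hcj hQ
  have hBη : aeval η B ≠ 0 := fun h0 => h.B_notMem ((hgen _ _ hB).1 h0)
  have hWη : aeval η W₂ ≠ 0 := fun h0 => h.W_notMem ((hgen _ _ hW₂).1 h0)
  set y : Fin 2 → FunField P := ![aeval η A / aeval η B, aeval η W₁ / aeval η W₂] with hy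
  have hind : AlgebraicIndependent ℂ y := by
    rw [algebraicIndependent_iff]
    intro Φ hΦ
    by_contra h0
    apply homF_not_mem h h0 le_rfl
    rw [← hgen _ _ (homF_hom hA hB hW₁ hW₂ le_rfl), homF_map (aeval η) hBη hWη le_rfl, ← hy, hΦ, mul_zero]
  have hbas : IsTranscendenceBasis ℂ y := by
    refine hind.isTranscendenceBasis_of_trdeg_le_of_finite ?_
    rw [hz.cardinalMk_eq_trdeg]
  have halg := hbas.isAlgebraic
  -- the coordinates are algebraic over `ℂ (e, w)`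
  have hcoord : ∀ i : Fin (N + 1), ∃ (d m : ℕ) (c : ℕ → MvPolynomial (Fin 2) ℂ), (∀ k ≤ m, (c k).totalDegree ≤ d) ∧ c m ≠ 0 ∧
      (∃ n, (∑ k ∈ Finset.range (m + 1), homF A B W₁ W₂ d (c k) * (X i ^ k * X j ^ (m - k))).IsHomogeneous n) ∧
      (∑ k ∈ Finset.range (m + 1), homF A B W₁ W₂ d (c k) * (X i ^ k * X j ^ (m - k))) ∈ P := by
    intro i
    obtain ⟨p, hp0, hp⟩ := halg.isAlgebraic (η i)
    have hmem : ∀ a ∈ Algebra.adjoin ℂ (Set.range y), ∃ c : MvPolynomial (Fin 2) ℂ, aeval y c = a := by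
      intro a ha
      rw [Algebra.adjoin_range_eq_range_aeval] at ha
      exact ha
    have hc : ∀ k, ∃ c : MvPolynomial (Fin 2) ℂ, aeval y c = ((p.coeff k : Algebra.adjoin ℂ (Set.range y)) : FunField P) := fun k =>
      hmem _ (p.coeff k).2
    choose c hc using hc
    rw [Polynomial.aeval_eq_sum_range] at hp
    have hp' : ∑ k ∈ Finset.range (p.natDegree + 1), aeval y (c k) * η i ^ k = 0 := by
      rw [← hp]
      refine Finset.sum_congr rfl fun k _ => ?_
      rw [hc]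
      rfl
    have hdeg : ∀ k ≤ p.natDegree, (c k).totalDegree ≤ ∑ k ∈ Finset.range (p.natDegree + 1), (c k).totalDegree := fun k hk =>
      Finset.single_le_sum (f := fun k => (c k).totalDegree) (fun _ _ => Nat.zero_le _) (Finset.mem_range.2 (Nat.lt_succ_of_le hk))
    have hF : (∑ k ∈ Finset.range (p.natDegree + 1), homF A B W₁ W₂ (∑ k ∈ Finset.range (p.natDegree + 1), (c k).totalDegree) (c k) *
        (X i ^ k * X j ^ (p.natDegree - k))).IsHomogeneous (D * (∑ k ∈ Finset.range (p.natDegree + 1), (c k).totalDegree) +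
          D' * (∑ k ∈ Finset.range (p.natDegree + 1), (c k).totalDegree) + p.natDegree) := by
      refine IsHomogeneous.sum _ _ _ fun k hk => ?_
      have hk' : k ≤ p.natDegree := Nat.lt_succ_iff.1 (Finset.mem_range.1 hk)
      have h1 := (isHomogeneous_X_pow (R := ℂ) i k).mul (isHomogeneous_X_pow (R := ℂ) j (p.natDegree - k))
      rw [Nat.add_sub_cancel' hk'] at h1
      exact (homF_hom hA hB hW₁ hW₂ (hdeg k hk')).mul h1
    refine ⟨∑ k ∈ Finset.range (p.natDegree + 1), (c k).totalDegree, p.natDegree, c, hdeg, ?_, ⟨_, hF⟩, ?_⟩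
    · intro h0
      have h1 := hc p.natDegree
      rw [h0, map_zero] at h1
      have h2 : p.coeff p.natDegree = 0 := Subtype.ext h1.symm
      exact hp0 (Polynomial.leadingCoeff_eq_zero.1 h2)
    · set d := ∑ k ∈ Finset.range (p.natDegree + 1), (c k).totalDegree with hd
      rw [← hgen _ _ hF, map_sum]
      refine sum_aux (aeval η B ^ d * aeval η W₂ ^ d) _ _ _ (fun k hk => ?_) hp'
      have hk' : k ≤ p.natDegree := Nat.lt_succ_iff.1 (Finset.mem_range.1 hk)
      rw [map_mul, homF_map (aeval η) hBη hWη (hdeg k hk'), ← hy, map_mul, map_pow, map_pow, aeval_X, aeval_X, hηj, one_pow, mul_one,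
        mul_assoc]
  choose d m c hd hcm hhom hmem using hcoord
  refine ⟨_, X j * ∏ i, homF A B W₁ W₂ (d i) (c i (m i)), (isHomogeneous_X ℂ j).mul (IsHomogeneous.prod _ _ _ fun i _ =>
    homF_hom hA hB hW₁ hW₂ (hd i (m i) le_rfl)), ?_, fun e₀ w₀ => ?_⟩
  · intro hmem'
    rcases Ideal.IsPrime.mem_or_mem inferInstance hmem' with h1 | h1
    · exact hj h1
    · obtain ⟨i, -, hi⟩ := (Ideal.IsPrime.prod_mem_iff (s := Finset.univ)).1 h1
      exact homF_not_mem h (hcm i) (hd i (m i) le_rfl) hi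
  · rcases Set.eq_empty_or_nonempty {x : PN N | x ∈ projVar P ∧ ¬ VanishesAt B x ∧ ¬ VanishesAt W₂ x ∧
      ¬ VanishesAt (X j * ∏ i, homF A B W₁ W₂ (d i) (c i (m i))) x ∧ eval x.rep A / eval x.rep B = e₀ ∧ eval x.rep W₁ / eval x.rep W₂ = w₀} with hem | hnem
    · rw [hem]
      exact Set.finite_empty
    -- the polynomials
    let q : Fin (N + 1) → Polynomial ℂ := fun i => ∑ k ∈ Finset.range (m i + 1), Polynomial.C (eval ![e₀, w₀] (c i k)) * Polynomial.X ^ k
    have hq : ∀ i, q i ≠ 0 := by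
      intro i h0
      obtain ⟨x, hx, hBx, hWx, hRx, rfl, rfl⟩ := hnem
      apply hRx
      have h1 := congrArg (fun p : Polynomial ℂ => p.coeff (m i)) h0
      simp only [q, Polynomial.finsetSum_coeff, Polynomial.coeff_C_mul, Polynomial.coeff_X_pow, Polynomial.coeff_zero] at h1
      rw [Finset.sum_eq_single (m i)] at h1
      · rw [if_pos rfl, mul_one] at h1
        unfold VanishesAt at hBx hWx ⊢
        rw [map_mul, map_prod, Finset.prod_eq_zero (Finset.mem_univ i), mul_zero]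
        rw [eval_homF x.rep hBx hWx (hd i (m i) le_rfl), h1, mul_zero]
      · intro k _ hk
        rw [if_neg (Ne.symm hk), mul_zero]
      · exact fun h => absurd (Finset.mem_range.2 (Nat.lt_succ_self _)) h
    have hfin : (Set.univ.pi fun i => {t : ℂ | (q i).IsRoot t}).Finite := Set.Finite.pi fun i => Polynomial.finite_setOfPred_isRoot (hq i)
    refine Set.Finite.of_finite_image (f := fun (x : PN N) i => x.rep i / x.rep j) (hfin.subset ?_) ?_
    · rintro _ ⟨x, ⟨hx, hBx, hWx, hRx, he, hw⟩, rfl⟩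
      intro i _
      show (q i).IsRoot (x.rep i / x.rep j)
      have hxj : x.rep j ≠ 0 := by
        intro h0
        apply hRx
        unfold VanishesAt
        rw [map_mul, eval_X, h0, zero_mul]
      have hF := hx _ (hmem i) _ (hhom i).choose_spec
      unfold VanishesAt at hF hBx hWx
      rw [map_sum] at hF
      have h1 : ∀ k ∈ Finset.range (m i + 1), eval x.rep (homF A B W₁ W₂ (d i) (c i k) * (X i ^ k * X j ^ (m i - k))) =
          (eval x.rep B ^ d i * eval x.rep W₂ ^ d i * x.rep j ^ m i) * (eval ![e₀, w₀] (c i k) * (x.rep i / x.rep j) ^ k) := by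
        intro k hk
        have hk' : k ≤ m i := Nat.lt_succ_iff.1 (Finset.mem_range.1 hk)
        have e1 : x.rep j ^ m i = x.rep j ^ k * x.rep j ^ (m i - k) := by rw [← pow_add, Nat.add_sub_cancel' hk']
        rw [map_mul, eval_homF x.rep hBx hWx (hd i k hk'), he, hw, map_mul, map_pow, map_pow, eval_X, eval_X, div_pow, e1]
        field_simp
      rw [Finset.sum_congr rfl h1, ← Finset.mul_sum] at hF
      have h2 := (mul_eq_zero.1 hF).resolve_left (mul_ne_zero (mul_ne_zero (pow_ne_zero _ hBx) (pow_ne_zero _ hWx)) (pow_ne_zero _ hxj))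
      rw [Polynomial.IsRoot.def, Polynomial.eval_finsetSum]
      simp only [Polynomial.eval_mul, Polynomial.eval_C, Polynomial.eval_pow, Polynomial.eval_X]
      exact h2
    · rintro x ⟨-, -, -, hRx, -, -⟩ x' ⟨-, -, -, hRx', -, -⟩ hxx'
      have hxj : x.rep j ≠ 0 := by
        intro h0
        apply hRx
        unfold VanishesAt
        rw [map_mul, eval_X, h0, zero_mul]
      have hxj' : x'.rep j ≠ 0 := by
        intro h0
        apply hRx'
        unfold VanishesAt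
        rw [map_mul, eval_X, h0, zero_mul]
      rw [← x.mk_rep, ← x'.mk_rep, Projectivization.mk_eq_mk_iff']
      refine ⟨x.rep j / x'.rep j, ?_⟩
      funext i
      have h1 := congrFun hxx' i
      simp only at h1
      rw [Pi.smul_apply, smul_eq_mul]
      rw [div_eq_div_iff hxj hxj'] at h1
      field_simp
      linear_combination -h1

end

end Pool.Agent.H86.LR

end
end
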