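import Pool.Agent.H94.CB.H19E.AffN
import Pool.Agent.H94.CB.H19E.LimE
import Pool.Agent.H94.CB.M227
import Pool.Agent.H94.CB.M254
import Pool.Agent.H94.CB.M259

/-! The parts of this file: H19E.BaseE, H19E.ClassE, H19E.Tr4, H19E.Main4. -/

section

/-!
# H19E BaseE: open surfaces over an elliptic curve
-/

set_option autoImplicit false

open Topology Filter MvPolynomial Metric

noncomputable section

namespace Pool.Agent.H19E

attribute [-instance] ProperSMul.toContinuousSMul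

open Pool.Agent.H17 (PN VanishesAt HolomorphicInto ZariskiClosedIn)
open Pool.Agent.H62.FC (Homog)
open Pool.Agent.H62.SA (locVar OnBd locCone)
open Pool.Agent.H62.EF (Lat)
open Pool.Agent.H13.SM (cone conTan)
open Pool.Agent.H13.OT (OrderTwo)
open Pool.Agent.H17BP (Surface)
open Pool.Agent.H17LG.Variety (FunField IsLogGeneralType)
open Pool.Agent.H36.BP (EN)
open Pool.Agent.H36.LB (ConvPN IsLimitPN LimModPN IsCurveComplement openPart_of_curveComplement)
open Pool.Agent.H17EF (projVar IsHolomorphicMap coneE uE LE lat_of_basis)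
open Pool.Agent.H17N (NowhereConstant)
open Pool.Agent.H17L (HasLogForms curve_start lsec_finite)

variable {N s : ℕ}

theorem IsLimitPN.mono {U V : Set (PN N)} (hUV : U ⊆ V) {l : Filter ℕ} {F : ℕ → ℂ → PN N} {f : ℂ → PN N} (h : IsLimitPN U l F f) :
    IsLimitPN V l F f where
  neBot := h.neBot
  le_atTop := h.le_atTop
  hol := h.hol
  zero_mem := hUV h.zero_mem
  holF := h.holF
  memF := fun n z hz => hUV (h.memF n z hz)
  zero := h.zero
  conv := h.conv
  mem_of_conv := fun z hz => hUV (h.mem_of_conv z hz)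

variable {P : Ideal (MvPolynomial (Fin (N + 1)) ℂ)} [P.IsPrime] {z : Fin 2 → FunField P} {G : Fin s → MvPolynomial (Fin (N + 1)) ℂ}
  {e : Fin s → ℕ} {D : Set (PN N)} {w w' : Fin 2 → ℂ} {u : PN N → ℂ ⧸ AddSubgroup.closure (Set.range w)}

/-- the limits of order two of discs in `U` lie in a proper closed subset -/
theorem limMod_base (hP : Homog P) (hz : IsTranscendenceBasis ℂ z)
    (hsm : ∀ y : Fin (N + 1) → ℂ, y ≠ 0 → (∀ Q ∈ P, eval y Q = 0) → Module.finrank ℂ (conTan P y) ≤ 3)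
    (hG : ∀ m, (G m).IsHomogeneous (e m)) (hC : IsCurveComplement P G)
    (hgt : IsLogGeneralType (K := FunField P) (k := 2) (OnBd P G))
    (hw : LinearIndependent ℝ w) (hw' : LinearIndependent ℝ w') (hle : ∀ i, w' i ∈ AddSubgroup.closure (Set.range w))
    (hu : IsHolomorphicMap (projVar P) (AddSubgroup.closure (Set.range w)) u) (hnon : NowhereConstant (projVar P) u)
    (hD : ZariskiClosedIn (projVar P) D) (hdis : ∀ x ∈ D, x ∉ locVar P G) (hDn : NowhereConstant D u)
    (hver : (u '' (projVar P \ (locVar P G ∪ D))).Finite)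
    (hform : HasLogForms (projVar P) D (AddSubgroup.closure (Set.range w)) (AddSubgroup.closure (Set.range w')) u) :
    ∃ (R : MvPolynomial (Fin (N + 1)) ℂ) (n : ℕ), R.IsHomogeneous n ∧ R ∉ P ∧
      LimModPN (locVar P G) {x | x ∈ locVar P G ∧ VanishesAt R x} := by
  have hS : Surface (cone P) := Pool.Agent.H13.SM.surface_cone hP hz fun y hy => hsm y hy.1 hy.2
  have hΛ := lat_of_basis hw
  have hΓ := lat_of_basis hw'
  have hle' : AddSubgroup.closure (Set.range w') ≤ AddSubgroup.closure (Set.range w) := by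
    rw [AddSubgroup.closure_le]
    rintro _ ⟨i, rfl⟩
    exact hle i
  obtain ⟨B₀, hB₀, hf⟩ := Pool.Agent.H17V.fib_of_logGT hP hz hsm hG hC hgt hΛ hu
  have hB := hB₀.union hver
  have hfib : ∀ f : ℂ → PN N, HolomorphicInto f Set.univ → (∀ z, f z ∈ projVar P \ D) → (∀ z w, u (f z) = u (f w)) →
      u (f 0) ∉ B₀ ∪ u '' (projVar P \ (locVar P G ∪ D)) → ∀ z w, f z = f w := by
    intro f hf1 hf2 hc hne
    refine hf f hf1 (fun x => ?_) hc fun h => hne (Or.inl h)
    by_contra hx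
    exact hne (Or.inr ⟨f x, ⟨(hf2 x).1, fun h => h.elim hx (hf2 x).2⟩, hc x 0⟩)
  have hfin := lsec_finite hP hz hsm hΛ hΓ hle' hu hnon hD hDn hB hfib hform
  obtain ⟨c, Ω, hΩ, hlog, hnz, hvan⟩ := hform.nonempty
  have hcur := curve_start hP hS hΛ hu hD hDn hlog
  obtain ⟨R, n, hR, hRP, hlim⟩ := limit_form hP hz hsm hw hu hnon hcur hB hfib hfin
  refine ⟨R, n, hR, hRP, ?_⟩
  intro l F f hfl hord hne z hz
  refine ⟨hz, ?_⟩
  have hsub : locVar P G ⊆ projVar P \ D := fun x hx => ⟨hx.1, fun h => hdis x h hx⟩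
  exact hlim l F f (IsLimitPN.mono hsub hfl) hord hne z

/-- **The base theorem.** -/
theorem ggl_base (hP : Homog P) (hz : IsTranscendenceBasis ℂ z) (hne : (locVar P G).Nonempty)
    (hsm : ∀ y : Fin (N + 1) → ℂ, y ≠ 0 → (∀ Q ∈ P, eval y Q = 0) → Module.finrank ℂ (conTan P y) ≤ 3)
    (hG : ∀ m, (G m).IsHomogeneous (e m)) (hC : IsCurveComplement P G)
    (hgt : IsLogGeneralType (K := FunField P) (k := 2) (OnBd P G))
    (hw : LinearIndependent ℝ w) (hw' : LinearIndependent ℝ w') (hle : ∀ i, w' i ∈ AddSubgroup.closure (Set.range w))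
    (hu : IsHolomorphicMap (projVar P) (AddSubgroup.closure (Set.range w)) u) (hnon : NowhereConstant (projVar P) u)
    (hD : ZariskiClosedIn (projVar P) D) (hdis : ∀ x ∈ D, x ∉ locVar P G) (hDn : NowhereConstant D u)
    (hver : (u '' (projVar P \ (locVar P G ∪ D))).Finite)
    (hform : HasLogForms (projVar P) D (AddSubgroup.closure (Set.range w)) (AddSubgroup.closure (Set.range w')) u) :
    ∃ Ξ : Set (PN N), Pool.Agent.H7.Bir.GGLOpen P G Ξ ∧ ∃ (Q : MvPolynomial (Fin (N + 1)) ℂ) (D : ℕ), Q.IsHomogeneous D ∧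
      (∃ x ∈ locVar P G, ¬ VanishesAt Q x) ∧ (∀ x, x ∈ Ξ ↔ x ∈ locVar P G ∧ VanishesAt Q x) ∧
      Pool.Agent.H14.KB.KobayashiHyperbolicModulo (locVar P G) Q D := by
  obtain ⟨R, n, hR, hRP, hlim⟩ := limMod_base hP hz hsm hG hC hgt hw hw' hle hu hnon hD hdis hDn hver hform
  exact Pool.Agent.H4.LU.ggl_of_limMod hP hz hsm (fun m => ⟨e m, hG m⟩) hne hC hgt hR hRP hlim

end Pool.Agent.H19E

end
end

section

/-!
# H19E ClassE: the theorem for the basic surfaces
-/

set_option autoImplicit false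

open MvPolynomial

noncomputable section

namespace Pool.Agent.H19E.V4

attribute [-instance] ProperSMul.toContinuousSMul

open Pool.Agent.H17 (PN VanishesAt)
open Pool.Agent.H62.SA (locVar OnBd)
open Pool.Agent.H62.FC (Homog)
open Pool.Agent.H13.SM (conTan cone)
open Pool.Agent.H17EF (projVar mk_mem_projVar lat_of_basis)
open Pool.Agent.H19Q (QSurface)
open Pool.Agent.H7.Bir (GGLOpen)
open Pool.Agent.H14.KB (KobayashiHyperbolicModulo)

variable {N M r s s' : ℕ}

theorem rep_mk {x : Fin (N + 1) → ℂ} (hx : x ≠ 0) : Rep x (Projectivization.mk ℂ x hx) := ⟨hx, rfl⟩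

theorem rep_rep (p : PN N) : Rep p.rep p := ⟨p.rep_nonzero, (Projectivization.mk_rep p).symm⟩

theorem exists_rep_iff {P : Ideal (MvPolynomial (Fin (N + 1)) ℂ)} (hP : Homog P) {x : Fin (N + 1) → ℂ} :
    (∃ q ∈ projVar P, Rep x q) ↔ x ∈ cone P := by
  constructor
  · rintro ⟨q, hq, h, rfl⟩
    exact (mk_mem_projVar hP h).1 hq
  · intro h
    exact ⟨_, (mk_mem_projVar hP h.1).2 h, rep_mk h.1⟩

/-- the dimension of the tangent space of the cone -/
theorem finrank_conTan {P : Ideal (MvPolynomial (Fin (N + 1)) ℂ)} {x : Fin (N + 1) → ℂ} {f : Fin (N - 2) → MvPolynomial (Fin (N + 1)) ℂ}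
    (hf : ∀ j, f j ∈ P) (hli : LinearIndependent ℂ fun (j : Fin (N - 2)) (i : Fin (N + 1)) => eval x (pderiv i (f j))) :
    Module.finrank ℂ (conTan P x) ≤ 3 := by
  let A : Matrix (Fin (N - 2)) (Fin (N + 1)) ℂ := Matrix.of fun j i => eval x (pderiv i (f j))
  have hA : LinearIndependent ℂ A.row := hli
  have h1 : A.rank = N - 2 := by
    rw [hA.rank_matrix, Fintype.card_fin]
  have h2 := LinearMap.finrank_range_add_finrank_ker A.mulVecLin
  have h3 : conTan P x ≤ LinearMap.ker A.mulVecLin := by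
    intro v hv
    rw [LinearMap.mem_ker]
    funext j
    show ∑ i, A j i * v i = 0
    rw [← hv (f j) (hf j)]
    exact Finset.sum_congr rfl fun i _ => mul_comm _ _
  have h4 := Submodule.finrank_mono h3
  have h5 : Module.finrank ℂ (LinearMap.range A.mulVecLin) = N - 2 := h1
  rw [h5, Module.finrank_fin_fun] at h2
  omega

theorem SmoothOn.finrank {U : QSurface} {S : Set (PN U.N)} (h : SmoothOn U S) {y : Fin (U.N + 1) → ℂ} (hy : y ≠ 0)
    (hS : Projectivization.mk ℂ y hy ∈ S) : Module.finrank ℂ (conTan U.P y) ≤ 3 := by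
  obtain ⟨f, hf, hli⟩ := h y _ hS (rep_mk hy)
  exact finrank_conTan hf hli

theorem SmoothOn.finrank_cl {U : QSurface} (h : SmoothOn U (cl U)) (y : Fin (U.N + 1) → ℂ) (hy : y ≠ 0)
    (h0 : ∀ Q ∈ U.P, eval y Q = 0) : Module.finrank ℂ (conTan U.P y) ≤ 3 :=
  h.finrank hy ((mk_mem_projVar U.homog hy).2 ⟨hy, h0⟩)

theorem rmap_of_rep {γ : Fin (N + 1) → MvPolynomial (Fin (M + 1)) ℂ} {x : PN M} {q : PN N} (h : Rep (vals γ x.rep) q) :
    Pool.Agent.H7.Bir.rmap γ x = q := by
  obtain ⟨h1, rfl⟩ := h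
  unfold Pool.Agent.H7.Bir.rmap
  exact dif_pos h1

/-- Two quasi-projective surfaces with the same points are modifications of each other. -/
theorem isModification_id {P : Ideal (MvPolynomial (Fin (N + 1)) ℂ)} {G : Fin s → MvPolynomial (Fin (N + 1)) ℂ}
    {G' : Fin s' → MvPolynomial (Fin (N + 1)) ℂ} (h : locVar P G = locVar P G') (hne : (projVar P).Nonempty) :
    Pool.Agent.H19Q.IsModification P P G G' id := by
  have hv : ∀ x : Fin (N + 1) → ℂ, Pool.Agent.H7.Bir.vals (fun i : Fin (N + 1) => (X i : MvPolynomial (Fin (N + 1)) ℂ)) x = x := by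
    intro x
    funext i
    exact eval_X i
  have hr : ∀ x : PN N, Pool.Agent.H7.Bir.rmap (fun i : Fin (N + 1) => (X i : MvPolynomial (Fin (N + 1)) ℂ)) x = x := by
    intro x
    refine rmap_of_rep ?_
    have : vals (fun i : Fin (N + 1) => (X i : MvPolynomial (Fin (N + 1)) ℂ)) x.rep = x.rep := hv _
    rw [this]
    exact rep_rep x
  refine ⟨⟨fun y hy => hy, fun x hx => ⟨x, hx, rfl⟩, fun y hy => ⟨1, fun i => X i, fun i => isHomogeneous_X _ _, ?_, fun y' _ _ => (hr y').symm⟩⟩,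
    fun y hy => by rw [h]; exact Iff.rfl, 1, fun i => X i, fun i => isHomogeneous_X _ _, ?_, fun y _ _ => hr y⟩
  · rw [hv]
    exact y.rep_nonzero
  · obtain ⟨x, hx⟩ := hne
    refine ⟨x, hx, ?_⟩
    rw [hv]
    exact x.rep_nonzero

/-- The four properties depend only on the set of the points of `U`. -/
theorem gglOpen_congr {P : Ideal (MvPolynomial (Fin (N + 1)) ℂ)} [P.IsPrime] (hP : Homog P) {G : Fin s → MvPolynomial (Fin (N + 1)) ℂ}
    {G' : Fin s' → MvPolynomial (Fin (N + 1)) ℂ} (hG : ∀ m, ∃ n, (G m).IsHomogeneous n) (hG' : ∀ m, ∃ n, (G' m).IsHomogeneous n)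
    (h : locVar P G = locVar P G') (hne : (locVar P G).Nonempty) {Ξ : Set (PN N)} (H : GGLOpen P G Ξ) : GGLOpen P G' Ξ := by
  have key : ∀ (Q : Ideal (MvPolynomial (Fin (N + 1)) ℂ)) [Q.IsPrime], Homog Q → locVar Q G = locVar Q G' → (locVar Q G).Nonempty → ∀ {k : ℕ},
      (∃ z : Fin k → Pool.Agent.H17LG.Variety.FunField Q, IsTranscendenceBasis ℂ z) →
      Pool.Agent.H17LG.Variety.IsLogGeneralType (OnBd Q G (k := k)) → Pool.Agent.H17LG.Variety.IsLogGeneralType (OnBd Q G' (k := k)) := by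
    intro Q _ hQ hl hnQ k hz hgt
    have hm := isModification_id hl (hnQ.mono fun _ hx => hx.1)
    exact Pool.Agent.H7.Qup.logGT_up (P := Q) (P' := Q) (G := G) (G' := G') (hm.toIsRegularOnto.isDominantMap hm.inv hQ hG hnQ) hQ hG hG'
      (hl ▸ hnQ) hz hz hgt
  refine ⟨h ▸ H.closed, h ▸ H.proper, fun w hw hz => key P hP h hne hz (H.logGeneralType w hw hz), ?_, ?_, ?_⟩
  · rw [← h]
    exact H.picard
  · rw [← h]
    exact H.brody
  · intro Q _ hQ hPQ hsub w hw hz
    have hl : locVar Q G = locVar Q G' := by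
      ext x
      constructor
      · intro hx
        have h1 : x ∈ locVar P G := ⟨fun R hR => hx.1 R (hPQ hR), hx.2⟩
        rw [h] at h1
        exact ⟨hx.1, h1.2⟩
      · intro hx
        have h1 : x ∈ locVar P G' := ⟨fun R hR => hx.1 R (hPQ hR), hx.2⟩
        rw [← h] at h1
        exact ⟨hx.1, h1.2⟩
    refine key Q hQ hl ?_ hz (H.strongly Q hQ hPQ (by rwa [hl]) w hw hz)
    rw [hl]
    by_contra hcon
    exact hsub fun x hx => absurd ⟨x, hx⟩ hcon

/-- the conclusion for the basic surfaces -/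
def GoodK (U : QSurface) : Prop :=
  ∃ Ξ : Set (PN U.N), GGLOpen U.P U.G Ξ ∧ ∃ (Q : MvPolynomial (Fin (U.N + 1)) ℂ) (D : ℕ), Q.IsHomogeneous D ∧
    (∃ x ∈ locVar U.P U.G, ¬ VanishesAt Q x) ∧ (∀ x, x ∈ Ξ ↔ x ∈ locVar U.P U.G ∧ VanishesAt Q x) ∧ KobayashiHyperbolicModulo (locVar U.P U.G) Q D

theorem HasFormsAlong.good {U : QSurface} {w w' : Fin 2 → ℂ} {u : PN U.N → ℂ ⧸ AddSubgroup.closure (Set.range w)} {D : Set (PN U.N)}
    (ho : IsOver U w u) (h : HasFormsAlong U w w' u D) (hgt : U.LogGeneralType) : GoodK U := by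
  obtain ⟨z, hz⟩ := U.dim
  choose e he using U.form
  exact Pool.Agent.H19E.ggl_base U.homog hz U.nonempty ho.smooth.finrank_cl he ho.curve hgt ho.lattice h.lattice.1 h.lattice.2 ho.holomorphic
    ho.nonconstant h.closed h.boundary h.horizontal h.vertical h.forms

theorem IsComplement.good {U : QSurface} {w : Fin 2 → ℂ} {u : PN U.N → ℂ ⧸ AddSubgroup.closure (Set.range w)}
    {H : Fin s → MvPolynomial (Fin (U.N + 1)) ℂ} (ho : IsOver U w u) (h : IsComplement U H) (hgt : U.LogGeneralType) : GoodK U := by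
  have hl : locVar U.P (fun _ : Fin 1 => ∏ i, H i) = locVar U.P U.G := by
    ext x
    have hprod : VanishesAt (∏ i, H i) x ↔ ∃ i, VanishesAt (H i) x := by
      unfold VanishesAt
      rw [map_prod, Finset.prod_eq_zero_iff]
      exact ⟨fun ⟨i, _, hi⟩ => ⟨i, hi⟩, fun ⟨i, hi⟩ => ⟨i, Finset.mem_univ i, hi⟩⟩
    constructor
    · rintro ⟨hx, _, h1⟩
      refine (h.complement x hx).2 fun i hi => h1 (hprod.2 ⟨i, hi⟩)
    · intro hx
      refine ⟨hx.1, 0, fun h1 => ?_⟩
      obtain ⟨i, hi⟩ := hprod.1 h1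
      exact (h.complement x hx.1).1 hx i hi
  have hX : (projVar U.P).Nonempty := U.nonempty.mono fun _ hx => hx.1
  choose d hd hH using h.forms
  have hHH : ∀ _ : Fin 1, ∃ n, (∏ i, H i).IsHomogeneous n := fun _ => ⟨_, IsHomogeneous.prod _ _ _ fun i _ => hH i⟩
  have hHP : ∀ i, H i ∉ U.P := by
    intro i hi
    obtain ⟨x, hx⟩ := U.nonempty
    exact (h.complement x hx.1).1 hx i (hx.1 _ hi _ (hH i))
  have hm := isModification_id (P := U.P) hl.symm hX
  have hgt' : Pool.Agent.H17LG.Variety.IsLogGeneralType (K := Pool.Agent.H17LG.Variety.FunField U.P) (k := 2)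
      (OnBd U.P (fun _ : Fin 1 => ∏ i, H i)) :=
    Pool.Agent.H7.Qup.logGT_up (P := U.P) (P' := U.P) (G := U.G) (G' := fun _ : Fin 1 => ∏ i, H i)
      (hm.toIsRegularOnto.isDominantMap hm.inv U.homog U.form U.nonempty) U.homog U.form hHH (hl ▸ U.nonempty) U.dim U.dim hgt
  obtain ⟨z, hz⟩ := U.dim
  obtain ⟨Ξ, h1, Q, D, h2, h3, h4, h5⟩ := Pool.Agent.H19E.affine_ggl U.homog hz hX ho.smooth.finrank_cl
    (lat_of_basis ho.lattice) ho.holomorphic ho.nonconstant hH hd hHP hgt' (Or.inl h.curves)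
  have h6 := gglOpen_congr U.homog hHH U.form hl (hl ▸ U.nonempty) h1
  rw [hl] at h3 h4 h5
  exact ⟨Ξ, h6, Q, D, h2, h3, h4, h5⟩

/-- **The basic surfaces.** -/
theorem IsBasic.good {U : QSurface} (h : IsBasic U) (hgt : U.LogGeneralType) : GoodK U := by
  obtain ⟨w, u, ho, h⟩ := h
  rcases h with ⟨w', D, h⟩ | ⟨W, h⟩ | ⟨s, H, h⟩
  · exact h.good ho hgt
  · exact Pool.Agent.H86.LR.base_mainRE (h.tr ho.smooth.finrank_cl ho) hgt
  · exact h.good ho hgt

end Pool.Agent.H19E.V4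

end
end

section

/-!
# H19E Tr4: the class `OverElliptic` is contained in the class `LogClass`
-/

set_option autoImplicit false

open Topology Filter MvPolynomial

noncomputable section

namespace Pool.Agent.H19E.V4

attribute [-instance] ProperSMul.toContinuousSMul

open Pool.Agent.H17 (PN VanishesAt ZariskiClosedIn HolomorphicInto)
open Pool.Agent.H62.SA (locVar)
open Pool.Agent.H62.FC (Homog)
open Pool.Agent.H13.SM (conTan cone)
open Pool.Agent.H36.BP (EN)
open Pool.Agent.H14.PP (Tan)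
open Pool.Agent.H92.TH (SymDiff)
open Pool.Agent.H17EF (projVar IsHolomorphicMap coneE LE mem_coneE mk_mem_projVar)
open Pool.Agent.H17G (IsTangent isTangent_iff)
open Pool.Agent.H19Q (QSurface LogClass)
open Pool.Agent.H7.Bir (GGLOpen)

variable {N M r s s' : ℕ}

/-- regular maps are given by forms at the points -/
theorem IsRegular.reg {S : Set (PN M)} {p : PN M → PN N} (h : IsRegular S p) {y : PN M} (hy : y ∈ S) :
    ∃ (D : ℕ) (γ : Fin (N + 1) → MvPolynomial (Fin (M + 1)) ℂ), (∀ i, (γ i).IsHomogeneous D) ∧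
      Pool.Agent.H7.Bir.vals γ y.rep ≠ 0 ∧ ∀ y' ∈ S, Pool.Agent.H7.Bir.vals γ y'.rep ≠ 0 → p y' = Pool.Agent.H7.Bir.rmap γ y' := by
  obtain ⟨γ, ⟨⟨D, hD⟩, h1⟩, h2⟩ := h y.rep y hy (rep_rep y)
  exact ⟨D, γ, hD, h2, fun y' hy' h3 => (rmap_of_rep (h1 y'.rep y' hy' (rep_rep y') h3)).symm⟩

theorem IsDominant.tr {U' U : QSurface} {p : PN U'.N → PN U.N} (h : IsDominant U' U p) :
    Pool.Agent.H7.Qup.IsDominantMap U.P U'.P U.G U'.G p :=
  ⟨h.maps, fun _ hy => h.regular.reg hy, h.dense⟩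

theorem IsProper.tr {U' U : QSurface} {p : PN U'.N → PN U.N} (h : IsProper U' U p) :
    Pool.Agent.H19Q.IsRegularOnto U.P U'.P p :=
  ⟨h.maps, h.surj, fun _ hy => h.regular.reg hy⟩

theorem IsModification.tr {U' U : QSurface} {p : PN U'.N → PN U.N} (h : IsModification U' U p) :
    Pool.Agent.H19Q.IsModification U.P U'.P U.G U'.G p := by
  obtain ⟨D, α, hα, ⟨x, q, hq, ⟨hx, rfl⟩, hne⟩, h1⟩ := h.inverse
  refine ⟨h.toIsProper.tr, h.inv, D, α, hα, ⟨_, hq, ?_⟩, fun y hy h2 => rmap_of_rep (h1 _ y hy (rep_rep _) h2)⟩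
  obtain ⟨a, ha, hrep⟩ := Pool.Agent.H36.BP.rep_mk hx
  rw [hrep, Pool.Agent.H7.Bir.vals_smul hα]
  exact smul_ne_zero (pow_ne_zero _ ha) hne

theorem SmoothOn.pts {U : QSurface} (h : SmoothOn U (pts U)) : U.Smooth := fun _ hy hS => h.finrank hy hS

theorem IsUnramified.tr {U' U : QSurface} {p : PN U'.N → PN U.N} (h : IsUnramified U' U p) :
    Pool.Agent.H62.Qe.IsUnramifiedOver U.P U'.P U.G U'.G p := by
  refine ⟨h.maps, h.surj, h.inv, fun y hy hyX => ?_⟩
  obtain ⟨γ, h1, h2⟩ := h.regular y _ hyX (rep_mk hy)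
  obtain ⟨D, hD⟩ := h1.1
  refine ⟨D, γ, hD, h2, fun y' hy' h' hm => ?_, fun hU v hv c hc => ?_⟩
  · obtain ⟨_, h3⟩ := h1.2 y' _ hm (rep_mk hy') h'
    exact h3
  · exact h.immersive y _ hU (rep_mk hy) γ h1 h2 v hv c hc

/-- the projective surface `X` -/
def proj (U : QSurface) : QSurface where
  N := U.N
  P := U.P
  prime := U.prime
  homog := U.homog
  dim := U.dim
  s := 1
  G := fun _ => 1
  form := fun _ => ⟨0, isHomogeneous_one _ _⟩
  nonempty := by
    obtain ⟨x, hx, -⟩ := U.nonempty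
    refine ⟨x, hx, 0, fun h => ?_⟩
    unfold VanishesAt at h
    rw [map_one] at h
    exact one_ne_zero h

theorem locVar_one (P : Ideal (MvPolynomial (Fin (N + 1)) ℂ)) : locVar P (fun _ : Fin 1 => 1) = projVar P := by
  ext x
  refine ⟨fun hx => hx.1, fun hx => ⟨hx, 0, fun h1 => ?_⟩⟩
  unfold VanishesAt at h1
  rw [map_one] at h1
  exact one_ne_zero h1

theorem Projective.locVar_eq {U : QSurface} (h : Projective U) : locVar U.P U.G = locVar U.P (fun _ : Fin 1 => 1) := by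
  rw [locVar_one]
  exact Set.Subset.antisymm (fun x hx => hx.1) h

variable {B : QSurface → Prop}

theorem logClass_of_proj {U : QSurface} (hU : Projective U) (h : LogClass B (proj U)) : LogClass B U :=
  LogClass.modification U (proj U) id (isModification_id hU.locVar_eq (U.nonempty.mono fun _ hx => hx.1)) h

theorem logClass_proj {U : QSurface} (hU : Projective U) (h : LogClass B U) : LogClass B (proj U) :=
  LogClass.modification (proj U) U id (isModification_id hU.locVar_eq.symm (U.nonempty.mono fun _ hx => hx.1)) h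

/-- the symmetric differential in the Euclidean coordinates -/
def IsSymDiff.sym {P : Ideal (MvPolynomial (Fin (N + 1)) ℂ)} (hP : Homog P) {m : ℕ} {θ : (Fin (N + 1) → ℂ) → (Fin (N + 1) → ℂ) → ℂ}
    (h : IsSymDiff (projVar P) m θ) : SymDiff (coneE P) m where
  toFun := fun x v => θ ((LE N).symm x) ((LE N).symm v)
  add_smul := fun x hx v hv a => by
    rw [map_add, map_smul]
    exact h.horizontal _ _ ((isTangent_iff hP hx).2 hv) a
  smul := fun x hx v hv a => by
    rw [map_smul]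
    exact h.homogeneous _ _ ((isTangent_iff hP hx).2 hv) a
  scale := fun x hx v hv c hc => by
    rw [map_smul, map_smul]
    exact h.scale _ _ ((isTangent_iff hP hx).2 hv) c hc
  analytic := fun φ p w hφ hφX => by
    have h1 : AnalyticAt ℂ (fun y => (LE N).symm (φ y)) p := (((LE N).symm : EN N →L[ℂ] (Fin (N + 1) → ℂ)).analyticAt _).comp hφ
    have h2 := h.holomorphic (fun y => (LE N).symm (φ y)) p w h1 (by
      filter_upwards [hφX] with y hy
      obtain ⟨h3, h4⟩ := (mem_coneE hP).1 hy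
      exact ⟨_, h4, rep_mk h3⟩)
    refine h2.congr (Eventually.of_forall fun y => ?_)
    show θ ((LE N).symm (φ y.1)) (fderiv ℂ (fun y => (LE N).symm (φ y)) y.1 y.2) = θ ((LE N).symm (φ y.1)) ((LE N).symm (fderiv ℂ φ y.1 y.2))
    have h5 : fderiv ℂ (fun y => (LE N).symm (φ y)) y.1 = (((LE N).symm : EN N →L[ℂ] (Fin (N + 1) → ℂ))).comp (fderiv ℂ φ y.1) :=
      (LE N).symm.comp_fderiv
    rw [h5]
    rfl

theorem IsOrbifoldCover.tr {Λ : AddSubgroup ℂ} {R : ℂ ⧸ Λ → PN 1} {m : ℕ} {Φ : MvPolynomial (Fin 2) ℂ} (h : IsOrbifoldCover R m Φ) :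
    Pool.Agent.H19OL.IsOrbifoldCover R m Φ :=
  ⟨h.form, h.holomorphic, h.onto, h.equation⟩

theorem vals_pair (A : Fin 2 → MvPolynomial (Fin (N + 1)) ℂ) (x : Fin (N + 1) → ℂ) :
    vals A x = Pool.Agent.H19OL.pair (A 0) (A 1) x := by
  funext i
  fin_cases i
  · rfl
  · rfl

theorem IsOrbifoldCovering.tr {U' U : QSurface} {w : Fin 2 → ℂ} (hw : LinearIndependent ℝ w) {A : Fin 2 → MvPolynomial (Fin (U.N + 1)) ℂ}
    {R : ℂ ⧸ AddSubgroup.closure (Set.range w) → PN 1} {m : ℕ} {Φ : MvPolynomial (Fin 2) ℂ} {e : ℂ ⧸ AddSubgroup.closure (Set.range w) → PN r}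
    {ε : Fin (U'.N + 1) ≃ Fin (U.N + 1) × Fin (r + 1)} (h : IsOrbifoldCovering U' U A R m Φ e ε) (h' : LogClass B U') : LogClass B U := by
  obtain ⟨d, hd⟩ := h.forms
  obtain ⟨θ, hθ, hpull⟩ := h.differential
  refine logClass_of_proj h.projective ?_
  refine LogClass.orbifold (r := r) (proj U) (proj U') ⟨(0 : Fin 1), rfl⟩ ⟨(0 : Fin 1), rfl⟩ ?_ (A 0) (A 1) d (hd 0) (hd 1) ?_ w hw R m h.pos Φ h.cover.tr
    (hθ.sym U.homog) ?_ e h.embedding.1 h.embedding.2 ε ?_ (logClass_proj h.projective' h')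
  · intro y hy hS
    exact h.smooth.finrank hy hS.1
  · obtain ⟨i, hi⟩ := h.ne
    fin_cases i
    · exact Or.inl hi
    · exact Or.inr hi
  · intro F z hF hFX
    have h1 : AnalyticAt ℂ (fun y => (LE U.N).symm (F y)) z := (((LE U.N).symm : EN U.N →L[ℂ] (Fin (U.N + 1) → ℂ)).analyticAt _).comp hF
    have h2 := hpull (fun y => (LE U.N).symm (F y)) z h1 (by
      filter_upwards [hFX] with y hy
      obtain ⟨h3, h4⟩ := (mem_coneE U.homog).1 hy
      exact ⟨_, h4, rep_mk h3⟩)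
    have h3 : HasDerivAt (fun z => (LE U.N).symm (F z)) ((LE U.N).symm (deriv F z)) z :=
      ((LE U.N).symm : EN U.N →L[ℂ] (Fin (U.N + 1) → ℂ)).hasFDerivAt.comp_hasDerivAt z hF.differentiableAt.hasDerivAt
    rw [h3.deriv, vals_pair] at h2
    have h4 : (fun w => vals A ((LE U.N).symm (F w))) = fun w => Pool.Agent.H19OL.pair (A 0) (A 1) (F w).ofLp := by
      funext w
      exact vals_pair A _
    rw [h4] at h2
    exact h2
  · show U'.P = Pool.Agent.H19OL.fibreProduct U.P (A 0) (A 1) R e ε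
    rw [h.product]
    unfold Pool.Agent.H19OL.fibreProduct
    congr 1
    ext v
    constructor
    · rintro ⟨x, q, hq, y, c, hx, hy, hA, rfl⟩
      rw [vals_pair] at hA
      exact ⟨x, y, c, (exists_rep_iff U.homog).1 ⟨q, hq, hx⟩, hy, hA, rfl⟩
    · rintro ⟨x, y, c, hx, hy, hA, rfl⟩
      obtain ⟨q, hq, hx'⟩ := (exists_rep_iff U.homog).2 hx
      refine ⟨x, q, hq, y, c, hx', hy, ?_, rfl⟩
      rw [vals_pair]
      exact hA

/-- the surfaces with the property to be proved -/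
def Good (U : QSurface) : Prop := U.LogGeneralType → ∃ Ξ, GGLOpen U.P U.G Ξ

/-- The class `OverElliptic` is contained in the class `LogClass`. -/
theorem OverElliptic.tr {U : QSurface} (h : OverElliptic U) : LogClass Good U := by
  induction h with
  | basic U h =>
    refine LogClass.base U fun hgt => ?_
    obtain ⟨Ξ, h1, -⟩ := h.good hgt
    exact ⟨Ξ, h1⟩
  | dominant U' U p hp hgt h ih => exact LogClass.dominant U' U p hp.tr hgt ih
  | modification U' U p hp h ih => exact LogClass.modification U U' p hp.tr ih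
  | unramified U' U p hp h ih => exact LogClass.unramified U U' hp.smooth.pts hp.smooth'.pts p hp.tr ih
  | orbifold U' U r w hw A R m Φ e ε hp h ih => exact hp.tr hw ih

end Pool.Agent.H19E.V4

end
end

section

/-!
# H19E Main4: the theorem for the surfaces of the class `OverElliptic`
-/

set_option autoImplicit false

open MvPolynomial

noncomputable section

namespace Pool.Agent.H19E.V4

attribute [-instance] ProperSMul.toContinuousSMul

open Pool.Agent.H17 (PN VanishesAt ZariskiClosedIn)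
open Pool.Agent.H62.SA (locVar OnBd)
open Pool.Agent.H17EF (projVar)
open Pool.Agent.H7.Bir (GGLOpen)
open Pool.Agent.H62.Et (GGLK)
open Pool.Agent.H17G (excG)
open Pool.Agent.H19Q (QSurface LogClass)

/-- **The conjecture for the surfaces of the class.** -/
theorem OverElliptic.main {U : QSurface} (h : OverElliptic U) (hgt : U.LogGeneralType) : ∃ Ξ, GGLOpen U.P U.G Ξ :=
  h.tr.main (fun _ h => h) hgt

theorem Projective.gt {U : QSurface} (hU : Projective U) (hgt : U.LogGeneralType) : (proj U).LogGeneralType := by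
  have hne : (projVar U.P).Nonempty := U.nonempty.mono fun _ hx => hx.1
  have hm := isModification_id hU.locVar_eq hne
  exact Pool.Agent.H7.Qup.logGT_up (P := U.P) (P' := U.P) (G := U.G) (G' := fun _ : Fin 1 => 1)
    (hm.toIsRegularOnto.isDominantMap hm.inv U.homog U.form U.nonempty) U.homog U.form (fun _ => ⟨0, isHomogeneous_one _ _⟩)
    (by rw [← hU.locVar_eq]; exact U.nonempty) U.dim U.dim hgt

/-- smooth projective surfaces of the class -/
theorem OverElliptic.gglk {U : QSurface} (h : OverElliptic U) (hgt : U.LogGeneralType) (hU : Projective U) (hs : SmoothOn U (cl U)) :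
    GGLK U.P := by
  have h1 : LogClass _ (proj U) := logClass_proj hU h.tr
  exact h1.gglk (fun _ h => h) (hU.gt hgt) ⟨(0 : Fin 1), rfl⟩ fun y hy hS => hs.finrank hy hS.1

/-- the exceptional set of a smooth projective surface of the class -/
theorem OverElliptic.exc {U : QSurface} (h : OverElliptic U) (hgt : U.LogGeneralType) (hU : Projective U) (hs : SmoothOn U (cl U)) :
    GGLOpen U.P U.G (excG U.P) := by
  obtain ⟨h1, -⟩ := h.gglk hgt hU hs
  have h2 := Pool.Agent.H7.Bir.open_four U.homog U.form U.nonempty h1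
  have h3 : excG U.P ∩ locVar U.P U.G = excG U.P := by
    obtain ⟨S, -, hS⟩ := h1.closed
    refine Set.inter_eq_left.2 fun x hx => ?_
    rw [hS] at hx
    exact hU hx.1
  rw [h3] at h2
  exact h2

/-- **Main theorem.** -/
theorem OverElliptic.final {U : QSurface} (h : OverElliptic U) (hgt : U.LogGeneralType) :
    ∃ Ξ : Set (PN U.N), GGLOpen U.P U.G Ξ ∧ (Projective U → SmoothOn U (cl U) → Ξ = excG U.P) ∧
      (IsBasic U ∨ (Projective U ∧ SmoothOn U (cl U)) → ∃ (Q : MvPolynomial (Fin (U.N + 1)) ℂ) (D : ℕ), Q.IsHomogeneous D ∧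
        (∃ x ∈ pts U, ¬ VanishesAt Q x) ∧ (∀ x ∈ Ξ, VanishesAt Q x) ∧ Pool.Agent.H14.KB.KobayashiHyperbolicModulo (pts U) Q D) := by
  by_cases hp : Projective U ∧ SmoothOn U (cl U)
  · refine ⟨excG U.P, h.exc hgt hp.1 hp.2, fun _ _ => rfl, fun _ => ?_⟩
    obtain ⟨-, Q, D, hQ, hQx, hQΞ, hkob⟩ := h.gglk hgt hp.1 hp.2
    have h1 : pts U = projVar U.P := Set.Subset.antisymm (fun x hx => hx.1) hp.1
    rw [h1]
    exact ⟨Q, D, hQ, hQx, hQΞ, hkob⟩
  · by_cases hb : IsBasic U
    · obtain ⟨Ξ, h1, Q, D, h2, h3, h4, h5⟩ := hb.good hgt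
      exact ⟨Ξ, h1, fun h6 h7 => absurd ⟨h6, h7⟩ hp, fun _ => ⟨Q, D, h2, h3, fun x hx => ((h4 x).1 hx).2, h5⟩⟩
    · obtain ⟨Ξ, h1⟩ := h.main hgt
      exact ⟨Ξ, h1, fun h6 h7 => absurd ⟨h6, h7⟩ hp, fun h6 => absurd h6 (not_or.2 ⟨hb, hp⟩)⟩

end Pool.Agent.H19E.V4

end
end
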