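import Pool.Agent.H94.CB.M11

/-! The parts of this file: H5.BD.AExt, H5.BD.ALim, H5.BD.AIso, H5.BD.AAdm, H5.BD.AHalf, H5.BD.AInf, H5.BD.AFin. -/

section

/-!
# BD AExt: extension of a following function

`Fol.extend`.  Suppose that there are no such `z₁, z'`.  For `z ∈ ball 0 (R + r / 8)` with `R ≤ ‖z‖` let `z' = ((R - r / 8) / ‖z‖) • z`: `‖z'‖ = R - r / 8`,
`‖z - z'‖ = ‖z‖ - (R - r / 8) ≤ r / 4`, so there is `w ∈ closedBall (φ z') r₂` with `dist (ev g z) (ev f w) ≤ ε`; let `φ' z` be such a `w`; let `φ' z = φ z` for `‖z‖ < R`.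
`close` and `zero` are clear (`R > 0`).  `cont`: for `z` with `‖z‖ < R + r / 8` let `p z = z` if `‖z‖ ≤ R - r / 8`, and `p z = ((R - r / 8) / ‖z‖) • z` otherwise;
`‖z - p z‖ ≤ r / 4` and `‖p z‖ ≤ R - r / 8 < R`.  Then `‖φ' z - φ (p z)‖ ≤ r₂ / 20`: it is at most `4 r₂` (by the choice of `w`, resp. by `cont` for `φ` because `r / 4 ≤ r`; it is `0` if `p z = z`), so by
`emb`, `c ‖φ' z - φ (p z)‖ ≤ dist (ev f (φ' z)) (ev f (φ (p z))) ≤ 2 ε + dist (ev g z) (ev g (p z)) ≤ 2 ε + L r / 4 ≤ c r₂ / 32 + c r₂ / 128`.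
Let `‖z - z̃‖ ≤ r`.  `‖p z - p z̃‖ ≤ r + r / 2`; let `m` be the midpoint of `p z`, `p z̃`, in `ball 0 R`; by `cont` twice `‖φ (p z) - φ (p z̃)‖ ≤ r₂ / 2 ≤ 4 r₂`, so by `emb`
`c ‖φ (p z) - φ (p z̃)‖ ≤ 2 ε + 3 L r / 2 ≤ c r₂ / 32 + 3 c r₂ / 64`.  Together `‖φ' z - φ' z̃‖ ≤ 2 * (r₂ / 20) + 5 r₂ / 64 ≤ r₂ / 4`.

`exists_bad`.  If the second alternative does not hold then by induction on `k` there is a following function on the disc of radius `R₀ + k * (r / 8)` (`Fol.extend`).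

`fol_id`: the identity follows if `f` and `g` are close.
-/

set_option autoImplicit false

open Topology Filter Metric

namespace Pool.Agent.H5.BD

attribute [-instance] ProperSMul.toContinuousSMul

variable {Y ι : Type} [MetricSpace Y] {S : Set ι} {ev : ι → ℂ → Y} {Z : Set Y} {ρ : ι → ℂ → ι → ℂ → ℝ} {L c r₂ r₃ κ r ε : ℝ}

/-- the following function `φ` cannot be extended to a larger disc because of the point `z₁` -/
structure Bad (ev : ι → ℂ → Y) (r₂ r ε R : ℝ) (f g : ι) (φ : ℂ → ℂ) (z' z₁ : ℂ) : Prop where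
  fol : Fol ev r₂ r ε R f g φ
  norm : ‖z'‖ = R - r / 8
  dist_le : ‖z₁ - z'‖ ≤ r / 4
  far : ∀ w ∈ closedBall (φ z') r₂, ε < dist (ev g z₁) (ev f w)

/-- the point of the disc of radius `R - r / 8` near `z` -/
private noncomputable def prj (q : ℝ) (z : ℂ) : ℂ := if ‖z‖ ≤ q then z else ((q / ‖z‖ : ℝ) : ℂ) * z

private theorem norm_prj_le {q : ℝ} (hq : 0 ≤ q) (z : ℂ) : ‖prj q z‖ ≤ q := by
  unfold prj
  split_ifs with h
  · exact h
  · have hz : 0 < ‖z‖ := by linarith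
    rw [norm_mul, Complex.norm_real, Real.norm_of_nonneg (by positivity), div_mul_cancel₀ _ hz.ne']

private theorem norm_prj_eq {q : ℝ} (hq : 0 ≤ q) {z : ℂ} (hz : q < ‖z‖) : ‖prj q z‖ = q := by
  unfold prj
  rw [if_neg (not_le.mpr hz)]
  have hz : 0 < ‖z‖ := by linarith
  rw [norm_mul, Complex.norm_real, Real.norm_of_nonneg (by positivity), div_mul_cancel₀ _ hz.ne']

private theorem norm_sub_prj {q t : ℝ} (hq : 0 ≤ q) (ht : 0 ≤ t) {z : ℂ} (hz : ‖z‖ ≤ q + t) : ‖z - prj q z‖ ≤ t := by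
  unfold prj
  split_ifs with h
  · simpa using ht
  · have hz0 : 0 < ‖z‖ := by linarith
    have h1 : z - ((q / ‖z‖ : ℝ) : ℂ) * z = (((‖z‖ - q) / ‖z‖ : ℝ) : ℂ) * z := by
      have : ((‖z‖ - q) / ‖z‖ : ℝ) = 1 - q / ‖z‖ := by field_simp
      rw [this]
      push_cast
      ring
    rw [h1, norm_mul, Complex.norm_real, Real.norm_of_nonneg (div_nonneg (by linarith) hz0.le), div_mul_cancel₀ _ hz0.ne']
    linarith

theorem Fol.extend (h : BFlow S ev Z ρ L c r₂ r₃ κ) (hc : Cst L c r₂ r₃ r ε) {f g : ι} (hf : f ∈ S) (hg : g ∈ S) {R : ℝ} (hR : r ≤ R)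
    {φ : ℂ → ℂ} (hfol : Fol ev r₂ r ε R f g φ) :
    (∃ φ', Fol ev r₂ r ε (R + r / 8) f g φ') ∨ ∃ z' z₁, Bad ev r₂ r ε R f g φ z' z₁ := by
  by_cases hbad : ∃ z' z₁, Bad ev r₂ r ε R f g φ z' z₁
  · exact Or.inr hbad
  refine Or.inl ?_
  have hr := hc.r_pos
  have hr₂ := h.r₂_pos
  have hcp := h.c_pos
  have hL := h.L_pos
  have hq0 : 0 ≤ R - r / 8 := by linarith
  have hpR : ∀ z : ℂ, prj (R - r / 8) z ∈ ball (0 : ℂ) R := by
    intro z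
    rw [mem_ball_zero_iff]
    have := norm_prj_le hq0 z
    linarith
  have hpd : ∀ z : ℂ, ‖z‖ < R + r / 8 → ‖z - prj (R - r / 8) z‖ ≤ r / 4 := by
    intro z hz
    exact norm_sub_prj hq0 (by linarith) (by linarith)
  have hex : ∀ z : ℂ, ∃ w : ℂ, (‖z‖ < R → w = φ z) ∧
      (R ≤ ‖z‖ → ‖z‖ < R + r / 8 → ‖w - φ (prj (R - r / 8) z)‖ ≤ r₂ ∧ dist (ev g z) (ev f w) ≤ ε) := by
    intro z
    by_cases h1 : ‖z‖ < R
    · exact ⟨φ z, fun _ => rfl, fun h2 => absurd h1 (not_lt.mpr h2)⟩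
    by_cases h2 : ‖z‖ < R + r / 8
    · have h3 : ∃ w ∈ closedBall (φ (prj (R - r / 8) z)) r₂, dist (ev g z) (ev f w) ≤ ε := by
        by_contra hcon
        push Not at hcon
        exact hbad ⟨prj (R - r / 8) z, z, hfol, norm_prj_eq hq0 (by linarith), hpd z h2, hcon⟩
      obtain ⟨w, hw, hw'⟩ := h3
      rw [mem_closedBall, dist_eq_norm] at hw
      exact ⟨w, fun h4 => absurd h4 h1, fun _ _ => ⟨hw, hw'⟩⟩
    · exact ⟨0, fun h4 => absurd h4 h1, fun _ h4 => absurd h4 h2⟩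
  choose φ' hφ1 hφ2 using hex
  have hclose : ∀ z ∈ ball (0 : ℂ) (R + r / 8), dist (ev g z) (ev f (φ' z)) ≤ ε := by
    intro z hz
    rw [mem_ball_zero_iff] at hz
    rcases lt_or_ge ‖z‖ R with h1 | h1
    · rw [hφ1 z h1]
      exact hfol.close z (by rw [mem_ball_zero_iff]; exact h1)
    · exact (hφ2 z h1 hz).2
  have hB0 : ∀ z ∈ ball (0 : ℂ) (R + r / 8), ‖φ' z - φ (prj (R - r / 8) z)‖ ≤ 4 * r₂ := by
    intro z hz
    rw [mem_ball_zero_iff] at hz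
    rcases lt_or_ge ‖z‖ R with h1 | h1
    · rw [hφ1 z h1]
      have h2 := hfol.cont z (by rw [mem_ball_zero_iff]; exact h1) _ (hpR z) ((hpd z hz).trans (by linarith))
      linarith
    · have := (hφ2 z h1 hz).1
      linarith
  have hB : ∀ z ∈ ball (0 : ℂ) (R + r / 8), ‖φ' z - φ (prj (R - r / 8) z)‖ ≤ r₂ / 20 := by
    intro z hz
    have h1 := h.emb f hf _ _ (hB0 z hz)
    have h2 := hclose z hz
    rw [mem_ball_zero_iff] at hz
    have h3 := hfol.close _ (hpR z)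
    have h4 := h.lip g hg z (prj (R - r / 8) z)
    have h5 : L * ‖z - prj (R - r / 8) z‖ ≤ L * (r / 4) := mul_le_mul_of_nonneg_left (hpd z hz) hL.le
    have h6 : dist (ev f (φ' z)) (ev f (φ (prj (R - r / 8) z))) ≤
        dist (ev g z) (ev f (φ' z)) + dist (ev g z) (ev g (prj (R - r / 8) z)) + dist (ev g (prj (R - r / 8) z)) (ev f (φ (prj (R - r / 8) z))) := by
      have e1 := dist_triangle (ev f (φ' z)) (ev g z) (ev f (φ (prj (R - r / 8) z)))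
      have e2 := dist_triangle (ev g z) (ev g (prj (R - r / 8) z)) (ev f (φ (prj (R - r / 8) z)))
      rw [dist_comm (ev f (φ' z)) (ev g z)] at e1
      linarith
    have h7 : c * ‖φ' z - φ (prj (R - r / 8) z)‖ ≤ c * (r₂ / 20) := by
      have := hc.hr
      have := hc.hε
      have : 0 < c * r₂ := by positivity
      linarith
    exact le_of_mul_le_mul_left h7 hcp
  refine ⟨φ', hclose, ?_, ?_⟩
  · intro z hz z' hz' hzz
    set p := prj (R - r / 8) z with hp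
    set p' := prj (R - r / 8) z' with hp'
    have a1 := hB z hz
    have a2 := hB z' hz'
    rw [← hp] at a1
    rw [← hp'] at a2
    have b1 : ‖z - p‖ ≤ r / 4 := hpd z (by rwa [mem_ball_zero_iff] at hz)
    have b2 : ‖z' - p'‖ ≤ r / 4 := hpd z' (by rwa [mem_ball_zero_iff] at hz')
    have hpp : ‖p - p'‖ ≤ r + r / 2 := by
      have e : p - p' = (z - z') - (z - p) + (z' - p') := by ring
      have e1 := norm_add_le ((z - z') - (z - p)) (z' - p')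
      have e2 := norm_sub_le (z - z') (z - p)
      rw [e]
      linarith
    have hpm : p ∈ ball (0 : ℂ) R := hpR z
    have hpm' : p' ∈ ball (0 : ℂ) R := hpR z'
    have hm : (p + p') / 2 ∈ ball (0 : ℂ) R := by
      rw [mem_ball_zero_iff] at hpm hpm' ⊢
      have e1 := norm_add_le p p'
      rw [norm_div, Complex.norm_ofNat]
      linarith
    have m1 : ‖p - (p + p') / 2‖ ≤ r := by
      have e : p - (p + p') / 2 = (p - p') / 2 := by ring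
      rw [e, norm_div, Complex.norm_ofNat]
      linarith
    have m2 : ‖(p + p') / 2 - p'‖ ≤ r := by
      have e : (p + p') / 2 - p' = (p - p') / 2 := by ring
      rw [e, norm_div, Complex.norm_ofNat]
      linarith
    have c1 := hfol.cont _ hpm _ hm m1
    have c2 := hfol.cont _ hm _ hpm' m2
    have c3 : ‖φ p - φ p'‖ ≤ 4 * r₂ := by
      have := norm_sub_le_norm_sub_add_norm_sub (φ p) (φ ((p + p') / 2)) (φ p')
      linarith
    have h1 := h.emb f hf _ _ c3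
    have h2 := hfol.close _ hpm
    have h3 := hfol.close _ hpm'
    have h4 := h.lip g hg p p'
    have h5 : L * ‖p - p'‖ ≤ L * (r + r / 2) := mul_le_mul_of_nonneg_left hpp hL.le
    have h6 : dist (ev f (φ p)) (ev f (φ p')) ≤ dist (ev g p) (ev f (φ p)) + dist (ev g p) (ev g p') + dist (ev g p') (ev f (φ p')) := by
      have e1 := dist_triangle (ev f (φ p)) (ev g p) (ev f (φ p'))
      have e2 := dist_triangle (ev g p) (ev g p') (ev f (φ p'))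
      rw [dist_comm (ev f (φ p)) (ev g p)] at e1
      linarith
    have h7 : c * ‖φ p - φ p'‖ ≤ c * (5 * r₂ / 64) := by
      have := hc.hr
      have := hc.hε
      have : 0 < c * r₂ := by positivity
      linarith
    have h8 := le_of_mul_le_mul_left h7 hcp
    have e : φ' z - φ' z' = (φ' z - φ p) + (φ p - φ p') - (φ' z' - φ p') := by ring
    have e1 := norm_sub_le ((φ' z - φ p) + (φ p - φ p')) (φ' z' - φ p')
    have e2 := norm_add_le (φ' z - φ p) (φ p - φ p')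
    rw [e]
    linarith
  · rw [hφ1 0 (by rw [norm_zero]; linarith)]
    exact hfol.zero

theorem exists_bad (h : BFlow S ev Z ρ L c r₂ r₃ κ) (hc : Cst L c r₂ r₃ r ε) {f g : ι} (hf : f ∈ S) (hg : g ∈ S) {R₀ : ℝ} (hR : r ≤ R₀)
    (h0 : ∃ φ, Fol ev r₂ r ε R₀ f g φ) :
    (∀ k : ℕ, ∃ (R : ℝ) (φ : ℂ → ℂ), (k : ℝ) ≤ R ∧ Fol ev r₂ r ε R f g φ) ∨
      ∃ (R : ℝ) (φ : ℂ → ℂ) (z' z₁ : ℂ), R₀ ≤ R ∧ Bad ev r₂ r ε R f g φ z' z₁ := by
  by_cases hbad : ∃ (R : ℝ) (φ : ℂ → ℂ) (z' z₁ : ℂ), R₀ ≤ R ∧ Bad ev r₂ r ε R f g φ z' z₁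
  · exact Or.inr hbad
  refine Or.inl ?_
  have hr := hc.r_pos
  have hind : ∀ m : ℕ, ∃ φ : ℂ → ℂ, Fol ev r₂ r ε (R₀ + m * (r / 8)) f g φ := by
    intro m
    induction m with
    | zero => simpa using h0
    | succ m ih =>
      obtain ⟨φ, hφ⟩ := ih
      have hm : (0 : ℝ) ≤ m * (r / 8) := by positivity
      rcases Fol.extend h hc hf hg (by linarith) hφ with ⟨φ', hφ'⟩ | ⟨z', z₁, hb⟩
      · refine ⟨φ', ?_⟩
        have e : R₀ + ((m + 1 : ℕ) : ℝ) * (r / 8) = R₀ + m * (r / 8) + r / 8 := by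
          push_cast
          ring
        rw [e]
        exact hφ'
      · exact absurd ⟨_, φ, z', z₁, by linarith, hb⟩ hbad
  intro k
  obtain ⟨m, hm⟩ := exists_nat_ge ((k : ℝ) / (r / 8))
  obtain ⟨φ, hφ⟩ := hind m
  refine ⟨_, φ, ?_, hφ⟩
  rw [div_le_iff₀ (by positivity)] at hm
  linarith

theorem fol_id (hc : Cst L c r₂ r₃ r ε) {f g : ι} {n : ℝ} (hfg : ∀ z ∈ closedBall (0 : ℂ) n, dist (ev f z) (ev g z) ≤ ε) :
    Fol ev r₂ r ε n f g id := by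
  refine ⟨?_, ?_, rfl⟩
  · intro z hz
    rw [dist_comm]
    exact hfg z (ball_subset_closedBall hz)
  · intro z _ z' _ hzz
    exact hzz.trans hc.r_le

end Pool.Agent.H5.BD

end

section

/-!
# BD ALim: limits of translates

`lim_trans`: choose `f' n ∈ S` with `ev (f' n) z = ev (f n) (z + a n)` (`trans`; for `n` with `f n ∈ S`) and apply `lim`.
`unif`: `closedBall 0 R` is covered by finitely many balls of radius `ε / (4 L)`; `ev F` has the Lipschitz constant `L` (`F ∈ S`), and at the finitely many centres eventually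
`dist < ε / 4`.
`tendsto_at`: `dist (ev (f n) (b n + a n)) (ev F b) ≤ L ‖b n - b‖ + dist (ev (f n) (b + a n)) (ev F b)`.
`exists_lim_bdd`: a bounded sequence in `ℂ` has a limit along an ultrafilter (`closedBall 0 C` is compact, `IsCompact.ultrafilter_le_nhds` for the image ultrafilter).
-/

set_option autoImplicit false

open Topology Filter Metric

namespace Pool.Agent.H5.BD

attribute [-instance] ProperSMul.toContinuousSMul

variable {Y ι : Type} [MetricSpace Y] {S : Set ι} {ev : ι → ℂ → Y} {Z : Set Y} {ρ : ι → ℂ → ι → ℂ → ℝ} {L c r₂ r₃ κ : ℝ}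

theorem BFlow.lim_trans (h : BFlow S ev Z ρ L c r₂ r₃ κ) (𝒰 : Ultrafilter ℕ) (h𝒰 : (𝒰 : Filter ℕ) ≤ atTop) (f : ℕ → ι) (a : ℕ → ℂ)
    (hf : ∀ᶠ n in (𝒰 : Filter ℕ), f n ∈ S) : ∃ F ∈ S, ∀ z, Tendsto (fun n => ev (f n) (z + a n)) 𝒰 (𝓝 (ev F z)) := by
  classical
  have key : ∀ n, ∃ g, f n ∈ S → (g ∈ S ∧ ∀ z, ev g z = ev (f n) (z + a n)) := by
    intro n
    by_cases hn : f n ∈ S
    · obtain ⟨g, hg, hg'⟩ := h.trans (f n) hn (a n)
      exact ⟨g, fun _ => ⟨hg, hg'⟩⟩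
    · exact ⟨f n, fun h' => absurd h' hn⟩
  choose F' hF' using key
  obtain ⟨F, hF, hlim⟩ := h.lim 𝒰 h𝒰 F' (hf.mono fun n hn => (hF' n hn).1)
  refine ⟨F, hF, fun z => (hlim z).congr' ?_⟩
  filter_upwards [hf] with n hn
  exact (hF' n hn).2 z

theorem BFlow.unif (h : BFlow S ev Z ρ L c r₂ r₃ κ) (𝒰 : Ultrafilter ℕ) {f : ℕ → ι} {a : ℕ → ℂ}
    (hf : ∀ᶠ n in (𝒰 : Filter ℕ), f n ∈ S) {F : ι} (hF : F ∈ S) (hlim : ∀ z, Tendsto (fun n => ev (f n) (z + a n)) 𝒰 (𝓝 (ev F z)))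
    (R : ℝ) {ε : ℝ} (hε : 0 < ε) : ∀ᶠ n in (𝒰 : Filter ℕ), ∀ z ∈ closedBall (0 : ℂ) R, dist (ev (f n) (z + a n)) (ev F z) < ε := by
  have hL := h.L_pos
  have hδ : 0 < ε / (4 * L) := by positivity
  have hLδ : L * (ε / (4 * L)) = ε / 4 := by field_simp
  obtain ⟨t, -, htf, hcov⟩ := (isCompact_closedBall (0 : ℂ) R).finite_cover_balls hδ
  have h1 : ∀ᶠ n in (𝒰 : Filter ℕ), ∀ x ∈ t, dist (ev (f n) (x + a n)) (ev F x) < ε / 4 :=
    (Filter.eventually_all_finite htf).2 fun x _ =>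
      Metric.tendsto_nhds.1 (hlim x) (ε / 4) (by positivity)
  filter_upwards [hf, h1] with n hn h1n z hz
  obtain ⟨x, hx, hzx⟩ : ∃ x ∈ t, z ∈ ball x (ε / (4 * L)) := by
    have := hcov hz
    simpa only [Set.mem_iUnion, exists_prop] using this
  rw [mem_ball, dist_eq_norm] at hzx
  have e1 : dist (ev (f n) (z + a n)) (ev (f n) (x + a n)) ≤ ε / 4 := by
    refine (h.lip (f n) hn _ _).trans ?_
    rw [add_sub_add_right_eq_sub]
    calc L * ‖z - x‖ ≤ L * (ε / (4 * L)) := mul_le_mul_of_nonneg_left hzx.le hL.le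
      _ = ε / 4 := hLδ
  have e2 : dist (ev F x) (ev F z) ≤ ε / 4 := by
    refine (h.lip F hF _ _).trans ?_
    rw [norm_sub_rev]
    calc L * ‖z - x‖ ≤ L * (ε / (4 * L)) := mul_le_mul_of_nonneg_left hzx.le hL.le
      _ = ε / 4 := hLδ
  have e3 := h1n x hx
  have e4 := dist_triangle4 (ev (f n) (z + a n)) (ev (f n) (x + a n)) (ev F x) (ev F z)
  linarith

theorem BFlow.tendsto_at (h : BFlow S ev Z ρ L c r₂ r₃ κ) (𝒰 : Ultrafilter ℕ) {f : ℕ → ι} {a b : ℕ → ℂ}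
    (hf : ∀ᶠ n in (𝒰 : Filter ℕ), f n ∈ S) {F : ι} (hlim : ∀ z, Tendsto (fun n => ev (f n) (z + a n)) 𝒰 (𝓝 (ev F z)))
    {b₀ : ℂ} (hb : Tendsto b 𝒰 (𝓝 b₀)) : Tendsto (fun n => ev (f n) (b n + a n)) 𝒰 (𝓝 (ev F b₀)) := by
  rw [tendsto_iff_dist_tendsto_zero]
  have h1 : Tendsto (fun n => L * ‖b n - b₀‖ + dist (ev (f n) (b₀ + a n)) (ev F b₀)) 𝒰 (𝓝 0) := by
    have h2 : Tendsto (fun n => ‖b n - b₀‖) 𝒰 (𝓝 0) := tendsto_iff_norm_sub_tendsto_zero.1 hb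
    have h3 := tendsto_iff_dist_tendsto_zero.1 (hlim b₀)
    have h4 := (h2.const_mul L).add h3
    rwa [mul_zero, add_zero] at h4
  refine squeeze_zero' (Eventually.of_forall fun n => dist_nonneg) ?_ h1
  filter_upwards [hf] with n hn
  refine (dist_triangle _ (ev (f n) (b₀ + a n)) _).trans (add_le_add ?_ le_rfl)
  have := h.lip (f n) hn (b n + a n) (b₀ + a n)
  rwa [add_sub_add_right_eq_sub] at this

theorem exists_lim_bdd (𝒰 : Ultrafilter ℕ) {b : ℕ → ℂ} {C : ℝ} (hb : ∀ᶠ n in (𝒰 : Filter ℕ), ‖b n‖ ≤ C) :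
    ∃ b₀ : ℂ, ‖b₀‖ ≤ C ∧ Tendsto b 𝒰 (𝓝 b₀) := by
  obtain ⟨b₀, hb₀, hle⟩ := (isCompact_closedBall (0 : ℂ) C).ultrafilter_le_nhds (𝒰.map b) (by
    rw [le_principal_iff, Ultrafilter.coe_map, Filter.mem_map]
    filter_upwards [hb] with n hn
    rw [Set.mem_preimage, mem_closedBall_zero_iff]
    exact hn)
  refine ⟨b₀, mem_closedBall_zero_iff.1 hb₀, ?_⟩
  rwa [Ultrafilter.coe_map] at hle

end Pool.Agent.H5.BD

end

section

/-!
# BD AIso: two curves in `Z` which are close have the same plaques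

Suppose the claim is false: for every `n` there are `f n, g n ∈ S` with all `ev (f n) z`, `ev (g n) z` in `Z`, `a n ∈ ℂ`, `φ n` with `FolAt ev r₂ s (1 / (n + 1)) (f n) (g n) (a n) (φ n)` and
`z n ∈ closedBall (a n) r₃` with `ev (g n) (z n) ∉ Pl ev r₂ (f n) (φ n (a n))`.  Along `𝒰 = hyperfilter ℕ` (`lim_trans`): `ev (f n) (w + φ n (a n)) → ev F w`, `ev (g n) (z + a n) → ev G z`;
all `ev F w`, `ev G z` are in `Z` (closed).  For `‖ζ‖ ≤ s` let `φ∞ ζ` be the limit of `φ n (ζ + a n) - φ n (a n)` (`exists_lim_bdd`, `‖φ∞ ζ‖ ≤ r₂ / 4`); by `tendsto_at` and `FolAt`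
`ev G ζ = ev F (φ∞ ζ)`.
`iso` for `G`, `η = min s (r₃ / 2)` gives `z₁`; let `w₁ = φ∞ z₁`, so `ev F w₁ = ev G z₁`.  `η' = min (r₃ / 2) r₂` gives `δ > 0`.  Let `f' n, g' n ∈ S` be the translates
(`ev (f' n) w = ev (f n) (w + φ n (a n))`, `ev (g' n) z = ev (g n) (z + a n)`).  For almost all `n`: `dist (ev (f' n) w) (ev G z₁) < δ` for `‖w - w₁‖ ≤ t`, where `t = δ / (2 L)` (and
`t ≤ r₂ / 2`): it is at most `L t + dist (ev (f' n) w₁) (ev F w₁)`; in the same way `dist (ev (g' n) ζ) (ev G z₁) < δ` for `‖ζ - z₁‖ ≤ t`.  Fix such an `n`, for which also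
`dist (ev G 0) (ev (f' n) 0) ≤ ε` and `dist (ev (g' n) 0) (ev (f' n) 0) ≤ ε` with the `ε` of `ident` (`φ∞ 0 = 0`, so `ev G 0 = ev F 0`).
(1) For `‖w - w₁‖ ≤ t` choose `z' w` with `‖z' w - z₁‖ < η'` and `ev (f' n) w = ev G (z' w)`.  By `emb` for `G` (`‖z' w - z' w₁‖ ≤ 2 η' ≤ 4 r₂`):
`c ‖z' w - z' w₁‖ ≤ dist (ev (f' n) w) (ev (f' n) w₁) ≤ L ‖w - w₁‖ → 0`, and `z' w ≠ z' w₁` for `w ≠ w₁` near `w₁` by `emb` for `f' n`.  So
`∃ᶠ z in 𝓝[≠] (z' w₁), ev G z ∈ Pl ev r₂ (f' n) 0` (`w ∈ closedBall 0 r₂`), `z' w₁ ∈ closedBall 0 r₃`.  `ident` for `f' n`, `G` (`z₀ = 0`, `w₀ = 0`): `ev G z ∈ Pl ev r₂ (f' n) 0` for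
all `z ∈ closedBall 0 r₃`.
(2) For `‖ζ - z₁‖ ≤ t`: `ev (g' n) ζ = ev G ζ'` with `‖ζ' - z₁‖ < η'`, `ζ' ∈ closedBall 0 r₃`, so `ev (g' n) ζ ∈ Pl ev r₂ (f' n) 0`.  `ident` for `f' n`, `g' n` (`z₁`): this holds for all
`ζ ∈ closedBall 0 r₃`, in particular for `ζ = z n - a n`.  But `Pl ev r₂ (f' n) 0 = Pl ev r₂ (f n) (φ n (a n))`: contradiction.
-/

set_option autoImplicit false

open Topology Filter Metric

namespace Pool.Agent.H5.BD

attribute [-instance] ProperSMul.toContinuousSMul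

variable {Y ι : Type} [MetricSpace Y] {S : Set ι} {ev : ι → ℂ → Y} {Z : Set Y} {ρ : ι → ℂ → ι → ℂ → ℝ} {L c r₂ r₃ κ : ℝ}

theorem BFlow.plaque_of_fol (h : BFlow S ev Z ρ L c r₂ r₃ κ) {s : ℝ} (hs : 0 < s) (hs₃ : s ≤ r₃) :
    ∃ ε : ℝ, 0 < ε ∧ ∀ f ∈ S, ∀ g ∈ S, (∀ z, ev f z ∈ Z) → (∀ z, ev g z ∈ Z) → ∀ z₀ φ, FolAt ev r₂ s ε f g z₀ φ →
      ∀ z ∈ closedBall z₀ r₃, ev g z ∈ Pl ev r₂ f (φ z₀) := by
  by_contra hcon
  push Not at hcon
  have hε1 : ∀ n : ℕ, (0 : ℝ) < 1 / ((n : ℝ) + 1) := fun n => by positivity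
  choose f hf g hg hfZ hgZ a φ hfol z hz hnot using fun n : ℕ => hcon (1 / ((n : ℝ) + 1)) (hε1 n)
  have h𝒰 : ((hyperfilter ℕ : Ultrafilter ℕ) : Filter ℕ) ≤ atTop := Nat.hyperfilter_le_atTop
  generalize hU : (hyperfilter ℕ : Ultrafilter ℕ) = 𝒰 at h𝒰
  have hL := h.L_pos
  have hc := h.c_pos
  have hr₂ := h.r₂_pos
  have hr₃ := h.r₃_pos
  have hdec : Tendsto (fun n : ℕ => 1 / ((n : ℝ) + 1)) 𝒰 (𝓝 0) :=
    tendsto_one_div_add_atTop_nhds_zero_nat.mono_left h𝒰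
  obtain ⟨F, hF, limF⟩ := h.lim_trans 𝒰 h𝒰 f (fun n => φ n (a n)) (Eventually.of_forall hf)
  obtain ⟨G, hG, limG⟩ := h.lim_trans 𝒰 h𝒰 g a (Eventually.of_forall hg)
  have hGZ : ∀ z, ev G z ∈ Z := fun z =>
    h.closed.mem_of_tendsto (limG z) (Eventually.of_forall fun n => hgZ n _)
  obtain ⟨z₁, hz₁, hiso⟩ := h.iso G hG hGZ (min s (r₃ / 2)) (lt_min hs (by positivity))
  have hz₁s : ‖z₁‖ < s := hz₁.trans_le (min_le_left _ _)
  have hz₁r : ‖z₁‖ < r₃ / 2 := hz₁.trans_le (min_le_right _ _)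
  have hmem1 : ∀ n, z₁ + a n ∈ closedBall (a n) s := fun n => by
    rw [mem_closedBall, dist_eq_norm, add_sub_cancel_right]
    exact hz₁s.le
  have hmem0 : ∀ n, a n ∈ closedBall (a n) s := fun n => mem_closedBall_self hs.le
  obtain ⟨w₁, hw₁, limb⟩ := exists_lim_bdd 𝒰 (b := fun n => φ n (z₁ + a n) - φ n (a n)) (C := r₂ / 4)
    (Eventually.of_forall fun n => ((hfol n) _ (hmem1 n)).2)
  have limF1 := h.tendsto_at 𝒰 (Eventually.of_forall hf) limF limb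
  have hFG1 : ev F w₁ = ev G z₁ := by
    refine tendsto_nhds_unique limF1 ?_
    refine (limG z₁).congr_dist ?_
    refine squeeze_zero (fun n => dist_nonneg) (fun n => ?_) hdec
    have := ((hfol n) _ (hmem1 n)).1
    rw [sub_add_cancel]
    exact this
  have hFG0 : ev F 0 = ev G 0 := by
    refine tendsto_nhds_unique (limF 0) ?_
    refine (limG 0).congr_dist ?_
    refine squeeze_zero (fun n => dist_nonneg) (fun n => ?_) hdec
    have := ((hfol n) _ (hmem0 n)).1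
    rw [zero_add, zero_add]
    exact this
  obtain ⟨ε, hε, hident⟩ := h.ident
  obtain ⟨δ, hδ, hiso'⟩ := hiso (min (r₃ / 2) r₂) (lt_min (by positivity) hr₂)
  obtain ⟨t, ht0, htδ, htr⟩ : ∃ t : ℝ, 0 < t ∧ L * t ≤ δ / 2 ∧ t ≤ r₂ / 2 := by
    refine ⟨min (δ / (2 * L)) (r₂ / 2), lt_min (by positivity) (by positivity), ?_, min_le_right _ _⟩
    calc L * min (δ / (2 * L)) (r₂ / 2) ≤ L * (δ / (2 * L)) :=
          mul_le_mul_of_nonneg_left (min_le_left _ _) hL.le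
      _ = δ / 2 := by field_simp
  have E1 := (limF w₁).eventually (ball_mem_nhds _ (half_pos hδ))
  have E2 := (limG z₁).eventually (ball_mem_nhds _ (half_pos hδ))
  have E3 := (limF 0).eventually (ball_mem_nhds _ (half_pos hε))
  have E4 := (limG 0).eventually (ball_mem_nhds _ (half_pos hε))
  obtain ⟨n, hn1, hn2, hn3, hn4⟩ := (E1.and (E2.and (E3.and E4))).exists
  obtain ⟨f', hf', hf'e⟩ := h.trans (f n) (hf n) (φ n (a n))
  obtain ⟨g', hg', hg'e⟩ := h.trans (g n) (hg n) (a n)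
  have hf'Z : ∀ z, ev f' z ∈ Z := fun z => by rw [hf'e]; exact hfZ n _
  have hg'Z : ∀ z, ev g' z ∈ Z := fun z => by rw [hg'e]; exact hgZ n _
  rw [← hf'e] at hn1 hn3
  rw [← hg'e] at hn2 hn4
  rw [hFG1] at hn1
  rw [hFG0] at hn3
  have hnear : ∀ z', ‖z' - z₁‖ < min (r₃ / 2) r₂ → z' ∈ closedBall (0 : ℂ) r₃ := fun z' hz' => by
    rw [mem_closedBall_zero_iff]
    have h1 : ‖z'‖ ≤ ‖z' - z₁‖ + ‖z₁‖ := by simpa using norm_add_le (z' - z₁) z₁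
    have h2 := hz'.trans_le (min_le_left _ _)
    linarith
  -- first part
  have hf'near : ∀ w, ‖w - w₁‖ ≤ t → ∃ z', ‖z' - z₁‖ < min (r₃ / 2) r₂ ∧ ev f' w = ev G z' := by
    intro w hw
    refine hiso' f' hf' hf'Z w ?_
    calc dist (ev f' w) (ev G z₁) ≤ dist (ev f' w) (ev f' w₁) + dist (ev f' w₁) (ev G z₁) :=
          dist_triangle _ _ _
      _ < δ / 2 + δ / 2 := by
          refine add_lt_add_of_le_of_lt ?_ hn1
          exact (h.lip f' hf' w w₁).trans ((mul_le_mul_of_nonneg_left hw hL.le).trans htδ)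
      _ = δ := by ring
  have hchoice : ∀ w, ∃ z', ‖w - w₁‖ ≤ t → (‖z' - z₁‖ < min (r₃ / 2) r₂ ∧ ev f' w = ev G z') := by
    intro w
    by_cases hw : ‖w - w₁‖ ≤ t
    · obtain ⟨z', hz'⟩ := hf'near w hw
      exact ⟨z', fun _ => hz'⟩
    · exact ⟨0, fun h => absurd h hw⟩
  choose ζ hζ using hchoice
  have h11 : ‖w₁ - w₁‖ ≤ t := by rw [sub_self, norm_zero]; exact ht0.le
  have hev_t : ∀ᶠ w in 𝓝[≠] w₁, ‖w - w₁‖ ≤ t ∧ w ≠ w₁ := by
    refine Filter.Eventually.and ?_ self_mem_nhdsWithin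
    refine nhdsWithin_le_nhds ?_
    filter_upwards [closedBall_mem_nhds w₁ ht0] with w hw
    rw [mem_closedBall, dist_eq_norm] at hw
    exact hw
  have hlipζ : ∀ w, ‖w - w₁‖ ≤ t → c * ‖ζ w - ζ w₁‖ ≤ L * ‖w - w₁‖ := by
    intro w hw
    have h1 := hζ w hw
    have h2 := hζ w₁ h11
    have h3 : ‖ζ w - ζ w₁‖ ≤ 4 * r₂ := by
      have h4 : ‖ζ w - ζ w₁‖ ≤ ‖ζ w - z₁‖ + ‖ζ w₁ - z₁‖ := by
        have := norm_sub_le (ζ w - z₁) (ζ w₁ - z₁)
        rwa [sub_sub_sub_cancel_right] at this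
      have h5 := h1.1.trans_le (min_le_right _ _)
      have h6 := h2.1.trans_le (min_le_right _ _)
      linarith
    have h7 := h.emb G hG (ζ w) (ζ w₁) h3
    rw [← h1.2, ← h2.2] at h7
    exact h7.trans (h.lip f' hf' w w₁)
  have htend : Tendsto ζ (𝓝[≠] w₁) (𝓝[≠] (ζ w₁)) := by
    rw [tendsto_nhdsWithin_iff]
    constructor
    · rw [tendsto_iff_norm_sub_tendsto_zero]
      have h8 : Tendsto (fun w => L / c * ‖w - w₁‖) (𝓝[≠] w₁) (𝓝 0) := by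
        have h9 : Tendsto (fun w => L / c * ‖w - w₁‖) (𝓝 w₁) (𝓝 (L / c * ‖w₁ - w₁‖)) := by
          apply Continuous.tendsto
          fun_prop
        rw [sub_self, norm_zero, mul_zero] at h9
        exact h9.mono_left nhdsWithin_le_nhds
      refine squeeze_zero' (Eventually.of_forall fun w => norm_nonneg _) ?_ h8
      filter_upwards [hev_t] with w hw
      have := hlipζ w hw.1
      rw [div_mul_eq_mul_div, le_div_iff₀ hc]
      linarith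
    · filter_upwards [hev_t] with w hw heq
      have heq' : ζ w = ζ w₁ := heq
      have h1 := hζ w hw.1
      have h2 := hζ w₁ h11
      have h3 := h.emb f' hf' w w₁ (hw.1.trans (by linarith))
      rw [h1.2, h2.2, heq', dist_self] at h3
      have h4 : 0 < ‖w - w₁‖ := norm_pos_iff.2 (sub_ne_zero.2 hw.2)
      have : 0 < c * ‖w - w₁‖ := by positivity
      linarith
  have hfreq1 : ∃ᶠ z in 𝓝[≠] (ζ w₁), ev G z ∈ Pl ev r₂ f' 0 := by
    refine htend.frequently (p := fun z => ev G z ∈ Pl ev r₂ f' 0) ?_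
    refine Eventually.frequently ?_
    filter_upwards [hev_t] with w hw
    refine ⟨w, ?_, (hζ w hw.1).2⟩
    rw [mem_closedBall_zero_iff]
    have h1 : ‖w‖ ≤ ‖w - w₁‖ + ‖w₁‖ := by simpa using norm_add_le (w - w₁) w₁
    have h2 := hw.1
    linarith
  have hG0 : dist (ev G 0) (ev f' 0) ≤ ε := by
    rw [dist_comm]
    linarith
  have hGPl := hident f' hf' G hG 0 0 hG0 (ζ w₁) (hnear _ (hζ w₁ h11).1) hfreq1
  -- second part
  have hg'0 : dist (ev g' 0) (ev f' 0) ≤ ε := by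
    have := dist_triangle_right (ev g' 0) (ev f' 0) (ev G 0)
    linarith
  have hz₁mem : z₁ ∈ closedBall (0 : ℂ) r₃ := by
    rw [mem_closedBall_zero_iff]
    linarith
  have hfreq2 : ∃ᶠ z in 𝓝[≠] z₁, ev g' z ∈ Pl ev r₂ f' 0 := by
    refine Eventually.frequently ?_
    refine nhdsWithin_le_nhds ?_
    filter_upwards [closedBall_mem_nhds z₁ ht0] with w hw
    rw [mem_closedBall, dist_eq_norm] at hw
    obtain ⟨z', hz', he⟩ := hiso' g' hg' hg'Z w (by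
      calc dist (ev g' w) (ev G z₁) ≤ dist (ev g' w) (ev g' z₁) + dist (ev g' z₁) (ev G z₁) :=
            dist_triangle _ _ _
        _ < δ / 2 + δ / 2 := by
            refine add_lt_add_of_le_of_lt ?_ hn2
            exact (h.lip g' hg' w z₁).trans ((mul_le_mul_of_nonneg_left hw hL.le).trans htδ)
        _ = δ := by ring)
    rw [he]
    exact hGPl z' (hnear z' hz')
  have hfin := hident f' hf' g' hg' 0 0 hg'0 z₁ hz₁mem hfreq2 (z n - a n) (by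
    rw [mem_closedBall_zero_iff, ← dist_eq_norm]
    exact hz n)
  rw [hg'e, sub_add_cancel] at hfin
  obtain ⟨w, hw, hwe⟩ := hfin
  refine hnot n ⟨w + φ n (a n), ?_, ?_⟩
  · rw [mem_closedBall, dist_eq_norm, add_sub_cancel_right]
    exact mem_closedBall_zero_iff.1 hw
  · rw [← hwe, hf'e]

end Pool.Agent.H5.BD

end

section

/-!
# BD AAdm: the constants, and the decay of `ρ` on discs where `g` follows `f`

`decay`: let `B, ε_b` be as in `bdd`, `θ, ε_l` as in `loc` (for `s`), `ε₀ = min ε_b ε_l`.  Let `g` follow `f` on the disc of radius `R` (`Fol`, with `ε ≤ ε₀`, `s ≤ r`), `s ≤ R`.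
Let `W z = ρ f (φ z) g z * exp (-κ ‖z‖²)` for `z ∈ ball 0 R`; `0 ≤ W z ≤ B`.  Let `m` be the supremum of `W` over `ball 0 R` (bounded above by `B`, not empty if `R > 0`).
* If `‖z₀‖ + s < R` then `Fol.folAt` and `loc` with `a = 0` give `z ∈ closedBall z₀ s ⊆ ball 0 R` with `W z₀ ≤ θ W z ≤ θ m`.
* If `z₀ ∈ ball 0 R`, `R - s ≤ ‖z₀‖`, then `W z₀ ≤ B exp (-κ ‖z₀‖²) ≤ B exp (-κ (R - s)²)` (`0 ≤ R - s ≤ ‖z₀‖`).
So `m ≤ max (θ m) (B exp (-κ (R - s)²))`; as `θ < 1` and `m ≥ 0`, `m ≤ B exp (-κ (R - s)²)` (if `m ≤ θ m` then `m ≤ 0`).  Hence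
`ρ f (φ z) g z ≤ m exp (κ ‖z‖²) ≤ B exp (-κ ((R - s)² - ‖z‖²))`.

`exists_adm`: choose `r = min (min (r₂ / 4) r₃) (c r₂ / (32 L))`, `s = r / 32`, and `ε` the minimum of `c r₂ / 64` and of the numbers `ε` of `decay`, `small`, `ident`, `BFlow.plaque_of_fol` (for `s`).
(`FolAt` with `ε` implies `FolAt` with a larger number.)
-/

set_option autoImplicit false

open Topology Filter Metric

namespace Pool.Agent.H5.BD

attribute [-instance] ProperSMul.toContinuousSMul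

variable {Y ι : Type} [MetricSpace Y] {S : Set ι} {ev : ι → ℂ → Y} {Z : Set Y} {ρ : ι → ℂ → ι → ℂ → ℝ} {L c r₂ r₃ κ : ℝ}

theorem BFlow.decay (h : BFlow S ev Z ρ L c r₂ r₃ κ) {s : ℝ} (hs : 0 < s) (hs₃ : s ≤ r₃) :
    ∃ B ε₀ : ℝ, 0 ≤ B ∧ 0 < ε₀ ∧ ∀ r ε : ℝ, s ≤ r → ε ≤ ε₀ → ∀ f ∈ S, ∀ g ∈ S, ∀ (φ : ℂ → ℂ) (R : ℝ), s ≤ R → Fol ev r₂ r ε R f g φ →
      ∀ z ∈ ball (0 : ℂ) R, ρ f (φ z) g z ≤ B * Real.exp (-κ * ((R - s) ^ 2 - ‖z‖ ^ 2)) := by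
  obtain ⟨B, εb, hB, hεb, hbdd⟩ := h.bdd
  obtain ⟨θ, εl, hθ0, hθ1, hεl, hloc⟩ := h.loc s hs hs₃
  have hκ := h.κ_pos
  refine ⟨B, min εb εl, hB, lt_min hεb hεl, ?_⟩
  intro r ε hsr hε f hf g hg φ R hsR hFol z hz
  have hρ : ∀ y ∈ ball (0 : ℂ) R, 0 ≤ ρ f (φ y) g y ∧ ρ f (φ y) g y ≤ B := fun y hy =>
    hbdd f hf g hg (φ y) y ((hFol.close y hy).trans (hε.trans (min_le_left _ _)))
  have hW0 : ∀ y ∈ ball (0 : ℂ) R, 0 ≤ ρ f (φ y) g y * Real.exp (-κ * ‖y‖ ^ 2) := fun y hy =>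
    mul_nonneg (hρ y hy).1 (Real.exp_pos _).le
  have hWB : ∀ y ∈ ball (0 : ℂ) R, ρ f (φ y) g y * Real.exp (-κ * ‖y‖ ^ 2) ≤ B * Real.exp (-κ * ‖y‖ ^ 2) :=
    fun y hy => mul_le_mul_of_nonneg_right (hρ y hy).2 (Real.exp_pos _).le
  have hexp1 : ∀ y : ℂ, Real.exp (-κ * ‖y‖ ^ 2) ≤ 1 := by
    intro y
    rw [Real.exp_le_one_iff]
    have h1 : 0 ≤ κ * ‖y‖ ^ 2 := by positivity
    linarith
  have hbdd' : BddAbove ((fun y : ℂ => ρ f (φ y) g y * Real.exp (-κ * ‖y‖ ^ 2)) '' ball (0 : ℂ) R) := by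
    refine ⟨B, ?_⟩
    rintro _ ⟨y, hy, rfl⟩
    exact (hWB y hy).trans (mul_le_of_le_one_right hB (hexp1 y))
  set m : ℝ := sSup ((fun y : ℂ => ρ f (φ y) g y * Real.exp (-κ * ‖y‖ ^ 2)) '' ball (0 : ℂ) R) with hm
  have hle : ∀ y ∈ ball (0 : ℂ) R, ρ f (φ y) g y * Real.exp (-κ * ‖y‖ ^ 2) ≤ m := fun y hy =>
    le_csSup hbdd' ⟨y, hy, rfl⟩
  have hm0 : 0 ≤ m := (hW0 z hz).trans (hle z hz)
  have hmax : m ≤ max (θ * m) (B * Real.exp (-κ * (R - s) ^ 2)) := by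
    refine csSup_le ⟨_, z, hz, rfl⟩ ?_
    rintro _ ⟨y, hy, rfl⟩
    rcases lt_or_ge (‖y‖ + s) R with hcase | hcase
    · refine le_trans ?_ (le_max_left _ _)
      obtain ⟨x, hx, hle2⟩ := hloc f hf g hg y φ
        (hFol.folAt hsr hs.le hcase (hε.trans (min_le_right _ _))) 0
      rw [sub_zero, sub_zero] at hle2
      have hxR : x ∈ ball (0 : ℂ) R := by
        rw [mem_closedBall, dist_eq_norm] at hx
        rw [mem_ball_zero_iff]
        have h1 : ‖x‖ ≤ ‖x - y‖ + ‖y‖ := by simpa using norm_add_le (x - y) y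
        linarith
      exact hle2.trans (mul_le_mul_of_nonneg_left (hle x hxR) hθ0)
    · refine le_trans ?_ (le_max_right _ _)
      refine (hWB y hy).trans (mul_le_mul_of_nonneg_left ?_ hB)
      rw [Real.exp_le_exp]
      have h2 : (R - s) ^ 2 ≤ ‖y‖ ^ 2 := pow_le_pow_left₀ (by linarith) (by linarith) 2
      nlinarith
  have hmB : m ≤ B * Real.exp (-κ * (R - s) ^ 2) := by
    rcases le_max_iff.1 hmax with h1 | h1
    · have h2 : m ≤ 0 := by nlinarith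
      exact h2.trans (mul_nonneg hB (Real.exp_pos _).le)
    · exact h1
  have hsplit : ρ f (φ z) g z = ρ f (φ z) g z * Real.exp (-κ * ‖z‖ ^ 2) * Real.exp (κ * ‖z‖ ^ 2) := by
    rw [mul_assoc, ← Real.exp_add]
    have h0 : -κ * ‖z‖ ^ 2 + κ * ‖z‖ ^ 2 = 0 := by ring
    rw [h0, Real.exp_zero, mul_one]
  rw [hsplit]
  calc ρ f (φ z) g z * Real.exp (-κ * ‖z‖ ^ 2) * Real.exp (κ * ‖z‖ ^ 2)
      ≤ B * Real.exp (-κ * (R - s) ^ 2) * Real.exp (κ * ‖z‖ ^ 2) :=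
        mul_le_mul_of_nonneg_right ((hle z hz).trans hmB) (Real.exp_pos _).le
    _ = B * Real.exp (-κ * ((R - s) ^ 2 - ‖z‖ ^ 2)) := by
        rw [mul_assoc, ← Real.exp_add]
        congr 2
        ring

/-- the constants `r`, `ε` (with `s = r / 32`) are small enough -/
structure Adm (S : Set ι) (ev : ι → ℂ → Y) (Z : Set Y) (ρ : ι → ℂ → ι → ℂ → ℝ) (L c r₂ r₃ κ r ε B : ℝ) : Prop where
  cst : Cst L c r₂ r₃ r ε
  B_nonneg : 0 ≤ B
  decay : ∀ f ∈ S, ∀ g ∈ S, ∀ (φ : ℂ → ℂ) (R : ℝ), r ≤ R → Fol ev r₂ r ε R f g φ → ∀ z ∈ ball (0 : ℂ) R,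
    ρ f (φ z) g z ≤ B * Real.exp (-κ * ((R - r / 32) ^ 2 - ‖z‖ ^ 2))
  small : ∀ η : ℝ, 0 < η → ∃ δ : ℝ, 0 < δ ∧ ∀ f ∈ S, ∀ g ∈ S, ∀ z₀ φ, FolAt ev r₂ (r / 32) ε f g z₀ φ → ρ f (φ z₀) g z₀ ≤ δ →
    (∃ y ∈ Z, dist (ev g z₀) y ≤ η) ∨ ∃ w ∈ closedBall (φ z₀) r₂, dist (ev g z₀) (ev f w) ≤ η
  ident : ∀ f ∈ S, ∀ g ∈ S, ∀ z₀ w₀, dist (ev g z₀) (ev f w₀) ≤ ε → ∀ z₁ ∈ closedBall z₀ r₃,
    (∃ᶠ z in 𝓝[≠] z₁, ev g z ∈ Pl ev r₂ f w₀) → ∀ z ∈ closedBall z₀ r₃, ev g z ∈ Pl ev r₂ f w₀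
  iso : ∀ f ∈ S, ∀ g ∈ S, (∀ z, ev f z ∈ Z) → (∀ z, ev g z ∈ Z) → ∀ z₀ φ, FolAt ev r₂ (r / 32) ε f g z₀ φ →
    ∀ z ∈ closedBall z₀ r₃, ev g z ∈ Pl ev r₂ f (φ z₀)

theorem BFlow.exists_adm (h : BFlow S ev Z ρ L c r₂ r₃ κ) : ∃ r ε B : ℝ, Adm S ev Z ρ L c r₂ r₃ κ r ε B := by
  have hL := h.L_pos
  have hc := h.c_pos
  have hr₂ := h.r₂_pos
  have hr₃ := h.r₃_pos
  obtain ⟨r, hr, hr1, hr2, hr3⟩ : ∃ r : ℝ, 0 < r ∧ r ≤ r₂ / 4 ∧ r ≤ r₃ ∧ r ≤ c * r₂ / (32 * L) :=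
    ⟨min (min (r₂ / 4) r₃) (c * r₂ / (32 * L)), lt_min (lt_min (by positivity) hr₃) (by positivity),
      (min_le_left _ _).trans (min_le_left _ _), (min_le_left _ _).trans (min_le_right _ _), min_le_right _ _⟩
  have hs : 0 < r / 32 := by positivity
  have hs₃ : r / 32 ≤ r₃ := by linarith
  obtain ⟨B, ε₁, hB, hε₁, hdecay⟩ := h.decay hs hs₃
  obtain ⟨ε₂, hε₂, hsmall⟩ := h.small (r / 32) hs hs₃
  obtain ⟨ε₃, hε₃, hident⟩ := h.ident
  obtain ⟨ε₄, hε₄, hiso⟩ := h.plaque_of_fol hs hs₃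
  obtain ⟨ε, hε, he0, he1, he2, he3, he4⟩ : ∃ ε : ℝ, 0 < ε ∧ ε ≤ c * r₂ / 64 ∧ ε ≤ ε₁ ∧ ε ≤ ε₂ ∧ ε ≤ ε₃ ∧ ε ≤ ε₄ := by
    refine ⟨min (c * r₂ / 64) (min ε₁ (min ε₂ (min ε₃ ε₄))), ?_, min_le_left _ _, ?_, ?_, ?_, ?_⟩
    · exact lt_min (by positivity) (lt_min hε₁ (lt_min hε₂ (lt_min hε₃ hε₄)))
    · exact (min_le_right _ _).trans (min_le_left _ _)
    · exact (min_le_right _ _).trans ((min_le_right _ _).trans (min_le_left _ _))
    · exact (min_le_right _ _).trans ((min_le_right _ _).trans ((min_le_right _ _).trans (min_le_left _ _)))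
    · exact (min_le_right _ _).trans ((min_le_right _ _).trans ((min_le_right _ _).trans (min_le_right _ _)))
  refine ⟨r, ε, B, ?_, hB, ?_, ?_, ?_, ?_⟩
  · refine ⟨hr, hε, hr1, hr2, ?_, ?_⟩
    · rw [le_div_iff₀ (by positivity)] at hr3
      linarith
    · linarith
  · intro f hf g hg φ R hR hFol z hz
    exact hdecay r ε (by linarith) he1 f hf g hg φ R (by linarith) hFol z hz
  · intro η hη
    obtain ⟨δ, hδ, hsm⟩ := hsmall η hη
    refine ⟨δ, hδ, fun f hf g hg z₀ φ hFol hρ => ?_⟩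
    exact hsm f hf g hg z₀ φ (fun z hz => ⟨(hFol z hz).1.trans he2, (hFol z hz).2⟩) hρ
  · intro f hf g hg z₀ w₀ hd z₁ hz₁ hfreq z hz
    exact hident f hf g hg z₀ w₀ (hd.trans he3) z₁ hz₁ hfreq z hz
  · intro f hf g hg hfZ hgZ z₀ φ hFol z hz
    exact hiso f hf g hg hfZ hgZ z₀ φ (fun y hy => ⟨(hFol y hy).1.trans he4, (hFol y hy).2⟩) z hz

end Pool.Agent.H5.BD

end

section

/-!
# BD AHalf: the limit at the boundary of the disc where `g` follows `f`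

Let `s = r / 32`, so `‖z' n‖ = R n - 4 s`.  `lim_trans` gives `F` (for `f n`, `a n = φ n (z' n)`) and `G` (for `g n`, `a n = z' n`).
Let `‖ζ‖ ≤ s` and let `n` be large (`R n ≥ r`).  `‖ζ + z' n‖ + s ≤ R n - 2 s < R n`, so `Fol.folAt` gives `FolAt` (radius `s`) at the point `ζ + z' n`, in particular
`dist (ev (g n) (ζ + z' n)) (ev (f n) (φ n (ζ + z' n))) ≤ ε` and `‖φ n (ζ + z' n) - φ n (z' n)‖ ≤ r₂ / 4`.
(1) Let `φ∞ ζ` be the limit of `φ n (ζ + z' n) - φ n (z' n)` along `𝒰` (`exists_lim_bdd`; `φ∞ 0 = 0`; for `‖ζ‖ > s` put `φ∞ ζ = 0`).  By `tendsto_at` and the above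
`FolAt ev r₂ s ε F G 0 φ∞`.
(2) `decay`: `ρ (f n) (φ n (ζ + z' n)) (g n) (ζ + z' n) ≤ B exp (-κ ((R n - s)² - (R n - 3 s)²)) = B exp (-κ (4 s R n - 8 s²)) → 0`.  By `small`, for every `η > 0` and almost all
`n`: `ev (g n) (ζ + z' n)` has distance `≤ η` to a point of `Z`, or to `ev (f n) w` with `w ∈ closedBall (φ n (ζ + z' n)) r₂`.  In the second case
`dist (ev (f n) w) (ev (f n) (φ n (ζ + z' n))) ≤ η + ε`, so by `emb` `c ‖w - φ n (ζ + z' n)‖ ≤ η + ε ≤ c r₂ / 32` for small `η`, so `‖w - φ n (z' n)‖ ≤ r₂ / 32 + r₂ / 4 ≤ r₂`.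
As `𝒰` is an ultrafilter one of the two cases holds for `𝒰`-almost all `n`.  If for every `η` it is the first case then `ev G ζ ∈ closure Z = Z`; otherwise for all small `η` it is the
second case (if it holds for `η` it holds for larger `η`; so if the first case fails for one `η₀` then the second case holds for all `η ≤ η₀`), and then, with `w - φ n (z' n) → w∞`
(`exists_lim_bdd`), `dist (ev G ζ) (ev F w∞) ≤ η` with `w∞ ∈ closedBall 0 r₂`; as the plaque `Pl ev r₂ F 0` is compact, `ev G ζ ∈ Pl ev r₂ F 0`.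
So for `‖ζ‖ ≤ s`: `ev G ζ ∈ Z` or `ev G ζ ∈ Pl ev r₂ F 0`.
(3) The limit of `z₁ n - z' n` is a point `a`, `‖a‖ ≤ r / 4 ≤ r₃`; for `w ∈ closedBall 0 r₂`: `ε ≤ dist (ev G a) (ev F w)` (`tendsto_at`; `far` for `w + φ n (z' n)`).
So `ev G a ∉ Pl ev r₂ F 0`.
(4) If not all `ev G z` are in `Z` then by `dense` `ev G z ∉ Z` for all `z ≠ 0` near `0`, so `ev G z ∈ Pl ev r₂ F 0` for all `z ≠ 0` near `0`, and by `ident`
(`z₀ = 0`, `w₀ = 0`, `z₁ = 0`; `dist (ev G 0) (ev F 0) ≤ ε` by (1)) `ev G a ∈ Pl ev r₂ F 0`: contradiction to (3).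
(5) If also all `ev F z` are in `Z` then `iso` (with (1), `φ∞ 0 = 0`) gives `ev G a ∈ Pl ev r₂ F 0`: contradiction to (3).
-/

set_option autoImplicit false

open Topology Filter Metric

namespace Pool.Agent.H5.BD

attribute [-instance] ProperSMul.toContinuousSMul

variable {Y ι : Type} [MetricSpace Y] {S : Set ι} {ev : ι → ℂ → Y} {Z : Set Y} {ρ : ι → ℂ → ι → ℂ → ℝ} {L c r₂ r₃ κ r ε B : ℝ}

/-- the data of the limit at the boundary of the disc -/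
private structure HLim (S : Set ι) (ev : ι → ℂ → Y) (r₂ r ε : ℝ) (𝒰 : Ultrafilter ℕ) (f g : ℕ → ι) (R : ℕ → ℝ) (φ : ℕ → ℂ → ℂ)
    (z' z₁ : ℕ → ℂ) (F G : ι) : Prop where
  hF : F ∈ S
  hG : G ∈ S
  hR : Tendsto R 𝒰 atTop
  hf : ∀ᶠ n in (𝒰 : Filter ℕ), f n ∈ S
  hg : ∀ᶠ n in (𝒰 : Filter ℕ), g n ∈ S
  bad : ∀ᶠ n in (𝒰 : Filter ℕ), Bad ev r₂ r ε (R n) (f n) (g n) (φ n) (z' n) (z₁ n)
  limF : ∀ z, Tendsto (fun n => ev (f n) (z + φ n (z' n))) 𝒰 (𝓝 (ev F z))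
  limG : ∀ z, Tendsto (fun n => ev (g n) (z + z' n)) 𝒰 (𝓝 (ev G z))

private theorem Bad.half_folAt {f g : ι} {R : ℝ} {φ : ℂ → ℂ} {z' z₁ : ℂ} (h : Bad ev r₂ r ε R f g φ z' z₁) (hr : 0 < r) {ζ : ℂ}
    (hζ : ‖ζ‖ ≤ r / 32) : FolAt ev r₂ (r / 32) ε f g (ζ + z') φ := by
  refine h.fol.folAt (by linarith) (by linarith) ?_ le_rfl
  have h1 := norm_add_le ζ z'
  have h2 := h.norm
  linarith

private theorem Bad.half_close {f g : ι} {R : ℝ} {φ : ℂ → ℂ} {z' z₁ : ℂ} (h : Bad ev r₂ r ε R f g φ z' z₁) (hr : 0 < r) {ζ : ℂ}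
    (hζ : ‖ζ‖ ≤ r / 32) : dist (ev g (ζ + z')) (ev f (φ (ζ + z'))) ≤ ε :=
  (h.half_folAt hr hζ (ζ + z') (mem_closedBall_self (by linarith))).1

private theorem Bad.half_cont {f g : ι} {R : ℝ} {φ : ℂ → ℂ} {z' z₁ : ℂ} (h : Bad ev r₂ r ε R f g φ z' z₁) (hr : 0 < r) {ζ : ℂ}
    (hζ : ‖ζ‖ ≤ r / 32) : ‖φ (ζ + z') - φ z'‖ ≤ r₂ / 4 := by
  have h0 : ‖(0 : ℂ)‖ ≤ r / 32 := by rw [norm_zero]; linarith
  have h1 := (h.half_folAt hr h0 (ζ + z') (by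
    rw [mem_closedBall, dist_eq_norm]
    simpa using hζ)).2
  rwa [zero_add] at h1

/-- (1) -/
private theorem HLim.fol (h : BFlow S ev Z ρ L c r₂ r₃ κ) (hr : 0 < r) {𝒰 : Ultrafilter ℕ} {f g : ℕ → ι}
    {R : ℕ → ℝ} {φ : ℕ → ℂ → ℂ} {z' z₁ : ℕ → ℂ} {F G : ι} (H : HLim S ev r₂ r ε 𝒰 f g R φ z' z₁ F G) :
    ∃ ψ : ℂ → ℂ, ψ 0 = 0 ∧ FolAt ev r₂ (r / 32) ε F G 0 ψ := by
  have hex : ∀ ζ : ℂ, ∃ b : ℂ, ‖ζ‖ ≤ r / 32 → ‖b‖ ≤ r₂ / 4 ∧ Tendsto (fun n => φ n (ζ + z' n) - φ n (z' n)) 𝒰 (𝓝 b) := by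
    intro ζ
    by_cases hζ : ‖ζ‖ ≤ r / 32
    · obtain ⟨b, hb, hb'⟩ := exists_lim_bdd 𝒰 (b := fun n => φ n (ζ + z' n) - φ n (z' n)) (C := r₂ / 4)
        (H.bad.mono fun n hn => hn.half_cont hr hζ)
      exact ⟨b, fun _ => ⟨hb, hb'⟩⟩
    · exact ⟨0, fun h0 => absurd h0 hζ⟩
  choose ψ hψ using hex
  have h0 : ψ 0 = 0 := by
    have h1 := (hψ 0 (by rw [norm_zero]; linarith)).2
    have h2 : Tendsto (fun n => φ n (0 + z' n) - φ n (z' n)) 𝒰 (𝓝 0) := by simp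
    exact tendsto_nhds_unique h1 h2
  refine ⟨ψ, h0, fun z hz => ?_⟩
  have hz' : ‖z‖ ≤ r / 32 := by simpa using hz
  refine ⟨?_, by rw [h0, sub_zero]; exact (hψ z hz').1⟩
  have h1 := h.tendsto_at 𝒰 (a := fun n => φ n (z' n)) H.hf H.limF (hψ z hz').2
  have h2 : Tendsto (fun n => dist (ev (g n) (z + z' n)) (ev (f n) (φ n (z + z' n) - φ n (z' n) + φ n (z' n)))) 𝒰
      (𝓝 (dist (ev G z) (ev F (ψ z)))) := (H.limG z).dist h1
  refine le_of_tendsto h2 (H.bad.mono fun n hn => ?_)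
  rw [sub_add_cancel]
  exact hn.half_close hr hz'

/-- the decay of `ρ` -/
private theorem HLim.rho_le (h : BFlow S ev Z ρ L c r₂ r₃ κ) (ha : Adm S ev Z ρ L c r₂ r₃ κ r ε B) {𝒰 : Ultrafilter ℕ} {f g : ℕ → ι}
    {R : ℕ → ℝ} {φ : ℕ → ℂ → ℂ} {z' z₁ : ℕ → ℂ} {F G : ι} (H : HLim S ev r₂ r ε 𝒰 f g R φ z' z₁ F G) {ζ : ℂ} (hζ : ‖ζ‖ ≤ r / 32)
    {δ : ℝ} (hδ : 0 < δ) : ∀ᶠ n in (𝒰 : Filter ℕ), ρ (f n) (φ n (ζ + z' n)) (g n) (ζ + z' n) ≤ δ := by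
  have hr : 0 < r := ha.cst.r_pos
  have hκ : 0 < κ := h.κ_pos
  have h1 : Tendsto (fun n => B * Real.exp (-(κ * (r / 8)) * R n + κ * (r ^ 2 / 128))) 𝒰 (𝓝 (B * 0)) := by
    refine Tendsto.const_mul B (Real.tendsto_exp_atBot.comp ?_)
    refine tendsto_atBot_add_const_right _ _ ?_
    exact H.hR.const_mul_atTop_of_neg (by
      have : 0 < κ * (r / 8) := by positivity
      linarith)
  rw [mul_zero] at h1
  filter_upwards [H.hf, H.hg, H.bad, H.hR.eventually_ge_atTop r, h1.eventually (gt_mem_nhds hδ)] with n h2 h3 h4 h5 h6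
  have h7 : ‖ζ + z' n‖ ≤ R n - 3 * (r / 32) := by
    have h8 := norm_add_le ζ (z' n)
    have h9 := h4.norm
    linarith
  have h8 : ζ + z' n ∈ ball (0 : ℂ) (R n) := by
    rw [mem_ball_zero_iff]
    linarith
  refine (ha.decay (f n) h2 (g n) h3 (φ n) (R n) h5 h4.fol _ h8).trans (le_trans ?_ h6.le)
  refine mul_le_mul_of_nonneg_left (Real.exp_le_exp.2 ?_) ha.B_nonneg
  have h9 : ‖ζ + z' n‖ ^ 2 ≤ (R n - 3 * (r / 32)) ^ 2 := pow_le_pow_left₀ (norm_nonneg _) h7 2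
  nlinarith [mul_le_mul_of_nonneg_left h9 hκ.le]

/-- (2) -/
private theorem HLim.mem (h : BFlow S ev Z ρ L c r₂ r₃ κ) (ha : Adm S ev Z ρ L c r₂ r₃ κ r ε B) {𝒰 : Ultrafilter ℕ} {f g : ℕ → ι}
    {R : ℕ → ℝ} {φ : ℕ → ℂ → ℂ} {z' z₁ : ℕ → ℂ} {F G : ι} (H : HLim S ev r₂ r ε 𝒰 f g R φ z' z₁ F G) {ζ : ℂ} (hζ : ‖ζ‖ ≤ r / 32) :
    ev G ζ ∈ Z ∨ ev G ζ ∈ Pl ev r₂ F 0 := by
  have hr : 0 < r := ha.cst.r_pos
  have hr₂ : 0 < r₂ := h.r₂_pos
  have hc : 0 < c := h.c_pos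
  have hcr : 0 < c * r₂ := mul_pos hc hr₂
  have hε := ha.cst.hε
  have hor : ∀ η : ℝ, 0 < η → (∀ᶠ n in (𝒰 : Filter ℕ), ∃ y ∈ Z, dist (ev (g n) (ζ + z' n)) y ≤ η) ∨
      ∀ᶠ n in (𝒰 : Filter ℕ), ∃ w ∈ closedBall (φ n (ζ + z' n)) r₂, dist (ev (g n) (ζ + z' n)) (ev (f n) w) ≤ η := by
    intro η hη
    obtain ⟨δ, hδ, hδ'⟩ := ha.small η hη
    refine Ultrafilter.eventually_or.1 ?_
    filter_upwards [H.hf, H.hg, H.bad, H.rho_le h ha hζ hδ] with n h2 h3 h4 h5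
    exact hδ' (f n) h2 (g n) h3 _ _ (h4.half_folAt hr hζ) h5
  by_cases hA : ∀ η : ℝ, 0 < η → ∀ᶠ n in (𝒰 : Filter ℕ), ∃ y ∈ Z, dist (ev (g n) (ζ + z' n)) y ≤ η
  · left
    rw [← h.closed.closure_eq, Metric.mem_closure_iff]
    intro η hη
    obtain ⟨n, ⟨y, hy, hy'⟩, hn⟩ := ((hA (η / 3) (by linarith)).and
      ((H.limG ζ).eventually (Metric.ball_mem_nhds (ev G ζ) (show 0 < η / 3 by linarith)))).exists
    refine ⟨y, hy, ?_⟩
    have h1 := dist_triangle_left (ev G ζ) y (ev (g n) (ζ + z' n))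
    linarith
  · right
    obtain ⟨η₀, hη₀'⟩ := not_forall.1 hA
    obtain ⟨hη₀, hA'⟩ := Classical.not_imp.1 hη₀'
    have hB : ∀ η : ℝ, 0 < η → η ≤ η₀ → ∀ᶠ n in (𝒰 : Filter ℕ), ∃ w ∈ closedBall (φ n (ζ + z' n)) r₂,
        dist (ev (g n) (ζ + z' n)) (ev (f n) w) ≤ η := by
      intro η hη hle
      refine (hor η hη).resolve_left fun hcon => hA' (hcon.mono fun n hn => ?_)
      obtain ⟨y, hy, hy'⟩ := hn
      exact ⟨y, hy, hy'.trans hle⟩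
    have hcomp : IsCompact (Pl ev r₂ F 0) := (isCompact_closedBall (0 : ℂ) r₂).image (h.continuous H.hF)
    rw [← hcomp.isClosed.closure_eq, Metric.mem_closure_iff]
    intro η hη
    set η₁ : ℝ := min (η / 2) (min η₀ (c * r₂ / 64)) with hη₁
    have h1 : 0 < η₁ := lt_min (by linarith) (lt_min hη₀ (by linarith))
    have h2 : η₁ ≤ η / 2 := min_le_left _ _
    have h3 : η₁ ≤ η₀ := (min_le_right _ _).trans (min_le_left _ _)
    have h4 : η₁ ≤ c * r₂ / 64 := (min_le_right _ _).trans (min_le_right _ _)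
    obtain ⟨w, hw⟩ := Filter.skolem.1 (hB η₁ h1 h3)
    have h5 : ∀ᶠ n in (𝒰 : Filter ℕ), ‖w n - φ n (z' n)‖ ≤ r₂ := by
      filter_upwards [H.hf, H.bad, hw] with n h6 h7 h8
      obtain ⟨h9, h10⟩ := h8
      rw [mem_closedBall, dist_eq_norm] at h9
      have h11 := h.emb (f n) h6 (w n) (φ n (ζ + z' n)) (by linarith)
      have h12 := h7.half_close hr hζ
      have h13 := dist_triangle_left (ev (f n) (w n)) (ev (f n) (φ n (ζ + z' n))) (ev (g n) (ζ + z' n))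
      have h14 : c * ‖w n - φ n (ζ + z' n)‖ ≤ c * (r₂ / 32) := by linarith
      have h15 : ‖w n - φ n (ζ + z' n)‖ ≤ r₂ / 32 := le_of_mul_le_mul_left h14 hc
      have h16 := h7.half_cont hr hζ
      have h17 := norm_add_le (w n - φ n (ζ + z' n)) (φ n (ζ + z' n) - φ n (z' n))
      rw [sub_add_sub_cancel] at h17
      linarith
    obtain ⟨w₀, hw₀, hlim⟩ := exists_lim_bdd 𝒰 h5
    have h6 := h.tendsto_at 𝒰 (a := fun n => φ n (z' n)) H.hf H.limF hlim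
    have h7 : Tendsto (fun n => dist (ev (g n) (ζ + z' n)) (ev (f n) (w n - φ n (z' n) + φ n (z' n)))) 𝒰
        (𝓝 (dist (ev G ζ) (ev F w₀))) := (H.limG ζ).dist h6
    have h8 : dist (ev G ζ) (ev F w₀) ≤ η₁ := by
      refine le_of_tendsto h7 (hw.mono fun n hn => ?_)
      rw [sub_add_cancel]
      exact hn.2
    exact ⟨ev F w₀, ⟨w₀, by simpa using hw₀, rfl⟩, by linarith⟩

/-- (3) -/
private theorem HLim.far (h : BFlow S ev Z ρ L c r₂ r₃ κ) (ha : Adm S ev Z ρ L c r₂ r₃ κ r ε B) {𝒰 : Ultrafilter ℕ} {f g : ℕ → ι}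
    {R : ℕ → ℝ} {φ : ℕ → ℂ → ℂ} {z' z₁ : ℕ → ℂ} {F G : ι} (H : HLim S ev r₂ r ε 𝒰 f g R φ z' z₁ F G) :
    ∃ a ∈ closedBall (0 : ℂ) r₃, ev G a ∉ Pl ev r₂ F 0 := by
  have hr : 0 < r := ha.cst.r_pos
  obtain ⟨a, ha1, hlim⟩ := exists_lim_bdd 𝒰 (b := fun n => z₁ n - z' n) (C := r / 4) (H.bad.mono fun n hn => hn.dist_le)
  have hle := ha.cst.r_le₃
  refine ⟨a, by rw [mem_closedBall_zero_iff]; linarith, ?_⟩
  rintro ⟨w, hw, hwa⟩
  have h1 := h.tendsto_at 𝒰 (a := z') H.hg H.limG hlim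
  have h2 : Tendsto (fun n => dist (ev (g n) (z₁ n - z' n + z' n)) (ev (f n) (w + φ n (z' n)))) 𝒰
      (𝓝 (dist (ev G a) (ev F w))) := h1.dist (H.limF w)
  have h3 : ε ≤ dist (ev G a) (ev F w) := by
    refine ge_of_tendsto h2 (H.bad.mono fun n hn => ?_)
    rw [sub_add_cancel]
    refine (hn.far (w + φ n (z' n)) ?_).le
    rw [mem_closedBall, dist_eq_norm, add_sub_cancel_right]
    simpa using hw
  rw [hwa, dist_self] at h3
  have := ha.cst.ε_pos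
  linarith

theorem Adm.half (h : BFlow S ev Z ρ L c r₂ r₃ κ) (ha : Adm S ev Z ρ L c r₂ r₃ κ r ε B) (𝒰 : Ultrafilter ℕ)
    (h𝒰 : (𝒰 : Filter ℕ) ≤ atTop) {f g : ℕ → ι} {R : ℕ → ℝ} {φ : ℕ → ℂ → ℂ} {z' z₁ : ℕ → ℂ} (hR : Tendsto R 𝒰 atTop)
    (hf : ∀ᶠ n in (𝒰 : Filter ℕ), f n ∈ S) (hg : ∀ᶠ n in (𝒰 : Filter ℕ), g n ∈ S)
    (hbad : ∀ᶠ n in (𝒰 : Filter ℕ), Bad ev r₂ r ε (R n) (f n) (g n) (φ n) (z' n) (z₁ n)) :
    ∃ F ∈ S, ∃ G ∈ S, (∀ z, Tendsto (fun n => ev (f n) (z + φ n (z' n))) 𝒰 (𝓝 (ev F z))) ∧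
      (∀ z, Tendsto (fun n => ev (g n) (z + z' n)) 𝒰 (𝓝 (ev G z))) ∧ (∀ z, ev G z ∈ Z) ∧ ¬ ∀ z, ev F z ∈ Z := by
  classical
  obtain ⟨F, hF, limF⟩ := h.lim_trans 𝒰 h𝒰 f (fun n => φ n (z' n)) hf
  obtain ⟨G, hG, limG⟩ := h.lim_trans 𝒰 h𝒰 g z' hg
  have H : HLim S ev r₂ r ε 𝒰 f g R φ z' z₁ F G := ⟨hF, hG, hR, hf, hg, hbad, limF, limG⟩
  have hr : 0 < r := ha.cst.r_pos
  obtain ⟨ψ, hψ0, hψ⟩ := H.fol h hr
  obtain ⟨a, ha1, hfar⟩ := H.far h ha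
  have hGZ : ∀ z, ev G z ∈ Z := by
    refine (h.dense G hG).resolve_right fun hd => hfar ?_
    have h0 : dist (ev G 0) (ev F 0) ≤ ε := by
      have h1 := (hψ 0 (mem_closedBall_self (by linarith))).1
      rwa [hψ0] at h1
    have h1 : ∀ᶠ z in 𝓝[≠] (0 : ℂ), ev G z ∈ Pl ev r₂ F 0 := by
      have h2 : ∀ᶠ z in 𝓝[≠] (0 : ℂ), z ∈ closedBall (0 : ℂ) (r / 32) :=
        nhdsWithin_le_nhds (closedBall_mem_nhds _ (by linarith))
      filter_upwards [hd 0, h2] with z h3 h4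
      exact (H.mem h ha (by simpa using h4)).resolve_left h3
    exact ha.ident F hF G hG 0 0 h0 0 (mem_closedBall_self h.r₃_pos.le) h1.frequently a ha1
  refine ⟨F, hF, G, hG, limF, limG, hGZ, fun hFZ => hfar ?_⟩
  have h1 := ha.iso F hF G hG hFZ hGZ 0 ψ hψ a ha1
  rwa [hψ0] at h1

end Pool.Agent.H5.BD

end

section

/-!
# BD AInf: `g` follows `f` everywhere

Let `R k ≥ k` and `φ k` be as in the hypothesis.  For fixed `z` and `k > ‖z‖`: `‖φ k z‖ ≤ (‖z‖ / r + 1) (r₂ / 4)` (go from `0` to `z` in steps of length `≤ r`; `φ k 0 = 0`).  Let `φ z` be the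
limit of `φ k z` along `hyperfilter ℕ` (`exists_lim_bdd`).  Then (`lip` for `f`) `dist (ev g z) (ev f (φ z)) ≤ ε` for all `z`, `‖φ z - φ z'‖ ≤ r₂ / 4` if `‖z - z'‖ ≤ r`, `φ 0 = 0`: so
`Fol ev r₂ r ε R f g φ` for all `R`.  `decay` for fixed `z` and `R → ∞` gives `ρ f (φ z) g z ≤ 0`.  Let `s = r / 32`; `FolAt ev r₂ s ε f g z φ` holds for all `z` (`Fol.folAt`).
By `small` (for all `η > 0`): for every `z`, `ev g z ∈ Z` (closed) or `ev g z` is in the plaque `Pl ev r₂ f (φ z)` (compact).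
Claim: `ev g z₀ ∈ Pl ev r₂ f (φ z₀)` for all `z₀`.
* If not all `ev g z` are in `Z`: by `dense` `ev g z ∉ Z` for `z ≠ z₀` near `z₀`, so `ev g z = ev f w` with `w ∈ closedBall (φ z) r₂`; by `emb`
  `c ‖w - φ z‖ ≤ dist (ev f w) (ev f (φ z)) ≤ ε ≤ c r₂ / 64` and `‖φ z - φ z₀‖ ≤ r₂ / 4`, so `w ∈ closedBall (φ z₀) r₂`.  `ident` (`w₀ = φ z₀`, `z₁ = z₀`).
* If all `ev g z` are in `Z` then by `hZ` all `ev f z` are in `Z`: `iso`.
Let `ψ z ∈ closedBall (φ z) r₂` with `ev g z = ev f (ψ z)`; as above `‖ψ z - φ z‖ ≤ r₂ / 64`.  So `‖ψ z - ψ z'‖ ≤ r₂ / 64 + r₂ / 4 + r₂ / 64 ≤ r₂` if `‖z - z'‖ ≤ r`; and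
`‖ψ 0‖ ≤ ‖φ 0‖ + r₂ / 64 ≤ r₂`.
-/

set_option autoImplicit false

open Topology Filter Metric

namespace Pool.Agent.H5.BD

attribute [-instance] ProperSMul.toContinuousSMul

variable {Y ι : Type} [MetricSpace Y] {S : Set ι} {ev : ι → ℂ → Y} {Z : Set Y} {ρ : ι → ℂ → ι → ℂ → ℝ} {L c r₂ r₃ κ r ε B : ℝ}

/-- the parameter of a point at distance at most `n * r` from `0` has norm at most `n * (r₂ / 4)` -/
private theorem norm_le_of_fol {f g : ι} {φ : ℂ → ℂ} {R : ℝ} (hr : 0 < r) (h : Fol ev r₂ r ε R f g φ) (n : ℕ) :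
    ∀ z ∈ ball (0 : ℂ) R, ‖z‖ ≤ n * r → ‖φ z‖ ≤ n * (r₂ / 4) := by
  induction n with
  | zero =>
    intro z _ hz
    have h0 : z = 0 := by
      have : ‖z‖ ≤ 0 := by simpa using hz
      exact norm_le_zero_iff.mp this
    subst h0
    rw [h.zero]
    simp
  | succ n ih =>
    intro z hzR hz
    have hn : (0 : ℝ) < (n : ℝ) + 1 := by positivity
    push_cast at hz ⊢
    set t : ℝ := (n : ℝ) / ((n : ℝ) + 1) with ht
    have ht0 : 0 ≤ t := by positivity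
    have ht1 : t ≤ 1 := by
      rw [ht, div_le_one hn]
      linarith
    have hnt : ‖((t : ℂ) * z)‖ = t * ‖z‖ := by
      rw [norm_mul, Complex.norm_real, Real.norm_eq_abs, abs_of_nonneg ht0]
    have hz'R : ((t : ℂ) * z) ∈ ball (0 : ℂ) R := by
      rw [mem_ball_zero_iff] at hzR ⊢
      rw [hnt]
      have : t * ‖z‖ ≤ 1 * ‖z‖ := mul_le_mul_of_nonneg_right ht1 (norm_nonneg _)
      linarith
    have h1 : ‖((t : ℂ) * z)‖ ≤ n * r := by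
      rw [hnt]
      calc t * ‖z‖ ≤ t * (((n : ℝ) + 1) * r) := mul_le_mul_of_nonneg_left hz ht0
        _ = n * r := by rw [ht]; field_simp
    have h2 : ‖z - (t : ℂ) * z‖ ≤ r := by
      have e1 : z - (t : ℂ) * z = ((1 - t : ℝ) : ℂ) * z := by push_cast; ring
      rw [e1, norm_mul, Complex.norm_real, Real.norm_eq_abs, abs_of_nonneg (by linarith)]
      have e2 : 1 - t = 1 / ((n : ℝ) + 1) := by rw [ht]; field_simp; ring
      rw [e2, one_div, inv_mul_le_iff₀ hn]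
      linarith
    have h3 := h.cont z hzR _ hz'R h2
    have h4 := ih _ hz'R h1
    have h5 : ‖φ z‖ ≤ ‖φ z - φ ((t : ℂ) * z)‖ + ‖φ ((t : ℂ) * z)‖ := by
      simpa using norm_add_le (φ z - φ ((t : ℂ) * z)) (φ ((t : ℂ) * z))
    linarith

/-- limits of the parameters along an ultrafilter -/
private theorem exists_phi (h : BFlow S ev Z ρ L c r₂ r₃ κ) (hr : 0 < r) {f g : ι} (hf : f ∈ S)
    (hall : ∀ k : ℕ, ∃ (R : ℝ) (φ : ℂ → ℂ), (k : ℝ) ≤ R ∧ Fol ev r₂ r ε R f g φ) :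
    ∃ φ : ℂ → ℂ, (∀ z, dist (ev g z) (ev f (φ z)) ≤ ε) ∧ (∀ z z', ‖z - z'‖ ≤ r → ‖φ z - φ z'‖ ≤ r₂ / 4) ∧ φ 0 = 0 := by
  choose R φ hR hFol using hall
  have hU : ((hyperfilter ℕ : Ultrafilter ℕ) : Filter ℕ) ≤ atTop := by
    rw [← Nat.cofinite_eq_atTop]
    exact hyperfilter_le_cofinite
  have hev : ∀ z : ℂ, ∀ᶠ k in ((hyperfilter ℕ : Ultrafilter ℕ) : Filter ℕ), z ∈ ball (0 : ℂ) (R k) := by
    intro z
    have : ∀ᶠ k : ℕ in atTop, ‖z‖ < (k : ℝ) := (tendsto_natCast_atTop_atTop (R := ℝ)).eventually_gt_atTop ‖z‖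
    filter_upwards [hU this] with k hk
    rw [mem_ball_zero_iff]
    exact lt_of_lt_of_le hk (hR k)
  have hlim : ∀ z : ℂ, ∃ b₀ : ℂ, Tendsto (fun k => φ k z) ((hyperfilter ℕ : Ultrafilter ℕ) : Filter ℕ) (𝓝 b₀) := by
    intro z
    obtain ⟨b₀, _, hb⟩ := exists_lim_bdd (hyperfilter ℕ) (b := fun k => φ k z) (C := (⌈‖z‖ / r⌉₊ : ℝ) * (r₂ / 4)) (by
      filter_upwards [hev z] with k hk
      refine norm_le_of_fol hr (hFol k) _ z hk ?_
      rw [← div_le_iff₀ hr]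
      exact Nat.le_ceil _)
    exact ⟨b₀, hb⟩
  choose ψ hψ using hlim
  refine ⟨ψ, ?_, ?_, ?_⟩
  · intro z
    have h1 : Tendsto (fun k => dist (ev g z) (ev f (φ k z))) ((hyperfilter ℕ : Ultrafilter ℕ) : Filter ℕ) (𝓝 (dist (ev g z) (ev f (ψ z)))) :=
      tendsto_const_nhds.dist (((h.continuous hf).tendsto _).comp (hψ z))
    refine le_of_tendsto h1 ?_
    filter_upwards [hev z] with k hk
    exact (hFol k).close z hk
  · intro z z' hzz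
    have h1 : Tendsto (fun k => ‖φ k z - φ k z'‖) ((hyperfilter ℕ : Ultrafilter ℕ) : Filter ℕ) (𝓝 ‖ψ z - ψ z'‖) :=
      ((hψ z).sub (hψ z')).norm
    refine le_of_tendsto h1 ?_
    filter_upwards [hev z, hev z'] with k hk hk'
    exact (hFol k).cont z hk z' hk' hzz
  · have h1 : Tendsto (fun k => φ k 0) ((hyperfilter ℕ : Ultrafilter ℕ) : Filter ℕ) (𝓝 0) := by
      have : (fun k => φ k 0) = fun _ => (0 : ℂ) := by
        funext k
        exact (hFol k).zero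
      rw [this]
      exact tendsto_const_nhds
    exact tendsto_nhds_unique (hψ 0) h1

private theorem exp_tendsto {B κ r a : ℝ} (hκ : 0 < κ) :
    Tendsto (fun R : ℝ => B * Real.exp (-κ * ((R - r / 32) ^ 2 - a ^ 2))) atTop (𝓝 0) := by
  have h1 : Tendsto (fun R : ℝ => R - r / 32) atTop atTop := tendsto_atTop_add_const_right _ _ tendsto_id
  have h2 : Tendsto (fun R : ℝ => (R - r / 32) ^ 2) atTop atTop := (tendsto_pow_atTop (two_ne_zero)).comp h1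
  have h3 : Tendsto (fun R : ℝ => (R - r / 32) ^ 2 - a ^ 2) atTop atTop := tendsto_atTop_add_const_right _ _ h2
  have h4 : Tendsto (fun R : ℝ => -κ * ((R - r / 32) ^ 2 - a ^ 2)) atTop atBot :=
    h3.const_mul_atTop_of_neg (by linarith)
  have h5 := (Real.tendsto_exp_atBot.comp h4).const_mul B
  simpa using h5

theorem Adm.rel_of_all (h : BFlow S ev Z ρ L c r₂ r₃ κ) (ha : Adm S ev Z ρ L c r₂ r₃ κ r ε B) {f g : ι} (hf : f ∈ S) (hg : g ∈ S)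
    (hall : ∀ k : ℕ, ∃ (R : ℝ) (φ : ℂ → ℂ), (k : ℝ) ≤ R ∧ Fol ev r₂ r ε R f g φ)
    (hZ : (∀ z, ev g z ∈ Z) → ∀ z, ev f z ∈ Z) : Rel ev r₂ r f g := by
  have hr : 0 < r := ha.cst.r_pos
  have hr₂ : 0 < r₂ := h.r₂_pos
  have hr₃ : 0 < r₃ := h.r₃_pos
  have hc : 0 < c := h.c_pos
  obtain ⟨φ, hclose, hcont, hzero⟩ := exists_phi h hr hf hall
  have hFol : ∀ R : ℝ, Fol ev r₂ r ε R f g φ := fun R =>
    ⟨fun z _ => hclose z, fun z _ z' _ hz => hcont z z' hz, hzero⟩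
  have hFolAt : ∀ z : ℂ, FolAt ev r₂ (r / 32) ε f g z φ := fun z =>
    (hFol (‖z‖ + r / 32 + 1)).folAt (by linarith) (by linarith) (by linarith) le_rfl
  have hρ : ∀ z, ρ f (φ z) g z ≤ 0 := by
    intro z
    refine ge_of_tendsto (exp_tendsto (B := B) (κ := κ) (r := r) (a := ‖z‖) h.κ_pos) ?_
    filter_upwards [eventually_ge_atTop r, eventually_gt_atTop ‖z‖] with R h1 h2
    exact ha.decay f hf g hg φ R h1 (hFol R) z (by rwa [mem_ball_zero_iff])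
  -- `g` is on the plaque of `f` or in `Z`
  have hor : ∀ z, ev g z ∈ Z ∨ ev g z ∈ Pl ev r₂ f (φ z) := by
    intro z
    by_contra hcon
    rw [not_or] at hcon
    obtain ⟨hn1, hn2⟩ := hcon
    have hcl : IsClosed (Pl ev r₂ f (φ z)) :=
      ((isCompact_closedBall (φ z) r₂).image (h.continuous hf)).isClosed
    obtain ⟨η₁, hη₁, hb₁⟩ := Metric.isOpen_iff.mp h.closed.isOpen_compl _ hn1
    obtain ⟨η₂, hη₂, hb₂⟩ := Metric.isOpen_iff.mp hcl.isOpen_compl _ hn2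
    have hη : 0 < min η₁ η₂ / 2 := by positivity
    obtain ⟨δ, hδ, hsm⟩ := ha.small (min η₁ η₂ / 2) hη
    have hlt₁ : min η₁ η₂ / 2 < η₁ := by
      have := min_le_left η₁ η₂
      linarith
    have hlt₂ : min η₁ η₂ / 2 < η₂ := by
      have := min_le_right η₁ η₂
      linarith
    rcases hsm f hf g hg z φ (hFolAt z) ((hρ z).trans hδ.le) with ⟨y, hy, hd⟩ | ⟨w, hw, hd⟩
    · exact hb₁ (show y ∈ ball (ev g z) η₁ by
        rw [mem_ball, dist_comm]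
        exact lt_of_le_of_lt hd hlt₁) hy
    · exact hb₂ (show ev f w ∈ ball (ev g z) η₂ by
        rw [mem_ball, dist_comm]
        exact lt_of_le_of_lt hd hlt₂) ⟨w, hw, rfl⟩
  -- points of the plaque are near the centre
  have hnear : ∀ z w, w ∈ closedBall (φ z) r₂ → ev f w = ev g z → ‖w - φ z‖ ≤ r₂ / 64 := by
    intro z w hw hwe
    rw [mem_closedBall, dist_eq_norm] at hw
    have h1 := h.emb f hf w (φ z) (by linarith)
    rw [hwe] at h1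
    have h2 := ha.cst.hε
    have h3 : c * ‖w - φ z‖ ≤ c * (r₂ / 64) := by
      have := h1.trans (hclose z)
      linarith
    exact le_of_mul_le_mul_left h3 hc
  have hclaim : ∀ z₀, ev g z₀ ∈ Pl ev r₂ f (φ z₀) := by
    intro z₀
    rcases h.dense g hg with hZg | hd
    · exact ha.iso f hf g hg (hZ hZg) hZg z₀ φ (hFolAt z₀) z₀ (mem_closedBall_self hr₃.le)
    · refine ha.ident f hf g hg z₀ (φ z₀) (hclose z₀) z₀ (mem_closedBall_self hr₃.le) ?_ z₀ (mem_closedBall_self hr₃.le)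
      have hev : ∀ᶠ z in 𝓝[≠] z₀, ev g z ∈ Pl ev r₂ f (φ z₀) := by
        have hball : ∀ᶠ z in 𝓝[≠] z₀, z ∈ closedBall z₀ r :=
          nhdsWithin_le_nhds (closedBall_mem_nhds z₀ hr)
        filter_upwards [hd z₀, hball] with z hz hzr
        rcases hor z with h1 | h1
        · exact absurd h1 hz
        · obtain ⟨w, hw, hwe⟩ := h1
          refine ⟨w, ?_, hwe⟩
          have h2 := hnear z w hw hwe
          rw [mem_closedBall, dist_eq_norm] at hzr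
          have h3 := hcont z z₀ hzr
          rw [mem_closedBall, dist_eq_norm]
          have h4 : ‖w - φ z₀‖ ≤ ‖w - φ z‖ + ‖φ z - φ z₀‖ := by
            simpa using norm_add_le (w - φ z) (φ z - φ z₀)
          linarith
      exact hev.frequently
  choose ψ hψ₁ hψ₂ using hclaim
  have hψ₃ : ∀ z, ‖ψ z - φ z‖ ≤ r₂ / 64 := fun z => hnear z (ψ z) (hψ₁ z) (hψ₂ z)
  refine ⟨ψ, fun z => (hψ₂ z).symm, ?_, ?_⟩
  · intro z z' hzz
    have h1 := hcont z z' hzz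
    have h2 := hψ₃ z
    have h3 := hψ₃ z'
    have h4 : ψ z - ψ z' = (ψ z - φ z) + (φ z - φ z') - (ψ z' - φ z') := by ring
    have h5 : ‖(ψ z - φ z) + (φ z - φ z') - (ψ z' - φ z')‖ ≤ ‖(ψ z - φ z) + (φ z - φ z')‖ + ‖ψ z' - φ z'‖ := norm_sub_le _ _
    have h6 : ‖(ψ z - φ z) + (φ z - φ z')‖ ≤ ‖ψ z - φ z‖ + ‖φ z - φ z'‖ := norm_add_le _ _
    rw [h4]
    linarith
  · have h1 := hψ₃ 0
    rw [hzero, sub_zero] at h1
    linarith

end Pool.Agent.H5.BD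

end

section

/-!
# BD AFin: two curves which are close on a large disc are the same up to a change of the variable

`claimE`.  Otherwise for every `n` there are `E n ∈ S` (in `Z`), `g n ∈ S` with `dist (ev (E n) z) (ev (g n) z) ≤ 1 / (n + 1)` on `closedBall 0 n`, not `Rel (E n) (g n)`.  For `n` with
`1 / (n + 1) ≤ ε`, `r ≤ n`: `fol_id` and `exists_bad` (with `R₀ = n`).  The first alternative is impossible by `rel_of_all` (`E n` is in `Z`).  So there are `R n ≥ n`, `φ n`, `z' n`, `z₁ n` as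
in `Bad`; `half` (`𝒰 = hyperfilter ℕ`) gives `F`, a limit of translates of the `E n`, not in `Z`: contradiction (`Z` is closed).

`main`.  Let `n₀, ε₂` be as in `claimE`.  Otherwise for every `n` there are `f n, g n ∈ S`, `dist ≤ 1 / (n + 1)` on `closedBall 0 n`, neither `Rel (f n) (g n)` nor `Rel (g n) (f n)`.
For large `n` not all `ev (g n) z` are in `Z`: otherwise `claimE` (with `E = g n`, `g = f n`, `dist_comm`) gives `Rel (g n) (f n)`.  As before `exists_bad`: the first alternative is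
impossible by `rel_of_all` (`hZ` holds because `g n` is not in `Z`), so `half` applies: `G ∈ S` is a limit of `ev (g n) (z + z' n)`, and in `Z`.  For almost all `n` (`unif`)
`dist (ev (g n) (z + z' n)) (ev G z) ≤ ε₂` on `closedBall 0 n₀`; with `g' ∈ S`, `ev g' z = ev (g n) (z + z' n)` (`trans`), `claimE` gives `Rel G g'`, so all `ev g' z` are in `Z`,
so all `ev (g n) z` are in `Z`: contradiction.
-/

set_option autoImplicit false

open Topology Filter Metric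

namespace Pool.Agent.H5.BD

attribute [-instance] ProperSMul.toContinuousSMul

variable {Y ι : Type} [MetricSpace Y] {S : Set ι} {ev : ι → ℂ → Y} {Z : Set Y} {ρ : ι → ℂ → ι → ℂ → ℝ} {L c r₂ r₃ κ r ε B : ℝ}

/-- a following function on a large disc which cannot be extended -/
theorem afin_bad (h : BFlow S ev Z ρ L c r₂ r₃ κ) (ha : Adm S ev Z ρ L c r₂ r₃ κ r ε B) {f g : ι} (hf : f ∈ S) (hg : g ∈ S) {n : ℕ} (hn : r ≤ n)
    (hd : ∀ z ∈ closedBall (0 : ℂ) n, dist (ev f z) (ev g z) ≤ ε) (hZ : (∀ z, ev g z ∈ Z) → ∀ z, ev f z ∈ Z) (hnot : ¬ Rel ev r₂ r f g) :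
    ∃ (R : ℝ) (φ : ℂ → ℂ) (z' z₁ : ℂ), (n : ℝ) ≤ R ∧ Bad ev r₂ r ε R f g φ z' z₁ := by
  rcases exists_bad h ha.cst hf hg hn ⟨id, fol_id ha.cst hd⟩ with h1 | h1
  · exact absurd (ha.rel_of_all h hf hg h1 hZ) hnot
  · exact h1

theorem afin_tendsto {R : ℕ → ℝ} {N : ℕ} (hR : ∀ n, N ≤ n → (n : ℝ) ≤ R n) : Tendsto R (hyperfilter ℕ : Filter ℕ) atTop := by
  have h1 : Tendsto R atTop atTop := by
    refine tendsto_atTop_mono' atTop ?_ tendsto_natCast_atTop_atTop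
    filter_upwards [eventually_ge_atTop N] with n hn
    exact hR n hn
  exact h1.mono_left Nat.hyperfilter_le_atTop

/-- a large number -/
theorem afin_large (a : ℝ) {e : ℝ} (he : 0 < e) : ∃ N : ℕ, ∀ n : ℕ, N ≤ n → a ≤ n ∧ 1 / ((n : ℝ) + 1) ≤ e := by
  obtain ⟨N₁, h₁⟩ := exists_nat_ge a
  obtain ⟨N₂, h₂⟩ := exists_nat_one_div_lt he
  refine ⟨N₁ + N₂, fun n hn => ⟨?_, ?_⟩⟩
  · have : (N₁ : ℝ) ≤ n := by exact_mod_cast (by omega : N₁ ≤ n)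
    linarith
  · have h3 : (N₂ : ℝ) ≤ n := by exact_mod_cast (by omega : N₂ ≤ n)
    refine le_trans ?_ h₂.le
    apply one_div_le_one_div_of_le
    · positivity
    · linarith

theorem Adm.claimE (h : BFlow S ev Z ρ L c r₂ r₃ κ) (ha : Adm S ev Z ρ L c r₂ r₃ κ r ε B) :
    ∃ n₀ ε₂ : ℝ, 0 < ε₂ ∧ ∀ E ∈ S, (∀ z, ev E z ∈ Z) → ∀ g ∈ S, (∀ z ∈ closedBall (0 : ℂ) n₀, dist (ev E z) (ev g z) ≤ ε₂) →
      Rel ev r₂ r E g := by
  by_contra hcon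
  have key : ∀ n : ℕ, ∃ E g : ι, E ∈ S ∧ (∀ z, ev E z ∈ Z) ∧ g ∈ S ∧
      (∀ z ∈ closedBall (0 : ℂ) n, dist (ev E z) (ev g z) ≤ 1 / ((n : ℝ) + 1)) ∧ ¬ Rel ev r₂ r E g := by
    intro n
    by_contra h1
    apply hcon
    refine ⟨n, 1 / ((n : ℝ) + 1), by positivity, fun E hE hEZ g hg hd => ?_⟩
    by_contra h2
    exact h1 ⟨E, g, hE, hEZ, hg, hd, h2⟩
  choose E g hE hEZ hg hd hnot using key
  obtain ⟨N, hN⟩ := afin_large r ha.cst.ε_pos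
  have hbad : ∀ n : ℕ, ∃ (R : ℝ) (φ : ℂ → ℂ) (z' z₁ : ℂ), N ≤ n → ((n : ℝ) ≤ R ∧ Bad ev r₂ r ε R (E n) (g n) φ z' z₁) := by
    intro n
    by_cases hn : N ≤ n
    · obtain ⟨R, φ, z', z₁, h1, h2⟩ := afin_bad h ha (hE n) (hg n) (hN n hn).1 (fun z hz => (hd n z hz).trans (hN n hn).2)
        (fun _ => hEZ n) (hnot n)
      exact ⟨R, φ, z', z₁, fun _ => ⟨h1, h2⟩⟩
    · exact ⟨0, id, 0, 0, fun h1 => absurd h1 hn⟩
  choose R φ z' z₁ hb using hbad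
  have hev : ∀ᶠ n in (hyperfilter ℕ : Filter ℕ), N ≤ n := Nat.hyperfilter_le_atTop (eventually_ge_atTop N)
  obtain ⟨F, _, G, _, hF, _, _, hnF⟩ := ha.half h (hyperfilter ℕ) Nat.hyperfilter_le_atTop (afin_tendsto fun n hn => (hb n hn).1)
    (Eventually.of_forall hE) (Eventually.of_forall hg) (hev.mono fun n hn => (hb n hn).2)
  exact hnF fun z => h.closed.mem_of_tendsto (hF z) (Eventually.of_forall fun n => hEZ n _)

theorem BFlow.main (h : BFlow S ev Z ρ L c r₂ r₃ κ) :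
    ∃ n₁ ε₁ r : ℝ, 0 < ε₁ ∧ 0 < r ∧ ∀ f ∈ S, ∀ g ∈ S, (∀ z ∈ closedBall (0 : ℂ) n₁, dist (ev f z) (ev g z) ≤ ε₁) →
      Rel ev r₂ r f g ∨ Rel ev r₂ r g f := by
  obtain ⟨r, ε, B, ha⟩ := h.exists_adm
  obtain ⟨n₀, ε₂, hε₂, hclaim⟩ := ha.claimE h
  by_contra hcon
  have key : ∀ n : ℕ, ∃ f g : ι, f ∈ S ∧ g ∈ S ∧
      (∀ z ∈ closedBall (0 : ℂ) n, dist (ev f z) (ev g z) ≤ 1 / ((n : ℝ) + 1)) ∧ ¬ (Rel ev r₂ r f g ∨ Rel ev r₂ r g f) := by
    intro n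
    by_contra h1
    apply hcon
    refine ⟨n, 1 / ((n : ℝ) + 1), r, by positivity, ha.cst.r_pos, fun f hf g hg hd => ?_⟩
    by_contra h2
    exact h1 ⟨f, g, hf, hg, hd, h2⟩
  choose f g hf hg hd hnot using key
  obtain ⟨N, hN⟩ := afin_large (max r n₀) (lt_min ha.cst.ε_pos hε₂)
  have hgZ : ∀ n, N ≤ n → ¬ ∀ z, ev (g n) z ∈ Z := by
    intro n hn hall
    apply hnot n
    right
    refine hclaim (g n) (hg n) hall (f n) (hf n) fun z hz => ?_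
    rw [dist_comm]
    refine (hd n z ?_).trans ((hN n hn).2.trans (min_le_right _ _))
    exact closedBall_subset_closedBall ((le_max_right _ _).trans (hN n hn).1) hz
  have hbad : ∀ n : ℕ, ∃ (R : ℝ) (φ : ℂ → ℂ) (z' z₁ : ℂ), N ≤ n → ((n : ℝ) ≤ R ∧ Bad ev r₂ r ε R (f n) (g n) φ z' z₁) := by
    intro n
    by_cases hn : N ≤ n
    · obtain ⟨R, φ, z', z₁, h1, h2⟩ := afin_bad h ha (hf n) (hg n) ((le_max_left _ _).trans (hN n hn).1)
        (fun z hz => (hd n z hz).trans ((hN n hn).2.trans (min_le_left _ _))) (fun h1 => absurd h1 (hgZ n hn))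
        (fun h1 => hnot n (Or.inl h1))
      exact ⟨R, φ, z', z₁, fun _ => ⟨h1, h2⟩⟩
    · exact ⟨0, id, 0, 0, fun h1 => absurd h1 hn⟩
  choose R φ z' z₁ hb using hbad
  have hev : ∀ᶠ n in (hyperfilter ℕ : Filter ℕ), N ≤ n := Nat.hyperfilter_le_atTop (eventually_ge_atTop N)
  obtain ⟨F, _, G, hG, _, hlim, hGZ, _⟩ := ha.half h (hyperfilter ℕ) Nat.hyperfilter_le_atTop (afin_tendsto fun n hn => (hb n hn).1)
    (Eventually.of_forall hf) (Eventually.of_forall hg) (hev.mono fun n hn => (hb n hn).2)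
  have hu := h.unif (hyperfilter ℕ) (Eventually.of_forall hg) hG hlim n₀ hε₂
  obtain ⟨n, hn, hun⟩ := (hev.and hu).exists
  obtain ⟨g', hg', hgt⟩ := h.trans (g n) (hg n) (z' n)
  obtain ⟨ψ, hψ, _, _⟩ := hclaim G hG hGZ g' hg' fun z hz => by
    rw [hgt, dist_comm]
    exact (hun z hz).le
  apply hgZ n hn
  intro z
  have h1 : ev g' (z - z' n) ∈ Z := by
    rw [hψ]
    exact hGZ _
  rw [hgt, sub_add_cancel] at h1
  exact h1

end Pool.Agent.H5.BD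

end
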