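import Pool.Agent.H94.CB.M84
import Pool.Agent.H94.CB.M94
import Pool.Agent.H94.CB.M95
import Pool.Agent.H94.CB.M96

/-! The parts of this file: H5.BD.CLI, H5.BD.CSm, H5.BD.CFlow, H5.BD.CPer, H5.BD.CThin. -/

section

/-!
# BD CLI: the local maximum principle

`κ = K⁻² / 8`.  Given `s ≤ r₃` let `γ = exp (-K⁻² s² / 16)`, `η = K⁻² s² / 128`, `θ = exp (κ (s / 2)²) γ exp (2 η) = exp (-K⁻² s² / 64) < 1`, and `ε` as in `rh_cmp` (for `s`, `η`).
Let `F, G, z₀, φ` be as in the claim, `k = A.idx (pr (F (φ z₀)))`; `dist (pr (G z₀)) (pr (F (φ z₀))) ≤ ε ≤ ε₃` and `matching` give `e, ψ`.  `z₀` is the centre: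
`h z = aCoef Ω (A.χ k) (qc A k G z) * (Dm A F G k ψ z) ^ m`, `Fh z = (A.χ k).σ (qc A k G z)`, holomorphic on `ball z₀ s` (`goodG`, `LC.an`, `aCoef_analytic`, `σ_an`, `MC.Dm_hol`; the points `qc A k G z` have norm `≤ 1 / 2`);
`‖h z‖ ‖Fh z‖ = cf A Ω k (G z) * ‖Dm A F G k ψ z‖ ^ m`.  `Fh z = a • G z` with `a ≠ 0` (`surj`), so `pr (Fh z) = pr (G z)`; for `‖z - z₀‖ = s / 2 ≤ 4 r₂`, `emb`: `dist (pr (G z)) (pr (G z₀)) ≥ K⁻¹ s / 2`, so
by `norm_inner_sq` `‖⟨Fh z₀, Fh z⟩‖² ≤ ‖Fh z₀‖² ‖Fh z‖² (1 - K⁻² s² / 8) ≤ (γ ‖Fh z₀‖ ‖Fh z‖)²`.  `max_ineq` with `r₀ = s / 2`, `r = s`, `c = a`: there is `z` with `‖z - z₀‖ = s / 2` and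
`rh (φ z₀) z₀ E z₀ ≤ e^η ‖h z₀‖ ‖Fh z₀‖ E z₀ ≤ e^η exp (κ s² / 4) γ ‖h z‖ ‖Fh z‖ E z ≤ e^(2 η) exp (κ s² / 4) γ rh (φ z) z E z`.
-/

set_option autoImplicit false

open Topology Filter Metric

namespace Pool.Agent.H5.BD

attribute [-instance] ProperSMul.toContinuousSMul

open Pool.Agent.H36.BP (EN fs wd)
open Pool.Agent.H14.PP (IsCone Chart Form Tan aCoef jac)
open Pool.Agent.H62.EF (MN pr det2)

variable {N : ℕ} {X : Set (EN N)} {A : Atlas X} {c L r₀ c₁ K₀ r₂ r₃ ε₃ K : ℝ} {m : ℕ}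

theorem rh_loc (hX : IsCone X) (h : MC A c L r₀ c₁ K₀ r₂ r₃ ε₃ K) (hm : 1 ≤ m) (Ω : Form X m 1) {s : ℝ} (hs : 0 < s) (hs₃ : s ≤ r₃) :
    ∃ θ ε : ℝ, 0 ≤ θ ∧ θ < 1 ∧ 0 < ε ∧ ∀ F ∈ BC X c L, ∀ G ∈ BC X c L, ∀ z₀ φ, FolAt evp r₂ s ε F G z₀ φ → ∀ a : ℂ,
      ∃ z ∈ closedBall z₀ s, rh A Ω r₂ F (φ z₀) G z₀ * Real.exp (-(K⁻¹ ^ 2 / 8) * ‖z₀ - a‖ ^ 2) ≤
        θ * (rh A Ω r₂ F (φ z) G z * Real.exp (-(K⁻¹ ^ 2 / 8) * ‖z - a‖ ^ 2)) := by
  have hKpos : 0 < K := lt_of_lt_of_le one_pos (h.lc.one_le.trans h.le_K)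
  obtain ⟨k2, hk2⟩ : ∃ k2, k2 = K⁻¹ ^ 2 := ⟨_, rfl⟩
  have hk2pos : 0 < k2 := by
    rw [hk2]
    positivity
  have hηpos : 0 < k2 * s ^ 2 / 128 := by positivity
  obtain ⟨ε, hε, hε₃, hcmp⟩ := rh_cmp hX h hm Ω hs hs₃ hηpos
  refine ⟨Real.exp (-(k2 * s ^ 2 / 64)), ε, (Real.exp_pos _).le, ?_, hε, ?_⟩
  · rw [Real.exp_lt_one_iff]
    have : 0 < k2 * s ^ 2 / 64 := by positivity
    linarith
  intro F hF G hG z₀ φ hfol a
  rw [← hk2]
  have hr₂ := h.r₂_pos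
  have hr₃ := h.r₃_pos
  have hr₃₂ := h.r₃_le₂
  obtain ⟨e, ψ, hM⟩ := h.matching F hF G hG (φ z₀) z₀
    ((hfol z₀ (mem_closedBall_self hs.le)).1.trans hε₃)
  have hc := hcmp F hF G hG z₀ φ hfol e ψ hM
  obtain ⟨k, hk⟩ : ∃ k, k = A.idx (pr (F (φ z₀))) := ⟨_, rfl⟩
  rw [← hk] at hM
  have hc' := fun z hz => hc z hz k hk
  have hgood : ∀ z ∈ ball z₀ s, Good (A.χ k) (G z) := fun z hz =>
    hM.goodG z (ball_subset_ball (by linarith) hz)
  have hp : ∀ z ∈ ball z₀ s, qc A k G z ∈ ball (0 : ℂ × ℂ) 2 := fun z hz => by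
    rw [mem_ball_zero_iff]
    exact lt_of_le_of_lt (hgood z hz).2.2 (by norm_num)
  have hK : Pool.Agent.H14.PP.IsOpenPart X X :=
    ⟨subset_rfl, hX.smul_mem, fun x _ => Eventually.of_forall fun y hy => hy⟩
  have hq : ∀ z ∈ ball z₀ s, AnalyticAt ℂ (qc A k G) z := fun z hz =>
    h.lc.an G hG k z (hgood z hz)
  have hF0 : ∀ z ∈ ball z₀ s, (A.χ k).σ (qc A k G z) ≠ 0 := fun z hz =>
    (A.χ k).sigma_ne_zero hX (hp z hz)
  have hpr : ∀ z ∈ ball z₀ s, pr ((A.χ k).σ (qc A k G z)) = pr (G z) := by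
    intro z hz
    obtain ⟨b, hb, hb'⟩ := ((A.χ k).surj (G z) (hgood z hz).1 (hgood z hz).2.1).2
    have h1 : pr (G z) = pr (b • (A.χ k).σ ((A.χ k).q (G z))) := congrArg pr hb'
    rw [h1, Pool.Agent.H62.EF.pr_smul _ hb]
    rfl
  have hz₀ : z₀ ∈ ball z₀ s := mem_ball_self hs
  have hsph : ∀ z ∈ sphere z₀ (s / 2), z ∈ ball z₀ s := fun z hz => by
    rw [mem_sphere] at hz
    rw [mem_ball, hz]
    linarith
  have hh : DifferentiableOn ℂ (fun z => aCoef Ω (A.χ k) (qc A k G z) * (Dm A F G k ψ z) ^ m)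
      (ball z₀ s) := by
    intro z hz
    have h1 : AnalyticAt ℂ (aCoef Ω (A.χ k)) (qc A k G z) :=
      Pool.Agent.H14.PP.aCoef_analytic hK Ω (A.χ k) (hp z hz) ((A.χ k).σ_mem _ (hp z hz)).1
    have h2 : DifferentiableAt ℂ (fun z => aCoef Ω (A.χ k) (qc A k G z)) z :=
      h1.differentiableAt.comp z (hq z hz).differentiableAt
    have hz3 : z ∈ ball z₀ (2 * r₃) := ball_subset_ball (by linarith) hz
    have h3 : DifferentiableAt ℂ (Dm A F G k ψ) z :=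
      ((h.Dm_hol hF hG hM) z hz3).differentiableAt (isOpen_ball.mem_nhds hz3)
    exact (h2.mul (h3.pow m)).differentiableWithinAt
  have hFh : DifferentiableOn ℂ (fun z => (A.χ k).σ (qc A k G z)) (ball z₀ s) := by
    intro z hz
    exact (((A.χ k).σ_an _ (hp z hz)).differentiableAt.comp z
      (hq z hz).differentiableAt).differentiableWithinAt
  have hγ : ∀ z ∈ sphere z₀ (s / 2), ‖inner ℂ ((A.χ k).σ (qc A k G z₀)) ((A.χ k).σ (qc A k G z))‖ ≤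
      Real.exp (-(k2 * s ^ 2 / 16)) * (‖(A.χ k).σ (qc A k G z₀)‖ * ‖(A.χ k).σ (qc A k G z)‖) := by
    intro z hz
    have hz' := hsph z hz
    rw [mem_sphere, dist_comm, dist_eq_norm] at hz
    have h1 := h.emb G hG z₀ z (by rw [hz]; linarith)
    rw [← hpr z₀ hz₀, ← hpr z hz', hz] at h1
    have h2 : k2 * s ^ 2 / 4 ≤
        dist (pr ((A.χ k).σ (qc A k G z₀))) (pr ((A.χ k).σ (qc A k G z))) ^ 2 := by
      have h3 : (K⁻¹ * (s / 2)) ^ 2 ≤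
          dist (pr ((A.χ k).σ (qc A k G z₀))) (pr ((A.χ k).σ (qc A k G z))) ^ 2 :=
        pow_le_pow_left₀ (by positivity) h1 2
      rw [hk2]
      linarith
    have h4 := Pool.Agent.H62.EF.norm_inner_sq (hF0 z₀ hz₀) (hF0 z hz')
    have h5 : 1 - k2 * s ^ 2 / 8 ≤ Real.exp (-(k2 * s ^ 2 / 16)) ^ 2 := by
      have h6 := Real.add_one_le_exp (-(k2 * s ^ 2 / 8))
      have h7 : Real.exp (-(k2 * s ^ 2 / 16)) ^ 2 = Real.exp (-(k2 * s ^ 2 / 8)) := by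
        rw [← Real.exp_nat_mul]
        congr 1
        push_cast
        ring
      rw [h7]
      linarith
    refine le_of_sq_le_sq ?_ (by positivity)
    rw [h4]
    calc ‖(A.χ k).σ (qc A k G z₀)‖ ^ 2 * ‖(A.χ k).σ (qc A k G z)‖ ^ 2 *
          (1 - dist (pr ((A.χ k).σ (qc A k G z₀))) (pr ((A.χ k).σ (qc A k G z))) ^ 2 / 2)
        ≤ ‖(A.χ k).σ (qc A k G z₀)‖ ^ 2 * ‖(A.χ k).σ (qc A k G z)‖ ^ 2 *
          Real.exp (-(k2 * s ^ 2 / 16)) ^ 2 := by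
          refine mul_le_mul_of_nonneg_left ?_ (by positivity)
          linarith
      _ = (Real.exp (-(k2 * s ^ 2 / 16)) *
          (‖(A.χ k).σ (qc A k G z₀)‖ * ‖(A.χ k).σ (qc A k G z)‖)) ^ 2 := by ring
  obtain ⟨z, hz, hmax⟩ := Pool.Agent.H62.EF.max_ineq (by linarith : 0 < s / 2)
    (by linarith : s / 2 < s) hh hFh (hF0 z₀ hz₀) hγ (k2 / 8) a
  have hzc : z ∈ closedBall z₀ (s / 2) := sphere_subset_closedBall hz
  refine ⟨z, closedBall_subset_closedBall (by linarith) hzc, ?_⟩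
  have hQ : ∀ z, ‖aCoef Ω (A.χ k) (qc A k G z) * (Dm A F G k ψ z) ^ m‖ *
      ‖(A.χ k).σ (qc A k G z)‖ = cf A Ω k (G z) * ‖Dm A F G k ψ z‖ ^ m := by
    intro z
    rw [norm_mul, norm_pow]
    unfold cf qc
    ring
  rw [hQ, hQ] at hmax
  have h1 := (hc' z₀ (mem_closedBall_self (by linarith))).2
  have h2 := (hc' z hzc).1
  obtain ⟨Q₀, hQ₀⟩ : ∃ Q₀, Q₀ = cf A Ω k (G z₀) * ‖Dm A F G k ψ z₀‖ ^ m := ⟨_, rfl⟩
  obtain ⟨Q₁, hQ₁⟩ : ∃ Q₁, Q₁ = cf A Ω k (G z) * ‖Dm A F G k ψ z‖ ^ m := ⟨_, rfl⟩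
  rw [← hQ₀] at h1 hmax
  rw [← hQ₁] at h2 hmax
  obtain ⟨E₀, hE₀⟩ : ∃ E₀, E₀ = Real.exp (-(k2 / 8) * ‖z₀ - a‖ ^ 2) := ⟨_, rfl⟩
  obtain ⟨E₁, hE₁⟩ : ∃ E₁, E₁ = Real.exp (-(k2 / 8) * ‖z - a‖ ^ 2) := ⟨_, rfl⟩
  rw [← hE₀, ← hE₁] at hmax ⊢
  have hE₀pos : 0 < E₀ := by
    rw [hE₀]
    exact Real.exp_pos _
  have hE₁pos : 0 < E₁ := by
    rw [hE₁]
    exact Real.exp_pos _
  have h3 : Q₁ ≤ Real.exp (k2 * s ^ 2 / 128) * rh A Ω r₂ F (φ z) G z := by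
    have h4 := mul_le_mul_of_nonneg_left h2 (Real.exp_pos (k2 * s ^ 2 / 128)).le
    rw [← mul_assoc, ← Real.exp_add, add_neg_cancel, Real.exp_zero, one_mul] at h4
    exact h4
  calc rh A Ω r₂ F (φ z₀) G z₀ * E₀ ≤ Real.exp (k2 * s ^ 2 / 128) * Q₀ * E₀ :=
        mul_le_mul_of_nonneg_right h1 hE₀pos.le
    _ = Real.exp (k2 * s ^ 2 / 128) * (Q₀ * E₀) := by ring
    _ ≤ Real.exp (k2 * s ^ 2 / 128) * (Real.exp (k2 / 8 * (s / 2) ^ 2) *
          Real.exp (-(k2 * s ^ 2 / 16)) * (Q₁ * E₁)) :=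
        mul_le_mul_of_nonneg_left hmax (Real.exp_pos _).le
    _ ≤ Real.exp (k2 * s ^ 2 / 128) * (Real.exp (k2 / 8 * (s / 2) ^ 2) *
          Real.exp (-(k2 * s ^ 2 / 16)) *
            (Real.exp (k2 * s ^ 2 / 128) * rh A Ω r₂ F (φ z) G z * E₁)) := by
        refine mul_le_mul_of_nonneg_left ?_ (Real.exp_pos _).le
        refine mul_le_mul_of_nonneg_left ?_ (by positivity)
        exact mul_le_mul_of_nonneg_right h3 hE₁pos.le
    _ = (Real.exp (k2 * s ^ 2 / 128) * Real.exp (k2 / 8 * (s / 2) ^ 2) *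
          Real.exp (-(k2 * s ^ 2 / 16)) * Real.exp (k2 * s ^ 2 / 128)) *
            (rh A Ω r₂ F (φ z) G z * E₁) := by ring
    _ = Real.exp (-(k2 * s ^ 2 / 64)) * (rh A Ω r₂ F (φ z) G z * E₁) := by
        congr 1
        rw [← Real.exp_add, ← Real.exp_add, ← Real.exp_add]
        congr 1
        ring

end Pool.Agent.H5.BD

end

section

/-!
# BD CSm: if `rh` is small then the point is near `Z` or near the plaque; the identity theorem for plaques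

`rh_small`: let `K₂` be as in `exists_dmBound`; `ε` is the minimum of the number of `rh_cmp` (for `s` and `η = 1`), of `ε₃` and of `s / K₂`.  Given `η`: let `δ₁` be as in `ZΩ_small` for `η`, and
`δ = exp (-1) δ₁ (η / (A.C K₂)) ^ m` (half of it if you need a strict inequality).
Let `F, G, z₀, φ` be as in the claim, `k = A.idx (pr (F (φ z₀)))`; `matching` gives `e, ψ` (`FolAt` at `z₀`: `dist ≤ ε ≤ ε₃`).  `rh_cmp` at `z = z₀`: `cf A Ω k (G z₀) ‖Dm z₀‖ ^ m ≤ e δ`.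
If `cf A Ω k (G z₀) ≤ δ₁` then `ZΩ_small` (`goodG`) gives the first alternative.  Otherwise `‖Dm z₀‖ ^ m ≤ e δ / δ₁ = (η / (C K₂)) ^ m`, `‖Dm z₀‖ ≤ η / (C K₂)`, so by `lower` (`K₂ ε / s ≤ 1`)
`‖qc A k F (ψ z₀) - qc A k G z₀‖ ≤ η / C`, and (`dist_le`) `dist (pr (G z₀)) (pr (F (ψ z₀))) ≤ η`, with `ψ z₀ ∈ closedBall (φ z₀) r₂`.

`ident`: `ε = ε₃`; `matching` gives `e, ψ` with `i = A.idx (pr (F w₀))`.  `d z = qc A i F (ψ z) - qc A i G z` is holomorphic on `ball z₀ (2 r₃)` (`MC.d_hol`).  If `z ∈ ball z₀ (2 r₃)` and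
`evp G z = evp F w` with `w ∈ closedBall w₀ r₂` then (`le_dist`) `qc A i F w = qc A i G z`, by `near` `w = ψ z`, so `d z = 0`.  The points `z` near `z₁ ∈ closedBall z₀ r₃` are in `ball z₀ (2 r₃)`; so `d` has
zeros accumulating at `z₁`, hence `d = 0` on the connected set `ball z₀ (2 r₃)` (identity theorem, e.g. `AnalyticOnNhd.eqOn_zero_of_preconnected_of_frequently_eq_zero`).  Then `dist_le` gives
`evp G z = evp F (ψ z)` for `z ∈ closedBall z₀ r₃`, with `ψ z ∈ closedBall w₀ r₂`.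
-/

set_option autoImplicit false

open Topology Filter Metric

namespace Pool.Agent.H5.BD

attribute [-instance] ProperSMul.toContinuousSMul

open Pool.Agent.H36.BP (EN fs wd)
open Pool.Agent.H14.PP (IsCone Chart Form Tan aCoef jac)
open Pool.Agent.H62.EF (MN pr det2)

variable {N : ℕ} {X : Set (EN N)} {A : Atlas X} {c L r₀ c₁ K₀ r₂ r₃ ε₃ K : ℝ} {m : ℕ}

theorem rh_small (hX : IsCone X) (h : MC A c L r₀ c₁ K₀ r₂ r₃ ε₃ K) (hm : 1 ≤ m) (Ω : Form X m 1) {s : ℝ} (hs : 0 < s) (hs₃ : s ≤ r₃) :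
    ∃ ε : ℝ, 0 < ε ∧ ∀ η : ℝ, 0 < η → ∃ δ : ℝ, 0 < δ ∧ ∀ F ∈ BC X c L, ∀ G ∈ BC X c L, ∀ z₀ φ, FolAt evp r₂ s ε F G z₀ φ →
      rh A Ω r₂ F (φ z₀) G z₀ ≤ δ → (∃ y ∈ ZΩ Ω, dist (evp G z₀) y ≤ η) ∨ ∃ w ∈ closedBall (φ z₀) r₂, dist (evp G z₀) (evp F w) ≤ η := by
  obtain ⟨K₂, hK₂, hdm⟩ := h.exists_dmBound
  obtain ⟨ε₁, hε₁, hε₁₃, hcmp⟩ := rh_cmp hX h hm Ω hs hs₃ (η := 1) one_pos
  have hK₂0 : 0 < K₂ := lt_of_lt_of_le one_pos hK₂
  have hC0 : 0 < A.C := lt_of_lt_of_le one_pos A.one_le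
  refine ⟨min ε₁ (s / K₂), lt_min hε₁ (by positivity), fun η hη => ?_⟩
  obtain ⟨δ₁, hδ₁, hZ⟩ := ZΩ_small hX A hm Ω hη
  refine ⟨Real.exp (-1) * (δ₁ * (η / (A.C * K₂)) ^ m), by positivity, fun F hF G hG z₀ φ hfol hrh => ?_⟩
  have hz₀ : z₀ ∈ closedBall z₀ s := mem_closedBall_self hs.le
  have hε0 : 0 ≤ min ε₁ (s / K₂) := (lt_min hε₁ (by positivity)).le
  obtain ⟨e, ψ, hmat⟩ := h.matching F hF G hG (φ z₀) z₀ (((hfol z₀ hz₀).1.trans (min_le_left _ _)).trans hε₁₃)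
  have hfol' : FolAt evp r₂ s ε₁ F G z₀ φ := fun z hz => ⟨(hfol z hz).1.trans (min_le_left _ _), (hfol z hz).2⟩
  have h1 := (hcmp F hF G hG z₀ φ hfol' e ψ hmat z₀ (mem_closedBall_self (by positivity)) _ rfl).1
  set k := A.idx (pr (F (φ z₀))) with hk
  have h2 : cf A Ω k (G z₀) * ‖Dm A F G k ψ z₀‖ ^ m ≤ δ₁ * (η / (A.C * K₂)) ^ m :=
    le_of_mul_le_mul_left (h1.trans hrh) (Real.exp_pos _)
  have hr₂ := h.r₂_pos
  have hr₃ := h.r₃_pos
  have hzb : z₀ ∈ ball z₀ (2 * r₃) := mem_ball_self (by positivity)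
  rcases le_or_gt (cf A Ω k (G z₀)) δ₁ with hcase | hcase
  · exact Or.inl (hZ k (G z₀) (hmat.goodG z₀ hzb) hcase)
  · right
    have h3 : δ₁ * ‖Dm A F G k ψ z₀‖ ^ m ≤ δ₁ * (η / (A.C * K₂)) ^ m :=
      (mul_le_mul_of_nonneg_right hcase.le (by positivity)).trans h2
    have h4 : ‖Dm A F G k ψ z₀‖ ^ m ≤ (η / (A.C * K₂)) ^ m := le_of_mul_le_mul_left h3 hδ₁
    have h5 : ‖Dm A F G k ψ z₀‖ ≤ η / (A.C * K₂) := by
      by_contra hcon
      push Not at hcon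
      have h6 := pow_lt_pow_left₀ hcon (by positivity) (show m ≠ 0 by omega)
      linarith
    have hDB := hdm F hF G hG k (φ z₀) z₀ e ψ hmat s (min ε₁ (s / K₂)) hs hs₃ hε0 (fun z hz => by
      refine ⟨φ z, ?_, (hfol z hz).1⟩
      rw [mem_closedBall, dist_eq_norm]
      have h6 := (hfol z hz).2
      linarith)
    have h7 : K₂ * (min ε₁ (s / K₂) / s) ≤ 1 := by
      have h8 : min ε₁ (s / K₂) / s ≤ (s / K₂) / s := div_le_div_of_nonneg_right (min_le_right _ _) hs.le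
      have h9 : K₂ * ((s / K₂) / s) = 1 := by field_simp
      calc K₂ * (min ε₁ (s / K₂) / s) ≤ K₂ * ((s / K₂) / s) := mul_le_mul_of_nonneg_left h8 hK₂0.le
        _ = 1 := h9
    have h10 := hDB.lower h7 z₀ (mem_closedBall_self (by positivity))
    have h11 : ‖qc A k F (ψ z₀) - qc A k G z₀‖ ≤ η / A.C := by
      calc ‖qc A k F (ψ z₀) - qc A k G z₀‖ ≤ K₂ * ‖Dm A F G k ψ z₀‖ := h10
        _ ≤ K₂ * (η / (A.C * K₂)) := mul_le_mul_of_nonneg_left h5 hK₂0.le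
        _ = η / A.C := by field_simp
    have hψ := hmat.mem z₀ hzb
    have hψ2 : ψ z₀ ∈ closedBall (φ z₀) (2 * r₂) := closedBall_subset_closedBall (by linarith) hψ
    refine ⟨ψ z₀, hψ, ?_⟩
    rw [dist_comm]
    calc dist (evp F (ψ z₀)) (evp G z₀) ≤ A.C * ‖qc A k F (ψ z₀) - qc A k G z₀‖ :=
          A.dist_le k _ _ (hmat.goodF _ hψ2) (hmat.goodG z₀ hzb)
      _ ≤ A.C * (η / A.C) := mul_le_mul_of_nonneg_left h11 hC0.le
      _ = η := by field_simp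

theorem MC.ident (hX : IsCone X) (h : MC A c L r₀ c₁ K₀ r₂ r₃ ε₃ K) : ∃ ε : ℝ, 0 < ε ∧ ∀ F ∈ BC X c L, ∀ G ∈ BC X c L, ∀ z₀ w₀,
    dist (evp G z₀) (evp F w₀) ≤ ε → ∀ z₁ ∈ closedBall z₀ r₃, (∃ᶠ z in 𝓝[≠] z₁, evp G z ∈ Pl evp r₂ F w₀) →
      ∀ z ∈ closedBall z₀ r₃, evp G z ∈ Pl evp r₂ F w₀ := by
  refine ⟨ε₃, h.ε₃_pos, fun F hF G hG z₀ w₀ hd z₁ hz₁ hfreq z hz => ?_⟩
  have hr₂ := h.r₂_pos
  have hr₃ := h.r₃_pos
  obtain ⟨e, ψ, hmat⟩ := h.matching F hF G hG w₀ z₀ hd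
  set i := A.idx (pr (F w₀)) with hi
  set d : ℂ → ℂ × ℂ := fun z => qc A i F (ψ z) - qc A i G z with hdd
  have hhol : DifferentiableOn ℂ d (ball z₀ (2 * r₃)) := h.d_hol hF hG hmat
  have han : AnalyticOnNhd ℂ d (ball z₀ (2 * r₃)) := hhol.analyticOnNhd isOpen_ball
  have hz₁b : z₁ ∈ ball z₀ (2 * r₃) := closedBall_subset_ball (by linarith) hz₁
  have hzb : z ∈ ball z₀ (2 * r₃) := closedBall_subset_ball (by linarith) hz
  have hzero : ∀ y ∈ ball z₀ (2 * r₃), evp G y ∈ Pl evp r₂ F w₀ → d y = 0 := by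
    rintro y hy ⟨w, hw, hwy⟩
    have hw2 : w ∈ closedBall w₀ (2 * r₂) := closedBall_subset_closedBall (by linarith) hw
    have h1 : ‖qc A i F w - qc A i G y‖ ≤ 0 := by
      have h2 := A.le_dist i (F w) (G y) (hmat.goodF w hw2) (hmat.goodG y hy)
      have h3 : dist (pr (F w)) (pr (G y)) = 0 := by
        have h4 : pr (F w) = pr (G y) := hwy
        rw [h4, dist_self]
      rw [h3, mul_zero] at h2
      exact h2
    have h5 := hmat.near y hy w hw2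
    have h6 : ‖w - ψ y‖ ≤ 0 := by
      have h7 : ‖qc A i F w - qc A i G y‖ = 0 := le_antisymm h1 (norm_nonneg _)
      rw [h7, mul_zero] at h5
      exact h5
    have h8 : w = ψ y := sub_eq_zero.1 (norm_le_zero_iff.1 h6)
    have h9 : qc A i F w - qc A i G y = 0 := norm_le_zero_iff.1 h1
    show qc A i F (ψ y) - qc A i G y = 0
    rw [← h8]; exact h9
  have hfreq' : ∃ᶠ y in 𝓝[≠] z₁, d y = 0 := by
    have h1 : ∀ᶠ y in 𝓝[≠] z₁, y ∈ ball z₀ (2 * r₃) := mem_nhdsWithin_of_mem_nhds (isOpen_ball.mem_nhds hz₁b)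
    exact (hfreq.and_eventually h1).mono fun y hy => hzero y hy.2 hy.1
  have hEq := han.eqOn_zero_of_preconnected_of_frequently_eq_zero (convex_ball z₀ (2 * r₃)).isPreconnected hz₁b hfreq'
  have hdz : qc A i F (ψ z) - qc A i G z = 0 := hEq hzb
  have hψ := hmat.mem z hzb
  have hψ2 : ψ z ∈ closedBall w₀ (2 * r₂) := closedBall_subset_closedBall (by linarith) hψ
  have h1 := A.dist_le i (F (ψ z)) (G z) (hmat.goodF _ hψ2) (hmat.goodG z hzb)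
  have h2 : (A.χ i).q (F (ψ z)) - (A.χ i).q (G z) = 0 := hdz
  rw [h2, norm_zero, mul_zero] at h1
  exact ⟨ψ z, hψ, dist_le_zero.1 h1⟩

end Pool.Agent.H5.BD

end

section

/-!
# BD CFlow: the family of the curves with bounded distortion
-/

set_option autoImplicit false

open Topology Filter Metric

namespace Pool.Agent.H5.BD

attribute [-instance] ProperSMul.toContinuousSMul

open Pool.Agent.H36.BP (EN fs wd)
open Pool.Agent.H14.PP (IsCone Chart Form Tan aCoef jac)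
open Pool.Agent.H62.EF (MN pr det2)

variable {N : ℕ} {X : Set (EN N)} {A : Atlas X} {c L r₀ c₁ K₀ r₂ r₃ ε₃ K : ℝ} {m : ℕ}

theorem MC.flow (hX : IsCone X) (h : MC A c L r₀ c₁ K₀ r₂ r₃ ε₃ K) (hm : 1 ≤ m) (Ω : Form X m 1) (hΩ : Thin Ω) :
    BFlow (BC X c L) evp (ZΩ Ω) (rh A Ω r₂) (2 * L) K⁻¹ r₂ r₃ (K⁻¹ ^ 2 / 8) where
  L_pos := by have := h.lc.L_pos; positivity
  c_pos := inv_pos.2 (lt_of_lt_of_le one_pos (h.lc.one_le.trans h.le_K))
  r₂_pos := h.r₂_pos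
  r₃_pos := h.r₃_pos
  κ_pos := by
    have : 0 < K := lt_of_lt_of_le one_pos (h.lc.one_le.trans h.le_K)
    positivity
  lip := fun F hF z w => h.lc.lip F hF z w
  emb := fun F hF z w hzw => h.emb F hF z w hzw
  trans := fun F hF a => ⟨_, bc_trans hF a, fun _ => rfl⟩
  lim := fun 𝒰 h𝒰 F hF => bc_lim hX h.lc.L_pos 𝒰 h𝒰 F hF
  closed := isClosed_ZΩ hX A hm Ω
  dense := fun F hF => ZΩ_dense hX A hm Ω hF.1 hF.2.1
  bdd := rh_bdd hX h Ω
  loc := fun s hs hs₃ => rh_loc hX h hm Ω hs hs₃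
  small := fun s hs hs₃ => rh_small hX h hm Ω hs hs₃
  ident := h.ident hX
  iso := h.iso hX hm Ω hΩ

end Pool.Agent.H5.BD

end

section

/-!
# BD CPer: the curves with bounded distortion are doubly periodic, and there are only finitely many of them
-/

set_option autoImplicit false

open Topology Filter Metric

namespace Pool.Agent.H5.BD

attribute [-instance] ProperSMul.toContinuousSMul

open Pool.Agent.H36.BP (EN fs wd)
open Pool.Agent.H14.PP (IsCone Chart Form Tan aCoef jac)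
open Pool.Agent.H62.EF (MN pr det2 Charts)

variable {N : ℕ} {X : Set (EN N)} {A : Atlas X} {c L r₀ c₁ K₀ r₂ r₃ ε₃ K : ℝ} {m : ℕ}

/-- the curves `F` and `G` are the same up to an affine change of the variable -/
def Equi (F G : ℂ → EN N) : Prop := ∃ a b : ℂ, a ≠ 0 ∧ ∀ z, evp F z = evp G (a * z + b)

theorem Equi.symm {F G : ℂ → EN N} (h : Equi F G) : Equi G F := by
  obtain ⟨a, b, ha, h⟩ := h
  refine ⟨a⁻¹, -(a⁻¹ * b), inv_ne_zero ha, fun z => ?_⟩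
  rw [h]
  congr 1
  field_simp
  ring

/-- if the sequence `F n` of curves is arbitrary then two of them are the same up to a change of the variable -/
theorem exists_pair (hX : IsCone X) (h : MC A c L r₀ c₁ K₀ r₂ r₃ ε₃ K) (hm : 1 ≤ m) (Ω : Form X m 1) (hΩ : Thin Ω)
    (F : ℕ → ℂ → EN N) (hF : ∀ n, F n ∈ BC X c L) :
    ∃ k l : ℕ, k ≠ l ∧ ∃ a b : ℂ, a ≠ 0 ∧ ‖b‖ ≤ r₂ ∧ ∀ z, evp (F l) z = evp (F k) (a * z + b) := by
  have hfl := h.flow hX hm Ω hΩ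
  obtain ⟨n₁, ε₁, r, hε₁, hr, hmain⟩ := hfl.main
  obtain ⟨G, hG, hlim⟩ := hfl.lim (hyperfilter ℕ) Nat.hyperfilter_le_atTop F (Eventually.of_forall hF)
  have hu := hfl.unif (hyperfilter ℕ) (f := F) (a := fun _ => 0) (Eventually.of_forall hF) hG (fun z => by simpa using hlim z) n₁
    (half_pos hε₁)
  obtain ⟨k, hk⟩ := hu.exists
  obtain ⟨l, hl, hlk⟩ := (hu.and (Nat.hyperfilter_le_atTop (eventually_gt_atTop k))).exists
  have hkl : k ≠ l := (ne_of_lt hlk)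
  have hclose : ∀ z ∈ closedBall (0 : ℂ) n₁, dist (evp (F k) z) (evp (F l) z) ≤ ε₁ := by
    intro z hz
    have h1 := hk z hz
    have h2 := hl z hz
    rw [add_zero] at h1 h2
    calc dist (evp (F k) z) (evp (F l) z) ≤ dist (evp (F k) z) (evp G z) + dist (evp G z) (evp (F l) z) := dist_triangle _ _ _
      _ ≤ ε₁ / 2 + ε₁ / 2 := by
        rw [dist_comm (evp G z)]
        exact add_le_add h1.le h2.le
      _ = ε₁ := by ring
  rcases hmain (F k) (hF k) (F l) (hF l) hclose with h1 | h1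
  · obtain ⟨a, b, ha, hb, hab⟩ := h.rel_affine hr (hF k) (hF l) h1
    exact ⟨k, l, hkl, a, b, ha, hb, hab⟩
  · obtain ⟨a, b, ha, hb, hab⟩ := h.rel_affine hr (hF l) (hF k) h1
    exact ⟨l, k, hkl.symm, a, b, ha, hb, hab⟩

/-- a curve which is the same up to `z ↦ a z + b` has `a = 1` -/
theorem a_eq_one (h : MC A c L r₀ c₁ K₀ r₂ r₃ ε₃ K) {F : ℂ → EN N} (hF : F ∈ BC X c L) {a b : ℂ} (hab : ∀ z, evp F z = evp F (a * z + b)) :
    a = 1 := by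
  by_contra hne
  have hK : 0 < K := lt_of_lt_of_le one_pos (h.lc.one_le.trans h.le_K)
  have hr₂ := h.r₂_pos
  have ha : a - 1 ≠ 0 := sub_ne_zero.2 hne
  have ha' : 0 < ‖a - 1‖ := norm_pos_iff.2 ha
  -- the fixed point is `-b / (a - 1)`
  obtain ⟨t, ht⟩ : ∃ t : ℂ, t = ((r₂ / ‖a - 1‖ : ℝ) : ℂ) := ⟨_, rfl⟩
  obtain ⟨w, hw⟩ : ∃ w : ℂ, w = t - b / (a - 1) := ⟨_, rfl⟩
  have h1 : a * w + b - w = (a - 1) * t := by
    rw [hw]
    field_simp
    ring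
  have h2 : ‖a * w + b - w‖ = r₂ := by
    rw [h1, norm_mul, ht, Complex.norm_real, Real.norm_eq_abs, abs_of_pos (by positivity)]
    field_simp
  have h3 := h.emb F hF (a * w + b) w (by rw [h2]; linarith)
  have h4 : pr (F w) = pr (F (a * w + b)) := hab w
  rw [h2, h4, dist_self] at h3
  have h5 : 0 < K⁻¹ * r₂ := by positivity
  linarith

/-- there is a period near the line `ℝ u` -/
theorem exists_period (hX : IsCone X) (h : MC A c L r₀ c₁ K₀ r₂ r₃ ε₃ K) (hm : 1 ≤ m) (Ω : Form X m 1) (hΩ : Thin Ω)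
    {F : ℂ → EN N} (hF : F ∈ BC X c L) (u : ℂ) : ∃ (t : ℝ) (b : ℂ), 4 * r₂ ≤ |t| ∧ ‖b‖ ≤ r₂ ∧ ∀ z, evp F (z + (t * u + b)) = evp F z := by
  have hr₂ := h.r₂_pos
  obtain ⟨k, l, hkl, a, b, ha, hb, hab⟩ := exists_pair hX h hm Ω hΩ (fun n z => F (z + ((n * (4 * r₂) : ℝ) : ℂ) * u))
    (fun n => bc_trans hF _)
  have h1 : ∀ z, evp F z = evp F (a * z + (b + ((k * (4 * r₂) : ℝ) : ℂ) * u - a * (((l * (4 * r₂) : ℝ) : ℂ) * u))) := by
    intro z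
    have h2 : evp F (z - ((l * (4 * r₂) : ℝ) : ℂ) * u + ((l * (4 * r₂) : ℝ) : ℂ) * u) =
        evp F (a * (z - ((l * (4 * r₂) : ℝ) : ℂ) * u) + b + ((k * (4 * r₂) : ℝ) : ℂ) * u) := hab _
    rw [sub_add_cancel] at h2
    rw [h2]
    congr 1
    ring
  have ha1 := a_eq_one h hF h1
  subst ha1
  refine ⟨((k : ℝ) - l) * (4 * r₂), b, ?_, hb, fun z => ?_⟩
  · rw [abs_mul, abs_of_pos (by positivity : (0 : ℝ) < 4 * r₂)]
    have h2 : (1 : ℝ) ≤ |(k : ℝ) - l| := by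
      have h3 : (k : ℤ) - l ≠ 0 := by
        rw [sub_ne_zero]
        exact_mod_cast hkl
      have h4 : (1 : ℤ) ≤ |(k : ℤ) - l| := Int.one_le_abs h3
      exact_mod_cast h4
    have h3 : 0 < 4 * r₂ := by positivity
    nlinarith
  · rw [h1 z]
    congr 1
    push_cast
    ring

theorem MC.doubly_periodic (hX : IsCone X) (h : MC A c L r₀ c₁ K₀ r₂ r₃ ε₃ K) (hm : 1 ≤ m) (Ω : Form X m 1) (hΩ : Thin Ω)
    {F : ℂ → EN N} (hF : F ∈ BC X c L) : ∃ ω₁ ω₂ : ℂ, LinearIndependent ℝ ![ω₁, ω₂] ∧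
      ∀ z, pr (F (z + ω₁)) = pr (F z) ∧ pr (F (z + ω₂)) = pr (F z) := by
  have hr₂ := h.r₂_pos
  obtain ⟨s, b, hs, hb, h1⟩ := exists_period hX h hm Ω hΩ hF 1
  obtain ⟨t, d, ht, hd, h2⟩ := exists_period hX h hm Ω hΩ hF Complex.I
  refine ⟨_, _, ?_, fun z => ⟨h1 z, h2 z⟩⟩
  have hb1 := (Complex.abs_re_le_norm b).trans hb
  have hb2 := (Complex.abs_im_le_norm b).trans hb
  have hd1 := (Complex.abs_re_le_norm d).trans hd
  have hd2 := (Complex.abs_im_le_norm d).trans hd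
  rw [LinearIndependent.pair_iff]
  intro x y hxy
  have hre : x * (s + b.re) + y * d.re = 0 := by
    have := congrArg Complex.re hxy
    simp at this
    linarith
  have him : x * b.im + y * (t + d.im) = 0 := by
    have := congrArg Complex.im hxy
    simp at this
    linarith
  have hdet : (s + b.re) * (t + d.im) - b.im * d.re ≠ 0 := by
    intro h0
    have e1 : 3 * r₂ ≤ |s + b.re| := by
      have := abs_sub_abs_le_abs_sub s (-b.re)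
      rw [abs_neg, sub_neg_eq_add] at this
      linarith
    have e2 : 3 * r₂ ≤ |t + d.im| := by
      have := abs_sub_abs_le_abs_sub t (-d.im)
      rw [abs_neg, sub_neg_eq_add] at this
      linarith
    have e3 : (3 * r₂) * (3 * r₂) ≤ |(s + b.re) * (t + d.im)| := by
      rw [abs_mul]
      exact mul_le_mul e1 e2 (by positivity) (abs_nonneg _)
    have e4 : |b.im * d.re| ≤ r₂ * r₂ := by
      rw [abs_mul]
      exact mul_le_mul hb2 hd1 (abs_nonneg _) hr₂.le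
    rw [sub_eq_zero.1 h0] at e3
    nlinarith
  have hx : x * ((s + b.re) * (t + d.im) - b.im * d.re) = 0 := by
    linear_combination (t + d.im) * hre - d.re * him
  have hy : y * ((s + b.re) * (t + d.im) - b.im * d.re) = 0 := by
    linear_combination (s + b.re) * him - b.im * hre
  exact ⟨(mul_eq_zero.1 hx).resolve_right hdet, (mul_eq_zero.1 hy).resolve_right hdet⟩

theorem MC.finite_classes (hX : IsCone X) (h : MC A c L r₀ c₁ K₀ r₂ r₃ ε₃ K) (hm : 1 ≤ m) (Ω : Form X m 1) (hΩ : Thin Ω) :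
    ∃ T : Finset (ℂ → EN N), (∀ G ∈ T, G ∈ BC X c L) ∧ ∀ F ∈ BC X c L, ∃ G ∈ T, Equi F G := by
  classical
  by_contra hcon
  push Not at hcon
  obtain ⟨F, hF, hFF⟩ := exists_seq_of_forall_finset_exists (fun F : ℂ → EN N => F ∈ BC X c L) (fun F G => ¬ Equi G F) fun T hT => by
    obtain ⟨G, hG, h1⟩ := hcon T hT
    exact ⟨G, hG, h1⟩
  obtain ⟨k, l, hkl, a, b, ha, -, hab⟩ := exists_pair hX h hm Ω hΩ F hF
  have h1 : Equi (F l) (F k) := ⟨a, b, ha, hab⟩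
  rcases lt_or_gt_of_ne hkl with h2 | h2
  · exact hFF k l h2 h1
  · exact hFF l k h2 h1.symm

/-- **Curves with bounded distortion.** Let `X` be the cone of a smooth projective surface and let `Ω` be a section of `m K - H` which is not identically zero.  The
entire curves in the surface whose derivative is between `c > 0` and `L` are doubly periodic, and up to `z ↦ a z + b` there are only finitely many of them. -/
theorem bounded_distortion (hX : IsCone X) (hch : Charts X) (hm : 1 ≤ m) (Ω : Form X m 1) (hΩ : Thin Ω) (hc : 0 < c) (hL : 0 < L) :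
    (∀ F ∈ BC X c L, ∃ ω₁ ω₂ : ℂ, LinearIndependent ℝ ![ω₁, ω₂] ∧ ∀ z, pr (F (z + ω₁)) = pr (F z) ∧ pr (F (z + ω₂)) = pr (F z)) ∧
      ∃ T : Finset (ℂ → EN N), (∀ G ∈ T, G ∈ BC X c L) ∧ ∀ F ∈ BC X c L, ∃ G ∈ T, Equi F G := by
  rcases Set.eq_empty_or_nonempty X with h0 | hne
  · have h1 : ∀ F, F ∉ BC X c L := fun F hF => by
      have := hF.2.1 0
      rw [h0] at this
      exact this
    exact ⟨fun F hF => absurd hF (h1 F), ∅, fun G hG => absurd hG (Finset.notMem_empty G), fun F hF => absurd hF (h1 F)⟩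
  · obtain ⟨A⟩ := exists_atlas hX hch hne
    obtain ⟨r₀, c₁, K₀, r₂, r₃, ε₃, K, h⟩ := exists_MC hX A hc hL
    exact ⟨fun F hF => h.doubly_periodic hX hm Ω hΩ hF, h.finite_classes hX hm Ω hΩ⟩

end Pool.Agent.H5.BD

end

section

/-!
# BD CThin: the final form of the theorem on curves with bounded distortion
-/

set_option autoImplicit false

open Topology Filter Metric

namespace Pool.Agent.H5.BD

attribute [-instance] ProperSMul.toContinuousSMul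

open Pool.Agent.H36.BP (EN fs wd)
open Pool.Agent.H14.PP (IsCone Chart Form Tan aCoef jac IsOpenPart)
open Pool.Agent.H62.EF (MN pr det2 Charts)

variable {N : ℕ} {X : Set (EN N)} {m : ℕ}

theorem thin_of (hX : IsCone X) (Ω : Form X m 1) {q : EN N → ℂ} {d : ℕ} (hhom : ∀ (c : ℂ) (x : EN N), q (c • x) = c ^ d * q x)
    (hthin : ∀ x ∈ X, ¬ ∀ᶠ y in 𝓝 x, y ∈ X → q y = 0) (hΩ : Ω.NoZeroOff {x | x ∈ X ∧ q x = 0}) : Thin Ω := by
  intro χ p hp hcon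
  have hK : IsOpenPart X X := ⟨subset_rfl, hX.smul_mem, fun _ _ => Eventually.of_forall fun _ h => h⟩
  have h1 : ∀ᶠ p' in 𝓝 p, p' ∈ ball (0 : ℂ × ℂ) 2 ∧ aCoef Ω χ p' = 0 := by
    filter_upwards [hcon, isOpen_ball.mem_nhds hp] with p' h1 h2
    exact ⟨h2, not_not.1 h1⟩
  obtain ⟨h2, h3, h4⟩ := χ.σ_mem p hp
  have h5 : ∀ᶠ p' in 𝓝 p, q (χ.σ p') = 0 := by
    filter_upwards [h1] with p' hp'
    by_contra hne
    exact Pool.Agent.H14.PP.aCoef_ne_zero hX hK Ω χ hΩ hp'.1 (χ.σ_mem p' hp'.1).1 (fun h => hne h.2) hp'.2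
  apply hthin _ h2
  have h6 : Tendsto χ.q (𝓝 (χ.σ p)) (𝓝 p) := by
    have := (χ.q_an _ h3).continuousAt.tendsto
    rwa [h4] at this
  filter_upwards [h6.eventually h5, χ.isOpen_U.mem_nhds h3] with y hy hyU hyX
  obtain ⟨-, a, ha, h7⟩ := χ.surj y hyX hyU
  rw [h7, hhom, hy, mul_zero]

/-- **Curves with bounded distortion on surfaces of general type.**  Let `X` be the cone of a smooth projective surface, and `Ω` a section of `m K - H` whose zeros are on the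
hypersurface section `q = 0`, which contains no open subset of `X`.  Let `0 < c ≤ L`.  Every entire curve in the surface whose derivative is between `c` and `L` is doubly periodic,
and up to `z ↦ a z + b` there are only finitely many of them. -/
theorem curves_of_bounded_distortion (hX : IsCone X) (hch : Charts X) (hm : 1 ≤ m) (Ω : Form X m 1) {q : EN N → ℂ} {d : ℕ}
    (hhom : ∀ (c : ℂ) (x : EN N), q (c • x) = c ^ d * q x) (hthin : ∀ x ∈ X, ¬ ∀ᶠ y in 𝓝 x, y ∈ X → q y = 0)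
    (hΩ : Ω.NoZeroOff {x | x ∈ X ∧ q x = 0}) {c L : ℝ} (hc : 0 < c) (hL : 0 < L) :
    (∀ F ∈ BC X c L, ∃ ω₁ ω₂ : ℂ, LinearIndependent ℝ ![ω₁, ω₂] ∧ ∀ z, pr (F (z + ω₁)) = pr (F z) ∧ pr (F (z + ω₂)) = pr (F z)) ∧
      ∃ T : Finset (ℂ → EN N), (∀ G ∈ T, G ∈ BC X c L) ∧ ∀ F ∈ BC X c L, ∃ G ∈ T, Equi F G :=
  bounded_distortion hX hch hm Ω (thin_of hX Ω hhom hthin hΩ) hc hL

end Pool.Agent.H5.BD

end
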