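import Pool.Agent.H94.CB.H14.V.MainV
import Pool.Agent.H94.CB.M83
import Pool.Agent.H94.CB.M85
import Pool.Agent.H94.CB.M92
import Pool.Agent.H94.CB.M93
import Pool.Agent.H94.CB.M97

/-! The parts of this file: H14.V.MainV_1, H14.V.FourV. -/

section

/-!
# V MainV: entire curves in surfaces of general type, in the projective space
-/

set_option autoImplicit false

open Topology Filter MvPolynomial Metric

noncomputable section

namespace Pool.Agent.H14.V

attribute [-instance] ProperSMul.toContinuousSMul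

open Pool.Agent.H17 (PN VanishesAt HolomorphicInto ZariskiClosedIn puncturedDisc)
open Pool.Agent.H62.FC (Homog)
open Pool.Agent.H17BP (Surface IsForm)
open Pool.Agent.H17LG.Variety (FunField IsLogGeneralType)
open Pool.Agent.H13.SM (conTan cone)
open Pool.Agent.H36.BP (EN fs wd formT isCone_transport tan_transport OrdTwo)
open Pool.Agent.H14.PP (IsCone Chart Form)
open Pool.Agent.H13.OT (OrderTwo)
open Pool.Agent.H17EF (projVar coneE LE GT prP prP_injective mk_symm mk_mem_projVar)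
open Pool.Agent.H62.EF (MN pr Charts)
open Pool.Agent.H92.TH (SymDiff)
open Pool.Agent.H5.BD (BC Equi evp)

variable {N : ℕ}

/-- The map `f` lies in a hypersurface which does not contain the variety of `P`. -/
def Degenerate (P : Ideal (MvPolynomial (Fin (N + 1)) ℂ)) (f : ℂ → PN N) : Prop :=
  ∃ (Q : MvPolynomial (Fin (N + 1)) ℂ) (d : ℕ), Q.IsHomogeneous d ∧ Q ∉ P ∧ ∀ z, VanishesAt Q (f z)

theorem IsLift.holomorphicInto {F : ℂ → EN N} {f : ℂ → PN N} (h : IsLift F f) : HolomorphicInto f Set.univ := by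
  intro z _
  refine ⟨fun z => (LE N).symm (F z), (((LE N).symm : EN N →L[ℂ] (Fin (N + 1) → ℂ)).analyticAt _).comp (h.1.analyticAt z), ?_⟩
  exact Eventually.of_forall fun w => h.2 w

theorem IsLift.ne_zero {F : ℂ → EN N} {f : ℂ → PN N} (h : IsLift F f) (z : ℂ) : F z ≠ 0 := by
  obtain ⟨h1, -⟩ := h.2 z
  exact fun h2 => h1 (by rw [h2]; rfl)

theorem IsLift.prP {F : ℂ → EN N} {f : ℂ → PN N} (h : IsLift F f) (z : ℂ) : prP (f z) = pr (F z) := by
  obtain ⟨h1, h2⟩ := h.2 z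
  rw [h2]
  exact mk_symm (F := F z) h1

theorem IsLift.comp {F : ℂ → EN N} {f : ℂ → PN N} (h : IsLift F f) (a b : ℂ) :
    IsLift (fun z => F (a * z + b)) fun z => f (a * z + b) :=
  ⟨h.1.comp ((differentiable_id.const_mul a).add_const b), fun z => h.2 (a * z + b)⟩

theorem exists_isLift {f : ℂ → PN N} (hf : HolomorphicInto f Set.univ) : ∃ F, IsLift F f := by
  obtain ⟨F, h1, h2⟩ := Pool.Agent.H17EF.exists_lift hf
  exact ⟨F, h1, h2⟩

theorem isLift_mk {F : ℂ → EN N} (hF : Differentiable ℂ F) (h0 : ∀ z, (F z).ofLp ≠ 0) :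
    IsLift F fun z => Projectivization.mk ℂ (F z).ofLp (h0 z) :=
  ⟨hF, fun z => ⟨h0 z, rfl⟩⟩

variable {P : Ideal (MvPolynomial (Fin (N + 1)) ℂ)} 

theorem IsLift.mem_iff (hP : Homog P) {F : ℂ → EN N} {f : ℂ → PN N} (h : IsLift F f) (z : ℂ) :
    f z ∈ projVar P ↔ F z ∈ coneE P := by
  obtain ⟨h1, h2⟩ := h.2 z
  rw [h2, mk_mem_projVar hP h1]
  rfl

/-- the theorem of helper5 on curves with bounded distortion, for the surface given by `P` -/
theorem bounded [P.IsPrime] {z : Fin 2 → FunField P} (hP : Homog P) (hz : IsTranscendenceBasis ℂ z)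
    (hsm : ∀ y : Fin (N + 1) → ℂ, y ≠ 0 → (∀ Q ∈ P, eval y Q = 0) → Module.finrank ℂ (conTan P y) ≤ 3) (hgt : GT P 2)
    {c : ℝ} (hc : 0 < c) (L : ℝ) :
    (∀ F ∈ BC (coneE P) c L, ∃ ω₁ ω₂ : ℂ, LinearIndependent ℝ ![ω₁, ω₂] ∧
      ∀ z, pr (F (z + ω₁)) = pr (F z) ∧ pr (F (z + ω₂)) = pr (F z)) ∧
      ∃ T : Finset (ℂ → EN N), (∀ G ∈ T, G ∈ BC (coneE P) c L) ∧ ∀ F ∈ BC (coneE P) c L, ∃ G ∈ T, Equi F G := by
  rcases le_or_gt L 0 with hL | hL
  · have h1 : ∀ F, F ∉ BC (coneE P) c L := fun F hF => by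
      have := hF.2.2 0
      linarith [this.1, this.2]
    exact ⟨fun F hF => absurd hF (h1 F), ∅, by simp, fun F hF => absurd hF (h1 F)⟩
  have hS : Surface (cone P) := Pool.Agent.H13.SM.surface_cone hP hz fun y hy => hsm y hy.1 hy.2
  have hLGT : Pool.Agent.H62.FC.LogGeneralType P ∅ 2 := by
    have h1 : (Pool.Agent.H62.FC.OnBoundary P ∅ (w := 2)) = fun _ => False := by
      funext E
      apply propext
      constructor
      · rintro ⟨j, -, -, i, hi, -⟩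
        exact absurd hi (Finset.notMem_empty i)
      · exact False.elim
    unfold Pool.Agent.H62.FC.LogGeneralType
    rw [h1]
    exact hgt
  obtain ⟨M, Om, D₀, Q₀, hM, hQ₀, hQ₀P, hOm, hnz⟩ := Pool.Agent.H68.KR.exists_form_of_smooth hP hz (fun y hy hyP => hsm y hy hyP) hLGT
  have hOm' : IsForm (cone P) M 1 Om := hOm
  refine Pool.Agent.H5.BD.curves_of_bounded_distortion (isCone_transport (LE N) hS) (Pool.Agent.H17EF.charts hS) hM (formT (LE N) hOm')
    (q := fun y => eval ((LE N).symm y) Q₀) (d := D₀) ?_ ?_ ?_ hc hL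
  · intro c x
    rw [map_smul, Pool.Agent.H17EF.eval_smul_form hQ₀]
  · intro x hx hev
    obtain ⟨σ, τ, hc, h0⟩ := hS.chart ((LE N).symm x) hx
    have h1 := Pool.Agent.H13.SM.frequently_ne_zero hP hz (fun y hy => hsm y hy.1 hy.2) hc hQ₀ hQ₀P
    apply h1
    have h2 : Tendsto (fun p => (LE N) (σ p)) (𝓝 (0 : ℂ × ℂ)) (𝓝 x) := by
      have h3 : ContinuousAt (fun p => (LE N) (σ p)) 0 := (LE N).continuous.continuousAt.comp hc.σ_an.continuousAt
      have h4 := h3.tendsto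
      rw [h0, ContinuousLinearEquiv.apply_symm_apply] at h4
      exact h4
    filter_upwards [h2.eventually hev, hc.σ_mem] with p hp hp'
    have h5 : (LE N) (σ p) ∈ coneE P := by
      show (LE N).symm ((LE N) (σ p)) ∈ cone P
      rw [ContinuousLinearEquiv.symm_apply_apply]
      exact hp'
    have h6 := hp h5
    rw [ContinuousLinearEquiv.symm_apply_apply] at h6
    simpa using h6
  · intro x hx hxT v w hv hw hind
    refine hnz ((LE N).symm x) hx ?_ _ (tan_transport (LE N) hv) _ (tan_transport (LE N) hw) ?_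
    · rintro ⟨h1, h2⟩
      exact hxT ⟨hx, h2⟩
    · have h3 := hind.map' ((LE N).symm : EN N →ₗ[ℂ] (Fin (N + 1) → ℂ)) (LinearMap.ker_eq_bot.2 (LE N).symm.injective)
      have h4 : (((LE N).symm : EN N →ₗ[ℂ] (Fin (N + 1) → ℂ)) ∘ ![x, v, w] : Fin 3 → Fin (N + 1) → ℂ) =
          ![(LE N).symm x, (LE N).symm v, (LE N).symm w] := by
        funext i
        fin_cases i <;> rfl
      rw [h4] at h3
      exact h3

/-- curves with bounded distortion, downstairs -/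
theorem mem_BC (hP : Homog P) {c L : ℝ} {F : ℂ → EN N} {f : ℂ → PN N} (h : IsLift F f) (hf : ∀ z, f z ∈ projVar P)
    (hF : ∀ z, c ≤ fs (F z) (deriv F z) ∧ fs (F z) (deriv F z) ≤ L) : F ∈ BC (coneE P) c L :=
  ⟨h.1, fun z => (h.mem_iff hP z).1 (hf z), hF⟩

theorem doublyPeriodic_of {F : ℂ → EN N} {f : ℂ → PN N} (h : IsLift F f) (hF : ∃ ω₁ ω₂ : ℂ, LinearIndependent ℝ ![ω₁, ω₂] ∧
      ∀ z, pr (F (z + ω₁)) = pr (F z) ∧ pr (F (z + ω₂)) = pr (F z)) : DoublyPeriodic f := by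
  obtain ⟨ω₁, ω₂, h1, h2⟩ := hF
  refine ⟨ω₁, ω₂, h1, fun z => ⟨prP_injective ?_, prP_injective ?_⟩⟩
  · rw [h.prP, h.prP, (h2 z).1]
  · rw [h.prP, h.prP, (h2 z).2]

/-- doubly periodic curves with bounded derivative are algebraically degenerate -/
theorem degenerate_of [P.IsPrime] {z : Fin 2 → FunField P} (hP : Homog P) (hz : IsTranscendenceBasis ℂ z)
    {F : ℂ → EN N} {f : ℂ → PN N} (h : IsLift F f) (hf : ∀ z, f z ∈ projVar P) {L : ℝ} (hL : ∀ z, fs (F z) (deriv F z) ≤ L)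
    (hper : DoublyPeriodic f) : Degenerate P f := by
  obtain ⟨ω₁, ω₂, hω, h2⟩ := hper
  have h1 : OrdTwo fun z => (LE N).symm (F z) := Pool.Agent.H17EF.ordTwo_symm (Pool.Agent.H17EF.ordTwo_of_fs h.1 h.ne_zero hL)
  have hperiod : ∀ ω, (∀ z, f (z + ω) = f z) → Pool.Agent.H17EF.IsPeriod (fun z => (LE N).symm (F z)) ω := by
    intro ω hω z
    obtain ⟨h3, h3'⟩ := h.2 (z + ω)
    obtain ⟨h4, h4'⟩ := h.2 z
    have h5 := hω z
    rw [h3', h4', Projectivization.mk_eq_mk_iff'] at h5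
    obtain ⟨a, ha⟩ := h5
    refine ⟨a, ?_, ha.symm⟩
    rintro rfl
    rw [zero_smul] at ha
    exact h3 ha.symm
  obtain ⟨Q, d, hQ, hQP, hQF⟩ := Pool.Agent.H17EF.exists_form_of_periodic hz ((LE N).symm.differentiable.comp h.1)
    (fun z => (h.2 z).1) h1 (fun z Q hQ => ((h.mem_iff hP z).1 (hf z)).2 Q hQ) hω
    (hperiod ω₁ fun z => (h2 z).1) (hperiod ω₂ fun z => (h2 z).2)
  refine ⟨Q, d, hQ, hQP, fun z => ?_⟩
  obtain ⟨h2, h2'⟩ := h.2 z
  rw [h2']
  obtain ⟨a, ha, hrep⟩ := Pool.Agent.H36.BP.rep_mk h2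
  unfold VanishesAt
  rw [hrep, Pool.Agent.H17EF.eval_smul_form hQ]
  have := hQF z
  exact mul_eq_zero_of_right _ this

/-- curves with bounded derivative have order at most two -/
theorem orderTwo_of {F : ℂ → EN N} {f : ℂ → PN N} (h : IsLift F f) {L : ℝ} (hL : ∀ z, fs (F z) (deriv F z) ≤ L) : OrderTwo f := by
  have h1 : OrdTwo fun z => (LE N).symm (F z) := Pool.Agent.H17EF.ordTwo_symm (Pool.Agent.H17EF.ordTwo_of_fs h.1 h.ne_zero hL)
  have h2 : Differentiable ℂ fun z => (LE N).symm (F z) := (LE N).symm.differentiable.comp h.1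
  have h3 : ∀ z, (LE N).symm (F z) ≠ 0 := fun z => (h.2 z).1
  have h4 : ∀ z, Pool.Agent.H17BP.HolP (fun z => (LE N).symm (F z)) z := by
    intro z
    exact ⟨fun z => (LE N).symm (F z), h2.analyticAt z, h3 z, Eventually.of_forall fun w => ⟨1, one_ne_zero, by simp⟩⟩
  have h5 := Pool.Agent.H13.OT.OrdTwo.orderTwo h3 h4 h1
  have h6 : f = fun z => Projectivization.mk ℂ ((LE N).symm (F z)) (h3 z) := by
    funext z
    exact (h.2 z).2
  rw [h6]
  exact h5

/-- a curve with positive derivative is not constant -/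
theorem nonconstant_of {F : ℂ → EN N} {f : ℂ → PN N} (h : IsLift F f) {c : ℝ} (hc : 0 < c) (hF : ∀ z, c ≤ fs (F z) (deriv F z)) :
    ∃ z w, f z ≠ f w := by
  by_contra hcon
  push Not at hcon
  have h1 : ∀ z, pr (F z) = pr (F 0) := fun z => by rw [← h.prP, ← h.prP, hcon z 0]
  -- the derivative of a constant curve is a multiple of the curve
  have h2 : ∀ z, ∃ a : ℂ, F z = a • F 0 := fun z => by
    obtain ⟨a, -, ha⟩ := (Pool.Agent.H62.EF.pr_eq_iff (h.ne_zero z) (h.ne_zero 0)).1 (h1 z)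
    exact ⟨a, ha⟩
  choose a ha using h2
  have h3 : ∃ b : ℂ, deriv F 0 = b • F 0 := by
    have hn : (inner ℂ (F 0) (F 0) : ℂ) ≠ 0 := by
      rw [inner_self_ne_zero]
      exact h.ne_zero 0
    have ha' : ∀ z, a z = (inner ℂ (F 0) (F 0) : ℂ)⁻¹ * inner ℂ (F 0) (F z) := fun z => by
      conv_rhs => rw [ha z, inner_smul_right]
      field_simp
    have hd : HasDerivAt (fun z => (inner ℂ (F 0) (F z) : ℂ)) (inner ℂ (F 0) (deriv F 0)) 0 :=
      ((innerSL ℂ (F 0)).hasFDerivAt.comp_hasDerivAt 0 (h.1 0).hasDerivAt)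
    have hda : HasDerivAt a ((inner ℂ (F 0) (F 0) : ℂ)⁻¹ * inner ℂ (F 0) (deriv F 0)) 0 := by
      have : a = fun z => (inner ℂ (F 0) (F 0) : ℂ)⁻¹ * inner ℂ (F 0) (F z) := funext ha'
      rw [this]
      exact hd.const_mul _
    have hdF : HasDerivAt F (((inner ℂ (F 0) (F 0) : ℂ)⁻¹ * inner ℂ (F 0) (deriv F 0)) • F 0) 0 := by
      exact (hda.smul_const (F 0)).congr_of_eventuallyEq (Eventually.of_forall ha)
    exact ⟨_, hdF.deriv⟩
  obtain ⟨b, hb⟩ := h3
  have h4 := hF 0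
  rw [hb, fs_smul_right] at h4
  have h5 : fs (F 0) (F 0) = 0 := by
    unfold fs wd
    rw [inner_self_eq_norm_sq_to_K]
    simp only [norm_pow, norm_algebraMap', norm_norm]
    rw [show ‖F 0‖ ^ 2 * ‖F 0‖ ^ 2 - (‖F 0‖ ^ 2) ^ 2 = 0 by ring, Real.sqrt_zero, zero_div]
  rw [h5, mul_zero] at h4
  linarith

end Pool.Agent.H14.V

end
end

section

/-!
# V FourV: the four properties
-/

set_option autoImplicit false

open Topology Filter MvPolynomial Metric

noncomputable section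

namespace Pool.Agent.H14.V

attribute [-instance] ProperSMul.toContinuousSMul

open Pool.Agent.H17 (PN VanishesAt HolomorphicInto ZariskiClosedIn puncturedDisc)
open Pool.Agent.H62.FC (Homog)
open Pool.Agent.H17BP (Surface IsForm)
open Pool.Agent.H17LG.Variety (FunField IsLogGeneralType)
open Pool.Agent.H13.SM (conTan cone)
open Pool.Agent.H36.BP (EN fs wd isCone_transport)
open Pool.Agent.H14.PP (IsCone Chart Form)
open Pool.Agent.H13.OT (OrderTwo)
open Pool.Agent.H14.KB (KobayashiHyperbolicModulo)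
open Pool.Agent.H17EF (projVar zariskiClosure coneE LE GT prP prP_injective mk_symm mk_mem_projVar)
open Pool.Agent.H62.EF (MN pr Charts)
open Pool.Agent.H92.TH (SymDiff)
open Pool.Agent.H5.BD (BC Equi evp)

variable {N : ℕ} {P : Ideal (MvPolynomial (Fin (N + 1)) ℂ)}

/-- the theorem on proper surfaces, for projective surfaces -/
theorem four_of_brody [P.IsPrime] {z : Fin 2 → FunField P} (hP : Homog P) (hz : IsTranscendenceBasis ℂ z)
    (hsm : ∀ y : Fin (N + 1) → ℂ, y ≠ 0 → (∀ Q ∈ P, eval y Q = 0) → Module.finrank ℂ (conTan P y) ≤ 3) (hgt : GT P 2)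
    {Ξ : Set (PN N)} (hcl : ZariskiClosedIn (projVar P) Ξ) (hpr : Ξ ≠ projVar P)
    (hbr : ∀ f : ℂ → PN N, HolomorphicInto f Set.univ → OrderTwo f → (∀ z, f z ∈ projVar P) → (∃ z w, f z ≠ f w) →
      ∀ z, f z ∈ Ξ) :
    (∀ f : ℂ → PN N, HolomorphicInto f Set.univ → (∀ z, f z ∈ projVar P) → (∃ z w, f z ≠ f w) → ∀ z, f z ∈ Ξ) ∧
    (∀ f : ℂ → PN N, HolomorphicInto f puncturedDisc → (∀ z ∈ puncturedDisc, f z ∈ projVar P) →
      (∃ z ∈ puncturedDisc, f z ∉ Ξ) →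
      ∃ g : ℂ → PN N, HolomorphicInto g (Metric.ball 0 1) ∧ ∀ z ∈ puncturedDisc, g z = f z) ∧
    (∀ (Q : Ideal (MvPolynomial (Fin (N + 1)) ℂ)) [Q.IsPrime], Homog Q → P ≤ Q → ¬ projVar Q ⊆ Ξ →
      ∀ k, 1 ≤ k → (∃ z : Fin k → FunField Q, IsTranscendenceBasis ℂ z) → GT Q k) ∧
    ∃ (Q : MvPolynomial (Fin (N + 1)) ℂ) (D : ℕ), Q.IsHomogeneous D ∧ (∃ x ∈ projVar P, ¬ VanishesAt Q x) ∧
      (∀ x ∈ Ξ, VanishesAt Q x) ∧ KobayashiHyperbolicModulo (projVar P) Q D := by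
  have hlv := Pool.Agent.H17EF.locVar_one P
  have hproper : Pool.Agent.H62.SA.IsProperMap P (fun _ : Fin 1 => (1 : MvPolynomial (Fin (N + 1)) ℂ))
      (fun _ (_ : Fin (0 + 1)) => 1) (fun _ => 0) := by
    refine ⟨fun _ _ => isHomogeneous_one _ _, fun _ => rfl, fun _ _ _ => ?_, fun x _ => ⟨0, 0, ?_⟩⟩
    · rw [mul_one, sub_self]
      exact P.zero_mem
    · unfold VanishesAt
      simp
  have hgt' : IsLogGeneralType (K := FunField P) (k := 2)
      (Pool.Agent.H62.SA.OnBd P (fun _ : Fin 1 => (1 : MvPolynomial (Fin (N + 1)) ℂ))) := by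
    rw [Pool.Agent.H17EF.onBd_one]
    exact hgt
  have hmain := Pool.Agent.H62.SA.proper_main (G := fun _ : Fin 1 => (1 : MvPolynomial (Fin (N + 1)) ℂ)) hP hz hsm hproper hgt'
    (Ξ := Ξ) (by rw [hlv]; exact hcl) (by rw [hlv]; exact hpr) (by rw [hlv]; exact hbr)
  rw [hlv] at hmain
  obtain ⟨hbrody, hpicard, hkob⟩ := hmain
  refine ⟨hbrody, hpicard, ?_, hkob⟩
  intro Q _ hQ hPQ hsub k hk hz'
  have h1 := Pool.Agent.H13.CV.strongly_of_brodyL P hP ⟨z, hz⟩ (G := fun _ : Fin 1 => (1 : MvPolynomial (Fin (N + 1)) ℂ))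
    (fun _ => ⟨0, isHomogeneous_one _ _⟩) (Ξ := Ξ) (by rw [hlv]; exact hcl) hgt' (by rw [hlv]; exact hbrody) Q hQ hPQ
    (by rw [Pool.Agent.H17EF.locVar_one]; exact hsub) k hk hz'
  rw [Pool.Agent.H17EF.onBd_one] at h1
  exact h1

/-- the union of the Zariski closures of finitely many degenerate curves is a proper closed subset -/
theorem closed_union_closure [P.IsPrime] {z : Fin 2 → FunField P} (hP : Homog P) (hz : IsTranscendenceBasis ℂ z)
    {T : Set (ℂ → PN N)} (hT : T.Finite) (hTX : ∀ g ∈ T, ∀ z, g z ∈ projVar P) (hTd : ∀ g ∈ T, Degenerate P g) :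
    ZariskiClosedIn (projVar P) (⋃ g ∈ T, zariskiClosure g) ∧ (⋃ g ∈ T, zariskiClosure g) ≠ projVar P := by
  refine ⟨Pool.Agent.H17EF.closed_biUnion hT fun g hg => Pool.Agent.H17EF.closed_zariskiClosure (hTX g hg), fun heq => ?_⟩
  have hX : ∃ i, (X i : MvPolynomial (Fin (N + 1)) ℂ) ∉ P := Pool.Agent.H62.FC.exists_X_notMem (r := 2) (by norm_num) ⟨z, hz⟩
  obtain ⟨R, n, hR, hRP, hRU⟩ := Pool.Agent.H17EF.exists_prod (P := P) hT (A := fun f => zariskiClosure f) (by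
    intro f hf
    obtain ⟨Q, d, hQ, hQP, hQf⟩ := hTd f hf
    exact ⟨Q, d, hQ, hQP, fun x hx => hx Q d hQ hQf⟩)
  obtain ⟨x, hx, hxR⟩ := Pool.Agent.H17EF.exists_point hP hX hRP hR
  apply hxR
  rw [← heq] at hx
  exact hRU x hx

/-- the set of the curves of a finite set of lifts -/
theorem finite_of_lifts (T : Finset (ℂ → EN N)) : {f : ℂ → PN N | ∃ G ∈ T, IsLift G f}.Finite := by
  refine Set.Finite.of_finite_image (f := fun (f : ℂ → PN N) z => prP (f z)) ((T.finite_toSet.image (fun G z => pr (G z))).subset ?_) ?_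
  · rintro _ ⟨f, ⟨G, hG, hGf⟩, rfl⟩
    refine ⟨G, hG, ?_⟩
    funext z
    exact (hGf.prP z).symm
  · intro f _ g _ h
    funext z
    exact prP_injective (congrFun h z)

/-- from the equivalence of lifts to the equivalence of curves -/
theorem eq_of_equi {F G : ℂ → EN N} {f g : ℂ → PN N} (hF : IsLift F f) (hG : IsLift G g) (h : Equi F G) :
    ∃ a b : ℂ, a ≠ 0 ∧ ∀ z, f z = g (a * z + b) := by
  obtain ⟨a, b, ha, h⟩ := h
  refine ⟨a, b, ha, fun z => prP_injective ?_⟩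
  rw [hF.prP, hG.prP]
  exact h z

/-- a lift of a curve in `BC` -/
theorem exists_curve (hP : Homog P) {c L : ℝ} {G : ℂ → EN N} (hG : G ∈ BC (coneE P) c L) :
    ∃ g, IsLift G g ∧ ∀ z, g z ∈ projVar P := by
  have h0 : ∀ z, (G z).ofLp ≠ 0 := fun z => (hG.2.1 z).1
  refine ⟨_, isLift_mk hG.1 h0, fun z => ?_⟩
  exact ((isLift_mk hG.1 h0).mem_iff hP z).2 (hG.2.1 z)

section

variable [P.IsPrime] {z : Fin 2 → FunField P}

/-- **Curves with bounded distortion.** -/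
theorem partA (hP : Homog P) (hz : IsTranscendenceBasis ℂ z)
    (hsm : ∀ y : Fin (N + 1) → ℂ, y ≠ 0 → (∀ Q ∈ P, eval y Q = 0) → Module.finrank ℂ (conTan P y) ≤ 3) (hgt : GT P 2)
    {c : ℝ} (hc : 0 < c) (L : ℝ) :
    (∀ f ∈ boundedDistortion (projVar P) c L, DoublyPeriodic f ∧ Degenerate P f) ∧
    ∃ T : Set (ℂ → PN N), T.Finite ∧ T ⊆ boundedDistortion (projVar P) c L ∧
      ∀ f ∈ boundedDistortion (projVar P) c L, ∃ g ∈ T, ∃ a b : ℂ, a ≠ 0 ∧ ∀ z, f z = g (a * z + b) := by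
  obtain ⟨h1, T, hT, h2⟩ := bounded hP hz hsm hgt hc L
  constructor
  · rintro f ⟨hfX, F, hF, hFb⟩
    have h3 := doublyPeriodic_of hF (h1 F (mem_BC hP hF hfX hFb))
    exact ⟨h3, degenerate_of hP hz hF hfX (fun z => (hFb z).2) h3⟩
  · refine ⟨{f | ∃ G ∈ T, IsLift G f}, finite_of_lifts T, ?_, ?_⟩
    · rintro f ⟨G, hG, hGf⟩
      have h3 := hT G hG
      exact ⟨fun z => (hGf.mem_iff hP z).2 (h3.2.1 z), G, hGf, h3.2.2⟩
    · rintro f ⟨hfX, F, hF, hFb⟩
      obtain ⟨G, hG, hFG⟩ := h2 F (mem_BC hP hF hfX hFb)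
      obtain ⟨g, hg, hgX⟩ := exists_curve hP (hT G hG)
      exact ⟨g, ⟨G, hG, hg⟩, eq_of_equi hF hg hFG⟩

end

end Pool.Agent.H14.V

end
end
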