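import Pool.Agent.H94.CB.M41
import Pool.Agent.H94.CB.M52
import Pool.Agent.H94.CB.M53

/-! The parts of this file: H13.SM.Bdd, H13.SM.Lift, H13.SM.Open, H13.SM.Dense, H13.SM.Aff. -/

section

/-!
# The projection is proper with finite fibres

PROOF.  For every `i` let `p i` be the monic polynomial of `exists_monic hint (X i)`.  By `root_at` (with
`Z = X i`), for every point `w` of the variety `w i` is a root of `(p i).map (eval y)`, `y j = eval w (B
j)`, a monic polynomial.

`finite_fiber`: for fixed `y` there are finitely many roots for each `i` (`Set.Finite.pi`,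
`Polynomial.finite_setOf_isRoot` or `Multiset`/`rootSet`).

`bdd_near`: a root `t` of a monic polynomial `t^d + c_{d-1} t^{d-1} + ... + c_0` satisfies `‖t‖ ≤ 1 +
∑ ‖c_k‖` (if `‖t‖ > 1` divide `t^d = -∑ c_k t^k` by `t^{d-1}`; or `Polynomial.IsRoot.norm_lt_cauchyBound`),
and the `c_k` are continuous functions of `y`, so they are bounded near `y₀`; take the maximum over `i`.
-/

open MvPolynomial Topology

noncomputable section

namespace Pool.Agent.H13.SM

attribute [-instance] ProperSMul.toContinuousSMul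

variable {ι K : Type} [Field K] [Algebra ℂ K]

private theorem Bdd_root {q : Polynomial ℂ} (hq : q.Monic) {t : ℂ} (ht : q.eval t = 0) :
    ‖t‖ ≤ ∑ k ∈ Finset.range q.natDegree, ‖q.coeff k‖ + 1 := by
  have h1 := Polynomial.IsRoot.norm_lt_cauchyBound hq.ne_zero ht
  have h2 : Polynomial.cauchyBound q ≤ ∑ k ∈ Finset.range q.natDegree, ‖q.coeff k‖₊ + 1 := by
    unfold Polynomial.cauchyBound
    rw [hq.leadingCoeff, nnnorm_one, div_one]
    gcongr
    exact Finset.sup_le fun k hk => Finset.single_le_sum (f := fun k => ‖q.coeff k‖₊) (fun _ _ => zero_le) hk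
  have h3 : ‖t‖₊ ≤ ∑ k ∈ Finset.range q.natDegree, ‖q.coeff k‖₊ + 1 := h1.le.trans h2
  have h4 : (‖t‖₊ : ℝ) ≤ ((∑ k ∈ Finset.range q.natDegree, ‖q.coeff k‖₊ + 1 : NNReal) : ℝ) := by
    exact_mod_cast h3
  rw [NNReal.coe_add, NNReal.coe_sum, NNReal.coe_one] at h4
  exact h4

theorem finite_fiber [Finite ι] {a : ι → K} {n : ℕ} {b : Fin n → K}
    {B : Fin n → MvPolynomial ι ℂ} (hB : ∀ j, aeval a (B j) = b j)
    (hint : ∀ i, IsIntegral (Algebra.adjoin ℂ (Set.range b)) (a i)) (y₀ : Fin n → ℂ) :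
    {w | w ∈ pts a ∧ ∀ j, eval w (B j) = y₀ j}.Finite := by
  choose p hpm hp using fun i => exists_monic hint (X i : MvPolynomial ι ℂ)
  have hfin : {w : ι → ℂ | ∀ i, w i ∈ {t : ℂ | ((p i).map (eval y₀)).IsRoot t}}.Finite :=
    Set.Finite.pi' fun i => Polynomial.finite_setOfPred_isRoot ((hpm i).map _).ne_zero
  refine hfin.subset ?_
  rintro w ⟨hw, hwy⟩ i
  have h1 := root_at hB (hp i) hw
  rw [eval_X] at h1
  have h2 : (fun j => eval w (B j)) = y₀ := funext hwy
  rw [h2] at h1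
  exact h1

theorem bdd_near [Finite ι] {a : ι → K} {n : ℕ} {b : Fin n → K}
    {B : Fin n → MvPolynomial ι ℂ} (hB : ∀ j, aeval a (B j) = b j)
    (hint : ∀ i, IsIntegral (Algebra.adjoin ℂ (Set.range b)) (a i)) (y₀ : Fin n → ℂ) :
    ∃ C : ℝ, ∀ᶠ y in 𝓝 y₀, ∀ w ∈ pts a, (∀ j, eval w (B j) = y j) → ∀ i, ‖w i‖ ≤ C := by
  choose p hpm hp using fun i => exists_monic hint (X i : MvPolynomial ι ℂ)
  cases nonempty_fintype ι
  have hcont : ∀ i, Continuous fun y : Fin n → ℂ =>
      ∑ k ∈ Finset.range (p i).natDegree, ‖eval y ((p i).coeff k)‖ + 1 := by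
    intro i
    exact (continuous_finsetSum _ fun k _ => (MvPolynomial.continuous_eval _).norm).add continuous_const
  have hS : ∀ i, 0 ≤ ∑ k ∈ Finset.range (p i).natDegree, ‖eval y₀ ((p i).coeff k)‖ + 1 := by
    intro i
    positivity
  refine ⟨∑ i, (∑ k ∈ Finset.range (p i).natDegree, ‖eval y₀ ((p i).coeff k)‖ + 1 + 1), ?_⟩
  have hev : ∀ᶠ y in 𝓝 y₀, ∀ i, ∑ k ∈ Finset.range (p i).natDegree, ‖eval y ((p i).coeff k)‖ + 1 <
      ∑ k ∈ Finset.range (p i).natDegree, ‖eval y₀ ((p i).coeff k)‖ + 1 + 1 := by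
    rw [Filter.eventually_all]
    intro i
    exact (hcont i).continuousAt.eventually_lt continuousAt_const (by simp)
  filter_upwards [hev] with y hy w hw hwy i
  have h1 := root_at hB (hp i) hw
  rw [eval_X] at h1
  have h2 : (fun j => eval w (B j)) = y := funext hwy
  rw [h2] at h1
  have h3 := Bdd_root ((hpm i).map (eval y)) h1
  rw [(hpm i).natDegree_map] at h3
  simp only [Polynomial.coeff_map] at h3
  refine (h3.trans (hy i).le).trans ?_
  exact Finset.single_le_sum (f := fun i => ∑ k ∈ Finset.range (p i).natDegree, ‖eval y₀ ((p i).coeff k)‖ + 1 + 1)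
    (fun i _ => by have := hS i; positivity) (Finset.mem_univ i)

end Pool.Agent.H13.SM

end
end

section

/-!
# Lying over

PROOF of `exists_lift`.  Let `R = MvPolynomial (Fin n) ℂ`, which maps to
`A = Algebra.adjoin ℂ (Set.range a)` by `X j ↦ b j`; this map is injective and integral
(`exists_monic`).  `ζ = aeval a Z` is an element of `A`, `μ = minpoly R ζ`: it is monic and, `R` being
integrally closed, it divides each polynomial with root `ζ`, so `AdjoinRoot μ → A` is injective.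

Let `y', T'` satisfy `(μ.map (eval y')).eval T' = 0`.  `AdjoinRoot.lift` gives a ring hom
`χ : AdjoinRoot μ →+* ℂ` with `χ (X j) = y' j`, `χ root = T'` and which is the identity on `ℂ`.  It is
surjective, so its kernel `M` is a maximal ideal.  By `Ideal.exists_ideal_over_maximal_of_isIntegral`
there is a maximal ideal `Q` of `A` over `M`.  `A ⧸ Q` is a field and a `ℂ`-algebra of finite type, so
it is finite over `ℂ` and `algebraMap ℂ (A ⧸ Q)` is bijective.  This gives `φ : A →ₐ[ℂ] ℂ` with kernel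
`Q`, and `φ s = χ s` for `s` in `AdjoinRoot μ`.  The point of `φ` (`exists_pt_of_algHom`) has
`eval w (B j) = φ (b j) = y' j` and `eval w Z = φ ζ = T'`.
-/

open MvPolynomial

noncomputable section

namespace Pool.Agent.H13.SM

attribute [-instance] ProperSMul.toContinuousSMul

variable {ι K : Type} [Field K] [Algebra ℂ K]

/-- A maximal ideal of a `ℂ`-algebra of finite type is the kernel of an algebra hom to `ℂ`. -/
private theorem Lift_exists_algHom {A : Type} [CommRing A] [Algebra ℂ A] [Algebra.FiniteType ℂ A]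
    (Q : Ideal A) [hQ : Q.IsMaximal] : ∃ φ : A →ₐ[ℂ] ℂ, ∀ x, φ x = 0 ↔ x ∈ Q := by
  let : Field (A ⧸ Q) := Ideal.Quotient.field Q
  have : Module.Finite ℂ (A ⧸ Q) := finite_of_finite_type_of_isJacobsonRing ℂ (A ⧸ Q)
  have : Algebra.IsIntegral ℂ (A ⧸ Q) := Algebra.IsIntegral.of_finite ℂ (A ⧸ Q)
  have hbij : Function.Bijective (algebraMap ℂ (A ⧸ Q)) :=
    IsAlgClosed.algebraMap_bijective_of_isIntegral
  let e : ℂ ≃ₐ[ℂ] (A ⧸ Q) := AlgEquiv.ofBijective (Algebra.ofId ℂ (A ⧸ Q)) hbij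
  refine ⟨(e.symm : (A ⧸ Q) →ₐ[ℂ] ℂ).comp (Ideal.Quotient.mkₐ ℂ Q), fun x => ?_⟩
  have h1 : ((e.symm : (A ⧸ Q) →ₐ[ℂ] ℂ).comp (Ideal.Quotient.mkₐ ℂ Q)) x
      = e.symm (Ideal.Quotient.mk Q x) := rfl
  rw [h1, map_eq_zero_iff _ e.symm.injective, Ideal.Quotient.eq_zero_iff_mem]

/-- There is a monic polynomial `μ` for `Z` such that each root of a specialisation of `μ` is
attained at a point of the variety. -/
theorem exists_lift [Finite ι] {a : ι → K} {n : ℕ} {b : Fin n → K} (hb : AlgebraicIndependent ℂ b)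
    {B : Fin n → MvPolynomial ι ℂ} (hB : ∀ j, aeval a (B j) = b j)
    (hint : ∀ i, IsIntegral (Algebra.adjoin ℂ (Set.range b)) (a i)) (Z : MvPolynomial ι ℂ) :
    ∃ μ : Polynomial (MvPolynomial (Fin n) ℂ), μ.Monic ∧
      (μ.map (aeval b : MvPolynomial (Fin n) ℂ →ₐ[ℂ] K).toRingHom).eval (aeval a Z) = 0 ∧
      ∀ (y' : Fin n → ℂ) (T' : ℂ), (μ.map (eval y')).eval T' = 0 →
        ∃ w ∈ pts a, (∀ j, eval w (B j) = y' j) ∧ eval w Z = T' := by
  classical
  have hbA : ∀ j, b j ∈ Algebra.adjoin ℂ (Set.range a) := fun j => by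
    rw [← hB j]; exact aeval_mem_adjoin a (B j)
  -- the ring hom from R to A
  let ρ : MvPolynomial (Fin n) ℂ →ₐ[ℂ] Algebra.adjoin ℂ (Set.range a) :=
    aeval (fun j => (⟨b j, hbA j⟩ : Algebra.adjoin ℂ (Set.range a)))
  have hρ : (Algebra.adjoin ℂ (Set.range a)).val.comp ρ = aeval b := by
    apply MvPolynomial.algHom_ext
    intro j
    simp [ρ]
  have hρ' : ∀ q, ((ρ q : Algebra.adjoin ℂ (Set.range a)) : K) = aeval b q := fun q => by
    rw [← hρ]; rfl
  have hinj : Function.Injective ρ := by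
    intro q q' h
    apply hb
    rw [← hρ' q, ← hρ' q', h]
  let alg : Algebra (MvPolynomial (Fin n) ℂ) (Algebra.adjoin ℂ (Set.range a)) :=
    ρ.toRingHom.toAlgebra
  have halg : ∀ q, algebraMap (MvPolynomial (Fin n) ℂ) (Algebra.adjoin ℂ (Set.range a)) q = ρ q :=
    fun q => rfl
  have : FaithfulSMul (MvPolynomial (Fin n) ℂ) (Algebra.adjoin ℂ (Set.range a)) :=
    (faithfulSMul_iff_algebraMap_injective _ _).2 hinj
  -- integrality
  have hI : ∀ x : Algebra.adjoin ℂ (Set.range a), IsIntegral (MvPolynomial (Fin n) ℂ) x := by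
    intro x
    obtain ⟨x, hx⟩ := x
    obtain ⟨Q, hQ⟩ : ∃ Q : MvPolynomial ι ℂ, aeval a Q = x := by
      rw [Algebra.adjoin_range_eq_range_aeval] at hx
      exact hx
    obtain ⟨p, hp, hp0⟩ := exists_monic hint Q
    refine ⟨p, hp, ?_⟩
    apply Subtype.coe_injective
    have h1 := Polynomial.hom_eval₂ p (algebraMap (MvPolynomial (Fin n) ℂ)
      (Algebra.adjoin ℂ (Set.range a))) (Algebra.adjoin ℂ (Set.range a)).val.toRingHom ⟨x, hx⟩
    have h2 : (Algebra.adjoin ℂ (Set.range a)).val.toRingHom.comp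
        (algebraMap (MvPolynomial (Fin n) ℂ) (Algebra.adjoin ℂ (Set.range a)))
        = (aeval b : MvPolynomial (Fin n) ℂ →ₐ[ℂ] K).toRingHom := by
      ext q
      · exact hρ' _
      · exact hρ' _
    rw [h2] at h1
    rw [Polynomial.eval_map, hQ] at hp0
    exact h1.trans hp0
  have : Algebra.IsIntegral (MvPolynomial (Fin n) ℂ) (Algebra.adjoin ℂ (Set.range a)) := ⟨hI⟩
  let ζ : Algebra.adjoin ℂ (Set.range a) := ⟨aeval a Z, aeval_mem_adjoin a Z⟩
  let μ : Polynomial (MvPolynomial (Fin n) ℂ) := minpoly (MvPolynomial (Fin n) ℂ) ζ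
  have hμ : μ.Monic := minpoly.monic (hI ζ)
  have hμ0 : μ.eval₂ (algebraMap (MvPolynomial (Fin n) ℂ) (Algebra.adjoin ℂ (Set.range a))) ζ = 0 :=
    minpoly.aeval (MvPolynomial (Fin n) ℂ) ζ
  refine ⟨μ, hμ, ?_, ?_⟩
  · have h1 := Polynomial.hom_eval₂ μ (algebraMap (MvPolynomial (Fin n) ℂ)
      (Algebra.adjoin ℂ (Set.range a))) (Algebra.adjoin ℂ (Set.range a)).val.toRingHom ζ
    have h2 : (Algebra.adjoin ℂ (Set.range a)).val.toRingHom.comp
        (algebraMap (MvPolynomial (Fin n) ℂ) (Algebra.adjoin ℂ (Set.range a)))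
        = (aeval b : MvPolynomial (Fin n) ℂ →ₐ[ℂ] K).toRingHom := by
      ext q
      · exact hρ' _
      · exact hρ' _
    rw [h2, hμ0, map_zero] at h1
    rw [Polynomial.eval_map]
    exact h1.symm
  · intro y' T' hT
    rw [Polynomial.eval_map] at hT
    let χ : AdjoinRoot μ →+* ℂ := AdjoinRoot.lift (eval y') T' hT
    let θ : AdjoinRoot μ →+* Algebra.adjoin ℂ (Set.range a) :=
      AdjoinRoot.lift (algebraMap (MvPolynomial (Fin n) ℂ) (Algebra.adjoin ℂ (Set.range a))) ζ hμ0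
    have hχof : ∀ q, χ (AdjoinRoot.of μ q) = eval y' q := fun q => AdjoinRoot.lift_of hT
    have hχroot : χ (AdjoinRoot.root μ) = T' := AdjoinRoot.lift_root hT
    have hθof : ∀ q, θ (AdjoinRoot.of μ q) = ρ q := fun q => AdjoinRoot.lift_of hμ0
    have hθroot : θ (AdjoinRoot.root μ) = ζ := AdjoinRoot.lift_root hμ0
    have hsurj : Function.Surjective χ := by
      intro c
      refine ⟨AdjoinRoot.of μ (C c), ?_⟩
      rw [hχof, eval_C]
    have hM : (RingHom.ker χ).IsMaximal := RingHom.ker_isMaximal_of_surjective χ hsurj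
    let algθ : Algebra (AdjoinRoot μ) (Algebra.adjoin ℂ (Set.range a)) := θ.toAlgebra
    have : IsScalarTower (MvPolynomial (Fin n) ℂ) (AdjoinRoot μ)
        (Algebra.adjoin ℂ (Set.range a)) := by
      apply IsScalarTower.of_algebraMap_eq
      intro q
      exact (hθof q).symm
    have : Algebra.IsIntegral (AdjoinRoot μ) (Algebra.adjoin ℂ (Set.range a)) :=
      Algebra.IsIntegral.tower_top (MvPolynomial (Fin n) ℂ)
    have hker : RingHom.ker (algebraMap (AdjoinRoot μ) (Algebra.adjoin ℂ (Set.range a)))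
        ≤ RingHom.ker χ := by
      intro s hs
      obtain ⟨p, rfl⟩ := AdjoinRoot.mk_surjective s
      have h1 : Polynomial.aeval ζ p = 0 := by
        have h2 : θ (AdjoinRoot.mk μ p) = 0 := hs
        rwa [AdjoinRoot.lift_mk] at h2
      have h3 : μ ∣ p := minpoly.isIntegrallyClosed_dvd (hI ζ) h1
      have h4 : AdjoinRoot.mk μ p = 0 := AdjoinRoot.mk_eq_zero.2 h3
      rw [h4]
      exact Ideal.zero_mem _
    obtain ⟨Q, hQ, hQM⟩ := Ideal.exists_ideal_over_maximal_of_isIntegral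
      (S := Algebra.adjoin ℂ (Set.range a)) (RingHom.ker χ) hker
    have := hQ
    have : Algebra.FiniteType ℂ (Algebra.adjoin ℂ (Set.range a)) :=
      (Subalgebra.fg_iff_finiteType _).1 (Subalgebra.fg_def.2 ⟨_, Set.finite_range a, rfl⟩)
    obtain ⟨φ, hφ⟩ := Lift_exists_algHom (A := Algebra.adjoin ℂ (Set.range a)) Q
    have hφθ : ∀ s : AdjoinRoot μ, φ (θ s) = χ s := by
      intro s
      have h1 : s - AdjoinRoot.of μ (C (χ s)) ∈ RingHom.ker χ := by
        rw [RingHom.mem_ker, map_sub, hχof, eval_C, sub_self]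
      rw [← hQM, Ideal.mem_comap] at h1
      have h2 := (hφ _).2 h1
      have h3 : algebraMap (AdjoinRoot μ) (Algebra.adjoin ℂ (Set.range a))
          (s - AdjoinRoot.of μ (C (χ s))) = θ s - algebraMap ℂ _ (χ s) := by
        show θ _ = _
        rw [map_sub, hθof]
        congr 1
        show ρ (C (χ s)) = _
        rw [← MvPolynomial.algebraMap_eq, AlgHom.commutes]
      rw [h3, map_sub, AlgHom.commutes, sub_eq_zero] at h2
      exact h2
    obtain ⟨w, hw, hwφ⟩ := exists_pt_of_algHom a φ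
    refine ⟨w, hw, fun j => ?_, ?_⟩
    · rw [hwφ]
      have h1 : (⟨aeval a (B j), aeval_mem_adjoin a (B j)⟩ : Algebra.adjoin ℂ (Set.range a))
          = θ (AdjoinRoot.of μ (X j)) := by
        rw [hθof]
        apply Subtype.coe_injective
        show aeval a (B j) = ((ρ (X j) : Algebra.adjoin ℂ (Set.range a)) : K)
        rw [hρ', aeval_X]
        exact hB j
      rw [h1, hφθ, hχof, eval_X]
    · rw [hwφ]
      have h1 : (⟨aeval a Z, aeval_mem_adjoin a Z⟩ : Algebra.adjoin ℂ (Set.range a))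
          = θ (AdjoinRoot.root μ) := hθroot.symm
      rw [h1, hφθ, hχroot]

end Pool.Agent.H13.SM

end
end

section

/-!
# The projection is open

PROOF of `exists_small_root`.  All roots with `ε ≤ ‖t‖` would give `ε ^ d ≤ ∏ ‖t‖ = ‖p.coeff 0‖`
(`Polynomial.coeff_zero_eq_prod_roots_of_monic_of_splits` or similar, `d = p.natDegree`).

PROOF of `exists_separating`.  For every point `w'` of the finite set `F` with `w' ≠ w` choose `i` with
`w' i ≠ w i` and let `u w' = C (w i - w' i)⁻¹ * (X i - C (w' i))`: it is `1` at `w` and `0` at `w'`.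
`Z = 1 - ∏_{w' ∈ F, w' ≠ w} u w'`.

PROOF of `open_at`.  Let `y₀ j = eval w (B j)`.  Let `Z` be separating for the fibre over `y₀`
(`finite_fiber`) and let `μ` be as in `exists_lift` for `Z`.  `U` contains an open `U₀ ∋ w`.  Let `C` be
as in `bdd_near`.  The set `L = {w' ∈ pts a | w' ∉ U₀, ∀ i, ‖w' i‖ ≤ C}` is compact
(`isClosed_pts`, bounded), and the continuous function
`w' ↦ ∑ j, ‖eval w' (B j) - y₀ j‖ + ‖eval w' Z‖` is positive on it (a zero would be a point of the
fibre with `Z = 0`, so it would be `w ∈ U₀`), so it is `≥ δ > 0` on `L` (if `L` is empty take `δ = 1`).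
`(μ.map (eval y₀)).eval 0 = 0` by `root_at` (`eval w Z = 0`), so the coefficient
`eval y (μ.coeff 0)` tends to `0` as `y → y₀` and `1 ≤ μ.natDegree` (`μ` is monic and a specialisation
has a root).  So for `y` near `y₀`: `∑ j, ‖y j - y₀ j‖ < δ / 2`, the bound of `bdd_near` holds and
`‖eval y (μ.coeff 0)‖ < (δ / 2) ^ μ.natDegree`.  By `exists_small_root` there is a root `T` of
`μ.map (eval y)` (monic of the same degree) with `‖T‖ < δ / 2`, and by `exists_lift` a point
`w' ∈ pts a` with `eval w' (B j) = y j`, `eval w' Z = T`.  It is not in `L`, so it is in `U₀`.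
-/

open MvPolynomial Topology

noncomputable section

namespace Pool.Agent.H13.SM

attribute [-instance] ProperSMul.toContinuousSMul

variable {ι K : Type} [Field K] [Algebra ℂ K]

private theorem pow_le_prod_norm {ε : ℝ} (hε : 0 < ε) (s : Multiset ℂ) :
    (∀ t ∈ s, ε ≤ ‖t‖) → ε ^ s.card ≤ ‖s.prod‖ := by
  induction s using Multiset.induction_on with
  | empty => intro _; simp
  | cons a s ih =>
    intro h
    rw [Multiset.card_cons, Multiset.prod_cons, norm_mul, pow_succ']
    exact mul_le_mul (h a (Multiset.mem_cons_self a s))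
      (ih fun t ht => h t (Multiset.mem_cons_of_mem ht)) (by positivity) (norm_nonneg _)

theorem exists_small_root {p : Polynomial ℂ} (hp : p.Monic) (hd : 1 ≤ p.natDegree) {ε : ℝ}
    (hε : 0 < ε) (h : ‖p.coeff 0‖ < ε ^ p.natDegree) : ∃ t : ℂ, p.eval t = 0 ∧ ‖t‖ < ε := by
  have _ := hd
  by_contra hcon
  push Not at hcon
  have hs : p.Splits := IsAlgClosed.splits p
  have h1 : p.coeff 0 = (-1) ^ p.natDegree * p.roots.prod :=
    hs.coeff_zero_eq_prod_roots_of_monic hp
  have h2 : ε ^ p.roots.card ≤ ‖p.roots.prod‖ :=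
    pow_le_prod_norm hε _ fun t ht => hcon t (Polynomial.isRoot_of_mem_roots ht)
  rw [← hs.natDegree_eq_card_roots] at h2
  rw [h1, norm_mul, norm_pow, norm_neg, norm_one, one_pow, one_mul] at h
  exact absurd h2 (not_le.2 h)

theorem exists_separating {F : Set (ι → ℂ)} (hF : F.Finite) (w : ι → ℂ) :
    ∃ Z : MvPolynomial ι ℂ, eval w Z = 0 ∧ ∀ w' ∈ F, w' ≠ w → eval w' Z ≠ 0 := by
  classical
  have h1 : ∀ w' : ι → ℂ, w' ≠ w → ∃ Y : MvPolynomial ι ℂ, eval w Y = 1 ∧ eval w' Y = 0 := by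
    intro w' hne
    obtain ⟨i, hi⟩ := Function.ne_iff.1 hne
    refine ⟨C (w i - w' i)⁻¹ * (X i - C (w' i)), ?_, ?_⟩
    · have h3 : w i - w' i ≠ 0 := sub_ne_zero.2 (Ne.symm hi)
      simp [h3]
    · simp
  choose! u hu1 hu0 using h1
  refine ⟨1 - ∏ w' ∈ hF.toFinset.filter (fun w' => w' ≠ w), u w', ?_, ?_⟩
  · rw [map_sub, map_one, map_prod, Finset.prod_eq_one, sub_self]
    intro w' hw'
    exact hu1 w' (Finset.mem_filter.1 hw').2
  · intro w' hw' hne
    rw [map_sub, map_one, map_prod,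
      Finset.prod_eq_zero (Finset.mem_filter.2 ⟨hF.mem_toFinset.2 hw', hne⟩) (hu0 w' hne), sub_zero]
    exact one_ne_zero

/-- The finite projection `w ↦ (B j)(w)` is open. -/
theorem open_at [Finite ι] {a : ι → K} {n : ℕ} {b : Fin n → K} (hb : AlgebraicIndependent ℂ b)
    {B : Fin n → MvPolynomial ι ℂ} (hB : ∀ j, aeval a (B j) = b j)
    (hint : ∀ i, IsIntegral (Algebra.adjoin ℂ (Set.range b)) (a i)) {w : ι → ℂ} (hw : w ∈ pts a)
    {U : Set (ι → ℂ)} (hU : U ∈ 𝓝 w) :
    (fun w' j => eval w' (B j)) '' (pts a ∩ U) ∈ 𝓝 (fun j => eval w (B j)) := by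
  have hF := finite_fiber hB hint (fun j => eval w (B j))
  obtain ⟨Z, hZw, hZ⟩ := exists_separating hF w
  obtain ⟨μ, hμm, hμr, hμl⟩ := exists_lift hb hB hint Z
  obtain ⟨U₀, hU₀U, hU₀o, hwU₀⟩ := mem_nhds_iff.1 hU
  obtain ⟨C, hC⟩ := bdd_near hB hint (fun j => eval w (B j))
  have hroot := root_at hB hμr hw
  rw [hZw] at hroot
  have hdeg : 1 ≤ μ.natDegree := by
    by_contra hlt
    have h0 : μ = 1 := by
      rw [Nat.not_le, Nat.lt_one_iff] at hlt
      exact Polynomial.eq_one_of_monic_natDegree_zero hμm hlt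
    rw [h0, Polynomial.map_one, Polynomial.eval_one] at hroot
    exact one_ne_zero hroot
  -- the compact set of the points outside `U₀`
  have hLc : IsCompact ({w' : ι → ℂ | w' ∈ pts a ∧ w' ∉ U₀ ∧ ∀ i, ‖w' i‖ ≤ C}) := by
    have hK : IsCompact (Set.pi Set.univ fun _ : ι => Metric.closedBall (0 : ℂ) C) :=
      isCompact_univ_pi fun _ => isCompact_closedBall _ _
    refine hK.of_isClosed_subset ?_ ?_
    · have e1 : {w' : ι → ℂ | w' ∈ pts a ∧ w' ∉ U₀ ∧ ∀ i, ‖w' i‖ ≤ C} =
          pts a ∩ (U₀ᶜ ∩ ⋂ i, {w' : ι → ℂ | ‖w' i‖ ≤ C}) := by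
        ext w'
        simp only [Set.mem_ofPred_eq, Set.mem_inter_iff, Set.mem_compl_iff, Set.mem_iInter]
      rw [e1]
      refine (isClosed_pts a).inter (hU₀o.isClosed_compl.inter (isClosed_iInter fun i => ?_))
      exact isClosed_le ((continuous_apply i).norm) continuous_const
    · intro w' hw' i _
      rw [mem_closedBall_zero_iff]
      exact hw'.2.2 i
  have hgc : Continuous fun w' : ι → ℂ =>
      (∑ j, ‖eval w' (B j) - eval w (B j)‖) + ‖eval w' Z‖ :=
    (continuous_finsetSum _ fun j _ =>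
      ((MvPolynomial.continuous_eval (B j)).sub continuous_const).norm).add
      (MvPolynomial.continuous_eval Z).norm
  have hδ : ∃ δ : ℝ, 0 < δ ∧ ∀ w' ∈ {w' : ι → ℂ | w' ∈ pts a ∧ w' ∉ U₀ ∧ ∀ i, ‖w' i‖ ≤ C},
      δ ≤ (∑ j, ‖eval w' (B j) - eval w (B j)‖) + ‖eval w' Z‖ := by
    rcases Set.eq_empty_or_nonempty
      {w' : ι → ℂ | w' ∈ pts a ∧ w' ∉ U₀ ∧ ∀ i, ‖w' i‖ ≤ C} with he | hne
    · refine ⟨1, one_pos, fun w' hw' => ?_⟩
      rw [he] at hw'
      exact absurd hw' (Set.notMem_empty _)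
    · obtain ⟨w₁, hw₁, hmin⟩ := hLc.exists_isMinOn hne hgc.continuousOn
      refine ⟨_, ?_, fun w' hw' => hmin hw'⟩
      by_contra hle
      have hs0 : 0 ≤ ∑ j, ‖eval w₁ (B j) - eval w (B j)‖ :=
        Finset.sum_nonneg fun _ _ => norm_nonneg _
      have hz0 : 0 ≤ ‖eval w₁ Z‖ := norm_nonneg _
      have hs : ∑ j, ‖eval w₁ (B j) - eval w (B j)‖ = 0 := by linarith [not_lt.1 hle]
      have hz : ‖eval w₁ Z‖ = 0 := by linarith [not_lt.1 hle]
      rw [Finset.sum_eq_zero_iff_of_nonneg fun _ _ => norm_nonneg _] at hs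
      have hfib : ∀ j, eval w₁ (B j) = eval w (B j) := fun j =>
        sub_eq_zero.1 (norm_eq_zero.1 (hs j (Finset.mem_univ j)))
      have hww : w₁ = w := by
        by_contra hne1
        exact hZ w₁ ⟨hw₁.1, hfib⟩ hne1 (norm_eq_zero.1 hz)
      exact hw₁.2.1 (hww ▸ hwU₀)
  obtain ⟨δ, hδ0, hδL⟩ := hδ
  have hev2 : ∀ᶠ y : Fin n → ℂ in 𝓝 (fun j => eval w (B j)),
      ∑ j, ‖y j - eval w (B j)‖ < δ / 2 := by
    have hc : Continuous fun y : Fin n → ℂ => ∑ j, ‖y j - eval w (B j)‖ :=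
      continuous_finsetSum _ fun j _ => ((continuous_apply j).sub continuous_const).norm
    have h0 : ∑ j, ‖(fun j => eval w (B j)) j - eval w (B j)‖ < δ / 2 := by
      have : ∑ j, ‖(fun j => eval w (B j)) j - eval w (B j)‖ = 0 :=
        Finset.sum_eq_zero fun j _ => by rw [sub_self, norm_zero]
      rw [this]
      linarith
    exact hc.continuousAt.eventually (gt_mem_nhds h0)
  have hev3 : ∀ᶠ y : Fin n → ℂ in 𝓝 (fun j => eval w (B j)),
      ‖eval y (μ.coeff 0)‖ < (δ / 2) ^ μ.natDegree := by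
    have hc : Continuous fun y : Fin n → ℂ => ‖eval y (μ.coeff 0)‖ :=
      (MvPolynomial.continuous_eval (μ.coeff 0)).norm
    have h0 : ‖eval (fun j => eval w (B j)) (μ.coeff 0)‖ < (δ / 2) ^ μ.natDegree := by
      have h1 : eval (fun j => eval w (B j)) (μ.coeff 0) = 0 := by
        rw [← Polynomial.coeff_map, Polynomial.coeff_zero_eq_eval_zero]
        exact hroot
      rw [h1, norm_zero]
      positivity
    exact hc.continuousAt.eventually (gt_mem_nhds h0)
  filter_upwards [hC, hev2, hev3] with y hy1 hy2 hy3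
  have hnd : (μ.map (eval y)).natDegree = μ.natDegree := hμm.natDegree_map _
  obtain ⟨T, hT0, hTs⟩ := exists_small_root (hμm.map (eval y)) (by rw [hnd]; exact hdeg)
    (half_pos hδ0) (by rw [hnd, Polynomial.coeff_map]; exact hy3)
  obtain ⟨w', hw'a, hw'B, hw'Z⟩ := hμl y T hT0
  have hin : w' ∈ U₀ := by
    by_contra hout
    have h1 := hδL w' ⟨hw'a, hout, hy1 w' hw'a hw'B⟩
    have h2 : ∑ j, ‖eval w' (B j) - eval w (B j)‖ = ∑ j, ‖y j - eval w (B j)‖ :=
      Finset.sum_congr rfl fun j _ => by rw [hw'B j]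
    rw [h2, hw'Z] at h1
    linarith
  exact ⟨w', ⟨hw'a, hU₀U hin⟩, _root_.funext fun j => hw'B j⟩

end Pool.Agent.H13.SM

end
end

section

/-!
# A function which is not zero does not vanish near a point

PROOF of `not_eventually_zero`.  Take `b, B` as in `exists_noether`.  Let `ζ = aeval a Q ≠ 0`, integral
over `R' = Algebra.adjoin ℂ (Set.range b) ≃ MvPolynomial (Fin n) ℂ`, hence algebraic, so there is
`q : Polynomial R'` with `q.coeff 0 ≠ 0` and `aeval ζ q = 0`
(`IsAlgebraic.exists_nonzero_coeff_and_aeval_eq_zero`); transport it to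
`q : Polynomial (MvPolynomial (Fin n) ℂ)` with `q.coeff 0 ≠ 0` and `(q.map (aeval b)).eval ζ = 0`.
(Or take `μ` of `exists_monic`, `μ = X ^ k * q` with `q.coeff 0 ≠ 0`; `ζ ^ k * q(ζ) = 0`.)
If `Q = 0` on the points of the variety in the neighbourhood `U` of `w` then by `root_at`
`eval y (q.coeff 0) = 0` for all `y` in the image of `pts a ∩ U`, a neighbourhood of `y₀` by `open_at`.
A polynomial which vanishes in a neighbourhood of a point is zero (identity theorem
`AnalyticOnNhd.eq_of_eventuallyEq` and `MvPolynomial.funext`), contradiction.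
-/

open MvPolynomial Topology

noncomputable section

namespace Pool.Agent.H13.SM

attribute [-instance] ProperSMul.toContinuousSMul

variable {ι K : Type} [Field K] [Algebra ℂ K]

theorem eq_zero_of_eventually {n : ℕ} {p : MvPolynomial (Fin n) ℂ} {y₀ : Fin n → ℂ}
    (h : ∀ᶠ y in 𝓝 y₀, eval y p = 0) : p = 0 := by
  have h1 : (fun y : Fin n → ℂ => eval y p) = fun y => eval y (0 : MvPolynomial (Fin n) ℂ) := by
    refine AnalyticOnNhd.eq_of_eventuallyEq (AnalyticOnNhd.eval_mvPolynomial p)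
      (AnalyticOnNhd.eval_mvPolynomial 0) (z₀ := y₀) ?_
    filter_upwards [h] with y hy
    rw [hy, map_zero]
  exact MvPolynomial.funext fun x => congrFun h1 x

theorem not_eventually_zero [Finite ι] {a : ι → K}
    (ha : IntermediateField.adjoin ℂ (Set.range a) = ⊤) {n : ℕ} {z : Fin n → K}
    (hz : IsTranscendenceBasis ℂ z) {w : ι → ℂ} (hw : w ∈ pts a) {Q : MvPolynomial ι ℂ}
    (hQ : aeval a Q ≠ 0) : ¬ ∀ᶠ y in 𝓝 w, y ∈ pts a → eval y Q = 0 := by
  intro h
  obtain ⟨b, B, hb, hB, hint⟩ := exists_noether ha hz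
  obtain ⟨p, hp, hp0⟩ := exists_monic hint Q
  have hpne : p ≠ 0 := hp.ne_zero
  obtain ⟨q, hq⟩ : (Polynomial.X : Polynomial (MvPolynomial (Fin n) ℂ)) ^ p.natTrailingDegree ∣ p := by
    rw [Polynomial.X_pow_dvd_iff]
    intro d hd
    exact Polynomial.coeff_eq_zero_of_lt_natTrailingDegree hd
  have hq0 : q.coeff 0 ≠ 0 := by
    have h1 : p.coeff p.natTrailingDegree ≠ 0 :=
      Polynomial.coeff_natTrailingDegree_ne_zero.mpr hpne
    intro h2
    apply h1
    have h3 : p.coeff (0 + p.natTrailingDegree) =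
        (Polynomial.X ^ p.natTrailingDegree * q).coeff (0 + p.natTrailingDegree) := by
      rw [← hq]
    rw [Polynomial.coeff_X_pow_mul, h2, zero_add] at h3
    exact h3
  have hqroot : (q.map (aeval b : MvPolynomial (Fin n) ℂ →ₐ[ℂ] K).toRingHom).eval (aeval a Q) = 0 := by
    rw [hq, Polynomial.map_mul, Polynomial.map_pow, Polynomial.map_X, Polynomial.eval_mul,
      Polynomial.eval_pow, Polynomial.eval_X] at hp0
    exact (mul_eq_zero.mp hp0).resolve_left (pow_ne_zero _ hQ)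
  apply hq0
  apply eq_zero_of_eventually (y₀ := fun j => eval w (B j))
  have hU : {y : ι → ℂ | y ∈ pts a → eval y Q = 0} ∈ 𝓝 w := h
  filter_upwards [open_at hb hB hint hw hU] with y hy
  obtain ⟨w', ⟨hw', hU'⟩, rfl⟩ := hy
  have h1 := root_at hB hqroot hw'
  rw [hU' hw', ← Polynomial.coeff_zero_eq_eval_zero, Polynomial.coeff_map] at h1
  exact h1

end Pool.Agent.H13.SM

end
end

section

/-!
# A chart at a smooth point of an affine variety

PROOF.  Let `I, σ` be as in `exists_implicit` (the `f j` vanish at `w` since `w ∈ pts a`).  Only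
`∀ᶠ u in 𝓝 0, σ u ∈ pts a` is left, and the last clause.

The ideal `{Q | aeval a Q = 0}` is generated by finitely many `g 1, ..., g r` (noetherian).  Suppose
that `h u = eval (σ u) (g k)` is not eventually `0` near `0` for some `k`; `h` is analytic at `0` and
`h 0 = eval w (g k) = 0`.  Let `W` be as in `exists_null`; shrink it to an open neighbourhood of `0` on
which `σ` is analytic.  The points `y ∈ pts a` near `w`, say `y ∈ U`, are `σ (u y)` with
`u y k = y (I k) - w (I k)`, `u y ∈ W`, and `h (u y) = eval y (g k) = 0`.  So with `b, B` of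
`exists_noether` the image of `pts a ∩ U` under `y ↦ (eval y (B j))_j` is contained in the image of the
null set `{u ∈ W | h u = 0}` under the map `u ↦ (eval (σ u) (B j))_j`, which is differentiable on `W`:
it is null (`MeasureTheory.addHaar_image_eq_zero_of_differentiableOn_of_addHaar_eq_zero`, over `ℝ`).  But
it is a neighbourhood of a point by `open_at`, so it has positive measure (`IsOpen.measure_pos`).
So all `g k` vanish on `σ u` for `u` near `0`, hence all `Q` with `aeval a Q = 0` do (`Q = ∑ c_k g k`,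
`Submodule.span_induction` or `Ideal.mem_span_range_iff_exists_fun`).

Last clause: if `eval (σ u) Q = 0` for `u` near `0` then, as `u y → 0` for `y → w`, `eval y Q = 0` for
`y ∈ pts a` near `w`, against `not_eventually_zero`.
-/

open MvPolynomial Topology

noncomputable section

namespace Pool.Agent.H13.SM

attribute [-instance] ProperSMul.toContinuousSMul

variable {ι K : Type} [Field K] [Algebra ℂ K]

/-- A polynomial which vanishes at the generic point vanishes along the chart. -/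
private theorem Aff_key [Fintype ι] {a : ι → K}
    (ha : IntermediateField.adjoin ℂ (Set.range a) = ⊤)
    {n : ℕ} {z : Fin n → K} (hz : IsTranscendenceBasis ℂ z)
    {w : ι → ℂ} (hw : w ∈ pts a) {I : Fin n → ι} {σ : (Fin n → ℂ) → ι → ℂ}
    (hσ : AnalyticAt ℂ σ 0) (hσ0 : σ 0 = w)
    (hpt : ∀ᶠ y in 𝓝 w, y ∈ pts a → y = σ (fun k => y (I k) - w (I k)))
    (Q : MvPolynomial ι ℂ) (hQ : aeval a Q = 0) : ∀ᶠ u in 𝓝 0, eval (σ u) Q = 0 := by
  classical
  by_contra hne
  obtain ⟨b, B, hb, hB, hint⟩ := exists_noether ha hz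
  have hcont : ∀ R : MvPolynomial ι ℂ, AnalyticAt ℂ (fun y : ι → ℂ => eval y R) (σ 0) := by
    intro R
    exact AnalyticOnNhd.eval_mvPolynomial R (σ 0) (Set.mem_univ _)
  have hh : AnalyticAt ℂ (fun u => eval (σ u) Q) 0 :=
    AnalyticAt.fun_comp (f := σ) (g := fun y : ι → ℂ => eval y Q) (hcont Q) hσ
  have h0 : eval (σ 0) Q = 0 := by
    rw [hσ0]
    exact hw Q hQ
  obtain ⟨W, hW, hnull⟩ := exists_null hh h0 hne
  -- an open neighbourhood on which `σ` is analytic
  have hWσ : ∀ᶠ u in 𝓝 (0 : Fin n → ℂ), u ∈ W ∧ AnalyticAt ℂ σ u :=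
    (Filter.eventually_of_mem hW fun u hu => hu).and hσ.eventually_analyticAt
  obtain ⟨W', hW'sub, hW'open, hW'0⟩ := mem_nhds_iff.1 hWσ
  have hκ : Filter.Tendsto (fun (y : ι → ℂ) (k : Fin n) => y (I k) - w (I k)) (𝓝 w) (𝓝 0) := by
    have hc : Continuous fun (y : ι → ℂ) (k : Fin n) => y (I k) - w (I k) := by fun_prop
    have := hc.tendsto w
    have h00 : (fun k : Fin n => w (I k) - w (I k)) = 0 := by
      ext k
      simp
    rwa [h00] at this
  have hU : {y : ι → ℂ | (y ∈ pts a → y = σ (fun k => y (I k) - w (I k))) ∧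
      (fun k => y (I k) - w (I k)) ∈ W'} ∈ 𝓝 w :=
    hpt.and (hκ (hW'open.mem_nhds hW'0))
  have himg := open_at hb hB hint hw hU
  set N : Set (Fin n → ℂ) := {u | u ∈ W' ∧ eval (σ u) Q = 0} with hN
  have hNnull : MeasureTheory.volume N = 0 := by
    refine MeasureTheory.measure_mono_null ?_ hnull
    rintro u ⟨hu, hu'⟩
    exact ⟨(hW'sub hu).1, hu'⟩
  have hdiff : DifferentiableOn ℝ (fun (u : Fin n → ℂ) (j : Fin n) => eval (σ u) (B j)) N := by
    intro u hu
    have hσu : AnalyticAt ℂ σ u := (hW'sub hu.1).2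
    have hF : AnalyticAt ℂ (fun (u : Fin n → ℂ) (j : Fin n) => eval (σ u) (B j)) u := by
      refine analyticAt_pi_iff.2 fun j => ?_
      exact AnalyticAt.fun_comp (f := σ) (g := fun y : ι → ℂ => eval y (B j))
        (AnalyticOnNhd.eval_mvPolynomial (B j) (σ u) (Set.mem_univ _)) hσu
    exact (hF.differentiableAt.restrictScalars ℝ).differentiableWithinAt
  have h1 := MeasureTheory.addHaar_image_eq_zero_of_differentiableOn_of_addHaar_eq_zero
    MeasureTheory.volume hdiff hNnull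
  have h2 : (fun (w' : ι → ℂ) (j : Fin n) => eval w' (B j)) '' (pts a ∩
      {y : ι → ℂ | (y ∈ pts a → y = σ (fun k => y (I k) - w (I k))) ∧
      (fun k => y (I k) - w (I k)) ∈ W'}) ⊆
      (fun (u : Fin n → ℂ) (j : Fin n) => eval (σ u) (B j)) '' N := by
    rintro _ ⟨y, ⟨hya, hy1, hy2⟩, rfl⟩
    have hy := hy1 hya
    refine ⟨fun k => y (I k) - w (I k), ⟨hy2, ?_⟩, ?_⟩
    · rw [← hy]
      exact hya Q hQ
    · simp only
      rw [← hy]
  have h3 : MeasureTheory.volume ((fun (w' : ι → ℂ) (j : Fin n) => eval w' (B j)) '' (pts a ∩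
      {y : ι → ℂ | (y ∈ pts a → y = σ (fun k => y (I k) - w (I k))) ∧
      (fun k => y (I k) - w (I k)) ∈ W'})) = 0 :=
    MeasureTheory.measure_mono_null h2 h1
  exact (MeasureTheory.Measure.measure_pos_of_mem_nhds MeasureTheory.volume himg).ne' h3

theorem exists_chart [Fintype ι] {a : ι → K} (ha : IntermediateField.adjoin ℂ (Set.range a) = ⊤)
    {n : ℕ} {z : Fin n → K} (hz : IsTranscendenceBasis ℂ z) {c : ℕ}
    (hcn : c + n = Fintype.card ι) {f : Fin c → MvPolynomial ι ℂ} (hf : ∀ j, aeval a (f j) = 0)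
    {w : ι → ℂ} (hw : w ∈ pts a)
    (hli : LinearIndependent ℂ fun (j : Fin c) (i : ι) => eval w (pderiv i (f j))) :
    ∃ (I : Fin n → ι) (σ : (Fin n → ℂ) → ι → ℂ), AnalyticAt ℂ σ 0 ∧ σ 0 = w ∧
      (∀ᶠ u in 𝓝 0, σ u ∈ pts a ∧ ∀ k, σ u (I k) = w (I k) + u k) ∧
      (∀ᶠ y in 𝓝 w, y ∈ pts a → y = σ (fun k => y (I k) - w (I k))) ∧
      ∀ Q : MvPolynomial ι ℂ, aeval a Q ≠ 0 → ¬ ∀ᶠ u in 𝓝 0, eval (σ u) Q = 0 := by
  obtain ⟨I, σ, hσ, hσ0, hev, hnear⟩ := exists_implicit hcn (fun j => hw (f j) (hf j)) hli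
  have hpt : ∀ᶠ y in 𝓝 w, y ∈ pts a → y = σ (fun k => y (I k) - w (I k)) := by
    filter_upwards [hnear] with y hy hya
    exact hy fun j => hya (f j) (hf j)
  have key := Aff_key ha hz hw hσ hσ0 hpt
  have hall : ∀ᶠ u in 𝓝 (0 : Fin n → ℂ), σ u ∈ pts a := by
    obtain ⟨S, hS⟩ := IsNoetherian.noetherian
      (RingHom.ker ((aeval a : MvPolynomial ι ℂ →ₐ[ℂ] K) : MvPolynomial ι ℂ →+* K))
    have h1 : ∀ᶠ u in 𝓝 (0 : Fin n → ℂ), ∀ g ∈ S, eval (σ u) g = 0 := by
      rw [Filter.eventually_all_finset]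
      intro g hg
      refine key g ?_
      have : g ∈ RingHom.ker ((aeval a : MvPolynomial ι ℂ →ₐ[ℂ] K) : MvPolynomial ι ℂ →+* K) := by
        rw [← hS]
        exact Submodule.subset_span hg
      simpa [RingHom.mem_ker] using this
    filter_upwards [h1] with u hu Q hQ
    have hle : RingHom.ker ((aeval a : MvPolynomial ι ℂ →ₐ[ℂ] K) : MvPolynomial ι ℂ →+* K) ≤
        RingHom.ker (eval (σ u)) := by
      rw [← hS]
      refine Ideal.span_le.2 fun g hg => ?_
      exact hu g hg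
    exact hle (by simpa [RingHom.mem_ker] using hQ)
  refine ⟨I, σ, hσ, hσ0, ?_, hpt, ?_⟩
  · filter_upwards [hall, hev] with u hu1 hu2
    exact ⟨hu1, hu2.2⟩
  · intro Q hQ hz0
    refine not_eventually_zero ha hz hw hQ ?_
    have hκ : Filter.Tendsto (fun (y : ι → ℂ) (k : Fin n) => y (I k) - w (I k)) (𝓝 w) (𝓝 0) := by
      have hc : Continuous fun (y : ι → ℂ) (k : Fin n) => y (I k) - w (I k) := by fun_prop
      have := hc.tendsto w
      have h00 : (fun k : Fin n => w (I k) - w (I k)) = 0 := by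
        ext k
        simp
      rwa [h00] at this
    filter_upwards [hpt, hκ.eventually hz0] with y hy1 hy2 hya
    have hy := hy1 hya
    rw [hy]
    exact hy2

end Pool.Agent.H13.SM

end
end
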