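import Pool.Agent.H94.CB.H36.BP.SubD
import Pool.Agent.H94.CB.M34
import Pool.Agent.H94.CB.M38
import Pool.Agent.H94.CB.M45
import Pool.Agent.H94.CB.M60

/-! The parts of this file: H14.PP.SubPiece, H14.PP.SubACoef, H14.PP.ConvChart, H14.PP.GRules, H14.PP.GUsc. -/

section

/-!
# BPm SubPiece: lower supports for the pieces

Products of the basic lower supports (`Sub.mul`): `‖t‖^(1-κ)` (`Sub.of_holo`, `Sub.rpow`,
coefficient `0`; `κ ≤ 1`), `exp (-ε‖s‖^2)` (`Sub.exp_sq`, `-ε‖s'‖^2`), `‖s'‖` (`Sub.of_holo` for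
`deriv s`, `0`), `(1 + M‖s‖^(2κ))^e` (`Sub.gain`, or `Sub.gain_zero` with an arbitrarily large
coefficient), `exp (-K‖t‖^2)` (`-K‖t'‖^2`). In `sub_pN` the term `-ε‖s'‖^2` is also allowed if
`nd = false` (`Sub.anti`).
-/

open Topology Filter Metric

namespace Pool.Agent.H14.PP

attribute [-instance] ProperSMul.toContinuousSMul

open Pool.Agent.H36.BP

private theorem SubPiece_gen {P : Par} (hκ1 : P.κ < 1) (nd : Bool) {s t : ℂ → ℂ} {z₀ : ℂ}
    (hs : AnalyticAt ℂ s z₀) (ht : AnalyticAt ℂ t z₀) (hs1 : deriv s z₀ ≠ 0)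
    (ht0 : nd = true → t z₀ ≠ 0) {c : ℝ}
    (hg : Sub (fun z => (1 + P.M * ‖s z‖ ^ (2 * P.κ)) ^ P.e) z₀ c) :
    Sub (fun z => pN nd P (s z) (t z) (deriv s z)) z₀
      ((if nd = true then -P.ε * ‖deriv s z₀‖ ^ 2 else 0) + c + -P.K * ‖deriv t z₀‖ ^ 2) := by
  have h3 : Sub (fun z => ‖deriv s z‖) z₀ 0 := Sub.of_holo hs.deriv hs1
  have h5 : Sub (fun z => Real.exp (-P.K * ‖t z‖ ^ 2)) z₀ (-P.K * ‖deriv t z₀‖ ^ 2) :=
    Sub.exp_sq ht (-P.K)
  cases nd with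
  | false =>
    have h := (((Sub.const one_pos z₀).mul h3).mul hg).mul h5
    refine (h.anti (le_of_eq ?_)).congr (Eventually.of_forall fun z => ?_)
    · simp
    · simp [pN]
  | true =>
    have h1 : Sub (fun z => ‖t z‖ ^ (1 - P.κ)) z₀ ((1 - P.κ) * 0) :=
      (Sub.of_holo ht (ht0 rfl)).rpow (by linarith)
    have h2 : Sub (fun z => Real.exp (-P.ε * ‖s z‖ ^ 2)) z₀ (-P.ε * ‖deriv s z₀‖ ^ 2) :=
      Sub.exp_sq hs (-P.ε)
    have h := ((((h1.mul h2).mul h3).mul hg).mul h5)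
    refine (h.anti (le_of_eq ?_)).congr (Eventually.of_forall fun z => ?_)
    · simp
    · simp [pN]

theorem sub_pN {P : Par} (hε : 0 ≤ P.ε) (hM : 0 < P.M) (he : 0 < P.e) (hκ : 0 < P.κ)
    (hκ1 : P.κ < 1) (nd : Bool) {s t : ℂ → ℂ} {z₀ : ℂ} (hs : AnalyticAt ℂ s z₀)
    (ht : AnalyticAt ℂ t z₀) (hs0 : s z₀ ≠ 0) (hs1 : deriv s z₀ ≠ 0) (ht0 : nd = true → t z₀ ≠ 0) :
    Sub (fun z => pN nd P (s z) (t z) (deriv s z)) z₀
      (-P.ε * ‖deriv s z₀‖ ^ 2 - P.K * ‖deriv t z₀‖ ^ 2 +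
        P.e * P.M * P.κ ^ 2 * ‖s z₀‖ ^ (2 * P.κ - 2) * ‖deriv s z₀‖ ^ 2 /
          (1 + P.M * ‖s z₀‖ ^ (2 * P.κ)) ^ 2) := by
  have h := SubPiece_gen hκ1 nd hs ht hs1 ht0 (Sub.gain hs hs0 hM.le hκ he.le)
  refine h.anti ?_
  have h1 : -P.ε * ‖deriv s z₀‖ ^ 2 ≤ (if nd = true then -P.ε * ‖deriv s z₀‖ ^ 2 else 0) := by
    split_ifs
    · exact le_rfl
    · have : 0 ≤ P.ε * ‖deriv s z₀‖ ^ 2 := by positivity
      linarith
  have h2 : P.e * P.M * P.κ ^ 2 * ‖s z₀‖ ^ (2 * P.κ - 2) * ‖deriv s z₀‖ ^ 2 /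
      (1 + P.M * ‖s z₀‖ ^ (2 * P.κ)) ^ 2 = P.e * (P.M * P.κ ^ 2 * ‖s z₀‖ ^ (2 * P.κ - 2) *
        ‖deriv s z₀‖ ^ 2 / (1 + P.M * ‖s z₀‖ ^ (2 * P.κ)) ^ 2) := by
    ring
  rw [h2]
  linarith

theorem sub_pN_cusp {P : Par} (hM : 0 < P.M) (he : 0 < P.e) (hκ : 0 < P.κ) (hκ1 : P.κ < 1)
    (nd : Bool) {s t : ℂ → ℂ} {z₀ : ℂ} (hs : AnalyticAt ℂ s z₀) (ht : AnalyticAt ℂ t z₀)
    (hs0 : s z₀ = 0) (hs1 : deriv s z₀ ≠ 0) (ht0 : nd = true → t z₀ ≠ 0) (c : ℝ) :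
    Sub (fun z => pN nd P (s z) (t z) (deriv s z)) z₀ c := by
  have h := SubPiece_gen hκ1 nd hs ht hs1 ht0 (Sub.gain_zero hs hs0 hs1 hM hκ hκ1 he
    (c - (if nd = true then -P.ε * ‖deriv s z₀‖ ^ 2 else 0) - -P.K * ‖deriv t z₀‖ ^ 2))
  exact h.anti (by linarith)

theorem sub_pT_false {P : Par} (hκ1 : P.κ < 1) {s t : ℂ → ℂ} {z₀ : ℂ} (hs : AnalyticAt ℂ s z₀)
    (ht : AnalyticAt ℂ t z₀) (hs0 : s z₀ ≠ 0) (ht1 : deriv t z₀ ≠ 0) :
    Sub (fun z => pT false P (s z) (t z) (deriv t z)) z₀ (-P.ε * ‖deriv t z₀‖ ^ 2) := by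
  have h1 : Sub (fun z => ‖s z‖ ^ (1 - P.κ)) z₀ ((1 - P.κ) * 0) :=
    (Sub.of_holo hs hs0).rpow (by linarith)
  have h2 : Sub (fun z => ‖deriv t z‖) z₀ 0 := Sub.of_holo ht.deriv ht1
  have h3 : Sub (fun z => Real.exp (-P.ε * ‖t z‖ ^ 2)) z₀ (-P.ε * ‖deriv t z₀‖ ^ 2) :=
    Sub.exp_sq ht (-P.ε)
  have h := (h1.mul h2).mul h3
  refine (h.anti (le_of_eq ?_)).congr (Eventually.of_forall fun z => ?_)
  · simp
  · simp [pT]

end Pool.Agent.H14.PP

end

section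

/-!
# BPm SubACoef: lower supports for the coefficient of the form along a curve

`Chart.curve`: near `z₀`, `F z = c z • σ (q (F z))`, so
`ACoef Ω χ (q (F z)) = ‖a (q (F z))‖^(1/m) * (‖F z‖/‖c z‖)^(j/m)`, `a = aCoef Ω χ`, and
`ACoef Ω χ (q (F z)) * ‖F z‖^(-c₀) = ‖a (q (F z))‖^(1/m) * ‖c z‖^(-(j/m)) * ‖F z‖^(j/m - c₀)`.
The first two factors have coefficient `0`: `a ∘ q ∘ F` and `c` are analytic and not zero at `z₀`
(`Sub.of_holo`, `Sub.rpow`; for the negative power of `‖c‖` use `Sub.of_holo` for `1/c`), the last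
has `(j/m - c₀) * fs^2/2` (`Sub.norm_rpow`).
-/

open Topology Filter Metric

namespace Pool.Agent.H14.PP

attribute [-instance] ProperSMul.toContinuousSMul

open Pool.Agent.H36.BP

variable {N : ℕ} {X K T : Set (EN N)} {m j : ℕ}

theorem sub_ACoef (hX : IsCone X) (hK : IsOpenPart X K) (Ω : Form K m j) (χ : Chart X)
    {F : ℂ → EN N} {z₀ : ℂ} (hF : CurveAt K F z₀) (hU : F z₀ ∈ χ.U)
    (ha : aCoef Ω χ (χ.q (F z₀)) ≠ 0) (c₀ : ℝ) :
    Sub (fun z => ACoef Ω χ (χ.q (F z)) * ‖F z‖ ^ (-c₀)) z₀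
      (((j : ℝ) / m - c₀) * (fs (F z₀) (deriv F z₀) ^ 2 / 2)) := by
  have hFX : CurveAt X F z₀ := hF.mono hK.subset
  obtain ⟨hq_an, -, c, hc_an, hc0, hev⟩ := χ.curve hX hFX hU
  obtain ⟨hp, hFz⟩ := hev.self_of_nhds
  have hF0 : F z₀ ≠ 0 := hX.ne_zero hFX.mem
  have hpK : χ.σ (χ.q (F z₀)) ∈ K := by
    have h1 := hK.smul_mem (F z₀) hF.mem (c z₀)⁻¹ (inv_ne_zero hc0)
    have h2 : (c z₀)⁻¹ • F z₀ = χ.σ (χ.q (F z₀)) := by
      conv_lhs => rw [hFz]
      rw [smul_smul, inv_mul_cancel₀ hc0, one_smul]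
    rwa [h2] at h1
  have ha_an : AnalyticAt ℂ (fun z => aCoef Ω χ (χ.q (F z))) z₀ :=
    AnalyticAt.fun_comp (g := aCoef Ω χ) (f := fun z => χ.q (F z)) (aCoef_analytic hK Ω χ hp hpK)
      hq_an
  have h1 : Sub (fun z => ‖aCoef Ω χ (χ.q (F z))‖ ^ (1 / (m : ℝ))) z₀ (1 / (m : ℝ) * 0) :=
    (Sub.of_holo ha_an ha).rpow (by positivity)
  have h2 : Sub (fun z => ‖(c z)⁻¹‖ ^ ((j : ℝ) / m)) z₀ ((j : ℝ) / m * 0) :=
    (Sub.of_holo (hc_an.fun_inv hc0) (inv_ne_zero hc0)).rpow (by positivity)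
  have h3 := Sub.norm_rpow hF.1 hF0 ((j : ℝ) / m - c₀)
  have h4 := (h1.mul h2).mul h3
  have h5 : 1 / (m : ℝ) * 0 + (j : ℝ) / m * 0 +
      ((j : ℝ) / m - c₀) * fs (F z₀) (deriv F z₀) ^ 2 / 2 =
      ((j : ℝ) / m - c₀) * (fs (F z₀) (deriv F z₀) ^ 2 / 2) := by ring
  rw [h5] at h4
  refine h4.congr ?_
  have hcne : ∀ᶠ z in 𝓝 z₀, c z ≠ 0 := hc_an.continuousAt.eventually_ne hc0
  have hFne : ∀ᶠ z in 𝓝 z₀, F z ≠ 0 := hF.1.continuousAt.eventually_ne hF0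
  filter_upwards [hev, hcne, hFne] with z hz hcz hFz0
  have hn : ‖χ.σ (χ.q (F z))‖ = ‖(c z)⁻¹‖ * ‖F z‖ := by
    rw [← norm_smul]
    congr 1
    conv_rhs => rw [hz.2]
    rw [smul_smul, inv_mul_cancel₀ hcz, one_smul]
  have hpos : 0 < ‖F z‖ := norm_pos_iff.mpr hFz0
  show ‖aCoef Ω χ (χ.q (F z))‖ ^ (1 / (m : ℝ)) * ‖(c z)⁻¹‖ ^ ((j : ℝ) / m) *
      ‖F z‖ ^ ((j : ℝ) / m - c₀) = ACoef Ω χ (χ.q (F z)) * ‖F z‖ ^ (-c₀)
  unfold ACoef
  rw [hn, Real.mul_rpow (norm_nonneg _) (norm_nonneg _), sub_eq_add_neg, Real.rpow_add hpos]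
  ring

end Pool.Agent.H14.PP

end

section

/-!
# BPm ConvChart: convexity of the metric of a chart

Let `s z, t z` be the components of `χ.q (F z)` (analytic at `z₀`), `A₀ = (j/m - c₀) fs²/2`, the
coefficient of `ACoef Ω χ (q (F z)) * ‖F z‖^(-c₀)` (`sub_ACoef`; `aCoef ≠ 0` at `z₀` because the
product with `pM` is positive: `ACoef_pos_iff`). One of the two pieces equals `pM` at `z₀`, and
`pM ≥` this piece near `z₀`, so by `Sub.mono` it is enough to treat this piece: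
* `pT ≤ pN`, `pN > 0`: then `s' ≠ 0` and (`nd = true → t ≠ 0`). If `s z₀ = 0`: `sub_pN_cusp` with
  `c = 1 - A₀`. If `s z₀ ≠ 0`: `sub_pN` and the hypothesis `hr` (with `A = A₀`).
* `pN < pT`, `nd = false`: `pT > 0` so `s ≠ 0`, `t' ≠ 0`: coefficient
  `A₀ - ε‖t'‖^2 ≥ 3 ε‖t'‖^2 > 0` (`sub_pT_false`).
* `pN < pT`, `nd = true`: `pT true P s t t' = pN true P t s t'`, the first case with `s` and `t`
  exchanged (`hr` with `(t, s)`; `small true` and the hypotheses are symmetric).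
-/

open Topology Filter Metric

namespace Pool.Agent.H14.PP

attribute [-instance] ProperSMul.toContinuousSMul

open Pool.Agent.H36.BP

variable {N : ℕ} {X K T : Set (EN N)} {m j : ℕ}

private theorem ConvChart_pN_pos {P : Par} (hκ : P.κ ≤ 1 / 4) (nd : Bool) {s t s' : ℂ}
    (h : 0 < pN nd P s t s') : s' ≠ 0 ∧ (nd = true → t ≠ 0) := by
  constructor
  · rintro rfl
    unfold pN at h
    simp at h
  · rintro rfl rfl
    unfold pN at h
    rw [norm_zero, Real.zero_rpow (by linarith)] at h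
    simp at h

theorem conv_chart (hX : IsCone X) (hK : IsOpenPart X K) (hm : 1 ≤ m) (Ω : Form K m j)
    (χ : Chart X) (nd : Bool) {P : Par} (hP : ConvPar P) {r : ℝ}
    (hr : ∀ (nd : Bool) (s t s' t' : ℂ) (A : ℝ), ‖s‖ ≤ 1 → ‖t‖ ≤ 1 →
      small nd (s, t) ≤ r → s ≠ 0 → s' ≠ 0 → (nd = true → t ≠ 0) →
      4 * P.ε * (‖s'‖ ^ 2 + ‖t'‖ ^ 2) ≤ A → pT nd P s t t' ≤ pN nd P s t s' →
      0 < A - P.ε * ‖s'‖ ^ 2 - P.K * ‖t'‖ ^ 2 +
        P.e * P.M * P.κ ^ 2 * ‖s‖ ^ (2 * P.κ - 2) * ‖s'‖ ^ 2 / (1 + P.M * ‖s‖ ^ (2 * P.κ)) ^ 2)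
    {c₀ : ℝ} {F : ℂ → EN N} {z₀ : ℂ} (hF : CurveAt K F z₀)
    (hU : F z₀ ∈ χ.U) (hq : ‖χ.q (F z₀)‖ ≤ 1) (hsm : small nd (χ.q (F z₀)) ≤ r)
    (hE : 4 * P.ε * (‖(deriv (fun z => χ.q (F z)) z₀).1‖ ^ 2 +
      ‖(deriv (fun z => χ.q (F z)) z₀).2‖ ^ 2) ≤
        ((j : ℝ) / m - c₀) * (fs (F z₀) (deriv F z₀) ^ 2 / 2))
    (hpos : 0 < ACoef Ω χ (χ.q (F z₀)) * pM nd P (χ.q (F z₀)) (deriv (fun z => χ.q (F z)) z₀)) :
    ∃ c, 0 < c ∧ Sub (fun z => ACoef Ω χ (χ.q (F z)) *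
      pM nd P (χ.q (F z)) (deriv (fun z => χ.q (F z)) z) * ‖F z‖ ^ (-c₀)) z₀ c := by
  have hM : 0 < P.M := lt_of_lt_of_le one_pos hP.M_ge
  have hκ1 : P.κ < 1 := by linarith [hP.κ_le]
  -- the point
  have hp : χ.q (F z₀) ∈ ball (0 : ℂ × ℂ) 2 := by
    rw [mem_ball_zero_iff]
    linarith
  have hAnn : 0 ≤ ACoef Ω χ (χ.q (F z₀)) := ACoef_nonneg Ω χ _
  have hMnn : 0 ≤ pM nd P (χ.q (F z₀)) (deriv (fun z => χ.q (F z)) z₀) := pM_nonneg hM.le _ _ _
  have hA0 : ACoef Ω χ (χ.q (F z₀)) ≠ 0 := fun h => by rw [h, zero_mul] at hpos; exact lt_irrefl _ hpos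
  have hM0 : pM nd P (χ.q (F z₀)) (deriv (fun z => χ.q (F z)) z₀) ≠ 0 := fun h => by
    rw [h, mul_zero] at hpos; exact lt_irrefl _ hpos
  have hApos : 0 < ACoef Ω χ (χ.q (F z₀)) := lt_of_le_of_ne hAnn (Ne.symm hA0)
  have hMpos : 0 < pM nd P (χ.q (F z₀)) (deriv (fun z => χ.q (F z)) z₀) := lt_of_le_of_ne hMnn (Ne.symm hM0)
  have ha : aCoef Ω χ (χ.q (F z₀)) ≠ 0 := (ACoef_pos_iff hX hm Ω χ hp).1 hApos
  have hA := sub_ACoef hX hK Ω χ hF hU ha c₀
  -- the curve in the chart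
  have hg : AnalyticAt ℂ (fun z => χ.q (F z)) z₀ := (χ.q_an _ hU).comp hF.1
  have hs : AnalyticAt ℂ (fun z => (χ.q (F z)).1) z₀ := analyticAt_fst.comp hg
  have ht : AnalyticAt ℂ (fun z => (χ.q (F z)).2) z₀ := analyticAt_snd.comp hg
  have hder : ∀ᶠ z in 𝓝 z₀, deriv (fun z => χ.q (F z)) z =
      (deriv (fun z => (χ.q (F z)).1) z, deriv (fun z => (χ.q (F z)).2) z) := by
    filter_upwards [hg.eventually_analyticAt] with z hz
    have h1 : HasDerivAt (fun z => χ.q (F z)) (deriv (fun z => χ.q (F z)) z) z := hz.differentiableAt.hasDerivAt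
    have h2 : HasDerivAt (fun z => (χ.q (F z)).1) (deriv (fun z => χ.q (F z)) z).1 z := h1.fst
    have h3 : HasDerivAt (fun z => (χ.q (F z)).2) (deriv (fun z => χ.q (F z)) z).2 z := h1.snd
    rw [h2.deriv, h3.deriv]
  have hder0 := hder.self_of_nhds
  have hs1 : ‖(χ.q (F z₀)).1‖ ≤ 1 := (norm_fst_le _).trans hq
  have ht1 : ‖(χ.q (F z₀)).2‖ ≤ 1 := (norm_snd_le _).trans hq
  rw [hder0] at hMpos hE
  -- it is enough to treat one piece
  have key : ∀ (p : ℂ → ℝ) (E : ℝ), Sub p z₀ E →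
      0 < ((j : ℝ) / m - c₀) * (fs (F z₀) (deriv F z₀) ^ 2 / 2) + E →
      p z₀ = pM nd P (χ.q (F z₀)) (deriv (fun z => (χ.q (F z)).1) z₀, deriv (fun z => (χ.q (F z)).2) z₀) →
      (∀ z, p z ≤ pM nd P (χ.q (F z)) (deriv (fun z => (χ.q (F z)).1) z, deriv (fun z => (χ.q (F z)).2) z)) →
      ∃ c, 0 < c ∧ Sub (fun z => ACoef Ω χ (χ.q (F z)) *
        pM nd P (χ.q (F z)) (deriv (fun z => χ.q (F z)) z) * ‖F z‖ ^ (-c₀)) z₀ c := by
    intro p E h1 h2 h3 h4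
    refine ⟨_, h2, (hA.mul h1).mono ?_ ?_⟩
    · rw [h3, hder0]
      ring
    · filter_upwards [hder] with z hz
      rw [hz]
      have h5 : 0 ≤ ACoef Ω χ (χ.q (F z)) * ‖F z‖ ^ (-c₀) :=
        mul_nonneg (ACoef_nonneg Ω χ _) (by positivity)
      calc ACoef Ω χ (χ.q (F z)) * ‖F z‖ ^ (-c₀) * p z
          ≤ ACoef Ω χ (χ.q (F z)) * ‖F z‖ ^ (-c₀) * pM nd P (χ.q (F z))
            (deriv (fun z => (χ.q (F z)).1) z, deriv (fun z => (χ.q (F z)).2) z) :=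
              mul_le_mul_of_nonneg_left (h4 z) h5
        _ = _ := by ring
  by_cases hc : pT nd P (χ.q (F z₀)).1 (χ.q (F z₀)).2 (deriv (fun z => (χ.q (F z)).2) z₀) ≤
      pN nd P (χ.q (F z₀)).1 (χ.q (F z₀)).2 (deriv (fun z => (χ.q (F z)).1) z₀)
  · -- the normal piece
    have hMe : pM nd P (χ.q (F z₀)) (deriv (fun z => (χ.q (F z)).1) z₀, deriv (fun z => (χ.q (F z)).2) z₀) =
        pN nd P (χ.q (F z₀)).1 (χ.q (F z₀)).2 (deriv (fun z => (χ.q (F z)).1) z₀) := max_eq_left hc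
    rw [hMe] at hMpos
    obtain ⟨h1, h2⟩ := ConvChart_pN_pos hP.κ_le nd hMpos
    by_cases hs0 : (χ.q (F z₀)).1 = 0
    · refine key _ _ (sub_pN_cusp hM hP.e_pos hP.κ_pos hκ1 nd hs ht hs0 h1 h2
        (1 - ((j : ℝ) / m - c₀) * (fs (F z₀) (deriv F z₀) ^ 2 / 2))) (by linarith) hMe.symm ?_
      intro z
      exact le_max_left _ _
    · refine key _ _ (sub_pN hP.ε_pos.le hM hP.e_pos hP.κ_pos hκ1 nd hs ht hs0 h1 h2) ?_ hMe.symm ?_
      · have := hr nd _ _ _ _ _ hs1 ht1 hsm hs0 h1 h2 hE hc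
        linarith
      · intro z
        exact le_max_left _ _
  · -- the tangential piece
    rw [not_le] at hc
    have hMe : pM nd P (χ.q (F z₀)) (deriv (fun z => (χ.q (F z)).1) z₀, deriv (fun z => (χ.q (F z)).2) z₀) =
        pT nd P (χ.q (F z₀)).1 (χ.q (F z₀)).2 (deriv (fun z => (χ.q (F z)).2) z₀) := max_eq_right hc.le
    rw [hMe] at hMpos
    cases nd with
    | false =>
      have h1 : (χ.q (F z₀)).1 ≠ 0 := by
        intro h0
        unfold pT at hMpos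
        rw [h0, norm_zero, Real.zero_rpow (by linarith)] at hMpos
        simp at hMpos
      have h2 : deriv (fun z => (χ.q (F z)).2) z₀ ≠ 0 := by
        intro h0
        unfold pT at hMpos
        rw [h0] at hMpos
        simp at hMpos
      refine key _ _ (sub_pT_false hκ1 hs ht h1 h2) ?_ hMe.symm ?_
      · have h3 : 0 < P.ε * ‖deriv (fun z => (χ.q (F z)).2) z₀‖ ^ 2 :=
          mul_pos hP.ε_pos (pow_pos (norm_pos_iff.2 h2) 2)
        have h4 : 0 ≤ P.ε * ‖deriv (fun z => (χ.q (F z)).1) z₀‖ ^ 2 :=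
          mul_nonneg hP.ε_pos.le (by positivity)
        have h5 := hE
        dsimp only at h5
        linarith
      · intro z
        exact le_max_right _ _
    | true =>
      have hpT : ∀ s t t' : ℂ, pT true P s t t' = pN true P t s t' := fun s t t' => by
        unfold pT
        rw [if_pos rfl]
      rw [hpT] at hMpos hc
      obtain ⟨h1, h2⟩ := ConvChart_pN_pos hP.κ_le true hMpos
      rw [hpT] at hMe
      have hsm' : small true ((χ.q (F z₀)).2, (χ.q (F z₀)).1) ≤ r := by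
        have : small true ((χ.q (F z₀)).2, (χ.q (F z₀)).1) = small true (χ.q (F z₀)) := by
          unfold small
          rw [if_pos rfl, if_pos rfl, mul_comm]
        rw [this]
        exact hsm
      by_cases hs0 : (χ.q (F z₀)).2 = 0
      · refine key _ _ (sub_pN_cusp hM hP.e_pos hP.κ_pos hκ1 true ht hs hs0 h1 h2
          (1 - ((j : ℝ) / m - c₀) * (fs (F z₀) (deriv F z₀) ^ 2 / 2))) (by linarith) hMe.symm ?_
        intro z
        rw [← hpT]
        exact le_max_right _ _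
      · refine key _ _ (sub_pN hP.ε_pos.le hM hP.e_pos hP.κ_pos hκ1 true ht hs hs0 h1 h2) ?_ hMe.symm ?_
        · have hE' : 4 * P.ε * (‖deriv (fun z => (χ.q (F z)).2) z₀‖ ^ 2 +
              ‖deriv (fun z => (χ.q (F z)).1) z₀‖ ^ 2) ≤
                ((j : ℝ) / m - c₀) * (fs (F z₀) (deriv F z₀) ^ 2 / 2) := by
            have := hE
            dsimp only at this
            linarith
          have hc' : pT true P (χ.q (F z₀)).2 (χ.q (F z₀)).1 (deriv (fun z => (χ.q (F z)).1) z₀) ≤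
              pN true P (χ.q (F z₀)).2 (χ.q (F z₀)).1 (deriv (fun z => (χ.q (F z)).2) z₀) := by
            rw [hpT]
            exact hc.le
          have := hr true _ _ _ _ _ ht1 hs1 hsm' hs0 h1 h2 hE' hc'
          linarith
        · intro z
          rw [← hpT]
          exact le_max_right _ _

end Pool.Agent.H14.PP

end

section

/-!
# BPm GRules: the metric, homogeneity, invariance, vanishing along `T`

* `GG_smul`: every piece is homogeneous (`fs_smul_right`, `pM_smul`, linearity of `fderiv`),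
  `Real.mul_iSup_of_nonneg`.
* `GG_scale`: every piece is invariant (`fs_inv`, `rho_smul`, `smul_U`, `q_smul`,
  `Chart.fderiv_q_smul`, `IsCone.smul_mem` (for `c` and `c⁻¹`, so membership in `X` and `U` is
  equivalent)).
* `GG_zero`: let `F` be a curve in `T` near `z₀`, `x = F z₀`. The far piece vanishes: `Q x = 0`, so
  `rho = 0` and `M' ≥ 1`. Near piece `i` (at `x` with `x ∈ U`, `‖q x‖ ≤ 1`): `s, t` the components of
  `q ∘ F`, analytic at `z₀`, `fderiv ℂ q x (F' z₀) = (s', t')` (`Chart.curve`). Near `z₀`,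
  `F z = c z • σ (q (F z)) ∈ T`, `T` is a cone (`IsEq.smul_mem`), so `σ (q (F z)) ∈ T`
  and by `HasType` `s z = 0` (or `nd = true` and `t z = 0`). If `nd = false`: `s = 0` near `z₀`, so
  `s' = 0` and `pN = 0`, `pT = ‖0‖^(1-κ) * .. = 0`. If `nd = true`: if `t z₀ ≠ 0` then `s = 0` near
  `z₀`, same conclusion; if `s z₀ ≠ 0` then `t = 0` near `z₀`, symmetric; if `s z₀ = t z₀ = 0` then both
  pieces contain the factor `0^(1-κ) = 0`.
-/

open Topology Filter Metric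

namespace Pool.Agent.H14.PP

attribute [-instance] ProperSMul.toContinuousSMul

open Pool.Agent.H36.BP

variable {N : ℕ} {W : Type*} [NormedAddCommGroup W] [InnerProductSpace ℂ W]
  {X K T : Set (EN N)} {m j : ℕ} {Ω : Form K m j} {n : ℕ} {χ : Fin n → Chart X}
  {nd : Fin n → Bool} {P : Par} {Q : EN N → W} {D M' : ℕ} {δ c₁ : ℝ}

private theorem GRules_piece_smul (k : Option (Fin n)) (x v : EN N) (c : ℂ) :
    pieceG Ω χ nd P Q D M' δ c₁ k x (c • v) = ‖c‖ * pieceG Ω χ nd P Q D M' δ c₁ k x v := by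
  cases k with
  | none =>
    simp only [pieceG]
    rw [fs_smul_right]
    ring
  | some i =>
    simp only [pieceG, nearG]
    split_ifs
    · rw [map_smul, pM_smul]
      ring
    · ring

theorem GG_smul (x v : EN N) (c : ℂ) :
    GG Ω χ nd P Q D M' δ c₁ x (c • v) = ‖c‖ * GG Ω χ nd P Q D M' δ c₁ x v := by
  unfold GG
  rw [Real.mul_iSup_of_nonneg (norm_nonneg c)]
  exact iSup_congr fun k => GRules_piece_smul k x v c

private theorem GRules_piece_scale (hX : IsCone X) (hQ : IsEq X T Q D) {x : EN N} (hx : x ∈ X)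
    (v : EN N) {c : ℂ} (a : ℂ) (hc : c ≠ 0) (k : Option (Fin n)) :
    pieceG Ω χ nd P Q D M' δ c₁ k (c • x) (c • v + a • x) =
      pieceG Ω χ nd P Q D M' δ c₁ k x v := by
  cases k with
  | none =>
    simp only [pieceG]
    rw [rho_smul hQ.smul hc, fs_inv (hX.ne_zero hx) v hc a]
  | some i =>
    simp only [pieceG, nearG]
    rw [rho_smul hQ.smul hc]
    by_cases hU : x ∈ (χ i).U
    · have hU' : c • x ∈ (χ i).U := (χ i).smul_U x hU c hc
      have hX' : c • x ∈ X := hX.smul_mem x hx c hc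
      rw [(χ i).q_smul x hU c hc, (χ i).fderiv_q_smul hU v hc a]
      simp only [hU, hU', hX', hx]
    · have hU' : c • x ∉ (χ i).U := by
        intro h
        apply hU
        have h1 := (χ i).smul_U _ h c⁻¹ (inv_ne_zero hc)
        rwa [smul_smul, inv_mul_cancel₀ hc, one_smul] at h1
      rw [if_neg fun h => hU' h.2.1, if_neg fun h => hU h.2.1]

theorem GG_scale (hX : IsCone X) (hQ : IsEq X T Q D) {x : EN N} (hx : x ∈ X) (v : EN N) {c : ℂ}
    (a : ℂ) (hc : c ≠ 0) : GG Ω χ nd P Q D M' δ c₁ (c • x) (c • v + a • x) =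
      GG Ω χ nd P Q D M' δ c₁ x v := by
  unfold GG
  exact iSup_congr fun k => GRules_piece_scale hX hQ hx v a hc k

private theorem GRules_pN_zero (nd : Bool) (P : Par) (s t : ℂ) : pN nd P s t 0 = 0 := by
  unfold pN
  rw [norm_zero, mul_zero, zero_mul, zero_mul]

private theorem GRules_pN_zero' {P : Par} (hκ : P.κ ≤ 1 / 4) (s s' : ℂ) : pN true P s 0 s' = 0 := by
  have h1 : (1 : ℝ) - P.κ ≠ 0 := by linarith
  unfold pN
  rw [if_pos rfl, norm_zero, Real.zero_rpow h1, zero_mul, zero_mul, zero_mul, zero_mul]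

/-- the piece vanishes along a curve in `T` -/
private theorem GRules_pM_zero {nd : Bool} {P : Par} (hκ : P.κ ≤ 1 / 4) {s t : ℂ → ℂ} {z₀ : ℂ}
    (hs : AnalyticAt ℂ s z₀) (ht : AnalyticAt ℂ t z₀)
    (h : ∀ᶠ z in 𝓝 z₀, s z = 0 ∨ (nd = true ∧ t z = 0)) :
    pM nd P (s z₀, t z₀) (deriv s z₀, deriv t z₀) = 0 := by
  have key0 : ∀ u : ℂ → ℂ, (∀ᶠ z in 𝓝 z₀, u z = 0) → u z₀ = 0 ∧ deriv u z₀ = 0 := by
    intro u hu
    refine ⟨hu.self_of_nhds, ?_⟩
    have h1 : u =ᶠ[𝓝 z₀] fun _ => (0 : ℂ) := hu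
    rw [h1.deriv_eq, deriv_const]
  have h1κ : (1 : ℝ) - P.κ ≠ 0 := by linarith
  cases nd with
  | false =>
    have h1 : ∀ᶠ z in 𝓝 z₀, s z = 0 := by
      filter_upwards [h] with z hz
      rcases hz with hz | ⟨hz, -⟩
      · exact hz
      · exact absurd hz (by decide)
    obtain ⟨e1, e2⟩ := key0 s h1
    unfold pM
    simp only
    rw [e1, e2, GRules_pN_zero]
    unfold pT
    rw [if_neg (by decide), norm_zero, Real.zero_rpow h1κ, zero_mul, zero_mul, max_self]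
  | true =>
    have hpT : ∀ a b d : ℂ, pT true P a b d = pN true P b a d := by
      intro a b d
      unfold pT
      rw [if_pos rfl]
    by_cases ht0 : t z₀ = 0
    · by_cases hs0 : s z₀ = 0
      · unfold pM
        simp only
        rw [hpT, hs0, ht0, GRules_pN_zero' hκ, GRules_pN_zero' hκ, max_self]
      · have h1 : ∀ᶠ z in 𝓝 z₀, t z = 0 := by
          filter_upwards [h, hs.continuousAt.eventually_ne hs0] with z hz hz'
          rcases hz with hz | ⟨-, hz⟩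
          · exact absurd hz hz'
          · exact hz
        obtain ⟨e1, e2⟩ := key0 t h1
        unfold pM
        simp only
        rw [hpT, e1, e2, GRules_pN_zero' hκ, GRules_pN_zero, max_self]
    · have h1 : ∀ᶠ z in 𝓝 z₀, s z = 0 := by
        filter_upwards [h, ht.continuousAt.eventually_ne ht0] with z hz hz'
        rcases hz with hz | ⟨-, hz⟩
        · exact hz
        · exact absurd hz hz'
      obtain ⟨e1, e2⟩ := key0 s h1
      unfold pM
      simp only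
      rw [hpT, e1, e2, GRules_pN_zero' hκ, GRules_pN_zero, max_self]

private theorem GRules_near_zero (hX : IsCone X) (hQ : IsEq X T Q D) (hκ : P.κ ≤ 1 / 4)
    (hT : ∀ i, HasType T (χ i) (nd i)) {F : ℂ → EN N} {z₀ : ℂ} (hF : CurveAt T F z₀) (i : Fin n) :
    nearG Ω χ nd P Q D δ i (F z₀) (deriv F z₀) = 0 := by
  unfold nearG
  split_ifs with hcond
  · obtain ⟨-, hU, -, -⟩ := hcond
    have hTX : T ⊆ X := fun y hy => ((hQ.mem_iff y).mp hy).1
    obtain ⟨h1, h2, c, hc, hc0, h3⟩ := (χ i).curve hX (hF.mono hTX) hU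
    have hs : AnalyticAt ℂ (fun z => ((χ i).q (F z)).1) z₀ := by
      have h4 : AnalyticAt ℂ (fun p : ℂ × ℂ => p.1) ((fun z => (χ i).q (F z)) z₀) := analyticAt_fst
      exact AnalyticAt.comp (g := fun p : ℂ × ℂ => p.1) (f := fun z => (χ i).q (F z)) h4 h1
    have ht : AnalyticAt ℂ (fun z => ((χ i).q (F z)).2) z₀ := by
      have h4 : AnalyticAt ℂ (fun p : ℂ × ℂ => p.2) ((fun z => (χ i).q (F z)) z₀) := analyticAt_snd
      exact AnalyticAt.comp (g := fun p : ℂ × ℂ => p.2) (f := fun z => (χ i).q (F z)) h4 h1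
    have h5 : ∀ᶠ z in 𝓝 z₀, ((χ i).q (F z)).1 = 0 ∨ (nd i = true ∧ ((χ i).q (F z)).2 = 0) := by
      filter_upwards [h3, hc.continuousAt.eventually_ne hc0, hF.2] with z hz hcz hzT
      obtain ⟨hz1, hz2⟩ := hz
      apply (hT i _ hz1).mp
      have h6 := hQ.smul_mem hX hzT (inv_ne_zero hcz)
      rw [hz2, smul_smul, inv_mul_cancel₀ hcz, one_smul] at h6
      exact h6
    have h7 : fderiv ℂ (χ i).q (F z₀) (deriv F z₀) =
        (deriv (fun z => ((χ i).q (F z)).1) z₀, deriv (fun z => ((χ i).q (F z)).2) z₀) := by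
      rw [← h2]
      have hd : HasDerivAt (fun z => (χ i).q (F z)) (deriv (fun z => (χ i).q (F z)) z₀) z₀ :=
        h1.differentiableAt.hasDerivAt
      ext
      · exact (hasFDerivAt_fst.comp_hasDerivAt z₀ hd).deriv.symm
      · exact (hasFDerivAt_snd.comp_hasDerivAt z₀ hd).deriv.symm
    have h8 := GRules_pM_zero hκ hs ht h5
    rw [h7]
    have h9 : (χ i).q (F z₀) = (((χ i).q (F z₀)).1, ((χ i).q (F z₀)).2) := rfl
    rw [h9, h8, mul_zero]
  · rfl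

theorem GG_zero (hX : IsCone X) (hQ : IsEq X T Q D) (hM' : 1 ≤ M') (hκ : P.κ ≤ 1 / 4)
    (hT : ∀ i, HasType T (χ i) (nd i)) {F : ℂ → EN N} {z₀ : ℂ} (hF : CurveAt T F z₀) :
    GG Ω χ nd P Q D M' δ c₁ (F z₀) (deriv F z₀) = 0 := by
  obtain ⟨k, hk⟩ := exists_GG_eq (Ω := Ω) (χ := χ) (nd := nd) (P := P) (Q := Q) (D := D)
    (M' := M') (δ := δ) (c₁ := c₁) (F z₀) (deriv F z₀)
  rw [hk]
  cases k with
  | none =>
    simp only [pieceG]
    have h1 : Q (F z₀) = 0 := ((hQ.mem_iff _).mp hF.mem).2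
    have h2 : rho Q D (F z₀) = 0 := by
      unfold rho
      rw [h1, norm_zero, zero_div]
    rw [h2, zero_pow (by omega), zero_mul]
  | some i =>
    simp only [pieceG]
    rw [GRules_near_zero hX hQ hκ hT hF i, mul_zero]

end Pool.Agent.H14.PP

end

section

/-!
# BPm GUsc: the metric is upper semicontinuous

A finite maximum (`exists_GG_eq`): it is enough to show for every `k`: if
`pieceG k x v < a` then `pieceG k y w < a` for `(y, w)` near `(x, v)`, `y ∈ K`.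
Far piece: continuous (`continuousAt_rho`, `continuousAt_fs`, `x ≠ 0`). Near piece `i`:
* if `x ∈ U`, `‖q x‖ ≤ 1`, `rho x ≤ δ`: the formula
  `φ (y, v') = c₁ ACoef Ω (χ i) (q y) * pM (nd i) P (q y) (fderiv ℂ q y v')` is continuous at `(x, v)`
  (`continuousAt_ACoef` at `q x`, `‖q x‖ < 2`, `σ (q x) ∈ K` by `Chart.sigma_mem_iff`;
  `continuous_pM`; `q` is analytic at `x`, so `y ↦ fderiv ℂ q y` is continuous at `x`), and
  `pieceG (some i) ≤ φ` everywhere (`φ ≥ 0`), with equality at `(x, v)`.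
* otherwise the set `S = {y ∈ X | y ∈ U, ‖q y‖ ≤ 1, rho y ≤ δ}` is closed in `X` (`Chart.isClosed`
  with `r = 1`, `continuousAt_rho`) and does not contain `x`, so the piece is `0` for all
  `y ∈ X` close to `x`, as it is at `x`.
-/

open Topology Filter Metric

namespace Pool.Agent.H14.PP

attribute [-instance] ProperSMul.toContinuousSMul

open Pool.Agent.H36.BP

variable {N : ℕ} {W : Type*} [NormedAddCommGroup W] [InnerProductSpace ℂ W]
  {X K T : Set (EN N)} {m j : ℕ} {Ω : Form K m j} {n : ℕ} {χ : Fin n → Chart X}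
  {nd : Fin n → Bool} {P : Par} {Q : EN N → W} {D M' : ℕ} {δ c₁ : ℝ}

private theorem GUsc_far (hX : IsCone X) (hK : IsOpenPart X K) (hQ : IsEq X T Q D) {x : EN N}
    (hx : x ∈ K) (v : EN N) {a : ℝ} (ha : rho Q D x ^ M' * fs x v < a) :
    ∀ᶠ p : EN N × EN N in 𝓝 (x, v), rho Q D p.1 ^ M' * fs p.1 p.2 < a := by
  have hx0 : x ≠ 0 := hX.ne_zero (hK.subset hx)
  have h1 : ContinuousAt (fun p : EN N × EN N => rho Q D p.1) (x, v) :=
    ContinuousAt.comp (g := rho Q D) (f := fun p : EN N × EN N => p.1)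
      (continuousAt_rho hQ.analytic hx0) continuousAt_fst
  have h2 : ContinuousAt (fun p : EN N × EN N => rho Q D p.1 ^ M' * fs p.1 p.2) (x, v) :=
    (h1.pow M').mul (continuousAt_fs hx0 v)
  exact h2.eventually (gt_mem_nhds ha)

omit [InnerProductSpace ℂ W] in
private theorem GUsc_zero {i : Fin n} {y : EN N} (h : ¬ (y ∈ X ∧ y ∈ (χ i).U ∧ ‖(χ i).q y‖ ≤ 1 ∧
    rho Q D y ≤ δ)) (w : EN N) : nearG Ω χ nd P Q D δ i y w = 0 := by
  unfold nearG
  rw [if_neg h]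

private theorem GUsc_near (hX : IsCone X) (hK : IsOpenPart X K) (hQ : IsEq X T Q D)
    (hP : ConvPar P) (hc₁ : 0 ≤ c₁) (i : Fin n) {x : EN N} (hx : x ∈ K) (v : EN N) {a : ℝ}
    (ha0 : 0 < a) (ha : c₁ * nearG Ω χ nd P Q D δ i x v < a) :
    ∀ᶠ p : EN N × EN N in 𝓝 (x, v), c₁ * nearG Ω χ nd P Q D δ i p.1 p.2 < a := by
  have hxX : x ∈ X := hK.subset hx
  have hx0 : x ≠ 0 := hX.ne_zero hxX
  have hM : 0 ≤ P.M := by
    have := hP.M_ge
    linarith
  have hfst : Tendsto (fun p : EN N × EN N => p.1) (𝓝 (x, v)) (𝓝 x) := continuousAt_fst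
  by_cases hS : x ∈ insert (0 : EN N) {x | x ∈ X ∧ x ∈ (χ i).U ∧ ‖(χ i).q x‖ ≤ 1}
  · obtain ⟨-, hU, hq⟩ : x ∈ X ∧ x ∈ (χ i).U ∧ ‖(χ i).q x‖ ≤ 1 := hS.resolve_left hx0
    by_cases hρ : rho Q D x ≤ δ
    · rw [nearG_of_mem hxX hU hq hρ] at ha
      have hb : (χ i).q x ∈ ball (0 : ℂ × ℂ) 2 := by
        rw [mem_ball_zero_iff]
        linarith
      have hσK : (χ i).σ ((χ i).q x) ∈ K :=
        (Chart.sigma_mem_iff (χ i) hxX hU (S := K) hK.smul_mem).2 hx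
      have hqc : ContinuousAt (fun p : EN N × EN N => (χ i).q p.1) (x, v) :=
        ContinuousAt.comp (g := (χ i).q) (f := fun p : EN N × EN N => p.1)
          ((χ i).q_an x hU).continuousAt continuousAt_fst
      have hA : ContinuousAt (fun p : EN N × EN N => ACoef Ω (χ i) ((χ i).q p.1)) (x, v) :=
        ContinuousAt.comp (g := ACoef Ω (χ i)) (f := fun p : EN N × EN N => (χ i).q p.1)
          (continuousAt_ACoef hK Ω (χ i) hb hσK) hqc
      have hD : ContinuousAt (fun p : EN N × EN N => fderiv ℂ (χ i).q p.1 p.2) (x, v) := by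
        have h1 : ContinuousAt (fun p : EN N × EN N => fderiv ℂ (χ i).q p.1) (x, v) :=
          ContinuousAt.comp (g := fderiv ℂ (χ i).q) (f := fun p : EN N × EN N => p.1)
            ((χ i).q_an x hU).fderiv.continuousAt continuousAt_fst
        exact h1.clm_apply continuousAt_snd
      have hpM : ContinuousAt (fun p : EN N × EN N =>
          pM (nd i) P ((χ i).q p.1) (fderiv ℂ (χ i).q p.1 p.2)) (x, v) := by
        have h1 := continuous_pM hM hP.κ_pos.le hP.κ_le (nd i)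
        exact ContinuousAt.comp
          (g := fun y : (ℂ × ℂ) × (ℂ × ℂ) => pM (nd i) P y.1 y.2)
          (f := fun p : EN N × EN N => ((χ i).q p.1, fderiv ℂ (χ i).q p.1 p.2))
          h1.continuousAt (hqc.prodMk hD)
      have hφ : ContinuousAt (fun p : EN N × EN N => c₁ * (ACoef Ω (χ i) ((χ i).q p.1) *
          pM (nd i) P ((χ i).q p.1) (fderiv ℂ (χ i).q p.1 p.2))) (x, v) :=
        continuousAt_const.mul (hA.mul hpM)
      filter_upwards [hφ.eventually (gt_mem_nhds ha)] with p hp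
      refine lt_of_le_of_lt (mul_le_mul_of_nonneg_left ?_ hc₁) hp
      by_cases h : p.1 ∈ X ∧ p.1 ∈ (χ i).U ∧ ‖(χ i).q p.1‖ ≤ 1 ∧ rho Q D p.1 ≤ δ
      · rw [nearG_of_mem h.1 h.2.1 h.2.2.1 h.2.2.2]
      · rw [GUsc_zero h]
        exact mul_nonneg (ACoef_nonneg _ _ _) (pM_nonneg hM _ _ _)
    · push Not at hρ
      have h1 : ∀ᶠ y in 𝓝 x, δ < rho Q D y :=
        (continuousAt_rho hQ.analytic hx0).eventually (lt_mem_nhds hρ)
      filter_upwards [hfst.eventually h1] with p hp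
      rw [GUsc_zero (fun h => absurd h.2.2.2 (not_le.2 hp)), mul_zero]
      exact ha0
  · have h1 : ∀ᶠ y in 𝓝 x, y ∉ insert (0 : EN N) {x | x ∈ X ∧ x ∈ (χ i).U ∧ ‖(χ i).q x‖ ≤ 1} :=
      (Chart.isClosed hX (χ i) zero_le_one one_lt_two).isOpen_compl.mem_nhds hS
    filter_upwards [hfst.eventually h1] with p hp
    rw [GUsc_zero (fun h => hp (Or.inr ⟨h.1, h.2.1, h.2.2.1⟩)), mul_zero]
    exact ha0

theorem GG_usc (hX : IsCone X) (hK : IsOpenPart X K) (hQ : IsEq X T Q D) (hP : ConvPar P)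
    (hc₁ : 0 ≤ c₁) {x : EN N} (hx : x ∈ K) (v : EN N) {a : ℝ}
    (ha : GG Ω χ nd P Q D M' δ c₁ x v < a) :
    ∀ᶠ p : EN N × EN N in 𝓝 (x, v), p.1 ∈ K → GG Ω χ nd P Q D M' δ c₁ p.1 p.2 < a := by
  have ha0 : 0 < a := lt_of_le_of_lt (GG_nonneg x v) ha
  have hk : ∀ k, ∀ᶠ p : EN N × EN N in 𝓝 (x, v), pieceG Ω χ nd P Q D M' δ c₁ k p.1 p.2 < a := by
    intro k
    have h1 : pieceG Ω χ nd P Q D M' δ c₁ k x v < a := lt_of_le_of_lt (pieceG_le_GG k x v) ha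
    match k with
    | none => exact GUsc_far hX hK hQ hx v h1
    | some i => exact GUsc_near hX hK hQ hP hc₁ i hx v ha0 h1
  filter_upwards [Filter.eventually_all.2 hk] with p hp _
  obtain ⟨k, hk'⟩ := exists_GG_eq (Ω := Ω) (χ := χ) (nd := nd) (P := P) (Q := Q) (D := D)
    (M' := M') (δ := δ) (c₁ := c₁) p.1 p.2
  rw [hk']
  exact hp k

end Pool.Agent.H14.PP

end
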