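import Pool.Agent.H94.CB.M38
import Pool.Agent.H94.CB.M45
import Pool.Agent.H94.CB.M53
import Pool.Agent.H94.CB.M60

/-! The parts of this file: H14.PP.RhoChart, H14.PP.NearBounds_1, H14.PP.Metric. -/

section

/-!
# BPm RhoChart: the equations of `T` in a chart

(i) `p ↦ Q (σ p)` is analytic on the bidisc of radius `2` and vanishes for `p.1 = 0` (there
`σ p ∈ T`). Its derivative is bounded on the closed bidisc of radius `1` (compact, convex), so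
`‖Q (σ (s,t))‖ = ‖Q (σ (s,t)) - Q (σ (0,t))‖ ≤ C ‖s‖`; `‖σ‖` is bounded below. Same for `p.2` if
`nd = true`. (`Pool.Agent.H62.BP.upper_smooth` treats the scalar case.)
(ii) Compactness: on the compact set `{p | ‖p‖ ≤ 1, small nd p ≥ r}` the continuous function
`rho Q D (σ p)` is positive (`σ p ∉ T`, `mem_iff`), hence at least some `δ' > 0`; `δ = δ'/2` (if the
set is empty any `δ` works).
-/

open Topology Filter Metric

namespace Pool.Agent.H14.PP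

attribute [-instance] ProperSMul.toContinuousSMul

open Pool.Agent.H36.BP

variable {N : ℕ} {W : Type*} [NormedAddCommGroup W] [InnerProductSpace ℂ W]
  {X K T : Set (EN N)} {Q : EN N → W} {D : ℕ}

private theorem RhoChart_sub {p : ℂ × ℂ} (hp : p ∈ closedBall (0 : ℂ × ℂ) 1) :
    p ∈ ball (0 : ℂ × ℂ) 2 := by
  rw [mem_closedBall_zero_iff] at hp
  rw [mem_ball_zero_iff]
  linarith

private theorem RhoChart_lip (hQ : IsEq X T Q D) (χ : Chart X) :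
    ∃ L : ℝ, 0 ≤ L ∧ ∀ p ∈ closedBall (0 : ℂ × ℂ) 1, ∀ p' ∈ closedBall (0 : ℂ × ℂ) 1,
      ‖Q (χ.σ p) - Q (χ.σ p')‖ ≤ L * ‖p - p'‖ := by
  have hloc : LocallyLipschitzOn (closedBall (0 : ℂ × ℂ) 1) (fun p => Q (χ.σ p)) := by
    intro p hp
    have h1 : AnalyticAt ℂ (fun p => Q (χ.σ p)) p :=
      AnalyticAt.fun_comp (g := Q) (f := χ.σ) (hQ.analytic _) (χ.σ_an p (RhoChart_sub hp))
    obtain ⟨L, s, hs, hL⟩ := h1.hasStrictFDerivAt.exists_lipschitzOnWith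
    exact ⟨L, s, mem_nhdsWithin_of_mem_nhds hs, hL⟩
  obtain ⟨L, hL⟩ := hloc.exists_lipschitzOnWith_of_compact (isCompact_closedBall _ _)
  exact ⟨L, L.2, fun p hp p' hp' => lipschitzOnWith_iff_norm_sub_le.mp hL hp hp'⟩

private theorem RhoChart_low (hX : IsCone X) (χ : Chart X) :
    ∃ c : ℝ, 0 < c ∧ ∀ p ∈ closedBall (0 : ℂ × ℂ) 1, c ≤ ‖χ.σ p‖ := by
  have hc : ContinuousOn (fun p => ‖χ.σ p‖) (closedBall (0 : ℂ × ℂ) 1) := fun p hp =>
    (χ.σ_an p (RhoChart_sub hp)).continuousAt.norm.continuousWithinAt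
  obtain ⟨p₀, hp₀, hmin⟩ := (isCompact_closedBall (0 : ℂ × ℂ) 1).exists_isMinOn
    ⟨0, mem_closedBall_self zero_le_one⟩ hc
  exact ⟨‖χ.σ p₀‖, norm_pos_iff.mpr (χ.sigma_ne_zero hX (RhoChart_sub hp₀)), fun p hp => hmin hp⟩

theorem rho_chart_le (hX : IsCone X) (hQ : IsEq X T Q D) (χ : Chart X) {nd : Bool}
    (h : HasType T χ nd) :
    ∃ C : ℝ, 1 ≤ C ∧ ∀ p ∈ closedBall (0 : ℂ × ℂ) 1,
      rho Q D (χ.σ p) ≤ C * ‖p.1‖ ∧ (nd = true → rho Q D (χ.σ p) ≤ C * ‖p.2‖) := by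
  obtain ⟨L, hL0, hL⟩ := RhoChart_lip hQ χ
  obtain ⟨c, hc, hlow⟩ := RhoChart_low hX χ
  have hcD : 0 < c ^ D := pow_pos hc D
  have key : ∀ p ∈ closedBall (0 : ℂ × ℂ) 1, ∀ p' ∈ closedBall (0 : ℂ × ℂ) 1, χ.σ p' ∈ T →
      rho Q D (χ.σ p) ≤ max 1 (L / c ^ D) * ‖p - p'‖ := by
    intro p hp p' hp' hT
    have h1 := hL p hp p' hp'
    rw [((hQ.mem_iff _).mp hT).2, sub_zero] at h1
    have h2 : c ^ D ≤ ‖χ.σ p‖ ^ D := pow_le_pow_left₀ hc.le (hlow p hp) D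
    calc rho Q D (χ.σ p) = ‖Q (χ.σ p)‖ / ‖χ.σ p‖ ^ D := rfl
      _ ≤ (L * ‖p - p'‖) / c ^ D := div_le_div₀ (by positivity) h1 hcD h2
      _ = L / c ^ D * ‖p - p'‖ := by ring
      _ ≤ max 1 (L / c ^ D) * ‖p - p'‖ :=
        mul_le_mul_of_nonneg_right (le_max_right _ _) (norm_nonneg _)
  refine ⟨max 1 (L / c ^ D), le_max_left _ _, fun p hp => ⟨?_, fun hnd => ?_⟩⟩
  · have hp' : ((0, p.2) : ℂ × ℂ) ∈ closedBall (0 : ℂ × ℂ) 1 := by
      rw [mem_closedBall_zero_iff, Prod.norm_def] at hp ⊢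
      simpa using (le_max_right _ _).trans hp
    have h1 := key p hp (0, p.2) hp' ((h _ (RhoChart_sub hp')).mpr (Or.inl rfl))
    have h2 : ‖p - (0, p.2)‖ = ‖p.1‖ := by
      rw [Prod.norm_def]
      simp
    rwa [h2] at h1
  · have hp' : ((p.1, 0) : ℂ × ℂ) ∈ closedBall (0 : ℂ × ℂ) 1 := by
      rw [mem_closedBall_zero_iff, Prod.norm_def] at hp ⊢
      simpa using (le_max_left _ _).trans hp
    have h1 := key p hp (p.1, 0) hp' ((h _ (RhoChart_sub hp')).mpr (Or.inr ⟨hnd, rfl⟩))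
    have h2 : ‖p - (p.1, 0)‖ = ‖p.2‖ := by
      rw [Prod.norm_def]
      simp
    rwa [h2] at h1

private theorem RhoChart_cont (nd : Bool) : Continuous (small nd) := by
  unfold small
  cases nd
  · simpa using continuous_fst.norm
  · have h : Continuous fun p : ℂ × ℂ => ‖p.1‖ * ‖p.2‖ := by fun_prop
    simpa using h

theorem small_of_rho (hX : IsCone X) (hQ : IsEq X T Q D) (χ : Chart X) {nd : Bool}
    (h : HasType T χ nd) {r : ℝ} (hr : 0 < r) :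
    ∃ δ : ℝ, 0 < δ ∧ ∀ p ∈ closedBall (0 : ℂ × ℂ) 1, rho Q D (χ.σ p) ≤ δ → small nd p ≤ r := by
  obtain ⟨S, hS⟩ : ∃ S : Set (ℂ × ℂ), S = closedBall (0 : ℂ × ℂ) 1 ∩ {p | r ≤ small nd p} :=
    ⟨_, rfl⟩
  have hSc : IsCompact S := by
    rw [hS]
    exact (isCompact_closedBall _ _).inter_right (isClosed_le continuous_const (RhoChart_cont nd))
  have hpos : ∀ p ∈ S, 0 < rho Q D (χ.σ p) := by
    intro p hp
    rw [hS] at hp
    have hp2 : r ≤ small nd p := hp.2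
    have hb := RhoChart_sub hp.1
    have hne := χ.sigma_ne_zero hX hb
    refine lt_of_le_of_ne (rho_nonneg _ _ _) fun h0 => ?_
    have hQ0 : Q (χ.σ p) = 0 := (rho_eq_zero_iff hne).mp h0.symm
    have hT : χ.σ p ∈ T := (hQ.mem_iff _).mpr ⟨(χ.σ_mem p hb).1, hQ0⟩
    rcases (h p hb).mp hT with h1 | ⟨h1, h2⟩
    · have h3 : small nd p = 0 := by
        unfold small
        rw [h1, norm_zero, zero_mul, ite_self]
      linarith
    · have h3 : small nd p = 0 := by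
        unfold small
        rw [if_pos h1, h2, norm_zero, mul_zero]
      linarith
  have hcont : ContinuousOn (fun p => rho Q D (χ.σ p)) S := by
    intro p hp
    rw [hS] at hp
    have hb := RhoChart_sub hp.1
    have h1 : ContinuousAt (rho Q D) (χ.σ p) := continuousAt_rho hQ.analytic (χ.sigma_ne_zero hX hb)
    exact (ContinuousAt.comp (f := χ.σ) (g := rho Q D) h1
      (χ.σ_an p hb).continuousAt).continuousWithinAt
  have hout : ∀ p ∈ closedBall (0 : ℂ × ℂ) 1, p ∉ S → small nd p ≤ r := by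
    intro p hp hpS
    by_contra hcon
    push Not at hcon
    exact hpS (by rw [hS]; exact ⟨hp, hcon.le⟩)
  rcases S.eq_empty_or_nonempty with he | hne
  · exact ⟨1, one_pos, fun p hp _ => hout p hp (by rw [he]; exact Set.notMem_empty p)⟩
  · obtain ⟨p₀, hp₀, hmin⟩ := hSc.exists_isMinOn hne hcont
    have h0 := hpos p₀ hp₀
    refine ⟨rho Q D (χ.σ p₀) / 2, by linarith, fun p hp hle => hout p hp fun hpS => ?_⟩
    have h1 : rho Q D (χ.σ p₀) ≤ rho Q D (χ.σ p) := hmin hpS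
    linarith

end Pool.Agent.H14.PP

end

section

/-!
# BPm NearBounds: upper and lower bounds for the metric near `T`

`b` analytic on the bidisc with `b = gD d^(m-1) * aCoef` on `{σ p ∈ K}` (`PoleBound`). For
`‖p‖ ≤ 1`: `small nd p ≤ ‖gD d p‖ ≤ 1` (`gD d p` is a product of some of the coordinates; if
`d.2 = true` then `nd = true`; if `nd = false` and `d.1 = true` it is `p.1`, `small = ‖p.1‖`).
* Upper bound (`ACoef_le`): `‖aCoef p‖ = ‖b p‖/‖gD d p‖^(m-1) ≤ A/‖gD d p‖^(m-1)`, so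
  `ACoef p ≤ C ‖gD d p‖^(-((m-1)/m))` (`‖σ‖` bounded above on the closed bidisc).
* `near_upper`: hence `ACoef p ≤ C small^(-1)`, `rho^2 ≤ C^2 small` (`rho_chart_le`: if `nd = true`
  `rho ≤ C ‖p.1‖, C ‖p.2‖`; if `nd = false` `rho ≤ C ‖p.1‖` and `‖p.1‖^2 ≤ ‖p.1‖`), and
  `pM ≤ 2 ‖w‖` (`pM_le`). If `small nd p = 0` then `rho = 0` and the left side is `0`.
* `near_lower`: `b p ≠ 0` if `σ p ∉ T` (then `σ p ∈ K`, `gD ≠ 0` because `σ p ∈ K` means no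
  `D`-coordinate vanishes, `aCoef_ne_zero`), that is if `p.1 ≠ 0` and (`nd = true → p.2 ≠ 0`). So
  `‖b p‖ ≥ c small^k` (`Pool.Agent.H62.BP.lower_smooth`, `lower_node`), `‖aCoef p‖ ≥ ‖b p‖`,
  `ACoef p ≥ c' small^k` (`small ≤ 1`, `‖σ‖` bounded below, `1 ≤ m`), and
  `pM nd P p w ≥ small nd p * ‖w‖ * exp (-K-1)` (`le_pM_false`, `le_pM_true`). Finally
  `small ≥ rho^2/C^2`: `M₀ = 2 (k + 1)`.
-/

open Topology Filter Metric

namespace Pool.Agent.H14.PP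

attribute [-instance] ProperSMul.toContinuousSMul

open Pool.Agent.H36.BP

variable {N : ℕ} {W : Type*} [NormedAddCommGroup W] [InnerProductSpace ℂ W]
  {X K T : Set (EN N)} {Q : EN N → W} {D m j : ℕ}

private theorem NearBounds_rho (hX : IsCone X) (hQ : IsEq X T Q D) (χ : Chart X) {nd : Bool}
    (h : HasType T χ nd) : ∃ C : ℝ, 0 < C ∧ ∀ p ∈ closedBall (0 : ℂ × ℂ) 1,
      0 ≤ rho Q D (χ.σ p) ∧ rho Q D (χ.σ p) ^ 2 ≤ C * small nd p := by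
  obtain ⟨C, hC, hr⟩ := rho_chart_le hX hQ χ h
  refine ⟨C ^ 2, by positivity, fun p hp => ?_⟩
  obtain ⟨-, -, h1, h2⟩ := NearBounds_mem hp
  have h0 : 0 ≤ rho Q D (χ.σ p) := by unfold rho; positivity
  refine ⟨h0, ?_⟩
  obtain ⟨r1, r2⟩ := hr p hp
  have n1 := norm_nonneg p.1
  have n2 := norm_nonneg p.2
  unfold small
  split_ifs with hnd
  · have r3 := r2 hnd
    calc rho Q D (χ.σ p) ^ 2 = rho Q D (χ.σ p) * rho Q D (χ.σ p) := sq _
      _ ≤ (C * ‖p.1‖) * (C * ‖p.2‖) := mul_le_mul r1 r3 h0 (by positivity)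
      _ = C ^ 2 * (‖p.1‖ * ‖p.2‖) := by ring
  · calc rho Q D (χ.σ p) ^ 2 = rho Q D (χ.σ p) * rho Q D (χ.σ p) := sq _
      _ ≤ (C * ‖p.1‖) * (C * ‖p.1‖) := mul_le_mul r1 r1 h0 (by positivity)
      _ = C ^ 2 * (‖p.1‖ * ‖p.1‖) := by ring
      _ ≤ C ^ 2 * (‖p.1‖ * 1) := by gcongr
      _ = C ^ 2 * ‖p.1‖ := by ring

theorem near_upper (hX : IsCone X) (hQ : IsEq X T Q D) (hm : 1 ≤ m) (Ω : Form K m j)
    (hΩ : Ω.PoleBound X) (χ : Chart X) {P : Par} (hP : ConvPar P) {nd : Bool} {d : Bool × Bool}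
    (h : HasType T χ nd) (hd : DType K χ d) (hdn : d.2 = true → nd = true) :
    ∃ C : ℝ, 0 < C ∧ ∀ p ∈ closedBall (0 : ℂ × ℂ) 1, χ.σ p ∈ K → ∀ w,
      rho Q D (χ.σ p) ^ 2 * (ACoef Ω χ p * pM nd P p w) ≤ C * ‖w‖ := by
  obtain ⟨C1, hC1, hA⟩ := ACoef_le hX hm Ω hΩ χ hd
  obtain ⟨C2, hC2, hr⟩ := NearBounds_rho hX hQ χ h
  have hm0 : (0 : ℝ) < m := by exact_mod_cast hm
  have hm1 : (1 : ℝ) ≤ m := by exact_mod_cast hm
  refine ⟨C2 * C1 * 2, by positivity, fun p hp hpK w => ?_⟩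
  obtain ⟨hg0, hg1⟩ := NearBounds_gD χ hd hp hpK
  obtain ⟨hs0, hsg, hs1⟩ := NearBounds_small hdn hp
  obtain ⟨hr0, hr2⟩ := hr p hp
  have h1 : ACoef Ω χ p ≤ C1 * ‖gD d p‖⁻¹ := by
    refine (hA p hp hpK).trans (mul_le_mul_of_nonneg_left ?_ hC1.le)
    rw [← Real.rpow_neg_one]
    refine Real.rpow_le_rpow_of_exponent_ge hg0 hg1 ?_
    rw [neg_le_neg_iff, div_le_one hm0]
    linarith
  have h2 : rho Q D (χ.σ p) ^ 2 ≤ C2 * ‖gD d p‖ := hr2.trans (mul_le_mul_of_nonneg_left hsg hC2.le)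
  have h3 : pM nd P p w ≤ 2 * ‖w‖ := pM_le hP nd (NearBounds_mem hp).2.1 w
  have h4 : 0 ≤ pM nd P p w := pM_nonneg (zero_le_one.trans hP.M_ge) nd p w
  have h5 : 0 ≤ ACoef Ω χ p := ACoef_nonneg Ω χ p
  have hgi : 0 ≤ ‖gD d p‖⁻¹ := inv_nonneg.2 hg0.le
  calc rho Q D (χ.σ p) ^ 2 * (ACoef Ω χ p * pM nd P p w)
      ≤ (C2 * ‖gD d p‖) * ((C1 * ‖gD d p‖⁻¹) * (2 * ‖w‖)) := by
        refine mul_le_mul h2 (mul_le_mul h1 h3 h4 (by positivity)) (by positivity) (by positivity)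
    _ = C2 * C1 * 2 * ‖w‖ * (‖gD d p‖ * ‖gD d p‖⁻¹) := by ring
    _ = C2 * C1 * 2 * ‖w‖ := by rw [mul_inv_cancel₀ hg0.ne', mul_one]

private theorem NearBounds_b (hX : IsCone X) (hK : IsOpenPart X K) (hKT : ∀ x ∈ X, x ∉ K → x ∈ T)
    (Ω : Form K m j) (hΩ : Ω.NoZeroOff T) (χ : Chart X) {nd : Bool} {d : Bool × Bool}
    (h : HasType T χ nd) (hd : DType K χ d) {b : ℂ × ℂ → ℂ}
    (hb : ∀ p ∈ ball (0 : ℂ × ℂ) 2, AnalyticAt ℂ b p)
    (hbe : ∀ p ∈ ball (0 : ℂ × ℂ) 2, χ.σ p ∈ K → b p = gD d p ^ (m - 1) * aCoef Ω χ p) :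
    ∃ (c : ℝ) (k : ℕ), 0 < c ∧ ∀ p ∈ closedBall (0 : ℂ × ℂ) 1, c * small nd p ^ k ≤ ‖b p‖ := by
  have hball : ∀ s t : ℂ, ‖s‖ < 2 → ‖t‖ < 2 → (s, t) ∈ ball (0 : ℂ × ℂ) 2 := by
    intro s t hs ht
    rw [mem_ball_zero_iff, Prod.norm_def]
    exact max_lt hs ht
  have hne : ∀ p ∈ ball (0 : ℂ × ℂ) 2, ¬ (p.1 = 0 ∨ (nd = true ∧ p.2 = 0)) → b p ≠ 0 := by
    intro p hp hp0
    have hT : χ.σ p ∉ T := fun hT => hp0 ((h p hp).1 hT)
    have hpK : χ.σ p ∈ K := by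
      by_contra hpK
      exact hT (hKT _ (χ.σ_mem p hp).1 hpK)
    rw [hbe p hp hpK]
    refine mul_ne_zero (pow_ne_zero _ ?_) (aCoef_ne_zero hX hK Ω χ hΩ hp hpK hT)
    have h3 : ¬ ((d.1 = true ∧ p.1 = 0) ∨ (d.2 = true ∧ p.2 = 0)) := fun h' => (hd p hp).2 h' hpK
    rw [not_or] at h3
    unfold gD
    refine mul_ne_zero ?_ ?_
    · split_ifs with h'
      · exact fun h0 => h3.1 ⟨h', h0⟩
      · exact one_ne_zero
    · split_ifs with h'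
      · exact fun h0 => h3.2 ⟨h', h0⟩
      · exact one_ne_zero
  cases nd with
  | true =>
    obtain ⟨c, k, hc, -, hck⟩ := Pool.Agent.H62.BP.lower_node (a := b)
      (fun s t hs ht => hb _ (hball s t hs ht))
      (fun s t hs ht hs0 ht0 => hne _ (hball s t hs ht) (by
        rintro (h' | ⟨-, h'⟩)
        · exact hs0 h'
        · exact ht0 h'))
    refine ⟨c, k, hc, fun p hp => ?_⟩
    obtain ⟨-, -, h1, h2⟩ := NearBounds_mem hp
    have := hck p.1 p.2 h1 h2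
    unfold small
    rw [if_pos rfl]
    exact this
  | false =>
    obtain ⟨c, k, hc, hck⟩ := Pool.Agent.H62.BP.lower_smooth (a := b)
      (fun s t hs ht => hb _ (hball s t (hs.trans_lt one_lt_two) (ht.trans_lt one_lt_two)))
      (fun s t hs ht hs0 => hne _ (hball s t (hs.trans_lt one_lt_two) (ht.trans_lt one_lt_two)) (by
        rintro (h' | ⟨h', -⟩)
        · exact hs0 h'
        · exact absurd h' (by simp)))
    refine ⟨c, k, hc, fun p hp => ?_⟩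
    obtain ⟨-, -, h1, h2⟩ := NearBounds_mem hp
    have := hck p.1 p.2 h1 h2
    unfold small
    rw [if_neg (by simp)]
    exact this

theorem near_lower (hX : IsCone X) (hK : IsOpenPart X K) (hKT : ∀ x ∈ X, x ∉ K → x ∈ T)
    (hQ : IsEq X T Q D) (hm : 1 ≤ m) (Ω : Form K m j) (hΩ : Ω.NoZeroOff T)
    (hΩ' : Ω.PoleBound X) (χ : Chart X) {P : Par} (hP : ConvPar P) {nd : Bool} {d : Bool × Bool}
    (h : HasType T χ nd) (hd : DType K χ d) (hdn : d.2 = true → nd = true) :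
    ∃ (M₀ : ℕ) (c : ℝ), 0 < c ∧ ∀ p ∈ closedBall (0 : ℂ × ℂ) 1, χ.σ p ∈ K → ∀ w,
      c * rho Q D (χ.σ p) ^ M₀ * ‖w‖ ≤ ACoef Ω χ p * pM nd P p w := by
  obtain ⟨a, A, ha, hA, hσ⟩ := NearBounds_sigma hX χ
  obtain ⟨b, hb, hbe⟩ := hΩ' χ d hd
  obtain ⟨c0, k, hc0, hck⟩ := NearBounds_b hX hK hKT Ω hΩ χ h hd hb hbe
  obtain ⟨C2, hC2, hr⟩ := NearBounds_rho hX hQ χ h
  have hm0 : (0 : ℝ) < m := by exact_mod_cast hm
  have hm1 : (1 : ℝ) ≤ m := by exact_mod_cast hm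
  have hc1 : 0 < c0 ^ (1 / (m : ℝ)) * a ^ ((j : ℝ) / m) := by positivity
  refine ⟨2 * (k + 1), c0 ^ (1 / (m : ℝ)) * a ^ ((j : ℝ) / m) * Real.exp (-P.K - 1) / C2 ^ (k + 1),
    by positivity, fun p hp hpK w => ?_⟩
  obtain ⟨hg0, hg1⟩ := NearBounds_gD χ hd hp hpK
  obtain ⟨hs0, hsg, hs1⟩ := NearBounds_small hdn hp
  obtain ⟨hr0, hr2⟩ := hr p hp
  have hp1 := (NearBounds_mem hp).2.1
  have hsk0 : 0 ≤ small nd p ^ k := pow_nonneg hs0 k
  have hsk1 : small nd p ^ k ≤ 1 := pow_le_one₀ hs0 hs1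
  -- lower bound of the coefficient
  have e1 : c0 * small nd p ^ k ≤ ‖aCoef Ω χ p‖ := by
    refine (hck p hp).trans ?_
    rw [hbe p (NearBounds_mem hp).1 hpK, norm_mul, norm_pow]
    exact mul_le_of_le_one_left (norm_nonneg _) (pow_le_one₀ hg0.le hg1)
  have e2 : c0 ^ (1 / (m : ℝ)) * small nd p ^ k ≤ ‖aCoef Ω χ p‖ ^ (1 / (m : ℝ)) := by
    refine le_trans ?_ (Real.rpow_le_rpow (by positivity) e1 (by positivity))
    rw [Real.mul_rpow hc0.le hsk0]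
    refine mul_le_mul_of_nonneg_left ?_ (by positivity)
    rcases hsk0.eq_or_lt with h0 | h0
    · rw [← h0]
      exact Real.rpow_nonneg le_rfl _
    · calc small nd p ^ k = (small nd p ^ k) ^ (1 : ℝ) := (Real.rpow_one _).symm
        _ ≤ (small nd p ^ k) ^ (1 / (m : ℝ)) := by
          refine Real.rpow_le_rpow_of_exponent_ge h0 hsk1 ?_
          rw [div_le_one hm0]
          exact hm1
  have e3 : a ^ ((j : ℝ) / m) ≤ ‖χ.σ p‖ ^ ((j : ℝ) / m) :=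
    Real.rpow_le_rpow ha.le (hσ p hp).1 (by positivity)
  have e4 : c0 ^ (1 / (m : ℝ)) * small nd p ^ k * a ^ ((j : ℝ) / m) ≤ ACoef Ω χ p := by
    unfold ACoef
    exact mul_le_mul e2 e3 (by positivity) (by positivity)
  -- lower bound of the piece
  have e5 : small nd p * ‖w‖ * Real.exp (-P.K - 1) ≤ pM nd P p w := by
    cases nd with
    | true =>
      have := le_pM_true hP hp1 w
      unfold small
      rw [if_pos rfl]
      exact this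
    | false =>
      have := le_pM_false hP hp1 w
      unfold small
      rw [if_neg (by simp)]
      exact this
  have e6 : rho Q D (χ.σ p) ^ (2 * (k + 1)) ≤ C2 ^ (k + 1) * small nd p ^ (k + 1) := by
    rw [pow_mul, ← mul_pow]
    exact pow_le_pow_left₀ (by positivity) hr2 _
  have e7 : 0 ≤ ACoef Ω χ p := ACoef_nonneg Ω χ p
  have hCk : 0 < C2 ^ (k + 1) := by positivity
  calc c0 ^ (1 / (m : ℝ)) * a ^ ((j : ℝ) / m) * Real.exp (-P.K - 1) / C2 ^ (k + 1) *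
        rho Q D (χ.σ p) ^ (2 * (k + 1)) * ‖w‖
      ≤ c0 ^ (1 / (m : ℝ)) * a ^ ((j : ℝ) / m) * Real.exp (-P.K - 1) / C2 ^ (k + 1) *
        (C2 ^ (k + 1) * small nd p ^ (k + 1)) * ‖w‖ := by gcongr
    _ = (c0 ^ (1 / (m : ℝ)) * small nd p ^ k * a ^ ((j : ℝ) / m)) *
          (small nd p * ‖w‖ * Real.exp (-P.K - 1)) := by
        rw [pow_succ (small nd p) k]
        field_simp
    _ ≤ ACoef Ω χ p * pM nd P p w := mul_le_mul e4 e5 (by positivity) e7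

end Pool.Agent.H14.PP

end

section

/-!
# The metric theorem
-/

open Topology Filter Metric

namespace Pool.Agent.H14.PP

attribute [-instance] ProperSMul.toContinuousSMul

open Pool.Agent.H36.BP

variable {N : ℕ} {W : Type*} [NormedAddCommGroup W] [InnerProductSpace ℂ W]
  {X K T : Set (EN N)} {m j : ℕ} {Q : EN N → W} {D : ℕ}

/-- a common upper bound -/
lemma exists_ub {n : ℕ} (f : Fin n → ℝ) : ∃ C : ℝ, 1 ≤ C ∧ ∀ i, f i ≤ C := by
  refine ⟨1 + ∑ i, |f i|, ?_, fun i => ?_⟩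
  · have : 0 ≤ ∑ i, |f i| := Finset.sum_nonneg fun i _ => abs_nonneg _
    linarith
  · have h1 : |f i| ≤ ∑ i, |f i| :=
      Finset.single_le_sum (f := fun i => |f i|) (fun i _ => abs_nonneg _) (Finset.mem_univ i)
    have h2 := le_abs_self (f i)
    linarith

/-- a common positive lower bound -/
lemma exists_lb {n : ℕ} (f : Fin n → ℝ) (hf : ∀ i, 0 < f i) :
    ∃ c : ℝ, 0 < c ∧ c ≤ 1 ∧ ∀ i, c ≤ f i := by
  obtain ⟨C, hC, hCf⟩ := exists_ub fun i => (f i)⁻¹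
  refine ⟨C⁻¹, by positivity, inv_le_one_of_one_le₀ hC, fun i => ?_⟩
  exact inv_le_of_inv_le₀ (hf i) (hCf i)

/-- a common upper bound for natural numbers -/
lemma exists_nat_ub {n : ℕ} (f : Fin n → ℕ) : ∃ M : ℕ, ∀ i, f i ≤ M :=
  ⟨Finset.univ.sup f, fun i => Finset.le_sup (Finset.mem_univ i)⟩

section chart

variable {Ω : Form K m j} {n : ℕ} {χ : Fin n → Chart X} {nd : Fin n → Bool} {P : Par}
  {M' : ℕ} {δ c₁ : ℝ}

/-- upper bound of the near metrics -/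
lemma near_fs_upper (hX : IsCone X) (hK : IsOpenPart X K) (hQ : IsEq X T Q D) (hm : 1 ≤ m)
    (hΩ : Ω.PoleBound X) (hP : ConvPar P) {d : Fin n → Bool × Bool}
    (h : ∀ i, HasType T (χ i) (nd i)) (hd : ∀ i, DType K (χ i) (d i))
    (hdn : ∀ i, (d i).2 = true → nd i = true) {CE : ℝ}
    (hCE : ∀ i, ∀ x ∈ X, x ∈ (χ i).U → ‖(χ i).q x‖ ≤ 1 → ∀ v,
      ‖fderiv ℂ (χ i).q x v‖ ≤ CE * fs x v) :
    ∃ C : ℝ, 0 < C ∧ ∀ (δ : ℝ) (i : Fin n), ∀ x ∈ K, ∀ v,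
      rho Q D x ^ 2 * nearG Ω χ nd P Q D δ i x v ≤ C * fs x v := by
  choose CN hCN hup using fun i => near_upper hX hQ hm Ω hΩ (χ i) hP (h i) (hd i) (hdn i)
  obtain ⟨C, hC1, hC⟩ := exists_ub CN
  obtain ⟨CE', hCE1, hCE'⟩ : ∃ CE', 1 ≤ CE' ∧ CE ≤ CE' := ⟨max CE 1, le_max_right _ _,
    le_max_left _ _⟩
  refine ⟨C * CE', by positivity, fun δ i x hx v => ?_⟩
  have hfs := fs_nonneg x v
  by_cases hmem : x ∈ X ∧ x ∈ (χ i).U ∧ ‖(χ i).q x‖ ≤ 1 ∧ rho Q D x ≤ δ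
  · obtain ⟨h1, h2, h3, h4⟩ := hmem
    rw [nearG_of_mem h1 h2 h3 h4]
    have h5 := hup i ((χ i).q x) (by simpa using h3)
      (((χ i).sigma_mem_iff h1 h2 hK.smul_mem).mpr hx) (fderiv ℂ (χ i).q x v)
    rw [(χ i).rho_sigma hQ.smul h1 h2] at h5
    refine h5.trans ?_
    have h6 := hCE i x h1 h2 h3 v
    have h7 : CE * fs x v ≤ CE' * fs x v := by gcongr
    calc CN i * ‖fderiv ℂ (χ i).q x v‖ ≤ C * (CE' * fs x v) := by
          have := hC i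
          have := (hCN i).le
          gcongr
          exact h6.trans h7
      _ = C * CE' * fs x v := by ring
  · have h5 : nearG Ω χ nd P Q D δ i x v = 0 := by
      unfold nearG
      rw [if_neg hmem]
    rw [h5, mul_zero]
    positivity

/-- lower bound of the near metrics along curves -/
lemma near_fs_lower (hX : IsCone X) (hK : IsOpenPart X K) (hKT : ∀ x ∈ X, x ∉ K → x ∈ T)
    (hQ : IsEq X T Q D) (hm : 1 ≤ m) (hΩ : Ω.NoZeroOff T)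
    (hΩ' : Ω.PoleBound X) (hP : ConvPar P) {d : Fin n → Bool × Bool}
    (h : ∀ i, HasType T (χ i) (nd i)) (hd : ∀ i, DType K (χ i) (d i))
    (hdn : ∀ i, (d i).2 = true → nd i = true) {CE : ℝ}
    (hCE : ∀ i, ∀ (F : ℂ → EN N) (z₀ : ℂ), CurveAt X F z₀ → F z₀ ∈ (χ i).U →
      ‖(χ i).q (F z₀)‖ ≤ 1 →
        fs (F z₀) (deriv F z₀) ≤ CE * ‖deriv (fun z => (χ i).q (F z)) z₀‖) :
    ∃ (M₀ : ℕ) (c : ℝ), 0 < c ∧ ∀ (δ : ℝ), δ ≤ 1 → ∀ (i : Fin n) (F : ℂ → EN N) (z₀ : ℂ),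
      CurveAt K F z₀ → F z₀ ∈ (χ i).U → ‖(χ i).q (F z₀)‖ ≤ 1 → rho Q D (F z₀) ≤ δ →
      c * rho Q D (F z₀) ^ M₀ * fs (F z₀) (deriv F z₀) ≤
        nearG Ω χ nd P Q D δ i (F z₀) (deriv F z₀) := by
  choose Ms cs hcs hlow using fun i =>
    near_lower hX hK hKT hQ hm Ω hΩ hΩ' (χ i) hP (h i) (hd i) (hdn i)
  obtain ⟨M₀, hM₀⟩ := exists_nat_ub Ms
  obtain ⟨c, hc, -, hcc⟩ := exists_lb cs hcs
  obtain ⟨CE', hCE1, hCE'⟩ : ∃ CE', 1 ≤ CE' ∧ CE ≤ CE' := ⟨max CE 1, le_max_right _ _,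
    le_max_left _ _⟩
  have hCE0 : 0 < CE' := by linarith
  refine ⟨M₀, c / CE', by positivity, fun δ hδ i F z₀ hF hU hq hρ => ?_⟩
  have hFX : CurveAt X F z₀ := hF.mono hK.subset
  have hρ0 := rho_nonneg Q D (F z₀)
  rw [nearG_of_mem hFX.mem hU hq hρ]
  have h5 := hlow i ((χ i).q (F z₀)) (by simpa using hq)
    (((χ i).sigma_mem_iff hFX.mem hU hK.smul_mem).mpr hF.mem) (fderiv ℂ (χ i).q (F z₀) (deriv F z₀))
  rw [(χ i).rho_sigma hQ.smul hFX.mem hU] at h5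
  refine le_trans ?_ h5
  obtain ⟨-, h6, -⟩ := (χ i).curve hX hFX hU
  rw [← h6]
  have h7 := hCE i F z₀ hFX hU hq
  have h8 : fs (F z₀) (deriv F z₀) ≤ CE' * ‖deriv (fun z => (χ i).q (F z)) z₀‖ :=
    h7.trans (by gcongr)
  have h9 : rho Q D (F z₀) ^ M₀ ≤ rho Q D (F z₀) ^ Ms i :=
    pow_le_pow_of_le_one hρ0 (hρ.trans hδ) (hM₀ i)
  calc c / CE' * rho Q D (F z₀) ^ M₀ * fs (F z₀) (deriv F z₀)
      ≤ c / CE' * rho Q D (F z₀) ^ M₀ * (CE' * ‖deriv (fun z => (χ i).q (F z)) z₀‖) := by gcongr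
    _ = c * rho Q D (F z₀) ^ M₀ * ‖deriv (fun z => (χ i).q (F z)) z₀‖ := by field_simp
    _ ≤ cs i * rho Q D (F z₀) ^ Ms i * ‖deriv (fun z => (χ i).q (F z)) z₀‖ := by
        have h10 := hcc i
        have h11 := (hcs i).le
        have h12 : 0 ≤ ‖deriv (fun z => (χ i).q (F z)) z₀‖ := norm_nonneg _
        have h13 := pow_nonneg hρ0 (Ms i)
        have h14 := pow_nonneg hρ0 M₀
        exact mul_le_mul_of_nonneg_right (mul_le_mul h10 h9 h14 h11) h12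

/-- at the boundary of a chart another chart has a larger metric -/
lemma near_boundary (hX : IsCone X) (hK : IsOpenPart X K) (hQ : IsEq X T Q D) {r' : ℝ}
    (hdom : ∀ (i : Fin n) (p w : ℂ × ℂ), ‖p‖ = 1 → small (nd i) p ≤ r' →
      (χ i).σ p ∈ K → 0 < ACoef Ω (χ i) p * pM (nd i) P p w →
      ∃ k, (χ i).σ p ∈ (χ k).U ∧ ‖(χ k).q ((χ i).σ p)‖ < 1 / 2 ∧
        ACoef Ω (χ i) p * pM (nd i) P p w <
          ACoef Ω (χ k) ((χ k).q ((χ i).σ p)) * pM (nd k) P ((χ k).q ((χ i).σ p))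
            (fderiv ℂ (fun y => (χ k).q ((χ i).σ y)) p w))
    {δ : ℝ} (hsm : ∀ i, ∀ p ∈ closedBall (0 : ℂ × ℂ) 1, rho Q D ((χ i).σ p) ≤ δ →
      small (nd i) p ≤ r')
    {i : Fin n} {F : ℂ → EN N} {z₀ : ℂ} (hF : CurveAt K F z₀)
    (hpos : 0 < nearG Ω χ nd P Q D δ i (F z₀) (deriv F z₀))
    (hq : ‖(χ i).q (F z₀)‖ = 1) :
    ∃ k, nearG Ω χ nd P Q D δ i (F z₀) (deriv F z₀) <
      nearG Ω χ nd P Q D δ k (F z₀) (deriv F z₀) := by
  have hFX : CurveAt X F z₀ := hF.mono hK.subset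
  obtain ⟨h1, h2, h3, h4⟩ := mem_of_nearG_pos hpos
  rw [nearG_of_mem h1 h2 h3 h4] at hpos ⊢
  have hρσ := (χ i).rho_sigma hQ.smul h1 h2
  have hσK := ((χ i).sigma_mem_iff h1 h2 hK.smul_mem).mpr hF.mem
  obtain ⟨k, hk1, hk2, hk3⟩ := hdom i ((χ i).q (F z₀)) _ hq
    (hsm i _ (by simpa using h3) (by rw [hρσ]; exact h4)) hσK hpos
  refine ⟨k, ?_⟩
  obtain ⟨hqan, hqd, c, hc, hc0, hev⟩ := (χ i).curve hX hFX h2
  obtain ⟨hball, hFz⟩ := hev.self_of_nhds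
  -- `F z₀` is in the chart `k`
  have hUk : F z₀ ∈ (χ k).U := by
    rw [hFz]
    exact (χ k).smul_U _ hk1 _ hc0
  have hqk : (χ k).q (F z₀) = (χ k).q ((χ i).σ ((χ i).q (F z₀))) := by
    conv_lhs => rw [hFz]
    exact (χ k).q_smul _ hk1 _ hc0
  have hqk1 : ‖(χ k).q (F z₀)‖ ≤ 1 := by
    rw [hqk]
    linarith
  rw [nearG_of_mem h1 hUk hqk1 h4, hqk]
  refine lt_of_lt_of_eq hk3 ?_
  congr 2
  -- the derivative
  have hev2 : (fun z => (χ k).q (F z)) =ᶠ[𝓝 z₀]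
      fun z => (χ k).q ((χ i).σ ((χ i).q (F z))) := by
    have h5 : ∀ᶠ z in 𝓝 z₀, F z ∈ (χ k).U :=
      hF.1.continuousAt.eventually ((χ k).isOpen_U.mem_nhds hUk)
    have h6 : ∀ᶠ z in 𝓝 z₀, c z ≠ 0 := hc.continuousAt.eventually_ne hc0
    filter_upwards [hev, h5, h6] with z h7 h8 h9
    obtain ⟨h10, h11⟩ := h7
    have h12 : (χ i).σ ((χ i).q (F z)) = (c z)⁻¹ • F z := by
      conv_rhs => rw [h11]
      rw [smul_smul, inv_mul_cancel₀ h9, one_smul]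
    rw [h12, (χ k).q_smul _ h8 _ (inv_ne_zero h9)]
  obtain ⟨-, hqkd, -⟩ := (χ k).curve hX hFX hUk
  rw [← hqkd, hev2.deriv_eq, ← hqd]
  have hτ : DifferentiableAt ℂ (fun y => (χ k).q ((χ i).σ y)) ((χ i).q (F z₀)) := by
    refine (AnalyticAt.fun_comp ?_ ((χ i).σ_an _ hball)).differentiableAt
    exact (χ k).q_an _ hk1
  exact (fderiv_comp_deriv (f := fun z => (χ i).q (F z)) z₀ hτ hqan.differentiableAt).symm

end chart

end Pool.Agent.H14.PP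

end
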