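import Pool.Agent.H94.CB.H36.BPB.Metric
import Pool.Agent.H94.CB.H36.LB.PNDefs
import Pool.Agent.H94.CB.M182
import Pool.Agent.H94.CB.M64
import Pool.Agent.H94.CB.M71
import Pool.Agent.H94.CB.M74
import Pool.Agent.H94.CB.M77

/-! The parts of this file: H36.BPB.ExtC, H36.BPB.Main, H36.BPB.Brody, H36.LB.BlowL, H36.LB.NodalL, H36.LB.PNConv. -/

section

/-!
# BPB (port) ExtC: points where the metric is positive

Near `z`: `ρ(F w) ≠ 0` for `w ≠ z` (`ρ_zero`, `hB`), and `wd (F w) (deriv F w) ≠ 0` for `w ≠ z`: otherwise (frequently `0`) all minors `F_i F_j' - F_j F_i'` (holomorphic; they vanish where `F' = a F`, `wd_eq_zero`) vanish frequently, hence near `z`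
(`AnalyticAt.frequently_zero_iff_eventually_zero`), and then `wd = 0` near `z` (if all minors of `(x, v)` vanish and `x ≠ 0` then `v` is a multiple of `x`), against `hc`.  Now `lower`: `mt G F w ≥ ρ^M fs > 0`.
-/

set_option autoImplicit false

namespace Pool.Agent.H36.BPB

attribute [-instance] ProperSMul.toContinuousSMul

open Filter Topology Metric
open Pool.Agent.H36.BP

variable {N : ℕ}

variable {K B : Set (EN N)} {G : EN N → EN N → ℝ} {ρ : EN N → ℝ} {M : ℕ} {c₀ C : ℝ}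

private theorem ExtC_proj {F : ℂ → EN N} {z : ℂ} (hF : AnalyticAt ℂ F z) (i : Fin (N + 1)) :
    AnalyticAt ℂ (fun w => F w i) z :=
  (ContinuousLinearMap.analyticAt (EuclideanSpace.proj i : EN N →L[ℂ] ℂ) (F z)).comp hF

theorem exists_pos (hM : MD K B G ρ M c₀ C) {F : ℂ → EN N} {z : ℂ} (hF : AnalyticAt ℂ F z) (hK : ∀ᶠ w in 𝓝 z, F w ∈ K)
    (hB : ¬ ∀ᶠ w in 𝓝 z, F w ∈ B) (hc : ¬ ∀ᶠ w in 𝓝 z, wd (F w) (deriv F w) = 0) : ∀ᶠ w in 𝓝[≠] z, 0 < mt G F w := by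
  have h1 : ∀ᶠ w in 𝓝[≠] z, ρ (F w) ≠ 0 := by
    by_contra h
    exact hB (hM.ρ_zero F z hF hK (by
      rw [Filter.not_eventually] at h
      simpa using h))
  have h2 : ∀ᶠ w in 𝓝[≠] z, wd (F w) (deriv F w) ≠ 0 := by
    by_contra h
    rw [Filter.not_eventually] at h
    refine hc ?_
    have h3 : ∀ i j : Fin (N + 1),
        ∀ᶠ w in 𝓝 z, F w i * deriv F w j - F w j * deriv F w i = 0 := by
      intro i j
      have han : AnalyticAt ℂ (fun w => F w i * deriv F w j - F w j * deriv F w i) z :=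
        ((ExtC_proj hF i).mul (ExtC_proj hF.deriv j)).sub
          ((ExtC_proj hF j).mul (ExtC_proj hF.deriv i))
      refine (han.frequently_zero_iff_eventually_zero).1 ?_
      refine (h.and_eventually (hK.filter_mono nhdsWithin_le_nhds)).mono ?_
      rintro w ⟨hw1, hw2⟩
      rw [not_not, wd_eq_zero (hM.ne _ hw2)] at hw1
      obtain ⟨a, ha⟩ := hw1
      rw [ha]
      simp only [PiLp.smul_apply, smul_eq_mul]
      ring
    have h4 : ∀ᶠ w in 𝓝 z, ∀ i j : Fin (N + 1),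
        F w i * deriv F w j - F w j * deriv F w i = 0 :=
      Filter.eventually_all.2 fun i => Filter.eventually_all.2 fun j => h3 i j
    filter_upwards [h4, hK] with w hw1 hw2
    rw [wd_eq_zero (hM.ne _ hw2)]
    have h5 : ∃ i, F w i ≠ 0 := by
      by_contra h6
      rw [not_exists] at h6
      refine hM.ne _ hw2 (PiLp.ext fun i => ?_)
      exact not_not.1 (h6 i)
    obtain ⟨i, hi⟩ := h5
    refine ⟨deriv F w i / F w i, PiLp.ext fun j => ?_⟩
    rw [PiLp.smul_apply, smul_eq_mul]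
    have h6 := hw1 i j
    field_simp
    linear_combination h6
  filter_upwards [h1, h2, hK.filter_mono nhdsWithin_le_nhds] with w hw1 hw2 hw3
  have h3 : 0 < ρ (F w) := lt_of_le_of_ne (hM.ρ_nonneg _ hw3) (Ne.symm hw1)
  have h4 : 0 < wd (F w) (deriv F w) := lt_of_le_of_ne (wd_nonneg _ _) (Ne.symm hw2)
  have h5 : 0 < ‖F w‖ := norm_pos_iff.2 (hM.ne _ hw3)
  have h6 : 0 < fs (F w) (deriv F w) := div_pos h4 (pow_pos h5 2)
  exact (mul_pos (pow_pos h3 M) h6).trans_le (hM.lower _ hw3 _)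

end Pool.Agent.H36.BPB

end

section

/-!
# BPB Main (port): the extension across the puncture and the Kobayashi estimate from the bound for discs
-/

set_option autoImplicit false

namespace Pool.Agent.H36.BPB

attribute [-instance] ProperSMul.toContinuousSMul

open Filter Topology Metric
open Pool.Agent.H36.BP hiding MetricData

variable {N : ℕ}

open Pool.Agent.H17 (PN HolomorphicInto puncturedDisc VanishesAt vanishesAt_mk_iff)

variable {K B : Set (EN N)} {G : EN N → EN N → ℝ} {ρ : EN N → ℝ} {M : ℕ} {c₀ C : ℝ}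

/-- extension across the puncture, in terms of cones -/
theorem picard_cone_of_bound (hM : MD K B G ρ M c₀ C) (hbound : ∃ L : ℝ, 0 < L ∧ ∀ F, Curve K (ball 0 1) F → mt G F 0 ≤ L) (hBs : ∀ x ∈ B, ∀ c : ℂ, c ≠ 0 → c • x ∈ B)
    (hρ : ∀ x ∈ K, x ∈ B → ρ x = 0) (f : ℂ → PN N) (hf : HolomorphicInto f puncturedDisc)
    (hfK : ∀ z ∈ puncturedDisc, (WithLp.toLp 2 (f z).rep : EN N) ∈ K) (hfB : ∃ z ∈ puncturedDisc, (WithLp.toLp 2 (f z).rep : EN N) ∉ B) :
    ∃ g : ℂ → PN N, HolomorphicInto g (ball 0 1) ∧ ∀ z ∈ puncturedDisc, g z = f z := by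
  classical
  -- lifts and representatives
  have hrep : ∀ (z : ℂ) (x : EN N) (h : x.ofLp ≠ 0), f z = Projectivization.mk ℂ _ h →
      ∃ a : ℂ, a ≠ 0 ∧ (WithLp.toLp 2 (f z).rep : EN N) = a • x := by
    intro z x h h1
    obtain ⟨a, ha, h2⟩ := Pool.Agent.H17.exists_smul_rep x.ofLp h
    refine ⟨a, ha, ?_⟩
    rw [h1, h2]
    rfl
  have hliftK : ∀ z ∈ puncturedDisc, ∀ (x : EN N) (h : x.ofLp ≠ 0), f z = Projectivization.mk ℂ _ h → x ∈ K := by
    intro z hz x h h1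
    obtain ⟨a, ha, h2⟩ := hrep z x h h1
    have h3 := hM.smul _ (hfK z hz) a⁻¹ (inv_ne_zero ha)
    rwa [h2, smul_smul, inv_mul_cancel₀ ha, one_smul] at h3
  have hliftB : ∀ (z : ℂ) (x : EN N) (h : x.ofLp ≠ 0), f z = Projectivization.mk ℂ _ h →
      ((WithLp.toLp 2 (f z).rep : EN N) ∈ B ↔ x ∈ B) := by
    intro z x h h1
    obtain ⟨a, ha, h2⟩ := hrep z x h h1
    constructor
    · intro h3
      rw [h2] at h3
      have h4 := hBs _ h3 a⁻¹ (inv_ne_zero ha)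
      rwa [smul_smul, inv_mul_cancel₀ ha, one_smul] at h4
    · intro h3
      rw [h2]
      exact hBs _ h3 a ha
  -- `f` lies in `B` near no point
  have hnB' : ∀ z ∈ puncturedDisc, ¬ ∀ᶠ w in 𝓝 z, (WithLp.toLp 2 (f w).rep : EN N) ∈ B := by
    intro z hz hzB
    set A : Set ℂ := {z | ∀ᶠ w in 𝓝 z, (WithLp.toLp 2 (f w).rep : EN N) ∈ B} with hA
    have hAo : IsOpen A := by
      rw [isOpen_iff_mem_nhds]
      intro z hz
      exact hz.eventually_nhds
    have hcl : closure A ∩ puncturedDisc ⊆ A := by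
      rintro y ⟨hy1, hy2⟩
      by_cases hyA : y ∈ A
      · exact hyA
      obtain ⟨φ, hφ, he⟩ := hf y hy2
      have hFa : AnalyticAt ℂ (fun w => (WithLp.toLp 2 (φ w) : EN N)) y := analyticAt_toLp hφ
      have hFK : ∀ᶠ w in 𝓝 y, (WithLp.toLp 2 (φ w) : EN N) ∈ K := by
        filter_upwards [he, isOpen_puncturedDisc.mem_nhds hy2] with w hw hw2
        obtain ⟨h1, h2⟩ := hw
        exact hliftK w hw2 _ h1 h2
      have hfreq : ∃ᶠ w in 𝓝[≠] y, ρ (WithLp.toLp 2 (φ w) : EN N) = 0 := by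
        have h1 : ∃ᶠ w in 𝓝 y, w ∈ A := mem_closure_iff_frequently.mp hy1
        have h2 : ∃ᶠ w in 𝓝 y, w ∈ A ∧ w ≠ y := by
          refine h1.mono fun w hw => ⟨hw, ?_⟩
          rintro rfl
          exact hyA hw
        have h3 : ∃ᶠ w in 𝓝[≠] y, w ∈ A := by
          rw [frequently_nhdsWithin_iff]
          exact h2.mono fun w hw => ⟨hw.1, hw.2⟩
        refine (h3.and_eventually ((hFK.and he).filter_mono nhdsWithin_le_nhds)).mono ?_
        rintro w ⟨hw1, hw2, h4, h5⟩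
        have h6 : (WithLp.toLp 2 (f w).rep : EN N) ∈ B := by
          have h7 : ∀ᶠ v in 𝓝 w, (WithLp.toLp 2 (f v).rep : EN N) ∈ B := hw1
          exact h7.self_of_nhds
        exact hρ _ hw2 ((hliftB w (WithLp.toLp 2 (φ w)) h4 h5).mp h6)
      have h8 := hM.ρ_zero _ y hFa hFK hfreq
      show ∀ᶠ w in 𝓝 y, (WithLp.toLp 2 (f w).rep : EN N) ∈ B
      filter_upwards [h8, he] with w hw hw2
      obtain ⟨h4, h5⟩ := hw2
      exact (hliftB w (WithLp.toLp 2 (φ w)) h4 h5).mpr hw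
    have hsub : puncturedDisc ⊆ A := preconnected_puncturedDisc.subset_of_closure_inter_subset hAo ⟨z, hz, hzB⟩ hcl
    obtain ⟨z', hz'1, hz'2⟩ := hfB
    have h9 : ∀ᶠ w in 𝓝 z', (WithLp.toLp 2 (f w).rep : EN N) ∈ B := hsub hz'1
    exact hz'2 h9.self_of_nhds
  obtain ⟨F, hFd, hFf⟩ := lift_punct hf (r := 1 / 2) (by norm_num) (by norm_num)
  have hhalf : ∀ z ∈ ball (0 : ℂ) 1 \ {0}, z / 2 ∈ ball (0 : ℂ) (1 / 2) \ {0} := by
    rintro z ⟨hz1, hz2⟩
    rw [mem_ball_zero_iff] at hz1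
    refine ⟨?_, ?_⟩
    · rw [mem_ball_zero_iff, norm_div]
      simp only [Complex.norm_ofNat]
      linarith
    · simpa using hz2
  have hsubp : ball (0 : ℂ) (1 / 2) \ {0} ⊆ puncturedDisc := by
    rintro z ⟨hz1, hz2⟩
    exact ⟨ball_subset_ball (by norm_num) hz1, hz2⟩
  have hopen : IsOpen (ball (0 : ℂ) (1 / 2) \ {0}) := isOpen_ball.sdiff isClosed_singleton
  have hopen1 : IsOpen (ball (0 : ℂ) 1 \ {0}) := isOpen_ball.sdiff isClosed_singleton
  set F₁ : ℂ → EN N := fun z => F (z / 2) with hF₁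
  have hF1c : Curve K (ball 0 1 \ {0}) F₁ := by
    refine ⟨?_, ?_⟩
    · intro z hz
      have h1 : DifferentiableAt ℂ F (z / 2) := hFd.differentiableAt (hopen.mem_nhds (hhalf z hz))
      exact (h1.comp z (differentiableAt_id.div_const 2)).differentiableWithinAt
    · intro z hz
      obtain ⟨h1, h2⟩ := hFf _ (hhalf z hz)
      exact hliftK _ (hsubp (hhalf z hz)) _ h1 h2
  -- the constant case
  by_cases hconst : ∃ c₁ : PN N, ∀ z ∈ puncturedDisc, f z = c₁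
  · obtain ⟨c₁, hc₁⟩ := hconst
    refine ⟨fun _ => c₁, ?_, fun z hz => (hc₁ z hz).symm⟩
    intro z _
    exact ⟨fun _ => c₁.rep, analyticAt_const, Filter.Eventually.of_forall fun w => ⟨c₁.rep_nonzero, (Projectivization.mk_rep c₁).symm⟩⟩
  have han1 : ∀ z ∈ ball (0 : ℂ) 1 \ {0}, AnalyticAt ℂ F₁ z := fun z hz => hF1c.1.analyticAt (hopen1.mem_nhds hz)
  have hc : ∀ z ∈ ball (0 : ℂ) 1 \ {0}, ¬ ∀ᶠ w in 𝓝 z, wd (F₁ w) (deriv F₁ w) = 0 := by
    intro z hz hw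
    apply hconst
    have h0 : F₁ z ≠ 0 := hM.ne _ (hF1c.2 z hz)
    have h1 := const_of_wedge (han1 z hz) h0 hw
    refine ⟨f (z / 2), const_identity preconnected_puncturedDisc hf (hsubp (hhalf z hz)) ?_⟩
    have h2 : Tendsto (fun w : ℂ => 2 * w) (𝓝 (z / 2)) (𝓝 z) := by
      have : Tendsto (fun w : ℂ => 2 * w) (𝓝 (z / 2)) (𝓝 (2 * (z / 2))) := (continuous_const.mul continuous_id).tendsto _
      rwa [mul_div_cancel₀ z (two_ne_zero)] at this
    filter_upwards [h2.eventually h1, hopen.mem_nhds (hhalf z hz)] with w hw1 hw2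
    obtain ⟨c, hc0, hcw⟩ := hw1
    have e1 : F₁ (2 * w) = F w := by
      rw [hF₁]
      simp only
      rw [mul_div_cancel_left₀ w (two_ne_zero)]
    rw [e1] at hcw
    obtain ⟨h3, h4⟩ := hFf w hw2
    obtain ⟨h5, h6⟩ := hFf _ (hhalf z hz)
    rw [h4, h6, Projectivization.mk_eq_mk_iff']
    refine ⟨c, ?_⟩
    rw [hcw]
    rfl
  have hnB : ∀ z ∈ ball (0 : ℂ) 1 \ {0}, ¬ ∀ᶠ w in 𝓝 z, F₁ w ∈ B := by
    intro z hz hw
    apply hnB' _ (hsubp (hhalf z hz))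
    have h2 : Tendsto (fun w : ℂ => 2 * w) (𝓝 (z / 2)) (𝓝 z) := by
      have : Tendsto (fun w : ℂ => 2 * w) (𝓝 (z / 2)) (𝓝 (2 * (z / 2))) := (continuous_const.mul continuous_id).tendsto _
      rwa [mul_div_cancel₀ z (two_ne_zero)] at this
    filter_upwards [h2.eventually hw, hopen.mem_nhds (hhalf z hz)] with w hw1 hw2
    have e1 : F₁ (2 * w) = F w := by
      rw [hF₁]
      simp only
      rw [mul_div_cancel_left₀ w (two_ne_zero)]
    rw [e1] at hw1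
    obtain ⟨h5, h6⟩ := hFf w hw2
    exact (hliftB w (F w) h5 h6).mpr hw1
  -- a point with positive metric
  have hz0 : (1 / 2 : ℂ) ∈ ball (0 : ℂ) 1 \ {0} := by
    refine ⟨?_, by simp⟩
    rw [mem_ball_zero_iff]
    norm_num
  have hpos := exists_pos hM (han1 _ hz0) (Filter.mem_of_superset (hopen1.mem_nhds hz0) fun z hz => hF1c.2 z hz)
    (hnB _ hz0) (hc _ hz0)
  obtain ⟨z₁, hz₁pos, hz₁⟩ := (hpos.and (hopen1.mem_nhds hz0 |> Filter.Eventually.filter_mono nhdsWithin_le_nhds)).exists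
  have hz₁1 : ‖z₁‖ < 1 := by simpa using hz₁.1
  have hz₁0 : 0 < ‖z₁‖ := norm_pos_iff.mpr hz₁.2
  obtain ⟨L, hL, hLb⟩ := hbound
  have hgr : ∀ z : ℂ, z ≠ 0 → ‖z‖ < 1 → mt G F₁ z * (‖z‖ * Real.log (1 / ‖z‖)) ≤ L := fun z hz hz1 => growth hM hLb hF1c hz hz1
  obtain ⟨c, hcpos, hlift⟩ := bounded_lifts hM hL hF1c hgr (r₁ := (‖z₁‖ + 1) / 2) hz₁0 (by linarith) (by linarith) hz₁pos
  obtain ⟨Q, hQa, hQ0, hQ⟩ := puncture_limit hF1c.1 (fun z hz => hM.ne _ (hF1c.2 z hz)) hcpos hz₁0 (r₁ := (‖z₁‖ + 1) / 2)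
    (by linarith) (by linarith) hlift
  -- gluing
  set q₀ : PN N := Projectivization.mk ℂ (Q 0).ofLp (ofLp_ne_zero hQ0) with hq₀
  refine ⟨fun z => if z = 0 then q₀ else f z, ?_, ?_⟩
  · intro z hz
    by_cases hz0 : z = 0
    · subst hz0
      refine ⟨fun w => (Q (2 * w)).ofLp, ?_, ?_⟩
      · apply analyticAt_ofLp
        have h1 : AnalyticAt ℂ Q ((fun w : ℂ => 2 * w) 0) := by simpa using hQa
        exact h1.comp (analyticAt_const.mul analyticAt_id)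
      · have h2 : Tendsto (fun w : ℂ => 2 * w) (𝓝 0) (𝓝 0) := by
          have : Tendsto (fun w : ℂ => 2 * w) (𝓝 0) (𝓝 (2 * 0)) := (continuous_const.mul continuous_id).tendsto _
          rwa [mul_zero] at this
        have h3 : ∀ᶠ w in 𝓝 (0 : ℂ), w ≠ 0 → ∃ k : ℂ, k ≠ 0 ∧ Q (2 * w) = k • F₁ (2 * w) := by
          filter_upwards [h2.eventually (eventually_nhdsWithin_iff.mp hQ)] with w hw hw0
          exact hw (by simpa using hw0)
        have h4 : ∀ᶠ w in 𝓝 (0 : ℂ), Q (2 * w) ≠ 0 := by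
          have h5 : ∀ᶠ y in 𝓝 (0 : ℂ), Q y ≠ 0 := hQa.continuousAt.eventually_ne hQ0
          exact h2.eventually h5
        filter_upwards [h3, h4, ball_mem_nhds (0 : ℂ) (show (0 : ℝ) < 1 / 2 by norm_num)] with w hw1 hw2 hw3
        refine ⟨ofLp_ne_zero hw2, ?_⟩
        by_cases hw0 : w = 0
        · subst hw0
          simp only [if_true, hq₀, mul_zero]
        · rw [if_neg hw0]
          obtain ⟨k, hk0, hk⟩ := hw1 hw0
          have e1 : F₁ (2 * w) = F w := by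
            rw [hF₁]
            simp only
            rw [mul_div_cancel_left₀ w (two_ne_zero)]
          rw [e1] at hk
          obtain ⟨h5, h6⟩ := hFf w ⟨hw3, hw0⟩
          rw [h6, Projectivization.mk_eq_mk_iff']
          refine ⟨k⁻¹, ?_⟩
          rw [hk]
          show k⁻¹ • (k • (F w).ofLp) = _
          rw [smul_smul, inv_mul_cancel₀ hk0, one_smul]
    · obtain ⟨φ, hφ, he⟩ := hf z ⟨hz, hz0⟩
      refine ⟨φ, hφ, ?_⟩
      filter_upwards [he, isOpen_ne.mem_nhds hz0] with w hw1 hw2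
      rw [if_neg hw2]
      exact hw1
  · intro z hz
    have hz0 : z ≠ 0 := hz.2
    simp only
    rw [if_neg hz0]

/-- Kobayashi hyperbolicity modulo the exceptional set: all lifts of all discs -/
theorem kobayashi_of_bound {X Z : Set (PN N)} (hM : MD (coneOf X) (coneOf Z) G ρ M c₀ C)
    (hbound : ∃ L : ℝ, 0 < L ∧ ∀ F, Curve (coneOf X) (ball 0 1) F → mt G F 0 ≤ L) :
    ∃ L : ℝ, 0 < L ∧ ∀ (f : ℂ → PN N) (F : ℂ → EN N), HolomorphicInto f (ball 0 1) → (∀ z ∈ ball (0 : ℂ) 1, f z ∈ X) →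
      AnalyticAt ℂ F 0 → (∀ᶠ z in 𝓝 (0 : ℂ), ∃ h : (F z).ofLp ≠ 0, f z = Projectivization.mk ℂ _ h) →
      ρ (F 0) ^ M * fs (F 0) (deriv F 0) ≤ L := by
  obtain ⟨L, hL, hLb⟩ := hbound
  refine ⟨2 * L, by positivity, fun f F hf hfX hF hFf => ?_⟩
  obtain ⟨F₁, hF1d, hF1f⟩ := lift_disc hf (r := 1 / 2) (by norm_num) (by norm_num)
  have h0mem : (0 : ℂ) ∈ ball (0 : ℂ) (1 / 2) := mem_ball_self (by norm_num)
  have hF10 : F₁ 0 ≠ 0 := ne_zero_of_ofLp (hF1f 0 h0mem).choose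
  have hF1a : AnalyticAt ℂ F₁ 0 := hF1d.analyticAt (isOpen_ball.mem_nhds h0mem)
  have hF1K : ∀ z ∈ ball (0 : ℂ) (1 / 2), F₁ z ∈ coneOf X := by
    intro z hz
    obtain ⟨h1, h2⟩ := hF1f z hz
    exact ⟨h1, by rw [← h2]; exact hfX z (ball_subset_ball (by norm_num) hz)⟩
  -- the scaled curve
  have hcur : Curve (coneOf X) (ball 0 1) (fun z => F₁ (z / 2)) := by
    have hh : ∀ z ∈ ball (0 : ℂ) 1, z / 2 ∈ ball (0 : ℂ) (1 / 2) := by
      intro z hz
      rw [mem_ball_zero_iff] at hz ⊢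
      rw [norm_div]
      simp only [Complex.norm_ofNat]
      linarith
    refine ⟨fun z hz => ?_, fun z hz => hF1K _ (hh z hz)⟩
    have h1 : DifferentiableAt ℂ F₁ (z / 2) := hF1d.differentiableAt (isOpen_ball.mem_nhds (hh z hz))
    exact (h1.comp z (differentiableAt_id.div_const 2)).differentiableWithinAt
  have hb := hLb _ hcur
  have hdz : HasDerivAt (fun z : ℂ => z / 2) (1 / 2) 0 := by simpa using (hasDerivAt_id (0 : ℂ)).div_const 2
  have e1 : mt G (fun z => F₁ (z / 2)) 0 = ‖deriv (fun z : ℂ => z / 2) 0‖ * mt G F₁ ((fun z : ℂ => z / 2) 0) := by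
    refine mt_comp hM (φ := fun z : ℂ => z / 2) ?_ hdz.differentiableAt ?_
    · simpa using hF1a.differentiableAt
    · simpa using hF1K 0 h0mem
  rw [hdz.deriv] at e1
  simp only [zero_div] at e1
  have hn : ‖(1 / 2 : ℂ)‖ = 1 / 2 := by norm_num
  rw [hn] at e1
  rw [e1] at hb
  -- comparison of the lifts
  obtain ⟨j, hj⟩ : ∃ j, (F₁ 0) j ≠ 0 := by
    by_contra hcon
    push Not at hcon
    exact hF10 (by ext i; exact hcon i)
  have hc1 : AnalyticAt ℂ (fun w => F₁ w j) 0 := analyticAt_pi_iff.mp (analyticAt_ofLp hF1a) j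
  have hc2 : AnalyticAt ℂ (fun w => F w j) 0 := analyticAt_pi_iff.mp (analyticAt_ofLp hF) j
  set k : ℂ → ℂ := fun w => F w j / F₁ w j with hk
  have hka : AnalyticAt ℂ k 0 := hc2.div hc1 hj
  have hrel : ∀ᶠ w in 𝓝 (0 : ℂ), F w = k w • F₁ w ∧ k w ≠ 0 := by
    filter_upwards [hFf, isOpen_ball.mem_nhds h0mem, hc1.continuousAt.eventually_ne hj] with w h1 h2 h3
    obtain ⟨h4, h5⟩ := h1
    obtain ⟨h6, h7⟩ := hF1f w h2
    rw [h5, Projectivization.mk_eq_mk_iff'] at h7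
    obtain ⟨a, ha⟩ := h7
    have ha' : ∀ i, a * F₁ w i = F w i := fun i => congrFun ha i
    have hka' : k w = a := by
      rw [hk]
      simp only
      rw [← ha' j]
      field_simp
    refine ⟨?_, ?_⟩
    · rw [hka']
      ext i
      exact (ha' i).symm
    · rw [hka']
      rintro rfl
      apply h4
      funext i
      rw [← ha' i, zero_mul]
      rfl
  have hF0 : F 0 ∈ coneOf X := by
    obtain ⟨h1, h2⟩ := hFf.self_of_nhds
    exact ⟨h1, by rw [← h2]; exact hfX 0 (mem_ball_self one_pos)⟩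
  have e2 : mt G F 0 = mt G (fun w => k w • F₁ w) 0 := by
    have h1 : F =ᶠ[𝓝 0] fun w => k w • F₁ w := by
      filter_upwards [hrel] with w hw
      exact hw.1
    unfold mt
    rw [h1.deriv_eq, h1.self_of_nhds]
  rw [mt_smul hM hF1a.differentiableAt hka.differentiableAt (hF1K 0 h0mem) hrel.self_of_nhds.2] at e2
  have hlow := hM.lower (F 0) hF0 (deriv F 0)
  have : mt G F 0 ≤ 2 * L := by rw [e2]; linarith
  exact hlow.trans this

end Pool.Agent.H36.BPB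

end

section

/-!
# BPB Brody: the Brody step for an arbitrary open part

As `BP/Brody.lean`: the limit curve `H` (with bubbling) satisfies `mt G H 0 ≥ 1`.
-/

set_option autoImplicit false

namespace Pool.Agent.H36.BPB

attribute [-instance] ProperSMul.toContinuousSMul

open Filter Topology Metric
open Pool.Agent.H36.BP (Brody_deriv_line)

variable {N : ℕ}

variable {K B : Set (EN N)} {G : EN N → EN N → ℝ} {ρ : EN N → ℝ} {M : ℕ} {c₀ C : ℝ}

/-- **The Brody step**: if all limits of discs lie in `B` then the discs are bounded. -/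
theorem brody_bound_lim (hM : MD K B G ρ M c₀ C) (hB : LimMod2 K B) :
    ∃ L : ℝ, 0 < L ∧ ∀ F, Curve K (ball 0 1) F → mt G F 0 ≤ L := by
  by_contra hcon
  have hunb : ∀ L : ℝ, ∃ F, Curve K (ball 0 1) F ∧ L < mt G F 0 := by
    intro L
    by_contra h
    push Not at h
    apply hcon
    refine ⟨max L 1, lt_of_lt_of_le one_pos (le_max_right _ _), fun F hF => ?_⟩
    exact (h F hF).trans (le_max_left _ _)
  choose F hF1 hF2 hF3 using fun n => rescale hM hunb n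
  obtain ⟨C₁, hC₁, hch⟩ := char_bound2 hM
  obtain ⟨l, H, hlim, hHcl, hH0K, hCK, hH0, hHR⟩ := limit_curveB hM F hF1 hF2 (fun R => Real.exp (-(C₁ * (1 + (R : ℝ) ^ 2)))) (fun R _ => Real.exp_pos _) (by
    intro R hR n hn
    have hR0 : (0 : ℝ) < R := by exact_mod_cast hR
    have hle : (R : ℝ) + 1 ≤ n + 1 := by
      have : (R : ℝ) ≤ n := by exact_mod_cast hn
      linarith
    have hsub : ball (0 : ℂ) (R + 1) ⊆ ball (0 : ℂ) (n + 1) := ball_subset_ball hle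
    exact hch R hR0 (F n) ⟨(hF1 n).1.mono hsub, fun z hz => (hF1 n).2 z (hsub hz)⟩ (hF2 n) (fun z hz => hF3 n z (hsub hz)))
  -- the growth of the limit curve
  have hord : OrdTwo H := by
    refine ⟨5 * C₁, fun r hr => ?_⟩
    set R : ℕ := ⌈r⌉₊ with hR
    have h1 : 1 ≤ R := Nat.one_le_iff_ne_zero.mpr (by rw [hR]; exact (Nat.ceil_pos.mpr hr).ne')
    have h2 : r ≤ R := Nat.le_ceil r
    have h3 : (R : ℝ) < r + 1 := Nat.ceil_lt_add_one hr.le
    obtain ⟨HR, h4, h5, h6, h7⟩ := hHR R h1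
    have hsub : ball (0 : ℂ) r ⊆ ball (0 : ℂ) R := ball_subset_ball h2
    refine ⟨HR, h4.mono hsub, fun z hz => h5 z (hsub hz), le_trans (Real.exp_le_exp.mpr ?_) h6, fun z hz => h7 z (hsub hz)⟩
    have h8 : (1 + (R : ℝ) ^ 2) ≤ 5 * (1 + r ^ 2) := by nlinarith [sq_nonneg (r - 1)]
    have h9 := mul_le_mul_of_nonneg_left h8 hC₁
    linarith
  have hrel : ∀ᶠ z in 𝓝 (0 : ℂ), H z ∈ K := by
    filter_upwards [hlim.hol.continuous.continuousAt.eventually (hM.rel_open _ hH0K)] with w hw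
    exact hw (hHcl w)
  have hzero : mt G H 0 = 0 := by
    by_cases hc : ∃ z w, ∀ c : ℂ, H z ≠ c • H w
    · refine hM.zero H 0 (hlim.hol.analyticAt 0) ?_
      filter_upwards [hrel] with z hz
      exact ⟨hz, hB l F H hlim hHcl hH0K hCK hc hord z hz⟩
    · push Not at hc
      obtain ⟨a, ha⟩ := Brody_deriv_line (hlim.hol 0) (fun z => hc z 0)
      exact mt_const hM hH0K ha
  linarith

end Pool.Agent.H36.BPB

end

section

/-!
# LB BlowL: limit curves in the blow-up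
-/

set_option autoImplicit false

namespace Pool.Agent.H36.LB

attribute [-instance] ProperSMul.toContinuousSMul

open Filter Topology Metric
open Pool.Agent.H17BP (Surface Pr HolP)
open Pool.Agent.H36.BP (OrdTwo)
open Pool.Agent.H36.BPL (comp_mem mem_totalK ordTwo_comp)
open Pool.Agent.H62.BU (blow total Ker phi)

variable {V : Type} [NormedAddCommGroup V] [NormedSpace ℂ V] {ι : Type} [Fintype ι] {l : ι → V →L[ℂ] ℂ} {X K T : Set V} {q : V}

theorem pr_comp {y : ι → V} (hy : y ∈ blow l X) {b b' : ι} (hb : y b ≠ 0) (hb' : y b' ≠ 0) : Pr (y b) (y b') := by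
  obtain ⟨c, e⟩ := Pool.Agent.H62.BU.comp_smul y hy hb' b
  refine ⟨c, ?_, e⟩
  rintro rfl
  rw [zero_smul] at e
  exact hb e

theorem holP_comp {h : ℂ → ι → V} {z₀ : ℂ} (hh : HolP h z₀) {b : ℂ → ι} (hmem : ∀ᶠ z in 𝓝 z₀, h z ∈ blow l X ∧ h z (b z) ≠ 0) :
    HolP (fun z => h z (b z)) z₀ := by
  obtain ⟨H, hHan, hH0, hHe⟩ := hh
  obtain ⟨b₀, hb₀⟩ := Function.ne_iff.1 hH0
  have hb₀' : H z₀ b₀ ≠ 0 := hb₀
  have han : AnalyticAt ℂ (fun z => H z b₀) z₀ := (analyticAt_pi_iff.1 hHan) b₀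
  refine ⟨fun z => H z b₀, han, hb₀', ?_⟩
  filter_upwards [hHe, han.continuousAt.eventually_ne hb₀', hmem] with z hz hz0 hz1
  obtain ⟨c, hc, e⟩ := hz
  have e1 : h z b₀ = c • H z b₀ := congrFun e b₀
  have h1 : h z b₀ ≠ 0 := by
    rw [e1]
    exact smul_ne_zero hc hz0
  exact (pr_comp hz1.1 hz1.2 h1).trans ⟨c, hc, e1⟩

theorem convP_comp {k : Filter ℕ} (hk : k ≤ atTop) {F : ℕ → ℂ → ι → V} {f : ℂ → ι → V} {z₀ : ℂ} (h : ConvP k F f z₀)
    {bn : ℕ → ℂ → ι} {b : ℂ → ι}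
    (hF : ∀ n : ℕ, ∀ z ∈ ball (0 : ℂ) (n + 1), F n z ∈ blow l X ∧ F n z (bn n z) ≠ 0) (hf : ∀ z, f z ∈ blow l X ∧ f z (b z) ≠ 0) :
    ConvP k (fun n z => F n z (bn n z)) (fun z => f z (b z)) z₀ := by
  have h0 : (ContinuousLinearMap.proj (R := ℂ) (φ := fun _ : ι => V) (b z₀)) (f z₀) ≠ 0 := (hf z₀).2
  refine h.map (p := (ContinuousLinearMap.proj (R := ℂ) (φ := fun _ : ι => V) (b z₀))) (d := 1)
    (fun x => (ContinuousLinearMap.proj (R := ℂ) (φ := fun _ : ι => V) (b z₀)).analyticAt x) (fun c x => by rw [pow_one, map_smul]) h0 ?_ ?_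
  · exact Eventually.of_forall fun z hz => pr_comp (hf z).1 (hf z).2 hz
  · refine ⟨1, one_pos, ?_⟩
    obtain ⟨n₀, hn₀⟩ := exists_nat_ge ‖z₀‖
    filter_upwards [hk (eventually_ge_atTop n₀)] with n hn z hz hz0
    have h1 : z ∈ ball (0 : ℂ) (n + 1) := by
      rw [mem_ball_zero_iff]
      have h2 : ‖z - z₀‖ < 1 := by simpa [dist_eq_norm] using hz
      have h3 : ‖z‖ ≤ ‖z - z₀‖ + ‖z₀‖ := by
        have := norm_add_le (z - z₀) z₀
        rwa [sub_add_cancel] at this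
      have h4 : (n₀ : ℝ) ≤ n := by exact_mod_cast hn
      linarith
    exact pr_comp (hF n z h1).1 (hF n z h1).2 hz0

/-- the image of a limit curve in the blow-up -/
theorem limCurve_comp (hX : Surface X) {k : Filter ℕ} {F : ℕ → ℂ → ι → V} {f : ℂ → ι → V}
    (h : LimCurve (blow l X) (total l X K) k F f) {bn : ℕ → ℂ → ι} {b : ℂ → ι}
    (hF : ∀ n : ℕ, ∀ z ∈ ball (0 : ℂ) (n + 1), F n z (bn n z) ≠ 0) (hf : ∀ z, f z (b z) ≠ 0) :
    LimCurve X K k (fun n z => F n z (bn n z)) (fun z => f z (b z)) where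
  neBot := h.neBot
  le_atTop := h.le_atTop
  hol z := holP_comp (h.hol z) (Eventually.of_forall fun w => ⟨h.mem w, hf w⟩)
  mem z := comp_mem hX (h.mem z) (hf z)
  zero_mem := h.zero_mem.2 _ (hf 0)
  holF n z hz := holP_comp (h.holF n z hz) (by
    filter_upwards [isOpen_ball.mem_nhds hz] with w hw
    exact ⟨(h.memF n w hw).1, hF n w hw⟩)
  memF n z hz := (h.memF n z hz).2 _ (hF n z hz)
  zero := convP_comp h.le_atTop h.zero (fun n z hz => ⟨(h.memF n z hz).1, hF n z hz⟩) fun z => ⟨h.mem z, hf z⟩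
  conv z₀ := (h.conv z₀).mono fun z hz => convP_comp h.le_atTop hz (fun n z hz => ⟨(h.memF n z hz).1, hF n z hz⟩) fun z => ⟨h.mem z, hf z⟩

/-- limit curves in the blow-up -/
theorem lim_blow (hX : Surface X) (hl : Ker l q)
    (hT : ∀ x ∈ T, ∀ c : ℂ, c ≠ 0 → c • x ∈ T) (hq : q ∈ T) (hb : Lim2 X K T) : Lim2 (blow l X) (total l X K) (total l X T) := by
  have hX' : Pool.Agent.H62.BU.Surface X := Pool.Agent.H17BP.surface_iff.2 hX
  intro k F h hh hord hex z w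
  obtain ⟨z₁, hz₁⟩ := hex
  have hmem := hh.mem
  choose b hbne using fun z => Pool.Agent.H62.BU.exists_ne (h z) (hmem z)
  have hι : ∀ n : ℕ, ∀ z : ℂ, ∃ b' : ι, z ∈ ball (0 : ℂ) (n + 1) → F n z b' ≠ 0 := by
    intro n z
    by_cases hz : z ∈ ball (0 : ℂ) (n + 1)
    · obtain ⟨b', hb'⟩ := Pool.Agent.H62.BU.exists_ne (F n z) (hh.memF n z hz).1
      exact ⟨b', fun _ => hb'⟩
    · exact ⟨b 0, fun h1 => absurd h1 hz⟩
  choose bn hbn using hι
  have hlim := limCurve_comp hX hh hbn hbne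
  have hfB : ∀ z, h z ∈ total l X T ↔ h z (b z) ∈ T := fun z =>
    Pool.Agent.H62.BU.mem_total_iff hX' hT (h z) (hmem z) (hbne z)
  have hall := hb k _ _ hlim (ordTwo_comp hmem hbne hord) ⟨z₁, fun hmemB => hz₁ ((hfB z₁).2 hmemB)⟩
  have hl' : ∀ z, ∃ b', l b' (h z (b z)) ≠ 0 := by
    intro z
    by_contra hcon
    push Not at hcon
    obtain ⟨c, e⟩ := (hl (h z (b z))).1 hcon
    have hc : c ≠ 0 := by
      intro h0
      rw [h0, zero_smul] at e
      exact hbne z e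
    have h1 : h z (b z) ∈ T := by
      rw [e]
      exact hT q hq c hc
    obtain ⟨d, hd, e'⟩ := hall z₁ z
    apply hz₁
    rw [hfB z₁]
    have e'' : h z₁ (b z₁) = d • h z (b z) := e'
    rw [e'']
    exact hT _ h1 d hd
  have hphi : ∀ z, Pr (h z) (phi l (h z (b z))) := by
    intro z
    obtain ⟨b', hb'⟩ := hl' z
    exact ⟨(l (b z) (h z (b z)))⁻¹, inv_ne_zero (Pool.Agent.H62.BU.ne_of_ne (h z) (hmem z) (hbne z) hb'),
      Pool.Agent.H62.BU.eq_phi (h z) (hmem z) (hbne z) hb'⟩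
  have hpp : Pr (phi l (h z (b z))) (phi l (h w (b w))) := by
    obtain ⟨c, hc, e⟩ := hall z w
    have e' : h z (b z) = c • h w (b w) := e
    refine ⟨c ^ 2, pow_ne_zero 2 hc, ?_⟩
    rw [e', Pool.Agent.H62.BU.phi_smul]
  exact ((hphi z).trans hpp).trans (hphi w).symm

end Pool.Agent.H36.LB

end

section

/-!
# LB NodalL: open surfaces with an arbitrary boundary curve, the nodal case
-/

set_option autoImplicit false

open Topology Filter Metric

noncomputable section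

namespace Pool.Agent.H36.LB

attribute [-instance] ProperSMul.toContinuousSMul

open Pool.Agent Pool.Agent.H17BP
open Pool.Agent.H17 (PN HolomorphicInto puncturedDisc)
open Pool.Agent.H36.BP hiding kobayashi_of_bound picard_cone_of_bound
open Pool.Agent.H36.BPL
open Pool.Agent.H36.BPB (MD IsLimit LimMod2 ConvAt brody_bound_lim picard_cone_of_bound kobayashi_of_bound)
open Pool.Agent.H14.KB (Kob ptN ptN_eq ptsOf coneOf_ptsOf rhoS rhoS_nonneg)
open Pool.Agent.H14.PP (IsCone IsOpenPart IsNodal Chart HasType DType gD aCoef Form IsEq)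

theorem convP_of_convAt {V : Type} [NormedAddCommGroup V] [NormedSpace ℂ V] {N : ℕ} (L : V ≃L[ℂ] EN N) {l : Filter ℕ} (hl : l ≤ atTop)
    {F : ℕ → ℂ → EN N} {H : ℂ → EN N} (hH : Differentiable ℂ H) (hH0 : ∀ z, H z ≠ 0)
    (hF : ∀ n : ℕ, DifferentiableOn ℂ (F n) (ball 0 (n + 1))) {z₀ : ℂ} (h : ConvAt l F H z₀) :
    ConvP l (fun n z => L.symm (F n z)) (fun z => L.symm (H z)) z₀ := by
  obtain ⟨s, hs, φ, hφ, hlim⟩ := h
  refine ⟨s, fun n z => L.symm (φ n z • F n z), fun z => L.symm (H z), hs, ?_, ?_, ?_, ?_⟩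
  · obtain ⟨n₀, hn₀⟩ := exists_nat_ge (‖z₀‖ + s)
    filter_upwards [hφ, hl (eventually_ge_atTop n₀)] with n hn hn2
    have hsub : ball z₀ s ⊆ ball (0 : ℂ) (n + 1) := by
      intro w hw
      rw [mem_ball_zero_iff]
      have h2 : ‖w - z₀‖ < s := by simpa [dist_eq_norm] using hw
      have h3 : ‖w‖ ≤ ‖w - z₀‖ + ‖z₀‖ := by
        have := norm_add_le (w - z₀) z₀
        rwa [sub_add_cancel] at this
      have h4 : (n₀ : ℝ) ≤ n := by exact_mod_cast hn2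
      linarith
    refine ⟨?_, fun z hz => ?_⟩
    · exact ((L.symm : EN N →L[ℂ] V).differentiable).comp_differentiableOn (hn.1.smul ((hF n).mono hsub))
    · refine Pr.symm ⟨φ n z, hn.2 z hz, ?_⟩
      rw [map_smul]
  · exact (((L.symm : EN N →L[ℂ] V).differentiable).comp hH).differentiableOn
  · exact fun z _ => ⟨fun h => hH0 z (L.symm.map_eq_zero_iff.mp h), Pr.refl _⟩
  · exact tlu_comp hlim hH.continuous.continuousOn fun x _ => L.symm.continuous.continuousAt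

/-- transport of the hypothesis on the limit curves -/
theorem limMod2_transport {V : Type} [NormedAddCommGroup V] [NormedSpace ℂ V] {N : ℕ} (L : V ≃L[ℂ] EN N) {X K T : Set V}
    (hX : Surface X) (hK : OpenPart X K) (h : Lim2 X K T) :
    LimMod2 (L.symm ⁻¹' K : Set (EN N)) ((L.symm ⁻¹' K : Set (EN N)) ∩ L.symm ⁻¹' T) := by
  have hcone : IsCone (L.symm ⁻¹' X : Set (EN N)) := isCone_transport L hX
  intro l F H hlim hcl h0K _ hne hord z hzK
  refine ⟨hzK, ?_⟩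
  by_contra hzT
  have hclX : ∀ x ∈ closure (L.symm ⁻¹' X : Set (EN N)), x ≠ 0 → x ∈ (L.symm ⁻¹' X : Set (EN N)) := fun x hx hx0 =>
    (hcone.closed.closure_subset_iff.mpr (Set.subset_insert 0 _) hx).resolve_left hx0
  have hKX : (L.symm ⁻¹' K : Set (EN N)) ⊆ L.symm ⁻¹' X := fun x hx => hK.sub hx
  have hKne : ∀ x ∈ K, x ≠ 0 := fun x hx e => hX.zero (e ▸ hK.sub hx)
  have hcur : LimCurve X K l (fun n z => L.symm (F n z)) (fun z => L.symm (H z)) := by
    refine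
    { neBot := hlim.neBot
      le_atTop := hlim.le_atTop
      hol := fun z => ⟨fun z => L.symm (H z), ((L.symm : EN N →L[ℂ] V).analyticAt _).comp (hlim.hol.analyticAt z),
        fun h => hlim.ne z (L.symm.map_eq_zero_iff.mp h), Eventually.of_forall fun w => Pr.refl _⟩
      mem := fun z => hclX _ (closure_mono hKX (hcl z)) (hlim.ne z)
      zero_mem := h0K
      holF := fun n z hz => ⟨fun z => L.symm (F n z),
        ((L.symm : EN N →L[ℂ] V).analyticAt _).comp ((hlim.diff n).analyticAt (isOpen_ball.mem_nhds hz)), ?_,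
        Eventually.of_forall fun w => Pr.refl _⟩
      memF := fun n z hz => hlim.mem n z hz
      zero := convP_of_convAt L hlim.le_atTop hlim.hol hlim.ne hlim.diff hlim.zero
      conv := fun z₀ => (hlim.conv z₀).mono fun z hz => convP_of_convAt L hlim.le_atTop hlim.hol hlim.ne hlim.diff hz }
    exact hKne _ (hlim.mem n z hz)
  have hall := h l _ _ hcur (hord.equiv L.symm) ⟨z, hzT⟩
  obtain ⟨a, b, hab⟩ := hne
  obtain ⟨c, hc, e⟩ := hall a b
  refine hab c (L.symm.injective ?_)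
  rw [map_smul]
  exact e

/-- The metric theorem for open surfaces in `ℙ(V)`. -/
theorem nodalL_metric {V : Type} [NormedAddCommGroup V] [NormedSpace ℂ V] {N : ℕ} (L : V ≃L[ℂ] EN N)
    {W : Type} [NormedAddCommGroup W] [InnerProductSpace ℂ W] {X K T : Set V} {m j : ℕ}
    {Ω : V → V → V → ℂ} {Q : V → W} {D : ℕ} (hX : Surface X) (hK : OpenPart X K)
    (hKT : ∀ x ∈ X, x ∉ K → x ∈ T) (hQ : ∀ x, AnalyticAt ℂ Q x)
    (hQs : ∀ (c : ℂ) (x : V), Q (c • x) = c ^ D • Q x) (hT : ∀ x, x ∈ T ↔ x ∈ X ∧ Q x = 0)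
    (hn : ∀ x ∈ T, PairNodalAt X K T x) (hm : 1 ≤ m) (hj : 1 ≤ j) (hΩ : IsForm K m j Ω)
    (hz : NoZeros K T Ω) (hpl : PoleLE X K (m - 1) Ω) :
    IsEq (L.symm ⁻¹' X : Set (EN N)) (L.symm ⁻¹' T) (fun y => Q (L.symm y)) D ∧
    ∃ (M' : ℕ) (c₀ C : ℝ) (G : EN N → EN N → ℝ), MD (L.symm ⁻¹' K : Set (EN N))
      ((L.symm ⁻¹' K : Set (EN N)) ∩ L.symm ⁻¹' T) G
      (Pool.Agent.H14.PP.rho (fun y => Q (L.symm y)) D) M' c₀ C := by
  set X' : Set (EN N) := L.symm ⁻¹' X with hX'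
  set K' : Set (EN N) := L.symm ⁻¹' K with hK'
  set T' : Set (EN N) := L.symm ⁻¹' T with hT'
  have hTs : ∀ x ∈ T, ∀ c : ℂ, c ≠ 0 → c • x ∈ T := by
    intro x hx c hc
    obtain ⟨h1, h2⟩ := (hT x).mp hx
    exact (hT _).mpr ⟨hX.smul x h1 c hc, by rw [hQs, h2, smul_zero]⟩
  have hTX : T ⊆ X := fun x hx => ((hT x).mp hx).1
  have hcone : IsCone X' := isCone_transport L hX
  have hT's : ∀ x ∈ T', ∀ c : ℂ, c ≠ 0 → c • x ∈ T' := by
    intro x hx c hc
    show L.symm (c • x) ∈ T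
    rw [map_smul]
    exact hTs _ hx c hc
  have hK's : ∀ x ∈ K', ∀ c : ℂ, c ≠ 0 → c • x ∈ K' := by
    intro x hx c hc
    show L.symm (c • x) ∈ K
    rw [map_smul]
    exact hK.smul _ hx c hc
  have hopen : IsOpenPart X' K' := ⟨fun x hx => hK.sub hx, hK's, fun x hx => (L.symm.continuous.tendsto x).eventually (hK.rel _ hx)⟩
  have hnodal : IsNodal X' K' T' := by
    intro x hx
    have hxT : L.symm x ∈ T := hx
    obtain ⟨σ, τ, hc, h0, nd, d, hnd, hd, hdn⟩ := hn (L.symm x) hxT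
    have hg := germ_transport L hc
    have hLσ0 : L (σ 0) = x := by rw [h0, L.apply_symm_apply]
    have hnd' : ∀ᶠ p in 𝓝 (0 : ℂ × ℂ), (L (σ p) ∈ T' ↔ p.1 = 0 ∨ (nd = true ∧ p.2 = 0)) := by
      filter_upwards [hnd] with p hp
      rw [← hp]
      show L.symm (L (σ p)) ∈ T ↔ _
      rw [L.symm_apply_apply]
    have hd' : ∀ᶠ p in 𝓝 (0 : ℂ × ℂ), (L (σ p) ∉ K' ↔ (d.1 = true ∧ p.1 = 0) ∨ (d.2 = true ∧ p.2 = 0)) := by
      filter_upwards [hd] with p hp
      rw [← hp]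
      show L.symm (L (σ p)) ∉ K ↔ _
      rw [L.symm_apply_apply]
    obtain ⟨χ, h2, h3, h4, h5⟩ := exists_chart hcone hK's hT's hg hnd' hd'
    refine ⟨χ, nd, d, ?_, ?_, h4, h5, hdn⟩
    · rwa [hLσ0] at h2
    · rwa [hLσ0] at h3
  have heq : IsEq X' T' (fun y => Q (L.symm y)) D := by
    refine ⟨fun x => (hQ _).comp ((L.symm : EN N →L[ℂ] V).analyticAt x), fun c x => ?_, fun x => ?_⟩
    · show Q (L.symm (c • x)) = _
      rw [map_smul, hQs]
    · exact hT (L.symm x)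
  have hnz : (formT L hΩ).NoZeroOff T' := by
    intro x hx hxT v w hv hw hli
    refine hz (L.symm x) hx hxT _ (tan_transport L hv) _ (tan_transport L hw) ?_
    have h1 := hli.map' ((L.symm : EN N →L[ℂ] V) : EN N →ₗ[ℂ] V) (LinearMap.ker_eq_bot.mpr L.symm.injective)
    have h2 : (((L.symm : EN N →L[ℂ] V) : EN N →ₗ[ℂ] V) ∘ ![x, v, w]) = ![L.symm x, L.symm v, L.symm w] := by
      funext i
      fin_cases i <;> rfl
    rw [h2] at h1
    exact h1
  have hpole : (formT L hΩ).PoleBound X' := poleBound_transport L hΩ hpl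
  have hclX : ∀ x ∈ closure X', x ≠ 0 → x ∈ X' := fun x hx hx0 =>
    (hcone.closed.closure_subset_iff.mpr (Set.subset_insert 0 X') hx).resolve_left hx0
  refine ⟨heq, Pool.Agent.H36.BPB.exists_metricB hcone hopen (fun x hx hxn => hKT _ hx hxn) heq hnodal hm hj (formT L hΩ) hnz hpole ?_⟩
  intro l hl F H z₀ s hs hF hH hlim hH0 h0
  have hXc : ∀ x ∈ closure X, x ≠ 0 → x ∈ X := by
    intro x hx hx0
    have h1 : L x ∈ closure X' := by
      have h2 : closure X' = L.symm ⁻¹' (closure X) := (L.symm.toHomeomorph.preimage_closure X).symm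
      rw [h2]
      show L.symm (L x) ∈ closure X
      rwa [L.symm_apply_apply]
    have h2 := hclX _ h1 fun h => hx0 (L.map_eq_zero_iff.mp h)
    have h3 : L.symm (L x) ∈ X := h2
    rwa [L.symm_apply_apply] at h3
  have h1 := hur_openPart hXc hK hl hs (F := fun n z => L.symm (F n z)) (H := fun z => L.symm (H z)) (by
    filter_upwards [hF] with n hn
    exact ⟨((L.symm : EN N →L[ℂ] V).differentiable).comp_differentiableOn hn.1, fun z hz => hn.2 z hz⟩)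
    (((L.symm : EN N →L[ℂ] V).differentiable).comp_differentiableOn hH)
    (tlu_comp hlim hH.continuousOn fun x _ => L.symm.continuous.continuousAt)
    (fun h => hH0 (L.symm.map_eq_zero_iff.mp h)) h0
  exact h1

/-- **The nodal case.** -/
theorem nodalL {V : Type} [NormedAddCommGroup V] [NormedSpace ℂ V] [FiniteDimensional ℂ V]
    {X K B : Set V} {m j : ℕ} {Ω : V → V → V → ℂ} {κ : Type} [Fintype κ] {Q : κ → V → ℂ} {D : ℕ}
    (h : ModelL X K B m j Ω Q D) (hn : ∀ x ∈ X, NodalAt X B x) : Picard K B ∧ Kob K Q D := by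
  classical
  have hKX := h.opn.sub
  have hKs := h.opn.smul
  -- the trivial case
  by_cases hXe : ∃ x₀, x₀ ∈ X
  swap
  · refine ⟨fun r hr f hf hfB => ?_, 1, 0, le_rfl, le_rfl, fun f F hf _ _ _ => ?_⟩
    · obtain ⟨z₁, hz₁, hz₁r, -⟩ := hfB
      exact absurd ⟨f z₁, hKX (hf z₁ hz₁ hz₁r).2⟩ hXe
    · exact absurd ⟨f 0, hKX (hf 0 (by simp)).2⟩ hXe
  obtain ⟨x₀, hx₀⟩ := hXe
  have hXs := h.surf.smul
  have hne : ∀ x ∈ X, x ≠ 0 := fun x hx e => h.surf.zero (e ▸ hx)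
  have hBs := h.eqs.cone h.surf.smul
  have hpos : 0 < Module.finrank ℂ V :=
    Module.finrank_pos_iff_exists_ne_zero.mpr ⟨x₀, hne x₀ hx₀⟩
  obtain ⟨N, hN⟩ : ∃ N, Module.finrank ℂ V = N + 1 := ⟨Module.finrank ℂ V - 1, by omega⟩
  let L : V ≃L[ℂ] EN N := ContinuousLinearEquiv.ofFinrankEq (by rw [hN]; simp)
  obtain ⟨heq, M, c₀, C, G, hM⟩ := nodalL_metric L (Q := Nodal_Q Q) (D := D) h.surf h.opn h.sub (fun x => by
    have h1 : AnalyticAt ℂ (fun x : V => fun i => Q i x) x := by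
      rw [analyticAt_pi_iff]
      exact fun i => h.eqs.an i x
    exact AnalyticAt.comp (g := (WithLp.toLp 2 : (κ → ℂ) → EuclideanSpace ℂ κ))
      (f := fun x : V => fun i => Q i x) ((EuclideanSpace.equiv κ ℂ).symm.analyticAt _) h1)
    (fun c x => by
      unfold Nodal_Q
      rw [← WithLp.toLp_smul]
      congr 1
      funext i
      simp [h.eqs.smul]) (T := B) (fun x => by
      rw [h.eqs.mem_iff]
      unfold Nodal_Q
      constructor
      · rintro ⟨h1, h2⟩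
        refine ⟨h1, ?_⟩
        have h3 : (fun i => Q i x) = (0 : κ → ℂ) := funext h2
        rw [h3]
        rfl
      · rintro ⟨h1, h2⟩
        refine ⟨h1, fun i => ?_⟩
        have h3 := congrFun (congrArg WithLp.ofLp h2) i
        exact h3) (fun x hx => pairNodal_of_nodal h.opn h.sub (h.eqs.sub hx) hx (hn x (h.eqs.sub hx)))
      h.one_m h.one_j h.form h.noZeros h.pole
  have hcone : Pool.Agent.H14.PP.IsCone (L.symm ⁻¹' X : Set (EN N)) := isCone_transport L h.surf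
  have hT's : ∀ x ∈ (L.symm ⁻¹' B : Set (EN N)), ∀ c : ℂ, c ≠ 0 → c • x ∈ (L.symm ⁻¹' B : Set (EN N)) := by
    intro x hx c hc
    show L.symm (c • x) ∈ B
    rw [map_smul]
    exact hBs _ hx c hc
  have hK's : ∀ x ∈ (L.symm ⁻¹' K : Set (EN N)), ∀ c : ℂ, c ≠ 0 → c • x ∈ (L.symm ⁻¹' K : Set (EN N)) := by
    intro x hx c hc
    show L.symm (c • x) ∈ K
    rw [map_smul]
    exact hKs _ hx c hc
  have hK'0 : (0 : EN N) ∉ (L.symm ⁻¹' K : Set (EN N)) := fun h0 => hcone.zero_notMem (hKX h0)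
  have e1 : coneOf (ptsOf (L.symm ⁻¹' K : Set (EN N))) = L.symm ⁻¹' K :=
    coneOf_ptsOf hK'0 hK's
  have e2 : coneOf (ptsOf ((L.symm ⁻¹' K : Set (EN N)) ∩ L.symm ⁻¹' B)) =
      (L.symm ⁻¹' K : Set (EN N)) ∩ L.symm ⁻¹' B :=
    coneOf_ptsOf (fun h0 => hK'0 h0.1)
      (fun x hx c hc => ⟨hK's x hx.1 c hc, hT's x hx.2 c hc⟩)
  obtain ⟨K₁, hK₁, hK₁b⟩ := Pool.Agent.H14.PP.exists_rho_bound hcone heq
  have hM2 : MD (coneOf (ptsOf (L.symm ⁻¹' K : Set (EN N))))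
      (coneOf (ptsOf ((L.symm ⁻¹' K : Set (EN N)) ∩ L.symm ⁻¹' B))) G
      (Pool.Agent.H14.PP.rho (fun y => Nodal_Q Q (L.symm y)) D) M c₀ C := by
    rw [e1, e2]
    exact hM
  have hbound := brody_bound_lim hM (limMod2_transport L h.surf h.opn h.lim)
  have hρB : ∀ x ∈ (L.symm ⁻¹' K : Set (EN N)), x ∈ (L.symm ⁻¹' K : Set (EN N)) ∩ L.symm ⁻¹' B →
      Pool.Agent.H14.PP.rho (fun y => Nodal_Q Q (L.symm y)) D x = 0 := by
    intro x _ hx
    have h1 := ((heq.mem_iff x).1 hx.2).2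
    unfold Pool.Agent.H14.PP.rho
    simp only at h1 ⊢
    rw [h1, norm_zero, zero_div]
  refine ⟨?_, ?_⟩
  · refine W_picard (fun h0 => h.surf.zero (h.opn.sub h0)) h.opn.smul hBs fun f hf hfX hfB => ?_
    obtain ⟨z₁, hz₁, hz₁T⟩ := hfB
    obtain ⟨g, hg, hgf⟩ := picard_cone_of_bound hM hbound (fun x hx c hc => ⟨hK's x hx.1 c hc, hT's x hx.2 c hc⟩) hρB
      (fun z => toPN L (f z)) (holomorphicInto_toPN L hf)
      (fun z hz => (toPN_mem L h.opn.smul (f z)).mpr (hfX z hz)) ⟨z₁, hz₁, fun h1 => hz₁T ((toPN_mem L hBs (f z₁)).mp h1.2)⟩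
    exact ⟨fun z => ofPN L (g z), holInto_ofPN L hg, fun z hz => by simp only; rw [hgf z hz, ofPN_toPN]⟩
  obtain ⟨L₁, hL₁, hkob⟩ := kobayashi_of_bound hM2 (by
    rw [e1]
    exact hbound)
  set A : ℝ := ‖(L : V →L[ℂ] EN N)‖ with hA
  set A' : ℝ := ‖(L.symm : EN N →L[ℂ] V)‖ with hA'
  have hA0 : 0 ≤ A := norm_nonneg _
  have hA'0 : 0 ≤ A' := norm_nonneg _
  -- comparison of the sizes
  have hρ : ∀ x ∈ X, rhoS Q D x ≤ A ^ D *
      Pool.Agent.H14.PP.rho (fun y => Nodal_Q Q (L.symm y)) D (L x) := by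
    intro x hx
    have hx0 : 0 < ‖x‖ := norm_pos_iff.mpr (hne x hx)
    have hLx0 : 0 < ‖L x‖ := norm_pos_iff.mpr fun h0 => hne x hx (L.map_eq_zero_iff.mp h0)
    unfold rhoS Pool.Agent.H14.PP.rho
    simp only
    rw [L.symm_apply_apply, ← mul_div_assoc, div_le_div_iff₀ (by positivity) (by positivity)]
    have h1 : ‖fun i => Q i x‖ ≤ ‖Nodal_Q Q x‖ := by
      refine (pi_norm_le_iff_of_nonneg (norm_nonneg _)).mpr fun i => ?_
      exact PiLp.norm_apply_le (Nodal_Q Q x) i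
    have h2 : ‖L x‖ ≤ A * ‖x‖ := (L : V →L[ℂ] EN N).le_opNorm x
    calc ‖fun i => Q i x‖ * ‖L x‖ ^ D ≤ ‖Nodal_Q Q x‖ * (A * ‖x‖) ^ D := by gcongr
      _ = A ^ D * ‖Nodal_Q Q x‖ * ‖x‖ ^ D := by rw [mul_pow]; ring
  have hρ2 : ∀ x ∈ X, rhoS Q D x ≤ A ^ D * K₁ := by
    intro x hx
    refine (hρ x hx).trans (mul_le_mul_of_nonneg_left (hK₁b _ ?_) (by positivity))
    show L.symm (L x) ∈ X
    rwa [L.symm_apply_apply]
  refine ⟨M + 1, A ^ D * K₁ * ((A ^ D) ^ M * (A' * (L₁ * A))), by omega, by positivity,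
    fun f F hf hF hF0 hfF => ?_⟩
  have hf0 := (hf 0 (by simp)).2
  have hFX : F 0 ∈ X := (Pr.mem_iff hXs hfF.self_of_nhds).1 (hKX hf0)
  have hx1 : (L x₀).ofLp ≠ 0 := ofLp_ne_zero fun h0 => hne x₀ hx₀ (L.map_eq_zero_iff.mp h0)
  set p : ℂ → PN N := fun z => ptN (L x₀).ofLp hx1 (L (f z)).ofLp with hp
  have hLne : ∀ y : V, y ≠ 0 → (L y).ofLp ≠ 0 := fun y hy =>
    ofLp_ne_zero fun h0 => hy (L.map_eq_zero_iff.mp h0)
  have hLpr : ∀ {y y' : V}, Pr y y' → Pr (L y).ofLp (L y').ofLp := by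
    rintro y y' ⟨c, hc, rfl⟩
    exact ⟨c, hc, by rw [map_smul]; rfl⟩
  have hpoint : ∀ {z : ℂ} {y : V} (hy : y ≠ 0), Pr (f z) y →
      p z = Projectivization.mk ℂ (L y).ofLp (hLne y hy) := fun hy h1 =>
    ptN_eq _ _ _ (hLpr h1)
  have h1 := hkob p (fun z => L (F z)) (by
    intro z₀ hz₀
    rw [mem_ball_zero_iff] at hz₀
    obtain ⟨Φ, hΦ, hΦ0, he⟩ := (hf z₀ hz₀).1
    refine ⟨fun z => (L (Φ z)).ofLp, analyticAt_ofLp (((L : V →L[ℂ] EN N).analyticAt _).comp hΦ), ?_⟩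
    filter_upwards [he, hΦ.continuousAt.eventually_ne hΦ0] with z h2 h3
    exact ⟨hLne _ h3, hpoint h3 h2⟩) (by
    intro z hz
    rw [mem_ball_zero_iff] at hz
    have h2 := (hf z hz).2
    have h2X := hKX h2
    show L.symm (WithLp.toLp 2 (p z).rep) ∈ K
    rw [hpoint (hne _ h2X) ⟨1, one_ne_zero, (one_smul _ _).symm⟩]
    obtain ⟨a, ha, h4⟩ := rep_mk (V := Fin (N + 1) → ℂ) (hLne _ (hne _ h2X))
    rw [h4, WithLp.toLp_smul, WithLp.toLp_ofLp, map_smul, L.symm_apply_apply]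
    exact hKs _ h2 a ha) (((L : V →L[ℂ] EN N).analyticAt _).comp hF) (by
    filter_upwards [hfF, hF.continuousAt.eventually_ne hF0] with z h2 h3
    exact ⟨hLne _ h3, hpoint h3 h2⟩)
  have hd : deriv (fun z => L (F z)) 0 = L (deriv F 0) := by
    have h2 : HasDerivAt (fun z => L (F z)) (L (deriv F 0)) 0 :=
      (L : V →L[ℂ] EN N).hasFDerivAt.comp_hasDerivAt 0 hF.differentiableAt.hasDerivAt
    exact h2.deriv
  rw [hd] at h1
  have hLF0 : L (F 0) ≠ 0 := fun h0 => hF0 (L.map_eq_zero_iff.mp h0)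
  rw [Pool.Agent.H14.PP.fs_eq hLF0] at h1
  set a : ℂ := inner ℂ (L (F 0)) (L (deriv F 0)) / (‖L (F 0)‖ : ℂ) ^ 2 with ha
  refine ⟨a, ?_⟩
  have hLFn : 0 < ‖L (F 0)‖ := norm_pos_iff.mpr hLF0
  have h2 : L (deriv F 0) - a • L (F 0) = L (deriv F 0 - a • F 0) := by
    rw [map_sub, map_smul]
  rw [h2, ← mul_div_assoc, div_le_iff₀ hLFn] at h1
  have h3 : ‖deriv F 0 - a • F 0‖ ≤ A' * ‖L (deriv F 0 - a • F 0)‖ := by
    have := (L.symm : EN N →L[ℂ] V).le_opNorm (L (deriv F 0 - a • F 0))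
    have e : (L.symm : EN N →L[ℂ] V) (L (deriv F 0 - a • F 0)) = deriv F 0 - a • F 0 :=
      L.symm_apply_apply _
    rwa [e] at this
  have h4 : ‖L (F 0)‖ ≤ A * ‖F 0‖ := (L : V →L[ℂ] EN N).le_opNorm _
  set ρ₀ := Pool.Agent.H14.PP.rho (fun y => Nodal_Q Q (L.symm y)) D (L (F 0)) with hρ₀
  have hρ₀0 : 0 ≤ ρ₀ := Pool.Agent.H14.PP.rho_nonneg _ _ _
  have h5 := hρ _ hFX
  have h6 := hρ2 _ hFX
  have h7 := rhoS_nonneg Q D (F 0)
  calc rhoS Q D (F 0) ^ (M + 1) * ‖deriv F 0 - a • F 0‖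
      = rhoS Q D (F 0) * (rhoS Q D (F 0) ^ M * ‖deriv F 0 - a • F 0‖) := by rw [pow_succ]; ring
    _ ≤ A ^ D * K₁ * ((A ^ D * ρ₀) ^ M * (A' * ‖L (deriv F 0 - a • F 0)‖)) := by gcongr
    _ = A ^ D * K₁ * ((A ^ D) ^ M * (A' * (ρ₀ ^ M * ‖L (deriv F 0 - a • F 0)‖))) := by
        rw [mul_pow]; ring
    _ ≤ A ^ D * K₁ * ((A ^ D) ^ M * (A' * (L₁ * ‖L (F 0)‖))) := by gcongr
    _ ≤ A ^ D * K₁ * ((A ^ D) ^ M * (A' * (L₁ * (A * ‖F 0‖)))) := by gcongr
    _ = A ^ D * K₁ * ((A ^ D) ^ M * (A' * (L₁ * A))) * ‖F 0‖ := by ring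

end Pool.Agent.H36.LB

end
end

section

/-!
# LB PNConv: the hypothesis on limits in `ℙ^N` and on limits in the cone
-/

set_option autoImplicit false

open Topology Filter Metric

namespace Pool.Agent.H36.LB

attribute [-instance] ProperSMul.toContinuousSMul

open Pool.Agent.H17 (PN HolomorphicInto ZariskiClosedIn)
open Pool.Agent.H17BP (Pr HolP)
open Pool.Agent.H36.BP (OrdTwo)
open Pool.Agent.H36.BPL (OpenPart)
open Pool.Agent.H13.OT (OrderTwo mk_eq_of_pr pr_of_mk_eq holomorphicInto_mk OrdTwo.orderTwo)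

variable {N : ℕ}

open Classical in
/-- the point of `ℙ^N` of a vector -/
noncomputable def pt (x₀ : PN N) (x : Fin (N + 1) → ℂ) : PN N := if h : x ≠ 0 then Projectivization.mk ℂ x h else x₀

theorem pt_eq {x₀ : PN N} {x y : Fin (N + 1) → ℂ} (hy : y ≠ 0) (h : Pr x y) : pt x₀ x = Projectivization.mk ℂ y hy := by
  have hx : x ≠ 0 := by
    obtain ⟨c, hc, rfl⟩ := h
    exact smul_ne_zero hc hy
  unfold pt
  rw [dif_pos hx]
  exact mk_eq_of_pr h hx hy

theorem convPN_of_convP {x₀ : PN N} {l : Filter ℕ} {F : ℕ → ℂ → Fin (N + 1) → ℂ} {f : ℂ → Fin (N + 1) → ℂ} (hf0 : ∀ z, f z ≠ 0)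
    {z₀ : ℂ} (h : ConvP l F f z₀) (hF : ∀ s : ℝ, ∀ᶠ n in l, ∀ z ∈ ball z₀ s, F n z ≠ 0) :
    ConvPN l (fun n z => pt x₀ (F n z)) (fun z => Projectivization.mk ℂ (f z) (hf0 z)) z₀ := by
  obtain ⟨s, Φ, Φ₀, hs, hΦ, hΦ₀, hf, hlim⟩ := h
  refine ⟨s, Φ, Φ₀, hs, ?_, hΦ₀, fun z hz => ⟨(hf z hz).1, mk_eq_of_pr (hf z hz).2 _ _⟩, hlim⟩
  filter_upwards [hΦ, hF s] with n hn hn2
  refine ⟨hn.1, fun z hz => ?_⟩
  have h1 : Φ n z ≠ 0 := by
    obtain ⟨c, hc, e⟩ := hn.2 z hz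
    intro h0
    rw [h0, smul_zero] at e
    exact hn2 z hz e
  exact ⟨h1, pt_eq h1 (hn.2 z hz)⟩

/-- The hypothesis on limits in `ℙ^N` gives the hypothesis on limits in the cone: `U` is a set of points in the
projective space and `K` its cone, `X` the closed cone, `T ⊇ X ∖ K`. -/
theorem lim2_of_limModPN {U Ξ : Set (PN N)} {X K T : Set (Fin (N + 1) → ℂ)} (h0 : ∀ x ∈ X, x ≠ 0)
    (hXs : ∀ x ∈ X, ∀ c : ℂ, c ≠ 0 → c • x ∈ X) (hXc : ∀ x ∈ closure X, x ≠ 0 → x ∈ X) (hK : OpenPart X K)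
    (hKT : ∀ x ∈ X, x ∉ K → x ∈ T)
    (hU : ∀ (x : Fin (N + 1) → ℂ) (hx : x ≠ 0), Projectivization.mk ℂ x hx ∈ U ↔ x ∈ K)
    (hT : ∀ (x : Fin (N + 1) → ℂ) (hx : x ≠ 0), x ∈ K → Projectivization.mk ℂ x hx ∈ Ξ → x ∈ T)
    (h : LimModPN U Ξ) : Lim2 X K T := by
  rintro l F f hf hord ⟨z₁, hz₁⟩ z w
  by_contra hzw
  have hf0 : ∀ z, f z ≠ 0 := fun z => h0 _ (hf.mem z)
  have hF0 : ∀ n : ℕ, ∀ z ∈ ball (0 : ℂ) (n + 1), F n z ≠ 0 := fun n z hz => h0 _ (hK.sub (hf.memF n z hz))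
  set x₀ : PN N := Projectivization.mk ℂ (f 0) (hf0 0) with hx₀
  have hev : ∀ (z₀ : ℂ) (s : ℝ), ∀ᶠ n in l, ∀ z ∈ ball z₀ s, F n z ≠ 0 := by
    intro z₀ s
    obtain ⟨n₀, hn₀⟩ := exists_nat_ge (‖z₀‖ + s)
    filter_upwards [hf.le_atTop (eventually_ge_atTop n₀)] with n hn w hw
    refine hF0 n w ?_
    rw [mem_ball_zero_iff]
    have h2 : ‖w - z₀‖ < s := by simpa [dist_eq_norm] using hw
    have h3 : ‖w‖ ≤ ‖w - z₀‖ + ‖z₀‖ := by
      have := norm_add_le (w - z₀) z₀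
      rwa [sub_add_cancel] at this
    have h4 : (n₀ : ℝ) ≤ n := by exact_mod_cast hn
    linarith
  have hlim : IsLimitPN U l (fun n z => pt x₀ (F n z)) (fun z => Projectivization.mk ℂ (f z) (hf0 z)) := by
    refine
    { neBot := hf.neBot
      le_atTop := hf.le_atTop
      hol := holomorphicInto_mk hf0 hf.hol
      zero_mem := (hU _ _).2 hf.zero_mem
      holF := ?_
      memF := ?_
      zero := convPN_of_convP hf0 hf.zero (hev 0)
      conv := fun z₀ => (hf.conv z₀).mono fun z hz => convPN_of_convP hf0 hz (hev z)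
      mem_of_conv := ?_ }
    · intro n z hz
      obtain ⟨G, hG, hG0, he⟩ := hf.holF n z hz
      refine ⟨G, hG, ?_⟩
      filter_upwards [he, hG.continuousAt.eventually_ne hG0] with y h1 h2
      exact ⟨h2, pt_eq h2 h1⟩
    · intro n z hz
      have h1 := hF0 n z hz
      show pt x₀ (F n z) ∈ U
      rw [pt_eq h1 (Pool.Agent.H17BP.Pr.refl _)]
      exact (hU _ h1).2 (hf.memF n z hz)
    · intro z hz
      refine (hU _ _).2 ?_
      obtain ⟨s, Φ, Φ₀, hs, hΦ, hΦ₀, hf', hlim⟩ := hz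
      refine hf.mem_of_conv hXs hXc hK (z := z) ⟨s, Φ, Φ₀, hs, ?_, hΦ₀, fun w hw => ?_, hlim⟩
      · filter_upwards [hΦ, hev z s] with n hn hn2
        refine ⟨hn.1, fun w hw => ?_⟩
        obtain ⟨h1, h2⟩ := hn.2 w hw
        rw [pt_eq (hn2 w hw) (Pool.Agent.H17BP.Pr.refl _)] at h2
        exact pr_of_mk_eq _ _ h2
      · obtain ⟨h1, h2⟩ := hf' w hw
        exact ⟨h1, pr_of_mk_eq _ _ h2⟩
  have hz₁K : f z₁ ∈ K := by
    by_contra hcon
    exact hz₁ (hKT _ (hf.mem z₁) hcon)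
  exact hz₁ (hT _ (hf0 z₁) hz₁K (h l _ _ hlim (OrdTwo.orderTwo hf0 hf.hol hord) ⟨z, w, fun he => hzw (pr_of_mk_eq _ _ he)⟩ z₁
    ((hU _ _).2 hz₁K)))

end Pool.Agent.H36.LB

end
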