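import Pool.Agent.H94.CB.EG.Bad
import Pool.Agent.H94.CB.H17G.Shift
import Pool.Agent.H94.CB.H62.EF.ZalA
import Pool.Agent.H94.CB.M184
import Pool.Agent.H94.CB.M245
import Pool.Agent.H94.CB.M255

/-! The parts of this file: H17V.VLim, H17V.VEnd, H17V.BadV, H17V.MainV. -/

section

/-!
# H17V VLim: entire curves with bounded derivative in the fibre

Let `f` be a non-constant entire curve in `K` in the fibre over the good value `c`.  Its global lift (private `BaseB_lift` in H17N/BaseB.lean: copy) is `F : ℂ → EN M`, `G z = L.symm (F z)` proportional to `f z`.  If `fs (F z) (F' z)` is bounded take `H = G`.  Otherwise follow `vertical_const` in EG/HyVer.lean: `rescale_fs`, `limit_curves` (H62/EF/LimL.lean) for `X' = L.symm ⁻¹' X` (`IsCone`: `isCone_transport`):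
an entire `H' : ℂ → EN M` in `X'` with `fs (H' 0) (deriv H' 0) = 1`, `fs ≤ 2`, a limit of the rescaled curves `K n` (in `L.symm ⁻¹' K`, over `c`), `pr (K n z) → pr (H' z)` and locally uniformly for suitable multiples.  `H = L.symm ∘ H'`: `u (H z) - c ∈ Λ`: `EG.mem_fibre_of_tendsto` (or directly with `tor.loc`), it is not constant because `fs (H' 0) (deriv H' 0) ≠ 0` (if all values are proportional to `H' 0` then
the derivative is, `wd = 0`; `Brody_deriv_line`).  `H z ∈ K` for all `z`: suppose `H z₀ ∉ K`.  `hur_openPart` (H36/LB/Hur.lean), with the locally uniformly convergent multiples of the last clause of `limit_curves`, gives `H z ∉ K` for all `z` near `z₀`.  `GoodC` at `x = H z₀`: chart `σ, τ` with `σ 0 = x`, `u = c + s`, and (as `x ∉ K`) `σ p ∉ K ↔ p.2 = 0`.  For `z` near `z₀`: `H z = a • σ (τ (H z))`,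
`τ (H z) = (s, t)` with `c + s - c ∈ Λ`, `s` small, so `s = 0`, and `t = 0` because `H z ∉ K` (`opn.smul`).  So `H z` is proportional to `x` for `z` near `z₀`, hence for all `z` (private `ver_ident` in EG/HyVer.lean, applied to `L ∘ H`): contradiction.
-/

set_option autoImplicit false

open Topology Filter

namespace Pool.Agent.H17V

attribute [-instance] ProperSMul.toContinuousSMul

open Pool.Agent.H17BP (Surface IsChart IsForm NoZeros Pr HolP)
open Pool.Agent.H17N (TMap)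
open Pool.Agent.H36.BPL (OpenPart PoleLE)
open Pool.Agent.H36.BP (EN fs wd)
open Pool.Agent.H62.EF (Lat)

variable {V : Type} [NormedAddCommGroup V] [NormedSpace ℂ V] [FiniteDimensional ℂ V] {X K : Set V} {Λ : AddSubgroup ℂ} {u : V → ℂ} {m d M : ℕ}
  {Ω : V → V → V → ℂ} {q : V → ℂ} {c : ℂ}

/-- an entire curve which is locally constant in the projective space is constant -/
private theorem VLim_ident {N : ℕ} {G : ℂ → EN N} (hG : Differentiable ℂ G) (h0 : ∀ z, G z ≠ 0) {ζ₀ : ℂ}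
    (h : ∀ᶠ z in 𝓝 ζ₀, ∃ c : ℂ, G z = c • G ζ₀) (z w : ℂ) : ∃ c : ℂ, G z = c • G w := by
  have hcoord : ∀ i, Differentiable ℂ (fun z => G z i) := fun i => by
    exact (EuclideanSpace.proj (𝕜 := ℂ) i).differentiable.comp hG
  have hmin : ∀ i j : Fin (N + 1), ∀ z, G z i * G ζ₀ j - G z j * G ζ₀ i = 0 := by
    intro i j
    have hd : Differentiable ℂ (fun z => G z i * G ζ₀ j - G z j * G ζ₀ i) :=
      ((hcoord i).mul_const _).sub ((hcoord j).mul_const _)
    have han : AnalyticOnNhd ℂ (fun z => G z i * G ζ₀ j - G z j * G ζ₀ i) Set.univ := fun z _ => hd.analyticAt z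
    have hev : (fun z => G z i * G ζ₀ j - G z j * G ζ₀ i) =ᶠ[𝓝 ζ₀] 0 := by
      filter_upwards [h] with z hz
      obtain ⟨c, hc⟩ := hz
      rw [hc]
      simp only [PiLp.smul_apply, smul_eq_mul, Pi.zero_apply]
      ring
    have := han.eqOn_zero_of_preconnected_of_eventuallyEq_zero isPreconnected_univ (Set.mem_univ ζ₀) hev
    intro z
    exact this (Set.mem_univ z)
  obtain ⟨i, hi⟩ : ∃ i, G ζ₀ i ≠ 0 := by
    by_contra hcon
    push Not at hcon
    apply h0 ζ₀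
    ext i
    simpa using hcon i
  have hall : ∀ z, G z = (G z i / G ζ₀ i) • G ζ₀ := by
    intro z
    ext j
    have h1 := hmin i j z
    rw [PiLp.smul_apply, smul_eq_mul, div_mul_eq_mul_div, eq_div_iff hi]
    linear_combination -h1
  have hw : G w i / G ζ₀ i ≠ 0 := by
    intro hcon
    apply h0 w
    rw [hall w, hcon, zero_smul]
  have hwi : G ζ₀ = (G w i / G ζ₀ i)⁻¹ • G w := by
    have h1 := congrArg (fun x => (G w i / G ζ₀ i)⁻¹ • x) (hall w)
    simp only [smul_smul, inv_mul_cancel₀ hw, one_smul] at h1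
    exact h1.symm
  refine ⟨(G z i / G ζ₀ i) * (G w i / G ζ₀ i)⁻¹, ?_⟩
  rw [mul_smul, ← hwi]
  exact hall z

omit [FiniteDimensional ℂ V] in
/-- the global lift of a holomorphic map to the projective space -/
private theorem VLim_lift (L : V ≃L[ℂ] EN M) (hX : Surface X) {f : ℂ → V} (hf : ∀ z, HolP f z) (hfX : ∀ z, f z ∈ X) :
    ∃ F : ℂ → EN M, Differentiable ℂ F ∧ ∀ z, ∃ c : ℂ, c ≠ 0 ∧ F z = c • L (f z) := by
  have hf0 : ∀ z, f z ≠ 0 := fun z h0 => hX.zero (h0 ▸ hfX z)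
  have hne : ∀ z, (Pool.Agent.H17EF.LE M).symm (L (f z)) ≠ 0 := fun z h0 => hf0 z (by simpa using h0)
  have hhol : Pool.Agent.H17.HolomorphicInto (fun z => Projectivization.mk ℂ ((Pool.Agent.H17EF.LE M).symm (L (f z))) (hne z)) Set.univ := by
    intro z _
    obtain ⟨G, hG, hG0, hG1⟩ := hf z
    have h1 : AnalyticAt ℂ (fun w => L (G w)) z := ((L : V →L[ℂ] EN M).analyticAt _).comp hG
    refine ⟨fun w => (Pool.Agent.H17EF.LE M).symm (L (G w)), (((Pool.Agent.H17EF.LE M).symm : EN M →L[ℂ] (Fin (M + 1) → ℂ)).analyticAt _).comp h1, ?_⟩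
    filter_upwards [hG1, hG.continuousAt.eventually_ne hG0] with w hw hw0
    obtain ⟨c, hc, hw1⟩ := hw
    refine ⟨fun h0 => hw0 (by simpa using h0), ?_⟩
    rw [Projectivization.mk_eq_mk_iff']
    exact ⟨c, by rw [hw1, map_smul, map_smul]⟩
  obtain ⟨F, hF, hF1⟩ := Pool.Agent.H17EF.exists_lift hhol
  refine ⟨F, hF, fun z => ?_⟩
  obtain ⟨h0, h1⟩ := hF1 z
  rw [Projectivization.mk_eq_mk_iff'] at h1
  obtain ⟨a, ha⟩ := h1
  -- `a • (Pool.Agent.H17EF.LE M).symm (F z) = (Pool.Agent.H17EF.LE M).symm (L (f z))`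
  have h2 : a • F z = L (f z) := by
    have h3 := congrArg (fun y => (Pool.Agent.H17EF.LE M) y) ha
    simpa using h3
  have ha0 : a ≠ 0 := by
    rintro rfl
    rw [zero_smul] at h2
    exact hf0 z (by simpa using h2.symm)
  refine ⟨a⁻¹, inv_ne_zero ha0, ?_⟩
  rw [← h2, smul_smul, inv_mul_cancel₀ ha0, one_smul]

omit [FiniteDimensional ℂ V] in
private theorem VLim_tor (L : V ≃L[ℂ] EN M) (hu : TMap X Λ u) :
    Pool.Agent.H62.EF.TorusMap (L.symm ⁻¹' X : Set (EN M)) Λ (fun x => u (L.symm x)) := by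
  constructor
  · intro x hx c hc
    show u (L.symm (c • x)) - u (L.symm x) ∈ Λ
    rw [map_smul]
    exact hu.smul _ hx c hc
  · intro x hx
    obtain ⟨v, hv, hve⟩ := hu.loc (L.symm x) hx
    refine ⟨fun y => v (L.symm y), ?_, ?_⟩
    · exact AnalyticAt.comp (g := v) (f := fun y => L.symm y) hv ((L.symm : EN M →L[ℂ] V).analyticAt x)
    · exact (L.symm.continuous.tendsto x).eventually hve

omit [FiniteDimensional ℂ V] in
/-- near a point which is not in `K` the curve does not move -/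
private theorem VLim_pt (hΛ : Lat Λ) (h : VData X K Λ u m Ω q d) (hc : GoodC X K Λ u q c) {H : ℂ → V} {z₀ : ℂ} (hH : ContinuousAt H z₀)
    (hX : ∀ z, H z ∈ X) (hu : ∀ z, u (H z) - c ∈ Λ) (hK : ∀ᶠ z in 𝓝 z₀, H z ∉ K) : ∀ᶠ z in 𝓝 z₀, ∃ a : ℂ, a ≠ 0 ∧ H z = a • H z₀ := by
  obtain ⟨σ, τ, hSC, h0, -⟩ := hc (H z₀) (hX z₀) (hu z₀)
  have hbd : ∀ᶠ p in 𝓝 (0 : ℂ × ℂ), σ p ∉ K ↔ p.2 = 0 := by
    rcases hSC.bd with h1 | h1
    · have h2 := h1.self_of_nhds
      rw [h0] at h2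
      exact absurd h2 hK.self_of_nhds
    · exact h1
  obtain ⟨δ, hδ, hd⟩ := hΛ.discrete
  have hτ : Tendsto (fun z => τ (H z)) (𝓝 z₀) (𝓝 0) := by
    have h1 : Tendsto τ (𝓝 (σ 0)) (𝓝 (τ (σ 0))) := hSC.chart.τ_an.continuousAt
    rw [hSC.chart.left.self_of_nhds, h0] at h1
    exact h1.comp hH
  have hsm : ∀ᶠ p in 𝓝 (0 : ℂ × ℂ), ‖p.1‖ < δ := by
    have h1 : Tendsto (fun p : ℂ × ℂ => ‖p.1‖) (𝓝 0) (𝓝 ‖(0 : ℂ × ℂ).1‖) := (continuous_fst.tendsto 0).norm
    rw [Prod.fst_zero, norm_zero] at h1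
    exact h1.eventually_lt_const hδ
  have hr : ∀ᶠ z in 𝓝 z₀, H z ∈ X → ∃ c : ℂ, c ≠ 0 ∧ H z = c • σ (τ (H z)) := by
    have h1 := hSC.chart.right
    rw [h0] at h1
    exact hH.eventually h1
  filter_upwards [hr, hK, hτ.eventually hbd, hτ.eventually hsm, hτ.eventually hSC.lift, hτ.eventually hSC.chart.σ_mem] with z h1 h2 h3 h4 h5 h6
  obtain ⟨a, ha, h7⟩ := h1 (hX z)
  have h8 : σ (τ (H z)) ∉ K := by
    intro h9
    apply h2
    rw [h7]
    exact h.opn.smul _ h9 a ha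
  have h9 : (τ (H z)).2 = 0 := h3.mp h8
  have h10 : (τ (H z)).1 ∈ Λ := by
    have h11 := h.tor.smul _ h6 a ha
    rw [← h7] at h11
    have h12 := Λ.sub_mem (Λ.sub_mem (hu z) h11) h5
    have h13 : u (H z) - c - (u (H z) - u (σ (τ (H z)))) - (u (σ (τ (H z))) - (c + (τ (H z)).1)) = (τ (H z)).1 := by ring
    rwa [h13] at h12
  have h11 : τ (H z) = 0 := Prod.ext (hd _ h10 h4) h9
  rw [h11, h0] at h7
  exact ⟨a, ha, h7⟩

theorem exists_bd (L : V ≃L[ℂ] EN M) (hΛ : Lat Λ) (h : VData X K Λ u m Ω q d) (hc : GoodC X K Λ u q c) {f : ℂ → V} (hf : ∀ z, HolP f z)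
    (hfK : ∀ z, f z ∈ K) (hfu : ∀ z, u (f z) - c ∈ Λ) (hne : ∃ z w, ¬ Pr (f z) (f w)) :
    ∃ H : ℂ → V, Differentiable ℂ H ∧ (∀ z, H z ∈ K ∧ u (H z) - c ∈ Λ) ∧ (∃ z w, ¬ Pr (H z) (H w)) ∧
      ∃ C : ℝ, ∀ z, fs (L (H z)) (deriv (fun ζ => L (H ζ)) z) ≤ C := by
  have hKX := h.opn.sub
  obtain ⟨F, hF, hFf⟩ := VLim_lift L h.surf hf (fun z => hKX (hfK z))
  have hFs : ∀ z, ∃ a : ℂ, a ≠ 0 ∧ L.symm (F z) = a • f z := by
    intro z
    obtain ⟨a, ha, h1⟩ := hFf z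
    refine ⟨a, ha, ?_⟩
    rw [h1, map_smul, ContinuousLinearEquiv.symm_apply_apply]
  have hGK : ∀ z, L.symm (F z) ∈ K := by
    intro z
    obtain ⟨a, ha, h1⟩ := hFs z
    rw [h1]
    exact h.opn.smul _ (hfK z) a ha
  have hGu : ∀ z, u (L.symm (F z)) - c ∈ Λ := by
    intro z
    obtain ⟨a, ha, h1⟩ := hFs z
    rw [h1]
    have h2 := Λ.add_mem (h.tor.smul _ (hKX (hfK z)) a ha) (hfu z)
    rwa [sub_add_sub_cancel] at h2
  have hPr : ∀ z, Pr (L.symm (F z)) (f z) := fun z => hFs z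
  have hX : Pool.Agent.H14.PP.IsCone (L.symm ⁻¹' X : Set (EN M)) := Pool.Agent.H36.BP.isCone_transport L h.surf
  have hX0 : ∀ x ∈ (L.symm ⁻¹' X : Set (EN M)), x ≠ 0 := fun x hx h => hX.zero_notMem (h ▸ hx)
  by_cases hL : ∃ C : ℝ, ∀ z, fs (F z) (deriv F z) ≤ C
  · obtain ⟨C, hC⟩ := hL
    refine ⟨fun z => L.symm (F z), (L.symm : EN M →L[ℂ] V).differentiable.comp hF, fun z => ⟨hGK z, hGu z⟩, ?_, C, ?_⟩
    · obtain ⟨z, w, hzw⟩ := hne
      exact ⟨z, w, fun h1 => hzw ((hPr z).symm.trans (h1.trans (hPr w)))⟩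
    · intro z
      have h1 : (fun ζ => L (L.symm (F ζ))) = F := by
        funext ζ
        rw [ContinuousLinearEquiv.apply_symm_apply]
      show fs (L (L.symm (F z))) (deriv (fun ζ => L (L.symm (F ζ))) z) ≤ C
      rw [h1, ContinuousLinearEquiv.apply_symm_apply]
      exact hC z
  push Not at hL
  have hF0 : ∀ z, F z ≠ 0 := fun z => hX0 _ (hKX (hGK z))
  have hbig : ∀ n : ℕ, ∃ z, 4 * ((n : ℝ) + 1) < fs (F z) (deriv F z) := fun n => hL _
  choose zc hzc using hbig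
  have hresc : ∀ n : ℕ, ∃ (z₀ : ℂ) (a : ℝ), 4 * ((n : ℝ) + 1) < a ∧
      fs (F (z₀ + zc n)) (deriv (fun ζ => F (z₀ + ((a⁻¹ : ℝ) : ℂ) * ζ + zc n)) 0) = 1 ∧
      ∀ ζ ∈ Metric.ball (0 : ℂ) (n + 1), fs (F (z₀ + ((a⁻¹ : ℝ) : ℂ) * ζ + zc n))
        (deriv (fun ζ => F (z₀ + ((a⁻¹ : ℝ) : ℂ) * ζ + zc n)) ζ) ≤ 2 := by
    intro n
    have hd : Differentiable ℂ (fun z => F (z + zc n)) := hF.comp (differentiable_id.add_const _)
    refine Pool.Agent.H62.EF.rescale_fs hd (fun z => hF0 _) n ?_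
    rw [deriv_comp_add_const]
    simpa using hzc n
  choose w₀ a ha h1 h2 using hresc
  set G : ℕ → ℂ → EN M := fun n ζ => F (w₀ n + (((a n)⁻¹ : ℝ) : ℂ) * ζ + zc n) with hGdef
  have hGd : ∀ n, Differentiable ℂ (G n) := by
    intro n
    exact hF.comp (((differentiable_id.const_mul _).const_add _).add_const _)
  have hGK' : ∀ n ζ, L.symm (G n ζ) ∈ K := fun n ζ => hGK _
  have hGX : ∀ n ζ, G n ζ ∈ (L.symm ⁻¹' X : Set (EN M)) := fun n ζ => hKX (hGK _)
  have hG1 : ∀ n, fs (G n 0) (deriv (G n) 0) = 1 := by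
    intro n
    have := h1 n
    rw [hGdef]
    simpa only [mul_zero, add_zero] using this
  set 𝒰 : Ultrafilter ℕ := hyperfilter ℕ with h𝒰
  have hle : (𝒰 : Filter ℕ) ≤ atTop := Nat.hyperfilter_le_atTop
  have hρ : Tendsto (fun n : ℕ => (n : ℝ) + 1) 𝒰 atTop :=
    (tendsto_atTop_add_const_right _ _ tendsto_natCast_atTop_atTop).mono_left hle
  obtain ⟨H, hH, hHX, hpr, hfs, hloc⟩ := Pool.Agent.H62.EF.limit_curves hX (L := 2) two_pos 𝒰 G (fun n : ℕ => (n : ℝ) + 1) hρ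
    (Eventually.of_forall fun n => ⟨(hGd n).differentiableOn, fun z hz => ⟨hGX n z, h2 n z hz⟩⟩)
  have hH0 : ∀ z, H z ≠ 0 := fun z => hX0 _ (hHX z)
  have hone : fs (H 0) (deriv H 0) = 1 := by
    have h3 := hfs 0
    simp only [hG1] at h3
    exact tendsto_nhds_unique h3 tendsto_const_nhds
  have hnc : ¬ ∀ z w, ∃ a : ℂ, H z = a • H w := by
    intro hcon
    obtain ⟨b, hb⟩ := Pool.Agent.H36.BP.Brody_deriv_line (hH 0) (fun z => hcon z 0)
    have h3 : wd (H 0) (deriv H 0) = 0 := (Pool.Agent.H36.BP.wd_eq_zero (hH0 0)).mpr ⟨b, hb⟩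
    unfold fs at hone
    rw [h3, zero_div] at hone
    exact zero_ne_one hone
  have hHu : ∀ ζ, u (L.symm (H ζ)) - c ∈ Λ := fun ζ =>
    Pool.Agent.EG.mem_fibre_of_tendsto hX (VLim_tor L h.tor) hΛ (x := fun n => G n ζ) (c := fun _ => c)
      (Eventually.of_forall fun n => ⟨hGX n ζ, hGu _⟩) (hHX ζ) (hpr ζ) tendsto_const_nhds
  have hHL : ∀ ζ, fs (H ζ) (deriv H ζ) ≤ 2 := by
    intro ζ
    refine le_of_tendsto (hfs ζ) ?_
    have h3 : ∀ᶠ n : ℕ in (𝒰 : Filter ℕ), ‖ζ‖ < (n : ℝ) + 1 := hρ.eventually (eventually_gt_atTop _)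
    filter_upwards [h3] with n hn
    exact h2 n ζ (by rwa [mem_ball_zero_iff])
  have hHd : Differentiable ℂ (fun z => L.symm (H z)) := (L.symm : EN M →L[ℂ] V).differentiable.comp hH
  have hHK : ∀ z, L.symm (H z) ∈ K := by
    intro z₀
    by_contra hz₀
    obtain ⟨r, φ, ψ, hr, hφ, hψ, hψH, hlim⟩ := hloc z₀
    have hmem : z₀ ∈ Metric.ball z₀ r := Metric.mem_ball_self hr
    have hlim' : TendstoLocallyUniformlyOn (fun n z => L.symm (φ n z)) (fun z => L.symm (ψ z)) (𝒰 : Filter ℕ) (Metric.ball z₀ r) :=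
      (L.symm : EN M →L[ℂ] V).uniformContinuous.comp_tendstoLocallyUniformlyOn hlim
    have hψK : ∀ z ∈ Metric.ball z₀ r, (L.symm (ψ z) ∈ K ↔ L.symm (H z) ∈ K) := by
      intro z hz
      obtain ⟨b, hb, h3⟩ := hψH z hz
      rw [h3, map_smul]
      constructor
      · intro h4
        have h5 := h.opn.smul _ h4 _ (inv_ne_zero hb)
        rwa [smul_smul, inv_mul_cancel₀ hb, one_smul] at h5
      · intro h4
        exact h.opn.smul _ h4 b hb
    have hne0 : L.symm (ψ z₀) ≠ 0 := by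
      obtain ⟨b, hb, h3⟩ := hψH z₀ hmem
      rw [h3, map_smul]
      refine smul_ne_zero hb fun h4 => hH0 z₀ ?_
      simpa using h4
    have key := Pool.Agent.H36.LB.hur_openPart h.surf.closed h.opn (l := (𝒰 : Filter ℕ)) inferInstance hr (F := fun n z => L.symm (φ n z))
      (H := fun z => L.symm (ψ z)) (by
        filter_upwards [hφ] with n hn
        refine ⟨(L.symm : EN M →L[ℂ] V).differentiable.comp_differentiableOn hn.1, fun z hz => ?_⟩
        obtain ⟨b, hb, h3⟩ := hn.2 z hz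
        rw [h3, map_smul]
        exact h.opn.smul _ (hGK' n z) b hb) ((L.symm : EN M →L[ℂ] V).differentiable.comp_differentiableOn hψ) hlim' hne0
      (fun h3 => hz₀ ((hψK z₀ hmem).mp h3))
    have key' : ∀ᶠ z in 𝓝 z₀, L.symm (H z) ∉ K := by
      filter_upwards [key, Metric.isOpen_ball.mem_nhds hmem] with z h3 h4 h5
      exact h3 ((hψK z h4).mpr h5)
    have h3 := VLim_pt hΛ h hc (H := fun z => L.symm (H z)) (z₀ := z₀) hHd.continuous.continuousAt (fun z => hHX z) hHu key'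
    refine hnc (VLim_ident hH hH0 (ζ₀ := z₀) ?_)
    filter_upwards [h3] with z h4
    obtain ⟨b, hb, h5⟩ := h4
    refine ⟨b, L.symm.injective ?_⟩
    rw [map_smul]
    exact h5
  refine ⟨fun z => L.symm (H z), hHd, fun z => ⟨hHK z, hHu z⟩, ?_, 2, ?_⟩
  · by_contra hcon
    push Not at hcon
    apply hnc
    intro z w
    obtain ⟨b, hb, h3⟩ := hcon z w
    refine ⟨b, L.symm.injective ?_⟩
    rw [map_smul]
    exact h3
  · intro z
    have h3 : (fun ζ => L (L.symm (H ζ))) = H := by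
      funext ζ
      rw [ContinuousLinearEquiv.apply_symm_apply]
    show fs (L (L.symm (H z))) (deriv (fun ζ => L (L.symm (H ζ))) z) ≤ 2
    rw [h3, ContinuousLinearEquiv.apply_symm_apply]
    exact hHL z

end Pool.Agent.H17V

end

section

/-!
# H17V VEnd: the entire curves in the fibre over a good value are constant

Suppose `f` is not constant; `exists_bd` (with any `L : V ≃L[ℂ] EN M`) gives `H`, `exists_vfun` gives `Φ`, bounded by `vfun_bd`, so `Φ z = Φ₀` for all `z` (Liouville, `Differentiable.apply_eq_apply_of_bounded`).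
`Φ₀ ≠ 0`: `Φ z` is a multiple of `σ (0, tco ..)` for the chart at `H z` (`a = 1`, `IsV`), which is a multiple of `H z` (`right`); so all `H z` are proportional to `Φ₀`: contradiction.
`Φ₀ = 0`: there are a point `z₀` and a chart `σ, τ` (`GoodC` at `H z₀`, `σ 0 = H z₀`) with `t' (z₀) ≠ 0`, `t = tco τ H`: otherwise for every `z₀` the derivative of `t` vanishes at `z₀` for the chart at `H z₀`; as the charts at nearby points are related by a biholomorphic map (see VFun) `t' = 0` near `z₀` for the chart at `z₀`, so `H` is locally constant in the projective space, so constant (private `ver_ident` in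
EG/HyVer.lean): contradiction.  (Alternatively: `H' (z₀)` is not proportional to `H (z₀)` for some `z₀`, see the private `ver_wd` there, and `H ζ = A ζ • σ (0, t ζ)`.)  For `ζ` near `z₀`: `0 = Φ ζ = loc m Ω σ τ H ζ`, `t' (ζ) ≠ 0`, so `Ω (σ (0, t ζ); ∂_s σ, ∂_t σ) = 0`; `σ (0, t ζ) ∈ K` (a multiple of `H ζ`), the vectors `σ, ∂_s σ, ∂_t σ` are linearly independent (chart; `IsChart.indep` in H62/BU/Ch.lean, at the point
`(0, t ζ)` by `IsChart.near`), tangent vectors of `K`, so by `noZeros` `q (σ (0, t ζ)) = 0` for `ζ` near `z₀`.  `t` is open near `z₀`, `t z₀ = 0`: `q (σ (0, t)) = 0` for `t` near `0`: contradiction to `GoodC`.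
-/

set_option autoImplicit false

open Topology Filter

namespace Pool.Agent.H17V

attribute [-instance] ProperSMul.toContinuousSMul

open Pool.Agent.H17BP (Surface IsChart IsForm NoZeros Pr HolP)
open Pool.Agent.H17N (TMap)
open Pool.Agent.H36.BPL (OpenPart PoleLE)
open Pool.Agent.H36.BP (EN fs wd)
open Pool.Agent.H62.EF (Lat)

variable {V : Type} [NormedAddCommGroup V] [NormedSpace ℂ V] [FiniteDimensional ℂ V] {X K : Set V} {Λ : AddSubgroup ℂ} {u : V → ℂ} {m d : ℕ}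
  {Ω : V → V → V → ℂ} {q : V → ℂ} {c : ℂ}

/-- an entire curve which is locally constant in the projective space is constant -/
private theorem ve_ident {H : ℂ → V} (hH : Differentiable ℂ H) (h0 : ∀ z, H z ≠ 0) {ζ₀ : ℂ}
    (h : ∀ᶠ z in 𝓝 ζ₀, ∃ a : ℂ, H z = a • H ζ₀) (z : ℂ) : Pr (H z) (H ζ₀) := by
  have : CompleteSpace V := FiniteDimensional.complete ℂ V
  obtain ⟨φ, hφ⟩ := exists_dual_vector ℂ (H ζ₀) (norm_ne_zero_iff.mpr (h0 ζ₀))
  have hφ0 : φ (H ζ₀) ≠ 0 := by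
    rw [hφ.2]
    simpa using h0 ζ₀
  have hd : Differentiable ℂ (fun z => φ (H ζ₀) • H z - φ (H z) • H ζ₀) :=
    (hH.const_smul (φ (H ζ₀))).sub ((φ.differentiable.comp hH).smul_const (H ζ₀))
  have han : AnalyticOnNhd ℂ (fun z => φ (H ζ₀) • H z - φ (H z) • H ζ₀) Set.univ := fun z _ => hd.analyticAt z
  have hev : (fun z => φ (H ζ₀) • H z - φ (H z) • H ζ₀) =ᶠ[𝓝 ζ₀] 0 := by
    filter_upwards [h] with z hz
    obtain ⟨a, ha⟩ := hz
    simp only [Pi.zero_apply]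
    rw [ha, map_smul, smul_eq_mul, smul_smul, mul_comm, sub_self]
  have h1 : φ (H ζ₀) • H z - φ (H z) • H ζ₀ = 0 :=
    han.eqOn_zero_of_preconnected_of_eventuallyEq_zero isPreconnected_univ (Set.mem_univ ζ₀) hev (Set.mem_univ z)
  have h2 : H z = ((φ (H ζ₀))⁻¹ * φ (H z)) • H ζ₀ := by
    rw [mul_smul, ← sub_eq_zero.mp h1, smul_smul, inv_mul_cancel₀ hφ0, one_smul]
  refine ⟨(φ (H ζ₀))⁻¹ * φ (H z), ?_, h2⟩
  intro h3
  apply h0 z
  rw [h2, h3, zero_smul]

omit [FiniteDimensional ℂ V] in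
/-- the tangent vectors of a chart are independent -/
private theorem ve_indep0 {σ : ℂ × ℂ → V} {τ : V → ℂ × ℂ} (h : IsChart X σ τ) :
    LinearIndependent ℂ ![σ 0, fderiv ℂ σ 0 (1, 0), fderiv ℂ σ 0 (0, 1)] := by
  have h1 : HasFDerivAt σ (fderiv ℂ σ 0) 0 := h.σ_an.differentiableAt.hasFDerivAt
  have h2 : HasFDerivAt τ (fderiv ℂ τ (σ 0)) (σ 0) := h.τ_an.differentiableAt.hasFDerivAt
  have hleft : ∀ w, fderiv ℂ τ (σ 0) (fderiv ℂ σ 0 w) = w := by
    intro w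
    have h3 := h2.comp (0 : ℂ × ℂ) h1
    have h4 : HasFDerivAt (τ ∘ σ) (ContinuousLinearMap.id ℂ (ℂ × ℂ)) 0 := by
      refine (hasFDerivAt_id (0 : ℂ × ℂ)).congr_of_eventuallyEq ?_
      filter_upwards [h.left] with p hp
      exact hp
    have h6 := congrArg (fun L : (ℂ × ℂ) →L[ℂ] (ℂ × ℂ) => L w) (h3.unique h4)
    simpa using h6
  have hself : fderiv ℂ τ (σ 0) (σ 0) = 0 := by
    have h1 : HasDerivAt (fun c : ℂ => c • σ 0) (σ 0) 1 := by
      have := (hasDerivAt_id (1 : ℂ)).smul_const (σ 0)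
      simpa using this
    have h2 : HasFDerivAt τ (fderiv ℂ τ (σ 0)) ((1 : ℂ) • σ 0) := by
      rw [one_smul]; exact h.τ_an.differentiableAt.hasFDerivAt
    have h3 := h2.comp_hasDerivAt (1 : ℂ) h1
    have h4 : HasDerivAt (τ ∘ fun c : ℂ => c • σ 0) 0 1 := by
      refine (hasDerivAt_const (1 : ℂ) (τ (σ 0))).congr_of_eventuallyEq ?_
      have h5 : Tendsto (fun c : ℂ => (σ 0, c)) (𝓝 1) (𝓝 (σ 0, (1 : ℂ))) := by
        rw [nhds_prod_eq]
        exact tendsto_const_nhds.prodMk tendsto_id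
      filter_upwards [h5.eventually h.inv] with c hc
      exact hc
    exact h3.unique h4
  rw [Fintype.linearIndependent_iff]
  intro g hg
  rw [Fin.sum_univ_three] at hg
  simp only [Matrix.cons_val_zero, Matrix.cons_val_one, Matrix.cons_val] at hg
  have h5 : fderiv ℂ σ 0 (g 1, g 2) = g 1 • fderiv ℂ σ 0 (1, 0) + g 2 • fderiv ℂ σ 0 (0, 1) := by
    rw [← map_smul, ← map_smul, ← map_add]
    congr 1
    ext <;> simp
  have h6 : fderiv ℂ τ (σ 0) (g 0 • σ 0 + fderiv ℂ σ 0 (g 1, g 2)) = 0 := by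
    rw [h5, ← add_assoc, hg, map_zero]
  rw [map_add, map_smul, hself, smul_zero, zero_add, hleft] at h6
  have h7 : g 1 = 0 := congrArg Prod.fst h6
  have h8 : g 2 = 0 := congrArg Prod.snd h6
  rw [h7, h8, zero_smul, zero_smul, add_zero, add_zero] at hg
  have h9 : g 0 = 0 := (smul_eq_zero.mp hg).resolve_right h.ne
  intro i
  fin_cases i
  · exact h9
  · exact h7
  · exact h8

private theorem ve_indep {σ : ℂ × ℂ → V} {τ : V → ℂ × ℂ} (h : IsChart X σ τ) :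
    ∀ᶠ p in 𝓝 (0 : ℂ × ℂ), LinearIndependent ℂ ![σ p, fderiv ℂ σ p (1, 0), fderiv ℂ σ p (0, 1)] := by
  filter_upwards [h.near] with p hp
  have h1 := ve_indep0 hp
  have h2 : fderiv ℂ (fun x => σ (p + x)) 0 = fderiv ℂ σ p := by
    rw [fderiv_comp_add_left, add_zero]
  rw [h2] at h1
  simpa only [add_zero] using h1

omit [FiniteDimensional ℂ V] in
/-- the tangent vectors of a chart at a point of `K` are tangent vectors of `K` -/
private theorem ve_tan (hK : OpenPart X K) {σ : ℂ × ℂ → V} {p : ℂ × ℂ} (hσ : AnalyticAt ℂ σ p) (hX : ∀ᶠ y in 𝓝 p, σ y ∈ X) (hp : σ p ∈ K)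
    (w : ℂ × ℂ) : fderiv ℂ σ p w ∈ Pool.Agent.H17BP.Tan K (σ p) := by
  have h1 : Tendsto (fun z : ℂ => p + z • w) (𝓝 0) (𝓝 p) := by
    have h2 : Continuous fun z : ℂ => p + z • w := by fun_prop
    simpa using h2.tendsto 0
  have h3 : Tendsto (fun z : ℂ => σ (p + z • w)) (𝓝 0) (𝓝 (σ p)) := hσ.continuousAt.tendsto.comp h1
  have h4 : HasDerivAt (fun z : ℂ => p + z • w) w 0 := by
    have := ((hasDerivAt_id (0 : ℂ)).smul_const w).const_add p
    simpa using this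
  refine ⟨fun z => σ (p + z • w), ?_, ?_, ?_, ?_⟩
  · refine AnalyticAt.comp (g := σ) (f := fun z : ℂ => p + z • w) ?_ ?_
    · simpa using hσ
    · exact analyticAt_const.add (analyticAt_id.smul analyticAt_const)
  · filter_upwards [h1.eventually hX, h3.eventually (hK.rel _ hp)] with z h5 h6
    exact h6 h5
  · simp
  · have h5 : HasFDerivAt σ (fderiv ℂ σ p) (p + (0 : ℂ) • w) := by
      rw [zero_smul, add_zero]
      exact hσ.differentiableAt.hasFDerivAt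
    exact (h5.comp_hasDerivAt (0 : ℂ) h4).deriv

/-- the case `Φ = 0`, near a point -/
private theorem ve_zero (hΛ : Lat Λ) (h : VData X K Λ u m Ω q d) {H Φ : ℂ → V} (hH : Differentiable ℂ H)
    (hHK : ∀ z, H z ∈ K ∧ u (H z) - c ∈ Λ) (hΦ : IsV X K Λ u m Ω c H Φ) (hΦ0 : ∀ z, Φ z = 0) {z₀ : ℂ} {σ : ℂ × ℂ → V} {τ : V → ℂ × ℂ}
    (hs : SC X K Λ u c σ τ) (h0 : σ 0 = H z₀) (hq : ¬ ∀ᶠ t in 𝓝 (0 : ℂ), q (σ (0, t)) = 0) : ∀ᶠ z in 𝓝 z₀, ∃ a : ℂ, H z = a • H z₀ := by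
  have : CompleteSpace V := FiniteDimensional.complete ℂ V
  have hX0 : ∀ x ∈ X, x ≠ 0 := fun x hx hx0 => h.surf.zero (hx0 ▸ hx)
  have hHX : ∀ z, H z ∈ X := fun z => h.opn.sub (hHK z).1
  have hHt : Tendsto H (𝓝 z₀) (𝓝 (σ 0)) := by
    rw [h0]
    exact hH.continuous.tendsto z₀
  have hτ0 : τ (σ 0) = 0 := hs.chart.left.self_of_nhds
  have hτH : Tendsto (fun z => τ (H z)) (𝓝 z₀) (𝓝 0) := by
    have h1 : Tendsto τ (𝓝 (σ 0)) (𝓝 0) := by
      have := hs.chart.τ_an.continuousAt.tendsto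
      rwa [hτ0] at this
    exact h1.comp hHt
  -- the first coordinate is `0`
  obtain ⟨δ, hδ, hδΛ⟩ := hΛ.discrete
  have hfst : ∀ᶠ z in 𝓝 z₀, (τ (H z)).1 = 0 := by
    have h1 : Tendsto (fun z => (τ (H z)).1) (𝓝 z₀) (𝓝 0) := (continuous_fst.tendsto (0 : ℂ × ℂ)).comp hτH
    have h2 : ∀ᶠ z in 𝓝 z₀, ‖(τ (H z)).1‖ < δ := by
      have h3 := h1.norm
      rw [norm_zero] at h3
      exact h3.eventually (gt_mem_nhds hδ)
    filter_upwards [h2, hHt.eventually hs.chart.right, hτH.eventually hs.lift, hτH.eventually hs.chart.σ_mem] with z g1 g2 g3 g4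
    obtain ⟨a, ha, g5⟩ := g2 (hHX z)
    have g6 := h.tor.smul _ g4 a ha
    rw [← g5] at g6
    have g7 := (hHK z).2
    apply hδΛ _ _ g1
    have g8 : (τ (H z)).1 = u (H z) - c - (u (H z) - u (σ (τ (H z)))) - (u (σ (τ (H z))) - (c + (τ (H z)).1)) := by ring
    rw [g8]
    exact Λ.sub_mem (Λ.sub_mem g7 g6) g3
  -- the second coordinate
  set t : ℂ → ℂ := tco τ H with ht
  have hpair : ∀ᶠ z in 𝓝 z₀, τ (H z) = (0, t z) := by
    filter_upwards [hfst] with z hz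
    exact Prod.ext hz rfl
  have htan : AnalyticAt ℂ t z₀ := by
    have h1 : AnalyticAt ℂ (fun z => τ (H z)) z₀ := by
      refine AnalyticAt.comp (g := τ) (f := H) ?_ (hH.analyticAt z₀)
      rw [← h0]
      exact hs.chart.τ_an
    exact analyticAt_snd.comp h1
  have ht0 : t z₀ = 0 := by
    show (τ (H z₀)).2 = 0
    rw [← h0, hτ0]
    rfl
  have hHσ : ∀ᶠ z in 𝓝 z₀, ∃ a : ℂ, a ≠ 0 ∧ H z = a • σ (0, t z) := by
    filter_upwards [hHt.eventually hs.chart.right, hpair] with z g1 g2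
    obtain ⟨a, ha, g3⟩ := g1 (hHX z)
    rw [g2] at g3
    exact ⟨a, ha, g3⟩
  rcases htan.eventually_constant_or_nhds_le_map_nhds with hconst | hopen
  · filter_upwards [hHσ, hconst] with z g1 g2
    obtain ⟨a, -, g3⟩ := g1
    refine ⟨a, ?_⟩
    rw [g3, g2, ht0, ← h0]
    rfl
  exfalso
  apply hq
  have htt : Tendsto (fun z => ((0 : ℂ), t z)) (𝓝 z₀) (𝓝 (0 : ℂ × ℂ)) := by
    have h1 : Tendsto t (𝓝 z₀) (𝓝 0) := by
      have := htan.continuousAt.tendsto
      rwa [ht0] at this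
    exact (tendsto_const_nhds (x := (0 : ℂ))).prodMk_nhds h1
  have hqa : ContinuousAt (fun z => q (σ (0, t z))) z₀ := by
    have h1 : Tendsto (fun z => σ (0, t z)) (𝓝 z₀) (𝓝 (σ 0)) := hs.chart.σ_an.continuousAt.tendsto.comp htt
    have h2 : σ (0, t z₀) = σ 0 := by rw [ht0]; rfl
    have h3 : Tendsto (fun z => q (σ (0, t z))) (𝓝 z₀) (𝓝 (q (σ 0))) := (h.an (σ 0)).continuousAt.tendsto.comp h1
    rw [← h2] at h3
    exact h3
  -- the derivative is not zero near `z₀`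
  have hder : ∀ᶠ z in 𝓝[≠] z₀, deriv t z ≠ 0 := by
    rcases htan.deriv.eventually_eq_zero_or_eventually_ne_zero with g1 | g1
    · exfalso
      -- `t` is constant near `z₀`
      obtain ⟨ε, hε, hb⟩ := Metric.eventually_nhds_iff_ball.mp (g1.and htan.eventually_analyticAt)
      have g2 : ∀ z ∈ Metric.ball z₀ ε, t z = t z₀ := by
        intro z hz
        exact Metric.isOpen_ball.is_const_of_deriv_eq_zero (convex_ball z₀ ε).isPreconnected
          (fun z hz => (hb z hz).2.differentiableAt.differentiableWithinAt) (fun z hz => (hb z hz).1) hz (Metric.mem_ball_self hε)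
      have g3 : ∀ᶠ s in 𝓝 (t z₀), s = t z₀ := by
        apply hopen
        rw [Filter.mem_map]
        filter_upwards [Metric.ball_mem_nhds z₀ hε] with z hz
        exact g2 z hz
      have g4 : ∀ᶠ s in 𝓝[≠] (t z₀), s = t z₀ := g3.filter_mono nhdsWithin_le_nhds
      obtain ⟨s, hs1, hs2⟩ := (g4.and self_mem_nhdsWithin).exists
      exact hs2 hs1
    · exact g1
  obtain ⟨O, hO, hOΦ⟩ := hΦ σ τ hs
  have hq0 : ∀ᶠ z in 𝓝[≠] z₀, q (σ (0, t z)) = 0 := by
    have e1 : ∀ᶠ z in 𝓝 z₀, H z ∈ O ∧ σ (0, t z) ∈ X ∧ AnalyticAt ℂ σ (0, t z) ∧ (∀ᶠ y in 𝓝 ((0 : ℂ), t z), σ y ∈ X) ∧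
        LinearIndependent ℂ ![σ (0, t z), fderiv ℂ σ (0, t z) (1, 0), fderiv ℂ σ (0, t z) (0, 1)] ∧ ∃ a : ℂ, a ≠ 0 ∧ H z = a • σ (0, t z) := by
      filter_upwards [hHt.eventually hO, htt.eventually hs.chart.σ_mem, htt.eventually hs.chart.σ_an.eventually_analyticAt,
        htt.eventually hs.chart.σ_mem.eventually_nhds, htt.eventually (ve_indep hs.chart), hHσ] with z g1 g2 g3 g4 g5 g6
      exact ⟨g1, g2, g3, g4, g5, g6⟩
    filter_upwards [e1.filter_mono nhdsWithin_le_nhds, hder] with z g1 g2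
    obtain ⟨g3, g4, g5, g6, g7, a, ha, g8⟩ := g1
    have e2 := hOΦ z 1 one_ne_zero (by rwa [one_smul])
    simp only [one_smul] at e2
    rw [hΦ0 z] at e2
    have e3 : (deriv t z) ^ m * Ω (σ (0, t z)) (fderiv ℂ σ (0, t z) (1, 0)) (fderiv ℂ σ (0, t z) (0, 1)) = 0 :=
      (smul_eq_zero.mp e2.symm).resolve_right (hX0 _ g4)
    have e4 : Ω (σ (0, t z)) (fderiv ℂ σ (0, t z) (1, 0)) (fderiv ℂ σ (0, t z) (0, 1)) = 0 :=
      (mul_eq_zero.mp e3).resolve_left (pow_ne_zero _ g2)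
    have e5 : σ (0, t z) ∈ K := by
      have e6 : σ (0, t z) = a⁻¹ • H z := by rw [g8, smul_smul, inv_mul_cancel₀ ha, one_smul]
      rw [e6]
      exact h.opn.smul _ (hHK z).1 _ (inv_ne_zero ha)
    by_contra e6
    exact h.noZeros _ e5 (fun e7 => e6 e7.2) _ (ve_tan h.opn g5 g6 e5 (1, 0)) _ (ve_tan h.opn g5 g6 e5 (0, 1)) g7 e4
  have hq1 : ∀ᶠ z in 𝓝 z₀, q (σ (0, t z)) = 0 := by
    have e1 : q (σ (0, t z₀)) = 0 := by
      have e2 : Tendsto (fun z => q (σ (0, t z))) (𝓝[≠] z₀) (𝓝 (q (σ (0, t z₀)))) := hqa.tendsto.mono_left nhdsWithin_le_nhds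
      have e3 : Tendsto (fun z => q (σ (0, t z))) (𝓝[≠] z₀) (𝓝 0) :=
        tendsto_const_nhds.congr' (hq0.mono fun z hz => hz.symm)
      exact tendsto_nhds_unique e2 e3
    rw [eventually_nhdsWithin_iff] at hq0
    filter_upwards [hq0] with z hz
    by_cases hzz : z = z₀
    · rw [hzz]
      exact e1
    · exact hz hzz
  have hfin : ∀ᶠ s in 𝓝 (t z₀), q (σ (0, s)) = 0 := by
    apply hopen
    rw [Filter.mem_map]
    exact hq1
  rwa [ht0] at hfin

theorem vert_const (hΛ : Lat Λ) (h : VData X K Λ u m Ω q d) (hc : GoodC X K Λ u q c) {f : ℂ → V} (hf : ∀ z, HolP f z)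
    (hfK : ∀ z, f z ∈ K) (hfu : ∀ z, u (f z) - c ∈ Λ) (z w : ℂ) : Pr (f z) (f w) := by
  by_contra hzw
  have hX0 : ∀ x ∈ X, x ≠ 0 := fun x hx hx0 => h.surf.zero (hx0 ▸ hx)
  have : Nontrivial V := ⟨⟨f 0, 0, hX0 _ (h.opn.sub (hfK 0))⟩⟩
  obtain ⟨M, hM⟩ : ∃ M : ℕ, Module.finrank ℂ V = M + 1 := Nat.exists_eq_succ_of_ne_zero Module.finrank_pos.ne'
  let L : V ≃L[ℂ] EN M := ContinuousLinearEquiv.ofFinrankEq (by rw [hM, finrank_euclideanSpace_fin])
  obtain ⟨H, hH, hHK, ⟨z₁, z₂, hne⟩, C, hC⟩ := exists_bd L hΛ h hc hf hfK hfu ⟨z, w, hzw⟩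
  obtain ⟨Φ, hΦd, hΦ⟩ := exists_vfun hΛ h hc hH hHK
  obtain ⟨C', hC'⟩ := vfun_bd L hΛ h hc hH hHK hC hΦ
  have hHX : ∀ z, H z ∈ X := fun z => h.opn.sub (hHK z).1
  have hH0 : ∀ z, H z ≠ 0 := fun z => hX0 _ (hHX z)
  have hbd : Bornology.IsBounded (Set.range Φ) := by
    rw [isBounded_iff_forall_norm_le]
    refine ⟨C', ?_⟩
    rintro _ ⟨z, rfl⟩
    exact hC' z
  have hconst : ∀ z w, Φ z = Φ w := fun z w => hΦd.apply_eq_apply_of_bounded hbd z w
  by_cases h0 : Φ 0 = 0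
  · -- the case `Φ = 0`
    obtain ⟨σ, τ, hs, hσ0, hq⟩ := hc (H z₂) (hHX z₂) (hHK z₂).2
    have h1 := ve_zero hΛ h hH hHK hΦ (fun z => (hconst z 0).trans h0) hs hσ0 hq
    exact hne (ve_ident hH hH0 h1 z₁)
  · -- the case `Φ ≠ 0`
    have h1 : ∀ z, Pr (Φ 0) (H z) := by
      intro z
      obtain ⟨σ, τ, hs, hσ0, -⟩ := hc (H z) (hHX z) (hHK z).2
      obtain ⟨O, hO, hOΦ⟩ := hΦ σ τ hs
      have e1 := hOΦ z 1 one_ne_zero (by
        rw [one_smul, ← hσ0]
        exact mem_of_mem_nhds hO)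
      simp only [one_smul] at e1
      have e2 : tco τ H z = 0 := by
        show (τ (H z)).2 = 0
        rw [← hσ0, hs.chart.left.self_of_nhds]
        rfl
      unfold loc at e1
      rw [e2, hconst z 0] at e1
      have e3 : σ (0, 0) = H z := hσ0
      rw [e3] at e1
      refine ⟨_, ?_, e1⟩
      intro e4
      rw [e4, zero_smul] at e1
      exact h0 e1
    exact hne ((h1 z₁).symm.trans (h1 z₂))

end Pool.Agent.H17V

end

section

/-!
# H17V BadV: all but finitely many values are good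

* `good_near`: let `σ, τ` be a chart at `x₀`, `g` the germ of `u` (`exists_lu`, H17N/ResU), `h` a local equation of `X ∖ K` (`opn.eqn`; `h ∘ σ` is analytic, not identically `0` near `0`, because otherwise `q ∘ σ` would be `0` near `0`: `sub`, `thin`), `Q = q ∘ σ`, not identically `0`.  For `x ∈ X` near `x₀`: `x = a • σ p`, `p = τ x` near `0` (`right`), `a ≠ 0`.  If `u x - u x₀ ∉ Λ` then `g p ≠ 0`
  (`tor.smul`).  Chart at `x`: `a • σ (p + ·)` (`IsChart.near`, `IsChart.scale`), germ of `u`: `g₁ y = g (p + y) - g p`.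
  If `x ∉ K`: `h (σ p) = 0`, `trans_near` gives `T` with `Coord g₁ T`; `η y = (g₁ y, T y)` is biholomorphic, with inverse `η'`; the chart `σ₂ y = a • σ (p + η' y)` (`IsChart.comp`) satisfies `u (σ₂ y) - (u x + y.1) ∈ Λ` and `σ₂ y ∉ K ↔ T (η' y) = 0 ↔ y.2 = 0`.  If `x ∈ K`: `σ (p + y) ∈ K` for `y` near `0` (`OpenPart.rel`), `fderiv ℂ g p ≠ 0` (`H17N.crit_near`), choose a linear form as second
  coordinate: `Coord g₁ T`, and the same chart.  Finally suppose `q (σ₂ (0, t)) = 0` for `t` near `0`: then `π t = p + η' (0, t)` is an analytic curve with `π 0 = p`, `g (π t) = g p` near `0`, `Q (π t) = 0` (`hom`), `deriv π 0 ≠ 0`: contradiction to `H17N.level_near` (for `p` near `0`).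
* `exists_badV`: `B = {c | ¬ GoodC X K Λ u q c}`, invariant under `Λ`.  By `Pool.Agent.EG.separated` it suffices that for every `c` there is `ε > 0` such that all `c'` with `0 < ‖c' - c‖ < ε` are good.  Otherwise there are `c_n → c`, `c_n ≠ c`, `x_n ∈ X`, `‖x_n‖ = 1`, `u (x_n) - c_n ∈ Λ` which violate the condition in `GoodC` (the condition at `x` implies the condition at `a • x`, chart `a • σ`, so one may
  normalise); a subsequence (or ultrafilter limit) converges to `x₀ ∈ X`, `‖x₀‖ = 1`; with a local lift `v` of `u` at `x₀`: `v (x_n) - c_n ∈ Λ` converges, so it is constant for large `n` and `u x₀ - c ∈ Λ`; `u (x_n) - u x₀ ∉ Λ` for large `n`, since otherwise `c_n - c ∈ Λ` tends to `0`.  `good_near` at `x₀`: contradiction (`u x - c' ∈ Λ` allows to replace `u x + y.1` by `c' + y.1`).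
-/

set_option autoImplicit false

open Topology Filter

namespace Pool.Agent.H17V

attribute [-instance] ProperSMul.toContinuousSMul

open Pool.Agent.H17BP (Surface IsChart IsForm NoZeros Pr HolP)
open Pool.Agent.H17N (TMap LU)
open Pool.Agent.H17BP (Bihol Coord coord_iff dx dy)
open Pool.Agent.H36.BPL (OpenPart PoleLE)
open Pool.Agent.H62.EF (Lat)

variable {V : Type} [NormedAddCommGroup V] [NormedSpace ℂ V] [FiniteDimensional ℂ V] {X K : Set V} {Λ : AddSubgroup ℂ} {u : V → ℂ} {m d : ℕ}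
  {Ω : V → V → V → ℂ} {q : V → ℂ}

private theorem BadV_closed (hΛ : Lat Λ) : IsClosed (Λ : Set ℂ) := by
  obtain ⟨δ, hδ, h⟩ := hΛ.discrete
  refine Metric.isClosed_of_pairwise_le_dist hδ ?_
  intro x hx y hy hxy
  by_contra hlt
  push Not at hlt
  rw [dist_eq_norm] at hlt
  exact hxy (sub_eq_zero.mp (h _ (Λ.sub_mem hx hy) hlt))

/-- the condition in `GoodC` at the point `x` -/
private def BadV_G (X K : Set V) (Λ : AddSubgroup ℂ) (u : V → ℂ) (q : V → ℂ) (c : ℂ) (x : V) : Prop :=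
  ∃ σ τ, SC X K Λ u c σ τ ∧ σ 0 = x ∧ ¬ ∀ᶠ t in 𝓝 (0 : ℂ), q (σ (0, t)) = 0

private theorem BadV_congr {c c' : ℂ} (hc : c - c' ∈ Λ) {x : V} (h : BadV_G X K Λ u q c x) : BadV_G X K Λ u q c' x := by
  obtain ⟨σ, τ, h1, h2, h3⟩ := h
  refine ⟨σ, τ, ⟨h1.chart, ?_, h1.bd⟩, h2, h3⟩
  filter_upwards [h1.lift] with p hp
  have h4 : u (σ p) - (c' + p.1) = (u (σ p) - (c + p.1)) + (c - c') := by ring
  rw [h4]
  exact Λ.add_mem hp hc

private theorem BadV_scale (h : VData X K Λ u m Ω q d) {c : ℂ} {x : V} (hx : BadV_G X K Λ u q c x) {a : ℂ} (ha : a ≠ 0) :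
    BadV_G X K Λ u q c (a • x) := by
  obtain ⟨σ, τ, h1, h2, h3⟩ := hx
  have hK : ∀ y : V, a • y ∈ K ↔ y ∈ K := by
    intro y
    refine ⟨fun hy => ?_, fun hy => h.opn.smul y hy a ha⟩
    have h4 := h.opn.smul _ hy a⁻¹ (inv_ne_zero ha)
    rwa [smul_smul, inv_mul_cancel₀ ha, one_smul] at h4
  refine ⟨_, _, ⟨h1.chart.scale h.surf.smul ha, ?_, ?_⟩, by simp only [h2], ?_⟩
  · filter_upwards [h1.lift, h1.chart.σ_mem] with p hp hp1
    have h4 : u (a • σ p) - (c + p.1) = (u (a • σ p) - u (σ p)) + (u (σ p) - (c + p.1)) := by ring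
    rw [h4]
    exact Λ.add_mem (h.tor.smul _ hp1 a ha) hp
  · rcases h1.bd with h4 | h4
    · left
      filter_upwards [h4] with p hp
      exact (hK _).2 hp
    · right
      filter_upwards [h4] with p hp
      rw [hK, hp]
  · intro h4
    apply h3
    filter_upwards [h4] with t ht
    rw [h.hom] at ht
    exact (mul_eq_zero.1 ht).resolve_left (pow_ne_zero d ha)

private theorem BadV_form {g : ℂ × ℂ → ℂ} (hg : AnalyticAt ℂ g 0) (h0 : g 0 = 0) (hd : fderiv ℂ g 0 ≠ 0) : ∃ T, Coord g T := by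
  have hF : AnalyticAt ℂ (fun x : ℂ × ℂ => x.1) 0 := analyticAt_fst
  have hS : AnalyticAt ℂ (fun x : ℂ × ℂ => x.2) 0 := analyticAt_snd
  have f1 : fderiv ℂ (fun x : ℂ × ℂ => x.1) 0 = ContinuousLinearMap.fst ℂ ℂ ℂ := (hasFDerivAt_fst).fderiv
  have f2 : fderiv ℂ (fun x : ℂ × ℂ => x.2) 0 = ContinuousLinearMap.snd ℂ ℂ ℂ := (hasFDerivAt_snd).fderiv
  by_cases h1 : dx g 0 = 0
  · have h2 : dy g 0 ≠ 0 := by
      intro h2
      apply hd
      ext
      · simpa [dx] using h1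
      · simpa [dy] using h2
    refine ⟨fun x => x.1, (coord_iff hg hF h0 rfl).2 ?_⟩
    have e1 : dy (fun x : ℂ × ℂ => x.1) 0 = 0 := by simp [dy, f1]
    have e2 : dx (fun x : ℂ × ℂ => x.1) 0 = 1 := by simp [dx, f1]
    rw [e1, e2, mul_zero, mul_one, zero_sub]
    exact neg_ne_zero.2 h2
  · refine ⟨fun x => x.2, (coord_iff hg hS h0 rfl).2 ?_⟩
    have e1 : dy (fun x : ℂ × ℂ => x.2) 0 = 1 := by simp [dy, f2]
    have e2 : dx (fun x : ℂ × ℂ => x.2) 0 = 0 := by simp [dx, f2]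
    rw [e1, e2, mul_zero, mul_one, sub_zero]
    exact h1

/-- the first coordinate can be straightened; the level curve is not in the zero set of `Q` -/
private theorem BadV_chart {σ : ℂ × ℂ → V} {τ : V → ℂ × ℂ} (hc : IsChart X σ τ) {g T : ℂ × ℂ → ℂ}
    (hg : LU Λ u σ g) (hT : Coord g T)
    (hbd : (∀ᶠ x in 𝓝 (0 : ℂ × ℂ), σ x ∈ K) ∨ ∀ᶠ x in 𝓝 (0 : ℂ × ℂ), σ x ∉ K ↔ T x = 0)
    (hQ : ∀ π : ℂ → ℂ × ℂ, AnalyticAt ℂ π 0 → π 0 = 0 → (∀ᶠ z in 𝓝 (0 : ℂ), g (π z) = 0) → (∀ᶠ z in 𝓝 (0 : ℂ), q (σ (π z)) = 0) → deriv π 0 = 0) :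
    BadV_G X K Λ u q (u (σ 0)) (σ 0) := by
  have hθ : Bihol fun x => (g x, T x) := hT
  obtain ⟨θ', hθ', h1, h2⟩ := hθ.exists_inv
  refine ⟨_, _, ⟨hc.comp hθ' hθ h2 h1, ?_, ?_⟩, ?_, ?_⟩
  · filter_upwards [hθ'.tendsto.eventually hg.2.2, h2] with p hp1 hp2
    have e1 : g (θ' p) = p.1 := congrArg Prod.fst hp2
    rw [e1] at hp1
    have e2 : u (σ (θ' p)) - (u (σ 0) + p.1) = u (σ (θ' p)) - u (σ 0) - p.1 := by ring
    rw [e2]
    exact hp1
  · rcases hbd with h3 | h3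
    · left
      exact hθ'.tendsto.eventually h3
    · right
      filter_upwards [hθ'.tendsto.eventually h3, h2] with p hp1 hp2
      have e1 : T (θ' p) = p.2 := congrArg Prod.snd hp2
      rw [hp1, e1]
  · show σ (θ' 0) = σ 0
    rw [hθ'.zero]
  · intro h3
    have hi : Continuous fun t : ℂ => ((0, t) : ℂ × ℂ) := by fun_prop
    have hi0 : Tendsto (fun t : ℂ => ((0, t) : ℂ × ℂ)) (𝓝 0) (𝓝 0) := hi.tendsto 0
    have hia : AnalyticAt ℂ (fun t : ℂ => ((0, t) : ℂ × ℂ)) 0 := analyticAt_const.prod analyticAt_id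
    have hπ : AnalyticAt ℂ (fun t : ℂ => θ' (0, t)) 0 := by
      refine AnalyticAt.fun_comp (g := θ') ?_ hia
      exact hθ'.an
    have hπ0 : θ' ((0 : ℂ), (0 : ℂ)) = 0 := hθ'.zero
    have h4 : ∀ᶠ t in 𝓝 (0 : ℂ), g (θ' (0, t)) = 0 := by
      filter_upwards [hi0.eventually h2] with t ht
      exact congrArg Prod.fst ht
    have h5 : ∀ᶠ t in 𝓝 (0 : ℂ), T (θ' (0, t)) = t := by
      filter_upwards [hi0.eventually h2] with t ht
      exact congrArg Prod.snd ht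
    have h6 := hQ (fun t => θ' (0, t)) hπ hπ0 h4 h3
    have hTan : AnalyticAt ℂ T 0 := hT.parts.2.1
    have h7 : HasDerivAt (fun t : ℂ => T (θ' (0, t))) (fderiv ℂ T 0 (deriv (fun t : ℂ => θ' (0, t)) 0)) 0 := by
      have h8 : HasFDerivAt T (fderiv ℂ T 0) (θ' (0, 0)) := by
        rw [hπ0]
        exact hTan.differentiableAt.hasFDerivAt
      exact h8.comp_hasDerivAt (0 : ℂ) hπ.differentiableAt.hasDerivAt
    rw [h6, map_zero] at h7
    have h9 : HasDerivAt (fun t : ℂ => t) (0 : ℂ) 0 := h7.congr_of_eventuallyEq (h5.mono fun t ht => ht.symm)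
    exact one_ne_zero ((hasDerivAt_id (0 : ℂ)).unique h9)

private theorem BadV_loc (h : VData X K Λ u m Ω q d) {σ : ℂ × ℂ → V} {τ : V → ℂ × ℂ} (hc : IsChart X σ τ) {g : ℂ × ℂ → ℂ} (hg : LU Λ u σ g) :
    ∀ᶠ p in 𝓝 (0 : ℂ × ℂ), g p ≠ 0 → BadV_G X K Λ u q (u (σ p)) (σ p) := by
  have hx₀ : σ 0 ∈ X := hc.σ_mem.self_of_nhds
  obtain ⟨hh, hhan, hhe⟩ := h.opn.eqn _ hx₀
  have hadd : ∀ p : ℂ × ℂ, Tendsto (fun x : ℂ × ℂ => p + x) (𝓝 0) (𝓝 p) := fun p => by
    have h1 : Continuous fun x : ℂ × ℂ => p + x := by fun_prop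
    have h2 := h1.tendsto 0
    simpa using h2
  have hHan : AnalyticAt ℂ (fun p => hh (σ p)) 0 := hhan.comp hc.σ_an
  have hHK : ∀ᶠ p in 𝓝 (0 : ℂ × ℂ), σ p ∉ K ↔ hh (σ p) = 0 := by
    filter_upwards [hc.σ_an.continuousAt.tendsto.eventually hhe, hc.σ_mem] with p hp1 hp2
    exact hp1 hp2
  have hHne : ¬ ∀ᶠ p in 𝓝 (0 : ℂ × ℂ), hh (σ p) = 0 := by
    intro h1
    apply h.thin σ τ hc
    filter_upwards [h1, hHK, hc.σ_mem] with p hp1 hp2 hp3
    exact h.sub _ hp3 (hp2.2 hp1)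
  have hQan : AnalyticAt ℂ (fun p => q (σ p)) 0 := (h.an _).comp hc.σ_an
  obtain ⟨δ, hδ, hlev⟩ := Pool.Agent.H17N.level_near hg.1 hg.2.1 hQan (h.thin σ τ hc)
  have e1 : ∀ᶠ p in 𝓝 (0 : ℂ × ℂ), LU Λ u (fun x => σ (p + x)) (fun x => g (p + x) - g p) := by
    filter_upwards [hg.1.eventually_analyticAt, eventually_eventually_nhds.2 hg.2.2] with p hp1 hp2
    refine ⟨?_, by simp, ?_⟩
    · have h1 : AnalyticAt ℂ (fun x : ℂ × ℂ => p + x) 0 := analyticAt_const.add analyticAt_id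
      have h2 : AnalyticAt ℂ g ((fun x : ℂ × ℂ => p + x) 0) := by
        simp only [add_zero]
        exact hp1
      exact (h2.comp h1).sub analyticAt_const
    · have h0 := hp2.self_of_nhds
      filter_upwards [(hadd p).eventually hp2] with x hx2
      have h2 : u (σ (p + x)) - u (σ (p + 0)) - (g (p + x) - g p) = (u (σ (p + x)) - u (σ 0) - g (p + x)) - (u (σ p) - u (σ 0) - g p) := by
        rw [add_zero]
        ring
      rw [h2]
      exact Λ.sub_mem hx2 h0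
  filter_upwards [hc.near, e1, trans_near hg.1 hg.2.1 hHan hHne, Pool.Agent.H17N.crit_near hg.1 hg.2.1, hHK.eventually_nhds,
    hHan.eventually_analyticAt, Metric.ball_mem_nhds (0 : ℂ × ℂ) hδ] with p hp1 hp2 hp3 hp4 hp5 hp6 hp7 hgp
  have hT : ∃ T, Coord (fun x => g (p + x) - g p) T ∧
      ((∀ᶠ x in 𝓝 (0 : ℂ × ℂ), σ (p + x) ∈ K) ∨ ∀ᶠ x in 𝓝 (0 : ℂ × ℂ), σ (p + x) ∉ K ↔ T x = 0) := by
    by_cases hHp : hh (σ p) = 0
    · obtain ⟨T, hT1, hT2⟩ := hp3 hgp hHp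
      refine ⟨T, hT1, Or.inr ?_⟩
      filter_upwards [hT2, (hadd p).eventually hp5] with x hx1 hx2
      rw [hx2, hx1]
    · have hd : fderiv ℂ (fun x => g (p + x) - g p) 0 ≠ 0 := by
        have h1 : fderiv ℂ (fun x => g (p + x) - g p) 0 = fderiv ℂ g p := by
          rw [fderiv_sub_const, fderiv_comp_add_left, add_zero]
        rw [h1]
        exact hp4 hgp
      obtain ⟨T, hT⟩ := BadV_form hp2.1 hp2.2.1 hd
      refine ⟨T, hT, Or.inl ?_⟩
      have h1 : ∀ᶠ y in 𝓝 p, hh (σ y) ≠ 0 := hp6.continuousAt.eventually_ne hHp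
      filter_upwards [(hadd p).eventually hp5, (hadd p).eventually h1] with x hx1 hx2
      by_contra hx3
      exact hx2 (hx1.1 hx3)
  obtain ⟨T, hT1, hT2⟩ := hT
  have hfin := BadV_chart (K := K) (q := q) hp1 hp2 hT1 hT2 ?_
  · simpa using hfin
  · intro π hπ hπ0 h1 h2
    have h3 : AnalyticAt ℂ (fun z => p + π z) 0 := analyticAt_const.add hπ
    have h4 : p + π 0 = p := by rw [hπ0, add_zero]
    have h5 := hlev (fun z => p + π z) h3 (by rw [h4]; exact hp7) (by rw [h4]; exact hgp) (by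
      rw [h4]
      filter_upwards [h1] with z hz
      exact sub_eq_zero.1 hz) h2
    rwa [deriv_const_add] at h5

theorem good_near (hΛ : Lat Λ) (h : VData X K Λ u m Ω q d) {x₀ : V} (hx₀ : x₀ ∈ X) :
    ∀ᶠ x in 𝓝 x₀, x ∈ X → u x - u x₀ ∉ Λ → ∃ σ τ, SC X K Λ u (u x) σ τ ∧ σ 0 = x ∧ ¬ ∀ᶠ t in 𝓝 (0 : ℂ), q (σ (0, t)) = 0 := by
  obtain ⟨σ, τ, hc, h0⟩ := h.surf.chart x₀ hx₀
  obtain ⟨g, hg⟩ := Pool.Agent.H17N.exists_lu h.tor hc
  have hτ0 : τ (σ 0) = 0 := hc.left.self_of_nhds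
  have hτ : Tendsto τ (𝓝 (σ 0)) (𝓝 0) := by
    have h1 := hc.τ_an.continuousAt.tendsto
    rwa [hτ0] at h1
  rw [← h0]
  filter_upwards [hc.right, hτ.eventually (BadV_loc h hc hg), hτ.eventually hg.2.2, hτ.eventually hc.σ_mem] with x hx1 hx2 hx3 hx4 hxX hxn
  obtain ⟨a, ha, hxa⟩ := hx1 hxX
  have h1 : u x - u (σ (τ x)) ∈ Λ := by
    have h2 := h.tor.smul _ hx4 a ha
    rwa [← hxa] at h2
  have hgp : g (τ x) ≠ 0 := by
    intro h2
    apply hxn
    rw [h2, sub_zero] at hx3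
    have h3 : u x - u (σ 0) = (u x - u (σ (τ x))) + (u (σ (τ x)) - u (σ 0)) := by ring
    rw [h3]
    exact Λ.add_mem h1 hx3
  have h2 := BadV_scale h (hx2 hgp) ha
  rw [← hxa] at h2
  refine BadV_congr ?_ h2
  have h3 : u (σ (τ x)) - u x = -(u x - u (σ (τ x))) := by ring
  rw [h3]
  exact Λ.neg_mem h1

/-- the values near `c`, the points near `x₀` -/
private theorem BadV_pt (hΛ : Lat Λ) (h : VData X K Λ u m Ω q d) (c : ℂ) {x₀ : V} (hx₀ : x₀ ∈ X) :
    ∀ᶠ z : ℂ × V in 𝓝 (c, x₀), z.1 ≠ c → z.2 ∈ X → u z.2 - z.1 ∈ Λ → BadV_G X K Λ u q z.1 z.2 := by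
  have h1 : Tendsto (fun z : ℂ × V => z.1) (𝓝 (c, x₀)) (𝓝 c) := continuous_fst.tendsto _
  have h2 : Tendsto (fun z : ℂ × V => z.2) (𝓝 (c, x₀)) (𝓝 x₀) := continuous_snd.tendsto _
  obtain ⟨δ, hδ, hdis⟩ := hΛ.discrete
  by_cases hc : u x₀ - c ∈ Λ
  · filter_upwards [h2.eventually (good_near hΛ h hx₀), h1.eventually (Metric.ball_mem_nhds c hδ)] with z hz1 hz2 hne hzX hzu
    refine BadV_congr hzu (hz1 hzX ?_)
    intro h3
    have h4 : z.1 - c ∈ Λ := by
      have h5 : z.1 - c = -(u z.2 - z.1) + (u z.2 - u x₀) + (u x₀ - c) := by ring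
      rw [h5]
      exact Λ.add_mem (Λ.add_mem (Λ.neg_mem hzu) h3) hc
    have h5 := hdis _ h4 (by rw [← dist_eq_norm]; exact hz2)
    exact hne (sub_eq_zero.1 h5)
  · obtain ⟨v, hv, hev⟩ := h.tor.loc _ hx₀
    have h0 : u x₀ - v x₀ ∈ Λ := hev.self_of_nhds hx₀
    have hcl : IsClosed (Λ : Set ℂ) := BadV_closed hΛ
    have hvc : v x₀ - c ∉ (Λ : Set ℂ) := by
      intro h3
      apply hc
      have h5 : u x₀ - c = (u x₀ - v x₀) + (v x₀ - c) := by ring
      rw [h5]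
      exact Λ.add_mem h0 h3
    have h3 : Tendsto (fun z : ℂ × V => v z.2 - z.1) (𝓝 (c, x₀)) (𝓝 (v x₀ - c)) :=
      (hv.continuousAt.tendsto.comp h2).sub h1
    filter_upwards [h3.eventually (hcl.isOpen_compl.mem_nhds hvc), h2.eventually hev] with z hz1 hz2 hne hzX hzu
    exfalso
    apply hz1
    have h5 : v z.2 - z.1 = (u z.2 - z.1) - (u z.2 - v z.2) := by ring
    show v z.2 - z.1 ∈ Λ
    rw [h5]
    exact Λ.sub_mem hzu (hz2 hzX)

theorem exists_badV (hΛ : Lat Λ) (h : VData X K Λ u m Ω q d) :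
    ∃ B : Set ℂ, (∀ b ∈ B, ∀ l ∈ Λ, b + l ∈ B) ∧ (∃ δ : ℝ, 0 < δ ∧ ∀ b ∈ B, ∀ b' ∈ B, b ≠ b' → δ ≤ ‖b - b'‖) ∧
      ∀ c, c ∉ B → GoodC X K Λ u q c := by
  have hinv : ∀ c ∈ {c | ¬ GoodC X K Λ u q c}, ∀ l ∈ Λ, c + l ∈ {c | ¬ GoodC X K Λ u q c} := by
    intro c hc l hl hg
    apply hc
    intro x hx hxc
    have h1 : u x - (c + l) ∈ Λ := by
      have h2 : u x - (c + l) = (u x - c) - l := by ring
      rw [h2]
      exact Λ.sub_mem hxc hl
    exact BadV_congr (by rwa [add_sub_cancel_left]) (hg x hx h1)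
  refine ⟨{c | ¬ GoodC X K Λ u q c}, hinv, Pool.Agent.EG.separated hΛ hinv ?_, fun c hc => not_not.1 hc⟩
  intro c
  have : ProperSpace V := FiniteDimensional.proper ℂ V
  have hS : IsCompact (closure X ∩ Metric.sphere (0 : V) 1) := (isCompact_sphere (0 : V) 1).inter_left isClosed_closure
  have hSX : ∀ x ∈ closure X ∩ Metric.sphere (0 : V) 1, x ∈ X := by
    rintro x ⟨hx1, hx2⟩
    refine h.surf.closed x hx1 ?_
    rintro rfl
    simp at hx2
  have h1 := hS.eventually_forall_of_forall_eventually (x₀ := c)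
    (P := fun c' x => c' ≠ c → x ∈ X → u x - c' ∈ Λ → BadV_G X K Λ u q c' x) (fun x hx => BadV_pt hΛ h c (hSX x hx))
  obtain ⟨ε, hε, h2⟩ := Metric.eventually_nhds_iff.1 h1
  refine ⟨ε, hε, fun c' hc' hlt => ?_⟩
  by_contra hne
  apply hc'
  intro x hx hxc
  have hx0 : x ≠ 0 := by
    rintro rfl
    exact h.surf.zero hx
  have hn : ‖x‖ ≠ 0 := norm_ne_zero_iff.2 hx0
  have hnC : ((‖x‖ : ℝ) : ℂ) ≠ 0 := by exact_mod_cast hn
  have hy : ((‖x‖ : ℝ) : ℂ)⁻¹ • x ∈ X := h.surf.smul x hx _ (inv_ne_zero hnC)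
  have hyS : ((‖x‖ : ℝ) : ℂ)⁻¹ • x ∈ closure X ∩ Metric.sphere (0 : V) 1 := by
    refine ⟨subset_closure hy, ?_⟩
    rw [mem_sphere_zero_iff_norm, norm_smul, norm_inv, Complex.norm_real, norm_norm, inv_mul_cancel₀ hn]
  have hyu : u (((‖x‖ : ℝ) : ℂ)⁻¹ • x) - c' ∈ Λ := by
    have h3 : u (((‖x‖ : ℝ) : ℂ)⁻¹ • x) - c' = (u (((‖x‖ : ℝ) : ℂ)⁻¹ • x) - u x) + (u x - c') := by ring
    rw [h3]
    exact Λ.add_mem (h.tor.smul x hx _ (inv_ne_zero hnC)) hxc
  have h3 := BadV_scale h (h2 (by rwa [dist_eq_norm]) _ hyS hne hy hyu) hnC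
  rwa [smul_smul, mul_inv_cancel₀ hnC, one_smul] at h3

end Pool.Agent.H17V

end

section

/-!
# H17V MainV: the entire curves in the fibres of a surface of log general type over an elliptic curve

`U = locVar P G` is an open part of log general type of a smooth projective surface `X`, the complement of a curve, `u : X → ℂ / Λ` holomorphic: for all but finitely many `c` the entire curves in `U` in the fibre over `c` are constant.
-/

set_option autoImplicit false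

open Topology Filter MvPolynomial

namespace Pool.Agent.H17V

attribute [-instance] ProperSMul.toContinuousSMul

open Pool.Agent.H17 (PN VanishesAt HolomorphicInto ZariskiClosedIn)
open Pool.Agent.H62.FC (Homog)
open Pool.Agent.H62.SA (locVar OnBd locCone exists_formF_of_smooth locCone_smul rep_mem_locCone mk_mem_locVar)
open Pool.Agent.H17BP (Surface IsChart IsForm NoZeros Pr HolP eval_smul_form)
open Pool.Agent.H17LG.Variety (FunField IsLogGeneralType)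
open Pool.Agent.H13.SM (conTan cone)
open Pool.Agent.H17N (TMap)
open Pool.Agent.H36.BPL (OpenPart PoleLE analyticAt_form isForm_pow_mul)
open Pool.Agent.H36.LB (IsCurveComplement openPart_of_curveComplement)
open Pool.Agent.H62.EF (Lat)
open Pool.Agent.H17EF (projVar IsHolomorphicMap coneE uE LE uE_eq sub_mem_iff)

variable {N s : ℕ} {P : Ideal (MvPolynomial (Fin (N + 1)) ℂ)} [P.IsPrime] {z : Fin 2 → FunField P} {G : Fin s → MvPolynomial (Fin (N + 1)) ℂ}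
  {e : Fin s → ℕ} {Λ : AddSubgroup ℂ} {u : PN N → ℂ ⧸ Λ}

theorem exists_vdata (hP : Homog P) (hz : IsTranscendenceBasis ℂ z)
    (hsm : ∀ y : Fin (N + 1) → ℂ, y ≠ 0 → (∀ Q ∈ P, eval y Q = 0) → Module.finrank ℂ (conTan P y) ≤ 3)
    (hG : ∀ m, (G m).IsHomogeneous (e m)) (hC : IsCurveComplement P G) (hne : ∃ m, G m ∉ P)
    (hgt : IsLogGeneralType (K := FunField P) (k := 2) (OnBd P G)) (hu : IsHolomorphicMap (projVar P) Λ u) :
    ∃ (m d : ℕ) (Ω : (Fin (N + 1) → ℂ) → (Fin (N + 1) → ℂ) → (Fin (N + 1) → ℂ) → ℂ) (q : (Fin (N + 1) → ℂ) → ℂ),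
      VData (cone P) (locCone P G) Λ (fun x => uE Λ u (LE N x)) m Ω q d := by
  have hPp : P.IsPrime := inferInstance
  obtain ⟨m₀, hm₀⟩ := hne
  have hX : Surface (cone P) := Pool.Agent.H13.SM.surface_cone hP hz fun y hy => hsm y hy.1 hy.2
  have hthin : ∀ σ τ, IsChart (cone P) σ τ → ∀ (d : ℕ) (Q : MvPolynomial (Fin (N + 1)) ℂ), Q.IsHomogeneous d →
      Q ∉ P → ∃ᶠ p in 𝓝 (0 : ℂ × ℂ), eval (σ p) Q ≠ 0 := fun σ τ h d Q hQ hQP =>
    Pool.Agent.H13.SM.frequently_ne_zero hP hz (fun y hy => hsm y hy.1 hy.2) h hQ hQP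
  obtain ⟨k, Ω, D₀, Q₀, hk, hQ₀, hQ₀P, hΩ, hnz, hpole⟩ := exists_formF_of_smooth P hP hz hG hsm hgt
  set d := e m₀ with hd
  have hH₀ : (G m₀).IsHomogeneous d := hG m₀
  set Q : MvPolynomial (Fin (N + 1)) ℂ := G m₀ * Q₀ with hQdef
  have hQhom : Q.IsHomogeneous (d + D₀) := hH₀.mul hQ₀
  have hQP : Q ∉ P := by
    intro h
    rcases hPp.mem_or_mem h with h | h
    · exact hm₀ h
    · exact hQ₀P h
  have hout : ∀ x ∈ cone P, x ∉ locCone P G → eval x (G m₀) = 0 := by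
    intro x hx hxK
    by_contra h1
    exact hxK ⟨hx, m₀, h1⟩
  have hform := isForm_pow_mul (k := d + 1) (d := d) (by omega) hΩ (H := fun x => eval x (G m₀)) (analyticAt_form _)
    (fun c x => eval_smul_form hH₀ c x) (locCone_smul hP hG)
  have h1 : 1 * (d + 1) - d = 1 := by omega
  rw [h1] at hform
  refine ⟨k * (d + 1), d + D₀, fun x v w => eval x (G m₀) * Ω x v w ^ (d + 1), fun x => eval x Q, ?_⟩
  exact
    { surf := hX
      opn := openPart_of_curveComplement hP hG hC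
      tor := Pool.Agent.H17L.tmap_start hP hu
      one := Nat.mul_pos hk (Nat.succ_pos _)
      form := hform
      pole := PoleLE.pow_mul hk (Nat.succ_pos d) hpole (H := fun x => eval x (G m₀)) (analyticAt_form _) hout
      noZeros := by
        intro x hx hxT v hv w hw hi
        have h2 : eval x (G m₀) ≠ 0 := by
          intro h0
          refine hxT ⟨hx.1, ?_⟩
          show eval x Q = 0
          rw [hQdef, map_mul, h0, zero_mul]
        refine mul_ne_zero h2 (pow_ne_zero _ (hnz x hx (fun h => hxT ⟨hx.1, ?_⟩) v hv w hw hi))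
        show eval x Q = 0
        rw [hQdef, map_mul, h.2, mul_zero]
      an := fun x => analyticAt_form Q x
      hom := fun c x => eval_smul_form hQhom c x
      thin := fun σ τ h h' => ((hthin σ τ h _ Q hQhom hQP).and_eventually h').exists.elim fun p hp => hp.1 hp.2
      sub := by
        intro x hx hxK
        show eval x Q = 0
        rw [hQdef, map_mul, hout x hx hxK, zero_mul] }

/-- **Vertical entire curves.** -/
theorem fib_of_logGT (hP : Homog P) (hz : IsTranscendenceBasis ℂ z)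
    (hsm : ∀ y : Fin (N + 1) → ℂ, y ≠ 0 → (∀ Q ∈ P, eval y Q = 0) → Module.finrank ℂ (conTan P y) ≤ 3)
    (hG : ∀ m, (G m).IsHomogeneous (e m)) (hC : IsCurveComplement P G)
    (hgt : IsLogGeneralType (K := FunField P) (k := 2) (OnBd P G)) (hΛ : Lat Λ) (hu : IsHolomorphicMap (projVar P) Λ u) :
    ∃ B₀ : Set (ℂ ⧸ Λ), B₀.Finite ∧ ∀ f : ℂ → PN N, HolomorphicInto f Set.univ → (∀ z, f z ∈ locVar P G) → (∀ z w, u (f z) = u (f w)) →
      u (f 0) ∉ B₀ → ∀ z w, f z = f w := by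
  by_cases hne : ∃ m, G m ∉ P
  swap
  · refine ⟨∅, Set.finite_empty, fun f _ hf => ?_⟩
    exfalso
    obtain ⟨⟨m, hm⟩, hmem⟩ : (∃ m, ¬ VanishesAt (G m) (f 0)) ∧ f 0 ∈ projVar P := ⟨(hf 0).2, (hf 0).1⟩
    push Not at hne
    exact hm (hmem (G m) (hne m) _ (hG m))
  obtain ⟨m, d, Ω, q, hv⟩ := exists_vdata hP hz hsm hG hC hne hgt hu
  obtain ⟨B, hinv, ⟨δ, hδ, hsep⟩, hgood⟩ := exists_badV hΛ hv
  refine ⟨(fun b : ℂ => (b : ℂ ⧸ Λ)) '' B, Pool.Agent.H17G.image_finite hΛ hinv hδ hsep, fun f hf hfU hconst hfB z w => ?_⟩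
  have hF : ∀ z, HolP (fun z => (f z).rep) z := fun z => Pool.Agent.H17BP.holP_rep hf (Set.mem_univ z)
  have hval : ∀ z, ((uE Λ u (LE N (f z).rep) : ℂ) : ℂ ⧸ Λ) = u (f z) := by
    intro z
    have h1 : (LE N).symm (LE N (f z).rep) ≠ 0 := by
      rw [ContinuousLinearEquiv.symm_apply_apply]
      exact (f z).rep_nonzero
    rw [uE_eq Λ u h1]
    congr 1
    simp only [ContinuousLinearEquiv.symm_apply_apply]
    exact Projectivization.mk_rep (f z)
  have hc : uE Λ u (LE N (f 0).rep) ∉ B := fun h => hfB ⟨_, h, hval 0⟩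
  have h2 := vert_const hΛ hv (hgood _ hc) (f := fun z => (f z).rep) hF
    (fun z => (rep_mem_locCone hP).2 (hfU z)) (fun z => ?_) z w
  · rw [← Projectivization.mk_rep (f z), ← Projectivization.mk_rep (f w)]
    exact h2.mk_eq (f z).rep_nonzero (f w).rep_nonzero
  · rw [sub_mem_iff, hval, hval]
    exact hconst z 0

end Pool.Agent.H17V

end
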