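import Pool.Agent.H94.CB.H19OL.Norm
import Pool.Agent.H94.CB.M129
import Pool.Agent.H94.CB.M173
import Pool.Agent.H94.CB.M85

/-! The parts of this file: H19OL.Clock, H19OL.Fib, H19OL.Main. -/

section

/-!
# OL Clock: a solution of the differential equation of an orbifold covering is the covering, up to an affine change of the parameter

Let `ρ : ℂ → ℂ² - 0` be a holomorphic lift of a surjective map `ℂ → ℙ¹` with `W(ρ) ^ m = Φ(ρ)`, `Φ` a binary form of degree `2 m`.  If `T : ℂ → ℂ²`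
is holomorphic, not identically zero, and `W(T) ^ m = q Φ(T)` for a constant `q`, then `T z` is proportional to `ρ (ζ z + b)`.
-/

set_option autoImplicit false

open Topology Filter MvPolynomial

namespace Pool.Agent.H19OL

attribute [-instance] ProperSMul.toContinuousSMul

theorem eval_smul_form {σ : Type} {n : ℕ} {Q : MvPolynomial σ ℂ} (hQ : Q.IsHomogeneous n) (c : ℂ) (x : σ → ℂ) :
    eval (c • x) Q = c ^ n * eval x Q := by
  rw [eval_eq, eval_eq, Finset.mul_sum]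
  refine Finset.sum_congr rfl fun d hd => ?_
  have h5 : ∑ i ∈ d.support, d i = n := by
    have := hQ (mem_support_iff.1 hd)
    rw [Finsupp.weight_apply, Finsupp.sum] at this
    simpa using this
  simp only [Pi.smul_apply, smul_eq_mul, mul_pow, Finset.prod_mul_distrib]
  rw [Finset.prod_pow_eq_pow_sum, h5]
  ring

/-- The vertical case: the Wronskian is zero. -/
theorem clock_vertical {T : ℂ → Fin 2 → ℂ} (hT : Differentiable ℂ T) (hW : ∀ z, wronskian T z = 0) {z₀ c : ℂ} {v : Fin 2 → ℂ}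
    (hv : v ≠ 0) (hc : c ≠ 0) (h0 : T z₀ = c • v) (z : ℂ) : v 0 * T z 1 = v 1 * T z 0 := by
  obtain ⟨α, hα⟩ : ∃ α : Fin 2 → ℂ, α = fun i => (starRingEnd ℂ) (v i) := ⟨_, rfl⟩
  have hκ : α 0 * v 0 + α 1 * v 1 ≠ 0 := by
    rw [hα]
    exact norm_ne_zero' hv
  have hTi : ∀ i, Differentiable ℂ fun w => T w i := fun i => differentiable_pi.1 hT i
  have hL : Differentiable ℂ fun w => α 0 * T w 0 + α 1 * T w 1 := ((hTi 0).const_mul _).add ((hTi 1).const_mul _)
  have hd : Differentiable ℂ fun w => v 0 * T w 1 - v 1 * T w 0 := ((hTi 1).const_mul _).sub ((hTi 0).const_mul _)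
  have hL0 : α 0 * T z₀ 0 + α 1 * T z₀ 1 ≠ 0 := by
    rw [h0]
    simp only [Pi.smul_apply, smul_eq_mul]
    have : α 0 * (c * v 0) + α 1 * (c * v 1) = c * (α 0 * v 0 + α 1 * v 1) := by ring
    rw [this]
    exact mul_ne_zero hc hκ
  have hLe : ∀ᶠ w in 𝓝 z₀, α 0 * T w 0 + α 1 * T w 1 ≠ 0 := hL.continuous.continuousAt.eventually_ne hL0
  have h1 : ∀ᶠ w in 𝓝 z₀, deriv (fun w => (v 0 * T w 1 - v 1 * T w 0) / (α 0 * T w 0 + α 1 * T w 1)) w = 0 := by
    filter_upwards [hLe] with w hw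
    rw [(hasDerivAt_quot (hT w) v α hw).deriv, hW, mul_zero, zero_div]
  have h2 := eventually_const (((hd.analyticAt z₀)).div (hL.analyticAt z₀) hL0) h1
  have h3 : ∀ᶠ w in 𝓝 z₀, v 0 * T w 1 - v 1 * T w 0 = 0 := by
    filter_upwards [h2, hLe] with w hw hw0
    have h4 : v 0 * T z₀ 1 - v 1 * T z₀ 0 = 0 := by
      rw [h0]
      simp only [Pi.smul_apply, smul_eq_mul]
      ring
    simp only [Pi.div_apply] at hw
    rw [h4, zero_div, div_eq_zero_iff] at hw
    exact hw.resolve_right hw0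
  have h4 := AnalyticOnNhd.eq_of_eventuallyEq (f := fun w => v 0 * T w 1 - v 1 * T w 0) (g := fun _ => 0)
    (fun w _ => hd.analyticAt w) (fun w _ => analyticAt_const) (z₀ := z₀) h3
  exact sub_eq_zero.1 (congrFun h4 z)

/-- The horizontal case. -/
theorem clock_local {m : ℕ} (hm : 1 ≤ m) {Φ : MvPolynomial (Fin 2) ℂ} (hPi : Φ.IsHomogeneous (2 * m)) {ρ : ℂ → Fin 2 → ℂ}
    (hρ : Differentiable ℂ ρ) (hode : ∀ z, wronskian ρ z ^ m = eval (ρ z) Φ)
    {T : ℂ → Fin 2 → ℂ} (hT : Differentiable ℂ T) {q : ℂ} (hq : ∀ z, wronskian T z ^ m = q * eval (T z) Φ) {z₀ w₀ a : ℂ}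
    (ha : a ≠ 0) (h0 : T z₀ = a • ρ w₀) (hW : wronskian T z₀ ≠ 0) :
    ∃ ζ : ℂ, ∀ᶠ z in 𝓝 z₀, ∃ s : ℂ, T z = s • ρ (w₀ + ζ * (z - z₀)) := by
  have hm0 : m ≠ 0 := by omega
  have hPT : eval (T z₀) Φ ≠ 0 := by
    intro h
    have h1 := hq z₀
    rw [h, mul_zero] at h1
    exact hW (pow_eq_zero_iff hm0 |>.1 h1)
  have hq0 : q ≠ 0 := by
    rintro rfl
    have h1 := hq z₀
    rw [zero_mul] at h1
    exact hW (pow_eq_zero_iff hm0 |>.1 h1)
  obtain ⟨v, hv⟩ : ∃ v : Fin 2 → ℂ, v = ρ w₀ := ⟨_, rfl⟩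
  have hPv : eval v Φ ≠ 0 := by
    intro h
    apply hPT
    rw [h0, ← hv, eval_smul_form hPi, h, mul_zero]
  have hv0 : v ≠ 0 := by
    intro h
    apply hPv
    have h1 := eval_smul_form hPi 0 v
    rw [zero_smul, zero_pow (by omega : 2 * m ≠ 0), zero_mul] at h1
    rw [h]
    exact h1
  have hWρ : wronskian ρ w₀ ≠ 0 := by
    intro h
    apply hPv
    rw [hv, ← hode, h, zero_pow hm0]
  obtain ⟨α, hα⟩ : ∃ α : Fin 2 → ℂ, α = fun i => (starRingEnd ℂ) (v i) := ⟨_, rfl⟩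
  have hκ : α 0 * v 0 + α 1 * v 1 ≠ 0 := by
    rw [hα]
    exact norm_ne_zero' hv0
  -- the coordinates
  obtain ⟨L, hL⟩ : ∃ L : (Fin 2 → ℂ) → ℂ, ∀ x, L x = α 0 * x 0 + α 1 * x 1 := ⟨_, fun _ => rfl⟩
  obtain ⟨d, hd⟩ : ∃ d : (Fin 2 → ℂ) → ℂ, ∀ x, d x = v 0 * x 1 - v 1 * x 0 := ⟨_, fun _ => rfl⟩
  have hcoord : ∀ x y : Fin 2 → ℂ, L x = L y → d x = d y → x = y := by
    intro x y h1 h2
    rw [hL, hL] at h1
    rw [hd, hd] at h2
    have h3 : (α 0 * v 0 + α 1 * v 1) * x 0 = (α 0 * v 0 + α 1 * v 1) * y 0 := by linear_combination v 0 * h1 - α 1 * h2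
    have h4 : (α 0 * v 0 + α 1 * v 1) * x 1 = (α 0 * v 0 + α 1 * v 1) * y 1 := by linear_combination v 1 * h1 + α 0 * h2
    funext i
    fin_cases i
    · exact mul_left_cancel₀ hκ h3
    · exact mul_left_cancel₀ hκ h4
  have hsmul : ∀ (c : ℂ) (x : Fin 2 → ℂ), L (c • x) = c * L x ∧ d (c • x) = c * d x := by
    intro c x
    rw [hL, hL, hd, hd]
    simp only [Pi.smul_apply, smul_eq_mul]
    constructor <;> ring
  have hLdiff : ∀ {S : ℂ → Fin 2 → ℂ}, Differentiable ℂ S → Differentiable ℂ (fun w => L (S w)) ∧ Differentiable ℂ (fun w => d (S w)) := by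
    intro S hS
    have hSi : ∀ i, Differentiable ℂ fun w => S w i := fun i => differentiable_pi.1 hS i
    simp only [hL, hd]
    exact ⟨((hSi 0).const_mul _).add ((hSi 1).const_mul _), ((hSi 1).const_mul _).sub ((hSi 0).const_mul _)⟩
  obtain ⟨hLρ, hdρ⟩ := hLdiff hρ
  obtain ⟨hLT, hdT⟩ := hLdiff hT
  have hLv : L v = α 0 * v 0 + α 1 * v 1 := hL v
  have hdv : d v = 0 := by
    rw [hd]
    ring
  have hLρ0 : L (ρ w₀) ≠ 0 := by
    rw [← hv, hLv]
    exact hκ
  have hLT0 : L (T z₀) ≠ 0 := by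
    rw [h0, (hsmul _ _).1]
    exact mul_ne_zero ha hLρ0
  -- the affine coordinate
  have hPan : AnalyticAt ℂ (fun w => d (ρ w) / L (ρ w)) w₀ := (hdρ.analyticAt w₀).div (hLρ.analyticAt w₀) hLρ0
  have hPderiv : deriv (fun w => d (ρ w) / L (ρ w)) w₀ ≠ 0 := by
    have h1 := hasDerivAt_quot (hρ w₀) v α (by rw [← hL]; exact hLρ0)
    simp only [← hL, ← hd] at h1
    rw [h1.deriv]
    exact div_ne_zero (mul_ne_zero (by rw [hLv]; exact hκ) hWρ) (pow_ne_zero _ hLρ0)
  have hP0 : d (ρ w₀) / L (ρ w₀) = 0 := by rw [← hv, hdv, zero_div]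
  have hra := hPan.analyticAt_localInverse hPderiv
  have hr0 : hPan.hasStrictDerivAt.localInverse _ _ _ hPderiv (d (ρ w₀) / L (ρ w₀)) = w₀ :=
    HasStrictFDerivAt.localInverse_apply_image ..
  have hrr := HasStrictDerivAt.eventually_right_inverse hPan.hasStrictDerivAt hPderiv
  obtain ⟨r, hr⟩ : ∃ r : ℂ → ℂ, r = hPan.hasStrictDerivAt.localInverse _ _ _ hPderiv := ⟨_, rfl⟩
  rw [← hr, hP0] at hra hr0
  rw [← hr] at hrr
  simp only [hP0] at hrr
  have hQan : AnalyticAt ℂ (fun w => d (T w) / L (T w)) z₀ := (hdT.analyticAt z₀).div (hLT.analyticAt z₀) hLT0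
  have hQ0 : d (T z₀) / L (T z₀) = 0 := by rw [h0, (hsmul _ _).2, ← hv, hdv, mul_zero, zero_div]
  obtain ⟨h, hh⟩ : ∃ h : ℂ → ℂ, ∀ z, h z = r (d (T z) / L (T z)) := ⟨_, fun _ => rfl⟩
  have hhan : AnalyticAt ℂ h z₀ := by
    have h1 : h = r ∘ fun z => d (T z) / L (T z) := funext hh
    rw [h1]
    refine AnalyticAt.comp ?_ hQan
    simp only [hQ0]
    exact hra
  have hh0 : h z₀ = w₀ := by rw [hh, hQ0, hr0]
  have hLρh : ∀ᶠ z in 𝓝 z₀, L (ρ (h z)) ≠ 0 := by
    have h1 : ContinuousAt (fun z => L (ρ (h z))) z₀ := hLρ.continuous.continuousAt.comp hhan.continuousAt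
    exact h1.eventually_ne (by rw [hh0]; exact hLρ0)
  have hLTe : ∀ᶠ z in 𝓝 z₀, L (T z) ≠ 0 := hLT.continuous.continuousAt.eventually_ne hLT0
  have hPh : ∀ᶠ z in 𝓝 z₀, d (ρ (h z)) / L (ρ (h z)) = d (T z) / L (T z) := by
    have h1 : Tendsto (fun z => d (T z) / L (T z)) (𝓝 z₀) (𝓝 0) := by
      have := hQan.continuousAt.tendsto
      rwa [hQ0] at this
    filter_upwards [h1.eventually hrr] with z hz
    rw [hh]
    exact hz
  obtain ⟨s, hs⟩ : ∃ s : ℂ → ℂ, ∀ z, s z = L (T z) / L (ρ (h z)) := ⟨_, fun _ => rfl⟩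
  have hTs : ∀ᶠ z in 𝓝 z₀, T z = s z • ρ (h z) := by
    filter_upwards [hLρh, hLTe, hPh] with z h1 h2 h3
    apply hcoord
    · rw [(hsmul _ _).1, hs, div_mul_cancel₀ _ h1]
    · rw [(hsmul _ _).2, hs]
      rw [div_eq_div_iff h1 h2] at h3
      field_simp
      linear_combination -h3
  have hsan : AnalyticAt ℂ s z₀ := by
    have h1 : s = fun z => L (T z) / L (ρ (h z)) := funext hs
    rw [h1]
    refine (hLT.analyticAt z₀).div ?_ (by rw [hh0]; exact hLρ0)
    exact AnalyticAt.comp (g := fun w => L (ρ w)) (f := h) (hLρ.analyticAt _) hhan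
  have hpow : ∀ᶠ z in 𝓝 z₀, deriv h z ^ m = q := by
    have hPTe : ∀ᶠ z in 𝓝 z₀, eval (T z) Φ ≠ 0 := by
      have h1 : ContinuousAt (fun z => eval (T z) Φ) z₀ :=
        ((MvPolynomial.continuous_eval Φ).comp hT.continuous).continuousAt
      exact h1.eventually_ne hPT
    filter_upwards [hTs.eventually_nhds, hPTe, hsan.eventually_analyticAt, hhan.eventually_analyticAt] with z h1 h2 h3 h4
    have h5 : wronskian T z = s z ^ 2 * (deriv h z * wronskian ρ (h z)) := by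
      rw [wronskian_congr h1, wronskian_smul_comp (hρ _) h3.differentiableAt h4.differentiableAt]
    have h6 := hq z
    rw [h5, mul_pow, mul_pow, hode, ← pow_mul] at h6
    have h7 : eval (T z) Φ = s z ^ (2 * m) * eval (ρ (h z)) Φ := by
      rw [h1.self_of_nhds, eval_smul_form hPi]
    have h8 : (deriv h z ^ m - q) * eval (T z) Φ = 0 := by
      rw [h7] at h6 ⊢
      linear_combination h6
    exact sub_eq_zero.1 ((mul_eq_zero.1 h8).resolve_right h2)
  have hconst : ∀ᶠ z in 𝓝 z₀, deriv h z = deriv h z₀ := by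
    apply eventually_const hhan.deriv
    filter_upwards [hpow.eventually_nhds, hhan.eventually_analyticAt] with z h1 h2
    have h3 : HasDerivAt (fun w => deriv h w ^ m) ((m : ℂ) * deriv h z ^ (m - 1) * deriv (deriv h) z) z :=
      h2.deriv.differentiableAt.hasDerivAt.pow m
    have h4 : HasDerivAt (fun w => deriv h w ^ m) 0 z := by
      refine (hasDerivAt_const z q).congr_of_eventuallyEq ?_
      exact h1
    have h5 := h3.unique h4
    have h6 : deriv h z ≠ 0 := by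
      intro h0
      have := h1.self_of_nhds
      rw [h0, zero_pow hm0] at this
      exact hq0 this.symm
    have hmC : (m : ℂ) ≠ 0 := by exact_mod_cast hm0
    exact (mul_eq_zero.1 h5).resolve_left (mul_ne_zero hmC (pow_ne_zero _ h6))
  refine ⟨deriv h z₀, ?_⟩
  have haff : ∀ᶠ z in 𝓝 z₀, h z = w₀ + deriv h z₀ * (z - z₀) := by
    have h1 : AnalyticAt ℂ (fun z => h z - deriv h z₀ * (z - z₀)) z₀ :=
      hhan.sub (analyticAt_const.mul (analyticAt_id.sub analyticAt_const))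
    have h2 := eventually_const h1 (by
      filter_upwards [hconst, hhan.eventually_analyticAt] with z h3 h4
      have h5 : HasDerivAt (fun z => h z - deriv h z₀ * (z - z₀)) (deriv h z - deriv h z₀ * 1) z :=
        h4.differentiableAt.hasDerivAt.sub (((hasDerivAt_id z).sub_const z₀).const_mul _)
      rw [h5.deriv, h3]
      ring)
    filter_upwards [h2] with z h3
    rw [sub_self, mul_zero, sub_zero, hh0] at h3
    linear_combination h3
  filter_upwards [hTs, haff] with z h1 h2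
  exact ⟨s z, by rw [h1, h2]⟩

/-- **The clock.** -/
theorem exists_clock {m : ℕ} (hm : 1 ≤ m) {Φ : MvPolynomial (Fin 2) ℂ} (hPi : Φ.IsHomogeneous (2 * m)) {ρ : ℂ → Fin 2 → ℂ}
    (hρ : Differentiable ℂ ρ) (hρ0 : ∀ z, ρ z ≠ 0) (hode : ∀ z, wronskian ρ z ^ m = eval (ρ z) Φ)
    (hsurj : ∀ t : Fin 2 → ℂ, t ≠ 0 → ∃ w c : ℂ, c ≠ 0 ∧ t = c • ρ w)
    {T : ℂ → Fin 2 → ℂ} (hT : Differentiable ℂ T) (hT0 : ∃ z, T z ≠ 0) {q : ℂ} (hq : ∀ z, wronskian T z ^ m = q * eval (T z) Φ) :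
    ∃ ζ b : ℂ, ∀ z, ρ (ζ * z + b) 0 * T z 1 = ρ (ζ * z + b) 1 * T z 0 := by
  by_cases hW : ∀ z, wronskian T z = 0
  · obtain ⟨z₀, hz₀⟩ := hT0
    obtain ⟨b, c, hc, hb⟩ := hsurj _ hz₀
    refine ⟨0, b, fun z => ?_⟩
    rw [zero_mul, zero_add]
    exact clock_vertical hT hW (hρ0 b) hc hb z
  · push Not at hW
    obtain ⟨z₀, hz₀⟩ := hW
    have hTz : T z₀ ≠ 0 := by
      intro h
      apply hz₀
      unfold wronskian
      rw [h]
      simp
    obtain ⟨w₀, a, ha, h0⟩ := hsurj _ hTz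
    obtain ⟨ζ, hζ⟩ := clock_local hm hPi hρ hode hT hq ha h0 hz₀
    refine ⟨ζ, w₀ - ζ * z₀, ?_⟩
    have haff : Differentiable ℂ fun z : ℂ => ζ * z + (w₀ - ζ * z₀) := (differentiable_id.const_mul ζ).add_const _
    have hρi : ∀ i, Differentiable ℂ fun z => ρ (ζ * z + (w₀ - ζ * z₀)) i := fun i =>
      (differentiable_pi.1 hρ i).comp haff
    have hTi : ∀ i, Differentiable ℂ fun w => T w i := fun i => differentiable_pi.1 hT i
    have hg : Differentiable ℂ fun z => ρ (ζ * z + (w₀ - ζ * z₀)) 0 * T z 1 - ρ (ζ * z + (w₀ - ζ * z₀)) 1 * T z 0 :=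
      ((hρi 0).mul (hTi 1)).sub ((hρi 1).mul (hTi 0))
    have h4 := AnalyticOnNhd.eq_of_eventuallyEq (g := fun _ => 0)
      (fun w _ => hg.analyticAt w) (fun w _ => analyticAt_const) (z₀ := z₀) (by
        filter_upwards [hζ] with z hz
        obtain ⟨s, hs⟩ := hz
        have h5 : ζ * z + (w₀ - ζ * z₀) = w₀ + ζ * (z - z₀) := by ring
        rw [h5, hs]
        simp only [Pi.smul_apply, smul_eq_mul]
        ring)
    intro z
    exact sub_eq_zero.1 (congrFun h4 z)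

end Pool.Agent.H19OL

end

section

/-!
# OL Fib: the projection of the fibre product to the surface
-/

set_option autoImplicit false

open Topology Filter MvPolynomial

noncomputable section

namespace Pool.Agent.H19OL

attribute [-instance] ProperSMul.toContinuousSMul

open Pool.Agent.H17 (PN VanishesAt HolomorphicInto vanishesAt_mk_iff)
open Pool.Agent.H13.SM (cone)
open Pool.Agent.H62.FC (Homog)
open Pool.Agent.H17LG.Variety (FunField)
open Pool.Agent.H17EF (projVar)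
open Pool.Agent.H7.Bir (vals eval_comp)

variable {N M r : ℕ} {P : Ideal (MvPolynomial (Fin (N + 1)) ℂ)} {A B : MvPolynomial (Fin (N + 1)) ℂ} {Λ : AddSubgroup ℂ}
  {R : ℂ ⧸ Λ → PN 1} {e : ℂ ⧸ Λ → PN r} {ε : Fin (M + 1) ≃ Fin (N + 1) × Fin (r + 1)}

theorem mem_fib {Q : MvPolynomial (Fin (M + 1)) ℂ} : Q ∈ fibreProduct P A B R e ε ↔
    ∀ x y c, x ∈ cone P → Rep y (e c) → Rep (pair A B x) (R c) → eval (segre ε x y) Q = 0 := by
  unfold fibreProduct
  rw [mem_vanishingIdeal_iff]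
  constructor
  · intro h x y c h1 h2 h3
    have h4 := h (segre ε x y) ⟨x, y, c, h1, h2, h3, rfl⟩
    rwa [aeval_eq_eval] at h4
  · rintro h _ ⟨x, y, c, h1, h2, h3, rfl⟩
    rw [aeval_eq_eval]
    exact h x y c h1 h2 h3

theorem segre_smul (c : ℂ) (x : Fin (N + 1) → ℂ) (y : Fin (r + 1) → ℂ) : segre ε (c • x) y = c • segre ε x y := by
  funext k
  simp only [segre, Pi.smul_apply, smul_eq_mul, mul_assoc]

theorem cone_smul (hP : Homog P) {x : Fin (N + 1) → ℂ} (hx : x ∈ cone P) {c : ℂ} (hc : c ≠ 0) : c • x ∈ cone P := by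
  have h1 : c • x ≠ 0 := smul_ne_zero hc hx.1
  have h2 := (Pool.Agent.H17EF.mk_mem_projVar hP hx.1).2 hx
  rw [← Pool.Agent.H17EF.mk_mem_projVar hP h1]
  have h3 : Projectivization.mk ℂ (c • x) h1 = Projectivization.mk ℂ x hx.1 := by
    rw [Projectivization.mk_eq_mk_iff']
    exact ⟨c, rfl⟩
  rw [h3]
  exact h2

theorem Rep.smul {n : ℕ} {y : Fin (n + 1) → ℂ} {p : PN n} (h : Rep y p) {c : ℂ} (hc : c ≠ 0) : Rep (c • y) p := by
  obtain ⟨h1, h2⟩ := h
  refine ⟨smul_ne_zero hc h1, ?_⟩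
  rw [h2, Projectivization.mk_eq_mk_iff']
  refine ⟨c⁻¹, ?_⟩
  rw [smul_smul, inv_mul_cancel₀ hc, one_smul]

theorem rep_rep {n : ℕ} (p : PN n) : Rep p.rep p := ⟨p.rep_nonzero, p.mk_rep.symm⟩

/-- two representations -/
theorem Rep.eq_smul {n : ℕ} {x y : Fin (n + 1) → ℂ} {p : PN n} (hx : Rep x p) (hy : Rep y p) : ∃ c : ℂ, c ≠ 0 ∧ x = c • y := by
  obtain ⟨h1, h2⟩ := hx
  obtain ⟨h3, h4⟩ := hy
  rw [h2, Projectivization.mk_eq_mk_iff'] at h4
  obtain ⟨a, ha⟩ := h4
  refine ⟨a, ?_, ha.symm⟩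
  rintro rfl
  rw [zero_smul] at ha
  exact h1 ha.symm

theorem rep_of_smul {n : ℕ} {x y : Fin (n + 1) → ℂ} {p : PN n} (hx : Rep x p) (hy : y ≠ 0) {c : ℂ} (h : x = c • y) : Rep y p := by
  obtain ⟨h1, h2⟩ := hx
  refine ⟨hy, ?_⟩
  rw [h2, Projectivization.mk_eq_mk_iff']
  exact ⟨c, h.symm⟩

theorem pair_smul {d : ℕ} (hA : A.IsHomogeneous d) (hB : B.IsHomogeneous d) (c : ℂ) (x : Fin (N + 1) → ℂ) :
    pair A B (c • x) = c ^ d • pair A B x := by
  unfold pair
  rw [Pool.Agent.H17BP.eval_smul_form hA, Pool.Agent.H17BP.eval_smul_form hB]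
  funext i
  fin_cases i <;> rfl

/-- A polynomial which vanishes on a line has homogeneous components which vanish on the line. -/
theorem eval_component {n : ℕ} {v : Fin (n + 1) → ℂ} {Q : MvPolynomial (Fin (n + 1)) ℂ} (h : ∀ c : ℂ, c ≠ 0 → eval (c • v) Q = 0) (k : ℕ) :
    eval v (homogeneousComponent k Q) = 0 := by
  obtain ⟨p, hp⟩ : ∃ p : Polynomial ℂ, p = ∑ n ∈ Finset.range (Q.totalDegree + 1),
      Polynomial.C (eval v (homogeneousComponent n Q)) * (Polynomial.X : Polynomial ℂ) ^ n := ⟨_, rfl⟩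
  have h1 : ∀ c : ℂ, p.eval c = eval (c • v) Q := by
    intro c
    conv_rhs => rw [← sum_homogeneousComponent Q]
    rw [map_sum, hp, Polynomial.eval_finsetSum]
    refine Finset.sum_congr rfl fun n _ => ?_
    rw [Pool.Agent.H17BP.eval_smul_form (homogeneousComponent_isHomogeneous n Q), Polynomial.eval_mul, Polynomial.eval_C,
      Polynomial.eval_pow, Polynomial.eval_X, mul_comm]
  have h2 : p = 0 := by
    refine Polynomial.eq_zero_of_infinite_isRoot p ?_
    have h3 : ({(0 : ℂ)}ᶜ : Set ℂ) ⊆ {x | Polynomial.IsRoot p x} := by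
      intro c hc
      rw [Set.mem_compl_singleton_iff] at hc
      show p.eval c = 0
      rw [h1, h c hc]
    exact (Set.Finite.infinite_compl (Set.finite_singleton (0 : ℂ))).mono h3
  by_cases hk : k ∈ Finset.range (Q.totalDegree + 1)
  · rw [hp] at h2
    have h3 := congrArg (fun p => Polynomial.coeff p k) h2
    simp only [Polynomial.finsetSum_coeff, Polynomial.coeff_C_mul, Polynomial.coeff_X_pow, Polynomial.coeff_zero,
      mul_ite, mul_one, mul_zero] at h3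
    rw [Finset.sum_ite_eq, if_pos hk] at h3
    exact h3
  · rw [homogeneousComponent_eq_zero _ _ (by
      rw [Finset.mem_range] at hk
      omega), map_zero]

/-- The ideal of the fibre product is homogeneous. -/
theorem homog_fib (hP : Homog P) {d : ℕ} (hA : A.IsHomogeneous d) (hB : B.IsHomogeneous d) : Homog (fibreProduct P A B R e ε) := by
  intro Q hQ k
  rw [mem_fib] at hQ ⊢
  intro x y c h1 h2 h3
  refine eval_component (fun a ha => ?_) k
  rw [← segre_smul]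
  refine hQ (a • x) y c (cone_smul hP h1 ha) h2 ?_
  rw [pair_smul hA hB]
  exact h3.smul (pow_ne_zero _ ha)

/-- The projection to the first factor, for the `j`-th coordinate of the second factor. -/
def proj (ε : Fin (M + 1) ≃ Fin (N + 1) × Fin (r + 1)) (j : Fin (r + 1)) : Fin (N + 1) → MvPolynomial (Fin (M + 1)) ℂ :=
  fun i => X (ε.symm (i, j))

theorem proj_homog (j : Fin (r + 1)) (i : Fin (N + 1)) : (proj ε j i).IsHomogeneous 1 := isHomogeneous_X ℂ _

theorem vals_proj (j : Fin (r + 1)) (x : Fin (N + 1) → ℂ) (y : Fin (r + 1) → ℂ) : vals (proj ε j) (segre ε x y) = y j • x := by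
  funext i
  simp only [vals, proj, eval_X, segre, Equiv.apply_symm_apply, Pi.smul_apply, smul_eq_mul]
  ring

theorem eval_proj (j : Fin (r + 1)) (x : Fin (N + 1) → ℂ) (y : Fin (r + 1) → ℂ) {n : ℕ} {Q : MvPolynomial (Fin (N + 1)) ℂ}
    (hQ : Q.IsHomogeneous n) : eval (segre ε x y) (aeval (proj ε j) Q) = y j ^ n * eval x Q := by
  rw [eval_comp, vals_proj, Pool.Agent.H17BP.eval_smul_form hQ]

/-- A form which vanishes on the cone is in the ideal. -/
theorem mem_of_cone [P.IsPrime] (hP : Homog P) (hX : ∃ i, (X i : MvPolynomial (Fin (N + 1)) ℂ) ∉ P) {n : ℕ}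
    {Q : MvPolynomial (Fin (N + 1)) ℂ} (hQ : Q.IsHomogeneous n) (h : ∀ x ∈ cone P, eval x Q = 0) : Q ∈ P := by
  by_contra hcon
  obtain ⟨x, hx, hxQ⟩ := Pool.Agent.H17EF.exists_point hP hX hcon hQ
  apply hxQ
  apply h
  have h1 : Projectivization.mk ℂ x.rep x.rep_nonzero ∈ projVar P := by rwa [x.mk_rep]
  exact (Pool.Agent.H17EF.mk_mem_projVar hP x.rep_nonzero).1 h1

/-- The projection is dominant. -/
theorem proj_maps [hPp : P.IsPrime] (hP : Homog P) (hX : ∃ i, (X i : MvPolynomial (Fin (N + 1)) ℂ) ∉ P) {d : ℕ} (hA : A.IsHomogeneous d)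
    (hB : B.IsHomogeneous d) (hAB : A ∉ P ∨ B ∉ P) (hR : Function.Surjective R) [hV : (fibreProduct P A B R e ε).IsPrime]
    {i₀ : Fin (N + 1)} {j : Fin (r + 1)} (hj : X (ε.symm (i₀, j)) ∉ fibreProduct P A B R e ε) (n : ℕ)
    (Q : MvPolynomial (Fin (N + 1)) ℂ) (hQ : Q.IsHomogeneous n) : aeval (proj ε j) Q ∈ fibreProduct P A B R e ε ↔ Q ∈ P := by
  constructor
  · intro h
    -- the other coordinates of the second factor
    have h1 : ∀ l : Fin (r + 1), aeval (proj ε l) Q ∈ fibreProduct P A B R e ε := by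
      intro l
      have h2 : (X (ε.symm (i₀, j)) : MvPolynomial (Fin (M + 1)) ℂ) ^ n * aeval (proj ε l) Q ∈ fibreProduct P A B R e ε := by
        rw [mem_fib]
        intro x y c hx hy hxy
        have h3 := mem_fib.1 h x y c hx hy hxy
        rw [eval_proj j x y hQ] at h3
        rw [map_mul, map_pow, eval_X, eval_proj l x y hQ]
        simp only [segre, Equiv.apply_symm_apply]
        have h4 : (x i₀ * y j) ^ n * (y l ^ n * eval x Q) = (x i₀ * y l) ^ n * (y j ^ n * eval x Q) := by ring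
        rw [h4, h3, mul_zero]
      exact (hV.mem_or_mem h2).resolve_left fun h3 => hj (hV.mem_of_pow_mem _ h3)
    -- the form vanishes where the map is defined
    have h2 : ∀ x ∈ cone P, pair A B x ≠ 0 → eval x Q = 0 := by
      intro x hx hAB
      obtain ⟨c, hc⟩ := hR (Projectivization.mk ℂ (pair A B x) hAB)
      have h3 : Rep (pair A B x) (R c) := ⟨hAB, hc⟩
      obtain ⟨l, hl⟩ := Function.ne_iff.1 (e c).rep_nonzero
      have h4 := mem_fib.1 (h1 l) x (e c).rep c hx (rep_rep _) h3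
      rw [eval_proj l _ _ hQ] at h4
      exact (mul_eq_zero.1 h4).resolve_left (pow_ne_zero _ hl)
    have h3 : ∀ S : MvPolynomial (Fin (N + 1)) ℂ, (∀ x, eval x S ≠ 0 → pair A B x ≠ 0) → S.IsHomogeneous d → Q * S ∈ P := by
      intro S hS hSd
      refine mem_of_cone hP hX (hQ.mul hSd) fun x hx => ?_
      rw [map_mul]
      by_cases h4 : eval x S = 0
      · rw [h4, mul_zero]
      · rw [h2 x hx (hS x h4), zero_mul]
    rcases hAB with h4 | h4
    · refine (hPp.mem_or_mem (h3 A (fun x hx h0 => hx ?_) hA)).resolve_right h4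
      exact congrFun h0 0
    · refine (hPp.mem_or_mem (h3 B (fun x hx h0 => hx ?_) hB)).resolve_right h4
      exact congrFun h0 1
  · intro h
    rw [mem_fib]
    intro x y c hx _ _
    rw [eval_proj j x y hQ, hx.2 Q h, mul_zero]

/-- **From the fibre product to the surface.** -/
theorem exists_down [P.IsPrime] (hP : Homog P) {k : ℕ} (hz : ∃ z : Fin (k + 1) → FunField P, IsTranscendenceBasis ℂ z) {d : ℕ}
    (hA : A.IsHomogeneous d) (hB : B.IsHomogeneous d) (hAB : A ∉ P ∨ B ∉ P) (hR : Function.Surjective R)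
    [hV : (fibreProduct P A B R e ε).IsPrime] (hz' : ∃ z : Fin (k + 1) → FunField (fibreProduct P A B R e ε), IsTranscendenceBasis ℂ z)
    {n : ℕ} {S : MvPolynomial (Fin (M + 1)) ℂ} (hS : S.IsHomogeneous n) (hSV : S ∉ fibreProduct P A B R e ε) :
    ∃ (T : MvPolynomial (Fin (N + 1)) ℂ) (D : ℕ), T.IsHomogeneous D ∧ T ∉ P ∧ ∀ x y, x ≠ 0 → y ≠ 0 →
      (∀ Q ∈ fibreProduct P A B R e ε, eval (segre ε x y) Q = 0) → eval (segre ε x y) S = 0 → eval x T = 0 := by
  classical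
  have hX : ∃ i, (X i : MvPolynomial (Fin (N + 1)) ℂ) ∉ P := by
    obtain ⟨z, hz⟩ := hz
    obtain ⟨i, hi⟩ := Pool.Agent.H92.GT.Proj.exists_coordFun_ne_zero P z hz
    exact ⟨i, Pool.Agent.H17R.coordFun_ne_zero_iff.1 hi⟩
  have h1 : ∀ j : Fin (r + 1), ∃ (T : MvPolynomial (Fin (N + 1)) ℂ) (D : ℕ), T.IsHomogeneous D ∧ T ∉ P ∧
      ∀ x y, x ≠ 0 → y j ≠ 0 → (∀ Q ∈ fibreProduct P A B R e ε, eval (segre ε x y) Q = 0) → eval (segre ε x y) S = 0 → eval x T = 0 := by
    intro j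
    by_cases hj : ∃ i₀, X (ε.symm (i₀, j)) ∉ fibreProduct P A B R e ε
    · obtain ⟨i₀, hi₀⟩ := hj
      obtain ⟨T, D, hT, hTP, hTy⟩ := exists_norm_form hz hz' (proj_homog (ε := ε) j) (proj_maps hP hX hA hB hAB hR hi₀) hS hSV
      refine ⟨T, D, hT, hTP, fun x y hx hyj h3 h4 => ?_⟩
      have h5 : segre ε x y ≠ 0 := by
        intro h0
        obtain ⟨i, hi⟩ := Function.ne_iff.1 hx
        have h6 := congrFun h0 (ε.symm (i, j))
        simp only [segre, Equiv.apply_symm_apply, Pi.zero_apply] at h6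
        exact mul_ne_zero hi hyj h6
      have h6 := hTy (segre ε x y) h5 h3 h4
      rw [vals_proj, Pool.Agent.H17BP.eval_smul_form hT] at h6
      exact (mul_eq_zero.1 h6).resolve_left (pow_ne_zero _ hyj)
    · push Not at hj
      refine ⟨1, 0, isHomogeneous_one _ _, fun h => (Ideal.ne_top_iff_one P).1 (Ideal.IsPrime.ne_top inferInstance) h,
        fun x y hx hyj h3 h4 => ?_⟩
      obtain ⟨i, hi⟩ := Function.ne_iff.1 hx
      have h6 := h3 _ (hj i)
      rw [eval_X] at h6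
      simp only [segre, Equiv.apply_symm_apply] at h6
      exact absurd h6 (mul_ne_zero hi hyj)
  choose T D hT hTP hTy using h1
  refine ⟨∏ j, T j, ∑ j, D j, IsHomogeneous.prod _ _ _ fun j _ => hT j, ?_, fun x y hx hy h2 h3 => ?_⟩
  · intro h
    obtain ⟨j, -, hj⟩ := (Ideal.IsPrime.prod_mem_iff (p := P)).1 h
    exact hTP j hj
  · obtain ⟨j, hj⟩ := Function.ne_iff.1 hy
    rw [map_prod]
    exact Finset.prod_eq_zero (Finset.mem_univ j) (hTy j x y hx hj h2 h3)

end Pool.Agent.H19OL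

end
end

section

/-!
# OL Main: the conjecture goes down from a model of the fibre product to the surface
-/

set_option autoImplicit false

open Topology Filter MvPolynomial Metric

noncomputable section

namespace Pool.Agent.H19OL

attribute [-instance] ProperSMul.toContinuousSMul

open Pool.Agent.H17 (PN VanishesAt HolomorphicInto ZariskiClosedIn)
open Pool.Agent.H13.SM (conTan)
open Pool.Agent.H62.FC (Homog)
open Pool.Agent.H17LG.Variety (FunField)
open Pool.Agent.H17EF (projVar coneE GT)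
open Pool.Agent.H92.TH (SymDiff)
open Pool.Agent.H7.Bir (GGL)

variable {N M K r : ℕ} {P : Ideal (MvPolynomial (Fin (N + 1)) ℂ)} {A B : MvPolynomial (Fin (N + 1)) ℂ} {Λ : AddSubgroup ℂ}
  {R : ℂ ⧸ Λ → PN 1} {e : ℂ ⧸ Λ → PN r} {ε : Fin (M + 1) ≃ Fin (N + 1) × Fin (r + 1)} {m : ℕ} {Φ : MvPolynomial (Fin 2) ℂ}
  {Θ : SymDiff (coneE P) m}

/-- The fibre product is of general type if the surface is. -/
theorem gt_fib [hPp : P.IsPrime] (hP : Homog P) {k : ℕ} (hz : ∃ z : Fin (k + 1) → FunField P, IsTranscendenceBasis ℂ z)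
    (hgt : GT P (k + 1)) {d : ℕ} (hA : A.IsHomogeneous d) (hB : B.IsHomogeneous d) (hAB : A ∉ P ∨ B ∉ P)
    (hR : Function.Surjective R) [hV : (fibreProduct P A B R e ε).IsPrime]
    (hz' : ∃ z : Fin (k + 1) → FunField (fibreProduct P A B R e ε), IsTranscendenceBasis ℂ z) : GT (fibreProduct P A B R e ε) (k + 1) := by
  obtain ⟨i₁, hi₁⟩ : ∃ i, (X i : MvPolynomial (Fin (N + 1)) ℂ) ∉ P := by
    obtain ⟨z, hz⟩ := hz
    obtain ⟨i, hi⟩ := Pool.Agent.H92.GT.Proj.exists_coordFun_ne_zero P z hz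
    exact ⟨i, Pool.Agent.H17R.coordFun_ne_zero_iff.1 hi⟩
  obtain ⟨l, hl⟩ : ∃ l, (X l : MvPolynomial (Fin (M + 1)) ℂ) ∉ fibreProduct P A B R e ε := by
    obtain ⟨z, hz⟩ := hz'
    obtain ⟨i, hi⟩ := Pool.Agent.H92.GT.Proj.exists_coordFun_ne_zero _ z hz
    exact ⟨i, Pool.Agent.H17R.coordFun_ne_zero_iff.1 hi⟩
  obtain ⟨⟨i₀, j⟩, rfl⟩ : ∃ p, l = ε.symm p := ⟨ε l, (ε.symm_apply_apply l).symm⟩
  obtain ⟨φ⟩ := exists_hom (proj_homog (ε := ε) j) (proj_maps hP ⟨i₁, hi₁⟩ hA hB hAB hR hl) hi₁ hl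
  exact Pool.Agent.H7.Gtu.isGT_of_hom φ hz hz' hgt

end Pool.Agent.H19OL

end
end
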