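import Pool.Agent.H94.CB.M157
import Pool.Agent.H94.CB.M35

/-! The parts of this file: H15.V.LiouB, H15.V.Liou_1, H62.EL.Un. -/

section

/-!
# V LiouB: the averages of `‖s‖ ^ p` over large circles are unbounded

`s` is a non-constant entire function, `p > 0`.  By Jensen's formula for `s - s z₁` the average of `log ‖s - s z₁‖` over the circle of radius `t` is at
least `log (t / ‖z₁‖) + log ‖s 0 - s z₁‖`, and `log x ≤ x ^ p / p`.
-/

set_option autoImplicit false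

open Topology Filter Metric

namespace Pool.Agent.H15.V

attribute [-instance] ProperSMul.toContinuousSMul

theorem log_le_rpow {p x : ℝ} (hp : 0 < p) (hx : 0 ≤ x) : Real.log x ≤ x ^ p / p := by
  rw [le_div_iff₀ hp]
  rcases hx.eq_or_lt with h | h
  · rw [← h, Real.log_zero, zero_mul]
    exact Real.rpow_nonneg le_rfl _
  · have h1 : Real.log x * p = Real.log (x ^ p) := by rw [Real.log_rpow h, mul_comm]
    rw [h1]
    have h2 := Real.log_le_sub_one_of_pos (Real.rpow_pos_of_pos h p)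
    linarith

theorem add_rpow_le_two {p x y : ℝ} (hp : 0 < p) (hx : 0 ≤ x) (hy : 0 ≤ y) : (x + y) ^ p ≤ 2 ^ p * (x ^ p + y ^ p) := by
  have h1 : (x + y) ^ p ≤ (2 * max x y) ^ p := by
    refine Real.rpow_le_rpow (by positivity) ?_ hp.le
    have := le_max_left x y
    have := le_max_right x y
    linarith
  refine h1.trans ?_
  rw [Real.mul_rpow (by norm_num) (le_max_of_le_left hx)]
  refine mul_le_mul_of_nonneg_left ?_ (by positivity)
  rcases max_choice x y with h | h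
  · rw [h]
    have := Real.rpow_nonneg hy p
    linarith
  · rw [h]
    have := Real.rpow_nonneg hx p
    linarith

theorem jensen_low {s : ℂ → ℂ} (hs : Differentiable ℂ s) {z₁ : ℂ} (h1 : s z₁ ≠ s 0) {t : ℝ} (ht : ‖z₁‖ ≤ t) (ht0 : 0 < t) :
    Real.log (t * ‖z₁‖⁻¹) + Real.log ‖s 0 - s z₁‖ ≤ Real.circleAverage (fun z => Real.log ‖s z - s z₁‖) 0 t := by
  have htt : |t| = t := abs_of_pos ht0
  have hz1 : z₁ ≠ 0 := fun h => h1 (by rw [h])
  have han : AnalyticOnNhd ℂ (fun z => s z - s z₁) (closedBall 0 |t|) := fun z _ =>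
    (hs.analyticAt z).sub analyticAt_const
  have h0 : (fun z => s z - s z₁) 0 ≠ 0 := sub_ne_zero.2 (fun h => h1 h.symm)
  rw [han.circleAverage_log_norm ht0.ne' h0]
  refine add_le_add_left ?_ _
  have hmem : z₁ ∈ closedBall (0 : ℂ) |t| := by
    rw [mem_closedBall_zero_iff, htt]
    exact ht
  have hlogn : 0 ≤ Real.log (t * ‖z₁‖⁻¹) := by
    apply Real.log_nonneg
    rw [← div_eq_mul_inv, le_div_iff₀ (norm_pos_iff.2 hz1), one_mul]
    exact ht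
  have hnn : ∀ u, 0 ≤ (MeromorphicOn.divisor (fun z => s z - s z₁) (closedBall 0 |t|) u : ℝ) * Real.log (t * ‖0 - u‖⁻¹) := by
    intro u
    by_cases hu : u ∈ closedBall (0 : ℂ) |t|
    · have h4 : (0 : ℤ) ≤ MeromorphicOn.divisor (fun z => s z - s z₁) (closedBall 0 |t|) u :=
        (MeromorphicOn.AnalyticOnNhd.divisor_nonneg han) u
      have h5 : (0 : ℝ) ≤ MeromorphicOn.divisor (fun z => s z - s z₁) (closedBall 0 |t|) u := by exact_mod_cast h4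
      refine mul_nonneg h5 ?_
      by_cases hu0 : u = 0
      · simp [hu0]
      · apply Real.log_nonneg
        have h6 : 0 < ‖0 - u‖ := by simpa using hu0
        rw [← div_eq_mul_inv, le_div_iff₀ h6, one_mul]
        rw [mem_closedBall, dist_zero_right, htt] at hu
        simpa using hu
    · have : MeromorphicOn.divisor (fun z => s z - s z₁) (closedBall 0 |t|) u = 0 :=
        Function.locallyFinsuppWithin.apply_eq_zero_of_notMem _ hu
      rw [this]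
      simp
  have hfin : (Function.support fun u => (MeromorphicOn.divisor (fun z => s z - s z₁) (closedBall 0 |t|) u : ℝ) *
      Real.log (t * ‖0 - u‖⁻¹)).Finite := by
    refine ((MeromorphicOn.divisor (fun z => s z - s z₁) (closedBall 0 |t|)).finiteSupport (isCompact_closedBall 0 |t|)).subset ?_
    intro u hu
    simp only [Function.mem_support] at hu ⊢
    intro h
    apply hu
    rw [h]
    simp
  have hone : (1 : ℝ) ≤ (MeromorphicOn.divisor (fun z => s z - s z₁) (closedBall 0 |t|) z₁ : ℝ) := by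
    have hnt : analyticOrderAt (fun z => s z - s z₁) z₁ ≠ ⊤ := by
      intro h'
      rw [analyticOrderAt_eq_top] at h'
      have hall : ∀ z, s z - s z₁ = 0 := by
        have h2 : AnalyticOnNhd ℂ (fun z => s z - s z₁) Set.univ := fun z _ => (hs.analyticAt z).sub analyticAt_const
        intro z
        have := h2.eqOn_zero_of_preconnected_of_eventuallyEq_zero isPreconnected_univ (Set.mem_univ z₁) h'
        exact this (Set.mem_univ z)
      exact h0 (hall 0)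
    obtain ⟨n, hn⟩ := ENat.ne_top_iff_exists.1 hnt
    have hn0 : n ≠ 0 := by
      rintro rfl
      have h' : analyticOrderAt (fun z => s z - s z₁) z₁ = 0 := by rw [← hn]; rfl
      rw [(han z₁ hmem).analyticOrderAt_eq_zero] at h'
      exact h' (sub_self _)
    have e : MeromorphicOn.divisor (fun z => s z - s z₁) (closedBall 0 |t|) z₁ = (n : ℤ) := by
      rw [MeromorphicOn.AnalyticOnNhd.divisor_apply han hmem, ← hn]
      rfl
    rw [e]
    have : 1 ≤ n := Nat.one_le_iff_ne_zero.2 hn0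
    exact_mod_cast this
  have hs1 := single_le_finsum z₁ hfin hnn
  refine le_trans ?_ hs1
  have e0 : ‖(0 : ℂ) - z₁‖ = ‖z₁‖ := by simp
  rw [e0]
  exact le_mul_of_one_le_left hlogn hone

theorem growth {s : ℂ → ℂ} (hs : Differentiable ℂ s) (hne : ∃ z, s z ≠ s 0) {p : ℝ} (hp : 0 < p) (B : ℝ) :
    ∃ t₁ : ℝ, 0 < t₁ ∧ ∀ t, t₁ ≤ t → B ≤ Real.circleAverage (fun z => ‖s z‖ ^ p) 0 t := by
  obtain ⟨z₁, h1⟩ := hne
  have hz1 : z₁ ≠ 0 := fun h => h1 (by rw [h])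
  have hn1 : 0 < ‖z₁‖ := norm_pos_iff.2 hz1
  obtain ⟨q, hq⟩ : ∃ q : ℝ, q = 2 ^ p / p := ⟨_, rfl⟩
  have hq0 : 0 < q := by rw [hq]; positivity
  obtain ⟨K, hK⟩ : ∃ K : ℝ, K = q * (B + ‖s z₁‖ ^ p) - Real.log ‖s 0 - s z₁‖ := ⟨_, rfl⟩
  refine ⟨max ‖z₁‖ (‖z₁‖ * Real.exp K), lt_max_of_lt_left hn1, fun t ht => ?_⟩
  have ht1 : ‖z₁‖ ≤ t := (le_max_left _ _).trans ht
  have ht2 : ‖z₁‖ * Real.exp K ≤ t := (le_max_right _ _).trans ht
  have ht0 : 0 < t := hn1.trans_le ht1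
  have hJ := jensen_low hs h1 ht1 ht0
  have hlog : K ≤ Real.log (t * ‖z₁‖⁻¹) := by
    rw [Real.le_log_iff_exp_le (by positivity), ← div_eq_mul_inv, le_div_iff₀ hn1, mul_comm]
    exact ht2
  have hcs : Continuous fun z => ‖s z‖ ^ p := (hs.continuous.norm).rpow_const fun z => Or.inr hp.le
  have hint : CircleIntegrable (fun z => Real.log ‖s z - s z₁‖) 0 t := by
    have han : AnalyticOnNhd ℂ (fun z => s z - s z₁) (sphere 0 |t|) := fun z _ => (hs.analyticAt z).sub analyticAt_const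
    exact han.meromorphicOn.circleIntegrable_log_norm
  have hint2 : CircleIntegrable (fun z => q * (‖s z‖ ^ p + ‖s z₁‖ ^ p)) 0 t :=
    (continuous_const.mul (hcs.add continuous_const)).continuousOn.circleIntegrable'
  have hmono : Real.circleAverage (fun z => Real.log ‖s z - s z₁‖) 0 t ≤ Real.circleAverage (fun z => q * (‖s z‖ ^ p + ‖s z₁‖ ^ p)) 0 t := by
    refine Real.circleAverage_mono hint hint2 fun z _ => ?_
    have h2 := log_le_rpow hp (norm_nonneg (s z - s z₁))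
    have h3 : ‖s z - s z₁‖ ^ p ≤ 2 ^ p * (‖s z‖ ^ p + ‖s z₁‖ ^ p) :=
      (Real.rpow_le_rpow (norm_nonneg _) (norm_sub_le _ _) hp.le).trans (add_rpow_le_two hp (norm_nonneg _) (norm_nonneg _))
    calc Real.log ‖s z - s z₁‖ ≤ ‖s z - s z₁‖ ^ p / p := h2
      _ ≤ (2 ^ p * (‖s z‖ ^ p + ‖s z₁‖ ^ p)) / p := div_le_div_of_nonneg_right h3 hp.le
      _ = q * (‖s z‖ ^ p + ‖s z₁‖ ^ p) := by rw [hq]; ring
  have hval : Real.circleAverage (fun z => q * (‖s z‖ ^ p + ‖s z₁‖ ^ p)) 0 t = q * (Real.circleAverage (fun z => ‖s z‖ ^ p) 0 t + ‖s z₁‖ ^ p) := by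
    have e1 : (fun z => q * (‖s z‖ ^ p + ‖s z₁‖ ^ p)) = fun z => q • (‖s z‖ ^ p + ‖s z₁‖ ^ p) := rfl
    rw [e1, Real.circleAverage_fun_smul, Real.circleAverage_fun_add hcs.continuousOn.circleIntegrable' (circleIntegrable_const _ _ _),
      Real.circleAverage_const, smul_eq_mul]
  rw [hval] at hmono
  have h4 : q * (B + ‖s z₁‖ ^ p) ≤ q * (Real.circleAverage (fun z => ‖s z‖ ^ p) 0 t + ‖s z₁‖ ^ p) := by
    have : K + Real.log ‖s 0 - s z₁‖ = q * (B + ‖s z₁‖ ^ p) := by rw [hK]; ring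
    linarith
  have h5 := le_of_mul_le_mul_left h4 hq0
  linarith

end Pool.Agent.H15.V

end

section

/-!
# V Liou: differentials of bounded weight are constant along entire curves of order two

`F` is an entire curve (without zeros) with `mean log ‖F‖ ≤ A (1 + r²)` over the circles of radius `r`, and `s` is an entire function with
`‖s‖ ≤ C fs (F, F') ^ m`.  Then `s` is constant.

If not, then the averages of `‖s‖ ^ (2/m)` over large circles are large (`growth`), so the averages of `fs²` over finitely many rotations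
are large on `t₁ ≤ ‖z‖ ≤ r` (`riemann`); the product of the functions `‖F (rot z)‖ ^ (1/N)` is compared with the radial function
`β z = b (‖z‖² - t₁² - 2 t₁² log (‖z‖ / t₁))` (`barrier`).
-/

set_option autoImplicit false

open Topology Filter Metric

namespace Pool.Agent.H15.V

attribute [-instance] ProperSMul.toContinuousSMul

open Pool.Agent.H36.BP (EN fs wd Sub)

variable {N : ℕ}

/-- an entire function which is bounded by a power of the Fubini-Study derivative of an entire curve of order two is constant -/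
theorem liouville {F : ℂ → EN N} (hF : Differentiable ℂ F) (h0 : ∀ z, F z ≠ 0) {s : ℂ → ℂ} (hs : Differentiable ℂ s) {m : ℕ}
    (hm : 1 ≤ m) {C : ℝ} (hC : ∀ z, ‖s z‖ ≤ C * fs (F z) (deriv F z) ^ m) {A : ℝ}
    (hA : ∀ r : ℝ, 0 < r → Real.circleAverage (fun z => Real.log ‖F z‖) 0 r ≤ A * (1 + r ^ 2)) : ∀ z, s z = s 0 := by
  by_contra hcon
  push Not at hcon
  have hm0 : (0 : ℝ) < m := by exact_mod_cast hm
  obtain ⟨p, hp⟩ : ∃ p : ℝ, p = 2 / m := ⟨_, rfl⟩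
  have hp0 : 0 < p := by rw [hp]; positivity
  obtain ⟨K, hK⟩ : ∃ K : ℝ, K = (max C 1) ^ p := ⟨_, rfl⟩
  have hC1 : 0 < max C 1 := lt_max_of_lt_right one_pos
  have hK0 : 0 < K := by rw [hK]; exact Real.rpow_pos_of_pos hC1 _
  have hle : ∀ z, ‖s z‖ ^ p ≤ K * fs (F z) (deriv F z) ^ 2 := by
    intro z
    have hfs := Pool.Agent.H36.BP.fs_nonneg (F z) (deriv F z)
    have h1 : ‖s z‖ ≤ max C 1 * fs (F z) (deriv F z) ^ m :=
      (hC z).trans (mul_le_mul_of_nonneg_right (le_max_left _ _) (by positivity))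
    have h2 := Real.rpow_le_rpow (norm_nonneg _) h1 hp0.le
    rw [Real.mul_rpow hC1.le (by positivity), ← hK] at h2
    have h3 : (fs (F z) (deriv F z) ^ m) ^ p = fs (F z) (deriv F z) ^ 2 := by
      rw [← Real.rpow_natCast, ← Real.rpow_mul hfs, hp]
      have : (m : ℝ) * (2 / m) = 2 := by field_simp
      rw [this, Real.rpow_two]
    rwa [h3] at h2
  obtain ⟨b, hb⟩ : ∃ b : ℝ, b = |A| + 1 := ⟨_, rfl⟩
  have hb0 : 0 < b := by rw [hb]; positivity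
  obtain ⟨t₁, ht, hgrow⟩ := growth hs hcon hp0 (2 * b * K + 1)
  have hcs : Continuous fun z => ‖s z‖ ^ p := (hs.continuous.norm).rpow_const fun z => Or.inr hp0.le
  have hineq : ∀ r, t₁ < r → bar b t₁ r ≤ A * (1 + r ^ 2) - Real.log ‖F 0‖ + 2 := by
    intro r hr
    obtain ⟨n, hn, hnr⟩ := riemann hcs (ht.trans hr) one_pos
    have hn0 : (0 : ℝ) < n := by exact_mod_cast hn
    have h1 := barrier hF h0 hn hb0 ht hr (by
      intro z hz1 hz2
      have h2 := (abs_le.1 (hnr z hz2)).1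
      have h3 := hgrow ‖z‖ hz1
      have h4 : (n : ℝ)⁻¹ * ∑ j ∈ Finset.range n, ‖s (rot n j * z)‖ ^ p ≤
          (n : ℝ)⁻¹ * ∑ j ∈ Finset.range n, K * fs (F (rot n j * z)) (deriv F (rot n j * z)) ^ 2 :=
        mul_le_mul_of_nonneg_left (Finset.sum_le_sum fun j _ => hle _) (inv_pos.2 hn0).le
      have h5 : (n : ℝ)⁻¹ * ∑ j ∈ Finset.range n, K * fs (F (rot n j * z)) (deriv F (rot n j * z)) ^ 2 =
          2 * K * ((n : ℝ)⁻¹ * ∑ j ∈ Finset.range n, fs (F (rot n j * z)) (deriv F (rot n j * z)) ^ 2 / 2) := by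
        rw [← Finset.mul_sum, ← Finset.sum_div]
        ring
      rw [h5] at h4
      have h6 : 2 * K * b ≤ 2 * K * ((n : ℝ)⁻¹ * ∑ j ∈ Finset.range n, fs (F (rot n j * z)) (deriv F (rot n j * z)) ^ 2 / 2) := by
        linarith
      exact le_of_mul_le_mul_left h6 (by positivity))
    have h2 := hA r (ht.trans hr)
    linarith
  obtain ⟨D, hD⟩ : ∃ D : ℝ, D = b * t₁ ^ 2 + |A| + |Real.log ‖F 0‖| + 2 := ⟨_, rfl⟩
  have hD0 : 0 < D := by
    have h1 := abs_nonneg A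
    have h2 := abs_nonneg (Real.log ‖F 0‖)
    have h3 : 0 < b * t₁ ^ 2 := by positivity
    rw [hD]
    linarith
  obtain ⟨r, hr⟩ : ∃ r : ℝ, r = 2 * b * t₁ + D + 1 + t₁ := ⟨_, rfl⟩
  have hr1 : t₁ < r := by
    have : 0 < 2 * b * t₁ := by positivity
    linarith
  have hr0 : 0 < r := ht.trans hr1
  have h1 := hineq r hr1
  rw [bar] at h1
  have hlog : Real.log (r / t₁) ≤ r / t₁ := (Real.log_le_sub_one_of_pos (by positivity)).trans (by linarith)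
  have h2 : 2 * t₁ ^ 2 * Real.log (r / t₁) ≤ 2 * t₁ * r := by
    calc 2 * t₁ ^ 2 * Real.log (r / t₁) ≤ 2 * t₁ ^ 2 * (r / t₁) := mul_le_mul_of_nonneg_left hlog (by positivity)
      _ = 2 * t₁ * r := by field_simp
  have h3 : b * (r ^ 2 - t₁ ^ 2 - 2 * t₁ * r) ≤ b * (r ^ 2 - t₁ ^ 2 - 2 * t₁ ^ 2 * Real.log (r / t₁)) :=
    mul_le_mul_of_nonneg_left (by linarith) hb0.le
  have h4 : A * (1 + r ^ 2) ≤ |A| * (1 + r ^ 2) := mul_le_mul_of_nonneg_right (le_abs_self A) (by positivity)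
  have h5 := neg_abs_le (Real.log ‖F 0‖)
  have h6 : b * r ^ 2 = |A| * r ^ 2 + r ^ 2 := by rw [hb]; ring
  have h7 : r ^ 2 ≤ 2 * b * t₁ * r + D := by
    rw [hD]
    linarith
  have h8 : r ^ 2 = 2 * b * t₁ * r + (D + 1 + t₁) * r := by
    rw [hr]
    ring
  have h9 : D < (D + 1 + t₁) * r := by
    have hr2 : 1 ≤ r := by
      have : 0 < 2 * b * t₁ := by positivity
      linarith
    have hD1 : 0 ≤ D + 1 + t₁ := by positivity
    linarith [le_mul_of_one_le_right hD1 hr2]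
  linarith

end Pool.Agent.H15.V

end

section

/-!
# EL Un: the integral along short paths in the fibres

`cap_mem`: `Cap` at `(z₀, y₀)` of radius `r`: `x ∈ X` over `z ∈ closedBall z₀ r` with `dist (pr x) y₀ ≤ r`.

`IRel.eq_cap`: let `χ', c', ρ', A', p, p'` be from `IRel`; `v = (A' p' - A' p) / ρ'`.  Let `γ θ = χ'.σ (p + θ (p' - p))`, `θ ∈ [0, 1]`: points of `X`; the first coordinate of `p + θ (p' - p)` is
constant, `u (γ θ) - z ∈ Λ` (`Mon.lift`, `mo c' ρ' 1 0 (p + θ (p' - p)) = c' + ρ' p.1 = z`), `dist (pr (γ θ)) y₀ ≤ ε + dist y y₀ ≤ r`.  By `Cap` `γ θ ∈ χ.U`, `τ = χ.q ∘ χ'.σ` is analytic near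
these points, with values in `closedBall 0 1`, and `c + ρ (τ ..).1 = z`.  Near each point `p_θ = p + θ (p' - p)` we even have `c + ρ (τ y).1 = c' + ρ' y.1` [only at `p_θ` known from `Cap`;
for the derivative: for `y` near `p_θ` with `c' + ρ' y.1 ∈ closedBall z₀ r` the point `χ'.σ y` may leave the ball of radius `r`; use instead: both sides are analytic near `p_θ`, equal at
`p_θ`, and their difference is in `Λ` (`Mon.lift` of both charts, `τ y ∈ ball 0 2` by `Chart.surj`), which is discrete, so it is `0` near `p_θ`].  So `ρ ∂₁ τ₁ = ρ'`, `∂₂ τ₁ = 0` at `p_θ`, and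
`tc_trans` (`υ = mo c ρ 1 0`, `υ' = mo c' ρ' 1 0`): `tc' (p_θ) = tc (τ p_θ) (∂₁τ₁ ∂₂τ₂) = tc (τ p_θ) (ρ' / ρ) ∂₂τ₂`.  Hence the functions `θ ↦ A' (p_θ) / ρ'` and `θ ↦ A (τ p_θ) / ρ` have the
same derivative on `[0, 1]`: `tc' (p_θ) (p'.2 - p.2) / ρ'` and `(∂₂A) (τ p_θ) ∂₂τ₂ (p'.2 - p.2) / ρ` (`(p' - p).1 = 0` and `∂₂ τ₁ = 0`).  So `v = (A (τ p') - A (τ p)) / ρ`, and `τ p = χ.q x`, because
`χ'.σ p` and `x` are proportional (`pr` equal, `pr_eq_iff`, `q_smul`); same for `p'`, `x'`.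

`II_eq`: `II = h.choose`, which satisfies `IRel`.
`IRel.mulPow`: the same chart and points, `A₁ q = (mo c ρ 1 0 q - b)^n * A q` (`mo c ρ 1 0 q` does not depend on `q.2`, so `∂₂ A₁ = (mo - b)^n ∂₂ A`, and `tc (α.mulPow b n) = (mo - b)^n tc α`); at
`p, p'`: `mo = z`.
`II_mulPow`: if there is `v` with `IRel α ε z y y' v` then both sides are the unique values (`eq_cap` for the two forms with the primitives `A`, `A₁`).
-/

set_option autoImplicit false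

open Topology Filter Metric

namespace Pool.Agent.H62.EL

attribute [-instance] ProperSMul.toContinuousSMul

open Pool.Agent.H36.BP (EN fs wd IsGermChart)
open Pool.Agent.H14.PP (IsCone Chart Tan CurveAt jac)
open Pool.Agent.H62.EF (Lat MN pr TorusMap Sec Charts DU)

variable {N : ℕ} {X : Set (EN N)} {Λ : AddSubgroup ℂ} {u : EN N → ℂ}

/-- The point of the segment. -/
private noncomputable def Un_P (p p' : ℂ × ℂ) (t : ℂ) : ℂ × ℂ := p + t • (p' - p)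

private theorem Un_mo (c : ℂ) (ρ : ℝ) (p : ℂ × ℂ) : mo c ρ 1 0 p = c + ρ * p.1 := by
  simp [mo]

private theorem Un_P_mem {p p' : ℂ × ℂ} (hp : p ∈ ball (0 : ℂ × ℂ) 2) (hp' : p' ∈ ball (0 : ℂ × ℂ) 2) {θ : ℝ} (hθ : θ ∈ Set.Icc (0 : ℝ) 1) :
    Un_P p p' (θ : ℂ) ∈ ball (0 : ℂ × ℂ) 2 := by
  have hc : Convex ℝ (ball (0 : ℂ × ℂ) 2) := convex_ball _ _
  have h1 := hc.add_smul_sub_mem hp hp' hθ
  have h2 : Un_P p p' (θ : ℂ) = p + θ • (p' - p) := by
    unfold Un_P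
    congr 1
  rwa [h2]

private theorem Un_vert (L : ℂ × ℂ →L[ℂ] ℂ) (d : ℂ × ℂ) (hd : d.1 = 0) : L d = d.2 * L (0, 1) := by
  have h1 : d = d.2 • ((0, 1) : ℂ × ℂ) := by
    ext
    · simp [hd]
    · simp
  conv_lhs => rw [h1]
  rw [map_smul, smul_eq_mul]

/-- The change of charts along the segment. -/
private theorem Un_trans (hX : IsCone X) (hu : TorusMap X Λ u) (hΛ : Lat Λ) {χ χ' : Chart X} {c c' : ℂ} {ρ ρ' : ℝ}
    (hm : Mon Λ u χ c ρ 1 0) (hm' : Mon Λ u χ' c' ρ' 1 0) {q : ℂ × ℂ} (hq : q ∈ ball (0 : ℂ × ℂ) 2) (hU : χ'.σ q ∈ χ.U)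
    (he : c + ρ * (χ.q (χ'.σ q)).1 = c' + ρ' * q.1) :
    ∀ᶠ y in 𝓝 q, c + ρ * (χ.q (χ'.σ y)).1 = c' + ρ' * y.1 := by
  obtain ⟨δ, hδ, hdisc⟩ := hΛ.discrete
  have hσ : ContinuousAt χ'.σ q := (χ'.σ_an q hq).continuousAt
  have hτ : ContinuousAt (fun y => χ.q (χ'.σ y)) q := (χ.q_an _ hU).continuousAt.comp hσ
  have hτ1 : ContinuousAt (fun y => (χ.q (χ'.σ y)).1) q := continuous_fst.continuousAt.comp hτ
  have hcont : ContinuousAt (fun y : ℂ × ℂ => c + ρ * (χ.q (χ'.σ y)).1 - (c' + ρ' * y.1)) q := by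
    refine (continuousAt_const.add (continuousAt_const.mul hτ1)).sub ?_
    exact continuousAt_const.add (continuousAt_const.mul continuous_fst.continuousAt)
  have hsmall : ∀ᶠ y in 𝓝 q, ‖c + ρ * (χ.q (χ'.σ y)).1 - (c' + ρ' * y.1)‖ < δ := by
    have h1 := hcont.norm
    have h2 : ‖c + ρ * (χ.q (χ'.σ q)).1 - (c' + ρ' * q.1)‖ < δ := by
      rw [he, sub_self, norm_zero]
      exact hδ
    exact h1.eventually_lt_const h2
  filter_upwards [hsmall, isOpen_ball.mem_nhds hq, hσ (χ.isOpen_U.mem_nhds hU)] with y h1 h2 h3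
  have hyX := (χ'.σ_mem y h2).1
  obtain ⟨hb, a, ha, hay⟩ := χ.surj _ hyX h3
  have h4 := hm'.lift y h2
  have h5 := hm.lift _ hb
  have h6 : u (χ'.σ y) - u (χ.σ (χ.q (χ'.σ y))) ∈ Λ := by
    have := hu.smul _ (χ.σ_mem _ hb).1 a ha
    rwa [← hay] at this
  rw [Un_mo] at h4 h5
  have h7 : c + ρ * (χ.q (χ'.σ y)).1 - (c' + ρ' * y.1) ∈ Λ := by
    have h8 := Λ.sub_mem (Λ.sub_mem h4 h6) h5
    convert h8 using 1
    ring
  exact sub_eq_zero.mp (hdisc _ h7 h1)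

/-- The derivatives of the two primitives agree. -/
private theorem Un_deriv (hX : IsCone X) (hu : TorusMap X Λ u) (hΛ : Lat Λ) (α : TForm X Λ u) {χ χ' : Chart X} {c c' : ℂ} {ρ ρ' : ℝ}
    (hm : Mon Λ u χ c ρ 1 0) (hm' : Mon Λ u χ' c' ρ' 1 0) {A A' : ℂ × ℂ → ℂ} (hA : IsPrim α χ (mo c ρ 1 0) A)
    (hA' : IsPrim α χ' (mo c' ρ' 1 0) A') {q : ℂ × ℂ} (hq : q ∈ ball (0 : ℂ × ℂ) 2) (hU : χ'.σ q ∈ χ.U)
    (he : c + ρ * (χ.q (χ'.σ q)).1 = c' + ρ' * q.1) {d : ℂ × ℂ} (hd : d.1 = 0) :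
    HasFDerivAt (fun y => A (χ.q (χ'.σ y))) (fderiv ℂ (fun y => A (χ.q (χ'.σ y))) q) q ∧
      fderiv ℂ A' q d / ρ' = fderiv ℂ (fun y => A (χ.q (χ'.σ y))) q d / ρ := by
  have hρ : (ρ : ℂ) ≠ 0 := by exact_mod_cast hm.pos.ne'
  have hρ' : (ρ' : ℂ) ≠ 0 := by exact_mod_cast hm'.pos.ne'
  have hσ : HasFDerivAt χ'.σ (fderiv ℂ χ'.σ q) q := (χ'.σ_an q hq).differentiableAt.hasFDerivAt
  have hb : χ.q (χ'.σ q) ∈ ball (0 : ℂ × ℂ) 2 := (χ.surj _ (χ'.σ_mem q hq).1 hU).1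
  have hτ : HasFDerivAt (fun y => χ.q (χ'.σ y)) (fderiv ℂ (fun y => χ.q (χ'.σ y)) q) q :=
    ((χ.q_an _ hU).differentiableAt.comp q (χ'.σ_an q hq).differentiableAt).hasFDerivAt
  have hAd : HasFDerivAt A (fderiv ℂ A (χ.q (χ'.σ q))) (χ.q (χ'.σ q)) := (hA.an _ hb).differentiableAt.hasFDerivAt
  have hcomp : HasFDerivAt (fun y => A (χ.q (χ'.σ y))) ((fderiv ℂ A (χ.q (χ'.σ q))).comp (fderiv ℂ (fun y => χ.q (χ'.σ y)) q)) q :=
    hAd.comp q hτ
  set D := fderiv ℂ (fun y => χ.q (χ'.σ y)) q with hD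
  have hfst : ∀ w : ℂ × ℂ, ρ * (D w).1 = ρ' * w.1 := by
    intro w
    have h1 := Un_trans hX hu hΛ hm hm' hq hU he
    have h2 : HasFDerivAt (fun y : ℂ × ℂ => c + ρ * (χ.q (χ'.σ y)).1)
        ((ρ : ℂ) • ((ContinuousLinearMap.fst ℂ ℂ ℂ).comp D)) q := by
      have h3 : HasFDerivAt (fun y => (χ.q (χ'.σ y)).1) ((ContinuousLinearMap.fst ℂ ℂ ℂ).comp D) q :=
        (ContinuousLinearMap.fst ℂ ℂ ℂ).hasFDerivAt.comp q hτ
      exact (h3.const_mul (ρ : ℂ)).const_add c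
    have h4 : HasFDerivAt (fun y : ℂ × ℂ => c' + ρ' * y.1) ((ρ' : ℂ) • (ContinuousLinearMap.fst ℂ ℂ ℂ)) q :=
      ((ContinuousLinearMap.fst ℂ ℂ ℂ).hasFDerivAt.const_mul (ρ' : ℂ)).const_add c'
    have h5 : HasFDerivAt (fun y : ℂ × ℂ => c + ρ * (χ.q (χ'.σ y)).1) ((ρ' : ℂ) • (ContinuousLinearMap.fst ℂ ℂ ℂ)) q :=
      h4.congr_of_eventuallyEq h1
    have h6 := h2.unique h5
    have h7 := congrArg (fun L : ℂ × ℂ →L[ℂ] ℂ => L w) h6
    simpa using h7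
  have hDd : (D d).1 = 0 := by
    have h1 := hfst d
    rw [hd, mul_zero] at h1
    exact (mul_eq_zero.mp h1).resolve_left hρ
  have hD01 : (D (0, 1)).1 = 0 := by
    have h1 := hfst (0, 1)
    simp only [mul_zero] at h1
    exact (mul_eq_zero.mp h1).resolve_left hρ
  have hD10 : (D (1, 0)).1 = ρ' / ρ := by
    have h1 := hfst (1, 0)
    simp only [mul_one] at h1
    field_simp
    rw [← h1]
    ring
  have hD2 : (D d).2 = d.2 * (D (0, 1)).2 := by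
    have h1 := Un_vert ((ContinuousLinearMap.snd ℂ ℂ ℂ).comp D) d hd
    simpa using h1
  have htc := tc_trans hX hu α χ χ' (υ := mo c ρ 1 0) (υ' := mo c' ρ' 1 0) hq hU (hm'.lift q hq)
    (by rw [Un_mo, Un_mo]; exact he)
  have hjac : jac (fun y => χ.q (χ'.σ y)) q = ρ' / ρ * (D (0, 1)).2 := by
    unfold jac
    rw [← hD, hD10, hD01]
    ring
  refine ⟨by rw [hcomp.fderiv]; exact hcomp, ?_⟩
  rw [hcomp.fderiv, ContinuousLinearMap.comp_apply, Un_vert _ _ hDd, hA.der _ hb, hD2, Un_vert _ _ hd, hA'.der _ hq, htc, hjac]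
  field_simp

theorem IRel.eq_cap (hX : IsCone X) (hu : TorusMap X Λ u) (hΛ : Lat Λ) {α : TForm X Λ u} {ε : ℝ} {z v : ℂ} {y y' : MN N}
    (h : IRel α ε z y y' v) {χ : Chart X} {c : ℂ} {ρ : ℝ} {z₀ : ℂ} {y₀ : MN N} {r : ℝ} (hc : Cap Λ u χ c ρ z₀ y₀ r)
    {A : ℂ × ℂ → ℂ} (hA : IsPrim α χ (mo c ρ 1 0) A) (hz : z ∈ closedBall z₀ r) (hy : dist y y₀ + ε ≤ r) {x x' : EN N}
    (hx : x ∈ X) (hx' : x' ∈ X) (hxy : pr x = y) (hxy' : pr x' = y') : v = (A (χ.q x') - A (χ.q x)) / ρ := by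
  obtain ⟨χ', c', ρ', A', p, p', hm', hA', hp, hp', hpz, hpz', hpy, hpy', hseg, hv⟩ := h
  have hm := hc.mon
  have hρ : (ρ : ℂ) ≠ 0 := by exact_mod_cast hm.pos.ne'
  have hρ' : (ρ' : ℂ) ≠ 0 := by exact_mod_cast hm'.pos.ne'
  have hd : (p' - p).1 = 0 := by
    have h1 : (ρ' : ℂ) * (p'.1 - p.1) = 0 := by linear_combination hpz' - hpz
    exact (mul_eq_zero.mp h1).resolve_left hρ'
  have hP1 : ∀ t : ℂ, (Un_P p p' t).1 = p.1 := by
    intro t
    have h1 : (Un_P p p' t).1 = p.1 + t * (p' - p).1 := rfl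
    rw [h1, hd, mul_zero, add_zero]
  have hcap : ∀ θ ∈ Set.Icc (0 : ℝ) 1, χ'.σ (Un_P p p' (θ : ℂ)) ∈ χ.U ∧
      c + ρ * (χ.q (χ'.σ (Un_P p p' (θ : ℂ)))).1 = c' + ρ' * (Un_P p p' (θ : ℂ)).1 := by
    intro θ hθ
    have hb := Un_P_mem hp hp' hθ
    have h1 : u (χ'.σ (Un_P p p' (θ : ℂ))) - z ∈ Λ := by
      have h2 := hm'.lift _ hb
      rwa [Un_mo, hP1, hpz] at h2
    have h2 : dist (pr (χ'.σ (Un_P p p' (θ : ℂ)))) y₀ ≤ r := by
      have h3 : dist (pr (χ'.σ (Un_P p p' (θ : ℂ)))) y ≤ ε := hseg θ hθ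
      linarith [dist_triangle (pr (χ'.σ (Un_P p p' (θ : ℂ)))) y y₀]
    obtain ⟨h3, _, h4⟩ := hc.cap z hz _ (χ'.σ_mem _ hb).1 h1 h2
    exact ⟨h3, by rw [h4, hP1, hpz]⟩
  set f : ℝ → ℂ := fun θ => A' (Un_P p p' (θ : ℂ)) / ρ' - A (χ.q (χ'.σ (Un_P p p' (θ : ℂ)))) / ρ with hf
  have hder : ∀ θ ∈ Set.Icc (0 : ℝ) 1, HasDerivAt f 0 θ := by
    intro θ hθ
    have hb := Un_P_mem hp hp' hθ
    obtain ⟨h1, h2⟩ := Un_deriv hX hu hΛ α hm hm' hA hA' hb (hcap θ hθ).1 (hcap θ hθ).2 hd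
    have hPd : HasDerivAt (fun t : ℂ => Un_P p p' t) (p' - p) (θ : ℂ) := by
      have h3 := ((hasDerivAt_id (θ : ℂ)).smul_const (p' - p)).const_add p
      rw [one_smul] at h3
      exact h3
    have h4 : HasDerivAt (fun t : ℂ => A' (Un_P p p' t)) (fderiv ℂ A' (Un_P p p' (θ : ℂ)) (p' - p)) (θ : ℂ) :=
      (hA'.an _ hb).differentiableAt.hasFDerivAt.comp_hasDerivAt (θ : ℂ) hPd
    have h5 : HasDerivAt (fun t : ℂ => A (χ.q (χ'.σ (Un_P p p' t))))
        (fderiv ℂ (fun y => A (χ.q (χ'.σ y))) (Un_P p p' (θ : ℂ)) (p' - p)) (θ : ℂ) :=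
      h1.comp_hasDerivAt (θ : ℂ) hPd
    have h6 := ((h4.div_const (ρ' : ℂ)).sub (h5.div_const (ρ : ℂ))).comp_ofReal
    rw [h2, sub_self] at h6
    exact h6
  have hconst := constant_of_has_deriv_right_zero (f := f) (a := 0) (b := 1)
    (fun θ hθ => (hder θ hθ).continuousAt.continuousWithinAt)
    (fun θ hθ => (hder θ ⟨hθ.1, hθ.2.le⟩).hasDerivWithinAt) 1 ⟨zero_le_one, le_rfl⟩
  have hP0 : Un_P p p' ((0 : ℝ) : ℂ) = p := by
    unfold Un_P
    simp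
  have hP1' : Un_P p p' ((1 : ℝ) : ℂ) = p' := by
    unfold Un_P
    simp
  have hX0 : ∀ w ∈ X, w ≠ 0 := fun w hw h => hX.zero_notMem (h ▸ hw)
  have hq : χ.q x = χ.q (χ'.σ p) := by
    have hU := (hcap 0 ⟨le_rfl, zero_le_one⟩).1
    rw [hP0] at hU
    obtain ⟨a, ha, hax⟩ := (Pool.Agent.H62.EF.pr_eq_iff (hX0 x hx) (hX0 _ (χ'.σ_mem p hp).1)).mp (hxy.trans hpy.symm)
    rw [hax]
    exact χ.q_smul _ hU a ha
  have hq' : χ.q x' = χ.q (χ'.σ p') := by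
    have hU := (hcap 1 ⟨zero_le_one, le_rfl⟩).1
    rw [hP1'] at hU
    obtain ⟨a, ha, hax⟩ := (Pool.Agent.H62.EF.pr_eq_iff (hX0 x' hx') (hX0 _ (χ'.σ_mem p' hp').1)).mp (hxy'.trans hpy'.symm)
    rw [hax]
    exact χ.q_smul _ hU a ha
  simp only [hf] at hconst
  rw [hP0, hP1'] at hconst
  rw [hv, hq, hq']
  rw [sub_div, sub_div]
  linear_combination hconst

theorem II_eq (hX : IsCone X) (hu : TorusMap X Λ u) (hΛ : Lat Λ) {α : TForm X Λ u} {ε : ℝ} {z : ℂ} {y y' : MN N}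
    (h : ∃ v, IRel α ε z y y' v) {χ : Chart X} {c : ℂ} {ρ : ℝ} {z₀ : ℂ} {y₀ : MN N} {r : ℝ} (hc : Cap Λ u χ c ρ z₀ y₀ r)
    {A : ℂ × ℂ → ℂ} (hA : IsPrim α χ (mo c ρ 1 0) A) (hz : z ∈ closedBall z₀ r) (hy : dist y y₀ + ε ≤ r) {x x' : EN N}
    (hx : x ∈ X) (hx' : x' ∈ X) (hxy : pr x = y) (hxy' : pr x' = y') : II α ε z y y' = (A (χ.q x') - A (χ.q x)) / ρ := by
  have h1 : II α ε z y y' = h.choose := by
    unfold II
    rw [dif_pos h]
  rw [h1]
  exact IRel.eq_cap hX hu hΛ h.choose_spec hc hA hz hy hx hx' hxy hxy'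

private theorem Un_prim {α : TForm X Λ u} {χ : Chart X} {c : ℂ} {ρ : ℝ} {A : ℂ × ℂ → ℂ} (hA : IsPrim α χ (mo c ρ 1 0) A) (b : ℂ) (n : ℕ) :
    IsPrim (α.mulPow b n) χ (mo c ρ 1 0) (fun q => (mo c ρ 1 0 q - b) ^ n * A q) := by
  refine ⟨fun p hp => ?_, fun p hp => ?_, fun s hs => ?_⟩
  · exact (((mo_an c ρ 1 0 p).sub analyticAt_const).pow n).mul (hA.an p hp)
  · have h1 : HasFDerivAt (fun q : ℂ × ℂ => mo c ρ 1 0 q - b) ((ρ : ℂ) • (ContinuousLinearMap.fst ℂ ℂ ℂ)) p := by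
      have h2 : (fun q : ℂ × ℂ => mo c ρ 1 0 q - b) = fun q => c + ρ * q.1 - b := by
        funext q
        rw [Un_mo]
      rw [h2]
      exact (((ContinuousLinearMap.fst ℂ ℂ ℂ).hasFDerivAt.const_mul (ρ : ℂ)).const_add c).sub_const b
    have h3 := h1.pow n
    have h4 := h3.mul (hA.an p hp).differentiableAt.hasFDerivAt
    have h5 : fderiv ℂ (fun q => (mo c ρ 1 0 q - b) ^ n * A q) p = _ := h4.fderiv
    rw [h5]
    simp only [ContinuousLinearMap.add_apply, ContinuousLinearMap.smul_apply, ContinuousLinearMap.coe_fst', smul_eq_mul, mul_zero,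
      add_zero, hA.der p hp]
    rfl
  · simp only [hA.zero s hs, mul_zero]

theorem IRel.mulPow {α : TForm X Λ u} {ε : ℝ} {z v : ℂ} {y y' : MN N} (h : IRel α ε z y y' v) (b : ℂ) (n : ℕ) :
    IRel (α.mulPow b n) ε z y y' ((z - b) ^ n * v) := by
  obtain ⟨χ', c', ρ', A', p, p', hm', hA', hp, hp', hpz, hpz', hpy, hpy', hseg, hv⟩ := h
  refine ⟨χ', c', ρ', fun q => (mo c' ρ' 1 0 q - b) ^ n * A' q, p, p', hm', Un_prim hA' b n, hp, hp', hpz, hpz', hpy, hpy', hseg, ?_⟩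
  simp only [Un_mo]
  rw [hpz, hpz', hv]
  ring

theorem II_mulPow (hX : IsCone X) (hu : TorusMap X Λ u) (hΛ : Lat Λ) {α : TForm X Λ u} {ε : ℝ} {z : ℂ} {y y' : MN N}
    (h : ∃ v, IRel α ε z y y' v) {χ : Chart X} {c : ℂ} {ρ : ℝ} {z₀ : ℂ} {y₀ : MN N} {r : ℝ} (hc : Cap Λ u χ c ρ z₀ y₀ r)
    (hz : z ∈ closedBall z₀ r) (hy : dist y y₀ + ε ≤ r) (b : ℂ) (n : ℕ) :
    II (α.mulPow b n) ε z y y' = (z - b) ^ n * II α ε z y y' := by
  obtain ⟨v, hv⟩ := h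
  obtain ⟨A, hA⟩ := exists_prim α χ hc.mon
  obtain ⟨x, hx, hxy, x', hx', hxy'⟩ : ∃ x ∈ X, pr x = y ∧ ∃ x' ∈ X, pr x' = y' := by
    obtain ⟨χ', c', ρ', A', p, p', _, _, hp, hp', _, _, hpy, hpy', _, _⟩ := hv
    exact ⟨_, (χ'.σ_mem p hp).1, hpy, _, (χ'.σ_mem p' hp').1, hpy'⟩
  rw [II_eq hX hu hΛ ⟨v, hv⟩ hc hA hz hy hx hx' hxy hxy',
    II_eq hX hu hΛ ⟨_, hv.mulPow b n⟩ hc (Un_prim hA b n) hz hy hx hx' hxy hxy',
    ← IRel.eq_cap hX hu hΛ hv hc hA hz hy hx hx' hxy hxy',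
    ← IRel.eq_cap hX hu hΛ (hv.mulPow b n) hc (Un_prim hA b n) hz hy hx hx' hxy hxy']

end Pool.Agent.H62.EL

end
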