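import Pool.Agent.H94.CB.H36.BP.WdA_2
import Pool.Agent.H94.CB.H62.EL.Defs
import Pool.Agent.H94.CB.M18
import Pool.Agent.H94.CB.M41

/-! The parts of this file: H62.EF.DUl, H62.EF.SecL_1, H62.EL.ChN, H62.EL.StC. -/

section

/-!
# EF DUl: the derivative of `u`

* `chart_imm`: let `x = χ.σ p`, `v = dσ_p e`, `wd x v = 0`, so `v = a • x` (`x ≠ 0` because `0 ∉ X`).  `χ.q (χ.σ p') = p'` near `p` gives
  `dq_x (dσ_p e) = e`; `χ.q (c • x) = χ.q x` for `c ≠ 0` gives `dq_x x = 0`.  So `e = dq_x v = a dq_x x = 0`.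
* `key`: let `v` be a local lift of `u` at `x` (`TorusMap.loc`), `γ`, `D` as in `DU`: `D - v ∘ γ` is continuous near `0` with values in `Λ`
  (`u (γ z) - v (γ z) ∈ Λ`), so constant near `0`, `D' 0 = dv_x (γ' 0)`.  `DU.unique` follows.
* `DU.of_chart`: `γ z = χ.σ (p + z e)`, `D z = υ (p + z e)`.
* `DU.chart`: near `0`, `γ z ∈ X ∩ χ.U`, `π z = χ.q (γ z)` is analytic with `π 0 = p`, and `γ z = a z • χ.σ (π z)` with
  `a z ≠ 0` (`surj`); `a` is analytic (e.g. `a z = ⟨χ.σ p, γ z⟩ / ⟨χ.σ p, χ.σ (π z)⟩`, near `0`), `a 0 = 1` (`γ 0 = χ.σ p ≠ 0`); so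
  `v = γ' 0 = dσ_p (π' 0) + a' 0 • χ.σ p`, and `u (γ z) - υ (π z) ∈ Λ` near `0` (`smul`, `lift`), so `D - υ ∘ π` is constant near `0` and
  `c = dυ_p (π' 0)`.
* `DU.smul`: `c • γ`.
* `DU.of_sec`: `γ z = F (z₀ + z)`, `D z = z₀ + z`.
* `exists_adm`: take the chart `χ` at `x` (`χ.q x = 0`, `x = a • χ.σ 0` with `a ≠ 0`), `v` a local lift of `u` at `χ.σ 0 ∈ X`, `υ = v ∘ χ.σ`, analytic at `0`, and
  `u (χ.σ p) - υ p ∈ Λ` near `0`.  `DU (χ.σ 0) (a⁻¹ • w) c` (`DU.smul`); as in `DU.chart` `c = dυ_0 (π' 0)`, so `dυ_0 ≠ 0` and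
  `dυ_p ≠ 0` near `0`.  Choose `s < 2` small.
-/

set_option autoImplicit false

open Topology Filter Metric

namespace Pool.Agent.H62.EF

attribute [-instance] ProperSMul.toContinuousSMul

open Pool.Agent.H36.BP (EN fs wd)
open Pool.Agent.H14.PP (IsCone Chart Form Tan)

variable {N : ℕ} {X : Set (EN N)} {Λ : AddSubgroup ℂ} {u : EN N → ℂ}

private lemma near_const (hΛ : Lat Λ) {E : ℂ → ℂ} (hE : ContinuousAt E 0) (h : ∀ᶠ z in 𝓝 (0 : ℂ), E z ∈ Λ) :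
    ∀ᶠ z in 𝓝 (0 : ℂ), E z = E 0 := by
  obtain ⟨δ, hδ, hd⟩ := hΛ.discrete
  have h0 : E 0 ∈ Λ := h.self_of_nhds
  have h1 : ∀ᶠ z in 𝓝 (0 : ℂ), ‖E z - E 0‖ < δ := by
    have h2 : Tendsto (fun z => ‖E z - E 0‖) (𝓝 (0 : ℂ)) (𝓝 ‖E 0 - E 0‖) :=
      ((hE.sub continuousAt_const).norm).tendsto
    rw [sub_self, norm_zero] at h2
    exact h2.eventually_lt_const hδ
  filter_upwards [h, h1] with z hz hz1
  exact sub_eq_zero.1 (hd _ (Λ.sub_mem hz h0) hz1)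

private lemma near_deriv (hΛ : Lat Λ) {D B : ℂ → ℂ} (hD : AnalyticAt ℂ D 0) (hB : AnalyticAt ℂ B 0)
    (h : ∀ᶠ z in 𝓝 (0 : ℂ), D z - B z ∈ Λ) : deriv D 0 = deriv B 0 := by
  have h1 := near_const hΛ (E := fun z => D z - B z) (hD.continuousAt.sub hB.continuousAt) h
  have h2 : deriv (fun z => D z - B z) 0 = 0 := by
    have h3 : (fun z => D z - B z) =ᶠ[𝓝 (0 : ℂ)] fun _ => D 0 - B 0 := h1
    rw [h3.deriv_eq, deriv_const]
  have h4 : deriv (fun z => D z - B z) 0 = deriv D 0 - deriv B 0 :=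
    deriv_fun_sub hD.differentiableAt hB.differentiableAt
  rw [h4] at h2
  exact sub_eq_zero.1 h2

private lemma q_kill (χ : Chart X) {x : EN N} (hx : x ∈ χ.U) : fderiv ℂ χ.q x x = 0 := by
  have h1 : HasDerivAt (fun c : ℂ => c • x) x 1 := by
    have h2 := (hasDerivAt_id (1 : ℂ)).smul_const x
    simpa using h2
  have hd : HasFDerivAt χ.q (fderiv ℂ χ.q x) ((1 : ℂ) • x) := by
    rw [one_smul]
    exact (χ.q_an x hx).differentiableAt.hasFDerivAt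
  have h3 : HasDerivAt (fun c : ℂ => χ.q (c • x)) (fderiv ℂ χ.q x x) 1 := hd.comp_hasDerivAt (1 : ℂ) h1
  have h4 : (fun c : ℂ => χ.q (c • x)) =ᶠ[𝓝 (1 : ℂ)] fun _ => χ.q x := by
    filter_upwards [eventually_ne_nhds (one_ne_zero : (1 : ℂ) ≠ 0)] with c hc
    exact χ.q_smul x hx c hc
  rw [← h3.deriv, h4.deriv_eq, deriv_const]

private lemma q_inv (χ : Chart X) {p : ℂ × ℂ} (hp : p ∈ ball (0 : ℂ × ℂ) 2) (e : ℂ × ℂ) :
    fderiv ℂ χ.q (χ.σ p) (fderiv ℂ χ.σ p e) = e := by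
  have h1 : HasFDerivAt χ.σ (fderiv ℂ χ.σ p) p := (χ.σ_an p hp).differentiableAt.hasFDerivAt
  have h2 : HasFDerivAt χ.q (fderiv ℂ χ.q (χ.σ p)) (χ.σ p) :=
    (χ.q_an _ (χ.σ_mem p hp).2.1).differentiableAt.hasFDerivAt
  have h3 := h2.comp p h1
  have h4 : (fun p' => χ.q (χ.σ p')) =ᶠ[𝓝 p] fun p' => p' := by
    filter_upwards [isOpen_ball.mem_nhds hp] with p' hp'
    exact (χ.σ_mem p' hp').2.2
  have h5 : HasFDerivAt (fun p' => χ.q (χ.σ p')) (ContinuousLinearMap.id ℂ (ℂ × ℂ)) p :=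
    (hasFDerivAt_id p).congr_of_eventuallyEq h4
  have h6 := h3.unique h5
  have h7 := congrArg (fun L : (ℂ × ℂ) →L[ℂ] (ℂ × ℂ) => L e) h6
  simpa using h7

theorem chart_imm (hX : IsCone X) (χ : Chart X) {p : ℂ × ℂ} (hp : p ∈ ball (0 : ℂ × ℂ) 2) {e : ℂ × ℂ} (he : e ≠ 0) :
    0 < wd (χ.σ p) (fderiv ℂ χ.σ p e) := by
  have hm := χ.σ_mem p hp
  have hx0 : χ.σ p ≠ 0 := fun h => hX.zero_notMem (h ▸ hm.1)
  refine lt_of_le_of_ne (Pool.Agent.H36.BP.wd_nonneg _ _) fun h0 => he ?_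
  obtain ⟨a, ha⟩ := (Pool.Agent.H36.BP.wd_eq_zero hx0).1 h0.symm
  have h1 := q_inv χ hp e
  rw [ha, map_smul, q_kill χ hm.2.1, smul_zero] at h1
  exact h1.symm

theorem DU.tan {x v : EN N} {c : ℂ} (h : DU X Λ u x v c) : Tan X x v := by
  obtain ⟨γ, D, h1, h2, h3, h4, -⟩ := h
  exact ⟨γ, ⟨h1, h2⟩, h3, h4⟩

theorem DU.of_chart {χ : Chart X} {υ : ℂ × ℂ → ℂ} {s : ℝ} (h : Adm Λ u χ υ s) {p : ℂ × ℂ} (hp : p ∈ ball (0 : ℂ × ℂ) s)
    (e : ℂ × ℂ) : DU X Λ u (χ.σ p) (fderiv ℂ χ.σ p e) (fderiv ℂ υ p e) := by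
  have hp2 : p ∈ ball (0 : ℂ × ℂ) 2 := ball_subset_ball h.lt.le hp
  have hl : HasDerivAt (fun z : ℂ => p + z • e) e 0 := by
    have h2 := ((hasDerivAt_id (0 : ℂ)).smul_const e).const_add p
    simpa using h2
  have hla : AnalyticAt ℂ (fun z : ℂ => p + z • e) 0 :=
    analyticAt_const.add (analyticAt_id.smul analyticAt_const)
  have h0 : p + (0 : ℂ) • e = p := by rw [zero_smul, add_zero]
  have hev : ∀ᶠ z in 𝓝 (0 : ℂ), p + z • e ∈ ball (0 : ℂ × ℂ) s := by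
    have h3 : Tendsto (fun z : ℂ => p + z • e) (𝓝 (0 : ℂ)) (𝓝 p) := by
      have h4 := hla.continuousAt.tendsto
      rwa [h0] at h4
    exact h3.eventually (isOpen_ball.mem_nhds hp)
  have hσ : AnalyticAt ℂ χ.σ (p + (0 : ℂ) • e) := by
    rw [h0]
    exact χ.σ_an p hp2
  have hυ : AnalyticAt ℂ υ (p + (0 : ℂ) • e) := by
    rw [h0]
    exact h.an p hp
  refine ⟨fun z => χ.σ (p + z • e), fun z => υ (p + z • e), AnalyticAt.fun_comp hσ hla, ?_, by simp, ?_,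
    AnalyticAt.fun_comp hυ hla, ?_, ?_⟩
  · filter_upwards [hev] with z hz
    exact (χ.σ_mem _ (ball_subset_ball h.lt.le hz)).1
  · have h5 := hσ.differentiableAt.hasFDerivAt.comp_hasDerivAt (0 : ℂ) hl
    rw [h0] at h5
    exact h5.deriv
  · filter_upwards [hev] with z hz
    exact h.lift _ hz
  · have h5 := hυ.differentiableAt.hasFDerivAt.comp_hasDerivAt (0 : ℂ) hl
    rw [h0] at h5
    exact h5.deriv

private lemma chart_gen (hX : IsCone X) (hu : TorusMap X Λ u) (hΛ : Lat Λ) {χ : Chart X} {υ : ℂ × ℂ → ℂ}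
    {p : ℂ × ℂ} (hp : p ∈ ball (0 : ℂ × ℂ) 2) (hυ : AnalyticAt ℂ υ p)
    (hl : ∀ᶠ p' in 𝓝 p, u (χ.σ p') - υ p' ∈ Λ) {v : EN N} {c : ℂ} (hv : DU X Λ u (χ.σ p) v c) :
    ∃ (e : ℂ × ℂ) (a : ℂ), v = fderiv ℂ χ.σ p e + a • χ.σ p ∧ fderiv ℂ υ p e = c := by
  obtain ⟨γ, D, h1, h2, h3, h4, h5, h6, h7⟩ := hv
  have hm := χ.σ_mem p hp
  have hx0 : χ.σ p ≠ 0 := fun h => hX.zero_notMem (h ▸ hm.1)
  have hγc : Tendsto γ (𝓝 (0 : ℂ)) (𝓝 (χ.σ p)) := by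
    have h8 := h1.continuousAt.tendsto
    rwa [h3] at h8
  have hU : ∀ᶠ z in 𝓝 (0 : ℂ), γ z ∈ χ.U := hγc.eventually (χ.isOpen_U.mem_nhds hm.2.1)
  have hqa : AnalyticAt ℂ χ.q (γ 0) := by
    rw [h3]
    exact χ.q_an _ hm.2.1
  obtain ⟨π, hπ⟩ : ∃ π : ℂ → ℂ × ℂ, π = fun z => χ.q (γ z) := ⟨_, rfl⟩
  have hπa : AnalyticAt ℂ π 0 := by
    rw [hπ]
    exact AnalyticAt.fun_comp hqa h1
  have hπ0 : π 0 = p := by
    rw [hπ]
    change χ.q (γ 0) = p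
    rw [h3]
    exact hm.2.2
  have hσa : AnalyticAt ℂ χ.σ (π 0) := by
    rw [hπ0]
    exact χ.σ_an p hp
  have hσπ : AnalyticAt ℂ (fun z => χ.σ (π z)) 0 := AnalyticAt.fun_comp hσa hπa
  have hπc : Tendsto π (𝓝 (0 : ℂ)) (𝓝 p) := by
    have h8 := hπa.continuousAt.tendsto
    rwa [hπ0] at h8
  have hsj : ∀ᶠ z in 𝓝 (0 : ℂ), ∃ a : ℂ, a ≠ 0 ∧ γ z = a • χ.σ (π z) := by
    filter_upwards [h2, hU] with z hz hz1
    rw [hπ]
    exact (χ.surj _ hz hz1).2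
  -- the factor
  obtain ⟨L, hL⟩ : ∃ L : EN N →L[ℂ] ℂ, L = innerSL ℂ (χ.σ p) := ⟨_, rfl⟩
  have hL0 : L (χ.σ p) ≠ 0 := by
    rw [hL, innerSL_apply_apply]
    exact inner_self_ne_zero.2 hx0
  have hnum : AnalyticAt ℂ (fun z => L (γ z)) 0 := AnalyticAt.fun_comp (L.analyticAt (γ 0)) h1
  have hden : AnalyticAt ℂ (fun z => L (χ.σ (π z))) 0 := AnalyticAt.fun_comp (g := L) (f := fun z => χ.σ (π z)) (L.analyticAt (χ.σ (π 0))) hσπ
  have hden0 : L (χ.σ (π 0)) ≠ 0 := by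
    rw [hπ0]
    exact hL0
  obtain ⟨A, hA⟩ : ∃ A : ℂ → ℂ, A = fun z => L (γ z) / L (χ.σ (π z)) := ⟨_, rfl⟩
  have hAa : AnalyticAt ℂ A 0 := by
    rw [hA]
    exact hnum.fun_div hden hden0
  have hA0 : A 0 = 1 := by
    rw [hA]
    change L (γ 0) / L (χ.σ (π 0)) = 1
    rw [h3, hπ0]
    exact div_self hL0
  have hdne : ∀ᶠ z in 𝓝 (0 : ℂ), L (χ.σ (π z)) ≠ 0 := hden.continuousAt.eventually_ne hden0
  have hAe : γ =ᶠ[𝓝 (0 : ℂ)] fun z => A z • χ.σ (π z) := by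
    filter_upwards [hsj, hdne] with z hz hz1
    obtain ⟨a, ha, hza⟩ := hz
    have h8 : A z = a := by
      rw [hA]
      change L (γ z) / L (χ.σ (π z)) = a
      rw [hza, map_smul, smul_eq_mul, mul_div_assoc, div_self hz1, mul_one]
    rw [h8]
    exact hza
  have hσd : HasDerivAt (fun z => χ.σ (π z)) (fderiv ℂ χ.σ p (deriv π 0)) 0 := by
    have h8 := hσa.differentiableAt.hasFDerivAt.comp_hasDerivAt (0 : ℂ) hπa.differentiableAt.hasDerivAt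
    rw [hπ0] at h8
    exact h8
  have hder : deriv γ 0 = A 0 • fderiv ℂ χ.σ p (deriv π 0) + deriv A 0 • χ.σ (π 0) := by
    rw [hAe.deriv_eq]
    exact (hAa.differentiableAt.hasDerivAt.fun_smul hσd).deriv
  refine ⟨deriv π 0, deriv A 0, ?_, ?_⟩
  · rw [← h4, hder, hA0, one_smul, hπ0]
  · have hυ' : AnalyticAt ℂ υ (π 0) := by
      rw [hπ0]
      exact hυ
    have hB : AnalyticAt ℂ (fun z => υ (π z)) 0 := AnalyticAt.fun_comp hυ' hπa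
    have hmem : ∀ᶠ z in 𝓝 (0 : ℂ), D z - υ (π z) ∈ Λ := by
      filter_upwards [hsj, h6, hπc.eventually hl, hπc.eventually (isOpen_ball.mem_nhds hp)] with z hz hz1 hz2 hz3
      obtain ⟨a, ha, hza⟩ := hz
      have h8 := hu.smul _ (χ.σ_mem _ hz3).1 a ha
      rw [← hza] at h8
      have h9 := Λ.add_mem (Λ.sub_mem h8 hz1) hz2
      have h10 : u (γ z) - u (χ.σ (π z)) - (u (γ z) - D z) + (u (χ.σ (π z)) - υ (π z)) = D z - υ (π z) := by ring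
      rwa [h10] at h9
    rw [← h7, near_deriv hΛ h5 hB hmem]
    have h8 := hυ'.differentiableAt.hasFDerivAt.comp_hasDerivAt (0 : ℂ) hπa.differentiableAt.hasDerivAt
    rw [hπ0] at h8
    exact h8.deriv.symm

theorem DU.chart (hX : IsCone X) (hu : TorusMap X Λ u) (hΛ : Lat Λ) {χ : Chart X} {υ : ℂ × ℂ → ℂ} {s : ℝ} (h : Adm Λ u χ υ s)
    {p : ℂ × ℂ} (hp : p ∈ ball (0 : ℂ × ℂ) s) {v : EN N} {c : ℂ} (hv : DU X Λ u (χ.σ p) v c) :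
    ∃ (e : ℂ × ℂ) (a : ℂ), v = fderiv ℂ χ.σ p e + a • χ.σ p ∧ fderiv ℂ υ p e = c := by
  refine chart_gen hX hu hΛ (ball_subset_ball h.lt.le hp) (h.an p hp) ?_ hv
  filter_upwards [isOpen_ball.mem_nhds hp] with p' hp'
  exact h.lift p' hp'

theorem DU.smul (hX : IsCone X) (hu : TorusMap X Λ u) {x v : EN N} {d : ℂ} (h : DU X Λ u x v d) {c : ℂ} (hc : c ≠ 0) :
    DU X Λ u (c • x) (c • v) d := by
  obtain ⟨γ, D, h1, h2, h3, h4, h5, h6, h7⟩ := h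
  refine ⟨fun z => c • γ z, D, analyticAt_const.fun_smul h1, ?_, ?_, ?_, h5, ?_, h7⟩
  · filter_upwards [h2] with z hz
    exact hX.smul_mem _ hz c hc
  · change c • γ 0 = c • x
    rw [h3]
  · rw [← h4]
    exact (h1.differentiableAt.hasDerivAt.const_smul c).deriv
  · filter_upwards [h2, h6] with z hz hz1
    have h8 := Λ.add_mem (hu.smul _ hz c hc) hz1
    have h9 : u (c • γ z) - u (γ z) + (u (γ z) - D z) = u (c • γ z) - D z := by ring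
    rwa [h9] at h8

theorem exists_adm (hX : IsCone X) (hch : Charts X) (hu : TorusMap X Λ u) (hΛ : Lat Λ) {x w : EN N} (hx : x ∈ X) {c : ℂ}
    (hc : c ≠ 0) (hw : DU X Λ u x w c) :
    ∃ (χ : Chart X) (υ : ℂ × ℂ → ℂ) (s : ℝ), x ∈ χ.U ∧ χ.q x = 0 ∧ Adm Λ u χ υ s := by
  obtain ⟨χ, hxU, hq⟩ := hch x hx
  obtain ⟨-, a, ha, hxa⟩ := χ.surj x hx hxU
  rw [hq] at hxa
  have h02 : (0 : ℂ × ℂ) ∈ ball (0 : ℂ × ℂ) 2 := mem_ball_self two_pos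
  have hm := χ.σ_mem 0 h02
  have hDU : DU X Λ u (χ.σ 0) (a⁻¹ • w) c := by
    have h1 := DU.smul hX hu hw (inv_ne_zero ha)
    have h2 : a⁻¹ • x = χ.σ 0 := by
      rw [hxa, smul_smul, inv_mul_cancel₀ ha, one_smul]
    rwa [h2] at h1
  obtain ⟨v, hv, hvl⟩ := hu.loc (χ.σ 0) hm.1
  have hσa : AnalyticAt ℂ χ.σ 0 := χ.σ_an 0 h02
  have hυ : AnalyticAt ℂ (fun p => v (χ.σ p)) 0 := AnalyticAt.fun_comp hv hσa
  have hb2 : ∀ᶠ p in 𝓝 (0 : ℂ × ℂ), p ∈ ball (0 : ℂ × ℂ) 2 := isOpen_ball.mem_nhds h02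
  have hl : ∀ᶠ p in 𝓝 (0 : ℂ × ℂ), u (χ.σ p) - v (χ.σ p) ∈ Λ := by
    filter_upwards [hσa.continuousAt.tendsto.eventually hvl, hb2] with p hp hp2
    exact hp (χ.σ_mem p hp2).1
  obtain ⟨e, b, -, hec⟩ := chart_gen hX hu hΛ h02 hυ hl hDU
  have hd0 : fderiv ℂ (fun p => v (χ.σ p)) 0 ≠ 0 := by
    intro h0
    rw [h0] at hec
    exact hc hec.symm
  have hdn : ∀ᶠ p in 𝓝 (0 : ℂ × ℂ), fderiv ℂ (fun p => v (χ.σ p)) p ≠ 0 :=
    hυ.fderiv.continuousAt.eventually_ne hd0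
  obtain ⟨r, hr, hrb⟩ := Metric.eventually_nhds_iff_ball.1 ((hυ.eventually_analyticAt.and hl).and hdn)
  refine ⟨χ, fun p => v (χ.σ p), min r 1, hxU, hq, lt_min hr one_pos, (min_le_right _ _).trans_lt one_lt_two, ?_, ?_, ?_⟩
  · intro p hp
    exact (hrb p (ball_subset_ball (min_le_left _ _) hp)).1.1
  · intro p hp
    exact (hrb p (ball_subset_ball (min_le_left _ _) hp)).1.2
  · intro p hp
    exact (hrb p (ball_subset_ball (min_le_left _ _) hp)).2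

end Pool.Agent.H62.EF

end

section

/-!
# EF SecL: the family of the sections

* `sec_trans`: clear.
* `sec_lip`: `pr_lipschitz` with `U = univ`.
* `sec_uniq`: near `z₀` all minors `F_i G_j - F_j G_i` vanish (`pr_eq_iff`), they are entire, so they vanish everywhere; `F z ≠ 0`, `G z ≠ 0`, so
  `F z` and `G z` are proportional and `pr (F z) = pr (G z)`.
* `sec_lim`: `limit_curves` with `ρ n = n` (or any sequence which tends to infinity) gives `G` with `G z ∈ X` and `pr (F n z) → pr (G z)`.  `u (F n z) - z ∈ Λ`; by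
  `TorusMap.unif` `u (G z) - z` has distance `< ε` to `Λ` for every `ε > 0`, so it is in `Λ` (`Lat.mem_of_close`).
* `isCompact_KK`: `KK` is a subset of the compact set `pr '' X`, so it is enough that it is closed (or use ultrafilters: `isCompact_iff_ultrafilter_le_nhds`; or
  sequences `IsSeqCompact`).  Let `y n = pr (F n (z n)) → y`.  Take `l n ∈ Λ` with `‖z n - l n‖ ≤ R`, `F' n z = F n (z + l n)` (`sec_trans`), `w n = z n - l n`;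
  `y n = pr (F' n (w n))`.  Along an ultrafilter on `ℕ` (`hyperfilter ℕ`) `w n → w`, `pr (F' n z) → pr (G z)` for all `z` with `G ∈ Sec`, and
  `dist (pr (F' n (w n))) (pr (F' n w)) ≤ 2 L ‖w n - w‖ → 0`, so `y = pr (G w)`.
* `KK_du`: `F z ∈ X` and `DU (F z) (F' z) 1` (`γ w = F (z + w)`, `D w = z + w`).
-/

set_option autoImplicit false

open Topology Filter Metric

namespace Pool.Agent.H62.EF

attribute [-instance] ProperSMul.toContinuousSMul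

open Pool.Agent.H36.BP (EN fs wd)
open Pool.Agent.H14.PP (IsCone)

variable {N : ℕ} {X : Set (EN N)} {Λ : AddSubgroup ℂ} {u : EN N → ℂ}

theorem sec_uniq (hX : IsCone X) {F G : ℂ → EN N} (hF : F ∈ Sec X Λ u) (hG : G ∈ Sec X Λ u) {z₀ : ℂ}
    (h : ∀ᶠ z in 𝓝 z₀, pr (F z) = pr (G z)) (z : ℂ) : pr (F z) = pr (G z) := by
  have hF0 : ∀ z, F z ≠ 0 := fun z h' => hX.zero_notMem (h' ▸ hF.2.1 z)
  have hG0 : ∀ z, G z ≠ 0 := fun z h' => hX.zero_notMem (h' ▸ hG.2.1 z)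
  have hcoord : ∀ (H : ℂ → EN N), Differentiable ℂ H → ∀ i, Differentiable ℂ (fun z => H z i) := by
    intro H hH i
    have := (EuclideanSpace.proj (𝕜 := ℂ) i).differentiable.comp hH
    exact this
  have hmin : ∀ i j, ∀ z, F z i * G z j - F z j * G z i = 0 := by
    intro i j
    have hd : Differentiable ℂ (fun z => F z i * G z j - F z j * G z i) :=
      ((hcoord F hF.1 i).mul (hcoord G hG.1 j)).sub ((hcoord F hF.1 j).mul (hcoord G hG.1 i))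
    have ha : AnalyticOnNhd ℂ (fun z => F z i * G z j - F z j * G z i) Set.univ :=
      fun z _ => hd.analyticAt z
    have he : (fun z => F z i * G z j - F z j * G z i) =ᶠ[𝓝 z₀] 0 := by
      filter_upwards [h] with z hz
      obtain ⟨c, _, hc⟩ := (pr_eq_iff (hF0 z) (hG0 z)).1 hz
      have h1 : ∀ k, F z k = c * G z k := by
        intro k
        rw [hc]
        simp
      simp only [Pi.zero_apply]
      rw [h1 i, h1 j]
      ring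
    intro z'
    have := ha.eqOn_zero_of_preconnected_of_eventuallyEq_zero isPreconnected_univ (Set.mem_univ z₀) he (Set.mem_univ z')
    exact this
  obtain ⟨j, hj⟩ : ∃ j, G z j ≠ 0 := by
    by_contra hcon
    push Not at hcon
    apply hG0 z
    ext k
    simpa using hcon k
  have hFc : F z = (F z j / G z j) • G z := by
    ext k
    have h1 := hmin k j z
    simp only [PiLp.smul_apply, smul_eq_mul]
    field_simp
    linear_combination h1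
  have hne : F z j / G z j ≠ 0 := by
    intro h'
    rw [h', zero_smul] at hFc
    exact hF0 z hFc
  exact (pr_eq_iff (hF0 z) (hG0 z)).2 ⟨_, hne, hFc⟩

end Pool.Agent.H62.EF

end

section

/-!
# EL ChN: small charts

`exists_small_chart`: the proof of `Pool.Agent.H62.EF.exists_chart_of_germ` (`H62/EF/ChEx.lean`; copy it): there `χ.σ p` is a multiple of
`σ (r • p)` for `‖p‖ < 2`, where `r = R / 2` and `R` is any small radius: take `R < η`.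

`exists_small_chart'`: moreover all points of the chart are near `σ 0` in the projective space: `p ↦ pr (σ p)` is continuous at `0`
(`continuousAt_pr`, `σ 0 ≠ 0`), `pr (a • σ (r • p)) = pr (σ (r • p))` (`pr_smul`).

`exists_nc_chart`: `σ, τ, i, j` from `IsNC`; `u (χ.σ p) = u (a • σ (r p))`, which is `u (σ (r p))` modulo `Λ` (`TorusMap.smul`), which is
`b + (r s)^i (r t)^j = b + r^(i+j) s^i t^j`: `ρ = r^(i+j)`; `‖ρ s^i t^j‖ = ‖(r s)^i (r t)^j‖ < η` for `r` small (continuity at `0`, `i + j > 0`).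
-/

set_option autoImplicit false

open Topology Filter Metric

namespace Pool.Agent.H62.EL

attribute [-instance] ProperSMul.toContinuousSMul

open Pool.Agent.H36.BP (EN fs wd IsGermChart)
open Pool.Agent.H14.PP (IsCone Chart Tan CurveAt)
open Pool.Agent.H62.EF (Lat MN pr TorusMap Sec Charts DU)

variable {N : ℕ} {X : Set (EN N)} {Λ : AddSubgroup ℂ} {u : EN N → ℂ}

theorem exists_small_chart (hX : IsCone X) {σ : ℂ × ℂ → EN N} {τ : EN N → ℂ × ℂ} (h : IsGermChart X σ τ) {η : ℝ} (hη : 0 < η) :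
    ∃ (χ : Chart X) (r : ℝ), 0 < r ∧ σ 0 ∈ χ.U ∧ χ.q (σ 0) = 0 ∧ ∀ p ∈ ball (0 : ℂ × ℂ) 2, ‖(r : ℂ) • p‖ < η ∧
      dist (pr (χ.σ p)) (pr (σ 0)) < η ∧ ∃ a : ℂ, a ≠ 0 ∧ χ.σ p = a • σ ((r : ℂ) • p) := by
  have hσ0 : σ 0 ≠ 0 := by
    intro h0
    have h1 := h.σ_mem.self_of_nhds
    rw [h0] at h1
    exact hX.zero_notMem h1
  -- the linear form
  obtain ⟨ℓ, hℓ⟩ : ∃ ℓ : EN N →L[ℂ] ℂ, ℓ (σ 0) = 1 := by
    have hne : inner ℂ (σ 0) (σ 0) ≠ (0 : ℂ) := inner_self_ne_zero.mpr hσ0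
    refine ⟨(inner ℂ (σ 0) (σ 0) : ℂ)⁻¹ • innerSL ℂ (σ 0), ?_⟩
    simp only [_root_.smul_apply, innerSL_apply_apply, smul_eq_mul]
    exact inv_mul_cancel₀ hne
  -- the normalised parametrisation
  have hℓσ : ContinuousAt (fun p => ℓ (σ p)) 0 := ℓ.continuous.continuousAt.comp h.σ_an.continuousAt
  have hℓne : ∀ᶠ p in 𝓝 (0 : ℂ × ℂ), ℓ (σ p) ≠ 0 := hℓσ.eventually_ne (by rw [hℓ]; exact one_ne_zero)
  have hinvσ : ∀ᶠ p in 𝓝 (0 : ℂ × ℂ), τ ((ℓ (σ p))⁻¹ • σ p) = τ (σ p) := by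
    have hc : Tendsto (fun p => (σ p, (ℓ (σ p))⁻¹)) (𝓝 (0 : ℂ × ℂ)) (𝓝 (σ 0, (1 : ℂ))) := by
      have h1 : Tendsto (fun p => (ℓ (σ p))⁻¹) (𝓝 (0 : ℂ × ℂ)) (𝓝 (ℓ (σ 0))⁻¹) := hℓσ.inv₀ (by rw [hℓ]; exact one_ne_zero)
      rw [hℓ, inv_one] at h1
      exact h.σ_an.continuousAt.prodMk_nhds h1
    exact hc.eventually h.inv
  -- the neighbourhood W₀
  have hW : ∀ᶠ y in 𝓝 (σ 0), AnalyticAt ℂ τ y ∧ (y ∈ X → ∃ c : ℂ, c ≠ 0 ∧ y = c • σ (τ y)) := h.τ_an.eventually_analyticAt.and h.right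
  obtain ⟨W₀, hW₀s, hW₀o, hW₀m⟩ := _root_.eventually_nhds_iff.mp hW
  have hσ₁ : Tendsto (fun p => (ℓ (σ p))⁻¹ • σ p) (𝓝 (0 : ℂ × ℂ)) (𝓝 (σ 0)) := by
    have h1 : Tendsto (fun p => (ℓ (σ p))⁻¹) (𝓝 (0 : ℂ × ℂ)) (𝓝 (ℓ (σ 0))⁻¹) := hℓσ.inv₀ (by rw [hℓ]; exact one_ne_zero)
    have h2 := h1.smul h.σ_an.continuousAt
    rwa [hℓ, inv_one, one_smul] at h2
  have hσ₁W : ∀ᶠ p in 𝓝 (0 : ℂ × ℂ), (ℓ (σ p))⁻¹ • σ p ∈ W₀ := hσ₁.eventually (hW₀o.mem_nhds hW₀m)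
  have hprσ : ∀ᶠ p in 𝓝 (0 : ℂ × ℂ), dist (pr (σ p)) (pr (σ 0)) < η := by
    have h1 : ContinuousAt (fun p => pr (σ p)) 0 :=
      ContinuousAt.comp (f := σ) (Pool.Agent.H62.EF.continuousAt_pr hσ0) h.σ_an.continuousAt
    exact h1.eventually (Metric.ball_mem_nhds _ hη)
  obtain ⟨R₀, hR₀, hall₀⟩ := Metric.eventually_nhds_iff_ball.mp
    ((((((h.σ_an.eventually_analyticAt.and h.σ_mem).and h.left).and hℓne).and hinvσ).and hσ₁W).and hprσ)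
  obtain ⟨R, hR, hRη, hall, hprb⟩ : ∃ R : ℝ, 0 < R ∧ R ≤ η ∧ (∀ p ∈ ball (0 : ℂ × ℂ) R,
      (((((AnalyticAt ℂ σ p ∧ σ p ∈ X) ∧ τ (σ p) = p) ∧ ℓ (σ p) ≠ 0) ∧ τ ((ℓ (σ p))⁻¹ • σ p) = τ (σ p)) ∧
        (ℓ (σ p))⁻¹ • σ p ∈ W₀)) ∧ ∀ p ∈ ball (0 : ℂ × ℂ) R, dist (pr (σ p)) (pr (σ 0)) < η :=
    ⟨min R₀ η, lt_min hR₀ hη, min_le_right _ _, fun p hp => (hall₀ p (ball_subset_ball (min_le_left _ _) hp)).1,
      fun p hp => (hall₀ p (ball_subset_ball (min_le_left _ _) hp)).2⟩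
  set r : ℝ := R / 2 with hr
  have hr0 : 0 < r := by rw [hr]; positivity
  have hrC : (r : ℂ) ≠ 0 := by exact_mod_cast hr0.ne'
  have hball : ∀ p ∈ ball (0 : ℂ × ℂ) 2, (r : ℂ) • p ∈ ball (0 : ℂ × ℂ) R := by
    intro p hp
    rw [mem_ball_zero_iff] at hp ⊢
    rw [norm_smul, Complex.norm_real, Real.norm_of_nonneg hr0.le, hr]
    nlinarith
  have hτσ : ∀ p ∈ ball (0 : ℂ × ℂ) R, τ ((ℓ (σ p))⁻¹ • σ p) = p := by
    intro p hp
    rw [(hall p hp).1.2, (hall p hp).1.1.1.2]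
  set U : Set (EN N) := {x | ℓ x ≠ 0 ∧ (ℓ x)⁻¹ • x ∈ W₀ ∧ ‖τ ((ℓ x)⁻¹ • x)‖ < R} with hU
  have hmaps : ∀ x : EN N, ℓ x ≠ 0 → ∀ c : ℂ, c ≠ 0 → (ℓ (c • x))⁻¹ • (c • x) = (ℓ x)⁻¹ • x := by
    intro x hx c hc
    rw [map_smul, smul_eq_mul, smul_smul, mul_inv, mul_comm c⁻¹, mul_assoc, inv_mul_cancel₀ hc, mul_one]
  have han1 : ∀ x : EN N, ℓ x ≠ 0 → AnalyticAt ℂ (fun y : EN N => (ℓ y)⁻¹ • y) x := by
    intro x hx
    exact ((ℓ.analyticAt x).inv hx).smul analyticAt_id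
  have hanq : ∀ x ∈ U, AnalyticAt ℂ (fun y : EN N => τ ((ℓ y)⁻¹ • y)) x := by
    intro x hx
    exact AnalyticAt.fun_comp (hW₀s _ hx.2.1).1 (han1 x hx.1)
  have hUopen : IsOpen U := by
    rw [isOpen_iff_mem_nhds]
    intro x hx
    have h1 : ∀ᶠ y in 𝓝 x, ℓ y ≠ 0 := ℓ.continuous.continuousAt.eventually_ne hx.1
    have h2 : ∀ᶠ y in 𝓝 x, (ℓ y)⁻¹ • y ∈ W₀ := (han1 x hx.1).continuousAt.eventually (hW₀o.mem_nhds hx.2.1)
    have h3 : ∀ᶠ y in 𝓝 x, ‖τ ((ℓ y)⁻¹ • y)‖ < R := (hanq x hx).continuousAt.norm.eventually_lt_const hx.2.2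
    filter_upwards [h1, h2, h3] with y h4 h5 h6
    exact ⟨h4, h5, h6⟩
  let χ : Chart X :=
    { σ := fun p => (ℓ (σ ((r : ℂ) • p)))⁻¹ • σ ((r : ℂ) • p)
      U := U
      q := fun x => (r : ℂ)⁻¹ • τ ((ℓ x)⁻¹ • x)
      isOpen_U := hUopen
      smul_U := by
        rintro x ⟨h1, h2, h3⟩ c hc
        refine ⟨?_, ?_, ?_⟩
        · rw [map_smul, smul_eq_mul]
          exact mul_ne_zero hc h1
        · rw [hmaps x h1 c hc]; exact h2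
        · rw [hmaps x h1 c hc]; exact h3
      σ_an := by
        intro p hp
        have h1 := (hall _ (hball p hp)).1.1.1.1.1
        have h2 : AnalyticAt ℂ (fun p : ℂ × ℂ => σ ((r : ℂ) • p)) p :=
          AnalyticAt.fun_comp h1 (analyticAt_const.fun_smul analyticAt_id)
        have h3 : AnalyticAt ℂ (fun p : ℂ × ℂ => ℓ (σ ((r : ℂ) • p))) p := (ℓ.analyticAt _).fun_comp h2
        exact (h3.inv (hall _ (hball p hp)).1.1.2).smul h2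
      q_an := by
        intro x hx
        exact analyticAt_const.fun_smul (hanq x hx)
      q_smul := by
        rintro x ⟨h1, h2, h3⟩ c hc
        show (r : ℂ)⁻¹ • τ ((ℓ (c • x))⁻¹ • (c • x)) = _
        rw [hmaps x h1 c hc]
      σ_mem := by
        intro p hp
        have hb := hball p hp
        have hh := hall _ hb
        have hne := hh.1.1.2
        have h1 : ℓ ((ℓ (σ ((r : ℂ) • p)))⁻¹ • σ ((r : ℂ) • p)) = 1 := by
          rw [map_smul, smul_eq_mul, inv_mul_cancel₀ hne]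
        have h2 : τ ((ℓ (σ ((r : ℂ) • p)))⁻¹ • σ ((r : ℂ) • p)) = (r : ℂ) • p := hτσ _ hb
        refine ⟨hX.smul_mem _ hh.1.1.1.1.2 _ (inv_ne_zero hne), ⟨?_, ?_, ?_⟩, ?_⟩
        · rw [h1]; exact one_ne_zero
        · rw [h1, inv_one, one_smul]; exact hh.2
        · rw [h1, inv_one, one_smul, h2]
          exact mem_ball_zero_iff.mp hb
        · show (r : ℂ)⁻¹ • τ ((ℓ ((ℓ (σ ((r : ℂ) • p)))⁻¹ • σ ((r : ℂ) • p)))⁻¹ • ((ℓ (σ ((r : ℂ) • p)))⁻¹ • σ ((r : ℂ) • p))) = p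
          rw [h1, inv_one, one_smul, h2, smul_smul, inv_mul_cancel₀ hrC, one_smul]
      surj := by
        rintro x hxX ⟨h1, h2, h3⟩
        have hyX : (ℓ x)⁻¹ • x ∈ X := hX.smul_mem _ hxX _ (inv_ne_zero h1)
        obtain ⟨c, hc0, hc⟩ := (hW₀s _ h2).2 hyX
        have hτb : τ ((ℓ x)⁻¹ • x) ∈ ball (0 : ℂ × ℂ) R := mem_ball_zero_iff.mpr h3
        have hrq : (r : ℂ) • ((r : ℂ)⁻¹ • τ ((ℓ x)⁻¹ • x)) = τ ((ℓ x)⁻¹ • x) := by
          rw [smul_smul, mul_inv_cancel₀ hrC, one_smul]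
        refine ⟨?_, ?_⟩
        · show (r : ℂ)⁻¹ • τ ((ℓ x)⁻¹ • x) ∈ ball (0 : ℂ × ℂ) 2
          rw [mem_ball_zero_iff, norm_smul, norm_inv, Complex.norm_real, Real.norm_of_nonneg hr0.le, inv_mul_lt_iff₀ hr0, hr]
          linarith
        · refine ⟨ℓ x * c * ℓ (σ (τ ((ℓ x)⁻¹ • x))), ?_, ?_⟩
          · exact mul_ne_zero (mul_ne_zero h1 hc0) (hall _ hτb).1.1.2
          · show x = (ℓ x * c * ℓ (σ (τ ((ℓ x)⁻¹ • x)))) •
              ((ℓ (σ ((r : ℂ) • ((r : ℂ)⁻¹ • τ ((ℓ x)⁻¹ • x)))))⁻¹ • σ ((r : ℂ) • ((r : ℂ)⁻¹ • τ ((ℓ x)⁻¹ • x))))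
            rw [hrq, smul_smul, mul_assoc, mul_inv_cancel₀ (hall _ hτb).1.1.2, mul_one, mul_smul, ← hc, smul_smul, mul_inv_cancel₀ h1, one_smul] }
  have h0b : (0 : ℂ × ℂ) ∈ ball (0 : ℂ × ℂ) R := mem_ball_self hR
  have hτ0 : τ (σ 0) = 0 := (hall 0 h0b).1.1.1.2
  refine ⟨χ, r, hr0, ⟨?_, ?_, ?_⟩, ?_, ?_⟩
  · rw [hℓ]; exact one_ne_zero
  · rw [hℓ, inv_one, one_smul]; exact hW₀m
  · rw [hℓ, inv_one, one_smul, hτ0, norm_zero]; exact hR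
  · show (r : ℂ)⁻¹ • τ ((ℓ (σ 0))⁻¹ • σ 0) = 0
    rw [hℓ, inv_one, one_smul, hτ0, smul_zero]
  · intro p hp
    have hb := hball p hp
    have hne := (hall _ hb).1.1.2
    refine ⟨(mem_ball_zero_iff.mp hb).trans_le hRη, ?_, (ℓ (σ ((r : ℂ) • p)))⁻¹, inv_ne_zero hne, rfl⟩
    show dist (pr ((ℓ (σ ((r : ℂ) • p)))⁻¹ • σ ((r : ℂ) • p))) (pr (σ 0)) < η
    rw [Pool.Agent.H62.EF.pr_smul _ (inv_ne_zero hne)]
    exact hprb _ hb

theorem exists_nc_chart (hX : IsCone X) (hu : TorusMap X Λ u) {x : EN N} {b : ℂ} (h : IsNC X Λ u x b) {η : ℝ} (hη : 0 < η) :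
    ∃ (χ : Chart X) (ρ : ℝ) (i j : ℕ), x ∈ χ.U ∧ χ.q x = 0 ∧ Mon Λ u χ b ρ i j ∧
      ∀ p ∈ ball (0 : ℂ × ℂ) 2, dist (pr (χ.σ p)) (pr x) < η ∧ ‖mo b ρ i j p - b‖ < η := by
  obtain ⟨σ, τ, i, j, hg, hσ0, hij, hev⟩ := h
  have hmono : ∀ᶠ p in 𝓝 (0 : ℂ × ℂ), ‖p.1 ^ i * p.2 ^ j‖ < η := by
    have hc : Continuous fun p : ℂ × ℂ => p.1 ^ i * p.2 ^ j := (continuous_fst.pow i).mul (continuous_snd.pow j)
    have h1 : Tendsto (fun p : ℂ × ℂ => ‖p.1 ^ i * p.2 ^ j‖) (𝓝 0) (𝓝 ‖(0 : ℂ × ℂ).1 ^ i * (0 : ℂ × ℂ).2 ^ j‖) :=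
      hc.norm.continuousAt
    have h0 : ‖(0 : ℂ × ℂ).1 ^ i * (0 : ℂ × ℂ).2 ^ j‖ = 0 := by
      rw [norm_eq_zero]
      show (0 : ℂ) ^ i * (0 : ℂ) ^ j = 0
      rw [← pow_add, zero_pow (by omega)]
    rw [h0] at h1
    exact h1.eventually_lt_const hη
  obtain ⟨η', hη', hall⟩ := Metric.eventually_nhds_iff_ball.mp ((hev.and hmono).and hg.σ_mem)
  obtain ⟨χ, r, hr, hU, hq, hch⟩ := exists_small_chart hX hg (lt_min hη' hη)
  have hrij : (0 : ℝ) < r ^ (i + j) := pow_pos hr _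
  have hkey : ∀ p : ℂ × ℂ, ((r ^ (i + j) : ℝ) : ℂ) * (p.1 ^ i * p.2 ^ j) = ((r : ℂ) • p).1 ^ i * ((r : ℂ) • p).2 ^ j := by
    intro p
    have h1 : ((r : ℂ) • p).1 = (r : ℂ) * p.1 := rfl
    have h2 : ((r : ℂ) • p).2 = (r : ℂ) * p.2 := rfl
    rw [h1, h2]
    push_cast
    ring
  have hb : ∀ p ∈ ball (0 : ℂ × ℂ) 2, (r : ℂ) • p ∈ ball (0 : ℂ × ℂ) η' := fun p hp =>
    mem_ball_zero_iff.mpr ((hch p hp).1.trans_le (min_le_left _ _))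
  refine ⟨χ, r ^ (i + j), i, j, hσ0 ▸ hU, hσ0 ▸ hq, ⟨hrij, hij, ?_⟩, ?_⟩
  · intro p hp
    obtain ⟨-, -, a, ha, hap⟩ := hch p hp
    have h1 := hall _ (hb p hp)
    have h2 := hu.smul _ h1.2 a ha
    rw [hap]
    unfold mo
    rw [hkey p]
    have h3 := Λ.add_mem h2 h1.1.1
    convert h3 using 1
    ring
  · intro p hp
    obtain ⟨-, h1, -⟩ := hch p hp
    refine ⟨?_, ?_⟩
    · rw [← hσ0]
      exact h1.trans_le (min_le_right _ _)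
    · unfold mo
      rw [hkey p, add_sub_cancel_left]
      exact (hall _ (hb p hp)).1.2

end Pool.Agent.H62.EL

end

section

/-!
# EL StC: straight charts

Let `DU X Λ u x w 1`.  By `exists_adm` (EF DUl) there are a chart `χ₀` with `x ∈ χ₀.U`, `χ₀.q x = 0` and an analytic lift `υ` of `u` in it
with `fderiv ℂ υ 0 ≠ 0`; `x = a • χ₀.σ 0`.  Choose a linear form `l` on `ℂ × ℂ` such that `Φ p = (υ p - υ 0, l p)` has an invertible derivative at `0`;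
inverse function theorem (analytic): `Θ` analytic at `0`, `Θ 0 = 0`, `Φ (Θ p) = p` and `Θ (Φ p) = p` near `0`.  Germ chart:
`σ = a • χ₀.σ ∘ Θ`, `τ = Φ ∘ χ₀.q` (near `x`; `χ₀.q` is scale invariant, so `inv` is clear; `left`: `χ₀.q (a • χ₀.σ (Θ p)) = Θ p`;
`right`: `y ∈ X` near `x`: `y = c • χ₀.σ (χ₀.q y)`).  `u (σ p) = υ (Θ p) = υ 0 + p.1` and `υ 0 = u (χ₀.σ 0) = u x = z` modulo `Λ`.
So `IsGermChart X σ τ`, `σ 0 = x`, `u (σ p) - (z + p.1) ∈ Λ`: apply `exists_nc_chart` (proof) with `i = 1`, `j = 0`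
(`IsNC X Λ u x z` with these exponents; to keep the exponents repeat its proof from `exists_small_chart`: `ρ = r`).

`exists_str_of_lift`: a section `F` (or a holomorphic curve `Ψ` near `z₀` with `u (Ψ z) = z`) has `DU X Λ u (Ψ z₀) (deriv Ψ z₀) 1`.
-/

set_option autoImplicit false

open Topology Filter Metric

namespace Pool.Agent.H62.EL

attribute [-instance] ProperSMul.toContinuousSMul

open Pool.Agent.H36.BP (EN fs wd IsGermChart)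
open Pool.Agent.H14.PP (IsCone Chart Tan CurveAt)
open Pool.Agent.H62.EF (Lat MN pr TorusMap Sec Charts DU)

variable {N : ℕ} {X : Set (EN N)} {Λ : AddSubgroup ℂ} {u : EN N → ℂ}

private lemma StC_inj {L : ℂ × ℂ →L[ℂ] ℂ} (hL : L ≠ 0) :
    ∃ l : ℂ × ℂ →L[ℂ] ℂ, ∀ v, L v = 0 → l v = 0 → v = 0 := by
  have hdec : ∀ v : ℂ × ℂ, L v = v.1 * L (1, 0) + v.2 * L (0, 1) := by
    intro v
    have h1 : v = v.1 • ((1, 0) : ℂ × ℂ) + v.2 • ((0, 1) : ℂ × ℂ) := by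
      ext <;> simp
    conv_lhs => rw [h1]
    rw [map_add, map_smul, map_smul, smul_eq_mul, smul_eq_mul]
  by_cases h1 : L (1, 0) = 0
  · have h2 : L (0, 1) ≠ 0 := by
      intro h2
      apply hL
      ext
      · simpa using h1
      · simpa using h2
    refine ⟨ContinuousLinearMap.fst ℂ ℂ ℂ, fun v hv hl => ?_⟩
    have h3 : v.1 = 0 := hl
    rw [hdec v, h3, zero_mul, zero_add] at hv
    have h4 : v.2 = 0 := (mul_eq_zero.1 hv).resolve_right h2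
    exact Prod.ext h3 h4
  · refine ⟨ContinuousLinearMap.snd ℂ ℂ ℂ, fun v hv hl => ?_⟩
    have h3 : v.2 = 0 := hl
    rw [hdec v, h3, zero_mul, add_zero] at hv
    have h4 : v.1 = 0 := (mul_eq_zero.1 hv).resolve_right h1
    exact Prod.ext h4 h3

private lemma StC_germ (hX : IsCone X) (hu : TorusMap X Λ u) {x : EN N} (hx : x ∈ X) (χ₀ : Chart X) (hxU : x ∈ χ₀.U)
    (hq : χ₀.q x = 0) {υ : ℂ × ℂ → ℂ} (hυ : AnalyticAt ℂ υ 0) (hυl : ∀ᶠ p in 𝓝 (0 : ℂ × ℂ), u (χ₀.σ p) - υ p ∈ Λ)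
    (hd : fderiv ℂ υ 0 ≠ 0) {z : ℂ} (hz : u x - z ∈ Λ) :
    ∃ (σ : ℂ × ℂ → EN N) (τ : EN N → ℂ × ℂ), IsGermChart X σ τ ∧ σ 0 = x ∧
      ∀ᶠ p in 𝓝 (0 : ℂ × ℂ), u (σ p) - (z + p.1) ∈ Λ := by
  obtain ⟨-, a, ha, hxa⟩ := χ₀.surj x hx hxU
  rw [hq] at hxa
  have h02 : (0 : ℂ × ℂ) ∈ ball (0 : ℂ × ℂ) 2 := mem_ball_self two_pos
  have hm0 := χ₀.σ_mem 0 h02
  obtain ⟨l, hl⟩ := StC_inj hd
  set Φ : ℂ × ℂ → ℂ × ℂ := fun p => (υ p - υ 0, l p) with hΦ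
  have hΦ0 : Φ 0 = 0 := by
    rw [hΦ]
    simp
  have hΦa : AnalyticAt ℂ Φ 0 := (hυ.sub analyticAt_const).prod (l.analyticAt 0)
  have hΦd : ∀ v, fderiv ℂ Φ 0 v = (fderiv ℂ υ 0 v, l v) := by
    intro v
    have h1 : HasFDerivAt Φ ((fderiv ℂ υ 0).prod l) 0 :=
      (hυ.differentiableAt.hasFDerivAt.sub_const (υ 0)).prodMk l.hasFDerivAt
    rw [h1.fderiv]
    rfl
  obtain ⟨Θ, hΘa, hΘl, hΘr, hΘ0⟩ := Pool.Agent.H62.BU.local_inverse hΦa (by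
    intro v hv
    rw [hΦd v] at hv
    exact hl v (congrArg Prod.fst hv) (congrArg Prod.snd hv))
  rw [hΦ0] at hΘa hΘr hΘ0
  have hΘc : Tendsto Θ (𝓝 (0 : ℂ × ℂ)) (𝓝 (0 : ℂ × ℂ)) := by
    have h1 := hΘa.continuousAt.tendsto
    rwa [hΘ0] at h1
  have hb2 : ∀ᶠ p in 𝓝 (0 : ℂ × ℂ), Θ p ∈ ball (0 : ℂ × ℂ) 2 := hΘc.eventually (isOpen_ball.mem_nhds h02)
  set σ : ℂ × ℂ → EN N := fun p => a • χ₀.σ (Θ p) with hσ
  set τ : EN N → ℂ × ℂ := fun y => Φ (χ₀.q y) with hτ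
  have hσ0 : σ 0 = x := by
    rw [hσ]
    simp only
    rw [hΘ0, ← hxa]
  have hqc : Tendsto χ₀.q (𝓝 x) (𝓝 (0 : ℂ × ℂ)) := by
    have h1 := (χ₀.q_an x hxU).continuousAt.tendsto
    rwa [hq] at h1
  have hU : ∀ᶠ y in 𝓝 x, y ∈ χ₀.U := χ₀.isOpen_U.mem_nhds hxU
  have hmem : ∀ᶠ p in 𝓝 (0 : ℂ × ℂ), σ p ∈ X := by
    filter_upwards [hb2] with p hp
    exact hX.smul_mem _ (χ₀.σ_mem _ hp).1 _ ha
  refine ⟨σ, τ, ⟨?_, hmem, ?_, ?_, ?_, ?_⟩, hσ0, ?_⟩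
  · have h1 : AnalyticAt ℂ (fun p => χ₀.σ (Θ p)) 0 := by
      have h2 : AnalyticAt ℂ χ₀.σ (Θ 0) := by
        rw [hΘ0]
        exact χ₀.σ_an 0 h02
      exact AnalyticAt.fun_comp h2 hΘa
    exact analyticAt_const.fun_smul h1
  · rw [hσ0]
    have h2 : AnalyticAt ℂ Φ (χ₀.q x) := by
      rw [hq]
      exact hΦa
    exact AnalyticAt.fun_comp h2 (χ₀.q_an x hxU)
  · filter_upwards [hb2, hΘr] with p hp hp2
    have h1 := χ₀.σ_mem _ hp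
    rw [hτ, hσ]
    simp only
    rw [χ₀.q_smul _ h1.2.1 a ha, h1.2.2, hp2]
  · rw [hσ0]
    filter_upwards [hU, hqc.eventually hΘl] with y hy hy2 hyX
    obtain ⟨-, c, hc, hyc⟩ := χ₀.surj y hyX hy
    refine ⟨c * a⁻¹, mul_ne_zero hc (inv_ne_zero ha), ?_⟩
    rw [hτ, hσ]
    simp only
    rw [hy2, smul_smul, mul_assoc, inv_mul_cancel₀ ha, mul_one]
    exact hyc
  · rw [hσ0]
    have h1 : ∀ᶠ w in 𝓝 (x, (1 : ℂ)), w.1 ∈ χ₀.U := continuousAt_fst.tendsto.eventually hU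
    have h20 : ∀ᶠ c in 𝓝 (1 : ℂ), c ≠ 0 := eventually_ne_nhds one_ne_zero
    have h2 : ∀ᶠ w in 𝓝 (x, (1 : ℂ)), w.2 ≠ 0 := by
      have h21 : Tendsto (Prod.snd : EN N × ℂ → ℂ) (𝓝 (x, (1 : ℂ))) (𝓝 1) := continuousAt_snd
      exact h21.eventually h20
    filter_upwards [h1, h2] with w hw1 hw2
    rw [hτ]
    simp only
    rw [χ₀.q_smul _ hw1 _ hw2]
  · have hυ0 : υ 0 - z ∈ Λ := by
      have h1 := hυl.self_of_nhds
      have h2 := hu.smul (χ₀.σ 0) hm0.1 a ha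
      rw [← hxa] at h2
      have h3 := Λ.sub_mem hz (Λ.add_mem h2 h1)
      have h4 : u x - z - (u x - u (χ₀.σ 0) + (u (χ₀.σ 0) - υ 0)) = υ 0 - z := by ring
      rwa [h4] at h3
    filter_upwards [hb2, hΘr, hΘc.eventually hυl] with p hp hp2 hp3
    have h1 := hu.smul (χ₀.σ (Θ p)) (χ₀.σ_mem _ hp).1 a ha
    have h2 : υ (Θ p) - υ 0 = p.1 := congrArg Prod.fst hp2
    have h3 := Λ.add_mem (Λ.add_mem h1 hp3) hυ0
    have h4 : u (a • χ₀.σ (Θ p)) - u (χ₀.σ (Θ p)) + (u (χ₀.σ (Θ p)) - υ (Θ p)) + (υ 0 - z) = u (σ p) - (z + p.1) := by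
      rw [← h2, hσ]
      ring
    rwa [h4] at h3

theorem exists_str_chart (hX : IsCone X) (hch : Charts X) (hu : TorusMap X Λ u) (hΛ : Lat Λ) {x w : EN N} (hx : x ∈ X)
    (hw : DU X Λ u x w 1) {z : ℂ} (hz : u x - z ∈ Λ) {η : ℝ} (hη : 0 < η) :
    ∃ (χ : Chart X) (ρ : ℝ), x ∈ χ.U ∧ χ.q x = 0 ∧ Mon Λ u χ z ρ 1 0 ∧
      ∀ p ∈ ball (0 : ℂ × ℂ) 2, dist (pr (χ.σ p)) (pr x) < η ∧ ‖mo z ρ 1 0 p - z‖ < η := by
  obtain ⟨χ₀, υ, s, hxU, hq, hadm⟩ := Pool.Agent.H62.EF.exists_adm hX hch hu hΛ hx one_ne_zero hw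
  have h0s : (0 : ℂ × ℂ) ∈ ball (0 : ℂ × ℂ) s := mem_ball_self hadm.pos
  have hυl : ∀ᶠ p in 𝓝 (0 : ℂ × ℂ), u (χ₀.σ p) - υ p ∈ Λ := by
    filter_upwards [isOpen_ball.mem_nhds h0s] with p hp
    exact hadm.lift p hp
  obtain ⟨σ, τ, hG, hσ0, hσl⟩ := StC_germ hX hu hx χ₀ hxU hq (hadm.an 0 h0s) hυl (hadm.ne 0 h0s) hz
  obtain ⟨η', hη', hall⟩ := Metric.eventually_nhds_iff_ball.1 (hG.σ_mem.and hσl)
  obtain ⟨χ, r, hr, hσU, hq0, hχ⟩ := exists_small_chart hX hG (lt_min hη hη')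
  rw [hσ0] at hσU hq0
  have hmo : ∀ p : ℂ × ℂ, mo z r 1 0 p = z + (r : ℂ) * p.1 := by
    intro p
    rw [mo, pow_one, pow_zero, mul_one]
  refine ⟨χ, r, hσU, hq0, ⟨hr, by norm_num, fun p hp => ?_⟩, fun p hp => ⟨?_, ?_⟩⟩
  · obtain ⟨h1, -, b, hb, h3⟩ := hχ p hp
    have h4 := hall ((r : ℂ) • p) (mem_ball_zero_iff.2 (h1.trans_le (min_le_right _ _)))
    have h5 := Λ.add_mem (hu.smul _ h4.1 b hb) h4.2
    have h6 : u (b • σ ((r : ℂ) • p)) - u (σ ((r : ℂ) • p)) + (u (σ ((r : ℂ) • p)) - (z + ((r : ℂ) • p).1)) =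
        u (χ.σ p) - mo z r 1 0 p := by
      rw [h3, hmo, Prod.smul_fst, smul_eq_mul]
      ring
    rwa [h6] at h5
  · have h2 := (hχ p hp).2.1
    rw [hσ0] at h2
    exact h2.trans_le (min_le_left _ _)
  · rw [hmo, add_sub_cancel_left]
    have h1 := (hχ p hp).1
    have h2 : ‖(r : ℂ) * p.1‖ ≤ ‖(r : ℂ) • p‖ := norm_fst_le ((r : ℂ) • p)
    exact h2.trans_lt (h1.trans_le (min_le_left _ _))

theorem exists_str_of_lift (hX : IsCone X) (hch : Charts X) (hu : TorusMap X Λ u) (hΛ : Lat Λ) {Ψ : ℂ → EN N} {z₀ : ℂ} {r : ℝ}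
    (hr : 0 < r) (hΨ : DifferentiableOn ℂ Ψ (ball z₀ r)) (hΨX : ∀ z ∈ ball z₀ r, Ψ z ∈ X ∧ u (Ψ z) - z ∈ Λ) {η : ℝ} (hη : 0 < η) :
    ∃ (χ : Chart X) (ρ : ℝ), Ψ z₀ ∈ χ.U ∧ χ.q (Ψ z₀) = 0 ∧ Mon Λ u χ z₀ ρ 1 0 ∧
      ∀ p ∈ ball (0 : ℂ × ℂ) 2, dist (pr (χ.σ p)) (pr (Ψ z₀)) < η ∧ ‖mo z₀ ρ 1 0 p - z₀‖ < η := by
  have h0 : ball z₀ r ∈ 𝓝 z₀ := ball_mem_nhds z₀ hr
  have hΨa : AnalyticAt ℂ Ψ z₀ := hΨ.analyticAt h0
  have hm := hΨX z₀ (mem_ball_self hr)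
  have hc : Tendsto (fun z : ℂ => z₀ + z) (𝓝 0) (𝓝 z₀) := by
    have h1 : ContinuousAt (fun z : ℂ => z₀ + z) 0 := by fun_prop
    have h2 := h1.tendsto
    rwa [add_zero] at h2
  have hev : ∀ᶠ z in 𝓝 (0 : ℂ), z₀ + z ∈ ball z₀ r := hc.eventually h0
  have hl : AnalyticAt ℂ (fun z : ℂ => z₀ + z) 0 := analyticAt_const.add analyticAt_id
  have hDU : DU X Λ u (Ψ z₀) (deriv Ψ z₀) 1 := by
    refine ⟨fun z => Ψ (z₀ + z), fun z => z₀ + z, ?_, ?_, ?_, ?_, hl, ?_, ?_⟩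
    · have h1 : AnalyticAt ℂ Ψ ((fun z : ℂ => z₀ + z) 0) := by
        simp only [add_zero]
        exact hΨa
      exact AnalyticAt.fun_comp h1 hl
    · filter_upwards [hev] with z hz
      exact (hΨX _ hz).1
    · simp only [add_zero]
    · rw [deriv_comp_const_add, add_zero]
    · filter_upwards [hev] with z hz
      exact (hΨX _ hz).2
    · rw [deriv_const_add, deriv_id'']
  exact exists_str_chart hX hch hu hΛ hm.1 hDU hm.2 hη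

end Pool.Agent.H62.EL

end
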