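import Pool.Agent.H94.CB.H36.BP.WdA_2
import Pool.Agent.H94.CB.H62.EF.LimL
import Pool.Agent.H94.CB.H62.EL.Defs
import Pool.Agent.H94.CB.M22

/-! The parts of this file: H62.EL.Zl, H62.EL.SbB. -/

section

/-!
# EL Zl: the sections are uniformly Lipschitz away from the bad fibres

Let `δ' > 0` and suppose not: for every `n` there are `F n ∈ Sec`, `z n ∈ Gd B δ'` with `fs (F n (z n)) ((F n)' (z n)) > 4 (n + 1) / δ'`.  Translate by `Λ` (`sec_trans`;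
`Gd B δ'` is `Λ`-invariant, `BadSet.gd_add`; `Lat.cocompact`): we may assume `‖z n‖ ≤ R`.  Rescale as in `rescale_fs` (EF ZalA; copy its proof and keep the information
`‖z₀‖ ≤ 1/2`) for the curve `ζ ↦ F n (z n + δ' ζ)`: there are `w n` with `‖w n - z n‖ ≤ δ'/2`, so `w n ∈ Gd B (δ'/2)`, and `a n → ∞` (`a n > 4 (n + 1)`) such that
`G n ζ = F n (w n + δ' ζ / a n)` has `fs (G n 0) ((G n)' 0) = 1` and `fs ≤ 2` on `ball 0 (n + 1)`; `u (G n ζ) - (w n + δ' ζ / a n) ∈ Λ`.  As in EF Zal (`limit_curves`,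
`𝒰 = hyperfilter ℕ`) we get `G` entire in `X`, `fs (G 0) (G' 0) = 1`, so `G` is not constant in the projective space, and `u (G ζ) - u (G ζ') ∈ Λ`.  Moreover
`w n → w` along `𝒰`, `w ∈ Gd B (δ'/2)` (closed), and `u (G 0) - w ∈ Λ` (`TorusMap.unif`, `Lat.mem_of_close`).  By `E.fib` there is `b ∈ B` with `u (G 0) - b ∈ Λ`, so `w - b ∈ Λ`,
`w = b + l ∈ B` (`BadSet.inv`): contradiction to `w ∈ Gd B (δ'/2)`.
`sec_lip_gd`: for `z ∈ Gd B δ'` the ball of radius `3 δ'/4` about `z` is inside `Gd B (δ'/4)`: `pr_lipschitz` on it with the bound `L` of `sec_bound` for `δ'/4`.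
-/

set_option autoImplicit false

open Topology Filter Metric

namespace Pool.Agent.H62.EL

attribute [-instance] ProperSMul.toContinuousSMul

open Pool.Agent.H36.BP (EN fs wd IsGermChart)
open Pool.Agent.H14.PP (IsCone Chart Tan CurveAt)
open Pool.Agent.H62.EF (Lat MN pr TorusMap Sec Charts DU)

variable {N : ℕ} {X : Set (EN N)} {Λ : AddSubgroup ℂ} {u : EN N → ℂ}

private theorem rescale_fs_half {F : ℂ → EN N} (hF : Differentiable ℂ F) (h0 : ∀ z, F z ≠ 0) (n : ℕ)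
    (hbig : 4 * ((n : ℝ) + 1) < fs (F 0) (deriv F 0)) :
    ∃ (z₀ : ℂ) (a : ℝ), ‖z₀‖ ≤ 1 / 2 ∧ 4 * ((n : ℝ) + 1) < a ∧ fs (F z₀) (deriv (fun ζ => F (z₀ + ((a⁻¹ : ℝ) : ℂ) * ζ)) 0) = 1 ∧
      ∀ ζ ∈ ball (0 : ℂ) (n + 1), fs (F (z₀ + ((a⁻¹ : ℝ) : ℂ) * ζ)) (deriv (fun ζ => F (z₀ + ((a⁻¹ : ℝ) : ℂ) * ζ)) ζ) ≤ 2 := by
  have hn : (0 : ℝ) ≤ n := Nat.cast_nonneg n
  have hFc : Continuous F := hF.continuous
  have hF'c : Continuous (deriv F) := (hF.contDiff (n := 1)).continuous_deriv le_rfl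
  have hgc : Continuous fun z : ℂ => fs (F z) (deriv F z) := by
    unfold fs
    refine (Pool.Agent.H36.BP.wd_cont.comp (hFc.prodMk hF'c)).div (hFc.norm.pow 2) ?_
    intro z
    exact pow_ne_zero 2 (norm_ne_zero_iff.mpr (h0 z))
  set u : ℂ → ℝ := fun z => fs (F z) (deriv F z) * (1 / 2 - ‖z‖) with hu
  have huc : Continuous u := hgc.mul (continuous_const.sub continuous_norm)
  obtain ⟨z₀, hz₀, hmax⟩ := (isCompact_closedBall (0 : ℂ) (1 / 2)).exists_isMaxOn ⟨0, by simp⟩ huc.continuousOn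
  have hz₀n : ‖z₀‖ ≤ 1 / 2 := by simpa using hz₀
  have hu0z : u 0 ≤ u z₀ := hmax (by simp : (0 : ℂ) ∈ closedBall (0 : ℂ) (1 / 2))
  have hu0 : u 0 = fs (F 0) (deriv F 0) / 2 := by simp only [hu, norm_zero]; ring
  have hm : 2 * ((n : ℝ) + 1) < u z₀ := by rw [hu0] at hu0z; linarith
  set d : ℝ := 1 / 2 - ‖z₀‖ with hd
  have hd0 : 0 ≤ d := by rw [hd]; linarith
  set a : ℝ := fs (F z₀) (deriv F z₀) with ha
  have ha0 : 0 ≤ a := Pool.Agent.H36.BP.fs_nonneg _ _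
  have huz : u z₀ = a * d := rfl
  have hpos : 0 < a * d := by rw [← huz]; linarith
  have hapos : 0 < a := by
    rcases ha0.lt_or_eq with h | h
    · exact h
    · rw [← h] at hpos; simp at hpos
  have hdpos : 0 < d := by
    rcases hd0.lt_or_eq with h | h
    · exact h
    · rw [← h] at hpos; simp at hpos
  have hd2 : d ≤ 1 / 2 := by rw [hd]; linarith [norm_nonneg z₀]
  have haL : 4 * ((n : ℝ) + 1) < a := by
    have h1 : a * d ≤ a * (1 / 2) := mul_le_mul_of_nonneg_left hd2 ha0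
    rw [huz] at hm
    linarith
  set φ : ℂ → ℂ := fun ζ => z₀ + ((a⁻¹ : ℝ) : ℂ) * ζ with hφ
  have hφd : ∀ ζ, HasDerivAt φ ((a⁻¹ : ℝ) : ℂ) ζ := by
    intro ζ
    have := ((hasDerivAt_id ζ).const_mul ((a⁻¹ : ℝ) : ℂ)).const_add z₀
    simpa [hφ] using this
  have hkey : ∀ ζ ∈ ball (0 : ℂ) (n + 1), ‖φ ζ‖ ≤ 1 / 2 - d / 2 := by
    intro ζ hζ
    have hζn : ‖ζ‖ < n + 1 := by simpa using hζ
    have h1 : ‖φ ζ‖ ≤ ‖z₀‖ + a⁻¹ * ‖ζ‖ := by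
      calc ‖φ ζ‖ ≤ ‖z₀‖ + ‖((a⁻¹ : ℝ) : ℂ) * ζ‖ := norm_add_le _ _
        _ = ‖z₀‖ + a⁻¹ * ‖ζ‖ := by
          rw [norm_mul, Complex.norm_real, Real.norm_of_nonneg (by positivity)]
    have h2 : a⁻¹ * ‖ζ‖ ≤ d / 2 := by
      rw [inv_mul_le_iff₀ hapos]
      rw [huz] at hm
      linarith
    have h3 : ‖z₀‖ = 1 / 2 - d := by rw [hd]; ring
    linarith
  have hball : ∀ ζ ∈ ball (0 : ℂ) (n + 1), φ ζ ∈ closedBall (0 : ℂ) (1 / 2) := by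
    intro ζ hζ
    have := hkey ζ hζ
    rw [mem_closedBall_zero_iff]
    linarith
  have hder : ∀ ζ, deriv (fun ζ => F (φ ζ)) ζ = ((a⁻¹ : ℝ) : ℂ) • deriv F (φ ζ) := by
    intro ζ
    exact ((hF (φ ζ)).hasDerivAt.scomp ζ (hφd ζ)).deriv
  have hfs : ∀ ζ, fs (F (φ ζ)) (deriv (fun ζ => F (φ ζ)) ζ) = a⁻¹ * fs (F (φ ζ)) (deriv F (φ ζ)) := by
    intro ζ
    rw [hder, Pool.Agent.H36.BP.fs_smul_right, Complex.norm_real, Real.norm_of_nonneg (by positivity)]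
  have hφ0 : φ 0 = z₀ := by simp [hφ]
  refine ⟨z₀, a, hz₀n, haL, ?_, ?_⟩
  · have h1 := hfs 0
    rw [hφ0, ← ha, inv_mul_cancel₀ hapos.ne'] at h1
    exact h1
  · intro ζ hζ
    change fs (F (φ ζ)) (deriv (fun ζ => F (φ ζ)) ζ) ≤ 2
    rw [hfs ζ]
    have h1 : u (φ ζ) ≤ u z₀ := hmax (hball ζ hζ)
    have h2 := hkey ζ hζ
    have h3 : fs (F (φ ζ)) (deriv F (φ ζ)) * (1 / 2 - ‖φ ζ‖) ≤ a * d := h1
    have h4 : 0 ≤ fs (F (φ ζ)) (deriv F (φ ζ)) := Pool.Agent.H36.BP.fs_nonneg _ _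
    have h5 : fs (F (φ ζ)) (deriv F (φ ζ)) * (d / 2) ≤ a * d :=
      le_trans (mul_le_mul_of_nonneg_left (by linarith) h4) h3
    have h6 : fs (F (φ ζ)) (deriv F (φ ζ)) ≤ 2 * a := by
      by_contra hc
      push Not at hc
      have : 2 * a * (d / 2) < fs (F (φ ζ)) (deriv F (φ ζ)) * (d / 2) := mul_lt_mul_of_pos_right hc (by linarith)
      linarith
    rw [inv_mul_le_iff₀ hapos]
    linarith

theorem sec_bound {Γ : AddSubgroup ℂ} {B : Set ℂ} {δ : ℝ} (E : EData X Λ u Γ B δ) {δ' : ℝ} (hδ' : 0 < δ') :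
    ∃ L : ℝ, 0 < L ∧ ∀ F ∈ Sec X Λ u, ∀ z ∈ Gd B δ', fs (F z) (deriv F z) ≤ L := by
  have hX := E.cone
  have hu := E.tor
  have hΛ := E.lat
  by_contra hcon
  push Not at hcon
  have hbig : ∀ n : ℕ, ∃ F ∈ Sec X Λ u, ∃ z ∈ Gd B δ', 4 * ((n : ℝ) + 1) / δ' < fs (F z) (deriv F z) :=
    fun n => hcon _ (by positivity)
  have hX0 : ∀ x ∈ X, x ≠ 0 := fun x hx h => hX.zero_notMem (h ▸ hx)
  obtain ⟨R, hR0, hR⟩ := hΛ.cocompact
  have hbig' : ∀ n : ℕ, ∃ F ∈ Sec X Λ u, ∃ z ∈ Gd B δ', ‖z‖ ≤ R ∧ 4 * ((n : ℝ) + 1) / δ' < fs (F z) (deriv F z) := by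
    intro n
    obtain ⟨F, hF, z, hz, hb⟩ := hbig n
    obtain ⟨l, hl, hlR⟩ := hR z
    refine ⟨fun ζ => F (ζ + l), Pool.Agent.H62.EF.sec_trans hF hl, z - l, ?_, hlR, ?_⟩
    · rw [← BadSet.gd_add E.bad δ' hl, sub_add_cancel]
      exact hz
    · rw [deriv_comp_add_const, sub_add_cancel]
      show 4 * ((n : ℝ) + 1) / δ' < fs (F (z - l + l)) (deriv F z)
      rw [sub_add_cancel]
      exact hb
  choose F hFS zc hzG hzR hzc using hbig'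
  have hresc : ∀ n : ℕ, ∃ (z₀ : ℂ) (a : ℝ), ‖z₀‖ ≤ 1 / 2 ∧ 4 * ((n : ℝ) + 1) < a ∧
      fs (F n (zc n + (δ' : ℂ) * z₀)) (deriv (fun ζ => F n (zc n + (δ' : ℂ) * (z₀ + ((a⁻¹ : ℝ) : ℂ) * ζ))) 0) = 1 ∧
      ∀ ζ ∈ ball (0 : ℂ) (n + 1), fs (F n (zc n + (δ' : ℂ) * (z₀ + ((a⁻¹ : ℝ) : ℂ) * ζ)))
        (deriv (fun ζ => F n (zc n + (δ' : ℂ) * (z₀ + ((a⁻¹ : ℝ) : ℂ) * ζ))) ζ) ≤ 2 := by
    intro n
    have hd : Differentiable ℂ (fun z => F n (zc n + (δ' : ℂ) * z)) :=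
      (hFS n).1.comp ((differentiable_id.const_mul _).const_add _)
    refine rescale_fs_half hd (fun z => hX0 _ ((hFS n).2.1 _)) n ?_
    have h1 : HasDerivAt (fun z : ℂ => zc n + (δ' : ℂ) * z) (δ' : ℂ) 0 := by
      simpa using ((hasDerivAt_id (0 : ℂ)).const_mul (δ' : ℂ)).const_add (zc n)
    have h2 : deriv (fun z => F n (zc n + (δ' : ℂ) * z)) 0 = (δ' : ℂ) • deriv (F n) (zc n) := by
      have h3 := (((hFS n).1 (zc n + (δ' : ℂ) * 0)).hasDerivAt.scomp 0 h1).deriv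
      rw [mul_zero, add_zero] at h3
      exact h3
    rw [h2, Pool.Agent.H36.BP.fs_smul_right, Complex.norm_real, Real.norm_of_nonneg hδ'.le, mul_zero, add_zero]
    have h4 := hzc n
    rw [div_lt_iff₀ hδ'] at h4
    linarith
  choose z₀ a hz₀ ha h1 h2 using hresc
  have ha0 : ∀ n, 0 < a n := fun n => lt_trans (by positivity) (ha n)
  set G : ℕ → ℂ → EN N := fun n ζ => F n (zc n + (δ' : ℂ) * (z₀ n + (((a n)⁻¹ : ℝ) : ℂ) * ζ)) with hGdef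
  set w : ℕ → ℂ := fun n => zc n + (δ' : ℂ) * z₀ n with hwdef
  have hGd : ∀ n, Differentiable ℂ (G n) := by
    intro n
    exact (hFS n).1.comp ((((differentiable_id.const_mul _).const_add _).const_mul _).const_add _)
  have hGX : ∀ n ζ, G n ζ ∈ X := fun n ζ => (hFS n).2.1 _
  have hGu : ∀ n ζ, u (G n ζ) - (zc n + (δ' : ℂ) * (z₀ n + (((a n)⁻¹ : ℝ) : ℂ) * ζ)) ∈ Λ := fun n ζ => (hFS n).2.2 _
  have hGu2 : ∀ n ζ ζ', u (G n ζ) - u (G n ζ') - (((a n)⁻¹ : ℝ) : ℂ) * ((δ' : ℂ) * (ζ - ζ')) ∈ Λ := by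
    intro n ζ ζ'
    have := Λ.sub_mem (hGu n ζ) (hGu n ζ')
    convert this using 1
    ring
  have hGw : ∀ n, u (G n 0) - w n ∈ Λ := by
    intro n
    have := hGu n 0
    rwa [mul_zero, add_zero] at this
  have hG1 : ∀ n, fs (G n 0) (deriv (G n) 0) = 1 := by
    intro n
    have := h1 n
    rw [hGdef]
    simpa only [mul_zero, add_zero] using this
  have hwz : ∀ n, ‖w n - zc n‖ ≤ δ' / 2 := by
    intro n
    have h3 : w n - zc n = (δ' : ℂ) * z₀ n := by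
      rw [hwdef]
      ring
    rw [h3, norm_mul, Complex.norm_real, Real.norm_of_nonneg hδ'.le]
    have := mul_le_mul_of_nonneg_left (hz₀ n) hδ'.le
    linarith
  have hwG : ∀ n, w n ∈ Gd B (δ' / 2) := by
    intro n b hb
    have h3 := hzG n b hb
    have h4 : ‖zc n - b‖ ≤ ‖w n - b‖ + ‖w n - zc n‖ := by
      have h5 : zc n - b = (w n - b) - (w n - zc n) := by ring
      rw [h5]
      exact norm_sub_le _ _
    have h5 := hwz n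
    linarith
  have hwR : ∀ n, w n ∈ closedBall (0 : ℂ) (R + δ' / 2) := by
    intro n
    rw [mem_closedBall_zero_iff]
    have h3 : w n = zc n + (w n - zc n) := by ring
    rw [h3]
    exact (norm_add_le _ _).trans (add_le_add (hzR n) (hwz n))
  set 𝒰 : Ultrafilter ℕ := hyperfilter ℕ with h𝒰
  have hle : (𝒰 : Filter ℕ) ≤ atTop := Nat.hyperfilter_le_atTop
  obtain ⟨w₀, -, hw₀⟩ := (isCompact_closedBall (0 : ℂ) (R + δ' / 2)).ultrafilter_le_nhds (𝒰.map w) (by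
    rw [Filter.le_principal_iff, Ultrafilter.coe_map, Filter.mem_map]
    exact Filter.univ_mem' hwR)
  have hwt : Tendsto w 𝒰 (𝓝 w₀) := hw₀
  have hw₀G : w₀ ∈ Gd B (δ' / 2) :=
    (isClosed_gd (B := B) (δ' / 2)).mem_of_tendsto hwt (Eventually.of_forall hwG)
  have hρ : Tendsto (fun n : ℕ => (n : ℝ) + 1) 𝒰 atTop :=
    (tendsto_atTop_add_const_right _ _ tendsto_natCast_atTop_atTop).mono_left hle
  have hainv : Tendsto (fun n => (a n)⁻¹) 𝒰 (𝓝 0) := by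
    have h3 : Tendsto a 𝒰 atTop := by
      refine tendsto_atTop_mono (fun n => ?_) hρ
      have := ha n
      have h4 : (0 : ℝ) ≤ n := Nat.cast_nonneg n
      linarith
    exact tendsto_inv_atTop_zero.comp h3
  obtain ⟨H, hH, hHX, hpr, hfs, hloc⟩ := Pool.Agent.H62.EF.limit_curves hX (L := 2) two_pos 𝒰 G (fun n : ℕ => (n : ℝ) + 1) hρ
    (Eventually.of_forall fun n => ⟨(hGd n).differentiableOn, fun z hz => ⟨hGX n z, h2 n z hz⟩⟩)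
  have hH0 : ∀ z, H z ≠ 0 := fun z => hX0 _ (hHX z)
  -- the limit is not constant
  have hone : fs (H 0) (deriv H 0) = 1 := by
    have h3 := hfs 0
    simp only [hG1] at h3
    exact tendsto_nhds_unique h3 tendsto_const_nhds |>.symm ▸ rfl
  have hnc : ∃ z w, ∀ c : ℂ, H z ≠ c • H w := by
    by_contra hc
    push Not at hc
    obtain ⟨b, hb⟩ := Pool.Agent.H36.BP.Brody_deriv_line (hH 0) (fun z => hc z 0)
    have h3 : wd (H 0) (deriv H 0) = 0 := (Pool.Agent.H36.BP.wd_eq_zero (hH0 0)).mpr ⟨b, hb⟩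
    unfold fs at hone
    rw [h3, zero_div] at hone
    exact zero_ne_one hone
  -- the limit is in a fibre
  have hnear : ∀ (ζ : ℂ) (ε : ℝ), 0 < ε → ∀ᶠ n in (𝒰 : Filter ℕ), ∃ l ∈ Λ, ‖u (H ζ) - u (G n ζ) - l‖ < ε := by
    intro ζ ε hε
    obtain ⟨δ, hδ, h3⟩ := TorusMap.unif hX hu hε
    have h4 : ∀ᶠ n in (𝒰 : Filter ℕ), dist (pr (G n ζ)) (pr (H ζ)) < δ := (hpr ζ).eventually (ball_mem_nhds _ hδ)
    filter_upwards [h4] with n hn
    rw [dist_comm] at hn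
    exact h3 _ (hHX ζ) _ (hGX n ζ) hn
  have hver : ∀ ζ ζ', u (H ζ) - u (H ζ') ∈ Λ := by
    intro ζ ζ'
    refine hΛ.mem_of_close fun ε hε => ?_
    have h3 := hnear ζ (ε / 3) (by positivity)
    have h4 := hnear ζ' (ε / 3) (by positivity)
    have h5 : ∀ᶠ n in (𝒰 : Filter ℕ), ‖(((a n)⁻¹ : ℝ) : ℂ) * ((δ' : ℂ) * (ζ - ζ'))‖ < ε / 3 := by
      have h6 : Tendsto (fun n => ‖(((a n)⁻¹ : ℝ) : ℂ) * ((δ' : ℂ) * (ζ - ζ'))‖) 𝒰 (𝓝 ‖((0 : ℝ) : ℂ) * ((δ' : ℂ) * (ζ - ζ'))‖) := by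
        refine Tendsto.norm (Tendsto.mul_const _ ?_)
        exact (Complex.continuous_ofReal.tendsto 0).comp hainv
      have h7 : ‖((0 : ℝ) : ℂ) * ((δ' : ℂ) * (ζ - ζ'))‖ < ε / 3 := by
        rw [Complex.ofReal_zero, zero_mul, norm_zero]
        positivity
      exact h6.eventually_lt_const h7
    obtain ⟨n, ⟨l, hl, hn1⟩, ⟨l', hl', hn2⟩, hn3⟩ := (h3.and (h4.and h5)).exists
    have h8 := hGu2 n ζ ζ'
    set q := u (G n ζ) - u (G n ζ') - (((a n)⁻¹ : ℝ) : ℂ) * ((δ' : ℂ) * (ζ - ζ')) with hq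
    refine ⟨l - l' + q, Λ.add_mem (Λ.sub_mem hl hl') h8, ?_⟩
    have h9 : u (H ζ) - u (H ζ') - (l - l' + q) =
        (u (H ζ) - u (G n ζ) - l) - (u (H ζ') - u (G n ζ') - l') + (((a n)⁻¹ : ℝ) : ℂ) * ((δ' : ℂ) * (ζ - ζ')) := by
      rw [hq]
      ring
    rw [h9]
    calc _ ≤ ‖(u (H ζ) - u (G n ζ) - l) - (u (H ζ') - u (G n ζ') - l')‖ + ‖(((a n)⁻¹ : ℝ) : ℂ) * ((δ' : ℂ) * (ζ - ζ'))‖ := norm_add_le _ _
      _ ≤ ‖u (H ζ) - u (G n ζ) - l‖ + ‖u (H ζ') - u (G n ζ') - l'‖ + ‖(((a n)⁻¹ : ℝ) : ℂ) * ((δ' : ℂ) * (ζ - ζ'))‖ := by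
        gcongr
        exact norm_sub_le _ _
      _ < ε := by linarith
  have hH0w : u (H 0) - w₀ ∈ Λ := by
    refine hΛ.mem_of_close fun ε hε => ?_
    have h3 := hnear 0 (ε / 2) (by positivity)
    have h4 : ∀ᶠ n in (𝒰 : Filter ℕ), dist (w n) w₀ < ε / 2 := hwt.eventually (ball_mem_nhds _ (by positivity))
    obtain ⟨n, ⟨l, hl, hn1⟩, hn2⟩ := (h3.and h4).exists
    refine ⟨l + (u (G n 0) - w n), Λ.add_mem hl (hGw n), ?_⟩
    have h5 : u (H 0) - w₀ - (l + (u (G n 0) - w n)) = (u (H 0) - u (G n 0) - l) + (w n - w₀) := by ring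
    rw [h5]
    rw [dist_eq_norm] at hn2
    calc _ ≤ ‖u (H 0) - u (G n 0) - l‖ + ‖w n - w₀‖ := norm_add_le _ _
      _ < ε := by linarith
  obtain ⟨b, hb, hHb⟩ := E.fib H hH hHX hver hnc
  have hwb : w₀ - b ∈ Λ := by
    have h3 := Λ.sub_mem hHb hH0w
    convert h3 using 1
    ring
  have hwB : w₀ ∈ B := by
    have h3 := E.bad.inv b hb _ hwb
    rwa [add_sub_cancel] at h3
  exact gd_notMem (by positivity) hw₀G hwB

theorem sec_lip_gd {Γ : AddSubgroup ℂ} {B : Set ℂ} {δ : ℝ} (E : EData X Λ u Γ B δ) {δ' : ℝ} (hδ' : 0 < δ') :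
    ∃ L : ℝ, 0 < L ∧ ∀ F ∈ Sec X Λ u, ∀ z ∈ Gd B δ', ∀ w ∈ closedBall z (δ' / 2), dist (pr (F z)) (pr (F w)) ≤ L * ‖z - w‖ := by
  obtain ⟨L, hL, hb⟩ := sec_bound E (δ' := δ' / 4) (by positivity)
  refine ⟨2 * L, by positivity, fun F hF z hz w hw => ?_⟩
  have hsub : ∀ y ∈ ball z (3 * δ' / 4), y ∈ Gd B (δ' / 4) := by
    intro y hy b hbB
    rw [mem_ball, dist_eq_norm] at hy
    have h1 := hz b hbB
    have h2 : ‖z - b‖ ≤ ‖y - b‖ + ‖y - z‖ := by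
      have h3 : z - b = (y - b) - (y - z) := by ring
      rw [h3]
      exact norm_sub_le _ _
    linarith
  have h0 : ∀ y ∈ ball z (3 * δ' / 4), F y ≠ 0 := fun y _ h => E.cone.zero_notMem (h ▸ hF.2.1 y)
  refine Pool.Agent.H62.EF.pr_lipschitz isOpen_ball (convex_ball z (3 * δ' / 4)) hF.1.differentiableOn h0
    (fun y hy => hb F hF y (hsub y hy)) z (mem_ball_self (by positivity)) w ?_
  rw [mem_closedBall] at hw
  rw [mem_ball]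
  linarith

end Pool.Agent.H62.EL

end

section

/-!
# EL SbB: the limits of the sections are holomorphic

`sb_lift`: let `z₀ ∉ B`, `z₀ ∈ Gd B (2δ')` for a `δ' > 0` (`BadSet.exists_gd`); `f` is a limit of a sequence `pr ∘ F n`, `F n ∈ Sec`, uniformly on `Gd B δ' ∩ closedBall 0 (‖z₀‖ + δ')`
(definition of `Sb` with `ε = 1/(n+1)`).  With the bound `L` of `sec_bound` for `δ'` and `r ≤ min (δ') (1 / (8 L))` the local part (a) of the proof of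
`limit_curves` (EF LimL; copy it: normalisation by `⟨e n, ·⟩`, `montel_ultrafilter`) on `ball z₀ r` gives `φ n = c n • F n → Ψ` locally uniformly, `Ψ` holomorphic without zeros, in `X`,
`pr (F n z) → pr (Ψ z)`, so `pr (Ψ z) = f z`; `u (F n z) - z ∈ Λ`, so `u (Ψ z) - z ∈ Λ` (`TorusMap.unif`, `Lat.mem_of_close`, as in `sec_lim`).
`sb_uniq`: `f, g ∈ Sb`, frequently `f z = g z` in `𝓝[≠] z₀`, `z₀ ∉ B`.  Local lifts `Ψ, Φ` at a point: the minors `Ψ_i Φ_j - Ψ_j Φ_i` are holomorphic; if they vanish frequently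
in `𝓝[≠]` they vanish near the point.  So the set `{z ∉ B : f = g near z}` contains `z₀`, is open and closed in `Bᶜ`; `Bᶜ` is open and connected: `B` is countable (`8δ`-separated) so `Bᶜ` is
path connected (`Set.Countable.isPathConnected_compl_of_one_lt_rank`), in particular preconnected.
-/

set_option autoImplicit false

open Topology Filter Metric

namespace Pool.Agent.H62.EL

attribute [-instance] ProperSMul.toContinuousSMul

open Pool.Agent.H36.BP (EN fs wd IsGermChart)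
open Pool.Agent.H14.PP (IsCone Chart Tan CurveAt)
open Pool.Agent.H62.EF (Lat MN pr TorusMap Sec Charts DU)
open Pool.Agent.H62.EF (pr_lipschitz norm_inner_sq continuousAt_pr pr_smul pr_eq_iff)

variable {N : ℕ} {X : Set (EN N)} {Λ : AddSubgroup ℂ} {u : EN N → ℂ}

variable {Γ : AddSubgroup ℂ} {B : Set ℂ} {δ : ℝ}

private theorem SbB_ne_zero (hX : IsCone X) {x : EN N} (hx : x ∈ X) : x ≠ 0 := by
  rintro rfl
  exact hX.zero_notMem hx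

private theorem SbB_local (hX : IsCone X) {L : ℝ} (hL : 0 < L) (𝒰 : Ultrafilter ℕ) (F : ℕ → ℂ → EN N) {z₀ : ℂ} {r₀ : ℝ}
    (hr₀ : 0 < r₀) (hF : ∀ᶠ n in (𝒰 : Filter ℕ), DifferentiableOn ℂ (F n) (ball z₀ r₀) ∧
      ∀ z ∈ ball z₀ r₀, F n z ∈ X ∧ fs (F n z) (deriv (F n) z) ≤ L) :
    ∃ (r : ℝ) (φ : ℕ → ℂ → EN N) (ψ : ℂ → EN N), 0 < r ∧ r ≤ r₀ ∧
        (∀ᶠ n in (𝒰 : Filter ℕ), ∀ z ∈ ball z₀ r, F n z ∈ X ∧ ∃ c : ℂ, c ≠ 0 ∧ φ n z = c • F n z) ∧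
        DifferentiableOn ℂ ψ (ball z₀ r) ∧ (∀ z ∈ ball z₀ r, ψ z ∈ X) ∧
        TendstoLocallyUniformlyOn φ ψ 𝒰 (ball z₀ r) := by
  set r : ℝ := min r₀ (1 / (8 * L)) with hr
  have hr0 : 0 < r := lt_min hr₀ (by positivity)
  have hrr : r ≤ r₀ := min_le_left _ _
  have hrL : r ≤ 1 / (8 * L) := min_le_right _ _
  have hz₀ : z₀ ∈ ball z₀ r := mem_ball_self hr0
  have hev : ∀ᶠ n in (𝒰 : Filter ℕ), DifferentiableOn ℂ (F n) (ball z₀ r) ∧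
      ∀ z ∈ ball z₀ r, F n z ∈ X ∧ ‖F n z₀‖ * ‖F n z‖ ≤ 2 * ‖inner ℂ (F n z₀) (F n z)‖ := by
    filter_upwards [hF] with n h1
    obtain ⟨h1, h3⟩ := h1
    have hsub : ball z₀ r ⊆ ball z₀ r₀ := ball_subset_ball hrr
    refine ⟨h1.mono hsub, fun z hz => ⟨(h3 z (hsub hz)).1, ?_⟩⟩
    have hx0 : F n z₀ ≠ 0 := SbB_ne_zero hX (h3 z₀ (hsub hz₀)).1
    have hy0 : F n z ≠ 0 := SbB_ne_zero hX (h3 z (hsub hz)).1
    have hlip := pr_lipschitz isOpen_ball (convex_ball z₀ r) (h1.mono hsub)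
      (fun w hw => SbB_ne_zero hX (h3 w (hsub hw)).1) (fun w hw => (h3 w (hsub hw)).2) z₀ hz₀ z hz
    have h4 : ‖z₀ - z‖ ≤ r := by
      rw [← dist_eq_norm, dist_comm]
      exact (mem_ball.mp hz).le
    have h5 : dist (pr (F n z₀)) (pr (F n z)) ≤ 1 / 4 := by
      calc dist (pr (F n z₀)) (pr (F n z)) ≤ 2 * L * ‖z₀ - z‖ := hlip
        _ ≤ 2 * L * (1 / (8 * L)) := by gcongr; exact h4.trans hrL
        _ = 1 / 4 := by field_simp; norm_num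
    have h6 := norm_inner_sq hx0 hy0
    have h7 : dist (pr (F n z₀)) (pr (F n z)) ^ 2 ≤ 1 := by
      have := dist_nonneg (x := pr (F n z₀)) (y := pr (F n z))
      nlinarith
    have h8 : (‖F n z₀‖ * ‖F n z‖) ^ 2 ≤ (2 * ‖inner ℂ (F n z₀) (F n z)‖) ^ 2 := by
      rw [mul_pow, mul_pow, h6]
      have h9 : 0 ≤ ‖F n z₀‖ ^ 2 * ‖F n z‖ ^ 2 := by positivity
      nlinarith
    exact abs_le_of_sq_le_sq' h8 (by positivity) |>.2
  set φ : ℕ → ℂ → EN N := fun n z => (((‖F n z₀‖ : ℝ) : ℂ) / inner ℂ (F n z₀) (F n z)) • F n z with hφ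
  have hev2 : ∀ᶠ n in (𝒰 : Filter ℕ), DifferentiableOn ℂ (F n) (ball z₀ r) ∧ DifferentiableOn ℂ (φ n) (ball z₀ r) ∧
      ∀ z ∈ ball z₀ r, F n z ∈ X ∧ (∃ c : ℂ, c ≠ 0 ∧ φ n z = c • F n z) ∧ ‖φ n z‖ ≤ 2 ∧ 1 ≤ ‖φ n z‖ := by
    filter_upwards [hev] with n h1
    obtain ⟨h1, h2⟩ := h1
    have hx0 : F n z₀ ≠ 0 := SbB_ne_zero hX (h2 z₀ hz₀).1
    have hxn : 0 < ‖F n z₀‖ := norm_pos_iff.mpr hx0
    have hin : ∀ z ∈ ball z₀ r, (inner ℂ (F n z₀) (F n z) : ℂ) ≠ 0 := by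
      intro z hz h
      have h3 := (h2 z hz).2
      have hyn : 0 < ‖F n z‖ := norm_pos_iff.mpr (SbB_ne_zero hX (h2 z hz).1)
      rw [h, norm_zero, mul_zero] at h3
      have : 0 < ‖F n z₀‖ * ‖F n z‖ := mul_pos hxn hyn
      linarith
    refine ⟨h1, ?_, fun z hz => ⟨(h2 z hz).1, ⟨_, ?_, rfl⟩, ?_, ?_⟩⟩
    · have h3 : DifferentiableOn ℂ (fun z => (inner ℂ (F n z₀) (F n z) : ℂ)) (ball z₀ r) :=
        (innerSL ℂ (F n z₀)).differentiable.comp_differentiableOn h1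
      have h4 : DifferentiableOn ℂ (fun z => ((‖F n z₀‖ : ℝ) : ℂ) / (inner ℂ (F n z₀) (F n z) : ℂ)) (ball z₀ r) :=
        (differentiableOn_const _).div h3 hin
      exact h4.smul h1
    · exact div_ne_zero (Complex.ofReal_ne_zero.mpr hxn.ne') (hin z hz)
    · have h3 := (h2 z hz).2
      have h4 : 0 < ‖(inner ℂ (F n z₀) (F n z) : ℂ)‖ := norm_pos_iff.mpr (hin z hz)
      simp only [hφ]
      rw [norm_smul, norm_div, Complex.norm_real, norm_norm, div_mul_eq_mul_div, div_le_iff₀ h4]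
      exact h3
    · have h4 : 0 < ‖(inner ℂ (F n z₀) (F n z) : ℂ)‖ := norm_pos_iff.mpr (hin z hz)
      simp only [hφ]
      rw [norm_smul, norm_div, Complex.norm_real, norm_norm, div_mul_eq_mul_div, le_div_iff₀ h4, one_mul]
      exact norm_inner_le_norm _ _
  obtain ⟨ψ, hψ, hconv⟩ := Pool.Agent.H17.montel_ultrafilter 𝒰 (F := φ) (a := z₀) (r := r) (B := 2)
    (hev2.mono fun n h => h.2.1) (hev2.mono fun n h z hz => ((h.2.2 z hz).2.2.1))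
  refine ⟨r, φ, ψ, hr0, hrr, hev2.mono fun n h z hz => ⟨(h.2.2 z hz).1, (h.2.2 z hz).2.1⟩, hψ, ?_, hconv⟩
  intro z hz
  have h1 : Tendsto (fun n => φ n z) 𝒰 (𝓝 (ψ z)) := hconv.tendsto_at hz
  have h2 : ψ z ∈ insert 0 X := by
    refine hX.closed.mem_of_tendsto h1 ?_
    filter_upwards [hev2] with n h
    obtain ⟨h3, ⟨c, hc, h4⟩, -⟩ := h.2.2 z hz
    rw [h4]
    exact Or.inr (hX.smul_mem _ h3 c hc)
  have h3 : 1 ≤ ‖ψ z‖ := by
    refine ge_of_tendsto h1.norm ?_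
    filter_upwards [hev2] with n h
    exact (h.2.2 z hz).2.2.2
  rcases h2 with h2 | h2
  · rw [h2, norm_zero] at h3
    linarith
  · exact h2

theorem sb_lift (E : EData X Λ u Γ B δ) {f : ℂ → MN N} (hf : f ∈ Sb X Λ u B) {z₀ : ℂ} (hz₀ : z₀ ∉ B) :
    ∃ (r : ℝ) (Ψ : ℂ → EN N), 0 < r ∧ DifferentiableOn ℂ Ψ (ball z₀ r) ∧
      ∀ z ∈ ball z₀ r, Ψ z ∈ X ∧ u (Ψ z) - z ∈ Λ ∧ pr (Ψ z) = f z := by
  obtain ⟨δ₂, hδ₂, hzg⟩ := E.bad.exists_gd hz₀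
  set δ' : ℝ := δ₂ / 2 with hδ'
  have hδ'0 : 0 < δ' := half_pos hδ₂
  have hsub : ∀ z ∈ ball z₀ δ', z ∈ Gd B δ' := by
    intro z hz b hb
    have h1 := hzg b hb
    have h2 : ‖z - z₀‖ < δ' := by
      rw [← dist_eq_norm]
      exact mem_ball.1 hz
    have h3 : ‖z₀ - b‖ ≤ ‖z - z₀‖ + ‖z - b‖ := by
      have h4 : z₀ - b = -(z - z₀) + (z - b) := by ring
      rw [h4]
      refine (norm_add_le _ _).trans ?_
      rw [norm_neg]
    linarith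
  obtain ⟨L, hL0, hL⟩ := sec_bound E hδ'0
  have hch : ∀ n : ℕ, ∃ F ∈ Sec X Λ u, ∀ z ∈ Gd B δ', ‖z‖ ≤ ‖z₀‖ + δ' → dist (pr (F z)) (f z) < 1 / ((n : ℝ) + 1) := fun n =>
    hf δ' hδ'0 (‖z₀‖ + δ') (1 / ((n : ℝ) + 1)) (by positivity)
  choose F hF hFd using hch
  set 𝒰 : Ultrafilter ℕ := hyperfilter ℕ with h𝒰
  have h𝒰t : (𝒰 : Filter ℕ) ≤ atTop := Nat.hyperfilter_le_atTop
  obtain ⟨r, φ, ψ, hr, hrr, hev, hψd, hψX, hconv⟩ := SbB_local E.cone hL0 𝒰 F (z₀ := z₀) hδ'0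
    (Filter.Eventually.of_forall fun n => ⟨(hF n).1.differentiableOn, fun z hz => ⟨(hF n).2.1 z, hL _ (hF n) z (hsub z hz)⟩⟩)
  have hball : ball z₀ r ⊆ ball z₀ δ' := ball_subset_ball hrr
  have hlimf : ∀ z ∈ ball z₀ r, Tendsto (fun n => pr (F n z)) 𝒰 (𝓝 (f z)) := by
    intro z hz
    have h1 : Tendsto (fun n : ℕ => 1 / ((n : ℝ) + 1)) 𝒰 (𝓝 0) := tendsto_one_div_add_atTop_nhds_zero_nat.mono_left h𝒰t
    rw [tendsto_iff_dist_tendsto_zero]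
    refine squeeze_zero (fun n => dist_nonneg) (fun n => (hFd n z (hsub z (hball hz)) ?_).le) h1
    have h2 : ‖z - z₀‖ < δ' := by
      rw [← dist_eq_norm]
      exact mem_ball.1 (hball hz)
    have h3 : ‖z‖ ≤ ‖z₀‖ + ‖z - z₀‖ := by
      have h4 : z = z₀ + (z - z₀) := by ring
      conv_lhs => rw [h4]
      exact norm_add_le _ _
    linarith
  have hlimψ : ∀ z ∈ ball z₀ r, Tendsto (fun n => pr (F n z)) 𝒰 (𝓝 (pr (ψ z))) := by
    intro z hz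
    have h1 : Tendsto (fun n => φ n z) 𝒰 (𝓝 (ψ z)) := hconv.tendsto_at hz
    have h2 : Tendsto (fun n => pr (φ n z)) 𝒰 (𝓝 (pr (ψ z))) :=
      (continuousAt_pr (SbB_ne_zero E.cone (hψX z hz))).tendsto.comp h1
    refine h2.congr' ?_
    filter_upwards [hev] with n h
    obtain ⟨-, c, hc, h4⟩ := h z hz
    rw [h4, pr_smul _ hc]
  refine ⟨r, ψ, hr, hψd, fun z hz => ⟨hψX z hz, ?_, tendsto_nhds_unique (hlimψ z hz) (hlimf z hz)⟩⟩
  apply Lat.mem_of_close E.lat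
  intro ε hε
  obtain ⟨δ₁, hδ₁, hδ2⟩ := TorusMap.unif E.cone E.tor hε
  have h1 : ∀ᶠ n in (𝒰 : Filter ℕ), dist (pr (F n z)) (pr (ψ z)) < δ₁ := by
    have := Metric.tendsto_nhds.1 (hlimψ z hz) δ₁ hδ₁
    exact this
  obtain ⟨n, hn1⟩ := h1.exists
  obtain ⟨l, hl, hl2⟩ := hδ2 (F n z) ((hF n).2.1 z) (ψ z) (hψX z hz) hn1
  refine ⟨(u (F n z) - z) - l, Λ.sub_mem ((hF n).2.2 z) hl, ?_⟩
  have h2 : u (ψ z) - z - ((u (F n z) - z) - l) = -(u (F n z) - u (ψ z) - l) := by ring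
  rw [h2, norm_neg]
  exact hl2

private theorem SbB_uniq_loc (E : EData X Λ u Γ B δ) {f g : ℂ → MN N} (hf : f ∈ Sb X Λ u B) (hg : g ∈ Sb X Λ u B) {z₁ : ℂ}
    (hz₁ : z₁ ∉ B) (h : ∃ᶠ z in 𝓝[≠] z₁, f z = g z) : ∀ᶠ z in 𝓝 z₁, f z = g z := by
  obtain ⟨r, Ψ, hr, hΨd, hΨ⟩ := sb_lift E hf hz₁
  obtain ⟨s, Φ, hs, hΦd, hΦ⟩ := sb_lift E hg hz₁
  have hbr : ball z₁ r ∈ 𝓝 z₁ := isOpen_ball.mem_nhds (mem_ball_self hr)
  have hbs : ball z₁ s ∈ 𝓝 z₁ := isOpen_ball.mem_nhds (mem_ball_self hs)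
  have hΨa : AnalyticAt ℂ Ψ z₁ := hΨd.analyticAt hbr
  have hΦa : AnalyticAt ℂ Φ z₁ := hΦd.analyticAt hbs
  have hco : ∀ (H : ℂ → EN N), AnalyticAt ℂ H z₁ → ∀ i, AnalyticAt ℂ (fun z => H z i) z₁ := by
    intro H hH i
    exact ((EuclideanSpace.proj (𝕜 := ℂ) i : EN N →L[ℂ] ℂ).analyticAt _).comp hH
  have hmin : ∀ i j, ∀ᶠ z in 𝓝 z₁, Ψ z i * Φ z j - Ψ z j * Φ z i = 0 := by
    intro i j
    have ha : AnalyticAt ℂ (fun z => Ψ z i * Φ z j - Ψ z j * Φ z i) z₁ :=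
      ((hco Ψ hΨa i).mul (hco Φ hΦa j)).sub ((hco Ψ hΨa j).mul (hco Φ hΦa i))
    refine ha.frequently_zero_iff_eventually_zero.1 ?_
    have h1 : ∀ᶠ z in 𝓝[≠] z₁, z ∈ ball z₁ r ∧ z ∈ ball z₁ s :=
      mem_nhdsWithin_of_mem_nhds (Filter.inter_mem hbr hbs)
    refine (h.and_eventually h1).mono ?_
    rintro z ⟨hfg, hzr, hzs⟩
    obtain ⟨hX1, -, h2⟩ := hΨ z hzr
    obtain ⟨hX2, -, h3⟩ := hΦ z hzs
    have h4 : pr (Ψ z) = pr (Φ z) := by rw [h2, h3, hfg]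
    obtain ⟨c, _, hc⟩ := (pr_eq_iff (SbB_ne_zero E.cone hX1) (SbB_ne_zero E.cone hX2)).1 h4
    have h5 : ∀ k, Ψ z k = c * Φ z k := by
      intro k
      rw [hc]
      simp
    rw [h5 i, h5 j]
    ring
  have hall : ∀ᶠ z in 𝓝 z₁, ∀ i j, Ψ z i * Φ z j - Ψ z j * Φ z i = 0 :=
    Filter.eventually_all.2 fun i => Filter.eventually_all.2 fun j => hmin i j
  filter_upwards [hall, hbr, hbs] with z hz hzr hzs
  obtain ⟨hX1, -, h2⟩ := hΨ z hzr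
  obtain ⟨hX2, -, h3⟩ := hΦ z hzs
  have h10 : Ψ z ≠ 0 := SbB_ne_zero E.cone hX1
  have h20 : Φ z ≠ 0 := SbB_ne_zero E.cone hX2
  obtain ⟨j, hj⟩ : ∃ j, Φ z j ≠ 0 := by
    by_contra hcon
    push Not at hcon
    apply h20
    ext k
    simpa using hcon k
  have hFc : Ψ z = (Ψ z j / Φ z j) • Φ z := by
    ext k
    have h1 := hz k j
    simp only [PiLp.smul_apply, smul_eq_mul]
    field_simp
    linear_combination h1
  have hne : Ψ z j / Φ z j ≠ 0 := by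
    intro h'
    rw [h', zero_smul] at hFc
    exact h10 hFc
  rw [← h2, ← h3]
  exact (pr_eq_iff h10 h20).2 ⟨_, hne, hFc⟩

private theorem SbB_countable (h : BadSet B Λ δ) : B.Countable := by
  have hd : B.PairwiseDisjoint (fun b => ball b (4 * δ)) := by
    intro b hb b' hb' hne
    refine ball_disjoint_ball ?_
    rw [dist_eq_norm]
    have := h.sep b hb b' hb' hne
    linarith
  exact hd.countable_of_isOpen (fun _ _ => isOpen_ball) fun b _ => ⟨b, mem_ball_self (by linarith [h.pos])⟩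

theorem sb_uniq (E : EData X Λ u Γ B δ) {f g : ℂ → MN N} (hf : f ∈ Sb X Λ u B) (hg : g ∈ Sb X Λ u B) {z₀ : ℂ} (hz₀ : z₀ ∉ B)
    (h : ∃ᶠ z in 𝓝[≠] z₀, f z = g z) : Ag B f g := by
  have hcon : IsPreconnected (Bᶜ : Set ℂ) := by
    have h1 : 1 < Module.rank ℝ ℂ := by
      rw [Complex.rank_real_complex]
      exact Cardinal.one_lt_two
    exact ((SbB_countable E.bad).isPathConnected_compl_of_one_lt_rank h1).isConnected.isPreconnected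
  set U : Set ℂ := {z | ∀ᶠ w in 𝓝 z, f w = g w} with hU
  have hUo : IsOpen U := by
    rw [isOpen_iff_mem_nhds]
    intro z hz
    exact hz.eventually_nhds
  have hz₀U : z₀ ∈ U := SbB_uniq_loc E hf hg hz₀ h
  have hsub : (Bᶜ : Set ℂ) ⊆ U := by
    refine hcon.subset_of_closure_inter_subset hUo ⟨z₀, hz₀, hz₀U⟩ ?_
    rintro z ⟨hzc, hzB⟩
    refine SbB_uniq_loc E hf hg hzB ?_
    intro hcontra
    have h1 : ∀ᶠ w in 𝓝 z, w ≠ z → ¬ f w = g w := by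
      rw [eventually_nhdsWithin_iff] at hcontra
      exact hcontra
    obtain ⟨V, hV, hVo, hzV⟩ := _root_.mem_nhds_iff.1 h1
    obtain ⟨w, hwV, hwU⟩ := _root_.mem_closure_iff.1 hzc V hVo hzV
    have h2 : ∀ᶠ x in 𝓝 w, x ∈ V ∧ f x = g x := Filter.Eventually.and (hVo.mem_nhds hwV) hwU
    have h3 : ∃ᶠ x in 𝓝[≠] w, x ∈ V ∧ f x = g x := (h2.filter_mono nhdsWithin_le_nhds).frequently
    have h4 : ∃ x, (x ∈ V ∧ f x = g x) ∧ x ≠ z := by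
      by_cases hwz : w = z
      · obtain ⟨x, hx, hxw⟩ := (h3.and_eventually (self_mem_nhdsWithin : ∀ᶠ x in 𝓝[≠] w, x ∈ ({w}ᶜ : Set ℂ))).exists
        refine ⟨x, hx, ?_⟩
        rw [← hwz]
        exact hxw
      · exact ⟨w, ⟨hwV, hwU.self_of_nhds⟩, hwz⟩
    obtain ⟨x, ⟨hxV, hx⟩, hxz⟩ := h4
    exact hV hxV hxz hx
  intro z hz
  exact (hsub hz : z ∈ U).self_of_nhds

end Pool.Agent.H62.EL

end
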