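import Pool.Agent.H94.CB.M158
import Pool.Agent.H94.CB.M159
import Pool.Agent.H94.CB.M160

/-! The parts of this file: H62.EL.SbA, H62.EL.Cp, H62.EL.Nr. -/

section

/-!
# EL SbA: the limits of the sections

`sb_lip`: let `L` be from `sec_lip_gd` for `δ'`; `z ∈ Gd B δ'`, `w ∈ closedBall z (δ'/2)` (so `w ∈ Gd B (δ'/2)`), `ε > 0`: there is `F ∈ Sec` with `dist (pr (F ·)) (f ·) < ε` at `z` and
at `w` (definition of `Sb` with `δ'/2`, `R = ‖z‖ + δ'`); so `dist (f z) (f w) ≤ L ‖z - w‖ + 2ε`.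
`sb_mem`: `f z` is a limit of points of the compact set `pr '' X` (`isCompact_pr`).
`sb_trans`: for `F ∈ Sec` near `f` on `Gd B δ' ∩ closedBall 0 (R + ‖l‖)`, `F (· + l)` is near `f (· + l)` (`sec_trans`, `BadSet.gd_add`); `l ∈ Λ`.
`sec_sb`: take `F` itself.
`sb_lim`: let `F n ∈ Sb` for `𝒰`-almost all `n`, `F n z → f z` for all `z ∉ B`.  Let `δ', R, ε`.  `Gd B δ' ∩ closedBall 0 R` is compact; the `F n` and `f` satisfy the Lipschitz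
condition with the same constant (the limit inherits it), so the convergence is uniform there (finite net of points of the set with mesh `s ≤ δ'/2`, `L s ≤ ε/8`); take `n` with
`dist (F n z) (f z) < ε/2` there and `G ∈ Sec` with `dist (pr (G z)) (F n z) < ε/2` there.
-/

set_option autoImplicit false

open Topology Filter Metric

namespace Pool.Agent.H62.EL

attribute [-instance] ProperSMul.toContinuousSMul

open Pool.Agent.H36.BP (EN fs wd IsGermChart)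
open Pool.Agent.H14.PP (IsCone Chart Tan CurveAt)
open Pool.Agent.H62.EF (Lat MN pr TorusMap Sec Charts DU)

variable {N : ℕ} {X : Set (EN N)} {Λ : AddSubgroup ℂ} {u : EN N → ℂ}

variable {Γ : AddSubgroup ℂ} {B : Set ℂ} {δ : ℝ}

theorem sb_lip (E : EData X Λ u Γ B δ) {δ' : ℝ} (hδ' : 0 < δ') :
    ∃ L : ℝ, 0 < L ∧ ∀ f ∈ Sb X Λ u B, ∀ z ∈ Gd B δ', ∀ w ∈ closedBall z (δ' / 2), dist (f z) (f w) ≤ L * ‖z - w‖ := by
  obtain ⟨L, hL, hlip⟩ := sec_lip_gd E hδ'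
  refine ⟨L, hL, fun f hf z hz w hw => ?_⟩
  have hzw : ‖z - w‖ ≤ δ' / 2 := by
    rw [mem_closedBall, dist_comm, dist_eq_norm] at hw
    exact hw
  have hw' : w ∈ Gd B (δ' / 2) := by
    intro b hb
    have h1 := hz b hb
    have h2 : ‖z - b‖ ≤ ‖z - w‖ + ‖w - b‖ := by
      calc ‖z - b‖ = ‖(z - w) + (w - b)‖ := by
            congr 1
            ring
        _ ≤ _ := norm_add_le _ _
    linarith
  refine le_of_forall_pos_le_add fun ε hε => ?_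
  obtain ⟨F, hF, hFd⟩ := hf (δ' / 2) (by linarith) (‖z‖ + δ') (ε / 2) (by linarith)
  have h1 := hFd z (gd_mono (by linarith) hz) (by linarith)
  have h2 := hFd w hw' (by
    have h3 : ‖w‖ ≤ ‖z‖ + ‖z - w‖ := by
      calc ‖w‖ = ‖z - (z - w)‖ := by
            congr 1
            ring
        _ ≤ _ := norm_sub_le _ _
    linarith)
  have h3 := hlip F hF z hz w hw
  calc dist (f z) (f w) ≤ dist (f z) (pr (F z)) + dist (pr (F z)) (pr (F w)) + dist (pr (F w)) (f w) :=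
        dist_triangle4 _ _ _ _
    _ ≤ ε / 2 + L * ‖z - w‖ + ε / 2 := by
        rw [dist_comm (f z)]
        linarith
    _ = L * ‖z - w‖ + ε := by ring

theorem sb_mem (E : EData X Λ u Γ B δ) {f : ℂ → MN N} (hf : f ∈ Sb X Λ u B) {z : ℂ} (hz : z ∉ B) : f z ∈ pr '' X := by
  obtain ⟨δ', hδ', hz'⟩ := E.bad.exists_gd hz
  have hc := (Pool.Agent.H62.EF.isCompact_pr E.cone).isClosed
  rw [← hc.closure_eq, Metric.mem_closure_iff]
  intro ε hε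
  obtain ⟨F, hF, hFd⟩ := hf δ' hδ' ‖z‖ ε hε
  refine ⟨pr (F z), ⟨F z, hF.2.1 z, rfl⟩, ?_⟩
  rw [dist_comm]
  exact hFd z hz' le_rfl

theorem sb_trans (E : EData X Λ u Γ B δ) {f : ℂ → MN N} (hf : f ∈ Sb X Λ u B) {l : ℂ} (hl : l ∈ Λ) :
    (fun z => f (z + l)) ∈ Sb X Λ u B := by
  intro δ' hδ' R ε hε
  obtain ⟨F, hF, hFd⟩ := hf δ' hδ' (R + ‖l‖) ε hε
  refine ⟨fun z => F (z + l), Pool.Agent.H62.EF.sec_trans hF hl, fun z hz hzR => ?_⟩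
  exact hFd (z + l) ((E.bad.gd_add δ' hl).2 hz) ((norm_add_le _ _).trans (by linarith))

theorem sec_sb {F : ℂ → EN N} (hF : F ∈ Sec X Λ u) : (fun z => pr (F z)) ∈ Sb X Λ u B := by
  intro δ' _ R ε hε
  exact ⟨F, hF, fun z _ _ => by rw [dist_self]; exact hε⟩

theorem sb_lim (E : EData X Λ u Γ B δ) (𝒰 : Ultrafilter ℕ) (F : ℕ → ℂ → MN N) (f : ℂ → MN N)
    (hF : ∀ᶠ n in (𝒰 : Filter ℕ), F n ∈ Sb X Λ u B) (hf : ∀ z, z ∉ B → Tendsto (fun n => F n z) 𝒰 (𝓝 (f z))) :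
    f ∈ Sb X Λ u B := by
  intro δ' hδ' R ε hε
  obtain ⟨L, hL, hlip⟩ := sb_lip E hδ'
  have hgd : ∀ z ∈ Gd B δ', ∀ w ∈ closedBall z (δ' / 2), w ∉ B := by
    intro z hz w hw hwB
    have h1 := hz w hwB
    rw [mem_closedBall, dist_comm, dist_eq_norm] at hw
    linarith
  have hflip : ∀ z ∈ Gd B δ', ∀ w ∈ closedBall z (δ' / 2), dist (f z) (f w) ≤ L * ‖z - w‖ := by
    intro z hz w hw
    refine le_of_tendsto ((hf z (gd_notMem hδ' hz)).dist (hf w (hgd z hz w hw))) ?_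
    filter_upwards [hF] with n hn using hlip (F n) hn z hz w hw
  have hcomp : IsCompact (Gd B δ' ∩ closedBall (0 : ℂ) R) := (isCompact_closedBall 0 R).inter_left (isClosed_gd δ')
  have hs : 0 < min (δ' / 2) (ε / (8 * L)) := by positivity
  obtain ⟨t, htS, htf, hcov⟩ := hcomp.finite_cover_balls hs
  have hev : ∀ᶠ n in (𝒰 : Filter ℕ), F n ∈ Sb X Λ u B ∧ ∀ y ∈ t, dist (F n y) (f y) < ε / 8 := by
    refine hF.and ((Filter.eventually_all_finite htf).2 fun y hy => ?_)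
    exact (Metric.tendsto_nhds.1 (hf y (gd_notMem hδ' (htS hy).1))) (ε / 8) (by linarith)
  obtain ⟨n, hn, hnt⟩ := hev.exists
  obtain ⟨G, hG, hGd⟩ := hn δ' hδ' R (ε / 2) (by linarith)
  refine ⟨G, hG, fun z hz hzR => ?_⟩
  have h1 := hGd z hz hzR
  obtain ⟨y, hyt, hzy⟩ : ∃ y ∈ t, z ∈ ball y (min (δ' / 2) (ε / (8 * L))) := by
    have h2 := hcov ⟨hz, by rw [mem_closedBall_zero_iff]; exact hzR⟩
    obtain ⟨y, hy, hzy⟩ := Set.mem_iUnion₂.1 h2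
    exact ⟨y, hy, hzy⟩
  have hzy' : z ∈ closedBall y (δ' / 2) := ball_subset_closedBall (ball_subset_ball (min_le_left _ _) hzy)
  have hy := (htS hyt).1
  have hyz : ‖y - z‖ ≤ ε / (8 * L) := by
    rw [mem_ball, dist_comm, dist_eq_norm] at hzy
    exact hzy.le.trans (min_le_right _ _)
  have hLz : L * ‖y - z‖ ≤ ε / 8 := by
    calc L * ‖y - z‖ ≤ L * (ε / (8 * L)) := mul_le_mul_of_nonneg_left hyz hL.le
      _ = ε / 8 := by field_simp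
  have h3 := hlip (F n) hn y hy z hzy'
  have h4 := hflip y hy z hzy'
  have h5 := hnt y hyt
  have h6 : dist (F n z) (f z) ≤ dist (F n z) (F n y) + dist (F n y) (f y) + dist (f y) (f z) :=
    dist_triangle4 _ _ _ _
  rw [dist_comm (F n z) (F n y)] at h6
  have h7 := dist_triangle (pr (G z)) (F n z) (f z)
  linarith

/-- limits exist -/
theorem sb_exists_lim (E : EData X Λ u Γ B δ) (𝒰 : Ultrafilter ℕ) (F : ℕ → ℂ → MN N)
    (hF : ∀ᶠ n in (𝒰 : Filter ℕ), F n ∈ Sb X Λ u B) :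
    ∃ f ∈ Sb X Λ u B, ∀ z, z ∉ B → Tendsto (fun n => F n z) 𝒰 (𝓝 (f z)) := by
  classical
  have hc := Pool.Agent.H62.EF.isCompact_pr E.cone
  have h1 : ∀ z : ℂ, ∃ y : MN N, z ∉ B → Tendsto (fun n => F n z) 𝒰 (𝓝 y) := by
    intro z
    by_cases hz : z ∈ B
    · exact ⟨0, fun h => absurd hz h⟩
    · have h2 : pr '' X ∈ (𝒰.map fun n => F n z) := by
        rw [Ultrafilter.mem_map]
        filter_upwards [hF] with n hn using sb_mem E hn hz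
      obtain ⟨y, -, hy⟩ := hc.ultrafilter_le_nhds' _ h2
      exact ⟨y, fun _ => hy⟩
  choose f hf using h1
  exact ⟨f, sb_lim E 𝒰 F f hF hf, hf⟩

/-- convergence along convergent sequences of points -/
theorem sb_along (E : EData X Λ u Γ B δ) (𝒰 : Ultrafilter ℕ) (F : ℕ → ℂ → MN N) {f : ℂ → MN N}
    (hF : ∀ᶠ n in (𝒰 : Filter ℕ), F n ∈ Sb X Λ u B) (hf : ∀ z, z ∉ B → Tendsto (fun n => F n z) 𝒰 (𝓝 (f z)))
    {w : ℕ → ℂ} {z : ℂ} (hz : z ∉ B) (hw : Tendsto w 𝒰 (𝓝 z)) : Tendsto (fun n => F n (w n)) 𝒰 (𝓝 (f z)) := by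
  obtain ⟨δ', hδ', hz'⟩ := E.bad.exists_gd hz
  obtain ⟨L, hL, hlip⟩ := sb_lip E hδ'
  have h1 : Tendsto (fun n => L * ‖z - w n‖ + dist (F n z) (f z)) 𝒰 (𝓝 0) := by
    have h2 : Tendsto (fun n => ‖z - w n‖) 𝒰 (𝓝 0) := by
      have h3 := (tendsto_const_nhds (x := z) (f := (𝒰 : Filter ℕ))).sub hw
      rw [sub_self] at h3
      simpa using h3.norm
    have h4 : Tendsto (fun n => dist (F n z) (f z)) 𝒰 (𝓝 0) := tendsto_iff_dist_tendsto_zero.1 (hf z hz)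
    simpa using (h2.const_mul L).add h4
  rw [tendsto_iff_dist_tendsto_zero]
  refine squeeze_zero' (Filter.Eventually.of_forall fun n => dist_nonneg) ?_ h1
  filter_upwards [hF, hw.eventually (closedBall_mem_nhds z (by linarith : 0 < δ' / 2))] with n hn hwn
  have h5 := hlip (F n) hn z hz' (w n) hwn
  rw [dist_comm] at h5
  exact (dist_triangle _ (F n z) _).trans (by linarith)

end Pool.Agent.H62.EL

end

section

/-!
# EL Cp: uniform charts along the limits of the sections (Lebesgue numbers)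

`cap_of_small` (auxiliary, used several times): let `Ψ z₀ ∈ X`, `u (Ψ z₀) - z₀ ∈ Λ`, and `χ, ρ` a straight chart (`Mon Λ u χ z₀ ρ 1 0`) with `Ψ z₀ ∈ χ.U`, `χ.q (Ψ z₀) = 0` and
`‖mo z₀ ρ 1 0 p - z₀‖ < η` on `ball 0 2`, where no nonzero element of `Λ` has norm `< 2η`.  Then `Cap Λ u χ z₀ ρ z₀ (pr (Ψ z₀)) r` for some `r > 0`: by `near_of_pr` (the cone
`{x ∈ χ.U : ‖χ.q x‖ < 1}` is a neighbourhood of `Ψ z₀`) there is `r < η` such that `x ∈ X`, `dist (pr x) (pr (Ψ z₀)) ≤ r` implies `x ∈ χ.U`, `‖χ.q x‖ ≤ 1`; and then for `z ∈ closedBall z₀ r`,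
`u x - z ∈ Λ`: `mo z₀ ρ 1 0 (χ.q x) - z ∈ Λ` (`Mon.lift`, `x = a • χ.σ (χ.q x)`), of norm `< η + r ≤ 2η`, so it is `0`.

`exists_cap_P`: suppose not: for every `n` there are `z_n ∈ Gd B δ'`, `‖z_n‖ ≤ R`, `f_n ∈ Sb` without such a chart for `r = 1/(n+1)`.  Along `𝒰 = hyperfilter ℕ`: `z_n → z ∈ Gd B δ'`,
`f_n → f ∈ Sb` (`sb_exists_lim`), `f_n z_n → f z` (`sb_along`).  Let `Ψ` be a lift of `f` near `z` (`sb_lift`), `η` from `hP z f`, and a straight chart of size `< η` (and small with respect to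
`Λ`) at `Ψ z` (`exists_str_of_lift`); `P χ` holds.  By `cap_of_small` `Cap ... z (f z) r`, so `Cap ... z_n (f_n z_n) (r/2)` as soon as `‖z_n - z‖ ≤ r/2`, `dist (f_n z_n) (f z) ≤ r/2`, and then also
with `1/(n+1) ≤ r/2`: contradiction.

`exists_cap`: `exists_cap_P` with `P = True` and `R` the covering radius of `Λ`; for arbitrary `z₀ ∈ Gd B δ'` choose `l ∈ Λ` with `‖z₀ - l‖ ≤ R` and use the chart for `(z₀ - l, f (· + l))` with `c + l` instead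
of `c`.

`exists_irel`: suppose not: `f_n, g_n ∈ Sb`, `z_n ∈ Gd B δ'`, `dist (f_n z_n) (g_n z_n) ≤ 1/(n+1)`, `α_n` without `v`.  Translate by `Λ`: `z_n` bounded [here the form changes: `α'_n` with
`toFun z = α_n.toFun (z + l_n)` is again a `TForm`; `IRel α'_n ε (z_n - l_n) ..` implies `IRel α_n ε z_n ..` with `c + l_n`.  To avoid this: prove first the statement for the relation without `α`:
`∃ χ c ρ p p', Mon .. ∧ p, p' ∈ ball 0 2 ∧ c + ρ p.1 = z ∧ ... ∧ (∀ θ, dist ..)`, which is invariant under translation, and add a primitive `A` at the end by `exists_prim`].  Limits `z`, `f`, `f_n z_n → f z`,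
`g_n z_n → f z`.  A straight chart `χ` at the lift `Ψ z`, `Cap` of radius `r` at `(z, f z)`: for large `n` the lifts `x_n, x'_n ∈ X` of `f_n z_n`, `g_n z_n` (`sb_mem`; with `u x_n - z_n ∈ Λ`, from `sb_lift`) are in
`χ.U`; `p_n = χ.q x_n`, `p'_n = χ.q x'_n` tend to `0`; `c + ρ (p_n).1 = z_n = c + ρ (p'_n).1`, and `dist (pr (χ.σ (p_n + θ (p'_n - p_n)))) (f_n z_n) ≤ ε` for large `n` by continuity at `0`: contradiction.
-/

set_option autoImplicit false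

open Topology Filter Metric

namespace Pool.Agent.H62.EL

attribute [-instance] ProperSMul.toContinuousSMul

open Pool.Agent.H36.BP (EN fs wd IsGermChart)
open Pool.Agent.H14.PP (IsCone Chart Tan CurveAt jac)
open Pool.Agent.H62.EF (Lat MN pr TorusMap Sec Charts DU)

variable {N : ℕ} {X : Set (EN N)} {Λ : AddSubgroup ℂ} {u : EN N → ℂ}

variable {Γ : AddSubgroup ℂ} {B : Set ℂ} {δ : ℝ}

private lemma cp_q_small (hX : IsCone X) {χ : Chart X} {x₀ : EN N} (hx₀ : x₀ ∈ X) (hU : x₀ ∈ χ.U) (hq : χ.q x₀ = 0)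
    {s : ℝ} (hs : 0 < s) : ∃ d : ℝ, 0 < d ∧ ∀ x ∈ X, dist (pr x) (pr x₀) < d → x ∈ χ.U ∧ ‖χ.q x‖ < s := by
  have hx0 : x₀ ≠ 0 := fun h => hX.zero_notMem (h ▸ hx₀)
  have hV : {x | x ∈ χ.U ∧ ‖χ.q x‖ < s} ∈ 𝓝 x₀ := by
    have h1 : ∀ᶠ x in 𝓝 x₀, x ∈ χ.U := χ.isOpen_U.mem_nhds hU
    have h2 : ∀ᶠ x in 𝓝 x₀, ‖χ.q x‖ < s := by
      have hc : ContinuousAt (fun x => ‖χ.q x‖) x₀ := (χ.q_an x₀ hU).continuousAt.norm
      have h3 : (fun x => ‖χ.q x‖) x₀ < s := by simpa [hq] using hs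
      exact hc.tendsto.eventually_lt_const h3
    exact h1.and h2
  obtain ⟨d, hd, h⟩ := Pool.Agent.H62.EF.near_of_pr hx0 hV
  refine ⟨d, hd, fun x hx hxd => ?_⟩
  obtain ⟨c, hc, hcU, hcq⟩ := h x (fun h0 => hX.zero_notMem (h0 ▸ hx)) hxd
  have e : x = c⁻¹ • (c • x) := by rw [smul_smul, inv_mul_cancel₀ hc, one_smul]
  have hxU : x ∈ χ.U := by rw [e]; exact χ.smul_U _ hcU _ (inv_ne_zero hc)
  refine ⟨hxU, ?_⟩
  rw [← χ.q_smul x hxU c hc]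
  exact hcq

private lemma cp_mo (b : ℂ) (ρ : ℝ) (p : ℂ × ℂ) : mo b ρ 1 0 p = b + ρ * p.1 := by
  simp [mo]

private lemma cp_pr_q {χ : Chart X} {x : EN N} (hx : x ∈ X) (hU : x ∈ χ.U) : pr (χ.σ (χ.q x)) = pr x := by
  obtain ⟨hb, c, hc, e⟩ := χ.surj x hx hU
  conv_rhs => rw [e]
  exact (Pool.Agent.H62.EF.pr_smul _ hc).symm

/-- translation of the value of `u` -/
private lemma cp_mon_add {χ : Chart X} {c : ℂ} {ρ : ℝ} (h : Mon Λ u χ c ρ 1 0) {l : ℂ} (hl : l ∈ Λ) : Mon Λ u χ (c + l) ρ 1 0 where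
  pos := h.pos
  ij := h.ij
  lift := fun p hp => by
    have h1 := Λ.sub_mem (h.lift p hp) hl
    rw [cp_mo] at h1 ⊢
    have e : u (χ.σ p) - (c + l + ρ * p.1) = u (χ.σ p) - (c + ρ * p.1) - l := by ring
    rw [e]
    exact h1

private lemma cp_cap_mono {χ : Chart X} {c : ℂ} {ρ : ℝ} {z₀ : ℂ} {y₀ : MN N} {r : ℝ} (h : Cap Λ u χ c ρ z₀ y₀ r) {z₁ : ℂ} {y₁ : MN N}
    {r₁ : ℝ} (hr : r₁ ≤ r / 2) (hz : dist z₁ z₀ ≤ r / 2) (hy : dist y₁ y₀ ≤ r / 2) : Cap Λ u χ c ρ z₁ y₁ r₁ where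
  mon := h.mon
  cap := fun z hz' x hx hxz hd => by
    refine h.cap z ?_ x hx hxz ?_
    · rw [mem_closedBall] at hz' ⊢
      have := dist_triangle z z₁ z₀
      linarith
    · have := dist_triangle (pr x) y₁ y₀
      linarith

theorem cap_of_small (hX : IsCone X) (hu : TorusMap X Λ u) {x₀ : EN N} (hx₀ : x₀ ∈ X) {z₀ : ℂ} (hz₀ : u x₀ - z₀ ∈ Λ)
    {χ : Chart X} {ρ η : ℝ} (hm : Mon Λ u χ z₀ ρ 1 0) (hU : x₀ ∈ χ.U) (hq : χ.q x₀ = 0) (hinj : ∀ l ∈ Λ, ‖l‖ < 2 * η → l = 0)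
    (hr : ∀ p ∈ ball (0 : ℂ × ℂ) 2, ‖mo z₀ ρ 1 0 p - z₀‖ < η) : ∃ r : ℝ, 0 < r ∧ Cap Λ u χ z₀ ρ z₀ (pr x₀) r := by
  obtain ⟨d, hd, h⟩ := cp_q_small hX hx₀ hU hq (zero_lt_one' ℝ)
  have hη : 0 < η := lt_of_le_of_lt (norm_nonneg _) (hr 0 (mem_ball_self two_pos))
  have hr0 : 0 < min (d / 2) (η / 2) := lt_min (by linarith) (by linarith)
  refine ⟨min (d / 2) (η / 2), hr0, hm, fun z hz x hx hxz hxd => ?_⟩
  have h1 : min (d / 2) (η / 2) ≤ d / 2 := min_le_left _ _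
  have h2 : min (d / 2) (η / 2) ≤ η / 2 := min_le_right _ _
  obtain ⟨hxU, hxq⟩ := h x hx (by linarith)
  refine ⟨hxU, ?_, ?_⟩
  · rw [mem_closedBall, dist_zero_right]
    exact hxq.le
  · obtain ⟨hb, c, hc, e⟩ := χ.surj x hx hxU
    have h3 : u x - u (χ.σ (χ.q x)) ∈ Λ := by
      have h3' := hu.smul _ (χ.σ_mem _ hb).1 c hc
      rw [← e] at h3'
      exact h3'
    have h4 := hm.lift _ hb
    have h5 : mo z₀ ρ 1 0 (χ.q x) - z ∈ Λ := by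
      have h6 := Λ.sub_mem (Λ.sub_mem hxz h3) h4
      have e2 : mo z₀ ρ 1 0 (χ.q x) - z =
          u x - z - (u x - u (χ.σ (χ.q x))) - (u (χ.σ (χ.q x)) - mo z₀ ρ 1 0 (χ.q x)) := by ring
      rw [e2]
      exact h6
    have h7 : ‖mo z₀ ρ 1 0 (χ.q x) - z‖ < 2 * η := by
      have e3 : mo z₀ ρ 1 0 (χ.q x) - z = (mo z₀ ρ 1 0 (χ.q x) - z₀) - (z - z₀) := by ring
      have h8 := norm_sub_le (mo z₀ ρ 1 0 (χ.q x) - z₀) (z - z₀)
      have h9 := hr _ hb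
      rw [mem_closedBall, dist_eq_norm] at hz
      rw [e3]
      linarith
    have h10 := hinj _ h5 h7
    rw [cp_mo] at h10
    exact sub_eq_zero.1 h10

/-- a straight chart at a point of a member of `Sb` -/
private lemma cp_chart (E : EData X Λ u Γ B δ) {f : ℂ → MN N} (hf : f ∈ Sb X Λ u B) {w : ℂ} (hw : w ∉ B) {η : ℝ} (hη : 0 < η) :
    ∃ (x₀ : EN N) (χ : Chart X) (ρ r : ℝ), x₀ ∈ X ∧ pr x₀ = f w ∧ x₀ ∈ χ.U ∧ χ.q x₀ = 0 ∧ 0 < r ∧ Cap Λ u χ w ρ w (f w) r ∧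
      ∀ p ∈ ball (0 : ℂ × ℂ) 2, dist (pr (χ.σ p)) (f w) < η := by
  obtain ⟨r₀, Ψ, hr₀, hΨ, hΨX⟩ := sb_lift E hf hw
  obtain ⟨d, hd, hdis⟩ := E.lat.discrete
  have hη' : 0 < min η (d / 2) := lt_min hη (by linarith)
  obtain ⟨χ, ρ, hU, hq, hm, hr⟩ := exists_str_of_lift E.cone E.charts E.tor E.lat hr₀ hΨ
    (fun z hz => ⟨(hΨX z hz).1, (hΨX z hz).2.1⟩) hη'
  obtain ⟨hx, hux, hpr⟩ := hΨX w (mem_ball_self hr₀)
  obtain ⟨r, hr1, hcap⟩ := cap_of_small E.cone E.tor hx hux hm hU hq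
    (fun l hl hl' => hdis l hl (lt_of_lt_of_le hl' (by have := min_le_right η (d / 2); linarith))) (fun p hp => (hr p hp).2)
  rw [hpr] at hcap hr
  exact ⟨Ψ w, χ, ρ, r, hx, hpr, hU, hq, hr1, hcap, fun p hp => lt_of_lt_of_le (hr p hp).1 (min_le_left _ _)⟩

/-- limits along an ultrafilter -/
private lemma cp_limit (E : EData X Λ u Γ B δ) {δ' R : ℝ} (hδ' : 0 < δ') (𝒰 : Ultrafilter ℕ) (z : ℕ → ℂ)
    (hz : ∀ n, z n ∈ Gd B δ') (hR : ∀ n, ‖z n‖ ≤ R) (F : ℕ → ℂ → MN N) (hF : ∀ n, F n ∈ Sb X Λ u B) :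
    ∃ (w : ℂ) (f : ℂ → MN N), w ∈ Gd B δ' ∧ ‖w‖ ≤ R ∧ f ∈ Sb X Λ u B ∧ Tendsto z 𝒰 (𝓝 w) ∧
      Tendsto (fun n => F n (z n)) 𝒰 (𝓝 (f w)) := by
  have hK : IsCompact (closedBall (0 : ℂ) R ∩ Gd B δ') := (isCompact_closedBall 0 R).inter_right (isClosed_gd δ')
  have hle : ((𝒰.map z : Ultrafilter ℂ) : Filter ℂ) ≤ 𝓟 (closedBall (0 : ℂ) R ∩ Gd B δ') := by
    rw [le_principal_iff]
    exact Filter.mem_map.2 (Filter.univ_mem' fun n => ⟨by rw [mem_closedBall, dist_zero_right]; exact hR n, hz n⟩)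
  obtain ⟨w, hw, hlim⟩ := hK.ultrafilter_le_nhds (𝒰.map z) hle
  obtain ⟨f, hf, hff⟩ := sb_exists_lim E 𝒰 F (Filter.Eventually.of_forall hF)
  have hzw : Tendsto z 𝒰 (𝓝 w) := hlim
  refine ⟨w, f, hw.2, ?_, hf, hzw, ?_⟩
  · have := hw.1
    rwa [mem_closedBall, dist_zero_right] at this
  · exact sb_along E 𝒰 F (Filter.Eventually.of_forall hF) hff (gd_notMem hδ' hw.2) hzw

private lemma cp_eps (𝒰 : Ultrafilter ℕ) (h𝒰 : (𝒰 : Filter ℕ) ≤ atTop) {s : ℝ} (hs : 0 < s) :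
    ∀ᶠ n : ℕ in (𝒰 : Filter ℕ), 1 / ((n : ℝ) + 1) ≤ s := by
  have h := tendsto_one_div_add_atTop_nhds_zero_nat (𝕜 := ℝ)
  exact h𝒰 (h.eventually_le_const hs)

theorem exists_cap_P (E : EData X Λ u Γ B δ) {δ' R : ℝ} (hδ' : 0 < δ') (P : Chart X → Prop)
    (hP : ∀ z₀ ∈ Gd B δ', ‖z₀‖ ≤ R → ∀ f ∈ Sb X Λ u B, ∃ η : ℝ, 0 < η ∧
      ∀ χ : Chart X, (∀ p ∈ ball (0 : ℂ × ℂ) 2, dist (pr (χ.σ p)) (f z₀) < η) → P χ) :
    ∃ r : ℝ, 0 < r ∧ ∀ z₀ ∈ Gd B δ', ‖z₀‖ ≤ R → ∀ f ∈ Sb X Λ u B, ∃ (χ : Chart X) (c : ℂ) (ρ : ℝ),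
      Cap Λ u χ c ρ z₀ (f z₀) r ∧ P χ := by
  by_contra hcon
  push Not at hcon
  choose z hz hR F hF hno using fun n : ℕ => hcon (1 / ((n : ℝ) + 1)) (by positivity)
  have h𝒰 : ((hyperfilter ℕ : Ultrafilter ℕ) : Filter ℕ) ≤ atTop := Nat.hyperfilter_le_atTop
  obtain ⟨w, f, hw, hwR, hf, hzw, hFw⟩ := cp_limit E hδ' (hyperfilter ℕ) z hz hR F hF
  obtain ⟨η, hη, hPη⟩ := hP w hw hwR f hf
  obtain ⟨x₀, χ, ρ, r, -, -, -, -, hr, hcap, hχ⟩ := cp_chart E hf (gd_notMem hδ' hw) hη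
  have h1 : ∀ᶠ n in ((hyperfilter ℕ : Ultrafilter ℕ) : Filter ℕ), dist (z n) w < r / 2 :=
    hzw.eventually (ball_mem_nhds w (half_pos hr))
  have h2 : ∀ᶠ n in ((hyperfilter ℕ : Ultrafilter ℕ) : Filter ℕ), dist (F n (z n)) (f w) < r / 2 :=
    hFw.eventually (ball_mem_nhds (f w) (half_pos hr))
  have h3 := cp_eps (hyperfilter ℕ) h𝒰 (half_pos hr)
  obtain ⟨n, hn1, hn2, hn3⟩ := (h1.and (h2.and h3)).exists
  exact hno n χ w ρ (cp_cap_mono hcap hn3 hn1.le hn2.le) (hPη χ hχ)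

theorem exists_cap (E : EData X Λ u Γ B δ) {δ' : ℝ} (hδ' : 0 < δ') : ∃ r : ℝ, 0 < r ∧ ∀ z₀ ∈ Gd B δ', ∀ f ∈ Sb X Λ u B,
    ∃ (χ : Chart X) (c : ℂ) (ρ : ℝ), Cap Λ u χ c ρ z₀ (f z₀) r := by
  obtain ⟨R, -, hR⟩ := E.lat.cocompact
  obtain ⟨r, hr, h⟩ := exists_cap_P E (R := R) hδ' (fun _ => True) (fun _ _ _ _ _ => ⟨1, one_pos, fun _ _ => trivial⟩)
  refine ⟨r, hr, fun z₀ hz₀ f hf => ?_⟩
  obtain ⟨l, hl, hzl⟩ := hR z₀
  have h1 : z₀ - l ∈ Gd B δ' := by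
    rw [sub_eq_add_neg]
    exact (E.bad.gd_add δ' (Λ.neg_mem hl)).2 hz₀
  obtain ⟨χ, c, ρ, hc, -⟩ := h (z₀ - l) h1 hzl _ (sb_trans E hf hl)
  refine ⟨χ, c + l, ρ, cp_mon_add hc.mon hl, fun z hz x hx hxz hd => ?_⟩
  have h2 := hc.cap (z - l) ?_ x hx ?_ ?_
  · refine ⟨h2.1, h2.2.1, ?_⟩
    linear_combination h2.2.2
  · rw [mem_closedBall, dist_eq_norm] at hz ⊢
    have e : z - l - (z₀ - l) = z - z₀ := by ring
    rw [e]
    exact hz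
  · have e : u x - (z - l) = (u x - z) + l := by ring
    rw [e]
    exact Λ.add_mem hxz hl
  · simpa using hd

/-- the relation without the form -/
private def cpRel (X : Set (EN N)) (Λ : AddSubgroup ℂ) (u : EN N → ℂ) (ε : ℝ) (z : ℂ) (y y' : MN N) : Prop :=
  ∃ (χ : Chart X) (c : ℂ) (ρ : ℝ) (p p' : ℂ × ℂ), Mon Λ u χ c ρ 1 0 ∧
    p ∈ ball (0 : ℂ × ℂ) 2 ∧ p' ∈ ball (0 : ℂ × ℂ) 2 ∧ c + ρ * p.1 = z ∧ c + ρ * p'.1 = z ∧ pr (χ.σ p) = y ∧ pr (χ.σ p') = y' ∧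
    (∀ θ ∈ Set.Icc (0 : ℝ) 1, dist (pr (χ.σ (p + (θ : ℂ) • (p' - p)))) y ≤ ε)

private lemma cp_rel_bdd (E : EData X Λ u Γ B δ) {δ' ε : ℝ} (R : ℝ) (hδ' : 0 < δ') (hε : 0 < ε) : ∃ ε₀ : ℝ, 0 < ε₀ ∧
    ∀ f ∈ Sb X Λ u B, ∀ g ∈ Sb X Λ u B, ∀ z ∈ Gd B δ', ‖z‖ ≤ R → dist (f z) (g z) ≤ ε₀ → cpRel X Λ u ε z (f z) (g z) := by
  by_contra hcon
  push Not at hcon
  choose F hF G hG z hz hR hFG hno using fun n : ℕ => hcon (1 / ((n : ℝ) + 1)) (by positivity)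
  have h𝒰 : ((hyperfilter ℕ : Ultrafilter ℕ) : Filter ℕ) ≤ atTop := Nat.hyperfilter_le_atTop
  obtain ⟨w, f, hw, hwR, hf, hzw, hFw⟩ := cp_limit E hδ' (hyperfilter ℕ) z hz hR F hF
  obtain ⟨x₀, χ, ρ, r, hx₀, hpr, hU, hq, hr, hcap, -⟩ := cp_chart E hf (gd_notMem hδ' hw) one_pos
  -- continuity of the chart at `0`
  have hσ0 : pr (χ.σ 0) = f w := by
    rw [← hpr, ← cp_pr_q hx₀ hU, hq]
  have h0 : (0 : ℂ × ℂ) ∈ ball (0 : ℂ × ℂ) 2 := mem_ball_self two_pos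
  have hcont : ContinuousAt (fun p => pr (χ.σ p)) (0 : ℂ × ℂ) := by
    have h1 : ContinuousAt pr (χ.σ 0) :=
      Pool.Agent.H62.EF.continuousAt_pr (fun h => E.cone.zero_notMem (h ▸ (χ.σ_mem 0 h0).1))
    exact ContinuousAt.comp (f := χ.σ) h1 (χ.σ_an 0 h0).continuousAt
  obtain ⟨s₀, hs₀, hs⟩ := Metric.continuousAt_iff.1 hcont (ε / 2) (half_pos hε)
  rw [hσ0] at hs
  have hs2 : 0 < min s₀ 2 := lt_min hs₀ two_pos
  obtain ⟨d, hd, hqs⟩ := cp_q_small E.cone hx₀ hU hq hs2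
  rw [hpr] at hqs
  set m : ℝ := min (min r d) ε / 4 with hm
  have hm0 : 0 < m := by
    have : 0 < min (min r d) ε := lt_min (lt_min hr hd) hε
    linarith
  have hmr : 4 * m ≤ r := by
    have := (min_le_left (min r d) ε).trans (min_le_left r d)
    linarith
  have hmd : 4 * m ≤ d := by
    have := (min_le_left (min r d) ε).trans (min_le_right r d)
    linarith
  have hmε : 4 * m ≤ ε := by
    have := min_le_right (min r d) ε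
    linarith
  have h1 : ∀ᶠ n in ((hyperfilter ℕ : Ultrafilter ℕ) : Filter ℕ), dist (z n) w < m :=
    hzw.eventually (ball_mem_nhds w hm0)
  have h2 : ∀ᶠ n in ((hyperfilter ℕ : Ultrafilter ℕ) : Filter ℕ), dist (F n (z n)) (f w) < m :=
    hFw.eventually (ball_mem_nhds (f w) hm0)
  have h3 := cp_eps (hyperfilter ℕ) h𝒰 hm0
  obtain ⟨n, hn1, hn2, hn3⟩ := (h1.and (h2.and h3)).exists
  refine hno n ?_
  have hznB : z n ∉ B := gd_notMem hδ' (hz n)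
  obtain ⟨r₁, Ψ, hr₁, -, hΨ⟩ := sb_lift E (hF n) hznB
  obtain ⟨r₂, Φ, hr₂, -, hΦ⟩ := sb_lift E (hG n) hznB
  obtain ⟨hx, hux, hprx⟩ := hΨ (z n) (mem_ball_self hr₁)
  obtain ⟨hx', hux', hprx'⟩ := hΦ (z n) (mem_ball_self hr₂)
  have hd1 : dist (pr (Ψ (z n))) (f w) < m := by rw [hprx]; exact hn2
  have hd2 : dist (pr (Φ (z n))) (f w) < 2 * m := by
    rw [hprx']
    have h4 := dist_triangle (G n (z n)) (F n (z n)) (f w)
    have h5 : dist (G n (z n)) (F n (z n)) ≤ 1 / ((n : ℝ) + 1) := by rw [dist_comm]; exact hFG n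
    linarith
  have hzc : z n ∈ closedBall w r := by rw [mem_closedBall]; linarith
  obtain ⟨hU1, hq1, hc1⟩ := hcap.cap (z n) hzc _ hx hux (by linarith)
  obtain ⟨hU2, hq2, hc2⟩ := hcap.cap (z n) hzc _ hx' hux' (by linarith)
  have hs1 := (hqs _ hx (by linarith)).2
  have hs2' := (hqs _ hx' (by linarith)).2
  refine ⟨χ, w, ρ, χ.q (Ψ (z n)), χ.q (Φ (z n)), hcap.mon, (χ.surj _ hx hU1).1, (χ.surj _ hx' hU2).1, hc1, hc2, ?_, ?_, ?_⟩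
  · rw [cp_pr_q hx hU1, hprx]
  · rw [cp_pr_q hx' hU2, hprx']
  · intro θ hθ
    have hmem : χ.q (Ψ (z n)) + (θ : ℂ) • (χ.q (Φ (z n)) - χ.q (Ψ (z n))) ∈ ball (0 : ℂ × ℂ) (min s₀ 2) := by
      have e : χ.q (Ψ (z n)) + (θ : ℂ) • (χ.q (Φ (z n)) - χ.q (Ψ (z n))) =
          (1 - θ) • χ.q (Ψ (z n)) + θ • χ.q (Φ (z n)) := by
        have e1 : ∀ v : ℂ × ℂ, (θ : ℂ) • v = θ • v := fun v => by
          ext <;> simp
        rw [e1, smul_sub, sub_smul, one_smul]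
        abel
      rw [e]
      exact (convex_ball (0 : ℂ × ℂ) (min s₀ 2)) (by rw [mem_ball, dist_zero_right]; exact hs1)
        (by rw [mem_ball, dist_zero_right]; exact hs2') (by linarith [hθ.2]) hθ.1 (by ring)
    have h6 := hs (lt_of_lt_of_le (mem_ball.1 hmem) (min_le_left _ _))
    have h7 := dist_triangle (pr (χ.σ (χ.q (Ψ (z n)) + (θ : ℂ) • (χ.q (Φ (z n)) - χ.q (Ψ (z n)))))) (f w) (F n (z n))
    rw [dist_comm (f w)] at h7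
    linarith

theorem exists_irel (E : EData X Λ u Γ B δ) {δ' ε : ℝ} (hδ' : 0 < δ') (hε : 0 < ε) : ∃ ε₀ : ℝ, 0 < ε₀ ∧
    ∀ f ∈ Sb X Λ u B, ∀ g ∈ Sb X Λ u B, ∀ z ∈ Gd B δ', dist (f z) (g z) ≤ ε₀ → ∀ α : TForm X Λ u, ∃ v, IRel α ε z (f z) (g z) v := by
  obtain ⟨R, -, hR⟩ := E.lat.cocompact
  obtain ⟨ε₀, hε₀, h⟩ := cp_rel_bdd E R hδ' hε
  refine ⟨ε₀, hε₀, fun f hf g hg z hz hd α => ?_⟩
  obtain ⟨l, hl, hzl⟩ := hR z
  have h1 : z - l ∈ Gd B δ' := by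
    rw [sub_eq_add_neg]
    exact (E.bad.gd_add δ' (Λ.neg_mem hl)).2 hz
  obtain ⟨χ, c, ρ, p, p', hm, hp, hp', hc, hc', hpr, hpr', hθ⟩ := h _ (sb_trans E hf hl) _ (sb_trans E hg hl) (z - l) h1 hzl
    (by simpa using hd)
  obtain ⟨A, hA⟩ := exists_prim α χ (cp_mon_add hm hl)
  simp only [sub_add_cancel] at hpr hpr' hθ
  exact ⟨_, χ, c + l, ρ, A, p, p', cp_mon_add hm hl, hA, hp, hp', by linear_combination hc, by linear_combination hc', hpr, hpr', hθ, rfl⟩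

end Pool.Agent.H62.EL

end

section

/-!
# EL Nr: near different points with the same integral are near the zeros of the form

`near_zr`: let `χ, c, ρ` be a chart with `Cap ... z (f z) r` and `A` a primitive (`exists_prim`), `x ∈ X` a lift of `f z` over `z` (`sb_lift`), `p = χ.q x`.  By `sb_along` `F n (w n) → f z`, `G n (w n) → f z`.  For large `n`:
`w n ∈ closedBall z r`, `dist (F n (w n)) (f z) + ε ≤ r`, `dist (F n (w n)) (G n (w n)) ≤ ε₀`, so there is `v` with `IRel` (`hrel`), and by `II_eq` `A (χ.q x'_n) = A (χ.q x_n)` with lifts `x_n, x'_n ∈ X` of `F n (w n)`,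
`G n (w n)` over `w n`.  `p_n = χ.q x_n ≠ p'_n = χ.q x'_n` (otherwise `x_n, x'_n` are proportional, `Chart.surj`), both tend to `p`, and `c + ρ (p_n).1 = w n = c + ρ (p'_n).1`.  If `∂₂ A p ≠ 0`, then by strict
differentiability of `A` at `p`: `‖A p'_n - A p_n - DA(p) (p'_n - p_n)‖ ≤ (‖∂₂ A p‖ / 2) ‖p'_n - p_n‖` for large `n`, and `DA(p) (p'_n - p_n) = ∂₂ A p * (p'_n - p_n).2` has norm `‖∂₂ A p‖ ‖p'_n - p_n‖`: contradiction.
So `tc α χ _ p = ∂₂ A p = 0` and `Zr α z (f z)` by `zr_iff` (`mo c ρ 1 0 p = z`, `pr (χ.σ p) = pr x = f z`).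

`zr_lim`: with `χ, c, ρ` and lifts as above: `tc α χ _ (p_n) = 0` for `p_n = χ.q x_n → p` (`zr_iff`), so `tc α χ _ p = 0` by continuity (`tc_an`).
`zr_per`: `Per`, `u x - z ∈ Λ ↔ u x - (z + l) ∈ Λ`.
-/

set_option autoImplicit false

open Topology Filter Metric

namespace Pool.Agent.H62.EL

attribute [-instance] ProperSMul.toContinuousSMul

open Pool.Agent.H36.BP (EN fs wd IsGermChart)
open Pool.Agent.H14.PP (IsCone Chart Tan CurveAt jac)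
open Pool.Agent.H62.EF (Lat MN pr TorusMap Sec Charts DU)

variable {N : ℕ} {X : Set (EN N)} {Λ : AddSubgroup ℂ} {u : EN N → ℂ}

variable {Γ : AddSubgroup ℂ} {B : Set ℂ} {δ : ℝ}

private theorem nr_ne (hX : IsCone X) {x : EN N} (hx : x ∈ X) : x ≠ 0 := by
  rintro rfl
  exact hX.zero_notMem hx

/-- points whose image under `pr` is near that of `x₀` lie in the chart, and their coordinates are near -/
private theorem nr_near (hX : IsCone X) (χ : Chart X) {x₀ : EN N} (hx₀ : x₀ ∈ X) (hU : x₀ ∈ χ.U) {V : Set (ℂ × ℂ)} (hV : V ∈ 𝓝 (χ.q x₀)) :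
    ∃ d : ℝ, 0 < d ∧ ∀ x ∈ X, dist (pr x) (pr x₀) < d → x ∈ χ.U ∧ χ.q x ∈ V := by
  have h1 : {y : EN N | y ∈ χ.U ∧ χ.q y ∈ V} ∈ 𝓝 x₀ := by
    have h2 : ∀ᶠ y in 𝓝 x₀, y ∈ χ.U := χ.isOpen_U.mem_nhds hU
    have h3 : ∀ᶠ y in 𝓝 x₀, χ.q y ∈ V := (χ.q_an _ hU).continuousAt.eventually hV
    exact h2.and h3
  obtain ⟨d, hd, h⟩ := Pool.Agent.H62.EF.near_of_pr (nr_ne hX hx₀) h1
  refine ⟨d, hd, fun x hx hdx => ?_⟩
  obtain ⟨c, hc, hcU, hcV⟩ := h x (nr_ne hX hx) hdx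
  have h4 : c⁻¹ • (c • x) = x := by rw [smul_smul, inv_mul_cancel₀ hc, one_smul]
  have h5 : x ∈ χ.U := by
    rw [← h4]
    exact χ.smul_U _ hcU _ (inv_ne_zero hc)
  refine ⟨h5, ?_⟩
  rw [← χ.q_smul x h5 c hc]
  exact hcV

private theorem nr_gd {δ' : ℝ} (hδ' : 0 < δ') {z : ℂ} (hz : z ∈ Gd B δ') : z ∉ B := by
  intro h
  have h1 := hz z h
  rw [sub_self, norm_zero] at h1
  linarith

private theorem nr_mo (c : ℂ) (ρ : ℝ) (p : ℂ × ℂ) : mo c ρ 1 0 p = c + ρ * p.1 := by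
  unfold mo
  ring

private theorem nr_pr (χ : Chart X) {x : EN N} (hx : x ∈ X) (hU : x ∈ χ.U) : pr (χ.σ (χ.q x)) = pr x := by
  obtain ⟨-, a, ha, h⟩ := χ.surj x hx hU
  conv_rhs => rw [h]
  rw [Pool.Agent.H62.EF.pr_smul _ ha]

theorem near_zr (E : EData X Λ u Γ B δ) {α : TForm X Λ u} {δ' ε ε₀ r : ℝ} (hδ' : 0 < δ') (hε₀ : 0 < ε₀) (hr : ε < r)
    (hcap : ∀ z₀ ∈ Gd B δ', ∀ f ∈ Sb X Λ u B, ∃ (χ : Chart X) (c : ℂ) (ρ : ℝ), Cap Λ u χ c ρ z₀ (f z₀) r)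
    (hrel : ∀ f ∈ Sb X Λ u B, ∀ g ∈ Sb X Λ u B, ∀ z ∈ Gd B δ', dist (f z) (g z) ≤ ε₀ → ∃ v, IRel α ε z (f z) (g z) v)
    (𝒰 : Ultrafilter ℕ) (F G : ℕ → ℂ → MN N) (w : ℕ → ℂ) {f : ℂ → MN N} (hf : f ∈ Sb X Λ u B) {z : ℂ} (hz : z ∈ Gd B δ')
    (hFG : ∀ᶠ n in (𝒰 : Filter ℕ), F n ∈ Sb X Λ u B ∧ G n ∈ Sb X Λ u B)
    (hF : ∀ z, z ∉ B → Tendsto (fun n => F n z) 𝒰 (𝓝 (f z))) (hG : ∀ z, z ∉ B → Tendsto (fun n => G n z) 𝒰 (𝓝 (f z)))
    (hw : Tendsto w 𝒰 (𝓝 z))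
    (h : ∀ᶠ n in (𝒰 : Filter ℕ), w n ∈ Gd B δ' ∧ F n (w n) ≠ G n (w n) ∧ II α ε (w n) (F n (w n)) (G n (w n)) = 0) :
    Zr α z (f z) := by
  have hzB : z ∉ B := nr_gd hδ' hz
  have hX := E.cone
  have hε0 : 0 ≤ ε := by
    obtain ⟨v, χ, c, ρ, A, p, p', -, -, -, -, -, -, -, -, h1, -⟩ := hrel f hf f hf z hz (by rw [dist_self]; exact hε₀.le)
    exact dist_nonneg.trans (h1 0 ⟨le_rfl, zero_le_one⟩)
  have hr0 : 0 < r := lt_of_le_of_lt hε0 hr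
  obtain ⟨χ, c, ρ, hc⟩ := hcap z hz f hf
  obtain ⟨A, hA⟩ := exists_prim α χ hc.mon
  obtain ⟨r₁, Ψ, hr₁, -, hΨ⟩ := sb_lift E hf hzB
  obtain ⟨hxX, hxu, hxf⟩ := hΨ z (mem_ball_self hr₁)
  obtain ⟨hxU, hxq, hxz⟩ := hc.cap z (mem_closedBall_self hr0.le) _ hxX hxu (by rw [hxf, dist_self]; exact hr0.le)
  set p := χ.q (Ψ z) with hp
  have hp2 : p ∈ ball (0 : ℂ × ℂ) 2 := closedBall_subset_ball (by norm_num) hxq
  -- the conclusion from the vanishing of the derivative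
  have hmo : mo c ρ 1 0 p = z := by rw [nr_mo, hxz]
  have hprp : pr (χ.σ p) = f z := by rw [hp, nr_pr χ hxX hxU, hxf]
  have hlift : u (χ.σ p) - mo c ρ 1 0 p ∈ Λ := hc.mon.lift p hp2
  have hfin : fderiv ℂ A p (0, 1) = 0 → Zr α z (f z) := by
    intro h0
    have h1 := (zr_iff hX E.tor α χ hp2 hlift).2 (by rw [← hA.der p hp2]; exact h0)
    rwa [hmo, hprp] at h1
  by_contra hcon
  have hD : fderiv ℂ A p (0, 1) ≠ 0 := fun h0 => hcon (hfin h0)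
  have hDpos : 0 < ‖fderiv ℂ A p (0, 1)‖ := norm_pos_iff.2 hD
  have hstr := (hA.an p hp2).hasStrictFDerivAt
  have hlo := hstr.isLittleO.def (half_pos hDpos)
  obtain ⟨s, hs, hsb⟩ := Metric.eventually_nhds_iff.1 hlo
  obtain ⟨d, hd, hdn⟩ := nr_near hX χ hxX hxU (V := ball p s) (by rw [← hp]; exact ball_mem_nhds _ hs)
  have hFf := sb_along E 𝒰 F (hFG.mono fun n hn => hn.1) hF hzB hw
  have hGf := sb_along E 𝒰 G (hFG.mono fun n hn => hn.2) hG hzB hw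
  have hFd : ∀ᶠ n in (𝒰 : Filter ℕ), dist (F n (w n)) (f z) < min (min d (r - ε)) (ε₀ / 2) := by
    refine hFf.eventually (ball_mem_nhds _ ?_)
    exact lt_min (lt_min hd (by linarith)) (by linarith)
  have hGd : ∀ᶠ n in (𝒰 : Filter ℕ), dist (G n (w n)) (f z) < min (min d r) (ε₀ / 2) := by
    refine hGf.eventually (ball_mem_nhds _ ?_)
    exact lt_min (lt_min hd hr0) (by linarith)
  have hwd : ∀ᶠ n in (𝒰 : Filter ℕ), dist (w n) z < r := hw.eventually (ball_mem_nhds _ hr0)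
  obtain ⟨n, ⟨⟨⟨⟨hnB, hne, hII⟩, hFS, hGS⟩, hn3⟩, hn4⟩, hn5⟩ := ((((h.and hFG).and hFd).and hGd).and hwd).exists
  have hwB : w n ∉ B := nr_gd hδ' hnB
  obtain ⟨r₂, Φ, hr₂, -, hΦ⟩ := sb_lift E hFS hwB
  obtain ⟨hx1X, hx1u, hx1f⟩ := hΦ (w n) (mem_ball_self hr₂)
  obtain ⟨r₃, Θ, hr₃, -, hΘ⟩ := sb_lift E hGS hwB
  obtain ⟨hx2X, hx2u, hx2f⟩ := hΘ (w n) (mem_ball_self hr₃)
  set x₁ := Φ (w n) with hx1
  set x₂ := Θ (w n) with hx2
  have ha : dist (pr x₁) (pr (Ψ z)) < d := by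
    rw [hx1f, hxf]
    exact hn3.trans_le ((min_le_left _ _).trans (min_le_left _ _))
  have hb : dist (pr x₂) (pr (Ψ z)) < d := by
    rw [hx2f, hxf]
    exact hn4.trans_le ((min_le_left _ _).trans (min_le_left _ _))
  obtain ⟨hx1U, hx1V⟩ := hdn x₁ hx1X ha
  obtain ⟨hx2U, hx2V⟩ := hdn x₂ hx2X hb
  have hFr : dist (F n (w n)) (f z) < r - ε := hn3.trans_le ((min_le_left _ _).trans (min_le_right _ _))
  have hGr : dist (G n (w n)) (f z) < r := hn4.trans_le ((min_le_left _ _).trans (min_le_right _ _))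
  have hFGd : dist (F n (w n)) (G n (w n)) ≤ ε₀ := by
    have h1 := hn3.trans_le (min_le_right _ _)
    have h2 := hn4.trans_le (min_le_right _ _)
    have h3 := dist_triangle_right (F n (w n)) (G n (w n)) (f z)
    linarith
  have hv := hrel _ hFS _ hGS (w n) hnB hFGd
  have hIe := II_eq hX E.tor E.lat hv hc hA (mem_closedBall.2 hn5.le) (by linarith : dist (F n (w n)) (f z) + ε ≤ r) hx1X hx2X hx1f hx2f
  rw [hII] at hIe
  have hρ : (ρ : ℂ) ≠ 0 := by exact_mod_cast hc.mon.pos.ne'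
  have hAeq : A (χ.q x₂) - A (χ.q x₁) = 0 := by
    rcases div_eq_zero_iff.1 hIe.symm with h1 | h1
    · exact h1
    · exact absurd h1 hρ
  obtain ⟨-, -, hz1⟩ := hc.cap (w n) (mem_closedBall.2 hn5.le) x₁ hx1X hx1u (by rw [hx1f]; linarith)
  obtain ⟨-, -, hz2⟩ := hc.cap (w n) (mem_closedBall.2 hn5.le) x₂ hx2X hx2u (by rw [hx2f]; linarith)
  have hfst : (χ.q x₂).1 = (χ.q x₁).1 := by
    have h1 : (ρ : ℂ) * (χ.q x₂).1 = ρ * (χ.q x₁).1 := by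
      have h2 := hz2.trans hz1.symm
      exact add_left_cancel h2
    exact mul_left_cancel₀ hρ h1
  have hsub : χ.q x₂ - χ.q x₁ = ((χ.q x₂).2 - (χ.q x₁).2) • ((0 : ℂ), (1 : ℂ)) := by
    ext
    · simp [hfst]
    · simp
  have ht : (χ.q x₂).2 - (χ.q x₁).2 ≠ 0 := by
    intro h0
    rw [h0, zero_smul, sub_eq_zero] at hsub
    apply hne
    rw [← hx1f, ← hx2f, ← nr_pr χ hx1X hx1U, ← nr_pr χ hx2X hx2U, hsub]
  have hbd := @hsb (χ.q x₂, χ.q x₁) (by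
    rw [Prod.dist_eq]
    exact max_lt (mem_ball.1 hx2V) (mem_ball.1 hx1V))
  simp only at hbd
  rw [hAeq, hsub, map_smul, zero_sub, norm_neg, norm_smul, norm_smul] at hbd
  have hn01 : ‖((0 : ℂ), (1 : ℂ))‖ = 1 := by
    rw [Prod.norm_def]
    simp
  rw [hn01, mul_one] at hbd
  have htp : 0 < ‖(χ.q x₂).2 - (χ.q x₁).2‖ := norm_pos_iff.2 ht
  linarith [mul_pos htp hDpos]

theorem zr_lim (E : EData X Λ u Γ B δ) {α : TForm X Λ u} (𝒰 : Ultrafilter ℕ) (F : ℕ → ℂ → MN N) {f : ℂ → MN N}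
    (hf : f ∈ Sb X Λ u B) (hF : ∀ᶠ n in (𝒰 : Filter ℕ), F n ∈ Sb X Λ u B) {z : ℂ} (hz : z ∉ B)
    (hFf : Tendsto (fun n => F n z) 𝒰 (𝓝 (f z))) (h : ∀ᶠ n in (𝒰 : Filter ℕ), Zr α z (F n z)) : Zr α z (f z) := by
  have hX := E.cone
  obtain ⟨δ', hδ', hzg⟩ := E.bad.exists_gd hz
  obtain ⟨r, hr, hcap⟩ := exists_cap E hδ'
  obtain ⟨χ, c, ρ, hc⟩ := hcap z hzg f hf
  obtain ⟨r₁, Ψ, hr₁, -, hΨ⟩ := sb_lift E hf hz
  obtain ⟨hxX, hxu, hxf⟩ := hΨ z (mem_ball_self hr₁)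
  obtain ⟨hxU, hxq, hxz⟩ := hc.cap z (mem_closedBall_self hr.le) _ hxX hxu (by rw [hxf, dist_self]; exact hr.le)
  set p := χ.q (Ψ z) with hp
  have hp2 : p ∈ ball (0 : ℂ × ℂ) 2 := closedBall_subset_ball (by norm_num) hxq
  have hmo : mo c ρ 1 0 p = z := by rw [nr_mo, hxz]
  have hprp : pr (χ.σ p) = f z := by rw [hp, nr_pr χ hxX hxU, hxf]
  have hlift : u (χ.σ p) - mo c ρ 1 0 p ∈ Λ := hc.mon.lift p hp2
  have hfin : tc α χ (mo c ρ 1 0) p = 0 → Zr α z (f z) := by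
    intro h0
    have h1 := (zr_iff hX E.tor α χ hp2 hlift).2 h0
    rwa [hmo, hprp] at h1
  by_contra hcon
  have hD : tc α χ (mo c ρ 1 0) p ≠ 0 := fun h0 => hcon (hfin h0)
  have han : AnalyticAt ℂ (tc α χ (mo c ρ 1 0)) p := by
    refine tc_an α χ hp2 (mo_an c ρ 1 0 p) ?_
    filter_upwards [isOpen_ball.mem_nhds hp2] with y hy
    exact hc.mon.lift y hy
  have hV : {q : ℂ × ℂ | tc α χ (mo c ρ 1 0) q ≠ 0} ∈ 𝓝 p := han.continuousAt.eventually_ne hD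
  obtain ⟨d, hd, hdn⟩ := nr_near hX χ hxX hxU (V := {q : ℂ × ℂ | tc α χ (mo c ρ 1 0) q ≠ 0}) hV
  have hFd : ∀ᶠ n in (𝒰 : Filter ℕ), dist (F n z) (f z) < min d r := hFf.eventually (ball_mem_nhds _ (lt_min hd hr))
  obtain ⟨n, ⟨hnZ, hFS⟩, hn⟩ := ((h.and hF).and hFd).exists
  obtain ⟨r₂, Φ, hr₂, -, hΦ⟩ := sb_lift E hFS hz
  obtain ⟨hx1X, hx1u, hx1f⟩ := hΦ z (mem_ball_self hr₂)
  set x₁ := Φ z with hx1
  have hdr := lt_min_iff.1 hn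
  obtain ⟨hx1U, hx1V⟩ := hdn x₁ hx1X (by rw [hx1f, hxf]; exact hdr.1)
  obtain ⟨-, hxq1, hz1⟩ := hc.cap z (mem_closedBall_self hr.le) x₁ hx1X hx1u (by rw [hx1f]; exact hdr.2.le)
  have hp1 : χ.q x₁ ∈ ball (0 : ℂ × ℂ) 2 := closedBall_subset_ball (by norm_num) hxq1
  have hmo1 : mo c ρ 1 0 (χ.q x₁) = z := by rw [nr_mo, hz1]
  have hpr1 : pr (χ.σ (χ.q x₁)) = F n z := by rw [nr_pr χ hx1X hx1U, hx1f]
  have h1 := zr_iff hX E.tor α χ hp1 (hc.mon.lift _ hp1)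
  rw [hmo1, hpr1] at h1
  exact hx1V (h1.1 hnZ)

theorem zr_per {α : TForm X Λ u} (hle : Γ ≤ Λ) (hper : Per α Γ) {l : ℂ} (hl : l ∈ Γ) (z : ℂ) (y : MN N) :
    Zr α (z + l) y ↔ Zr α z y := by
  constructor
  · rintro ⟨x, hx, hxy, hxz, h⟩
    have hxz' : u x - z ∈ Λ := by
      have h1 := Λ.add_mem hxz (hle hl)
      have h2 : u x - (z + l) + l = u x - z := by ring
      rwa [h2] at h1
    refine ⟨x, hx, hxy, hxz', fun v w hv hw => ?_⟩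
    rw [← hper z l hl x hx hxz' v w hv hw]
    exact h v w hv hw
  · rintro ⟨x, hx, hxy, hxz, h⟩
    refine ⟨x, hx, hxy, ?_, fun v w hv hw => ?_⟩
    · have h1 := Λ.sub_mem hxz (hle hl)
      have h2 : u x - z - l = u x - (z + l) := by ring
      rwa [h2] at h1
    · rw [hper z l hl x hx hxz v w hv hw]
      exact h v w hv hw

end Pool.Agent.H62.EL

end
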