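import Pool.Agent.H94.CB.M162
import Pool.Agent.H94.CB.M32
import Pool.Agent.H94.CB.M40
import Pool.Agent.H94.CB.M42

/-! The parts of this file: H17N.BlowP, H17N.BlowT. -/

section

/-!
# H17N BlowP: charts of the blow-up, with the projection

`blow_chart`: copy of the proof of `H62.BU.blow_local` (H62/BU/SurfB.lean) with another conclusion.  First case (off the exceptional curve): `σ1 p = c • phi l (σ' p)`, `(σ1 p) b = (c * l b (σ' p)) • σ' p`.  Second case: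
`c • phi l (σ (e (p.1, p.1 * p.2))) = p.1 • σ1 p` near `0` (private lemma `SurfB_exc`, copy it): so for `p.1 ≠ 0` the component `(σ1 p) b` is a multiple of `σ (e (..))`; by the
identity theorem / continuity (as at the end of the proof of `blow_local`, with a linear form `Λ` with `Λ (σ 0) ≠ 0`: `Λ (σ (e ..)) • σ1 p b = Λ (σ1 p b) • σ (e ..)` near `0`) this is true for all `p` near `0`.
`chart_iff`, `surface_iff` translate between H17BP and H62.BU.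
-/

set_option autoImplicit false

open Topology Filter

namespace Pool.Agent.H17N

attribute [-instance] ProperSMul.toContinuousSMul

open Pool.Agent.H17BP (Surface IsChart Pr)
open Pool.Agent.H62.BU (blow phi Ker)

variable {V : Type} [NormedAddCommGroup V] [NormedSpace ℂ V] {ι : Type} [Fintype ι] {l : ι → V →L[ℂ] ℂ} {X : Set V} {q : V}
  {σ : ℂ × ℂ → V} {τ : V → ℂ × ℂ}

private theorem BlowP_fderiv (h : H62.BU.IsChart X σ τ) (e : (ℂ × ℂ) ≃L[ℂ] (ℂ × ℂ)) (w : ℂ × ℂ) :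
    fderiv ℂ (fun p => σ (e p)) 0 w = fderiv ℂ σ 0 (e w) := by
  have h1 : DifferentiableAt ℂ σ (e 0) := by
    rw [map_zero]
    exact h.σ_an.differentiableAt
  have h2 : HasFDerivAt (fun p => σ (e p)) ((fderiv ℂ σ (e 0)).comp (e : (ℂ × ℂ) →L[ℂ] (ℂ × ℂ))) 0 :=
    h1.hasFDerivAt.comp 0 e.hasFDerivAt
  rw [h2.fderiv]
  simp [map_zero]

/-- chart of the blow-up at a point over `q` -/
private theorem BlowP_exc [FiniteDimensional ℂ V] (hX : H62.BU.Surface X) {q : V} (hl : Ker l q) (h : H62.BU.IsChart X σ τ) (h0 : σ 0 = q)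
    {w : ℂ × ℂ} (hw : w ≠ 0) {c : ℂ} (hc : c ≠ 0) :
    ∃ (e : (ℂ × ℂ) ≃L[ℂ] (ℂ × ℂ)) (σ1 : ℂ × ℂ → ι → V) (τ1 : (ι → V) → ℂ × ℂ), H62.BU.IsChart (blow l X) σ1 τ1 ∧
      (σ1 0 = c • fun b => l b (fderiv ℂ σ 0 w) • q) ∧
      ∀ᶠ p in 𝓝 (0 : ℂ × ℂ), c • phi l (σ (e (p.1, p.1 * p.2))) = p.1 • σ1 p := by
  obtain ⟨e, he⟩ := H62.BU.exists_equiv hw
  obtain ⟨σ1, τ1, h1, h2, h3⟩ := H62.BU.chart_exc hX hl (h.comp_linear e) (by simp only [map_zero]; exact h0)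
  refine ⟨e, _, _, h1.scale H62.BU.blow_smul hc, ?_, ?_⟩
  · rw [h3]
    simp only [BlowP_fderiv h e, he]
  · filter_upwards [h2] with p hp
    rw [hp, smul_comm]

theorem blow_chart [FiniteDimensional ℂ V] (hX : Surface X) (hl : Ker l q) (h : IsChart X σ τ) (h0 : σ 0 = q) {y : ι → V} (hy : y ∈ blow l X) :
    (∃ σ' τ' σ1 τ1, IsChart X σ' τ' ∧ (∃ b, l b (σ' 0) ≠ 0) ∧ IsChart (blow l X) σ1 τ1 ∧ σ1 0 = y ∧
      (∃ c : ℂ, c ≠ 0 ∧ ∀ p, σ1 p = c • phi l (σ' p)) ∧ ∀ᶠ p in 𝓝 (0 : ℂ × ℂ), ∀ b, σ1 p b ≠ 0 → Pr (σ1 p b) (σ' p)) ∨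
    ∃ (e : (ℂ × ℂ) ≃L[ℂ] (ℂ × ℂ)) (σ1 : ℂ × ℂ → ι → V) (τ1 : (ι → V) → ℂ × ℂ), IsChart (blow l X) σ1 τ1 ∧ σ1 0 = y ∧
      ∀ᶠ p in 𝓝 (0 : ℂ × ℂ), ∀ b, σ1 p b ≠ 0 → Pr (σ1 p b) (σ (e (p.1, p.1 * p.2))) := by
  have hX' := H17BP.surface_iff.2 hX
  have h' := H17BP.chart_iff.2 h
  rcases H62.BU.blow_cover hX' hl h' h0 y hy with hd | ⟨w, hw, c, hc, rfl⟩
  · left
    obtain ⟨x, hx, ⟨b, hb⟩, c, hc, rfl⟩ := hd
    obtain ⟨σ', τ', h1, h10⟩ := hX'.chart x hx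
    have hb' : l b (σ' 0) ≠ 0 := by rw [h10]; exact hb
    have h2 := (H62.BU.chart_off hX' h1 hb').scale H62.BU.blow_smul hc
    refine ⟨σ', τ', _, _, H17BP.chart_iff.1 h1, ⟨b, hb'⟩, H17BP.chart_iff.1 h2, by simp only [h10], ⟨c, hc, fun p => rfl⟩,
      Eventually.of_forall fun p b' hb2 => ⟨c * l b' (σ' p), ?_, ?_⟩⟩
    · intro h3
      apply hb2
      simp only [phi, Pi.smul_apply, smul_smul, h3, zero_smul]
    · simp only [phi, Pi.smul_apply, smul_smul]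
  · right
    obtain ⟨e, σ1, τ1, h1, h2, h3⟩ := BlowP_exc hX' hl h' h0 hw hc
    refine ⟨e, σ1, τ1, H17BP.chart_iff.1 h1, h2, ?_⟩
    have hq0 : σ 0 ≠ 0 := h'.ne
    obtain ⟨Λ, -, hΛ⟩ := exists_dual_vector ℂ (σ 0) (norm_ne_zero_iff.mpr hq0)
    have hΛ0 : Λ (σ 0) ≠ 0 := by
      rw [hΛ]
      simpa using hq0
    have hinner : AnalyticAt ℂ (fun p : ℂ × ℂ => e (p.1, p.1 * p.2)) 0 := by
      have h4 : AnalyticAt ℂ (fun p : ℂ × ℂ => (p.1, p.1 * p.2)) 0 :=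
        analyticAt_fst.prod (analyticAt_fst.mul analyticAt_snd)
      exact ((e : (ℂ × ℂ) →L[ℂ] (ℂ × ℂ)).analyticAt _).comp h4
    have hz : e ((0 : ℂ × ℂ).1, (0 : ℂ × ℂ).1 * (0 : ℂ × ℂ).2) = 0 := by simp
    have hσe : AnalyticAt ℂ (fun p : ℂ × ℂ => σ (e (p.1, p.1 * p.2))) 0 := by
      refine AnalyticAt.fun_comp (g := σ) ?_ hinner
      rw [hz]
      exact h'.σ_an
    have hcomp : ∀ b, AnalyticAt ℂ (fun p => σ1 p b) 0 := fun b =>
      ((ContinuousLinearMap.proj (R := ℂ) (φ := fun _ : ι => V) b).analyticAt _).comp h1.σ_an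
    have hG : ∀ b, AnalyticAt ℂ (fun p : ℂ × ℂ => Λ (σ (e (p.1, p.1 * p.2))) • σ1 p b - Λ (σ1 p b) • σ (e (p.1, p.1 * p.2))) 0 := by
      intro b
      exact (((Λ.analyticAt _).comp hσe).smul (hcomp b)).sub (((Λ.analyticAt _).comp (hcomp b)).smul hσe)
    have hG0 : ∀ b, ∀ᶠ p in 𝓝 (0 : ℂ × ℂ), Λ (σ (e (p.1, p.1 * p.2))) • σ1 p b - Λ (σ1 p b) • σ (e (p.1, p.1 * p.2)) = 0 := by
      intro b
      have h5 : ∀ᶠ p in 𝓝 (0 : ℂ × ℂ), p.1 ≠ 0 →
          Λ (σ (e (p.1, p.1 * p.2))) • σ1 p b - Λ (σ1 p b) • σ (e (p.1, p.1 * p.2)) = 0 := by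
        filter_upwards [h3] with p hp hp1
        have h6 : σ1 p = p.1⁻¹ • (c • phi l (σ (e (p.1, p.1 * p.2)))) := by
          rw [hp, smul_smul, inv_mul_cancel₀ hp1, one_smul]
        have h7 : σ1 p b = (p.1⁻¹ * (c * l b (σ (e (p.1, p.1 * p.2))))) • σ (e (p.1, p.1 * p.2)) := by
          rw [h6]
          simp only [phi, Pi.smul_apply, smul_smul]
        rw [h7, map_smul, smul_eq_mul, smul_smul, mul_comm, sub_self]
      filter_upwards [(hG b).eventually_analyticAt, h5.eventually_nhds] with p hp1 hp2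
      have h8 : ∃ᶠ p' in 𝓝 p, p'.1 ≠ 0 := by
        have h9 : Dense (({0}ᶜ : Set ℂ) ×ˢ (Set.univ : Set ℂ)) := (dense_compl_singleton (0 : ℂ)).prod dense_univ
        have h10 := mem_closure_iff_frequently.mp (h9 p)
        refine h10.mono fun p' hp' => ?_
        exact hp'.1
      have h11 := (h8.and_eventually hp2).mono fun p' hp' => hp'.2 hp'.1
      exact tendsto_nhds_unique_of_frequently_eq hp1.continuousAt tendsto_const_nhds h11
    have hΛe : ∀ᶠ p in 𝓝 (0 : ℂ × ℂ), Λ (σ (e (p.1, p.1 * p.2))) ≠ 0 := by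
      have h12 : ContinuousAt (fun p : ℂ × ℂ => Λ (σ (e (p.1, p.1 * p.2)))) 0 :=
        ((Λ.analyticAt _).comp hσe).continuousAt
      refine h12.eventually_ne ?_
      rw [hz]
      exact hΛ0
    filter_upwards [eventually_all.mpr hG0, hΛe] with p hpG hpΛ b hb
    have h13 : σ1 p b = ((Λ (σ (e (p.1, p.1 * p.2))))⁻¹ * Λ (σ1 p b)) • σ (e (p.1, p.1 * p.2)) := by
      rw [mul_smul, ← sub_eq_zero.mp (hpG b), smul_smul, inv_mul_cancel₀ hpΛ, one_smul]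
    have hk : (Λ (σ (e (p.1, p.1 * p.2))))⁻¹ * Λ (σ1 p b) ≠ 0 := by
      intro h14
      rw [h14, zero_smul] at h13
      exact hb h13
    exact ⟨_, hk, h13⟩

/-- a germ which vanishes after the blow-up vanishes -/
theorem van_of_blow {G : ℂ × ℂ → ℂ} (hG : AnalyticAt ℂ G 0) (e : (ℂ × ℂ) ≃L[ℂ] (ℂ × ℂ))
    (h : ∀ᶠ p : ℂ × ℂ in 𝓝 0, G (e (p.1, p.1 * p.2)) = 0) : ∀ᶠ p in 𝓝 (0 : ℂ × ℂ), G p = 0 := by
  have hGe : AnalyticAt ℂ (fun p => G (e p)) 0 := by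
    have h1 : AnalyticAt ℂ G (e 0) := by rw [map_zero]; exact hG
    exact h1.comp (e.toContinuousLinearMap.analyticAt 0)
  obtain ⟨r, hr, hGr⟩ := hGe.exists_ball_analyticOnNhd
  have ht : Tendsto (fun s : ℂ => ((s, 0) : ℂ × ℂ)) (𝓝[≠] 0) (𝓝 0) := by
    have h1 : Tendsto (fun s : ℂ => ((s, 0) : ℂ × ℂ)) (𝓝 0) (𝓝 (0, 0)) :=
      (continuous_id.prodMk continuous_const).tendsto 0
    exact h1.mono_left nhdsWithin_le_nhds
  obtain ⟨s, ⟨h1, h2⟩, h3⟩ := ((ht.eventually (h.eventually_nhds.and (Metric.ball_mem_nhds 0 hr))).and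
    (self_mem_nhdsWithin : ∀ᶠ s in 𝓝[≠] (0 : ℂ), s ∈ ({0}ᶜ : Set ℂ))).exists
  have hs : s ≠ 0 := h3
  have hψ : Tendsto (fun w : ℂ × ℂ => ((w.1, w.2 / w.1) : ℂ × ℂ)) (𝓝 (s, 0)) (𝓝 (s, 0)) := by
    have h4 : ContinuousAt (fun w : ℂ × ℂ => ((w.1, w.2 / w.1) : ℂ × ℂ)) (s, 0) :=
      continuousAt_fst.prodMk (continuousAt_snd.div continuousAt_fst hs)
    have h5 := h4.tendsto
    simp only [zero_div] at h5
    exact h5
  have hne : ∀ᶠ w : ℂ × ℂ in 𝓝 (s, 0), w.1 ≠ 0 := continuousAt_fst.eventually_ne hs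
  have h6 : (fun p => G (e p)) =ᶠ[𝓝 (s, 0)] 0 := by
    filter_upwards [hψ.eventually h1, hne] with w h7 h8
    rw [mul_div_cancel₀ _ h8] at h7
    exact h7
  have h7 := hGr.eqOn_zero_of_preconnected_of_eventuallyEq_zero
    (convex_ball (0 : ℂ × ℂ) r).isPreconnected h2 h6
  have h8 : ∀ᶠ p in 𝓝 (0 : ℂ × ℂ), G (e p) = 0 := by
    filter_upwards [Metric.ball_mem_nhds (0 : ℂ × ℂ) hr] with p hp
    exact h7 hp
  have h9 : Tendsto (fun p : ℂ × ℂ => e.symm p) (𝓝 0) (𝓝 0) := by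
    have h10 : Tendsto (fun p : ℂ × ℂ => e.symm p) (𝓝 0) (𝓝 (e.symm 0)) := e.symm.continuous.tendsto 0
    rwa [map_zero] at h10
  filter_upwards [h9.eventually h8] with p h10
  rwa [ContinuousLinearEquiv.apply_symm_apply] at h10

end Pool.Agent.H17N

end

section

/-!
# H17N BlowT: the map to the elliptic curve on the blow-up

* `uB_eq`: `uB u y = u (y b₀)` for some `b₀` with `y b₀ ≠ 0` (`exists_ne`); `y b = c • y b₀` (`H62.BU.comp_smul`), `c ≠ 0`; `tor.smul`, `comp_mem` (`H62.BU.comp_mem`, with `surface_iff`).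
* `tmap_blow`: locally `y ↦ v (y b)`, `b` with `y b ≠ 0` at the given point (pattern: `openPart_blow.eqn` in H36/BPL/BlowK.lean).
* `nonconst_blow`: let `σ1, τ1` be a chart of the blow-up with the germ `g1`, identically `0`.  `blow_chart` at `σ1 0` gives a chart `σ2` at the same point with the projection to a chart `σ'` of `X` (or to `σ (e (p.1, p.1 * p.2))`); by `IsChart.trans` the germ of `uB u` in
  `σ2` is `g1 ∘ θ`, so it vanishes identically too; it is (modulo `Λ`, near `0`, so exactly: the germs of two analytic lifts with value `0` at `0` agree if `Λ` is discrete) the germ `g` of `u` in `σ'`, resp. `g (e (p.1, p.1 * p.2))`, and `van_of_blow`: contradiction to `NonConst X Λ u`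
  (pattern: `thin_blow`, H17BP/BlowM.lean).  To avoid the discreteness: define the germ for `σ2` directly from the germ of `u`: if `g2` is a germ for `σ2` and `g1 ∘ θ` another one, the difference is analytic with values in `Λ`; hence the hypothesis `hΛ`.
* `fib_blow`: let `h : ℂ → ι → V` be a curve in the blow-up in a fibre, non-constant, over a value not in `B`.  `f z = h z (b z)`, `b z` with `h z (b z) ≠ 0`: `HolP f z` (copy the proof of `hHol` in `brodyK_blow`, H36/BPL/BlowK.lean), `f z ∈ X`, `u (f z) - uB u (h z) ∈ Λ`.  By `FibB X` all `f z` are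
  proportional (otherwise the value is in `B + Λ`).  If `l b' (f z) ≠ 0` for some `b'` (for one `z`, so for all `z`, as they are proportional) then `Pr (h z) (phi l (f z))` (`eq_phi`, `ne_of_ne`, as in `brodyK_blow`), so `h` is constant.  Otherwise `f z` is proportional to `q`, so `u (f 0) - u q ∈ Λ`,
  and `u q - b ∈ Λ` for some `b ∈ B`: the value is in `B + Λ`, contradiction.
-/

set_option autoImplicit false

open Topology Filter

namespace Pool.Agent.H17N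

attribute [-instance] ProperSMul.toContinuousSMul

open Pool.Agent.H17BP (Surface IsChart Tan Pr HolP ResN)
open Pool.Agent.H62.BU (blow phi Ker)

variable {V : Type} [NormedAddCommGroup V] [NormedSpace ℂ V] {ι : Type} [Fintype ι] {l : ι → V →L[ℂ] ℂ} {X : Set V} {q : V}
  {Λ : AddSubgroup ℂ} {u : V → ℂ}

/-- two germs of `u` agree -/
theorem LU.unique {Λ : AddSubgroup ℂ} {a : ℂ × ℂ → ℂ} {g g' : ℂ × ℂ → ℂ} (hΛ : ∃ δ : ℝ, 0 < δ ∧ ∀ l ∈ Λ, ‖l‖ < δ → l = 0)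
    (hg : AnalyticAt ℂ g 0) (hg' : AnalyticAt ℂ g' 0) (h0 : g 0 = 0) (h0' : g' 0 = 0) (h : ∀ᶠ p in 𝓝 (0 : ℂ × ℂ), a p - g p ∈ Λ)
    (h' : ∀ᶠ p in 𝓝 (0 : ℂ × ℂ), a p - g' p ∈ Λ) : ∀ᶠ p in 𝓝 (0 : ℂ × ℂ), g p = g' p := by
  obtain ⟨δ, hδ, hd⟩ := hΛ
  have h1 : Tendsto (fun p => ‖g p - g' p‖) (𝓝 (0 : ℂ × ℂ)) (𝓝 ‖g 0 - g' 0‖) :=
    (hg.continuousAt.sub hg'.continuousAt).norm
  rw [h0, h0', sub_zero, norm_zero] at h1
  filter_upwards [h, h', h1.eventually_lt_const hδ] with p h2 h3 h4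
  have h5 : g p - g' p ∈ Λ := by
    have h6 := Λ.sub_mem h3 h2
    have h7 : a p - g' p - (a p - g p) = g p - g' p := by ring
    rwa [h7] at h6
  exact sub_eq_zero.1 (hd _ h5 h4)

theorem uB_eq (hX : Surface X) (hu : TMap X Λ u) {y : ι → V} (hy : y ∈ blow l X) {b : ι} (hb : y b ≠ 0) : uB u y - u (y b) ∈ Λ := by
  have hex : ∃ b, y b ≠ 0 := ⟨b, hb⟩
  obtain ⟨b₀, hb₀, hc⟩ : ∃ b₀, y b₀ ≠ 0 ∧ cmp y = y b₀ := by
    refine ⟨hex.choose, hex.choose_spec, ?_⟩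
    unfold cmp
    rw [dif_pos hex]
  have hX' := Pool.Agent.H17BP.surface_iff.2 hX
  obtain ⟨c, e⟩ := Pool.Agent.H62.BU.comp_smul y hy hb₀ b
  have hc0 : c ≠ 0 := by
    rintro rfl
    rw [zero_smul] at e
    exact hb e
  have h1 := hu.smul _ (Pool.Agent.H62.BU.comp_mem hX' y hy hb₀) c hc0
  rw [← e] at h1
  have h2 := Λ.neg_mem h1
  have h3 : uB u y - u (y b) = -(u (y b) - u (y b₀)) := by
    unfold uB
    rw [hc]
    ring
  rw [h3]
  exact h2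

theorem tmap_blow (hX : Surface X) (hu : TMap X Λ u) : TMap (blow l X) Λ (uB u) := by
  have hX' := Pool.Agent.H17BP.surface_iff.2 hX
  constructor
  · intro y hy c hc
    obtain ⟨b, hb⟩ := Pool.Agent.H62.BU.exists_ne y hy
    have hb' : (c • y) b ≠ 0 := smul_ne_zero hc hb
    have h1 := uB_eq hX hu hy hb
    have h2 := uB_eq hX hu (Pool.Agent.H62.BU.blow_smul y hy c hc) hb'
    have h3 := hu.smul _ (Pool.Agent.H62.BU.comp_mem hX' y hy hb) c hc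
    have h4 : uB u (c • y) - uB u y = (uB u (c • y) - u ((c • y) b)) + (u (c • y b) - u (y b)) -
        (uB u y - u (y b)) := by
      rw [Pi.smul_apply]
      ring
    rw [h4]
    exact Λ.sub_mem (Λ.add_mem h2 h3) h1
  · intro y hy
    obtain ⟨b, hb⟩ := Pool.Agent.H62.BU.exists_ne y hy
    obtain ⟨v, hv, hve⟩ := hu.loc (y b) (Pool.Agent.H62.BU.comp_mem hX' y hy hb)
    have hpr : AnalyticAt ℂ (fun y : ι → V => y b) y := (ContinuousLinearMap.proj (R := ℂ) (φ := fun _ : ι => V) b).analyticAt y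
    refine ⟨fun y => v (y b), AnalyticAt.comp (g := v) (f := fun y : ι → V => y b) hv hpr, ?_⟩
    have hct : Tendsto (fun y : ι → V => y b) (𝓝 y) (𝓝 (y b)) := (continuous_apply b).tendsto y
    filter_upwards [hct.eventually hve, hct.eventually_ne hb] with y' h1 h2 h3
    have h4 := h1 (Pool.Agent.H62.BU.comp_mem hX' y' h3 h2)
    have h5 := uB_eq hX hu h3 h2
    have h6 := Λ.add_mem h5 h4
    have h7 : uB u y' - u (y' b) + (u (y' b) - v (y' b)) = uB u y' - v (y' b) := by ring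
    rwa [h7] at h6

private theorem blowT_germ (hu : TMap X Λ u) {σ : ℂ × ℂ → V} {τ : V → ℂ × ℂ} (h : IsChart X σ τ) : ∃ g, LU Λ u σ g := by
  obtain ⟨v, hv, hve⟩ := hu.loc (σ 0) h.σ_mem.self_of_nhds
  have h0 := hve.self_of_nhds h.σ_mem.self_of_nhds
  have h1 : Tendsto σ (𝓝 0) (𝓝 (σ 0)) := h.σ_an.continuousAt
  refine ⟨fun p => v (σ p) - v (σ 0), (hv.comp h.σ_an).sub analyticAt_const, sub_self _, ?_⟩
  filter_upwards [h1.eventually hve, h.σ_mem] with p h2 h3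
  have h4 := Λ.sub_mem (h2 h3) h0
  have h5 : u (σ p) - v (σ p) - (u (σ 0) - v (σ 0)) = u (σ p) - u (σ 0) - (v (σ p) - v (σ 0)) := by ring
  rwa [h5] at h4

private theorem blowT_pr {Y : Set V} {w : V → ℂ} (hw : TMap Y Λ w) {x y : V} (hy : y ∈ Y) (h : Pr x y) : w x - w y ∈ Λ := by
  obtain ⟨c, hc, rfl⟩ := h
  exact hw.smul y hy c hc

/-- the map is constant modulo `Λ` along a projection of a chart -/
private theorem blowT_const (hX : Surface X) (hu : TMap X Λ u) {σ1 : ℂ × ℂ → ι → V} {τ1 : (ι → V) → ℂ × ℂ}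
    {g1 : ℂ × ℂ → ℂ} (h1 : IsChart (blow l X) σ1 τ1) (hg1 : LU Λ (uB u) σ1 g1) (hz : ∀ᶠ p in 𝓝 (0 : ℂ × ℂ), g1 p = 0)
    {σ2 : ℂ × ℂ → ι → V} {τ2 : (ι → V) → ℂ × ℂ} (h2 : IsChart (blow l X) σ2 τ2) (h20 : σ2 0 = σ1 0) {ρ : ℂ × ℂ → V}
    (hρ : ∀ᶠ p in 𝓝 (0 : ℂ × ℂ), ρ p ∈ X) (hpr : ∀ᶠ p in 𝓝 (0 : ℂ × ℂ), ∀ b, σ2 p b ≠ 0 → Pr (σ2 p b) (ρ p)) :
    ∀ᶠ p in 𝓝 (0 : ℂ × ℂ), u (ρ p) - u (ρ 0) ∈ Λ := by
  have hX' := Pool.Agent.H17BP.surface_iff.2 hX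
  have hB := tmap_blow (l := l) hX hu
  obtain ⟨θ, hθ, hp⟩ := IsChart.trans Pool.Agent.H62.BU.blow_smul h1 h2 (by rw [h20]; exact Pr.refl _)
  -- the map at the points of `σ2`
  have key : ∀ᶠ p in 𝓝 (0 : ℂ × ℂ), uB u (σ2 p) - u (ρ p) ∈ Λ := by
    filter_upwards [hρ, hpr, h2.σ_mem] with p h3 h4 h5
    obtain ⟨b, hb⟩ := Pool.Agent.H62.BU.exists_ne (σ2 p) h5
    have h6 := uB_eq hX hu h5 hb
    have h7 := blowT_pr hu h3 (h4 b hb)
    have h8 := Λ.add_mem h6 h7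
    have h9 : uB u (σ2 p) - u (σ2 p b) + (u (σ2 p b) - u (ρ p)) = uB u (σ2 p) - u (ρ p) := by ring
    rwa [h9] at h8
  have key0 := key.self_of_nhds
  rw [h20] at key0
  filter_upwards [key, hp, hθ.tendsto.eventually h1.σ_mem, hθ.tendsto.eventually hg1.2.2, hθ.tendsto.eventually hz]
    with p h3 h4 h5 h6 h7
  have h8 := blowT_pr hB h5 h4
  rw [h7, sub_zero] at h6
  have h9 : u (ρ p) - u (ρ 0) = (uB u (σ1 0) - u (ρ 0)) + (uB u (σ1 (θ p)) - uB u (σ1 0)) +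
      (uB u (σ2 p) - uB u (σ1 (θ p))) - (uB u (σ2 p) - u (ρ p)) := by ring
  rw [h9]
  exact Λ.sub_mem (Λ.add_mem (Λ.add_mem key0 h6) h8) h3

theorem nonconst_blow [FiniteDimensional ℂ V] (hΛ : ∃ δ : ℝ, 0 < δ ∧ ∀ l ∈ Λ, ‖l‖ < δ → l = 0) (hX : Surface X) (hu : TMap X Λ u) (hl : Ker l q)
    (hq : q ∈ X) (hn : NonConst X Λ u) : NonConst (blow l X) Λ (uB u) := by
  intro σ1 τ1 g1 h1 hg1 hz
  obtain ⟨σ, τ, hσ, hσ0⟩ := hX.chart q hq
  rcases blow_chart hX hl hσ hσ0 h1.σ_mem.self_of_nhds with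
    ⟨σ', τ', σ2, τ2, h', -, h2, h20, -, hpr⟩ | ⟨e, σ2, τ2, h2, h20, hpr⟩
  · obtain ⟨g, hg⟩ := blowT_germ hu h'
    refine hn σ' τ' g h' hg ?_
    have h3 := blowT_const hX hu h1 hg1 hz h2 h20 h'.σ_mem hpr
    refine LU.unique (g := g) (g' := fun _ => 0) hΛ hg.1 analyticAt_const hg.2.1 rfl hg.2.2 ?_
    filter_upwards [h3] with p h4
    rw [sub_zero]
    exact h4
  · obtain ⟨g, hg⟩ := blowT_germ hu hσ
    refine hn σ τ g hσ hg (van_of_blow hg.1 e ?_)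
    obtain ⟨β, hβ⟩ : ∃ β : ℂ × ℂ → ℂ × ℂ, β = fun p => e (p.1, p.1 * p.2) := ⟨_, rfl⟩
    have hβ0 : β 0 = 0 := by
      rw [hβ]
      simp
    have hβa : AnalyticAt ℂ β 0 := by
      rw [hβ]
      refine AnalyticAt.comp (g := fun x => e x) (e.toContinuousLinearMap.analyticAt _) ?_
      exact analyticAt_fst.prod (analyticAt_fst.mul analyticAt_snd)
    have hβt : Tendsto β (𝓝 0) (𝓝 0) := by
      have h3 := hβa.continuousAt.tendsto
      rwa [hβ0] at h3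
    have hρ : ∀ᶠ p in 𝓝 (0 : ℂ × ℂ), σ (β p) ∈ X := hβt.eventually hσ.σ_mem
    have hpr' : ∀ᶠ p in 𝓝 (0 : ℂ × ℂ), ∀ b, σ2 p b ≠ 0 → Pr (σ2 p b) (σ (β p)) := by
      rw [hβ]
      exact hpr
    have h3 := blowT_const hX hu h1 hg1 hz h2 h20 hρ hpr'
    have hga : AnalyticAt ℂ (fun p => g (β p)) 0 := by
      refine AnalyticAt.comp (g := g) ?_ hβa
      rw [hβ0]
      exact hg.1
    have h4 : ∀ᶠ p in 𝓝 (0 : ℂ × ℂ), g (β p) = 0 := by
      refine LU.unique (g := fun p => g (β p)) (g' := fun _ => 0) (a := fun p => u (σ (β p)) - u (σ (β 0)))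
        hΛ hga analyticAt_const (by rw [hβ0]; exact hg.2.1) rfl ?_ ?_
      · filter_upwards [hβt.eventually hg.2.2] with p h5
        rw [hβ0]
        exact h5
      · filter_upwards [h3] with p h5
        rw [sub_zero]
        exact h5
    rw [hβ] at h4
    exact h4

theorem fib_blow (hX : Surface X) (hu : TMap X Λ u) (hl : Ker l q) (hq : q ∈ X) {B : Set ℂ} (hB : ∃ b ∈ B, u q - b ∈ Λ) (hf : FibB X Λ u B) :
    FibB (blow l X) Λ (uB u) B := by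
  have hX' := Pool.Agent.H17BP.surface_iff.2 hX
  intro h hh hmem hconst hnc
  choose b hbne using fun z => Pool.Agent.H62.BU.exists_ne (h z) (hmem z)
  have hfX : ∀ z, h z (b z) ∈ X := fun z => Pool.Agent.H62.BU.comp_mem hX' (h z) (hmem z) (hbne z)
  have huf : ∀ z, uB u (h z) - u (h z (b z)) ∈ Λ := fun z => uB_eq hX hu (hmem z) (hbne z)
  have hHol : ∀ z₀, HolP (fun z => h z (b z)) z₀ := by
    intro z₀
    obtain ⟨H, hHan, hH0, hHe⟩ := hh z₀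
    obtain ⟨b₀, hb₀⟩ := Function.ne_iff.1 hH0
    have hb₀' : H z₀ b₀ ≠ 0 := hb₀
    have han : AnalyticAt ℂ (fun z => H z b₀) z₀ := (analyticAt_pi_iff.1 hHan) b₀
    refine ⟨fun z => H z b₀, han, hb₀', ?_⟩
    filter_upwards [hHe, han.continuousAt.eventually_ne hb₀'] with z hz hz0
    obtain ⟨c, hc, e⟩ := hz
    have e1 : h z b₀ = c • H z b₀ := congrFun e b₀
    have h1 : h z b₀ ≠ 0 := by
      rw [e1]
      exact smul_ne_zero hc hz0
    obtain ⟨c', e2⟩ := Pool.Agent.H62.BU.comp_smul (h z) (hmem z) h1 (b z)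
    have hc' : c' ≠ 0 := by
      intro h0
      rw [h0, zero_smul] at e2
      exact hbne z e2
    refine ⟨c' * c, mul_ne_zero hc' hc, ?_⟩
    show h z (b z) = (c' * c) • H z b₀
    rw [e2, e1, smul_smul]
  have huc : ∀ z w, u (h z (b z)) - u (h w (b w)) ∈ Λ := by
    intro z w
    have h1 := Λ.add_mem (Λ.sub_mem (hconst z w) (huf z)) (huf w)
    have h2 : uB u (h z) - uB u (h w) - (uB u (h z) - u (h z (b z))) + (uB u (h w) - u (h w (b w))) =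
        u (h z (b z)) - u (h w (b w)) := by ring
    rwa [h2] at h1
  -- it is enough to have the value of `u` at `f 0`
  have hfin : (∃ b₁ ∈ B, u (h 0 (b 0)) - b₁ ∈ Λ) → ∃ b₁ ∈ B, uB u (h 0) - b₁ ∈ Λ := by
    rintro ⟨b₁, hb₁, h1⟩
    refine ⟨b₁, hb₁, ?_⟩
    have h2 := Λ.add_mem (huf 0) h1
    have h3 : uB u (h 0) - u (h 0 (b 0)) + (u (h 0 (b 0)) - b₁) = uB u (h 0) - b₁ := by ring
    rwa [h3] at h2
  apply hfin
  by_cases hcase : ∃ z w, ¬ Pr (h z (b z)) (h w (b w))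
  · exact hf (fun z => h z (b z)) hHol hfX huc hcase
  · push Not at hcase
    by_cases hl0 : ∀ b', l b' (h 0 (b 0)) = 0
    · obtain ⟨c, e⟩ := (hl (h 0 (b 0))).1 hl0
      have hc : c ≠ 0 := by
        intro h0
        rw [h0, zero_smul] at e
        exact hbne 0 e
      obtain ⟨b₁, hb₁, h1⟩ := hB
      refine ⟨b₁, hb₁, ?_⟩
      have h2 := hu.smul q hq c hc
      rw [← e] at h2
      have h3 := Λ.add_mem h2 h1
      have h4 : u (h 0 (b 0)) - u q + (u q - b₁) = u (h 0 (b 0)) - b₁ := by ring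
      rwa [h4] at h3
    · exfalso
      push Not at hl0
      obtain ⟨b', hb'⟩ := hl0
      have hl' : ∀ z, l b' (h z (b z)) ≠ 0 := by
        intro z h0
        obtain ⟨c, hc, e⟩ := hcase 0 z
        apply hb'
        rw [e, map_smul, h0, smul_zero]
      have hphi : ∀ z, Pr (h z) (phi l (h z (b z))) := fun z =>
        ⟨(l (b z) (h z (b z)))⁻¹, inv_ne_zero (Pool.Agent.H62.BU.ne_of_ne (h z) (hmem z) (hbne z) (hl' z)),
          Pool.Agent.H62.BU.eq_phi (h z) (hmem z) (hbne z) (hl' z)⟩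
      obtain ⟨z, w, hzw⟩ := hnc
      apply hzw
      have hpp : Pr (phi l (h z (b z))) (phi l (h w (b w))) := by
        obtain ⟨c, hc, e⟩ := hcase z w
        refine ⟨c ^ 2, pow_ne_zero 2 hc, ?_⟩
        rw [e, Pool.Agent.H62.BU.phi_smul]
      exact ((hphi z).trans hpp).trans (hphi w).symm

end Pool.Agent.H17N

end
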