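import Pool.Agent.H94.CB.H36.LB.PNDefs
import Pool.Agent.H94.CB.M18
import Pool.Agent.H94.CB.M187
import Pool.Agent.H94.CB.M189
import Pool.Agent.H94.CB.M190
import Pool.Agent.H94.CB.M191
import Pool.Agent.H94.CB.M41

/-! The parts of this file: H7.Per.Rat, H7.Per.End, H4.LU.Out, H7.Per.Main, H41.LR.Ratl, H87.LR.Lim0, H87.LR.HalfOf. -/

section

/-!
# Per Rat: holomorphic maps of the projective line into projective space are given by polynomials

`exists_poly`: let `G : ℂ → ℙ^N` be holomorphic, and let `w ↦ G (w⁻¹)` extend holomorphically over `0`.  Then `G w = [q_0 (w) : ... : q_N (w)]` for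
polynomials `q_i` without common zeros.
-/

set_option autoImplicit false

open Topology Filter Metric

noncomputable section

namespace Pool.Agent.H7.Per

attribute [-instance] ProperSMul.toContinuousSMul

open Pool.Agent.H17 (PN VanishesAt HolomorphicInto vanishesAt_mk_iff)

variable {N : ℕ}

/-- An entire function with polynomial growth is a polynomial. -/
theorem poly_of_growth {k : ℂ → ℂ} (hk : Differentiable ℂ k) {C : ℝ} {N : ℕ}
    (hb : ∀ w, 1 ≤ ‖w‖ → ‖k w‖ ≤ C * ‖w‖ ^ N) :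
    ∃ p : Polynomial ℂ, ∀ w, k w = p.eval w := by
  have hC : 0 ≤ C := by
    have h1 := hb 1 (by simp)
    rw [norm_one, one_pow, mul_one] at h1
    exact (norm_nonneg _).trans h1
  have hder : ∀ n, N < n → iteratedDeriv n k 0 = 0 := by
    intro n hn
    have h1 : ∀ R : ℝ, 1 ≤ R → ‖iteratedDeriv n k 0‖ ≤ n.factorial * C * R⁻¹ := by
      intro R hR
      have hR0 : 0 < R := by linarith
      have h2 := Complex.norm_iteratedDeriv_le_of_forall_mem_sphere_norm_le (f := k) (c := 0)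
        (C := C * R ^ N) n hR0 hk.diffContOnCl (fun z hz => by
          have hz' : ‖z‖ = R := by simpa using hz
          have h3 := hb z (by rw [hz']; exact hR)
          rwa [hz'] at h3)
      refine h2.trans ?_
      obtain ⟨d, rfl⟩ : ∃ d, n = N + 1 + d := ⟨n - (N + 1), by omega⟩
      have h4 : (1 : ℝ) ≤ R ^ d := one_le_pow₀ hR
      rw [div_le_iff₀ (by positivity)]
      have h5 : R⁻¹ * R ^ (N + 1 + d) = R ^ N * R ^ d := by
        rw [pow_add, pow_succ]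
        field_simp
      calc ((N + 1 + d).factorial : ℝ) * (C * R ^ N)
          = ((N + 1 + d).factorial : ℝ) * C * (R ^ N * 1) := by ring
        _ ≤ ((N + 1 + d).factorial : ℝ) * C * (R ^ N * R ^ d) := by gcongr
        _ = ((N + 1 + d).factorial : ℝ) * C * R⁻¹ * R ^ (N + 1 + d) := by
            rw [← h5]
            ring
    have h2 : Tendsto (fun R : ℝ => (n.factorial : ℝ) * C * R⁻¹) atTop (𝓝 0) := by
      have h3 := (tendsto_inv_atTop_zero (𝕜 := ℝ)).const_mul ((n.factorial : ℝ) * C)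
      rwa [mul_zero] at h3
    have h3 : ‖iteratedDeriv n k 0‖ ≤ 0 :=
      ge_of_tendsto h2 ((eventually_ge_atTop 1).mono h1)
    exact norm_le_zero_iff.1 h3
  refine ⟨∑ n ∈ Finset.range (N + 1),
    Polynomial.C ((n.factorial : ℂ)⁻¹ * iteratedDeriv n k 0) * Polynomial.X ^ n, fun w => ?_⟩
  have h1 := Complex.hasSum_taylorSeries_of_entire hk 0 w
  have h2 : HasSum (fun n : ℕ => (n.factorial : ℂ)⁻¹ • (w - 0) ^ n • iteratedDeriv n k 0)
      (∑ n ∈ Finset.range (N + 1), (n.factorial : ℂ)⁻¹ • (w - 0) ^ n • iteratedDeriv n k 0) := by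
    refine hasSum_sum_of_ne_finset_zero fun n hn => ?_
    have h3 : N < n := by
      by_contra h4
      exact hn (Finset.mem_range.2 (by omega))
    rw [hder n h3, smul_zero, smul_zero]
  rw [h1.unique h2, Polynomial.eval_finsetSum]
  refine Finset.sum_congr rfl fun n _ => ?_
  rw [Polynomial.eval_mul, Polynomial.eval_C, Polynomial.eval_pow, Polynomial.eval_X,
    smul_eq_mul, smul_eq_mul, sub_zero]
  ring

theorem vanishes_X {i : Fin (N + 1)} {x : PN N} : VanishesAt (MvPolynomial.X i) x ↔ x.rep i = 0 := by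
  unfold VanishesAt
  rw [MvPolynomial.eval_X]

theorem rep_mk {x : PN N} {v : Fin (N + 1) → ℂ} {h : v ≠ 0} (hx : x = Projectivization.mk ℂ v h) : ∃ c : ℂ, c ≠ 0 ∧ x.rep = c • v := by
  obtain ⟨a, ha⟩ := Projectivization.exists_smul_eq_mk_rep ℂ v h
  exact ⟨a, a.ne_zero, by rw [hx]; exact ha.symm⟩

/-- A coordinate which is not zero at one point is not identically zero near any point. -/
theorem coord_ne {G : ℂ → PN N} (hG : HolomorphicInto G Set.univ) {j : Fin (N + 1)} {w₀ : ℂ} (h0 : (G w₀).rep j ≠ 0) (a : ℂ)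
    {φ : ℂ → Fin (N + 1) → ℂ} (he : ∀ᶠ w in 𝓝 a, ∃ h : φ w ≠ 0, G w = Projectivization.mk ℂ (φ w) h) :
    ¬ ∀ᶠ w in 𝓝 a, φ w j = 0 := by
  intro h1
  have h2 := Pool.Agent.H36.BP.vanish_identity isPreconnected_univ hG (S := {MvPolynomial.X j}) (by
    rintro P hP
    rw [Set.mem_singleton_iff] at hP
    subst hP
    exact ⟨1, MvPolynomial.isHomogeneous_X ℂ j⟩) (Set.mem_univ a) (by
    filter_upwards [he, h1] with w h3 h4 P hP
    rw [Set.mem_singleton_iff] at hP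
    subst hP
    obtain ⟨h5, h6⟩ := h3
    rw [h6, vanishesAt_mk_iff (MvPolynomial.isHomogeneous_X ℂ j), MvPolynomial.eval_X]
    exact h4) w₀ (Set.mem_univ _) _ rfl
  exact h0 (vanishes_X.1 h2)

/-- **Holomorphic maps of the projective line into projective space are given by polynomials.** -/
theorem exists_poly {G : ℂ → PN N} (hG : HolomorphicInto G Set.univ) {S : ℂ → Fin (N + 1) → ℂ} (hS : AnalyticAt ℂ S 0) (hS0 : S 0 ≠ 0)
    (hSG : ∀ᶠ w in 𝓝[≠] (0 : ℂ), ∃ h : S w ≠ 0, G w⁻¹ = Projectivization.mk ℂ (S w) h) :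
    ∃ q : Fin (N + 1) → Polynomial ℂ, ∀ w, ∃ h : (fun i => (q i).eval w) ≠ 0, G w = Projectivization.mk ℂ _ h := by
  classical
  obtain ⟨j, hj⟩ : ∃ j, (G 0).rep j ≠ 0 := by
    by_contra hcon
    push Not at hcon
    exact (G 0).rep_nonzero (funext hcon)
  choose φ hφ he using fun a => hG a (Set.mem_univ a)
  -- the orders of the zeros
  have hord : ∀ a, ∃ (n : ℕ) (ψ : ℂ → ℂ), AnalyticAt ℂ ψ a ∧ ψ a ≠ 0 ∧ ∀ᶠ w in 𝓝 a, φ a w j = (w - a) ^ n * ψ w := by
    intro a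
    have h1 : AnalyticAt ℂ (fun w => φ a w j) a := analyticAt_pi_iff.1 (hφ a) j
    obtain ⟨n, ψ, h2, h3, h4⟩ := h1.exists_eventuallyEq_pow_smul_nonzero_iff.2 (coord_ne hG hj a (he a))
    exact ⟨n, ψ, h2, h3, h4⟩
  choose n ψ hψ hψ0 hψe using hord
  -- near infinity
  have hSj : ¬ ∀ᶠ w in 𝓝 (0 : ℂ), S w j = 0 := by
    intro h1
    have h2 : ∀ᶠ w in 𝓝[≠] (0 : ℂ), w ≠ 0 ∧ (∃ h : S w ≠ 0, G w⁻¹ = Projectivization.mk ℂ (S w) h) ∧ ∀ᶠ w' in 𝓝 w, w' ≠ 0 ∧
        (∃ h : S w' ≠ 0, G w'⁻¹ = Projectivization.mk ℂ (S w') h) ∧ S w' j = 0 := by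
      have h3 : ∀ᶠ w in 𝓝[≠] (0 : ℂ), w ≠ 0 := self_mem_nhdsWithin
      have h4 : ∀ᶠ w in 𝓝[≠] (0 : ℂ), ∀ᶠ w' in 𝓝[≠] w, (∃ h : S w' ≠ 0, G w'⁻¹ = Projectivization.mk ℂ (S w') h) ∧ S w' j = 0 := by
        have h5 : ∀ᶠ w in 𝓝[≠] (0 : ℂ), (∃ h : S w ≠ 0, G w⁻¹ = Projectivization.mk ℂ (S w) h) ∧ S w j = 0 :=
          hSG.and (h1.filter_mono nhdsWithin_le_nhds)
        have h7 : ∀ᶠ w in 𝓝 (0 : ℂ), ∀ᶠ w' in 𝓝 w, w' ∈ ({0}ᶜ : Set ℂ) → ((∃ h : S w' ≠ 0, G w'⁻¹ = Projectivization.mk ℂ (S w') h) ∧ S w' j = 0) :=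
          (eventually_nhdsWithin_iff.1 h5).eventually_nhds
        filter_upwards [h7.filter_mono nhdsWithin_le_nhds, h3] with w h8 h9
        refine eventually_nhdsWithin_iff.2 ?_
        filter_upwards [h8, isOpen_compl_singleton.mem_nhds h9] with w' h10 h11 _
        exact h10 h11
      have h5 : ∀ᶠ w in 𝓝[≠] (0 : ℂ), ∀ᶠ w' in 𝓝 w, w' ≠ 0 := by
        filter_upwards [h3] with w h6
        exact isOpen_ne.mem_nhds h6
      filter_upwards [h3, hSG, h4, h5, h1.filter_mono nhdsWithin_le_nhds] with w h6 h7 h8 h9 h10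
      refine ⟨h6, h7, ?_⟩
      have h11 := eventually_nhdsWithin_iff.1 h8
      filter_upwards [h9, h11] with w' h12 h13
      by_cases hw : w' = w
      · rw [hw]
        exact ⟨h6, h7, h10⟩
      · obtain ⟨h14, h15⟩ := h13 hw
        exact ⟨h12, h14, h15⟩
    obtain ⟨w, hw0, -, h3⟩ := h2.exists
    -- the coordinate is zero near `w⁻¹`
    have h4 : Tendsto (fun v : ℂ => v⁻¹) (𝓝 w⁻¹) (𝓝 w) := by
      have h5 := (tendsto_id (x := 𝓝 w⁻¹)).inv₀ (inv_ne_zero hw0)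
      rwa [inv_inv] at h5
    refine coord_ne hG hj w⁻¹ (he w⁻¹) ?_
    filter_upwards [h4.eventually h3, he w⁻¹] with v h5 h6
    obtain ⟨h7, ⟨h8, h9⟩, h10⟩ := h5
    obtain ⟨h11, h12⟩ := h6
    rw [inv_inv] at h9
    obtain ⟨c, hc, h13⟩ := rep_mk h9
    obtain ⟨c', hc', h14⟩ := rep_mk h12
    have h15 : c • S v⁻¹ = c' • φ w⁻¹ v := by rw [← h13, h14]
    have h16 := congrFun h15 j
    simp only [Pi.smul_apply, smul_eq_mul, h10, mul_zero] at h16
    exact (mul_eq_zero.1 h16.symm).resolve_left hc'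
  obtain ⟨m, χ, hχ, hχ0, hχe⟩ := (show AnalyticAt ℂ (fun w => S w j) 0 from analyticAt_pi_iff.1 hS j).exists_eventuallyEq_pow_smul_nonzero_iff.2 hSj
  -- a bound of the ratios near infinity
  have hinf : ∃ (ρ : ℝ) (C : ℝ), 0 < ρ ∧ ρ < 1 ∧ 0 ≤ C ∧ ∀ w : ℂ, w ≠ 0 → ‖w‖ < ρ → (∃ h : S w ≠ 0, G w⁻¹ = Projectivization.mk ℂ (S w) h) ∧ S w j ≠ 0 ∧
      ∀ i, ‖S w i / S w j‖ ≤ C * ‖w⁻¹‖ ^ m := by
    have h1 : ∀ᶠ w in 𝓝 (0 : ℂ), ‖S w‖ ≤ ‖S 0‖ + 1 :=
      (hS.continuousAt.norm.eventually_lt continuousAt_const (lt_add_one _)).mono fun w hw => hw.le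
    have h2 : ∀ᶠ w in 𝓝 (0 : ℂ), ‖χ 0‖ / 2 < ‖χ w‖ :=
      hχ.continuousAt.norm.eventually_const_lt (half_lt_self (norm_pos_iff.2 hχ0))
    obtain ⟨ρ, hρ, h3⟩ := Metric.eventually_nhds_iff_ball.1 (((eventually_nhdsWithin_iff.1 hSG).and hχe).and (h1.and h2))
    have hχp : 0 < ‖χ 0‖ := norm_pos_iff.2 hχ0
    refine ⟨min ρ (1 / 2), (‖S 0‖ + 1) / (‖χ 0‖ / 2), lt_min hρ (by norm_num), (min_le_right _ _).trans_lt (by norm_num), by positivity,
      fun w hw hwρ => ?_⟩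
    obtain ⟨⟨h4, h5⟩, h6, h7⟩ := h3 w (by rw [mem_ball_zero_iff]; exact hwρ.trans_le (min_le_left _ _))
    rw [sub_zero, smul_eq_mul] at h5
    have h8 : χ w ≠ 0 := by
      intro h9
      rw [h9, norm_zero] at h7
      linarith [norm_nonneg (χ 0)]
    have h9 : S w j ≠ 0 := by
      rw [h5]
      exact mul_ne_zero (pow_ne_zero _ hw) h8
    refine ⟨h4 hw, h9, fun i => ?_⟩
    rw [norm_div, h5, norm_mul, norm_pow, norm_inv, inv_pow]
    have h10 : ‖S w i‖ ≤ ‖S 0‖ + 1 := (norm_le_pi_norm (S w) i).trans h6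
    have h11 : 0 < ‖w‖ ^ m := pow_pos (norm_pos_iff.2 hw) m
    rw [div_le_iff₀ (mul_pos h11 (norm_pos_iff.2 h8))]
    calc ‖S w i‖ ≤ ‖S 0‖ + 1 := h10
      _ = (‖S 0‖ + 1) / (‖χ 0‖ / 2) * (‖χ 0‖ / 2) := by field_simp
      _ ≤ (‖S 0‖ + 1) / (‖χ 0‖ / 2) * ‖χ w‖ := by
          refine mul_le_mul_of_nonneg_left h7.le (by positivity)
      _ = (‖S 0‖ + 1) / (‖χ 0‖ / 2) * (‖w‖ ^ m)⁻¹ * (‖w‖ ^ m * ‖χ w‖) := by field_simp
  obtain ⟨ρ, C, hρ, hρ1, hC, hinf⟩ := hinf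
  -- the zeros of the coordinate `j`
  set Z : Set ℂ := {w | (G w).rep j = 0} with hZ
  have hZiff : ∀ a, ∀ᶠ w in 𝓝 a, (w ∈ Z ↔ φ a w j = 0) := by
    intro a
    filter_upwards [he a] with w h1
    obtain ⟨h2, h3⟩ := h1
    obtain ⟨c, hc, h4⟩ := rep_mk h3
    change (G w).rep j = 0 ↔ _
    rw [h4, Pi.smul_apply, smul_eq_mul, mul_eq_zero]
    exact ⟨fun h => h.resolve_left hc, Or.inr⟩
  have hZn : ∀ a, ∀ᶠ w in 𝓝[≠] a, w ∉ Z := by
    intro a
    have h1 : ∀ᶠ w in 𝓝[≠] a, w ≠ a := self_mem_nhdsWithin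
    filter_upwards [(hZiff a).filter_mono nhdsWithin_le_nhds, (hψe a).filter_mono nhdsWithin_le_nhds, h1,
      ((hψ a).continuousAt.eventually_ne (hψ0 a)).filter_mono nhdsWithin_le_nhds] with w h2 h3 h4 h5
    rw [h2, h3]
    exact mul_ne_zero (pow_ne_zero _ (sub_ne_zero.2 h4)) h5
  have hZb : Z ⊆ closedBall 0 (ρ⁻¹) := by
    intro w hw
    rw [mem_closedBall_zero_iff]
    by_contra hcon
    push Not at hcon
    have hw0 : 0 < ‖w‖ := (inv_pos.2 hρ).trans hcon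
    have hw1 : w ≠ 0 := norm_pos_iff.1 hw0
    obtain ⟨⟨h1, h2⟩, h3, -⟩ := hinf w⁻¹ (inv_ne_zero hw1) (by rw [norm_inv]; exact inv_lt_of_inv_lt₀ hρ hcon)
    rw [inv_inv] at h2
    obtain ⟨c, hc, h4⟩ := rep_mk h2
    have h5 : (G w).rep j = 0 := hw
    rw [h4, Pi.smul_apply, smul_eq_mul] at h5
    exact mul_ne_zero hc h3 h5
  have hZf : Z.Finite := by
    by_contra hcon
    obtain ⟨a, -, ha⟩ := Set.Infinite.exists_accPt_of_subset_isCompact hcon (isCompact_closedBall (0 : ℂ) ρ⁻¹) hZb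
    rw [accPt_iff_frequently_nhdsNE] at ha
    exact ha ((hZn a).mono fun w hw h => hw h)
  set T : Finset ℂ := hZf.toFinset with hT
  have hTmem : ∀ a, a ∈ T ↔ a ∈ Z := fun a => hZf.mem_toFinset
  -- the coordinates
  set Q : ℂ → ℂ := fun w => ∏ b ∈ T, (w - b) ^ n b with hQ
  set Q' : ℂ → ℂ → ℂ := fun a w => ∏ b ∈ T.erase a, (w - b) ^ n b with hQ'
  have hQQ' : ∀ a ∈ T, ∀ w, Q w = (w - a) ^ n a * Q' a w := fun a ha w => (Finset.mul_prod_erase T (fun b => (w - b) ^ n b) ha).symm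
  have hQd : Differentiable ℂ Q := by
    have h1 : Differentiable ℂ fun w : ℂ => ∏ b ∈ T, (w - b) ^ n b := by fun_prop
    exact h1
  have hQ'd : ∀ a, Differentiable ℂ (Q' a) := by
    intro a
    have h1 : Differentiable ℂ fun w : ℂ => ∏ b ∈ T.erase a, (w - b) ^ n b := by fun_prop
    exact h1
  set q : ℂ → Fin (N + 1) → ℂ := fun w => if w ∈ Z then (Q' w w / ψ w w) • φ w w else (Q w / (G w).rep j) • (G w).rep with hq
  have hqG : ∀ w, ∃ h : q w ≠ 0, G w = Projectivization.mk ℂ (q w) h := by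
    intro w
    by_cases hw : w ∈ Z
    · have h1 : q w = (Q' w w / ψ w w) • φ w w := if_pos hw
      obtain ⟨h2, h3⟩ := (he w).self_of_nhds
      have h4 : Q' w w / ψ w w ≠ 0 := by
        refine div_ne_zero ?_ (hψ0 w)
        refine Finset.prod_ne_zero_iff.2 fun b hb => pow_ne_zero _ (sub_ne_zero.2 ?_)
        exact (Finset.ne_of_mem_erase hb).symm
      have h5 : q w ≠ 0 := by
        rw [h1]
        exact smul_ne_zero h4 h2
      refine ⟨h5, ?_⟩
      rw [h3, Projectivization.mk_eq_mk_iff']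
      refine ⟨(Q' w w / ψ w w)⁻¹, ?_⟩
      rw [h1, smul_smul, inv_mul_cancel₀ h4, one_smul]
    · have h1 : q w = (Q w / (G w).rep j) • (G w).rep := if_neg hw
      have h4 : Q w / (G w).rep j ≠ 0 := by
        refine div_ne_zero ?_ hw
        refine Finset.prod_ne_zero_iff.2 fun b hb => pow_ne_zero _ (sub_ne_zero.2 ?_)
        rintro rfl
        exact hw ((hTmem _).1 hb)
      have h5 : q w ≠ 0 := by
        rw [h1]
        exact smul_ne_zero h4 (G w).rep_nonzero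
      refine ⟨h5, ?_⟩
      conv_lhs => rw [← (G w).mk_rep]
      rw [Projectivization.mk_eq_mk_iff']
      refine ⟨(Q w / (G w).rep j)⁻¹, ?_⟩
      rw [h1, smul_smul, inv_mul_cancel₀ h4, one_smul]
  have hqφ : ∀ w (v : Fin (N + 1) → ℂ) (hv : v ≠ 0), w ∉ Z → G w = Projectivization.mk ℂ v hv → q w = (Q w / v j) • v := by
    intro w v hv hw h1
    have h2 : q w = (Q w / (G w).rep j) • (G w).rep := if_neg hw
    obtain ⟨c, hc, h3⟩ := rep_mk h1
    rw [h2, h3, smul_smul]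
    congr 1
    change Q w / (c * v j) * c = Q w / v j
    rw [div_mul_eq_mul_div, mul_comm c (v j), mul_div_mul_right _ _ hc]
  have hqd : Differentiable ℂ q := by
    intro a
    by_cases ha : a ∈ Z
    · have h1 : DifferentiableAt ℂ (fun w => (Q' a w / ψ a w) • φ a w) a :=
        (((hQ'd a) a).div (hψ a).differentiableAt (hψ0 a)).smul (hφ a).differentiableAt
      refine h1.congr_of_eventuallyEq ?_
      have h2 := eventually_nhdsWithin_iff.1 (hZn a)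
      filter_upwards [h2, he a, hψe a, (hψ a).continuousAt.eventually_ne (hψ0 a)] with w h3 h4 h5 h6
      by_cases hw : w = a
      · subst hw
        exact if_pos ha
      · obtain ⟨h7, h8⟩ := h4
        rw [hqφ w _ h7 (h3 hw) h8, h5, hQQ' a ((hTmem a).2 ha), mul_div_mul_left _ _ (pow_ne_zero _ (sub_ne_zero.2 hw))]
    · have h0 : φ a a j ≠ 0 := fun h => ha ((hZiff a).self_of_nhds.2 h)
      have hc : DifferentiableAt ℂ (fun w => φ a w j) a := (analyticAt_pi_iff.1 (hφ a) j).differentiableAt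
      have h1 : DifferentiableAt ℂ (fun w => (Q w / φ a w j) • φ a w) a :=
        ((hQd a).div hc h0).smul (hφ a).differentiableAt
      refine h1.congr_of_eventuallyEq ?_
      filter_upwards [he a, hZiff a, hc.continuousAt.eventually_ne h0] with w h4 h5 h6
      obtain ⟨h7, h8⟩ := h4
      exact hqφ w _ h7 (fun h => h6 (h5.1 h)) h8
  -- the growth
  set d : ℕ := ∑ b ∈ T, n b with hd
  have hQgr : ∃ A : ℝ, 0 ≤ A ∧ ∀ w : ℂ, 1 ≤ ‖w‖ → ‖Q w‖ ≤ A * ‖w‖ ^ d := by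
    refine ⟨∏ b ∈ T, (1 + ‖b‖) ^ n b, Finset.prod_nonneg fun b _ => by positivity, fun w hw => ?_⟩
    rw [hQ, hd]
    simp only
    rw [norm_prod, ← Finset.prod_pow_eq_pow_sum, ← Finset.prod_mul_distrib]
    refine Finset.prod_le_prod (fun b _ => norm_nonneg _) fun b _ => ?_
    rw [norm_pow, ← mul_pow]
    refine pow_le_pow_left₀ (norm_nonneg _) ?_ _
    calc ‖w - b‖ ≤ ‖w‖ + ‖b‖ := norm_sub_le _ _
      _ ≤ (1 + ‖b‖) * ‖w‖ := by nlinarith [norm_nonneg b]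
  obtain ⟨A, hA, hQgr⟩ := hQgr
  obtain ⟨B, hB⟩ : ∃ B : ℝ, ∀ w ∈ closedBall (0 : ℂ) ρ⁻¹, ‖q w‖ ≤ B := by
    obtain ⟨B, hB⟩ := (isCompact_closedBall (0 : ℂ) ρ⁻¹).exists_bound_of_continuousOn hqd.continuous.continuousOn
    exact ⟨B, hB⟩
  have hgr : ∀ i w, 1 ≤ ‖w‖ → ‖q w i‖ ≤ (max B (A * C)) * ‖w‖ ^ (d + m) := by
    intro i w hw
    have h1 : (1 : ℝ) ≤ ‖w‖ ^ (d + m) := one_le_pow₀ hw
    rcases le_or_gt ‖w‖ ρ⁻¹ with h2 | h2
    · have h3 := hB w (by rw [mem_closedBall_zero_iff]; exact h2)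
      have h4 : ‖q w i‖ ≤ B := (norm_le_pi_norm (q w) i).trans h3
      have h5 : 0 ≤ B := (norm_nonneg _).trans h3
      calc ‖q w i‖ ≤ B * 1 := by rw [mul_one]; exact h4
        _ ≤ (max B (A * C)) * ‖w‖ ^ (d + m) := mul_le_mul (le_max_left _ _) h1 zero_le_one (h5.trans (le_max_left _ _))
    · have hw0 : 0 < ‖w‖ := (inv_pos.2 hρ).trans h2
      have hw1 : w ≠ 0 := norm_pos_iff.1 hw0
      obtain ⟨⟨h3, h4⟩, h5, h6⟩ := hinf w⁻¹ (inv_ne_zero hw1) (by rw [norm_inv]; exact inv_lt_of_inv_lt₀ hρ h2)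
      rw [inv_inv] at h4 h6
      have h7 : w ∉ Z := by
        intro h8
        have h9 := hZb h8
        rw [mem_closedBall_zero_iff] at h9
        linarith
      rw [hqφ w _ h3 h7 h4]
      have h8 : ((Q w / S w⁻¹ j) • S w⁻¹) i = Q w * (S w⁻¹ i / S w⁻¹ j) := by
        rw [Pi.smul_apply, smul_eq_mul]
        ring
      rw [h8, norm_mul]
      calc ‖Q w‖ * ‖S w⁻¹ i / S w⁻¹ j‖ ≤ (A * ‖w‖ ^ d) * (C * ‖w‖ ^ m) :=
            mul_le_mul (hQgr w hw) (h6 i) (norm_nonneg _) (by positivity)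
        _ = (A * C) * ‖w‖ ^ (d + m) := by rw [pow_add]; ring
        _ ≤ (max B (A * C)) * ‖w‖ ^ (d + m) := mul_le_mul_of_nonneg_right (le_max_right _ _) (by positivity)
  choose p hp using fun i => poly_of_growth (k := fun w => q w i) (fun w => (differentiableAt_pi.1 (hqd w)) i) (hgr i)
  refine ⟨p, fun w => ?_⟩
  have h1 : (fun i => (p i).eval w) = q w := by
    funext i
    exact (hp i w).symm
  rw [h1]
  exact hqG w

end Pool.Agent.H7.Per

end
end

section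

/-!
# Per End: a periodic holomorphic map with short circles extends over the end

Let `f : ℂ → ℙ^N` be holomorphic with period `2 π i k`, and let the images of the segments of length `2 π k` in `Re z = s` be small for `s → -∞`.  Then `f (k log w)` extends
holomorphically over `w = 0`.  Proof: choose `s₀` and a coordinate `j` with `|x_j|² ≥ |x|² / (N + 1)` at `f s₀`.  The mean of the ratios `x_i / x_j` over the segment `Re z = s` does not
depend on `s` as long as `x_j ≠ 0`; so the ratios are almost constant for `s ≤ s₀`, `x_j` is never small, and the ratios are bounded functions of `w`.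
-/

set_option autoImplicit false

open Topology Filter Metric

noncomputable section

namespace Pool.Agent.H7.Per

attribute [-instance] ProperSMul.toContinuousSMul

open Pool.Agent.H17 (PN VanishesAt HolomorphicInto vanishesAt_mk_iff)
open Pool.Agent.H36.BP (EN)
open Pool.Agent.H62.EF (MN pr)

variable {N : ℕ}

/-- The matrix of a point of projective space. -/
def prP (x : PN N) : MN N := pr (WithLp.toLp 2 x.rep)

theorem toLp_ne {v : Fin (N + 1) → ℂ} (h : v ≠ 0) : (WithLp.toLp 2 v : EN N) ≠ 0 := by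
  intro h1
  apply h
  funext i
  have h2 := congrArg (fun x : EN N => x i) h1
  exact h2

theorem prP_mk {x : PN N} {v : Fin (N + 1) → ℂ} {h : v ≠ 0} (hx : x = Projectivization.mk ℂ v h) : prP x = pr (WithLp.toLp 2 v) := by
  obtain ⟨c, hc, h1⟩ := rep_mk hx
  unfold prP
  rw [h1, WithLp.toLp_smul, Pool.Agent.H62.EF.pr_smul _ hc]

theorem continuousAt_prP {f : ℂ → PN N} {U : Set ℂ} (hf : HolomorphicInto f U) {z : ℂ} (hz : z ∈ U) : ContinuousAt (fun z => prP (f z)) z := by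
  obtain ⟨φ, hφ, he⟩ := hf z hz
  obtain ⟨h1, -⟩ := he.self_of_nhds
  have h2 : ContinuousAt (fun z => (WithLp.toLp 2 (φ z) : EN N)) z :=
    (PiLp.continuous_toLp 2 _).continuousAt.comp hφ.continuousAt
  have h3 : ContinuousAt (fun z => pr (WithLp.toLp 2 (φ z) : EN N)) z :=
    ContinuousAt.comp (g := pr) (f := fun z => (WithLp.toLp 2 (φ z) : EN N)) (Pool.Agent.H62.EF.continuousAt_pr (toLp_ne h1)) h2
  refine h3.congr ?_
  filter_upwards [he] with w h4
  obtain ⟨h5, h6⟩ := h4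
  exact (prP_mk h6).symm

/-- The ratios of the coordinates, as functions of the matrix. -/
def rat (j : Fin (N + 1)) (m : MN N) : EN N := WithLp.toLp 2 fun i => m (i, j) / m (j, j)

theorem rat_pr {x : EN N} {j : Fin (N + 1)} (hx : x ≠ 0) (hj : x j ≠ 0) : rat j (pr x) = (x j)⁻¹ • x := by
  have h1 : ((‖x‖ ^ 2 : ℝ) : ℂ) ≠ 0 := by
    have : ‖x‖ ≠ 0 := norm_ne_zero_iff.mpr hx
    exact_mod_cast pow_ne_zero 2 this
  have h2 : (starRingEnd ℂ) (x j) ≠ 0 := fun h => hj ((map_eq_zero _).1 h)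
  unfold rat pr
  ext i
  change (x i * (starRingEnd ℂ) (x j) / ((‖x‖ ^ 2 : ℝ) : ℂ)) / (x j * (starRingEnd ℂ) (x j) / ((‖x‖ ^ 2 : ℝ) : ℂ)) = (x j)⁻¹ * x i
  rw [div_div_div_cancel_right₀ h1, mul_div_mul_right _ _ h2, div_eq_inv_mul]

theorem norm_diag (x : EN N) (j : Fin (N + 1)) : ‖pr x (j, j)‖ = ‖x j‖ ^ 2 / ‖x‖ ^ 2 := by
  unfold pr
  change ‖x j * (starRingEnd ℂ) (x j) / ((‖x‖ ^ 2 : ℝ) : ℂ)‖ = _
  rw [norm_div, norm_mul, RCLike.norm_conj, Complex.norm_real, Real.norm_of_nonneg (by positivity)]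
  ring

theorem norm_rat {x : EN N} {j : Fin (N + 1)} (hx : x ≠ 0) (hj : x j ≠ 0) : ‖rat j (pr x)‖ ^ 2 = ‖pr x (j, j)‖⁻¹ := by
  rw [rat_pr hx hj, norm_diag, norm_smul, norm_inv, inv_div, mul_pow, inv_pow, div_eq_inv_mul]

theorem exists_big {x : EN N} (hx : x ≠ 0) : ∃ j, ((N : ℝ) + 1)⁻¹ ≤ ‖pr x (j, j)‖ := by
  by_contra hcon
  push Not at hcon
  have h1 : ∑ j, ‖pr x (j, j)‖ = 1 := by
    have h2 : ∀ j, ‖pr x (j, j)‖ = ‖x j‖ ^ 2 / ‖x‖ ^ 2 := fun j => norm_diag x j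
    rw [Finset.sum_congr rfl fun j _ => h2 j, ← Finset.sum_div, ← EuclideanSpace.norm_sq_eq]
    exact div_self (pow_ne_zero 2 (norm_ne_zero_iff.2 hx))
  have h2 : ∑ j : Fin (N + 1), ‖pr x (j, j)‖ < ∑ _j : Fin (N + 1), ((N : ℝ) + 1)⁻¹ :=
    Finset.sum_lt_sum_of_nonempty Finset.univ_nonempty fun j _ => hcon j
  rw [h1, Finset.sum_const, Finset.card_univ, Fintype.card_fin, nsmul_eq_mul, Nat.cast_add, Nat.cast_one,
    mul_inv_cancel₀ (by positivity)] at h2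
  exact lt_irrefl _ h2

theorem uniform_rat {c : ℝ} (hc : 0 < c) {η : ℝ} (hη : 0 < η) : ∃ ε : ℝ, 0 < ε ∧ ∀ (j : Fin (N + 1)) (m m' : MN N), ‖m‖ ≤ 1 → ‖m'‖ ≤ 1 →
    c ≤ ‖m (j, j)‖ → c ≤ ‖m' (j, j)‖ → dist m m' ≤ ε → dist (rat j m) (rat j m') ≤ η := by
  have h1 : ∀ j : Fin (N + 1), ∃ ε : ℝ, 0 < ε ∧ ∀ (m m' : MN N), ‖m‖ ≤ 1 → ‖m'‖ ≤ 1 →
      c ≤ ‖m (j, j)‖ → c ≤ ‖m' (j, j)‖ → dist m m' ≤ ε → dist (rat j m) (rat j m') ≤ η := by
    intro j
    set K : Set (MN N) := closedBall 0 1 ∩ {m | c ≤ ‖m (j, j)‖} with hK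
    have hcont : Continuous fun m : MN N => m (j, j) := PiLp.continuous_apply 2 _ (j, j)
    have hKc : IsCompact K := (isCompact_closedBall _ _).inter_right (isClosed_le continuous_const hcont.norm)
    have hrc : ContinuousOn (rat j) K := by
      intro m hm
      have h2 : m (j, j) ≠ 0 := by
        intro h3
        have h4 : c ≤ ‖m (j, j)‖ := hm.2
        rw [h3, norm_zero] at h4
        linarith
      have h3 : ContinuousAt (fun m : MN N => fun i : Fin (N + 1) => m (i, j) / m (j, j)) m := by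
        refine continuousAt_pi.2 fun i => ?_
        exact ((PiLp.continuous_apply 2 _ (i, j)).continuousAt).div hcont.continuousAt h2
      exact ((PiLp.continuous_toLp 2 _).continuousAt.comp h3).continuousWithinAt
    obtain ⟨ε, hε, h2⟩ := Metric.uniformContinuousOn_iff.1 (hKc.uniformContinuousOn_of_continuous hrc) η hη
    refine ⟨ε / 2, half_pos hε, fun m m' hm hm' hc1 hc2 hd => (h2 m ⟨?_, hc1⟩ m' ⟨?_, hc2⟩ (hd.trans_lt (half_lt_self hε))).le⟩
    · rwa [mem_closedBall_zero_iff]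
    · rwa [mem_closedBall_zero_iff]
  choose ε hε h2 using h1
  refine ⟨Finset.univ.inf' Finset.univ_nonempty ε, ?_, fun j m m' hm hm' hc1 hc2 hd => h2 j m m' hm hm' hc1 hc2 (hd.trans ?_)⟩
  · rw [Finset.lt_inf'_iff]
    exact fun j _ => hε j
  · exact Finset.inf'_le _ (Finset.mem_univ j)

/-- the ratios along a holomorphic map -/
theorem differentiableAt_rat {f : ℂ → PN N} {U : Set ℂ} (hf : HolomorphicInto f U) {z : ℂ} (hz : z ∈ U) {j : Fin (N + 1)}
    (hj : (f z).rep j ≠ 0) : DifferentiableAt ℂ (fun z => rat j (prP (f z))) z := by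
  obtain ⟨φ, hφ, he⟩ := hf z hz
  have h0 : φ z j ≠ 0 := by
    obtain ⟨h1, h2⟩ := he.self_of_nhds
    obtain ⟨c, hc, h3⟩ := rep_mk h2
    rw [h3] at hj
    exact right_ne_zero_of_mul hj
  have hφj : DifferentiableAt ℂ (fun z => φ z j) z := (analyticAt_pi_iff.1 hφ j).differentiableAt
  have h1 : DifferentiableAt ℂ (fun z => (WithLp.toLp 2 ((φ z j)⁻¹ • φ z) : EN N)) z := by
    have h2 : DifferentiableAt ℂ (fun z => (φ z j)⁻¹ • φ z) z := (hφj.inv h0).smul hφ.differentiableAt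
    exact (PiLp.continuousLinearEquiv 2 ℂ (fun _ : Fin (N + 1) => ℂ)).symm.toContinuousLinearMap.differentiableAt.comp z h2
  refine h1.congr_of_eventuallyEq ?_
  filter_upwards [he, hφj.continuousAt.eventually_ne h0] with w h3 h4
  obtain ⟨h5, h6⟩ := h3
  rw [prP_mk h6, rat_pr (toLp_ne h5) h4, WithLp.toLp_smul]

/-- **The ratios are bounded near the end.** -/
theorem exists_coord_end {f : ℂ → PN N} (hf : HolomorphicInto f Set.univ) {L : ℝ} (hL : 0 < L) (hper : ∀ z, f (z + L * Complex.I) = f z)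
    (hs : ∀ ε > 0, ∃ X : ℝ, ∀ z z' : ℂ, z.re ≤ -X → z'.re = z.re → |z'.im - z.im| ≤ L → dist (prP (f z)) (prP (f z')) ≤ ε) :
    ∃ (j : Fin (N + 1)) (s₀ c : ℝ), 0 < c ∧ ∀ z : ℂ, z.re ≤ s₀ → c ≤ ‖prP (f z) (j, j)‖ := by
  set c : ℝ := ((N : ℝ) + 1)⁻¹ / 2 with hc
  have hcpos : 0 < c := by positivity
  obtain ⟨ε₁, hε₁, hu⟩ := uniform_rat (N := N) hcpos (η := 1 / 20) (by norm_num)
  obtain ⟨X, hX⟩ := hs (min ε₁ (c / 2)) (lt_min hε₁ (by positivity))
  set s₀ : ℝ := -X with hs₀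
  have hne : ∀ z, (WithLp.toLp 2 (f z).rep : EN N) ≠ 0 := fun z => toLp_ne (f z).rep_nonzero
  obtain ⟨j, hj⟩ : ∃ j, 2 * c ≤ ‖prP (f (s₀ : ℂ)) (j, j)‖ := by
    obtain ⟨j, hj⟩ := exists_big (hne (s₀ : ℂ))
    refine ⟨j, ?_⟩
    rw [hc]
    have h1 : 2 * (((N : ℝ) + 1)⁻¹ / 2) = ((N : ℝ) + 1)⁻¹ := by ring
    rw [h1]
    exact hj
  set a : ℂ → ℝ := fun z => ‖prP (f z) (j, j)‖ with ha
  have hcont : Continuous fun z => prP (f z) := continuous_iff_continuousAt.2 fun z => continuousAt_prP hf (Set.mem_univ z)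
  have hac : Continuous a := ((PiLp.continuous_apply 2 _ (j, j)).comp hcont).norm
  have hdist : ∀ z z', |a z - a z'| ≤ dist (prP (f z)) (prP (f z')) := by
    intro z z'
    refine (abs_norm_sub_norm_le _ _).trans ?_
    rw [dist_eq_norm]
    exact PiLp.norm_apply_le (prP (f z) - prP (f z')) (j, j)
  have hm1 : ∀ z, ‖prP (f z)‖ ≤ 1 := fun z => (Pool.Agent.H62.EF.norm_pr (hne z)).le
  -- the claim on the real axis
  have claim : ∀ s : ℝ, s ≤ s₀ → 3 / 2 * c < a s := by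
    intro s₁ hs₁
    by_contra hcon
    push Not at hcon
    have hreal : Continuous fun s : ℝ => a (s : ℂ) := hac.comp Complex.continuous_ofReal
    have hj' : 2 * c ≤ a (s₀ : ℂ) := hj
    set C : Set ℝ := Set.Icc s₁ s₀ ∩ (fun s : ℝ => a (s : ℂ)) ⁻¹' {3 / 2 * c} with hC
    have hCc : IsCompact C := isCompact_Icc.inter_right (isClosed_singleton.preimage hreal)
    have hIVT : ∀ s : ℝ, s ≤ s₀ → a (s : ℂ) ≤ 3 / 2 * c → ∃ t ∈ Set.Icc s s₀, a (t : ℂ) = 3 / 2 * c := by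
      intro s hs h1
      obtain ⟨t, ht, h2⟩ := intermediate_value_Icc hs hreal.continuousOn (show 3 / 2 * c ∈ Set.Icc (a (s : ℂ)) (a (s₀ : ℂ)) from
        ⟨h1, by linarith⟩)
      exact ⟨t, ht, h2⟩
    obtain ⟨t₀, ht₀, ht₀'⟩ := hIVT s₁ hs₁ hcon
    obtain ⟨s₂, ⟨hs₂, hs₂a⟩, hs₂m⟩ := hCc.exists_isGreatest ⟨t₀, ht₀, ht₀'⟩
    have hs₂a' : a (s₂ : ℂ) = 3 / 2 * c := hs₂a
    have hlt : s₂ < s₀ := by
      refine lt_of_le_of_ne hs₂.2 ?_
      rintro rfl
      linarith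
    have hint : ∀ s ∈ Set.Icc s₂ s₀, 3 / 2 * c ≤ a (s : ℂ) := by
      intro s hs
      by_contra h1
      push Not at h1
      obtain ⟨t, ht, h2⟩ := hIVT s hs.2 h1.le
      have h3 : t ∈ C := ⟨⟨hs₂.1.trans (hs.1.trans ht.1), ht.2⟩, h2⟩
      have h4 : t ≤ s₂ := hs₂m h3
      have h5 : t = s := le_antisymm (h4.trans hs.1) ht.1
      rw [h5] at h2
      linarith
    -- the rectangle
    have hrect : ∀ z : ℂ, z.re ∈ Set.Icc s₂ s₀ → z.im ∈ Set.Icc 0 L → c ≤ a z := by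
      intro z hz1 hz2
      have h1 := hX (z.re : ℂ) z (by rw [Complex.ofReal_re]; exact hz1.2) (by rw [Complex.ofReal_re]) (by
        rw [Complex.ofReal_im, sub_zero, abs_of_nonneg hz2.1]
        exact hz2.2)
      have h2 := hint z.re hz1
      have h3 := (hdist (z.re : ℂ) z).trans (h1.trans (min_le_right _ _))
      have h4 := (abs_le.1 h3).2
      linarith
    set r : ℂ → EN N := fun z => rat j (prP (f z)) with hr
    have hrep : ∀ z, c ≤ a z → (f z).rep j ≠ 0 := by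
      intro z hz h0
      have h1 : a z = 0 := by
        change ‖pr (WithLp.toLp 2 (f z).rep) (j, j)‖ = 0
        rw [norm_diag]
        change ‖(f z).rep j‖ ^ 2 / _ = 0
        rw [h0, norm_zero]
        ring
      rw [h1] at hz
      linarith
    have hrn : ∀ z, c ≤ a z → ‖r z‖ ^ 2 = (a z)⁻¹ := fun z hz => norm_rat (hne z) (hrep z hz)
    have hrd : ∀ z, c ≤ a z → DifferentiableAt ℂ r z := fun z hz => differentiableAt_rat hf (Set.mem_univ z) (hrep z hz)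
    have hrper : ∀ z, r (z + L * Complex.I) = r z := fun z => by
      change rat j (prP (f (z + L * Complex.I))) = _
      rw [hper]
    have hcauchy := Complex.integral_boundary_rect_eq_zero_of_differentiableOn r (s₂ : ℂ) (s₀ + L * Complex.I) (by
      intro z hz
      rw [Complex.mem_reProdIm] at hz
      have h1 : (s₀ + L * Complex.I : ℂ).re = s₀ := by simp
      have h2 : (s₀ + L * Complex.I : ℂ).im = L := by simp
      rw [h1, h2, Complex.ofReal_re, Complex.ofReal_im, Set.uIcc_of_le hlt.le, Set.uIcc_of_le hL.le] at hz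
      exact (hrd z (hrect z hz.1 hz.2)).differentiableWithinAt)
    have h1 : (s₀ + L * Complex.I : ℂ).re = s₀ := by simp
    have h2 : (s₀ + L * Complex.I : ℂ).im = L := by simp
    rw [h1, h2, Complex.ofReal_re, Complex.ofReal_im] at hcauchy
    have h3 : ∀ x : ℝ, r (x + (L : ℂ) * Complex.I) = r (x + ((0 : ℝ) : ℂ) * Complex.I) := by
      intro x
      rw [hrper, Complex.ofReal_zero, zero_mul, add_zero]
    simp only [h3] at hcauchy
    rw [sub_self, zero_add, ← smul_sub, smul_eq_zero] at hcauchy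
    have hmean := sub_eq_zero.1 (hcauchy.resolve_left Complex.I_ne_zero)
    -- the means
    have hclose : ∀ s ∈ Set.Icc s₂ s₀, ‖(∫ y in (0 : ℝ)..L, r (s + y * Complex.I)) - (L : ℂ) • r (s : ℂ)‖ ≤ 1 / 20 * L := by
      intro s hs
      have hz : ∀ y ∈ Set.Icc (0 : ℝ) L, c ≤ a (s + y * Complex.I) := by
        intro y hy
        exact hrect _ (by simpa using hs) (by simpa using hy)
      have hci : ContinuousOn (fun y : ℝ => r (s + y * Complex.I)) (Set.uIcc 0 L) := by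
        rw [Set.uIcc_of_le hL.le]
        intro y hy
        have h4 : Continuous fun y : ℝ => (s + y * Complex.I : ℂ) := by fun_prop
        exact (ContinuousAt.comp (g := r) (f := fun y : ℝ => (s + y * Complex.I : ℂ)) (hrd _ (hz y hy)).continuousAt h4.continuousAt).continuousWithinAt
      have h4 : (L : ℂ) • r (s : ℂ) = ∫ _y in (0 : ℝ)..L, r (s : ℂ) := by
        rw [intervalIntegral.integral_const, sub_zero]
        rfl
      rw [h4, ← intervalIntegral.integral_sub hci.intervalIntegrable intervalIntegrable_const]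
      have h5 := intervalIntegral.norm_integral_le_of_norm_le_const (a := 0) (b := L) (C := 1 / 20)
        (f := fun y : ℝ => r (s + y * Complex.I) - r (s : ℂ)) (by
        intro y hy
        rw [Set.uIoc_of_le hL.le] at hy
        have hy' : y ∈ Set.Icc (0 : ℝ) L := ⟨hy.1.le, hy.2⟩
        rw [← dist_eq_norm, dist_comm]
        refine hu j _ _ (hm1 _) (hm1 _) ?_ (hz y hy') ?_
        · have := hint s hs
          change c ≤ a (s : ℂ)
          linarith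
        · refine (hX (s : ℂ) _ (by rw [Complex.ofReal_re]; exact hs.2) (by simp) ?_).trans (min_le_left _ _)
          have h6 : (s + y * Complex.I : ℂ).im - (s : ℂ).im = y := by simp
          rw [h6, abs_of_pos hy.1]
          exact hy.2)
      rwa [sub_zero, abs_of_pos hL] at h5
    have h4 := hclose s₀ ⟨hlt.le, le_rfl⟩
    have h5 := hclose s₂ ⟨le_rfl, hlt.le⟩
    rw [← hmean] at h5
    have h6 : ‖(L : ℂ) • r (s₂ : ℂ) - (L : ℂ) • r (s₀ : ℂ)‖ ≤ 1 / 10 * L := by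
      have h7 : (L : ℂ) • r (s₂ : ℂ) - (L : ℂ) • r (s₀ : ℂ) = ((∫ y in (0 : ℝ)..L, r (s₀ + y * Complex.I)) - (L : ℂ) • r (s₀ : ℂ)) -
          ((∫ y in (0 : ℝ)..L, r (s₀ + y * Complex.I)) - (L : ℂ) • r (s₂ : ℂ)) := by abel
      rw [h7]
      refine (norm_sub_le _ _).trans ?_
      linarith
    rw [← smul_sub, norm_smul, Complex.norm_real, Real.norm_of_nonneg hL.le, mul_comm] at h6
    have h7 : ‖r (s₂ : ℂ) - r (s₀ : ℂ)‖ ≤ 1 / 10 := le_of_mul_le_mul_right h6 hL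
    have h8 : ‖r (s₂ : ℂ)‖ ≤ ‖r (s₀ : ℂ)‖ + 1 / 10 := by
      have h9 := norm_le_norm_add_norm_sub' (r (s₂ : ℂ)) (r (s₀ : ℂ))
      linarith
    have h9 := hrn (s₂ : ℂ) (by rw [hs₂a']; linarith)
    have h10 := hrn (s₀ : ℂ) (by linarith)
    rw [hs₂a'] at h9
    have hN : (1 : ℝ) ≤ (N : ℝ) + 1 := by
      have : (0 : ℝ) ≤ N := Nat.cast_nonneg N
      linarith
    have h11 : ‖r (s₂ : ℂ)‖ ^ 2 = 4 / 3 * ((N : ℝ) + 1) := by
      rw [h9, hc]
      field_simp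
      norm_num
    have h12 : ‖r (s₀ : ℂ)‖ ^ 2 ≤ (N : ℝ) + 1 := by
      rw [h10]
      have h13 : (2 * c)⁻¹ = (N : ℝ) + 1 := by
        rw [hc]
        field_simp
      rw [← h13]
      exact inv_anti₀ (by positivity) hj'
    have h13 : 0 ≤ ‖r (s₀ : ℂ)‖ := norm_nonneg _
    have h14 : 0 ≤ ‖r (s₂ : ℂ)‖ := norm_nonneg _
    have h15 : ‖r (s₀ : ℂ)‖ ≤ (N : ℝ) + 1 :=
      (pow_le_pow_iff_left₀ h13 (zero_le_one.trans hN) two_ne_zero).1 (h12.trans (le_self_pow₀ hN two_ne_zero))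
    have h16 := pow_le_pow_left₀ h14 h8 2
    linarith
  -- all points
  refine ⟨j, s₀, c, hcpos, fun z hz => ?_⟩
  have hP : Function.Periodic f ((L : ℂ) * Complex.I) := hper
  set n : ℤ := ⌊z.im / L⌋ with hn
  have h1 : f (z - n * ((L : ℂ) * Complex.I)) = f z := hP.sub_int_mul_eq n
  set z' : ℂ := z - n * ((L : ℂ) * Complex.I) with hz'
  have h2 : z'.re = z.re := by simp [hz']
  have h3 : z'.im = z.im - n * L := by simp [hz']
  have h4 : 0 ≤ z'.im := by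
    rw [h3]
    have h5 := Int.floor_le (z.im / L)
    rw [le_div_iff₀ hL] at h5
    linarith
  have h5 : z'.im ≤ L := by
    rw [h3]
    have h6 := (Int.lt_floor_add_one (z.im / L)).le
    rw [div_le_iff₀ hL] at h6
    linarith
  have h6 := hX (z.re : ℂ) z' (by rw [Complex.ofReal_re]; exact hz) (by rw [Complex.ofReal_re]; exact h2) (by
    rw [Complex.ofReal_im, sub_zero, abs_of_nonneg h4]
    exact h5)
  have h7 := (hdist (z.re : ℂ) z').trans (h6.trans (min_le_right _ _))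
  have h8 := claim z.re hz
  have h9 := (abs_le.1 h7).2
  change c ≤ ‖prP (f z) (j, j)‖
  rw [← h1]
  change c ≤ a z'
  linarith

end Pool.Agent.H7.Per

end
end

section

/-!
# LU Out: interface between the dynamical part and the last step (project LOG-U)

* `LimSec`: limits of sections over `Ω`.
* `Out`: what is known of the members of `S(ℂ)` and `S(half plane)`, in `ℙ^M`.
* `Const`: limit curves in the fibres.
* `Lim`: what is known of `j ∘ f` for a limit curve `f` of order two.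
-/

set_option autoImplicit false

open Topology Filter MvPolynomial Metric

noncomputable section

namespace Pool.Agent.H4.LU

attribute [-instance] ProperSMul.toContinuousSMul

open Pool.Agent.H17 (PN VanishesAt HolomorphicInto)
open Pool.Agent.H7.Per (prP)
open Pool.Agent.H36.LB (ConvPN IsLimitPN)

variable {M N : ℕ}

/-- Near `z` the map `g` is a holomorphic section of `e : V → ℂ^*` over `exp`. -/
def SecPN (V : Set (PN M)) (e : PN M → ℂ) (g : ℂ → PN M) (z : ℂ) : Prop :=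
  (∃ φ : ℂ → Fin (M + 1) → ℂ, AnalyticAt ℂ φ z ∧ ∀ᶠ w in 𝓝 z, ∃ h : φ w ≠ 0, g w = Projectivization.mk ℂ (φ w) h) ∧
    ∀ᶠ w in 𝓝 z, g w ∈ V ∧ e (g w) = Complex.exp w

/-- On `Ω`, outside the set `Z` without limit points in `Ω`, the map `f` is the locally uniform limit of maps which are sections over neighbourhoods of
larger and larger compact subsets of `Ω`. -/
def LimSec (V : Set (PN M)) (e : PN M → ℂ) (Ω Z : Set ℂ) (f : ℂ → PN M) : Prop :=
  (∀ z ∈ Ω, ∀ᶠ w in 𝓝[≠] z, w ∉ Z) ∧ ∃ (l : Filter ℕ) (G : ℕ → ℂ → PN M), l.NeBot ∧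
    (∀ K : Set ℂ, K ⊆ Ω → IsCompact K → ∀ᶠ n in l, ∀ z ∈ K, SecPN V e (G n) z) ∧ ∀ z ∈ Ω, z ∉ Z → ConvPN l G f z

/-- the half plane `{ρ < σ Im z}` -/
def HPl (σ ρ : ℝ) : Set ℂ := {z | ρ < σ * z.im}

/-- The members of `S(ℂ)` are finitely many maps `f i`, outside the discrete set `B`, and the members of `S(half plane)` are restrictions of these maps. -/
structure Out (V : Set (PN M)) (e : PN M → ℂ) (q : ℕ) (B : Set ℂ) {ι : Type} (f : ι → ℂ → PN M) : Prop where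
  q_pos : 1 ≤ q
  closed : IsClosed B
  discrete : ∀ z, ∀ᶠ w in 𝓝[≠] z, w ∉ B
  B_inv : ∀ b ∈ B, ∀ k : ℤ, b + k * (2 * Real.pi * Complex.I * q) ∈ B
  B_re : ∃ W : ℝ, ∀ b ∈ B, |b.re| ≤ W
  hol : ∀ i, HolomorphicInto (f i) Bᶜ
  per : ∀ i, ∀ z, z ∉ B → f i (z + 2 * Real.pi * Complex.I * q) = f i z
  short : ∀ i, ∀ R ε : ℝ, 0 < ε → ∃ X₀ : ℝ, ∀ z w : ℂ, X₀ < |z.re| → ‖w - z‖ ≤ R → dist (prP (f i w)) (prP (f i z)) < ε
  full : ∀ (Z : Set ℂ) (g : ℂ → PN M), LimSec V e Set.univ Z g → ∃ i, ∀ z, z ∉ B → z ∉ Z → g z = f i z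
  half : ∀ σ ρ : ℝ, σ = 1 ∨ σ = -1 → ∀ (Z : Set ℂ) (g : ℂ → PN M), LimSec V e (HPl σ ρ) Z g → ∃ i, ∀ z ∈ HPl σ ρ, z ∉ B → z ∉ Z → g z = f i z

/-- An entire curve in a fibre of `e` over a value not in `B₀`, which is a limit of discs in `V`, is constant. -/
def Const (V : Set (PN M)) (e : PN M → ℂ) (B₀ : Set ℂ) : Prop :=
  ∀ (l : Filter ℕ) (G : ℕ → ℂ → PN M) (g : ℂ → PN M) (c : ℂ), l.NeBot → l ≤ atTop → HolomorphicInto g Set.univ →
    (∀ n : ℕ, HolomorphicInto (G n) (ball 0 (n + 1)) ∧ ∀ z ∈ ball (0 : ℂ) (n + 1), G n z ∈ V) → c ∉ B₀ →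
    (∀ z₀ : ℂ, ∀ᶠ z in 𝓝[≠] z₀, ConvPN l G g z ∧ g z ∈ V ∧ e (g z) = c) → ∀ z w, g z = g w

/-- What is known of `j ∘ f` for a limit curve `f` of order two on which the form `B` is not identically zero: `e ∘ j ∘ f = exp φ`, `φ` a polynomial of degree at
most two, and the maps `j ∘ f ∘ ψ`, `φ ∘ ψ = id`, are limits of sections. -/
def Lim (V : Set (PN M)) (e : PN M → ℂ) (j : PN N → PN M) (l : Filter ℕ) (F : ℕ → ℂ → PN N) (f : ℂ → PN N) (a b c : ℂ) : Prop :=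
  (∀ z, ConvPN l F f z → e (j (f z)) = Complex.exp (a * z ^ 2 + b * z + c)) ∧
    ∀ (Ω : Set ℂ) (ψ : ℂ → ℂ), IsOpen Ω → Convex ℝ Ω → DifferentiableOn ℂ ψ Ω → (∀ z ∈ Ω, a * ψ z ^ 2 + b * ψ z + c = z) →
      LimSec V e Ω {z | ¬ ConvPN l F f (ψ z)} (fun z => j (f (ψ z)))

end Pool.Agent.H4.LU

end
end

section

/-!
# Per Main: periodic holomorphic maps into projective space with short circles are rational in the exponential

`exists_rational`: let `f : ℂ → ℙ^N` be holomorphic with period `2 π i k`, and let the images of the vertical segments of length `2 π k` at `Re z = s` be small for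
`|s| → ∞`.  Then there are polynomials `q_i` such that `f z = [q_0 (w) : ... : q_N (w)]`, `w = exp (z / k)`, for all `z`.
-/

set_option autoImplicit false

open Topology Filter Metric

noncomputable section

namespace Pool.Agent.H7.Per

attribute [-instance] ProperSMul.toContinuousSMul

open Pool.Agent.H17 (PN VanishesAt HolomorphicInto vanishesAt_mk_iff)
open Pool.Agent.H36.BP (EN)
open Pool.Agent.H62.EF (MN pr)

variable {N : ℕ}

/-- the period as a real multiple of `i` -/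
def per (k : ℕ) : ℝ := 2 * Real.pi * k

theorem per_pos {k : ℕ} (hk : 0 < k) : 0 < per k := by
  have h1 : (0 : ℝ) < k := by exact_mod_cast hk
  have h2 := Real.pi_pos
  unfold per
  positivity

/-- branches of the logarithm -/
theorem exists_branch {k : ℕ} {u v : ℂ} (h : Complex.exp u = Complex.exp v) : ∃ n : ℤ, (k : ℂ) * u = k * v + n * ((per k : ℂ) * Complex.I) := by
  obtain ⟨n, hn⟩ := Complex.exp_eq_exp_iff_exists_int.1 h
  refine ⟨n, ?_⟩
  rw [hn]
  unfold per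
  push_cast
  ring

section

variable {f : ℂ → PN N} {k : ℕ}

theorem f_branch (hper : ∀ z, f (z + (per k : ℂ) * Complex.I) = f z) {u v : ℂ} (h : Complex.exp u = Complex.exp v) :
    f (k * u) = f (k * v) := by
  obtain ⟨n, hn⟩ := exists_branch (k := k) h
  have hP : Function.Periodic f ((per k : ℂ) * Complex.I) := hper
  rw [hn]
  exact hP.int_mul n _

theorem f_log (hper : ∀ z, f (z + (per k : ℂ) * Complex.I) = f z) {w w₀ : ℂ} (hw : w ≠ 0) (hw₀ : w₀ ≠ 0) :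
    f (k * Complex.log w) = f (k * (Complex.log (w / w₀) + Complex.log w₀)) := by
  refine f_branch hper ?_
  rw [Complex.exp_log hw, Complex.exp_add, Complex.exp_log (div_ne_zero hw hw₀), Complex.exp_log hw₀, div_mul_cancel₀ _ hw₀]

/-- the branch of `k log w` near `w₀` -/
theorem analyticAt_branch {k : ℕ} {w₀ : ℂ} (hw₀ : w₀ ≠ 0) :
    AnalyticAt ℂ (fun w => (k : ℂ) * (Complex.log (w / w₀) + Complex.log w₀)) w₀ := by
  have h1 : AnalyticAt ℂ (fun w : ℂ => w / w₀) w₀ := analyticAt_id.div_const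
  have h2 : AnalyticAt ℂ (fun w : ℂ => Complex.log (w / w₀)) w₀ := by
    refine h1.clog ?_
    rw [div_self hw₀]
    exact Complex.one_mem_slitPlane
  exact analyticAt_const.mul (h2.add analyticAt_const)

theorem branch_self {k : ℕ} {w₀ : ℂ} (hw₀ : w₀ ≠ 0) :
    (k : ℂ) * (Complex.log (w₀ / w₀) + Complex.log w₀) = k * Complex.log w₀ := by
  rw [div_self hw₀, Complex.log_one, zero_add]

/-- **Extension over the end.** -/
theorem exists_end (hf : HolomorphicInto f Set.univ) (hk : 0 < k) (hper : ∀ z, f (z + (per k : ℂ) * Complex.I) = f z)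
    (hs : ∀ ε > 0, ∃ X : ℝ, ∀ z z' : ℂ, z.re ≤ -X → z'.re = z.re → |z'.im - z.im| ≤ per k → dist (prP (f z)) (prP (f z')) ≤ ε) :
    ∃ S : ℂ → Fin (N + 1) → ℂ, AnalyticAt ℂ S 0 ∧ S 0 ≠ 0 ∧
      ∀ᶠ w in 𝓝[≠] (0 : ℂ), ∃ h : S w ≠ 0, f (k * Complex.log w) = Projectivization.mk ℂ (S w) h := by
  obtain ⟨j, s₀, c, hc, hb⟩ := exists_coord_end hf (per_pos hk) hper hs
  have hkr : (0 : ℝ) < k := by exact_mod_cast hk
  have hne : ∀ z, (WithLp.toLp 2 (f z).rep : EN N) ≠ 0 := fun z => toLp_ne (f z).rep_nonzero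
  have hrep : ∀ z : ℂ, z.re ≤ s₀ → (f z).rep j ≠ 0 := by
    intro z hz h0
    have h1 := hb z hz
    have h2 : ‖prP (f z) (j, j)‖ = 0 := by
      change ‖pr (WithLp.toLp 2 (f z).rep) (j, j)‖ = 0
      rw [norm_diag]
      change ‖(f z).rep j‖ ^ 2 / _ = 0
      rw [h0, norm_zero]
      ring
    rw [h2] at h1
    linarith
  set ρ : ℝ := Real.exp (s₀ / k) with hρ
  have hρ0 : 0 < ρ := Real.exp_pos _
  have hre : ∀ w : ℂ, w ≠ 0 → ‖w‖ < ρ → ((k : ℂ) * Complex.log w).re < s₀ := by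
    intro w hw hwρ
    have h1 : ((k : ℂ) * Complex.log w).re = k * Real.log ‖w‖ := by
      rw [← Complex.ofReal_natCast, Complex.re_ofReal_mul, Complex.log_re]
    rw [h1]
    have h2 : Real.log ‖w‖ < s₀ / k := by
      rw [Real.log_lt_iff_lt_exp (norm_pos_iff.2 hw)]
      exact hwρ
    rw [lt_div_iff₀ hkr] at h2
    linarith
  set H : ℂ → EN N := fun w => rat j (prP (f (k * Complex.log w))) with hH
  have hd : DifferentiableOn ℂ H (ball 0 ρ \ {0}) := by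
    intro w₀ hw₀
    have hw₀0 : w₀ ≠ 0 := hw₀.2
    have h1 : DifferentiableAt ℂ (fun w => rat j (prP (f (k * (Complex.log (w / w₀) + Complex.log w₀))))) w₀ := by
      have h2 := differentiableAt_rat hf (Set.mem_univ ((k : ℂ) * Complex.log w₀)) (hrep _ (hre w₀ hw₀0 (by
        rw [← mem_ball_zero_iff]
        exact hw₀.1)).le)
      rw [← branch_self hw₀0] at h2
      exact DifferentiableAt.comp (g := fun z => rat j (prP (f z))) w₀ h2 (analyticAt_branch hw₀0).differentiableAt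
    refine DifferentiableAt.differentiableWithinAt (h1.congr_of_eventuallyEq ?_)
    filter_upwards [isOpen_ne.mem_nhds hw₀0] with w hw
    change rat j (prP (f (k * Complex.log w))) = _
    rw [f_log hper hw hw₀0]
  have hbd : BddAbove (norm ∘ H '' (ball 0 ρ \ {0})) := by
    refine ⟨c⁻¹ + 1, ?_⟩
    rintro _ ⟨w, hw, rfl⟩
    have h1 := hre w hw.2 (by rw [← mem_ball_zero_iff]; exact hw.1)
    have h2 : ‖H w‖ ^ 2 = _ := norm_rat (hne (k * Complex.log w)) (hrep _ h1.le)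
    have h3 := hb _ h1.le
    have h4 : ‖H w‖ ^ 2 ≤ c⁻¹ := by
      rw [h2]
      exact inv_anti₀ hc h3
    change ‖H w‖ ≤ _
    nlinarith [norm_nonneg (H w)]
  have hu := Complex.differentiableOn_update_limUnder_of_bddAbove (ball_mem_nhds (0 : ℂ) hρ0) hd hbd
  set R : ℂ → EN N := Function.update H 0 (limUnder (𝓝[≠] 0) H) with hR
  have hRa : AnalyticAt ℂ R 0 := hu.analyticAt (ball_mem_nhds (0 : ℂ) hρ0)
  have hRH : ∀ w, w ≠ 0 → R w = H w := fun w hw => Function.update_of_ne hw _ _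
  have hRj : ∀ᶠ w in 𝓝[≠] (0 : ℂ), R w j = 1 := by
    have h4 : ball (0 : ℂ) ρ \ {0} ∈ 𝓝[≠] (0 : ℂ) := sdiff_mem_nhdsWithin_compl (ball_mem_nhds _ hρ0) _
    filter_upwards [h4] with w hw
    have h1 := hre w hw.2 (by rw [← mem_ball_zero_iff]; exact hw.1)
    rw [hRH w hw.2]
    change rat j (pr (WithLp.toLp 2 (f (k * Complex.log w)).rep)) j = 1
    rw [rat_pr (hne _) (hrep _ h1.le)]
    exact inv_mul_cancel₀ (hrep _ h1.le)
  have hcj : ContinuousAt (fun w => R w j) 0 := (PiLp.continuous_apply 2 _ j).continuousAt.comp hRa.continuousAt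
  have hR0 : R 0 j = 1 := by
    have h4 : Tendsto (fun w => R w j) (𝓝[≠] (0 : ℂ)) (𝓝 (R 0 j)) := hcj.tendsto.mono_left nhdsWithin_le_nhds
    exact tendsto_nhds_unique h4 (tendsto_const_nhds.congr' (hRj.mono fun w hw => hw.symm))
  refine ⟨fun w => WithLp.ofLp (R w), ?_, ?_, ?_⟩
  · exact ((PiLp.continuousLinearEquiv 2 ℂ (fun _ : Fin (N + 1) => ℂ)).toContinuousLinearMap.analyticAt _).comp hRa
  · intro h0
    have h1 : R 0 j = 0 := congrFun h0 j
    rw [hR0] at h1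
    exact one_ne_zero h1
  · have h4 : ball (0 : ℂ) ρ \ {0} ∈ 𝓝[≠] (0 : ℂ) := sdiff_mem_nhdsWithin_compl (ball_mem_nhds _ hρ0) _
    filter_upwards [h4] with w hw
    have h1 := hre w hw.2 (by rw [← mem_ball_zero_iff]; exact hw.1)
    have h2 := hrep _ h1.le
    have h3 : WithLp.ofLp (R w) = ((f (k * Complex.log w)).rep j)⁻¹ • (f (k * Complex.log w)).rep := by
      rw [hRH w hw.2]
      change WithLp.ofLp (rat j (pr (WithLp.toLp 2 (f (k * Complex.log w)).rep))) = _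
      rw [rat_pr (hne _) h2]
      rfl
    have h5 : WithLp.ofLp (R w) ≠ 0 := by
      rw [h3]
      exact smul_ne_zero (inv_ne_zero h2) (f _).rep_nonzero
    refine ⟨h5, ?_⟩
    conv_lhs => rw [← (f (k * Complex.log w)).mk_rep]
    rw [Projectivization.mk_eq_mk_iff']
    refine ⟨(f (k * Complex.log w)).rep j, ?_⟩
    rw [h3, smul_smul, mul_inv_cancel₀ h2, one_smul]

/-- **Periodic holomorphic maps with short circles.** -/
theorem exists_rational (hf : HolomorphicInto f Set.univ) (hk : 0 < k) (hper : ∀ z, f (z + (per k : ℂ) * Complex.I) = f z)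
    (hs : ∀ ε > 0, ∃ X : ℝ, ∀ z z' : ℂ, X ≤ |z.re| → z'.re = z.re → |z'.im - z.im| ≤ per k → dist (prP (f z)) (prP (f z')) ≤ ε) :
    ∃ q : Fin (N + 1) → Polynomial ℂ, ∀ z, ∃ h : (fun i => (q i).eval (Complex.exp (z / k))) ≠ 0, f z = Projectivization.mk ℂ _ h := by
  have hkc : (k : ℂ) ≠ 0 := by exact_mod_cast hk.ne'
  have hP : Function.Periodic f ((per k : ℂ) * Complex.I) := hper
  -- the left end
  obtain ⟨S, hS, hS0, hSf⟩ := exists_end hf hk hper (by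
    intro ε hε
    obtain ⟨X, hX⟩ := hs ε hε
    refine ⟨X, fun z z' h1 h2 h3 => hX z z' ?_ h2 h3⟩
    have := neg_le_abs z.re
    linarith)
  -- the right end
  obtain ⟨S', hS', hS'0, hS'f⟩ := exists_end (f := fun z => f (-z)) (k := k) (by
    intro z _
    obtain ⟨φ, hφ, he⟩ := hf (-z) (Set.mem_univ _)
    refine ⟨fun w => φ (-w), ?_, ?_⟩
    · exact AnalyticAt.comp_of_eq hφ analyticAt_id.neg rfl
    · exact (continuous_neg.tendsto z).eventually he) hk (by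
    intro z
    have h1 := hP.sub_eq (-z)
    rw [← h1]
    congr 1
    ring) (by
    intro ε hε
    obtain ⟨X, hX⟩ := hs ε hε
    refine ⟨X, fun z z' h1 h2 h3 => hX (-z) (-z') ?_ (by rw [Complex.neg_re, Complex.neg_re, h2]) ?_⟩
    · rw [Complex.neg_re, abs_neg]
      have := neg_le_abs z.re
      linarith
    · rw [Complex.neg_im, Complex.neg_im]
      have h4 : -z'.im - -z.im = -(z'.im - z.im) := by ring
      rw [h4, abs_neg]
      exact h3)
  -- the map of the punctured plane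
  set G : ℂ → PN N := fun w => if w = 0 then Projectivization.mk ℂ (S 0) hS0 else f (k * Complex.log w) with hG
  have hGf : ∀ w, w ≠ 0 → G w = f (k * Complex.log w) := fun w hw => if_neg hw
  have hGh : HolomorphicInto G Set.univ := by
    intro w₀ _
    by_cases h0 : w₀ = 0
    · subst h0
      refine ⟨S, hS, ?_⟩
      filter_upwards [eventually_nhdsWithin_iff.1 hSf, hS.continuousAt.eventually_ne hS0] with w h1 h2
      refine ⟨h2, ?_⟩
      by_cases hw : w = 0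
      · subst hw
        exact if_pos rfl
      · obtain ⟨h3, h4⟩ := h1 hw
        rw [hGf w hw, h4]
    · obtain ⟨φ, hφ, he⟩ := hf (k * Complex.log w₀) (Set.mem_univ _)
      rw [← branch_self h0] at hφ he
      have h1 := analyticAt_branch (k := k) h0
      refine ⟨fun w => φ (k * (Complex.log (w / w₀) + Complex.log w₀)), AnalyticAt.comp hφ h1, ?_⟩
      filter_upwards [h1.continuousAt.eventually he, isOpen_ne.mem_nhds h0] with w h2 h3
      obtain ⟨h4, h5⟩ := h2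
      exact ⟨h4, by rw [hGf w h3, f_log hper h3 h0, h5]⟩
  obtain ⟨q, hq⟩ := exists_poly hGh hS' hS'0 (by
    have h3 : ∀ᶠ w in 𝓝[≠] (0 : ℂ), w ≠ 0 := self_mem_nhdsWithin
    filter_upwards [hS'f, h3] with w h1 h2
    obtain ⟨h4, h5⟩ := h1
    refine ⟨h4, ?_⟩
    have h6 : f (-(k * Complex.log w)) = Projectivization.mk ℂ (S' w) h4 := h5
    rw [hGf _ (inv_ne_zero h2), ← h6, ← mul_neg]
    refine f_branch hper ?_
    rw [Complex.exp_log (inv_ne_zero h2), Complex.exp_neg, Complex.exp_log h2])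
  refine ⟨q, fun z => ?_⟩
  obtain ⟨h1, h2⟩ := hq (Complex.exp (z / k))
  refine ⟨h1, ?_⟩
  rw [← h2, hGf _ (Complex.exp_ne_zero _)]
  have h3 : f z = f (k * (z / k)) := by rw [mul_div_cancel₀ _ hkc]
  rw [h3]
  exact f_branch hper (Complex.exp_log (Complex.exp_ne_zero _)).symm

end

end Pool.Agent.H7.Per

end
end

section

/-!
# LR Ratl: periodic meromorphic functions without the values `0`, `1` over the ends are rational in the exponential
-/

set_option autoImplicit false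

open Topology Filter Metric

noncomputable section

namespace Pool.Agent.H41.LR

attribute [-instance] ProperSMul.toContinuousSMul

open Pool.Agent.H17 (PN VanishesAt HolomorphicInto vanishesAt_mk_iff)
open Pool.Agent.H36.BP (EN wd)
open Pool.Agent.H62.EF (MN pr)
open Pool.Agent.H7.Per (prP per)

/-- the vector `(1, w)` -/
def w1 (w : ℂ) : EN 1 := WithLp.toLp 2 ![1, w]

theorem w1_ne (w : ℂ) : w1 w ≠ 0 := by
  intro h
  have h1 : w1 w 0 = (0 : EN 1) 0 := by rw [h]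
  exact one_ne_zero h1

theorem norm_w1 (w : ℂ) : ‖w1 w‖ ^ 2 = 1 + ‖w‖ ^ 2 := by
  rw [EuclideanSpace.norm_sq_eq, Fin.sum_univ_two]
  show ‖(1 : ℂ)‖ ^ 2 + ‖w‖ ^ 2 = _
  rw [norm_one, one_pow]

theorem one_le_w1 (w : ℂ) : 1 ≤ ‖w1 w‖ := by
  have h1 := norm_w1 w
  nlinarith [norm_nonneg (w1 w), sq_nonneg ‖w‖]

theorem norm_le_w1 (w : ℂ) : ‖w‖ ≤ ‖w1 w‖ := by
  have h1 := norm_w1 w
  nlinarith [norm_nonneg (w1 w), norm_nonneg w]

theorem wd_w1 (a b : ℂ) : wd (w1 a) (w1 b) = ‖a - b‖ := by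
  have h1 := Pool.Agent.H62.EF.wd_sq (w1 a) (w1 b)
  have h2 : (inner ℂ (w1 a) (w1 b) : ℂ) = 1 + (starRingEnd ℂ) a * b := by
    rw [PiLp.inner_apply, Fin.sum_univ_two]
    show (inner ℂ (1 : ℂ) (1 : ℂ) : ℂ) + inner ℂ a b = _
    rw [RCLike.inner_apply, RCLike.inner_apply, map_one, mul_one]
    ring
  rw [norm_w1, norm_w1, h2] at h1
  have h3 : wd (w1 a) (w1 b) ^ 2 = ‖a - b‖ ^ 2 := by
    rw [h1, ← Complex.normSq_eq_norm_sq, ← Complex.normSq_eq_norm_sq, ← Complex.normSq_eq_norm_sq, ← Complex.normSq_eq_norm_sq]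
    simp only [Complex.normSq_apply, Complex.add_re, Complex.add_im, Complex.mul_re, Complex.mul_im, Complex.conj_re, Complex.conj_im,
      Complex.one_re, Complex.one_im, Complex.sub_re, Complex.sub_im]
    ring
  have h4 : 0 ≤ wd (w1 a) (w1 b) := Real.sqrt_nonneg _
  exact (pow_left_inj₀ h4 (norm_nonneg _) two_ne_zero).1 h3

theorem dist_w1 (a b : ℂ) : dist (pr (w1 a)) (pr (w1 b)) = Real.sqrt 2 * (‖a - b‖ / (‖w1 a‖ * ‖w1 b‖)) := by
  rw [Pool.Agent.H62.EF.dist_pr (w1_ne a) (w1_ne b), wd_w1]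

theorem dist_w1_le (a b : ℂ) : dist (pr (w1 a)) (pr (w1 b)) ≤ 2 * ‖a - b‖ := by
  rw [dist_w1]
  have h1 : 1 ≤ ‖w1 a‖ * ‖w1 b‖ := one_le_mul_of_one_le_of_one_le (one_le_w1 a) (one_le_w1 b)
  have h2 : Real.sqrt 2 ≤ 2 := by
    rw [Real.sqrt_le_left (by norm_num)]
    norm_num
  have h3 : ‖a - b‖ / (‖w1 a‖ * ‖w1 b‖) ≤ ‖a - b‖ := div_le_self (norm_nonneg _) h1
  exact mul_le_mul h2 h3 (by positivity) (by norm_num)

theorem dist_w1_inv {a b : ℂ} (ha : a ≠ 0) (hb : b ≠ 0) : dist (pr (w1 a)) (pr (w1 b)) ≤ 2 * ‖a⁻¹ - b⁻¹‖ := by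
  rw [dist_w1]
  have ha0 : 0 < ‖a‖ := norm_pos_iff.2 ha
  have hb0 : 0 < ‖b‖ := norm_pos_iff.2 hb
  have h1 : ‖a‖ * ‖b‖ ≤ ‖w1 a‖ * ‖w1 b‖ := mul_le_mul (norm_le_w1 a) (norm_le_w1 b) hb0.le (norm_nonneg _)
  have h2 : Real.sqrt 2 ≤ 2 := by
    rw [Real.sqrt_le_left (by norm_num)]
    norm_num
  have h3 : ‖a⁻¹ - b⁻¹‖ = ‖a - b‖ / (‖a‖ * ‖b‖) := by
    rw [inv_sub_inv ha hb, norm_div, norm_mul, norm_sub_rev]
  rw [h3]
  refine mul_le_mul h2 ?_ (by positivity) (by norm_num)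
  exact div_le_div_of_nonneg_left (norm_nonneg _) (by positivity) h1

/-- Functions without the values `0`, `1` on large discs have small oscillation. -/
theorem osc (hS : Schottky) {ε L : ℝ} (hε : 0 < ε) (hL : 0 < L) : ∃ R : ℝ, 0 < R ∧ ∀ (f : ℂ → ℂ) (z : ℂ), DifferentiableOn ℂ f (ball z R) →
    Om f (ball z R) → ∀ w, ‖w - z‖ ≤ L → dist (pr (w1 (f z))) (pr (w1 (f w))) ≤ ε := by
  obtain ⟨S, hS⟩ := hS 1
  set T : ℝ := |S| + 1 with hT
  have hT0 : 0 < T := by positivity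
  set R : ℝ := 8 * L + 16 * T * L / ε with hR
  have hR0 : 0 < R := by positivity
  have key : ∀ (f : ℂ → ℂ) (z : ℂ), DifferentiableOn ℂ f (ball z R) → Om f (ball z R) → ‖f z‖ ≤ 1 → ∀ w, ‖w - z‖ ≤ L → ‖f w - f z‖ ≤ ε / 2 := by
    intro f z hf hO h1 w hw
    have h2 : ∀ x ∈ ball z (R / 2), ‖f x‖ ≤ T := by
      intro x hx
      have h3 := hS f z R hR0 hf hO h1 x (ball_subset_closedBall hx)
      have := le_abs_self S
      linarith
    have hwR : ‖w - z‖ < R / 4 := by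
      have h4 : 0 < 16 * T * L / ε := by positivity
      have h5 : 2 * L ≤ R / 4 - 0 := by linarith
      linarith
    have h3 := Pool.Agent.H17.lipschitz_of_bounded (F := f) (a := z) (r := R / 2) (B := T) (hf.mono (ball_subset_ball (by linarith))) h2
      (z₀ := z) (ρ := R / 4) (by positivity) (by
        have : 2 * (R / 4) = R / 2 := by ring
        rw [this]) (mem_ball_self (by positivity)) (w := w) (by rw [mem_ball_iff_norm]; exact hwR)
    refine h3.trans ?_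
    have h4 : T / (R / 4 / 2) * ‖w - z‖ ≤ T / (R / 4 / 2) * L := mul_le_mul_of_nonneg_left hw (by positivity)
    refine h4.trans ?_
    have h5 : T / (R / 4 / 2) * L = 8 * T * L / R := by
      field_simp
      ring
    rw [h5, div_le_iff₀ hR0]
    have h6 : ε / 2 * R = 4 * L * ε + 8 * T * L := by
      rw [hR]
      field_simp
      ring
    rw [h6]
    nlinarith [mul_pos hL hε]
  refine ⟨R, hR0, ?_⟩
  intro f z hf hO w hw
  have hzb : z ∈ ball z R := mem_ball_self hR0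
  have hwb : w ∈ ball z R := by
    rw [mem_ball_iff_norm]
    have h4 : 0 < 16 * T * L / ε := by positivity
    linarith
  by_cases h : ‖f z‖ ≤ 1
  · refine (dist_w1_le _ _).trans ?_
    have h1 := key f z hf hO h w hw
    rw [norm_sub_rev] at h1
    linarith
  · push Not at h
    refine (dist_w1_inv (hO z hzb).1 (hO w hwb).1).trans ?_
    have h1 := key (fun x => (f x)⁻¹) z (hO.diff_inv hf) hO.inv (by
      show ‖(f z)⁻¹‖ ≤ 1
      rw [norm_inv]
      exact inv_le_one_of_one_le₀ h.le) w hw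
    have h2 : ‖(f w)⁻¹ - (f z)⁻¹‖ ≤ ε / 2 := h1
    rw [norm_sub_rev] at h2
    linarith

theorem prP_aff (w : ℂ) : prP (aff w) = pr (w1 w) := Pool.Agent.H7.Per.prP_mk rfl

theorem prP_inj {x y : PN 1} (h : prP x = prP y) : x = y := by
  have h1 : pr (WithLp.toLp 2 x.rep : EN 1) = pr (WithLp.toLp 2 y.rep) := h
  rw [Pool.Agent.H62.EF.pr_eq_iff (Pool.Agent.H7.Per.toLp_ne x.rep_nonzero) (Pool.Agent.H7.Per.toLp_ne y.rep_nonzero)] at h1
  obtain ⟨c, hc, h2⟩ := h1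
  rw [← x.mk_rep, ← y.mk_rep, Projectivization.mk_eq_mk_iff']
  refine ⟨c, ?_⟩
  have h3 := congrArg WithLp.ofLp h2
  exact h3.symm

/-- **Rationality.** -/
theorem ratl (hS : Schottky) {f : ℂ → ℂ} (hf : ∀ z, MeromorphicAt f z) {k : ℕ} (hk : 0 < k)
    (hper : ∀ z₀, ∀ᶠ z in 𝓝[≠] z₀, f (z + (per k : ℂ) * Complex.I) = f z) {W : ℝ}
    (hW : ∀ z : ℂ, W < |z.re| → AnalyticAt ℂ f z ∧ f z ≠ 0 ∧ f z ≠ 1) :
    ∃ P Q : Polynomial ℂ, ∀ z, AnalyticAt ℂ f z → Q.eval (Complex.exp (z / k)) ≠ 0 ∧ f z * Q.eval (Complex.exp (z / k)) = P.eval (Complex.exp (z / k)) := by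
  obtain ⟨F, hF, hFa⟩ := exists_map hf
  set T : ℂ := (per k : ℂ) * Complex.I with hT
  have hFper : ∀ z, F (z + T) = F z := by
    intro z₀
    apply prP_inj
    have h1 : ContinuousAt (fun z => prP (F (z + T))) z₀ := by
      have h2 := Pool.Agent.H7.Per.continuousAt_prP hF (Set.mem_univ (z₀ + T))
      exact ContinuousAt.comp (g := fun z => prP (F z)) (f := fun z => z + T) h2 (continuous_id.add continuous_const).continuousAt
    have h2 : ContinuousAt (fun z => prP (F z)) z₀ := Pool.Agent.H7.Per.continuousAt_prP hF (Set.mem_univ z₀)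
    have h3 : ∀ᶠ z in 𝓝[≠] z₀, prP (F (z + T)) = prP (F z) := by
      have h4 : ∀ᶠ z in 𝓝[≠] z₀, AnalyticAt ℂ f (z + T) := by
        have h5 := (hf (z₀ + T)).eventually_analyticAt
        have h6 : Tendsto (fun z : ℂ => z + T) (𝓝[≠] z₀) (𝓝[≠] (z₀ + T)) := by
          refine tendsto_nhdsWithin_iff.2 ⟨((continuous_id.add continuous_const).tendsto z₀).mono_left nhdsWithin_le_nhds, ?_⟩
          filter_upwards [self_mem_nhdsWithin] with z hz h7
          exact hz (add_right_cancel h7)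
        exact h6.eventually h5
      filter_upwards [hper z₀, h4, (hf z₀).eventually_analyticAt] with z h5 h6 h7
      rw [hFa _ h6, hFa _ h7, h5]
    exact tendsto_nhds_unique (h1.tendsto.mono_left nhdsWithin_le_nhds)
      ((h2.tendsto.mono_left nhdsWithin_le_nhds).congr' (h3.mono fun z hz => hz.symm))
  obtain ⟨q, hq⟩ := Pool.Agent.H7.Per.exists_rational hF hk hFper (by
    intro ε hε
    obtain ⟨R, hR, hosc⟩ := osc hS hε (Pool.Agent.H7.Per.per_pos hk)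
    refine ⟨|W| + R + 1, fun z z' h1 h2 h3 => ?_⟩
    have hWb : ∀ x ∈ ball z R, W < |x.re| := by
      intro x hx
      rw [mem_ball_iff_norm] at hx
      have h4 := (Complex.abs_re_le_norm (x - z)).trans_lt hx
      rw [Complex.sub_re] at h4
      have h5 := abs_sub_abs_le_abs_sub z.re x.re
      rw [abs_sub_comm] at h5
      have h6 := le_abs_self W
      linarith
    have hz' : ‖z' - z‖ ≤ per k := by
      have h4 : z' - z = ((z'.im - z.im : ℝ) : ℂ) * Complex.I := by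
        apply Complex.ext
        · rw [Complex.sub_re, h2, sub_self]
          simp
        · rw [Complex.sub_im]
          simp
      rw [h4, norm_mul, Complex.norm_I, mul_one, Complex.norm_real, Real.norm_eq_abs]
      exact h3
    have hzW : W < |z.re| := hWb z (mem_ball_self hR)
    have hz'W : W < |z'.re| := by
      rw [h2]
      exact hzW
    rw [hFa z (hW z hzW).1, hFa z' (hW z' hz'W).1, prP_aff, prP_aff]
    exact hosc f z (fun x hx => ((hW x (hWb x hx)).1.differentiableAt).differentiableWithinAt) (fun x hx => (hW x (hWb x hx)).2) z' hz')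
  refine ⟨q 1, q 0, fun z hz => ?_⟩
  obtain ⟨h1, h2⟩ := hq z
  rw [hFa z hz] at h2
  have h3 := eq_of_mk _ _ h2
  have h4 : (1 : ℂ) * (q 1).eval (Complex.exp (z / k)) = f z * (q 0).eval (Complex.exp (z / k)) := h3
  rw [one_mul] at h4
  refine ⟨?_, h4.symm⟩
  intro h5
  apply h1
  funext i
  fin_cases i
  · exact h5
  · show (q 1).eval (Complex.exp (z / k)) = 0
    rw [h4, h5, mul_zero]

/-- **Algebraicity.** -/
theorem exists_rel (hS : Schottky) {f : ℂ → ℂ} (hf : ∀ z, MeromorphicAt f z) {k : ℕ} (hk : 0 < k)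
    (hper : ∀ z₀, ∀ᶠ z in 𝓝[≠] z₀, f (z + (per k : ℂ) * Complex.I) = f z) {W : ℝ}
    (hW : ∀ z : ℂ, W < |z.re| → AnalyticAt ℂ f z ∧ f z ≠ 0 ∧ f z ≠ 1) :
    ∃ Φ : MvPolynomial (Fin 2) ℂ, Φ ≠ 0 ∧ ∀ z, AnalyticAt ℂ f z → MvPolynomial.eval ![Complex.exp z, f z] Φ = 0 := by
  obtain ⟨P, Q, hPQ⟩ := ratl hS hf hk hper hW
  obtain ⟨Φ, hΦ, h1⟩ := exists_dep P Q hk
  refine ⟨Φ, hΦ, fun z hz => ?_⟩
  obtain ⟨h2, h3⟩ := hPQ z hz
  have h4 := h1 _ h2
  have hkc : (k : ℂ) ≠ 0 := by exact_mod_cast hk.ne'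
  have h5 : Complex.exp (z / k) ^ k = Complex.exp z := by
    rw [← Complex.exp_nat_mul, mul_div_cancel₀ _ hkc]
  have h6 : P.eval (Complex.exp (z / k)) / Q.eval (Complex.exp (z / k)) = f z := by
    rw [← h3, mul_div_cancel_right₀ _ h2]
  rw [h5, h6] at h4
  exact h4

end Pool.Agent.H41.LR

end
end

section

/-!
# LR Lim0: the lemmas of `HLim` for `HD0` (no statement on half planes)
-/

set_option autoImplicit false

open Topology Filter Metric

namespace Pool.Agent.H62.LR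

attribute [-instance] ProperSMul.toContinuousSMul

open Pool.Agent.H87.LU

variable {Y : Type} [MetricSpace Y] {K : Set Y} {p : ℝ} {B : Set ℂ} {δ W : ℝ} {S : Set ℂ → Set (ℂ → Y)}

theorem HD0.gd_add (h : HD0 K p B δ W S) (δ' : ℝ) {z : ℂ} (l : ℤ) : z + p * l * Complex.I ∈ Gd B δ' ↔ z ∈ Gd B δ' := by
  constructor
  · intro hz b hb
    have h1 := hz (b + p * l * Complex.I) (h.B_inv b hb l)
    rwa [add_sub_add_right_eq_sub] at h1
  · intro hz b hb
    have h1 := hz (b + p * ((-l : ℤ) : ℂ) * Complex.I) (h.B_inv b hb (-l))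
    have h2 : z - (b + p * ((-l : ℤ) : ℂ) * Complex.I) = z + p * l * Complex.I - b := by
      push_cast
      ring
    rwa [h2] at h1

/-- the other bad points are far away -/
theorem HD0.far (h : HD0 K p B δ W S) {z b b' : ℂ} {r : ℝ} (hb : b ∈ B) (hb' : b' ∈ B) (hne : b' ≠ b) (hr : ‖z - b‖ < r) :
    8 * δ - r < ‖z - b'‖ := by
  have h1 := h.B_sep b' hb' b hb hne
  have h2 : b' - b = (z - b) - (z - b') := by ring
  rw [h2] at h1
  have h3 := norm_sub_le (z - b) (z - b')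
  linarith

theorem HD0.exists_gd (h : HD0 K p B δ W S) {z : ℂ} (hz : z ∉ B) : ∃ δ' : ℝ, 0 < δ' ∧ z ∈ Gd B δ' := by
  have hδ := h.δ_pos
  by_cases h1 : ∃ b ∈ B, ‖z - b‖ < 2 * δ
  · obtain ⟨b, hb, hb2⟩ := h1
    have hpos : 0 < ‖z - b‖ := by
      rw [norm_pos_iff, sub_ne_zero]
      rintro rfl
      exact hz hb
    refine ⟨min (2 * δ) ‖z - b‖, lt_min (by linarith) hpos, ?_⟩
    intro b' hb'
    by_cases hbb : b' = b
    · rw [hbb]
      exact min_le_right _ _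
    · have h2 := h.far hb hb' hbb hb2
      exact (min_le_left _ _).trans (by linarith)
  · push Not at h1
    exact ⟨2 * δ, by linarith, h1⟩

/-- a point to the right of all bad points -/
theorem HD0.right_mem (h : HD0 K p B δ W S) {z : ℂ} (hz : W - 2 * δ ≤ z.re) : z ∈ Gd B (2 * δ) := by
  intro b hb
  have h1 := h.B_re b hb
  have h2 : |(z - b).re| ≤ ‖z - b‖ := Complex.abs_re_le_norm _
  have h3 : (z - b).re = z.re - b.re := Complex.sub_re _ _
  have h4 := le_abs_self (z - b).re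
  have h5 := le_abs_self b.re
  linarith

/-! ## limits -/

theorem HD0.exists_lim (h : HD0 K p B δ W S) (𝒰 : Ultrafilter ℕ) {Ω : ℕ → Set ℂ} (F : ℕ → ℂ → Y) (hΩ : ∀ n, IsOpen (Ω n) ∧ Convex ℝ (Ω n))
    (hex : ∀ R : ℝ, ∀ᶠ n in (𝒰 : Filter ℕ), ball 0 R ⊆ Ω n) (hF : ∀ᶠ n in (𝒰 : Filter ℕ), F n ∈ S (Ω n)) :
    ∃ f ∈ S Set.univ, ∀ z, z ∉ B → Tendsto (fun n => F n z) 𝒰 (𝓝 (f z)) := by
  have key : ∀ z, ∃ y : Y, z ∉ B → Tendsto (fun n => F n z) 𝒰 (𝓝 y) := by
    intro z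
    by_cases hz : z ∈ B
    · exact ⟨F 0 z, fun h' => absurd hz h'⟩
    · have h1 : ((𝒰.map fun n => F n z : Ultrafilter Y) : Filter Y) ≤ 𝓟 K := by
        rw [Filter.le_principal_iff]
        show ∀ᶠ n in (𝒰 : Filter ℕ), F n z ∈ K
        filter_upwards [hF, hex (‖z‖ + 1)] with n hn hn2
        exact h.mem _ (hΩ n).1 (hΩ n).2 _ hn z (hn2 (by rw [mem_ball_zero_iff]; linarith)) hz
      obtain ⟨y, _, hy⟩ := h.compact.ultrafilter_le_nhds _ h1
      exact ⟨y, fun _ => hy⟩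
  choose f hf using key
  exact ⟨f, h.lim 𝒰 Ω F f hΩ hex hF hf, hf⟩

theorem HD0.tendsto_along (h : HD0 K p B δ W S) (𝒰 : Ultrafilter ℕ) {Ω : ℕ → Set ℂ} (F : ℕ → ℂ → Y)
    (hΩ : ∀ n, IsOpen (Ω n) ∧ Convex ℝ (Ω n)) (hex : ∀ R : ℝ, ∀ᶠ n in (𝒰 : Filter ℕ), ball 0 R ⊆ Ω n) (hF : ∀ᶠ n in (𝒰 : Filter ℕ), F n ∈ S (Ω n))
    {f : ℂ → Y} (hf : ∀ z, z ∉ B → Tendsto (fun n => F n z) 𝒰 (𝓝 (f z))) {w : ℕ → ℂ} {z : ℂ} (hz : z ∉ B)
    (hw : Tendsto w 𝒰 (𝓝 z)) : Tendsto (fun n => F n (w n)) 𝒰 (𝓝 (f z)) := by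
  obtain ⟨δ', hδ', hzδ⟩ := h.exists_gd hz
  obtain ⟨L, hL, hlip⟩ := h.lip δ' |z.re| hδ'
  rw [tendsto_iff_dist_tendsto_zero]
  have h1 : Tendsto (fun n => L * dist z (w n) + dist (F n z) (f z)) 𝒰 (𝓝 (L * 0 + 0)) := by
    refine Tendsto.add (Tendsto.const_mul L ?_) (tendsto_iff_dist_tendsto_zero.mp (hf z hz))
    have h2 := tendsto_iff_dist_tendsto_zero.mp hw
    simp only [dist_comm z]
    exact h2
  rw [mul_zero, add_zero] at h1
  refine squeeze_zero' (Eventually.of_forall fun _ => dist_nonneg) ?_ h1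
  have h2 : ∀ᶠ n in (𝒰 : Filter ℕ), w n ∈ closedBall z (δ' / 2) :=
    hw.eventually (closedBall_mem_nhds z (by positivity))
  filter_upwards [hF, h2, hex (‖z‖ + δ' + 1)] with n hn hn2 hn3
  have hzb : closedBall z δ' ⊆ ball 0 (‖z‖ + δ' + 1) := by
    intro w hw
    rw [mem_closedBall, dist_eq_norm] at hw
    rw [mem_ball_zero_iff]
    have h4 : w = (w - z) + z := by ring
    calc ‖w‖ = ‖(w - z) + z‖ := by rw [← h4]
      _ ≤ ‖w - z‖ + ‖z‖ := norm_add_le _ _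
      _ < ‖z‖ + δ' + 1 := by linarith
  have h3 := hlip (Ω n) (hΩ n).1 (hΩ n).2 (F n) hn z hzδ le_rfl (hzb.trans hn3) (w n) hn2
  rw [← dist_eq_norm] at h3
  have h4 := dist_triangle_left (F n (w n)) (f z) (F n z)
  linarith

/-- a vertical translation by a multiple of the period which brings `y` near `0` -/
theorem HD0.exists_int (h : HD0 K p B δ W S) (y : ℝ) : ∃ l : ℤ, |y - p * l| ≤ p := by
  refine ⟨⌊y / p⌋, ?_⟩
  have hp := h.p_pos
  have h1 := Int.floor_le (y / p)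
  have h2 := Int.lt_floor_add_one (y / p)
  rw [le_div_iff₀ hp] at h1
  rw [div_lt_iff₀ hp] at h2
  rw [abs_of_nonneg (by nlinarith)]
  nlinarith

theorem HD0.tr_mem (h : HD0 K p B δ W S) {Ω : Set ℂ} (hΩ : IsOpen Ω) (hΩc : Convex ℝ Ω) {f : ℂ → Y} (hf : f ∈ S Ω) (l : ℤ) :
    tr p l f ∈ S (Sh p l Ω) := h.trans Ω hΩ hΩc f hf l

theorem HD0.res_HP (h : HD0 K p B δ W S) {σ ρ ρ' : ℝ} (hρ : ρ ≤ ρ') {f : ℂ → Y} (hf : f ∈ S (HP σ ρ)) : f ∈ S (HP σ ρ') :=
  h.anti _ _ (isOpen_HP σ ρ) (convex_HP σ ρ) (isOpen_HP σ ρ') (convex_HP σ ρ') (HP_anti hρ) hf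

theorem HD0.res_univ (h : HD0 K p B δ W S) {Ω : Set ℂ} (hΩ : IsOpen Ω) (hΩc : Convex ℝ Ω) {f : ℂ → Y} (hf : f ∈ S Set.univ) : f ∈ S Ω :=
  h.anti _ _ isOpen_univ convex_univ hΩ hΩc (Set.subset_univ _) hf

theorem HD0.ag_of_HP (h : HD0 K p B δ W S) {Ω : Set ℂ} (hΩ : IsOpen Ω) (hΩc : Convex ℝ Ω) {f g : ℂ → Y} (hf : f ∈ S Ω) (hg : g ∈ S Ω) {σ ρ : ℝ}
    (hσ : σ = 1 ∨ σ = -1) (hsub : HP σ ρ ⊆ Ω) (hag : AgO B (HP σ ρ) f g) : AgO B Ω f g := by
  have hδ := h.δ_pos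
  set z₀ : ℂ := ((W : ℝ) : ℂ) + ctr σ ρ 1 with hz₀
  have hre : z₀.re = W := by rw [hz₀, Complex.add_re, ctr_re, Complex.ofReal_re, add_zero]
  have him : σ * z₀.im = ρ + 1 := by
    rw [hz₀, Complex.add_im, ctr_im, Complex.ofReal_im, zero_add, ← mul_assoc, sq_one hσ, one_mul]
  have hz₀H : z₀ ∈ HP σ ρ := by
    show ρ < σ * z₀.im
    linarith
  refine h.uniq Ω hΩ hΩc f hf g hg z₀ (hsub hz₀H) (gd_notMem (by linarith) (h.right_mem (by rw [hre]; linarith))) ?_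
  have h1 : ∀ᶠ z in 𝓝 z₀, f z = g z := by
    filter_upwards [(isOpen_HP σ ρ).mem_nhds hz₀H, ball_mem_nhds z₀ hδ] with z hz1 hz2
    refine hag z hz1 (gd_notMem (show 0 < 2 * δ by linarith) (h.right_mem ?_))
    rw [mem_ball, dist_eq_norm] at hz2
    have h2 := (Complex.abs_re_le_norm (z - z₀)).trans_lt hz2
    rw [Complex.sub_re, hre] at h2
    linarith [(abs_lt.1 h2).1]
  exact (h1.filter_mono nhdsWithin_le_nhds).frequently

end Pool.Agent.H62.LR

end

section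

/-!
# LR HalfOf: the statement on half planes from the two closeness statements

`LA`: a member close to a section on a half plane is the section; `LH`: two members away from the sections and close to each other are equal.
A member which is not a section is away from the sections on a smaller half plane (`away_sec`); so `LA` and `LH` give the field `half` of `HDyn`.
-/

set_option autoImplicit false

open Topology Filter Metric

namespace Pool.Agent.H62.LR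

attribute [-instance] ProperSMul.toContinuousSMul

open Pool.Agent.H87.LU

variable {Y : Type} [MetricSpace Y] {K : Set Y} {p : ℝ} {B : Set ℂ} {δ W : ℝ} {S : Set ℂ → Set (ℂ → Y)}

/-- an entire member which is not the section `s` differs from `s` everywhere; with the first exit argument: a member which is not the section is away from it on a half plane -/
theorem away_sec (h : HD0 K p B δ W S) (Se : Set (ℂ → Y)) (hfin : Se.Finite) (hS : ∀ s ∈ Se, s ∈ S Set.univ)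
    (hper : ∀ s ∈ Se, ∀ z, s (z + p * Complex.I) = s z)
    (hdis : ∀ f ∈ S Set.univ, ∀ s ∈ Se, ∀ z, z ∉ B → f z = s z → AgO B Set.univ f s)
    (LA : ∃ δ₁ : ℝ, 0 < δ₁ ∧ ∀ σ ρ : ℝ, (σ = 1 ∨ σ = -1) → ∀ f ∈ S (HP σ ρ), ∀ s ∈ Se,
      (∀ z ∈ HP σ ρ, z ∈ Gd B δ → |z.re| ≤ W → dist (f z) (s z) ≤ δ₁) → AgO B (HP σ ρ) f s) :
    ∃ d₀ : ℝ, 0 < d₀ ∧ ∀ σ ρ : ℝ, (σ = 1 ∨ σ = -1) → ∀ f ∈ S (HP σ ρ), ∀ s ∈ Se, ¬ AgO B (HP σ ρ) f s →
      ∃ ρ' : ℝ, ρ ≤ ρ' ∧ ∀ z ∈ HP σ ρ', z ∈ Gd B δ → |z.re| ≤ W → d₀ ≤ dist (f z) (s z) := by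
  obtain ⟨δ₁, hδ₁, LA⟩ := LA
  by_contra hcon
  push Not at hcon
  have hδ := h.δ_pos
  have hp := h.p_pos
  choose σ ρ hσ f hf s hs hne hbad using fun n : ℕ => hcon (1 / ((n : ℝ) + 1)) (by positivity)
  have hσσ : ∀ n, σ n * σ n = 1 := fun n => sq_one (hσ n)
  -- a point near the section
  have hz : ∀ n : ℕ, ∃ z : ℂ, ρ n + n < σ n * z.im ∧ z ∈ Gd B δ ∧ |z.re| ≤ W ∧ dist (f n z) (s n z) < 1 / ((n : ℝ) + 1) := by
    intro n
    obtain ⟨z, hz, hzG, hzW, hzd⟩ := hbad n (ρ n + n) (by simp)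
    exact ⟨z, hz, hzG, hzW, hzd⟩
  choose z hzh hzG hzW hzd using hz
  -- the first exit
  have hexit : ∀ n : ℕ, ∃ (t : ℝ) (z' : ℂ), σ n * (z n).im ≤ t ∧ t ≤ σ n * z'.im ∧ σ n * z'.im < t + 1 ∧ z' ∈ Gd B δ ∧ |z'.re| ≤ W ∧
      δ₁ < dist (f n z') (s n z') ∧ ∀ w ∈ Gd B δ, |w.re| ≤ W → σ n * (z n).im < σ n * w.im → σ n * w.im < t → dist (f n w) (s n w) ≤ δ₁ := by
    intro n
    set T : Set ℝ := {t | ∃ w ∈ Gd B δ, |w.re| ≤ W ∧ σ n * (z n).im < σ n * w.im ∧ δ₁ < dist (f n w) (s n w) ∧ t = σ n * w.im} with hT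
    have hTne : T.Nonempty := by
      by_contra hemp
      rw [Set.not_nonempty_iff_eq_empty] at hemp
      have h1 : ∀ w ∈ HP (σ n) (σ n * (z n).im), w ∈ Gd B δ → |w.re| ≤ W → dist (f n w) (s n w) ≤ δ₁ := by
        intro w hw hwG hwW
        by_contra h2
        push Not at h2
        have h3 : σ n * w.im ∈ T := ⟨w, hwG, hwW, hw, h2, rfl⟩
        rw [hemp] at h3
        exact h3
      have hle : ρ n ≤ σ n * (z n).im := by
        have h2 := hzh n
        have h3 : (0 : ℝ) ≤ n := Nat.cast_nonneg n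
        linarith
      have h2 := LA (σ n) (σ n * (z n).im) (hσ n) (f n) (h.res_HP hle (hf n)) (s n) (hs n) h1
      exact hne n (h.ag_of_HP (isOpen_HP _ _) (convex_HP _ _) (hf n) (h.res_univ (isOpen_HP _ _) (convex_HP _ _) (hS _ (hs n))) (hσ n)
        (HP_anti hle) h2)
    have hTb : BddBelow T := by
      refine ⟨σ n * (z n).im, ?_⟩
      rintro _ ⟨w, _, _, hw, _, rfl⟩
      exact hw.le
    obtain ⟨_, ⟨w, hwG, hwW, hw1, hw2, rfl⟩, hlt⟩ := exists_lt_of_csInf_lt hTne (lt_add_one (sInf T))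
    refine ⟨sInf T, w, le_csInf hTne ?_, csInf_le hTb ⟨w, hwG, hwW, hw1, hw2, rfl⟩, hlt, hwG, hwW, hw2, ?_⟩
    · rintro _ ⟨w', _, _, hw', _, rfl⟩
      exact hw'.le
    · intro w' hw'G hw'W hw'1 hw'2
      by_contra h2
      push Not at h2
      exact absurd (csInf_le hTb ⟨w', hw'G, hw'W, hw'1, h2, rfl⟩) (not_le.2 hw'2)
  choose t z' hzt htz' hz't hz'G hz'W hz'd hlow using hexit
  choose l hl using fun n => h.exists_int (z' n).im
  set 𝒰 : Ultrafilter ℕ := Filter.hyperfilter ℕ with h𝒰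
  have hle : (𝒰 : Filter ℕ) ≤ atTop := by
    rw [h𝒰, ← Nat.cofinite_eq_atTop]
    exact Filter.hyperfilter_le_cofinite
  have hnlarge : ∀ c : ℝ, ∀ᶠ n : ℕ in (𝒰 : Filter ℕ), c ≤ (n : ℝ) := fun c =>
    hle (tendsto_natCast_atTop_atTop.eventually_ge_atTop c)
  -- the sign and the section are constant
  obtain ⟨σ₀, hσ₀, hσe⟩ : ∃ σ₀ : ℝ, (σ₀ = 1 ∨ σ₀ = -1) ∧ ∀ᶠ n in (𝒰 : Filter ℕ), σ n = σ₀ := by
    have h1 : ∀ᶠ n in (𝒰 : Filter ℕ), σ n = 1 ∨ σ n = -1 := Eventually.of_forall hσ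
    rcases Ultrafilter.eventually_or.1 h1 with h2 | h2
    · exact ⟨1, Or.inl rfl, h2⟩
    · exact ⟨-1, Or.inr rfl, h2⟩
  obtain ⟨s₀, hs₀, hse⟩ : ∃ s₀ ∈ Se, ∀ᶠ n in (𝒰 : Filter ℕ), s n = s₀ := by
    have h1 : ∀ᶠ n in (𝒰 : Filter ℕ), s n ∈ Se := Eventually.of_forall hs
    obtain ⟨s₀, hs₀, h3⟩ := (Ultrafilter.eventually_exists_mem_iff (f := 𝒰) (P := fun s₀ n => s n = s₀) hfin).1
      (h1.mono fun n hn => ⟨s n, hn, rfl⟩)
    exact ⟨s₀, hs₀, h3⟩
  have hσσ₀ : σ₀ * σ₀ = 1 := sq_one hσ₀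
  -- the translates
  have hΩo : ∀ n, IsOpen (Sh p (l n) (HP (σ n) (ρ n))) ∧ Convex ℝ (Sh p (l n) (HP (σ n) (ρ n))) :=
    fun n => ⟨isOpen_sh (isOpen_HP _ _), convex_sh (convex_HP _ _)⟩
  have habs : ∀ n (x : ℝ), |σ n * x| = |x| := by
    intro n x
    rcases hσ n with h1 | h1 <;> rw [h1] <;> simp
  have hhigh : ∀ n, σ n * (z' n).im - p ≤ σ n * (p * l n) ∧ σ n * (p * l n) ≤ σ n * (z' n).im + p := by
    intro n
    have h1 : |σ n * ((z' n).im - p * l n)| ≤ p := by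
      rw [habs]
      exact hl n
    rw [abs_le] at h1
    constructor
    · linarith [h1.2]
    · linarith [h1.1]
  have hex : ∀ R : ℝ, ∀ᶠ n in (𝒰 : Filter ℕ), ball 0 R ⊆ Sh p (l n) (HP (σ n) (ρ n)) := by
    intro R
    filter_upwards [hnlarge (R + p)] with n hn w hw
    show ρ n < σ n * (w + p * l n * Complex.I).im
    rw [add_im, mul_add]
    rw [mem_ball_zero_iff] at hw
    have h1 : -R ≤ σ n * w.im := by
      have h2 : |σ n * w.im| ≤ R := by
        rw [habs]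
        exact (Complex.abs_im_le_norm w).trans hw.le
      exact (abs_le.1 h2).1
    have h2 := (hhigh n).1
    have h3 := hzh n
    have h4 := hzt n
    have h5 := htz' n
    linarith
  have hFS : ∀ᶠ n in (𝒰 : Filter ℕ), tr p (l n) (f n) ∈ S (Sh p (l n) (HP (σ n) (ρ n))) :=
    Eventually.of_forall fun n => h.tr_mem (isOpen_HP _ _) (convex_HP _ _) (hf n) (l n)
  obtain ⟨G, hGS, hG⟩ := h.exists_lim 𝒰 (Ω := fun n => Sh p (l n) (HP (σ n) (ρ n))) (fun n => tr p (l n) (f n)) hΩo hex hFS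
  have hsS := hS s₀ hs₀
  have hΩu : ∀ n : ℕ, IsOpen ((fun _ => Set.univ : ℕ → Set ℂ) n) ∧ Convex ℝ ((fun _ => Set.univ : ℕ → Set ℂ) n) := fun n => ⟨isOpen_univ, convex_univ⟩
  have hexu : ∀ R : ℝ, ∀ᶠ n in (𝒰 : Filter ℕ), ball 0 R ⊆ (fun _ => Set.univ : ℕ → Set ℂ) n :=
    fun R => Eventually.of_forall fun n => Set.subset_univ _
  have hslim : ∀ (w : ℕ → ℂ) (w₀ : ℂ), w₀ ∉ B → Tendsto w 𝒰 (𝓝 w₀) → Tendsto (fun n => s₀ (w n)) 𝒰 (𝓝 (s₀ w₀)) := by
    intro w w₀ hw₀ hw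
    exact h.tendsto_along 𝒰 (Ω := fun _ => Set.univ) (fun _ => s₀) hΩu hexu (Eventually.of_forall fun _ => hsS) (fun z _ => tendsto_const_nhds) hw₀ hw
  have hGlim : ∀ (w : ℕ → ℂ) (w₀ : ℂ), w₀ ∉ B → Tendsto w 𝒰 (𝓝 w₀) → Tendsto (fun n => tr p (l n) (f n) (w n)) 𝒰 (𝓝 (G w₀)) := by
    intro w w₀ hw₀ hw
    exact h.tendsto_along 𝒰 (Ω := fun n => Sh p (l n) (HP (σ n) (ρ n))) (fun n => tr p (l n) (f n)) hΩo hex hFS hG hw₀ hw
  -- periodicity of the section
  have hper' : ∀ (k : ℤ) (w : ℂ), s₀ (w + p * k * Complex.I) = s₀ w := by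
    have hnat : ∀ (k : ℕ) (w : ℂ), s₀ (w + p * (k : ℤ) * Complex.I) = s₀ w := by
      intro k
      induction k with
      | zero => intro w; simp
      | succ k ih =>
        intro w
        have h1 : w + p * ((k + 1 : ℕ) : ℤ) * Complex.I = (w + p * (k : ℤ) * Complex.I) + p * Complex.I := by
          push_cast
          ring
        rw [h1, hper s₀ hs₀, ih]
    intro k w
    obtain ⟨m, rfl | rfl⟩ := k.eq_nat_or_neg
    · exact hnat m w
    · have h1 := hnat m (w + p * ((-(m : ℤ) : ℤ) : ℂ) * Complex.I)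
      have h2 : w + p * ((-(m : ℤ) : ℤ) : ℂ) * Complex.I + p * ((m : ℤ) : ℂ) * Complex.I = w := by
        push_cast
        ring
      rw [h2] at h1
      exact h1.symm
  -- limits of bounded sequences of good points
  have hbdd : ∀ (M : ℝ) (w : ℕ → ℂ), (∀ n, w n ∈ Gd B δ ∧ |(w n).re| ≤ W) → (∀ᶠ n in (𝒰 : Filter ℕ), |(w n).im - p * l n| ≤ M) →
      ∃ w₀ : ℂ, w₀ ∉ B ∧ Tendsto (fun n => w n + p * ((-l n : ℤ) : ℂ) * Complex.I) 𝒰 (𝓝 w₀) := by
    intro M w hw hM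
    have h1 : ∀ᶠ n in (𝒰 : Filter ℕ), w n + p * ((-l n : ℤ) : ℂ) * Complex.I ∈ Gd B δ ∩ closedBall (0 : ℂ) (W + M) := by
      filter_upwards [hM] with n hn
      refine ⟨(h.gd_add δ (-l n)).mpr (hw n).1, ?_⟩
      rw [mem_closedBall, dist_zero_right]
      refine (Complex.norm_le_abs_re_add_abs_im _).trans ?_
      rw [add_re, add_im]
      have h2 : (w n).im + p * ((-l n : ℤ) : ℝ) = (w n).im - p * l n := by
        push_cast
        ring
      rw [h2]
      exact add_le_add (hw n).2 hn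
    have hcpt : IsCompact (Gd B δ ∩ closedBall (0 : ℂ) (W + M)) := (isCompact_closedBall 0 _).inter_left (isClosed_gd δ)
    have h2 : ((𝒰.map fun n => w n + p * ((-l n : ℤ) : ℂ) * Complex.I : Ultrafilter ℂ) : Filter ℂ) ≤ 𝓟 (Gd B δ ∩ closedBall (0 : ℂ) (W + M)) := by
      rw [Filter.le_principal_iff]
      exact h1
    obtain ⟨w₀, hw₀, h3⟩ := hcpt.ultrafilter_le_nhds _ h2
    exact ⟨w₀, gd_notMem hδ hw₀.1, h3⟩
  have htr : ∀ (n : ℕ) (w : ℂ), tr p (l n) (f n) (w + p * ((-l n : ℤ) : ℂ) * Complex.I) = f n w := by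
    intro n w
    have h1 : w + p * ((-l n : ℤ) : ℂ) * Complex.I + p * l n * Complex.I = w := by
      push_cast
      ring
    show f n (w + p * ((-l n : ℤ) : ℂ) * Complex.I + p * l n * Complex.I) = f n w
    rw [h1]
  -- the exit point
  obtain ⟨w', hw'B, hw'⟩ := hbdd p z' (fun n => ⟨hz'G n, hz'W n⟩) (Eventually.of_forall hl)
  have hdist : δ₁ ≤ dist (G w') (s₀ w') := by
    have h1 : Tendsto (fun n => dist (tr p (l n) (f n) (z' n + p * ((-l n : ℤ) : ℂ) * Complex.I)) (s₀ (z' n + p * ((-l n : ℤ) : ℂ) * Complex.I))) 𝒰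
        (𝓝 (dist (G w') (s₀ w'))) := (hGlim _ w' hw'B hw').dist (hslim _ w' hw'B hw')
    refine ge_of_tendsto h1 ?_
    filter_upwards [hse] with n hn
    rw [htr, hper', ← hn]
    exact (hz'd n).le
  have hno : ¬ AgO B Set.univ G s₀ := by
    intro h1
    rw [h1 w' (Set.mem_univ _) hw'B, dist_self] at hdist
    linarith
  by_cases hM : ∃ M : ℝ, ∀ᶠ n in (𝒰 : Filter ℕ), t n - σ n * (z n).im ≤ M
  · -- bounded distance: `G` meets the section
    obtain ⟨M, hM⟩ := hM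
    obtain ⟨w, hwB, hw⟩ := hbdd (M + 1 + p) z (fun n => ⟨hzG n, hzW n⟩) (by
      filter_upwards [hM] with n hn
      have h1 : |(z n).im - p * l n| ≤ |(z n).im - (z' n).im| + |(z' n).im - p * l n| := abs_sub_le _ _ _
      have h2 : |(z n).im - (z' n).im| ≤ M + 1 := by
        rw [← habs n, mul_sub, abs_le]
        have h3 := hzt n
        have h4 := htz' n
        have h5 := hz't n
        constructor <;> linarith
      linarith [hl n])
    refine hno (hdis G hGS s₀ hs₀ w hwB ?_)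
    have h1 : Tendsto (fun n => dist (tr p (l n) (f n) (z n + p * ((-l n : ℤ) : ℂ) * Complex.I)) (s₀ (z n + p * ((-l n : ℤ) : ℂ) * Complex.I))) 𝒰
        (𝓝 (dist (G w) (s₀ w))) := (hGlim _ w hwB hw).dist (hslim _ w hwB hw)
    have h2 : Tendsto (fun n : ℕ => 1 / ((n : ℝ) + 1)) 𝒰 (𝓝 0) := tendsto_one_div_add_atTop_nhds_zero_nat.mono_left hle
    have h3 : dist (G w) (s₀ w) ≤ 0 := by
      refine le_of_tendsto_of_tendsto h1 h2 ?_
      filter_upwards [hse] with n hn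
      rw [htr, hper', ← hn]
      exact (hzd n).le
    exact dist_le_zero.1 h3
  · -- unbounded distance: `G` is close to the section on the opposite half plane
    push Not at hM
    have hfar : ∀ M : ℝ, ∀ᶠ n in (𝒰 : Filter ℕ), M < t n - σ n * (z n).im := hM
    have hcl : ∀ w ∈ HP (-σ₀) (1 + p), w ∈ Gd B δ → |w.re| ≤ W → dist (G w) (s₀ w) ≤ δ₁ := by
      intro w hw hwG hwW
      have hwB := gd_notMem hδ hwG
      have h1 : Tendsto (fun n => dist (tr p (l n) (f n) w) (s₀ w)) 𝒰 (𝓝 (dist (G w) (s₀ w))) := (hG w hwB).dist tendsto_const_nhds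
      refine le_of_tendsto h1 ?_
      have hw' : 1 + p < -σ₀ * w.im := hw
      filter_upwards [hse, hσe, hfar (p - σ₀ * w.im)] with n hn hn2 hn3
      have h2 := hlow n (w + p * l n * Complex.I) ((h.gd_add δ (l n)).mpr hwG) (by rwa [add_re]) ?_ ?_
      · rw [hn, hper'] at h2
        exact h2
      · rw [add_im, mul_add]
        have h3 := (hhigh n).1
        have h4 := htz' n
        rw [hn2] at *
        linarith
      · rw [add_im, mul_add]
        have h3 := (hhigh n).2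
        have h4 := hz't n
        rw [hn2] at *
        linarith
    have hσ' : -σ₀ = 1 ∨ -σ₀ = -1 := by
      rcases hσ₀ with h1 | h1 <;> rw [h1] <;> simp
    have h2 := LA (-σ₀) (1 + p) hσ' G (h.res_univ (isOpen_HP _ _) (convex_HP _ _) hGS) s₀ hs₀ hcl
    exact hno (h.ag_of_HP isOpen_univ convex_univ hGS hsS hσ' (Set.subset_univ _) h2)

/-- `LA`: a member close to a section on a half plane is the section; `LH`: two members which are away from the sections and close to each other are equal. -/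
theorem half_of (h : HD0 K p B δ W S) (Se : Set (ℂ → Y)) (hfin : Se.Finite) (hS : ∀ s ∈ Se, s ∈ S Set.univ)
    (hper : ∀ s ∈ Se, ∀ z, s (z + p * Complex.I) = s z)
    (hdis : ∀ f ∈ S Set.univ, ∀ s ∈ Se, ∀ z, z ∉ B → f z = s z → AgO B Set.univ f s)
    (LA : ∃ δ₁ : ℝ, 0 < δ₁ ∧ ∀ σ ρ : ℝ, (σ = 1 ∨ σ = -1) → ∀ f ∈ S (HP σ ρ), ∀ s ∈ Se,
      (∀ z ∈ HP σ ρ, z ∈ Gd B δ → |z.re| ≤ W → dist (f z) (s z) ≤ δ₁) → AgO B (HP σ ρ) f s)
    (LH : ∀ δ₀ : ℝ, 0 < δ₀ → ∃ ε : ℝ, 0 < ε ∧ ∀ σ ρ : ℝ, (σ = 1 ∨ σ = -1) → ∀ f ∈ S (HP σ ρ), ∀ g ∈ S (HP σ ρ),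
      (∀ z ∈ HP σ ρ, z ∈ Gd B δ → |z.re| ≤ W → (∀ s ∈ Se, δ₀ ≤ dist (f z) (s z) ∧ δ₀ ≤ dist (g z) (s z)) ∧ dist (f z) (g z) ≤ ε) →
      AgO B (HP σ ρ) f g) :
    HDyn K p B δ W S := by
  obtain ⟨d₀, hd₀, haway⟩ := away_sec h Se hfin hS hper hdis LA
  obtain ⟨δ₁, hδ₁, LA⟩ := LA
  obtain ⟨ε₁, hε₁, LH⟩ := LH d₀ hd₀
  have hδ := h.δ_pos
  refine ⟨h.compact, h.p_pos, h.δ_pos, h.W_pos, h.B_inv, h.B_sep, h.B_re, h.anti, h.mem, h.lip, h.trans, h.lim, h.uniq,
    min δ₁ ε₁, lt_min hδ₁ hε₁, fun σ ρ hσ f hf g hg hfg => ?_⟩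
  -- one of the two is a section
  have hsec : ∀ f ∈ S (HP σ ρ), ∀ g ∈ S (HP σ ρ), (∀ z ∈ HP σ ρ, z ∈ Gd B δ → |z.re| ≤ W → dist (f z) (g z) ≤ min δ₁ ε₁) →
      (∃ s ∈ Se, AgO B (HP σ ρ) f s) → AgO B (HP σ ρ) f g := by
    rintro f hf g hg hfg ⟨s, hs, hfs⟩
    have h1 : AgO B (HP σ ρ) g s := by
      refine LA σ ρ hσ g hg s hs fun z hz hzG hzW => ?_
      rw [← hfs z hz (gd_notMem hδ hzG), dist_comm]
      exact (hfg z hz hzG hzW).trans (min_le_left _ _)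
    intro z hz hzB
    rw [hfs z hz hzB, h1 z hz hzB]
  by_cases h1 : ∃ s ∈ Se, AgO B (HP σ ρ) f s
  · exact hsec f hf g hg hfg h1
  by_cases h2 : ∃ s ∈ Se, AgO B (HP σ ρ) g s
  · have h3 := hsec g hg f hf (fun z hz hzG hzW => by rw [dist_comm]; exact hfg z hz hzG hzW) h2
    exact fun z hz hzB => (h3 z hz hzB).symm
  push Not at h1 h2
  -- a common smaller half plane
  have hcommon : ∃ ρ' : ℝ, ρ ≤ ρ' ∧ ∀ z ∈ HP σ ρ', z ∈ Gd B δ → |z.re| ≤ W → ∀ s ∈ Se, d₀ ≤ dist (f z) (s z) ∧ d₀ ≤ dist (g z) (s z) := by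
    have h3 : ∀ s ∈ Se, ∃ ρ' : ℝ, ρ ≤ ρ' ∧ ∀ z ∈ HP σ ρ', z ∈ Gd B δ → |z.re| ≤ W → d₀ ≤ dist (f z) (s z) ∧ d₀ ≤ dist (g z) (s z) := by
      intro s hs
      obtain ⟨a, ha, ha2⟩ := haway σ ρ hσ f hf s hs (h1 s hs)
      obtain ⟨b, hb, hb2⟩ := haway σ ρ hσ g hg s hs (h2 s hs)
      refine ⟨max a b, ha.trans (le_max_left _ _), fun z hz hzG hzW => ⟨ha2 z (HP_anti (le_max_left _ _) hz) hzG hzW, hb2 z (HP_anti (le_max_right _ _) hz) hzG hzW⟩⟩
    choose! r hr hr2 using h3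
    obtain ⟨M, hM⟩ := (hfin.image r).bddAbove
    refine ⟨max ρ M, le_max_left _ _, fun z hz hzG hzW s hs => ?_⟩
    exact hr2 s hs z (HP_anti ((hM (Set.mem_image_of_mem r hs)).trans (le_max_right _ _)) hz) hzG hzW
  obtain ⟨ρ', hρ', hcommon⟩ := hcommon
  have h4 := LH σ ρ' hσ f (h.res_HP hρ' hf) g (h.res_HP hρ' hg) fun z hz hzG hzW =>
    ⟨hcommon z hz hzG hzW, (hfg z (HP_anti hρ' hz) hzG hzW).trans (min_le_right _ _)⟩
  exact h.ag_of_HP (isOpen_HP _ _) (convex_HP _ _) hf hg hσ (HP_anti hρ') h4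

end Pool.Agent.H62.LR

end
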