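import Pool.Agent.H94.CB.M190
import Pool.Agent.H94.CB.M195
import Pool.Agent.H94.CB.M199
import Pool.Agent.H94.CB.M200
import Pool.Agent.H94.CB.M41

/-! The parts of this file: H6.LU.ChEx, H6.LU.Conv, H6.LU.Sets, H6.LU.Bad, H6.LU.Crit, H6.LU.LBs, H6.LU.Fm, H6.LU.Lg. -/

section

/-!
# LU ChEx: charts from germ-level charts, for cones which are not closed

A copy of `H62/EF/ChEx.lean` with `OCone` in the place of `IsCone`.
-/

set_option autoImplicit false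

open Topology Filter Metric

namespace Pool.Agent.H6.LU

attribute [-instance] ProperSMul.toContinuousSMul

open Pool.Agent.H36.BP (EN IsGermChart)
open Pool.Agent.H14.PP (IsCone Chart)
open Pool.Agent.H18.LU (OCone)

variable {N : ℕ}

theorem exists_chart_of_germ {X : Set (EN N)} (hX : OCone X) {σ : ℂ × ℂ → EN N} {τ : EN N → ℂ × ℂ} (h : IsGermChart X σ τ) :
    ∃ χ : Chart X, σ 0 ∈ χ.U ∧ χ.q (σ 0) = 0 := by
  have hσ0 : σ 0 ≠ 0 := by
    intro h0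
    have h1 := h.σ_mem.self_of_nhds
    rw [h0] at h1
    exact hX.zero_notMem h1
  -- the linear form
  obtain ⟨ℓ, hℓ⟩ : ∃ ℓ : EN N →L[ℂ] ℂ, ℓ (σ 0) = 1 := by
    have hne : inner ℂ (σ 0) (σ 0) ≠ (0 : ℂ) := inner_self_ne_zero.mpr hσ0
    refine ⟨(inner ℂ (σ 0) (σ 0) : ℂ)⁻¹ • innerSL ℂ (σ 0), ?_⟩
    simp only [_root_.smul_apply, innerSL_apply_apply, smul_eq_mul]
    exact inv_mul_cancel₀ hne
  -- the normalised parametrisation
  have hℓσ : ContinuousAt (fun p => ℓ (σ p)) 0 := ℓ.continuous.continuousAt.comp h.σ_an.continuousAt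
  have hℓne : ∀ᶠ p in 𝓝 (0 : ℂ × ℂ), ℓ (σ p) ≠ 0 := hℓσ.eventually_ne (by rw [hℓ]; exact one_ne_zero)
  have hinvσ : ∀ᶠ p in 𝓝 (0 : ℂ × ℂ), τ ((ℓ (σ p))⁻¹ • σ p) = τ (σ p) := by
    have hc : Tendsto (fun p => (σ p, (ℓ (σ p))⁻¹)) (𝓝 (0 : ℂ × ℂ)) (𝓝 (σ 0, (1 : ℂ))) := by
      have h1 : Tendsto (fun p => (ℓ (σ p))⁻¹) (𝓝 (0 : ℂ × ℂ)) (𝓝 (ℓ (σ 0))⁻¹) := hℓσ.inv₀ (by rw [hℓ]; exact one_ne_zero)
      rw [hℓ, inv_one] at h1
      exact h.σ_an.continuousAt.prodMk_nhds h1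
    exact hc.eventually h.inv
  -- the neighbourhood W₀
  have hW : ∀ᶠ y in 𝓝 (σ 0), AnalyticAt ℂ τ y ∧ (y ∈ X → ∃ c : ℂ, c ≠ 0 ∧ y = c • σ (τ y)) := h.τ_an.eventually_analyticAt.and h.right
  obtain ⟨W₀, hW₀s, hW₀o, hW₀m⟩ := _root_.eventually_nhds_iff.mp hW
  have hσ₁ : Tendsto (fun p => (ℓ (σ p))⁻¹ • σ p) (𝓝 (0 : ℂ × ℂ)) (𝓝 (σ 0)) := by
    have h1 : Tendsto (fun p => (ℓ (σ p))⁻¹) (𝓝 (0 : ℂ × ℂ)) (𝓝 (ℓ (σ 0))⁻¹) := hℓσ.inv₀ (by rw [hℓ]; exact one_ne_zero)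
    have h2 := h1.smul h.σ_an.continuousAt
    rwa [hℓ, inv_one, one_smul] at h2
  have hσ₁W : ∀ᶠ p in 𝓝 (0 : ℂ × ℂ), (ℓ (σ p))⁻¹ • σ p ∈ W₀ := hσ₁.eventually (hW₀o.mem_nhds hW₀m)
  obtain ⟨R, hR, hall⟩ := Metric.eventually_nhds_iff_ball.mp
    (((((h.σ_an.eventually_analyticAt.and h.σ_mem).and h.left).and hℓne).and hinvσ).and hσ₁W)
  set r : ℝ := R / 2 with hr
  have hr0 : 0 < r := by rw [hr]; positivity
  have hrC : (r : ℂ) ≠ 0 := by exact_mod_cast hr0.ne'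
  have hball : ∀ p ∈ ball (0 : ℂ × ℂ) 2, (r : ℂ) • p ∈ ball (0 : ℂ × ℂ) R := by
    intro p hp
    rw [mem_ball_zero_iff] at hp ⊢
    rw [norm_smul, Complex.norm_real, Real.norm_of_nonneg hr0.le, hr]
    nlinarith
  have hτσ : ∀ p ∈ ball (0 : ℂ × ℂ) R, τ ((ℓ (σ p))⁻¹ • σ p) = p := by
    intro p hp
    rw [(hall p hp).1.2, (hall p hp).1.1.1.2]
  set U : Set (EN N) := {x | ℓ x ≠ 0 ∧ (ℓ x)⁻¹ • x ∈ W₀ ∧ ‖τ ((ℓ x)⁻¹ • x)‖ < R} with hU
  have hmaps : ∀ x : EN N, ℓ x ≠ 0 → ∀ c : ℂ, c ≠ 0 → (ℓ (c • x))⁻¹ • (c • x) = (ℓ x)⁻¹ • x := by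
    intro x hx c hc
    rw [map_smul, smul_eq_mul, smul_smul, mul_inv, mul_comm c⁻¹, mul_assoc, inv_mul_cancel₀ hc, mul_one]
  have han1 : ∀ x : EN N, ℓ x ≠ 0 → AnalyticAt ℂ (fun y : EN N => (ℓ y)⁻¹ • y) x := by
    intro x hx
    exact ((ℓ.analyticAt x).inv hx).smul analyticAt_id
  have hanq : ∀ x ∈ U, AnalyticAt ℂ (fun y : EN N => τ ((ℓ y)⁻¹ • y)) x := by
    intro x hx
    exact AnalyticAt.fun_comp (hW₀s _ hx.2.1).1 (han1 x hx.1)
  have hUopen : IsOpen U := by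
    rw [isOpen_iff_mem_nhds]
    intro x hx
    have h1 : ∀ᶠ y in 𝓝 x, ℓ y ≠ 0 := ℓ.continuous.continuousAt.eventually_ne hx.1
    have h2 : ∀ᶠ y in 𝓝 x, (ℓ y)⁻¹ • y ∈ W₀ := (han1 x hx.1).continuousAt.eventually (hW₀o.mem_nhds hx.2.1)
    have h3 : ∀ᶠ y in 𝓝 x, ‖τ ((ℓ y)⁻¹ • y)‖ < R := (hanq x hx).continuousAt.norm.eventually_lt_const hx.2.2
    filter_upwards [h1, h2, h3] with y h4 h5 h6
    exact ⟨h4, h5, h6⟩
  let χ : Chart X :=
    { σ := fun p => (ℓ (σ ((r : ℂ) • p)))⁻¹ • σ ((r : ℂ) • p)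
      U := U
      q := fun x => (r : ℂ)⁻¹ • τ ((ℓ x)⁻¹ • x)
      isOpen_U := hUopen
      smul_U := by
        rintro x ⟨h1, h2, h3⟩ c hc
        refine ⟨?_, ?_, ?_⟩
        · rw [map_smul, smul_eq_mul]
          exact mul_ne_zero hc h1
        · rw [hmaps x h1 c hc]; exact h2
        · rw [hmaps x h1 c hc]; exact h3
      σ_an := by
        intro p hp
        have h1 := (hall _ (hball p hp)).1.1.1.1.1
        have h2 : AnalyticAt ℂ (fun p : ℂ × ℂ => σ ((r : ℂ) • p)) p :=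
          AnalyticAt.fun_comp h1 (analyticAt_const.fun_smul analyticAt_id)
        have h3 : AnalyticAt ℂ (fun p : ℂ × ℂ => ℓ (σ ((r : ℂ) • p))) p := (ℓ.analyticAt _).fun_comp h2
        exact (h3.inv (hall _ (hball p hp)).1.1.2).smul h2
      q_an := by
        intro x hx
        exact analyticAt_const.fun_smul (hanq x hx)
      q_smul := by
        rintro x ⟨h1, h2, h3⟩ c hc
        show (r : ℂ)⁻¹ • τ ((ℓ (c • x))⁻¹ • (c • x)) = _
        rw [hmaps x h1 c hc]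
      σ_mem := by
        intro p hp
        have hb := hball p hp
        have hh := hall _ hb
        have hne := hh.1.1.2
        have h1 : ℓ ((ℓ (σ ((r : ℂ) • p)))⁻¹ • σ ((r : ℂ) • p)) = 1 := by
          rw [map_smul, smul_eq_mul, inv_mul_cancel₀ hne]
        have h2 : τ ((ℓ (σ ((r : ℂ) • p)))⁻¹ • σ ((r : ℂ) • p)) = (r : ℂ) • p := hτσ _ hb
        refine ⟨hX.smul_mem _ hh.1.1.1.1.2 _ (inv_ne_zero hne), ⟨?_, ?_, ?_⟩, ?_⟩
        · rw [h1]; exact one_ne_zero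
        · rw [h1, inv_one, one_smul]; exact hh.2
        · rw [h1, inv_one, one_smul, h2]
          exact mem_ball_zero_iff.mp hb
        · show (r : ℂ)⁻¹ • τ ((ℓ ((ℓ (σ ((r : ℂ) • p)))⁻¹ • σ ((r : ℂ) • p)))⁻¹ • ((ℓ (σ ((r : ℂ) • p)))⁻¹ • σ ((r : ℂ) • p))) = p
          rw [h1, inv_one, one_smul, h2, smul_smul, inv_mul_cancel₀ hrC, one_smul]
      surj := by
        rintro x hxX ⟨h1, h2, h3⟩
        have hyX : (ℓ x)⁻¹ • x ∈ X := hX.smul_mem _ hxX _ (inv_ne_zero h1)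
        obtain ⟨c, hc0, hc⟩ := (hW₀s _ h2).2 hyX
        have hτb : τ ((ℓ x)⁻¹ • x) ∈ ball (0 : ℂ × ℂ) R := mem_ball_zero_iff.mpr h3
        have hrq : (r : ℂ) • ((r : ℂ)⁻¹ • τ ((ℓ x)⁻¹ • x)) = τ ((ℓ x)⁻¹ • x) := by
          rw [smul_smul, mul_inv_cancel₀ hrC, one_smul]
        refine ⟨?_, ?_⟩
        · show (r : ℂ)⁻¹ • τ ((ℓ x)⁻¹ • x) ∈ ball (0 : ℂ × ℂ) 2
          rw [mem_ball_zero_iff, norm_smul, norm_inv, Complex.norm_real, Real.norm_of_nonneg hr0.le, inv_mul_lt_iff₀ hr0, hr]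
          linarith
        · refine ⟨ℓ x * c * ℓ (σ (τ ((ℓ x)⁻¹ • x))), ?_, ?_⟩
          · exact mul_ne_zero (mul_ne_zero h1 hc0) (hall _ hτb).1.1.2
          · show x = (ℓ x * c * ℓ (σ (τ ((ℓ x)⁻¹ • x)))) •
              ((ℓ (σ ((r : ℂ) • ((r : ℂ)⁻¹ • τ ((ℓ x)⁻¹ • x)))))⁻¹ • σ ((r : ℂ) • ((r : ℂ)⁻¹ • τ ((ℓ x)⁻¹ • x))))
            rw [hrq, smul_smul, mul_assoc, mul_inv_cancel₀ (hall _ hτb).1.1.2, mul_one, mul_smul, ← hc, smul_smul, mul_inv_cancel₀ h1, one_smul] }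
  have h0b : (0 : ℂ × ℂ) ∈ ball (0 : ℂ × ℂ) R := mem_ball_self hR
  have hτ0 : τ (σ 0) = 0 := (hall 0 h0b).1.1.1.2
  refine ⟨χ, ⟨?_, ?_, ?_⟩, ?_⟩
  · rw [hℓ]; exact one_ne_zero
  · rw [hℓ, inv_one, one_smul]; exact hW₀m
  · rw [hℓ, inv_one, one_smul, hτ0, norm_zero]; exact hR
  · show (r : ℂ)⁻¹ • τ ((ℓ (σ 0))⁻¹ • σ 0) = 0
    rw [hℓ, inv_one, one_smul, hτ0, smul_zero]

end Pool.Agent.H6.LU

end

section

/-!
# LU Conv: from `ℙ^M` to cones in the euclidean space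

The cone-level versions of the charts of `H4/LU/Defs.lean`.
-/

set_option autoImplicit false

open Topology Filter Metric

noncomputable section

namespace Pool.Agent.H6.LU

attribute [-instance] ProperSMul.toContinuousSMul

open Pool.Agent.H17 (PN HolomorphicInto)
open Pool.Agent.H36.BP (EN coneOf coneOf_smul ne_zero_of_ofLp ofLp_ne_zero)
open Pool.Agent.H4.LU (Mem val IsParam IsInner IsHorChart IsEndChart IsEnd IsRegularEnd IsModel)

variable {M : ℕ}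

/-- the function `e` on the cone -/
def ev (e : PN M → ℂ) (x : EN M) : ℂ := val e x.ofLp

theorem ev_of {e : PN M → ℂ} {x : EN M} (h : x.ofLp ≠ 0) : ev e x = e (Projectivization.mk ℂ x.ofLp h) := by
  unfold ev val
  rw [dif_pos h]

theorem ev_smul (e : PN M → ℂ) (x : EN M) {c : ℂ} (hc : c ≠ 0) : ev e (c • x) = ev e x := by
  by_cases h : x.ofLp = 0
  · have h1 : c • x = x := by
      have h2 : x = 0 := by ext i; exact congrFun h i
      rw [h2, smul_zero]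
    rw [h1]
  · have h2 : (c • x).ofLp ≠ 0 := by
      intro h0
      have h3 : c • x.ofLp = 0 := h0
      exact h ((smul_eq_zero.mp h3).resolve_left hc)
    rw [ev_of h, ev_of h2]
    congr 1
    exact Pool.Agent.H36.BP.mk_smul_eq h h2

theorem ev_inv (e : PN M → ℂ) {x : EN M} (h : x.ofLp ≠ 0) : ev (fun y => (e y)⁻¹) x = (ev e x)⁻¹ := by
  rw [ev_of h, ev_of h]

theorem zero_notMem_coneOf (Y : Set (PN M)) : (0 : EN M) ∉ coneOf Y := by
  rintro ⟨h, -⟩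
  exact h rfl

theorem coneOf_smul_iff {Y : Set (PN M)} {x : EN M} {c : ℂ} (hc : c ≠ 0) : c • x ∈ coneOf Y ↔ x ∈ coneOf Y := by
  constructor
  · intro h
    have h1 := coneOf_smul h (inv_ne_zero hc)
    rwa [smul_smul, inv_mul_cancel₀ hc, one_smul] at h1
  · intro h
    exact coneOf_smul h hc

/-- a parametrization of the cone `X` near `x` by a neighbourhood of `0` in `ℂ²` modulo the rotations of order `k` -/
structure GP (X : Set (EN M)) (k : ℕ) (σ : ℂ × ℂ → EN M) (τ : EN M → ℂ × ℂ) (x : EN M) : Prop where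
  σ_an : AnalyticAt ℂ σ 0
  τ_an : AnalyticAt ℂ τ x
  center : σ 0 = x
  mem : ∀ᶠ p in 𝓝 (0 : ℂ × ℂ), σ p ∈ X
  coord : ∀ᶠ p in 𝓝 (0 : ℂ × ℂ), τ (σ p) = (p.1 ^ k, p.2 ^ k)
  onto : ∀ᶠ y in 𝓝 x, y ∈ X → ∃ (a : ℂ) (p : ℂ × ℂ), a ≠ 0 ∧ y = a • σ p ∧ τ y = (p.1 ^ k, p.2 ^ k)
  inv : ∀ᶠ z in 𝓝 (x, (1 : ℂ)), τ (z.2 • z.1) = τ z.1
  quot : ∀ᶠ p in 𝓝 (0 : ℂ × ℂ), ∀ ζ : ℂ, ζ ^ k = 1 → ∃ a : ℂ, a ≠ 0 ∧ σ (ζ * p.1, ζ⁻¹ * p.2) = a • σ p

/-- the linear map `Fin (M + 1) → ℂ` to the euclidean space -/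
def lp (M : ℕ) : (Fin (M + 1) → ℂ) →L[ℂ] EN M := ((EuclideanSpace.equiv (Fin (M + 1)) ℂ).symm : (Fin (M + 1) → ℂ) →L[ℂ] EN M)

/-- the inverse map -/
def pl (M : ℕ) : EN M →L[ℂ] (Fin (M + 1) → ℂ) := ((EuclideanSpace.equiv (Fin (M + 1)) ℂ) : EN M →L[ℂ] (Fin (M + 1) → ℂ))

theorem pl_apply (x : EN M) : pl M x = x.ofLp := rfl
theorem pl_lp (x : Fin (M + 1) → ℂ) : pl M (lp M x) = x := rfl
theorem lp_pl (x : EN M) : lp M (pl M x) = x := rfl

theorem mem_coneOf' {Y : Set (PN M)} {x : Fin (M + 1) → ℂ} : lp M x ∈ coneOf Y ↔ Mem Y x := Iff.rfl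

theorem gp_of_param {Y : Set (PN M)} {k : ℕ} {σ : ℂ × ℂ → Fin (M + 1) → ℂ} {τ : (Fin (M + 1) → ℂ) → ℂ × ℂ} {y : PN M}
    (h : IsParam Y k σ τ y) {c : ℂ} (hc : c ≠ 0) :
    GP (coneOf Y) k (fun p => c • lp M (σ p)) (fun x => τ (pl M (c⁻¹ • x))) (c • lp M (σ 0)) := by
  have hcc : ∀ x : EN M, c⁻¹ • c • x = x := fun x => by rw [smul_smul, inv_mul_cancel₀ hc, one_smul]
  have hcc' : ∀ x : EN M, c • c⁻¹ • x = x := fun x => by rw [smul_smul, mul_inv_cancel₀ hc, one_smul]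
  have hcont : Tendsto (fun x : EN M => pl M (c⁻¹ • x)) (𝓝 (c • lp M (σ 0))) (𝓝 (σ 0)) := by
    have h1 : Continuous fun x : EN M => pl M (c⁻¹ • x) := (pl M).continuous.comp (continuous_const_smul _)
    have h2 := h1.tendsto (c • lp M (σ 0))
    rwa [hcc, pl_lp] at h2
  refine ⟨?_, ?_, rfl, ?_, ?_, ?_, ?_, ?_⟩
  · exact ((c • lp M : (Fin (M + 1) → ℂ) →L[ℂ] EN M).analyticAt _).comp h.analytic
  · have h1 : AnalyticAt ℂ (fun x : EN M => pl M (c⁻¹ • x)) (c • lp M (σ 0)) :=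
      (((pl M).comp (c⁻¹ • ContinuousLinearMap.id ℂ (EN M))).analyticAt _)
    have h2 : AnalyticAt ℂ τ (pl M (c⁻¹ • (c • lp M (σ 0)))) := by rw [hcc, pl_lp]; exact h.analytic'
    exact AnalyticAt.comp (g := τ) (f := fun x : EN M => pl M (c⁻¹ • x)) h2 h1
  · filter_upwards [h.mem] with p hp
    exact coneOf_smul (mem_coneOf'.2 hp) hc
  · filter_upwards [h.coord] with p hp
    show τ (pl M (c⁻¹ • (c • lp M (σ p)))) = _
    rw [hcc, pl_lp, hp]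
  · filter_upwards [hcont.eventually h.onto] with y hy hyX
    obtain ⟨a, p, ha, h1, h2⟩ := hy (by
      have := coneOf_smul hyX (inv_ne_zero hc)
      exact this)
    refine ⟨a, p, ha, ?_, h2⟩
    have h3 : c⁻¹ • y = lp M (a • σ p) := by rw [← h1, lp_pl]
    rw [map_smul] at h3
    rw [smul_comm, ← h3, hcc']
  · have h1 : Tendsto (fun z : EN M × ℂ => (pl M (c⁻¹ • z.1), z.2)) (𝓝 (c • lp M (σ 0), (1 : ℂ))) (𝓝 (σ 0, (1 : ℂ))) := by
      rw [nhds_prod_eq, nhds_prod_eq]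
      exact hcont.prodMap tendsto_id
    filter_upwards [h1.eventually h.inv] with z hz
    show τ (pl M (c⁻¹ • (z.2 • z.1))) = _
    rw [smul_comm, map_smul]
    exact hz
  · filter_upwards [h.quot] with p hp ζ hζ
    obtain ⟨a, ha, h1⟩ := hp ζ hζ
    refine ⟨a, ha, ?_⟩
    show c • lp M (σ (ζ * p.1, ζ⁻¹ * p.2)) = a • c • lp M (σ p)
    rw [h1, map_smul, smul_comm]

/-- the parametrization gives all points of the cone near the centre, with small parameters and scalars near `1` -/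
theorem GP.near {X : Set (EN M)} {k : ℕ} {σ : ℂ × ℂ → EN M} {τ : EN M → ℂ × ℂ} {x : EN M} (h : GP X k σ τ x) (hk : 1 ≤ k)
    (hx : x ≠ 0) {W : Set (ℂ × ℂ)} (hW : W ∈ 𝓝 (0 : ℂ × ℂ)) {A : Set ℂ} (hA : A ∈ 𝓝 (1 : ℂ)) :
    ∀ᶠ y in 𝓝 x, y ∈ X → ∃ (a : ℂ) (p : ℂ × ℂ), a ≠ 0 ∧ a ∈ A ∧ p ∈ W ∧ y = a • σ p ∧ τ y = (p.1 ^ k, p.2 ^ k) := by
  have hτ0 : τ x = 0 := by
    have h1 := h.coord.self_of_nhds
    rw [h.center] at h1
    rw [h1]
    simp [Nat.one_le_iff_ne_zero.1 hk]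
  -- small parameters
  obtain ⟨ε, hε, hεW⟩ := Metric.mem_nhds_iff.1 hW
  have hsm : ∀ η : ℝ, 0 < η → ∀ᶠ y in 𝓝 x, y ∈ X → ∃ (a : ℂ) (p : ℂ × ℂ), a ≠ 0 ∧ p ∈ ball (0 : ℂ × ℂ) η ∧ y = a • σ p ∧ τ y = (p.1 ^ k, p.2 ^ k) := by
    intro η hη
    have h1 : ∀ᶠ y in 𝓝 x, τ y ∈ ball (0 : ℂ × ℂ) (η ^ k) := by
      have h2 := h.τ_an.continuousAt.eventually_mem (s := ball (0 : ℂ × ℂ) (η ^ k)) (by
        rw [hτ0]; exact ball_mem_nhds _ (pow_pos hη k))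
      exact h2
    filter_upwards [h1, h.onto] with y hy1 hy2 hyX
    obtain ⟨a, p, ha, h3, h4⟩ := hy2 hyX
    refine ⟨a, p, ha, ?_, h3, h4⟩
    rw [h4, mem_ball_zero_iff, Prod.norm_def, max_lt_iff] at hy1
    rw [mem_ball_zero_iff, Prod.norm_def, max_lt_iff]
    have hk0 : k ≠ 0 := Nat.one_le_iff_ne_zero.1 hk
    constructor
    · have h5 := hy1.1
      simp only [norm_pow] at h5
      exact lt_of_pow_lt_pow_left₀ k hη.le h5
    · have h5 := hy1.2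
      simp only [norm_pow] at h5
      exact lt_of_pow_lt_pow_left₀ k hη.le h5
  -- the scalars are near 1
  have hxx : inner ℂ x x ≠ (0 : ℂ) := inner_self_ne_zero.2 hx
  have hc1 : Tendsto (fun z : EN M × (ℂ × ℂ) => inner ℂ x z.1 / inner ℂ x (σ z.2)) (𝓝 (x, (0 : ℂ × ℂ))) (𝓝 1) := by
    have h1 : Tendsto (fun z : EN M × (ℂ × ℂ) => (inner ℂ x z.1 : ℂ)) (𝓝 (x, (0 : ℂ × ℂ))) (𝓝 (inner ℂ x x)) := by
      have h2 : Continuous fun z : EN M × (ℂ × ℂ) => (inner ℂ x z.1 : ℂ) := continuous_const.inner continuous_fst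
      exact h2.tendsto _
    have h2 : Tendsto (fun z : EN M × (ℂ × ℂ) => (inner ℂ x (σ z.2) : ℂ)) (𝓝 (x, (0 : ℂ × ℂ))) (𝓝 (inner ℂ x x)) := by
      have h3 : ContinuousAt σ 0 := h.σ_an.continuousAt
      have h4 : Tendsto (fun z : EN M × (ℂ × ℂ) => σ z.2) (𝓝 (x, (0 : ℂ × ℂ))) (𝓝 x) := by
        have h5 : Tendsto (fun z : EN M × (ℂ × ℂ) => z.2) (𝓝 (x, (0 : ℂ × ℂ))) (𝓝 0) := continuous_snd.tendsto _
        have h6 := h3.tendsto
        rw [h.center] at h6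
        exact h6.comp h5
      exact (tendsto_const_nhds.inner h4)
    have h3 := h1.div h2 hxx
    rwa [div_self hxx] at h3
  have hev := (hc1.eventually hA).and ((?_ : ∀ᶠ z : EN M × (ℂ × ℂ) in 𝓝 (x, (0 : ℂ × ℂ)), (inner ℂ x (σ z.2) : ℂ) ≠ 0))
  · obtain ⟨δ, hδ, hδ'⟩ := Metric.eventually_nhds_iff_ball.1 hev
    set η := min δ ε with hη
    have hη0 : 0 < η := lt_min hδ hε
    filter_upwards [hsm η hη0, ball_mem_nhds x hδ] with y hy1 hy2 hyX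
    obtain ⟨a, p, ha, hp, h3, h4⟩ := hy1 hyX
    have h5 := hδ' (y, p) (by
      rw [mem_ball, Prod.dist_eq, max_lt_iff]
      refine ⟨hy2, lt_of_lt_of_le ?_ (min_le_left δ ε)⟩
      exact mem_ball.1 hp)
    refine ⟨a, p, ha, ?_, hεW (ball_subset_ball (min_le_right _ _) hp), h3, h4⟩
    have h6 : inner ℂ x y / inner ℂ x (σ p) = a := by
      rw [div_eq_iff h5.2, h3, inner_smul_right]
    have h7 := h5.1
    rwa [h6] at h7
  · have h3 : Tendsto (fun z : EN M × (ℂ × ℂ) => (inner ℂ x (σ z.2) : ℂ)) (𝓝 (x, (0 : ℂ × ℂ))) (𝓝 (inner ℂ x x)) := by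
      have h4 : Tendsto (fun z : EN M × (ℂ × ℂ) => σ z.2) (𝓝 (x, (0 : ℂ × ℂ))) (𝓝 x) := by
        have h5 : Tendsto (fun z : EN M × (ℂ × ℂ) => z.2) (𝓝 (x, (0 : ℂ × ℂ))) (𝓝 0) := continuous_snd.tendsto _
        have h6 := h.σ_an.continuousAt.tendsto
        rw [h.center] at h6
        exact h6.comp h5
      exact (tendsto_const_nhds.inner h4)
    exact h3.eventually_ne hxx

end Pool.Agent.H6.LU

end
end

section

/-!
# LU Sets: the parts of the cone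

`XX`: the cone over the part of `Y` over `ℂ^*`; `DD`: the cone over the fibre over `0`; `lm`: the continuous extension of `e` to `XX`; `uu = log lm - a`.
-/

set_option autoImplicit false

open Topology Filter Metric

noncomputable section

namespace Pool.Agent.H6.LU

attribute [-instance] ProperSMul.toContinuousSMul

open Pool.Agent.H17 (PN HolomorphicInto)
open Pool.Agent.H36.BP (EN coneOf coneOf_smul ne_zero_of_ofLp ofLp_ne_zero)
open Pool.Agent.H4.LU (Mem val IsParam IsInner IsHorChart IsEndChart IsEnd IsRegularEnd IsModel)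

variable {M : ℕ}

/-- a chart at a point over `ℂ^*`, in `V` (`hor = false`) or at the boundary curve (`hor = true`) -/
structure MCh (Y V : Set (PN M)) (e : PN M → ℂ) (hor : Bool) (σ : ℂ × ℂ → EN M) (τ : EN M → ℂ × ℂ) (c : ℂ) (i j : ℕ) (x : EN M) : Prop where
  gp : GP (coneOf Y) 1 σ τ x
  i_pos : 1 ≤ i
  j_zero : hor = true → j = 0
  form : ∀ᶠ p in 𝓝 (0 : ℂ × ℂ), (σ p ∈ coneOf V ↔ (hor = true → p.2 ≠ 0)) ∧ (σ p ∈ coneOf V → ev e (σ p) = Complex.exp (c + p.1 ^ i * p.2 ^ j))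

/-- a chart at a point over `0` -/
structure ECh (Y V : Set (PN M)) (e : PN M → ℂ) (k : ℕ) (nd hor : Bool) (σ : ℂ × ℂ → EN M) (τ : EN M → ℂ × ℂ) (x : EN M) : Prop where
  gp : GP (coneOf Y) k σ τ x
  k_pos : 1 ≤ k
  nd_k : nd = false → k = 1
  form : ∀ᶠ p in 𝓝 (0 : ℂ × ℂ), (σ p ∈ coneOf V ↔ p.1 ≠ 0 ∧ (nd = true ∨ hor = true → p.2 ≠ 0)) ∧
    (σ p ∈ coneOf V → ev e (σ p) = if nd = true then p.1 * p.2 else p.1)

/-- the points of the cone over `y` are the multiples of the centre -/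
theorem exists_scale {Y : Set (PN M)} {k : ℕ} {σ : ℂ × ℂ → Fin (M + 1) → ℂ} {τ : (Fin (M + 1) → ℂ) → ℂ × ℂ} {y : PN M}
    (h : IsParam Y k σ τ y) {x : EN M} (hx : ∃ hx : x.ofLp ≠ 0, Projectivization.mk ℂ x.ofLp hx = y) : ∃ c : ℂ, c ≠ 0 ∧ c • lp M (σ 0) = x := by
  obtain ⟨hx0, hxy⟩ := hx
  obtain ⟨h0, h1⟩ := h.center
  rw [← h1, Projectivization.mk_eq_mk_iff'] at hxy
  obtain ⟨c, hc⟩ := hxy
  refine ⟨c, ?_, ?_⟩
  · rintro rfl
    rw [zero_smul] at hc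
    exact hx0 hc.symm
  · rw [← map_smul, hc, ← pl_apply, lp_pl]

theorem mch_of_hor {Y V : Set (PN M)} {e : PN M → ℂ} {σ : ℂ × ℂ → Fin (M + 1) → ℂ} {τ : (Fin (M + 1) → ℂ) → ℂ × ℂ} {y : PN M}
    (h : IsHorChart Y V e σ τ y) {x : EN M} {c : ℂ} (hc : c ≠ 0) (hx : c • lp M (σ 0) = x) :
    ∃ (c' : ℂ) (i : ℕ), MCh Y V e true (fun p => c • lp M (σ p)) (fun x => τ (pl M (c⁻¹ • x))) c' i 0 x := by
  obtain ⟨hp, c', i, hi, hf⟩ := h
  refine ⟨c', i, hx ▸ gp_of_param hp hc, hi, fun _ => rfl, ?_⟩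
  filter_upwards [hf] with p hp
  have hmem : c • lp M (σ p) ∈ coneOf V ↔ Mem V (σ p) := (coneOf_smul_iff hc).trans mem_coneOf'
  refine ⟨by rw [hmem, hp.1]; simp, fun h1 => ?_⟩
  rw [hmem, hp.1] at h1
  rw [ev_smul _ _ hc, pow_zero, mul_one]
  exact hp.2 h1

theorem mch_of_inner {Y V : Set (PN M)} {e : PN M → ℂ} {y : PN M} (h : IsInner Y V e y) {x : EN M}
    (hx : ∃ hx : x.ofLp ≠ 0, Projectivization.mk ℂ x.ofLp hx = y) :
    ∃ σ τ c i j, MCh Y V e false σ τ c i j x := by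
  obtain ⟨σ, τ, c', i, j, hp, hi, hf⟩ := h
  obtain ⟨c, hc, hcx⟩ := exists_scale hp hx
  refine ⟨_, _, c', i, j, hcx ▸ gp_of_param hp hc, hi, fun h => absurd h (by simp), ?_⟩
  filter_upwards [hf] with p hp
  have hmem : c • lp M (σ p) ∈ coneOf V ↔ Mem V (σ p) := (coneOf_smul_iff hc).trans mem_coneOf'
  refine ⟨by rw [hmem]; simp [hp.1], fun _ => ?_⟩
  rw [ev_smul _ _ hc]
  exact hp.2

theorem ech_of_end {Y V : Set (PN M)} {e : PN M → ℂ} {k : ℕ} {nd hor : Bool} {σ : ℂ × ℂ → Fin (M + 1) → ℂ} {τ : (Fin (M + 1) → ℂ) → ℂ × ℂ} {y : PN M}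
    (h : IsEndChart Y V e k nd hor σ τ y) {x : EN M} {c : ℂ} (hc : c ≠ 0) (hx : c • lp M (σ 0) = x) :
    ECh Y V e k nd hor (fun p => c • lp M (σ p)) (fun x => τ (pl M (c⁻¹ • x))) x := by
  obtain ⟨hp, hk, hnd, hf⟩ := h
  refine ⟨hx ▸ gp_of_param hp hc, hk, hnd, ?_⟩
  filter_upwards [hf] with p hp
  have hmem : c • lp M (σ p) ∈ coneOf V ↔ Mem V (σ p) := (coneOf_smul_iff hc).trans mem_coneOf'
  refine ⟨by rw [hmem, hp.1], fun h1 => ?_⟩
  rw [ev_smul _ _ hc]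
  exact hp.2 (hmem.1 h1)

theorem cases_point {Y V : Set (PN M)} {e : PN M → ℂ} (h : IsModel Y V e) {x : EN M} (hx : x ∈ coneOf Y) :
    (∃ hor σ τ c i j, MCh Y V e hor σ τ c i j x) ∨ (∃ k nd hor σ τ, ECh Y V e k nd hor σ τ x) ∨
      ∃ k nd hor σ τ, ECh Y V (fun y => (e y)⁻¹) k nd hor σ τ x := by
  obtain ⟨hx0, hxY⟩ := hx
  rcases h.point _ hxY with h1 | ⟨σ, τ, h1⟩ | ⟨k, nd, hor, σ, τ, h1⟩ | ⟨k, nd, hor, σ, τ, h1⟩
  · exact Or.inl ⟨false, mch_of_inner h1 ⟨hx0, rfl⟩⟩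
  · obtain ⟨c, hc, hcx⟩ := exists_scale h1.1 ⟨hx0, rfl⟩
    obtain ⟨c', i, h2⟩ := mch_of_hor h1 hc hcx
    exact Or.inl ⟨true, _, _, _, _, _, h2⟩
  · obtain ⟨c, hc, hcx⟩ := exists_scale h1.1 ⟨hx0, rfl⟩
    exact Or.inr (Or.inl ⟨_, _, _, _, _, ech_of_end h1 hc hcx⟩)
  · obtain ⟨c, hc, hcx⟩ := exists_scale h1.1 ⟨hx0, rfl⟩
    exact Or.inr (Or.inr ⟨_, _, _, _, _, ech_of_end h1 hc hcx⟩)

variable {Y V : Set (PN M)} {e : PN M → ℂ}

/-! ## density of `V` -/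

theorem GP.mem_closure {X : Set (EN M)} {k : ℕ} {σ : ℂ × ℂ → EN M} {τ : EN M → ℂ × ℂ} {x : EN M} (h : GP X k σ τ x) {S : Set (EN M)}
    (hS : ∀ᶠ p in 𝓝 (0 : ℂ × ℂ), p.1 ≠ 0 → p.2 ≠ 0 → σ p ∈ S) : x ∈ closure S := by
  rw [mem_closure_iff_frequently]
  have h1 : Tendsto (fun t : ℂ => ((t, t) : ℂ × ℂ)) (𝓝[≠] 0) (𝓝 (0 : ℂ × ℂ)) := by
    have h2 : Continuous fun t : ℂ => ((t, t) : ℂ × ℂ) := by fun_prop
    exact (h2.tendsto 0).mono_left nhdsWithin_le_nhds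
  have h3 : ∀ᶠ t in 𝓝[≠] (0 : ℂ), σ (t, t) ∈ S := by
    filter_upwards [h1.eventually hS, self_mem_nhdsWithin] with t ht ht0
    exact ht ht0 ht0
  have h4 : Tendsto (fun t : ℂ => σ (t, t)) (𝓝[≠] 0) (𝓝 x) := by
    have h5 := h.σ_an.continuousAt.tendsto
    rw [h.center] at h5
    exact h5.comp h1
  exact h4.frequently h3.frequently

theorem MCh.mem_closure {hor : Bool} {σ : ℂ × ℂ → EN M} {τ : EN M → ℂ × ℂ} {c : ℂ} {i j : ℕ} {x : EN M} (h : MCh Y V e hor σ τ c i j x) :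
    x ∈ closure (coneOf V) := by
  refine h.gp.mem_closure ?_
  filter_upwards [h.form] with p hp _ h2
  exact hp.1.2 fun _ => h2

theorem ECh.mem_closure {k : ℕ} {nd hor : Bool} {σ : ℂ × ℂ → EN M} {τ : EN M → ℂ × ℂ} {x : EN M} (h : ECh Y V e k nd hor σ τ x) :
    x ∈ closure (coneOf V) := by
  refine h.gp.mem_closure ?_
  filter_upwards [h.form] with p hp h1 h2
  exact hp.1.2 ⟨h1, fun _ => h2⟩

theorem mem_closure_V (h : IsModel Y V e) {x : EN M} (hx : x ∈ coneOf Y) : x ∈ closure (coneOf V) := by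
  rcases cases_point h hx with ⟨_, _, _, _, _, _, h1⟩ | ⟨_, _, _, _, _, h1⟩ | ⟨_, _, _, _, _, h1⟩
  · exact h1.mem_closure
  · exact h1.mem_closure
  · exact h1.mem_closure

theorem neBot_V (h : IsModel Y V e) {x : EN M} (hx : x ∈ coneOf Y) : (𝓝[coneOf V] x).NeBot :=
  mem_closure_iff_nhdsWithin_neBot.1 (mem_closure_V h hx)

theorem coneOf_ne {x : EN M} (hx : x ∈ coneOf Y) : x ≠ 0 := ne_zero_of_ofLp hx.1

theorem coneOf_mono {Y V : Set (PN M)} (h : V ⊆ Y) : coneOf V ⊆ coneOf Y := fun _ ⟨h1, h2⟩ => ⟨h1, h h2⟩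

/-! ## limits of `e` -/

theorem GP.tau_zero {X : Set (EN M)} {k : ℕ} {σ : ℂ × ℂ → EN M} {τ : EN M → ℂ × ℂ} {x : EN M} (h : GP X k σ τ x) (hk : 1 ≤ k) : τ x = 0 := by
  have h1 := h.coord.self_of_nhds
  rw [h.center] at h1
  rw [h1]
  simp [Nat.one_le_iff_ne_zero.1 hk]

theorem GP.center_mem {X : Set (EN M)} {k : ℕ} {σ : ℂ × ℂ → EN M} {τ : EN M → ℂ × ℂ} {x : EN M} (h : GP X k σ τ x) : x ∈ X := by
  have h1 := h.mem.self_of_nhds
  rwa [h.center] at h1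

/-- in a chart of order `1` -/
theorem GP.near1 {X : Set (EN M)} {σ : ℂ × ℂ → EN M} {τ : EN M → ℂ × ℂ} {x : EN M} (h : GP X 1 σ τ x) (hx : x ≠ 0) {W : Set (ℂ × ℂ)}
    (hW : W ∈ 𝓝 (0 : ℂ × ℂ)) {A : Set ℂ} (hA : A ∈ 𝓝 (1 : ℂ)) : ∀ᶠ y in 𝓝 x, τ y ∈ W ∧ (y ∈ X → ∃ a : ℂ, a ≠ 0 ∧ a ∈ A ∧ y = a • σ (τ y)) := by
  have h1 : ∀ᶠ y in 𝓝 x, τ y ∈ W := by
    refine h.τ_an.continuousAt.eventually_mem ?_
    rw [h.tau_zero le_rfl]
    exact hW
  filter_upwards [h1, h.near le_rfl hx hW hA] with y hy hy'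
  refine ⟨hy, fun hyX => ?_⟩
  obtain ⟨a, p, ha, haA, -, h2, h3⟩ := hy' hyX
  have h4 : p = τ y := by rw [h3]; simp
  exact ⟨a, ha, haA, h4 ▸ h2⟩

theorem MCh.ne {hor : Bool} {σ : ℂ × ℂ → EN M} {τ : EN M → ℂ × ℂ} {c : ℂ} {i j : ℕ} {x : EN M} (h : MCh Y V e hor σ τ c i j x) : x ≠ 0 :=
  coneOf_ne h.gp.center_mem

theorem ECh.ne {k : ℕ} {nd hor : Bool} {σ : ℂ × ℂ → EN M} {τ : EN M → ℂ × ℂ} {x : EN M} (h : ECh Y V e k nd hor σ τ x) : x ≠ 0 :=
  coneOf_ne h.gp.center_mem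

/-- the local equations of `V` and `e` -/
theorem MCh.loc {hor : Bool} {σ : ℂ × ℂ → EN M} {τ : EN M → ℂ × ℂ} {c : ℂ} {i j : ℕ} {x : EN M} (h : MCh Y V e hor σ τ c i j x) :
    ∀ᶠ y in 𝓝 x, y ∈ coneOf Y → (y ∈ coneOf V ↔ (hor = true → (τ y).2 ≠ 0)) ∧
      (y ∈ coneOf V → ev e y = Complex.exp (c + (τ y).1 ^ i * (τ y).2 ^ j)) := by
  filter_upwards [h.gp.near1 h.ne h.form univ_mem] with y hy hyX
  obtain ⟨h1, h2⟩ := hy
  obtain ⟨a, ha, -, h3⟩ := h2 hyX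
  have h4 : y ∈ coneOf V ↔ σ (τ y) ∈ coneOf V := by conv_lhs => rw [h3, coneOf_smul_iff ha]
  refine ⟨h4.trans h1.1, fun h5 => ?_⟩
  conv_lhs => rw [h3, ev_smul _ _ ha]
  exact h1.2 (h4.1 h5)

theorem MCh.tendsto (hm : V ⊆ Y) {hor : Bool} {σ : ℂ × ℂ → EN M} {τ : EN M → ℂ × ℂ} {c : ℂ} {i j : ℕ} {x : EN M} (h : MCh Y V e hor σ τ c i j x) :
    ∀ᶠ y in 𝓝 x, Tendsto (ev e) (𝓝[coneOf V] y) (𝓝 (Complex.exp (c + (τ y).1 ^ i * (τ y).2 ^ j))) := by
  filter_upwards [h.loc.eventually_nhds, h.gp.τ_an.eventually_analyticAt] with y hy hτ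
  have h1 : Tendsto (fun y' => Complex.exp (c + (τ y').1 ^ i * (τ y').2 ^ j)) (𝓝[coneOf V] y) (𝓝 (Complex.exp (c + (τ y).1 ^ i * (τ y).2 ^ j))) := by
    have h2 : ContinuousAt (fun y' => Complex.exp (c + (τ y').1 ^ i * (τ y').2 ^ j)) y := by
      have h3 := hτ.continuousAt
      fun_prop
    exact h2.tendsto.mono_left nhdsWithin_le_nhds
  refine h1.congr' ?_
  filter_upwards [mem_nhdsWithin_of_mem_nhds hy, self_mem_nhdsWithin] with y' h2 h3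
  exact ((h2 (coneOf_mono hm h3)).2 h3).symm

theorem ECh.loc {k : ℕ} {nd hor : Bool} {σ : ℂ × ℂ → EN M} {τ : EN M → ℂ × ℂ} {x : EN M} (h : ECh Y V e k nd hor σ τ x) {W : Set (ℂ × ℂ)}
    (hW : W ∈ 𝓝 (0 : ℂ × ℂ)) {A : Set ℂ} (hA : A ∈ 𝓝 (1 : ℂ)) :
    ∀ᶠ y in 𝓝 x, y ∈ coneOf Y → ∃ (a : ℂ) (p : ℂ × ℂ), a ≠ 0 ∧ a ∈ A ∧ p ∈ W ∧ y = a • σ p ∧ τ y = (p.1 ^ k, p.2 ^ k) ∧
      (y ∈ coneOf V ↔ p.1 ≠ 0 ∧ (nd = true ∨ hor = true → p.2 ≠ 0)) ∧ (y ∈ coneOf V → ev e y = if nd = true then p.1 * p.2 else p.1) := by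
  filter_upwards [h.gp.near h.k_pos h.ne (inter_mem h.form hW) hA] with y hy hyX
  obtain ⟨a, p, ha, haA, hpW, h3, h4⟩ := hy hyX
  obtain ⟨h1, h1'⟩ := hpW
  have h5 : y ∈ coneOf V ↔ σ p ∈ coneOf V := by conv_lhs => rw [h3, coneOf_smul_iff ha]
  refine ⟨a, p, ha, haA, h1', h3, h4, h5.trans h1.1, fun h6 => ?_⟩
  conv_lhs => rw [h3, ev_smul _ _ ha]
  exact h1.2 (h5.1 h6)

theorem ECh.tendsto (hm : V ⊆ Y) {k : ℕ} {nd hor : Bool} {σ : ℂ × ℂ → EN M} {τ : EN M → ℂ × ℂ} {x : EN M} (h : ECh Y V e k nd hor σ τ x) :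
    Tendsto (ev e) (𝓝[coneOf V] x) (𝓝 0) := by
  rw [Metric.tendsto_nhds]
  intro ε hε
  have hW : ball (0 : ℂ × ℂ) (min ε 1) ∈ 𝓝 (0 : ℂ × ℂ) := ball_mem_nhds _ (lt_min hε one_pos)
  filter_upwards [mem_nhdsWithin_of_mem_nhds (h.loc hW univ_mem), self_mem_nhdsWithin] with y hy hyV
  obtain ⟨a, p, -, -, hp, -, -, -, h1⟩ := hy (coneOf_mono hm hyV)
  rw [h1 hyV, dist_zero_right]
  rw [mem_ball_zero_iff, Prod.norm_def, max_lt_iff] at hp
  have h2 := lt_of_lt_of_le hp.1 (min_le_left _ _)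
  have h3 := lt_of_lt_of_le hp.2 (min_le_right _ _)
  split_ifs
  · rw [norm_mul]
    calc ‖p.1‖ * ‖p.2‖ ≤ ‖p.1‖ * 1 := by gcongr
      _ < ε := by rw [mul_one]; exact h2
  · exact h2

/-- the cone over the part of `Y` over `ℂ^*` -/
def XX (Y V : Set (PN M)) (e : PN M → ℂ) : Set (EN M) := {x | x ∈ coneOf Y ∧ ∃ c : ℂ, c ≠ 0 ∧ Tendsto (ev e) (𝓝[coneOf V] x) (𝓝 c)}

/-- the cone over the fibre over `0` -/
def DD (Y V : Set (PN M)) (e : PN M → ℂ) : Set (EN M) := {x | x ∈ coneOf Y ∧ Tendsto (ev e) (𝓝[coneOf V] x) (𝓝 0)}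

/-- the continuous extension of `e` -/
def lm (V : Set (PN M)) (e : PN M → ℂ) (x : EN M) : ℂ := limUnder (𝓝[coneOf V] x) (ev e)

/-- the logarithm of `e` minus `a` -/
def uu (V : Set (PN M)) (e : PN M → ℂ) (a : ℂ) (x : EN M) : ℂ := Complex.log (lm V e x) - a

theorem lm_eq (h : IsModel Y V e) {x : EN M} (hx : x ∈ coneOf Y) {c : ℂ} (hc : Tendsto (ev e) (𝓝[coneOf V] x) (𝓝 c)) : lm V e x = c := by
  haveI := neBot_V h hx
  exact hc.limUnder_eq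

/-- the period group -/
def Lam : AddSubgroup ℂ where
  carrier := {w | Complex.exp w = 1}
  add_mem' := fun {a b} ha hb => by
    show Complex.exp (a + b) = 1
    rw [Complex.exp_add, show Complex.exp a = 1 from ha, show Complex.exp b = 1 from hb, one_mul]
  zero_mem' := Complex.exp_zero
  neg_mem' := fun {a} ha => by
    show Complex.exp (-a) = 1
    rw [Complex.exp_neg, show Complex.exp a = 1 from ha, inv_one]

theorem mem_Lam {w : ℂ} : w ∈ Lam ↔ Complex.exp w = 1 := Iff.rfl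

theorem sub_mem_Lam {z w : ℂ} : z - w ∈ Lam ↔ Complex.exp z = Complex.exp w := by
  rw [mem_Lam, Complex.exp_sub, div_eq_one_iff_eq (Complex.exp_ne_zero w)]

theorem exp_uu (h : IsModel Y V e) {x : EN M} {a : ℂ} (hx : x ∈ coneOf Y) {c : ℂ} (hc0 : c ≠ 0) (hc : Tendsto (ev e) (𝓝[coneOf V] x) (𝓝 c)) :
    Complex.exp (uu V e a x) = c * Complex.exp (-a) := by
  unfold uu
  rw [sub_eq_add_neg, Complex.exp_add, lm_eq h hx hc, Complex.exp_log hc0]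

/-- the lift of `u` in a chart -/
theorem MCh.uu_sub (h : IsModel Y V e) {hor : Bool} {σ : ℂ × ℂ → EN M} {τ : EN M → ℂ × ℂ} {c : ℂ} {i j : ℕ} {x : EN M}
    (hx : MCh Y V e hor σ τ c i j x) (a : ℂ) : ∀ᶠ y in 𝓝 x, y ∈ coneOf Y → y ∈ XX Y V e ∧ uu V e a y - (c - a + (τ y).1 ^ i * (τ y).2 ^ j) ∈ Lam := by
  filter_upwards [hx.tendsto h.sub] with y hy hyY
  refine ⟨⟨hyY, _, Complex.exp_ne_zero _, hy⟩, ?_⟩
  rw [sub_mem_Lam, exp_uu h hyY (Complex.exp_ne_zero _) hy, ← Complex.exp_add]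
  congr 1
  ring

theorem MCh.uu_sigma (h : IsModel Y V e) {hor : Bool} {σ : ℂ × ℂ → EN M} {τ : EN M → ℂ × ℂ} {c : ℂ} {i j : ℕ} {x : EN M}
    (hx : MCh Y V e hor σ τ c i j x) (a : ℂ) : ∀ᶠ p in 𝓝 (0 : ℂ × ℂ), σ p ∈ XX Y V e ∧ uu V e a (σ p) - (c - a + p.1 ^ i * p.2 ^ j) ∈ Lam := by
  have h1 : Tendsto σ (𝓝 0) (𝓝 x) := by
    have h5 := hx.gp.σ_an.continuousAt.tendsto
    rwa [hx.gp.center] at h5
  filter_upwards [h1.eventually (hx.uu_sub h a), hx.gp.mem, hx.gp.coord] with p hp hp1 hp2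
  obtain ⟨h3, h4⟩ := hp hp1
  rw [hp2, pow_one, pow_one] at h4
  exact ⟨h3, h4⟩

/-! ## the three parts -/

theorem MCh.mem_XX (h : IsModel Y V e) {hor : Bool} {σ : ℂ × ℂ → EN M} {τ : EN M → ℂ × ℂ} {c : ℂ} {i j : ℕ} {x : EN M}
    (hx : MCh Y V e hor σ τ c i j x) : x ∈ XX Y V e := ((hx.uu_sub h 0).self_of_nhds hx.gp.center_mem).1

theorem ECh.mem_DD (h : IsModel Y V e) {k : ℕ} {nd hor : Bool} {σ : ℂ × ℂ → EN M} {τ : EN M → ℂ × ℂ} {x : EN M}
    (hx : ECh Y V e k nd hor σ τ x) : x ∈ DD Y V e := ⟨hx.gp.center_mem, hx.tendsto h.sub⟩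

theorem tendsto_inv_unique (h : IsModel Y V e) {x : EN M} (hx : x ∈ coneOf Y) {c : ℂ} (h1 : Tendsto (ev e) (𝓝[coneOf V] x) (𝓝 c))
    (h2 : Tendsto (ev fun y => (e y)⁻¹) (𝓝[coneOf V] x) (𝓝 0)) : False := by
  haveI := neBot_V h hx
  have h3 : ∀ᶠ y in 𝓝[coneOf V] x, ev e y * ev (fun y => (e y)⁻¹) y = 1 ∨ ev e y = 0 := by
    filter_upwards [self_mem_nhdsWithin] with y hy
    rw [ev_inv e hy.1]
    by_cases h0 : ev e y = 0
    · exact Or.inr h0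
    · exact Or.inl (mul_inv_cancel₀ h0)
  have h4 : Tendsto (fun y => ev e y * ev (fun y => (e y)⁻¹) y) (𝓝[coneOf V] x) (𝓝 0) := by
    have := h1.mul h2
    rwa [mul_zero] at this
  have h5 : ∀ᶠ y in 𝓝[coneOf V] x, ev e y * ev (fun y => (e y)⁻¹) y ≠ 1 := by
    refine h4.eventually_ne ?_
    exact zero_ne_one
  -- `e` is not zero on `V`
  have h6 : ∀ᶠ y in 𝓝[coneOf V] x, ev e y ≠ 0 := by
    filter_upwards [self_mem_nhdsWithin] with y hy
    obtain ⟨hy0, hyV⟩ := hy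
    have hyY : y ∈ coneOf Y := ⟨hy0, h.sub hyV⟩
    rcases cases_point h hyY with ⟨hor, σ, τ, c, i, j, h7⟩ | ⟨k, nd, hor, σ, τ, h7⟩ | ⟨k, nd, hor, σ, τ, h7⟩
    · rw [(h7.loc.self_of_nhds hyY).2 ⟨hy0, hyV⟩]
      exact Complex.exp_ne_zero _
    · exfalso
      have h8 := h7.form.self_of_nhds
      rw [h7.gp.center] at h8
      exact (h8.1.1 ⟨hy0, hyV⟩).1 rfl
    · exfalso
      have h8 := h7.form.self_of_nhds
      rw [h7.gp.center] at h8
      exact (h8.1.1 ⟨hy0, hyV⟩).1 rfl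
  obtain ⟨y, hy1, hy2, hy3⟩ := (h3.and (h5.and h6)).exists
  rcases hy1 with hy1 | hy1
  · exact hy2 hy1
  · exact hy3 hy1

theorem exists_mch (h : IsModel Y V e) {x : EN M} (hx : x ∈ XX Y V e) : ∃ hor σ τ c i j, MCh Y V e hor σ τ c i j x := by
  obtain ⟨hxY, c, hc0, hc⟩ := hx
  rcases cases_point h hxY with h1 | ⟨_, _, _, _, _, h1⟩ | ⟨_, _, _, _, _, h1⟩
  · exact h1
  · exfalso
    haveI := neBot_V h hxY
    exact hc0 (tendsto_nhds_unique hc (h1.tendsto h.sub))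
  · exfalso
    exact tendsto_inv_unique h hxY hc (h1.tendsto h.sub)

/-- the points of `V` -/
theorem exists_inner (h : IsModel Y V e) {x : EN M} (hx : x ∈ coneOf V) : ∃ σ τ c i j, MCh Y V e false σ τ c i j x := by
  rcases cases_point h (coneOf_mono h.sub hx) with ⟨hor, σ, τ, c, i, j, h1⟩ | ⟨k, nd, hor, σ, τ, h7⟩ | ⟨k, nd, hor, σ, τ, h7⟩
  · cases hor with
    | false => exact ⟨σ, τ, c, i, j, h1⟩
    | true =>
      exfalso
      have h8 := h1.form.self_of_nhds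
      rw [h1.gp.center] at h8
      exact h8.1.1 hx rfl rfl
  · exfalso
    have h8 := h7.form.self_of_nhds
    rw [h7.gp.center] at h8
    exact (h8.1.1 hx).1 rfl
  · exfalso
    have h8 := h7.form.self_of_nhds
    rw [h7.gp.center] at h8
    exact (h8.1.1 hx).1 rfl

theorem V_open (h : IsModel Y V e) {x : EN M} (hx : x ∈ coneOf V) : ∀ᶠ y in 𝓝 x, y ∈ coneOf Y → y ∈ coneOf V := by
  obtain ⟨σ, τ, c, i, j, h1⟩ := exists_inner h hx
  filter_upwards [h1.loc] with y hy hyY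
  exact (hy hyY).1.2 (by simp)

theorem V_sub_XX (h : IsModel Y V e) : coneOf V ⊆ XX Y V e := by
  intro x hx
  obtain ⟨σ, τ, c, i, j, h1⟩ := exists_inner h hx
  exact h1.mem_XX h

theorem tendsto_V (h : IsModel Y V e) {x : EN M} (hx : x ∈ coneOf V) : Tendsto (ev e) (𝓝[coneOf V] x) (𝓝 (ev e x)) := by
  obtain ⟨σ, τ, c, i, j, h1⟩ := exists_inner h hx
  have h2 := (h1.tendsto h.sub).self_of_nhds
  rwa [← (h1.loc.self_of_nhds (coneOf_mono h.sub hx)).2 hx] at h2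

theorem ev_ne_zero (h : IsModel Y V e) {x : EN M} (hx : x ∈ coneOf V) : ev e x ≠ 0 := by
  obtain ⟨σ, τ, c, i, j, h1⟩ := exists_inner h hx
  rw [(h1.loc.self_of_nhds (coneOf_mono h.sub hx)).2 hx]
  exact Complex.exp_ne_zero _

theorem exp_uu_V (h : IsModel Y V e) {x : EN M} (hx : x ∈ coneOf V) (a : ℂ) : Complex.exp (uu V e a x) = ev e x * Complex.exp (-a) :=
  exp_uu h (coneOf_mono h.sub hx) (ev_ne_zero h hx) (tendsto_V h hx)

/-- `u x = z` for points of `V` -/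
theorem uu_sub_iff (h : IsModel Y V e) {x : EN M} (hx : x ∈ coneOf V) (a z : ℂ) : uu V e a x - z ∈ Lam ↔ ev e x = Complex.exp (z + a) := by
  rw [sub_mem_Lam, exp_uu_V h hx, Complex.exp_add, Complex.exp_neg, ← div_eq_mul_inv, div_eq_iff (Complex.exp_ne_zero a)]

theorem cover (h : IsModel Y V e) {x : EN M} (hx : x ∈ coneOf Y) : x ∈ XX Y V e ∨ x ∈ DD Y V e ∨ x ∈ DD Y V fun y => (e y)⁻¹ := by
  rcases cases_point h hx with ⟨_, _, _, _, _, _, h1⟩ | ⟨_, _, _, _, _, h1⟩ | ⟨_, _, _, _, _, h1⟩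
  · exact Or.inl (h1.mem_XX h)
  · exact Or.inr (Or.inl (h1.mem_DD h))
  · exact Or.inr (Or.inr ⟨h1.gp.center_mem, h1.tendsto h.sub⟩)

end Pool.Agent.H6.LU

end
end

section

/-!
# LU Bad: the bad set
-/

set_option autoImplicit false

open Topology Filter Metric

open scoped Pointwise

noncomputable section

namespace Pool.Agent.H6.LU

attribute [-instance] ProperSMul.toContinuousSMul

open Pool.Agent.H62.EL (BadSet)

/-- the period group of `V_m` -/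
def Gam (m : ℕ) : AddSubgroup ℂ where
  carrier := {w | Complex.exp (w / m) = 1}
  add_mem' := fun {a b} ha hb => by
    show Complex.exp ((a + b) / m) = 1
    rw [add_div, Complex.exp_add, show Complex.exp (a / m) = 1 from ha, show Complex.exp (b / m) = 1 from hb, one_mul]
  zero_mem' := by
    show Complex.exp (0 / m) = 1
    rw [zero_div, Complex.exp_zero]
  neg_mem' := fun {a} ha => by
    show Complex.exp (-a / m) = 1
    rw [neg_div, Complex.exp_neg, show Complex.exp (a / m) = 1 from ha, inv_one]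

theorem mem_Gam {m : ℕ} {w : ℂ} : w ∈ Gam m ↔ Complex.exp (w / m) = 1 := Iff.rfl

theorem mem_Gam_iff {m : ℕ} (hm : 1 ≤ m) {w : ℂ} : w ∈ Gam m ↔ ∃ n : ℤ, w = n * (2 * Real.pi * Complex.I * m) := by
  have hm0 : (m : ℂ) ≠ 0 := by exact_mod_cast Nat.one_le_iff_ne_zero.1 hm
  rw [mem_Gam, Complex.exp_eq_one_iff]
  constructor
  · rintro ⟨n, hn⟩
    refine ⟨n, ?_⟩
    rw [div_eq_iff hm0] at hn
    rw [hn]
    ring
  · rintro ⟨n, hn⟩
    refine ⟨n, ?_⟩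
    rw [div_eq_iff hm0, hn]
    ring

theorem mem_Lam_iff {w : ℂ} : w ∈ Lam ↔ ∃ n : ℤ, w = n * (2 * Real.pi * Complex.I) := by
  rw [mem_Lam, Complex.exp_eq_one_iff]

theorem Gam_le {m : ℕ} (hm : 1 ≤ m) : Gam m ≤ Lam := by
  intro w hw
  obtain ⟨n, rfl⟩ := (mem_Gam_iff hm).1 hw
  rw [mem_Lam_iff]
  exact ⟨n * m, by push_cast; ring⟩

theorem Gam_cof {m : ℕ} (hm : 1 ≤ m) : ∃ R : ℝ, 0 < R ∧ ∀ l ∈ Lam, ∃ l' ∈ Gam m, ‖l - l'‖ ≤ R := by
  refine ⟨2 * Real.pi * m, by positivity, fun l hl => ?_⟩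
  obtain ⟨n, rfl⟩ := mem_Lam_iff.1 hl
  have hm0 : (m : ℤ) ≠ 0 := by exact_mod_cast Nat.one_le_iff_ne_zero.1 hm
  refine ⟨(n / m : ℤ) * (2 * Real.pi * Complex.I * m), (mem_Gam_iff hm).2 ⟨_, rfl⟩, ?_⟩
  have h1 : (n : ℂ) * (2 * Real.pi * Complex.I) - (n / m : ℤ) * (2 * Real.pi * Complex.I * m) = ((n % m : ℤ) : ℂ) * (2 * Real.pi * Complex.I) := by
    have h2 : (n : ℂ) = ((n % m : ℤ) : ℂ) + (m : ℂ) * ((n / m : ℤ) : ℂ) := by
      have h3 := Int.emod_add_mul_ediv n m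
      have h4 : ((n % m + m * (n / m) : ℤ) : ℂ) = ((n : ℤ) : ℂ) := by rw [h3]
      push_cast at h4 ⊢
      exact h4.symm
    rw [h2]
    ring
  rw [h1, norm_mul, norm_mul, norm_mul, Complex.norm_I, mul_one, Complex.norm_intCast]
  have h5 : |((n % m : ℤ) : ℝ)| ≤ m := by
    rw [abs_of_nonneg (by exact_mod_cast Int.emod_nonneg n hm0)]
    have h6 := (Int.emod_lt_of_pos n (by omega : (0 : ℤ) < m)).le
    exact_mod_cast h6
  have h7 : ‖(2 : ℂ)‖ * ‖(Real.pi : ℂ)‖ = 2 * Real.pi := by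
    rw [Complex.norm_real, Real.norm_of_nonneg Real.pi_pos.le]
    simp
  rw [h7]
  have h8 : 0 ≤ 2 * Real.pi := by positivity
  nlinarith [h5, h8]

theorem Lam_re {l : ℂ} (hl : l ∈ Lam) : l.re = 0 := by
  obtain ⟨n, rfl⟩ := mem_Lam_iff.1 hl
  simp

theorem Lam_isClosed : IsClosed (Lam : Set ℂ) := by
  have h1 : (Lam : Set ℂ) = Complex.exp ⁻¹' {1} := rfl
  rw [h1]
  exact isClosed_singleton.preimage Complex.continuous_exp

theorem Lam_norm {l : ℂ} (hl : l ∈ Lam) (h0 : l ≠ 0) : 2 * Real.pi ≤ ‖l‖ := by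
  obtain ⟨n, rfl⟩ := mem_Lam_iff.1 hl
  have hn : n ≠ 0 := by
    rintro rfl
    simp at h0
  rw [norm_mul, norm_mul, norm_mul, Complex.norm_I, mul_one, Complex.norm_intCast, Complex.norm_real, Real.norm_of_nonneg Real.pi_pos.le]
  have h1 : (1 : ℝ) ≤ |(n : ℝ)| := by
    have h2 := Int.one_le_abs hn
    exact_mod_cast h2
  have h3 : ‖(2 : ℂ)‖ = 2 := by simp
  rw [h3]
  nlinarith [Real.pi_pos]

theorem dsc_Lam : Pool.Agent.H18.LU.Dsc Lam := by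
  refine ⟨1, one_pos, fun l hl h1 => ?_⟩
  by_contra h0
  have h2 := Lam_norm hl h0
  have h3 := Real.pi_gt_three
  linarith

/-- the logarithms of the bad values of `e`, translated by `a` -/
def BB (B₁ : Set ℂ) (a : ℂ) : Set ℂ := {b | Complex.exp (b + a) ∈ B₁}

theorem exp_close {w : ℂ} {δ : ℝ} (hδ : δ ≤ 1 / 8) (hw : ‖w‖ < 8 * δ) : ‖Complex.exp w - 1‖ ≤ 16 * δ := by
  have h1 := Complex.norm_exp_sub_one_le (x := w) (by linarith)
  linarith

theorem exists_gap {B₁ : Set ℂ} (hB : B₁.Finite) {w : ℂ} (hw : w ≠ 0) : ∃ η : ℝ, 0 < η ∧ ∀ c ∈ B₁, c ≠ w → η ≤ ‖c / w - 1‖ := by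
  have h1 : (fun c => ‖c / w - 1‖) '' (B₁ \ {w}) ⊆ Set.Ioi 0 := by
    rintro _ ⟨c, ⟨hc, hcw⟩, rfl⟩
    refine norm_pos_iff.2 fun h2 => hcw ?_
    rw [sub_eq_zero, div_eq_one_iff_eq hw] at h2
    exact h2
  have h2 : ((fun c => ‖c / w - 1‖) '' (B₁ \ {w})).Finite := (hB.subset Set.sdiff_subset).image _
  by_cases hne : ((fun c => ‖c / w - 1‖) '' (B₁ \ {w})).Nonempty
  · obtain ⟨η, hη, hmin⟩ := h2.exists_minimalFor id _ hne
    refine ⟨η, h1 hη, fun c hc hcw => ?_⟩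
    by_contra hlt
    push Not at hlt
    have h3 := hmin ⟨c, ⟨hc, hcw⟩, rfl⟩ hlt.le
    exact absurd h3 (not_le.2 hlt)
  · refine ⟨1, one_pos, fun c hc hcw => ?_⟩
    exact absurd ⟨_, c, ⟨hc, hcw⟩, rfl⟩ hne

theorem bad_set {B₁ : Set ℂ} (hB : B₁.Finite) (h0 : (0 : ℂ) ∉ B₁) {a : ℂ} (ha : Complex.exp a ∉ B₁) :
    ∃ δ₀ : ℝ, 0 < δ₀ ∧ ∀ δ : ℝ, 0 < δ → δ ≤ δ₀ → BadSet (BB B₁ a) Lam δ ∧ ∀ b ∈ BB B₁ a, 4 * δ ≤ ‖b‖ := by
  -- a common gap
  have hgap : ∃ η : ℝ, 0 < η ∧ ∀ w ∈ B₁ ∪ {Complex.exp a}, ∀ c ∈ B₁, c ≠ w → η ≤ ‖c / w - 1‖ := by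
    have h1 : ∀ S : Set ℂ, S.Finite → S ⊆ B₁ ∪ {Complex.exp a} → ∃ η : ℝ, 0 < η ∧ ∀ w ∈ S, ∀ c ∈ B₁, c ≠ w → η ≤ ‖c / w - 1‖ := by
      intro S hS
      induction S, hS using Set.Finite.induction_on with
      | empty => exact fun _ => ⟨1, one_pos, fun w hw => absurd hw (Set.notMem_empty _)⟩
      | @insert x S hx hS ih =>
        intro hsub
        obtain ⟨η, hη, h2⟩ := ih fun y hy => hsub (Set.mem_insert_of_mem _ hy)
        have hx0 : x ≠ 0 := by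
          rintro rfl
          rcases hsub (Set.mem_insert _ _) with h3 | h3
          · exact h0 h3
          · exact Complex.exp_ne_zero a (Set.mem_singleton_iff.1 h3).symm
        obtain ⟨η', hη', h3⟩ := exists_gap hB hx0
        refine ⟨min η η', lt_min hη hη', fun w hw c hc hcw => ?_⟩
        rcases Set.mem_insert_iff.1 hw with rfl | hw
        · exact (min_le_right _ _).trans (h3 c hc hcw)
        · exact (min_le_left _ _).trans (h2 w hw c hc hcw)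
    exact h1 _ (hB.union (Set.finite_singleton _)) (le_refl _)
  obtain ⟨η, hη, hgap⟩ := hgap
  refine ⟨min (1 / 8) (η / 32), by positivity, fun δ hδ hδ₀ => ?_⟩
  have hδ1 : δ ≤ 1 / 8 := hδ₀.trans (min_le_left _ _)
  have hδ2 : 16 * δ < η := by
    have := hδ₀.trans (min_le_right _ _)
    linarith
  refine ⟨⟨hδ, ?_, ?_⟩, ?_⟩
  · intro b hb l hl
    show Complex.exp (b + l + a) ∈ B₁
    have h1 : b + l + a = (b + a) + l := by ring
    rw [h1, Complex.exp_add, mem_Lam.1 hl, mul_one]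
    exact hb
  · intro b hb b' hb' hne
    by_contra hlt
    push Not at hlt
    by_cases heq : Complex.exp (b + a) = Complex.exp (b' + a)
    · have h1 : b - b' ∈ Lam := by
        have h2 := sub_mem_Lam.2 heq
        have h3 : b + a - (b' + a) = b - b' := by ring
        rwa [h3] at h2
      have h2 := Lam_norm h1 (sub_ne_zero.2 hne)
      have h3 := Real.pi_gt_three
      linarith
    · have h1 := hgap _ (Or.inl hb') _ hb heq
      rw [← Complex.exp_sub] at h1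
      have h3 : b + a - (b' + a) = b - b' := by ring
      rw [h3] at h1
      have h4 := exp_close hδ1 hlt
      linarith
  · intro b hb
    by_contra hlt
    push Not at hlt
    have h1 := hgap _ (Or.inr rfl) _ hb (fun h => ha (h ▸ hb))
    rw [← Complex.exp_sub] at h1
    have h3 : b + a - a = b := by ring
    rw [h3] at h1
    have h4 := exp_close (w := b) hδ1 (by linarith)
    linarith

theorem bad_re {B₁ : Set ℂ} (hB : B₁.Finite) (a : ℂ) : ∃ W : ℝ, 0 < W ∧ ∀ b ∈ BB B₁ a, |b.re| ≤ W := by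
  obtain ⟨W, hW⟩ := (hB.image fun c => |Real.log ‖c‖ - a.re|).bddAbove
  refine ⟨max W 1, by positivity, fun b hb => ?_⟩
  have h1 := hW ⟨_, hb, rfl⟩
  simp only at h1
  rw [Complex.norm_exp, Real.log_exp, Complex.add_re, add_sub_cancel_right] at h1
  exact h1.trans (le_max_left _ _)

theorem Nb_closed (R : ℝ) : IsClosed (Pool.Agent.H18.LU.Nb Lam R) := by
  have h1 : Pool.Agent.H18.LU.Nb Lam R = (Lam : Set ℂ) + closedBall (0 : ℂ) R := by
    ext z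
    rw [Set.mem_add]
    constructor
    · rintro ⟨l, hl, h⟩
      exact ⟨l, hl, z - l, by simpa using h, by ring⟩
    · rintro ⟨l, hl, w, hw, rfl⟩
      exact ⟨l, hl, by simpa using hw⟩
  rw [h1]
  exact Lam_isClosed.add_right_of_isCompact (isCompact_closedBall _ _)

end Pool.Agent.H6.LU

end
end

section

/-!
# LU Crit: the critical values of the boundary curve
-/

set_option autoImplicit false

open Topology Filter Metric

noncomputable section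

namespace Pool.Agent.H6.LU

attribute [-instance] ProperSMul.toContinuousSMul

open Pool.Agent.H17 (PN HolomorphicInto)
open Pool.Agent.H36.BP (EN coneOf coneOf_smul ne_zero_of_ofLp ofLp_ne_zero)
open Pool.Agent.H4.LU (Mem val IsParam IsInner IsHorChart IsEndChart IsEnd IsRegularEnd IsModel)

variable {M : ℕ}

/-! ## scaling -/

theorem GP.smul {X : Set (EN M)} (hX : ∀ x ∈ X, ∀ c : ℂ, c ≠ 0 → c • x ∈ X) {k : ℕ} {σ : ℂ × ℂ → EN M} {τ : EN M → ℂ × ℂ} {x : EN M}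
    (h : GP X k σ τ x) {c : ℂ} (hc : c ≠ 0) : GP X k (fun p => c • σ p) (fun y => τ (c⁻¹ • y)) (c • x) := by
  have hcc : ∀ x : EN M, c⁻¹ • c • x = x := fun x => by rw [smul_smul, inv_mul_cancel₀ hc, one_smul]
  have hcc' : ∀ x : EN M, c • c⁻¹ • x = x := fun x => by rw [smul_smul, mul_inv_cancel₀ hc, one_smul]
  have hcont : Tendsto (fun y : EN M => c⁻¹ • y) (𝓝 (c • x)) (𝓝 x) := by
    have h2 := (continuous_const_smul c⁻¹ : Continuous fun y : EN M => c⁻¹ • y).tendsto (c • x)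
    rwa [hcc] at h2
  refine ⟨?_, ?_, ?_, ?_, ?_, ?_, ?_, ?_⟩
  · exact ((c • ContinuousLinearMap.id ℂ (EN M)).analyticAt _).comp h.σ_an
  · have h1 : AnalyticAt ℂ (fun y : EN M => c⁻¹ • y) (c • x) := ((c⁻¹ • ContinuousLinearMap.id ℂ (EN M)).analyticAt _)
    have h2 : AnalyticAt ℂ τ (c⁻¹ • (c • x)) := by rw [hcc]; exact h.τ_an
    exact AnalyticAt.comp (g := τ) (f := fun y : EN M => c⁻¹ • y) h2 h1
  · simp only [h.center]
  · filter_upwards [h.mem] with p hp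
    exact hX _ hp c hc
  · filter_upwards [h.coord] with p hp
    rw [hcc, hp]
  · filter_upwards [hcont.eventually h.onto] with y hy hyX
    obtain ⟨a, p, ha, h1, h2⟩ := hy (hX _ hyX _ (inv_ne_zero hc))
    refine ⟨a, p, ha, ?_, h2⟩
    rw [smul_comm, ← h1, hcc']
  · have h1 : Tendsto (fun z : EN M × ℂ => (c⁻¹ • z.1, z.2)) (𝓝 (c • x, (1 : ℂ))) (𝓝 (x, (1 : ℂ))) := by
      rw [nhds_prod_eq, nhds_prod_eq]
      exact hcont.prodMap tendsto_id
    filter_upwards [h1.eventually h.inv] with z hz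
    rw [smul_comm]
    exact hz
  · filter_upwards [h.quot] with p hp ζ hζ
    obtain ⟨a, ha, h1⟩ := hp ζ hζ
    refine ⟨a, ha, ?_⟩
    rw [h1, smul_comm]

variable {Y V : Set (PN M)} {e : PN M → ℂ}

theorem MCh.smul {hor : Bool} {σ : ℂ × ℂ → EN M} {τ : EN M → ℂ × ℂ} {c : ℂ} {i j : ℕ} {x : EN M} (h : MCh Y V e hor σ τ c i j x) {a : ℂ}
    (ha : a ≠ 0) : MCh Y V e hor (fun p => a • σ p) (fun y => τ (a⁻¹ • y)) c i j (a • x) := by
  refine ⟨h.gp.smul (fun x hx c hc => coneOf_smul hx hc) ha, h.i_pos, h.j_zero, ?_⟩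
  filter_upwards [h.form] with p hp
  rw [coneOf_smul_iff ha, ev_smul _ _ ha]
  exact hp

theorem tendsto_smul_nhdsWithin (V : Set (PN M)) (x : EN M) {a : ℂ} (ha : a ≠ 0) :
    Tendsto (fun y : EN M => a • y) (𝓝[coneOf V] x) (𝓝[coneOf V] (a • x)) := by
  refine tendsto_nhdsWithin_iff.2 ⟨?_, ?_⟩
  · exact ((continuous_const_smul a : Continuous fun y : EN M => a • y).tendsto x).mono_left nhdsWithin_le_nhds
  · filter_upwards [self_mem_nhdsWithin] with y hy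
    exact coneOf_smul hy ha

theorem tendsto_ev_smul {x : EN M} {a c : ℂ} (ha : a ≠ 0) (h : Tendsto (ev e) (𝓝[coneOf V] x) (𝓝 c)) :
    Tendsto (ev e) (𝓝[coneOf V] (a • x)) (𝓝 c) := by
  have h1 := tendsto_smul_nhdsWithin V (a • x) (inv_ne_zero ha)
  rw [smul_smul, inv_mul_cancel₀ ha, one_smul] at h1
  refine (h.comp h1).congr fun y => ?_
  exact ev_smul e y (inv_ne_zero ha)

theorem tendsto_inv {x : EN M} {c : ℂ} (hc : c ≠ 0) (h : Tendsto (ev e) (𝓝[coneOf V] x) (𝓝 c)) :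
    Tendsto (ev fun y => (e y)⁻¹) (𝓝[coneOf V] x) (𝓝 c⁻¹) := by
  refine (h.inv₀ hc).congr' ?_
  filter_upwards [self_mem_nhdsWithin] with y hy
  exact (ev_inv e hy.1).symm

theorem tendsto_of_inv {x : EN M} {c : ℂ} (hc : c ≠ 0) (h : Tendsto (ev fun y => (e y)⁻¹) (𝓝[coneOf V] x) (𝓝 c)) :
    Tendsto (ev e) (𝓝[coneOf V] x) (𝓝 c⁻¹) := by
  refine (h.inv₀ hc).congr' ?_
  filter_upwards [self_mem_nhdsWithin] with y hy
  rw [ev_inv e hy.1, inv_inv]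

/-! ## limits in charts -/

/-- in a chart of order `1` -/
theorem tendsto_chart (hm : V ⊆ Y) {σ : ℂ × ℂ → EN M} {τ : EN M → ℂ × ℂ} {x : EN M} (h : GP (coneOf Y) 1 σ τ x) {E : ℂ × ℂ → ℂ}
    (hE : ∀ᶠ p in 𝓝 (0 : ℂ × ℂ), ContinuousAt E p) (hf : ∀ᶠ p in 𝓝 (0 : ℂ × ℂ), σ p ∈ coneOf V → ev e (σ p) = E p) :
    ∀ᶠ p in 𝓝 (0 : ℂ × ℂ), Tendsto (ev e) (𝓝[coneOf V] (σ p)) (𝓝 (E p)) := by
  have hx : x ≠ 0 := coneOf_ne h.center_mem
  have h1 : Tendsto σ (𝓝 0) (𝓝 x) := by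
    have h5 := h.σ_an.continuousAt.tendsto
    rwa [h.center] at h5
  filter_upwards [h1.eventually (h.near1 hx hf univ_mem).eventually_nhds, h.coord, hE, h1.eventually h.τ_an.eventually_analyticAt] with p hp hp2 hpE hpτ
  rw [pow_one, pow_one] at hp2
  have h2 : Tendsto (fun y => E (τ y)) (𝓝[coneOf V] (σ p)) (𝓝 (E p)) := by
    have h3 : ContinuousAt (fun y => E (τ y)) (σ p) := by
      refine ContinuousAt.comp (g := E) ?_ hpτ.continuousAt
      rw [hp2]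
      exact hpE
    have h4 := h3.tendsto
    rw [hp2] at h4
    exact h4.mono_left nhdsWithin_le_nhds
  refine h2.congr' ?_
  filter_upwards [mem_nhdsWithin_of_mem_nhds hp, self_mem_nhdsWithin] with y hy hyV
  obtain ⟨a, ha, -, h3⟩ := hy.2 (coneOf_mono hm hyV)
  have h4 : σ (τ y) ∈ coneOf V := by
    rw [h3, coneOf_smul_iff ha] at hyV
    exact hyV
  conv_rhs => rw [h3, ev_smul _ _ ha]
  exact (hy.1 h4).symm

theorem sigma_tendsto {σ : ℂ × ℂ → EN M} {p : ℂ × ℂ} (hσ : ContinuousAt σ p)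
    (hV : ∀ᶠ q in 𝓝 p, q.1 ≠ 0 → q.2 ≠ 0 → σ q ∈ coneOf V) :
    Tendsto σ (𝓝[{q | q.1 ≠ 0 ∧ q.2 ≠ 0}] p) (𝓝[coneOf V] (σ p)) := by
  refine tendsto_nhdsWithin_iff.2 ⟨hσ.tendsto.mono_left nhdsWithin_le_nhds, ?_⟩
  filter_upwards [mem_nhdsWithin_of_mem_nhds hV, self_mem_nhdsWithin] with q hq1 hq2
  exact hq1 hq2.1 hq2.2

theorem neBot_axes (p : ℂ × ℂ) : (𝓝[{q : ℂ × ℂ | q.1 ≠ 0 ∧ q.2 ≠ 0}] p).NeBot := by
  have h : {q : ℂ × ℂ | q.1 ≠ 0 ∧ q.2 ≠ 0} = ({0}ᶜ : Set ℂ) ×ˢ ({0}ᶜ : Set ℂ) := by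
    ext q
    simp
  rw [h, ← mem_closure_iff_nhdsWithin_neBot, closure_prod_eq]
  have h1 : closure ({0}ᶜ : Set ℂ) = Set.univ := (dense_compl_singleton (0 : ℂ)).closure_eq
  rw [h1]
  exact ⟨Set.mem_univ _, Set.mem_univ _⟩

/-- near an end chart the limit of `e` at a point with a limit `≠ 0` is given by the chart -/
theorem ECh.limit {k : ℕ} {nd hor : Bool} {σ : ℂ × ℂ → EN M} {τ : EN M → ℂ × ℂ} {x : EN M}
    (h : ECh Y V e k nd hor σ τ x) : ∀ᶠ p in 𝓝 (0 : ℂ × ℂ), ∀ w : ℂ, Tendsto (ev e) (𝓝[coneOf V] (σ p)) (𝓝 w) →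
      w = if nd = true then p.1 * p.2 else p.1 := by
  filter_upwards [h.form.eventually_nhds, h.gp.σ_an.eventually_analyticAt] with p hp hpσ w hw
  have h1 := sigma_tendsto (V := V) hpσ.continuousAt (by
    filter_upwards [hp] with q hq h1 h2
    exact hq.1.2 ⟨h1, fun _ => h2⟩)
  haveI := neBot_axes p
  have h2 := hw.comp h1
  have h3 : Tendsto (fun q : ℂ × ℂ => if nd = true then q.1 * q.2 else q.1) (𝓝[{q | q.1 ≠ 0 ∧ q.2 ≠ 0}] p)
      (𝓝 (if nd = true then p.1 * p.2 else p.1)) := by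
    have h4 : Continuous (fun q : ℂ × ℂ => if nd = true then q.1 * q.2 else q.1) := by
      split_ifs
      · exact continuous_fst.mul continuous_snd
      · exact continuous_fst
    exact (h4.tendsto p).mono_left nhdsWithin_le_nhds
  refine tendsto_nhds_unique h2 (h3.congr' ?_)
  filter_upwards [mem_nhdsWithin_of_mem_nhds hp, self_mem_nhdsWithin] with q hq1 hq2
  exact (hq1.2 (hq1.1.2 ⟨hq2.1, fun _ => hq2.2⟩)).symm

/-! ## critical points of the boundary curve -/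

/-- the limit at the centre -/
theorem MCh.tendsto_center (hm : V ⊆ Y) {hor : Bool} {σ : ℂ × ℂ → EN M} {τ : EN M → ℂ × ℂ} {c : ℂ} {i j : ℕ} {x : EN M}
    (h : MCh Y V e hor σ τ c i j x) : Tendsto (ev e) (𝓝[coneOf V] x) (𝓝 (Complex.exp c)) := by
  have h1 := (h.tendsto hm).self_of_nhds
  rw [h.gp.tau_zero le_rfl] at h1
  have h2 : (0 : ℂ × ℂ).1 ^ i = 0 := by
    rw [Prod.fst_zero, zero_pow]
    exact Nat.one_le_iff_ne_zero.1 h.i_pos
  rwa [h2, zero_mul, add_zero] at h1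

/-- a curve through the centre of a chart along which `e` has a derivative `≠ 0` -/
theorem mch_one (h : IsModel Y V e) {σ : ℂ × ℂ → EN M} {τ : EN M → ℂ × ℂ} {c : ℂ} {i j : ℕ} {y : EN M}
    (hy : MCh Y V e true σ τ c i j y) {γ : ℂ → EN M} (hγ : AnalyticAt ℂ γ 0) (h0 : γ 0 = y) {g : ℂ → ℂ} {g' : ℂ} (hg : HasDerivAt g g' 0)
    (hg' : g' ≠ 0) (hlim : ∀ᶠ s in 𝓝 (0 : ℂ), γ s ∈ coneOf Y ∧ Tendsto (ev e) (𝓝[coneOf V] (γ s)) (𝓝 (g s))) : i < 2 := by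
  by_contra hi
  push Not at hi
  have hj : j = 0 := hy.j_zero rfl
  have h1 : Tendsto γ (𝓝 0) (𝓝 y) := by
    have := hγ.continuousAt.tendsto
    rwa [h0] at this
  have hT : AnalyticAt ℂ (fun s => τ (γ s)) 0 := AnalyticAt.comp (g := τ) (f := γ) (by rw [h0]; exact hy.gp.τ_an) hγ
  have hT1 : AnalyticAt ℂ (fun s => (τ (γ s)).1) 0 := analyticAt_fst.comp hT
  have hT0 : (τ (γ 0)).1 = 0 := by rw [h0, hy.gp.tau_zero le_rfl]; rfl
  have h2 : g =ᶠ[𝓝 0] fun s => Complex.exp (c + (τ (γ s)).1 ^ i) := by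
    filter_upwards [hlim, h1.eventually (hy.tendsto h.sub)] with s hs1 hs2
    haveI := neBot_V h hs1.1
    rw [hj, pow_zero, mul_one] at hs2
    exact tendsto_nhds_unique hs1.2 hs2
  have h3 : HasDerivAt (fun s => Complex.exp (c + (τ (γ s)).1 ^ i))
      (Complex.exp (c + (τ (γ 0)).1 ^ i) * ((i : ℂ) * (τ (γ 0)).1 ^ (i - 1) * deriv (fun s => (τ (γ s)).1) 0)) 0 := by
    have h4 := (hT1.differentiableAt.hasDerivAt.pow i).const_add c
    exact h4.cexp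
  have h5 : (τ (γ 0)).1 ^ (i - 1) = 0 := by
    rw [hT0, zero_pow]
    omega
  rw [h5, mul_zero, zero_mul, mul_zero] at h3
  exact hg' ((hg.congr_of_eventuallyEq h2.symm).unique h3)

/-- the critical values of the boundary curve over `ℂ^*` -/
def CV (Y V : Set (PN M)) (e : PN M → ℂ) : Set ℂ := {w | ∃ x σ τ c i j, MCh Y V e true σ τ c i j x ∧ 2 ≤ i ∧ w = Complex.exp c}

theorem notMem_of_hor {σ : ℂ × ℂ → EN M} {τ : EN M → ℂ × ℂ} {c : ℂ} {i j : ℕ} {y : EN M} (hy : MCh Y V e true σ τ c i j y) : y ∉ coneOf V := by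
  have h8 := hy.form.self_of_nhds
  rw [hy.gp.center] at h8
  intro h9
  exact h8.1.1 h9 rfl rfl

theorem curve_an {σ : ℂ × ℂ → EN M} {a s₀ t₀ : ℂ} (h : AnalyticAt ℂ σ (s₀, t₀)) : AnalyticAt ℂ (fun s : ℂ => a • σ (s₀ + s, t₀)) 0 := by
  have h1 : AnalyticAt ℂ (fun s : ℂ => ((s₀ + s, t₀) : ℂ × ℂ)) 0 := (analyticAt_const.add analyticAt_id).prod analyticAt_const
  have h2 : AnalyticAt ℂ (fun s : ℂ => σ (s₀ + s, t₀)) 0 :=
    AnalyticAt.comp (g := σ) (f := fun s : ℂ => ((s₀ + s, t₀) : ℂ × ℂ)) (by simpa using h) h1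
  exact ((a • ContinuousLinearMap.id ℂ (EN M)).analyticAt _).comp h2

/-- the argument for the end charts -/
theorem end_crit (h : IsModel Y V e) {e' : PN M → ℂ} {k : ℕ} {nd hor : Bool} {σ₀ : ℂ × ℂ → EN M} {τ₀ : EN M → ℂ × ℂ} {x : EN M}
    (hx : ECh Y V e' k nd hor σ₀ τ₀ x) :
    ∀ᶠ y in 𝓝 x, y ∈ coneOf Y → y ∉ coneOf V → ∀ w : ℂ, w ≠ 0 → Tendsto (ev e') (𝓝[coneOf V] y) (𝓝 w) →
      ∃ (γ : ℂ → EN M) (s₀ : ℂ), AnalyticAt ℂ γ 0 ∧ γ 0 = y ∧ s₀ ≠ 0 ∧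
        ∀ᶠ s in 𝓝 (0 : ℂ), γ s ∈ coneOf Y ∧ Tendsto (ev e') (𝓝[coneOf V] (γ s)) (𝓝 (s₀ + s)) := by
  have hW1 := hx.limit
  -- the limit in the case `nd = false`
  have hW2 : ∀ᶠ p in 𝓝 (0 : ℂ × ℂ), nd = false → Tendsto (ev e') (𝓝[coneOf V] (σ₀ p)) (𝓝 p.1) := by
    by_cases hnd : nd = false
    · have hk := hx.nd_k hnd
      have hgp : GP (coneOf Y) 1 σ₀ τ₀ x := hk ▸ hx.gp
      have h1 := tendsto_chart h.sub hgp (E := fun p => p.1) (e := e') (Eventually.of_forall fun p => continuous_fst.continuousAt) (by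
        filter_upwards [hx.form] with p hp hpV
        have := hp.2 hpV
        rwa [hnd] at this)
      filter_upwards [h1] with p hp _ using hp
    · filter_upwards with p hp
      exact absurd hp hnd
  have hW3 := hx.gp.mem
  have hW := hW1.and (hW2.eventually_nhds.and (hW3.eventually_nhds.and hx.gp.σ_an.eventually_analyticAt))
  filter_upwards [hx.loc hW univ_mem] with y hy hyY hyV w hw hlim
  obtain ⟨a, p, ha, -, ⟨hp1, hp2, hp3, hp4⟩, hya, -, hpV, -⟩ := hy hyY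
  -- the limit at the point of the chart
  have hlim' : Tendsto (ev e') (𝓝[coneOf V] (σ₀ p)) (𝓝 w) := by
    have h1 := tendsto_ev_smul (x := y) (inv_ne_zero ha) hlim
    rwa [hya, smul_smul, inv_mul_cancel₀ ha, one_smul] at h1
  have hw2 := hp1 w hlim'
  have hnot : ¬ (p.1 ≠ 0 ∧ (nd = true ∨ hor = true → p.2 ≠ 0)) := fun h1 => hyV (hpV.2 h1)
  by_cases hnd : nd = true
  · exfalso
    rw [if_pos hnd] at hw2
    apply hnot
    refine ⟨fun h1 => hw (by rw [hw2, h1, zero_mul]), fun _ h1 => hw (by rw [hw2, h1, mul_zero])⟩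
  · have hnd' : nd = false := by simpa using hnd
    rw [if_neg hnd] at hw2
    have hp10 : p.1 ≠ 0 := fun h1 => hw (by rw [hw2, h1])
    refine ⟨fun s => a • σ₀ (p.1 + s, p.2), p.1, curve_an hp4, ?_, hp10, ?_⟩
    · simp only [add_zero]
      exact hya.symm
    · have hc : Tendsto (fun s : ℂ => ((p.1 + s, p.2) : ℂ × ℂ)) (𝓝 0) (𝓝 p) := by
        have h1 : Continuous fun s : ℂ => ((p.1 + s, p.2) : ℂ × ℂ) := by fun_prop
        have h2 := h1.tendsto 0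
        simpa using h2
      filter_upwards [hc.eventually hp2, hc.eventually hp3] with s hs1 hs2
      exact ⟨coneOf_smul hs2 ha, tendsto_ev_smul ha (hs1 hnd')⟩

theorem crit_local (h : IsModel Y V e) {x : EN M} (hx : x ∈ coneOf Y) : ∃ F : Set ℂ, F.Finite ∧ ∀ᶠ y in 𝓝 x,
    ∀ σ τ c i j, MCh Y V e true σ τ c i j y → 2 ≤ i → Complex.exp c ∈ F := by
  rcases cases_point h hx with ⟨hor, σ₀, τ₀, c₀, i₀, j₀, h1⟩ | ⟨k, nd, hor, σ₀, τ₀, h1⟩ | ⟨k, nd, hor, σ₀, τ₀, h1⟩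
  · refine ⟨{Complex.exp c₀}, Set.finite_singleton _, ?_⟩
    have hcont : ∀ᶠ p in 𝓝 (0 : ℂ × ℂ), ContinuousAt (fun p : ℂ × ℂ => Complex.exp (c₀ + p.1 ^ i₀ * p.2 ^ j₀)) p := by
      filter_upwards with p
      fun_prop
    have hW1 := tendsto_chart h.sub h1.gp hcont (by filter_upwards [h1.form] with p hp using hp.2)
    have hW := hW1.eventually_nhds.and (h1.gp.mem.eventually_nhds.and (h1.gp.σ_an.eventually_analyticAt.and h1.form))
    filter_upwards [h1.gp.near1 h1.ne hW univ_mem] with y hy σ τ c i j hyc hi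
    obtain ⟨⟨hp1, hp2, hp4, hp5⟩, hya⟩ := hy
    obtain ⟨a, ha, -, hya⟩ := hya hyc.gp.center_mem
    set p := τ₀ y with hp
    have hlim : Tendsto (ev e) (𝓝[coneOf V] y) (𝓝 (Complex.exp c)) := hyc.tendsto_center h.sub
    have hlim' : Tendsto (ev e) (𝓝[coneOf V] y) (𝓝 (Complex.exp (c₀ + p.1 ^ i₀ * p.2 ^ j₀))) := by
      have h2 := tendsto_ev_smul ha hp1.self_of_nhds
      rwa [← hya] at h2
    haveI := neBot_V h hyc.gp.center_mem
    have heq := tendsto_nhds_unique hlim hlim'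
    have hyV : σ₀ p ∉ coneOf V := by
      intro h2
      have h3 := coneOf_smul h2 ha
      rw [← hya] at h3
      exact notMem_of_hor hyc h3
    -- the point is on the boundary curve
    have hhor : hor = true ∧ p.2 = 0 := by
      by_contra hcon
      apply hyV
      rw [hp5.1]
      intro h2 h3
      exact hcon ⟨h2, h3⟩
    have hj₀ : j₀ = 0 := h1.j_zero hhor.1
    by_cases hs : p.1 = 0
    · rw [Set.mem_singleton_iff, heq, hs, zero_pow (Nat.one_le_iff_ne_zero.1 h1.i_pos), zero_mul, add_zero]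
    · exfalso
      have hc : Tendsto (fun s : ℂ => ((p.1 + s, p.2) : ℂ × ℂ)) (𝓝 0) (𝓝 p) := by
        have h1 : Continuous fun s : ℂ => ((p.1 + s, p.2) : ℂ × ℂ) := by fun_prop
        have h2 := h1.tendsto 0
        simpa using h2
      have hg : HasDerivAt (fun s : ℂ => Complex.exp (c₀ + (p.1 + s) ^ i₀)) (Complex.exp (c₀ + (p.1 + 0) ^ i₀) * ((i₀ : ℂ) * (p.1 + 0) ^ (i₀ - 1) * 1)) 0 :=
        ((((hasDerivAt_id (0 : ℂ)).const_add p.1).pow i₀).const_add c₀).cexp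
      have := mch_one h hyc (γ := fun s => a • σ₀ (p.1 + s, p.2)) (curve_an hp4) (by simp only [add_zero]; exact hya.symm) hg (by
        rw [add_zero, mul_one]
        refine mul_ne_zero (Complex.exp_ne_zero _) (mul_ne_zero ?_ (pow_ne_zero _ hs))
        exact_mod_cast Nat.one_le_iff_ne_zero.1 h1.i_pos) (by
        filter_upwards [hc.eventually hp1, hc.eventually hp2] with s hs1 hs2
        rw [hj₀, pow_zero, mul_one] at hs1
        exact ⟨coneOf_smul hs2 ha, tendsto_ev_smul ha hs1⟩)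
      omega
  · refine ⟨∅, Set.finite_empty, ?_⟩
    filter_upwards [end_crit h h1] with y hy σ τ c i j hyc hi
    exfalso
    obtain ⟨γ, s₀, hγ, hγ0, hs₀, hlim⟩ := hy hyc.gp.center_mem (notMem_of_hor hyc) _ (Complex.exp_ne_zero c) (hyc.tendsto_center h.sub)
    have hg : HasDerivAt (fun s : ℂ => s₀ + s) 1 0 := (hasDerivAt_id (0 : ℂ)).const_add s₀
    have := mch_one h hyc hγ hγ0 hg one_ne_zero hlim
    omega
  · refine ⟨∅, Set.finite_empty, ?_⟩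
    filter_upwards [end_crit h h1] with y hy σ τ c i j hyc hi
    exfalso
    obtain ⟨γ, s₀, hγ, hγ0, hs₀, hlim⟩ := hy hyc.gp.center_mem (notMem_of_hor hyc) _ (inv_ne_zero (Complex.exp_ne_zero c))
      (tendsto_inv (Complex.exp_ne_zero c) (hyc.tendsto_center h.sub))
    have hg : HasDerivAt (fun s : ℂ => (s₀ + s)⁻¹) (-1 / (s₀ + 0) ^ 2) 0 := ((hasDerivAt_id (0 : ℂ)).const_add s₀).inv (by simpa using hs₀)
    have hne : ∀ᶠ s in 𝓝 (0 : ℂ), s₀ + s ≠ 0 := by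
      have h2 : ContinuousAt (fun s : ℂ => s₀ + s) 0 := by fun_prop
      exact h2.eventually_ne (by simpa using hs₀)
    have := mch_one h hyc hγ hγ0 hg (by
      rw [add_zero]
      exact div_ne_zero (neg_ne_zero.2 one_ne_zero) (pow_ne_zero 2 hs₀)) (by
      filter_upwards [hlim, hne] with s hs1 hs2
      exact ⟨hs1.1, tendsto_of_inv hs2 hs1.2⟩)
    omega

theorem closed_coneOf (h : IsModel Y V e) : ∀ x ∈ closure (coneOf Y), x ≠ 0 → x ∈ coneOf Y := by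
  intro x hx hx0
  refine h.closed x.ofLp (ofLp_ne_zero hx0) ?_
  have h1 := (pl M).continuous.continuousAt.continuousWithinAt (s := coneOf Y) (x := x)
  have h2 := h1.mem_closure_image hx
  refine closure_mono ?_ h2
  rintro _ ⟨y, hy, rfl⟩
  exact hy

theorem isCompact_unit (h : IsModel Y V e) : IsCompact {x : EN M | x ∈ coneOf Y ∧ ‖x‖ = 1} := by
  refine IsCompact.of_isClosed_subset (isCompact_sphere (0 : EN M) 1) ?_ ?_
  · rw [← closure_subset_iff_isClosed]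
    intro x hx
    have h1 : ‖x‖ = 1 := by
      have h2 : closure {x : EN M | x ∈ coneOf Y ∧ ‖x‖ = 1} ⊆ {x | ‖x‖ = 1} :=
        closure_minimal (fun y hy => hy.2) (isClosed_eq continuous_norm continuous_const)
      exact h2 hx
    refine ⟨closed_coneOf h x (closure_mono (fun y hy => hy.1) hx) ?_, h1⟩
    rintro rfl
    rw [norm_zero] at h1
    exact zero_ne_one h1
  · rintro x ⟨-, hx⟩
    simpa using hx

theorem finite_CV (h : IsModel Y V e) : (CV Y V e).Finite := by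
  have h1 : ∃ F : Set ℂ, F.Finite ∧ ∀ y ∈ {x : EN M | x ∈ coneOf Y ∧ ‖x‖ = 1}, ∀ σ τ c i j, MCh Y V e true σ τ c i j y → 2 ≤ i → Complex.exp c ∈ F := by
    refine (isCompact_unit h).induction_on (p := fun S => ∃ F : Set ℂ, F.Finite ∧ ∀ y ∈ S, ∀ σ τ c i j, MCh Y V e true σ τ c i j y → 2 ≤ i → Complex.exp c ∈ F)
      ⟨∅, Set.finite_empty, fun y hy => absurd hy (Set.notMem_empty _)⟩ ?_ ?_ ?_
    · rintro S T hST ⟨F, hF, hFT⟩
      exact ⟨F, hF, fun y hy => hFT y (hST hy)⟩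
    · rintro S T ⟨F, hF, hFS⟩ ⟨F', hF', hFT⟩
      refine ⟨F ∪ F', hF.union hF', fun y hy σ τ c i j hyc hi => ?_⟩
      rcases hy with hy | hy
      · exact Or.inl (hFS y hy σ τ c i j hyc hi)
      · exact Or.inr (hFT y hy σ τ c i j hyc hi)
    · rintro x ⟨hx, -⟩
      obtain ⟨F, hF, hev⟩ := crit_local h hx
      exact ⟨{y | ∀ σ τ c i j, MCh Y V e true σ τ c i j y → 2 ≤ i → Complex.exp c ∈ F}, mem_nhdsWithin_of_mem_nhds hev, F, hF, fun y hy => hy⟩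
  obtain ⟨F, hF, hFy⟩ := h1
  refine hF.subset ?_
  rintro w ⟨x, σ, τ, c, i, j, hx, hi, rfl⟩
  have hx0 : ‖x‖ ≠ 0 := norm_ne_zero_iff.2 hx.ne
  have ha : ((‖x‖ : ℂ)⁻¹) ≠ 0 := inv_ne_zero (by exact_mod_cast hx0)
  refine hFy ((‖x‖ : ℂ)⁻¹ • x) ⟨coneOf_smul hx.gp.center_mem ha, ?_⟩ _ _ c i j (hx.smul ha) hi
  rw [norm_smul, norm_inv, Complex.norm_real, norm_norm, inv_mul_cancel₀ hx0]

end Pool.Agent.H6.LU

end
end

section

/-!
# LU LBs: the geometric data `LBase` of a model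
-/

set_option autoImplicit false

open Topology Filter Metric

noncomputable section

namespace Pool.Agent.H6.LU

attribute [-instance] ProperSMul.toContinuousSMul

open Pool.Agent.H17 (PN HolomorphicInto)
open Pool.Agent.H36.BP (EN coneOf coneOf_smul ne_zero_of_ofLp ofLp_ne_zero IsGermChart)
open Pool.Agent.H4.LU (Mem val IsParam IsInner IsHorChart IsEndChart IsEnd IsRegularEnd IsModel)
open Pool.Agent.H18.LU (OCone Dsc Nb part HorAt LFib LBase)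
open Pool.Agent.H62.EF (TorusMap Charts)
open Pool.Agent.H62.EL (BadSet IsNC)

variable {M : ℕ} {Y V : Set (PN M)} {e : PN M → ℂ}

/-- the boundary curve over `ℂ^*` -/
def DH (Y V : Set (PN M)) (e : PN M → ℂ) : Set (EN M) := {x | x ∈ XX Y V e ∧ x ∉ coneOf V}

theorem ocone_XX (Y V : Set (PN M)) (e : PN M → ℂ) : OCone (XX Y V e) where
  zero_notMem := fun h => zero_notMem_coneOf Y h.1
  smul_mem := by
    rintro x ⟨hx, c, hc0, hc⟩ a ha
    exact ⟨coneOf_smul hx ha, c, hc0, tendsto_ev_smul ha hc⟩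

theorem XX_diff (h : IsModel Y V e) : XX Y V e \ DH Y V e = coneOf V := by
  ext x
  constructor
  · rintro ⟨h1, h2⟩
    by_contra h3
    exact h2 ⟨h1, h3⟩
  · intro h1
    exact ⟨V_sub_XX h h1, fun h2 => h2.2 h1⟩

theorem GP.germ {X : Set (EN M)} {σ : ℂ × ℂ → EN M} {τ : EN M → ℂ × ℂ} {x : EN M} (h : GP X 1 σ τ x) : IsGermChart X σ τ where
  σ_an := h.σ_an
  σ_mem := h.mem
  τ_an := by rw [h.center]; exact h.τ_an
  left := by
    filter_upwards [h.coord] with p hp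
    rw [hp, pow_one, pow_one]
  right := by
    rw [h.center]
    filter_upwards [h.onto] with y hy hyX
    obtain ⟨a, p, ha, h1, h2⟩ := hy hyX
    rw [pow_one, pow_one] at h2
    exact ⟨a, ha, by rw [h2]; exact h1⟩
  inv := by rw [h.center]; exact h.inv

theorem MCh.germ (h : IsModel Y V e) {hor : Bool} {σ : ℂ × ℂ → EN M} {τ : EN M → ℂ × ℂ} {c : ℂ} {i j : ℕ} {x : EN M}
    (hx : MCh Y V e hor σ τ c i j x) : IsGermChart (XX Y V e) σ τ := by
  have h1 := hx.gp.germ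
  exact ⟨h1.σ_an, (hx.uu_sigma h 0).mono fun p hp => hp.1, h1.τ_an, h1.left, h1.right.mono fun y hy hyX => hy hyX.1, h1.inv⟩

/-- the translation of the base -/
theorem uu_mem {x : EN M} (h : IsModel Y V e) {w : ℂ} (hx : x ∈ coneOf Y) (hw : w ≠ 0) (hlim : Tendsto (ev e) (𝓝[coneOf V] x) (𝓝 w)) (a z : ℂ) :
    uu V e a x - z ∈ Lam ↔ w = Complex.exp (z + a) := by
  rw [sub_mem_Lam, exp_uu h hx hw hlim, Complex.exp_add, Complex.exp_neg, ← div_eq_mul_inv, div_eq_iff (Complex.exp_ne_zero a)]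

theorem torus_XX (h : IsModel Y V e) (a : ℂ) : TorusMap (XX Y V e) Lam (uu V e a) where
  smul := by
    rintro x ⟨hx, w, hw, hlim⟩ c hc
    rw [uu_mem h (coneOf_smul hx hc) hw (tendsto_ev_smul hc hlim)]
    have h1 : uu V e a x - uu V e a x ∈ Lam := by
      rw [sub_self]
      exact Lam.zero_mem
    exact (uu_mem h hx hw hlim a _).1 h1
  loc := by
    intro x hx
    obtain ⟨hor, σ, τ, c, i, j, h1⟩ := exists_mch h hx
    refine ⟨fun y => c - a + (τ y).1 ^ i * (τ y).2 ^ j, ?_, ?_⟩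
    · have h2 := h1.gp.τ_an
      have h3 : AnalyticAt ℂ (fun y => (τ y).1) x := analyticAt_fst.comp h2
      have h4 : AnalyticAt ℂ (fun y => (τ y).2) x := analyticAt_snd.comp h2
      exact analyticAt_const.add ((h3.pow i).mul (h4.pow j))
    · filter_upwards [h1.uu_sub h a] with y hy hyX
      exact (hy hyX.1).2

/-- the distance to the period group -/
theorem Nb_congr {z w : ℂ} (h : z - w ∈ Lam) {R : ℝ} (hz : z ∈ Nb Lam R) : w ∈ Nb Lam R := by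
  obtain ⟨l, hl, h1⟩ := hz
  refine ⟨l - (z - w), Lam.sub_mem hl h, ?_⟩
  have h2 : w - (l - (z - w)) = z - l := by ring
  rw [h2]
  exact h1

theorem Nb_re {z : ℂ} {R : ℝ} (hz : z ∈ Nb Lam R) : |z.re| ≤ R := by
  obtain ⟨l, hl, h1⟩ := hz
  have h2 := (Complex.abs_re_le_norm (z - l)).trans h1
  rwa [Complex.sub_re, Lam_re hl, sub_zero] at h2

/-- near a point over `0` the function `e` is small -/
theorem small_near {e' : PN M → ℂ} {x : EN M} (hx : Tendsto (ev e') (𝓝[coneOf V] x) (𝓝 0)) {ε : ℝ} (hε : 0 < ε) :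
    ∀ᶠ y in 𝓝 x, ∀ w : ℂ, (𝓝[coneOf V] y).NeBot → Tendsto (ev e') (𝓝[coneOf V] y) (𝓝 w) → ‖w‖ ≤ ε := by
  have h1 := Metric.tendsto_nhds.1 hx ε hε
  have h2 : ∀ᶠ y in 𝓝 x, y ∈ coneOf V → dist (ev e' y) 0 < ε := eventually_nhdsWithin_iff.1 h1
  filter_upwards [h2.eventually_nhds] with y hy w hne hw
  refine le_of_tendsto hw.norm ?_
  rw [eventually_nhdsWithin_iff]
  filter_upwards [hy] with y' hy' hyV
  have := hy' hyV
  rw [dist_zero_right] at this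
  exact this.le

theorem closed_part (h : IsModel Y V e) (a : ℂ) (R : ℝ) : IsClosed (insert (0 : EN M) (part (XX Y V e) Lam (uu V e a) R)) := by
  rw [← closure_subset_iff_isClosed]
  intro x hx
  by_cases hx0 : x = 0
  · exact Or.inl hx0
  right
  have hxS : x ∈ closure (part (XX Y V e) Lam (uu V e a) R) := by
    rw [Set.insert_eq, closure_union, closure_singleton] at hx
    exact hx.resolve_left hx0
  have hxY : x ∈ coneOf Y := closed_coneOf h x (closure_mono (fun y hy => hy.1.1) hxS) hx0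
  rw [mem_closure_iff_frequently] at hxS
  rcases cover h hxY with h1 | h1 | h1
  · refine ⟨h1, ?_⟩
    obtain ⟨v, hv, hvu⟩ := (torus_XX h a).loc x h1
    have hfr : ∃ᶠ y in 𝓝 x, v y ∈ Nb Lam R := by
      refine (hxS.and_eventually hvu).mono ?_
      rintro y ⟨⟨hy1, hy2⟩, hy3⟩
      exact Nb_congr (hy3 hy1) hy2
    have h2 : v x ∈ Nb Lam R := by
      have h3 : v x ∈ closure (Nb Lam R) := by
        rw [mem_closure_iff_frequently]
        exact hv.continuousAt.tendsto.frequently hfr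
      rwa [(Nb_closed R).closure_eq] at h3
    have h3 : v x - uu V e a x ∈ Lam := by
      have h4 := Lam.neg_mem (hvu.self_of_nhds h1)
      rwa [neg_sub] at h4
    exact Nb_congr h3 h2
  · exfalso
    have hε : 0 < Real.exp (a.re - R) / 2 := by positivity
    obtain ⟨y, ⟨⟨hyY, w, hw0, hw⟩, hy2⟩, hy3⟩ := (hxS.and_eventually (small_near h1.2 hε)).exists
    have h4 := hy3 w (neBot_V h hyY) hw
    have h5 := Nb_re hy2
    have h6 := congrArg norm (exp_uu (a := a) h hyY hw0 hw)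
    rw [Complex.norm_exp, norm_mul, Complex.norm_exp, Complex.neg_re] at h6
    have h7 : Real.exp (a.re - R) ≤ ‖w‖ := by
      have h8 : ‖w‖ = Real.exp ((uu V e a y).re + a.re) := by
        rw [Real.exp_add, h6, mul_assoc, ← Real.exp_add, neg_add_cancel, Real.exp_zero, mul_one]
      rw [h8]
      refine Real.exp_le_exp.2 ?_
      have := (abs_le.1 h5).1
      linarith
    have h9 : 0 < Real.exp (a.re - R) := Real.exp_pos _
    linarith
  · exfalso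
    have hε : 0 < Real.exp (-(a.re + R)) / 2 := by positivity
    obtain ⟨y, ⟨⟨hyY, w, hw0, hw⟩, hy2⟩, hy3⟩ := (hxS.and_eventually (small_near h1.2 hε)).exists
    have h4 := hy3 w⁻¹ (neBot_V h hyY) (tendsto_inv hw0 hw)
    have h5 := Nb_re hy2
    have h6 := congrArg norm (exp_uu (a := a) h hyY hw0 hw)
    rw [Complex.norm_exp, norm_mul, Complex.norm_exp, Complex.neg_re] at h6
    have h7 : Real.exp (-(a.re + R)) ≤ ‖w⁻¹‖ := by
      have h8 : ‖w‖ = Real.exp ((uu V e a y).re + a.re) := by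
        rw [Real.exp_add, h6, mul_assoc, ← Real.exp_add, neg_add_cancel, Real.exp_zero, mul_one]
      rw [norm_inv, h8, ← Real.exp_neg]
      refine Real.exp_le_exp.2 ?_
      have := (abs_le.1 h5).2
      linarith
    have h9 : 0 < Real.exp (-(a.re + R)) := Real.exp_pos _
    linarith

theorem charts_XX (h : IsModel Y V e) : Charts (XX Y V e) := by
  intro x hx
  obtain ⟨hor, σ, τ, c, i, j, h1⟩ := exists_mch h hx
  obtain ⟨χ, h2, h3⟩ := exists_chart_of_germ (ocone_XX Y V e) (h1.germ h)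
  rw [h1.gp.center] at h2 h3
  exact ⟨χ, h2, h3⟩

/-- the chart at a point of the boundary curve -/
theorem exists_horAt (h : IsModel Y V e) {x : EN M} (hx : x ∈ DH Y V e) : ∃ σ τ c i, MCh Y V e true σ τ c i 0 x := by
  obtain ⟨hor, σ, τ, c, i, j, h1⟩ := exists_mch h hx.1
  cases hor with
  | false =>
    exfalso
    have h8 := h1.form.self_of_nhds
    rw [h1.gp.center] at h8
    exact hx.2 (h8.1.2 (by simp))
  | true =>
    have hj := h1.j_zero rfl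
    subst hj
    exact ⟨σ, τ, c, i, h1⟩

theorem MCh.horAt (h : IsModel Y V e) {σ : ℂ × ℂ → EN M} {τ : EN M → ℂ × ℂ} {c : ℂ} {i : ℕ} {x : EN M}
    (hx : MCh Y V e true σ τ c i 0 x) {a b : ℂ} (hb : uu V e a x - b ∈ Lam) : HorAt (XX Y V e) Lam (uu V e a) (DH Y V e) x b i := by
  have h0 : uu V e a x - (c - a) ∈ Lam := (uu_mem h hx.gp.center_mem (Complex.exp_ne_zero c) (hx.tendsto_center h.sub) a _).2 (by
    congr 1
    ring)
  have h1 : c - a - b ∈ Lam := by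
    have h2 := Lam.sub_mem hb h0
    have h3 : uu V e a x - b - (uu V e a x - (c - a)) = c - a - b := by ring
    rwa [h3] at h2
  refine ⟨σ, τ, hx.germ h, hx.gp.center, ?_, ?_⟩
  · filter_upwards [hx.uu_sigma h a] with p hp
    have h2 := Lam.add_mem hp.2 h1
    have h3 : uu V e a (σ p) - (c - a + p.1 ^ i * p.2 ^ 0) + (c - a - b) = uu V e a (σ p) - (b + p.1 ^ i) := by
      rw [pow_zero]
      ring
    rwa [h3] at h2
  · filter_upwards [hx.form, hx.uu_sigma h a] with p hp hp2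
    constructor
    · rintro ⟨-, h2⟩
      by_contra h3
      exact h2 (hp.1.2 fun _ => h3)
    · intro h2
      exact ⟨hp2.1, fun h3 => hp.1.1 h3 rfl h2⟩

/-- **The geometric data.** -/
theorem lbase (h : IsModel Y V e) {m : ℕ} (hm : 1 ≤ m) {B₁ : Set ℂ} {a : ℂ} {δ : ℝ} (hbad : BadSet (BB B₁ a) Lam δ) (hzero : ∀ b ∈ BB B₁ a, 4 * δ ≤ ‖b‖)
    (hCV : CV Y V e ⊆ B₁)
    (hfib : ∀ c, c ∉ B₁ → ∀ f : ℂ → PN M, HolomorphicInto f Set.univ → (∀ z, f z ∈ V ∧ e (f z) = c) → ∀ z w, f z = f w) :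
    LBase (XX Y V e) (DH Y V e) Lam (Gam m) (uu V e a) (BB B₁ a) δ where
  cone := ocone_XX Y V e
  closed := closed_part h a
  charts := charts_XX h
  tor := torus_XX h a
  dsc := dsc_Lam
  le := Gam_le hm
  cof := Gam_cof hm
  bad := hbad
  zero := hzero
  D_sub := fun x hx => hx.1
  D_smul := fun x hx c hc => ⟨(ocone_XX Y V e).smul_mem x hx.1 c hc, fun h1 => hx.2 ((coneOf_smul_iff hc).1 h1)⟩
  D_closed := by
    intro x hx hxD
    have hxV : x ∈ coneOf V := by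
      by_contra h1
      exact hxD ⟨hx, h1⟩
    filter_upwards [V_open h hxV] with y hy hyD
    exact hyD.2 (hy hyD.1.1)
  hor := by
    intro x hx hxB
    obtain ⟨σ, τ, c, i, h1⟩ := exists_horAt h hx
    have h0 : uu V e a x - (c - a) ∈ Lam := (uu_mem h h1.gp.center_mem (Complex.exp_ne_zero c) (h1.tendsto_center h.sub) a _).2 (by
      congr 1
      ring)
    have hi : i = 1 := by
      by_contra hne
      have hi2 : 2 ≤ i := by
        have := h1.i_pos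
        omega
      refine hxB (c - a) ?_ h0
      show Complex.exp (c - a + a) ∈ B₁
      rw [sub_add_cancel]
      exact hCV ⟨x, σ, τ, c, i, 0, h1, hi2, rfl⟩
    subst hi
    exact h1.horAt h (by rw [sub_self]; exact Lam.zero_mem)
  fib := by
    intro F hF hFX hFu hne
    by_contra hcon
    push Not at hcon
    have hV : ∀ z, F z ∈ coneOf V := fun z => by
      by_contra h1
      exact (hFX z).2 ⟨(hFX z).1, h1⟩
    set c := ev e (F 0) with hc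
    have hcB : c ∉ B₁ := by
      intro h1
      refine hcon (uu V e a (F 0)) ?_ (by rw [sub_self]; exact Lam.zero_mem)
      show Complex.exp (uu V e a (F 0) + a) ∈ B₁
      rw [Complex.exp_add, exp_uu_V h (hV 0), mul_assoc, ← Complex.exp_add, neg_add_cancel, Complex.exp_zero, mul_one]
      exact h1
    have hconst : ∀ z, ev e (F z) = c := by
      intro z
      have h1 := (sub_mem_Lam.1 (hFu z 0))
      rw [exp_uu_V h (hV z), exp_uu_V h (hV 0)] at h1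
      exact mul_right_cancel₀ (Complex.exp_ne_zero _) h1
    have hall := hfib c hcB (fun z => Projectivization.mk ℂ (F z).ofLp (hV z).1) (by
      intro z _
      refine ⟨fun w => (F w).ofLp, Pool.Agent.H36.BP.analyticAt_ofLp (hF.analyticAt z), Eventually.of_forall fun w => ⟨(hV w).1, rfl⟩⟩) (by
      intro z
      refine ⟨(hV z).2, ?_⟩
      exact (ev_of (e := e) (hV z).1).symm.trans (hconst z))
    obtain ⟨z, w, hzw⟩ := hne
    have h2 := hall z w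
    rw [Projectivization.mk_eq_mk_iff'] at h2
    obtain ⟨b, hb⟩ := h2
    refine hzw b ?_
    ext i
    exact (congrFun hb i).symm
  horB := by
    intro b _ x hx hb
    obtain ⟨σ, τ, c, i, h1⟩ := exists_horAt h hx
    exact ⟨i, h1.i_pos, h1.horAt h hb⟩
  nc := by
    intro b _ x hx hxD hb
    have hxV : x ∈ coneOf V := by
      by_contra h1
      exact hxD ⟨hx, h1⟩
    obtain ⟨σ, τ, c, i, j, h1⟩ := exists_inner h hxV
    have h0 : uu V e a x - (c - a) ∈ Lam := (uu_mem h h1.gp.center_mem (Complex.exp_ne_zero c) (h1.tendsto_center h.sub) a _).2 (by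
      congr 1
      ring)
    have h2 : c - a - b ∈ Lam := by
      have h2 := Lam.sub_mem hb h0
      have h3 : uu V e a x - b - (uu V e a x - (c - a)) = c - a - b := by ring
      rwa [h3] at h2
    refine ⟨σ, τ, i, j, h1.germ h, h1.gp.center, by have := h1.i_pos; omega, ?_⟩
    filter_upwards [h1.uu_sigma h a] with p hp
    have h3 := Lam.add_mem hp.2 h2
    have h4 : uu V e a (σ p) - (c - a + p.1 ^ i * p.2 ^ j) + (c - a - b) = uu V e a (σ p) - (b + p.1 ^ i * p.2 ^ j) := by ring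
    rwa [h4] at h3

end Pool.Agent.H6.LU

end
end

section

/-!
# LU Fm: the form on the cone
-/

set_option autoImplicit false

open Topology Filter Metric

noncomputable section

namespace Pool.Agent.H6.LU

attribute [-instance] ProperSMul.toContinuousSMul

open Pool.Agent.H17 (PN HolomorphicInto)
open Pool.Agent.H36.BP (EN coneOf coneOf_smul ne_zero_of_ofLp ofLp_ne_zero IsGermChart)
open Pool.Agent.H4.LU (Mem val IsParam IsInner IsHorChart IsEndChart IsEnd IsRegularEnd IsModel Over IsTangent IsLogForm VanishesOver IsNowhereZero)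
open Pool.Agent.H18.LU (OCone Dsc Nb part HorAt LFib LBase LogP)
open Pool.Agent.H62.EF (TorusMap Charts pr MN)
open Pool.Agent.H62.EL (BadSet IsNC TForm Per VanZero Thin tc)
open Pool.Agent.H14.PP (Tan CurveAt Chart jac)

variable {M : ℕ} {Y V : Set (PN M)} {e : PN M → ℂ}

theorem tan_isTangent {x v : EN M} (h : Tan (coneOf V) x v) : IsTangent V x.ofLp v.ofLp := by
  obtain ⟨F, ⟨hF, hFV⟩, h0, hd⟩ := h
  refine ⟨fun z => pl M (F z), ((pl M).analyticAt _).comp hF, by simp only [h0]; rfl, ?_, hFV⟩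
  have h1 : HasDerivAt (fun z => pl M (F z)) (pl M (deriv F 0)) 0 := (pl M).hasFDerivAt.comp_hasDerivAt 0 hF.differentiableAt.hasDerivAt
  rw [h1.deriv, hd]
  rfl

theorem tangent_tan {x v : EN M} (h : IsTangent V x.ofLp v.ofLp) : Tan (coneOf V) x v := by
  obtain ⟨γ, hγ, h0, hd, hV⟩ := h
  refine ⟨fun z => lp M (γ z), ⟨((lp M).analyticAt _).comp hγ, hV⟩, by simp only [h0]; rfl, ?_⟩
  have h1 : HasDerivAt (fun z => lp M (γ z)) (lp M (deriv γ 0)) 0 := (lp M).hasFDerivAt.comp_hasDerivAt 0 hγ.differentiableAt.hasDerivAt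
  rw [h1.deriv, hd]
  rfl

theorem over_iff (h : IsModel Y V e) {x : EN M} (hx : x ∈ coneOf V) (a z : ℂ) : uu V e a x - z ∈ Lam ↔ Over V e (z + a) x.ofLp := by
  rw [uu_sub_iff h hx]
  exact ⟨fun h1 => ⟨hx, h1⟩, fun h1 => h1.2⟩

/-- the form on the cone -/
def tf (h : IsModel Y V e) {m : ℕ} {Ω : ℂ → (Fin (M + 1) → ℂ) → (Fin (M + 1) → ℂ) → (Fin (M + 1) → ℂ) → ℂ} (hΩ : IsLogForm Y V e m Ω) (a : ℂ)
    {K : Set (EN M)} (hK : K = coneOf V) : TForm K Lam (uu V e a) where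
  toFun := fun z x v w => Ω (z + a) x.ofLp v.ofLp w.ofLp
  add_smul := by
    subst hK
    intro z x hx hz v w hv hw b b'
    exact hΩ.horizontal _ _ ((over_iff h hx a z).1 hz) _ _ (tan_isTangent hv) (tan_isTangent hw) b b'
  det := by
    subst hK
    intro z x hx hz v w hv hw b b' c d
    exact hΩ.alternating _ _ ((over_iff h hx a z).1 hz) _ _ (tan_isTangent hv) (tan_isTangent hw) b b' c d
  scale := by
    subst hK
    intro z x hx hz v w hv hw c hc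
    exact hΩ.homogeneous _ _ ((over_iff h hx a z).1 hz) _ _ (tan_isTangent hv) (tan_isTangent hw) c hc
  analytic := by
    subst hK
    intro φ υ p hφ hυ hev
    have h1 := hΩ.holomorphic (fun y => pl M (φ y)) (fun y => υ y + a) p (((pl M).analyticAt _).comp hφ) (hυ.add analyticAt_const) (by
      filter_upwards [hev] with y hy
      exact (over_iff h hy.1 a _).1 hy.2)
    refine h1.congr ?_
    filter_upwards [hφ.eventually_analyticAt] with y hy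
    have h2 : fderiv ℂ (fun y => pl M (φ y)) y = (pl M).comp (fderiv ℂ φ y) := by
      have h3 : HasFDerivAt (fun y => pl M (φ y)) ((pl M).comp (fderiv ℂ φ y)) y := (pl M).hasFDerivAt.comp y hy.differentiableAt.hasFDerivAt
      exact h3.fderiv
    rw [h2]
    rfl

variable {m : ℕ} {Ω : ℂ → (Fin (M + 1) → ℂ) → (Fin (M + 1) → ℂ) → (Fin (M + 1) → ℂ) → ℂ}

theorem over_shift {z : ℂ} {x : Fin (M + 1) → ℂ} (m : ℕ) : Over V e (z + 2 * Real.pi * Complex.I * m) x ↔ Over V e z x := by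
  have h1 : Complex.exp (z + 2 * Real.pi * Complex.I * m) = Complex.exp z := by
    have h2 : z + 2 * Real.pi * Complex.I * m = z + m * (2 * Real.pi * Complex.I) := by ring
    rw [h2, Complex.exp_add, Complex.exp_nat_mul_two_pi_mul_I, mul_one]
  unfold Over
  rw [h1]

theorem per_nat (hΩ : IsLogForm Y V e m Ω) (n : ℕ) : ∀ z x, Over V e z x → ∀ v w, IsTangent V x v → IsTangent V x w →
    Ω (z + n * (2 * Real.pi * Complex.I * m)) x v w = Ω z x v w := by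
  induction n with
  | zero =>
    intro z x _ v w _ _
    rw [Nat.cast_zero, zero_mul, add_zero]
  | succ n ih =>
    intro z x hz v w hv hw
    have h1 : z + ((n + 1 : ℕ) : ℂ) * (2 * Real.pi * Complex.I * m) = (z + n * (2 * Real.pi * Complex.I * m)) + 2 * Real.pi * Complex.I * m := by
      push_cast
      ring
    rw [h1, hΩ.periodic _ x ?_ v w hv hw, ih z x hz v w hv hw]
    have h2 : ∀ k : ℕ, Over V e (z + k * (2 * Real.pi * Complex.I * m)) x := by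
      intro k
      induction k with
      | zero => rwa [Nat.cast_zero, zero_mul, add_zero]
      | succ k ihk =>
        have h3 : z + ((k + 1 : ℕ) : ℂ) * (2 * Real.pi * Complex.I * m) = (z + k * (2 * Real.pi * Complex.I * m)) + 2 * Real.pi * Complex.I * m := by
          push_cast
          ring
        rw [h3, over_shift]
        exact ihk
    exact h2 n

theorem per_tf (h : IsModel Y V e) (hm : 1 ≤ m) (hΩ : IsLogForm Y V e m Ω) (a : ℂ) {K : Set (EN M)} (hK : K = coneOf V) :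
    Per (tf h hΩ a hK) (Gam m) := by
  subst hK
  intro z l hl x hx hz v w hv hw
  have hz' := (over_iff h hx a z).1 hz
  obtain ⟨n, rfl⟩ := (mem_Gam_iff hm).1 hl
  show Ω (z + n * (2 * Real.pi * Complex.I * m) + a) x.ofLp v.ofLp w.ofLp = Ω (z + a) x.ofLp v.ofLp w.ofLp
  rcases Int.eq_nat_or_neg n with ⟨k, rfl | rfl⟩
  · have h1 := per_nat hΩ k (z + a) _ hz' _ _ (tan_isTangent hv) (tan_isTangent hw)
    rw [← h1]
    congr 1
    push_cast
    ring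
  · have hk : Over V e (z + ((-(k : ℤ) : ℤ) : ℂ) * (2 * Real.pi * Complex.I * m) + a) x.ofLp := by
      refine (over_iff h hx a _).1 ?_
      have h2 : uu V e a x - (z + ((-(k : ℤ) : ℤ) : ℂ) * (2 * Real.pi * Complex.I * m)) = (uu V e a x - z) - ((-(k : ℤ) : ℤ) : ℂ) * (2 * Real.pi * Complex.I * m) := by ring
      rw [h2]
      exact Lam.sub_mem hz (Gam_le hm ((mem_Gam_iff hm).2 ⟨_, rfl⟩))
    have h1 := per_nat hΩ k _ _ hk _ _ (tan_isTangent hv) (tan_isTangent hw)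
    rw [← h1]
    congr 1
    push_cast
    ring

theorem vanZero_tf (h : IsModel Y V e) (hΩ : IsLogForm Y V e m Ω) {a : ℂ} (hv : VanishesOver V e Ω a) {K : Set (EN M)} (hK : K = coneOf V) :
    VanZero (tf h hΩ a hK) := by
  subst hK
  intro x hx hz v w hv' hw'
  have h1 := (over_iff h hx a 0).1 (by rwa [sub_zero])
  show Ω (0 + a) x.ofLp v.ofLp w.ofLp = 0
  rw [zero_add] at h1 ⊢
  exact hv _ h1 _ _ (tan_isTangent hv') (tan_isTangent hw')

theorem Tan.smul {K : Set (EN M)} (hK : ∀ x ∈ K, ∀ c : ℂ, c ≠ 0 → c • x ∈ K) {x v : EN M} (h : Tan K x v) {c : ℂ} (hc : c ≠ 0) : Tan K (c • x) (c • v) := by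
  obtain ⟨F, ⟨hF, hFV⟩, h0, hd⟩ := h
  refine ⟨fun z => c • F z, ⟨((c • ContinuousLinearMap.id ℂ (EN M)).analyticAt _).comp hF, hFV.mono fun z hz => hK _ hz c hc⟩, by simp only [h0], ?_⟩
  have h1 : HasDerivAt (fun z => c • F z) (c • deriv F 0) 0 := hF.differentiableAt.hasDerivAt.const_smul c
  rw [h1.deriv, hd]

theorem thin_tf (h : IsModel Y V e) (hΩ : IsLogForm Y V e m Ω) (hn : IsNowhereZero V e Ω) (a : ℂ) {K : Set (EN M)} (hK : K = coneOf V) :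
    Thin (tf h hΩ a hK) := by
  subst hK
  intro χ υ p hp hυ hl hcon
  have hOC : OCone (coneOf V) := ⟨zero_notMem_coneOf V, fun x hx c hc => coneOf_smul hx hc⟩
  have hm := χ.σ_mem p hp
  have hover : Over V e (υ p + a) (χ.σ p).ofLp := (over_iff h hm.1 a _).1 hl.self_of_nhds
  have hfr := hn _ _ hover
  have htor : TorusMap (coneOf V) Lam (uu V e a) := by
    refine ⟨fun x hx => (torus_XX h a).smul x (V_sub_XX h hx), fun x hx => ?_⟩
    obtain ⟨v, hv, hvu⟩ := (torus_XX h a).loc x (V_sub_XX h hx)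
    exact ⟨v, hv, hvu.mono fun y hy hyV => hy (V_sub_XX h hyV)⟩
  -- the point of the chart
  have hq : Tendsto (fun q : ℂ × (Fin (M + 1) → ℂ) => χ.q (lp M q.2)) (𝓝 (υ p + a, (χ.σ p).ofLp)) (𝓝 p) := by
    have h1 : Tendsto (fun q : ℂ × (Fin (M + 1) → ℂ) => lp M q.2) (𝓝 (υ p + a, (χ.σ p).ofLp)) (𝓝 (χ.σ p)) := by
      have h2 : Continuous fun q : ℂ × (Fin (M + 1) → ℂ) => lp M q.2 := (lp M).continuous.comp continuous_snd
      exact h2.tendsto _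
    have h2 := (χ.q_an _ hm.2.1).continuousAt.tendsto
    rw [hm.2.2] at h2
    exact h2.comp h1
  have hU : ∀ᶠ q : ℂ × (Fin (M + 1) → ℂ) in 𝓝 (υ p + a, (χ.σ p).ofLp), lp M q.2 ∈ χ.U := by
    have h2 : Continuous fun q : ℂ × (Fin (M + 1) → ℂ) => lp M q.2 := (lp M).continuous.comp continuous_snd
    exact (h2.tendsto _).eventually (χ.isOpen_U.mem_nhds hm.2.1)
  have hball : ∀ᶠ y in 𝓝 p, y ∈ ball (0 : ℂ × ℂ) 2 := isOpen_ball.mem_nhds hp
  have hz : ∀ᶠ q : ℂ × (Fin (M + 1) → ℂ) in 𝓝 (υ p + a, (χ.σ p).ofLp), ‖q.1 - (υ (χ.q (lp M q.2)) + a)‖ < 1 := by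
    have h1 : Tendsto (fun q : ℂ × (Fin (M + 1) → ℂ) => q.1 - (υ (χ.q (lp M q.2)) + a)) (𝓝 (υ p + a, (χ.σ p).ofLp)) (𝓝 (υ p + a - (υ p + a))) := by
      have h2 : Tendsto (fun q : ℂ × (Fin (M + 1) → ℂ) => υ (χ.q (lp M q.2))) (𝓝 (υ p + a, (χ.σ p).ofLp)) (𝓝 (υ p)) := hυ.continuousAt.tendsto.comp hq
      exact (continuous_fst.tendsto _).sub (h2.add tendsto_const_nhds)
    rw [sub_self] at h1
    have h3 := h1.norm
    rw [norm_zero] at h3
    exact h3.eventually_lt_const one_pos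
  obtain ⟨⟨z', x'⟩, ⟨hov, v, w, hv, hw, hne⟩, hx'U, ⟨hx'b, hx'l, hx'0⟩, hz'⟩ :=
    (hfr.and_eventually (hU.and ((hq.eventually (hball.and (hl.and hcon))).and hz))).exists
  simp only at hov hv hw hne hx'U hx'b hx'l hx'0 hz'
  set x : EN M := lp M x' with hx
  set y := χ.q x with hy
  have hxV : x ∈ coneOf V := hov.1
  obtain ⟨-, c, hc, hxc⟩ := χ.surj x hxV hx'U
  have hy' := χ.σ_mem y hx'b
  -- the two lifts of `e` agree
  have hzl : z' - (υ y + a) ∈ Lam := by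
    have h1 : uu V e a x - (z' - a) ∈ Lam := (over_iff h hxV a _).2 (by rwa [sub_add_cancel])
    have h2 : uu V e a x - uu V e a (χ.σ y) ∈ Lam := by
      have h3 := htor.smul _ hy'.1 c hc
      rwa [← hxc] at h3
    have h3 := Lam.sub_mem (Lam.add_mem hx'l h2) h1
    have h4 : uu V e a (χ.σ y) - υ y + (uu V e a x - uu V e a (χ.σ y)) - (uu V e a x - (z' - a)) = z' - (υ y + a) := by ring
    rwa [h4] at h3
  have hzeq : z' = υ y + a := by
    by_contra hne'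
    have h1 := Lam_norm hzl (sub_ne_zero.2 hne')
    have h2 := Real.pi_gt_three
    linarith
  apply hne
  have h0 : tc (tf h hΩ a rfl) χ υ y = 0 := hx'0
  obtain ⟨x₀, hx₀, hpr, hz₀, hall⟩ := (Pool.Agent.H18.LU.zr_iffO hOC htor (tf h hΩ a rfl) χ hx'b hx'l).2 h0
  -- `x` is a multiple of `x₀`
  have hprx : pr x = pr x₀ := by
    rw [hpr]
    exact (Pool.Agent.H62.EF.pr_eq_iff (OCone.ne_zero hOC hxV) (OCone.ne_zero hOC hy'.1)).2 ⟨c, hc, hxc⟩
  obtain ⟨d, hd, hxd⟩ := (Pool.Agent.H62.EF.pr_eq_iff (OCone.ne_zero hOC hxV) (OCone.ne_zero hOC hx₀)).1 hprx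
  have hsm : ∀ x ∈ coneOf V, ∀ c : ℂ, c ≠ 0 → c • x ∈ coneOf V := fun x hx c hc => coneOf_smul hx hc
  have htv : Tan (coneOf V) x (lp M v) := tangent_tan hv
  have htw : Tan (coneOf V) x (lp M w) := tangent_tan hw
  have hdx : d⁻¹ • x = x₀ := by rw [hxd, smul_smul, inv_mul_cancel₀ hd, one_smul]
  have htv' := Tan.smul hsm htv (inv_ne_zero hd)
  have htw' := Tan.smul hsm htw (inv_ne_zero hd)
  rw [hdx] at htv' htw'
  have h5 := hall _ _ htv' htw'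
  have h6 := (tf h hΩ a rfl).scale _ _ hx₀ hz₀ _ _ htv' htw' d hd
  rw [h5, ← hxd, smul_smul, smul_smul, mul_inv_cancel₀ hd, one_smul, one_smul] at h6
  have h7 : (tf h hΩ a rfl).toFun (υ y) x (lp M v) (lp M w) = Ω (υ y + a) x' v w := rfl
  rw [h7] at h6
  rw [hzeq]
  exact h6

end Pool.Agent.H6.LU

end
end

section

/-!
# LU Lg: logarithmic poles along the boundary curve
-/

set_option autoImplicit false

open Topology Filter Metric

noncomputable section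

namespace Pool.Agent.H6.LU

attribute [-instance] ProperSMul.toContinuousSMul

open Pool.Agent.H17 (PN HolomorphicInto)
open Pool.Agent.H36.BP (EN coneOf coneOf_smul ne_zero_of_ofLp ofLp_ne_zero IsGermChart)
open Pool.Agent.H4.LU (Mem val IsParam IsInner IsHorChart IsEndChart IsEnd IsRegularEnd IsModel Over IsTangent IsLogForm VanishesOver IsNowhereZero)
open Pool.Agent.H18.LU (OCone Dsc Nb part HorAt LFib LBase LogP)
open Pool.Agent.H62.EF (TorusMap Charts pr MN)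
open Pool.Agent.H62.EL (BadSet IsNC TForm Per VanZero Thin tc)
open Pool.Agent.H14.PP (Tan CurveAt Chart jac)
open Pool.Agent.EG.LE (cf cf_change)

variable {M : ℕ} {Y V : Set (PN M)} {e : PN M → ℂ} {m : ℕ} {Ω : ℂ → (Fin (M + 1) → ℂ) → (Fin (M + 1) → ℂ) → (Fin (M + 1) → ℂ) → ℂ}

/-- the partial derivatives of a parametrization are tangent vectors -/
theorem isTangent_fderiv {σ₀ : ℂ × ℂ → Fin (M + 1) → ℂ} {p : ℂ × ℂ} (hσ : AnalyticAt ℂ σ₀ p) (hV : ∀ᶠ q in 𝓝 p, Mem V (σ₀ q)) (w : ℂ × ℂ) :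
    IsTangent V (σ₀ p) (fderiv ℂ σ₀ p w) := by
  have hl : AnalyticAt ℂ (fun z : ℂ => p + z • w) 0 := by fun_prop
  have hl0 : p + (0 : ℂ) • w = p := by rw [zero_smul, add_zero]
  refine ⟨fun z => σ₀ (p + z • w), ?_, by simp only [hl0], ?_, ?_⟩
  · exact AnalyticAt.comp (g := σ₀) (f := fun z : ℂ => p + z • w) (by rw [hl0]; exact hσ) hl
  · have h2 : HasDerivAt (fun z : ℂ => p + z • w) w 0 := by
      have := ((hasDerivAt_id (0 : ℂ)).smul_const w).const_add p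
      simpa using this
    have h4 : HasFDerivAt σ₀ (fderiv ℂ σ₀ p) (p + (0 : ℂ) • w) := by
      rw [hl0]
      exact hσ.differentiableAt.hasFDerivAt
    exact (h4.comp_hasDerivAt (0 : ℂ) h2).deriv
  · have h1 : Tendsto (fun z : ℂ => p + z • w) (𝓝 0) (𝓝 p) := by
      have := hl.continuousAt.tendsto
      rwa [hl0] at this
    exact h1.eventually hV

/-- the coefficient in a scaled parametrization -/
theorem cf_eq (h : IsModel Y V e) (hΩ : IsLogForm Y V e m Ω) (a : ℂ) {K : Set (EN M)} (hK : K = coneOf V) {σ₀ : ℂ × ℂ → Fin (M + 1) → ℂ} {p : ℂ × ℂ}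
    (hσ : AnalyticAt ℂ σ₀ p) (hV : ∀ᶠ q in 𝓝 p, Mem V (σ₀ q)) {c : ℂ} (hc : c ≠ 0) {t : ℂ} (ht : Over V e (t + a) (σ₀ p)) :
    cf (tf h hΩ a hK) (fun p => c • lp M (σ₀ p)) t p = Ω (t + a) (σ₀ p) (fderiv ℂ σ₀ p (1, 0)) (fderiv ℂ σ₀ p (0, 1)) := by
  have h1 : ∀ w, fderiv ℂ (fun p => c • lp M (σ₀ p)) p w = c • lp M (fderiv ℂ σ₀ p w) := by
    intro w
    have h2 : HasFDerivAt (fun p => c • lp M (σ₀ p)) ((c • lp M : (Fin (M + 1) → ℂ) →L[ℂ] EN M).comp (fderiv ℂ σ₀ p)) p :=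
      (c • lp M : (Fin (M + 1) → ℂ) →L[ℂ] EN M).hasFDerivAt.comp p hσ.differentiableAt.hasFDerivAt
    rw [h2.fderiv]
    rfl
  show Ω (t + a) (c • lp M (σ₀ p)).ofLp (fderiv ℂ (fun p => c • lp M (σ₀ p)) p (1, 0)).ofLp (fderiv ℂ (fun p => c • lp M (σ₀ p)) p (0, 1)).ofLp = _
  rw [h1, h1]
  exact hΩ.homogeneous _ _ ht _ _ (isTangent_fderiv hσ hV _) (isTangent_fderiv hσ hV _) c hc

/-- the bound in a chart at the boundary curve -/
theorem hor_bound (h : IsModel Y V e) (hΩ : IsLogForm Y V e m Ω) (a : ℂ) {K : Set (EN M)} (hK : K = coneOf V) {σ₀ : ℂ × ℂ → Fin (M + 1) → ℂ}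
    {τ₀ : (Fin (M + 1) → ℂ) → ℂ × ℂ} {y : PN M} (hch : IsHorChart Y V e σ₀ τ₀ y) {c : ℂ} (hc : c ≠ 0) :
    ∃ C : ℝ, 0 ≤ C ∧ ∀ᶠ p in 𝓝 (0 : ℂ × ℂ), p.2 ≠ 0 → ∀ t : ℂ, Over V e (t + a) (σ₀ p) →
      ‖p.2 * cf (tf h hΩ a hK) (fun p => c • lp M (σ₀ p)) t p‖ ≤ C := by
  obtain ⟨C, hC⟩ := hΩ.hor σ₀ τ₀ y hch
  obtain ⟨hp, c', i, hi, hf⟩ := hch
  refine ⟨max C 0, le_max_right _ _, ?_⟩
  filter_upwards [hC, hf.eventually_nhds, hp.analytic.eventually_analyticAt] with p h1 h2 h3 hp2 t ht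
  have hV : ∀ᶠ q in 𝓝 p, Mem V (σ₀ q) := by
    have h4 : ∀ᶠ q : ℂ × ℂ in 𝓝 p, q.2 ≠ 0 := continuousAt_snd.eventually_ne hp2
    filter_upwards [h2, h4] with q hq1 hq2
    exact hq1.1.2 hq2
  rw [cf_eq h hΩ a hK h3 hV hc ht]
  exact (h1 _ ht).trans (le_max_left _ _)

/-- the chart in `ℙ^M` at a point of the boundary curve -/
theorem exists_hor (h : IsModel Y V e) {x : EN M} (hx : x ∈ DH Y V e) : ∃ (σ₀ : ℂ × ℂ → Fin (M + 1) → ℂ) (τ₀ : (Fin (M + 1) → ℂ) → ℂ × ℂ) (y : PN M) (c : ℂ),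
    IsHorChart Y V e σ₀ τ₀ y ∧ c ≠ 0 ∧ c • lp M (σ₀ 0) = x := by
  obtain ⟨⟨hxY, w, hw0, hw⟩, hxV⟩ := hx
  obtain ⟨hx0, hxY'⟩ := id hxY
  have := neBot_V h hxY
  rcases h.point _ hxY' with h1 | ⟨σ, τ, h1⟩ | ⟨k, nd, hor, σ, τ, h1⟩ | ⟨k, nd, hor, σ, τ, h1⟩
  · exfalso
    obtain ⟨σ, τ, c, i, j, h2⟩ := mch_of_inner h1 (x := x) ⟨hx0, rfl⟩
    have h8 := h2.form.self_of_nhds
    rw [h2.gp.center] at h8
    exact hxV (h8.1.2 (by simp))
  · obtain ⟨c, hc, hcx⟩ := exists_scale h1.1 (x := x) ⟨hx0, rfl⟩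
    exact ⟨σ, τ, _, c, h1, hc, hcx⟩
  · exfalso
    obtain ⟨c, hc, hcx⟩ := exists_scale h1.1 (x := x) ⟨hx0, rfl⟩
    have h2 := ech_of_end h1 hc hcx
    exact hw0 (tendsto_nhds_unique hw (h2.tendsto h.sub))
  · exfalso
    obtain ⟨c, hc, hcx⟩ := exists_scale h1.1 (x := x) ⟨hx0, rfl⟩
    have h2 := ech_of_end h1 hc hcx
    exact tendsto_inv_unique h hxY hw (h2.tendsto h.sub)

/-- a bound in an arbitrary chart -/
theorem log_bound (h : IsModel Y V e) (hΩ : IsLogForm Y V e m Ω) (a : ℂ) {σ : ℂ × ℂ → EN M} {τ : EN M → ℂ × ℂ}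
    (hg : IsGermChart (XX Y V e) σ τ) (hD : ∀ᶠ p in 𝓝 (0 : ℂ × ℂ), σ p ∈ DH Y V e ↔ p.2 = 0) :
    ∃ C : ℝ, ∀ᶠ p in 𝓝 (0 : ℂ × ℂ), p.2 ≠ 0 → ∀ t : ℂ, uu V e a (σ p) - t ∈ Lam → ‖p.2 * cf (tf h hΩ a (XX_diff h)) σ t p‖ ≤ C := by
  have hx : σ 0 ∈ DH Y V e := hD.self_of_nhds.2 rfl
  obtain ⟨σ₀, τ₀, y, c, hch, hc, hcx⟩ := exists_hor h hx
  obtain ⟨c', i, hmch⟩ := mch_of_hor hch hc hcx
  set σ₁ : ℂ × ℂ → EN M := fun p => c • lp M (σ₀ p) with hσ₁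
  set τ₁ : EN M → ℂ × ℂ := fun x => τ₀ (pl M (c⁻¹ • x)) with hτ₁
  have hg₁ := hmch.germ h
  have h0 : σ 0 = σ₁ 0 := hcx.symm
  have hne : σ 0 ≠ 0 := coneOf_ne hx.1.1
  obtain ⟨hψ, hψ0, hcoord, hjac⟩ := transition hg hg₁ h0 hne
  set ψ : ℂ × ℂ → ℂ × ℂ := fun p => τ₁ (σ p) with hψdef
  have hψt : Tendsto ψ (𝓝 0) (𝓝 0) := by
    have := hψ.continuousAt.tendsto
    have h9 : ψ 0 = 0 := hψ0
    rwa [h9] at this
  obtain ⟨C₁, hC₁0, hC₁⟩ := hor_bound h hΩ a (XX_diff h) hch hc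
  have hf := hmch.form
  -- the second coordinate
  have hiff : ∀ᶠ p in 𝓝 (0 : ℂ × ℂ), (p.2 = 0 ↔ (ψ p).2 = 0) ∧ (p.2 ≠ 0 → σ p ∈ coneOf V) := by
    filter_upwards [hD, hψt.eventually hf, hcoord, hg.σ_mem] with p hp1 hp2 ⟨b, hb, hp3⟩ hp4
    have h1 : σ p ∈ coneOf V ↔ (ψ p).2 ≠ 0 := by
      rw [hp3, coneOf_smul_iff hb, hp2.1]
      simp
    have h2 : σ p ∈ DH Y V e ↔ ¬ (ψ p).2 ≠ 0 := by
      rw [← h1]
      exact ⟨fun h3 => h3.2, fun h3 => ⟨hp4, h3⟩⟩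
    rw [hp1, not_not] at h2
    exact ⟨h2, fun h3 => h1.2 fun h4 => h3 (h2.2 h4)⟩
  obtain ⟨C₂, hC₂0, hC₂⟩ := snd_le hψ hjac (by filter_upwards [hiff] with p hp h1 using hp.1.1 h1)
  have hj : ContinuousAt (fun p => jac ψ p) 0 := by
    have h1 : AnalyticAt ℂ (fun p => fderiv ℂ ψ p) 0 := hψ.fderiv
    have h2 : ∀ v : ℂ × ℂ, AnalyticAt ℂ (fun p => fderiv ℂ ψ p v) 0 := fun v =>
      ((ContinuousLinearMap.apply ℂ (ℂ × ℂ) v).analyticAt _).comp h1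
    have h3 : ∀ v : ℂ × ℂ, ContinuousAt (fun p => (fderiv ℂ ψ p v).1) 0 := fun v => continuousAt_fst.comp (h2 v).continuousAt
    have h4 : ∀ v : ℂ × ℂ, ContinuousAt (fun p => (fderiv ℂ ψ p v).2) 0 := fun v => continuousAt_snd.comp (h2 v).continuousAt
    exact ((h3 _).mul (h4 _)).sub ((h3 _).mul (h4 _))
  have hjb : ∀ᶠ p in 𝓝 (0 : ℂ × ℂ), ‖jac ψ p‖ ≤ ‖jac ψ 0‖ + 1 := by
    filter_upwards [hj.norm.eventually_lt_const (lt_add_one _)] with p hp using hp.le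
  refine ⟨C₂ * C₁ * (‖jac ψ 0‖ + 1), ?_⟩
  filter_upwards [hC₂, hψt.eventually hC₁, hjb, hiff, hg.σ_an.eventually_analyticAt, hψ.eventually_analyticAt,
    hψt.eventually hg₁.σ_an.eventually_analyticAt, hψt.eventually hf.eventually_nhds, hcoord.eventually_nhds] with
    p hp1 hp2 hp3 hp4 hp5 hp6 hp7 hp8 hp9 hp0 t ht
  have hψ2 : (ψ p).2 ≠ 0 := fun h1 => hp0 (hp4.1.2 h1)
  have hV : ∀ᶠ y in 𝓝 (ψ p), σ₁ y ∈ XX Y V e \ DH Y V e := by
    rw [XX_diff h]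
    have h4 : ∀ᶠ q : ℂ × ℂ in 𝓝 (ψ p), q.2 ≠ 0 := continuousAt_snd.eventually_ne hψ2
    filter_upwards [hp8, h4] with q hq1 hq2
    exact hq1.1.2 fun _ => hq2
  have hOC : OCone (coneOf V) := ⟨zero_notMem_coneOf V, fun x hx c hc => coneOf_smul hx hc⟩
  have hsm : ∀ x ∈ XX Y V e \ DH Y V e, ∀ c : ℂ, c ≠ 0 → c • x ∈ XX Y V e \ DH Y V e := by
    rw [XX_diff h]
    exact fun x hx c hc => coneOf_smul hx hc
  have hz : (0 : EN M) ∉ XX Y V e \ DH Y V e := by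
    rw [XX_diff h]
    exact zero_notMem_coneOf V
  obtain ⟨b, hb, hpb⟩ := hp9.self_of_nhds
  have hσ₁V : σ₁ (ψ p) ∈ coneOf V := by
    have := hV.self_of_nhds
    rwa [XX_diff h] at this
  have hu : uu V e a (σ₁ (ψ p)) - t ∈ Lam := by
    have h1 := (torus_XX h a).smul _ (V_sub_XX h hσ₁V) b hb
    rw [← hpb] at h1
    have h2 := Lam.sub_mem ht h1
    have h3 : uu V e a (σ p) - t - (uu V e a (σ p) - uu V e a (σ₁ (ψ p))) = uu V e a (σ₁ (ψ p)) - t := by ring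
    rwa [h3] at h2
  have hcf := cf_change (α := tf h hΩ a (XX_diff h)) (t := t) hz hsm (φ := σ) (ψ := σ₁) (τ := ψ) (p := p) hp5 hp7 hp6 hV hu hp9
  rw [hcf]
  have hov : Over V e (t + a) (σ₀ (ψ p)) := by
    have h1 := (over_iff h hσ₁V a t).1 hu
    obtain ⟨h2, h3⟩ := h1
    refine ⟨?_, ?_⟩
    · have h4 : lp M (σ₀ (ψ p)) ∈ coneOf V := (coneOf_smul_iff hc).1 hσ₁V
      exact h4
    · have h4 : ev e (c • lp M (σ₀ (ψ p))) = Complex.exp (t + a) := h3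
      rw [ev_smul _ _ hc] at h4
      exact h4
  have h5 := hp2 hψ2 t hov
  calc ‖p.2 * (cf (tf h hΩ a (XX_diff h)) σ₁ t (ψ p) * jac ψ p)‖
      = ‖p.2‖ * ‖cf (tf h hΩ a (XX_diff h)) σ₁ t (ψ p)‖ * ‖jac ψ p‖ := by rw [norm_mul, norm_mul, mul_assoc]
    _ ≤ C₂ * ‖(ψ p).2‖ * ‖cf (tf h hΩ a (XX_diff h)) σ₁ t (ψ p)‖ * (‖jac ψ 0‖ + 1) := by gcongr
    _ = C₂ * ‖(ψ p).2 * cf (tf h hΩ a (XX_diff h)) σ₁ t (ψ p)‖ * (‖jac ψ 0‖ + 1) := by rw [norm_mul]; ring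
    _ ≤ C₂ * C₁ * (‖jac ψ 0‖ + 1) := by gcongr

/-- **Logarithmic poles.** -/
theorem logP_tf (h : IsModel Y V e) (hΩ : IsLogForm Y V e m Ω) (a : ℂ) : LogP (tf h hΩ a (XX_diff h)) := by
  intro σ τ υ hg hD hυ hu
  obtain ⟨C, hC⟩ := log_bound h hΩ a hg hD
  have han : ∀ᶠ p in 𝓝 (0 : ℂ × ℂ), p.2 ≠ 0 → AnalyticAt ℂ (fun p => p.2 * (tf h hΩ a (XX_diff h)).toFun (υ p) (σ p) (fderiv ℂ σ p (1, 0)) (fderiv ℂ σ p (0, 1))) p := by
    filter_upwards [hD.eventually_nhds, hg.σ_mem.eventually_nhds, hg.σ_an.eventually_analyticAt, hυ.eventually_analyticAt, hu.eventually_nhds] with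
      p h1 h2 h3 h4 h5 hp
    refine analyticAt_snd.mul ((tf h hΩ a (XX_diff h)).analytic σ υ p h3 h4 ?_)
    have h6 : ∀ᶠ q : ℂ × ℂ in 𝓝 p, q.2 ≠ 0 := continuousAt_snd.eventually_ne hp
    filter_upwards [h1, h2, h5, h6] with q hq1 hq2 hq3 hq4
    exact ⟨⟨hq2, fun h7 => hq4 (hq1.1 h7)⟩, hq3⟩
  obtain ⟨g, hg1, hg2⟩ := riem_ext han (C := C) (by
    filter_upwards [hC, hu] with p h1 h2 hp
    exact h1 hp _ h2)
  refine ⟨g, hg1, ?_⟩
  filter_upwards [hg2] with p hp hp0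
  exact (hp hp0).symm

end Pool.Agent.H6.LU

end
end
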