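import Pool.Agent.H94.CB.M192
import Pool.Agent.H94.CB.M198
import Pool.Agent.H94.CB.M201
import Pool.Agent.H94.CB.M202
import Pool.Agent.H94.CB.M210
import Pool.Agent.H94.CB.M77
import Pool.Agent.H94.CB.M85

/-! The parts of this file: H4.LU.Hol, H4.LU.Lif, H4.LU.Cst, H4.LU.Limit, H13.LU.Phases. -/

section

/-!
# LU Hol: the function `e` is holomorphic without zeros on `V`
-/

set_option autoImplicit false

open Topology Filter MvPolynomial Metric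

noncomputable section

namespace Pool.Agent.H4.LU

attribute [-instance] ProperSMul.toContinuousSMul

open Pool.Agent.H17 (PN VanishesAt HolomorphicInto)

variable {M N : ℕ}

theorem val_mk {e : PN M → ℂ} {x : Fin (M + 1) → ℂ} (hx : x ≠ 0) : val e x = e (Projectivization.mk ℂ x hx) := by
  unfold val
  rw [dif_pos hx]

theorem val_smul {e : PN M → ℂ} {x : Fin (M + 1) → ℂ} (hx : x ≠ 0) {a : ℂ} (ha : a ≠ 0) : val e (a • x) = val e x := by
  rw [val_mk hx, val_mk (smul_ne_zero ha hx)]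
  congr 1
  exact (Projectivization.mk_eq_mk_iff' ℂ _ _ _ _).2 ⟨a, rfl⟩

/-- a point of `V` is of the first kind -/
theorem inner_of_mem {Y V : Set (PN M)} {e : PN M → ℂ} (hY : IsModel Y V e) {y : PN M} (hy : y ∈ V) : IsInner Y V e y := by
  have hc : ∀ {k : ℕ} {σ : ℂ × ℂ → Fin (M + 1) → ℂ} {τ : (Fin (M + 1) → ℂ) → ℂ × ℂ}, IsParam Y k σ τ y → Mem V (σ 0) := by
    intro k σ τ h
    obtain ⟨h1, h2⟩ := h.center
    exact ⟨h1, h2 ▸ hy⟩
  rcases hY.point y (hY.sub hy) with h | ⟨σ, τ, h1, c, i, hi, h2⟩ | ⟨k, nd, hor, σ, τ, h1, hk, hnd, h2⟩ | ⟨k, nd, hor, σ, τ, h1, hk, hnd, h2⟩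
  · exact h
  · exact absurd (h2.self_of_nhds.1.1 (hc h1)) (by simp)
  · exact absurd (h2.self_of_nhds.1.1 (hc h1)).1 (by simp)
  · exact absurd (h2.self_of_nhds.1.1 (hc h1)).1 (by simp)

theorem e_ne_zero {Y V : Set (PN M)} {e : PN M → ℂ} (hY : IsModel Y V e) {y : PN M} (hy : y ∈ V) : e y ≠ 0 := by
  obtain ⟨σ, τ, c, i, j, hpar, hi, he⟩ := inner_of_mem hY hy
  obtain ⟨h2, h3⟩ := hpar.center
  have h4 := he.self_of_nhds.2
  rw [val_mk h2, h3] at h4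
  rw [h4]
  exact Complex.exp_ne_zero _

/-- **`e` is holomorphic without zeros on `V`.** -/
theorem analyticAt_e {Y V : Set (PN M)} {e : PN M → ℂ} (hY : IsModel Y V e) {g : ℂ → PN M} {z : ℂ} {Φ : ℂ → Fin (M + 1) → ℂ} (hΦ : AnalyticAt ℂ Φ z)
    (hg : ∀ᶠ w in 𝓝 z, ∃ h : Φ w ≠ 0, g w = Projectivization.mk ℂ (Φ w) h) (hV : ∀ᶠ w in 𝓝 z, g w ∈ V) :
    AnalyticAt ℂ (fun w => e (g w)) z ∧ e (g z) ≠ 0 := by
  obtain ⟨σ, τ, c, i, j, hpar, hi, he⟩ := inner_of_mem hY hV.self_of_nhds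
  obtain ⟨h0, h1⟩ := hg.self_of_nhds
  obtain ⟨h2, h3⟩ := hpar.center
  -- scaling
  obtain ⟨a, ha⟩ : ∃ a : ℂ, a • σ 0 = Φ z := (Projectivization.mk_eq_mk_iff' ℂ _ _ _ _).1 (h1.symm.trans h3.symm)
  have ha0 : a ≠ 0 := by
    rintro rfl
    rw [zero_smul] at ha
    exact h0 ha.symm
  have hΦ' : AnalyticAt ℂ (fun w => a⁻¹ • Φ w) z := (analyticAt_const (v := a⁻¹)).fun_smul hΦ
  have hΦz : a⁻¹ • Φ z = σ 0 := by rw [← ha, smul_smul, inv_mul_cancel₀ ha0, one_smul]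
  have hτ : AnalyticAt ℂ (fun w => τ (a⁻¹ • Φ w)) z := AnalyticAt.comp (g := τ) (f := fun w => a⁻¹ • Φ w) (by rw [hΦz]; exact hpar.analytic') hΦ'
  have hτz : τ (a⁻¹ • Φ z) = 0 := by
    rw [hΦz, hpar.coord.self_of_nhds]
    simp
  have hct : Tendsto (fun w => a⁻¹ • Φ w) (𝓝 z) (𝓝 (σ 0)) := by
    rw [← hΦz]
    exact hΦ'.continuousAt.tendsto
  have hct2 : Tendsto (fun w => τ (a⁻¹ • Φ w)) (𝓝 z) (𝓝 0) := by
    rw [← hτz]
    exact hτ.continuousAt.tendsto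
  have heq : ∀ᶠ w in 𝓝 z, e (g w) = Complex.exp (c + (τ (a⁻¹ • Φ w)).1 ^ i * (τ (a⁻¹ • Φ w)).2 ^ j) := by
    filter_upwards [hg, hV, hct.eventually hpar.onto, hct2.eventually he] with w h4 h5 h6 h7
    obtain ⟨h8, h9⟩ := h4
    have h10 : Mem Y (a⁻¹ • Φ w) := by
      refine ⟨smul_ne_zero (inv_ne_zero ha0) h8, ?_⟩
      have h11 : Projectivization.mk ℂ (a⁻¹ • Φ w) (smul_ne_zero (inv_ne_zero ha0) h8) = Projectivization.mk ℂ (Φ w) h8 :=
        (Projectivization.mk_eq_mk_iff' ℂ _ _ _ _).2 ⟨a⁻¹, rfl⟩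
      rw [h11, ← h9]
      exact hY.sub h5
    obtain ⟨b, p, hb, h12, h13⟩ := h6 h10
    rw [pow_one, pow_one] at h13
    have hp : τ (a⁻¹ • Φ w) = p := h13
    rw [hp] at h7 ⊢
    have hσ : σ p ≠ 0 := h7.1.1
    rw [h9, ← val_mk (e := e) h8, ← val_smul h8 (inv_ne_zero ha0), h12, val_smul hσ hb, h7.2]
  refine ⟨?_, ?_⟩
  · have h4 : AnalyticAt ℂ (fun w => Complex.exp (c + (τ (a⁻¹ • Φ w)).1 ^ i * (τ (a⁻¹ • Φ w)).2 ^ j)) z := by
      have h5 : AnalyticAt ℂ (fun w => (τ (a⁻¹ • Φ w)).1) z := analyticAt_fst.comp hτ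
      have h6 : AnalyticAt ℂ (fun w => (τ (a⁻¹ • Φ w)).2) z := analyticAt_snd.comp hτ
      exact (analyticAt_const.add ((h5.pow i).mul (h6.pow j))).cexp
    exact h4.congr (heq.mono fun w hw => hw.symm)
  · rw [heq.self_of_nhds]
    exact Complex.exp_ne_zero _

/-- `e` is locally the restriction of a holomorphic function. -/
theorem val_analytic {Y V : Set (PN M)} {e : PN M → ℂ} (hY : IsModel Y V e) {x₀ : Fin (M + 1) → ℂ} (hx₀ : Mem V x₀) :
    ∃ p : (Fin (M + 1) → ℂ) → ℂ, AnalyticAt ℂ p x₀ ∧ ∀ᶠ x in 𝓝 x₀, Mem V x → val e x = p x := by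
  obtain ⟨h0, h1⟩ := hx₀
  obtain ⟨σ, τ, c, i, j, hpar, hi, he⟩ := inner_of_mem hY h1
  obtain ⟨h2, h3⟩ := hpar.center
  -- scaling
  obtain ⟨a, ha⟩ : ∃ a : ℂ, a • σ 0 = x₀ := (Projectivization.mk_eq_mk_iff' ℂ _ _ _ _).1 h3.symm
  have ha0 : a ≠ 0 := by
    rintro rfl
    rw [zero_smul] at ha
    exact h0 ha.symm
  have hΦ' : AnalyticAt ℂ (fun x : Fin (M + 1) → ℂ => a⁻¹ • x) x₀ := (analyticAt_const (v := a⁻¹)).fun_smul analyticAt_id
  have hΦz : a⁻¹ • x₀ = σ 0 := by rw [← ha, smul_smul, inv_mul_cancel₀ ha0, one_smul]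
  have hτ : AnalyticAt ℂ (fun x : Fin (M + 1) → ℂ => τ (a⁻¹ • x)) x₀ :=
    AnalyticAt.comp (g := τ) (f := fun x : Fin (M + 1) → ℂ => a⁻¹ • x) (by rw [hΦz]; exact hpar.analytic') hΦ'
  have hτz : τ (a⁻¹ • x₀) = 0 := by
    rw [hΦz, hpar.coord.self_of_nhds]
    simp
  have hct : Tendsto (fun x : Fin (M + 1) → ℂ => a⁻¹ • x) (𝓝 x₀) (𝓝 (σ 0)) := by
    rw [← hΦz]
    exact hΦ'.continuousAt.tendsto
  have hct2 : Tendsto (fun x : Fin (M + 1) → ℂ => τ (a⁻¹ • x)) (𝓝 x₀) (𝓝 0) := by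
    rw [← hτz]
    exact hτ.continuousAt.tendsto
  refine ⟨fun x => Complex.exp (c + (τ (a⁻¹ • x)).1 ^ i * (τ (a⁻¹ • x)).2 ^ j), ?_, ?_⟩
  · have h5 : AnalyticAt ℂ (fun x : Fin (M + 1) → ℂ => (τ (a⁻¹ • x)).1) x₀ := analyticAt_fst.comp hτ
    have h6 : AnalyticAt ℂ (fun x : Fin (M + 1) → ℂ => (τ (a⁻¹ • x)).2) x₀ := analyticAt_snd.comp hτ
    exact (analyticAt_const.add ((h5.pow i).mul (h6.pow j))).cexp
  · filter_upwards [hct.eventually hpar.onto, hct2.eventually he] with x h6 h7 h5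
    obtain ⟨h8, h9⟩ := h5
    have h10 : Mem Y (a⁻¹ • x) := by
      refine ⟨smul_ne_zero (inv_ne_zero ha0) h8, ?_⟩
      have h11 : Projectivization.mk ℂ (a⁻¹ • x) (smul_ne_zero (inv_ne_zero ha0) h8) = Projectivization.mk ℂ x h8 :=
        (Projectivization.mk_eq_mk_iff' ℂ _ _ _ _).2 ⟨a⁻¹, rfl⟩
      rw [h11]
      exact hY.sub h9
    obtain ⟨b, p, hb, h12, h13⟩ := h6 h10
    rw [pow_one, pow_one] at h13
    have hp : τ (a⁻¹ • x) = p := h13
    show val e x = Complex.exp (c + (τ (a⁻¹ • x)).1 ^ i * (τ (a⁻¹ • x)).2 ^ j)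
    rw [hp] at h7 ⊢
    have hσ : σ p ≠ 0 := h7.1.1
    rw [← val_smul h8 (inv_ne_zero ha0), h12, val_smul hσ hb, h7.2]

open Pool.Agent.H62.SA (locVar)
open Pool.Agent.H36.LB (ConvPN IsLimitPN)

/-- Where `F n → f` also `e ∘ j ∘ F n → e ∘ j ∘ f`. -/
theorem conv_e {Y V : Set (PN M)} {e : PN M → ℂ} (hY : IsModel Y V e) {P : Ideal (MvPolynomial (Fin (N + 1)) ℂ)} {s : ℕ}
    {G : Fin s → MvPolynomial (Fin (N + 1)) ℂ} {j : PN N → PN M} (hj : IsRegularInto P G V e j) {l : Filter ℕ} {F : ℕ → ℂ → PN N} {f : ℂ → PN N}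
    (hl : IsLimitPN (locVar P G) l F f) {z₀ : ℂ} (h : ConvPN l F f z₀) :
    ∃ r : ℝ, 0 < r ∧ TendstoLocallyUniformlyOn (fun n z => e (j (F n z))) (fun z => e (j (f z))) l (ball z₀ r) := by
  have hopen := convPN_open h
  obtain ⟨t, Φ, Φ₀, ht, h1, h2, h3, h4⟩ := conv_j hj hl h
  obtain ⟨h5, h6⟩ := h3 z₀ (mem_ball_self ht)
  have hf0 : f z₀ ∈ locVar P G := hl.mem_of_conv z₀ h
  have hmV : Mem V (Φ₀ z₀) := ⟨h5, by rw [← h6]; exact hj.maps _ hf0⟩
  obtain ⟨p, hp, hpe⟩ := val_analytic hY hmV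
  have hcont : ContinuousAt Φ₀ z₀ := (h2.differentiableAt (isOpen_ball.mem_nhds (mem_ball_self ht))).continuousAt
  -- a neighbourhood of `Φ₀ z₀`
  obtain ⟨ε, hε, hεb⟩ := Metric.eventually_nhds_iff_ball.1 (hp.eventually_analyticAt.and hpe)
  have hev : ∀ᶠ z in 𝓝 z₀, Φ₀ z ∈ ball (Φ₀ z₀) (ε / 2) ∧ z ∈ ball z₀ t ∧ ConvPN l F f z := by
    filter_upwards [hcont.eventually (ball_mem_nhds _ (show 0 < ε / 2 by positivity)), ball_mem_nhds z₀ ht, hopen] with z h7 h8 h9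
    exact ⟨h7, h8, h9⟩
  obtain ⟨r, hr, hrb⟩ := Metric.eventually_nhds_iff_ball.1 hev
  have hr2 : closedBall z₀ (r / 2) ⊆ ball z₀ r := closedBall_subset_ball (by linarith)
  have hr3 : ball z₀ (r / 2) ⊆ ball z₀ r := ball_subset_closedBall.trans hr2
  have hunif : ∀ᶠ n in l, ∀ z ∈ closedBall z₀ (r / 2), dist (Φ₀ z) (Φ n z) < ε / 2 := by
    have h7 := (tendstoLocallyUniformlyOn_iff_tendstoUniformlyOn_of_compact (isCompact_closedBall z₀ (r / 2))).1
      (h4.mono fun z hz => (hrb z (hr2 hz)).2.1)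
    exact Metric.tendstoUniformlyOn_iff.1 h7 _ (by positivity)
  have hlim : TendstoLocallyUniformlyOn (fun n z => p (Φ n z)) (fun z => p (Φ₀ z)) l (ball z₀ (r / 2)) := by
    refine Pool.Agent.H36.LB.tlu_comp (h4.mono fun z hz => (hrb z (hr3 hz)).2.1) (h2.continuousOn.mono fun z hz => (hrb z (hr3 hz)).2.1) ?_
    intro x hx
    exact (hεb _ (ball_subset_ball (by linarith) (hrb x (hr3 hx)).1)).1.continuousAt
  have hbig : ∀ᶠ n in l, ∀ z ∈ ball z₀ (r / 2), F n z ∈ locVar P G := by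
    filter_upwards [hl.le_atTop (eventually_ge_atTop ⌈‖z₀‖ + r⌉₊)] with n hn z hz
    refine hl.memF n z ?_
    rw [mem_ball_zero_iff]
    have h8 : ‖z‖ ≤ ‖z₀‖ + r / 2 := by
      have h9 := norm_sub_norm_le z z₀
      rw [mem_ball, dist_eq_norm] at hz
      linarith
    have h9 : ‖z₀‖ + r ≤ n := (Nat.le_ceil _).trans (Nat.cast_le.2 hn)
    linarith
  refine ⟨r / 2, by positivity, ?_⟩
  have hkey : ∀ᶠ n in l, ∀ z ∈ ball z₀ (r / 2), e (j (F n z)) = p (Φ n z) := by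
    filter_upwards [h1, hunif, hbig] with n h7 h8 h9 z hz
    obtain ⟨h10, h11⟩ := h7.2 z (hrb z (hr3 hz)).2.1
    have h12 : Φ n z ∈ ball (Φ₀ z₀) ε := by
      rw [mem_ball]
      calc dist (Φ n z) (Φ₀ z₀) ≤ dist (Φ n z) (Φ₀ z) + dist (Φ₀ z) (Φ₀ z₀) := dist_triangle _ _ _
        _ < ε := by
          have h13 := h8 z (ball_subset_closedBall hz)
          have h14 := mem_ball.1 (hrb z (hr3 hz)).1
          rw [dist_comm (Φ n z)]
          linarith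
    have h13 := (hεb _ h12).2 ⟨h10, by rw [← h11]; exact hj.maps _ (h9 z hz)⟩
    rw [← h13, val_mk h10, ← h11]
  have hkey0 : ∀ z ∈ ball z₀ (r / 2), e (j (f z)) = p (Φ₀ z) := by
    intro z hz
    obtain ⟨h10, h11⟩ := h3 z (hrb z (hr3 hz)).2.1
    have h12 : Φ₀ z ∈ ball (Φ₀ z₀) ε := ball_subset_ball (by linarith) (hrb z (hr3 hz)).1
    have h13 := (hεb _ h12).2 ⟨h10, by rw [← h11]; exact hj.maps _ (hl.mem_of_conv z (hrb z (hr3 hz)).2.2)⟩
    rw [← h13, val_mk h10, ← h11]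
  have hlim2 := hlim.congr_right (fun z hz => (hkey0 z hz).symm)
  rw [Metric.tendstoLocallyUniformlyOn_iff] at hlim2 ⊢
  intro η hη x hx
  obtain ⟨W, hW, hWn⟩ := hlim2 η hη x hx
  refine ⟨W ∩ ball z₀ (r / 2), inter_mem hW self_mem_nhdsWithin, ?_⟩
  filter_upwards [hWn, hkey] with n h7 h8 z hz
  rw [h8 z hz.2]
  exact h7 z hz.1

end Pool.Agent.H4.LU

end
end

section

/-!
# LU Lif: lifts over discs, convergence of the projections (by helper19)
-/

set_option autoImplicit false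

open Topology Filter MvPolynomial Metric

noncomputable section

namespace Pool.Agent.H4.LU.Lif

attribute [-instance] ProperSMul.toContinuousSMul

open Pool.Agent.H17 (PN VanishesAt HolomorphicInto ZariskiClosedIn)
open Pool.Agent.H62.FC (Homog)
open Pool.Agent.H62.EF (MN pr Lat TorusMap Sec pr_smul pr_eq_iff continuousAt_pr)
open Pool.Agent.H13.SM (cone)
open Pool.Agent.H36.BP (EN fs wd)
open Pool.Agent.H17EF (projVar IsHolomorphicMap coneE uE LE prP prP_mk mk_symm prP_injective LE_ne_zero mem_coneE mk_mem_projVar exists_lift)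
open Pool.Agent.H36.LB (ConvPN IsLimitPN)

variable {N : ℕ}

/-- a lift over a disc -/
theorem lift_big {f : ℂ → PN N} {r ρ : ℝ} (hr : 0 < r) (hρ : r < ρ) (hf : HolomorphicInto f (ball 0 ρ)) :
    ∃ F : ℂ → EN N, DifferentiableOn ℂ F (ball 0 r) ∧ ∀ z ∈ ball (0 : ℂ) r, ∃ h : (LE N).symm (F z) ≠ 0, f z = Projectivization.mk ℂ ((LE N).symm (F z)) h := by
  have hρ0 : 0 < ρ := hr.trans hρ
  have hρc : (ρ : ℂ) ≠ 0 := by exact_mod_cast hρ0.ne'
  have hg : HolomorphicInto (fun z => f ((ρ : ℂ) * z)) (ball 0 1) := by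
    intro z hz
    have h1 : (ρ : ℂ) * z ∈ ball (0 : ℂ) ρ := by
      rw [mem_ball_zero_iff] at hz ⊢
      rw [norm_mul, Complex.norm_real, Real.norm_of_nonneg hρ0.le]
      nlinarith
    obtain ⟨φ, hφ, hφ'⟩ := hf _ h1
    have h2 : AnalyticAt ℂ (fun z : ℂ => (ρ : ℂ) * z) z := analyticAt_const.mul analyticAt_id
    exact ⟨fun z => φ ((ρ : ℂ) * z), AnalyticAt.fun_comp (g := φ) (f := fun z : ℂ => (ρ : ℂ) * z) hφ h2, h2.continuousAt.tendsto.eventually hφ'⟩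
  obtain ⟨F, hF, hFf⟩ := Pool.Agent.H36.BP.lift_disc hg (r := r / ρ) (by positivity) ((div_lt_one hρ0).2 hρ)
  have hmap : ∀ z ∈ ball (0 : ℂ) r, z / (ρ : ℂ) ∈ ball (0 : ℂ) (r / ρ) := by
    intro z hz
    rw [mem_ball_zero_iff] at hz ⊢
    rw [norm_div, Complex.norm_real, Real.norm_of_nonneg hρ0.le]
    exact (div_lt_div_iff_of_pos_right hρ0).2 hz
  refine ⟨fun z => F (z / (ρ : ℂ)), hF.comp (differentiable_id.div_const _).differentiableOn hmap, fun z hz => ?_⟩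
  obtain ⟨h, h'⟩ := hFf _ (hmap z hz)
  have h2 : (ρ : ℂ) * (z / (ρ : ℂ)) = z := by field_simp
  have h3 : f z = f ((ρ : ℂ) * (z / (ρ : ℂ))) := by rw [h2]
  exact ⟨h, h3.trans h'⟩

theorem convPN_open {l : Filter ℕ} {F : ℕ → ℂ → PN N} {f : ℂ → PN N} : IsOpen {z | ConvPN l F f z} := by
  rw [Metric.isOpen_iff]
  rintro z ⟨s, Φ, Φ₀, hs, hΦ, hΦ₀, hf, hlim⟩
  refine ⟨s, hs, fun w hw => ?_⟩
  obtain ⟨t, ht, htb⟩ := Metric.mem_nhds_iff.1 (isOpen_ball.mem_nhds hw)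
  refine ⟨t, Φ, Φ₀, ht, ?_, hΦ₀.mono htb, fun y hy => hf y (htb hy), hlim.mono htb⟩
  filter_upwards [hΦ] with n hn
  exact ⟨hn.1.mono htb, fun y hy => hn.2 y (htb hy)⟩

/-- the convergence of the projections -/
theorem convPN_unif {l : Filter ℕ} {F : ℕ → ℂ → PN N} {f : ℂ → PN N} :
    TendstoLocallyUniformlyOn (fun n z => prP (F n z)) (fun z => prP (f z)) l {z | ConvPN l F f z} := by
  rw [Metric.tendstoLocallyUniformlyOn_iff]
  intro ε hε z₀ hz₀
  obtain ⟨s, Φ, Φ₀, hs, hΦ, hΦ₀, hf, hlim⟩ := hz₀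
  have hz₀s : z₀ ∈ ball z₀ s := mem_ball_self hs
  have hx0 : (LE N) (Φ₀ z₀) ≠ 0 := LE_ne_zero (hf z₀ hz₀s).1
  have hc : ContinuousAt (fun x : Fin (N + 1) → ℂ => pr ((LE N) x)) (Φ₀ z₀) :=
    (continuousAt_pr hx0).comp (LE N).continuous.continuousAt
  obtain ⟨η, hη, hpr⟩ := Metric.continuousAt_iff.1 hc (ε / 2) (by positivity)
  have hHc : ∀ᶠ z in 𝓝 z₀, dist (Φ₀ z) (Φ₀ z₀) < η / 2 :=
    Metric.tendsto_nhds.1 (hΦ₀.continuousOn.continuousAt (isOpen_ball.mem_nhds hz₀s)) _ (by positivity)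
  obtain ⟨t, ht, hev⟩ := (Metric.tendstoLocallyUniformlyOn_iff.1 hlim) (η / 2) (by positivity) z₀ hz₀s
  rw [isOpen_ball.nhdsWithin_eq hz₀s] at ht
  refine ⟨t ∩ ({z | dist (Φ₀ z) (Φ₀ z₀) < η / 2} ∩ ball z₀ s), mem_nhdsWithin_of_mem_nhds
    (inter_mem ht (inter_mem hHc (ball_mem_nhds z₀ hs))), ?_⟩
  filter_upwards [hev, hΦ] with n hn hφn
  rintro w ⟨hwt, hw1, hw2⟩
  have hw1' : dist (Φ₀ w) (Φ₀ z₀) < η / 2 := hw1
  have h1 : dist (pr ((LE N) (Φ₀ w))) (pr ((LE N) (Φ₀ z₀))) < ε / 2 := hpr (hw1'.trans (by linarith))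
  have h2 : dist (Φ n w) (Φ₀ z₀) < η := by
    have h3 := hn w hwt
    rw [dist_comm] at h3
    exact (dist_triangle _ (Φ₀ w) _).trans_lt (by linarith)
  have h3 : dist (pr ((LE N) (Φ n w))) (pr ((LE N) (Φ₀ z₀))) < ε / 2 := hpr h2
  obtain ⟨h4, h4'⟩ := hf w hw2
  obtain ⟨h5, h5'⟩ := hφn.2 w hw2
  show dist (prP (f w)) (prP (F n w)) < ε
  rw [h4', h5', prP_mk, prP_mk]
  rw [dist_comm] at h3
  exact (dist_triangle _ (pr ((LE N) (Φ₀ z₀))) _).trans_lt (by linarith)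

end Pool.Agent.H4.LU.Lif

end
end

section

/-!
# LU Con: limit curves in the fibres are constant
-/

set_option autoImplicit false

open Topology Filter MvPolynomial Metric

noncomputable section

namespace Pool.Agent.H4.LU

attribute [-instance] ProperSMul.toContinuousSMul

open Pool.Agent.H17 (PN VanishesAt HolomorphicInto)
open Pool.Agent.H62.EF (MN pr TorusMap pr_smul pr_eq_iff)
open Pool.Agent.H62.EL (BadSet)
open Pool.Agent.H36.BP (EN coneOf)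
open Pool.Agent.H17EF (LE prP prP_mk mk_symm prP_injective LE_ne_zero exists_lift)
open Pool.Agent.H36.LB (ConvPN)
open Pool.Agent.H18.LU (LCur LBase lcur_fibre)
open Pool.Agent.H6.LU
open Pool.Agent.H4.LU.Lif (lift_big convPN_unif)

variable {M : ℕ}

/-- bad values for the constant curves -/
theorem exists_lbase {Y V : Set (PN M)} {e : PN M → ℂ} (hY : IsModel Y V e) (hh : IsHyperbolic Y V e) :
    ∃ (B₁ : Set ℂ) (a : ℂ) (δ : ℝ), B₁.Finite ∧ LBase (XX Y V e) (DH Y V e) Lam (Gam 1) (uu V e a) (BB B₁ a) δ := by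
  obtain ⟨B, hB, hBf⟩ := hh.fibre
  set B₁ : Set ℂ := (B ∪ CV Y V e) \ {0} with hB₁
  have hB₁f : B₁.Finite := (hB.union (finite_CV hY)).subset Set.diff_subset
  have h0 : (0 : ℂ) ∉ B₁ := fun h => h.2 rfl
  obtain ⟨a, ha⟩ : ∃ a : ℂ, Complex.exp a ∉ B₁ := by
    obtain ⟨w, hw⟩ := (hB₁f.union (Set.finite_singleton (0 : ℂ))).infinite_compl.nonempty
    have hw0 : w ≠ 0 := fun h => hw (Or.inr h)
    refine ⟨Complex.log w, ?_⟩
    rw [Complex.exp_log hw0]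
    exact fun h => hw (Or.inl h)
  obtain ⟨δ, hδ, hδ'⟩ := bad_set hB₁f h0 ha
  obtain ⟨hbad, hzero⟩ := hδ' δ hδ le_rfl
  refine ⟨B₁, a, δ, hB₁f, lbase hY le_rfl hbad hzero ?_ ?_⟩
  · rintro w hw
    refine ⟨Or.inr hw, ?_⟩
    obtain ⟨x, σ, τ, c, i, j, -, -, rfl⟩ := hw
    exact Complex.exp_ne_zero c
  · intro c hc f hf hfV
    by_cases hc0 : c = 0
    · exfalso
      obtain ⟨hV, he⟩ := hfV 0
      exact e_ne_zero hY hV (he.trans hc0)
    · exact hBf c (fun h => hc ⟨Or.inl h, hc0⟩) f hf hfV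

/-- **Limit curves in the fibres are constant.** -/
theorem exists_const {Y V : Set (PN M)} {e : PN M → ℂ} (hY : IsModel Y V e) (hh : IsHyperbolic Y V e) : ∃ B₀ : Set ℂ, B₀.Finite ∧ Const V e B₀ := by
  obtain ⟨B₁, a, δ, hB₁, E⟩ := exists_lbase hY hh
  refine ⟨B₁, hB₁, ?_⟩
  intro l G g c hne hl hg hG hc hlim
  obtain ⟨H, hHd, hHg⟩ := exists_lift hg
  have hof : ∀ x : EN M, (LE M).symm x = x.ofLp := fun _ => rfl
  have hH0 : ∀ z, (H z).ofLp ≠ 0 := fun z => (hHg z).1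
  -- the good points
  have hgood : ∀ z₀, ∀ᶠ z in 𝓝[≠] z₀, H z ∈ coneOf V ∧ ev e (H z) = c := by
    intro z₀
    filter_upwards [hlim z₀] with z hz
    obtain ⟨-, h1, h2⟩ := hz
    obtain ⟨h3, h4⟩ := hHg z
    rw [h4] at h1 h2
    exact ⟨⟨h3, h1⟩, (ev_of (e := e) (x := H z) h3).trans h2⟩
  have hc0 : c ≠ 0 := by
    obtain ⟨z, h1, h2⟩ := (hgood 0).exists
    rw [← h2]
    exact ev_ne_zero hY h1
  have hmemV : ∀ z, H z ∈ closure (coneOf V) ∧ Tendsto H (𝓝[≠] z) (𝓝[coneOf V] (H z)) := by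
    intro z
    have h1 : Tendsto H (𝓝[≠] z) (𝓝 (H z)) := hHd.continuous.continuousAt.tendsto.mono_left nhdsWithin_le_nhds
    have h2 : Tendsto H (𝓝[≠] z) (𝓝[coneOf V] (H z)) :=
      tendsto_nhdsWithin_iff.2 ⟨h1, (hgood z).mono fun w hw => hw.1⟩
    exact ⟨mem_closure_iff_nhdsWithin_neBot.2 (h2.neBot), h2⟩
  have hval : ∀ z, H z ∈ coneOf Y ∧ Tendsto (ev e) (𝓝[coneOf V] (H z)) (𝓝 c) := by
    intro z
    obtain ⟨h1, h2⟩ := hmemV z
    have hHY : H z ∈ coneOf Y := closed_coneOf hY _ (closure_mono (coneOf_mono hY.sub) h1) (by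
      intro h3
      apply hH0 z
      rw [h3]
      rfl)
    refine ⟨hHY, ?_⟩
    have h3 : Tendsto (fun w => ev e (H w)) (𝓝[≠] z) (𝓝 c) :=
      tendsto_const_nhds.congr' ((hgood z).mono fun w hw => hw.2.symm)
    rcases cover hY hHY with ⟨-, c', hc', h4⟩ | ⟨-, h4⟩ | ⟨-, h4⟩
    · rwa [tendsto_nhds_unique (h4.comp h2) h3] at h4
    · exact absurd (tendsto_nhds_unique (h4.comp h2) h3).symm hc0
    · exfalso
      have h5 : Tendsto (fun w => ev (fun y => (e y)⁻¹) (H w)) (𝓝[≠] z) (𝓝 c⁻¹) := by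
        refine tendsto_const_nhds.congr' ((hgood z).mono fun w hw => ?_)
        show c⁻¹ = ev (fun y => (e y)⁻¹) (H w)
        rw [ev_inv e hw.1.1, hw.2]
      exact inv_ne_zero hc0 (tendsto_nhds_unique (h4.comp h2) h5).symm
  have hXX : ∀ z, H z ∈ XX Y V e := fun z => ⟨(hval z).1, c, hc0, (hval z).2⟩
  -- the limit curve
  have hL : H ∈ LCur (XX Y V e) (DH Y V e) := by
    refine ⟨hHd, hXX, {z | ConvPN l G g z}ᶜ, Pool.Agent.H4.LU.Lif.convPN_open.isClosed_compl, ?_, ?_⟩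
    · intro z
      filter_upwards [hlim z] with w hw
      exact fun hn => hn hw.1
    · intro R ε hε K hK hKZ
      have hKC : K ⊆ {z | ConvPN l G g z} := fun z hz => not_not.1 (hKZ z hz)
      have h1 : TendstoUniformlyOn (fun n z => prP (G n z)) (fun z => prP (g z)) l K :=
        (tendstoLocallyUniformlyOn_iff_tendstoUniformlyOn_of_compact hK).1 (convPN_unif.mono hKC)
      have h2 := Metric.tendstoUniformlyOn_iff.1 h1 ε hε
      have h3 : ∀ᶠ n : ℕ in l, |R| + 1 < (n : ℝ) + 1 := by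
        refine hl ?_
        have : Tendsto (fun n : ℕ => (n : ℝ) + 1) atTop atTop := tendsto_natCast_atTop_atTop.atTop_add tendsto_const_nhds
        exact this.eventually_gt_atTop _
      haveI := hne
      obtain ⟨n, hn1, hn2⟩ := (h2.and h3).exists
      have hR : R ≤ |R| := le_abs_self R
      obtain ⟨F, hF, hFG⟩ := lift_big (r := |R| + 1) (by positivity) hn2 (hG n).1
      have hball : ∀ z : ℂ, ‖z‖ ≤ R → z ∈ ball (0 : ℂ) (|R| + 1) := fun z hz => by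
        rw [mem_ball_zero_iff]
        linarith
      refine ⟨F, fun z hz => ?_, fun z hz hzR => ?_⟩
      · have hzb := hball z (by simpa using hz)
        obtain ⟨h4, h4'⟩ := hFG z hzb
        have h5 : G n z ∈ V := (hG n).2 z (by
          rw [mem_ball_zero_iff] at hzb ⊢
          linarith)
        rw [h4'] at h5
        have h6 : F z ∈ coneOf V := ⟨h4, h5⟩
        rw [← XX_diff hY] at h6
        exact ⟨hF.analyticAt (isOpen_ball.mem_nhds hzb), h6.1, h6.2⟩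
      · obtain ⟨h4, h4'⟩ := hFG z (hball z hzR)
        obtain ⟨h5, h5'⟩ := hHg z
        have h6 := hn1 z hz
        rw [h4', h5', mk_symm h4, mk_symm h5, dist_comm] at h6
        exact h6
  -- constancy
  have hu : ∀ z, uu V e a (H z) - (Complex.log c - a) ∈ Lam := by
    intro z
    rw [uu_mem hY (hval z).1 hc0 (hval z).2, sub_add_cancel, Complex.exp_log hc0]
  have hcB : Complex.log c - a ∉ BB B₁ a := by
    intro h1
    have h2 : Complex.exp (Complex.log c - a + a) ∈ B₁ := h1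
    rw [sub_add_cancel, Complex.exp_log hc0] at h2
    exact hc h2
  intro z w
  have h1 := lcur_fibre E.toLFib hL hu hcB z w
  have hne' : ∀ z, H z ≠ 0 := fun z h3 => hH0 z (by rw [h3]; rfl)
  obtain ⟨b, hb, h2⟩ := (pr_eq_iff (hne' z) (hne' w)).1 h1
  obtain ⟨h3, h3'⟩ := hHg z
  obtain ⟨h4, h4'⟩ := hHg w
  rw [h3', h4']
  refine (Projectivization.mk_eq_mk_iff' ℂ _ _ _ _).2 ⟨b, ?_⟩
  rw [← map_smul, ← h2]

end Pool.Agent.H4.LU

end
end

section

/-!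
# LU Limit: `j ∘ f ∘ ψ` is a limit of sections

`e (j (F n z)) = exp (φ n z)`, `φ n → φ`, `φ ∘ ψ = id`.
-/

set_option autoImplicit false

open Topology Filter MvPolynomial Metric

noncomputable section

namespace Pool.Agent.H4.LU

attribute [-instance] ProperSMul.toContinuousSMul

open Pool.Agent.H17 (PN VanishesAt HolomorphicInto vanishesAt_mk_iff)
open Pool.Agent.H62.SA (locVar)
open Pool.Agent.H36.LB (ConvPN IsLimitPN)

variable {M N : ℕ}

/-- inverses of the maps `θ n`, on larger and larger compact sets -/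
theorem exists_inverses {l : Filter ℕ} (hl : l ≤ atTop) {Ω : Set ℂ} (hΩ : IsOpen Ω) {θ : ℕ → ℂ → ℂ} (hθ : TendstoLocallyUniformlyOn θ id l Ω)
    (hd : ∀ K : Set ℂ, K ⊆ Ω → IsCompact K → ∀ᶠ n in l, ∀ z ∈ K, DifferentiableAt ℂ (θ n) z) :
    ∃ κ : ℕ → ℂ → ℂ, ∀ K : Set ℂ, K ⊆ Ω → IsCompact K → ∀ ε : ℝ, 0 < ε → ∀ᶠ n in l, ∃ W : Set ℂ, IsOpen W ∧ K ⊆ W ∧ DifferentiableOn ℂ (κ n) W ∧
      ∀ w ∈ W, θ n (κ n w) = w ∧ ‖κ n w - w‖ < ε := by
  classical
  -- an exhaustion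
  obtain ⟨E, hEc, hEm, hEe⟩ : ∃ E : ℕ → Set ℂ, (∀ m, IsCompact (E m) ∧ E m ⊆ Ω) ∧ Monotone E ∧ ∀ K : Set ℂ, K ⊆ Ω → IsCompact K → ∃ m, K ⊆ E m := by
    refine ⟨fun m => closedBall 0 m ∩ {z | ∀ w, w ∉ Ω → 1 / ((m : ℝ) + 1) ≤ dist z w}, fun m => ⟨?_, ?_⟩, ?_, ?_⟩
    · refine (isCompact_closedBall 0 (m : ℝ)).inter_right ?_
      have h1 : {z : ℂ | ∀ w, w ∉ Ω → 1 / ((m : ℝ) + 1) ≤ dist z w} = ⋂ w, ⋂ (_ : w ∉ Ω), {z : ℂ | 1 / ((m : ℝ) + 1) ≤ dist z w} := by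
        ext z
        simp
      rw [h1]
      exact isClosed_iInter fun w => isClosed_iInter fun _ => isClosed_le continuous_const (by fun_prop)
    · rintro z ⟨-, hz⟩
      by_contra hcon
      have h1 := hz z hcon
      rw [dist_self] at h1
      have h2 : 0 < 1 / ((m : ℝ) + 1) := by positivity
      linarith
    · intro m m' hmm z hz
      have hmm' : (m : ℝ) ≤ m' := Nat.cast_le.2 hmm
      refine ⟨closedBall_subset_closedBall hmm' hz.1, fun w hw => le_trans ?_ (hz.2 w hw)⟩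
      exact one_div_le_one_div_of_le (by positivity) (by linarith)
    · intro K hKΩ hK
      obtain ⟨r, hr, hrK⟩ := hK.exists_cthickening_subset_open hΩ hKΩ
      obtain ⟨R, hR⟩ := hK.isBounded.subset_closedBall 0
      obtain ⟨m, hm⟩ := exists_nat_gt (max R (1 / r))
      refine ⟨m, fun z hz => ⟨closedBall_subset_closedBall ((le_max_left _ _).trans hm.le) (hR hz), fun w hw => ?_⟩⟩
      by_contra hcon
      push Not at hcon
      apply hw
      apply hrK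
      refine mem_cthickening_of_dist_le w z r K hz ?_
      have h1 : 1 / r < (m : ℝ) + 1 := by
        have := (le_max_right R (1 / r)).trans hm.le
        linarith
      have h2 : 1 / ((m : ℝ) + 1) < r := by
        rw [div_lt_iff₀ (by positivity)]
        rw [div_lt_iff₀ hr] at h1
        linarith
      rw [dist_comm]
      linarith
  let P : ℕ → ℕ → Prop := fun n m => ∃ (W : Set ℂ) (κ : ℂ → ℂ), IsOpen W ∧ E m ⊆ W ∧ DifferentiableOn ℂ κ W ∧
      ∀ w ∈ W, θ n (κ w) = w ∧ ‖κ w - w‖ < 1 / ((m : ℝ) + 1)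
  have hP : ∀ m, ∀ᶠ n in l, P n m := fun m =>
    Pool.Agent.H97.LU.exists_inverse hΩ hθ hd (hEc m).1 (hEc m).2 (by positivity)
  let mm : ℕ → ℕ := fun n => Nat.findGreatest (P n) n
  have hmm : ∀ m, ∀ᶠ n in l, m ≤ mm n ∧ P n (mm n) := by
    intro m
    filter_upwards [hP m, hl (eventually_ge_atTop m)] with n h1 h2
    exact ⟨Nat.le_findGreatest h2 h1, Nat.findGreatest_spec h2 h1⟩
  refine ⟨fun n => if h : P n (mm n) then h.choose_spec.choose else id, fun K hKΩ hK ε hε => ?_⟩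
  obtain ⟨m₁, hm₁⟩ := hEe K hKΩ hK
  obtain ⟨m₂, hm₂⟩ := exists_nat_gt (1 / ε)
  filter_upwards [hmm (max m₁ m₂)] with n hn
  obtain ⟨h1, h2⟩ := hn
  obtain ⟨h3, h4, h5, h6⟩ := h2.choose_spec.choose_spec
  simp only [dif_pos h2]
  refine ⟨h2.choose, h3, (hm₁.trans (hEm ((le_max_left _ _).trans h1))).trans h4, h5, fun w hw => ⟨(h6 w hw).1, (h6 w hw).2.trans ?_⟩⟩
  have h7 : (m₂ : ℝ) ≤ mm n := Nat.cast_le.2 ((le_max_right _ _).trans h1)
  rw [div_lt_iff₀ (by positivity)]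
  rw [div_lt_iff₀ hε] at hm₂
  nlinarith

/-- substitution in a locally uniform limit -/
theorem tlu_subst {E : Type} [NormedAddCommGroup E] {l : Filter ℕ} {Φ : ℕ → ℂ → E} {Φ₀ : ℂ → E} {U : Set ℂ} (hU : IsOpen U)
    (h : TendstoLocallyUniformlyOn Φ Φ₀ l U) (hc : ContinuousOn Φ₀ U) {g : ℕ → ℂ → ℂ} {g₀ : ℂ → ℂ} {W : Set ℂ}
    (hg : TendstoLocallyUniformlyOn g g₀ l W) (hgc : ContinuousOn g₀ W) (hgU : ∀ w ∈ W, g₀ w ∈ U) :
    TendstoLocallyUniformlyOn (fun n w => Φ n (g n w)) (fun w => Φ₀ (g₀ w)) l W := by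
  rw [tendstoLocallyUniformlyOn_iff_forall_tendsto] at h hg ⊢
  intro x hx
  have h1 : Tendsto (fun y : ℕ × ℂ => g₀ y.2) (l ×ˢ 𝓝[W] x) (𝓝 (g₀ x)) := (hgc x hx).tendsto.comp tendsto_snd
  have h2 : Tendsto (fun y : ℕ × ℂ => g y.1 y.2) (l ×ˢ 𝓝[W] x) (𝓝 (g₀ x)) := by
    rw [Metric.tendsto_nhds] at h1 ⊢
    intro ε hε
    have h4 := (hg x hx) (Metric.dist_mem_uniformity (show (0 : ℝ) < ε / 2 by positivity))
    filter_upwards [h1 (ε / 2) (by positivity), h4] with y hy1 hy2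
    have hy2 : dist (g₀ y.2) (g y.1 y.2) < ε / 2 := hy2
    calc dist (g y.1 y.2) (g₀ x) ≤ dist (g y.1 y.2) (g₀ y.2) + dist (g₀ y.2) (g₀ x) := dist_triangle _ _ _
      _ < ε := by rw [dist_comm (g y.1 y.2)]; linarith
  have hcx : ContinuousAt Φ₀ (g₀ x) := hc.continuousAt (hU.mem_nhds (hgU x hx))
  have h3 : Tendsto (fun y : ℕ × ℂ => (y.1, g y.1 y.2)) (l ×ˢ 𝓝[W] x) (l ×ˢ 𝓝[U] (g₀ x)) := by
    rw [hU.nhdsWithin_eq (hgU x hx)]
    exact tendsto_fst.prodMk h2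
  have h4 := (h (g₀ x) (hgU x hx)).comp h3
  have h5 : Tendsto (fun y : ℕ × ℂ => Φ₀ (g y.1 y.2)) (l ×ˢ 𝓝[W] x) (𝓝 (Φ₀ (g₀ x))) := hcx.tendsto.comp h2
  have h6 : Tendsto (fun y : ℕ × ℂ => Φ y.1 (g y.1 y.2)) (l ×ˢ 𝓝[W] x) (𝓝 (Φ₀ (g₀ x))) := by
    rw [Metric.tendsto_nhds] at h5 ⊢
    intro ε hε
    have h7 := h4 (Metric.dist_mem_uniformity (show (0 : ℝ) < ε / 2 by positivity))
    filter_upwards [h5 (ε / 2) (by positivity), h7] with y hy1 hy2
    have hy2 : dist (Φ₀ (g y.1 y.2)) (Φ y.1 (g y.1 y.2)) < ε / 2 := hy2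
    calc dist (Φ y.1 (g y.1 y.2)) (Φ₀ (g₀ x)) ≤ dist (Φ y.1 (g y.1 y.2)) (Φ₀ (g y.1 y.2)) + dist (Φ₀ (g y.1 y.2)) (Φ₀ (g₀ x)) := dist_triangle _ _ _
      _ < ε := by rw [dist_comm (Φ y.1 (g y.1 y.2))]; linarith
  have h7 : Tendsto (fun y : ℕ × ℂ => (Φ₀ (g₀ y.2), Φ y.1 (g y.1 y.2))) (l ×ˢ 𝓝[W] x) (𝓝 (Φ₀ (g₀ x), Φ₀ (g₀ x))) :=
    (hcx.tendsto.comp h1).prodMk_nhds h6
  exact h7.mono_right (nhds_le_uniformity _)

/-- **`j ∘ f ∘ ψ` is a limit of sections.** -/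
theorem lim_of_phases {P : Ideal (MvPolynomial (Fin (N + 1)) ℂ)} {s : ℕ} {G : Fin s → MvPolynomial (Fin (N + 1)) ℂ} {V : Set (PN M)} {e : PN M → ℂ}
    {j : PN N → PN M} (hj : IsRegularInto P G V e j) {l : Filter ℕ} {F : ℕ → ℂ → PN N} {f : ℂ → PN N} (hl : IsLimitPN (locVar P G) l F f)
    {a b c : ℂ} {φn : ℕ → ℂ → ℂ}
    (h1 : ∀ R : ℝ, ∀ᶠ n in l, DifferentiableOn ℂ (φn n) (ball 0 R) ∧ ∀ z ∈ ball (0 : ℂ) R, e (j (F n z)) = Complex.exp (φn n z))
    (h2 : TendstoLocallyUniformlyOn φn (fun z => a * z ^ 2 + b * z + c) l Set.univ)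
    (h3 : ∀ z, ConvPN l F f z → e (j (f z)) = Complex.exp (a * z ^ 2 + b * z + c)) : Lim V e j l F f a b c := by
  haveI := hl.neBot
  refine ⟨h3, fun Ω ψ hΩ hΩc hψ hφψ => ?_⟩
  have hψc : ContinuousOn ψ Ω := hψ.continuousOn
  -- the maps `θ n = φ n ∘ ψ`
  have hθ : TendstoLocallyUniformlyOn (fun n z => φn n (ψ z)) id l Ω := by
    have h4 := h2.comp ψ (Set.mapsTo_univ ψ Ω) hψc
    refine h4.congr_right fun z hz => ?_
    simpa using hφψ z hz
  have hd : ∀ K : Set ℂ, K ⊆ Ω → IsCompact K → ∀ᶠ n in l, ∀ z ∈ K, DifferentiableAt ℂ (fun z => φn n (ψ z)) z := by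
    intro K hK hKc
    obtain ⟨R, hR⟩ := (hKc.image_of_continuousOn (hψc.mono hK)).isBounded.subset_ball 0
    filter_upwards [h1 R] with n hn z hz
    have h5 : DifferentiableAt ℂ (φn n) (ψ z) := hn.1.differentiableAt (isOpen_ball.mem_nhds (hR (Set.mem_image_of_mem ψ hz)))
    exact h5.comp z (hψ.differentiableAt (hΩ.mem_nhds (hK hz)))
  obtain ⟨κ, hκ⟩ := exists_inverses hl.le_atTop hΩ hθ hd
  refine ⟨?_, l, fun n z => j (F n (ψ (κ n z))), hl.neBot, ?_, ?_⟩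
  · -- the exceptional set is discrete
    intro z hz
    have ht : Tendsto ψ (𝓝[≠] z) (𝓝[≠] (ψ z)) := by
      rw [tendsto_nhdsWithin_iff]
      refine ⟨(hψc.continuousAt (hΩ.mem_nhds hz)).tendsto.mono_left nhdsWithin_le_nhds, ?_⟩
      filter_upwards [nhdsWithin_le_nhds (hΩ.mem_nhds hz), self_mem_nhdsWithin] with w hw hwz hcon
      apply hwz
      have h5 : ψ w = ψ z := hcon
      have h6 := hφψ w hw
      rw [h5, hφψ z hz] at h6
      exact h6.symm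
    filter_upwards [ht.eventually (hl.conv (ψ z))] with w hw hw'
    exact hw' hw
  · -- sections
    intro K hKΩ hK
    obtain ⟨r, hr, hrK⟩ := hK.exists_cthickening_subset_open hΩ hKΩ
    have hKr : IsCompact (cthickening r K) := hK.cthickening
    obtain ⟨R, hR⟩ := (hKr.image_of_continuousOn (hψc.mono hrK)).isBounded.subset_ball 0
    filter_upwards [h1 R, hκ K hKΩ hK (r / 2) (by positivity), hl.le_atTop (eventually_ge_atTop ⌈R⌉₊)] with n hn1 hn2 hn3 z hz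
    obtain ⟨W, hW, hKW, hκd, hκW⟩ := hn2
    have hnear : ∀ᶠ w in 𝓝 z, w ∈ W ∧ κ n w ∈ Ω ∧ ψ (κ n w) ∈ ball (0 : ℂ) R := by
      filter_upwards [hW.mem_nhds (hKW hz), ball_mem_nhds z (show 0 < r / 2 by positivity)] with w hw hw'
      have h5 : κ n w ∈ cthickening r K := by
        refine mem_cthickening_of_dist_le _ z r K hz ?_
        calc dist (κ n w) z ≤ dist (κ n w) w + dist w z := dist_triangle _ _ _
          _ ≤ r / 2 + r / 2 := by
            refine add_le_add ?_ (mem_ball.1 hw').le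
            rw [dist_eq_norm]
            exact (hκW w hw).2.le
          _ = r := by ring
      exact ⟨hw, hrK h5, hR (Set.mem_image_of_mem ψ h5)⟩
    have hsub : ball (0 : ℂ) R ⊆ ball 0 (n + 1) := by
      refine ball_subset_ball ?_
      have h5 : R ≤ n := (Nat.le_ceil R).trans (Nat.cast_le.2 hn3)
      linarith
    obtain ⟨h5, h6, h7⟩ := hnear.self_of_nhds
    have hκa : AnalyticAt ℂ (κ n) z := hκd.analyticAt (hW.mem_nhds h5)
    have hψa : AnalyticAt ℂ ψ (κ n z) := hψ.analyticAt (hΩ.mem_nhds h6)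
    have hca : AnalyticAt ℂ (fun w => ψ (κ n w)) z := hψa.comp hκa
    refine ⟨?_, ?_⟩
    · obtain ⟨Φ, hΦ, hΦe⟩ := holInto_j hj isOpen_ball (hl.holF n) (hl.memF n) (ψ (κ n z)) (hsub h7)
      exact ⟨fun w => Φ (ψ (κ n w)), AnalyticAt.comp (g := Φ) (f := fun w => ψ (κ n w)) hΦ hca, hca.continuousAt.eventually hΦe⟩
    · filter_upwards [hnear] with w hw
      obtain ⟨h8, h9, h10⟩ := hw
      refine ⟨hj.maps _ (hl.memF n _ (hsub h10)), ?_⟩
      rw [hn1.2 _ h10]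
      exact congrArg Complex.exp (hκW w h8).1
  · -- convergence
    intro z hz hzc
    have hzc' : ConvPN l F f (ψ z) := by
      by_contra hcon
      exact hzc hcon
    obtain ⟨t, Φ, Φ₀, ht, h4, h5, h6, h7⟩ := conv_j hj hl hzc'
    have hev : ∀ᶠ w in 𝓝 z, w ∈ Ω ∧ ψ w ∈ ball (ψ z) t := by
      filter_upwards [hΩ.mem_nhds hz, (hψc.continuousAt (hΩ.mem_nhds hz)).eventually (ball_mem_nhds _ ht)] with w h8 h9
      exact ⟨h8, h9⟩
    obtain ⟨r, hr, hrb⟩ := Metric.eventually_nhds_iff_ball.1 hev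
    have hK1 : closedBall z (r / 4) ⊆ Ω := fun w hw => (hrb w (closedBall_subset_ball (by linarith) hw)).1
    have hgood : ∀ᶠ n in l, ∃ W : Set ℂ, IsOpen W ∧ closedBall z (r / 4) ⊆ W ∧ DifferentiableOn ℂ (κ n) W ∧
        ∀ w ∈ closedBall z (r / 4), κ n w ∈ ball z r := by
      filter_upwards [hκ _ hK1 (isCompact_closedBall z (r / 4)) (r / 4) (by positivity)] with n hn
      obtain ⟨W, hW, hKW, hκd, hκW⟩ := hn
      refine ⟨W, hW, hKW, hκd, fun w hw => ?_⟩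
      rw [mem_ball]
      calc dist (κ n w) z ≤ dist (κ n w) w + dist w z := dist_triangle _ _ _
        _ < r := by
          have h8 := (hκW w (hKW hw)).2
          rw [← dist_eq_norm] at h8
          have h9 := mem_closedBall.1 hw
          linarith
    have hball : ball z (r / 4) ⊆ ball z r := ball_subset_ball (by linarith)
    refine ⟨r / 4, fun n w => Φ n (ψ (κ n w)), fun w => Φ₀ (ψ w), by positivity, ?_, ?_, ?_, ?_⟩
    · filter_upwards [h4, hgood] with n hn1 hn2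
      obtain ⟨W, hW, hKW, hκd, hκW⟩ := hn2
      refine ⟨fun w hw => ?_, fun w hw => hn1.2 _ (hrb _ (hκW w (ball_subset_closedBall hw))).2⟩
      have h8 := hrb _ (hκW w (ball_subset_closedBall hw))
      have h9 : DifferentiableAt ℂ (κ n) w := hκd.differentiableAt (hW.mem_nhds (hKW (ball_subset_closedBall hw)))
      have h10 : DifferentiableAt ℂ (fun w => ψ (κ n w)) w := (hψ.differentiableAt (hΩ.mem_nhds h8.1)).comp w h9
      exact (DifferentiableAt.comp (g := Φ n) w (hn1.1.differentiableAt (isOpen_ball.mem_nhds h8.2)) h10).differentiableWithinAt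
    · intro w hw
      have h8 := hrb _ (hball hw)
      exact (DifferentiableAt.comp (g := Φ₀) w (h5.differentiableAt (isOpen_ball.mem_nhds h8.2))
        (hψ.differentiableAt (hΩ.mem_nhds h8.1))).differentiableWithinAt
    · exact fun w hw => h6 _ (hrb _ (hball hw)).2
    · -- `ψ ∘ κ n → ψ`
      refine tlu_subst isOpen_ball h7 h5.continuousOn ?_ (hψc.mono fun w hw => (hrb w (hball hw)).1) fun w hw => (hrb w (hball hw)).2
      have hκt : TendstoLocallyUniformlyOn κ id l (ball z (r / 4)) := by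
        rw [Metric.tendstoLocallyUniformlyOn_iff]
        intro ε hε x hx
        refine ⟨ball z (r / 4), mem_nhdsWithin_of_mem_nhds (isOpen_ball.mem_nhds hx), ?_⟩
        filter_upwards [hκ _ hK1 (isCompact_closedBall z (r / 4)) ε hε] with n hn w hw
        obtain ⟨W, hW, hKW, hκd, hκW⟩ := hn
        rw [id, dist_comm, dist_eq_norm]
        exact (hκW w (hKW (ball_subset_closedBall hw))).2
      refine tlu_subst (Φ := fun _ => ψ) hΩ ?_ hψc hκt continuousOn_id fun w hw => (hrb w (hball hw)).1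
      rw [Metric.tendstoLocallyUniformlyOn_iff]
      intro ε hε x hx
      exact ⟨Set.univ, univ_mem, Eventually.of_forall fun n w _ => by simpa using hε⟩

end Pool.Agent.H4.LU

end
end

section

/-!
# LU Phases: the third input of `Pool.Agent.H4.LU.Main`
-/

set_option autoImplicit false

open Topology Filter Metric MvPolynomial

namespace Pool.Agent.H13.LU

attribute [-instance] ProperSMul.toContinuousSMul

open Pool.Agent.H17 (PN VanishesAt HolomorphicInto)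
open Pool.Agent.H62.SA (locVar)
open Pool.Agent.H36.LB (ConvPN IsLimitPN)
open Pool.Agent.H13.OT (OrderTwo)
open Pool.Agent.H4.LU (IsModel IsRegularInto analyticAt_e holInto_j conv_e Lim lim_of_phases)

variable {M N : ℕ}

/-- **The limits of discs in `U`, with `e ∘ j ∘ f = exp (a z ^ 2 + b z + c)`.** -/
theorem exists_lim {P : Ideal (MvPolynomial (Fin (N + 1)) ℂ)} {s : ℕ} {G : Fin s → MvPolynomial (Fin (N + 1)) ℂ} {Y V : Set (PN M)} {e : PN M → ℂ}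
    {j : PN N → PN M} (hY : IsModel Y V e) (hj : IsRegularInto P G V e j) {D : ℕ} {A B : MvPolynomial (Fin (N + 1)) ℂ} (hA : A.IsHomogeneous D)
    (hB : B.IsHomogeneous D) (hAB : ∀ x ∈ locVar P G, e (j x) * eval x.rep B = eval x.rep A) {l : Filter ℕ} {F : ℕ → ℂ → PN N} {f : ℂ → PN N}
    (hl : IsLimitPN (locVar P G) l F f) (hord : OrderTwo f) (hv : ∃ z, ¬ VanishesAt B (f z)) : ∃ a b c : ℂ, Lim V e j l F f a b c := by
  have hE : ∀ n : ℕ, ∀ z ∈ ball (0 : ℂ) (n + 1), AnalyticAt ℂ (fun w => e (j (F n w))) z ∧ e (j (F n z)) ≠ 0 := by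
    intro n z hz
    obtain ⟨Φ, hΦ, he⟩ := holInto_j hj isOpen_ball (hl.holF n) (hl.memF n) z hz
    refine analyticAt_e (g := fun w => j (F n w)) hY hΦ he ?_
    filter_upwards [isOpen_ball.mem_nhds hz] with w hw
    exact hj.maps _ (hl.memF n w hw)
  have he0 : ∀ z, ConvPN l F f z → e (j (f z)) ≠ 0 := by
    intro z hz
    -- the values of `e` on `V` are not zero
    have hm : j (f z) ∈ V := hj.maps _ (hl.mem_of_conv z hz)
    have h1 : ∃ φ : ℂ → Fin (M + 1) → ℂ, AnalyticAt ℂ φ 0 ∧ ∀ᶠ w in 𝓝 (0 : ℂ), ∃ h : φ w ≠ 0, j (f z) = Projectivization.mk ℂ (φ w) h :=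
      ⟨fun _ => (j (f z)).rep, analyticAt_const, Eventually.of_forall fun w => ⟨(j (f z)).rep_nonzero, (Projectivization.mk_rep _).symm⟩⟩
    obtain ⟨φ, hφ, h2⟩ := h1
    exact (analyticAt_e (g := fun _ => j (f z)) hY hφ h2 (Eventually.of_forall fun _ => hm)).2
  obtain ⟨a, b, c, φn, h1, h2, h3, h4⟩ := phases_core (e := fun x => e (j x)) hl hord
    (fun n z hz => (hE n z hz).1.differentiableAt.differentiableWithinAt) (fun n z hz => (hE n z hz).2)
    (fun z hz => conv_e hY hj hl hz) he0 hA hB (fun z hz => hAB _ (hl.mem_of_conv z hz)) hv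
  refine ⟨a, b, c, lim_of_phases (φn := φn) hj hl ?_ ?_ h4⟩
  · intro R
    obtain ⟨n₀, hn₀⟩ := exists_nat_gt R
    filter_upwards [hl.le_atTop (eventually_ge_atTop n₀)] with n hn
    have hn1 : R ≤ n + 1 := by
      have : (n₀ : ℝ) ≤ n := by exact_mod_cast hn
      linarith
    have hsub : ball (0 : ℂ) R ⊆ ball 0 (n + 1) := ball_subset_ball hn1
    exact ⟨(h1 n).mono hsub, fun z hz => (h2 n z (hsub hz)).symm⟩
  · rw [tendstoLocallyUniformlyOn_iff_forall_isCompact isOpen_univ]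
    intro K _ hK
    obtain ⟨R, hR⟩ := hK.isBounded.subset_closedBall 0
    exact (h3 R).mono hR

end Pool.Agent.H13.LU

end
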