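import Pool.Agent.H94.CB.H36.BP.WdA_2
import Pool.Agent.H94.CB.H62.EF.LimL
import Pool.Agent.H94.CB.M22
import Pool.Agent.H94.CB.M240

/-! The parts of this file: H86.LS.Zl, H86.LS.Lim, H86.LS.Away. -/

section

/-!
# LS Zl: the sections which avoid the curves are uniformly Lipschitz away from the bad fibres

As `Pool.Agent.H62.EL.Zl`: Zalcman's rescaling; the limit is an entire curve in a fibre, and by Hurwitz' theorem
it avoids `D_i` or it lies in `D_i`.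
-/

set_option autoImplicit false

open Topology Filter Metric

namespace Pool.Agent.H86.LS

attribute [-instance] ProperSMul.toContinuousSMul

open Pool.Agent.H36.BP (EN fs wd)
open Pool.Agent.H14.PP (IsCone)
open Pool.Agent.H62.EF (Lat MN pr TorusMap Sec)
open Pool.Agent.H62.EL (BadSet Gd isClosed_gd gd_notMem gd_mono)

variable {N s : ℕ} {X : Set (EN N)} {Λ : AddSubgroup ℂ} {u : EN N → ℂ}

/-- Hurwitz' theorem for a limit of holomorphic curves and a form -/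
theorem hurwitz_local {V : Type} [NormedAddCommGroup V] [NormedSpace ℂ V] {g : V → ℂ} (hg : Differentiable ℂ g) (𝒰 : Ultrafilter ℕ)
    {φ : ℕ → ℂ → V} {ψ : ℂ → V} {z₀ : ℂ} {r : ℝ} (h1 : ∀ᶠ n in (𝒰 : Filter ℕ), DifferentiableOn ℂ (φ n) (ball z₀ r))
    (h2 : ∀ᶠ n in (𝒰 : Filter ℕ), ∀ z ∈ ball z₀ r, g (φ n z) ≠ 0) (hψ : DifferentiableOn ℂ ψ (ball z₀ r))
    (hc : TendstoLocallyUniformlyOn φ ψ 𝒰 (ball z₀ r)) :
    (∀ z ∈ ball z₀ r, g (ψ z) = 0) ∨ ∀ z ∈ ball z₀ r, g (ψ z) ≠ 0 := by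
  refine Pool.Agent.H62.Log.hurwitz 𝒰 (φ := fun n z => g (φ n z)) (h1.mono fun n hn => hg.comp_differentiableOn hn) h2
    (hg.comp_differentiableOn hψ) ?_
  intro z z₁ hz₁ hz
  refine (hg.continuous.tendsto _).comp ?_
  exact hc.tendsto_comp (hψ.continuousOn z₁ hz₁) hz₁ (tendsto_nhdsWithin_iff.2 ⟨hz, hz.eventually (isOpen_ball.mem_nhds hz₁)⟩)

/-- a holomorphic curve on a connected set which locally avoids a hypersurface or lies in it -/
theorem dichotomy {U : Set ℂ} (hU : IsPreconnected U) {p : ℂ → Prop}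
    (h : ∀ z₀ ∈ U, ∃ r : ℝ, 0 < r ∧ ((∀ z ∈ ball z₀ r, p z) ∨ ∀ z ∈ ball z₀ r, ¬ p z)) : (∀ z ∈ U, p z) ∨ ∀ z ∈ U, ¬ p z := by
  by_cases hne : ∃ z₀ ∈ U, p z₀
  · left
    obtain ⟨z₀, hz₀, hp₀⟩ := hne
    set V : Set ℂ := {z | ∀ᶠ w in 𝓝 z, p w} with hV
    have hVo : IsOpen V := by
      rw [isOpen_iff_mem_nhds]
      intro z hz
      exact hz.eventually_nhds
    have hpV : ∀ z ∈ U, p z → z ∈ V := by
      intro z hz hp
      obtain ⟨r, hr, h1 | h1⟩ := h z hz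
      · exact Filter.eventually_of_mem (isOpen_ball.mem_nhds (mem_ball_self hr)) h1
      · exact absurd hp (h1 z (mem_ball_self hr))
    have hsub : U ⊆ V := by
      refine hU.subset_of_closure_inter_subset hVo ⟨z₀, hz₀, hpV z₀ hz₀ hp₀⟩ ?_
      rintro z ⟨hzc, hz⟩
      obtain ⟨r, hr, h1 | h1⟩ := h z hz
      · exact hpV z hz (h1 z (mem_ball_self hr))
      · obtain ⟨w, hw1, hw2⟩ := _root_.mem_closure_iff.1 hzc (ball z r) isOpen_ball (mem_ball_self hr)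
        exact absurd hw2.self_of_nhds (h1 w hw1)
    exact fun z hz => (hsub hz : z ∈ V).self_of_nhds
  · right
    push Not at hne
    exact hne

private theorem rescale_fs_half {F : ℂ → EN N} (hF : Differentiable ℂ F) (h0 : ∀ z, F z ≠ 0) (n : ℕ)
    (hbig : 4 * ((n : ℝ) + 1) < fs (F 0) (deriv F 0)) :
    ∃ (z₀ : ℂ) (a : ℝ), ‖z₀‖ ≤ 1 / 2 ∧ 4 * ((n : ℝ) + 1) < a ∧ fs (F z₀) (deriv (fun ζ => F (z₀ + ((a⁻¹ : ℝ) : ℂ) * ζ)) 0) = 1 ∧
      ∀ ζ ∈ ball (0 : ℂ) (n + 1), fs (F (z₀ + ((a⁻¹ : ℝ) : ℂ) * ζ)) (deriv (fun ζ => F (z₀ + ((a⁻¹ : ℝ) : ℂ) * ζ)) ζ) ≤ 2 := by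
  have hn : (0 : ℝ) ≤ n := Nat.cast_nonneg n
  have hFc : Continuous F := hF.continuous
  have hF'c : Continuous (deriv F) := (hF.contDiff (n := 1)).continuous_deriv le_rfl
  have hgc : Continuous fun z : ℂ => fs (F z) (deriv F z) := by
    unfold fs
    refine (Pool.Agent.H36.BP.wd_cont.comp (hFc.prodMk hF'c)).div (hFc.norm.pow 2) ?_
    intro z
    exact pow_ne_zero 2 (norm_ne_zero_iff.mpr (h0 z))
  set u : ℂ → ℝ := fun z => fs (F z) (deriv F z) * (1 / 2 - ‖z‖) with hu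
  have huc : Continuous u := hgc.mul (continuous_const.sub continuous_norm)
  obtain ⟨z₀, hz₀, hmax⟩ := (isCompact_closedBall (0 : ℂ) (1 / 2)).exists_isMaxOn ⟨0, by simp⟩ huc.continuousOn
  have hz₀n : ‖z₀‖ ≤ 1 / 2 := by simpa using hz₀
  have hu0z : u 0 ≤ u z₀ := hmax (by simp : (0 : ℂ) ∈ closedBall (0 : ℂ) (1 / 2))
  have hu0 : u 0 = fs (F 0) (deriv F 0) / 2 := by simp only [hu, norm_zero]; ring
  have hm : 2 * ((n : ℝ) + 1) < u z₀ := by rw [hu0] at hu0z; linarith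
  set d : ℝ := 1 / 2 - ‖z₀‖ with hd
  have hd0 : 0 ≤ d := by rw [hd]; linarith
  set a : ℝ := fs (F z₀) (deriv F z₀) with ha
  have ha0 : 0 ≤ a := Pool.Agent.H36.BP.fs_nonneg _ _
  have huz : u z₀ = a * d := rfl
  have hpos : 0 < a * d := by rw [← huz]; linarith
  have hapos : 0 < a := by
    rcases ha0.lt_or_eq with h | h
    · exact h
    · rw [← h] at hpos; simp at hpos
  have hdpos : 0 < d := by
    rcases hd0.lt_or_eq with h | h
    · exact h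
    · rw [← h] at hpos; simp at hpos
  have hd2 : d ≤ 1 / 2 := by rw [hd]; linarith [norm_nonneg z₀]
  have haL : 4 * ((n : ℝ) + 1) < a := by
    have h1 : a * d ≤ a * (1 / 2) := mul_le_mul_of_nonneg_left hd2 ha0
    rw [huz] at hm
    linarith
  set φ : ℂ → ℂ := fun ζ => z₀ + ((a⁻¹ : ℝ) : ℂ) * ζ with hφ
  have hφd : ∀ ζ, HasDerivAt φ ((a⁻¹ : ℝ) : ℂ) ζ := by
    intro ζ
    have := ((hasDerivAt_id ζ).const_mul ((a⁻¹ : ℝ) : ℂ)).const_add z₀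
    simpa [hφ] using this
  have hkey : ∀ ζ ∈ ball (0 : ℂ) (n + 1), ‖φ ζ‖ ≤ 1 / 2 - d / 2 := by
    intro ζ hζ
    have hζn : ‖ζ‖ < n + 1 := by simpa using hζ
    have h1 : ‖φ ζ‖ ≤ ‖z₀‖ + a⁻¹ * ‖ζ‖ := by
      calc ‖φ ζ‖ ≤ ‖z₀‖ + ‖((a⁻¹ : ℝ) : ℂ) * ζ‖ := norm_add_le _ _
        _ = ‖z₀‖ + a⁻¹ * ‖ζ‖ := by
          rw [norm_mul, Complex.norm_real, Real.norm_of_nonneg (by positivity)]
    have h2 : a⁻¹ * ‖ζ‖ ≤ d / 2 := by
      rw [inv_mul_le_iff₀ hapos]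
      rw [huz] at hm
      linarith
    have h3 : ‖z₀‖ = 1 / 2 - d := by rw [hd]; ring
    linarith
  have hball : ∀ ζ ∈ ball (0 : ℂ) (n + 1), φ ζ ∈ closedBall (0 : ℂ) (1 / 2) := by
    intro ζ hζ
    have := hkey ζ hζ
    rw [mem_closedBall_zero_iff]
    linarith
  have hder : ∀ ζ, deriv (fun ζ => F (φ ζ)) ζ = ((a⁻¹ : ℝ) : ℂ) • deriv F (φ ζ) := by
    intro ζ
    exact ((hF (φ ζ)).hasDerivAt.scomp ζ (hφd ζ)).deriv
  have hfs : ∀ ζ, fs (F (φ ζ)) (deriv (fun ζ => F (φ ζ)) ζ) = a⁻¹ * fs (F (φ ζ)) (deriv F (φ ζ)) := by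
    intro ζ
    rw [hder, Pool.Agent.H36.BP.fs_smul_right, Complex.norm_real, Real.norm_of_nonneg (by positivity)]
  have hφ0 : φ 0 = z₀ := by simp [hφ]
  refine ⟨z₀, a, hz₀n, haL, ?_, ?_⟩
  · have h1 := hfs 0
    rw [hφ0, ← ha, inv_mul_cancel₀ hapos.ne'] at h1
    exact h1
  · intro ζ hζ
    change fs (F (φ ζ)) (deriv (fun ζ => F (φ ζ)) ζ) ≤ 2
    rw [hfs ζ]
    have h1 : u (φ ζ) ≤ u z₀ := hmax (hball ζ hζ)
    have h2 := hkey ζ hζ
    have h3 : fs (F (φ ζ)) (deriv F (φ ζ)) * (1 / 2 - ‖φ ζ‖) ≤ a * d := h1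
    have h4 : 0 ≤ fs (F (φ ζ)) (deriv F (φ ζ)) := Pool.Agent.H36.BP.fs_nonneg _ _
    have h5 : fs (F (φ ζ)) (deriv F (φ ζ)) * (d / 2) ≤ a * d :=
      le_trans (mul_le_mul_of_nonneg_left (by linarith) h4) h3
    have h6 : fs (F (φ ζ)) (deriv F (φ ζ)) ≤ 2 * a := by
      by_contra hc
      push Not at hc
      have : 2 * a * (d / 2) < fs (F (φ ζ)) (deriv F (φ ζ)) * (d / 2) := mul_lt_mul_of_pos_right hc (by linarith)
      linarith
    rw [inv_mul_le_iff₀ hapos]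
    linarith

variable {B : Set ℂ} {δ : ℝ} {G : Fin s → EN N → ℂ} {m : Fin s → ℕ}

theorem sg_bound (E : LData X Λ u B δ G m) {δ' : ℝ} (hδ' : 0 < δ') :
    ∃ L : ℝ, 0 < L ∧ ∀ F ∈ SG X Λ u G, ∀ z ∈ Gd B δ', fs (F z) (deriv F z) ≤ L := by
  have hX := E.cone
  have hu := E.tor
  have hΛ := E.lat
  by_contra hcon
  push Not at hcon
  have hbig : ∀ n : ℕ, ∃ F ∈ SG X Λ u G, ∃ z ∈ Gd B δ', 4 * ((n : ℝ) + 1) / δ' < fs (F z) (deriv F z) :=
    fun n => hcon _ (by positivity)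
  have hX0 : ∀ x ∈ X, x ≠ 0 := fun x hx h => hX.zero_notMem (h ▸ hx)
  obtain ⟨R, hR0, hR⟩ := hΛ.cocompact
  have hbig' : ∀ n : ℕ, ∃ F ∈ SG X Λ u G, ∃ z ∈ Gd B δ', ‖z‖ ≤ R ∧ 4 * ((n : ℝ) + 1) / δ' < fs (F z) (deriv F z) := by
    intro n
    obtain ⟨F, hF, z, hz, hb⟩ := hbig n
    obtain ⟨l, hl, hlR⟩ := hR z
    refine ⟨fun ζ => F (ζ + l), sg_trans hF hl, z - l, ?_, hlR, ?_⟩
    · rw [← BadSet.gd_add E.bad δ' hl, sub_add_cancel]
      exact hz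
    · rw [deriv_comp_add_const, sub_add_cancel]
      show 4 * ((n : ℝ) + 1) / δ' < fs (F (z - l + l)) (deriv F z)
      rw [sub_add_cancel]
      exact hb
  choose F hFS zc hzG hzR hzc using hbig'
  have hresc : ∀ n : ℕ, ∃ (z₀ : ℂ) (a : ℝ), ‖z₀‖ ≤ 1 / 2 ∧ 4 * ((n : ℝ) + 1) < a ∧
      fs (F n (zc n + (δ' : ℂ) * z₀)) (deriv (fun ζ => F n (zc n + (δ' : ℂ) * (z₀ + ((a⁻¹ : ℝ) : ℂ) * ζ))) 0) = 1 ∧
      ∀ ζ ∈ ball (0 : ℂ) (n + 1), fs (F n (zc n + (δ' : ℂ) * (z₀ + ((a⁻¹ : ℝ) : ℂ) * ζ)))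
        (deriv (fun ζ => F n (zc n + (δ' : ℂ) * (z₀ + ((a⁻¹ : ℝ) : ℂ) * ζ))) ζ) ≤ 2 := by
    intro n
    have hd : Differentiable ℂ (fun z => F n (zc n + (δ' : ℂ) * z)) :=
      (hFS n).1.1.comp ((differentiable_id.const_mul _).const_add _)
    refine rescale_fs_half hd (fun z => hX0 _ ((hFS n).1.2.1 _)) n ?_
    have h1 : HasDerivAt (fun z : ℂ => zc n + (δ' : ℂ) * z) (δ' : ℂ) 0 := by
      simpa using ((hasDerivAt_id (0 : ℂ)).const_mul (δ' : ℂ)).const_add (zc n)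
    have h2 : deriv (fun z => F n (zc n + (δ' : ℂ) * z)) 0 = (δ' : ℂ) • deriv (F n) (zc n) := by
      have h3 := (((hFS n).1.1 (zc n + (δ' : ℂ) * 0)).hasDerivAt.scomp 0 h1).deriv
      rw [mul_zero, add_zero] at h3
      exact h3
    rw [h2, Pool.Agent.H36.BP.fs_smul_right, Complex.norm_real, Real.norm_of_nonneg hδ'.le, mul_zero, add_zero]
    have h4 := hzc n
    rw [div_lt_iff₀ hδ'] at h4
    linarith
  choose z₀ a hz₀ ha h1 h2 using hresc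
  have ha0 : ∀ n, 0 < a n := fun n => lt_trans (by positivity) (ha n)
  set K : ℕ → ℂ → EN N := fun n ζ => F n (zc n + (δ' : ℂ) * (z₀ n + (((a n)⁻¹ : ℝ) : ℂ) * ζ)) with hKdef
  set w : ℕ → ℂ := fun n => zc n + (δ' : ℂ) * z₀ n with hwdef
  have hGd : ∀ n, Differentiable ℂ (K n) := by
    intro n
    exact (hFS n).1.1.comp ((((differentiable_id.const_mul _).const_add _).const_mul _).const_add _)
  have hGX : ∀ n ζ, K n ζ ∈ X := fun n ζ => (hFS n).1.2.1 _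
  have hGu : ∀ n ζ, u (K n ζ) - (zc n + (δ' : ℂ) * (z₀ n + (((a n)⁻¹ : ℝ) : ℂ) * ζ)) ∈ Λ := fun n ζ => (hFS n).1.2.2 _
  have hGu2 : ∀ n ζ ζ', u (K n ζ) - u (K n ζ') - (((a n)⁻¹ : ℝ) : ℂ) * ((δ' : ℂ) * (ζ - ζ')) ∈ Λ := by
    intro n ζ ζ'
    have := Λ.sub_mem (hGu n ζ) (hGu n ζ')
    convert this using 1
    ring
  have hGw : ∀ n, u (K n 0) - w n ∈ Λ := by
    intro n
    have := hGu n 0
    rwa [mul_zero, add_zero] at this
  have hG1 : ∀ n, fs (K n 0) (deriv (K n) 0) = 1 := by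
    intro n
    have := h1 n
    rw [hKdef]
    simpa only [mul_zero, add_zero] using this
  have hwz : ∀ n, ‖w n - zc n‖ ≤ δ' / 2 := by
    intro n
    have h3 : w n - zc n = (δ' : ℂ) * z₀ n := by
      rw [hwdef]
      ring
    rw [h3, norm_mul, Complex.norm_real, Real.norm_of_nonneg hδ'.le]
    have := mul_le_mul_of_nonneg_left (hz₀ n) hδ'.le
    linarith
  have hwG : ∀ n, w n ∈ Gd B (δ' / 2) := by
    intro n b hb
    have h3 := hzG n b hb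
    have h4 : ‖zc n - b‖ ≤ ‖w n - b‖ + ‖w n - zc n‖ := by
      have h5 : zc n - b = (w n - b) - (w n - zc n) := by ring
      rw [h5]
      exact norm_sub_le _ _
    have h5 := hwz n
    linarith
  have hwR : ∀ n, w n ∈ closedBall (0 : ℂ) (R + δ' / 2) := by
    intro n
    rw [mem_closedBall_zero_iff]
    have h3 : w n = zc n + (w n - zc n) := by ring
    rw [h3]
    exact (norm_add_le _ _).trans (add_le_add (hzR n) (hwz n))
  set 𝒰 : Ultrafilter ℕ := hyperfilter ℕ with h𝒰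
  have hle : (𝒰 : Filter ℕ) ≤ atTop := Nat.hyperfilter_le_atTop
  obtain ⟨w₀, -, hw₀⟩ := (isCompact_closedBall (0 : ℂ) (R + δ' / 2)).ultrafilter_le_nhds (𝒰.map w) (by
    rw [Filter.le_principal_iff, Ultrafilter.coe_map, Filter.mem_map]
    exact Filter.univ_mem' hwR)
  have hwt : Tendsto w 𝒰 (𝓝 w₀) := hw₀
  have hw₀G : w₀ ∈ Gd B (δ' / 2) :=
    (isClosed_gd (B := B) (δ' / 2)).mem_of_tendsto hwt (Eventually.of_forall hwG)
  have hρ : Tendsto (fun n : ℕ => (n : ℝ) + 1) 𝒰 atTop :=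
    (tendsto_atTop_add_const_right _ _ tendsto_natCast_atTop_atTop).mono_left hle
  have hainv : Tendsto (fun n => (a n)⁻¹) 𝒰 (𝓝 0) := by
    have h3 : Tendsto a 𝒰 atTop := by
      refine tendsto_atTop_mono (fun n => ?_) hρ
      have := ha n
      have h4 : (0 : ℝ) ≤ n := Nat.cast_nonneg n
      linarith
    exact tendsto_inv_atTop_zero.comp h3
  obtain ⟨H, hH, hHX, hpr, hfs, hloc⟩ := Pool.Agent.H62.EF.limit_curves hX (L := 2) two_pos 𝒰 K (fun n : ℕ => (n : ℝ) + 1) hρ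
    (Eventually.of_forall fun n => ⟨(hGd n).differentiableOn, fun z hz => ⟨hGX n z, h2 n z hz⟩⟩)
  have hH0 : ∀ z, H z ≠ 0 := fun z => hX0 _ (hHX z)
  -- the limit is not constant
  have hone : fs (H 0) (deriv H 0) = 1 := by
    have h3 := hfs 0
    simp only [hG1] at h3
    exact tendsto_nhds_unique h3 tendsto_const_nhds |>.symm ▸ rfl
  have hnc : ∃ z w, ∀ c : ℂ, H z ≠ c • H w := by
    by_contra hc
    push Not at hc
    obtain ⟨b, hb⟩ := Pool.Agent.H36.BP.Brody_deriv_line (hH 0) (fun z => hc z 0)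
    have h3 : wd (H 0) (deriv H 0) = 0 := (Pool.Agent.H36.BP.wd_eq_zero (hH0 0)).mpr ⟨b, hb⟩
    unfold fs at hone
    rw [h3, zero_div] at hone
    exact zero_ne_one hone
  -- the limit is in a fibre
  have hnear : ∀ (ζ : ℂ) (ε : ℝ), 0 < ε → ∀ᶠ n in (𝒰 : Filter ℕ), ∃ l ∈ Λ, ‖u (H ζ) - u (K n ζ) - l‖ < ε := by
    intro ζ ε hε
    obtain ⟨δ, hδ, h3⟩ := TorusMap.unif hX hu hε
    have h4 : ∀ᶠ n in (𝒰 : Filter ℕ), dist (pr (K n ζ)) (pr (H ζ)) < δ := (hpr ζ).eventually (ball_mem_nhds _ hδ)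
    filter_upwards [h4] with n hn
    rw [dist_comm] at hn
    exact h3 _ (hHX ζ) _ (hGX n ζ) hn
  have hver : ∀ ζ ζ', u (H ζ) - u (H ζ') ∈ Λ := by
    intro ζ ζ'
    refine hΛ.mem_of_close fun ε hε => ?_
    have h3 := hnear ζ (ε / 3) (by positivity)
    have h4 := hnear ζ' (ε / 3) (by positivity)
    have h5 : ∀ᶠ n in (𝒰 : Filter ℕ), ‖(((a n)⁻¹ : ℝ) : ℂ) * ((δ' : ℂ) * (ζ - ζ'))‖ < ε / 3 := by
      have h6 : Tendsto (fun n => ‖(((a n)⁻¹ : ℝ) : ℂ) * ((δ' : ℂ) * (ζ - ζ'))‖) 𝒰 (𝓝 ‖((0 : ℝ) : ℂ) * ((δ' : ℂ) * (ζ - ζ'))‖) := by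
        refine Tendsto.norm (Tendsto.mul_const _ ?_)
        exact (Complex.continuous_ofReal.tendsto 0).comp hainv
      have h7 : ‖((0 : ℝ) : ℂ) * ((δ' : ℂ) * (ζ - ζ'))‖ < ε / 3 := by
        rw [Complex.ofReal_zero, zero_mul, norm_zero]
        positivity
      exact h6.eventually_lt_const h7
    obtain ⟨n, ⟨l, hl, hn1⟩, ⟨l', hl', hn2⟩, hn3⟩ := (h3.and (h4.and h5)).exists
    have h8 := hGu2 n ζ ζ'
    set q := u (K n ζ) - u (K n ζ') - (((a n)⁻¹ : ℝ) : ℂ) * ((δ' : ℂ) * (ζ - ζ')) with hq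
    refine ⟨l - l' + q, Λ.add_mem (Λ.sub_mem hl hl') h8, ?_⟩
    have h9 : u (H ζ) - u (H ζ') - (l - l' + q) =
        (u (H ζ) - u (K n ζ) - l) - (u (H ζ') - u (K n ζ') - l') + (((a n)⁻¹ : ℝ) : ℂ) * ((δ' : ℂ) * (ζ - ζ')) := by
      rw [hq]
      ring
    rw [h9]
    calc _ ≤ ‖(u (H ζ) - u (K n ζ) - l) - (u (H ζ') - u (K n ζ') - l')‖ + ‖(((a n)⁻¹ : ℝ) : ℂ) * ((δ' : ℂ) * (ζ - ζ'))‖ := norm_add_le _ _
      _ ≤ ‖u (H ζ) - u (K n ζ) - l‖ + ‖u (H ζ') - u (K n ζ') - l'‖ + ‖(((a n)⁻¹ : ℝ) : ℂ) * ((δ' : ℂ) * (ζ - ζ'))‖ := by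
        gcongr
        exact norm_sub_le _ _
      _ < ε := by linarith
  have hH0w : u (H 0) - w₀ ∈ Λ := by
    refine hΛ.mem_of_close fun ε hε => ?_
    have h3 := hnear 0 (ε / 2) (by positivity)
    have h4 : ∀ᶠ n in (𝒰 : Filter ℕ), dist (w n) w₀ < ε / 2 := hwt.eventually (ball_mem_nhds _ (by positivity))
    obtain ⟨n, ⟨l, hl, hn1⟩, hn2⟩ := (h3.and h4).exists
    refine ⟨l + (u (K n 0) - w n), Λ.add_mem hl (hGw n), ?_⟩
    have h5 : u (H 0) - w₀ - (l + (u (K n 0) - w n)) = (u (H 0) - u (K n 0) - l) + (w n - w₀) := by ring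
    rw [h5]
    rw [dist_eq_norm] at hn2
    calc _ ≤ ‖u (H 0) - u (K n 0) - l‖ + ‖w n - w₀‖ := norm_add_le _ _
      _ < ε := by linarith
  have hdi : ∀ i, (∀ z, G i (H z) ≠ 0) ∨ ∀ z, G i (H z) = 0 := by
    intro i
    have h3 := dichotomy isPreconnected_univ (p := fun z => G i (H z) = 0) (by
      intro z₁ _
      obtain ⟨r, φ, ψ, hr, hφ, hψ, hψH, hc⟩ := hloc z₁
      refine ⟨r, hr, ?_⟩
      have h4 : ∀ᶠ n in (𝒰 : Filter ℕ), ∀ z ∈ ball z₁ r, G i (φ n z) ≠ 0 := by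
        filter_upwards [hφ] with n hn z hz
        obtain ⟨c, hc0, hc1⟩ := hn.2 z hz
        rw [hc1, E.hom]
        exact mul_ne_zero (pow_ne_zero _ hc0) ((hFS n).2 i _)
      rcases hurwitz_local (E.dif i) 𝒰 (hφ.mono fun n hn => hn.1) h4 hψ hc with h5 | h5
      · left
        intro z hz
        obtain ⟨c, hc0, hc1⟩ := hψH z hz
        have h6 := h5 z hz
        rw [hc1, E.hom] at h6
        exact (mul_eq_zero.1 h6).resolve_left (pow_ne_zero _ hc0)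
      · right
        intro z hz h6
        obtain ⟨c, hc0, hc1⟩ := hψH z hz
        apply h5 z hz
        rw [hc1, E.hom, h6, mul_zero])
    rcases h3 with h3 | h3
    · exact Or.inr fun z => h3 z trivial
    · exact Or.inl fun z => h3 z trivial
  obtain ⟨b, hb, hHb⟩ := E.fib H hH hHX hdi hver hnc
  have hwb : w₀ - b ∈ Λ := by
    have h3 := Λ.sub_mem hHb hH0w
    convert h3 using 1
    ring
  have hwB : w₀ ∈ B := by
    have h3 := E.bad.inv b hb _ hwb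
    rwa [add_sub_cancel] at h3
  exact gd_notMem (by positivity) hw₀G hwB

end Pool.Agent.H86.LS

end

section

/-!
# LS Lim: limits of the sections which avoid the curves
-/

set_option autoImplicit false

open Topology Filter Metric

namespace Pool.Agent.H86.LS

attribute [-instance] ProperSMul.toContinuousSMul

open Pool.Agent.H36.BP (EN fs wd)
open Pool.Agent.H14.PP (IsCone)
open Pool.Agent.H62.EF (Lat MN pr TorusMap Sec pr_lipschitz norm_inner_sq continuousAt_pr pr_smul pr_eq_iff)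
open Pool.Agent.H62.EL (BadSet Gd isClosed_gd gd_notMem gd_mono)

variable {N s : ℕ} {X : Set (EN N)} {Λ : AddSubgroup ℂ} {u : EN N → ℂ} {B : Set ℂ} {δ : ℝ} {G : Fin s → EN N → ℂ} {m : Fin s → ℕ}

theorem ne_zero_of_mem (hX : IsCone X) {x : EN N} (hx : x ∈ X) : x ≠ 0 := by
  rintro rfl
  exact hX.zero_notMem hx

theorem lim_local (hX : IsCone X) {L : ℝ} (hL : 0 < L) (𝒰 : Ultrafilter ℕ) (F : ℕ → ℂ → EN N) {z₀ : ℂ} {r₀ : ℝ}
    (hr₀ : 0 < r₀) (hF : ∀ᶠ n in (𝒰 : Filter ℕ), DifferentiableOn ℂ (F n) (ball z₀ r₀) ∧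
      ∀ z ∈ ball z₀ r₀, F n z ∈ X ∧ fs (F n z) (deriv (F n) z) ≤ L) :
    ∃ (r : ℝ) (φ : ℕ → ℂ → EN N) (ψ : ℂ → EN N), 0 < r ∧ r ≤ r₀ ∧
        (∀ᶠ n in (𝒰 : Filter ℕ), DifferentiableOn ℂ (φ n) (ball z₀ r) ∧ ∀ z ∈ ball z₀ r, F n z ∈ X ∧ ∃ c : ℂ, c ≠ 0 ∧ φ n z = c • F n z) ∧
        DifferentiableOn ℂ ψ (ball z₀ r) ∧ (∀ z ∈ ball z₀ r, ψ z ∈ X) ∧
        TendstoLocallyUniformlyOn φ ψ 𝒰 (ball z₀ r) := by
  set r : ℝ := min r₀ (1 / (8 * L)) with hr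
  have hr0 : 0 < r := lt_min hr₀ (by positivity)
  have hrr : r ≤ r₀ := min_le_left _ _
  have hrL : r ≤ 1 / (8 * L) := min_le_right _ _
  have hz₀ : z₀ ∈ ball z₀ r := mem_ball_self hr0
  have hev : ∀ᶠ n in (𝒰 : Filter ℕ), DifferentiableOn ℂ (F n) (ball z₀ r) ∧
      ∀ z ∈ ball z₀ r, F n z ∈ X ∧ ‖F n z₀‖ * ‖F n z‖ ≤ 2 * ‖inner ℂ (F n z₀) (F n z)‖ := by
    filter_upwards [hF] with n h1
    obtain ⟨h1, h3⟩ := h1
    have hsub : ball z₀ r ⊆ ball z₀ r₀ := ball_subset_ball hrr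
    refine ⟨h1.mono hsub, fun z hz => ⟨(h3 z (hsub hz)).1, ?_⟩⟩
    have hx0 : F n z₀ ≠ 0 := ne_zero_of_mem hX (h3 z₀ (hsub hz₀)).1
    have hy0 : F n z ≠ 0 := ne_zero_of_mem hX (h3 z (hsub hz)).1
    have hlip := pr_lipschitz isOpen_ball (convex_ball z₀ r) (h1.mono hsub)
      (fun w hw => ne_zero_of_mem hX (h3 w (hsub hw)).1) (fun w hw => (h3 w (hsub hw)).2) z₀ hz₀ z hz
    have h4 : ‖z₀ - z‖ ≤ r := by
      rw [← dist_eq_norm, dist_comm]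
      exact (mem_ball.mp hz).le
    have h5 : dist (pr (F n z₀)) (pr (F n z)) ≤ 1 / 4 := by
      calc dist (pr (F n z₀)) (pr (F n z)) ≤ 2 * L * ‖z₀ - z‖ := hlip
        _ ≤ 2 * L * (1 / (8 * L)) := by gcongr; exact h4.trans hrL
        _ = 1 / 4 := by field_simp; norm_num
    have h6 := norm_inner_sq hx0 hy0
    have h7 : dist (pr (F n z₀)) (pr (F n z)) ^ 2 ≤ 1 := by
      have := dist_nonneg (x := pr (F n z₀)) (y := pr (F n z))
      nlinarith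
    have h8 : (‖F n z₀‖ * ‖F n z‖) ^ 2 ≤ (2 * ‖inner ℂ (F n z₀) (F n z)‖) ^ 2 := by
      rw [mul_pow, mul_pow, h6]
      have h9 : 0 ≤ ‖F n z₀‖ ^ 2 * ‖F n z‖ ^ 2 := by positivity
      nlinarith
    exact abs_le_of_sq_le_sq' h8 (by positivity) |>.2
  set φ : ℕ → ℂ → EN N := fun n z => (((‖F n z₀‖ : ℝ) : ℂ) / inner ℂ (F n z₀) (F n z)) • F n z with hφ
  have hev2 : ∀ᶠ n in (𝒰 : Filter ℕ), DifferentiableOn ℂ (F n) (ball z₀ r) ∧ DifferentiableOn ℂ (φ n) (ball z₀ r) ∧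
      ∀ z ∈ ball z₀ r, F n z ∈ X ∧ (∃ c : ℂ, c ≠ 0 ∧ φ n z = c • F n z) ∧ ‖φ n z‖ ≤ 2 ∧ 1 ≤ ‖φ n z‖ := by
    filter_upwards [hev] with n h1
    obtain ⟨h1, h2⟩ := h1
    have hx0 : F n z₀ ≠ 0 := ne_zero_of_mem hX (h2 z₀ hz₀).1
    have hxn : 0 < ‖F n z₀‖ := norm_pos_iff.mpr hx0
    have hin : ∀ z ∈ ball z₀ r, (inner ℂ (F n z₀) (F n z) : ℂ) ≠ 0 := by
      intro z hz h
      have h3 := (h2 z hz).2
      have hyn : 0 < ‖F n z‖ := norm_pos_iff.mpr (ne_zero_of_mem hX (h2 z hz).1)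
      rw [h, norm_zero, mul_zero] at h3
      have : 0 < ‖F n z₀‖ * ‖F n z‖ := mul_pos hxn hyn
      linarith
    refine ⟨h1, ?_, fun z hz => ⟨(h2 z hz).1, ⟨_, ?_, rfl⟩, ?_, ?_⟩⟩
    · have h3 : DifferentiableOn ℂ (fun z => (inner ℂ (F n z₀) (F n z) : ℂ)) (ball z₀ r) :=
        (innerSL ℂ (F n z₀)).differentiable.comp_differentiableOn h1
      have h4 : DifferentiableOn ℂ (fun z => ((‖F n z₀‖ : ℝ) : ℂ) / (inner ℂ (F n z₀) (F n z) : ℂ)) (ball z₀ r) :=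
        (differentiableOn_const _).div h3 hin
      exact h4.smul h1
    · exact div_ne_zero (Complex.ofReal_ne_zero.mpr hxn.ne') (hin z hz)
    · have h3 := (h2 z hz).2
      have h4 : 0 < ‖(inner ℂ (F n z₀) (F n z) : ℂ)‖ := norm_pos_iff.mpr (hin z hz)
      simp only [hφ]
      rw [norm_smul, norm_div, Complex.norm_real, norm_norm, div_mul_eq_mul_div, div_le_iff₀ h4]
      exact h3
    · have h4 : 0 < ‖(inner ℂ (F n z₀) (F n z) : ℂ)‖ := norm_pos_iff.mpr (hin z hz)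
      simp only [hφ]
      rw [norm_smul, norm_div, Complex.norm_real, norm_norm, div_mul_eq_mul_div, le_div_iff₀ h4, one_mul]
      exact norm_inner_le_norm _ _
  obtain ⟨ψ, hψ, hconv⟩ := Pool.Agent.H17.montel_ultrafilter 𝒰 (F := φ) (a := z₀) (r := r) (B := 2)
    (hev2.mono fun n h => h.2.1) (hev2.mono fun n h z hz => ((h.2.2 z hz).2.2.1))
  refine ⟨r, φ, ψ, hr0, hrr, hev2.mono fun n h => ⟨h.2.1, fun z hz => ⟨(h.2.2 z hz).1, (h.2.2 z hz).2.1⟩⟩, hψ, ?_, hconv⟩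
  intro z hz
  have h1 : Tendsto (fun n => φ n z) 𝒰 (𝓝 (ψ z)) := hconv.tendsto_at hz
  have h2 : ψ z ∈ insert 0 X := by
    refine hX.closed.mem_of_tendsto h1 ?_
    filter_upwards [hev2] with n h
    obtain ⟨h3, ⟨c, hc, h4⟩, -⟩ := h.2.2 z hz
    rw [h4]
    exact Or.inr (hX.smul_mem _ h3 c hc)
  have h3 : 1 ≤ ‖ψ z‖ := by
    refine ge_of_tendsto h1.norm ?_
    filter_upwards [hev2] with n h
    exact (h.2.2 z hz).2.2.2
  rcases h2 with h2 | h2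
  · rw [h2, norm_zero] at h3
    linarith
  · exact h2

theorem countable_bad (h : BadSet B Λ δ) : B.Countable := by
  have hd : B.PairwiseDisjoint (fun b => ball b (4 * δ)) := by
    intro b hb b' hb' hne
    refine ball_disjoint_ball ?_
    rw [dist_eq_norm]
    have := h.sep b hb b' hb' hne
    linarith
  exact hd.countable_of_isOpen (fun _ _ => isOpen_ball) fun b _ => ⟨b, mem_ball_self (by linarith [h.pos])⟩

theorem connected_compl (h : BadSet B Λ δ) : IsPreconnected (Bᶜ : Set ℂ) := by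
  have h1 : 1 < Module.rank ℝ ℂ := by
    rw [Complex.rank_real_complex]
    exact Cardinal.one_lt_two
  exact ((countable_bad h).isPathConnected_compl_of_one_lt_rank h1).isConnected.isPreconnected

theorem exists_limit (E : LData X Λ u B δ G m) (𝒰 : Ultrafilter ℕ) {F : ℕ → ℂ → EN N} (hF : ∀ n, F n ∈ SG X Λ u G) :
    ∃ x : ℂ → EN N, (∀ z, z ∉ B → x z ∈ X) ∧ IsLim X Λ u B 𝒰 F x := by
  classical
  have hcp := Pool.Agent.H62.EF.isCompact_pr E.cone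
  -- the limits
  have h1 : ∀ z : ℂ, ∃ y ∈ X, Tendsto (fun n => pr (F n z)) 𝒰 (𝓝 (pr y)) := by
    intro z
    have h2 : pr '' X ∈ (𝒰.map fun n => pr (F n z)) := by
      rw [Ultrafilter.mem_map]
      exact Filter.univ_mem' fun n => ⟨F n z, (hF n).1.2.1 z, rfl⟩
    obtain ⟨_, ⟨y, hy, rfl⟩, hy2⟩ := hcp.ultrafilter_le_nhds' _ h2
    exact ⟨y, hy, hy2⟩
  choose x hxX hx using h1
  refine ⟨x, fun z _ => hxX z, fun z₀ hz₀ => ?_⟩
  obtain ⟨δ₂, hδ₂, hzg⟩ := E.bad.exists_gd hz₀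
  set δ' : ℝ := δ₂ / 2 with hδ'
  have hδ'0 : 0 < δ' := half_pos hδ₂
  have hsub : ∀ z ∈ ball z₀ δ', z ∈ Gd B δ' := by
    intro z hz b hb
    have h1 := hzg b hb
    have h2 : ‖z - z₀‖ < δ' := by
      rw [← dist_eq_norm]
      exact mem_ball.1 hz
    have h3 : ‖z₀ - b‖ ≤ ‖z - z₀‖ + ‖z - b‖ := by
      have h4 : z₀ - b = -(z - z₀) + (z - b) := by ring
      rw [h4]
      refine (norm_add_le _ _).trans ?_
      rw [norm_neg]
    linarith
  obtain ⟨L, hL0, hL⟩ := sg_bound E hδ'0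
  obtain ⟨r, φ, ψ, hr, hrr, hev, hψd, hψX, hconv⟩ := lim_local E.cone hL0 𝒰 F (z₀ := z₀) hδ'0
    (Filter.Eventually.of_forall fun n => ⟨(hF n).1.1.differentiableOn, fun z hz => ⟨(hF n).1.2.1 z, hL _ (hF n) z (hsub z hz)⟩⟩)
  have hlimψ : ∀ z ∈ ball z₀ r, Tendsto (fun n => pr (F n z)) 𝒰 (𝓝 (pr (ψ z))) := by
    intro z hz
    have h1 : Tendsto (fun n => φ n z) 𝒰 (𝓝 (ψ z)) := hconv.tendsto_at hz
    have h2 : Tendsto (fun n => pr (φ n z)) 𝒰 (𝓝 (pr (ψ z))) :=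
      (continuousAt_pr (ne_zero_of_mem E.cone (hψX z hz))).tendsto.comp h1
    refine h2.congr' ?_
    filter_upwards [hev] with n h
    obtain ⟨-, c, hc, h4⟩ := h.2 z hz
    rw [h4, pr_smul _ hc]
  refine ⟨r, φ, ψ, ⟨hr, hev.mono fun n hn => ⟨hn.1, fun z hz => (hn.2 z hz).2⟩, hψd, fun z hz => ⟨hψX z hz, ?_, ?_⟩, hconv⟩⟩
  · apply Pool.Agent.H62.EF.Lat.mem_of_close E.lat
    intro ε hε
    obtain ⟨δ₁, hδ₁, hδ2⟩ := Pool.Agent.H62.EF.TorusMap.unif E.cone E.tor hε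
    have h1 : ∀ᶠ n in (𝒰 : Filter ℕ), dist (pr (F n z)) (pr (ψ z)) < δ₁ := Metric.tendsto_nhds.1 (hlimψ z hz) δ₁ hδ₁
    obtain ⟨n, hn1⟩ := h1.exists
    obtain ⟨l, hl, hl2⟩ := hδ2 (F n z) ((hF n).1.2.1 z) (ψ z) (hψX z hz) hn1
    refine ⟨(u (F n z) - z) - l, Λ.sub_mem ((hF n).1.2.2 z) hl, ?_⟩
    have h2 : u (ψ z) - z - ((u (F n z) - z) - l) = -(u (F n z) - u (ψ z) - l) := by ring
    rw [h2, norm_neg]
    exact hl2
  · exact (pr_eq_iff (ne_zero_of_mem E.cone (hψX z hz)) (ne_zero_of_mem E.cone (hxX z))).1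
      (tendsto_nhds_unique (hlimψ z hz) (hx z))

/-- a limit of sections which avoid `D i` avoids `D i` or lies in it -/
theorem limit_dichotomy (E : LData X Λ u B δ G m) (𝒰 : Ultrafilter ℕ) {F : ℕ → ℂ → EN N} (hF : ∀ n, F n ∈ SG X Λ u G) {x : ℂ → EN N}
    (hx : IsLim X Λ u B 𝒰 F x) (i : Fin s) : (∀ z, z ∉ B → G i (x z) = 0) ∨ ∀ z, z ∉ B → G i (x z) ≠ 0 := by
  refine dichotomy (connected_compl E.bad) (p := fun z => G i (x z) = 0) fun z₀ hz₀ => ?_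
  obtain ⟨r, φ, Ψ, h⟩ := hx z₀ hz₀
  refine ⟨r, h.pos, ?_⟩
  have h4 : ∀ᶠ n in (𝒰 : Filter ℕ), ∀ z ∈ ball z₀ r, G i (φ n z) ≠ 0 := by
    filter_upwards [h.app] with n hn z hz
    obtain ⟨c, hc0, hc1⟩ := hn.2 z hz
    rw [hc1, E.hom]
    exact mul_ne_zero (pow_ne_zero _ hc0) ((hF n).2 i _)
  rcases hurwitz_local (E.dif i) 𝒰 (h.app.mono fun n hn => hn.1) h4 h.dif h.conv with h5 | h5
  · left
    intro z hz
    obtain ⟨-, -, c, hc0, hc1⟩ := h.mem z hz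
    have h6 := h5 z hz
    rw [hc1, E.hom] at h6
    exact (mul_eq_zero.1 h6).resolve_left (pow_ne_zero _ hc0)
  · right
    intro z hz h6
    obtain ⟨-, -, c, hc0, hc1⟩ := h.mem z hz
    apply h5 z hz
    rw [hc1, E.hom, h6, mul_zero]

end Pool.Agent.H86.LS

end

section

/-!
# LS Away: there are no sections which avoid the `D i`

Choose a maximal set `I` of indices such that sections come arbitrarily near to all the `D i`, `i ∈ I`, at the same point.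
A limit `x` of such sections lies in the `D i`, `i ∈ I` (Hurwitz), so by `NoLim` there is an index `j ∉ I`, and the sections which are near to `x`
are not near to `D j` (away from the bad fibres).  Now `G j (F z)` is an entire function without zeros, so it is `exp (m h)`, and `exp (-h) F` is bounded on large discs
(maximum principle over the bad fibres), so it is almost constant (Liouville).
-/

set_option autoImplicit false

open Topology Filter Metric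

namespace Pool.Agent.H86.LS

attribute [-instance] ProperSMul.toContinuousSMul

open Pool.Agent.H36.BP (EN fs wd)
open Pool.Agent.H14.PP (IsCone)
open Pool.Agent.H62.EF (Lat MN pr TorusMap Sec continuousAt_pr)
open Pool.Agent.H62.EL (BadSet Gd isClosed_gd gd_notMem gd_mono)

variable {N s : ℕ} {X : Set (EN N)} {Λ : AddSubgroup ℂ} {u : EN N → ℂ} {B : Set ℂ} {δ : ℝ} {G : Fin s → EN N → ℂ} {m : Fin s → ℕ}

theorem near_limit {𝒰 : Ultrafilter ℕ} {F : ℕ → ℂ → EN N} {x : ℂ → EN N} {w₀ : ℂ} {r : ℝ} {φ : ℕ → ℂ → EN N} {Ψ : ℂ → EN N}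
    (h : LocLim X Λ u 𝒰 F x w₀ r φ Ψ) {O : Set (EN N)} (hO : O ∈ 𝓝 (Ψ w₀)) :
    ∃ V ∈ 𝓝 w₀, ∀ᶠ n in (𝒰 : Filter ℕ), ∀ z ∈ V, φ n z ∈ O ∧ ∃ c : ℂ, c ≠ 0 ∧ φ n z = c • F n z := by
  have hself : w₀ ∈ ball w₀ r := mem_ball_self h.pos
  obtain ⟨η, hη, hball⟩ := Metric.mem_nhds_iff.1 hO
  obtain ⟨t, ht, hconv⟩ := Metric.tendstoLocallyUniformlyOn_iff.1 h.conv (η / 2) (by positivity) w₀ hself
  have ht' : t ∈ 𝓝 w₀ := by
    rwa [IsOpen.nhdsWithin_eq isOpen_ball hself] at ht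
  have hcont : ∀ᶠ z in 𝓝 w₀, dist (Ψ z) (Ψ w₀) < η / 2 := by
    have h2 := (h.dif.continuousOn.continuousAt (isOpen_ball.mem_nhds hself)).tendsto
    exact h2.eventually (ball_mem_nhds _ (by positivity))
  refine ⟨{z | dist (Ψ z) (Ψ w₀) < η / 2} ∩ (t ∩ ball w₀ r), inter_mem hcont (inter_mem ht' (isOpen_ball.mem_nhds hself)), ?_⟩
  filter_upwards [h.app, hconv] with n hn hcn z hz
  obtain ⟨hz1, hz2, hz3⟩ := hz
  refine ⟨hball ?_, hn.2 z hz3⟩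
  rw [mem_ball]
  have h4 := hcn z hz2
  have h5 := dist_triangle (φ n z) (Ψ z) (Ψ w₀)
  rw [dist_comm (φ n z) (Ψ z)] at h5
  have h6 : dist (Ψ z) (Ψ w₀) < η / 2 := hz1
  linarith

theorem q_small (E : LData X Λ u B δ G m) {𝒰 : Ultrafilter ℕ} {F : ℕ → ℂ → EN N} {x : ℂ → EN N} (hx : IsLim X Λ u B 𝒰 F x) (i : Fin s)
    {w₀ : ℂ} (hw₀ : w₀ ∉ B) (h0 : G i (x w₀) = 0) {ε : ℝ} (hε : 0 < ε) :
    ∃ V ∈ 𝓝 w₀, ∀ᶠ n in (𝒰 : Filter ℕ), ∀ z ∈ V, ‖G i (F n z)‖ < ε * ‖F n z‖ ^ m i := by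
  obtain ⟨r, φ, Ψ, h⟩ := hx w₀ hw₀
  obtain ⟨hΨX, hΨu, c, hc, hΨc⟩ := h.mem w₀ (mem_ball_self h.pos)
  have hΨ0 := norm_pos_iff.2 (ne_zero_of_mem E.cone hΨX)
  have hO : {y : EN N | ‖G i y‖ < ε * ‖y‖ ^ m i} ∈ 𝓝 (Ψ w₀) := by
    have h1 : IsOpen {y : EN N | ‖G i y‖ < ε * ‖y‖ ^ m i} :=
      isOpen_lt (E.dif i).continuous.norm (continuous_const.mul (continuous_norm.pow _))
    refine h1.mem_nhds ?_
    show ‖G i (Ψ w₀)‖ < ε * ‖Ψ w₀‖ ^ m i
    rw [hΨc, E.hom, h0, mul_zero, norm_zero, ← hΨc]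
    positivity
  obtain ⟨V, hV, h1⟩ := near_limit h hO
  refine ⟨V, hV, h1.mono fun n hn z hz => ?_⟩
  obtain ⟨h2, c', hc', h3⟩ := hn z hz
  have h4 : ‖G i (φ n z)‖ < ε * ‖φ n z‖ ^ m i := h2
  rw [h3, E.hom, norm_mul, norm_pow, norm_smul, mul_pow] at h4
  have h5 : 0 < ‖c'‖ ^ m i := pow_pos (norm_pos_iff.2 hc') _
  by_contra hcon
  push Not at hcon
  have h6 := mul_le_mul_of_nonneg_left hcon h5.le
  linarith

theorem q_zero (E : LData X Λ u B δ G m) {𝒰 : Ultrafilter ℕ} {F : ℕ → ℂ → EN N} {x : ℂ → EN N} (hx : IsLim X Λ u B 𝒰 F x) (i : Fin s)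
    {w₀ : ℂ} (hw₀ : w₀ ∉ B) {z : ℕ → ℂ} (hz : Tendsto z 𝒰 (𝓝 w₀))
    (hs : ∀ ε : ℝ, 0 < ε → ∀ᶠ n in (𝒰 : Filter ℕ), ‖G i (F n (z n))‖ < ε * ‖F n (z n)‖ ^ m i) : G i (x w₀) = 0 := by
  by_contra hcon
  obtain ⟨r, φ, Ψ, h⟩ := hx w₀ hw₀
  obtain ⟨hΨX, hΨu, c, hc, hΨc⟩ := h.mem w₀ (mem_ball_self h.pos)
  have hΨ0 := norm_pos_iff.2 (ne_zero_of_mem E.cone hΨX)
  have hG0 : 0 < ‖G i (Ψ w₀)‖ := by
    rw [norm_pos_iff, hΨc, E.hom]
    exact mul_ne_zero (pow_ne_zero _ hc) hcon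
  set ε : ℝ := ‖G i (Ψ w₀)‖ / (2 * ‖Ψ w₀‖ ^ m i) with hε
  have hε0 : 0 < ε := by positivity
  have hO : {y : EN N | ε * ‖y‖ ^ m i < ‖G i y‖} ∈ 𝓝 (Ψ w₀) := by
    have h1 : IsOpen {y : EN N | ε * ‖y‖ ^ m i < ‖G i y‖} :=
      isOpen_lt (continuous_const.mul (continuous_norm.pow _)) (E.dif i).continuous.norm
    refine h1.mem_nhds ?_
    show ε * ‖Ψ w₀‖ ^ m i < ‖G i (Ψ w₀)‖
    have h2 : ε * ‖Ψ w₀‖ ^ m i = ‖G i (Ψ w₀)‖ / 2 := by
      rw [hε]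
      field_simp
    rw [h2]
    linarith
  obtain ⟨V, hV, h1⟩ := near_limit h hO
  obtain ⟨n, ⟨h2, h3⟩, h4⟩ := ((h1.and (hz.eventually hV)).and (hs ε hε0)).exists
  obtain ⟨h5, c', hc', h6⟩ := h2 _ h3
  have h7 : ε * ‖φ n (z n)‖ ^ m i < ‖G i (φ n (z n))‖ := h5
  rw [h6, E.hom, norm_mul, norm_pow, norm_smul, mul_pow] at h7
  have h8 : 0 < ‖c'‖ ^ m i := pow_pos (norm_pos_iff.2 hc') _
  have h9 := mul_lt_mul_of_pos_left h4 h8
  linarith

/-- a nowhere vanishing entire function is an exponential -/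
theorem exists_log {g : ℂ → ℂ} (hg : Differentiable ℂ g) (h0 : ∀ z, g z ≠ 0) : ∃ h : ℂ → ℂ, Differentiable ℂ h ∧ ∀ z, g z = Complex.exp (h z) := by
  have hq : Differentiable ℂ fun z => deriv g z / g z := by
    intro z
    exact ((hg.deriv z).div (hg z) (h0 z))
  obtain ⟨L, hL⟩ := hq.isExactOn_univ
  have hL' : ∀ z, HasDerivAt L (deriv g z / g z) z := fun z => hL z trivial
  have hconst : ∀ z, HasDerivAt (fun z => g z * Complex.exp (-L z)) 0 z := by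
    intro z
    have h1 := (hg z).hasDerivAt.mul ((hL' z).neg.cexp)
    have h2 : deriv g z * Complex.exp (-L z) + g z * (Complex.exp (-L z) * -(deriv g z / g z)) = 0 := by
      have h3 := h0 z
      field_simp
      ring
    have h4 : HasDerivAt (fun z => g z * Complex.exp (-L z))
        (deriv g z * Complex.exp (-L z) + g z * (Complex.exp (-L z) * -(deriv g z / g z))) z := h1
    rw [h2] at h4
    exact h4
  have hc : ∀ z, g z * Complex.exp (-L z) = g 0 * Complex.exp (-L 0) := by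
    intro z
    exact is_const_of_deriv_eq_zero (fun z => (hconst z).differentiableAt) (fun z => (hconst z).deriv) z 0
  obtain ⟨a, ha⟩ : ∃ a, Complex.exp a = g 0 * Complex.exp (-L 0) :=
    ⟨Complex.log (g 0 * Complex.exp (-L 0)), Complex.exp_log (mul_ne_zero (h0 0) (Complex.exp_ne_zero _))⟩
  refine ⟨fun z => a + L z, fun z => (hL' z).differentiableAt.const_add a, fun z => ?_⟩
  rw [Complex.exp_add, ha, ← hc z, mul_assoc, ← Complex.exp_add, neg_add_cancel, Complex.exp_zero, mul_one]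

/-- a section which avoids `D j` has a lift with `G j = 1` -/
theorem exists_norm (E : LData X Λ u B δ G m) (j : Fin s) {F : ℂ → EN N} (hF : F ∈ SG X Λ u G) :
    ∃ K : ℂ → EN N, Differentiable ℂ K ∧ (∀ z, G j (K z) = 1) ∧ ∀ z, ∃ c : ℂ, c ≠ 0 ∧ K z = c • F z := by
  obtain ⟨h, hh, hGh⟩ := exists_log ((E.dif j).comp hF.1.1) (fun z => hF.2 j z)
  have hm : (m j : ℂ) ≠ 0 := by exact_mod_cast (E.pos j).ne'
  refine ⟨fun z => Complex.exp (-(h z / m j)) • F z, ((hh.div_const _).neg.cexp).smul hF.1.1, fun z => ?_,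
    fun z => ⟨_, Complex.exp_ne_zero _, rfl⟩⟩
  have h1 : G j (F z) = Complex.exp (h z) := hGh z
  rw [E.hom, h1, ← Complex.exp_nat_mul, ← Complex.exp_add]
  have h2 : (m j : ℂ) * -(h z / m j) + h z = 0 := by
    field_simp
    ring
  rw [h2, Complex.exp_zero]

/-- the bounds for `K` from a lower bound for `G j (F z)` -/
theorem norm_bound (E : LData X Λ u B δ G m) {j : Fin s} {ε₀ : ℝ} (hε₀ : 0 < ε₀) {y k : EN N} (hk : G j k = 1) {c : ℂ} (hc : c ≠ 0) (hkc : k = c • y)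
    (hy : ε₀ * ‖y‖ ^ m j ≤ ‖G j y‖) : ‖k‖ ≤ max 1 (1 / ε₀) := by
  have h2 : ε₀ * ‖k‖ ^ m j ≤ 1 := by
    have h3 : ‖G j k‖ = 1 := by rw [hk, norm_one]
    have h4 : G j k = c ^ m j * G j y := by rw [hkc, E.hom]
    rw [← h3, h4, norm_mul, norm_pow, hkc, norm_smul, mul_pow]
    have h6 := mul_le_mul_of_nonneg_left hy (by positivity : 0 ≤ ‖c‖ ^ m j)
    linarith
  by_contra hcon
  push Not at hcon
  have h7 : 1 < ‖k‖ := lt_of_le_of_lt (le_max_left _ _) hcon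
  have h8 : ‖k‖ ≤ ‖k‖ ^ m j := le_self_pow₀ h7.le (E.pos j).ne'
  have h9 : 1 / ε₀ < ‖k‖ := lt_of_le_of_lt (le_max_right _ _) hcon
  rw [div_lt_iff₀ hε₀] at h9
  nlinarith

/-- Liouville's theorem -/
theorem liouville (E : LData X Λ u B δ G m) (j : Fin s) {𝒰 : Ultrafilter ℕ} {F : ℕ → ℂ → EN N} (hF : ∀ n, F n ∈ SG X Λ u G) {ε₀ : ℝ} (hε₀ : 0 < ε₀)
    (hq : ∀ K : Set ℂ, IsCompact K → K ⊆ Gd B δ → ∀ᶠ n in (𝒰 : Filter ℕ), ∀ z ∈ K, ε₀ * ‖F n z‖ ^ m j ≤ ‖G j (F n z)‖) : False := by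
  have hδ := E.bad.pos
  choose K hKd hKG hKF using fun n => exists_norm E j (hF n)
  set C : ℝ := max 1 (1 / ε₀) with hC
  have hC0 : 0 < C := lt_of_lt_of_le one_pos (le_max_left _ _)
  have hbd : ∀ R : ℝ, ∀ᶠ n in (𝒰 : Filter ℕ), ∀ z ∈ ball (0 : ℂ) R, ‖K n z‖ ≤ C := by
    intro R
    have hcomp : IsCompact (closedBall (0 : ℂ) (R + 2 * δ) ∩ Gd B δ) := (isCompact_closedBall _ _).inter_right (isClosed_gd δ)
    filter_upwards [hq _ hcomp Set.inter_subset_right] with n hn z hz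
    rw [mem_ball_zero_iff] at hz
    have hgood : ∀ w ∈ Gd B δ, ‖w‖ ≤ R + 2 * δ → ‖K n w‖ ≤ C := by
      intro w hw hwR
      obtain ⟨c, hc, hcw⟩ := hKF n w
      exact norm_bound E hε₀ (hKG n w) hc hcw (hn w ⟨mem_closedBall_zero_iff.2 hwR, hw⟩)
    by_cases hzG : z ∈ Gd B δ
    · exact hgood z hzG (by linarith)
    have h1 : ∃ b ∈ B, ‖z - b‖ < δ := by
      by_contra hcon
      push Not at hcon
      exact hzG hcon
    obtain ⟨b, hb, hbz⟩ := h1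
    refine Complex.norm_le_of_forall_mem_frontier_norm_le (U := ball b δ) isBounded_ball (hKd n).diffContOnCl (fun w hw => ?_)
      (subset_closure (by rw [mem_ball, dist_eq_norm]; exact hbz))
    rw [frontier_ball b hδ.ne', mem_sphere, dist_eq_norm] at hw
    refine hgood w (fun b' hb' => ?_) ?_
    · by_cases hbb : b' = b
      · rw [hbb, hw]
      · have h2 := E.bad.sep b' hb' b hb hbb
        have h3 : b' - b = (w - b) - (w - b') := by ring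
        rw [h3] at h2
        have h4 := norm_sub_le (w - b) (w - b')
        linarith
    · have h5 : w = z + (w - b) - (z - b) := by ring
      have h6 := norm_sub_le (z + (w - b)) (z - b)
      have h7 := norm_add_le z (w - b)
      rw [← h5] at h6
      linarith
  -- the limit
  obtain ⟨k, -, hk⟩ := (isCompact_closedBall (0 : EN N) C).ultrafilter_le_nhds (𝒰.map fun n => K n 0) (by
    rw [Filter.le_principal_iff, Ultrafilter.coe_map, Filter.mem_map]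
    filter_upwards [hbd 1] with n hn
    exact mem_closedBall_zero_iff.2 (hn 0 (mem_ball_self one_pos)))
  have hk0 : Tendsto (fun n => K n 0) 𝒰 (𝓝 k) := hk
  have hkz : ∀ z, Tendsto (fun n => K n z) 𝒰 (𝓝 k) := by
    intro z
    have h1 : Tendsto (fun n => dist (K n z) (K n 0)) 𝒰 (𝓝 0) := by
      rw [Metric.tendsto_nhds]
      intro η hη
      set R : ℝ := (3 * C) * (‖z‖ + 1) / η + ‖z‖ + 1 with hR
      have hR0 : 0 < R := by positivity
      filter_upwards [hbd R] with n hn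
      rw [Real.dist_eq, sub_zero, abs_of_nonneg dist_nonneg]
      have hzR : z ∈ ball (0 : ℂ) R := by
        rw [mem_ball_zero_iff]
        have : 0 ≤ (3 * C) * (‖z‖ + 1) / η := by positivity
        linarith
      have h2 := Complex.dist_le_div_mul_dist_of_mapsTo_ball (f := K n) (c := 0) (R₁ := R) (R₂ := 3 * C) (z := z) (hKd n).differentiableOn
        (fun w hw => by
          rw [mem_closedBall, dist_eq_norm]
          have h3 := norm_sub_le (K n w) (K n 0)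
          have h4 := hn w hw
          have h5 := hn 0 (mem_ball_self hR0)
          linarith) hzR
      rw [dist_zero_right] at h2
      refine lt_of_le_of_lt h2 ?_
      rw [div_mul_eq_mul_div, div_lt_iff₀ hR0]
      have h3 : η * ((3 * C) * (‖z‖ + 1) / η) = (3 * C) * (‖z‖ + 1) := by
        field_simp
      have h4 : η * R = (3 * C) * (‖z‖ + 1) + η * (‖z‖ + 1) := by
        rw [hR, add_assoc, mul_add, h3]
      have h5 : 0 < η * (‖z‖ + 1) := by positivity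
      rw [h4]
      linarith
    have h2 : Tendsto (fun n => K n z - K n 0) 𝒰 (𝓝 0) := by
      rw [tendsto_zero_iff_norm_tendsto_zero]
      simpa only [dist_eq_norm] using h1
    have h3 := h2.add hk0
    simp only [sub_add_cancel, zero_add] at h3
    exact h3
  have hkG : G j k = 1 := by
    have h1 : Tendsto (fun n => G j (K n 0)) 𝒰 (𝓝 (G j k)) := ((E.dif j).continuous.tendsto _).comp hk0
    simp only [hKG] at h1
    exact tendsto_nhds_unique h1 tendsto_const_nhds |>.symm ▸ rfl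
  have hkne : k ≠ 0 := by
    rintro rfl
    have h1 := E.hom j 0 0
    rw [smul_zero, zero_pow (E.pos j).ne', zero_mul] at h1
    rw [h1] at hkG
    exact zero_ne_one hkG
  have hKX : ∀ n z, K n z ∈ X := by
    intro n z
    obtain ⟨c, hc, h⟩ := hKF n z
    rw [h]
    exact E.cone.smul_mem _ ((hF n).1.2.1 z) c hc
  have hKu : ∀ n z, u (K n z) - z ∈ Λ := by
    intro n z
    obtain ⟨c, hc, h⟩ := hKF n z
    rw [h]
    have h1 := E.tor.smul (F n z) ((hF n).1.2.1 z) c hc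
    have h2 := Λ.add_mem h1 ((hF n).1.2.2 z)
    convert h2 using 1
    ring
  have hkX : k ∈ X := by
    have h2 : k ∈ insert 0 X := E.cone.closed.mem_of_tendsto hk0 (Eventually.of_forall fun n => Or.inr (hKX n 0))
    rcases h2 with h2 | h2
    · exact absurd h2 hkne
    · exact h2
  have hku : ∀ z : ℂ, u k - z ∈ Λ := by
    intro z
    apply Pool.Agent.H62.EF.Lat.mem_of_close E.lat
    intro ε hε
    obtain ⟨δ₁, hδ₁, hδ2⟩ := Pool.Agent.H62.EF.TorusMap.unif E.cone E.tor hε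
    have h1 : Tendsto (fun n => pr (K n z)) 𝒰 (𝓝 (pr k)) := (continuousAt_pr hkne).tendsto.comp (hkz z)
    obtain ⟨n, hn⟩ := (Metric.tendsto_nhds.1 h1 δ₁ hδ₁).exists
    obtain ⟨l, hl, hl2⟩ := hδ2 (K n z) (hKX n z) k hkX hn
    refine ⟨(u (K n z) - z) - l, Λ.sub_mem (hKu n z) hl, ?_⟩
    have h2 : u k - z - ((u (K n z) - z) - l) = -(u (K n z) - u k - l) := by ring
    rw [h2, norm_neg]
    exact hl2
  obtain ⟨ε, hε, hdisc⟩ := E.lat.discrete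
  have h1 := Λ.sub_mem (hku 0) (hku ((ε / 2 : ℝ) : ℂ))
  have h2 : ((ε / 2 : ℝ) : ℂ) ∈ Λ := by
    convert h1 using 1
    ring
  have h3 := hdisc _ h2 (by
    rw [Complex.norm_real, Real.norm_of_nonneg (by positivity)]
    linarith)
  have h4 : (ε / 2 : ℝ) = 0 := by exact_mod_cast h3
  linarith

/-- **There are no sections which avoid the `D i`.** -/
theorem sg_empty (E : LData X Λ u B δ G m) (hno : NoLim X Λ u B G) : SG X Λ u G = ∅ := by
  classical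
  rw [Set.eq_empty_iff_forall_notMem]
  intro F₀ hF₀
  have hδ := E.bad.pos
  set Φ : Set (Finset (Fin s)) := {I | ∀ ε : ℝ, 0 < ε → ∃ F ∈ SG X Λ u G, ∃ z ∈ Gd B δ, ∀ i ∈ I, ‖G i (F z)‖ < ε * ‖F z‖ ^ m i} with hΦ
  have hΦ0 : ∅ ∈ Φ := by
    intro ε _
    obtain ⟨z, hz⟩ := E.bad.nonempty
    exact ⟨F₀, hF₀, z, gd_mono (by linarith) hz, fun i hi => absurd hi (Finset.notMem_empty i)⟩
  obtain ⟨I, hI⟩ := (Set.toFinite Φ).exists_maximal ⟨∅, hΦ0⟩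
  have hIΦ : I ∈ Φ := hI.prop
  obtain ⟨R, hR0, hR⟩ := E.lat.cocompact
  have hbig : ∀ n : ℕ, ∃ F ∈ SG X Λ u G, ∃ z ∈ Gd B δ, ‖z‖ ≤ R ∧ ∀ i ∈ I, ‖G i (F z)‖ < 1 / ((n : ℝ) + 1) * ‖F z‖ ^ m i := by
    intro n
    obtain ⟨F, hF, z, hz, hb⟩ := hIΦ (1 / ((n : ℝ) + 1)) (by positivity)
    obtain ⟨l, hl, hlR⟩ := hR z
    refine ⟨fun ζ => F (ζ + l), sg_trans hF hl, z - l, ?_, hlR, fun i hi => ?_⟩
    · rw [← BadSet.gd_add E.bad δ hl, sub_add_cancel]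
      exact hz
    · show ‖G i (F (z - l + l))‖ < 1 / ((n : ℝ) + 1) * ‖F (z - l + l)‖ ^ m i
      rw [sub_add_cancel]
      exact hb i hi
  choose F hF zc hzG hzR hzc using hbig
  set 𝒰 : Ultrafilter ℕ := hyperfilter ℕ with h𝒰
  have hle : (𝒰 : Filter ℕ) ≤ atTop := Nat.hyperfilter_le_atTop
  obtain ⟨w₀, -, hw₀⟩ := (isCompact_closedBall (0 : ℂ) R).ultrafilter_le_nhds (𝒰.map zc) (by
    rw [Filter.le_principal_iff, Ultrafilter.coe_map, Filter.mem_map]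
    exact Filter.univ_mem' fun n => mem_closedBall_zero_iff.2 (hzR n))
  have hwt : Tendsto zc 𝒰 (𝓝 w₀) := hw₀
  have hw₀G : w₀ ∈ Gd B δ := (isClosed_gd (B := B) δ).mem_of_tendsto hwt (Eventually.of_forall hzG)
  have hw₀B := gd_notMem hδ hw₀G
  obtain ⟨x, hxX, hx⟩ := exists_limit E 𝒰 hF
  have hxI : ∀ i ∈ I, ∀ z, z ∉ B → G i (x z) = 0 := by
    intro i hi
    have h1 : G i (x w₀) = 0 := by
      refine q_zero E hx i hw₀B hwt fun ε hε => ?_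
      have h2 : ∀ᶠ n : ℕ in (𝒰 : Filter ℕ), 1 / ((n : ℝ) + 1) < ε :=
        (tendsto_one_div_add_atTop_nhds_zero_nat.mono_left hle).eventually_lt_const hε
      filter_upwards [h2] with n hn
      refine (hzc n i hi).trans_le ?_
      gcongr
    rcases limit_dichotomy E 𝒰 hF hx i with h | h
    · exact h
    · exact absurd h1 (h w₀ hw₀B)
  by_cases huniv : ∃ j, j ∉ I
  swap
  · push Not at huniv
    exact hno 𝒰 F hF x hx fun i => hxI i (huniv i)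
  obtain ⟨j, hj⟩ := huniv
  have hins : insert j I ∉ Φ := by
    intro h
    have h1 : I ≤ insert j I := Finset.subset_insert j I
    have h2 : insert j I ≤ I := hI.le_of_ge h h1
    exact hj (h2 (Finset.mem_insert_self j I))
  have hins' : ∃ ε₀ : ℝ, 0 < ε₀ ∧ ∀ F ∈ SG X Λ u G, ∀ z ∈ Gd B δ, ∃ i ∈ insert j I, ε₀ * ‖F z‖ ^ m i ≤ ‖G i (F z)‖ := by
    by_contra hcon
    push Not at hcon
    exact hins fun ε hε => hcon ε hε
  obtain ⟨ε₀, hε₀, hins'⟩ := hins'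
  refine liouville E j (𝒰 := 𝒰) hF hε₀ fun K hK hKG => ?_
  have h1 : ∀ᶠ n in (𝒰 : Filter ℕ), ∀ z ∈ K, ∀ i ∈ I, ‖G i (F n z)‖ < ε₀ * ‖F n z‖ ^ m i := by
    refine hK.induction_on (p := fun S => ∀ᶠ n in (𝒰 : Filter ℕ), ∀ z ∈ S, ∀ i ∈ I, ‖G i (F n z)‖ < ε₀ * ‖F n z‖ ^ m i) ?_ ?_ ?_ ?_
    · exact Eventually.of_forall fun n z hz => absurd hz (Set.notMem_empty z)
    · exact fun S T hST hT => hT.mono fun n hn z hz => hn z (hST hz)
    · intro S T hS hT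
      filter_upwards [hS, hT] with n h1 h2 z hz
      rcases hz with hz | hz
      · exact h1 z hz
      · exact h2 z hz
    · intro w hw
      have hwB : w ∉ B := gd_notMem hδ (hKG hw)
      have h2 : ∀ i ∈ I, ∃ V ∈ 𝓝 w, ∀ᶠ n in (𝒰 : Filter ℕ), ∀ z ∈ V, ‖G i (F n z)‖ < ε₀ * ‖F n z‖ ^ m i :=
        fun i hi => q_small E hx i hwB (hxI i hi w hwB) hε₀
      choose! V hV h3 using h2
      refine ⟨⋂ i ∈ I, V i, nhdsWithin_le_nhds ((Filter.biInter_finset_mem I).2 hV), ?_⟩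
      have h4 : ∀ᶠ n in (𝒰 : Filter ℕ), ∀ i ∈ I, ∀ z ∈ V i, ‖G i (F n z)‖ < ε₀ * ‖F n z‖ ^ m i := by
        rw [Filter.eventually_all_finset]
        exact h3
      filter_upwards [h4] with n hn z hz i hi
      exact hn i hi z (Set.mem_iInter₂.1 hz i hi)
  filter_upwards [h1] with n hn z hz
  obtain ⟨i, hi, h2⟩ := hins' (F n) (hF n) z (hKG hz)
  rcases Finset.mem_insert.1 hi with rfl | hi
  · exact h2
  · exact absurd h2 (not_le.2 (hn z hz i hi))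

end Pool.Agent.H86.LS

end
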